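import Mathlib
set_option autoImplicit false
namespace Pool.Agent.H30Fi
open Classical

section
variable {α V : Type} [Fintype α] [Fintype V] (F : SimpleGraph α) (G : SimpleGraph V)

def Emb (φ : α → V) : Prop := Function.Injective φ ∧ ∀ a b, F.Adj a b → G.Adj (φ a) (φ b)

def DS (v : V) : Set (α → V) := {φ | Emb F G φ ∧ ∃ a, φ a = v}

def PS (u v : V) : Set (α → V) :=
  {φ | Emb F G φ ∧ (∀ a, φ a ≠ v) ∧ ∃ x y, F.Adj x y ∧ φ x = u ∧ ¬ G.Adj v (φ y)}

def AS (u v : V) : Set (α → V) :=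
  {φ | Emb F G φ ∧ (∀ a, φ a ≠ v) ∧ (∃ x, φ x = u) ∧ ∀ x y, F.Adj x y → φ x = u → G.Adj v (φ y)}

lemma AS_le (u v : V) : (AS F G u v).ncard ≤ (AS F G v u).ncard := by
  refine Set.ncard_le_ncard_of_injOn (fun φ => Equiv.swap u v ∘ φ) ?_ ?_ (Set.toFinite _)
  · rintro φ ⟨⟨h1, h2⟩, h3, ⟨x0, h4⟩, h5⟩
    have fx : ∀ a, φ a ≠ u → Equiv.swap u v (φ a) = φ a := fun a h =>
      Equiv.swap_apply_of_ne_of_ne h (h3 a)
    have fu : ∀ a, φ a = u → Equiv.swap u v (φ a) = v := fun a h => by rw [h, Equiv.swap_apply_left]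
    refine ⟨⟨(Equiv.swap u v).injective.comp h1, ?_⟩, ?_, ⟨x0, fu _ h4⟩, ?_⟩
    · intro a b h
      show G.Adj (Equiv.swap u v (φ a)) (Equiv.swap u v (φ b))
      by_cases ha : φ a = u
      · have hb : φ b ≠ u := fun e => (h2 a b h).ne (ha.trans e.symm)
        rw [fu a ha, fx b hb]; exact h5 a b h ha
      · by_cases hb : φ b = u
        · rw [fx a ha, fu b hb]; exact (h5 b a h.symm hb).symm
        · rw [fx a ha, fx b hb]; exact h2 a b h
    · intro a
      show Equiv.swap u v (φ a) ≠ u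
      by_cases ha : φ a = u
      · rw [fu a ha]; exact fun e => h3 a (ha.trans e.symm)
      · rw [fx a ha]; exact ha
    · intro x y h e
      have e' : Equiv.swap u v (φ x) = v := e
      have hx : φ x = u := by
        by_contra hx
        rw [fx x hx] at e'; exact h3 x e'
      have hy : φ y ≠ u := fun e => (h2 x y h).ne (hx.trans e.symm)
      show G.Adj u (Equiv.swap u v (φ y))
      rw [fx y hy, ← hx]; exact h2 x y h
  · intro φ _ ψ _ e
    funext a
    exact (Equiv.swap u v).injective (congrFun e a)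

lemma swap_lt (u v : V) (h : (PS F G u v).ncard < (PS F G v u).ncard) :
    (DS F G u).ncard < (DS F G v).ncard := by
  have key : ∀ u v : V, (DS F G u).ncard =
      (DS F G u ∩ DS F G v).ncard + (AS F G u v).ncard + (PS F G u v).ncard := by
    intro u v
    rw [← Set.ncard_union_eq, ← Set.ncard_union_eq]
    · congr 1
      ext φ
      constructor
      · rintro ⟨h1, x, h2⟩
        by_cases hv : ∃ a, φ a = v
        · exact Or.inl (Or.inl ⟨⟨h1, x, h2⟩, h1, hv⟩)
        · push Not at hv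
          by_cases hp : ∃ x y, F.Adj x y ∧ φ x = u ∧ ¬ G.Adj v (φ y)
          · exact Or.inr ⟨h1, hv, hp⟩
          · push Not at hp
            exact Or.inl (Or.inr ⟨h1, hv, ⟨x, h2⟩, hp⟩)
      · rintro ((h | h) | h)
        · exact h.1
        · exact ⟨h.1, h.2.2.1⟩
        · obtain ⟨h1, _, x, _, _, h2, _⟩ := h
          exact ⟨h1, x, h2⟩
    · rw [Set.disjoint_left]
      rintro φ (h | h) ⟨_, h2, x, y, h3, h4, h5⟩
      · obtain ⟨a, ha⟩ := h.2.2
        exact h2 a ha
      · exact h5 (h.2.2.2 x y h3 h4)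
    · rw [Set.disjoint_left]
      rintro φ h h'
      obtain ⟨a, ha⟩ := h.2.2
      exact h'.2.1 a ha
  rw [key u v, key v u, Set.inter_comm (DS F G v)]
  have := AS_le F G u v
  omega

def Err (α : Type) [Fintype α] (Z : Finset V) (a : ℕ) : Set (α → V) :=
  {φ | a ≤ (Finset.univ.filter (fun x => φ x ∈ Z)).card}

lemma err_le (Z : Finset V) (a : ℕ) :
    (Err α Z a).ncard * Fintype.card V ^ a ≤
      2 ^ Fintype.card α * Z.card ^ a * Fintype.card V ^ Fintype.card α := by
  let B : Finset α → Finset (α → V) := fun A =>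
    Fintype.piFinset (fun x => if x ∈ A then Z else Finset.univ)
  have h1 : Err α Z a ⊆ ↑((Finset.univ.powersetCard a).biUnion B) := by
    intro φ h
    obtain ⟨A, hA, hc⟩ := Finset.exists_subset_card_eq h
    simp only [Finset.coe_biUnion, Finset.mem_coe, Set.mem_iUnion]
    refine ⟨A, Finset.mem_powersetCard.2 ⟨Finset.subset_univ _, hc⟩, ?_⟩
    rw [Fintype.mem_piFinset]
    intro x
    split_ifs with hx
    · exact (Finset.mem_filter.1 (hA hx)).2
    · exact Finset.mem_univ _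
  have h2 : ∀ A ∈ (Finset.univ : Finset α).powersetCard a,
      (B A).card * Fintype.card V ^ a = Z.card ^ a * Fintype.card V ^ Fintype.card α := by
    intro A hA
    have hc := (Finset.mem_powersetCard.1 hA).2
    have hle : a ≤ Fintype.card α := hc ▸ Finset.card_le_univ A
    simp only [B, Fintype.card_piFinset, apply_ite Finset.card, Finset.card_univ]
    rw [Finset.prod_ite, Finset.prod_const, Finset.prod_const]
    have e1 : (Finset.univ.filter (fun x => x ∈ A)) = A := by ext; simp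
    have e2 : (Finset.univ.filter (fun x => ¬ x ∈ A)) = Aᶜ := by ext; simp
    rw [e1, e2, Finset.card_compl, hc, mul_assoc, ← pow_add, Nat.sub_add_cancel hle]
  have h3 := Set.ncard_le_ncard h1 (Set.toFinite _)
  rw [Set.ncard_coe_finset] at h3
  calc _ ≤ (∑ A ∈ (Finset.univ : Finset α).powersetCard a, (B A).card) * Fintype.card V ^ a :=
        Nat.mul_le_mul_right _ (h3.trans Finset.card_biUnion_le)
    _ = ∑ A ∈ (Finset.univ : Finset α).powersetCard a, Z.card ^ a * Fintype.card V ^ Fintype.card α := by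
        rw [Finset.sum_mul]; exact Finset.sum_congr rfl h2
    _ ≤ _ := by
        rw [Finset.sum_const, smul_eq_mul, mul_assoc, Finset.card_powersetCard, Finset.card_univ]
        exact Nat.mul_le_mul_right _ (Nat.choose_le_two_pow _ _)

def Ext (A : Finset α) (g : α → V) (Q : Finset V) : Set (α → V) :=
  {φ | Function.Injective φ ∧ (∀ a ∈ A, φ a = g a) ∧ ∀ a, a ∉ A → φ a ∈ Q}

lemma ext_ge (A : Finset α) (g : α → V) (Q : Finset V) (hg : Set.InjOn g A)
    (hq : ∀ a ∈ A, g a ∉ Q) :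
    (Q.card - Fintype.card α) ^ (Fintype.card α - A.card) ≤ (Ext A g Q).ncard := by
  let f : ({a // a ∉ A} ↪ {v // v ∈ Q}) → (α → V) := fun e a =>
    if h : a ∈ A then g a else (e ⟨a, h⟩).1
  have h1 : (Set.univ : Set ({a // a ∉ A} ↪ {v // v ∈ Q})).ncard ≤ (Ext A g Q).ncard := by
    refine Set.ncard_le_ncard_of_injOn f ?_ ?_ (Set.toFinite _)
    · intro e _
      refine ⟨?_, fun a ha => by simp [f, ha], fun a ha => by simp [f, ha]⟩
      intro a b hab
      by_cases ha : a ∈ A <;> by_cases hb : b ∈ A <;> simp only [f, ha, hb, dif_pos, dif_neg, not_false_eq_true] at hab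
      · exact hg ha hb hab
      · exact (hq a ha (hab ▸ (e ⟨b, hb⟩).2)).elim
      · exact (hq b hb (hab ▸ (e ⟨a, ha⟩).2)).elim
      · have := e.injective (Subtype.ext hab)
        exact congrArg Subtype.val this
    · intro e _ e' _ h
      ext ⟨a, ha⟩
      have := congrFun h a
      simpa [f, ha] using this
  rw [Set.ncard_univ, Nat.card_eq_fintype_card, Fintype.card_embedding_eq] at h1
  have e1 : Fintype.card {a // a ∉ A} = Fintype.card α - A.card := by
    rw [Fintype.card_subtype_compl]; simp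
  have e2 : Fintype.card {v // v ∈ Q} = Q.card := by simp
  rw [e1, e2] at h1
  refine le_trans ?_ ((Nat.pow_sub_le_descFactorial _ _).trans h1)
  exact Nat.pow_le_pow_left (by omega) _

lemma big (Z Q : Finset V) (L : ℕ) (hL : 1 ≤ L) (hZ : Z.card ≤ L)
    (h1 : 10 ^ Fintype.card α * L ^ (Fintype.card α + 1) < Fintype.card V)
    (h2 : Fintype.card V ≤ 5 * (Q.card - Fintype.card α))
    (A : Finset α) (g : α → V) (hg : Set.InjOn g A) (hq : ∀ a ∈ A, g a ∉ Q) :
    (Err α Z (A.card + 1)).ncard < (Ext A g Q).ncard := by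
  have e1 := err_le (α := α) Z (A.card + 1)
  have e2 := ext_ge A g Q hg hq
  have ha : A.card ≤ Fintype.card α := Finset.card_le_univ A
  generalize (Err α Z (A.card + 1)).ncard = E at *
  generalize (Ext A g Q).ncard = Y at *
  generalize A.card = a at *
  generalize Fintype.card α = n at *
  generalize Fintype.card V = N at *
  generalize Q.card - n = q at *
  have hN : 0 < N := by omega
  have e3 : N ^ (n - a) ≤ 5 ^ n * Y := by
    calc _ ≤ (5 * q) ^ (n - a) := Nat.pow_le_pow_left h2 _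
      _ = 5 ^ (n - a) * q ^ (n - a) := mul_pow _ _ _
      _ ≤ _ := Nat.mul_le_mul (Nat.pow_le_pow_right (by norm_num) (by omega)) e2
  have e4 : Z.card ^ (a + 1) ≤ L ^ (n + 1) :=
    (Nat.pow_le_pow_left hZ _).trans (Nat.pow_le_pow_right hL (by omega))
  have e5 : 5 ^ n * E * N ^ (a + 1) < 5 ^ n * Y * N ^ (a + 1) := by
    calc _ = 5 ^ n * (E * N ^ (a + 1)) := by ring
      _ ≤ 5 ^ n * (2 ^ n * L ^ (n + 1) * N ^ n) :=
          Nat.mul_le_mul_left _ (e1.trans (Nat.mul_le_mul_right _ (Nat.mul_le_mul_left _ e4)))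
      _ = (10 ^ n * L ^ (n + 1)) * N ^ n := by
          rw [show (10 : ℕ) = 5 * 2 from rfl, mul_pow]; ring
      _ < N * N ^ n := Nat.mul_lt_mul_of_pos_right h1 (pow_pos hN _)
      _ = N ^ (n - a) * N ^ (a + 1) := by
          rw [← pow_add, ← pow_succ']; congr 1; omega
      _ ≤ _ := Nat.mul_le_mul_right _ e3
  exact Nat.lt_of_mul_lt_mul_left (Nat.lt_of_mul_lt_mul_right e5)

noncomputable def nb (x : α) : Finset α := Finset.univ.filter (fun y => F.Adj x y)

lemma mem_nb {x y : α} : y ∈ nb F x ↔ F.Adj x y := by simp [nb]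

lemma card_cl (x : α) : (insert x (nb F x)).card = (nb F x).card + 1 :=
  Finset.card_insert_of_notMem (fun h => ((mem_nb F).1 h).ne rfl)

lemma err_of (Z : Finset V) (φ : α → V) (h : Emb F G φ) (x : α) (hx : φ x ∈ Z)
    (hn : ∀ y, G.Adj (φ x) y → y ∈ Z) :
    insert x (nb F x) ⊆ Finset.univ.filter (fun a => φ a ∈ Z) := by
  intro a ha
  rw [Finset.mem_filter]
  refine ⟨Finset.mem_univ _, ?_⟩
  rcases Finset.mem_insert.1 ha with rfl | ha
  · exact hx
  · exact hn _ (h.2 _ _ ((mem_nb F).1 ha))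

noncomputable def tr (Z : Finset V) (b b' : V) (ι : V → V) (v : V) : V :=
  if v = b then b' else if v ∈ Z then ι v else v

lemma light (Z : Finset V) (b b' : V) (ι : V → V) (d : ℕ) (hd : ∀ x, d ≤ (nb F x).card)
    (hb : b ∈ Z) (hb' : b' ∈ Z)
    (h1 : ∀ y, G.Adj b y → y ∈ Z ∧ ι y ∈ Z ∧ G.Adj b' (ι y))
    (h3 : ∀ y y', G.Adj b y → G.Adj b y' → y ≠ y' → G.Adj (ι y) (ι y'))
    (h4 : ∀ y z, G.Adj b y → z ∉ Z → G.Adj y z → G.Adj (ι y) z)
    (X X' Y : Set (α → V)) (hX : X ⊆ DS F G b) (hY : Y ⊆ X')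
    (hT : ∀ φ ∈ X, ∀ x, φ x = b → (nb F x).card = d → (∀ a, φ a ∈ Z → φ a = b ∨ G.Adj b (φ a)) →
      Emb F G (tr Z b b' ι ∘ φ) → tr Z b b' ι ∘ φ ∈ X' ∧ tr Z b b' ι ∘ φ ∉ Y)
    (hE : (Err α Z (d + 2)).ncard < Y.ncard) : X.ncard < X'.ncard := by
  have tb : tr Z b b' ι b = b' := by simp [tr]
  have tn : ∀ y, G.Adj b y → tr Z b b' ι y = ι y := fun y h => by
    simp [tr, h.ne', (h1 y h).1]
  have tz : ∀ y, y ∉ Z → tr Z b b' ι y = y := fun y h => by
    have : y ≠ b := fun e => h (e ▸ hb)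
    simp [tr, h, this]
  have inj : ∀ u v, (u ∈ Z → u = b ∨ G.Adj b u) → (v ∈ Z → v = b ∨ G.Adj b v) →
      tr Z b b' ι u = tr Z b b' ι v → u = v := by
    intro u v hu hv e
    by_cases zu : u ∈ Z <;> by_cases zv : v ∈ Z
    · rcases hu zu with rfl | hu <;> rcases hv zv with rfl | hv
      · rfl
      · rw [tb, tn v hv] at e; exact ((h1 v hv).2.2.ne e).elim
      · rw [tb, tn u hu] at e; exact ((h1 u hu).2.2.ne e.symm).elim
      · rw [tn u hu, tn v hv] at e
        by_contra hne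
        exact (h3 u v hu hv hne).ne e
    · rw [tz v zv] at e
      rcases hu zu with rfl | hu
      · rw [tb] at e; exact (zv (e ▸ hb')).elim
      · rw [tn u hu] at e; exact (zv (e ▸ (h1 u hu).2.1)).elim
    · rw [tz u zu] at e
      rcases hv zv with rfl | hv
      · rw [tb] at e; exact (zu (e ▸ hb')).elim
      · rw [tn v hv] at e; exact (zu (e ▸ (h1 v hv).2.1)).elim
    · rwa [tz u zu, tz v zv] at e
  have main : ∀ φ ∈ X \ Err α Z (d + 2), (∀ a, φ a ∈ Z → φ a = b ∨ G.Adj b (φ a)) ∧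
      tr Z b b' ι ∘ φ ∈ X' \ Y := by
    rintro φ ⟨hφ, hn⟩
    obtain ⟨he, x, hx⟩ := hX hφ
    have hs := err_of F G Z φ he x (hx ▸ hb) (fun y h => (h1 y (hx ▸ h)).1)
    have hc : ¬ d + 2 ≤ (Finset.univ.filter (fun a => φ a ∈ Z)).card := hn
    have hc1 := card_cl F x
    have hc2 := hd x
    have hc3 := Finset.card_le_card hs
    have heq := Finset.eq_of_subset_of_card_le hs (by omega)
    have hz : ∀ a, φ a ∈ Z → φ a = b ∨ G.Adj b (φ a) := by
      intro a ha
      have : a ∈ insert x (nb F x) := by rw [heq]; simpa using ha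
      rcases Finset.mem_insert.1 this with rfl | h
      · exact Or.inl hx
      · exact Or.inr (hx ▸ he.2 _ _ ((mem_nb F).1 h))
    refine ⟨hz, hT φ hφ x hx (by omega) hz ⟨?_, ?_⟩⟩
    · intro a a' e
      exact he.1 (inj _ _ (hz a) (hz a') e)
    · have half : ∀ a a', F.Adj a a' → φ a ∈ Z →
          G.Adj (tr Z b b' ι (φ a)) (tr Z b b' ι (φ a')) := by
        intro a a' h za
        have hadj := he.2 a a' h
        rcases hz a za with e | e
        · rw [e] at hadj ⊢
          rw [tb, tn _ hadj]; exact (h1 _ hadj).2.2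
        · rw [tn _ e]
          by_cases za' : φ a' ∈ Z
          · rcases hz a' za' with e' | e'
            · rw [e', tb]; exact (h1 _ e).2.2.symm
            · rw [tn _ e']; exact h3 _ _ e e' hadj.ne
          · rw [tz _ za']; exact h4 _ _ e za' hadj
      intro a a' h
      show G.Adj (tr Z b b' ι (φ a)) (tr Z b b' ι (φ a'))
      by_cases za : φ a ∈ Z
      · exact half a a' h za
      · by_cases za' : φ a' ∈ Z
        · exact (half a' a h.symm za').symm
        · rw [tz _ za, tz _ za']; exact he.2 a a' h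
  have c1 : (X \ Err α Z (d + 2)).ncard ≤ (X' \ Y).ncard := by
    refine Set.ncard_le_ncard_of_injOn (fun φ => tr Z b b' ι ∘ φ) (fun φ h => (main φ h).2) ?_
      (Set.toFinite _)
    intro φ h ψ h' e
    funext a
    exact inj _ _ ((main φ h).1 a) ((main ψ h').1 a) (congrFun e a)
  have c2 : X.ncard ≤ (X \ Err α Z (d + 2)).ncard + (Err α Z (d + 2)).ncard := by
    refine le_trans (Set.ncard_le_ncard ?_ (Set.toFinite _)) (Set.ncard_union_le _ _)
    intro φ h
    by_cases h' : φ ∈ Err α Z (d + 2)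
    · exact Or.inr h'
    · exact Or.inl ⟨h, h'⟩
  have c3 := Set.ncard_diff_add_ncard_of_subset hY (Set.toFinite _)
  omega

lemma star (φ : α → V) (hi : Function.Injective φ) (x : α) (K : V → Prop)
    (hK : ∀ u v, K u → K v → u ≠ v → G.Adj u v) (h1 : ∀ a, a ≠ x → K (φ a))
    (h2 : ∀ a, F.Adj x a → G.Adj (φ x) (φ a)) : Emb F G φ := by
  refine ⟨hi, fun a b h => ?_⟩
  by_cases ha : a = x
  · subst ha; exact h2 b h
  · by_cases hb : b = x
    · subst hb; exact (h2 a h.symm).symm
    · exact hK _ _ (h1 a ha) (h1 b hb) (fun e => h.ne (hi e))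

end
end Pool.Agent.H30Fi
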