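import Mathlib
import Pool.Agent.H30Fi
set_option autoImplicit false
namespace Pool.Agent.H30Fi
open Classical

section
variable {α V : Type} [Fintype α] [Fintype V] (F : SimpleGraph α) (G : SimpleGraph V)

def sub (φ : α → V) : G.Subgraph where
  verts := Set.range φ
  Adj x y := G.Adj x y ∧ ∃ a b, F.Adj a b ∧ φ a = x ∧ φ b = y
  adj_sub h := h.1
  edge_vert h := by obtain ⟨_, a, _, _, h, _⟩ := h; exact ⟨a, h⟩
  symm := ⟨fun _ _ h => by
    obtain ⟨h1, a, b, h2, h3, h4⟩ := h; exact ⟨h1.symm, b, a, h2.symm, h4, h3⟩⟩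

lemma sub_adj (φ : α → V) (h : Emb F G φ) (a b : α) : (sub F G φ).Adj (φ a) (φ b) ↔ F.Adj a b := by
  constructor
  · rintro ⟨_, a', b', h2, h3, h4⟩
    rw [← h.1 h3, ← h.1 h4]; exact h2
  · intro h'; exact ⟨h.2 a b h', a, b, h', rfl, rfl⟩

lemma sub_iso (φ : α → V) (h : Emb F G φ) : Nonempty ((sub F G φ).coe ≃g F) := by
  refine ⟨SimpleGraph.Iso.symm ⟨Equiv.ofInjective φ h.1, ?_⟩⟩
  intro a b
  exact sub_adj F G φ h a b

lemma sub_surj (H : G.Subgraph) (e : H.coe ≃g F) : ∃ φ, Emb F G φ ∧ sub F G φ = H := by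
  have key : ∀ a b, H.Adj (e.symm a).1 (e.symm b).1 ↔ F.Adj a b := fun a b => e.symm.map_rel_iff'
  refine ⟨fun a => (e.symm a).1, ⟨?_, ?_⟩, ?_⟩
  · exact Subtype.val_injective.comp e.symm.injective
  · intro a b h; exact H.adj_sub ((key a b).2 h)
  · ext x y
    · constructor
      · rintro ⟨a, rfl⟩; exact (e.symm a).2
      · intro h; exact ⟨e ⟨x, h⟩, by simp⟩
    · constructor
      · rintro ⟨_, a, b, h, rfl, rfl⟩; exact (key a b).2 h
      · intro h
        refine ⟨H.adj_sub h, e ⟨x, H.edge_vert h⟩, e ⟨y, H.edge_vert h.symm⟩, ?_, by simp, by simp⟩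
        rw [← key]; simpa using h

def Aut : Set (α → α) := {σ | Function.Injective σ ∧ ∀ a b, F.Adj (σ a) (σ b) ↔ F.Adj a b}

lemma fiber (φ0 : α → V) (h0 : Emb F G φ0) :
    {φ | Emb F G φ ∧ sub F G φ = sub F G φ0}.ncard = (Aut F).ncard := by
  have : {φ | Emb F G φ ∧ sub F G φ = sub F G φ0} = (fun σ => φ0 ∘ σ) '' Aut F := by
    ext φ
    constructor
    · rintro ⟨h, e⟩
      have hv : ∀ a, ∃ a', φ0 a' = φ a := fun a => by
        have : φ a ∈ (sub F G φ).verts := ⟨a, rfl⟩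
        rw [e] at this; exact this
      choose σ hσ using hv
      refine ⟨σ, ⟨?_, ?_⟩, funext hσ⟩
      · intro a b hab
        apply h.1; rw [← hσ, ← hσ, hab]
      · intro a b
        rw [← sub_adj F G φ0 h0, hσ, hσ, ← e, sub_adj F G φ h]
    · rintro ⟨σ, ⟨h1, h2⟩, rfl⟩
      have hs : Function.Surjective σ := Finite.surjective_of_injective h1
      refine ⟨⟨h0.1.comp h1, fun a b h => h0.2 _ _ ((h2 a b).2 h)⟩, ?_⟩
      ext x y
      · constructor
        · rintro ⟨a, rfl⟩; exact ⟨σ a, rfl⟩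
        · rintro ⟨a, rfl⟩
          obtain ⟨a', rfl⟩ := hs a
          exact ⟨a', rfl⟩
      · constructor
        · rintro ⟨h, a, b, h', rfl, rfl⟩; exact ⟨h, σ a, σ b, (h2 a b).2 h', rfl, rfl⟩
        · rintro ⟨h, a, b, h', rfl, rfl⟩
          obtain ⟨a', rfl⟩ := hs a
          obtain ⟨b', rfl⟩ := hs b
          exact ⟨h, a', b', (h2 _ _).1 h', rfl, rfl⟩
  rw [this, Set.ncard_image_of_injective]
  intro σ τ e
  funext a
  exact h0.1 (congrFun e a)

lemma bridge (v : V) : (DS F G v).ncard =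
    {H : G.Subgraph | Nonempty (H.coe ≃g F) ∧ v ∈ H.verts}.ncard * (Aut F).ncard := by
  let s := (Set.toFinite (DS F G v)).toFinset
  let t := (Set.toFinite {H : G.Subgraph | Nonempty (H.coe ≃g F) ∧ v ∈ H.verts}).toFinset
  have h1 : s.card = ∑ H ∈ t, (s.filter (fun φ => sub F G φ = H)).card := by
    apply Finset.card_eq_sum_card_fiberwise
    intro φ h
    have h' : φ ∈ DS F G v := by simpa [s] using h
    simp only [t, Set.Finite.coe_toFinset, Set.mem_setOf_eq]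
    exact ⟨sub_iso F G φ h'.1, h'.2⟩
  rw [Set.ncard_eq_toFinset_card _ (Set.toFinite _), Set.ncard_eq_toFinset_card _ (Set.toFinite _)]
  show s.card = t.card * _
  rw [h1, ← smul_eq_mul, ← Finset.sum_const]
  apply Finset.sum_congr rfl
  intro H hH
  have hH' : Nonempty (H.coe ≃g F) ∧ v ∈ H.verts := by simpa [t] using hH
  obtain ⟨⟨e⟩, hv⟩ := hH'
  obtain ⟨φ0, h0, rfl⟩ := sub_surj F G H e
  rw [← fiber F G φ0 h0, ← Set.ncard_coe_finset]
  congr 1
  ext φ
  simp only [s, Finset.coe_filter, Set.Finite.mem_toFinset, Set.mem_setOf_eq]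
  constructor
  · rintro ⟨h, e⟩; exact ⟨h.1, e⟩
  · rintro ⟨h, e⟩
    refine ⟨⟨h, ?_⟩, e⟩
    rw [← e] at hv; exact hv

noncomputable def g2 (x : α) (b c : V) (a : α) : V := if a = x then b else c

lemma g2_inj (x y : α) (b c : V) (h : b ≠ c) (hxy : x ≠ y) :
    Set.InjOn (g2 x b c) (({x, y} : Finset α) : Set α) := by
  intro a ha a' ha' e
  simp only [Finset.coe_insert, Finset.coe_singleton, Set.mem_insert_iff, Set.mem_singleton_iff] at ha ha'
  rcases ha with rfl | rfl <;> rcases ha' with rfl | rfl <;> simp_all [g2, hxy.symm]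

lemma ext2 (x y : α) (hxy : F.Adj x y) (b c : V) (hbc : G.Adj b c) (M : Finset V) (K : V → Prop)
    (hK : ∀ u v, K u → K v → u ≠ v → G.Adj u v) (hc : K c) (hM : ∀ z ∈ M, K z)
    (hb : ∀ a, F.Adj x a → a ≠ y → ∀ z ∈ M, G.Adj b z) (φ : α → V)
    (h : φ ∈ Ext {x, y} (g2 x b c) M) :
    Emb F G φ ∧ φ x = b ∧ φ y = c ∧ ∀ a, φ a = b ∨ φ a = c ∨ φ a ∈ M := by
  obtain ⟨h1, h2, h3⟩ := h
  have e1 : φ x = b := by rw [h2 x (by simp)]; simp [g2]
  have e2 : φ y = c := by rw [h2 y (by simp)]; simp [g2, hxy.ne']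
  have e3 : ∀ a, a ≠ x → a ≠ y → φ a ∈ M := fun a p q => h3 a (by simp [p, q])
  refine ⟨star F G φ h1 x K hK ?_ ?_, e1, e2, ?_⟩
  · intro a ha
    by_cases q : a = y
    · rw [q, e2]; exact hc
    · exact hM _ (e3 a ha q)
  · intro a ha
    by_cases q : a = y
    · rw [q, e1, e2]; exact hbc
    · rw [e1]; exact hb a ha q _ (e3 a ha.ne' q)
  · intro a
    by_cases p : a = x
    · exact Or.inl (p ▸ e1)
    · by_cases q : a = y
      · exact Or.inr (Or.inl (q ▸ e2))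
      · exact Or.inr (Or.inr (e3 a p q))

lemma ext2_PS (x y : α) (hxy : F.Adj x y) (b c : V) (hbc : G.Adj b c) (M : Finset V) (K : V → Prop)
    (hK : ∀ u v, K u → K v → u ≠ v → G.Adj u v) (hc : K c) (hM : ∀ z ∈ M, K z)
    (hb : ∀ a, F.Adj x a → a ≠ y → ∀ z ∈ M, G.Adj b z) (u v : V) (hu : u ∉ M) (hub : u ≠ b)
    (huc : u ≠ c) (hv : (v = b ∧ ¬ G.Adj u c) ∨ (v = c ∧ ¬ G.Adj u b)) :
    Ext {x, y} (g2 x b c) M ⊆ PS F G v u := by
  intro φ h
  obtain ⟨h1, h2, h3, h4⟩ := ext2 F G x y hxy b c hbc M K hK hc hM hb φ h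
  refine ⟨h1, ?_, ?_⟩
  · intro a e
    rcases h4 a with p | p | p
    · exact hub (e ▸ p)
    · exact huc (e ▸ p)
    · exact hu (e ▸ p)
  · rcases hv with ⟨rfl, p⟩ | ⟨rfl, p⟩
    · exact ⟨x, y, hxy, h2, h3 ▸ p⟩
    · exact ⟨y, x, hxy.symm, h3, h2 ▸ p⟩

lemma dom (x y : α) (hxy : F.Adj x y) (b c : V) (hbc : G.Adj b c) (M : Finset V) (K : V → Prop)
    (hK : ∀ u v, K u → K v → u ≠ v → G.Adj u v) (hc : K c) (hM : ∀ z ∈ M, K z)
    (hb : ∀ a, F.Adj x a → a ≠ y → ∀ z ∈ M, G.Adj b z) (u v : V) (hu : u ∉ M) (hub : u ≠ b)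
    (huc : u ≠ c) (hv : (v = b ∧ ¬ G.Adj u c) ∨ (v = c ∧ ¬ G.Adj u b))
    (hbM : b ∉ M) (hcM : c ∉ M) (hcard : Fintype.card α < M.card)
    (hd : ∀ z, G.Adj u z → z ≠ v → G.Adj v z) : (DS F G u).ncard < (DS F G v).ncard := by
  apply swap_lt
  have e : PS F G u v = ∅ := by
    ext φ
    constructor
    · rintro ⟨h1, h2, x, y, h3, h4, h5⟩
      exact h5 (hd _ (h4 ▸ h1.2 x y h3) (h2 y))
    · intro h; exact h.elim
  rw [e, Set.ncard_empty]
  refine lt_of_lt_of_le ?_ (Set.ncard_le_ncard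
    (ext2_PS F G x y hxy b c hbc M K hK hc hM hb u v hu hub huc hv) (Set.toFinite _))
  refine lt_of_lt_of_le ?_ (ext_ge _ _ _ (g2_inj x y b c hbc.ne hxy.ne) ?_)
  · exact pow_pos (by omega) _
  · intro a _
    unfold g2; split_ifs <;> assumption

lemma exists_g (x y0 y1 : α) (h0 : F.Adj x y0) (h1 : F.Adj x y1) (h01 : y0 ≠ y1) (b c w : V)
    (M : Finset V) (hc : c ∈ M) (hw : w ∈ M) (hcw : c ≠ w) (hb : b ∉ M)
    (hcard : Fintype.card α ≤ M.card) :
    ∃ g : α → V, Set.InjOn g (insert x (nb F x) : Finset α) ∧ g x = b ∧ g y0 = c ∧ g y1 = w ∧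
      ∀ a, F.Adj x a → g a ∈ M := by
  have hle : Fintype.card α ≤ Fintype.card M := by simpa using hcard
  obtain ⟨e⟩ := Function.Embedding.nonempty_of_card_le hle
  obtain ⟨σ, hσ⟩ := Equiv.Perm.exists_extending_pair (α := Bool) (β := M)
    (fun t => e (cond t y0 y1)) (fun t => cond t ⟨c, hc⟩ ⟨w, hw⟩)
    (by intro s t h; have := e.injective h; cases s <;> cases t <;> simp_all)
    (by intro s t h; cases s <;> cases t <;> simp_all)
  refine ⟨fun a => if a = x then b else (σ (e a)).1, ?_, by simp, ?_, ?_, ?_⟩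
  · intro a _ a' _ h
    by_cases p : a = x <;> by_cases q : a' = x <;> simp only [p, q, if_true, if_false] at h
    · rw [p, q]
    · exact (hb (h ▸ (σ (e a')).2)).elim
    · exact (hb (h ▸ (σ (e a)).2)).elim
    · exact e.injective (σ.injective (Subtype.ext h))
  · have := hσ true
    simp only [cond_true] at this
    simp [h0.ne', this]
  · have := hσ false
    simp only [cond_false] at this
    simp [h1.ne', this]
  · intro a ha
    simp [ha.ne']

end
end Pool.Agent.H30Fi
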