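import Mathlib
import Pool.Agent.H30Fi2
set_option autoImplicit false
namespace Pool.Agent.H30Fi
open Classical

section
variable {α V : Type} [Fintype α] [Fintype V] (F : SimpleGraph α) (G : SimpleGraph V)

lemma tr_b (Z : Finset V) (b b' : V) (ι : V → V) : tr Z b b' ι b = b' := by simp [tr]
lemma tr_n (Z : Finset V) (b b' : V) (ι : V → V) (y : V) (h : y ≠ b) (h' : y ∈ Z) :
    tr Z b b' ι y = ι y := by simp [tr, h, h']
lemma tr_z (Z : Finset V) (b b' : V) (ι : V → V) (y : V) (hb : b ∈ Z) (h' : y ∉ Z) :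
    tr Z b b' ι y = y := by
  have : y ≠ b := fun e => h' (e ▸ hb)
  simp [tr, this, h']

structure Ctx (Z Q : Finset V) (K : V → Prop) : Prop where
  big : ∀ (A : Finset α) (g : α → V), Set.InjOn g A → (∀ a ∈ A, g a ∉ Q) →
    (Err α Z (A.card + 1)).ncard < (Ext A g Q).ncard
  hK : ∀ u v, K u → K v → u ≠ v → G.Adj u v
  hQ : ∀ z ∈ Q, K z ∧ z ∉ Z

structure Lt (Z : Finset V) (K : V → Prop) (b b' c w : V) (ι : V → V) : Prop where
  hb : b ∈ Z
  hb' : b' ∈ Z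
  n1 : ∀ y, G.Adj b y → y ∈ Z
  n2 : ∀ y, G.Adj b' y → y ∈ Z ∧ K y
  i1 : ∀ y, G.Adj b y → G.Adj b' (ι y) ∧ ι y ≠ w
  i2 : ∀ y y', G.Adj b y → G.Adj b y' → y ≠ y' → ι y ≠ ι y'
  i4 : ∀ y z, G.Adj b y → z ∉ Z → G.Adj y z → G.Adj (ι y) z
  hc : G.Adj b' c
  hw : G.Adj b' w
  hcw : c ≠ w
  cd : Fintype.card α ≤ (Finset.univ.filter (fun y => G.Adj b' y)).card

lemma light2 (Z Q : Finset V) (K : V → Prop) (C : Ctx (α := α) G Z Q K) (b b' c w : V) (ι : V → V)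
    (T : Lt (α := α) G Z K b b' c w ι) (x y0 y1 : α) (h0 : F.Adj x y0) (h1 : F.Adj x y1)
    (h01 : y0 ≠ y1) (hd : ∀ a, (nb F x).card ≤ (nb F a).card)
    (X X' : Set (α → V)) (hX : X ⊆ DS F G b)
    (hT : ∀ φ ∈ X, (∀ a, φ a ∈ Z → φ a = b ∨ G.Adj b (φ a)) →
      Emb F G (tr Z b b' ι ∘ φ) → tr Z b b' ι ∘ φ ∈ X')
    (hY : ∀ ψ, Emb F G ψ → ψ x = b' → ψ y0 = c → (∀ a, ψ a = b' ∨ G.Adj b' (ψ a) ∨ ψ a ∉ Z) → ψ ∈ X') :
    X.ncard < X'.ncard := by
  obtain ⟨g, g1, g2, g3, g4, g5⟩ := exists_g F x y0 y1 h0 h1 h01 b' c w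
    (Finset.univ.filter (fun y => G.Adj b' y)) (by simpa using T.hc) (by simpa using T.hw) T.hcw
    (by simp) T.cd
  have g6 : ∀ a, F.Adj x a → G.Adj b' (g a) := fun a h => by simpa using g5 a h
  have mx : x ∈ insert x (nb F x) := Finset.mem_insert_self _ _
  have my : ∀ a, F.Adj x a → a ∈ insert x (nb F x) := fun a h =>
    Finset.mem_insert_of_mem ((mem_nb F).2 h)
  refine light F G Z b b' ι _ hd T.hb T.hb'
    (fun y h => ⟨T.n1 y h, (T.n2 _ (T.i1 y h).1).1, (T.i1 y h).1⟩)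
    (fun y y' h h' e => C.hK _ _ (T.n2 _ (T.i1 y h).1).2 (T.n2 _ (T.i1 y' h').1).2 (T.i2 y y' h h' e))
    T.i4 X X' (Ext (insert x (nb F x)) g Q) hX ?_ ?_ ?_
  · rintro ψ ⟨p1, p2, p3⟩
    have e1 : ψ x = b' := (p2 x mx).trans g2
    have e2 : ∀ a, F.Adj x a → G.Adj b' (ψ a) := fun a h => by rw [p2 a (my a h)]; exact g6 a h
    have e3 : ∀ a, a = x ∨ G.Adj b' (ψ a) ∨ ψ a ∈ Q := by
      intro a
      by_cases h : a ∈ insert x (nb F x)
      · rcases Finset.mem_insert.1 h with h | h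
        · exact Or.inl h
        · exact Or.inr (Or.inl (e2 a ((mem_nb F).1 h)))
      · exact Or.inr (Or.inr (p3 a h))
    refine hY ψ (star F G ψ p1 x K C.hK ?_ (fun a h => e1 ▸ e2 a h)) e1 ((p2 y0 (my _ h0)).trans g3) ?_
    · intro a ha
      rcases e3 a with h | h | h
      · exact (ha h).elim
      · exact (T.n2 _ h).2
      · exact (C.hQ _ h).1
    · intro a
      rcases e3 a with h | h | h
      · exact Or.inl (h ▸ e1)
      · exact Or.inr (Or.inl h)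
      · exact Or.inr (Or.inr (C.hQ _ h).2)
  · intro φ hφ x' _ _ hz he
    refine ⟨hT φ hφ hz he, ?_⟩
    rintro ⟨_, p2, _⟩
    have e : tr Z b b' ι (φ y1) = w := (p2 y1 (my _ h1)).trans g4
    by_cases z : φ y1 ∈ Z
    · rcases hz _ z with h | h
      · rw [h, tr_b] at e; exact T.hw.ne e
      · rw [tr_n _ _ _ _ _ h.ne' z] at e; exact (T.i1 _ h).2 e
    · rw [tr_z _ _ _ _ _ T.hb z] at e
      exact z (e ▸ (T.n2 _ T.hw).1)
  · have := C.big _ g g1 (by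
      intro a ha hq
      apply (C.hQ _ hq).2
      rcases Finset.mem_insert.1 ha with rfl | h
      · rw [g2]; exact T.hb'
      · exact (T.n2 _ (g6 a ((mem_nb F).1 h))).1)
    rwa [card_cl] at this

lemma stepB (Z Q : Finset V) (K : V → Prop) (C : Ctx (α := α) G Z Q K) (b b' c w : V) (ι : V → V)
    (T : Lt (α := α) G Z K b b' c w ι) (x y0 y1 : α) (h0 : F.Adj x y0) (h1 : F.Adj x y1)
    (h01 : y0 ≠ y1) (hd : ∀ a, (nb F x).card ≤ (nb F a).card) :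
    (DS F G b).ncard < (DS F G b').ncard := by
  refine light2 F G Z Q K C b b' c w ι T x y0 y1 h0 h1 h01 hd _ _ (fun _ h => h) ?_ ?_
  · rintro φ ⟨_, a, ha⟩ _ he
    exact ⟨he, a, by show tr Z b b' ι (φ a) = b'; rw [ha, tr_b]⟩
  · intro ψ he hx _ _; exact ⟨he, x, hx⟩

lemma stepT (Z Q : Finset V) (K : V → Prop) (C : Ctx (α := α) G Z Q K) (b b' c w : V) (ι : V → V)
    (T : Lt (α := α) G Z K b b' c w ι) (x y0 y1 : α) (h0 : F.Adj x y0) (h1 : F.Adj x y1)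
    (h01 : y0 ≠ y1) (hd : ∀ a, (nb F x).card ≤ (nb F a).card) (u : V) (hu : G.Adj b u)
    (hι : ι u = c) (hp : ∀ z, G.Adj u z → z ≠ c → ¬ G.Adj c z → z = b) (hn : ¬ G.Adj u b')
    (hne : u ≠ b') : (DS F G u).ncard < (DS F G c).ncard := by
  have pv : ∀ φ a a', Emb F G φ → (∀ a, φ a ≠ c) → F.Adj a a' → φ a = u → ¬ G.Adj c (φ a') →
      φ a' = b := fun φ a a' h1 h2 h3 h4 h5 => hp _ (h4 ▸ h1.2 a a' h3) (h2 a') h5
  apply swap_lt
  refine light2 F G Z Q K C b b' c w ι T x y0 y1 h0 h1 h01 hd _ _ ?_ ?_ ?_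
  · rintro φ ⟨p1, p2, a, a', p3, p4, p5⟩
    exact ⟨p1, a', pv φ a a' p1 p2 p3 p4 p5⟩
  · rintro φ ⟨p1, p2, a, a', p3, p4, p5⟩ hz he
    refine ⟨he, ?_, a, a', p3, ?_, ?_⟩
    · intro s e
      have e' : tr Z b b' ι (φ s) = u := e
      by_cases z : φ s ∈ Z
      · rcases hz _ z with h | h
        · rw [h, tr_b] at e'; exact hne e'.symm
        · rw [tr_n _ _ _ _ _ h.ne' z] at e'
          exact hn (e' ▸ (T.i1 _ h).1.symm)
      · rw [tr_z _ _ _ _ _ T.hb z] at e'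
        exact z (e' ▸ T.n1 _ hu)
    · show tr Z b b' ι (φ a) = c
      rw [p4, tr_n _ _ _ _ _ hu.ne' (T.n1 _ hu), hι]
    · show ¬ G.Adj u (tr Z b b' ι (φ a'))
      rw [pv φ a a' p1 p2 p3 p4 p5, tr_b]; exact hn
  · intro ψ he hx hy hz
    refine ⟨he, ?_, y0, x, h0.symm, hy, hx ▸ hn⟩
    intro s e
    rcases hz s with h | h | h
    · exact hne (e ▸ h)
    · exact hn (e ▸ h.symm)
    · exact h (e ▸ T.n1 _ hu)

lemma stepC (Z Q : Finset V) (K : V → Prop) (C : Ctx (α := α) G Z Q K) (x y : α) (hxy : F.Adj x y)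
    (hd : ∀ a, 2 ≤ (nb F a).card) (u c s : V) (hs : G.Adj s c) (hc : K c) (hsQ : ∀ z ∈ Q, G.Adj s z)
    (hu : u ∈ Z) (hcZ : c ∈ Z) (hsZ : s ∈ Z) (hus : u ≠ s) (huc : u ≠ c) (hn : ¬ G.Adj u s)
    (hp : ∀ z, G.Adj u z → z ≠ c → ¬ G.Adj c z → z ∈ Z ∧ ∀ y, G.Adj z y → y ∈ Z) :
    (DS F G u).ncard < (DS F G c).ncard := by
  apply swap_lt
  have h1 : PS F G u c ⊆ Err α Z 3 := by
    rintro φ ⟨p1, p2, a, a', p3, p4, p5⟩
    obtain ⟨q1, q2⟩ := hp _ (p4 ▸ p1.2 a a' p3) (p2 a') p5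
    have := Finset.card_le_card (err_of F G Z φ p1 a' q1 q2)
    rw [card_cl] at this
    have := hd a'
    show 3 ≤ _
    omega
  have h2 := ext2_PS F G x y hxy s c hs Q K C.hK hc (fun z h => (C.hQ z h).1)
    (fun _ _ _ z h => hsQ z h) u c (fun h => (C.hQ _ h).2 hu) hus huc (Or.inr ⟨rfl, hn⟩)
  have h3 := C.big {x, y} (g2 x s c) (g2_inj x y s c hs.ne hxy.ne) (by
    intro a _ h
    apply (C.hQ _ h).2
    unfold g2; split_ifs <;> assumption)
  rw [Finset.card_pair hxy.ne] at h3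
  exact lt_of_le_of_lt (Set.ncard_le_ncard h1 (Set.toFinite _))
    (lt_of_lt_of_le h3 (Set.ncard_le_ncard h2 (Set.toFinite _)))

lemma closed (hF : F.Connected) (S : Set α) (x : α) (hx : x ∈ S)
    (h : ∀ a ∈ S, ∀ b, F.Adj a b → b ∈ S) (z : α) : z ∈ S := by
  have := (SimpleGraph.reachable_iff_reflTransGen _ _).1 (hF.preconnected x z)
  induction this with
  | refl => exact hx
  | tail _ h2 ih => exact h _ ih _ h2

end

def GG (N : ℕ) (r : ℕ → ℕ → Prop) : SimpleGraph (Fin N) where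
  Adj u v := u.val ≠ v.val ∧ (r u.val v.val ∨ r v.val u.val)
  symm := ⟨fun _ _ h => ⟨h.1.symm, h.2.symm⟩⟩
  loopless := ⟨fun _ h => h.1 rfl⟩

lemma GG_adj (N : ℕ) (r : ℕ → ℕ → Prop) (u v : Fin N) :
    (GG N r).Adj u v ↔ u.val ≠ v.val ∧ (r u.val v.val ∨ r v.val u.val) := Iff.rfl

def fm (N a : ℕ) : Fin (N + 1) := ⟨min a N, by omega⟩

lemma fm_val (N a : ℕ) : (fm N a).val = min a N := rfl

def II (N a b : ℕ) : Finset (Fin N) := Finset.univ.filter (fun v => a ≤ v.val ∧ v.val < b)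

lemma mem_II {N a b : ℕ} {v : Fin N} : v ∈ II N a b ↔ a ≤ v.val ∧ v.val < b := by simp [II]

lemma card_II (N a b : ℕ) (h : b ≤ N) : (II N a b).card = b - a := by
  rw [← Nat.card_Ico]
  refine Finset.card_bij (fun v _ => v.val) ?_ ?_ ?_
  · intro v hv; exact Finset.mem_Ico.2 (mem_II.1 hv)
  · intro v _ w _ e; exact Fin.ext e
  · intro v hv
    have := Finset.mem_Ico.1 hv
    exact ⟨⟨v, by omega⟩, mem_II.2 this, rfl⟩

lemma inj_of_steps (N : ℕ) (f : Fin (N + 1) → ℕ) (h : ∀ i, i < N → f (fm N i) < f (fm N (i + 1))) :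
    Function.Injective f := by
  have : StrictMono f := by
    rw [Fin.strictMono_iff_lt_succ]
    intro i
    have h1 : fm N i = i.castSucc := Fin.ext (by have := i.2; simp [fm_val])
    have h2 : fm N (i + 1) = i.succ := Fin.ext (by have := i.2; simp [fm_val])
    rw [← h1, ← h2]; exact h i i.2
  exact this.injective

end Pool.Agent.H30Fi
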