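import Mathlib
import Pool.Agent.H30Fi3
set_option autoImplicit false
namespace Pool.Agent.H30Fi
open Classical

def r1 (r u v : ℕ) : Prop := (1 ≤ u ∧ 1 ≤ v ∧ 2 + 4 * r ≤ u + v + 1) ∨ (u = 0 ∧ v = 2 * r + 1)

lemma design1 {α : Type} [Fintype α] (F : SimpleGraph α) (x0 y0 y1 : α) (h0 : F.Adj x0 y0)
    (hleaf : ∀ a, F.Adj x0 a → a = y0) (h1 : F.Adj y0 y1) (hne : y1 ≠ x0)
    (hd : ∀ a, 1 ≤ (nb F a).card) (r : ℕ) (hr : 5 * Fintype.card α + 6 ≤ r)
    (hr2 : 10 ^ Fintype.card α * 7 ^ (Fintype.card α + 1) ≤ r) :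
    Function.Injective (fun v => (DS F (GG (4 * r + 1) (r1 r)) v).ncard) := by
  set G := GG (4 * r + 1) (r1 r) with hG
  let Z : Finset (Fin (4 * r + 1)) := (II _ 0 2 ∪ II _ (2 * r - 1) (2 * r + 3)) ∪ II _ (4 * r) (4 * r + 1)
  let Q : Finset (Fin (4 * r + 1)) := II _ (3 * r + 1) (4 * r)
  let K : Fin (4 * r + 1) → Prop := fun v => 2 * r + 1 ≤ v.val
  have mZ : ∀ v, v ∈ Z ↔ v.val < 2 ∨ (2 * r - 1 ≤ v.val ∧ v.val < 2 * r + 3) ∨ 4 * r ≤ v.val := by
    intro v
    have := v.2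
    simp only [Z, Finset.mem_union, mem_II]; omega
  have mQ : ∀ v, v ∈ Q ↔ 3 * r + 1 ≤ v.val ∧ v.val < 4 * r := fun v => mem_II
  have mA : ∀ u v, G.Adj u v ↔ u.val ≠ v.val ∧ ((1 ≤ u.val ∧ 1 ≤ v.val ∧ 2 + 4 * r ≤ u.val + v.val + 1) ∨
      (u.val = 0 ∧ v.val = 2 * r + 1) ∨ (v.val = 0 ∧ u.val = 2 * r + 1)) := by
    intro u v
    simp only [hG, GG_adj, r1]; omega
  have cZ : Z.card ≤ 7 := by
    refine (Finset.card_union_le _ _).trans ((Nat.add_le_add_right (Finset.card_union_le _ _) _).trans ?_)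
    rw [card_II, card_II, card_II] <;> omega
  have hK : ∀ u v, K u → K v → u ≠ v → G.Adj u v := by
    intro u v a b c
    simp only [K, mA, ne_eq, Fin.ext_iff] at *; omega
  have hbig := big (α := α) Z Q 7 (by norm_num) cZ (by rw [Fintype.card_fin]; omega)
    (by rw [Fintype.card_fin, card_II] <;> omega)
  have dm : ∀ (b c u v : Fin (4 * r + 1)), G.Adj b c → K c → b.val ≤ 2 * r → u ≠ b → u ≠ c →
      ((v = b ∧ ¬ G.Adj u c) ∨ (v = c ∧ ¬ G.Adj u b)) → (∀ z, G.Adj u z → z ≠ v → G.Adj v z) →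
      (DS F G u).ncard < (DS F G v).ncard := by
    intro b c u v p1 p2 p3 p4 p5 p6 p7
    refine dom F G x0 y0 h0 b c p1 (((II _ (2 * r + 1) (4 * r + 1)).erase c).erase u) K hK p2 ?_
      (fun a h h' => (h' (hleaf a h)).elim) u v (by simp) p4 p5 p6 ?_ (by simp) ?_ p7
    · intro z hz
      exact (mem_II.1 (Finset.mem_of_mem_erase (Finset.mem_of_mem_erase hz))).1
    · intro hz
      have := (mem_II.1 (Finset.mem_of_mem_erase (Finset.mem_of_mem_erase hz))).1
      omega
    · have e1 := Finset.pred_card_le_card_erase (s := (II _ (2 * r + 1) (4 * r + 1)).erase c) (a := u)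
      have e2 := Finset.pred_card_le_card_erase (s := II (4 * r + 1) (2 * r + 1) (4 * r + 1)) (a := c)
      rw [card_II _ _ _ le_rfl] at e2
      omega
  apply inj_of_steps
  intro i hi
  by_cases c0 : i = 0
  · subst c0
    let upd : (α → Fin (4 * r + 1)) → (α → Fin (4 * r + 1)) := fun φ =>
      Function.update φ y1 (fm _ ((φ y1).val - 2 * r))
    have hbc : G.Adj (fm _ 1) (fm _ (4 * r)) := by simp only [mA, fm_val]; omega
    have ex := ext2 F G x0 y0 h0 (fm _ 1) (fm _ (4 * r)) hbc Q K hK (by simp only [K, fm_val]; omega)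
      (by intro z hz; simp only [K, mQ] at *; omega) (fun a h h' => (h' (hleaf a h)).elim)
    have y1Q : ∀ φ ∈ Ext {x0, y0} (g2 x0 (fm _ 1) (fm _ (4 * r))) Q, φ y1 ∈ Q := fun φ h =>
      h.2.2 y1 (by simp [hne, h1.ne'])
    have u1 : ∀ φ, (upd φ y1).val = min ((φ y1).val - 2 * r) (4 * r) := fun φ => by simp [upd, fm_val]
    have u2 : ∀ φ a, a ≠ y1 → upd φ a = φ a := fun φ a h => by simp [upd, h]
    refine light F G Z (fm _ 0) (fm _ 1) (fun _ => fm _ (4 * r)) 1 hd ?_ ?_ ?_ ?_ ?_ _ _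
      (upd '' Ext {x0, y0} (g2 x0 (fm _ 1) (fm _ (4 * r))) Q) (fun _ h => h) ?_ ?_ ?_
    · simp only [mZ, fm_val]; omega
    · simp only [mZ, fm_val]; omega
    · intro y; simp only [mZ, mA, fm_val]; omega
    · intro y y'; simp only [mA, fm_val, ne_eq, Fin.ext_iff]; omega
    · intro y z; have := z.2; simp only [mZ, mA, fm_val]; omega
    · rintro _ ⟨φ, hφ, rfl⟩
      obtain ⟨q1, q2, q3, q4⟩ := ex φ hφ
      have q5 := (mQ _).1 (y1Q φ hφ)
      have q6 : ∀ a, (φ a).val = 1 ∨ 3 * r + 1 ≤ (φ a).val := by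
        intro a
        have := q4 a
        simp only [mQ, Fin.ext_iff, fm_val] at this; omega
      have half : ∀ a, F.Adj y1 a → G.Adj (upd φ y1) (upd φ a) := by
        intro a h
        have ax : a ≠ x0 := by
          rintro rfl
          exact h1.ne' (hleaf _ h.symm)
        have : φ a ≠ φ x0 := fun e => ax (q1.1 e)
        have := q6 a
        rw [u2 φ a h.ne', mA, u1]
        simp only [q2, ne_eq, Fin.ext_iff, fm_val] at *; omega
      refine ⟨⟨?_, ?_⟩, x0, by rw [u2 φ x0 hne.symm, q2]⟩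
      · intro a a' e
        by_cases p : a = y1 <;> by_cases p' : a' = y1
        · rw [p, p']
        · exfalso
          rw [p, u2 φ a' p', Fin.ext_iff, u1] at e
          have := q6 a'; omega
        · exfalso
          rw [p', u2 φ a p, Fin.ext_iff, u1] at e
          have := q6 a; omega
        · rw [u2 φ a p, u2 φ a' p'] at e; exact q1.1 e
      · intro a a' h
        by_cases p : a = y1
        · subst p; exact half a' h
        · by_cases p' : a' = y1
          · subst p'; exact (half a h.symm).symm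
          · rw [u2 φ a p, u2 φ a' p']; exact q1.2 a a' h
    · rintro φ ⟨he0, _⟩ x hx _ hz he
      refine ⟨⟨he, x, by show tr _ _ _ _ (φ x) = _; rw [hx, tr_b]⟩, ?_⟩
      rintro ⟨ψ, hψ, e⟩
      obtain ⟨q1, q2, q3, q4⟩ := ex ψ hψ
      have q5 := (mQ _).1 (y1Q ψ hψ)
      have e0 : tr Z (fm _ 0) (fm _ 1) (fun _ => fm _ (4 * r)) (φ y0) = fm _ (4 * r) := by
        have := congrFun e y0
        rw [u2 ψ y0 h1.ne, q3] at this; exact this.symm
      have e1 : (tr Z (fm _ 0) (fm _ 1) (fun _ => fm _ (4 * r)) (φ y1)).val =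
          min ((ψ y1).val - 2 * r) (4 * r) := by
        have := congrFun e y1
        rw [← u1, this]; rfl
      have z0 := hz y0
      have z1 := hz y1
      have ad := he0.2 _ _ h1
      unfold tr at e0 e1
      split_ifs at e0 e1 <;> simp only [mZ, mA, Fin.ext_iff, fm_val] at * <;> omega
    · rw [Set.ncard_image_of_injOn]
      · have := hbig {x0, y0} _ (g2_inj x0 y0 _ _ hbc.ne h0.ne) (by
          intro a _; unfold g2; split_ifs <;> simp only [mQ, fm_val] <;> omega)
        rwa [Finset.card_pair h0.ne] at this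
      · intro φ hφ ψ hψ e
        funext a
        by_cases p : a = y1
        · subst p
          have q5 := (mQ _).1 (y1Q ψ hψ)
          have q6 := (mQ _).1 (y1Q φ hφ)
          have := u1 φ
          rw [e, u1] at this
          apply Fin.ext; omega
        · rw [← u2 φ a p, e, u2 ψ a p]
  by_cases c1 : i < 2 * r
  · refine dm (fm _ (i + 1)) (fm _ (4 * r - i)) _ _ ?_ ?_ ?_ ?_ ?_ (Or.inl ⟨rfl, ?_⟩) ?_
    all_goals first | (simp only [K, mA, ne_eq, Fin.ext_iff, fm_val]; omega) | (intro z; have := z.2; simp only [K, mA, ne_eq, Fin.ext_iff, fm_val]; omega)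
  by_cases c2 : i = 2 * r
  · refine dm (fm _ 0) (fm _ (i + 1)) _ _ ?_ ?_ ?_ ?_ ?_ (Or.inr ⟨rfl, ?_⟩) ?_
    all_goals first | (simp only [K, mA, ne_eq, Fin.ext_iff, fm_val]; omega) | (intro z; have := z.2; simp only [K, mA, ne_eq, Fin.ext_iff, fm_val]; omega)
  by_cases c3 : i = 2 * r + 1
  · subst c3
    apply swap_lt
    have hbc : G.Adj (fm _ (2 * r - 1)) (fm _ (2 * r + 1 + 1)) := by simp only [mA, fm_val]; omega
    have pv : ∀ φ a a', Emb F G φ → (∀ a, φ a ≠ fm _ (2 * r + 1 + 1)) → F.Adj a a' →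
        φ a = fm _ (2 * r + 1) → ¬ G.Adj (fm _ (2 * r + 1 + 1)) (φ a') → φ a' = fm _ 0 := by
      intro φ a a' p1 p2 p3 p4 p5
      have := p1.2 a a' p3
      have := p2 a'
      simp only [p4, mA, ne_eq, Fin.ext_iff, fm_val] at *; omega
    refine light F G Z (fm _ 0) (fm _ (2 * r - 1)) (fun _ => fm _ (2 * r + 1 + 1)) 1 hd ?_ ?_ ?_ ?_ ?_ _ _
      (Ext {y0, x0} (g2 y0 (fm _ (2 * r - 1)) (fm _ (2 * r + 1 + 1))) Q) ?_ ?_ ?_ ?_
    · simp only [mZ, fm_val]; omega
    · simp only [mZ, fm_val]; omega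
    · intro y; simp only [mZ, mA, fm_val]; omega
    · intro y y'; simp only [mA, fm_val, ne_eq, Fin.ext_iff]; omega
    · intro y z; have := z.2; simp only [mZ, mA, fm_val]; omega
    · rintro φ ⟨p1, p2, a, a', p3, p4, p5⟩
      exact ⟨p1, a', pv φ a a' p1 p2 p3 p4 p5⟩
    · refine ext2_PS F G y0 x0 h0.symm _ _ hbc Q K hK ?_ ?_ ?_ _ _ ?_ ?_ ?_ (Or.inr ⟨rfl, ?_⟩)
      · simp only [K, fm_val]; omega
      · intro z; simp only [K, mQ]; omega
      · intro _ _ _ z; simp only [mA, mQ, fm_val]; omega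
      all_goals simp only [mQ, mA, ne_eq, Fin.ext_iff, fm_val]; omega
    · rintro φ ⟨p1, p2, a, a', p3, p4, p5⟩ x hx hc hz he
      refine ⟨⟨he, ?_, a, a', p3, ?_, ?_⟩, ?_⟩
      · intro s
        have := hz s
        show tr _ _ _ _ (φ s) ≠ _
        unfold tr
        split_ifs <;> simp only [mZ, mA, ne_eq, Fin.ext_iff, fm_val] at * <;> omega
      · show tr _ _ _ _ (φ a) = _
        rw [p4, tr_n]
        all_goals simp only [mZ, ne_eq, Fin.ext_iff, fm_val]; omega
      · show ¬ G.Adj _ (tr _ _ _ _ (φ a'))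
        rw [pv φ a a' p1 p2 p3 p4 p5, tr_b]
        simp only [mA, fm_val]; omega
      · rintro ⟨_, q2, _⟩
        have e : (tr Z (fm _ 0) (fm _ (2 * r - 1)) (fun _ => fm _ (2 * r + 1 + 1)) ∘ φ) y0 =
            (tr Z (fm _ 0) (fm _ (2 * r - 1)) (fun _ => fm _ (2 * r + 1 + 1)) ∘ φ) x := by
          rw [q2 y0 (by simp)]
          show _ = tr _ _ _ _ (φ x)
          rw [hx, tr_b]; simp [g2]
        have := he.1 e
        subst this
        have : ({x0, y1} : Finset α) ⊆ nb F y0 := by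
          intro s hs
          rcases Finset.mem_insert.1 hs with rfl | hs
          · exact (mem_nb F).2 h0.symm
          · rw [Finset.mem_singleton.1 hs]; exact (mem_nb F).2 h1
        have := Finset.card_le_card this
        rw [Finset.card_pair hne.symm] at this
        omega
    · have := hbig {y0, x0} _ (g2_inj y0 x0 _ _ hbc.ne h0.ne') (by
          intro a _; unfold g2; split_ifs <;> simp only [mQ, fm_val] <;> omega)
      rwa [Finset.card_pair h0.ne'] at this
  · refine dm (fm _ (4 * r - i)) (fm _ (i + 1)) _ _ ?_ ?_ ?_ ?_ ?_ (Or.inr ⟨rfl, ?_⟩) ?_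
    all_goals first | (simp only [K, mA, ne_eq, Fin.ext_iff, fm_val]; omega) | (intro z; have := z.2; simp only [K, mA, ne_eq, Fin.ext_iff, fm_val]; omega)

end Pool.Agent.H30Fi
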