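import Mathlib
import Pool.Agent.H30Fi3
set_option autoImplicit false
namespace Pool.Agent.H30Fi
open Classical

def r2 (k t u v : ℕ) : Prop := (k + 3 ≤ u ∧ k + 3 ≤ v ∧ 2 * k + 6 + 2 * t ≤ u + v + 1) ∨
  (u < k + 3 ∧ k + 3 + t ≤ v ∧ ((u < k + 2 ∧ v < 2 * k + 4 + t + u) ∨ (u = k + 2 ∧ v < 2 * k + 5 + t) ∨
    v = k + 3 + 2 * t + u ∨ (u < k + 2 ∧ v = 2 * k + 6 + 2 * t + u) ∨ (u = k + 2 ∧ 2 * k + 6 + 2 * t ≤ v)))

lemma fm_eq (N a : ℕ) (h : a ≤ N) : (fm N a).val = a := by rw [fm_val]; omega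

abbrev W (k t : ℕ) := Fin (3 * k + 7 + 2 * t + 1)
def G2 (k t : ℕ) : SimpleGraph (W k t) := GG _ (r2 k t)
def Z2 (k t : ℕ) : Finset (W k t) :=
  (II _ 0 (k + 4) ∪ II _ (t - k) (3 * k + 6 + t)) ∪ II _ (k + 2 + 2 * t) (3 * k + 7 + 2 * t + 1)
def Q2 (k t : ℕ) : Finset (W k t) := II _ (3 * k + 6 + t) (k + 2 + 2 * t)
def K2 (k t : ℕ) (v : W k t) : Prop := k + 3 + t ≤ v.val

lemma mZ {k t : ℕ} (v : W k t) : v ∈ Z2 k t ↔
    v.val < k + 4 ∨ (t - k ≤ v.val ∧ v.val < 3 * k + 6 + t) ∨ k + 2 + 2 * t ≤ v.val := by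
  have := v.2
  simp only [Z2, Finset.mem_union, mem_II]; omega
lemma mQ {k t : ℕ} (v : W k t) : v ∈ Q2 k t ↔ 3 * k + 6 + t ≤ v.val ∧ v.val < k + 2 + 2 * t := mem_II
lemma mA {k t : ℕ} (u v : W k t) : (G2 k t).Adj u v ↔
    u.val ≠ v.val ∧ (r2 k t u.val v.val ∨ r2 k t v.val u.val) := Iff.rfl

lemma mB {k t : ℕ} (u v : W k t) (h : u.val < k + 3) : (G2 k t).Adj u v ↔
    k + 3 + t ≤ v.val ∧ ((u.val < k + 2 ∧ v.val < 2 * k + 4 + t + u.val) ∨
      (u.val = k + 2 ∧ v.val < 2 * k + 5 + t) ∨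
      v.val = k + 3 + 2 * t + u.val ∨ (u.val < k + 2 ∧ v.val = 2 * k + 6 + 2 * t + u.val) ∨
      (u.val = k + 2 ∧ 2 * k + 6 + 2 * t ≤ v.val)) := by
  simp only [mA, r2]; omega

lemma mC {k t : ℕ} (u v : W k t) (h : k + 3 ≤ u.val) (h' : k + 3 ≤ v.val) : (G2 k t).Adj u v ↔
    u.val ≠ v.val ∧ 2 * k + 6 + 2 * t ≤ u.val + v.val + 1 := by
  simp only [mA, r2]; omega

lemma mD {k t : ℕ} (v u : W k t) (h : k + 3 ≤ v.val) : (G2 k t).Adj v u ↔
    (k + 3 ≤ u.val ∧ u.val ≠ v.val ∧ 2 * k + 6 + 2 * t ≤ u.val + v.val + 1) ∨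
    (u.val < k + 3 ∧ k + 3 + t ≤ v.val ∧ ((u.val < k + 2 ∧ v.val < 2 * k + 4 + t + u.val) ∨
      (u.val = k + 2 ∧ v.val < 2 * k + 5 + t) ∨
      v.val = k + 3 + 2 * t + u.val ∨ (u.val < k + 2 ∧ v.val = 2 * k + 6 + 2 * t + u.val) ∨
      (u.val = k + 2 ∧ 2 * k + 6 + 2 * t ≤ v.val))) := by
  rw [SimpleGraph.adj_comm]
  by_cases hu : u.val < k + 3
  · rw [mB _ _ hu]
    exact ⟨fun p => Or.inr ⟨hu, p⟩, fun p => p.elim (fun q => by omega) (fun q => q.2)⟩
  · rw [mC _ _ (by omega) h]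
    exact ⟨fun p => Or.inl ⟨by omega, p⟩, fun p => p.elim (fun q => q.2) (fun q => (hu q.1).elim)⟩

lemma cdl {k t : ℕ} (b : W k t) (a : ℕ) (ha : a + k ≤ 3 * k + 7 + 2 * t + 1) (S : Finset (W k t))
    (hS : ∀ y, (G2 k t).Adj b y → y ∈ S)
    (h : ∀ y : W k t, a ≤ y.val → y.val < a + k → (G2 k t).Adj b y) : k ≤ S.card := by
  have h1 : II _ a (a + k) ⊆ S := by
    intro y hy
    have := mem_II.1 hy
    exact hS y (h y this.1 this.2)
  have := Finset.card_le_card h1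
  rw [card_II _ _ _ ha] at this
  omega

lemma i4aux {k t : ℕ} (ht : 6 * k + 10 ≤ t) (y y' z : W k t) (hz : z ∉ Z2 k t) (h1 : k + 3 + t ≤ y.val)
    (h2 : y.val ≤ y'.val) (h3 : y' ∈ Z2 k t) (h : (G2 k t).Adj y z) : (G2 k t).Adj y' z := by
  simp only [mZ] at hz h3
  rw [mC _ _ (by omega) (by omega)] at h ⊢
  omega

def iA (k t j : ℕ) (y : W k t) : W k t :=
  fm _ (if y.val = k + 3 + 2 * t + j ∨ y.val = 2 * k + 6 + 2 * t + j then y.val + 1 else y.val)
def iB (k t : ℕ) (y : W k t) : W k t :=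
  fm _ (if y.val = 2 * k + 4 + 2 * t then y.val + 1
    else if 2 * k + 5 + t ≤ y.val ∧ y.val < k + 3 + 2 * t then y.val + t + 1 else y.val)
def iC (k t : ℕ) (y : W k t) : W k t := fm _ (if y.val < k + 3 + 2 * t then y.val + t else y.val)

section
variable {α : Type} [Fintype α] {k t : ℕ}

lemma LtA (hk : Fintype.card α = k) (ht : 6 * k + 10 ≤ t) (j c : ℕ) (hj : j < k + 1)
    (hc : c = k + 3 + 2 * t + j + 1 ∨ c = 2 * k + 6 + 2 * t + j + 1) :
    Lt (α := α) (G2 k t) (Z2 k t) (K2 k t) (fm _ j) (fm _ (j + 1)) (fm _ c)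
      (fm _ (2 * k + 4 + t + j)) (iA k t j) := by
  have b1 : (fm (3 * k + 7 + 2 * t) j).val < k + 3 := by simp only [fm_val]; omega
  have b2 : (fm (3 * k + 7 + 2 * t) (j + 1)).val < k + 3 := by simp only [fm_val]; omega
  refine ⟨?_, ?_, ?_, ?_, ?_, ?_, ?_, ?_, ?_, ?_, ?_⟩
  · simp only [mZ, fm_val]; omega
  · simp only [mZ, fm_val]; omega
  · intro y; simp only [mZ, mB _ _ b1, fm_val]; omega
  · intro y; simp only [mZ, K2, mB _ _ b2, fm_val]; omega
  · intro y; have := y.2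
    simp only [mB _ _ b1, mB _ _ b2, iA, ne_eq, Fin.ext_iff, fm_val]; split_ifs <;> omega
  · intro y y'; have := y.2; have := y'.2
    simp only [mB _ _ b1, iA, ne_eq, Fin.ext_iff, fm_val]; split_ifs <;> omega
  · intro y z h hz h'
    have := y.2
    rw [mB _ _ b1] at h
    refine i4aux ht y _ z hz h.1 ?_ ?_ h'
    all_goals simp only [mZ, iA, fm_val] at *; split_ifs <;> omega
  · simp only [mB _ _ b2, fm_val]; omega
  · simp only [mB _ _ b2, fm_val]; omega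
  · simp only [ne_eq, Fin.ext_iff, fm_val]; omega
  · rw [hk]
    refine cdl _ (k + 3 + t) (by omega) _ (fun y h => by simpa using h) ?_
    intro y; simp only [mB _ _ b2, fm_val]; omega

lemma LtB (hk : Fintype.card α = k) (ht : 6 * k + 10 ≤ t) :
    Lt (α := α) (G2 k t) (Z2 k t) (K2 k t) (fm _ (k + 1)) (fm _ (k + 1 + 1)) (fm _ (2 * k + 4 + 2 * t + 1))
      (fm _ (3 * k + 6 + 2 * t)) (iB k t) := by
  have b1 : (fm (3 * k + 7 + 2 * t) (k + 1)).val < k + 3 := by simp only [fm_val]; omega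
  have b2 : (fm (3 * k + 7 + 2 * t) (k + 1 + 1)).val < k + 3 := by simp only [fm_val]; omega
  refine ⟨?_, ?_, ?_, ?_, ?_, ?_, ?_, ?_, ?_, ?_, ?_⟩
  · simp only [mZ, fm_val]; omega
  · simp only [mZ, fm_val]; omega
  · intro y; simp only [mZ, mB _ _ b1, fm_val]; omega
  · intro y; simp only [mZ, K2, mB _ _ b2, fm_val]; omega
  · intro y; have := y.2
    simp only [mB _ _ b1, mB _ _ b2, iB, ne_eq, Fin.ext_iff, fm_val]; split_ifs <;> omega
  · intro y y'; have := y.2; have := y'.2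
    simp only [mB _ _ b1, iB, ne_eq, Fin.ext_iff, fm_val]; split_ifs <;> omega
  · intro y z h hz h'
    have := y.2
    rw [mB _ _ b1] at h
    refine i4aux ht y _ z hz h.1 ?_ ?_ h'
    all_goals simp only [mZ, iB, fm_val] at *; split_ifs <;> omega
  · simp only [mB _ _ b2, fm_val]; omega
  · simp only [mB _ _ b2, fm_val]; omega
  · simp only [ne_eq, Fin.ext_iff, fm_val]; omega
  · rw [hk]
    refine cdl _ (k + 3 + t) (by omega) _ (fun y h => by simpa using h) ?_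
    intro y; simp only [mB _ _ b2, fm_val]; omega

lemma LtC (hk : Fintype.card α = k) (ht : 6 * k + 10 ≤ t) :
    Lt (α := α) (G2 k t) (Z2 k t) (K2 k t) (fm _ (k + 2)) (fm _ (k + 2 + 1)) (fm _ (2 * k + 5 + 2 * t))
      (fm _ (k + 2 + 2 * t)) (iC k t) := by
  have b1 : (fm (3 * k + 7 + 2 * t) (k + 2)).val < k + 3 := by simp only [fm_val]; omega
  have b2 : ∀ y : W k t, (G2 k t).Adj (fm _ (k + 2 + 1)) y ↔ k + 2 + 2 * t ≤ y.val := by
    intro y; simp only [mA, r2, fm_val]; omega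
  refine ⟨?_, ?_, ?_, ?_, ?_, ?_, ?_, ?_, ?_, ?_, ?_⟩
  · simp only [mZ, fm_val]; omega
  · simp only [mZ, fm_val]; omega
  · intro y; simp only [mZ, mB _ _ b1, fm_val]; omega
  · intro y; simp only [mZ, K2, b2, fm_val]; omega
  · intro y; have := y.2
    simp only [mB _ _ b1, b2, iC, ne_eq, Fin.ext_iff, fm_val]; split_ifs <;> omega
  · intro y y'; have := y.2; have := y'.2
    simp only [mB _ _ b1, iC, ne_eq, Fin.ext_iff, fm_val]; split_ifs <;> omega
  · intro y z h hz h'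
    have := y.2
    rw [mB _ _ b1] at h
    refine i4aux ht y _ z hz h.1 ?_ ?_ h'
    all_goals simp only [mZ, iC, fm_val] at *; split_ifs <;> omega
  · simp only [b2, fm_val]; omega
  · simp only [b2, fm_val]; omega
  · simp only [ne_eq, Fin.ext_iff, fm_val]; omega
  · rw [hk]
    refine cdl _ (k + 3 + 2 * t) (by omega) _ (fun y h => by simpa using h) ?_
    intro y; simp only [b2]; omega

lemma design2 (F : SimpleGraph α) (x y0 y1 : α) (h0 : F.Adj x y0) (h1 : F.Adj x y1) (h01 : y0 ≠ y1)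
    (hd : ∀ a, (nb F x).card ≤ (nb F a).card) (hd2 : ∀ a, 2 ≤ (nb F a).card)
    (hk : Fintype.card α = k) (ht : 6 * k + 10 ≤ t)
    (ht2 : 10 ^ k * (7 * k + 16) ^ (k + 1) ≤ t) :
    Function.Injective (fun v => (DS F (G2 k t) v).ncard) := by
  have cZ : (Z2 k t).card ≤ 7 * k + 16 := by
    refine (Finset.card_union_le _ _).trans ((Nat.add_le_add_right (Finset.card_union_le _ _) _).trans ?_)
    rw [card_II, card_II, card_II] <;> omega
  have hK : ∀ u v, K2 k t u → K2 k t v → u ≠ v → (G2 k t).Adj u v := by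
    intro u v a b c
    simp only [K2, ne_eq, Fin.ext_iff] at *
    rw [mC _ _ (by omega) (by omega)]; omega
  have C : Ctx (α := α) (G2 k t) (Z2 k t) (Q2 k t) (K2 k t) := by
    refine ⟨big (α := α) _ _ (7 * k + 16) (by omega) cZ ?_ ?_, hK, ?_⟩
    · rw [Fintype.card_fin, hk]; omega
    · rw [Fintype.card_fin, hk, Q2, card_II] <;> omega
    · intro z; simp only [mQ, mZ, K2]; omega
  have dm : ∀ (a : ℕ) (b c u v : W k t), k + 3 + t ≤ a → a + k + 1 ≤ 3 * k + 7 + 2 * t + 1 →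
      (G2 k t).Adj b c → K2 k t c → b.val < k + 3 + t → u ≠ b → u ≠ c →
      ¬ (a ≤ u.val ∧ u.val < a + k + 1) → ¬ (a ≤ c.val ∧ c.val < a + k + 1) →
      (∀ z : W k t, a ≤ z.val ∧ z.val < a + k + 1 → (G2 k t).Adj b z) →
      ((v = b ∧ ¬ (G2 k t).Adj u c) ∨ (v = c ∧ ¬ (G2 k t).Adj u b)) →
      (∀ z, (G2 k t).Adj u z → z ≠ v → (G2 k t).Adj v z) →
      (DS F (G2 k t) u).ncard < (DS F (G2 k t) v).ncard := by
    intro a b c u v p1 p2 p3 p4 p5 p6 p7 p8 p9 p10 p11 p12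
    refine dom F _ x y0 h0 b c p3 (II _ a (a + k + 1)) (K2 k t) hK p4 ?_
      (fun _ _ _ z h => p10 z (mem_II.1 h)) u v (fun h => p8 (mem_II.1 h)) p6 p7 p11 ?_
      (fun h => p9 (mem_II.1 h)) ?_ p12
    · intro z hz; have := mem_II.1 hz; simp only [K2]; omega
    · intro hz; have := mem_II.1 hz; omega
    · rw [card_II _ _ _ p2]; omega
  apply inj_of_steps
  intro i hi
  by_cases c : i < k + 1
  · exact stepB F _ _ _ _ C _ _ _ _ _ (LtA hk ht i _ c (Or.inl rfl)) x y0 y1 h0 h1 h01 hd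
  by_cases c : i = k + 1
  · subst c; exact stepB F _ _ _ _ C _ _ _ _ _ (LtB hk ht) x y0 y1 h0 h1 h01 hd
  by_cases c : i = k + 2
  · subst c; exact stepB F _ _ _ _ C _ _ _ _ _ (LtC hk ht) x y0 y1 h0 h1 h01 hd
  by_cases c : i < k + 2 + t
  · refine dm (k + 3 + 2 * t) (fm _ (i + 1)) (fm _ (2 * k + 4 + 2 * t - i)) _ _ (by omega) (by omega)
      ?_ ?_ ?_ ?_ ?_ ?_ ?_ ?_ (Or.inl ⟨rfl, ?_⟩) ?_
    all_goals first | (intro z; have := Fin.isLt z; by_cases hz : z.val < k + 3 <;> (simp (disch := first | omega | (simp only [fm_val]; omega)) only [K2, mB, mD, mZ, mQ, ne_eq, Fin.ext_iff, fm_eq]; omega)) | (simp (disch := first | omega | (simp only [fm_val]; omega)) only [K2, mB, mD, mZ, mQ, ne_eq, Fin.ext_iff, fm_eq]; omega)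
  by_cases c : i = k + 2 + t
  · refine dm (k + 4 + t) (fm _ 1) (fm _ (i + 1)) _ _ (by omega) (by omega)
      ?_ ?_ ?_ ?_ ?_ ?_ ?_ ?_ (Or.inr ⟨rfl, ?_⟩) ?_
    all_goals first | (intro z; have := Fin.isLt z; by_cases hz : z.val < k + 3 <;> (simp (disch := first | omega | (simp only [fm_val]; omega)) only [K2, mB, mD, mZ, mQ, ne_eq, Fin.ext_iff, fm_eq]; omega)) | (simp (disch := first | omega | (simp only [fm_val]; omega)) only [K2, mB, mD, mZ, mQ, ne_eq, Fin.ext_iff, fm_eq]; omega)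
  by_cases c : i < 3 * k + 5 + t
  · refine stepC F _ _ _ _ C x y0 h0 hd2 _ _ (fm _ (2 * k + 4 + 2 * t - i)) ?_ ?_ ?_ ?_ ?_ ?_ ?_ ?_ ?_ ?_
    pick_goal 10
    · intro z p1 p2 p3
      have hz : z.val < k + 3 := by
        by_contra hz
        rw [mC _ _ (by simp only [fm_val]; omega) (by omega)] at p1 p3
        simp (disch := omega) only [ne_eq, Fin.ext_iff, fm_eq] at p1 p2 p3; omega
      refine ⟨by simp only [mZ]; omega, ?_⟩
      intro y; simp only [mZ, mB _ _ hz]; omega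
    all_goals first | (intro z; have := Fin.isLt z; by_cases hz : z.val < k + 3 <;> (simp (disch := first | omega | (simp only [fm_val]; omega)) only [K2, mB, mD, mZ, mQ, ne_eq, Fin.ext_iff, fm_eq]; omega)) | (simp (disch := first | omega | (simp only [fm_val]; omega)) only [K2, mB, mD, mZ, mQ, ne_eq, Fin.ext_iff, fm_eq]; omega)
  by_cases c : i < k + 2 + 2 * t
  · refine dm (k + 3 + 2 * t) (fm _ (2 * k + 4 + 2 * t - i)) (fm _ (i + 1)) _ _ (by omega) (by omega)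
      ?_ ?_ ?_ ?_ ?_ ?_ ?_ ?_ (Or.inr ⟨rfl, ?_⟩) ?_
    all_goals first | (intro z; have := Fin.isLt z; by_cases hz : z.val < k + 3 <;> (simp (disch := first | omega | (simp only [fm_val]; omega)) only [K2, mB, mD, mZ, mQ, ne_eq, Fin.ext_iff, fm_eq]; omega)) | (simp (disch := first | omega | (simp only [fm_val]; omega)) only [K2, mB, mD, mZ, mQ, ne_eq, Fin.ext_iff, fm_eq]; omega)
  by_cases c : i = k + 2 + 2 * t
  · refine dm (k + 3 + t) (fm _ 0) (fm _ (i + 1)) _ _ (by omega) (by omega)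
      ?_ ?_ ?_ ?_ ?_ ?_ ?_ ?_ (Or.inr ⟨rfl, ?_⟩) ?_
    all_goals first | (intro z; have := Fin.isLt z; by_cases hz : z.val < k + 3 <;> (simp (disch := first | omega | (simp only [fm_val]; omega)) only [K2, mB, mD, mZ, mQ, ne_eq, Fin.ext_iff, fm_eq]; omega)) | (simp (disch := first | omega | (simp only [fm_val]; omega)) only [K2, mB, mD, mZ, mQ, ne_eq, Fin.ext_iff, fm_eq]; omega)
  by_cases c : i < 2 * k + 4 + 2 * t
  · refine stepT F _ _ _ _ C _ _ _ _ _ (LtA hk ht (i - (k + 3 + 2 * t)) (i + 1) (by omega) (by omega))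
      x y0 y1 h0 h1 h01 hd _ ?_ ?_ ?_ ?_ ?_
    pick_goal 2
    · simp only [iA, Fin.ext_iff, fm_val]; split_ifs <;> omega
    all_goals first | (intro z; have := Fin.isLt z; by_cases hz : z.val < k + 3 <;> (simp (disch := first | omega | (simp only [fm_val]; omega)) only [K2, mB, mD, mZ, mQ, ne_eq, Fin.ext_iff, fm_eq]; omega)) | (simp (disch := first | omega | (simp only [fm_val]; omega)) only [K2, mB, mD, mZ, mQ, ne_eq, Fin.ext_iff, fm_eq]; omega)
  by_cases c : i = 2 * k + 4 + 2 * t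
  · subst c
    refine stepT F _ _ _ _ C _ _ _ _ _ (LtB hk ht) x y0 y1 h0 h1 h01 hd _ ?_ ?_ ?_ ?_ ?_
    pick_goal 2
    · simp only [iB, Fin.ext_iff, fm_val]; split_ifs <;> omega
    all_goals first | (intro z; have := Fin.isLt z; by_cases hz : z.val < k + 3 <;> (simp (disch := first | omega | (simp only [fm_val]; omega)) only [K2, mB, mD, mZ, mQ, ne_eq, Fin.ext_iff, fm_eq]; omega)) | (simp (disch := first | omega | (simp only [fm_val]; omega)) only [K2, mB, mD, mZ, mQ, ne_eq, Fin.ext_iff, fm_eq]; omega)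
  by_cases c : i = 2 * k + 5 + 2 * t
  · refine dm (k + 3 + t) (fm _ 0) (fm _ (i + 1)) _ _ (by omega) (by omega)
      ?_ ?_ ?_ ?_ ?_ ?_ ?_ ?_ (Or.inr ⟨rfl, ?_⟩) ?_
    all_goals first | (intro z; have := Fin.isLt z; by_cases hz : z.val < k + 3 <;> (simp (disch := first | omega | (simp only [fm_val]; omega)) only [K2, mB, mD, mZ, mQ, ne_eq, Fin.ext_iff, fm_eq]; omega)) | (simp (disch := first | omega | (simp only [fm_val]; omega)) only [K2, mB, mD, mZ, mQ, ne_eq, Fin.ext_iff, fm_eq]; omega)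
  · refine stepT F _ _ _ _ C _ _ _ _ _ (LtA hk ht (i - (2 * k + 6 + 2 * t)) (i + 1) (by omega) (by omega))
      x y0 y1 h0 h1 h01 hd _ ?_ ?_ ?_ ?_ ?_
    pick_goal 2
    · simp only [iA, Fin.ext_iff, fm_val]; split_ifs <;> omega
    all_goals first | (intro z; have := Fin.isLt z; by_cases hz : z.val < k + 3 <;> (simp (disch := first | omega | (simp only [fm_val]; omega)) only [K2, mB, mD, mZ, mQ, ne_eq, Fin.ext_iff, fm_eq]; omega)) | (simp (disch := first | omega | (simp only [fm_val]; omega)) only [K2, mB, mD, mZ, mQ, ne_eq, Fin.ext_iff, fm_eq]; omega)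

end
end Pool.Agent.H30Fi
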