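import Mathlib
import Pool.Agent.H30Fi6
set_option autoImplicit false
namespace Pool.Agent.H30Fi
open Classical

lemma fin_of' {α : Type} [Fintype α] {m : ℕ} (F : SimpleGraph α) (G : SimpleGraph (Fin m))
    (h : Function.Injective (fun v => (DS F G v).ncard)) :
    Function.Injective (fun v : Fin m =>
      {H : G.Subgraph | Nonempty (H.coe ≃g F) ∧ v ∈ H.verts}.ncard) := by
  intro u v e
  apply h
  show (DS F G u).ncard = (DS F G v).ncard
  rw [bridge, bridge]
  exact congrArg (· * (Aut F).ncard) e

theorem strong {α : Type} [Fintype α] (F : SimpleGraph α) (hn : 3 ≤ Fintype.card α) (hF : F.Connected) (N : ℕ) :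
      ∃ (m : ℕ) (G : SimpleGraph (Fin m)), N ≤ m ∧
        Function.Injective
          (fun v : Fin m =>
            {H : G.Subgraph | Nonempty (H.coe ≃g F) ∧ v ∈ H.verts}.ncard) := by
  have small : ∀ a b : α, ¬ (∀ u ∈ ({a, b} : Set (α)), ∀ v, F.Adj u v → v ∈ ({a, b} : Set (α))) := by
    intro a b h
    have h1 := closed F hF {a, b} a (by simp) h
    have h2 : (Finset.univ : Finset (α)) ⊆ {a, b} := fun z _ => by simpa using h1 z
    have h3 := (Finset.card_le_card h2).trans Finset.card_le_two
    rw [Finset.card_univ] at h3; omega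
  have hd1 : ∀ a, 1 ≤ (nb F a).card := by
    intro a
    by_contra h
    have : nb F a = ∅ := Finset.card_eq_zero.1 (by omega)
    apply small a a
    intro u hu v huv
    have : u = a := by simpa using hu
    subst this
    have := (mem_nb F).2 huv
    simp_all
  by_cases hc : ∃ x, (nb F x).card = 1
  · obtain ⟨x, hx⟩ := hc
    obtain ⟨y, hy⟩ := Finset.card_eq_one.1 hx
    have h0 : F.Adj x y := (mem_nb F).1 (by rw [hy]; simp)
    have hl : ∀ a, F.Adj x a → a = y := fun a h => by
      have := (mem_nb F).2 h
      rw [hy] at this; simpa using this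
    have : ∃ z, F.Adj y z ∧ z ≠ x := by
      by_contra h
      push Not at h
      apply small x y
      intro u hu v huv
      rcases hu with rfl | hu
      · exact Or.inr (hl v huv)
      · have : u = y := hu
        subst this
        exact Or.inl (h v huv)
    obtain ⟨z, h1, h2⟩ := this
    refine ⟨_, _, ?_, fin_of' F _ (design1 F x y z h0 hl h1 h2 hd1
      (N + 5 * Fintype.card (α) + 6 + 10 ^ Fintype.card (α) * 7 ^ (Fintype.card (α) + 1))
      (by omega) (by omega))⟩
    omega
  · push Not at hc
    have hd2 : ∀ a, 2 ≤ (nb F a).card := fun a => by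
      have := hd1 a
      have := hc a
      omega
    have : Nonempty α := Fintype.card_pos_iff.1 (by omega)
    obtain ⟨n, hn'⟩ : ∃ n, Fintype.card α = n := ⟨_, rfl⟩
    obtain ⟨x, _, hx⟩ := Finset.exists_min_image Finset.univ (fun a => (nb F a).card) Finset.univ_nonempty
    obtain ⟨y0, h0, y1, h1, h01⟩ := Finset.one_lt_card.1 (hd2 x)
    refine ⟨_, _, ?_, fin_of' F _ (design2 (k := n) (t := N + 6 * n + 10 + 10 ^ n * (7 * n + 16) ^ (n + 1))
      F x y0 y1 ((mem_nb F).1 h0) ((mem_nb F).1 h1) h01
      (fun a => hx a (Finset.mem_univ _)) hd2 hn' (by omega) (by omega))⟩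
    omega

end Pool.Agent.H30Fi
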