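import Mathlib

set_option autoImplicit false

namespace Pool.Agent.H30Gr

/-- `S` has only the trivial solutions of `5w+2x=5y+2z`. -/
def Free (S : Set ℕ) : Prop :=
  ∀ w ∈ S, ∀ x ∈ S, ∀ y ∈ S, ∀ z ∈ S, 5 * w + 2 * x = 5 * y + 2 * z → w = y ∧ x = z

/-- `g` is the greedy sequence. -/
def IsGreedy (g : ℕ → ℕ) : Prop :=
  g 0 = 0 ∧ ∀ i : ℕ, IsLeast {t : ℕ | g i < t ∧ Free (g '' Set.Iic i ∪ {t})} (g (i + 1))

/-- `a 0 = 0`, `a i = ⌈(5 + 7 (a 0 + ... + a (i-1))) / 2⌉`. -/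
def aC : ℕ → ℕ
  | 0 => 0
  | i + 1 => ⌈((5 + 7 * ∑ j : Fin (i + 1), aC j : ℕ) : ℚ) / 2⌉₊
decreasing_by exact j.2

/-- `a 0 = 0`, `a i = ⌊(5 + 7 (a 0 + ... + a (i-1))) / 2⌋`. -/
def aF : ℕ → ℕ
  | 0 => 0
  | i + 1 => ⌊((5 + 7 * ∑ j : Fin (i + 1), aF j : ℕ) : ℚ) / 2⌋₊
decreasing_by exact j.2

/-- The set of `5x+y` with `x` a finite sum of distinct terms of `a` and `0 ≤ y ≤ 4`. -/
def Target (a : ℕ → ℕ) : Set ℕ :=
  {n : ℕ | ∃ s : Finset ℕ, ∃ y : ℕ, y ≤ 4 ∧ n = 5 * (∑ j ∈ s, a j) + y}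

def S (i : ℕ) : ℕ := ∑ j ∈ Finset.range (i + 1), aC j

lemma aC_zero : aC 0 = 0 := by rw [aC]

lemma S_zero : S 0 = 0 := by simp [S, aC_zero]

lemma S_succ (i : ℕ) : S (i + 1) = S i + aC (i + 1) := by
  simp only [S]; rw [Finset.sum_range_succ]

lemma aC_succ (i : ℕ) : aC (i + 1) = (6 + 7 * S i) / 2 := by
  rw [aC, Fin.sum_univ_eq_sum_range (fun j => aC j) (i + 1)]
  change ⌈((5 + 7 * S i : ℕ) : ℚ) / 2⌉₊ = _
  have h0 : (6 + 7 * S i) / 2 ≠ 0 := by omega
  rw [Nat.ceil_eq_iff h0]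
  have h1 : 2 * ((6 + 7 * S i) / 2 - 1) < 5 + 7 * S i := by omega
  have h2 : 5 + 7 * S i ≤ 2 * ((6 + 7 * S i) / 2) := by omega
  constructor
  · rw [lt_div_iff₀ (by norm_num : (0 : ℚ) < 2)]
    exact_mod_cast (by omega : ((6 + 7 * S i) / 2 - 1) * 2 < 5 + 7 * S i)
  · rw [div_le_iff₀ (by norm_num : (0 : ℚ) < 2)]
    exact_mod_cast (by omega : 5 + 7 * S i ≤ ((6 + 7 * S i) / 2) * 2)

def In : ℕ → ℕ → Prop
  | 0, x => x = 0
  | i + 1, x => In i x ∨ ∃ x', In i x' ∧ x = x' + aC (i + 1)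

lemma In_le : ∀ i x, In i x → x ≤ S i
  | 0, x, h => by simp only [In] at h; omega
  | i + 1, x, h => by
    rw [S_succ]
    rcases h with h | ⟨x', h, rfl⟩
    · have := In_le i x h; omega
    · have := In_le i x' h; omega

lemma In_mono {i j x : ℕ} (hij : i ≤ j) (h : In i x) : In j x := by
  induction hij with
  | refl => exact h
  | step _ ih => exact Or.inl ih

lemma In_zero (i : ℕ) : In i 0 := In_mono (Nat.zero_le i) rfl

lemma In_of_sum : ∀ i (s : Finset ℕ), s ⊆ Finset.range (i + 1) → In i (∑ j ∈ s, aC j)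
  | 0, s, h => by
    simp only [In]
    refine Finset.sum_eq_zero fun j hj => ?_
    have := Finset.mem_range.1 (h hj)
    obtain rfl : j = 0 := by omega
    exact aC_zero
  | i + 1, s, h => by
    by_cases hm : i + 1 ∈ s
    · refine Or.inr ⟨∑ j ∈ s.erase (i + 1), aC j, In_of_sum i _ ?_, ?_⟩
      · intro j hj
        have h1 := Finset.mem_range.1 (h (Finset.mem_of_mem_erase hj))
        have h2 := Finset.ne_of_mem_erase hj
        exact Finset.mem_range.2 (by omega)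
      · rw [Finset.sum_erase_add _ _ hm]
    · refine Or.inl (In_of_sum i s ?_)
      intro j hj
      have h1 := Finset.mem_range.1 (h hj)
      have h2 : j ≠ i + 1 := fun e => hm (e ▸ hj)
      exact Finset.mem_range.2 (by omega)

lemma sum_of_In : ∀ i x, In i x → ∃ s : Finset ℕ, s ⊆ Finset.range (i + 1) ∧ x = ∑ j ∈ s, aC j
  | 0, x, h => ⟨∅, by simp, by simpa [In] using h⟩
  | i + 1, x, h => by
    rcases h with h | ⟨x', h, rfl⟩
    · obtain ⟨s, hs, e⟩ := sum_of_In i x h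
      refine ⟨s, fun j hj => ?_, e⟩
      have := Finset.mem_range.1 (hs hj)
      exact Finset.mem_range.2 (by omega)
    · obtain ⟨s, hs, e⟩ := sum_of_In i x' h
      have hn : i + 1 ∉ s := fun hj => by
        have := Finset.mem_range.1 (hs hj); omega
      refine ⟨insert (i + 1) s, fun j hj => ?_, ?_⟩
      · rcases Finset.mem_insert.1 hj with rfl | hj
        · exact Finset.mem_range.2 (by omega)
        · have := Finset.mem_range.1 (hs hj)
          exact Finset.mem_range.2 (by omega)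
      · rw [Finset.sum_insert hn, e, add_comm]

lemma mem_target (n : ℕ) : n ∈ Target aC ↔ ∃ i x y, In i x ∧ y ≤ 4 ∧ n = 5 * x + y := by
  constructor
  · rintro ⟨s, y, hy, rfl⟩
    refine ⟨s.sup id, _, y, In_of_sum _ s ?_, hy, rfl⟩
    intro j hj
    have : j ≤ s.sup id := Finset.le_sup (f := id) hj
    exact Finset.mem_range.2 (by omega)
  · rintro ⟨i, x, y, hx, hy, rfl⟩
    obtain ⟨s, -, rfl⟩ := sum_of_In i x hx
    exact ⟨s, y, hy, rfl⟩

lemma In_cases {i x : ℕ} (h : In (i + 1) x) :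
    ∃ x', In i x' ∧ x' ≤ S i ∧ (x = x' ∨ x = x' + aC (i + 1)) := by
  rcases h with h | ⟨x', h, rfl⟩
  · exact ⟨x, h, In_le _ _ h, Or.inl rfl⟩
  · exact ⟨x', h, In_le _ _ h, Or.inr rfl⟩

lemma free_core : ∀ i p q u v r s : ℕ, In i p → In i q → In i u → In i v → r ≤ 4 → s ≤ 4 →
    2 * p + 5 * u + r = 2 * q + 5 * v + s → p = q
  | 0, p, q, u, v, r, s, hp, hq, _, _, _, _, _ => by simp only [In] at hp hq; omega
  | i + 1, p, q, u, v, r, s, hp, hq, hu, hv, hr, hs, e => by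
    obtain ⟨p', hp', bp, ep⟩ := In_cases hp
    obtain ⟨q', hq', bq, eq⟩ := In_cases hq
    obtain ⟨u', hu', bu, eu⟩ := In_cases hu
    obtain ⟨v', hv', bv, ev⟩ := In_cases hv
    have ha := aC_succ i
    have ih := free_core i p' q' u' v' r s hp' hq' hu' hv' hr hs
    generalize aC (i + 1) = a at *
    generalize S i = T at *
    omega

lemma free_target : Free (Target aC) := by
  intro w hw x hx y hy z hz e
  obtain ⟨i1, w1, rw, h1, b1, rfl⟩ := (mem_target _).1 hw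
  obtain ⟨i2, x1, rx, h2, b2, rfl⟩ := (mem_target _).1 hx
  obtain ⟨i3, y1, ry, h3, b3, rfl⟩ := (mem_target _).1 hy
  obtain ⟨i4, z1, rz, h4, b4, rfl⟩ := (mem_target _).1 hz
  have hr : rx = rz := by omega
  have := free_core (i1 + i2 + i3 + i4) x1 z1 w1 y1 rw ry (In_mono (by omega) h2)
    (In_mono (by omega) h4) (In_mono (by omega) h1) (In_mono (by omega) h3) b1 b3 (by omega)
  omega

lemma cover : ∀ (i : ℕ) (t : ℤ), -5 * (S i : ℤ) - 4 ≤ t → t ≤ 7 * (S i : ℤ) + 4 →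
    ∃ p u v r s : ℕ, In i p ∧ In i u ∧ In i v ∧ r ≤ 4 ∧ s ≤ 4 ∧
      t + 5 * v + s = 2 * p + 5 * u + r
  | 0, t, h1, h2 => by
    rw [S_zero] at h1 h2
    exact ⟨0, 0, 0, t.toNat, (-t).toNat, rfl, rfl, rfl, by omega, by omega, by omega⟩
  | i + 1, t, h1, h2 => by
    rw [S_succ] at h1 h2
    have ha := aC_succ i
    have L : ∀ x, In i x → In (i + 1) x := fun x h => Or.inl h
    have R : ∀ x, In i x → In (i + 1) (x + aC (i + 1)) := fun x h => Or.inr ⟨x, h, rfl⟩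
    by_cases c1 : t + 5 * (aC (i + 1) : ℤ) ≤ 7 * (S i : ℤ) + 4
    · obtain ⟨p, u, v, r, s, hp, hu, hv, hr, hs, e⟩ := cover i _ (by omega) c1
      exact ⟨p, u, _, r, s, L _ hp, L _ hu, R _ hv, hr, hs, by omega⟩
    by_cases c2 : t + 3 * (aC (i + 1) : ℤ) ≤ 7 * (S i : ℤ) + 4
    · obtain ⟨p, u, v, r, s, hp, hu, hv, hr, hs, e⟩ := cover i _ (by omega) c2
      exact ⟨_, u, _, r, s, R _ hp, L _ hu, R _ hv, hr, hs, by omega⟩
    by_cases c3 : t ≤ 7 * (S i : ℤ) + 4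
    · obtain ⟨p, u, v, r, s, hp, hu, hv, hr, hs, e⟩ := cover i _ (by omega) c3
      exact ⟨p, u, v, r, s, L _ hp, L _ hu, L _ hv, hr, hs, by omega⟩
    by_cases c4 : t - 2 * (aC (i + 1) : ℤ) ≤ 7 * (S i : ℤ) + 4
    · obtain ⟨p, u, v, r, s, hp, hu, hv, hr, hs, e⟩ := cover i _ (by omega) c4
      exact ⟨_, u, v, r, s, R _ hp, L _ hu, L _ hv, hr, hs, by omega⟩
    by_cases c5 : t - 5 * (aC (i + 1) : ℤ) ≤ 7 * (S i : ℤ) + 4
    · obtain ⟨p, u, v, r, s, hp, hu, hv, hr, hs, e⟩ := cover i _ (by omega) c5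
      exact ⟨p, _, v, r, s, L _ hp, R _ hu, L _ hv, hr, hs, by omega⟩
    · obtain ⟨p, u, v, r, s, hp, hu, hv, hr, hs, e⟩ :=
        cover i (t - 7 * (aC (i + 1) : ℤ)) (by omega) (by omega)
      exact ⟨_, _, v, r, s, R _ hp, R _ hu, L _ hv, hr, hs, by omega⟩

lemma blocked : ∀ i x : ℕ, x < aC (i + 1) → ¬ In i x →
    ∃ p u v r s : ℕ, In i p ∧ In i u ∧ In i v ∧ r ≤ 4 ∧ s ≤ 4 ∧ p < x ∧ u < x ∧ v < x ∧
      2 * x + 5 * v + s = 2 * p + 5 * u + r
  | 0, x, h1, h2 => by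
    rw [aC_succ, S_zero] at h1
    simp only [In] at h2
    exact ⟨0, 0, 0, 2 * x, 0, rfl, rfl, rfl, by omega, by omega, by omega, by omega, by omega,
      by omega⟩
  | i + 1, x, h1, h2 => by
    have ha := aC_succ i
    have hb := aC_succ (i + 1)
    have hS := S_succ i
    by_cases c1 : S (i + 1) < x
    · obtain ⟨p, u, v, r, s, hp, hu, hv, hr, hs, e⟩ :=
        cover (i + 1) (2 * (x : ℤ)) (by omega) (by omega)
      have := In_le _ _ hp
      have := In_le _ _ hu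
      have := In_le _ _ hv
      exact ⟨p, u, v, r, s, hp, hu, hv, hr, hs, by omega, by omega, by omega, by omega⟩
    by_cases c2 : x < aC (i + 1)
    · obtain ⟨p, u, v, r, s, hp, hu, hv, hr, hs, h⟩ := blocked i x c2 (fun h => h2 (Or.inl h))
      exact ⟨p, u, v, r, s, Or.inl hp, Or.inl hu, Or.inl hv, hr, hs, h⟩
    · obtain ⟨p, u, v, r, s, hp, hu, hv, hr, hs, h⟩ := blocked i (x - aC (i + 1)) (by omega)
        (fun h => h2 (Or.inr ⟨_, h, by omega⟩))
      exact ⟨p + aC (i + 1), u, v, r, s, Or.inr ⟨p, hp, rfl⟩, Or.inl hu, Or.inl hv, hr, hs,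
        by omega, by omega, by omega, by omega⟩

lemma le_S (i : ℕ) : i ≤ S i := by
  induction i with
  | zero => omega
  | succ i ih => rw [S_succ, aC_succ]; omega

lemma not_free {t : ℕ} (ht : t ∉ Target aC) {U : Set ℕ}
    (hU : ∀ h ∈ Target aC, h < t → h ∈ U) : ¬ Free (U ∪ {t}) := by
  intro hF
  have hx : ¬ In (t / 5) (t / 5) := fun h =>
    ht ((mem_target t).2 ⟨_, _, t % 5, h, by omega, by omega⟩)
  have hl := le_S (t / 5)
  obtain ⟨p, u, v, r, s, hp, hu, hv, hr, hs, lp, lu, lv, e⟩ :=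
    blocked (t / 5) (t / 5) (by rw [aC_succ]; omega) hx
  have m1 : 5 * u + r ∈ U := hU _ ((mem_target _).2 ⟨_, u, r, hu, hr, rfl⟩) (by omega)
  have m2 : 5 * p + t % 5 ∈ U :=
    hU _ ((mem_target _).2 ⟨_, p, t % 5, hp, by omega, rfl⟩) (by omega)
  have m3 : 5 * v + s ∈ U := hU _ ((mem_target _).2 ⟨_, v, s, hv, hs, rfl⟩) (by omega)
  have := hF _ (Or.inl m1) _ (Or.inl m2) _ (Or.inl m3) t (Or.inr rfl) (by omega)
  omega

lemma Free.mono {A B : Set ℕ} (hB : Free B) (h : A ⊆ B) : Free A :=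
  fun w hw x hx y hy z hz e => hB w (h hw) x (h hx) y (h hy) z (h hz) e

lemma zero_mem : 0 ∈ Target aC := ⟨∅, 0, by omega, by simp⟩

lemma greedy_inv {g : ℕ → ℕ} (hg : IsGreedy g) (i : ℕ) :
    (∀ j ≤ i, g j ∈ Target aC) ∧ ∀ h ∈ Target aC, h ≤ g i → h ∈ g '' Set.Iic i := by
  induction i with
  | zero =>
    refine ⟨fun j hj => ?_, fun h _ hh => ⟨0, by simp, ?_⟩⟩
    · obtain rfl : j = 0 := by omega
      rw [hg.1]; exact zero_mem
    · have := hg.1; omega
  | succ i ih =>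
    obtain ⟨⟨hlt, hfree⟩, hmin⟩ := hg.2 i
    have key : ∀ h ∈ Target aC, h < g (i + 1) → h ∈ g '' Set.Iic i := by
      intro h hh hl
      by_cases c : h ≤ g i
      · exact ih.2 h hh c
      · have : g (i + 1) ≤ h := by
          refine hmin ⟨by omega, free_target.mono ?_⟩
          rintro _ (⟨j, hj, rfl⟩ | rfl)
          · exact ih.1 j hj
          · exact hh
        omega
    have hin : g (i + 1) ∈ Target aC := by
      by_contra hn
      exact not_free hn key hfree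
    refine ⟨fun j hj => ?_, fun h hh hl => ?_⟩
    · rcases Nat.lt_or_ge j (i + 1) with c | c
      · exact ih.1 j (by omega)
      · obtain rfl : j = i + 1 := by omega
        exact hin
    · rcases Nat.lt_or_ge h (g (i + 1)) with c | c
      · obtain ⟨j, hj, e⟩ := key h hh c
        exact ⟨j, by simp at hj ⊢; omega, e⟩
      · exact ⟨i + 1, by simp, by omega⟩

lemma range_eq {g : ℕ → ℕ} (hg : IsGreedy g) : Set.range g = Target aC := by
  have hm : StrictMono g := strictMono_nat_of_lt_succ fun i => (hg.2 i).1.1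
  ext h
  constructor
  · rintro ⟨j, rfl⟩
    exact (greedy_inv hg j).1 j le_rfl
  · intro hh
    obtain ⟨j, -, e⟩ := (greedy_inv hg h).2 h hh (hm.id_le h)
    exact ⟨j, e⟩

lemma target_infinite : (Target aC).Infinite := by
  refine Set.infinite_of_not_bddAbove ?_
  rintro ⟨b, hb⟩
  have h1 : 5 * aC (b + 1) ∈ Target aC := ⟨{b + 1}, 0, by omega, by simp⟩
  have h2 := hb h1
  have h3 := le_S b
  rw [aC_succ] at h2
  omega

lemma exists_greedy : ∃ g, IsGreedy g := by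
  have hinf : (setOf fun n => n ∈ Target aC).Infinite := target_infinite
  have hm := Nat.nth_strictMono hinf
  have hmem := Nat.nth_mem_of_infinite hinf
  have hr := Nat.range_nth_of_infinite hinf
  refine ⟨Nat.nth fun n => n ∈ Target aC, Nat.nth_zero_of_zero zero_mem, fun i => ⟨⟨?_, ?_⟩, ?_⟩⟩
  · exact hm (by omega)
  · refine free_target.mono ?_
    rintro _ (⟨j, -, rfl⟩ | rfl)
    · exact hmem j
    · exact hmem _
  · rintro t ⟨h1, h2⟩
    by_contra hc
    push Not at hc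
    refine not_free (t := t) ?_ ?_ h2
    · intro ht
      have : t ∈ Set.range (Nat.nth fun n => n ∈ Target aC) := by rw [hr]; exact ht
      obtain ⟨j, rfl⟩ := this
      have := hm.lt_iff_lt.1 h1
      have := hm.lt_iff_lt.1 hc
      omega
    · intro h hh hl
      have : h ∈ Set.range (Nat.nth fun n => n ∈ Target aC) := by rw [hr]; exact hh
      obtain ⟨j, rfl⟩ := this
      have := hm.lt_iff_lt.1 (hl.trans hc)
      exact ⟨j, by simp; omega, rfl⟩

end Pool.Agent.H30Gr
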