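import Mathlib
set_option autoImplicit false
namespace Pool.Agent.H30Th

def PI {V : Type} (F : V → V → Prop) : Prop :=
  (∀ a b c, F a b → F a c → b = c) ∧ (∀ a b c, F a c → F b c → a = b) ∧ (∀ a b, F a b → ¬ F b a)

def Good {V : Type} (E : V → V → Prop) : Prop :=
  (∀ a b, E a b → E b a) ∧
  ∃ (Ω : Type) (_ : Finite Ω) (_ : Nonempty Ω) (T : Ω → V → V → Prop),
    (∀ w a b, T w a b → E a b) ∧
    (∀ w a b, E a b → (T w a b ↔ ¬ T w b a)) ∧
    (∀ w a, {b | T w a b}.ncard = {b | T w b a}.ncard) ∧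
    (∀ F : V → V → Prop, PI F → Nat.card Ω ≤
      2 ^ {p : V × V | F p.1 p.2 ∧ E p.1 p.2}.ncard * {w | ∀ a b, F a b → E a b → T w a b}.ncard)

lemma good_empty {V : Type} : Good (fun _ _ : V => False) := by
  refine ⟨fun _ _ h => h, Unit, inferInstance, inferInstance, fun _ _ _ => False, ?_, ?_, ?_, ?_⟩
  · intro _ _ _ h; exact h
  · intro _ _ _ h; exact h.elim
  · intro _ _; rfl
  · intro F _; simp

lemma good_congr {V : Type} {E E' : V → V → Prop} (h : Good E) (e : ∀ a b, E' a b ↔ E a b) :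
    Good E' := by
  have : E' = E := by funext a b; exact propext (e a b)
  rw [this]; exact h

lemma good_union {V : Type} [Finite V] {E1 E2 : V → V → Prop} (h1 : Good E1) (h2 : Good E2)
    (hd : ∀ a b, E1 a b → E2 a b → False) : Good (fun a b => E1 a b ∨ E2 a b) := by
  obtain ⟨s1, O1, _, _, T1, a1, b1, c1, d1⟩ := h1
  obtain ⟨s2, O2, _, _, T2, a2, b2, c2, d2⟩ := h2
  refine ⟨fun a b h => h.imp (s1 a b) (s2 a b), O1 × O2, inferInstance, inferInstance,
    fun w a b => T1 w.1 a b ∨ T2 w.2 a b, ?_, ?_, ?_, ?_⟩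
  · intro w a b h; exact h.imp (a1 _ _ _) (a2 _ _ _)
  · intro w a b h
    rcases h with h | h
    · have := b1 w.1 a b h
      have h3 : ¬ T2 w.2 a b := fun t => hd a b h (a2 _ _ _ t)
      have h4 : ¬ T2 w.2 b a := fun t => hd a b h (s2 _ _ (a2 _ _ _ t))
      tauto
    · have := b2 w.2 a b h
      have h3 : ¬ T1 w.1 a b := fun t => hd a b (a1 _ _ _ t) h
      have h4 : ¬ T1 w.1 b a := fun t => hd a b (s1 _ _ (a1 _ _ _ t)) h
      tauto
  · intro w a
    have e1 : {b | T1 w.1 a b ∨ T2 w.2 a b} = {b | T1 w.1 a b} ∪ {b | T2 w.2 a b} := rfl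
    have e2 : {b | T1 w.1 b a ∨ T2 w.2 b a} = {b | T1 w.1 b a} ∪ {b | T2 w.2 b a} := rfl
    rw [e1, e2, Set.ncard_union_eq, Set.ncard_union_eq, c1, c2]
    · rw [Set.disjoint_left]; intro b h h'; exact hd _ _ (a1 _ _ _ h) (a2 _ _ _ h')
    · rw [Set.disjoint_left]; intro b h h'; exact hd _ _ (a1 _ _ _ h) (a2 _ _ _ h')
  · intro F hF
    have e1 : {p : V × V | F p.1 p.2 ∧ (E1 p.1 p.2 ∨ E2 p.1 p.2)} =
        {p : V × V | F p.1 p.2 ∧ E1 p.1 p.2} ∪ {p : V × V | F p.1 p.2 ∧ E2 p.1 p.2} := by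
      ext p; simp only [Set.mem_setOf_eq, Set.mem_union]; tauto
    have e2 : ({w | ∀ a b, F a b → E1 a b → T1 w a b} ×ˢ {w | ∀ a b, F a b → E2 a b → T2 w a b}).ncard ≤
        {w : O1 × O2 | ∀ a b, F a b → (E1 a b ∨ E2 a b) → (T1 w.1 a b ∨ T2 w.2 a b)}.ncard := by
      apply Set.ncard_le_ncard _ (Set.toFinite _)
      rintro w ⟨x, y⟩ a b f h
      exact h.imp (x a b f) (y a b f)
    rw [e1, Set.ncard_union_eq, Nat.card_prod, pow_add]
    · rw [Set.ncard_prod] at e2
      calc _ ≤ _ := Nat.mul_le_mul (d1 F hF) (d2 F hF)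
        _ = _ := mul_mul_mul_comm _ _ _ _
        _ ≤ _ := Nat.mul_le_mul_left _ e2
    · rw [Set.disjoint_left]; intro p h h'; exact hd _ _ h.2 h'.2

lemma good_finset {V ι : Type} [Finite V] (E : ι → V → V → Prop) (s : Finset ι)
    (hg : ∀ i ∈ s, Good (E i)) (hd : ∀ i ∈ s, ∀ j ∈ s, ∀ a b, E i a b → E j a b → i = j) :
    Good (fun a b => ∃ i ∈ s, E i a b) := by
  classical
  induction s using Finset.induction_on with
  | empty => exact good_congr good_empty (by simp)
  | insert i s hi ih =>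
    have h1 := ih (fun j hj => hg j (Finset.mem_insert_of_mem hj))
      (fun j hj k hk => hd j (Finset.mem_insert_of_mem hj) k (Finset.mem_insert_of_mem hk))
    refine good_congr (good_union (hg i (Finset.mem_insert_self _ _)) h1 ?_) (by simp)
    rintro a b h ⟨j, hj, h'⟩
    have := hd i (Finset.mem_insert_self _ _) j (Finset.mem_insert_of_mem hj) a b h h'
    exact hi (this ▸ hj)

def Img {W V : Type} (f : W → V) (E : W → W → Prop) (a b : V) : Prop :=
  ∃ x y, f x = a ∧ f y = b ∧ E x y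

lemma good_img {W V : Type} [Finite V] {E : W → W → Prop} (h : Good E) (f : W → V)
    (hf : Function.Injective f) : Good (Img f E) := by
  obtain ⟨s, O, _, _, T, a1, b1, c1, d1⟩ := h
  have key : ∀ (R : W → W → Prop) x y, Img f R (f x) (f y) ↔ R x y := by
    intro R x y
    constructor
    · rintro ⟨x', y', h1, h2, h3⟩
      rw [← hf h1, ← hf h2]; exact h3
    · intro h; exact ⟨x, y, rfl, rfl, h⟩
  refine ⟨?_, O, inferInstance, inferInstance, fun w => Img f (T w), ?_, ?_, ?_, ?_⟩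
  · rintro a b ⟨x, y, rfl, rfl, h⟩; exact ⟨y, x, rfl, rfl, s _ _ h⟩
  · rintro w a b ⟨x, y, rfl, rfl, h⟩; exact ⟨x, y, rfl, rfl, a1 _ _ _ h⟩
  · rintro w a b ⟨x, y, rfl, rfl, h⟩
    show Img f (T w) (f x) (f y) ↔ ¬ Img f (T w) (f y) (f x)
    rw [key, key]; exact b1 w x y h
  · intro w a
    by_cases ha : ∃ x, f x = a
    · obtain ⟨x, rfl⟩ := ha
      have e1 : {b | Img f (T w) (f x) b} = f '' {y | T w x y} := by
        ext b; constructor
        · rintro ⟨x', y, h1, rfl, h3⟩; exact ⟨y, by rw [← hf h1]; exact h3, rfl⟩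
        · rintro ⟨y, h, rfl⟩; exact ⟨x, y, rfl, rfl, h⟩
      have e2 : {b | Img f (T w) b (f x)} = f '' {y | T w y x} := by
        ext b; constructor
        · rintro ⟨y, x', rfl, h1, h3⟩; exact ⟨y, by rw [← hf h1]; exact h3, rfl⟩
        · rintro ⟨y, h, rfl⟩; exact ⟨y, x, rfl, rfl, h⟩
      rw [e1, e2, Set.ncard_image_of_injective _ hf, Set.ncard_image_of_injective _ hf, c1]
    · have e1 : {b | Img f (T w) a b} = ∅ := by
        ext b; constructor
        · rintro ⟨x', y, h1, _, _⟩; exact (ha ⟨_, h1⟩).elim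
        · intro h; exact h.elim
      have e2 : {b | Img f (T w) b a} = ∅ := by
        ext b; constructor
        · rintro ⟨x', y, _, h1, _⟩; exact (ha ⟨_, h1⟩).elim
        · intro h; exact h.elim
      rw [e1, e2]
  · intro F hF
    have hF' : PI (fun x y => F (f x) (f y)) :=
      ⟨fun a b c h1 h2 => hf (hF.1 _ _ _ h1 h2), fun a b c h1 h2 => hf (hF.2.1 _ _ _ h1 h2),
        fun a b h1 => hF.2.2 _ _ h1⟩
    refine (d1 _ hF').trans (Nat.mul_le_mul (Nat.pow_le_pow_right (by norm_num) ?_) ?_)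
    · refine Set.ncard_le_ncard_of_injOn (Prod.map f f) ?_ ?_ (Set.toFinite _)
      · rintro ⟨x, y⟩ ⟨h1, h2⟩; exact ⟨h1, x, y, rfl, rfl, h2⟩
      · exact (hf.prodMap hf).injOn
    · apply Set.ncard_le_ncard _ (Set.toFinite _)
      rintro w hw a b h ⟨x, y, rfl, rfl, h'⟩
      exact ⟨x, y, rfl, rfl, hw x y h h'⟩

lemma good_base (k N : ℕ) [NeZero N] (T : Fin N → Fin k → Fin k → Bool)
    (h1 : ∀ w a, T w a a = false) (h2 : ∀ w a b, a ≠ b → T w a b = !T w b a)
    (h3 : ∀ w a, (Finset.univ.filter (fun b => T w a b = true)).card =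
      (Finset.univ.filter (fun b => T w b a = true)).card)
    (h4 : ∀ g : Fin k → Fin (k+1), (∀ a b, g a = g b → g a = Fin.last k ∨ a = b) →
      (∀ a b : Fin k, g a = b.castSucc → g b ≠ a.castSucc) →
      N ≤ 2 ^ (Finset.univ.filter (fun p : Fin k × Fin k => g p.1 = p.2.castSucc ∧ p.1 ≠ p.2)).card *
        (Finset.univ.filter (fun w => ∀ a b : Fin k, g a = b.castSucc → a ≠ b → T w a b = true)).card) :
    Good (fun a b : Fin k => a ≠ b) := by
  refine ⟨fun a b h => h.symm, Fin N, inferInstance, inferInstance, fun w a b => T w a b = true,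
    ?_, ?_, ?_, ?_⟩
  · intro w a b h e
    subst e
    have h' : T w a a = true := h
    rw [h1] at h'; exact Bool.noConfusion h'
  · intro w a b h
    show T w a b = true ↔ ¬ T w b a = true
    rw [h2 w a b h]; simp
  · intro w a
    have := h3 w a
    rw [← Set.ncard_coe_finset, ← Set.ncard_coe_finset] at this
    simpa using this
  · intro F hF
    classical
    let g : Fin k → Fin (k+1) := fun a => if h : ∃ b, F a b then h.choose.castSucc else Fin.last k
    have hg : ∀ a b, F a b ↔ g a = b.castSucc := by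
      intro a b
      by_cases h : ∃ b, F a b
      · simp only [g, dif_pos h, Fin.castSucc_inj]
        exact ⟨fun h' => hF.1 _ _ _ h.choose_spec h', fun h' => h' ▸ h.choose_spec⟩
      · simp only [g, dif_neg h]
        exact ⟨fun h' => (h ⟨b, h'⟩).elim, fun h' => ((Fin.castSucc_lt_last b).ne' h').elim⟩
    have := h4 g ?_ ?_
    · rw [← Set.ncard_coe_finset, ← Set.ncard_coe_finset] at this
      simpa [hg] using this
    · intro a b e
      rcases Fin.eq_castSucc_or_eq_last (g a) with ⟨c, hc⟩ | hc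
      · exact Or.inr (hF.2.1 _ _ c ((hg _ _).2 hc) ((hg _ _).2 (e ▸ hc)))
      · exact Or.inl hc
    · intro a b h h'
      exact hF.2.2 a b ((hg _ _).2 h) ((hg _ _).2 h')

def T3 (w : Fin 2) (a b : Fin 3) : Bool := Nat.testBit (if w.val = 0 then 98 else 140) (3 * a.val + b.val)

lemma good3 : Good (fun a b : Fin 3 => a ≠ b) :=
  good_base 3 2 T3 (by decide) (by decide) (by decide) (by decide +kernel)

def L5 : List ℕ := [3727750, 3760300, 3818890, 3819820, 5810950, 5842570, 5843500, 5902090, 6858130, 6859060, 6890680, 6950200, 9560710, 9620230, 9651850, 9652780, 10608820, 10667410, 10668340, 10699960, 12691090, 12692020, 12750610, 12783160]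

def T5 (w : Fin 24) (a b : Fin 5) : Bool := Nat.testBit (L5.getD w.val 0) (5 * a.val + b.val)

set_option synthInstance.maxSize 100000 in
lemma chk5 : ∀ g0 g1 g2 g3 g4 : Fin 6,
    (∀ a b, ![g0, g1, g2, g3, g4] a = ![g0, g1, g2, g3, g4] b → ![g0, g1, g2, g3, g4] a = Fin.last 5 ∨ a = b) →
      (∀ a b : Fin 5, ![g0, g1, g2, g3, g4] a = b.castSucc → ![g0, g1, g2, g3, g4] b ≠ a.castSucc) →
      24 ≤ 2 ^ (Finset.univ.filter (fun p : Fin 5 × Fin 5 => ![g0, g1, g2, g3, g4] p.1 = p.2.castSucc ∧ p.1 ≠ p.2)).card *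
        (Finset.univ.filter (fun w => ∀ a b : Fin 5, ![g0, g1, g2, g3, g4] a = b.castSucc → a ≠ b → T5 w a b = true)).card := by
  decide +kernel

lemma good5 : Good (fun a b : Fin 5 => a ≠ b) := by
  refine good_base 5 24 T5 (by decide +kernel) (by decide +kernel) (by decide +kernel) ?_
  intro g
  have e : g = ![g 0, g 1, g 2, g 3, g 4] := by
    funext i; fin_cases i <;> rfl
  rw [e]
  exact chk5 _ _ _ _ _

end Pool.Agent.H30Th
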