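import Mathlib
import Pool.Agent.H30Th
set_option autoImplicit false
namespace Pool.Agent.H30Th


def Hole {V : Type} (h : Fin 3 → V) (a b : V) : Prop :=
  a ≠ b ∧ ¬ ((∃ i, h i = a) ∧ (∃ j, h j = b))

lemma good_full_of_hole {V : Type} [Finite V] (h : Fin 3 → V) (hi : Function.Injective h)
    (g : Good (Hole h)) : Good (fun a b : V => a ≠ b) := by
  refine good_congr (good_union g (good_img good3 h hi) ?_) ?_
  · rintro a b ⟨_, h1⟩ ⟨x, y, rfl, rfl, _⟩
    exact h1 ⟨⟨_, rfl⟩, ⟨_, rfl⟩⟩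
  · intro a b
    constructor
    · intro hab
      by_cases hc : (∃ i, h i = a) ∧ (∃ j, h j = b)
      · obtain ⟨⟨i, rfl⟩, ⟨j, rfl⟩⟩ := hc
        exact Or.inr ⟨i, j, rfl, rfl, fun e => hab (by rw [e])⟩
      · exact Or.inl ⟨hab, hc⟩
    · rintro (h1 | ⟨x, y, rfl, rfl, h1⟩)
      · exact h1.1
      · exact fun e => h1 (hi e)

lemma good_full_equiv {W V : Type} [Finite V] (e : W ≃ V) (g : Good (fun a b : W => a ≠ b)) :
    Good (fun a b : V => a ≠ b) := by
  refine good_congr (good_img g e e.injective) ?_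
  intro a b
  constructor
  · intro h; exact ⟨e.symm a, e.symm b, by simp, by simp, by simpa using h⟩
  · rintro ⟨x, y, rfl, rfl, h⟩; simpa using h

lemma good_hole_equiv {W V : Type} [Finite V] (e : W ≃ V) (h : Fin 3 → W) (hi : Function.Injective h)
    (g : Good (Hole h)) (h' : Fin 3 → V) (hi' : Function.Injective h') : Good (Hole h') := by
  obtain ⟨σ, hσ⟩ := Equiv.Perm.exists_extending_pair (fun i => e (h i)) h' (e.injective.comp hi) hi'
  let e' : W ≃ V := e.trans σ
  have he : ∀ i, e' (h i) = h' i := hσ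
  refine good_congr (good_img g e' e'.injective) ?_
  intro a b
  obtain ⟨x, rfl⟩ := e'.surjective a
  obtain ⟨y, rfl⟩ := e'.surjective b
  constructor
  · rintro ⟨h1, h2⟩
    refine ⟨x, y, rfl, rfl, fun t => h1 (by rw [t]), ?_⟩
    rintro ⟨⟨i, rfl⟩, ⟨j, rfl⟩⟩
    exact h2 ⟨⟨i, (he i).symm⟩, ⟨j, (he j).symm⟩⟩
  · rintro ⟨x', y', h1, h2, h3, h4⟩
    have := e'.injective h1; subst this
    have := e'.injective h2; subst this
    refine ⟨fun t => h3 (e'.injective t), ?_⟩
    rintro ⟨⟨i, hx⟩, ⟨j, hy⟩⟩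
    exact h4 ⟨⟨i, e'.injective (by rw [he, hx])⟩, ⟨j, e'.injective (by rw [he, hy])⟩⟩

section TD
variable {G R : Type} [AddCommGroup G] [Fintype G] [DecidableEq G] [Finite R]

def tri (R : Type) (p : G × G) (i : Fin 3) : (Fin 3 × G) ⊕ R := Sum.inl (i, ![p.1, p.2, p.1 + p.2] i)

lemma tri_inj (p : G × G) : Function.Injective (tri R p) := by
  intro i j h
  simp only [tri, Sum.inl.injEq, Prod.mk.injEq] at h
  exact h.1

lemma tri_uniq (p q : G × G) (i j i' j' : Fin 3) (hij : i ≠ j) (h1 : tri R p i = tri R q i')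
    (h2 : tri R p j = tri R q j') : p = q := by
  obtain ⟨x, y⟩ := p
  obtain ⟨z, w⟩ := q
  simp only [tri, Sum.inl.injEq, Prod.mk.injEq] at h1 h2
  obtain ⟨rfl, h1⟩ := h1
  obtain ⟨rfl, h2⟩ := h2
  fin_cases i <;> fin_cases j <;> simp at hij h1 h2 ⊢ <;> grind

lemma tri_ex (i j : Fin 3) (u v : G) (hij : i ≠ j) :
    ∃ p : G × G, tri R p i = Sum.inl (i, u) ∧ tri R p j = Sum.inl (j, v) := by
  fin_cases i <;> fin_cases j
  · exact (hij rfl).elim
  · exact ⟨(u, v), by simp [tri], by simp [tri]⟩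
  · exact ⟨(u, v - u), by simp [tri], by simp [tri]⟩
  · exact ⟨(v, u), by simp [tri], by simp [tri]⟩
  · exact (hij rfl).elim
  · exact ⟨(v - u, u), by simp [tri], by simp [tri]⟩
  · exact ⟨(v, u - v), by simp [tri], by simp [tri]⟩
  · exact ⟨(u - v, v), by simp [tri], by simp [tri]⟩
  · exact (hij rfl).elim

def EA (R : Type) (s : Finset (G × G)) (a b : (Fin 3 × G) ⊕ R) : Prop :=
  ∃ p ∈ s, Img (tri R p) (fun x y : Fin 3 => x ≠ y) a b

lemma good_EA (s : Finset (G × G)) : Good (EA R s) := by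
  refine good_finset (fun p => Img (tri R p) (fun x y : Fin 3 => x ≠ y)) s
    (fun p _ => good_img good3 _ (tri_inj p)) ?_
  rintro p _ q _ a b ⟨i, j, rfl, rfl, hij⟩ ⟨i', j', h1, h2, _⟩
  exact tri_uniq p q i j i' j' hij h1.symm h2.symm

def grp (i : Fin 3) : G ⊕ R → (Fin 3 × G) ⊕ R := Sum.map (fun x => (i, x)) id

lemma grp_inj (i : Fin 3) : Function.Injective (grp i : G ⊕ R → _) := by
  rintro (x | x) (y | y) h <;> simp_all [grp]

def EB (E : G ⊕ R → G ⊕ R → Prop) (a b : (Fin 3 × G) ⊕ R) : Prop :=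
  ∃ i ∈ (Finset.univ : Finset (Fin 3)), Img (grp i) E a b

lemma good_EB (E : G ⊕ R → G ⊕ R → Prop) (g : Good E) (hE : ∀ r r', ¬ E (Sum.inr r) (Sum.inr r')) :
    Good (EB E) := by
  refine good_finset (fun i => Img (grp i) E) _ (fun i _ => good_img g _ (grp_inj i)) ?_
  rintro i _ j _ a b ⟨x, y, rfl, rfl, h⟩ ⟨x', y', h1, h2, _⟩
  rcases x with x | x
  · rcases x' with x' | x' <;> simp_all [grp]
  · rcases y with y | y
    · rcases y' with y' | y' <;> simp_all [grp]
    · exact (hE _ _ h).elim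

lemma EAB_disj (s : Finset (G × G)) (E : G ⊕ R → G ⊕ R → Prop) (a b : (Fin 3 × G) ⊕ R) :
    EA R s a b → EB E a b → False := by
  rintro ⟨p, _, i, j, rfl, rfl, hij⟩ ⟨k, _, x, y, h1, h2, _⟩
  rcases x with x | x <;> rcases y with y | y <;> simp [grp, tri] at h1 h2
  exact hij (h1.1.symm.trans h2.1)

lemma step1 [Subsingleton R] (g : Good (fun a b : G ⊕ R => a ≠ b)) :
    Good (Hole (tri R ((0 : G), (0 : G)))) := by
  refine good_congr (good_union (good_EA (Finset.univ.erase (0, 0)))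
    (good_EB _ g (fun r r' h => h (by rw [Subsingleton.elim r r']))) (EAB_disj _ _)) ?_
  intro a b
  constructor
  · rintro ⟨hab, h⟩
    rcases a with ⟨i, u⟩ | r <;> rcases b with ⟨j, v⟩ | r'
    · by_cases hij : i = j
      · subst hij
        exact Or.inr ⟨i, Finset.mem_univ _, Sum.inl u, Sum.inl v, rfl, rfl, by simpa using hab⟩
      · obtain ⟨p, h1, h2⟩ := tri_ex (R := R) i j u v hij
        refine Or.inl ⟨p, ?_, i, j, h1, h2, hij⟩
        simp only [Finset.mem_erase, Finset.mem_univ, and_true]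
        rintro rfl
        exact h ⟨⟨i, h1⟩, ⟨j, h2⟩⟩
    · exact Or.inr ⟨i, Finset.mem_univ _, Sum.inl u, Sum.inr r', rfl, rfl, by simp⟩
    · exact Or.inr ⟨j, Finset.mem_univ _, Sum.inr r, Sum.inl v, rfl, rfl, by simp⟩
    · exact (hab (by rw [Subsingleton.elim r r'])).elim
  · rintro (⟨p, hp, i, j, rfl, rfl, hij⟩ | ⟨k, _, x, y, rfl, rfl, h⟩)
    · refine ⟨fun e => hij (tri_inj p e), ?_⟩
      rintro ⟨⟨i', h1⟩, ⟨j', h2⟩⟩
      exact (Finset.mem_erase.1 hp).1 (tri_uniq p _ i j i' j' hij h1.symm h2.symm)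
    · refine ⟨fun e => h (grp_inj k e), ?_⟩
      rintro ⟨⟨i', h1⟩, ⟨j', h2⟩⟩
      apply h
      rcases x with x | x <;> rcases y with y | y <;> simp [grp, tri] at h1 h2 ⊢
      obtain ⟨rfl, h1⟩ := h1
      obtain ⟨rfl, h2⟩ := h2
      exact h1.symm.trans h2

def hol (G : Type) [AddCommGroup G] : Fin 3 → G ⊕ Fin 2 := ![Sum.inl 0, Sum.inr 0, Sum.inr 1]

lemma hol_inj : Function.Injective (hol G) := by
  intro i j h
  fin_cases i <;> fin_cases j <;> simp [hol] at h ⊢

def k5 (G : Type) [AddCommGroup G] : Fin 5 → (Fin 3 × G) ⊕ Fin 2 :=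
  ![Sum.inl (0, 0), Sum.inl (1, 0), Sum.inl (2, 0), Sum.inr 0, Sum.inr 1]

lemma k5_inj : Function.Injective (k5 G) := by
  intro i j h
  fin_cases i <;> fin_cases j <;> simp [k5] at h ⊢

lemma hol_iff (x : G ⊕ Fin 2) : (∃ i, hol G i = x) ↔ ∀ u, x = Sum.inl u → u = 0 := by
  rcases x with x | x
  · simp [hol, Fin.exists_fin_succ, eq_comm]
  · fin_cases x <;> simp [hol, Fin.exists_fin_succ]

lemma k5_iff (x : (Fin 3 × G) ⊕ Fin 2) : (∃ i, k5 G i = x) ↔ ∀ j u, x = Sum.inl (j, u) → u = 0 := by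
  rcases x with ⟨j, x⟩ | x
  · fin_cases j <;> simp [k5, Fin.exists_fin_succ, eq_comm]
  · fin_cases x <;> simp [k5, Fin.exists_fin_succ]

lemma step2 (c : G) (hc : c ≠ 0) (hc2 : c + c ≠ 0) (g : Good (Hole (hol G))) :
    Good (Hole (tri (Fin 2) (c, c))) := by
  refine good_congr (good_union (good_union (good_EA ((Finset.univ.erase (0, 0)).erase (c, c)))
    (good_EB _ g ?_) (EAB_disj _ _)) (good_img good5 _ (k5_inj (G := G))) ?_) ?_
  · intro r r' h
    exact h.2 ⟨(hol_iff _).2 (by simp), (hol_iff _).2 (by simp)⟩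
  · rintro a b (⟨p, hp, i, j, rfl, rfl, hij⟩ | ⟨k, _, x, y, rfl, rfl, h⟩) ⟨x', y', h1, h2, _⟩
    · have e1 := (k5_iff _).1 ⟨_, h1⟩ _ _ rfl
      have e2 := (k5_iff _).1 ⟨_, h2⟩ _ _ rfl
      refine (Finset.mem_erase.1 (Finset.mem_erase.1 hp).2).1 (tri_uniq (R := Fin 2) p _ i j i j hij ?_ ?_)
      · simp only [tri, e1]; fin_cases i <;> simp
      · simp only [tri, e2]; fin_cases j <;> simp
    · refine h.2 ⟨(hol_iff _).2 ?_, (hol_iff _).2 ?_⟩
      · rintro u rfl; exact (k5_iff _).1 ⟨_, h1⟩ k u rfl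
      · rintro u rfl; exact (k5_iff _).1 ⟨_, h2⟩ k u rfl
  intro a b
  constructor
  · rintro ⟨hab, h⟩
    by_cases hk : (∃ i, k5 G i = a) ∧ (∃ i, k5 G i = b)
    · obtain ⟨⟨i, rfl⟩, ⟨j, rfl⟩⟩ := hk
      exact Or.inr ⟨i, j, rfl, rfl, fun e => hab (by rw [e])⟩
    left
    rw [k5_iff, k5_iff] at hk
    rcases a with ⟨i, u⟩ | r <;> rcases b with ⟨j, v⟩ | r'
    · by_cases hij : i = j
      · subst hij
        refine Or.inr ⟨i, Finset.mem_univ _, Sum.inl u, Sum.inl v, rfl, rfl, by simpa using hab, ?_⟩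
        rw [hol_iff, hol_iff]
        simpa using hk
      · obtain ⟨p, h1, h2⟩ := tri_ex (R := Fin 2) i j u v hij
        refine Or.inl ⟨p, ?_, i, j, h1, h2, hij⟩
        simp only [Finset.mem_erase, Finset.mem_univ, and_true]
        constructor
        · rintro rfl
          exact h ⟨⟨i, h1⟩, ⟨j, h2⟩⟩
        · rintro rfl
          apply hk
          simp only [tri, Sum.inl.injEq, Prod.mk.injEq, true_and] at h1 h2
          constructor
          · intro j' u' e
            simp only [Sum.inl.injEq, Prod.mk.injEq] at e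
            rw [← e.2, ← h1]; fin_cases i <;> simp
          · intro j' u' e
            simp only [Sum.inl.injEq, Prod.mk.injEq] at e
            rw [← e.2, ← h2]; fin_cases j <;> simp
    · refine Or.inr ⟨i, Finset.mem_univ _, Sum.inl u, Sum.inr r', rfl, rfl, by simp, ?_⟩
      rw [hol_iff, hol_iff]
      simpa using hk
    · refine Or.inr ⟨j, Finset.mem_univ _, Sum.inr r, Sum.inl v, rfl, rfl, by simp, ?_⟩
      rw [hol_iff, hol_iff]
      simpa using hk
    · exact (hk (by simp)).elim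
  · rintro ((⟨p, hp, i, j, rfl, rfl, hij⟩ | ⟨k, _, x, y, rfl, rfl, h⟩) | ⟨x, y, rfl, rfl, h⟩)
    · refine ⟨fun e => hij (tri_inj p e), ?_⟩
      rintro ⟨⟨i', h1⟩, ⟨j', h2⟩⟩
      exact (Finset.mem_erase.1 hp).1 (tri_uniq p _ i j i' j' hij h1.symm h2.symm)
    · refine ⟨fun e => h.1 (grp_inj k e), ?_⟩
      rintro ⟨⟨i', h1⟩, ⟨j', h2⟩⟩
      apply h.1
      rcases x with x | x <;> rcases y with y | y <;> simp [grp, tri] at h1 h2 ⊢
      obtain ⟨rfl, h1⟩ := h1
      obtain ⟨rfl, h2⟩ := h2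
      exact h1.symm.trans h2
    · refine ⟨fun e => h (k5_inj e), ?_⟩
      rintro ⟨⟨i', h1⟩, _⟩
      have := (k5_iff _).1 ⟨_, h1.symm⟩ _ _ rfl
      fin_cases i' <;> simp_all

end TD

def t11 : Fin 14 → Fin 3 → Fin 11 := ![![0, 6, 9], ![0, 7, 8], ![1, 6, 10], ![1, 7, 5], ![1, 8, 9], ![2, 7, 10], ![2, 8, 6], ![2, 9, 5], ![3, 8, 10], ![3, 9, 7], ![3, 5, 6], ![4, 9, 10], ![4, 5, 8], ![4, 6, 7]]
def h11 : Fin 3 → Fin 11 := ![0, 5, 10]
def k11 : Fin 5 → Fin 11 := ![0, 1, 2, 3, 4]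

lemma hole11 : Good (Hole h11) := by
  refine good_congr (good_union (good_finset (fun p => Img (t11 p) (fun x y : Fin 3 => x ≠ y))
    Finset.univ (fun p _ => good_img good3 _ ?_) ?_) (good_img good5 k11 (by decide)) ?_) ?_
  · revert p; decide +kernel
  · simp only [Img]; decide +kernel
  · simp only [Img, imp_false]; decide +kernel
  · simp only [Img, Hole]; decide +kernel

def HP (n : ℕ) : Prop := ∃ (W : Type) (_ : Fintype W) (h : Fin 3 → W),
  Function.Injective h ∧ Fintype.card W = n ∧ Good (Hole h)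

lemma full_of_HP {n : ℕ} (h : HP n) : Good (fun a b : Fin n => a ≠ b) := by
  obtain ⟨W, _, h, hi, hc, g⟩ := h
  exact good_full_equiv (Fintype.equivFinOfCardEq hc) (good_full_of_hole h hi g)

lemma main (n : ℕ) : Odd n → Good (fun a b : Fin n => a ≠ b) ∧ (7 ≤ n → HP n) := by
  induction n using Nat.strong_induction_on with
  | _ n ih =>
  intro ho
  have ho' := Nat.odd_iff.1 ho
  by_cases h7 : 7 ≤ n
  · suffices h : HP n from ⟨full_of_HP h, fun _ => h⟩
    obtain ⟨m, hm⟩ : ∃ m, m = n / 3 := ⟨_, rfl⟩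
    haveI : NeZero m := ⟨by omega⟩
    have h3 : n % 3 = 0 ∨ n % 3 = 1 ∨ n % 3 = 2 := by omega
    rcases h3 with h3 | h3 | h3
    · have g := (ih m (by omega) (Nat.odd_iff.2 (by omega))).1
      refine ⟨(Fin 3 × ZMod m) ⊕ Fin 0, inferInstance, tri (Fin 0) (0, 0), tri_inj _, ?_, ?_⟩
      · simp; omega
      · exact step1 (good_full_equiv (Fintype.equivFinOfCardEq (by simp)).symm g)
    · have g := (ih (m + 1) (by omega) (Nat.odd_iff.2 (by omega))).1
      refine ⟨(Fin 3 × ZMod m) ⊕ Fin 1, inferInstance, tri (Fin 1) (0, 0), tri_inj _, ?_, ?_⟩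
      · simp; omega
      · exact step1 (good_full_equiv (Fintype.equivFinOfCardEq (by simp)).symm g)
    · by_cases h11' : n = 11
      · subst h11'
        exact ⟨Fin 11, inferInstance, h11, by decide, by simp, hole11⟩
      obtain ⟨W, _, h, hi, hc, g⟩ := (ih (m + 2) (by omega) (Nat.odd_iff.2 (by omega))).2 (by omega)
      refine ⟨(Fin 3 × ZMod m) ⊕ Fin 2, inferInstance, tri (Fin 2) (1, 1), tri_inj _, ?_, ?_⟩
      · simp; omega
      · refine step2 1 ?_ ?_
          (good_hole_equiv (Fintype.equivOfCardEq (by simp [hc])) h hi g _ hol_inj)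
        · intro e
          have : ((1 : ℕ) : ZMod m) = 0 := by simpa using e
          have := Nat.le_of_dvd (by norm_num) ((ZMod.natCast_eq_zero_iff _ _).1 this)
          omega
        · intro e
          have : ((1 + 1 : ℕ) : ZMod m) = 0 := by rw [Nat.cast_add, Nat.cast_one]; exact e
          have := Nat.le_of_dvd (by norm_num) ((ZMod.natCast_eq_zero_iff _ _).1 this)
          omega
  · refine ⟨?_, fun h => (h7 h).elim⟩
    have : n = 1 ∨ n = 3 ∨ n = 5 := by omega
    rcases this with rfl | rfl | rfl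
    · exact good_congr good_empty (fun a b => by simp [Subsingleton.elim a b])
    · exact good3
    · exact good5

lemma final :
    ∀ n : ℕ, Odd n → 3 ≤ n →
      ∃ adj : Fin n → Fin n → Prop,
        (∀ v, ¬ adj v v) ∧
        (∀ v w, v ≠ w → (adj v w ↔ ¬ adj w v)) ∧
        (∀ v, {w : Fin n | adj v w}.ncard = (n - 1) / 2) ∧
        ((Nat.factorial (n - 1) : ℝ) / (2 : ℝ) ^ n ≤
          (({c : Equiv.Perm (Fin n) |
              c.IsCycle ∧ c.support = Finset.univ ∧ ∀ v, adj v (c v)}.ncard : ℕ) : ℝ)) := by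
  intro n ho h3
  classical
  obtain ⟨_, O, _, _, T, a1, b1, c1, d1⟩ := (main n ho).1
  haveI := Fintype.ofFinite O
  let C : Finset (Equiv.Perm (Fin n)) := Finset.univ.filter (fun g => g.cycleType = {n})
  have hC : C.card = Nat.factorial (n - 1) := by
    have := Equiv.Perm.card_of_cycleType_singleton (α := Fin n) (n := n) (by omega) (by simp)
    simpa using this
  have hC' : ∀ c ∈ C, c.IsCycle ∧ c.support = Finset.univ := by
    intro c hc
    have hc' : c.cycleType = {n} := (Finset.mem_filter.1 hc).2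
    refine ⟨Equiv.Perm.card_cycleType_eq_one.1 (by rw [hc']; rfl), ?_⟩
    apply Finset.eq_univ_of_card
    rw [← Equiv.Perm.sum_cycleType, hc']; simp
  have hne : ∀ c ∈ C, ∀ a, c (c a) ≠ a := by
    intro c hc a e
    obtain ⟨h1, h2⟩ := hC' c hc
    have ha : c a ≠ a := Equiv.Perm.mem_support.1 (h2 ▸ Finset.mem_univ a)
    have h4 : c ^ 2 = 1 := (h1.pow_eq_one_iff' ha).2 (by rw [pow_two]; exact e)
    have h5 := orderOf_dvd_of_pow_eq_one h4
    rw [h1.orderOf, h2] at h5
    have := Nat.le_of_dvd (by norm_num) h5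
    simp at this
    omega
  let r : O → Equiv.Perm (Fin n) → Prop := fun w c => ∀ v, T w v (c v)
  have hb : ∀ c ∈ C, Fintype.card O ≤ 2 ^ n * (Finset.univ.bipartiteBelow r c).card := by
    intro c hc
    have hP : PI (fun a b => c a = b) := by
      refine ⟨fun a b d h1 h2 => h1.symm.trans h2, fun a b d h1 h2 => c.injective (h1.trans h2.symm), ?_⟩
      rintro a b rfl h
      exact hne c hc a h
    have := d1 _ hP
    rw [Nat.card_eq_fintype_card] at this
    refine this.trans (Nat.mul_le_mul (Nat.pow_le_pow_right (by norm_num) ?_) ?_)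
    · have : n = (Set.univ : Set (Fin n)).ncard := by simp
      conv_rhs => rw [this]
      refine Set.ncard_le_ncard_of_injOn Prod.fst (fun _ _ => Set.mem_univ _) ?_ (Set.toFinite _)
      rintro ⟨a, b⟩ ⟨h1, _⟩ ⟨a', b'⟩ ⟨h2, _⟩ e
      simp only at h1 h2 e
      subst e
      rw [← h1, ← h2]
    · rw [← Set.ncard_coe_finset]
      apply Set.ncard_le_ncard _ (Set.toFinite _)
      intro w hw
      simp only [Finset.coe_bipartiteBelow, Finset.mem_univ, true_and, Set.mem_setOf_eq]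
      intro v
      refine hw v (c v) rfl (fun e => hne c hc v ?_)
      rw [← e, ← e]
  have hsum : ∑ _w : O, Nat.factorial (n - 1) ≤ ∑ w : O, 2 ^ n * (C.bipartiteAbove r w).card := by
    rw [← Finset.mul_sum, Finset.sum_card_bipartiteAbove_eq_sum_card_bipartiteBelow, Finset.mul_sum]
    calc _ = ∑ _c ∈ C, Fintype.card O := by simp [hC, mul_comm]
      _ ≤ _ := Finset.sum_le_sum hb
  obtain ⟨w, _, hw⟩ := Finset.exists_le_of_sum_le Finset.univ_nonempty hsum
  refine ⟨T w, fun v h => a1 w v v h rfl, fun v u h => b1 w v u h, ?_, ?_⟩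
  · intro v
    have e : {b | T w v b} ∪ {b | T w b v} = {v}ᶜ := by
      ext b
      simp only [Set.mem_union, Set.mem_setOf_eq, Set.mem_compl_iff, Set.mem_singleton_iff]
      constructor
      · rintro (h | h)
        · exact fun e => a1 _ _ _ h e.symm
        · exact a1 _ _ _ h
      · intro h
        have := b1 w b v h
        tauto
    have e2 : ({b | T w v b} ∪ {b | T w b v}).ncard = n - 1 := by
      rw [e, Set.ncard_compl]; simp
    rw [Set.ncard_union_eq, ← c1] at e2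
    · omega
    · rw [Set.disjoint_left]
      intro b h h'
      exact (b1 w v b (a1 _ _ _ h)).1 h h'
  · rw [div_le_iff₀ (by positivity)]
    have h6 : (C.bipartiteAbove r w).card ≤ {c : Equiv.Perm (Fin n) |
              c.IsCycle ∧ c.support = Finset.univ ∧ ∀ v, T w v (c v)}.ncard := by
      rw [← Set.ncard_coe_finset]
      apply Set.ncard_le_ncard _ (Set.toFinite _)
      intro c hc
      simp only [Finset.coe_bipartiteAbove, Set.mem_setOf_eq] at hc
      exact ⟨(hC' c hc.1).1, (hC' c hc.1).2, hc.2⟩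
    have h7 := hw.trans (Nat.mul_le_mul_left _ h6)
    rw [mul_comm] at h7
    exact_mod_cast h7

end Pool.Agent.H30Th
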