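import Mathlib

set_option autoImplicit false

open Set

namespace Pool.Agent.H6Crit

/-- `X` embeds in `Y`. -/
def Emb (X Y : Type) [LinearOrder X] [LinearOrder Y] : Prop := ∃ f : X → Y, StrictMono f

lemma emb_iff {X Y : Type} [LinearOrder X] [LinearOrder Y] : Emb X Y ↔ Nonempty (X ↪o Y) :=
  ⟨fun ⟨f, hf⟩ => ⟨OrderEmbedding.ofStrictMono f hf⟩, fun ⟨e⟩ => ⟨e, e.strictMono⟩⟩

lemma Emb.trans {X Y Z : Type} [LinearOrder X] [LinearOrder Y] [LinearOrder Z]
    (h : Emb X Y) (h' : Emb Y Z) : Emb X Z := by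
  obtain ⟨f, hf⟩ := h
  obtain ⟨g, hg⟩ := h'
  exact ⟨g ∘ f, hg.comp hf⟩

/-- Minimal uncountable non-scattered chain. -/
structure Min (B : Type) [LinearOrder B] : Prop where
  unc : Uncountable B
  min : ∀ S : Set B, ¬ S.Countable → Nonempty (B ↪o S)
  rat : Nonempty (ℚ ↪o B)

variable {B : Type} [LinearOrder B]

lemma Min.of_unc (h : Min B) {Y : Type} [LinearOrder Y] (hY : ¬ Countable Y) (hYB : Emb Y B) :
    Emb B Y := by
  obtain ⟨g, hg⟩ := hYB
  have h1 : ¬ (range g).Countable := by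
    intro hc
    apply hY
    have := hc.to_subtype
    exact (Set.rangeFactorization_injective.2 hg.injective).countable
  obtain ⟨e⟩ := h.min _ h1
  refine ⟨fun b => (e b).2.choose, fun a b hab => ?_⟩
  apply hg.lt_iff_lt.1
  rw [(e a).2.choose_spec, (e b).2.choose_spec]
  exact e.strictMono hab

lemma Min.of_count (h : Min B) (Y : Type) [LinearOrder Y] [Countable Y] : Emb Y B :=
  (emb_iff.2 (Order.embedding_from_countable_to_dense Y ℚ)).trans (emb_iff.2 h.rat)

lemma Min.dual (h : Min B) : Min Bᵒᵈ where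
  unc := h.unc
  min S hS := by
    obtain ⟨e⟩ := h.min S hS
    exact ⟨OrderEmbedding.ofStrictMono (fun b => ⟨(e b).1, (e b).2⟩)
      (fun a b hab => e.strictMono hab)⟩
  rat := by
    obtain ⟨e⟩ := h.rat
    exact ⟨OrderEmbedding.ofStrictMono (fun q => OrderDual.toDual (e (-q)))
      (fun a b hab => e.strictMono (neg_lt_neg hab))⟩

lemma Min.count_I (h : Min B) : {b : B | (Iio b).Countable}.Countable := by
  classical
  by_contra hI
  obtain ⟨e⟩ := h.min _ hI
  have h1 : ∀ b : B, (Iic b).Countable := by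
    intro b
    have h2 : (Iic (e b : B)).Countable := by
      rw [← Iio_insert]; exact Countable.insert _ (e b).2
    refine (h2.preimage_of_injOn (f := fun x => (e x : B))
      (fun x _ y _ hxy => e.injective (Subtype.ext hxy))).mono ?_
    intro x hx
    exact (e.monotone hx : e x ≤ e b)
  let r : B → B → Prop := WellOrderingRel
  have hr : WellFounded r := (WellOrderingRel.isWellOrder (α := B)).wf
  let S : Set B := {b | ∀ b', r b' b → b' < b}
  have hcof : ∀ b, ∃ s ∈ S, b ≤ s := by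
    intro b
    have hne : (Ici b).Nonempty := ⟨b, le_rfl⟩
    refine ⟨hr.min _ hne, fun b' hb' => ?_, hr.min_mem _ hne⟩
    by_contra hc
    exact hr.not_lt_min _ ((hr.min_mem _ hne).trans (not_lt.1 hc) : b' ∈ Ici b) hb'
  have hS : ¬ S.Countable := by
    intro hc
    have : (univ : Set B).Countable := by
      refine (hc.biUnion fun s _ => h1 s).mono fun b _ => ?_
      obtain ⟨s, hs, hbs⟩ := hcof b
      exact mem_biUnion hs hbs
    have h3 := h.unc
    exact not_countable (countable_univ_iff.1 this)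
  obtain ⟨e'⟩ := h.min _ hS
  obtain ⟨q⟩ := h.rat
  let u : ℕ → B := fun n => e' (q (-(n : ℚ)))
  have hu : ∀ n, u (n + 1) < u n := fun n =>
    e'.strictMono (q.strictMono (by push_cast; linarith))
  have hne : (range u).Nonempty := range_nonempty u
  obtain ⟨n, hn⟩ := hr.min_mem _ hne
  rcases trichotomous_of r (u n) (u (n + 1)) with h4 | h4 | h4
  · exact absurd ((e' (q (-((n + 1 : ℕ) : ℚ)))).2 _ h4) (hu n).not_gt
  · exact (hu n).ne' h4
  · exact hr.not_lt_min _ (mem_range_self (n + 1)) (hn ▸ h4)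

lemma Min.cut (h : Min B) : ∃ b : B, ¬ (Iio b).Countable ∧ ¬ (Ioi b).Countable := by
  by_contra hc
  push Not at hc
  have h1 := h.count_I
  have h2 : {b : B | (Ioi b).Countable}.Countable := h.dual.count_I
  have : (univ : Set B).Countable := by
    refine (h1.union h2).mono fun b _ => ?_
    by_cases h3 : (Iio b).Countable
    · exact Or.inl h3
    · exact Or.inr (hc b h3)
  have h3 := h.unc
  exact not_countable (countable_univ_iff.1 this)

lemma Min.omega (h : Min B) : ∃ F : ℕ → B → B, (∀ n, StrictMono (F n)) ∧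
    ∀ n m x y, n < m → F n x < F m y := by
  obtain ⟨b, h0, h1⟩ := h.cut
  obtain ⟨e0⟩ := h.min _ h0
  obtain ⟨e1⟩ := h.min _ h1
  let g : B → B := fun x => e1 x
  have hg : StrictMono g := fun x y hxy => e1.strictMono hxy
  refine ⟨fun n x => g^[n] (e0 x), fun n x y hxy => hg.iterate n (e0.strictMono hxy), ?_⟩
  intro n m x y hnm
  obtain ⟨k, rfl⟩ := Nat.exists_eq_add_of_lt hnm
  have : n + k + 1 = n + (k + 1) := by omega
  dsimp only
  rw [this, Function.iterate_add_apply]
  apply hg.iterate n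
  rw [Function.iterate_succ_apply']
  exact lt_trans (e0 x).2 (e1 _).2

lemma Min.glue (h : Min B) {X : Type} [LinearOrder X] (p : X → ℕ) (hp : Monotone p)
    (hx : ∀ n, Emb {x // p x = n} B) : Emb X B := by
  obtain ⟨F, hF, hF'⟩ := h.omega
  choose g hg using hx
  refine ⟨fun x => F (p x) (g (p x) ⟨x, rfl⟩), fun x y hxy => ?_⟩
  rcases (hp hxy.le).lt_or_eq with h1 | h1
  · exact hF' _ _ _ _ h1
  · have : ∀ n (hx : p x = n) (hy : p y = n), F n (g n ⟨x, hx⟩) < F n (g n ⟨y, hy⟩) :=
      fun n hx hy => hF n (hg n (show (⟨x, hx⟩ : {x // p x = n}) < ⟨y, hy⟩ from hxy))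
    have h2 := this (p x) rfl h1.symm
    have h3 : ∀ n (hn : p y = n), F n (g n ⟨y, hn⟩) = F (p y) (g (p y) ⟨y, rfl⟩) := by
      intro n hn; subst hn; rfl
    exact h2.trans_eq (h3 _ _)

variable {C : Type} [LinearOrder C]

/-- The alternating sum `B + C + B + C + ...`. -/
abbrev Alt (B C : Type) : Type := Lex (ℕ × Lex (B ⊕ C))

/-- Position in the alternating sum. -/
def pt0 (k : ℕ) (b : B) : Alt B C := toLex (k, toLex (Sum.inl b))
/-- Position in the alternating sum. -/
def pt1 (k : ℕ) (c : C) : Alt B C := toLex (k, toLex (Sum.inr c))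

/-- The level of a point. -/
def lev (z : Alt B C) : ℕ :=
  2 * (ofLex z).1 + Sum.elim (fun _ => 0) (fun _ => 1) (ofLex (ofLex z).2)

omit [LinearOrder B] [LinearOrder C] in
lemma alt_cases (z : Alt B C) : (∃ k b, z = pt0 k b) ∨ ∃ k c, z = pt1 k c := by
  rcases hz : ofLex (ofLex z).2 with b | c
  · exact Or.inl ⟨(ofLex z).1, b, by rw [pt0, ← hz]; rfl⟩
  · exact Or.inr ⟨(ofLex z).1, c, by rw [pt1, ← hz]; rfl⟩

omit [LinearOrder B] [LinearOrder C] in
lemma lev0 (k : ℕ) (b : B) : lev (pt0 k b : Alt B C) = 2 * k := rfl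
omit [LinearOrder B] [LinearOrder C] in
lemma lev1 (k : ℕ) (c : C) : lev (pt1 k c : Alt B C) = 2 * k + 1 := rfl

lemma lt00 (k : ℕ) (a b : B) : (pt0 k a : Alt B C) < pt0 k b ↔ a < b := by
  simp [pt0, Prod.Lex.toLex_lt_toLex]
lemma lt11 (k : ℕ) (a b : C) : (pt1 k a : Alt B C) < pt1 k b ↔ a < b := by
  simp [pt1, Prod.Lex.toLex_lt_toLex]

lemma lt_of_lev {x y : Alt B C} (h : lev x < lev y) : x < y := by
  rcases alt_cases x with ⟨k, a, rfl⟩ | ⟨k, a, rfl⟩ <;>
  rcases alt_cases y with ⟨l, b, rfl⟩ | ⟨l, b, rfl⟩ <;>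
  simp only [lev0, lev1] at h <;>
  simp only [pt0, pt1, Prod.Lex.toLex_lt_toLex]
  · left; omega
  · rcases (show k ≤ l by omega).lt_or_eq with h1 | h1
    · exact Or.inl h1
    · exact Or.inr ⟨h1, Sum.Lex.inl_lt_inr _ _⟩
  · left; omega
  · left; omega

lemma lev_mono : Monotone (lev : Alt B C → ℕ) := fun _ _ h =>
  not_lt.1 fun h' => absurd (lt_of_lev h') (not_lt.2 h)

lemma emb0 {Y : Type} [LinearOrder Y] (g : Y → Alt B C) (hg : StrictMono g) (k : ℕ)
    (hk : ∀ y, lev (g y) = 2 * k) : Emb Y B := by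
  have : ∀ y, ∃ b, g y = pt0 k b := by
    intro y
    have := hk y
    rcases alt_cases (g y) with ⟨l, b, h⟩ | ⟨l, b, h⟩
    · rw [h, lev0] at this
      exact ⟨b, by rw [h, show l = k by omega]⟩
    · rw [h, lev1] at this; omega
  choose f hf using this
  exact ⟨f, fun a b hab => (lt00 (C := C) k _ _).1 (by rw [← hf, ← hf]; exact hg hab)⟩

lemma emb1 {Y : Type} [LinearOrder Y] (g : Y → Alt B C) (hg : StrictMono g) (k : ℕ)
    (hk : ∀ y, lev (g y) = 2 * k + 1) : Emb Y C := by
  have : ∀ y, ∃ b, g y = pt1 k b := by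
    intro y
    have := hk y
    rcases alt_cases (g y) with ⟨l, b, h⟩ | ⟨l, b, h⟩
    · rw [h, lev0] at this; omega
    · rw [h, lev1] at this
      exact ⟨b, by rw [h, show l = k by omega]⟩
  choose f hf using this
  exact ⟨f, fun a b hab => (lt11 (B := B) k _ _).1 (by rw [← hf, ← hf]; exact hg hab)⟩

lemma unbdd (hBC : ¬ Emb B C) (hCB : ¬ Emb C B) (f : Alt B C → Alt B C) (hf : StrictMono f)
    (j : ℕ) : ∃ x, j ≤ lev (f x) := by
  induction j with
  | zero =>
    have : Nonempty B := by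
      by_contra h
      rw [not_nonempty_iff] at h
      exact hBC ⟨fun b => h.elim b, fun b => h.elim b⟩
    exact ⟨pt0 0 this.some, Nat.zero_le _⟩
  | succ j ih =>
    obtain ⟨x, hx⟩ := ih
    by_contra hc
    push Not at hc
    have h1 : ∀ y, lev x < lev y → lev (f y) = j := fun y hy =>
      le_antisymm (Nat.lt_succ_iff.1 (hc y)) (hx.trans (lev_mono (hf (lt_of_lev hy)).le))
    rcases Nat.even_or_odd' j with ⟨k, rfl | rfl⟩
    · exact hCB (emb0 (fun c => f (pt1 (lev x) c))
        (fun a b hab => hf ((lt11 _ _ _).2 hab)) k fun c => h1 _ (by rw [lev1]; omega))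
    · exact hBC (emb1 (fun b => f (pt0 (lev x + 1) b))
        (fun a b hab => hf ((lt00 _ _ _).2 hab)) k fun c => h1 _ (by rw [lev0]; omega))

lemma full (hB : Min B) (hC : Min C) {Y : Type} [LinearOrder Y] (f : Y → Alt B C)
    (hf : StrictMono f) (h0 : ∀ N, ∃ k, N ≤ k ∧ ¬ Countable {y // lev (f y) = 2 * k})
    (h1 : ∀ N, ∃ k, N ≤ k ∧ ¬ Countable {y // lev (f y) = 2 * k + 1}) : Emb (Alt B C) Y := by
  choose a ha ha' using h0
  choose c hc hc' using h1
  let s : ℕ → ℕ := fun n => Nat.rec 0 (fun _ m => c (a m) + 1) n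
  have hs : ∀ n, s (n + 1) = c (a (s n)) + 1 := fun _ => rfl
  have hsm : ∀ n m, n < m → c (a (s n)) < a (s m) := by
    intro n m hnm
    have hmono : Monotone s := monotone_nat_of_le_succ fun n => by
      rw [hs]; have := ha (s n); have := hc (a (s n)); omega
    have h2 := hmono (Nat.succ_le_of_lt hnm)
    rw [hs] at h2
    have := ha (s m)
    omega
  have e0 : ∀ n, Emb B {y // lev (f y) = 2 * a (s n)} := fun n =>
    hB.of_unc (ha' _) (emb0 (fun y => f y.1) (fun _ _ h => hf h) _ fun y => y.2)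
  have e1 : ∀ n, Emb C {y // lev (f y) = 2 * c (a (s n)) + 1} := fun n =>
    hC.of_unc (hc' _) (emb1 (fun y => f y.1) (fun _ _ h => hf h) _ fun y => y.2)
  choose u hu using e0
  choose v hv using e1
  let G : Alt B C → Y := fun z => Sum.elim (fun b => (u (ofLex z).1 b).1)
    (fun b => (v (ofLex z).1 b).1) (ofLex (ofLex z).2)
  have G0 : ∀ k b, G (pt0 k b) = (u k b).1 := fun _ _ => rfl
  have G1 : ∀ k b, G (pt1 k b) = (v k b).1 := fun _ _ => rfl
  refine ⟨G, fun x y hxy => ?_⟩
  have hl := lev_mono hxy.le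
  rcases alt_cases x with ⟨k, p, rfl⟩ | ⟨k, p, rfl⟩ <;>
  rcases alt_cases y with ⟨l, q, rfl⟩ | ⟨l, q, rfl⟩ <;>
  simp only [lev0, lev1] at hl <;> simp only [G0, G1]
  · rcases (show k ≤ l by omega).lt_or_eq with h | rfl
    · apply hf.lt_iff_lt.1
      apply lt_of_lev
      rw [(u k p).2, (u l q).2]
      have := hsm k l h; have := hc (a (s k)); omega
    · exact hu k ((lt00 _ _ _).1 hxy)
  · apply hf.lt_iff_lt.1
    apply lt_of_lev
    rw [(u k p).2, (v l q).2]
    rcases (show k ≤ l by omega).lt_or_eq with h | rfl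
    · have := hsm k l h; have := hc (a (s k)); have := hc (a (s l)); omega
    · have := hc (a (s k)); omega
  · apply hf.lt_iff_lt.1
    apply lt_of_lev
    rw [(v k p).2, (u l q).2]
    have := hsm k l (by omega); omega
  · rcases (show k ≤ l by omega).lt_or_eq with h | rfl
    · apply hf.lt_iff_lt.1
      apply lt_of_lev
      rw [(v k p).2, (v l q).2]
      have := hsm k l h; have := hc (a (s l)); omega
    · exact hv k ((lt11 _ _ _).1 hxy)

lemma tail (hB : Min B) (hC : Min C) {Y : Type} [LinearOrder Y] (f : Y → Alt B C)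
    (hf : StrictMono f) (hn : ¬ Emb (Alt B C) Y) :
    ∃ N, ∃ g : Y → Alt B C, StrictMono g ∧ ∀ y, lev (g y) ≤ N := by
  classical
  have main : ∀ N, (∃ g : {y // 2 * N ≤ lev (f y)} → Alt B C, StrictMono g ∧
      ∀ y, 2 * N ≤ lev (g y) ∧ lev (g y) ≤ 2 * N + 1) →
      ∃ N, ∃ g : Y → Alt B C, StrictMono g ∧ ∀ y, lev (g y) ≤ N := by
    rintro N ⟨g, hg, hl⟩
    refine ⟨2 * N + 1, fun y => if h : 2 * N ≤ lev (f y) then g ⟨y, h⟩ else f y, ?_, ?_⟩
    · intro x y hxy
      have := lev_mono (hf hxy).le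
      dsimp only
      split_ifs with h1 h2 h2
      · exact hg (show (⟨x, h1⟩ : {y // 2 * N ≤ lev (f y)}) < ⟨y, h2⟩ from hxy)
      · omega
      · apply lt_of_lev; have := (hl ⟨y, h2⟩).1; omega
      · exact hf hxy
    · intro y
      dsimp only
      split_ifs with h1
      · exact (hl _).2
      · omega
  by_cases h0 : ∀ N, ∃ k, N ≤ k ∧ ¬ Countable {y // lev (f y) = 2 * k}
  · by_cases h1 : ∀ N, ∃ k, N ≤ k ∧ ¬ Countable {y // lev (f y) = 2 * k + 1}
    · exact absurd (full hB hC f hf h0 h1) hn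
    · push Not at h1
      obtain ⟨N, hN⟩ := h1
      obtain ⟨g, hg⟩ : Emb {y // 2 * N ≤ lev (f y)} B := by
        refine hB.glue (fun y => lev (f y.1)) (fun x y h => lev_mono (hf.monotone h)) fun n => ?_
        rcases Nat.even_or_odd' n with ⟨k, rfl | rfl⟩
        · exact emb0 (fun y => f y.1.1) (fun _ _ h => hf h) k fun y => y.2
        · by_cases hk : N ≤ k
          · have := hN k hk
            exact Emb.trans (Y := {y // lev (f y) = 2 * k + 1})
              ⟨fun y => ⟨y.1.1, y.2⟩, fun _ _ h => h⟩ (hB.of_count _)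
          · exact ⟨fun y => absurd y.1.2 (by have := y.2; omega),
              fun y => absurd y.1.2 (by have := y.2; omega)⟩
      exact main N ⟨fun y => pt0 N (g y), fun a b h => (lt00 _ _ _).2 (hg h),
        fun y => by rw [lev0]; omega⟩
  · push Not at h0
    obtain ⟨N, hN⟩ := h0
    obtain ⟨g, hg⟩ : Emb {y // 2 * N ≤ lev (f y)} C := by
      refine hC.glue (fun y => lev (f y.1)) (fun x y h => lev_mono (hf.monotone h)) fun n => ?_
      rcases Nat.even_or_odd' n with ⟨k, rfl | rfl⟩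
      · by_cases hk : N ≤ k
        · have := hN k hk
          exact Emb.trans (Y := {y // lev (f y) = 2 * k})
            ⟨fun y => ⟨y.1.1, y.2⟩, fun _ _ h => h⟩ (hC.of_count _)
        · exact ⟨fun y => absurd y.1.2 (by have := y.2; omega),
            fun y => absurd y.1.2 (by have := y.2; omega)⟩
      · exact emb1 (fun y => f y.1.1) (fun _ _ h => hf h) k fun y => y.2
    exact main N ⟨fun y => pt1 N (g y), fun a b h => (lt11 _ _ _).2 (hg h),
      fun y => by rw [lev1]; omega⟩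

end Pool.Agent.H6Crit
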