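import Mathlib

set_option autoImplicit false

open Set Cardinal

namespace Pool.Agent.H6Delta

variable {L : Type} [LinearOrder L] [WellFoundedLT L]

/-- The counting argument of Devlin and Shelah. -/
lemma DS {A : Type} {μ : Cardinal.{0}} (hμ : ℵ₀ ≤ μ) (hA : #A ≤ 2 ^ μ) (m : L)
    (hm : #(Iio m) ≤ μ) (D : (L → Bool) → L → A)
    (H : ∀ z z' δ, m ≤ δ → (∀ β < δ, D z β = D z' β) → z δ = z' δ) : (2 : Cardinal.{0}) ^ #L ≤ 2 ^ μ := by
  have h0 : #μ.out = μ := mk_out μ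
  have h1 : #(μ.out → A) ≤ #(μ.out → Bool) := by
    simp only [mk_arrow, lift_id, h0, mk_bool]
    calc #A ^ μ ≤ (2 ^ μ) ^ μ := power_le_power_right hA
      _ = 2 ^ μ := by rw [← power_mul, mul_eq_self hμ]
  obtain ⟨e⟩ := h1
  let F : (L → μ.out → Bool) → L → μ.out → Bool :=
    fun g β => e (fun ξ => D (fun δ => g δ ξ) β)
  have hF : ∀ g g' δ, m ≤ δ → (∀ β < δ, F g β = F g' β) → g δ = g' δ := by
    intro g g' δ hδ h
    funext ξ
    exact H (fun δ => g δ ξ) (fun δ => g' δ ξ) δ hδ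
      (fun β hβ => congrFun (e.injective (h β hβ)) ξ)
  let G : (L → μ.out → Bool) → ℕ × Iio m → μ.out → Bool := fun g p => F^[p.1] g p.2
  have hG : Function.Injective G := by
    intro g g' h
    have key : ∀ δ, ∀ n, F^[n] g δ = F^[n] g' δ := by
      intro δ
      induction δ using WellFoundedLT.induction with
      | ind δ ih =>
        intro n
        rcases lt_or_ge δ m with hδ | hδ
        · exact congrFun h (n, ⟨δ, hδ⟩)
        · refine hF _ _ δ hδ (fun β hβ => ?_)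
          have := ih β hβ (n + 1)
          rwa [Function.iterate_succ_apply', Function.iterate_succ_apply'] at this
    exact funext (fun δ => key δ 0)
  have h2 := mk_le_of_injective hG
  simp only [mk_arrow, lift_id, h0, mk_bool, mk_prod, mk_nat] at h2
  calc 2 ^ #L ≤ (2 ^ μ) ^ #L := power_le_power_right ((cantor μ).le.trans' (by
        exact (natCast_lt_aleph0 (n := 2)).le.trans hμ))
    _ ≤ (2 ^ μ) ^ (ℵ₀ * #(Iio m)) := h2
    _ = 2 ^ (μ * (ℵ₀ * #(Iio m))) := by rw [← power_mul]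
    _ ≤ 2 ^ μ := by
        refine power_le_power_left two_ne_zero ?_
        calc μ * (ℵ₀ * #(Iio m)) ≤ μ * (μ * μ) := by gcongr
          _ = μ := by rw [mul_eq_self hμ, mul_eq_self hμ]

lemma card_le {χ : Cardinal.{0}} (h : ∀ a : L, #(Iio a) < χ) : #L ≤ χ := by
  by_contra hlt
  have h1 : χ.ord < Ordinal.type (α := L) (· < ·) :=
    (ord_lt_ord.2 (not_le.1 hlt)).trans_le (ord_le_type _)
  have h2 := Ordinal.card_typein (r := (· < · : L → L → Prop)) (Ordinal.enum _ ⟨_, h1⟩)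
  rw [Ordinal.typein_enum, card_ord] at h2
  exact (h _).ne h2.symm

lemma core {μ : Cardinal.{0}} (hμ : ℵ₀ ≤ μ) (hL : ∀ a : L, (2 : Cardinal.{0}) ^ #(Iio a) ≤ 2 ^ μ)
    (hL2 : (2 : Cardinal.{0}) ^ μ < 2 ^ #L) (m : L) (hm : #(Iio m) ≤ μ) (c : Sym2 (L → Bool) → L)
    (H : ∀ x y δ, (∀ β < δ, x β = y β) → x δ ≠ y δ → m ≤ δ → c s(x, y) < δ) :
    ∃ (Y : Set (L → Bool)) (i : L), μ < #Y ∧ ∀ x ∈ Y, ∀ y ∈ Y, x ≠ y → c s(x, y) = i := by
  classical
  by_contra hcon
  push Not at hcon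
  let ep : Set (L → Bool) → L → Bool := fun S => Classical.epsilon (fun w => w ∈ S)
  have hep : ∀ S : Set (L → Bool), S.Nonempty → ep S ∈ S := fun S h => Classical.epsilon_spec h
  let G : (L → Bool) → ∀ δ : L, (∀ β, β < δ → Set (L → Bool)) → Set (L → Bool) :=
    fun z δ R => {w | (∀ β < δ, w β = z β) ∧ w δ ≠ z δ ∧ ∀ β (h : β < δ), (R β h).Nonempty →
      c s(ep (R β h), w) = c s(ep (R β h), z)}
  let A : (L → Bool) → L → Set (L → Bool) := fun z => WellFoundedLT.fix (G z)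
  have hA : ∀ z δ w, w ∈ A z δ ↔ (∀ β < δ, w β = z β) ∧ w δ ≠ z δ ∧ ∀ β < δ, (A z β).Nonempty →
      c s(ep (A z β), w) = c s(ep (A z β), z) := by
    intro z δ w
    have : A z δ = G z δ (fun β _ => A z β) := WellFoundedLT.fix_eq (G z) δ
    rw [this]; rfl
  let J : (L → Bool) → L → L := fun z β => c s(ep (A z β), z)
  have hbd : ∀ z i, ∃ γ, ∀ δ, (A z δ).Nonempty → J z δ = i → δ < γ := by
    intro z i
    by_contra hub
    push Not at hub
    let U : Set L := {δ | (A z δ).Nonempty ∧ J z δ = i}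
    have hne : ∀ β ∈ U, ∀ δ ∈ U, β < δ → ep (A z β) ≠ ep (A z δ) := by
      intro β hβ δ hδ h he
      have h1 := ((hA z β _).1 (hep _ hβ.1)).2.1
      have h2 := ((hA z δ _).1 (hep _ hδ.1)).1 β h
      exact h1 (he ▸ h2)
    have hinj : InjOn (fun δ => ep (A z δ)) U := by
      intro β hβ δ hδ he
      rcases lt_trichotomy β δ with h | h | h
      · exact (hne β hβ δ hδ h he).elim
      · exact h
      · exact (hne δ hδ β hβ h he.symm).elim
    have hU : #U ≤ μ := by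
      rw [← mk_image_eq_of_injOn _ _ hinj]
      by_contra hlt
      obtain ⟨_, ⟨β, hβ, rfl⟩, _, ⟨δ, hδ, rfl⟩, hne', hc⟩ := hcon _ i (not_le.1 hlt)
      rcases lt_trichotomy β δ with h | h | h
      · exact hc ((((hA z δ _).1 (hep _ hδ.1)).2.2 β h hβ.1).trans hβ.2)
      · exact hne' (h ▸ rfl)
      · rw [Sym2.eq_swap] at hc
        exact hc ((((hA z β _).1 (hep _ hβ.1)).2.2 δ h hδ.1).trans hδ.2)
    let T : (L → Bool) → ∀ u : U, Bool × (Iio u.1 → Bool) := fun x u => (x u, fun β => x β)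
    have hT : Function.Injective T := by
      intro x y h
      funext a
      obtain ⟨δ, h1, h2, h3⟩ := hub a
      have h4 := congrFun h ⟨δ, h1, h2⟩
      rcases h3.eq_or_lt with rfl | h5
      · exact congrArg Prod.fst h4
      · exact congrFun (congrArg Prod.snd h4) ⟨a, h5⟩
    have h1 := mk_le_of_injective hT
    rw [mk_pi, mk_pi] at h1
    simp only [prod_const, lift_id, mk_bool] at h1
    have h2 : prod (fun u : U => #(Bool × (Iio u.1 → Bool))) ≤ prod (fun _ : U => 2 ^ μ) := by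
      refine prod_le_prod _ _ (fun u => ?_)
      simp only [mk_prod, mk_arrow, lift_id, mk_bool]
      calc 2 * 2 ^ #(Iio u.1) ≤ 2 ^ μ * 2 ^ μ :=
            mul_le_mul' ((cantor μ).le.trans' ((natCast_lt_aleph0 (n := 2)).le.trans hμ)) (hL _)
        _ = 2 ^ μ := mul_eq_self (hμ.trans (cantor μ).le)
    rw [prod_const', ← power_mul] at h2
    refine absurd (h1.trans (h2.trans (power_le_power_left two_ne_zero ?_))) (not_le.2 hL2)
    calc μ * #U ≤ μ * μ := by gcongr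
      _ = μ := mul_eq_self hμ
  choose γ hγ using hbd
  have hχ : ℵ₀ ≤ 2 ^ μ := hμ.trans (cantor μ).le
  have hLc : #L ≤ 2 ^ μ := card_le (fun a => (cantor _).trans_le (hL a))
  let ex : (Σ a : L, Iio a → Bool) → L × (L → Bool) :=
    fun p => (p.1, fun b => if h : b < p.1 then p.2 ⟨b, h⟩ else false)
  have hex : #(range ex) ≤ 2 ^ μ := by
    refine mk_range_le.trans ?_
    rw [mk_sigma]
    refine (sum_le_sum _ (fun _ => 2 ^ μ) (fun a => by simpa using hL a)).trans ?_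
    rw [sum_const']
    exact (mul_le_mul_left hLc _).trans (mul_eq_self hχ).le
  refine absurd (DS (A := Bool × L × range ex) hμ ?_ m hm
    (fun z β => (z β, J z β, ⟨ex ⟨γ z β, fun b => z b⟩, mem_range_self _⟩)) ?_) (not_le.2 hL2)
  · simp only [mk_prod, lift_id, mk_bool]
    calc 2 * (#L * #(range ex)) ≤ 2 ^ μ * (2 ^ μ * 2 ^ μ) :=
          mul_le_mul' ((natCast_lt_aleph0 (n := 2)).le.trans hχ) (mul_le_mul' hLc hex)
      _ = 2 ^ μ := by rw [mul_eq_self hχ, mul_eq_self hχ]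
  intro z z' δ hδ h
  have h1 : ∀ β < δ, z β = z' β := fun β hβ => congrArg Prod.fst (h β hβ)
  have h2 : ∀ β < δ, J z β = J z' β := fun β hβ => congrArg (fun p => p.2.1) (h β hβ)
  have h3 : ∀ β, β < δ → A z β = A z' β := by
    intro β
    induction β using WellFoundedLT.induction with
    | ind β ih =>
      intro hβ
      ext w
      rw [hA, hA, h1 β hβ]
      refine and_congr (forall₂_congr (fun a ha => by rw [h1 a (ha.trans hβ)]))
        (and_congr Iff.rfl (forall₂_congr (fun a ha => ?_)))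
      have h4 := h2 a (ha.trans hβ)
      simp only [J] at h4
      rw [h4, ih a ha (ha.trans hβ)]
  by_contra hne
  have h4 : z' ∈ A z δ := by
    refine (hA z δ z').2 ⟨fun β hβ => (h1 β hβ).symm, fun h => hne h.symm, fun β hβ _ => ?_⟩
    have h5 := h2 β hβ
    simp only [J] at h5
    rw [h5, h3 β hβ]
  have h5 := (hA z δ _).1 (hep _ ⟨z', h4⟩)
  have h6 : J z δ < δ := H _ _ δ h5.1 h5.2.1 hδ
  have h7 := hγ z (J z δ) δ ⟨z', h4⟩ rfl
  have h8 : ex ⟨γ z (J z δ), fun b => z b⟩ = ex ⟨γ z' (J z δ), fun b => z' b⟩ :=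
    congrArg (fun p => p.2.2.1) (h _ h6)
  have h9 : γ z (J z δ) = γ z' (J z δ) := congrArg Prod.fst h8
  have h10 := congrFun (congrArg Prod.snd h8) δ
  simp only [ex, h7, ← h9, dite_true] at h10
  exact hne h10

/-- Large monochromatic sets for almost `Δ`-regressive colourings. -/
lemma main {μ : Cardinal.{0}} (hμ : ℵ₀ ≤ μ) (hL2 : (2 : Cardinal.{0}) ^ μ < 2 ^ #L) (m : L)
    (hm : #(Iio m) ≤ μ) (c : Sym2 (L → Bool) → L)
    (H : ∀ x y δ, (∀ β < δ, x β = y β) → x δ ≠ y δ → c s(x, y) < max δ m) :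
    ∃ (Y : Set (L → Bool)) (i : L), μ < #Y ∧ ∀ x ∈ Y, ∀ y ∈ Y, x ≠ y → c s(x, y) = i := by
  classical
  let S : Set L := {a | (2 : Cardinal.{0}) ^ #(Iio a) ≤ 2 ^ μ}
  have hS : ∀ a ∈ S, ∀ b, b < a → b ∈ S := fun a ha b hb =>
    (power_le_power_left two_ne_zero (mk_le_mk_of_subset (Iio_subset_Iio hb.le))).trans ha
  have hmS : m ∈ S := power_le_power_left two_ne_zero hm
  have hI : ∀ a : S, #(Iio a) ≤ #(Iio a.1) := fun a =>
    mk_le_of_injective (f := fun b : Iio a => (⟨b.1.1, b.2⟩ : Iio a.1))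
      (fun b b' h => Subtype.ext (Subtype.ext (by simpa using h)))
  have hS2 : (2 : Cardinal.{0}) ^ μ < 2 ^ #S := by
    rcases (Sᶜ).eq_empty_or_nonempty with h | h
    · rw [compl_empty_iff.1 h, mk_univ]; exact hL2
    · obtain ⟨b, hb, hmin⟩ := wellFounded_lt.has_min _ h
      have hb' : ¬ (2 : Cardinal.{0}) ^ #(Iio b) ≤ 2 ^ μ := hb
      refine (not_le.1 hb').trans_le (power_le_power_left two_ne_zero (mk_le_mk_of_subset ?_))
      intro a ha
      by_contra h'
      exact hmin a h' ha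
  let ex : (S → Bool) → L → Bool := fun x a => if h : a ∈ S then x ⟨a, h⟩ else false
  have hex : ∀ x (a : S), ex x a = x a := fun x a => by simp [ex]
  have hinj : Function.Injective ex := fun x y h => funext (fun a => by rw [← hex x, h, hex])
  have H' : ∀ (x y : S → Bool) (δ : S), (∀ β < δ, x β = y β) → x δ ≠ y δ →
      c s(ex x, ex y) < max δ.1 m := by
    intro x y δ h1 h2
    refine H _ _ δ (fun β hβ => ?_) (by rwa [hex, hex])
    exact (hex x ⟨β, hS _ δ.2 β hβ⟩).trans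
      ((h1 ⟨β, hS _ δ.2 β hβ⟩ hβ).trans (hex y ⟨β, hS _ δ.2 β hβ⟩).symm)
  have hin : ∀ x y : S → Bool, x ≠ y → c s(ex x, ex y) ∈ S := by
    intro x y hxy
    obtain ⟨δ, h1, h2⟩ := wellFounded_lt.has_min {a | x a ≠ y a} (Function.ne_iff.1 hxy)
    have h3 := H' x y δ (fun β hβ => not_not.1 (fun h => h2 β h hβ)) h1
    rcases lt_max_iff.1 h3 with h | h
    · exact hS _ δ.2 _ h
    · exact hS _ hmS _ h
  obtain ⟨Y, i, h1, h2⟩ := core (L := S) hμ
    (fun a => (power_le_power_left two_ne_zero (hI a)).trans a.2) hS2 ⟨m, hmS⟩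
    ((hI _).trans hm) (fun p => if h : c (p.map ex) ∈ S then ⟨c (p.map ex), h⟩ else ⟨m, hmS⟩)
    (fun x y δ h1 h2 h3 => by
      have h4 := hin x y (fun h => h2 (h ▸ rfl))
      have h5 := H' x y δ h1 h2
      rw [max_eq_left (show m ≤ δ.1 from h3)] at h5
      simp only [Sym2.map_mk, h4, dite_true]
      exact h5)
  refine ⟨ex '' Y, i, by rwa [mk_image_eq hinj], ?_⟩
  rintro _ ⟨x, hx, rfl⟩ _ ⟨y, hy, rfl⟩ hne
  have h3 : x ≠ y := fun h => hne (h ▸ rfl)
  have h4 := h2 x hx y hy h3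
  simp only [Sym2.map_mk, hin x y h3, dite_true] at h4
  exact congrArg Subtype.val h4

/-- The form used for initial ordinals. -/
lemma main' (κ : Cardinal.{0}) (hκ : ℵ₀ < κ) (h2 : ∀ μ < κ, (2 : Cardinal.{0}) ^ μ < 2 ^ κ)
    (c : Sym2 (κ.ord.ToType → Bool) → κ.ord.ToType) (m : κ.ord.ToType)
    (H : ∀ x y δ, (∀ β < δ, x β = y β) → x δ ≠ y δ → c s(x, y) < max δ m) :
    ∃ (Y : Set (κ.ord.ToType → Bool)) (i : κ.ord.ToType), ℵ₀ < #Y ∧
      ∀ x ∈ Y, ∀ y ∈ Y, x ≠ y → c s(x, y) = i := by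
  have h3 : #(Iio m) < κ := by simpa using mk_Iio_lt m
  obtain ⟨Y, i, h4, h5⟩ := main (μ := max ℵ₀ #(Iio m)) (le_max_left _ _)
    (by rw [mk_ord_toType]; exact h2 _ (max_lt hκ h3)) m (le_max_right _ _) c H
  exact ⟨Y, i, (le_max_left _ _).trans_lt h4, h5⟩

end Pool.Agent.H6Delta
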