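import Mathlib

set_option autoImplicit false

open MeasureTheory Set Filter Topology
open scoped ENNReal NNReal

namespace Pool.Agent.H6Thin

/-- Cantor space. -/
abbrev C : Type := ℕ → Bool

/-- Cylinders. -/
def cy (n : ℕ) (x : C) : Set C := {y | ∀ i < n, y i = x i}

/-- Truncation. -/
def tr (n : ℕ) (x : C) : C := fun i => if i < n then x i else false

open Classical in
/-- Representatives of the cylinders of level `n`. -/
noncomputable def nd (n : ℕ) : Finset C :=
  Finset.univ.image (fun s : Fin n → Bool => fun i => if h : i < n then s ⟨i, h⟩ else false)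

lemma tr_mem (n : ℕ) (x : C) : tr n x ∈ nd n := by
  classical
  refine Finset.mem_image.2 ⟨fun i => x i, Finset.mem_univ _, ?_⟩
  funext i; by_cases h : i < n <;> simp [tr, h]

lemma nd_tr {n : ℕ} {x : C} (h : x ∈ nd n) : tr n x = x := by
  classical
  obtain ⟨s, _, rfl⟩ := Finset.mem_image.1 h
  funext i; by_cases h : i < n <;> simp [tr, h]

lemma mem_cy {n : ℕ} {x y : C} : y ∈ cy n x ↔ tr n y = tr n x := by
  constructor
  · intro h; funext i; by_cases hi : i < n
    · simp [tr, hi, h i hi]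
    · simp [tr, hi]
  · intro h i hi
    simpa [tr, hi] using congrFun h i

lemma cy_tr (n : ℕ) (x : C) : cy n (tr n x) = cy n x := by
  ext y; rw [mem_cy, mem_cy, nd_tr (tr_mem n x)]

lemma card_nd (n : ℕ) : (nd n).card ≤ 2 ^ n := by
  classical
  exact Finset.card_image_le.trans (by simp)

lemma cy_eq (n : ℕ) (y : C) :
    cy n y = Set.pi (↑(Finset.range n)) (fun i => ({y i} : Set Bool)) := by
  ext x; simp [cy]

lemma cy_clopen (n : ℕ) (y : C) : IsClopen (cy n y) := by
  rw [cy_eq]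
  exact ⟨isClosed_set_pi (fun _ _ => isClosed_discrete _),
    isOpen_set_pi (Finset.finite_toSet _) (fun _ _ => isOpen_discrete _)⟩

lemma cy_meas (n : ℕ) (y : C) : MeasurableSet (cy n y) := (cy_clopen n y).isOpen.measurableSet

lemma cy_anti {m n : ℕ} (h : m ≤ n) (x : C) : cy n x ⊆ cy m x :=
  fun _ hy i hi => hy i (hi.trans_le h)

lemma cy_of_mem {n : ℕ} {x y : C} (h : y ∈ cy n x) : cy n y = cy n x := by
  ext z; rw [mem_cy, mem_cy, mem_cy.1 h]

lemma self_cy (n : ℕ) (x : C) : x ∈ cy n x := fun _ _ => rfl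

lemma sum_fib (ν : Measure C) [IsFiniteMeasure ν] {f : C → C} (hf : Measurable f) (n : ℕ)
    {A : Set C} (hA : MeasurableSet A) :
    ∑ y ∈ nd n, ν.real (A ∩ f ⁻¹' cy n y) = ν.real A := by
  rw [← measureReal_biUnion_finset]
  · congr 1
    ext x
    simp only [mem_iUnion, mem_inter_iff, mem_preimage]
    exact ⟨fun ⟨_, _, h, _⟩ => h, fun h => ⟨_, tr_mem n (f x), h, by rw [cy_tr]; exact self_cy _ _⟩⟩
  · intro y hy z hz hyz
    refine Set.disjoint_left.2 (fun x h1 h2 => hyz ?_)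
    rw [← nd_tr hy, ← nd_tr hz, ← mem_cy.1 h1.2, ← mem_cy.1 h2.2]
  · exact fun y _ => hA.inter (hf (cy_meas _ _))

lemma sum_nd (ν : Measure C) [IsFiniteMeasure ν] (n : ℕ) {A : Set C} (hA : MeasurableSet A) :
    ∑ y ∈ nd n, ν.real (A ∩ cy n y) = ν.real A :=
  sum_fib ν measurable_id n hA

lemma real_sum {ι : Type} (S : Finset ι) (ν : ι → Measure C) (h : ∀ i, IsFiniteMeasure (ν i))
    (A : Set C) : (∑ i ∈ S, ν i).real A = ∑ i ∈ S, (ν i).real A := by
  simp only [Measure.real, Measure.coe_finset_sum, Finset.sum_apply]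
  exact ENNReal.toReal_sum (fun i _ => measure_ne_top _ _)

/-- The empirical method of Maurey. -/
lemma maurey {Y J : Type} (H : Finset Y) (I : Finset J) (q : Y → ℝ) (hq : ∀ y ∈ H, 0 < q y)
    (hq1 : ∑ y ∈ H, q y = 1) (w : J → ℝ) (hw : ∀ j ∈ I, 0 ≤ w j) (v : Y → J → ℝ) (N : ℕ) :
    ∃ y : ℕ → Y, (∀ i, y i ∈ H) ∧
      ∑ j ∈ I, w j * (∑ i ∈ Finset.range N, v (y i) j - N * ∑ z ∈ H, q z * v z j) ^ 2 ≤
        N * ∑ j ∈ I, w j * ∑ z ∈ H, q z * v z j ^ 2 := by
  have hne : H.Nonempty := by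
    rcases H.eq_empty_or_nonempty with h | h
    · rw [h] at hq1; simp at hq1
    · exact h
  induction N with
  | zero =>
    obtain ⟨y0, h0⟩ := hne
    exact ⟨fun _ => y0, fun _ => h0, by simp⟩
  | succ n ih =>
    obtain ⟨y, hy, hb⟩ := ih
    set b : J → ℝ := fun j => ∑ z ∈ H, q z * v z j with hbdef
    set a : J → ℝ := fun j => ∑ i ∈ Finset.range n, v (y i) j - n * b j with hadef
    set F : Y → ℝ := fun z => ∑ j ∈ I, w j * (a j + v z j - b j) ^ 2 with hF
    set T : ℝ := ∑ j ∈ I, w j * a j ^ 2 + ∑ j ∈ I, w j * ∑ z ∈ H, q z * v z j ^ 2 with hT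
    have h1 : ∑ z ∈ H, q z * F z ≤ ∑ z ∈ H, q z * T := by
      rw [← Finset.sum_mul, hq1, one_mul, hT, ← Finset.sum_add_distrib]
      simp only [hF, Finset.mul_sum]
      rw [Finset.sum_comm]
      refine Finset.sum_le_sum (fun j hj => ?_)
      have h2 : ∑ z ∈ H, q z * (w j * (a j + v z j - b j) ^ 2) =
          w j * ((a j - b j) ^ 2 * ∑ z ∈ H, q z + 2 * (a j - b j) * ∑ z ∈ H, q z * v z j +
            ∑ z ∈ H, q z * v z j ^ 2) := by
        simp only [Finset.mul_sum, ← Finset.sum_add_distrib]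
        exact Finset.sum_congr rfl (fun z _ => by ring)
      rw [h2, hq1, ← Finset.mul_sum]
      have h3 : ∑ z ∈ H, q z * v z j = b j := rfl
      rw [h3]
      have := mul_nonneg (hw j hj) (sq_nonneg (b j))
      nlinarith
    obtain ⟨y0, h0, h4⟩ := Finset.exists_le_of_sum_le hne h1
    have h5 : F y0 ≤ T := le_of_mul_le_mul_left h4 (hq y0 h0)
    refine ⟨fun i => if i = n then y0 else y i, fun i => ?_, ?_⟩
    · by_cases h : i = n <;> simp [h, h0, hy]
    · have h6 : ∀ j, ∑ i ∈ Finset.range (n + 1), v (if i = n then y0 else y i) j -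
          ((n + 1 : ℕ) : ℝ) * b j = a j + v y0 j - b j := by
        intro j
        rw [Finset.sum_range_succ, if_pos rfl]
        have : ∑ i ∈ Finset.range n, v (if i = n then y0 else y i) j =
            ∑ i ∈ Finset.range n, v (y i) j :=
          Finset.sum_congr rfl (fun i hi => by rw [if_neg (Finset.mem_range.1 hi).ne])
        rw [this, hadef]; push_cast; ring
      have h7 : ∑ j ∈ I, w j * (∑ i ∈ Finset.range (n + 1), v (if i = n then y0 else y i) j -
          ((n + 1 : ℕ) : ℝ) * b j) ^ 2 = F y0 :=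
        Finset.sum_congr rfl (fun j _ => by rw [h6])
      refine h7.le.trans (h5.trans ?_)
      rw [hT]; push_cast
      have h8 : ∑ j ∈ I, w j * a j ^ 2 ≤ n * ∑ j ∈ I, w j * ∑ z ∈ H, q z * v z j ^ 2 := hb
      linarith

lemma T0 (μ : Measure C) [IsFiniteMeasure μ] (hm1 : μ.real univ ≤ 1) {f : C → C}
    (hf : Measurable f) (l N : ℕ) (hN : 0 < N) (I : Finset ℕ) (θ β g : ℕ → ℝ)
    (hθ : ∀ r, 0 < θ r) (hβ : ∀ r ∈ I, ∀ x, μ.real (cy r x) ≤ β r)
    (hg : ∀ r ∈ I, min 1 (2 * 2 ^ l * β r) ≤ N * g r)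
    (hs : ∑ r ∈ I, (β r + g r) / θ r ≤ 1 / 16) :
    ∃ (ν : Measure C) (K : Set C) (S : Finset C), IsFiniteMeasure ν ∧ IsClosed K ∧ ν Kᶜ = 0 ∧
      S.card ≤ N ∧ (∀ x ∈ K, ∃ y ∈ S, f x ∈ cy l y) ∧ ν.real univ = μ.real univ ∧
      (∀ A, MeasurableSet A → ν.real A ≤ 8 * 2 ^ l * μ.real A) ∧
      ∀ r ∈ I, ∀ x, ν.real (cy r x) ≤ 4 * θ r := by
  classical
  set m := μ.real univ with hm
  rcases (measureReal_nonneg : 0 ≤ μ.real univ).eq_or_lt with h0 | h0
  · refine ⟨0, ∅, ∅, inferInstance, isClosed_empty, rfl, by simp, by simp, by simpa using h0,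
      fun A _ => ?_, fun r _ x => ?_⟩
    · simp only [measureReal_zero_apply]; positivity
    · simp only [measureReal_zero_apply]; exact (mul_pos (by norm_num) (hθ r)).le
  rw [← hm] at h0
  have hNr : (0 : ℝ) < N := by exact_mod_cast hN
  let P : C → Set C := fun y => f ⁻¹' cy l y
  have hP : ∀ y, MeasurableSet (P y) := fun y => hf (cy_meas _ _)
  let H : Finset C := (nd l).filter (fun y => m / (2 * 2 ^ l) ≤ μ.real (P y))
  set MH := ∑ y ∈ H, μ.real (P y) with hMH
  have hHle : ∀ A, MeasurableSet A → ∑ y ∈ H, μ.real (A ∩ P y) ≤ μ.real A := by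
    intro A hA
    rw [← sum_fib μ hf l hA]
    exact Finset.sum_le_sum_of_subset_of_nonneg (Finset.filter_subset _ _)
      (fun _ _ _ => measureReal_nonneg)
  have hM1 : MH ≤ m := by simpa using hHle univ MeasurableSet.univ
  have hM2 : m / 2 ≤ MH := by
    have h1 := sum_fib μ hf l MeasurableSet.univ
    simp only [univ_inter] at h1
    have h2 := Finset.sum_filter_add_sum_filter_not (nd l)
      (fun y => m / (2 * 2 ^ l) ≤ μ.real (P y)) (fun y => μ.real (P y))
    have h3 : ∑ y ∈ (nd l).filter (fun y => ¬ m / (2 * 2 ^ l) ≤ μ.real (P y)), μ.real (P y) ≤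
        m / 2 := by
      refine (Finset.sum_le_card_nsmul _ _ (m / (2 * 2 ^ l))
        (fun y hy => (not_le.1 (Finset.mem_filter.1 hy).2).le)).trans ?_
      have h4 : (((nd l).filter (fun y => ¬ m / (2 * 2 ^ l) ≤ μ.real (P y))).card : ℝ) ≤ 2 ^ l := by
        exact_mod_cast (Finset.card_filter_le _ _).trans (card_nd l)
      rw [nsmul_eq_mul]
      calc _ ≤ 2 ^ l * (m / (2 * 2 ^ l)) := mul_le_mul_of_nonneg_right h4 (by positivity)
        _ = m / 2 := by field_simp
    have h5 : MH + _ = m := h2.trans h1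
    linarith
  have hM0 : 0 < MH := by linarith
  have hPpos : ∀ y ∈ H, 0 < μ.real (P y) :=
    fun y hy => lt_of_lt_of_le (by positivity) (Finset.mem_filter.1 hy).2
  let q : C → ℝ := fun y => μ.real (P y) / MH
  have hq : ∀ y ∈ H, 0 < q y := fun y hy => div_pos (hPpos y hy) hM0
  have hq1 : ∑ y ∈ H, q y = 1 := by
    simp only [q]; rw [← Finset.sum_div, div_self hM0.ne']
  have hqi : ∀ y ∈ H, 1 / q y ≤ 2 * 2 ^ l := by
    intro y hy
    have h1 : m / (2 * 2 ^ l) ≤ μ.real (P y) := (Finset.mem_filter.1 hy).2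
    rw [div_le_iff₀ (by positivity)] at h1
    simp only [q]
    rw [one_div_div, div_le_iff₀ (hPpos y hy)]
    linarith
  let J : Finset (Σ _ : ℕ, C) := I.sigma (fun r => nd r)
  let v : C → (Σ _ : ℕ, C) → ℝ := fun y j => μ.real (cy j.1 j.2 ∩ P y) / q y
  obtain ⟨y, hy, hb⟩ := maurey H J q hq hq1 (fun j => 1 / θ j.1)
    (fun j _ => (one_div_pos.2 (hθ _)).le) v N
  let ν0 : Measure C := ∑ i ∈ Finset.range N,
    (1 / (N * q (y i))).toNNReal • μ.restrict (P (y i))
  have hν0 : ∀ A, MeasurableSet A →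
      ν0.real A = ∑ i ∈ Finset.range N, 1 / (N * q (y i)) * μ.real (A ∩ P (y i)) := by
    intro A hA
    rw [real_sum _ _ (fun _ => inferInstance)]
    refine Finset.sum_congr rfl (fun i _ => ?_)
    rw [measureReal_nnreal_smul_apply, measureReal_restrict_apply hA,
      Real.coe_toNNReal _ (one_div_pos.2 (mul_pos hNr (hq _ (hy i)))).le]
  haveI : IsFiniteMeasure ν0 := inferInstance
  let a : (Σ _ : ℕ, C) → ℝ := fun j => ν0.real (cy j.1 j.2)
  let b : (Σ _ : ℕ, C) → ℝ := fun j => ∑ z ∈ H, q z * v z j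
  have ha : ∀ j, ∑ i ∈ Finset.range N, v (y i) j = N * a j := by
    intro j
    simp only [a]
    rw [hν0 _ (cy_meas _ _), Finset.mul_sum]
    refine Finset.sum_congr rfl (fun i _ => ?_)
    have := (hq _ (hy i)).ne'
    simp only [v]; field_simp
  have hqv : ∀ z ∈ H, ∀ j, q z * v z j = μ.real (cy j.1 j.2 ∩ P z) := by
    intro z hz j
    have := (hq _ hz).ne'
    simp only [v]; field_simp
  have hb0 : ∀ j, 0 ≤ b j ∧ b j ≤ μ.real (cy j.1 j.2) := by
    intro j
    have h1 : b j = ∑ z ∈ H, μ.real (cy j.1 j.2 ∩ P z) :=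
      Finset.sum_congr rfl (fun z hz => hqv z hz j)
    rw [h1]
    exact ⟨Finset.sum_nonneg (fun _ _ => measureReal_nonneg), hHle _ (cy_meas _ _)⟩
  have hsum : ∀ r, ∑ x ∈ nd r, μ.real (cy r x) = m := by
    intro r; simpa using sum_nd μ r MeasurableSet.univ
  have hB : ∑ j ∈ J, 1 / θ j.1 * b j ^ 2 ≤ m * ∑ r ∈ I, β r / θ r := by
    rw [Finset.sum_sigma, Finset.mul_sum]
    refine Finset.sum_le_sum (fun r hr => ?_)
    rw [← hsum r, Finset.sum_mul]
    refine Finset.sum_le_sum (fun x _ => ?_)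
    obtain ⟨h1, h2⟩ := hb0 ⟨r, x⟩
    have h3 := hβ r hr x
    have h4 : b ⟨r, x⟩ ^ 2 ≤ μ.real (cy r x) * β r := by
      rw [sq]; exact mul_le_mul h2 (h2.trans h3) h1 measureReal_nonneg
    calc 1 / θ r * b ⟨r, x⟩ ^ 2 ≤ 1 / θ r * (μ.real (cy r x) * β r) :=
          mul_le_mul_of_nonneg_left h4 (one_div_pos.2 (hθ r)).le
      _ = _ := by ring
  have hV : ∑ j ∈ J, 1 / θ j.1 * ∑ z ∈ H, q z * v z j ^ 2 ≤ N * (m * ∑ r ∈ I, g r / θ r) := by
    rw [Finset.sum_sigma, Finset.mul_sum, Finset.mul_sum]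
    refine Finset.sum_le_sum (fun r hr => ?_)
    rw [← hsum r, Finset.sum_mul, Finset.mul_sum]
    refine Finset.sum_le_sum (fun x _ => ?_)
    have h1 : ∑ z ∈ H, q z * v z ⟨r, x⟩ ^ 2 ≤ μ.real (cy r x) * (N * g r) := by
      refine le_trans ?_ (mul_le_mul (hHle _ (cy_meas r x)) (hg r hr)
        (le_min zero_le_one (mul_nonneg (by positivity)
          (measureReal_nonneg.trans (hβ r hr x)))) measureReal_nonneg)
      rw [Finset.sum_mul]
      refine Finset.sum_le_sum (fun z hz => ?_)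
      rw [sq, ← mul_assoc, hqv z hz]
      refine mul_le_mul_of_nonneg_left (le_min ?_ ?_) measureReal_nonneg
      · simp only [v, q]
        rw [div_le_iff₀ (hq z hz), one_mul, le_div_iff₀ hM0]
        have h2 : μ.real (cy r x ∩ P z) ≤ μ.real (P z) := measureReal_mono inter_subset_right
        nlinarith [measureReal_nonneg (μ := μ) (s := cy r x ∩ P z)]
      · simp only [v]
        rw [div_eq_mul_one_div, mul_comm]
        exact mul_le_mul (hqi z hz) ((measureReal_mono inter_subset_left).trans (hβ r hr x))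
          measureReal_nonneg (by positivity)
    calc 1 / θ r * ∑ z ∈ H, q z * v z ⟨r, x⟩ ^ 2 ≤ 1 / θ r * (μ.real (cy r x) * (N * g r)) :=
          mul_le_mul_of_nonneg_left h1 (one_div_pos.2 (hθ r)).le
      _ = _ := by ring
  have hD : ∑ j ∈ J, 1 / θ j.1 * (a j - b j) ^ 2 ≤ m * ∑ r ∈ I, g r / θ r := by
    have h1 : ∑ j ∈ J, 1 / θ j.1 * (∑ i ∈ Finset.range N, v (y i) j -
        (N : ℝ) * ∑ z ∈ H, q z * v z j) ^ 2 =
        (N : ℝ) * ((N : ℝ) * ∑ j ∈ J, 1 / θ j.1 * (a j - b j) ^ 2) := by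
      rw [Finset.mul_sum, Finset.mul_sum]
      refine Finset.sum_congr rfl (fun j _ => ?_)
      rw [ha]; simp only [b]; ring
    rw [h1] at hb
    exact le_of_mul_le_mul_left ((le_of_mul_le_mul_left hb hNr).trans hV) hNr
  have hQ : ∑ j ∈ J, 1 / θ j.1 * a j ^ 2 ≤ m / 8 := by
    have h1 : ∑ j ∈ J, 1 / θ j.1 * a j ^ 2 ≤ 2 * ∑ j ∈ J, 1 / θ j.1 * (a j - b j) ^ 2 +
        2 * ∑ j ∈ J, 1 / θ j.1 * b j ^ 2 := by
      rw [Finset.mul_sum, Finset.mul_sum, ← Finset.sum_add_distrib]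
      refine Finset.sum_le_sum (fun j _ => ?_)
      have := mul_nonneg (one_div_pos.2 (hθ j.1)).le (sq_nonneg (a j - 2 * b j))
      nlinarith
    have h2 : ∑ r ∈ I, (β r + g r) / θ r = ∑ r ∈ I, β r / θ r + ∑ r ∈ I, g r / θ r := by
      rw [← Finset.sum_add_distrib]
      exact Finset.sum_congr rfl (fun r _ => add_div _ _ _)
    rw [h2] at hs
    nlinarith
  let Bad : Set C := ⋃ j ∈ J.filter (fun j => θ j.1 < a j), cy j.1 j.2
  have hBadm : MeasurableSet Bad := Finset.measurableSet_biUnion _ (fun _ _ => cy_meas _ _)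
  have hBad : ν0.real Bad ≤ m / 8 := by
    refine (measureReal_biUnion_finset_le _ _).trans (le_trans ?_ hQ)
    refine le_trans (Finset.sum_le_sum (fun j hj => ?_))
      (Finset.sum_le_sum_of_subset_of_nonneg (Finset.filter_subset (fun j => θ j.1 < a j) J)
        (fun j _ _ => mul_nonneg (one_div_pos.2 (hθ _)).le (sq_nonneg _)))
    have h1 : θ j.1 < a j := (Finset.mem_filter.1 hj).2
    have h2 := hθ j.1
    show a j ≤ _
    rw [one_div, inv_mul_eq_div, le_div_iff₀ h2]
    nlinarith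
  let W : Set C := ⋃ i ∈ Finset.range N, P (y i)
  have hWm : MeasurableSet W := Finset.measurableSet_biUnion _ (fun _ _ => hP _)
  have hW : ν0.real W = MH := by
    rw [hν0 _ hWm]
    have h1 : ∀ i ∈ Finset.range N, 1 / (N * q (y i)) * μ.real (W ∩ P (y i)) = MH / N := by
      intro i hi
      have h2 : P (y i) ⊆ W := fun z hz => mem_iUnion₂.2 ⟨i, hi, hz⟩
      rw [inter_eq_self_of_subset_right h2]
      have := (hPpos _ (hy i)).ne'
      simp only [q]; field_simp
    rw [Finset.sum_congr rfl h1]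
    simp; field_simp
  have hWB : m / 4 < ν0.real (W \ Bad) := by
    have h1 : ν0.real W ≤ ν0.real (W \ Bad) + ν0.real Bad :=
      (measureReal_mono (subset_diff_union W Bad)).trans (measureReal_union_le _ _)
    linarith
  obtain ⟨K, hKW, hK, hKm⟩ := (hWm.diff hBadm).exists_lt_isClosed_of_ne_top (μ := ν0)
    (measure_ne_top _ _) (r := ENNReal.ofReal (m / 4)) (by
      rwa [ENNReal.ofReal_lt_iff_lt_toReal (by positivity) (measure_ne_top _ _)])
  have hK4 : m / 4 < ν0.real K := by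
    rwa [ENNReal.ofReal_lt_iff_lt_toReal (by positivity) (measure_ne_top _ _)] at hKm
  have hK0 : 0 < ν0.real K := by linarith
  have hc : m / ν0.real K ≤ 4 := by rw [div_le_iff₀ hK0]; linarith
  have hν : ∀ A, MeasurableSet A → ((m / ν0.real K).toNNReal • ν0.restrict K).real A =
      m / ν0.real K * ν0.real (A ∩ K) := by
    intro A hA
    rw [measureReal_nnreal_smul_apply, measureReal_restrict_apply hA,
      Real.coe_toNNReal _ (by positivity)]
  refine ⟨(m / ν0.real K).toNNReal • ν0.restrict K, K, (Finset.range N).image y, inferInstance,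
    hK, ?_, Finset.card_image_le.trans (by simp), fun x hx => ?_, ?_, fun A hA => ?_,
    fun r hr x => ?_⟩
  · simp [Measure.restrict_apply hK.measurableSet.compl]
  · obtain ⟨i, hi, hx⟩ := mem_iUnion₂.1 (hKW hx).1
    exact ⟨y i, Finset.mem_image_of_mem _ hi, hx⟩
  · rw [hν _ MeasurableSet.univ, univ_inter]; field_simp
  · rw [hν _ hA]
    have h1 : ν0.real (A ∩ K) ≤ 2 * 2 ^ l * μ.real A := by
      refine (measureReal_mono inter_subset_left).trans ?_
      rw [hν0 _ hA]
      refine (Finset.sum_le_card_nsmul _ _ (1 / N * (2 * 2 ^ l * μ.real A))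
        (fun i _ => ?_)).trans (le_of_eq ?_)
      · rw [← one_div_mul_one_div, mul_assoc]
        exact mul_le_mul_of_nonneg_left (mul_le_mul (hqi _ (hy i))
          (measureReal_mono inter_subset_left) measureReal_nonneg (by positivity))
          (by positivity)
      · simp; field_simp
    calc _ ≤ 4 * (2 * 2 ^ l * μ.real A) :=
          mul_le_mul hc h1 measureReal_nonneg (by norm_num)
      _ = _ := by ring
  · rw [hν _ (cy_meas _ _)]
    refine mul_le_mul hc ?_ measureReal_nonneg (by norm_num)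
    by_cases h1 : θ r < ν0.real (cy r x)
    · have h2 : cy r x ∩ K = ∅ := by
        refine eq_empty_of_forall_notMem (fun z hz => (hKW hz.2).2 ?_)
        refine mem_iUnion₂.2 ⟨⟨r, tr r x⟩, Finset.mem_filter.2
          ⟨Finset.mem_sigma.2 ⟨hr, tr_mem r x⟩, ?_⟩, ?_⟩
        · simp only [a]; rwa [cy_tr]
        · simp only; rw [cy_tr]; exact hz.1
      rw [h2]; simpa using (hθ r).le
    · exact (measureReal_mono inter_subset_left).trans (not_lt.1 h1)

end Pool.Agent.H6Thin
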