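import Mathlib
import Pool.Agent.H6Thin

set_option autoImplicit false

open MeasureTheory Set Filter Topology
open scoped ENNReal NNReal

namespace Pool.Agent.H6Thin

/-- Powers of two. -/
noncomputable def pw (a : ℝ) : ℝ := (2 : ℝ) ^ a

lemma pw_pos (a : ℝ) : 0 < pw a := Real.rpow_pos_of_pos (by norm_num) a
lemma pw_add (a b : ℝ) : pw (a + b) = pw a * pw b := Real.rpow_add (by norm_num) a b
lemma pw_le {a b : ℝ} (h : a ≤ b) : pw a ≤ pw b := Real.rpow_le_rpow_of_exponent_le (by norm_num) h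
lemma pw_nat (n : ℕ) : pw n = 2 ^ n := Real.rpow_natCast 2 n
lemma pw_zero : pw 0 = 1 := Real.rpow_zero 2
lemma pw_one : pw 1 = 2 := Real.rpow_one 2
lemma pw_mul (a : ℝ) (n : ℕ) : pw (a * n) = pw a ^ n := Real.rpow_mul_natCast (by norm_num) a n
lemma pw_lt_one {a : ℝ} (h : a < 0) : pw a < 1 := Real.rpow_lt_one_of_one_lt_of_neg (by norm_num) h

/-- Frostman bound at level `r`. -/
def Fr (μ : Measure C) (t : ℝ) (r : ℕ) : Prop := ∀ x, μ.real (cy r x) ≤ pw (-t * r)

lemma Fr.mono {μ : Measure C} {t t' : ℝ} {r : ℕ} (h : Fr μ t r) (ht : t' ≤ t) : Fr μ t' r :=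
  fun x => (h x).trans (pw_le (by nlinarith [(Nat.cast_nonneg r : (0 : ℝ) ≤ r)]))

lemma Fr.dom {μ ν : Measure C} {t t' d : ℝ} {r : ℕ} (h : Fr μ t r)
    (hd : ∀ A, MeasurableSet A → ν.real A ≤ pw d * μ.real A) (hr : d ≤ (t - t') * r) :
    Fr ν t' r := by
  intro x
  refine (hd _ (cy_meas r x)).trans ((mul_le_mul_of_nonneg_left (h x) (pw_pos d).le).trans ?_)
  rw [← pw_add]; exact pw_le (by linarith)

/-- Good measures. -/
def Good (s : ℝ) (μ : Measure C) : Prop :=
  (∀ ε > 0, ∃ n, ∀ r ≥ n, Fr μ (s - ε) r) ∧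
  ∀ ε > 0, ∀ M n0 : ℕ, ∃ n ≥ n0, ∀ r, n ≤ r → r ≤ M * n → Fr μ (1 - ε) r

lemma Good.dom {s d : ℝ} {μ ν : Measure C} (h : Good s μ)
    (hd : ∀ A, MeasurableSet A → ν.real A ≤ pw d * μ.real A) : Good s ν := by
  have key : ∀ ε > (0 : ℝ), ∃ n : ℕ, ∀ r : ℕ, n ≤ r → d ≤ ε / 2 * r := by
    intro ε hε
    obtain ⟨n, hn⟩ := exists_nat_ge (d / (ε / 2))
    refine ⟨n, fun r hr => ?_⟩
    rw [div_le_iff₀ (by positivity)] at hn
    have : (n : ℝ) ≤ r := by exact_mod_cast hr
    nlinarith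
  refine ⟨fun ε hε => ?_, fun ε hε M n0 => ?_⟩
  · obtain ⟨n, hn⟩ := h.1 (ε / 2) (by positivity)
    obtain ⟨n1, hn1⟩ := key ε hε
    refine ⟨max n n1, fun r hr => (hn r (le_of_max_le_left hr)).dom hd ?_⟩
    have := hn1 r (le_of_max_le_right hr)
    linarith
  · obtain ⟨n1, hn1⟩ := key ε hε
    obtain ⟨n, hn0, hn⟩ := h.2 (ε / 2) (by positivity) M (max n0 n1)
    refine ⟨n, le_of_max_le_left hn0, fun r h1 h2 => (hn r h1 h2).dom hd ?_⟩
    have := hn1 r ((le_of_max_le_right hn0).trans h1)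
    linarith

lemma thin {s : ℝ} (hs0 : 0 ≤ s) (hs1 : s ≤ 1) (μ : Measure C) [IsProbabilityMeasure μ]
    (hμ : Good s μ) {f : C → C} (hf : Measurable f) {ε : ℝ} (hε : 0 < ε) (hε1 : ε ≤ 1) (n0 : ℕ) :
    ∃ n ≥ n0, ∃ l ≥ n0, ∃ (ν : Measure C) (K : Set C) (S : Finset C), IsProbabilityMeasure ν ∧
      IsClosed K ∧ ν Kᶜ = 0 ∧ (S.card : ℝ) ≤ pw ((s + ε) * l) ∧
      (∀ x ∈ K, ∃ y ∈ S, f x ∈ cy l y) ∧ (∀ x, ν.real (cy n x) = μ.real (cy n x)) ∧
      (∃ d, ∀ A, MeasurableSet A → ν.real A ≤ pw d * μ.real A) ∧ ∀ r ≥ n, Fr ν (s - ε) r := by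
  classical
  obtain ⟨L, hL⟩ := exists_nat_ge (2 / ε)
  obtain ⟨M, hM⟩ := exists_nat_ge (2 * (L + 3) / ε)
  rw [div_le_iff₀ hε] at hL hM
  have hL1 : 1 ≤ L := by
    have : (1 : ℝ) ≤ L := by nlinarith [(Nat.cast_nonneg L : (0 : ℝ) ≤ L)]
    exact_mod_cast this
  obtain ⟨n1, hn1⟩ := hμ.1 (ε / 2) (by positivity)
  have hgeo : Summable (fun r : ℕ => pw (-(ε / 2) * r)) := by
    simp only [pw_mul]
    exact summable_geometric_of_lt_one (pw_pos _).le (pw_lt_one (by linarith))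
  obtain ⟨F, hF⟩ := summable_iff_vanishing_norm.1 hgeo (1 / 192) (by norm_num)
  obtain ⟨n2, hn2⟩ := F.bddAbove
  obtain ⟨n, hn, hw⟩ := hμ.2 (ε / 2) (by positivity) M (max (max n0 1) (max n1 (n2 + 1)))
  simp only [ge_iff_le, max_le_iff] at hn
  obtain ⟨⟨hn0, hn1'⟩, hnn1, hnn2⟩ := hn
  have hnr : (1 : ℝ) ≤ n := by exact_mod_cast hn1'
  set l := L * n with hl
  have hlr : (l : ℝ) = L * n := by rw [hl]; push_cast; ring
  set N := ⌈pw (s * l)⌉₊ with hN
  have hp1 : 1 ≤ pw (s * l) := by rw [← pw_zero]; exact pw_le (by positivity)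
  have hN1 : pw (s * l) ≤ N := Nat.le_ceil _
  have hN2 : (N : ℝ) ≤ 2 * pw (s * l) := by
    have := Nat.ceil_lt_add_one (pw_pos (s * l)).le
    linarith
  have hN0 : 0 < N := Nat.ceil_pos.2 (pw_pos _)
  have key : ∀ σ : C, _ := fun σ => T0 (μ.restrict (cy n σ))
    (by rw [measureReal_restrict_apply_univ]; exact measureReal_le_one) hf l N hN0
    (Finset.Icc n (M * n)) (fun r => pw (-(s - ε) * r) / 4) (fun r => pw (-(1 - ε / 2) * r))
    (fun r => 2 * pw (-(s - ε / 2) * r)) (fun r => div_pos (pw_pos _) (by norm_num))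
    (fun r hr x => by
      rw [measureReal_restrict_apply (cy_meas _ _)]
      exact (measureReal_mono inter_subset_left).trans
        (hw r (Finset.mem_Icc.1 hr).1 (Finset.mem_Icc.1 hr).2 x))
    (fun r _ => by
      have h1 : 2 * pw (s * l + -(s - ε / 2) * r) ≤ N * (2 * pw (-(s - ε / 2) * r)) := by
        rw [pw_add]
        nlinarith [pw_pos (-(s - ε / 2) * r)]
      refine le_trans ?_ h1
      have hr0 : (0 : ℝ) ≤ r := Nat.cast_nonneg r
      rcases le_total r l with h | h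
      · have h2 : (r : ℝ) ≤ l := by exact_mod_cast h
        refine (min_le_left _ _).trans ?_
        have h3 : pw 0 ≤ pw (s * l + -(s - ε / 2) * r) := pw_le (by nlinarith)
        rw [pw_zero] at h3
        linarith
      · have h2 : (l : ℝ) ≤ r := by exact_mod_cast h
        refine (min_le_right _ _).trans ?_
        rw [← pw_nat, mul_assoc, ← pw_add]
        exact mul_le_mul_of_nonneg_left (pw_le (by nlinarith)) (by norm_num))
    (by
      have h1 := hF (Finset.Icc n (M * n)) (Finset.disjoint_left.2 (fun r h1 h2 => by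
        have := hn2 h2
        have := (Finset.mem_Icc.1 h1).1
        omega))
      have h2 := (le_abs_self _).trans_lt h1
      have h3 : ∑ r ∈ Finset.Icc n (M * n), (pw (-(1 - ε / 2) * r) + 2 * pw (-(s - ε / 2) * r)) /
          (pw (-(s - ε) * r) / 4) ≤ ∑ r ∈ Finset.Icc n (M * n), 12 * pw (-(ε / 2) * r) := by
        refine Finset.sum_le_sum (fun r _ => ?_)
        rw [div_le_iff₀ (div_pos (pw_pos _) (by norm_num))]
        have h4 : pw (-(1 - ε / 2) * r) ≤ pw (-(s - ε / 2) * r) :=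
          pw_le (by nlinarith [(Nat.cast_nonneg r : (0 : ℝ) ≤ r)])
        have h5 : pw (-(s - ε / 2) * r) = pw (-(ε / 2) * r) * pw (-(s - ε) * r) := by
          rw [← pw_add]; congr 1; ring
        nlinarith
      rw [← Finset.mul_sum] at h3
      linarith)
  choose ν K S k1 k2 k3 k4 k5 k6 k7 k8 using key
  have k7' : ∀ σ A, MeasurableSet A → (ν σ).real A ≤ 8 * 2 ^ l * μ.real (A ∩ cy n σ) := by
    intro σ A hA
    have := k7 σ A hA
    rwa [measureReal_restrict_apply hA] at this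
  have hloc : ∀ x A, MeasurableSet A → A ⊆ cy n x →
      (∑ σ ∈ nd n, ν σ).real A = (ν (tr n x)).real A := by
    intro x A hA hx
    rw [real_sum _ _ k1]
    refine Finset.sum_eq_single_of_mem _ (tr_mem n x) (fun σ hσ hne => ?_)
    refine le_antisymm ((k7' σ A hA).trans (le_of_eq ?_)) measureReal_nonneg
    have : A ∩ cy n σ = ∅ := eq_empty_of_forall_notMem (fun z hz => hne (by
      rw [← nd_tr hσ, ← mem_cy.1 hz.2, mem_cy.1 (hx hz.1)]))
    rw [this]; simp
  have hdom : ∀ A, MeasurableSet A → (∑ σ ∈ nd n, ν σ).real A ≤ pw (l + 3) * μ.real A := by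
    intro A hA
    rw [real_sum _ _ k1, ← sum_nd μ n hA, Finset.mul_sum]
    refine Finset.sum_le_sum (fun σ _ => (k7' σ A hA).trans (le_of_eq ?_))
    have : pw 3 = 8 := by
      have := pw_nat 3
      norm_num at this
      exact this
    rw [pw_add, pw_nat, this]; ring
  refine ⟨n, hn0, l, hn0.trans (Nat.le_mul_of_pos_left n hL1), ∑ σ ∈ nd n, ν σ,
    ⋃ σ ∈ nd n, K σ, (nd n).biUnion S, ?_, isClosed_biUnion_finset (fun σ _ => k2 σ), ?_, ?_,
    fun x hx => ?_, fun x => ?_, ⟨_, hdom⟩, fun r hr => ?_⟩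
  · rw [isProbabilityMeasure_iff_real, real_sum _ _ k1]
    have := sum_nd μ n MeasurableSet.univ
    simp only [univ_inter, probReal_univ] at this
    rw [← this]
    exact Finset.sum_congr rfl (fun σ _ => by rw [k6, measureReal_restrict_apply_univ])
  · rw [Measure.coe_finset_sum, Finset.sum_apply]
    refine Finset.sum_eq_zero (fun σ hσ => measure_mono_null ?_ (k3 σ))
    exact compl_subset_compl.2 (fun z hz => mem_iUnion₂.2 ⟨σ, hσ, hz⟩)
  · have h1 : ((nd n).biUnion S).card ≤ 2 ^ n * N :=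
      (Finset.card_biUnion_le_card_mul _ _ _ (fun σ _ => k4 σ)).trans
        (Nat.mul_le_mul_right _ (card_nd n))
    have h2 : (((nd n).biUnion S).card : ℝ) ≤ 2 ^ n * N := by exact_mod_cast h1
    refine h2.trans ((mul_le_mul_of_nonneg_left hN2 (by positivity)).trans ?_)
    rw [← pw_nat, ← pw_one, ← pw_add, ← pw_add]
    refine pw_le ?_
    have : (2 : ℝ) * n ≤ ε * l := by rw [hlr]; nlinarith
    nlinarith
  · obtain ⟨σ, hσ, hx⟩ := mem_iUnion₂.1 hx
    obtain ⟨y, hy, hxy⟩ := k5 σ x hx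
    exact ⟨y, Finset.mem_biUnion.2 ⟨σ, hσ, hy⟩, hxy⟩
  · rw [hloc x _ (cy_meas _ _) Subset.rfl]
    haveI := k1 (tr n x)
    have h1 := measureReal_add_measureReal_compl (μ := ν (tr n x)) (cy_meas n x)
    have h2 := k7' (tr n x) _ (cy_meas n x).compl
    rw [cy_tr, compl_inter_self, measureReal_empty, mul_zero] at h2
    have h3 := k6 (tr n x)
    rw [measureReal_restrict_apply_univ, cy_tr] at h3
    linarith [measureReal_nonneg (μ := ν (tr n x)) (s := (cy n x)ᶜ)]
  · rcases le_total r (M * n) with h | h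
    · intro x
      rw [hloc x _ (cy_meas _ _) (cy_anti hr x)]
      have := k8 (tr n x) r (Finset.mem_Icc.2 ⟨hr, h⟩) x
      linarith
    · refine (hn1 r (hnn1.trans hr)).dom hdom ?_
      have h2 : (M : ℝ) * n ≤ r := by exact_mod_cast h
      rw [hlr]
      nlinarith

/-- Conditions: a good measure with a closed set carrying it. -/
structure Cond (s : ℝ) where
  μ : Measure C
  K : Set C
  prob : IsProbabilityMeasure μ
  cl : IsClosed K
  null : μ Kᶜ = 0
  good : Good s μ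

/-- The error terms. -/
noncomputable def er (k : ℕ) : ℝ := 1 / ((k : ℝ) + 1)

lemma er_pos (k : ℕ) : 0 < er k := Nat.one_div_pos_of_nat
lemma er_anti {k j : ℕ} (h : k ≤ j) : er j ≤ er k := Nat.one_div_le_one_div h
lemma er_le_one (k : ℕ) : er k ≤ 1 := by simpa [er] using er_anti (Nat.zero_le k)
lemma er_small {ε : ℝ} (h : 0 < ε) : ∃ k, er k < ε := exists_nat_one_div_lt h

variable {s : ℝ}

/-- Frostman bound from level `n` on. -/
def B (p : Cond s) (n k : ℕ) : Prop := ∀ r ≥ n, Fr p.μ (s - er k) r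

/-- Refinement keeping the first `n` levels. -/
def Le (n k : ℕ) (p q : Cond s) : Prop :=
  q.K ⊆ p.K ∧ (∀ r ≤ n, ∀ x, q.μ.real (cy r x) = p.μ.real (cy r x)) ∧ B q n k

/-- Density of one family of conditions below another. -/
def Ex (X Y : Set (Cond s)) : Prop := ∀ p ∈ X, ∀ n k, B p n k → ∃ q ∈ Y, Le n k p q

lemma Le.trans {n k : ℕ} {p q r : Cond s} (h1 : Le n k p q) (h2 : Le n k q r) : Le n k p r :=
  ⟨h2.1.trans h1.1, fun a ha x => (h2.2.1 a ha x).trans (h1.2.1 a ha x), h2.2.2⟩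

lemma Ex.refl (X : Set (Cond s)) : Ex X X :=
  fun p hp _ _ h => ⟨p, hp, Subset.rfl, fun _ _ _ => rfl, h⟩

lemma B.keep {a k m j : ℕ} {p q : Cond s} (h : B p a k) (hl : Le m j p q) (hj : k ≤ j) :
    B q a k := by
  intro r hr
  rcases le_total r m with h1 | h1
  · intro x; rw [hl.2.1 r h1]; exact h r hr x
  · exact (hl.2.2 r h1).mono (by linarith [er_anti hj])

lemma fusion (X : ℕ → Set (Cond s)) (hX : ∀ i, Ex (X i) (X (i + 1))) (p : Cond s) (hp : p ∈ X 0)
    (n k : ℕ) (hB : B p n k) : ∃ q, Le n k p q ∧ ∀ i, ∃ p' ∈ X i, q.K ⊆ p'.K := by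
  haveI : Nonempty (Cond s) := ⟨p⟩
  have step : ∀ (i : ℕ) (p : Cond s) (n : ℕ), p ∈ X i → ∃ z : Cond s × ℕ, z.1 ∈ X (i + 1) ∧
      n < z.2 ∧ Le z.2 (k + i) p z.1 ∧ ∃ a ≥ i, i * a ≤ z.2 ∧
        ∀ r, a ≤ r → r ≤ i * a → Fr p.μ (1 - er i) r := by
    intro i p n hp
    obtain ⟨n1, h1⟩ := p.good.1 (er (k + i)) (er_pos _)
    obtain ⟨a, ha, h2⟩ := p.good.2 (er i) (er_pos _) i i
    obtain ⟨q, hq, h3⟩ := hX i p hp (max (n + 1) (max n1 (i * a))) (k + i)
      (fun r hr => h1 r (le_of_max_le_left (le_of_max_le_right hr)))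
    exact ⟨(q, _), hq, Nat.lt_of_succ_le (le_max_left _ _), h3, a, ha,
      (le_max_right _ _).trans (le_max_right _ _), h2⟩
  choose! G hG using step
  let z : ℕ → Cond s × ℕ := fun i => Nat.rec (p, n) (fun i w => G i w.1 w.2) i
  have hz : ∀ i, (z i).1 ∈ X i := by
    intro i
    induction i with
    | zero => exact hp
    | succ j ih => exact (hG j _ _ ih).1
  have h1 : ∀ i, (z i).2 < (z (i + 1)).2 := fun i => (hG i _ _ (hz i)).2.1
  have h2 : ∀ i, Le (z (i + 1)).2 (k + i) (z i).1 (z (i + 1)).1 :=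
    fun i => (hG i _ _ (hz i)).2.2.1
  have h3 : ∀ i, ∃ a ≥ i, i * a ≤ (z (i + 1)).2 ∧
      ∀ r, a ≤ r → r ≤ i * a → Fr (z i).1.μ (1 - er i) r := fun i => (hG i _ _ (hz i)).2.2.2
  have hmono : StrictMono (fun i => (z i).2) := strictMono_nat_of_lt_succ h1
  have hK : ∀ i j, i ≤ j → (z j).1.K ⊆ (z i).1.K := by
    intro i j hij
    induction j, hij using Nat.le_induction with
    | base => exact Subset.rfl
    | succ j _ ih => exact (h2 j).1.trans ih
  have hA : ∀ i j, i ≤ j → ∀ r ≤ (z (i + 1)).2, ∀ x,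
      (z j).1.μ.real (cy r x) = (z i).1.μ.real (cy r x) := by
    intro i j hij r hr x
    induction j, hij using Nat.le_induction with
    | base => rfl
    | succ j hj ih =>
      rw [(h2 j).2.1 r (hr.trans (hmono.monotone (Nat.succ_le_succ hj))), ih]
  have hBk : ∀ i a c, c ≤ k + i → B (z i).1 a c → ∀ j, i ≤ j → B (z j).1 a c := by
    intro i a c hc hb j hij
    induction j, hij using Nat.le_induction with
    | base => exact hb
    | succ j hj ih => exact ih.keep (h2 j) (by omega)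
  let P : ℕ → ProbabilityMeasure C := fun i => ⟨(z i).1.μ, (z i).1.prob⟩
  obtain ⟨ν, -, hν⟩ := isCompact_univ.ultrafilter_le_nhds
    (Ultrafilter.map P (hyperfilter ℕ)) (by simp)
  have hν' : Tendsto P (hyperfilter ℕ) (𝓝 ν) := hν
  have hle : (hyperfilter ℕ : Filter ℕ) ≤ atTop := Nat.hyperfilter_le_atTop
  have hag : ∀ i, ∀ r ≤ (z (i + 1)).2, ∀ x,
      (ν : Measure C).real (cy r x) = (z i).1.μ.real (cy r x) := by
    intro i r hr x
    have h4 := ProbabilityMeasure.tendsto_measure_of_null_frontier_of_tendsto' hν'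
      (E := cy r x) (by simp [cy_clopen r x])
    have h5 := (ENNReal.tendsto_toReal (measure_ne_top _ _)).comp h4
    refine tendsto_nhds_unique h5 (tendsto_const_nhds.congr' ?_)
    filter_upwards [hle (eventually_ge_atTop i)] with j hj
    exact (hA i j hj r hr x).symm
  have hnull : ∀ i, (ν : Measure C) ((z i).1.K)ᶜ = 0 := by
    intro i
    refine le_antisymm ((ProbabilityMeasure.le_liminf_measure_open_of_tendsto hν'
      (z i).1.cl.isOpen_compl).trans (le_of_eq ?_)) (by simp)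
    refine Tendsto.liminf_eq (tendsto_const_nhds.congr' ?_)
    filter_upwards [hle (eventually_ge_atTop i)] with j hj
    exact (measure_mono_null (compl_subset_compl.2 (hK i j hj)) (z j).1.null).symm
  have hBν : ∀ i a c, c ≤ k + i → B (z i).1 a c → ∀ r ≥ a, Fr ν (s - er c) r := by
    intro i a c hc hb r hr x
    rw [hag (max i r) r ((le_max_right i r).trans ((Nat.le_succ _).trans (hmono.id_le _)))]
    exact hBk i a c hc hb _ (le_max_left _ _) r hr x
  refine ⟨⟨ν, ⋂ i, (z i).1.K, ν.2, isClosed_iInter (fun i => (z i).1.cl), ?_, ?_, ?_⟩,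
    ⟨iInter_subset (fun i => (z i).1.K) 0, fun r hr x => hag 0 r (hr.trans (h1 0).le) x,
      hBν 0 n k le_rfl hB⟩, fun i => ⟨_, hz i, iInter_subset (fun i => (z i).1.K) i⟩⟩
  · rw [compl_iInter]; exact measure_iUnion_null hnull
  · intro ε hε
    obtain ⟨i, hi⟩ := er_small hε
    refine ⟨_, fun r hr => (hBν (i + 1) _ (k + i) (by omega) (h2 i).2.2 r hr).mono ?_⟩
    linarith [er_anti (Nat.le_add_left i k)]
  · intro ε hε M n0
    obtain ⟨i, hi⟩ := er_small hε
    obtain ⟨a, ha, h4, h5⟩ := h3 (max i (max M n0))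
    refine ⟨a, ((le_max_right _ _).trans (le_max_right _ _)).trans ha, fun r h6 h7 => ?_⟩
    have h8 : r ≤ max i (max M n0) * a :=
      h7.trans (Nat.mul_le_mul_right _ ((le_max_left _ _).trans (le_max_right _ _)))
    intro x
    rw [hag _ r (h8.trans h4)]
    exact (h5 r h6 h8).mono (by linarith [er_anti (le_max_left i (max M n0))]) x

/-- Sets with small covers at infinitely many levels. -/
def Small (s : ℝ) (Z : Set C) : Prop :=
  ∀ i : ℕ, ∃ l ≥ i, ∃ S : Finset C, (S.card : ℝ) ≤ pw ((s + er i) * l) ∧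
    ∀ z ∈ Z, ∃ y ∈ S, z ∈ cy l y

lemma agree {μ ν : Measure C} [IsFiniteMeasure μ] [IsFiniteMeasure ν] {n : ℕ}
    (h : ∀ x, ν.real (cy n x) = μ.real (cy n x)) {r : ℕ} (hr : r ≤ n) (x : C) :
    ν.real (cy r x) = μ.real (cy r x) := by
  rw [← sum_nd μ n (cy_meas r x), ← sum_nd ν n (cy_meas r x)]
  refine Finset.sum_congr rfl (fun y _ => ?_)
  by_cases hy : y ∈ cy r x
  · rw [inter_eq_self_of_subset_right (by rw [← cy_of_mem hy]; exact cy_anti hr y), h]
  · have : cy r x ∩ cy n y = ∅ := eq_empty_of_forall_notMem (fun z hz => hy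
      (fun i hi => (hz.2 i (hi.trans_le hr)).symm.trans (hz.1 i hi)))
    rw [this]; simp

lemma shrink (hs0 : 0 ≤ s) (hs1 : s ≤ 1) {f : C → C} (hf : Measurable f) (p : Cond s) (n k : ℕ)
    (hB : B p n k) : ∃ q, Le n k p q ∧ Small s (f '' q.K) := by
  let X : ℕ → Set (Cond s) := fun i => {q | ∀ j, i = j + 1 → ∃ l ≥ j, ∃ S : Finset C,
    (S.card : ℝ) ≤ pw ((s + er j) * l) ∧ ∀ x ∈ q.K, ∃ y ∈ S, f x ∈ cy l y}
  obtain ⟨q, h1, h2⟩ := fusion X (fun i p _ n k hB => by
    haveI := p.prob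
    obtain ⟨m, hm, l, hl, ν, K, S, k1, k2, k3, k4, k5, k6, ⟨d, k7⟩, k8⟩ :=
      thin hs0 hs1 p.μ p.good hf (er_pos (max i k)) (er_le_one _) (max i n)
    refine ⟨⟨ν, K ∩ p.K, k1, k2.inter p.cl, ?_, p.good.dom k7⟩, ?_, inter_subset_right,
      fun r hr x => agree k6 (hr.trans (le_of_max_le_right hm)) x, fun r hr => ?_⟩
    · rw [compl_inter]
      refine measure_union_null k3 ?_
      have := k7 _ p.cl.measurableSet.compl
      rw [Measure.real, Measure.real, p.null] at this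
      simp only [ENNReal.toReal_zero, mul_zero] at this
      exact ((ENNReal.toReal_eq_zero_iff _).1 (le_antisymm this ENNReal.toReal_nonneg)).resolve_right
        (measure_ne_top _ _)
    · intro j hj
      obtain rfl : i = j := by omega
      refine ⟨l, le_of_max_le_left hl, S, k4.trans (pw_le ?_), fun x hx => k5 x hx.1⟩
      exact mul_le_mul_of_nonneg_right (by linarith [er_anti (le_max_left i k)])
        (Nat.cast_nonneg l)
    · rcases le_total r m with h | h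
      · intro x
        show ν.real _ ≤ _
        rw [agree k6 h]; exact hB r hr x
      · exact (k8 r h).mono (by linarith [er_anti (le_max_right i k)])) p
    (fun j hj => by omega) n k hB
  refine ⟨q, h1, fun i => ?_⟩
  obtain ⟨p', hp', h3⟩ := h2 (i + 1)
  obtain ⟨l, hl, S, h4, h5⟩ := hp' i rfl
  refine ⟨l, hl, S, h4, ?_⟩
  rintro _ ⟨x, hx, rfl⟩
  exact h5 x (h3 hx)

end Pool.Agent.H6Thin
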