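import Mathlib

set_option autoImplicit false

namespace Pool.Agent.H6Rect

open Set Filter Topology

universe u

lemma setup {X : Type u} [TopologicalSpace X] [T35Space X]
    (h1 : ∃ (e : X) (φ : X × X ≃ₜ X × X),
      (∀ p : X × X, (φ p).1 = p.1) ∧ ∀ x : X, φ (x, x) = (x, e))
    (h2 : ∃ γ : ℕ → Set (Set (StoneCech X)), (∀ n, ∀ U ∈ γ n, IsOpen U) ∧
      (∀ n, ∀ x : X, ∃ U ∈ γ n, stoneCechUnit x ∈ U) ∧
      ∀ x : X, (⋂ n, ⋃₀ {U | U ∈ γ n ∧ stoneCechUnit x ∈ U}) ⊆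
        Set.range (stoneCechUnit : X → StoneCech X)) :
    ∃ (p q : X × X → X) (F : Set X) (U : ℕ → Set X), Continuous p ∧ Continuous q ∧
      (∀ x y, p (x, q (x, y)) = y) ∧ IsCompact F ∧ (∀ x, q (x, x) ∈ F) ∧
      (∀ n, IsOpen (U n)) ∧ Antitone U ∧ (∀ n x, q (x, x) ∈ U n) ∧
      ∀ O, IsOpen O → F ⊆ O → ∃ n, U n ⊆ O := by
  obtain ⟨e, φ, a1, a2⟩ := h1
  obtain ⟨γ, b1, b2, b3⟩ := h2
  have hι : IsEmbedding (stoneCechUnit : X → StoneCech X) := isEmbedding_stoneCechUnit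
  choose G G1 G2 using fun n => b2 n e
  choose t t1 t2 t3 using fun n => exists_mem_nhds_isClosed_subset ((b1 n _ (G1 n)).mem_nhds (G2 n))
  let C : ℕ → Set (StoneCech X) := fun n => ⋂ i ∈ Iic n, t i
  have C1 : ∀ n, IsClosed (C n) := fun n => isClosed_biInter fun i _ => t2 i
  have C2 : ∀ n, C n ∈ 𝓝 (stoneCechUnit e) :=
    fun n => (biInter_mem (finite_Iic n)).mpr fun i _ => t1 i
  have C3 : Antitone C := fun n m h => biInter_subset_biInter_left (Iic_subset_Iic.mpr h)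
  have C4 : ⋂ n, C n ⊆ range stoneCechUnit := fun z hz => b3 e (mem_iInter.mpr fun n =>
    ⟨G n, ⟨G1 n, G2 n⟩, t3 n (mem_iInter₂.mp (mem_iInter.mp hz n) n (mem_Iic.mpr le_rfl))⟩)
  refine ⟨fun z => (φ.symm z).2, fun z => (φ z).2, stoneCechUnit ⁻¹' ⋂ n, C n,
    fun n => stoneCechUnit ⁻¹' interior (C n), by fun_prop, by fun_prop, fun x y => ?_,
    (hι.isInducing.isCompact_preimage_iff C4).mpr (isClosed_iInter C1).isCompact, fun x => ?_,
    fun n => isOpen_interior.preimage hι.continuous,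
    fun n m h => preimage_mono (interior_mono (C3 h)), fun n x => ?_, fun O hO h => ?_⟩
  · have : (x, (φ (x, y)).2) = φ (x, y) := Prod.ext (a1 (x, y)).symm rfl
    simp only [this, Homeomorph.symm_apply_apply]
  · simp only [a2]
    exact mem_iInter.mpr fun n => mem_of_mem_nhds (C2 n)
  · simp only [a2]
    exact mem_interior_iff_mem_nhds.mpr (C2 n)
  · obtain ⟨O', hO', rfl⟩ := hι.isInducing.isOpen_iff.mp hO
    obtain ⟨n, hn⟩ := exists_subset_nhds_of_compactSpace C3.directed_ge C1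
      (U := O') (fun z hz => by
        obtain ⟨x, rfl⟩ := C4 hz
        exact hO'.mem_nhds (h hz))
    exact ⟨n, preimage_mono (interior_subset.trans hn)⟩

lemma ccc_dense {X : Type u} [TopologicalSpace X]
    (hc : ∀ S : Set (Set X), (∀ V ∈ S, IsOpen V ∧ V.Nonempty) → S.PairwiseDisjoint id →
      S.Countable) {ι : Type u} (I : Set ι) (W : ι → Set X) (hW : ∀ i, IsOpen (W i)) :
    ∃ T ⊆ I, T.Countable ∧ ∀ i ∈ I, W i ⊆ closure (⋃ j ∈ T, W j) := by
  obtain ⟨S, hS⟩ := zorn_subset {S : Set (Set X) | (∀ V ∈ S, (IsOpen V ∧ V.Nonempty) ∧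
      ∃ i ∈ I, V ⊆ W i) ∧ S.PairwiseDisjoint id} (by
    intro c hc hch
    refine ⟨⋃₀ c, ⟨?_, (Set.pairwiseDisjoint_sUnion hch.directedOn).mpr fun t ht => (hc ht).2⟩,
      fun t ht => subset_sUnion_of_mem ht⟩
    rintro V ⟨t, ht, hV⟩
    exact (hc ht).1 V hV)
  have := (hc S (fun V hV => (hS.1.1 V hV).1) hS.1.2).to_subtype
  choose f f1 f2 using fun V : S => (hS.1.1 V.1 V.2).2
  refine ⟨range f, by rintro _ ⟨V, rfl⟩; exact f1 V, countable_range f, fun i hi x hx => ?_⟩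
  by_contra h
  let V0 := W i \ closure (⋃ j ∈ range f, W j)
  have hd : ∀ V ∈ S, Disjoint V0 V := fun V hV => Set.disjoint_left.mpr fun y hy hy2 =>
    hy.2 (subset_closure (mem_biUnion ⟨⟨V, hV⟩, rfl⟩ (f2 ⟨V, hV⟩ hy2)))
  have h1 : insert V0 S ⊆ S := hS.2 ⟨by
    rintro V (rfl | hV)
    · exact ⟨⟨(hW i).sdiff isClosed_closure, x, hx, h⟩, i, hi, diff_subset⟩
    · exact hS.1.1 V hV, hS.1.2.insert fun V hV _ => hd V hV⟩ (subset_insert _ _)
  exact Set.disjoint_left.mp (hd V0 (h1 (mem_insert _ _))) ⟨hx, h⟩ ⟨hx, h⟩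

lemma lind {X : Type u} [TopologicalSpace X] (p q : X × X → X) (F : Set X) (U : ℕ → Set X)
    (hp : Continuous p) (hq : Continuous q) (hpq : ∀ x y, p (x, q (x, y)) = y)
    (hF : IsCompact F) (hF2 : ∀ x, q (x, x) ∈ F) (hU : ∀ n, IsOpen (U n))
    (hU2 : ∀ n x, q (x, x) ∈ U n) (hb : ∀ O, IsOpen O → F ⊆ O → ∃ n, U n ⊆ O)
    (hc : ∀ S : Set (Set X), (∀ V ∈ S, IsOpen V ∧ V.Nonempty) → S.PairwiseDisjoint id →
      S.Countable) : LindelofSpace X := by
  constructor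
  apply isLindelof_of_countable_subcover
  intro ι O hO hcov
  have h1 : ∀ x, ∃ (s : Finset ι) (W : Set X) (n : ℕ), IsOpen W ∧ x ∈ W ∧
      ∀ y ∈ W, ∀ w ∈ U n, p (y, w) ∈ ⋃ i ∈ s, O i := by
    intro x
    obtain ⟨s, hs⟩ := ((isCompact_singleton.prod hF).image hp (s := {x} ×ˢ F)).elim_finite_subcover
      O hO ((subset_univ _).trans hcov)
    obtain ⟨a, b, c1, c2, c3, c4, c5⟩ := generalized_tube_lemma isCompact_singleton hF
      ((isOpen_biUnion fun i (_ : i ∈ s) => hO i).preimage hp) (image_subset_iff.mp hs)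
    obtain ⟨n, hn⟩ := hb b c2 c4
    exact ⟨s, a, n, c1, c3 rfl, fun y hy w hw => c5 (mk_mem_prod hy (hn hw))⟩
  choose s W n W1 W2 W3 using h1
  choose T T1 T2 T3 using fun k => ccc_dense hc {x | n x = k} W W1
  refine ⟨⋃ k, ⋃ x ∈ T k, (s x : Set ι),
    countable_iUnion fun k => (T2 k).biUnion fun x _ => (s x).countable_toSet, fun x _ => ?_⟩
  have ho : IsOpen {y | q (y, x) ∈ U (n x)} := (hU _).preimage (by fun_prop)
  obtain ⟨y, hy1, hy2⟩ := mem_closure_iff.mp (T3 (n x) x rfl (W2 x)) _ ho (hU2 _ x)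
  obtain ⟨x', hx', hy3⟩ := mem_iUnion₂.mp hy2
  have h2 : n x' = n x := T1 _ hx'
  have h3 := W3 x' y hy3 _ (h2 ▸ hy1)
  rw [hpq] at h3
  obtain ⟨i, hi, h4⟩ := mem_iUnion₂.mp h3
  exact mem_biUnion (mem_iUnion.mpr ⟨n x, mem_biUnion hx' hi⟩) h4

/-- abstract D-space lemma -/
lemma dsp {X : Type u} [TopologicalSpace X] [T1Space X] (S V : ℕ → X → Set X) (C : X → Set X)
    (hC : ∀ x, IsCompact (C x)) (hS : ∀ n x, x ∈ S n x) (hSa : ∀ x, Antitone fun n => S n x)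
    (hb : ∀ x O, IsOpen O → C x ⊆ O → ∃ n, S n x ⊆ O)
    (hV : ∀ n z, V n z ∈ 𝓝 z) (hVa : ∀ z, Antitone fun n => V n z)
    (hVS : ∀ n z, ∀ x ∈ V n z, z ∈ S n x)
    (hcl : ∀ z (x : ℕ → X), (∀ m, (V m z ∩ C (x m)).Nonempty) → ∃ y, MapClusterPt y atTop x)
    (N : X → Set X) (hN : ∀ x, N x ∈ 𝓝 x) :
    ∃ D : Set X, IsClosed D ∧ DiscreteTopology D ∧ (⋃ x ∈ D, N x) = Set.univ := by
  classical
  obtain ⟨lo, wf⟩ := exists_wellFoundedLT X
  let O : Set X → Set X := fun E => ⋃ d ∈ E, interior (N d)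
  have hO : ∀ E, IsOpen (O E) := fun E => isOpen_biUnion fun _ _ => isOpen_interior
  let P : ℕ ×ₗ X → Set X → Set X → Prop := fun i W E => (ofLex i).2 ∉ W ∧ E.Finite ∧
    E ⊆ C (ofLex i).2 \ W ∧ S (ofLex i).1 (ofLex i).2 ⊆ W ∪ O E
  let G : (i : ℕ ×ₗ X) → ((j : ℕ ×ₗ X) → j < i → Set X) → Set X := fun i r =>
    if h : ∃ E, P i (⋃ j, ⋃ hj : j < i, O (r j hj)) E then h.choose else ∅
  let E : ℕ ×ₗ X → Set X := WellFoundedLT.fix G
  let W : ℕ ×ₗ X → Set X := fun i => ⋃ j, ⋃ _ : j < i, O (E j)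
  have hE : ∀ i, E i = if h : ∃ E, P i (W i) E then h.choose else ∅ :=
    fun i => WellFoundedLT.fix_eq G i
  have hE1 : ∀ i, (∃ E', P i (W i) E') → P i (W i) (E i) := fun i h => by
    rw [hE, dif_pos h]; exact h.choose_spec
  have hE2 : ∀ i, (E i).Nonempty → P i (W i) (E i) := fun i h => hE1 i (by
    by_contra h'
    rw [hE, dif_neg h'] at h
    exact absurd h not_nonempty_empty)
  have hE3 : ∀ i, (E i).Finite := fun i => by
    rcases (E i).eq_empty_or_nonempty with h | h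
    · rw [h]; exact finite_empty
    · exact (hE2 i h).2.1
  have hW : ∀ i j, j < i → O (E j) ⊆ W i := fun i j h => subset_iUnion₂_of_subset j h subset_rfl
  have hWo : ∀ i, IsOpen (W i) := fun i => isOpen_iUnion fun _ => isOpen_iUnion fun _ => hO _
  have hcov : ∀ x, ∃ i, x ∈ O (E i) := by
    intro x
    by_contra hx
    push Not at hx
    have ho : IsOpen (⋃ i, O (E i)) := isOpen_iUnion fun _ => hO _
    obtain ⟨E', e1, e2, e3⟩ := ((hC x).diff ho).elim_nhds_subcover' (fun d _ => interior (N d))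
      (fun d _ => interior_mem_nhds.mpr (hN d)) |>.imp
      (fun (t : Finset (C x \ ⋃ i, O (E i) : Set X)) h => h) |> fun ⟨t, h⟩ =>
      (⟨Subtype.val '' (t : Set (C x \ ⋃ i, O (E i) : Set X)), t.finite_toSet.image _,
        by rintro _ ⟨d, -, rfl⟩; exact d.2, fun y hy => by
          obtain ⟨d, hd, h1⟩ := mem_iUnion₂.mp (h hy)
          exact mem_biUnion ⟨d, hd, rfl⟩ h1⟩ :
        ∃ E' : Set X, E'.Finite ∧ E' ⊆ C x \ ⋃ i, O (E i) ∧ C x \ (⋃ i, O (E i)) ⊆ O E')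
    have hm : Monotone fun m : ℕ => W (toLex (m, x)) ∪ O E' := fun m m' h =>
      union_subset_union_left _ (iUnion_mono fun j => iUnion_mono' fun hj =>
        ⟨hj.trans_le (Prod.Lex.toLex_mono ⟨h, le_rfl⟩), subset_rfl⟩)
    obtain ⟨m, h1⟩ := (hC x).elim_directed_cover (fun m : ℕ => W (toLex (m, x)) ∪ O E')
      (fun m => (hWo _).union (hO _)) (fun y hy => by
        by_cases h : y ∈ ⋃ i, O (E i)
        · obtain ⟨i, hi⟩ := mem_iUnion.mp h
          exact mem_iUnion.mpr ⟨(ofLex i).1 + 1, Or.inl (hW _ i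
            (Prod.Lex.lt_iff.mpr (Or.inl (Nat.lt_succ_self _))) hi)⟩
        · exact mem_iUnion.mpr ⟨0, Or.inr (e3 ⟨hy, h⟩)⟩) hm.directed_le
    obtain ⟨n, h2⟩ := hb x _ ((hWo _).union (hO _)) h1
    have hsub : ∀ i, W i ⊆ ⋃ i, O (E i) :=
      fun i => iUnion₂_subset fun j _ => subset_iUnion (fun i => O (E i)) j
    have hxW : ∀ i, x ∉ W i := fun i h => by
      obtain ⟨j, hj⟩ := mem_iUnion.mp (hsub i h)
      exact hx j hj
    have h3 := hE1 (toLex (max m n, x)) ⟨E', hxW _, e1,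
      fun d hd => ⟨(e2 hd).1, fun h => (e2 hd).2 (hsub _ h)⟩,
      (hSa x (le_max_right m n)).trans (h2.trans (hm (le_max_left m n)))⟩
    exact (h3.2.2.2 (hS _ _)).elim (hxW _) (hx _)
  have hst : ∀ n z, ∃ t ∈ 𝓝 z, (t ∩ {x | (E (toLex (n, x))).Nonempty}).Finite := by
    intro n z
    by_cases h : (V n z ∩ {x | (E (toLex (n, x))).Nonempty}).Nonempty
    · obtain ⟨x0, h1, h2⟩ := wellFounded_lt.has_min _ h
      refine ⟨V n z ∩ (W (toLex (n, x0)) ∪ O (E (toLex (n, x0)))), inter_mem (hV n z)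
        (((hWo _).union (hO _)).mem_nhds ((hE2 _ h1.2).2.2.2 (hVS n z x0 h1.1))),
        (finite_singleton x0).subset ?_⟩
      rintro x ⟨⟨a1, a2⟩, a3⟩
      by_contra hne
      have hlt : x0 < x := lt_of_le_of_ne (not_lt.mp (h2 x ⟨a1, a3⟩)) (Ne.symm hne)
      have hlt' : toLex (n, x0) < toLex (n, x) := Prod.Lex.lt_iff.mpr (Or.inr ⟨rfl, hlt⟩)
      apply (hE2 _ a3).1
      rcases a2 with a2 | a2
      · obtain ⟨j, hj, h3⟩ := mem_iUnion₂.mp a2
        exact hW _ j (hj.trans hlt') h3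
      · exact hW _ _ hlt' a2
    · exact ⟨V n z, hV n z, by rw [not_nonempty_iff_eq_empty.mp h]; exact finite_empty⟩
  have hst2 : ∀ n z, ∃ m, {x | (V m z ∩ E (toLex (n, x))).Nonempty}.Finite := by
    intro n z
    by_contra h
    push Not at h
    obtain ⟨f, f1, f2⟩ := exists_seq_of_forall_finset_exists
      (fun a : ℕ × X => (V a.1 z ∩ E (toLex (n, a.2))).Nonempty)
      (fun a b => a.1 < b.1 ∧ a.2 ≠ b.2) (fun s _ => by
        obtain ⟨y, hy, hy2⟩ := (h (s.sup Prod.fst + 1)).exists_notMem_finset (s.image Prod.snd)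
        exact ⟨(s.sup Prod.fst + 1, y), hy, fun a ha =>
          ⟨Nat.lt_succ_of_le (Finset.le_sup ha),
            fun e => hy2 (Finset.mem_image.mpr ⟨a, ha, e⟩)⟩⟩)
    have f3 : StrictMono fun k => (f k).1 := fun a b h => (f2 a b h).1
    have f4 : Function.Injective fun k => (f k).2 := fun a b h => by
      rcases lt_trichotomy a b with h1 | h1 | h1
      · exact absurd h (f2 a b h1).2
      · exact h1
      · exact absurd h.symm (f2 b a h1).2
    have f5 : ∀ k, (E (toLex (n, (f k).2))).Nonempty := fun k => (f1 k).mono inter_subset_right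
    obtain ⟨y, hy⟩ := hcl z (fun k => (f k).2) fun m => (f1 m).mono (inter_subset_inter
      (hVa z (f3.id_le m)) fun d hd => ((hE2 _ (f5 m)).2.2.1 hd).1)
    obtain ⟨t, ht, h1⟩ := hst n y
    have h2 := (mapClusterPt_iff_frequently.mp hy) t ht
    rw [← Nat.cofinite_eq_atTop, frequently_cofinite_iff_infinite] at h2
    exact h2 ((h1.preimage f4.injOn).subset fun k hk => ⟨hk, f5 k⟩)
  have hlf : ∀ z, ∃ t ∈ 𝓝 z, (t ∩ ⋃ i, E i).Finite := by
    intro z
    obtain ⟨i0, h0⟩ := hcov z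
    choose m hm using fun n => hst2 n z
    refine ⟨O (E i0) ∩ ⋂ n ∈ Iic (ofLex i0).1, V (m n) z, inter_mem ((hO _).mem_nhds h0)
      ((biInter_mem (finite_Iic _)).mpr fun n _ => hV _ _),
      ((finite_Iic (ofLex i0).1).biUnion fun n _ => (hm n).biUnion fun x _ =>
        hE3 (toLex (n, x))).subset ?_⟩
    rintro d ⟨⟨a1, a2⟩, a3⟩
    obtain ⟨i, hi⟩ := mem_iUnion.mp a3
    have h1 : (ofLex i).1 ≤ (ofLex i0).1 := by
      by_contra h
      exact ((hE2 i ⟨d, hi⟩).2.2.1 hi).2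
        (hW i i0 (Prod.Lex.lt_iff.mpr (Or.inl (not_le.mp h))) a1)
    exact mem_biUnion (x := (ofLex i).1) h1 (mem_biUnion (x := (ofLex i).2)
      ⟨d, mem_iInter₂.mp a2 _ h1, hi⟩ hi)
  have hd : ∀ z, ∀ᶠ y in 𝓝 z, y ∈ ⋃ i, E i → y = z := by
    intro z
    obtain ⟨t, ht, h⟩ := hlf z
    filter_upwards [ht, (h.diff (t := {z})).isClosed.isOpen_compl.mem_nhds
      (fun h => h.2 rfl)] with y h1 h2 h3
    by_contra h4
    exact h2 ⟨⟨h1, h3⟩, h4⟩
  refine ⟨⋃ i, E i, ?_, ?_, ?_⟩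
  · rw [← isOpen_compl_iff, isOpen_iff_mem_nhds]
    intro z hz
    filter_upwards [hd z] with y h1 h2
    exact hz (h1 h2 ▸ h2)
  · rw [discreteTopology_iff_singleton_mem_nhds]
    intro z
    filter_upwards [continuous_subtype_val.continuousAt.eventually (hd z.1)] with y h
    exact Subtype.ext (h y.2)
  · apply eq_univ_of_forall
    intro x
    obtain ⟨i, hi⟩ := hcov x
    obtain ⟨d, hd, h⟩ := mem_iUnion₂.mp hi
    exact mem_biUnion (mem_iUnion.mpr ⟨i, hd⟩) (interior_subset h)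

lemma dsp2 {X : Type u} [TopologicalSpace X] [T2Space X] (p q : X × X → X) (F : Set X)
    (U : ℕ → Set X) (hp : Continuous p) (hq : Continuous q) (hpq : ∀ x y, p (x, q (x, y)) = y)
    (hF : IsCompact F) (hU : ∀ n, IsOpen (U n)) (hUa : Antitone U)
    (hU2 : ∀ n x, q (x, x) ∈ U n) (hb : ∀ O, IsOpen O → F ⊆ O → ∃ n, U n ⊆ O)
    (N : X → Set X) (hN : ∀ x, N x ∈ 𝓝 x) :
    ∃ D : Set X, IsClosed D ∧ DiscreteTopology D ∧ (⋃ x ∈ D, N x) = Set.univ := by
  let 𝒰 : Ultrafilter ℕ := Ultrafilter.of atTop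
  have h𝒰 : (𝒰 : Filter ℕ) ≤ atTop := Ultrafilter.of_le _
  have L : ∀ (y x : ℕ → X) (K : Set X), (∃ a ∈ K, Tendsto y 𝒰 (𝓝 a)) →
      (∀ m, q (y m, x m) ∈ U m) → ∃ a ∈ p '' (K ×ˢ F), Tendsto x 𝒰 (𝓝 a) := by
    rintro y x K ⟨a, ha, h1⟩ h2
    have h3 : (𝒰.map fun m => q (y m, x m) : Filter X) ≤ 𝓝ˢ F := by
      intro s hs
      obtain ⟨O, hO, h4, h5⟩ := mem_nhdsSet_iff_exists.mp hs
      obtain ⟨n, hn⟩ := hb O hO h4
      apply h𝒰
      filter_upwards [eventually_ge_atTop n] with m hm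
      exact h5 (hn (hUa hm (h2 m)))
    have h4 : ∃ f ∈ F, ((𝒰.map fun m => q (y m, x m) : Ultrafilter X) : Filter X) ≤ 𝓝 f := by
      by_contra hc
      push Not at hc
      have := hF.disjoint_nhdsSet_left.mpr fun f hf =>
        (Ultrafilter.disjoint_iff_not_le.mpr (hc f hf)).symm
      exact (Ultrafilter.disjoint_iff_not_le.mp this.symm) h3
    obtain ⟨f, hf, h5⟩ := h4
    refine ⟨p (a, f), ⟨_, mk_mem_prod ha hf, rfl⟩, ?_⟩
    have := (hp.tendsto _).comp (h1.prodMk_nhds 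
      (show Tendsto (fun m => q (y m, x m)) (𝒰 : Filter ℕ) (𝓝 f) from h5))
    exact this.congr fun m => hpq _ _
  let V : ℕ → X → Set X := fun n z => {y | q (z, y) ∈ U n ∧ q (y, z) ∈ U n}
  have hV : ∀ n z, V n z ∈ 𝓝 z := fun n z => IsOpen.mem_nhds
    (((hU n).preimage (f := fun y => q (z, y)) (by fun_prop)).inter
      ((hU n).preimage (f := fun y => q (y, z)) (by fun_prop))) ⟨hU2 _ _, hU2 _ _⟩
  have hVa : ∀ z, Antitone fun n => V n z := fun z n m h y hy => ⟨hUa h hy.1, hUa h hy.2⟩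
  let S : ℕ → X → Set X := fun n x => {y | ∃ z, x ∈ V n z ∧ y ∈ V n z}
  have hSa : ∀ x, Antitone fun n => S n x :=
    fun x n m h y ⟨z, h1, h2⟩ => ⟨z, hVa z h h1, hVa z h h2⟩
  have hcs : ∀ m x, ∀ d ∈ closure (S m x), ∃ w z, w ∈ V m d ∧ x ∈ V m z ∧ w ∈ V m z := by
    intro m x d hd
    obtain ⟨w, h1, z, h2, h3⟩ := mem_closure_iff_nhds.mp hd _ (hV m d)
    exact ⟨w, z, h1, h2, h3⟩
  have h0 : ∀ x : X, ∃ a ∈ ({x} : Set X), Tendsto (fun _ : ℕ => x) 𝒰 (𝓝 a) :=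
    fun x => ⟨x, rfl, tendsto_const_nhds⟩
  refine dsp S V (fun x => ⋂ n, closure (S n x)) (fun x => ?_)
    (fun n x => ⟨x, mem_of_mem_nhds (hV n x), mem_of_mem_nhds (hV n x)⟩) hSa
    (fun x O hO h => ?_) hV hVa (fun n z x hx => ⟨z, hx, mem_of_mem_nhds (hV n z)⟩)
    (fun z x h => ?_) N hN
  · refine (((((((isCompact_singleton (x := x)).prod hF).image hp).prod hF).image hp).prod
      hF).image hp).of_isClosed_subset (isClosed_iInter fun _ => isClosed_closure) fun d hd => ?_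
    choose w z h1 h2 h3 using fun m => hcs m x d (mem_iInter.mp hd m)
    obtain ⟨a, ha, h4⟩ := L w (fun _ => d) _ (L z w _ (L _ z _ (h0 x) fun m => (h2 m).2)
      fun m => (h3 m).1) fun m => (h1 m).2
    rwa [tendsto_nhds_unique tendsto_const_nhds h4]
  · by_contra hc
    push Not at hc
    choose y h1 h2 using fun n => not_subset.mp (hc n)
    choose z h3 h4 using h1
    obtain ⟨a, -, h5⟩ := L z y _ (L _ z _ (h0 x) fun m => (h3 m).2) fun m => (h4 m).1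
    have h6 : a ∈ O := h (mem_iInter.mpr fun n => mem_closure_of_tendsto h5 (h𝒰 (by
      filter_upwards [eventually_ge_atTop n] with m hm
      exact hSa x hm ⟨z m, h3 m, h4 m⟩)))
    obtain ⟨m, hm⟩ := (h5.eventually (hO.mem_nhds h6)).exists
    exact h2 m hm
  · choose d h1 h2 using h
    choose w z' h3 h4 h5 using fun m => hcs m (x m) (d m) (mem_iInter.mp (h2 m) m)
    obtain ⟨a, -, h6⟩ := L z' x _ (L w z' _ (L d w _ (L _ d _ (h0 z) fun m => (h1 m).1)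
      fun m => (h3 m).1) fun m => (h5 m).2) fun m => (h4 m).1
    exact ⟨a, (h6.mapClusterPt).mono h𝒰⟩

end Pool.Agent.H6Rect
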