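import Pool.Statements.S19375
import Pool.Agent.Lib.helper1.MkZ
import Pool.Agent.Lib.helper1.NilK

set_option autoImplicit false
open MeasureTheory ProbabilityTheory
open Pool Pool.MP_65c995_pr

namespace Pool.Agent.S19375

open Pool.Agent.Lib.helper1 Pool.Agent.Lib.helper1.RotW

variable {r : ℕ}

lemma fin_prod {A B : Type} [Fintype A] {f : A × B → ℝ} {g : A → ℝ}
    (h : ∀ a, HasSum (fun b => f (a, b)) (g a)) : HasSum f (∑ a, g a) := by
  classical
  have : ∀ a, HasSum (fun p : A × B => if p.1 = a then f p else 0) (g a) := fun a => by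
    rw [← (Prod.mk_right_injective a).hasSum_iff]
    · simpa [Function.comp_def] using h a
    · rintro ⟨a', b⟩ hp
      exact if_neg (by rintro rfl; exact hp ⟨b, rfl⟩)
  simpa using hasSum_sum (s := Finset.univ) fun a _ => this a

noncomputable def β : ℝ := √((1 - θ) / 2)

lemma β_pos : 0 < β := Real.sqrt_pos.2 (by linarith [θ_lt])

noncomputable def am (m : M r) : ℝ := β * η r ^ m.2.2.length

lemma am_pos (m : M r) : 0 < am m := mul_pos β_pos (pow_pos η_pos _)

def base (c : G r) : M r := (false, c, [])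

noncomputable def q (r : ℕ) : ℝ := Fintype.card (G r)

lemma q_pos : 0 < q r := by unfold q; exact_mod_cast Fintype.card_pos

noncomputable def p0 (y : M r × Bool) : ℝ := am y.1 ^ 2 / (2 * q r)

lemma p0_pos (y : M r × Bool) : 0 < p0 y := div_pos (pow_pos (am_pos _) _) (by linarith [q_pos (r := r)])

noncomputable def ψ (y : M r × Bool) : ℝ := (1 - one r y.1) * (if y.2 then 1 else -1) / am y.1

noncomputable def hat (F : M r → ℝ) (y : M r × Bool) : ℝ := F (base y.1.2.1) + ψ y * F y.1

lemma one_base (c : G r) : one r (base c) = 1 := by simp [one, isB, base]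

lemma one_01 (m : M r) : one r m = 0 ∨ one r m = 1 := by unfold one; split_ifs <;> simp

lemma ψ_one (y : M r × Bool) : ψ y * one r y.1 = 0 := by
  rcases one_01 y.1 with h | h <;> simp [ψ, h]

lemma ψ_le (y : M r × Bool) : |ψ y| * η r ^ y.1.2.2.length ≤ β⁻¹ := by
  have h1 := β_pos
  have h2 := η_pos (r := r)
  have : |ψ y| ≤ 1 / am y.1 := by
    rw [ψ, abs_div, abs_of_pos (am_pos _), abs_mul]
    refine div_le_div_of_nonneg_right ?_ (am_pos _).le
    rcases one_01 y.1 with h | h <;> rw [h] <;> split_ifs <;> simp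
  refine (mul_le_mul_of_nonneg_right this (by positivity)).trans_eq ?_
  rw [am]; field_simp

lemma sumA (φ : G r → ℝ) : HasSum (fun m : M r => am m ^ 2 * φ m.2.1) (∑ c, φ c) := by
  have h : ∀ (b : Bool) (c : G r), HasSum (fun s : W r => am (b, c, s) ^ 2 * φ c) (φ c / 2) := by
    intro b c
    have := (sum_η (r := r)).mul_left (β ^ 2 * φ c)
    have e : β ^ 2 * φ c * (1 - θ)⁻¹ = φ c / 2 := by
      have := θ_lt
      have h0 : 1 - θ ≠ 0 := by linarith
      rw [β, Real.sq_sqrt (by linarith)]; field_simp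
    rw [e] at this
    exact this.congr_fun fun s => by simp only [am]; ring
  have := fin_prod (f := fun m : M r => am m ^ 2 * φ m.2.1) fun b =>
    fin_prod (f := fun p : G r × W r => am (b, p) ^ 2 * φ p.1) (h b)
  rwa [Finset.sum_const, Finset.card_univ, Fintype.card_bool, ← Finset.sum_div, nsmul_eq_mul,
    Nat.cast_ofNat, mul_div_cancel₀ _ two_ne_zero] at this

lemma sumB (F : M r → ℝ) : HasSum (fun m => one r m * F m) (∑ c, F (base c)) := by
  have inj : Function.Injective (base : G r → M r) := fun c c' h => by simpa [base] using h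
  rw [← inj.hasSum_iff]
  · simpa [Function.comp_def, one_base] using hasSum_fintype fun c => F (base c)
  · rintro ⟨b, c, s⟩ h
    rcases one_01 (b, c, s) with e | e
    · rw [e, zero_mul]
    · have : isB (b, c, s) := by by_contra hc; simp [one, hc] at e
      exact absurd ⟨c, by simp only [base]; rw [← this.1, ← this.2]⟩ h

lemma sum0 : HasSum (p0 : M r × Bool → ℝ) 1 := by
  have h : ∀ b : Bool, HasSum (fun m : M r => p0 (m, b)) (1 / 2) := fun b => by
    have := sumA (r := r) fun _ => 1 / (2 * q r)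
    rw [Finset.sum_const, Finset.card_univ, nsmul_eq_mul] at this
    have e : (Fintype.card (G r) : ℝ) * (1 / (2 * q r)) = 1 / 2 := by
      have := q_pos (r := r)
      change q r * _ = _
      field_simp
    rw [e] at this
    exact this.congr_fun fun m => by simp only [p0]; ring
  rw [← (Equiv.prodComm _ _).hasSum_iff]
  have := fin_prod (f := fun p : Bool × M r => p0 (p.2, p.1)) h
  norm_num at this
  exact this

lemma summ {A : M r × Bool → ℝ} (hA : ∀ y, |A y| ≤ 1) : Summable fun y => p0 y * A y :=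
  Summable.of_norm_bounded sum0.summable fun y => by
    rw [Real.norm_eq_abs, abs_mul, abs_of_pos (p0_pos y)]
    exact mul_le_of_le_one_right (p0_pos y).le (hA y)

lemma key {A F : M r → ℝ} (hA : ∀ y, |hat A y| ≤ 1) (hF : ∀ y, |hat F y| ≤ 1)
    (h : HasSum (fun m => A m * F m) 0) : HasSum (fun y => p0 y * (hat A y * hat F y)) 0 := by
  have hs := (summ (A := fun y => hat A y * hat F y) fun y => by
    rw [abs_mul]; exact mul_le_one₀ (hA y) (abs_nonneg _) (hF y)).hasSum
  have h1 := hs.prod_fiberwise fun m => hasSum_fintype _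
  have h2 := (((sumA fun c => A (base c) * F (base c)).add h).sub
    (sumB fun m => A m * F m)).div_const (q r)
  have e := h1.unique (h2.congr_fun fun m => by
    have := am_pos m
    have := q_pos (r := r)
    simp only [Fintype.sum_bool, p0, hat, ψ, if_true, Bool.false_eq_true, if_false]
    rcases one_01 m with e | e <;> rw [e] <;> field_simp <;> ring)
  rwa [e, add_zero, sub_self, zero_div] at hs

noncomputable def kx (γ : ℝ) (x : M r × Bool) (n : M r) : ℝ := hat (H r γ (δ n)) x

lemma kx_sum (γ : ℝ) (x : M r × Bool) (F : M r → ℝ) :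
    HasSum (fun n => kx γ x n * F n) (hat (H r γ F) x) :=
  (((rfH γ).repr (base x.1.2.1) F).add (((rfH γ).repr x.1 F).mul_left (ψ x))).congr_fun
    fun n => by simp only [kx, hat]; ring

lemma swap (γ : ℝ) (y z : M r × Bool) :
    hat (kx γ y) z = hat (H r γ (δ (base z.1.2.1) + ψ z • δ z.1)) y := by
  simp only [kx, hat, map_add, map_smul, Pi.add_apply, Pi.smul_apply, smul_eq_mul]; ring

lemma kernel : ∃ (r : ℕ) (γ : ℝ), γ ≠ 0 ∧ ∀ x y : M r × Bool, |hat (kx γ x) y| ≤ 1 ∧
    (x.1.2.1 = y.1.2.1 → hat (kx γ x) y = -1) := by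
  have b0 := β_pos
  have t0 := θ_pos
  obtain ⟨γ, hγ⟩ : ∃ γ : ℝ, γ = 1 / (9 * (1 + β⁻¹) ^ 2) := ⟨_, rfl⟩
  have g0 : 0 < γ := by rw [hγ]; positivity
  have g2 : 9 * γ * (1 + β⁻¹) ^ 2 = 1 := by rw [hγ]; field_simp
  have g1 : γ ≤ 1 := by
    have : 0 < β⁻¹ := by positivity
    nlinarith [mul_pos g0 this, mul_pos g0 (mul_pos this this)]
  obtain ⟨n1, h1⟩ := exists_pow_lt_of_lt_one (show 0 < γ ^ 2 * θ by positivity) θ_lt
  obtain ⟨n2, h2⟩ := exists_pow_lt_of_lt_one (show 0 < γ ^ 2 by positivity)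
    (show (2⁻¹ : ℝ) < 1 by norm_num)
  obtain ⟨r, hr⟩ : ∃ r, r = n1 + n2 + 1 := ⟨_, rfl⟩
  have h3 : θ ^ r / θ ≤ γ ^ 2 := by
    rw [div_le_iff₀ t0]
    exact (pow_le_pow_of_le_one t0.le θ_lt.le (by omega)).trans h1.le
  have h4 : τ r ≤ γ ^ 2 := by
    refine le_trans (div_le_div_of_nonneg_left (by positivity) t0 ?_) h3
    exact Real.le_sqrt_of_sq_le (by nlinarith [θ_lt])
  have h5 : μ r ≤ γ ^ 2 := by
    have : μ r = 2⁻¹ ^ r := by simp [μ]
    rw [this]
    exact (pow_le_pow_of_le_one (by norm_num) (by norm_num) (by omega)).trans h2.le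
  have en := entries (r := r) ⟨0, by omega⟩ g0 g1 h4 h5 h3
  refine ⟨r, γ, g0.ne', fun x y => ?_⟩
  have same : x.1.2.1 = y.1.2.1 → hat (kx γ x) y = -1 := fun e => by
    simp only [hat, kx]
    rw [(en _ _).2 (by exact e), (en _ _).2 (by exact e), (en _ _).2 (by exact e),
      (en _ _).2 (by exact e), one_base, one_base]
    linear_combination -ψ_one x - ψ_one y - ψ y * one r y.1 * ψ_one x
  refine ⟨?_, same⟩
  by_cases e : x.1.2.1 = y.1.2.1
  · rw [same e]; simp
  have row : ∀ n : M r, n.2.1 = y.1.2.1 →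
      |kx γ x n| ≤ 9 * γ * (1 + β⁻¹) * η r ^ n.2.2.length := fun n hn => by
    have a1 := (en (base x.1.2.1) n).1 (by rw [hn]; exact e)
    have a2 := (en x.1 n).1 (by rw [hn]; exact e)
    have a3 := ψ_le x
    have := η_pos (r := r)
    simp only [base, List.length_nil, pow_zero, mul_one] at a1
    refine (abs_add_le _ _).trans ?_
    rw [abs_mul]
    have a4 := mul_le_mul_of_nonneg_left a2 (abs_nonneg (ψ x))
    have a5 := mul_le_mul_of_nonneg_left a3
      (show 0 ≤ 9 * γ * η r ^ n.2.2.length by positivity)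
    simp only [base]
    linarith
  have a1 := row (base y.1.2.1) rfl
  have a2 := mul_le_mul_of_nonneg_left (row y.1 rfl) (abs_nonneg (ψ y))
  have a3 := mul_le_mul_of_nonneg_left (ψ_le y) (show 0 ≤ 9 * γ * (1 + β⁻¹) by positivity)
  rw [show (base y.1.2.1).2.2.length = 0 from rfl, pow_zero, mul_one] at a1
  refine (abs_add_le _ _).trans ?_
  rw [abs_mul]
  linarith


/-- There exist a compact metric space S, a stationary Markov process (X_i) indexed by the integers with values in S, an integer k>0 and ε>0 such that X_0 and X_k are independent and dist(X_0,X_1) ≥ ε almost surely. -/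
theorem result :
    ∃ (S : Type) (_ : MetricSpace S) (_ : CompactSpace S) (_ : MeasurableSpace S)
      (_ : BorelSpace S) (Ω : Type) (_ : MeasurableSpace Ω) (μ : MeasureTheory.Measure Ω)
      (X : ℤ → Ω → S) (k : ℤ) (ε : ℝ),
      MeasureTheory.IsProbabilityMeasure μ ∧
      (∀ i, Measurable (X i)) ∧
      (∀ n : ℤ, μ.map (fun ω (i : ℤ) => X (i + n) ω) = μ.map (fun ω (i : ℤ) => X i ω)) ∧
      (∀ (n : ℤ) (A : Set S), MeasurableSet A →
        MeasureTheory.condExp (⨆ (m : ℤ) (_ : m ≤ n), MeasurableSpace.comap (X m) inferInstance) μ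
          (Set.indicator (X (n + 1) ⁻¹' A) (fun _ => (1 : ℝ)))
        =ᵐ[μ] MeasureTheory.condExp (MeasurableSpace.comap (X n) inferInstance) μ
          (Set.indicator (X (n + 1) ⁻¹' A) (fun _ => (1 : ℝ)))) ∧
      0 < k ∧ 0 < ε ∧
      ProbabilityTheory.IndepFun (X 0) (X k) μ ∧
      ∀ᵐ ω ∂μ, ε ≤ dist (X 0 ω) (X 1 ω) := by
  obtain ⟨r, γ, g0, hk⟩ := kernel
  obtain ⟨h, hh⟩ : ∃ h : M r × Bool → M r × Bool → ℝ, h = fun x y => hat (kx γ x) y := ⟨_, rfl⟩
  have hb : ∀ x y, |h x y| ≤ 1 := fun x y => by rw [hh]; exact (hk x y).1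
  have one1 : ∀ y, hat (one r) y = 1 := fun y => by rw [hat, one_base, ψ_one, add_zero]
  have s1 : ∀ x, HasSum (fun y => p0 y * h x y) 0 := fun x => by
    have := kx_sum γ x (one r)
    rw [H1, show hat (0 : M r → ℝ) x = 0 by simp [hat]] at this
    simpa only [one1, mul_one, hh] using
      key (fun y => (hk x y).1) (fun y => by rw [one1]; simp) this
  have s3 : ∀ x z, HasSum (fun y => p0 y * (h x y * h y z)) 0 := fun x z => by
    have := kx_sum γ x (H r γ (δ (base z.1.2.1) + ψ z • δ z.1))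
    rw [HH g0, show hat (0 : M r → ℝ) x = 0 by simp [hat]] at this
    simpa only [← swap, hh] using
      key (fun y => (hk x y).1) (fun y => by rw [← swap]; exact (hk y z).1) this
  have nn : ∀ x y, 0 ≤ p0 y * (1 + h x y) := fun x y =>
    mul_nonneg (p0_pos y).le (by linarith [(abs_le.1 (hb x y)).1])
  have row : ∀ x, HasSum (fun y => p0 y * (1 + h x y)) 1 := fun x => by
    simpa only [mul_add, mul_one, add_zero] using sum0.add (s1 x)
  have two : ∀ x z, HasSum (fun y => p0 y * (1 + h x y) * (p0 z * (1 + h y z)))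
      (p0 z * (1 + 0 + ∑' y, p0 y * h y z + 0)) := fun x z =>
    ((((sum0.add (s1 x)).add (summ fun y => hb y z).hasSum).add (s3 x z)).mul_left
      (p0 z)).congr_fun fun y => by ring
  let P : M r × Bool → PMF (M r × Bool) := fun x => ⟨fun y => ENNReal.ofReal (p0 y * (1 + h x y)),
    ENNReal.summable.hasSum_iff.2 (by
      rw [← ENNReal.ofReal_tsum_of_nonneg (nn x) (row x).summable, (row x).tsum_eq,
        ENNReal.ofReal_one])⟩
  have hP : ∀ x y, P x y = ENNReal.ofReal (p0 y * (1 + h x y)) := fun _ _ => rfl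
  have h2 : ∀ x z, ∑' y, P x y * P y z
      = ENNReal.ofReal (p0 z * (1 + 0 + ∑' y, p0 y * h y z + 0)) := fun x z => by
    simp only [hP, ← ENNReal.ofReal_mul (nn _ _)]
    rw [← ENNReal.ofReal_tsum_of_nonneg (fun y => mul_nonneg (nn _ _) (nn _ _))
      (two x z).summable, (two x z).tsum_eq]
  refine MkZ.chain ((P (base 0, true)).bind P) P (fun x z => by rw [PMF.bind_apply, h2, h2])
    (Fintype.card (G r)) (fun x => Fintype.equivFin (G r) x.1.2.1) (fun x => (Fin.is_lt _).le)
    fun x y e => ?_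
  have := (hk x y).2 ((Fintype.equivFin (G r)).injective (Fin.ext e))
  rw [hP, hh]
  simp [this]

end Pool.Agent.S19375
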