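import Pool.Statements.S02358
import Pool.Agent.Lib.helper13.GS3

set_option autoImplicit false
open Pool Pool.MP_954a1f_al

namespace Pool.Agent.S02358

@[ext] structure S where
  a : ZMod 5
  b : ZMod 5
  c : ZMod 5
  d : ZMod 5
  h : a * d - b * c = 1

instance : DecidableEq S := fun u v =>
  decidable_of_iff (u.a = v.a ∧ u.b = v.b ∧ u.c = v.c ∧ u.d = v.d) S.ext_iff.symm

instance : Mul S := ⟨fun u v => ⟨u.a * v.a + u.b * v.c, u.a * v.b + u.b * v.d,
  u.c * v.a + u.d * v.c, u.c * v.b + u.d * v.d, by linear_combination (v.a * v.d - v.b * v.c) * u.h + v.h⟩⟩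
instance : One S := ⟨⟨1, 0, 0, 1, by simp⟩⟩
instance : Inv S := ⟨fun u => ⟨u.d, -u.b, -u.c, u.a, by linear_combination u.h⟩⟩

theorem mul_def (u v : S) : (u * v).a = u.a * v.a + u.b * v.c ∧ (u * v).b = u.a * v.b + u.b * v.d ∧
    (u * v).c = u.c * v.a + u.d * v.c ∧ (u * v).d = u.c * v.b + u.d * v.d := ⟨rfl, rfl, rfl, rfl⟩

instance : Group S := Group.ofLeftAxioms
  (fun u v w => by ext <;> simp only [mul_def] <;> ring)
  (fun u => by
    ext
    · show 1 * u.a + 0 * u.c = _; ring
    · show 1 * u.b + 0 * u.d = _; ring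
    · show 0 * u.a + 1 * u.c = _; ring
    · show 0 * u.b + 1 * u.d = _; ring)
  (fun u => by
    ext
    · show u.d * u.a + -u.b * u.c = 1; linear_combination u.h
    · show u.d * u.b + -u.b * u.d = 0; ring
    · show -u.c * u.a + u.a * u.c = 0; ring
    · show -u.c * u.b + u.a * u.d = 1; linear_combination u.h)

instance : Finite S := Finite.of_injective (fun u : S => (u.a, u.b, u.c, u.d))
  (fun u v h => by simpa [S.ext_iff] using h)

def x0 : S := ⟨4, 4, 0, 4, by decide⟩
def y0 : S := ⟨4, 0, 1, 4, by decide⟩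
def z0 : S := ⟨4, 0, 0, 4, by decide⟩

theorem inj : ∀ p q : Fin 10 × Fin 5, x0 ^ p.1.1 * y0 ^ p.2.1 = x0 ^ q.1.1 * y0 ^ q.2.1 → p = q := by
  decide +kernel

/-- The negation of the preceding statement: For all a, b ≥ 1, the group with generators x, y and relations x = [x,y,...,y] (a copies of y) and y = [y,x,...,x] (b copies of x) is finite, using left-normed commutators [u,v]=u⁻¹v⁻¹uv. -/
theorem result :
    ¬ (∀ a b : ℕ, 1 ≤ a → 1 ≤ b →
      Finite (PresentedGroup
        ({(fun z : FreeGroup (Fin 2) =>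
              z⁻¹ * (FreeGroup.of (1 : Fin 2))⁻¹ * z * FreeGroup.of (1 : Fin 2))^[a]
              (FreeGroup.of (0 : Fin 2)) * (FreeGroup.of (0 : Fin 2))⁻¹,
          (fun z : FreeGroup (Fin 2) =>
              z⁻¹ * (FreeGroup.of (0 : Fin 2))⁻¹ * z * FreeGroup.of (0 : Fin 2))^[b]
              (FreeGroup.of (1 : Fin 2)) * (FreeGroup.of (1 : Fin 2))⁻¹} :
          Set (FreeGroup (Fin 2))))) := by
  intro h
  let Q := Subgroup.closure {x0, y0}
  have hx : x0 ∈ Q := Subgroup.subset_closure (by simp)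
  have hy : y0 ∈ Q := Subgroup.subset_closure (by simp)
  have e1 : x0 ^ 5 = z0 := by decide +kernel
  have e2 : y0 ^ 5 = z0 := by decide +kernel
  have := Fintype.ofFinite Q
  obtain ⟨A, B, hA, hB, hn⟩ := H13GS.main (ZMod 3) (by decide) (Q := Q) ⟨x0, hx⟩ ⟨y0, hy⟩
    ⟨z0, e1 ▸ pow_mem hx 5⟩ (by
      rw [← Subgroup.closure_closure_coe_preimage (k := {x0, y0})]
      congr 1
      ext g
      simp [Subtype.ext_iff])
    (fun g => Subtype.ext (by
      show z0 * g.1 = g.1 * z0
      ext <;> simp only [mul_def, z0] <;> ring))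
    (fun h => absurd (congrArg Subtype.val h) (show z0 ≠ 1 by decide +kernel))
    (Subtype.ext (show z0 * z0 = 1 by decide +kernel)) (n := 5) (a := 5) (b := 5)
    (Subtype.ext e1) (Subtype.ext e2) (by norm_num) (by norm_num)
    (Subtype.ext ((H13GS.map_comm Q.subtype 5 _ _).trans
      (show H13GS.comm 5 x0 y0 = x0 by decide +kernel)))
    (Subtype.ext ((H13GS.map_comm Q.subtype 5 _ _).trans
      (show H13GS.comm 5 y0 x0 = y0 by decide +kernel)))
    (le_trans (by simp) (Fintype.card_le_of_injective (fun p : Fin 10 × Fin 5 =>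
      (⟨x0 ^ p.1.1 * y0 ^ p.2.1, mul_mem (pow_mem hx _) (pow_mem hy _)⟩ : Q))
      (fun p q h => inj p q (congrArg Subtype.val h))))
  exact hn (h A B hA hB)

end Pool.Agent.S02358
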