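import Pool.Statements.S11957
-- import your own Pool.Agent.* helpers here

set_option autoImplicit false
open Pool Pool.MP_dfdf13_co

namespace Pool.Agent.S11957

open Finset

lemma trig (x : ℝ) : 5 / 8 - 2 / 3 * Real.cos x + 1 / 24 * Real.cos (2 * x) ≤ x ^ 2 / 4 := by
  have hg : ∀ y, HasDerivAt (fun y => y / 2 - 2 / 3 * Real.sin y + 1 / 12 * Real.sin (2 * y))
      (1 / 3 * (1 - Real.cos y) ^ 2) y := fun y => by
    have := (((hasDerivAt_id y).div_const 2).sub ((Real.hasDerivAt_sin y).const_mul (2 / 3))).add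
      ((((hasDerivAt_id y).const_mul 2).sin).const_mul (1 / 12))
    refine this.congr_deriv ?_
    simp only [id, Real.cos_two_mul]; ring
  have hf : ∀ y, HasDerivAt (fun y => y ^ 2 / 4 + 2 / 3 * Real.cos y - 1 / 24 * Real.cos (2 * y))
      (y / 2 - 2 / 3 * Real.sin y + 1 / 12 * Real.sin (2 * y)) y := fun y => by
    have := ((((hasDerivAt_id y).pow 2).div_const 4).add ((Real.hasDerivAt_cos y).const_mul (2 / 3))).sub
      ((((hasDerivAt_id y).const_mul 2).cos).const_mul (1 / 24))
    refine this.congr_deriv ?_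
    simp only [id]; norm_num; ring
  have m1 : Monotone (fun y => y / 2 - 2 / 3 * Real.sin y + 1 / 12 * Real.sin (2 * y)) :=
    monotone_of_deriv_nonneg (fun y => (hg y).differentiableAt) (fun y => by
      rw [(hg y).deriv]; positivity)
  have m2 : MonotoneOn (fun y => y ^ 2 / 4 + 2 / 3 * Real.cos y - 1 / 24 * Real.cos (2 * y))
      (Set.Ici 0) :=
    monotoneOn_of_deriv_nonneg (convex_Ici 0) (fun y _ => (hf y).continuousAt.continuousWithinAt)
      (fun y _ => (hf y).differentiableAt.differentiableWithinAt) (fun y hy => by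
        rw [(hf y).deriv]
        have := m1 (interior_subset hy : (0 : ℝ) ≤ y)
        simpa using this)
  have := m2 (Set.mem_Ici.2 le_rfl) (Set.mem_Ici.2 (abs_nonneg x)) (abs_nonneg x)
  simp only [Real.cos_abs, sq_abs, mul_zero, Real.cos_zero] at this
  rw [show 2 * |x| = |2 * x| by rw [abs_mul]; norm_num, Real.cos_abs] at this
  linarith

def Dg {R : Type} [CommRing R] : ℕ → (R → R) → Prop
  | 0, f => ∀ x, f x = 0
  | D + 1, f => ∀ h, Dg D (fun x => f (x + h) - f x)

lemma Dg.mul {R : Type} [CommRing R] (a : R) : ∀ (D : ℕ) (f : R → R), Dg D f →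
    Dg D (fun x => a * f x)
  | 0, f, h => fun x => by simp [h x]
  | D + 1, f, h => fun t => by
    have := Dg.mul a D _ (h t)
    simpa only [mul_sub] using this

lemma weyl (D : ℕ) : ∀ δ : ℝ, 0 < δ → ∃ p₀ : ℕ, ∀ (p : ℕ) [Fact p.Prime], p₀ < p →
    ∀ f : ZMod p → ZMod p, Dg D f → (∃ x y, f x ≠ f y) →
      ‖∑ b, ZMod.stdAddChar (f b)‖ ≤ δ * p := by
  induction D with
  | zero =>
    exact fun δ _ => ⟨0, fun p _ _ f hf ⟨x, y, h⟩ => absurd ((hf x).trans (hf y).symm) h⟩
  | succ D ih =>
    intro δ hδ
    obtain ⟨p₁, h1⟩ := ih (δ ^ 2 / 2) (by positivity)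
    obtain ⟨p₂, h2⟩ := exists_nat_gt (2 / δ ^ 2)
    refine ⟨p₁ + p₂, fun p _ hp f hf hne => ?_⟩
    have hp0 : (0 : ℝ) < p := by exact_mod_cast (by omega : 0 < p)
    by_cases hc : ∃ h, h ≠ 0 ∧ ∀ x y, f (x + h) - f x = f (y + h) - f y
    · obtain ⟨h, h0, hh⟩ := hc
      have c0 : f (0 + h) - f 0 ≠ 0 := by
        intro e
        have a : ∀ n : ℕ, f (n * h) = f 0 := by
          intro n
          induction n with
          | zero => simp
          | succ n ih =>
            have := hh (n * h) 0
            rw [e, sub_eq_zero] at this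
            rw [Nat.cast_succ, add_mul, one_mul, this, ih]
        have b : ∀ x, f x = f 0 := fun x => by
          have := a (x / h).val
          rwa [ZMod.natCast_zmod_val, div_mul_cancel₀ _ h0] at this
        obtain ⟨x, y, hxy⟩ := hne
        exact hxy ((b x).trans (b y).symm)
      have e : ∑ b, ZMod.stdAddChar (f b) =
          ZMod.stdAddChar (f (0 + h) - f 0) * ∑ b, ZMod.stdAddChar (f b) := by
        rw [mul_sum, ← Equiv.sum_comp (Equiv.addRight h)]
        refine sum_congr rfl fun b _ => ?_
        rw [← AddChar.map_add_eq_mul, ← hh b 0]; simp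
      have n1 : ZMod.stdAddChar (f (0 + h) - f 0) ≠ 1 := fun hh =>
        c0 (ZMod.injective_stdAddChar (hh.trans (AddChar.map_zero_eq_one _).symm))
      have : ∑ b, ZMod.stdAddChar (f b) = 0 := by
        by_contra h0
        exact n1 (by simpa [h0] using e.symm)
      rw [this, norm_zero]; positivity
    · push Not at hc
      have nm : ∀ y : ZMod p, ‖ZMod.stdAddChar y‖ = 1 := fun y => by
        rw [ZMod.stdAddChar_apply]; exact Circle.norm_coe _
      have e : (∑ b, ZMod.stdAddChar (f b)) * (starRingEnd ℂ) (∑ b, ZMod.stdAddChar (f b)) =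
          ∑ h, ∑ b, ZMod.stdAddChar (f (b + h) - f b) := by
        rw [sum_comm, map_sum, mul_sum]
        refine sum_congr rfl fun b _ => ?_
        rw [← Equiv.sum_comp (Equiv.addLeft b), sum_mul]
        refine sum_congr rfl fun h _ => ?_
        rw [sub_eq_add_neg, AddChar.map_add_eq_mul, AddChar.map_neg_eq_conj]; rfl
      have e2 : ‖∑ b, ZMod.stdAddChar (f b)‖ ^ 2 ≤ ∑ h : ZMod p,
          ((if h = 0 then (p : ℝ) else 0) + δ ^ 2 / 2 * p) := by
        have := congrArg norm e
        rw [norm_mul, Complex.norm_conj, ← sq] at this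
        rw [this]
        refine (norm_sum_le _ _).trans (sum_le_sum fun h _ => ?_)
        split_ifs with h0
        · refine (norm_sum_le _ _).trans ?_
          simp only [nm, sum_const, card_univ, ZMod.card, nsmul_eq_mul, mul_one]
          have : 0 ≤ δ ^ 2 / 2 * p := by positivity
          linarith
        · rw [zero_add]; exact h1 p (by omega) _ (hf h) (hc h h0)
      rw [sum_add_distrib] at e2
      simp only [sum_ite_eq', mem_univ, if_true, sum_const, card_univ, ZMod.card, nsmul_eq_mul] at e2
      have h3 : (p₂ : ℝ) ≤ p := by exact_mod_cast (by omega : p₂ ≤ p)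
      rw [div_lt_iff₀ (by positivity)] at h2
      have h4 : 2 ≤ p * δ ^ 2 := by nlinarith [sq_nonneg δ]
      refine abs_le_of_sq_le_sq' (by nlinarith) (by positivity) |>.2

def ell {p : ℕ} (d : Option (ZMod p)) (q : ZMod p × ZMod p) : ZMod p :=
  d.elim q.1 (fun m => q.2 - m * q.1)

lemma ell_add {p : ℕ} (d : Option (ZMod p)) (q v : ZMod p × ZMod p) :
    ell d (q + v) = ell d q + ell d v := by
  cases d <;> simp [ell]; ring

lemma ell_ex {p : ℕ} [Fact p.Prime] (d e : Option (ZMod p)) (hde : d ≠ e) (h : ZMod p) :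
    ∃ v, ell d v = h ∧ ell e v = 0 := by
  rcases d with _ | m <;> rcases e with _ | m'
  · exact absurd rfl hde
  · exact ⟨(h, m' * h), by simp [ell]⟩
  · exact ⟨(0, h), by simp [ell]⟩
  · have : m' - m ≠ 0 := fun hh => hde (by rw [sub_eq_zero.1 hh])
    refine ⟨(h / (m' - m), m' * (h / (m' - m))), ?_, by simp [ell]⟩
    simp only [ell, Option.elim]; field_simp

lemma deg {p : ℕ} [Fact p.Prime] (d : Option (ZMod p)) (T : Finset (Option (ZMod p))) :
    d ∉ T → ∀ (f : ZMod p → ZMod p) (g : Option (ZMod p) → ZMod p → ZMod p) (c : ZMod p),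
      (∀ q, f (ell d q) + ∑ e ∈ T, g e (ell e q) = c) → Dg (T.card + 1) f := by
  induction T using Finset.induction_on with
  | empty =>
    intro _ f g c h t x
    have s : ∀ y, f y = c := fun y => by
      have : ∃ v, ell d v = y := by
        rcases d with _ | m
        · exact ⟨(y, 0), rfl⟩
        · exact ⟨(0, y), by simp [ell]⟩
      obtain ⟨v, rfl⟩ := this
      simpa using h v
    simp [s]
  | insert e T he ih =>
    intro hd f g c h t
    rw [mem_insert, not_or] at hd
    obtain ⟨v, v1, v2⟩ := ell_ex d e hd.1 t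
    rw [card_insert_of_notMem he]
    refine ih hd.2 _ (fun e' x => g e' (x + ell e' v) - g e' x) 0 (fun q => ?_)
    have a := h q
    have b := h (q + v)
    rw [sum_insert he] at a b
    simp only [ell_add, v1, v2, add_zero] at b
    rw [sum_sub_distrib]
    linear_combination b - a

lemma cnt {p : ℕ} [Fact p.Prime] (q q' : ZMod p × ZMod p) :
    (∑ d : Option (ZMod p), if ell d q' = ell d q then (1 : ℤ) else 0) =
      1 + if q' = q then (p : ℤ) else 0 := by
  split_ifs with h
  · simp [h, add_comm]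
  · rw [Fintype.sum_option]
    simp only [ell, Option.elim]
    by_cases h1 : q'.1 = q.1
    · have h2 : q'.2 ≠ q.2 := fun h2 => h (Prod.ext h1 h2)
      simp [h1, h2]
    · have : ∀ m, (q'.2 - m * q'.1 = q.2 - m * q.1) ↔ m = (q'.2 - q.2) / (q'.1 - q.1) := by
        intro m
        rw [eq_div_iff (sub_ne_zero.2 h1)]
        constructor <;> intro hh <;> linear_combination -hh
      simp [h1, this]

lemma line_le {p : ℕ} [Fact p.Prime] (S : Finset (ZMod p × ZMod p)) (d : Option (ZMod p))
    (b : ZMod p) : (S.filter (fun q => ell d q = b)).card ≤ p := by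
  have := Finset.card_le_card_of_injOn (s := S.filter (fun q => ell d q = b))
    (t := (univ : Finset (ZMod p))) (fun q => d.elim q.2 (fun _ => q.1)) (by simp) (by
      intro q hq q' hq' h
      have a := (mem_filter.1 hq).2.trans (mem_filter.1 hq').2.symm
      rcases d with _ | m
      · exact Prod.ext a h
      · simp only [ell, Option.elim] at a h
        refine Prod.ext h ?_
        rw [h] at a; exact sub_left_injective a)
  simpa using this


/-- For every k ≥ 4 there is p₀ such that for all primes p > p₀, no point set S in the plane over 𝔽_p with p dividing ∣S∣ has exactly k directions in which some line meets S in other than ∣S∣/p points. -/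
theorem result :
    ∀ k : ℕ, 4 ≤ k → ∃ p₀ : ℕ, ∀ p : ℕ, p.Prime → p₀ < p →
      ∀ S : Finset (ZMod p × ZMod p), p ∣ S.card →
        {d : Option (ZMod p) | ∃ b : ZMod p,
            (S.filter (fun q => d.elim q.1 (fun m => q.2 - m * q.1) = b)).card * p
              ≠ S.card}.ncard ≠ k := by
  intro k hk
  obtain ⟨p₀, hw⟩ := weyl k (1 / 100) (by norm_num)
  refine ⟨p₀ + 2, fun p hp hpp S ⟨n, hn⟩ hT => ?_⟩
  have := Fact.mk hp
  classical
  let r : Option (ZMod p) → ZMod p → ℤ := fun d b => (S.filter (fun q => ell d q = b)).card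
  let T := univ.filter (fun d => ∃ b, r d b ≠ n)
  have hp0 : 0 < p := hp.pos
  have hTk : T.card = k := by
    rw [← hT, ← Set.ncard_coe_finset]
    congr 1
    ext d
    simp only [T, r, coe_filter, mem_univ, true_and, Set.mem_ofPred_eq, hn]
    refine exists_congr fun b => not_congr ?_
    rw [mul_comm p n, Nat.mul_left_inj hp0.ne', Nat.cast_inj]; rfl
  have fib : ∀ d (F : ZMod p → ℤ), ∑ b, r d b * F b = ∑ q ∈ S, F (ell d q) := by
    intro d F
    rw [← Finset.sum_fiberwise S (ell d)]
    refine sum_congr rfl fun b _ => ?_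
    rw [sum_congr rfl (fun q hq => by rw [(mem_filter.1 hq).2])]
    simp [r]
  have s1 : ∀ d, ∑ b, r d b = p * n := fun d => by
    simpa [hn] using fib d (fun _ => 1)
  have pt : ∀ q, ∑ d ∈ T, (r d (ell d q) - n) = (if q ∈ S then (p : ℤ) else 0) - n := by
    intro q
    have a : ∑ d, r d (ell d q) = p * n + if q ∈ S then (p : ℤ) else 0 := by
      simp only [r, card_filter]
      push_cast
      rw [sum_comm, sum_congr rfl (fun q' _ => cnt q q'), sum_add_distrib]
      simp [hn]
    have b : ∑ d ∈ T, (r d (ell d q) - n) = ∑ d, (r d (ell d q) - n) := by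
      refine sum_subset (subset_univ _) fun d _ hd => ?_
      simp only [T, mem_filter, mem_univ, true_and, not_exists, not_not] at hd
      rw [hd, sub_self]
    rw [b, sum_sub_distrib, a]
    simp; ring
  have sq1 : ∀ d, ∑ b, (r d b - n) ^ 2 = ∑ q ∈ S, (r d (ell d q) - n) := by
    intro d
    rw [← fib d (fun b => r d b - n)]
    have : ∀ b, (r d b - n) ^ 2 = r d b * (r d b - n) - (n * r d b - n * n) := fun b => by ring
    simp only [this, sum_sub_distrib, ← mul_sum, s1]
    simp
  have tot : ∑ d ∈ T, ∑ b, (r d b - n) ^ 2 = p * n * (p - n) := by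
    simp only [sq1]
    rw [sum_comm, sum_congr rfl (fun q hq => by rw [pt q, if_pos hq])]
    simp [hn]; ring
  have nc : ∀ d ∈ T, ∃ x y, ((r d x - n : ℤ) : ZMod p) ≠ ((r d y - n : ℤ) : ZMod p) := by
    intro d hd
    by_contra hc
    push Not at hc
    have dv : ∀ x y, (p : ℤ) ∣ r d x - r d y := fun x y => by
      have := (ZMod.intCast_eq_intCast_iff_dvd_sub _ _ p).1 (hc y x)
      simpa using this
    have bd : ∀ x, 0 ≤ r d x ∧ r d x ≤ p := fun x =>
      ⟨Int.natCast_nonneg _, Int.ofNat_le.2 (line_le S d x)⟩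
    have tri : ∀ x y, r d x - r d y = 0 ∨ r d x - r d y = p ∨ r d x - r d y = -p := by
      intro x y
      obtain ⟨c, hc⟩ := dv x y
      have a := bd x
      have b := bd y
      have hp' : (0 : ℤ) < p := by exact_mod_cast hp0
      have c1 : c ≤ 1 := by by_contra hh; nlinarith
      have c2 : -1 ≤ c := by by_contra hh; nlinarith
      interval_cases c <;> omega
    obtain ⟨b0, hb0⟩ := (mem_filter.1 hd).2
    have : ∃ b1, r d b1 ≠ r d b0 := by
      by_contra hh
      push Not at hh
      have := s1 d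
      simp only [hh, sum_const, card_univ, ZMod.card, nsmul_eq_mul] at this
      exact hb0 (mul_left_cancel₀ (by exact_mod_cast hp0.ne') this)
    obtain ⟨b1, hb1⟩ := this
    have two : ∀ x, (r d x - n) ^ 2 = (p - 2 * n) * r d x + n * n := by
      intro x
      have := tri x b0
      have := tri b1 b0
      have := bd x
      have := bd b0
      have := bd b1
      have : r d x = 0 ∨ r d x = p := by omega
      rcases this with h | h <;> rw [h] <;> ring
    have a : ∑ b, (r d b - n) ^ 2 = p * n * (p - n) := by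
      simp only [two, sum_add_distrib, ← mul_sum, s1]
      simp; ring
    obtain ⟨e, he, hed⟩ := exists_mem_ne (by omega : 1 < T.card) d
    obtain ⟨b2, hb2⟩ := (mem_filter.1 he).2
    have a2 : 0 < ∑ b, (r e b - n) ^ 2 := sum_pos' (fun _ _ => sq_nonneg _)
      ⟨b2, mem_univ _, by have := sub_ne_zero.2 hb2; positivity⟩
    have a3 := sum_le_sum_of_subset_of_nonneg (f := fun d => ∑ b, (r d b - n) ^ 2)
      (show {e, d} ⊆ T from by simp [insert_subset_iff, he, hd])
      (fun _ _ _ => sum_nonneg fun _ _ => sq_nonneg _)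
    rw [sum_pair hed] at a3
    omega
  have big : ∀ d ∈ T, (p : ℝ) ^ 3 / 16 < ((∑ b, (r d b - n) ^ 2 : ℤ) : ℝ) := by
    intro d hd
    have dg : Dg k (fun b => ((r d b - n : ℤ) : ZMod p)) := by
      have := deg d (T.erase d) (notMem_erase _ _) (fun b => ((r d b - n : ℤ) : ZMod p))
        (fun e b => ((r e b - n : ℤ) : ZMod p)) (-n) (fun q => by
          rw [add_sum_erase T (fun e => ((r e (ell e q) - n : ℤ) : ZMod p)) hd, ← Int.cast_sum, pt]
          split_ifs <;> simp)
      rwa [card_erase_of_mem hd, hTk, Nat.sub_add_cancel (by omega)] at this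
    have w1 := hw p (by omega) _ dg (nc d hd)
    have w2 := hw p (by omega) _ (Dg.mul 2 _ _ dg) (by
      obtain ⟨x, y, h⟩ := nc d hd
      refine ⟨x, y, fun hh => h (mul_left_cancel₀ ?_ hh)⟩
      intro h2
      have := (ZMod.natCast_eq_zero_iff 2 p).1 (by exact_mod_cast h2)
      have := Nat.le_of_dvd (by norm_num) this
      omega)
    have hp' : (0 : ℝ) < p := by exact_mod_cast hp0
    have re : ∀ m : ℤ, (ZMod.stdAddChar (m : ZMod p)).re = Real.cos (2 * Real.pi * m / p) := by
      intro m
      rw [ZMod.stdAddChar_coe, ← Complex.exp_ofReal_mul_I_re]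
      congr 2; push_cast; ring
    have w1' := (Complex.re_le_norm _).trans w1
    have w2' := (neg_le_neg w2).trans (neg_le.1 ((Complex.neg_re _ ▸ Complex.re_le_norm _).trans
      (norm_neg _).le))
    rw [Complex.re_sum] at w1' w2'
    simp only [re] at w1'
    have e2 : ∀ b, (ZMod.stdAddChar (2 * ((r d b - n : ℤ) : ZMod p))).re =
        Real.cos (2 * (2 * Real.pi * (r d b - n : ℤ) / p)) := fun b => by
      have := re (2 * (r d b - n))
      rw [Int.cast_mul, Int.cast_ofNat] at this
      rw [this]; congr 1; push_cast; ring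
    simp only [e2] at w2'
    have t := sum_le_sum (s := univ) fun (b : ZMod p) _ => trig (2 * Real.pi * (r d b - n : ℤ) / p)
    rw [sum_add_distrib, sum_sub_distrib, ← mul_sum, ← mul_sum] at t
    simp only [sum_const, card_univ, ZMod.card, nsmul_eq_mul] at t
    have t2 : ∑ b : ZMod p, (2 * Real.pi * (r d b - n : ℤ) / p) ^ 2 / 4 =
        Real.pi ^ 2 / p ^ 2 * ((∑ b, (r d b - n) ^ 2 : ℤ) : ℝ) := by
      push_cast
      rw [mul_sum]
      refine sum_congr rfl fun b _ => ?_
      field_simp; ring
    rw [t2] at t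
    generalize ((∑ b, (r d b - n) ^ 2 : ℤ) : ℝ) = X at t ⊢
    have pi1 : Real.pi ^ 2 < 9.87 := by nlinarith [Real.pi_lt_d4, Real.pi_pos]
    have t3 : 0.6179 * p ≤ Real.pi ^ 2 / p ^ 2 * X := by linarith
    rw [div_mul_eq_mul_div, le_div_iff₀ (by positivity)] at t3
    by_contra hh
    have : Real.pi ^ 2 * X ≤ Real.pi ^ 2 * ((p : ℝ) ^ 3 / 16) :=
      mul_le_mul_of_nonneg_left (not_lt.1 hh) (by positivity)
    have p3 : (0 : ℝ) < (p : ℝ) ^ 3 := by positivity
    nlinarith
  have fin := sum_lt_sum_of_nonempty (card_pos.1 (by omega : 0 < T.card)) big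
  rw [← Int.cast_sum, tot, sum_const, hTk, nsmul_eq_mul] at fin
  push_cast at fin
  have hk' : (4 : ℝ) ≤ k := by exact_mod_cast hk
  have hp' : (0 : ℝ) < p := by exact_mod_cast hp0
  have p3 : (0 : ℝ) < (p : ℝ) ^ 3 := by positivity
  nlinarith [mul_nonneg hp'.le (sq_nonneg ((p : ℝ) - 2 * n))]

end Pool.Agent.S11957
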