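import Pool.Statements.S00046

set_option autoImplicit false
open Pool Pool.MP_172a5c_ag

namespace Pool.Agent.S00046

open MvPolynomial Real Set Filter Topology

noncomputable def Mk (N p q : ℕ) (t : ℝ) : ℝ := Real.exp ((p * Real.log t + q * Real.log (1 - t)) / N)

noncomputable def G (N : ℕ) (p q : Fin 3 → ℕ) (c : Fin 3 → ℝ) (t : ℝ) : ℝ :=
  ∑ k, c k * Mk N (p k) (q k) t

noncomputable def D (N : ℕ) (p q : Fin 3 → ℕ) (c : Fin 3 → ℝ) (t : ℝ) : ℝ :=
  ∑ k, c k * Mk N (p k) (q k) t * (p k * (1 - t) - q k * t)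

lemma Mk_deriv (N p q : ℕ) (hN : 0 < N) (t : ℝ) (h0 : 0 < t) (h1 : t < 1) :
    HasDerivAt (Mk N p q) (Mk N p q t * (p * (1 - t) - q * t) / (N * t * (1 - t))) t := by
  have hN' : (N : ℝ) ≠ 0 := by positivity
  have h2 : (1 - t) ≠ 0 := by linarith
  have a := Real.hasDerivAt_log h0.ne'
  have b : HasDerivAt (fun t : ℝ => Real.log (1 - t)) (-1 / (1 - t)) t := by
    have := ((hasDerivAt_id t).const_sub 1).log (by simpa using h2)
    simpa using this
  have c := (((a.const_mul (p : ℝ)).add (b.const_mul (q : ℝ))).div_const (N : ℝ)).exp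
  have e : Mk N p q t * (p * (1 - t) - q * t) / (N * t * (1 - t)) =
      Real.exp ((p * Real.log t + q * Real.log (1 - t)) / N) * ((p * t⁻¹ + q * (-1 / (1 - t))) / N) := by
    unfold Mk
    field_simp
    ring
  rw [e]
  exact c

lemma G_deriv (N : ℕ) (p q : Fin 3 → ℕ) (c : Fin 3 → ℝ) (hN : 0 < N) (t : ℝ) (h0 : 0 < t) (h1 : t < 1) :
    HasDerivAt (G N p q c) (D N p q c t / (N * t * (1 - t))) t := by
  have h := HasDerivAt.fun_sum (u := (Finset.univ : Finset (Fin 3)))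
    (fun k _ => (Mk_deriv N (p k) (q k) hN t h0 h1).const_mul (c k))
  have e : D N p q c t / (N * t * (1 - t)) =
      ∑ k, c k * (Mk N (p k) (q k) t * (p k * (1 - t) - q k * t) / (N * t * (1 - t))) := by
    unfold D
    rw [Finset.sum_div]
    refine Finset.sum_congr rfl fun k _ => ?_
    ring
  rw [e]
  exact h

lemma sard (N : ℕ) (p q : Fin 3 → ℕ) (c : Fin 3 → ℝ) (hN : 0 < N) :
    MeasureTheory.volume (G N p q c '' {t | t ∈ Ioo (0 : ℝ) 1 ∧ D N p q c t = 0}) = 0 := by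
  refine MeasureTheory.addHaar_image_eq_zero_of_det_fderivWithin_eq_zero
    (f' := fun _ => 0) _ ?_ ?_
  · rintro t ⟨⟨h0, h1⟩, h2⟩
    have := G_deriv N p q c hN t h0 h1
    rw [h2, zero_div] at this
    have h3 := this.hasFDerivAt
    have e : (ContinuousLinearMap.toSpanSingleton ℝ (0 : ℝ) : ℝ →L[ℝ] ℝ) = 0 := by
      ext; simp
    rw [e] at h3
    exact h3.hasFDerivWithinAt
  · intro t _
    simp [ContinuousLinearMap.det]

lemma roots (N : ℕ) (p q : Fin 3 → ℕ) (c : Fin 3 → ℝ) (hN : 0 < N) (T : ℕ → ℝ)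
    (hT : ∀ j, j < 8 → T j < T (j + 1)) (hI : ∀ j, j ≤ 8 → T j ∈ Ioo (0 : ℝ) 1)
    (hs : ∀ j, j ≤ 8 → 0 < (-1) ^ j * (1 - G N p q c (T j))) :
    ∃ c0 : ℝ, 0 < c0 ∧ ∃ r : Fin 8 → ℝ, Function.Injective r ∧
      ∀ j, r j ∈ Ioo (0 : ℝ) 1 ∧ G N p q c (r j) = c0 ∧ D N p q c (r j) ≠ 0 := by
  set U : Set ℝ := {c0 | 0 < c0} ∩ ⋂ j : Fin 9, {c0 | 0 < (-1) ^ (j : ℕ) * (c0 - G N p q c (T j))} with hU
  have hUo : IsOpen U := by
    refine (isOpen_lt continuous_const continuous_id).inter (isOpen_iInter_of_finite fun j => ?_)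
    exact isOpen_lt continuous_const (by fun_prop)
  have hU1 : (1 : ℝ) ∈ U := by
    refine ⟨by simp, mem_iInter.2 fun j => hs j (by omega)⟩
  have hpos := hUo.measure_ne_zero MeasureTheory.volume ⟨1, hU1⟩
  have : ¬ U ⊆ G N p q c '' {t | t ∈ Ioo (0 : ℝ) 1 ∧ D N p q c t = 0} := fun h =>
    hpos (MeasureTheory.measure_mono_null h (sard N p q c hN))
  obtain ⟨c0, hc0, hc1⟩ := Set.not_subset.1 this
  have hsg : ∀ j, j ≤ 8 → 0 < (-1) ^ j * (c0 - G N p q c (T j)) := fun j hj =>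
    mem_iInter.1 hc0.2 ⟨j, by omega⟩
  have ex : ∀ j : Fin 8, ∃ r ∈ Ioo (T j) (T (j + 1)), G N p q c r = c0 := by
    intro j
    have hj : (j : ℕ) < 8 := j.2
    have hc : ContinuousOn (G N p q c) (Icc (T j) (T (j + 1))) := fun t ht =>
      (G_deriv N p q c hN t (lt_of_lt_of_le (hI j (by omega)).1 ht.1)
        (lt_of_le_of_lt ht.2 (hI (j + 1) (by omega)).2)).continuousAt.continuousWithinAt
    have a := hsg j (by omega)
    have b := hsg (j + 1) (by omega)
    rcases neg_one_pow_eq_or ℝ j with h | h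
    · rw [pow_succ, h] at b
      rw [h] at a
      exact intermediate_value_Ioo (hT j hj).le hc ⟨by linarith, by linarith⟩
    · rw [pow_succ, h] at b
      rw [h] at a
      exact intermediate_value_Ioo' (hT j hj).le hc ⟨by linarith, by linarith⟩
  choose r hr hr' using ex
  have hmono : ∀ i j, i ≤ j → j ≤ 8 → T i ≤ T j := by
    intro i j hij hj
    induction hij with
    | refl => exact le_rfl
    | step h ih => exact (ih (by omega)).trans (hT _ (by omega)).le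
  have hsm : StrictMono r := by
    intro i j hij
    have hj : (j : ℕ) < 8 := j.2
    have : (i : ℕ) + 1 ≤ j := hij
    exact (hr i).2.trans_le ((hmono _ _ this (by omega)).trans (hr j).1.le)
  refine ⟨c0, hc0.1, r, hsm.injective, fun j => ?_⟩
  have hj : (j : ℕ) < 8 := j.2
  have hin : r j ∈ Ioo (0 : ℝ) 1 :=
    ⟨(hI j (by omega)).1.trans (hr j).1, (hr j).2.trans (hI (j + 1) (by omega)).2⟩
  exact ⟨hin, hr' j, fun h => hc1 ⟨r j, ⟨hin, h⟩, hr' j⟩⟩

noncomputable def mon (a : ℝ) (i j : ℕ) : MvPolynomial (Fin 2) ℝ := C a * X 0 ^ i * X 1 ^ j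

lemma mon_card (a : ℝ) (i j : ℕ) : (mon a i j).support.card ≤ 1 := by
  have : mon a i j = monomial (Finsupp.single 0 i + Finsupp.single 1 j) a := by
    unfold mon
    rw [X_pow_eq_monomial, X_pow_eq_monomial, C_mul_monomial, monomial_mul]
    simp
  rw [this]
  exact (Finset.card_le_card support_monomial_subset).trans (by simp)

lemma add_card (f g : MvPolynomial (Fin 2) ℝ) :
    (f + g).support.card ≤ f.support.card + g.support.card :=
  (Finset.card_le_card support_add).trans (Finset.card_union_le _ _)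

lemma mon_eval (a : ℝ) (i j : ℕ) (z : Fin 2 → ℝ) : eval z (mon a i j) = a * z 0 ^ i * z 1 ^ j := by
  simp [mon]

lemma mon_d0 (a : ℝ) (i j : ℕ) (z : Fin 2 → ℝ) :
    eval z (pderiv 0 (mon a i j)) = a * i * z 0 ^ (i - 1) * z 1 ^ j := by
  simp [mon, Derivation.leibniz, Derivation.leibniz_pow, pderiv_X]
  ring

lemma mon_d1 (a : ℝ) (i j : ℕ) (z : Fin 2 → ℝ) :
    eval z (pderiv 1 (mon a i j)) = a * j * z 0 ^ i * z 1 ^ (j - 1) := by
  simp [mon, Derivation.leibniz, Derivation.leibniz_pow, pderiv_X]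
  ring

noncomputable def ff (N : ℕ) : MvPolynomial (Fin 2) ℝ :=
  mon 1 (2 * N) 0 + mon 1 0 (2 * N) + mon (-1) 0 0

noncomputable def gg (p q : Fin 3 → ℕ) (c : Fin 3 → ℝ) (c0 : ℝ) : MvPolynomial (Fin 2) ℝ :=
  mon (c 0) (2 * p 0 + 1) (2 * q 0 + 1) + mon (c 1) (2 * p 1 + 1) (2 * q 1 + 1) +
    mon (c 2) (2 * p 2 + 1) (2 * q 2 + 1) + mon (-c0) 1 1

lemma ff_card (N : ℕ) : (ff N).support.card ≤ 3 := by
  unfold ff
  have a := add_card (mon 1 (2 * N) 0 + mon 1 0 (2 * N)) (mon (-1) 0 0)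
  have b := add_card (mon 1 (2 * N) 0) (mon 1 0 (2 * N))
  have := mon_card 1 (2 * N) 0
  have := mon_card 1 0 (2 * N)
  have := mon_card (-1) 0 0
  omega

lemma gg_card (p q : Fin 3 → ℕ) (c : Fin 3 → ℝ) (c0 : ℝ) : (gg p q c c0).support.card ≤ 4 := by
  unfold gg
  have a := add_card (mon (c 0) (2 * p 0 + 1) (2 * q 0 + 1) + mon (c 1) (2 * p 1 + 1) (2 * q 1 + 1) +
    mon (c 2) (2 * p 2 + 1) (2 * q 2 + 1)) (mon (-c0) 1 1)
  have b := add_card (mon (c 0) (2 * p 0 + 1) (2 * q 0 + 1) + mon (c 1) (2 * p 1 + 1) (2 * q 1 + 1))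
    (mon (c 2) (2 * p 2 + 1) (2 * q 2 + 1))
  have d := add_card (mon (c 0) (2 * p 0 + 1) (2 * q 0 + 1)) (mon (c 1) (2 * p 1 + 1) (2 * q 1 + 1))
  have := mon_card (c 0) (2 * p 0 + 1) (2 * q 0 + 1)
  have := mon_card (c 1) (2 * p 1 + 1) (2 * q 1 + 1)
  have := mon_card (c 2) (2 * p 2 + 1) (2 * q 2 + 1)
  have := mon_card (-c0) 1 1
  omega

def Sol (f g : MvPolynomial (Fin 2) ℝ) (z : Fin 2 → ℝ) : Prop :=
  eval z f = 0 ∧ eval z g = 0 ∧
    eval z (pderiv 0 f) * eval z (pderiv 1 g) - eval z (pderiv 1 f) * eval z (pderiv 0 g) ≠ 0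

lemma sol_axis (N : ℕ) (hN : 0 < N) (p q : Fin 3 → ℕ) (hp : ∀ k, 0 < p k) (hq : ∀ k, 0 < q k)
    (c : Fin 3 → ℝ) (c0 : ℝ) (hc : c0 ≠ 0) (s : ℝ) (hs : s ^ 2 = 1) :
    Sol (ff N) (gg p q c c0) ![s, 0] ∧ Sol (ff N) (gg p q c c0) ![0, s] := by
  have hs0 : s ≠ 0 := by rintro rfl; simp at hs
  have h1 : 2 * N ≠ 0 := by omega
  have h2 : 2 * N - 1 ≠ 0 := by omega
  have h3 : s ^ (2 * N) = 1 := by rw [pow_mul, hs, one_pow]
  have hp0 := (hp 0).ne'
  have hp1 := (hp 1).ne'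
  have hp2 := (hp 2).ne'
  have hq0 := (hq 0).ne'
  have hq1 := (hq 1).ne'
  have hq2 := (hq 2).ne'
  have hN' := hN.ne'
  unfold Sol ff gg
  simp only [map_add, mon_eval, mon_d0, mon_d1]
  simp [h1, h2, h3, hp0, hp1, hp2, hq0, hq1, hq2, hc, hs0, hN']

lemma sol_torus (N : ℕ) (hN : 0 < N) (p q : Fin 3 → ℕ) (c : Fin 3 → ℝ) (c0 t x y : ℝ)
    (hx : x ≠ 0) (hy : y ≠ 0) (h1 : x ^ (2 * N) = t) (h2 : y ^ (2 * N) = 1 - t)
    (h3 : ∀ a b : ℕ, x ^ (2 * a) * y ^ (2 * b) = Mk N a b t)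
    (hG : G N p q c t = c0) (hD : D N p q c t ≠ 0) :
    Sol (ff N) (gg p q c c0) ![x, y] := by
  obtain ⟨n, hn⟩ : ∃ n, 2 * N = n + 1 := ⟨2 * N - 1, by omega⟩
  have hN' : (N : ℝ) ≠ 0 := by positivity
  unfold G at hG
  unfold D at hD
  rw [Fin.sum_univ_three] at hG hD
  rw [← h3, ← h3, ← h3] at hG hD
  have hn' : (n : ℝ) + 1 = 2 * N := by exact_mod_cast hn.symm
  unfold Sol ff gg
  simp only [map_add, mon_eval, mon_d0, mon_d1]
  simp only [Matrix.cons_val_zero, Matrix.cons_val_one, Nat.add_sub_cancel, hn] at h1 h2 ⊢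
  refine ⟨by rw [h1, h2]; ring, ?_, ?_⟩
  · rw [← hG]; ring
  · intro h
    apply hD
    have h4 : (4 * N : ℝ) ≠ 0 := by positivity
    apply mul_left_cancel₀ h4
    rw [← h2, ← h1]
    push_cast at h
    rw [hn', ← hG] at h
    linear_combination (-1 : ℝ) * h

lemma main (N : ℕ) (hN : 0 < N) (p q : Fin 3 → ℕ) (hp : ∀ k, 0 < p k) (hq : ∀ k, 0 < q k)
    (c : Fin 3 → ℝ) (c0 : ℝ) (hc : 0 < c0) (r : Fin 8 → ℝ) (hr : Function.Injective r)
    (h : ∀ j, r j ∈ Ioo (0 : ℝ) 1 ∧ G N p q c (r j) = c0 ∧ D N p q c (r j) ≠ 0) :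
    ∃ S : Finset (Fin 2 → ℝ), S.card = 36 ∧ ∀ z ∈ S, Sol (ff N) (gg p q c c0) z := by
  classical
  have hN' : (N : ℝ) ≠ 0 := by positivity
  let x : Fin 8 → ℝ := fun j => Real.exp (Real.log (r j) / (2 * N))
  let y : Fin 8 → ℝ := fun j => Real.exp (Real.log (1 - r j) / (2 * N))
  have xp : ∀ j, 0 < x j := fun j => Real.exp_pos _
  have yp : ∀ j, 0 < y j := fun j => Real.exp_pos _
  have h3 : ∀ j, ∀ a b : ℕ, x j ^ (2 * a) * y j ^ (2 * b) = Mk N a b (r j) := by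
    intro j a b
    simp only [x, y, Mk]
    rw [← Real.exp_nat_mul, ← Real.exp_nat_mul, ← Real.exp_add]
    congr 1
    push_cast
    field_simp
  have h1 : ∀ j, x j ^ (2 * N) = r j := by
    intro j
    simp only [x]
    rw [← Real.exp_nat_mul]
    conv_rhs => rw [← Real.exp_log (h j).1.1]
    congr 1
    push_cast
    field_simp
  have h2 : ∀ j, y j ^ (2 * N) = 1 - r j := by
    intro j
    simp only [y]
    rw [← Real.exp_nat_mul]
    conv_rhs => rw [← Real.exp_log (sub_pos.2 (h j).1.2)]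
    congr 1
    push_cast
    field_simp
  let sg : Bool → ℝ := fun b => if b then 1 else -1
  have sg2 : ∀ b (u : ℝ) (a : ℕ), (sg b * u) ^ (2 * a) = u ^ (2 * a) := by
    intro b u a
    cases b <;> simp [sg]
  have sg0 : ∀ b, sg b ≠ 0 := by intro b; cases b <;> simp [sg]
  have sgi : ∀ b b' (u v : ℝ), 0 < u → 0 < v → sg b * u = sg b' * v → b = b' := by
    intro b b' u v hu hv e
    cases b <;> cases b' <;> simp [sg] at e ⊢ <;> linarith
  let P : Fin 8 × Bool × Bool → Fin 2 → ℝ := fun w => ![sg w.2.1 * x w.1, sg w.2.2 * y w.1]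
  have hP : Function.Injective P := by
    rintro ⟨j, a, b⟩ ⟨j', a', b'⟩ e
    have e0 : sg a * x j = sg a' * x j' := congrFun e 0
    have e1 : sg b * y j = sg b' * y j' := congrFun e 1
    have : r j = r j' := by rw [← h1 j, ← h1 j', ← sg2 a, ← sg2 a' (x j'), e0]
    rw [hr this, sgi _ _ _ _ (xp _) (xp _) e0, sgi _ _ _ _ (yp _) (yp _) e1]
  let Q : Bool × Bool → Fin 2 → ℝ := fun w => if w.1 then ![sg w.2, 0] else ![0, sg w.2]
  have hQ : Function.Injective Q := by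
    rintro ⟨a, b⟩ ⟨a', b'⟩ e
    have e0 := congrFun e 0
    have e1 := congrFun e 1
    cases a <;> cases b <;> cases a' <;> cases b' <;> simp [Q, sg] at e0 e1 ⊢ <;> linarith
  refine ⟨Finset.univ.image P ∪ Finset.univ.image Q, ?_, ?_⟩
  · rw [Finset.card_union_of_disjoint, Finset.card_image_of_injective _ hP,
      Finset.card_image_of_injective _ hQ]
    · simp
    · rw [Finset.disjoint_left]
      intro z hz hz'
      obtain ⟨⟨j, a, b⟩, -, rfl⟩ := Finset.mem_image.1 hz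
      obtain ⟨⟨a', b'⟩, -, e⟩ := Finset.mem_image.1 hz'
      have e0 := congrFun e 0
      have e1 := congrFun e 1
      have u := mul_ne_zero (sg0 a) (xp j).ne'
      have v := mul_ne_zero (sg0 b) (yp j).ne'
      cases a'
      · exact u e0.symm
      · exact v e1.symm
  · intro z hz
    rcases Finset.mem_union.1 hz with hz | hz
    · obtain ⟨⟨j, a, b⟩, -, rfl⟩ := Finset.mem_image.1 hz
      refine sol_torus N hN p q c c0 (r j) _ _ (mul_ne_zero (sg0 a) (xp j).ne')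
        (mul_ne_zero (sg0 b) (yp j).ne') ?_ ?_ ?_ (h j).2.1 (h j).2.2
      · rw [sg2, h1]
      · rw [sg2, h2]
      · intro u v
        rw [sg2, sg2, h3]
    · obtain ⟨⟨a, b⟩, -, rfl⟩ := Finset.mem_image.1 hz
      have := sol_axis N hN p q hp hq c c0 hc.ne' (sg b) (by cases b <;> simp [sg])
      cases a
      · exact this.2
      · exact this.1

noncomputable def H (t : ℝ) : ℝ :=
  t ^ 2 * (17632 + (499482 * Real.log t + 3106 * Real.log (1 - t))) +
    2 * t * (1 - t) * (437053 + (76836 * Real.log t + 76836 * Real.log (1 - t))) +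
    (1 - t) ^ 2 * (17632 + (3106 * Real.log t + 499482 * Real.log (1 - t)))

def pp (N : ℕ) : Fin 3 → ℕ := ![2 * N + 499482, N + 76836, 3106]
def qq (N : ℕ) : Fin 3 → ℕ := ![3106, N + 76836, 2 * N + 499482]
noncomputable def cc (N : ℕ) : Fin 3 → ℝ := ![1 + 17632 / N, 2 * (1 + 437053 / N), 1 + 17632 / N]

lemma pert (t s : ℝ) (h0 : 0 < t) (h1 : t < 1) (hs : 0 < s * -H t) :
    ∀ᶠ N : ℕ in atTop, 0 < s * (1 - G N (pp N) (qq N) (cc N) t) := by
  set a := Real.log t with ha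
  set b := Real.log (1 - t) with hb
  let φ : ℝ → ℝ := fun e => s * (1 - (t ^ 2 * ((1 + 17632 * e) * Real.exp ((499482 * a + 3106 * b) * e)) +
    2 * t * (1 - t) * ((1 + 437053 * e) * Real.exp ((76836 * a + 76836 * b) * e)) +
    (1 - t) ^ 2 * ((1 + 17632 * e) * Real.exp ((3106 * a + 499482 * b) * e))))
  have key : ∀ g L : ℝ, HasDerivAt (fun e : ℝ => (1 + g * e) * Real.exp (L * e)) (g + L) 0 := by
    intro g L
    have u := (((hasDerivAt_id (0 : ℝ)).const_mul g).const_add 1).mul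
      ((hasDerivAt_id (0 : ℝ)).const_mul L).exp
    simp only [id, mul_zero, Real.exp_zero, mul_one, add_zero, one_mul] at u
    exact u
  have hd : HasDerivAt φ (s * -H t) 0 :=
    ((((((key _ _).const_mul _).add ((key _ _).const_mul _)).add
      ((key _ _).const_mul _))).const_sub 1).const_mul s
  have h2 : φ 0 = 0 := by
    simp only [φ, mul_zero, Real.exp_zero]
    ring
  have h3 := hd.tendsto_slope_zero_right
  have h4 : Tendsto (fun N : ℕ => ((N : ℝ))⁻¹) atTop (𝓝[>] 0) :=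
    tendsto_inv_atTop_nhdsGT_zero.comp tendsto_natCast_atTop_atTop
  have h5 := (h3.comp h4).eventually (lt_mem_nhds hs)
  filter_upwards [h5, eventually_gt_atTop 0] with N hN hN0
  have hN' : (0 : ℝ) < N := by exact_mod_cast hN0
  simp only [Function.comp, zero_add, h2, sub_zero, inv_inv, smul_eq_mul] at hN
  have h6 : 0 < φ (N : ℝ)⁻¹ := (pos_iff_pos_of_mul_pos hN).1 hN'
  have ea : Real.exp a = t := Real.exp_log h0
  have eb : Real.exp b = 1 - t := Real.exp_log (by linarith)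
  have e0 : Mk N (2 * N + 499482) 3106 t = t ^ 2 * Real.exp ((499482 * a + 3106 * b) * (N : ℝ)⁻¹) := by
    conv_rhs => rw [← ea, ← Real.exp_nat_mul, ← Real.exp_add]
    unfold Mk
    rw [← ha, ← hb]
    congr 1
    push_cast
    field_simp
    ring
  have e1 : Mk N (N + 76836) (N + 76836) t =
      t * (1 - t) * Real.exp ((76836 * a + 76836 * b) * (N : ℝ)⁻¹) := by
    conv_rhs => rw [← eb, ← ea, ← Real.exp_add, ← Real.exp_add]
    unfold Mk
    rw [← ha, ← hb]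
    congr 1
    push_cast
    field_simp
  have e2 : Mk N 3106 (2 * N + 499482) t =
      (1 - t) ^ 2 * Real.exp ((3106 * a + 499482 * b) * (N : ℝ)⁻¹) := by
    conv_rhs => rw [← eb, ← Real.exp_nat_mul, ← Real.exp_add]
    unfold Mk
    rw [← ha, ← hb]
    congr 1
    push_cast
    field_simp
    ring
  have e : s * (1 - G N (pp N) (qq N) (cc N) t) = φ (N : ℝ)⁻¹ := by
    simp only [G, Fin.sum_univ_three, pp, qq, cc, φ, Matrix.cons_val_zero, Matrix.cons_val_one,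
      Matrix.cons_val_two, Matrix.head_cons, Matrix.tail_cons]
    rw [e0, e1, e2]
    ring
  rw [e]
  exact h6

lemma lg (x : ℝ) (a b c : ℤ) (h : x = 2 ^ a * 3 ^ b * 5 ^ c) :
    Real.log x = a * Real.log 2 + b * Real.log 3 + c * Real.log 5 := by
  rw [h, Real.log_mul (by positivity) (by positivity), Real.log_mul (by positivity) (by positivity),
    Real.log_zpow, Real.log_zpow, Real.log_zpow]

lemma H_symm (t : ℝ) : H (1 - t) = H t := by
  unfold H
  rw [sub_sub_cancel]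
  ring

lemma signs : H (1 / 81) < 0 ∧ 0 < H (3 / 128) ∧ H (1 / 10) < 0 ∧ 0 < H (1 / 4) ∧ H (1 / 2) < 0 := by
  have := Real.log_two_gt_d9
  have := Real.log_two_lt_d9
  have := Real.log_three_gt_d9
  have := Real.log_three_lt_d9
  have := Real.log_five_gt_d9
  have := Real.log_five_lt_d9
  unfold H
  rw [lg (1 / 81) 0 (-4) 0 (by norm_num), lg (1 - 1 / 81) 4 (-4) 1 (by norm_num),
    lg (3 / 128) (-7) 1 0 (by norm_num), lg (1 - 3 / 128) (-7) 0 3 (by norm_num),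
    lg (1 / 10) (-1) 0 (-1) (by norm_num), lg (1 - 1 / 10) (-1) 2 (-1) (by norm_num),
    lg (1 / 4) (-2) 0 0 (by norm_num), lg (1 - 1 / 4) (-2) 1 0 (by norm_num),
    lg (1 / 2) (-1) 0 0 (by norm_num), lg (1 - 1 / 2) (-1) 0 0 (by norm_num)]
  push_cast
  refine ⟨?_, ?_, ?_, ?_, ?_⟩ <;> linarith

noncomputable def TT : ℕ → ℝ
  | 0 => 1 / 81
  | 1 => 3 / 128
  | 2 => 1 / 10
  | 3 => 1 / 4
  | 4 => 1 / 2
  | 5 => 1 - 1 / 4
  | 6 => 1 - 1 / 10
  | 7 => 1 - 3 / 128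
  | _ => 1 - 1 / 81

lemma final : ∃ f g : MvPolynomial (Fin 2) ℝ, f.support.card ≤ 3 ∧ g.support.card ≤ 4 ∧
    ∃ S : Finset (Fin 2 → ℝ), S.card = 36 ∧ ∀ z ∈ S, Sol f g z := by
  have hT : ∀ j, j < 8 → TT j < TT (j + 1) := by
    intro j hj
    interval_cases j <;> simp only [TT] <;> norm_num
  have hI : ∀ j, j ≤ 8 → TT j ∈ Ioo (0 : ℝ) 1 := by
    intro j hj
    interval_cases j <;> simp only [TT] <;> norm_num
  have hs : ∀ j, j ≤ 8 → 0 < (-1) ^ j * -H (TT j) := by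
    intro j hj
    obtain ⟨a, b, c, d, e⟩ := signs
    interval_cases j <;> simp only [TT, H_symm] <;> linarith
  have ev : ∀ᶠ N : ℕ in atTop, ∀ j : Fin 9, 0 < (-1) ^ (j : ℕ) * (1 - G N (pp N) (qq N) (cc N) (TT j)) :=
    eventually_all.2 fun j => pert _ _ (hI j (by omega)).1 (hI j (by omega)).2 (hs j (by omega))
  obtain ⟨N, hN, hN0⟩ := (ev.and (eventually_gt_atTop 0)).exists
  obtain ⟨c0, hc0, r, hr, h⟩ := roots N (pp N) (qq N) (cc N) hN0 TT hT hI
    (fun j hj => hN ⟨j, by omega⟩)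
  refine ⟨ff N, gg (pp N) (qq N) (cc N) c0, ff_card _, gg_card _ _ _ _, ?_⟩
  refine main N hN0 _ _ ?_ ?_ _ _ hc0 r hr h
  · intro k; fin_cases k <;> simp [pp]
  · intro k; fin_cases k <;> simp [qq]

/-- The negation of the preceding statement: Any real system f(x,y)=g(x,y)=0, with f having m₁ and g having m₂ monomials, has at most (2m₁−1)(2m₂−1) real solutions with nonzero Jacobian, and this number is attained for all m₁, m₂ ≥ 1.
Counterexample: a trinomial and a 4-nomial with 36 > 35 simple real solutions (8 in each open quadrant, 4 on the axes). -/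
theorem result :
    ¬ ((∀ (f g : MvPolynomial (Fin 2) ℝ) (S : Finset (Fin 2 → ℝ)),
      (∀ p ∈ S, MvPolynomial.eval p f = 0 ∧ MvPolynomial.eval p g = 0 ∧
        MvPolynomial.eval p (MvPolynomial.pderiv 0 f) * MvPolynomial.eval p (MvPolynomial.pderiv 1 g) -
          MvPolynomial.eval p (MvPolynomial.pderiv 1 f) * MvPolynomial.eval p (MvPolynomial.pderiv 0 g) ≠ 0) →
      S.card ≤ (2 * f.support.card - 1) * (2 * g.support.card - 1)) ∧
    (∀ m₁ m₂ : ℕ, 1 ≤ m₁ → 1 ≤ m₂ →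
      ∃ f g : MvPolynomial (Fin 2) ℝ, f.support.card = m₁ ∧ g.support.card = m₂ ∧
        ∃ S : Finset (Fin 2 → ℝ), S.card = (2 * m₁ - 1) * (2 * m₂ - 1) ∧
          ∀ p ∈ S, MvPolynomial.eval p f = 0 ∧ MvPolynomial.eval p g = 0 ∧
            MvPolynomial.eval p (MvPolynomial.pderiv 0 f) * MvPolynomial.eval p (MvPolynomial.pderiv 1 g) -
              MvPolynomial.eval p (MvPolynomial.pderiv 1 f) * MvPolynomial.eval p (MvPolynomial.pderiv 0 g) ≠ 0)) := by
  rintro ⟨h, -⟩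
  obtain ⟨f, g, hf, hg, S, hS, hs⟩ := final
  have h1 := h f g S hs
  have h2 : (2 * f.support.card - 1) * (2 * g.support.card - 1) ≤ 5 * 7 :=
    Nat.mul_le_mul (by omega) (by omega)
  omega

end Pool.Agent.S00046
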