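import Pool.Statements.S00062
import Pool.Agent.Lib.helper5.Stair2

set_option autoImplicit false
open Pool Pool.MP_1cfa24_ag

namespace Pool.Agent.S00062

/-- The negation of the preceding statement: For a homogeneous ideal Q of a polynomial ring over a field: if pd Q = 1 and pd Q^t = 1 for all large t, then pd Q^t = 1 for every t ≥ 1 (pd = 1 means a finite free cover with projective kernel exists and the module is not projective). -/
theorem result :
    ¬ (∀ (k : Type) [Field k] (n : ℕ) (Q : Ideal (MvPolynomial (Fin n) k)),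
      (∃ s : Set (MvPolynomial (Fin n) k),
          (∀ p ∈ s, ∃ d : ℕ, MvPolynomial.IsHomogeneous p d) ∧ Q = Ideal.span s) →
      ((∃ (m : ℕ) (f : (Fin m → MvPolynomial (Fin n) k) →ₗ[MvPolynomial (Fin n) k] ↥Q),
            Function.Surjective f ∧
              Module.Projective (MvPolynomial (Fin n) k) ↥(LinearMap.ker f)) ∧
          ¬ Module.Projective (MvPolynomial (Fin n) k) ↥Q) →
      (∃ t₀ : ℕ, ∀ t : ℕ, t₀ ≤ t →
          (∃ (m : ℕ) (f : (Fin m → MvPolynomial (Fin n) k) →ₗ[MvPolynomial (Fin n) k] ↥(Q ^ t)),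
              Function.Surjective f ∧
                Module.Projective (MvPolynomial (Fin n) k) ↥(LinearMap.ker f)) ∧
            ¬ Module.Projective (MvPolynomial (Fin n) k) ↥(Q ^ t)) →
      ∀ t : ℕ, 1 ≤ t →
        (∃ (m : ℕ) (f : (Fin m → MvPolynomial (Fin n) k) →ₗ[MvPolynomial (Fin n) k] ↥(Q ^ t)),
            Function.Surjective f ∧
              Module.Projective (MvPolynomial (Fin n) k) ↥(LinearMap.ker f)) ∧
          ¬ Module.Projective (MvPolynomial (Fin n) k) ↥(Q ^ t)) := by
  intro h
  exact H5S.two (h ℚ 3 H5S.Q H5S.homog H5S.one ⟨3, H5S.big⟩ 2 (by norm_num)).1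

end Pool.Agent.S00062
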