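import Pool.Statements.S00164
-- import your own Pool.Agent.* helpers here

set_option autoImplicit false
open Pool Pool.MP_450528_ag

namespace Pool.Agent.S00164

open Polynomial in
/-- the univariate polynomial whose roots parametrise the critical points -/
noncomputable def G {R : Type} [CommRing R] (E B D : R) : R[X] :=
  26 * (2 * X ^ 2 - 2 * X + 1) ^ 2 * (2 * X - 1 - C D) + C E * X * (X - 1) + C B * (2 * X - 1)

theorem G_map {R S : Type} [CommRing R] [CommRing S] (φ : R →+* S) (E B D : R) :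
    (G E B D).map φ = G (φ E) (φ B) (φ D) := by
  simp [G, Polynomial.map_mul, Polynomial.map_add, Polynomial.map_sub, Polynomial.map_pow]

theorem G_eval (E B D s : ℂ) : (G E B D).eval s =
    26 * (2 * s ^ 2 - 2 * s + 1) ^ 2 * (2 * s - 1 - D) + E * s * (s - 1) + B * (2 * s - 1) := by
  simp [G]

theorem G_deg (E B D : ℂ) : (G E B D).natDegree = 5 := by
  unfold G
  compute_degree!

theorem G'_deg (E B D : ℂ) : (Polynomial.derivative (G E B D)).natDegree = 4 := by
  rw [Polynomial.natDegree_derivative, G_deg]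

noncomputable def Res {R : Type} [CommRing R] (E B D : R) : R :=
  Polynomial.resultant (G E B D) (Polynomial.derivative (G E B D)) 5 4

theorem Res_map {R S : Type} [CommRing R] [CommRing S] (φ : R →+* S) (E B D : R) :
    φ (Res E B D) = Res (φ E) (φ B) (φ D) := by
  unfold Res
  rw [← Polynomial.resultant_map_map, ← Polynomial.derivative_map, G_map]

theorem Res_ne_iff (E B D : ℂ) : Res E B D ≠ 0 ↔ (G E B D).Separable := by
  have h : Res E B D = Polynomial.resultant (G E B D) (Polynomial.derivative (G E B D)) := by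
    unfold Res; rw [G_deg, G'_deg]
  have h0 : G E B D ≠ 0 := by
    intro h; have := G_deg E B D; rw [h] at this; simp at this
  rw [h, Ne, Polynomial.resultant_eq_zero_iff, Polynomial.separable_def]
  simp [h0]

theorem roots_card (E B D : ℂ) (h : (G E B D).Separable) :
    {s : ℂ | (G E B D).eval s = 0}.Finite ∧ {s : ℂ | (G E B D).eval s = 0}.ncard = 5 := by
  have h0 : G E B D ≠ 0 := h.ne_zero
  have e : {s : ℂ | (G E B D).eval s = 0} = (G E B D).rootSet ℂ := by
    ext s; simp [Polynomial.mem_rootSet, h0]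
  rw [e]
  refine ⟨Polynomial.rootSet_finite _ _, ?_⟩
  have := Polynomial.card_rootSet_eq_natDegree (K := ℂ) h (IsAlgClosed.splits _)
  rw [G_deg] at this
  rw [← this, Set.ncard_eq_toFinset_card', Set.toFinset_card]

theorem sep0 : (G (650 : ℂ) 0 1).Separable := by
  rw [Polynomial.separable_def]
  refine ⟨Polynomial.C (1 / (26 * 5595075)) * (920940 - 5577632 * Polynomial.X + 4946872 * Polynomial.X ^ 2
      - 2023280 * Polynomial.X ^ 3),
    Polynomial.C (1 / (26 * 5595075)) * (-495797 - 243362 * Polynomial.X + 1773896 * Polynomial.X ^ 2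
      - 1232168 * Polynomial.X ^ 3 + 404656 * Polynomial.X ^ 4), ?_⟩
  apply Polynomial.funext
  intro s
  simp [G, Polynomial.derivative_sq]
  ring

section curried
variable {R : Type} [CommRing R]

def ρ (t : Fin 2 → Fin 26 → R) (i : Fin 2) (j : Fin 26) : R := 26 * t i j - ∑ l, t i l
def EE (t : Fin 2 → Fin 26 → R) : R := ∑ j, (ρ t 0 j ^ 2 - ρ t 1 j ^ 2)
def BB (t : Fin 2 → Fin 26 → R) : R := ∑ j, ρ t 0 j * ρ t 1 j
def DD (t : Fin 2 → Fin 26 → R) : R := ∑ j, (t 0 j - t 1 j)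

theorem sum_ρ (t : Fin 2 → Fin 26 → R) (i : Fin 2) : ∑ j, ρ t i j = 0 := by
  simp [ρ, Finset.sum_sub_distrib, ← Finset.mul_sum]
end curried

def q (s : ℂ) : ℂ := 2 * s ^ 2 - 2 * s + 1
def w (t : Fin 2 → Fin 26 → ℂ) (s : ℂ) (j : Fin 26) : ℂ := s * ρ t 0 j + (1 - s) * ρ t 1 j

theorem sum_w (t : Fin 2 → Fin 26 → ℂ) (s : ℂ) : ∑ j, w t s j = 0 := by
  simp [w, Finset.sum_add_distrib, ← Finset.mul_sum, sum_ρ]

theorem key_id (t : Fin 2 → Fin 26 → ℂ) (s : ℂ) :
    (2 * s - 1) * ∑ j, w t s j ^ 2 - q s * ∑ j, (ρ t 0 j - ρ t 1 j) * w t s j =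
      EE t * s * (s - 1) + BB t * (2 * s - 1) := by
  simp only [EE, BB, Finset.mul_sum, Finset.sum_mul, ← Finset.sum_sub_distrib, ← Finset.sum_add_distrib]
  refine Finset.sum_congr rfl fun j _ => ?_
  simp only [w, q]; ring

def CritC (t x : Fin 2 → Fin 26 → ℂ) : Prop :=
  (∑ i, ∑ j, x i j) = 1 ∧ ∃ (a : Fin 2 → ℂ) (b : Fin 26 → ℂ), (∀ i j, x i j = a i * b j) ∧
    ∀ (u : Fin 2 → ℂ) (v : Fin 26 → ℂ), (∑ i, ∑ j, (u i * b j + v j * a i)) = 0 →
      (∑ i, ∑ j, (x i j - t i j) * (u i * b j + v j * a i)) = 0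

theorem critC_norm (t x : Fin 2 → Fin 26 → ℂ) : CritC t x ↔
    ∃ (s : ℂ) (b : Fin 26 → ℂ), ∑ j, b j = 1 ∧ (∀ j, x 0 j = s * b j) ∧ (∀ j, x 1 j = (1 - s) * b j) ∧
      (2 * s - 1) * ∑ j, b j ^ 2 = ∑ j, (t 0 j - t 1 j) * b j ∧
      ∀ j, 26 * q s * b j = q s + w t s j := by
  constructor
  · rintro ⟨h1, a, b, hx, h⟩
    have hab : (a 0 + a 1) * ∑ j, b j = 1 := by
      rw [← h1]; simp [hx, Fin.sum_univ_two, ← Finset.mul_sum]; ring
    set α := a 0 + a 1 with hα
    set β := ∑ j, b j with hβ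
    have hs : 1 - a 0 * β = a 1 * β := by linear_combination -hab
    refine ⟨a 0 * β, fun j => α * b j, by rw [← Finset.mul_sum, hab], fun j => ?_, fun j => ?_, ?_, fun j => ?_⟩
    · rw [hx]; linear_combination (-(a 0) * b j) * hab
    · rw [hx, hs]; linear_combination (-(a 1) * b j) * hab
    · have := h ![1, -1] 0 (by simp [Fin.sum_univ_two])
      simp only [Fin.sum_univ_two, hx, Matrix.cons_val_zero, Matrix.cons_val_one, Pi.zero_apply,
        ← Finset.sum_add_distrib] at this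
      have e : ∑ j, ((a 0 - a 1) * b j ^ 2 - (t 0 j - t 1 j) * b j) = 0 := by
        rw [← this]; exact Finset.sum_congr rfl fun j _ => by ring
      rw [Finset.sum_sub_distrib, ← Finset.mul_sum] at e
      have e1 : ∑ j, (α * b j) ^ 2 = α ^ 2 * ∑ j, b j ^ 2 := by
        rw [Finset.mul_sum]; exact Finset.sum_congr rfl fun j _ => by ring
      have e2 : ∑ j, (t 0 j - t 1 j) * (α * b j) = α * ∑ j, (t 0 j - t 1 j) * b j := by
        rw [Finset.mul_sum]; exact Finset.sum_congr rfl fun j _ => by ring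
      rw [e1, e2]
      have : 2 * (a 0 * β) - 1 = (a 0 - a 1) * β := by linear_combination hab
      rw [this]
      linear_combination α * e + (a 0 - a 1) * α * (∑ j, b j ^ 2) * hab
    · have := h 0 (fun l => 26 * (if l = j then 1 else 0) - 1) (by
        simp [Fin.sum_univ_two, ← Finset.sum_mul, Finset.sum_sub_distrib])
      simp only [Fin.sum_univ_two, hx, Pi.zero_apply, ← Finset.sum_add_distrib] at this
      have e : ∑ l, ((if l = j then 26 * ((a 0 ^ 2 + a 1 ^ 2) * b l - a 0 * t 0 l - a 1 * t 1 l) else 0)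
          - ((a 0 ^ 2 + a 1 ^ 2) * b l - a 0 * t 0 l - a 1 * t 1 l)) = 0 := by
        refine Eq.trans (Finset.sum_congr rfl fun l _ => ?_) this
        split_ifs <;> ring
      simp only [Finset.sum_sub_distrib, Finset.sum_ite_eq', Finset.mem_univ, if_true,
        ← Finset.mul_sum, ← hβ] at e
      have hq : q (a 0 * β) = (a 0 ^ 2 + a 1 ^ 2) * β ^ 2 := by
        unfold q; linear_combination (a 0 * β - a 1 * β - 1) * hab
      simp only [w, ρ, hs, hq]
      linear_combination β * e + 26 * (a 0 ^ 2 + a 1 ^ 2) * β * b j * hab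
  · rintro ⟨s, b, hb, h0, h1, e1, e2⟩
    refine ⟨?_, ![s, 1 - s], b, ?_, fun u v huv => ?_⟩
    · simp [Fin.sum_univ_two, h0, h1, ← Finset.mul_sum, hb]
    · intro i j; fin_cases i
      · simpa using h0 j
      · simpa using h1 j
    · simp only [Fin.sum_univ_two, h0, h1, Matrix.cons_val_zero, Matrix.cons_val_one,
        Finset.sum_add_distrib, ← Finset.mul_sum, ← Finset.sum_mul, hb] at huv ⊢
      set μ := (q s - s * ∑ l, t 0 l - (1 - s) * ∑ l, t 1 l) / 26 with hμ
      have hZ : ∀ j, q s * b j - s * t 0 j - (1 - s) * t 1 j = μ := by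
        intro j; have := e2 j; simp only [w, ρ] at this; rw [hμ]; linear_combination this / 26
      have hY : q s * ∑ j, b j ^ 2 - s * ∑ j, t 0 j * b j - (1 - s) * ∑ j, t 1 j * b j = μ := by
        have : ∑ j, b j * μ = μ := by rw [← Finset.sum_mul, hb, one_mul]
        rw [← this]
        simp only [Finset.mul_sum, ← Finset.sum_sub_distrib]
        exact Finset.sum_congr rfl fun j _ => by rw [← hZ j]; ring
      have e1' : (2 * s - 1) * ∑ j, b j ^ 2 = ∑ j, t 0 j * b j - ∑ j, t 1 j * b j := by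
        rw [e1, ← Finset.sum_sub_distrib]; exact Finset.sum_congr rfl fun j _ => by ring
      have f : ∑ j, (s * b j - t 0 j) * (u 0 * b j + v j * s) +
          ∑ j, ((1 - s) * b j - t 1 j) * (u 1 * b j + v j * (1 - s)) =
          u 0 * (s * ∑ j, b j ^ 2 - ∑ j, t 0 j * b j) + u 1 * ((1 - s) * ∑ j, b j ^ 2 - ∑ j, t 1 j * b j)
            + (∑ j, v j) * μ := by
        simp only [Finset.mul_sum, Finset.sum_mul, ← Finset.sum_sub_distrib, ← Finset.sum_add_distrib]
        exact Finset.sum_congr rfl fun j _ => by rw [← hZ j]; unfold q; ring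
      rw [f]
      unfold q at hY
      linear_combination (u 0 + u 1) * hY + μ * huv + (u 0 * (1 - s) - u 1 * s) * e1'

noncomputable def pt (t : Fin 2 → Fin 26 → ℂ) (s : ℂ) : Fin 2 → Fin 26 → ℂ :=
  fun i j => ![s, 1 - s] i * ((q s + w t s j) / (26 * q s))

theorem deg_aux {E B s : ℂ} (hq : q s = 0) (h : E * s * (s - 1) + B * (2 * s - 1) = 0) :
    E ^ 2 + 4 * B ^ 2 = 0 := by
  unfold q at hq
  have h1 : E = 2 * B * (2 * s - 1) := by linear_combination (-2) * h + E * hq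
  rw [h1]; linear_combination 8 * B ^ 2 * hq

theorem eq1_iff (t : Fin 2 → Fin 26 → ℂ) (s : ℂ) (hq : q s ≠ 0) (b : Fin 26 → ℂ)
    (hb : ∀ j, 26 * q s * b j = q s + w t s j) :
    ∑ j, b j = 1 ∧ (676 * q s ^ 2 * ((2 * s - 1) * ∑ j, b j ^ 2 - ∑ j, (t 0 j - t 1 j) * b j) =
      (G (EE t) (BB t) (DD t)).eval s) := by
  have hw := sum_w t s
  constructor
  · have : 26 * q s * ∑ j, b j = 26 * q s := by
      rw [Finset.mul_sum, Finset.sum_congr rfl fun j _ => hb j, Finset.sum_add_distrib, hw]; simp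
    have h26 : (26 * q s) ≠ 0 := by simp [hq]
    exact mul_left_cancel₀ h26 (by rw [this, mul_one])
  · have a1 : 676 * q s ^ 2 * ∑ j, b j ^ 2 = 26 * q s ^ 2 + ∑ j, w t s j ^ 2 := by
      have : ∑ j, (q s + w t s j) ^ 2 = 26 * q s ^ 2 + 2 * q s * ∑ j, w t s j + ∑ j, w t s j ^ 2 := by
        have : ∀ j, (q s + w t s j) ^ 2 = q s ^ 2 + 2 * q s * w t s j + w t s j ^ 2 := fun j => by ring
        simp only [this, Finset.sum_add_distrib, ← Finset.mul_sum]; simp
      rw [hw] at this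
      rw [Finset.mul_sum, ← sub_eq_zero]
      have e : ∑ j, 676 * q s ^ 2 * b j ^ 2 = ∑ j, (q s + w t s j) ^ 2 :=
        Finset.sum_congr rfl fun j _ => by rw [← hb j]; ring
      rw [e, this]; ring
    have a2 : 676 * q s * ∑ j, (t 0 j - t 1 j) * b j =
        26 * q s * DD t + ∑ j, (ρ t 0 j - ρ t 1 j) * w t s j := by
      have e : 676 * q s * ∑ j, (t 0 j - t 1 j) * b j =
          ∑ j, (26 * q s * (t 0 j - t 1 j) + ((ρ t 0 j - ρ t 1 j) * w t s j
            + (∑ l, t 0 l - ∑ l, t 1 l) * w t s j)) := by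
        rw [Finset.mul_sum]
        refine Finset.sum_congr rfl fun j _ => ?_
        have := hb j
        simp only [ρ]
        linear_combination 26 * (t 0 j - t 1 j) * this
      rw [e]
      simp only [Finset.sum_add_distrib, ← Finset.mul_sum, hw, DD]; ring
    have a3 := key_id t s
    rw [G_eval]
    unfold q at *
    linear_combination (2 * s - 1) * a1 - (2 * s ^ 2 - 2 * s + 1) * a2 + a3

theorem critC_iff (t x : Fin 2 → Fin 26 → ℂ) (h : EE t ^ 2 + 4 * BB t ^ 2 ≠ 0) :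
    CritC t x ↔ ∃ s, (G (EE t) (BB t) (DD t)).eval s = 0 ∧ pt t s = x := by
  rw [critC_norm]
  constructor
  · rintro ⟨s, b, hb, h0, h1, e1, e2⟩
    have hq : q s ≠ 0 := by
      intro hq
      apply h
      refine deg_aux hq ?_
      have hw : ∀ j, w t s j = 0 := fun j => by have := e2 j; rw [hq] at this; linear_combination -this
      rw [← key_id]; simp [hw]
    refine ⟨s, ?_, ?_⟩
    · rw [← (eq1_iff t s hq b e2).2, e1]; ring
    · funext i j
      have : (q s + w t s j) / (26 * q s) = b j := by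
        rw [← e2 j]; field_simp
      fin_cases i
      · simp [pt, this, h0]
      · simp [pt, this, h1]
  · rintro ⟨s, hs, rfl⟩
    have hq : q s ≠ 0 := by
      intro hq
      apply h
      refine deg_aux hq ?_
      rw [G_eval] at hs
      unfold q at hq
      rw [hq] at hs
      linear_combination hs
    have e2 : ∀ j, 26 * q s * ((q s + w t s j) / (26 * q s)) = q s + w t s j := fun j => by field_simp
    obtain ⟨k1, k2⟩ := eq1_iff t s hq _ e2
    refine ⟨s, _, k1, fun j => by simp [pt], fun j => by simp [pt], ?_, e2⟩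
    rw [hs] at k2
    have : (676 * q s ^ 2) ≠ 0 := by simp [hq]
    exact sub_eq_zero.1 ((mul_eq_zero.1 k2).resolve_left this)

theorem pt_inj (t : Fin 2 → Fin 26 → ℂ) (h : EE t ^ 2 + 4 * BB t ^ 2 ≠ 0) (s : ℂ)
    (hs : (G (EE t) (BB t) (DD t)).eval s = 0) : ∑ j, pt t s 0 j = s := by
  have hq : q s ≠ 0 := by
    intro hq
    apply h
    refine deg_aux hq ?_
    rw [G_eval] at hs
    unfold q at hq
    rw [hq] at hs
    linear_combination hs
  have e2 : ∀ j, 26 * q s * ((q s + w t s j) / (26 * q s)) = q s + w t s j := fun j => by field_simp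
  have k1 := (eq1_iff t s hq _ e2).1
  simp only [pt, Matrix.cons_val_zero, ← Finset.mul_sum, k1, mul_one]

def m : Fin 2 → ℕ := ![2, 26]

abbrev Idx : Type := (k : Fin 2) → Fin (m k)

def mk (i : Fin 2) (j : Fin 26) : Idx := (piFinTwoEquiv (fun k => Fin (m k))).symm (i, j)

theorem mk_surj (I : Idx) : mk (I 0) (I 1) = I := (piFinTwoEquiv (fun k => Fin (m k))).symm_apply_apply I

theorem sum_idx (f : Idx → ℂ) : ∑ I, f I = ∑ i : Fin 2, ∑ j : Fin 26, f (mk i j) := by
  rw [← (piFinTwoEquiv (fun k => Fin (m k))).symm.sum_comp, Fintype.sum_prod_type]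
  rfl

def cur {R : Type} (T : Idx → R) : Fin 2 → Fin 26 → R := fun i j => T (mk i j)
def uncur (x : Fin 2 → Fin 26 → ℂ) : Idx → ℂ := fun I => x (I 0) (I 1)

theorem tang (a b : (k : Fin 2) → Fin (m k) → ℂ) (i : Fin 2) (j : Fin 26) :
    (∑ k : Fin 2, b k (mk i j k) * ∏ l ∈ Finset.univ.erase k, a l (mk i j l)) =
      b 0 i * a 1 j + b 1 j * a 0 i := by
  have e0 : (Finset.univ : Finset (Fin 2)).erase 0 = {1} := by decide
  have e1 : (Finset.univ : Finset (Fin 2)).erase 1 = {0} := by decide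
  rw [Fin.sum_univ_two, e0, e1, Finset.prod_singleton, Finset.prod_singleton]
  rfl

def Crit (T : Idx → ℂ) : Set (Idx → ℂ) := {x |
     ((∑ I : Idx, x I) = 1 ∧ ∃ a : (k : Fin 2) → Fin (m k) → ℂ,
        (∀ I : Idx, x I = ∏ k : Fin 2, a k (I k)) ∧
        ∀ b : (k : Fin 2) → Fin (m k) → ℂ,
          (∑ I : Idx,
              (∑ k : Fin 2, b k (I k) * ∏ j ∈ Finset.univ.erase k, a j (I j))) = 0 →
          (∑ I : Idx, (x I - T I) *
              (∑ k : Fin 2, b k (I k) * ∏ j ∈ Finset.univ.erase k, a j (I j))) = 0)}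

def pr (u : Fin 2 → ℂ) (v : Fin 26 → ℂ) : (k : Fin 2) → Fin (m k) → ℂ :=
  (piFinTwoEquiv (fun k => Fin (m k) → ℂ)).symm (u, v)

theorem crit_iff (T x : Idx → ℂ) : x ∈ Crit T ↔ CritC (cur T) (cur x) := by
  simp only [Crit, CritC, Set.mem_setOf_eq, sum_idx, tang]
  refine and_congr Iff.rfl ⟨?_, ?_⟩
  · rintro ⟨a, h1, h2⟩
    refine ⟨a 0, a 1, fun i j => ?_, fun u v huv => h2 (pr u v) huv⟩
    rw [cur, h1, Fin.prod_univ_two]; rfl
  · rintro ⟨a, b, h1, h2⟩
    refine ⟨pr a b, fun I => ?_, fun c hc => h2 (c 0) (c 1) hc⟩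
    rw [Fin.prod_univ_two, ← mk_surj I]
    exact h1 (I 0) (I 1)

theorem crit_eq (T : Idx → ℂ) (h : EE (cur T) ^ 2 + 4 * BB (cur T) ^ 2 ≠ 0) :
    Crit T = (fun s => uncur (pt (cur T) s)) ''
      {s : ℂ | (G (EE (cur T)) (BB (cur T)) (DD (cur T))).eval s = 0} := by
  ext x
  rw [crit_iff, critC_iff _ _ h]
  constructor
  · rintro ⟨s, hs, e⟩
    refine ⟨s, hs, ?_⟩
    funext I
    simp only [uncur, e, cur, mk_surj]
  · rintro ⟨s, hs, rfl⟩
    exact ⟨s, hs, rfl⟩

theorem injOn_pt (T : Idx → ℂ) (h : EE (cur T) ^ 2 + 4 * BB (cur T) ^ 2 ≠ 0) :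
    Set.InjOn (fun s => uncur (pt (cur T) s))
      {s : ℂ | (G (EE (cur T)) (BB (cur T)) (DD (cur T))).eval s = 0} := by
  intro s hs s' hs' e
  rw [← pt_inj _ h s hs, ← pt_inj _ h s' hs']
  exact Finset.sum_congr rfl fun j _ => congrFun e (mk 0 j)

theorem crit_card (T : Idx → ℂ) (h : EE (cur T) ^ 2 + 4 * BB (cur T) ^ 2 ≠ 0)
    (hs : (G (EE (cur T)) (BB (cur T)) (DD (cur T))).Separable) :
    (Crit T).Finite ∧ (Crit T).ncard = 5 := by
  obtain ⟨h1, h2⟩ := roots_card _ _ _ hs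
  rw [crit_eq T h]
  exact ⟨h1.image _, by rw [(injOn_pt T h).ncard_image, h2]⟩

noncomputable def P : MvPolynomial Idx ℂ :=
  Res (EE (cur MvPolynomial.X)) (BB (cur MvPolynomial.X)) (DD (cur MvPolynomial.X)) *
    (EE (cur MvPolynomial.X) ^ 2 + 4 * BB (cur MvPolynomial.X) ^ 2)

theorem P_eval (T : Idx → ℂ) : MvPolynomial.eval T P =
    Res (EE (cur T)) (BB (cur T)) (DD (cur T)) * (EE (cur T) ^ 2 + 4 * BB (cur T) ^ 2) := by
  have hE : MvPolynomial.eval T (EE (cur MvPolynomial.X)) = EE (cur T) := by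
    simp [EE, ρ, cur, map_ofNat]
  have hB : MvPolynomial.eval T (BB (cur MvPolynomial.X)) = BB (cur T) := by
    simp [BB, ρ, cur, map_ofNat]
  have hD : MvPolynomial.eval T (DD (cur MvPolynomial.X)) = DD (cur T) := by
    simp [DD, cur]
  rw [P, map_mul, Res_map, map_add, map_mul, map_pow, map_pow, hE, hB, hD, map_ofNat]

noncomputable def T0 : Idx → ℝ := fun I => if I = mk 0 0 then 1 else 0

theorem cur_T0 (i : Fin 2) (j : Fin 26) :
    cur (fun I => (T0 I : ℂ)) i j = if i = 0 ∧ j = 0 then 1 else 0 := by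
  have : mk i j = mk 0 0 ↔ i = 0 ∧ j = 0 := by
    unfold mk; rw [Equiv.apply_eq_iff_eq]; exact Prod.mk.injEq _ _ _ _ ▸ Iff.rfl
  simp only [cur, T0, this]
  split_ifs <;> simp

theorem ρ0 (j : Fin 26) : ρ (cur (fun I => (T0 I : ℂ))) 0 j = if j = 0 then 25 else -1 := by
  simp only [ρ, cur_T0]; simp; split_ifs <;> norm_num

theorem ρ1 (j : Fin 26) : ρ (cur (fun I => (T0 I : ℂ))) 1 j = 0 := by
  simp only [ρ, cur_T0]; simp

theorem E0 : EE (cur (fun I => (T0 I : ℂ))) = 650 := by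
  simp only [EE, ρ0, ρ1, Fin.sum_univ_succ]; simp; norm_num
theorem B0 : BB (cur (fun I => (T0 I : ℂ))) = 0 := by simp [BB, ρ1]
theorem D0 : DD (cur (fun I => (T0 I : ℂ))) = 1 := by
  simp only [DD, cur_T0]; simp

/-- The negation of the preceding statement: For all d≥2, m_k≥2: if a nonnegative real tensor with entry sum 1 has exactly N distinct critical points of squared distance on rank-one tensors with entry sum 1 (N = generic count), exactly one is real. -/
theorem result :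
    ¬ (∀ (d : ℕ) (m : Fin d → ℕ), 2 ≤ d → (∀ k, 2 ≤ m k) →
  ∀ (Crit : (((k : Fin d) → Fin (m k)) → ℂ) → Set (((k : Fin d) → Fin (m k)) → ℂ)),
  (∀ (T x : ((k : Fin d) → Fin (m k)) → ℂ), x ∈ Crit T ↔
     ((∑ I : ((k : Fin d) → Fin (m k)), x I) = 1 ∧ ∃ a : (k : Fin d) → Fin (m k) → ℂ,
        (∀ I : ((k : Fin d) → Fin (m k)), x I = ∏ k : Fin d, a k (I k)) ∧
        ∀ b : (k : Fin d) → Fin (m k) → ℂ,
          (∑ I : ((k : Fin d) → Fin (m k)),
              (∑ k : Fin d, b k (I k) * ∏ j ∈ Finset.univ.erase k, a j (I j))) = 0 →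
          (∑ I : ((k : Fin d) → Fin (m k)), (x I - T I) *
              (∑ k : Fin d, b k (I k) * ∏ j ∈ Finset.univ.erase k, a j (I j))) = 0)) →
  ∀ N : ℕ,
  (∃ P : MvPolynomial ((k : Fin d) → Fin (m k)) ℂ, P ≠ 0 ∧
     ∀ T : ((k : Fin d) → Fin (m k)) → ℂ, MvPolynomial.eval T P ≠ 0 →
       (Crit T).Finite ∧ (Crit T).ncard = N) →
  ∀ T : ((k : Fin d) → Fin (m k)) → ℝ, (∀ I : ((k : Fin d) → Fin (m k)), 0 ≤ T I) →
    (∑ I : ((k : Fin d) → Fin (m k)), T I) = 1 →
    (Crit (fun I : ((k : Fin d) → Fin (m k)) => (T I : ℂ))).Finite →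
    (Crit (fun I : ((k : Fin d) → Fin (m k)) => (T I : ℂ))).ncard = N →
    {x : ((k : Fin d) → Fin (m k)) → ℂ |
        x ∈ Crit (fun I : ((k : Fin d) → Fin (m k)) => (T I : ℂ)) ∧
        ∀ I : ((k : Fin d) → Fin (m k)), (x I).im = 0}.ncard = 1) := by
  intro H
  have h0 : EE (cur (fun I => (T0 I : ℂ))) ^ 2 + 4 * BB (cur (fun I => (T0 I : ℂ))) ^ 2 ≠ 0 := by
    rw [E0, B0]; norm_num
  have hs0 : (G (EE (cur (fun I => (T0 I : ℂ)))) (BB (cur (fun I => (T0 I : ℂ))))
      (DD (cur (fun I => (T0 I : ℂ))))).Separable := by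
    rw [E0, B0, D0]; exact sep0
  obtain ⟨hf, hc⟩ := crit_card _ h0 hs0
  have key := H 2 m le_rfl (by intro k; fin_cases k <;> simp [m]) Crit (fun T x => Iff.rfl) 5
    ⟨P, fun hP => by
        have := P_eval (fun I => (T0 I : ℂ))
        rw [hP, map_zero] at this
        exact mul_ne_zero ((Res_ne_iff _ _ _).2 hs0) h0 this.symm,
      fun T hT => by
        rw [P_eval] at hT
        exact crit_card T (right_ne_zero_of_mul hT) ((Res_ne_iff _ _ _).1 (left_ne_zero_of_mul hT))⟩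
    T0 (fun I => by unfold T0; split_ifs <;> norm_num) (by simp [T0]) hf hc
  obtain ⟨y, hy⟩ := Set.ncard_eq_one.1 key
  have mem : ∀ r : ℝ, (G (650 : ℂ) 0 1).eval (r : ℂ) = 0 →
      uncur (pt (cur (fun I => (T0 I : ℂ))) r) = y := by
    intro r hr
    rw [← Set.mem_singleton_iff, ← hy]
    refine ⟨?_, fun I => ?_⟩
    · rw [crit_eq _ h0]
      exact ⟨r, by simpa only [Set.mem_setOf_eq, E0, B0, D0] using hr, rfl⟩
    · have : ∀ (i : Fin 2) (j : Fin 26), pt (cur (fun I => (T0 I : ℂ))) r i j =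
          ((![r, 1 - r] i * ((2 * r ^ 2 - 2 * r + 1 + r * (if j = 0 then 25 else -1)) /
            (26 * (2 * r ^ 2 - 2 * r + 1))) : ℝ) : ℂ) := by
        intro i j
        simp only [pt, w, q, ρ0, ρ1]
        fin_cases i <;> split_ifs <;> simp
      simp only [uncur]
      rw [this (I 0) (I 1), Complex.ofReal_im]
  have r1 : (G (650 : ℂ) 0 1).eval ((1 : ℝ) : ℂ) = 0 := by rw [G_eval]; norm_num
  have r2 : (G (650 : ℂ) 0 1).eval ((-1 / 2 : ℝ) : ℂ) = 0 := by rw [G_eval]; push_cast; norm_num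
  have := injOn_pt _ h0 (x₁ := ((1 : ℝ) : ℂ)) (by simpa only [Set.mem_setOf_eq, E0, B0, D0] using r1)
    (x₂ := ((-1 / 2 : ℝ) : ℂ)) (by simpa only [Set.mem_setOf_eq, E0, B0, D0] using r2)
    ((mem _ r1).trans (mem _ r2).symm)
  have h2 : (1 : ℝ) = -1 / 2 := by exact_mod_cast this
  norm_num at h2

end Pool.Agent.S00164
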