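import Pool.Statements.S00286
import Pool.Agent.Lib.lead.NonUniGor

set_option autoImplicit false
open Pool Pool.MP_845d9e_ag

namespace Pool.Agent.S00286

/-- The negation of the preceding statement: Over an algebraically closed char-0 field, for any finite point set in P^n whose Artinian reduction by a general linear form has 1-dim socle (arithmetically Gorenstein), the h-vector (Hilbert function of that reduction) rises then falls. -/
theorem result :
    ¬ (∀ (K : Type) [Field K] [CharZero K] [IsAlgClosed K] (n : ℕ)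
    (X : Finset (Fin (n+1) → K)) (c : Fin (n+1) → K)
    (I J : Ideal (MvPolynomial (Fin (n+1)) K))
    (H M : ℕ → Submodule K (MvPolynomial (Fin (n+1)) K)) (h : ℕ → ℕ),
    X.Nonempty →
    (∀ p ∈ X, p ≠ 0) →
    (∀ p ∈ X, ∑ j, c j * p j ≠ 0) →
    (∀ f : MvPolynomial (Fin (n+1)) K,
        f ∈ I ↔ ∀ p ∈ X, ∀ t : K, MvPolynomial.eval (t • p) f = 0) →
    J = I ⊔ Ideal.span
          ({∑ j, MvPolynomial.C (c j) * MvPolynomial.X j} :
            Set (MvPolynomial (Fin (n+1)) K)) →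
    (∃ g : MvPolynomial (Fin (n+1)) K, g ∉ J ∧ (∀ j, MvPolynomial.X j * g ∈ J) ∧
        ∀ f : MvPolynomial (Fin (n+1)) K, (∀ j, MvPolynomial.X j * f ∈ J) →
          ∃ a : K, f - MvPolynomial.C a * g ∈ J) →
    (∀ i (f : MvPolynomial (Fin (n+1)) K), f ∈ H i ↔ f.IsHomogeneous i) →
    (∀ i (f : MvPolynomial (Fin (n+1)) K), f ∈ M i ↔ (f.IsHomogeneous i ∧ f ∈ J)) →
    (∀ i, h i = Module.finrank K ↥(H i) - Module.finrank K ↥(M i)) →
    ∃ m : ℕ, (∀ i j, i ≤ j → j ≤ m → h i ≤ h j) ∧ (∀ i j, m ≤ i → i ≤ j → h j ≤ h i)) := by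
  intro h
  classical
  let Z : Finset (Fin (18 + 1) → ℂ) := Finset.univ.image Pool.Agent.NonUni.pt
  have hZ : ∀ P : (Fin (18 + 1) → ℂ) → Prop,
      (∀ p ∈ Z, P p) ↔ ∀ p, P (Pool.Agent.NonUni.pt p) := by
    intro P; simp only [Z, Finset.forall_mem_image, Finset.mem_univ, forall_true_left]
  have h0 : (∑ i, MvPolynomial.C ((Pi.single 0 1 : Fin (18 + 1) → ℂ) i) *
      (MvPolynomial.X i : MvPolynomial (Fin (18 + 1)) ℂ)) = MvPolynomial.X 0 := by
    rw [Finset.sum_eq_single 0]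
    · simp
    · intro b _ hb; simp [hb]
    · simp
  obtain ⟨m, hm1, hm2⟩ := h ℂ 18 Z (Pi.single 0 1) Pool.Agent.NonUni.II
    (Pool.Agent.NonUni.II ⊔ Ideal.span {MvPolynomial.X 0})
    (fun d => MvPolynomial.homogeneousSubmodule (Fin 19) ℂ d) Pool.Agent.NonUni.MM
    (fun d => Module.finrank ℂ (MvPolynomial.homogeneousSubmodule (Fin 19) ℂ d) -
      Module.finrank ℂ (Pool.Agent.NonUni.MM d))
    (Finset.univ_nonempty.image _)
    ((hZ (fun p => p ≠ 0)).mpr (fun p hp => by
      have := Pool.Agent.NonUni.pt_zero p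
      rw [hp] at this
      simp at this))
    ((hZ (fun p => ∑ j, (Pi.single 0 1 : Fin (18 + 1) → ℂ) j * p j ≠ 0)).mpr (fun p => by
      simp [Pi.single_apply, Pool.Agent.NonUni.pt_zero]))
    (fun f => by
      rw [hZ (fun p => ∀ t : ℂ, MvPolynomial.eval (t • p) f = 0)]
      exact Pool.Agent.NonUni.II_iff f)
    (by rw [h0]) Pool.Agent.NonUni.gorenstein (fun i f => Iff.rfl) (fun i f => Iff.rfl)
    (fun i => rfl)
  obtain ⟨-, r1, r2, r3, r4, -, -⟩ := Pool.Agent.NonUni.ranks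
  have e2 := Pool.Agent.NonUni.h_eq 1
  have e3 := Pool.Agent.NonUni.h_eq 2
  have e4 := Pool.Agent.NonUni.h_eq 3
  norm_num only [r1, r2, r3, r4] at e2 e3 e4
  rcases le_or_gt m 2 with hm | hm
  · have := hm2 3 4 (by omega) (by omega)
    simp only [e3, e4] at this
    omega
  · have := hm1 2 3 (by omega) (by omega)
    simp only [e2, e3] at this
    omega

end Pool.Agent.S00286
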