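import Pool.Statements.S00315

set_option autoImplicit false
open Pool Pool.MP_959e05_ag

namespace Pool.Agent.S00315

open scoped BigOperators
open Polynomial

lemma vanish {n : ℕ} (L : ℕ) (c : Fin n → ℂ) (hc : ∀ t : Fin n, L ≤ t.val → c t = 0)
    (T : Finset ℂ) (hT : L ≤ T.card) (hz : ∀ z ∈ T, ∑ t : Fin n, c t * z ^ t.val = 0) :
    ∀ t, c t = 0 := by
  have hf : (∑ t : Fin n, C (c t) * X ^ t.val : ℂ[X]) = 0 := by
    apply Polynomial.eq_zero_of_degree_lt_of_eval_finset_eq_zero T
    · refine lt_of_lt_of_le ?_ (show ((L : ℕ) : WithBot ℕ) ≤ T.card by exact_mod_cast hT)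
      refine (degree_sum_le _ _).trans_lt ((Finset.sup_lt_iff (WithBot.bot_lt_coe L)).2 ?_)
      intro t _
      by_cases h : L ≤ t.val
      · rw [hc t h]
        simp
      · push Not at h
        exact (degree_C_mul_X_pow_le _ _).trans_lt (WithBot.coe_lt_coe.2 h)
    · intro z hzT
      rw [eval_finsetSum]
      simpa using hz z hzT
  intro t
  have h1 := congrArg (fun p : ℂ[X] => p.coeff t.val) hf
  simp only [finsetSum_coeff, coeff_C_mul, coeff_X_pow, coeff_zero] at h1
  rw [Finset.sum_eq_single t] at h1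
  · simpa using h1
  · intro b _ hb
    have : t.val ≠ b.val := fun h => hb (Fin.ext h.symm)
    simp [this]
  · simp

lemma count (n r : ℕ) (hn : 1 ≤ n) (hr : r ≤ n) (s a : ℕ) : ∀ b, a ≤ b →
    (b + s) * r / n ≤ (a + s) * r / n +
      ((Finset.Ico a b).filter (fun x => (x + s) * r / n < (x + s + 1) * r / n)).card := by
  intro b hb
  induction b, hb using Nat.le_induction with
  | base => simp
  | succ b hb ih =>
    rw [Nat.Ico_succ_right_eq_insert_Ico hb, Finset.filter_insert]
    have e : (b + 1 + s) = (b + s + 1) := by ring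
    rw [e]
    split_ifs with h
    · rw [Finset.card_insert_of_notMem (by simp)]
      have h1 : (b + s + 1) * r / n ≤ ((b + s) * r + n) / n := by
        apply Nat.div_le_div_right
        nlinarith
      rw [Nat.add_div_right _ (by omega)] at h1
      omega
    · omega

def sig (n r k : ℕ) : ℕ := ((k + 1) * n - 1) / r

lemma sig_hit (n r : ℕ) (hn : 1 ≤ n) (u : ℕ) (hu : u * r / n < (u + 1) * r / n) :
    ∃ k < r, sig n r k = u % n := by
  have hdm := Nat.mod_add_div u n
  set q := u / n
  set w := u % n with hw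
  have hwn : w < n := Nat.mod_lt _ (by omega)
  have e1 : u * r / n = w * r / n + q * r := by
    rw [← hdm, show (w + n * q) * r = w * r + n * (q * r) by ring, Nat.add_mul_div_left _ _ (by omega)]
  have e2 : (u + 1) * r / n = (w + 1) * r / n + q * r := by
    rw [← hdm, show (w + n * q + 1) * r = (w + 1) * r + n * (q * r) by ring,
      Nat.add_mul_div_left _ _ (by omega)]
  have h3 : w * r / n < (w + 1) * r / n := by omega
  have hr0 : 0 < r := by
    rcases Nat.eq_zero_or_pos r with h | h
    · subst h
      simp at h3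
    · exact h
  set k := w * r / n with hk
  have h4 : (k + 1) * n ≤ (w + 1) * r := (Nat.le_div_iff_mul_le (by omega)).mp h3
  have h5 : w * r < (k + 1) * n := (Nat.div_lt_iff_lt_mul (by omega)).mp (by omega)
  refine ⟨k, ?_, ?_⟩
  · rw [hk, Nat.div_lt_iff_lt_mul (by omega)]
    nlinarith
  · unfold sig
    apply Nat.div_eq_of_lt_le <;> omega

lemma fourier (n l r : ℕ) (hn : 1 ≤ n) (hr : r ≤ n) (hlr : n * l ≤ r * (2 * n - r))
    (ω : ℂ) (hω : IsPrimitiveRoot ω n) (M : Fin n → Fin n → ℂ)
    (hM : ∀ i j, l ≤ (j - i).val → M i j = 0)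
    (hV : ∀ i, ∀ k < r, ∑ j, M i j * (ω ^ k) ^ j.val = 0)
    (hU : ∀ j, ∀ k < r, ∑ i, M i j * ((ω⁻¹) ^ sig n r k) ^ i.val = 0) :
    ∀ i j, M i j = 0 := by
  classical
  have : NeZero n := ⟨by omega⟩
  have hω1 : ω ^ n = 1 := hω.pow_eq_one
  have hω0 : ω ≠ 0 := hω.ne_zero (by omega)
  have hωi : (ω⁻¹) ^ n = 1 := by rw [inv_pow, hω1, inv_one]
  have step1 : ∀ s : ℕ, ∀ t : Fin n, ∑ i, M i (i + t) * ((ω⁻¹) ^ s) ^ i.val = 0 := by
    intro s
    let S : Finset ℕ := Finset.range r ∪
      (Finset.Ico r n).filter (fun x => (x + s) * r / n < (x + s + 1) * r / n)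
    have hSn : ∀ x ∈ S, x < n := by
      intro x hx
      rcases Finset.mem_union.mp hx with h | h
      · have := Finset.mem_range.mp h
        omega
      · exact (Finset.mem_Ico.mp (Finset.mem_filter.mp h).1).2
    have hScard : l ≤ S.card := by
      rw [Finset.card_union_of_disjoint, Finset.card_range]
      · have h1 := count n r hn hr s r n hr
        have h2 : (n + s) * r / n = s * r / n + r := by
          rw [show (n + s) * r = s * r + n * r by ring, Nat.add_mul_div_left _ _ (by omega)]
        have h3 : l ≤ 2 * r := by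
          have : n * l ≤ n * (2 * r) := by
            calc n * l ≤ r * (2 * n - r) := hlr
              _ ≤ r * (2 * n) := Nat.mul_le_mul_left _ (Nat.sub_le _ _)
              _ = n * (2 * r) := by ring
          exact Nat.le_of_mul_le_mul_left this (by omega)
        have h4 : (r + s) * r / n ≤ (s * r + n * (2 * r - l)) / n := by
          apply Nat.div_le_div_right
          obtain ⟨a, ha⟩ := Nat.exists_eq_add_of_le h3
          obtain ⟨b, hb⟩ := Nat.exists_eq_add_of_le (show r ≤ 2 * n by omega)
          have e1 : 2 * r - l = a := by omega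
          have e2 : 2 * n - r = b := by omega
          rw [e2] at hlr
          rw [e1]
          nlinarith
        rw [Nat.add_mul_div_left _ _ (by omega)] at h4
        omega
      · rw [Finset.disjoint_left]
        intro x hx hx2
        have := Finset.mem_range.mp hx
        have := (Finset.mem_Ico.mp (Finset.mem_filter.mp hx2).1).1
        omega
    apply vanish l (fun t => ∑ i, M i (i + t) * ((ω⁻¹) ^ s) ^ i.val) ?_ (S.image (fun x => ω ^ x))
    · rw [Finset.card_image_of_injOn]
      · exact hScard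
      · intro x hx y hy hxy
        exact hω.pow_inj (hSn x hx) (hSn y hy) hxy
    · intro z hz
      obtain ⟨x, hx, rfl⟩ := Finset.mem_image.mp hz
      have hz1 : (ω ^ x) ^ n = 1 := by rw [← pow_mul, mul_comm, pow_mul, hω1, one_pow]
      have key : ∑ t : Fin n, (∑ i, M i (i + t) * ((ω⁻¹) ^ s) ^ i.val) * (ω ^ x) ^ t.val
          = ∑ i : Fin n, ∑ j : Fin n, M i j * ((ω⁻¹) ^ (x + s)) ^ i.val * (ω ^ x) ^ j.val := by
        simp only [Finset.sum_mul]
        rw [Finset.sum_comm]
        refine Finset.sum_congr rfl fun i _ => ?_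
        rw [← Equiv.sum_comp (Equiv.addLeft i)
          (fun j => M i j * ((ω⁻¹) ^ (x + s)) ^ i.val * (ω ^ x) ^ j.val)]
        refine Finset.sum_congr rfl fun t _ => ?_
        simp only [Equiv.coe_addLeft]
        rw [Fin.val_add, ← pow_eq_pow_mod _ hz1, pow_add, pow_add, mul_pow]
        have : ((ω⁻¹) ^ x) ^ i.val * (ω ^ x) ^ i.val = 1 := by
          rw [← mul_pow, ← mul_pow, inv_mul_cancel₀ hω0, one_pow, one_pow]
        linear_combination (-(M i (i + t) * ((ω⁻¹) ^ s) ^ i.val * (ω ^ x) ^ t.val)) * this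
      rw [key]
      rcases Finset.mem_union.mp hx with h | h
      · apply Finset.sum_eq_zero
        intro i _
        have h1 := hV i x (Finset.mem_range.mp h)
        have h2 : ∑ j : Fin n, M i j * ((ω⁻¹) ^ (x + s)) ^ i.val * (ω ^ x) ^ j.val
            = ((ω⁻¹) ^ (x + s)) ^ i.val * ∑ j : Fin n, M i j * (ω ^ x) ^ j.val := by
          rw [Finset.mul_sum]
          exact Finset.sum_congr rfl fun j _ => by ring
        rw [h2, h1, mul_zero]
      · rw [Finset.sum_comm]
        apply Finset.sum_eq_zero
        intro j _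
        obtain ⟨k, hk, hks⟩ := sig_hit n r hn (x + s) (Finset.mem_filter.mp h).2
        have h1 := hU j k hk
        rw [hks, ← pow_eq_pow_mod _ hωi] at h1
        rw [← Finset.sum_mul, h1, zero_mul]
    · intro t ht
      apply Finset.sum_eq_zero
      intro i _
      rw [hM i (i + t) (by simpa using ht), zero_mul]
  intro i j
  have h1 := vanish n (fun i' => M i' (i' + (j - i))) (fun t ht => absurd t.isLt (by omega))
    ((Finset.range n).image (fun s => (ω⁻¹) ^ s)) (by
      rw [Finset.card_image_of_injOn]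
      · simp
      · intro x hx y hy hxy
        exact hω.inv.pow_inj (by simpa using hx) (by simpa using hy) hxy) (by
      intro z hz
      obtain ⟨s, _, rfl⟩ := Finset.mem_image.mp hz
      exact step1 s (j - i)) i
  simpa using h1

/-- The generic completion rank of bipartite circulant graphs equals the dimension count. -/
theorem result :
    ∀ n l r : ℕ, 1 ≤ n → l ≤ n → r ≤ n → n * l ≤ r * (2 * n - r) →
      ∀ P : MvPolynomial {p : Fin n × Fin n // ((p.2 - p.1 : Fin n) : ℕ) < l} ℂ,
        (∀ M : Matrix (Fin n) (Fin n) ℂ, M.rank ≤ r →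
          MvPolynomial.eval (fun e => M e.1.1 e.1.2) P = 0) → P = 0 := by
  intro n l r hn _ hr hlr P hP
  classical
  have hω := Complex.isPrimitiveRoot_exp n (by omega)
  set ω := Complex.exp (2 * Real.pi * Complex.I / n) with hωdef
  let U : Fin n → Fin r → ℂ := fun i k => ((ω⁻¹) ^ sig n r k.val) ^ i.val
  let V : Fin n → Fin r → ℂ := fun j k => (ω ^ k.val) ^ j.val
  let f : ((Fin n → Fin r → ℂ) × (Fin n → Fin r → ℂ)) →
      ({p : Fin n × Fin n // ((p.2 - p.1 : Fin n) : ℕ) < l} → ℂ) :=
    fun p e => ∑ k, (U e.1.1 k + p.1 e.1.1 k) * (V e.1.2 k + p.2 e.1.2 k)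
  let D : ((Fin n → Fin r → ℂ) × (Fin n → Fin r → ℂ)) →ₗ[ℂ]
      ({p : Fin n × Fin n // ((p.2 - p.1 : Fin n) : ℕ) < l} → ℂ) :=
    { toFun := fun p e => ∑ k, (U e.1.1 k * p.2 e.1.2 k + V e.1.2 k * p.1 e.1.1 k)
      map_add' := by
        intro p q
        funext e
        simp only [Prod.fst_add, Prod.snd_add, Pi.add_apply, ← Finset.sum_add_distrib]
        exact Finset.sum_congr rfl fun k _ => by ring
      map_smul' := by
        intro c p
        funext e
        simp only [Prod.smul_fst, Prod.smul_snd, Pi.smul_apply, smul_eq_mul, RingHom.id_apply,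
          Finset.mul_sum]
        exact Finset.sum_congr rfl fun k _ => by ring }
  have hD : LinearMap.range D = ⊤ := by
    by_contra hne
    obtain ⟨φ, hφ0, hφ⟩ := Submodule.exists_le_ker_of_lt_top _ (lt_top_iff_ne_top.mpr hne)
    let M : Fin n → Fin n → ℂ := fun i j =>
      if h : (j - i).val < l then φ (fun e' => if (⟨(i, j), h⟩ :
        {p : Fin n × Fin n // ((p.2 - p.1 : Fin n) : ℕ) < l}) = e' then 1 else 0) else 0
    have hrep : ∀ G : Fin n → Fin n → ℂ, φ (fun e => G e.1.1 e.1.2) = ∑ i, ∑ j, M i j * G i j := by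
      intro G
      rw [LinearMap.pi_apply_eq_sum_univ, ← Fintype.sum_prod_type'
        (fun i j => M i j * G i j)]
      rw [← Finset.sum_subset (Finset.filter_subset (fun p : Fin n × Fin n => (p.2 - p.1).val < l)
        Finset.univ)]
      · rw [Finset.sum_subtype (Finset.univ.filter (fun p : Fin n × Fin n => (p.2 - p.1).val < l))
          (p := fun p : Fin n × Fin n => (p.2 - p.1).val < l) (by simp)]
        refine Finset.sum_congr rfl fun e _ => ?_
        simp only [M, dif_pos e.2, smul_eq_mul]
        rw [mul_comm]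
      · intro p _ hp
        have : ¬ (p.2 - p.1).val < l := by simpa using hp
        simp only [M, dif_neg this, zero_mul]
    have hz : ∀ p : ((Fin n → Fin r → ℂ) × (Fin n → Fin r → ℂ)),
        ∑ i, ∑ j, M i j * (∑ k, (U i k * p.2 j k + V j k * p.1 i k)) = 0 := by
      intro p
      rw [← hrep (fun i j => ∑ k, (U i k * p.2 j k + V j k * p.1 i k))]
      exact hφ (LinearMap.mem_range_self D p)
    have hM0 := fourier n l r hn hr hlr ω hω M (fun i j h => dif_neg (by omega)) (by
      intro i k hk
      have h1 := hz (Pi.single i (Pi.single ⟨k, hk⟩ 1), 0)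
      rw [Finset.sum_eq_single i] at h1
      · rw [← h1]
        refine Finset.sum_congr rfl fun j _ => ?_
        congr 1
        rw [Finset.sum_eq_single ⟨k, hk⟩]
        · simp [V]
        · intro b _ hb
          simp [hb]
        · simp
      · intro b _ hb
        simp [hb]
      · simp) (by
      intro j k hk
      have h1 := hz (0, Pi.single j (Pi.single ⟨k, hk⟩ 1))
      rw [Finset.sum_comm, Finset.sum_eq_single j] at h1
      · rw [← h1]
        refine Finset.sum_congr rfl fun i _ => ?_
        congr 1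
        rw [Finset.sum_eq_single ⟨k, hk⟩]
        · simp [U]
        · intro b _ hb
          simp [hb]
        · simp
      · intro b _ hb
        simp [hb]
      · simp)
    apply hφ0
    apply LinearMap.ext
    intro x
    rw [LinearMap.pi_apply_eq_sum_univ]
    apply Finset.sum_eq_zero
    intro e _
    have h2 := hM0 e.1.1 e.1.2
    simp only [M, dif_pos e.2] at h2
    rw [h2, smul_zero]
  have hf : HasStrictFDerivAt f (LinearMap.toContinuousLinearMap D) 0 := by
    rw [hasStrictFDerivAt_pi']
    intro e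
    have h1 : ∀ k : Fin r, HasStrictFDerivAt
        (fun p : ((Fin n → Fin r → ℂ) × (Fin n → Fin r → ℂ)) => U e.1.1 k + p.1 e.1.1 k)
        ((ContinuousLinearMap.proj (R := ℂ) (φ := fun _ : Fin r => ℂ) k).comp
          ((ContinuousLinearMap.proj (R := ℂ) (φ := fun _ : Fin n => Fin r → ℂ) e.1.1).comp
          (ContinuousLinearMap.fst ℂ (Fin n → Fin r → ℂ) (Fin n → Fin r → ℂ)))) 0 := fun k =>
      (ContinuousLinearMap.hasStrictFDerivAt
        ((ContinuousLinearMap.proj (R := ℂ) (φ := fun _ : Fin r => ℂ) k).comp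
          ((ContinuousLinearMap.proj (R := ℂ) (φ := fun _ : Fin n => Fin r → ℂ) e.1.1).comp
          (ContinuousLinearMap.fst ℂ (Fin n → Fin r → ℂ) (Fin n → Fin r → ℂ))))).const_add _
    have h2 : ∀ k : Fin r, HasStrictFDerivAt
        (fun p : ((Fin n → Fin r → ℂ) × (Fin n → Fin r → ℂ)) => V e.1.2 k + p.2 e.1.2 k)
        ((ContinuousLinearMap.proj (R := ℂ) (φ := fun _ : Fin r => ℂ) k).comp
          ((ContinuousLinearMap.proj (R := ℂ) (φ := fun _ : Fin n => Fin r → ℂ) e.1.2).comp
          (ContinuousLinearMap.snd ℂ (Fin n → Fin r → ℂ) (Fin n → Fin r → ℂ)))) 0 := fun k =>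
      (ContinuousLinearMap.hasStrictFDerivAt
        ((ContinuousLinearMap.proj (R := ℂ) (φ := fun _ : Fin r => ℂ) k).comp
          ((ContinuousLinearMap.proj (R := ℂ) (φ := fun _ : Fin n => Fin r → ℂ) e.1.2).comp
          (ContinuousLinearMap.snd ℂ (Fin n → Fin r → ℂ) (Fin n → Fin r → ℂ))))).const_add _
    have h3 := HasStrictFDerivAt.fun_sum (u := Finset.univ) (fun k _ => (h1 k).fun_mul (h2 k))
    convert h3 using 1
    ext p <;> simp [D]
  have hmap := hf.map_nhds_eq_of_surj hD
  have hev : ∀ᶠ x in nhds (f 0), MvPolynomial.eval x P = 0 := by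
    rw [← hmap, Filter.eventually_map]
    refine Filter.Eventually.of_forall fun p => ?_
    have h1 := hP ((Matrix.of fun i k => U i k + p.1 i k) *
      (Matrix.of fun j k => V j k + p.2 j k).transpose)
      ((Matrix.rank_mul_le_left _ _).trans (Matrix.rank_le_width _))
    exact h1
  have han := AnalyticOnNhd.eq_of_eventuallyEq (AnalyticOnNhd.eval_mvPolynomial P)
    (analyticOnNhd_const (v := (0 : ℂ))) hev
  apply MvPolynomial.funext
  intro x
  rw [map_zero]
  exact congrFun han x

end Pool.Agent.S00315
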