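import Pool.Statements.S00338
import Pool.Agent.Lib.helper14.FI5

set_option autoImplicit false
open Pool Pool.MP_9e2f2c_ag

namespace Pool.Agent.S00338

/-- The negation of the preceding statement: For n≥1, d≥1 and (n,r) outside (3,7),(3,8),(4,9),(5,14), r=n+2, r=n+3: for r linear forms in n variables over ℂ off a proper hypersurface, S/(ℓ_i^d) has Hilbert function equal to (1−t^d)^r/(1−t)^n truncated at its first nonpositive coefficient. -/
theorem result :
    ¬ (∀ n r d : ℕ, 1 ≤ n → 1 ≤ d →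
    (n, r) ≠ (3, 7) → (n, r) ≠ (3, 8) → (n, r) ≠ (4, 9) → (n, r) ≠ (5, 14) →
    r ≠ n + 2 → r ≠ n + 3 →
    ∀ c : ℕ → ℤ,
      (∀ m : ℕ, c m = ∑ i ∈ Finset.range (r + 1),
          (if d * i ≤ m then
            (-1 : ℤ) ^ i * (r.choose i : ℤ) * (((m - d * i + n - 1).choose (n - 1) : ℕ) : ℤ)
          else 0)) →
    ∃ P : MvPolynomial (Fin r × Fin n) ℂ, P ≠ 0 ∧
      ∀ a : Fin r → Fin n → ℂ,
        MvPolynomial.eval (fun p : Fin r × Fin n => a p.1 p.2) P ≠ 0 →
        ∀ j : ℕ,
          ((Module.finrank ℂ (MvPolynomial.homogeneousSubmodule (Fin n) ℂ j) : ℕ) : ℤ) -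
            ((Module.finrank ℂ
              ↥((Submodule.restrictScalars ℂ
                  (Ideal.span (Set.range (fun k : Fin r =>
                    (∑ i : Fin n, MvPolynomial.C (a k i) * MvPolynomial.X i) ^ d)))) ⊓
                MvPolynomial.homogeneousSubmodule (Fin n) ℂ j) : ℕ) : ℤ)
          = (if (∀ m : ℕ, m ≤ j → 0 < c m) then c j else 0)) := by
  intro H
  obtain ⟨P, hP, h⟩ := H 5 9 17 (by norm_num) (by norm_num) (by decide) (by decide) (by decide)
    (by decide) (by norm_num) (by norm_num) _ (fun m => rfl)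
  obtain ⟨a, ha, hb⟩ := Pool.Agent.FI.dense P hP
  have h1 := h a ha 38
  have h2 := Pool.Agent.FI.finrank_HH 38
  have c1 : (38 + 4).choose 4 = 111930 := by decide +kernel
  rw [c1] at h2
  have c2 : (∑ i ∈ Finset.range (9 + 1),
      (if 17 * i ≤ 38 then
        (-1 : ℤ) ^ i * (Nat.choose 9 i : ℤ) * (((38 - 17 * i + 5 - 1).choose (5 - 1) : ℕ) : ℤ)
      else 0)) = 600 := by decide +kernel
  have h3 : ((Module.finrank ℂ (MvPolynomial.homogeneousSubmodule (Fin 5) ℂ 38) : ℕ) : ℤ)
      = 111930 := by exact_mod_cast h2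
  have h4 : ((Module.finrank ℂ
      ↥((Submodule.restrictScalars ℂ
          (Ideal.span (Set.range (fun k : Fin 9 =>
            (∑ i : Fin 5, MvPolynomial.C (a k i) * MvPolynomial.X i) ^ 17)))) ⊓
        MvPolynomial.homogeneousSubmodule (Fin 5) ℂ 38) : ℕ) : ℤ) ≤ 111329 := by
    exact_mod_cast hb
  rw [h3] at h1
  split_ifs at h1
  · rw [c2] at h1
    omega
  · omega

end Pool.Agent.S00338
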