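import Pool.Statements.S00362
import Pool.Agent.Lib.helper14.Delt2

set_option autoImplicit false
open Pool Pool.MP_aaa69e_ag

namespace Pool.Agent.S00362

/-- The negation of the preceding statement: For every irreducible f in ℂ[x,y], the number of singular points of the curve f=0 where the curve has one local branch is at most the first Betti number (rank of abelianized fundamental group) of the curve plus one. -/
theorem result :
    ¬ (∀ f : MvPolynomial (Fin 2) ℂ, Irreducible f →
    ∀ x₀ : ↥{z : Fin 2 → ℂ | MvPolynomial.eval z f = 0},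
    Set.ncard {p : Fin 2 → ℂ | MvPolynomial.eval p f = 0 ∧
        (∀ i : Fin 2, MvPolynomial.eval p (MvPolynomial.pderiv i f) = 0) ∧
        ∃ ε : ℝ, 0 < ε ∧ ∀ δ : ℝ, 0 < δ → δ < ε →
          IsPreconnected {q : Fin 2 → ℂ | MvPolynomial.eval q f = 0 ∧ q ≠ p ∧
            ‖q 0 - p 0‖ ^ 2 + ‖q 1 - p 1‖ ^ 2 < δ ^ 2}}
      ≤ Module.finrank ℤ
          (Additive (Abelianization
            (FundamentalGroup ↥{z : Fin 2 → ℂ | MvPolynomial.eval z f = 0} x₀))) + 1) := by
  intro h
  have h1 := h _ Pool.Agent.Lib.helper14.Delt.f_irred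
    ⟨_, Pool.Agent.Lib.helper14.Delt.phi_mem one_ne_zero⟩
  rw [Pool.Agent.Lib.helper14.Delt.card_eq] at h1
  have h2 := Pool.Agent.Lib.helper14.Delt.rank_le
    ⟨_, Pool.Agent.Lib.helper14.Delt.phi_mem one_ne_zero⟩
  omega

end Pool.Agent.S00362
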