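import Pool.Statements.S00406

set_option autoImplicit false
open Pool Pool.MP_b9ea36_ag

namespace Pool.Agent.S00406

def EE : Finset (Fin 5 × Fin 5) := Finset.univ.filter (fun p => (p.2 - p.1).val ≤ 2)

abbrev M5 := Fin 5 → Fin 5 → ℝ

def m1 (A : M5) : ℝ := A 0 0 * A 2 2
def m2 (A : M5) : ℝ := A 2 4 * A 0 2
def d3 (A : M5) : ℝ := m1 A * A 3 4 - m2 A * A 3 0
def d4 (A : M5) : ℝ := m1 A * A 4 4 - m2 A * A 4 0
def x3 (A : M5) : ℝ := A 2 3 * A 0 2 * A 3 4 - m2 A * A 3 3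
def y3 (A : M5) : ℝ := m1 A * A 3 3 - A 3 0 * (A 2 3 * A 0 2)
def x1 (A : M5) : ℝ := A 0 1 * A 2 2 * A 4 4 - m2 A * A 4 1
def y1 (A : M5) : ℝ := m1 A * A 4 1 - A 4 0 * (A 0 1 * A 2 2)
def ee (A : M5) : ℝ := x1 A * y3 A - y1 A * x3 A
def r1 (A : M5) : ℝ := A 1 1 * d4 A * y3 A - y1 A * (A 1 3 * d3 A)
def r2 (A : M5) : ℝ := x1 A * (A 1 3 * d3 A) - x3 A * (A 1 1 * d4 A)
def gg (A : M5) : ℝ := m1 A * r2 A - m2 A * r1 A
def P (A : M5) : ℝ := A 0 2 * A 2 2 * d3 A * d4 A * ee A * gg A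

lemma P_an : AnalyticOnNhd ℝ P Set.univ := by
  intro A _
  have h : ∀ i j, AnalyticAt ℝ (fun A : M5 => A i j) A := fun i j =>
    ((ContinuousLinearMap.proj j : (Fin 5 → ℝ) →L[ℝ] ℝ).comp
      (ContinuousLinearMap.proj i : M5 →L[ℝ] (Fin 5 → ℝ))).analyticAt A
  unfold P gg r1 r2 ee x1 y1 x3 y3 d3 d4 m1 m2
  repeat' first
    | exact h _ _
    | apply AnalyticAt.fun_mul
    | apply AnalyticAt.fun_sub

lemma dense (U : Set M5) (hU : IsOpen U) (hne : U.Nonempty) : ∃ A ∈ U, P A ≠ 0 := by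
  by_contra hc
  push Not at hc
  obtain ⟨A, hA⟩ := hne
  have := P_an.eqOn_zero_of_preconnected_of_eventuallyEq_zero isPreconnected_univ (Set.mem_univ A)
    (Filter.eventually_of_mem (hU.mem_nhds hA) hc)
    (Set.mem_univ (fun i j => if i = j then 2 else if (i, j) = (1, 3) then 5 else 1))
  revert this
  simp only [P, gg, r1, r2, ee, x1, y1, x3, y3, d3, d4, m1, m2]
  norm_num [Fin.ext_iff]

lemma complete (A : M5) (h : P A ≠ 0) : ∃ B : Matrix (Fin 5) (Fin 5) ℝ,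
    (∀ p ∈ EE, B p.1 p.2 = A p.1 p.2) ∧ B.rank ≤ 2 := by
  unfold P at h
  simp only [mul_ne_zero_iff] at h
  obtain ⟨⟨⟨⟨⟨hu, hv⟩, h3⟩, h4⟩, he⟩, hg⟩ := h
  let R : Matrix (Fin 5) (Fin 2) ℝ :=
    !![m1 A / A 2 2, m2 A / A 2 2; r1 A / ee A, r2 A / ee A; m1 A / A 0 2, m2 A / A 0 2;
      A 3 0, A 3 4; A 4 0, A 4 4]
  let C : Matrix (Fin 2) (Fin 5) ℝ :=
    !![1, x1 A / d4 A, (A 0 2 * A 2 2 * r2 A - m2 A * (A 1 2 * ee A)) / gg A, x3 A / d3 A, 0;
      0, y1 A / d4 A, (m1 A * (A 1 2 * ee A) - r1 A * (A 0 2 * A 2 2)) / gg A, y3 A / d3 A, 1]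
  refine ⟨R * C, ?_, (Matrix.rank_mul_le_left _ _).trans (Matrix.rank_le_width _)⟩
  rintro ⟨i, j⟩ hp
  have hp' : (j - i).val ≤ 2 := (Finset.mem_filter.1 hp).2
  fin_cases i <;> fin_cases j <;> first
    | exact absurd hp' (by decide)
    | (simp [R, C, Matrix.mul_apply, Fin.sum_univ_two]; done)
    | (simp [R, C, Matrix.mul_apply, Fin.sum_univ_two]
       field_simp
       first
        | (simp only [gg]; ring1)
        | (simp only [r1, r2, ee]; ring1)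
        | (simp only [x1, y1, x3, y3, d3, d4, m1, m2]; ring1))

/-- The negation of the preceding statement: For every bipartite graph with nonempty 3-core, there is a nonempty open set of real partial matrices on its edges that cannot be completed to rank at most 2, i.e. its maximal typical rank is at least 3.
Counterexample: the cubic 5 x 5 circulant pattern (row i sees columns i, i+1, i+2); making rows 0 and 2
proportional turns the completion problem into a chain of 2 x 2 linear systems. -/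
theorem result :
    ¬ (∀ (m n : ℕ) (E : Finset (Fin m × Fin n)),
      (∃ (R : Finset (Fin m)) (C : Finset (Fin n)),
          (R.Nonempty ∨ C.Nonempty) ∧
          (∀ i ∈ R, 3 ≤ (C.filter (fun j => (i, j) ∈ E)).card) ∧
          (∀ j ∈ C, 3 ≤ (R.filter (fun i => (i, j) ∈ E)).card)) →
      ∃ U : Set (Matrix (Fin m) (Fin n) ℝ),
        IsOpen U ∧ U.Nonempty ∧
        ∀ A ∈ U, ∀ B : Matrix (Fin m) (Fin n) ℝ,
          (∀ p ∈ E, B p.1 p.2 = A p.1 p.2) → 3 ≤ B.rank) := by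
  intro h
  obtain ⟨U, h1, h2, h3⟩ := h 5 5 EE ⟨Finset.univ, Finset.univ, Or.inl Finset.univ_nonempty,
    by decide, by decide⟩
  obtain ⟨A, hA, hP⟩ := dense U h1 h2
  obtain ⟨B, hB, hr⟩ := complete A hP
  have := h3 A hA B hB
  omega

end Pool.Agent.S00406
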