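import Pool.Statements.S00418
-- import your own Pool.Agent.* helpers here

set_option autoImplicit false
open Pool Pool.MP_bb72f8_ag

namespace Pool.Agent.S00418

open MvPolynomial

theorem deg_aeval (φ : Fin 2 → MvPolynomial (Fin 2) ℂ) (hφ : ∀ i, (φ i).totalDegree ≤ 1)
    (f : MvPolynomial (Fin 2) ℂ) : (aeval φ f).totalDegree ≤ f.totalDegree := by
  rw [aeval_def, eval₂_eq']
  apply totalDegree_finsetSum_le
  intro d hd
  refine (totalDegree_mul _ _).trans ?_
  have h0 : (algebraMap ℂ (MvPolynomial (Fin 2) ℂ) (coeff d f)).totalDegree = 0 := totalDegree_C _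
  rw [h0, zero_add]
  refine (totalDegree_finsetProd _ _).trans ?_
  have h1 : ∑ i : Fin 2, (φ i ^ d i).totalDegree ≤ ∑ i : Fin 2, d i := by
    apply Finset.sum_le_sum
    intro i _
    refine (totalDegree_pow _ _).trans ?_
    have := hφ i
    nlinarith
  refine h1.trans ?_
  have h2 := le_totalDegree hd
  rw [Finsupp.sum_fintype _ _ (fun _ => rfl)] at h2
  exact h2

noncomputable def mono (i j : ℕ) : Fin 2 →₀ ℕ := Finsupp.equivFunOnFinite.symm ![i, j]

theorem expand (g : MvPolynomial (Fin 2) ℂ) (hg : g.totalDegree ≤ 4) (u v : ℂ) :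
    eval ![u, v] g = ∑ i ∈ Finset.range 5, ∑ j ∈ Finset.range (5 - i),
      coeff (mono i j) g * (u ^ i * v ^ j) := by
  rw [eval_eq', Finset.sum_sigma']
  symm
  apply Finset.sum_bij_ne_zero (fun ij _ _ => mono ij.1 ij.2)
  · intro a _ h
    rw [mem_support_iff]
    exact left_ne_zero_of_mul h
  · intro a _ _ b _ _ h
    have h0 := congrArg (fun m : Fin 2 →₀ ℕ => m 0) h
    have h1 := congrArg (fun m : Fin 2 →₀ ℕ => m 1) h
    simp only [mono, Finsupp.equivFunOnFinite_symm_apply_apply, Matrix.cons_val_zero,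
      Matrix.cons_val_one] at h0 h1
    rcases a with ⟨a1, a2⟩
    rcases b with ⟨b1, b2⟩
    simp only at h0 h1
    subst h0
    subst h1
    rfl
  · intro d hd hne
    have h2 := (le_totalDegree hd).trans hg
    rw [Finsupp.sum_fintype _ _ (fun _ => rfl), Fin.sum_univ_two] at h2
    have hm : mono (d 0) (d 1) = d := by
      ext k
      fin_cases k <;> simp [mono]
    refine ⟨⟨d 0, d 1⟩, ?_, ?_, hm⟩
    · simp only [Finset.mem_sigma, Finset.mem_range]
      omega
    · simp only [hm]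
      rw [Fin.prod_univ_two] at hne
      simpa using hne
  · intro a _ _
    rw [Fin.prod_univ_two]
    simp [mono]

theorem low (A0 A1 A2 A3 A4 : ℂ) (h : Polynomial ℂ)
    (H : ∀ T : ℂ, A0 + A1 * T + A2 * T ^ 2 + A3 * T ^ 3 + A4 * T ^ 4 = T ^ 3 * h.eval T) :
    A0 = 0 ∧ A1 = 0 ∧ A2 = 0 := by
  have E : Polynomial.C A0 + Polynomial.C A1 * Polynomial.X + Polynomial.C A2 * Polynomial.X ^ 2
      = Polynomial.X ^ 3 * (h - Polynomial.C A3 - Polynomial.C A4 * Polynomial.X) := by
    apply Polynomial.funext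
    intro T
    simp only [Polynomial.eval_add, Polynomial.eval_mul, Polynomial.eval_C, Polynomial.eval_X,
      Polynomial.eval_pow, Polynomial.eval_sub]
    linear_combination H T
  have c0 := congrArg (fun p => Polynomial.coeff p 0) E
  have c1 := congrArg (fun p => Polynomial.coeff p 1) E
  have c2 := congrArg (fun p => Polynomial.coeff p 2) E
  simp only [Polynomial.coeff_X_pow_mul'] at c0 c1 c2
  simp [Polynomial.coeff_X, Polynomial.coeff_C, Polynomial.coeff_X_pow] at c0 c1 c2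
  exact ⟨c0, c1, c2⟩

theorem line3 (f : MvPolynomial (Fin 2) ℂ) (a b l m : ℂ)
    (hf : f ∈ (Ideal.span {(X 0 : MvPolynomial (Fin 2) ℂ) - C a, X 1 - C b}) ^ 3) :
    ∃ h : Polynomial ℂ, ∀ T : ℂ, eval ![a + l * T, b + m * T] f = T ^ 3 * h.eval T := by
  let ψ : MvPolynomial (Fin 2) ℂ →ₐ[ℂ] Polynomial ℂ :=
    aeval ![Polynomial.C a + Polynomial.C l * Polynomial.X,
      Polynomial.C b + Polynomial.C m * Polynomial.X]
  have h1 : Ideal.map ψ (Ideal.span {(X 0 : MvPolynomial (Fin 2) ℂ) - C a, X 1 - C b})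
      ≤ Ideal.span {(Polynomial.X : Polynomial ℂ)} := by
    rw [Ideal.map_le_iff_le_comap, Ideal.span_le]
    intro z hz
    simp only [Set.mem_insert_iff, Set.mem_singleton_iff] at hz
    rcases hz with rfl | rfl
    · simp only [SetLike.mem_coe, Ideal.mem_comap, Ideal.mem_span_singleton]
      refine ⟨Polynomial.C l, ?_⟩
      simp [ψ]
    · simp only [SetLike.mem_coe, Ideal.mem_comap, Ideal.mem_span_singleton]
      refine ⟨Polynomial.C m, ?_⟩
      simp [ψ]
  have h2 : ψ f ∈ Ideal.span {(Polynomial.X : Polynomial ℂ)} ^ 3 := by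
    have := Ideal.mem_map_of_mem ψ hf
    rw [Ideal.map_pow] at this
    exact Ideal.pow_right_mono h1 3 this
  rw [Ideal.span_singleton_pow, Ideal.mem_span_singleton] at h2
  obtain ⟨h, hh⟩ := h2
  refine ⟨h, fun T => ?_⟩
  have h3 : (ψ f).eval T = eval ![a + l * T, b + m * T] f := by
    have : (Polynomial.evalRingHom T).comp (ψ : MvPolynomial (Fin 2) ℂ →+* Polynomial ℂ)
        = eval ![a + l * T, b + m * T] := by
      apply ringHom_ext
      · intro r
        simp [ψ]
      · intro i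
        fin_cases i <;> simp [ψ]
    exact RingHom.congr_fun this f
  rw [← h3, hh]
  simp

theorem pt1 (f : MvPolynomial (Fin 2) ℂ) (a b : ℂ)
    (hf : f ∈ (Ideal.span {(X 0 : MvPolynomial (Fin 2) ℂ) - C a, X 1 - C b}) ^ 1) :
    eval ![a, b] f = 0 := by
  rw [pow_one, Ideal.mem_span_pair] at hf
  obtain ⟨r, s, rfl⟩ := hf
  simp

theorem shape (f : MvPolynomial (Fin 2) ℂ) (hd : f.totalDegree ≤ 4) (a b s t : ℂ)
    (h1 : f ∈ (Ideal.span {(X 0 : MvPolynomial (Fin 2) ℂ) - C a, X 1 - C b}) ^ 3)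
    (h2 : f ∈ (Ideal.span {(X 0 : MvPolynomial (Fin 2) ℂ) - C (a + s), X 1 - C (b + t)}) ^ 3) :
    ∃ α β γ δ : ℂ, ∀ u v : ℂ, eval ![a + s * u, b + t * u + v] f
      = v ^ 2 * (α * (u ^ 2 - u) + β * v + γ * (u * v) + δ * v ^ 2) := by
  let φ : Fin 2 → MvPolynomial (Fin 2) ℂ :=
    ![C a + C s * X 0, C b + C t * X 0 + X 1]
  have hφ : ∀ i, (φ i).totalDegree ≤ 1 := by
    have e0 : ∀ (c : ℂ) (k : Fin 2), (C c * X k : MvPolynomial (Fin 2) ℂ).totalDegree ≤ 1 := by
      intro c k
      refine (totalDegree_mul _ _).trans ?_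
      rw [totalDegree_C, totalDegree_X]
    have e1 : ∀ (c : ℂ), (C c : MvPolynomial (Fin 2) ℂ).totalDegree ≤ 1 := by
      intro c
      rw [totalDegree_C]
      omega
    intro i
    fin_cases i
    · exact (totalDegree_add _ _).trans (max_le (e1 _) (e0 _ _))
    · refine (totalDegree_add _ _).trans (max_le ?_ ?_)
      · exact (totalDegree_add _ _).trans (max_le (e1 _) (e0 _ _))
      · rw [totalDegree_X]
  have hg := (deg_aeval φ hφ f).trans hd
  have hev : ∀ u v : ℂ, eval ![a + s * u, b + t * u + v] f = eval ![u, v] (aeval φ f) := by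
    intro u v
    have : (eval ![u, v]).comp (aeval φ : MvPolynomial (Fin 2) ℂ →ₐ[ℂ] _).toRingHom
        = eval ![a + s * u, b + t * u + v] := by
      apply ringHom_ext
      · intro r
        simp
      · intro i
        fin_cases i <;> simp [φ]
    exact (RingHom.congr_fun this f).symm
  generalize aeval φ f = g at hg hev
  have ex := expand g hg
  simp only [Finset.sum_range_succ, Finset.range_zero, Finset.sum_empty, Nat.reduceSub] at ex
  generalize coeff (mono 0 0) g = c00 at ex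
  generalize coeff (mono 0 1) g = c01 at ex
  generalize coeff (mono 0 2) g = c02 at ex
  generalize coeff (mono 0 3) g = c03 at ex
  generalize coeff (mono 0 4) g = c04 at ex
  generalize coeff (mono 1 0) g = c10 at ex
  generalize coeff (mono 1 1) g = c11 at ex
  generalize coeff (mono 1 2) g = c12 at ex
  generalize coeff (mono 1 3) g = c13 at ex
  generalize coeff (mono 2 0) g = c20 at ex
  generalize coeff (mono 2 1) g = c21 at ex
  generalize coeff (mono 2 2) g = c22 at ex
  generalize coeff (mono 3 0) g = c30 at ex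
  generalize coeff (mono 3 1) g = c31 at ex
  generalize coeff (mono 4 0) g = c40 at ex
  have A : ∀ l m : ℂ, c00 = 0 ∧ c10 * l + c01 * m = 0 ∧
      c20 * l ^ 2 + c11 * l * m + c02 * m ^ 2 = 0 := by
    intro l m
    obtain ⟨h, hh⟩ := line3 f a b (s * l) (t * l + m) h1
    refine low _ _ _ (c30 * l ^ 3 + c21 * l ^ 2 * m + c12 * l * m ^ 2 + c03 * m ^ 3)
      (c40 * l ^ 4 + c31 * l ^ 3 * m + c22 * l ^ 2 * m ^ 2 + c13 * l * m ^ 3 + c04 * m ^ 4) h ?_
    intro T
    rw [← hh T]
    have e := hev (l * T) (m * T)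
    rw [ex] at e
    have e2 : ![a + s * l * T, b + (t * l + m) * T] = ![a + s * (l * T), b + t * (l * T) + m * T] := by
      congr 1
      · ring
      · congr 1
        ring
    rw [e2, e]
    ring
  have B : ∀ l m : ℂ, c00 + c10 + c20 + c30 + c40 = 0 ∧
      (c10 + 2 * c20 + 3 * c30 + 4 * c40) * l + (c01 + c11 + c21 + c31) * m = 0 ∧
      (c20 + 3 * c30 + 6 * c40) * l ^ 2 + (c11 + 2 * c21 + 3 * c31) * l * m
        + (c02 + c12 + c22) * m ^ 2 = 0 := by
    intro l m
    obtain ⟨h, hh⟩ := line3 f (a + s) (b + t) (s * l) (t * l + m) h2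
    refine low _ _ _ ((c30 + 4 * c40) * l ^ 3 + (c21 + 3 * c31) * l ^ 2 * m
        + (c12 + 2 * c22) * l * m ^ 2 + (c03 + c13) * m ^ 3)
      (c40 * l ^ 4 + c31 * l ^ 3 * m + c22 * l ^ 2 * m ^ 2 + c13 * l * m ^ 3 + c04 * m ^ 4) h ?_
    intro T
    rw [← hh T]
    have e := hev (1 + l * T) (m * T)
    rw [ex] at e
    have e2 : ![a + s + s * l * T, b + t + (t * l + m) * T]
        = ![a + s * (1 + l * T), b + t * (1 + l * T) + m * T] := by
      congr 1
      · ring
      · congr 1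
        ring
    rw [e2, e]
    ring
  obtain ⟨z00, a1, a2⟩ := A 1 0
  obtain ⟨-, a3, a4⟩ := A 0 1
  obtain ⟨-, -, a5⟩ := A 1 1
  obtain ⟨b0, b1, -⟩ := B 1 0
  obtain ⟨-, b3, b4⟩ := B 0 1
  obtain ⟨-, -, b5⟩ := B 1 1
  obtain ⟨-, -, b2⟩ := B 1 0
  have z10 : c10 = 0 := by linear_combination a1
  have z20 : c20 = 0 := by linear_combination a2
  have z01 : c01 = 0 := by linear_combination a3
  have z02 : c02 = 0 := by linear_combination a4
  have z11 : c11 = 0 := by linear_combination a5 - z20 - z02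
  have z40 : c40 = 0 := by linear_combination b1 - 3 * b0 + 3 * z00 + 2 * z10 + z20
  have z30 : c30 = 0 := by linear_combination b0 - z00 - z10 - z20 - z40
  have z31 : c31 = 0 := by linear_combination b5 - b2 - b4 - 2 * b3 + 2 * z01 + z11
  have z21 : c21 = 0 := by linear_combination b3 - z01 - z11 - z31
  have z12 : c12 = -c22 := by linear_combination b4 - z02
  refine ⟨c22, c03, c13, c04, fun u v => ?_⟩
  rw [hev, ex, z00, z10, z20, z01, z02, z11, z40, z30, z31, z21, z12]
  ring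

def sS {R : Type} [CommRing R] (q : Fin 6 × Fin 2 → R) : R := q (5, 0) - q (4, 0)

def uU {R : Type} [CommRing R] (q : Fin 6 × Fin 2 → R) (i : Fin 4) : R :=
  q (Fin.castLE (by omega) i, 0) - q (4, 0)

def vV {R : Type} [CommRing R] (q : Fin 6 × Fin 2 → R) (i : Fin 4) : R :=
  sS q * (q (Fin.castLE (by omega) i, 1) - q (4, 1)) - (q (5, 1) - q (4, 1)) * uU q i

def mM {R : Type} [CommRing R] (q : Fin 6 × Fin 2 → R) : Matrix (Fin 4) (Fin 4) R :=
  Matrix.of fun i => ![uU q i ^ 2 - sS q * uU q i, sS q * vV q i, uU q i * vV q i, vV q i ^ 2]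

def dD {R : Type} [CommRing R] (q : Fin 6 × Fin 2 → R) : R :=
  sS q * (∏ i, vV q i) * (mM q).det

theorem map_dD {R S : Type} [CommRing R] [CommRing S] (ρ : R →+* S) (q : Fin 6 × Fin 2 → R) :
    ρ (dD q) = dD (fun k => ρ (q k)) := by
  have hs : ρ (sS q) = sS (fun k => ρ (q k)) := by simp [sS]
  have hu : ∀ i, ρ (uU q i) = uU (fun k => ρ (q k)) i := by
    intro i
    simp [uU]
  have hv : ∀ i, ρ (vV q i) = vV (fun k => ρ (q k)) i := by
    intro i
    simp [vV, hs, hu]
  have hm : ρ.mapMatrix (mM q) = mM (fun k => ρ (q k)) := by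
    ext i j
    fin_cases j <;> simp [mM, hs, hu, hv]
  rw [dD, dD, map_mul, map_mul, map_prod, RingHom.map_det, hm, hs]
  simp only [hv]

def q0 : Fin 6 × Fin 2 → ℂ := fun k => ![![0, 1], ![1, 1], ![0, 2], ![2, 1], ![0, 0], ![1, 0]] k.1 k.2

theorem dD_q0 : dD q0 ≠ 0 := by
  have hs : sS q0 = 1 := by simp [sS, q0]
  have hu : uU q0 = ![0, 1, 0, 2] := by
    funext i
    fin_cases i <;> simp [uU, q0, Fin.castLE]
  have hv : vV q0 = ![1, 1, 2, 1] := by
    funext i
    fin_cases i <;> simp [vV, hs, hu, q0, Fin.castLE]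
  have hm : mM q0 = !![0, 1, 0, 1; 0, 1, 1, 1; 0, 2, 0, 4; 2, 1, 2, 1] := by
    ext i j
    fin_cases i <;> fin_cases j <;> simp [mM, hs, hu, hv] <;> norm_num
  rw [dD, hs, hv, hm]
  simp [Fin.prod_univ_four, Matrix.det_succ_row_zero, Fin.sum_univ_succ, Fin.succAbove]
  norm_num

theorem empty (p : Fin 6 → Fin 2 → ℂ) (hp : dD (fun ij : Fin 6 × Fin 2 => p ij.1 ij.2) ≠ 0)
    (f : MvPolynomial (Fin 2) ℂ) (hd : f.totalDegree ≤ 4)
    (hf : ∀ i : Fin 6, f ∈ (Ideal.span
      {(X 0 : MvPolynomial (Fin 2) ℂ) - C (p i 0), X 1 - C (p i 1)}) ^ (![1, 1, 1, 1, 3, 3] i)) :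
    f = 0 := by
  set q : Fin 6 × Fin 2 → ℂ := fun ij => p ij.1 ij.2 with hq
  have hs : sS q ≠ 0 := left_ne_zero_of_mul (left_ne_zero_of_mul hp)
  have hv : ∀ i, vV q i ≠ 0 := by
    have := right_ne_zero_of_mul (left_ne_zero_of_mul hp)
    rw [Finset.prod_ne_zero_iff] at this
    exact fun i => this i (Finset.mem_univ _)
  have hm : (mM q).det ≠ 0 := right_ne_zero_of_mul hp
  have e0 : p 5 0 = p 4 0 + sS q := by simp [sS, hq]
  have e1 : p 5 1 = p 4 1 + (p 5 1 - p 4 1) := by ring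
  have h4 := hf 4
  have h5 := hf 5
  rw [e0, e1] at h5
  obtain ⟨α, β, γ, δ, H⟩ := shape f hd (p 4 0) (p 4 1) (sS q) (p 5 1 - p 4 1) h4 h5
  have hz : (mM q).mulVec ![α, β, γ, δ] = 0 := by
    funext i
    have hi : f ∈ (Ideal.span {(X 0 : MvPolynomial (Fin 2) ℂ) - C (p (Fin.castLE (by omega) i) 0),
        X 1 - C (p (Fin.castLE (by omega) i) 1)}) ^ 1 := by
      have := hf (Fin.castLE (by omega) i)
      fin_cases i <;> exact this
    have h1 := pt1 f _ _ hi
    have h2 := H (uU q i / sS q) (vV q i / sS q)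
    have a0 : p 4 0 + sS q * (uU q i / sS q) = p (Fin.castLE (by omega) i) 0 := by
      rw [mul_div_cancel₀ _ hs]
      simp [uU, hq]
    have a1 : p 4 1 + (p 5 1 - p 4 1) * (uU q i / sS q) + vV q i / sS q
        = p (Fin.castLE (by omega) i) 1 := by
      have : vV q i = sS q * (p (Fin.castLE (by omega) i) 1 - p 4 1) - (p 5 1 - p 4 1) * uU q i := rfl
      rw [this]
      field_simp
      ring
    rw [a0, a1, h1] at h2
    have h3 := (mul_eq_zero.mp h2.symm).resolve_left (pow_ne_zero 2 (div_ne_zero (hv i) hs))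
    have h6 : α * (uU q i ^ 2 - sS q * uU q i) + β * (sS q * vV q i) + γ * (uU q i * vV q i)
        + δ * vV q i ^ 2 = 0 := by
      field_simp at h3
      linear_combination h3
    simp only [Matrix.mulVec, dotProduct, Fin.sum_univ_four, mM, Matrix.of_apply,
      Matrix.cons_val_zero, Matrix.cons_val_one, Matrix.cons_val, Pi.zero_apply]
    linear_combination h6
  have h0 := Matrix.eq_zero_of_mulVec_eq_zero hm hz
  have z0 : α = 0 := congrFun h0 0
  have z1 : β = 0 := congrFun h0 1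
  have z2 : γ = 0 := congrFun h0 2
  have z3 : δ = 0 := congrFun h0 3
  apply MvPolynomial.funext
  intro x
  have h2 := H ((x 0 - p 4 0) / sS q) (x 1 - p 4 1 - (p 5 1 - p 4 1) * ((x 0 - p 4 0) / sS q))
  have hx : ![p 4 0 + sS q * ((x 0 - p 4 0) / sS q), p 4 1 + (p 5 1 - p 4 1) * ((x 0 - p 4 0) / sS q)
      + (x 1 - p 4 1 - (p 5 1 - p 4 1) * ((x 0 - p 4 0) / sS q))] = x := by
    funext k
    fin_cases k
    · simp [mul_div_cancel₀ _ hs]
    · simp
  rw [hx, z0, z1, z2, z3] at h2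
  simpa using h2

theorem mem_one {I : Ideal (MvPolynomial (Fin 2) ℂ)} {f : MvPolynomial (Fin 2) ℂ} (h : f ∈ I) :
    f ∈ I ^ 1 := by
  rw [pow_one]
  exact h

noncomputable def ln (a b c d : ℂ) : MvPolynomial (Fin 2) ℂ :=
  C d * (X 0 - C a) - C c * (X 1 - C b)

theorem ln_ne (a b c d : ℂ) (hc : c ≠ 0) : ln a b c d ≠ 0 := by
  intro h
  have := congrArg (eval ![a, b + 1]) h
  simp [ln] at this
  exact hc this

theorem ln_deg (a b c d : ℂ) : (ln a b c d).totalDegree ≤ 1 := by
  have e0 : ∀ (c e : ℂ) (k : Fin 2),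
      (C c * (X k - C e) : MvPolynomial (Fin 2) ℂ).totalDegree ≤ 1 := by
    intro c e k
    refine (totalDegree_mul _ _).trans ?_
    rw [totalDegree_C, zero_add]
    refine (totalDegree_sub _ _).trans (max_le ?_ ?_)
    · rw [totalDegree_X]
    · rw [totalDegree_C]
      omega
  exact (totalDegree_sub _ _).trans (max_le (e0 _ _ _) (e0 _ _ _))

theorem ln_mem (a b c d l x y : ℂ) (hx : x = a + l * c) (hy : y = b + l * d) :
    ln a b c d ∈ Ideal.span {(X 0 : MvPolynomial (Fin 2) ℂ) - C x, X 1 - C y} := by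
  rw [Ideal.mem_span_pair]
  refine ⟨C d, - C c, ?_⟩
  rw [hx, hy, ln]
  simp only [map_add, map_mul]
  ring

/-- The negation of the preceding statement: Over ℂ, if d ≥ m₁+…+m_r, a nonzero plane curve of degree ≤ d with multiplicity ≥ mᵢ at n general points exists iff one exists when the first r points are general points on a general line and the others are general. -/
theorem result :
    ¬ (∀ (n r d : ℕ) (m : Fin n → ℕ), r ≤ n →
    (∑ i ∈ Finset.univ.filter (fun i : Fin n => i.val < r), m i) ≤ d →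
    ((∃ G : MvPolynomial (Fin n × Fin 2) ℂ, G ≠ 0 ∧
        ∀ p : Fin n → Fin 2 → ℂ,
          MvPolynomial.eval (fun ij : Fin n × Fin 2 => p ij.1 ij.2) G ≠ 0 →
          ∃ f : MvPolynomial (Fin 2) ℂ, f ≠ 0 ∧ f.totalDegree ≤ d ∧
            ∀ i : Fin n,
              f ∈ (Ideal.span
                {(MvPolynomial.X 0 : MvPolynomial (Fin 2) ℂ) - MvPolynomial.C (p i 0),
                 (MvPolynomial.X 1 : MvPolynomial (Fin 2) ℂ) - MvPolynomial.C (p i 1)}) ^ (m i))
      ↔
     (∃ G : MvPolynomial (Fin (n + 2) × Fin 2) ℂ, G ≠ 0 ∧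
        ∀ w : Fin (n + 2) → Fin 2 → ℂ,
          MvPolynomial.eval (fun ij : Fin (n + 2) × Fin 2 => w ij.1 ij.2) G ≠ 0 →
          ∃ f : MvPolynomial (Fin 2) ℂ, f ≠ 0 ∧ f.totalDegree ≤ d ∧
            ∀ i : Fin n,
              f ∈ (Ideal.span
                {(MvPolynomial.X 0 : MvPolynomial (Fin 2) ℂ) - MvPolynomial.C
                    (if i.val < r then
                      w (Fin.castSucc (Fin.last n)) 0
                        + w (Fin.castSucc (Fin.castSucc i)) 0 * w (Fin.last (n + 1)) 0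
                     else w (Fin.castSucc (Fin.castSucc i)) 0),
                 (MvPolynomial.X 1 : MvPolynomial (Fin 2) ℂ) - MvPolynomial.C
                    (if i.val < r then
                      w (Fin.castSucc (Fin.last n)) 1
                        + w (Fin.castSucc (Fin.castSucc i)) 0 * w (Fin.last (n + 1)) 1
                     else w (Fin.castSucc (Fin.castSucc i)) 1)}) ^ (m i)))) := by
  intro H
  have H1 := (H 6 4 4 ![1, 1, 1, 1, 3, 3] (by omega) (by decide)).mpr ?_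
  · obtain ⟨G, hG, hh⟩ := H1
    have hD : dD (X : Fin 6 × Fin 2 → MvPolynomial (Fin 6 × Fin 2) ℂ) ≠ 0 := by
      intro h
      have := map_dD (eval q0) (X : Fin 6 × Fin 2 → MvPolynomial (Fin 6 × Fin 2) ℂ)
      rw [h, map_zero] at this
      simp only [eval_X] at this
      exact dD_q0 this.symm
    have hne := mul_ne_zero hG hD
    obtain ⟨q, hq⟩ : ∃ q : Fin 6 × Fin 2 → ℂ, eval q (G * dD X) ≠ 0 := by
      by_contra hc
      push Not at hc
      exact hne (MvPolynomial.funext (fun q => by rw [hc q, map_zero]))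
    rw [map_mul, map_dD] at hq
    simp only [eval_X] at hq
    obtain ⟨f, hf0, hd, hf⟩ := hh (fun i j => q (i, j)) (left_ne_zero_of_mul hq)
    exact hf0 (empty (fun i j => q (i, j)) (right_ne_zero_of_mul hq) f hd hf)
  · refine ⟨X (7, 0) * (X (5, 0) - X (4, 0)), ?_, ?_⟩
    · intro h
      have := congrArg (eval (fun k : Fin (6 + 2) × Fin 2 => (k.1.val : ℂ))) h
      simp at this
      norm_num at this
    · intro w hw
      simp only [map_mul, map_sub, eval_X] at hw
      have w1 : w 7 0 ≠ 0 := left_ne_zero_of_mul hw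
      have w2 : w 5 0 - w 4 0 ≠ 0 := right_ne_zero_of_mul hw
      refine ⟨ln (w 6 0) (w 6 1) (w 7 0) (w 7 1)
        * ln (w 4 0) (w 4 1) (w 5 0 - w 4 0) (w 5 1 - w 4 1) ^ 3, ?_, ?_, ?_⟩
      · exact mul_ne_zero (ln_ne _ _ _ _ w1) (pow_ne_zero 3 (ln_ne _ _ _ _ w2))
      · refine (totalDegree_mul _ _).trans ?_
        have d1 := ln_deg (w 6 0) (w 6 1) (w 7 0) (w 7 1)
        have d2 := ln_deg (w 4 0) (w 4 1) (w 5 0 - w 4 0) (w 5 1 - w 4 1)
        have d3 := totalDegree_pow (ln (w 4 0) (w 4 1) (w 5 0 - w 4 0) (w 5 1 - w 4 1)) 3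
        omega
      · intro i
        fin_cases i
        · exact mem_one (Ideal.mul_mem_right _ _ (ln_mem _ _ _ _ (w 0 0) _ _ rfl rfl))
        · exact mem_one (Ideal.mul_mem_right _ _ (ln_mem _ _ _ _ (w 1 0) _ _ rfl rfl))
        · exact mem_one (Ideal.mul_mem_right _ _ (ln_mem _ _ _ _ (w 2 0) _ _ rfl rfl))
        · exact mem_one (Ideal.mul_mem_right _ _ (ln_mem _ _ _ _ (w 3 0) _ _ rfl rfl))
        · refine Ideal.mul_mem_left _ _ (Ideal.pow_mem_pow (ln_mem _ _ _ _ 0 _ _ ?_ ?_) 3)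
          · show w 4 0 = _
            ring
          · show w 4 1 = _
            ring
        · refine Ideal.mul_mem_left _ _ (Ideal.pow_mem_pow (ln_mem _ _ _ _ 1 _ _ ?_ ?_) 3)
          · show w 5 0 = _
            ring
          · show w 5 1 = _
            ring

end Pool.Agent.S00418
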