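import Pool.Statements.S00426

set_option autoImplicit false
open Pool Pool.MP_c213cb_ag

namespace Pool.Agent.S00426

open Finset

section generic
variable {F : Type} [Field F]

def marg {n : ℕ} {d : Fin n → ℕ} (T : ((k : Fin n) → Fin (d k)) → F) (S : Finset (Fin n))
    (x : (k : Fin n) → Fin (d k)) : F :=
  ∑ z ∈ (Finset.univ : Finset ((k : Fin n) → Fin (d k))).filter
    (fun z : ((k : Fin n) → Fin (d k)) => ∀ k ∈ S, z k = x k), T z

def CI {n : ℕ} {d : Fin n → ℕ} (T : ((k : Fin n) → Fin (d k)) → F) (i j : Fin n)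
    (K : Finset (Fin n)) : Prop :=
  ∀ x y : (k : Fin n) → Fin (d k), (∀ k ∈ K, x k = y k) →
    marg T (insert i (insert j K)) x * marg T (insert i (insert j K)) y =
    marg T (insert i (insert j K)) (Function.update x j (y j)) *
    marg T (insert i (insert j K)) (Function.update y j (x j))

abbrev St := Fin 20 → Fin 2

def M (T : St → F) (i j : Fin 20) (a b c d : Fin 2) : F :=
  ∑ z : St, if z i = a ∧ z j = b ∧ z 0 = c ∧ z 1 = d then T z else 0

def N (T : St → F) (i j : Fin 20) (a b : Fin 2) : F :=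
  ∑ z : St, if z i = a ∧ z j = b then T z else 0

lemma marg_M (T : St → F) (i j : Fin 20) (x : St) :
    marg (d := fun _ => 2) T (insert i (insert j {0, 1})) x = M T i j (x i) (x j) (x 0) (x 1) := by
  unfold marg M
  rw [Finset.sum_filter]
  refine Finset.sum_congr rfl fun z _ => if_congr ?_ rfl rfl
  simp only [Finset.mem_insert, Finset.mem_singleton, forall_eq_or_imp, forall_eq]

lemma marg_N (T : St → F) (i j : Fin 20) (x : St) :
    marg (d := fun _ => 2) T (insert i (insert j ∅)) x = N T i j (x i) (x j) := by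
  unfold marg N
  rw [Finset.sum_filter]
  refine Finset.sum_congr rfl fun z _ => if_congr ?_ rfl rfl
  simp only [Finset.mem_insert, Finset.notMem_empty, or_false, forall_eq_or_imp, forall_eq]

lemma N_eq (T : St → F) (i j : Fin 20) (a b : Fin 2) :
    N T i j a b = M T i j a b 0 0 + M T i j a b 0 1 + M T i j a b 1 0 + M T i j a b 1 1 := by
  unfold N M
  rw [← Finset.sum_add_distrib, ← Finset.sum_add_distrib, ← Finset.sum_add_distrib]
  refine Finset.sum_congr rfl fun z _ => ?_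
  generalize z 0 = c
  generalize z 1 = d
  by_cases h1 : z i = a <;> by_cases h2 : z j = b <;> fin_cases c <;> fin_cases d <;> simp [h1, h2]

def st (i j : Fin 20) (a b c d : Fin 2) : St :=
  fun k => if k = i then a else if k = j then b else if k = 0 then c else d

lemma CI_M (T : St → F) (i j : Fin 20) (hij : i ≠ j) (hi0 : i ≠ 0) (hi1 : i ≠ 1) (hj0 : j ≠ 0)
    (hj1 : j ≠ 1) :
    CI (d := fun _ => 2) T i j {0, 1} ↔
      ∀ a a' b b' c d, M T i j a b c d * M T i j a' b' c d = M T i j a b' c d * M T i j a' b c d := by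
  constructor
  · intro h a a' b b' c d
    have := h (st i j a b c d) (st i j a' b' c d) (by
      intro k hk
      simp only [Finset.mem_insert, Finset.mem_singleton] at hk
      rcases hk with rfl | rfl <;> simp [st, hi0.symm, hi1.symm, hj0.symm, hj1.symm])
    simp only [marg_M] at this
    simpa [st, hij, hij.symm, hi0, hi1, hj0, hj1, hi0.symm, hi1.symm, hj0.symm, hj1.symm] using this
  · intro h x y hxy
    have h0 : x 0 = y 0 := hxy 0 (by simp)
    have h1 : x 1 = y 1 := hxy 1 (by simp)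
    simp only [marg_M]
    simp only [Function.update_self, Function.update_of_ne hij, Function.update_of_ne hj0.symm,
      Function.update_of_ne hj1.symm, ← h0, ← h1]
    exact h _ _ _ _ _ _

lemma CI_N (T : St → F) (i j : Fin 20) (hij : i ≠ j) :
    CI (d := fun _ => 2) T i j ∅ ↔
      N T i j 1 1 * N T i j 0 0 = N T i j 1 0 * N T i j 0 1 := by
  constructor
  · intro h
    have := h (st i j 1 1 0 0) (st i j 0 0 0 0) (by simp)
    simp only [marg_N] at this
    simpa [st, hij, hij.symm] using this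
  · intro h x y _
    simp only [marg_N]
    simp only [Function.update_self, Function.update_of_ne hij]
    generalize x i = a
    generalize x j = b
    generalize y i = a'
    generalize y j = b'
    fin_cases a <;> fin_cases b <;> fin_cases a' <;> fin_cases b' <;> simp <;>
      first | ring1 | linear_combination h | linear_combination -h

/-- one-variable marginals -/
def al (T : St → F) (i : Fin 20) (c d : Fin 2) : F :=
  ∑ z : St, if z i = 1 ∧ z 0 = c ∧ z 1 = d then T z else 0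

def pi (T : St → F) (c d : Fin 2) : F :=
  ∑ z : St, if z 0 = c ∧ z 1 = d then T z else 0

lemma al_left (T : St → F) (i j : Fin 20) (c d : Fin 2) :
    al T i c d = M T i j 1 1 c d + M T i j 1 0 c d := by
  unfold al M
  rw [← Finset.sum_add_distrib]
  refine Finset.sum_congr rfl fun z _ => ?_
  generalize z j = b
  by_cases h1 : z i = 1 <;> by_cases h2 : z 0 = c <;> by_cases h3 : z 1 = d <;> fin_cases b <;>
    simp [h1, h2, h3]

lemma al_right (T : St → F) (i j : Fin 20) (c d : Fin 2) :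
    al T j c d = M T i j 1 1 c d + M T i j 0 1 c d := by
  unfold al M
  rw [← Finset.sum_add_distrib]
  refine Finset.sum_congr rfl fun z _ => ?_
  generalize z i = b
  by_cases h1 : z j = 1 <;> by_cases h2 : z 0 = c <;> by_cases h3 : z 1 = d <;> fin_cases b <;>
    simp [h1, h2, h3]

lemma pi_eq (T : St → F) (i j : Fin 20) (c d : Fin 2) :
    pi T c d = M T i j 1 1 c d + M T i j 1 0 c d + M T i j 0 1 c d + M T i j 0 0 c d := by
  unfold pi M
  rw [← Finset.sum_add_distrib, ← Finset.sum_add_distrib, ← Finset.sum_add_distrib]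
  refine Finset.sum_congr rfl fun z _ => ?_
  generalize z i = a
  generalize z j = b
  by_cases h2 : z 0 = c <;> by_cases h3 : z 1 = d <;> fin_cases a <;> fin_cases b <;>
    simp [h2, h3]

def U (T : St → F) (i : Fin 20) (c d : Fin 2) : F :=
  al T i c d / pi T c d - al T i 0 0 / pi T 0 0

def W (T : St → F) (j : Fin 20) (c d : Fin 2) : F :=
  (pi T 0 0 + pi T 0 1 + pi T 1 0 + pi T 1 1) * al T j c d -
    pi T c d * (al T j 0 0 + al T j 0 1 + al T j 1 0 + al T j 1 1)

lemma det_eq (T : St → F) (i j : Fin 20) (hp : ∀ c d, pi T c d ≠ 0)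
    (h : ∀ a a' b b' c d, M T i j a b c d * M T i j a' b' c d = M T i j a b' c d * M T i j a' b c d) :
    N T i j 1 1 * N T i j 0 0 - N T i j 1 0 * N T i j 0 1 =
      U T i 0 1 * W T j 0 1 + U T i 1 0 * W T j 1 0 + U T i 1 1 * W T j 1 1 := by
  have key : ∀ c d, M T i j 1 1 c d = al T i c d / pi T c d * al T j c d := by
    intro c d
    have h1 := h 1 0 1 0 c d
    have h2 := hp c d
    field_simp
    rw [al_left T i j, al_right T i j, pi_eq T i j]
    linear_combination h1
  have key2 : ∀ c d, al T i c d = al T i c d / pi T c d * pi T c d := by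
    intro c d
    have h2 := hp c d
    field_simp
  have e1 : N T i j 1 1 * N T i j 0 0 - N T i j 1 0 * N T i j 0 1 =
      N T i j 1 1 * (pi T 0 0 + pi T 0 1 + pi T 1 0 + pi T 1 1) -
        (al T i 0 0 + al T i 0 1 + al T i 1 0 + al T i 1 1) *
        (al T j 0 0 + al T j 0 1 + al T j 1 0 + al T j 1 1) := by
    simp only [N_eq, pi_eq T i j, al_left T i j, al_right T i j]
    ring
  rw [e1, N_eq, key, key, key, key]
  unfold U W
  have a1 := key2 0 0
  have a2 := key2 0 1
  have a3 := key2 1 0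
  have a4 := key2 1 1
  generalize al T i 0 0 / pi T 0 0 = f1 at *
  generalize al T i 0 1 / pi T 0 1 = f2 at *
  generalize al T i 1 0 / pi T 1 0 = f3 at *
  generalize al T i 1 1 / pi T 1 1 = f4 at *
  rw [a1, a2, a3, a4]
  ring

end generic

/-! ### The rational obstruction -/

def dot {F : Type} [Field F] (u w : F × F × F) : F := u.1 * w.1 + u.2.1 * w.2.1 + u.2.2 * w.2.2

lemma col (p q r s l x y z : ℚ × ℚ × ℚ) (hp : dot p l = 0) (hq : dot q l = 0) (hr : dot r l = 0)
    (hs : dot s l ≠ 0) :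
    dot p x * (dot q y * dot r z - dot q z * dot r y) - dot p y * (dot q x * dot r z - dot q z * dot r x)
      + dot p z * (dot q x * dot r y - dot q y * dot r x) = 0 := by
  obtain ⟨p1, p2, p3⟩ := p
  obtain ⟨q1, q2, q3⟩ := q
  obtain ⟨r1, r2, r3⟩ := r
  obtain ⟨s1, s2, s3⟩ := s
  obtain ⟨l1, l2, l3⟩ := l
  obtain ⟨x1, x2, x3⟩ := x
  obtain ⟨y1, y2, y3⟩ := y
  obtain ⟨z1, z2, z3⟩ := z
  simp only [dot] at *
  have h : (p1 * (q2 * r3 - q3 * r2) - p2 * (q1 * r3 - q3 * r1) + p3 * (q1 * r2 - q2 * r1)) = 0 := by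
    apply mul_left_cancel₀ hs
    linear_combination
      (s1 * (q2 * r3 - q3 * r2) - s2 * (q1 * r3 - q3 * r1) + s3 * (q1 * r2 - q2 * r1)) * hp +
      (p1 * (s2 * r3 - s3 * r2) - p2 * (s1 * r3 - s3 * r1) + p3 * (s1 * r2 - s2 * r1)) * hq +
      (p1 * (q2 * s3 - q3 * s2) - p2 * (q1 * s3 - q3 * s1) + p3 * (q1 * s2 - q2 * s1)) * hr
  linear_combination
    (x1 * (y2 * z3 - y3 * z2) - x2 * (y1 * z3 - y3 * z1) + x3 * (y1 * z2 - y2 * z1)) * h

lemma no_golden (a : ℚ) : a ^ 2 - a - 1 ≠ 0 := by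
  intro h
  have h5 : ((2 * a - 1 : ℚ) : ℝ) ^ 2 = 5 := by
    have : (2 * a - 1) ^ 2 = 5 := by linear_combination 4 * h
    exact_mod_cast this
  have hi : Irrational (Real.sqrt (5 : ℕ)) := Nat.Prime.irrational_sqrt (by norm_num)
  apply hi
  refine ⟨|2 * a - 1|, ?_⟩
  rw [Rat.cast_abs, ← Real.sqrt_sq_eq_abs, h5]
  norm_num

lemma perles (A B C D E F G H I lx ly lz l1 l2 l3 l4 l5 l6 : ℚ × ℚ × ℚ)
    (x1 : dot D lx = 0) (x2 : dot E lx = 0) (x3 : dot I lx = 0)
    (y1 : dot A ly = 0) (y2 : dot B ly = 0) (y3 : dot E ly = 0) (y4 : dot F ly = 0)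
    (z1 : dot A lz = 0) (z2 : dot D lz = 0) (z3 : dot G lz = 0)
    (a1 : dot A l1 = 0) (a2 : dot H l1 = 0) (a3 : dot I l1 = 0) (a4 : dot D l1 ≠ 0)
    (b1 : dot B l2 = 0) (b2 : dot G l2 = 0) (b3 : dot I l2 = 0) (b4 : dot A l2 ≠ 0)
    (c1 : dot C l3 = 0) (c2 : dot E l3 = 0) (c3 : dot G l3 = 0) (c4 : dot A l3 ≠ 0)
    (d1 : dot C l4 = 0) (d2 : dot F l4 = 0) (d3 : dot I l4 = 0) (d4 : dot A l4 ≠ 0)
    (e1 : dot D l5 = 0) (e2 : dot F l5 = 0) (e3 : dot H l5 = 0) (e4 : dot A l5 ≠ 0)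
    (f1 : dot B l6 = 0) (f2 : dot C l6 = 0) (f3 : dot H l6 = 0) (f4 : dot A l6 ≠ 0)
    (nA : dot A lx ≠ 0) (nD : dot D ly ≠ 0) (nE : dot E lz ≠ 0)
    (nB : dot B lx ≠ 0) (nC : dot C lx ≠ 0) (nF : dot F lx ≠ 0) (nG : dot G lx ≠ 0)
    (nH : dot H lx ≠ 0) (nI : dot I ly ≠ 0) (nF3 : dot F lz ≠ 0) : False := by
  have m1 := col A H I D l1 lx ly lz a1 a2 a3 a4
  have m2 := col B G I A l2 lx ly lz b1 b2 b3 b4
  have m3 := col C E G A l3 lx ly lz c1 c2 c3 c4
  have m4 := col C F I A l4 lx ly lz d1 d2 d3 d4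
  have m5 := col D F H A l5 lx ly lz e1 e2 e3 e4
  have m6 := col B C H A l6 lx ly lz f1 f2 f3 f4
  simp only [x1, x2, x3, y1, y2, y3, y4, z1, z2, z3] at m1 m2 m3 m4 m5 m6
  clear x1 x2 x3 y1 y2 y3 y4 z1 z2 z3 a1 a2 a3 a4 b1 b2 b3 b4 c1 c2 c3 c4 d1 d2 d3 d4 e1 e2 e3 e4
    f1 f2 f3 f4
  generalize dot A lx = a at *
  generalize dot D ly = d at *
  generalize dot E lz = e at *
  generalize dot B lx = b1 at *
  generalize dot B lz = b3 at *
  generalize dot C lx = c1 at *
  generalize dot C ly = c2 at *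
  generalize dot C lz = c3 at *
  generalize dot F lx = f1 at *
  generalize dot F lz = f3 at *
  generalize dot G lx = g1 at *
  generalize dot G ly = g2 at *
  generalize dot H lx = h1 at *
  generalize dot H ly = h2 at *
  generalize dot H lz = h3 at *
  generalize dot I ly = i2 at *
  generalize dot I lz = i3 at *
  have k1 : h2 * i3 = h3 * i2 := by
    apply mul_left_cancel₀ nA; linear_combination m1
  have k3 : c2 = c1 * g2 / g1 := by
    field_simp
    apply mul_left_cancel₀ nE; linear_combination m3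
  have k5 : h3 = f3 * h1 / f1 := by
    field_simp
    apply mul_left_cancel₀ nD; linear_combination -m5
  have k2 : b3 = - b1 * g2 * i3 / (g1 * i2) := by
    field_simp
    linear_combination m2
  have k4 : c3 = c1 * (f3 / f1 + g2 * i3 / (g1 * i2)) := by
    rw [k3] at m4
    have : c3 * (f1 * i2) = c1 * f3 * i2 + c1 * g2 / g1 * f1 * i3 := by linear_combination m4
    field_simp
    field_simp at this
    linear_combination this
  have hi3 : i3 ≠ 0 := by
    rintro rfl
    rw [k5] at k1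
    have : f3 * h1 / f1 * i2 ≠ 0 := by positivity
    exact this (by linear_combination -k1)
  have k6 : h2 = f3 * h1 * i2 / (f1 * i3) := by
    rw [k5] at k1
    field_simp
    field_simp at k1
    linear_combination k1
  apply no_golden (g2 * i3 * f1 / (g1 * i2 * f3))
  subst k2 k3 k4 k5 k6
  have hne : b1 * c1 * h1 * f3 ^ 2 * i2 / (f1 ^ 2 * i3) ≠ 0 := by positivity
  apply mul_left_cancel₀ hne
  rw [mul_zero, ← m6]
  field_simp
  ring

/-! ### The real table -/

noncomputable def tau : ℝ := (1 + Real.sqrt 5) / 2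

lemma tau_sq : tau ^ 2 = tau + 1 := by
  have : Real.sqrt 5 ^ 2 = 5 := Real.sq_sqrt (by norm_num)
  unfold tau
  linear_combination this / 4

lemma tau_lo : 1 < tau := by
  have : (1 : ℝ) < Real.sqrt 5 := by
    rw [Real.lt_sqrt (by norm_num)]; norm_num
  unfold tau; linarith

lemma tau_hi : tau < 2 := by
  have : Real.sqrt 5 < 3 := by
    rw [Real.sqrt_lt' (by norm_num)]; norm_num
  unfold tau; linarith

/-- points `A..I` have indices `2..10`, the nine lines have indices `11..19` -/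
noncomputable def v : Fin 20 → ℝ × ℝ × ℝ :=
  ![(0, 0, 0), (0, 0, 0),
    (1, 0, 0), (1, 0, -tau), (1, 1, 1 + tau), (0, 1, 0), (0, 0, 1), (1, 0, 1), (1, 1, 0),
    (tau, 1, tau), (0, 1, tau),
    (1, 0, 0), (0, 1, 0), (0, 0, 1), (0, tau, -1), (tau, -tau, 1), (1, -1, 0), (1, tau, -1),
    (1, 0, -1), (tau, -2 * tau - 1, 1)]

lemma v_bd (k : Fin 20) : |(v k).1| ≤ 5 ∧ |(v k).2.1| ≤ 5 ∧ |(v k).2.2| ≤ 5 := by
  have h1 := tau_lo
  have h2 := tau_hi
  fin_cases k <;> simp only [v, abs_le] <;> norm_num <;> (repeat' apply And.intro) <;> linarith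

def sg (e : Fin 2) : ℝ := if e = 0 then 1 else -1

noncomputable def Fa (k : Fin 20) (c d e : Fin 2) : ℝ :=
  1 + sg e * ((v k).1 * sg c + (v k).2.1 * sg d + (v k).2.2 * (sg c * sg d)) / 16

lemma Fa_pos (k : Fin 20) (c d e : Fin 2) : 0 < Fa k c d e := by
  obtain ⟨h1, h2, h3⟩ := v_bd k
  rw [abs_le] at h1 h2 h3
  unfold Fa
  fin_cases c <;> fin_cases d <;> fin_cases e <;> simp [sg] <;> linarith [h1.1, h1.2, h2.1, h2.2, h3.1, h3.2]

noncomputable def P (z : St) : ℝ := ∏ k, Fa k (z 0) (z 1) (z k)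

lemma P_pos (z : St) : 0 < P z := Finset.prod_pos fun _ _ => Fa_pos _ _ _ _

noncomputable def kap (i j : Fin 20) : ℝ :=
  ∏ k ∈ (univ.erase i).erase j, (if k = 0 ∨ k = 1 then 1 else 2)

lemma kap_pos (i j : Fin 20) : 0 < kap i j :=
  Finset.prod_pos fun k _ => by split_ifs <;> norm_num

lemma M_P (i j : Fin 20) (hij : i ≠ j) (hi0 : i ≠ 0) (hi1 : i ≠ 1) (hj0 : j ≠ 0)
    (hj1 : j ≠ 1) (a b c d : Fin 2) : M P i j a b c d = Fa i c d a * Fa j c d b * kap i j := by
  let G : Fin 20 → Fin 2 → ℝ := fun k e =>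
    if (k = i → e = a) ∧ (k = j → e = b) ∧ (k = 0 → e = c) ∧ (k = 1 → e = d) then Fa k c d e else 0
  have h1 : M P i j a b c d = ∑ z : St, ∏ k, G k (z k) := by
    unfold M
    refine Finset.sum_congr rfl fun z _ => ?_
    split_ifs with h
    · obtain ⟨h1, h2, h3, h4⟩ := h
      unfold P
      refine Finset.prod_congr rfl fun k _ => ?_
      simp only [G]
      rw [if_pos, h3, h4]
      refine ⟨?_, ?_, ?_, ?_⟩ <;> rintro rfl <;> assumption
    · symm
      by_cases g1 : z i = a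
      · by_cases g2 : z j = b
        · by_cases g3 : z 0 = c
          · have g4 : z 1 ≠ d := fun g => h ⟨g1, g2, g3, g⟩
            exact Finset.prod_eq_zero (Finset.mem_univ 1) (by simp [G, g4])
          · exact Finset.prod_eq_zero (Finset.mem_univ 0) (by simp [G, g3])
        · exact Finset.prod_eq_zero (Finset.mem_univ j) (by simp [G, g2])
      · exact Finset.prod_eq_zero (Finset.mem_univ i) (by simp [G, g1])
  have h2 : ∑ z : St, ∏ k, G k (z k) = ∏ k, ∑ e, G k e := by
    rw [Finset.prod_univ_sum, Fintype.piFinset_univ]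
  rw [h1, h2, ← Finset.mul_prod_erase _ _ (Finset.mem_univ i),
    ← Finset.mul_prod_erase _ _ (show j ∈ univ.erase i by simp [hij.symm]), ← mul_assoc]
  congr 1
  · congr 1
    · simp only [G, hij, hi0, hi1, false_imp_iff, and_true, true_imp_iff]
      simp
    · simp only [G, hij.symm, hj0, hj1, false_imp_iff, and_true, true_imp_iff, true_and]
      simp
  · refine Finset.prod_congr rfl fun k hk => ?_
    simp only [Finset.mem_erase, Finset.mem_univ, and_true] at hk
    obtain ⟨hkj, hki⟩ := hk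
    by_cases h0 : k = 0
    · subst h0
      simp [G, hki, hkj, Fa, v]
    · by_cases h1 : k = 1
      · subst h1
        simp [G, hki, hkj, Fa, v]
      · simp only [G, hki, hkj, h0, h1, false_imp_iff, and_true, if_true, or_false, if_false,
          Fin.sum_univ_two, Fa, sg]
        simp
        ring

lemma CI_P (i j : Fin 20) (hij : i ≠ j) (hi0 : i ≠ 0) (hi1 : i ≠ 1) (hj0 : j ≠ 0)
    (hj1 : j ≠ 1) : CI (d := fun _ => 2) P i j {0, 1} := by
  rw [CI_M _ _ _ hij hi0 hi1 hj0 hj1]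
  intro a a' b b' c d
  simp only [M_P i j hij hi0 hi1 hj0 hj1]
  ring

lemma CI_P0 (i j : Fin 20) (hij : i ≠ j) (hi0 : i ≠ 0) (hi1 : i ≠ 1) (hj0 : j ≠ 0)
    (hj1 : j ≠ 1) : CI (d := fun _ => 2) P i j ∅ ↔ dot (v i) (v j) = 0 := by
  rw [CI_N _ _ _ hij, ← sub_eq_zero]
  have : N P i j 1 1 * N P i j 0 0 - N P i j 1 0 * N P i j 0 1 =
      kap i j ^ 2 / 4 * dot (v i) (v j) := by
    simp only [N_eq, M_P i j hij hi0 hi1 hj0 hj1, Fa, sg, dot]
    simp
    ring
  rw [this]
  have := kap_pos i j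
  simp [this.ne']

lemma pi_ne (Q : St → ℚ) (hQ : ∀ z, 0 < Q z) (c d : Fin 2) : pi Q c d ≠ 0 := by
  apply ne_of_gt
  unfold pi
  apply Finset.sum_pos'
  · intro z _
    split_ifs
    · exact (hQ z).le
    · exact le_rfl
  · refine ⟨fun k => if k = 0 then c else d, Finset.mem_univ _, ?_⟩
    rw [if_pos (by simp)]
    exact hQ _

def u (Q : St → ℚ) (i : Fin 20) : ℚ × ℚ × ℚ := (U Q i 0 1, U Q i 1 0, U Q i 1 1)
def w (Q : St → ℚ) (i : Fin 20) : ℚ × ℚ × ℚ := (W Q i 0 1, W Q i 1 0, W Q i 1 1)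

lemma dot_mk (a b c d e f : ℚ) : dot (a, b, c) (d, e, f) = a * d + b * e + c * f := rfl

lemma dot_uw (Q : St → ℚ) (i j : Fin 20) : dot (u Q i) (w Q j) =
    U Q i 0 1 * W Q j 0 1 + U Q i 1 0 * W Q j 1 0 + U Q i 1 1 * W Q j 1 1 :=
  dot_mk _ _ _ _ _ _

lemma key (Q : St → ℚ) (hQ : ∀ z, 0 < Q z)
    (hCI : ∀ (i j : Fin 20) (K : Finset (Fin 20)), i ≠ j → i ∉ K → j ∉ K →
      (CI (d := fun _ => 2) P i j K ↔ CI (d := fun _ => 2) Q i j K)) (i j : Fin 20)
    (h : i ≠ j ∧ i ≠ 0 ∧ i ≠ 1 ∧ j ≠ 0 ∧ j ≠ 1) :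
    dot (u Q i) (w Q j) = 0 ↔ dot (v i) (v j) = 0 := by
  obtain ⟨hij, hi0, hi1, hj0, hj1⟩ := h
  have h1 := (hCI i j {0, 1} hij (by simp [hi0, hi1]) (by simp [hj0, hj1])).1
    (CI_P i j hij hi0 hi1 hj0 hj1)
  rw [CI_M _ _ _ hij hi0 hi1 hj0 hj1] at h1
  rw [← CI_P0 i j hij hi0 hi1 hj0 hj1, hCI i j ∅ hij (by simp) (by simp), CI_N _ _ _ hij,
    ← sub_eq_zero (a := N Q i j 1 1 * N Q i j 0 0), det_eq Q i j (pi_ne Q hQ) h1, dot_uw]

lemma final (u w : Fin 20 → ℚ × ℚ × ℚ)
    (key : ∀ i j : Fin 20, (i ≠ j ∧ i ≠ 0 ∧ i ≠ 1 ∧ j ≠ 0 ∧ j ≠ 1) →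
      (dot (u i) (w j) = 0 ↔ dot (v i) (v j) = 0)) : False := by
  have t1 := tau_sq
  have t2 := tau_lo
  apply perles (u 2) (u 3) (u 4) (u 5) (u 6) (u 7) (u 8) (u 9) (u 10) (w 11) (w 12) (w 13) (w 14)
    (w 15) (w 16) (w 17) (w 18) (w 19)
  all_goals
    first
      | rw [key _ _ (by decide)]
      | rw [Ne, key _ _ (by decide)]
  all_goals
    simp [dot, v] <;> linarith

theorem main : ¬ (∀ (n : ℕ) (d : Fin n → ℕ), (∀ k, 2 ≤ d k) →
    ∀ P : ((k : Fin n) → Fin (d k)) → ℝ, (∀ x, 0 < P x) →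
    ∃ Q : ((k : Fin n) → Fin (d k)) → ℚ, (∀ x, 0 < Q x) ∧
      ∀ (i j : Fin n) (K : Finset (Fin n)), i ≠ j → i ∉ K → j ∉ K →
        (CI P i j K ↔ CI Q i j K)) := by
  intro h
  obtain ⟨Q, hQ, hCI⟩ := h 20 (fun _ => 2) (fun _ => le_rfl) P P_pos
  exact final (u Q) (w Q) (key Q hQ hCI)

/-- The negation of the preceding statement: For every positive real table on n discrete variables with at least 2 states each, there is a positive rational table satisfying exactly the same CI statements X_i indep X_j given X_K (vanishing 2x2 minors of the marginal). -/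
theorem result :
    ¬ (∀ (n : ℕ) (d : Fin n → ℕ), (∀ k, 2 ≤ d k) →
  ∀ P : ((k : Fin n) → Fin (d k)) → ℝ, (∀ x, 0 < P x) →
  ∃ Q : ((k : Fin n) → Fin (d k)) → ℚ, (∀ x, 0 < Q x) ∧
    ∀ (i j : Fin n) (K : Finset (Fin n)), i ≠ j → i ∉ K → j ∉ K →
      ((∀ x y : (k : Fin n) → Fin (d k), (∀ k ∈ K, x k = y k) →
          (∑ z ∈ (Finset.univ : Finset ((k : Fin n) → Fin (d k))).filter
              (fun z : ((k : Fin n) → Fin (d k)) => ∀ k ∈ insert i (insert j K), z k = x k), P z) *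
          (∑ z ∈ (Finset.univ : Finset ((k : Fin n) → Fin (d k))).filter
              (fun z : ((k : Fin n) → Fin (d k)) => ∀ k ∈ insert i (insert j K), z k = y k), P z) =
          (∑ z ∈ (Finset.univ : Finset ((k : Fin n) → Fin (d k))).filter
              (fun z : ((k : Fin n) → Fin (d k)) =>
                ∀ k ∈ insert i (insert j K), z k = Function.update x j (y j) k), P z) *
          (∑ z ∈ (Finset.univ : Finset ((k : Fin n) → Fin (d k))).filter
              (fun z : ((k : Fin n) → Fin (d k)) =>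
                ∀ k ∈ insert i (insert j K), z k = Function.update y j (x j) k), P z)) ↔
       (∀ x y : (k : Fin n) → Fin (d k), (∀ k ∈ K, x k = y k) →
          (∑ z ∈ (Finset.univ : Finset ((k : Fin n) → Fin (d k))).filter
              (fun z : ((k : Fin n) → Fin (d k)) => ∀ k ∈ insert i (insert j K), z k = x k), Q z) *
          (∑ z ∈ (Finset.univ : Finset ((k : Fin n) → Fin (d k))).filter
              (fun z : ((k : Fin n) → Fin (d k)) => ∀ k ∈ insert i (insert j K), z k = y k), Q z) =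
          (∑ z ∈ (Finset.univ : Finset ((k : Fin n) → Fin (d k))).filter
              (fun z : ((k : Fin n) → Fin (d k)) =>
                ∀ k ∈ insert i (insert j K), z k = Function.update x j (y j) k), Q z) *
          (∑ z ∈ (Finset.univ : Finset ((k : Fin n) → Fin (d k))).filter
              (fun z : ((k : Fin n) → Fin (d k)) =>
                ∀ k ∈ insert i (insert j K), z k = Function.update y j (x j) k), Q z)))) := by
  exact main

end Pool.Agent.S00426
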