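import Pool.Statements.S00548
-- import your own Pool.Agent.* helpers here

set_option autoImplicit false
open Pool Pool.MP_f28cea_ag

namespace Pool.Agent.S00548

open Polynomial in
theorem coeff_prod' {R ι : Type} [CommRing R] (s : Finset ι) (H : ι → R[X]) (e : ι → ℕ)
    (h : ∀ i, (H i).natDegree ≤ e i) :
    (∏ i ∈ s, H i).natDegree ≤ ∑ i ∈ s, e i ∧
      (∏ i ∈ s, H i).coeff (∑ i ∈ s, e i) = ∏ i ∈ s, (H i).coeff (e i) := by
  classical
  induction s using Finset.induction_on with
  | empty => simp
  | insert a s ha ih =>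
    simp only [Finset.prod_insert ha, Finset.sum_insert ha]
    exact ⟨natDegree_mul_le.trans (add_le_add (h a) ih.1),
      by rw [coeff_mul_add_eq_of_natDegree_le (h a) ih.1, ih.2]⟩

open Polynomial in
theorem lead {R ι : Type} [CommRing R] [Fintype ι] (w : ι → ℕ) (p : MvPolynomial ι R) (d : ℕ)
    (hp : MvPolynomial.IsWeightedHomogeneous w p d) (H : ι → R[X]) (a : ℕ)
    (h : ∀ i, (H i).natDegree ≤ a * w i) :
    (MvPolynomial.aeval H p).coeff (a * d) =
      MvPolynomial.aeval (fun i => (H i).coeff (a * w i)) p := by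
  classical
  rw [MvPolynomial.aeval_def, MvPolynomial.aeval_def, MvPolynomial.eval₂_eq',
    MvPolynomial.eval₂_eq', finsetSum_coeff]
  refine Finset.sum_congr rfl fun α hα => ?_
  have hd : Finsupp.weight w α = d := hp (MvPolynomial.mem_support_iff.mp hα)
  have h2 : a * d = ∑ i, α i * (a * w i) := by
    rw [← hd, Finsupp.weight_apply, Finsupp.sum_fintype _ _ (by simp), Finset.mul_sum]
    refine Finset.sum_congr rfl fun i _ => ?_
    simp only [smul_eq_mul]; ring
  rw [Polynomial.algebraMap_eq, coeff_C_mul, h2,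
    (coeff_prod' Finset.univ (fun i => H i ^ α i) (fun i => α i * (a * w i))
      (fun i => natDegree_pow_le_of_le _ (h i))).2]
  simp only [Algebra.algebraMap_self, RingHom.id_apply]
  congr 1
  exact Finset.prod_congr rfl fun i _ => coeff_pow_of_natDegree_le (h i)

/-- The negation of the preceding statement: For all fields k⊆K and ideals I of k[X1..Xn]: f vanishes on the K-zeros of I iff some block-weighted-homogeneous p over k (increasing positive block weights, only zero in K is 0) has p(f,f1,…,fm) in I. -/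
theorem result :
    ¬ (∀ (k K : Type) [Field k] [Field K] [Algebra k K] (n : ℕ)
      (I : Ideal (MvPolynomial (Fin n) k)) (f : MvPolynomial (Fin n) k),
      (∃ m : ℕ, ∃ w : Fin (m + 1) → ℕ, Monotone w ∧ (∀ j, 0 < w j) ∧
        ∃ p : MvPolynomial (Fin (m + 1)) k, ∃ d : ℕ,
          MvPolynomial.IsWeightedHomogeneous w p d ∧
          (∀ y : Fin (m + 1) → K, MvPolynomial.aeval y p = 0 ↔ y = 0) ∧
          ∃ g : Fin m → MvPolynomial (Fin n) k,
            MvPolynomial.aeval
              (Fin.cons f g : Fin (m + 1) → MvPolynomial (Fin n) k) p ∈ I) ↔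
      (∀ x : Fin n → K, (∀ q ∈ I, MvPolynomial.aeval x q = 0) →
        MvPolynomial.aeval x f = 0)) := by
  intro H
  obtain ⟨m, w, -, hw, p, d, hp, hz, g, hg⟩ := (H (ZMod 2) (ZMod 2) 1 ⊥
    (MvPolynomial.X 0 ^ 2 - MvPolynomial.X 0)).mpr (by
      intro x _
      simp only [map_sub, map_pow, MvPolynomial.aeval_X]
      generalize x 0 = a
      revert a; decide)
  rw [Ideal.mem_bot] at hg
  let φ : MvPolynomial (Fin 1) (ZMod 2) →ₐ[ZMod 2] Polynomial (ZMod 2) :=
    MvPolynomial.aeval fun _ => Polynomial.X
  let h : Fin (m + 1) → Polynomial (ZMod 2) := fun i => φ ((Fin.cons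
    (MvPolynomial.X 0 ^ 2 - MvPolynomial.X 0) g : Fin (m + 1) → MvPolynomial (Fin 1) (ZMod 2)) i)
  have h0 : (h 0).natDegree = 2 := by
    simp only [h, φ, Fin.cons_zero, map_sub, map_pow, MvPolynomial.aeval_X]
    compute_degree!
  obtain ⟨j, -, hj⟩ := Finset.exists_max_image Finset.univ
    (fun i => ((h i).natDegree : ℚ) / w i) Finset.univ_nonempty
  have hle : ∀ i, (h i).natDegree * w j ≤ (h j).natDegree * w i := fun i => by
    have := hj i (Finset.mem_univ _)
    rw [div_le_div_iff₀ (by exact_mod_cast hw i) (by exact_mod_cast hw j)] at this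
    exact_mod_cast this
  have hne : h j ≠ 0 := by
    intro e
    have := hle 0
    rw [e, h0] at this
    have := hw j
    simp at *
    omega
  have key := lead w p d hp (fun i => Polynomial.expand (ZMod 2) (w j) (h i)) (h j).natDegree
    (fun i => by rw [Polynomial.natDegree_expand]; exact hle i)
  have h1 : MvPolynomial.aeval (fun i => Polynomial.expand (ZMod 2) (w j) (h i)) p = 0 := by
    have := congrArg ((Polynomial.expand (ZMod 2) (w j)).comp φ) hg
    rwa [map_zero, ← AlgHom.comp_apply, MvPolynomial.comp_aeval] at this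
  rw [h1, Polynomial.coeff_zero] at key
  have := congrFun ((hz _).mp key.symm) j
  rw [Polynomial.coeff_expand_mul (hw j)] at this
  exact hne (Polynomial.leadingCoeff_eq_zero.mp this)

end Pool.Agent.S00548
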