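import Pool.Statements.S00576

set_option autoImplicit false
open Pool Pool.MP_008109_al

namespace Pool.Agent.S00576

section BackAndForth

variable {X : Type} [CommGroup X]

/-- finite partial isomorphisms, as finite subgroups of `X × X` -/
def Good (S T : Set X) (P : Finset (X × X)) : Prop :=
  (1, 1) ∈ P ∧ (∀ p ∈ P, ∀ q ∈ P, p * q ∈ P) ∧ (∀ p ∈ P, p.1 = 1 ↔ p.2 = 1) ∧
    (∀ p ∈ P, p.1 ∈ S ↔ p.2 ∈ T)

def Ext (T : Set X) : Prop := ∀ U V : Finset X, Disjoint U V →
  ∃ z : X, z ∉ U ∧ z ∉ V ∧ (∀ u ∈ U, z * u⁻¹ ∈ T) ∧ (∀ v ∈ V, z * v⁻¹ ∉ T)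

lemma forth (h2 : ∀ x : X, x * x = 1) {S T : Set X} (hT : Ext T) {P : Finset (X × X)}
    (hP : Good S T P) (v : X) : ∃ Q, Good S T Q ∧ P ⊆ Q ∧ ∃ w, (v, w) ∈ Q := by
  classical
  have hinv : ∀ x : X, x⁻¹ = x := fun x => inv_eq_of_mul_eq_one_right (h2 x)
  by_cases hv : ∃ w, (v, w) ∈ P
  · exact ⟨P, hP, subset_rfl, hv⟩
  push Not at hv
  obtain ⟨h1, hmul, hone, hS⟩ := hP
  have hinj : ∀ p ∈ P, ∀ q ∈ P, p.2 = q.2 → p.1 = q.1 := by
    intro p hp q hq h
    have h3 := (hone _ (hmul p hp q hq)).2 (by simp [h, h2])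
    have h4 : p.1 * q.1 = 1 := h3
    rw [← hinv q.1]
    exact eq_inv_of_mul_eq_one_left h4
  obtain ⟨z, hzU, hzV, hU, hV⟩ := hT ((P.filter fun p => v * p.1 ∈ S).image Prod.snd)
    ((P.filter fun p => v * p.1 ∉ S).image Prod.snd) (by
      rw [Finset.disjoint_left]
      intro b hb hb'
      simp only [Finset.mem_image, Finset.mem_filter] at hb hb'
      obtain ⟨p, ⟨hp, hp'⟩, rfl⟩ := hb
      obtain ⟨q, ⟨hq, hq'⟩, h⟩ := hb'
      rw [hinj q hq p hp h] at hq'
      exact hq' hp')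
  have hz : ∀ p ∈ P, p.2 ≠ z := by
    intro p hp h
    by_cases hc : v * p.1 ∈ S
    · exact hzU (Finset.mem_image.2 ⟨p, Finset.mem_filter.2 ⟨hp, hc⟩, h⟩)
    · exact hzV (Finset.mem_image.2 ⟨p, Finset.mem_filter.2 ⟨hp, hc⟩, h⟩)
  have hzS : ∀ p ∈ P, (v * p.1 ∈ S ↔ z * p.2 ∈ T) := by
    intro p hp
    constructor
    · intro hc
      have := hU p.2 (Finset.mem_image.2 ⟨p, Finset.mem_filter.2 ⟨hp, hc⟩, rfl⟩)
      rwa [hinv] at this
    · intro hc
      by_contra hn
      have := hV p.2 (Finset.mem_image.2 ⟨p, Finset.mem_filter.2 ⟨hp, hn⟩, rfl⟩)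
      rw [hinv] at this
      exact this hc
  have hvz : ((v, z) : X × X) * (v, z) = 1 := by
    ext <;> simp [h2]
  refine ⟨P ∪ P.image (fun p => (v, z) * p), ⟨?_, ?_, ?_, ?_⟩, Finset.subset_union_left, z, ?_⟩
  · exact Finset.mem_union_left _ h1
  · intro p hp q hq
    simp only [Finset.mem_union, Finset.mem_image] at hp hq ⊢
    rcases hp with hp | ⟨p, hp, rfl⟩ <;> rcases hq with hq | ⟨q, hq, rfl⟩
    · exact Or.inl (hmul p hp q hq)
    · exact Or.inr ⟨p * q, hmul p hp q hq, mul_left_comm _ _ _⟩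
    · exact Or.inr ⟨p * q, hmul p hp q hq, (mul_assoc _ _ _).symm⟩
    · left
      rw [mul_mul_mul_comm, hvz, one_mul]
      exact hmul p hp q hq
  · intro p hp
    simp only [Finset.mem_union, Finset.mem_image] at hp
    rcases hp with hp | ⟨p, hp, rfl⟩
    · exact hone p hp
    · simp only [Prod.fst_mul, Prod.snd_mul]
      constructor
      · intro h
        have : p.1 = v := by
          rw [← hinv v]; exact eq_inv_of_mul_eq_one_right h
        exact absurd (show (v, p.2) ∈ P by rw [← this]; exact hp) (hv p.2)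
      · intro h
        have : p.2 = z := by
          rw [← hinv z]; exact eq_inv_of_mul_eq_one_right h
        exact absurd this (hz p hp)
  · intro p hp
    simp only [Finset.mem_union, Finset.mem_image] at hp
    rcases hp with hp | ⟨p, hp, rfl⟩
    · exact hS p hp
    · exact hzS p hp
  · refine Finset.mem_union_right _ (Finset.mem_image.2 ⟨(1, 1), h1, ?_⟩)
    ext <;> simp

lemma Good.swap {S T : Set X} {P : Finset (X × X)} [DecidableEq X] (hP : Good S T P) :
    Good T S (P.image Prod.swap) := by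
  obtain ⟨h1, hmul, hone, hS⟩ := hP
  refine ⟨Finset.mem_image.2 ⟨(1, 1), h1, rfl⟩, ?_, ?_, ?_⟩
  · intro p hp q hq
    obtain ⟨p', hp', rfl⟩ := Finset.mem_image.1 hp
    obtain ⟨q', hq', rfl⟩ := Finset.mem_image.1 hq
    exact Finset.mem_image.2 ⟨p' * q', hmul p' hp' q' hq', rfl⟩
  · intro p hp
    obtain ⟨p', hp', rfl⟩ := Finset.mem_image.1 hp
    exact (hone p' hp').symm
  · intro p hp
    obtain ⟨p', hp', rfl⟩ := Finset.mem_image.1 hp
    exact (hS p' hp').symm

lemma step (h2 : ∀ x : X, x * x = 1) {S T : Set X} (hS : Ext S) (hT : Ext T)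
    {P : Finset (X × X)} (hP : Good S T P) (v : X) :
    ∃ Q, Good S T Q ∧ P ⊆ Q ∧ (∃ w, (v, w) ∈ Q) ∧ ∃ w, (w, v) ∈ Q := by
  classical
  obtain ⟨Q, hQ, hPQ, w, hw⟩ := forth h2 hT hP v
  obtain ⟨R, hR, hQR, u, hu⟩ := forth h2 hS hQ.swap v
  have hsub : Q ⊆ R.image Prod.swap := by
    intro p hp
    exact Finset.mem_image.2 ⟨p.swap, hQR (Finset.mem_image.2 ⟨p, hp, rfl⟩), rfl⟩
  exact ⟨R.image Prod.swap, hR.swap, hPQ.trans hsub, ⟨w, hsub hw⟩,
    u, Finset.mem_image.2 ⟨(v, u), hu, rfl⟩⟩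

theorem conj [Countable X] (h2 : ∀ x : X, x * x = 1) {S T : Set X} (hS : Ext S) (hT : Ext T)
    (h1S : (1 : X) ∉ S) (h1T : (1 : X) ∉ T) : ∃ σ : MulAut X, (fun x => σ x) '' S = T := by
  classical
  have hinv : ∀ x : X, x⁻¹ = x := fun x => inv_eq_of_mul_eq_one_right (h2 x)
  obtain ⟨e, he⟩ := exists_surjective_nat X
  have h0 : Good S T {(1, 1)} := by
    refine ⟨by simp, ?_, ?_, ?_⟩
    · intro p hp q hq
      rw [Finset.mem_singleton] at hp hq ⊢
      rw [hp, hq]; simp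
    · intro p hp
      rw [Finset.mem_singleton] at hp
      rw [hp]
    · intro p hp
      rw [Finset.mem_singleton] at hp
      rw [hp]; simp [h1S, h1T]
  choose nxt hG hsub hf hb using fun (P : {P : Finset (X × X) // Good S T P}) (v : X) =>
    step h2 hS hT P.2 v
  let c : ℕ → {P : Finset (X × X) // Good S T P} := fun n =>
    Nat.rec ⟨{(1, 1)}, h0⟩ (fun n P => ⟨nxt P (e n), hG P (e n)⟩) n
  have hc : ∀ n, (c (n + 1)).1 = nxt (c n) (e n) := fun n => rfl
  have hmono : Monotone fun n => (c n).1 :=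
    monotone_nat_of_le_succ fun n => by rw [hc]; exact hsub _ _
  let R : X → X → Prop := fun a b => ∃ n, (a, b) ∈ (c n).1
  have hRmul : ∀ a b a' b', R a b → R a' b' → R (a * a') (b * b') := by
    rintro a b a' b' ⟨n, hn⟩ ⟨m, hm⟩
    exact ⟨max n m, (c (max n m)).2.2.1 _ (hmono (le_max_left n m) hn) _
      (hmono (le_max_right n m) hm)⟩
  have hRone : ∀ a b, R a b → (a = 1 ↔ b = 1) := by
    rintro a b ⟨n, hn⟩
    exact (c n).2.2.2.1 _ hn
  have hRS : ∀ a b, R a b → (a ∈ S ↔ b ∈ T) := by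
    rintro a b ⟨n, hn⟩
    exact (c n).2.2.2.2 _ hn
  have hRf : ∀ a, ∃ b, R a b := by
    intro a
    obtain ⟨n, rfl⟩ := he a
    obtain ⟨w, hw⟩ := hf (c n) (e n)
    exact ⟨w, n + 1, hw⟩
  have hRb : ∀ b, ∃ a, R a b := by
    intro b
    obtain ⟨n, rfl⟩ := he b
    obtain ⟨w, hw⟩ := hb (c n) (e n)
    exact ⟨w, n + 1, hw⟩
  have hfun : ∀ a b b', R a b → R a b' → b = b' := by
    intro a b b' h h'
    have := (hRone _ _ (hRmul _ _ _ _ h h')).1 (h2 a)
    rw [← hinv b']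
    exact eq_inv_of_mul_eq_one_left this
  have hfun' : ∀ a a' b, R a b → R a' b → a = a' := by
    intro a a' b h h'
    have := (hRone _ _ (hRmul _ _ _ _ h h')).2 (h2 b)
    rw [← hinv a']
    exact eq_inv_of_mul_eq_one_left this
  choose f hf' using hRf
  choose g hg' using hRb
  let σ : MulAut X :=
    { toFun := f
      invFun := g
      left_inv := fun a => hfun' _ _ _ (hg' (f a)) (hf' a)
      right_inv := fun b => hfun _ _ _ (hf' (g b)) (hg' b)
      map_mul' := fun a a' => hfun _ _ _ (hf' (a * a')) (hRmul _ _ _ _ (hf' a) (hf' a')) }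
  refine ⟨σ, ?_⟩
  ext b
  constructor
  · rintro ⟨a, ha, rfl⟩
    exact (hRS _ _ (hf' a)).1 ha
  · intro hb
    exact ⟨g b, (hRS _ _ (hg' b)).2 hb, hfun _ _ _ (hf' (g b)) (hg' b)⟩

end BackAndForth

abbrev V : Type := Multiplicative (ℕ →₀ ZMod 2)

lemma V_sq (x : V) : x * x = 1 := by
  change Multiplicative.toAdd x + Multiplicative.toAdd x = 0
  ext n
  simp only [Finsupp.add_apply, Finsupp.zero_apply]
  generalize (Multiplicative.toAdd x) n = a
  revert a
  decide

instance : Countable V := inferInstanceAs (Countable (ℕ →₀ ZMod 2))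

instance : Infinite V := inferInstanceAs (Infinite (ℕ →₀ ZMod 2))

lemma card_aut : Cardinal.mk (MulAut V) = Cardinal.continuum := by
  apply le_antisymm
  · have h : Cardinal.mk (MulAut V) ≤ Cardinal.mk (V → V) :=
      Cardinal.mk_le_of_injective (f := fun σ : MulAut V => (σ : V → V)) DFunLike.coe_injective
    refine h.trans (le_of_eq ?_)
    simp
  · have h : Cardinal.mk (Equiv.Perm ℕ) ≤ Cardinal.mk (MulAut V) := by
      refine Cardinal.mk_le_of_injective
        (f := fun e : Equiv.Perm ℕ =>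
          (AddEquiv.toMultiplicative (Finsupp.domCongr e : (ℕ →₀ ZMod 2) ≃+ (ℕ →₀ ZMod 2)))) ?_
      intro e e' h
      ext n
      have h1 := DFunLike.congr_fun h (Multiplicative.ofAdd (Finsupp.single n (1 : ZMod 2)))
      have h3 : Finsupp.single (e n) (1 : ZMod 2) = Finsupp.single (e' n) (1 : ZMod 2) := by
        simpa using h1
      exact Finsupp.single_left_injective one_ne_zero h3
    refine le_trans (le_of_eq ?_) h
    rw [Cardinal.mk_perm_eq_two_power]
    simp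

/-- The negation of the preceding statement: Every countable group with property (†) whose automorphism group has continuum size has continuum many special subsets (inverse-closed, without 1, Cayley graph isomorphic to the Rado graph) lying in pairwise distinct Aut(X)-orbits. -/
theorem result :
    ¬ (∀ (X : Type) [Group X] [Countable X],
      (∀ (F : Finset (X × X)), (∀ p ∈ F, p.1 ≠ p.2) → ∀ (E : Finset X),
        ∃ z : X, z ∉ E ∧ ∀ p ∈ F, p.1 * z⁻¹ ≠ z * p.2⁻¹) →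
      Cardinal.mk (MulAut X) = Cardinal.continuum →
      ∃ f : ℝ → Set X,
        (∀ r : ℝ, (∀ s ∈ f r, s⁻¹ ∈ f r) ∧ (1 : X) ∉ f r ∧
          ∀ U V : Finset X, Disjoint U V →
            ∃ z : X, z ∉ U ∧ z ∉ V ∧ (∀ u ∈ U, z * u⁻¹ ∈ f r) ∧ (∀ v ∈ V, z * v⁻¹ ∉ f r)) ∧
        ∀ r s : ℝ, r ≠ s → ∀ σ : MulAut X, (fun x => σ x) '' f r ≠ f s) := by
  intro h
  obtain ⟨f, hf, hne⟩ := h V (by
    intro F hF E
    obtain ⟨z, hz⟩ := Infinite.exists_notMem_finset E
    refine ⟨z, hz, fun p hp hq => hF p hp ?_⟩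
    have hinv : ∀ x : V, x⁻¹ = x := fun x => inv_eq_of_mul_eq_one_right (V_sq x)
    rw [hinv, hinv, mul_comm] at hq
    exact mul_left_cancel hq) card_aut
  obtain ⟨σ, hσ⟩ := conj V_sq (hf 0).2.2 (hf 1).2.2 (hf 0).2.1 (hf 1).2.1
  exact hne 0 1 zero_ne_one σ hσ

end Pool.Agent.S00576
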