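import Pool.Statements.S00583
import Pool.Agent.Lib.Helper33.FreeSimple

set_option autoImplicit false
open Pool Pool.MP_01a6c4_al Pool.Agent.Lib.Helper33.FreeSimple

namespace Pool.Agent.S00583

abbrev P : Type := PowerSeries (ZMod 3)

instance : Fact (Nat.Prime 3) := ⟨Nat.prime_three⟩

instance charP_P : CharP P 3 := charP_of_injective_algebraMap
  (R := ZMod 3) (algebraMap (ZMod 3) P).injective 3

abbrev K : Type := PerfectClosure P 3

lemma of_inj {f : P} (h : PerfectClosure.of P 3 f = 0) : f = 0 := by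
  have := (PerfectClosure.eq_iff (K := P) 3 (0, f) (0, 0)).1 h
  simpa using this

lemma exists_pow (x : K) : ∃ n : ℕ, ∃ f : P, x ^ 3 ^ n = PerfectClosure.of P 3 f := by
  obtain ⟨⟨n, f⟩, rfl⟩ := PerfectClosure.mk_surjective P 3 x
  refine ⟨n, f, ?_⟩
  rw [← PerfectClosure.iterate_frobenius_mk P 3 n f, iterate_frobenius]

instance : NoZeroDivisors K := ⟨fun {x y} h => by
  obtain ⟨n, f, hf⟩ := exists_pow x
  obtain ⟨m, g, hg⟩ := exists_pow y
  have h1 : PerfectClosure.of P 3 (f ^ 3 ^ m * g ^ 3 ^ n) = 0 := by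
    rw [map_mul, map_pow, map_pow, ← hf, ← hg, ← pow_mul, ← pow_mul, mul_comm (3 ^ m) (3 ^ n),
      ← mul_pow, h, zero_pow (by positivity)]
  rcases mul_eq_zero.1 (of_inj h1) with h2 | h2
  · left
    rw [pow_eq_zero_iff (by positivity)] at h2
    rw [h2, map_zero] at hf
    exact IsReduced.eq_zero _ ⟨_, hf⟩
  · right
    rw [pow_eq_zero_iff (by positivity)] at h2
    rw [h2, map_zero] at hg
    exact IsReduced.eq_zero _ ⟨_, hg⟩⟩

instance : IsDomain K := NoZeroDivisors.to_isDomain K

/-- constant term -/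
noncomputable def eps : K →+* ZMod 3 :=
  PerfectClosure.lift P 3 (ZMod 3) PowerSeries.constantCoeff

lemma lift_of {L : Type} [CommRing L] [CharP L 3] [PerfectRing L 3] (φ : P →+* L) (f : P) :
    PerfectClosure.lift P 3 L φ (PerfectClosure.of P 3 f) = φ f := rfl

lemma mem_iff {x : K} {n : ℕ} {f : P} (h : x ^ 3 ^ n = PerfectClosure.of P 3 f) :
    x ∈ RingHom.ker eps ↔ PowerSeries.constantCoeff f = 0 := by
  rw [RingHom.mem_ker, ← lift_of PowerSeries.constantCoeff f, ← h]
  change eps x = 0 ↔ eps (x ^ 3 ^ n) = 0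
  rw [map_pow, pow_eq_zero_iff (by positivity)]

lemma artin (f : P) (hf : PowerSeries.constantCoeff f = 0) :
    ∃ z : P, PowerSeries.constantCoeff z = 0 ∧ z ^ 3 - z = f := by
  let Q : P := PowerSeries.X ^ 3 - PowerSeries.X
  have hQ0 : PowerSeries.constantCoeff Q = 0 := by simp [Q]
  have hQ1 : IsUnit (PowerSeries.coeff 1 Q) := by simp [Q, PowerSeries.coeff_X_pow]
  have h1 := PowerSeries.subst_substInvOfIsUnit_right Q hQ0 hQ1
  have hs := PowerSeries.HasSubst.substInvOfIsUnit Q hQ1
  have h0 := PowerSeries.constantCoeff_substInvOfIsUnit Q hQ1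
  generalize Q.substInvOfIsUnit hQ1 = W at h1 hs h0
  rw [PowerSeries.subst_sub hs, PowerSeries.subst_pow hs, PowerSeries.subst_X hs] at h1
  have hfs : PowerSeries.HasSubst f := PowerSeries.HasSubst.of_constantCoeff_zero' hf
  refine ⟨W.subst f, PowerSeries.constantCoeff_subst_eq_zero hf W h0, ?_⟩
  have h2 := congrArg (PowerSeries.subst f) h1
  rwa [PowerSeries.subst_sub hfs, PowerSeries.subst_pow hfs, PowerSeries.subst_X hfs] at h2

lemma root_exists (n : ℕ) : ∃ ρ : K →+* K, ∀ x, ρ x ^ 3 ^ n = x :=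
  ⟨(iterateFrobeniusEquiv K 3 n).symm.toRingHom, fun x => by
    have := (iterateFrobeniusEquiv K 3 n).apply_symm_apply x
    rwa [iterateFrobeniusEquiv_def] at this⟩

lemma pow_inj {n : ℕ} {x y : K} (h : x ^ 3 ^ n = y ^ 3 ^ n) : x = y :=
  (iterateFrobeniusEquiv K 3 n).injective (by
    rwa [iterateFrobeniusEquiv_def, iterateFrobeniusEquiv_def])

/-- the perfect closure of the power series ring over the field with three elements -/
noncomputable def model : Model K where
  m := RingHom.ker eps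
  t := PerfectClosure.of P 3 PowerSeries.X
  ht := (mem_iff (n := 0) (f := PowerSeries.X) (by simp)).2 (by simp)
  ht0 := fun h => PowerSeries.X_ne_zero (of_inj h)
  hm := by rw [RingHom.mem_ker, map_one]; exact one_ne_zero
  ex := fun g hg => by
    obtain ⟨n, f, hf⟩ := exists_pow g
    obtain ⟨z, hz0, hz⟩ := artin f ((mem_iff hf).1 hg)
    obtain ⟨ρ, hρ⟩ := root_exists (n + 2)
    refine ⟨ρ (PerfectClosure.of P 3 z), (mem_iff (hρ _)).2 hz0, pow_inj (n := n) ?_⟩
    have h1 := hρ (PerfectClosure.of P 3 z)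
    generalize ρ (PerfectClosure.of P 3 z) = y at h1
    rw [sub_pow_char_pow, hf, ← hz, map_sub, map_pow, ← h1, ← pow_mul, ← pow_mul, ← pow_mul]
    congr 2 <;> ring
  endo := fun a ha => by
    obtain ⟨n, h, hh⟩ := exists_pow a
    have h0 := (mem_iff hh).1 ha
    have hs : PowerSeries.HasSubst h := PowerSeries.HasSubst.of_constantCoeff_zero' h0
    obtain ⟨ρ, hρ⟩ := root_exists n
    let σ : P →+* P := (PowerSeries.substAlgHom (R := ZMod 3) hs).toRingHom
    have hσ : ∀ f : P, σ f = f.subst h := fun f =>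
      congrFun (PowerSeries.coe_substAlgHom (R := ZMod 3) hs) f
    refine ⟨ρ.comp (PerfectClosure.lift P 3 K ((PerfectClosure.of P 3).comp σ)), ?_, ?_⟩
    · apply pow_inj (n := n)
      rw [RingHom.comp_apply, hρ, lift_of, RingHom.comp_apply, hσ, PowerSeries.subst_X hs, hh]
    · intro x hx
      obtain ⟨k, f, hf⟩ := exists_pow x
      have hf0 := (mem_iff hf).1 hx
      refine (mem_iff (n := n + k) (f := f.subst h) ?_).2
        (PowerSeries.constantCoeff_subst_eq_zero h0 f hf0)
      rw [pow_add, pow_mul, RingHom.comp_apply, hρ, ← map_pow, hf, lift_of, RingHom.comp_apply,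
        hσ]

/-- The ring generated by `t` inside the perfect closure of `F_3[[t]]` under the product
`f * g + (F^3 - F^2)⁻¹ (f g^3 - f^3 g)` (`F` the Frobenius) is simple, of characteristic three, and
free on `t` in the variety it generates. -/
theorem result :
    ∃ (R : Type) (_ : NonUnitalNonAssocRing R) (p : ℕ),
      p.Prime ∧ 3 ≤ p ∧ (∀ r : R, p • r = 0) ∧
      IsSimpleOrder (TwoSidedIdeal R) ∧ (∃ a b : R, a * b ≠ 0) ∧
      ∃ X : Set R,
        (∀ S : NonUnitalSubring R, X ⊆ (S : Set R) → S = ⊤) ∧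
        ∀ f : R → R, ∃ φ : R →ₙ+* R, ∀ x ∈ X, φ x = f x :=
  main model

end Pool.Agent.S00583
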