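import Pool.Statements.S00600

set_option autoImplicit false
open Pool Pool.MP_037dd7_al

namespace Pool.Agent.S00600

section Aux

open Finsupp Module

/-- the six-element spindle -/
def op (x t : Fin 6) : Fin 6 :=
  if t.val < 4 then t else if x = 3 then t - 3 else if x.val < 3 then 0 else x

lemma op_sd : ∀ a b c : Fin 6, op (op a b) c = op (op a c) (op b c) := by decide

abbrev A := List (Fin 6) →₀ ℚ

noncomputable def cons (x : Fin 6) : A →ₗ[ℚ] A := lmapDomain ℚ ℚ (x :: ·)

lemma cons_single (x : Fin 6) (w : List (Fin 6)) (c : ℚ) :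
    cons x (single w c) = single (x :: w) c := by simp [cons]

noncomputable def δ0 (t : Fin 6) : List (Fin 6) → A
  | [] => 0
  | x :: w => (if x = t then single w 1 else 0) - cons (op x t) (δ0 t w)

noncomputable def δ (t : Fin 6) : A →ₗ[ℚ] A := linearCombination ℚ (δ0 t)

lemma δ_nil (t : Fin 6) (c : ℚ) : δ t (single [] c) = 0 := by simp [δ, δ0]

lemma δ_cons (t x : Fin 6) (u : A) :
    δ t (cons x u) = (if x = t then u else 0) - cons (op x t) (δ t u) := by
  induction u using Finsupp.induction_linear with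
  | zero => simp
  | add a b ha hb =>
    rw [map_add, map_add, ha, hb, map_add, map_add]
    split_ifs <;> abel
  | single w c =>
    rw [cons_single]
    simp only [δ, linearCombination_single, δ0, smul_sub, map_smul]
    split_ifs <;> simp

lemma A_ind {P : A → Prop} (h0 : ∀ c, P (single [] c)) (h1 : ∀ x u, P u → P (cons x u))
    (h2 : ∀ u v, P u → P v → P (u + v)) (u : A) : P u := by
  induction u using Finsupp.induction_linear with
  | zero => simpa using h0 0
  | add a b ha hb => exact h2 _ _ ha hb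
  | single w c =>
    induction w with
    | nil => exact h0 c
    | cons x w ih => rw [← cons_single]; exact h1 _ _ ih

lemma sq_gen (u : A) : ∀ ψ : Fin 6 → Fin 6 → (A →ₗ[ℚ] A), (∀ t s, ψ t s = ψ s (op t s)) →
    ∑ t, ∑ s, ψ t s (δ s (δ t u)) = 0 := by
  induction u using A_ind with
  | h0 c => intro ψ _; simp [δ_nil]
  | h2 u v hu hv =>
    intro ψ h
    simp only [map_add, Finset.sum_add_distrib, hu ψ h, hv ψ h, add_zero]
  | h1 x u ih =>
    intro ψ h
    have e : ∀ t s, ψ t s (δ s (δ t (cons x u))) = (if x = t then ψ t s (δ s u) else 0)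
        - (if op x t = s then ψ t s (δ t u) else 0)
        + (ψ t s ∘ₗ cons (op (op x t) s)) (δ s (δ t u)) := by
      intro t s
      rw [δ_cons, map_sub, δ_cons, map_sub, map_sub]
      split_ifs <;> simp <;> abel
    have h3 := ih (fun t s => ψ t s ∘ₗ cons (op (op x t) s)) (fun t s => by
      rw [← h, ← op_sd])
    simp only [e, Finset.sum_add_distrib, Finset.sum_sub_distrib, h3, add_zero]
    rw [Finset.sum_comm]
    simp only [Finset.sum_ite_eq, Finset.mem_univ, if_true, ← h, sub_self]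

noncomputable def d : A →ₗ[ℚ] A := ∑ t, δ t

lemma d_apply (u : A) : d u = ∑ t, δ t u := by simp [d]

lemma dd (u : A) : d (d u) = 0 := by
  have := sq_gen u (fun _ _ => LinearMap.id) (fun _ _ => rfl)
  rw [d_apply u, map_sum]
  simpa [d_apply] using this

lemma δ44 (u : A) : δ 4 (δ 4 u) = 0 := by
  have := sq_gen u (fun t s => if t = 4 ∧ s = 4 then LinearMap.id else 0) (fun t s => by
    have : (t = 4 ∧ s = 4) ↔ (s = 4 ∧ op t s = 4) := by revert t s; decide
    simp only [this])
  simpa [Fin.sum_univ_six] using this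

lemma δ55 (u : A) : δ 5 (δ 5 u) = 0 := by
  have := sq_gen u (fun t s => if t = 5 ∧ s = 5 then LinearMap.id else 0) (fun t s => by
    have : (t = 5 ∧ s = 5) ↔ (s = 5 ∧ op t s = 5) := by revert t s; decide
    simp only [this])
  simpa [Fin.sum_univ_six] using this

lemma δ45 (u : A) : δ 5 (δ 4 u) + δ 4 (δ 5 u) = 0 := by
  have := sq_gen u (fun t s => if t = 4 ∧ s = 5 ∨ t = 5 ∧ s = 4 then LinearMap.id else 0)
    (fun t s => by
    have : (t = 4 ∧ s = 5 ∨ t = 5 ∧ s = 4) ↔ (s = 4 ∧ op t s = 5 ∨ s = 5 ∧ op t s = 4) := by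
      revert t s; decide
    simp only [this])
  simpa [Fin.sum_univ_six] using this

lemma d_cons (x : Fin 6) (u : A) : d (cons x u) = u - ∑ t, cons (op x t) (δ t u) := by
  simp [d_apply, δ_cons, Finset.sum_sub_distrib]

/-- first letter retraction -/
def sx (x : Fin 6) : Fin 6 := if x.val < 4 then 0 else x

def π0 : List (Fin 6) → List (Fin 6)
  | [] => []
  | x :: w => sx x :: w

noncomputable def π : A →ₗ[ℚ] A := lmapDomain ℚ ℚ π0

lemma π_nil (c : ℚ) : π (single [] c) = single [] c := by simp [π, π0]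

lemma π_cons (x : Fin 6) (u : A) : π (cons x u) = cons (sx x) u := by
  induction u using Finsupp.induction_linear with
  | zero => simp
  | add a b ha hb => simp only [map_add, ha, hb]
  | single w c => simp [cons_single, π, π0]

lemma ππ (u : A) : π (π u) = π u := by
  induction u using A_ind with
  | h0 c => simp [π_nil]
  | h2 u v hu hv => simp only [map_add, hu, hv]
  | h1 x u ih =>
    have : sx (sx x) = sx x := by revert x; decide
    rw [π_cons, π_cons, this]

/-- tail after the letter `x` -/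
noncomputable def tl (x : Fin 6) : A →ₗ[ℚ] A :=
  lcomapDomain (x :: ·) (fun _ _ h => by simpa using h)

lemma tl_nil (x : Fin 6) (c : ℚ) : tl x (single [] c) = 0 := by
  ext w; simp [tl, lcomapDomain]

lemma tl_cons (x z : Fin 6) (u : A) : tl x (cons z u) = if x = z then u else 0 := by
  induction u using Finsupp.induction_linear with
  | zero => simp
  | add a b ha hb => simp only [map_add, ha, hb]; split_ifs <;> simp
  | single w c =>
    ext v
    rw [cons_single]
    by_cases h : x = z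
    · simp [tl, lcomapDomain, h, single_apply]
    · simp [tl, lcomapDomain, h, single_apply, Ne.symm h]

noncomputable def Φ : A →ₗ[ℚ] A := (cons 0 - cons 1) ∘ₗ δ 4 + (cons 0 - cons 2) ∘ₗ δ 5

lemma Φ_apply (u : A) :
    Φ u = cons 0 (δ 4 u) - cons 1 (δ 4 u) + (cons 0 (δ 5 u) - cons 2 (δ 5 u)) := rfl

lemma d_sub (u : A) : d (u - π u) = Φ (tl 3 u) := by
  induction u using A_ind with
  | h0 c => simp [π_nil, tl_nil]
  | h2 u v hu hv =>
    have : u + v - π (u + v) = (u - π u) + (v - π v) := by rw [map_add]; abel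
    rw [this, map_add, hu, hv, map_add, map_add]
  | h1 x u ih =>
    rw [π_cons, map_sub, d_cons, d_cons, tl_cons]
    fin_cases x <;> simp [Fin.sum_univ_six, op, sx, Φ_apply]
    abel

lemma πΦ (u : A) : π (Φ u) = 0 := by
  simp [Φ_apply, π_cons, sx]

lemma πdπ (u : A) : π (d (π u)) = π (d u) := by
  have := congrArg π (d_sub u)
  rw [πΦ, map_sub, map_sub, sub_eq_zero] at this
  exact this.symm

lemma πd0 (u : A) : π (d (cons 0 u)) = π u - cons 0 (d u) := by
  have : ∀ t, sx (op 0 t) = 0 := by decide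
  simp [d_cons, π_cons, this, d_apply u]

lemma d0 (u : A) : d (cons 0 (u - π u)) = - cons 0 (d (u - π u)) := by
  induction u using A_ind with
  | h0 c => simp [π_nil]
  | h2 u v hu hv =>
    have : u + v - π (u + v) = (u - π u) + (v - π v) := by rw [map_add]; abel
    rw [this, map_add, map_add, hu, hv, map_add, map_add]; abel
  | h1 x u ih =>
    rw [d_sub, π_cons, d_cons, tl_cons]
    fin_cases x <;> simp [Fin.sum_univ_six, op, sx, Φ_apply, δ_cons]
    abel

lemma exactQ (q : A) (h : π (d q) = 0) : π q = π (d (cons 0 q + cons 0 (cons 0 (d q)))) := by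
  have h1 := d0 (d q)
  rw [h, sub_zero, dd] at h1
  rw [map_add, map_add, πd0, πd0, h1, π_cons]
  simp [sx]

/-- words of length `n` -/
noncomputable def T (n : ℕ) : Submodule ℚ A := supported ℚ ℚ {l | l.length = n}

lemma fin_supp (s : Set (List (Fin 6))) (hs : s.Finite) :
    Module.Finite ℚ (supported ℚ ℚ s) ∧ finrank ℚ (supported ℚ ℚ s) = s.ncard := by
  have := hs.fintype
  refine ⟨Module.Finite.equiv (supportedEquivFinsupp s).symm, ?_⟩
  rw [(supportedEquivFinsupp s).finrank_eq, finrank_finsupp_self, Set.ncard_eq_toFinset_card',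
    Set.toFinset_card]

lemma len_eq (n : ℕ) : {l : List (Fin 6) | l.length = n}
    = Set.range (List.ofFn : (Fin n → Fin 6) → _) := by
  ext l
  constructor
  · rintro rfl; exact ⟨l.get, List.ofFn_get l⟩
  · rintro ⟨f, rfl⟩; simp

instance (n : ℕ) : Module.Finite ℚ (T n) := (fin_supp _ (List.finite_length_eq _ n)).1

lemma rk_T (n : ℕ) : finrank ℚ (T n) = 6 ^ n := by
  rw [T, (fin_supp _ (List.finite_length_eq _ n)).2, len_eq,
    Set.ncard_range_of_injective List.ofFn_injective]
  simp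

lemma T_map {f : A →ₗ[ℚ] A} {n m : ℕ} (h : ∀ l : List (Fin 6), l.length = n → f (single l 1) ∈ T m)
    {u : A} (hu : u ∈ T n) : f u ∈ T m := by
  rw [T, supported_eq_span_single] at hu
  refine (Submodule.map_le_iff_le_comap.2 (Submodule.span_le.2 ?_)) ⟨u, hu, rfl⟩
  rintro _ ⟨l, hl, rfl⟩
  exact h l hl

lemma cons_mem (x : Fin 6) {n : ℕ} {u : A} (hu : u ∈ T n) : cons x u ∈ T (n + 1) :=
  T_map (fun l hl => by rw [cons_single]; exact single_mem_supported _ _ (by simpa using hl)) hu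

lemma δ_mem (t : Fin 6) {n : ℕ} {u : A} (hu : u ∈ T (n + 1)) : δ t u ∈ T n := by
  refine T_map (fun l hl => ?_) hu
  clear hu
  induction n generalizing l with
  | zero =>
    obtain ⟨x, rfl⟩ := List.length_eq_one_iff.1 hl
    rw [← cons_single, δ_cons, δ_nil, map_zero, sub_zero]
    split_ifs
    · exact single_mem_supported _ _ rfl
    · exact zero_mem _
  | succ n ih =>
    obtain ⟨x, w, rfl⟩ := List.exists_cons_of_length_eq_add_one hl
    have hw : w.length = n + 1 := by simpa using hl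
    rw [← cons_single, δ_cons]
    refine sub_mem ?_ (cons_mem _ (ih w hw))
    split_ifs
    · exact single_mem_supported _ _ hw
    · exact zero_mem _

lemma d_mem {n : ℕ} {u : A} (hu : u ∈ T (n + 1)) : d u ∈ T n := by
  rw [d_apply]; exact Submodule.sum_mem _ fun t _ => δ_mem t hu

lemma π_mem {n : ℕ} {u : A} (hu : u ∈ T n) : π u ∈ T n :=
  T_map (fun l hl => by
    simp only [π, lmapDomain_apply, mapDomain_single]
    refine single_mem_supported _ _ ?_
    cases l <;> simpa [π0] using hl) hu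

lemma tl_mem (x : Fin 6) {n : ℕ} {u : A} (hu : u ∈ T (n + 1)) : tl x u ∈ T n :=
  T_map (fun l hl => by
    obtain ⟨z, w, rfl⟩ := List.exists_cons_of_length_eq_add_one hl
    rw [← cons_single, tl_cons]
    split_ifs
    · exact single_mem_supported _ _ (by simpa using hl)
    · exact zero_mem _) hu

lemma RN (U : Submodule ℚ A) (n : ℕ) (hU : U ≤ T n) (f : A →ₗ[ℚ] A) :
    finrank ℚ (U.map f) + finrank ℚ ↥(U ⊓ LinearMap.ker f) = finrank ℚ U := by
  have : Module.Finite ℚ U := Submodule.finiteDimensional_of_le hU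
  rw [← (f.domRestrict U).finrank_range_add_finrank_ker, LinearMap.range_domRestrict,
    LinearMap.ker_domRestrict, ← Submodule.finrank_map_subtype_eq, Submodule.map_comap_subtype]

lemma κ_odd (n : ℕ) : Odd (finrank ℚ ↥(T n ⊓ LinearMap.ker (δ 4))) := by
  induction n with
  | zero =>
    have : T 0 ⊓ LinearMap.ker (δ 4) = T 0 := by
      refine inf_eq_left.2 ?_
      rw [T, supported_eq_span_single, Submodule.span_le]
      rintro _ ⟨l, hl, rfl⟩
      rw [List.length_eq_zero_iff.1 hl]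
      exact δ_nil _ _
    rw [this, rk_T]; simp
  | succ n ih =>
    have h := RN (T (n + 1)) _ le_rfl (δ 4)
    have e : (T (n + 1)).map (δ 4) = T n ⊓ LinearMap.ker (δ 4) := by
      apply le_antisymm
      · rintro _ ⟨u, hu, rfl⟩; exact ⟨δ_mem _ hu, δ44 u⟩
      · rintro u ⟨hu, h0⟩
        refine ⟨cons 4 u, cons_mem _ hu, ?_⟩
        rw [δ_cons, LinearMap.mem_ker.1 h0]; simp
    rw [e, rk_T, pow_succ] at h
    obtain ⟨k, hk⟩ := ih
    exact ⟨6 ^ n * 3 - k - 1, by omega⟩

lemma k_rec (n : ℕ) : finrank ℚ ↥(T n ⊓ LinearMap.ker (δ 4) ⊓ LinearMap.ker (δ 5))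
    + finrank ℚ ↥(T (n + 1) ⊓ LinearMap.ker (δ 4) ⊓ LinearMap.ker (δ 5))
    = finrank ℚ ↥(T (n + 1) ⊓ LinearMap.ker (δ 4)) := by
  rw [← RN (T (n + 1) ⊓ LinearMap.ker (δ 4)) _ inf_le_left (δ 5)]
  suffices h : T n ⊓ LinearMap.ker (δ 4) ⊓ LinearMap.ker (δ 5)
      = (T (n + 1) ⊓ LinearMap.ker (δ 4)).map (δ 5) by rw [h]
  apply le_antisymm
  · rintro u ⟨⟨hu, h0⟩, h1⟩
    refine ⟨cons 5 u, ⟨cons_mem _ hu, ?_⟩, ?_⟩
    · change δ 4 _ = 0
      rw [δ_cons, LinearMap.mem_ker.1 h0]; simp
    · rw [δ_cons, LinearMap.mem_ker.1 h1]; simp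
  · rintro _ ⟨u, ⟨hu, h0⟩, rfl⟩
    refine ⟨⟨δ_mem _ hu, ?_⟩, δ55 u⟩
    have := δ45 u
    rw [LinearMap.mem_ker.1 h0, map_zero, zero_add] at this
    exact this

lemma ρ_rec (n : ℕ) : finrank ℚ ((T n).map Φ)
    + finrank ℚ ↥(T n ⊓ LinearMap.ker (δ 4) ⊓ LinearMap.ker (δ 5)) = 6 ^ n := by
  rw [← rk_T, ← RN (T n) _ le_rfl Φ, inf_assoc]
  suffices h : LinearMap.ker (δ 4) ⊓ LinearMap.ker (δ 5) = LinearMap.ker Φ by rw [h]
  ext u
  simp only [Submodule.mem_inf, LinearMap.mem_ker]
  constructor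
  · rintro ⟨h1, h2⟩; simp [Φ_apply, h1, h2]
  · intro h
    have h1 := congrArg (tl 1) h
    have h2 := congrArg (tl 2) h
    simp only [Φ_apply, map_add, map_sub, tl_cons] at h1 h2
    exact ⟨by simpa using h1, by simpa using h2⟩

lemma r_split (n : ℕ) : finrank ℚ ((T (n + 1)).map d)
    = finrank ℚ ((T (n + 1)).map (π ∘ₗ d)) + finrank ℚ ((T n).map Φ) := by
  rw [← RN ((T (n + 1)).map d) n (by rintro _ ⟨u, hu, rfl⟩; exact d_mem hu) π,
    Submodule.map_comp]
  suffices h : (T (n + 1)).map d ⊓ LinearMap.ker π = (T n).map Φ by rw [h]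
  apply le_antisymm
  · rintro _ ⟨⟨u, hu, rfl⟩, h⟩
    obtain ⟨v, hv⟩ : ∃ v, v = cons 0 u + cons 0 (cons 0 (d u)) := ⟨_, rfl⟩
    have h1 := exactQ u h
    rw [← hv] at h1
    have hv' : v ∈ T (n + 2) := hv ▸ add_mem (cons_mem _ hu) (cons_mem _ (cons_mem _ (d_mem hu)))
    refine ⟨tl 3 (u - d v), tl_mem _ (sub_mem hu (d_mem hv')), ?_⟩
    rw [← d_sub, map_sub π, h1, sub_self, sub_zero, map_sub, dd, sub_zero]
  · rintro _ ⟨u, hu, rfl⟩
    refine ⟨⟨cons 3 u - π (cons 3 u), sub_mem (cons_mem _ hu) (π_mem (cons_mem _ hu)), ?_⟩, πΦ u⟩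
    rw [d_sub, tl_cons]; simp

lemma a_rec (n : ℕ) : finrank ℚ ((T (n + 1)).map (π ∘ₗ d))
    + finrank ℚ ((T (n + 2)).map (π ∘ₗ d)) = 3 * 6 ^ n := by
  have h := RN ((T (n + 1)).map π) (n + 1) (by rintro _ ⟨u, hu, rfl⟩; exact π_mem hu) (π ∘ₗ d)
  have e1 : ((T (n + 1)).map π).map (π ∘ₗ d) = (T (n + 1)).map (π ∘ₗ d) := by
    rw [← Submodule.map_comp]
    congr 1
    exact LinearMap.ext πdπ
  have e2 : (T (n + 1)).map π ⊓ LinearMap.ker (π ∘ₗ d) = (T (n + 2)).map (π ∘ₗ d) := by
    apply le_antisymm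
    · rintro _ ⟨⟨u, hu, rfl⟩, h⟩
      have h' : π (d u) = 0 := by rw [← πdπ]; exact h
      exact ⟨_, add_mem (cons_mem _ hu) (cons_mem _ (cons_mem _ (d_mem hu))), (exactQ u h').symm⟩
    · rintro _ ⟨u, hu, rfl⟩
      refine ⟨⟨d u, d_mem hu, rfl⟩, ?_⟩
      change π (d (π (d u))) = 0
      rw [πdπ, dd, map_zero]
  have e3 : π0 '' {l | l.length = n + 1} = Set.range
      fun p : Fin 3 × (Fin n → Fin 6) => (![0, 4, 5] : Fin 3 → Fin 6) p.1 :: List.ofFn p.2 := by
    ext l
    constructor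
    · rintro ⟨l, hl, rfl⟩
      obtain ⟨x, w, rfl⟩ := List.exists_cons_of_length_eq_add_one hl
      obtain rfl : w.length = n := by simpa using hl
      have : ∀ x, ∃ i, (![0, 4, 5] : Fin 3 → Fin 6) i = sx x := by decide
      obtain ⟨i, hi⟩ := this x
      exact ⟨(i, w.get), by simp [π0, hi]⟩
    · rintro ⟨⟨i, f⟩, rfl⟩
      have : ∀ i, sx ((![0, 4, 5] : Fin 3 → Fin 6) i) = (![0, 4, 5] : Fin 3 → Fin 6) i := by decide
      exact ⟨_ :: List.ofFn f, by simp, by rw [π0, this]⟩
  have e4 : (T (n + 1)).map π = supported ℚ ℚ (π0 '' {l | l.length = n + 1}) :=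
    lmapDomain_supported _ _ _ _
  rw [e1, e2, e4, e3, (fin_supp _ (Set.finite_range _)).2, Set.ncard_range_of_injective] at h
  · simpa using h
  · rintro ⟨i, f⟩ ⟨j, g⟩ h
    have : Function.Injective (![0, 4, 5] : Fin 3 → Fin 6) := by decide
    simp only [List.cons.injEq] at h
    rw [this h.1, List.ofFn_injective h.2]

lemma r_odd (n : ℕ) : Odd (finrank ℚ ((T (n + 2)).map d) + finrank ℚ ((T (n + 3)).map d)) := by
  have h1 := r_split (n + 1)
  have h2 := r_split (n + 2)
  have h3 := a_rec (n + 1)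
  have h4 := ρ_rec (n + 1)
  have h5 := ρ_rec (n + 2)
  have h6 := k_rec (n + 1)
  obtain ⟨k, hk⟩ := κ_odd (n + 2)
  have e1 : n + 1 + 1 = n + 2 := rfl
  have e2 : n + 2 + 1 = n + 3 := rfl
  have e3 : n + 1 + 2 = n + 3 := rfl
  have e4 : 6 ^ (n + 1) = 6 * 6 ^ n := pow_succ' _ _
  have e5 : 6 ^ (n + 2) = 36 * 6 ^ n := by ring
  rw [e1] at h1 h3 h6
  rw [e2] at h2
  rw [e3] at h3
  exact ⟨30 * 6 ^ n - k - 1, by omega⟩

/-- the face maps -/
def face {m : ℕ} (t : Fin 6) (i : Fin (m + 1)) (x : Fin (m + 1) → Fin 6) (j : Fin m) : Fin 6 :=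
  if Fin.castSucc j < i then op (x (i.succAbove j)) t else x (i.succAbove j)

lemma δ_ofFn (t : Fin 6) (m : ℕ) (x : Fin (m + 1) → Fin 6) : δ t (single (List.ofFn x) 1)
    = ∑ i, if x i = t then ((-1 : ℚ) ^ (i : ℕ)) • single (List.ofFn (face t i x)) (1 : ℚ)
      else 0 := by
  induction m with
  | zero => rw [List.ofFn_succ, ← cons_single, δ_cons]; simp [δ_nil]
  | succ m ih =>
    rw [List.ofFn_succ, ← cons_single, δ_cons, ih, map_sum, Fin.sum_univ_succ (n := m + 1),
      sub_eq_add_neg,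
      ← Finset.sum_neg_distrib]
    congr 1
    · have : face t 0 x = fun i => x i.succ := by ext j; simp [face]
      simp [this]
    · refine Finset.sum_congr rfl fun i _ => ?_
      have : List.ofFn (face t i.succ x) = op (x 0) t :: List.ofFn (face t i fun j => x j.succ) := by
        rw [List.ofFn_succ]
        refine congrArg₂ _ (by simp [face]) (congrArg _ (funext fun j => ?_))
        simp [face, ← Fin.succ_castSucc]
      split_ifs
      · rw [this, map_smul, cons_single, Fin.val_succ, pow_succ]; simp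
      · simp

noncomputable def ι (m : ℕ) : ((Fin m → Fin 6) →₀ ℚ) →ₗ[ℚ] A := lmapDomain ℚ ℚ List.ofFn

lemma ι_inj (m : ℕ) : Function.Injective (ι m) := mapDomain_injective List.ofFn_injective

lemma ι_range (m : ℕ) : LinearMap.range (ι m) = T m := by
  rw [T, len_eq, ← Set.image_univ, ← lmapDomain_supported, supported_univ, Submodule.map_top]
  rfl

noncomputable def DD (m : ℕ) : ((Fin (m + 1) → Fin 6) →₀ ℚ) →ₗ[ℚ] ((Fin m → Fin 6) →₀ ℚ) :=
  ∑ i : Fin (m + 1), ((-1 : ℚ) ^ (i : ℕ)) • Finsupp.lmapDomain ℚ ℚ (fun x => face (x i) i x)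

lemma ι_DD (m : ℕ) : ι m ∘ₗ DD m = d ∘ₗ ι (m + 1) := by
  refine Finsupp.lhom_ext' fun x => LinearMap.ext_ring ?_
  simp only [LinearMap.comp_apply, lsingle_apply, ι, lmapDomain_apply, mapDomain_single, d_apply,
    δ_ofFn, DD, LinearMap.sum_apply, LinearMap.smul_apply]
  rw [Finset.sum_comm, ← lmapDomain_apply ℚ ℚ, map_sum]
  simp

lemma rk_DD (m : ℕ) : finrank ℚ (LinearMap.range (DD m)) = finrank ℚ ((T (m + 1)).map d) := by
  rw [← ι_range, ← LinearMap.range_comp, ← ι_DD, LinearMap.range_comp,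
    (Submodule.equivMapOfInjective _ (ι_inj m) _).finrank_eq]

end Aux


/-- The negation of the preceding statement: For every finite right self-distributive (X,∗), the rank of augmented one-term distributive homology (∂ = Σ(−1)^i d_i, d_i acting by ∗x_i on earlier entries and deleting x_i) satisfies rk H_{n+1} = ∣X∣·rk H_n for all n ≥ ∣X∣−2. -/
theorem result :
    ¬ (∀ (X : Type) [Fintype X] (op : X → X → X),
      (∀ a b c : X, op (op a b) c = op (op a c) (op b c)) →
      ∀ D : (m : ℕ) → ((Fin (m + 1) → X) →₀ ℚ) →ₗ[ℚ] ((Fin m → X) →₀ ℚ),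
        (∀ m : ℕ, D m = ∑ i : Fin (m + 1), ((-1 : ℚ) ^ (i : ℕ)) •
            Finsupp.lmapDomain ℚ ℚ
              (fun (x : Fin (m + 1) → X) (j : Fin m) =>
                if Fin.castSucc j < i then op (x (i.succAbove j)) (x i)
                else x (i.succAbove j))) →
        ∀ n : ℕ, Fintype.card X ≤ n + 2 →
          Module.finrank ℚ (LinearMap.ker (D (n + 1))) -
              Module.finrank ℚ (LinearMap.range (D (n + 2))) =
            Fintype.card X *
              (Module.finrank ℚ (LinearMap.ker (D n)) -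
                Module.finrank ℚ (LinearMap.range (D (n + 1))))) := by
  intro h
  have h1 := h (Fin 6) op op_sd DD (fun _ => rfl) 4 (by simp)
  have h2 := (DD 5).finrank_range_add_finrank_ker
  have h3 : LinearMap.range (DD 6) ≤ LinearMap.ker (DD 5) := by
    rintro _ ⟨u, rfl⟩
    apply ι_inj
    have a := LinearMap.congr_fun (ι_DD 5) (DD 6 u)
    have b := LinearMap.congr_fun (ι_DD 6) u
    simp only [LinearMap.comp_apply] at a b
    rw [a, b, dd, map_zero]
  have h4 := Submodule.finrank_mono h3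
  have h5 := r_odd 4
  rw [← rk_DD, ← rk_DD] at h5
  obtain ⟨k, hk⟩ := h5
  rw [Module.finrank_finsupp_self, Fintype.card_fun] at h2
  simp only [Fintype.card_fin, Nat.reduceAdd] at h1 h2 hk
  omega


end Pool.Agent.S00600
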