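import Pool.Statements.S00609
-- import your own Pool.Agent.* helpers here

set_option autoImplicit false
open Pool Pool.MP_042d8e_al

namespace Pool.Agent.S00609

abbrev W := List (ZMod 2)

def Aut : Subgroup (Equiv.Perm W) where
  carrier := {g | ∀ w : W, (g w).length = w.length ∧ (g w).tail = g w.tail}
  one_mem' := fun w => ⟨rfl, rfl⟩
  mul_mem' := by
    intro g h hg hh w
    refine ⟨?_, ?_⟩
    · rw [Equiv.Perm.mul_apply, (hg _).1, (hh _).1]
    · rw [Equiv.Perm.mul_apply, Equiv.Perm.mul_apply, (hg _).2, (hh _).2]
  inv_mem' := by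
    intro g hg w
    refine ⟨?_, ?_⟩
    · have := (hg (g⁻¹ w)).1
      simpa using this.symm
    · have := (hg (g⁻¹ w)).2
      apply g.injective
      rw [← this]
      simp

lemma smul_def (g : Aut) (w : W) : g • w = g.1 w := rfl

lemma len_smul (g : Aut) (w : W) : (g • w).length = w.length := (g.2 w).1
lemma tail_smul (g : Aut) (w : W) : (g • w).tail = g • w.tail := (g.2 w).2

def act (f : W → ZMod 2) : W → W
  | [] => []
  | b :: u => (b + f u) :: act f u

lemma act_len (f : W → ZMod 2) (w : W) : (act f w).length = w.length := by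
  induction w with
  | nil => rfl
  | cons b u ih => simp [act, ih]

lemma act_bij (f : W → ZMod 2) : Function.Bijective (act f) := by
  constructor
  · intro v
    induction v with
    | nil =>
      intro w h
      cases w with
      | nil => rfl
      | cons b u => simp [act] at h
    | cons a v ih =>
      intro w h
      cases w with
      | nil => simp [act] at h
      | cons b u =>
        simp only [act, List.cons.injEq] at h
        have h2 := ih h.2
        subst h2
        have h1 := add_right_cancel h.1
        rw [h1]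
  · intro v
    induction v with
    | nil => exact ⟨[], rfl⟩
    | cons a v ih =>
      obtain ⟨u, hu⟩ := ih
      exact ⟨(a - f u) :: u, by simp [act, hu]⟩

noncomputable def mk (f : W → ZMod 2) : Aut :=
  ⟨Equiv.ofBijective (act f) (act_bij f), fun w => ⟨act_len f w, by
    cases w with
    | nil => rfl
    | cons b u => rfl⟩⟩

lemma mk_smul (f : W → ZMod 2) (w : W) : mk f • w = act f w := rfl

lemma act_fix (f : W → ZMod 2) (w : W) (h : ∀ u, u <:+ w → u.length < w.length → f u = 0) :
    act f w = w := by
  induction w with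
  | nil => rfl
  | cons b u ih =>
    have h1 : f u = 0 := h u (List.suffix_cons b u) (by simp)
    have h2 : act f u = u := ih fun x hx hl =>
      h x (hx.trans (List.suffix_cons b u)) (by simp; omega)
    simp [act, h1, h2]

def por (g : Aut) (u : W) : ZMod 2 := (g • ((0 : ZMod 2) :: u)).headD 0

lemma cons_form (g : Aut) (b : ZMod 2) (u : W) : ∃ c, g • (b :: u) = c :: g • u := by
  have h1 := len_smul g (b :: u)
  have h2 := tail_smul g (b :: u)
  cases h : g • (b :: u) with
  | nil => rw [h] at h1; simp at h1
  | cons c x =>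
    rw [h] at h2
    simp only [List.tail_cons] at h2
    exact ⟨c, by rw [h2]⟩

lemma smul_cons (g : Aut) (b : ZMod 2) (u : W) : g • (b :: u) = (b + por g u) :: g • u := by
  obtain ⟨c, hc⟩ := cons_form g 0 u
  have hp : por g u = c := by simp [por, hc]
  obtain ⟨d, hd⟩ := cons_form g b u
  rw [hp, hd]
  congr 1
  by_cases hb : b = 0
  · subst hb
    rw [hc] at hd
    simp only [List.cons.injEq, and_true] at hd
    simp [hd]
  · have hne : d ≠ c := by
      intro e
      rw [e, ← hc] at hd
      have := smul_left_cancel g hd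
      simp only [List.cons.injEq, and_true] at this
      exact hb this
    revert hb hne
    generalize b = x
    generalize c = y
    generalize d = z
    revert x y z
    decide

lemma por_mul (g h : Aut) (u : W) : por (g * h) u = por g (h • u) + por h u := by
  have h1 := smul_cons (g * h) 0 u
  rw [mul_smul, smul_cons h, smul_cons g] at h1
  simp only [List.cons.injEq] at h1
  have := h1.1
  rw [zero_add, zero_add] at this
  rw [← this, add_comm]

lemma por_mk (f : W → ZMod 2) (u : W) : por (mk f) u = f u := by
  simp [por, mk_smul, act]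

noncomputable def lv (n : ℕ) : Finset W := (List.finite_length_eq (ZMod 2) n).toFinset

lemma mem_lv (n : ℕ) (u : W) : u ∈ lv n ↔ u.length = n := by simp [lv]

noncomputable def sig (g : Aut) (n : ℕ) : ZMod 2 := ∑ u ∈ lv n, por g u

lemma sig_mul (g h : Aut) (n : ℕ) : sig (g * h) n = sig g n + sig h n := by
  simp only [sig, por_mul, Finset.sum_add_distrib]
  congr 1
  refine Finset.sum_bij' (fun u _ => h • u) (fun u _ => h⁻¹ • u) ?_ ?_ ?_ ?_ ?_
  · intro u hu; rw [mem_lv] at *; rw [len_smul, hu]
  · intro u hu; rw [mem_lv] at *; rw [len_smul, hu]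
  · intro u _; simp
  · intro u _; simp
  · intro u _; rfl

lemma ex_lim (x : ℕ → ZMod 2) : ∃ c, ∀ᶠ k in (Filter.hyperfilter ℕ : Filter ℕ), x k = c := by
  obtain ⟨c, hc⟩ := Ultrafilter.eq_pure_of_finite ((Filter.hyperfilter ℕ).map x)
  refine ⟨c, ?_⟩
  have : {c} ∈ (Filter.hyperfilter ℕ).map x := by rw [hc]; simp
  exact this

noncomputable def ulim (x : ℕ → ZMod 2) : ZMod 2 := (ex_lim x).choose

lemma ulim_eq (x : ℕ → ZMod 2) (c : ZMod 2)
    (h : ∀ᶠ k in (Filter.hyperfilter ℕ : Filter ℕ), x k = c) : ulim x = c := by
  obtain ⟨k, h1, h2⟩ := ((ex_lim x).choose_spec.and h).exists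
  rw [← h2, h1]; rfl

lemma ulim_add (x y : ℕ → ZMod 2) : ulim (fun k => x k + y k) = ulim x + ulim y := by
  apply ulim_eq
  filter_upwards [(ex_lim x).choose_spec, (ex_lim y).choose_spec] with k h1 h2
  rw [h1, h2]; rfl

noncomputable def chi (a : ℕ) : Aut →* Multiplicative (ZMod 2) :=
  MonoidHom.mk' (fun g => Multiplicative.ofAdd (ulim fun k => sig g (Nat.pair a k))) (by
    intro g h
    simp only [sig_mul, ulim_add, ofAdd_add])

def St (n : ℕ) : Subgroup Aut := ⨅ w : {w : W // w.length ≤ n}, MulAction.stabilizer Aut w.1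

lemma mem_St (n : ℕ) (g : Aut) : g ∈ St n ↔ ∀ w : W, w.length ≤ n → g • w = w := by
  simp [St, Subgroup.mem_iInf]

instance St_fi (n : ℕ) : (St n).FiniteIndex := by
  haveI : Finite {w : W // w.length ≤ n} := (List.finite_length_le (ZMod 2) n).to_subtype
  apply Subgroup.finiteIndex_iInf
  intro w
  constructor
  rw [MulAction.index_stabilizer]
  have hf : (MulAction.orbit Aut w.1).Finite := by
    apply (List.finite_length_eq (ZMod 2) w.1.length).subset
    rintro _ ⟨g, rfl⟩
    exact len_smul g w.1
  rw [Ne, Set.ncard_eq_zero hf]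
  exact (MulAction.nonempty_orbit w.1).ne_empty

instance St_normal (n : ℕ) : (St n).Normal := by
  constructor
  intro g hg h
  rw [mem_St] at *
  intro w hw
  rw [mul_smul, mul_smul, hg _ (by rw [len_smul]; exact hw)]
  simp

lemma iter_tail (k : ℕ) (w : W) : List.tail^[k] w = w.drop k := by
  induction k with
  | zero => rfl
  | succ k ih => rw [Function.iterate_succ_apply', ih, List.tail_drop]

def R (n : ℕ) : Subgroup Aut := Subgroup.closure {g : Aut | ∃ v : W, v.length = n ∧
  ∀ w : W, (∀ k : ℕ, List.tail^[k] w ≠ v) → g • w = w}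

open Classical in
noncomputable def loc (g : Aut) (v : W) : Aut := mk fun u => if v <:+ u then por g u else 0

lemma loc_out (g : Aut) (v w : W) (h : ¬ (v <:+ w ∧ v ≠ w)) : loc g v • w = w := by
  rw [loc, mk_smul]
  apply act_fix
  intro u hu hl
  rw [if_neg]
  intro hv
  apply h
  refine ⟨hv.trans hu, ?_⟩
  intro e
  have := hv.length_le
  rw [e] at this
  omega

lemma loc_in (g : Aut) (v : W) (hv : g • v = v) (w : W) (h : v <:+ w) : loc g v • w = g • w := by
  induction w with
  | nil =>
    have : v = [] := List.suffix_nil.1 h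
    subst this
    rw [hv]; rfl
  | cons b u ih =>
    rcases List.suffix_cons_iff.1 h with e | e
    · rw [← e, hv]
      exact loc_out g v v (fun h => h.2 rfl)
    · rw [smul_cons, smul_cons g, ih e, loc, por_mk, if_pos e]

lemma St_le_R (n : ℕ) : St n ≤ R n := by
  have key : ∀ S : Finset W, (∀ v ∈ S, v.length = n) → ∀ g ∈ St n,
      (∀ w : W, (∀ v ∈ S, ¬ v <:+ w) → g • w = w) → g ∈ R n := by
    intro S
    classical
    induction S using Finset.induction_on with
    | empty =>
      intro _ g _ h
      have : g = 1 := by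
        ext w : 2
        exact h w (by simp)
      rw [this]; exact (R n).one_mem
    | insert v S hv ih =>
      intro hS g hg h
      have hvn : v.length = n := hS v (Finset.mem_insert_self v S)
      have hgv : g • v = v := (mem_St n g).1 hg v hvn.le
      have h1 : loc g v ∈ R n := by
        apply Subgroup.subset_closure
        refine ⟨v, hvn, fun w hw => loc_out g v w fun h => ?_⟩
        apply hw (w.length - v.length)
        rw [iter_tail]
        exact (List.suffix_iff_eq_drop.1 h.1).symm
      have h2 : loc g v ∈ St n := by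
        rw [mem_St]
        intro w hw
        apply loc_out
        intro h
        exact h.2 (h.1.eq_of_length (le_antisymm h.1.length_le (by omega)))
      have h3 : (loc g v)⁻¹ * g ∈ R n := by
        apply ih (fun x hx => hS x (Finset.mem_insert_of_mem hx)) _
          ((St n).mul_mem ((St n).inv_mem h2) hg)
        intro w hw
        rw [mul_smul, inv_smul_eq_iff]
        by_cases hvw : v <:+ w
        · exact (loc_in g v hgv w hvw).symm
        · rw [loc_out g v w fun h => hvw h.1]
          apply h
          intro x hx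
          rcases Finset.mem_insert.1 hx with e | e
          · rw [e]; exact hvw
          · exact hw x e
      have := (R n).mul_mem h1 h3
      simpa using this
  intro g hg
  apply key (lv n) (fun v hv => (mem_lv n v).1 hv) g hg
  intro w hw
  apply (mem_St n g).1 hg
  by_contra hl
  apply hw (w.drop (w.length - n)) _ (List.drop_suffix _ _)
  rw [mem_lv, List.length_drop]
  omega

lemma trans (v : W) : ∀ w : W, v.length = w.length → ∃ g : Aut, g • v = w := by
  induction v with
  | nil =>
    intro w h
    exact ⟨1, by rw [one_smul]; exact (List.length_eq_zero_iff.1 h.symm).symm⟩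
  | cons a v ih =>
    intro w h
    cases w with
    | nil => simp at h
    | cons b w =>
      obtain ⟨g, hg⟩ := ih w (by simpa using h)
      refine ⟨mk (fun u => if u = w then b - (a + por g v) else 0) * g, ?_⟩
      rw [mul_smul, smul_cons, hg, mk_smul, act, act_fix]
      · simp
      · intro u _ hl
        rw [if_neg]
        intro e
        rw [e] at hl
        omega

noncomputable def MM (a i : ℕ) : Subgroup Aut := St i ⊓ (chi a).ker

open Classical in
noncomputable def test (a j : ℕ) : Aut :=
  mk fun u => if u = List.replicate u.length 0 ∧ ∃ k, j ≤ k ∧ u.length = Nat.pair a k then 1 else 0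

open Classical in
lemma sig_test (a j n : ℕ) :
    sig (test a j) n = if ∃ k, j ≤ k ∧ n = Nat.pair a k then 1 else 0 := by
  rw [sig, Finset.sum_eq_single (List.replicate n 0)]
  · rw [test, por_mk]; simp
  · intro u hu hne
    rw [mem_lv] at hu
    rw [test, por_mk, if_neg]
    intro h
    rw [hu] at h
    exact hne h.1
  · intro h
    exact absurd ((mem_lv _ _).2 (by simp)) h

lemma ineq (a b j : ℕ) (hab : a ≠ b) : ¬ MM b j ≤ MM a 0 := by
  intro h
  have h1 : test a j ∈ MM b j := by
    refine ⟨?_, ?_⟩
    · show test a j ∈ St j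
      rw [mem_St]
      intro w hw
      rw [test, mk_smul]
      apply act_fix
      intro u _ hl
      rw [if_neg]
      rintro ⟨-, k, hk, e⟩
      have := Nat.right_le_pair a k
      omega
    · show chi b (test a j) = 1
      have : ulim (fun k => sig (test a j) (Nat.pair b k)) = 0 := by
        apply ulim_eq
        refine Filter.Eventually.of_forall fun k => ?_
        rw [sig_test, if_neg]
        rintro ⟨k', -, e⟩
        exact hab (Nat.pair_eq_pair.1 e).1.symm
      simp [chi, this]
  have h2 : chi a (test a j) = 1 := (h h1).2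
  have h3 : ulim (fun k => sig (test a j) (Nat.pair a k)) = 1 := by
    apply ulim_eq
    apply Filter.hyperfilter_le_cofinite
    rw [Nat.cofinite_eq_atTop]
    filter_upwards [Filter.eventually_ge_atTop j] with k hk
    rw [sig_test, if_pos ⟨k, hk, rfl⟩]
  simp [chi, h3] at h2


/-- There is a branch group (faithful, level-transitive on a locally finite rooted tree, finite-index rigid level stabilizers) with infinitely many pairwise inequivalent descending sequences of finite-index normal subgroups with trivial intersection. -/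
theorem result :
    ∃ (G : Type) (_ : Group G) (V : Type) (_ : MulAction G V) (lev : V → ℕ) (par : V → V),
      (∀ v w : V, lev v = 0 → lev w = 0 → v = w) ∧
      (∃ v : V, lev v = 0) ∧
      (∀ w : V, lev w = 0 → par w = w) ∧
      (∀ w : V, lev w ≠ 0 → lev (par w) + 1 = lev w) ∧
      (∀ n : ℕ, {v : V | lev v = n}.Finite) ∧
      (∀ v : V, ∃ w₁ w₂ : V, w₁ ≠ w₂ ∧ par w₁ = v ∧ par w₂ = v ∧
          lev w₁ = lev v + 1 ∧ lev w₂ = lev v + 1) ∧
      (∀ (g : G) (w : V), lev (g • w) = lev w ∧ par (g • w) = g • par w) ∧
      (∀ g : G, (∀ v : V, g • v = v) → g = 1) ∧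
      (∀ v w : V, lev v = lev w → ∃ g : G, g • v = w) ∧
      (∀ n : ℕ, (Subgroup.closure {g : G | ∃ v : V, lev v = n ∧
          ∀ w : V, (∀ k : ℕ, par^[k] w ≠ v) → g • w = w}).FiniteIndex) ∧
      ∃ M : ℕ → ℕ → Subgroup G,
        (∀ a : ℕ, Antitone (M a) ∧ (∀ i : ℕ, (M a i).Normal ∧ (M a i).FiniteIndex) ∧
            (⨅ i : ℕ, M a i) = ⊥) ∧
        (∀ a b : ℕ, a ≠ b →
            ¬ ((∀ i : ℕ, ∃ j : ℕ, M b j ≤ M a i) ∧ (∀ i : ℕ, ∃ j : ℕ, M a j ≤ M b i))) := by
  refine ⟨Aut, inferInstance, W, inferInstance, List.length, List.tail, ?_, ⟨[], rfl⟩, ?_, ?_,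
    fun n => List.finite_length_eq (ZMod 2) n, ?_, fun g w => ⟨len_smul g w, tail_smul g w⟩, ?_,
    trans, ?_, MM, ?_, ?_⟩
  · intro v w hv hw
    rw [List.length_eq_zero_iff.1 hv, List.length_eq_zero_iff.1 hw]
  · intro w hw
    rw [List.length_eq_zero_iff.1 hw]; rfl
  · intro w hw
    rw [List.length_tail]; omega
  · intro v
    exact ⟨0 :: v, 1 :: v, by simp, rfl, rfl, rfl, rfl⟩
  · intro g h
    ext w : 2
    exact h w
  · intro n
    exact Subgroup.finiteIndex_of_le (St_le_R n)
  · intro a
    refine ⟨?_, fun i => ⟨?_, ?_⟩, ?_⟩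
    · intro i j hij g hg
      refine ⟨?_, hg.2⟩
      show g ∈ St i
      have : g ∈ St j := hg.1
      rw [mem_St] at *
      exact fun w hw => this w (hw.trans hij)
    · unfold MM; infer_instance
    · unfold MM; infer_instance
    · rw [eq_bot_iff]
      intro g hg
      rw [Subgroup.mem_iInf] at hg
      rw [Subgroup.mem_bot]
      ext w : 2
      exact (mem_St _ g).1 (hg w.length).1 w le_rfl
  · rintro a b hab ⟨h, -⟩
    obtain ⟨j, hj⟩ := h 0
    exact ineq a b j hab hj

end Pool.Agent.S00609
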