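import Pool.Statements.S00643
import Pool.Agent.Lib.helper25.MinRankC

set_option autoImplicit false
open Pool Pool.MP_066b7c_al

namespace Pool.Agent.S00643

open Matrix Pool.Agent.Lib.H25MinRank in
lemma pick {a b k : ℕ} (h1 : 1 ≤ k) (h2 : k ≤ a * b) :
    ∃ r, r + 1 ≤ a ∧ r + 1 ≤ b ∧ (a - (r + 1)) * (b - (r + 1)) < k ∧ k ≤ (a - r) * (b - r) := by
  classical
  have hex : ∃ r, (a - r) * (b - r) < k := ⟨a, by simp; omega⟩
  have h3 := Nat.find_spec hex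
  obtain ⟨r, hr⟩ : ∃ r, Nat.find hex = r + 1 := Nat.exists_eq_succ_of_ne_zero (by
    intro h
    rw [h] at h3
    simp at h3
    omega)
  have h4 := Nat.find_min hex (m := r) (by omega)
  rw [hr] at h3
  refine ⟨r, ?_, ?_, h3, by omega⟩
  · by_contra h
    rw [show a - r = 0 by omega] at h4
    omega
  · by_contra h
    rw [show b - r = 0 by omega] at h4
    omega

open Matrix MvPolynomial Pool.Agent.Lib.H25MinRank in
lemma gen (a1 b1 k1 a2 b2 k2 R : ℕ) (M0 : Fin k1 → Matrix (Fin a1) (Fin b1) ℂ)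
    (N0 : Fin k2 → Matrix (Fin a2) (Fin b2) ℂ)
    (h0 : ∀ c : Fin k1 × Fin k2 → ℂ, c ≠ 0 →
      R ≤ (∑ p, c p • kroneckerMap (fun u v : ℂ => u * v) (M0 p.1) (N0 p.2)).rank) :
    ∃ P : MvPolynomial ((Fin k1 × Fin a1 × Fin b1) ⊕ (Fin k2 × Fin a2 × Fin b2)) ℂ, P ≠ 0 ∧
      ∀ (M : Fin k1 → Matrix (Fin a1) (Fin b1) ℂ) (N : Fin k2 → Matrix (Fin a2) (Fin b2) ℂ),
        MvPolynomial.eval
          (Sum.elim (fun t : Fin k1 × Fin a1 × Fin b1 => M t.1 t.2.1 t.2.2)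
            (fun t : Fin k2 × Fin a2 × Fin b2 => N t.1 t.2.1 t.2.2)) P ≠ 0 →
        ∀ c : Fin k1 × Fin k2 → ℂ, c ≠ 0 →
          R ≤ (∑ p, c p • kroneckerMap (fun u v : ℂ => u * v) (M p.1) (N p.2)).rank := by
  let W : Matrix (Fin a1 × Fin a2) (Fin b1 × Fin b2)
      (MvPolynomial (((Fin k1 × Fin a1 × Fin b1) ⊕ (Fin k2 × Fin a2 × Fin b2)) ⊕ (Fin k1 × Fin k2)) ℂ) :=
    Matrix.of fun i j => ∑ p : Fin k1 × Fin k2, X (Sum.inr p) *
      (X (Sum.inl (Sum.inl (p.1, i.1, j.1))) * X (Sum.inl (Sum.inr (p.2, i.2, j.2))))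
  have ev : ∀ (M : Fin k1 → Matrix (Fin a1) (Fin b1) ℂ) (N : Fin k2 → Matrix (Fin a2) (Fin b2) ℂ)
      (c : Fin k1 × Fin k2 → ℂ) (f : Fin R → Fin a1 × Fin a2) (g : Fin R → Fin b1 × Fin b2),
      eval (Sum.elim (Sum.elim (fun t : Fin k1 × Fin a1 × Fin b1 => M t.1 t.2.1 t.2.2)
        (fun t : Fin k2 × Fin a2 × Fin b2 => N t.1 t.2.1 t.2.2)) c) (W.submatrix f g).det =
      ((∑ p, c p • kroneckerMap (fun u v : ℂ => u * v) (M p.1) (N p.2)).submatrix f g).det := by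
    intro M N c f g
    rw [RingHom.map_det]
    congr 1
    ext i j
    simp [W, Matrix.sum_apply]
  obtain ⟨P, hP, h⟩ := proper {q | ∃ (f : Fin R → Fin a1 × Fin a2) (g : Fin R → Fin b1 × Fin b2),
      q = (W.submatrix f g).det} (by
    rintro K _ _ a c t _ ⟨f, g, rfl⟩ h
    rw [AlgHom.map_det] at h ⊢
    have e : (aeval (Sum.elim a fun i => c i / t)).mapMatrix (W.submatrix f g) =
        t⁻¹ • (aeval (Sum.elim a c)).mapMatrix (W.submatrix f g) := by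
      ext i j
      simp [W, Finset.mul_sum, div_eq_inv_mul, mul_assoc]
    rw [e, det_smul, h, mul_zero])
    (Sum.elim (fun t : Fin k1 × Fin a1 × Fin b1 => M0 t.1 t.2.1 t.2.2)
      (fun t : Fin k2 × Fin a2 × Fin b2 => N0 t.1 t.2.1 t.2.2)) (by
    intro c hc
    by_contra h
    obtain ⟨f, g, h1⟩ := (minor_iff _ _).1 (h0 c h)
    exact h1 (by rw [← ev]; exact hc _ ⟨f, g, rfl⟩))
  refine ⟨P, hP, fun M N hMN c hc => ?_⟩
  by_contra h1
  refine hc (h _ hMN c ?_)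
  rintro _ ⟨f, g, rfl⟩
  rw [ev]
  by_contra h2
  exact h1 ((minor_iff _ _).2 ⟨f, g, h2⟩)

open Matrix in
lemma kron_sum {k1 k2 : ℕ} {m n m' n' : Type} (M : Fin k1 → Matrix m n ℂ) (N : Fin k2 → Matrix m' n' ℂ)
    (u : Fin k1 → ℂ) (v : Fin k2 → ℂ) :
    ∑ p : Fin k1 × Fin k2, (u p.1 * v p.2) • kroneckerMap (fun u v : ℂ => u * v) (M p.1) (N p.2) =
      kroneckerMap (fun u v : ℂ => u * v) (∑ i, u i • M i) (∑ j, v j • N j) := by
  ext i j
  simp only [Matrix.sum_apply, Matrix.smul_apply, kroneckerMap_apply, smul_eq_mul,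
    Fintype.sum_prod_type, Finset.sum_mul_sum]
  exact Finset.sum_congr rfl fun p _ => Finset.sum_congr rfl fun q _ => by ring


/-- For all sizes with 1≤k_i≤a_i b_i, off a proper algebraic set of pairs of k_i-tuples of complex a_i×b_i matrices, the min rank of nonzero elements of span(M_i⊗N_j) equals the product of the min ranks of span(M) and span(N). -/
theorem result :
    ∀ (a1 b1 k1 a2 b2 k2 : ℕ), 1 ≤ k1 → k1 ≤ a1 * b1 → 1 ≤ k2 → k2 ≤ a2 * b2 →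
      ∃ P : MvPolynomial ((Fin k1 × Fin a1 × Fin b1) ⊕ (Fin k2 × Fin a2 × Fin b2)) ℂ,
        P ≠ 0 ∧
        ∀ (M : Fin k1 → Matrix (Fin a1) (Fin b1) ℂ) (N : Fin k2 → Matrix (Fin a2) (Fin b2) ℂ),
          MvPolynomial.eval
              (Sum.elim (fun t : Fin k1 × Fin a1 × Fin b1 => M t.1 t.2.1 t.2.2)
                (fun t : Fin k2 × Fin a2 × Fin b2 => N t.1 t.2.1 t.2.2)) P ≠ 0 →
          sInf {r : ℕ | ∃ s ∈ Submodule.span ℂ
              {x : Matrix (Fin a1 × Fin a2) (Fin b1 × Fin b2) ℂ |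
                ∃ i j, x = Matrix.kroneckerMap (fun u v : ℂ => u * v) (M i) (N j)},
              s ≠ 0 ∧ s.rank = r}
            = sInf {r : ℕ | ∃ s ∈ Submodule.span ℂ (Set.range M), s ≠ 0 ∧ s.rank = r} *
              sInf {r : ℕ | ∃ s ∈ Submodule.span ℂ (Set.range N), s ≠ 0 ∧ s.rank = r} := by
  intro a1 b1 k1 a2 b2 k2 h1 h1' h2 h2'
  obtain ⟨r1, ha1, hb1, hk1, hk1'⟩ := pick h1 h1'
  obtain ⟨r2, ha2, hb2, hk2, hk2'⟩ := pick h2 h2'
  obtain ⟨M0, d1, hd1, hM0⟩ := Pool.Agent.Lib.H25MinRank.code hk1'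
  obtain ⟨N0, d2, hd2, hN0⟩ := Pool.Agent.Lib.H25MinRank.code hk2'
  have inj : ∀ (a b B : ℕ), b ≤ B → Function.Injective fun p : Fin a × Fin b => B * p.1.val + p.2.val := by
    intro a b B hB p q h
    have h3 := congrArg (· % B) h
    have h4 := congrArg (· / B) h
    have hp : p.2.val < B := lt_of_lt_of_le p.2.2 hB
    have hq : q.2.val < B := lt_of_lt_of_le q.2.2 hB
    have h0 : 0 < B := by omega
    simp only [Nat.mul_add_mod, Nat.mod_eq_of_lt hp, Nat.mod_eq_of_lt hq, Nat.mul_add_div h0,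
      Nat.div_eq_of_lt hp, Nat.div_eq_of_lt hq] at h3 h4
    exact Prod.ext (Fin.ext (by omega)) (Fin.ext h3)
  obtain ⟨P, hP, h⟩ := gen a1 b1 k1 a2 b2 k2 ((r1 + 1) * (r2 + 1)) M0 N0
    (Pool.Agent.Lib.H25MinRank.graded _ _ _ _ (fun p => (a2 + b2) * d1 p.1 + d2 p.2)
      (inj a1 a2 (a2 + b2) (by omega)) (inj b1 b2 (a2 + b2) (by omega)) (by
        intro k i j hk
        simp only [Matrix.kroneckerMap_apply, ne_eq, mul_eq_zero, not_or] at hk
        rw [← hd1 _ _ _ hk.1, ← hd2 _ _ _ hk.2]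
        ring) (hM0.kron hN0))
  refine ⟨P, hP, fun M N hMN => ?_⟩
  have h3 := h M N hMN
  have h4 : ∀ (u : Fin k1 → ℂ) (v : Fin k2 → ℂ), u ≠ 0 → v ≠ 0 →
      Matrix.kroneckerMap (fun u v : ℂ => u * v) (∑ i, u i • M i) (∑ j, v j • N j) ≠ 0 := by
    intro u v hu hv h0
    obtain ⟨i, hi⟩ := Function.ne_iff.1 hu
    obtain ⟨j, hj⟩ := Function.ne_iff.1 hv
    have := h3 (fun p => u p.1 * v p.2) (fun h => mul_ne_zero hi hj (congrFun h (i, j)))
    rw [kron_sum, h0, Matrix.rank_zero] at this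
    simp at this
  have hM : LinearIndependent ℂ M := by
    rw [Fintype.linearIndependent_iff]
    intro u hu
    by_contra h0
    refine h4 u (fun _ => 1) (fun h => h0 (congrFun h)) (fun h => one_ne_zero (congrFun h ⟨0, h2⟩)) ?_
    rw [hu]
    ext i j
    simp
  have hN : LinearIndependent ℂ N := by
    rw [Fintype.linearIndependent_iff]
    intro u hu
    by_contra h0
    refine h4 (fun _ => 1) u (fun h => one_ne_zero (congrFun h ⟨0, h1⟩)) (fun h => h0 (congrFun h)) ?_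
    rw [hu]
    ext i j
    simp
  obtain ⟨s1, hs1, hs1', hr1⟩ := Pool.Agent.Lib.H25MinRank.upper ha1 hb1 hk1 M hM
  obtain ⟨s2, hs2, hs2', hr2⟩ := Pool.Agent.Lib.H25MinRank.upper ha2 hb2 hk2 N hN
  set A := {r : ℕ | ∃ s ∈ Submodule.span ℂ (Set.range M), s ≠ 0 ∧ s.rank = r} with hA
  set B := {r : ℕ | ∃ s ∈ Submodule.span ℂ (Set.range N), s ≠ 0 ∧ s.rank = r} with hB
  have e1 : sInf A ≤ r1 + 1 := (Nat.sInf_le (show s1.rank ∈ A from ⟨s1, hs1, hs1', rfl⟩)).trans hr1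
  have e2 : sInf B ≤ r2 + 1 := (Nat.sInf_le (show s2.rank ∈ B from ⟨s2, hs2, hs2', rfl⟩)).trans hr2
  obtain ⟨t1, ht1, ht1', q1⟩ := Nat.sInf_mem (show A.Nonempty from ⟨_, s1, hs1, hs1', rfl⟩)
  obtain ⟨t2, ht2, ht2', q2⟩ := Nat.sInf_mem (show B.Nonempty from ⟨_, s2, hs2, hs2', rfl⟩)
  have eS : {x : Matrix (Fin a1 × Fin a2) (Fin b1 × Fin b2) ℂ |
      ∃ i j, x = Matrix.kroneckerMap (fun u v : ℂ => u * v) (M i) (N j)} =
      Set.range fun p : Fin k1 × Fin k2 => Matrix.kroneckerMap (fun u v : ℂ => u * v) (M p.1) (N p.2) := by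
    ext x
    constructor
    · rintro ⟨i, j, rfl⟩
      exact ⟨(i, j), rfl⟩
    · rintro ⟨p, rfl⟩
      exact ⟨p.1, p.2, rfl⟩
  rw [eS]
  set D := {r : ℕ | ∃ s ∈ Submodule.span ℂ (Set.range fun p : Fin k1 × Fin k2 =>
    Matrix.kroneckerMap (fun u v : ℂ => u * v) (M p.1) (N p.2)), s ≠ 0 ∧ s.rank = r} with hD
  have hmem : (Matrix.kroneckerMap (fun u v : ℂ => u * v) t1 t2).rank ∈ D := by
    obtain ⟨u, rfl⟩ := (Submodule.mem_span_range_iff_exists_fun ℂ).1 ht1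
    obtain ⟨v, rfl⟩ := (Submodule.mem_span_range_iff_exists_fun ℂ).1 ht2
    refine ⟨_, (Submodule.mem_span_range_iff_exists_fun ℂ).2 ⟨fun p => u p.1 * v p.2, kron_sum M N u v⟩,
      h4 u v ?_ ?_, rfl⟩
    · rintro rfl
      simp at ht1'
    · rintro rfl
      simp at ht2'
  apply le_antisymm
  · rw [← q1, ← q2]
    exact (Nat.sInf_le hmem).trans (Pool.Agent.Lib.H25MinRank.rank_kron _ _)
  · obtain ⟨t, ht, ht', q⟩ := Nat.sInf_mem (show D.Nonempty from ⟨_, hmem⟩)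
    obtain ⟨c, rfl⟩ := (Submodule.mem_span_range_iff_exists_fun ℂ).1 ht
    rw [← q]
    refine (Nat.mul_le_mul e1 e2).trans (h3 c ?_)
    rintro rfl
    simp at ht'

end Pool.Agent.S00643
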