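import Pool.Statements.S00661
import Pool.Agent.Lib.helper4.SmallPart

set_option autoImplicit false
open Pointwise
open Pool Pool.MP_08cc25_al

namespace Pool.Agent.S00661

/-- Every infinite group G can be split into countably many pairwise disjoint sets A_n so that no A_n satisfies F·A_n = G for any subset F of G of cardinality smaller than that of G. -/
theorem result :
    ∀ (G : Type) [Group G], Infinite G →
      ∃ A : ℕ → Set G,
        (⋃ n, A n) = Set.univ ∧
        Pairwise (fun i j => Disjoint (A i) (A j)) ∧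
        ∀ n, ¬ ∃ F : Set G, Cardinal.mk F < Cardinal.mk G ∧ F * A n = Set.univ := by
  intro G _ _
  obtain ⟨c, hc⟩ := Pool.Agent.H4Small.exists_thick G
  refine ⟨fun n => c ⁻¹' {n}, by ext x; simp, fun i j hij => ?_, fun n => ?_⟩
  · exact Set.disjoint_left.2 fun x (h1 : c x = i) (h2 : c x = j) => hij (h1.symm.trans h2)
  · rintro ⟨F, h1, h2⟩
    obtain ⟨F', -, h3⟩ := hc F⁻¹ (by simpa using h1) (n + 1)
    obtain ⟨u, -, h4⟩ := h3 1
    obtain ⟨f, hf, a, ha, e⟩ := (h2 ▸ Set.mem_univ u : u ∈ F * c ⁻¹' {n})
    have h5 := h4 f⁻¹ (by simpa using hf)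
    have h6 : c a = n := ha
    rw [← e] at h5
    simp only [mul_one, inv_mul_cancel_left] at h5
    omega

end Pool.Agent.S00661
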