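import Pool.Statements.S00684
-- import your own Pool.Agent.* helpers here

set_option autoImplicit false
open Pool Pool.MP_0b625c_al

namespace Pool.Agent.S00684

open scoped UniformConvergence

theorem exists_surj : ∃ φ : Circle → ℕ, Function.Surjective φ := by
  have hinf : Infinite Circle := by
    have hinj : Function.Injective (fun n : ℕ => Circle.exp (1 / ((n : ℝ) + 1))) := by
      intro a b hab
      have hb : ∀ n : ℕ, (1 / ((n : ℝ) + 1)) ∈ Set.Ioc (-Real.pi) Real.pi := by
        intro n
        have h1 : (0:ℝ) < 1 / ((n : ℝ) + 1) := by positivity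
        have h2 : 1 / ((n : ℝ) + 1) ≤ 1 := by
          rw [div_le_one (by positivity)]
          have : (0:ℝ) ≤ n := Nat.cast_nonneg n
          linarith
        have := Real.pi_gt_three
        constructor <;> linarith
      have h := Circle.exp_injOn_Ioc (a := -Real.pi) (b := Real.pi) (by linarith) (hb a) (hb b) hab
      have h2 : (a : ℝ) + 1 = (b : ℝ) + 1 := by
        have ha0 : (a : ℝ) + 1 ≠ 0 := by positivity
        have hb0 : (b : ℝ) + 1 ≠ 0 := by positivity
        field_simp at h
        linarith
      exact_mod_cast (by linarith : (a : ℝ) = b)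
    exact Infinite.of_injective _ hinj
  exact ⟨Function.invFun (Infinite.natEmbedding Circle),
    (Function.leftInverse_invFun (Infinite.natEmbedding Circle).injective).surjective⟩

/-- The target group: a countable product of sup-metric function groups on the fibres of φ. -/
def E (φ : Circle → ℕ) : Type := ∀ n : ℕ, ({q : Circle // φ q = n} →ᵤ Circle)

noncomputable instance (φ : Circle → ℕ) : Group (E φ) :=
  inferInstanceAs (Group (∀ n : ℕ, ({q : Circle // φ q = n} →ᵤ Circle)))

noncomputable instance (φ : Circle → ℕ) : MetricSpace (E φ) :=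
  (PiCountable.metricSpace : MetricSpace (∀ n : ℕ, ({q : Circle // φ q = n} →ᵤ Circle)))

instance (φ : Circle → ℕ) : CompleteSpace (E φ) :=
  inferInstanceAs (CompleteSpace (∀ n : ℕ, ({q : Circle // φ q = n} →ᵤ Circle)))

instance (φ : Circle → ℕ) : IsTopologicalGroup (E φ) :=
  inferInstanceAs (IsTopologicalGroup (∀ n : ℕ, ({q : Circle // φ q = n} →ᵤ Circle)))

/-- Restriction to the fibres. -/
noncomputable def U (φ : Circle → ℕ) : (Circle → Circle) →* E φ where
  toFun x := fun _ => UniformFun.ofFun (fun q => x q.1)
  map_one' := rfl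
  map_mul' _ _ := rfl

theorem U_bij (φ : Circle → ℕ) : Function.Bijective (U φ) := by
  constructor
  · intro x y h
    funext q
    exact congrFun (congrFun h (φ q)) ⟨q, rfl⟩
  · intro y
    refine ⟨fun q => UniformFun.toFun (y (φ q)) ⟨q, rfl⟩, ?_⟩
    funext n
    funext q
    obtain ⟨q, rfl⟩ := q
    rfl

theorem U_cont (φ : Circle → ℕ) :
    Continuous (fun x : Circle →ᵤ Circle => U φ (UniformFun.toFun x)) := by
  have : Continuous (fun x : Circle →ᵤ Circle => (fun n : ℕ =>
      (UniformFun.ofFun (fun q : {q : Circle // φ q = n} => UniformFun.toFun x q.1) :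
        {q : Circle // φ q = n} →ᵤ Circle))) := by
    refine continuous_pi fun n => ?_
    exact (UniformFun.precomp_uniformContinuous
      (f := fun q : {q : Circle // φ q = n} => q.1)).continuous
  exact this

/-- The negation of the preceding statement: Take the group of all unit-circle-valued maps on the unit circle, with pointwise product and sup metric. Every continuous bijective homomorphism from it onto a complete metric topological group has a continuous inverse. -/
theorem result :
    ¬ (∀ (E₁ : Type) [Group E₁] [MetricSpace E₁] [CompleteSpace E₁] [IsTopologicalGroup E₁]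
      (U : (Circle → Circle) →* E₁),
      Function.Bijective U →
      (∀ x : Circle → Circle, ∀ ε > (0 : ℝ), ∃ δ > (0 : ℝ), ∀ y : Circle → Circle,
          (∀ q : Circle, dist (x q) (y q) ≤ δ) → dist (U x) (U y) < ε) →
      (∀ x : Circle → Circle, ∀ ε > (0 : ℝ), ∃ δ > (0 : ℝ), ∀ y : Circle → Circle,
          dist (U x) (U y) < δ → ∀ q : Circle, dist (x q) (y q) ≤ ε)) := by
  intro h
  obtain ⟨φ, hφ⟩ := exists_surj
  have h1 := h (E φ) (U φ) (U_bij φ) (by
    intro x ε hε
    obtain ⟨δ, hδ, H⟩ := Metric.continuous_iff.1 (U_cont φ) (UniformFun.ofFun x) ε hε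
    refine ⟨δ / 2, by positivity, fun y hy => ?_⟩
    have h2 : dist (UniformFun.ofFun y : Circle →ᵤ Circle) (UniformFun.ofFun x) < δ := by
      refine lt_of_le_of_lt ((UniformFun.dist_le (C := δ / 2) (by positivity)).2 fun q => ?_) (by linarith)
      rw [dist_comm]
      exact hy q
    have h3 := H _ h2
    rw [dist_comm]
    exact h3)
  obtain ⟨δ, hδ, H⟩ := h1 1 1 one_pos
  let y : ℕ → Circle → Circle := fun n q => if φ q = n then Circle.exp Real.pi else 1
  have ht : Filter.Tendsto (fun n => U φ (y n)) Filter.atTop (nhds (U φ 1)) := by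
    have : Filter.Tendsto (fun n => (fun m : ℕ =>
      (UniformFun.ofFun (fun q : {q : Circle // φ q = m} => y n q.1) :
        {q : Circle // φ q = m} →ᵤ Circle))) Filter.atTop
        (nhds (fun m : ℕ => (UniformFun.ofFun (fun _ : {q : Circle // φ q = m} => (1 : Circle)) :
        {q : Circle // φ q = m} →ᵤ Circle))) := by
      refine tendsto_pi_nhds.2 fun m => ?_
      refine tendsto_const_nhds.congr' ?_
      filter_upwards [Filter.eventually_gt_atTop m] with n hn
      congr 1
      funext q
      have : φ q.1 ≠ n := by rw [q.2]; omega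
      simp [y, this]
    exact this
  obtain ⟨n, hn⟩ := ((Metric.tendsto_nhds.1 ht) δ hδ).exists
  obtain ⟨q, hq⟩ := hφ n
  have h4 := H (y n) (by rw [dist_comm]; exact hn) q
  have h5 : dist ((1 : Circle → Circle) q) (y n q) = 2 := by
    simp only [y, hq, if_true, Pi.one_apply]
    have e : dist (1 : Circle) (Circle.exp Real.pi)
        = dist ((1 : Circle) : ℂ) ((Circle.exp Real.pi : Circle) : ℂ) := rfl
    rw [e, Complex.dist_eq]
    simp [Circle.coe_exp]
    norm_num
  linarith

end Pool.Agent.S00684
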