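import Pool.Statements.S00694
import Pool.Agent.Lib.helper15.SolMean

set_option autoImplicit false
open Pool Pool.MP_0c2877_al

namespace Pool.Agent.S00694

open Pool.Agent.Lib.helper15.SolMean Filter
open scoped commutatorElement

section Null
variable {L : Type} [Group L]

open Classical in
noncomputable def ind (S : Set L) (x : L) : ℝ := if x ∈ S then 1 else 0

lemma ind_bd (S : Set L) : Bd (ind S) := ⟨1, fun x => by unfold ind; split_ifs <;> simp⟩

lemma ind_nonneg (S : Set L) (x : L) : 0 ≤ ind S x := by unfold ind; split_ifs <;> simp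

lemma null_of_count (m : Mean L) (hm : ∀ a, m.Inv a) (S : Set L) (h : L) (C : ℝ) (hC0 : 0 ≤ C)
    (H : ∀ x ∈ S, ∀ N, ∑ n ∈ Finset.range N, ind S (h ^ (n + 1) * x) ≤ C) : m.M (ind S) ≤ 0 := by
  have h1 : ∀ N x, ∑ n ∈ Finset.range N, ind S (h ^ n * x) ≤ C + 1 := by
    intro N
    induction N with
    | zero => intro x; simp; linarith
    | succ N ih =>
      intro x
      rw [Finset.sum_range_succ']
      by_cases hx : x ∈ S
      · have := H x hx N
        simp only [pow_zero, one_mul, ind, hx, if_true] at this ⊢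
        linarith
      · have := ih (h * x)
        simp only [pow_zero, one_mul, pow_succ, mul_assoc]
        simp only [ind, hx, if_false] at this ⊢
        linarith
  have h2 : ∀ N : ℕ, Bd (fun x => ∑ n ∈ Finset.range N, ind S (h ^ n * x)) := by
    intro N
    refine ⟨C + 1, fun x => ?_⟩
    rw [abs_of_nonneg (Finset.sum_nonneg fun n _ => ind_nonneg _ _)]
    exact h1 N x
  have h3 : ∀ N : ℕ, m.M (fun x => ∑ n ∈ Finset.range N, ind S (h ^ n * x)) = N * m.M (ind S) := by
    intro N
    induction N with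
    | zero => simpa using m.const 0
    | succ N ih =>
      simp only [Finset.sum_range_succ]
      rw [m.add _ _ (h2 N) ((ind_bd S).comp _), ih, hm _ _ (ind_bd S)]
      push_cast; ring
  by_contra hpos
  push Not at hpos
  obtain ⟨N, hN⟩ := exists_nat_gt ((C + 1) / m.M (ind S))
  have h4 := m.mono _ _ (h2 N) (bd_const (C + 1)) (h1 N)
  rw [h3, m.const] at h4
  rw [div_lt_iff₀ hpos] at hN
  linarith

/-- the filter of conull sets -/
def conull (m : Mean L) : Filter L where
  sets := {T | m.M (ind Tᶜ) ≤ 0}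
  univ_sets := by
    have : ind ((Set.univ : Set L)ᶜ) = fun _ => 0 := by funext x; simp [ind]
    show m.M (ind _) ≤ 0
    rw [this, m.const]
  sets_of_superset := by
    intro S T hS hST
    refine le_trans (m.mono _ _ (ind_bd _) (ind_bd _) fun x => ?_) hS
    unfold ind
    by_cases hx : x ∈ Tᶜ
    · have : x ∈ Sᶜ := fun h => hx (hST h)
      simp [hx, this]
    · rw [if_neg hx]; split_ifs <;> simp
  inter_sets := by
    intro S T hS hT
    have := m.mono (ind (S ∩ T)ᶜ) (fun x => ind Sᶜ x + ind Tᶜ x) (ind_bd _)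
      ((ind_bd _).add (ind_bd _)) fun x => by
        unfold ind
        by_cases h1 : x ∈ S <;> by_cases h2 : x ∈ T <;> simp [h1, h2]
    rw [m.add _ _ (ind_bd _) (ind_bd _)] at this
    exact this.trans (add_nonpos hS hT)

lemma conull_neBot (m : Mean L) : (conull m).NeBot := by
  refine ⟨fun h => ?_⟩
  have h1 : (∅ : Set L) ∈ conull m := by rw [h]; trivial
  have h2 : m.M (ind (∅ : Set L)ᶜ) ≤ 0 := h1
  have : ind ((∅ : Set L)ᶜ) = fun _ => 1 := by funext x; simp [ind]
  rw [this, m.const] at h2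
  linarith

end Null

section Ord
variable {L : Type} [Group L] [LinearOrder L]

lemma smono (hl : ∀ a b c : L, a < b → c * a < c * b) {a x : L} (h : x < a * x) :
    StrictMono (fun k : ℤ => a ^ k * x) := by
  apply strictMono_int_of_lt_succ
  intro k
  rw [zpow_add_one, mul_assoc]
  exact hl _ _ _ h

lemma lle (hl : ∀ a b c : L, a < b → c * a < c * b) {a b : L} (c : L) (h : a ≤ b) :
    c * a ≤ c * b := by
  rcases h.eq_or_lt with rfl | h
  · exact le_rfl
  · exact (hl _ _ _ h).le

lemma lle' (hl : ∀ a b c : L, a < b → c * a < c * b) {a b : L} (c : L) (h : c * a ≤ c * b) :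
    a ≤ b := by
  simpa using lle hl c⁻¹ h

def bad (f a : L) (k : ℤ) : Set L := {x | x ≤ f * x ∧ x < a * x ∧ f * a ^ (k + 1) * x ≤ a ^ k * x}

lemma bad_null (hl : ∀ a b c : L, a < b → c * a < c * b) (m : Mean L) (hm : ∀ a, m.Inv a)
    (f a : L) (k : ℤ) : m.M (ind (bad f a k)) ≤ 0 := by
  classical
  have cast : ∀ (h x : L) (N : ℕ), ∑ n ∈ Finset.range N, ind (bad f a k) (h ^ (n + 1) * x) =
      ((∑ n ∈ Finset.range N, if h ^ (n + 1) * x ∈ bad f a k then 1 else 0 : ℕ) : ℝ) := by
    intro h x N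
    push_cast
    refine Finset.sum_congr rfl fun n _ => ?_
    unfold ind; split_ifs <;> simp
  rcases le_or_gt 0 k with hk | hk
  · refine null_of_count m hm _ (f * a) k (by exact_mod_cast hk) ?_
    rintro x ⟨h1, h2, h3⟩ N
    have hmono : ∀ n : ℕ, (f * a) ^ n * x ≤ (f * a) ^ (n + 1) * x := by
      intro n
      rw [pow_succ, mul_assoc]
      apply lle hl
      rw [mul_assoc]
      exact h1.trans (lle hl _ h2.le)
    have hub : ∀ n : ℕ, (f * a) ^ n * x ≤ a ^ k * x := by
      intro n
      induction n with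
      | zero => simpa using (smono hl h2).monotone hk
      | succ n ih =>
        rw [pow_succ', mul_assoc]
        refine (lle hl _ ih).trans ?_
        rw [add_comm, zpow_one_add] at h3
        simpa only [mul_assoc] using h3
    have hinv : ∀ N : ℕ, a ^ ((∑ n ∈ Finset.range N,
        if (f * a) ^ (n + 1) * x ∈ bad f a k then 1 else 0 : ℕ) : ℤ) * x ≤ (f * a) ^ N * x := by
      intro N
      induction N with
      | zero => simp
      | succ N ih =>
        rw [Finset.sum_range_succ]
        split_ifs with hz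
        · have h4 : a * ((f * a) ^ N * x) ≤ (f * a) ^ (N + 1) * x := by
            apply lle' hl f
            refine le_trans (le_of_eq ?_) hz.1
            rw [pow_succ']; simp only [mul_assoc]
          refine le_trans ?_ h4
          rw [Nat.cast_add, Nat.cast_one, add_comm, zpow_one_add, mul_assoc]
          exact lle hl _ ih
        · rw [add_zero]; exact ih.trans (hmono N)
    have := (smono hl h2).le_iff_le.1 ((hinv N).trans (hub N))
    rw [cast]; exact_mod_cast this
  · refine null_of_count m hm _ (a * f)⁻¹ (-k) (by exact_mod_cast (by omega : (0 : ℤ) ≤ -k)) ?_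
    rintro x ⟨h1, h2, h3⟩ N
    have hmono : ∀ n : ℕ, (a * f)⁻¹ ^ (n + 1) * x ≤ (a * f)⁻¹ ^ n * x := by
      intro n
      rw [pow_succ, mul_assoc]
      apply lle hl
      apply lle' hl (a * f)
      rw [mul_inv_cancel_left, mul_assoc]
      exact h2.le.trans (lle hl _ h1)
    have hlb : ∀ n : ℕ, a ^ (k + 1) * x ≤ (a * f)⁻¹ ^ n * x := by
      intro n
      induction n with
      | zero => simpa using (smono hl h2).monotone (by omega : k + 1 ≤ 0)
      | succ n ih =>
        rw [pow_succ', mul_assoc]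
        refine le_trans ?_ (lle hl _ ih)
        apply lle' hl (a * f)
        rw [mul_inv_cancel_left]
        have := lle hl a h3
        rw [← mul_assoc a (a ^ k), ← zpow_one_add, add_comm 1 k] at this
        simpa only [mul_assoc] using this
    have hinv : ∀ N : ℕ, a ^ ((∑ n ∈ Finset.range N,
        if (a * f)⁻¹ ^ (n + 1) * x ∈ bad f a k then 1 else 0 : ℕ) : ℤ) * ((a * f)⁻¹ ^ N * x) ≤ x := by
      intro N
      induction N with
      | zero => simp
      | succ N ih =>
        rw [Finset.sum_range_succ]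
        split_ifs with hz
        · have h4 : a * ((a * f)⁻¹ ^ (N + 1) * x) ≤ (a * f)⁻¹ ^ N * x := by
            refine le_trans (lle hl a hz.1) (le_of_eq ?_)
            rw [pow_succ', ← mul_assoc a f, mul_assoc (a * f)⁻¹, mul_inv_cancel_left]
          refine le_trans ?_ ih
          rw [Nat.cast_add, Nat.cast_one, zpow_add_one, mul_assoc]
          exact lle hl _ h4
        · rw [add_zero]; exact (lle hl _ (hmono N)).trans ih
    have h5 := (lle hl _ (hlb N)).trans (hinv N)
    rw [← mul_assoc, ← zpow_add] at h5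
    have h6 := (smono hl h2).le_iff_le.1 (h5.trans (le_of_eq (by simp : x = a ^ (0 : ℤ) * x)))
    rw [cast]
    have : (((∑ n ∈ Finset.range N,
        if (a * f)⁻¹ ^ (n + 1) * x ∈ bad f a k then 1 else 0 : ℕ) : ℤ)) ≤ -k := by omega
    exact_mod_cast this

/-- the homomorphism, for an order without crossings -/
lemma hom_of_good (hl : ∀ a b c : L, a < b → c * a < c * b) (m : Mean L) (hm : ∀ a, m.Inv a)
    (hc : ∀ f a : L, ¬ f < 1 → 1 < a → ∀ k : ℤ, a ^ k < f * a ^ (k + 1))
    (X : Set L) (hX : X.Finite) (hgen : Subgroup.closure X = ⊤) (hne : ∃ x ∈ X, x ≠ 1) :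
    ∃ φ : L →* Multiplicative ℝ, ∃ x ∈ X, φ x ≠ 1 := by
  obtain ⟨x0, hx0, hx1⟩ := hne
  obtain ⟨a, haX, hmax⟩ := Set.exists_max_image (X ∪ X⁻¹) id (hX.union hX.inv) ⟨x0, Or.inl hx0⟩
  simp only [id] at hmax
  have ha : 1 < a := by
    rcases lt_or_gt_of_ne hx1 with h | h
    · refine lt_of_lt_of_le ?_ (hmax x0⁻¹ (Or.inr (by simpa using hx0)))
      simpa using hl _ _ x0⁻¹ h
    · exact h.trans_le (hmax x0 (Or.inl hx0))
  have hsm : StrictMono (fun k : ℤ => a ^ k) := by
    simpa using smono hl (a := a) (x := 1) (by simpa using ha)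
  let B : L → Prop := fun g => ∃ d : ℤ, ∀ k : ℤ, g * a ^ k < a ^ (k + d)
  have hBs : ∀ s, s ≤ a → B s := by
    intro s hs
    refine ⟨2, fun k => ?_⟩
    have h1 : ¬ s⁻¹ * a < 1 := by
      rw [not_lt]; simpa using lle hl s⁻¹ hs
    have := hl _ _ s (hc _ _ h1 ha k)
    rw [← mul_assoc, mul_inv_cancel_left, ← zpow_one_add] at this
    convert this using 2; ring
  have hBmul : ∀ g h, B g → B h → B (g * h) := by
    rintro g h ⟨d, hd⟩ ⟨e, he⟩
    refine ⟨e + d, fun k => ?_⟩
    rw [mul_assoc, ← add_assoc]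
    exact (hl _ _ g (he k)).trans (hd _)
  have hB : ∀ g, B g := by
    have : ∀ g ∈ Subgroup.closure X, B g ∧ B g⁻¹ := by
      intro g hg
      induction hg using Subgroup.closure_induction with
      | mem x hx => exact ⟨hBs _ (hmax x (Or.inl hx)), hBs _ (hmax x⁻¹ (Or.inr (by simpa using hx)))⟩
      | one => simpa using hBs 1 ha.le
      | mul x y _ _ hx hy => exact ⟨hBmul _ _ hx.1 hy.1, by rw [mul_inv_rev]; exact hBmul _ _ hy.2 hx.2⟩
      | inv x _ hx => exact ⟨hx.2, by simpa using hx.1⟩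
    intro g
    exact (this g (by rw [hgen]; trivial)).1
  have hk : ∀ x : L, ∃ k : ℤ, a ^ k ≤ x ∧ x < a ^ (k + 1) := by
    intro x
    obtain ⟨d, hd⟩ := hB x
    obtain ⟨e, he⟩ := hB x⁻¹
    obtain ⟨k, hk1, hk2⟩ := Int.exists_greatest_of_bdd (P := fun k : ℤ => a ^ k ≤ x)
      ⟨d, fun z hz => by
        have := hd 0
        simp only [zpow_zero, mul_one, zero_add] at this
        exact (hsm.lt_iff_lt.1 (hz.trans_lt this)).le⟩
      ⟨-e, by
        have := hl _ _ x (he (-e))
        simp only [mul_inv_cancel_left, neg_add_cancel, zpow_zero, mul_one] at this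
        exact this.le⟩
    refine ⟨k, hk1, ?_⟩
    by_contra h
    have := hk2 _ (not_lt.1 h)
    omega
  choose k hk1 hk2 using hk
  have hup : ∀ g, ∃ d : ℤ, ∀ x, k (g * x) - k x ≤ d := by
    intro g
    obtain ⟨d, hd⟩ := hB g
    refine ⟨1 + d, fun x => ?_⟩
    have := hsm.lt_iff_lt.1 ((hk1 (g * x)).trans_lt ((hl _ _ g (hk2 x)).trans (hd _)))
    omega
  have hbd : ∀ g, Bd (fun x => ((k (g * x) : ℝ) - k x)) := by
    intro g
    obtain ⟨d, hd⟩ := hup g
    obtain ⟨e, he⟩ := hup g⁻¹
    refine ⟨((|d| + |e| : ℤ) : ℝ), fun x => ?_⟩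
    have h1 := hd x
    have h2 := he (g * x)
    rw [inv_mul_cancel_left] at h2
    have : |k (g * x) - k x| ≤ |d| + |e| := by
      rw [abs_le]
      constructor
      · have := le_abs_self e; have := abs_nonneg d; omega
      · have := le_abs_self d; have := abs_nonneg e; omega
    show |(k (g * x) : ℝ) - k x| ≤ _
    exact_mod_cast this
  have hka : ∀ x, k (a * x) = k x + 1 := by
    intro x
    have h1 := lle hl a (hk1 x)
    have h2 := hl _ _ a (hk2 x)
    rw [← zpow_one_add] at h1 h2
    have h3 := hsm.lt_iff_lt.1 (h1.trans_lt (hk2 _))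
    have h4 := hsm.lt_iff_lt.1 ((hk1 _).trans_lt h2)
    omega
  let φ : L →* Multiplicative ℝ := MonoidHom.mk' 
    (fun g => Multiplicative.ofAdd (m.M (fun x => ((k (g * x) : ℝ) - k x)))) (by
      intro g h
      rw [← ofAdd_add, ← hm h _ (hbd g), ← m.add _ _ ((hbd g).comp _) (hbd h)]
      congr 2; funext x; rw [mul_assoc]; ring)
  have hφ : φ a ≠ 1 := by
    have : φ a = Multiplicative.ofAdd 1 := by
      show Multiplicative.ofAdd (m.M _) = _
      rw [← m.const 1]
      congr 2; funext x; rw [hka]; push_cast; ring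
    rw [this]; simp
  refine ⟨φ, ?_⟩
  rcases haX with h | h
  · exact ⟨a, h, hφ⟩
  · exact ⟨a⁻¹, h, by simpa using hφ⟩

lemma hom_of_mean (hl : ∀ a b c : L, a < b → c * a < c * b) (m : Mean L) (hm : ∀ a, m.Inv a)
    (X : Set L) (hX : X.Finite) (hgen : Subgroup.closure X = ⊤) (hne : ∃ x ∈ X, x ≠ 1) :
    ∃ φ : L →* Multiplicative ℝ, ∃ x ∈ X, φ x ≠ 1 := by
  classical
  have := conull_neBot m
  let U : Ultrafilter L := Ultrafilter.of (conull m)
  let r : L → L → Prop := fun a b => ∀ᶠ x in (U : Filter L), a * x < b * x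
  have htri : ∀ a b, r a b ∨ a = b ∨ r b a := by
    intro a b
    by_cases hab : a = b
    · exact Or.inr (Or.inl hab)
    have : ∀ᶠ x in (U : Filter L), a * x < b * x ∨ b * x < a * x :=
      Eventually.of_forall fun x => lt_or_gt_of_ne fun h => hab (mul_right_cancel h)
    rcases Ultrafilter.eventually_or.1 this with h | h
    · exact Or.inl h
    · exact Or.inr (Or.inr h)
  have : IsStrictTotalOrder L r :=
    { trichotomous := fun a b h1 h2 => by
        rcases htri a b with h | h | h
        · exact absurd h h1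
        · exact h
        · exact absurd h h2
      irrefl := fun a h => by
        obtain ⟨x, hx⟩ := h.exists
        exact lt_irrefl _ hx
      trans := fun a b c h1 h2 => by
        filter_upwards [h1, h2] with x h1 h2 using h1.trans h2 }
  refine @hom_of_good L _ (linearOrderOfSTO r) ?_ m hm ?_ X hX hgen hne
  · intro a b c h
    show r _ _
    filter_upwards [(h : r a b)] with x hx
    rw [mul_assoc, mul_assoc]; exact hl _ _ _ hx
  · intro f a hf ha k
    show r _ _
    have h1 : ∀ᶠ x in (U : Filter L), ¬ (f * x < 1 * x) := Ultrafilter.eventually_not.2 hf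
    have h2 : ∀ᶠ x in (U : Filter L), x ∉ bad f a k := by
      apply Ultrafilter.of_le (conull m)
      show m.M (ind _) ≤ 0
      have : ({x | x ∉ bad f a k} : Set L)ᶜ = bad f a k := by ext; simp
      rw [this]
      exact bad_null hl m hm f a k
    filter_upwards [h1, h2, (ha : r 1 a)] with x h1 h2 h3
    by_contra h4
    exact h2 ⟨by simpa using h1, by simpa using h3, not_lt.1 h4⟩

end Ord

section Sol

def K {G : Type} [Group G] (X I : Set G) : Subgroup G :=
  Subgroup.closure {z | ∃ x ∈ X, ∃ g ∈ I, z = g⁻¹ * x * g}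

lemma K_mono {G : Type} [Group G] (X : Set G) {I J : Set G} (h : I ⊆ J) : K X I ≤ K X J :=
  Subgroup.closure_mono fun _ ⟨x, hx, g, hg, e⟩ => ⟨x, hx, g, h hg, e⟩

lemma K_gen {G : Type} [Group G] {X I : Set G} {x g : G} (hx : x ∈ X) (hg : g ∈ I) :
    g⁻¹ * x * g ∈ K X I := Subgroup.subset_closure ⟨x, hx, g, hg, rfl⟩

lemma conj_K {G : Type} [Group G] {X I : Set G} (H : Subgroup G) (c : G)
    (h : ∀ x ∈ X, ∀ g ∈ I, c⁻¹ * (g⁻¹ * x * g) * c ∈ H) : ∀ y ∈ K X I, c⁻¹ * y * c ∈ H := by
  intro y hy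
  induction hy using Subgroup.closure_induction with
  | mem z hz => obtain ⟨x, hx, g, hg, rfl⟩ := hz; exact h x hx g hg
  | one => simp
  | mul x y _ _ hx hy => convert H.mul_mem hx hy using 1; group
  | inv x _ hx => convert H.inv_mem hx using 1; group

lemma lemA {G : Type} [Group G] (X : Set G) (hX : Subgroup.normalClosure X = ⊤) (Y : Set G)
    (hY : Y.Finite) : ∃ J : Set G, J.Finite ∧ ∀ y ∈ Y, y ∈ K X J := by
  have h1 : ∀ y ∈ Subgroup.normalClosure X, ∃ J : Set G, J.Finite ∧ y ∈ K X J := by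
    intro y hy
    induction hy using Subgroup.closure_induction with
    | mem z hz =>
      obtain ⟨x, hx, hz⟩ := Group.mem_conjugatesOfSet_iff.1 hz
      obtain ⟨c, rfl⟩ := isConj_iff.1 hz
      exact ⟨{c⁻¹}, Set.finite_singleton _, by simpa using K_gen (g := c⁻¹) (I := {c⁻¹}) hx rfl⟩
    | one => exact ⟨∅, Set.finite_empty, Subgroup.one_mem _⟩
    | mul x y _ _ hx hy =>
      obtain ⟨I, hI, hx⟩ := hx
      obtain ⟨J, hJ, hy⟩ := hy
      exact ⟨I ∪ J, hI.union hJ, Subgroup.mul_mem _ (K_mono X Set.subset_union_left hx)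
        (K_mono X Set.subset_union_right hy)⟩
    | inv x _ hx =>
      obtain ⟨I, hI, hx⟩ := hx
      exact ⟨I, hI, Subgroup.inv_mem _ hx⟩
  choose J hJ1 hJ2 using fun y => h1 y (by rw [hX]; trivial)
  exact ⟨⋃ y ∈ Y, J y, hY.biUnion fun y _ => hJ1 y,
    fun y hy => K_mono X (Set.subset_biUnion_of_mem (u := J) hy) (hJ2 y)⟩

lemma lemP (n : ℕ) : ∀ (G : Type) [Group G], derivedSeries G n = ⊥ → ∀ X : Set G,
    Subgroup.normalClosure X = ⊤ → ∀ Y : Set G, Y.Finite →
    ∃ I : Set G, I.Finite ∧ 1 ∈ I ∧ ∀ y ∈ Y, ∀ g ∈ I, g⁻¹ * y * g ∈ K X I := by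
  induction n with
  | zero =>
    intro G _ h X _ Y _
    refine ⟨{1}, Set.finite_singleton _, rfl, fun y _ g _ => ?_⟩
    have : g⁻¹ * y * g ∈ derivedSeries G 0 := by simp
    rw [h, Subgroup.mem_bot] at this
    rw [this]; exact Subgroup.one_mem _
  | succ n ih =>
    intro G _ h X hX Y hY
    set C := derivedSeries G n with hC
    obtain ⟨J0, hJ0, hYJ⟩ := lemA X hX Y hY
    let π : G →* G ⧸ C := QuotientGroup.mk' C
    have hπ : Function.Surjective π := QuotientGroup.mk'_surjective C
    have hX' : Subgroup.normalClosure (π '' X) = ⊤ := by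
      rw [← Subgroup.map_normalClosure X π hπ, hX, Subgroup.map_top_of_surjective π hπ]
    obtain ⟨I', hI'1, hI'2, hI'3⟩ := ih (G ⧸ C) (derived_quot n) (π '' X) hX' (π '' J0) (hJ0.image _)
    let I0 : Set G := insert 1 (Quotient.out '' I')
    have hI0 : I0.Finite := (hI'1.image _).insert _
    have hI0π : ∀ g ∈ I0, π g ∈ I' := by
      rintro g (rfl | ⟨q, hq, rfl⟩)
      · simpa using hI'2
      · simpa [π] using hq
    have hmap : K (π '' X) I' ≤ (K X I0).map π := by
      rw [K, Subgroup.closure_le]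
      rintro _ ⟨_, ⟨x, hx, rfl⟩, q, hq, rfl⟩
      exact ⟨_, K_gen hx (Or.inr ⟨q, hq, rfl⟩ : q.out ∈ I0), by simp [π]⟩
    have hdec : ∀ h ∈ J0, ∀ g ∈ I0, ∃ c ∈ C, ∃ l ∈ K X I0, g⁻¹ * h * g = c * l := by
      intro h hh g hg
      obtain ⟨l, hl, e⟩ := hmap (hI'3 _ ⟨h, hh, rfl⟩ _ (hI0π g hg))
      refine ⟨g⁻¹ * h * g * l⁻¹, ?_, l, hl, by group⟩
      rw [← QuotientGroup.ker_mk' C, MonoidHom.mem_ker]
      show π _ = 1
      simp only [map_mul, map_inv, e]; group
    choose! c hc l hl hcl using hdec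
    let T : Set G := insert 1 (Set.image2 c J0 I0)
    have hT : T.Finite := (hJ0.image2 _ hI0).insert _
    have hTC : ∀ t ∈ T, t ∈ C := by
      rintro t (rfl | ⟨h, hh, g, hg, rfl⟩)
      · exact C.one_mem
      · exact hc h hh g hg
    let I : Set G := Set.image2 (· * ·) I0 T
    have hI0I : I0 ⊆ I := fun g hg => ⟨g, hg, 1, Or.inl rfl, mul_one g⟩
    have hconj : ∀ t ∈ T, ∀ y ∈ K X I, t⁻¹ * y * t ∈ K X I := by
      intro t ht
      apply conj_K
      rintro x hx _ ⟨g, hg, t', ht', rfl⟩
      have h1 : (g⁻¹ * x * g)⁻¹ * (t'⁻¹ * (g⁻¹ * x * g) * t') ∈ C := by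
        have := C.mul_mem ((derivedSeries_normal G n).conj_mem _ (C.inv_mem (hTC t' ht'))
          (g⁻¹ * x * g)⁻¹) (hTC t' ht')
        convert this using 1; group
      have h2 := (derived_comm h _ h1 _ (hTC t ht)).eq
      have h3 := (K X I).mul_mem ((K X I).mul_mem (K_gen (I := I) hx (⟨g, hg, t, ht, rfl⟩ : g * t ∈ I))
        ((K X I).inv_mem (K_gen hx (hI0I hg)))) (K_gen (I := I) hx (⟨g, hg, t', ht', rfl⟩ : g * t' ∈ I))
      convert h3 using 1
      calc t⁻¹ * ((g * t')⁻¹ * x * (g * t')) * t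
          = t⁻¹ * (g⁻¹ * x * g) * ((g⁻¹ * x * g)⁻¹ * (t'⁻¹ * (g⁻¹ * x * g) * t') * t) := by group
        _ = _ := by rw [h2]; group
    refine ⟨I, hI0.image2 _ hT, hI0I (Or.inl rfl), ?_⟩
    rintro y hy _ ⟨g, hg, t, ht, rfl⟩
    refine conj_K _ _ ?_ y (hYJ y hy)
    intro x hx h hh
    have h1 := K_gen hx (I := I) (⟨g, hg, c h g, Or.inr ⟨h, hh, g, hg, rfl⟩, rfl⟩ : g * c h g ∈ I)
    have h2 := K_mono X hI0I (hl h hh g hg)
    have h3 := hconj t ht _ ((K X I).mul_mem ((K X I).mul_mem ((K X I).inv_mem h2) h1) h2)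
    convert h3 using 1
    have h4 : h = g * (c h g * l h g) * g⁻¹ := by rw [← hcl h hh g hg]; group
    generalize c h g = c' at *
    generalize l h g = l' at *
    rw [h4]; group

lemma lemY {G : Type} [Group G] : ∀ z ∈ commutator G, ∃ Y : Set G, Y.Finite ∧
    ∀ (H : Subgroup G) (g : G), (∀ y ∈ Y, g⁻¹ * y * g ∈ H) → g⁻¹ * z * g ∈ ⁅H, H⁆ := by
  intro z hz
  rw [commutator_eq_closure] at hz
  induction hz using Subgroup.closure_induction with
  | mem z hz =>
    obtain ⟨a, b, rfl⟩ := hz
    refine ⟨{a, b}, Set.toFinite _, fun H g h => ?_⟩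
    have := Subgroup.commutator_mem_commutator (h a (by simp)) (h b (by simp))
    convert this using 1
    simp only [commutatorElement_def]; group
  | one => exact ⟨∅, Set.finite_empty, fun H g _ => by simp⟩
  | mul x y _ _ hx hy =>
    obtain ⟨Y, hY, hx⟩ := hx
    obtain ⟨Z, hZ, hy⟩ := hy
    refine ⟨Y ∪ Z, hY.union hZ, fun H g h => ?_⟩
    have := Subgroup.mul_mem _ (hx H g fun y hy => h y (Or.inl hy)) (hy H g fun y hy => h y (Or.inr hy))
    convert this using 1; group
  | inv x _ hx =>
    obtain ⟨Y, hY, hx⟩ := hx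
    refine ⟨Y, hY, fun H g h => ?_⟩
    convert Subgroup.inv_mem _ (hx H g h) using 1; group

end Sol


/-- The negation of the preceding statement: There is a nontrivial soluble group with a total order preserved by right multiplication whose abelianization (quotient by the commutator subgroup) is finite. -/
theorem result :
    ¬ (∃ (G : Type) (_ : Group G) (_ : LinearOrder G),
      Nontrivial G ∧ IsSolvable G ∧
      (∀ a b c : G, a ≤ b → a * c ≤ b * c) ∧
      Finite (Abelianization G)) := by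
  rintro ⟨G, _, _, hnt, hsol, hord, hfin⟩
  have hsol' : Group.IsSolvable G := hsol
  have hsurj : Function.Surjective (Abelianization.of (G := G)) := fun q => Quotient.exists_rep q
  let X : Set G := Set.range (fun q : Abelianization G => Function.surjInv hsurj q)
  have hXf : X.Finite := Set.finite_range _
  have hXs : ∀ g : G, ∃ x ∈ X, x⁻¹ * g ∈ commutator G := by
    intro g
    refine ⟨_, ⟨Abelianization.of g, rfl⟩, ?_⟩
    rw [← Abelianization.ker_of, MonoidHom.mem_ker, map_mul, map_inv, Function.surjInv_eq hsurj]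
    simp
  have hX : Subgroup.normalClosure X = ⊤ := by
    by_contra hne
    have : Nontrivial (G ⧸ Subgroup.normalClosure X) := QuotientGroup.nontrivial_iff.2 hne
    apply (Group.IsSolvable.commutator_lt_top_of_nontrivial (G ⧸ Subgroup.normalClosure X)).ne
    rw [eq_top_iff]
    intro q _
    obtain ⟨g, rfl⟩ := QuotientGroup.mk'_surjective _ q
    obtain ⟨x, hx, hg⟩ := hXs g
    have h1 : QuotientGroup.mk' (Subgroup.normalClosure X) x = 1 :=
      (QuotientGroup.eq_one_iff x).2 (Subgroup.subset_normalClosure hx)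
    have h2 := Subgroup.mem_map_of_mem (QuotientGroup.mk' (Subgroup.normalClosure X)) hg
    rw [map_mul, map_inv, h1, inv_one, one_mul, commutator_def, Subgroup.map_commutator] at h2
    exact Subgroup.commutator_mono le_top le_top h2
  have hpow : ∀ x : G, x ^ Nat.card (Abelianization G) ∈ commutator G := by
    intro x
    rw [← Abelianization.ker_of, MonoidHom.mem_ker, map_pow, pow_card_eq_one']
  choose Y hY1 hY2 using fun x : G => lemY _ (hpow x)
  obtain ⟨n, hn⟩ := hsol'.solvable
  obtain ⟨I, hI, hI1, hI2⟩ := lemP n G hn X hX (⋃ x ∈ X, Y x) (hXf.biUnion fun x _ => hY1 x)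
  set L := K X I with hL
  obtain ⟨m, hm⟩ := exists_mean L inferInstance
  let o : LinearOrder L := LinearOrder.lift' (fun x : L => (x : G)⁻¹)
    (fun a b h => Subtype.ext (inv_injective h))
  have hgenf : {z | ∃ x ∈ X, ∃ g ∈ I, z = g⁻¹ * x * g}.Finite :=
    (hXf.image2 (fun x g => g⁻¹ * x * g) hI).subset fun z ⟨x, hx, g, hg, e⟩ => ⟨x, hx, g, hg, e.symm⟩
  obtain ⟨φ, z, ⟨x, hx, g, hg, hz⟩, hφ⟩ := @hom_of_mean L _ o (by
      intro a b c h
      have h' : (a : G)⁻¹ < (b : G)⁻¹ := h
      show ((c * a : L) : G)⁻¹ < ((c * b : L) : G)⁻¹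
      simp only [Subgroup.coe_mul, mul_inv_rev]
      exact lt_of_le_of_ne (hord _ _ _ h'.le) fun e => h'.ne (mul_right_cancel e)) m hm
    (Subtype.val ⁻¹' {z | ∃ x ∈ X, ∃ g ∈ I, z = g⁻¹ * x * g})
    (hgenf.preimage Subtype.val_injective.injOn)
    (Subgroup.closure_closure_coe_preimage) (by
      by_contra hcon
      push Not at hcon
      have : Subgroup.normalClosure X = ⊥ := by
        rw [eq_bot_iff]
        apply Subgroup.normalClosure_le_normal
        intro x hx
        have := hcon ⟨_, K_gen hx hI1⟩ ⟨x, hx, 1, hI1, rfl⟩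
        simpa using congrArg Subtype.val this
      rw [hX] at this
      exact top_ne_bot this)
  have h1 := hY2 x L g fun y hy => hI2 y (Set.mem_biUnion hx hy) g hg
  have h2 : z ^ Nat.card (Abelianization G) ∈ commutator L := by
    rw [← Subgroup.map_subtype_commutator] at h1
    obtain ⟨w, hw, e⟩ := h1
    have : w = z ^ Nat.card (Abelianization G) := by
      apply Subtype.ext
      rw [Subgroup.coe_pow, hz]
      refine e.trans ?_
      have := conj_pow (i := Nat.card (Abelianization G)) (a := g⁻¹) (b := x)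
      simpa using this.symm
    exact this ▸ hw
  have h3 := Abelianization.commutator_subset_ker φ h2
  rw [MonoidHom.mem_ker, map_pow] at h3
  have h4 := congrArg Multiplicative.toAdd h3
  simp only [toAdd_pow, toAdd_one, nsmul_eq_mul, mul_eq_zero, Nat.cast_eq_zero] at h4
  rcases h4 with h4 | h4
  · exact Nat.card_pos.ne' h4
  · exact hφ (by simpa using h4)

end Pool.Agent.S00694
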