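import Pool.Statements.S00801
-- import your own Pool.Agent.* helpers here

set_option autoImplicit false
open Pool Pool.MP_166ce5_al

namespace Pool.Agent.S00801

abbrev X := Fin 65 → ZMod 2
abbrev L := Option (Fin 65)

def e (i : Fin 65) : X := Pi.single i 1
def xx (i : Fin 65) : X := fun j => if j = i then 0 else 1

lemma add_self (x : X) : x + x = 0 := funext fun j => CharTwo.add_self_eq_zero (x j)

lemma wt_xx (i : Fin 65) : hammingNorm (xx i) = 64 := by
  have : (Finset.univ.filter fun j => xx i j ≠ 0) = Finset.univ.erase i := by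
    ext j; simp [xx]
  rw [hammingNorm, this, Finset.card_erase_of_mem (Finset.mem_univ _)]; simp

lemma xx_ne (i : Fin 65) : xx i ≠ 0 := fun h => by
  have := wt_xx i; rw [h] at this; simp at this

lemma xx_inj {i j : Fin 65} (h : xx i = xx j) : i = j := by
  by_contra hne
  have := congrFun h i
  simp [xx, hne] at this

lemma wt_add (x : X) (i : Fin 65) : hammingNorm (x + e i) ≤ hammingNorm x + 1 := by
  have : (Finset.univ.filter fun j => (x + e i) j ≠ 0) ⊆
      insert i (Finset.univ.filter fun j => x j ≠ 0) := by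
    intro j hj
    by_cases h : j = i
    · simp [h]
    · simpa [e, h] using hj
  exact (Finset.card_le_card this).trans (Finset.card_insert_le _ _)

lemma wt_add' (x : X) (i : Fin 65) : hammingNorm x ≤ hammingNorm (x + e i) + 1 := by
  have := wt_add (x + e i) i
  rwa [add_assoc, add_self, add_zero] at this

open Classical in
noncomputable def sec (x : X) : Option L :=
  if x = 0 then some none else if h : ∃ i, x = xx i then some (some h.choose) else none

lemma sec_zero : sec 0 = some none := by simp [sec]

lemma sec_xx (i : Fin 65) : sec (xx i) = some (some i) := by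
  have h : ∃ j, xx i = xx j := ⟨i, rfl⟩
  rw [sec, if_neg (xx_ne i), dif_pos h, ← xx_inj h.choose_spec]

lemma sec_cases (x : X) : x = 0 ∨ (∃ i, x = xx i) ∨ sec x = none := by
  by_cases h0 : x = 0
  · exact Or.inl h0
  by_cases h : ∃ i, x = xx i
  · exact Or.inr (Or.inl h)
  · exact Or.inr (Or.inr (by rw [sec, if_neg h0, dif_neg h]))

noncomputable def act : L → List X → List X
  | _, [] => []
  | some i, x :: v => (x + e i) :: v
  | none, x :: v => x :: (sec x).elim v fun l => act l v

lemma act_nil (l : L) : act l [] = [] := by cases l <;> rfl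

lemma act_inv (v : List X) : ∀ l, act l (act l v) = v := by
  induction v with
  | nil => intro l; simp [act_nil]
  | cons x v ih =>
    intro l
    cases l with
    | some i => simp [act, add_assoc, add_self]
    | none => cases h : sec x <;> simp [act, h, ih]

lemma act_len (v : List X) : ∀ l, (act l v).length = v.length := by
  induction v with
  | nil => intro l; simp [act_nil]
  | cons x v ih =>
    intro l
    cases l with
    | some i => simp [act]
    | none => cases h : sec x <;> simp [act, h, ih]

noncomputable def ev (w : List L) (v : List X) : List X := w.foldr act v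

lemma ev_append (w w' : List L) (v : List X) : ev (w ++ w') v = ev w (ev w' v) := by
  simp [ev]

lemma ev_nil (w : List L) : ev w [] = [] := by
  induction w with
  | nil => rfl
  | cons l w ih => change act l (ev w []) = []; rw [ih, act_nil]

def sg : List L → X
  | [] => 0
  | none :: w => sg w
  | some i :: w => sg w + e i

noncomputable def S : List L → X → List L
  | [], _ => []
  | none :: w, x => (sec (x + sg w)).toList ++ S w x
  | some _ :: w, x => S w x

lemma ev_cons (w : List L) (x : X) (v : List X) :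
    ev w (x :: v) = (x + sg w) :: ev (S w x) v := by
  induction w with
  | nil => simp [ev, sg, S]
  | cons l w ih =>
    change act l (ev w (x :: v)) = _
    rw [ih]
    cases l with
    | some i => simp [act, sg, S, add_assoc]
    | none => cases h : sec (x + sg w) <;> simp [act, sg, S, h, ev]

lemma S_len (w : List L) (x : X) : (S w x).length ≤ w.count none := by
  induction w with
  | nil => simp [S]
  | cons l w ih =>
    cases l with
    | some i => simpa [S] using ih
    | none => cases h : sec (x + sg w) <;> simp [S, h] <;> omega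

lemma sg_append (w w' : List L) : sg (w ++ w') = sg w + sg w' := by
  induction w with
  | nil => simp [sg]
  | cons l w ih => cases l <;> simp [sg, ih, add_right_comm]

def Tor (w : List L) (m : ℕ) : Prop := ∀ v, (ev w)^[m] v = v

lemma tor_step {w : List L} {m : ℕ} (h : ∀ x, Tor (S (w ++ w) x) m) : Tor w (2 * m) := by
  have h1 : (ev w)^[2] = ev (w ++ w) := funext fun v => by simp [ev_append]
  have h2 : ∀ (k : ℕ) x v, (ev (w ++ w))^[k] (x :: v) = x :: (ev (S (w ++ w) x))^[k] v := by
    intro k
    induction k with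
    | zero => simp
    | succ k ih =>
      intro x v
      rw [Function.iterate_succ_apply, ev_cons, sg_append, add_self, add_zero, ih,
        Function.iterate_succ_apply]
  intro v
  rw [Function.iterate_mul, h1]
  cases v with
  | nil => exact Function.iterate_fixed (ev_nil _) _
  | cons x v => rw [h2, h x]

lemma tor_mul {w : List L} {m : ℕ} (h : Tor w m) (k : ℕ) : Tor w (m * k) := fun v => by
  rw [Function.iterate_mul]; exact Function.iterate_fixed (h v) _

lemma reduce (w : List L) (x : X) : ∃ (b : Bool) (t : List L),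
    ev (S w x) = ev ((if b then [none] else []) ++ t) ∧
    64 * t.count none + (if b then hammingNorm (x + sg w) else 0) ≤ w.length ∧
    (t ≠ [] → 64 ≤ w.length + hammingNorm (x + sg w)) ∧ (b = true → t ≠ [] → 64 ≤ w.length) := by
  induction w with
  | nil => exact ⟨false, [], rfl, by simp, by simp, by simp⟩
  | cons l w ih =>
    obtain ⟨b, t, h1, h2, h3, h4⟩ := ih
    cases l with
    | some i =>
      have a1 := wt_add (x + sg w) i
      have a2 := wt_add' (x + sg w) i
      refine ⟨b, t, h1, ?_, fun h => ?_, fun h h' => ?_⟩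
      · simp only [sg, List.length_cons, ← add_assoc]
        split_ifs at h2 ⊢ <;> omega
      · have := h3 h
        simp only [sg, List.length_cons, ← add_assoc]; omega
      · have := h4 h h'
        simp only [List.length_cons]; omega
    | none =>
      simp only [sg, S, List.length_cons]
      rcases sec_cases (x + sg w) with h | ⟨i, h⟩ | h
      · rw [h] at h2 h3 ⊢
        rw [sec_zero]
        simp only [hammingNorm_zero, ite_self] at h2 h3 ⊢
        refine ⟨!b, t, funext fun v => ?_, by omega, fun h => ?_, fun _ h => ?_⟩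
        · rw [ev_append, h1]
          cases b <;> simp [ev, act_inv]
        · have := h3 h; omega
        · have := h3 h; omega
      · rw [h] at h2 ⊢
        rw [sec_xx, wt_xx] at *
        refine ⟨false, some i :: ((if b then [none] else []) ++ t), funext fun v => ?_, ?_,
          fun _ => by omega, by simp⟩
        · rw [ev_append, h1]; rfl
        · cases b <;> simp at h2 ⊢ <;> omega
      · rw [h]
        refine ⟨b, t, h1, by omega, fun h => ?_, fun h h' => ?_⟩
        · have := h3 h; omega
        · have := h4 h h'; omega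

lemma tor_base (w : List L) (hw : w.length < 32) : Tor w 4 := by
  refine tor_step (m := 2) fun x => ?_
  obtain ⟨b, t, h1, h2, -, h4⟩ := reduce (w ++ w) x
  unfold Tor
  rw [h1]
  rw [List.length_append] at h2 h4
  cases b with
  | true =>
    have : t = [] := by by_contra h; have := h4 rfl h; omega
    intro v; simp [this, ev, act_inv]
  | false =>
    refine tor_step (m := 1) fun y => ?_
    have h5 := S_len (t ++ t) y
    have h6 : t.count none = 0 := by omega
    rw [List.count_append, h6] at h5
    have h7 : S (t ++ t) y = [] := List.length_eq_zero_iff.1 (by omega)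
    intro v
    simp [h7, ev]

lemma tor (k : ℕ) : ∀ w : List L, w.length < 32 * 8 ^ k → Tor w (4 ^ (k + 1)) := by
  induction k with
  | zero => intro w hw; exact tor_base w (by simpa using hw)
  | succ k ih =>
    intro w hw
    by_cases h : w.length < 32
    · rw [pow_succ']; exact tor_mul (tor_base w h) _
    have e : 4 ^ (k + 1 + 1) = 2 * (2 * 4 ^ (k + 1)) := by ring
    rw [e]
    refine tor_step fun x => ?_
    obtain ⟨b, t, h1, h2, -, -⟩ := reduce (w ++ w) x
    unfold Tor
    rw [h1]
    refine tor_step fun y => ih _ ((S_len _ _).trans_lt ?_)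
    rw [List.length_append] at h2
    rw [pow_succ] at hw
    cases b <;> simp at h2 ⊢ <;> omega

lemma transl (x : X) : ∃ a : List L, ∀ y v, ev a (y :: v) = (y + x) :: v := by
  have : ∀ T : Finset (Fin 65), ∃ a : List L, ∀ y v, ev a (y :: v) = (y + ∑ i ∈ T, e i) :: v := by
    intro T
    induction T using Finset.induction_on with
    | empty => exact ⟨[], by simp [ev]⟩
    | insert i T hi ih =>
      obtain ⟨a, ha⟩ := ih
      refine ⟨some i :: a, fun y v => ?_⟩
      change act _ (ev a _) = _
      rw [ha, Finset.sum_insert hi, act, add_assoc, add_comm (e i)]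
  obtain ⟨a, ha⟩ := this (Finset.univ.filter fun i => x i = 1)
  refine ⟨a, fun y v => ?_⟩
  rw [ha]
  congr 2
  funext j
  have : ∀ c : ZMod 2, (if c = 1 then 1 else 0) = c := by decide
  simp [e, Pi.single_apply, Finset.sum_apply, this]

lemma lift (u : List L) : ∃ w, ∀ v, ev w (0 :: v) = 0 :: ev u v := by
  induction u with
  | nil => exact ⟨[], fun v => rfl⟩
  | cons l u ih =>
    obtain ⟨w, hw⟩ := ih
    cases l with
    | none => exact ⟨none :: w, fun v => by
        change act _ (ev w _) = _
        rw [hw, act, sec_zero]; rfl⟩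
    | some i =>
      obtain ⟨a, ha⟩ := transl (xx i)
      refine ⟨a ++ none :: (a ++ w), fun v => ?_⟩
      rw [ev_append]
      change ev a (act _ (ev (a ++ w) _)) = _
      rw [ev_append, hw, ha, zero_add, act, sec_xx, ha, add_self]; rfl

lemma ev_infinite : (Set.range ev).Infinite := by
  have : ∀ j : ℕ, ∃ w, (∀ i ≤ j, ev w (List.replicate i 0) = List.replicate i 0) ∧
      ev w (List.replicate (j + 1) 0) ≠ List.replicate (j + 1) 0 := by
    intro j
    induction j with
    | zero =>
      refine ⟨[some 0], fun i hi => by simp [Nat.le_zero.1 hi, ev_nil], fun h => ?_⟩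
      have h1 : e 0 = 0 := by simpa [ev, act] using h
      simpa [e] using congrFun h1 0
    | succ j ih =>
      obtain ⟨u, h1, h2⟩ := ih
      obtain ⟨w, hw⟩ := lift u
      refine ⟨w, fun i hi => ?_, fun h => h2 ?_⟩
      · cases i with
        | zero => exact ev_nil w
        | succ i => rw [List.replicate_succ, hw, h1 i (by omega)]
      · rw [List.replicate_succ, hw] at h
        exact (List.cons.inj h).2
  choose w h1 h2 using this
  refine Set.infinite_of_injective_forall_mem (f := fun j => ev (w j)) ?_ fun j => ⟨_, rfl⟩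
  intro i j hij
  simp only at hij
  by_contra hne
  rcases lt_or_gt_of_ne hne with h | h
  · exact h2 i (by rw [hij]; exact h1 j _ h)
  · exact h2 j (by rw [← hij]; exact h1 i _ h)

def Geo (w : List L) : Prop := ∀ w', ev w' = ev w → w.length ≤ w'.length

lemma geo_tail {l : L} {w : List L} (h : Geo (l :: w)) : Geo w := fun w' e => by
  have := h (l :: w') (funext fun v => by change act l (ev w' v) = act l (ev w v); rw [e])
  simpa using this

lemma geo_ex (n : ℕ) : ∃ w, Geo w ∧ w.length = n := by
  classical
  obtain ⟨_, ⟨w, rfl⟩, hw⟩ := ev_infinite.exists_notMem_finite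
    ((List.finite_length_le L n).image ev)
  have hex : ∃ m, ∃ w', ev w' = ev w ∧ w'.length = m := ⟨_, w, rfl, rfl⟩
  obtain ⟨w0, h1, h2⟩ := Nat.find_spec hex
  have h3 : Geo w0 := fun w' e => h2 ▸ Nat.find_min' hex ⟨w', e.trans h1, rfl⟩
  have h4 : n ≤ w0.length := by
    by_contra h
    exact hw ⟨w0, show w0.length ≤ n by omega, h1⟩
  clear h2 h1
  induction w0 with
  | nil => exact ⟨[], h3, by simpa [eq_comm] using h4⟩
  | cons l w0 ih =>
    by_cases h : n ≤ w0.length
    · exact ih (geo_tail h3) h
    · exact ⟨_, h3, by simp at h4 ⊢; omega⟩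

abbrev Lv (k : ℕ) := {v : List X // v.length ≤ k}

instance (k : ℕ) : Finite (Lv k) := (List.finite_length_le X k).to_subtype

abbrev Z (k : ℕ) := Equiv.Perm (Lv k)

noncomputable def r (l : L) (k : ℕ) : Z k :=
  Function.Involutive.toPerm (fun v => ⟨act l v.1, by rw [act_len]; exact v.2⟩)
    fun v => Subtype.ext (act_inv _ _)

noncomputable def R (w : List L) : ∀ k, Z k := (w.map r).prod

lemma R_val (w : List L) (k : ℕ) (v : Lv k) : (R w k v).1 = ev w v.1 := by
  induction w with
  | nil => rfl
  | cons l w ih =>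
    change act l (R w k v).1 = act l (ev w v.1)
    rw [ih]

lemma R_tor {w : List L} {m : ℕ} (h : Tor w m) : R w ^ m = 1 := by
  have : ∀ (j k : ℕ) (v : Lv k), ((R w ^ j) k v).1 = (ev w)^[j] v.1 := by
    intro j k v
    induction j with
    | zero => rfl
    | succ j ih => rw [pow_succ', Function.iterate_succ_apply', ← ih, ← R_val]; rfl
  ext k v
  rw [this, h]; rfl

abbrev P := ∀ k : ℕ, Equiv.Perm (Z k × ZMod 2)

open Classical in
noncomputable def gen : Option L → P
  | some l => fun k => Equiv.prodCongr (Equiv.mulLeft (r l k)) (Equiv.refl _)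
  | none => fun _ => Function.Involutive.toPerm (fun p => (p.1, p.2 + if p.1 = 1 then 1 else 0))
      fun p => by simp [add_assoc, CharTwo.add_self_eq_zero]

lemma gen_inv (l : Option L) : (gen l)⁻¹ = gen l := by
  cases l with
  | none => rfl
  | some l => rfl

def Shape (g : P) (a : ∀ k, Z k) (Q : ∀ k, Z k → Prop) : Prop :=
  ∀ k, ∃ F : Z k → ZMod 2, (∀ z c, g k (z, c) = (a k * z, c + F z)) ∧ ∀ z, F z ≠ 0 → Q k z

lemma shape_mul {g h : P} {a b : ∀ k, Z k} (hg : Shape g a fun _ _ => True)
    (hh : Shape h b fun _ _ => True) : Shape (g * h) (a * b) fun _ _ => True := by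
  intro k
  obtain ⟨F, h1, -⟩ := hg k
  obtain ⟨F', h2, -⟩ := hh k
  exact ⟨fun z => F' z + F (b k * z), fun z c => by simp [h1, h2, mul_assoc, add_assoc],
    fun _ _ => trivial⟩

lemma shape_one (Q : ∀ k, Z k → Prop) : Shape 1 1 Q := fun _ => ⟨0, by simp, by simp⟩

lemma shape_word (u : List (Option L)) :
    Shape (u.map gen).prod (R (u.filterMap id)) fun _ _ => True := by
  classical
  induction u with
  | nil => exact shape_one _
  | cons l u ih =>
    cases l with
    | none =>
      have : Shape (gen none) 1 fun _ _ => True := fun k =>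
        ⟨fun z => if z = 1 then 1 else 0, fun z c => by simp [gen], fun _ _ => trivial⟩
      simpa using shape_mul this ih
    | some l =>
      have : Shape (gen (some l)) (r l) fun _ _ => True := fun k =>
        ⟨0, fun z c => by simp [gen], fun _ _ => trivial⟩
      simpa [R] using shape_mul this ih

lemma word_tor (u : List (Option L)) (k : ℕ) (h : u.length < 32 * 8 ^ k) :
    (u.map gen).prod ^ (4 ^ (k + 1) * 2) = 1 := by
  have h1 := R_tor (tor k (u.filterMap id) ((List.length_filterMap_le _ _).trans_lt h))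
  have h2 : ∀ m : ℕ, Shape ((u.map gen).prod ^ m) (R (u.filterMap id) ^ m) fun _ _ => True := by
    intro m
    induction m with
    | zero => simpa using shape_one _
    | succ m ih => rw [pow_succ, pow_succ]; exact shape_mul ih (shape_word u)
  have h3 := h2 (4 ^ (k + 1))
  rw [h1] at h3
  rw [pow_mul, sq]
  funext j
  obtain ⟨F, h4, -⟩ := h3 j
  refine Equiv.ext fun p => ?_
  obtain ⟨z, c⟩ := p
  simp [h4, add_assoc, CharTwo.add_self_eq_zero, -Pi.pow_apply]

lemma double (w : List L) (hw : Geo w) (A : Finset P)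
    (hA : ∀ g ∈ A, Shape g (R w) fun k z => ∃ w', w'.length < w.length ∧ R w' k * z = 1) :
    ∃ B : Finset P, B.card = 2 * A.card ∧ (∀ g ∈ B, g ∈ A ∨ ∃ h ∈ A, g = gen none * h) ∧
      ∀ g ∈ B, Shape g (R w) fun k z => ∃ w', w'.length < w.length + 1 ∧ R w' k * z = 1 := by
  classical
  have hk : ∃ k, ∀ w' : List L, w'.length < w.length → R w' k ≠ R w k := by
    have : ∀ w' ∈ {w' : List L | w'.length < w.length}, ∀ᶠ k in Filter.atTop, R w' k ≠ R w k := by
      intro w' h'
      have hne : ev w' ≠ ev w := fun e => absurd (hw w' e) (not_le.2 h')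
      obtain ⟨v, hv⟩ := Function.ne_iff.1 hne
      filter_upwards [Filter.eventually_ge_atTop v.length] with k hk e
      apply hv
      rw [← R_val w' k ⟨v, hk⟩, e, R_val]
    exact (((List.finite_length_lt L w.length).eventually_all).2 this).exists
  obtain ⟨k, hk⟩ := hk
  refine ⟨A ∪ A.image (gen none * ·), ?_, fun g hg => ?_, fun g hg => ?_⟩
  · rw [Finset.card_union_of_disjoint, Finset.card_image_of_injective _ (mul_right_injective _)]
    · ring
    · rw [Finset.disjoint_left]
      intro g hg hg'
      obtain ⟨h, hh, rfl⟩ := Finset.mem_image.1 hg'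
      obtain ⟨F, a1, a2⟩ := hA _ hg k
      obtain ⟨F', b1, b2⟩ := hA _ hh k
      have c1 : ∀ F : Z k → ZMod 2, (∀ z, F z ≠ 0 → ∃ w', w'.length < w.length ∧ R w' k * z = 1) →
          F (R w k)⁻¹ = 0 := by
        intro F hF
        by_contra h0
        obtain ⟨w', d1, d2⟩ := hF _ h0
        exact hk w' d1 (mul_inv_eq_one.1 d2)
      have := a1 (R w k)⁻¹ 0
      simp [b1, c1 F a2, c1 F' b2, gen] at this
  · rcases Finset.mem_union.1 hg with h | h
    · exact Or.inl h
    · obtain ⟨h', hh, rfl⟩ := Finset.mem_image.1 h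
      exact Or.inr ⟨h', hh, rfl⟩
  · intro j
    rcases Finset.mem_union.1 hg with h | h
    · obtain ⟨F, a1, a2⟩ := hA _ h j
      refine ⟨F, a1, fun z hz => ?_⟩
      obtain ⟨w', d1, d2⟩ := a2 z hz
      exact ⟨w', by omega, d2⟩
    · obtain ⟨h', hh, rfl⟩ := Finset.mem_image.1 h
      obtain ⟨F, a1, a2⟩ := hA _ hh j
      refine ⟨fun z => F z + if R w j * z = 1 then 1 else 0, fun z c => ?_, fun z hz => ?_⟩
      · simp [a1, gen, add_assoc]
      · by_cases h1 : R w j * z = 1
        · exact ⟨w, by omega, h1⟩
        · obtain ⟨w', d1, d2⟩ := a2 z (by simpa [h1] using hz)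
          exact ⟨w', by omega, d2⟩

lemma many (w : List L) (hw : Geo w) : ∃ B : Finset P, B.card = 2 ^ (w.length + 1) ∧
    (∀ g ∈ B, ∃ u : List (Option L), u.length ≤ 2 * w.length + 1 ∧ (u.map gen).prod = g) ∧
    ∀ g ∈ B, Shape g (R w) fun k z => ∃ w', w'.length < w.length + 1 ∧ R w' k * z = 1 := by
  classical
  induction w with
  | nil =>
    obtain ⟨B, h1, h2, h3⟩ := double [] hw {1} (by simpa [R] using shape_one _)
    refine ⟨B, by simpa using h1, fun g hg => ?_, h3⟩
    rcases h2 g hg with h | ⟨h, hh, rfl⟩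
    · exact ⟨[], by simp, by simpa [eq_comm] using h⟩
    · exact ⟨[none], by simp, by simp [Finset.mem_singleton.1 hh]⟩
  | cons l w ih =>
    obtain ⟨A, a1, a2, a3⟩ := ih (geo_tail hw)
    obtain ⟨B, h1, h2, h3⟩ := double (l :: w) hw (A.image (gen (some l) * ·)) (by
      intro g hg k
      obtain ⟨h, hh, rfl⟩ := Finset.mem_image.1 hg
      obtain ⟨F, b1, b2⟩ := a3 h hh k
      exact ⟨F, fun z c => by simp [b1, gen, R, mul_assoc], b2⟩)
    refine ⟨B, ?_, fun g hg => ?_, h3⟩
    · rw [h1, Finset.card_image_of_injective _ (mul_right_injective _), a1, List.length_cons]; ring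
    · rcases h2 g hg with h | ⟨h, hh, rfl⟩
      · obtain ⟨h', hh, rfl⟩ := Finset.mem_image.1 h
        obtain ⟨u, b1, rfl⟩ := a2 h' hh
        exact ⟨some l :: u, by simp; omega, by simp⟩
      · obtain ⟨h', hh', rfl⟩ := Finset.mem_image.1 hh
        obtain ⟨u, b1, rfl⟩ := a2 h' hh'
        exact ⟨none :: some l :: u, by simp; omega, by simp⟩

abbrev GG : Subgroup P := Subgroup.closure (Set.range gen)

noncomputable def gG (l : Option L) : GG := ⟨gen l, Subgroup.subset_closure ⟨l, rfl⟩⟩

open Classical in
noncomputable def SS : Finset GG := Finset.univ.image gG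

lemma val_word (u : List (Option L)) : ((u.map gG).prod : GG).1 = (u.map gen).prod := by
  rw [Subgroup.val_list_prod, List.map_map]; rfl

lemma ball_eq (n : ℕ) : {g : GG | ∃ l : List GG, l.length ≤ n ∧
    (∀ x ∈ l, x ∈ SS ∨ x⁻¹ ∈ SS) ∧ l.prod = g} =
    (fun u => (u.map gG).prod) '' {u : List (Option L) | u.length ≤ n} := by
  ext g
  constructor
  · rintro ⟨l, h1, h2, rfl⟩
    have : ∀ x ∈ l, ∃ a, gG a = x := by
      intro x hx
      rcases h2 x hx with h | h
      · simpa [SS] using h
      · obtain ⟨a, ha⟩ : ∃ a, gG a = x⁻¹ := by simpa [SS] using h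
        exact ⟨a, by rw [← inv_inv x, ← ha]; exact Subtype.ext (gen_inv a).symm⟩
    obtain ⟨u, rfl⟩ : l ∈ Set.range (List.map gG) := by rw [Set.range_list_map]; exact this
    exact ⟨u, by simpa using h1, rfl⟩
  · rintro ⟨u, h1, rfl⟩
    refine ⟨u.map gG, by simpa using h1, fun x hx => Or.inl ?_, rfl⟩
    obtain ⟨a, -, rfl⟩ := List.mem_map.1 hx
    simp [SS]

lemma all_words (g : GG) : ∃ u : List (Option L), (u.map gG).prod = g := by
  obtain ⟨g, hg⟩ := g
  have : ∃ u : List (Option L), (u.map gen).prod = g := by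
    induction hg using Subgroup.closure_induction_left with
    | one => exact ⟨[], rfl⟩
    | mul_left x hx y _ ih =>
      obtain ⟨a, rfl⟩ := hx
      obtain ⟨u, rfl⟩ := ih
      exact ⟨a :: u, by simp⟩
    | inv_mul_cancel x hx y _ ih =>
      obtain ⟨a, rfl⟩ := hx
      obtain ⟨u, rfl⟩ := ih
      exact ⟨a :: u, by simp [gen_inv]⟩
  obtain ⟨u, hu⟩ := this
  exact ⟨u, Subtype.ext (by rw [val_word, hu])⟩

lemma wordG_tor (u : List (Option L)) (k : ℕ) (h : u.length < 32 * 8 ^ k) :
    ((u.map gG).prod : GG) ^ (4 ^ (k + 1) * 2) = 1 :=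
  Subtype.ext (by rw [Subgroup.coe_pow, val_word, word_tor u k h]; rfl)

lemma growth (n : ℕ) : 2 ^ (n + 1) ≤
    ((fun u => (u.map gG).prod) '' {u : List (Option L) | u.length ≤ 2 * n + 1}).ncard := by
  obtain ⟨w, hw, rfl⟩ := geo_ex n
  obtain ⟨B, h1, h2, -⟩ := many w hw
  rw [← h1, ← Set.ncard_coe_finset, ← Set.ncard_image_of_injective _ Subtype.val_injective]
  refine Set.ncard_le_ncard (fun g hg => ?_) (((List.finite_length_le _ _).image _).image _)
  obtain ⟨u, a1, a2⟩ := h2 g hg
  exact ⟨_, ⟨u, a1, rfl⟩, by rw [val_word, a2]⟩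


/-- There is an infinite, residually finite, periodic group generated by a finite set S, whose S-balls grow at least like c^n for some c>1, and in which the maximal element order in the ball of radius n is o(n). -/
theorem result :
    ∃ (G : Type) (_ : Group G) (S : Finset G),
      Infinite G ∧
      Subgroup.closure (S : Set G) = ⊤ ∧
      (∀ g : G, IsOfFinOrder g) ∧
      (∀ g : G, g ≠ 1 → ∃ N : Subgroup G, N.Normal ∧ N.index ≠ 0 ∧ g ∉ N) ∧
      (∃ c : ℝ, 1 < c ∧ ∀ n : ℕ,
        c ^ n ≤ (({g : G | ∃ l : List G, l.length ≤ n ∧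
          (∀ x ∈ l, x ∈ S ∨ x⁻¹ ∈ S) ∧ l.prod = g}).ncard : ℝ)) ∧
      (∀ ε : ℝ, 0 < ε → ∃ N : ℕ, ∀ n : ℕ, N ≤ n → ∀ g : G,
        (∃ l : List G, l.length ≤ n ∧ (∀ x ∈ l, x ∈ S ∨ x⁻¹ ∈ S) ∧ l.prod = g) →
        (orderOf g : ℝ) ≤ ε * n) := by
  refine ⟨GG, inferInstance, SS, ?_, ?_, ?_, ?_, ⟨1.4, by norm_num, fun n => ?_⟩, ?_⟩
  · rw [← not_finite_iff_infinite]
    intro hf
    have h1 := (growth (Nat.card GG)).trans (Set.ncard_le_card _)
    have h2 : Nat.card GG < 2 ^ Nat.card GG := Nat.lt_two_pow_self
    rw [pow_succ] at h1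
    omega
  · rw [eq_top_iff]
    intro g _
    obtain ⟨u, rfl⟩ := all_words g
    refine Subgroup.list_prod_mem _ fun x hx => Subgroup.subset_closure ?_
    obtain ⟨a, -, rfl⟩ := List.mem_map.1 hx
    simp [SS]
  · intro g
    obtain ⟨u, rfl⟩ := all_words g
    refine isOfFinOrder_iff_pow_eq_one.2 ⟨_, by positivity, wordG_tor u u.length ?_⟩
    have := Nat.lt_pow_self (show 1 < 8 by norm_num) (n := u.length)
    omega
  · intro g hg
    have : ∃ k, g.1 k ≠ 1 := by
      by_contra h
      push Not at h
      exact hg (Subtype.ext (funext h))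
    obtain ⟨k, hk⟩ := this
    exact ⟨((Pi.evalMonoidHom _ k).comp GG.subtype).ker, inferInstance,
      Subgroup.FiniteIndex.index_ne_zero, hk⟩
  · rw [ball_eq]
    have hfin := (List.finite_length_le (Option L) n).image (fun u => ((u.map gG).prod : GG))
    rcases Nat.eq_zero_or_pos n with rfl | hn
    · have := (Set.ncard_pos hfin).2 ⟨_, [], by simp, rfl⟩
      rw [pow_zero]; exact_mod_cast this
    · have h1 := (growth ((n - 1) / 2)).trans (Set.ncard_le_ncard (Set.image_mono
        fun u (hu : u.length ≤ _) => show u.length ≤ n by omega) hfin)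
      calc (1.4 : ℝ) ^ n ≤ 1.4 ^ (2 * ((n - 1) / 2 + 1)) :=
            pow_le_pow_right₀ (by norm_num) (by omega)
        _ ≤ 2 ^ ((n - 1) / 2 + 1) := by
            rw [pow_mul]; exact pow_le_pow_left₀ (by norm_num) (by norm_num) _
        _ ≤ _ := by exact_mod_cast h1
  · intro ε hε
    obtain ⟨K, hK⟩ := pow_unbounded_of_one_lt (8 / ε) (show (1 : ℝ) < 2 by norm_num)
    refine ⟨8 ^ K, fun n hn g hg => ?_⟩
    have hg' : g ∈ _ := (ball_eq n).subset hg
    obtain ⟨u, hu, rfl⟩ := hg'
    have h0 : n ≠ 0 := by have : 0 < 8 ^ K := by positivity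
                          omega
    have h1 : 8 ^ Nat.log 8 n ≤ n := Nat.pow_log_le_self _ h0
    have h2 : n < 8 ^ (Nat.log 8 n + 1) := Nat.lt_pow_succ_log_self (by norm_num) _
    have h3 : K ≤ Nat.log 8 n := Nat.le_log_of_pow_le (by norm_num) hn
    generalize Nat.log 8 n = k at h1 h2 h3
    have h4 := orderOf_le_of_pow_eq_one (by positivity) (wordG_tor u k (by
      have : u.length ≤ n := hu
      rw [pow_succ] at h2; omega))
    have h5 : (orderOf ((u.map gG).prod : GG) : ℝ) ≤ 4 ^ (k + 1) * 2 := by exact_mod_cast h4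
    have h6 : (8 : ℝ) ^ k ≤ n := by exact_mod_cast h1
    have h7 : (2 : ℝ) ^ K ≤ 2 ^ k := pow_le_pow_right₀ (by norm_num) h3
    have h8 : (8 : ℝ) ^ k = 2 ^ k * 4 ^ k := by rw [← mul_pow]; norm_num
    have h9 : 8 ≤ ε * 2 ^ k := by
      rw [div_lt_iff₀ hε] at hK; nlinarith
    have h10 : (0 : ℝ) < 4 ^ k := by positivity
    refine h5.trans ?_
    rw [pow_succ]
    nlinarith [mul_le_mul_of_nonneg_left h6 hε.le]

end Pool.Agent.S00801
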