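-- Proof of the frozen statement S00840 (negation of the problem MP_1a5400_al).
import Pool.Statements.S00840

set_option autoImplicit false
open Pool Pool.MP_1a5400_al

namespace Pool.Agent.S00840

/-- Integer 2 by 2 matrices of determinant one. -/
@[ext] structure M2 where
  a : ℤ
  b : ℤ
  c : ℤ
  d : ℤ
  h : a * d - b * c = 1

instance : Mul M2 := ⟨fun x y => ⟨x.a * y.a + x.b * y.c, x.a * y.b + x.b * y.d,
  x.c * y.a + x.d * y.c, x.c * y.b + x.d * y.d, by
    have h1 := x.h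
    have h2 := y.h
    linear_combination (y.a * y.d - y.b * y.c) * h1 + h2⟩⟩

instance : One M2 := ⟨⟨1, 0, 0, 1, by norm_num⟩⟩

instance : Inv M2 := ⟨fun x => ⟨x.d, -x.b, -x.c, x.a, by
    have h1 := x.h
    linear_combination h1⟩⟩

@[simp] theorem mul_a (x y : M2) : (x * y).a = x.a * y.a + x.b * y.c := rfl
@[simp] theorem mul_b (x y : M2) : (x * y).b = x.a * y.b + x.b * y.d := rfl
@[simp] theorem mul_c (x y : M2) : (x * y).c = x.c * y.a + x.d * y.c := rfl
@[simp] theorem mul_d (x y : M2) : (x * y).d = x.c * y.b + x.d * y.d := rfl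
@[simp] theorem one_a : (1 : M2).a = 1 := rfl
@[simp] theorem one_b : (1 : M2).b = 0 := rfl
@[simp] theorem one_c : (1 : M2).c = 0 := rfl
@[simp] theorem one_d : (1 : M2).d = 1 := rfl
@[simp] theorem inv_a (x : M2) : (x⁻¹).a = x.d := rfl
@[simp] theorem inv_b (x : M2) : (x⁻¹).b = -x.b := rfl
@[simp] theorem inv_c (x : M2) : (x⁻¹).c = -x.c := rfl
@[simp] theorem inv_d (x : M2) : (x⁻¹).d = x.a := rfl

instance : Group M2 where
  mul_assoc x y z := by ext <;> simp <;> ring
  one_mul x := by ext <;> simp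
  mul_one x := by ext <;> simp
  inv_mul_cancel x := by
    have h1 := x.h
    ext <;> simp <;> linarith

/-- Nonzero integer vectors. -/
@[ext] structure V where
  x : ℤ
  y : ℤ
  h : ¬ (x = 0 ∧ y = 0)

instance : SMul M2 V := ⟨fun g v => ⟨g.a * v.x + g.b * v.y, g.c * v.x + g.d * v.y, by
  rintro ⟨h1, h2⟩
  have h := g.h
  apply v.h
  constructor
  · linear_combination g.d * h1 - g.b * h2 - v.x * h
  · linear_combination g.a * h2 - g.c * h1 - v.y * h⟩⟩

@[simp] theorem smul_x (g : M2) (v : V) : (g • v).x = g.a * v.x + g.b * v.y := rfl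
@[simp] theorem smul_y (g : M2) (v : V) : (g • v).y = g.c * v.x + g.d * v.y := rfl

instance : MulAction M2 V where
  one_smul v := by ext <;> simp
  mul_smul g k v := by ext <;> simp <;> ring

def T : M2 := ⟨1, 1, 0, 1, by norm_num⟩
def U : M2 := ⟨1, 0, 4, 1, by norm_num⟩

def gen : Fin 2 → M2 := ![T, U]

def XT : Set V := {v | v.y = 0 ∨ (0 < v.y ∧ v.y ≤ 2 * v.x) ∨ (v.y < 0 ∧ 2 * v.x ≤ v.y)}
def YT : Set V := {v | (0 < v.y ∧ 2 * v.x < - v.y) ∨ (v.y < 0 ∧ - v.y < 2 * v.x)}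
def XU : Set V := {v | (0 < v.y ∧ 0 ≤ v.x ∧ 2 * v.x < v.y) ∨ (v.y < 0 ∧ v.x ≤ 0 ∧ v.y < 2 * v.x)}
def YU : Set V := {v | (0 < v.y ∧ v.x < 0 ∧ - v.y ≤ 2 * v.x) ∨
  (v.y < 0 ∧ 0 < v.x ∧ 2 * v.x ≤ - v.y)}

open Pointwise in
theorem rho_inj : Function.Injective (FreeGroup.lift gen) := by
  refine FreeGroup.injective_lift_of_ping_pong gen (α := V) ![XT, XU] ![YT, YU] ?_ ?_ ?_ ?_ ?_ ?_
  · intro i
    fin_cases i
    · exact ⟨⟨1, 0, by simp⟩, by simp [XT]⟩
    · exact ⟨⟨0, 1, by simp⟩, by simp [XU]⟩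
  · intro i j hij
    fin_cases i <;> fin_cases j <;> simp [Function.onFun] at hij ⊢ <;>
      rw [Set.disjoint_left] <;> intro v h1 h2 <;>
      simp only [XT, XU, Set.mem_ofPred_eq] at h1 h2 <;> omega
  · intro i j hij
    fin_cases i <;> fin_cases j <;> simp [Function.onFun] at hij ⊢ <;>
      rw [Set.disjoint_left] <;> intro v h1 h2 <;>
      simp only [YT, YU, Set.mem_ofPred_eq] at h1 h2 <;> omega
  · intro i j
    fin_cases i <;> fin_cases j <;> simp <;>
      rw [Set.disjoint_left] <;> intro v h1 h2 <;>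
      simp only [XT, XU, YT, YU, Set.mem_ofPred_eq] at h1 h2 <;> omega
  · intro i
    fin_cases i
    · rintro w ⟨v, hv, rfl⟩
      have := v.h
      simp [gen, XT, YT, T] at hv ⊢
      omega
    · rintro w ⟨v, hv, rfl⟩
      have := v.h
      simp [gen, XU, YU, U] at hv ⊢
      omega
  · intro i
    fin_cases i
    · rintro w ⟨v, hv, rfl⟩
      have := v.h
      simp [gen, XT, YT, T] at hv ⊢
      omega
    · rintro w ⟨v, hv, rfl⟩
      have := v.h
      simp [gen, XU, YU, U] at hv ⊢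
      omega

/-- `g * A = B * g` for the matrix `g = [[2,1],[-8,-3]]` of determinant two. -/
def Cj (A B : M2) : Prop :=
  2 * A.a + A.c = 2 * B.a - 8 * B.b ∧ 2 * A.b + A.d = B.a - 3 * B.b ∧
  -8 * A.a - 3 * A.c = 2 * B.c - 8 * B.d ∧ -8 * A.b - 3 * A.d = B.c - 3 * B.d

theorem Cj.one : Cj 1 1 := by simp [Cj]

theorem Cj.mul {A B A' B' : M2} (h : Cj A B) (h' : Cj A' B') : Cj (A * A') (B * B') := by
  obtain ⟨h1, h2, h3, h4⟩ := h
  obtain ⟨k1, k2, k3, k4⟩ := h'
  refine ⟨?_, ?_, ?_, ?_⟩ <;> simp only [mul_a, mul_b, mul_c, mul_d]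
  · linear_combination A'.a * h1 + A'.c * h2 + B.a * k1 + B.b * k3
  · linear_combination A'.b * h1 + A'.d * h2 + B.a * k2 + B.b * k4
  · linear_combination A'.a * h3 + A'.c * h4 + B.c * k1 + B.d * k3
  · linear_combination A'.b * h3 + A'.d * h4 + B.c * k2 + B.d * k4

theorem Cj.inv {A B : M2} (h : Cj A B) : Cj A⁻¹ B⁻¹ := by
  obtain ⟨h1, h2, h3, h4⟩ := h
  refine ⟨?_, ?_, ?_, ?_⟩ <;> simp only [inv_a, inv_b, inv_c, inv_d] <;> omega

theorem Cj.right_unique {A B B' : M2} (h : Cj A B) (h' : Cj A B') : B = B' := by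
  obtain ⟨h1, h2, h3, h4⟩ := h
  obtain ⟨k1, k2, k3, k4⟩ := h'
  ext <;> omega

theorem Cj.left_unique {A A' B : M2} (h : Cj A B) (h' : Cj A' B) : A = A' := by
  obtain ⟨h1, h2, h3, h4⟩ := h
  obtain ⟨k1, k2, k3, k4⟩ := h'
  ext <;> omega

abbrev F := FreeGroup (Fin 2)

def rho : F →* M2 := FreeGroup.lift gen

def t : F := FreeGroup.of 0
def u : F := FreeGroup.of 1

@[simp] theorem rho_t : rho t = T := by simp [rho, t, gen]
@[simp] theorem rho_u : rho u = U := by simp [rho, u, gen]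

/-- The domain of the virtual endomorphism. -/
def K : Subgroup F where
  carrier := {x | ∃ y : F, Cj (rho x) (rho y)}
  one_mem' := ⟨1, by simpa using Cj.one⟩
  mul_mem' := by
    rintro x x' ⟨y, hy⟩ ⟨y', hy'⟩
    exact ⟨y * y', by simpa using hy.mul hy'⟩
  inv_mem' := by
    rintro x ⟨y, hy⟩
    exact ⟨y⁻¹, by simpa using hy.inv⟩

theorem t_mem : t ∈ K :=
  ⟨(u⁻¹ * t) * (t * t) * (u⁻¹ * t)⁻¹, by simp [Cj, T, U]⟩

theorem uu_mem : u * u ∈ K :=
  ⟨(u⁻¹ * t) * u * (u⁻¹ * t)⁻¹, by simp [Cj, T, U]⟩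

theorem utu_mem : u * t * u⁻¹ ∈ K :=
  ⟨(u⁻¹ * t) * (u * t⁻¹ * u * t⁻¹) * (u⁻¹ * t)⁻¹, by simp [Cj, T, U]⟩

theorem rho_cong (y : F) : 4 ∣ (rho y).c ∧ 4 ∣ (rho y).a - 1 ∧ 4 ∣ (rho y).d - 1 := by
  induction y using FreeGroup.induction_on with
  | C1 => simp
  | of i =>
    fin_cases i
    · have : rho (FreeGroup.of 0) = T := rho_t
      simp [this, T]
    · have : rho (FreeGroup.of 1) = U := rho_u
      simp [this, U]
  | inv_of i hi =>
    obtain ⟨h1, h2, h3⟩ := hi
    simp only [map_inv, inv_a, inv_c, inv_d]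
    exact ⟨(dvd_neg).2 h1, h3, h2⟩
  | mul x y hx hy =>
    obtain ⟨⟨p1, h1⟩, ⟨p2, h2⟩, ⟨p3, h3⟩⟩ := hx
    obtain ⟨⟨q1, k1⟩, ⟨q2, k2⟩, ⟨q3, k3⟩⟩ := hy
    simp only [map_mul, mul_a, mul_c, mul_d]
    refine ⟨⟨p1 * (rho y).a + (rho x).d * q1, ?_⟩,
      ⟨p2 * (rho y).a + q2 + (rho x).b * q1, ?_⟩, ⟨p1 * (rho y).b + p3 * (rho y).d + q3, ?_⟩⟩
    · linear_combination (rho y).a * h1 + (rho x).d * k1
    · linear_combination (rho y).a * h2 + k2 + (rho x).b * k1
    · linear_combination (rho y).b * h1 + (rho y).d * h3 + k3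

theorem u_not_mem : u ∉ K := by
  rintro ⟨y, h1, h2, h3, h4⟩
  have h := (rho_cong y).1
  simp only [rho_u, U] at h1 h2 h3 h4
  omega

theorem cover (x : F) : x ∈ K ∨ x * u ∈ K := by
  have key : ∀ g : F, ∀ x : F, ((x ∈ K ∨ x * u ∈ K) ↔ (x * g ∈ K ∨ x * g * u ∈ K)) := by
    intro g
    induction g using FreeGroup.induction_on with
    | C1 => simp
    | of i =>
      intro x
      have h1 := t_mem
      have h2 := uu_mem
      have h3 := utu_mem
      have h4 : u⁻¹ * t * u ∈ K := by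
        have : u⁻¹ * t * u = (u * u)⁻¹ * (u * t * u⁻¹) * (u * u) := by group
        rw [this]
        exact K.mul_mem (K.mul_mem (K.inv_mem h2) h3) h2
      fin_cases i
      · change _ ↔ (x * t ∈ K ∨ x * t * u ∈ K)
        have e : x * t * u = (x * u) * (u⁻¹ * t * u) := by group
        rw [e, K.mul_mem_cancel_right h1, K.mul_mem_cancel_right h4]
      · change _ ↔ (x * u ∈ K ∨ x * u * u ∈ K)
        have e : x * u * u = x * (u * u) := by group
        rw [e, K.mul_mem_cancel_right h2, or_comm]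
    | inv_of i hi =>
      intro x
      have := hi (x * (FreeGroup.of i)⁻¹)
      simpa using this.symm
    | mul g k hg hk =>
      intro x
      rw [hg x, hk (x * g), mul_assoc x g k]
  have := (key x 1).1 (Or.inl K.one_mem)
  simpa using this

theorem K_index : K.index = 2 := by
  rw [Subgroup.index_eq_two_iff]
  refine ⟨u, fun b => ?_⟩
  rcases cover b with h | h
  · refine Or.inr ⟨h, fun h' => u_not_mem ?_⟩
    exact (K.mul_mem_cancel_left h).1 h'
  · refine Or.inl ⟨h, fun h' => u_not_mem ?_⟩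
    exact (K.mul_mem_cancel_left h').1 h

noncomputable def f0 (x : K) : F := Classical.choose x.2

theorem f0_spec (x : K) : Cj (rho x) (rho (f0 x)) := Classical.choose_spec x.2

theorem rho_injective : Function.Injective rho := rho_inj

noncomputable def f1 : K →* F := MonoidHom.mk' f0 (by
  intro x y
  apply rho_injective
  have h1 := f0_spec (x * y)
  have h2 := (f0_spec x).mul (f0_spec y)
  rw [map_mul]
  refine Cj.right_unique h1 ?_
  simpa using h2)

theorem f1_spec (x : K) : Cj (rho x) (rho (f1 x)) := f0_spec x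

theorem f1_inj : Function.Injective f1 := by
  intro x y h
  apply Subtype.ext
  apply rho_injective
  have h1 := f1_spec x
  rw [h] at h1
  exact Cj.left_unique h1 (f1_spec y)

theorem seq_zero (s : ℕ → ℤ) (h : ∀ n, 2 * s (n + 2) + 3 * s (n + 1) + 2 * s n = 0) :
    s 0 = 0 := by
  have hdiv : ∀ k : ℕ, ∀ s : ℕ → ℤ, (∀ n, 2 * s (n + 2) + 3 * s (n + 1) + 2 * s n = 0) →
      (4 : ℤ) ^ k ∣ 2 * s 1 ^ 2 + 3 * s 1 * s 0 + 2 * s 0 ^ 2 := by
    intro k
    induction k with
    | zero => intro s _; simp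
    | succ k ih =>
      intro s hs
      have he : ∀ n, 2 ∣ s (n + 1) := by
        intro n
        have := hs n
        omega
      have hs' : ∀ n, s (n + 1) = 2 * (s (n + 1) / 2) := by
        intro n
        have := he n
        omega
      have h2 := ih (fun n => s (n + 1) / 2) (by
        intro n
        have a1 := hs (n + 1)
        have a2 := hs' n
        have a3 := hs' (n + 1)
        have a4 := hs' (n + 2)
        simp only [add_assoc] at *
        norm_num at *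
        omega)
      obtain ⟨c, hc⟩ := h2
      refine ⟨c, ?_⟩
      have a0 := hs 0
      have a1 := hs' 0
      have a2 := hs' 1
      simp only [zero_add] at a0 a1 hc
      generalize s (1 + 1) / 2 = p at *
      generalize s 1 / 2 = q at *
      have e2 : s 2 = 2 * p := a2
      have e0 : s 0 = -2 * p - 3 * q := by omega
      rw [a1, e0, pow_succ]
      linear_combination 4 * hc
  have hQ : 2 * s 1 ^ 2 + 3 * s 1 * s 0 + 2 * s 0 ^ 2 = 0 := by
    by_contra hne
    set Q := 2 * s 1 ^ 2 + 3 * s 1 * s 0 + 2 * s 0 ^ 2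
    have h1 := hdiv Q.natAbs s h
    have h2 := Int.le_of_dvd (abs_pos.2 hne) ((dvd_abs _ _).2 h1)
    have h3 : Q.natAbs < 4 ^ Q.natAbs := Nat.lt_pow_self (by norm_num)
    have h4 : ((Q.natAbs : ℕ) : ℤ) < ((4 ^ Q.natAbs : ℕ) : ℤ) := by exact_mod_cast h3
    push_cast at h4
    omega
  nlinarith [sq_nonneg (4 * s 1 + 3 * s 0), sq_nonneg (s 0)]

theorem orbit_trivial (M : ℕ → M2) (hM : ∀ n, Cj (M n) (M (n + 1))) (h4 : 4 ∣ (M 0).a - 1) :
    M 0 = 1 := by
  have h1 : (M 0).c + 8 * (M 0).b = 0 := by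
    apply seq_zero (fun n => (M n).c + 8 * (M n).b)
    intro n
    obtain ⟨a1, a2, a3, a4⟩ := hM n
    obtain ⟨b1, b2, b3, b4⟩ := hM (n + 1)
    simp only [add_assoc] at *
    norm_num at *
    omega
  have h2 : (M 0).d - (M 0).a + 5 * (M 0).b = 0 := by
    apply seq_zero (fun n => (M n).d - (M n).a + 5 * (M n).b)
    intro n
    obtain ⟨a1, a2, a3, a4⟩ := hM n
    obtain ⟨b1, b2, b3, b4⟩ := hM (n + 1)
    simp only [add_assoc] at *
    norm_num at *
    omega
  have h := (M 0).h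
  have hc : (M 0).c = -8 * (M 0).b := by omega
  have hd : (M 0).d = (M 0).a - 5 * (M 0).b := by omega
  rw [hc, hd] at h
  have hb : (M 0).b = 0 := by nlinarith [sq_nonneg (2 * (M 0).a - 5 * (M 0).b), sq_nonneg (M 0).b]
  rw [hb] at h hc hd
  have ha : (M 0).a = 1 := by
    have h' : (M 0).a * (M 0).a = 1 := by linarith
    rcases Int.eq_one_or_neg_one_of_mul_eq_one h' with h'' | h'' <;> omega
  ext <;> simp <;> omega

/-- The negation of the preceding statement: For every index-2 subgroup S of the free group on two generators, every subgroup R and every isomorphism f from S onto R, some nontrivial subgroup H inside S satisfies f(H) ⊆ H. -/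
theorem result :
    ¬ (∀ (S R : Subgroup (FreeGroup (Fin 2))), S.index = 2 →
      ∀ f : S ≃* R,
        ∃ H : Subgroup (FreeGroup (Fin 2)),
          H ≤ S ∧ H ≠ ⊥ ∧
            ∀ x : S, (x : FreeGroup (Fin 2)) ∈ H → ((f x : R) : FreeGroup (Fin 2)) ∈ H) := by
  intro hall
  obtain ⟨H, hHK, hne, hinv⟩ := hall K f1.range K_index (MonoidHom.ofInjective f1_inj)
  apply hne
  rw [eq_bot_iff]
  intro x hx
  have hinv' : ∀ x : K, (x : F) ∈ H → f1 x ∈ H := fun x hx => hinv x hx
  let step : H → H := fun y => ⟨f1 ⟨y.1, hHK y.2⟩, hinv' _ y.2⟩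
  let M : ℕ → M2 := fun n => rho (step^[n] ⟨x, hx⟩).1
  have hM : ∀ n, Cj (M n) (M (n + 1)) := by
    intro n
    simp only [M, Function.iterate_succ_apply']
    exact f1_spec ⟨_, hHK (step^[n] ⟨x, hx⟩).2⟩
  have h0 := orbit_trivial M hM (rho_cong x).2.1
  have h1 : rho x = rho 1 := by rw [map_one]; exact h0
  exact Subgroup.mem_bot.2 (rho_injective h1)

end Pool.Agent.S00840
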