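import Pool.Statements.S00865
import Pool.Agent.Lib.helper15.Fact

set_option autoImplicit false
open Pool Pool.MP_1d00e6_al

namespace Pool.Agent.S00865

open Pool.Agent.Lib.helper15.Fact Function RegularWreathProduct

def GC (p q : ℕ) (S : Type) [Group S] : Prop :=
  Finite S ∧ Group.IsSolvable S ∧ ∃ a b : ℕ, ∀ x : S, x ^ (p ^ a * q ^ b) = 1
def PC (p : ℕ) (S : Type) [Group S] : Prop := Finite S ∧ IsPGroup p S

variable {p q : ℕ}

lemma GC_of_PC [Fact p.Prime] (S : Type) [Group S] (h : PC p S) : GC p q S := by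
  obtain ⟨h1, h2⟩ := h
  have := h2.isNilpotent
  obtain ⟨a, ha⟩ := IsPGroup.iff_card.1 h2
  exact ⟨h1, inferInstance, a, 0, fun x => by rw [pow_zero, mul_one, ← ha, pow_card_eq_one']⟩

lemma GC_wr (D Q : Type) [Group D] [Group Q] (hD : GC p q D) (hQ : GC p q Q) : GC p q (D ≀ᵣ Q) := by
  obtain ⟨h1, h2, a, b, h3⟩ := hD
  obtain ⟨h4, h5, c, d, h6⟩ := hQ
  refine ⟨inferInstance, wr_solvable D Q h2 h5, c + a, d + b, fun x => ?_⟩
  rw [← wr_pow h3 h6 x]; congr 1; ring

lemma GC_prod (D Q : Type) [Group D] [Group Q] (hD : GC p q D) (hQ : GC p q Q) : GC p q (D × Q) := by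
  obtain ⟨h1, h2, a, b, h3⟩ := hD
  obtain ⟨h4, h5, c, d, h6⟩ := hQ
  refine ⟨inferInstance, inferInstance, c + a, d + b, fun x => Prod.ext ?_ ?_⟩
  · have : p ^ (c + a) * q ^ (d + b) = (p ^ a * q ^ b) * (p ^ c * q ^ d) := by ring
    rw [Prod.pow_fst, this, pow_mul, h3, one_pow]; rfl
  · have : p ^ (c + a) * q ^ (d + b) = (p ^ c * q ^ d) * (p ^ a * q ^ b) := by ring
    rw [Prod.pow_snd, this, pow_mul, h6, one_pow]; rfl

lemma PC_range {A B : Type} [Group A] [Group B] (f : A →* B) (h : PC p A) : PC p f.range := by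
  have := h.1
  exact ⟨(Set.finite_range _).to_subtype, h.2.of_surjective _ f.rangeRestrict_surjective⟩

lemma PC_map {A B : Type} [Group A] [Group B] (f : A →* B) (P : Subgroup A) (h : PC p P) :
    PC p (P.map f) := by
  have := h.1
  exact ⟨((Set.toFinite (P : Set A)).image _).to_subtype, h.2.map f⟩

def DC {T : Type} [Group T] (P1 P2 : Subgroup T) (u v : T) : Prop :=
  ∃ a ∈ P1, ∃ b ∈ P2, v = a * u * b

lemma DC.refl {T : Type} [Group T] (P1 P2 : Subgroup T) (u : T) : DC P1 P2 u u :=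
  ⟨1, P1.one_mem, 1, P2.one_mem, by simp⟩

lemma DC.symm {T : Type} [Group T] {P1 P2 : Subgroup T} {u v : T} (h : DC P1 P2 u v) : DC P1 P2 v u := by
  obtain ⟨a, ha, b, hb, rfl⟩ := h
  exact ⟨a⁻¹, P1.inv_mem ha, b⁻¹, P2.inv_mem hb, by group⟩

lemma DC.trans {T : Type} [Group T] {P1 P2 : Subgroup T} {u v w : T} (h : DC P1 P2 u v)
    (h' : DC P1 P2 v w) : DC P1 P2 u w := by
  obtain ⟨a, ha, b, hb, rfl⟩ := h
  obtain ⟨c, hc, d, hd, rfl⟩ := h'
  exact ⟨c * a, P1.mul_mem hc ha, b * d, P2.mul_mem hb hd, by group⟩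

lemma DC_base {D Q : Type} [Group D] [Group Q] (R1 R2 : Subgroup D) (u v : D ≀ᵣ Q)
    (h0 : v.right = u.right) (h : ∀ x, DC R1 R2 (u.left x) (v.left x)) :
    DC ((wmap R1.subtype).comp (wbase R1 Q)).range ((wmap R2.subtype).comp (wbase R2 Q)).range u v := by
  choose a ha b hb h using h
  refine ⟨_, ⟨fun x => ⟨a x, ha x⟩, rfl⟩, _, ⟨fun x => ⟨b (u.right * x), hb _⟩, rfl⟩, ?_⟩
  ext x
  · simp [h]
  · simp [h0]

lemma DC_shift {D Q : Type} [Group D] [Group Q] (R1 R2 : Subgroup D) (f g : Q → D) (c : Q)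
    (h : ∀ x, DC R1 R2 (f (c * x)) (g x)) :
    DC (wmap R1.subtype).range (wmap R2.subtype).range (wbase D Q f) (wbase D Q g) := by
  choose a ha b hb h using h
  refine ⟨_, ⟨⟨fun x => ⟨a x, ha x⟩, c⁻¹⟩, rfl⟩, _, ⟨⟨fun x => ⟨b (c⁻¹ * x), hb _⟩, c⟩, rfl⟩, ?_⟩
  ext x
  · simp [h]
  · simp

def Z (p q : ℕ) {S : Type} [Group S] (N : Subgroup S) (a : S) (k : ℕ) : Prop :=
  ∃ (T : Type) (_ : Group T) (P1 P2 : Subgroup T) (ι : S →* T), GC p q T ∧ PC p P1 ∧ PC p P2 ∧
    Injective ι ∧ (∀ x, ∀ n ∈ N, DC P1 P2 (ι x) (ι (x * n))) ∧ ∀ j ≤ k, DC P1 P2 1 (ι (a ^ j))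

lemma Z_succ [hp : Fact p.Prime] {S : Type} [Group S] (N : Subgroup S) (a : S) (o : ℕ) (ho : 0 < o)
    (ha : a ^ o = 1) (k : ℕ) (h : Z p q N a k) : Z p q N a (k + 1) := by
  obtain ⟨T, _, P1, P2, ι, h1, h2, h3, h4, h5, h6⟩ := h
  have hm : o < p ^ o := Nat.lt_pow_self hp.out.one_lt
  have : NeZero (p ^ o) := ⟨by omega⟩
  let C := Multiplicative (ZMod (p ^ o))
  have hC : PC p C := ⟨inferInstance, IsPGroup.of_card (n := o) (by simp [C])⟩
  let φ : S →* (C → T) := MonoidHom.mk' (fun x i => if i.toAdd.val < o then ι x else 1) (by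
    intro x y; funext i; simp only [Pi.mul_apply]; split_ifs <;> simp)
  let u : C → T := fun i => if i.toAdd.val < o then ι (a ^ i.toAdd.val) else 1
  let W1 := (wmap (Q := C) P1.subtype).range
  let W2 := (wmap (Q := C) P2.subtype).range
  have := h2.1
  have := h3.1
  have hrel : ∀ x y, DC W1 W2 (wbase T C (u * φ x)) (wbase T C (u * φ y)) →
      DC (W1.map (MulAut.conj (wbase T C u)⁻¹).toMonoidHom) W2 (wbase T C (φ x)) (wbase T C (φ y)) := by
    rintro x y ⟨c, hc, d, hd, e⟩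
    refine ⟨_, ⟨c, hc, rfl⟩, d, hd, ?_⟩
    rw [map_mul, map_mul] at e
    show _ = (wbase T C u)⁻¹ * c * (wbase T C u)⁻¹⁻¹ * _ * d
    generalize wbase T C u = U at *
    rw [inv_inv, ← inv_mul_cancel_left U (wbase T C (φ y)), e]
    simp only [mul_assoc]
  have hl : ∀ x i, (u * φ x) i = if i.toAdd.val < o then ι (a ^ i.toAdd.val * x) else 1 := by
    intro x i
    show u i * (if i.toAdd.val < o then ι x else 1) = _
    simp only [u]; split_ifs <;> simp
  refine ⟨T ≀ᵣ C, inferInstance, W1.map (MulAut.conj (wbase T C u)⁻¹).toMonoidHom, W2,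
    (wbase T C).comp φ, GC_wr _ _ h1 (GC_of_PC _ hC),
    PC_map _ _ (PC_range _ ⟨inferInstance, wr_pgroup h2.2 hC.2⟩),
    PC_range _ ⟨inferInstance, wr_pgroup h3.2 hC.2⟩, (wbase_inj _ _).comp ?_, ?_, ?_⟩
  · intro x y hxy
    have h7 := congrFun hxy 1
    apply h4
    simpa [φ, ho] using h7
  · intro x n hn
    refine hrel _ _ (DC_shift _ _ _ _ 1 fun i => ?_)
    rw [one_mul, hl, hl]
    split_ifs
    · rw [← mul_assoc]; exact h5 _ n hn
    · exact DC.refl _ _ _
  · have step : ∀ j ≤ k, DC W1 W2 (wbase T C (u * φ (a ^ j))) (wbase T C (u * φ (a ^ (j + 1)))) := by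
      intro j hj
      refine DC_shift _ _ _ _ (Multiplicative.ofAdd 1) fun i => ?_
      rw [hl, hl]
      have hv : (Multiplicative.ofAdd (1 : ZMod (p ^ o)) * i).toAdd.val = (1 + i.toAdd.val) % p ^ o := by
        rw [toAdd_mul, ZMod.val_add, toAdd_ofAdd, ZMod.val_one'' (by omega)]
      have hi := ZMod.val_lt i.toAdd
      rw [hv]
      generalize i.toAdd.val = v at *
      by_cases c1 : 1 + v < p ^ o
      · rw [Nat.mod_eq_of_lt c1]
        by_cases c2 : 1 + v < o
        · rw [if_pos c2, if_pos (by omega), ← pow_add, ← pow_add]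
          have : 1 + v + j = v + (j + 1) := by ring
          rw [this]; exact DC.refl _ _ _
        · rw [if_neg c2]
          split_ifs with c3
          · have : v + (j + 1) = o + j := by omega
            rw [← pow_add, this, pow_add, ha, one_mul]; exact h6 j hj
          · exact DC.refl _ _ _
      · have : 1 + v = p ^ o := by omega
        rw [this, Nat.mod_self, if_pos ho, if_neg (by omega), pow_zero, one_mul]
        exact (h6 j hj).symm
    intro j hj
    rw [← map_one ((wbase T C).comp φ)]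
    refine hrel _ _ ?_
    induction j with
    | zero => rw [pow_zero]; exact DC.refl _ _ _
    | succ j ih => exact (ih (by omega)).trans (step j (by omega))

def Bs (p q : ℕ) (S : Type) [Group S] : Prop :=
  ∃ (T : Type) (_ : Group T) (P1 P2 : Subgroup T) (ι : S →* T), GC p q T ∧ PC p P1 ∧ PC p P2 ∧
    Injective ι ∧ ∀ y, ∃ a ∈ P1, ∃ b ∈ P2, ι y = a * b

lemma base [hp : Fact p.Prime] (n : ℕ) : ∀ (S : Type) [Group S], GC p q S → Nat.card S = n →
    Bs p q S := by
  induction n using Nat.strong_induction_on with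
  | _ n ih =>
    intro S _ hS hn
    obtain ⟨h1, h2, e1, e2, h3⟩ := hS
    rcases subsingleton_or_nontrivial S with h | h
    · exact ⟨S, inferInstance, ⊥, ⊥, MonoidHom.id S, ⟨h1, h2, e1, e2, h3⟩, ⟨inferInstance, IsPGroup.of_bot⟩,
        ⟨inferInstance, IsPGroup.of_bot⟩, injective_id,
        fun y => ⟨1, Subgroup.one_mem _, 1, Subgroup.one_mem _, Subsingleton.elim _ _⟩⟩
    obtain ⟨N, hN, hcN⟩ := (eq_top_or_exists_le_coatom (commutator S)).resolve_left
      (Group.IsSolvable.commutator_lt_top_of_nontrivial S).ne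
    have hNn : N.Normal := Subgroup.Normal.of_commutator_le S hcN
    obtain ⟨a, ha⟩ : ∃ a, a ∉ N := by
      by_contra hc
      push Not at hc
      exact hN.1 (eq_top_iff.2 fun x _ => hc x)
    have htop : Subgroup.zpowers a ⊔ N = ⊤ :=
      hN.2 _ (lt_of_le_of_ne le_sup_right fun e => ha (by
        rw [e]; exact Subgroup.mem_sup_left (Subgroup.mem_zpowers a)))
    let π := QuotientGroup.mk' N
    have hker : π.ker = N := QuotientGroup.ker_mk' N
    obtain ⟨T, _, R1, R2, ι, g1, g2, g3, g4, g5⟩ := ih (Nat.card π.ker) (by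
        rw [← hn, hker]
        exact Finite.card_subtype_lt ha) π.ker
      ⟨inferInstance, inferInstance, e1, e2, fun x => Subtype.ext (h3 x)⟩ rfl
    have hσ : ∀ x : S ⧸ N, π x.out = x := fun x => QuotientGroup.out_eq' x
    have := g2.1
    have := g3.1
    have hpi : ∀ R : Subgroup T, PC p R → PC p ((S ⧸ N) → R) := by
      rintro R ⟨_, hR⟩
      obtain ⟨c, hc⟩ := IsPGroup.iff_card.1 hR
      exact ⟨inferInstance, IsPGroup.of_card (n := c * Nat.card (S ⧸ N))
        (by rw [Nat.card_fun, hc, pow_mul])⟩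
    have z0 : Z p q N a 0 := by
      refine ⟨T ≀ᵣ (S ⧸ N), inferInstance, ((wmap R1.subtype).comp (wbase R1 _)).range,
        ((wmap R2.subtype).comp (wbase R2 _)).range, kk π Quotient.out ι hσ,
        GC_wr _ _ g1 ⟨inferInstance, inferInstance, e1, e2, fun x => ?_⟩,
        PC_range _ (hpi _ g2), PC_range _ (hpi _ g3), kk_inj _ _ _ _ g4, fun x n hn => ?_, fun j hj => ?_⟩
      · obtain ⟨y, rfl⟩ := QuotientGroup.mk'_surjective N x
        rw [← map_pow, h3, map_one]
      · apply DC_base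
        · have : π n = 1 := by rw [← MonoidHom.mem_ker, hker]; exact hn
          simp [this]
        · intro y
          have h7 : ∀ z, DC R1 R2 1 (ι z) := fun z => by
            obtain ⟨c, hc, d, hd, e⟩ := g5 z
            exact ⟨c, hc, d, hd, by rw [e, mul_one]⟩
          rw [kk_left, kk_left]
          exact (h7 _).symm.trans (h7 _)
      · rw [Nat.le_zero.1 hj, pow_zero, map_one]; exact DC.refl _ _ _
    have zk : ∀ k, Z p q N a k := by
      intro k
      induction k with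
      | zero => exact z0
      | succ k ih => exact Z_succ N a (orderOf a) (orderOf_pos a) (pow_orderOf_eq_one a) k ih
    obtain ⟨T', _, P1, P2, ι', k1, k2, k3, k4, k5, k6⟩ := zk (orderOf a)
    refine ⟨T', inferInstance, P1, P2, ι', k1, k2, k3, k4, fun y => ?_⟩
    have hy : y ∈ ((Subgroup.zpowers a ⊔ N : Subgroup S) : Set S) := by rw [htop]; trivial
    rw [Subgroup.mul_normal] at hy
    obtain ⟨x, hx, m, hm, rfl⟩ := hy
    classical
    obtain ⟨j, hj, rfl⟩ := (mem_zpowers_iff_mem_range_orderOf.1 hx |> Finset.mem_image.1)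
    obtain ⟨c, hc, d, hd, e⟩ := (k6 j (Finset.mem_range.1 hj).le).trans (k5 _ m hm)
    exact ⟨c, hc, d, hd, by rw [mul_one] at e; exact e⟩


/-- For all distinct primes p, q there is a torsion group whose element orders are of the form p^a q^b, which is neither a p-group nor a q-group, whose finitely generated subgroups are solvable, and which equals AB for two p-subgroups A, B. -/
theorem result :
    ∀ p q : ℕ, p.Prime → q.Prime → p ≠ q →
      ∃ (G : Type) (_ : Group G),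
        Monoid.IsTorsion G ∧
        (∀ g : G, ∃ a b : ℕ, orderOf g = p ^ a * q ^ b) ∧
        ¬ IsPGroup p G ∧ ¬ IsPGroup q G ∧
        (∀ s : Finset G, IsSolvable (Subgroup.closure (s : Set G))) ∧
        ∃ A B : Subgroup G, IsPGroup p A ∧ IsPGroup p B ∧
          ∀ g : G, ∃ a ∈ A, ∃ b ∈ B, g = a * b := by
  intro p q hp hq hpq
  have := Fact.mk hp
  have := Fact.mk hq
  have hyp := hyp_of_base (GC p q) (PC p) (fun G _ h => by have := h.1; infer_instance) (fun G _ h => h.1)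
    (fun P1 P2 Q _ _ _ ⟨_, h1⟩ ⟨_, h2⟩ ⟨_, h⟩ => ⟨inferInstance, wr_pgroup (prod_pgroup h1 h2) h⟩)
    (fun T P1 P2 Q _ _ _ _ h h1 h2 h' =>
      GC_wr _ _ (GC_prod _ _ h (GC_prod _ _ (GC_of_PC _ h1) (GC_of_PC _ h2))) (GC_of_PC _ h'))
    (fun S _ hS Y _ => by
      obtain ⟨T, _, P1, P2, ι, a1, a2, a3, a4, a5⟩ := base _ S hS rfl
      exact ⟨T, inferInstance, P1, P2, ι, a1, a2, a3, a4, fun y _ => a5 y⟩)
  have : NeZero (p * q) := ⟨mul_ne_zero hp.ne_zero hq.ne_zero⟩
  obtain ⟨G, _, A, B, h1, ⟨j, hj⟩, h2⟩ := limit hyp (st0 (Multiplicative (ZMod (p * q))))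
    ⟨⟨(inferInstance : Finite (Multiplicative (ZMod (p * q)))),
      (inferInstance : Group.IsSolvable (Multiplicative (ZMod (p * q)))), 1, 1,
      fun x : Multiplicative (ZMod (p * q)) => by
        have := pow_card_eq_one' (x := x)
        rw [show Nat.card (Multiplicative (ZMod (p * q))) = p ^ 1 * q ^ 1 by simp] at this
        exact this⟩,
      (inferInstance : Finite Unit), fun x : Unit => ⟨0, rfl⟩⟩
  have hord : orderOf (j (Multiplicative.ofAdd (1 : ZMod (p * q)))) = p * q := by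
    rw [orderOf_injective j hj]
    exact ZMod.addOrderOf_one (p * q)
  have hex : ∀ g : G, ∃ a b : ℕ, g ^ (p ^ a * q ^ b) = 1 := by
    intro g
    obtain ⟨t, ht, k, -, h3, -⟩ := h2 {g} (Set.finite_singleton g)
    obtain ⟨x, rfl⟩ := h3 g rfl
    obtain ⟨a, b, h⟩ := ht.1.2.2
    exact ⟨a, b, by rw [← map_pow, h, map_one]⟩
  have hnp : ∀ r s : ℕ, r.Prime → s.Prime → s ≠ r → s ∣ p * q → ¬ IsPGroup r G := by
    intro r s hr hs hne hd h
    obtain ⟨k, hk⟩ := h (j (Multiplicative.ofAdd (1 : ZMod (p * q))))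
    have := hd.trans (hord ▸ orderOf_dvd_of_pow_eq_one hk)
    exact hne ((Nat.prime_dvd_prime_iff_eq hs hr).1 (hs.dvd_of_dvd_pow this))
  refine ⟨G, inferInstance, fun g => ?_, fun g => ?_, hnp p q hp hq hpq.symm (dvd_mul_left _ _),
    hnp q p hq hp hpq (dvd_mul_right _ _), fun S => ?_, A, B, ?_, ?_, h1⟩
  · obtain ⟨a, b, h⟩ := hex g
    exact isOfFinOrder_iff_pow_eq_one.2 ⟨_, mul_pos (pow_pos hp.pos _) (pow_pos hq.pos _), h⟩
  · obtain ⟨a, b, h⟩ := hex g
    obtain ⟨x, y, hx, hy, e⟩ := (Nat.dvd_mul).1 (orderOf_dvd_of_pow_eq_one h)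
    obtain ⟨c, -, rfl⟩ := (Nat.dvd_prime_pow hp).1 hx
    obtain ⟨d, -, rfl⟩ := (Nat.dvd_prime_pow hq).1 hy
    exact ⟨c, d, e.symm⟩
  · obtain ⟨t, ht, k, -, h3, -⟩ := h2 S S.finite_toSet
    have := ht.1.2.1
    have : Group.IsSolvable k.range := Group.isSolvable_of_surjective k.rangeRestrict_surjective
    exact Group.isSolvable_of_isSolvable_injective
      (Subgroup.inclusion_injective ((Subgroup.closure_le k.range).2 h3))
  · rintro ⟨a, ha⟩
    obtain ⟨t, ht, k, -, -, h3, -⟩ := h2 {a} (Set.finite_singleton a)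
    obtain ⟨x, rfl⟩ := h3 a rfl ha
    obtain ⟨e, he⟩ := ht.2.2 x
    exact ⟨e, Subtype.ext (by rw [Subgroup.coe_pow, ← map_pow, he, map_one]; rfl)⟩
  · rintro ⟨a, ha⟩
    obtain ⟨t, ht, k, -, -, -, h3⟩ := h2 {a} (Set.finite_singleton a)
    obtain ⟨x, rfl⟩ := h3 a rfl ha
    obtain ⟨e, he⟩ := ht.2.2 x
    exact ⟨e, Subtype.ext (by rw [Subgroup.coe_pow, ← map_pow, he, map_one]; rfl)⟩

end Pool.Agent.S00865
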