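import Pool.Statements.S00878
-- import your own Pool.Agent.* helpers here

set_option autoImplicit false
open scoped Pointwise
open Pool Pool.MP_1dd661_al

namespace Pool.Agent.S00878

open Topology Filter Set

abbrev T (k : ℕ) : Type := ZMod (k + 1) × ZMod (k + 1)
abbrev X : Type := Σ k : ℕ, T k × ℤ
abbrev F : Type := Multiplicative (ZMod 2)
abbrev G : Type := X → F

def cs (k : ℕ) : ℤ × ℤ →+ T k := AddMonoidHom.prodMap (Int.castAddHom _) (Int.castAddHom _)

lemma cs_surj (k : ℕ) (v : T k) : ∃ w, cs k w = v := by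
  obtain ⟨a, ha⟩ := ZMod.intCast_surjective v.1
  obtain ⟨b, hb⟩ := ZMod.intCast_surjective v.2
  exact ⟨(a, b), Prod.ext ha hb⟩

lemma cs_tors (k : ℕ) (v : T k) : (k + 1) • v = 0 := by
  ext <;> simp

/-- translations of the tori -/
def tr (w : ℤ × ℤ) : Equiv.Perm X :=
  Equiv.sigmaCongrRight fun k => (Equiv.addRight (cs k w)).prodCongr (Equiv.refl ℤ)

/-- reflections over the origins -/
def rf (j : ℤ) : Equiv.Perm X :=
  Equiv.sigmaCongrRight fun _ => Equiv.prodCongrRight fun v =>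
    if v = 0 then Equiv.subLeft j else Equiv.refl ℤ

lemma tr_apply (w : ℤ × ℤ) (k : ℕ) (v : T k) (n : ℤ) : tr w ⟨k, v, n⟩ = ⟨k, v + cs k w, n⟩ := rfl

lemma rf_apply (j : ℤ) (k : ℕ) (v : T k) (n : ℤ) :
    rf j ⟨k, v, n⟩ = ⟨k, v, if v = 0 then j - n else n⟩ := by
  change (⟨k, v, (if v = 0 then Equiv.subLeft j else Equiv.refl ℤ) n⟩ : X) = _
  split_ifs <;> rfl

def S : Subgroup (Equiv.Perm X) := Subgroup.closure {tr (1, 0), tr (0, 1), rf 0, rf 1}

lemma tr_add (w w' : ℤ × ℤ) : tr (w + w') = tr w * tr w' := by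
  ext1 ⟨k, v, n⟩
  rw [Equiv.Perm.mul_apply, tr_apply, tr_apply, tr_apply, map_add, add_assoc, add_comm (cs k w)]

def trHom : Multiplicative (ℤ × ℤ) →* Equiv.Perm X :=
  MonoidHom.mk' (fun w => tr w.toAdd) fun _ _ => tr_add _ _

lemma tr_mem (w : ℤ × ℤ) : tr w ∈ S := by
  have h : tr w = tr (1, 0) ^ w.1 * tr (0, 1) ^ w.2 := by
    change trHom (Multiplicative.ofAdd w) = trHom (Multiplicative.ofAdd (1, 0)) ^ w.1 *
      trHom (Multiplicative.ofAdd (0, 1)) ^ w.2
    rw [← map_zpow trHom, ← map_zpow trHom, ← map_mul trHom]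
    congr 1
    rw [← ofAdd_zsmul, ← ofAdd_zsmul, ← ofAdd_add]
    simp
  rw [h]
  exact mul_mem (zpow_mem (Subgroup.subset_closure (by simp)) _)
    (zpow_mem (Subgroup.subset_closure (by simp)) _)

lemma generic {p : Equiv.Perm X} (hp : p ∈ S) : ∃ (w : ℤ × ℤ) (P : Finset (ℤ × ℤ)),
    ∀ k (v : T k) (n : ℤ), (∀ q ∈ P, v + cs k q ≠ 0) → p ⟨k, v, n⟩ = ⟨k, v + cs k w, n⟩ := by
  induction hp using Subgroup.closure_induction with
  | mem p hp =>
    have h1 : ∀ j, ∃ (w : ℤ × ℤ) (P : Finset (ℤ × ℤ)), ∀ k (v : T k) (n : ℤ),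
        (∀ q ∈ P, v + cs k q ≠ 0) → rf j ⟨k, v, n⟩ = ⟨k, v + cs k w, n⟩ := fun j =>
      ⟨0, {0}, fun k v n h => by
        have := h 0 (Finset.mem_singleton_self _)
        rw [map_zero, add_zero] at this
        rw [rf_apply, if_neg this, map_zero, add_zero]⟩
    rcases hp with rfl | rfl | rfl | rfl
    · exact ⟨_, ∅, fun k v n _ => tr_apply _ _ _ _⟩
    · exact ⟨_, ∅, fun k v n _ => tr_apply _ _ _ _⟩
    · exact h1 _
    · exact h1 _
  | one => exact ⟨0, ∅, fun k v n _ => by simp⟩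
  | mul p p' _ _ ih ih' =>
    obtain ⟨w, P, h⟩ := ih
    obtain ⟨w', P', h'⟩ := ih'
    refine ⟨w' + w, P' ∪ P.image (w' + ·), fun k v n hv => ?_⟩
    rw [Equiv.Perm.mul_apply, h' k v n fun q hq => hv q (Finset.mem_union_left _ hq), h, map_add,
      add_assoc]
    intro q hq
    have := hv _ (Finset.mem_union_right _ (Finset.mem_image_of_mem _ hq))
    rwa [map_add, ← add_assoc] at this
  | inv p _ ih =>
    obtain ⟨w, P, h⟩ := ih
    refine ⟨-w, P.image (-w + ·), fun k v n hv => ?_⟩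
    rw [Equiv.Perm.inv_eq_iff_eq, h, add_assoc, ← map_add, neg_add_cancel, map_zero, add_zero]
    intro q hq
    have := hv _ (Finset.mem_image_of_mem _ hq)
    rwa [map_add, ← add_assoc] at this

/-- the action on the compact group -/
def rho : Equiv.Perm X →* MulAut G where
  toFun p :=
    { toFun := fun g x => g (p⁻¹ x)
      invFun := fun g x => g (p x)
      left_inv := fun g => funext fun x => by simp
      right_inv := fun g => funext fun x => by simp
      map_mul' := fun _ _ => rfl }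
  map_one' := rfl
  map_mul' _ _ := rfl

lemma rho_apply (p : Equiv.Perm X) (g : G) (x : X) : rho p g x = g (p⁻¹ x) := rfl

/-- pointwise trivial functions -/
def V (O : Set X) : Subgroup G where
  carrier := {g | ∀ x ∈ O, g x = 1}
  mul_mem' := fun {a b} ha hb x hx => by rw [Pi.mul_apply, ha x hx, hb x hx, mul_one]
  one_mem' := fun _ _ => rfl
  inv_mem' := fun {a} ha x hx => by rw [Pi.inv_apply, ha x hx, inv_one]

lemma V_open {O : Set X} (h : O.Finite) : IsOpen (V O : Set G) := by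
  have : (V O : Set G) = O.pi fun _ => {1} := rfl
  rw [this]
  exact isOpen_set_pi h fun _ _ => isOpen_discrete _

lemma exists_V {U : Subgroup G} (h : IsOpen (U : Set G)) : ∃ J : Set X, J.Finite ∧ V J ≤ U := by
  have h1 := h.mem_nhds U.one_mem
  rw [nhds_pi, Filter.mem_pi] at h1
  obtain ⟨J, hJ, t, ht, h2⟩ := h1
  exact ⟨J, hJ, fun g hg => h2 fun x hx => by
    rw [hg x hx]
    exact mem_of_mem_nhds (ht x)⟩

def Tidy (a : MulAut G) (U : Subgroup G) : Prop :=
  (U : Set G) = (⋂ n : ℕ, Set.image (⇑(a ^ n)) (U : Set G)) *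
      (⋂ n : ℕ, Set.image (⇑(a⁻¹ ^ n)) (U : Set G)) ∧
    IsClosed (⋃ m : ℕ, Set.image (⇑(a ^ m)) (⋂ n : ℕ, Set.image (⇑(a ^ n)) (U : Set G)))

lemma tidy_of_inv {a : MulAut G} {U : Subgroup G} (hU : IsClosed (U : Set G))
    (h : ∀ g, a g ∈ U ↔ g ∈ U) : Tidy a U := by
  have key : ∀ b : MulAut G, (∀ g, b g ∈ U ↔ g ∈ U) → ∀ n : ℕ, ⇑(b ^ n) '' (U : Set G) = U := by
    intro b hb n
    have h1 : ∀ g, (b ^ n) g ∈ U ↔ g ∈ U := by
      induction n with
      | zero => simp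
      | succ n ih =>
        intro g
        rw [pow_succ, MulAut.mul_apply, ih, hb]
    ext g
    constructor
    · rintro ⟨g, hg, rfl⟩
      exact (h1 g).2 hg
    · intro hg
      exact ⟨(b ^ n).symm g, (h1 _).1 (by simpa using hg), by simp⟩
  have h' : ∀ g, a⁻¹ g ∈ U ↔ g ∈ U := fun g => by rw [← h, MulAut.apply_inv_self]
  unfold Tidy
  simp only [key a h, key _ h', iInter_const, iUnion_const, coe_mul_coe]
  exact ⟨trivial, hU⟩

lemma inv_of_tidy {p : Equiv.Perm X} (hp : ∀ x, ∃ N, 0 < N ∧ (p ^ N) x = x) {U : Subgroup G}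
    (hU : IsOpen (U : Set G)) (h : Tidy (rho p) U) {g : G} (hg : g ∈ U) : rho p g ∈ U := by
  obtain ⟨J, hJ, hV⟩ := exists_V hU
  choose N hN hN' using hp
  have hM : 0 < ∏ x ∈ hJ.toFinset, N x := Finset.prod_pos fun x _ => hN x
  obtain ⟨M, hM'⟩ := Nat.exists_eq_succ_of_ne_zero hM.ne'
  have h1 : ∀ x ∈ J, (p ^ (M + 1))⁻¹ x = x := fun x hx => by
    obtain ⟨c, hc⟩ := Finset.dvd_prod_of_mem N (hJ.mem_toFinset.2 hx)
    rw [Equiv.Perm.inv_eq_iff_eq, ← Nat.succ_eq_add_one, ← hM', hc, pow_mul]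
    exact (Equiv.Perm.pow_apply_eq_self_of_apply_eq_self (hN' x) c).symm
  have h2 : g ∈ (U : Set G) := hg
  rw [h.1] at h2
  obtain ⟨g1, hg1, g2, hg2, rfl⟩ := h2
  rw [map_mul]
  refine U.mul_mem ?_ ?_
  · obtain ⟨u, hu, rfl⟩ := mem_iInter.1 hg1 M
    rw [← MulAut.mul_apply, ← pow_succ', ← map_pow]
    have h3 : rho (p ^ (M + 1)) u * u⁻¹ ∈ V J := fun x hx => by
      rw [Pi.mul_apply, rho_apply, h1 x hx, Pi.inv_apply, mul_inv_cancel]
    simpa using U.mul_mem (hV h3) hu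
  · obtain ⟨u, hu, rfl⟩ := mem_iInter.1 hg2 1
    rwa [pow_one, MulAut.apply_inv_self]

lemma inv_S {U : Subgroup G} (hU : IsOpen (U : Set G)) (h : ∀ p ∈ S, Tidy (rho p) U)
    {p : Equiv.Perm X} (hp : p ∈ S) : ∀ g, rho p g ∈ U ↔ g ∈ U := by
  have gen : ∀ p ∈ S, (∀ x, ∃ N, 0 < N ∧ (p ^ N) x = x) → ∀ g, rho p g ∈ U ↔ g ∈ U := by
    intro p hp hper g
    refine ⟨fun hg => ?_, inv_of_tidy hper hU (h p hp)⟩
    have := inv_of_tidy (p := p⁻¹) (fun x => by
      obtain ⟨N, hN, h1⟩ := hper x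
      exact ⟨N, hN, by rw [inv_pow, Equiv.Perm.inv_eq_iff_eq, h1]⟩) hU (h _ (inv_mem hp)) hg
    rwa [map_inv, MulAut.inv_apply_self] at this
  have htr : ∀ w x, ∃ N, 0 < N ∧ (tr w ^ N) x = x := by
    rintro w ⟨k, v, n⟩
    refine ⟨k + 1, by omega, ?_⟩
    have : tr w ^ (k + 1) = tr ((k + 1) • w) :=
      (map_pow trHom (Multiplicative.ofAdd w) (k + 1)).symm
    rw [this, tr_apply, map_nsmul, cs_tors, add_zero]
  have hrf : ∀ j x, ∃ N, 0 < N ∧ (rf j ^ N) x = x := by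
    rintro j ⟨k, v, n⟩
    refine ⟨2, by omega, ?_⟩
    rw [pow_two, Equiv.Perm.mul_apply, rf_apply, rf_apply]
    split_ifs <;> simp
  induction hp using Subgroup.closure_induction with
  | mem p hp =>
    refine gen p (Subgroup.subset_closure hp) ?_
    rcases hp with rfl | rfl | rfl | rfl
    exacts [htr _, htr _, hrf _, hrf _]
  | one => simp
  | mul p q _ _ ih ih' =>
    intro g
    rw [map_mul, MulAut.mul_apply, ih, ih']
  | inv p _ ih =>
    intro g
    rw [← ih, map_inv, MulAut.apply_inv_self]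

def dl (x : X) : G := Pi.mulSingle x (Multiplicative.ofAdd 1)

lemma rho_dl (p : Equiv.Perm X) (x : X) : rho p (dl x) = dl (p x) := by
  funext y
  simp only [rho_apply, dl, Pi.mulSingle_apply, Equiv.Perm.inv_eq_iff_eq]

lemma dl_mem {U : Subgroup G} (hU : IsOpen (U : Set G)) (h : ∀ p ∈ S, Tidy (rho p) U)
    (k : ℕ) (v : T k) : dl ⟨k, v, 0⟩ ∈ U := by
  obtain ⟨J, hJ, hV⟩ := exists_V hU
  have h1 : ∀ n : ℕ, dl ⟨k, 0, n⟩ ∈ U → dl ⟨k, 0, 0⟩ ∈ U := fun n => by
    induction n with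
    | zero => exact id
    | succ n ih =>
      intro hn
      apply ih
      rw [← inv_S hU h (p := rf 1 * rf 0) (mul_mem (Subgroup.subset_closure (by simp))
        (Subgroup.subset_closure (by simp))), rho_dl, Equiv.Perm.mul_apply, rf_apply, rf_apply]
      simpa [add_comm] using hn
  obtain ⟨n, hn⟩ : ∃ n : ℕ, (⟨k, 0, n⟩ : X) ∉ J := by
    by_contra h2
    push Not at h2
    refine infinite_range_of_injective (f := fun n : ℕ => (⟨k, 0, n⟩ : X)) ?_
      (hJ.subset (range_subset_iff.2 h2))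
    intro a b hab
    simpa using hab
  have h2 := h1 n (hV fun x hx => Pi.mulSingle_eq_of_ne (by rintro rfl; exact hn hx) _)
  obtain ⟨w, rfl⟩ := cs_surj k v
  rw [← inv_S hU h (tr_mem w), rho_dl, tr_apply, zero_add] at h2
  exact h2

lemma good_point (L : Finset (Equiv.Perm X)) (hL : ∀ p ∈ L, p ∈ S) : ∃ (k : ℕ) (v : T k),
    ∀ p ∈ L, ∃ O : Set X, O.Finite ∧ (⟨k, v, 0⟩ : X) ∈ O ∧ ∀ x ∈ O, p x ∈ O ∧ p⁻¹ x ∈ O := by
  classical
  choose! w P h using fun p (hp : p ∈ S) => generic hp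
  let k := ∑ p ∈ L, (P p).card
  let B : Finset (T k) := L.biUnion fun p => (P p).biUnion fun q =>
    Finset.univ.image fun m : ZMod (k + 1) => -(m • cs k (w p) + cs k q)
  have hB : B.card < (Finset.univ : Finset (T k)).card := by
    have h1 : B.card ≤ ∑ p ∈ L, (P p).card * (k + 1) := by
      refine Finset.card_biUnion_le.trans (Finset.sum_le_sum fun p _ => ?_)
      refine Finset.card_biUnion_le.trans ?_
      rw [← smul_eq_mul]
      refine Finset.sum_le_card_nsmul _ _ _ fun q _ => Finset.card_image_le.trans ?_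
      simp
    rw [← Finset.sum_mul] at h1
    have h2 : (Finset.univ : Finset (T k)).card = (k + 1) * (k + 1) := by simp
    rw [h2]
    exact lt_of_le_of_lt h1 (Nat.mul_lt_mul_of_pos_right (Nat.lt_succ_self _) (Nat.succ_pos _))
  obtain ⟨v, -, hv⟩ := Finset.exists_mem_notMem_of_card_lt_card hB
  refine ⟨k, v, fun p hp => ⟨range fun m : ZMod (k + 1) => ⟨k, v + m • cs k (w p), 0⟩,
    finite_range _, ⟨0, by simp⟩, ?_⟩⟩
  have key : ∀ m : ZMod (k + 1), p ⟨k, v + m • cs k (w p), 0⟩ = ⟨k, v + (m + 1) • cs k (w p), 0⟩ := by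
    intro m
    rw [h p (hL p hp), add_smul, one_smul, add_assoc]
    intro q hq h0
    refine hv (Finset.mem_biUnion.2 ⟨p, hp, Finset.mem_biUnion.2 ⟨q, hq,
      Finset.mem_image.2 ⟨m, Finset.mem_univ _, ?_⟩⟩⟩)
    rw [neg_eq_iff_add_eq_zero, add_comm, ← add_assoc, h0]
  rintro _ ⟨m, rfl⟩
  refine ⟨⟨m + 1, (key m).symm⟩, m - 1, ?_⟩
  rw [eq_comm, Equiv.Perm.inv_eq_iff_eq, key, sub_add_cancel]

lemma prod_sub (W : Subgroup G) (l : List (Set G)) (h : ∀ s ∈ l, s ⊆ W) : l.prod ⊆ W := by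
  induction l with
  | nil => exact singleton_subset_iff.2 W.one_mem
  | cons s l ih =>
    rw [List.prod_cons]
    rintro _ ⟨a, ha, b, hb, rfl⟩
    exact W.mul_mem (h s (by simp) ha) (ih (fun t ht => h t (by simp [ht])) hb)


/-- The negation of the preceding statement: For a t.d.l.c. group G and a finitely generated flat group H of topological automorphisms, there are finitely many distinct elements of H whose nubs multiply, as sets, to the nub of H. -/
theorem result :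
    ¬ (∀ (G : Type) [Group G] [TopologicalSpace G] [IsTopologicalGroup G]
      [LocallyCompactSpace G] [TotallyDisconnectedSpace G]
      (H : Subgroup (MulAut G)) (tidy : MulAut G → Subgroup G → Prop),
      (∀ (a : MulAut G) (U : Subgroup G), tidy a U ↔
          ((U : Set G) =
              (⋂ n : ℕ, Set.image (⇑(a ^ n)) (U : Set G)) *
                (⋂ n : ℕ, Set.image (⇑(a⁻¹ ^ n)) (U : Set G)) ∧
            IsClosed (⋃ m : ℕ, Set.image (⇑(a ^ m))
                (⋂ n : ℕ, Set.image (⇑(a ^ n)) (U : Set G))))) →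
      (∀ a ∈ H, Continuous (⇑a)) →
      H.FG →
      (∃ U : Subgroup G, IsCompact (U : Set G) ∧ IsOpen (U : Set G) ∧
          ∀ a ∈ H, tidy a U) →
      ∃ l : List (MulAut G), l.Nodup ∧ (∀ a ∈ l, a ∈ H) ∧
        (⋂ (U : Subgroup G)
            (_ : IsCompact (U : Set G) ∧ IsOpen (U : Set G) ∧ ∀ a ∈ H, tidy a U),
            (U : Set G)) =
          (l.map (fun a => ⋂ (U : Subgroup G)
              (_ : IsCompact (U : Set G) ∧ IsOpen (U : Set G) ∧ tidy a U),
              (U : Set G))).prod) := by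
  classical
  intro h
  obtain ⟨l, -, hl, heq⟩ := h G (S.map rho) Tidy (fun _ _ => Iff.rfl)
    (by
      rintro _ ⟨p, -, rfl⟩
      exact continuous_pi fun x => continuous_apply _)
    ((Subgroup.fg_iff _).2 ⟨_, (MonoidHom.map_closure rho _).symm, (toFinite _).image _⟩)
    ⟨⊤, isCompact_univ, isOpen_univ, fun a _ => tidy_of_inv isClosed_univ fun _ => by simp⟩
  choose! p hp hp' using hl
  obtain ⟨k, v, hv⟩ := good_point (l.toFinset.image p) fun q hq => by
    obtain ⟨a, ha, rfl⟩ := Finset.mem_image.1 hq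
    exact hp a (List.mem_toFinset.1 ha)
  have h1 : dl ⟨k, v, 0⟩ ∈ V {⟨k, v, 0⟩} := by
    refine prod_sub _ _ ?_ (heq.subset (mem_iInter₂.2 fun U hU =>
      dl_mem hU.2.1 (fun q hq => hU.2.2 _ ⟨q, hq, rfl⟩) k v))
    intro s hs
    obtain ⟨a, ha, rfl⟩ := List.mem_map.1 hs
    obtain ⟨O, hO, hx, hinv⟩ := hv (p a) (Finset.mem_image_of_mem _ (List.mem_toFinset.2 ha))
    have hc := (V O).isClosed_of_isOpen (V_open hO)
    intro g hg x hx'
    rw [mem_singleton_iff.1 hx']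
    refine mem_iInter₂.1 hg (V O) ⟨hc.isCompact, V_open hO, tidy_of_inv hc fun g => ?_⟩ _ hx
    rw [← hp' a ha]
    refine ⟨fun h y hy => ?_, fun h y hy => h _ (hinv y hy).2⟩
    simpa [rho_apply] using h _ (hinv y hy).1
  have h2 := h1 _ rfl
  rw [dl, Pi.mulSingle_eq_same] at h2
  exact absurd h2 (by decide)

end Pool.Agent.S00878
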