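import Pool.Statements.S00882

set_option autoImplicit false
open Pool Pool.MP_1e7c77_al

namespace Pool.Agent.S00882

/-- positive cone of a one-sided order -/
def IsCone {G : Type} [Group G] (P : Set G) : Prop :=
  (∀ a ∈ P, ∀ b ∈ P, a * b ∈ P) ∧ (1 : G) ∉ P ∧ (∀ a : G, a ≠ 1 → (a ∈ P ↔ a⁻¹ ∉ P))

theorem IsCone.mk' {G : Type} [Group G] {P : Set G} (h1 : ∀ a ∈ P, ∀ b ∈ P, a * b ∈ P)
    (h2 : (1 : G) ∉ P) (h3 : ∀ a : G, a ≠ 1 → a ∈ P ∨ a⁻¹ ∈ P) : IsCone P := by
  refine ⟨h1, h2, fun a ha => ⟨fun h h' => h2 ?_, fun h => (h3 a ha).resolve_right h⟩⟩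
  simpa using h1 a h _ h'

theorem IsCone.tri {G : Type} [Group G] {P : Set G} (h : IsCone P) (a : G) (ha : a ≠ 1) :
    a ∈ P ∨ a⁻¹ ∈ P := by
  by_cases h' : a⁻¹ ∈ P
  · exact Or.inr h'
  · exact Or.inl ((h.2.2 a ha).2 h')

theorem IsCone.asym {G : Type} [Group G] {P : Set G} (h : IsCone P) (a : G) (ha : a ∈ P) :
    a⁻¹ ∉ P := fun h' => h.2.1 (by simpa using h.1 a ha _ h')

theorem inv_fix {X : Type} [LinearOrder X] (g : X ≃o X) (q : X) (h : g q = q) : g⁻¹ q = q := by
  conv_lhs => rw [← h]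
  exact RelIso.inv_apply_self g q

theorem inv_gt {X : Type} [LinearOrder X] (g : X ≃o X) (q : X) (h : g q < q) : q < g⁻¹ q := by
  have := (g⁻¹ : X ≃o X).strictMono h
  rwa [RelIso.inv_apply_self g q] at this

theorem cone_wo (X : Type) [LinearOrder X] : ∃ P : Set (X ≃o X), IsCone P := by
  refine ⟨{g | ∃ p, p < g p ∧ ∀ q, WellOrderingRel q p → g q = q}, IsCone.mk' ?_ ?_ ?_⟩
  · rintro g ⟨p, hp, hq⟩ h ⟨p', hp', hq'⟩
    rcases trichotomous_of WellOrderingRel p p' with hh | rfl | hh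
    · refine ⟨p, ?_, fun q hqq => ?_⟩
      · rw [RelIso.mul_apply, hq' p hh]; exact hp
      · rw [RelIso.mul_apply, hq' q (_root_.trans hqq hh), hq q hqq]
    · refine ⟨p, ?_, fun q hqq => ?_⟩
      · rw [RelIso.mul_apply]; exact hp.trans (g.strictMono hp')
      · rw [RelIso.mul_apply, hq' q hqq, hq q hqq]
    · refine ⟨p', ?_, fun q hqq => ?_⟩
      · rw [RelIso.mul_apply]
        have := g.strictMono hp'
        rwa [hq p' hh] at this
      · rw [RelIso.mul_apply, hq' q hqq, hq q (_root_.trans hqq hh)]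
  · rintro ⟨p, hp, -⟩
    exact lt_irrefl _ hp
  · intro a ha
    have hne : ({q | a q ≠ q} : Set X).Nonempty := by
      by_contra hc
      rw [Set.not_nonempty_iff_eq_empty] at hc
      apply ha
      refine RelIso.ext fun q => ?_
      by_contra hq
      have : q ∈ ({q | a q ≠ q} : Set X) := hq
      rw [hc] at this
      exact this
    obtain ⟨p, hp, hmin⟩ := (IsWellFounded.wf (r := @WellOrderingRel X)).has_min _ hne
    have hfix : ∀ q, WellOrderingRel q p → a q = q := fun q hq => by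
      by_contra hc
      exact hmin q hc hq
    rcases lt_or_gt_of_ne hp with h | h
    · exact Or.inr ⟨p, inv_gt a p h, fun q hq => inv_fix a q (hfix q hq)⟩
    · exact Or.inl ⟨p, h, hfix⟩

/-- refine a cone by a base point -/
def ptCone {X : Type} [LinearOrder X] (p : X) (P : Set (X ≃o X)) : Set (X ≃o X) :=
  {g | p < g p ∨ (g p = p ∧ g ∈ P)}

theorem cone_pt {X : Type} [LinearOrder X] (p : X) {P : Set (X ≃o X)} (hP : IsCone P) :
    IsCone (ptCone p P) := by
  refine IsCone.mk' ?_ ?_ ?_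
  · rintro g (hg | ⟨hg, hg'⟩) h (hh | ⟨hh, hh'⟩)
    · left; rw [RelIso.mul_apply]; exact hg.trans (g.strictMono hh)
    · left; rw [RelIso.mul_apply, hh]; exact hg
    · left; rw [RelIso.mul_apply]
      have := g.strictMono hh
      rwa [hg] at this
    · right; exact ⟨by rw [RelIso.mul_apply, hh, hg], hP.1 g hg' h hh'⟩
  · rintro (h | ⟨-, h⟩)
    · exact lt_irrefl _ h
    · exact hP.2.1 h
  · intro a ha
    rcases lt_trichotomy p (a p) with h | h | h
    · exact Or.inl (Or.inl h)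
    · rcases hP.tri a ha with h' | h'
      · exact Or.inl (Or.inr ⟨h.symm, h'⟩)
      · exact Or.inr (Or.inr ⟨inv_fix a p h.symm, h'⟩)
    · exact Or.inr (Or.inl (inv_gt a p h))

theorem key {Γ : Type} [Group Γ] (K : Subgroup Γ) (s t d : Γ)
    (hK : ∀ γ, γ * s * γ⁻¹ * s⁻¹ ∈ K) (h1 : d * t = t * t * d) (h2 : d * s * d = s)
    (h3 : (s * t) ^ 3 = s ^ 4) : s ∈ K := by
  have hN : ∀ γ, γ * s * γ⁻¹ * s⁻¹ ∈ K.normalCore := by
    intro γ δ
    have := K.mul_mem (hK (δ * γ)) (K.inv_mem (hK δ))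
    convert this using 1
    group
  let π := QuotientGroup.mk' K.normalCore
  have hc : ∀ γ, π γ * π s = π s * π γ := by
    intro γ
    have : π (γ * s * γ⁻¹ * s⁻¹) = 1 := (QuotientGroup.eq_one_iff _).2 (hN γ)
    simp only [map_mul, map_inv] at this
    rw [mul_inv_eq_one, mul_inv_eq_iff_eq_mul] at this
    exact this
  have e1 : π d * π t = π t * π t * π d := by rw [← map_mul, h1, map_mul, map_mul]
  have e2 : π d * π d = 1 := by
    have : π d * π s * π d = π s := by rw [← map_mul, ← map_mul, h2]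
    rw [hc d, mul_assoc] at this
    simpa using this
  have e3 : π t ^ 3 = 1 := by
    have : π d * π d * π t = π t * π t * π t * π t * (π d * π d) := by
      calc π d * π d * π t = π d * (π d * π t) := by group
        _ = (π d * π t) * π t * π d := by
          conv_lhs => rw [e1]
          simp only [mul_assoc]
        _ = π t * π t * (π d * π t) * π d := by
          conv_lhs => rw [e1]
          simp only [mul_assoc]
        _ = _ := by
          conv_lhs => rw [e1]
          simp only [mul_assoc]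
    rw [e2, one_mul, mul_one] at this
    have h4 : π t * π t ^ 3 = π t * 1 := by
      rw [mul_one]; conv_rhs => rw [this]
      simp only [pow_succ, pow_zero, one_mul, mul_assoc]
    exact mul_left_cancel h4
  have e4 : (π s * π t) ^ 3 = π s ^ 4 := by rw [← map_mul, ← map_pow, h3, map_pow]
  have hcom : Commute (π s) (π t) := (hc t).symm
  rw [hcom.mul_pow, e3, mul_one] at e4
  have e5 : π s = 1 := by
    have h4 : π s ^ 3 * π s = π s ^ 3 * 1 := by rw [mul_one, ← pow_succ]; exact e4.symm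
    exact mul_left_cancel h4
  exact K.normalCore_le ((QuotientGroup.eq_one_iff _).1 e5)

/-- stabiliser of the cut above all powers of `w` -/
def cutStab {G : Type} [Group G] (R : Set G) (w : G) : Subgroup G where
  carrier := {g | ∀ h, (∃ n : ℤ, h⁻¹ * w ^ n ∈ R) ↔ (∃ n : ℤ, (g * h)⁻¹ * w ^ n ∈ R)}
  mul_mem' := by
    intro a b ha hb h
    rw [mul_assoc]
    exact (hb h).trans (ha (b * h))
  one_mem' := by intro h; simp
  inv_mem' := by
    intro a ha h
    have := ha (a⁻¹ * h)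
    rw [mul_inv_cancel_left] at this
    exact this.symm

theorem cut_inv {G : Type} [Group G] {R : Set G} (hR : IsCone R) (w b : G)
    (hb : w * b = b⁻¹ * w) (h : G) (hh : ∃ n : ℤ, h⁻¹ * w ^ n ∈ R) :
    ∃ n : ℤ, (b * h)⁻¹ * w ^ n ∈ R := by
  by_contra hc
  have hA : ∀ h' : G, (∃ n : ℤ, h'⁻¹ * w ^ n ∈ R) → ∃ n : ℤ, (b⁻¹ * h')⁻¹ * w ^ n ∈ R := by
    rintro h' ⟨m, hm⟩
    obtain ⟨n, hn⟩ := hh
    by_cases he : h'⁻¹ * (b * h) = 1
    · exfalso
      apply hc
      rw [inv_mul_eq_one] at he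
      exact ⟨m, by rw [← he]; exact hm⟩
    · rcases hR.tri _ he with h1 | h1
      · refine ⟨n, ?_⟩
        have := hR.1 _ h1 _ hn
        convert this using 1
        group
      · exfalso
        apply hc
        refine ⟨m, ?_⟩
        have := hR.1 _ h1 _ hm
        convert this using 1
        group
  obtain ⟨n, hn⟩ := hh
  obtain ⟨m, hm⟩ := hA (w * h) ⟨n + 1, by convert hn using 1; group⟩
  apply hc
  refine ⟨m - 1, ?_⟩
  rw [← mul_assoc, ← hb] at hm
  convert hm using 1
  group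

theorem cut_mem {G : Type} [Group G] {R : Set G} (hR : IsCone R) (w b : G)
    (hb : w * b = b⁻¹ * w) : b ∈ cutStab R w := by
  intro h
  refine ⟨cut_inv hR w b hb h, fun hh => ?_⟩
  have hb' : w * b⁻¹ = b⁻¹⁻¹ * w := by
    rw [inv_inv, mul_inv_eq_iff_eq_mul, mul_assoc, hb, mul_inv_cancel_left]
  have := cut_inv hR w b⁻¹ hb' (b * h) hh
  rwa [inv_mul_cancel_left] at this

/-- the irrational numbers -/
abbrev Irr : Type := {x : ℝ // Irrational x}

/-- the universal cover of the projective line, irrational points -/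
abbrev L : Type := ℤ ×ₗ Irr

def kk (l : L) : ℤ := (ofLex l).1
def tt (l : L) : ℝ := (ofLex l).2.1
def mkL (k : ℤ) (t : ℝ) (h : Irrational t) : L := toLex (k, ⟨t, h⟩)

@[simp] theorem kk_mk (k : ℤ) (t : ℝ) (h : Irrational t) : kk (mkL k t h) = k := rfl
@[simp] theorem tt_mk (k : ℤ) (t : ℝ) (h : Irrational t) : tt (mkL k t h) = t := rfl
theorem tt_irr (l : L) : Irrational (tt l) := (ofLex l).2.2
theorem tt_ne (l : L) : tt l ≠ 0 := (tt_irr l).ne_zero
theorem L_lt (l l' : L) : l < l' ↔ kk l < kk l' ∨ kk l = kk l' ∧ tt l < tt l' :=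
  Prod.Lex.lt_iff
theorem L_ext {l l' : L} (h1 : kk l = kk l') (h2 : tt l = tt l') : l = l' :=
  ofLex.injective (Prod.ext h1 (Subtype.ext h2))

noncomputable def sf (l : L) : L :=
  mkL (if tt l < 0 then kk l else kk l + 1) (-(tt l)⁻¹) (tt_irr l).inv.neg
noncomputable def sg (l : L) : L :=
  mkL (if 0 < tt l then kk l else kk l - 1) (-(tt l)⁻¹) (tt_irr l).inv.neg

theorem sf_mono : StrictMono sf := by
  intro l l' h
  rw [L_lt] at h ⊢
  simp only [sf, kk_mk, tt_mk]
  have h0 := tt_ne l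
  have h0' := tt_ne l'
  by_cases h1 : tt l < 0 <;> by_cases h2 : tt l' < 0 <;> simp only [h1, h2, if_true, if_false]
  · rcases h with h | ⟨h, h'⟩
    · exact Or.inl h
    · refine Or.inr ⟨h, ?_⟩
      rw [neg_lt_neg_iff]
      exact (inv_lt_inv_of_neg h2 h1).2 h'
  · left
    rcases h with h | ⟨h, h'⟩ <;> omega
  · have h1' : 0 < tt l := lt_of_le_of_ne (not_lt.1 h1) h0.symm
    rcases h with h | ⟨h, h'⟩
    · rcases lt_or_eq_of_le (Int.add_one_le_of_lt h) with h3 | h3
      · exact Or.inl h3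
      · refine Or.inr ⟨h3, ?_⟩
        have := inv_pos.2 h1'
        have := inv_lt_zero.2 h2
        linarith
    · linarith
  · have h1' : 0 < tt l := lt_of_le_of_ne (not_lt.1 h1) h0.symm
    have h2' : 0 < tt l' := lt_of_le_of_ne (not_lt.1 h2) h0'.symm
    rcases h with h | ⟨h, h'⟩
    · left; omega
    · refine Or.inr ⟨by omega, ?_⟩
      rw [neg_lt_neg_iff]
      exact (inv_lt_inv₀ h2' h1').2 h'

theorem sf_sg (l : L) : sf (sg l) = l := by
  refine L_ext ?_ ?_
  · simp only [sf, sg, kk_mk, tt_mk, neg_lt_zero, inv_pos]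
    split_ifs <;> omega
  · simp [sf, sg]

noncomputable def S : L ≃o L := sf_mono.orderIsoOfRightInverse sf sg sf_sg

theorem kk_S (l : L) : kk (S l) = if tt l < 0 then kk l else kk l + 1 := rfl
theorem tt_S (l : L) : tt (S l) = -(tt l)⁻¹ := rfl

noncomputable def T : L ≃o L :=
  StrictMono.orderIsoOfRightInverse
    (fun l => mkL (kk l) (tt l + 1) (by simpa using (tt_irr l).add_natCast 1))
    (by
      intro l l' h
      rw [L_lt] at h ⊢
      simpa using h)
    (fun l => mkL (kk l) (tt l - 1) (by simpa using (tt_irr l).sub_natCast 1))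
    (fun l => L_ext rfl (by simp))

theorem kk_T (l : L) : kk (T l) = kk l := rfl
theorem tt_T (l : L) : tt (T l) = tt l + 1 := rfl

noncomputable def D : L ≃o L :=
  StrictMono.orderIsoOfRightInverse
    (fun l => mkL (kk l) (2 * tt l) (by simpa using (tt_irr l).natCast_mul (m := 2) (by norm_num)))
    (by
      intro l l' h
      rw [L_lt] at h ⊢
      simpa using h)
    (fun l => mkL (kk l) (tt l / 2) (by simpa using (tt_irr l).div_natCast (m := 2) (by norm_num)))
    (fun l => L_ext rfl (by simp only [tt_mk]; ring))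

theorem kk_D (l : L) : kk (D l) = kk l := rfl
theorem tt_D (l : L) : tt (D l) = 2 * tt l := rfl

theorem kk_SS (l : L) : kk (S (S l)) = kk l + 1 := by
  have h0 := tt_ne l
  simp only [kk_S, tt_S, neg_lt_zero, inv_pos]
  rcases lt_or_gt_of_ne h0 with h | h
  · simp [h, not_lt.2 h.le]
  · simp [h, not_lt.2 h.le]

theorem tt_SS (l : L) : tt (S (S l)) = tt l := by
  simp [tt_S]

theorem rel1 : D * T = T * T * D := by
  refine RelIso.ext fun l => L_ext rfl ?_
  simp only [RelIso.mul_apply, tt_D, tt_T]; ring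

theorem rel2 : D * S * D = S := by
  refine RelIso.ext fun l => L_ext ?_ ?_
  · simp only [RelIso.mul_apply, kk_D, kk_S, tt_D]
    have : 2 * tt l < 0 ↔ tt l < 0 := by constructor <;> intro h <;> linarith
    simp only [this]
  · simp only [RelIso.mul_apply, tt_D, tt_S]
    have h0 := tt_ne l
    field_simp

theorem rel3 : (S * T) ^ 3 = S ^ 4 := by
  refine RelIso.ext fun l => ?_
  have h0 := tt_ne l
  have h1 : tt l + 1 ≠ 0 := tt_ne (T l)
  have e1 : tt (T (S (T l))) = tt l / (tt l + 1) := by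
    simp only [tt_T, tt_S]; field_simp; ring
  have e2 : tt (T (S (T (S (T l))))) = -(tt l)⁻¹ := by
    rw [tt_T, tt_S, e1]; field_simp; ring
  simp only [pow_succ, pow_zero, one_mul, RelIso.mul_apply]
  refine L_ext ?_ ?_
  · rw [kk_SS, kk_SS, kk_S, e2, kk_T, kk_S, e1, kk_T, kk_S, kk_T, tt_T]
    simp only [neg_lt_zero, inv_pos]
    rcases lt_or_gt_of_ne h0 with h | h
    · rcases lt_or_gt_of_ne h1 with h' | h'
      · have : 0 < tt l / (tt l + 1) := div_pos_of_neg_of_neg h h'
        simp [h', not_lt.2 h.le, not_lt.2 this.le]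
      · have : tt l / (tt l + 1) < 0 := div_neg_of_neg_of_pos h h'
        simp [not_lt.2 h'.le, not_lt.2 h.le, this]
    · have h' : 0 < tt l + 1 := by linarith
      have : 0 < tt l / (tt l + 1) := div_pos h h'
      simp [not_lt.2 h'.le, h, not_lt.2 this.le]
  · rw [tt_SS, tt_SS, tt_S, e2]; simp

theorem T_comm : T ∈ Subgroup.centralizer {S * S} := by
  rw [Subgroup.mem_centralizer_singleton_iff]
  refine RelIso.ext fun l => L_ext ?_ ?_
  · simp only [RelIso.mul_apply, kk_SS, kk_T]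
  · simp only [RelIso.mul_apply, tt_SS, tt_T]

theorem D_comm : D ∈ Subgroup.centralizer {S * S} := by
  rw [Subgroup.mem_centralizer_singleton_iff]
  refine RelIso.ext fun l => L_ext ?_ ?_
  · simp only [RelIso.mul_apply, kk_SS, kk_D]
  · simp only [RelIso.mul_apply, tt_SS, tt_D]

theorem S_comm : S ∈ Subgroup.centralizer {S * S} := by
  rw [Subgroup.mem_centralizer_singleton_iff, mul_assoc]

theorem lt_S (l : L) : l < S l := by
  rw [L_lt, kk_S, tt_S]
  split_ifs with h
  · refine Or.inr ⟨rfl, ?_⟩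
    have := inv_lt_zero.2 h
    linarith
  · left; omega

theorem lt_S_pow (l : L) (c : ℤ) (hc : 0 < c) : l < (S ^ c) l := by
  obtain ⟨n, rfl⟩ : ∃ n : ℕ, c = (n + 1 : ℕ) := ⟨(c - 1).toNat, by omega⟩
  rw [zpow_natCast]
  clear hc
  induction n with
  | zero => simpa using lt_S l
  | succ n ih => rw [pow_succ', RelIso.mul_apply]; exact ih.trans (lt_S _)

/-- the space acted upon -/
abbrev X : Type := ℤ ×ₗ L

noncomputable def lift (a : ℤ) (σ : ℤ → L ≃o L) : X ≃o X :=
  StrictMono.orderIsoOfRightInverse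
    (fun p => toLex ((ofLex p).1 + a, σ (ofLex p).1 (ofLex p).2))
    (by
      intro p q h
      rw [Prod.Lex.lt_iff] at h
      rw [Prod.Lex.toLex_lt_toLex]
      rcases h with h | ⟨h, h'⟩
      · left; simpa using h
      · right
        refine ⟨by simp [h], ?_⟩
        rw [h]
        exact (σ _).strictMono h')
    (fun p => toLex ((ofLex p).1 - a, (σ ((ofLex p).1 - a))⁻¹ (ofLex p).2))
    (fun p => by
      refine ofLex.injective (Prod.ext (by simp) ?_)
      exact RelIso.apply_inv_self _ _)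

theorem lift_apply (a : ℤ) (σ : ℤ → L ≃o L) (n : ℤ) (l : L) :
    lift a σ (toLex (n, l)) = toLex (n + a, σ n l) := rfl

theorem lift_mul (a a' : ℤ) (σ σ' : ℤ → L ≃o L) :
    lift a σ * lift a' σ' = lift (a + a') (fun n => σ (n + a') * σ' n) := by
  refine RelIso.ext fun p => ?_
  obtain ⟨⟨n, l⟩, rfl⟩ := toLex.surjective p
  rw [RelIso.mul_apply, lift_apply, lift_apply, lift_apply, RelIso.mul_apply]
  congr 2
  ring

theorem lift_one : lift 0 (fun _ => 1) = 1 := by
  refine RelIso.ext fun p => ?_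
  obtain ⟨⟨n, l⟩, rfl⟩ := toLex.surjective p
  rw [lift_apply]; simp

noncomputable def diag : (L ≃o L) →* (X ≃o X) where
  toFun γ := lift 0 (fun _ => γ)
  map_one' := lift_one
  map_mul' γ δ := by rw [lift_mul]; rfl

/-- Heisenberg group -/
@[ext] structure Hs (R : Type) where
  a : R
  b : R
  c : R

section
variable {R : Type} [CommRing R]

instance : Mul (Hs R) := ⟨fun p q => ⟨p.a + q.a, p.b + q.b, p.c + q.c + p.b * q.a⟩⟩
instance : One (Hs R) := ⟨⟨0, 0, 0⟩⟩
instance : Inv (Hs R) := ⟨fun p => ⟨-p.a, -p.b, -p.c + p.a * p.b⟩⟩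
@[simp] theorem mul_a (p q : Hs R) : (p * q).a = p.a + q.a := rfl
@[simp] theorem mul_b (p q : Hs R) : (p * q).b = p.b + q.b := rfl
@[simp] theorem mul_c (p q : Hs R) : (p * q).c = p.c + q.c + p.b * q.a := rfl
@[simp] theorem one_a : (1 : Hs R).a = 0 := rfl
@[simp] theorem one_b : (1 : Hs R).b = 0 := rfl
@[simp] theorem one_c : (1 : Hs R).c = 0 := rfl
@[simp] theorem inv_a (p : Hs R) : (p⁻¹).a = -p.a := rfl
@[simp] theorem inv_b (p : Hs R) : (p⁻¹).b = -p.b := rfl
@[simp] theorem inv_c (p : Hs R) : (p⁻¹).c = -p.c + p.a * p.b := rfl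

instance : Group (Hs R) := Group.ofLeftAxioms
  (fun p q r => by ext <;> simp <;> ring)
  (fun p => by ext <;> simp)
  (fun p => by ext <;> simp; ring)

def ab : Hs R →* Multiplicative (R × R) where
  toFun p := Multiplicative.ofAdd (p.a, p.b)
  map_one' := rfl
  map_mul' _ _ := rfl

instance : Group.IsNilpotent (Hs R) := by
  refine Subgroup.isNilpotent_of_ker_le_center ab ?_
  intro p hp
  have h : (p.a, p.b) = (0, 0) := hp
  simp only [Prod.mk.injEq] at h
  rw [Subgroup.mem_center_iff]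
  intro q
  ext <;> simp [h.1, h.2]
  ring

end

theorem pow_Hs (p : Hs ℚ) (n : ℕ) :
    p ^ n = ⟨n * p.a, n * p.b, n * p.c + (n * (n - 1) / 2) * (p.a * p.b)⟩ := by
  induction n with
  | zero => ext <;> simp
  | succ n ih => rw [pow_succ, ih]; ext <;> simp <;> ring

def cst : Hs ℤ →* Hs ℚ where
  toFun p := ⟨p.a, p.b, p.c⟩
  map_one' := by ext <;> simp
  map_mul' p q := by ext <;> simp

theorem cst_inj : Function.Injective cst := by
  intro p q h
  have h1 : (p.a : ℚ) = q.a := congrArg Hs.a h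
  have h2 : (p.b : ℚ) = q.b := congrArg Hs.b h
  have h3 : (p.c : ℚ) = q.c := congrArg Hs.c h
  ext
  · exact_mod_cast h1
  · exact_mod_cast h2
  · exact_mod_cast h3

theorem pow_range (p : Hs ℚ) : ∃ n : ℕ, 0 < n ∧ ∃ v, cst v = p ^ n := by
  have ha := Rat.mul_den_eq_num p.a
  have hb := Rat.mul_den_eq_num p.b
  have hc := Rat.mul_den_eq_num p.c
  refine ⟨2 * p.a.den * p.b.den * p.c.den, by positivity,
    ⟨2 * p.a.num * p.b.den * p.c.den, 2 * p.a.den * p.b.num * p.c.den,
      2 * p.a.den * p.b.den * p.c.num +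
        (2 * p.a.den * p.b.den * p.c.den - 1) * p.a.num * p.b.num * p.c.den⟩, ?_⟩
  rw [pow_Hs]
  ext
  · simp only [cst, MonoidHom.coe_mk, OneHom.coe_mk]; push_cast; rw [← ha]; ring
  · simp only [cst, MonoidHom.coe_mk, OneHom.coe_mk]; push_cast; rw [← hb]; ring
  · simp only [cst, MonoidHom.coe_mk, OneHom.coe_mk]; push_cast; rw [← ha, ← hb, ← hc]; ring

/-- lexicographic cone -/
def Qc : Set (Hs ℚ) := {p | 0 < p.a ∨ (p.a = 0 ∧ (0 < p.c ∨ (p.c = 0 ∧ 0 < p.b)))}

theorem Qc_cone : IsCone Qc := by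
  refine IsCone.mk' ?_ ?_ ?_
  · rintro p (h | ⟨h, h'⟩) q (k | ⟨k, k'⟩)
    · left; simp only [mul_a]; linarith
    · left; simp only [mul_a]; linarith
    · left; simp only [mul_a]; linarith
    · right
      simp only [mul_a, mul_b, mul_c, h, k, mul_zero, add_zero, true_and]
      rcases h' with h' | ⟨h', h''⟩ <;> rcases k' with k' | ⟨k', k''⟩
      · left; linarith
      · left; linarith
      · left; linarith
      · right; constructor <;> linarith
  · simp [Qc]
  · intro p hp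
    simp only [Qc, Set.mem_ofPred_eq, inv_a, inv_b, inv_c]
    rcases lt_trichotomy p.a 0 with h | h | h
    · right; left; linarith
    · simp only [h, lt_irrefl, neg_zero, zero_mul, add_zero, true_and, false_or]
      rcases lt_trichotomy p.c 0 with k | k | k
      · right; left; linarith
      · rcases lt_trichotomy p.b 0 with j | j | j
        · right; right; constructor <;> linarith
        · exact absurd (Hs.ext h j k) hp
        · left; right; exact ⟨k, j⟩
      · left; left; exact k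
    · left; left; exact h

noncomputable def emb : Hs ℤ →* (X ≃o X) where
  toFun p := lift p.a (fun n => S ^ (p.c + p.b * n))
  map_one' := by rw [← lift_one]; simp
  map_mul' p q := by
    rw [lift_mul]
    simp only [mul_a, mul_b, mul_c, ← zpow_add]
    congr 1
    funext n
    congr 1
    ring

theorem emb_apply (p : Hs ℤ) (n : ℤ) (l : L) :
    emb p (toLex (n, l)) = toLex (n + p.a, (S ^ (p.c + p.b * n)) l) := rfl

noncomputable def l0 : L := mkL 0 (√2) irrational_sqrt_two

theorem emb_pos (P : Set (X ≃o X)) (v : Hs ℤ) (hv : cst v ∈ Qc) :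
    emb v ∈ ptCone (toLex (0, l0)) (ptCone (toLex (1, l0)) P) := by
  rcases hv with h | ⟨h, k | ⟨k, j⟩⟩
  · have h' : 0 < v.a := by exact_mod_cast (show (0 : ℚ) < v.a from h)
    left
    rw [emb_apply, Prod.Lex.toLex_lt_toLex]
    left; simpa using h'
  · have h' : v.a = 0 := by exact_mod_cast (show (v.a : ℚ) = 0 from h)
    have k' : 0 < v.c := by exact_mod_cast (show (0 : ℚ) < v.c from k)
    left
    rw [emb_apply, Prod.Lex.toLex_lt_toLex]
    right
    exact ⟨by simp [h'], lt_S_pow _ _ (by simpa using k')⟩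
  · have h' : v.a = 0 := by exact_mod_cast (show (v.a : ℚ) = 0 from h)
    have k' : v.c = 0 := by exact_mod_cast (show (v.c : ℚ) = 0 from k)
    have j' : 0 < v.b := by exact_mod_cast (show (0 : ℚ) < v.b from j)
    right
    refine ⟨by rw [emb_apply]; simp [h', k'], ?_⟩
    left
    rw [emb_apply, Prod.Lex.toLex_lt_toLex]
    right
    exact ⟨by simp [h'], lt_S_pow _ _ (by simpa [k'] using j')⟩

theorem emb_iff {P : Set (X ≃o X)} (hP : IsCone P) (v : Hs ℤ) :
    cst v ∈ Qc ↔ emb v ∈ ptCone (toLex (0, l0)) (ptCone (toLex (1, l0)) P) := by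
  refine ⟨emb_pos P v, fun h => ?_⟩
  have hC := cone_pt (toLex (0, l0)) (cone_pt (toLex (1, l0)) hP)
  by_cases hv : cst v = 1
  · have : v = 1 := cst_inj (by rw [hv, map_one])
    rw [this, map_one] at h
    exact absurd h hC.2.1
  · rcases Qc_cone.tri _ hv with h' | h'
    · exact h'
    · rw [← map_inv] at h'
      have := emb_pos P _ h'
      rw [map_inv] at this
      exact absurd this (hC.asym _ h)

theorem emb_inj : Function.Injective emb := by
  obtain ⟨P, hP⟩ := cone_wo X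
  have hC := cone_pt (toLex (0, l0)) (cone_pt (toLex (1, l0)) hP)
  rw [injective_iff_map_eq_one]
  intro v hv
  by_contra hne
  have hv' : cst v ≠ 1 := fun h => hne (cst_inj (by rw [h, map_one]))
  rcases Qc_cone.tri _ hv' with h | h
  · have := emb_pos P _ h
    rw [hv] at this
    exact hC.2.1 this
  · rw [← map_inv] at h
    have := emb_pos P _ h
    rw [map_inv, hv, inv_one] at this
    exact hC.2.1 this

theorem z_mem {R : Set (X ≃o X)} (hR : IsCone R) :
    emb ⟨0, 0, 1⟩ ∈ cutStab R (emb ⟨0, 2, 1⟩) := by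
  have h := key (Γ := Subgroup.centralizer {S * S})
    ((cutStab R (emb ⟨0, 2, 1⟩)).comap (diag.comp (Subgroup.subtype _)))
    ⟨S, S_comm⟩ ⟨T, T_comm⟩ ⟨D, D_comm⟩ ?_ (Subtype.ext rel1) (Subtype.ext rel2)
    (Subtype.ext rel3)
  · have h' : diag S ∈ cutStab R (emb ⟨0, 2, 1⟩) := h
    have e : emb ⟨0, 0, 1⟩ = diag S := by
      show lift 0 (fun n => S ^ ((1 : ℤ) + 0 * n)) = lift 0 (fun _ => S)
      simp
    rwa [e]
  · intro γ
    rw [Subgroup.mem_comap]
    refine cut_mem hR _ _ ?_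
    rw [← map_inv]
    set b := γ * ⟨S, S_comm⟩ * γ⁻¹ * ⟨S, S_comm⟩⁻¹ with hb
    show lift 0 _ * lift 0 _ = lift 0 _ * lift 0 _
    rw [lift_mul, lift_mul]
    congr 1
    funext n
    have hbc : Commute (b : L ≃o L) (S * S) := Subgroup.mem_centralizer_singleton_iff.1 b.2
    have hgc : Commute (γ : L ≃o L) (S * S) := Subgroup.mem_centralizer_singleton_iff.1 γ.2
    have e1 : S ^ ((1 : ℤ) + 2 * n) = S * (S * S) ^ n := by
      rw [zpow_add, zpow_one, zpow_mul, zpow_two]
    have e2 : S * (b : L ≃o L) = (b : L ≃o L)⁻¹ * S := by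
      have : (b : L ≃o L) = γ * S * (γ : L ≃o L)⁻¹ * S⁻¹ := rfl
      rw [this]
      have h3 : (γ : L ≃o L)⁻¹ * (S * S) = (S * S) * (γ : L ≃o L)⁻¹ := hgc.inv_left.eq
      calc S * (γ * S * (γ : L ≃o L)⁻¹ * S⁻¹)
          = S * γ * S⁻¹ * ((S * S) * (γ : L ≃o L)⁻¹) * S⁻¹ := by group
        _ = S * γ * S⁻¹ * ((γ : L ≃o L)⁻¹ * (S * S)) * S⁻¹ := by rw [h3]
        _ = _ := by group
    simp only [add_zero, Subgroup.coe_subtype, e1]
    rw [mul_assoc, (hbc.zpow_right n).eq.symm, ← mul_assoc, e2, mul_assoc]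
    rfl
/-- The negation of the preceding statement: Take a group G with a right-order cone P, a nilpotent subgroup N, its minimal divisible completion N# with a cone extending P∩N, and g in N#. Then the cone on N cut out by the g-conjugate of that cone is the restriction of some right-order cone on G. -/
theorem result :
    ¬ (∀ (G : Type) [Group G] (N : Subgroup G), Group.IsNilpotent N →
    ∀ (P : Set G),
      ((∀ a ∈ P, ∀ b ∈ P, a * b ∈ P) ∧ (1 : G) ∉ P ∧ (∀ a : G, a ≠ 1 → (a ∈ P ↔ a⁻¹ ∉ P))) →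
    ∀ (H : Type) [Group H], Group.IsNilpotent H →
      (∀ h : H, ∀ n : ℕ, 0 < n → ∃ x : H, x ^ n = h) →
    ∀ (ι : N →* H), Function.Injective ι →
      (∀ h : H, ∃ n : ℕ, 0 < n ∧ h ^ n ∈ ι.range) →
    ∀ (Q : Set H),
      ((∀ a ∈ Q, ∀ b ∈ Q, a * b ∈ Q) ∧ (1 : H) ∉ Q ∧ (∀ a : H, a ≠ 1 → (a ∈ Q ↔ a⁻¹ ∉ Q))) →
      (∀ x : N, ι x ∈ Q ↔ (x : G) ∈ P) →
    ∀ g : H, ∃ R : Set G,
      ((∀ a ∈ R, ∀ b ∈ R, a * b ∈ R) ∧ (1 : G) ∉ R ∧ (∀ a : G, a ≠ 1 → (a ∈ R ↔ a⁻¹ ∉ R))) ∧
      (∀ x : N, (x : G) ∈ R ↔ g⁻¹ * ι x * g ∈ Q)) := by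
  intro hall
  obtain ⟨P, hP⟩ := cone_wo X
  have hC := cone_pt (toLex (0, l0)) (cone_pt (toLex (1, l0)) hP)
  let e : Hs ℤ ≃* emb.range := MonoidHom.ofInjective emb_inj
  have he : ∀ v, ((e v : emb.range) : X ≃o X) = emb v := fun v => rfl
  obtain ⟨R, hR, hRQ⟩ := hall (X ≃o X) emb.range (Group.nilpotent_of_mulEquiv e) _ hC (Hs ℚ)
    inferInstance
    (fun h n hn => ⟨⟨h.a / n, h.b / n, (h.c - (n * (n - 1) / 2) * (h.a / n * (h.b / n))) / n⟩, by
      have : (n : ℚ) ≠ 0 := by positivity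
      rw [pow_Hs]; ext <;> simp only <;> field_simp
      ring⟩)
    (cst.comp e.symm.toMonoidHom) (cst_inj.comp e.symm.injective)
    (fun h => by
      obtain ⟨n, hn, v, hv⟩ := pow_range h
      exact ⟨n, hn, e v, by simp [hv]⟩)
    Qc Qc_cone
    (fun x => by
      obtain ⟨v, rfl⟩ := e.surjective x
      rw [he, ← emb_iff hP]
      simp)
    ⟨-1 / 2, 0, 0⟩
  have hR' : IsCone R := hR
  have hz := z_mem hR' 1
  have hw : emb ⟨0, 2, 1⟩ ≠ 1 := by
    intro h
    have := emb_inj (h.trans (map_one emb).symm)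
    have h2 := congrArg Hs.c this
    simp at h2
  have h1 : ∃ n : ℤ, (1 : X ≃o X)⁻¹ * emb ⟨0, 2, 1⟩ ^ n ∈ R := by
    rcases hR'.tri _ hw with h | h
    · exact ⟨1, by simpa using h⟩
    · exact ⟨-1, by simpa using h⟩
  obtain ⟨n, hn⟩ := hz.1 h1
  have hp : (⟨0, 2, 1⟩ : Hs ℤ) ^ n = ⟨0, 2 * n, n⟩ := by
    clear hn
    induction n using Int.induction_on with
    | zero => ext <;> simp
    | succ n ih => rw [zpow_add_one, ih]; ext <;> simp; ring
    | pred n ih => rw [zpow_sub_one, ih]; ext <;> simp <;> ring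
  rw [mul_one, ← map_inv, ← map_zpow, ← map_mul, ← he, hRQ, hp] at hn
  simp [Qc, cst] at hn
  rcases hn with hn | ⟨hn, -⟩ <;> linarith

end Pool.Agent.S00882
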