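import Pool.Statements.S00949
import Pool.Agent.Lib.helper17.PO4

set_option autoImplicit false
open N5f09da3c
open Pool Pool.MP_23b8d1_al

namespace Pool.Agent.S00949



/-- There exists a group G that is simple (nontrivial, only trivial normal subgroups) such that every bi-invariant (left and right translation invariant) partial order on G is contained in a bi-invariant linear order. -/
theorem result :
    ∃ (G : Type*) (_ : Group G), IsSimpleGroup G ∧ ProOrderable G := by
  have := Pool.Agent.Lib.helper17.PO.simple_DD
  exact ⟨ULift Pool.Agent.Lib.helper17.PO.DD, inferInstance,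
    MulEquiv.isSimpleGroup MulEquiv.ulift,
    Pool.Agent.Lib.helper17.PO.pro_equiv MulEquiv.ulift Pool.Agent.Lib.helper17.PO.pro_DD⟩

end Pool.Agent.S00949
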