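import Pool.Statements.S00960
-- import your own Pool.Agent.* helpers here

set_option autoImplicit false
open Pool Pool.MP_2475ca_al

namespace Pool.Agent.S00960

open MulAction Subgroup

section general

variable {Γ : Type} [Group Γ] [Finite Γ]

lemma ncard_orbit {α : Type} [MulAction Γ α] (H : Subgroup Γ) (x : α) :
    (orbit H x).ncard = (stabilizer Γ x).relIndex H := by
  rw [← index_stabilizer]
  rfl

lemma dvd_ncard {α : Type} [Finite α] [MulAction Γ α] (H : Subgroup Γ) (d : ℕ) (m : ℕ) :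
    ∀ S : Set α, S.ncard = m → (∀ h ∈ H, ∀ x ∈ S, h • x ∈ S) →
      (∀ x ∈ S, d ∣ (stabilizer Γ x).relIndex H) → d ∣ m := by
  induction m using Nat.strong_induction_on with
  | _ m ih =>
    intro S hm hS hd
    rcases S.eq_empty_or_nonempty with rfl | ⟨x, hx⟩
    · rw [← hm]
      simp
    · have hsub : orbit H x ⊆ S := by
        rintro _ ⟨h, rfl⟩
        exact hS h h.2 x hx
      have h1 := Set.ncard_diff_add_ncard_of_subset hsub
      have hpos : 0 < (orbit H x).ncard := (Set.ncard_pos).2 ⟨x, mem_orbit_self x⟩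
      have h2 : d ∣ (S \ orbit H x).ncard := by
        refine ih _ (by omega) _ rfl ?_ fun y hy => hd y hy.1
        rintro h hh y ⟨hy, hy'⟩
        refine ⟨hS h hh y hy, fun hc => hy' ?_⟩
        obtain ⟨h', hh'⟩ := hc
        refine ⟨(⟨h, hh⟩ : H)⁻¹ * h', ?_⟩
        show ((⟨h, hh⟩ : H)⁻¹ * h') • x = y
        have hh2 : h' • x = h • y := hh'
        rw [mul_smul, hh2]
        exact inv_smul_smul (⟨h, hh⟩ : H) y
      rw [← hm, ← h1, ncard_orbit]
      exact dvd_add h2 (hd x hx)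

lemma exists_syl (r : ℕ) [Fact r.Prime] (Y N Q : Subgroup Γ) (hNY : N ≤ Y)
    (hn : Y ≤ normalizer N) (hQ : Q ≤ N) (hp : IsPGroup r Q) :
    ∃ Q' : Subgroup Γ, Q ≤ Q' ∧ Q' ≤ N ∧ IsPGroup r Q' ∧ ¬ r ∣ Q'.relIndex N ∧
      ∀ y ∈ Y, ∃ h ∈ Y, h ∈ normalizer Q' ∧ ∃ n ∈ N, y = h * n := by
  haveI : (N.subgroupOf Y).Normal := (normal_subgroupOf_iff_le_normalizer hNY).2 hn
  let f : (N.subgroupOf Y) →* Γ := Y.subtype.comp (N.subgroupOf Y).subtype
  have hf : Function.Injective f := Subtype.coe_injective.comp Subtype.coe_injective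
  obtain ⟨P, hP⟩ := (hp.comap_of_injective f hf).exists_le_sylow
  have hr : (⊤ : Subgroup (N.subgroupOf Y)).map f = N := by
    ext x
    constructor
    · rintro ⟨y, -, rfl⟩
      exact y.2
    · intro hx
      exact ⟨⟨⟨x, hNY hx⟩, hx⟩, trivial, rfl⟩
  refine ⟨(P : Subgroup _).map f, ?_, ?_, P.2.map f, ?_, ?_⟩
  · intro x hx
    exact ⟨⟨⟨x, hNY (hQ hx)⟩, hQ hx⟩, hP hx, rfl⟩
  · exact (map_mono le_top).trans hr.le
  · have := relIndex_map_map_of_injective (P : Subgroup _) ⊤ hf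
    rw [hr, relIndex_top_right] at this
    rw [this]
    exact P.not_dvd_index
  · intro y hy
    have h1 := Sylow.normalizer_sup_eq_top P
    have h2 : (⟨y, hy⟩ : Y) ∈ normalizer ((P : Subgroup _).map (N.subgroupOf Y).subtype : Set Y) ⊔
      N.subgroupOf Y := h1 ▸ mem_top _
    obtain ⟨a, ha, b, hb, hab⟩ := mem_sup_of_normal_right.1 h2
    refine ⟨a, a.2, ?_, b, hb, (congrArg Subtype.val hab).symm⟩
    have := le_normalizer_map Y.subtype ⟨a, ha, rfl⟩
    rwa [map_map] at this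

lemma le_of_syl (r : ℕ) [hr : Fact r.Prime] {Q T N : Subgroup Γ} (h1 : Q ≤ T) (h2 : T ≤ N)
    (hT : IsPGroup r T) (h : ¬ r ∣ Q.relIndex N) : T ≤ Q := by
  obtain ⟨j, hj⟩ := hT.index (Q.subgroupOf T)
  have h3 : Q.relIndex T = r ^ j := hj
  rw [← relIndex_eq_one, h3]
  rcases j with _ | j
  · rfl
  · exfalso
    apply h
    rw [← relIndex_mul_relIndex Q T N h1 h2, h3, pow_succ, mul_assoc, mul_comm, mul_assoc]
    exact dvd_mul_right _ _

lemma syl_of_normalizer (r : ℕ) [hr : Fact r.Prime] {Q K : Subgroup Γ} (hQ : Q ≤ K)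
    (hp : IsPGroup r Q) (h : ¬ r ∣ Q.relIndex (normalizer Q ⊓ K)) : ¬ r ∣ Q.relIndex K := by
  obtain ⟨R, h1, h2, h3, h4, -⟩ := exists_syl r K K Q le_rfl le_normalizer hQ hp
  suffices hRQ : R ≤ Q by rwa [le_antisymm h1 hRQ]
  by_contra hc
  haveI := h3.isNilpotent
  have hlt : Q.subgroupOf R < ⊤ := by
    rw [lt_top_iff_ne_top, Ne, subgroupOf_eq_top]
    exact hc
  obtain ⟨x, hx1, hx2⟩ := SetLike.exists_of_lt (Group.normalizerCondition_of_isNilpotent _ hlt)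
  have hx : (x : Γ) ∈ normalizer Q := by
    rw [mem_normalizer_iff] at hx1 ⊢
    intro g
    constructor
    · intro hg
      exact (hx1 ⟨g, h1 hg⟩).1 hg
    · intro hg
      have hgR : g ∈ R := by
        have : g = (x : Γ)⁻¹ * (x * g * (x : Γ)⁻¹) * x := by group
        rw [this]
        exact R.mul_mem (R.mul_mem (R.inv_mem x.2) (h1 hg)) x.2
      exact (hx1 ⟨g, hgR⟩).2 hg
  have := le_of_syl r (Q := Q) (T := normalizer Q ⊓ R) (N := normalizer Q ⊓ K)
    (le_inf le_normalizer h1) (inf_le_inf_left _ h2) h3.to_inf_right h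
  exact hx2 (this ⟨hx, x.2⟩)

variable {Ω C : Type} [Finite Ω] [Finite C] [MulAction Γ Ω] [MulAction Γ C]

def Good (C : Type) [MulAction Γ C] (d : ℕ) (H : Subgroup Γ) : Prop :=
  ∀ c : C, d ∣ (stabilizer Γ c).relIndex H

lemma good_of {d : ℕ} {H H' K : Subgroup Γ} (hK : ∀ k ∈ K, ∀ c : C, k • c = c)
    (h : Good C d H) (hH : ∀ y ∈ H, ∃ h ∈ H', ∃ n ∈ K, y = h * n) : Good C d H' := by
  intro c
  rw [← ncard_orbit]
  refine dvd_ncard H d _ _ rfl ?_ fun x _ => h x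
  rintro y hy _ ⟨h', rfl⟩
  obtain ⟨a, ha, n, hn, rfl⟩ := hH y hy
  refine ⟨⟨a, ha⟩ * h', ?_⟩
  show ((⟨a, ha⟩ : H') * h') • c = (a * n) • (h' • c)
  rw [mul_smul, mul_smul, hK n hn]
  rfl

lemma good_syl {p a : ℕ} (hp : p.Prime) {H P : Subgroup Γ} (h : Good C (p ^ a) H) (hP : P ≤ H)
    (hi : ¬ p ∣ P.relIndex H) : Good C (p ^ a) P := by
  intro c
  have h1 := (h c).trans (relIndex_dvd_of_le_left H (inf_le_left : stabilizer Γ c ⊓ P ≤ _))
  rw [← relIndex_mul_relIndex _ P H inf_le_right hP, inf_relIndex_right] at h1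
  exact (Nat.Coprime.pow_left a ((Nat.Prime.coprime_iff_not_dvd hp).2 hi)).dvd_of_dvd_mul_right h1

lemma good_fix {d : ℕ} (π : Ω → Ω → C) (hπ : ∀ (g : Γ) a b, a ≠ b → π (g • a) (g • b) = g • π a b)
    {H : Subgroup Γ} (h : Good C d H) {v : Ω} (hv : H ≤ stabilizer Γ v) (S : Set Ω) (hvS : v ∈ S)
    (hS : ∀ h ∈ H, ∀ x ∈ S, h • x ∈ S) : Nat.ModEq d S.ncard 1 := by
  have h1 : d ∣ (S \ {v}).ncard := by
    refine dvd_ncard H d _ _ rfl ?_ ?_
    · rintro g hg x ⟨hx, hxv⟩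
      refine ⟨hS g hg x hx, fun hc => hxv ?_⟩
      have h2 : g • x = g • v := by
        rw [hv hg]
        exact hc
      exact smul_left_cancel g h2
    · rintro x ⟨-, hxv⟩
      rw [← inf_relIndex_right]
      refine (h (π v x)).trans (relIndex_dvd_of_le_left H ?_)
      rintro g ⟨hg1, hg2⟩
      show g • π v x = π v x
      rw [← hπ g v x (Ne.symm hxv), hv hg2, hg1]
  have h2 := Set.ncard_diff_singleton_add_one hvS
  rw [← h2]
  exact ((Nat.modEq_zero_iff_dvd.2 h1).add_right 1)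

def State (C : Type) [MulAction Γ C] (Ω : Type) [MulAction Γ Ω] (r d : ℕ) (K Q : Subgroup Γ) :
    Prop :=
  Q ≤ K ∧ IsPGroup r Q ∧ ∃ (v : Ω) (P : Subgroup Γ), Good C d P ∧ P ≤ stabilizer Γ v ∧
    P ≤ normalizer Q ∧ ¬ r ∣ (Q ⊓ stabilizer Γ v).relIndex (K ⊓ stabilizer Γ v)

lemma step (r p a : ℕ) [Fact r.Prime] [hp : Fact p.Prime] (ha : 0 < a)
    (π : Ω → Ω → C) (hπ : ∀ (g : Γ) a b, a ≠ b → π (g • a) (g • b) = g • π a b)
    (K : Subgroup Γ) [hKn : K.Normal] (hK : ∀ k ∈ K, ∀ c : C, k • c = c) (Q : Subgroup Γ)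
    (h : State C Ω r (p ^ a) K Q) :
    ∃ Q', Q ≤ Q' ∧ State C Ω r (p ^ a) K Q' ∧ ¬ r ∣ Q'.relIndex (normalizer Q ⊓ K) := by
  obtain ⟨hQK, hQ, v, P, hP, hPv, hPQ, hi⟩ := h
  set N : Subgroup Γ := normalizer Q ⊓ K with hN
  have hnN : ∀ y ∈ normalizer (Q : Set Γ), ∀ n ∈ N, y * n * y⁻¹ ∈ N := fun y hy n hn =>
    ⟨Subgroup.mul_mem _ (Subgroup.mul_mem _ hy hn.1) (Subgroup.inv_mem _ hy),
      hKn.conj_mem _ hn.2 _⟩
  let Z : Subgroup Γ :=
    { carrier := {g | ∀ w, w ∈ orbit N v ↔ g • w ∈ orbit N v}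
      mul_mem' := fun {a b} ha hb w => by rw [mul_smul, ← ha, ← hb]
      one_mem' := fun w => by rw [one_smul]
      inv_mem' := fun {a} ha w => by rw [ha (a⁻¹ • w), smul_inv_smul] }
  have hZ : ∀ T : Subgroup Γ, (∀ g ∈ T, ∀ w ∈ orbit N v, g • w ∈ orbit N v) → T ≤ Z := by
    intro T hT g hg w
    refine ⟨hT g hg w, fun hw => ?_⟩
    have := hT _ (T.inv_mem hg) _ hw
    rwa [inv_smul_smul] at this
  have hNZ : N ≤ Z := hZ N (by
    rintro g hg _ ⟨n, rfl⟩
    exact ⟨⟨g, hg⟩ * n, mul_smul _ _ _⟩)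
  have hPZ : P ≤ Z := hZ P (by
    rintro g hg _ ⟨n, rfl⟩
    refine ⟨⟨_, hnN g (hPQ hg) n n.2⟩, ?_⟩
    show (g * n * g⁻¹) • v = g • (n : Γ) • v
    rw [mul_smul, mul_smul, hPv (P.inv_mem hg)])
  obtain ⟨Q', h1, h2, h3, h4, h5⟩ := exists_syl r (normalizer Q ⊓ Z) N Q
    (le_inf inf_le_left hNZ) (by
      rintro y ⟨hy, -⟩
      rw [mem_normalizer_iff]
      intro n
      refine ⟨hnN y hy n, fun hn => ?_⟩
      have := hnN _ (inv_mem hy) _ hn
      simpa [mul_assoc] using this) (le_inf le_normalizer hQK) hQ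
  have hH : Good C (p ^ a) (Z ⊓ normalizer Q') := good_of hK hP (fun y hy => by
    obtain ⟨h, hh, hh', n, hn, rfl⟩ := h5 y ⟨hPQ hy, hPZ hy⟩
    exact ⟨h, ⟨hh.2, hh'⟩, n, hn.2, rfl⟩)
  obtain ⟨P', -, g2, g3, g4, -⟩ := exists_syl p (Z ⊓ normalizer Q') (Z ⊓ normalizer Q') ⊥ le_rfl
    le_normalizer bot_le IsPGroup.of_bot
  have hO := good_fix π hπ hP hPv (orbit N v) (mem_orbit_self v)
    (fun h hh x hx => (hPZ hh x).1 hx)
  obtain ⟨v', hv', hfix⟩ : ∃ v' ∈ orbit N v, P' ≤ stabilizer Γ v' := by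
    by_contra hc
    push Not at hc
    have h6 : p ∣ (orbit N v).ncard := by
      refine dvd_ncard P' p _ _ rfl (fun h hh x hx => ((g2 hh).1 x).1 hx) fun x hx => ?_
      obtain ⟨j, hj⟩ := g3.index ((stabilizer Γ x).subgroupOf P')
      have h7 : (stabilizer Γ x).relIndex P' = p ^ j := hj
      rcases j with _ | j
      · exact absurd (relIndex_eq_one.1 h7) (hc x hx)
      · rw [h7, pow_succ]
        exact dvd_mul_left _ _
    have h8 := (hO.of_dvd (dvd_pow_self p ha.ne')).symm.trans (Nat.modEq_zero_iff_dvd.2 h6)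
    exact hp.out.ne_one (Nat.dvd_one.1 (Nat.modEq_zero_iff_dvd.1 h8))
  refine ⟨Q', h1, ⟨h2.trans inf_le_right, h3, v', P', good_syl hp.out hH g2 g4, hfix,
    g2.trans inf_le_right, fun hc => hi ?_⟩, h4⟩
  obtain ⟨n, rfl⟩ := hv'
  have h9 := hc.trans (relIndex_dvd_of_le_left _
    (inf_le_inf_right (stabilizer Γ ((n : Γ) • v)) h1))
  have hinj : Function.Injective (MulAut.conj (n : Γ)).toMonoidHom := (MulAut.conj (n : Γ)).injective
  have e1 : Q.map (MulAut.conj (n : Γ)).toMonoidHom = Q := mem_normalizer_iff_map_conj_eq.1 n.2.1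
  have e2 : K.map (MulAut.conj (n : Γ)).toMonoidHom = K :=
    mem_normalizer_iff_map_conj_eq.1 (by rw [normalizer_eq_top]; trivial)
  rw [← relIndex_map_map_of_injective _ _ hinj, map_inf _ _ _ hinj, map_inf _ _ _ hinj, e1, e2,
    ← stabilizer_smul_eq_stabilizer_map_conj]
  exact h9

theorem main (r : ℕ) [hr : Fact r.Prime] (v0 : Ω)
    (π : Ω → Ω → C) (hπ : ∀ (g : Γ) a b, a ≠ b → π (g • a) (g • b) = g • π a b)
    (K : Subgroup Γ) [hKn : K.Normal] (hK : ∀ k ∈ K, ∀ c : C, k • c = c)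
    (hT : ∀ a b : Ω, ∃ k ∈ K, k • a = b) [IsPretransitive Γ C] :
    Nat.ModEq (Nat.card C) (r ^ (Nat.card Ω).factorization r) 1 := by
  have hone : 1 ≤ r ^ (Nat.card Ω).factorization r := Nat.one_le_pow _ _ hr.out.pos
  refine ((Nat.modEq_iff_dvd' hone).2 ?_).symm
  rw [Nat.dvd_iff_prime_pow_dvd_dvd]
  intro p a hp hd
  rcases Nat.eq_zero_or_pos a with rfl | ha
  · simp
  haveI : Fact p.Prime := ⟨hp⟩
  have htop : Good C (p ^ a) (⊤ : Subgroup Γ) := fun c => by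
    rw [relIndex_top_right, index_stabilizer_of_transitive]
    exact hd
  have h0 : ∃ Q, State C Ω r (p ^ a) K Q := by
    obtain ⟨Q, -, h2, h3, h4, h5⟩ := exists_syl r (stabilizer Γ v0) (K ⊓ stabilizer Γ v0) ⊥
      inf_le_right (by
        intro y hy
        rw [mem_normalizer_iff]
        intro n
        constructor
        · intro hn
          exact ⟨hKn.conj_mem _ hn.1 _, Subgroup.mul_mem _ (Subgroup.mul_mem _ hy hn.2) (Subgroup.inv_mem _ hy)⟩
        · intro hn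
          have : y⁻¹ * (y * n * y⁻¹) * y⁻¹⁻¹ ∈ K ⊓ stabilizer Γ v0 :=
            ⟨hKn.conj_mem _ hn.1 _, Subgroup.mul_mem _ (Subgroup.mul_mem _ (Subgroup.inv_mem _ hy) hn.2)
              (Subgroup.inv_mem _ (Subgroup.inv_mem _ hy))⟩
          simpa [mul_assoc] using this) bot_le IsPGroup.of_bot
    have g1 : Good C (p ^ a) (stabilizer Γ v0) := good_of hK htop fun y _ => by
      obtain ⟨k, hk, hk'⟩ := hT v0 (y⁻¹ • v0)
      refine ⟨y * k, ?_, k⁻¹, K.inv_mem hk, by group⟩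
      show (y * k) • v0 = v0
      rw [mul_smul, hk', smul_inv_smul]
    refine ⟨Q, h2.trans inf_le_left, h3, v0, stabilizer Γ v0 ⊓ normalizer Q,
      good_of hK g1 fun y hy => ?_, inf_le_left, inf_le_right, ?_⟩
    · obtain ⟨h, hh, hh', n, hn, rfl⟩ := h5 y hy
      exact ⟨h, ⟨hh, hh'⟩, n, hn.1, rfl⟩
    · rwa [inf_eq_left.2 (h2.trans inf_le_right)]
  obtain ⟨Q, hQ⟩ := (Set.toFinite {Q : Subgroup Γ | State C Ω r (p ^ a) K Q}).exists_maximal h0
  obtain ⟨Q', k1, k2, k3⟩ := step r p a ha π hπ K hK Q hQ.1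
  obtain rfl : Q = Q' := le_antisymm k1 (hQ.2 k2 k1)
  obtain ⟨hQK, hQp, v, P, hP, hPv, hPQ, hi⟩ := k2
  have hs := syl_of_normalizer r hQK hQp k3
  have hO := good_fix π hπ hP hPv (orbit Q v) (mem_orbit_self v) (by
    rintro g hg _ ⟨n, rfl⟩
    refine ⟨⟨_, (mem_normalizer_iff.1 (hPQ hg) n).1 n.2⟩, ?_⟩
    show (g * n * g⁻¹) • v = g • (n : Γ) • v
    rw [mul_smul, mul_smul, hPv (P.inv_mem hg)])
  obtain ⟨j, hj⟩ := hQp.index ((stabilizer Γ v).subgroupOf Q)
  have h7 : (stabilizer Γ v).relIndex Q = r ^ j := hj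
  have hn : (stabilizer Γ v).relIndex K = Nat.card Ω := by
    rw [← ncard_orbit, ← Set.ncard_univ]
    congr 1
    refine Set.eq_univ_of_forall fun b => ?_
    obtain ⟨k, hk, rfl⟩ := hT v b
    exact ⟨⟨k, hk⟩, rfl⟩
  have e1 := relIndex_mul_relIndex (Q ⊓ stabilizer Γ v) Q K inf_le_left hQK
  have e2 := relIndex_mul_relIndex (Q ⊓ stabilizer Γ v) (K ⊓ stabilizer Γ v) K
    (inf_le_inf_right _ hQK) inf_le_left
  rw [inf_relIndex_left, h7] at e1
  rw [inf_relIndex_left, hn, ← e1] at e2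
  have hj' : (Nat.card Ω).factorization r = j := by
    haveI : Nonempty Ω := ⟨v⟩
    have a1 : (Q ⊓ stabilizer Γ v).relIndex (K ⊓ stabilizer Γ v) ≠ 0 := fun h => hi (h ▸ dvd_zero _)
    have a2 : Q.relIndex K ≠ 0 := fun h => hs (h ▸ dvd_zero _)
    have := congrArg (fun x => Nat.factorization x r) e2
    simp only [Nat.factorization_mul a1 Nat.card_pos.ne', Nat.factorization_mul (pow_ne_zero j hr.out.ne_zero) a2, Finsupp.add_apply, Nat.factorization_eq_zero_of_not_dvd hi,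
      Nat.factorization_eq_zero_of_not_dvd hs, Nat.Prime.factorization_pow hr.out,
      Finsupp.single_eq_same] at this
    omega
  rw [ncard_orbit, h7, ← hj'] at hO
  exact (Nat.modEq_iff_dvd' hone).1 hO.symm

end general

/-- The negation of the preceding statement: There exist M < G acting on n points with M transitive, and a partition of ordered distinct pairs into k ≥ 2 classes, G-invariant, G-transitive, each fixed by M, with G inducing a non-cyclic group on the classes and some prime part of n not ≡ 1 mod k. -/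
theorem result :
    ¬ (∃ (n k : ℕ) (M G : Subgroup (Equiv.Perm (Fin n))) (c : Fin n → Fin n → Fin k),
    2 ≤ k ∧ M < G ∧
    (∀ a b : Fin n, ∃ m ∈ M, m a = b) ∧
    (∀ i : Fin k, ∃ a b : Fin n, a ≠ b ∧ c a b = i) ∧
    (∀ g ∈ G, ∃ σ : Equiv.Perm (Fin k),
      ∀ a b : Fin n, a ≠ b → c (g a) (g b) = σ (c a b)) ∧
    (∀ i j : Fin k, ∃ g ∈ G,
      ∀ a b : Fin n, a ≠ b → c a b = i → c (g a) (g b) = j) ∧
    (∀ m ∈ M, ∀ a b : Fin n, a ≠ b → c (m a) (m b) = c a b) ∧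
    (¬ ∃ τ : Equiv.Perm (Fin k), ∀ g ∈ G, ∃ z : ℤ,
      ∀ a b : Fin n, a ≠ b → c (g a) (g b) = (τ ^ z) (c a b)) ∧
    (∃ r : ℕ, r.Prime ∧ r ∣ n ∧ ¬ Nat.ModEq k (r ^ (n.factorization r)) 1)) := by
  rintro ⟨n, k, M, G, c, hk, hMG, hM, hc, hG, hGt, hMc, -, r, hr, hrn, hmod⟩
  haveI : Fact r.Prime := ⟨hr⟩
  choose σ hσ using hG
  choose s t hst using hc
  letI : MulAction G (Fin k) :=
    { smul := fun g i => σ g g.2 i
      one_smul := fun i => by
        have := hσ _ G.one_mem (s i) (t i) (hst i).1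
        rw [(hst i).2] at this
        exact this.symm.trans (hst i).2
      mul_smul := fun g h i => by
        have h1 := hσ _ (g * h).2 (s i) (t i) (hst i).1
        have h2 := hσ _ h.2 (s i) (t i) (hst i).1
        have h3 := hσ _ g.2 ((h : Equiv.Perm (Fin n)) (s i)) ((h : Equiv.Perm (Fin n)) (t i))
          ((h : Equiv.Perm (Fin n)).injective.ne (hst i).1)
        rw [(hst i).2] at h1 h2
        rw [h2] at h3
        exact h1.symm.trans h3 }
  have hπ : ∀ (g : G) (a b : Fin n), a ≠ b → c (g • a) (g • b) = g • c a b :=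
    fun g a b hab => hσ g g.2 a b hab
  haveI : MulAction.IsPretransitive G (Fin k) := ⟨fun i j => by
    obtain ⟨g, hg, h⟩ := hGt i j
    refine ⟨⟨g, hg⟩, ?_⟩
    rw [← (hst i).2, ← hπ _ _ _ (hst i).1]
    exact h _ _ (hst i).1 (hst i).2⟩
  have := main (Γ := G) r (s ⟨0, by omega⟩) c hπ (MulAction.toPermHom G (Fin k)).ker
    (fun g hg i => by
      have : MulAction.toPermHom G (Fin k) g = 1 := hg
      exact DFunLike.congr_fun this i)
    (fun a b => by
      obtain ⟨m, hm, h⟩ := hM a b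
      refine ⟨⟨m, hMG.le hm⟩, ?_, h⟩
      refine Equiv.ext fun i => ?_
      show (⟨m, hMG.le hm⟩ : G) • i = i
      rw [← (hst i).2, ← hπ _ _ _ (hst i).1]
      exact hMc m hm _ _ (hst i).1)
  simp only [Nat.card_eq_fintype_card, Fintype.card_fin] at this
  exact hmod this

end Pool.Agent.S00960
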