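import Pool.Statements.S00995

set_option autoImplicit false
open Pool Pool.MP_271f28_al

namespace Pool.Agent.S00995

section
variable {S : Type} [Semigroup S]

/-- the subsemigroup with an identity adjoined -/
def T1 (T : Subsemigroup S) : Submonoid (WithOne S) where
  carrier := {u | u = 1 ∨ ∃ t ∈ T, u = (t : WithOne S)}
  one_mem' := Or.inl rfl
  mul_mem' := by
    rintro a b (rfl | ⟨s, hs, rfl⟩) hb
    · simpa using hb
    · rcases hb with rfl | ⟨t, ht, rfl⟩
      · exact Or.inr ⟨s, hs, mul_one _⟩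
      · exact Or.inr ⟨s * t, T.mul_mem hs ht, rfl⟩

def RR (T : Subsemigroup S) (x y : S) : Prop := ∃ u ∈ T1 T, (y : WithOne S) = x * u
def LL (T : Subsemigroup S) (x y : S) : Prop := ∃ u ∈ T1 T, (y : WithOne S) = u * x
def HH (T : Subsemigroup S) (x y : S) : Prop := (RR T x y ∧ RR T y x) ∧ (LL T x y ∧ LL T y x)

variable {T : Subsemigroup S}

theorem RR.refl (x : S) : RR T x x := ⟨1, (T1 T).one_mem, (mul_one _).symm⟩
theorem LL.refl (x : S) : LL T x x := ⟨1, (T1 T).one_mem, (one_mul _).symm⟩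
theorem RR.trans {x y z : S} : RR T x y → RR T y z → RR T x z := by
  rintro ⟨u, hu, h⟩ ⟨v, hv, k⟩
  exact ⟨u * v, (T1 T).mul_mem hu hv, by rw [k, h, mul_assoc]⟩
theorem LL.trans {x y z : S} : LL T x y → LL T y z → LL T x z := by
  rintro ⟨u, hu, h⟩ ⟨v, hv, k⟩
  exact ⟨v * u, (T1 T).mul_mem hv hu, by rw [k, h, mul_assoc]⟩
theorem HH.refl (x : S) : HH T x x := ⟨⟨RR.refl x, RR.refl x⟩, LL.refl x, LL.refl x⟩
theorem HH.symm {x y : S} (h : HH T x y) : HH T y x := ⟨h.1.symm, h.2.symm⟩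
theorem HH.trans {x y z : S} (h : HH T x y) (k : HH T y z) : HH T x z :=
  ⟨⟨h.1.1.trans k.1.1, k.1.2.trans h.1.2⟩, h.2.1.trans k.2.1, k.2.2.trans h.2.2⟩

theorem RR_iff (x y : S) : RR T x y ↔ y = x ∨ ∃ t ∈ T, x * t = y := by
  constructor
  · rintro ⟨u, rfl | ⟨t, ht, rfl⟩, h⟩
    · left; rw [mul_one] at h; exact WithOne.coe_inj.1 h
    · right; exact ⟨t, ht, (WithOne.coe_inj.1 h).symm⟩
  · rintro (rfl | ⟨t, ht, rfl⟩)
    · exact RR.refl _
    · exact ⟨t, Or.inr ⟨t, ht, rfl⟩, rfl⟩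

theorem LL_iff (x y : S) : LL T x y ↔ y = x ∨ ∃ t ∈ T, t * x = y := by
  constructor
  · rintro ⟨u, rfl | ⟨t, ht, rfl⟩, h⟩
    · left; rw [one_mul] at h; exact WithOne.coe_inj.1 h
    · right; exact ⟨t, ht, (WithOne.coe_inj.1 h).symm⟩
  · rintro (rfl | ⟨t, ht, rfl⟩)
    · exact LL.refl _
    · exact ⟨t, Or.inr ⟨t, ht, rfl⟩, rfl⟩

theorem HH_iff (x y : S) :
    (insert x ((fun t => x * t) '' (T : Set S)) = insert y ((fun t => y * t) '' (T : Set S)) ∧
      insert x ((fun t => t * x) '' (T : Set S)) = insert y ((fun t => t * y) '' (T : Set S))) ↔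
      HH T x y := by
  have hR : ∀ x z : S, z ∈ insert x ((fun t => x * t) '' (T : Set S)) ↔ RR T x z := fun x z => by
    rw [RR_iff]; rfl
  have hL : ∀ x z : S, z ∈ insert x ((fun t => t * x) '' (T : Set S)) ↔ LL T x z := fun x z => by
    rw [LL_iff]; rfl
  simp only [Set.ext_iff, hR, hL]
  constructor
  · rintro ⟨h1, h2⟩
    exact ⟨⟨(h1 y).2 (RR.refl y), (h1 x).1 (RR.refl x)⟩, (h2 y).2 (LL.refl y), (h2 x).1 (LL.refl x)⟩
  · rintro ⟨⟨h1, h2⟩, h3, h4⟩
    exact ⟨fun z => ⟨h2.trans, h1.trans⟩, fun z => ⟨h4.trans, h3.trans⟩⟩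

theorem RR.mem {x y : S} (h : RR T x y) (hx : x ∈ T) : y ∈ T := by
  rcases (RR_iff x y).1 h with rfl | ⟨t, ht, rfl⟩
  · exact hx
  · exact T.mul_mem hx ht

/-- the relative class of an element -/
def cls (T : Subsemigroup S) (x : S) : Set S := {y | HH T x y}

theorem cls_eq {x y : S} : cls T x = cls T y ↔ HH T x y := by
  constructor
  · intro h
    have : y ∈ cls T x := h ▸ HH.refl y
    exact this
  · intro h
    ext z
    exact ⟨h.symm.trans, h.trans⟩

theorem exists_reps (hfin : Set.Finite {C : Set S | ∃ x : S, x ∉ T ∧ C = cls T x}) :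
    ∃ X : Set S, X.Finite ∧ (∀ r ∈ X, r ∉ T) ∧ ∀ x, x ∉ T → ∃ r ∈ X, HH T r x := by
  have : Finite {C : Set S | ∃ x : S, x ∉ T ∧ C = cls T x} := hfin
  choose r hr using fun C : {C : Set S | ∃ x : S, x ∉ T ∧ C = cls T x} => C.2
  refine ⟨Set.range r, Set.finite_range r, ?_, fun x hx => ?_⟩
  · rintro _ ⟨C, rfl⟩; exact (hr C).1
  · exact ⟨_, ⟨⟨cls T x, x, hx, rfl⟩, rfl⟩, (cls_eq.1 (hr ⟨cls T x, x, hx, rfl⟩).2).symm⟩

/-- residual of the subsemigroup -/
def ty (T : Subsemigroup S) (x : WithOne S) : Set (WithOne S) :=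
  {a | ∃ t ∈ T, a * x = (t : WithOne S)}

theorem ty_finite {X : Set S} (hX : X.Finite) (hrep : ∀ x, x ∉ T → ∃ r ∈ X, HH T r x) :
    (Set.range (ty T)).Finite := by
  have hmul : ∀ u ∈ T1 T, ∀ t ∈ T, ∃ t' ∈ T, u * (t : WithOne S) = t' := by
    rintro u (rfl | ⟨s, hs, rfl⟩) t ht
    · exact ⟨t, ht, one_mul _⟩
    · exact ⟨s * t, T.mul_mem hs ht, rfl⟩
  have hmul' : ∀ u ∈ T1 T, ∀ t ∈ T, ∃ t' ∈ T, (t : WithOne S) * u = t' := by
    rintro u (rfl | ⟨s, hs, rfl⟩) t ht
    · exact ⟨t, ht, mul_one _⟩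
    · exact ⟨t * s, T.mul_mem ht hs, rfl⟩
  refine (((Set.finite_singleton (ty T 1)).union (hX.image (fun r : S => ty T r))).union
    (hX.finite_subsets.image (fun Y : Set S =>
      {a : WithOne S | a ∈ T1 T ∨ ∃ r ∈ Y, ∃ u ∈ T1 T, a = u * r}))).subset ?_
  rintro _ ⟨x, rfl⟩
  induction x using WithOne.recOneCoe with
  | one => exact Or.inl (Or.inl rfl)
  | coe x =>
    by_cases hx : x ∈ T
    · refine Or.inr ⟨{r | r ∈ X ∧ r * x ∈ T}, fun r hr => hr.1, ?_⟩
      ext a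
      constructor
      · rintro (ha | ⟨r, ⟨-, hr⟩, u, hu, rfl⟩)
        · exact hmul a ha x hx
        · obtain ⟨t', ht', h⟩ := hmul u hu _ hr
          exact ⟨t', ht', by rw [mul_assoc, ← h]; rfl⟩
      · rintro ⟨t, ht, h⟩
        induction a using WithOne.recOneCoe with
        | one => exact Or.inl (T1 T).one_mem
        | coe s =>
          by_cases hs : s ∈ T
          · exact Or.inl (Or.inr ⟨s, hs, rfl⟩)
          · obtain ⟨r, hr, ⟨-, ⟨u, hu, e1⟩, ⟨v, hv, e2⟩⟩⟩ := hrep s hs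
            refine Or.inr ⟨r, ⟨hr, ?_⟩, u, hu, e1⟩
            obtain ⟨t', ht', h'⟩ := hmul v hv t ht
            have : ((r * x : S) : WithOne S) = t' := by
              rw [WithOne.coe_mul, e2, mul_assoc, h, h']
            rw [WithOne.coe_inj.1 this]; exact ht'
    · obtain ⟨r, hr, ⟨⟨u, hu, e1⟩, ⟨v, hv, e2⟩⟩, -⟩ := hrep x hx
      refine Or.inl (Or.inr ⟨r, hr, ?_⟩)
      ext a
      constructor
      · rintro ⟨t, ht, h⟩
        obtain ⟨t', ht', h'⟩ := hmul' u hu t ht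
        exact ⟨t', ht', by rw [e1, ← mul_assoc, h, h']⟩
      · rintro ⟨t, ht, h⟩
        obtain ⟨t', ht', h'⟩ := hmul' v hv t ht
        exact ⟨t', ht', by rw [e2, ← mul_assoc, h, h']⟩

/-- the action on residuals -/
def act (T : Subsemigroup S) : S →ₙ* Function.End (Set.range (ty T)) where
  toFun s := fun A => ⟨{a | a * s ∈ A.1}, by
    obtain ⟨x, hx⟩ := A.2
    refine ⟨s * x, ?_⟩
    rw [← hx]
    ext a
    simp only [ty, Set.mem_ofPred_eq, mul_assoc]⟩
  map_mul' s s' := by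
    funext A
    refine Subtype.ext ?_
    ext a
    show a * ((s * s' : S) : WithOne S) ∈ A.1 ↔ a * s * s' ∈ A.1
    rw [WithOne.coe_mul, mul_assoc]

theorem mem_iff_act (s : S) : s ∈ T ↔ (1 : WithOne S) ∈ (act T s ⟨ty T 1, 1, rfl⟩).1 := by
  show s ∈ T ↔ ∃ t ∈ T, (1 : WithOne S) * s * 1 = (t : WithOne S)
  simp

/-- iterates of an endomorphism -/
def iter (f : S →ₙ* S) (n : ℕ) : S →ₙ* S where
  toFun := f^[n]
  map_mul' := iterate_map_mul f n

theorem exists_lt_eq {β : Type} [Finite β] (g : ℕ → β) : ∃ n k, 0 < k ∧ g n = g (k + n) := by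
  obtain ⟨a, b, hab, h⟩ := Finite.exists_ne_map_eq_of_infinite g
  rcases lt_or_gt_of_ne hab with h' | h'
  · exact ⟨a, b - a, by omega, by rw [h]; congr 1; omega⟩
  · exact ⟨b, a - b, by omega, by rw [← h]; congr 1; omega⟩

theorem step1 {F : Finset S} (hF : Subsemigroup.closure (↑F : Set S) = T) {X : Set S}
    (hX : X.Finite) (hrep : ∀ x, x ∉ T → ∃ r ∈ X, HH T r x) (f : S →ₙ* S)
    (hf : Function.Surjective f) : ∃ m, 0 < m ∧ ∀ s, s ∈ T ↔ f^[m] s ∈ T := by
  have hfin : Finite (Set.range (ty T)) := ty_finite hX hrep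
  have hY : ((F : Set S) ∪ X).Finite := F.finite_toSet.union hX
  have hY' : Finite ((F : Set S) ∪ X : Set S) := hY
  have hE : Finite (Function.End (Set.range (ty T))) :=
    inferInstanceAs (Finite (Set.range (ty T) → Set.range (ty T)))
  have hgen : Subsemigroup.closure ((F : Set S) ∪ X) = ⊤ := by
    rw [eq_top_iff]
    have hT : T ≤ Subsemigroup.closure ((F : Set S) ∪ X) := by
      rw [← hF]; exact Subsemigroup.closure_mono Set.subset_union_left
    intro s _
    by_cases hs : s ∈ T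
    · exact hT hs
    · obtain ⟨r, hr, h⟩ := hrep s hs
      have hr' : r ∈ Subsemigroup.closure ((F : Set S) ∪ X) :=
        Subsemigroup.subset_closure (Or.inr hr)
      rcases (RR_iff r s).1 h.1.1 with rfl | ⟨t, ht, rfl⟩
      · exact hr'
      · exact Subsemigroup.mul_mem _ hr' (hT ht)
  obtain ⟨n, k, hk, h⟩ := exists_lt_eq
    (fun n => fun x : ((F : Set S) ∪ X : Set S) => act T (f^[n] x))
  have h2 : (act T).comp (iter f n) = (act T).comp (iter f (k + n)) :=
    MulHom.eq_of_eqOn_dense hgen (fun x hx => congrFun h ⟨x, hx⟩)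
  refine ⟨k, hk, fun s => ?_⟩
  obtain ⟨x, rfl⟩ := hf.iterate n s
  have h3 : act T (f^[n] x) = act T (f^[k + n] x) := DFunLike.congr_fun h2 x
  rw [mem_iff_act, mem_iff_act (f^[k] _), h3, Function.iterate_add_apply]

theorem map_T1 (g : S →ₙ* S) (hg : ∀ s, s ∈ T → g s ∈ T) {u : WithOne S} (hu : u ∈ T1 T) :
    WithOne.mapMulHom g u ∈ T1 T := by
  rcases hu with rfl | ⟨t, ht, rfl⟩
  · exact Or.inl (map_one _)
  · exact Or.inr ⟨g t, hg t ht, rfl⟩

theorem HH.map (g : S →ₙ* S) (hg : ∀ s, s ∈ T → g s ∈ T) {x y : S} (h : HH T x y) :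
    HH T (g x) (g y) := by
  have hR : ∀ x y, RR T x y → RR T (g x) (g y) := by
    rintro x y ⟨u, hu, e⟩
    refine ⟨_, map_T1 g hg hu, ?_⟩
    have := congrArg (WithOne.mapMulHom g) e
    rwa [map_mul] at this
  have hL : ∀ x y, LL T x y → LL T (g x) (g y) := by
    rintro x y ⟨u, hu, e⟩
    refine ⟨_, map_T1 g hg hu, ?_⟩
    have := congrArg (WithOne.mapMulHom g) e
    rwa [map_mul] at this
  exact ⟨⟨hR _ _ h.1.1, hR _ _ h.1.2⟩, hL _ _ h.2.1, hL _ _ h.2.2⟩

theorem step2 (hfin : Set.Finite {C : Set S | ∃ x : S, x ∉ T ∧ C = cls T x}) {X : Set S}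
    (hX : X.Finite) (hXT : ∀ r ∈ X, r ∉ T) (hrep : ∀ x, x ∉ T → ∃ r ∈ X, HH T r x) (g : S →ₙ* S)
    (hg : Function.Surjective g) (hT : ∀ s, s ∈ T ↔ g s ∈ T) :
    ∃ k, 0 < k ∧ ∀ x, x ∉ T → HH T x (g^[k] x) := by
  have h1 : Finite {C : Set S | ∃ x : S, x ∉ T ∧ C = cls T x} := hfin
  have h2 : Finite X := hX
  have hTn : ∀ n s, s ∈ T ↔ g^[n] s ∈ T := by
    intro n
    induction n with
    | zero => intro s; rfl
    | succ n ih => intro s; rw [Function.iterate_succ_apply', ← hT, ← ih]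
  obtain ⟨n, k, hk, h⟩ := exists_lt_eq (fun n => fun r : X =>
    (⟨cls T (g^[n] r), g^[n] r, fun hc => hXT r r.2 ((hTn n r).2 hc), rfl⟩ :
      {C : Set S | ∃ x : S, x ∉ T ∧ C = cls T x}))
  refine ⟨k, hk, fun y hy => ?_⟩
  obtain ⟨x, rfl⟩ := hg.iterate n y
  obtain ⟨r, hr, hrx⟩ := hrep x (fun hc => hy ((hTn n x).1 hc))
  have h3 : HH T (g^[n] r) (g^[k + n] r) := cls_eq.1 (congrArg Subtype.val (congrFun h ⟨r, hr⟩))
  have h4 : HH T (g^[n] r) (g^[n] x) := hrx.map (iter g n) (fun s => (hTn n s).1)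
  have h5 : HH T (g^[k + n] r) (g^[k + n] x) := hrx.map (iter g (k + n)) (fun s => (hTn _ s).1)
  rw [← Function.iterate_add_apply]
  exact h4.symm.trans (h3.trans h5)

/-- the stabiliser -/
abbrev St (T : Subsemigroup S) (H : Set S) : Submonoid (WithOne S) :=
  Submonoid.closure {u : WithOne S | u = 1 ∨
    ∃ t ∈ T, u = (t : WithOne S) ∧ (fun h => h * t) '' H = H}

theorem mem_St (H : Set S) (u : WithOne S) : u ∈ St T H ↔
    u = 1 ∨ ∃ t ∈ T, u = (t : WithOne S) ∧ (fun h => h * t) '' H = H := by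
  constructor
  · intro hu
    induction hu using Submonoid.closure_induction with
    | mem x hx => exact hx
    | one => exact Or.inl rfl
    | mul a b _ _ ha hb =>
      rcases ha with rfl | ⟨s, hs, rfl, hs'⟩
      · simpa using hb
      · rcases hb with rfl | ⟨t, ht, rfl, ht'⟩
        · exact Or.inr ⟨s, hs, mul_one _, hs'⟩
        · refine Or.inr ⟨s * t, T.mul_mem hs ht, rfl, ?_⟩
          conv_rhs => rw [← ht', ← hs', Set.image_image]
          simp only [mul_assoc]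
  · intro hu; exact Submonoid.subset_closure hu

theorem St_act {H : Set S} {u : WithOne S} (hu : u ∈ St T H) {h : S} (hh : h ∈ H) :
    ∃ h' ∈ H, (h : WithOne S) * u = h' := by
  rcases (mem_St H u).1 hu with rfl | ⟨t, -, rfl, ht⟩
  · exact ⟨h, hh, mul_one _⟩
  · exact ⟨h * t, ht ▸ ⟨h, hh, rfl⟩, rfl⟩

/-- the kernel of the action -/
def sig (T : Subsemigroup S) (H : Set S) : Con (St T H) where
  r a b := ∀ h ∈ H, (h : WithOne S) * (a : WithOne S) = (h : WithOne S) * (b : WithOne S)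
  iseqv := ⟨fun _ _ _ => rfl, fun h x hx => (h x hx).symm, fun h k x hx => (h x hx).trans (k x hx)⟩
  mul' := by
    intro a b c d h k x hx
    obtain ⟨y, hy, e⟩ := St_act b.2 hx
    rw [Submonoid.coe_mul, Submonoid.coe_mul, ← mul_assoc, ← mul_assoc, h x hx, e, k y hy]

theorem green_aux {x h h' z t : S} {v : WithOne S} (hv : v ∈ T1 T) (ht : t ∈ T)
    (hh : HH T x h) (hh' : HH T x h') (hz : HH T x z) (e1 : h' = h * t)
    (e2 : (h : WithOne S) = h' * v) : HH T x (z * t) := by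
  obtain ⟨-, ⟨a, ha, ea⟩, ⟨b, hb, eb⟩⟩ := hh.symm.trans hz
  have k1 : RR T z (z * t) := ⟨t, Or.inr ⟨t, ht, rfl⟩, rfl⟩
  have k2 : RR T (z * t) z := ⟨v, hv, by
    rw [WithOne.coe_mul, ea, mul_assoc a, mul_assoc a, ← WithOne.coe_mul, ← e1, ← e2]⟩
  have k3 : LL T h' (z * t) := ⟨a, ha, by rw [WithOne.coe_mul, ea, e1, WithOne.coe_mul, mul_assoc]⟩
  have k4 : LL T (z * t) h' := ⟨b, hb, by
    rw [WithOne.coe_mul, ← mul_assoc, ← eb, e1, WithOne.coe_mul]⟩
  exact ⟨⟨hz.1.1.trans k1, k2.trans hz.1.2⟩, hh'.2.1.trans k3, k4.trans hh'.2.2⟩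

theorem green {x h h' : S} (hh : HH T x h) (hh' : HH T x h') :
    ∃ u ∈ St T (cls T x), (h' : WithOne S) = h * u := by
  obtain ⟨⟨k1, k2⟩, -⟩ := hh.symm.trans hh'
  rcases (RR_iff _ _).1 k1 with rfl | ⟨t, ht, e1⟩
  · exact ⟨1, Submonoid.one_mem _, (mul_one _).symm⟩
  rcases (RR_iff _ _).1 k2 with rfl | ⟨s, hs, e2⟩
  · exact ⟨1, Submonoid.one_mem _, (mul_one _).symm⟩
  refine ⟨t, (mem_St _ _).2 (Or.inr ⟨t, ht, rfl, ?_⟩), by rw [← e1]; rfl⟩
  ext z
  constructor
  · rintro ⟨y, hy, rfl⟩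
    exact green_aux (v := s) (Or.inr ⟨s, hs, rfl⟩) ht hh hh' hy e1.symm (by rw [← e2]; rfl)
  · intro hz
    refine ⟨z * s, green_aux (v := t) (Or.inr ⟨t, ht, rfl⟩) hs hh' hh hz e2.symm
      (by rw [← e1]; rfl), ?_⟩
    obtain ⟨-, k3, -⟩ := hh'.symm.trans hz
    show z * s * t = z
    rcases (LL_iff _ _).1 k3 with rfl | ⟨a, -, rfl⟩
    · rw [e2, e1]
    · rw [mul_assoc a, e2, mul_assoc a, e1]

theorem sig_of {x h : S} (hh : HH T x h) (a b : St T (cls T x))
    (e : (h : WithOne S) * a = h * b) : sig T (cls T x) a b := by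
  intro z hz
  obtain ⟨-, ⟨u, -, eu⟩, -⟩ := hh.symm.trans hz
  rw [eu, mul_assoc, e, mul_assoc]

theorem step3 (g : S →ₙ* S) (hg : Function.Surjective g) (hT : ∀ s, s ∈ T ↔ g s ∈ T)
    (hH : ∀ x, x ∉ T → HH T x (g x)) {x : S} (hx : x ∉ T)
    (hopf : ∀ f : (sig T (cls T x)).Quotient →* (sig T (cls T x)).Quotient,
      Function.Surjective f → Function.Injective f) {y : S} (hxy : g x = g y) : x = y := by
  have hnot : ∀ z, HH T x z → z ∉ T := fun z hz hc => hx (hz.1.2.mem hc)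
  have hin : ∀ z, HH T x z → HH T x (g z) := fun z hz => hz.trans (hH z (hnot z hz))
  have hsur : ∀ z, HH T x z → ∃ w, HH T x w ∧ g w = z := by
    intro z hz
    obtain ⟨w, rfl⟩ := hg z
    exact ⟨w, hz.trans (hH w (fun hc => hnot _ hz ((hT w).1 hc))).symm, rfl⟩
  have hst : ∀ u ∈ St T (cls T x), WithOne.mapMulHom g u ∈ St T (cls T x) := by
    intro u hu
    rcases (mem_St _ u).1 hu with rfl | ⟨t, ht, rfl, ht'⟩
    · rw [map_one]; exact Submonoid.one_mem _
    · refine (mem_St _ _).2 (Or.inr ⟨g t, (hT t).1 ht, rfl, ?_⟩)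
      ext z
      constructor
      · rintro ⟨h, hh, rfl⟩
        obtain ⟨w, hw, rfl⟩ := hsur h hh
        have : w * t ∈ cls T x := ht' ▸ ⟨w, hw, rfl⟩
        have h2 := hin _ this
        rwa [map_mul] at h2
      · intro hz
        obtain ⟨w, hw, rfl⟩ := hsur z hz
        have : w ∈ (fun h => h * t) '' cls T x := ht'.symm ▸ hw
        obtain ⟨w', hw', rfl⟩ := this
        exact ⟨g w', hin _ hw', (map_mul g w' t).symm⟩
  let G : St T (cls T x) →* St T (cls T x) :=
    ((WithOne.mapMulHom g).comp (Submonoid.subtype _)).codRestrict _ (fun u => hst u u.2)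
  have hG : ∀ u, ((G u : St T (cls T x)) : WithOne S) = WithOne.mapMulHom g u := fun u => rfl
  have hcoe : ∀ s : S, WithOne.mapMulHom g (s : WithOne S) = g s := fun s => rfl
  let Φ : (sig T (cls T x)).Quotient →* (sig T (cls T x)).Quotient :=
    Con.lift _ ((sig T (cls T x)).mk'.comp G) (by
      intro a b hab
      rw [Con.ker_rel]
      refine (Con.eq _).2 (sig_of (hH x hx) _ _ ?_)
      rw [hG, hG, ← hcoe, ← map_mul, ← map_mul, hab x (HH.refl x)])
  have hΦ : ∀ u : St T (cls T x), Φ u = ((G u : St T (cls T x)) : (sig T (cls T x)).Quotient) :=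
    fun u => rfl
  have hinj := hopf Φ (by
    intro q
    obtain ⟨u, rfl⟩ := Con.mk'_surjective q
    obtain ⟨h', hh', e⟩ := St_act u.2 (hH x hx)
    obtain ⟨w, hw, rfl⟩ := hsur h' hh'
    obtain ⟨v, hv, ev⟩ := green (HH.refl x) hw
    refine ⟨(⟨v, hv⟩ : St T (cls T x)), ?_⟩
    rw [hΦ]
    refine (Con.eq _).2 (sig_of (hH x hx) _ _ ?_)
    rw [hG, e, ← hcoe, ← hcoe, ← map_mul, ev])
  have hy : y ∉ T := fun hc => hx ((hT x).2 (hxy ▸ (hT y).1 hc))
  have hxy' : HH T x y := (hH x hx).trans (hxy ▸ (hH y hy).symm)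
  obtain ⟨v, hv, ev⟩ := green (HH.refl x) hxy'
  have h1 : Φ ((⟨v, hv⟩ : St T (cls T x)) : (sig T (cls T x)).Quotient) =
      Φ ((1 : St T (cls T x)) : (sig T (cls T x)).Quotient) := by
    rw [hΦ, hΦ]
    refine (Con.eq _).2 (sig_of (hH x hx) _ _ ?_)
    rw [hG, hG, ← hcoe, ← map_mul, ← map_mul]
    show WithOne.mapMulHom g (x * v) = WithOne.mapMulHom g (x * 1)
    rw [← ev, mul_one, hcoe, hcoe, hxy]
  have h2 := (Con.eq _).1 (hinj h1) x (HH.refl x)
  have h3 : (y : WithOne S) = x := by rw [ev, h2]; exact mul_one _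
  exact (WithOne.coe_inj.1 h3).symm

end
/-- If T is a finitely generated hopfian subsemigroup of S with finitely many relative H-classes outside T, and every relative Schützenberger group of such a class is hopfian, then every surjective endomorphism of S is injective. -/
theorem result :
  ∀ (S : Type) [Semigroup S] (T : Subsemigroup S),
    (∃ F : Finset S, Subsemigroup.closure (↑F : Set S) = T) →
    Set.Finite {C : Set S | ∃ x : S, x ∉ T ∧ C = {y : S |
        insert x ((fun t => x * t) '' (T : Set S)) = insert y ((fun t => y * t) '' (T : Set S)) ∧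
        insert x ((fun t => t * x) '' (T : Set S)) = insert y ((fun t => t * y) '' (T : Set S))}} →
    (∀ f : T →ₙ* T, Function.Surjective f → Function.Injective f) →
    (∀ H : Set S, (∃ x : S, x ∉ T ∧ H = {y : S |
        insert x ((fun t => x * t) '' (T : Set S)) = insert y ((fun t => y * t) '' (T : Set S)) ∧
        insert x ((fun t => t * x) '' (T : Set S)) = insert y ((fun t => t * y) '' (T : Set S))}) →
      ∀ f : (conGen (fun a b : ↥(Submonoid.closure {u : WithOne S | u = 1 ∨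
                ∃ t ∈ T, u = (t : WithOne S) ∧ (fun h => h * t) '' H = H}) =>
              ∀ h ∈ H, (h : WithOne S) * (a : WithOne S) = (h : WithOne S) * (b : WithOne S))).Quotient →*
            (conGen (fun a b : ↥(Submonoid.closure {u : WithOne S | u = 1 ∨
                ∃ t ∈ T, u = (t : WithOne S) ∧ (fun h => h * t) '' H = H}) =>
              ∀ h ∈ H, (h : WithOne S) * (a : WithOne S) = (h : WithOne S) * (b : WithOne S))).Quotient,
        Function.Surjective f → Function.Injective f) →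
    ∀ f : S →ₙ* S, Function.Surjective f → Function.Injective f := by
  intro S _ T ⟨F, hF⟩ hfin hT hΓ f hf
  simp only [HH_iff] at hfin hΓ
  obtain ⟨X, hX, hXT, hrep⟩ := exists_reps hfin
  obtain ⟨m, hm, h1⟩ := step1 hF hX hrep f hf
  obtain ⟨k, hk, h2⟩ := step2 hfin hX hXT hrep (iter f m) (hf.iterate m) h1
  let g : S →ₙ* S := iter (iter f m) k
  have hg : Function.Surjective g := (hf.iterate m).iterate k
  have hgT : ∀ n s, s ∈ T ↔ (iter f m)^[n] s ∈ T := by
    intro n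
    induction n with
    | zero => intro s; rfl
    | succ n ih => intro s; rw [Function.iterate_succ_apply', ih]; exact h1 _
  have hinj : Function.Injective g := by
    intro x y hxy
    by_cases hx : x ∈ T
    · have hy : y ∈ T := (hgT k y).2 (by
        have : g y ∈ T := hxy ▸ (hgT k x).1 hx
        exact this)
      let gT : T →ₙ* T := ⟨fun t => ⟨g t, (hgT k t).1 t.2⟩, fun a b => Subtype.ext (map_mul g _ _)⟩
      have := hT gT (by
        rintro ⟨t, ht⟩
        obtain ⟨s, rfl⟩ := hg t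
        exact ⟨⟨s, (hgT k s).2 ht⟩, rfl⟩) (a₁ := ⟨x, hx⟩) (a₂ := ⟨y, hy⟩) (Subtype.ext hxy)
      exact congrArg Subtype.val this
    · refine step3 g hg (hgT k) h2 hx ?_ hxy
      have h3 := hΓ (cls T x) ⟨x, hx, rfl⟩
      have h4 : conGen (sig T (cls T x)) = sig T (cls T x) := Con.conGen_of_con _
      have h5 : ∀ f : (conGen (sig T (cls T x))).Quotient →* (conGen (sig T (cls T x))).Quotient,
          Function.Surjective f → Function.Injective f := h3
      rwa [h4] at h5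
  have h6 : Function.Injective (f^[m * k]) := by
    rw [Function.iterate_mul]; exact hinj
  obtain ⟨j, hj⟩ : ∃ j, m * k = j + 1 := ⟨m * k - 1, by have := Nat.mul_pos hm hk; omega⟩
  rw [hj, Function.iterate_succ] at h6
  exact h6.of_comp

end Pool.Agent.S00995
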