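import Pool.Statements.S01019

set_option autoImplicit false
open scoped Pointwise
open Pool Pool.MP_29ab50_al

namespace Pool.Agent.S01019

/-- rationals modulo one -/
abbrev Q : Type := AddCircle (1 : ℚ)

/-- the class of `1/m` -/
noncomputable def q (m : ℕ) : Q := (((1 : ℚ) / m : ℚ) : AddCircle (1 : ℚ))

lemma q_order {m : ℕ} (hm : 0 < m) : addOrderOf (q m) = m := by
  have : Fact ((0 : ℚ) < 1) := ⟨one_pos⟩
  exact AddCircle.addOrderOf_period_div hm

lemma q_smul {m : ℕ} (hm : 0 < m) : m • q m = 0 := by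
  have := addOrderOf_nsmul_eq_zero (q m)
  rwa [q_order hm] at this

lemma q_eq {m i j : ℕ} (hm : 0 < m) (h : i • q m = j • q m) : i ≡ j [MOD m] := by
  rwa [nsmul_eq_nsmul_iff_modEq, q_order hm] at h

lemma Q_torsion (x : Q) : IsOfFinAddOrder x := by
  induction x using QuotientAddGroup.induction_on with
  | H r =>
    rw [isOfFinAddOrder_iff_nsmul_eq_zero]
    refine ⟨r.den, r.den_pos, ?_⟩
    rw [← QuotientAddGroup.mk_nsmul, QuotientAddGroup.eq_zero_iff]
    exact ⟨r.num, by simp [Rat.den_mul_eq_num]⟩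

lemma H_torsion {I : Type} (g : I →₀ Q) : IsOfFinAddOrder g := by
  induction g using Finsupp.induction_linear with
  | zero => exact IsOfFinAddOrder.zero
  | add f g hf hg => exact hf.add hg
  | single a b => exact (Finsupp.singleAddHom a).isOfFinAddOrder (Q_torsion b)

lemma exists_enc (A : Type) :
    ∃ enc : ℕ × (((A ⊕ ℕ) →₀ Q) × A × A) → A ⊕ ℕ, Function.Injective enc := by
  have hI : Cardinal.aleph0 ≤ Cardinal.mk (A ⊕ ℕ) := Cardinal.aleph0_le_mk _
  have hA : Cardinal.mk A ≤ Cardinal.mk (A ⊕ ℕ) := Cardinal.mk_le_of_injective Sum.inl_injective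
  have hQ : Cardinal.mk Q ≤ Cardinal.mk (A ⊕ ℕ) := by
    have : Countable Q := QuotientAddGroup.mk_surjective.countable
    exact Cardinal.mk_le_aleph0.trans hI
  have hnt : Nontrivial Q := ⟨q 2, 0, fun h => by
    have := q_order (m := 2) (by norm_num)
    rw [h, addOrderOf_zero] at this
    omega⟩
  have h : Cardinal.mk (ℕ × (((A ⊕ ℕ) →₀ Q) × A × A)) ≤ Cardinal.mk (A ⊕ ℕ) := by
    simp only [Cardinal.mk_prod, Cardinal.lift_id]
    refine Cardinal.mul_le_of_le hI (by simpa using hI) (Cardinal.mul_le_of_le hI ?_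
      (Cardinal.mul_le_of_le hI hA hA))
    rw [Cardinal.mk_finsupp_of_infinite]
    exact max_le le_rfl hQ
  obtain ⟨e⟩ := (Cardinal.le_def _ _).1 h
  exact ⟨e, e.injective⟩

section construction

variable {A I : Type} [AddCommMonoid A] (enc : ℕ × ((I →₀ Q) × A × A) → I) (n : A → ℕ)

/-- order of the new generator of a demand -/
noncomputable def ord (τ : (I →₀ Q) × A × A) : ℕ := n τ.2.1 * n τ.2.2 * addOrderOf τ.1

/-- the new generator of a demand at a level -/
noncomputable def hh (k : ℕ) (τ : (I →₀ Q) × A × A) : I →₀ Q :=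
  Finsupp.single (enc (k, τ)) (q (ord n τ))

/-- first new pair -/
noncomputable def yy (k : ℕ) (τ : (I →₀ Q) × A × A) : (I →₀ Q) × A := (hh enc n k τ, τ.2.1)

/-- second new pair -/
noncomputable def zz (k : ℕ) (τ : (I →₀ Q) × A × A) : (I →₀ Q) × A := (τ.1 - hh enc n k τ, τ.2.2)

/-- base generators -/
noncomputable def xx (s : A) : (I →₀ Q) × A := (Finsupp.single (enc (0, 0, s, s)) (q (n s)), s)

/-- one step of the construction -/
noncomputable def step (k : ℕ) (R : AddSubmonoid ((I →₀ Q) × A)) : AddSubmonoid ((I →₀ Q) × A) where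
  carrier := {x | ∃ x0 ∈ R, ∃ i j : {τ : (I →₀ Q) × A × A // (τ.1, τ.2.1 + τ.2.2) ∈ R} →₀ ℕ,
    x = x0 + Finsupp.linearCombination ℕ (fun τ => yy enc n k τ.1) i
      + Finsupp.linearCombination ℕ (fun τ => zz enc n k τ.1) j}
  zero_mem' := ⟨0, R.zero_mem, 0, 0, by simp⟩
  add_mem' := by
    rintro _ _ ⟨x0, hx, i, j, rfl⟩ ⟨x1, hx1, i1, j1, rfl⟩
    refine ⟨x0 + x1, R.add_mem hx hx1, i + i1, j + j1, ?_⟩
    rw [map_add, map_add]
    abel

/-- the levels of the construction -/
noncomputable def RR : ℕ → AddSubmonoid ((I →₀ Q) × A)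
  | 0 => (LinearMap.range (Finsupp.linearCombination ℕ (xx enc n))).toAddSubmonoid
  | k + 1 => step enc n (k + 1) (RR k)

lemma le_step (k : ℕ) (R : AddSubmonoid ((I →₀ Q) × A)) : R ≤ step enc n k R :=
  fun x hx => ⟨x, hx, 0, 0, by simp⟩

lemma RR_mono : Monotone (RR enc n) :=
  monotone_nat_of_le_succ fun k => le_step enc n (k + 1) _

lemma yy_mem (k : ℕ) (R : AddSubmonoid ((I →₀ Q) × A)) (τ : (I →₀ Q) × A × A)
    (h : (τ.1, τ.2.1 + τ.2.2) ∈ R) : yy enc n k τ ∈ step enc n k R :=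
  ⟨0, R.zero_mem, Finsupp.single ⟨τ, h⟩ 1, 0, by simp⟩

lemma zz_mem (k : ℕ) (R : AddSubmonoid ((I →₀ Q) × A)) (τ : (I →₀ Q) × A × A)
    (h : (τ.1, τ.2.1 + τ.2.2) ∈ R) : zz enc n k τ ∈ step enc n k R :=
  ⟨0, R.zero_mem, 0, Finsupp.single ⟨τ, h⟩ 1, by simp⟩

lemma xx_mem (s : A) : xx enc n s ∈ RR enc n 0 := ⟨Finsupp.single s 1, by simp⟩

/-- support in low levels -/
def Low (k : ℕ) : AddSubgroup (I →₀ Q) where
  carrier := {g | ∀ l τ, k < l → g (enc (l, τ)) = 0}
  zero_mem' := fun _ _ _ => rfl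
  add_mem' := fun ha hb l τ h => by rw [Finsupp.add_apply, ha l τ h, hb l τ h, add_zero]
  neg_mem' := fun ha l τ h => by rw [Finsupp.neg_apply, ha l τ h, neg_zero]

variable {enc} {n}

lemma single_low (he : Function.Injective enc) (k : ℕ) (τ : (I →₀ Q) × A × A) (c : Q) :
    Finsupp.single (enc (k, τ)) c ∈ Low enc k := by
  intro l τ' h
  refine Finsupp.single_eq_of_ne fun h' => ?_
  have := congrArg Prod.fst (he h')
  simp only at this
  omega

lemma Low_mono {k l : ℕ} (h : k ≤ l) : Low enc k ≤ Low enc l :=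
  fun _ hg m τ hm => hg m τ (by omega)

lemma lc_mem {ι : Type} (P : AddSubmonoid ((I →₀ Q) × A)) (v : ι → (I →₀ Q) × A)
    (hv : ∀ a, v a ∈ P) (c : ι →₀ ℕ) : Finsupp.linearCombination ℕ v c ∈ P := by
  rw [Finsupp.linearCombination_apply]
  exact P.sum_mem fun a _ => P.nsmul_mem (hv a) _

lemma RR_low (he : Function.Injective enc) (k : ℕ) : ∀ x ∈ RR enc n k, x.1 ∈ Low enc k := by
  induction k with
  | zero =>
    rintro _ ⟨c, rfl⟩
    exact lc_mem ((Low enc 0).toAddSubmonoid.comap (AddMonoidHom.fst _ _)) _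
      (fun s => single_low he 0 _ _) c
  | succ k ih =>
    rintro _ ⟨x0, hx, i, j, rfl⟩
    let P := (Low enc (k + 1)).toAddSubmonoid.comap (AddMonoidHom.fst (I →₀ Q) A)
    refine P.add_mem (P.add_mem (Low_mono (Nat.le_succ k) (ih x0 hx)) (lc_mem P _ ?_ i))
      (lc_mem P _ ?_ j)
    · intro τ
      exact single_low he _ _ _
    · intro τ
      exact (Low enc (k + 1)).sub_mem (Low_mono (Nat.le_succ k) (ih _ τ.2)) (single_low he _ _ _)

lemma zero_mem_RR (hn : ∀ s, 0 < n s) (k : ℕ) (s : A) (r : ℕ) :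
    ((0 : I →₀ Q), (n s * r) • s) ∈ RR enc n k := by
  refine RR_mono enc n (Nat.zero_le k) ?_
  have := (RR enc n 0).nsmul_mem (xx_mem enc n s) (n s * r)
  convert this using 1
  refine Prod.ext ?_ rfl
  simp only [xx, Prod.smul_mk, Finsupp.smul_single]
  rw [mul_nsmul, q_smul (hn s), nsmul_zero, Finsupp.single_zero]

lemma ord_pos (hn : ∀ s, 0 < n s) (τ : (I →₀ Q) × A × A) : 0 < ord n τ :=
  Nat.mul_pos (Nat.mul_pos (hn _) (hn _)) (H_torsion τ.1).addOrderOf_pos

lemma one_step (hn : ∀ s, 0 < n s) (k l : ℕ) (τ : (I →₀ Q) × A × A)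
    (h : (τ.1, τ.2.1 + τ.2.2) ∈ RR enc n k) (i j : ℕ) (hij : i ≡ j [MOD ord n τ]) :
    i • yy enc n l τ + j • zz enc n l τ ∈ RR enc n k := by
  have h1 : ord n τ • hh enc n l τ = 0 := by
    simp only [hh, Finsupp.smul_single]
    rw [q_smul (ord_pos hn τ), Finsupp.single_zero]
  have h2 : ord n τ • τ.1 = 0 := by
    unfold ord
    rw [mul_nsmul', addOrderOf_nsmul_eq_zero, nsmul_zero]
  rcases le_total j i with hle | hle
  · obtain ⟨r, hr⟩ := (Nat.modEq_iff_dvd' hle).1 hij.symm
    obtain rfl : i = j + ord n τ * r := by omega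
    have a1 := (RR enc n k).nsmul_mem h j
    have a2 := zero_mem_RR (enc := enc) hn k τ.2.1 (n τ.2.2 * addOrderOf τ.1 * r)
    convert (RR enc n k).add_mem a1 a2 using 1
    refine Prod.ext ?_ ?_
    · simp only [yy, zz, Prod.fst_add, Prod.smul_fst]
      rw [add_nsmul, mul_nsmul, h1, nsmul_zero, nsmul_sub]
      abel
    · simp only [yy, zz, Prod.snd_add, Prod.smul_snd]
      rw [add_nsmul, nsmul_add, ord, ← mul_assoc, ← mul_assoc]
      abel
  · obtain ⟨r, hr⟩ := (Nat.modEq_iff_dvd' hle).1 hij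
    obtain rfl : j = i + ord n τ * r := by omega
    have a1 := (RR enc n k).nsmul_mem h i
    have a2 := zero_mem_RR (enc := enc) hn k τ.2.2 (n τ.2.1 * addOrderOf τ.1 * r)
    convert (RR enc n k).add_mem a1 a2 using 1
    refine Prod.ext ?_ ?_
    · simp only [yy, zz, Prod.fst_add, Prod.smul_fst]
      rw [add_nsmul, mul_nsmul, nsmul_sub, nsmul_sub, h1, h2, sub_zero, nsmul_zero]
      abel
    · simp only [yy, zz, Prod.snd_add, Prod.smul_snd]
      rw [add_nsmul, nsmul_add, ord,
        show n τ.2.1 * n τ.2.2 * addOrderOf τ.1 * r = n τ.2.2 * (n τ.2.1 * addOrderOf τ.1 * r) by ring]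
      abel

lemma conservative (he : Function.Injective enc) (hn : ∀ s, 0 < n s) (k : ℕ)
    (x : (I →₀ Q) × A) (hx : x ∈ RR enc n (k + 1)) (hl : x.1 ∈ Low enc k) : x ∈ RR enc n k := by
  classical
  obtain ⟨x0, hx0, i, j, rfl⟩ := hx
  set F := i.support ∪ j.support with hF
  have e : Finsupp.linearCombination ℕ (fun τ => yy enc n (k + 1) τ.1) i
      + Finsupp.linearCombination ℕ (fun τ => zz enc n (k + 1) τ.1) j
      = ∑ τ ∈ F, (i τ • yy enc n (k + 1) τ.1 + j τ • zz enc n (k + 1) τ.1) := by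
    rw [Finsupp.linearCombination_apply, Finsupp.linearCombination_apply,
      Finsupp.sum_of_support_subset _ (Finset.subset_union_left (s₂ := j.support)) _ (by simp),
      Finsupp.sum_of_support_subset _ (Finset.subset_union_right (s₁ := i.support)) _ (by simp),
      Finset.sum_add_distrib]
  rw [add_assoc, e] at hl ⊢
  refine (RR enc n k).add_mem hx0 ((RR enc n k).sum_mem fun τ hτ => ?_)
  refine one_step hn k (k + 1) τ.1 τ.2 _ _ (q_eq (ord_pos hn _) ?_)
  have h0 := hl (k + 1) τ.1 (by omega)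
  rw [Prod.fst_add, Finsupp.add_apply, RR_low he k x0 hx0 (k + 1) τ.1 (by omega), zero_add,
    Prod.fst_sum, Finsupp.finsetSum_apply, Finset.sum_eq_single τ] at h0
  · have h1 := RR_low he k _ τ.2 (k + 1) τ.1 (by omega)
    simp only at h1
    simp only [yy, zz, hh, Prod.fst_add, Prod.smul_fst, Finsupp.add_apply, Finsupp.smul_apply,
      Finsupp.sub_apply, Finsupp.single_eq_same, h1, zero_sub, smul_neg] at h0
    exact add_neg_eq_zero.1 h0
  · intro b _ hb
    have h1 := RR_low he k _ b.2 (k + 1) τ.1 (by omega)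
    simp only at h1
    have h2 : enc (k + 1, τ.1) ≠ enc (k + 1, b.1) := fun h =>
      hb (Subtype.ext (congrArg Prod.snd (he h)).symm)
    simp only [yy, zz, hh, Prod.fst_add, Prod.smul_fst, Finsupp.add_apply, Finsupp.smul_apply,
      Finsupp.sub_apply, Finsupp.single_eq_of_ne h2, h1, sub_zero, smul_zero, add_zero]
  · intro h; exact absurd hτ h

lemma down (he : Function.Injective enc) (hn : ∀ s, 0 < n s) (k : ℕ)
    (x : (I →₀ Q) × A) (hx : x ∈ RR enc n k) (hl : x.1 ∈ Low enc 0) : x ∈ RR enc n 0 := by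
  induction k with
  | zero => exact hx
  | succ k ih => exact ih (conservative he hn k x hx (Low_mono (Nat.zero_le k) hl))

lemma base (he : Function.Injective enc) (hn : ∀ s, 2 ≤ n s)
    (hi : ∀ s, n s • s + n s • s = n s • s) (s t : A)
    (h : ((xx enc n s).1, t) ∈ RR enc n 0) : ∃ e : A, e + e = e ∧ t = s + e := by
  classical
  obtain ⟨c, hc⟩ := h
  let E : AddSubmonoid A :=
    { carrier := {e | e + e = e}
      zero_mem' := add_zero 0
      add_mem' := fun {a b} ha hb => by
        have ha' : a + a = a := ha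
        have hb' : b + b = b := hb
        show a + b + (a + b) = a + b
        rw [add_add_add_comm, ha', hb'] }
  set F := insert s c.support with hF
  rw [Finsupp.linearCombination_apply,
    Finsupp.sum_of_support_subset _ (Finset.subset_insert s c.support) _ (by simp)] at hc
  have hs : s ∈ F := Finset.mem_insert_self _ _
  have hco : ∀ u ∈ F, c u • q (n u) = (if u = s then 1 else 0) • q (n u) := by
    intro u hu
    have h1 := congrArg (fun x : (I →₀ Q) × A => x.1 (enc (0, 0, u, u))) hc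
    simp only [Prod.fst_sum, Finsupp.finsetSum_apply] at h1
    rw [Finset.sum_eq_single u] at h1
    · simp only [xx, Prod.smul_fst, Finsupp.smul_apply, Finsupp.single_eq_same] at h1
      rw [h1]
      split_ifs with h
      · subst h; simp
      · rw [zero_smul]
        refine Finsupp.single_eq_of_ne fun h' => h ?_
        exact congrArg (fun z => z.2.2.1) (he h')
    · intro b _ hb
      have h2 : enc (0, 0, u, u) ≠ enc (0, 0, b, b) := fun h' =>
        hb (congrArg (fun z => z.2.2.1) (he h')).symm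
      simp only [xx, Prod.smul_fst, Finsupp.smul_apply, Finsupp.single_eq_of_ne h2, smul_zero]
    · intro h; exact absurd hu h
  have hE : ∀ u r, (n u * r) • u ∈ E := by
    intro u r
    rw [mul_nsmul]
    exact E.nsmul_mem (hi u) r
  have h2 := congrArg Prod.snd hc
  simp only [Prod.snd_sum, xx, Prod.smul_snd] at h2
  rw [← Finset.add_sum_erase _ _ hs] at h2
  have hs1 : c s ≡ 1 [MOD n s] := by
    have := hco s hs
    rw [if_pos rfl] at this
    exact q_eq (by have := hn s; omega) this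
  have hs2 : 1 ≤ c s := by
    by_contra h0
    have h00 : c s = 0 := by omega
    rw [h00] at hs1
    have := (Nat.modEq_iff_dvd' (by omega)).1 hs1
    have := Nat.le_of_dvd (by omega) this
    have := hn s
    omega
  obtain ⟨r, hr⟩ := (Nat.modEq_iff_dvd' hs2).1 hs1.symm
  refine ⟨(n s * r) • s + ∑ u ∈ F.erase s, c u • u, E.add_mem (hE s r) (E.sum_mem fun u hu => ?_), ?_⟩
  · have hu' := Finset.mem_erase.1 hu
    have := hco u hu'.2
    rw [if_neg hu'.1] at this
    obtain ⟨r', hr'⟩ := (Nat.modEq_zero_iff_dvd).1 (q_eq (by have := hn u; omega) this)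
    rw [hr']; exact hE u r'
  · rw [← h2, show c s = 1 + n s * r by omega, add_nsmul, one_nsmul, add_assoc]

end construction

theorem main (A : Type) [AddCommMonoid A] (hA : ∀ s : A, ∃ m, 2 ≤ m ∧ m • s + m • s = m • s) :
    ∃ U : A → Set ((A ⊕ ℕ) →₀ Q), Function.Injective U ∧ (∀ s, (U s).Nonempty) ∧
      ∀ s t, U (s + t) = U s + U t := by
  choose n hn hi using hA
  obtain ⟨enc, he⟩ := exists_enc A
  have hn0 : ∀ s, 0 < n s := fun s => by have := hn s; omega
  refine ⟨fun s => {g | ∃ k, (g, s) ∈ RR enc n k}, ?_, fun s => ⟨_, 0, xx_mem enc n s⟩, ?_⟩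
  · intro s t hst
    have h1 : (xx enc n s).1 ∈ {g | ∃ k, (g, s) ∈ RR enc n k} := ⟨0, xx_mem enc n s⟩
    have h2 : (xx enc n t).1 ∈ {g | ∃ k, (g, t) ∈ RR enc n k} := ⟨0, xx_mem enc n t⟩
    simp only at hst
    rw [hst] at h1
    rw [← hst] at h2
    obtain ⟨k, hk⟩ := h1
    obtain ⟨l, hl⟩ := h2
    obtain ⟨e, he1, he2⟩ := base he hn hi s t (down he hn0 k _ hk (single_low he 0 _ _))
    obtain ⟨f, -, hf2⟩ := base he hn hi t s (down he hn0 l _ hl (single_low he 0 _ _))
    have h3 : s = s + e + f := by rw [← he2]; exact hf2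
    have h4 : s + e = s := by
      calc s + e = s + e + f + e := by rw [← h3]
        _ = s + (e + e) + f := by abel
        _ = s := by rw [he1, ← h3]
    rw [he2, h4]
  · intro s t
    ext g
    constructor
    · rintro ⟨k, hk⟩
      refine ⟨hh enc n (k + 1) (g, s, t), ⟨k + 1, yy_mem enc n (k + 1) _ (g, s, t) hk⟩,
        g - hh enc n (k + 1) (g, s, t), ⟨k + 1, zz_mem enc n (k + 1) _ (g, s, t) hk⟩, by simp⟩
    · rintro ⟨a, ⟨k, hk⟩, b, ⟨l, hl⟩, rfl⟩
      exact ⟨max k l, (RR enc n (max k l)).add_mem (RR_mono enc n (le_max_left _ _) hk)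
        (RR_mono enc n (le_max_right _ _) hl)⟩

lemma idem_pow {M : Type} [CommMonoid M] (x : M) (h : (Set.range fun k : ℕ => x ^ (k + 1)).Finite) :
    ∃ m, 2 ≤ m ∧ x ^ m * x ^ m = x ^ m := by
  have hni : ¬ Function.Injective fun k : ℕ => x ^ (k + 1) := fun hi =>
    Set.infinite_range_of_injective hi h
  obtain ⟨a, b, hab, he⟩ : ∃ a b : ℕ, a < b ∧ x ^ (a + 1) = x ^ (b + 1) := by
    unfold Function.Injective at hni
    push Not at hni
    obtain ⟨a, b, h1, h2⟩ := hni
    rcases lt_or_gt_of_ne h2 with h3 | h3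
    · exact ⟨a, b, h3, h1⟩
    · exact ⟨b, a, h3, h1.symm⟩
  obtain ⟨d, rfl⟩ : ∃ d, b = a + (d + 1) := ⟨b - a - 1, by omega⟩
  have key : ∀ r : ℕ, x ^ (a + 1 + (d + 1) * r) = x ^ (a + 1) := by
    intro r
    induction r with
    | zero => simp
    | succ r ih =>
      rw [show a + 1 + (d + 1) * (r + 1) = (a + 1 + (d + 1) * r) + (d + 1) by ring, pow_add, ih,
        ← pow_add, he]
      congr 1; ring
  refine ⟨(d + 1) * (a + 2), by nlinarith, ?_⟩
  have e : (d + 1) * (a + 2) = (a + 1) + (d * (a + 2) + 1) := by ring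
  rw [← pow_add]
  calc x ^ ((d + 1) * (a + 2) + (d + 1) * (a + 2))
      = x ^ (a + 1 + (d + 1) * (a + 2)) * x ^ (d * (a + 2) + 1) := by
        rw [← pow_add]; congr 1; ring
    _ = x ^ ((d + 1) * (a + 2)) := by rw [key, ← pow_add, e]

/-- Every commutative semigroup in which each element generates a finite subsemigroup embeds into the semigroup of nonempty subsets of a periodic abelian group. -/
theorem result :
    ∀ (S : Type) [CommSemigroup S],
      (∀ x : S, (Subsemigroup.closure ({x} : Set S) : Set S).Finite) →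
      ∃ (G : Type) (_ : CommGroup G), Monoid.IsTorsion G ∧
        ∃ f : S →ₙ* Set G, Function.Injective f ∧ ∀ s : S, (f s).Nonempty := by
  intro S _ hS
  have hM : ∀ x : WithOne S, ∃ m, 2 ≤ m ∧ x ^ m * x ^ m = x ^ m := by
    intro x
    induction x using WithOne.recOneCoe with
    | one => exact ⟨2, le_rfl, by simp⟩
    | coe a =>
      refine idem_pow _ (((hS a).image (fun y : S => (y : WithOne S))).subset ?_)
      rintro _ ⟨k, rfl⟩
      induction k with
      | zero => exact ⟨a, Subsemigroup.subset_closure rfl, by simp⟩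
      | succ k ih =>
        obtain ⟨y, hy, hy2⟩ := ih
        refine ⟨y * a, Subsemigroup.mul_mem _ hy (Subsemigroup.subset_closure rfl), ?_⟩
        simp only at hy2 ⊢
        rw [WithOne.coe_mul, hy2, ← pow_succ]
  obtain ⟨U, hU1, hU2, hU3⟩ := main (Additive (WithOne S)) hM
  refine ⟨Multiplicative ((Additive (WithOne S) ⊕ ℕ) →₀ Q), inferInstance, ?_,
    ⟨fun s => U (Additive.ofMul (s : WithOne S)), fun s t => ?_⟩, ?_, fun s => hU2 _⟩
  · intro g
    exact (isOfFinOrder_ofAdd_iff (α := (Additive (WithOne S) ⊕ ℕ) →₀ Q)).2 (H_torsion g.toAdd)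
  · exact hU3 (Additive.ofMul (s : WithOne S)) (Additive.ofMul (t : WithOne S))
  · intro s t h
    exact WithOne.coe_inj.1 (Additive.ofMul.injective (hU1 h))

end Pool.Agent.S01019
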