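import Pool.Statements.S01040
import Pool.Agent.Lib.helper12.ConjA
import Pool.Agent.S00801

set_option autoImplicit false
open Pool Pool.MP_2bc940_al

namespace Pool.Agent.S01040

open Pool.Agent.Lib.helper12.Conj

section
variable {A B : Type} [Group A] [Group B]

open Classical in
noncomputable def SU (S : Finset A) (T : Finset B) : Finset (A × B) :=
  S.image (MonoidHom.inl A B) ∪ T.image (MonoidHom.inr A B)

open Classical in
noncomputable def sy (S : Finset A) : Finset A := insert 1 (S ∪ S.image fun s => s⁻¹)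

lemma mem_sy {S : Finset A} {s : A} : s ∈ sy S ↔ Gen S s := by
  simp only [sy, Gen, Finset.mem_insert, Finset.mem_union, Finset.mem_image]
  refine or_congr_right (or_congr_right ⟨?_, fun h => ⟨_, h, inv_inv s⟩⟩)
  rintro ⟨t, ht, rfl⟩; simpa using ht

lemma gen_inv {S : Finset A} {s : A} (h : Gen S s⁻¹) : Gen S s := by
  rcases h with h | h | h
  · exact Or.inl (inv_eq_one.1 h)
  · exact Or.inr (Or.inr h)
  · exact Or.inr (Or.inl (by simpa using h))

lemma gen_top {S : Finset A} {T : Finset B} (hS : Subgroup.closure (S : Set A) = ⊤)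
    (hT : Subgroup.closure (T : Set B) = ⊤) (U : Finset (A × B)) (h1 : ∀ s ∈ S, (s, 1) ∈ U)
    (h2 : ∀ t ∈ T, (1, t) ∈ U) : Subgroup.closure (U : Set (A × B)) = ⊤ := by
  have a : (⊤ : Subgroup A).map (MonoidHom.inl A B) ≤ Subgroup.closure U := by
    rw [← hS, MonoidHom.map_closure]
    exact Subgroup.closure_mono (by rintro _ ⟨s, hs, rfl⟩; exact h1 s hs)
  have b : (⊤ : Subgroup B).map (MonoidHom.inr A B) ≤ Subgroup.closure U := by
    rw [← hT, MonoidHom.map_closure]
    exact Subgroup.closure_mono (by rintro _ ⟨s, hs, rfl⟩; exact h2 s hs)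
  rw [eq_top_iff]
  rintro ⟨x, y⟩ -
  simpa using mul_mem (a ⟨x, trivial, rfl⟩) (b ⟨y, trivial, rfl⟩)

lemma SU_ball (S : Finset A) (T : Finset B) (n : ℕ) : ∀ g ∈ ball (SU S T) n,
    ∃ i ≤ n, g.1 ∈ ball S i ∧ g.2 ∈ ball T (n - i) := by
  induction n with
  | zero => intro g hg; rw [ball_zero] at hg; subst hg; exact ⟨0, le_rfl, by simp [ball_zero]⟩
  | succ n ih =>
    intro g hg
    obtain ⟨s, h, hs, hh, rfl⟩ := ball_succ.1 hg
    obtain ⟨i, a1, a2, a3⟩ := ih h hh
    have : (Gen S s.1 ∧ s.2 = 1) ∨ (s.1 = 1 ∧ Gen T s.2) := by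
      have key : ∀ s ∈ SU S T, (s.1 ∈ S ∧ s.2 = 1) ∨ (s.1 = 1 ∧ s.2 ∈ T) := by
        intro s hs
        simp only [SU, Finset.mem_union, Finset.mem_image] at hs
        rcases hs with ⟨t, ht, rfl⟩ | ⟨t, ht, rfl⟩
        exacts [Or.inl ⟨ht, rfl⟩, Or.inr ⟨rfl, ht⟩]
      rcases hs with rfl | hs | hs
      · exact Or.inl ⟨Or.inl rfl, rfl⟩
      · exact (key s hs).imp (fun h => ⟨Or.inr (Or.inl h.1), h.2⟩) fun h => ⟨h.1, Or.inr (Or.inl h.2)⟩
      · exact (key _ hs).imp (fun h => ⟨Or.inr (Or.inr h.1), inv_eq_one.1 h.2⟩)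
          fun h => ⟨inv_eq_one.1 h.1, Or.inr (Or.inr h.2)⟩
    rcases this with ⟨b1, b2⟩ | ⟨b1, b2⟩
    · exact ⟨i + 1, by omega, ball_succ.2 ⟨_, _, b1, a2, rfl⟩, by simpa [b2] using a3⟩
    · refine ⟨i, by omega, by simpa [b1] using a2, ?_⟩
      rw [show n + 1 - i = n - i + 1 by omega]
      exact ball_succ.2 ⟨_, _, b2, a3, rfl⟩

lemma SU_card (S : Finset A) (T : Finset B) (n : ℕ) : (ball (SU S T) n).ncard ≤
    ∑ i ∈ Finset.range (n + 1), (ball S i).ncard * (ball T (n - i)).ncard := by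
  classical
  have h : ball (SU S T) n ⊆ ((Finset.range (n + 1)).biUnion fun i =>
      (ball_fin S i).toFinset ×ˢ (ball_fin T (n - i)).toFinset : Finset (A × B)) := by
    intro g hg
    obtain ⟨i, a1, a2, a3⟩ := SU_ball S T n g hg
    exact Finset.mem_biUnion.2 ⟨i, Finset.mem_range.2 (by omega), by simp [a2, a3]⟩
  refine (Set.ncard_le_ncard h (Finset.finite_toSet _)).trans ?_
  rw [Set.ncard_coe_finset]
  refine Finset.card_biUnion_le.trans (le_of_eq (Finset.sum_congr rfl fun i _ => ?_))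
  rw [Finset.card_product, Set.ncard_eq_toFinset_card _ (ball_fin S i),
    Set.ncard_eq_toFinset_card _ (ball_fin T _)]

lemma SU_conj (S : Finset A) (T : Finset B) (n : ℕ) : (ConjClasses.mk '' ball T n).ncard ≤
    (ConjClasses.mk '' ball (SU S T) n).ncard := by
  refine le_trans (Set.ncard_le_ncard ?_ (((ball_fin _ n).image _).image _))
    (Set.ncard_image_le (f := ConjClasses.map (MonoidHom.snd A B)) ((ball_fin _ n).image _))
  rintro _ ⟨_, ⟨l, h1, h2, rfl⟩, rfl⟩
  refine ⟨_, ⟨_, ⟨l.map (MonoidHom.inr A B), by simpa using h1, fun x hx => ?_, rfl⟩, rfl⟩, ?_⟩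
  · obtain ⟨t, ht, rfl⟩ := List.mem_map.1 hx
    simp only [SU, Finset.mem_union, Finset.mem_image]
    exact (h2 t ht).imp (fun h => Or.inr ⟨t, h, rfl⟩) fun h => Or.inr ⟨_, h, map_inv _ _⟩
  · rw [← map_list_prod]; rfl

lemma prod_ball (S : Finset A) (T : Finset B) (n : ℕ) :
    ball (sy S ×ˢ sy T) n = ball S n ×ˢ ball T n := by
  induction n with
  | zero => simp [ball_zero]; rfl
  | succ n ih =>
    ext g
    simp only [Set.mem_prod, ball_succ, ih]
    constructor
    · rintro ⟨s, h, hs, hh, rfl⟩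
      have : Gen S s.1 ∧ Gen T s.2 := by
        rcases hs with rfl | hs | hs
        · exact ⟨Or.inl rfl, Or.inl rfl⟩
        · simpa [mem_sy] using hs
        · have := Finset.mem_product.1 hs
          exact ⟨gen_inv (mem_sy.1 this.1), gen_inv (mem_sy.1 this.2)⟩
      exact ⟨⟨_, _, this.1, hh.1, rfl⟩, ⟨_, _, this.2, hh.2, rfl⟩⟩
    · rintro ⟨⟨s, h, hs, hh, e⟩, ⟨s', h', hs', hh', e'⟩⟩
      exact ⟨(s, s'), (h, h'), Or.inr (Or.inl (by simp [mem_sy, hs, hs'])), ⟨hh, hh'⟩,
        Prod.ext e e'⟩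

lemma prod_conj (U : Set A) (V : Set B) (hU : U.Finite) (hV : V.Finite) :
    (ConjClasses.mk '' (U ×ˢ V)).ncard ≤ (ConjClasses.mk '' U).ncard * V.ncard := by
  rw [← Set.ncard_prod]
  refine le_trans (Set.ncard_le_ncard ?_ (((hU.image _).prod hV).image _))
    (Set.ncard_image_le (f := fun p : ConjClasses A × B => ConjClasses.mk (Quotient.out p.1, p.2))
      ((hU.image _).prod hV))
  rintro _ ⟨⟨a, b⟩, ⟨h1, h2⟩, rfl⟩
  refine ⟨(ConjClasses.mk a, b), ⟨⟨a, h1, rfl⟩, h2⟩, ConjClasses.mk_eq_mk_iff_isConj.2 ?_⟩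
  obtain ⟨c, hc⟩ := isConj_iff.1 (ConjClasses.mk_eq_mk_iff_isConj.1
    (Quotient.out_eq (ConjClasses.mk a)))
  exact isConj_iff.2 ⟨(c, 1), by simp [hc]⟩

end

lemma main {A : Type} [Group A] (S : Finset A) (hS : Subgroup.closure (S : Set A) = ⊤)
    (D : ℕ) (h1 : ∀ n, (ConjClasses.mk '' ball S n).ncard ≤ D * 270 ^ n)
    (h2 : ∀ n, 1000000 ^ (n / 2) ≤ (ball S n).ncard) :
    ∃ (G : Type) (_ : Group G) (S T : Finset G), Subgroup.closure (S : Set G) = ⊤ ∧
      Subgroup.closure (T : Set G) = ⊤ ∧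
      rate (fun n => (ConjClasses.mk '' ball S n).ncard) = rate (fun n => (ball S n).ncard) ∧
      rate (fun n => (ConjClasses.mk '' ball T n).ncard) ≠ rate (fun n => (ball T n).ncard) := by
  classical
  obtain ⟨q, hq⟩ : ∃ q, q = 2 * S.card + 1 := ⟨_, rfl⟩
  have : NeZero q := ⟨by omega⟩
  have q1 : (1 : ℝ) ≤ q := by exact_mod_cast (show 1 ≤ q by omega)
  have up := B_upper (K := ZMod q)
  have lo := B_lower (K := ZMod q)
  rw [ZMod.card] at up lo
  have up' : ∀ n : ℕ, ((ball (SB (ZMod q)) n).ncard : ℝ) ≤ 4 * q * ((n : ℝ) + 1) ^ 2 * q ^ n := by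
    intro n
    have h : ((ball (SB (ZMod q)) n).ncard : ℝ) ≤ (2 * n + 1) * (2 * n + 1) * q ^ (n + 1) := by
      exact_mod_cast up n
    refine h.trans ?_
    have : ((2 * n + 1) * (2 * n + 1) : ℝ) ≤ 4 * ((n : ℝ) + 1) ^ 2 := by
      nlinarith [(Nat.cast_nonneg n : (0 : ℝ) ≤ n)]
    calc _ ≤ 4 * ((n : ℝ) + 1) ^ 2 * q ^ (n + 1) := by gcongr
      _ = _ := by ring
  have lo' : ∀ t : ℝ, 1 < t → ∃ C : ℝ, 0 < C ∧ ∀ n : ℕ,
      C * (q / t) ^ n ≤ (ConjClasses.mk '' ball (SB (ZMod q)) n).ncard := by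
    intro t ht
    obtain ⟨C, h0, hC⟩ := poly 1 ht
    refine ⟨C⁻¹, by positivity, fun n => ?_⟩
    have h : (q : ℝ) ^ n ≤ (n + 1) * (ConjClasses.mk '' ball (SB (ZMod q)) n).ncard := by
      exact_mod_cast lo n
    rw [div_pow, ← div_eq_inv_mul, div_div, div_le_iff₀ (by positivity)]
    have := hC n
    rw [pow_one] at this
    refine h.trans ?_
    rw [mul_comm, mul_comm _ C]
    gcongr
  have bd : ∀ {G : Type} [Group G] (U : Finset G) (n : ℕ),
      ((ball U n).ncard : ℝ) ≤ ((2 * U.card + 1 : ℕ) : ℝ) ^ n := fun U n => by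
    exact_mod_cast (ball_fin_card U n).2
  have cle : ∀ {G : Type} [Group G] (U : Finset G) (n : ℕ),
      ((ConjClasses.mk '' ball U n).ncard : ℝ) ≤ (ball U n).ncard := fun U n => by
    exact_mod_cast Set.ncard_image_le (ball_fin U n)
  refine ⟨A × LL (ZMod q), inferInstance, SU S (SB _), sy S ×ˢ sy (SB _),
    gen_top hS SB_gen _ (fun s hs => by simp [SU, hs]) (fun s hs => by simp [SU, hs]),
    gen_top hS SB_gen _ (fun s hs => by simp [sy, hs]) (fun s hs => by simp [sy, hs]), ?_, ?_⟩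
  · have u : ∀ t : ℝ, 1 < t → ∃ C : ℝ, 0 < C ∧ ∀ n : ℕ,
        ((ball (SU S (SB (ZMod q))) n).ncard : ℝ) ≤ C * (q * t) ^ n := by
      intro t ht
      obtain ⟨C, h0, hC⟩ := poly 3 ht
      refine ⟨4 * q * C, by positivity, fun n => ?_⟩
      have a : ((ball (SU S (SB (ZMod q))) n).ncard : ℝ) ≤ ∑ i ∈ Finset.range (n + 1),
          ((ball S i).ncard : ℝ) * (ball (SB (ZMod q)) (n - i)).ncard := by
        exact_mod_cast SU_card S (SB (ZMod q)) n
      refine a.trans ((Finset.sum_le_card_nsmul _ _ (4 * q * ((n : ℝ) + 1) ^ 2 * q ^ n)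
        fun i hi => ?_).trans ?_)
      · have hi' : i ≤ n := by simpa [Nat.lt_succ_iff] using hi
        have b1 := bd S i
        rw [← hq] at b1
        have b2 : (((n - i : ℕ) : ℝ)) ≤ n := by exact_mod_cast Nat.sub_le n i
        calc _ ≤ (q : ℝ) ^ i * (4 * q * (((n - i : ℕ) : ℝ) + 1) ^ 2 * q ^ (n - i)) := by
              gcongr; exact up' _
          _ ≤ (q : ℝ) ^ i * (4 * q * ((n : ℝ) + 1) ^ 2 * q ^ (n - i)) := by gcongr
          _ = 4 * q * ((n : ℝ) + 1) ^ 2 * (q ^ i * q ^ (n - i)) := by ring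
          _ = _ := by rw [← pow_add, Nat.add_sub_cancel' hi']
      · rw [Finset.card_range, nsmul_eq_mul]
        calc _ = 4 * q * ((n : ℝ) + 1) ^ 3 * q ^ n := by push_cast; ring
          _ ≤ 4 * q * (C * t ^ n) * q ^ n := by gcongr; exact hC n
          _ = _ := by rw [mul_pow]; ring
    have sq : ∀ a : ℕ → ℕ, (∀ n, (ConjClasses.mk '' ball (SU S (SB (ZMod q))) n).ncard ≤ a n) →
        (∀ n, (a n : ℝ) ≤ (ball (SU S (SB (ZMod q))) n).ncard) → rate a = q := by
      intro a a1 a2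
      apply le_antisymm
      · refine le_of_forall_gt_imp_ge_of_dense fun r hr => ?_
        obtain ⟨C, h0, hC⟩ := u (r / q) ((one_lt_div (by linarith)).2 hr)
        rw [mul_div_cancel₀ _ (by linarith)] at hC
        exact rate_le a C r h0 (by linarith) fun n => (a2 n).trans (hC n)
      · refine le_of_forall_lt_imp_le_of_dense fun r hr => ?_
        have hr' : max r (1 / 2) < q := max_lt hr (by linarith)
        have hp : 0 < max r (1 / 2) := lt_max_of_lt_right (by norm_num)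
        obtain ⟨C, h0, hC⟩ := lo' (q / max r (1 / 2)) ((one_lt_div hp).2 hr')
        rw [div_div_cancel₀ (by linarith)] at hC
        refine (le_max_left _ _).trans (le_rate a C _ _ h0 hp (by positivity) (fun n => (hC n).trans ?_)
          fun n => (a2 n).trans (bd _ n))
        exact_mod_cast (SU_conj S _ n).trans (a1 n)
    rw [sq _ (fun _ => le_rfl) (cle _), sq _ (fun n => by exact_mod_cast cle _ n) fun _ => le_rfl]
  · obtain ⟨C, h0, hC⟩ := poly 2 (t := 3 / 2) (by norm_num)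
    obtain ⟨C', h0', hC'⟩ := lo' 2 (by norm_num)
    refine ne_of_lt (lt_of_le_of_lt (rate_le _ ((D + 1) * (4 * q * C)) (405 * q) (by positivity)
      (by positivity) fun n => ?_) (lt_of_lt_of_le (show (405 * q : ℝ) < 500 * q by linarith)
      (le_rate _ (C' / 1000) _ _ (by positivity) (by positivity) (by positivity) (fun n => ?_)
        (bd _))))
    · rw [prod_ball]
      have a1 : ((ConjClasses.mk '' (ball S n ×ˢ ball (SB (ZMod q)) n)).ncard : ℝ) ≤
          (ConjClasses.mk '' ball S n).ncard * (ball (SB (ZMod q)) n).ncard := by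
        exact_mod_cast prod_conj _ _ (ball_fin S n) (ball_fin (SB (ZMod q)) n)
      have a2 : ((ConjClasses.mk '' ball S n).ncard : ℝ) ≤ D * 270 ^ n := by exact_mod_cast h1 n
      calc _ ≤ ((D + 1) * 270 ^ n) * (4 * q * (C * (3 / 2) ^ n) * q ^ n) := by
            refine a1.trans (mul_le_mul (a2.trans (by gcongr; linarith)) ((up' n).trans ?_)
              (by positivity) (by positivity))
            gcongr; exact hC n
        _ = (D + 1) * (4 * q * C) * (270 * (3 / 2) * q) ^ n := by rw [mul_pow, mul_pow]; ring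
        _ = _ := by norm_num
    · rw [prod_ball, Set.ncard_prod]
      have a1 : (1000 : ℝ) ^ n ≤ 1000 * (ball S n).ncard := by
        have : 1000 ^ n ≤ 1000 * 1000000 ^ (n / 2) := by
          rw [show 1000000 = 1000 ^ 2 from rfl, ← pow_mul, ← pow_succ']
          exact Nat.pow_le_pow_right (by norm_num) (by omega)
        exact_mod_cast this.trans (Nat.mul_le_mul_left _ (h2 n))
      calc _ = (1000 ^ n / 1000) * (C' * (q / 2) ^ n) := by
            rw [show (500 * q : ℝ) = 1000 * (q / 2) by ring, mul_pow]; ring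
        _ ≤ (ball S n).ncard * (ball (SB (ZMod q)) n).ncard :=
            mul_le_mul (by linarith) ((hC' n).trans (cle _ n)) (by positivity) (by positivity)
        _ = _ := by push_cast; rfl


/-- The negation of the preceding statement: For every group, if for some finite generating set the limsup of (number of conjugacy classes meeting the radius-n ball)^(1/n) equals the limsup of (size of the radius-n ball)^(1/n), then the same equality holds for every finite generating set. -/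
theorem result :
    ¬ (∀ (G : Type) [Group G],
      (∃ S : Finset G, Subgroup.closure (S : Set G) = ⊤ ∧
        Filter.limsup (fun n : ℕ =>
            ((Set.ncard (ConjClasses.mk ''
              {g : G | ∃ l : List G, l.length ≤ n ∧ (∀ x ∈ l, x ∈ S ∨ x⁻¹ ∈ S) ∧ l.prod = g}) : ℕ) : ℝ)
              ^ ((1 : ℝ) / (n : ℝ))) Filter.atTop
          = Filter.limsup (fun n : ℕ =>
            ((Set.ncard
              {g : G | ∃ l : List G, l.length ≤ n ∧ (∀ x ∈ l, x ∈ S ∨ x⁻¹ ∈ S) ∧ l.prod = g} : ℕ) : ℝ)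
              ^ ((1 : ℝ) / (n : ℝ))) Filter.atTop) →
      ∀ T : Finset G, Subgroup.closure (T : Set G) = ⊤ →
        Filter.limsup (fun n : ℕ =>
            ((Set.ncard (ConjClasses.mk ''
              {g : G | ∃ l : List G, l.length ≤ n ∧ (∀ x ∈ l, x ∈ T ∨ x⁻¹ ∈ T) ∧ l.prod = g}) : ℕ) : ℝ)
              ^ ((1 : ℝ) / (n : ℝ))) Filter.atTop
          = Filter.limsup (fun n : ℕ =>
            ((Set.ncard
              {g : G | ∃ l : List G, l.length ≤ n ∧ (∀ x ∈ l, x ∈ T ∨ x⁻¹ ∈ T) ∧ l.prod = g} : ℕ) : ℝ)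
              ^ ((1 : ℝ) / (n : ℝ))) Filter.atTop) := by
  classical
  intro H
  have hb : ∀ n, ball S00801.SS n = _ := S00801.ball_eq
  have hall : ∀ q, ∃ n, q ∈ ball S00801.SS n := fun q => by
    obtain ⟨u, rfl⟩ := S00801.all_words q
    exact ⟨u.length, by rw [hb]; exact ⟨u, show u.length ≤ _ from le_rfl, rfl⟩⟩
  have hS : Subgroup.closure (S00801.SS : Set S00801.GG) = ⊤ := by
    rw [eq_top_iff]
    intro g _
    obtain ⟨u, rfl⟩ := S00801.all_words g
    refine Subgroup.list_prod_mem _ fun x hx => Subgroup.subset_closure ?_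
    obtain ⟨a, -, rfl⟩ := List.mem_map.1 hx
    simp [S00801.SS]
  have : Infinite S00801.GG := by
    rw [← not_finite_iff_infinite]
    intro hf
    have h1 := (S00801.growth (Nat.card S00801.GG)).trans (Set.ncard_le_card _)
    have h2 : Nat.card S00801.GG < 2 ^ Nat.card S00801.GG := Nat.lt_two_pow_self
    rw [pow_succ] at h1
    omega
  obtain ⟨D, hD⟩ := A_upper 1000000 hS fun k q hq => by
    rw [hb] at hq
    obtain ⟨u, hu, rfl⟩ := hq
    have h0 : 0 < 8 ^ k := by positivity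
    have := S00801.wordG_tor u k (by have : u.length ≤ 8 ^ k := hu; omega)
    exact ⟨(isOfFinOrder_iff_pow_eq_one.2 ⟨_, by positivity, this⟩).orderOf_pos,
      (orderOf_le_of_pow_eq_one (by positivity) this).trans (le_of_eq (by ring))⟩
  have hc : S00801.SS.card ≤ 67 := Finset.card_image_le.trans (by simp)
  obtain ⟨G, _, S, T, h1, h2, h3, h4⟩ := main _ (SA_gen S00801.SS 1000000) D
    (fun n => (hD n).trans (Nat.mul_le_mul_left _ (Nat.pow_le_pow_left (by omega) n)))
    (A_lower 1000000 hS hall)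
  exact h4 (H G ⟨S, h1, h3⟩ T h2)

end Pool.Agent.S01040
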