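import Pool.Statements.S01079
import Pool.Agent.Lib.helper22.TopChC

set_option autoImplicit false
open Pool Pool.MP_2f4300_al

namespace Pool.Agent.S01079

open Set Filter Topology Pool.Agent.Lib.helper22.TopCh

abbrev G0 : Type := ↥(GG 0)

/-- Filter basis given by a decreasing sequence of tail subgroups. -/
@[reducible] noncomputable def fb (L : ℕ → Subgroup Γ) (ha : Antitone L) (hl : ∀ n, L n ≤ GG n) :
    GroupFilterBasis G0 where
  sets := range fun n => {g : G0 | g.1 ∈ L n}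
  nonempty := ⟨_, 0, rfl⟩
  inter_sets := by
    rintro _ _ ⟨m, rfl⟩ ⟨n, rfl⟩
    exact ⟨_, ⟨max m n, rfl⟩, fun g hg => ⟨ha (le_max_left _ _) hg, ha (le_max_right _ _) hg⟩⟩
  one' := by
    rintro _ ⟨n, rfl⟩
    exact (L n).one_mem
  mul' := by
    rintro _ ⟨n, rfl⟩
    refine ⟨_, ⟨n, rfl⟩, ?_⟩
    rintro _ ⟨a, ha, b, hb, rfl⟩
    exact (L n).mul_mem ha hb
  inv' := by
    rintro _ ⟨n, rfl⟩
    exact ⟨_, ⟨n, rfl⟩, fun g hg => (L n).inv_mem hg⟩
  conj' := by
    rintro x _ ⟨n, rfl⟩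
    obtain ⟨M, hM⟩ := GG_fin x.2
    refine ⟨_, ⟨max M n, rfl⟩, fun g hg => ?_⟩
    show x.1 * g.1 * x.1⁻¹ ∈ L n
    rw [commute_far x.2 hM (GG_anti (le_max_left _ _) (hl _ hg))]
    exact ha (le_max_right _ _) hg

noncomputable def tp (L : ℕ → Subgroup Γ) (ha : Antitone L) (hl : ∀ n, L n ≤ GG n) :
    GroupTopology G0 :=
  { toTopologicalSpace := (fb L ha hl).topology
    toIsTopologicalGroup := (fb L ha hl).isTopologicalGroup }

/-- The neighbourhood filter of the identity, pushed to the ambient group. -/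
noncomputable def FF (σ : GroupTopology G0) : Filter Γ :=
  map Subtype.val (@nhds G0 σ.toTopologicalSpace 1)

theorem FF_GF (σ : GroupTopology G0) : GF (FF σ) := by
  letI := σ.toTopologicalSpace
  haveI := σ.toIsTopologicalGroup
  constructor
  · rw [FF, prod_map_map_eq, tendsto_map'_iff]
    have h : Tendsto (fun p : G0 × G0 => p.1 * p.2) (𝓝 1 ×ˢ 𝓝 1) (𝓝 1) := by
      rw [← nhds_prod_eq]
      simpa using (continuous_mul (M := G0)).tendsto (1, 1)
    exact tendsto_map.comp h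
  · rw [FF, tendsto_map'_iff]
    have h : Tendsto (fun g : G0 => g⁻¹) (𝓝 1) (𝓝 1) := by
      simpa using (continuous_inv (G := G0)).tendsto 1
    exact tendsto_map.comp h

theorem le_iff (σ σ' : GroupTopology G0) : σ ≤ σ' ↔ FF σ ≤ FF σ' := by
  rw [FF, FF, map_le_map_iff Subtype.val_injective]
  constructor
  · intro h
    exact nhds_mono h
  · intro h
    rw [← GroupTopology.toTopologicalSpace_le, ← continuous_id_iff_le]
    exact @continuous_of_continuousAt_one G0 σ.toTopologicalSpace _ σ.toIsTopologicalGroup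
      G0 (G0 →* G0) _ σ'.toTopologicalSpace σ'.toIsTopologicalGroup.toContinuousMul _ _
      (MonoidHom.id G0) h

theorem mem_FF {L : ℕ → Subgroup Γ} {ha : Antitone L} {hl : ∀ n, L n ≤ GG n} {U : Set Γ} :
    U ∈ FF (tp L ha hl) ↔ ∃ n, (L n : Set Γ) ⊆ U := by
  rw [FF, mem_map]
  refine ((fb L ha hl).nhds_one_hasBasis.mem_iff).trans ?_
  constructor
  · rintro ⟨_, ⟨n, rfl⟩, h⟩
    exact ⟨n, fun g hg => h (a := ⟨g, GG_anti (Nat.zero_le n) (hl n hg)⟩) hg⟩
  · rintro ⟨n, h⟩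
    exact ⟨_, ⟨n, rfl⟩, fun g hg => h hg⟩

theorem tp_le {L L' : ℕ → Subgroup Γ} {ha : Antitone L} {hl : ∀ n, L n ≤ GG n}
    {ha' : Antitone L'} {hl' : ∀ n, L' n ≤ GG n} (h : ∀ n, L n ≤ L' n) :
    tp L ha hl ≤ tp L' ha' hl' := by
  rw [le_iff]
  intro U hU
  obtain ⟨n, hn⟩ := mem_FF.1 hU
  exact mem_FF.2 ⟨n, fun g hg => hn (h n hg)⟩

theorem tp_lt {L L' : ℕ → Subgroup Γ} {ha : Antitone L} {hl : ∀ n, L n ≤ GG n}
    {ha' : Antitone L'} {hl' : ∀ n, L' n ≤ GG n} (h : ∀ n, L n ≤ L' n)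
    (h' : ∀ n, ∃ g ∈ L' n, g ∉ L 0) : tp L ha hl < tp L' ha' hl' := by
  refine lt_of_le_not_ge (tp_le h) fun hle => ?_
  obtain ⟨n, hn⟩ := mem_FF.1 ((le_iff _ _).1 hle (mem_FF.2 ⟨0, subset_rfl⟩))
  obtain ⟨g, hg, hg'⟩ := h' n
  exact hg' (hn hg)

theorem tp_t2 (L : ℕ → Subgroup Γ) (ha : Antitone L) (hl : ∀ n, L n ≤ GG n) :
    @T2Space G0 (tp L ha hl).toTopologicalSpace := by
  letI := (tp L ha hl).toTopologicalSpace
  haveI := (tp L ha hl).toIsTopologicalGroup
  refine IsTopologicalGroup.t2Space_of_one_sep fun x hx => ?_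
  by_contra hc
  push Not at hc
  apply hx
  apply Subtype.ext
  refine LinearEquiv.ext fun y => Finsupp.ext fun p => ?_
  have h1 : {g : G0 | g.1 ∈ L p} ∈ 𝓝 (1 : G0) := (fb L ha hl).mem_nhds_one ⟨p, rfl⟩
  exact GG_coord (hl p (hc _ h1)) y p le_rfl

noncomputable def tK : GroupTopology G0 := tp KK KK_anti (fun n => inf_le_left.trans (HH_le n))
noncomputable def tH : GroupTopology G0 := tp HH HH_anti HH_le
noncomputable def tG : GroupTopology G0 := tp GG GG_anti (fun _ => le_rfl)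
noncomputable def tL (s : ℕ) : GroupTopology G0 :=
  tp (fun n => GG n ⊓ LL s) (fun _ _ h => inf_le_inf_right _ (GG_anti h)) (fun _ => inf_le_left)

theorem t_not_HH {i : ℕ} (hi : 0 < i) : t i 0 1 ∉ HH 0 := by
  intro h
  have := congrArg (fun x : W => x i) (HH_fix h 0 le_rfl)
  simp only [t_apply hi.ne', Finsupp.single_eq_of_ne hi.ne'] at this
  simp at this

theorem cov1 : tK ⋖ tH := by
  refine ⟨tp_lt (fun n => inf_le_left) fun n =>
    ⟨t (n + 1) (n + 2) (1 / 2), t_mem_HH (by omega) (by omega) (by omega) _,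
      fun h => t_not_LL0 (by omega) (by omega) h.2⟩, fun c h1 h2 => h2.not_ge ?_⟩
  have hH : ∀ r, (HH r : Set Γ) ∈ FF c := fun r =>
    (le_iff _ _).1 h2.le (mem_FF.2 ⟨r, subset_rfl⟩)
  rw [le_iff]
  intro U hU
  refine mem_FF.2 (coverKH (FF_GF c) (fun V hV => mem_FF.1 ((le_iff _ _).1 h1.le hV)) hH ?_ hU)
  intro hn
  apply h1.not_ge
  rw [le_iff]
  intro V hV
  obtain ⟨n, hn'⟩ := mem_FF.1 hV
  exact mem_of_superset (inter_mem (hH n) hn) hn'

theorem cov2 : tH ⋖ tG := by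
  refine ⟨tp_lt HH_le fun n => ⟨t (n + 1) 0 1, t_mem_GG (by omega) _, t_not_HH (by omega)⟩,
    fun c h1 h2 => h2.not_ge ?_⟩
  have hG : ∀ r, (GG r : Set Γ) ∈ FF c := fun r =>
    (le_iff _ _).1 h2.le (mem_FF.2 ⟨r, subset_rfl⟩)
  rw [le_iff]
  intro U hU
  refine mem_FF.2 (coverHG (FF_GF c) (fun V hV => mem_FF.1 ((le_iff _ _).1 h1.le hV)) hG ?_ hU)
  intro hn
  apply h1.not_ge
  rw [le_iff]
  intro V hV
  obtain ⟨n, hn'⟩ := mem_FF.1 hV
  filter_upwards [hG n, hn] with g g1 g2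
  exact hn' (HH_of_fix g1 g2)

theorem tL_strict : StrictMono tL := by
  refine strictMono_nat_of_lt_succ fun s => ?_
  refine tp_lt (fun n => inf_le_inf_left _ (LL_mono (Nat.le_succ s))) fun n =>
    ⟨t (n + 1) 0 (1 / 2 ^ (s + 1)), ⟨t_mem_GG (by omega) _, t_LL (by omega) (by omega)
      (Or.inr ⟨rfl, ?_⟩)⟩, fun h => t_not_LL (by omega) s h.2⟩
  rw [one_div, inv_mul_cancel₀ (by positivity)]
  exact Z2.one_mem

theorem tK_lt (s : ℕ) : tK < tL s :=
  tp_lt (fun n => inf_le_inf (HH_le n) (LL_mono (Nat.zero_le s))) fun n =>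
    ⟨t (n + 1) 0 1, ⟨t_mem_GG (by omega) _, t_LL (by omega) (by omega) (Or.inl Z2.one_mem)⟩,
      fun h => t_not_HH (by omega) h.1⟩

theorem lt_tG (s : ℕ) : tL s < tG :=
  tp_lt (fun _ => inf_le_left) fun n =>
    ⟨t (n + 1) 0 (1 / 2 ^ (s + 1)), t_mem_GG (by omega) _, fun h => t_not_LL (by omega) s h.2⟩

/-- There is a countable infinite group with a Hausdorff non-discrete group topology, a finite maximal (non-refinable) chain of Hausdorff group topologies τ0..τk, and an infinite chain of group topologies all strictly between τ0 and τk. -/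
theorem result :
    ∃ (G : Type) (_ : Group G), Countable G ∧ Infinite G ∧
      (∃ t : GroupTopology G, @T2Space G t.toTopologicalSpace ∧ t.toTopologicalSpace ≠ ⊥) ∧
      ∃ (k : ℕ) (τ : Fin (k + 1) → GroupTopology G),
        (∀ i : Fin k, τ i.castSucc ⋖ τ i.succ) ∧
        (∀ i : Fin (k + 1), @T2Space G (τ i).toTopologicalSpace) ∧
        ∃ S : Set (GroupTopology G), S.Infinite ∧ IsChain (· ≤ ·) S ∧
          ∀ s ∈ S, τ 0 < s ∧ s < τ (Fin.last k) := by
  have hinf : Infinite G0 := by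
    refine Infinite.of_injective (fun a : ℚ => (⟨t 1 0 a, t_mem_GG one_pos a⟩ : G0)) ?_
    intro a b e
    have := congrArg (fun g : G0 => g.1 (Finsupp.single 0 1) 1) e
    simpa [t_apply] using this
  refine ⟨G0, inferInstance, countable_G, hinf, ⟨tG, tp_t2 _ _ _, ?_⟩, 2, ![tK, tH, tG], ?_, ?_,
    range tL, infinite_range_of_injective tL_strict.injective, ?_, ?_⟩
  · intro h
    apply cov2.1.not_ge
    rw [← GroupTopology.toTopologicalSpace_le, h]
    exact bot_le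
  · intro i
    fin_cases i
    · exact cov1
    · exact cov2
  · intro i
    fin_cases i
    · exact tp_t2 _ _ _
    · exact tp_t2 _ _ _
    · exact tp_t2 _ _ _
  · exact tL_strict.monotone.isChain_range
  · rintro _ ⟨s, rfl⟩
    exact ⟨tK_lt s, lt_tG s⟩

end Pool.Agent.S01079
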