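import Pool.Statements.S01104
import Pool.Agent.Lib.helper4.FreePart

set_option autoImplicit false
open Pointwise
open Pool Pool.MP_317811_al

namespace Pool.Agent.S01104

/-- The negation of the preceding statement: For every group G and every partition of G into n cells A_1,…,A_n, some cell A_i and some finite set F of at most n elements satisfy A_i⁻¹·A_i·F = G. -/
theorem result :
    ¬ (∀ (G : Type) [Group G] (n : ℕ) (A : Fin n → Set G),
      Pairwise (fun i j => Disjoint (A i) (A j)) →
      (⋃ i, A i) = Set.univ →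
      ∃ i : Fin n, ∃ F : Finset G, F.card ≤ n ∧
        (A i)⁻¹ * A i * (F : Set G) = Set.univ) := by
  intro h
  classical
  obtain ⟨c, h1, -⟩ := Pool.Agent.H4Free.main
  obtain ⟨i, F, hF, e⟩ := h _ 7 (fun i => {g | c g⁻¹ = i})
    (fun i j hij => Set.disjoint_left.2 fun x (a : c x⁻¹ = i) (b : c x⁻¹ = j) =>
      hij (a.symm.trans b)) (by ext x; simp)
  obtain ⟨t, ht⟩ := h1 i {1} F (by simp) hF
  obtain ⟨_, ⟨a, ha, b, hb, rfl⟩, f, hf, e'⟩ := e ▸ Set.mem_univ t
  exact ht 1 (by simp) f hf a b⁻¹ (by simpa using ha) hb (by simpa using e'.symm)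

end Pool.Agent.S01104
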