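import Pool.Statements.S01117
import Pool.Agent.Lib.helper22.Bard

set_option autoImplicit false
open Pool Pool.MP_32c87b_al

namespace Pool.Agent.S01117

/-- Every lattice-ordered group G is isomorphic, as a group and as an ordered set, to the group of order automorphisms of some poset Ω under composition, with automorphisms ordered pointwise. -/
theorem result :
    ∀ (G : Type) [Group G] [Lattice G] [MulLeftMono G] [MulRightMono G],
      ∃ (Ω : Type) (_ : PartialOrder Ω) (φ : G → (Ω ≃o Ω)),
        Function.Bijective φ ∧
        (∀ a b : G, φ (a * b) = (φ b).trans (φ a)) ∧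
        (∀ a b : G, a ≤ b ↔ ∀ x : Ω, φ a x ≤ φ b x) := by
  intro G _ _ _ _
  obtain ⟨W, _, _, _, c, hc⟩ := Lib.helper22.Bard.exists_W G
  exact Lib.helper22.Bard.final c hc

end Pool.Agent.S01117
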