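import Pool.Statements.S01146
import Pool.Agent.Lib.helper4.FreePart

set_option autoImplicit false
open Pointwise
open Pool Pool.MP_34521c_al

namespace Pool.Agent.S01146

/-- The negation of the preceding statement: For every group G partitioned into n nonempty cells that pairwise commute as sets, some cell A has the property that at most n translates of A·A⁻¹ cover G. -/
theorem result :
    ¬ (∀ (G : Type) [Group G] (n : ℕ) (A : Fin n → Set G),
      (∀ i, (A i).Nonempty) →
      Pairwise (fun i j => Disjoint (A i) (A j)) →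
      (⋃ i, A i) = Set.univ →
      (∀ i j, A i * A j = A j * A i) →
      ∃ i : Fin n, ∃ F : Finset G, F.card ≤ n ∧
        (F : Set G) * (A i * (A i)⁻¹) = Set.univ) := by
  intro h
  classical
  obtain ⟨c, h1, h2⟩ := Pool.Agent.H4Free.main
  have h3 : ∀ i j, {g | c g = i} * {g | c g = j} = Set.univ := fun i j =>
    Set.eq_univ_of_forall fun g => by
      obtain ⟨a, b, ha, hb, e⟩ := h2 g i j
      exact ⟨a, ha, b, hb, e⟩
  obtain ⟨i, F, hF, e⟩ := h _ 7 (fun i => {g | c g = i})
    (fun i => by
      obtain ⟨a, -, ha, -⟩ := h2 1 i i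
      exact ⟨a, ha⟩)
    (fun i j hij => Set.disjoint_left.2 fun x (a : c x = i) (b : c x = j) =>
      hij (a.symm.trans b)) (by ext x; simp) (fun i j => by rw [h3, h3])
  obtain ⟨t, ht⟩ := h1 i F {1} hF (by simp)
  obtain ⟨f, hf, _, ⟨a, ha, b, hb, rfl⟩, e'⟩ := e ▸ Set.mem_univ t
  exact ht f hf 1 (by simp) a b⁻¹ ha hb (by simpa [mul_assoc] using e'.symm)

end Pool.Agent.S01146
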