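import Pool.Statements.S01148
import Pool.Agent.Lib.helper22.NFree

set_option autoImplicit false
open Pool Pool.MP_345b41_al

namespace Pool.Agent.S01148

/-- The negation of the preceding statement: Every countable lattice-ordered group H (order invariant under multiplication on both sides) admits an abelian lattice-ordered group G and an order isomorphism, hence a lattice isomorphism, from H onto G. -/
theorem result :
    ¬ (∀ (H : Type) [Group H] [Lattice H] [MulLeftMono H] [MulRightMono H] [Countable H],
      ∃ (G : Type) (_ : CommGroup G) (_ : Lattice G),
        MulLeftMono G ∧ Nonempty (H ≃o G)) := by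
  intro h
  obtain ⟨G, _, _, _, ⟨φ⟩⟩ := h Lib.helper22.NFree.H
  exact Lib.helper22.NFree.not_abel G φ

end Pool.Agent.S01148
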