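import Pool.Statements.S01178

set_option autoImplicit false
open Pool Pool.MP_36bee5_al

namespace Pool.Agent.S01178

open MvPolynomial

noncomputable section

abbrev S := MvPolynomial (Fin 4) ℚ

def q1 : S := X 0 * X 0 + X 1 * X 1
def q2 : S := X 2 * X 2 + X 3 * X 3

def J : Ideal S := Ideal.span {q1, q2}

abbrev R := S ⧸ J

abbrev mk : S →+* R := Ideal.Quotient.mk J

def x : R := mk (X 0)
def y : R := mk (X 1)
def z : R := mk (X 2)
def t : R := mk (X 3)

lemma q1_mem : q1 ∈ J := Ideal.subset_span (by simp)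
lemma q2_mem : q2 ∈ J := Ideal.subset_span (by simp)

lemma hy : y * y = - (x * x) := by
  have : mk q1 = 0 := Ideal.Quotient.eq_zero_iff_mem.2 q1_mem
  simp only [q1, map_add, map_mul] at this
  unfold x y
  linear_combination this

lemma ht : t * t = - (z * z) := by
  have : mk q2 = 0 := Ideal.Quotient.eq_zero_iff_mem.2 q2_mem
  simp only [q2, map_add, map_mul] at this
  unfold z t
  linear_combination this

lemma J_hom : ∀ p ∈ J, ∀ i : ℕ, homogeneousComponent i p ∈ J := by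
  intro p hp i
  let := MvPolynomial.gradedAlgebra (σ := Fin 4) (R := ℚ)
  have h : J.IsHomogeneous (homogeneousSubmodule (Fin 4) ℚ) := by
    apply Ideal.homogeneous_span
    intro q hq
    refine ⟨2, ?_⟩
    simp only [Set.mem_insert_iff, Set.mem_singleton_iff] at hq
    rcases hq with rfl | rfl
    · exact ((isHomogeneous_X ℚ 0).mul (isHomogeneous_X ℚ 0)).add
        ((isHomogeneous_X ℚ 1).mul (isHomogeneous_X ℚ 1))
    · exact ((isHomogeneous_X ℚ 2).mul (isHomogeneous_X ℚ 2)).add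
        ((isHomogeneous_X ℚ 3).mul (isHomogeneous_X ℚ 3))
  have := h i hp
  rw [← MvPolynomial.decomposition.decompose'_apply]
  exact this

-- normal forms over B = Q[z][x]
abbrev B := Polynomial (Polynomial ℚ)

def bx : B := Polynomial.X
def bz : B := Polynomial.C Polynomial.X

def iota : B →+* R :=
  Polynomial.eval₂RingHom (Polynomial.eval₂RingHom (algebraMap ℚ R) z) x

lemma iota_bx : iota bx = x := by simp [iota, bx]
lemma iota_bz : iota bz = z := by simp [iota, bz]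

def nf (a b c d : B) : R := iota a + iota b * y + iota c * t + iota d * (y * t)

lemma nf_add (a b c d a' b' c' d' : B) :
    nf a b c d + nf a' b' c' d' = nf (a + a') (b + b') (c + c') (d + d') := by
  simp only [nf, map_add]; ring

lemma nf_x (a b c d : B) : nf a b c d * x = nf (a * bx) (b * bx) (c * bx) (d * bx) := by
  simp only [nf, map_mul, iota_bx]; ring

lemma nf_z (a b c d : B) : nf a b c d * z = nf (a * bz) (b * bz) (c * bz) (d * bz) := by
  simp only [nf, map_mul, iota_bz]; ring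

lemma nf_y (a b c d : B) : nf a b c d * y = nf (-(b * bx * bx)) a (-(d * bx * bx)) c := by
  simp only [nf, map_mul, map_neg, iota_bx]
  linear_combination (iota b + iota d * t) * hy

lemma nf_t (a b c d : B) : nf a b c d * t = nf (-(c * bz * bz)) (-(d * bz * bz)) a b := by
  simp only [nf, map_mul, map_neg, iota_bz]
  linear_combination (iota c + iota d * y) * ht

lemma exists_nf (r : R) : ∃ a b c d, r = nf a b c d := by
  obtain ⟨p, rfl⟩ := Ideal.Quotient.mk_surjective r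
  induction p using MvPolynomial.induction_on with
  | C a =>
    refine ⟨Polynomial.C (Polynomial.C a), 0, 0, 0, ?_⟩
    simp [nf, iota]
    rfl
  | add p q hp hq =>
    obtain ⟨a, b, c, d, h⟩ := hp
    obtain ⟨a', b', c', d', h'⟩ := hq
    exact ⟨_, _, _, _, by rw [map_add, h, h', nf_add]⟩
  | mul_X p i hp =>
    obtain ⟨a, b, c, d, h⟩ := hp
    rw [map_mul, h]
    fin_cases i
    · exact ⟨_, _, _, _, nf_x a b c d⟩
    · exact ⟨_, _, _, _, nf_y a b c d⟩
    · exact ⟨_, _, _, _, nf_z a b c d⟩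
    · exact ⟨_, _, _, _, nf_t a b c d⟩

abbrev M1 := QuadraticAlgebra B (-(bx * bx)) 0
abbrev M := QuadraticAlgebra M1 (⟨-(bz * bz), 0⟩ : M1) 0

def phi0 : S →ₐ[ℚ] M :=
  aeval ![(⟨⟨bx, 0⟩, 0⟩ : M), ⟨⟨0, 1⟩, 0⟩, ⟨⟨bz, 0⟩, 0⟩, ⟨0, 1⟩]

def phi : R →+* M := Ideal.Quotient.lift J phi0.toRingHom (by
  intro a ha
  have : J ≤ RingHom.ker phi0.toRingHom := by
    unfold J
    rw [Ideal.span_le]
    intro q hq
    simp only [Set.mem_insert_iff, Set.mem_singleton_iff] at hq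
    rcases hq with rfl | rfl
    · simp only [SetLike.mem_coe, RingHom.mem_ker, q1, phi0]
      ext <;> simp
    · simp only [SetLike.mem_coe, RingHom.mem_ker, q2, phi0]
      ext <;> simp
  exact this ha)

lemma phi_x : phi x = ⟨⟨bx, 0⟩, 0⟩ := by simp [phi, x, phi0]
lemma phi_y : phi y = ⟨⟨0, 1⟩, 0⟩ := by simp [phi, y, phi0]
lemma phi_z : phi z = ⟨⟨bz, 0⟩, 0⟩ := by simp [phi, z, phi0]
lemma phi_t : phi t = ⟨0, 1⟩ := by simp [phi, t, phi0]

lemma phi_iota (a : B) : phi (iota a) = ⟨⟨a, 0⟩, 0⟩ := by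
  have : phi.comp iota = (algebraMap M1 M).comp (algebraMap B M1) := by
    apply Polynomial.ringHom_ext'
    · apply Polynomial.ringHom_ext'
      · exact Subsingleton.elim _ _
      · simp only [RingHom.comp_apply]
        have := iota_bz
        unfold bz at this
        rw [this, phi_z]; rfl
    · simp only [RingHom.comp_apply]
      have := iota_bx
      unfold bx at this
      rw [this, phi_x]; rfl
  exact congrArg (fun f => f a) this

lemma phi_nf (a b c d : B) : phi (nf a b c d) = ⟨⟨a, b⟩, ⟨c, d⟩⟩ := by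
  simp only [nf, map_add, map_mul, phi_iota, phi_y, phi_t]
  ext <;> simp

lemma nf_inj {a b c d a' b' c' d' : B} (h : nf a b c d = nf a' b' c' d') :
    a = a' ∧ b = b' ∧ c = c' ∧ d = d' := by
  have := congrArg phi h
  rw [phi_nf, phi_nf] at this
  simp only [QuadraticAlgebra.mk.injEq] at this
  tauto

lemma nf_zero : nf 0 0 0 0 = 0 := by simp [nf]

lemma bx_ne : bx ≠ 0 := Polynomial.X_ne_zero
lemma bz_ne : bz ≠ 0 := by simp [bz]

lemma dvd_of_bz {a : B} {k : ℕ} (h : bx ^ k ∣ a * bz) : bx ^ k ∣ a := by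
  unfold bx bz at *
  rw [Polynomial.X_pow_dvd_iff] at *
  intro d hd
  have := h d hd
  rw [Polynomial.coeff_mul_C] at this
  simpa using this

lemma reg_x (r : R) (h : r * x = 0) : r = 0 := by
  obtain ⟨a, b, c, d, rfl⟩ := exists_nf r
  rw [nf_x, ← nf_zero] at h
  obtain ⟨h1, h2, h3, h4⟩ := nf_inj h
  simp only [mul_eq_zero, bx_ne, or_false] at h1 h2 h3 h4
  rw [h1, h2, h3, h4, nf_zero]

lemma reg_y (r : R) (h : r * y = 0) : r = 0 := by
  apply reg_x; apply reg_x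
  linear_combination (-y) * h + r * hy

lemma col_z (r s : R) (h : r * z = s * x) : ∃ u, r = u * x := by
  obtain ⟨a, b, c, d, rfl⟩ := exists_nf r
  obtain ⟨a', b', c', d', rfl⟩ := exists_nf s
  rw [nf_x, nf_z] at h
  obtain ⟨h1, h2, h3, h4⟩ := nf_inj h
  have key : ∀ e e' : B, e * bz = e' * bx → ∃ u, e = u * bx := by
    intro e e' he
    have : bx ^ 1 ∣ e := dvd_of_bz ⟨e', by rw [he]; ring⟩
    obtain ⟨u, hu⟩ := this
    exact ⟨u, by rw [hu]; ring⟩
  obtain ⟨a, rfl⟩ := key _ _ h1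
  obtain ⟨b, rfl⟩ := key _ _ h2
  obtain ⟨c, rfl⟩ := key _ _ h3
  obtain ⟨d, rfl⟩ := key _ _ h4
  exact ⟨nf a b c d, (nf_x a b c d).symm⟩

lemma col_t (r s : R) (h : r * t = s * y) : ∃ u, r = u * y := by
  obtain ⟨a, b, c, d, rfl⟩ := exists_nf r
  obtain ⟨a', b', c', d', rfl⟩ := exists_nf s
  rw [nf_t, nf_y] at h
  obtain ⟨h1, -, h3, -⟩ := nf_inj h
  have : bx ^ 2 ∣ c := dvd_of_bz (dvd_of_bz ⟨b', by linear_combination -h1⟩)
  obtain ⟨u, hu⟩ := this
  refine ⟨nf b d' d (-u), ?_⟩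
  rw [nf_y, h3, hu]
  congr 1; ring

def I1 : Ideal R := Ideal.span {x}
def I2 : Ideal R := I1 ⊔ Ideal.span {z}
def I3 : Ideal R := I2 ⊔ Ideal.span {y}
def I4 : Ideal R := I3 ⊔ Ideal.span {t}
def I5 : Ideal R := Ideal.span {y}
def I6 : Ideal R := I5 ⊔ Ideal.span {t}

lemma mem_sup_span {I : Ideal R} {v r : R} :
    r ∈ I ⊔ Ideal.span {v} ↔ ∃ a ∈ I, ∃ u, r = a + u * v := by
  rw [Submodule.mem_sup]
  constructor
  · rintro ⟨a, ha, b, hb, rfl⟩
    obtain ⟨u, rfl⟩ := Ideal.mem_span_singleton'.1 hb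
    exact ⟨a, ha, u, rfl⟩
  · rintro ⟨a, ha, u, rfl⟩
    exact ⟨a, ha, u * v, Ideal.mem_span_singleton'.2 ⟨u, rfl⟩, rfl⟩

lemma mem_I1 {r : R} : r ∈ I1 ↔ ∃ u, r = u * x := by
  unfold I1; rw [Ideal.mem_span_singleton']; simp [eq_comm]
lemma mem_I5 {r : R} : r ∈ I5 ↔ ∃ u, r = u * y := by
  unfold I5; rw [Ideal.mem_span_singleton']; simp [eq_comm]
lemma mem_I2 {r : R} : r ∈ I2 ↔ ∃ u v, r = u * x + v * z := by
  unfold I2; rw [mem_sup_span]
  constructor
  · rintro ⟨a, ha, v, rfl⟩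
    obtain ⟨u, rfl⟩ := mem_I1.1 ha
    exact ⟨u, v, rfl⟩
  · rintro ⟨u, v, rfl⟩
    exact ⟨_, mem_I1.2 ⟨u, rfl⟩, v, rfl⟩
lemma mem_I3 {r : R} : r ∈ I3 ↔ ∃ u v w, r = u * x + v * z + w * y := by
  unfold I3; rw [mem_sup_span]
  constructor
  · rintro ⟨a, ha, w, rfl⟩
    obtain ⟨u, v, rfl⟩ := mem_I2.1 ha
    exact ⟨u, v, w, rfl⟩
  · rintro ⟨u, v, w, rfl⟩
    exact ⟨_, mem_I2.2 ⟨u, v, rfl⟩, w, rfl⟩
lemma mem_I4 {r : R} : r ∈ I4 ↔ ∃ u v w s, r = u * x + v * z + w * y + s * t := by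
  unfold I4; rw [mem_sup_span]
  constructor
  · rintro ⟨a, ha, s, rfl⟩
    obtain ⟨u, v, w, rfl⟩ := mem_I3.1 ha
    exact ⟨u, v, w, s, rfl⟩
  · rintro ⟨u, v, w, s, rfl⟩
    exact ⟨_, mem_I3.2 ⟨u, v, w, rfl⟩, s, rfl⟩

lemma col3 (r : R) : r ∈ I3 ↔ r * y ∈ I2 := by
  rw [mem_I3, mem_I2]
  constructor
  · rintro ⟨u, v, w, rfl⟩
    exact ⟨u * y - w * x, v * y, by linear_combination w * hy⟩
  · rintro ⟨u, v, h⟩
    obtain ⟨a, b, c, d, rfl⟩ := exists_nf r
    obtain ⟨a1, b1, c1, d1, rfl⟩ := exists_nf u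
    obtain ⟨a2, b2, c2, d2, rfl⟩ := exists_nf v
    rw [nf_y, nf_x, nf_z, nf_add] at h
    obtain ⟨-, h2, -, h4⟩ := nf_inj h
    refine ⟨iota b1 + iota d1 * t, iota b2 + iota d2 * t, iota b + iota d * t, ?_⟩
    rw [h2, h4]
    simp only [nf, map_add, map_mul, iota_bx, iota_bz]
    ring

lemma col4 (r : R) : r ∈ I4 ↔ r * t ∈ I3 := by
  rw [mem_I4, mem_I3]
  constructor
  · rintro ⟨u, v, w, s, rfl⟩
    exact ⟨u * t, v * t - s * z, w * t, by linear_combination s * ht⟩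
  · rintro ⟨u, v, w, h⟩
    obtain ⟨a, b, c, d, rfl⟩ := exists_nf r
    obtain ⟨a1, b1, c1, d1, rfl⟩ := exists_nf u
    obtain ⟨a2, b2, c2, d2, rfl⟩ := exists_nf v
    obtain ⟨a3, b3, c3, d3, rfl⟩ := exists_nf w
    rw [nf_t, nf_x, nf_z, nf_y, nf_add, nf_add] at h
    obtain ⟨-, -, h3, -⟩ := nf_inj h
    refine ⟨iota c1 - iota d3 * x, iota c2, iota b + iota d * t, iota c, ?_⟩
    rw [h3]
    simp only [nf, map_add, map_mul, map_neg, iota_bx, iota_bz]
    ring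

lemma colon_iff {I : Ideal R} {v r : R} :
    (∀ w ∈ I ⊔ Ideal.span {v}, r * w ∈ I) ↔ r * v ∈ I := by
  constructor
  · intro h
    exact h v (mem_sup_span.2 ⟨0, I.zero_mem, 1, by ring⟩)
  · intro h w hw
    obtain ⟨a, ha, u, rfl⟩ := mem_sup_span.1 hw
    have : r * (a + u * v) = r * a + u * (r * v) := by ring
    rw [this]
    exact I.add_mem (I.mul_mem_left _ ha) (I.mul_mem_left _ h)

def Lin (v : R) : Prop := ∃ p : S, p.IsHomogeneous 1 ∧ mk p = v

def LinGen (I : Ideal R) : Prop := I = Ideal.span {w : R | w ∈ I ∧ Lin w}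

lemma linGen_bot : LinGen ⊥ := by
  apply le_antisymm bot_le
  rw [Ideal.span_le]; intro w hw; exact hw.1

lemma linGen_sup {I : Ideal R} {v : R} (h : LinGen I) (hv : Lin v) :
    LinGen (I ⊔ Ideal.span {v}) := by
  apply le_antisymm
  · apply sup_le
    · refine h.le.trans (Ideal.span_mono ?_)
      intro w hw
      exact ⟨Submodule.mem_sup_left hw.1, hw.2⟩
    · apply Ideal.span_mono
      rintro w rfl
      exact ⟨Submodule.mem_sup_right (Ideal.mem_span_singleton_self _), hv⟩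
  · rw [Ideal.span_le]; intro w hw; exact hw.1

lemma lin_x : Lin x := ⟨_, isHomogeneous_X ℚ 0, rfl⟩
lemma lin_y : Lin y := ⟨_, isHomogeneous_X ℚ 1, rfl⟩
lemma lin_z : Lin z := ⟨_, isHomogeneous_X ℚ 2, rfl⟩
lemma lin_t : Lin t := ⟨_, isHomogeneous_X ℚ 3, rfl⟩

lemma lg1 : LinGen I1 := by simpa [I1] using linGen_sup linGen_bot lin_x
lemma lg2 : LinGen I2 := linGen_sup lg1 lin_z
lemma lg3 : LinGen I3 := linGen_sup lg2 lin_y
lemma lg4 : LinGen I4 := linGen_sup lg3 lin_t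
lemma lg5 : LinGen I5 := by simpa [I5] using linGen_sup linGen_bot lin_y
lemma lg6 : LinGen I6 := linGen_sup lg5 lin_t

lemma max_eq : Ideal.span {w : R | Lin w} = I4 := by
  apply le_antisymm
  · rw [Ideal.span_le]
    rintro w ⟨p, hp, rfl⟩
    have h1 : p ∈ Ideal.span (X '' (Set.univ : Set (Fin 4)) : Set S) := by
      rw [mem_ideal_span_X_image]
      intro m hm
      by_contra hc
      push Not at hc
      have h0 : m = 0 := by ext i; exact hc i trivial
      subst h0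
      have := hp.coeff_eq_zero (d := 0) (by simp)
      exact (mem_support_iff.1 hm) this
    have h2 : Ideal.span (X '' (Set.univ : Set (Fin 4)) : Set S) ≤ I4.comap mk := by
      rw [Ideal.span_le]
      rintro _ ⟨i, -, rfl⟩
      simp only [SetLike.mem_coe, Ideal.mem_comap]
      fin_cases i
      · exact mem_I4.2 ⟨1, 0, 0, 0, by simp [x]⟩
      · exact mem_I4.2 ⟨0, 0, 1, 0, by simp [y]⟩
      · exact mem_I4.2 ⟨0, 1, 0, 0, by simp [z]⟩
      · exact mem_I4.2 ⟨0, 0, 0, 1, by simp [t]⟩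
    exact h2 h1
  · refine lg4.le.trans (Ideal.span_mono ?_)
    intro w hw; exact hw.2

def F : Set (Ideal R) := {⊥, I1, I2, I3, I4, I5, I6}

lemma filt : ∀ I ∈ F, I ≠ ⊥ → ∃ I' ∈ F, I' ≤ I ∧ (∃ v : R, Lin v ∧ I = I' ⊔ Ideal.span {v}) ∧
    ∃ C ∈ F, ∀ r : R, r ∈ C ↔ ∀ w ∈ I, r * w ∈ I' := by
  intro I hI hne
  simp only [F, Set.mem_insert_iff, Set.mem_singleton_iff] at hI
  rcases hI with rfl | rfl | rfl | rfl | rfl | rfl | rfl
  · exact absurd rfl hne
  · refine ⟨⊥, by simp [F], bot_le, ⟨x, lin_x, by simp [I1]⟩, ⊥, by simp [F], fun r => ?_⟩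
    have : I1 = ⊥ ⊔ Ideal.span {x} := by simp [I1]
    rw [this, colon_iff]
    simp only [Ideal.mem_bot]
    exact ⟨fun h => by simp [h], reg_x r⟩
  · refine ⟨I1, by simp [F], le_sup_left, ⟨z, lin_z, rfl⟩, I1, by simp [F], fun r => ?_⟩
    unfold I2
    rw [colon_iff]
    refine ⟨fun h => I1.mul_mem_right _ h, fun h => ?_⟩
    obtain ⟨s, hs⟩ := mem_I1.1 h
    exact mem_I1.2 (col_z r s hs)
  · refine ⟨I2, by simp [F], le_sup_left, ⟨y, lin_y, rfl⟩, I3, by simp [F], fun r => ?_⟩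
    rw [col3]; exact colon_iff.symm
  · refine ⟨I3, by simp [F], le_sup_left, ⟨t, lin_t, rfl⟩, I4, by simp [F], fun r => ?_⟩
    rw [col4]; exact colon_iff.symm
  · refine ⟨⊥, by simp [F], bot_le, ⟨y, lin_y, by simp [I5]⟩, ⊥, by simp [F], fun r => ?_⟩
    have : I5 = ⊥ ⊔ Ideal.span {y} := by simp [I5]
    rw [this, colon_iff]
    simp only [Ideal.mem_bot]
    exact ⟨fun h => by simp [h], reg_y r⟩
  · refine ⟨I5, by simp [F], le_sup_left, ⟨t, lin_t, rfl⟩, I5, by simp [F], fun r => ?_⟩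
    unfold I6
    rw [colon_iff]
    refine ⟨fun h => I5.mul_mem_right _ h, fun h => ?_⟩
    obtain ⟨s, hs⟩ := mem_I5.1 h
    exact mem_I5.2 (col_t r s hs)

/-- polynomials with no monomial in a down-closed set of exponents -/
def idl (D : (Fin 4 →₀ ℕ) → Prop) (hD : ∀ a b, D (a + b) → D b) : Ideal S where
  carrier := {p | ∀ m, D m → coeff m p = 0}
  add_mem' := by
    intro p q hp hq m hm
    rw [coeff_add, hp m hm, hq m hm, add_zero]
  zero_mem' := by intro m _; simp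
  smul_mem' := by
    intro c p hp m hm
    rw [smul_eq_mul, coeff_mul]
    apply Finset.sum_eq_zero
    intro ab hab
    rw [Finset.HasAntidiagonal.mem_antidiagonal] at hab
    rw [hp ab.2 (hD ab.1 ab.2 (by rw [hab]; exact hm)), mul_zero]

def W : Ideal S := idl (fun m => m 0 ≤ 2 ∧ m 1 = 0 ∧ m 2 = 0 ∧ m 3 ≤ 2) (by
  intro a b h
  simp only [Finsupp.add_apply] at h
  omega)

def P : Ideal S := idl (fun m => (m 0 = 0 ∧ m 2 = 0) ∨ (m 1 = 0 ∧ m 3 = 0)) (by
  intro a b h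
  simp only [Finsupp.add_apply] at h
  omega)

lemma mem_W {p : S} : p ∈ W ↔ ∀ m : Fin 4 →₀ ℕ, (m 0 ≤ 2 ∧ m 1 = 0 ∧ m 2 = 0 ∧ m 3 ≤ 2) →
    coeff m p = 0 := Iff.rfl

lemma mem_P {p : S} : p ∈ P ↔ ∀ m : Fin 4 →₀ ℕ, ((m 0 = 0 ∧ m 2 = 0) ∨ (m 1 = 0 ∧ m 3 = 0)) →
    coeff m p = 0 := Iff.rfl

lemma X1_W : (X 1 : S) ∈ W := by
  rw [mem_W]; intro m hm
  rw [coeff_X, if_neg]
  rintro rfl; simp at hm

lemma X2_W : (X 2 : S) ∈ W := by
  rw [mem_W]; intro m hm
  rw [coeff_X, if_neg]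
  rintro rfl; simp at hm

lemma JP_W {j p : S} (hj : j ∈ J) (hp : p ∈ P) : j * p ∈ W := by
  obtain ⟨a, b, rfl⟩ := Ideal.mem_span_pair.1 hj
  have h0 : X 0 * (X 0 * p) ∈ W := by
    rw [mem_W]; intro m hm
    rw [coeff_X_mul']
    split_ifs with h1
    · rw [coeff_X_mul']
      split_ifs with h2
      · apply mem_P.1 hp
        left
        simp only [Finsupp.mem_support_iff, Finsupp.coe_tsub, Pi.sub_apply,
          Finsupp.single_eq_same] at h1 h2 ⊢
        refine ⟨by omega, by simp [hm.2.2.1]⟩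
      · rfl
    · rfl
  have h3 : X 3 * (X 3 * p) ∈ W := by
    rw [mem_W]; intro m hm
    rw [coeff_X_mul']
    split_ifs with h1
    · rw [coeff_X_mul']
      split_ifs with h2
      · apply mem_P.1 hp
        right
        simp only [Finsupp.mem_support_iff, Finsupp.coe_tsub, Pi.sub_apply,
          Finsupp.single_eq_same] at h1 h2 ⊢
        refine ⟨by simp [hm.2.1], by omega⟩
      · rfl
    · rfl
  have : (a * q1 + b * q2) * p = a * (X 0 * (X 0 * p)) + (a * X 1 * p) * X 1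
      + (b * X 2 * p) * X 2 + b * (X 3 * (X 3 * p)) := by
    unfold q1 q2; ring
  rw [this]
  exact W.add_mem (W.add_mem (W.add_mem (W.mul_mem_left _ h0) (W.mul_mem_left _ X1_W))
    (W.mul_mem_left _ X2_W)) (W.mul_mem_left _ h3)

def mo (a b c d : ℕ) : Fin 4 →₀ ℕ := Finsupp.equivFunOnFinite.symm ![a, b, c, d]

@[simp] lemma mo0 (a b c d : ℕ) : mo a b c d 0 = a := rfl
@[simp] lemma mo1 (a b c d : ℕ) : mo a b c d 1 = b := rfl
@[simp] lemma mo2 (a b c d : ℕ) : mo a b c d 2 = c := rfl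
@[simp] lemma mo3 (a b c d : ℕ) : mo a b c d 3 = d := rfl

lemma eq_mo (m : Fin 4 →₀ ℕ) : m = mo (m 0) (m 1) (m 2) (m 3) := by
  ext i; fin_cases i <;> rfl

lemma cXX (s : S) (i : Fin 4) (m : Fin 4 →₀ ℕ) :
    coeff m (s * (X i * X i)) =
      if 2 ≤ m i then coeff (m - Finsupp.single i 2) s else 0 := by
  have : (X i * X i : S) = monomial (Finsupp.single i 2) 1 := by
    rw [← sq, X_pow_eq_monomial]
  rw [this, coeff_mul_monomial']
  simp [Finsupp.single_le_iff]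

lemma J_c1 {h : S} (hj : h ∈ J) : coeff (mo 2 0 0 1) h = coeff (mo 0 2 0 1) h := by
  obtain ⟨a, b, rfl⟩ := Ideal.mem_span_pair.1 hj
  simp only [q1, q2, mul_add, coeff_add, cXX]
  simp only [mo0, mo1, mo2, mo3]
  norm_num
  congr 1
  ext i; fin_cases i <;> simp

lemma J_c2 {h : S} (hj : h ∈ J) : coeff (mo 1 0 0 2) h = coeff (mo 1 0 2 0) h := by
  obtain ⟨a, b, rfl⟩ := Ideal.mem_span_pair.1 hj
  simp only [q1, q2, mul_add, coeff_add, cXX]
  simp only [mo0, mo1, mo2, mo3]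
  norm_num
  congr 1
  ext i; fin_cases i <;> simp

lemma deg3_W {h : S} (hj : h ∈ J) (hp : h ∈ P) (h3 : h.IsHomogeneous 3) : h ∈ W := by
  rw [mem_W]; intro m hm
  by_cases hd : m.degree = 3
  · rw [Finsupp.degree_eq_sum, Fin.sum_univ_four] at hd
    have : (m 0 = 2 ∧ m 3 = 1) ∨ (m 0 = 1 ∧ m 3 = 2) := by omega
    rcases this with ⟨h0, h1⟩ | ⟨h0, h1⟩
    · rw [eq_mo m, h0, h1, hm.2.1, hm.2.2.1, J_c1 hj]
      exact mem_P.1 hp _ (by simp)
    · rw [eq_mo m, h0, h1, hm.2.1, hm.2.2.1, J_c2 hj]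
      exact mem_P.1 hp _ (by simp)
  · exact h3.coeff_eq_zero hd

lemma XX_P (i j : Fin 4) (hi : i = 0 ∨ i = 2) (hj : j = 1 ∨ j = 3) : (X i * X j : S) ∈ P := by
  rw [mem_P]; intro m hm
  have : (X i * X j : S) = monomial (Finsupp.single i 1 + Finsupp.single j 1) 1 := by
    simp [X, monomial_mul]
  rw [this, coeff_monomial, if_neg]
  rintro rfl
  rcases hi with rfl | rfl <;> rcases hj with rfl | rfl <;> simp at hm

lemma mem_I6 {r : R} : r ∈ I6 ↔ ∃ u v, r = u * y + v * t := by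
  unfold I6; rw [mem_sup_span]
  constructor
  · rintro ⟨a, ha, v, rfl⟩
    obtain ⟨u, rfl⟩ := mem_I5.1 ha
    exact ⟨u, v, rfl⟩
  · rintro ⟨u, v, rfl⟩
    exact ⟨_, mem_I5.2 ⟨u, rfl⟩, v, rfl⟩

lemma prod_le : I2 * I6 ≤ P.map mk := by
  rw [Ideal.mul_le]
  intro r hr s hs
  obtain ⟨a, b, rfl⟩ := mem_I2.1 hr
  obtain ⟨c, d, rfl⟩ := mem_I6.1 hs
  have e : ∀ i j : Fin 4, (i = 0 ∨ i = 2) → (j = 1 ∨ j = 3) → mk (X i) * mk (X j) ∈ P.map mk := by
    intro i j hi hj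
    rw [← map_mul]
    exact Ideal.mem_map_of_mem _ (XX_P i j hi hj)
  have : (a * x + b * z) * (c * y + d * t) = (a * c) * (x * y) + (a * d) * (x * t)
      + (b * c) * (z * y) + (b * d) * (z * t) := by ring
  rw [this]
  refine Ideal.add_mem _ (Ideal.add_mem _ (Ideal.add_mem _ ?_ ?_) ?_) ?_ <;>
    apply Ideal.mul_mem_left
  · exact e 0 1 (by simp) (by simp)
  · exact e 0 3 (by simp) (by simp)
  · exact e 2 1 (by simp) (by simp)
  · exact e 2 3 (by simp) (by simp)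

lemma not_W : (X 0 * X 3 * (X 0 * X 3) : S) ∉ W := by
  intro h
  have h1 := mem_W.1 h (mo 2 0 0 2) (by simp)
  have : (X 0 * X 3 * (X 0 * X 3) : S) = monomial (mo 2 0 0 2) 1 := by
    have : mo 2 0 0 2 = Finsupp.single 0 1 + Finsupp.single 3 1
        + (Finsupp.single 0 1 + Finsupp.single 3 1) := by
      ext i; fin_cases i <;> simp
    simp only [X, monomial_mul, mul_one, this]
  rw [this, coeff_monomial, if_pos rfl] at h1
  exact one_ne_zero h1

lemma xt_mem : x * t ∈ I2 * I6 :=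
  Ideal.mul_mem_mul (mem_I2.2 ⟨1, 0, by ring⟩) (mem_I6.2 ⟨0, 1, by ring⟩)
lemma zy_mem : z * y ∈ I2 * I6 :=
  Ideal.mul_mem_mul (mem_I2.2 ⟨0, 1, by ring⟩) (mem_I6.2 ⟨1, 0, by ring⟩)

lemma main {b0 b1 : ℕ} (g : Fin b0 → R) (A : Matrix (Fin b0) (Fin b1) R)
    (hg : ∀ j, ∃ p : S, p.IsHomogeneous 2 ∧ mk p = g j)
    (hA : ∀ a c, ∃ p : S, p.IsHomogeneous 1 ∧ mk p = A a c)
    (hs : Ideal.span (Set.range g) = I2 * I6)
    (hz : ∀ v : Fin b0 → R, ∑ j, v j * g j = 0 ↔ ∃ w, A.mulVec w = v) : False := by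
  have hG : ∀ j, ∃ p : S, p.IsHomogeneous 2 ∧ p ∈ P ∧ mk p = g j := by
    intro j
    obtain ⟨p, hp, hpj⟩ := hg j
    have h1 : g j ∈ P.map mk := prod_le (hs ▸ Ideal.subset_span ⟨j, rfl⟩)
    obtain ⟨q, hq, hqj⟩ := (Ideal.mem_map_iff_of_surjective _ Ideal.Quotient.mk_surjective).1 h1
    refine ⟨homogeneousComponent 2 q, homogeneousComponent_isHomogeneous 2 q, ?_, ?_⟩
    · rw [mem_P]; intro m hm
      rw [coeff_homogeneousComponent, mem_P.1 hq m hm]; simp
    · rw [← hpj, ← homogeneousComponent_eq_self hp, Ideal.Quotient.eq, ← map_sub]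
      apply J_hom
      rw [← Ideal.Quotient.eq]
      exact hqj.trans hpj.symm
  choose G hG2 hGP hGg using hG
  choose L hL1 hLA using hA
  have hcol : ∀ c, ∑ j, L j c * G j ∈ W := by
    intro c
    apply deg3_W
    · rw [← Ideal.Quotient.eq_zero_iff_mem, map_sum]
      simp only [map_mul, hLA, hGg]
      apply (hz _).2
      refine ⟨Pi.single c 1, ?_⟩
      ext j
      simp [Matrix.mulVec, dotProduct, Pi.single_apply]
    · exact P.sum_mem fun j _ => P.mul_mem_left _ (hGP j)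
    · exact IsHomogeneous.sum _ _ _ fun j _ => (hL1 j c).mul (hG2 j)
  obtain ⟨c, hc⟩ := (Ideal.mem_span_range_iff_exists_fun).1 (hs ▸ xt_mem)
  obtain ⟨d, hd⟩ := (Ideal.mem_span_range_iff_exists_fun).1 (hs ▸ zy_mem)
  have hv : ∑ j, (x * t * c j - z * y * d j) * g j = 0 := by
    have : ∑ j, (x * t * c j - z * y * d j) * g j
        = x * t * ∑ j, c j * g j - z * y * ∑ j, d j * g j := by
      rw [Finset.mul_sum, Finset.mul_sum, ← Finset.sum_sub_distrib]
      exact Finset.sum_congr rfl fun j _ => by ring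
    rw [this, hc, hd]
    linear_combination (x * x) * ht - (z * z) * hy
  obtain ⟨w, hw⟩ := (hz _).1 hv
  choose C hC using fun j => Ideal.Quotient.mk_surjective (I := J) (c j)
  choose D hD using fun j => Ideal.Quotient.mk_surjective (I := J) (d j)
  choose U hU using fun k => Ideal.Quotient.mk_surjective (I := J) (w k)
  have e1 : ∀ j, (X 0 * X 3 * C j - X 2 * X 1 * D j) - ∑ k, L j k * U k ∈ J := by
    intro j
    rw [← Ideal.Quotient.eq]
    simp only [map_sub, map_mul, map_sum, hC, hD, hU, hLA]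
    have := congrFun hw j
    simp only [Matrix.mulVec, dotProduct] at this
    exact this.symm
  have e2 : ∑ j, C j * G j - X 0 * X 3 ∈ J := by
    rw [← Ideal.Quotient.eq]
    simp only [map_mul, map_sum, hC, hGg]
    exact hc
  have f1 : ∑ j, ((X 0 * X 3 * C j - X 2 * X 1 * D j) - ∑ k, L j k * U k) * G j ∈ W :=
    W.sum_mem fun j _ => JP_W (e1 j) (hGP j)
  have f2 : ∑ k, U k * ∑ j, L j k * G j ∈ W :=
    W.sum_mem fun k _ => W.mul_mem_left _ (hcol k)
  have f3 := JP_W e2 (XX_P 0 3 (by simp) (by simp))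
  have f4 : (X 1 * ∑ j, D j * G j) * X 2 ∈ W := W.mul_mem_left _ X2_W
  apply not_W
  have hswap : ∑ k, U k * ∑ j, L j k * G j = ∑ j, (∑ k, L j k * U k) * G j := by
    simp only [Finset.mul_sum, Finset.sum_mul]
    rw [Finset.sum_comm]
    exact Finset.sum_congr rfl fun j _ => Finset.sum_congr rfl fun k _ => by ring
  have hsplit : ∑ j, ((X 0 * X 3 * C j - X 2 * X 1 * D j) - ∑ k, L j k * U k) * G j
      = X 0 * X 3 * ∑ j, C j * G j - X 2 * X 1 * ∑ j, D j * G j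
        - ∑ j, (∑ k, L j k * U k) * G j := by
    rw [Finset.mul_sum, Finset.mul_sum, ← Finset.sum_sub_distrib, ← Finset.sum_sub_distrib]
    exact Finset.sum_congr rfl fun j _ => by ring
  have : (X 0 * X 3 * (X 0 * X 3) : S) =
      ∑ j, ((X 0 * X 3 * C j - X 2 * X 1 * D j) - ∑ k, L j k * U k) * G j
      + ∑ k, U k * ∑ j, L j k * G j
      - (∑ j, C j * G j - X 0 * X 3) * (X 0 * X 3) + (X 1 * ∑ j, D j * G j) * X 2 := by
    rw [hswap, hsplit]; ring
  rw [this]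
  exact W.add_mem (W.sub_mem (W.add_mem f1 f2) f3) f4

lemma prod_ne : I2 * I6 ≠ ⊥ := by
  intro h
  have h1 := zy_mem
  rw [h, Ideal.mem_bot] at h1
  have h2 := reg_y _ h1
  have h3 := congrArg phi h2
  rw [phi_z, map_zero] at h3
  have h4 := congrArg (fun m : M => m.re.re) h3
  exact bz_ne (by simpa using h4)

end

theorem result :
    ¬ (∀ (K : Type) [Field K] (n : ℕ) (J : Ideal (MvPolynomial (Fin n) K)),
      (∀ p ∈ J, ∀ i : ℕ, MvPolynomial.homogeneousComponent i p ∈ J) →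
      ∀ (F : Set (Ideal (MvPolynomial (Fin n) K ⧸ J))),
        (∀ I ∈ F, I = Ideal.span {y : MvPolynomial (Fin n) K ⧸ J | y ∈ I ∧
            ∃ p : MvPolynomial (Fin n) K, p.IsHomogeneous 1 ∧ Ideal.Quotient.mk J p = y}) →
        (⊥ ∈ F) →
        (Ideal.span {y : MvPolynomial (Fin n) K ⧸ J |
            ∃ p : MvPolynomial (Fin n) K, p.IsHomogeneous 1 ∧ Ideal.Quotient.mk J p = y} ∈ F) →
        (∀ I ∈ F, I ≠ ⊥ → ∃ I' ∈ F, I' ≤ I ∧
            (∃ x : MvPolynomial (Fin n) K ⧸ J,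
              (∃ p : MvPolynomial (Fin n) K, p.IsHomogeneous 1 ∧ Ideal.Quotient.mk J p = x) ∧
              I = I' ⊔ Ideal.span {x}) ∧
            ∃ C ∈ F, ∀ r : MvPolynomial (Fin n) K ⧸ J, r ∈ C ↔ ∀ y ∈ I, r * y ∈ I') →
        ∀ (d : ℕ), 1 ≤ d → ∀ (I : Fin d → Ideal (MvPolynomial (Fin n) K ⧸ J)),
          (∀ k, I k ∈ F) → (∏ k, I k) ≠ ⊥ →
          ∃ b : ℕ → ℕ, ∃ g : Fin (b 0) → MvPolynomial (Fin n) K ⧸ J,
            ∃ A : (i : ℕ) → Matrix (Fin (b i)) (Fin (b (i + 1))) (MvPolynomial (Fin n) K ⧸ J),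
              (∀ j, ∃ p : MvPolynomial (Fin n) K, p.IsHomogeneous d ∧ Ideal.Quotient.mk J p = g j) ∧
              (∀ i a c, ∃ p : MvPolynomial (Fin n) K, p.IsHomogeneous 1 ∧
                  Ideal.Quotient.mk J p = A i a c) ∧
              Ideal.span (Set.range g) = ∏ k, I k ∧
              (∀ v : Fin (b 0) → MvPolynomial (Fin n) K ⧸ J,
                  ∑ j, v j * g j = 0 ↔ ∃ w, (A 0).mulVec w = v) ∧
              (∀ (i : ℕ) (v : Fin (b (i + 1)) → MvPolynomial (Fin n) K ⧸ J),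
                  (A i).mulVec v = 0 ↔ ∃ w, (A (i + 1)).mulVec w = v)) := by
  intro H
  obtain ⟨b, g, A, hg, hA, hs, hz, -⟩ := H ℚ 4 J J_hom F
    (by
      intro I hI
      simp only [F, Set.mem_insert_iff, Set.mem_singleton_iff] at hI
      rcases hI with rfl | rfl | rfl | rfl | rfl | rfl | rfl
      exacts [linGen_bot, lg1, lg2, lg3, lg4, lg5, lg6])
    (by simp [F])
    (by
      have := max_eq
      unfold Lin at this
      rw [this]; simp [F])
    filt 2 (by norm_num) ![I2, I6]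
    (by intro k; fin_cases k <;> simp [F])
    (by simpa using prod_ne)
  exact main g (A 0) hg (hA 0) (by simpa using hs) hz

end Pool.Agent.S01178
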