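import Pool.Statements.S01222

set_option autoImplicit false
open Pool Pool.MP_3a7344_al

namespace Pool.Agent.S01222

open Filter

section nar
variable {α β γ : Type}

def Nar (p : β → Prop) (Ψ : β → Filter α) : Prop :=
  ∃ (ι : Type) (_ : Finite ι) (f : ι → β → Ultrafilter α),
    ∀ b, p b → ∀ S : Set α, (∀ i, S ∈ f i b) → S ∈ Ψ b

lemma nar_ultra (p : β → Prop) (u : β → Ultrafilter α) :
    Nar p (fun b => (u b : Filter α)) :=
  ⟨Unit, inferInstance, fun _ => u, fun _ _ _ h => h ()⟩

lemma nar_pure (p : β → Prop) (c : β → α) : Nar p (fun b => (pure (c b) : Filter α)) :=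
  ⟨Unit, inferInstance, fun _ b => pure (c b), fun _ _ _ h => by simpa using h ()⟩

lemma nar_sup {p : β → Prop} {Φ Ψ : β → Filter α} (h1 : Nar p Φ) (h2 : Nar p Ψ) :
    Nar p (fun b => Φ b ⊔ Ψ b) := by
  obtain ⟨ι, _, f, hf⟩ := h1
  obtain ⟨κ, _, g, hg⟩ := h2
  refine ⟨ι ⊕ κ, inferInstance, Sum.elim f g, fun b hb S h => ?_⟩
  exact ⟨hf b hb S fun i => h (Sum.inl i), hg b hb S fun i => h (Sum.inr i)⟩

lemma nar_bind {p : β → Prop} {q : β × γ → Prop} {Φ : β → Filter γ} {Ψ : β × γ → Filter α}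
    (h1 : Nar p Φ) (h2 : Nar q Ψ) (h : ∀ b, p b → ∀ᶠ x in Φ b, q (b, x)) :
    Nar p (fun b => Filter.bind (Φ b) (fun x => Ψ (b, x))) := by
  obtain ⟨ι, _, f, hf⟩ := h1
  obtain ⟨κ, _, g, hg⟩ := h2
  refine ⟨ι × κ, inferInstance, fun ij b => (f ij.1 b).bind (fun x => g ij.2 (b, x)),
    fun b hb S hS => ?_⟩
  have h1 : {x | ∀ j, S ∈ g j (b, x)} ∈ Φ b := by
    refine hf b hb _ fun i => ?_
    have : ∀ᶠ x in (f i b : Filter γ), ∀ j, S ∈ g j (b, x) := by
      rw [eventually_all]
      intro j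
      exact hS (i, j)
    exact this
  rw [mem_bind']
  filter_upwards [h1, h b hb] with x hx hq
  exact hg _ hq S hx

lemma nar_comp {p : γ → Prop} {q : β → Prop} {Ψ : β → Filter α} (h : Nar q Ψ) (r : γ → β)
    (hr : ∀ c, p c → q (r c)) : Nar p (fun c => Ψ (r c)) := by
  obtain ⟨ι, _, f, hf⟩ := h
  exact ⟨ι, inferInstance, fun i c => f i (r c), fun c hc S hS => hf _ (hr c hc) S hS⟩

lemma nar_bindU (U : Ultrafilter γ) {Ψ : γ → Filter α} (h : Nar (fun _ => True) Ψ) :
    Nar (fun _ : β => True) (fun _ => Filter.bind U Ψ) :=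
  nar_bind (p := fun _ => True) (q := fun _ => True) (Φ := fun _ => (U : Filter γ))
    (Ψ := fun bx : β × γ => Ψ bx.2) (nar_ultra _ fun _ => U)
    (nar_comp h Prod.snd fun _ _ => trivial) fun _ _ => Eventually.of_forall fun _ => trivial

lemma nar_map {p : β → Prop} {Φ : β → Filter γ} (h : Nar p Φ) (m : β → γ → α) :
    Nar p (fun b => map (m b) (Φ b)) := by
  obtain ⟨ι, _, f, hf⟩ := h
  exact ⟨ι, inferInstance, fun i b => (f i b).map (m b), fun b hb S hS => hf b hb _ hS⟩

lemma nar_congr {p : β → Prop} {Φ Ψ : β → Filter α} (h : Nar p Φ) (e : ∀ b, p b → Φ b = Ψ b) :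
    Nar p Ψ := by
  obtain ⟨ι, _, f, hf⟩ := h
  exact ⟨ι, inferInstance, f, fun b hb S hS => e b hb ▸ hf b hb S hS⟩

lemma bad_finite {Φ : Filter α} (h : Nar (fun _ : Unit => True) (fun _ => Φ)) (f : α → Set γ)
    (s : ℕ) (hf : ∀ x, ∃ R : Finset γ, R.card ≤ s ∧ f x ⊆ R) :
    {c | ¬ ∀ᶠ x in Φ, c ∉ f x}.Finite := by
  obtain ⟨ι, _, u, hu⟩ := h
  have h1 : ∀ i, {c | {x | c ∈ f x} ∈ u i ()}.Finite := by
    intro i
    by_contra hinf
    obtain ⟨H, hH, hc⟩ := Set.Infinite.exists_subset_card_eq hinf (s + 1)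
    have : ∀ᶠ x in (u i () : Filter α), ∀ c ∈ H, c ∈ f x := by
      rw [eventually_all_finset]
      intro c hc
      exact hH hc
    obtain ⟨x, hx⟩ := this.exists
    obtain ⟨R, hR, hsub⟩ := hf x
    have : H ⊆ R := fun c hc => hsub (hx c hc)
    have := Finset.card_le_card this
    omega
  refine (Set.finite_iUnion h1).subset fun c hc => ?_
  simp only [Set.mem_iUnion, Set.mem_ofPred_eq] at hc ⊢
  by_contra hn
  push Not at hn
  exact hc (hu () trivial _ fun i => Ultrafilter.compl_mem_iff_notMem.2 (hn i))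

lemma neBot_bind (Φ : Filter γ) [NeBot Φ] {Ψ : γ → Filter α} (h : ∀ x, NeBot (Ψ x)) :
    NeBot (Filter.bind Φ Ψ) := by
  rw [neBot_iff, Ne, ← empty_mem_iff_bot, mem_bind']
  intro hh
  obtain ⟨x, hx⟩ := Filter.nonempty_of_mem hh
  exact (h x).ne (empty_mem_iff_bot.1 hx)

lemma dc {σ : Type} (P : σ → Prop) (R : ℕ → σ → σ → Prop) (s0 : σ) (h0 : P s0)
    (step : ∀ j s, P s → ∃ s', P s' ∧ R j s s') :
    ∃ u : ℕ → σ, ∀ j, P (u j) ∧ R j (u j) (u (j + 1)) := by
  choose! nx h1 h2 using step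
  let u : ℕ → σ := fun j => Nat.rec s0 (fun j s => nx j s) j
  have hP : ∀ j, P (u j) := fun j => by
    induction j with
    | zero => exact h0
    | succ j ih => exact h1 j _ ih
  exact ⟨u, fun j => ⟨hP j, h2 j _ (hP j)⟩⟩
end nar

section trees
variable {G : Type} [DecidableEq G]

def mulF (Φ Ψ : Filter (Finset G)) : Filter (Finset G) :=
  Filter.bind Φ (fun B => map (fun C => B ∪ C) Ψ)

lemma ev_mulF {Φ Ψ : Filter (Finset G)} {Q : Finset G → Prop} :
    (∀ᶠ T in mulF Φ Ψ, Q T) ↔ ∀ᶠ B in Φ, ∀ᶠ C in Ψ, Q (B ∪ C) := Iff.rfl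

lemma nar_mulF {β : Type} {p : β → Prop} {Φ Ψ : β → Filter (Finset G)} (h1 : Nar p Φ)
    (h2 : Nar p Ψ) : Nar p (fun b => mulF (Φ b) (Ψ b)) :=
  nar_bind (q := fun bx => p bx.1) (Ψ := fun bx => map (fun C => bx.2 ∪ C) (Ψ bx.1)) h1
    (nar_map (nar_comp h2 Prod.fst fun _ h => h) fun bx C => bx.2 ∪ C)
    (fun _ hb => Eventually.of_forall fun _ => hb)

def star (f : G → Filter (Finset G)) : List G → Filter (Finset G)
  | [] => pure ∅
  | x :: xs => mulF (f x) (star f xs)

def sp (f : G → Filter (Finset G)) : List G → Filter (Finset G)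
  | [] => pure ∅
  | x :: xs => sp f xs ⊔ mulF (f x) (star f xs)

lemma nar_star [Inhabited G] {f : G → Filter (Finset G)} (h : Nar (fun _ => True) f) (n : ℕ) :
    Nar (fun xs : List G => xs.length = n) (star f) := by
  induction n with
  | zero =>
    refine nar_congr (nar_pure _ fun _ => ∅) fun xs hx => ?_
    rw [List.length_eq_zero_iff.1 hx]; rfl
  | succ n ih =>
    refine nar_congr (nar_mulF (nar_comp h List.head! fun _ _ => trivial)
      (nar_comp ih List.tail fun xs hx => by simp [hx])) fun xs hx => ?_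
    cases xs with
    | nil => simp at hx
    | cons x xs => rfl

lemma nar_sp [Inhabited G] {f : G → Filter (Finset G)} (h : Nar (fun _ => True) f) (n : ℕ) :
    Nar (fun xs : List G => xs.length = n) (sp f) := by
  induction n with
  | zero =>
    refine nar_congr (nar_pure _ fun _ => ∅) fun xs hx => ?_
    rw [List.length_eq_zero_iff.1 hx]; rfl
  | succ n ih =>
    refine nar_congr (nar_sup (nar_comp ih List.tail fun xs hx => by simp [hx])
      (nar_mulF (nar_comp h List.head! fun _ _ => trivial)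
      (nar_comp (nar_star h n) List.tail fun xs hx => by simp [hx]))) fun xs hx => ?_
    cases xs with
    | nil => simp at hx
    | cons x xs => rfl

lemma star_const (Φ : Filter (Finset G)) : ∀ xs ys : List G, xs.length = ys.length →
    star (fun _ => Φ) xs = star (fun _ => Φ) ys
  | [], [], _ => rfl
  | [], _ :: _, h => by simp at h
  | _ :: _, [], h => by simp at h
  | _ :: xs, _ :: ys, h => by
    simp only [star]; rw [star_const Φ xs ys (by simpa using h)]

lemma sp_const (Φ : Filter (Finset G)) : ∀ xs ys : List G, xs.length = ys.length →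
    sp (fun _ => Φ) xs = sp (fun _ => Φ) ys
  | [], [], _ => rfl
  | [], _ :: _, h => by simp at h
  | _ :: _, [], h => by simp at h
  | _ :: xs, _ :: ys, h => by
    simp only [sp]; rw [star_const Φ xs ys (by simpa using h), sp_const Φ xs ys (by simpa using h)]

def Ctrl (k : ℕ) (Φ V : Filter (Finset G)) : Prop :=
  ∀ Q : Finset G → Prop, (∀ᶠ T in Φ, Q T) → ∀ᶠ B in V, ∀ T ⊆ B, T.card ≤ k → Q T

lemma ctrl_mul {k : ℕ} {Φ V Φ' V' : Filter (Finset G)} (h1 : Ctrl k Φ V) (h2 : Ctrl k Φ' V')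
    (Q : Finset G → Prop) (hQ : ∀ᶠ T in mulF Φ Φ', Q T) :
    ∀ᶠ B in V, ∀ᶠ C in V', ∀ T ⊆ B, T.card ≤ k → ∀ T' ⊆ C, T'.card ≤ k → Q (T ∪ T') := by
  filter_upwards [h1 _ (ev_mulF.1 hQ)] with B hB
  have : ∀ᶠ C in V', ∀ T ∈ B.powerset.filter (fun T => T.card ≤ k),
      ∀ T' ⊆ C, T'.card ≤ k → Q (T ∪ T') := by
    rw [eventually_all_finset]
    intro T hT
    rw [Finset.mem_filter, Finset.mem_powerset] at hT
    exact h2 _ (hB T hT.1 hT.2)
  filter_upwards [this] with C hC T hT hk
  exact hC T (by simp [hT, hk])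

lemma ctrl_star {k : ℕ} {f t : G → Filter (Finset G)} (h : ∀ x, Ctrl k (f x) (t x)) :
    ∀ xs : List G, Ctrl k (star f xs) (star t xs)
  | [] => fun Q hQ => by
    simp only [star, eventually_pure] at hQ ⊢
    intro T hT _
    rw [Finset.subset_empty.1 hT]; exact hQ
  | x :: xs => fun Q hQ => by
    refine ev_mulF.2 ?_
    filter_upwards [ctrl_mul (h x) (ctrl_star h xs) Q hQ] with B hB
    filter_upwards [hB] with C hC T hT hk
    have := hC (T ∩ B) Finset.inter_subset_right
      ((Finset.card_le_card Finset.inter_subset_left).trans hk) (T ∩ C) Finset.inter_subset_right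
      ((Finset.card_le_card Finset.inter_subset_left).trans hk)
    rwa [← Finset.inter_union_distrib_left, Finset.inter_eq_left.2 hT] at this

lemma ctrl_sp {k : ℕ} {f t R : G → Filter (Finset G)} (h : ∀ x, Ctrl k (f x) (t x))
    (hR : ∀ x, Ctrl (k + 1) (R x) (t x)) (Q : Finset G → Prop) :
    ∀ xs : List G, (∀ x ∈ xs, ∀ᶠ T in R x, Q T) → (∀ᶠ T in sp f xs, Q T) →
      ∀ᶠ B in star t xs, ∀ T ⊆ B, T.card ≤ k + 1 → Q T
  | [] => fun _ hQ => by
    simp only [star, sp, eventually_pure] at hQ ⊢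
    intro T hT _
    rw [Finset.subset_empty.1 hT]; exact hQ
  | x :: xs => fun h1 hQ => by
    refine ev_mulF.2 ?_
    simp only [sp, eventually_sup] at hQ
    have ih := ctrl_sp h hR Q xs (fun y hy => h1 y (List.mem_cons_of_mem _ hy)) hQ.1
    filter_upwards [ctrl_mul (h x) (ctrl_star h xs) Q hQ.2, hR x Q (h1 x List.mem_cons_self)]
      with B hB hB'
    filter_upwards [hB, ih] with C hC hC' T hT hk
    by_cases e1 : T ⊆ B
    · exact hB' T e1 hk
    by_cases e2 : T ⊆ C
    · exact hC' T e2 hk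
    have l1 : (T ∩ B).card < T.card := Finset.card_lt_card
      ⟨Finset.inter_subset_left, fun hh => e1 (hh.trans Finset.inter_subset_right)⟩
    have l2 : (T ∩ C).card < T.card := Finset.card_lt_card
      ⟨Finset.inter_subset_left, fun hh => e2 (hh.trans Finset.inter_subset_right)⟩
    have := hC (T ∩ B) Finset.inter_subset_right (by omega) (T ∩ C) Finset.inter_subset_right
      (by omega)
    rwa [← Finset.inter_union_distrib_left, Finset.inter_eq_left.2 hT] at this

variable (U : Ultrafilter G) (W : G → Ultrafilter (List G))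

def tree : ℕ → G → Filter (Finset G)
  | 0 => fun a => pure {a}
  | d + 1 => fun a => Filter.bind (W a) (star (tree d))

def base (a : G) : Filter (Finset G) := pure ∅ ⊔ pure {a}

def AA : ℕ → G → Filter (Finset G)
  | 0 => fun _ => pure ∅
  | k + 1 => fun a => (base a ⊔ Filter.bind (W a) (sp (AA k))) ⊔
      Filter.bind U (fun b => base b ⊔ Filter.bind (W b) (sp (AA k)))

def TT (xs : List G) : ℕ → Filter (Finset G)
  | 0 => pure ∅
  | k + 1 => Filter.bind U (AA U W (k + 1)) ⊔ sp (fun _ => TT xs k) xs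

lemma ctrl_zero (V : Filter (Finset G)) : Ctrl 0 (pure ∅) V := fun Q hQ =>
  Eventually.of_forall fun B T _ hT => by
    rw [Finset.card_eq_zero.1 (Nat.le_zero.1 hT)]; exact hQ

variable {U W}

lemma ctrl_AA (hm : ∀ a, ∀ A ∈ U, ∀ᶠ xs in (W a : Filter (List G)), ∀ x ∈ xs, x ∈ A) :
    ∀ k d a, Ctrl k (AA U W k a) (tree W d a) := by
  intro k
  induction k with
  | zero => exact fun d a => ctrl_zero _
  | succ k ihk =>
    intro d
    induction d with
    | zero =>
      intro a Q hQ
      simp only [AA, base, eventually_sup, eventually_pure, tree] at hQ ⊢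
      intro T hT _
      rcases Finset.subset_singleton_iff.1 hT with rfl | rfl
      exacts [hQ.1.1.1, hQ.1.1.2]
    | succ d ihd =>
      intro a Q hQ
      have hQ' := hQ
      simp only [AA, eventually_sup] at hQ'
      have h1 : {x | ∀ᶠ T in AA U W (k + 1) x, Q T} ∈ U := by
        have := eventually_bind.1 hQ'.2
        filter_upwards [this] with x hx
        simp only [AA]
        exact eventually_sup.2 ⟨hx, hQ'.2⟩
      refine eventually_bind.2 ?_
      filter_upwards [hm a _ h1, eventually_bind.1 hQ'.1.2] with xs hx1 hx2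
      exact ctrl_sp (ihk d) ihd Q xs hx1 hx2

lemma ctrl_TT (hm : ∀ a, ∀ A ∈ U, ∀ᶠ xs in (W a : Filter (List G)), ∀ x ∈ xs, x ∈ A)
    (ys : List G) (hl : ∀ a, ∀ᶠ xs in (W a : Filter (List G)), xs.length = ys.length) :
    ∀ k d a, k ≤ d → Ctrl k (TT U W ys k) (tree W d a) := by
  intro k
  induction k with
  | zero => exact fun d a _ => ctrl_zero _
  | succ k ihk =>
    intro d a hd Q hQ
    obtain ⟨d, rfl⟩ : ∃ e, d = e + 1 := ⟨d - 1, by omega⟩
    simp only [TT, eventually_sup] at hQ
    refine eventually_bind.2 ?_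
    filter_upwards [hm a _ (eventually_bind.1 hQ.1), hl a] with xs hx1 hx2
    refine ctrl_sp (f := fun _ => TT U W ys k) (fun x => ihk d x (by omega))
      (ctrl_AA hm (k + 1) d) Q xs hx1 ?_
    rw [sp_const _ xs ys hx2]; exact hQ.2

lemma ctrl_single (ys : List G) (k : ℕ) :
    Ctrl k (TT U W ys k) (map (fun x => ({x} : Finset G)) U) := by
  cases k with
  | zero => exact ctrl_zero _
  | succ k =>
    intro Q hQ
    simp only [TT, eventually_sup] at hQ
    rw [eventually_map]
    filter_upwards [eventually_bind.1 hQ.1] with x hx T hT _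
    simp only [AA, base, eventually_sup, eventually_pure] at hx
    rcases Finset.subset_singleton_iff.1 hT with rfl | rfl
    exacts [hx.1.1.1, hx.1.1.2]

lemma nar_AA [Inhabited G] {n : ℕ}
    (hl : ∀ a, ∀ᶠ xs in (W a : Filter (List G)), xs.length = n) (k : ℕ) :
    Nar (fun _ => True) (AA U W k) := by
  induction k with
  | zero => exact nar_pure _ fun _ => ∅
  | succ k ih =>
    have h0 : Nar (fun _ : G => True) (fun a => Filter.bind (W a) (sp (AA U W k))) :=
      nar_bind (p := fun _ : G => True) (q := fun bx : G × List G => bx.2.length = n)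
        (Φ := fun a => (W a : Filter (List G))) (Ψ := fun bx => sp (AA U W k) bx.2)
        (nar_ultra _ W) (nar_comp (q := fun xs : List G => xs.length = n) (Ψ := sp (AA U W k))
          (nar_sp ih n) Prod.snd fun _ h => h) fun a _ => hl a
    have h00 : Nar (fun _ : G => True) (fun a => base a) :=
      nar_sup (nar_pure _ fun _ => ∅) (nar_pure _ fun a : G => ({a} : Finset G))
    have h1 : Nar (fun _ : G => True)
        (fun a => base a ⊔ Filter.bind (W a) (sp (AA U W k))) := nar_sup h00 h0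
    exact nar_sup h1 (nar_bindU U h1)

lemma nar_TT [Inhabited G] (ys : List G)
    (hl : ∀ a, ∀ᶠ xs in (W a : Filter (List G)), xs.length = ys.length) (k : ℕ) :
    Nar (fun _ : Unit => True) (fun _ => TT U W ys k) := by
  induction k with
  | zero => exact nar_pure _ fun _ => ∅
  | succ k ih =>
    refine nar_sup (nar_bind (q := fun _ => True) (Ψ := fun bx : Unit × G => AA U W (k + 1) bx.2)
      (nar_ultra _ fun _ => U) (nar_comp (nar_AA hl _) Prod.snd fun _ _ => trivial)
      fun _ _ => Eventually.of_forall fun _ => trivial) ?_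
    exact nar_comp (nar_sp (f := fun _ => TT U W ys k)
      (nar_comp ih (fun _ => ()) fun _ _ => trivial) ys.length) (fun _ => ys) fun _ _ => rfl

lemma star_neBot {t : G → Filter (Finset G)} (h : ∀ x, NeBot (t x)) :
    ∀ xs : List G, NeBot (star t xs)
  | [] => by simp only [star]; infer_instance
  | x :: xs => by
    have := h x
    have := star_neBot h xs
    exact neBot_bind _ fun _ => inferInstance

lemma tree_neBot : ∀ d a, NeBot (tree W d a)
  | 0, _ => by simp only [tree]; infer_instance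
  | d + 1, _ => neBot_bind _ (star_neBot (tree_neBot d))

def Xi (Θ : Filter (Finset G)) : ℕ → Filter (Finset G)
  | 0 => pure ∅
  | r + 1 => mulF Θ (Xi Θ r)

lemma nar_Xi {Θ : Filter (Finset G)} (h : Nar (fun _ : Unit => True) (fun _ => Θ)) (r : ℕ) :
    Nar (fun _ : Unit => True) (fun _ => Xi Θ r) := by
  induction r with
  | zero => exact nar_pure _ fun _ => ∅
  | succ r ih => exact nar_mulF h ih

end trees

section grp
open Pointwise
variable {G : Type} [Group G]

def Wd (X : Set G) (n : ℕ) : Set G :=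
  {g | ∃ l : List G, l.length ≤ n ∧ (∀ x ∈ l, x ∈ X ∨ x⁻¹ ∈ X) ∧ l.prod = g}

lemma Wd_mono {X Y : Set G} {n m : ℕ} (h : X ⊆ Y) (hn : n ≤ m) : Wd X n ⊆ Wd Y m := by
  rintro g ⟨l, h1, h2, h3⟩
  exact ⟨l, h1.trans hn, fun x hx => (h2 x hx).imp (@h _) (@h _), h3⟩

lemma Wd_fin {X : Set G} {n : ℕ} {g : G} (hg : g ∈ Wd X n) :
    ∃ T : Finset G, ↑T ⊆ X ∧ T.card ≤ n ∧ g ∈ Wd T n := by
  classical
  obtain ⟨l, h1, h2, h3⟩ := hg
  refine ⟨(l.map fun x => if x ∈ X then x else x⁻¹).toFinset, ?_, ?_, l, h1, ?_, h3⟩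
  · intro y hy
    simp only [List.coe_toFinset, List.mem_map, Set.mem_ofPred_eq] at hy
    obtain ⟨x, hx, rfl⟩ := hy
    split_ifs with h
    · exact h
    · exact (h2 x hx).resolve_left h
  · exact (List.toFinset_card_le _).trans (by simpa using h1)
  · intro x hx
    simp only [List.coe_toFinset, List.mem_map, Set.mem_ofPred_eq]
    by_cases h : x ∈ X
    · exact Or.inl ⟨x, hx, by simp [h]⟩
    · exact Or.inr ⟨x, hx, by simp [h]⟩

lemma Wd_closure {X : Set G} {n : ℕ} {g : G} (hg : g ∈ Wd X n) : g ∈ Subgroup.closure X := by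
  obtain ⟨l, -, h2, rfl⟩ := hg
  refine Subgroup.list_prod_mem _ fun x hx => ?_
  rcases h2 x hx with h | h
  · exact Subgroup.subset_closure h
  · simpa using (Subgroup.closure X).inv_mem (Subgroup.subset_closure h)

lemma Wd_card (c n : ℕ) : ∃ s : ℕ, ∀ T : Finset G, T.card ≤ c →
    ∃ R : Finset G, R.card ≤ s ∧ Wd (T : Set G) n ⊆ (R : Set G) := by
  classical
  induction n with
  | zero =>
    refine ⟨1, fun T _ => ⟨{1}, by simp, ?_⟩⟩
    rintro g ⟨l, h1, -, rfl⟩
    rw [List.length_eq_zero_iff.1 (Nat.le_zero.1 h1)]; simp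
  | succ n ih =>
    obtain ⟨s, hs⟩ := ih
    refine ⟨(c + c) * s + 1, fun T hT => ?_⟩
    obtain ⟨R, hR, hsub⟩ := hs T hT
    refine ⟨insert 1 ((T ∪ T⁻¹) * R), ?_, ?_⟩
    · refine (Finset.card_insert_le _ _).trans (Nat.succ_le_succ ?_)
      refine Finset.card_mul_le.trans (Nat.mul_le_mul ?_ hR)
      refine (Finset.card_union_le _ _).trans ?_
      rw [Finset.card_inv]; omega
    · rintro g ⟨l, h1, h2, rfl⟩
      cases l with
      | nil => simp
      | cons x l =>
        rw [List.prod_cons, Finset.coe_insert]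
        refine Or.inr (Finset.mem_coe.2 (Finset.mul_mem_mul ?_ (hsub ⟨l, by simpa using h1,
          fun y hy => h2 y (List.mem_cons_of_mem _ hy), rfl⟩)))
        rcases h2 x List.mem_cons_self with h | h
        · exact Finset.mem_union_left _ h
        · exact Finset.mem_union_right _ (by simpa using h)

lemma closure_fin {X : Set G} {g : G} (hg : g ∈ Subgroup.closure X) :
    ∃ T : Finset G, ↑T ⊆ X ∧ g ∈ Subgroup.closure (T : Set G) := by
  classical
  induction hg using Subgroup.closure_induction with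
  | mem x hx => exact ⟨{x}, by simpa using hx, Subgroup.subset_closure (by simp)⟩
  | one => exact ⟨∅, by simp, one_mem _⟩
  | mul x y _ _ h1 h2 =>
    obtain ⟨T, a, b⟩ := h1
    obtain ⟨T', a', b'⟩ := h2
    refine ⟨T ∪ T', by simp [a, a'], mul_mem ?_ ?_⟩
    · exact Subgroup.closure_mono (by simp) b
    · exact Subgroup.closure_mono (by simp) b'
  | inv x _ h1 =>
    obtain ⟨T, a, b⟩ := h1
    exact ⟨T, a, inv_mem b⟩

lemma chain_lim (g : ℕ → G) (hg : Function.Surjective g) (u : ℕ → Finset G)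
    (h1 : ∀ j, u j ⊆ u (j + 1)) (h2 : ∀ j, (u j).card < (u (j + 1)).card)
    (h3 : ∀ j, g j ∈ Subgroup.closure (u (j + 1) : Set G)) :
    Subgroup.closure (⋃ j, (u j : Set G)) = ⊤ ∧ (⋃ j, (u j : Set G)).Infinite ∧
      ∀ T : Finset G, ↑T ⊆ (⋃ j, (u j : Set G)) → ∀ i, ∃ j, i ≤ j ∧ T ⊆ u j := by
  classical
  have hm : Monotone u := monotone_nat_of_le_succ h1
  refine ⟨?_, ?_, ?_⟩
  · rw [eq_top_iff]
    intro x _
    obtain ⟨j, rfl⟩ := hg x
    exact Subgroup.closure_mono (Set.subset_iUnion (fun j => (u j : Set G)) (j + 1)) (h3 j)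
  · intro hf
    have hc : ∀ j, j ≤ (u j).card := fun j => by
      induction j with
      | zero => omega
      | succ j ih => have := h2 j; omega
    have : u (hf.toFinset.card + 1) ⊆ hf.toFinset := fun x hx => by
      simp only [Set.Finite.mem_toFinset, Set.mem_iUnion]; exact ⟨_, hx⟩
    have := Finset.card_le_card this
    have := hc (hf.toFinset.card + 1)
    omega
  · intro T hT i
    induction T using Finset.induction_on with
    | empty => exact ⟨i, le_rfl, by simp⟩
    | insert x T _ ih =>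
      obtain ⟨j, hj, hj'⟩ := ih (fun y hy => hT (by simp [hy]))
      obtain ⟨k, hk⟩ := Set.mem_iUnion.1 (hT (show x ∈ _ by simp))
      refine ⟨max j k, hj.trans (le_max_left _ _), Finset.insert_subset ?_ ?_⟩
      · exact hm (le_max_right _ _) hk
      · exact hj'.trans (hm (le_max_left _ _))

def AllFast (G : Type) [Group G] : Prop :=
  ∀ X : Set G, Subgroup.closure X = ⊤ → X.Infinite → ∃ n : ℕ, ∀ g : G, g ∈ Wd X n

lemma prod_mem_imp (M : Subgroup G) (b : G) : ∀ l : List G, l.Nodup → b ∈ l →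
    (∀ x ∈ l, x ≠ b → x ∈ M) → l.prod ∈ M → b ∈ M := by
  intro l hn hb h hp
  obtain ⟨s, t, rfl⟩ := List.append_of_mem hb
  have hs : s.prod ∈ M := M.list_prod_mem fun x hx => h x (by simp [hx]) (by
    rintro rfl
    exact (List.nodup_append.1 hn).2.2 x hx x (by simp) rfl)
  have ht : t.prod ∈ M := M.list_prod_mem fun x hx => h x (by simp [hx]) (by
    rintro rfl
    exact (List.nodup_cons.1 (List.nodup_append.1 hn).2.1).1 hx)
  rw [List.prod_append, List.prod_cons] at hp
  have := M.mul_mem (M.mul_mem (M.inv_mem hs) hp) (M.inv_mem ht)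
  simpa [mul_assoc] using this

lemma irred_slow (Y : Set G) (hY : Subgroup.closure Y = ⊤)
    (hi : {b ∈ Y | Subgroup.closure (Y \ {b}) ≠ ⊤}.Infinite) (n : ℕ) : ∃ g, g ∉ Wd Y n := by
  classical
  obtain ⟨H, hH, hc⟩ := hi.exists_subset_card_eq (n + 1)
  refine ⟨H.toList.prod, fun hg => ?_⟩
  obtain ⟨T, hT, hTc, hg⟩ := Wd_fin hg
  have : ¬ H ⊆ T := fun h => by have := Finset.card_le_card h; omega
  obtain ⟨b, hb, hbT⟩ := Finset.not_subset.1 this
  have hb2 : b ∈ Subgroup.closure (Y \ {b}) := by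
    refine prod_mem_imp _ b H.toList H.nodup_toList (by simpa using hb) ?_ ?_
    · intro x hx hne
      exact Subgroup.subset_closure ⟨(hH (by simpa using hx)).1, hne⟩
    · refine Subgroup.closure_mono ?_ (Wd_closure hg)
      intro x hx
      exact ⟨hT hx, by rintro rfl; exact hbT hx⟩
  refine (hH hb).2 ?_
  rw [eq_top_iff, ← hY, Subgroup.closure_le]
  intro x hx
  by_cases e : x = b
  · rw [e]; exact hb2
  · exact Subgroup.subset_closure ⟨hx, e⟩

lemma caseB (g : ℕ → G) (hg : Function.Surjective g)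
    (hB : ∀ F : Finset G, ∃ M : Subgroup G, M ≠ ⊤ ∧ M.FiniteIndex ∧ (F : Set G) ⊆ M) :
    ¬ AllFast G := by
  classical
  intro H
  obtain ⟨u, hu⟩ := dc (σ := Finset G × Subgroup G)
    (fun s => s.2.Normal ∧ s.2.FiniteIndex ∧ Subgroup.closure (s.1 : Set G) ⊔ s.2 = ⊤)
    (fun j s s' => s.1 ⊆ s'.1 ∧ (∀ x ∈ s'.1, x ∈ s.1 ∨ x ∈ s.2) ∧ s'.2 ≤ s.2 ∧
      g j ∈ Subgroup.closure (s'.1 : Set G) ∧ ∃ b ∈ s'.1, b ∉ s.1 ∧
        Subgroup.closure ((s'.1 : Set G) \ {b}) ⊔ s'.2 ≠ ⊤)
    (∅, ⊤) ⟨inferInstance, inferInstance, by simp⟩ (by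
      rintro j ⟨Y, K⟩ ⟨hn, hf, ht⟩
      dsimp only at hn hf ht ⊢
      obtain ⟨y, hy, a, ha, hya⟩ := Subgroup.mem_sup_of_normal_right.1
        (show g j ∈ Subgroup.closure (Y : Set G) ⊔ K by rw [ht]; trivial)
      obtain ⟨M, hM, hMf, hMs⟩ := hB (insert a Y)
      let K' := K ⊓ M.normalCore
      have hn' : K'.Normal := inferInstance
      have hf' : K'.FiniteIndex := inferInstance
      have hex : ∃ c, ∃ B : Finset G, B.card = c ∧ (∀ x ∈ B, x ∈ K) ∧
          Subgroup.closure ((insert a Y ∪ B : Finset G) : Set G) ⊔ K' = ⊤ := by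
        have : Finite (G ⧸ K') := inferInstance
        have hfin : (Set.range fun k : K => (QuotientGroup.mk (k : G) : G ⧸ K')).Finite :=
          Set.toFinite _
        let r : G ⧸ K' → G := fun q => if h : ∃ k : K, (QuotientGroup.mk (k : G) : G ⧸ K') = q
          then (h.choose : G) else 1
        have hr : ∀ q, r q ∈ K := fun q => by
          simp only [r]; split_ifs with h
          · exact h.choose.2
          · exact one_mem _
        have hr2 : ∀ k ∈ K, (QuotientGroup.mk (r (QuotientGroup.mk k)) : G ⧸ K') =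
            QuotientGroup.mk k := fun k hk => by
          have h : ∃ k' : K, (QuotientGroup.mk (k' : G) : G ⧸ K') = QuotientGroup.mk k :=
            ⟨⟨k, hk⟩, rfl⟩
          simp only [r, dif_pos h]; exact h.choose_spec
        refine ⟨_, (Set.finite_range r).toFinset, rfl, ?_, ?_⟩
        · intro x hx
          obtain ⟨q, rfl⟩ := (Set.Finite.mem_toFinset _).1 hx
          exact hr q
        · rw [eq_top_iff, ← ht]
          refine sup_le (le_sup_of_le_left (Subgroup.closure_mono fun x hx => by simp [hx])) ?_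
          intro k hk
          have h1 := QuotientGroup.eq.1 (hr2 k hk)
          have : k = r (QuotientGroup.mk k) * ((r (QuotientGroup.mk k))⁻¹ * k) := by simp
          rw [this]
          exact mul_mem (Subgroup.mem_sup_left (Subgroup.subset_closure (by simp)))
            (Subgroup.mem_sup_right h1)
      obtain ⟨B, hBc, hBK, hBt⟩ := Nat.find_spec hex
      have hmin : ∀ B' : Finset G, B'.card < B.card → (∀ x ∈ B', x ∈ K) →
          Subgroup.closure ((insert a Y ∪ B' : Finset G) : Set G) ⊔ K' ≠ ⊤ :=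
        fun B' h1 h2 h3 => Nat.find_min hex (hBc ▸ h1) ⟨B', rfl, h2, h3⟩
      have hne : B.Nonempty := by
        rw [Finset.nonempty_iff_ne_empty]
        rintro rfl
        refine hM (top_le_iff.1 (hBt ▸ sup_le ?_ ?_))
        · rw [Subgroup.closure_le]; simpa using hMs
        · exact inf_le_right.trans M.normalCore_le
      obtain ⟨b, hb⟩ := hne
      have hm := hmin (B.erase b) (Finset.card_erase_lt_of_mem hb)
        (fun x hx => hBK x (Finset.mem_of_mem_erase hx))
      have hb' : b ∉ insert a Y := fun h => hm (by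
        have : insert a Y ∪ B.erase b = insert a Y ∪ B := by
          ext x
          simp only [Finset.mem_union, Finset.mem_erase]
          by_cases e : x = b
          · subst e; simp only [h, true_or]
          · simp [e]
        rw [this]; exact hBt)
      refine ⟨(insert a Y ∪ B, K'), ⟨hn', hf', hBt⟩, fun x hx => by simp [hx], ?_, inf_le_left,
        ?_, b, by simp [hb], fun h => hb' (by simp [h]), ?_⟩
      · intro x hx
        simp only [Finset.mem_union, Finset.mem_insert] at hx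
        rcases hx with (rfl | hx) | hx
        exacts [Or.inr ha, Or.inl hx, Or.inr (hBK x hx)]
      · rw [← hya]
        exact mul_mem (Subgroup.closure_mono (fun x hx => by simp [hx]) hy)
          (Subgroup.subset_closure (by simp))
      · have : ((insert a Y ∪ B : Finset G) : Set G) \ {b} =
            ((insert a Y ∪ B.erase b : Finset G) : Set G) := by
          ext x
          simp only [Set.mem_sdiff, Finset.mem_coe, Finset.mem_union, Finset.mem_erase,
            Set.mem_singleton_iff]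
          by_cases e : x = b
          · subst e; simp only [hb', false_or]; simp
          · simp [e]
        dsimp only
        rw [this]; exact hm)
  choose b hb1 hb2 hb3 using fun j => (hu j).2.2.2.2.2
  have hmono : Monotone fun j => (u j).1 := monotone_nat_of_le_succ fun j => (hu j).2.1
  have hanti : Antitone fun j => (u j).2 := antitone_nat_of_succ_le fun j => (hu j).2.2.2.1
  obtain ⟨c1, c2, -⟩ := chain_lim g hg (fun j => (u j).1) (fun j => (hu j).2.1)
    (fun j => Finset.card_lt_card ⟨(hu j).2.1, fun h => hb2 j (h (hb1 j))⟩)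
    (fun j => (hu j).2.2.2.2.1)
  have hlate : ∀ i k, ∀ x ∈ (u (i + k)).1, x ∈ (u i).1 ∨ x ∈ (u i).2 := by
    intro i k
    induction k with
    | zero => exact fun x hx => Or.inl hx
    | succ k ih =>
      intro x hx
      rcases (hu (i + k)).2.2.1 x hx with h | h
      · exact ih x h
      · exact Or.inr (hanti (Nat.le_add_right i k) h)
  have hinj : Function.Injective b := by
    have : ∀ i j, i < j → b i ≠ b j := fun i j h e =>
      hb2 j (e ▸ hmono (show i + 1 ≤ j from h) (hb1 i))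
    intro i j e
    rcases lt_trichotomy i j with h | h | h
    exacts [absurd e (this i j h), h, absurd e.symm (this j i h)]
  obtain ⟨n, hn⟩ := H _ c1 c2
  obtain ⟨x, hx⟩ := irred_slow _ c1 ((Set.infinite_range_of_injective hinj).mono (by
    rintro _ ⟨j, rfl⟩
    refine ⟨Set.mem_iUnion.2 ⟨_, hb1 j⟩, fun h => hb3 j (top_le_iff.1 (h ▸ ?_))⟩
    rw [Subgroup.closure_le]
    rintro x ⟨hx, hxb⟩
    obtain ⟨i, hi⟩ := Set.mem_iUnion.1 hx
    rcases hlate (j + 1) i x (hmono (Nat.le_add_left i (j + 1)) hi) with h | h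
    · exact Subgroup.mem_sup_left (Subgroup.subset_closure ⟨h, hxb⟩)
    · exact Subgroup.mem_sup_right h)) n
  exact hx (hn x)

lemma exists_U [Infinite G] : ∃ U : Ultrafilter G, ∀ (H : Subgroup G) (a : G),
    ¬ H.FiniteIndex → (a • (H : Set G))ᶜ ∈ U := by
  have : NeBot (generate {S : Set G | ∃ (H : Subgroup G) (a : G), ¬ H.FiniteIndex ∧
      S = (a • (H : Set G))ᶜ}) := by
    rw [generate_neBot_iff]
    intro t ht hf
    choose! H a h1 h2 using ht
    by_contra hne
    rw [Set.not_nonempty_iff_eq_empty] at hne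
    obtain ⟨k, hk, hk'⟩ := Subgroup.exists_finiteIndex_of_leftCoset_cover (H := H) (g := a)
      (s := hf.toFinset) (by
        rw [Set.eq_univ_iff_forall]
        intro x
        have : x ∉ ⋂₀ t := by rw [hne]; exact Set.notMem_empty x
        simp only [Set.mem_sInter, not_forall] at this
        obtain ⟨S, hS, hx⟩ := this
        simp only [Set.mem_iUnion, Set.Finite.mem_toFinset]
        refine ⟨S, hS, ?_⟩
        rw [h2 hS] at hx
        simpa using hx)
    exact h1 ((Set.Finite.mem_toFinset _).1 hk) hk'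
  refine ⟨@Ultrafilter.of _ _ this, fun H a h => @Ultrafilter.of_le _ _ this _ ?_⟩
  exact mem_generate_of_mem ⟨H, a, h, rfl⟩

lemma step1 (g : ℕ → G) (hg : Function.Surjective g) (H : AllFast G) (U : Ultrafilter G)
    (F0 : Finset G) (h1 : ∀ Z : Finset G, ∀ᶠ x in (U : Filter G), x ∉ Z)
    (h2 : ∀ A ∈ U, Subgroup.closure (↑F0 ∪ A) = ⊤) :
    ∃ (F : Finset G) (n : ℕ), ∀ A ∈ U, ∀ x, x ∈ Wd (↑F ∪ A) n := by
  classical
  by_contra hc
  push Not at hc
  obtain ⟨u, hu⟩ := dc (σ := Finset G × Set G) (fun s => F0 ⊆ s.1 ∧ s.2 ∈ U)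
    (fun j s s' => s.1 ⊆ s'.1 ∧ s'.2 ⊆ s.2 ∧ (s'.1 : Set G) ⊆ ↑s.1 ∪ s'.2 ∧
      (∃ x, x ∉ Wd (↑s.1 ∪ s'.2) j) ∧ g j ∈ Subgroup.closure (s'.1 : Set G) ∧
      s.1.card < s'.1.card) (F0, Set.univ) ⟨subset_rfl, univ_mem⟩ (by
      rintro j ⟨Z, A⟩ ⟨hZ, hA⟩
      dsimp only at hZ hA ⊢
      obtain ⟨A1, hA1, x, hx⟩ := hc Z j
      have hA' : A ∩ A1 ∈ U := inter_mem hA hA1
      obtain ⟨T, hT, hgT⟩ := closure_fin (show g j ∈ Subgroup.closure (↑F0 ∪ (A ∩ A1)) by
        rw [h2 _ hA']; trivial)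
      obtain ⟨y, hy1, hy2⟩ := ((h1 Z).and hA').exists
      refine ⟨(insert y (Z ∪ T), A ∩ A1), ⟨fun z hz => by simp [hZ hz], hA'⟩,
        fun z hz => by simp [hz], Set.inter_subset_left, ?_, ⟨x, fun h => hx (Wd_mono
          (Set.union_subset_union_right _ Set.inter_subset_right) le_rfl h)⟩,
        Subgroup.closure_mono (fun z hz => by simp [hz]) hgT,
        Finset.card_lt_card ⟨fun z hz => by simp [hz], fun h => hy1 (h (by simp))⟩⟩
      intro z hz
      simp only [Finset.coe_insert, Finset.coe_union, Set.mem_insert_iff, Set.mem_union,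
        Finset.mem_coe] at hz
      rcases hz with rfl | hz | hz
      · exact Or.inr hy2
      · exact Or.inl hz
      · rcases hT hz with h | h
        · exact Or.inl (hZ h)
        · exact Or.inr h)
  obtain ⟨c1, c2, -⟩ := chain_lim g hg (fun j => (u j).1) (fun j => (hu j).2.1)
    (fun j => (hu j).2.2.2.2.2.2) (fun j => (hu j).2.2.2.2.2.1)
  have hmono : Monotone fun j => (u j).1 := monotone_nat_of_le_succ fun j => (hu j).2.1
  have hanti : Antitone fun j => (u j).2 := antitone_nat_of_succ_le fun j => (hu j).2.2.1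
  obtain ⟨n, hn⟩ := H _ c1 c2
  obtain ⟨x, hx⟩ := (hu n).2.2.2.2.1
  have hl : ∀ k, ((u (n + k)).1 : Set G) ⊆ ↑(u n).1 ∪ (u (n + 1)).2 := by
    intro k
    induction k with
    | zero => exact Set.subset_union_left
    | succ k ih =>
      intro z hz
      rcases (hu (n + k)).2.2.2.1 hz with h | h
      · exact ih h
      · exact Or.inr (hanti (show n + 1 ≤ n + k + 1 by omega) h)
  refine hx (Wd_mono ?_ le_rfl (hn x))
  intro z hz
  obtain ⟨i, hi⟩ := Set.mem_iUnion.1 hz
  exact hl i (hmono (Nat.le_add_left i n) hi)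

lemma exists_W (U : Ultrafilter G) (F : Finset G) (n : ℕ)
    (h : ∀ A ∈ U, ∀ x, x ∈ Wd (↑F ∪ A) n) (a : G) : ∃ W : Ultrafilter (List G),
      (∀ A ∈ U, ∀ᶠ xs in (W : Filter (List G)), ∀ x ∈ xs, x ∈ A) ∧
      (∀ᶠ xs in (W : Filter (List G)), xs.length = n) ∧
      ∀ᶠ xs in (W : Filter (List G)), a ∈ Subgroup.closure (↑F ∪ {x | x ∈ xs}) := by
  classical
  let E : Set G → Set (List G) := fun A => {xs | (∀ x ∈ xs, x ∈ A) ∧ xs.length = n ∧
    a ∈ Subgroup.closure (↑F ∪ {x | x ∈ xs})}
  have hE : Monotone E := fun A B hAB xs hx => ⟨fun x h => hAB (hx.1 x h), hx.2⟩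
  have : NeBot ((U : Filter G).lift' E) := by
    rw [lift'_neBot_iff hE]
    intro A hA
    obtain ⟨T, hT, hc, ha⟩ := Wd_fin (h A hA a)
    obtain ⟨y, hy⟩ := Filter.nonempty_of_mem hA
    have hc' : (T \ F).card ≤ n := (Finset.card_le_card Finset.sdiff_subset).trans hc
    refine ⟨(T \ F).toList ++ List.replicate (n - (T \ F).card) y, ?_, ?_, ?_⟩
    · intro x hx
      rcases List.mem_append.1 hx with hx | hx
      · rw [Finset.mem_toList, Finset.mem_sdiff] at hx
        exact (hT hx.1).resolve_left hx.2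
      · rw [List.eq_of_mem_replicate hx]; exact hy
    · simp only [List.length_append, Finset.length_toList, List.length_replicate]; omega
    · refine Subgroup.closure_mono ?_ (Wd_closure ha)
      intro x hx
      by_cases e : x ∈ F
      · exact Or.inl e
      · exact Or.inr (List.mem_append_left _ (by simpa [e] using hx))
  refine ⟨Ultrafilter.of ((U : Filter G).lift' E), fun A hA => ?_, ?_, ?_⟩
  · filter_upwards [Ultrafilter.of_le _ (mem_lift' (h := E) hA)] with xs hx using hx.1
  · filter_upwards [Ultrafilter.of_le _ (mem_lift' (h := E) (t := Set.univ) univ_mem)] with xs hx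
      using hx.2.1
  · filter_upwards [Ultrafilter.of_le _ (mem_lift' (h := E) (t := Set.univ) univ_mem)] with xs hx
      using hx.2.2

variable [DecidableEq G]

lemma star_gen {F : Finset G} {t : G → Filter (Finset G)}
    (h : ∀ x, ∀ᶠ B in t x, x ∈ Subgroup.closure ((F ∪ B : Finset G) : Set G)) :
    ∀ xs : List G, ∀ᶠ B in star t xs, ∀ x ∈ xs, x ∈ Subgroup.closure ((F ∪ B : Finset G) : Set G)
  | [] => by simp
  | x :: xs => by
    refine ev_mulF.2 ?_
    filter_upwards [h x] with B hB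
    filter_upwards [star_gen h xs] with C hC y hy
    rcases List.mem_cons.1 hy with rfl | hy
    · exact Subgroup.closure_mono (Finset.coe_subset.2 (Finset.union_subset_union_right
        Finset.subset_union_left)) hB
    · exact Subgroup.closure_mono (Finset.coe_subset.2 (Finset.union_subset_union_right
        Finset.subset_union_right)) (hC y hy)

lemma tree_gen {F : Finset G} {W : G → Ultrafilter (List G)}
    (h : ∀ a, ∀ᶠ xs in (W a : Filter (List G)), a ∈ Subgroup.closure (↑F ∪ {x | x ∈ xs})) :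
    ∀ d a, ∀ᶠ B in tree W d a, a ∈ Subgroup.closure ((F ∪ B : Finset G) : Set G)
  | 0, a => by
    simp only [tree, eventually_pure]
    exact Subgroup.subset_closure (by simp)
  | d + 1, a => by
    refine eventually_bind.2 ?_
    filter_upwards [h a] with xs hx
    filter_upwards [star_gen (tree_gen h d) xs] with B hB
    refine (Subgroup.closure_le _).2 ?_ hx
    rintro x (hx | hx)
    · exact Subgroup.subset_closure (by simp [hx])
    · exact hB x hx

def Safe (Θ : Filter (Finset G)) (c : G) (m : ℕ) (Z : Finset G) : Prop :=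
  ∀ Z' ⊆ Z, ∀ r, Z'.card + r ≤ m → ∀ᶠ L in Xi Θ r, L.card ≤ r * m → c ∉ Wd ↑(Z' ∪ L) m

lemma safe_step {Θ V : Filter (Finset G)} {c : G} {m : ℕ} {Z : Finset G} (h : Safe Θ c m Z)
    (hc : Ctrl m Θ V) : ∀ᶠ B in V, Safe Θ c m (Z ∪ B) := by
  have : ∀ᶠ B in V, ∀ Z' ∈ Z.powerset, ∀ r ∈ Finset.range m, Z'.card + (r + 1) ≤ m →
      ∀ T ⊆ B, T.card ≤ m → ∀ᶠ L in Xi Θ r,
        (T ∪ L).card ≤ (r + 1) * m → c ∉ Wd ↑(Z' ∪ (T ∪ L)) m := by
    rw [eventually_all_finset]
    intro Z' hZ'
    rw [eventually_all_finset]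
    intro r _
    by_cases e : Z'.card + (r + 1) ≤ m
    · filter_upwards [hc _ (ev_mulF.1 (h Z' (Finset.mem_powerset.1 hZ') (r + 1) e))] with B hB _
      exact hB
    · exact Eventually.of_forall fun _ h => absurd h e
  filter_upwards [this] with B hB Z'' hZ r hr
  by_cases e : Z'' ⊆ Z
  · exact h Z'' e r hr
  have l1 : (Z'' ∩ Z).card < Z''.card := Finset.card_lt_card
    ⟨Finset.inter_subset_left, fun hh => e (hh.trans Finset.inter_subset_right)⟩
  have l2 : (Z'' \ Z).card ≤ m := (Finset.card_le_card Finset.sdiff_subset).trans (by omega)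
  filter_upwards [hB (Z'' ∩ Z) (Finset.mem_powerset.2 Finset.inter_subset_right) r
    (Finset.mem_range.2 (by omega)) (by omega) (Z'' \ Z) (fun x hx => by
      rw [Finset.mem_sdiff] at hx
      exact (Finset.mem_union.1 (hZ hx.1)).resolve_left hx.2) l2] with L hL hLc
  have := hL ((Finset.card_union_le _ _).trans (by rw [Nat.succ_mul]; omega))
  rwa [← Finset.union_assoc, Finset.union_comm (Z'' ∩ Z), Finset.sdiff_union_inter] at this

lemma safe_exists [Infinite G] {Θ : Filter (Finset G)}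
    (h : Nar (fun _ : Unit => True) (fun _ => Θ)) (m : ℕ) (Z : Finset G) :
    ∃ c, Safe Θ c m Z := by
  have : (⋃ Z' ∈ Z.powerset, ⋃ r ∈ Finset.range (m + 1),
      {c | ¬ ∀ᶠ L in Xi Θ r, c ∉ {c | L.card ≤ r * m ∧ c ∈ Wd ((Z' ∪ L : Finset G) : Set G) m}}).Finite := by
    refine Set.Finite.biUnion (Finset.finite_toSet _) fun Z' _ =>
      Set.Finite.biUnion (Finset.finite_toSet _) fun r _ => ?_
    obtain ⟨s, hs⟩ := Wd_card (G := G) (Z'.card + r * m) m
    refine bad_finite (nar_Xi h r) _ s fun L => ?_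
    by_cases e : L.card ≤ r * m
    · obtain ⟨R, h1, h2⟩ := hs (Z' ∪ L) ((Finset.card_union_le _ _).trans (by omega))
      exact ⟨R, h1, fun c hc => h2 hc.2⟩
    · exact ⟨∅, by simp, fun c hc => absurd hc.1 e⟩
  obtain ⟨c, hc⟩ := this.exists_notMem
  refine ⟨c, fun Z' hZ' r hr => ?_⟩
  simp only [Set.mem_iUnion, not_exists, Set.mem_ofPred_eq, not_not] at hc
  filter_upwards [hc Z' (Finset.mem_powerset.2 hZ') r (Finset.mem_range.2 (by omega))]
    with L hL h1 h2
  exact hL ⟨h1, h2⟩

lemma caseA [Infinite G] (g : ℕ → G) (hg : Function.Surjective g) (F0 : Finset G)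
    (hA : ∀ M : Subgroup G, M ≠ ⊤ → (F0 : Set G) ⊆ M → ¬ M.FiniteIndex) : ¬ AllFast G := by
  intro H
  have : Inhabited G := ⟨1⟩
  obtain ⟨U, hU⟩ := exists_U (G := G)
  have h1 : ∀ Z : Finset G, ∀ᶠ x in (U : Filter G), x ∉ Z := by
    intro Z
    have : ∀ᶠ x in (U : Filter G), ∀ z ∈ Z, x ≠ z := by
      rw [eventually_all_finset]
      intro z _
      have := hU ⊥ z (fun h => by
        have := h.index_ne_zero
        simp at this)
      filter_upwards [this] with x hx
      rintro rfl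
      exact hx (by simp)
    filter_upwards [this] with x hx hz using hx x hz rfl
  have h2 : ∀ A ∈ U, Subgroup.closure (↑F0 ∪ A) = ⊤ := by
    intro A hAU
    by_contra hne
    have := hU _ 1 (hA _ hne (Set.subset_union_left.trans Subgroup.subset_closure))
    obtain ⟨x, hx1, hx2⟩ := Filter.nonempty_of_mem (inter_mem hAU this)
    rw [one_smul] at hx2
    exact hx2 (Subgroup.subset_closure (Or.inr hx1))
  obtain ⟨F, n, hF⟩ := step1 g hg H U F0 h1 h2
  choose W w1 w2 w3 using exists_W U F n hF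
  have w2' : ∀ a, ∀ᶠ xs in (W a : Filter (List G)), xs.length = (List.replicate n (1 : G)).length :=
    by simpa using w2
  set Θ := TT U W (List.replicate n (1 : G)) with hΘ
  obtain ⟨u, hu⟩ := dc (σ := Finset G × Finset (G × ℕ))
    (fun s => F ⊆ s.1 ∧ ∀ p ∈ s.2, Safe (Θ p.2) p.1 p.2 s.1)
    (fun j s s' => s.1 ⊆ s'.1 ∧ s.2 ⊆ s'.2 ∧ (∃ c, (c, j) ∈ s'.2) ∧
      g j ∈ Subgroup.closure (s'.1 : Set G) ∧ s.1.card < s'.1.card)
    (F, ∅) ⟨subset_rfl, by simp⟩ (by
      rintro j ⟨Z, C⟩ ⟨hZ, hC⟩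
      dsimp only at hZ hC ⊢
      obtain ⟨c, hc⟩ := safe_exists (nar_TT (U := U) _ w2' j) j Z
      have hC' : ∀ p ∈ insert (c, j) C, Safe (Θ p.2) p.1 p.2 Z := by
        intro p hp
        rcases Finset.mem_insert.1 hp with rfl | hp
        exacts [hc, hC p hp]
      let d := (insert (c, j) C).sup Prod.snd
      have := tree_neBot (W := W) d (g j)
      have e1 : ∀ᶠ B in tree W d (g j), ∀ p ∈ insert (c, j) C, Safe (Θ p.2) p.1 p.2 (Z ∪ B) := by
        rw [eventually_all_finset]
        intro p hp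
        exact safe_step (hC' p hp) (ctrl_TT w1 _ w2' _ _ _ (Finset.le_sup (f := Prod.snd) hp))
      obtain ⟨B, hB1, hB2⟩ := (e1.and (tree_gen w3 d (g j))).exists
      have e2 : ∀ᶠ B' in map (fun x => ({x} : Finset G)) U, ∀ p ∈ insert (c, j) C,
          Safe (Θ p.2) p.1 p.2 (Z ∪ B ∪ B') := by
        rw [eventually_all_finset]
        intro p hp
        exact safe_step (hB1 p hp) (ctrl_single _ _)
      obtain ⟨y, hy1, hy2⟩ := ((eventually_map.1 e2).and (h1 Z)).exists
      refine ⟨(Z ∪ B ∪ {y}, insert (c, j) C), ⟨fun z hz => by simp [hZ hz], hy1⟩,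
        fun z hz => by simp [hz], Finset.subset_insert _ _, ⟨c, by simp⟩,
        Subgroup.closure_mono (Finset.coe_subset.2 ?_) hB2,
        Finset.card_lt_card ⟨fun z hz => by simp [hz], fun h => hy2 (h (by simp))⟩⟩
      exact (Finset.union_subset_union_left hZ).trans Finset.subset_union_left)
  obtain ⟨c1, c2, c3⟩ := chain_lim g hg (fun j => (u j).1) (fun j => (hu j).2.1)
    (fun j => (hu j).2.2.2.2.2) (fun j => (hu j).2.2.2.2.1)
  have hmono : Monotone fun j => (u j).2 := monotone_nat_of_le_succ fun j => (hu j).2.2.1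
  obtain ⟨m, hm⟩ := H _ c1 c2
  obtain ⟨c, hc⟩ := (hu m).2.2.2.1
  obtain ⟨T, hT, hTc, hcT⟩ := Wd_fin (hm c)
  obtain ⟨j, hj, hTj⟩ := c3 T hT (m + 1)
  have := (hu j).1.2 _ (hmono hj hc) T hTj 0 (by simpa using hTc)
  simp only [Xi, eventually_pure, Finset.card_empty, Finset.union_empty] at this
  exact this (Nat.zero_le _) hcT

end grp

/-- The negation of the preceding statement: There is a countably infinite group in which every infinite generating set X is fast: for some n, every element is a product of at most n elements of X or their inverses. -/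
theorem result :
    ¬ (∃ (G : Type) (_ : Group G), Countable G ∧ Infinite G ∧
      ∀ X : Set G, Subgroup.closure X = ⊤ → X.Infinite →
        ∃ n : ℕ, ∀ g : G, ∃ l : List G,
          l.length ≤ n ∧ (∀ x ∈ l, x ∈ X ∨ x⁻¹ ∈ X) ∧ l.prod = g) := by
  rintro ⟨G, _, _, _, H⟩
  classical
  obtain ⟨g, hg⟩ := exists_surjective_nat G
  by_cases hB : ∀ F : Finset G, ∃ M : Subgroup G, M ≠ ⊤ ∧ M.FiniteIndex ∧ (F : Set G) ⊆ M
  · exact caseB g hg hB H
  · push Not at hB
    obtain ⟨F, hF⟩ := hB
    exact caseA g hg F (fun M h1 h2 h3 => hF M h1 h3 h2) H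

end Pool.Agent.S01222
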