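import Pool.Statements.S01235
import Pool.Agent.Lib.helper24.LogConn

set_option autoImplicit false
open Polynomial
open Pool Pool.MP_3bbc5b_al

namespace Pool.Agent.S01235

open Pool.Agent.LogConn

theorem not_one (r0 r1 r2 u0 u1 : ℂ) (h : ∀ n : ℕ, n * r2 + u1 ≠ 0) :
    1 ∉ LinearMap.range (Top (C r0 + C r1 * X + C r2 * X ^ 2) (C u0 + C u1 * X)) := by
  rintro ⟨p, hp⟩
  have hp0 : p ≠ 0 := by rintro rfl; simp at hp
  have e : Top (C r0 + C r1 * X + C r2 * X ^ 2) (C u0 + C u1 * X) p =
      C r0 * derivative p + C r1 * (X * derivative p) + C r2 * (X * (X * derivative p)) +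
        C u0 * p + C u1 * (X * p) := by rw [Top_apply]; ring
  have h1 := congrArg (fun q : ℂ[X] => q.coeff (p.natDegree + 1)) (e.symm.trans hp)
  have h2 : (X * derivative p).coeff p.natDegree = p.natDegree * p.coeff p.natDegree := by
    generalize p.natDegree = n
    rcases n with _ | n
    · simp
    · rw [coeff_X_mul, coeff_derivative]; push_cast; ring
  simp only [coeff_add, coeff_C_mul, coeff_X_mul, coeff_derivative, h2, coeff_one] at h1
  rw [coeff_eq_zero_of_natDegree_lt (p := p) (n := p.natDegree + 1 + 1) (by omega),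
    coeff_eq_zero_of_natDegree_lt (p := p) (n := p.natDegree + 1) (by omega), if_neg (by omega)]
    at h1
  apply mul_ne_zero (h p.natDegree) (leadingCoeff_ne_zero.2 hp0)
  rw [leadingCoeff]
  linear_combination h1

theorem surj (r0 r1 u0 : ℂ) (h : ∀ n : ℕ, n * r1 + u0 ≠ 0) (p : ℂ[X]) :
    p ∈ LinearMap.range (Top (C r0 + C r1 * X) (C u0)) := by
  have key : ∀ n : ℕ, (X ^ n : ℂ[X]) ∈ LinearMap.range (Top (C r0 + C r1 * X) (C u0)) := by
    intro n
    induction n with
    | zero =>
      refine ⟨C u0⁻¹, ?_⟩
      have := h 0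
      simp only [Nat.cast_zero, zero_mul, zero_add] at this
      rw [Top_apply, derivative_C, mul_zero, zero_add, ← map_mul, mul_inv_cancel₀ this, map_one,
        pow_zero]
    | succ n ih =>
      have e : (((n + 1 : ℕ) : ℂ) * r1 + u0) • (X ^ (n + 1) : ℂ[X]) =
          Top (C r0 + C r1 * X) (C u0) (X ^ (n + 1)) - (r0 * (n + 1 : ℕ)) • X ^ n := by
        rw [Top_apply, derivative_X_pow, smul_eq_C_mul, smul_eq_C_mul, Nat.add_sub_cancel]
        simp only [map_add, map_mul]
        ring
      have := Submodule.smul_mem _ (((n + 1 : ℕ) : ℂ) * r1 + u0)⁻¹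
        (e ▸ sub_mem (LinearMap.mem_range_self _ _) (Submodule.smul_mem _ _ ih))
      rwa [smul_smul, inv_mul_cancel₀ (h _), one_smul] at this
  induction p using Polynomial.induction_on' with
  | add p q hp hq => exact add_mem hp hq
  | monomial n a =>
    rw [← C_mul_X_pow_eq_monomial, ← smul_eq_C_mul a]
    exact Submodule.smul_mem _ _ (key n)

theorem pos_ne (n : ℕ) {α : ℝ} (h : -1 < α) : (n : ℂ) + (α + 1) ≠ 0 := by
  have : (0 : ℝ) < n + (α + 1) := by
    have : (0 : ℝ) ≤ n := Nat.cast_nonneg n
    linarith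
  exact_mod_cast this.ne'

/-- For the Hermite, Laguerre and Jacobi operators (α, β > −1), the polynomials lying in the image of ℂ[t] form a Mathieu subspace: if every power a^m (m ≥ 1) is in it, then b·a^m is in it for all large m, for every polynomial b. -/
theorem result :
    (∀ a b : Polynomial ℂ,
      (∀ m : ℕ, 1 ≤ m → ∃ f : Polynomial ℂ, a ^ m = derivative f - 2 * X * f) →
      ∃ N : ℕ, ∀ m : ℕ, N ≤ m → ∃ f : Polynomial ℂ, b * a ^ m = derivative f - 2 * X * f) ∧
    (∀ α : ℝ, -1 < α → ∀ a b : Polynomial ℂ,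
      (∀ m : ℕ, 1 ≤ m → ∃ f : Polynomial ℂ,
        X * a ^ m = X * derivative f + (C (α : ℂ) - X) * f) →
      ∃ N : ℕ, ∀ m : ℕ, N ≤ m → ∃ f : Polynomial ℂ,
        X * (b * a ^ m) = X * derivative f + (C (α : ℂ) - X) * f) ∧
    (∀ α β : ℝ, -1 < α → -1 < β → ∀ a b : Polynomial ℂ,
      (∀ m : ℕ, 1 ≤ m → ∃ f : Polynomial ℂ,
        (1 - X ^ 2) * a ^ m = (1 - X ^ 2) * derivative f - C (α : ℂ) * (1 + X) * f
          + C (β : ℂ) * (1 - X) * f) →
      ∃ N : ℕ, ∀ m : ℕ, N ≤ m → ∃ f : Polynomial ℂ,
        (1 - X ^ 2) * (b * a ^ m) = (1 - X ^ 2) * derivative f - C (α : ℂ) * (1 + X) * f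
          + C (β : ℂ) * (1 - X) * f) := by
  refine ⟨?_, ?_, ?_⟩
  · intro a b hyp
    have ha : a = 0 := by
      by_contra ha
      refine not_one 1 0 0 0 (-2) (by simp) (main _ _ a (by simp) (by simp) ha ?_)
      intro m hm
      obtain ⟨f, hf⟩ := hyp m hm
      refine ⟨f, ?_⟩
      rw [Top_apply, hf]
      simp only [map_one, map_zero, map_neg, map_ofNat]
      ring
    exact ⟨1, fun m hm => ⟨0, by simp [ha, show m ≠ 0 by omega]⟩⟩
  · intro α hα a b hyp
    by_cases h0 : α = 0
    · refine ⟨0, fun m _ => ?_⟩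
      obtain ⟨f, hf⟩ := surj 1 0 (-1) (by simp) (b * a ^ m)
      refine ⟨f, ?_⟩
      rw [← hf, Top_apply, h0]
      simp only [map_one, map_zero, map_neg, Complex.ofReal_zero]
      ring
    have ha : a = 0 := by
      by_contra ha
      refine not_one 0 1 0 (α + 1) (-1) (by simp) (main _ _ a (by simp) ?_ ha ?_)
      · intro σ hσ
        have : σ = 0 := by simpa using hσ
        subst this
        exact ⟨1, by simp, by simp, fun i => by simpa using pos_ne i hα⟩
      · intro m hm
        obtain ⟨f, hf⟩ := hyp m hm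
        have h1 := congrArg (eval 0) hf
        have h2 : f.eval 0 = 0 := by simpa [h0] using h1
        obtain ⟨h, rfl⟩ := X_dvd_iff.2 ((coeff_zero_eq_eval_zero f).trans h2)
        refine ⟨h, mul_left_cancel₀ X_ne_zero ?_⟩
        rw [Top_apply, hf, derivative_mul, derivative_X]
        simp only [map_one, map_zero, map_neg, map_add]
        ring
    exact ⟨1, fun m hm => ⟨0, by simp [ha, show m ≠ 0 by omega]⟩⟩
  · intro α β hα hβ a b hyp
    by_cases h0 : α = 0
    · refine ⟨0, fun m _ => ?_⟩
      obtain ⟨f, hf⟩ := surj 1 1 (β + 1) (fun n => by simpa using pos_ne n hβ) (b * a ^ m)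
      refine ⟨(1 + X) * f, ?_⟩
      rw [← hf, Top_apply, h0, derivative_mul]
      simp only [map_one, map_zero, map_add, Complex.ofReal_zero, derivative_one, derivative_X]
      ring
    by_cases h1 : β = 0
    · refine ⟨0, fun m _ => ?_⟩
      obtain ⟨f, hf⟩ := surj 1 (-1) (-(α + 1))
        (fun n h => pos_ne n hα (by linear_combination -h)) (b * a ^ m)
      refine ⟨(1 - X) * f, ?_⟩
      rw [← hf, Top_apply, h1, derivative_mul, derivative_sub, derivative_one, derivative_X]
      simp only [map_one, map_zero, map_add, map_neg, Complex.ofReal_zero]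
      ring
    have hne : (1 - X ^ 2 : ℂ[X]) ≠ 0 := fun h => by simpa using congrArg (eval 0) h
    have ha : a = 0 := by
      by_contra ha
      refine not_one 1 0 (-1) (β - α) (-(α + β + 2)) (fun n h => ?_)
        (main _ _ a (fun h => by simpa using congrArg (eval 0) h) ?_ ha ?_)
      · have : (0 : ℝ) < n + (α + β + 2) := by
          have : (0 : ℝ) ≤ n := Nat.cast_nonneg n
          linarith
        apply this.ne'
        have h' : (n : ℂ) + (α + β + 2) = 0 := by linear_combination -h
        exact_mod_cast h'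
      · intro σ hσ
        have h2 : (σ - 1) * (σ + 1) = 0 := by
          have : 1 + -σ ^ 2 = 0 := by simpa using hσ
          linear_combination -this
        rcases mul_eq_zero.1 h2 with h3 | h3
        · obtain rfl : σ = 1 := by linear_combination h3
          refine ⟨-(X + 1), by simp only [map_one, map_zero, map_neg]; ring, by norm_num,
            fun i h => pos_ne i hα ?_⟩
          simp only [eval_add, eval_mul, eval_neg, eval_X, eval_C, eval_one] at h
          linear_combination (-1 / 2 : ℂ) * h
        · obtain rfl : σ = -1 := by linear_combination h3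
          refine ⟨1 - X, by simp only [map_one, map_zero, map_neg]; ring, by norm_num,
            fun i h => pos_ne i hβ ?_⟩
          simp only [eval_add, eval_mul, eval_sub, eval_X, eval_C, eval_one] at h
          linear_combination (1 / 2 : ℂ) * h
      · intro m hm
        obtain ⟨f, hf⟩ := hyp m hm
        have e1 : f.eval 1 = 0 := by
          have := congrArg (eval 1) hf
          simpa [h0] using this
        obtain ⟨f1, rfl⟩ := dvd_iff_isRoot.2 e1
        have e2 : f1.eval (-1) = 0 := by
          have := congrArg (eval (-1)) hf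
          simp only [eval_add, eval_mul, eval_sub, eval_X, eval_C, eval_one, eval_pow] at this
          have h5 : (β : ℂ) ≠ 0 := by exact_mod_cast h1
          apply mul_left_cancel₀ h5
          linear_combination (1 / 4 : ℂ) * this
        obtain ⟨h, rfl⟩ := dvd_iff_isRoot.2 e2
        refine ⟨-h, mul_left_cancel₀ hne ?_⟩
        rw [Top_apply, hf]
        simp only [map_one, map_zero, map_neg, map_add, map_sub, map_ofNat, derivative_mul,
          derivative_one, derivative_X]
        ring
    exact ⟨1, fun m hm => ⟨0, by simp [ha, show m ≠ 0 by omega]⟩⟩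

end Pool.Agent.S01235
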