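import Pool.Statements.S01258

set_option autoImplicit false
open Pool Pool.MP_3dd297_al

namespace Pool.Agent.S01258

abbrev W := Lex (ℕ →₀ ℤ)

lemma lt_iff {a b : W} : a < b ↔ ∃ i, (∀ j < i, ofLex a j = ofLex b j) ∧ ofLex a i < ofLex b i :=
  Finsupp.Lex.lt_iff

noncomputable def u (i : ℕ) (n : ℤ) : W := toLex (Finsupp.single i n)

instance : Countable W := inferInstanceAs (Countable (ℕ →₀ ℤ))

lemma upos (i : ℕ) : 0 < u i 1 := lt_iff.2 ⟨i, fun j h => by simp [u, h.ne], by simp [u]⟩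

instance : Nontrivial W := ⟨⟨_, _, (upos 0).ne⟩⟩

instance : DenselyOrdered W := ⟨fun a b h => by
  obtain ⟨i, h1, h2⟩ := lt_iff.1 h
  exact ⟨a + u (i + 1) 1, lt_add_of_pos_right _ (upos _), lt_iff.2 ⟨i, fun j h => by
    simpa [u, show j ≠ i + 1 by omega] using h1 j h, by simpa [u] using h2⟩⟩⟩

lemma mono : Monotone fun a : W => ofLex a 0 := fun a b h => by
  rcases h.eq_or_lt with rfl | h
  · rfl
  obtain ⟨_ | i, h1, h2⟩ := lt_iff.1 h
  exacts [h2.le, (h1 0 i.succ_pos).le]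

open Order Order.PartialIso in
lemma ext (p : PartialIso W W) : ∃ e : W ≃o W, ∀ q ∈ p.1, e q.1 = q.2 := by
  cases nonempty_encodable W
  let c : W ⊕ W → Cofinal (PartialIso W W) := fun p ↦ Sum.recOn p (definedAtLeft W) (definedAtRight W)
  let I : Ideal (PartialIso W W) := idealOfCofinals p c
  let F a := funOfIdeal a I (cofinal_meets_idealOfCofinals _ c (Sum.inl a))
  let G b := invOfIdeal b I (cofinal_meets_idealOfCofinals _ c (Sum.inr b))
  refine ⟨OrderIso.ofCmpEqCmp (fun a ↦ (F a).val) (fun b ↦ (G b).val) fun a b ↦ ?_, fun q hq => ?_⟩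
  · rcases (F a).prop with ⟨f, hf, ha⟩
    rcases (G b).prop with ⟨g, hg, hb⟩
    rcases I.directed _ hf _ hg with ⟨m, _, fm, gm⟩
    exact m.prop (a, _) (fm ha) (_, b) (gm hb)
  · rcases (F q.1).prop with ⟨f, hf, ha⟩
    rcases I.directed _ hf _ (mem_idealOfCofinals p c) with ⟨m, _, fm, gm⟩
    have := m.prop _ (fm ha) _ (gm hq)
    rwa [cmp_self_eq_eq, eq_comm, cmp_eq_eq_iff] at this

lemma fn (D : Finset W) (j : ℕ) : ∃ L : W →+ ℤ, (∀ v : W, (∀ i < j, ofLex v i = 0) → L v = 0) ∧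
    ∀ s ∈ D, 0 < s → (∃ i < j, ofLex s i ≠ 0) → 0 < L s := by
  induction j with
  | zero => exact ⟨0, by simp, by simp⟩
  | succ j ih =>
    obtain ⟨L, h1, h2⟩ := ih
    obtain ⟨N, hN⟩ := (D.image fun s : W => -ofLex s j).bddAbove
    refine ⟨(|N| + 1) • L + (show W →+ ℤ from Finsupp.applyAddHom j), fun v hv => ?_, fun s hs h ⟨k, k1, k2⟩ => ?_⟩
    · show (|N| + 1) * L v + ofLex v j = 0
      rw [h1 v fun i hi => hv i (by omega), hv j (by omega)]; simp
    · show 0 < (|N| + 1) * L s + ofLex s j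
      by_cases e : ∃ i < j, ofLex s i ≠ 0
      · have := h2 s hs h e
        have := hN (Finset.mem_image_of_mem _ hs)
        have := le_abs_self N
        nlinarith [abs_nonneg N]
      · push Not at e
        obtain ⟨i, i1, i2⟩ := lt_iff.1 h
        obtain rfl : k = j := by by_contra c; exact k2 (e k (by omega))
        obtain rfl : i = k := by
          rcases lt_trichotomy i k with c | c | c
          exacts [absurd (e i c) i2.ne', c, absurd (i1 k c).symm k2]
        rw [h1 s e]; simpa using i2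

lemma tau (B : Finset W) : ∃ τ : W ≃+ W, ∀ a ∈ B, ∀ b ∈ B, a < b → 0 < ofLex (τ (b - a)) 0 := by
  classical
  let D := (B ×ˢ B).image fun p => p.2 - p.1
  obtain ⟨m, hm⟩ := (D.biUnion fun s => (ofLex s).support).bddAbove
  obtain ⟨L, h1, h2⟩ := fn D (m + 1)
  have z : ∀ n, L (u (m + 1) n) = 0 := fun n => h1 _ fun i hi => by simp [u, hi.ne]
  let T : W ≃+ W :=
    { toFun v := v + u (m + 1) (L v)
      invFun v := v - u (m + 1) (L v)
      left_inv v := by simp [z]
      right_inv v := by simp [z]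
      map_add' a b := by simp [u, Finsupp.single_add, add_add_add_comm] }
  refine ⟨T.trans (Finsupp.domCongr (Equiv.swap 0 (m + 1)) : (ℕ →₀ ℤ) ≃+ (ℕ →₀ ℤ)), fun a ha b hb h => ?_⟩
  have d : b - a ∈ D := Finset.mem_image.2 ⟨(a, b), Finset.mem_product.2 ⟨ha, hb⟩, rfl⟩
  have k : ∀ i, ofLex (b - a) i ≠ 0 → i < m + 1 := fun i hi =>
    Nat.lt_succ_of_le (hm (Finset.mem_biUnion.2 ⟨_, d, Finsupp.mem_support_iff.2 hi⟩))
  obtain ⟨i, -, i2⟩ := lt_iff.1 (sub_pos.2 h)
  have := h2 _ d (sub_pos.2 h) ⟨i, k i i2.ne', i2.ne'⟩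
  show 0 < ofLex (b - a) (m + 1) + Finsupp.single (m + 1) (L (b - a)) (m + 1)
  rwa [not_not.1 fun e => lt_irrefl _ (k _ e), zero_add, Finsupp.single_eq_same]

structure X where
  θ : W ≃+ W
  f : W ≃o W
  h : f 0 = 0

def Ag (S : Finset W) (x y : X) : Prop := ∀ s ∈ S, (0 ≤ x.θ s ↔ 0 ≤ y.θ s) ∧
  y.θ.symm (y.f (y.θ s)) = x.θ.symm (x.f (x.θ s)) ∧ y.θ.symm (y.f.symm (y.θ s)) = x.θ.symm (x.f.symm (x.θ s))

lemma approx (x : X) (S : Finset W) (v : W) (hv : 0 < x.θ v) : ∃ y, Ag S x y ∧ 0 < ofLex (y.θ v) 0 := by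
  classical
  let A := insert 0 (insert (x.θ v) (S.image x.θ ∪ S.image fun s => x.f.symm (x.θ s)))
  obtain ⟨τ, h⟩ := tau (A ∪ A.image x.f)
  have m : StrictMonoOn τ (A ∪ A.image x.f : Finset W) := fun a ha b hb e =>
    sub_pos.1 (map_sub τ b a ▸ lt_iff.2 ⟨0, by simp, h a ha b hb e⟩)
  have l : ∀ {a}, a ∈ A → a ∈ A ∪ A.image x.f := Finset.mem_union_left _
  have r : ∀ {a}, a ∈ A → x.f a ∈ A ∪ A.image x.f := fun h =>
    Finset.mem_union_right _ (Finset.mem_image_of_mem _ h)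
  obtain ⟨e, he⟩ := ext ⟨A.image fun a => (τ a, τ (x.f a)), by
    simp only [Finset.forall_mem_image]
    intro a ha b hb
    rw [m.cmp_map_eq (l ha) (l hb), m.cmp_map_eq (r ha) (r hb), x.f.strictMono.cmp_map_eq]⟩
  have k : ∀ a ∈ A, e (τ a) = τ (x.f a) := fun a ha => he _ (Finset.mem_image_of_mem _ ha)
  have a0 : 0 ∈ A := Finset.mem_insert_self _ _
  refine ⟨⟨x.θ.trans τ, e, by simpa [x.h] using k 0 a0⟩, fun s hs => ?_,
    by simpa using h 0 (l a0) _ (l (by simp [A])) hv⟩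
  have a1 : x.θ s ∈ A := by simp [A, hs]
  have a2 : x.f.symm (x.θ s) ∈ A := by
    simp only [A, Finset.mem_insert, Finset.mem_union, Finset.mem_image]
    exact .inr (.inr (.inr ⟨s, hs, rfl⟩))
  refine ⟨by simpa using (m.le_iff_le (l a0) (l a1)).symm, by simp [k _ a1], ?_⟩
  have := k _ a2
  rw [x.f.apply_symm_apply] at this
  simp [← this]

def LC (g : X → W) : Prop := ∀ x, ∃ S, ∀ y, Ag S x y → y.θ.symm (g y) = x.θ.symm (g x)

lemma LC.two {g h : X → W} (a : LC g) (b : LC h) (x : X) (s : W) : ∃ S, s ∈ S ∧ ∀ y, Ag S x y →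
    g y = y.θ (x.θ.symm (g x)) ∧ h y = y.θ (x.θ.symm (h x)) := by
  classical
  obtain ⟨S, p⟩ := a x
  obtain ⟨T, q⟩ := b x
  exact ⟨insert s (S ∪ T), by simp, fun y hy => ⟨y.θ.symm_apply_eq.1 (p y fun s hs => hy s (by simp [hs])),
    y.θ.symm_apply_eq.1 (q y fun s hs => hy s (by simp [hs]))⟩⟩

def G : AddSubgroup (X → W) where
  carrier := {g | LC g}
  zero_mem' _ := ⟨∅, by simp⟩
  add_mem' a b x := (LC.two a b x 0).imp fun S h y hy => by simp [h.2 y hy]
  neg_mem' a x := (a x).imp fun S h y hy => by simp [h y hy]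

lemma sup_mem {g h : X → W} (a : g ∈ G) (b : h ∈ G) : g ⊔ h ∈ G := fun x =>
  (LC.two a b x (x.θ.symm (h x) - x.θ.symm (g x))).imp fun S k y hy => by
    have := (hy _ k.1).1
    obtain ⟨p, q⟩ := k.2 y hy
    simp only [map_sub, sub_nonneg, AddEquiv.apply_symm_apply, ← p, ← q] at this
    simp only [Pi.sup_apply, max_def, ← this]
    split_ifs <;> simp [p, q]

noncomputable def F : G ≃ G where
  toFun g := ⟨fun x => x.f (g.1 x), fun x => (LC.two g.2 g.2 x (x.θ.symm (g.1 x))).imp fun S k y hy => by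
    simpa [(k.2 y hy).1] using (hy _ k.1).2.1⟩
  invFun g := ⟨fun x => x.f.symm (g.1 x), fun x => (LC.two g.2 g.2 x (x.θ.symm (g.1 x))).imp fun S k y hy => by
    simpa [(k.2 y hy).1] using (hy _ k.1).2.2⟩
  left_inv g := by ext; simp
  right_inv g := by ext; simp

noncomputable def c (v : W) : G := ⟨fun x => x.θ v, fun _ => ⟨∅, by simp⟩⟩

/-- The negation of the preceding statement: Let an abelian lattice-ordered group be an ℓ-subgroup of a product of copies of ℤ, with every projection onto ℤ surjective. Then any group operation on the same lattice, with the same zero and order-compatible translations on both sides, equals the original addition. -/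
theorem result :
    ¬ (∀ (G : Type) [AddCommGroup G] [Lattice G] [IsOrderedAddMonoid G],
      (∃ (I : Type) (f : G →+ (I → ℤ)),
        Function.Injective f ∧
        (∀ x y : G, f (x ⊔ y) = f x ⊔ f y) ∧
        (∀ x y : G, f (x ⊓ y) = f x ⊓ f y) ∧
        (∀ i : I, Function.Surjective (fun x : G => f x i))) →
      ∀ op : G → G → G,
        (∀ a b c : G, op (op a b) c = op a (op b c)) →
        (∀ a : G, op 0 a = a ∧ op a 0 = a) →
        (∀ a : G, ∃ b : G, op a b = 0 ∧ op b a = 0) →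
        (∀ a b c : G, a ≤ b → op c a ≤ op c b ∧ op a c ≤ op b c) →
        ∀ x y : G, op x y = x + y) := by
  intro H
  let I : Lattice G := Subtype.lattice (fun _ _ => sup_mem) fun a b p q => by
    have := G.neg_mem (sup_mem (G.neg_mem p) (G.neg_mem q))
    rwa [neg_sup, neg_neg, neg_neg] at this
  have F0 : F 0 = 0 := Subtype.ext (funext fun x => x.h)
  have := @H G _ I { add_le_add_left := fun a b h c => add_le_add_left (show a.1 ≤ b.1 from h) c.1 }
    ⟨X, AddMonoidHom.mk' (fun g x => ofLex (g.1 x) 0) fun _ _ => rfl, (injective_iff_map_eq_zero _).2 ?_,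
      fun a b => funext fun x => mono.map_max, fun a b => funext fun x => mono.map_min,
      fun x n => ⟨c (x.θ.symm (u 0 n)), by simp [c, u]⟩⟩
    (fun a b => F.symm (F a + F b)) (by simp [add_assoc]) (by simp [F0])
    (fun a => ⟨F.symm (-F a), by simp [F.symm_apply_eq, F0]⟩)
    (fun a b c h => ⟨fun x => x.f.symm.monotone (add_le_add_right (x.f.monotone (h x)) _),
      fun x => x.f.symm.monotone (add_le_add_left (x.f.monotone (h x)) _)⟩) (c (u 0 1)) (c (u 0 1))
  · have p := upos 0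
    generalize u 0 1 = a at p this
    have p1 : a < a + a := lt_add_of_pos_right _ p
    have p2 : a < a + a + a := p1.trans (lt_add_of_pos_right _ p)
    obtain ⟨e, he⟩ := ext ⟨{(0, 0), (a, a), (a + a, a + a + a)}, by
      simp [(cmp_eq_lt_iff _ _).2 (p.trans p1), (cmp_eq_lt_iff _ _).2 (p.trans p2), (cmp_eq_lt_iff _ _).2 p1, (cmp_eq_lt_iff _ _).2 p2,
        (cmp_eq_gt_iff _ _).2 (p.trans p1), (cmp_eq_gt_iff _ _).2 (p.trans p2), (cmp_eq_gt_iff _ _).2 p1, (cmp_eq_gt_iff _ _).2 p2]⟩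
    have h : e.symm (e a + e a) = a + a :=
      congrFun (congrArg Subtype.val this) ⟨.refl _, e, he (0, 0) (by simp)⟩
    rw [e.symm_apply_eq, he (a, a) (by simp), he (a + a, a + a + a) (by simp)] at h
    exact p.ne' (by simpa using h)
  · have k : ∀ g : G, (∀ x, ofLex (g.1 x) 0 = 0) → ∀ x, g.1 x ≤ 0 := fun g h x => not_lt.1 fun e => by
      obtain ⟨S, -, hS⟩ := LC.two g.2 g.2 x 0
      obtain ⟨y, y1, y2⟩ := approx x S (x.θ.symm (g.1 x)) (by simpa using e)
      rw [← (hS y y1).1, h] at y2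
      exact lt_irrefl _ y2
    exact fun g h => Subtype.ext (funext fun x => (k g (congrFun h) x).antisymm
      (neg_nonpos.1 (k (-g) (fun y => neg_eq_zero.2 (congrFun h y)) x)))

end Pool.Agent.S01258
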