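import Pool.Statements.S01299
import Pool.Agent.Lib.helper24.ImgD

set_option autoImplicit false
open Pool Pool.MP_405479_al

namespace Pool.Agent.S01299

/-- For every commutative Q-algebra A, c in A, a in A[t]: if every power f^m (m≥1) lies in the image of h ↦ c·h' − a·h on A[t], then for every g, g·f^m lies in that image for all large m. -/
theorem result :
    ∀ (A : Type) [CommRing A] [Algebra ℚ A] (c : A) (a : Polynomial A) (f g : Polynomial A),
      (∀ m : ℕ, 1 ≤ m →
        ∃ h : Polynomial A, Polynomial.C c * Polynomial.derivative h - a * h = f ^ m) →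
      ∃ N : ℕ, ∀ m : ℕ, N ≤ m →
        ∃ h : Polynomial A, Polynomial.C c * Polynomial.derivative h - a * h = g * f ^ m := by
  intro A _ _ c a f g hyp
  obtain ⟨N, hN⟩ := Pool.Agent.Img.main c a f (fun m hm => by
    obtain ⟨h, hh⟩ := hyp m hm
    exact ⟨h, by rw [Pool.Agent.Img.Dop_apply, hh]⟩) g
  refine ⟨N, fun m hm => ?_⟩
  obtain ⟨h, hh⟩ := hN m hm
  exact ⟨h, by rw [← Pool.Agent.Img.Dop_apply, hh, one_mul]⟩

end Pool.Agent.S01299
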