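import Pool.Statements.S01402
import Pool.Agent.Lib.helper24.RelGrowthC

set_option autoImplicit false
open Pool Pool.MP_4c94d3_al

namespace Pool.Agent.S01402

open Pool.Agent.Lib.helper24.RelGrowth

/-- The negation of the preceding statement: If H is a nontrivial subgroup of G and H together with some t generates a copy of the free product H*ℕ inside G, then for every finite generating set of G, the relative growth rate of H is strictly less than the growth rate of G. -/
theorem result :
    ¬ (∀ (G : Type) [Group G] (H : Subgroup G), H ≠ ⊥ →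
      (∃ f : Monoid.Coprod (↥H) (Multiplicative ℕ) →* G,
          Function.Injective f ∧ f.comp Monoid.Coprod.inl = H.subtype) →
      ∀ S : Finset G, Subgroup.closure (S : Set G) = ⊤ →
        Filter.limsup
            (fun n : ℕ =>
              ((Set.ncard {g : G | g ∈ H ∧ ∃ l : List G, l.length ≤ n ∧
                  (∀ x ∈ l, x ∈ S ∨ x⁻¹ ∈ S) ∧ l.prod = g} : ℕ) : ℝ) ^ ((1 : ℝ) / (n : ℝ)))
            Filter.atTop
          <
        Filter.limsup
            (fun n : ℕ =>
              ((Set.ncard {g : G | ∃ l : List G, l.length ≤ n ∧
                  (∀ x ∈ l, x ∈ S ∨ x⁻¹ ∈ S) ∧ l.prod = g} : ℕ) : ℝ) ^ ((1 : ℝ) / (n : ℝ)))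
            Filter.atTop) := by
  intro hall
  have h := hall G H H_ne_bot ⟨ff, ff_inj, ff_comp⟩ SS closure_SS
  simp only [ncard_ball, ncard_hball] at h
  exact analysis (fun n => (hball n).card) (fun n => (ball n).card) card_hball_le ball_sq_le h

end Pool.Agent.S01402
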