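import Pool.Statements.S01461
import Pool.Agent.Lib.helper7.FixPt

set_option autoImplicit false
open Pool Pool.MP_52bd65_al

namespace Pool.Agent.S01461

open Pool.Agent.Lib.helper7.FixPt Function

noncomputable section

abbrev V := Lex (ℚ →₀ ℤ)

def co (v : V) (i : ℚ) : ℤ := ofLex v i

theorem co_ext {a b : V} (h : ∀ i, co a i = co b i) : a = b :=
  ofLex.injective (Finsupp.ext h)

theorem lt_iff {a b : V} : a < b ↔ ∃ i, (∀ j, j < i → co a j = co b j) ∧ co a i < co b i := Iff.rfl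

@[simp] theorem co_add (a b : V) (i : ℚ) : co (a + b) i = co a i + co b i := rfl
@[simp] theorem co_sub (a b : V) (i : ℚ) : co (a - b) i = co a i - co b i := rfl
@[simp] theorem co_neg (a : V) (i : ℚ) : co (-a) i = -co a i := rfl
@[simp] theorem co_zero (i : ℚ) : co 0 i = 0 := rfl
@[simp] theorem co_smul (n : ℤ) (a : V) (i : ℚ) : co (n • a) i = n * co a i := rfl

def sg (x : ℚ) : V := toLex (Finsupp.single x 1)

theorem co_sg (x i : ℚ) : co (sg x) i = if x = i then 1 else 0 := Finsupp.single_apply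

theorem sg_pos (x : ℚ) : 0 < sg x :=
  lt_iff.2 ⟨x, fun j hj => by simp [co_sg, hj.ne'], by simp [co_sg]⟩

instance : Countable V := inferInstanceAs (Countable (ℚ →₀ ℤ))

instance : NoMaxOrder V := ⟨fun a => ⟨a + sg 0, lt_add_of_pos_right _ (sg_pos 0)⟩⟩

instance : NoMinOrder V := ⟨fun a => ⟨a - sg 0, sub_lt_self _ (sg_pos 0)⟩⟩

instance : DenselyOrdered V := ⟨fun a b h => by
  obtain ⟨i, h1, h2⟩ := lt_iff.1 h
  refine ⟨a + sg (i + 1), lt_add_of_pos_right _ (sg_pos _), lt_iff.2 ⟨i, fun j hj => ?_, ?_⟩⟩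
  · have : i + 1 ≠ j := by intro e; linarith
    simp [co_sg, this, h1 j hj]
  · simpa [co_sg] using h2⟩

def Tm (y : ℚ) (w : V) (hw : ∀ j ≤ y, co w j = 0) : V ≃o V :=
  StrictMono.orderIsoOfRightInverse (fun v => v + co v y • w)
    (fun a b h => by
      obtain ⟨i, h1, h2⟩ := lt_iff.1 h
      have key : ∀ j ≤ i, co a y * co w j = co b y * co w j := by
        intro j hj
        rcases le_or_gt j y with h3 | h3
        · simp [hw j h3]
        · rw [h1 y (lt_of_lt_of_le h3 hj)]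
      refine lt_iff.2 ⟨i, fun j hj => ?_, ?_⟩
      · simp [h1 j hj, key j hj.le]
      · simp [h2, key i le_rfl])
    (fun v => v - co v y • w) fun v => by simp [hw y le_rfl]

theorem Tm_apply (y : ℚ) (w : V) (hw : ∀ j ≤ y, co w j = 0) (v : V) :
    Tm y w hw v = v + co v y • w := rfl

def Atr : Subgroup (V ≃o V) where
  carrier := {g | ∃ w, ∀ v, g v = v + w}
  mul_mem' := by
    rintro a b ⟨w, ha⟩ ⟨u, hb⟩
    exact ⟨u + w, fun v => by rw [RelIso.mul_apply, hb, ha, add_assoc]⟩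
  one_mem' := ⟨0, fun v => by simp⟩
  inv_mem' := by
    rintro a ⟨w, ha⟩
    refine ⟨-w, fun v => a.injective ?_⟩
    rw [RelIso.apply_inv_self, ha]; simp

def Ay (y : ℚ) : Subgroup (V ≃o V) where
  carrier := {g | ∃ w, (∀ j ≤ y, co w j = 0) ∧ ∀ v, g v = v + co v y • w}
  mul_mem' := by
    rintro a b ⟨w, hw, ha⟩ ⟨u, hu, hb⟩
    refine ⟨u + w, fun j hj => by simp [hw j hj, hu j hj], fun v => ?_⟩
    rw [RelIso.mul_apply, hb, ha]
    refine co_ext fun i => ?_
    simp only [co_add, co_smul, hu y le_rfl]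
    ring
  one_mem' := ⟨0, fun _ _ => rfl, fun v => by simp⟩
  inv_mem' := by
    rintro a ⟨w, hw, ha⟩
    refine ⟨-w, fun j hj => by simp [hw j hj], fun v => a.injective ?_⟩
    rw [RelIso.apply_inv_self, ha]
    simp [hw y le_rfl]

theorem Atr_FPS : FPS Atr := FPS.of_comm (by
  rintro a ⟨w, ha⟩ b ⟨u, hb⟩
  refine RelIso.ext fun v => ?_
  simp only [RelIso.mul_apply, ha, hb]
  abel)

theorem Ay_FPS (y : ℚ) : FPS (Ay y) := FPS.of_comm (by
  rintro a ⟨w, hw, ha⟩ b ⟨u, hu, hb⟩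
  refine RelIso.ext fun v => ?_
  simp only [RelIso.mul_apply, ha, hb, co_add, co_smul, hw y le_rfl, hu y le_rfl, mul_zero,
    add_zero]
  abel)

theorem conj_Atr (k : V ≃o V) (hk : ∀ a b, k (a + b) = k a + k b) (n : V ≃o V) (hn : n ∈ Atr) :
    k * n * k⁻¹ ∈ Atr := by
  obtain ⟨w, hw⟩ := hn
  exact ⟨k w, fun v => by simp only [RelIso.mul_apply, hw, hk, RelIso.apply_inv_self]⟩

theorem NN_FPS : FPS (⨆ y, Ay y) := by
  refine FPS.of_finset fun s => ?_
  induction s using Finset.induction_on_min with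
  | empty => simpa using FPS.bot
  | insert m s hm ih =>
    rw [Finset.iSup_insert]
    refine (Ay_FPS m).sup ih (iSup₂_le fun y hy => le_Nm ?_)
    rintro k hk n ⟨u, hu, hn⟩
    obtain ⟨w', hw', hk'⟩ := (Ay y).inv_mem hk
    obtain ⟨w, hw, hk⟩ := hk
    have hmy := (hm y hy).le
    refine ⟨k u, fun j hj => by simp [hk, hu j hj, hw j (hj.trans hmy)], fun v => ?_⟩
    have e1 : co (k⁻¹ v) m = co v m := by simp [hk', hw' m hmy]
    have e2 : k (k⁻¹ v) = v := RelIso.apply_inv_self k v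
    rw [RelIso.mul_apply, RelIso.mul_apply, hn, e1, hk, hk u]
    rw [hk] at e2
    refine co_ext fun i => ?_
    have e3 := congrArg (co · i) e2
    simp only [co_add, co_smul] at e3 ⊢
    linear_combination e3

def BB : Subgroup (V ≃o V) := Atr ⊔ ⨆ y, Ay y

theorem BB_FPS : FPS BB := by
  refine Atr_FPS.sup NN_FPS (iSup_le fun y => le_Nm ?_)
  rintro k ⟨w, -, hk⟩
  refine conj_Atr k fun a b => ?_
  simp only [hk, co_add, add_smul]
  abel

def PhF (h : ℚ ≃o ℚ) (v : V) : V := toLex (Finsupp.equivMapDomain h.toEquiv (ofLex v))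

@[simp] theorem co_PhF (h : ℚ ≃o ℚ) (v : V) (i : ℚ) : co (PhF h v) i = co v (h⁻¹ i) := rfl

def Ph : (ℚ ≃o ℚ) →* (V ≃o V) where
  toFun h := StrictMono.orderIsoOfRightInverse (PhF h)
    (fun a b hab => by
      obtain ⟨i, h1, h2⟩ := lt_iff.1 hab
      refine lt_iff.2 ⟨h i, fun j hj => ?_, by simpa using h2⟩
      simp only [co_PhF]
      apply h1
      rw [← h.lt_iff_lt, RelIso.apply_inv_self]
      exact hj)
    (PhF h⁻¹) fun v => co_ext fun i => by simp
  map_one' := by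
    refine RelIso.ext fun v => ?_
    exact co_ext fun i => rfl
  map_mul' a b := by
    refine RelIso.ext fun v => ?_
    exact co_ext fun i => rfl

theorem co_Ph (h : ℚ ≃o ℚ) (v : V) (i : ℚ) : co (Ph h v) i = co v (h⁻¹ i) := rfl

theorem Ph_conj (h : ℚ ≃o ℚ) : ∀ b ∈ BB, Ph h * b * (Ph h)⁻¹ ∈ BB := by
  have : BB ≤ BB.comap (MulAut.conj (Ph h)).toMonoidHom := by
    refine sup_le (fun n hn => Subgroup.mem_sup_left
      (conj_Atr (Ph h) (fun a b => co_ext fun i => rfl) n hn)) (iSup_le fun y => ?_)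
    rintro n ⟨w, hw, hn⟩
    refine Subgroup.mem_sup_right (le_iSup Ay (h y) ⟨Ph h w, fun j hj => ?_, fun v => ?_⟩)
    · rw [co_Ph]
      apply hw
      rw [← h.le_iff_le, RelIso.apply_inv_self]
      exact hj
    · show (Ph h * n * (Ph h)⁻¹) v = _
      rw [← map_inv, RelIso.mul_apply, RelIso.mul_apply, hn]
      refine co_ext fun i => ?_
      simp only [co_Ph, co_add, co_smul, inv_inv, RelIso.apply_inv_self]
  exact fun b hb => this hb

theorem multi (s : Finset ℚ) (w : V) (hw : ∀ y ∈ s, ∀ j ≤ y, co w j = 0) :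
    ∃ u ∈ ⨆ y, Ay y, ∀ v, u v = v + (∑ y ∈ s, co v y) • w := by
  induction s using Finset.induction_on with
  | empty => exact ⟨1, Subgroup.one_mem _, fun v => by simp⟩
  | insert y s hy ih =>
    obtain ⟨u, hu, h⟩ := ih fun z hz => hw z (Finset.mem_insert_of_mem hz)
    have h1 := hw y (Finset.mem_insert_self _ _)
    refine ⟨Tm y w h1 * u, Subgroup.mul_mem _ (le_iSup Ay y ⟨w, h1, fun _ => rfl⟩) hu, fun v => ?_⟩
    rw [RelIso.mul_apply, Tm_apply, h, Finset.sum_insert hy]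
    simp only [co_add, co_smul, h1 y le_rfl, mul_zero, add_zero, add_smul]
    abel

theorem move (s : Finset ℚ) (a a' : ℚ) (ha : ∀ y ∈ s, y < a) (ha' : ∀ y ∈ s, y < a') :
    ∃ b ∈ BB, (∀ y ∈ s, b (-sg y) = -sg y) ∧ b (-sg a) = -sg a' := by
  obtain ⟨u, hu, h⟩ := multi s (sg a - sg a') fun y hy j hj => by
    simp [co_sg, (lt_of_le_of_lt hj (ha y hy)).ne', (lt_of_le_of_lt hj (ha' y hy)).ne']
  refine ⟨OrderIso.addRight (sg a - sg a') * u, Subgroup.mul_mem _
    (Subgroup.mem_sup_left ⟨_, fun _ => rfl⟩) (Subgroup.mem_sup_right hu), fun y hy => ?_, ?_⟩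
  · show u (-sg y) + (sg a - sg a') = _
    rw [h]
    simp [co_sg, hy, add_assoc]
  · show u (-sg a) + (sg a - sg a') = _
    rw [h, Finset.sum_eq_zero fun y hy => by simp [co_sg, (ha y hy).ne']]
    simp only [zero_smul, add_zero]
    abel

structure Data (Q : Type) [LinearOrder Q] where
  ι : Q → Q
  Φ : (Q ≃o Q) →* (Q ≃o Q)
  B : Subgroup (Q ≃o Q)
  mono : StrictMono ι
  eqv : ∀ h x, Φ h (ι x) = ι (h x)
  fps : FPS B
  conj : ∀ h, ∀ b ∈ B, Φ h * b * (Φ h)⁻¹ ∈ B
  move : ∀ (s : Finset Q) (a a' : Q), (∀ y ∈ s, y < a) → (∀ y ∈ s, y < a') →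
    ∃ b ∈ B, (∀ y ∈ s, b (ι y) = ι y) ∧ b (ι a) = ι a'

theorem exists_data : Nonempty (Data ℚ) := by
  obtain ⟨θ⟩ : Nonempty (V ≃o ℚ) := Order.iso_of_countable_dense V ℚ
  let c : (V ≃o V) →* (ℚ ≃o ℚ) :=
    { toFun := fun g => (θ.symm.trans g).trans θ
      map_one' := by ext x; simp
      map_mul' := fun a b => by ext x; simp }
  have hc : ∀ g v, c g (θ v) = θ (g v) := fun g v => by simp [c]
  refine ⟨⟨fun x => θ (-sg x), c.comp Ph, BB.map c, ?_, ?_, BB_FPS.map c, ?_, ?_⟩⟩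
  · intro x y h
    refine θ.strictMono (lt_iff.2 ⟨x, fun j hj => ?_, ?_⟩)
    · simp [co_sg, hj.ne', (hj.trans h).ne']
    · simp [co_sg, h.ne']
  · intro h x
    rw [MonoidHom.comp_apply, hc]
    congr 1
    refine co_ext fun i => ?_
    simp only [co_Ph, co_neg, co_sg]
    congr 2
    exact propext ⟨fun e => by rw [e, RelIso.apply_inv_self], fun e => by
      rw [← e, RelIso.inv_apply_self]⟩
  · rintro h _ ⟨b, hb, rfl⟩
    exact ⟨_, Ph_conj h b hb, by simp⟩
  · intro s a a' ha ha'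
    obtain ⟨b, hb, h1, h2⟩ := move s a a' ha ha'
    exact ⟨c b, ⟨b, hb, rfl⟩, fun y hy => by rw [hc, h1 y hy], by rw [hc, h2]⟩

section Lim
variable {Q : Type} [LinearOrder Q] (D : Data Q)

def le0 (a b : ℕ × Q) : Prop := D.ι^[b.1] a.2 ≤ D.ι^[a.1] b.2

theorem le0_trans (a b c : ℕ × Q) (h1 : le0 D a b) (h2 : le0 D b c) : le0 D a c := by
  unfold le0 at *
  have e1 := (D.mono.iterate c.1).monotone h1
  have e2 := (D.mono.iterate a.1).monotone h2
  rw [← (D.mono.iterate b.1).le_iff_le]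
  simp only [← iterate_add_apply] at e1 e2 ⊢
  rw [add_comm b.1 c.1, add_comm b.1 a.1]
  rw [add_comm c.1 a.1] at e1
  exact e1.trans e2

def st : Setoid (ℕ × Q) where
  r a b := le0 D a b ∧ le0 D b a
  iseqv := ⟨fun _ => ⟨le_rfl, le_rfl⟩, fun h => h.symm,
    fun h1 h2 => ⟨le0_trans D _ _ _ h1.1 h2.1, le0_trans D _ _ _ h2.2 h1.2⟩⟩

def XX : Type := Quotient (st D)

def mk (k : ℕ) (x : Q) : XX D := Quotient.mk (st D) (k, x)

instance : LinearOrder (XX D) where
  le x y := Quotient.liftOn₂ x y (le0 D) fun _ _ _ _ h1 h2 => propext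
    ⟨fun h => le0_trans D _ _ _ h1.2 (le0_trans D _ _ _ h h2.1),
      fun h => le0_trans D _ _ _ h1.1 (le0_trans D _ _ _ h h2.2)⟩
  le_refl x := Quotient.inductionOn x fun _ => le_rfl
  le_trans x y z := Quotient.inductionOn₃ x y z (le0_trans D)
  le_antisymm x y := Quotient.inductionOn₂ x y fun _ _ h1 h2 => Quotient.sound ⟨h1, h2⟩
  le_total x y := Quotient.inductionOn₂ x y fun _ _ => le_total _ _
  toDecidableLE := Classical.decRel _

theorem mk_le (k l : ℕ) (x y : Q) : mk D k x ≤ mk D l y ↔ D.ι^[l] x ≤ D.ι^[k] y := Iff.rfl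

theorem mk_lt (k : ℕ) (x y : Q) : mk D k x < mk D k y ↔ x < y := by
  rw [← not_le, ← not_le, mk_le, (D.mono.iterate k).le_iff_le]

theorem mk_it (n l : ℕ) (y : Q) : mk D (n + l) (D.ι^[n] y) = mk D l y := by
  apply le_antisymm <;> rw [mk_le, ← iterate_add_apply, add_comm]

theorem it_eqv (n : ℕ) (g : Q ≃o Q) (x : Q) : D.Φ^[n] g (D.ι^[n] x) = D.ι^[n] (g x) := by
  induction n with
  | zero => rfl
  | succ n ih => rw [iterate_succ_apply', iterate_succ_apply', iterate_succ_apply', D.eqv, ih]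

def jm (k : ℕ) (h : Q ≃o Q) (a : ℕ × Q) : ℕ × Q := (k + a.1, D.Φ^[a.1] h (D.ι^[k] a.2))

theorem jm_le (k : ℕ) (h : Q ≃o Q) (a b : ℕ × Q) : le0 D (jm D k h a) (jm D k h b) ↔ le0 D a b := by
  unfold le0 jm
  simp only
  rw [← it_eqv, ← it_eqv, ← iterate_add_apply D.Φ, ← iterate_add_apply D.Φ,
    show k + b.1 + a.1 = k + a.1 + b.1 by ring, OrderIso.le_iff_le, ← iterate_add_apply,
    ← iterate_add_apply, show k + b.1 + k = k + k + b.1 by ring,
    show k + a.1 + k = k + k + a.1 by ring, iterate_add_apply _ (k + k),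
    iterate_add_apply _ (k + k), (D.mono.iterate _).le_iff_le]

def jf (k : ℕ) (h : Q ≃o Q) : XX D → XX D :=
  Quotient.map (jm D k h) fun a b hab => ⟨(jm_le D k h a b).2 hab.1, (jm_le D k h b a).2 hab.2⟩

theorem jf_mk (k : ℕ) (h : Q ≃o Q) (l : ℕ) (y : Q) :
    jf D k h (mk D l y) = mk D (k + l) (D.Φ^[l] h (D.ι^[k] y)) := rfl

theorem jf_same (k : ℕ) (h : Q ≃o Q) (y : Q) : jf D k h (mk D k y) = mk D k (h y) := by
  rw [jf_mk, it_eqv, mk_it]

theorem jf_one (k : ℕ) (x : XX D) : jf D k 1 x = x := by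
  obtain ⟨l, y⟩ := x
  show jf D k 1 (mk D l y) = mk D l y
  rw [jf_mk, iterate_map_one]
  exact mk_it D k l y

theorem jf_mul (k : ℕ) (g h : Q ≃o Q) (x : XX D) : jf D k (g * h) x = jf D k g (jf D k h x) := by
  obtain ⟨l, y⟩ := x
  show jf D k (g * h) (mk D l y) = jf D k g (jf D k h (mk D l y))
  rw [jf_mk, jf_mk, jf_mk, iterate_add_apply, it_eqv, mk_it, iterate_map_mul]
  rfl

def jj (k : ℕ) : (Q ≃o Q) →* (XX D ≃o XX D) where
  toFun h :=
    { toFun := jf D k h
      invFun := jf D k h⁻¹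
      left_inv := fun x => by rw [← jf_mul, inv_mul_cancel, jf_one]
      right_inv := fun x => by rw [← jf_mul, mul_inv_cancel, jf_one]
      map_rel_iff' := fun {x y} => Quotient.inductionOn₂ x y (jm_le D k h) }
  map_one' := RelIso.ext (jf_one D k)
  map_mul' g h := RelIso.ext (jf_mul D k g h)

theorem jj_apply (k : ℕ) (h : Q ≃o Q) (x : XX D) : jj D k h x = jf D k h x := rfl

theorem jj_succ (k : ℕ) (h : Q ≃o Q) : jj D (k + 1) (D.Φ h) = jj D k h := by
  refine RelIso.ext fun x => ?_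
  obtain ⟨l, y⟩ := x
  show jf D (k + 1) (D.Φ h) (mk D l y) = jf D k h (mk D l y)
  rw [jf_mk, jf_mk, ← iterate_succ_apply D.Φ, iterate_succ_apply', iterate_succ_apply', D.eqv,
    show k + 1 + l = 1 + (k + l) by ring]
  exact mk_it D 1 _ _

theorem jj_add (k n : ℕ) (h : Q ≃o Q) : jj D (k + n) (D.Φ^[n] h) = jj D k h := by
  induction n with
  | zero => rfl
  | succ n ih => rw [iterate_succ_apply', ← add_assoc, jj_succ, ih]

def GG : Subgroup (XX D ≃o XX D) := ⨆ k, D.B.map (jj D k)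

theorem GG_FPS : FPS (GG D) := by
  refine FPS.of_finset fun s => ?_
  induction s using Finset.induction_on_max with
  | empty => simpa using FPS.bot
  | insert m s hm ih =>
    rw [Finset.iSup_insert]
    refine (D.fps.map _).sup ih (iSup₂_le fun k hk => le_Nm ?_)
    rintro _ ⟨h, -, rfl⟩ _ ⟨b, hb, rfl⟩
    obtain ⟨n, rfl⟩ := Nat.exists_eq_add_of_lt (hm k hk)
    rw [← jj_add D k n, ← jj_succ]
    exact ⟨_, D.conj (D.Φ^[n] h) b hb, by simp⟩

theorem exists_level (s : Finset (XX D)) : ∃ k, ∀ x ∈ s, ∃ y, x = mk D k y := by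
  classical
  induction s using Finset.induction_on with
  | empty => exact ⟨0, by simp⟩
  | insert x s _ ih =>
    obtain ⟨k, hk⟩ := ih
    obtain ⟨l, y⟩ := x
    refine ⟨k + l, fun z hz => ?_⟩
    rcases Finset.mem_insert.1 hz with rfl | hz
    · exact ⟨_, (mk_it D k l y).symm⟩
    · obtain ⟨u, rfl⟩ := hk z hz
      rw [add_comm]
      exact ⟨_, (mk_it D l k u).symm⟩

theorem move_lim (s : Finset (XX D)) (a a' : XX D) (ha : ∀ y ∈ s, y < a) (ha' : ∀ y ∈ s, y < a') :
    ∃ g ∈ GG D, (∀ y ∈ s, g y = y) ∧ g a = a' := by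
  classical
  obtain ⟨k, hk⟩ := exists_level D (insert a (insert a' s))
  obtain ⟨u, rfl⟩ := hk a (by simp)
  obtain ⟨u', rfl⟩ := hk a' (by simp)
  haveI : Nonempty Q := ⟨u⟩
  choose! f hf using fun x (hx : x ∈ s) => hk x (by simp [hx])
  obtain ⟨b, hb, h1, h2⟩ := D.move (s.image f) u u'
    (fun y hy => by
      obtain ⟨x, hx, rfl⟩ := Finset.mem_image.1 hy
      rw [← mk_lt D k, ← hf x hx]; exact ha x hx)
    (fun y hy => by
      obtain ⟨x, hx, rfl⟩ := Finset.mem_image.1 hy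
      rw [← mk_lt D k, ← hf x hx]; exact ha' x hx)
  have e : ∀ y, mk D k y = mk D (1 + k) (D.ι y) := fun y => (mk_it D 1 k y).symm
  refine ⟨jj D (1 + k) b, le_iSup (fun k => D.B.map (jj D k)) (1 + k) ⟨b, hb, rfl⟩,
    fun y hy => ?_, ?_⟩
  · rw [hf y hy, e]
    rw [jj_apply, jf_same, h1 _ (Finset.mem_image_of_mem _ hy)]
  · rw [e, e]
    rw [jj_apply, jf_same, h2]

theorem trans_lim (n : ℕ) : ∀ x y : Fin n → XX D, StrictMono x → StrictMono y →
    ∃ g ∈ GG D, ∀ i, g (x i) = y i := by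
  classical
  induction n with
  | zero => exact fun _ _ _ _ => ⟨1, Subgroup.one_mem _, fun i => i.elim0⟩
  | succ n ih =>
    intro x y hx hy
    obtain ⟨g, hg, h⟩ := ih (fun i => x i.castSucc) (fun i => y i.castSucc)
      (hx.comp Fin.strictMono_castSucc) (hy.comp Fin.strictMono_castSucc)
    obtain ⟨b, hb, h1, h2⟩ := move_lim D (Finset.univ.image fun i : Fin n => y i.castSucc)
      (g (x (Fin.last n))) (y (Fin.last n))
      (fun z hz => by
        obtain ⟨i, -, rfl⟩ := Finset.mem_image.1 hz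
        rw [← h i]
        exact g.strictMono (hx (Fin.castSucc_lt_last i)))
      (fun z hz => by
        obtain ⟨i, -, rfl⟩ := Finset.mem_image.1 hz
        exact hy (Fin.castSucc_lt_last i))
    refine ⟨b * g, Subgroup.mul_mem _ hb hg, fun i => ?_⟩
    refine Fin.lastCases h2 (fun i => ?_) i
    rw [RelIso.mul_apply, h i]
    exact h1 _ (Finset.mem_image_of_mem _ (Finset.mem_univ i))

end Lim

end
/-- There is a group with a left-invariant finitely additive probability mean on all its subsets, acting monotonically on a linearly ordered set with at least two points, such that any increasing n-tuple can be sent to any other increasing n-tuple. -/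
theorem result :
    ∃ (G : Type) (_ : Group G) (X : Type) (_ : LinearOrder X) (_ : MulAction G X),
      Nontrivial X ∧
      (∀ g : G, Monotone (fun x : X => g • x)) ∧
      (∀ n : ℕ, ∀ x y : Fin n → X, StrictMono x → StrictMono y →
        ∃ g : G, ∀ i, g • x i = y i) ∧
      (∃ m : Set G → ℝ,
        (∀ A, 0 ≤ m A) ∧ m Set.univ = 1 ∧
        (∀ A B : Set G, Disjoint A B → m (A ∪ B) = m A + m B) ∧
        (∀ (g : G) (A : Set G), m ((fun h => g * h) '' A) = m A)) := by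
  obtain ⟨D⟩ := exists_data
  refine ⟨GG D, inferInstance, XX D, inferInstance,
    { smul := fun g x => g.1 x, one_smul := fun _ => rfl, mul_smul := fun _ _ _ => rfl },
    ⟨mk D 0 0, mk D 0 1, ((mk_lt D 0 0 1).2 zero_lt_one).ne⟩, fun g => g.1.monotone, ?_,
    (GG_FPS D).mean⟩
  intro n x y hx hy
  obtain ⟨g, hg, h⟩ := trans_lim D n x y hx hy
  exact ⟨⟨g, hg⟩, h⟩

end Pool.Agent.S01461
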