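import Pool.Statements.S01479
import Pool.Agent.Lib.helper7.Prim3

set_option autoImplicit false
open Pool Pool.MP_540292_al

namespace Pool.Agent.S01479

open Pool.Agent.Lib.helper7.Prim

lemma mem_iff (n : ℕ) (w : FreeGroup (Fin n)) :
    w ∈ Subgroup.normalClosure {x : FreeGroup (Fin n) | ∃ u ∈ Laws GG,
      ∃ g : ℕ → FreeGroup (Fin n), FreeGroup.lift g u = x} ↔ InK GG w := by
  constructor
  · intro hw
    exact Subgroup.normalClosure_le_normal (N := KK GG (Fin n))
      (fun x hx => (verbal_iff GG n x).1 hx) hw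
  · intro hw
    exact Subgroup.subset_normalClosure ((verbal_iff GG n w).2 hw)

lemma notprim_aux (N : Subgroup (FreeGroup (Fin 2))) [N.Normal] (hN : ∀ w, w ∈ N ↔ InK GG w)
    (h : FreeGroup (Fin 2)) (hh : ∀ g : Fin 2 → TTˣ, (∀ i, g i ∈ GG) →
      Psi g h = ⟨rhoRow g + Pi.single 0 1, g 0⟩)
    (φ : (FreeGroup (Fin 2) ⧸ N) ≃* (FreeGroup (Fin 2) ⧸ N)) (i : Fin 2)
    (hφ : φ (QuotientGroup.mk (FreeGroup.of i)) = QuotientGroup.mk h) : False := by
  choose a ha using fun j => QuotientGroup.mk_surjective (φ (QuotientGroup.mk (FreeGroup.of j)))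
  choose b hb using fun j =>
    QuotientGroup.mk_surjective (φ.symm (QuotientGroup.mk (FreeGroup.of j)))
  have ea : ∀ w, (QuotientGroup.mk (FreeGroup.lift a w) : FreeGroup (Fin 2) ⧸ N) =
      φ (QuotientGroup.mk w) := by
    intro w
    have : (QuotientGroup.mk' N).comp (FreeGroup.lift a) =
        φ.toMonoidHom.comp (QuotientGroup.mk' N) := by
      ext j; simp [ha]
    exact DFunLike.congr_fun this w
  have eb : ∀ w, (QuotientGroup.mk (FreeGroup.lift b w) : FreeGroup (Fin 2) ⧸ N) =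
      φ.symm (QuotientGroup.mk w) := by
    intro w
    have : (QuotientGroup.mk' N).comp (FreeGroup.lift b) =
        φ.symm.toMonoidHom.comp (QuotientGroup.mk' N) := by
      ext j; simp [hb]
    exact DFunLike.congr_fun this w
  refine not_prim h5T xU yU xmem ymem hxy hnc h hh a b i (fun j => ?_) (fun j => ?_) ?_
  · rw [← hN, ← QuotientGroup.eq, eb, ha]; simp
  · rw [← hN, ← QuotientGroup.eq, ea, hb]; simp
  · rw [← hN, ← QuotientGroup.eq, ha, hφ]
/-- There is a variety of groups, ranks 0<r<n and h in the relatively free group of rank r such that no automorphism sends a basis element to h, but in rank n (via the standard inclusion) some automorphism sends a basis element to h. -/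
theorem result :
    ∃ (W : Set (FreeGroup ℕ)) (r n : ℕ) (hrn : r < n) (w : FreeGroup (Fin r)),
      0 < r ∧
      (¬ ∃ (φ : (FreeGroup (Fin r) ⧸ Subgroup.normalClosure
              {x : FreeGroup (Fin r) | ∃ u ∈ W, ∃ g : ℕ → FreeGroup (Fin r), FreeGroup.lift g u = x}) ≃*
            (FreeGroup (Fin r) ⧸ Subgroup.normalClosure
              {x : FreeGroup (Fin r) | ∃ u ∈ W, ∃ g : ℕ → FreeGroup (Fin r), FreeGroup.lift g u = x}))
          (i : Fin r),
          φ (QuotientGroup.mk (FreeGroup.of i) : FreeGroup (Fin r) ⧸ Subgroup.normalClosure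
              {x : FreeGroup (Fin r) | ∃ u ∈ W, ∃ g : ℕ → FreeGroup (Fin r), FreeGroup.lift g u = x})
            = (QuotientGroup.mk w : FreeGroup (Fin r) ⧸ Subgroup.normalClosure
              {x : FreeGroup (Fin r) | ∃ u ∈ W, ∃ g : ℕ → FreeGroup (Fin r), FreeGroup.lift g u = x})) ∧
      (∃ (ψ : (FreeGroup (Fin n) ⧸ Subgroup.normalClosure
              {x : FreeGroup (Fin n) | ∃ u ∈ W, ∃ g : ℕ → FreeGroup (Fin n), FreeGroup.lift g u = x}) ≃*
            (FreeGroup (Fin n) ⧸ Subgroup.normalClosure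
              {x : FreeGroup (Fin n) | ∃ u ∈ W, ∃ g : ℕ → FreeGroup (Fin n), FreeGroup.lift g u = x}))
          (j : Fin n),
          ψ (QuotientGroup.mk (FreeGroup.of j) : FreeGroup (Fin n) ⧸ Subgroup.normalClosure
              {x : FreeGroup (Fin n) | ∃ u ∈ W, ∃ g : ℕ → FreeGroup (Fin n), FreeGroup.lift g u = x})
            = (QuotientGroup.mk (FreeGroup.map (Fin.castLE hrn.le) w) : FreeGroup (Fin n) ⧸
              Subgroup.normalClosure
              {x : FreeGroup (Fin n) | ∃ u ∈ W, ∃ g : ℕ → FreeGroup (Fin n), FreeGroup.lift g u = x})) := by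
  obtain ⟨h, hh⟩ := exists_h h5T hGG
  refine ⟨Laws GG, 2, 4, by norm_num, h, by norm_num, ?_, ?_⟩
  · rintro ⟨φ, i, hφ⟩
    exact notprim_aux _ (mem_iff 2) h hh φ i hφ
  · obtain ⟨ψ, hψ⟩ := prim4 h5T hGG h hh _ (mem_iff 4) (by norm_num)
    exact ⟨ψ, 0, hψ⟩

end Pool.Agent.S01479
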