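import Pool.Statements.S01552
-- import your own Pool.Agent.* helpers here

set_option autoImplicit false
open scoped Pointwise
open Pool Pool.MP_5893d4_al

namespace Pool.Agent.S01552

open Set Filter Topology

/-- The topology of pointwise convergence for a faithful action with finite orbits. -/
theorem actTop {G X : Type} [Group G] (act : G → X → X) (h1 : ∀ x, act 1 x = x)
    (hm : ∀ g h x, act (g * h) x = act g (act h x)) (hf : ∀ g h, (∀ x, act g x = act h x) → g = h)
    (hfin : ∀ x, (range fun g => act g x).Finite)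
    (E : Set G) (hE : ∀ S : Finset X, ∃ g ∈ E, ∀ x ∈ S, act g x = x) :
    ∃ t : TopologicalSpace G, (@IsTopologicalGroup G t _ ∧ @T2Space G t ∧
      ∀ U ∈ @nhds G t 1, ∃ F : Finset G, (F : Set G) * U = Set.univ) ∧
      (1 : G) ∈ @closure G t E := by
  classical
  letI : TopologicalSpace X := ⊥
  haveI : DiscreteTopology X := ⟨rfl⟩
  letI t : TopologicalSpace G := TopologicalSpace.induced act inferInstance
  have hc : Continuous act := continuous_induced_dom
  have hop : ∀ x y, IsOpen {g : G | act g x = y} := by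
    intro x y
    exact (isOpen_discrete {y}).preimage ((continuous_apply x).comp hc)
  have hmul : Continuous (fun p : G × G => p.1 * p.2) := by
    refine continuous_induced_rng.2 (continuous_pi fun x => ?_)
    refine continuous_discrete_rng.2 fun y => ?_
    have : (fun p : G × G => (act ∘ fun p : G × G => p.1 * p.2) p x) ⁻¹' {y} =
        ⋃ w, (Prod.fst ⁻¹' {g : G | act g w = y}) ∩ (Prod.snd ⁻¹' {g : G | act g x = w}) := by
      ext p
      simp only [mem_preimage, Function.comp, mem_singleton_iff, mem_iUnion, mem_inter_iff,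
        Set.mem_ofPred_eq, hm]
      constructor
      · intro h
        exact ⟨_, h, rfl⟩
      · rintro ⟨w, h, rfl⟩
        exact h
    rw [this]
    exact isOpen_iUnion fun w =>
      ((hop w y).preimage continuous_fst).inter ((hop x w).preimage continuous_snd)
  have hinv : Continuous (fun g : G => g⁻¹) := by
    refine continuous_induced_rng.2 (continuous_pi fun x => ?_)
    refine continuous_discrete_rng.2 fun y => ?_
    have : (fun p : G => (act ∘ fun p : G => p⁻¹) p x) ⁻¹' {y} = {g : G | act g y = x} := by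
      ext g
      simp only [mem_preimage, Function.comp, mem_singleton_iff, Set.mem_ofPred_eq]
      constructor
      · rintro rfl
        rw [← hm, mul_inv_cancel, h1]
      · rintro rfl
        rw [← hm, inv_mul_cancel, h1]
    rw [this]
    exact hop y x
  have hinj : Function.Injective act := fun g h e => hf g h (fun x => congrFun e x)
  have hbas : ∀ N ∈ 𝓝 (1 : G), ∃ I : Finset X, ∀ g, (∀ x ∈ I, act g x = x) → g ∈ N := by
    intro N hN
    rw [nhds_induced, mem_comap] at hN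
    obtain ⟨M, hM, hMN⟩ := hN
    rw [nhds_pi, Filter.mem_pi'] at hM
    obtain ⟨I, u, hu, hI⟩ := hM
    refine ⟨I, fun g hgI => hMN (hI ?_)⟩
    intro x hx
    have := mem_of_mem_nhds (hu x)
    rw [h1] at this
    rw [hgI x hx]
    exact this
  refine ⟨t, ⟨{ continuous_mul := hmul, continuous_inv := hinv },
    (Topology.IsEmbedding.mk ⟨rfl⟩ hinj).t2Space, ?_⟩, ?_⟩
  · intro N hN
    obtain ⟨I, hI⟩ := hbas N hN
    let φ : G → I → X := fun g x => act g x.1
    have hφ : (range φ).Finite := by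
      refine (Set.Finite.pi' (t := fun x : I => range fun g => act g x.1)
        (fun x => hfin x.1)).subset ?_
      rintro _ ⟨g, rfl⟩ x
      exact ⟨g, rfl⟩
    haveI := hφ.to_subtype
    have hfin2 : (range fun y : range φ => y.2.choose).Finite := finite_range _
    refine ⟨hfin2.toFinset, eq_univ_of_forall fun g => ?_⟩
    have hg : φ g ∈ range φ := ⟨g, rfl⟩
    refine ⟨hg.choose, ?_, hg.choose⁻¹ * g, hI _ ?_, by simp⟩
    · simp only [Finite.coe_toFinset]
      exact ⟨⟨φ g, hg⟩, rfl⟩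
    · intro x hx
      have e : act hg.choose x = act g x := congrFun hg.choose_spec ⟨x, hx⟩
      rw [hm, ← e, ← hm, inv_mul_cancel, h1]
  · rw [mem_closure_iff_nhds]
    intro N hN
    obtain ⟨I, hI⟩ := hbas N hN
    obtain ⟨g, hg, hgI⟩ := hE I
    exact ⟨g, hI g hgI, hg⟩

/-- The integral Heisenberg group. -/
@[ext] structure HH : Type where
  a : ℤ
  b : ℤ
  c : ℤ

instance : Mul HH := ⟨fun g h => ⟨g.a + h.a, g.b + h.b, g.c + h.c + g.a * h.b⟩⟩
instance : One HH := ⟨⟨0, 0, 0⟩⟩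
instance : Inv HH := ⟨fun g => ⟨-g.a, -g.b, -g.c + g.a * g.b⟩⟩

@[simp] theorem mul_a (g h : HH) : (g * h).a = g.a + h.a := rfl
@[simp] theorem mul_b (g h : HH) : (g * h).b = g.b + h.b := rfl
@[simp] theorem mul_c (g h : HH) : (g * h).c = g.c + h.c + g.a * h.b := rfl
@[simp] theorem one_a : (1 : HH).a = 0 := rfl
@[simp] theorem one_b : (1 : HH).b = 0 := rfl
@[simp] theorem one_c : (1 : HH).c = 0 := rfl
@[simp] theorem inv_a (g : HH) : (g⁻¹).a = -g.a := rfl
@[simp] theorem inv_b (g : HH) : (g⁻¹).b = -g.b := rfl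
@[simp] theorem inv_c (g : HH) : (g⁻¹).c = -g.c + g.a * g.b := rfl

instance : Group HH := Group.ofLeftAxioms
  (fun g h k => by ext <;> simp <;> ring)
  (fun g => by ext <;> simp)
  (fun g => by ext <;> simp)

/-- Central elements. -/
def z (n : ℤ) : HH := ⟨0, 0, n⟩

theorem z_add (m n : ℤ) : z (m + n) = z m * z n := by ext <;> simp [z]
theorem z_neg (m : ℤ) : z (-m) = (z m)⁻¹ := by ext <;> simp [z]
theorem z_zero : z 0 = 1 := rfl

def EE (p : ℕ) : Set HH := range fun k : ℕ => z ((p : ℤ) ^ k)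

def XX (p : ℕ) : Type := Σ n : ℕ, ZMod (p ^ n) × ZMod (p ^ n) × ZMod (p ^ n)

def actR {R : Type} [CommRing R] (g : HH) (x : R × R × R) : R × R × R :=
  (x.1 + (g.a : R) * x.2.1 + (g.c : R) * x.2.2, x.2.1 + (g.b : R) * x.2.2, x.2.2)

theorem actR_one {R : Type} [CommRing R] (x : R × R × R) : actR 1 x = x := by
  simp [actR]

theorem actR_mul {R : Type} [CommRing R] (g h : HH) (x : R × R × R) :
    actR (g * h) x = actR g (actR h x) := by
  simp only [actR, mul_a, mul_b, mul_c]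
  refine Prod.ext ?_ (Prod.ext ?_ rfl)
  · push_cast
    ring
  · push_cast
    ring

def act (p : ℕ) (g : HH) (x : XX p) : XX p := ⟨x.1, actR g x.2⟩

theorem eq_of_cast (p : ℕ) (hp : 1 < p) (m k : ℤ)
    (h : ∀ n : ℕ, (m : ZMod (p ^ n)) = (k : ZMod (p ^ n))) : m = k := by
  have h1 := (ZMod.intCast_eq_intCast_iff_dvd_sub _ _ _).1 (h (k - m).natAbs)
  have h2 : (k - m).natAbs < p ^ (k - m).natAbs := Nat.lt_pow_self hp
  have h3 := Int.eq_zero_of_dvd_of_natAbs_lt_natAbs h1 (by simpa using h2)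
  omega

theorem topP (p : ℕ) (hp : 1 < p) :
    ∃ t : TopologicalSpace HH, (@IsTopologicalGroup HH t _ ∧ @T2Space HH t ∧
      ∀ U ∈ @nhds HH t 1, ∃ F : Finset HH, (F : Set HH) * U = Set.univ) ∧
      (1 : HH) ∈ @closure HH t (EE p) := by
  refine actTop (act p) ?_ ?_ ?_ ?_ (EE p) ?_
  · rintro ⟨n, x⟩
    exact congrArg (Sigma.mk n) (actR_one x)
  · rintro g h ⟨n, x⟩
    exact congrArg (Sigma.mk n) (actR_mul g h x)
  · intro g h e
    have e1 : ∀ n : ℕ, (g.a : ZMod (p ^ n)) = h.a := by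
      intro n
      have := eq_of_heq (Sigma.mk.inj (e ⟨n, 0, 1, 0⟩)).2
      simpa [actR] using congrArg Prod.fst this
    have e2 : ∀ n : ℕ, (g.c : ZMod (p ^ n)) = h.c := by
      intro n
      have := eq_of_heq (Sigma.mk.inj (e ⟨n, 0, 0, 1⟩)).2
      simpa [actR] using congrArg Prod.fst this
    have e3 : ∀ n : ℕ, (g.b : ZMod (p ^ n)) = h.b := by
      intro n
      have := eq_of_heq (Sigma.mk.inj (e ⟨n, 0, 0, 1⟩)).2
      simpa [actR] using congrArg (fun q => q.2.1) this
    exact HH.ext (eq_of_cast p hp _ _ e1) (eq_of_cast p hp _ _ e3) (eq_of_cast p hp _ _ e2)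
  · rintro ⟨n, x⟩
    haveI : NeZero (p ^ n) := ⟨by positivity⟩
    refine (finite_range (fun y : ZMod (p ^ n) × ZMod (p ^ n) × ZMod (p ^ n) =>
      (⟨n, y⟩ : XX p))).subset ?_
    rintro _ ⟨g, rfl⟩
    exact ⟨_, rfl⟩
  · intro S
    refine ⟨_, ⟨S.sup (fun x => x.1), rfl⟩, ?_⟩
    rintro ⟨n, s, y, t⟩ hx
    have hn : n ≤ S.sup (fun x => x.1) := Finset.le_sup (f := fun x : XX p => x.1) hx
    have h0 : (((p : ℤ) ^ (S.sup (fun x => x.1)) : ℤ) : ZMod (p ^ n)) = 0 := by
      rw [ZMod.intCast_zmod_eq_zero_iff_dvd]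
      push_cast
      exact pow_dvd_pow _ hn
    refine congrArg (Sigma.mk n) ?_
    simp only [actR, z, h0]
    simp

theorem not_both [TopologicalSpace HH] [IsTopologicalGroup HH] [T2Space HH]
    (hpc : ∀ U ∈ 𝓝 (1 : HH), ∃ F : Finset HH, (F : Set HH) * U = Set.univ)
    (hA : (1 : HH) ∈ closure (EE 2)) (hB : (1 : HH) ∈ closure (EE 3)) : False := by
  classical
  have hz : ({z 1}ᶜ : Set HH) ∈ 𝓝 (1 : HH) := by
    refine isOpen_compl_singleton.mem_nhds ?_
    intro h
    have := congrArg HH.c (mem_singleton_iff.1 h)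
    simp [z] at this
  obtain ⟨U, hU, hUc, hUz⟩ := exists_mem_nhds_isClosed_subset hz
  obtain ⟨U0, hU0, hU0U⟩ := exists_nhds_one_split hU
  have hc : Continuous (fun q : HH × HH => q.1 * q.2 * q.1⁻¹ * q.2⁻¹) := by fun_prop
  have h0 : (fun q : HH × HH => q.1 * q.2 * q.1⁻¹ * q.2⁻¹) ⁻¹' U0 ∈ 𝓝 ((1 : HH), (1 : HH)) := by
    apply hc.continuousAt.preimage_mem_nhds
    simpa using hU0
  obtain ⟨N1, hN1, N2, hN2, hN⟩ := mem_nhds_prod_iff.1 h0
  obtain ⟨F, hF⟩ := hpc N2 hN2
  have hW : N1 ∩ ⋂ f ∈ F, (fun u : HH => u * f * u⁻¹ * f⁻¹) ⁻¹' U0 ∈ 𝓝 (1 : HH) := by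
    refine inter_mem hN1 ((biInter_finset_mem F).2 fun f _ => ?_)
    have hc2 : Continuous (fun u : HH => u * f * u⁻¹ * f⁻¹) := by fun_prop
    apply hc2.continuousAt.preimage_mem_nhds
    simpa using hU0
  obtain ⟨F', hF'⟩ := hpc _ hW
  have hu : ∃ u ∈ N1 ∩ ⋂ f ∈ F, (fun u : HH => u * f * u⁻¹ * f⁻¹) ⁻¹' U0, u.a ≠ 0 := by
    by_contra h
    push Not at h
    obtain ⟨n, hn⟩ := Infinite.exists_notMem_finset (F'.image HH.a)
    have : (⟨n, 0, 0⟩ : HH) ∈ (F' : Set HH) * _ := hF'.symm ▸ mem_univ _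
    obtain ⟨f, hf, w, hw, e⟩ := this
    have e1 := congrArg HH.a e
    simp only [mul_a, h w hw, add_zero] at e1
    exact hn (Finset.mem_image.2 ⟨f, hf, e1⟩)
  obtain ⟨u, ⟨hu1, hu2⟩, hua⟩ := hu
  have hzU : ∀ b : ℤ, z (u.a * b) ∈ U := by
    intro b
    have : (⟨0, b, 0⟩ : HH) ∈ (F : Set HH) * N2 := hF.symm ▸ mem_univ _
    obtain ⟨f, hf, w, hw, e⟩ := this
    have ea := congrArg HH.a e
    have eb := congrArg HH.b e
    simp only [mul_a, mul_b] at ea eb
    have h1 : u * f * u⁻¹ * f⁻¹ ∈ U0 := mem_iInter₂.1 hu2 f hf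
    have h2 : u * w * u⁻¹ * w⁻¹ ∈ U0 := hN (mk_mem_prod hu1 hw)
    have h3 := hU0U _ h1 _ h2
    have : u * f * u⁻¹ * f⁻¹ * (u * w * u⁻¹ * w⁻¹) = z (u.a * b) := by
      have e3 : w.a = -f.a := by omega
      have e4 : b = f.b + w.b := by omega
      ext <;> simp [z, e3, e4]
      ring
    rwa [this] at h3
  let S : Subgroup HH :=
    { carrier := range fun b : ℤ => z (u.a * b)
      mul_mem' := by
        rintro _ _ ⟨b, rfl⟩ ⟨b', rfl⟩
        exact ⟨b + b', by simp only [mul_add, z_add]⟩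
      one_mem' := ⟨0, by simp [z_zero]⟩
      inv_mem' := by
        rintro _ ⟨b, rfl⟩
        exact ⟨-b, by simp only [mul_neg, z_neg]⟩ }
  let T : Subgroup HH := S.topologicalClosure
  have hTc : IsClosed (T : Set HH) := S.isClosed_topologicalClosure
  have hTU : (T : Set HH) ⊆ U := by
    refine closure_minimal ?_ hUc
    rintro _ ⟨b, rfl⟩
    exact hzU b
  have hST : ∀ b : ℤ, z (u.a * b) ∈ T := fun b => S.le_topologicalClosure ⟨b, rfl⟩
  let R : Finset ℤ := (Finset.Ico 0 |u.a|).filter fun r => z r ∉ T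
  have hN3 : ⋂ r ∈ R, ((fun g : HH => (z r)⁻¹ * g) ⁻¹' (T : Set HH))ᶜ ∈ 𝓝 (1 : HH) := by
    refine (biInter_finset_mem R).2 fun r hr => ?_
    refine (hTc.preimage (by fun_prop)).isOpen_compl.mem_nhds ?_
    intro h
    have h' : (z r)⁻¹ * 1 ∈ T := h
    rw [mul_one, inv_mem_iff] at h'
    exact (Finset.mem_filter.1 hr).2 h'
  have hkey : ∀ m : ℤ, z m ∈ ⋂ r ∈ R, ((fun g : HH => (z r)⁻¹ * g) ⁻¹' (T : Set HH))ᶜ →
      z m ∈ T := by
    intro m hm
    have e : z m = z (m % u.a) * z (u.a * (m / u.a)) := by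
      rw [← z_add, Int.emod_add_mul_ediv]
    by_cases hr : z (m % u.a) ∈ T
    · rw [e]
      exact T.mul_mem hr (hST _)
    · exfalso
      have hR : m % u.a ∈ R := Finset.mem_filter.2
        ⟨Finset.mem_Ico.2 ⟨Int.emod_nonneg _ hua, Int.emod_lt_abs _ hua⟩, hr⟩
      apply mem_iInter₂.1 hm _ hR
      show (z (m % u.a))⁻¹ * z m ∈ T
      rw [e, inv_mul_cancel_left]
      exact hST _
  obtain ⟨_, h2, k, rfl⟩ := mem_closure_iff_nhds.1 hA _ hN3
  obtain ⟨_, h3, l, rfl⟩ := mem_closure_iff_nhds.1 hB _ hN3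
  have h2' := hkey _ h2
  have h3' := hkey _ h3
  have hpow : ∀ m n : ℤ, z m ∈ T → z (n * m) ∈ T := by
    intro m n hm
    induction n using Int.induction_on with
    | zero => rw [zero_mul, z_zero]; exact T.one_mem
    | succ i ih => rw [add_mul, one_mul, z_add]; exact T.mul_mem ih hm
    | pred i ih => rw [sub_mul, one_mul, sub_eq_add_neg, z_add, z_neg]; exact T.mul_mem ih (T.inv_mem hm)
  have hcop : IsCoprime (((2 : ℕ) : ℤ) ^ k) (((3 : ℕ) : ℤ) ^ l) := by
    apply IsCoprime.pow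
    exact ⟨-1, 1, by norm_num⟩
  obtain ⟨x, y, hxy⟩ := hcop
  have : z 1 ∈ T := by
    rw [← hxy, z_add]
    exact T.mul_mem (hpow _ _ h2') (hpow _ _ h3')
  exact hUz (hTU this) rfl

/-- The negation of the preceding statement: For every group of size at most 2^c with some precompact Hausdorff group topology, and every countable family of subsets, some precompact Hausdorff group topology gives each member the same closure as the intersection of all precompact Hausdorff group topologies. -/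
theorem result :
    ¬ (∀ (G : Type) [Group G],
      Cardinal.mk G ≤ 2 ^ Cardinal.continuum →
      (∃ t : TopologicalSpace G,
        @IsTopologicalGroup G t _ ∧ @T2Space G t ∧
          ∀ U ∈ @nhds G t 1, ∃ F : Finset G, (F : Set G) * U = Set.univ) →
      ∀ ℰ : Set (Set G), ℰ.Countable →
        ∃ t : TopologicalSpace G,
          (@IsTopologicalGroup G t _ ∧ @T2Space G t ∧
            ∀ U ∈ @nhds G t 1, ∃ F : Finset G, (F : Set G) * U = Set.univ) ∧
          ∀ E ∈ ℰ,
            @closure G t E =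
              ⋂₀ {C : Set G | E ⊆ C ∧
                ∀ s : TopologicalSpace G,
                  (@IsTopologicalGroup G s _ ∧ @T2Space G s ∧
                    ∀ U ∈ @nhds G s 1, ∃ F : Finset G, (F : Set G) * U = Set.univ) →
                  @IsClosed G s C}) := by
  intro H
  have hcard : Cardinal.mk HH ≤ 2 ^ Cardinal.continuum := by
    have h1 : Cardinal.mk HH ≤ Cardinal.mk (ℤ × ℤ × ℤ) :=
      Cardinal.mk_le_of_injective (f := fun g : HH => (g.a, g.b, g.c)) (by
        intro g h e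
        simp only [Prod.mk.injEq] at e
        exact HH.ext e.1 e.2.1 e.2.2)
    exact h1.trans (Cardinal.mk_le_aleph0.trans
      (Cardinal.aleph0_le_continuum.trans (Cardinal.cantor _).le))
  obtain ⟨a, ha1, ha⟩ := topP 2 (by norm_num)
  obtain ⟨b, hb1, hb⟩ := topP 3 (by norm_num)
  obtain ⟨t, ⟨ht1, ht2, ht3⟩, ht⟩ := H HH hcard ⟨a, ha1⟩ {EE 2, EE 3} (Set.toFinite _).countable
  refine @not_both t ht1 ht2 ht3 ?_ ?_
  · rw [ht (EE 2) (by simp)]
    rintro C ⟨hC1, hC2⟩
    exact @closure_minimal HH a _ _ hC1 (hC2 a ha1) _ ha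
  · rw [ht (EE 3) (by simp)]
    rintro C ⟨hC1, hC2⟩
    exact @closure_minimal HH b _ _ hC1 (hC2 b hb1) _ hb

end Pool.Agent.S01552
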