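import Pool.Statements.S01554
-- import your own Pool.Agent.* helpers here

set_option autoImplicit false
open Pool Pool.MP_58cc81_al

namespace Pool.Agent.S01554

open Set Filter Topology

/-- A countably infinite dimensional vector space over the field with two elements, discrete. -/
def VV : Type := ℕ →₀ ZMod 2

noncomputable instance : AddCommGroup VV := inferInstanceAs (AddCommGroup (ℕ →₀ ZMod 2))
noncomputable instance : Module (ZMod 2) VV := inferInstanceAs (Module (ZMod 2) (ℕ →₀ ZMod 2))
instance : Infinite VV := inferInstanceAs (Infinite (ℕ →₀ ZMod 2))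
instance : TopologicalSpace VV := ⊥
instance : DiscreteTopology VV := ⟨rfl⟩

/-- Coordinates. -/
noncomputable def co (i : ℕ) : VV →ₗ[ZMod 2] ZMod 2 := Finsupp.lapply i

theorem co_ext {u v : VV} (h : ∀ i, co i u = co i v) : u = v := Finsupp.ext h

abbrev CC : Type := ℕ × ℕ → UnitAddCircle

noncomputable def gam (u v : VV) : CC := fun p => ZMod.toAddCircle (co p.1 u * co p.2 v)

theorem gam_add_left (u u' v : VV) : gam (u + u') v = gam u v + gam u' v := by
  funext p
  simp [gam, add_mul]

theorem gam_add_right (u v v' : VV) : gam u (v + v') = gam u v + gam u v' := by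
  funext p
  simp [gam, mul_add]

theorem gam_zero_left (v : VV) : gam 0 v = 0 := by
  funext p
  simp [gam]

theorem gam_zero_right (v : VV) : gam v 0 = 0 := by
  funext p
  simp [gam]

theorem gam_neg_left (u v : VV) : gam (-u) v = -gam u v := by
  rw [eq_neg_iff_add_eq_zero, ← gam_add_left, neg_add_cancel, gam_zero_left]

/-- A central extension of the discrete group `VV` by a torus of countable dimension. -/
def GG : Type := VV × CC

instance : TopologicalSpace GG := inferInstanceAs (TopologicalSpace (VV × CC))
instance : T2Space GG := inferInstanceAs (T2Space (VV × CC))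
instance : LocallyCompactSpace GG := inferInstanceAs (LocallyCompactSpace (VV × CC))

noncomputable instance : Mul GG := ⟨fun g h => (g.1 + h.1, g.2 + h.2 + gam g.1 h.1)⟩
noncomputable instance : One GG := ⟨(0, 0)⟩
noncomputable instance : Inv GG := ⟨fun g => (-g.1, -g.2 + gam g.1 g.1)⟩

theorem mul_1 (g h : GG) : (g * h).1 = g.1 + h.1 := rfl
theorem mul_2 (g h : GG) : (g * h).2 = g.2 + h.2 + gam g.1 h.1 := rfl
theorem one_1 : (1 : GG).1 = 0 := rfl
theorem one_2 : (1 : GG).2 = 0 := rfl
theorem inv_1 (g : GG) : (g⁻¹).1 = -g.1 := rfl
theorem inv_2 (g : GG) : (g⁻¹).2 = -g.2 + gam g.1 g.1 := rfl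

noncomputable instance : Group GG := Group.ofLeftAxioms
  (fun g h k => by
    refine Prod.ext ?_ ?_
    · simp only [mul_1, add_assoc]
    · simp only [mul_1, mul_2, gam_add_left, gam_add_right]
      abel)
  (fun g => by
    refine Prod.ext ?_ ?_
    · simp only [mul_1, one_1, zero_add]
    · simp only [mul_2, one_1, one_2, gam_zero_left, zero_add, add_zero])
  (fun g => by
    refine Prod.ext ?_ ?_
    · simp only [mul_1, inv_1, one_1, neg_add_cancel]
    · simp only [mul_2, inv_1, inv_2, one_2, gam_neg_left]
      abel)

theorem c1 : Continuous (fun g : GG => g.1) := continuous_fst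
theorem c2 : Continuous (fun g : GG => g.2) := continuous_snd

theorem cpair {X : Type} [TopologicalSpace X] {f : X → GG} (h1 : Continuous fun x => (f x).1)
    (h2 : Continuous fun x => (f x).2) : Continuous f := h1.prodMk h2

theorem cdisc {X Y : Type} [TopologicalSpace X] [TopologicalSpace Y] (f : VV → VV → Y)
    {a b : X → VV} (ha : Continuous a) (hb : Continuous b) : Continuous fun x => f (a x) (b x) :=
  (continuous_of_discreteTopology (f := fun q : VV × VV => f q.1 q.2)).comp (ha.prodMk hb)

theorem cmul : Continuous (fun p : GG × GG => p.1 * p.2) := by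
  have ha : Continuous (fun p : GG × GG => p.1.1) := c1.comp continuous_fst
  have hb : Continuous (fun p : GG × GG => p.2.1) := c1.comp continuous_snd
  have hc : Continuous (fun p : GG × GG => p.1.2) := c2.comp continuous_fst
  have hd : Continuous (fun p : GG × GG => p.2.2) := c2.comp continuous_snd
  apply cpair
  · simp only [mul_1]
    exact cdisc (fun u v => u + v) ha hb
  · simp only [mul_2]
    exact (hc.add hd).add (cdisc gam ha hb)

theorem cinv : Continuous (fun p : GG => p⁻¹) := by
  apply cpair
  · simp only [inv_1]
    exact cdisc (fun u _ => -u) c1 c1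
  · simp only [inv_2]
    exact c2.neg.add (cdisc gam c1 c1)

instance : IsTopologicalGroup GG where
  continuous_mul := cmul
  continuous_inv := cinv

theorem cpt (S : Set VV) (hS : S.Finite) (A : Set GG) (hA : ∀ g ∈ A, g.1 ∈ S) :
    IsCompact (closure A) := by
  have h : IsCompact (S ×ˢ (univ : Set CC)) := hS.isCompact.prod isCompact_univ
  exact IsCompact.closure_of_subset (X := GG) h (fun g hg => ⟨hA g hg, trivial⟩)

/-- The negation of the preceding statement: A Hausdorff locally compact group with small invariant neighbourhoods, whose abelian subgroups have compact closure and whose relatively compact subsets generate relatively compact subgroups, is totally disconnected or compact. -/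
theorem result :
    ¬ (∀ (G : Type) [Group G] [TopologicalSpace G] [IsTopologicalGroup G]
      [LocallyCompactSpace G] [T2Space G],
      (∀ U ∈ nhds (1 : G), ∃ V ∈ nhds (1 : G), V ⊆ U ∧
          ∀ g x : G, x ∈ V → g * x * g⁻¹ ∈ V) →
      (∀ H : Subgroup G, (∀ a ∈ H, ∀ b ∈ H, a * b = b * a) →
          IsCompact (closure (H : Set G))) →
      (∀ K : Set G, IsCompact (closure K) →
          IsCompact (closure ((Subgroup.closure K : Subgroup G) : Set G))) →
      TotallyDisconnectedSpace G ∨ CompactSpace G) := by
  intro H
  have h2 : ∀ c : ZMod 2, c = 0 ∨ c = 1 := by decide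
  refine (H GG ?_ ?_ ?_).elim (fun h => ?_) (fun h => ?_)
  rotate_left 3
  · let f : CC → GG := fun k => (0, k)
    have hc : Continuous f := cpair continuous_const continuous_id
    have hs := (isPreconnected_range hc).subsingleton
    have e := hs ⟨0, rfl⟩ ⟨fun _ => ZMod.toAddCircle (1 : ZMod 2), rfl⟩
    have e2 : (0 : UnitAddCircle) = ZMod.toAddCircle (1 : ZMod 2) :=
      congrFun (congrArg Prod.snd e) (0, 0)
    have e3 : (0 : ZMod 2) = 1 := ZMod.toAddCircle_injective 2 (by rw [map_zero]; exact e2)
    exact absurd e3 (by decide)
  · have h3 : (range fun g : GG => g.1).Finite := (isCompact_range c1).finite_of_discrete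
    refine Set.infinite_univ (α := VV) (h3.subset ?_)
    intro v _
    exact ⟨(v, 0), rfl⟩
  · intro U hU
    refine ⟨U ∩ (fun g : GG => g.1) ⁻¹' {0}, inter_mem hU ?_, inter_subset_left, ?_⟩
    · exact ((isOpen_discrete _).preimage c1).mem_nhds rfl
    · intro g x hx
      have hx1 : x.1 = 0 := hx.2
      have : g * x = x * g := by
        refine Prod.ext ?_ ?_
        · simp only [mul_1, add_comm]
        · simp only [mul_2, hx1, gam_zero_left, gam_zero_right, add_comm]
      rw [this, mul_inv_cancel_right]
      exact hx
  · intro A hA
    by_cases h0 : ∀ g ∈ A, g.1 = 0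
    · exact cpt {0} (finite_singleton _) _ h0
    · push Not at h0
      obtain ⟨a, ha, ha0⟩ := h0
      have : ∃ i, co i a.1 = 1 := by
        by_contra h
        push Not at h
        exact ha0 (co_ext fun i => by rw [map_zero]; exact (h2 _).resolve_right (h i))
      obtain ⟨i, hi⟩ := this
      refine cpt {0, a.1} (Set.toFinite _) _ ?_
      intro b hb
      have e := congrArg Prod.snd (hA a ha b hb)
      have e' : gam a.1 b.1 = gam b.1 a.1 := by
        have e1 : a.2 + b.2 + gam a.1 b.1 = b.2 + a.2 + gam b.1 a.1 := e
        rw [add_comm b.2] at e1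
        exact add_left_cancel e1
      have e2 : ∀ j, co j b.1 = co i b.1 * co j a.1 := by
        intro j
        have := ZMod.toAddCircle_injective 2 (congrFun e' (i, j))
        rwa [hi, one_mul] at this
      rcases h2 (co i b.1) with h | h
      · exact Or.inl (co_ext fun j => by rw [e2, h, zero_mul, map_zero])
      · exact Or.inr (co_ext fun j => by rw [e2, h, one_mul])
  · intro K hK
    have h3 : ((fun g : GG => g.1) '' closure K).Finite := (hK.image c1).finite_of_discrete
    let W : Submodule (ZMod 2) VV := Submodule.span (ZMod 2) ((fun g : GG => g.1) '' closure K)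
    haveI : Module.Finite (ZMod 2) W := Module.Finite.span_of_finite _ h3
    haveI : Finite W := Module.finite_of_finite (ZMod 2)
    let T : Subgroup GG :=
      { carrier := {g | g.1 ∈ W}
        mul_mem' := fun ha hb => W.add_mem ha hb
        one_mem' := W.zero_mem
        inv_mem' := fun ha => W.neg_mem ha }
    have hT : Subgroup.closure K ≤ T := by
      rw [Subgroup.closure_le]
      intro g hg
      exact Submodule.subset_span ⟨g, subset_closure hg, rfl⟩
    exact cpt W (Set.toFinite _) _ (fun g hg => hT hg)

end Pool.Agent.S01554
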