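import Pool.Statements.S01567
import Pool.Agent.Lib.helper23.HK

set_option autoImplicit false
open Pool Pool.MP_5a0037_al

namespace Pool.Agent.S01567

open Pool.Agent.Lib.Helper23.Cube

/-- There is g : ℕ → ℕ such that every loop whose multiplication group is nilpotent of class ≤ c and which is supernilpotent (some higher commutator [1,…,1] vanishes) has supernilpotence class ≤ g(c). -/
theorem result :
    ∃ g : ℕ → ℕ, ∀ (Q : Type) [MulOneClass Q],
      (∀ a : Q, Function.Bijective (fun x : Q => a * x)) →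
      (∀ a : Q, Function.Bijective (fun x : Q => x * a)) →
      ∀ c n : ℕ,
      upperCentralSeries (↥(Subgroup.closure
          {σ : Equiv.Perm Q | ∃ a : Q, ((⇑σ) = fun x : Q => a * x) ∨ ((⇑σ) = fun x : Q => x * a)})) c = ⊤ →
      (∀ (m : ℕ) (p : (Fin n → Fin m → Q) → (Fin m → Q) → Q),
        (∀ S : Set ((Fin n → Fin m → Q) → (Fin m → Q) → Q),
          (∀ (i : Fin n) (j : Fin m), (fun (x : Fin n → Fin m → Q) (_ : Fin m → Q) => x i j) ∈ S) →
          (∀ j : Fin m, (fun (_ : Fin n → Fin m → Q) (y : Fin m → Q) => y j) ∈ S) →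
          (∀ q : Q, (fun (_ : Fin n → Fin m → Q) (_ : Fin m → Q) => q) ∈ S) →
          (∀ f ∈ S, ∀ h ∈ S, (fun (x : Fin n → Fin m → Q) (y : Fin m → Q) => f x y * h x y) ∈ S) →
          (∀ f ∈ S, ∀ h ∈ S, ∀ r : (Fin n → Fin m → Q) → (Fin m → Q) → Q,
            (∀ x y, f x y * r x y = h x y) → r ∈ S) →
          (∀ f ∈ S, ∀ h ∈ S, ∀ r : (Fin n → Fin m → Q) → (Fin m → Q) → Q,
            (∀ x y, r x y * f x y = h x y) → r ∈ S) →
          p ∈ S) →
        ∀ (a b : Fin n → Fin m → Q) (u v : Fin m → Q),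
          (∀ s : Fin n → Bool, s ≠ (fun _ => true) →
            p (fun i => if s i then b i else a i) u = p (fun i => if s i then b i else a i) v) →
          p b u = p b v) →
      (∀ (m : ℕ) (p : (Fin (g c) → Fin m → Q) → (Fin m → Q) → Q),
        (∀ S : Set ((Fin (g c) → Fin m → Q) → (Fin m → Q) → Q),
          (∀ (i : Fin (g c)) (j : Fin m), (fun (x : Fin (g c) → Fin m → Q) (_ : Fin m → Q) => x i j) ∈ S) →
          (∀ j : Fin m, (fun (_ : Fin (g c) → Fin m → Q) (y : Fin m → Q) => y j) ∈ S) →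
          (∀ q : Q, (fun (_ : Fin (g c) → Fin m → Q) (_ : Fin m → Q) => q) ∈ S) →
          (∀ f ∈ S, ∀ h ∈ S, (fun (x : Fin (g c) → Fin m → Q) (y : Fin m → Q) => f x y * h x y) ∈ S) →
          (∀ f ∈ S, ∀ h ∈ S, ∀ r : (Fin (g c) → Fin m → Q) → (Fin m → Q) → Q,
            (∀ x y, f x y * r x y = h x y) → r ∈ S) →
          (∀ f ∈ S, ∀ h ∈ S, ∀ r : (Fin (g c) → Fin m → Q) → (Fin m → Q) → Q,
            (∀ x y, r x y * f x y = h x y) → r ∈ S) →
          p ∈ S) →
        ∀ (a b : Fin (g c) → Fin m → Q) (u v : Fin m → Q),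
          (∀ s : Fin (g c) → Bool, s ≠ (fun _ => true) →
            p (fun i => if s i then b i else a i) u = p (fun i => if s i then b i else a i) v) →
          p b u = p b v) := by
  classical
  refine ⟨fun c => 2 * 4 ^ (c - 1), ?_⟩
  intro Q _ hl hr c n hc _ m p hp a b u v h
  set M := Subgroup.closure
    {σ : Equiv.Perm Q | ∃ a : Q, ((⇑σ) = fun x : Q => a * x) ∨ ((⇑σ) = fun x : Q => x * a)}
  replace hc := Subgroup.lowerCentralSeries_eq_bot_iff_upperCentralSeries_eq_top.2 hc
  have hL : ∀ a : Q, ∃ g : M, ∀ b, a * b = g • b := fun a =>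
    ⟨⟨Equiv.ofBijective _ (hl a), Subgroup.subset_closure ⟨a, Or.inl rfl⟩⟩, fun _ => rfl⟩
  have hR : ∀ b : Q, ∃ g : M, ∀ a, a * b = g • a := fun a =>
    ⟨⟨Equiv.ofBijective _ (hr a), Subgroup.subset_closure ⟨a, Or.inr rfl⟩⟩, fun _ => rfl⟩
  have htr : ∀ q : Q, ∃ g : M, q = g • (1 : Q) := fun q => by
    obtain ⟨g, hg⟩ := hL q
    exact ⟨g, by rw [← hg, mul_one]⟩
  have hsub : ∀ s t : Finset (Option (Fin (2 * 4 ^ (c - 1)))), (s ⊔ t).card ≤ s.card + t.card :=
    fun s t => Finset.card_union_le s t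
  have key : ∀ w : Fin m → Q, (fun ω : Finset (Option (Fin (2 * 4 ^ (c - 1)))) =>
      p (fun i => if decide (some i ∈ ω) then b i else a i) (if none ∈ ω then w else u))
        ∈ Cu (1 : Q) (Fil M c (fun l => 2 * 4 ^ l)) Finset.card := by
    intro w
    refine hp {f | (fun ω : Finset (Option (Fin (2 * 4 ^ (c - 1)))) =>
      f (fun i => if decide (some i ∈ ω) then b i else a i) (if none ∈ ω then w else u))
        ∈ Cu (1 : Q) (Fil M c (fun l => 2 * 4 ^ l)) Finset.card} ?_ ?_ ?_ ?_ ?_ ?_
    · intro i j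
      refine edge_mem htr rfl c {some i} (by simp) (a i j) (b i j) ?_ ?_
      · intro ω hω
        simp [Finset.singleton_subset_iff.1 hω]
      · intro ω hω
        simp [mt Finset.singleton_subset_iff.2 hω]
    · intro j
      refine edge_mem htr rfl c {none} (by simp) (u j) (w j) ?_ ?_
      · intro ω hω
        simp [Finset.singleton_subset_iff.1 hω]
      · intro ω hω
        simp [mt Finset.singleton_subset_iff.2 hω]
    · intro q
      exact edge_mem htr rfl c ⊥ (by simp) q q (fun _ _ => rfl) (fun _ _ => rfl)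
    · intro f hf g hg
      exact mulClosed htr hL hR c _ _ rfl hsub _ hf _ hg
    · intro f hf g hg r hfg
      refine divClosed (μ := fun x y => x * y) htr hL hR c _ _ rfl hsub _ hf _ ?_
      simp only [hfg]
      exact hg
    · intro f hf g hg r hfg
      refine divClosed (μ := fun x y => y * x) htr hR hL c _ _ rfl hsub _ hf _ ?_
      simp only [hfg]
      exact hg
  have h1 := Cu_uniq hc hsub Finset.univ (by simp) (key u) (key v) (by
    intro T hT
    by_cases c1 : none ∈ T
    · simp only [c1, if_true]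
      apply h (fun i => decide (some i ∈ T))
      intro c2
      apply hT.ne
      rw [Finset.eq_univ_iff_forall]
      rintro (_ | i)
      · exact c1
      · simpa using congrFun c2 i
    · simp only [c1, if_false])
  simpa using h1

end Pool.Agent.S01567
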