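import Pool.Statements.S01585
import Pool.Agent.Lib.helper23.JuC

set_option autoImplicit false
open Pool Pool.MP_5c00b6_al

namespace Pool.Agent.S01585

/-- For every ε>0 there is a nonempty finite set V of triples (a,b,c) of positive integers such that the pairs (a,b), (b,c), (a+b,c), (a,b+c) from V have at least (1−ε)∣V∣ elements in common. -/
theorem result :
    ∀ ε : ℝ, 0 < ε →
      ∃ V : Finset (ℕ × ℕ × ℕ),
        V.Nonempty ∧
        (∀ x ∈ V, 0 < x.1 ∧ 0 < x.2.1 ∧ 0 < x.2.2) ∧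
        (1 - ε) * (V.card : ℝ) ≤
          ((V.image (fun x : ℕ × ℕ × ℕ => (x.1, x.2.1)) ∩
            V.image (fun x : ℕ × ℕ × ℕ => (x.2.1, x.2.2)) ∩
            V.image (fun x : ℕ × ℕ × ℕ => (x.1 + x.2.1, x.2.2)) ∩
            V.image (fun x : ℕ × ℕ × ℕ => (x.1, x.2.1 + x.2.2))).card : ℝ) := by
  intro ε hε
  exact Pool.Agent.Lib.helper23.JuC.main ε hε

end Pool.Agent.S01585
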