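import Pool.Statements.S01599

set_option autoImplicit false
open Pool Pool.MP_5cdc7f_al

namespace Pool.Agent.S01599

abbrev F := ZMod 3
abbrev V := Fin 5 → F
abbrev B := Fin 5 → Fin 5 → F
abbrev W := Fin 5 → Fin 5 → Fin 5 → F
abbrev Q := V × W × F

def w2 (x y : V) : B := fun i j => x i * y j - x j * y i
def w3 (b : B) (y : V) : W := fun i j k => b i j * y k - b i k * y j + b j k * y i
def th (x y : V) : W := fun i j k => (x k - y k) * (x i * y j - x j * y i)
def pr (b : B) (w : W) : F :=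
  b 0 1 * w 2 3 4 - b 0 2 * w 1 3 4 + b 0 3 * w 1 2 4 - b 0 4 * w 1 2 3 + b 1 2 * w 0 3 4
    - b 1 3 * w 0 2 4 + b 1 4 * w 0 2 3 + b 2 3 * w 0 1 4 - b 2 4 * w 0 1 3 + b 3 4 * w 0 1 2

def mu (p q : Q) : Q :=
  (p.1 + q.1, p.2.1 + q.2.1 + th p.1 q.1, p.2.2 + q.2.2 + pr (w2 p.1 q.1) (q.2.1 - p.2.1))

theorem three : (3 : F) = 0 := rfl

theorem mu_comm (p q : Q) : mu p q = mu q p := by
  unfold mu
  refine Prod.ext (add_comm _ _) (Prod.ext ?_ ?_)
  · funext i j k; simp only [th, Pi.add_apply]; ring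
  · simp only [pr, w2, Pi.sub_apply]; ring

theorem zero_mu (p : Q) : mu 0 p = p := by
  unfold mu
  refine Prod.ext (zero_add _) (Prod.ext ?_ ?_)
  · funext i j k; simp [th]
  · simp [pr, w2]

theorem mu_uniq (a b : Q) : ∃! x, mu a x = b := by
  refine ⟨(b.1 - a.1, b.2.1 - a.2.1 - th a.1 (b.1 - a.1),
    b.2.2 - a.2.2 - pr (w2 a.1 (b.1 - a.1)) (b.2.1 - a.2.1 - th a.1 (b.1 - a.1) - a.2.1)), ?_, ?_⟩
  · unfold mu
    refine Prod.ext ?_ (Prod.ext ?_ ?_)
    · simp
    · simp only; abel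
    · simp only; ring
  · rintro ⟨x1, x2, x3⟩ rfl
    simp only [mu]
    refine Prod.ext ?_ (Prod.ext ?_ ?_)
    · simp
    · simp only [add_sub_cancel_left]; abel
    · simp only [add_sub_cancel_left]
      have : a.2.1 + x2 + th a.1 x1 - a.2.1 - th a.1 x1 - a.2.1 = x2 - a.2.1 := by abel
      rw [this]; ring

/-- The shape of every element of the multiplication group. -/
def act (x : V) (b : B) (w0 : W) (ps : V → F) (q : Q) : Q :=
  (q.1 + x, q.2.1 + th x q.1 - w3 b q.1 + w0, q.2.2 + pr (w2 x q.1 + b) q.2.1 + ps q.1)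

theorem act_act (x1 x2 : V) (b1 b2 : B) (u1 u2 : W) (p1 p2 : V → F) :
    ∃ x b u p, ∀ q, act x2 b2 u2 p2 (act x1 b1 u1 p1 q) = act x b u p q := by
  refine ⟨x1 + x2, b1 + b2 + w2 x2 x1, u1 + u2 + th x2 x1 - w3 b2 x1,
    fun y => p1 y + p2 (y + x1) + pr (w2 x2 (y + x1) + b2) (th x1 y - w3 b1 y + u1), ?_⟩
  rintro ⟨y, w, z⟩
  simp only [act]
  refine Prod.ext (add_assoc _ _ _) (Prod.ext ?_ ?_)
  · funext i j k
    simp only [th, w3, w2, Pi.add_apply, Pi.sub_apply]
    linear_combination (-(x1 k) * (x2 i * y j - x2 j * y i)) * three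
  · simp only [pr, w2, Pi.add_apply, Pi.sub_apply]
    ring

theorem mu_act (a : Q) : ∃ x b u p, ∀ q, mu a q = act x b u p q := by
  refine ⟨a.1, 0, a.2.1, fun y => a.2.2 - pr (w2 a.1 y) a.2.1, ?_⟩
  rintro ⟨y, w, z⟩
  simp only [act, mu]
  refine Prod.ext (add_comm _ _) (Prod.ext ?_ ?_)
  · funext i j k
    simp only [w3, Pi.add_apply, Pi.sub_apply, Pi.zero_apply]
    ring
  · simp only [pr, Pi.add_apply, Pi.sub_apply, Pi.zero_apply]
    ring

theorem id_act : ∃ x b u p, ∀ q, q = act x b u p q := by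
  obtain ⟨x, b, u, p, h⟩ := mu_act 0
  exact ⟨x, b, u, p, fun q => by rw [← h, zero_mu]⟩

theorem act_zero {x : V} {b : B} {u : W} {p : V → F} (h : act x b u p 0 = 0) :
    x = 0 ∧ u = 0 := by
  simp only [act, Prod.ext_iff] at h
  obtain ⟨h1, h2, -⟩ := h
  have hx : x = 0 := by simpa using h1
  refine ⟨hx, ?_⟩
  funext i j k
  have := congrFun (congrFun (congrFun h2 i) j) k
  simpa [th, w3] using this

theorem act_comm (b1 b2 : B) (p1 p2 : V → F) (q : Q) :
    act 0 b1 0 p1 (act 0 b2 0 p2 q) = act 0 b2 0 p2 (act 0 b1 0 p1 q) := by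
  obtain ⟨y, w, z⟩ := q
  simp only [act, add_zero]
  refine Prod.ext rfl (Prod.ext ?_ ?_)
  · simp only; abel
  · simp only [pr, w2, w3, th, Pi.add_apply, Pi.sub_apply, Pi.zero_apply]
    ring

def ee (i : Fin 5) : Q := (Pi.single i 1, 0, 0)

theorem not_central (c : Q) (h1 : mu (mu c (ee 3)) (ee 4) = mu c (mu (ee 3) (ee 4)))
    (h2 : mu (mu (ee 0) (ee 1)) (ee 2) = mu (mu (ee 0) (mu (ee 1) (ee 2))) c) : False := by
  obtain ⟨x, w, z⟩ := c
  simp only [mu, ee, Prod.ext_iff] at h1 h2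
  have hx : x = 0 := by
    have := h2.1
    rw [add_assoc] at this
    simpa using this
  subst hx
  have h3 := congrFun (congrFun (congrFun h2.2.1 0) 1) 2
  have h4 := h1.2.2
  simp [th, pr, w2] at h3 h4
  rw [h4] at h3
  revert h3
  decide

/-- There is a finite loop of odd order whose inner mapping group (identity-stabilizer in the group generated by all translations) is abelian, yet the quotient by its centre is not an abelian group, i.e. its nilpotency class is not at most two. -/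
theorem result :
    ∃ (n : ℕ) (mul : Fin n → Fin n → Fin n) (e : Fin n),
      Odd n ∧
      (∀ x, mul e x = x ∧ mul x e = x) ∧
      (∀ a b, ∃! x, mul a x = b) ∧
      (∀ a b, ∃! y, mul y a = b) ∧
      (∀ σ ∈ Subgroup.closure
          {π : Equiv.Perm (Fin n) | ∃ a, (∀ x, π x = mul a x) ∨ (∀ x, π x = mul x a)},
        ∀ τ ∈ Subgroup.closure
          {π : Equiv.Perm (Fin n) | ∃ a, (∀ x, π x = mul a x) ∨ (∀ x, π x = mul x a)},
          σ e = e → τ e = e → σ * τ = τ * σ) ∧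
      ¬ ((∀ x y, ∃ c,
            (∀ u v, mul c u = mul u c ∧
              mul (mul c u) v = mul c (mul u v) ∧
              mul (mul u c) v = mul u (mul c v) ∧
              mul (mul u v) c = mul u (mul v c)) ∧
            mul x y = mul (mul y x) c) ∧
         (∀ x y w, ∃ c,
            (∀ u v, mul c u = mul u c ∧
              mul (mul c u) v = mul c (mul u v) ∧
              mul (mul u c) v = mul u (mul c v) ∧
              mul (mul u v) c = mul u (mul v c)) ∧
            mul (mul x y) w = mul (mul x (mul y w)) c)) := by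
  classical
  obtain ⟨n, hn, ⟨E⟩⟩ : ∃ n : ℕ, Odd n ∧ Nonempty (Q ≃ Fin n) := by
    refine ⟨Fintype.card Q, ?_, ⟨Fintype.equivFin Q⟩⟩
    simp only [Fintype.card_prod, Fintype.card_fun, ZMod.card]
    exact (Odd.pow (by decide)).mul ((Odd.pow (Odd.pow (Odd.pow (by decide)))).mul (by decide))
  have hu : ∀ a b : Fin n, ∃! x, E (mu (E.symm a) (E.symm x)) = b := by
    intro a b
    obtain ⟨x, hx1, hx2⟩ := mu_uniq (E.symm a) (E.symm b)
    refine ⟨E x, by simp [hx1], ?_⟩
    intro y hy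
    rw [← hx2 (E.symm y) (by rw [← hy]; simp)]
    simp
  have hc : ∀ σ ∈ Subgroup.closure {π : Equiv.Perm (Fin n) | ∃ a,
      (∀ x, π x = E (mu (E.symm a) (E.symm x))) ∨ (∀ x, π x = E (mu (E.symm x) (E.symm a)))},
      ∃ x b u p, ∀ q, σ (E q) = E (act x b u p q) := by
    intro σ hσ
    rw [← Subgroup.mem_toSubmonoid, Subgroup.closure_toSubmonoid_of_finite] at hσ
    induction hσ using Submonoid.closure_induction with
    | mem π hπ =>
      obtain ⟨a, ha⟩ := hπ
      obtain ⟨x, b, u, p, h⟩ := mu_act (E.symm a)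
      refine ⟨x, b, u, p, fun q => ?_⟩
      rcases ha with ha | ha
      · rw [ha, E.symm_apply_apply, h]
      · rw [ha, E.symm_apply_apply, mu_comm, h]
    | one =>
      obtain ⟨x, b, u, p, h⟩ := id_act
      exact ⟨x, b, u, p, fun q => by rw [← h]; rfl⟩
    | mul σ τ _ _ h1 h2 =>
      obtain ⟨x2, b2, u2, p2, h1⟩ := h1
      obtain ⟨x1, b1, u1, p1, h2⟩ := h2
      obtain ⟨x, b, u, p, h⟩ := act_act x1 x2 b1 b2 u1 u2 p1 p2
      exact ⟨x, b, u, p, fun q => by rw [Equiv.Perm.mul_apply, h2, h1, h]⟩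
  refine ⟨n, fun a b => E (mu (E.symm a) (E.symm b)), E 0, hn, ?_, hu, ?_, ?_, ?_⟩
  · intro x
    constructor
    · simp [zero_mu]
    · beta_reduce; rw [mu_comm]; simp [zero_mu]
  · intro a b
    simpa only [mu_comm (E.symm a)] using hu a b
  · intro σ hσ τ hτ h1 h2
    obtain ⟨x1, b1, u1, p1, k1⟩ := hc σ hσ
    obtain ⟨x2, b2, u2, p2, k2⟩ := hc τ hτ
    rw [k1, E.apply_eq_iff_eq] at h1
    rw [k2, E.apply_eq_iff_eq] at h2
    obtain ⟨rfl, rfl⟩ := act_zero h1
    obtain ⟨rfl, rfl⟩ := act_zero h2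
    ext a
    obtain ⟨q, rfl⟩ := E.surjective a
    simp only [Equiv.Perm.mul_apply, k1, k2, act_comm b1 b2]
  · rintro ⟨-, h⟩
    obtain ⟨c, h1, h2⟩ := h (E (ee 0)) (E (ee 1)) (E (ee 2))
    have h3 := (h1 (E (ee 3)) (E (ee 4))).2.1
    simp only [Equiv.symm_apply_apply, E.apply_eq_iff_eq] at h2 h3
    exact not_central _ h3 h2

end Pool.Agent.S01599
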