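import Pool.Statements.S01635
-- import your own Pool.Agent.* helpers here

set_option autoImplicit false
open Pool Pool.MP_5ee74f_al

namespace Pool.Agent.S01635

open Topology Filter Set Pointwise

section integral

variable {X : Type} [TopologicalSpace X] [CompactSpace X]

open Classical in
/-- indicator of a fibre -/
noncomputable def ind {A : Type} (f : LocallyConstant X A) (c : A) : LocallyConstant X ℤ :=
  f.map fun a => if a = c then 1 else 0

open Classical in
lemma ind_apply {A : Type} (f : LocallyConstant X A) (c : A) (x : X) :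
    ind f c x = if f x = c then 1 else 0 := rfl

/-- the finite range -/
noncomputable def rg {A : Type} (f : LocallyConstant X A) : Finset A := f.range_finite.toFinset

lemma mem_rg {A : Type} (f : LocallyConstant X A) (c : A) : c ∈ rg f ↔ ∃ x, f x = c := by
  simp [rg]

/-- integral of a locally constant function against an integer functional -/
noncomputable def I {A : Type} [AddCommGroup A] (l : LocallyConstant X ℤ →+ ℤ)
    (f : LocallyConstant X A) : A :=
  ∑ c ∈ rg f, l (ind f c) • c

lemma I_map {A B : Type} [AddCommGroup A] [AddCommGroup B] (l : LocallyConstant X ℤ →+ ℤ)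
    (f : LocallyConstant X A) (h : A →+ B) : I l (f.map h) = h (I l f) := by
  classical
  unfold I
  rw [map_sum, ← Finset.sum_fiberwise_of_maps_to (s := rg f) (t := rg (f.map h)) (g := h)]
  · refine Finset.sum_congr rfl fun d _ => ?_
    have h1 : ind (f.map h) d = ∑ c ∈ (rg f).filter (fun c => h c = d), ind f c := by
      ext x
      have : (∑ c ∈ (rg f).filter (fun c => h c = d), ind f c) x
          = ∑ c ∈ (rg f).filter (fun c => h c = d), ind f c x :=
        map_sum (LocallyConstant.evalRingHom x) _ _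
      rw [this, ind_apply]
      simp only [ind_apply]
      rw [Finset.sum_ite_eq]
      have hx : f x ∈ rg f := (mem_rg f _).2 ⟨x, rfl⟩
      simp only [Finset.mem_filter, hx, true_and]
      rfl
    rw [h1, map_sum, Finset.sum_smul]
    refine Finset.sum_congr rfl fun c hc => ?_
    rw [map_zsmul, (Finset.mem_filter.1 hc).2]
  · intro c hc
    obtain ⟨x, rfl⟩ := (mem_rg f c).1 hc
    exact (mem_rg _ _).2 ⟨x, rfl⟩

lemma I_sub_mem {A : Type} [AddCommGroup A] (l : LocallyConstant X ℤ →+ ℤ)
    (f g : LocallyConstant X A) (U : AddSubgroup A) (h : ∀ x, f x - g x ∈ U) :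
    I l f - I l g ∈ U := by
  let p : LocallyConstant X (A × A) := ⟨fun x => (f x, g x), f.2.prodMk g.2⟩
  have h1 : f = p.map (AddMonoidHom.fst A A) := rfl
  have h2 : g = p.map (AddMonoidHom.snd A A) := rfl
  rw [h1, h2, I_map, I_map, ← AddMonoidHom.sub_apply, I, map_sum]
  refine U.sum_mem fun c hc => ?_
  obtain ⟨x, rfl⟩ := (mem_rg p c).1 hc
  rw [map_zsmul]
  exact U.zsmul_mem (h x) _

lemma I_basis {A : Type} [AddCommGroup A] {ι : Type} (b : Module.Basis ι ℤ (LocallyConstant X ℤ))
    (f : LocallyConstant X A) :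
    ∃ T : Finset ι, (∀ i ∉ T, I (b.coord i).toAddMonoidHom f = 0) ∧
      ∀ T' : Finset ι, T ⊆ T' → ∀ x, ∑ i ∈ T', b i x • I (b.coord i).toAddMonoidHom f = f x := by
  classical
  refine ⟨(rg f).biUnion fun c => (b.repr (ind f c)).support, fun i hi => ?_, fun T' hT x => ?_⟩
  · refine Finset.sum_eq_zero fun c hc => ?_
    have : b.repr (ind f c) i = 0 := by
      by_contra h
      exact hi (Finset.mem_biUnion.2 ⟨c, hc, Finsupp.mem_support_iff.2 h⟩)
    simp [this]
  · simp only [I, Finset.smul_sum]
    rw [Finset.sum_comm]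
    have key : ∀ c ∈ rg f, ∑ i ∈ T', b i x • (b.coord i).toAddMonoidHom (ind f c) • c
        = ind f c x • c := by
      intro c hc
      simp only [smul_smul]
      rw [← Finset.sum_smul]
      congr 1
      have h1 : ∑ i ∈ T', b.repr (ind f c) i • b i = ind f c := by
        have h2 := b.linearCombination_repr (ind f c)
        rw [Finsupp.linearCombination_apply, Finsupp.sum_of_support_subset (s := T')] at h2
        · exact h2
        · exact fun i hi => hT (Finset.mem_biUnion.2 ⟨c, hc, hi⟩)
        · intro i _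
          simp
      have h3 : (∑ i ∈ T', b.repr (ind f c) i • b i) x
          = ∑ i ∈ T', (b.repr (ind f c) i • b i) x :=
        map_sum (LocallyConstant.evalRingHom x) _ _
      rw [h1] at h3
      rw [h3]
      refine Finset.sum_congr rfl fun i _ => ?_
      rw [LocallyConstant.smul_apply, smul_eq_mul, mul_comm]
      rfl
    rw [Finset.sum_congr rfl key]
    simp only [ind_apply, ite_smul, one_smul, zero_smul]
    rw [Finset.sum_ite_eq, if_pos ((mem_rg f _).2 ⟨x, rfl⟩)]

end integral

variable {G : Type} [AddCommGroup G] [UniformSpace G] [IsUniformAddGroup G]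
  [T2Space G] [CompleteSpace G] [NonarchimedeanAddGroup G]

lemma eq_zero_of_forall (x : G) (h : ∀ U : OpenAddSubgroup G, x ∈ U) : x = 0 := by
  by_contra hx
  obtain ⟨U, hU⟩ := NonarchimedeanAddGroup.is_nonarchimedean ({x}ᶜ : Set G)
    (isOpen_compl_singleton.mem_nhds (fun h0 => hx (mem_singleton_iff.1 h0).symm))
  exact hU (h U) rfl

/-- iterated sums -/
def L (K : Set G) : ℕ → Set G
  | 0 => {0}
  | m + 1 => L K m + (K ∪ -K)

omit [T2Space G] [CompleteSpace G] [NonarchimedeanAddGroup G] in
lemma L_compact {K : Set G} (hK : IsCompact K) : ∀ m, IsCompact (L K m)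
  | 0 => isCompact_singleton
  | m + 1 => (L_compact hK m).add (hK.union hK.neg)

lemma null_seq {K : Set G} (hK : IsCompact K) (hgen : AddSubgroup.closure K = ⊤)
    (hcf : ∀ H : AddSubgroup G, IsCompact (H : Set G) → H = ⊥) (g : ℕ → G)
    (hg : ∀ U : OpenAddSubgroup G, ∃ N, ∀ n, N ≤ n → g n ∈ U) :
    ∃ N, ∀ n, N ≤ n → g n = 0 := by
  have hs : ∀ a : ℕ → ℤ, Summable fun n => a n • g n := fun a => by
    apply NonarchimedeanAddGroup.summable_of_tendsto_cofinite_zero
    rw [Nat.cofinite_eq_atTop]
    intro s hs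
    obtain ⟨U, hU⟩ := NonarchimedeanAddGroup.is_nonarchimedean s hs
    obtain ⟨N, hN⟩ := hg U
    rw [mem_map, mem_atTop_sets]
    exact ⟨N, fun n hn => hU (U.toAddSubgroup.zsmul_mem (hN n hn) _)⟩
  let Φ : (ℕ → ℤ) →+ G :=
    { toFun := fun a => ∑' n, a n • g n
      map_zero' := by simp
      map_add' := fun a b => by
        simp only [Pi.add_apply, add_smul]
        exact (hs a).tsum_add (hs b) }
  have hΦ : Continuous Φ := by
    apply continuous_of_continuousAt_zero
    intro s hs
    rw [map_zero] at hs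
    obtain ⟨U, hU⟩ := NonarchimedeanAddGroup.is_nonarchimedean s hs
    obtain ⟨N, hN⟩ := hg U
    have h1 : ∀ᶠ a : ℕ → ℤ in 𝓝 0, ∀ n ∈ Finset.range N, a n = 0 := by
      rw [eventually_all_finset]
      intro n _
      have : ContinuousAt (fun a : ℕ → ℤ => a n) 0 := (continuous_apply n).continuousAt
      exact this ((isOpen_discrete {0}).mem_nhds rfl)
    rw [mem_map]
    filter_upwards [h1] with a ha
    apply hU
    refine tsum_mem (s := U.toAddSubgroup) U.isClosed fun n => ?_
    by_cases hn : n < N
    · rw [ha n (Finset.mem_range.2 hn), zero_smul]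
      exact zero_mem _
    · exact U.toAddSubgroup.zsmul_mem (hN n (by omega)) _
  have hcover : ∀ x : G, ∃ m, x ∈ L K m := fun x => by
    have hx : x ∈ AddSubgroup.closure K := hgen ▸ AddSubgroup.mem_top x
    induction hx using AddSubgroup.closure_induction_right with
    | zero => exact ⟨0, rfl⟩
    | add_right x _ y hy ih =>
      obtain ⟨m, hm⟩ := ih
      exact ⟨m + 1, add_mem_add hm (Or.inl hy)⟩
    | add_neg_cancel x _ y hy ih =>
      obtain ⟨m, hm⟩ := ih
      exact ⟨m + 1, add_mem_add hm (Or.inr (neg_mem_neg.2 hy))⟩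
  obtain ⟨m, a, ha⟩ := nonempty_interior_of_iUnion_of_closed (f := fun m => Φ ⁻¹' L K m)
    (fun m => (L_compact hK m).isClosed.preimage hΦ)
    (eq_univ_of_forall fun a => mem_iUnion.2 (hcover (Φ a)))
  rw [mem_interior_iff_mem_nhds, nhds_pi, Filter.mem_pi] at ha
  obtain ⟨J, hJ, t, ht, hsub⟩ := ha
  obtain ⟨N, hN⟩ := hJ.bddAbove
  refine ⟨N + 1, fun n hn => ?_⟩
  have hmem : ∀ k : ℤ, Φ a + k • g n ∈ L K m := fun k => by
    have h1 : a + Pi.single n k ∈ J.pi t := fun i hi => by
      have : i ≠ n := by
        have := hN hi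
        omega
      rw [Pi.add_apply, Pi.single_eq_of_ne this, add_zero]
      exact mem_of_mem_nhds (ht i)
    have h2 := hsub h1
    rw [mem_preimage, map_add] at h2
    have h3 : Φ (Pi.single n k) = k • g n := by
      change ∑' j, (Pi.single n k : ℕ → ℤ) j • g j = _
      rw [tsum_eq_single n]
      · simp
      · intro j hj
        simp [Pi.single_eq_of_ne hj]
    rwa [h3] at h2
  have hc : IsCompact ((AddSubgroup.zmultiples (g n)).topologicalClosure : Set G) := by
    have h1 : IsCompact ((fun y => y - Φ a) '' L K m) :=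
      (L_compact hK m).image (continuous_id.sub continuous_const)
    refine h1.of_isClosed_subset (AddSubgroup.isClosed_topologicalClosure _) ?_
    refine closure_minimal ?_ h1.isClosed
    rintro _ ⟨k, rfl⟩
    exact ⟨_, hmem k, by simp⟩
  have h2 := hcf _ hc
  have h3 : g n ∈ (AddSubgroup.zmultiples (g n)).topologicalClosure :=
    AddSubgroup.le_topologicalClosure _ (AddSubgroup.mem_zmultiples _)
  rwa [h2, AddSubgroup.mem_bot] at h3

/-- locally constant approximation of the inclusion -/
noncomputable def r (K : Set G) (U : OpenAddSubgroup G) : LocallyConstant K G :=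
  ⟨fun k => (QuotientAddGroup.mk (s := U.toAddSubgroup) (k : G)).out, by
    have : IsLocallyConstant fun k : K => QuotientAddGroup.mk (s := U.toAddSubgroup) (k : G) := by
      rw [IsLocallyConstant.iff_eventually_eq]
      intro x
      have h1 : ContinuousAt (fun y : K => -(y : G) + (x : G)) x := by fun_prop
      have h2 : (U : Set G) ∈ 𝓝 (-(x : G) + (x : G)) := by
        rw [neg_add_cancel]
        exact U.mem_nhds_zero
      filter_upwards [h1 h2] with y hy
      exact QuotientAddGroup.eq.2 hy
    exact this.comp _⟩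

omit [T2Space G] [CompleteSpace G] in
lemma r_spec (K : Set G) (U : OpenAddSubgroup G) (k : K) : r K U k - k ∈ U := by
  have : -(k : G) + r K U k ∈ U.toAddSubgroup := by
    rw [← QuotientAddGroup.eq]
    exact (Quotient.out_eq _).symm
  rwa [neg_add_eq_sub] at this

omit [T2Space G] in
lemma exists_lim (K : Set G) [CompactSpace K] (l : LocallyConstant K ℤ →+ ℤ) :
    ∃ g : G, ∀ U : OpenAddSubgroup G, g - I l (r K U) ∈ U := by
  have hdiff : ∀ U V W : OpenAddSubgroup G, V ≤ U → W ≤ U → I l (r K V) - I l (r K W) ∈ U := by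
    intro U V W hV hW
    refine I_sub_mem l _ _ U.toAddSubgroup fun k => ?_
    have := U.toAddSubgroup.sub_mem (hV (r_spec K V k)) (hW (r_spec K W k))
    simpa using this
  have hc : Cauchy (map (fun U : OpenAddSubgroup G => I l (r K U)) atBot) := by
    rw [IsUniformAddGroup.cauchy_map_iff_tendsto]
    refine ⟨inferInstance, fun s hs => ?_⟩
    obtain ⟨U, hU⟩ := NonarchimedeanAddGroup.is_nonarchimedean s hs
    rw [mem_map]
    filter_upwards [prod_mem_prod (Iic_mem_atBot U) (Iic_mem_atBot U)] with p hp
    exact hU (hdiff U _ _ hp.1 hp.2)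
  obtain ⟨g, hg⟩ := CompleteSpace.complete hc
  refine ⟨g, fun U => ?_⟩
  have h1 : Tendsto (fun V : OpenAddSubgroup G => I l (r K V) - I l (r K U)) atBot
      (𝓝 (g - I l (r K U))) := Tendsto.sub_const hg _
  refine U.isClosed.mem_of_tendsto h1 ?_
  filter_upwards [Iic_mem_atBot U] with V hV
  exact hdiff U _ _ hV le_rfl

lemma fg {K : Set G} (hK : IsCompact K) (hgen : AddSubgroup.closure K = ⊤)
    (hcf : ∀ H : AddSubgroup G, IsCompact (H : Set G) → H = ⊥) : Module.Finite ℤ G := by
  classical
  haveI : CompactSpace K := isCompact_iff_compactSpace.1 hK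
  haveI : Module.Free ℤ (LocallyConstant K ℤ) := LocallyConstant.freeOfProfinite (Profinite.of K)
  let b := Module.Free.chooseBasis ℤ (LocallyConstant K ℤ)
  choose g hg using fun i => exists_lim K (b.coord i).toAddMonoidHom
  have hfin : {i | g i ≠ 0}.Finite := by
    by_contra hinf
    have hinf : {i | g i ≠ 0}.Infinite := hinf
    let e := hinf.natEmbedding
    obtain ⟨N, hN⟩ := null_seq hK hgen hcf (fun n => g (e n)) fun U => by
      obtain ⟨T, hT, -⟩ := I_basis b (r K U)
      have h1 : {n : ℕ | (e n).1 ∈ T}.Finite :=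
        T.finite_toSet.preimage (Subtype.val_injective.comp e.injective).injOn
      obtain ⟨N, hN⟩ := h1.bddAbove
      refine ⟨N + 1, fun n hn => ?_⟩
      have h2 : (e n).1 ∉ T := fun h => by
        have := hN h
        omega
      have h3 := hg (e n) U
      rwa [hT _ h2, sub_zero] at h3
    exact (e N).2 (hN N le_rfl)
  have hk : ∀ k : K, (k : G) = ∑ i ∈ hfin.toFinset, b i k • g i := fun k => by
    rw [← sub_eq_zero]
    refine eq_zero_of_forall _ fun U => ?_
    obtain ⟨T, -, hT⟩ := I_basis b (r K U)
    have h1 : ∑ i ∈ hfin.toFinset, b i k • g i = ∑ i ∈ T ∪ hfin.toFinset, b i k • g i := by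
      refine Finset.sum_subset Finset.subset_union_right fun i _ hi => ?_
      have : g i = 0 := by simpa using hi
      rw [this, smul_zero]
    have h2 := hT (T ∪ hfin.toFinset) Finset.subset_union_left k
    have h3 : ∑ i ∈ T ∪ hfin.toFinset, b i k • g i - r K U k ∈ U.toAddSubgroup := by
      rw [← h2, ← Finset.sum_sub_distrib]
      refine AddSubgroup.sum_mem _ fun i _ => ?_
      rw [← smul_sub]
      exact U.toAddSubgroup.zsmul_mem (hg i U) _
    have h4 := U.toAddSubgroup.neg_mem (U.toAddSubgroup.add_mem h3 (r_spec K U k))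
    rw [h1]
    simpa using h4
  refine ⟨⟨hfin.toFinset.image g, ?_⟩⟩
  rw [eq_top_iff]
  intro x _
  have hx : x ∈ AddSubgroup.closure K := hgen ▸ AddSubgroup.mem_top x
  have : AddSubgroup.closure K ≤ (Submodule.span ℤ (hfin.toFinset.image g : Set G)).toAddSubgroup := by
    rw [AddSubgroup.closure_le]
    intro k hkK
    have := hk ⟨k, hkK⟩
    simp only at this
    rw [this]
    refine Submodule.sum_mem _ fun i hi => Submodule.smul_mem _ _ (Submodule.subset_span ?_)
    exact Finset.mem_coe.2 (Finset.mem_image_of_mem g hi)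
  exact this hx

lemma disc {K : Set G} (hK : IsCompact K) (hgen : AddSubgroup.closure K = ⊤)
    (hcf : ∀ H : AddSubgroup G, IsCompact (H : Set G) → H = ⊥) : DiscreteTopology G := by
  haveI := fg hK hgen hcf
  haveI : Countable G := Finsupp.Countable.of_moduleFinite (R := ℤ)
  haveI : Countable (Submodule ℤ G) := by
    refine Function.Surjective.countable (f := fun s : Finset G => Submodule.span ℤ (s : Set G)) ?_
    intro S
    exact IsNoetherian.noetherian S
  haveI : Countable (OpenAddSubgroup G) := by
    refine Function.Injective.countable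
      (f := fun U : OpenAddSubgroup G => AddSubgroup.toIntSubmodule U.toAddSubgroup) ?_
    exact AddSubgroup.toIntSubmodule.injective.comp OpenAddSubgroup.toAddSubgroup_injective
  obtain ⟨u, hu⟩ := exists_surjective_nat (OpenAddSubgroup G)
  by_contra hd
  have h1 : ∀ U : OpenAddSubgroup G, ∃ x ∈ U, x ≠ 0 := fun U => by
    by_contra h
    push Not at h
    apply hd
    rw [discreteTopology_iff_isOpen_singleton_zero]
    convert U.isOpen using 1
    ext x
    exact ⟨fun hx => (mem_singleton_iff.1 hx) ▸ zero_mem U, fun hx => h x hx⟩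
  choose g hg hg0 using fun n => h1 ((Finset.range (n + 1)).inf u)
  obtain ⟨N, hN⟩ := null_seq hK hgen hcf g fun U => by
    obtain ⟨N, rfl⟩ := hu U
    refine ⟨N, fun n hn => ?_⟩
    have : (Finset.range (n + 1)).inf u ≤ u N := Finset.inf_le (Finset.mem_range.2 (by omega))
    exact this (hg n)
  exact hg0 N (hN N le_rfl)

/-- Every complete Hausdorff abelian group with a basis of open subgroups at 0, generated by a compact set, and with no nontrivial compact subgroups, is discrete and isomorphic to Z^n for some n. -/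
theorem result :
    ∀ (G : Type) [AddCommGroup G] [UniformSpace G] [IsUniformAddGroup G]
      [T2Space G] [CompleteSpace G],
      (∀ s ∈ nhds (0 : G), ∃ U : AddSubgroup G, IsOpen (U : Set G) ∧ (U : Set G) ⊆ s) →
      (∃ K : Set G, IsCompact K ∧ AddSubgroup.closure K = ⊤) →
      (∀ H : AddSubgroup G, IsCompact (H : Set G) → H = ⊥) →
      DiscreteTopology G ∧ ∃ n : ℕ, Nonempty (G ≃+ (Fin n → ℤ)) := by
  intro G _ _ _ _ _ hU hK hcf
  obtain ⟨K, hK, hgen⟩ := hK
  haveI : NonarchimedeanAddGroup G := ⟨fun s hs => by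
    obtain ⟨U, hU1, hU2⟩ := hU s hs
    exact ⟨⟨U, hU1⟩, hU2⟩⟩
  refine ⟨disc hK hgen hcf, ?_⟩
  haveI := fg hK hgen hcf
  haveI : IsAddTorsionFree G := by
    rw [isAddTorsionFree_iff_not_isOfFinAddOrder]
    intro x hx hfin
    have h1 := hcf (AddSubgroup.zmultiples x) hfin.finite_zmultiples.isCompact
    exact hx (AddSubgroup.zmultiples_eq_bot.1 h1)
  exact ⟨_, ⟨(Module.finBasis ℤ G).equivFun.toAddEquiv⟩⟩

end Pool.Agent.S01635
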