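import Pool.Statements.S01712

set_option autoImplicit false
open Pool Pool.MP_63a718_al

namespace Pool.Agent.S01712

/-- the Klein bottle group -/
@[ext] structure K where
  x : ℤ
  y : ℤ

def sg (y : ℤ) : ℤ := if Even y then 1 else -1

lemma sg_add (a b : ℤ) : sg (a + b) = sg a * sg b := by
  unfold sg
  by_cases ha : Even a <;> by_cases hb : Even b <;> simp [Int.even_add, ha, hb]

lemma sg_neg (a : ℤ) : sg (-a) = sg a := by simp [sg]

lemma sg_sq (a : ℤ) : sg a * sg a = 1 := by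
  unfold sg; split_ifs <;> simp

lemma sg_zero : sg 0 = 1 := by simp [sg]

instance : Mul K := ⟨fun a b => ⟨a.x + sg a.y * b.x, a.y + b.y⟩⟩
instance : One K := ⟨⟨0, 0⟩⟩
instance : Inv K := ⟨fun a => ⟨-(sg a.y * a.x), -a.y⟩⟩

@[simp] lemma mul_x (a b : K) : (a * b).x = a.x + sg a.y * b.x := rfl
@[simp] lemma mul_y (a b : K) : (a * b).y = a.y + b.y := rfl
@[simp] lemma one_x : (1 : K).x = 0 := rfl
@[simp] lemma one_y : (1 : K).y = 0 := rfl
@[simp] lemma inv_x (a : K) : (a⁻¹).x = -(sg a.y * a.x) := rfl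
@[simp] lemma inv_y (a : K) : (a⁻¹).y = -a.y := rfl

instance : Group K := Group.ofLeftAxioms
  (fun a b c => by ext <;> simp [sg_add] <;> ring)
  (fun a => by ext <;> simp [sg_zero])
  (fun a => by ext <;> simp [sg_neg])

/-- allowed values at position j -/
def S (j : ℤ) (a : K) : Prop := (j < 0 → a = 1) ∧ (j = 0 → Even a.y)

/-- positive cone at position j -/
def c (j : ℤ) (a : K) : Prop :=
  if j = 0 then (0 < a.x ∨ (a.x = 0 ∧ 0 < a.y)) else (0 < a.y ∨ (a.y = 0 ∧ 0 < a.x))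

lemma S_one (j : ℤ) : S j 1 := ⟨fun _ => rfl, fun _ => by simp⟩

lemma S_mul {j : ℤ} {a b : K} (ha : S j a) (hb : S j b) : S j (a * b) :=
  ⟨fun h => by rw [ha.1 h, hb.1 h, mul_one], fun h => by
    rw [mul_y]; exact (ha.2 h).add (hb.2 h)⟩

lemma S_inv {j : ℤ} {a : K} (ha : S j a) : S j a⁻¹ :=
  ⟨fun h => by rw [ha.1 h, inv_one], fun h => by rw [inv_y]; exact (ha.2 h).neg⟩

lemma c_one (j : ℤ) : ¬ c j 1 := by
  unfold c; split_ifs <;> simp

lemma c_mul {j : ℤ} {a b : K} (ha : S j a) (h1 : c j a) (h2 : c j b) : c j (a * b) := by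
  unfold c at *
  split_ifs at * with h
  · have : sg a.y = 1 := by simp [sg, ha.2 h]
    simp only [mul_x, mul_y, this]
    omega
  · simp only [mul_x, mul_y]
    rcases h1 with h1 | ⟨h1, h1'⟩
    · omega
    · rw [h1, sg_zero]; omega

lemma c_tot {j : ℤ} {a : K} (ha : S j a) (h : a ≠ 1) : c j a ∨ c j a⁻¹ := by
  have h' : a.x ≠ 0 ∨ a.y ≠ 0 := by
    by_contra hc
    push Not at hc
    exact h (K.ext hc.1 hc.2)
  unfold c
  split_ifs with hj
  · have : sg a.y = 1 := by simp [sg, ha.2 hj]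
    simp only [inv_x, inv_y, this]
    omega
  · simp only [inv_x, inv_y]
    by_cases hy : a.y = 0
    · rw [hy, sg_zero]; omega
    · omega

/-- wreath product of K by the integers, with supports bounded below -/
@[ext] structure W where
  f : ℤ → K
  n : ℤ
  h : ∃ N : ℤ, ∀ i < N, f i = 1

instance : Mul W := ⟨fun a b => ⟨fun i => a.f i * b.f (i - a.n), a.n + b.n, by
  obtain ⟨N, hN⟩ := a.h
  obtain ⟨M, hM⟩ := b.h
  exact ⟨min N (M + a.n), fun i hi => by
    rw [hN i (by omega), hM (i - a.n) (by omega), mul_one]⟩⟩⟩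
instance : One W := ⟨⟨fun _ => 1, 0, ⟨0, fun _ _ => rfl⟩⟩⟩
instance : Inv W := ⟨fun a => ⟨fun i => (a.f (i + a.n))⁻¹, -a.n, by
  obtain ⟨N, hN⟩ := a.h
  exact ⟨N - a.n, fun i hi => by rw [hN _ (by omega), inv_one]⟩⟩⟩

@[simp] lemma mul_f (a b : W) (i : ℤ) : (a * b).f i = a.f i * b.f (i - a.n) := rfl
@[simp] lemma mul_n (a b : W) : (a * b).n = a.n + b.n := rfl
@[simp] lemma one_f (i : ℤ) : (1 : W).f i = 1 := rfl
@[simp] lemma one_n : (1 : W).n = 0 := rfl
@[simp] lemma inv_f (a : W) (i : ℤ) : (a⁻¹).f i = (a.f (i + a.n))⁻¹ := rfl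
@[simp] lemma inv_n (a : W) : (a⁻¹).n = -a.n := rfl

instance : Group W := Group.ofLeftAxioms
  (fun a b d => by
    refine W.ext (funext fun i => ?_) (by simp [add_assoc])
    simp only [mul_f, mul_n, mul_assoc, sub_sub])
  (fun a => W.ext (funext fun i => by simp) (by simp))
  (fun a => W.ext (funext fun i => by simp) (by simp))

def lexpos (f : ℤ → K) : Prop := ∃ j, (∀ i < j, f i = 1) ∧ c j (f j)

def P (a : W) : Prop := (∀ j, S j (a.f j)) ∧ (0 < a.n ∨ (a.n = 0 ∧ (a = 1 ∨ lexpos a.f)))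

lemma P_one : P 1 := ⟨fun j => S_one j, Or.inr ⟨rfl, Or.inl rfl⟩⟩

lemma S_shift {b : W} (hb : ∀ j, S j (b.f j)) {n : ℤ} (hn : 0 ≤ n) (j : ℤ) : S j (b.f (j - n)) := by
  rcases hn.eq_or_lt with rfl | hn
  · simpa using hb j
  · exact ⟨fun h => (hb _).1 (by omega), fun h => by rw [(hb (j - n)).1 (by omega)]; simp⟩

lemma lexpos_mul {f g : ℤ → K} (hf : ∀ j, S j (f j)) (h1 : lexpos f) (h2 : lexpos g) :
    lexpos (fun i => f i * g i) := by
  obtain ⟨j, hj, hc⟩ := h1
  obtain ⟨k, hk, hd⟩ := h2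
  rcases lt_trichotomy j k with h | h | h
  · exact ⟨j, fun i hi => by simp [hj i hi, hk i (by omega)], by simpa [hk j h] using hc⟩
  · subst h
    exact ⟨j, fun i hi => by simp [hj i hi, hk i hi], c_mul (hf j) hc hd⟩
  · exact ⟨k, fun i hi => by simp [hj i (by omega), hk i hi], by simpa [hj k h] using hd⟩

lemma P_mul {a b : W} (ha : P a) (hb : P b) : P (a * b) := by
  have hn : 0 ≤ a.n := by rcases ha.2 with h | h <;> omega
  refine ⟨fun j => S_mul (ha.1 j) (S_shift hb.1 hn j), ?_⟩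
  rcases ha.2 with h | ⟨h, h'⟩
  · left
    rcases hb.2 with k | k <;> simp only [mul_n] <;> omega
  · rcases hb.2 with k | ⟨k, k'⟩
    · left; simp only [mul_n]; omega
    · right
      refine ⟨by simp [h, k], ?_⟩
      rcases h' with rfl | h'
      · simpa using k'
      · rcases k' with rfl | k'
        · simpa using Or.inr h'
        · right
          have := lexpos_mul ha.1 h' k'
          have e : (a * b).f = fun i => a.f i * b.f i := funext fun i => by simp [h]
          rwa [e]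

lemma not_lexpos_one : ¬ lexpos (fun _ => 1) := by
  rintro ⟨j, _, h⟩
  exact c_one j h

lemma P_anti {a : W} (ha : P a) (hb : P a⁻¹) : a = 1 := by
  rcases ha.2 with h | ⟨h, h'⟩
  · rcases hb.2 with k | k <;> simp only [inv_n] at k <;> omega
  · rcases hb.2 with k | ⟨k, k'⟩
    · simp only [inv_n] at k; omega
    · rcases h' with h' | h'
      · exact h'
      · rcases k' with k' | k'
        · exact inv_eq_one.1 k'
        · exfalso
          have := lexpos_mul ha.1 h' k'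
          apply not_lexpos_one
          have e : (fun i => a.f i * (a⁻¹).f i) = fun _ => 1 := funext fun i => by simp [h]
          rwa [e] at this

lemma P_tot0 {a : W} (hS : ∀ j, S j (a.f j)) (hn : a.n = 0) : P a ∨ P a⁻¹ := by
  by_cases h1 : a = 1
  · left; rw [h1]; exact P_one
  have hex : ∃ j, a.f j ≠ 1 := by
    by_contra hc
    push Not at hc
    exact h1 (W.ext (funext hc) hn)
  obtain ⟨N, hN⟩ := a.h
  obtain ⟨j, hj, hmin⟩ := Int.exists_least_of_bdd (P := fun j => a.f j ≠ 1)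
    ⟨N, fun z hz => by by_contra hc; exact hz (hN z (by omega))⟩ hex
  have hlt : ∀ i < j, a.f i = 1 := fun i hi => by
    by_contra hc
    have := hmin i hc
    omega
  rcases c_tot (hS j) hj with h | h
  · exact Or.inl ⟨hS, Or.inr ⟨hn, Or.inr ⟨j, hlt, h⟩⟩⟩
  · refine Or.inr ⟨fun i => by simpa [hn] using S_inv (hS i), Or.inr ⟨by simp [hn], Or.inr
      ⟨j, fun i hi => by simp [hn, hlt i hi], by simpa [hn] using h⟩⟩⟩

lemma S_div {a b : W} (ha : P a) (hb : P b) (h : b.n ≤ a.n) (j : ℤ) : S j ((a * b⁻¹).f j) := by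
  have e : (a * b⁻¹).f j = a.f j * (b.f (j - (a.n - b.n)))⁻¹ := by
    simp only [mul_f, inv_f]
    congr 3
    ring
  rw [e]
  exact S_mul (ha.1 j) (S_inv (S_shift hb.1 (by omega) j))

lemma P_chain {a b : W} (ha : P a) (hb : P b) : P (a * b⁻¹) ∨ P (b * a⁻¹) := by
  rcases lt_trichotomy a.n b.n with h | h | h
  · exact Or.inr ⟨S_div hb ha h.le, Or.inl (by simp only [mul_n, inv_n]; omega)⟩
  · have := P_tot0 (S_div ha hb h.ge) (by simp [h])
    simpa using this
  · exact Or.inl ⟨S_div ha hb h.le, Or.inl (by simp only [mul_n, inv_n]; omega)⟩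

lemma P_dir (g : W) : ∃ d, P d ∧ P (d * g) := by
  obtain ⟨N, hN⟩ := g.h
  let m : ℤ := |N| + |g.n| + 1
  have h1 := abs_nonneg N
  have h2 := abs_nonneg g.n
  have h3 := neg_abs_le N
  have h4 := neg_abs_le g.n
  refine ⟨⟨fun _ => 1, m, ⟨0, fun _ _ => rfl⟩⟩, ⟨fun j => S_one j, Or.inl (by
    show 0 < m
    omega)⟩, fun j => ?_, Or.inl (by
    show 0 < m + g.n
    omega)⟩
  show S j (1 * g.f (j - m))
  rw [one_mul]
  exact ⟨fun h => hN _ (by omega), fun h => by rw [hN _ (by omega)]; simp⟩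

def emb (k : K) : W := ⟨fun i => if i = 0 then k else 1, 0, ⟨0, fun i hi => by
  rw [if_neg (by omega)]⟩⟩

lemma emb_mul (k l : K) : emb k * emb l = emb (k * l) := by
  refine W.ext (funext fun i => ?_) rfl
  simp only [mul_f, emb, sub_zero]
  split_ifs <;> simp

lemma emb_one : emb 1 = 1 := W.ext (funext fun i => by simp [emb]) rfl

lemma P_emb (k : K) (h1 : Even k.y) (h2 : c 0 k) : P (emb k) := by
  refine ⟨fun j => ?_, Or.inr ⟨rfl, Or.inr ⟨0, fun i hi => ?_, ?_⟩⟩⟩
  · simp only [emb]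
    split_ifs with h
    · exact ⟨fun h' => by omega, fun _ => h1⟩
    · exact S_one j
  · simp only [emb]; rw [if_neg (by omega)]
  · simpa [emb] using h2

/-- Counterexample: the wreath product of the Klein bottle group by the integers. -/
theorem result :
    ¬ (∀ (G : Type) [Group G] (r : G → G → Prop),
      (∀ a : G, r a a) →
      (∀ a b : G, r a b → r b a → a = b) →
      (∀ a b c : G, r a b → r b c → r a c) →
      (∀ a b c : G, r a b → r (a * c) (b * c)) →
      (∀ a b : G, ∃ c : G, r a c ∧ r b c) →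
      (∀ a b : G, r 1 a → r 1 b → r a b ∨ r b a) →
      ∃ s : G → G → Prop,
        (∀ a : G, s a a) ∧
        (∀ a b : G, s a b → s b a → a = b) ∧
        (∀ a b c : G, s a b → s b c → s a c) ∧
        (∀ a b : G, s a b ∨ s b a) ∧
        (∀ a b c : G, s a b → s (a * c) (b * c)) ∧
        (∀ a b : G, r a b → s a b)) := by
  intro H
  obtain ⟨s, _, s2, s3, s4, s5, s6⟩ := H W (fun a b => P (b * a⁻¹))
    (fun a => by simpa using P_one)
    (fun a b h1 h2 => by
      have := P_anti h1 (by simpa using h2)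
      exact (mul_inv_eq_one.1 this).symm)
    (fun a b d h1 h2 => by simpa [mul_assoc] using P_mul h2 h1)
    (fun a b d h => by simpa [mul_assoc] using h)
    (fun a b => by
      obtain ⟨d, h1, h2⟩ := P_dir (a * b⁻¹)
      exact ⟨d * a, by simpa using h1, by simpa [mul_assoc] using h2⟩)
    (fun a b h1 h2 => (P_chain (by simpa using h2) (by simpa using h1)))
  have qm : ∀ x y : W, s 1 x → s 1 y → s 1 (x * y) := fun x y hx hy =>
    s3 _ _ _ hy (by simpa using s5 _ _ y hx)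
  have qt : ∀ x : W, s 1 x ∨ s 1 x⁻¹ := fun x => (s4 1 x).imp id fun h => by
    simpa using s5 _ _ x⁻¹ h
  have qs : ∀ x : W, s 1 (x * x) → s 1 x := fun x h => (qt x).elim id fun h' => by
    simpa using qm _ _ h h'
  have qp : ∀ x : W, P x → s 1 x := fun x h => s6 _ _ (by simpa using h)
  have h1 : s 1 (emb ⟨0, 2⟩) := qp _ (P_emb _ (by decide) (by simp [c]))
  have h2 : s 1 (emb ⟨1, -2⟩) := qp _ (P_emb _ (by decide) (by simp [c]))
  have h3 : s 1 (emb ⟨0, 1⟩) := qs _ (by
    rw [emb_mul]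
    exact h1)
  have h4 : s 1 (emb ⟨-1, 1⟩) := qs _ (by
    rw [emb_mul]
    exact h1)
  have h5 := qm _ _ h4 h3
  rw [emb_mul] at h5
  have e : emb ((⟨-1, 1⟩ : K) * ⟨0, 1⟩) * emb ⟨1, -2⟩ = 1 := by
    rw [emb_mul, ← emb_one]
    rfl
  have h6 := s5 _ _ (emb ⟨1, -2⟩) h5
  rw [e, one_mul] at h6
  have h7 := s2 _ _ h2 h6
  have h8 := congrArg (fun w : W => (w.f 0).x) h7
  simp [emb] at h8

end Pool.Agent.S01712
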