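import Pool.Statements.S01736
import Pool.Agent.Lib.helper24.Hall6

set_option autoImplicit false
open Pool Pool.MP_65d788_al

namespace Pool.Agent.S01736

open Pool.Agent.Lib.helper24.Hall6

/-- The negation of the preceding statement: In every finite group, a Hall subgroup H with a Sylow tower is strongly pronormal: for every subgroup K of H and every g, some x in the subgroup generated by H and gKg⁻¹ conjugates gKg⁻¹ into H. -/
theorem result :
    ¬ (∀ (G : Type) [Group G] [Finite G] (H : Subgroup G),
      Nat.Coprime (Nat.card H) H.index →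
      (∃ (n : ℕ) (N : ℕ → Subgroup H), N 0 = ⊥ ∧ N n = ⊤ ∧
        (∀ i, i < n → N i ≤ N (i + 1) ∧ (N (i + 1)).Normal ∧
          ∃ p : ℕ, p.Prime ∧
            Nat.card (N (i + 1)) = Nat.card (N i) * p ^ (Nat.card H).factorization p)) →
      ∀ K : Subgroup G, K ≤ H → ∀ g : G,
        ∃ x ∈ H ⊔ K.map (MulAut.conj g).toMonoidHom,
          K.map (MulAut.conj (x * g)).toMonoidHom ≤ H) := by
  intro h
  exact main (h G H hall tower K K_le g)

end Pool.Agent.S01736
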