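import Pool.Statements.S01748

set_option autoImplicit false
open scoped Pointwise
open Pool Pool.MP_674247_al

namespace Pool.Agent.S01748

section helpers
variable {G H : Type} [Group G] [Group H]

lemma inv_mem_pow (S : Set G) (hinv : ∀ x ∈ S, x⁻¹ ∈ S) :
    ∀ (n : ℕ) (g : G), g ∈ S ^ n → g⁻¹ ∈ S ^ n := by
  intro n g hg
  have h : S⁻¹ = S := by
    ext x
    constructor
    · intro hx
      simpa using hinv _ (Set.mem_inv.1 hx)
    · intro hx
      exact Set.mem_inv.2 (hinv _ hx)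
  have : g⁻¹ ∈ (S ^ n)⁻¹ := by simpa using hg
  rwa [← inv_pow, h] at this

lemma mul_mem_pow (S : Set G) {m n : ℕ} {a b : G} (ha : a ∈ S ^ m) (hb : b ∈ S ^ n) :
    a * b ∈ S ^ (m + n) := by
  rw [pow_add]; exact Set.mul_mem_mul ha hb

lemma exists_pow (S : Set G) (hS : Subgroup.closure S = ⊤) (hinv : ∀ x ∈ S, x⁻¹ ∈ S) (g : G) :
    ∃ n : ℕ, g ∈ S ^ n := by
  have hg : g ∈ Subgroup.closure S := by rw [hS]; trivial
  induction hg using Subgroup.closure_induction with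
  | mem x hx => exact ⟨1, by simpa using hx⟩
  | one => exact ⟨0, by simp⟩
  | mul x y _ _ hx hy =>
    obtain ⟨m, hm⟩ := hx
    obtain ⟨n, hn⟩ := hy
    exact ⟨m + n, mul_mem_pow S hm hn⟩
  | inv x _ hx =>
    obtain ⟨m, hm⟩ := hx
    exact ⟨m, inv_mem_pow S hinv m x hm⟩

lemma finite_bound (S : Set G) (hS : Subgroup.closure S = ⊤) (h1 : (1 : G) ∈ S)
    (hinv : ∀ x ∈ S, x⁻¹ ∈ S) (F : Set G) (hF : F.Finite) : ∃ C : ℕ, ∀ x ∈ F, x ∈ S ^ C := by
  choose n hn using exists_pow S hS hinv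
  obtain ⟨C, hC⟩ := (hF.image n).bddAbove
  exact ⟨C, fun x hx => Set.pow_subset_pow_right h1 (hC ⟨x, hx, rfl⟩) (hn x)⟩

lemma lip (S : Set G) (T : Set H) (f : G → H) (C : ℕ)
    (h : ∀ x s, s ∈ S → (f x)⁻¹ * f (x * s) ∈ T ^ C) :
    ∀ (n : ℕ) (x y : G), x⁻¹ * y ∈ S ^ n → (f x)⁻¹ * f y ∈ T ^ (C * n) := by
  intro n
  induction n with
  | zero =>
    intro x y hxy
    have : x⁻¹ * y = 1 := by simpa using hxy
    have hy : y = x := by
      rw [inv_mul_eq_one] at this; exact this.symm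
    subst hy
    simp
  | succ n ih =>
    intro x y hxy
    rw [pow_succ] at hxy
    obtain ⟨a, ha, s, hs, has⟩ := hxy
    have has : a * s = x⁻¹ * y := has
    have hy : y = x * a * s := by rw [mul_assoc, has]; group
    have h1 := ih x (x * a) (by simpa using ha)
    have h2 := h (x * a) s hs
    have := mul_mem_pow T h1 h2
    rw [hy]
    have e : (f x)⁻¹ * f (x * a) * ((f (x * a))⁻¹ * f (x * a * s)) = (f x)⁻¹ * f (x * a * s) := by
      group
    rw [e] at this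
    rwa [Nat.mul_succ]

lemma add_bound (S : Set G) (f : G → ℤ) (K : ℕ)
    (h : ∀ x s, s ∈ S → |f (x * s) - f x| ≤ K) :
    ∀ (n : ℕ) (x a : G), a ∈ S ^ n → |f (x * a) - f x| ≤ K * n := by
  intro n
  induction n with
  | zero =>
    intro x a ha
    have : a = 1 := by simpa using ha
    subst this
    simp
  | succ n ih =>
    intro x y hy
    rw [pow_succ] at hy
    obtain ⟨a, ha, s, hs, has⟩ := hy
    have has : a * s = y := has
    subst has
    have h1 := ih x a ha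
    have h2 := h (x * a) s hs
    rw [← mul_assoc]
    have := abs_sub_le (f (x * a * s)) (f (x * a)) (f x)
    push_cast
    nlinarith

lemma exists_H {Z E : Type} [Group Z] [Group E] (ι : Z →* E)
    (hc : ι.range ≤ Subgroup.center E) (SZ : Finset Z) (SE : Set E)
    (hSE : Subgroup.closure SE = ⊤) (hinv : ∀ x ∈ SE, x⁻¹ ∈ SE) (C : ℕ)
    (hC : ∀ (z : Z) (n : ℕ), ι z ∈ SE ^ n → z ∈ (SZ : Set Z) ^ (C * n + C))
    (φ : Z → ℤ) (hφ : ∀ a b, φ (a * b) = φ a + φ b) :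
    ∃ (Hf : E → ℤ) (K : ℕ), (∀ e z, Hf (e * ι z) = Hf e + φ z) ∧
      ∀ e s, s ∈ SE → |Hf (e * s) - Hf e| ≤ K := by
  have hφ1 : φ 1 = 0 := by
    have := hφ 1 1
    simp at this
    exact this
  have hcomm : ∀ z e, e * ι z = ι z * e := fun z e =>
    Subgroup.mem_center_iff.1 (hc ⟨z, rfl⟩) e
  obtain ⟨M, hM⟩ : ∃ M : ℕ, ∀ s ∈ SZ, |φ s| ≤ M := by
    refine ⟨SZ.sup fun s => (φ s).natAbs, fun s hs => ?_⟩
    have := Finset.le_sup (f := fun s => (φ s).natAbs) hs
    rw [Int.abs_eq_natAbs]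
    exact_mod_cast this
  have hb : ∀ (n : ℕ) (z : Z), z ∈ (SZ : Set Z) ^ n → φ z ≤ M * n := by
    intro n z hz
    have := add_bound (SZ : Set Z) φ M (fun x s hs => by
      rw [hφ]; simpa using hM s hs) n 1 z hz
    rw [one_mul, hφ1, sub_zero] at this
    exact (le_abs_self _).trans this
  let A : E → Set ℤ := fun e =>
    {x | ∃ (v : Z) (n : ℕ), e * (ι v)⁻¹ ∈ SE ^ n ∧ x = φ v - (M * C : ℕ) * n}
  have hne : ∀ e, (A e).Nonempty := by
    intro e
    obtain ⟨n, hn⟩ := exists_pow SE hSE hinv e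
    exact ⟨_, 1, n, by simpa using hn, rfl⟩
  have hbd : ∀ e, BddAbove (A e) := by
    intro e
    obtain ⟨m, hm⟩ := exists_pow SE hSE hinv e
    refine ⟨M * (C * m + C), ?_⟩
    rintro x ⟨v, n, hv, rfl⟩
    have h1 := mul_mem_pow SE (inv_mem_pow SE hinv n _ hv) hm
    have e1 : (e * (ι v)⁻¹)⁻¹ * e = ι v := by group
    rw [e1] at h1
    have := hb _ v (hC v _ h1)
    push_cast at this ⊢
    nlinarith
  have hle : ∀ e z, sSup (A e) + φ z ≤ sSup (A (e * ι z)) := by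
    intro e z
    have hmem := Int.csSup_mem (hne e) (hbd e)
    obtain ⟨v, n, hv, hx⟩ := hmem
    apply le_csSup (hbd _)
    refine ⟨v * z, n, ?_, ?_⟩
    · have : e * ι z * (ι (v * z))⁻¹ = e * (ι v)⁻¹ := by
        rw [map_mul]; group
      rwa [this]
    · rw [hx, hφ]; ring
  have hlip : ∀ e s, s ∈ SE → sSup (A e) - (M * C : ℕ) ≤ sSup (A (e * s)) := by
    intro e s hs
    have hmem := Int.csSup_mem (hne e) (hbd e)
    obtain ⟨v, n, hv, hx⟩ := hmem
    apply le_csSup (hbd _)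
    refine ⟨v, n + 1, ?_, ?_⟩
    · have : e * s * (ι v)⁻¹ = e * (ι v)⁻¹ * s := by
        rw [← map_inv, mul_assoc, hcomm, mul_assoc]
      rw [this, pow_succ]
      exact Set.mul_mem_mul hv hs
    · rw [hx]; push_cast; ring
  refine ⟨fun e => sSup (A e), M * C, fun e z => ?_, fun e s hs => ?_⟩
  · apply le_antisymm _ (hle e z)
    have h1 := hle (e * ι z) z⁻¹
    have h2 : e * ι z * ι z⁻¹ = e := by rw [map_inv]; group
    rw [h2] at h1
    have h3 := hφ z z⁻¹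
    rw [mul_inv_cancel, hφ1] at h3
    linarith
  · have h1 := hlip e s hs
    have h2 := hlip (e * s) s⁻¹ (hinv s hs)
    rw [mul_inv_cancel_right] at h2
    rw [abs_le]
    constructor <;> linarith

lemma exists_phi {Z : Type} [Group Z] (hcomm : ∀ a b : Z, a * b = b * a) (SZ : Finset Z)
    (hSZ : Subgroup.closure (SZ : Set Z) = ⊤) :
    ∃ (n : ℕ) (φ : Fin n → Z → ℤ), (∀ i a b, φ i (a * b) = φ i a + φ i b) ∧
      (∀ x : Fin n → ℤ, ∃ z, ∀ i, φ i z = x i) ∧
      ∀ K : ℤ, {z : Z | ∀ i, |φ i z| ≤ K}.Finite := by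
  letI : CommGroup Z := { ‹Group Z› with mul_comm := hcomm }
  haveI : Group.FG Z := ⟨⟨SZ, hSZ⟩⟩
  obtain ⟨n, κ, _, p, hp, e, ⟨f⟩⟩ := AddCommGroup.equiv_free_prod_directSum_zmod (Additive Z)
  haveI : ∀ i, NeZero (p i ^ e i) := fun i => ⟨pow_ne_zero _ (hp i).ne_zero⟩
  haveI : Finite (DirectSum κ fun i => ZMod (p i ^ e i)) := by
    classical
    exact Finite.of_equiv _ (DFinsupp.equivFunOnFintype (β := fun i => ZMod (p i ^ e i))).symm
  refine ⟨n, fun i z => (f (Additive.ofMul z)).1 i, fun i a b => ?_, fun x => ?_, fun K => ?_⟩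
  · simp only [ofMul_mul, map_add]; simp
  · refine ⟨Additive.toMul (f.symm (Finsupp.equivFunOnFinite.symm x, 0)), fun i => ?_⟩
    simp
  · have h1 : {x : Fin n → ℤ | ∀ i, x i ∈ Set.Icc (-K) K}.Finite :=
      Set.Finite.pi' fun _ => Set.finite_Icc _ _
    have h2 := h1.prod (Set.finite_univ (α := DirectSum κ fun i => ZMod (p i ^ e i)))
    refine Set.Finite.subset (h2.preimage (f := fun z : Z =>
      (((f (Additive.ofMul z)).1 : Fin n → ℤ), (f (Additive.ofMul z)).2)) ?_) ?_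
    · intro a _ b _ hab
      simp only [Prod.mk.injEq] at hab
      have : f (Additive.ofMul a) = f (Additive.ofMul b) :=
        Prod.ext (DFunLike.coe_injective hab.1) hab.2
      exact Additive.ofMul.injective (f.injective this)
    · intro z hz
      refine ⟨fun i => ?_, trivial⟩
      exact abs_le.1 (hz i)

end helpers

/-- The negation of the preceding statement: There is a central extension 1→Z→E→G→1 of finitely generated groups in which Z is undistorted in E (word metrics), but no quasi-isometry Z×G→E commutes with the projections to G. -/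
theorem result :
    ¬ (∃ (Z E G : Type) (_ : Group Z) (_ : Group E) (_ : Group G) (ι : Z →* E) (π : E →* G),
    Function.Injective ι ∧ Function.Surjective π ∧ ι.range = π.ker ∧
    ι.range ≤ Subgroup.center E ∧
    ∃ (SZ : Finset Z) (SE : Finset E) (SP : Finset (Z × G)),
      Subgroup.closure (SZ : Set Z) = ⊤ ∧ (1 : Z) ∈ SZ ∧ (∀ x ∈ SZ, x⁻¹ ∈ SZ) ∧
      Subgroup.closure (SE : Set E) = ⊤ ∧ (1 : E) ∈ SE ∧ (∀ x ∈ SE, x⁻¹ ∈ SE) ∧
      Subgroup.closure (SP : Set (Z × G)) = ⊤ ∧ (1 : Z × G) ∈ SP ∧ (∀ x ∈ SP, x⁻¹ ∈ SP) ∧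
      (∃ C : ℕ, ∀ (z : Z) (n : ℕ),
          ι z ∈ (SE : Set E) ^ n → z ∈ (SZ : Set Z) ^ (C * n + C)) ∧
      ¬ ∃ (f : Z × G → E) (C : ℕ), (∀ p : Z × G, π (f p) = p.2) ∧
          (∀ (p q : Z × G) (n : ℕ), p⁻¹ * q ∈ (SP : Set (Z × G)) ^ n →
              (f p)⁻¹ * f q ∈ (SE : Set E) ^ (C * n + C)) ∧
          (∀ (p q : Z × G) (n : ℕ), (f p)⁻¹ * f q ∈ (SE : Set E) ^ n →
              p⁻¹ * q ∈ (SP : Set (Z × G)) ^ (C * n + C)) ∧
          (∀ e : E, ∃ p : Z × G, (f p)⁻¹ * e ∈ (SE : Set E) ^ C)) := by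
  rintro ⟨Z, E, G, _, _, _, ι, π, hι, hπ, hker, hc, SZ, SE, SP, hZ, hZ1, hZi, hE, hE1, hEi,
    hP, hP1, hPi, ⟨C, hC⟩, hno⟩
  apply hno
  have hcomm : ∀ z e, e * ι z = ι z * e := fun z e =>
    Subgroup.mem_center_iff.1 (hc ⟨z, rfl⟩) e
  obtain ⟨n, φ, hφ, hφs, hφf⟩ := exists_phi (fun a b => hι (by
    rw [map_mul, map_mul, hcomm])) SZ hZ
  have hH := fun i => exists_H ι hc SZ (SE : Set E) hE hEi C hC (φ i) (hφ i)
  choose Hf K hHe hHl using hH
  have hπι : ∀ z, π (ι z) = 1 := fun z => by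
    have : ι z ∈ π.ker := hker ▸ ⟨z, rfl⟩
    exact this
  have hlift : ∀ e, π e = 1 → ∃ z, ι z = e := fun e he => by
    have : e ∈ ι.range := hker ▸ he
    exact this
  have hHb : ∀ a : E, ∃ L : ℤ, ∀ e i, |Hf i (e * a) - Hf i e| ≤ L := by
    intro a
    obtain ⟨m, hm⟩ := exists_pow (SE : Set E) hE hEi a
    refine ⟨(Finset.univ.sup K : ℕ) * m, fun e i => ?_⟩
    refine (add_bound _ (Hf i) (K i) (hHl i) m e a hm).trans ?_
    have : K i ≤ Finset.univ.sup K := Finset.le_sup (Finset.mem_univ i)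
    have h' : (K i : ℤ) ≤ (Finset.univ.sup K : ℕ) := by exact_mod_cast this
    exact mul_le_mul_of_nonneg_right h' (by positivity)
  have hs : ∀ g : G, ∃ e : E, π e = g ∧ ∀ i, Hf i e = 0 := by
    intro g
    obtain ⟨e, he⟩ := hπ g
    obtain ⟨z, hz⟩ := hφs fun i => - Hf i e
    refine ⟨e * ι z, by rw [map_mul, hπι, mul_one, he], fun i => ?_⟩
    rw [hHe, hz]; ring
  choose s hs1 hs2 using hs
  let F : Z × G → E := fun p => s p.2 * ι p.1
  have hF1 : ∀ p, π (F p) = p.2 := fun p => by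
    simp only [F, map_mul, hπι, mul_one, hs1]
  have hF2 : ∀ p i, Hf i (F p) = φ i p.1 := fun p i => by
    simp only [F, hHe, hs2, zero_add]
  have hFinj : Function.Injective F := by
    intro p q hpq
    have h2 : p.2 = q.2 := by rw [← hF1, hpq, hF1]
    refine Prod.ext ?_ h2
    apply hι
    have : s p.2 * ι p.1 = s q.2 * ι q.1 := hpq
    rw [h2] at this
    exact mul_left_cancel this
  have hFs : ∀ e, ∃ p, F p = e := by
    intro e
    obtain ⟨z, hz⟩ := hlift ((s (π e))⁻¹ * e) (by rw [map_mul, map_inv, hs1]; group)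
    exact ⟨(z, π e), by simp only [F, hz]; group⟩
  choose Φ hΦ using hFs
  have hΦF : ∀ p, Φ (F p) = p := fun p => hFinj (hΦ _)
  have hφsub : ∀ i a b, φ i (a⁻¹ * b) = φ i b - φ i a := by
    intro i a b
    have := hφ i a (a⁻¹ * b)
    rw [mul_inv_cancel_left] at this
    linarith
  have fin1 : ∀ t : Z × G, (Set.range fun p => (F p)⁻¹ * F (p * t)).Finite := by
    intro t
    obtain ⟨L, hL⟩ := hHb (s t.2)
    obtain ⟨L', hL'⟩ : ∃ L' : ℤ, ∀ i, |φ i t.1| ≤ L' :=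
      ⟨∑ i, |φ i t.1|, fun i => Finset.single_le_sum (f := fun i => |φ i t.1|)
        (fun _ _ => abs_nonneg _) (Finset.mem_univ i)⟩
    refine ((hφf (L + L')).image fun w => s t.2 * ι w).subset ?_
    rintro _ ⟨p, rfl⟩
    obtain ⟨w, hw⟩ := hlift ((s t.2)⁻¹ * ((F p)⁻¹ * F (p * t))) (by
      simp only [map_mul, map_inv, hF1, hs1, Prod.snd_mul]; group)
    refine ⟨w, fun i => ?_, by simp only [hw]; group⟩
    have e1 : F (p * t) = F p * s t.2 * ι w := by rw [hw]; group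
    have e2 := hF2 (p * t) i
    rw [e1, hHe, Prod.fst_mul, hφ, ← hF2] at e2
    have e3 := abs_le.1 (hL (F p) i)
    have e4 := abs_le.1 (hL' i)
    rw [abs_le]
    constructor <;> linarith [e3.1, e3.2, e4.1, e4.2]
  have fin2 : ∀ a : E, (Set.range fun e => (Φ e)⁻¹ * Φ (e * a)).Finite := by
    intro a
    obtain ⟨L, hL⟩ := hHb a
    refine ((hφf L).prod (Set.finite_singleton (π a))).subset ?_
    rintro _ ⟨e, rfl⟩
    refine ⟨fun i => ?_, ?_⟩
    · simp only [Prod.fst_mul, Prod.fst_inv]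
      rw [hφsub, ← hF2, ← hF2, hΦ, hΦ]
      exact hL e i
    · simp only [Prod.snd_mul, Prod.snd_inv, Set.mem_singleton_iff]
      rw [← hF1, ← hF1, hΦ, hΦ, map_mul]; group
  obtain ⟨C1, hC1⟩ := finite_bound (SE : Set E) hE hE1 hEi _
    (SP.finite_toSet.biUnion fun t _ => fin1 t)
  obtain ⟨C2, hC2⟩ := finite_bound (SP : Set (Z × G)) hP hP1 hPi _
    (SE.finite_toSet.biUnion fun t _ => fin2 t)
  refine ⟨F, C1 + C2, hF1, fun p q m h => ?_, fun p q m h => ?_, fun e => ⟨Φ e, ?_⟩⟩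
  · have := lip (SP : Set (Z × G)) (SE : Set E) F C1 (fun x t ht =>
      hC1 _ (Set.mem_biUnion ht ⟨x, rfl⟩)) m p q h
    exact Set.pow_subset_pow_right (by exact_mod_cast hE1) (by nlinarith) this
  · have := lip (SE : Set E) (SP : Set (Z × G)) Φ C2 (fun x t ht =>
      hC2 _ (Set.mem_biUnion ht ⟨x, rfl⟩)) m _ _ h
    rw [hΦF, hΦF] at this
    exact Set.pow_subset_pow_right (by exact_mod_cast hP1) (by nlinarith) this
  · rw [hΦ, inv_mul_cancel]
    exact Set.one_mem_pow (by exact_mod_cast hE1)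

end Pool.Agent.S01748
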