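import Pool.Statements.S01761

set_option autoImplicit false
open Pool Pool.MP_67f4ab_al

namespace Pool.Agent.S01761

section
variable {G : Type} [Group G] {φ : G → ℝ} {D : ℝ}

theorem phi_one (hh : ∀ (g : G) (n : ℕ), φ (g ^ n) = (n : ℝ) * φ g) : φ 1 = 0 := by
  simpa using hh 1 0

theorem zero_of_bdd {x C : ℝ} (h : ∀ n : ℕ, (n : ℝ) * x ≤ C) : x ≤ 0 := by
  by_contra hx
  rw [not_le] at hx
  obtain ⟨n, hn⟩ := exists_nat_gt (C / x)
  rw [div_lt_iff₀ hx] at hn
  linarith [h n]

theorem phi_inv (hD : ∀ g h, |φ (g * h) - φ g - φ h| ≤ D)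
    (hh : ∀ (g : G) (n : ℕ), φ (g ^ n) = (n : ℝ) * φ g) (g : G) : φ g⁻¹ = -φ g := by
  have h : ∀ n : ℕ, |(n : ℝ) * (φ g⁻¹ + φ g)| ≤ D := fun n => by
    have := hD (g ^ n) (g⁻¹ ^ n)
    rw [inv_pow, mul_inv_cancel, ← inv_pow, phi_one hh, hh, hh] at this
    rw [← abs_neg]
    refine le_of_eq_of_le ?_ this
    congr 1; ring
  have a := zero_of_bdd fun n => (abs_le.1 (h n)).2
  have b := zero_of_bdd (x := -(φ g⁻¹ + φ g)) (C := D) fun n => by linarith [(abs_le.1 (h n)).1]
  linarith

theorem phi_comm (hD : ∀ g h, |φ (g * h) - φ g - φ h| ≤ D)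
    (hh : ∀ (g : G) (n : ℕ), φ (g ^ n) = (n : ℝ) * φ g) (a b : G) : φ (a * b) = φ (b * a) := by
  have key : ∀ g x, φ (x * g * x⁻¹) - φ g ≤ 0 := fun g x => zero_of_bdd (C := 2 * D) fun n => by
    have h1 := abs_le.1 (hD (x * g ^ n) x⁻¹)
    have h2 := abs_le.1 (hD x (g ^ n))
    rw [← conj_pow, hh, phi_inv hD hh] at h1
    rw [hh] at h2
    linarith
  have h1 := key (a * b) b
  have h2 := key (b * a) a
  rw [show b * (a * b) * b⁻¹ = b * a by group] at h1
  rw [show a * (b * a) * a⁻¹ = a * b by group] at h2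
  linarith

theorem word_bd (hD : ∀ g h, |φ (g * h) - φ g - φ h| ≤ D) (x : G) (l : List G) :
    |φ (x :: l).prod - ((x :: l).map φ).sum| ≤ D * l.length := by
  induction l generalizing x with
  | nil => simp
  | cons y l ih =>
    have h1 := abs_le.1 (ih y)
    have h2 := abs_le.1 (hD x (y :: l).prod)
    simp only [List.prod_cons, List.map_cons, List.sum_cons, List.length_cons, Nat.cast_succ]
      at h1 h2 ⊢
    rw [abs_le]
    constructor <;> linarith

/-- letters -/
def Lt (M : Multiset (List G × Bool)) : Multiset G := M.bind fun w => (w.1 : Multiset G)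
/-- number of marked words -/
def Tr (M : Multiset (List G × Bool)) : ℝ := (M.map fun w => if w.2 then (1 : ℝ) else 0).sum
/-- error -/
def Er (φ : G → ℝ) (M : Multiset (List G × Bool)) : ℝ :=
  (M.map fun w => φ w.1.prod).sum - ((Lt M).map φ).sum
def Ok (M : Multiset (List G × Bool)) : Prop :=
  ∀ w ∈ M, w.2 = true → w.1.prod = 1 ∧ 2 ≤ w.1.length

theorem crude (hD : ∀ g h, |φ (g * h) - φ g - φ h| ≤ D) (h1 : φ 1 = 0)
    (M : Multiset (List G × Bool)) (hM : Ok M) : |Er φ M| ≤ D * ((Lt M).card - Tr M) := by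
  have hD0 : 0 ≤ D := (abs_nonneg _).trans (hD 1 1)
  induction M using Multiset.induction_on with
  | empty => simp [Er, Lt, Tr]
  | cons w M ih =>
    have h2 := abs_le.1 (ih fun v hv => hM v (Multiset.mem_cons_of_mem hv))
    have h3 : |φ w.1.prod - (w.1.map φ).sum| ≤ D * (w.1.length - if w.2 then 1 else 0) := by
      obtain ⟨l, b⟩ := w
      cases l with
      | nil =>
        cases b
        · simp [h1]
        · simpa using (hM _ (Multiset.mem_cons_self _ _) rfl).2
      | cons x l =>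
        refine (word_bd hD x l).trans (mul_le_mul_of_nonneg_left ?_ hD0)
        simp only [List.length_cons, Nat.cast_succ]
        split_ifs <;> linarith
    rw [abs_le] at h3 ⊢
    simp only [Er, Lt, Tr, Multiset.map_cons, Multiset.sum_cons, Multiset.cons_bind,
      Multiset.map_add, Multiset.sum_add, Multiset.map_coe, Multiset.sum_coe, Multiset.card_add,
      Multiset.coe_card, Nat.cast_add] at h2 ⊢
    constructor <;> linarith

theorem rot (hc : ∀ a b, φ (a * b) = φ (b * a)) {M : Multiset (List G × Bool)} (hM : Ok M) {y : G}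
    (hy : y ∈ Lt M) : ∃ u b M', Ok ((y :: u, b) ::ₘ M') ∧ Lt M = Lt ((y :: u, b) ::ₘ M') ∧
      Tr M = Tr ((y :: u, b) ::ₘ M') ∧ Er φ M = Er φ ((y :: u, b) ::ₘ M') := by
  obtain ⟨⟨l, b⟩, hw, hy'⟩ := Multiset.mem_bind.1 hy
  obtain ⟨M', rfl⟩ := Multiset.exists_cons_of_mem hw
  obtain ⟨s, t, rfl⟩ := List.append_of_mem (Multiset.mem_coe.1 hy')
  have hL : Lt ((s ++ y :: t, b) ::ₘ M') = Lt ((y :: (t ++ s), b) ::ₘ M') := by
    simp only [Lt, Multiset.cons_bind]
    congr 1
    exact Multiset.coe_eq_coe.2 List.perm_append_comm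
  refine ⟨t ++ s, b, M', fun w hw hb => ?_, hL, by simp [Tr], ?_⟩
  · rcases Multiset.mem_cons.1 hw with rfl | hw
    · obtain ⟨h1, h2⟩ := hM _ (Multiset.mem_cons_self _ _) hb
      simp only [List.prod_append, List.prod_cons, List.length_append, List.length_cons] at h1 h2 ⊢
      exact ⟨by rw [← mul_assoc]; exact mul_eq_one_comm.1 h1, by omega⟩
    · exact hM _ (Multiset.mem_cons_of_mem hw) hb
  · simp only [Er, hL, Multiset.map_cons, Multiset.sum_cons, List.prod_append, List.prod_cons]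
    rw [hc, mul_assoc]

theorem glue (hD : ∀ g h, |φ (g * h) - φ g - φ h| ≤ D)
    (hh : ∀ (g : G) (n : ℕ), φ (g ^ n) = (n : ℝ) * φ g) (h2 : ∀ x : G, x = x⁻¹ → x = 1) (N : ℕ) :
    ∀ M : Multiset (List G × Bool), (Lt M).card = N → Ok M → ∃ θ : G → ℝ, (∀ x, |θ x| ≤ 1) ∧
      (∀ x, θ x⁻¹ = -θ x) ∧ |Er φ M| ≤ D * ((N + ((Lt M).map θ).sum + 1) / 2 - Tr M) := by
  classical
  have hD0 : 0 ≤ D := (abs_nonneg _).trans (hD 1 1)
  have hc := phi_comm hD hh
  have hi := phi_inv hD hh
  have h1 := phi_one hh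
  induction N using Nat.strong_induction_on with
  | _ N ih =>
  intro M hN hM
  by_cases hp : ∃ y, y ∈ Lt M ∧ y⁻¹ ∈ (Lt M).erase y
  · obtain ⟨y, hy, hy'⟩ := hp
    obtain ⟨u, b, M', o1, l1, t1, e1⟩ := rot hc hM hy
    suffices h : ∃ M₂, Ok M₂ ∧ Lt M = y ::ₘ y⁻¹ ::ₘ Lt M₂ ∧
        |Er φ M - Er φ M₂| ≤ D * (1 + Tr M₂ - Tr M) by
      obtain ⟨M₂, o2, l2, e2⟩ := h
      rw [l2, Multiset.card_cons, Multiset.card_cons] at hN
      obtain ⟨θ, a1, a2, a3⟩ := ih _ (by omega) M₂ rfl o2
      refine ⟨θ, a1, a2, ?_⟩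
      rw [l2, ← hN]
      simp only [Multiset.map_cons, Multiset.sum_cons, a2]
      push_cast
      rw [abs_le] at *
      constructor <;> linarith
    have l3 : Lt M = y ::ₘ ((u : Multiset G) + Lt M') := by
      rw [l1]; simp [Lt, ← Multiset.cons_coe]
    rw [l3, Multiset.erase_cons_head, Multiset.mem_add] at hy'
    have oM : Ok M' := fun w hw => o1 w (Multiset.mem_cons_of_mem hw)
    have ob := o1 _ (Multiset.mem_cons_self _ _)
    rcases hy' with hy' | hy'
    · obtain ⟨s, t, rfl⟩ := List.append_of_mem (Multiset.mem_coe.1 hy')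
      have l4 : Lt M = y ::ₘ y⁻¹ ::ₘ Lt ((s, false) ::ₘ (t, false) ::ₘ M') := by
        rw [l3]
        simp only [Lt, Multiset.cons_bind, ← Multiset.coe_add, ← Multiset.cons_coe,
          Multiset.add_cons, Multiset.cons_add, add_assoc]
      refine ⟨(s, false) ::ₘ (t, false) ::ₘ M', fun w hw hb => ?_, l4, ?_⟩
      · simp only [Multiset.mem_cons] at hw
        rcases hw with rfl | rfl | hw
        exacts [absurd hb (by simp), absurd hb (by simp), oM w hw hb]
      · rw [e1, t1]
        simp only [Er]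
        rw [← l1, l4]
        have a1 := abs_le.1 (hD (y * s.prod * y⁻¹) t.prod)
        have a2 : φ (y * s.prod * y⁻¹) = φ s.prod := by rw [hc]; simp
        simp only [Tr, Multiset.map_cons, Multiset.sum_cons, List.prod_cons, List.prod_append, hi,
          ← mul_assoc] at ob ⊢
        cases b
        · simp only [Bool.false_eq_true, if_false]
          rw [abs_le]
          constructor <;> linarith
        · have a3 := hi t.prod
          rw [← eq_inv_of_mul_eq_one_left (ob rfl).1, a2] at a3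
          simp [(ob rfl).1, h1, a3]
    · obtain ⟨v, b', M'', o2, l2, t2, e2⟩ := rot hc oM hy'
      have ob' := o2 _ (Multiset.mem_cons_self _ _)
      have l4 : Lt M = y ::ₘ y⁻¹ ::ₘ Lt ((u ++ v, b && b') ::ₘ M'') := by
        rw [l3, l2]
        simp only [Lt, Multiset.cons_bind, ← Multiset.coe_add, ← Multiset.cons_coe,
          Multiset.add_cons, Multiset.cons_add, add_assoc]
      simp only [List.prod_cons, List.length_cons] at ob ob'
      refine ⟨(u ++ v, b && b') ::ₘ M'', fun w hw hb => ?_, l4, ?_⟩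
      · rcases Multiset.mem_cons.1 hw with rfl | hw
        · simp only [Bool.and_eq_true] at hb
          obtain ⟨a1, a2⟩ := ob hb.1
          obtain ⟨a3, a4⟩ := ob' hb.2
          refine ⟨?_, by simp only [List.length_append]; omega⟩
          rw [List.prod_append, eq_inv_of_mul_eq_one_right a1, eq_inv_of_mul_eq_one_right a3]
          simp
        · exact o2 w (Multiset.mem_cons_of_mem hw) hb
      · have e3 : (M'.map fun w => φ w.1.prod).sum =
            φ (y⁻¹ * v.prod) + (M''.map fun w => φ w.1.prod).sum := by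
          simp only [Er, ← l2, Multiset.map_cons, Multiset.sum_cons, List.prod_cons] at e2
          linarith
        rw [e1, t1]
        simp only [Er]
        rw [← l1, l4]
        simp only [Tr, Multiset.map_cons, Multiset.sum_cons, List.prod_cons, List.prod_append, hi,
          e3] at t2 ⊢
        rw [t2]
        have a1 := abs_le.1 (hD (u.prod * y) (y⁻¹ * v.prod))
        rw [mul_assoc, mul_inv_cancel_left, hc u.prod y] at a1
        cases b
        · cases b'
          · simp only [Bool.false_eq_true, if_false, Bool.and_self]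
            rw [abs_le]
            constructor <;> linarith
          · have := (ob' rfl).1
            rw [inv_mul_eq_one] at this
            simp [← this, h1, hc y]
        · have := eq_inv_of_mul_eq_one_right (ob rfl).1
          simp [this, h1]
  · push Not at hp
    let θ : G → ℝ := fun x => (if x ∈ Lt M then 1 else 0) - if x⁻¹ ∈ Lt M then 1 else 0
    refine ⟨θ, fun x => ?_, fun x => by simp [θ], (crude hD h1 M hM).trans ?_⟩
    · simp only [θ]
      split_ifs <;> simp
    · refine mul_le_mul_of_nonneg_left ?_ hD0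
      have a1 : (Lt M).map θ = (Lt M).map fun x => 1 - if x = 1 then (1 : ℝ) else 0 := by
        refine Multiset.map_congr rfl fun x hx => ?_
        by_cases h : x = 1
        · subst h; simp [θ]
        · have : x⁻¹ ∉ Lt M := fun h' =>
            hp x hx ((Multiset.mem_erase_of_ne fun e => h (h2 x e.symm)).2 h')
          simp [θ, hx, h, this]
      have a2 : (Lt M).count 1 ≤ 1 := by
        by_contra h
        refine hp 1 (Multiset.count_pos.1 (by omega)) (Multiset.count_pos.1 ?_)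
        rw [inv_one, Multiset.count_erase_self]
        omega
      have a3 : ((Lt M).map fun x => if x = 1 then (1 : ℝ) else 0).sum = (Lt M).count 1 := by
        induction Lt M using Multiset.induction_on with
        | empty => simp
        | cons a s ih =>
          by_cases h : a = 1
          · simp [h, ih, add_comm]
          · simp [h, ih, Multiset.count_cons_of_ne (Ne.symm h)]
      rw [a1, Multiset.sum_map_sub, a3, hN]
      have : ((Lt M).count 1 : ℝ) ≤ 1 := by exact_mod_cast a2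
      simp [hN]
      linarith

def Rep (φ : G → ℝ) (T : ℝ) (F : (G → ℝ) → ℝ) : Prop :=
  ∃ M, Ok M ∧ Tr M = T ∧ ((Lt M).card : ℝ) = 3 * T ∧ (M.map fun w => φ w.1.prod).sum = 0 ∧
    ∀ ψ : G → ℝ, (∀ x, ψ x⁻¹ = -ψ x) → ((Lt M).map ψ).sum = F ψ

theorem Rep.add {T T' : ℝ} {F F' : (G → ℝ) → ℝ} (h : Rep φ T F) (h' : Rep φ T' F') :
    Rep φ (T + T') fun ψ => F ψ + F' ψ := by
  obtain ⟨M, a1, a2, a3, a4, a5⟩ := h
  obtain ⟨M', b1, b2, b3, b4, b5⟩ := h'
  have : Lt (M + M') = Lt M + Lt M' := Multiset.add_bind _ _ _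
  refine ⟨M + M', fun w hw => (Multiset.mem_add.1 hw).elim (a1 w) (b1 w), ?_, ?_, ?_, fun ψ h => ?_⟩
  · simp only [Tr, Multiset.map_add, Multiset.sum_add] at a2 b2 ⊢
    rw [a2, b2]
  · rw [this, Multiset.card_add, Nat.cast_add, a3, b3, mul_add]
  · rw [Multiset.map_add, Multiset.sum_add, a4, b4, add_zero]
  · rw [this, Multiset.map_add, Multiset.sum_add, a5 ψ h, b5 ψ h]

theorem rep_zero : Rep φ 0 fun _ => 0 := ⟨0, fun _ h => by simp at h, by simp [Tr, Lt]⟩

theorem Rep.nsmul {F : (G → ℝ) → ℝ} (h : Rep φ 1 F) (k : ℕ) : Rep φ k fun ψ => k * F ψ := by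
  induction k with
  | zero => simpa using rep_zero
  | succ k ih => simpa [add_mul] using ih.add h

def dl (ψ : G → ℝ) (p : G × G) : ℝ := ψ p.1 + ψ p.2 - ψ (p.1 * p.2)

theorem rep_int (h1 : φ 1 = 0) (p : G × G) (k : ℤ) : Rep φ |(k : ℝ)| fun ψ => k * dl ψ p := by
  have a : Rep φ 1 fun ψ => dl ψ p := ⟨{([p.1, p.2, (p.1 * p.2)⁻¹], true)},
    fun w hw _ => by rw [Multiset.mem_singleton.1 hw]; simp, by simp [Tr], by simp [Lt],
    by simp [h1], fun ψ h => by
      simp only [Lt, Multiset.singleton_bind, Multiset.map_coe, Multiset.sum_coe, List.map_cons,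
        List.sum_cons, h, dl, List.map_nil, List.sum_nil]
      ring⟩
  have b : Rep φ 1 fun ψ => -dl ψ p := ⟨{([p.1 * p.2, p.2⁻¹, p.1⁻¹], true)},
    fun w hw _ => by rw [Multiset.mem_singleton.1 hw]; simp, by simp [Tr], by simp [Lt],
    by simp [h1], fun ψ h => by
      simp only [Lt, Multiset.singleton_bind, Multiset.map_coe, Multiset.sum_coe, List.map_cons,
        List.sum_cons, h, dl, List.map_nil, List.sum_nil]
      ring⟩
  obtain ⟨n, rfl | rfl⟩ := k.eq_nat_or_neg
  · simpa using a.nsmul n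
  · simpa using b.nsmul n

theorem rep_sum (h1 : φ 1 = 0) (s : Finset (G × G)) (B : G × G → ℤ) :
    Rep φ (∑ p ∈ s, |(B p : ℝ)|) fun ψ => ∑ p ∈ s, B p * dl ψ p := by
  classical
  induction s using Finset.induction_on with
  | empty => simpa using rep_zero
  | insert p s hp ih => simpa only [Finset.sum_insert hp] using (rep_int h1 p (B p)).add ih

noncomputable def n1 {X : Type} (c : X →₀ ℝ) : ℝ := c.sum fun _ r => |r|

theorem n1_add {X : Type} (a b : X →₀ ℝ) : n1 (a + b) ≤ n1 a + n1 b := by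
  classical
  simp only [n1]
  rw [Finsupp.sum_of_support_subset _ Finsupp.support_add _ (by simp),
    Finsupp.sum_of_support_subset a Finset.subset_union_left _ (by simp),
    Finsupp.sum_of_support_subset b Finset.subset_union_right _ (by simp), ← Finset.sum_add_distrib]
  exact Finset.sum_le_sum fun x _ => abs_add_le _ _

theorem n1_smul {X : Type} (r : ℝ) (a : X →₀ ℝ) : n1 (r • a) = |r| * n1 a := by
  simp only [n1]
  rw [Finsupp.sum_smul_index (by simp), Finsupp.mul_sum]
  simp only [abs_mul]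

theorem n1_single {X : Type} (x : X) (r : ℝ) : n1 (Finsupp.single x r) = |r| := by
  simp [n1]

theorem ev_le {X : Type} (θ : X → ℝ) (h : ∀ x, |θ x| ≤ 1) (c : X →₀ ℝ) :
    Finsupp.linearCombination ℝ θ c ≤ n1 c := by
  rw [Finsupp.linearCombination_apply]
  refine Finset.sum_le_sum fun x _ => (le_abs_self _).trans ?_
  simp only [smul_eq_mul, abs_mul]
  exact mul_le_of_le_one_right (abs_nonneg _) (h x)

noncomputable def bd (G : Type) [Group G] : (G × G →₀ ℝ) →ₗ[ℝ] (G →₀ ℝ) :=
  Finsupp.linearCombination ℝ fun p =>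
    Finsupp.single p.1 1 + Finsupp.single p.2 1 - Finsupp.single (p.1 * p.2) 1

theorem ev_bd (ψ : G → ℝ) (A : G × G →₀ ℝ) :
    Finsupp.linearCombination ℝ ψ (bd G A) = ∑ p ∈ A.support, A p * dl ψ p := by
  simp [bd, Finsupp.linearCombination_apply ℝ A, Finsupp.sum, dl]

theorem key (hD : ∀ g h, |φ (g * h) - φ g - φ h| ≤ D)
    (hh : ∀ (g : G) (n : ℕ), φ (g ^ n) = (n : ℝ) * φ g) (h2 : ∀ x : G, x = x⁻¹ → x = 1)
    (A : G × G →₀ ℝ) :
    Finsupp.linearCombination ℝ φ (bd G A) ≤ D / 2 * n1 A + D / 2 * n1 (bd G A) := by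
  have hD0 : 0 ≤ D := (abs_nonneg _).trans (hD 1 1)
  rw [← sub_nonpos]
  refine zero_of_bdd (C := D * (3 * A.support.card + 1 / 2)) fun n => ?_
  obtain ⟨M, a1, a2, a3, a4, a5⟩ := rep_sum (phi_one hh) A.support fun p => round (n * A p)
  obtain ⟨θ, b1, b2, b3⟩ := glue hD hh h2 _ M rfl a1
  rw [Er, a4, a5 φ (phi_inv hD hh), a5 θ b2, a3, a2, zero_sub, abs_neg] at b3
  have c0 : ∀ p, |(round (n * A p) : ℝ) - n * A p| ≤ 1 := fun p => by
    rw [abs_sub_comm]; exact (abs_sub_round _).trans (by norm_num)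
  have c1 : ∀ (ψ : G → ℝ) (C : ℝ), (∀ p, |dl ψ p| ≤ C) →
      |∑ p ∈ A.support, (round (n * A p) : ℝ) * dl ψ p -
        n * Finsupp.linearCombination ℝ ψ (bd G A)| ≤ C * A.support.card := by
    intro ψ C hC
    rw [ev_bd, Finset.mul_sum, ← Finset.sum_sub_distrib, mul_comm C, ← nsmul_eq_mul]
    refine (Finset.abs_sum_le_sum_abs _ _).trans (Finset.sum_le_card_nsmul _ _ _ fun p _ => ?_)
    rw [← mul_assoc, ← sub_mul, abs_mul]
    exact (mul_le_of_le_one_left (abs_nonneg _) (c0 p)).trans (hC p)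
  have c2 := abs_le.1 (c1 φ D fun p => by
    rw [← abs_neg]; exact le_of_eq_of_le (by congr 1; simp only [dl]; ring) (hD p.1 p.2))
  have c3 := abs_le.1 (c1 θ 3 fun p => by
    have := abs_le.1 (b1 p.1)
    have := abs_le.1 (b1 p.2)
    have := abs_le.1 (b1 (p.1 * p.2))
    rw [dl, abs_le]
    constructor <;> linarith)
  have c4 : ∑ p ∈ A.support, |(round (n * A p) : ℝ)| ≤ n * n1 A + A.support.card := by
    rw [n1, Finsupp.sum, Finset.mul_sum, Finset.card_eq_sum_ones, Nat.cast_sum,
      ← Finset.sum_add_distrib]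
    refine Finset.sum_le_sum fun p _ => ?_
    have := abs_sub_abs_le_abs_sub (round (n * A p) : ℝ) (n * A p)
    rw [abs_mul, Nat.abs_cast] at this
    linarith [c0 p, Nat.cast_one (R := ℝ)]
  have c5 := mul_le_mul_of_nonneg_left (ev_le θ b1 (bd G A)) (Nat.cast_nonneg (α := ℝ) n)
  have c6 := (le_abs_self _).trans b3
  have c7 := mul_le_mul_of_nonneg_left c4 hD0
  have c8 := mul_le_mul_of_nonneg_left c5 hD0
  have c9 := mul_le_mul_of_nonneg_left c3.2 hD0
  linarith

end

/-- For every free group and every homogeneous quasimorphism φ on it with defect D, there is a function ψ within bounded distance of φ whose defect is at most D/2, hence exactly D/2. -/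
theorem result :
    ∀ (α : Type) (φ : FreeGroup α → ℝ) (D : ℝ),
      (∀ g h : FreeGroup α, |φ (g * h) - φ g - φ h| ≤ D) →
      (∀ D' : ℝ, (∀ g h : FreeGroup α, |φ (g * h) - φ g - φ h| ≤ D') → D ≤ D') →
      (∀ (g : FreeGroup α) (n : ℕ), φ (g ^ n) = (n : ℝ) * φ g) →
      ∃ ψ : FreeGroup α → ℝ,
        (∃ C : ℝ, ∀ g : FreeGroup α, |ψ g - φ g| ≤ C) ∧
        ∀ g h : FreeGroup α, |ψ (g * h) - ψ g - ψ h| ≤ D / 2 := by
  intro α φ D hD _ hh
  have h2 : ∀ x : FreeGroup α, x = x⁻¹ → x = 1 := fun x hx =>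
    (pow_eq_one_iff_left two_ne_zero).1 (by rw [sq, mul_eq_one_iff_eq_inv]; exact hx)
  obtain ⟨g, g1, g2⟩ := exists_extension_of_le_sublinear
    ⟨(bd (FreeGroup α)).graph, ((Finsupp.linearCombination ℝ φ).comp (LinearMap.snd _ _ _)).comp
      (Submodule.subtype _)⟩ (fun x => D / 2 * n1 x.1 + D / 2 * n1 x.2)
    (fun c hc x => by
      simp only [Prod.smul_fst, Prod.smul_snd, n1_smul, abs_of_pos hc]
      ring)
    (fun x y => by
      have hD0 : 0 ≤ D / 2 := by linarith [(abs_nonneg _).trans (hD 1 1)]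
      have a := mul_le_mul_of_nonneg_left (n1_add x.1 y.1) hD0
      have b := mul_le_mul_of_nonneg_left (n1_add x.2 y.2) hD0
      simp only [Prod.fst_add, Prod.snd_add]
      linarith)
    (fun x => by
      have := key hD hh h2 x.1.1
      rw [← (LinearMap.mem_graph_iff _ _).1 x.2] at this
      exact this)
  have g3 : ∀ x, |g x| ≤ D / 2 * n1 x.1 + D / 2 * n1 x.2 := fun x => by
    have := g2 (-x)
    rw [map_neg, ← neg_one_smul ℝ x] at this
    simp only [Prod.smul_fst, Prod.smul_snd, n1_smul, abs_neg, abs_one, one_mul] at this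
    exact abs_le.2 ⟨by linarith, g2 x⟩
  have n0 : ∀ X : Type, n1 (0 : X →₀ ℝ) = 0 := fun X => by simp [n1]
  refine ⟨fun x => φ x - g (0, Finsupp.single x 1), ⟨D / 2, fun x => ?_⟩, fun a b => ?_⟩
  · simpa [n0, n1_single] using g3 (0, Finsupp.single x 1)
  · have e1 := g1 ⟨(Finsupp.single (a, b) 1, bd _ (Finsupp.single (a, b) 1)), rfl⟩
    have e2 : ((Finsupp.single (a, b) 1, bd _ (Finsupp.single (a, b) 1)) :
        (FreeGroup α × FreeGroup α →₀ ℝ) × (FreeGroup α →₀ ℝ)) = (Finsupp.single (a, b) 1, 0) +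
        (0, Finsupp.single a 1) + (0, Finsupp.single b 1) - (0, Finsupp.single (a * b) 1) := by
      simp [bd]
    have e3 := g3 (Finsupp.single (a, b) 1, 0)
    change g _ = Finsupp.linearCombination ℝ φ (bd _ (Finsupp.single (a, b) 1)) at e1
    simp only [e2, map_add, map_sub] at e1
    simp only [bd, Finsupp.linearCombination_single, one_smul, map_add, map_sub] at e1
    simp only [n0, n1_single, abs_one, mul_one, mul_zero, add_zero] at e3
    rw [← abs_neg]
    refine le_of_eq_of_le ?_ e3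
    congr 1
    linarith

end Pool.Agent.S01761
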