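import Pool.Statements.S01782

set_option autoImplicit false
open Pool Pool.MP_698b85_al

namespace Pool.Agent.S01782

open Polynomial

noncomputable section

abbrev R1 : Type := AdjoinRoot (X ^ 3 : (ZMod 2)[X])
def x1 : R1 := AdjoinRoot.root _
def pol : R1[X] := X ^ 3 + (C x1 * X ^ 2 + C (x1 ^ 2) * X)
abbrev R : Type := AdjoinRoot pol
def x : R := AdjoinRoot.of pol x1
def d : R := AdjoinRoot.root pol

lemma x1_cube : x1 ^ 3 = 0 := by
  have := AdjoinRoot.eval₂_root (X ^ 3 : (ZMod 2)[X])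
  simpa [x1] using this

lemma x1_sq : x1 ^ 2 ≠ 0 := by
  have := AdjoinRoot.mk_ne_zero_of_natDegree_lt (f := (X ^ 3 : (ZMod 2)[X])) (monic_X_pow 3)
    (g := X ^ 2) (by simp) (by simp)
  simpa [x1] using this

lemma pol_monic : pol.Monic := by
  unfold pol
  monicity!

lemma pol_deg : pol.natDegree = 3 := by
  have : Nontrivial R1 := nontrivial_of_ne _ _ x1_sq
  unfold pol
  compute_degree!

lemma hx : x ^ 3 = 0 := by rw [x, ← map_pow, x1_cube, map_zero]

lemma hd : d ^ 3 + (x * d ^ 2 + x ^ 2 * d) = 0 := by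
  have : AdjoinRoot.mk pol (X ^ 3 + (C x1 * X ^ 2 + C (x1 ^ 2) * X)) = 0 := AdjoinRoot.mk_self
  simp only [map_add, map_mul, map_pow, AdjoinRoot.mk_C, AdjoinRoot.mk_X] at this
  exact this

lemma h2 : (2 : R) = 0 := by
  have : (2 : R) = AdjoinRoot.of pol (AdjoinRoot.of _ (2 : ZMod 2)) := by
    rw [map_ofNat, map_ofNat]
  rw [this, show (2 : ZMod 2) = 0 from rfl, map_zero, map_zero]

lemma hW : x ^ 2 * d ^ 2 ≠ 0 := by
  have := AdjoinRoot.mk_ne_zero_of_natDegree_lt pol_monic (g := C (x1 ^ 2) * X ^ 2)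
    (by
      intro h
      have := congrArg (fun p => coeff p 2) h
      simp only [coeff_C_mul_X_pow, if_true, coeff_zero] at this
      exact x1_sq this)
    (by rw [pol_deg]; exact (natDegree_C_mul_X_pow_le _ _).trans_lt (by norm_num))
  simpa [x, d] using this

lemma hxd3 : x * d ^ 3 = x ^ 2 * d ^ 2 := by
  linear_combination x * hd - d * hx - x ^ 2 * d ^ 2 * h2

lemma hd4 : d ^ 4 = 0 := by
  linear_combination d * hd - hxd3 - x ^ 2 * d ^ 2 * h2

def Q (r : R) : Prop := r * (x ^ 2 * d ^ 2) = 0 ∨ r * (x ^ 2 * d ^ 2) = x ^ 2 * d ^ 2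

lemma Q_add {r s : R} (h : Q r) (h' : Q s) : Q (r + s) := by
  rcases h with h | h <;> rcases h' with h' | h'
  · left; linear_combination h + h'
  · right; linear_combination h + h'
  · right; linear_combination h + h'
  · left; linear_combination h + h' + x ^ 2 * d ^ 2 * h2

lemma Q_mul {r s : R} (h : Q r) (h' : Q s) : Q (r * s) := by
  rcases h with h | h <;> rcases h' with h' | h'
  · left; linear_combination s * h
  · left; linear_combination s * h
  · left; linear_combination r * h'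
  · right; linear_combination r * h' + h

lemma Q_x : Q x := Or.inl (by linear_combination d ^ 2 * hx)
lemma Q_d : Q d := Or.inl (by linear_combination x * hxd3 + d ^ 2 * hx)

lemma Q_pow {r : R} (h : Q r) (n : ℕ) : Q (r ^ n) := by
  induction n with
  | zero => exact Or.inr (by simp)
  | succ n ih => rw [pow_succ]; exact Q_mul ih h

lemma Q_all (r : R) : Q r := by
  have h1 : ∀ a : R1, Q (AdjoinRoot.of pol a) := by
    intro a
    induction a using AdjoinRoot.induction_on with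
    | ih p =>
    induction p using Polynomial.induction_on' with
    | add p q hp hq => rw [map_add, map_add]; exact Q_add hp hq
    | monomial n c =>
      rw [← C_mul_X_pow_eq_monomial, map_mul, map_mul, map_pow, map_pow, AdjoinRoot.mk_X]
      refine Q_mul ?_ (Q_pow Q_x n)
      rw [AdjoinRoot.mk_C]
      have : ∀ c : ZMod 2, c = 0 ∨ c = 1 := by decide
      rcases this c with rfl | rfl
      · left; rw [map_zero, map_zero, zero_mul]
      · right; rw [map_one, map_one, one_mul]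
  induction r using AdjoinRoot.induction_on with
  | ih p =>
  induction p using Polynomial.induction_on' with
  | add p q hp hq => rw [map_add]; exact Q_add hp hq
  | monomial n c =>
    rw [← C_mul_X_pow_eq_monomial, map_mul, map_pow, AdjoinRoot.mk_X, AdjoinRoot.mk_C]
    exact Q_mul (h1 c) (Q_pow Q_d n)

def J (a : R) : Prop := ∃ r s, a = r * d + s * x ^ 2
def M (a : R) : Prop := ∃ p q, a = p * x + q * d

lemma key {a b : R} (ha : J a) (hb : M b) : a * b ^ 3 = 0 := by
  obtain ⟨r, s, rfl⟩ := ha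
  obtain ⟨p, q, rfl⟩ := hb
  have e : p * q * (p + q) * (x ^ 2 * d ^ 2) = 0 := by
    rcases Q_all p with h | h <;> rcases Q_all q with h' | h'
    · linear_combination q * (p + q) * h
    · linear_combination q * (p + q) * h
    · linear_combination p * (p + q) * h'
    · linear_combination p * q * h + p * q * h' + p * q * (x ^ 2 * d ^ 2) * h2
  have e5 : x ^ 2 * d ^ 3 = 0 := by linear_combination x * hxd3 + d ^ 2 * hx
  linear_combination 3 * r * e + (r * p ^ 3 * d + s * p ^ 3 * x ^ 2 + 3 * s * p ^ 2 * q * x * d +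
    3 * s * p * q ^ 2 * d ^ 2) * hx + 3 * r * p * q ^ 2 * hxd3 + r * q ^ 3 * hd4 + s * q ^ 3 * e5

lemma key4 {b : R} (hb : M b) : b ^ 4 = 0 := by
  obtain ⟨p, q, rfl⟩ := hb
  linear_combination p ^ 4 * x * hx + q ^ 4 * hd4 + (2 * p ^ 3 * x ^ 3 * q * d +
    3 * p ^ 2 * x ^ 2 * q ^ 2 * d ^ 2 + 2 * p * x * q ^ 3 * d ^ 3) * h2

def P (e : R) (b : ℕ → R) : Prop := (e = 0 ∨ e = 1) ∧ ∀ i, J (b i - e * x)

lemma P.M {e : R} {b : ℕ → R} (h : P e b) (i : ℕ) : M (b i) := by
  obtain ⟨r, s, h⟩ := h.2 i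
  exact ⟨e + s * x, r, by linear_combination h⟩

lemma J_mul {a b : R} (ha : M a) (hb : M b) : J (a * b) := by
  obtain ⟨p, q, rfl⟩ := ha
  obtain ⟨p', q', rfl⟩ := hb
  exact ⟨p * q' * x + q * p' * x + q * q' * d, p * p', by ring⟩

lemma J_add {a b : R} (ha : J a) (hb : J b) : J (a + b) := by
  obtain ⟨p, q, rfl⟩ := ha
  obtain ⟨p', q', rfl⟩ := hb
  exact ⟨p + p', q + q', by ring⟩

@[ext] structure G where
  b : ℕ → R
  m : ℕ → R
  h : ∃ e, P e b

instance : Mul G := ⟨fun g k => ⟨g.b + k.b + g.b * k.b, g.m * (1 + k.b) + k.m, by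
  obtain ⟨e, he⟩ := g.h
  obtain ⟨f, hf⟩ := k.h
  refine ⟨e + f, ?_, fun i => ?_⟩
  · rcases he.1 with rfl | rfl <;> rcases hf.1 with rfl | rfl <;> simp
    left; linear_combination h2
  · have := J_add (J_add (he.2 i) (hf.2 i)) (J_mul (he.M i) (hf.M i))
    convert this using 1
    simp only [Pi.add_apply, Pi.mul_apply]; ring⟩⟩

instance : One G := ⟨⟨0, 0, 0, Or.inl rfl, fun _ => ⟨0, 0, by simp⟩⟩⟩

instance : Inv G := ⟨fun g => ⟨-g.b + g.b ^ 2 - g.b ^ 3, -g.m * (1 - g.b + g.b ^ 2 - g.b ^ 3), by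
  obtain ⟨e, he⟩ := g.h
  refine ⟨e, he.1, fun i => ?_⟩
  obtain ⟨p, q, hpq⟩ := he.M i
  have := J_add (he.2 i) (J_mul (he.M i) (b := g.b i * (1 - g.b i))
    ⟨p * (1 - g.b i), q * (1 - g.b i), by linear_combination (1 - g.b i) * hpq⟩)
  convert this using 1
  simp only [Pi.add_apply, Pi.sub_apply, Pi.neg_apply, Pi.pow_apply]
  linear_combination (-g.b i) * h2⟩⟩

@[simp] lemma mul_b (g k : G) : (g * k).b = g.b + k.b + g.b * k.b := rfl
@[simp] lemma mul_m (g k : G) : (g * k).m = g.m * (1 + k.b) + k.m := rfl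
@[simp] lemma one_b : (1 : G).b = 0 := rfl
@[simp] lemma one_m : (1 : G).m = 0 := rfl
@[simp] lemma inv_b (g : G) : g⁻¹.b = -g.b + g.b ^ 2 - g.b ^ 3 := rfl
@[simp] lemma inv_m (g : G) : g⁻¹.m = -g.m * (1 - g.b + g.b ^ 2 - g.b ^ 3) := rfl

lemma G.b4 (g : G) : g.b ^ 4 = 0 := by
  obtain ⟨e, he⟩ := g.h
  funext i
  exact key4 (he.M i)

instance : Group G := Group.ofLeftAxioms
  (fun a b c => by ext1 <;> simp <;> ring)
  (fun a => by ext1 <;> simp)
  (fun a => by
    ext1
    · simp only [mul_b, inv_b, one_b]; linear_combination (-1 : ℕ → R) * a.b4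
    · simp only [mul_m, inv_m, one_m]; linear_combination a.m * a.b4)

lemma comm (g k : G) : (g⁻¹ * k⁻¹ * g * k).b = 0 ∧
    (g⁻¹ * k⁻¹ * g * k).m = g.m * k.b - k.m * g.b := by
  have e : g * k = k * g * ⟨0, g.m * k.b - k.m * g.b, (1 : G).h⟩ := by
    ext1
    · simp only [mul_b]; ring
    · simp only [mul_m]; ring
  have : g⁻¹ * k⁻¹ * g * k = ⟨0, g.m * k.b - k.m * g.b, (1 : G).h⟩ := by
    rw [mul_assoc, e]; group
  rw [this]; exact ⟨rfl, rfl⟩

lemma eng (g k : G) : ((fun z => z⁻¹ * k⁻¹ * z * k)^[4] g).b = 0 ∧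
    ((fun z => z⁻¹ * k⁻¹ * z * k)^[4] g).m = (g.m * k.b - k.m * g.b) * k.b ^ 3 := by
  simp only [Function.iterate_succ_apply', Function.iterate_zero_apply]
  refine ⟨(comm _ _).1, ?_⟩
  simp only [(comm _ _).1, (comm _ _).2]
  ring

lemma eng_one {g k : G} {e : R} (hg : P e g.b) (hk : P e k.b) :
    (fun z => z⁻¹ * k⁻¹ * z * k)^[4] g = 1 := by
  ext1
  · exact (eng g k).1
  · rw [(eng g k).2, one_m]
    funext i
    have h1 := key4 (hk.M i)
    have h3 := key (J_add (hg.2 i) (hk.2 i)) (hk.M i)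
    simp only [Pi.mul_apply, Pi.sub_apply, Pi.pow_apply, Pi.zero_apply]
    linear_combination (g.m i + k.m i) * h1 - k.m i * h3 - k.m i * e * x * k.b i ^ 3 * h2

def s (i : ℕ) : G := ⟨fun j => x + if j = i then d else 0, fun j => if j = i then 1 else 0,
  1, Or.inr rfl, fun j => by
    dsimp only
    split_ifs
    · exact ⟨1, 0, by ring⟩
    · exact ⟨0, 0, by ring⟩⟩

lemma s_inj : Function.Injective s := by
  intro i j h
  by_contra hne
  have := congrArg (fun g : G => g.m i) h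
  simp only [s, if_true, if_neg hne] at this
  apply hW
  linear_combination (x ^ 2 * d ^ 2) * this

lemma s_bad {i j : ℕ} (h : i ≠ j) :
    (fun z => z⁻¹ * ((s i)⁻¹ * s j)⁻¹ * z * ((s i)⁻¹ * s j))^[4] (s i) ≠ 1 := by
  intro e
  have := congrFun (eng (s i) ((s i)⁻¹ * s j)).2 j
  rw [e] at this
  simp only [one_m, mul_b, mul_m, inv_b, inv_m, s, Pi.mul_apply, Pi.sub_apply, Pi.pow_apply,
    Pi.zero_apply, Pi.add_apply, Pi.neg_apply, Pi.one_apply, if_true, if_neg h.symm] at this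
  have e1 : -(x + 0) + (x + 0) ^ 2 - (x + 0) ^ 3 + (x + d) +
      (-(x + 0) + (x + 0) ^ 2 - (x + 0) ^ 3) * (x + d) = d * (1 - x + x ^ 2) := by
    linear_combination (-x - d) * hx
  rw [e1] at this
  apply hW
  have e5 : x ^ 2 * d ^ 3 = 0 := by linear_combination x * hxd3 + d ^ 2 * hx
  linear_combination this - hxd3 - (-3 + 6 * x - 7 * x ^ 2 + 6 * x ^ 3 - 3 * x ^ 4 + x ^ 5) * e5

end

/-- The negation of the preceding statement: For every k ≥ 1 and group G: if every infinite subset has distinct x,y with [x,_k y]=[y,_k x]=1, then every infinite subset has distinct x,y generating a k-Engel subgroup. -/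
theorem result :
    ¬ (∀ k : ℕ, 1 ≤ k → ∀ (G : Type) [Group G],
      (∀ S : Set G, S.Infinite →
        ∃ x ∈ S, ∃ y ∈ S, x ≠ y ∧
          (fun z => z⁻¹ * y⁻¹ * z * y)^[k] x = 1 ∧
          (fun z => z⁻¹ * x⁻¹ * z * x)^[k] y = 1) →
      (∀ S : Set G, S.Infinite →
        ∃ x ∈ S, ∃ y ∈ S, x ≠ y ∧
          ∀ a ∈ Subgroup.closure ({x, y} : Set G),
            ∀ b ∈ Subgroup.closure ({x, y} : Set G),
              (fun z => z⁻¹ * b⁻¹ * z * b)^[k] a = 1)) := by
  intro H
  obtain ⟨_, ⟨i, rfl⟩, _, ⟨j, rfl⟩, hne, h⟩ := H 4 (by norm_num) G (by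
    intro S hS
    choose e he using fun g : G => g.h
    obtain ⟨g, hg, k, hk, hne, hgk⟩ := hS.exists_ne_map_eq_of_mapsTo (f := e) (t := {0, 1})
      (fun g _ => (he g).1) (Set.toFinite _)
    exact ⟨g, hg, k, hk, hne, eng_one (he g) (hgk ▸ he k), eng_one (hgk ▸ he k) (he g)⟩)
    (Set.range s) (Set.infinite_range_of_injective s_inj)
  have h1 : s i ∈ Subgroup.closure ({s i, s j} : Set G) := Subgroup.subset_closure (by simp)
  have h3 : s j ∈ Subgroup.closure ({s i, s j} : Set G) := Subgroup.subset_closure (by simp)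
  exact s_bad (fun e => hne (by rw [e])) (h _ h1 _ (mul_mem (inv_mem h1) h3))

end Pool.Agent.S01782
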