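import Pool.Statements.S01800
import Pool.Agent.Lib.helper7.SubLat

set_option autoImplicit false
open Pool Pool.MP_6afe75_al

namespace Pool.Agent.S01800

open Pool.Agent.Lib.helper7.SubLat

theorem meq {a b n : ℕ} (h : a = b) : a ≡ b [MOD n] := h ▸ Nat.ModEq.refl _

theorem parity {Y : Type} [Finite Y] (e : Setoid Y) (R : Y → Y → Prop) (tot : ∀ x, ∃ z, R x z)
    (fn : ∀ x z x' z', R x z → R x' z' → e x x' → e z z') (sy : ∀ x z, R x z → R z x) :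
    Nat.card (Quotient e) ≡ Nat.card {q : Quotient e // ∃ x z, R x z ∧ e x z ∧ q = ⟦x⟧} [MOD 2] := by
  classical
  choose s hs using tot
  let σ : Function.End (Quotient e) := Quotient.map s fun x y h => fn _ _ _ _ (hs x) (hs y) h
  have h2 : σ ^ 2 ^ 1 = 1 := by
    funext q
    obtain ⟨x⟩ := q
    exact Quotient.sound (fn _ _ _ _ (hs (s x)) (sy _ _ (hs x)) (e.refl _))
  haveI := Fintype.ofFinite (Quotient e)
  have := Equiv.Perm.card_fixedPoints_modEq h2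
  rw [← Nat.card_eq_fintype_card, ← Nat.card_eq_fintype_card] at this
  refine this.trans (meq (Nat.card_congr (Equiv.subtypeEquivRight ?_)))
  rintro ⟨x⟩
  constructor
  · intro h
    exact ⟨x, s x, hs x, e.symm (Quotient.exact h), rfl⟩
  · rintro ⟨y, z, h1, h2, h3⟩
    have h4 : e x y := Quotient.exact h3
    exact Quotient.sound (e.trans (fn _ _ _ _ (hs x) h1 h4) (e.trans (e.symm h2) (e.symm h4)))

noncomputable def NN {B : Type} (r s : Setoid B) (b : B) : ℕ :=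
  Nat.card (Quotient (r.comap (Subtype.val : {x // s x b} → B)))

structure T1 {L B : Type} [Lattice L] (g : L → Setoid B) : Prop where
  inf : ∀ x y a b, g (x ⊓ y) a b ↔ g x a b ∧ g y a b
  sup : ∀ x y a b, g (x ⊔ y) a b ↔ ∃ c, g x a c ∧ g y c b

namespace T1
variable {L B : Type} [Lattice L] {g : L → Setoid B}

theorem mono (h : T1 g) {x y : L} (hxy : x ≤ y) {a b : B} (hab : g x a b) : g y a b := by
  rw [← inf_eq_left.2 hxy, h.inf] at hab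
  exact hab.2

theorem split (h : T1 g) {x y z : L} (hz : z ≤ x ⊔ y) {a b : B} (hab : g z a b) :
    ∃ c, g x a c ∧ g y c b := (h.sup _ _ _ _).1 (h.mono hz hab)

theorem key (h : T1 g) {x y z w u : L} (hu : (x ⊔ y) ⊓ (z ⊔ w) ≤ u) {a b c d : B}
    (h1 : g x a c) (h2 : g y c b) (h3 : g z a d) (h4 : g w d b) : g u a b :=
  h.mono hu ((h.inf _ _ _ _).2 ⟨(h.sup _ _ _ _).2 ⟨c, h1, h2⟩, (h.sup _ _ _ _).2 ⟨d, h3, h4⟩⟩)

theorem meet (h : T1 g) {x y u : L} (hu : x ⊓ y ≤ u) {a b : B}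
    (h1 : g x a b) (h2 : g y a b) : g u a b := h.mono hu ((h.inf _ _ _ _).2 ⟨h1, h2⟩)

theorem transfer (h : T1 g) {o a c t : L} (h1 : a ⊓ c ≤ o) (h2 : o ≤ c) (h3 : a ≤ t)
    (h4 : t ≤ a ⊔ c) (b : B) : NN (g o) (g a) b = NN (g c) (g t) b := by
  refine Nat.card_congr (Equiv.ofBijective (Quotient.map (fun x => ⟨x.1, h.mono h3 x.2⟩)
    fun x y hxy => h.mono h2 hxy) ⟨?_, ?_⟩)
  · rintro ⟨x⟩ ⟨y⟩ hxy
    have k : g c x.1 y.1 :=
      Quotient.exact (s := (g c).comap (Subtype.val : {x // g t x b} → B))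
        (a := ⟨x.1, h.mono h3 x.2⟩) (b := ⟨y.1, h.mono h3 y.2⟩) hxy
    exact Quotient.sound (h.meet h1 ((g a).trans x.2 ((g a).symm y.2)) k)
  · rintro ⟨x⟩
    obtain ⟨y, k1, k2⟩ := h.split h4 ((g t).symm x.2)
    exact ⟨⟦⟨y, (g a).symm k1⟩⟧, Quotient.sound k2⟩

end T1

section Ring
variable {R : Type} [CommRing R]

abbrev l (a b c : R) : Submodule R (Fin 3 → R) := ln ⊤ ![a, b, c]

theorem l_le {a1 a2 a3 b1 b2 b3 c1 c2 c3 : R} (p q : R) (h1 : p * b1 + q * c1 = a1)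
    (h2 : p * b2 + q * c2 = a2) (h3 : p * b3 + q * c3 = a3) :
    l a1 a2 a3 ≤ l b1 b2 b3 ⊔ l c1 c2 c3 := by
  rintro _ ⟨t, -, rfl⟩
  refine (mem_ln2 ⊤).2 ⟨t * p, trivial, t * q, trivial, ?_⟩
  ext i
  fin_cases i
  · show t * p * b1 + t * q * c1 = t * a1
    rw [← h1]; ring
  · show t * p * b2 + t * q * c2 = t * a2
    rw [← h2]; ring
  · show t * p * b3 + t * q * c3 = t * a3
    rw [← h3]; ring

end Ring

theorem odd3 {B : Type} [Finite B] {g : Submodule (ZMod 3) (Fin 3 → ZMod 3) → Setoid B} (h : T1 g)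
    (b : B) : NN (g ⊥) (g (l 1 0 0)) b ≡ 1 [MOD 2] := by
  have sy := fun {x} {a c : B} (k : g x a c) => (g x).symm k
  have tr := fun {x} {a c d : B} (k : g x a c) (k' : g x c d) => (g x).trans k k'
  have bt := fun x {a c : B} (k : g ⊥ a c) => h.mono (bot_le (a := x)) k
  refine (parity _ (fun x z : {x // g (l 1 0 0) x b} =>
    ∃ y, g (l 0 1 0) y b ∧ g (l 1 (-1) 0) y x.1 ∧ g (l 1 1 0) z.1 y) ?_ ?_ ?_).trans
    (meq ?_)
  · intro x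
    obtain ⟨y, k1, k2⟩ := h.split (l_le (b1 := 0) (b2 := 1) (b3 := 0) (c1 := 1) (c2 := -1) (c3 := 0)
      1 1 (by ring) (by ring) (by ring)) (sy x.2)
    obtain ⟨z, k3, k4⟩ := h.split (l_le (b1 := 1) (b2 := 0) (b3 := 0) (c1 := 1) (c2 := 1) (c3 := 0)
      (-1) 1 (by ring) (by ring) (by ring)) k1
    exact ⟨⟨z, sy k3⟩, y, sy k1, k2, k4⟩
  · rintro x z x' z' ⟨y, k1, k2, k3⟩ ⟨y', k4, k5, k6⟩ e
    have e1 : g ⊥ y y' := h.meet (meet_bot ⊤ (by decide)) (tr k1 (sy k4))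
      (tr k2 (tr (bt _ e) (sy k5)))
    exact h.meet (meet_bot ⊤ (by decide)) (tr z.2 (sy z'.2)) (tr k3 (tr (bt _ e1) (sy k6)))
  · rintro x z ⟨y, k1, k2, k3⟩
    obtain ⟨y', k4, k5⟩ := h.split (l_le (b1 := 0) (b2 := 1) (b3 := 0) (c1 := 1) (c2 := -1)
      (c3 := 0) 1 1 (by ring) (by ring) (by ring)) (sy z.2)
    obtain ⟨w, k6, k7⟩ := h.split (l_le (b1 := 0) (b2 := 0) (b3 := 1) (c1 := 1) (c2 := 0)
      (c3 := -1) 1 1 (by ring) (by ring) (by ring)) (sy x.2)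
    have m1 : g (l 0 1 (-1)) y w :=
      h.key (meet_le ⊤ (e1 := 0) (e2 := -1) (e3 := 1) (by decide +kernel) |>.trans
        ((l_le (c1 := 0) (c2 := 1) (c3 := -1) (-1) 0 (by ring) (by ring) (by ring)).trans
          (sup_idem _).le)) k2 (sy k7) k1 k6
    have m2 : g (l 1 0 1) z.1 w := h.key (meet_le ⊤ (by decide +kernel)) k3 m1 z.2 k6
    have m3 : g (l 0 1 1) w y' := h.key (meet_le ⊤ (by decide +kernel)) (sy m2) (sy k5) (sy k6) k4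
    exact ⟨y', sy k4, k5, h.key (meet_le ⊤ (by decide +kernel)) (sy k7) m3 x.2 k4⟩
  · rw [Nat.card_eq_one_iff_exists]
    refine ⟨⟨⟦⟨b, (g _).refl b⟩⟧, _, ⟨b, (g _).refl b⟩,
      ⟨b, (g _).refl b, (g _).refl b, (g _).refl b⟩, (g _).refl b, rfl⟩, ?_⟩
    rintro ⟨_, x, z, ⟨y, k1, k2, k3⟩, e, rfl⟩
    have e1 : g ⊥ y x.1 := h.meet (meet_bot ⊤ (by decide)) k2 (sy (tr (bt _ e) k3))
    have e2 : g ⊥ y b := h.meet (meet_bot ⊤ (by decide)) k1 (tr (bt _ e1) x.2)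
    exact Subtype.ext (Quotient.sound (tr (sy e1) e2))

theorem even2 {B : Type} [Finite B] {g : Submodule (ZMod 2) (Fin 3 → ZMod 2) → Setoid B} (h : T1 g)
    (b x0 : B) (h1 : g (l 1 0 0) b x0) (h2 : ¬ g ⊥ b x0) :
    NN (g ⊥) (g (l 1 0 0)) b ≡ 0 [MOD 2] := by
  have sy := fun {x} {a c : B} (k : g x a c) => (g x).symm k
  have tr := fun {x} {a c d : B} (k : g x a c) (k' : g x c d) => (g x).trans k k'
  have bt := fun x {a c : B} (k : g ⊥ a c) => h.mono (bot_le (a := x)) k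
  obtain ⟨y0, j1, j2⟩ := h.split (l_le (b1 := 0) (b2 := 1) (b3 := 0) (c1 := 1) (c2 := 1) (c3 := 0)
      1 1 (by decide) (by decide) (by decide)) h1
  have j3 : ¬ g ⊥ b y0 := fun e => h2 (h.meet (meet_bot ⊤ (by decide)) h1 (tr (bt _ e) j2))
  have ex : ∀ x : {x // g (l 1 0 0) x b}, ∃ m, g (l 0 1 0) x.1 m ∧ g (l 1 0 0) m y0 := fun x =>
    h.split (sup_comm _ _).le ((h.sup _ _ _ _).2 ⟨b, x.2, j1⟩)
  refine (parity _ (fun x z : {x // g (l 1 0 0) x b} =>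
    ∃ m, g (l 0 1 0) x.1 m ∧ g (l 1 0 0) m y0 ∧ g (l 1 1 0) z.1 m) ?_ ?_ ?_).trans
    (meq ?_)
  · intro x
    obtain ⟨m, k1, k2⟩ := ex x
    obtain ⟨z, k3, k4⟩ := h.split (l_le (b1 := 1) (b2 := 0) (b3 := 0) (c1 := 1) (c2 := 1) (c3 := 0)
      1 1 (by decide) (by decide) (by decide)) k1
    exact ⟨⟨z, tr (sy k3) x.2⟩, m, k1, k2, k4⟩
  · rintro x z x' z' ⟨y, k1, k2, k3⟩ ⟨y', k4, k5, k6⟩ e
    have e1 : g ⊥ y y' := h.meet (meet_bot ⊤ (by decide)) (tr k2 (sy k5))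
      (tr (sy k1) (tr (bt _ e) k4))
    exact h.meet (meet_bot ⊤ (by decide)) (tr z.2 (sy z'.2)) (tr k3 (tr (bt _ e1) (sy k6)))
  · rintro x z ⟨m, k1, k2, k3⟩
    obtain ⟨m', k4, k5⟩ := ex z
    have k0 : g (l 1 0 0) x.1 z.1 := tr x.2 (sy z.2)
    obtain ⟨w, k6, k7⟩ := h.split (l_le (b1 := 0) (b2 := 0) (b3 := 1) (c1 := 1) (c2 := 0)
      (c3 := 1) 1 1 (by decide) (by decide) (by decide)) k0
    have m1 : g (l 0 1 1) w m := h.key (meet_le ⊤ (by decide +kernel)) k7 k3 (sy k6) k1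
    have m2 : g (l 1 1 1) w m' :=
      h.key (meet_le ⊤ (by decide +kernel)) k7 k4 m1 (tr k2 (sy k5))
    exact ⟨m', k4, k5, sy (h.key (meet_le ⊤ (by decide +kernel)) (sy m2) (sy k6) (sy k4) (sy k0))⟩
  · rw [Nat.card_eq_zero]
    left
    constructor
    rintro ⟨_, x, z, ⟨y, k1, k2, k3⟩, e, rfl⟩
    have e1 : g ⊥ x.1 y := h.meet (meet_bot ⊤ (by decide)) k1 (tr (bt _ e) k3)
    exact j3 (h.meet (meet_bot ⊤ (by decide)) (tr (sy x.2) (tr (bt _ e1) k2)) j1)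

def Cmp {A : Type} (r r' s : Setoid A) : Prop := ∀ a b, s a b ↔ ∃ c, r a c ∧ r' c b

theorem Cmp.eq {A : Type} {r r' s : Setoid A} (h : Cmp r r' s) : r ⊔ r' = s := by
  refine le_antisymm (sup_le (fun a b k => (h a b).2 ⟨b, k, r'.refl b⟩)
    fun a b k => (h a b).2 ⟨a, r.refl a, k⟩) fun a b k => ?_
  obtain ⟨c, k1, k2⟩ := (h a b).1 k
  exact (r ⊔ r').trans (Setoid.le_def.1 le_sup_left k1) (Setoid.le_def.1 le_sup_right k2)

theorem Cmp.symm {A : Type} {r r' s : Setoid A} (h : Cmp r r' s) : Cmp r' r s := by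
  intro a b
  constructor
  · intro k
    obtain ⟨c, k1, k2⟩ := (h b a).1 (s.symm k)
    exact ⟨c, r'.symm k2, r.symm k1⟩
  · rintro ⟨c, k1, k2⟩
    exact s.symm ((h b a).2 ⟨c, r.symm k2, r'.symm k1⟩)

section Model
variable {R : Type} [CommRing R]

def Fs (S : Submodule R (Fin 3 → R)) : Setoid (ℕ → Fin 3 → R) where
  r x y := ∀ n, x n - y n ∈ S
  iseqv := ⟨fun x n => by simp, fun h n => by simpa using S.neg_mem (h n),
    fun h h' n => by simpa using S.add_mem (h n) (h' n)⟩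

theorem Fs_T1 : T1 (Fs (R := R)) := by
  refine ⟨fun S T a b => ⟨fun h => ⟨fun n => (h n).1, fun n => (h n).2⟩,
    fun h n => ⟨h.1 n, h.2 n⟩⟩, fun S T a b => ⟨fun h => ?_, ?_⟩⟩
  · choose s hs t ht e using fun n => Submodule.mem_sup.1 (h n)
    refine ⟨a - s, fun n => by simpa using hs n, fun n => ?_⟩
    have : (a - s) n - b n = t n := by rw [Pi.sub_apply, sub_right_comm, ← e n]; simp
    rw [this]; exact ht n
  · rintro ⟨c, h1, h2⟩ n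
    simpa using Submodule.add_mem_sup (h1 n) (h2 n)

end Model

abbrev AA : Type := (ℕ → Fin 3 → ZMod 2) × (ℕ → ZMod 3) × (ℕ → ZMod 3)

theorem exists_beta : Nonempty ((ℕ → ZMod 2) ≃ (ℕ → ZMod 3)) := by
  rw [← Cardinal.eq]
  simp
  exact (Cardinal.nat_power_aleph0 (n := 3) (by norm_num)).symm

section Glue
variable (β : (ℕ → ZMod 2) ≃ (ℕ → ZMod 3))

def YY (a : AA) : ℕ → Fin 3 → ZMod 3 := fun n => ![β (fun k => a.1 k 0) n, a.2.1 n, a.2.2 n]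

theorem YY_surj (y : ℕ → Fin 3 → ZMod 3) : ∃ a, YY β a = y := by
  refine ⟨(fun k _ => β.symm (fun n => y n 0) k, fun n => y n 1, fun n => y n 2), ?_⟩
  funext n i
  fin_cases i
  · show β (β.symm fun n => y n 0) n = _
    simp
  · rfl
  · rfl

def Fp (S : Submodule (ZMod 2) (Fin 3 → ZMod 2)) : Setoid AA :=
  (Fs S).comap Prod.fst ⊓ Setoid.ker Prod.snd

def Fq (T : Submodule (ZMod 3) (Fin 3 → ZMod 3)) : Setoid AA := (Fs T).comap (YY β)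

theorem Fp_T1 : T1 Fp := by
  refine ⟨fun S T a b => ⟨fun h => ⟨⟨((Fs_T1.inf _ _ _ _).1 h.1).1, h.2⟩,
    ((Fs_T1.inf _ _ _ _).1 h.1).2, h.2⟩, fun h => ⟨(Fs_T1.inf _ _ _ _).2 ⟨h.1.1, h.2.1⟩, h.1.2⟩⟩,
    fun S T a b => ⟨fun h => ?_, ?_⟩⟩
  · obtain ⟨c, h1, h2⟩ := (Fs_T1.sup _ _ _ _).1 h.1
    exact ⟨(c, a.2), ⟨h1, rfl⟩, h2, h.2⟩
  · rintro ⟨c, h1, h2⟩
    exact ⟨(Fs_T1.sup _ _ _ _).2 ⟨c.1, h1.1, h2.1⟩, Eq.trans h1.2 h2.2⟩

theorem Fq_T1 : T1 (Fq β) := by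
  refine ⟨fun S T a b => Fs_T1.inf _ _ _ _, fun S T a b => ⟨fun h => ?_, ?_⟩⟩
  · obtain ⟨c, h1, h2⟩ := (Fs_T1.sup _ _ _ _).1 h
    obtain ⟨c, rfl⟩ := YY_surj β c
    exact ⟨c, h1, h2⟩
  · rintro ⟨c, h1, h2⟩
    exact (Fs_T1.sup _ _ _ _).2 ⟨_, h1, h2⟩

def cc : Submodule (ZMod 2) (Fin 3 → ZMod 2) := LinearMap.ker (LinearMap.proj 0)

theorem mem_cc (v : Fin 3 → ZMod 2) : v ∈ cc ↔ v 0 = 0 := Iff.rfl

theorem mem_t (v : Fin 3 → ZMod 3) : v ∈ l (1 : ZMod 3) 0 0 ↔ v 1 = 0 ∧ v 2 = 0 := by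
  constructor
  · rintro ⟨t, -, rfl⟩
    simp
  · rintro ⟨h1, h2⟩
    refine ⟨v 0, trivial, ?_⟩
    ext i; fin_cases i <;> simp [h1, h2]

theorem glue1 : Fp cc = Fq β ⊥ := by
  ext a b
  show ((∀ n, a.1 n 0 - b.1 n 0 = 0) ∧ a.2 = b.2) ↔ ∀ n, YY β a n - YY β b n ∈ (⊥ : Submodule _ _)
  simp only [Submodule.mem_bot, sub_eq_zero]
  constructor
  · rintro ⟨h1, h2⟩ n
    simp only [YY, h1, h2]
  · intro h
    refine ⟨congrFun (β.injective (funext fun n => congrFun (h n) 0)), Prod.ext ?_ ?_⟩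
    · exact funext fun n => congrFun (h n) 1
    · exact funext fun n => congrFun (h n) 2

theorem glue2 : Fp ⊤ = Fq β (l 1 0 0) := by
  ext a b
  show ((∀ n, a.1 n - b.1 n ∈ (⊤ : Submodule _ _)) ∧ a.2 = b.2) ↔
    ∀ n, YY β a n - YY β b n ∈ l (1 : ZMod 3) 0 0
  simp only [Submodule.mem_top, implies_true, true_and, mem_t, Pi.sub_apply, sub_eq_zero]
  constructor
  · intro h n
    simp only [YY, h, and_self]
    exact ⟨rfl, rfl⟩
  · intro h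
    exact Prod.ext (funext fun n => (h n).1) (funext fun n => (h n).2)

theorem cc_coatom (S : Submodule (ZMod 2) (Fin 3 → ZMod 2)) : S ≤ cc ∨ ⊤ ≤ S ⊔ cc := by
  by_cases h : S ≤ cc
  · exact Or.inl h
  · right
    obtain ⟨w, hw, h0⟩ := SetLike.not_le_iff_exists.1 h
    intro v _
    refine Submodule.mem_sup.2 ⟨v 0 • w, S.smul_mem _ hw, v - v 0 • w, ?_, by simp⟩
    rw [mem_cc] at h0 ⊢
    have : ∀ a b : ZMod 2, ¬ b = 0 → a - a * b = 0 := by decide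
    exact this _ _ h0

theorem t_atom (T : Submodule (ZMod 3) (Fin 3 → ZMod 3)) : l 1 0 0 ≤ T ∨ l 1 0 0 ⊓ T ≤ ⊥ := by
  by_cases h : l 1 0 0 ⊓ T ≤ ⊥
  · exact Or.inr h
  · left
    obtain ⟨w, ⟨⟨s, -, rfl⟩, hw⟩, h0⟩ := SetLike.not_le_iff_exists.1 h
    rintro _ ⟨t, -, rfl⟩
    have hs : s ≠ 0 := by
      rintro rfl
      simp at h0
    have : ∀ s t : ZMod 3, s ≠ 0 → t * s * s = t := by decide
    have h2 := T.smul_mem (t * s) hw
    rwa [LinearMap.toSpanSingleton_apply, smul_smul, this s t hs] at h2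

theorem mixed_sup (S : Submodule (ZMod 2) (Fin 3 → ZMod 2))
    (T : Submodule (ZMod 3) (Fin 3 → ZMod 3)) : ∃ T', Cmp (Fp S) (Fq β T) (Fq β T') := by
  have hc : ∀ a b, Fp cc a b → Fq β T a b := fun a b h =>
    (Fq_T1 β).mono bot_le (glue1 β ▸ h)
  rcases cc_coatom S with h | h
  · exact ⟨T, fun a b => ⟨fun k => ⟨a, (Fp S).refl a, k⟩,
      fun ⟨c, k1, k2⟩ => (Fq β T).trans (hc _ _ (Fp_T1.mono h k1)) k2⟩⟩
  · refine ⟨l 1 0 0 ⊔ T, fun a b => ?_⟩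
    rw [(Fq_T1 β).sup, ← glue2]
    constructor
    · rintro ⟨c, k1, k2⟩
      obtain ⟨d, k3, k4⟩ := Fp_T1.split h k1
      exact ⟨d, k3, (Fq β T).trans (hc _ _ k4) k2⟩
    · rintro ⟨c, k1, k2⟩
      exact ⟨c, Fp_T1.mono le_top k1, k2⟩

theorem mixed_inf (S : Submodule (ZMod 2) (Fin 3 → ZMod 2))
    (T : Submodule (ZMod 3) (Fin 3 → ZMod 3)) : ∃ S', Fp S' = Fp S ⊓ Fq β T := by
  have hc : ∀ a b, Fp S a b → Fq β (l 1 0 0) a b := fun a b h =>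
    glue2 β ▸ Fp_T1.mono le_top h
  rcases t_atom T with h | h
  · exact ⟨S, Setoid.ext fun a b => ⟨fun k => ⟨k, (Fq_T1 β).mono h (hc _ _ k)⟩, fun k => k.1⟩⟩
  · refine ⟨S ⊓ cc, Setoid.ext fun a b => ?_⟩
    rw [Fp_T1.inf, glue1 β]
    exact ⟨fun k => ⟨k.1, (Fq_T1 β).mono bot_le k.2⟩,
      fun k => ⟨k.1, (Fq_T1 β).meet h (hc _ _ k.1) k.2⟩⟩

theorem all_cmp (u v : Setoid AA) (hu : u ∈ Set.range Fp ∪ Set.range (Fq β))
    (hv : v ∈ Set.range Fp ∪ Set.range (Fq β)) :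
    ∃ s ∈ Set.range Fp ∪ Set.range (Fq β), Cmp u v s := by
  rcases hu with ⟨S, rfl⟩ | ⟨S, rfl⟩ <;> rcases hv with ⟨T, rfl⟩ | ⟨T, rfl⟩
  · exact ⟨_, Or.inl ⟨S ⊔ T, rfl⟩, Fp_T1.sup S T⟩
  · obtain ⟨T', h⟩ := mixed_sup β S T
    exact ⟨_, Or.inr ⟨T', rfl⟩, h⟩
  · obtain ⟨T', h⟩ := mixed_sup β T S
    exact ⟨_, Or.inr ⟨T', rfl⟩, h.symm⟩
  · exact ⟨_, Or.inr ⟨S ⊔ T, rfl⟩, (Fq_T1 β).sup S T⟩

def LL : Sublattice (Setoid AA) where
  carrier := Set.range Fp ∪ Set.range (Fq β)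
  supClosed' u hu v hv := by
    obtain ⟨s, hs, h⟩ := all_cmp β u v hu hv
    rw [h.eq]; exact hs
  infClosed' := by
    rintro _ (⟨S, rfl⟩ | ⟨S, rfl⟩) _ (⟨T, rfl⟩ | ⟨T, rfl⟩)
    · exact Or.inl ⟨S ⊓ T, Setoid.ext (Fp_T1.inf S T)⟩
    · exact Or.inl (mixed_inf β S T)
    · rw [inf_comm]; exact Or.inl (mixed_inf β T S)
    · exact Or.inr ⟨S ⊓ T, Setoid.ext ((Fq_T1 β).inf S T)⟩

end Glue

theorem T1.comp {L A B : Type} [Lattice L] {F : L → Setoid A} (hF : T1 F)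
    (M : Sublattice (Setoid A)) (hm : ∀ x, F x ∈ M) (g : LatticeHom M (Setoid B))
    (hg : ∀ (x y : M) (a b : B), (g (x ⊔ y)).r a b ↔ ∃ c : B, (g x).r a c ∧ (g y).r c b) :
    T1 fun x => g ⟨F x, hm x⟩ := by
  constructor
  · intro x y a b
    have : (⟨F (x ⊓ y), hm _⟩ : M) = ⟨F x, hm x⟩ ⊓ ⟨F y, hm y⟩ :=
      Subtype.ext (Setoid.ext (hF.inf x y))
    show g ⟨F (x ⊓ y), hm _⟩ a b ↔ _
    rw [this, map_inf]
    rfl
  · intro x y a b
    have : (⟨F (x ⊔ y), hm _⟩ : M) = ⟨F x, hm x⟩ ⊔ ⟨F y, hm y⟩ :=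
      Subtype.ext (Cmp.eq (hF.sup x y)).symm
    show g ⟨F (x ⊔ y), hm _⟩ a b ↔ _
    rw [this]
    exact hg _ _ a b
/-- The negation of the preceding statement: Every finite lattice that embeds into the equivalence relations on some set, with each join realized as relational composition, also has such an embedding on a finite set. -/
theorem result :
    ¬ (∀ (L : Type) [Lattice L] [Finite L],
      (∃ (A : Type) (f : LatticeHom L (Setoid A)), Function.Injective f ∧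
        ∀ (x y : L) (a b : A), (f (x ⊔ y)).r a b ↔ ∃ c : A, (f x).r a c ∧ (f y).r c b) →
      (∃ (B : Type) (_ : Finite B) (g : LatticeHom L (Setoid B)), Function.Injective g ∧
        ∀ (x y : L) (a b : B), (g (x ⊔ y)).r a b ↔ ∃ c : B, (g x).r a c ∧ (g y).r c b)) := by
  intro H
  obtain ⟨β⟩ := exists_beta
  haveI : Finite (LL β) := ((Set.finite_range Fp).union (Set.finite_range (Fq β))).to_subtype
  obtain ⟨B, _, g, hg, h⟩ := H (LL β) ⟨AA, (LL β).subtype, Subtype.val_injective, fun x y a b => by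
    obtain ⟨s, -, hs⟩ := all_cmp β x.1 y.1 x.2 y.2
    have : (LL β).subtype (x ⊔ y) = s := hs.eq
    rw [this]
    exact hs a b⟩
  have hp := Fp_T1.comp (LL β) (fun x => Or.inl ⟨x, rfl⟩) g h
  have hq := (Fq_T1 β).comp (LL β) (fun x => Or.inr ⟨x, rfl⟩) g h
  have e1 : ¬ Fp ⊤ = Fp cc := by
    intro e
    have : Fp ⊤ (fun _ _ => 1, 0, 0) (0, 0, 0) := ⟨fun _ => trivial, rfl⟩
    rw [e] at this
    exact absurd (this.1 0) (by rw [mem_cc]; decide)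
  have e2 : ∃ b b', g ⟨Fp ⊤, Or.inl ⟨_, rfl⟩⟩ b b' ∧ ¬ g ⟨Fp cc, Or.inl ⟨_, rfl⟩⟩ b b' := by
    by_contra hn
    push Not at hn
    exact e1 (congrArg Subtype.val (hg (Setoid.ext fun a b => ⟨hn a b, hp.mono le_top⟩)))
  obtain ⟨b, b', k1, k2⟩ := e2
  have t1 : (⊤ : Submodule (ZMod 2) (Fin 3 → ZMod 2)) ≤ l 1 0 0 ⊔ cc :=
    (cc_coatom _).resolve_left fun hh => absurd (hh ⟨1, trivial, rfl⟩) (by rw [mem_cc]; decide)
  have t2 : l (1 : ZMod 2) 0 0 ⊓ cc ≤ ⊥ := by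
    rintro _ ⟨⟨t, -, rfl⟩, ht⟩
    have : t = 0 := by simpa using (mem_cc _).1 ht
    simp [this]
  obtain ⟨x0, k3, k4⟩ := hp.split t1 k1
  have a1 := even2 hp b x0 k3 fun e => k2 (Setoid.trans' _ (hp.mono bot_le e) k4)
  rw [hp.transfer t2 bot_le le_top t1] at a1
  have a2 := odd3 hq b
  simp only [← glue1 β, ← glue2 β] at a2
  exact absurd (a1.symm.trans a2) (by decide)

end Pool.Agent.S01800
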