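import Pool.Statements.S01806
import Pool.Agent.Lib.H8.FitZ

set_option autoImplicit false
open Pool Pool.MP_6b3431_al

namespace Pool.Agent.S01806

/-- The negation of the preceding statement: If F is the smallest Hartley-local Fitting class containing a finite group G, F is soluble, F equals the Fitting product MH of Fitting classes M (nonempty) and H, and M differs from F, then H is a local Fitting class. -/
theorem result :
    ¬ (∀ (Fit : ((G : Type) → [Group G] → Prop) → Prop)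
    (Prod : ((G : Type) → [Group G] → Prop) → ((G : Type) → [Group G] → Prop) →
      (G : Type) → [Group G] → Prop)
    (Loc : ((G : Type) → [Group G] → Prop) → Prop),
  (∀ C : (G : Type) → [Group G] → Prop, Fit C ↔
      ((∀ (G K : Type) [Group G] [Group K], Nonempty (G ≃* K) → C G → C K) ∧
       (∀ (G : Type) [Group G] [Finite G] (N : Subgroup G), N.Normal → C G → C ↥N) ∧
       (∀ (G : Type) [Group G] [Finite G] (N K : Subgroup G),
          N.Normal → K.Normal → C ↥N → C ↥K → C ↥(N ⊔ K)))) →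
  (∀ (C D : (G : Type) → [Group G] → Prop) (G : Type) [Group G], Prod C D G ↔
      ∀ (N : Subgroup G) [N.Normal],
        (C ↥N ∧ ∀ K : Subgroup G, K.Normal → C ↥K → K ≤ N) → D (G ⧸ N)) →
  (∀ C : (G : Type) → [Group G] → Prop, Loc C ↔
      ∃ f : ℕ → ((G : Type) → [Group G] → Prop), (∀ p, Fit (f p)) ∧
        ∀ (G : Type) [Group G] [Finite G], C G ↔
          ((∀ p : ℕ, p.Prime → p ∣ Nat.card G →
              ∃ (K : Type) (_ : Group K) (_ : Finite K), f p K) ∧
           ∀ p : ℕ, p.Prime → (∃ (K : Type) (_ : Group K) (_ : Finite K), f p K) →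
             Prod (f p)
               (fun (Q : Type) [Group Q] =>
                 ∃ P : Subgroup Q, P.Normal ∧ IsPGroup p ↥P ∧ Nat.Coprime P.index p) G)) →
  ∀ (F M H : (G : Type) → [Group G] → Prop) (G₀ : Type) [Group G₀] [Finite G₀],
    Fit M → Fit H → (∃ (K : Type) (_ : Group K) (_ : Finite K), M K) →
    Loc F → F G₀ →
    (∀ C : (G : Type) → [Group G] → Prop, Loc C → C G₀ →
      ∀ (G : Type) [Group G] [Finite G], F G → C G) →
    (∀ (G : Type) [Group G] [Finite G], F G → IsSolvable G) →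
    (∀ (G : Type) [Group G] [Finite G], F G ↔ Prod M H G) →
    (∃ (G : Type) (_ : Group G) (_ : Finite G), ¬ (M G ↔ F G)) →
    Loc H) := by
  intro h
  have h1 := h Pool.Agent.Lib.H8.FitP.IsFit Pool.Agent.Lib.H8.FitZ.PProd
    Pool.Agent.Lib.H8.FitZ.IsLoc (fun _ => Iff.rfl) (fun _ _ _ _ => Iff.rfl) (fun _ => Iff.rfl)
    Pool.Agent.Lib.H8.FitZ.FF Pool.Agent.Lib.H8.FitZ.MM Pool.Agent.Lib.H8.FitZ.HH
    Pool.Agent.Lib.H8.FitZ.E Pool.Agent.Lib.H8.FitZ.fit_MM Pool.Agent.Lib.H8.FitZ.fit_HH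
    ⟨PUnit, inferInstance, inferInstance, fun _ => ⟨0, rfl⟩⟩
    Pool.Agent.Lib.H8.FitZ.loc_FF Pool.Agent.Lib.H8.FitZ.E_cube.1
    (fun _ hC hE G _ _ hG => Pool.Agent.Lib.H8.FitZ.loc_E hC hE G hG)
    (fun _ _ _ hG => hG.solv) (fun _ _ _ => Pool.Agent.Lib.H8.FitZ.FF.prod)
    ⟨Pool.Agent.Lib.H8.FitZ.E, inferInstance, inferInstance,
      fun h => Pool.Agent.Lib.H8.FitZ.not_MM_E (h.2 Pool.Agent.Lib.H8.FitZ.E_cube.1)⟩
  exact Pool.Agent.Lib.H8.FitZ.not_HH_S (Pool.Agent.Lib.H8.FitZ.loc_E h1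
    Pool.Agent.Lib.H8.FitZ.HH_E _ Pool.Agent.Lib.H8.FitZ.S_cube.1)

end Pool.Agent.S01806
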