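import Pool.Statements.S01827

set_option autoImplicit false
open Pool Pool.MP_6d5e8e_al

namespace Pool.Agent.S01827

theorem abstract {R E : Type} [Ring R] [Ring E] (π : R →+ E) (a1 a2 b1 b2 : R) (x1 x2 y1 y2 : E)
    (ha1 : ∀ r, π (r * a1) = π r * x1) (ha2 : ∀ r, π (r * a2) = π r * x2)
    (hb1 : ∀ r, π (r * b1) = π r * y1) (hb2 : ∀ r, π (r * b2) = π r * y2)
    (h11 : x1 * y1 = 1) (h12 : x1 * y2 = 0) (h21 : x2 * y1 = 0) (h22 : x2 * y2 = 1)
    (hs : y1 * x1 + y2 * x2 = 1) (h1 : π 1 ≠ 0) :
    ∃ (V : Type) (_ : AddCommGroup V) (_ : Module R V), Nontrivial V ∧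
      (∃ v : V, Submodule.span R {v} = ⊤) ∧ Nonempty (V ≃ₗ[R] (V × V)) := by
  let I : Submodule R R :=
    { carrier := {r | ∀ s, π (s * r) = 0}
      add_mem' := by
        intro a b ha hb s
        rw [mul_add, map_add, ha s, hb s, add_zero]
      zero_mem' := by
        intro s
        rw [mul_zero, map_zero]
      smul_mem' := by
        intro c r hr s
        rw [smul_eq_mul, ← mul_assoc]
        exact hr _ }
  have hI : ∀ r, r ∈ I ↔ ∀ s, π (s * r) = 0 := fun r => Iff.rfl
  let ρ : ∀ (c : R) (x : E), (∀ r, π (r * c) = π r * x) → (R ⧸ I) →ₗ[R] (R ⧸ I) := fun c x h =>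
    I.mapQ I (LinearMap.toSpanSingleton R R c) (by
      intro r hr s
      change π (s * (r * c)) = 0
      rw [← mul_assoc, h, hr s, zero_mul])
  have hρ : ∀ c x h (r : R), ρ c x h (Submodule.Quotient.mk r) = Submodule.Quotient.mk (r * c) :=
    fun _ _ _ _ => rfl
  refine ⟨R ⧸ I, inferInstance, inferInstance, ?_, ⟨Submodule.Quotient.mk 1, ?_⟩, ⟨?_⟩⟩
  · refine ⟨Submodule.Quotient.mk 1, 0, fun h => h1 ?_⟩
    have := (hI 1).mp ((Submodule.Quotient.mk_eq_zero I).mp h) 1
    rwa [mul_one] at this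
  · rw [eq_top_iff]
    intro v _
    obtain ⟨r, rfl⟩ := Submodule.Quotient.mk_surjective I v
    rw [Submodule.mem_span_singleton]
    exact ⟨r, by rw [← Submodule.Quotient.mk_smul, smul_eq_mul, mul_one]⟩
  · refine LinearEquiv.ofLinearMap (LinearMap.prod (ρ b1 y1 hb1) (ρ b2 y2 hb2))
      (LinearMap.coprod (ρ a1 x1 ha1) (ρ a2 x2 ha2)) ?_ ?_
    · refine LinearMap.ext fun v => ?_
      obtain ⟨v, w⟩ := v
      obtain ⟨r, rfl⟩ := Submodule.Quotient.mk_surjective I v
      obtain ⟨q, rfl⟩ := Submodule.Quotient.mk_surjective I w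
      simp only [LinearMap.comp_apply, LinearMap.coprod_apply, LinearMap.prod_apply, Function.prod,
        hρ, ← Submodule.Quotient.mk_add, LinearMap.id_apply, Prod.mk.injEq,
        Submodule.Quotient.eq, hI]
      constructor
      · intro s
        simp only [mul_sub, mul_add, add_mul, ← mul_assoc, map_sub, map_add, ha1, ha2, hb1]
        simp only [mul_assoc, h11, h21, mul_one, mul_zero, add_zero, sub_self]
      · intro s
        simp only [mul_sub, mul_add, add_mul, ← mul_assoc, map_sub, map_add, ha1, ha2, hb2]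
        simp only [mul_assoc, h12, h22, mul_one, mul_zero, zero_add, sub_self]
    · refine LinearMap.ext fun v => ?_
      obtain ⟨r, rfl⟩ := Submodule.Quotient.mk_surjective I v
      simp only [LinearMap.comp_apply, LinearMap.coprod_apply, LinearMap.prod_apply, Function.prod,
        hρ, ← Submodule.Quotient.mk_add, LinearMap.id_apply, Submodule.Quotient.eq, hI]
      intro s
      simp only [mul_sub, mul_add, ← mul_assoc, map_sub, map_add, ha1, ha2, hb1, hb2]
      rw [mul_assoc, mul_assoc, ← mul_add, hs, mul_one, sub_self]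

/-- The unrestricted wreath product of an additive group with the integers. -/
@[ext] structure W (E : Type) where
  f : ℤ → E
  k : ℤ

variable {E : Type} [Ring E]

instance : Group (W E) where
  mul a b := ⟨fun j => a.f j + b.f (j - a.k), a.k + b.k⟩
  one := ⟨0, 0⟩
  inv a := ⟨fun j => - a.f (j + a.k), - a.k⟩
  mul_assoc a b c := by
    change (⟨fun j => (a.f j + b.f (j - a.k)) + c.f (j - (a.k + b.k)), (a.k + b.k) + c.k⟩ : W E) =
      ⟨fun j => a.f j + (b.f (j - a.k) + c.f (j - a.k - b.k)), a.k + (b.k + c.k)⟩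
    simp only [add_assoc, sub_sub]
  one_mul a := by
    change (⟨fun j => 0 + a.f (j - 0), 0 + a.k⟩ : W E) = a
    simp
  mul_one a := by
    change (⟨fun j => a.f j + 0, a.k + 0⟩ : W E) = a
    simp
  inv_mul_cancel a := by
    change (⟨fun j => - a.f (j + a.k) + a.f (j - - a.k), - a.k + a.k⟩ : W E) = ⟨0, 0⟩
    simp [Pi.zero_def]

theorem mul_f (a b : W E) (j : ℤ) : (a * b).f j = a.f j + b.f (j - a.k) := rfl
theorem mul_k (a b : W E) : (a * b).k = a.k + b.k := rfl
theorem inv_k (a : W E) : (a⁻¹).k = - a.k := rfl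

def PP (f : ℤ → E) : ℕ → E
  | 0 => 1
  | n + 1 => PP f n * f n

theorem PP_congr (f g : ℤ → E) (n : ℕ) (h : ∀ j : ℕ, j < n → f j = g j) : PP f n = PP g n := by
  induction n with
  | zero => rfl
  | succ n ih =>
    rw [PP, PP, ih (fun j hj => h j (by omega)), h n (by omega)]

def pp (a : W E) : E := if 0 ≤ a.k then PP a.f a.k.toNat else 0

def tt : W E := ⟨0, 1⟩

def gg (x : E) : W E := ⟨fun j => if j = 0 then x else 0, 1⟩

theorem key (a : W E) (x : E) : pp (a * gg x) - pp (a * tt) = pp a * x := by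
  obtain ⟨f, k⟩ := a
  rcases lt_trichotomy k (-1) with h | h | h
  · have h1 : ¬ (0 ≤ k + 1) := by omega
    have h2 : ¬ (0 ≤ k) := by omega
    simp [pp, mul_k, gg, tt, h1, h2]
  · subst h
    simp [pp, mul_k, gg, tt, PP]
  · obtain ⟨n, rfl⟩ : ∃ n : ℕ, k = n := ⟨k.toNat, by omega⟩
    have h1 : (0 : ℤ) ≤ n + 1 := by omega
    have h2 : ((n : ℤ) + 1).toNat = n + 1 := by omega
    have e1 : PP (W.mk f n * gg x).f n = PP f n := PP_congr _ _ _ (by
      intro j hj
      have : (j : ℤ) - n ≠ 0 := by omega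
      simp [mul_f, gg, this])
    have e2 : PP (W.mk f n * tt).f n = PP f n := PP_congr _ _ _ (by
      intro j hj
      simp [mul_f, tt])
    have e3 : (W.mk f n * gg x).k = n + 1 := rfl
    have e4 : (W.mk f n * (tt : W E)).k = n + 1 := rfl
    simp only [pp, e3, e4, h1, h2, if_true, PP, e1, e2, Int.natCast_nonneg, Int.toNat_natCast]
    simp [mul_f, gg, tt, mul_add]

theorem mtb2 (H : Subgroup (W E)) : derivedSeries H 2 = ⊥ := by
  let K : Subgroup H :=
    { carrier := {a | a.1.k = 0}
      mul_mem' := by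
        intro a b ha hb
        change a.1.k + b.1.k = 0
        rw [ha, hb, add_zero]
      one_mem' := rfl
      inv_mem' := by
        intro a ha
        change - a.1.k = 0
        rw [ha, neg_zero] }
  have h1 : derivedSeries H 1 ≤ K := by
    rw [derivedSeries_succ, Subgroup.commutator_le]
    intro a _ b _
    change a.1.k + b.1.k + - a.1.k + - b.1.k = 0
    ring
  rw [derivedSeries_succ, eq_bot_iff, Subgroup.commutator_le]
  intro a ha b hb
  have ha' : a.1.k = 0 := h1 ha
  have hb' : b.1.k = 0 := h1 hb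
  rw [Subgroup.mem_bot, commutatorElement_eq_one_iff_mul_comm]
  apply Subtype.ext
  change a.1 * b.1 = b.1 * a.1
  ext j
  · rw [mul_f, mul_f, ha', hb', sub_zero, add_comm]
  · rw [mul_k, mul_k, add_comm]

theorem lift_key (H : Subgroup (W E)) (ht : tt ∈ H) (x : E) (hx : gg x ∈ H)
    (r : MonoidAlgebra ℤ H) :
    MonoidAlgebra.liftNC (Int.castRingHom E) (fun a : H => pp a.1)
      (r * (MonoidAlgebra.single ⟨gg x, hx⟩ 1 - MonoidAlgebra.single ⟨tt, ht⟩ 1)) =
    MonoidAlgebra.liftNC (Int.castRingHom E) (fun a : H => pp a.1) r * x := by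
  induction r using MonoidAlgebra.induction_linear with
  | zero => simp
  | add a b ha hb => rw [add_mul, map_add, map_add, ha, hb, add_mul]
  | single a n =>
    rw [mul_sub, MonoidAlgebra.single_mul_single, MonoidAlgebra.single_mul_single, map_sub,
      MonoidAlgebra.liftNC_single, MonoidAlgebra.liftNC_single, MonoidAlgebra.liftNC_single,
      mul_one, ← mul_sub, mul_assoc]
    congr 1
    exact key a.1 x

def X1 : Module.End ℤ (ℕ → ℤ) := LinearMap.funLeft ℤ ℤ (fun n => 2 * n)
def X2 : Module.End ℤ (ℕ → ℤ) := LinearMap.funLeft ℤ ℤ (fun n => 2 * n + 1)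
def Y1 : Module.End ℤ (ℕ → ℤ) where
  toFun u n := if n % 2 = 0 then u (n / 2) else 0
  map_add' u v := by funext n; by_cases h : n % 2 = 0 <;> simp [h]
  map_smul' c u := by funext n; by_cases h : n % 2 = 0 <;> simp [h]
def Y2 : Module.End ℤ (ℕ → ℤ) where
  toFun u n := if n % 2 = 0 then 0 else u (n / 2)
  map_add' u v := by funext n; by_cases h : n % 2 = 0 <;> simp [h]
  map_smul' c u := by funext n; by_cases h : n % 2 = 0 <;> simp [h]

theorem r11 : X1 * Y1 = 1 := by
  refine LinearMap.ext fun u => funext fun n => ?_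
  change (if (2 * n) % 2 = 0 then u (2 * n / 2) else 0) = u n
  rw [if_pos (by omega)]; congr 1; omega

theorem r12 : X1 * Y2 = 0 := by
  refine LinearMap.ext fun u => funext fun n => ?_
  change (if (2 * n) % 2 = 0 then 0 else u (2 * n / 2)) = 0
  rw [if_pos (by omega)]

theorem r21 : X2 * Y1 = 0 := by
  refine LinearMap.ext fun u => funext fun n => ?_
  change (if (2 * n + 1) % 2 = 0 then u ((2 * n + 1) / 2) else 0) = 0
  rw [if_neg (by omega)]

theorem r22 : X2 * Y2 = 1 := by
  refine LinearMap.ext fun u => funext fun n => ?_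
  change (if (2 * n + 1) % 2 = 0 then 0 else u ((2 * n + 1) / 2)) = u n
  rw [if_neg (by omega)]; congr 1; omega

theorem rs : Y1 * X1 + Y2 * X2 = 1 := by
  refine LinearMap.ext fun u => funext fun n => ?_
  change (if n % 2 = 0 then u (2 * (n / 2)) else 0) + (if n % 2 = 0 then 0 else u (2 * (n / 2) + 1))
    = u n
  by_cases h : n % 2 = 0
  · rw [if_pos h, if_pos h, add_zero]; congr 1; omega
  · rw [if_neg h, if_neg h, zero_add]; congr 1; omega

def SS : Set (W (Module.End ℤ (ℕ → ℤ))) := {tt, gg X1, gg X2, gg Y1, gg Y2}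

/-- There is a finitely generated group whose second derived subgroup is trivial, together with a nonzero module over its integral group ring that is generated by one element and is isomorphic, as a module, to its own direct sum with itself. -/
theorem result :
    ∃ (G : Type) (_ : Group G), Group.FG G ∧ derivedSeries G 2 = ⊥ ∧
      ∃ (V : Type) (_ : AddCommGroup V) (_ : Module (MonoidAlgebra ℤ G) V),
        Nontrivial V ∧
        (∃ v : V, Submodule.span (MonoidAlgebra ℤ G) {v} = ⊤) ∧
        Nonempty (V ≃ₗ[MonoidAlgebra ℤ G] (V × V)) := by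
  have hfin : SS.Finite := by
    unfold SS
    exact Set.toFinite _
  have ht : tt ∈ Subgroup.closure SS := Subgroup.subset_closure (by simp [SS])
  have k1 : gg X1 ∈ Subgroup.closure SS := Subgroup.subset_closure (by simp [SS])
  have k2 : gg X2 ∈ Subgroup.closure SS := Subgroup.subset_closure (by simp [SS])
  have k3 : gg Y1 ∈ Subgroup.closure SS := Subgroup.subset_closure (by simp [SS])
  have k4 : gg Y2 ∈ Subgroup.closure SS := Subgroup.subset_closure (by simp [SS])
  refine ⟨Subgroup.closure SS, inferInstance, ?_, mtb2 _, ?_⟩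
  · rw [Group.fg_iff_subgroup_fg, Subgroup.fg_iff]
    exact ⟨SS, rfl, hfin⟩
  · refine abstract _ _ _ _ _ X1 X2 Y1 Y2 (lift_key _ ht _ k1) (lift_key _ ht _ k2)
      (lift_key _ ht _ k3) (lift_key _ ht _ k4) r11 r12 r21 r22 rs ?_
    rw [MonoidAlgebra.one_def, MonoidAlgebra.liftNC_single]
    have : pp ((1 : Subgroup.closure SS) : W (Module.End ℤ (ℕ → ℤ))) = 1 := rfl
    rw [this, mul_one]
    change ((1 : ℤ) : Module.End ℤ (ℕ → ℤ)) ≠ 0
    rw [Int.cast_one]
    exact one_ne_zero

end Pool.Agent.S01827
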