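import Pool.Statements.S01864

set_option autoImplicit false
open Pool Pool.MP_702bfb_al

namespace Pool.Agent.S01864

open Polynomial in
lemma two_alg {F : Type} [CommRing F] (h : (2 : F) = 0) (L : Type) [CommRing L] [Algebra F L] :
    (2 : L) = 0 := by
  have : (2 : L) = algebraMap F L 2 := (map_ofNat _ 2).symm
  rw [this, h, map_zero]

section Gen
variable (F : Type) [CommRing F] {L : Type} [CommRing L] [Algebra F L] (xx : ℕ → L)

/-- the augmentation ideal -/
def J : Ideal L := Ideal.span (Set.range xx)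

lemma J_sq (h2 : (2 : L) = 0) (hx : ∀ i, xx i * xx i = 0) {p : L} (hp : p ∈ J xx) : p * p = 0 := by
  induction hp using Submodule.span_induction with
  | mem x hx' => obtain ⟨i, rfl⟩ := hx'; exact hx i
  | zero => exact mul_zero _
  | add x y _ _ hx hy => linear_combination hx + hy + x * y * h2
  | smul a x _ hx => rw [smul_eq_mul]; linear_combination a * a * hx

/-- `tⁱ ↦ xᵢ` -/
noncomputable def lam : Polynomial F →ₗ[F] L :=
  Polynomial.lsum (fun i => LinearMap.toSpanSingleton F L (xx i))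

lemma lam_mem (c : Polynomial F) : lam F xx c ∈ J xx := by
  rw [lam, Polynomial.lsum_apply, Polynomial.sum]
  refine Ideal.sum_mem _ fun i _ => ?_
  rw [LinearMap.toSpanSingleton_apply, Algebra.smul_def]
  exact Ideal.mul_mem_left _ _ (Ideal.subset_span ⟨i, rfl⟩)

lemma lam_pow (i : ℕ) : lam F xx (Polynomial.X ^ i) = xx i := by
  rw [lam, Polynomial.lsum_apply, Polynomial.X_pow_eq_monomial, Polynomial.sum_monomial_index] <;> simp

/-- elements `α a + β b + c + d + e + p + v q` -/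
@[ext] structure A where
  a : F
  b : F
  c : Polynomial F
  d : Polynomial F
  e : Polynomial F
  p : L
  q : L
  hp : p ∈ J xx

noncomputable instance : Zero (A F xx) := ⟨⟨0, 0, 0, 0, 0, 0, 0, (J xx).zero_mem⟩⟩
noncomputable instance : Add (A F xx) :=
  ⟨fun x y => ⟨x.a + y.a, x.b + y.b, x.c + y.c, x.d + y.d, x.e + y.e, x.p + y.p, x.q + y.q,
    (J xx).add_mem x.hp y.hp⟩⟩
noncomputable instance : Neg (A F xx) :=
  ⟨fun x => ⟨-x.a, -x.b, -x.c, -x.d, -x.e, -x.p, -x.q, (J xx).neg_mem x.hp⟩⟩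
noncomputable instance : Mul (A F xx) :=
  ⟨fun x y => ⟨0, 0,
    Polynomial.X * (Polynomial.C x.a * y.e + Polynomial.C y.a * x.e + Polynomial.C x.b * y.d
      + Polynomial.C y.b * x.d),
    Polynomial.C x.a * y.c, Polynomial.C x.b * y.c,
    x.p * y.p + lam F xx y.c * x.q, x.p * y.q + x.q * y.p,
    (J xx).add_mem ((J xx).mul_mem_right _ x.hp) ((J xx).mul_mem_right _ (lam_mem F xx _))⟩⟩

variable {F xx}
lemma zero_a : (0 : A F xx).a = 0 := rfl
lemma add_a (x y : A F xx) : (x + y).a = x.a + y.a := rfl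
lemma neg_a (x : A F xx) : (-x).a = -x.a := rfl
lemma zero_b : (0 : A F xx).b = 0 := rfl
lemma add_b (x y : A F xx) : (x + y).b = x.b + y.b := rfl
lemma neg_b (x : A F xx) : (-x).b = -x.b := rfl
lemma zero_c : (0 : A F xx).c = 0 := rfl
lemma add_c (x y : A F xx) : (x + y).c = x.c + y.c := rfl
lemma neg_c (x : A F xx) : (-x).c = -x.c := rfl
lemma zero_d : (0 : A F xx).d = 0 := rfl
lemma add_d (x y : A F xx) : (x + y).d = x.d + y.d := rfl
lemma neg_d (x : A F xx) : (-x).d = -x.d := rfl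
lemma zero_e : (0 : A F xx).e = 0 := rfl
lemma add_e (x y : A F xx) : (x + y).e = x.e + y.e := rfl
lemma neg_e (x : A F xx) : (-x).e = -x.e := rfl
lemma zero_p : (0 : A F xx).p = 0 := rfl
lemma add_p (x y : A F xx) : (x + y).p = x.p + y.p := rfl
lemma neg_p (x : A F xx) : (-x).p = -x.p := rfl
lemma zero_q : (0 : A F xx).q = 0 := rfl
lemma add_q (x y : A F xx) : (x + y).q = x.q + y.q := rfl
lemma neg_q (x : A F xx) : (-x).q = -x.q := rfl
lemma mul_a (x y : A F xx) : (x * y).a = 0 := rfl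
lemma mul_b (x y : A F xx) : (x * y).b = 0 := rfl
lemma mul_c (x y : A F xx) : (x * y).c =
    Polynomial.X * (Polynomial.C x.a * y.e + Polynomial.C y.a * x.e + Polynomial.C x.b * y.d
      + Polynomial.C y.b * x.d) := rfl
lemma mul_d (x y : A F xx) : (x * y).d = Polynomial.C x.a * y.c := rfl
lemma mul_e (x y : A F xx) : (x * y).e = Polynomial.C x.b * y.c := rfl
lemma mul_p (x y : A F xx) : (x * y).p = x.p * y.p + lam F xx y.c * x.q := rfl
lemma mul_q (x y : A F xx) : (x * y).q = x.p * y.q + x.q * y.p := rfl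

noncomputable instance : AddCommGroup (A F xx) where
  add_assoc x y z := by ext1 <;> simp only [zero_a, add_a, neg_a, mul_a, zero_b, add_b, neg_b, mul_b, zero_c, add_c, neg_c, mul_c, zero_d, add_d, neg_d, mul_d, zero_e, add_e, neg_e, mul_e, zero_p, add_p, neg_p, mul_p, zero_q, add_q, neg_q, mul_q, map_add, map_zero] <;> ring
  zero_add x := by ext1 <;> simp only [zero_a, add_a, neg_a, mul_a, zero_b, add_b, neg_b, mul_b, zero_c, add_c, neg_c, mul_c, zero_d, add_d, neg_d, mul_d, zero_e, add_e, neg_e, mul_e, zero_p, add_p, neg_p, mul_p, zero_q, add_q, neg_q, mul_q, map_add, map_zero] <;> ring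
  add_zero x := by ext1 <;> simp only [zero_a, add_a, neg_a, mul_a, zero_b, add_b, neg_b, mul_b, zero_c, add_c, neg_c, mul_c, zero_d, add_d, neg_d, mul_d, zero_e, add_e, neg_e, mul_e, zero_p, add_p, neg_p, mul_p, zero_q, add_q, neg_q, mul_q, map_add, map_zero] <;> ring
  add_comm x y := by ext1 <;> simp only [zero_a, add_a, neg_a, mul_a, zero_b, add_b, neg_b, mul_b, zero_c, add_c, neg_c, mul_c, zero_d, add_d, neg_d, mul_d, zero_e, add_e, neg_e, mul_e, zero_p, add_p, neg_p, mul_p, zero_q, add_q, neg_q, mul_q, map_add, map_zero] <;> ring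
  neg_add_cancel x := by ext1 <;> simp only [zero_a, add_a, neg_a, mul_a, zero_b, add_b, neg_b, mul_b, zero_c, add_c, neg_c, mul_c, zero_d, add_d, neg_d, mul_d, zero_e, add_e, neg_e, mul_e, zero_p, add_p, neg_p, mul_p, zero_q, add_q, neg_q, mul_q, map_add, map_zero] <;> ring
  nsmul := nsmulRec
  zsmul := zsmulRec

noncomputable instance : NonUnitalNonAssocRing (A F xx) where
  left_distrib x y z := by ext1 <;> simp only [zero_a, add_a, neg_a, mul_a, zero_b, add_b, neg_b, mul_b, zero_c, add_c, neg_c, mul_c, zero_d, add_d, neg_d, mul_d, zero_e, add_e, neg_e, mul_e, zero_p, add_p, neg_p, mul_p, zero_q, add_q, neg_q, mul_q, map_add, map_zero] <;> ring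
  right_distrib x y z := by ext1 <;> simp only [zero_a, add_a, neg_a, mul_a, zero_b, add_b, neg_b, mul_b, zero_c, add_c, neg_c, mul_c, zero_d, add_d, neg_d, mul_d, zero_e, add_e, neg_e, mul_e, zero_p, add_p, neg_p, mul_p, zero_q, add_q, neg_q, mul_q, map_add, map_zero] <;> ring
  zero_mul x := by ext1 <;> simp only [zero_a, add_a, neg_a, mul_a, zero_b, add_b, neg_b, mul_b, zero_c, add_c, neg_c, mul_c, zero_d, add_d, neg_d, mul_d, zero_e, add_e, neg_e, mul_e, zero_p, add_p, neg_p, mul_p, zero_q, add_q, neg_q, mul_q, map_add, map_zero] <;> ring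
  mul_zero x := by ext1 <;> simp only [zero_a, add_a, neg_a, mul_a, zero_b, add_b, neg_b, mul_b, zero_c, add_c, neg_c, mul_c, zero_d, add_d, neg_d, mul_d, zero_e, add_e, neg_e, mul_e, zero_p, add_p, neg_p, mul_p, zero_q, add_q, neg_q, mul_q, map_add, map_zero] <;> ring

lemma sq_c (h : (2 : F) = 0) (y : A F xx) : (y * y).c = 0 := by
  rw [mul_c]
  linear_combination (Polynomial.X * (Polynomial.C y.a * y.e + Polynomial.C y.b * y.d)) * two_alg h (Polynomial F)

lemma ralt (h : (2 : F) = 0) (x y : A F xx) : (x * y) * y = x * (y * y) := by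
  have h2 := two_alg h L
  ext1
  · simp only [mul_a, zero_a]
  · simp only [mul_b, zero_b]
  · simp only [zero_a, add_a, neg_a, mul_a, zero_b, add_b, neg_b, mul_b, zero_c, add_c, neg_c, mul_c, zero_d, add_d, neg_d, mul_d, zero_e, add_e, neg_e, mul_e, zero_p, add_p, neg_p, mul_p, zero_q, add_q, neg_q, mul_q, map_add, map_zero]; ring
  · rw [mul_d x, sq_c h]; simp only [zero_a, add_a, neg_a, mul_a, zero_b, add_b, neg_b, mul_b, zero_c, add_c, neg_c, mul_c, zero_d, add_d, neg_d, mul_d, zero_e, add_e, neg_e, mul_e, zero_p, add_p, neg_p, mul_p, zero_q, add_q, neg_q, mul_q, map_add, map_zero]; ring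
  · rw [mul_e x, sq_c h]; simp only [zero_a, add_a, neg_a, mul_a, zero_b, add_b, neg_b, mul_b, zero_c, add_c, neg_c, mul_c, zero_d, add_d, neg_d, mul_d, zero_e, add_e, neg_e, mul_e, zero_p, add_p, neg_p, mul_p, zero_q, add_q, neg_q, mul_q, map_add, map_zero]; ring
  · rw [mul_p x (y * y), sq_c h]; simp only [zero_a, add_a, neg_a, mul_a, zero_b, add_b, neg_b, mul_b, zero_c, add_c, neg_c, mul_c, zero_d, add_d, neg_d, mul_d, zero_e, add_e, neg_e, mul_e, zero_p, add_p, neg_p, mul_p, zero_q, add_q, neg_q, mul_q, map_add, map_zero]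
    linear_combination (lam F xx y.c * x.q * y.p) * h2
  · simp only [zero_a, add_a, neg_a, mul_a, zero_b, add_b, neg_b, mul_b, zero_c, add_c, neg_c, mul_c, zero_d, add_d, neg_d, mul_d, zero_e, add_e, neg_e, mul_e, zero_p, add_p, neg_p, mul_p, zero_q, add_q, neg_q, mul_q, map_add, map_zero]
    linear_combination (lam F xx y.c * x.q * y.q - lam F xx y.c * x.q * y.q) * h2

lemma nil4 (h : (2 : F) = 0) (hx : ∀ i, xx i * xx i = 0) (y : A F xx) : ((y * y) * y) * y = 0 := by
  have h2 := two_alg h L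
  have h1 := J_sq xx h2 hx y.hp
  have h3 := J_sq xx h2 hx (lam_mem F xx y.c)
  have h4 := two_alg h (Polynomial F)
  ext1
  · simp only [mul_a, zero_a]
  · simp only [mul_b, zero_b]
  · simp only [zero_a, add_a, neg_a, mul_a, zero_b, add_b, neg_b, mul_b, zero_c, add_c, neg_c, mul_c, zero_d, add_d, neg_d, mul_d, zero_e, add_e, neg_e, mul_e, zero_p, add_p, neg_p, mul_p, zero_q, add_q, neg_q, mul_q, map_add, map_zero]; ring
  · simp only [zero_a, add_a, neg_a, mul_a, zero_b, add_b, neg_b, mul_b, zero_c, add_c, neg_c, mul_c, zero_d, add_d, neg_d, mul_d, zero_e, add_e, neg_e, mul_e, zero_p, add_p, neg_p, mul_p, zero_q, add_q, neg_q, mul_q, map_add, map_zero]; ring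
  · simp only [zero_a, add_a, neg_a, mul_a, zero_b, add_b, neg_b, mul_b, zero_c, add_c, neg_c, mul_c, zero_d, add_d, neg_d, mul_d, zero_e, add_e, neg_e, mul_e, zero_p, add_p, neg_p, mul_p, zero_q, add_q, neg_q, mul_q, map_add, map_zero]; ring
  · simp only [zero_a, add_a, neg_a, mul_a, zero_b, add_b, neg_b, mul_b, zero_c, add_c, neg_c, mul_c, zero_d, add_d, neg_d, mul_d, zero_e, add_e, neg_e, mul_e, zero_p, add_p, neg_p, mul_p, zero_q, add_q, neg_q, mul_q, map_add, map_zero]
    linear_combination (y.p * y.p + 6 * lam F xx y.c * y.q) * h1 + (y.q * y.q) * h3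
  · simp only [zero_a, add_a, neg_a, mul_a, zero_b, add_b, neg_b, mul_b, zero_c, add_c, neg_c, mul_c, zero_d, add_d, neg_d, mul_d, zero_e, add_e, neg_e, mul_e, zero_p, add_p, neg_p, mul_p, zero_q, add_q, neg_q, mul_q, map_add, map_zero]
    linear_combination (4 * y.p * y.q) * h1 + (2 * lam F xx y.c * y.q * y.q * y.p) * h2

variable (xx)
noncomputable def ma (r : F) : A F xx := ⟨r, 0, 0, 0, 0, 0, 0, (J xx).zero_mem⟩
noncomputable def mb (r : F) : A F xx := ⟨0, r, 0, 0, 0, 0, 0, (J xx).zero_mem⟩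
noncomputable def mc (r : Polynomial F) : A F xx := ⟨0, 0, r, 0, 0, 0, 0, (J xx).zero_mem⟩
noncomputable def md (r : Polynomial F) : A F xx := ⟨0, 0, 0, r, 0, 0, 0, (J xx).zero_mem⟩
noncomputable def me (r : Polynomial F) : A F xx := ⟨0, 0, 0, 0, r, 0, 0, (J xx).zero_mem⟩
variable (F)
noncomputable def mp (r : L) (h : r ∈ J xx) : A F xx := ⟨0, 0, 0, 0, 0, r, 0, h⟩
noncomputable def mq (r : L) : A F xx := ⟨0, 0, 0, 0, 0, 0, r, (J xx).zero_mem⟩
variable {F}

lemma fg (h01 : ∀ r : F, r = 0 ∨ r = 1) (hgen : ∀ q : L, ∃ f : MvPolynomial ℕ F, q = MvPolynomial.aeval xx f)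
    (S : NonUnitalSubring (A F xx)) (ha : ma xx 1 ∈ S) (hb : mb xx 1 ∈ S) (hc : mc xx 1 ∈ S)
    (hq : mq F xx 1 ∈ S) : S = ⊤ := by
  have e1 : ∀ c : Polynomial F, ma xx 1 * mc xx c = md xx c := fun c => by ext1 <;> simp only [zero_a, add_a, neg_a, mul_a, zero_b, add_b, neg_b, mul_b, zero_c, add_c, neg_c, mul_c, zero_d, add_d, neg_d, mul_d, zero_e, add_e, neg_e, mul_e, zero_p, add_p, neg_p, mul_p, zero_q, add_q, neg_q, mul_q, map_add, map_zero, map_one, ma, mb, mc, md, me, mp, mq] <;> ring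
  have e2 : ∀ c : Polynomial F, mb xx 1 * mc xx c = me xx c := fun c => by ext1 <;> simp only [zero_a, add_a, neg_a, mul_a, zero_b, add_b, neg_b, mul_b, zero_c, add_c, neg_c, mul_c, zero_d, add_d, neg_d, mul_d, zero_e, add_e, neg_e, mul_e, zero_p, add_p, neg_p, mul_p, zero_q, add_q, neg_q, mul_q, map_add, map_zero, map_one, ma, mb, mc, md, me, mp, mq] <;> ring
  have e3 : ∀ c : Polynomial F, md xx c * mb xx 1 = mc xx (Polynomial.X * c) := fun c => by
    ext1 <;> simp only [zero_a, add_a, neg_a, mul_a, zero_b, add_b, neg_b, mul_b, zero_c, add_c, neg_c, mul_c, zero_d, add_d, neg_d, mul_d, zero_e, add_e, neg_e, mul_e, zero_p, add_p, neg_p, mul_p, zero_q, add_q, neg_q, mul_q, map_add, map_zero, map_one, ma, mb, mc, md, me, mp, mq] <;> ring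
  have c1 : ∀ i : ℕ, mc xx (Polynomial.X ^ i : Polynomial F) ∈ S := by
    intro i
    induction i with
    | zero => rw [pow_zero]; exact hc
    | succ i ih => rw [pow_succ', ← e3, ← e1]; exact S.mul_mem (S.mul_mem ha ih) hb
  have c2 : ∀ c : Polynomial F, mc xx c ∈ S := by
    intro c
    induction c using Polynomial.induction_on' with
    | add u v hu hv =>
      have : mc xx (u + v) = mc xx u + mc xx v := by ext1 <;> simp only [zero_a, add_a, neg_a, mul_a, zero_b, add_b, neg_b, mul_b, zero_c, add_c, neg_c, mul_c, zero_d, add_d, neg_d, mul_d, zero_e, add_e, neg_e, mul_e, zero_p, add_p, neg_p, mul_p, zero_q, add_q, neg_q, mul_q, map_add, map_zero, map_one, ma, mb, mc, md, me, mp, mq] <;> ring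
      rw [this]; exact S.add_mem hu hv
    | monomial n r =>
      rcases h01 r with rfl | rfl
      · rw [map_zero]; exact S.zero_mem
      · rw [← Polynomial.X_pow_eq_monomial]; exact c1 n
  have xm : ∀ i, xx i ∈ J xx := fun i => Ideal.subset_span ⟨i, rfl⟩
  have e4 : ∀ (r : L) (i : ℕ), mq F xx r * mc xx (Polynomial.X ^ i) =
      mp F xx (r * xx i) ((J xx).mul_mem_left _ (xm i)) := fun r i => by
    ext1 <;> simp only [zero_a, add_a, neg_a, mul_a, zero_b, add_b, neg_b, mul_b, zero_c, add_c, neg_c, mul_c, zero_d, add_d, neg_d, mul_d, zero_e, add_e, neg_e, mul_e, zero_p, add_p, neg_p, mul_p, zero_q, add_q, neg_q, mul_q, map_add, map_zero, map_one, ma, mb, mc, md, me, mp, mq] <;> (try rw [lam_pow]) <;> ring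
  have e5 : ∀ (r s : L) (h : s ∈ J xx), mq F xx r * mp F xx s h = mq F xx (r * s) := fun r s h => by
    ext1 <;> simp only [zero_a, add_a, neg_a, mul_a, zero_b, add_b, neg_b, mul_b, zero_c, add_c, neg_c, mul_c, zero_d, add_d, neg_d, mul_d, zero_e, add_e, neg_e, mul_e, zero_p, add_p, neg_p, mul_p, zero_q, add_q, neg_q, mul_q, map_add, map_zero, map_one, ma, mb, mc, md, me, mp, mq] <;> ring
  have q1 : ∀ r : L, mq F xx r ∈ S := by
    intro r
    obtain ⟨f, rfl⟩ := hgen r
    induction f using MvPolynomial.induction_on with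
    | C r =>
      rcases h01 r with rfl | rfl
      · rw [map_zero, map_zero]; exact S.zero_mem
      · rw [map_one, map_one]; exact hq
    | add u v hu hv =>
      have : ∀ u v : L, mq F xx (u + v) = mq F xx u + mq F xx v := fun u v => by
        ext1 <;> simp only [zero_a, add_a, neg_a, mul_a, zero_b, add_b, neg_b, mul_b, zero_c, add_c, neg_c, mul_c, zero_d, add_d, neg_d, mul_d, zero_e, add_e, neg_e, mul_e, zero_p, add_p, neg_p, mul_p, zero_q, add_q, neg_q, mul_q, map_add, map_zero, map_one, ma, mb, mc, md, me, mp, mq] <;> ring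
      rw [map_add, this]; exact S.add_mem hu hv
    | mul_X u i hu =>
      have h1 := S.mul_mem hq (c1 i)
      rw [e4] at h1
      have h2 := S.mul_mem hu h1
      rw [e5, one_mul] at h2
      rw [map_mul, MvPolynomial.aeval_X]
      exact h2
  have p1 : ∀ s ∈ J xx, ∀ (r : L) (h : r * s ∈ J xx), mp F xx (r * s) h ∈ S := by
    intro s hs
    induction hs using Submodule.span_induction with
    | mem x hx =>
      obtain ⟨i, rfl⟩ := hx
      intro r h
      have h1 := S.mul_mem (q1 r) (c1 i)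
      rwa [e4] at h1
    | zero =>
      intro r h
      have : mp F xx (r * 0) h = 0 := by ext1 <;> simp only [zero_a, add_a, neg_a, mul_a, zero_b, add_b, neg_b, mul_b, zero_c, add_c, neg_c, mul_c, zero_d, add_d, neg_d, mul_d, zero_e, add_e, neg_e, mul_e, zero_p, add_p, neg_p, mul_p, zero_q, add_q, neg_q, mul_q, map_add, map_zero, map_one, ma, mb, mc, md, me, mp, mq] <;> ring
      rw [this]; exact S.zero_mem
    | add u v hu hv iu iv =>
      intro r h
      have : mp F xx (r * (u + v)) h = mp F xx (r * u) ((J xx).mul_mem_left _ hu) +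
          mp F xx (r * v) ((J xx).mul_mem_left _ hv) := by ext1 <;> simp only [zero_a, add_a, neg_a, mul_a, zero_b, add_b, neg_b, mul_b, zero_c, add_c, neg_c, mul_c, zero_d, add_d, neg_d, mul_d, zero_e, add_e, neg_e, mul_e, zero_p, add_p, neg_p, mul_p, zero_q, add_q, neg_q, mul_q, map_add, map_zero, map_one, ma, mb, mc, md, me, mp, mq] <;> ring
      rw [this]; exact S.add_mem (iu _ _) (iv _ _)
    | smul a u hu iu =>
      intro r h
      have : mp F xx (r * (a • u)) h = mp F xx ((r * a) * u) ((J xx).mul_mem_left _ hu) := by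
        ext1 <;> simp only [zero_a, add_a, neg_a, mul_a, zero_b, add_b, neg_b, mul_b, zero_c, add_c, neg_c, mul_c, zero_d, add_d, neg_d, mul_d, zero_e, add_e, neg_e, mul_e, zero_p, add_p, neg_p, mul_p, zero_q, add_q, neg_q, mul_q, map_add, map_zero, map_one, ma, mb, mc, md, me, mp, mq]
        rw [smul_eq_mul, mul_assoc]
      rw [this]; exact iu _ _
  rw [eq_top_iff]
  intro x _
  have : x = ma xx x.a + mb xx x.b + mc xx x.c + md xx x.d + me xx x.e +
      mp F xx (1 * x.p) ((J xx).mul_mem_left _ x.hp) + mq F xx x.q := by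
    ext1 <;> simp only [zero_a, add_a, neg_a, mul_a, zero_b, add_b, neg_b, mul_b, zero_c, add_c, neg_c, mul_c, zero_d, add_d, neg_d, mul_d, zero_e, add_e, neg_e, mul_e, zero_p, add_p, neg_p, mul_p, zero_q, add_q, neg_q, mul_q, map_add, map_zero, map_one, ma, mb, mc, md, me, mp, mq] <;> ring
  rw [this]
  refine S.add_mem (S.add_mem (S.add_mem (S.add_mem (S.add_mem (S.add_mem ?_ ?_) (c2 _)) ?_) ?_)
    (p1 _ x.hp _ _)) (q1 _)
  · rcases h01 x.a with h | h <;> rw [h]
    · exact S.zero_mem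
    · exact ha
  · rcases h01 x.b with h | h <;> rw [h]
    · exact S.zero_mem
    · exact hb
  · rw [← e1]; exact S.mul_mem ha (c2 _)
  · rw [← e2]; exact S.mul_mem hb (c2 _)

lemma nonsolv (hne : ∀ s : Finset ℕ, ∏ i ∈ s, xx i ≠ 0) (D : ℕ → AddSubgroup (A F xx)) (h0 : D 0 = ⊤)
    (h1 : ∀ k : ℕ, D (k + 1) = AddSubgroup.closure {z | ∃ a ∈ D k, ∃ b ∈ D k, z = a * b}) (m : ℕ) :
    D m ≠ ⊥ := by
  have key : ∀ k n : ℕ, ∃ z ∈ D k, z.a = 0 ∧ z.b = 0 ∧ z.c = 0 ∧
      z.p = ∏ i ∈ Finset.Ico n (n + 2 ^ k), xx i := by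
    intro k
    induction k with
    | zero =>
      intro n
      refine ⟨mp F xx (xx n) (Ideal.subset_span ⟨n, rfl⟩), by rw [h0]; trivial, rfl, rfl, rfl, ?_⟩
      simp [mp]
    | succ k ih =>
      intro n
      obtain ⟨z, hz, a1, a2, a3, a4⟩ := ih n
      obtain ⟨w, hw, b1, b2, b3, b4⟩ := ih (n + 2 ^ k)
      refine ⟨z * w, ?_, mul_a _ _, mul_b _ _, ?_, ?_⟩
      · rw [h1]; exact AddSubgroup.subset_closure ⟨z, hz, w, hw, rfl⟩
      · rw [mul_c, a1, a2, b1, b2]; simp
      · rw [mul_p, b3, map_zero, zero_mul, add_zero, a4, b4,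
          Finset.prod_Ico_consecutive _ (Nat.le_add_right _ _) (Nat.le_add_right _ _), pow_succ]
        congr 2
        ring
  intro h
  obtain ⟨z, hz, -, -, -, a4⟩ := key m 0
  rw [h, AddSubgroup.mem_bot] at hz
  rw [hz, zero_p] at a4
  exact hne _ a4.symm

end Gen

noncomputable def sqI : Ideal (MvPolynomial ℕ (ZMod 2)) :=
  Ideal.span (Set.range fun i : ℕ => MvPolynomial.X i * MvPolynomial.X i)

noncomputable def xq (i : ℕ) : MvPolynomial ℕ (ZMod 2) ⧸ sqI := Ideal.Quotient.mk sqI (MvPolynomial.X i)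

lemma xq_sq (i : ℕ) : xq i * xq i = 0 := by
  rw [xq, ← map_mul, Ideal.Quotient.eq_zero_iff_mem]
  exact Ideal.subset_span ⟨i, rfl⟩

lemma xq_gen (q : MvPolynomial ℕ (ZMod 2) ⧸ sqI) :
    ∃ f : MvPolynomial ℕ (ZMod 2), q = MvPolynomial.aeval xq f := by
  obtain ⟨f, rfl⟩ := Ideal.Quotient.mk_surjective q
  refine ⟨f, ?_⟩
  have : MvPolynomial.aeval xq = Ideal.Quotient.mkₐ (ZMod 2) sqI := by
    apply MvPolynomial.algHom_ext
    intro i
    rw [MvPolynomial.aeval_X]; rfl
  rw [this]; rfl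

lemma coeff_sqI (f : MvPolynomial ℕ (ZMod 2)) (hf : f ∈ sqI) :
    ∀ (g : MvPolynomial ℕ (ZMod 2)) (m : ℕ →₀ ℕ), (∀ i, m i ≤ 1) → MvPolynomial.coeff m (g * f) = 0 := by
  induction hf using Submodule.span_induction with
  | mem x hx =>
    obtain ⟨i, rfl⟩ := hx
    intro g m hm
    show MvPolynomial.coeff m (g * (MvPolynomial.X i * MvPolynomial.X i)) = 0
    rw [← mul_assoc, MvPolynomial.coeff_mul_X', MvPolynomial.coeff_mul_X']
    have : i ∉ (m - Finsupp.single i 1).support := by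
      rw [Finsupp.notMem_support_iff]
      have := hm i
      simp only [Finsupp.coe_tsub, Pi.sub_apply, Finsupp.single_eq_same]
      omega
    rw [if_neg this, ite_self]
  | zero => intro g m _; rw [mul_zero, MvPolynomial.coeff_zero]
  | add u v _ _ hu hv => intro g m hm; rw [mul_add, MvPolynomial.coeff_add, hu g m hm, hv g m hm, add_zero]
  | smul a u _ hu => intro g m hm; rw [smul_eq_mul, ← mul_assoc, hu _ m hm]

lemma xq_ne (s : Finset ℕ) : ∏ i ∈ s, xq i ≠ 0 := by
  intro h
  have e : ∏ i ∈ s, xq i = Ideal.Quotient.mk sqI (∏ i ∈ s, MvPolynomial.X i) := by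
    rw [map_prod]; rfl
  rw [e, Ideal.Quotient.eq_zero_iff_mem] at h
  have h2 := coeff_sqI _ h 1 (∑ i ∈ s, Finsupp.single i 1) (fun j => by
    rw [Finsupp.finsetSum_apply]
    simp only [Finsupp.single_apply, Finset.sum_ite_eq']
    split_ifs <;> omega)
  have e2 : (∏ i ∈ s, MvPolynomial.X i : MvPolynomial ℕ (ZMod 2)) =
      MvPolynomial.monomial (∑ i ∈ s, Finsupp.single i 1) 1 := by
    rw [MvPolynomial.monomial_sum_one]; rfl
  rw [one_mul, e2, MvPolynomial.coeff_monomial, if_pos rfl] at h2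
  exact one_ne_zero h2


/-- The negation of the preceding statement: Every finitely generated ring with (xy)y = x(yy) in which some fixed right power x^N vanishes for all x has a derived series (R, R², products of squares, …) that reaches zero after finitely many steps. -/
theorem result :
    ¬ (∀ (R : Type) [NonUnitalNonAssocRing R],
      (∀ x y : R, (x * y) * y = x * (y * y)) →
      (∃ s : Finset R, NonUnitalSubring.closure (s : Set R) = ⊤) →
      (∃ n : ℕ, ∀ x : R, (fun y => y * x)^[n] x = 0) →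
      ∃ D : ℕ → AddSubgroup R,
        D 0 = ⊤ ∧
        (∀ k : ℕ, D (k + 1) =
          AddSubgroup.closure {z : R | ∃ a ∈ D k, ∃ b ∈ D k, z = a * b}) ∧
        ∃ m : ℕ, D m = ⊥) := by
  intro H
  classical
  obtain ⟨D, h0, h1, m, hm⟩ := H (A (ZMod 2) xq) (ralt rfl)
    ⟨{ma xq 1, mb xq 1, mc xq 1, mq (ZMod 2) xq 1}, fg xq (by decide) xq_gen _
      (NonUnitalSubring.subset_closure (by simp)) (NonUnitalSubring.subset_closure (by simp))
      (NonUnitalSubring.subset_closure (by simp)) (NonUnitalSubring.subset_closure (by simp))⟩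
    ⟨3, fun x => nil4 rfl xq_sq x⟩
  exact nonsolv xq xq_ne D h0 h1 m hm

end Pool.Agent.S01864
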