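import Pool.Statements.S01870

set_option autoImplicit false
open Pool Pool.MP_70593a_al

namespace Pool.Agent.S01870

/-- between finitely many lower and upper constraints one can avoid a finite set -/
lemma exists_between (X Y Z : Set ℚ) (hX : X.Finite) (hY : Y.Finite) (hZ : Z.Finite)
    (nX : X.Nonempty) (nY : Y.Nonempty) (h : ∀ x ∈ X, ∀ y ∈ Y, x < y) :
    ∃ q, (∀ x ∈ X, x < q) ∧ (∀ y ∈ Y, q < y) ∧ q ∉ Z := by
  obtain ⟨a, ha, hamax⟩ := Set.exists_max_image X id hX nX
  obtain ⟨b, hb, hbmin⟩ := Set.exists_min_image Y id hY nY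
  have hab : a < b := h a ha b hb
  obtain ⟨q, hq, hqZ⟩ := (Set.Ioo_infinite hab).exists_notMem_finite hZ
  exact ⟨q, fun x hx => lt_of_le_of_lt (hamax x hx) hq.1,
    fun y hy => lt_of_lt_of_le hq.2 (hbmin y hy), hqZ⟩

section abstract
variable {D : Type} [PartialOrder D] (c : D → ℕ) (lo hi : D → ℚ) (s : D → D)

def Good (d : D) (prev : ∀ e : D, c e < c d → ℚ) (q : ℚ) : Prop :=
  lo d < q ∧ q < hi d ∧ q ≠ lo (s d) ∧
    ∀ (e : D) (h : c e < c d), q ≠ prev e h ∧ (e < d → prev e h < q) ∧ (d < e → q < prev e h)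

open Classical in
noncomputable def step (d : D) (prev : ∀ e : D, c e < c d → ℚ) : ℚ :=
  if h : ∃ q, Good c lo hi s d prev q then h.choose else lo d

noncomputable def phi : D → ℚ :=
  (InvImage.wf c Nat.lt_wfRel.wf).fix (fun d prev => step c lo hi s d prev)

lemma phi_eq (d : D) : phi c lo hi s d = step c lo hi s d (fun e _ => phi c lo hi s e) := by
  unfold phi
  rw [WellFounded.fix_eq]
  rfl

lemma phi_good (d : D) (h : ∃ q, Good c lo hi s d (fun e _ => phi c lo hi s e) q) :
    Good c lo hi s d (fun e _ => phi c lo hi s e) (phi c lo hi s d) := by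
  have := h.choose_spec
  rw [phi_eq c lo hi s d]
  unfold step
  rw [dif_pos h]
  exact this

lemma phi_forced (d : D) (h : lo d = hi d) : phi c lo hi s d = lo d := by
  rw [phi_eq c lo hi s d]
  unfold step
  rw [dif_neg]
  rintro ⟨q, h1, h2, -⟩
  linarith

lemma free_good (hc : Function.Injective c) (hlo : Monotone lo) (hhi : Monotone hi)
    (hle : ∀ d, lo d ≤ hi d) (n : ℕ) :
    ∀ d, c d = n → lo d < hi d →
      Good c lo hi s d (fun e _ => phi c lo hi s e) (phi c lo hi s d) := by
  induction n using Nat.strong_induction_on with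
  | _ n ih =>
    intro d hd hfree
    apply phi_good
    have hfin : {e : D | c e < c d}.Finite := by
      have : {e : D | c e < c d} = c ⁻¹' (Set.Iio (c d)) := rfl
      rw [this]
      exact (Set.finite_Iio _).preimage hc.injOn
    have hup : ∀ e, c e < c d → d < e → lo d < phi c lo hi s e := by
      intro e he hde
      rcases (hle e).lt_or_eq with h | h
      · have := (ih (c e) (hd ▸ he) e rfl h).1
        exact lt_of_le_of_lt (hlo hde.le) this
      · rw [phi_forced c lo hi s e h, h]
        exact lt_of_lt_of_le hfree (hhi hde.le)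
    have hdown : ∀ e, c e < c d → e < d → phi c lo hi s e < hi d := by
      intro e he hde
      rcases (hle e).lt_or_eq with h | h
      · have := (ih (c e) (hd ▸ he) e rfl h).2.1
        exact lt_of_lt_of_le this (hhi hde.le)
      · rw [phi_forced c lo hi s e h]
        exact lt_of_le_of_lt (hlo hde.le) hfree
    have hcross : ∀ e e', c e < c d → c e' < c d → e < d → d < e' →
        phi c lo hi s e < phi c lo hi s e' := by
      intro e e' he he' h1 h2
      rcases (hle e).lt_or_eq with h | h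
      · rcases (hle e').lt_or_eq with h' | h'
        · have hne : c e ≠ c e' := fun hh => (h1.trans h2).ne (hc hh)
          rcases lt_or_gt_of_ne hne with hh | hh
          · exact ((ih (c e') (hd ▸ he') e' rfl h').2.2.2 e hh).2.1 (h1.trans h2)
          · exact ((ih (c e) (hd ▸ he) e rfl h).2.2.2 e' hh).2.2 (h1.trans h2)
        · rw [phi_forced c lo hi s e' h', h']
          exact lt_of_lt_of_le (hdown e he h1) (hhi h2.le)
      · rw [phi_forced c lo hi s e h]
        exact lt_of_le_of_lt (hlo h1.le) (hup e' he' h2)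
    obtain ⟨q, hq1, hq2, hq3⟩ := exists_between
      (insert (lo d) (phi c lo hi s '' {e | c e < c d ∧ e < d}))
      (insert (hi d) (phi c lo hi s '' {e | c e < c d ∧ d < e}))
      (insert (lo (s d)) (phi c lo hi s '' {e | c e < c d}))
      (((hfin.subset fun e he => he.1).image _).insert _)
      (((hfin.subset fun e he => he.1).image _).insert _)
      ((hfin.image _).insert _) (Set.insert_nonempty _ _) (Set.insert_nonempty _ _) (by
        rintro x (rfl | ⟨e, ⟨he, he'⟩, rfl⟩) y (rfl | ⟨e', ⟨hf, hf'⟩, rfl⟩)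
        · exact hfree
        · exact hup e' hf hf'
        · exact hdown e he he'
        · exact hcross e e' he hf he' hf')
    refine ⟨q, hq1 _ (Set.mem_insert _ _), hq2 _ (Set.mem_insert _ _), ?_, ?_⟩
    · intro h; exact hq3 (h ▸ Set.mem_insert _ _)
    · intro e he
      refine ⟨?_, fun h => hq1 _ (Set.mem_insert_of_mem _ ⟨e, ⟨he, h⟩, rfl⟩),
        fun h => hq2 _ (Set.mem_insert_of_mem _ ⟨e, ⟨he, h⟩, rfl⟩)⟩
      intro h
      exact hq3 (Set.mem_insert_of_mem _ ⟨e, he, h.symm⟩)

theorem exists_phi [Countable D] (hlo : Monotone lo) (hhi : Monotone hi)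
    (hle : ∀ d, lo d ≤ hi d) (hs : ∀ d, s (s d) = d) (hs' : ∀ d, s d ≠ d)
    (H : ∀ d, lo d = hi d → lo (s d) = hi (s d) → lo d ≠ lo (s d)) :
    ∃ φ : D → ℚ, Monotone φ ∧ (∀ d, lo d = hi d → φ d = lo d) ∧ ∀ d, φ d ≠ φ (s d) := by
  obtain ⟨c, hc⟩ := exists_injective_nat D
  have G := fun d h => free_good c lo hi s hc hlo hhi hle (c d) d rfl h
  have hb : ∀ d, lo d ≤ phi c lo hi s d ∧ phi c lo hi s d ≤ hi d := by
    intro d
    rcases (hle d).lt_or_eq with h | h
    · exact ⟨(G d h).1.le, (G d h).2.1.le⟩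
    · rw [phi_forced c lo hi s d h]; exact ⟨le_rfl, h.le⟩
  refine ⟨phi c lo hi s, ?_, phi_forced c lo hi s, ?_⟩
  · intro d e hde
    rcases hde.lt_or_eq with hlt | rfl
    · rcases (hle d).lt_or_eq with h | h
      · rcases (hle e).lt_or_eq with h' | h'
        · have hne : c d ≠ c e := fun hh => hlt.ne (hc hh)
          rcases lt_or_gt_of_ne hne with hh | hh
          · exact (((G e h').2.2.2 d hh).2.1 hlt).le
          · exact (((G d h).2.2.2 e hh).2.2 hlt).le
        · rw [phi_forced c lo hi s e h', h']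
          exact (hb d).2.trans (hhi hde)
      · rw [phi_forced c lo hi s d h]
        exact (hlo hde).trans (hb e).1
    · exact le_rfl
  · intro d
    rcases (hle d).lt_or_eq with h | h
    · rcases (hle (s d)).lt_or_eq with h' | h'
      · have hne : c d ≠ c (s d) := fun hh => hs' d (hc hh).symm
        rcases lt_or_gt_of_ne hne with hh | hh
        · exact ((G (s d) h').2.2.2 d hh).1.symm
        · exact ((G d h).2.2.2 (s d) hh).1
      · rw [phi_forced c lo hi s (s d) h']
        exact (G d h).2.2.1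
    · rcases (hle (s d)).lt_or_eq with h' | h'
      · rw [phi_forced c lo hi s d h]
        have := (G (s d) h').2.2.1
        rw [hs] at this
        exact this.symm
      · rw [phi_forced c lo hi s d h, phi_forced c lo hi s (s d) h']
        exact H d h h'

end abstract

abbrev A : Type := {p : ℚ × ℚ // p.1 ≠ p.2}

def sw (p : A) : A := ⟨(p.1.2, p.1.1), p.2.symm⟩

lemma ne_erase (i : Fin 5) : ((Finset.univ : Finset (Fin 5)).erase i).Nonempty := by
  revert i; decide

/-- second smallest entry -/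
def lo5 (x : Fin 5 → ℚ) : ℚ :=
  Finset.univ.sup' Finset.univ_nonempty fun i => (Finset.univ.erase i).inf' (ne_erase i) x

/-- second largest entry -/
def hi5 (x : Fin 5 → ℚ) : ℚ :=
  Finset.univ.inf' Finset.univ_nonempty fun i => (Finset.univ.erase i).sup' (ne_erase i) x

lemma lo5_mono : Monotone lo5 := by
  intro x y h
  unfold lo5
  apply Finset.sup'_mono_fun
  intro i _
  apply Finset.inf'_mono_fun
  intro j _
  exact h j

lemma hi5_mono : Monotone hi5 := by
  intro x y h
  unfold hi5
  apply Finset.inf'_mono_fun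
  intro i _
  apply Finset.sup'_mono_fun
  intro j _
  exact h j

lemma lo5_spec (x : Fin 5 → ℚ) : ∃ i, ∀ j, j ≠ i → lo5 x ≤ x j := by
  obtain ⟨i, -, hi⟩ := Finset.exists_mem_eq_sup' (Finset.univ_nonempty (α := Fin 5))
    fun i => (Finset.univ.erase i).inf' (ne_erase i) x
  refine ⟨i, fun j hj => ?_⟩
  unfold lo5
  rw [hi]
  exact Finset.inf'_le _ (by simp [hj])

lemma hi5_spec (x : Fin 5 → ℚ) : ∃ i, ∀ j, j ≠ i → x j ≤ hi5 x := by
  obtain ⟨i, -, hi⟩ := Finset.exists_mem_eq_inf' (Finset.univ_nonempty (α := Fin 5))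
    fun i => (Finset.univ.erase i).sup' (ne_erase i) x
  refine ⟨i, fun j hj => ?_⟩
  unfold hi5
  rw [hi]
  exact Finset.le_sup' _ (by simp [hj])

lemma avoid4 (a b c d : Fin 5) : ∃ j, j ≠ a ∧ j ≠ b ∧ j ≠ c ∧ j ≠ d := by
  revert a b c d; decide

lemma lo5_le_hi5 (x : Fin 5 → ℚ) : lo5 x ≤ hi5 x := by
  obtain ⟨i, hi⟩ := lo5_spec x
  obtain ⟨k, hk⟩ := hi5_spec x
  obtain ⟨j, h1, h2, -⟩ := avoid4 i k i k
  exact (hi j h1).trans (hk j h2)

lemma nu5 (x : Fin 5 → ℚ) (a : ℚ) (i : Fin 5) (h : ∀ j, j ≠ i → x j = a) :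
    lo5 x = a ∧ hi5 x = a := by
  have h1 : a ≤ lo5 x := by
    unfold lo5
    refine le_trans ?_ (Finset.le_sup' _ (Finset.mem_univ i))
    apply Finset.le_inf'
    intro j hj
    rw [h j (Finset.mem_erase.1 hj).1]
  have h2 : hi5 x ≤ a := by
    unfold hi5
    refine le_trans (Finset.inf'_le _ (Finset.mem_univ i)) ?_
    apply Finset.sup'_le
    intro j hj
    rw [h j (Finset.mem_erase.1 hj).1]
  have := lo5_le_hi5 x
  exact ⟨le_antisymm (this.trans h2) h1, le_antisymm h2 (h1.trans this)⟩

theorem exists_op : ∃ φ : (Fin 5 → A) → ℚ, Monotone φ ∧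
    (∀ d, lo5 (fun j => (d j).1.1) = hi5 (fun j => (d j).1.1) → φ d = lo5 (fun j => (d j).1.1)) ∧
    ∀ d, φ d ≠ φ (fun j => sw (d j)) := by
  apply exists_phi (fun d : Fin 5 → A => lo5 (fun j => (d j).1.1))
    (fun d : Fin 5 → A => hi5 (fun j => (d j).1.1)) (fun d j => sw (d j))
  · intro x y h
    exact lo5_mono fun j => (h j).1
  · intro x y h
    exact hi5_mono fun j => (h j).1
  · intro d; exact lo5_le_hi5 _
  · intro d; rfl
  · intro d h
    have := congrArg (fun z : Fin 5 → A => (z 0).1.1) h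
    exact (d 0).2 this.symm
  · intro d h1 h2 h3
    obtain ⟨a, ha⟩ := lo5_spec (fun j => (d j).1.1)
    obtain ⟨b, hb⟩ := hi5_spec (fun j => (d j).1.1)
    obtain ⟨c, hc⟩ := lo5_spec (fun j => (sw (d j)).1.1)
    obtain ⟨e, he⟩ := hi5_spec (fun j => (sw (d j)).1.1)
    obtain ⟨j, j1, j2, j3, j4⟩ := avoid4 a b c e
    have a1 := ha j j1
    have a2 := hb j j2
    have a3 := hc j j3
    have a4 := he j j4
    apply (d j).2
    have e1 : (sw (d j)).1.1 = (d j).1.2 := rfl
    simp only [] at h1 h2 h3 a1 a2 a3 a4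
    rw [← e1]
    linarith

def pa : A := ⟨(0, 1), by norm_num⟩
def pa' : A := ⟨(1, 0), by norm_num⟩
def pv : A := ⟨(2, 3), by norm_num⟩
def pv' : A := ⟨(3, 2), by norm_num⟩

/-- The negation of the preceding statement: If a relation R on a set contains a finite smooth digraph with a closed walk of algebraic length 1, and R is preserved by a near-unanimity operation of arity at least 3, then R contains a loop (a,a). -/
theorem result :
    ¬ (∀ (A : Type) (R : A → A → Prop) (S : Finset (A × A)),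
      (∀ p ∈ S, R p.1 p.2) →
      (∀ p ∈ S, (∃ q ∈ S, q.2 = p.1) ∧ (∃ q ∈ S, q.1 = p.2)) →
      (∃ (k : ℕ) (v : ℕ → A) (e : ℕ → ℤ), v k = v 0 ∧
        (∀ i < k, (e i = 1 ∧ (v i, v (i + 1)) ∈ S) ∨ (e i = -1 ∧ (v (i + 1), v i) ∈ S)) ∧
        ∑ i ∈ Finset.range k, e i = 1) →
      ∀ (n : ℕ) (f : (Fin n → A) → A), 3 ≤ n →
        (∀ (x y : A) (i : Fin n), f (Function.update (fun _ => x) i y) = x) →
        (∀ (x y : Fin n → A), (∀ i, R (x i) (y i)) → R (f x) (f y)) →
        ∃ a : A, R a a) := by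
  intro H
  classical
  obtain ⟨φ, hm, hf, hne⟩ := exists_op
  have hnu : ∀ (x y : A) (i : Fin 5), φ (Function.update (fun _ => x) i y) = x.1.1 := by
    intro x y i
    have := nu5 (fun j => ((Function.update (fun _ => x) i y : Fin 5 → A) j).1.1) x.1.1 i
      (fun j hj => by simp [Function.update_of_ne hj])
    rw [hf _ (this.1.trans this.2.symm), this.1]
  obtain ⟨a, h1, h2⟩ := H A (fun u w => u.1.2 ≤ w.1.1 ∧ u.1.1 ≤ w.1.2)
    {(pa, pa'), (pa', pa), (pv, pv'), (pv', pv), (pa, pv), (pa, pv')}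
    (by
      intro p hp
      simp only [Finset.mem_insert, Finset.mem_singleton] at hp
      rcases hp with rfl | rfl | rfl | rfl | rfl | rfl <;> norm_num [pa, pa', pv, pv'])
    (by
      intro p hp
      simp only [Finset.mem_insert, Finset.mem_singleton] at hp
      rcases hp with rfl | rfl | rfl | rfl | rfl | rfl
      · exact ⟨⟨(pa', pa), by simp, rfl⟩, ⟨(pa', pa), by simp, rfl⟩⟩
      · exact ⟨⟨(pa, pa'), by simp, rfl⟩, ⟨(pa, pa'), by simp, rfl⟩⟩
      · exact ⟨⟨(pv', pv), by simp, rfl⟩, ⟨(pv', pv), by simp, rfl⟩⟩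
      · exact ⟨⟨(pv, pv'), by simp, rfl⟩, ⟨(pv, pv'), by simp, rfl⟩⟩
      · exact ⟨⟨(pa', pa), by simp, rfl⟩, ⟨(pv, pv'), by simp, rfl⟩⟩
      · exact ⟨⟨(pa', pa), by simp, rfl⟩, ⟨(pv', pv), by simp, rfl⟩⟩)
    ⟨3, fun i => if i = 1 then pv else if i = 2 then pv' else pa,
      fun i => if i = 2 then -1 else 1, by simp, by
        intro i hi
        interval_cases i <;> simp, by
        simp [Finset.sum_range_succ]⟩
    5 (fun d => ⟨(φ d, φ (fun j => sw (d j))), hne d⟩) (by norm_num)
    (by
      intro x y i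
      apply Subtype.ext
      apply Prod.ext
      · exact hnu x y i
      · have : (fun j => sw ((Function.update (fun _ => x) i y : Fin 5 → A) j)) =
            Function.update (fun _ => sw x) i (sw y) := by
          funext j
          by_cases hj : j = i
          · subst hj; simp
          · simp [Function.update_of_ne hj]
        show φ _ = _
        rw [this, hnu]
        rfl)
    (by
      intro x y h
      constructor
      · apply hm
        intro j
        exact ⟨(h j).1, (h j).2⟩
      · apply hm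
        intro j
        exact ⟨(h j).2, (h j).1⟩)
  exact a.2 (le_antisymm h2 h1)

end Pool.Agent.S01870
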