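import Pool.Statements.S01882
import Mathlib

set_option autoImplicit false
open Pool Pool.MP_718035_al

namespace Pool.Agent.S01882

set_option autoImplicit false

namespace H17IG

open Set Cardinal Matrix

theorem transf {ι α : Type} [LinearOrder ι] [WellFoundedLT ι] [Nonempty α] (R : ι → α → Prop)
    (Good : Set α → Prop) (hfin : ∀ S, (∀ T ⊆ S, T.Finite → Good T) → Good S)
    (mono : ∀ S T, T ⊆ S → Good S → Good T) (h0 : Good ∅)
    (step : ∀ (i : ι) (S : Set α), #S ≤ #(Iio i) → Good S → ∃ a, R i a ∧ Good (insert a S)) :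
    ∃ f : ι → α, (∀ i, R i (f i)) ∧ Good (range f) := by
  classical
  let F : ∀ i : ι, (∀ j, j < i → α) → α := fun i r =>
    Classical.epsilon fun a => R i a ∧ Good (insert a (range fun j : Iio i => r j.1 j.2))
  let f : ι → α := wellFounded_lt.fix F
  have hf : ∀ i, f i = Classical.epsilon fun a => R i a ∧
      Good (insert a (range fun j : Iio i => f j.1)) := fun i => wellFounded_lt.fix_eq F i
  have fin : ∀ I : Set ι, (∀ j ∈ I, Good (insert (f j) (range fun k : Iio j => f k.1))) →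
      Good (f '' I) := by
    intro I hI
    refine hfin _ fun T hT hf => ?_
    obtain ⟨J, hJ, h1, rfl⟩ := hf.exists_subset_finite_image_eq hT
    rcases J.eq_empty_or_nonempty with rfl | hne
    · simpa using h0
    obtain ⟨m, hm, h2⟩ := J.exists_max_image id h1 hne
    refine mono _ _ ?_ (hI m (hJ hm))
    rintro _ ⟨k, hk, rfl⟩
    rcases (h2 k hk).eq_or_lt with h | h
    · exact Or.inl (congrArg f h)
    · exact Or.inr ⟨⟨k, h⟩, rfl⟩
  have key : ∀ i, R i (f i) ∧ Good (insert (f i) (range fun j : Iio i => f j.1)) := by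
    intro i
    induction i using WellFoundedLT.induction with
    | ind i ih =>
      rw [hf i]
      refine Classical.epsilon_spec (step i _ mk_range_le ?_)
      have := fin (Iio i) fun j hj => (ih j hj).2
      rwa [image_eq_range] at this
  exact ⟨f, fun i => (key i).1, by simpa using fin univ fun j _ => (key j).2⟩

open Polynomial Algebra in
theorem ex_val (S : Set ℝ) (h : #S < continuum) :
    ∃ (V : ValuationSubring ℝ) (x : ℝ), x ∉ V ∧ ∀ a ∈ Subfield.closure S, a ∈ V := by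
  let L := Subfield.closure S
  have h1 : #L < continuum :=
    (Subfield.cardinalMk_closure_le_max S).trans_lt (max_lt h aleph0_lt_continuum)
  obtain ⟨x, hx⟩ : ∃ x : ℝ, ¬ IsAlgebraic L x := by
    by_contra hn
    push Not at hn
    have := Algebraic.cardinalMk_le_max L ℝ
    rw [mk_congr (Equiv.subtypeUnivEquiv hn), mk_real] at this
    exact absurd (this.trans_lt (max_lt h1 aleph0_lt_continuum)) (lt_irrefl _)
  have hx0 : x ≠ 0 := by rintro rfl; exact hx isAlgebraic_zero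
  let := invertibleOfNonzero hx0
  let B := Algebra.adjoin L {x⁻¹}
  let xinv : B.toSubring := ⟨x⁻¹, subset_adjoin rfl⟩
  have : Ideal.span {xinv} ≠ ⊤ := fun eq => hx <|
    have ⟨p, hp, hpx⟩ := exists_aeval_invOf_eq_zero_of_idealMap_adjoin_sup_span_eq_top _
      (⊥ : Ideal L) bot_ne_top (top_unique <| eq.ge.trans le_add_self)
    IsIntegral.isAlgebraic ⟨p, by simpa [Monic, sub_eq_zero] using hp, hpx⟩
  have ⟨V, hV⟩ := Ideal.image_subset_nonunits_valuationSubring _ this
  exact ⟨V, x, (V.inv_mem_nonunits_iff.mp <| hV.2 ⟨_, Ideal.subset_span rfl, rfl⟩).resolve_left hx0,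
    fun r hr => hV.1 (B.algebraMap_mem ⟨r, hr⟩)⟩

abbrev G := SpecialLinearGroup (Fin 2) ℝ

def GoodS (H : Subgroup G) : Prop := ∀ W ∈ H, W 1 0 = 0 → W = 1 ∨ W = -1

def Good (K : Set G) : Prop := GoodS (Subgroup.closure (insert (-1) K))

theorem mul0 (A B : G) : (A * B) 0 0 = A 0 0 * B 0 0 + A 0 1 * B 1 0 := by
  simp [Matrix.mul_apply, Fin.sum_univ_two]

theorem mul1 (A B : G) : (A * B) 1 0 = A 1 0 * B 0 0 + A 1 1 * B 1 0 := by
  simp [Matrix.mul_apply, Fin.sum_univ_two]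

def up (x : ℝ) : G := ⟨!![1, x; 0, 1], by simp [det_fin_two]⟩
def lo (x : ℝ) : G := ⟨!![1, 0; x, 1], by simp [det_fin_two]⟩

theorem up_c (x : ℝ) : ((up x : G) : Matrix (Fin 2) (Fin 2) ℝ) = !![1, x; 0, 1] := rfl
theorem lo_c (x : ℝ) : ((lo x : G) : Matrix (Fin 2) (Fin 2) ℝ) = !![1, 0; x, 1] := rfl

theorem mulij (A B : G) (i j : Fin 2) : (A * B) i j = A i 0 * B 0 j + A i 1 * B 1 j := by
  simp [Matrix.mul_apply, Fin.sum_univ_two]

theorem up_inv (x : ℝ) : (up x)⁻¹ = up (-x) := by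
  refine inv_eq_of_mul_eq_one_right ?_
  ext i j
  fin_cases i <;> fin_cases j <;> simp [up_c, Matrix.mul_apply, Fin.sum_univ_two]

theorem lo_inv (x : ℝ) : (lo x)⁻¹ = lo (-x) := by
  refine inv_eq_of_mul_eq_one_right ?_
  ext i j
  fin_cases i <;> fin_cases j <;> simp [lo_c, Matrix.mul_apply, Fin.sum_univ_two]

def ent (L : Subfield ℝ) : Subgroup G where
  carrier := {A | ∀ i j, A i j ∈ L}
  one_mem' i j := by
    fin_cases i <;> fin_cases j <;> simp
  mul_mem' {A B} hA hB i j := by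
    rw [mulij]
    exact add_mem (mul_mem (hA _ _) (hB _ _)) (mul_mem (hA _ _) (hB _ _))
  inv_mem' {A} hA i j := by
    rw [SpecialLinearGroup.SL2_inv_expl]
    fin_cases i <;> fin_cases j <;> simp [hA _ _]

inductive Rd (H J : Subgroup G) (y : G) : G → Prop
  | base (a h : G) : a ∈ J → ¬ (a = 1 ∨ a = -1) → h ∈ H → Rd H J y (y * a * y⁻¹ * h)
  | step (a h W : G) : a ∈ J → ¬ (a = 1 ∨ a = -1) → h ∈ H → ¬ (h = 1 ∨ h = -1) → Rd H J y W →
      Rd H J y (y * a * y⁻¹ * (h * W))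

theorem rd_closed (H J : Subgroup G) (y : G) (hH : -1 ∈ H) (hJ : -1 ∈ J) (a : G) (ha : a ∈ J)
    (s : G) (hs : s ∈ H ∨ ∃ h ∈ H, ∃ W, Rd H J y W ∧ s = h * W) :
    y * a * y⁻¹ * s ∈ H ∨ ∃ h ∈ H, ∃ W, Rd H J y W ∧ y * a * y⁻¹ * s = h * W := by
  have cz : ∀ a : G, (a = 1 ∨ a = -1) → y * a * y⁻¹ ∈ H := by
    rintro _ (rfl | rfl)
    · simp
    · simpa using hH
  have c1 : ∀ a : G, (a = 1 ∨ a = -1) → ∀ s, (s ∈ H ∨ ∃ h ∈ H, ∃ W, Rd H J y W ∧ s = h * W) →
      y * a * y⁻¹ * s ∈ H ∨ ∃ h ∈ H, ∃ W, Rd H J y W ∧ y * a * y⁻¹ * s = h * W := by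
    rintro a h s (hs | ⟨k, hk, W, hW, rfl⟩)
    · exact Or.inl (mul_mem (cz a h) hs)
    · exact Or.inr ⟨_, mul_mem (cz a h) hk, W, hW, by rw [mul_assoc (y * a * y⁻¹)]⟩
  by_cases h : a = 1 ∨ a = -1
  · exact c1 a h s hs
  rcases hs with hs | ⟨k, hk, W, hW, rfl⟩
  · exact Or.inr ⟨1, one_mem _, _, Rd.base a s ha h hs, (one_mul _).symm⟩
  by_cases h2 : k = 1 ∨ k = -1
  swap
  · exact Or.inr ⟨1, one_mem _, _, Rd.step a k W ha h hk h2 hW, (one_mul _).symm⟩
  have e : ∀ b t : G, y * a * y⁻¹ * (k * (y * b * y⁻¹ * t)) = y * (a * k * b) * y⁻¹ * t := by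
    intro b t
    rcases h2 with rfl | rfl <;> simp [mul_assoc]
  have hkJ : k ∈ J := by
    rcases h2 with rfl | rfl
    · exact one_mem _
    · exact hJ
  cases hW with
  | base b t hb _ ht =>
    rw [e]
    by_cases h3 : a * k * b = 1 ∨ a * k * b = -1
    · exact c1 _ h3 _ (Or.inl ht)
    · exact Or.inr ⟨1, one_mem _, _, Rd.base _ t (mul_mem (mul_mem ha hkJ) hb) h3 ht,
        (one_mul _).symm⟩
  | step b t W hb _ ht h4 hW =>
    rw [e]
    by_cases h3 : a * k * b = 1 ∨ a * k * b = -1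
    · exact c1 _ h3 _ (Or.inr ⟨t, ht, W, hW, rfl⟩)
    · exact Or.inr ⟨1, one_mem _, _, Rd.step _ t W (mul_mem (mul_mem ha hkJ) hb) h3 ht h4 hW,
        (one_mul _).symm⟩

theorem pingpong (L : Subfield ℝ) (V : ValuationSubring ℝ) (x : ℝ) (hx : x ∉ V)
    (hL : ∀ a ∈ L, a ∈ V) (H J : Subgroup G) (h1 : H ≤ ent L) (h2 : J ≤ ent L) (g1 : GoodS H)
    (g2 : GoodS J) (s : G) (hs : s ∈ H ∨ ∃ h ∈ H, ∃ W, Rd H J (up x) W ∧ s = h * W) :
    s 1 0 = 0 → s = 1 ∨ s = -1 := by
  let v := V.valuation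
  have v1 : ∀ a ∈ L, v a ≤ 1 := fun a ha => (V.valuation_le_one_iff a).mpr (hL a ha)
  have v2 : ∀ a ∈ L, a ≠ 0 → v a = 1 := fun a ha h0 => le_antisymm (v1 a ha) (by
    have := v1 _ (inv_mem ha)
    rw [map_inv₀] at this
    exact (inv_le_one₀ (zero_lt_iff.mpr ((map_ne_zero v).mpr h0))).mp this)
  have vx : 1 < v x := not_le.mp fun h => hx ((V.valuation_le_one_iff x).mp h)
  have A : ∀ h ∈ ent L, h 1 0 ≠ 0 → ∀ W : G, v (W 1 0) < v (W 0 0) →
      (h * W) 1 0 ≠ 0 ∧ v ((h * W) 0 0) ≤ v ((h * W) 1 0) := by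
    intro h hh h0 W hW
    have k : ∀ a ∈ L, ∀ t, v (a * t) ≤ v t := fun a ha t => by
      rw [map_mul]; exact mul_le_of_le_one_left' (v1 a ha)
    have e1 : v (h 1 0 * W 0 0) = v (W 0 0) := by rw [map_mul, v2 _ (hh _ _) h0, one_mul]
    have e2 : v ((h * W) 1 0) = v (W 0 0) := by
      rw [mul1, v.map_add_eq_of_lt_left, e1]
      rw [e1]
      exact (k _ (hh _ _) _).trans_lt hW
    refine ⟨fun h3 => ?_, ?_⟩
    · rw [h3, map_zero] at e2
      rw [← e2] at hW
      exact absurd hW (not_lt.mpr zero_le)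
    · rw [e2, mul0]
      exact v.map_add_le (k _ (hh _ _) _) ((k _ (hh _ _) _).trans hW.le)
  have B : ∀ z, 1 < v z → ∀ W : G, W 1 0 ≠ 0 → v (W 0 0) ≤ v (W 1 0) →
      (up z * W) 1 0 ≠ 0 ∧ v ((up z * W) 1 0) < v ((up z * W) 0 0) := by
    intro z hz W h3 h4
    have e1 : (up z * W) 1 0 = W 1 0 := by rw [mul1]; simp [up_c]
    have e2 : (up z * W) 0 0 = W 0 0 + z * W 1 0 := by rw [mul0]; simp [up_c]
    have e3 : v (W 1 0) < v (z * W 1 0) := by
      rw [map_mul]
      exact lt_mul_of_one_lt_left (zero_lt_iff.mpr ((map_ne_zero v).mpr h3)) hz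
    rw [e1, e2, v.map_add_eq_of_lt_right (h4.trans_lt e3)]
    exact ⟨h3, e3⟩
  have vx' : 1 < v (-x) := by rwa [v.map_neg]
  have C : ∀ a ∈ J, ¬ (a = 1 ∨ a = -1) → ∀ W : G, v ((up (-x) * W) 1 0) < v ((up (-x) * W) 0 0) →
      (up x * a * (up x)⁻¹ * W) 1 0 ≠ 0 ∧
        v ((up x * a * (up x)⁻¹ * W) 1 0) < v ((up x * a * (up x)⁻¹ * W) 0 0) := by
    intro a ha h3 W hW
    obtain ⟨a1, a2⟩ := A a (h2 ha) (fun h => h3 (g2 a ha h)) _ hW
    rw [up_inv, mul_assoc, mul_assoc]
    exact B x vx _ a1 a2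
  have D : ∀ W, Rd H J (up x) W → W 1 0 ≠ 0 ∧ v (W 1 0) < v (W 0 0) := by
    intro W hW
    induction hW with
    | base a h ha h3 hh =>
      refine C a ha h3 h ?_
      by_cases h4 : h 1 0 = 0
      · rcases g1 h hh h4 with rfl | rfl <;> simp [up_c]
      · exact (B _ vx' h h4 (by rw [v2 _ (h1 hh _ _) h4]; exact v1 _ (h1 hh _ _))).2
    | step a h W ha h3 hh h4 _ ih =>
      obtain ⟨a1, a2⟩ := A h (h1 hh) (fun h5 => h4 (g1 h hh h5)) _ ih.2
      exact C a ha h3 _ (B _ vx' _ a1 a2).2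
  rcases hs with hs | ⟨h, hh, W, hW, rfl⟩
  · exact g1 s hs
  intro h3
  exfalso
  by_cases h4 : h 1 0 = 0
  · rcases g1 h hh h4 with rfl | rfl
    · exact (D W hW).1 (by simpa using h3)
    · exact (D W hW).1 (by simpa using h3)
  · exact (A h (h1 hh) h4 W (D W hW).2).1 h3

theorem good_one (g : G) : ∃ z : G, Good {z * g * z⁻¹} := by
  have h1 : ∀ m : G, ¬ (m = 1 ∨ m = -1) → {t : ℝ | (lo (-t) * m * lo t) 1 0 = 0}.Finite := by
    intro m hm
    have hp : (Polynomial.C (-m 0 1) * Polynomial.X ^ 2 + Polynomial.C (m 1 1 - m 0 0) *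
        Polynomial.X + Polynomial.C (m 1 0)) ≠ 0 := by
      intro h
      have c0 := congrArg (Polynomial.coeff · 0) h
      have c1 := congrArg (Polynomial.coeff · 1) h
      have c2 := congrArg (Polynomial.coeff · 2) h
      simp only [Polynomial.coeff_add, Polynomial.coeff_C_mul, Polynomial.coeff_X_pow,
        Polynomial.coeff_X, Polynomial.coeff_C, Polynomial.coeff_zero] at c0 c1 c2
      norm_num at c0 c1 c2
      have hd := m.det_coe
      rw [det_fin_two, c0, c2, sub_eq_zero.mp c1, mul_zero, sub_zero] at hd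
      apply hm
      refine (mul_self_eq_one_iff.mp hd).imp (fun h => ?_) (fun h => ?_) <;>
      · ext i j
        fin_cases i <;> fin_cases j <;> simp [c0, c2, sub_eq_zero.mp c1, h]
    refine (Polynomial.finite_setOfPred_isRoot hp).subset fun t ht => ?_
    simp only [mem_ofPred_eq, mul_assoc, mul1, mul0] at ht
    simp [lo_c] at ht
    simp
    linear_combination ht
  have h2 : (⋃ n : ℤ, ⋃ _ : ¬ (g ^ n = 1 ∨ g ^ n = -1),
      {t : ℝ | (lo (-t) * g ^ n * lo t) 1 0 = 0}).Countable :=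
    countable_iUnion fun n => countable_iUnion fun h => (h1 _ h).countable
  obtain ⟨t, ht⟩ : ∃ t, t ∉ (⋃ n : ℤ, ⋃ _ : ¬ (g ^ n = 1 ∨ g ^ n = -1),
      {t : ℝ | (lo (-t) * g ^ n * lo t) 1 0 = 0}) := by
    by_contra hn
    exact not_countable_real (h2.mono fun t _ => not_not.mp (not_exists.mp hn t))
  refine ⟨(lo t)⁻¹, fun W hW h => ?_⟩
  have : ∃ n : ℤ, W = (lo t)⁻¹ * g ^ n * lo t ∨ W = -((lo t)⁻¹ * g ^ n * lo t) := by
    clear h
    induction hW using Subgroup.closure_induction with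
    | mem a ha =>
      rcases ha with rfl | rfl
      · exact ⟨0, by simp⟩
      · exact ⟨1, by simp⟩
    | one => exact ⟨0, by simp⟩
    | mul a b _ _ ha hb =>
      obtain ⟨n, ha⟩ := ha
      obtain ⟨m, hb⟩ := hb
      refine ⟨n + m, ?_⟩
      rcases ha with rfl | rfl <;> rcases hb with rfl | rfl <;> simp [_root_.zpow_add, mul_assoc]
    | inv a _ ha =>
      obtain ⟨n, ha⟩ := ha
      refine ⟨-n, ?_⟩
      rcases ha with rfl | rfl <;> simp [mul_assoc]
  obtain ⟨n, hn⟩ := this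
  by_cases h3 : g ^ n = 1 ∨ g ^ n = -1
  · rcases h3 with h3 | h3 <;> rcases hn with rfl | rfl <;> simp [h3]
  · refine absurd (mem_iUnion₂.mpr ⟨n, h3, ?_⟩) ht
    rw [mem_ofPred_eq, ← lo_inv]
    rcases hn with rfl | rfl
    · exact h
    · simpa using h

theorem good_step (K : Set G) (hK : #K < continuum) (h : Good K) (g : G) :
    ∃ a, (∃ z, a = z * g * z⁻¹) ∧ Good (insert a K) := by
  obtain ⟨z, hz⟩ := good_one g
  set b := z * g * z⁻¹
  let S : Set ℝ := ⋃ i, ⋃ j, (fun A : G => A i j) '' insert b K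
  have hS : #S < continuum := by
    have : #(insert b K : Set G) < continuum :=
      mk_insert_le.trans_lt (add_lt_of_lt aleph0_le_continuum hK (one_lt_aleph0.trans aleph0_lt_continuum))
    have e : S = ((fun A : G => A 0 0) '' insert b K ∪ (fun A : G => A 0 1) '' insert b K) ∪
        ((fun A : G => A 1 0) '' insert b K ∪ (fun A : G => A 1 1) '' insert b K) := by
      ext t
      simp only [S, mem_iUnion, Fin.exists_fin_two, mem_union]
    rw [e]
    have k := fun i j => (mk_image_le (f := fun A : G => A i j)).trans_lt this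
    have u : ∀ s t : Set ℝ, #s < continuum → #t < continuum → #(s ∪ t : Set ℝ) < continuum :=
      fun s t hs ht => (mk_union_le s t).trans_lt (add_lt_of_lt aleph0_le_continuum hs ht)
    exact u _ _ (u _ _ (k _ _) (k _ _)) (u _ _ (k _ _) (k _ _))
  obtain ⟨V, x, hx, hV⟩ := ex_val S hS
  have hent : ∀ T ⊆ insert b K, Subgroup.closure (insert (-1) T) ≤ ent (Subfield.closure S) := by
    intro T hT
    refine (Subgroup.closure_le _).mpr ?_
    rintro a (rfl | ha) i j
    · fin_cases i <;> fin_cases j <;> simp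
    · exact Subfield.subset_closure (mem_iUnion₂.mpr ⟨i, j, a, hT ha, rfl⟩)
  refine ⟨up x * b * (up x)⁻¹, ⟨up x * z, by simp [b, mul_assoc]⟩, fun W hW => ?_⟩
  let H := Subgroup.closure (insert (-1) K)
  let J := Subgroup.closure (insert (-1) {b})
  have hH : -1 ∈ H := Subgroup.subset_closure (Or.inl rfl)
  have hJ : -1 ∈ J := Subgroup.subset_closure (Or.inl rfl)
  have hb : b ∈ J := Subgroup.subset_closure (Or.inr rfl)
  refine pingpong _ V x hx hV H J (hent _ (subset_insert _ _)) (hent _ (by simp)) h hz W ?_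
  have c1 : ∀ k ∈ H, ∀ s, (s ∈ H ∨ ∃ h ∈ H, ∃ W, Rd H J (up x) W ∧ s = h * W) →
      (k * s ∈ H ∨ ∃ h ∈ H, ∃ W, Rd H J (up x) W ∧ k * s = h * W) := by
    rintro k hk s (hs | ⟨t, ht, W, hW, rfl⟩)
    · exact Or.inl (mul_mem hk hs)
    · exact Or.inr ⟨_, mul_mem hk ht, W, hW, by rw [mul_assoc]⟩
  induction hW using Subgroup.closure_induction_left with
  | one => exact Or.inl (one_mem _)
  | mul_left a ha s _ ih =>
    rcases ha with rfl | rfl | ha
    · exact c1 _ hH s ih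
    · exact rd_closed H J _ hH hJ b hb s ih
    · exact c1 _ (Subgroup.subset_closure (Or.inr ha)) s ih
  | inv_mul_cancel a ha s _ ih =>
    rcases ha with rfl | rfl | ha
    · exact c1 _ (inv_mem hH) s ih
    · have := rd_closed H J _ hH hJ b⁻¹ (inv_mem hb) s ih
      simpa [mul_assoc] using this
    · exact c1 _ (inv_mem (Subgroup.subset_closure (Or.inr ha))) s ih

theorem good_fin (S : Set G) (h : ∀ T ⊆ S, T.Finite → Good T) : Good S := by
  intro W hW
  have : ∃ T ⊆ S, T.Finite ∧ W ∈ Subgroup.closure (insert (-1) T) := by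
    induction hW using Subgroup.closure_induction with
    | mem a ha =>
      rcases ha with rfl | ha
      · exact ⟨∅, empty_subset _, finite_empty, Subgroup.subset_closure (Or.inl rfl)⟩
      · exact ⟨{a}, by simpa, finite_singleton _, Subgroup.subset_closure (Or.inr rfl)⟩
    | one => exact ⟨∅, empty_subset _, finite_empty, one_mem _⟩
    | mul a b _ _ ha hb =>
      obtain ⟨T, t1, t2, t3⟩ := ha
      obtain ⟨U, u1, u2, u3⟩ := hb
      exact ⟨T ∪ U, union_subset t1 u1, t2.union u2,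
        mul_mem (Subgroup.closure_mono (insert_subset_insert subset_union_left) t3)
          (Subgroup.closure_mono (insert_subset_insert subset_union_right) u3)⟩
    | inv a _ ha =>
      obtain ⟨T, t1, t2, t3⟩ := ha
      exact ⟨T, t1, t2, inv_mem t3⟩
  obtain ⟨T, t1, t2, t3⟩ := this
  exact h T t1 t2 W t3

theorem main : ∃ H : Subgroup G, (∀ g : G, ∃ x : G, x * g * x⁻¹ ∈ H) ∧ H ≠ ⊤ := by
  have hG : #G ≤ continuum := by
    have : #G ≤ #((ℝ × ℝ) × (ℝ × ℝ)) := by
      refine mk_le_of_injective (f := fun A : G => ((A 0 0, A 0 1), (A 1 0, A 1 1))) fun A B h => ?_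
      simp only [Prod.mk.injEq] at h
      ext i j
      fin_cases i <;> fin_cases j <;> simp [h]
    simpa [mk_real] using this
  have mono : ∀ S T : Set G, T ⊆ S → Good S → Good T := fun S T h hS W hW =>
    hS W (Subgroup.closure_mono (insert_subset_insert h) hW)
  obtain ⟨e⟩ : Nonempty ((#G).ord.ToType ≃ G) := Cardinal.eq.mp (by simp)
  obtain ⟨f, h1, h2⟩ := transf (fun i a => ∃ z, a = z * e i * z⁻¹) Good good_fin mono (by
      obtain ⟨z, hz⟩ := good_one 1
      exact mono _ _ (empty_subset _) hz)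
    fun i S hS h => good_step S (hS.trans_lt ((mk_Iio_toType_ord_lt i).trans_le hG)) h _
  refine ⟨Subgroup.closure (insert (-1) (range f)), fun g => ?_, fun h => ?_⟩
  · obtain ⟨z, hz⟩ := h1 (e.symm g)
    rw [e.apply_symm_apply] at hz
    exact ⟨z, Subgroup.subset_closure (Or.inr ⟨_, hz⟩)⟩
  · rcases h2 (up 1) (h ▸ trivial) (by simp [up_c]) with h3 | h3 <;>
    · have := congrArg (fun A : G => A 0 1) h3
      simp [up_c] at this

end H17IG

/-- The negation of the preceding statement: Every subgroup of SL_2(R), viewed as an abstract group, that contains a conjugate of every element is the whole group; that is, SL_2(R) is invariably generated. -/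
theorem result :
    ¬ (∀ H : Subgroup (Matrix.SpecialLinearGroup (Fin 2) ℝ),
      (∀ g : Matrix.SpecialLinearGroup (Fin 2) ℝ,
        ∃ x : Matrix.SpecialLinearGroup (Fin 2) ℝ, x * g * x⁻¹ ∈ H) →
      H = ⊤) := by
  intro h
  obtain ⟨H, h1, h2⟩ := H17IG.main
  exact h2 (h H h1)

end Pool.Agent.S01882
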