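import Pool.Statements.S01898
-- import your own Pool.Agent.* helpers here

set_option autoImplicit false
open Pool Pool.MP_72b122_al

namespace Pool.Agent.S01898

open Topology Filter Set

/-- finitely supported sequences of integer pairs, written multiplicatively -/
def G : Type := Multiplicative (ℕ →₀ ℤ × ℤ)

def val (x : G) : ℕ →₀ ℤ × ℤ := Multiplicative.toAdd x
def mk (x : ℕ →₀ ℤ × ℤ) : G := Multiplicative.ofAdd x

noncomputable instance : CommGroup G := inferInstanceAs (CommGroup (Multiplicative (ℕ →₀ ℤ × ℤ)))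
noncomputable instance : Lattice G := inferInstanceAs (Lattice (ℕ →₀ ℤ × ℤ))

lemma val_mk (x : ℕ →₀ ℤ × ℤ) : val (mk x) = x := rfl
lemma val_mul (x y : G) (n : ℕ) : val (x * y) n = val x n + val y n := rfl
lemma val_inv (x : G) (n : ℕ) : val x⁻¹ n = - val x n := rfl
lemma val_one (n : ℕ) : val 1 n = 0 := rfl
lemma val_sup (x y : G) (n : ℕ) : val (x ⊔ y) n = val x n ⊔ val y n := rfl
lemma val_inf (x y : G) (n : ℕ) : val (x ⊓ y) n = val x n ⊓ val y n := rfl
lemma le_iff (x y : G) : x ≤ y ↔ ∀ n, val x n ≤ val y n := Iff.rfl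
lemma ext' {x y : G} (h : ∀ n, val x n = val y n) : x = y := Finsupp.ext h

instance : MulLeftMono G := ⟨fun z x y h => by
  rw [le_iff]
  intro n
  rw [val_mul, val_mul]
  exact add_le_add_right ((le_iff x y).1 h n) _⟩

instance : MulRightMono G := ⟨fun z x y h => by
  change x * z ≤ y * z
  rw [le_iff]
  intro n
  rw [val_mul, val_mul]
  exact add_le_add_left ((le_iff x y).1 h n) _⟩

/-- basic neighbourhoods -/
def V (x : G) (N : ℕ) : Set G :=
  {y | (∀ n < N, val y n = val x n) ∧ ∀ n, (val y n).1 - (val y n).2 = (val x n).1 - (val x n).2}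

lemma mem_V_self (x : G) (N : ℕ) : x ∈ V x N := ⟨fun _ _ => rfl, fun _ => rfl⟩

lemma V_mono (x : G) {N M : ℕ} (h : N ≤ M) : V x M ⊆ V x N :=
  fun _ hy => ⟨fun n hn => hy.1 n (lt_of_lt_of_le hn h), hy.2⟩

lemma V_trans {x y : G} {N : ℕ} (h : y ∈ V x N) : V y N ⊆ V x N :=
  fun _ hz => ⟨fun n hn => (hz.1 n hn).trans (h.1 n hn), fun n => (hz.2 n).trans (h.2 n)⟩

instance : TopologicalSpace G where
  IsOpen S := ∀ x ∈ S, ∃ N, V x N ⊆ S
  isOpen_univ := fun _ _ => ⟨0, subset_univ _⟩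
  isOpen_inter := fun S T hS hT x hx => by
    obtain ⟨N, hN⟩ := hS x hx.1
    obtain ⟨M, hM⟩ := hT x hx.2
    exact ⟨max N M, subset_inter ((V_mono x (le_max_left _ _)).trans hN)
      ((V_mono x (le_max_right _ _)).trans hM)⟩
  isOpen_sUnion := fun s hs x hx => by
    obtain ⟨S, hS, hxS⟩ := hx
    obtain ⟨N, hN⟩ := hs S hS x hxS
    exact ⟨N, hN.trans (subset_sUnion_of_mem hS)⟩

lemma isOpen_iff (S : Set G) : IsOpen S ↔ ∀ x ∈ S, ∃ N, V x N ⊆ S := Iff.rfl

lemma isOpen_V (x : G) (N : ℕ) : IsOpen (V x N) :=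
  (isOpen_iff _).2 fun _ hy => ⟨N, V_trans hy⟩

lemma V_mem_nhds (x : G) (N : ℕ) : V x N ∈ 𝓝 x := (isOpen_V x N).mem_nhds (mem_V_self x N)

lemma mem_nhds_iff' {x : G} {S : Set G} : S ∈ 𝓝 x ↔ ∃ N, V x N ⊆ S := by
  constructor
  · intro h
    obtain ⟨T, hTS, hT, hx⟩ := mem_nhds_iff.1 h
    obtain ⟨N, hN⟩ := (isOpen_iff T).1 hT x hx
    exact ⟨N, hN.trans hTS⟩
  · rintro ⟨N, hN⟩
    exact mem_of_superset (V_mem_nhds x N) hN

lemma cont2 (f : G → G → G)
    (h : ∀ x y N, ∃ M, ∀ x' ∈ V x M, ∀ y' ∈ V y M, f x' y' ∈ V (f x y) N) :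
    Continuous fun p : G × G => f p.1 p.2 := by
  rw [continuous_iff_continuousAt]
  rintro ⟨x, y⟩ S hS
  obtain ⟨N, hN⟩ := mem_nhds_iff'.1 hS
  obtain ⟨M, hM⟩ := h x y N
  rw [mem_map, nhds_prod_eq]
  exact mem_of_superset (prod_mem_prod (V_mem_nhds x M) (V_mem_nhds y M))
    fun p hp => hN (hM _ hp.1 _ hp.2)

lemma exists_bound (x y : G) (N : ℕ) :
    ∃ M, N ≤ M ∧ ∀ n, M ≤ n → val x n = 0 ∧ val y n = 0 := by
  obtain ⟨a, ha⟩ := (val x).support.bddAbove
  obtain ⟨b, hb⟩ := (val y).support.bddAbove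
  refine ⟨max N (max a b + 1), le_max_left _ _, fun n hn => ⟨?_, ?_⟩⟩
  · by_contra h
    have := ha (Finset.mem_coe.2 (Finsupp.mem_support_iff.2 h))
    omega
  · by_contra h
    have := hb (Finset.mem_coe.2 (Finsupp.mem_support_iff.2 h))
    omega

instance : IsTopologicalGroup G where
  continuous_mul := cont2 (fun x y => x * y) fun x y N => ⟨N, fun x' hx y' hy =>
    ⟨fun n hn => by rw [val_mul, val_mul, hx.1 n hn, hy.1 n hn], fun n => by
      have h1 := hx.2 n
      have h2 := hy.2 n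
      simp only [val_mul, Prod.fst_add, Prod.snd_add]
      omega⟩⟩
  continuous_inv := by
    have := cont2 (fun x _ => x⁻¹) fun x y N => ⟨N, fun x' hx y' hy =>
      ⟨fun n hn => by rw [val_inv, val_inv, hx.1 n hn], fun n => by
        have h1 := hx.2 n
        simp only [val_inv, Prod.fst_neg, Prod.snd_neg]
        omega⟩⟩
    exact this.comp (continuous_id.prodMk continuous_id)

instance : TopologicalLattice G where
  continuous_sup := cont2 (fun x y => x ⊔ y) fun x y N => by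
    obtain ⟨M, hNM, hM⟩ := exists_bound x y N
    refine ⟨M, fun x' hx y' hy => ⟨fun n hn => ?_, fun n => ?_⟩⟩
    · rw [val_sup, val_sup, hx.1 n (by omega), hy.1 n (by omega)]
    · by_cases hn : n < M
      · rw [val_sup, val_sup, hx.1 n hn, hy.1 n hn]
      · have h1 := hx.2 n
        have h2 := hy.2 n
        obtain ⟨h3, h4⟩ := hM n (by omega)
        simp only [val_sup, h3, h4, Prod.fst_sup, Prod.snd_sup, Prod.fst_zero, Prod.snd_zero] at h1 h2 ⊢
        omega
  continuous_inf := cont2 (fun x y => x ⊓ y) fun x y N => by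
    obtain ⟨M, hNM, hM⟩ := exists_bound x y N
    refine ⟨M, fun x' hx y' hy => ⟨fun n hn => ?_, fun n => ?_⟩⟩
    · rw [val_inf, val_inf, hx.1 n (by omega), hy.1 n (by omega)]
    · by_cases hn : n < M
      · rw [val_inf, val_inf, hx.1 n hn, hy.1 n hn]
      · have h1 := hx.2 n
        have h2 := hy.2 n
        obtain ⟨h3, h4⟩ := hM n (by omega)
        simp only [val_inf, h3, h4, Prod.fst_inf, Prod.snd_inf, Prod.fst_zero, Prod.snd_zero] at h1 h2 ⊢
        omega

def A : Subgroup G where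
  carrier := {x | ∀ n, (val x n).2 = 0}
  mul_mem' := fun {x y} hx hy n => by
    rw [val_mul, Prod.snd_add, hx n, hy n, add_zero]
  one_mem' := fun _ => rfl
  inv_mem' := fun {x} hx n => by rw [val_inv, Prod.snd_neg, hx n, neg_zero]

def B : Subgroup G where
  carrier := {x | ∀ n, (val x n).1 = 0}
  mul_mem' := fun {x y} hx hy n => by
    rw [val_mul, Prod.fst_add, hx n, hy n, add_zero]
  one_mem' := fun _ => rfl
  inv_mem' := fun {x} hx n => by rw [val_inv, Prod.fst_neg, hx n, neg_zero]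

lemma mem_A (x : G) : x ∈ A ↔ ∀ n, (val x n).2 = 0 := Iff.rfl
lemma mem_B (x : G) : x ∈ B ↔ ∀ n, (val x n).1 = 0 := Iff.rfl

lemma closed_A : IsClosed (A : Set G) := by
  rw [← isOpen_compl_iff, isOpen_iff]
  intro x hx
  have : ∃ n, (val x n).2 ≠ 0 := by
    by_contra h
    push Not at h
    exact hx h
  obtain ⟨n, hn⟩ := this
  refine ⟨n + 1, fun y hy hyA => hn ?_⟩
  rw [← hy.1 n (by omega)]
  exact hyA n

lemma closed_B : IsClosed (B : Set G) := by
  rw [← isOpen_compl_iff, isOpen_iff]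
  intro x hx
  have : ∃ n, (val x n).1 ≠ 0 := by
    by_contra h
    push Not at h
    exact hx h
  obtain ⟨n, hn⟩ := this
  refine ⟨n + 1, fun y hy hyA => hn ?_⟩
  rw [← hy.1 n (by omega)]
  exact hyA n

noncomputable def pA (x : G) : A :=
  ⟨mk ((val x).mapRange (fun p => (p.1, 0)) rfl), fun _ => rfl⟩
noncomputable def pB (x : G) : B :=
  ⟨mk ((val x).mapRange (fun p => (0, p.2)) rfl), fun _ => rfl⟩

lemma val_pA (x : G) (n : ℕ) : val (pA x) n = ((val x n).1, 0) := rfl
lemma val_pB (x : G) (n : ℕ) : val (pB x) n = (0, (val x n).2) := rfl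

lemma val_phi (p : A × B) (n : ℕ) :
    val ((p.1 : G) * (p.2 : G)) n = ((val p.1 n).1, (val p.2 n).2) := by
  rw [val_mul]
  have h1 := p.1.2 n
  have h2 := p.2.2 n
  ext
  · simp [h2]
  · simp [h1]

/-- The negation of the preceding statement: Let G be a topological lattice-ordered group with closed normal ℓ-subgroups A, B such that multiplication A×B→G is an ℓ-isomorphism. Then this map is a homeomorphism from the product topology onto G. -/
theorem result :
    ¬ (∀ (G : Type) [Group G] [Lattice G] [MulLeftMono G] [MulRightMono G]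
      [TopologicalSpace G] [IsTopologicalGroup G] [TopologicalLattice G]
      (A B : Subgroup G),
      A.Normal → B.Normal →
      IsClosed (A : Set G) → IsClosed (B : Set G) →
      (∀ x ∈ A, ∀ y ∈ A, x ⊔ y ∈ A ∧ x ⊓ y ∈ A) →
      (∀ x ∈ B, ∀ y ∈ B, x ⊔ y ∈ B ∧ x ⊓ y ∈ B) →
      ∀ φ : (↥A × ↥B) → G, (∀ p, φ p = (p.1 : G) * (p.2 : G)) →
      Function.Bijective φ →
      (∀ p q : ↥A × ↥B, p ≤ q ↔ φ p ≤ φ q) →
      ∃ e : (↥A × ↥B) ≃ₜ G, ∀ p, e p = φ p) := by
  intro h
  obtain ⟨e, he⟩ := h G A B inferInstance inferInstance closed_A closed_B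
    (fun x hx y hy => ⟨fun n => by rw [val_sup, Prod.snd_sup, hx n, hy n, sup_idem],
      fun n => by rw [val_inf, Prod.snd_inf, hx n, hy n, inf_idem]⟩)
    (fun x hx y hy => ⟨fun n => by rw [val_sup, Prod.fst_sup, hx n, hy n, sup_idem],
      fun n => by rw [val_inf, Prod.fst_inf, hx n, hy n, inf_idem]⟩)
    (fun p => (p.1 : G) * (p.2 : G)) (fun _ => rfl)
    ⟨fun p q hpq => by
      have hn : ∀ n, ((val p.1 n).1, (val p.2 n).2) = ((val q.1 n).1, (val q.2 n).2) := fun n => by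
        rw [← val_phi, ← val_phi]
        exact congrArg (fun z => val z n) hpq
      refine Prod.ext (Subtype.ext (ext' fun n => ?_)) (Subtype.ext (ext' fun n => ?_))
      · exact Prod.ext (Prod.mk.inj (hn n)).1 ((p.1.2 n).trans (q.1.2 n).symm)
      · exact Prod.ext ((p.2.2 n).trans (q.2.2 n).symm) (Prod.mk.inj (hn n)).2,
     fun x => ⟨(pA x, pB x), ext' fun n => by rw [val_phi, val_pA, val_pB]⟩⟩
    (fun p q => by
      constructor
      · rintro ⟨h1, h2⟩
        rw [le_iff]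
        intro n
        rw [val_phi, val_phi]
        exact ⟨((le_iff _ _).1 h1 n).1, ((le_iff _ _).1 h2 n).2⟩
      · intro h
        have hn := (le_iff _ _).1 h
        simp only [val_phi] at hn
        refine ⟨(le_iff _ _).2 fun n => ⟨(hn n).1, ?_⟩, (le_iff _ _).2 fun n => ⟨?_, (hn n).2⟩⟩
        · rw [p.1.2 n, q.1.2 n]
        · rw [p.2.2 n, q.2.2 n])
  have hc : Continuous fun x : G => ((e.symm x).1 : G) :=
    continuous_subtype_val.comp (continuous_fst.comp e.symm.continuous)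
  have hval : ∀ x : G, ∀ n, val ((e.symm x).1 : G) n = ((val x n).1, 0) := fun x n => by
    have h1 := he (e.symm x)
    rw [Homeomorph.apply_symm_apply] at h1
    have h2 := val_phi (e.symm x) n
    rw [← h1] at h2
    exact Prod.ext (congrArg Prod.fst h2).symm ((e.symm x).1.2 n)
  have h1 := hc.continuousAt (x := 1) (V_mem_nhds _ 0)
  obtain ⟨N, hN⟩ := mem_nhds_iff'.1 h1
  have h2 : mk (Finsupp.single N (1, 1)) ∈ V 1 N := by
    refine ⟨fun n hn => ?_, fun n => ?_⟩
    · rw [val_mk, val_one, Finsupp.single_apply, if_neg (by omega)]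
    · rw [val_mk, val_one, Finsupp.single_apply]
      split_ifs <;> simp
  have h3 := (hN h2).2 N
  rw [hval, hval, val_mk, val_one] at h3
  simp at h3

end Pool.Agent.S01898
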