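import Pool.Statements.S01920
import Pool.Agent.Lib.helper25.BilAlg

set_option autoImplicit false
open Pool Pool.MP_73ecfa_al

namespace Pool.Agent.S01920

open Pool.Agent.Lib.H25BilAlg Matrix

abbrev V : Type := Fin 3 → ℚ
abbrev M : Type := ℚ × V × V

def rho : V →ₗ[ℚ] M →ₗ[ℚ] M :=
  LinearMap.mk₂ ℚ (fun b m => (b ⬝ᵥ m.2.2, m.1 • b, crossProduct b m.2.1))
    (fun a b c => by ext <;> simp; ring)
    (fun r a b => by ext <;> simp; ring)
    (fun a b c => by ext <;> simp; ring)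
    (fun r a b => by ext <;> simp; ring)

lemma rho_apply (b : V) (m : M) : rho b m = (b ⬝ᵥ m.2.2, m.1 • b, crossProduct b m.2.1) := rfl

def mm : V × M →ₗ[ℚ] V × M →ₗ[ℚ] V × M :=
  LinearMap.mk₂ ℚ (fun x y => (0, rho x.1 y.2 - rho y.1 x.2))
    (fun a b c => by refine Prod.ext (by simp) ?_; simp; abel)
    (fun r a b => by refine Prod.ext (by simp) ?_; simp [smul_sub])
    (fun a b c => by refine Prod.ext (by simp) ?_; simp; abel)
    (fun r a b => by refine Prod.ext (by simp) ?_; simp [smul_sub])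

lemma mul_eq (x y : Alg mm) : x * y = ((0, rho x.1 y.2 - rho y.1 x.2) : V × M) := rfl

def Q (b0 b1 : V) (k : ℕ) (m : M) : Prop :=
  (1 ≤ k → ∃ α β : ℚ, m.2.1 = α • b0 + β • b1) ∧ (2 ≤ k → ∃ γ : ℚ, m.2.2 = γ • crossProduct b0 b1) ∧
    (3 ≤ k → m.1 = 0) ∧ (4 ≤ k → m.2.1 = 0) ∧ (5 ≤ k → m.2.2 = 0)

lemma Q_zero (b0 b1 : V) (k : ℕ) : Q b0 b1 k 0 :=
  ⟨fun _ => ⟨0, 0, by simp⟩, fun _ => ⟨0, by simp⟩, fun _ => rfl, fun _ => rfl, fun _ => rfl⟩

lemma Q_sub (b0 b1 : V) (k : ℕ) (m m' : M) (h : Q b0 b1 k m) (h' : Q b0 b1 k m') :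
    Q b0 b1 k (m - m') := by
  obtain ⟨h1, h2, h3, h4, h5⟩ := h
  obtain ⟨g1, g2, g3, g4, g5⟩ := h'
  refine ⟨fun hk => ?_, fun hk => ?_, fun hk => ?_, fun hk => ?_, fun hk => ?_⟩
  · obtain ⟨α, β, e⟩ := h1 hk
    obtain ⟨α', β', e'⟩ := g1 hk
    refine ⟨α - α', β - β', ?_⟩
    simp only [Prod.snd_sub, Prod.fst_sub, e, e']
    module
  · obtain ⟨α, e⟩ := h2 hk
    obtain ⟨α', e'⟩ := g2 hk
    refine ⟨α - α', ?_⟩
    simp only [Prod.snd_sub, e, e']
    module
  · simp [h3 hk, g3 hk]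
  · simp [h4 hk, g4 hk]
  · simp [h5 hk, g5 hk]

lemma Q_step (b0 b1 : V) (k : ℕ) (m : M) (h : Q b0 b1 k m) (b : V) (hb : b = b0 ∨ b = b1) :
    Q b0 b1 (k + 1) (rho b m) := by
  obtain ⟨h1, h2, h3, h4, h5⟩ := h
  rw [rho_apply]
  refine ⟨fun hk => ?_, fun hk => ?_, fun hk => ?_, fun hk => ?_, fun hk => ?_⟩
  · rcases hb with rfl | rfl
    · exact ⟨m.1, 0, by simp⟩
    · exact ⟨0, m.1, by simp⟩
  · obtain ⟨α, β, e⟩ := h1 (by omega)
    rcases hb with rfl | rfl
    · exact ⟨β, by simp [e]⟩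
    · refine ⟨-α, ?_⟩
      simp only [e, map_add, map_smul, cross_self, smul_zero, add_zero]
      rw [← cross_anticomm b0 b, smul_neg, neg_smul]
  · obtain ⟨γ, e⟩ := h2 (by omega)
    rcases hb with rfl | rfl
    · simp [e]
    · simp [e]
  · simp [h3 (by omega)]
  · simp [h4 (by omega)]

lemma len_pos {α : Type} (w : FreeMagma α) : 1 ≤ w.length := by
  induction w with
  | ih1 i => exact le_rfl
  | ih2 x y hx hy => show 1 ≤ x.length + y.length; omega

lemma key (v : Fin 2 → Alg mm) (w : FreeMagma (Fin 2)) :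
    (w.length = 1 → (FreeMagma.lift v w).1 = (v 0).1 ∨ (FreeMagma.lift v w).1 = (v 1).1) ∧
    (2 ≤ w.length → (FreeMagma.lift v w).1 = 0) ∧
    Q (v 0).1 (v 1).1 (w.length - 1) (FreeMagma.lift v w).2 := by
  induction w with
  | ih1 i =>
    refine ⟨fun _ => ?_, fun h => absurd h (by simp), ?_⟩
    · fin_cases i
      · exact Or.inl rfl
      · exact Or.inr rfl
    · refine ⟨?_, ?_, ?_, ?_, ?_⟩ <;> intro h <;> exact absurd h (by simp)
  | ih2 x y hx hy =>
    have lx := len_pos x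
    have ly := len_pos y
    have l : (x * y).length = x.length + y.length := rfl
    rw [map_mul, mul_eq, l]
    refine ⟨fun h => by omega, fun _ => rfl, ?_⟩
    apply Q_sub
    · rcases Nat.lt_or_ge 1 x.length with h | h
      · rw [hx.2.1 h, map_zero]; exact Q_zero _ _ _
      · have := Q_step _ _ _ _ hy.2.2 _ (hx.1 (by omega))
        rwa [show y.length - 1 + 1 = x.length + y.length - 1 by omega] at this
    · rcases Nat.lt_or_ge 1 y.length with h | h
      · rw [hy.2.1 h, map_zero]; exact Q_zero _ _ _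
      · have := Q_step _ _ _ _ hx.2.2 _ (hy.1 (by omega))
        rwa [show x.length - 1 + 1 = x.length + y.length - 1 by omega] at this

lemma vanish (v : Fin 2 → Alg mm) (w : FreeMagma (Fin 2)) (h : 6 ≤ w.length) :
    FreeMagma.lift v w = 0 := by
  obtain ⟨-, h2, h3⟩ := key v w
  exact Prod.ext (h2 (by omega))
    (Prod.ext (h3.2.2.1 (by omega)) (Prod.ext (h3.2.2.2.1 (by omega)) (h3.2.2.2.2 (by omega))))

lemma lift_map {A : Type} [Mul A] (v : ℕ → A) (w : FreeMagma (Fin 2)) :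
    FreeMagma.lift v (FreeMagma.map Fin.val w) = FreeMagma.lift (fun i => v i.val) w := by
  induction w with
  | ih1 i => rfl
  | ih2 x y hx hy => rw [map_mul, map_mul, map_mul, hx, hy]

def gens : Fin 4 → Alg mm :=
  ![((![1, 0, 0], 0) : V × M), ((![0, 1, 0], 0) : V × M), ((![0, 0, 1], 0) : V × M),
    ((0, (1, 0, 0)) : V × M)]

def W : ℕ → FreeMagma (Fin 4)
  | 0 => FreeMagma.of 3
  | k + 1 => FreeMagma.of 0 * (FreeMagma.of 1 * (FreeMagma.of 2 * W k))

lemma W_spec (k : ℕ) : k ≤ (W k).length ∧ FreeMagma.lift gens (W k) = gens 3 := by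
  induction k with
  | zero => exact ⟨Nat.zero_le _, rfl⟩
  | succ k ih =>
    refine ⟨?_, ?_⟩
    · show k + 1 ≤ 1 + (1 + (1 + (W k).length))
      omega
    · rw [W, map_mul, map_mul, map_mul, ih.2]
      show gens 0 * (gens 1 * (gens 2 * gens 3)) = gens 3
      have e1 : gens 2 * gens 3 = ((0, (0, ![0, 0, 1], 0)) : V × M) := by
        rw [mul_eq]
        show ((0, rho ![0, 0, 1] (1, 0, 0) - rho 0 0) : V × M) = _
        simp [rho_apply]
      have e2 : gens 1 * (show Alg mm from ((0, (0, ![0, 0, 1], 0)) : V × M)) =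
          ((0, (0, 0, ![1, 0, 0])) : V × M) := by
        rw [mul_eq]
        show ((0, rho ![0, 1, 0] (0, ![0, 0, 1], 0) - rho 0 0) : V × M) = _
        simp [rho_apply, cross_apply]
      have e3 : gens 0 * (show Alg mm from ((0, (0, 0, ![1, 0, 0])) : V × M)) = gens 3 := by
        rw [mul_eq]
        show ((0, rho ![1, 0, 0] (0, 0, ![1, 0, 0]) - rho 0 0) : V × M) = ((0, (1, 0, 0)) : V × M)
        simp [rho_apply]
      rw [e1, e2, e3]


/-- The negation of the preceding statement: For any field and any variety of anticommutative algebras given by identities: if for some n at least 2 all long enough products of any n elements vanish uniformly, then every finitely generated algebra of the variety is nilpotent. -/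
theorem result :
    ¬ (∀ (K : Type) [Field K] (S : Set (MonoidAlgebra K (FreeMagma ℕ))) (n : ℕ), 2 ≤ n →
      (∃ c : ℕ, ∀ (A : Type) [NonUnitalNonAssocRing A] [Module K A]
          [IsScalarTower K A A] [SMulCommClass K A A],
          (∀ a : A, a * a = 0) →
          (∀ f ∈ S, ∀ v : ℕ → A, MonoidAlgebra.liftMagma K (FreeMagma.lift v) f = 0) →
          ∀ (x : Fin n → A) (w : FreeMagma (Fin n)), c ≤ w.length → FreeMagma.lift x w = 0) →
      ∀ (A : Type) [NonUnitalNonAssocRing A] [Module K A]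
          [IsScalarTower K A A] [SMulCommClass K A A],
          (∀ a : A, a * a = 0) →
          (∀ f ∈ S, ∀ v : ℕ → A, MonoidAlgebra.liftMagma K (FreeMagma.lift v) f = 0) →
          ∀ (m : ℕ) (x : Fin m → A), ∃ c : ℕ,
            ∀ w : FreeMagma (Fin m), c ≤ w.length → FreeMagma.lift x w = 0) := by
  intro H
  let S : Set (MonoidAlgebra ℚ (FreeMagma ℕ)) :=
    {f | ∃ w : FreeMagma (Fin 2), 6 ≤ w.length ∧ f = MonoidAlgebra.single (FreeMagma.map Fin.val w) 1}
  have ev : ∀ (A : Type) [NonUnitalNonAssocRing A] [Module ℚ A] [IsScalarTower ℚ A A]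
      [SMulCommClass ℚ A A] (v : ℕ → A) (w : FreeMagma (Fin 2)),
      MonoidAlgebra.liftMagma ℚ (FreeMagma.lift v) (MonoidAlgebra.single (FreeMagma.map Fin.val w) 1) =
        FreeMagma.lift (fun i => v i.val) w := by
    intro A _ _ _ _ v w
    rw [← lift_map]
    simp [MonoidAlgebra.liftMagma]
  obtain ⟨c, hc⟩ := H ℚ S 2 le_rfl ⟨6, fun A _ _ _ _ _ hS x w hw => by
      have := hS _ ⟨w, hw, rfl⟩ (fun i => if h : i < 2 then x ⟨i, h⟩ else 0)
      rw [ev] at this
      have e : (fun i : Fin 2 => if h : i.val < 2 then x ⟨i.val, h⟩ else 0) = x := by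
        funext i; rw [dif_pos i.2]
      rwa [e] at this⟩ (Alg mm)
    (fun a => by rw [mul_eq]; exact Prod.ext rfl (sub_self _))
    (by
      rintro f ⟨w, hw, rfl⟩ v
      rw [ev]
      exact vanish _ w hw) 4 gens
  have h := hc (W c) (W_spec c).1
  rw [(W_spec c).2] at h
  have : (1 : ℚ) = 0 := congrArg (fun x : V × M => x.2.1) h
  exact one_ne_zero this

end Pool.Agent.S01920
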