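import Pool.Statements.S01951
import Pool.Agent.Lib.lead.MRDP

set_option autoImplicit false
open Pool Pool.MP_7692ce_al

namespace Pool.Agent.S01951
open LeadMRDP
open scoped commutatorElement

@[ext] structure Heis where
  x : ℤ
  y : ℤ
  z : ℤ

instance : Mul Heis := ⟨fun g h => ⟨g.x + h.x, g.y + h.y, g.z + h.z + g.x * h.y⟩⟩
instance : One Heis := ⟨⟨0, 0, 0⟩⟩
instance : Inv Heis := ⟨fun g => ⟨-g.x, -g.y, -g.z + g.x * g.y⟩⟩
@[simp] theorem mul_x (g h : Heis) : (g * h).x = g.x + h.x := rfl
@[simp] theorem mul_y (g h : Heis) : (g * h).y = g.y + h.y := rfl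
@[simp] theorem mul_z (g h : Heis) : (g * h).z = g.z + h.z + g.x * h.y := rfl
@[simp] theorem one_x : (1 : Heis).x = 0 := rfl
@[simp] theorem one_y : (1 : Heis).y = 0 := rfl
@[simp] theorem one_z : (1 : Heis).z = 0 := rfl
@[simp] theorem inv_x (g : Heis) : (g⁻¹).x = -g.x := rfl
@[simp] theorem inv_y (g : Heis) : (g⁻¹).y = -g.y := rfl
@[simp] theorem inv_z (g : Heis) : (g⁻¹).z = -g.z + g.x * g.y := rfl

instance : Group Heis := Group.ofLeftAxioms
  (fun a b c => by ext <;> simp <;> ring) (fun a => by ext <;> simp)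
  (fun a => by ext <;> simp)

theorem comm_eq (g h : Heis) : ⁅g, h⁆ = ⟨0, 0, g.x * h.y - g.y * h.x⟩ := by
  rw [commutatorElement_def]; ext <;> simp <;> ring

def yHom : Heis →* Multiplicative ℤ where
  toFun g := Multiplicative.ofAdd g.y
  map_one' := rfl
  map_mul' _ _ := rfl

theorem pow_y (g : Heis) (n : ℕ) : (g ^ n).y = n * g.y := by
  have := congrArg Multiplicative.toAdd (map_pow yHom g n)
  simpa [yHom] using this

/-- generators -/
inductive X (V : Type) : Type
  | a | b | y (v : V) | z (v : V)

instance (V : Type) [Finite V] : Finite (X V) :=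
  Finite.of_surjective (fun s : Bool ⊕ V ⊕ V => match s with
    | .inl true => X.a | .inl false => X.b | .inr (.inl v) => X.y v | .inr (.inr v) => X.z v)
    (by
      rintro (_ | _ | v | v)
      · exact ⟨.inl true, rfl⟩
      · exact ⟨.inl false, rfl⟩
      · exact ⟨.inr (.inl v), rfl⟩
      · exact ⟨.inr (.inr v), rfl⟩)

def conRel {V G : Type} [Group G] (f : X V → G) : Con V → Prop
  | .add u v w => ⁅f (.y u), f .b⁆ = ⁅f (.y v), f .b⁆ * ⁅f (.y w), f .b⁆
  | .mul u v w => ⁅f (.y u), f .b⁆ = ⁅f (.y v), f (.z w)⁆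
  | .one u => ⁅f (.y u), f .b⁆ = ⁅f .a, f .b⁆

def Good {V G : Type} [Group G] (L : List (Con V)) (f : X V → G) : Prop :=
  (∀ s t u, ⁅⁅f s, f t⁆, f u⁆ = 1) ∧ (∀ v, ⁅f (.y v), f .a⁆ = 1) ∧
    (∀ v, ⁅f (.y v), f .b⁆ = ⁅f .a, f (.z v)⁆) ∧ ∀ c ∈ L, conRel f c

theorem Good.map {V G H : Type} [Group G] [Group H] {L : List (Con V)} {f : X V → G}
    (h : Good L f) (θ : G →* H) : Good L (fun s => θ (f s)) := by
  obtain ⟨h1, h2, h3, h4⟩ := h
  refine ⟨fun s t u => ?_, fun v => ?_, fun v => ?_, fun c hc => ?_⟩
  · simpa only [map_commutatorElement, map_one] using congrArg θ (h1 s t u)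
  · simpa only [map_commutatorElement, map_one] using congrArg θ (h2 v)
  · simpa only [map_commutatorElement] using congrArg θ (h3 v)
  · have := h4 c hc
    cases c <;> simpa only [conRel, map_commutatorElement, map_mul] using congrArg θ this

/-- all words killed by every good assignment into every group of the form `FreeGroup / N` -/
def rels {V : Type} (L : List (Con V)) : Set (FreeGroup (X V)) :=
  {r | ∀ (G : Type) [Group G] (f : X V → G), Good L f → FreeGroup.lift f r = 1}

abbrev GG {V : Type} (L : List (Con V)) := PresentedGroup (rels L)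

def hom {V G : Type} [Group G] {L : List (Con V)} {f : X V → G} (h : Good L f) : GG L →* G :=
  PresentedGroup.toGroup (f := f) fun _ hr => hr G f h

theorem hom_of {V G : Type} [Group G] {L : List (Con V)} {f : X V → G} (h : Good L f) (s : X V) :
    hom h (PresentedGroup.of s) = f s := PresentedGroup.toGroup.of _

theorem eq_of {V : Type} {L : List (Con V)} {u w : FreeGroup (X V)}
    (h : ∀ (G : Type) [Group G] (f : X V → G), Good L f → FreeGroup.lift f u = FreeGroup.lift f w) :
    PresentedGroup.mk (rels L) u = PresentedGroup.mk (rels L) w := by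
  rw [← mul_inv_eq_one, ← map_inv, ← map_mul]
  apply PresentedGroup.one_of_mem
  intro G _ f hf
  rw [map_mul, map_inv, h G f hf, mul_inv_cancel]

theorem good_of {V : Type} (L : List (Con V)) :
    Good L (fun s => (PresentedGroup.of s : GG L)) := by
  have e : ∀ s, (PresentedGroup.of s : GG L) = PresentedGroup.mk (rels L) (FreeGroup.of s) :=
    fun _ => rfl
  simp only [e]
  refine ⟨fun s t u => ?_, fun v => ?_, fun v => ?_, fun c hc => ?_⟩
  · simpa only [map_commutatorElement, map_one] using eq_of (L := L)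
      (u := ⁅⁅FreeGroup.of s, FreeGroup.of t⁆, FreeGroup.of u⁆) (w := 1)
      fun G _ f hf => by simpa [map_commutatorElement] using hf.1 s t u
  · simpa only [map_commutatorElement, map_one] using eq_of (L := L)
      (u := ⁅FreeGroup.of (X.y v), FreeGroup.of (X.a : X V)⁆) (w := 1)
      fun G _ f hf => by simpa [map_commutatorElement] using hf.2.1 v
  · simpa only [map_commutatorElement] using eq_of (L := L)
      (u := ⁅FreeGroup.of (X.y v), FreeGroup.of (X.b : X V)⁆) (w := ⁅FreeGroup.of (X.a : X V), FreeGroup.of (X.z v)⁆)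
      fun G _ f hf => by simpa [map_commutatorElement] using hf.2.2.1 v
  · cases c with
    | add u v w =>
      have := eq_of (L := L)
        (u := ⁅FreeGroup.of (X.y u), FreeGroup.of (X.b : X V)⁆)
        (w := ⁅FreeGroup.of (X.y v), FreeGroup.of (X.b : X V)⁆ * ⁅FreeGroup.of (X.y w), FreeGroup.of (X.b : X V)⁆)
        fun G _ f hf => by simpa [conRel, map_commutatorElement] using hf.2.2.2 _ hc
      rw [MonoidHom.map_mul] at this
      simpa only [conRel, map_commutatorElement] using this
    | mul u v w =>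
      simpa only [conRel, map_commutatorElement, map_mul] using eq_of (L := L)
        (u := ⁅FreeGroup.of (X.y u), FreeGroup.of (X.b : X V)⁆)
        (w := ⁅FreeGroup.of (X.y v), FreeGroup.of (X.z w)⁆)
        fun G _ f hf => by simpa [conRel, map_commutatorElement] using hf.2.2.2 _ hc
    | one u =>
      simpa only [conRel, map_commutatorElement, map_mul] using eq_of (L := L)
        (u := ⁅FreeGroup.of (X.y u), FreeGroup.of (X.b : X V)⁆)
        (w := ⁅FreeGroup.of (X.a : X V), FreeGroup.of (X.b : X V)⁆)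
        fun G _ f hf => by simpa [conRel, map_commutatorElement] using hf.2.2.2 _ hc

theorem gen_ind {V : Type} {L : List (Con V)} (K : Subgroup (GG L))
    (h : ∀ s, PresentedGroup.of s ∈ K) (g : GG L) : g ∈ K :=
  PresentedGroup.generated_by _ K h g

theorem central {V : Type} (L : List (Con V)) (g h : GG L) : ⁅g, h⁆ ∈ Subgroup.center (GG L) := by
  have h1 : ∀ s t, ⁅(PresentedGroup.of s : GG L), PresentedGroup.of t⁆ ∈ Subgroup.center (GG L) := by
    intro s t
    rw [Subgroup.mem_center_iff]
    intro k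
    have := gen_ind (Subgroup.centralizer {⁅(PresentedGroup.of s : GG L), PresentedGroup.of t⁆})
      (fun u => by
        rw [Subgroup.mem_centralizer_singleton_iff]
        exact (commutatorElement_eq_one_iff_mul_comm.1 ((good_of L).1 s t u)).symm) k
    exact Subgroup.mem_centralizer_singleton_iff.1 this
  let π := QuotientGroup.mk' (Subgroup.center (GG L))
  have key : ∀ g h : GG L, ⁅g, h⁆ ∈ Subgroup.center (GG L) ↔ π g * π h = π h * π g := by
    intro g h
    rw [← commutatorElement_eq_one_iff_mul_comm, ← map_commutatorElement]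
    exact (QuotientGroup.eq_one_iff _).symm
  have h2 : ∀ g t, π g * π (PresentedGroup.of t) = π (PresentedGroup.of t) * π g := by
    intro g t
    have := gen_ind ((Subgroup.centralizer {π (PresentedGroup.of t)}).comap π)
      (fun s => by
        rw [Subgroup.mem_comap, Subgroup.mem_centralizer_singleton_iff]
        exact (key _ _).1 (h1 s t)) g
    exact Subgroup.mem_centralizer_singleton_iff.1 this
  rw [key]
  have := gen_ind ((Subgroup.centralizer {π g}).comap π)
      (fun s => by
        rw [Subgroup.mem_comap, Subgroup.mem_centralizer_singleton_iff]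
        exact (h2 g s).symm) h
  exact (Subgroup.mem_centralizer_singleton_iff.1 this).symm

theorem comm_zpow {G : Type} [Group G] (hc : ∀ g h : G, ⁅g, h⁆ ∈ Subgroup.center G)
    (A B : G) (i j : ℤ) : ⁅A ^ i, B ^ j⁆ = ⁅A, B⁆ ^ (i * j) := by
  have left : ∀ (A B : G) (i : ℤ), ⁅A ^ i, B⁆ = ⁅A, B⁆ ^ i := by
    intro A B i
    let F : G →* G := MonoidHom.mk' (fun x => ⁅x, B⁆) (fun x y => by
      have := Subgroup.mem_center_iff.1 (hc y B)
      calc ⁅x * y, B⁆ = (x * ⁅y, B⁆) * x⁻¹ * ⁅x, B⁆ := by
            simp only [commutatorElement_def]; group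
        _ = ⁅y, B⁆ * ⁅x, B⁆ := by rw [this x]; group
        _ = _ := (this _).symm)
    exact map_zpow F A i
  rw [left, ← commutatorElement_inv (B ^ j) A, left, ← commutatorElement_inv A B,
    inv_zpow, ← zpow_mul, inv_zpow, inv_inv, mul_comm]

theorem good_sol {V G : Type} [Group G] (hc : ∀ g h : G, ⁅g, h⁆ ∈ Subgroup.center G)
    {L : List (Con V)} {v : V → ℤ} (hv : ∀ c ∈ L, c.sat v) (A B : G) :
    Good L (fun s => match s with
      | .a => A | .b => B | .y u => A ^ v u | .z u => B ^ v u) := by
  have c1 : ∀ i : ℤ, ⁅A ^ i, B⁆ = ⁅A, B⁆ ^ i := fun i => by simpa using comm_zpow hc A B i 1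
  have c2 : ∀ i : ℤ, ⁅A, B ^ i⁆ = ⁅A, B⁆ ^ i := fun i => by simpa using comm_zpow hc A B 1 i
  refine ⟨fun s t u => ?_, fun u => ?_, fun u => ?_, fun c hc' => ?_⟩
  · exact commutatorElement_eq_one_iff_mul_comm.2 (Subgroup.mem_center_iff.1 (hc _ _) _).symm
  · exact commutatorElement_eq_one_iff_mul_comm.2 (Commute.zpow_self A _)
  · simp only [c1, c2]
  · have := hv c hc'
    cases c with
    | add x y z => simp only [conRel, c1, Con.sat] at this ⊢; rw [this, zpow_add]
    | mul x y z => simp only [conRel, c1, Con.sat, comm_zpow hc] at this ⊢; rw [this]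
    | one x => simp only [conRel, c1, Con.sat] at this ⊢; rw [this, zpow_one]

theorem heis_central (g h : Heis) : ⁅g, h⁆ ∈ Subgroup.center Heis := by
  rw [Subgroup.mem_center_iff]; intro k; rw [comm_eq]; ext <;> simp; ring

theorem sound {V : Type} {L : List (Con V)} {f : X V → Heis} (h : Good L f)
    (hx : (f .a).x = 1) (hy : (f .a).y = 0) (ht : (f .b).y ≠ 0) :
    (∀ c ∈ L, c.sat fun u => (f (.y u)).x) ∧ ∀ u, (f (.z u)).y = (f (.y u)).x * (f .b).y := by
  obtain ⟨_, h2, h3, h4⟩ := h
  have y0 : ∀ u, (f (.y u)).y = 0 := by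
    intro u
    have := congrArg Heis.z (h2 u)
    simpa [comm_eq, hx, hy] using this
  have zz : ∀ u, (f (.z u)).y = (f (.y u)).x * (f .b).y := by
    intro u
    have := congrArg Heis.z (h3 u)
    simpa [comm_eq, hx, hy, y0] using this.symm
  refine ⟨fun c hc => ?_, zz⟩
  have := h4 c hc
  cases c with
  | add x y z =>
    have := congrArg Heis.z this
    simp only [comm_eq, y0, mul_z, zero_mul, sub_zero, add_zero] at this
    exact mul_right_cancel₀ ht (by rw [this]; ring)
  | mul x y z =>
    have := congrArg Heis.z this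
    simp only [comm_eq, y0, zero_mul, sub_zero, zz] at this
    exact mul_right_cancel₀ ht (by rw [this]; ring)
  | one x =>
    have := congrArg Heis.z this
    simp only [comm_eq, y0, zero_mul, sub_zero, hx, hy] at this
    exact mul_right_cancel₀ ht this

/-- Some nilpotent group G with a finite generating set has undecidable retract problem. -/
theorem result :
    ∃ (G : Type) (_ : Group G), Group.IsNilpotent G ∧
      ∃ (n : ℕ) (φ : FreeGroup (Fin n) →* G), Function.Surjective φ ∧
        ¬ ComputablePred (fun L : List (List (Fin n × Bool)) =>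
          ∃ r : G →* G,
            r.range = Subgroup.closure {g : G | ∃ w ∈ L, φ (FreeGroup.mk w) = g} ∧
            ∀ h ∈ Subgroup.closure {g : G | ∃ w ∈ L, φ (FreeGroup.mk w) = g}, r h = h) := by
  obtain ⟨V, hV, x0, L, hL⟩ := exists_flat_int
  obtain ⟨m0, v0, hm0, hv0⟩ : ∃ m0 : ℕ, ∃ v : V → ℤ, v x0 = m0 ∧ ∀ c ∈ L, c.sat v := by
    by_contra hne
    push Not at hne
    apply hL
    refine ComputablePred.of_eq (p := fun _ : ℕ => False) ⟨inferInstance, ?_⟩ fun n => ?_
    · exact Computable.const _
    · simp only [false_iff]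
      rintro ⟨v, h1, h2⟩
      obtain ⟨c, hc, hc'⟩ := hne n v h1
      exact hc' (h2 c hc)
  obtain ⟨N, ⟨e⟩⟩ := Finite.exists_equiv_fin (X V)
  let φ : FreeGroup (Fin N) →* GG L := FreeGroup.lift fun i => PresentedGroup.of (e.symm i)
  refine ⟨GG L, inferInstance, ?_, N, φ, ?_, fun H => ?_⟩
  · rw [Subgroup.nilpotent_iff_lowerCentralSeries]
    refine ⟨2, ?_⟩
    show ⁅⁅(⊤ : Subgroup (GG L)), (⊤ : Subgroup (GG L))⁆, (⊤ : Subgroup (GG L))⁆ = ⊥
    rw [Subgroup.commutator_eq_bot_iff_le_centralizer, Subgroup.commutator_le]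
    intro g _ h _
    rw [Subgroup.coe_top, Subgroup.centralizer_univ]
    exact central L g h
  · intro g
    exact gen_ind φ.range (fun s => ⟨FreeGroup.of (e s), by simp [φ]⟩) g
  let Wd : ℕ → List (Fin N × Bool) := fun n =>
    (e (.z x0), true) :: (List.range n).map fun _ => (e .b, false)
  let F : ℕ → List (List (Fin N × Bool)) := fun n =>
    [[(e .a, true)], (e .b, true) :: (Wd n ++ (Wd n ++ Wd n))]
  have hW : Primrec Wd := Primrec.list_cons.comp (Primrec.const _)
    (Primrec.list_map Primrec.list_range (Primrec.const _).to₂)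
  have hF : Primrec F := Primrec.list_cons.comp (Primrec.const _) (Primrec.list_cons.comp
    (Primrec.list_cons.comp (Primrec.const _) (Primrec.list_append.comp hW
      (Primrec.list_append.comp hW hW))) (Primrec.const _))
  obtain ⟨inst, H⟩ := H
  apply hL
  refine ComputablePred.of_eq ⟨fun n => inst (F n), H.comp hF.to_comp⟩ fun n => ?_
  let A : GG L := PresentedGroup.of X.a
  let B : GG L := PresentedGroup.of X.b * (PresentedGroup.of (X.z x0) * (PresentedGroup.of X.b)⁻¹ ^ n) ^ 3
  have hset : {g : GG L | ∃ w ∈ F n, φ (FreeGroup.mk w) = g} = {A, B} := by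
    have e1 : φ (FreeGroup.mk [(e .a, true)]) = A := by simp [φ, A]
    have e2 : φ (FreeGroup.mk ((e .b, true) :: (Wd n ++ (Wd n ++ Wd n)))) = B := by
      simp [φ, B, Wd, Function.comp_def, pow_succ, mul_assoc]
    ext g
    simp only [F, List.mem_cons, List.not_mem_nil, or_false, exists_eq_or_imp, exists_eq_left,
      e1, e2, Set.mem_setOf_eq, Set.mem_insert_iff, Set.mem_singleton_iff, eq_comm]
  simp only [hset]
  have hA : A ∈ Subgroup.closure {A, B} := Subgroup.subset_closure (by simp)
  have hB : B ∈ Subgroup.closure {A, B} := Subgroup.subset_closure (by simp)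
  constructor
  · rintro ⟨r, hr1, hr2⟩
    let a0 : Heis := ⟨1, 0, 0⟩
    let b0 : Heis := ⟨0, 1, 0⟩
    let φ0 := hom (good_sol heis_central hv0 a0 b0)
    have p1 : φ0 A = a0 := hom_of _ _
    have yB : ∀ θ : GG L →* Heis, (θ B).y = (θ (PresentedGroup.of X.b)).y +
        3 * ((θ (PresentedGroup.of (X.z x0))).y - n * (θ (PresentedGroup.of X.b)).y) := by
      intro θ
      simp only [B, map_mul, map_pow, map_inv, mul_y, pow_y, inv_y]; push_cast; ring
    have p2 : (φ0 B).y = 1 + 3 * ((m0 : ℤ) - n) := by
      rw [yB]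
      have q1 : φ0 (PresentedGroup.of X.b) = b0 := hom_of _ _
      have q2 : φ0 (PresentedGroup.of (X.z x0)) = b0 ^ v0 x0 := hom_of _ _
      rw [q1, q2, hm0, zpow_natCast, pow_y]; simp [b0]
    set k := 1 + 3 * ((m0 : ℤ) - n) with hk
    have hk0 : k ≠ 0 := by omega
    let θ := φ0.comp r
    have hdiv : ∀ g, k ∣ (θ g).y := by
      intro g
      have : r g ∈ Subgroup.closure {A, B} := hr1 ▸ ⟨g, rfl⟩
      show k ∣ (φ0 (r g)).y
      generalize r g = g' at this
      induction this using Subgroup.closure_induction with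
      | mem x hx =>
        rcases hx with rfl | rfl
        · rw [p1]; simp [a0]
        · rw [p2]
      | one => simp
      | mul x y _ _ h1 h2 => rw [map_mul, mul_y]; exact dvd_add h1 h2
      | inv x _ h1 => rw [map_inv, inv_y]; exact h1.neg_right
    have tA : θ A = a0 := by show φ0 (r A) = _; rw [hr2 A hA, p1]
    have tB : (θ B).y = k := by show (φ0 (r B)).y = _; rw [hr2 B hB, p2]
    rw [yB] at tB
    have hg := (good_of L).map θ
    have ht : (θ (PresentedGroup.of X.b)).y ≠ 0 := by
      intro h0
      have y0 : (θ (PresentedGroup.of (X.y x0))).y = 0 := by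
        have := congrArg Heis.z (hg.2.1 x0)
        simp only [comm_eq] at this
        rw [show θ (PresentedGroup.of X.a) = a0 from tA] at this
        simpa [a0] using this
      have := congrArg Heis.z (hg.2.2.1 x0)
      simp only [comm_eq] at this
      rw [show θ (PresentedGroup.of X.a) = a0 from tA, h0, y0] at this
      simp [a0] at this
      rw [h0, ← this] at tB
      exact hk0 (by simpa using tB.symm)
    obtain ⟨s1, s2⟩ := sound hg (by rw [show θ (PresentedGroup.of X.a) = a0 from tA])
      (by rw [show θ (PresentedGroup.of X.a) = a0 from tA]) ht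
    refine ⟨_, ?_, s1⟩
    obtain ⟨t, ht'⟩ := hdiv (PresentedGroup.of X.b)
    rw [s2 x0, ht'] at tB
    have e1 : t * (1 + 3 * ((θ (PresentedGroup.of (X.y x0))).x - n)) = 1 :=
      mul_left_cancel₀ hk0 (by rw [mul_one]; nth_rewrite 2 [← tB]; ring)
    rcases Int.eq_one_or_neg_one_of_mul_eq_one' e1 with ⟨_, h⟩ | ⟨_, h⟩ <;> omega
  · rintro ⟨v, h0, hv⟩
    let r := hom (good_sol (central L) hv A B)
    have rA : r A = A := hom_of _ _
    have rB : r B = B := by
      have q1 : r (PresentedGroup.of X.b) = B := hom_of _ _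
      have q2 : r (PresentedGroup.of (X.z x0)) = B ^ v x0 := hom_of _ _
      have q3 : r B = r (PresentedGroup.of X.b) * (r (PresentedGroup.of (X.z x0)) *
          (r (PresentedGroup.of X.b))⁻¹ ^ n) ^ 3 := by
        simp only [B, map_mul, map_pow, map_inv]
      rw [q3, q1, q2, h0]
      simp
    have hfix : ∀ h ∈ Subgroup.closure {A, B}, r h = h := by
      intro h hh
      induction hh using Subgroup.closure_induction with
      | mem x hx => rcases hx with rfl | rfl <;> assumption
      | one => simp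
      | mul x y _ _ h1 h2 => rw [map_mul, h1, h2]
      | inv x _ h1 => rw [map_inv, h1]
    refine ⟨r, le_antisymm ?_ fun h hh => ⟨h, hfix h hh⟩, hfix⟩
    rintro _ ⟨g, rfl⟩
    refine gen_ind ((Subgroup.closure {A, B}).comap r) (fun s => ?_) g
    rw [Subgroup.mem_comap, hom_of]
    rcases s with _ | _ | u | u
    · exact hA
    · exact hB
    · exact Subgroup.zpow_mem _ hA _
    · exact Subgroup.zpow_mem _ hB _

end Pool.Agent.S01951
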