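import Pool.Statements.S01961
import Pool.Agent.Lib.helper14.Pate

set_option autoImplicit false
open scoped ComplexOrder
open Pool Pool.MP_7742c6_al

namespace Pool.Agent.S01961

section
open Finset MvPolynomial Pool.Agent.Lib.helper14.Fock Pool.Agent.Lib.helper14.Pate

theorem lin_elim {ι : Type} [Fintype ι] [DecidableEq ι] (a b : ℂ) :
    lin (Sum.elim ![a, b] (0 : ι → ℂ)) = C a * X (Sum.inl 0) + C b * X (Sum.inl 1) := by
  simp [lin, Fintype.sum_sum_type]

theorem fin (n : ℕ) (u : Fin (n + 2) → (Fin 2 ⊕ Fin (n + 2)) → ℂ) (p q : ℂ) (α β : ℝ)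
    (h : β ^ 2 ≤ α ^ 2) (h0 : u 0 = Sum.elim ![p * α, p * β] 0)
    (h1 : u 1 = Sum.elim ![q * α, -(q * β)] 0) :
    let A := Matrix.of fun i j => ∑ a, u i a * star (u j a)
    (A 0 0 * (A.submatrix (Fin.succAbove (0 : Fin (n+2))) (Fin.succAbove (0 : Fin (n+2)))).permanent
        - A 0 1 * (A.submatrix (Fin.succAbove (0 : Fin (n+2))) (Fin.succAbove (1 : Fin (n+2)))).permanent
        - A 1 0 * (A.submatrix (Fin.succAbove (1 : Fin (n+2))) (Fin.succAbove (0 : Fin (n+2)))).permanent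
        + A 1 1 * (A.submatrix (Fin.succAbove (1 : Fin (n+2))) (Fin.succAbove (1 : Fin (n+2)))).permanent).re
      ≤ 2 * (A.permanent).re := by
  intro A
  obtain ⟨R, hR⟩ : ∃ R, R = ∏ i : Fin n, lin (u i.succ.succ) := ⟨_, rfl⟩
  obtain ⟨F, hF⟩ : ∃ F, F = X (Sum.inl 0) * R := ⟨_, rfl⟩
  obtain ⟨G, hG⟩ : ∃ G, G = X (Sum.inl 1) * R := ⟨_, rfl⟩
  have e0 : ∏ i, lin (u (Fin.succAbove (0 : Fin (n+2)) i)) = C (q * α) * F + C (-(q * β)) * G := by
    rw [Fin.prod_univ_succ]
    simp only [Fin.succAbove_zero, Fin.succ_zero_eq_one]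
    rw [← hR, h1, lin_elim, hF, hG]; ring
  have e1 : ∏ i, lin (u (Fin.succAbove (1 : Fin (n+2)) i)) = C (p * α) * F + C (p * β) * G := by
    rw [Fin.prod_univ_succ]
    simp only [Fin.one_succAbove_zero, Fin.one_succAbove_succ]
    rw [← hR, h0, lin_elim, hF, hG]; ring
  obtain ⟨H, hH⟩ : ∃ H, H = C ((α ^ 2 : ℝ) : ℂ) * (X (Sum.inl 0) * F) -
    C ((β ^ 2 : ℝ) : ℂ) * (X (Sum.inl 1) * G) := ⟨_, rfl⟩
  have e2 : ∏ i, lin (u i) = C (p * q) * H := by
    rw [Fin.prod_univ_succ, Fin.prod_univ_succ]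
    simp only [Fin.succ_zero_eq_one]
    rw [← hR, h0, h1, lin_elim, lin_elim, hH, hF, hG]
    simp only [map_mul, map_neg, Complex.ofReal_pow, map_pow]; ring
  have hs : ∀ a b : ℂ, (C a * F + C b * G).support ⊆ F.support ∪ G.support := by
    intro a b γ hγ
    by_contra h
    simp only [mem_union, not_or, notMem_support_iff] at h
    simp [coeff_C_mul, h.1, h.2] at hγ
  have hp : ∀ i j : Fin (n + 2), (i = 0 ∨ i = 1) →
      (A.submatrix i.succAbove j.succAbove).permanent = ∑ γ ∈ F.support ∪ G.support,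
        wt γ * (coeff γ (∏ k, lin (u (i.succAbove k))) * star (coeff γ (∏ k, lin (u (j.succAbove k))))) := by
    intro i j hi
    refine per_eq (fun k => u (i.succAbove k)) (fun k => u (j.succAbove k)) _ ?_
    rcases hi with rfl | rfl
    · rw [e0]; exact hs _ _
    · rw [e1]; exact hs _ _
  have hq : A.permanent = ((‖p * q‖ ^ 2 * N (fun γ => wt γ) H : ℝ) : ℂ) := by
    rw [per_eq u u H.support, e2, N, mul_sum]
    · push_cast
      refine sum_congr rfl fun γ _ => ?_
      rw [coeff_C_mul, ← Complex.mul_conj', ← Complex.mul_conj']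
      simp only [Complex.star_def, map_mul]; ring
    · rw [e2, C_mul']; exact support_smul
  have hm := main (sq_nonneg β) h (Sum.inl 0) (Sum.inl 1) (by simp) R
  rw [← hF, ← hG, ← hH] at hm
  rw [hp _ _ (.inl rfl), hp _ _ (.inl rfl), hp _ _ (.inr rfl), hp _ _ (.inr rfl), e0, e1, hq]
  simp only [mul_sum, ← sum_sub_distrib, ← sum_add_distrib]
  rw [sum_congr rfl (g := fun γ => ((‖p * q‖ ^ 2 * (4 * α ^ 2 * β ^ 2 *
    (wt γ * ‖coeff γ F‖ ^ 2 + wt γ * ‖coeff γ G‖ ^ 2)) : ℝ) : ℂ)), ← Complex.ofReal_sum,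
    Complex.ofReal_re, Complex.ofReal_re, ← mul_sum, ← mul_sum, sum_add_distrib,
    ← N_eq _ F _ subset_union_left, ← N_eq _ G _ subset_union_right]
  · nlinarith [mul_le_mul_of_nonneg_left hm (sq_nonneg ‖p * q‖)]
  · intro γ _
    simp only [coeff_add, coeff_C_mul]
    push_cast
    rw [← Complex.mul_conj', ← Complex.mul_conj', ← Complex.mul_conj']
    simp [A, h0, h1, Fintype.sum_sum_type]
    ring
end

/-- For every complex positive semidefinite matrix A of size at least 2, a11·per A(1∣1) − a12·per A(1∣2) − a21·per A(2∣1) + a22·per A(2∣2) is at most 2·per A, comparing real parts since both sides are real. -/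
theorem result :
    ∀ (n : ℕ) (A : Matrix (Fin (n+2)) (Fin (n+2)) ℂ), A.PosSemidef →
      (A 0 0 * (A.submatrix (Fin.succAbove (0 : Fin (n+2))) (Fin.succAbove (0 : Fin (n+2)))).permanent
        - A 0 1 * (A.submatrix (Fin.succAbove (0 : Fin (n+2))) (Fin.succAbove (1 : Fin (n+2)))).permanent
        - A 1 0 * (A.submatrix (Fin.succAbove (1 : Fin (n+2))) (Fin.succAbove (0 : Fin (n+2)))).permanent
        + A 1 1 * (A.submatrix (Fin.succAbove (1 : Fin (n+2))) (Fin.succAbove (1 : Fin (n+2)))).permanent).re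
      ≤ 2 * (A.permanent).re := by
  intro n A hA
  open scoped MatrixOrder in
  obtain ⟨B, hB⟩ := CStarAlgebra.nonneg_iff_eq_star_mul_self.mp hA.nonneg
  obtain ⟨u, p, q, α, β, h, hg, h0, h1⟩ := Pool.Agent.Lib.helper14.Pate.coords
    (fun i => (WithLp.toLp 2 fun a => B a i : EuclideanSpace ℂ (Fin (n + 2)))) 0 1
  have hA' : A = Matrix.of fun i j => ∑ a, u i a * star (u j a) := by
    ext i j
    rw [Matrix.of_apply, ← hg, hB]
    simp [PiLp.inner_apply, Matrix.mul_apply, mul_comm]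
  rw [hA']
  exact fin n u p q α β h h0 h1

end Pool.Agent.S01961
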