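import Pool.Statements.S01968

set_option autoImplicit false
open scoped Pointwise
open Pool Pool.MP_77870d_al

namespace Pool.Agent.S01968

abbrev K : Type := ℕ →₀ ZMod 2
abbrev H : Type := Multiplicative (ℤ × K)

def a : Set H := {x | x.toAdd.1 = 1 ∧ x.toAdd.2.support.card ≤ 1}

def Inv (N : ℕ) (A : Set H) : Prop :=
  ∀ x ∈ A, ∀ y : H, (N : ℤ) ∣ y.toAdd.1 - x.toAdd.1 → y ∈ A

lemma Inv.mul_right {N : ℕ} {A : Set H} (h : Inv N A) (B : Set H) : Inv N (A * B) := by
  rintro x ⟨u, hu, v, hv, rfl⟩ y hy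
  refine ⟨y * v⁻¹, h u hu _ ?_, v, hv, by simp⟩
  have : (y * v⁻¹).toAdd.1 - u.toAdd.1 = y.toAdd.1 - (u * v).toAdd.1 := by
    simp only [toAdd_mul, toAdd_inv, Prod.fst_add, Prod.fst_neg]; ring
  rw [this]; exact hy

lemma Inv.mono {N M : ℕ} {A : Set H} (h : Inv N A) (hNM : N ∣ M) : Inv M A := by
  intro x hx y hy
  exact h x hx y (dvd_trans (Int.natCast_dvd_natCast.2 hNM) hy)

def SN (N : ℕ) : Subsemigroup (Set H) where
  carrier := {A | (∃ k : ℕ, A = a ^ (k + 1)) ∨ Inv N A}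
  mul_mem' := by
    rintro A B (⟨k, rfl⟩ | hA) (⟨l, rfl⟩ | hB)
    · left; exact ⟨k + l + 1, by rw [← pow_add]; congr 1; ring⟩
    · right; rw [mul_comm]; exact hB.mul_right _
    · right; exact hA.mul_right _
    · right; exact hA.mul_right _

def SS : Subsemigroup (Set H) where
  carrier := {A | ∃ N : ℕ, 0 < N ∧ A ∈ SN N}
  mul_mem' := by
    rintro A B ⟨N, hN, hA⟩ ⟨M, hM, hB⟩
    refine ⟨N * M, Nat.mul_pos hN hM, (SN (N * M)).mul_mem ?_ ?_⟩
    · rcases hA with h | h
      · exact Or.inl h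
      · exact Or.inr (h.mono (dvd_mul_right _ _))
    · rcases hB with h | h
      · exact Or.inl h
      · exact Or.inr (h.mono (dvd_mul_left _ _))

lemma SN_mono {N M : ℕ} (h : N ∣ M) {A : Set H} (hA : A ∈ SN N) : A ∈ SN M := by
  rcases hA with h' | h'
  · exact Or.inl h'
  · exact Or.inr (h'.mono h)

lemma pow_card_le (k : ℕ) : ∀ x ∈ a ^ k, x.toAdd.2.support.card ≤ k := by
  classical
  induction k with
  | zero => intro x hx; simp at hx; subst hx; simp
  | succ k ih =>
    intro x hx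
    rw [pow_succ] at hx
    obtain ⟨u, hu, v, hv, rfl⟩ := hx
    have h1 := ih u hu
    have h2 := hv.2
    have h3 : (u * v).toAdd.2.support ⊆ u.toAdd.2.support ∪ v.toAdd.2.support := by
      simp only [toAdd_mul, Prod.snd_add]; exact Finsupp.support_add
    have h4 := Finset.card_le_card h3
    have h5 := Finset.card_union_le u.toAdd.2.support v.toAdd.2.support
    show (u * v).toAdd.2.support.card ≤ k + 1
    omega

lemma pow_exists (k : ℕ) : ∃ x ∈ a ^ k, x.toAdd.2.support = Finset.range k := by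
  classical
  induction k with
  | zero => exact ⟨1, by simp, by simp⟩
  | succ k ih =>
    obtain ⟨x, hx, hs⟩ := ih
    refine ⟨x * Multiplicative.ofAdd (1, Finsupp.single k 1), ?_, ?_⟩
    · rw [pow_succ]
      refine Set.mul_mem_mul hx ⟨rfl, ?_⟩
      show (Finsupp.single k (1 : ZMod 2)).support.card ≤ 1
      rw [Finsupp.support_single _ one_ne_zero]; simp
    · simp only [toAdd_mul, toAdd_ofAdd, Prod.snd_add]
      rw [Finsupp.support_add_eq]
      · rw [hs, Finsupp.support_single _ one_ne_zero, Finset.range_add_one]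
        ext i; simp
      · rw [hs, Finsupp.support_single _ one_ne_zero]; simp

abbrev G (N : ℕ) : Type := Multiplicative (ZMod N × K)

noncomputable def pi (N : ℕ) : H →* G N :=
  AddMonoidHom.toMultiplicative (AddMonoidHom.prodMap (Int.castAddHom (ZMod N)) (AddMonoidHom.id K))

lemma pi_fst (N : ℕ) (x : H) : (pi N x).toAdd.1 = (x.toAdd.1 : ZMod N) := rfl
lemma pi_snd (N : ℕ) (x : H) : (pi N x).toAdd.2 = x.toAdd.2 := rfl

lemma G_torsion (N : ℕ) (hN : 0 < N) : Monoid.IsTorsion (G N) := by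
  intro x
  rw [isOfFinOrder_iff_pow_eq_one]
  refine ⟨2 * N, by omega, ?_⟩
  apply Multiplicative.toAdd.injective
  rw [toAdd_pow, toAdd_one]
  ext i
  · simp
  · simp only [Prod.smul_snd, Finsupp.coe_smul, Pi.smul_apply, Prod.snd_zero, Finsupp.coe_zero,
      Pi.zero_apply, nsmul_eq_mul, Nat.cast_mul]
    have : ((2 : ℕ) : ZMod 2) = 0 := by decide
    rw [this]; simp

lemma inv_sub {N : ℕ} {A B : Set H} (hB : Inv N B) (h : pi N '' A = pi N '' B) : A ⊆ B := by
  intro x hx
  have : pi N x ∈ pi N '' B := h ▸ Set.mem_image_of_mem _ hx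
  obtain ⟨y, hy, hxy⟩ := this
  apply hB y hy
  have h1 : (y.toAdd.1 : ZMod N) = (x.toAdd.1 : ZMod N) := by
    rw [← pi_fst, ← pi_fst, hxy]
  exact (ZMod.intCast_eq_intCast_iff_dvd_sub _ _ _).1 h1

lemma pow_le {N k l : ℕ} (h : pi N '' (a ^ k) = pi N '' (a ^ l)) : k ≤ l := by
  obtain ⟨x, hx, hs⟩ := pow_exists k
  have : pi N x ∈ pi N '' (a ^ l) := h ▸ Set.mem_image_of_mem _ hx
  obtain ⟨y, hy, hxy⟩ := this
  have h1 := pow_card_le l y hy
  have h2 : y.toAdd.2 = x.toAdd.2 := by rw [← pi_snd N, ← pi_snd N, hxy]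
  rw [h2, hs, Finset.card_range] at h1
  exact h1

lemma pow_ne_inv {N k : ℕ} {B : Set H} (hB : Inv N B) (h : pi N '' (a ^ k) = pi N '' B) :
    False := by
  obtain ⟨x, hx, -⟩ := pow_exists k
  have : pi N x ∈ pi N '' B := h ▸ Set.mem_image_of_mem _ hx
  obtain ⟨y, hy, -⟩ := this
  obtain ⟨z, -, hz⟩ := pow_exists (k + 1)
  have h1 : Multiplicative.ofAdd (y.toAdd.1, z.toAdd.2) ∈ B := hB y hy _ (by simp)
  have h2 : pi N (Multiplicative.ofAdd (y.toAdd.1, z.toAdd.2)) ∈ pi N '' (a ^ k) :=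
    h ▸ Set.mem_image_of_mem _ h1
  obtain ⟨w, hw, hw2⟩ := h2
  have h3 := pow_card_le k w hw
  have h4 : w.toAdd.2 = z.toAdd.2 := by rw [← pi_snd N w, hw2]; rfl
  rw [h4, hz, Finset.card_range] at h3
  omega

lemma inj_SN {N : ℕ} {A B : Set H} (hA : A ∈ SN N) (hB : B ∈ SN N)
    (h : pi N '' A = pi N '' B) : A = B := by
  rcases hA with ⟨k, rfl⟩ | hA <;> rcases hB with ⟨l, rfl⟩ | hB
  · have h1 := pow_le h
    have h2 := pow_le h.symm
    have : k = l := by omega
    rw [this]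
  · exact (pow_ne_inv hB h).elim
  · exact (pow_ne_inv hA h.symm).elim
  · exact Set.Subset.antisymm (inv_sub hB h) (inv_sub hA h.symm)

def C (m : ℕ) (i : ℤ) : Set H := {x | (m : ℤ) ∣ x.toAdd.1 - i}

lemma C_inv (m : ℕ) (i : ℤ) : Inv m (C m i) := by
  intro x hx y hy
  have := dvd_add hy hx
  show (m : ℤ) ∣ y.toAdd.1 - i
  rw [show y.toAdd.1 - i = y.toAdd.1 - x.toAdd.1 + (x.toAdd.1 - i) by ring]
  exact this

lemma C_mul (m : ℕ) (i : ℤ) : C m i * a = C m (i + 1) := by
  ext x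
  constructor
  · rintro ⟨u, hu, v, hv, rfl⟩
    show (m : ℤ) ∣ (u * v).toAdd.1 - (i + 1)
    have h1 : v.toAdd.1 = 1 := hv.1
    have : (u * v).toAdd.1 - (i + 1) = u.toAdd.1 - i := by
      simp only [toAdd_mul, Prod.fst_add, h1]; ring
    rw [this]; exact hu
  · intro hx
    refine ⟨x * (Multiplicative.ofAdd (1, 0))⁻¹, ?_, Multiplicative.ofAdd (1, 0), ⟨rfl, by simp⟩,
      by simp⟩
    show (m : ℤ) ∣ _
    have hx' : (m : ℤ) ∣ x.toAdd.1 - (i + 1) := hx
    convert hx' using 1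
    simp only [toAdd_mul, toAdd_inv, toAdd_ofAdd, Prod.fst_add, Prod.fst_neg]; ring

lemma C_period (m : ℕ) (i : ℤ) (k : ℤ) : C m (i + m * k) = C m i := by
  ext x
  show (m : ℤ) ∣ x.toAdd.1 - (i + m * k) ↔ (m : ℤ) ∣ x.toAdd.1 - i
  rw [show x.toAdd.1 - (i + m * k) = (x.toAdd.1 - i) - m * k by ring]
  exact dvd_sub_left (dvd_mul_right _ _) |>.trans Iff.rfl

def aS : SS := ⟨a, 1, one_pos, Or.inl ⟨0, by simp⟩⟩
def CS (m : ℕ) (i : ℤ) : SS := ⟨C (m + 1) i, m + 1, Nat.succ_pos _, Or.inr (C_inv _ _)⟩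

lemma CS_mul (m : ℕ) (i : ℤ) : CS m i * aS = CS m (i + 1) := Subtype.ext (C_mul _ _)

/-- The negation of the local-to-global statement. -/
theorem result :
    ¬ (∀ (S : Type) [Semigroup S],
      (∀ T : Subsemigroup S, (∃ F : Finset S, Subsemigroup.closure (F : Set S) = T) →
        ∃ (G : Type) (_ : Group G), Monoid.IsTorsion G ∧
          ∃ f : T →ₙ* Set G, Function.Injective f) →
      ∃ (G : Type) (_ : Group G), Monoid.IsTorsion G ∧
        ∃ f : S →ₙ* Set G, Function.Injective f) := by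
  classical
  intro h
  have hloc : ∀ T : Subsemigroup SS, (∃ F : Finset SS, Subsemigroup.closure (F : Set SS) = T) →
        ∃ (G : Type) (_ : Group G), Monoid.IsTorsion G ∧
          ∃ f : T →ₙ* Set G, Function.Injective f := by
    rintro T ⟨F, hF⟩
    have hN : ∃ N : ℕ, 0 < N ∧ ∀ x ∈ F, x.1 ∈ SN N := by
      clear hF
      induction F using Finset.induction_on with
      | empty => exact ⟨1, one_pos, by simp⟩
      | insert x F _ ih =>
        obtain ⟨N, hN, hF⟩ := ih
        obtain ⟨M, hM, hx⟩ := x.2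
        refine ⟨N * M, Nat.mul_pos hN hM, ?_⟩
        intro y hy
        rcases Finset.mem_insert.1 hy with rfl | hy
        · exact SN_mono (dvd_mul_left _ _) hx
        · exact SN_mono (dvd_mul_right _ _) (hF y hy)
    obtain ⟨N, hN, hFN⟩ := hN
    have hT : ∀ x ∈ T, x.1 ∈ SN N := by
      intro x hx
      rw [← hF] at hx
      induction hx using Subsemigroup.closure_induction with
      | mem y hy => exact hFN y hy
      | mul y z _ _ hy hz => exact (SN N).mul_mem hy hz
    refine ⟨G N, inferInstance, G_torsion N hN,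
      ⟨fun t => pi N '' t.1.1, fun s t => Set.image_mul (pi N)⟩, ?_⟩
    intro s t hst
    exact Subtype.ext (Subtype.ext (inj_SN (hT _ s.2) (hT _ t.2) hst))
  obtain ⟨Γ, _, htor, f, hf⟩ := h SS hloc
  have hne : (f aS).Nonempty := by
    by_contra hemp
    rw [Set.not_nonempty_iff_eq_empty] at hemp
    have h1 : f (aS * aS) = f aS := by rw [map_mul, hemp]; simp
    have h2 : a ^ 2 = a ^ 1 := by
      have := congrArg Subtype.val (hf h1)
      simpa [aS, pow_two] using this
    have h3 : pi 1 '' (a ^ 2) = pi 1 '' (a ^ 1) := by rw [h2]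
    have := pow_le h3
    omega
  obtain ⟨b, hb⟩ := hne
  obtain ⟨n, hn, hbn⟩ := isOfFinOrder_iff_pow_eq_one.1 (htor b)
  have step : ∀ (k : ℕ) (i : ℤ), ∀ x ∈ f (CS n i), x * b ^ k ∈ f (CS n (i + k)) := by
    intro k
    induction k with
    | zero => intro i x hx; simpa using hx
    | succ k ih =>
      intro i x hx
      have := Set.mul_mem_mul (ih i x hx) hb
      rw [← map_mul, CS_mul] at this
      rw [pow_succ, ← mul_assoc]
      convert this using 3
      push_cast; ring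
  have step1 : ∀ i : ℤ, f (CS n i) ⊆ f (CS n (i + n)) := by
    intro i x hx
    have := step n i x hx
    rwa [hbn, mul_one] at this
  have step2 : ∀ (k : ℕ) (i : ℤ), f (CS n i) ⊆ f (CS n (i + n * k)) := by
    intro k
    induction k with
    | zero => intro i; simp
    | succ k ih =>
      intro i
      refine (ih i).trans ((step1 _).trans ?_)
      apply subset_of_eq
      congr 2
      push_cast; ring
  have h1 : f (CS n 0) ⊆ f (CS n n) := by simpa using step1 0
  have h2 : f (CS n n) ⊆ f (CS n 0) := by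
    refine (step2 n n).trans (subset_of_eq ?_)
    congr 1
    apply Subtype.ext
    show C (n + 1) _ = C (n + 1) 0
    rw [← C_period (n + 1) 0 n]
    congr 1
    push_cast; ring
  have h3 : CS n 0 = CS n n := hf (Set.Subset.antisymm h1 h2)
  have h4 : C (n + 1) 0 = C (n + 1) n := congrArg Subtype.val h3
  have h5 : (Multiplicative.ofAdd ((n : ℤ), (0 : K)) : H) ∈ C (n + 1) n := by
    show ((n + 1 : ℕ) : ℤ) ∣ (n : ℤ) - n
    simp
  rw [← h4] at h5
  have h6 : ((n + 1 : ℕ) : ℤ) ∣ (n : ℤ) - 0 := h5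
  rw [sub_zero] at h6
  have h7 := Nat.le_of_dvd hn (Int.natCast_dvd_natCast.1 h6)
  omega

end Pool.Agent.S01968
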