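import Pool.Statements.S01976
-- import your own Pool.Agent.* helpers here

set_option autoImplicit false
open Pool Pool.MP_783016_al

namespace Pool.Agent.S01976

open Polynomial

abbrev R0 : Type := Polynomial (ZMod 2)

abbrev P : Type := Polynomial R0

lemma two_P : (2 : P) = 0 := by
  have : CharP P 2 := inferInstance
  exact CharP.cast_eq_zero P 2

def W (n : ℕ) (a : Fin 4 → P) : Prop :=
  X ^ n ∣ a 0 ∧ (∀ i, X ^ (n + 1) ∣ a i - a 0) ∧ X ^ (n + 2) ∣ a 0 + a 1 + a 2 + a 3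

lemma W_add {n : ℕ} {a b : Fin 4 → P} (ha : W n a) (hb : W n b) : W n (a + b) := by
  refine ⟨dvd_add ha.1 hb.1, fun i => ?_, ?_⟩
  · have := dvd_add (ha.2.1 i) (hb.2.1 i)
    convert this using 1
    simp only [Pi.add_apply]; ring
  · have := dvd_add ha.2.2 hb.2.2
    convert this using 1
    simp only [Pi.add_apply]; ring

lemma W_mul {n k : ℕ} {a b : Fin 4 → P} (ha : W n a) (hb : W k b) : W (n + k) (a * b) := by
  obtain ⟨⟨a0, h0⟩, h1, ⟨sa, h2⟩⟩ := ha
  obtain ⟨⟨b0, k0⟩, k1, ⟨sb, k2⟩⟩ := hb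
  choose c hc using h1
  choose d hd using k1
  refine ⟨⟨a0 * b0, by rw [Pi.mul_apply, h0, k0]; ring⟩, fun i => ?_, ?_⟩
  · refine ⟨a0 * d i + c i * b0 + X * c i * d i, ?_⟩
    have e : (a * b) i - (a * b) 0 = a 0 * (b i - b 0) + (a i - a 0) * b 0 +
        (a i - a 0) * (b i - b 0) := by simp only [Pi.mul_apply]; ring
    rw [e, hc, hd, h0, k0]; ring
  · refine ⟨c 1 * d 1 + c 2 * d 2 + c 3 * d 3 + a0 * sb + b0 * sa, ?_⟩
    have e : (a * b) 0 + (a * b) 1 + (a * b) 2 + (a * b) 3 =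
        (a 1 - a 0) * (b 1 - b 0) + (a 2 - a 0) * (b 2 - b 0) + (a 3 - a 0) * (b 3 - b 0) +
        a 0 * (b 0 + b 1 + b 2 + b 3) + b 0 * (a 0 + a 1 + a 2 + a 3) -
        2 * (2 * a 0 * b 0) := by simp only [Pi.mul_apply]; ring
    rw [e, two_P, hc, hc, hc, hd, hd, hd, h2, k2, h0, k0]; ring

lemma W_const (n : ℕ) (p : P) (h : X ^ n ∣ p) : W n (fun _ => p) := by
  refine ⟨h, fun i => by simp, ?_⟩
  have : p + p + p + p = 2 * (2 * p) := by ring
  rw [this, two_P]; simp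

noncomputable def z : P := C X

noncomputable def gen : Fin 3 → Fin 4 → P :=
  ![fun _ => X, fun _ => z * X, ![0, X, z * X, (1 + z) * X]]

noncomputable def ψ : MvPolynomial (Fin 3) (ZMod 2) →+* (Fin 4 → P) :=
  (MvPolynomial.aeval gen).toRingHom

lemma W_f : W 0 (gen 2) := by
  refine ⟨by simp, fun i => ?_, ?_⟩
  · fin_cases i <;> simp [gen]
  · have : gen 2 0 + gen 2 1 + gen 2 2 + gen 2 3 = 2 * ((1 + z) * X) := by
      simp [gen]; ring
    rw [this, two_P]; simp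

lemma W_f2 : W 1 (gen 2 ^ 2) := by
  refine ⟨by simp [gen], fun i => ?_, ?_⟩
  · fin_cases i
    · simp [gen]
    · simp [gen]
    · exact ⟨z ^ 2, by simp [gen]; ring⟩
    · exact ⟨(1 + z) ^ 2, by simp [gen]; ring⟩
  · have : (gen 2 ^ 2) 0 + (gen 2 ^ 2) 1 + (gen 2 ^ 2) 2 + (gen 2 ^ 2) 3 =
        2 * ((1 + z + z ^ 2) * X ^ 2) := by
      simp [gen]; ring
    rw [this, two_P]; simp

lemma W_zero (g : MvPolynomial (Fin 3) (ZMod 2)) : W 0 (ψ g) := by
  induction g using MvPolynomial.induction_on with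
  | C a =>
    have : ψ (MvPolynomial.C a) = fun _ => algebraMap (ZMod 2) P a := by
      funext i; simp [ψ]
    rw [this]; exact W_const 0 _ (by simp)
  | add p q hp hq => rw [map_add]; exact W_add hp hq
  | mul_X p i hp =>
    rw [map_mul]
    refine W_mul (k := 0) hp ?_
    have : ψ (MvPolynomial.X i) = gen i := by simp [ψ]
    rw [this]
    fin_cases i
    · exact W_const 0 _ (by simp)
    · exact W_const 0 _ (by simp)
    · exact W_f

abbrev A : Type := ψ.range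

noncomputable def g (i : Fin 3) : A := ⟨gen i, MvPolynomial.X i, by simp [ψ]⟩

def Wid (n : ℕ) : Ideal A where
  carrier := {a | W n a.1}
  add_mem' := fun ha hb => W_add ha hb
  zero_mem' := W_const n 0 (dvd_zero _)
  smul_mem' := by
    rintro ⟨_, p, rfl⟩ a ha
    have := W_mul (W_zero p) ha
    rwa [zero_add] at this

noncomputable def I : Ideal A := Ideal.span {g 0, g 1, g 2 ^ 2}

lemma I_le : I ≤ Wid 1 := by
  rw [I, Ideal.span_le]
  rintro _ (rfl | rfl | rfl)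
  · exact W_const 1 X (by simp)
  · exact W_const 1 (z * X) (by simp)
  · exact W_f2

lemma Ipow_le (n : ℕ) : I ^ n ≤ Wid n := by
  induction n with
  | zero => rintro ⟨_, p, rfl⟩ -; exact W_zero p
  | succ n ih =>
    rw [pow_succ, Ideal.mul_le]
    intro a ha b hb
    exact W_mul (ih ha) (I_le hb)

lemma two_A : (2 : A) = 0 := by
  apply Subtype.ext
  funext i
  exact two_P

lemma rel : g 2 ^ 4 = (g 0 ^ 2 + g 0 * g 1 + g 1 ^ 2) * g 2 ^ 2 +
    g 0 * g 1 * (g 0 + g 1) * g 2 := by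
  have h : g 2 * (g 2 - g 0) * (g 2 - g 1) * (g 2 - g 0 - g 1) = 0 := by
    apply Subtype.ext
    funext i
    fin_cases i
    · show (0 : P) * _ * _ * _ = 0
      ring
    · show (X : P) * (X - X) * (X - z * X) * (X - X - z * X) = 0
      ring
    · show (z * X : P) * (z * X - X) * (z * X - z * X) * (z * X - X - z * X) = 0
      ring
    · show ((1 + z) * X : P) * ((1 + z) * X - X) * ((1 + z) * X - z * X) *
        ((1 + z) * X - X - z * X) = 0
      ring
  have h2 := two_A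
  linear_combination h + ((g 0 + g 1) * g 2 ^ 3 - (g 0 ^ 2 + 2 * g 0 * g 1 + g 1 ^ 2) * g 2 ^ 2) * h2

lemma mem0 : g 0 ∈ I := Ideal.subset_span (by simp)
lemma mem1 : g 1 ∈ I := Ideal.subset_span (by simp)
lemma mem2 : g 2 ^ 2 ∈ I := Ideal.subset_span (by simp)

lemma mulm {a b : A} {i j : ℕ} (ha : a ∈ I ^ i) (hb : b ∈ I ^ j) : a * b ∈ I ^ (i + j) := by
  rw [pow_add]; exact Ideal.mul_mem_mul ha hb

lemma s2 : g 0 ^ 2 + g 0 * g 1 + g 1 ^ 2 ∈ I ^ 2 := by
  refine Ideal.add_mem _ (Ideal.add_mem _ (Ideal.pow_mem_pow mem0 2) ?_)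
    (Ideal.pow_mem_pow mem1 2)
  rw [pow_two]; exact Ideal.mul_mem_mul mem0 mem1

lemma s3 : g 0 * g 1 * (g 0 + g 1) ∈ I ^ 3 := by
  rw [pow_succ, pow_two]
  exact Ideal.mul_mem_mul (Ideal.mul_mem_mul mem0 mem1) (I.add_mem mem0 mem1)

lemma low (m : ℕ) : g 2 ^ (m + 2) ∈ I ^ m := by
  induction m using Nat.strong_induction_on with
  | _ m ih =>
    match m with
    | 0 => simp
    | 1 => rw [pow_one, pow_succ']; exact I.mul_mem_left _ mem2
    | 2 =>
      rw [rel]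
      exact Ideal.add_mem _ (Ideal.mul_mem_right _ _ s2)
        (Ideal.mul_mem_right _ _ (Ideal.pow_le_pow_right (by norm_num) s3))
    | m + 3 =>
      have e : g 2 ^ (m + 3 + 2) = (g 0 ^ 2 + g 0 * g 1 + g 1 ^ 2) * g 2 ^ (m + 1 + 2) +
          g 0 * g 1 * (g 0 + g 1) * g 2 ^ (m + 2) := by
        rw [show m + 3 + 2 = 4 + (m + 1) by ring, pow_add, rel]; ring
      rw [e]
      refine Ideal.add_mem _ ?_ ?_
      · have := mulm s2 (ih (m + 1) (by omega))
        rwa [show 2 + (m + 1) = m + 3 by ring] at this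
      · have := mulm s3 (ih m (by omega))
        rwa [show 3 + m = m + 3 by ring] at this

lemma pow2 (k : ℕ) : ∃ n α β, 2 ^ (k + 1) = n + 2 ∧ α ∈ I ^ n ∧ β ∈ I ^ (n + 1) ∧
    g 2 ^ (n + 2) = α * g 2 ^ 2 + β * g 2 := by
  induction k with
  | zero => exact ⟨0, 1, 0, by norm_num, by simp, by simp, by simp⟩
  | succ k ih =>
    obtain ⟨n, α, β, h1, h2, h3, h4⟩ := ih
    refine ⟨2 * n + 2, α * α * (g 0 ^ 2 + g 0 * g 1 + g 1 ^ 2) + β * β,
      α * α * (g 0 * g 1 * (g 0 + g 1)), by rw [pow_succ, h1]; ring, ?_, ?_, ?_⟩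
    · refine Ideal.add_mem _ ?_ ?_
      · have := mulm (mulm h2 h2) s2
        rwa [show n + n + 2 = 2 * n + 2 by ring] at this
      · have := mulm h3 h3
        rwa [show n + 1 + (n + 1) = 2 * n + 2 by ring] at this
    · have := mulm (mulm h2 h2) s3
      rwa [show n + n + 3 = 2 * n + 2 + 1 by ring] at this
    · have e : g 2 ^ (2 * n + 2 + 2) = (g 2 ^ (n + 2)) ^ 2 := by ring
      rw [e, h4]
      linear_combination α ^ 2 * rel + (α * β * g 2 ^ 3) * two_A

lemma high (m n : ℕ) (hm : 1 ≤ m) (h : g 2 ^ m ∈ I ^ n) : n + 1 ≤ m := by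
  have h1 := (Ipow_le n h).2.1 1
  have e : (g 2 ^ m).1 1 - (g 2 ^ m).1 0 = X ^ m := by
    simp [g, gen, zero_pow (by omega : m ≠ 0)]
  rw [e] at h1
  by_contra hlt
  have := X_pow_dvd_iff.mp h1 m (by omega)
  simp at this

lemma high2 (K t n : ℕ) (ht : 0 < t) (h : g 2 ^ (2 ^ K * (1 + 2 * t)) ∈ I ^ n) :
    n + 2 ≤ 2 ^ K * (1 + 2 * t) := by
  set m := 2 ^ K * (1 + 2 * t) with hm
  have hm0 : m ≠ 0 := by positivity
  have h1 := (Ipow_le n h).2.2
  have e : (g 2 ^ m).1 0 + (g 2 ^ m).1 1 + (g 2 ^ m).1 2 + (g 2 ^ m).1 3 =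
      C (1 + X ^ m + (1 + X) ^ m) * X ^ m := by
    have e1 : (g 2 ^ m).1 3 = ((1 + z) * X) ^ m := rfl
    have e2 : (g 2 ^ m).1 2 = (z * X) ^ m := rfl
    have e3 : (g 2 ^ m).1 1 = X ^ m := rfl
    have e4 : (g 2 ^ m).1 0 = 0 ^ m := rfl
    rw [e1, e2, e3, e4, zero_pow hm0, mul_pow, mul_pow]
    simp only [z, map_add, map_pow, map_one]
    ring
  rw [e] at h1
  by_contra hlt
  have h2 := X_pow_dvd_iff.mp h1 m (by omega)
  rw [coeff_C_mul, coeff_X_pow_self, mul_one] at h2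
  have h3 : ((1 + X ^ (1 + 2 * t) + (1 + X) ^ (1 + 2 * t) : R0)) ^ 2 ^ K = 0 := by
    rw [add_pow_char_pow, add_pow_char_pow, one_pow, ← pow_mul, ← pow_mul, mul_comm _ (2 ^ K)]
    exact h2
  have h4 := congrArg (fun p : R0 => p.coeff 1) (pow_eq_zero_iff (by positivity) |>.mp h3)
  simp only [coeff_add, coeff_one, coeff_X_pow, coeff_one_add_X_pow, coeff_zero] at h4
  rw [if_neg (by norm_num), if_neg (by omega), Nat.choose_one_right] at h4
  push_cast at h4
  have h5 : (2 : ZMod 2) = 0 := rfl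
  rw [h5] at h4
  simp at h4

noncomputable def v (m : ℕ) : ℕ := sSup {n : ℕ | Ideal.span {g 2} ^ m ≤ I ^ n}

lemma v_eq (m n : ℕ) (h1 : g 2 ^ m ∈ I ^ n) (h2 : ∀ k, g 2 ^ m ∈ I ^ k → k ≤ n) : v m = n := by
  apply IsGreatest.csSup_eq
  simp only [Ideal.span_singleton_pow, Ideal.span_singleton_le_iff_mem]
  exact ⟨h1, h2⟩

theorem result :
    ¬ (∀ (A : Type) [CommRing A] [IsNoetherianRing A] (I J : Ideal A),
      J ≤ I.radical → (∀ n : ℕ, I ^ n ≠ ⊥) → (⨅ n : ℕ, I ^ n) = ⊥ →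
      (∀ m : ℕ, J ^ m ≠ ⊥) →
      ∃ t : ℕ, 0 < t ∧ ∃ M : ℕ, ∀ m : ℕ, M ≤ m →
        ((sSup {n : ℕ | J ^ (m + 1 + t) ≤ I ^ n} : ℕ) : ℤ)
            - ((sSup {n : ℕ | J ^ (m + t) ≤ I ^ n} : ℕ) : ℤ)
          = ((sSup {n : ℕ | J ^ (m + 1) ≤ I ^ n} : ℕ) : ℤ)
            - ((sSup {n : ℕ | J ^ m ≤ I ^ n} : ℕ) : ℤ)) := by
  intro h
  have hne : ∀ m, g 2 ^ m ≠ 0 := by
    intro m hm
    have := congrFun (congrArg Subtype.val hm) 1
    simp [g, gen] at this
  obtain ⟨t, ht, M, hM⟩ := h A I (Ideal.span {g 2})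
    (by rw [Ideal.span_le]; rintro _ rfl; exact ⟨2, mem2⟩)
    (fun n hn => hne (n + 2) (by simpa [hn] using low n))
    (by
      rw [eq_bot_iff]
      intro a ha
      rw [Ideal.mem_iInf] at ha
      have key : ∀ p : P, (∀ n, X ^ n ∣ p) → p = 0 := by
        intro p hp
        ext1 k
        exact X_pow_dvd_iff.mp (hp (k + 1)) k (by omega)
      have h0 := key _ (fun n => (Ipow_le n (ha n)).1)
      apply Subtype.ext
      funext i
      have h1 := key (a.1 i - a.1 0)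
        (fun n => (pow_dvd_pow X (Nat.le_succ n)).trans ((Ipow_le n (ha n)).2.1 i))
      rw [h0, sub_zero] at h1
      exact h1)
    (fun m hm => hne m (by
      rw [Ideal.span_singleton_pow, Ideal.span_singleton_eq_bot] at hm; exact hm))
  change ∀ m, M ≤ m → (v (m + 1 + t) : ℤ) - v (m + t) = v (m + 1) - v m at hM
  have c1 : ∀ j, (v (M + j + t) : ℤ) - v (M + j) = v (M + t) - v M := by
    intro j
    induction j with
    | zero => rfl
    | succ j ih =>
      have := hM (M + j) (by omega)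
      rw [← add_assoc]
      omega
  have c2 : ∀ m, M ≤ m → ∀ j : ℕ, (v (m + j * t) : ℤ) = v m + j * (v (M + t) - v M) := by
    intro m hm j
    induction j with
    | zero => simp
    | succ j ih =>
      have := c1 (m + j * t - M)
      rw [show M + (m + j * t - M) = m + j * t by omega] at this
      rw [show m + (j + 1) * t = m + j * t + t by ring]
      push_cast
      linarith
  obtain ⟨n, α, β, h1, h2, h3, h4⟩ := pow2 M
  have hlt : M < 2 ^ (M + 1) := Nat.lt_two_pow_self.trans (Nat.pow_lt_pow_succ (by norm_num))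
  have v1 : v (n + 2) = n + 1 := by
    refine v_eq _ _ ?_ (fun k hk => by have := high _ k (by omega) hk; omega)
    rw [h4]
    refine Ideal.add_mem _ ?_ (Ideal.mul_mem_right _ _ h3)
    rw [pow_succ I]; exact Ideal.mul_mem_mul h2 mem2
  have e : n + 2 + 2 * (n + 2) * t = 2 ^ (M + 1) * (1 + 2 * t) := by rw [h1]; ring
  have v2 : v (n + 2 + 2 * (n + 2) * t) = n + 2 * (n + 2) * t := by
    refine v_eq _ _ ?_ (fun k hk => ?_)
    · have := low (n + 2 * (n + 2) * t)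
      rwa [show n + 2 * (n + 2) * t + 2 = n + 2 + 2 * (n + 2) * t by ring] at this
    · rw [e] at hk
      have := high2 _ t k ht hk
      omega
  have c3 := c2 (n + 2) (by omega) (2 * (n + 2))
  rw [v1, v2] at c3
  push_cast at c3
  have c4 : 2 * ((n + 2 : ℤ) * (t - (v (M + t) - v M))) = 1 := by linarith
  omega

end Pool.Agent.S01976
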