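import Pool.Statements.S02007
import Pool.Agent.Lib.helper7.PS2

set_option autoImplicit false
open Pool Pool.MP_79c14d_al

namespace Pool.Agent.S02007


/-- There exist a free group F of finite rank, a residually soluble non-free group Γ, and a homomorphism ψ from F to Γ inducing a bijection F/D^j(F) → Γ/D^j(Γ) for every j ≥ 1, where D^j is the j-th derived subgroup. -/
theorem result :
    ∃ (n : ℕ) (Γ : Type) (_ : Group Γ) (ψ : FreeGroup (Fin n) →* Γ),
      (∀ g : Γ, g ≠ 1 →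
        ∃ (S : Type) (_ : Group S) (_ : IsSolvable S) (f : Γ →* S), f g ≠ 1) ∧
      ¬ IsFreeGroup Γ ∧
      ∀ j : ℕ, 1 ≤ j →
        (derivedSeries Γ j).comap ψ = derivedSeries (FreeGroup (Fin n)) j ∧
        ∀ γ : Γ, ∃ x : FreeGroup (Fin n), (ψ x)⁻¹ * γ ∈ derivedSeries Γ j := by
  refine ⟨2, Pool.Agent.Lib.helper7.PS.Gam, inferInstance, Pool.Agent.Lib.helper7.PS.psi, ?_,
    Pool.Agent.Lib.helper7.PS.not_free, fun j _ =>
      ⟨Pool.Agent.Lib.helper7.PS.comap_eq j, Pool.Agent.Lib.helper7.PS.surj j⟩⟩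
  intro g hg
  obtain ⟨j, hj⟩ : ∃ j, g.1 j ≠ 1 := by
    by_contra hc
    push Not at hc
    exact hg (Subtype.ext (funext hc))
  exact ⟨_, inferInstance, (⟨⟨j, Pool.Agent.Lib.helper7.PS.quot_bot j⟩⟩ : Group.IsSolvable _),
    Pool.Agent.Lib.helper7.PS.ev j, hj⟩

end Pool.Agent.S02007
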