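import Pool.Statements.S02012
import Mathlib

set_option autoImplicit false
open Pool Pool.MP_79f901_al

namespace Pool.Agent.S02012

set_option autoImplicit false

namespace H17Br

abbrev V := {l : List ℕ // ∀ i (h : i < l.length), l.get ⟨i, h⟩ < (fun _ : ℕ => 2) i}

theorem memV {l : List ℕ} : (∀ i (h : i < l.length), l.get ⟨i, h⟩ < (fun _ : ℕ => 2) i) ↔
    ∀ x ∈ l, x < 2 := by
  simp [List.forall_mem_iff_getElem]

theorem ais (g : Equiv.Perm V) (l : V) : g (g⁻¹ l) = l := by simp

def Pre (g : V → V) : Prop := ∀ v w : V, v.1 <+: w.1 ↔ (g v).1 <+: (g w).1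

def fl (b : Bool) (x : ℕ) : ℕ := if b then Equiv.swap 0 1 x else x

def F (c : ℕ → Bool) (l : List ℕ) : List ℕ := l.mapIdx fun i x => fl (c i) x

theorem F_F (c d : ℕ → Bool) (l : List ℕ) : F c (F d l) = F (fun i => xor (c i) (d i)) l := by
  simp only [F, List.mapIdx_mapIdx]
  congr 1
  funext i x
  cases h1 : c i <;> cases h2 : d i <;> simp [fl, h1, h2]

theorem F_zero (l : List ℕ) : F (fun _ => false) l = l := by
  apply List.ext_getElem <;> simp [F, fl]

theorem F_inv (c : ℕ → Bool) (l : List ℕ) : F c (F c l) = l := by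
  rw [F_F]; simpa using F_zero l

theorem F_len (c : ℕ → Bool) (l : List ℕ) : (F c l).length = l.length := by simp [F]

theorem F_take (c : ℕ → Bool) (l : List ℕ) (n : ℕ) : (F c l).take n = F c (l.take n) := by
  apply List.ext_getElem <;> simp [F]

theorem F_pre (c : ℕ → Bool) {v w : List ℕ} (h : v <+: w) : F c v <+: F c w := by
  rw [List.prefix_iff_eq_take] at h ⊢
  rw [F_take, F_len, ← h]

def FV (c : ℕ → Bool) (l : V) : V := ⟨F c l.1, fun i h => by
  have := l.2 i (by simpa [F] using h)
  simp only [F, List.get_eq_getElem, List.getElem_mapIdx, fl] at this ⊢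
  split_ifs
  · rw [Equiv.swap_apply_def]; split_ifs <;> omega
  · exact this⟩

def FP (c : ℕ → Bool) : Equiv.Perm V :=
  Function.Involutive.toPerm (FV c) fun l => Subtype.ext (F_inv c l.1)

def L : Subgroup (Equiv.Perm V) where
  carrier := {g | Pre g ∧ (∀ l, (g l).1.length = l.1.length) ∧
    ∃ c, ∀ l, (g l).1.take 2 = F c (l.1.take 2)}
  one_mem' := ⟨fun _ _ => Iff.rfl, fun _ => rfl, fun _ => false, fun l => (F_zero _).symm⟩
  mul_mem' := by
    rintro a b ⟨a1, a2, c, a3⟩ ⟨b1, b2, d, b3⟩
    exact ⟨fun v w => (b1 v w).trans (a1 _ _), fun l => (a2 _).trans (b2 l), _,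
      fun l => by rw [Equiv.Perm.mul_apply, a3, b3, F_F]⟩
  inv_mem' := by
    rintro a ⟨a1, a2, c, a3⟩
    refine ⟨fun v w => by rw [a1 (a⁻¹ v)]; simp, fun l => by rw [← a2]; simp, c, fun l => ?_⟩
    have := a3 (a⁻¹ l)
    rw [ais] at this
    rw [this, F_inv]

theorem FP_mem (c : ℕ → Bool) : FP c ∈ L :=
  ⟨fun v w => ⟨F_pre c, fun h => by
    have := F_pre c h
    rwa [show F c (FP c v).1 = v.1 from F_inv _ _, show F c (FP c w).1 = w.1 from F_inv _ _] at this⟩,
    fun l => F_len _ _, c, fun l => F_take _ _ _⟩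

theorem pre_of (N : ℕ) (p : V → V) (h1 : ∀ l, (p l).1.take N = l.1.take N)
    (h2 : ∀ l, (p l).1.length = l.1.length)
    (h3 : ∀ v w : V, N ≤ v.1.length → v.1.take N = w.1.take N →
      (v.1 <+: w.1 ↔ (p v).1 <+: (p w).1)) : Pre p := by
  intro v w
  rcases le_total v.1.length N with h | h
  · have e : (p v).1 = v.1 := by
      have := h1 v
      rwa [List.take_of_length_le h, List.take_of_length_le (by rwa [h2])] at this
    have k : ∀ w : List ℕ, v.1 <+: w ↔ v.1 <+: w.take N := fun w => by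
      rw [List.prefix_take_iff]; tauto
    rw [e, k, k (p w).1, h1]
  · have k : ∀ v w : List ℕ, N ≤ v.length → v <+: w → v.take N = w.take N := by
      rintro v _ h ⟨t, rfl⟩
      rw [List.take_append_of_le_length h]
    by_cases e : v.1.take N = w.1.take N
    · exact h3 v w h e
    · exact iff_of_false (fun h' => e (k _ _ h h'))
        fun h' => e (by rw [← h1, k _ _ (by rwa [h2]) h', h1])

theorem finV (N : ℕ) : {l : V | l.1.length ≤ N}.Finite := by
  refine Set.Finite.of_finite_image (f := fun l : V => l.1.map fun x => decide (x = 0))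
    ((List.finite_length_le Bool N).subset ?_) ?_
  · rintro _ ⟨l, hl, rfl⟩
    simpa using hl
  · intro a _ b _ h
    have k : ∀ l : V, (l.1.map fun x => decide (x = 0)).map (fun b => if b then 0 else 1) = l.1 := by
      intro l
      rw [List.map_map]
      refine (List.map_congr_left fun x hx => ?_).trans (List.map_id _)
      have := memV.mp l.2 x hx
      simp only [Function.comp, decide_eq_true_eq, id]
      split_ifs <;> omega
    apply Subtype.ext
    rw [← k a, ← k b]
    exact congrArg _ h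

def tk (N : ℕ) (l : V) : V := ⟨l.1.take N, memV.mpr fun x hx => memV.mp l.2 x (List.mem_of_mem_take hx)⟩

theorem branch (n : ℕ) : ((Subgroup.closure {g : Equiv.Perm V | g ∈ L ∧ ∃ u : V, u.1.length = n ∧
    ∀ v : V, ¬ u.1 <+: v.1 → g v = v}).subgroupOf L).index ≠ 0 := by
  classical
  set R := Subgroup.closure {g : Equiv.Perm V | g ∈ L ∧ ∃ u : V, u.1.length = n ∧
    ∀ v : V, ¬ u.1 <+: v.1 → g v = v}
  have key : ∀ U : Finset V, ∀ g ∈ L, (∀ l, tk (n + 2) (g l) = tk (n + 2) l) →
      (∀ l, tk (n + 2) l ∉ U → g l = l) → g ∈ R := by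
    intro U
    induction U using Finset.induction_on with
    | empty =>
      intro g _ _ h
      rw [show g = 1 from Equiv.ext fun l => h l (by simp)]
      exact one_mem _
    | insert u U _ ih =>
      intro g hg h1 h2
      have h1' : ∀ l, tk (n + 2) (g⁻¹ l) = tk (n + 2) l := fun l => by
        rw [← h1, ais]
      let h : Equiv.Perm V := ⟨fun l => if tk (n + 2) l = u then g l else l,
        fun l => if tk (n + 2) l = u then g⁻¹ l else l,
        fun l => by by_cases e : tk (n + 2) l = u <;> simp [e, h1],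
        fun l => by by_cases e : tk (n + 2) l = u <;> simp only [e, h1', if_true, if_false, ais]⟩
      have ha : ∀ l, h l = if tk (n + 2) l = u then g l else l := fun l => rfl
      have h3 : ∀ l, tk (n + 2) (h l) = tk (n + 2) l := fun l => by
        rw [ha]; split_ifs <;> simp [h1]
      have h4 : ∀ l, (h l).1.length = l.1.length := fun l => by
        rw [ha]; split_ifs <;> simp [hg.2.1]
      have hL : h ∈ L := ⟨pre_of (n + 2) h (fun l => congrArg Subtype.val (h3 l)) h4 (by
          intro v w _ e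
          rw [ha, ha, show tk (n + 2) v = tk (n + 2) w from Subtype.ext e]
          split_ifs
          · exact hg.1 v w
          · rfl), h4, fun _ => false, fun l => by
        have := congrArg (fun l : V => l.1.take 2) (h3 l)
        simp only [tk, List.take_take] at this
        rw [F_zero]
        simpa using this⟩
      have hR : h ∈ R := by
        by_cases e : n ≤ u.1.length
        · refine Subgroup.subset_closure ⟨hL, tk n u, by simp [tk, e], fun v hv => ?_⟩
          rw [ha, if_neg]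
          rintro rfl
          exact hv ((List.take_prefix _ _).trans (List.take_prefix _ _))
        · rw [show h = 1 from Equiv.ext fun l => ?_]
          · exact one_mem _
          rw [ha]
          split_ifs with e2
          · have e3 : l.1.length ≤ n + 2 := by
              rw [← e2] at e
              simp only [tk, List.length_take] at e
              omega
            have := congrArg Subtype.val (h1 l)
            simp only [tk] at this
            rw [List.take_of_length_le e3, List.take_of_length_le (by rwa [hg.2.1])] at this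
            exact Subtype.ext this
          · rfl
      have := ih (h⁻¹ * g) (mul_mem (inv_mem hL) hg)
        (fun l => by rw [← h3, Equiv.Perm.mul_apply, ais, h1]) (fun l hl => by
          rw [Equiv.Perm.mul_apply, Equiv.Perm.inv_eq_iff_eq, ha]
          split_ifs with e
          · rfl
          · exact h2 l (by simp [e, hl]))
      simpa using mul_mem hR this
  have := (finV (n + 2)).to_subtype
  have h1 : ∀ l : V, (MulAction.stabilizer L l).FiniteIndex := fun l => ⟨by
    rw [MulAction.index_stabilizer]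
    refine Set.ncard_ne_zero_of_mem (MulAction.mem_orbit_self l) ((finV l.1.length).subset ?_)
    rintro _ ⟨g, rfl⟩
    exact (g.2.2.1 l).le⟩
  have h2 := Subgroup.finiteIndex_iInf fun l : {l : V | l.1.length ≤ n + 2} => h1 l.1
  refine (Subgroup.finiteIndex_of_le (H := ⨅ l : {l : V | l.1.length ≤ n + 2},
    MulAction.stabilizer L l.1) fun g hg => ?_).index_ne_zero
  rw [Subgroup.mem_iInf] at hg
  refine key (finV (n + 2)).toFinset g.1 g.2 (fun l => ?_) fun l hl => ?_
  · have e : g.1 (tk (n + 2) l) = tk (n + 2) l := hg ⟨tk (n + 2) l, by simp [tk]⟩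
    have := (g.2.1 (tk (n + 2) l) l).mp (List.take_prefix _ _)
    rw [e, List.prefix_iff_eq_take] at this
    apply Subtype.ext
    rw [this]
    simp only [tk, List.length_take, ← g.2.2.1 l]
    simp
  · exact absurd (by simp [tk]) hl

def sw : List ℕ → List ℕ
  | x :: y :: r => y :: x :: r
  | l => l

theorem sw_sw (l : List ℕ) : sw (sw l) = l := by
  rcases l with _ | ⟨x, _ | ⟨y, r⟩⟩ <;> rfl

theorem sw_len (l : List ℕ) : (sw l).length = l.length := by
  rcases l with _ | ⟨x, _ | ⟨y, r⟩⟩ <;> rfl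

theorem sw_take (l : List ℕ) : (sw l).take 2 = sw (l.take 2) := by
  rcases l with _ | ⟨x, _ | ⟨y, r⟩⟩ <;> rfl

theorem sw_pre {v w : List ℕ} (h : 2 ≤ v.length) : v <+: w ↔ sw v <+: sw w := by
  have k : ∀ v w : List ℕ, 2 ≤ v.length → v <+: w → sw v <+: sw w := by
    rintro (_ | ⟨x, _ | ⟨y, r⟩⟩) _ h ⟨t, rfl⟩
    · simp at h
    · simp at h
    · exact ⟨t, rfl⟩
  exact ⟨k _ _ h, fun h' => by simpa [sw_sw] using k _ _ (by rwa [sw_len]) h'⟩

def SW : Equiv.Perm V := Function.Involutive.toPerm (fun l => ⟨sw l.1, memV.mpr (by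
  have := memV.mp l.2
  obtain ⟨_ | ⟨x, _ | ⟨y, r⟩⟩, _⟩ := l
  · exact this
  · exact this
  · simp only [sw, List.forall_mem_cons] at this ⊢
    tauto)⟩) fun l => Subtype.ext (sw_sw l.1)

theorem SW_val (l : V) : (SW l).1 = sw l.1 := rfl
theorem SW_SW (l : V) : SW (SW l) = l := Subtype.ext (sw_sw _)

theorem ex_phi (g : L) : ∃ g' : L, ∀ l : V, 2 ≤ l.1.length → g'.1 l = SW (g.1 (SW l)) := by
  obtain ⟨g, hg⟩ := g
  obtain ⟨c, hc⟩ := hg.2.2
  have h0 := mul_mem (FP_mem c) hg
  have h1 : ∀ l, ((FP c * g) l).1.take 2 = l.1.take 2 := fun l => by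
    change (F c _).take 2 = _
    rw [F_take, hc, F_inv]
  have h2 : ∀ l, ((SW * (FP c * g) * SW) l).1.length = l.1.length := fun l => by
    rw [Equiv.Perm.mul_apply, Equiv.Perm.mul_apply, SW_val, sw_len, h0.2.1, SW_val, sw_len]
  have h3 : ∀ l, ((SW * (FP c * g) * SW) l).1.take 2 = l.1.take 2 := fun l => by
    rw [Equiv.Perm.mul_apply, Equiv.Perm.mul_apply, SW_val, sw_take, h1, SW_val, sw_take, sw_sw]
  have h4 : SW * (FP c * g) * SW ∈ L := ⟨pre_of 2 _ h3 h2 (fun v w hv _ => by
    rw [sw_pre hv, ← SW_val, ← SW_val, h0.1, sw_pre (by rwa [h0.2.1, SW_val, sw_len])]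
    rfl), h2, fun _ => false, fun l => by rw [h3, F_zero]⟩
  refine ⟨⟨_, mul_mem (FP_mem fun i => c (Equiv.swap 0 1 i)) h4⟩, fun l hl => Subtype.ext ?_⟩
  change F _ (sw (F c (g (SW l)).1)) = sw (g (SW l)).1
  have : 2 ≤ (g (SW l)).1.length := by rwa [hg.2.1, SW_val, sw_len]
  have k : ∀ t : List ℕ, 2 ≤ t.length → F (fun i => c (Equiv.swap 0 1 i)) (sw t) = sw (F c t) := by
    rintro (_ | ⟨x, _ | ⟨y, r⟩⟩) h
    · simp at h
    · simp at h
    · simp only [F, sw, List.mapIdx_cons, zero_add, Equiv.swap_apply_left, Equiv.swap_apply_right]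
      congr 3
  rw [k _ (by rwa [F_len]), F_inv]

theorem uniq (a b : L) (h : ∀ l : V, 2 ≤ l.1.length → a.1 l = b.1 l) : a = b := by
  ext l : 2
  let w : V := ⟨l.1 ++ [0, 0], memV.mpr (by
    have := memV.mp l.2
    simp only [List.forall_mem_append]
    exact ⟨this, by simp⟩)⟩
  have h1 := (a.2.1 l w).mp (List.prefix_append _ _)
  have h2 := (b.2.1 l w).mp (List.prefix_append _ _)
  rw [h w (by simp [w])] at h1
  exact Subtype.ext ((List.prefix_of_prefix_length_le h1 h2
    (by rw [a.2.2.1, b.2.2.1])).eq_of_length (by rw [a.2.2.1, b.2.2.1]))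

theorem ex_aut : ∃ φ : L ≃* L, ∀ g l, 2 ≤ l.1.length → (φ g).1 l = SW (g.1 (SW l)) := by
  choose f hf using ex_phi
  have h1 : Function.Involutive f := fun g => uniq _ _ fun l hl => by
    rw [hf _ _ hl, hf _ _ (by rwa [SW_val, sw_len]), SW_SW, SW_SW]
  refine ⟨⟨h1.toPerm, fun a b => uniq _ _ fun l hl => ?_⟩, hf⟩
  change (f (a * b)).1 l = (f a).1 ((f b).1 l)
  rw [hf _ _ hl, hf _ _ (by rwa [(f b).2.2.1]), hf _ _ hl, SW_SW]
  rfl

end H17Br

open H17Br in

/-- The negation of the preceding statement: For every branch group L acting on a spherically homogeneous rooted tree, every automorphism of L is conjugation by a unique tree automorphism, so Aut L equals the normalizer of L in Aut T. -/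
theorem result :
    ¬ (∀ (m : ℕ → ℕ), (∀ n, 2 ≤ m n) →
    ∀ L : Subgroup (Equiv.Perm {l : List ℕ // ∀ i (h : i < l.length), l.get ⟨i, h⟩ < m i}),
    (∀ g ∈ L, ∀ v w : {l : List ℕ // ∀ i (h : i < l.length), l.get ⟨i, h⟩ < m i},
        (List.IsPrefix v.1 w.1 ↔ List.IsPrefix (g v).1 (g w).1)) →
    (∀ v w : {l : List ℕ // ∀ i (h : i < l.length), l.get ⟨i, h⟩ < m i},
        v.1.length = w.1.length → ∃ g ∈ L, g v = w) →
    (∀ n : ℕ, ((Subgroup.closure
        {g : Equiv.Perm {l : List ℕ // ∀ i (h : i < l.length), l.get ⟨i, h⟩ < m i} |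
          g ∈ L ∧ ∃ u : {l : List ℕ // ∀ i (h : i < l.length), l.get ⟨i, h⟩ < m i},
            u.1.length = n ∧
            ∀ v : {l : List ℕ // ∀ i (h : i < l.length), l.get ⟨i, h⟩ < m i},
              ¬ List.IsPrefix u.1 v.1 → g v = v}).subgroupOf L).index ≠ 0) →
    ∀ φ : L ≃* L,
      ∃! σ : Equiv.Perm {l : List ℕ // ∀ i (h : i < l.length), l.get ⟨i, h⟩ < m i},
        (∀ v w : {l : List ℕ // ∀ i (h : i < l.length), l.get ⟨i, h⟩ < m i},
          (List.IsPrefix v.1 w.1 ↔ List.IsPrefix (σ v).1 (σ w).1)) ∧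
        ∀ g : L, ((φ g : L) : Equiv.Perm {l : List ℕ // ∀ i (h : i < l.length), l.get ⟨i, h⟩ < m i})
          = σ * (g : Equiv.Perm {l : List ℕ // ∀ i (h : i < l.length), l.get ⟨i, h⟩ < m i}) * σ⁻¹) := by
  intro h
  obtain ⟨φ, hφ⟩ := ex_aut
  obtain ⟨σ, ⟨h1, h2⟩, _⟩ := h (fun _ => 2) (fun _ => le_rfl) L (fun g hg => hg.1) (by
    intro v w e
    refine ⟨_, FP_mem fun i => decide (v.1[i]? ≠ w.1[i]?), Subtype.ext ?_⟩
    change F _ v.1 = w.1
    refine List.ext_getElem (by rw [F_len, e]) fun i a b => ?_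
    have a' : i < v.1.length := e ▸ b
    have c1 := v.2 i a'
    have c2 := w.2 i b
    simp only [F, List.getElem_mapIdx, fl, List.getElem?_eq_getElem a', List.getElem?_eq_getElem b,
      List.get_eq_getElem, Equiv.swap_apply_def] at c1 c2 ⊢
    simp only [ne_eq, Option.some.injEq, decide_not, Bool.not_eq_eq_eq_not, Bool.not_true,
      decide_eq_false_iff_not]
    split_ifs <;> omega) branch φ
  let g : L := ⟨_, FP_mem fun i => decide (i = 0)⟩
  let v0 : V := ⟨[], memV.mpr (by simp)⟩
  let v1 : V := ⟨[0], memV.mpr (by simp)⟩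
  let v2 : V := ⟨[0, 0], memV.mpr (by simp)⟩
  have e1 : ((φ g).1 v2).1 = [0, 1] := by
    rw [hφ g v2 le_rfl]
    rfl
  have e2 : (φ g).1 v1 = v1 := by
    have := ((φ g).2.1 v1 v2).mp ⟨[0], rfl⟩
    rw [e1, List.prefix_iff_eq_take, (φ g).2.2.1] at this
    exact Subtype.ext this
  rw [h2, Equiv.Perm.mul_apply, Equiv.Perm.mul_apply, ← Equiv.Perm.eq_inv_iff_eq] at e2
  have e3 : (σ⁻¹ v1).1 = [] := by
    generalize σ⁻¹ v1 = w at e2
    obtain ⟨_ | ⟨x, r⟩, hw⟩ := w
    · rfl
    · have a1 := memV.mp hw x (by simp)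
      have a2 := congrArg Subtype.val e2
      change F _ (x :: r) = x :: r at a2
      simp only [F, List.mapIdx_cons, fl, decide_true, if_true, List.cons.injEq,
        Equiv.swap_apply_def] at a2
      have := a2.1
      split_ifs at this <;> omega
  have := (h1 (σ⁻¹ v1) (σ⁻¹ v0)).mp (by rw [e3]; exact List.nil_prefix)
  simp [v0, v1] at this

end Pool.Agent.S02012
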