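import Pool.Statements.S02033
import Pool.Agent.Lib.helper17.NO5

set_option autoImplicit false
open Pool Pool.MP_7c6b96_al

namespace Pool.Agent.S02033



/-- For every positive integer k there is a group whose set of total orders invariant under left and right multiplication has exactly 2k elements. -/
theorem result :
    ∀ k : ℕ, 0 < k →
      ∃ (G : Type) (_ : Group G),
        {r : G → G → Prop | IsLinearOrder G r ∧
            ∀ a b c d : G, r a b → r (c * a * d) (c * b * d)}.encard
          = ((2 * k : ℕ) : ℕ∞) := by
  intro k hk
  obtain ⟨K, h1, h2⟩ := Pool.Agent.Lib.helper17.NO.ex_field hk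
  refine ⟨Pool.Agent.Lib.helper17.NO.DD K, inferInstance, ?_⟩
  have : Finite (K →+* ℝ) := Nat.finite_of_card_ne_zero (by omega)
  rw [Pool.Agent.Lib.helper17.NO.orders, ← Set.image_univ,
    Pool.Agent.Lib.helper17.NO.Rl_inj.encard_image, Set.encard_univ,
    ENat.card_eq_coe_natCard, Nat.card_prod, h2, mul_comm]
  simp

end Pool.Agent.S02033
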