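import Pool.Statements.S02054
import Pool.Agent.Lib.helper11.DiagZ
import Pool.Agent.Lib.helper11.Raag

set_option autoImplicit false
open Pool Pool.MP_7ddd63_al

namespace Pool.Agent.S02054

open H11Diag

def pth (l : List (Edge (Fin 3))) : Prop := (∀ s ∈ l, s.2.1 ∈ RR) ∧
  ∀ (i : ℕ) (s t : Edge (Fin 3)), l[i]? = some s → l[i+1]? = some t → tgt s = src t

def lp (l : List (Edge (Fin 3))) : Prop :=
  pth l ∧ (∀ s ∈ l.head?, src s = WW 0) ∧ (∀ s ∈ l.getLast?, tgt s = WW 0)

def mv (a b : List (Edge (Fin 3))) : Prop := pth a ∧ pth b ∧ Step a b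

lemma walk_of (l : List (Edge (Fin 3))) : ∀ u v : List (Fin 3), pth l →
    (∀ s ∈ l.head?, src s = u) → (∀ s ∈ l.getLast?, tgt s = v) → (l = [] → u = v) →
    Walk RR u l v := by
  induction l with
  | nil => intro u v _ _ _ h; rw [h rfl]; exact Walk.nil v
  | cons e l ih =>
    intro u v hp h1 h2 _
    rw [← h1 e rfl]
    refine Walk.cons e l v (hp.1 e (by simp)) (ih _ _ ⟨fun s hs => hp.1 s (by simp [hs]),
      fun i s t hs ht => hp.2 (i + 1) s t (by simpa using hs) (by simpa using ht)⟩ ?_ ?_ ?_)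
    · intro s hs
      refine (hp.2 0 e s rfl ?_).symm
      cases l with
      | nil => simp at hs
      | cons a l => simpa using hs
    · intro s hs
      apply h2
      cases l with
      | nil => simp at hs
      | cons a l => simpa using hs
    · rintro rfl
      exact h2 e rfl

lemma of_walk {u v : List (Fin 3)} {l : List (Edge (Fin 3))} (h : Walk RR u l v) :
    pth l ∧ (∀ s ∈ l.head?, src s = u) ∧ (∀ s ∈ l.getLast?, tgt s = v) ∧ (l = [] → u = v) := by
  induction h with
  | nil u => simp [pth]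
  | cons e l v he hl ih =>
    obtain ⟨⟨p1, p2⟩, h1, h2, h3⟩ := ih
    refine ⟨⟨(Walk.cons e l v he hl).mem, fun i s t hs ht => ?_⟩, by simp, ?_, by simp⟩
    · cases i with
      | zero =>
        obtain rfl : e = s := by simpa using hs
        refine (h1 t ?_).symm
        cases l with
        | nil => simp at ht
        | cons a l => simpa using ht
      | succ i => exact p2 i s t (by simpa using hs) (by simpa using ht)
    · intro s hs
      cases l with
      | nil =>
        obtain rfl : e = s := by simpa using hs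
        exact h3 rfl
      | cons a l => exact h2 s (by simpa using hs)

lemma lp_iff (l : List (Edge (Fin 3))) : lp l ↔ Walk RR (WW 0) l (WW 0) :=
  ⟨fun h => walk_of l _ _ h.1 h.2.1 h.2.2 fun _ => rfl,
    fun h => ⟨(of_walk h).1, (of_walk h).2.1, (of_walk h).2.2.1⟩⟩

lemma q_iff {p q : List (Edge (Fin 3))} (hp : Walk RR (WW 0) p (WW 0))
    (hq : Walk RR (WW 0) q (WW 0)) : Quot.mk mv p = Quot.mk mv q ↔ Phi p = Phi q := by
  constructor
  · intro h
    exact congrArg (Quot.lift Phi fun _ _ h => Phi_step h.2.2 h.2.1.1) h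
  · intro h
    have h1 : cls p hp = cls q hq := PhiD_inj h
    exact congrArg (Quot.lift (fun l : Loop RR (WW 0) => Quot.mk mv l.1)
      fun a b h => Quot.sound ⟨(of_walk a.2).1, (of_walk b.2).1, h⟩) h1

lemma step_iff (a b : List (Edge (Fin 3))) : Step a b ↔
    ((∃ (p q : List (Edge (Fin 3))) (x u v y : List (Fin 3)) (c : Bool),
      a = p ++ q ∧ b = p ++ [(x, (u, v), y, c), (x, (u, v), y, !c)] ++ q) ∨
    (∃ (p q : List (Edge (Fin 3))) (x u₁ v₁ y u₂ v₂ z : List (Fin 3)),
      a = p ++ [(x, (u₁, v₁), y ++ u₂ ++ z, true), (x ++ v₁ ++ y, (u₂, v₂), z, true)] ++ q ∧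
      b = p ++ [(x ++ u₁ ++ y, (u₂, v₂), z, true), (x, (u₁, v₁), y ++ v₂ ++ z, true)] ++ q)) := by
  constructor
  · intro h
    cases h with
    | cancel p q x r y c => exact Or.inl ⟨p, q, x, r.1, r.2, y, c, rfl, rfl⟩
    | square p q x u₁ v₁ y u₂ v₂ z => exact Or.inr ⟨p, q, x, u₁, v₁, y, u₂, v₂, z, rfl, rfl⟩
  · rintro (⟨p, q, x, u, v, y, c, rfl, rfl⟩ | ⟨p, q, x, u₁, v₁, y, u₂, v₂, z, rfl, rfl⟩)
    · exact Step.cancel p q x (u, v) y c
    · exact Step.square p q x u₁ v₁ y u₂ v₂ z

/-- The negation of the preceding statement: For every semigroup presentation with non-empty relation words and every non-empty base word, the diagram group (loops at the base word in the Squier complex modulo homotopy) embeds in some right-angled Artin group if and only if it has no subgroup isomorphic to Z wr Z. -/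
theorem result :
    ¬ (∀ (A : Type) (R : Set (List A × List A)) (w : List A),
    (∀ p ∈ R, p.1 ≠ [] ∧ p.2 ≠ []) → w ≠ [] →
    ∀ (src tgt : List A × (List A × List A) × List A × Bool → List A),
    (∀ (x u v y : List A) (b : Bool), src (x, (u, v), y, b) = x ++ (if b then u else v) ++ y) →
    (∀ (x u v y : List A) (b : Bool), tgt (x, (u, v), y, b) = x ++ (if b then v else u) ++ y) →
    ∀ (path : List (List A × (List A × List A) × List A × Bool) → Prop),
    (∀ l, path l ↔ ((∀ s ∈ l, s.2.1 ∈ R) ∧
        ∀ (i : ℕ) (s t : List A × (List A × List A) × List A × Bool),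
          l[i]? = some s → l[i+1]? = some t → tgt s = src t)) →
    ∀ (loop : List (List A × (List A × List A) × List A × Bool) → Prop),
    (∀ l, loop l ↔ (path l ∧ (∀ s ∈ l.head?, src s = w) ∧ (∀ s ∈ l.getLast?, tgt s = w))) →
    ∀ (move : List (List A × (List A × List A) × List A × Bool) →
        List (List A × (List A × List A) × List A × Bool) → Prop),
    (∀ a b, move a b ↔ (path a ∧ path b ∧
       ((∃ (p q : List (List A × (List A × List A) × List A × Bool)) (x u v y : List A) (c : Bool),
            a = p ++ q ∧ b = p ++ [(x, (u, v), y, c), (x, (u, v), y, !c)] ++ q) ∨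
        (∃ (p q : List (List A × (List A × List A) × List A × Bool)) (x u₁ v₁ y u₂ v₂ z : List A),
            a = p ++ [(x, (u₁, v₁), y ++ u₂ ++ z, true), (x ++ v₁ ++ y, (u₂, v₂), z, true)] ++ q ∧
            b = p ++ [(x ++ u₁ ++ y, (u₂, v₂), z, true), (x, (u₁, v₁), y ++ v₂ ++ z, true)] ++ q)))) →
    ((∃ (V : Type) (Γ : SimpleGraph V)
        (f : List (List A × (List A × List A) × List A × Bool) →
          PresentedGroup {r : FreeGroup V | ∃ s t, Γ.Adj s t ∧
            r = FreeGroup.of s * FreeGroup.of t * (FreeGroup.of s)⁻¹ * (FreeGroup.of t)⁻¹}),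
        (∀ p q, loop p → loop q → f (p ++ q) = f p * f q) ∧
        (∀ p q, loop p → loop q → (f p = f q ↔ Quot.mk move p = Quot.mk move q)))
     ↔ ¬ ∃ g : SemidirectProduct (Multiplicative (ℤ →₀ ℤ)) (Multiplicative ℤ)
            (zpowersHom (MulAut (Multiplicative (ℤ →₀ ℤ)))
              (AddEquiv.toMultiplicative
                (Finsupp.domCongr (Equiv.addRight (1 : ℤ)) : (ℤ →₀ ℤ) ≃+ (ℤ →₀ ℤ)))) →
            List (List A × (List A × List A) × List A × Bool),
          (∀ a, loop (g a)) ∧
          (∀ a b, Quot.mk move (g (a * b)) = Quot.mk move (g a ++ g b)) ∧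
          (∀ a b, Quot.mk move (g a) = Quot.mk move (g b) → a = b))) := by
  intro h
  have h1 := h (Fin 3) RR (WW 0) (by
      intro p hp
      simp only [RR, Set.mem_insert_iff, Set.mem_singleton_iff] at hp
      rcases hp with rfl | rfl | rfl | rfl <;> simp) (by simp [WW]) src tgt
    (fun _ _ _ _ _ => rfl) (fun _ _ _ _ _ => rfl) pth (fun _ => Iff.rfl) lp (fun _ => Iff.rfl) mv
    (fun a b => by rw [mv, step_iff])
  obtain ⟨V, Γ, f, hf1, hf2⟩ := h1.2 (by
    rintro ⟨g, hg1, hg2, hg3⟩
    have hw := fun a => (lp_iff _).1 (hg1 a)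
    let j := MonoidHom.mk' (fun a => Phi (g a)) fun a b => by
      rw [← Phi_append]
      exact (q_iff (hw _) ((hw a).append (hw b))).1 (hg2 a b)
    have hj : Function.Injective j := fun a b hab => hg3 a b ((q_iff (hw a) (hw b)).2 hab)
    obtain ⟨e, he, h2⟩ := no_four (fun i => j (SemidirectProduct.inl
      (Multiplicative.ofAdd (Finsupp.single (i : ℤ) (1 : ℤ))))) fun i k =>
        ((Commute.all _ _).map SemidirectProduct.inl).map j
    simp only [← map_zpow, ← map_mul] at h2
    rw [← map_one j] at h2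
    have h3 := hj h2
    rw [← map_one SemidirectProduct.inl] at h3
    have h4 := congrArg Multiplicative.toAdd (SemidirectProduct.inl_injective h3)
    apply he
    funext i
    have h5 := DFunLike.congr_fun h4 (i : ℤ)
    fin_cases i <;> simpa [Finsupp.single_apply] using h5)
  let F : DD →* PresentedGroup (H11Raag.rels Γ) := MonoidHom.mk'
    (Quot.lift (fun l : Loop RR (WW 0) => f l.1) fun a b hab =>
      (hf2 _ _ ((lp_iff _).2 a.2) ((lp_iff _).2 b.2)).2
        (Quot.sound ⟨(of_walk a.2).1, (of_walk b.2).1, hab⟩)) (by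
      rintro ⟨a⟩ ⟨b⟩
      exact hf1 _ _ ((lp_iff _).2 a.2) ((lp_iff _).2 b.2))
  have hF : Function.Injective F := by
    rintro ⟨a⟩ ⟨b⟩ hab
    apply PhiD_inj
    exact (q_iff a.2 b.2).1 ((hf2 _ _ ((lp_iff _).2 a.2) ((lp_iff _).2 b.2)).1 hab)
  apply not_commD
  apply hF
  have := H11Raag.raag_commute Γ (F AD) (F TD) (F BD) fun n => by
    simpa only [map_mul, map_pow, map_inv] using (commD n).map F
  simpa only [map_mul, map_inv] using this.eq

end Pool.Agent.S02054
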