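import Pool.Statements.S02098
-- import your own Pool.Agent.* helpers here

set_option autoImplicit false
open Pool Pool.MP_81db1e_al

namespace Pool.Agent.S02098

/-- The negation of the preceding statement: For every char-0 field k and k-algebra R with some finite-dimensional representation, there is one finite-dimensional representation (F,A) in which every family of R that is dependent in some finite-dimensional representation is already dependent. -/
theorem result :
    ¬ (∀ (k : Type) [Field k] [CharZero k] (R : Type) [Ring R] [Algebra k R],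
      (∃ (F : Type) (_ : Field F) (_ : Algebra k F) (A : Type) (_ : Ring A)
          (_ : Algebra F A) (_ : Algebra k A) (_ : IsScalarTower k F A)
          (_ : FiniteDimensional F A) (φ : R →ₐ[k] A), Function.Injective φ) →
      ∃ (F : Type) (_ : Field F) (_ : Algebra k F) (A : Type) (_ : Ring A)
          (_ : Algebra F A) (_ : Algebra k A) (_ : IsScalarTower k F A)
          (_ : FiniteDimensional F A) (φ : R →ₐ[k] A),
        Function.Injective φ ∧
        ∀ (F' : Type) [Field F'] [Algebra k F'] (A' : Type) [Ring A'] [Algebra F' A']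
          [Algebra k A'] [IsScalarTower k F' A'] [FiniteDimensional F' A']
          (φ' : R →ₐ[k] A'), Function.Injective φ' →
          ∀ (ι : Type) (r : ι → R),
            ¬ LinearIndependent F' (fun i => φ' (r i)) →
            ¬ LinearIndependent F (fun i => φ (r i))) := by
  intro h
  obtain ⟨F, _, _, A, _, _, _, _, _, φ, hφ, H⟩ := h ℝ (ℂ × ℂ)
    ⟨ℂ, inferInstance, inferInstance, ℂ × ℂ, inferInstance, inferInstance, inferInstance,
      inferInstance, inferInstance, AlgHom.id ℝ _, fun _ _ h => h⟩
  have h1 := H ℂ (ℂ × ℂ) (AlgHom.id ℝ _) (fun _ _ h => h) (Fin 2)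
    ![1, (Complex.I, Complex.I)] (by
      have : (fun i => (AlgHom.id ℝ (ℂ × ℂ)) (![1, (Complex.I, Complex.I)] i)) =
          ![1, (Complex.I, Complex.I)] := rfl
      rw [this, LinearIndependent.pair_iff' one_ne_zero]
      intro h
      exact h Complex.I (by ext <;> simp))
  have h2 := H ℂ (ℂ × ℂ) ((AlgHom.id ℝ ℂ).prodMap Complex.conjAe.toAlgHom)
    (fun a b h => by
      have e1 := congrArg Prod.fst h
      have e2 := congrArg Prod.snd h
      exact Prod.ext e1 (Complex.conjAe.injective e2)) (Fin 2)
    ![1, (Complex.I, -Complex.I)] (by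
      have : (fun i => ((AlgHom.id ℝ ℂ).prodMap Complex.conjAe.toAlgHom)
          (![1, (Complex.I, -Complex.I)] i)) = ![1, (Complex.I, Complex.I)] := by
        funext i
        fin_cases i
        · exact map_one _
        · change ((Complex.I, (starRingEnd ℂ) (-Complex.I)) : ℂ × ℂ) = (Complex.I, Complex.I)
          simp
      rw [this, LinearIndependent.pair_iff' one_ne_zero]
      intro h
      exact h Complex.I (by ext <;> simp))
  have hne : φ 1 ≠ 0 := fun h => one_ne_zero (hφ (h.trans (map_zero φ).symm))
  have e1 : (fun i => φ (![1, (Complex.I, Complex.I)] i)) =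
      ![φ 1, φ (Complex.I, Complex.I)] := by
    funext i; fin_cases i <;> rfl
  have e2 : (fun i => φ (![1, (Complex.I, -Complex.I)] i)) =
      ![φ 1, φ (Complex.I, -Complex.I)] := by
    funext i; fin_cases i <;> rfl
  rw [e1, LinearIndependent.pair_iff' hne] at h1
  rw [e2, LinearIndependent.pair_iff' hne] at h2
  push Not at h1 h2
  obtain ⟨a, ha⟩ := h1
  obtain ⟨b, hb⟩ := h2
  have hs : φ (Complex.I + Complex.I, 0) = (a + b) • φ 1 := by
    rw [add_smul, ha, hb, ← map_add]
    congr 1
    ext <;> simp
  have h01 : φ (0, 1) ≠ 0 := fun h => by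
    have := hφ (h.trans (map_zero φ).symm)
    simpa using congrArg Prod.snd this
  have hm : (a + b) • φ (0, 1) = 0 := by
    have : φ (Complex.I + Complex.I, 0) * φ (0, 1) = 0 := by
      rw [← map_mul]
      simp only [Prod.mk_mul_mk, mul_zero, zero_mul]
      exact map_zero φ
    rwa [hs, map_one, smul_mul_assoc, one_mul] at this
  have hab : a + b = 0 := (smul_eq_zero.mp hm).resolve_right h01
  rw [hab, zero_smul] at hs
  have := congrArg Prod.fst (hφ (hs.trans (map_zero φ).symm))
  simp at this

end Pool.Agent.S02098
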