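import Pool.Statements.S02168

set_option autoImplicit false
open Pool Pool.MP_864522_al

namespace Pool.Agent.S02168

open Set Equiv Cardinal

theorem ext0 (g : ℕ → ℕ) {U : Set ℕ} (h : InjOn g U) (h1 : Uᶜ.Infinite) (h2 : (g '' U)ᶜ.Infinite) :
    ∃ σ : Perm ℕ, ∀ x ∈ U, σ x = g x := by
  classical
  have := h1.to_subtype
  have := h2.to_subtype
  obtain ⟨e⟩ : Nonempty (↥Uᶜ ≃ ↥(g '' U)ᶜ) := nonempty_equiv_of_countable
  refine ⟨Equiv.subtypeCongr (p := (· ∈ U)) (q := (· ∈ g '' U)) (Equiv.Set.imageOfInjOn g U h) e,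
    fun x hx => ?_⟩
  simp [Equiv.subtypeCongr, hx, Equiv.sumCompl_symm_apply_of_pos, Equiv.Set.imageOfInjOn]

theorem ext1 (g : ℕ → ℕ) {U V : Set ℕ} (h : InjOn g U) (d1 : ∀ x ∈ U, x ∉ V)
    (d2 : ∀ x ∈ U, g x ∉ V) (h1 : (U ∪ V)ᶜ.Infinite) (h2 : (g '' U ∪ V)ᶜ.Infinite) :
    ∃ σ : Perm ℕ, (∀ x ∈ U, σ x = g x) ∧ ∀ x ∈ V, σ x = x := by
  classical
  obtain ⟨σ, hσ⟩ := ext0 (fun x => if x ∈ V then x else g x) (U := U ∪ V) (by
    intro a ha b hb e
    by_cases c : a ∈ V <;> by_cases d : b ∈ V <;> simp only [c, d, if_true, if_false] at e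
    · exact e
    · exact absurd (e ▸ c) (d2 b (hb.resolve_right d))
    · exact absurd (e ▸ d) (d2 a (ha.resolve_right c))
    · exact h (ha.resolve_right c) (hb.resolve_right d) e) h1 (h2.mono (compl_subset_compl.2 (by
    rintro _ ⟨x, hx, rfl⟩
    by_cases c : x ∈ V
    · exact Or.inr (by simpa [c] using c)
    · exact Or.inl ⟨x, hx.resolve_right c, by simp [c]⟩)))
  exact ⟨σ, fun x hx => by rw [hσ x (Or.inl hx), if_neg (d1 x hx)],
    fun x hx => by rw [hσ x (Or.inr hx), if_pos hx]⟩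

theorem half {Z : Set ℕ} (h : Z.Infinite) :
    ∃ j : ℕ → ℕ, Function.Injective j ∧ (∀ n, j n ∈ Z) ∧ (Z \ range j).Infinite := by
  let e := h.natEmbedding Z
  have inj : Function.Injective fun n => (e n : ℕ) := Subtype.val_injective.comp e.injective
  refine ⟨fun n => e (2 * n), fun a b k => by have := inj k; omega, fun n => (e _).2,
    infinite_of_injective_forall_mem (f := fun n => (e (2 * n + 1) : ℕ))
      (fun a b k => by have := inj k; omega) fun n => ⟨(e _).2, ?_⟩⟩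
  rintro ⟨m, k⟩
  have := inj k
  omega

theorem gen {M : Set ℕ} (h1 : M.Infinite) (h2 : Mᶜ.Infinite) : ∃ f : Perm ℕ,
    ∀ N : Subgroup (Perm ℕ), f ∈ N → (∀ s : Perm ℕ, (∀ x ∈ M, s x = x) → s ∈ N) → N = ⊤ := by
  obtain ⟨j, j1, j2, j3⟩ := half h2
  obtain ⟨f, hf⟩ := ext0 j j1.injOn h2 (h1.mono fun x hx ⟨y, _, e⟩ => j2 y (e ▸ hx))
  refine ⟨f, fun N fN h0 => ?_⟩
  have cj : ∀ (A B : Set ℕ) (ν : Perm ℕ), ν ∈ N → (∀ x ∈ A, ν x ∈ B) →
      (∀ s : Perm ℕ, (∀ x ∈ A, s x = x) → s ∈ N) → ∀ s : Perm ℕ, (∀ x ∈ B, s x = x) → s ∈ N := by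
    intro A B ν hν hA h s hs
    have := N.mul_mem (N.mul_mem hν (h (ν⁻¹ * s * ν) fun x hx => by simp [hs _ (hA x hx)]))
      (N.inv_mem hν)
    simpa [mul_assoc] using this
  have h0' := cj M (j '' M) f fN (fun x hx => ⟨x, hx, (hf x hx).symm⟩) h0
  have dj : ∀ x ∈ j '' M, x ∉ M := by
    rintro _ ⟨y, -, rfl⟩
    exact j2 y
  have R : (M ∪ j '' M)ᶜ.Infinite := j3.mono fun x hx k =>
    k.elim hx.1 fun k => hx.2 (image_subset_range _ _ k)
  have mv : ∀ A C B : Set ℕ, (∀ x ∈ A, x ∉ C) → (A ∪ C)ᶜ.Infinite → (B \ C).Infinite →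
      (∀ s : Perm ℕ, (∀ x ∈ A, s x = x) → s ∈ N) → (∀ s : Perm ℕ, (∀ x ∈ C, s x = x) → s ∈ N) →
      ∀ s : Perm ℕ, (∀ x ∈ B, s x = x) → s ∈ N := by
    intro A C B d r hB hA hC
    obtain ⟨i, i1, i2, i3⟩ := half hB
    obtain ⟨ν, n1, n2⟩ := ext1 i i1.injOn d (fun x _ => (i2 x).2) r (i3.mono fun x hx k =>
      k.elim (fun k => hx.2 (image_subset_range _ _ k)) hx.1.2)
    exact cj A B ν (hC ν n2) (fun x hx => n1 x hx ▸ (i2 x).1) hA
  have all : ∀ B : Set ℕ, B.Infinite → ∀ s : Perm ℕ, (∀ x ∈ B, s x = x) → s ∈ N := by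
    intro B hB
    by_cases c : (B \ M).Infinite
    · exact mv (j '' M) M B dj (union_comm _ _ ▸ R) c h0' h0
    · exact mv M (j '' M) B (fun x a b => dj x b a) R
        ((hB.sdiff (not_infinite.1 c)).mono fun x hx =>
          ⟨hx.1, fun k => hx.2 ⟨hx.1, dj x k⟩⟩) h0 h0'
  rw [eq_top_iff]
  intro s _
  obtain ⟨U, U1, U2⟩ : ∃ U : Set ℕ, U.Infinite ∧ (U ∪ s '' U)ᶜ.Infinite := by
    by_cases c : (M \ s ⁻¹' (j '' M)).Infinite
    · refine ⟨_, c, (h1.image j1.injOn).mono fun x hx k => ?_⟩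
      rcases k with k | ⟨y, k, rfl⟩
      · exact dj x hx k.1
      · exact k.2 hx
    · refine ⟨M ∩ s ⁻¹' (j '' M), (h1.sdiff (not_infinite.1 c)).mono fun x hx =>
        ⟨hx.1, by_contra fun k => hx.2 ⟨hx.1, k⟩⟩, R.mono (compl_subset_compl.2 ?_)⟩
      rintro x (k | ⟨y, k, rfl⟩)
      · exact Or.inl k.1
      · exact Or.inr k.2
  obtain ⟨i, i1, i2, i3⟩ := half U2
  obtain ⟨a, a1, a2⟩ := ext1 s (U := U) (V := range i) s.injective.injOn
    (by rintro _ hx ⟨n, rfl⟩; exact i2 n (Or.inl hx))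
    (by rintro x hx ⟨n, e⟩; exact i2 n (Or.inr ⟨x, hx, e.symm⟩))
    (i3.mono fun x hx k => k.elim (fun k => hx.1 (Or.inl k)) hx.2)
    (i3.mono fun x hx k => k.elim (fun k => hx.1 (Or.inr k)) hx.2)
  have := N.mul_mem (all _ (infinite_range_of_injective i1) a a2)
    (all U U1 (a⁻¹ * s) fun x hx => by simp [← a1 x hx])
  simpa using this

theorem hit {I : Type} (A : I → Set ℕ) (hA : ∀ y y', y ≠ y' → (A y ∩ A y').Finite)
    (P : Set (Perm ℕ)) : ∃ Z : Finset I, P.Finite → ∀ L : Finset (Perm ℕ × I),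
      (∀ p ∈ L, p.1 ∈ P) → {n | ∀ p ∈ L, p.1 n ∉ A p.2}.Finite → ∃ p ∈ L, p.2 ∈ Z := by
  classical
  by_contra h
  push Not at h
  choose hP c c1 c2 c3 using h
  have hP := hP ∅
  let Z : ℕ → Finset I := fun m => Nat.rec ∅ (fun _ Z => Z ∪ (c Z).image Prod.snd) m
  have mono : Monotone Z := monotone_nat_of_le_succ fun m => Finset.subset_union_left
  have ne : ∀ i k, i < k → ∀ p ∈ c (Z i), ∀ q ∈ c (Z k), p.2 ≠ q.2 := fun i k h p hp q hq e =>
    c3 _ q hq (mono h (Finset.mem_union_right _ (Finset.mem_image.2 ⟨p, hp, e⟩)))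
  have := hP.fintype
  let m := Fintype.card P + 1
  let T : Finset (Perm ℕ × I) := (Finset.range m).biUnion fun i => c (Z i)
  have f1 : (⋃ i ∈ Finset.range m, {n | ∀ p ∈ c (Z i), p.1 n ∉ A p.2}).Finite :=
    (Finset.finite_toSet _).biUnion fun i _ => c2 _
  have f2 : (⋃ p ∈ T, ⋃ q ∈ T, {n | p.2 ≠ q.2 ∧ p.1 n ∈ A p.2 ∩ A q.2}).Finite := by
    refine T.finite_toSet.biUnion fun p _ => T.finite_toSet.biUnion fun q _ => ?_
    by_cases e : p.2 = q.2
    · simp [e]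
    · exact ((hA _ _ e).preimage p.1.injective.injOn).subset fun n hn => hn.2
  obtain ⟨n, -, hn⟩ := infinite_univ.exists_notMem_finite (f1.union f2)
  simp only [mem_union, mem_iUnion, not_or, not_exists, mem_setOf_eq, not_forall, not_not] at hn
  choose p p1 p2 using fun i : Fin m => hn.1 i (Finset.mem_range.2 i.2)
  obtain ⟨i, k, ik, e⟩ := Fintype.exists_ne_map_eq_of_card_lt
    (fun i : Fin m => (⟨(p i).1, c1 _ _ (p1 i)⟩ : P)) (by simp [m])
  have e : (p i).1 = (p k).1 := congrArg Subtype.val e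
  have mT : ∀ i, p i ∈ T := fun i => Finset.mem_biUnion.2 ⟨i, Finset.mem_range.2 i.2, p1 i⟩
  refine hn.2 _ (mT i) _ (mT k) ⟨?_, p2 i, e ▸ p2 k⟩
  rcases lt_or_gt_of_ne ik with l | l
  · exact ne i k l _ (p1 i) _ (p1 k)
  · exact (ne k i l _ (p1 k) _ (p1 i)).symm

theorem ccl {s : Set (Perm ℕ)} (h : s.Countable) : (Subgroup.closure s : Set (Perm ℕ)).Countable := by
  have := h.to_subtype
  have : Countable (FreeGroup s) := inferInstanceAs (Countable (Quot _))
  refine (countable_range (FreeGroup.lift (Subtype.val : s → Perm ℕ))).mono fun x hx => ?_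
  have : Subgroup.closure s ≤ (FreeGroup.lift (Subtype.val : s → Perm ℕ)).range :=
    (Subgroup.closure_le _).2 fun y hy => ⟨FreeGroup.of ⟨y, hy⟩, by simp⟩
  exact this hx

theorem sideG {I : Type} [Uncountable I] (A : I → Set ℕ)
    (hA : ∀ y y', y ≠ y' → (A y ∩ A y').Finite) (g x : I → Perm ℕ)
    (hg : ∀ y n, n ∉ A y → g y n = n) (hx : ∀ y y', y ≠ y' → {n | x y n = x y' n}.Finite)
    {F : Set (Perm ℕ)} (hF : F.Countable) : Subgroup.closure (range g ∪ F) ≠ ⊤ := by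
  classical
  intro top
  choose Z hZ using hit A hA
  let K : Set I → Subgroup (Perm ℕ) := fun Y => Subgroup.closure (g '' Y ∪ F)
  let Y : ℕ → Set I := fun n => Nat.rec ∅
    (fun _ Y => Y ∪ ⋃ P ∈ {P : Set (Perm ℕ) | P.Finite ∧ P ⊆ K Y}, (Z P : Set I)) n
  have cK : ∀ Y : Set I, Y.Countable → (K Y : Set (Perm ℕ)).Countable := fun Y h =>
    ccl ((h.image g).union hF)
  have cY : ∀ n, (Y n).Countable := by
    intro n
    induction n with
    | zero => exact countable_empty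
    | succ n ih =>
      exact ih.union ((countable_setOf_finite_subset (cK _ ih)).biUnion fun P _ =>
        (Z P).countable_toSet)
  have mY : Monotone Y := monotone_nat_of_le_succ fun n => subset_union_left
  have mK : ∀ {n k}, n ≤ k → K (Y n) ≤ K (Y k) := fun h =>
    Subgroup.closure_mono (union_subset_union_left _ (image_mono (mY h)))
  let Q : Perm ℕ → Prop := fun π => ∃ n, π ∈ K (Y n)
  have Qm : ∀ a b, Q a → Q b → Q (a * b) := fun a b ⟨n, h⟩ ⟨k, h'⟩ =>
    ⟨max n k, mul_mem (mK (le_max_left _ _) h) (mK (le_max_right _ _) h')⟩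
  have Q1 : Q 1 := ⟨0, one_mem _⟩
  let J : Set ℕ → Prop := fun D => ∃ L : Finset (Perm ℕ × I),
    (∀ p ∈ L, Q p.1 ∧ ∀ n, p.2 ∉ Y n) ∧ {n ∈ D | ∀ p ∈ L, p.1 n ∉ A p.2}.Finite
  have Jf : ∀ D : Set ℕ, D.Finite → J D := fun D h => ⟨∅, by simp, h.subset fun n hn => hn.1⟩
  have Ju : ∀ D E C : Set ℕ, J D → J E → C ⊆ D ∪ E → J C := by
    rintro D E C ⟨L, a, b⟩ ⟨L', a', b'⟩ h
    refine ⟨L ∪ L', fun p hp => (Finset.mem_union.1 hp).elim (a p) (a' p),
      (b.union b').subset fun n hn => (h hn.1).imp (fun k => ⟨k, fun p hp => hn.2 p ?_⟩)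
        fun k => ⟨k, fun p hp => hn.2 p ?_⟩⟩
    · exact Finset.mem_union_left _ hp
    · exact Finset.mem_union_right _ hp
  have Jp : ∀ (D : Set ℕ) κ, Q κ → J D → J (κ ⁻¹' D) := by
    rintro D κ hκ ⟨L, a, b⟩
    refine ⟨L.image fun p => (p.1 * κ, p.2), fun q hq => ?_,
      (b.preimage κ.injective.injOn).subset fun n hn => ⟨hn.1, fun p hp =>
        hn.2 (p.1 * κ, p.2) (Finset.mem_image_of_mem _ hp)⟩⟩
    obtain ⟨p, hp, rfl⟩ := Finset.mem_image.1 hq
    exact ⟨Qm _ _ (a p hp).1 hκ, (a p hp).2⟩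
  have nJ : ¬ J univ := by
    rintro ⟨L, a, b⟩
    choose! nn hnn using fun p (hp : p ∈ L) => (a p hp).1
    have fP : (Prod.fst '' (L : Set (Perm ℕ × I))).Finite := L.finite_toSet.image _
    obtain ⟨p, hp, e⟩ := hZ _ fP L (fun p hp => ⟨p, hp, rfl⟩) (by simpa using b)
    refine (a p hp).2 (L.sup nn + 1) (Or.inr (mem_iUnion₂.2 ⟨_, ⟨fP, ?_⟩, e⟩))
    rintro _ ⟨q, hq, rfl⟩
    exact mK (Finset.le_sup hq) (hnn q hq)
  have ag : ∀ σ ∈ Subgroup.closure (range g ∪ F), ∃ κ, Q κ ∧ J {n | σ n ≠ κ n} := by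
    intro σ hσ
    induction hσ using Subgroup.closure_induction with
    | mem σ h =>
      rcases h with ⟨y, rfl⟩ | h
      · rcases Classical.em (∃ n, y ∈ Y n) with c | c
        · obtain ⟨n, c⟩ := c
          exact ⟨_, ⟨n, Subgroup.subset_closure (Or.inl ⟨y, c, rfl⟩)⟩, Jf _ (by simp)⟩
        · refine ⟨1, Q1, {(1, y)}, by simpa [Q1] using c, finite_empty.subset fun n hn => ?_⟩
          exact hn.1 (hg y n (by simpa using hn.2))
      · exact ⟨σ, ⟨0, Subgroup.subset_closure (Or.inr h)⟩, Jf _ (by simp)⟩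
    | one => exact ⟨1, Q1, Jf _ (by simp)⟩
    | mul a b _ _ ha hb =>
      obtain ⟨κ, k1, k2⟩ := ha
      obtain ⟨κ', k3, k4⟩ := hb
      refine ⟨κ * κ', Qm _ _ k1 k3, Ju _ _ _ k4 (Jp _ κ' k3 k2) fun n hn => ?_⟩
      by_contra c
      simp only [mem_union, mem_setOf_eq, mem_preimage, not_or, not_not] at c
      exact hn (by simp [c.1, c.2])
    | inv a _ ha =>
      obtain ⟨κ, ⟨m, k1⟩, k2⟩ := ha
      have := Jp _ κ⁻¹ ⟨m, inv_mem k1⟩ k2
      refine ⟨κ⁻¹, ⟨m, inv_mem k1⟩, Ju _ _ _ this this fun n hn => Or.inl fun e => hn ?_⟩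
      rw [Perm.inv_eq_iff_eq, e]
      simp
  choose κ k1 k2 using fun y => ag (x y) (top ▸ Subgroup.mem_top _)
  have cQ : {π | Q π}.Countable :=
    (countable_iUnion fun n => cK _ (cY n)).mono fun π ⟨n, h⟩ => mem_iUnion.2 ⟨n, h⟩
  have := cQ.to_subtype
  obtain ⟨y, y', e, ne⟩ := Function.not_injective_iff.1
    (not_injective_uncountable_countable fun y => (⟨κ y, k1 y⟩ : {π | Q π}))
  have e : κ y = κ y' := congrArg Subtype.val e
  refine nJ (Ju _ _ _ (Ju _ _ _ (k2 y) (k2 y') Subset.rfl) (Jf _ (hx y y' ne)) fun n _ => ?_)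
  by_contra c
  simp only [mem_union, mem_setOf_eq, not_or, not_not] at c
  exact c.2 (by rw [c.1.1, c.1.2, e])

theorem sideH {I : Type} (lv z : ℕ → ℕ) (h1 : ∀ m, {n | lv n ≤ m}.Finite) (hz : ∀ k, lv (z k) = k)
    (x : I → Perm ℕ) (hx : ∀ y n, lv (x y n) = lv n) {F : Set (Perm ℕ)} (hF : F.Finite) :
    Subgroup.closure (range x ∪ F) ≠ ⊤ := by
  intro top
  have : ∀ m, ∃ B, ∀ σ ∈ F, ∀ n, lv n ≤ m → lv (σ n) ≤ B ∧ lv (σ⁻¹ n) ≤ B := fun m => by
    obtain ⟨B, hB⟩ := ((hF.prod (h1 m)).image fun p => lv (p.1 p.2) + lv (p.1⁻¹ p.2)).bddAbove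
    refine ⟨B, fun σ a n b => ?_⟩
    have : lv (σ n) + lv (σ⁻¹ n) ≤ B := hB ⟨(σ, n), ⟨a, b⟩, rfl⟩
    omega
  choose β hβ using this
  have bd : ∀ σ ∈ Subgroup.closure (range x ∪ F), ∃ k, ∀ m n, lv n ≤ m →
      lv (σ n) ≤ β^[k] m ∧ lv (σ⁻¹ n) ≤ β^[k] m := by
    intro σ hσ
    induction hσ using Subgroup.closure_induction with
    | mem σ h =>
      rcases h with ⟨y, rfl⟩ | h
      · refine ⟨0, fun m n h => ⟨(hx y n).le.trans h, ?_⟩⟩
        rw [← hx y]
        simpa using h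
      · exact ⟨1, fun m n => hβ m σ h n⟩
    | one => exact ⟨0, fun m n h => ⟨h, h⟩⟩
    | mul a b _ _ ha hb =>
      obtain ⟨k, hk⟩ := ha
      obtain ⟨l, hl⟩ := hb
      refine ⟨k + l, fun m n h => ⟨?_, ?_⟩⟩
      · rw [Function.iterate_add_apply]
        exact (hk _ _ (hl m n h).1).1
      · rw [add_comm, Function.iterate_add_apply, mul_inv_rev]
        exact (hl _ _ (hk m n h).2).2
    | inv a _ ha => exact ha.imp fun k hk m n h => (hk m n h).symm
  let u : ℕ → ℕ := fun k => Nat.rec 0 (fun k a => a + β^[k / 2] a + 1) k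
  have hu : ∀ k, u (k + 1) = u k + β^[k / 2] (u k) + 1 := fun k => rfl
  have mu : StrictMono u := strictMono_nat_of_lt_succ fun k => by rw [hu]; omega
  let s : Perm ℕ := Function.Involutive.toPerm (fun n => if n % 2 = 0 then n + 1 else n - 1)
    fun n => by dsimp only; split_ifs <;> omega
  let ι : ℕ ↪ ℕ := ⟨fun k => z (u k), fun a b e => mu.injective (by rw [← hz (u a), ← hz (u b)]; exact congrArg lv e)⟩
  obtain ⟨k, hk⟩ := bd (s.viaEmbedding ι) (top ▸ Subgroup.mem_top _)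
  have := (hk (u (2 * k)) (ι (2 * k)) (hz _).le).1
  rw [Perm.viaEmbedding_apply, show s (2 * k) = 2 * k + 1 by simp [s]] at this
  have e : lv (ι (2 * k + 1)) = u (2 * k + 1) := hz _
  rw [e, hu, show 2 * k / 2 = k by omega] at this
  omega

def xr (y : ℕ → Bool) : List Bool → List Bool
  | [] => []
  | b :: p => xor b (y p.length) :: xr y p

theorem xr_len (y : ℕ → Bool) : ∀ p, (xr y p).length = p.length
  | [] => rfl
  | b :: p => by simp [xr, xr_len y p]

theorem xr_inv (y : ℕ → Bool) : ∀ p, xr y (xr y p) = p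
  | [] => rfl
  | b :: p => by simp [xr, xr_len, xr_inv y p]

theorem xr_eq {y y' : ℕ → Bool} : ∀ p, xr y p = xr y' p → ∀ i < p.length, y i = y' i
  | [] => by simp
  | b :: p => by
    intro h i hi
    simp only [xr, List.cons.injEq] at h
    rcases Nat.lt_succ_iff_lt_or_eq.1 hi with k | rfl
    · exact xr_eq p h.2 i k
    · simpa using h.1

/-- The negation of the preceding statement: If two subgroups G and H together generate the full permutation group of ℕ, then for some finite set U of permutations, either G together with U or H together with U generates the whole group. -/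
theorem result :
    ¬ (∀ G H : Subgroup (Equiv.Perm ℕ), G ⊔ H = ⊤ →
      ∃ U : Finset (Equiv.Perm ℕ),
        G ⊔ Subgroup.closure (↑U : Set (Equiv.Perm ℕ)) = ⊤ ∨
        H ⊔ Subgroup.closure (↑U : Set (Equiv.Perm ℕ)) = ⊤) := by
  classical
  intro h
  obtain ⟨e⟩ : Nonempty (List Bool ≃ ℕ) := nonempty_equiv_of_countable
  let lv : ℕ → ℕ := fun n => (e.symm n).length
  let z : ℕ → ℕ := fun k => e (List.replicate k false)
  let x : (ℕ → Bool) → Perm ℕ := fun y => e.permCongr (Function.Involutive.toPerm _ (xr_inv y))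
  have h1 : ∀ m, {n | lv n ≤ m}.Finite := fun m =>
    (List.finite_length_le Bool m).preimage e.symm.injective.injOn
  have hz : ∀ k, lv (z k) = k := fun k => by simp [lv, z]
  have hx : ∀ y n, lv (x y n) = lv n := fun y n => by simp [lv, x, xr_len]
  have hd : ∀ y y', y ≠ y' → {n | x y n = x y' n}.Finite := fun y y' ne => by
    obtain ⟨i, hi⟩ := Function.ne_iff.1 ne
    refine (h1 i).subset fun n hn => not_lt.1 fun k => hi (xr_eq (e.symm n) ?_ i k)
    simpa [x] using hn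
  have zi : Function.Injective z := fun a b k => by rw [← hz a, ← hz b, k]
  obtain ⟨f, hf⟩ := gen (M := (range z)ᶜ) (infinite_of_injective_forall_mem
    (f := fun k => e (true :: List.replicate k false)) (fun a b k => by simpa using k) (by
      rintro k ⟨m, hm⟩
      have := e.injective hm
      cases m <;> simp [List.replicate_succ] at this))
    (by rw [compl_compl]; exact infinite_range_of_injective zi)
  obtain ⟨ψ, hψ⟩ : ∃ ψ : (ℕ → Bool) → Perm ℕ, Function.Surjective ψ := by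
    have : #(Perm ℕ) ≤ #(ℕ → Bool) :=
      (mk_le_of_injective (f := fun s : Perm ℕ => (s : ℕ → ℕ)) DFunLike.coe_injective).trans (by simp)
    obtain ⟨i⟩ := (Cardinal.le_def _ _).1 this
    exact ⟨_, Function.invFun_surjective i.injective⟩
  let s : (ℕ → Bool) → Perm ℕ := fun y => if ∀ n ∈ (range z)ᶜ, ψ y n = n then ψ y else 1
  have hs : ∀ y, ∀ n ∈ (range z)ᶜ, s y n = n := fun y n hn => by
    simp only [s]
    split_ifs with c
    · exact c n hn
    · rfl
  let g : (ℕ → Bool) → Perm ℕ := fun y => x y * s y * (x y)⁻¹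
  obtain ⟨U, hU⟩ := h (Subgroup.closure (range g)) (Subgroup.closure (range x ∪ {f})) (by
    refine hf _ (Subgroup.mem_sup_right (Subgroup.subset_closure (Or.inr rfl))) fun t ht => ?_
    obtain ⟨y, rfl⟩ := hψ t
    have a : x y ∈ Subgroup.closure (range g) ⊔ Subgroup.closure (range x ∪ {f}) :=
      Subgroup.mem_sup_right (Subgroup.subset_closure (Or.inl ⟨y, rfl⟩))
    have := mul_mem (mul_mem (inv_mem a)
      (Subgroup.mem_sup_left (Subgroup.subset_closure ⟨y, rfl⟩))) a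
    have e' : (x y)⁻¹ * g y * x y = ψ y := by
      have : s y = ψ y := if_pos ht
      simp [g, this, mul_assoc]
    rwa [e'] at this)
  rw [← Subgroup.closure_union, ← Subgroup.closure_union, union_assoc] at hU
  have : Uncountable (ℕ → Bool) := aleph0_lt_mk_iff.1 (by simpa using aleph0_lt_continuum)
  refine hU.elim (sideG (fun y => x y '' range z) (fun y y' ne => ?_) g x (fun y n hn => ?_) hd
    U.countable_toSet) (sideH lv z h1 hz x hx ((finite_singleton f).union U.finite_toSet))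
  · refine ((hd y y' ne).image (x y)).subset ?_
    rintro _ ⟨⟨_, ⟨k, rfl⟩, rfl⟩, _, ⟨k', rfl⟩, e'⟩
    have : k' = k := by rw [← hz k', ← hz k, ← hx y' (z k'), e', hx]
    exact ⟨z k, (this ▸ e' : x y' (z k) = x y (z k)).symm, rfl⟩
  · simp only [g, Perm.mul_apply]
    rw [hs y _ fun k => hn ⟨_, k, by simp⟩]
    simp

end Pool.Agent.S02168
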