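import Pool.Statements.S02188
-- import your own Pool.Agent.* helpers here

set_option autoImplicit false
open Cardinal
open Pool Pool.MP_8859ef_al

namespace Pool.Agent.S02188

open Set Filter Topology

/-- The topology of pointwise convergence for a faithful action on a discrete set. -/
theorem actTop {G X : Type} [Group G] (act : G → X → X) (h1 : ∀ x, act 1 x = x)
    (hm : ∀ g h x, act (g * h) x = act g (act h x)) (hf : ∀ g h, (∀ x, act g x = act h x) → g = h)
    (E : Set G) (hE : ∀ S : Finset X, ∃ g ∈ E, ∀ x ∈ S, act g x = x) :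
    ∃ t : TopologicalSpace G, @IsTopologicalGroup G t _ ∧ @T2Space G t ∧ (1 : G) ∈ @closure G t E := by
  classical
  letI : TopologicalSpace X := ⊥
  haveI : DiscreteTopology X := ⟨rfl⟩
  letI t : TopologicalSpace G := TopologicalSpace.induced act inferInstance
  have hc : Continuous act := continuous_induced_dom
  have hop : ∀ x y, IsOpen {g : G | act g x = y} := by
    intro x y
    exact (isOpen_discrete {y}).preimage ((continuous_apply x).comp hc)
  have hmul : Continuous (fun p : G × G => p.1 * p.2) := by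
    refine continuous_induced_rng.2 (continuous_pi fun x => ?_)
    refine continuous_discrete_rng.2 fun y => ?_
    have : (fun p : G × G => (act ∘ fun p : G × G => p.1 * p.2) p x) ⁻¹' {y} =
        ⋃ w, (Prod.fst ⁻¹' {g : G | act g w = y}) ∩ (Prod.snd ⁻¹' {g : G | act g x = w}) := by
      ext p
      simp only [mem_preimage, Function.comp, mem_singleton_iff, mem_iUnion, mem_inter_iff,
        Set.mem_ofPred_eq, hm]
      constructor
      · intro h
        exact ⟨_, h, rfl⟩
      · rintro ⟨w, h, rfl⟩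
        exact h
    rw [this]
    exact isOpen_iUnion fun w =>
      ((hop w y).preimage continuous_fst).inter ((hop x w).preimage continuous_snd)
  have hinv : Continuous (fun g : G => g⁻¹) := by
    refine continuous_induced_rng.2 (continuous_pi fun x => ?_)
    refine continuous_discrete_rng.2 fun y => ?_
    have : (fun p : G => (act ∘ fun p : G => p⁻¹) p x) ⁻¹' {y} = {g : G | act g y = x} := by
      ext g
      simp only [mem_preimage, Function.comp, mem_singleton_iff, Set.mem_ofPred_eq]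
      constructor
      · rintro rfl
        rw [← hm, mul_inv_cancel, h1]
      · rintro rfl
        rw [← hm, inv_mul_cancel, h1]
    rw [this]
    exact hop y x
  have hinj : Function.Injective act := fun g h e => hf g h (fun x => congrFun e x)
  refine ⟨t, { continuous_mul := hmul, continuous_inv := hinv },
    (Topology.IsEmbedding.mk ⟨rfl⟩ hinj).t2Space, ?_⟩
  rw [mem_closure_iff_nhds]
  intro N hN
  rw [nhds_induced, mem_comap] at hN
  obtain ⟨M, hM, hMN⟩ := hN
  rw [nhds_pi, Filter.mem_pi'] at hM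
  obtain ⟨I, u, hu, hI⟩ := hM
  obtain ⟨g, hg, hgI⟩ := hE I
  refine ⟨g, hMN (hI ?_), hg⟩
  intro x hx
  have := mem_of_mem_nhds (hu x)
  rw [h1] at this
  rw [hgI x hx]
  exact this

abbrev F : Type := ZMod 2
abbrev V : Type := ℕ →₀ F
abbrev W : Type := F × V × F
abbrev GG : Type := W ≃ₗ[F] W

/-- The unipotent automorphism `1 + θ` for `θ ∘ θ = 0`. -/
noncomputable def mkN (θ : W →ₗ[F] W) (h : ∀ x, θ (θ x) = 0) : GG :=
  { (LinearMap.id + θ : W →ₗ[F] W) with
    invFun := fun x => x - θ x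
    left_inv := fun x => by simp [h]
    right_inv := fun x => by simp [h] }

theorem mkN_apply (θ : W →ₗ[F] W) (h : ∀ x, θ (θ x) = 0) (x : W) : mkN θ h x = x + θ x := rfl

theorem mkN_symm (θ : W →ₗ[F] W) (h : ∀ x, θ (θ x) = 0) (x : W) :
    (mkN θ h).symm x = x - θ x := rfl

noncomputable def thA (u : V) : W →ₗ[F] W where
  toFun x := (0, x.2.2 • u, 0)
  map_add' x y := by simp [add_smul]
  map_smul' c x := by simp [mul_smul]

noncomputable def thB (ψ : V →ₗ[F] F) : W →ₗ[F] W where
  toFun x := (ψ x.2.1, 0, 0)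
  map_add' x y := by simp
  map_smul' c x := by simp

noncomputable def thZ : W →ₗ[F] W where
  toFun x := (x.2.2, 0, 0)
  map_add' x y := by simp
  map_smul' c x := by simp

noncomputable def thG (η : V →ₗ[F] V) : W →ₗ[F] W where
  toFun x := (0, η x.2.1, 0)
  map_add' x y := by simp
  map_smul' c x := by simp

noncomputable def tA (u : V) : GG := mkN (thA u) (fun x => by simp [thA])
noncomputable def tB (ψ : V →ₗ[F] F) : GG := mkN (thB ψ) (fun x => by simp [thB])
noncomputable def tZ : GG := mkN thZ (fun x => by simp [thZ])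
noncomputable def tG (η : V →ₗ[F] V) (h : ∀ v, η (η v) = 0) : GG :=
  mkN (thG η) (fun x => by simp [thG, h])

theorem tA_apply (u : V) (x : W) : tA u x = (x.1, x.2.1 + x.2.2 • u, x.2.2) := by
  simp [tA, mkN_apply, thA, Prod.ext_iff]

theorem tB_apply (ψ : V →ₗ[F] F) (x : W) : tB ψ x = (x.1 + ψ x.2.1, x.2.1, x.2.2) := by
  simp [tB, mkN_apply, thB, Prod.ext_iff]

theorem tZ_apply (x : W) : tZ x = (x.1 + x.2.2, x.2.1, x.2.2) := by
  simp [tZ, mkN_apply, thZ, Prod.ext_iff]

theorem tG_apply (η : V →ₗ[F] V) (h : ∀ v, η (η v) = 0) (x : W) :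
    tG η h x = (x.1, x.2.1 + η x.2.1, x.2.2) := by
  simp [tG, mkN_apply, thG, Prod.ext_iff]

theorem tZ_ne : tZ ≠ 1 := by
  intro h
  have := congrArg (fun g : GG => (g (0, 0, 1)).1) h
  simp [tZ_apply] at this

theorem tB_inj : Function.Injective tB := by
  intro ψ φ h
  refine LinearMap.ext fun v => ?_
  have := congrArg (fun g : GG => (g (0, v, 0)).1) h
  simpa [tB_apply] using this

theorem tB_zero : tB 0 = 1 := by
  refine LinearEquiv.ext fun x => ?_
  simp [tB_apply]

theorem comm_rel (u : V) (ψ : V →ₗ[F] F) (h : ψ u = 1) : tB ψ * tA u = tZ * (tA u * tB ψ) := by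
  refine LinearEquiv.ext fun x => ?_
  simp only [LinearEquiv.mul_apply, tA_apply, tB_apply, tZ_apply, map_add, map_smul, h,
    smul_eq_mul, mul_one, add_assoc]

theorem conj_rel (η : V →ₗ[F] V) (h : ∀ v, η (η v) = 0) (u : V) :
    tG η h * tA u = tA (u + η u) * tG η h := by
  refine LinearEquiv.ext fun x => ?_
  simp only [LinearEquiv.mul_apply, tA_apply, tG_apply, map_add, map_smul, smul_add]
  refine Prod.ext rfl (Prod.ext ?_ rfl)
  dsimp only
  abel

def EA : Set GG := {g | ∃ u, u ≠ 0 ∧ g = tA u}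
def EB : Set GG := {g | ∃ ψ, ψ ≠ 0 ∧ g = tB ψ}

theorem topB : ∃ t : TopologicalSpace GG, @IsTopologicalGroup GG t _ ∧ @T2Space GG t ∧
    (1 : GG) ∈ @closure GG t EB := by
  classical
  refine actTop (fun (g : GG) (x : W) => g x) (fun _ => rfl) (fun _ _ _ => rfl)
    (fun g h e => LinearEquiv.ext e) EB ?_
  intro S
  obtain ⟨n, hn⟩ := Infinite.exists_notMem_finset (S.biUnion fun x => x.2.1.support)
  refine ⟨tB (Finsupp.lapply n), ⟨_, ?_, rfl⟩, ?_⟩
  · intro h
    have := LinearMap.congr_fun h (Finsupp.single n 1)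
    simp at this
  · intro x hx
    have : x.2.1 n = 0 := by
      by_contra h
      exact hn (Finset.mem_biUnion.2 ⟨x, hx, Finsupp.mem_support_iff.2 h⟩)
    simp [tB_apply, this]

theorem topA : ∃ t : TopologicalSpace GG, @IsTopologicalGroup GG t _ ∧ @T2Space GG t ∧
    (1 : GG) ∈ @closure GG t EA := by
  classical
  refine actTop (fun (g : GG) (f : W →ₗ[F] F) => f ∘ₗ (g.symm : W →ₗ[F] W)) (fun _ => rfl)
    (fun _ _ _ => rfl) ?_ EA ?_
  · intro g h e
    have : g.symm = h.symm := by
      refine LinearEquiv.ext fun x => ?_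
      rw [← sub_eq_zero, ← Module.forall_dual_apply_eq_zero_iff F]
      intro φ
      have := LinearMap.congr_fun (e φ) x
      rw [map_sub, sub_eq_zero]
      exact this
    rw [← g.symm_symm, this, LinearEquiv.symm_symm]
  · intro S
    obtain ⟨u, v, huv, e⟩ := Finite.exists_ne_map_eq_of_infinite
      (fun (u : V) (f : S) => f.1 (0, u, 0))
    refine ⟨tA (u - v), ⟨_, sub_ne_zero.2 huv, rfl⟩, ?_⟩
    intro f hf
    refine LinearMap.ext fun x => ?_
    have e1 : f (0, u, 0) = f (0, v, 0) := congrFun e ⟨f, hf⟩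
    have e2 : thA (u - v) x = x.2.2 • (((0, u, 0) : W) - (0, v, 0)) := by
      simp [thA]
    show f ((tA (u - v)).symm x) = f x
    rw [tA, mkN_symm, map_sub, e2, map_smul, map_sub, e1, sub_self, smul_zero, sub_zero]

theorem exists_eta (B : Set (V →ₗ[F] F)) (hB : B.Infinite) :
    ∃ η : V →ₗ[F] V, (∀ v, η (η v) = 0) ∧
      ∀ u, (∀ ψ ∈ B, ψ u = 0) → (∀ ψ ∈ B, ψ (η u) = 0) → u = 0 := by
  let A : Submodule F V := ⨅ ψ ∈ B, LinearMap.ker ψ
  have hA : ∀ u, u ∈ A ↔ ∀ ψ ∈ B, ψ u = 0 := by
    intro u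
    simp [A]
  obtain ⟨C, hC⟩ := Submodule.exists_isCompl A
  have hinf : ¬ Module.Finite F C := by
    intro hfin
    haveI : Finite C := Module.finite_of_finite F
    haveI : Finite (C →ₗ[F] F) := Finite.of_injective _ DFunLike.coe_injective
    apply hB
    refine Set.Finite.of_finite_image (f := fun ψ : V →ₗ[F] F => ψ ∘ₗ C.subtype)
      (Set.toFinite _) ?_
    intro ψ hψ φ hφ e
    refine LinearMap.ext fun v => ?_
    obtain ⟨a, c, rfl, -⟩ := Submodule.existsUnique_add_of_isCompl hC v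
    have e1 : ψ c = φ c := LinearMap.congr_fun e c
    rw [map_add, map_add, (hA a).1 a.2 ψ hψ, (hA a).1 a.2 φ hφ, e1]
  have hr : Module.rank F A ≤ Module.rank F C := by
    have h1 : ℵ₀ ≤ Module.rank F C := by
      by_contra h
      exact hinf (Module.rank_lt_aleph0_iff.1 (not_le.1 h))
    refine (Submodule.rank_le A).trans (le_trans ?_ h1)
    simp
  obtain ⟨j, hj⟩ := rank_le_iff_exists_linearMap.1 hr
  refine ⟨C.subtype ∘ₗ j ∘ₗ A.projectionOnto C hC, ?_, ?_⟩
  · intro v
    simp
  · intro u hu hu'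
    have h1 : (j (A.projectionOnto C hC u) : V) ∈ A ⊓ C :=
      ⟨(hA _).2 hu', (j _).2⟩
    rw [hC.inf_eq_bot, Submodule.mem_bot] at h1
    have h2 : j (A.projectionOnto C hC u) = 0 := Subtype.ext h1
    have h3 : A.projectionOnto C hC u = 0 := hj (by rw [h2, map_zero])
    rw [Submodule.projectionOnto_apply_of_mem_left hC ((hA u).2 hu)] at h3
    exact congrArg Subtype.val h3

theorem not_both [TopologicalSpace GG] [IsTopologicalGroup GG] [T2Space GG]
    (hA : (1 : GG) ∈ closure EA) (hB : (1 : GG) ∈ closure EB) : False := by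
  have hc : Continuous (fun p : GG × GG => p.1 * p.2 * (p.2 * p.1)⁻¹) := by fun_prop
  have h0 : (fun p : GG × GG => p.1 * p.2 * (p.2 * p.1)⁻¹) ⁻¹' {tZ}ᶜ ∈ 𝓝 ((1 : GG), (1 : GG)) := by
    refine (isOpen_compl_singleton.preimage hc).mem_nhds ?_
    simpa using tZ_ne.symm
  obtain ⟨N1, hN1, N2, hN2, hN⟩ := mem_nhds_prod_iff.1 h0
  have horth : ∀ ψ u, tB ψ ∈ N1 → tA u ∈ N2 → ψ u = 0 := by
    intro ψ u h1 h2
    by_contra h
    have h' : ψ u = 1 := by
      generalize ψ u = c at h
      revert c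
      decide
    have := hN (mk_mem_prod h1 h2)
    apply this
    show tB ψ * tA u * (tA u * tB ψ)⁻¹ = tZ
    rw [comm_rel u ψ h', mul_inv_cancel_right]
  have hinf : {ψ | tB ψ ∈ N1}.Infinite := by
    intro hfin
    have hcl : IsClosed (tB '' ({ψ | tB ψ ∈ N1} \ {0})) :=
      ((hfin.subset diff_subset).image _).isClosed
    have h1 : (tB '' ({ψ | tB ψ ∈ N1} \ {0}))ᶜ ∈ 𝓝 (1 : GG) := by
      refine hcl.isOpen_compl.mem_nhds ?_
      rintro ⟨ψ, ⟨_, h2⟩, h3⟩
      exact h2 (tB_inj (h3.trans tB_zero.symm))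
    obtain ⟨g, ⟨hg1, hg2⟩, ψ, hψ, rfl⟩ := mem_closure_iff_nhds.1 hB _ (inter_mem hN1 h1)
    exact hg2 ⟨ψ, ⟨hg1, hψ⟩, rfl⟩
  obtain ⟨η, hη, hη'⟩ := exists_eta _ hinf
  have hc2 : Continuous (fun x : GG => tG η hη * x * (tG η hη)⁻¹) := by fun_prop
  have h2 : (fun x : GG => tG η hη * x * (tG η hη)⁻¹) ⁻¹' N2 ∈ 𝓝 (1 : GG) := by
    apply hc2.continuousAt.preimage_mem_nhds
    simpa using hN2
  obtain ⟨g, ⟨hg1, hg2⟩, u, hu, rfl⟩ := mem_closure_iff_nhds.1 hA _ (inter_mem hN2 h2)
  have hg3 : tA (u + η u) ∈ N2 := by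
    have : tG η hη * tA u * (tG η hη)⁻¹ ∈ N2 := hg2
    rwa [conj_rel, mul_inv_cancel_right] at this
  apply hu
  refine hη' u (fun ψ hψ => horth ψ u hψ hg1) (fun ψ hψ => ?_)
  have e1 := horth ψ u hψ hg1
  have e2 := horth ψ _ hψ hg3
  rwa [map_add, e1, zero_add] at e2

/-- The negation of the preceding statement: For every group G of cardinality at most 2^continuum and every countable family of subsets of G, some Hausdorff group topology on G gives each set in the family the same closure as the Markov topology (intersection of all Hausdorff group topologies). -/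
theorem result :
    ¬ (∀ (G : Type) [Group G], Cardinal.mk G ≤ 2 ^ Cardinal.continuum →
      ∀ (E : Set (Set G)), E.Countable →
        ∃ t : TopologicalSpace G, @IsTopologicalGroup G t _ ∧ @T2Space G t ∧
          ∀ e ∈ E, @closure G t e =
            @closure G (sSup {s : TopologicalSpace G | @IsTopologicalGroup G s _ ∧ @T2Space G s}) e) := by
  intro H
  have hcard : Cardinal.mk GG ≤ 2 ^ Cardinal.continuum := by
    have h1 : Cardinal.mk GG ≤ Cardinal.mk (W → W) :=
      Cardinal.mk_le_of_injective (f := fun (g : GG) (x : W) => g x) DFunLike.coe_injective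
    refine h1.trans (le_trans ?_ (Cardinal.cantor _).le)
    rw [← Cardinal.power_def, Cardinal.mk_eq_aleph0 W, Cardinal.aleph0_power_aleph0]
  obtain ⟨t, ht1, ht2, ht⟩ := H GG hcard {EA, EB} (Set.toFinite _).countable
  obtain ⟨a, ha1, ha2, ha⟩ := topA
  obtain ⟨b, hb1, hb2, hb⟩ := topB
  refine @not_both t ht1 ht2 ?_ ?_
  · rw [ht EA (by simp)]
    refine closure.mono (t₁ := a) (le_sSup ?_) ha
    exact ⟨ha1, ha2⟩
  · rw [ht EB (by simp)]
    refine closure.mono (t₁ := b) (le_sSup ?_) hb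
    exact ⟨hb1, hb2⟩

end Pool.Agent.S02188
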