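import Pool.Statements.S02194

set_option autoImplicit false
open Pool Pool.MP_8999af_al

namespace Pool.Agent.S02194

abbrev A : Type := ℕ → ZMod 2

theorem aa (x : A) : x + x = 0 := funext fun _ => CharTwo.add_self_eq_zero _

def E : Set A := Set.range fun n : ℕ => (Pi.single n 1 : A)

/-- a stage of the construction -/
structure St where
  P : Type
  en : A → P → P
  ln : A → P → ℕ
  en_en : ∀ x p, x ≠ 0 → en x (en x p) = p
  ln_en : ∀ x p, x ≠ 0 → ln x (en x p) = ln x p
  en_ne : ∀ x p, x ≠ 0 → en x p ≠ p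
  one : ∀ x y p, x ≠ 0 → y ≠ 0 → y ≠ x → 2 ≤ ln x p → ln y p = 0
  le2 : ∀ x p, x ≠ 0 → x ∉ E → ln x p ≤ 2

def F (S : St) (p : S.P) (x : A) : Prop := x ≠ 0 ∧ x ∉ E ∧ S.ln x p = 2

theorem F.en {S : St} {p : S.P} {x : A} (h : F S p x) : F S (S.en x p) x :=
  ⟨h.1, h.2.1, by rw [S.ln_en x p h.1]; exact h.2.2⟩

theorem F.uniq {S : St} {p : S.P} {x y : A} (h : F S p x) (h' : F S p y) : y = x := by
  by_contra hne
  have := S.one x y p h.1 h'.1 hne h.2.2.ge
  have := h'.2.2
  omega

def rel (S : St) : Setoid (S.P × A) where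
  r a b := a = b ∨ (F S a.1 (a.2 + b.2) ∧ b.1 = S.en (a.2 + b.2) a.1)
  iseqv := ⟨fun _ => Or.inl rfl, by
    rintro ⟨p, y⟩ ⟨q, z⟩ (h | ⟨h1, h2⟩)
    · exact Or.inl h.symm
    · simp only at h1 h2
      subst h2
      refine Or.inr ⟨?_, ?_⟩
      · simp only [add_comm z y]; exact h1.en
      · simp only [add_comm z y]; exact (S.en_en _ _ h1.1).symm, by
    rintro ⟨p, y⟩ ⟨q, z⟩ ⟨r, w⟩ (h | ⟨h1, h2⟩) (h' | ⟨h3, h4⟩)
    · exact Or.inl (h.trans h')
    · rw [h]; exact Or.inr ⟨h3, h4⟩
    · rw [← h']; exact Or.inr ⟨h1, h2⟩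
    · simp only at h1 h2 h3 h4
      subst h2
      have e := h1.en.uniq h3
      left
      rw [h4, e, S.en_en _ _ h1.1]
      rw [add_comm y z] at e
      rw [add_left_cancel e]⟩

def Bk (S : St) : Type := Quotient (rel S) ⊕ A

def T (S : St) (x : A) : Bk S → Bk S
  | Sum.inl b => Sum.inl (Quotient.map (fun a : S.P × A => (a.1, a.2 + x)) (by
      rintro ⟨p, y⟩ ⟨q, z⟩ (h | h)
      · rw [h]
      · have e : y + x + (z + x) = y + z := by
          rw [add_add_add_comm, aa, add_zero]
        right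
        simp only [e]
        exact h) b)
  | Sum.inr y => Sum.inr (y + x)

def emb (S : St) (p : S.P) : Bk S := Sum.inl (Quotient.mk (rel S) (p, 0))

theorem T_add (S : St) (x y : A) (b : Bk S) : T S x (T S y b) = T S (x + y) b := by
  rcases b with b | z
  · induction b using Quotient.inductionOn with
    | h a =>
      show Sum.inl (Quotient.mk (rel S) (a.1, a.2 + y + x)) = Sum.inl (Quotient.mk (rel S) (a.1, a.2 + (x + y)))
      rw [add_assoc, add_comm y x]
  · show Sum.inr (z + y + x) = Sum.inr (z + (x + y))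
    rw [add_assoc, add_comm y x]

theorem T_zero (S : St) (b : Bk S) : T S 0 b = b := by
  rcases b with b | z
  · induction b using Quotient.inductionOn with
    | h a =>
      show Sum.inl (Quotient.mk (rel S) (a.1, a.2 + 0)) = _
      rw [add_zero]
  · show Sum.inr (z + 0) = _
    rw [add_zero]

theorem T_T (S : St) (x : A) (b : Bk S) : T S x (T S x b) = b := by rw [T_add, aa, T_zero]

theorem T_free (S : St) (x : A) (b : Bk S) (h : T S x b = b) : x = 0 := by
  rcases b with b | z
  · induction b using Quotient.inductionOn with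
    | h a =>
      have h1 : Quotient.mk (rel S) (a.1, a.2 + x) = Quotient.mk (rel S) a := Sum.inl.inj h
      rcases Quotient.exact h1 with h2 | ⟨h2, h3⟩
      · simpa using congrArg Prod.snd h2
      · exact absurd h3.symm (S.en_ne _ _ h2.1)
  · have h1 : z + x = z := Sum.inr.inj h
    simpa using h1

theorem emb_inj (S : St) {p q : S.P} (h : emb S p = emb S q) : p = q := by
  rcases Quotient.exact (Sum.inl.inj h) with h2 | ⟨h2, -⟩
  · exact congrArg Prod.fst h2
  · exact absurd (by simp) h2.1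

theorem T_emb (S : St) {p q : S.P} {x : A} (hx : x ≠ 0) (h : T S x (emb S p) = emb S q) :
    F S p x := by
  have h1 : Quotient.mk (rel S) (p, 0 + x) = Quotient.mk (rel S) (q, 0) := Sum.inl.inj h
  rcases Quotient.exact h1 with h2 | ⟨h2, -⟩
  · exact absurd (by simpa using congrArg Prod.snd h2) hx
  · simpa using h2

theorem T_emb' (S : St) {p : S.P} {x : A} (h : F S p x) : T S x (emb S p) = emb S (S.en x p) := by
  show Sum.inl (Quotient.mk (rel S) (p, 0 + x)) = Sum.inl (Quotient.mk (rel S) (S.en x p, 0))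
  congr 1
  exact Quotient.sound (Or.inr ⟨by simpa using h, by simp⟩)

abbrev Fr (S : St) : Type := {b : Bk S // ∀ q, b ≠ emb S q}

theorem notF (S : St) {x : A} (b : Fr S) {q : S.P} (h : T S x b.1 = emb S q) : ¬ F S q x := by
  intro hF
  apply b.2 (S.en x q)
  rw [← T_emb' S hF, ← h, T_T]

open Classical in
noncomputable def en' (S : St) (x : A) (b : Fr S) : Fr S :=
  if hx : x = 0 then b else
  if h : ∃ q, T S x b.1 = emb S q then
    ⟨T S x (emb S (S.en x h.choose)), fun r hr => notF S b h.choose_spec (by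
      have := (T_emb S hx hr).en
      rwa [S.en_en _ _ hx] at this)⟩
  else ⟨T S x b.1, fun q hq => h ⟨q, hq⟩⟩

open Classical in
noncomputable def ln' (S : St) (x : A) (b : Fr S) : ℕ :=
  if h : ∃ q, T S x b.1 = emb S q then S.ln x h.choose + 1 else 0

theorem old_case (S : St) {x : A} (hx : x ≠ 0) (b : Fr S) {q : S.P} (h : T S x b.1 = emb S q) :
    (en' S x b).1 = T S x (emb S (S.en x q)) ∧ ln' S x b = S.ln x q + 1 := by
  have h' : ∃ q, T S x b.1 = emb S q := ⟨q, h⟩
  have e : h'.choose = q := emb_inj S (h'.choose_spec.symm.trans h)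
  constructor
  · rw [en', dif_neg hx, dif_pos h']; simp only [e]
  · rw [ln', dif_pos h', e]

theorem new_case (S : St) {x : A} (hx : x ≠ 0) (b : Fr S) (h : ¬ ∃ q, T S x b.1 = emb S q) :
    (en' S x b).1 = T S x b.1 ∧ ln' S x b = 0 := by
  constructor
  · rw [en', dif_neg hx, dif_neg h]
  · rw [ln', dif_neg h]

theorem en'_spec (S : St) {x : A} (hx : x ≠ 0) (b : Fr S) :
    en' S x (en' S x b) = b ∧ ln' S x (en' S x b) = ln' S x b ∧ en' S x b ≠ b := by
  by_cases h : ∃ q, T S x b.1 = emb S q
  · obtain ⟨q, h⟩ := h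
    obtain ⟨h1, h2⟩ := old_case S hx b h
    have h3 : T S x (en' S x b).1 = emb S (S.en x q) := by rw [h1, T_T]
    obtain ⟨h4, h5⟩ := old_case S hx _ h3
    refine ⟨Subtype.ext ?_, ?_, fun hb => ?_⟩
    · rw [h4, S.en_en _ _ hx, ← h, T_T]
    · rw [h5, h2, S.ln_en _ _ hx]
    · rw [hb, h] at h3
      exact S.en_ne x q hx (emb_inj S h3).symm
  · obtain ⟨h1, h2⟩ := new_case S hx b h
    have h3 : ¬ ∃ q, T S x (en' S x b).1 = emb S q := by
      rintro ⟨q, hq⟩
      rw [h1, T_T] at hq
      exact b.2 q hq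
    obtain ⟨h4, h5⟩ := new_case S hx _ h3
    refine ⟨Subtype.ext ?_, by rw [h5, h2], fun hb => ?_⟩
    · rw [h4, h1, T_T]
    · rw [hb] at h1
      exact hx (T_free S x _ h1.symm)

noncomputable def step (S : St) : St where
  P := Fr S
  en := en' S
  ln := ln' S
  en_en := fun _ b hx => (en'_spec S hx b).1
  ln_en := fun _ b hx => (en'_spec S hx b).2.1
  en_ne := fun _ b hx => (en'_spec S hx b).2.2
  one := by
    intro x y b hx hy hyx h2
    by_cases h : ∃ q, T S x b.1 = emb S q
    · obtain ⟨q, h⟩ := h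
      rw [(old_case S hx b h).2] at h2
      refine (new_case S hy b ?_).2
      rintro ⟨r, hr⟩
      have hne : y + x ≠ 0 := fun h0 => hyx (by
        have := congrArg (· + x) h0
        simpa [add_assoc, aa] using this)
      have h3 : T S (y + x) (emb S q) = emb S r := by rw [← T_add, ← h, T_T, hr]
      have h4 := T_emb S hne h3
      have h5 := S.one (y + x) x q hne hx (fun h0 => hy (by simpa using h0)) h4.2.2.ge
      omega
    · rw [(new_case S hx b h).2] at h2; omega
  le2 := by
    intro x b hx hE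
    by_cases h : ∃ q, T S x b.1 = emb S q
    · obtain ⟨q, h⟩ := h
      rw [(old_case S hx b h).2]
      have h1 := S.le2 x q hx hE
      have h2 : S.ln x q ≠ 2 := fun h2 => notF S b h ⟨hx, hE, h2⟩
      omega
    · rw [(new_case S hx b h).2]; omega

def St0 : St where
  P := Empty
  en := fun _ p => p
  ln := fun _ _ => 0
  en_en := fun _ p => p.elim
  ln_en := fun _ p => p.elim
  en_ne := fun _ p => p.elim
  one := fun _ _ p => p.elim
  le2 := fun _ p => p.elim

noncomputable def SS : ℕ → St
  | 0 => St0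
  | n + 1 => step (SS n)

abbrev Om : Type := Σ n : ℕ, (SS n).P

def par : ℕ → Bool
  | 0 => true
  | n + 1 => !par n

open Classical in
noncomputable def dec (m : ℕ) (b : Bk (SS m)) : Om :=
  if h : ∃ q, b = emb (SS m) q then ⟨m, h.choose⟩ else ⟨m + 1, (⟨b, fun q hq => h ⟨q, hq⟩⟩ : Fr (SS m))⟩

theorem dec_emb (m : ℕ) (q : (SS m).P) : dec m (emb _ q) = ⟨m, q⟩ := by
  have h : ∃ r, emb (SS m) q = emb (SS m) r := ⟨q, rfl⟩
  rw [dec, dif_pos h, ← emb_inj _ h.choose_spec]

theorem dec_fr (m : ℕ) (b : Fr (SS m)) : dec m b.1 = ⟨m + 1, b⟩ := by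
  rw [dec, dif_neg (fun ⟨q, hq⟩ => b.2 q hq)]

noncomputable def act (s : Bool) (x : A) : Om → Om
  | ⟨0, p⟩ => ⟨0, p⟩
  | ⟨m + 1, p⟩ => if par (m + 1) = s then dec (m + 1) (T _ x (emb _ p))
      else dec m (T _ x (show Fr (SS m) from p).1)

theorem act_dec (m : ℕ) (x : A) (b : Bk (SS m)) : act (par m) x (dec m b) = dec m (T _ x b) := by
  by_cases h : ∃ q, b = emb (SS m) q
  · obtain ⟨q, rfl⟩ := h
    rw [dec_emb]
    cases m with
    | zero => exact (show Empty from q).elim
    | succ k => simp only [act, if_true]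
  · have := dec_fr m ⟨b, fun q hq => h ⟨q, hq⟩⟩
    simp only at this
    rw [this]
    simp only [act]
    rw [if_neg (by simp [par])]

theorem cover (s : Bool) (w : Om) : ∃ m b, par m = s ∧ w = dec m b := by
  obtain ⟨n, p⟩ := w
  cases n with
  | zero => exact (show Empty from p).elim
  | succ k =>
    by_cases h : par (k + 1) = s
    · exact ⟨k + 1, emb _ p, h, (dec_emb _ _).symm⟩
    · refine ⟨k, (show Fr (SS k) from p).1, ?_, (dec_fr k p).symm⟩
      simp only [par] at h
      cases hk : par k <;> cases s <;> simp_all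

noncomputable def sig (s : Bool) : Multiplicative A →* Equiv.Perm Om :=
  MonoidHom.toHomPerm
    { toFun := fun x => act s x.toAdd
      map_one' := funext fun w => by
        obtain ⟨m, b, rfl, rfl⟩ := cover s w
        show act _ 0 _ = _
        rw [act_dec, T_zero]; rfl
      map_mul' := fun x y => funext fun w => by
        obtain ⟨m, b, rfl, rfl⟩ := cover s w
        show act _ (x.toAdd + y.toAdd) _ = act _ _ (act _ _ _)
        rw [act_dec, act_dec, act_dec, T_add] }

noncomputable def sg (s : Bool) (x : A) : Equiv.Perm Om := sig s (Multiplicative.ofAdd x)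

theorem sg_dec (m : ℕ) (x : A) (b : Bk (SS m)) : sg (par m) x (dec m b) = dec m (T _ x b) :=
  act_dec m x b

theorem sg_sq (s : Bool) (x : A) : sg s x * sg s x = 1 := by
  rw [sg, ← map_mul, ← ofAdd_add, aa]; exact map_one _

theorem path {x : A} (hx : x ≠ 0) : ∀ (n : ℕ) (p : (SS n).P),
    (⟨n, (SS n).en x p⟩ : Om) =
      (sg (!par n) x * (sg (par n) x * sg (!par n) x) ^ (SS n).ln x p) ⟨n, p⟩
  | 0, p => (show Empty from p).elim
  | m + 1, p => by
    have e1 : (!par (m + 1)) = par m := by simp [par]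
    have e2 : par (m + 1) = !par m := rfl
    rw [e1, e2]
    have hd : sg (par m) x ⟨m + 1, p⟩ = dec m (T _ x (show Fr (SS m) from p).1) := by
      rw [← sg_dec, dec_fr]
    by_cases h : ∃ q, T (SS m) x (show Fr (SS m) from p).1 = emb (SS m) q
    · obtain ⟨q, h⟩ := h
      obtain ⟨h1, h2⟩ := old_case (SS m) hx p h
      have ih := path hx m q
      rw [h, dec_emb] at hd
      have e3 : (SS (m + 1)).ln x p = (SS m).ln x q + 1 := h2
      have e4 : (⟨m + 1, (SS (m + 1)).en x p⟩ : Om) = sg (par m) x ⟨m, (SS m).en x q⟩ := by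
        rw [← dec_emb m, sg_dec, ← h1, dec_fr]; rfl
      rw [e4, e3, ih, ← hd, ← Equiv.Perm.mul_apply, ← Equiv.Perm.mul_apply]
      congr 1
      rw [mul_assoc, mul_assoc, pow_succ', mul_assoc, mul_pow_mul]
    · obtain ⟨h1, h2⟩ := new_case (SS m) hx p h
      have e3 : (SS (m + 1)).ln x p = 0 := h2
      rw [e3, pow_zero, mul_one, hd, ← h1, dec_fr]; rfl

def W (x : A) (w : Om) : Prop := ((sg true x * sg false x) ^ 3) w = w

theorem W_iff (x : A) (w : Om) (s : Bool) : W x w ↔ ((sg s x * sg (!s) x) ^ 3) w = w := by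
  cases s
  · have h : (sg false x * sg true x) ^ 3 = ((sg true x * sg false x) ^ 3)⁻¹ := by
      rw [← inv_pow, mul_inv_rev, inv_eq_of_mul_eq_one_right (sg_sq _ _),
        inv_eq_of_mul_eq_one_right (sg_sq _ _)]
    simp only [Bool.not_false]
    rw [h, Equiv.Perm.inv_eq_iff_eq, W, eq_comm]
  · rfl

theorem W_sg (x : A) (w : Om) (s : Bool) (h : W x (sg s x w)) : W x w := by
  rw [W_iff x _ s] at h
  have h' := W_iff x w (!s)
  rw [Bool.not_not] at h'
  rw [h']
  apply (sg s x).injective
  rw [← Equiv.Perm.mul_apply, ← mul_pow_mul, Equiv.Perm.mul_apply, h]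

theorem up_step {x : A} (hx : x ≠ 0) (n : ℕ) (p : (SS n).P) (h : ¬ F (SS n) p x) :
    ∃ b : (SS (n + 1)).P, sg (par n) x ⟨n, p⟩ = ⟨n + 1, b⟩ ∧ (SS (n + 1)).ln x b = (SS n).ln x p + 1 := by
  let b : Fr (SS n) := ⟨T _ x (emb _ p), fun q hq => h (T_emb _ hx hq)⟩
  refine ⟨b, ?_, (old_case (SS n) hx b (T_T (SS n) x (emb _ p))).2⟩
  rw [← dec_emb, sg_dec, ← dec_fr]

theorem W_all {x : A} (hx : x ≠ 0) (hE : x ∉ E) : ∀ (j n : ℕ) (p : (SS n).P),
    (SS n).ln x p + j = 2 → W x ⟨n, p⟩
  | 0, n, p, h => by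
    have hF : F (SS n) p x := ⟨hx, hE, h⟩
    have h1 : sg (par n) x ⟨n, p⟩ = ⟨n, (SS n).en x p⟩ := by
      rw [← dec_emb, sg_dec, T_emb' _ hF, dec_emb]
    rw [W_iff x _ (par n), pow_succ', mul_assoc, Equiv.Perm.mul_apply, ← hF.2.2, ← path hx, ← h1,
      ← Equiv.Perm.mul_apply, sg_sq]
    rfl
  | j + 1, n, p, h => by
    obtain ⟨b, h1, h2⟩ := up_step hx n p (fun hF => by have := hF.2.2; omega)
    apply W_sg x _ (par n)
    rw [h1]
    exact W_all hx hE j (n + 1) b (by omega)

noncomputable def u (x : A) : Equiv.Perm Om := (sg true x * sg false x) ^ 3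

theorem u_one {x : A} (hE : x ∉ E) : u x = 1 := by
  by_cases hx : x = 0
  · subst hx
    have : ∀ s, sg s 0 = 1 := fun s => map_one (sig s)
    simp [u, this]
  · refine Equiv.ext fun ⟨n, p⟩ => ?_
    exact W_all hx hE (2 - (SS n).ln x p) n p (by have := (SS n).le2 x p hx hE; omega)

theorem climb {x : A} (hx : x ≠ 0) (hE : x ∈ E) : ∀ k : ℕ, ∃ p : (SS (2 * k + 1)).P,
    par (2 * k + 1) = false ∧ ((sg true x * sg false x) ^ k)
      ⟨1, (⟨Sum.inr 0, fun q => (show Empty from q).elim⟩ : Fr (SS 0))⟩ = ⟨2 * k + 1, p⟩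
  | 0 => ⟨_, rfl, rfl⟩
  | k + 1 => by
    obtain ⟨p, h1, h2⟩ := climb hx hE k
    obtain ⟨b, h3, -⟩ := up_step hx _ p (fun hF => hF.2.1 hE)
    obtain ⟨c, h4, -⟩ := up_step hx _ b (fun hF => hF.2.1 hE)
    have h5 : par (2 * k + 1 + 1) = true := by rw [par, h1]; rfl
    rw [h1] at h3
    rw [h5] at h4
    refine ⟨c, by rw [show 2 * (k + 1) + 1 = 2 * k + 1 + 1 + 1 from rfl, par, h5]; rfl, ?_⟩
    rw [pow_succ', Equiv.Perm.mul_apply, h2, Equiv.Perm.mul_apply, h3, h4]
    rfl

theorem pow_ne {x : A} (hE : x ∈ E) (k : ℕ) : (sg true x * sg false x) ^ (k + 1) ≠ 1 := by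
  have hx : x ≠ 0 := by
    obtain ⟨n, rfl⟩ := hE
    intro h
    simpa using congrFun h n
  intro h
  obtain ⟨p, -, h2⟩ := climb hx hE (k + 1)
  rw [h] at h2
  have := congrArg Sigma.fst h2
  simp at this

def B : Type := Equiv.Perm Om
noncomputable instance : Group B := inferInstanceAs (Group (Equiv.Perm Om))
instance : TopologicalSpace B := ⊥
instance : DiscreteTopology B := ⟨rfl⟩

abbrev G : Type := Multiplicative A × B

instance : TopologicalSpace.IsCompletelyMetrizableSpace (Multiplicative A) :=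
  inferInstanceAs (TopologicalSpace.IsCompletelyMetrizableSpace A)

noncomputable def UU (s : Bool) : G →* G :=
  (MonoidHom.inr (Multiplicative A) B).comp ((show Multiplicative A →* B from sig s).comp (MonoidHom.fst _ _))

noncomputable def uu (x : A) : G := (1, (u x : B))

def tr (k : ℕ) (x : A) : A := fun i => if i < k then x i else 0

theorem tr_ev (x : A) : ∀ᶠ k in Filter.atTop, u (tr k x) = u x := by
  by_cases hE : x ∈ E
  · obtain ⟨n, rfl⟩ := hE
    filter_upwards [Filter.eventually_gt_atTop n] with k hk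
    congr 1
    funext i
    by_cases hi : i = n
    · subst hi; simp [tr, hk]
    · simp [tr, Pi.single_eq_of_ne hi]
  · by_cases hx : x = 0
    · subst hx
      refine Filter.Eventually.of_forall fun k => ?_
      congr 1
      funext i
      simp [tr]
    · obtain ⟨i, hi⟩ := Function.ne_iff.1 hx
      obtain ⟨j, hj⟩ := Function.ne_iff.1 (fun h : x = Pi.single i 1 => hE ⟨i, h.symm⟩)
      have hz : ∀ a : ZMod 2, a ≠ 0 → a = 1 := by decide
      have hji : j ≠ i := by
        rintro rfl
        exact hj (by simpa using hz _ hi)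
      rw [Pi.single_eq_of_ne hji] at hj
      filter_upwards [Filter.eventually_gt_atTop i, Filter.eventually_gt_atTop j] with k h1 h2
      rw [u_one hE, u_one]
      rintro ⟨n, hn⟩
      have a1 := congrFun hn i
      have a2 := congrFun hn j
      simp only [tr, h1, h2, if_true] at a1 a2
      by_cases hin : i = n
      · rw [Pi.single_eq_of_ne (hin ▸ hji)] at a2
        exact hj a2.symm
      · rw [Pi.single_eq_of_ne hin] at a1
        exact hi a1.symm

/-- The negation of the preceding statement: In a complete metric non-commutative topological group G, if U1,...,Un are homomorphisms G→G and x ↦ U1(x)⋯Un(x) is of some Baire class (iterated pointwise sequential limits of continuous maps), then that map is continuous. -/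
theorem result :
    ¬ (∀ (G : Type) [Group G] [MetricSpace G] [IsTopologicalGroup G] [CompleteSpace G],
      (∃ a b : G, a * b ≠ b * a) →
      ∀ (n : ℕ) (U : Fin n → G →* G),
        (∀ S : Set (G → G),
          (∀ f : G → G, Continuous f → f ∈ S) →
          (∀ (f : ℕ → G → G) (g : G → G), (∀ k, f k ∈ S) →
            (∀ x, Filter.Tendsto (fun k => f k x) Filter.atTop (nhds (g x))) → g ∈ S) →
          (fun x => (List.ofFn (fun i => U i x)).prod) ∈ S) →
        Continuous (fun x => (List.ofFn (fun i => U i x)).prod)) := by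
  intro h
  let _ := TopologicalSpace.upgradeIsCompletelyMetrizable G
  have hprod : (fun x : G => (List.ofFn (fun i : Fin 6 =>
      (![UU true, UU false, UU true, UU false, UU true, UU false] : Fin 6 → G →* G) i x)).prod) =
      fun x => uu x.1.toAdd := by
    funext x
    simp only [List.ofFn_succ, List.ofFn_zero, List.prod_cons, List.prod_nil, Matrix.cons_val_zero,
      Matrix.cons_val_succ, mul_one]
    refine Prod.ext (by simp [UU, uu]) ?_
    show sg true x.1.toAdd * (sg false x.1.toAdd * (sg true x.1.toAdd * (sg false x.1.toAdd *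
      (sg true x.1.toAdd * sg false x.1.toAdd)))) = u x.1.toAdd
    simp only [u, pow_succ, pow_zero, one_mul, mul_assoc]
  have hc := h G ?_ 6 ![UU true, UU false, UU true, UU false, UU true, UU false] ?_
  · rw [hprod] at hc
    have he : Filter.Tendsto (fun n : ℕ => ((Multiplicative.ofAdd (Pi.single n 1 : A), 1) : G))
        Filter.atTop (nhds (Multiplicative.ofAdd 0, 1)) := by
      refine Filter.Tendsto.prodMk_nhds ?_ tendsto_const_nhds
      refine (continuous_ofAdd.tendsto _).comp ?_
      rw [tendsto_pi_nhds]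
      intro i
      refine tendsto_const_nhds.congr' ?_
      filter_upwards [Filter.eventually_gt_atTop i] with n hn
      simp [Pi.single_eq_of_ne hn.ne]
    have h2 := ((continuous_snd.comp hc).tendsto _).comp he
    rw [nhds_discrete B, Filter.tendsto_pure] at h2
    obtain ⟨n, hn⟩ := h2.exists
    have h3 : u (Pi.single n 1) = u 0 := hn
    rw [u_one (x := 0) (by rintro ⟨m, hm⟩; simpa using congrFun hm m)] at h3
    exact pow_ne ⟨n, rfl⟩ 2 h3
  · refine ⟨(1, (sg true (Pi.single 0 1) : B)), (1, (sg false (Pi.single 0 1) : B)), fun hab => ?_⟩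
    have h1 : sg true (Pi.single 0 1) * sg false (Pi.single 0 1) =
        sg false (Pi.single 0 1) * sg true (Pi.single 0 1) := congrArg Prod.snd hab
    apply pow_ne ⟨0, rfl⟩ 1
    rw [pow_two]
    nth_rewrite 1 [h1]
    rw [mul_assoc, ← mul_assoc (sg true _), sg_sq, one_mul, sg_sq]
  · intro S h1 h2
    rw [hprod]
    refine h2 (fun k x => uu (tr k x.1.toAdd)) _ (fun k => h1 _ ?_) (fun x => ?_)
    · have : (fun x : G => uu (tr k x.1.toAdd)) =
          (fun v : Fin k → ZMod 2 => uu (fun i => if hi : i < k then v ⟨i, hi⟩ else 0)) ∘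
            fun x : G => fun i : Fin k => x.1.toAdd i := by
        funext x
        simp only [Function.comp]
        congr 1
      rw [this]
      exact continuous_of_discreteTopology.comp (continuous_pi fun i =>
        (continuous_apply (i : ℕ)).comp (continuous_toAdd.comp continuous_fst))
    · refine tendsto_const_nhds.congr' ?_
      filter_upwards [tr_ev x.1.toAdd] with k hk
      simp only [uu, hk]

end Pool.Agent.S02194
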