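import Pool.Statements.S02214
import Pool.Agent.Lib.lead.MRDP
import Pool.Agent.Lib.lead.FG

set_option autoImplicit false
open Pool Pool.MP_8b7a67_al

namespace Pool.Agent.S02214
open LeadMRDP LeadFG

abbrev F := FreeGroup (Fin 6)
abbrev o (i : Fin 6) : F := FreeGroup.of i

def mkAut (f g : Fin 6 → F) (h1 : ∀ i, FreeGroup.lift g (f i) = o i)
    (h2 : ∀ i, FreeGroup.lift f (g i) = o i) : MulAut F :=
  MonoidHom.toMulEquiv (FreeGroup.lift f) (FreeGroup.lift g)
    (by ext1 i; simpa using h1 i) (by ext1 i; simpa using h2 i)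

theorem mkAut_apply (f g h1 h2) (x : F) : mkAut f g h1 h2 x = FreeGroup.lift f x := rfl

def κ : MulAut F := mkAut ![o 0, o 1, o 0 * o 2, o 3, o 4, o 5]
  ![o 0, o 1, (o 0)⁻¹ * o 2, o 3, o 4, o 5] (by intro i; fin_cases i <;> simp)
  (by intro i; fin_cases i <;> simp)

def σ : MulAut F := mkAut ![o 0, o 0 * o 1, o 2, o 3, o 0 * o 4, o 5]
  ![o 0, (o 0)⁻¹ * o 1, o 2, o 3, (o 0)⁻¹ * o 4, o 5] (by intro i; fin_cases i <;> simp)
  (by intro i; fin_cases i <;> simp)

def ι : MulAut F := mkAut ![o 0, o 1, o 2, o 3, (o 4)⁻¹, (o 5)⁻¹]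
  ![o 0, o 1, o 2, o 3, (o 4)⁻¹, (o 5)⁻¹] (by intro i; fin_cases i <;> simp)
  (by intro i; fin_cases i <;> simp)

theorem fix_zpow (φ : MulAut F) {g : F} (h : φ g = g) (k : ℤ) : (φ ^ k) g = g := by
  simpa using zpow_shift φ (a := 1) (g := g) 0 (map_one _) (by simpa using h) k

theorem s0 (k : ℤ) : (σ ^ k) (o 0) = o 0 := fix_zpow _ (by simp [σ, mkAut_apply]) k
theorem s2 (k : ℤ) : (σ ^ k) (o 2) = o 2 := fix_zpow _ (by simp [σ, mkAut_apply]) k
theorem s3 (k : ℤ) : (σ ^ k) (o 3) = o 3 := fix_zpow _ (by simp [σ, mkAut_apply]) k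
theorem s5 (k : ℤ) : (σ ^ k) (o 5) = o 5 := fix_zpow _ (by simp [σ, mkAut_apply]) k
theorem s1 (k : ℤ) : (σ ^ k) (o 1) = o 0 ^ k * o 1 := by
  simpa using zpow_shift σ (a := o 0) (g := o 1) 1 (by simp [σ, mkAut_apply])
    (by simp [σ, mkAut_apply]) k
theorem s4 (k : ℤ) : (σ ^ k) (o 4) = o 0 ^ k * o 4 := by
  simpa using zpow_shift σ (a := o 0) (g := o 4) 1 (by simp [σ, mkAut_apply])
    (by simp [σ, mkAut_apply]) k

def ψ (m : ℤ) : MulAut F := σ ^ m * κ

theorem ψ_apply (m : ℤ) (x : F) : ψ m x = (σ ^ m) (κ x) := rfl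
theorem p0 (m : ℤ) : ψ m (o 0) = o 0 := by simp [ψ_apply, κ, mkAut_apply, s0]
theorem p1 (m : ℤ) : ψ m (o 1) = o 0 ^ m * o 1 := by simp [ψ_apply, κ, mkAut_apply, s1]
theorem p2 (m : ℤ) : ψ m (o 2) = o 0 ^ (1 : ℤ) * o 2 := by simp [ψ_apply, κ, mkAut_apply, s0, s2]
theorem p3 (m : ℤ) : ψ m (o 3) = o 3 := by simp [ψ_apply, κ, mkAut_apply, s3]
theorem p4 (m : ℤ) : ψ m (o 4) = o 0 ^ m * o 4 := by simp [ψ_apply, κ, mkAut_apply, s4]
theorem p5 (m : ℤ) : ψ m (o 5) = o 5 := by simp [ψ_apply, κ, mkAut_apply, s5]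

abbrev bc (i : Fin 6) : Prop := i = 4 ∨ i = 5

theorem m0 : o 0 ∈ K bc := of_mem_K (by decide)
theorem m1 : o 1 ∈ K bc := of_mem_K (by decide)
theorem m2 : o 2 ∈ K bc := of_mem_K (by decide)
theorem m3 : o 3 ∈ K bc := of_mem_K (by decide)

theorem ψ_mem (m : ℤ) {g : F} (h : g ∈ K bc) : ψ m g ∈ K bc := by
  refine map_K (φ := (ψ m).toMonoidHom) (fun x hx => ?_) h
  fin_cases x
  · exact (p0 m).symm ▸ m0
  · exact (p1 m).symm ▸ mul_mem (zpow_mem m0 _) m1
  · exact (p2 m).symm ▸ mul_mem (zpow_mem m0 _) m2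
  · exact (p3 m).symm ▸ m3
  · exact absurd (Or.inl rfl) hx
  · exact absurd (Or.inr rfl) hx

theorem K_mono {S T : Fin 6 → Prop} (h : ∀ x, T x → S x) {g : F} (hg : g ∈ K S) : g ∈ K T :=
  map_K (φ := MonoidHom.id F) (fun x hx => of_mem_K fun h' => hx (h x h')) hg

theorem ι_iff (g : F) : ι g = g ↔ g ∈ K bc := by
  constructor
  · intro h
    apply mem_K_of_fix
    rw [← h]
    have : (fun x => if bc x then (FreeGroup.of x)⁻¹ else FreeGroup.of x)
        = ![o 0, o 1, o 2, o 3, (o 4)⁻¹, (o 5)⁻¹] := by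
      funext x; fin_cases x <;> simp [bc]
    rw [this, h]; exact h
  · intro h
    refine eq_on_K (φ := ι.toMonoidHom) (ψ := MonoidHom.id F) (fun x hx => ?_) h
    fin_cases x <;> simp [ι, mkAut_apply, bc] at hx ⊢

def MulRel (p m n : ℤ) (X Y U : F) : Prop :=
  o 3 * (o 1 * o 2) * Y = X * o 3 * (o 0 ^ p * o 1 * (o 0 ^ n * o 2)) ∧
  o 5 * (o 4 * κ X) * σ U = U * o 5 * (o 0 ^ m * o 4 * Y) ∧ ι X = X ∧ ι Y = Y

theorem mul_sound {p m n : ℤ} {X Y U : F} (h : MulRel p m n X Y U) : p = m * n := by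
  obtain ⟨e1, e2, e3, e4⟩ := h
  rw [ι_iff] at e3 e4
  have to5 : ∀ {g : F}, g ∈ K bc → g ∈ K (· = 5) := K_mono fun x hx => Or.inr hx
  have n5 : ∀ x : Fin 6, x ≠ 5 → o x ∈ K (· = 5) := fun x hx => of_mem_K hx
  have n3 : ∀ x : Fin 6, x ≠ 3 → o x ∈ K (· = 3) := fun x hx => of_mem_K hx
  have hκ : κ X ∈ K bc := by simpa [ψ_apply] using ψ_mem 0 e3
  let π : F →* F := FreeGroup.lift ![o 0, o 1, o 2, o 3, 1, o 5]
  have hπ : ∀ {g : F}, g ∈ K bc → π g = g := fun hg =>
    eq_on_K (φ := π) (ψ := MonoidHom.id F) (fun x hx => by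
      fin_cases x <;> simp [π, bc] at hx ⊢) hg
  obtain ⟨k, hk⟩ := orbit σ (by simpa using s5 1) (fun x hx => by
      fin_cases x <;> simp [σ, mkAut_apply] at hx ⊢ <;>
        first | exact n5 _ (by decide) | exact mul_mem (n5 _ (by decide)) (n5 _ (by decide)))
    (mul_mem (n5 4 (by decide)) (to5 hκ))
    (mul_mem (mul_mem (zpow_mem (n5 0 (by decide)) _) (n5 4 (by decide))) (to5 e4))
    (by
      intro h
      have h1 := congrArg π h
      rw [map_mul, hπ hκ] at h1
      simp [π] at h1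
      simp [h1] at h) e2
  rw [map_mul, s4, ← ψ_apply] at hk
  have h1 := congrArg π hk
  simp only [map_mul, map_zpow, hπ e4, hπ (ψ_mem k e3), hπ m0] at h1
  simp only [π, FreeGroup.lift_apply_of, Matrix.cons_val, mul_one] at h1
  have hY : Y = o 0 ^ (k - m) * ψ k X := by
    rw [sub_eq_neg_add, zpow_add, mul_assoc, ← h1]; group
  rw [hY, ← mul_assoc, mul_left_inj] at hk
  have hkm := (indep (a := (0 : Fin 6)) (b := 4) (by decide) (s := m - k) (t := k - m) (by
    have : o 0 ^ (m - k) * o 4 * o 0 ^ (k - m) * (o 4)⁻¹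
      = (o 0 ^ k)⁻¹ * (o 0 ^ m * o 4 * o 0 ^ (k - m)) * (o 4)⁻¹ := by group
    rw [this, hk]; group)).1
  have hkm' : k = m := by omega
  subst hkm'
  simp only [sub_self, zpow_zero, one_mul] at hY
  rw [hY] at e1
  obtain ⟨j, hj⟩ := orbit (ψ k) (p3 k) (fun x hx => by
      fin_cases x
      · exact (p0 k).symm ▸ n3 _ (by decide)
      · exact (p1 k).symm ▸ mul_mem (zpow_mem (n3 _ (by decide)) _) (n3 _ (by decide))
      · exact (p2 k).symm ▸ mul_mem (zpow_mem (n3 _ (by decide)) _) (n3 _ (by decide))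
      · exact absurd rfl hx
      · exact (p4 k).symm ▸ mul_mem (zpow_mem (n3 _ (by decide)) _) (n3 _ (by decide))
      · exact (p5 k).symm ▸ n3 _ (by decide))
    (mul_mem (n3 1 (by decide)) (n3 2 (by decide)))
    (mul_mem (mul_mem (zpow_mem (n3 0 (by decide)) _) (n3 1 (by decide)))
      (mul_mem (zpow_mem (n3 0 (by decide)) _) (n3 2 (by decide))))
    (by
      intro h
      have := congrArg (fun x => Multiplicative.toAdd (chi (1 : Fin 6) x)) h
      simp [chi] at this) e1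
  rw [map_mul, zpow_shift _ _ (p0 k) (p1 k), zpow_shift _ _ (p0 k) (p2 k), one_mul,
    ← mul_assoc, ← mul_assoc, mul_left_inj] at hj
  obtain ⟨a1, a2⟩ := indep (a := (0 : Fin 6)) (b := 1) (by decide) (s := -(k * j) + p)
    (t := n - j) (by
      have : o 0 ^ (-(k * j) + p) * o 1 * o 0 ^ (n - j) * (o 1)⁻¹
        = (o 0 ^ (k * j))⁻¹ * (o 0 ^ p * o 1 * o 0 ^ n) * (o 0 ^ j)⁻¹ * (o 1)⁻¹ := by group
      rw [this, hj]; group)
  have : j = n := by omega
  subst this
  omega

theorem mul_complete (m n : ℤ) : ∃ X Y U, MulRel (m * n) m n X Y U := by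
  have hv : ∀ j : ℤ, (ψ m ^ j) (o 3 * (o 1 * o 2))
      = o 3 * (o 0 ^ (m * j) * o 1 * (o 0 ^ j * o 2)) := by
    intro j
    rw [map_mul, map_mul, zpow_shift _ _ (p0 m) (p1 m), zpow_shift _ _ (p0 m) (p2 m), one_mul,
      fix_zpow _ (p3 m)]
  obtain ⟨X, hX, e⟩ := orbit_ex (ψ m) (o 3 * (o 1 * o 2)) (K bc) (fun j => by
    rw [hv]
    exact mul_mem m3 (mul_mem (mul_mem (zpow_mem m0 _) m1) (mul_mem (zpow_mem m0 _) m2))) n
  obtain ⟨U, -, e'⟩ := orbit_ex σ (o 5 * (o 4 * κ X)) ⊤ (fun _ => trivial) m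
  refine ⟨X, ψ m X, U, by rw [e, hv]; group, ?_, (ι_iff _).2 hX, (ι_iff _).2 (ψ_mem m hX)⟩
  rw [e', map_mul, map_mul, s5, s4, ← ψ_apply]; group

/-! ### expressions -/

def aut : Fin 4 → MulAut F := ![1, κ, σ, ι]

abbrev E (W : Type) := FreeGroup (Fin 6 ⊕ W × Fin 4)

def ev {W : Type} (y : W → F) : E W →* F :=
  FreeGroup.lift (Sum.elim o fun s => aut s.2 (y s.1))

def cs {W : Type} (i : Fin 6) : E W := FreeGroup.of (.inl i)
def vr {W : Type} (w : W) (i : Fin 4) : E W := FreeGroup.of (.inr (w, i))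

@[simp] theorem ev_cs {W : Type} (y : W → F) (i : Fin 6) : ev y (cs i) = o i := by simp [ev, cs]
@[simp] theorem ev_0 {W : Type} (y : W → F) (w : W) : ev y (vr w 0) = y w := by
  simp [ev, vr, aut]
@[simp] theorem ev_1 {W : Type} (y : W → F) (w : W) : ev y (vr w 1) = κ (y w) := by
  simp [ev, vr, aut]
@[simp] theorem ev_2 {W : Type} (y : W → F) (w : W) : ev y (vr w 2) = σ (y w) := by
  simp [ev, vr, aut]
@[simp] theorem ev_3 {W : Type} (y : W → F) (w : W) : ev y (vr w 3) = ι (y w) := by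
  simp [ev, vr, aut]

def Df {W : Type} (P : (W → F) → Prop) : Prop :=
  ∃ e : E W, ∀ y, P y ↔ ev y e ∈ Subgroup.zpowers (o 0)

theorem Df.and {W : Type} {P Q : (W → F) → Prop} (h1 : Df P) (h2 : Df Q) :
    Df fun y => P y ∧ Q y := by
  obtain ⟨e1, h1⟩ := h1
  obtain ⟨e2, h2⟩ := h2
  exact ⟨J (cs 0) e1 e2, fun y => by rw [map_J, ev_cs, J_mem, ← h1, ← h2]⟩

theorem Df.eq {W : Type} (s t : E W) : Df fun y => ev y s = ev y t := by
  refine ⟨J (cs 0) (s * t⁻¹) (cs 4 * (s * t⁻¹) * (cs 4)⁻¹), fun y => ?_⟩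
  show ev y s = ev y t ↔ _
  rw [map_J, ev_cs, J_mem, ← mul_inv_eq_one, eq_one_iff (a := (0 : Fin 6)) (b := 4) (by decide)]
  simp

theorem Df.list {W ι : Type} (l : List ι) (P : ι → (W → F) → Prop) (h : ∀ i, Df (P i)) :
    Df fun y => ∀ i ∈ l, P i y := by
  induction l with
  | nil => exact ⟨1, by simp⟩
  | cons a l ih => simpa using (h a).and ih

abbrev Wv (V : Type) := V ⊕ (V × V × V × Fin 3)

def conP {V : Type} : Con V → (Wv V → F) → Prop
  | .add x y z => fun g => g (.inl x) = g (.inl y) * g (.inl z)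
  | .one x => fun g => g (.inl x) = o 0
  | .mul x y z => fun g =>
      o 3 * (o 1 * o 2) * g (.inr (x, y, z, 1)) = g (.inr (x, y, z, 0)) * o 3 *
        (g (.inl x) * o 1 * (g (.inl z) * o 2)) ∧
      o 5 * (o 4 * κ (g (.inr (x, y, z, 0)))) * σ (g (.inr (x, y, z, 2))) =
        g (.inr (x, y, z, 2)) * o 5 * (g (.inl y) * o 4 * g (.inr (x, y, z, 1))) ∧
      ι (g (.inr (x, y, z, 0))) = g (.inr (x, y, z, 0)) ∧
      ι (g (.inr (x, y, z, 1))) = g (.inr (x, y, z, 1))

theorem conP_df {V : Type} (c : Con V) : Df (conP c) := by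
  cases c with
  | add x y z =>
    have := Df.eq (W := Wv V) (vr (.inl x) 0) (vr (.inl y) 0 * vr (.inl z) 0)
    simpa only [conP, map_mul, ev_0] using this
  | one x => simpa [conP] using Df.eq (W := Wv V) (vr (.inl x) 0) (cs 0)
  | mul x y z =>
    have :=
      (Df.eq (W := Wv V) (cs 3 * (cs 1 * cs 2) * vr (.inr (x, y, z, 1)) 0)
        (vr (.inr (x, y, z, 0)) 0 * cs 3 * (vr (.inl x) 0 * cs 1 * (vr (.inl z) 0 * cs 2)))).and
      ((Df.eq (cs 5 * (cs 4 * vr (.inr (x, y, z, 0)) 1) * vr (.inr (x, y, z, 2)) 2)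
        (vr (.inr (x, y, z, 2)) 0 * cs 5 *
          (vr (.inl y) 0 * cs 4 * vr (.inr (x, y, z, 1)) 0))).and
      ((Df.eq (vr (.inr (x, y, z, 0)) 3) (vr (.inr (x, y, z, 0)) 0)).and
        (Df.eq (vr (.inr (x, y, z, 1)) 3) (vr (.inr (x, y, z, 1)) 0))))
    simpa only [conP, map_mul, ev_cs, ev_0, ev_1, ev_2, ev_3] using this

theorem zpow_inj {i j : ℤ} (h : o 0 ^ i = o 0 ^ j) : i = j := by
  have := congrArg (fun x => Multiplicative.toAdd (chi (0 : Fin 6) x)) h
  simpa [chi] using this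

theorem abstract : ∃ (W : Type) (_ : Finite W) (w0 : W) (e : E W), ¬ ComputablePred fun n : ℕ =>
    ∃ y : W → F, J (o 0) (o 4 * y w0 * (o 0)⁻¹ ^ n * (o 4)⁻¹) (ev y e) = 1 := by
  obtain ⟨V, hV, x0, L, hL⟩ := exists_flat_int
  have := Fintype.ofFinite V
  obtain ⟨e, he⟩ := (Df.list (Finset.univ : Finset V).toList
    (fun v (g : Wv V → F) => g (.inl v) ∈ Subgroup.zpowers (o 0))
    (fun v => ⟨vr (.inl v) 0, by simp⟩)).and (Df.list L conP conP_df)
  refine ⟨Wv V, inferInstance, .inl x0, e, fun h => hL (h.of_eq fun n => ?_)⟩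
  simp only [J_one, ← he]
  constructor
  · rintro ⟨g, ⟨k, h0⟩, h1, h2⟩
    choose v hv using fun x => h1 x (by simp)
    simp only at hv h0
    refine ⟨v, ?_, fun c hc => ?_⟩
    · have := (indep (a := (0 : Fin 6)) (b := 4) (by decide) (s := -k) (t := v x0 - n) (by
        rw [zpow_neg, h0, ← hv, inv_pow, ← zpow_natCast]; group)).2
      omega
    · have := h2 c hc
      cases c with
      | add x y z =>
        simp only [conP, ← hv, ← zpow_add] at this
        exact zpow_inj this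
      | one x =>
        simp only [conP, ← hv] at this
        exact zpow_inj (this.trans (zpow_one _).symm)
      | mul x y z =>
        simp only [conP, ← hv] at this
        exact mul_sound this
  · rintro ⟨v, h0, h1⟩
    choose X Y U hXYU using mul_complete
    refine ⟨Sum.elim (fun x => o 0 ^ v x) fun t =>
      ![X (v t.2.1) (v t.2.2.1), Y (v t.2.1) (v t.2.2.1), U (v t.2.1) (v t.2.2.1)] t.2.2.2,
      ?_, fun x _ => ⟨v x, rfl⟩, fun c hc => ?_⟩
    · simp [h0]
    · have := h1 c hc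
      cases c with
      | add x y z => simp only [Con.sat] at this; simp [conP, this, zpow_add]
      | one x => simp only [Con.sat] at this; simp [conP, this]
      | mul x y z =>
        simp only [Con.sat] at this
        have h := hXYU (v y) (v z)
        rw [← this] at h
        exact h

def autL : Fin 4 → List (List (ℕ × Bool)) :=
  ![[[(0, true)], [(1, true)], [(2, true)], [(3, true)], [(4, true)], [(5, true)]],
    [[(0, true)], [(1, true)], [(0, true), (2, true)], [(3, true)], [(4, true)], [(5, true)]],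
    [[(0, true)], [(0, true), (1, true)], [(2, true)], [(3, true)], [(0, true), (4, true)],
      [(5, true)]],
    [[(0, true)], [(1, true)], [(2, true)], [(3, true)], [(4, false)], [(5, false)]]]

theorem autL_spec (i : Fin 4) : FreeGroup.lift (fun k : Fin 6 =>
    FreeGroup.lift (fun m : ℕ => if h : m < 6 then FreeGroup.of (⟨m, h⟩ : Fin 6) else 1)
      (FreeGroup.mk ((autL i).getD k.val []))) = (aut i).toMonoidHom := by
  ext1 k
  fin_cases i <;> fin_cases k <;> simp [autL, aut, κ, σ, ι, mkAut_apply] <;> rfl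

/-- Twisted equations in free groups are undecidable. -/
theorem result :
    ¬ (∃ f : ℕ × List ((ℕ ⊕ ℕ) × Bool) × List (ℕ × List (List (ℕ × Bool))) → Bool,
      Computable f ∧
      ∀ (r : ℕ) (w : List ((ℕ ⊕ ℕ) × Bool)) (S : List (ℕ × List (List (ℕ × Bool)))),
        (∀ p ∈ w, ∀ j : ℕ, p.1 = Sum.inr j → j < S.length) →
        (∀ q ∈ S, q.2.length = r ∧
          Function.Bijective
            (FreeGroup.lift (fun k : Fin r =>
              FreeGroup.lift
                (fun m : ℕ => if h : m < r then FreeGroup.of (⟨m, h⟩ : Fin r) else 1)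
                (FreeGroup.mk (q.2.getD k.val [])))
              : FreeGroup (Fin r) → FreeGroup (Fin r))) →
        (f (r, w, S) = true ↔
          ∃ x : ℕ → FreeGroup (Fin r),
            FreeGroup.lift
              (Sum.elim
                (fun m : ℕ => if h : m < r then FreeGroup.of (⟨m, h⟩ : Fin r) else 1)
                (fun j : ℕ =>
                  FreeGroup.lift (fun k : Fin r =>
                    FreeGroup.lift
                      (fun m : ℕ => if h : m < r then FreeGroup.of (⟨m, h⟩ : Fin r) else 1)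
                      (FreeGroup.mk ((S.getD j (0, [])).2.getD k.val [])))
                    (x (S.getD j (0, [])).1)))
              (FreeGroup.mk w) = 1)) := by
  classical
  rintro ⟨f, hf, H⟩
  obtain ⟨W, hW, w0, e, he⟩ := abstract
  obtain ⟨enc, henc⟩ := Countable.exists_injective_nat W
  obtain ⟨M, ⟨q⟩⟩ := Finite.exists_equiv_fin (W × Fin 4)
  let S : List (ℕ × List (List (ℕ × Bool))) :=
    List.ofFn fun j : Fin M => (enc (q.symm j).1, autL (q.symm j).2)
  let g : Fin 6 ⊕ W × Fin 4 → ℕ ⊕ ℕ := Sum.map Fin.val fun s => (q s).val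
  let A : List ((ℕ ⊕ ℕ) × Bool) := [(.inl 0, true), (.inl 0, true), (.inl 4, true),
    (g (.inr (w0, 0)), true)]
  let B : List ((ℕ ⊕ ℕ) × Bool) := [(.inl 4, false), (.inl 0, true), (.inl 0, true), (.inl 4, true)]
  let C : List ((ℕ ⊕ ℕ) × Bool) := [(g (.inr (w0, 0)), false), (.inl 4, false)] ++
    (FreeGroup.toWord (e * (cs 0 ^ 4)⁻¹ * e⁻¹)).map
      (fun p : (Fin 6 ⊕ W × Fin 4) × Bool => (g p.1, p.2))
  let w : ℕ → List ((ℕ ⊕ ℕ) × Bool) := fun n =>
    A ++ (((List.range n).map fun _ => (.inl 0, false)) ++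
      (B ++ (((List.range n).map fun _ => (.inl 0, true)) ++ C)))
  have hw : Primrec w := Primrec.list_append.comp (Primrec.const _) (Primrec.list_append.comp
    (Primrec.list_map Primrec.list_range (Primrec.const _).to₂) (Primrec.list_append.comp
      (Primrec.const _) (Primrec.list_append.comp
        (Primrec.list_map Primrec.list_range (Primrec.const _).to₂) (Primrec.const _))))
  have hc : Computable fun n => f (6, w n, S) :=
    hf.comp ((Primrec.const 6).pair (hw.pair (Primrec.const S))).to_comp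
  apply he
  refine ComputablePred.of_eq (p := fun n => f (6, w n, S) = true)
    ⟨inferInstance, by simpa using hc⟩ fun n => ?_
  rw [H 6 (w n) S]
  · have hS : ∀ s, S.getD (q s).val (0, []) = (enc s.1, autL s.2) := by
      intro s; simp [S, List.getD_eq_getElem?_getD]
    have key : ∀ x : ℕ → F, FreeGroup.lift
        (Sum.elim
          (fun m : ℕ => if h : m < 6 then FreeGroup.of (⟨m, h⟩ : Fin 6) else 1)
          (fun j : ℕ =>
            FreeGroup.lift (fun k : Fin 6 =>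
              FreeGroup.lift
                (fun m : ℕ => if h : m < 6 then FreeGroup.of (⟨m, h⟩ : Fin 6) else 1)
                (FreeGroup.mk ((S.getD j (0, [])).2.getD k.val [])))
              (x (S.getD j (0, [])).1))) (FreeGroup.mk (w n)) =
        J (o 0) (o 4 * x (enc w0) * (o 0)⁻¹ ^ n * (o 4)⁻¹) (ev (fun v => x (enc v)) e) := by
      intro x
      set Φ : ℕ ⊕ ℕ → F := Sum.elim
          (fun m : ℕ => if h : m < 6 then FreeGroup.of (⟨m, h⟩ : Fin 6) else 1)
          (fun j : ℕ =>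
            FreeGroup.lift (fun k : Fin 6 =>
              FreeGroup.lift
                (fun m : ℕ => if h : m < 6 then FreeGroup.of (⟨m, h⟩ : Fin 6) else 1)
                (FreeGroup.mk ((S.getD j (0, [])).2.getD k.val [])))
              (x (S.getD j (0, [])).1)) with hΦ
      have h1 : ∀ s, Φ (g s) = Sum.elim o (fun s : W × Fin 4 => aut s.2 (x (enc s.1))) s := by
        rintro (i | s)
        · simp [hΦ, g]
        · simp only [hΦ, g, Sum.map_inr, Sum.elim_inr, hS, autL_spec]; rfl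
      have h0 : Φ (.inl 0) = o 0 := h1 (.inl 0)
      have h4 : Φ (.inl 4) = o 4 := h1 (.inl 4)
      have hx : Φ (g (.inr (w0, 0))) = x (enc w0) := by rw [h1]; rfl
      have h2 : ∀ u : E W, FreeGroup.lift Φ (FreeGroup.mk (u.toWord.map fun p => (g p.1, p.2)))
          = ev (fun v => x (enc v)) u := by
        intro u
        rw [← FreeGroup.map.mk, FreeGroup.mk_toWord]
        have : (FreeGroup.lift Φ).comp (FreeGroup.map g) = ev (fun v => x (enc v)) := by
          ext1 s; simp [ev, h1]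
        exact DFunLike.congr_fun this u
      simp only [w, C, ← FreeGroup.mul_mk, map_mul, h2]
      simp [A, B, J, h0, h4, hx, Function.comp_def, pow_two, mul_assoc]
    simp only [key]
    constructor
    · rintro ⟨x, hx⟩; exact ⟨fun v => x (enc v), hx⟩
    · rintro ⟨y, hy⟩
      refine ⟨Function.extend enc y fun _ => 1, ?_⟩
      simpa only [henc.extend_apply] using hy
  · have hg : ∀ s j, g s = Sum.inr j → j < S.length := by
      rintro (i | s) j h
      · simp [g] at h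
      · simp [g] at h; simp [S, ← h]
    intro p hp j hj
    simp only [w, A, B, C, List.mem_append, List.mem_map, List.mem_cons, List.not_mem_nil,
      or_false] at hp
    rcases hp with (rfl | rfl | rfl | rfl) | ⟨_, _, rfl⟩ | (rfl | rfl | rfl | rfl) | ⟨_, _, rfl⟩ |
      (rfl | rfl) | ⟨_, _, rfl⟩ <;> first | exact hg _ _ hj | exact hg (.inr (w0, 0)) _ hj | simp at hj
  · intro p hp
    simp only [S, List.mem_ofFn] at hp
    obtain ⟨j, rfl⟩ := hp
    refine ⟨?_, ?_⟩
    · generalize (q.symm j).2 = i; fin_cases i <;> rfl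
    · simp only [autL_spec]; exact (aut _).bijective

end Pool.Agent.S02214
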