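import Pool.Statements.S02219
import Pool.Agent.Lib.helper3.Pal
-- import your own Pool.Agent.* helpers here

set_option autoImplicit false
open Pool Pool.MP_8bc403_al

namespace Pool.Agent.S02219

/-- There is a group with finite generating sets X and Y such that every element is a product of boundedly many palindromes over X, but no such bound exists for palindromes over Y. -/
theorem result :
    ∃ (G : Type) (_ : Group G) (X Y : Finset G),
      Subgroup.closure (X : Set G) = ⊤ ∧ Subgroup.closure (Y : Set G) = ⊤ ∧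
      (∃ N : ℕ, ∀ g : G, ∃ ps : List G, ps.length ≤ N ∧ ps.prod = g ∧
        ∀ p ∈ ps, ∃ w : List G, (∀ x ∈ w, x ∈ X ∨ x⁻¹ ∈ X) ∧ w.reverse = w ∧ w.prod = p) ∧
      ¬ (∃ N : ℕ, ∀ g : G, ∃ ps : List G, ps.length ≤ N ∧ ps.prod = g ∧
        ∀ p ∈ ps, ∃ w : List G, (∀ x ∈ w, x ∈ Y ∨ x⁻¹ ∈ Y) ∧ w.reverse = w ∧ w.prod = p) := by
  obtain ⟨φ, h1, h2⟩ := Lib.H3Pal.main
  refine ⟨FreeGroup Bool, inferInstance, {.of true, .of false, .of true * .of false},
    {.of true, .of false}, ?_, ?_, ⟨3, fun g => ?_⟩, fun ⟨N, hN⟩ => ?_⟩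
  · refine top_unique (Lib.H3Pal.gen.ge.trans (Subgroup.closure_mono ?_))
    rintro _ (rfl | rfl) <;> simp
  · simpa using Lib.H3Pal.gen
  · obtain ⟨L, a, b, c⟩ := Lib.H3Pal.fin_width _ _ Lib.H3Pal.gen g
    exact ⟨_, by simpa, c, List.forall_mem_map.2 fun w hw =>
      ⟨w, by simpa using (b w hw).2, (b w hw).1, rfl⟩⟩
  · obtain ⟨g, -, hg⟩ := h2 N
    obtain ⟨l, a, b, c⟩ := hN g
    refine hg l a (fun p hp => ?_) b
    obtain ⟨w, w1, w2, rfl⟩ := c p hp
    rw [h1 w (by simpa using w1) w2]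
    norm_num

end Pool.Agent.S02219
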