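import Pool.Statements.S02284

set_option autoImplicit false
open Pool Pool.MP_918b6a_al

namespace Pool.Agent.S02284

open Classical

@[ext] structure Gam (T : Type) [PartialOrder T] where
  c : T → ℤ
  p : T ≃o T

section abs

variable {T : Type} [PartialOrder T]

instance : Mul (Gam T) := ⟨fun g h => ⟨fun σ => g.c (h.p σ) + h.c σ, g.p * h.p⟩⟩
instance : One (Gam T) := ⟨⟨fun _ => 0, 1⟩⟩
instance : Inv (Gam T) := ⟨fun g => ⟨fun σ => -g.c (g.p⁻¹ σ), g.p⁻¹⟩⟩

theorem mul_c (g h : Gam T) (σ : T) : (g * h).c σ = g.c (h.p σ) + h.c σ := rfl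
theorem mul_p (g h : Gam T) (σ : T) : (g * h).p σ = g.p (h.p σ) := rfl
theorem mul_p' (g h : Gam T) : (g * h).p = g.p * h.p := rfl
theorem one_c (σ : T) : (1 : Gam T).c σ = 0 := rfl
theorem one_p (σ : T) : (1 : Gam T).p σ = σ := rfl
theorem inv_c (g : Gam T) (σ : T) : g⁻¹.c σ = -g.c (g.p⁻¹ σ) := rfl
theorem inv_p (g : Gam T) : g⁻¹.p = g.p⁻¹ := rfl

instance : Group (Gam T) := Group.ofLeftAxioms
  (fun a b c => Gam.ext (funext fun σ => by simp only [mul_c, mul_p]; ring) (mul_assoc _ _ _))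
  (fun a => Gam.ext (funext fun σ => by simp only [mul_c, one_c]; ring) (one_mul _))
  (fun a => Gam.ext (funext fun σ => by
    simp only [mul_c, inv_c, one_c, RelIso.inv_apply_self]; ring) (inv_mul_cancel _))

theorem inv_p_fix {g : Gam T} {σ : T} (h : g.p σ = σ) : g⁻¹.p σ = σ := by
  rw [inv_p]
  conv_lhs => rw [← h]
  exact RelIso.inv_apply_self _ _

theorem p_inv_p (g : Gam T) (σ : T) : g.p (g⁻¹.p σ) = σ := RelIso.apply_inv_self _ _
theorem inv_p_p (g : Gam T) (σ : T) : g⁻¹.p (g.p σ) = σ := RelIso.inv_apply_self _ _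

theorem inv_c_p (g : Gam T) (σ : T) : g⁻¹.c (g.p σ) = -g.c σ := by
  rw [inv_c, RelIso.inv_apply_self]

structure Rack (T : Type) [PartialOrder T] where
  π : T → T ≃o T
  fix : ∀ τ σ, ¬ σ < τ → π τ σ = σ
  conj : ∀ τ ν, ν < τ → ∀ σ, π τ (π ν σ) = π (π τ ν) (π τ σ)
  root : ∀ x a b : T, x ≤ a → x ≤ b → a ≤ b ∨ b ≤ a

variable (r : Rack T)

theorem Rack.self (τ : T) : r.π τ τ = τ := r.fix τ τ (lt_irrefl τ)

theorem Rack.conj' (τ ν : T) (h : ¬ τ < ν) (σ : T) :
    r.π τ (r.π ν σ) = r.π (r.π τ ν) (r.π τ σ) := by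
  by_cases h1 : ν < τ
  · exact r.conj τ ν h1 σ
  rw [r.fix τ ν h1]
  by_cases h2 : ν = τ
  · rw [h2]
  have key : ∀ x, x < ν → ¬ x < τ := by
    intro x hx hx'
    rcases r.root x ν τ hx.le hx'.le with h3 | h3
    · exact h1 (lt_of_le_of_ne h3 h2)
    · exact h (lt_of_le_of_ne h3 (Ne.symm h2))
  by_cases h3 : σ < ν
  · have : r.π ν σ < ν := by
      conv_rhs => rw [← r.self ν]
      exact (r.π ν).strictMono h3
    rw [r.fix τ _ (key _ this), r.fix τ _ (key _ h3)]
  · rw [r.fix ν σ h3]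
    by_cases h4 : σ < τ
    · have : r.π τ σ < τ := by
        conv_rhs => rw [← r.self τ]
        exact (r.π τ).strictMono h4
      rw [r.fix ν _ (fun h5 => key _ h5 this)]
    · rw [r.fix τ σ h4, r.fix ν σ h3]

noncomputable def gen (τ : T) : Gam T := ⟨fun σ => if σ = τ then 1 else 0, r.π τ⟩

theorem eq_iff_of_fix {g : Gam T} {τ : T} (h : g.p τ = τ) (σ : T) : g.p σ = τ ↔ σ = τ := by
  conv_lhs => rw [← h]
  exact g.p.injective.eq_iff

theorem lt_iff_of_fix {g : Gam T} {τ : T} (h : g.p τ = τ) (σ : T) : g.p σ < τ ↔ σ < τ := by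
  conv_lhs => rw [← h]
  exact g.p.lt_iff_lt

theorem lt_iff_of_fix' {g : Gam T} {τ : T} (h : g.p τ = τ) (σ : T) : τ < g.p σ ↔ τ < σ := by
  conv_lhs => rw [← h]
  exact g.p.lt_iff_lt

theorem le_iff_of_fix' {g : Gam T} {τ : T} (h : g.p τ = τ) (σ : T) : τ ≤ g.p σ ↔ τ ≤ σ := by
  conv_lhs => rw [← h]
  exact g.p.le_iff_le

theorem gen_conj (τ ν : T) (h : ¬ τ < ν) :
    gen r τ * gen r ν * (gen r τ)⁻¹ = gen r (r.π τ ν) := by
  rw [mul_inv_eq_iff_eq_mul]
  refine Gam.ext (funext fun σ => ?_) (RelIso.ext fun σ => r.conj' τ ν h σ)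
  have h1 : (gen r ν).p σ = τ ↔ σ = τ := eq_iff_of_fix (r.fix ν τ h) σ
  have h2 : r.π τ σ = r.π τ ν ↔ σ = ν := (r.π τ).injective.eq_iff
  simp only [mul_c]
  simp only [gen] at h1 ⊢
  simp only [h1, h2]
  ring

theorem gen_zpow (τ : T) (n : ℤ) : (∀ σ, ¬ σ < τ → (gen r τ ^ n).p σ = σ) ∧
    (∀ σ, (gen r τ ^ n).c σ = if σ = τ then n else 0) := by
  induction n using Int.induction_on with
  | zero => exact ⟨fun σ _ => rfl, fun σ => by simp [one_c]⟩
  | succ n ih =>
    rw [zpow_add_one]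
    refine ⟨fun σ hσ => ?_, fun σ => ?_⟩
    · rw [mul_p, show (gen r τ).p σ = σ from r.fix τ σ hσ, ih.1 σ hσ]
    · rw [mul_c, ih.2]
      simp only [eq_iff_of_fix (show (gen r τ).p τ = τ from r.self τ)]
      simp only [gen]
      split_ifs <;> simp
  | pred n ih =>
    rw [zpow_sub_one]
    refine ⟨fun σ hσ => ?_, fun σ => ?_⟩
    · rw [mul_p, inv_p_fix (show (gen r τ).p σ = σ from r.fix τ σ hσ), ih.1 σ hσ]
    · rw [mul_c, ih.2, inv_c, ← inv_p]
      have := eq_iff_of_fix (inv_p_fix (show (gen r τ).p τ = τ from r.self τ)) σ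
      simp only [this]
      generalize (gen r τ)⁻¹.p σ = x at this
      simp only [gen, this]
      split_ifs <;> simp [sub_eq_add_neg]

def Sub (μ : T) : Subgroup (Gam T) where
  carrier := {g | g.p μ = μ ∧ ∀ ν, ¬ μ < ν → g * gen r ν * g⁻¹ = gen r (g.p ν)}
  one_mem' := ⟨rfl, fun ν _ => by simp [one_p]⟩
  mul_mem' := by
    rintro g h ⟨g1, g2⟩ ⟨h1, h2⟩
    refine ⟨by rw [mul_p, h1, g1], fun ν hν => ?_⟩
    rw [mul_p, ← g2 _ (by rwa [lt_iff_of_fix' h1]), ← h2 ν hν]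
    group
  inv_mem' := by
    rintro g ⟨g1, g2⟩
    refine ⟨inv_p_fix g1, fun ν hν => ?_⟩
    have := g2 (g⁻¹.p ν) (by rwa [lt_iff_of_fix' (inv_p_fix g1)])
    rw [p_inv_p] at this
    rw [← this]
    group

theorem gen_mem_Sub (μ : T) (m : ℤ) : gen r μ ^ m ∈ Sub r μ :=
  zpow_mem (show gen r μ ∈ Sub r μ from ⟨r.self μ, fun ν hν => gen_conj r μ ν hν⟩) m

inductive RR : Gam T → Prop
  | one : RR 1
  | step (μ : T) (n : ℤ) (g : Gam T) : RR g → (∀ σ, μ ≤ σ → g.c σ = 0) → RR (gen r μ ^ n * g)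

theorem step_c' {μ : T} {n : ℤ} {g : Gam T} (h : g.p μ = μ) (σ : T) :
    (gen r μ ^ n * g).c σ = (if σ = μ then n else 0) + g.c σ := by
  rw [mul_c, (gen_zpow r μ n).2]
  simp only [eq_iff_of_fix h]

variable {r}

theorem RR.fix {g : Gam T} (h : RR r g) : ∀ τ, (∀ σ, τ < σ → g.c σ = 0) → g.p τ = τ := by
  induction h with
  | one => intro τ _; rfl
  | step μ n g hg hz ih =>
    intro τ hτ
    have h1 := ih μ (fun σ hσ => hz σ hσ.le)
    simp only [step_c' r h1] at hτ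
    rw [mul_p]
    by_cases h2 : τ < μ
    · have h3 := hτ μ h2
      rw [if_pos rfl, hz μ le_rfl, add_zero] at h3
      subst h3
      rw [zpow_zero, one_p]
      exact ih τ (fun σ hσ => by simpa using hτ σ hσ)
    · rw [ih τ, (gen_zpow r μ n).1 τ h2]
      intro σ hσ
      have := hτ σ hσ
      rwa [if_neg (by rintro rfl; exact h2 hσ), zero_add] at this

theorem step_c {μ : T} (n : ℤ) {g : Gam T} (hg : RR r g) (hz : ∀ σ, μ ≤ σ → g.c σ = 0) (σ : T) :
    (gen r μ ^ n * g).c σ = (if σ = μ then n else 0) + g.c σ :=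
  step_c' r (hg.fix μ (fun σ hσ => hz σ hσ.le)) σ

theorem RR.fin {g : Gam T} (h : RR r g) : {σ | g.c σ ≠ 0}.Finite := by
  induction h with
  | one => simp [one_c]
  | step μ n g hg hz ih =>
    refine (ih.insert μ).subset fun σ hσ => ?_
    rw [Set.mem_ofPred_eq, step_c n hg hz] at hσ
    by_cases h : σ = μ
    · exact Or.inl h
    · right
      rwa [if_neg h, zero_add] at hσ

theorem RR.gen_mul {g : Gam T} (h : RR r g) : ∀ ν (n : ℤ), RR r (gen r ν ^ n * g) := by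
  induction h with
  | one => intro ν n; exact RR.step ν n 1 RR.one (fun _ _ => rfl)
  | step μ m g hg hz ih =>
    intro ν n
    by_cases h1 : μ ≤ ν
    · rcases h1.eq_or_lt with rfl | h2
      · rw [← mul_assoc, ← zpow_add]
        exact RR.step μ _ g hg hz
      · refine RR.step ν n _ (RR.step μ m g hg hz) fun σ hσ => ?_
        rw [step_c m hg hz, hz σ (h1.trans hσ), if_neg (h2.trans_le hσ).ne', add_zero]
    · obtain ⟨h2, h3⟩ := inv_mem (gen_mem_Sub r μ m)
      have h4 := h3 ν (fun h => h1 h.le)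
      set ν' := (gen r μ ^ m)⁻¹.p ν
      have h5 : ¬ μ ≤ ν' := by rwa [le_iff_of_fix' h2]
      have h6 : gen r ν ^ n * (gen r μ ^ m * g) = gen r μ ^ m * (gen r ν' ^ n * g) := by
        rw [← h4, conj_zpow]
        group
      rw [h6]
      refine RR.step μ m _ (ih ν' n) fun σ hσ => ?_
      rw [mul_c, hz σ hσ, hg.fix σ (fun x hx => hz x (hσ.trans hx.le)), (gen_zpow r ν' n).2,
        if_neg (by rintro rfl; exact h5 hσ), add_zero]

theorem RR.mul {g h : Gam T} (hg : RR r g) (hh : RR r h) : RR r (g * h) := by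
  induction hg with
  | one => rwa [one_mul]
  | step μ m g _ _ ih => rw [mul_assoc]; exact ih.gen_mul μ m

theorem RR.genp (μ : T) (m : ℤ) : RR r (gen r μ ^ m) := by
  simpa using (RR.one (r := r)).gen_mul μ m

theorem RR.inv {g : Gam T} (hg : RR r g) : RR r g⁻¹ := by
  induction hg with
  | one => simpa using RR.one
  | step μ m g _ _ ih =>
    rw [mul_inv_rev, ← zpow_neg]
    exact ih.mul (RR.genp μ _)

theorem RR.comm {μ : T} {a : Gam T} (ha : RR r a) :
    (∀ σ, a.c σ ≠ 0 → ¬ μ < σ ∧ ¬ σ < μ) → Commute (gen r μ) a := by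
  induction ha with
  | one => intro _; exact Commute.one_right _
  | step ν n a ha hz ih =>
    intro h
    simp only [step_c n ha hz] at h
    have h1 : Commute (gen r μ) a := by
      refine ih fun σ hσ => h σ ?_
      rwa [if_neg (by rintro rfl; exact hσ (hz _ le_rfl)), zero_add]
    refine Commute.mul_right ?_ h1
    by_cases hn : n = 0
    · subst hn; simp
    · obtain ⟨h2, h3⟩ := h ν (by rwa [if_pos rfl, hz _ le_rfl, add_zero])
      have := gen_conj r μ ν h2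
      rw [r.fix μ ν h3, mul_inv_eq_iff_eq_mul] at this
      exact Commute.zpow_right this n

theorem RR.split (S : Set T) (hS : ∀ x y, x ≤ y → y ∈ S → x ∈ S) {g : Gam T} (hg : RR r g) :
    (∀ σ τ, σ ∉ S → τ ∈ S → τ < σ → g.c σ = 0) → ∃ a b, RR r a ∧ RR r b ∧ g = a * b ∧
      (∀ σ, a.c σ = if σ ∈ S then g.c σ else 0) ∧ (∀ σ, b.c σ = if σ ∈ S then 0 else g.c σ) := by
  induction hg with
  | one => intro _; exact ⟨1, 1, RR.one, RR.one, by simp, by simp [one_c], by simp [one_c]⟩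
  | step μ m g hg hz ih =>
    intro h
    simp only [step_c m hg hz] at h ⊢
    obtain ⟨a, b, ha, hb, hab, hac, hbc⟩ := ih (by
      intro σ τ h1 h2 h3
      by_cases h4 : σ = μ
      · exact hz σ h4.ge
      · simpa [h4] using h σ τ h1 h2 h3)
    have haz : ∀ σ, μ ≤ σ → a.c σ = 0 := fun σ hσ => by simp [hac, hz σ hσ]
    have hbz : ∀ σ, μ ≤ σ → b.c σ = 0 := fun σ hσ => by simp [hbc, hz σ hσ]
    by_cases hμ : μ ∈ S
    · refine ⟨_, b, RR.step μ m a ha haz, hb, by rw [hab, mul_assoc], fun σ => ?_, fun σ => ?_⟩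
      · rw [step_c m ha haz, hac]
        by_cases h4 : σ = μ
        · simp [h4, hμ]
        · simp [h4]
      · rw [hbc]
        by_cases h4 : σ = μ
        · simp [h4, hμ]
        · simp [h4]
    · refine ⟨a, _, ha, RR.step μ m b hb hbz, ?_, fun σ => ?_, fun σ => ?_⟩
      · by_cases hm : m = 0
        · simp [hm, hab]
        · have : Commute (gen r μ) a := by
            refine ha.comm fun σ hσ => ⟨fun h1 => hσ (haz σ h1.le), fun h1 => ?_⟩
            have h2 : σ ∈ S := by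
              by_contra h3
              exact hσ (by simp [hac, h3])
            have := h μ σ hμ h2 h1
            rw [if_pos rfl, hz μ le_rfl, add_zero] at this
            exact hm this
          rw [hab, ← mul_assoc, (this.zpow_left m).eq, mul_assoc]
      · rw [hac]
        by_cases h4 : σ = μ
        · simp [h4, hμ]
        · simp [h4]
      · rw [step_c m hb hbz, hbc]
        by_cases h4 : σ = μ
        · simp [h4, hμ]
        · simp [h4]

def Pos (g : Gam T) : Prop := ∀ μ, (∀ σ, μ < σ → g.c σ = 0) → 0 ≤ g.c μ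

theorem exists_top {s : Set T} (hs : s.Finite) {x : T} (hx : x ∈ s) :
    ∃ y ∈ s, x ≤ y ∧ ∀ z, y < z → z ∉ s := by
  obtain ⟨y, h1, h2⟩ := hs.exists_le_maximal hx
  exact ⟨y, h2.1, h1, fun z hz hz' => (lt_irrefl _ (hz.trans_le (h2.2 hz' hz.le)))⟩

theorem top_zero {g h : Gam T} (hg : RR r g) (hh : RR r h) (pg : Pos g) (ph : Pos h) (x : T)
    (hx : ∀ σ, x ≤ σ → (g * h).c σ = 0) : g.c x = 0 ∧ h.c x = 0 := by
  by_contra hcon
  obtain ⟨y, h1, h2, h3⟩ := exists_top (hg.fin.union hh.fin) (x := x) (by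
    simp only [Set.mem_union, Set.mem_ofPred_eq]
    tauto)
  simp only [Set.mem_union, Set.mem_ofPred_eq, not_or, not_not] at h1 h3
  have e1 := pg y (fun z hz => (h3 z hz).1)
  have e2 := ph y (fun z hz => (h3 z hz).2)
  have e3 := hx y h2
  rw [mul_c, hh.fix y (fun z hz => (h3 z hz).2)] at e3
  omega

theorem Pos.mul {g h : Gam T} (hg : RR r g) (hh : RR r h) (pg : Pos g) (ph : Pos h) :
    Pos (g * h) := by
  intro μ hμ
  have := fun σ (hσ : μ < σ) => top_zero hg hh pg ph σ (fun x hx => hμ x (hσ.trans_le hx))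
  rw [mul_c, hh.fix μ (fun z hz => (this z hz).2)]
  exact add_nonneg (pg μ fun z hz => (this z hz).1) (ph μ fun z hz => (this z hz).2)

theorem eq_one_of_c {g : Gam T} (hg : RR r g) (h : ∀ σ, g.c σ = 0) : g = 1 :=
  Gam.ext (funext h) (RelIso.ext fun σ => hg.fix σ fun x _ => h x)

theorem Pos.antisymm {g : Gam T} (hg : RR r g) (pg : Pos g) (ph : Pos g⁻¹) : g = 1 :=
  eq_one_of_c hg fun σ => (top_zero hg hg.inv pg ph σ (fun x _ => by rw [mul_inv_cancel, one_c])).1

theorem conj_c (h g : Gam T) (σ : T) (hσ : g.p σ = σ) : (h * g * h⁻¹).c (h.p σ) = g.c σ := by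
  rw [mul_c, mul_c, inv_p_p, inv_c_p, hσ]
  ring

theorem conj_zero {g : Gam T} (hg : RR r g) (h : Gam T) (x : T)
    (hx : ∀ σ, x ≤ σ → (h * g * h⁻¹).c (h.p σ) = 0) : g.c x = 0 := by
  by_contra hcon
  obtain ⟨y, h1, h2, h3⟩ := exists_top hg.fin (x := x) hcon
  simp only [Set.mem_ofPred_eq, not_not] at h1 h3
  have := hx y h2
  rw [conj_c h g y (hg.fix y h3)] at this
  exact h1 this

theorem Pos.conj {g : Gam T} (hg : RR r g) (pg : Pos g) (h : Gam T) : Pos (h * g * h⁻¹) := by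
  intro μ hμ
  obtain ⟨μ, rfl⟩ := h.p.surjective μ
  have h1 : ∀ σ, μ < σ → g.c σ = 0 := fun σ hσ =>
    conj_zero hg h σ fun x hx => hμ _ (h.p.strictMono (hσ.trans_le hx))
  rw [conj_c h g μ (hg.fix μ h1)]
  exact pg μ h1

theorem exists_pp {g : Gam T} (hg : RR r g) : ∃ a, RR r a ∧ Pos a ∧ Pos (g⁻¹ * a) ∧
    ∀ h, RR r h → Pos h → Pos (g⁻¹ * h) → Pos (a⁻¹ * h) := by
  let S : Set T := {x | ∃ μ, x ≤ μ ∧ 0 < g.c μ ∧ ∀ σ, μ < σ → g.c σ = 0}
  have hS : ∀ x y, x ≤ y → y ∈ S → x ∈ S := fun x y hxy ⟨μ, h1, h2⟩ => ⟨μ, hxy.trans h1, h2⟩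
  have hS2 : ∀ σ τ, σ ∉ S → τ ∈ S → τ < σ → g.c σ = 0 := by
    rintro σ τ h1 ⟨μ, h2, h3, h4⟩ h5
    rcases r.root τ σ μ h5.le h2 with h6 | h6
    · exact absurd ⟨μ, h6, h3, h4⟩ h1
    · rcases h6.eq_or_lt with rfl | h7
      · exact absurd ⟨μ, le_rfl, h3, h4⟩ h1
      · exact h4 σ h7
  obtain ⟨a, b, ha, hb, hab, hac, hbc⟩ := hg.split S hS hS2
  have hbS : ∀ τ ∈ S, ∀ σ, τ ≤ σ → b.c σ = 0 := by
    intro τ hτ σ hσ
    rw [hbc]
    split_ifs with h
    · rfl
    · exact hS2 σ τ h hτ (lt_of_le_of_ne hσ (by rintro rfl; exact h hτ))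
  have hbS' : ∀ τ ∈ S, ∀ σ, τ ≤ σ → b⁻¹.c σ = 0 := by
    intro τ hτ σ hσ
    have := hb.fix σ (fun x hx => hbS τ hτ x (hσ.trans hx.le))
    rw [← this, inv_c_p, hbS τ hτ σ hσ, neg_zero]
  refine ⟨a, ha, ?_, ?_, ?_⟩
  · intro μ hμ
    rw [hac]
    split_ifs with h
    · obtain ⟨ν, h1, h2, h3⟩ := h
      rcases h1.eq_or_lt with rfl | h4
      · exact h2.le
      · have := hμ ν h4
        rw [hac, if_pos ⟨ν, le_rfl, h2, h3⟩] at this
        omega
    · exact le_rfl
  · have : g⁻¹ * a = b⁻¹ := by rw [hab]; group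
    rw [this]
    intro μ hμ
    have h1 := hb.inv.fix μ hμ
    have h2 : ∀ σ, μ < σ → b.c σ = 0 := by
      intro σ hσ
      have := hμ (b.p σ) (by rw [← lt_iff_of_fix' h1, inv_p_p]; exact hσ)
      rwa [inv_c_p, neg_eq_zero] at this
    rw [← hb.fix μ h2, inv_c_p, hbc]
    split_ifs with h
    · simp
    · by_contra h3
      refine h ⟨μ, le_rfl, by omega, fun σ hσ => ?_⟩
      have := h2 σ hσ
      rwa [hbc, if_neg (fun h4 => h (hS _ _ hσ.le h4))] at this
  · intro h hh p1 p2 μ hμ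
    have hu : RR r (a⁻¹ * h) := ha.inv.mul hh
    have e1 : h = a * (a⁻¹ * h) := by group
    have e2 : g⁻¹ * h = b⁻¹ * (a⁻¹ * h) := by rw [hab]; group
    rw [e2] at p2
    rw [e1] at p1
    generalize a⁻¹ * h = u at *
    have hf : ∀ σ, μ ≤ σ → u.p σ = σ := fun σ hσ => hu.fix σ fun x hx => hμ x (hσ.trans_lt hx)
    by_cases hm : μ ∈ S
    · have e : ∀ σ, μ ≤ σ → (b⁻¹ * u).c σ = u.c σ := fun σ hσ => by
        rw [mul_c, hf σ hσ, hbS' μ hm σ hσ, zero_add]
      rw [← e μ le_rfl]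
      exact p2 μ fun σ hσ => by rw [e σ hσ.le, hμ σ hσ]
    · have e : ∀ σ, μ ≤ σ → (a * u).c σ = u.c σ := fun σ hσ => by
        rw [mul_c, hf σ hσ, hac, if_neg (fun h4 => hm (hS _ _ hσ h4)), zero_add]
      rw [← e μ le_rfl]
      exact p1 μ fun σ hσ => by rw [e σ hσ.le, hμ σ hσ]

theorem dominate {a b : Gam T} (ha : RR r a) (pa : Pos a) (γ : T) (h1 : a.c γ ≠ 0)
    (h2 : ∀ σ, γ < σ → a.c σ = 0) (h3 : ∀ σ, b.c σ ≠ 0 → σ < γ) : Pos (b * a) := by
  have hf := ha.fix γ h2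
  have e : ∀ σ, ¬ σ < γ → (b * a).c σ = a.c σ := by
    intro σ hσ
    rw [mul_c]
    by_cases h : b.c (a.p σ) = 0
    · rw [h, zero_add]
    · exact absurd ((lt_iff_of_fix hf σ).mp (h3 _ h)) hσ
  intro μ hμ
  by_cases h : μ < γ
  · have := hμ γ h
    rw [e γ (lt_irrefl _)] at this
    exact absurd this h1
  · rw [e μ h]
    exact pa μ fun σ hσ => by rw [← e σ (fun h4 => h (hσ.trans h4)), hμ σ hσ]

variable (r)

def GS : Subgroup (Gam T) where
  carrier := {g | RR r g}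
  one_mem' := RR.one
  mul_mem' := RR.mul
  inv_mem' := RR.inv

def GG : Type := GS r

instance : Group (GG r) := inferInstanceAs (Group (GS r))

variable {r}

def GG.v (g : GG r) : Gam T := Subtype.val g
theorem GG.rr (g : GG r) : RR r g.v := Subtype.property g
theorem v_mul (g h : GG r) : (g * h).v = g.v * h.v := rfl
theorem v_inv (g : GG r) : g⁻¹.v = g.v⁻¹ := rfl
theorem v_one : (1 : GG r).v = 1 := rfl
theorem v_inj {g h : GG r} (e : g.v = h.v) : g = h := Subtype.ext e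
def mkG (g : Gam T) (h : RR r g) : GG r := (⟨g, h⟩ : GS r)

instance : PartialOrder (GG r) where
  le a b := Pos (a⁻¹ * b).v
  le_refl a := by
    rw [inv_mul_cancel]
    intro μ _
    exact le_rfl
  le_trans a b c h1 h2 := by
    have := Pos.mul (GG.rr _) (GG.rr _) h1 h2
    rwa [← v_mul, mul_assoc, mul_inv_cancel_left] at this
  le_antisymm a b h1 h2 := by
    have := Pos.antisymm (GG.rr _) h1 (by rwa [← v_inv, mul_inv_rev, inv_inv])
    have : a⁻¹ * b = 1 := v_inj this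
    exact inv_mul_eq_one.mp this

theorem le_def (a b : GG r) : a ≤ b ↔ Pos (a⁻¹ * b).v := Iff.rfl

theorem le_def' {a b : GG r} (h : a ≤ b) (c : GG r) : Pos (c * (a⁻¹ * b) * c⁻¹).v :=
  Pos.conj (GG.rr _) h c.v

theorem inv_le_inv' {a b : GG r} (h : a ≤ b) : b⁻¹ ≤ a⁻¹ := by
  have := le_def' h b
  rw [le_def]
  convert this using 2
  group

noncomputable def pp (g : GG r) : GG r := mkG (exists_pp g.rr).choose (exists_pp g.rr).choose_spec.1

theorem pp1 (g : GG r) : Pos (pp g).v := (exists_pp g.rr).choose_spec.2.1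
theorem pp2 (g : GG r) : Pos (g⁻¹ * pp g).v := (exists_pp g.rr).choose_spec.2.2.1
theorem pp3 (g h : GG r) (h1 : Pos h.v) (h2 : Pos (g⁻¹ * h).v) : Pos ((pp g)⁻¹ * h).v :=
  (exists_pp g.rr).choose_spec.2.2.2 h.v h.rr h1 h2

noncomputable instance : SemilatticeSup (GG r) where
  sup a b := a * pp (a⁻¹ * b)
  le_sup_left a b := by
    rw [le_def, inv_mul_cancel_left]
    exact pp1 _
  le_sup_right a b := by
    rw [le_def]
    convert pp2 (a⁻¹ * b) using 2
    group
  sup_le a b c h1 h2 := by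
    rw [le_def]
    have := pp3 (a⁻¹ * b) (a⁻¹ * c) h1 (by
      rw [le_def] at h2
      convert h2 using 2
      group)
    convert this using 2
    group

noncomputable instance : Lattice (GG r) where
  inf a b := (a⁻¹ ⊔ b⁻¹)⁻¹
  inf_le_left a b := by simpa using inv_le_inv' (le_sup_left : a⁻¹ ≤ a⁻¹ ⊔ b⁻¹)
  inf_le_right a b := by simpa using inv_le_inv' (le_sup_right : b⁻¹ ≤ a⁻¹ ⊔ b⁻¹)
  le_inf a b c h1 h2 := by simpa using inv_le_inv' (sup_le (inv_le_inv' h1) (inv_le_inv' h2))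

instance : MulLeftMono (GG r) := ⟨fun c a b h => by
  rw [le_def] at *
  convert h using 2
  group⟩

instance : MulRightMono (GG r) := ⟨fun c a b h => by
  have := le_def' h c⁻¹
  change a * c ≤ b * c
  rw [le_def]
  convert this using 2
  group⟩

theorem simple (tr : ∀ (γ : T) (F : Set T), F.Finite → ∃ k, RR r k ∧ ∀ δ ∈ F, δ < k.p γ)
    (H : Subgroup (GG r)) (hn : H.Normal)
    (hc : ∀ a b g : GG r, a ∈ H → b ∈ H → a ≤ g → g ≤ b → g ∈ H)
    (hl : ∀ a b : GG r, a ∈ H → b ∈ H → a ⊔ b ∈ H ∧ a ⊓ b ∈ H) : H = ⊥ ∨ H = ⊤ := by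
  by_cases hb : H = ⊥
  · exact Or.inl hb
  right
  obtain ⟨a, ha, h1, h2⟩ : ∃ a ∈ H, 1 ≤ a ∧ a ≠ 1 := by
    obtain ⟨g, hg, hg1⟩ := (Subgroup.nontrivial_iff_exists_ne_one H).mp
      ((Subgroup.nontrivial_iff_ne_bot H).mpr hb)
    by_contra hcon
    push Not at hcon
    have e1 := hcon (g ⊔ 1) (hl _ _ hg H.one_mem).1 le_sup_right
    have e2 := hcon (g⁻¹ ⊔ 1) (hl _ _ (H.inv_mem hg) H.one_mem).1 le_sup_right
    have e3 : g ≤ 1 := e1 ▸ le_sup_left
    have e4 : g⁻¹ ≤ 1 := e2 ▸ le_sup_left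
    have e5 := inv_le_inv' e4
    rw [inv_one, inv_inv] at e5
    exact hg1 (le_antisymm e3 e5)
  have pa : Pos a.v := by simpa [le_def] using h1
  obtain ⟨x, hx⟩ : ∃ x, a.v.c x ≠ 0 := by
    by_contra hcon
    push Not at hcon
    exact h2 (v_inj (eq_one_of_c a.rr hcon))
  obtain ⟨γ, g1, -, g2⟩ := exists_top a.rr.fin hx
  simp only [Set.mem_ofPred_eq, not_not] at g1 g2
  rw [eq_top_iff]
  intro b _
  obtain ⟨k, hk, hk2⟩ := tr γ _ (b.rr.fin.union b⁻¹.rr.fin)
  let k' := mkG k hk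
  have ha' : k' * a * k'⁻¹ ∈ H := hn.conj_mem a ha k'
  have dom : ∀ b' : Gam T, (∀ σ, b'.c σ ≠ 0 → σ < k.p γ) → Pos (b' * (k' * a * k'⁻¹).v) := by
    intro b' hb'
    refine dominate (GG.rr _) (pa.conj a.rr k) (k.p γ) ?_ ?_ hb'
    · change (k * a.v * k⁻¹).c _ ≠ 0
      rwa [conj_c k a.v γ (a.rr.fix γ g2)]
    · intro σ hσ
      obtain ⟨σ, rfl⟩ := k.p.surjective σ
      rw [k.p.lt_iff_lt] at hσ
      change (k * a.v * k⁻¹).c _ = 0
      rw [conj_c k a.v σ (a.rr.fix σ fun z hz => g2 z (hσ.trans hz)), g2 σ hσ]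
  refine hc _ _ b (H.inv_mem ha') ha' ?_ (dom b⁻¹.v fun σ hσ => hk2 σ (Or.inr hσ))
  have e1 : b⁻¹ ≤ k' * a * k'⁻¹ := by
    rw [le_def, inv_inv]
    exact dom b.v fun σ hσ => hk2 σ (Or.inl hσ)
  simpa using inv_le_inv' e1

section sib

variable (ty : T → Prop) (par : T → T) (hty : ∀ τ σ, ty (r.π τ σ) ↔ ty σ)
  (hpar : ∀ τ σ, par (r.π τ σ) = r.π τ (par σ))

include hty hpar in
theorem equivar {g : Gam T} (hg : RR r g) :
    ∀ σ, (ty (g.p σ) ↔ ty σ) ∧ par (g.p σ) = g.p (par σ) := by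
  let K : Subgroup (Gam T) :=
    { carrier := {g | ∀ σ, (ty (g.p σ) ↔ ty σ) ∧ par (g.p σ) = g.p (par σ)}
      one_mem' := fun σ => ⟨Iff.rfl, rfl⟩
      mul_mem' := fun {a b} ha hb σ => ⟨by rw [mul_p, (ha _).1, (hb _).1],
        by rw [mul_p, mul_p, (ha _).2, (hb _).2]⟩
      inv_mem' := fun {a} ha σ => ⟨by rw [← (ha _).1, p_inv_p], by
        apply a.p.injective
        rw [← (ha _).2, p_inv_p, p_inv_p]⟩ }
  change g ∈ K
  induction hg with
  | one => exact K.one_mem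
  | step μ n g _ _ ih =>
    exact K.mul_mem (K.zpow_mem (show gen r μ ∈ K from fun σ => ⟨hty μ σ, hpar μ σ⟩) n) ih

def NN : Subgroup (GG r) where
  carrier := {g | g.v.p = 1 ∧ ∃ F : T →₀ ℤ, (∀ σ, F σ = g.v.c σ) ∧ (∀ σ, F σ ≠ 0 → ty σ) ∧
    F.mapDomain par = 0}
  one_mem' := ⟨rfl, 0, fun _ => rfl, by simp, by simp⟩
  mul_mem' := by
    rintro a b ⟨a1, F, a2, a3, a4⟩ ⟨b1, F', b2, b3, b4⟩
    refine ⟨by rw [v_mul, mul_p', a1, b1, mul_one], F + F', fun σ => ?_, fun σ hσ => ?_, ?_⟩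
    · rw [v_mul, mul_c, b1, Finsupp.add_apply, a2, b2]
      rfl
    · by_cases h : F σ = 0
      · exact b3 σ (by simpa [h] using hσ)
      · exact a3 σ h
    · rw [Finsupp.mapDomain_add, a4, b4, add_zero]
  inv_mem' := by
    rintro a ⟨a1, F, a2, a3, a4⟩
    refine ⟨by rw [v_inv, inv_p, a1, inv_one], -F, fun σ => ?_, fun σ hσ => ?_, ?_⟩
    · rw [v_inv, inv_c, a1, Finsupp.neg_apply, a2]
      rfl
    · exact a3 σ (by simpa using hσ)
    · have := Finsupp.mapDomain_add (f := par) (v₁ := -F) (v₂ := F)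
      rw [neg_add_cancel, a4, add_zero, Finsupp.mapDomain_zero] at this
      exact this.symm

include hty hpar in
theorem NN_normal : (NN (r := r) ty par).Normal := ⟨by
  rintro a ⟨a1, F, a2, a3, a4⟩ h
  have he := equivar ty par hty hpar h.rr
  have hinj : Function.Injective h.v.p := h.v.p.injective
  refine ⟨by rw [v_mul, v_mul, mul_p', mul_p', a1, mul_one, v_inv, inv_p, mul_inv_cancel],
    F.mapDomain h.v.p, fun σ => ?_, fun σ hσ => ?_, ?_⟩
  · obtain ⟨σ, rfl⟩ := h.v.p.surjective σ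
    rw [Finsupp.mapDomain_apply hinj, a2, v_mul, v_mul, v_inv, conj_c _ _ _ (by rw [a1]; rfl)]
  · obtain ⟨σ, rfl⟩ := h.v.p.surjective σ
    rw [Finsupp.mapDomain_apply hinj] at hσ
    exact (he σ).1.mpr (a3 σ hσ)
  · have : par ∘ h.v.p = h.v.p ∘ par := funext fun σ => (he σ).2
    rw [← Finsupp.mapDomain_comp, this, Finsupp.mapDomain_comp, a4, Finsupp.mapDomain_zero]⟩

theorem NN_pos (hup : ∀ τ, ty τ → ∀ σ, τ < σ ↔ par τ ≤ σ) (g : GG r)
    (hg : g ∈ NN (r := r) ty par) (pg : Pos g.v) : g = 1 := by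
  obtain ⟨-, F, a2, a3, a4⟩ := hg
  refine v_inj (eq_one_of_c g.rr fun x => ?_)
  by_contra hx
  obtain ⟨γ, g1, -, g2⟩ := exists_top g.rr.fin hx
  simp only [Set.mem_ofPred_eq, not_not] at g1 g2
  have t1 := a3 γ (by rwa [a2])
  have := congrArg (fun G : T →₀ ℤ => G (par γ)) a4
  simp only [Finsupp.mapDomain, Finsupp.sum_apply, Finsupp.coe_zero, Pi.zero_apply] at this
  rw [Finsupp.sum, Finset.sum_eq_zero_iff_of_nonneg] at this
  · have := this γ (by rwa [Finsupp.mem_support_iff, a2])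
    rw [Finsupp.single_eq_same, a2] at this
    exact g1 this
  · intro σ hσ
    rw [Finsupp.single_apply]
    split_ifs with h
    · rw [a2]
      refine pg σ fun z hz => g2 z ?_
      rw [hup γ t1, ← h, ← hup σ (a3 σ (Finsupp.mem_support_iff.mp hσ))]
      exact hz
    · exact le_rfl

include hty hpar in
theorem main (tr : ∀ (γ : T) (F : Set T), F.Finite → ∃ k, RR r k ∧ ∀ δ ∈ F, δ < k.p γ)
    (hup : ∀ τ, ty τ → ∀ σ, τ < σ ↔ par τ ≤ σ) (hid : ∀ τ, ty τ → r.π τ = 1)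
    (t0 t1 : T) (h0 : ty t0) (h1 : ty t1) (hne : t0 ≠ t1) (hp : par t0 = par t1) :
    ¬ (∀ (G : Type) [Group G] [Lattice G] [MulLeftMono G] [MulRightMono G],
      (∀ H : Subgroup G, H.Normal →
          (∀ a b g : G, a ∈ H → b ∈ H → a ≤ g → g ≤ b → g ∈ H) →
          (∀ a b : G, a ∈ H → b ∈ H → a ⊔ b ∈ H ∧ a ⊓ b ∈ H) →
          H = ⊥ ∨ H = ⊤) →
      ∀ H : Subgroup G, H.Normal →
        (∀ a b g : G, a ∈ H → b ∈ H → a ≤ g → g ≤ b → g ∈ H) →
        H = ⊥ ∨ H = ⊤) := by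
  intro H
  have hg : ∀ τ, RR r (gen r τ) := fun τ => by simpa using RR.genp (r := r) τ 1
  rcases H (GG r) (simple tr) (NN ty par) (NN_normal ty par hty hpar) (by
    intro a b g ha hb h1 h2
    have := NN_pos ty par hup (a⁻¹ * b) (mul_mem (inv_mem ha) hb) (h1.trans h2)
    rw [inv_mul_eq_one] at this
    subst this
    rwa [le_antisymm h2 h1]) with h | h
  · have hm : mkG _ (hg t0) * (mkG _ (hg t1))⁻¹ ∈ NN (r := r) ty par := by
      refine ⟨?_, Finsupp.single t0 1 - Finsupp.single t1 1, fun σ => ?_, fun σ hσ => ?_, ?_⟩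
      · change r.π t0 * (r.π t1)⁻¹ = 1
        rw [hid t0 h0, hid t1 h1]
        simp
      · change _ = (if (r.π t1)⁻¹ σ = t0 then (1 : ℤ) else 0) +
          -(if (r.π t1)⁻¹ σ = t1 then (1 : ℤ) else 0)
        rw [hid t1 h1, Finsupp.sub_apply, Finsupp.single_apply, Finsupp.single_apply, inv_one]
        simp only [RelIso.one_apply, eq_comm (a := σ)]
        ring
      · by_contra hcon
        apply hσ
        rw [Finsupp.sub_apply, Finsupp.single_eq_of_ne (by rintro rfl; exact hcon h0),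
          Finsupp.single_eq_of_ne (by rintro rfl; exact hcon h1), sub_zero]
      · have := map_sub (Finsupp.mapDomain.addMonoidHom (M := ℤ) par) (Finsupp.single t0 1)
          (Finsupp.single t1 1)
        simp only [Finsupp.mapDomain.addMonoidHom_apply, Finsupp.mapDomain_single, hp,
          sub_self] at this
        exact this
    rw [h, Subgroup.mem_bot, mul_inv_eq_one] at hm
    have := congrArg (fun g : GG r => g.v.c t0) hm
    change (if t0 = t0 then (1 : ℤ) else 0) = if t0 = t1 then 1 else 0 at this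
    simp [hne] at this
  · have := NN_pos ty par hup (mkG _ (hg t0)) (h ▸ Subgroup.mem_top _) (by
      intro μ _
      change (0 : ℤ) ≤ if μ = t0 then 1 else 0
      split_ifs <;> simp)
    have := congrArg (fun g : GG r => g.v.c t0) this
    change (if t0 = t0 then (1 : ℤ) else 0) = 0 at this
    simp at this

end sib

end abs

section loc

variable {T : Type} [PartialOrder T]
  (root : ∀ x a b : T, x ≤ a → x ≤ b → a ≤ b ∨ b ≤ a)

theorem lt_fix {α : T ≃o T} {τ : T} (h : α τ = τ) (σ : T) : α σ < τ ↔ σ < τ := by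
  conv_lhs => rw [← h]
  exact α.lt_iff_lt

include root in
theorem loc_mono (α : T ≃o T) (τ : T) (h : α τ = τ) :
    Monotone (fun σ => if σ < τ then α σ else σ) := by
  intro x y hxy
  dsimp only
  split_ifs with h1 h2 h2
  · exact α.monotone hxy
  · rcases root x y τ hxy h1.le with h3 | h3
    · have : y = τ := by
        by_contra h4
        exact h2 (lt_of_le_of_ne h3 h4)
      rw [this]
      exact ((lt_fix h x).mpr h1).le
    · exact ((lt_fix h x).mpr h1).le.trans h3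
  · exact absurd (hxy.trans_lt h2) h1
  · exact hxy

noncomputable def loc (α : T ≃o T) (τ : T) (h : α τ = τ) : T ≃o T :=
  have h' : α.symm τ = τ := by rw [OrderIso.symm_apply_eq, h]
  OrderIso.ofHomInv ⟨_, loc_mono root α τ h⟩ ⟨_, loc_mono root α.symm τ h'⟩
    (by
      ext x
      by_cases hx : x < τ
      · simp [hx, lt_fix h']
      · simp [hx])
    (by
      ext x
      by_cases hx : x < τ
      · simp [hx, lt_fix h]
      · simp [hx])

theorem loc_apply (α : T ≃o T) (τ : T) (h : α τ = τ) (σ : T) :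
    loc root α τ h σ = if σ < τ then α σ else σ := rfl

end loc

def abv (t : ℚ) (y : Fin 3) (s : ℚ) : Prop := t < s ∨ (t = s ∧ y ≠ 2)

@[ext] structure Nd where
  t : ℚ
  y : Fin 3
  f : ℚ → ℤ
  fin : (Function.support f).Finite
  sup : ∀ s, ¬ abv t y s → f s = 0

def kle (a b : Nd) : Prop := a.t < b.t ∨ (a.t = b.t ∧ a.y ≤ b.y)

theorem abv_mono {a b : Nd} (h : kle a b) {s : ℚ} (hs : abv b.t b.y s) : abv a.t a.y s := by
  rcases h with h | ⟨h, h'⟩ <;> rcases hs with hs | ⟨hs, hs'⟩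
  · exact Or.inl (h.trans hs)
  · exact Or.inl (hs ▸ h)
  · exact Or.inl (h ▸ hs)
  · exact Or.inr ⟨h.trans hs, by omega⟩

theorem nd_eq {a b : Nd} (h1 : a.t = b.t) (h2 : a.y = b.y)
    (h3 : ∀ s, abv b.t b.y s → a.f s = b.f s) : a = b := by
  refine Nd.ext h1 h2 (funext fun s => ?_)
  by_cases h : abv b.t b.y s
  · exact h3 s h
  · rw [b.sup s h, a.sup s (by rwa [h1, h2])]

instance : PartialOrder Nd where
  le a b := kle a b ∧ ∀ s, abv b.t b.y s → a.f s = b.f s
  le_refl a := ⟨Or.inr ⟨rfl, le_rfl⟩, fun _ _ => rfl⟩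
  le_trans a b c h1 h2 := ⟨by
      rcases h1.1 with h | ⟨h, h'⟩ <;> rcases h2.1 with k | ⟨k, k'⟩
      · exact Or.inl (h.trans k)
      · exact Or.inl (k ▸ h)
      · exact Or.inl (h ▸ k)
      · exact Or.inr ⟨h.trans k, h'.trans k'⟩,
    fun s hs => (h1.2 s (abv_mono h2.1 hs)).trans (h2.2 s hs)⟩
  le_antisymm a b h1 h2 := by
    rcases h1.1 with h | ⟨h, h'⟩ <;> rcases h2.1 with k | ⟨k, k'⟩
    · exact absurd h (lt_asymm k)
    · exact absurd h (k ▸ lt_irrefl _)
    · exact absurd k (h ▸ lt_irrefl _)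
    · exact nd_eq h (le_antisymm h' k') h1.2

theorem nle (a b : Nd) : a ≤ b ↔ kle a b ∧ ∀ s, abv b.t b.y s → a.f s = b.f s := Iff.rfl

theorem rootN (x a b : Nd) (h1 : x ≤ a) (h2 : x ≤ b) : a ≤ b ∨ b ≤ a := by
  have : kle a b ∨ kle b a := by
    unfold kle
    rcases lt_trichotomy a.t b.t with h | h | h
    · tauto
    · rcases le_total a.y b.y with k | k
      · tauto
      · exact Or.inr (Or.inr ⟨h.symm, k⟩)
    · tauto
  rcases this with h | h
  · exact Or.inl ⟨h, fun s hs => (h1.2 s (abv_mono h hs)).symm.trans (h2.2 s hs)⟩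
  · exact Or.inr ⟨h, fun s hs => (h2.2 s (abv_mono h hs)).symm.trans (h1.2 s hs)⟩

noncomputable def Af (u : ℚ) (n : ℤ) (a : Nd) : Nd where
  t := a.t
  y := a.y
  f s := a.f s + if s = u ∧ abv a.t a.y u then n else 0
  fin := (a.fin.insert u).subset fun s hs => by
    by_cases h : s = u
    · exact Or.inl h
    · right
      simpa [h] using hs
  sup s hs := by
    rw [a.sup s hs, if_neg (by rintro ⟨rfl, h⟩; exact hs h), add_zero]

theorem Af_add (u : ℚ) (n m : ℤ) (a : Nd) : Af u n (Af u m a) = Af u (m + n) a := by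
  refine Nd.ext rfl rfl (funext fun s => ?_)
  simp only [Af]
  split_ifs <;> ring

theorem Af_zero (u : ℚ) (a : Nd) : Af u 0 a = a := by
  refine Nd.ext rfl rfl (funext fun s => ?_)
  simp [Af]

theorem Af_mono (u : ℚ) (n : ℤ) : Monotone (Af u n) := by
  intro a b h
  refine ⟨h.1, fun s hs => ?_⟩
  simp only [Af] at hs ⊢
  rw [h.2 s hs]
  by_cases h1 : s = u
  · subst h1
    simp [hs, abv_mono h.1 hs]
  · simp [h1]

noncomputable def AI (u : ℚ) : Nd ≃o Nd :=
  OrderIso.ofHomInv ⟨_, Af_mono u 1⟩ ⟨_, Af_mono u (-1)⟩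
    (OrderHom.ext _ _ (funext fun x => by simp [Af_add, Af_zero]))
    (OrderHom.ext _ _ (funext fun x => by simp [Af_add, Af_zero]))

theorem abv_iso (φ : ℚ ≃o ℚ) (t : ℚ) (y : Fin 3) (s : ℚ) : abv (φ t) y s ↔ abv t y (φ.symm s) := by
  simp only [abv, OrderIso.lt_symm_apply, OrderIso.eq_symm_apply]

def Bf (φ : ℚ ≃o ℚ) (a : Nd) : Nd where
  t := φ a.t
  y := a.y
  f s := a.f (φ.symm s)
  fin := (a.fin.preimage φ.symm.injective.injOn).subset fun _ hs => hs
  sup s hs := a.sup _ (by rwa [← abv_iso])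

theorem Bf_mono (φ : ℚ ≃o ℚ) : Monotone (Bf φ) := by
  intro a b h
  refine ⟨?_, fun s hs => h.2 _ ((abv_iso _ _ _ _).mp hs)⟩
  rcases h.1 with k | ⟨k, k'⟩
  · exact Or.inl (φ.strictMono k)
  · exact Or.inr ⟨congrArg φ k, k'⟩

def BI (φ : ℚ ≃o ℚ) : Nd ≃o Nd :=
  OrderIso.ofHomInv ⟨_, Bf_mono φ⟩ ⟨_, Bf_mono φ.symm⟩
    (OrderHom.ext _ _ (funext fun x => Nd.ext (by simp [Bf]) rfl (by simp [Bf])))
    (OrderHom.ext _ _ (funext fun x => Nd.ext (by simp [Bf]) rfl (by simp [Bf])))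

theorem BA (φ : ℚ ≃o ℚ) (w : ℚ) (a : Nd) : Bf φ (Af w 1 a) = Af (φ w) 1 (Bf φ a) := by
  refine Nd.ext rfl rfl (funext fun s => ?_)
  simp only [Bf, Af, abv_iso, OrderIso.symm_apply_apply, OrderIso.symm_apply_eq]

theorem AA (u w : ℚ) (a : Nd) : Af u 1 (Af w 1 a) = Af w 1 (Af u 1 a) := by
  refine Nd.ext rfl rfl (funext fun s => ?_)
  simp only [Af]
  ring

theorem BB (φ ψ φ' ψ' : ℚ ≃o ℚ) (h : ∀ x, φ (ψ x) = φ' (ψ' x)) (a : Nd) :
    Bf φ (Bf ψ a) = Bf φ' (Bf ψ' a) := by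
  refine Nd.ext (h _) rfl (funext fun s => ?_)
  simp only [Bf]
  congr 1
  rw [OrderIso.symm_apply_eq, OrderIso.symm_apply_eq, h]
  simp

noncomputable def pl (t : ℚ) : ℚ ≃o ℚ :=
  StrictMono.orderIsoOfRightInverse (fun x => max x ((x + t) / 2))
    (fun x y h => max_lt_max h (by linarith)) (fun x => min x (2 * x - t)) (by
      intro x
      rcases le_total x t with h | h
      · simp only [min_eq_right (show 2 * x - t ≤ x by linarith)]
        rw [max_eq_right (by linarith)]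
        ring
      · simp only [min_eq_left (show x ≤ 2 * x - t by linarith)]
        rw [max_eq_left (by linarith)])

theorem pl_le {t x : ℚ} (h : x ≤ t) : pl t x = (x + t) / 2 := max_eq_right (by linarith)

theorem pl_ge {t x : ℚ} (h : t ≤ x) : pl t x = x := max_eq_left (by linarith)

theorem pl_pl {t t' : ℚ} (h : t' ≤ t) (x : ℚ) : pl t (pl t' x) = pl (pl t t') (pl t x) := by
  rcases le_total x t' with k | k
  · rw [pl_le k, pl_le h, pl_le (k.trans h), pl_le (by linarith), pl_le (by linarith)]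
    ring
  · rw [pl_ge k, pl_ge ((pl t).monotone k)]

noncomputable def al (τ : Nd) : Nd ≃o Nd :=
  if τ.y = 2 then AI τ.t else if τ.y = 0 then BI (pl τ.t) else 1

theorem al2 {τ : Nd} (h : τ.y = 2) (σ : Nd) : al τ σ = Af τ.t 1 σ := by
  rw [al, if_pos h]
  rfl

theorem al0 {τ : Nd} (h : τ.y = 0) (σ : Nd) : al τ σ = Bf (pl τ.t) σ := by
  rw [al, if_neg (by omega), if_pos h]
  rfl

theorem al1 {τ : Nd} (h : τ.y = 1) (σ : Nd) : al τ σ = σ := by
  rw [al, if_neg (by omega), if_neg (by omega)]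
  rfl

theorem cases3 (y : Fin 3) : y = 0 ∨ y = 1 ∨ y = 2 := by omega

theorem al_y (τ σ : Nd) : (al τ σ).y = σ.y := by
  rcases cases3 τ.y with h | h | h
  · rw [al0 h]; rfl
  · rw [al1 h]
  · rw [al2 h]; rfl

theorem Af_self {τ : Nd} (h : τ.y = 2) (n : ℤ) : Af τ.t n τ = τ := by
  refine Nd.ext rfl rfl (funext fun s => ?_)
  simp [Af, abv, h]

theorem al_self (τ : Nd) : al τ τ = τ := by
  rcases cases3 τ.y with h | h | h
  · rw [al0 h]
    refine nd_eq (pl_ge le_rfl) rfl fun s hs => ?_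
    have : τ.t ≤ s := hs.elim le_of_lt fun h => h.1.le
    change τ.f ((pl τ.t).symm s) = _
    congr 1
    rw [OrderIso.symm_apply_eq, pl_ge this]
  · exact al1 h τ
  · rw [al2 h, Af_self h]

theorem t_le {a b : Nd} (h : a ≤ b) : a.t ≤ b.t := h.1.elim le_of_lt fun h => h.1.le

theorem al_conj {τ ν : Nd} (h : ν ≤ τ) (σ : Nd) : al τ (al ν σ) = al (al τ ν) (al τ σ) := by
  have hy := al_y τ ν
  have ht := t_le h
  rcases cases3 ν.y with k | k | k
  · rw [al0 k, al0 (hy.trans k)]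
    rcases cases3 τ.y with h | h | h
    · simp only [al0 h]
      exact BB _ _ _ _ (pl_pl ht) σ
    · simp only [al1 h]
    · simp only [al2 h]
      change _ = Bf (pl ν.t) _
      rw [BA, pl_ge ht]
  · rw [al1 k, al1 (hy.trans k)]
  · rw [al2 k, al2 (hy.trans k)]
    rcases cases3 τ.y with h | h | h
    · simp only [al0 h]
      exact BA _ _ _
    · simp only [al1 h]
    · simp only [al2 h]
      exact AA _ _ _

noncomputable def rk : Rack Nd where
  π τ := loc rootN (al τ) τ (al_self τ)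
  fix τ σ h := by rw [loc_apply, if_neg h]
  root := rootN
  conj τ ν h σ := by
    by_cases hσ : σ < ν
    · have h1 := (lt_fix (al_self ν) σ).mpr hσ
      simp only [loc_apply, if_pos h, if_pos hσ, if_pos (h1.trans h), if_pos (hσ.trans h),
        if_pos ((al τ).strictMono hσ)]
      exact al_conj h.le σ
    · rw [loc_apply rootN (al ν), if_neg hσ, loc_apply rootN (al (loc rootN _ _ _ _)), if_neg]
      rwa [OrderIso.lt_iff_lt]

theorem rk_apply (τ σ : Nd) : rk.π τ σ = if σ < τ then al τ σ else σ := rfl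

theorem rk_y (τ σ : Nd) : (rk.π τ σ).y = σ.y := by
  rw [rk_apply]
  split_ifs
  · exact al_y τ σ
  · rfl

noncomputable def vtx (s : ℚ) (a : Nd) : Nd where
  t := s
  y := 2
  f x := if s < x then a.f x else 0
  fin := a.fin.subset fun x hx => by
    by_cases h : s < x
    · simpa [h] using hx
    · simp [h] at hx
  sup x hx := if_neg fun h => hx (Or.inl h)

theorem lt_vtx {s : ℚ} {a : Nd} (h : abv a.t a.y s) : a < vtx s a := by
  refine lt_of_le_of_ne ⟨?_, fun x hx => ?_⟩ ?_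
  · exact h.elim Or.inl fun h => Or.inr ⟨h.1, by change a.y ≤ 2; omega⟩
  · have : s < x := hx.elim id fun h => absurd rfl h.2
    simp [vtx, this]
  · intro e
    rw [e] at h
    simp [vtx, abv] at h

noncomputable def par (a : Nd) : Nd := if a.y = 1 then vtx a.t a else a

theorem hup (τ : Nd) (h : τ.y = 1) (σ : Nd) : τ < σ ↔ par τ ≤ σ := by
  rw [par, if_pos h]
  constructor
  · intro hl
    have hk : kle (vtx τ.t τ) σ := by
      rcases hl.le.1 with k | ⟨k, k'⟩
      · exact Or.inl k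
      · refine Or.inr ⟨k, ?_⟩
        change 2 ≤ σ.y
        by_contra hcon
        exact hl.ne (nd_eq k (by omega) hl.le.2)
    refine ⟨hk, fun s hs => ?_⟩
    have : τ.t < s := (abv_mono hk hs).elim id fun h => absurd rfl h.2
    rw [← hl.le.2 s hs]
    simp [vtx, this]
  · intro hl
    exact (lt_vtx (Or.inr ⟨rfl, by omega⟩)).trans_le hl

theorem hpar (τ σ : Nd) : par (rk.π τ σ) = rk.π τ (par σ) := by
  by_cases h : σ.y = 1
  · refine eq_of_forall_ge_iff fun ρ => ?_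
    obtain ⟨ρ, rfl⟩ := (rk.π τ).surjective ρ
    rw [← hup _ (by rw [rk_y, h]), OrderIso.lt_iff_lt, OrderIso.le_iff_le, hup _ h]
  · rw [par, par, if_neg h, if_neg (by rwa [rk_y])]

theorem gen_shift {v γ : Nd} (hv : v.y = 2) (h : γ < v) (m : ℤ) :
    (gen rk v ^ m).p γ = Af v.t m γ := by
  have key : ∀ m : ℤ, rk.π v (Af v.t m γ) = Af v.t (m + 1) γ := by
    intro m
    have : Af v.t m γ < v := by
      refine lt_of_le_of_ne ((Af_mono _ _ h.le).trans (Af_self hv m).le) fun e => h.ne ?_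
      have := congrArg (Af v.t (-m)) e
      rwa [Af_add, add_neg_cancel, Af_zero, Af_self hv] at this
    rw [rk_apply, if_pos this, al2 hv, Af_add]
  induction m using Int.induction_on with
  | zero => rw [zpow_zero, Af_zero, one_p]
  | succ n ih =>
    rw [add_comm, zpow_one_add, mul_p, ih, add_comm]
    exact key _
  | pred n ih =>
    rw [sub_eq_neg_add, zpow_add, zpow_neg_one, mul_p, ih]
    apply (gen rk v).p.injective
    rw [p_inv_p]
    refine Eq.symm ((key _).trans ?_)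
    congr 1
    ring

def spine (t : ℚ) (y : Fin 3) : Nd := ⟨t, y, fun _ => 0, by simp, fun _ _ => rfl⟩

theorem to_spine (n : ℕ) : ∀ γ : Nd, (Function.support γ.f).ncard = n →
    ∃ k, RR rk k ∧ k.p γ = spine γ.t γ.y := by
  induction n using Nat.strong_induction_on with
  | _ n ih =>
    intro γ hγ
    by_cases h : ∃ s, γ.f s ≠ 0
    · obtain ⟨s, hs⟩ := h
      have h1 : abv γ.t γ.y s := by
        by_contra h2
        exact hs (γ.sup s h2)
      obtain ⟨k, hk, hk2⟩ := ih _ (by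
        rw [← hγ]
        refine Set.ncard_lt_ncard ((Set.ssubset_iff_of_subset ?_).mpr ⟨s, hs, ?_⟩) γ.fin
        · intro x hx
          by_cases h3 : x = s
          · rw [h3]; exact hs
          · simpa [Af, h3] using hx
        · simp [Af, h1]) (Af s (-γ.f s) γ) rfl
      refine ⟨k * gen rk (vtx s γ) ^ (-γ.f s), hk.mul (RR.genp _ _), ?_⟩
      rw [mul_p, gen_shift rfl (lt_vtx h1)]
      exact hk2
    · push Not at h
      exact ⟨1, RR.one, Nd.ext rfl rfl (funext h)⟩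

theorem tr (γ : Nd) (F : Set Nd) (hF : F.Finite) : ∃ k, RR rk k ∧ ∀ δ ∈ F, δ < k.p γ := by
  obtain ⟨k, hk, hk2⟩ := to_spine _ γ rfl
  obtain ⟨b, hb⟩ := (((hF.biUnion (t := fun δ => Function.support δ.f) fun δ _ => δ.fin).union
    (hF.image Nd.t)).insert γ.t).bddAbove
  have b1 : γ.t ≤ b := hb (Or.inl rfl)
  refine ⟨gen rk (spine (2 * (b + 1) - γ.t) 0) ^ (1 : ℤ) * k, (RR.genp _ _).mul hk,
    fun δ hδ => ?_⟩
  have b2 : δ.t ≤ b := hb (Or.inr (Or.inr ⟨δ, hδ, rfl⟩))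
  have b3 : ∀ s, δ.f s ≠ 0 → s ≤ b := fun s hs =>
    hb (Or.inr (Or.inl (Set.mem_biUnion hδ hs)))
  have h1 : spine γ.t γ.y < spine (2 * (b + 1) - γ.t) 0 := by
    refine lt_of_le_of_ne ⟨Or.inl (by simp only [spine]; linarith), fun _ _ => rfl⟩ fun e => ?_
    have := congrArg Nd.t e
    simp only [spine] at this
    linarith
  rw [zpow_one, mul_p, hk2]
  change δ < rk.π _ _
  rw [rk_apply, if_pos h1, al0 rfl]
  have h2 : (Bf (pl (spine (2 * (b + 1) - γ.t) 0).t) (spine γ.t γ.y)).t = b + 1 := by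
    change pl (2 * (b + 1) - γ.t) γ.t = _
    rw [pl_le (by linarith)]
    ring
  refine lt_of_le_of_ne ⟨Or.inl (by rw [h2]; linarith), fun s hs => ?_⟩ fun e => ?_
  · rw [h2] at hs
    have : b + 1 ≤ s := hs.elim le_of_lt fun h => h.1.le
    by_contra h3
    have := b3 s h3
    linarith
  · rw [← e] at h2
    linarith

/-- The negation of the preceding statement: In any lattice-ordered group whose only normal convex sublattice-subgroups are trivial or everything, every normal convex subgroup is also trivial or everything. -/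
theorem result :
    ¬ (∀ (G : Type) [Group G] [Lattice G] [MulLeftMono G] [MulRightMono G],
      (∀ H : Subgroup G, H.Normal →
          (∀ a b g : G, a ∈ H → b ∈ H → a ≤ g → g ≤ b → g ∈ H) →
          (∀ a b : G, a ∈ H → b ∈ H → a ⊔ b ∈ H ∧ a ⊓ b ∈ H) →
          H = ⊥ ∨ H = ⊤) →
      ∀ H : Subgroup G, H.Normal →
        (∀ a b g : G, a ∈ H → b ∈ H → a ≤ g → g ≤ b → g ∈ H) →
        H = ⊥ ∨ H = ⊤) := by
  refine main (r := rk) (fun a => a.y = 1) par (fun τ σ => by rw [rk_y]) hpar tr hup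
    (fun τ h => RelIso.ext fun σ => ?_) (spine 0 1) (Af 0 1 (spine 0 1)) rfl rfl (fun e => ?_) ?_
  · rw [rk_apply, al1 h, ite_self]
    rfl
  · have := congrArg (fun a : Nd => a.f 0) e
    simp [spine, Af, abv] at this
  · rw [par, par, if_pos (show (spine 0 1).y = 1 from rfl),
      if_pos (show (Af 0 1 (spine 0 1)).y = 1 from rfl)]
    refine Nd.ext rfl rfl (funext fun s => ?_)
    by_cases h : (0 : ℚ) < s
    · simp [vtx, spine, Af, h, h.ne']
    · simp [vtx, spine, Af, h]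

end Pool.Agent.S02284
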