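import Pool.Statements.S02332
import Pool.Agent.Lib.helper7.EC2

set_option autoImplicit false
open Pool Pool.MP_9442c3_al

namespace Pool.Agent.S02332

open Pool.Agent.Lib.helper7.EC Filter
open FreeGroup (of lift lift_apply_of freeGroupCongr)

abbrev F2 := FreeGroup (Fin 2)
abbrev F3 := FreeGroup (Fin 3)
abbrev F4 := FreeGroup (Fin 4)

def x : F2 := of 0
def y : F2 := of 1
def uu : F2 := x * y * x⁻¹ * x⁻¹ * y⁻¹
def gg : F2 := y * x * y⁻¹

def al : F2 →* F2 := lift ![x * y, y]

theorem al_inj : Function.Injective al := by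
  have : (lift ![x * y⁻¹, y]).comp al = MonoidHom.id F2 := by
    ext i
    fin_cases i <;> simp [al, x, y]
  exact Function.LeftInverse.injective (g := lift ![x * y⁻¹, y]) (fun w => DFunLike.congr_fun this w)

def sg : F2 →* M2 := (lift gen).comp al

theorem sg_inj : Function.Injective sg := rho_inj.comp al_inj

theorem sg_x : sg x = T * U := by simp [sg, al, x, y, gen]
theorem sg_y : sg y = U := by simp [sg, al, x, y, gen]

theorem diag_x : Nonempty (Diag F2 x) := by
  apply exists_diag sg sg_inj x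
  · rw [sg_x]; simp [T, U]
  · rw [sg_x]; simp [T, U]
  · have : ((((sg x).a + (sg x).d : ℤ) : ℝ) ^ 2 - 4) = ((32 : ℕ) : ℝ) := by
      rw [sg_x]; simp [T, U]; norm_num
    rw [this, irrational_sqrt_natCast_iff]
    decide +kernel

theorem diag_u : Nonempty (Diag F2 uu) := by
  have h : sg uu = T * U * U * (T * U)⁻¹ * (T * U)⁻¹ * U⁻¹ := by
    simp only [uu, map_mul, map_inv, sg_x, sg_y]
  have ha : (sg uu).a = 121 := by rw [h]; rfl
  have hc : (sg uu).c = 92 := by rw [h]; rfl
  have hd : (sg uu).d = -19 := by rw [h]; rfl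
  apply exists_diag sg sg_inj uu
  · rw [hc]; norm_num
  · rw [ha, hd]; norm_num
  · have : ((((sg uu).a + (sg uu).d : ℤ) : ℝ) ^ 2 - 4) = ((10400 : ℕ) : ℝ) := by
      rw [ha, hd]; norm_num
    rw [this, irrational_sqrt_natCast_iff]
    decide +kernel

def ee : F2 →* F2 := lift ![x, gg]

theorem ee_inj : Function.Injective ee := by
  let sw : F2 ≃* F2 := freeGroupCongr (Equiv.swap 0 1)
  let π : F2 →* Equiv.Perm F2 := lift ![MulAction.toPerm x, sw.toEquiv]
  have h : π.comp ee = MulAction.toPermHom F2 F2 := by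
    ext i : 1
    fin_cases i
    · simp [π, ee, x]
    · ext w
      have : sw (sw w) = w := by
        have : sw.toMonoidHom.comp sw.toMonoidHom = MonoidHom.id _ := by
          ext i : 1
          simp [sw]
        exact DFunLike.congr_fun this w
      simpa [π, ee, gg, x, y, sw] using this
  have h2 : Function.Injective (π.comp ee) := by
    rw [h]; exact MulAction.toPerm_injective
  exact Function.Injective.of_comp (f := π) h2

def cj {G : Type} [Group G] (c : G) : G →* G where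
  toFun b := c⁻¹ * b * c
  map_one' := by group
  map_mul' a b := by group

def ex {n : ℕ} (i : Fin n) : FreeGroup (Fin n) →* Multiplicative ℤ :=
  lift fun j => if j = i then Multiplicative.ofAdd 1 else 1

def kk : F2 →* F3 := lift ![of 1, of 2]
def WW : F3 := kk uu * of 0 * of 0
def jj : F2 →* F3 := lift ![WW, of 0]

def ψ1 (m : ℕ) : F3 →* F2 := lift ![gg, (uu ^ m)⁻¹ * x * uu ^ m, (uu ^ m)⁻¹ * y * uu ^ m]

theorem ψ1_kk (m : ℕ) (b : F2) : ψ1 m (kk b) = (uu ^ m)⁻¹ * b * uu ^ m := by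
  have : (ψ1 m).comp kk = cj (uu ^ m) := by
    ext i : 1
    fin_cases i <;> simp [ψ1, kk, x, y, cj]
  exact DFunLike.congr_fun this b

theorem ψ1_W (m : ℕ) : ψ1 m WW = x := by
  have h : ψ1 m (of 0) = gg := by simp [ψ1]
  rw [WW, map_mul, map_mul, ψ1_kk, h, mul_assoc _ uu, ← pow_succ', pow_succ, inv_mul_cancel_left,
    uu, gg]
  group

theorem ψ1_jj (m : ℕ) (a : F2) : ψ1 m (jj a) = ee a := by
  have : (ψ1 m).comp jj = ee := by
    ext i : 1
    fin_cases i
    · simpa [jj, ee] using ψ1_W m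
    · simp [jj, ee, ψ1]
  exact DFunLike.congr_fun this a

theorem disc1 (g : F3) (hg : g ≠ 1) : ∀ᶠ m in atTop, ψ1 m g ≠ 1 := by
  obtain ⟨D⟩ := diag_u
  have e1 : jj (x * y⁻¹ * y⁻¹) = kk uu := by simp [jj, x, y, WW]
  have e2 : ee (x * y⁻¹ * y⁻¹) = uu := by
    simp only [ee, x, y, map_mul, map_inv, lift_apply_of, uu, gg, Matrix.cons_val_zero,
      Matrix.cons_val_one]
    group
  have := twist D jj.range kk.range (Subgroup.zpowers (kk uu))
    (Subgroup.zpowers_le.2 ⟨_, e1⟩) (Subgroup.zpowers_le.2 ⟨_, rfl⟩) (by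
      rw [eq_top_iff, ← FreeGroup.closure_range_of, Subgroup.closure_le]
      rintro _ ⟨i, rfl⟩
      fin_cases i
      · exact Subgroup.mem_sup_left ⟨y, by simp [jj, y]⟩
      · exact Subgroup.mem_sup_right ⟨x, by simp [kk, x]⟩
      · exact Subgroup.mem_sup_right ⟨y, by simp [kk, y]⟩)
    (⊤ : Filter Unit) (fun _ => ψ1)
    (by rintro _ m _ ⟨a, rfl⟩; rw [ψ1_jj, ψ1_jj])
    (by rintro _ m _ ⟨b, rfl⟩; rw [ψ1_kk, ψ1_kk]; simp)
    (by
      rintro _ ⟨a, rfl⟩ ha
      refine Eventually.of_forall fun _ hc => ha ?_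
      rw [ψ1_jj, ← e2] at hc
      have h1 : Commute a (x * y⁻¹ * y⁻¹) := ee_inj (by rw [map_mul ee a, map_mul ee _ a]; exact hc)
      obtain ⟨n, rfl⟩ := cent (ex 0) _ _ (by left; simp [ex, x, y]) h1
      rw [map_zpow, e1]
      exact ⟨n, rfl⟩)
    (by
      rintro _ ⟨a, rfl⟩ ha
      refine Eventually.of_forall fun _ hc => ha ?_
      rw [ψ1_kk, pow_zero, inv_one, one_mul, mul_one] at hc
      obtain ⟨n, rfl⟩ := cent (ex 0) _ _ (by right; simp [ex, x, y, uu]) hc
      rw [map_zpow]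
      exact ⟨n, rfl⟩)
    (by
      rintro _ ⟨n, rfl⟩ hn
      refine Eventually.of_forall fun _ hc => hn ?_
      simp only [← map_zpow] at hc ⊢
      rw [ψ1_kk, pow_zero, inv_one, one_mul, mul_one] at hc
      rw [hc, map_one]) g hg
  exact eventually_top.1 this ()

def κ : F3 →* F4 := lift ![of 1, of 2, of 3]
def hh : F2 →* F4 := lift ![κ WW, of 0]

def ψ2 (n m : ℕ) : F4 →* F2 := lift ![y, (x ^ m)⁻¹ * ψ1 n (of 0) * x ^ m,
  (x ^ m)⁻¹ * ψ1 n (of 1) * x ^ m, (x ^ m)⁻¹ * ψ1 n (of 2) * x ^ m]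

theorem ψ2_κ (n m : ℕ) (b : F3) : ψ2 n m (κ b) = (x ^ m)⁻¹ * ψ1 n b * x ^ m := by
  have : (ψ2 n m).comp κ = (cj (x ^ m)).comp (ψ1 n) := by
    ext i : 1
    fin_cases i <;> simp [ψ2, κ, cj]
  exact DFunLike.congr_fun this b

theorem ψ2_hh (n m : ℕ) (a : F2) : ψ2 n m (hh a) = a := by
  have : (ψ2 n m).comp hh = MonoidHom.id _ := by
    ext i : 1
    fin_cases i
    · have : ψ2 n m (κ WW) = x := by
        rw [ψ2_κ, ψ1_W, mul_assoc, ← pow_succ', pow_succ, inv_mul_cancel_left]
      simpa [hh, x] using this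
    · simp [hh, ψ2, y]
  exact DFunLike.congr_fun this a

theorem disc2 (g : F4) (hg : g ≠ 1) : ∀ᶠ n in atTop, ∀ᶠ m in atTop, ψ2 n m g ≠ 1 := by
  obtain ⟨D⟩ := diag_x
  have e1 : hh x = κ WW := by simp [hh, x]
  exact twist D hh.range κ.range (Subgroup.zpowers (κ WW))
    (Subgroup.zpowers_le.2 ⟨_, e1⟩) (Subgroup.zpowers_le.2 ⟨_, rfl⟩) (by
      rw [eq_top_iff, ← FreeGroup.closure_range_of, Subgroup.closure_le]
      rintro _ ⟨i, rfl⟩
      fin_cases i
      · exact Subgroup.mem_sup_left ⟨y, by simp [hh, y]⟩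
      · exact Subgroup.mem_sup_right ⟨of 0, by simp [κ]⟩
      · exact Subgroup.mem_sup_right ⟨of 1, by simp [κ]⟩
      · exact Subgroup.mem_sup_right ⟨of 2, by simp [κ]⟩)
    atTop ψ2
    (by rintro _ m _ ⟨a, rfl⟩; rw [ψ2_hh, ψ2_hh])
    (by rintro _ m _ ⟨b, rfl⟩; rw [ψ2_κ, ψ2_κ]; simp)
    (by
      rintro _ ⟨a, rfl⟩ ha
      refine Eventually.of_forall fun _ hc => ha ?_
      rw [ψ2_hh] at hc
      obtain ⟨n, rfl⟩ := cent (ex 0) _ _ (by left; simp [ex, x]) hc
      rw [map_zpow, e1]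
      exact ⟨n, rfl⟩)
    (by
      rintro _ ⟨b, rfl⟩ hb
      have h1 : b * WW * (WW * b)⁻¹ ≠ 1 := by
        intro h
        apply hb
        obtain ⟨n, rfl⟩ := cent (ex 1) WW b (by right; simp [ex, x, y, uu, WW, kk])
          (mul_inv_eq_one.1 h)
        rw [map_zpow]
        exact ⟨n, rfl⟩
      filter_upwards [disc1 _ h1] with n hn hc
      apply hn
      rw [ψ2_κ, pow_zero, inv_one, one_mul, mul_one] at hc
      rw [map_mul, map_inv, map_mul, map_mul, ψ1_W, mul_inv_eq_one]
      exact hc)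
    (by
      rintro _ ⟨n, rfl⟩ hn
      refine Eventually.of_forall fun _ hc => hn ?_
      simp only [← e1, ← map_zpow] at hc ⊢
      rw [ψ2_hh] at hc
      rw [hc, map_one]) g hg

abbrev Q := DihedralGroup 3

def wq (t : Q × Q × Q) : Q :=
  t.2.1 * t.2.2 * t.2.1⁻¹ * t.2.1⁻¹ * t.2.2⁻¹ * t.1 * t.1

theorem map_W (f : F4 →* Q) : f (κ WW) = wq (f (of 1), f (of 2), f (of 3)) := by
  simp [κ, WW, kk, uu, x, y, wq]

theorem cnt : (Finset.univ.filter fun t => wq t = DihedralGroup.r 1).card <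
    (Finset.univ.filter fun t => wq t = 1).card := by decide +kernel

theorem not_factor (K : Subgroup F4) :
    ¬ Function.Bijective (Monoid.Coprod.lift hh.range.subtype K.subtype) := by
  intro hb
  let e := MulEquiv.ofBijective _ hb
  let θ : hh.range →* Q := (lift ![DihedralGroup.r 1, 1]).comp ((ψ2 0 0).comp hh.range.subtype)
  let f : Q × Q × Q → F4 →* Q := fun t => lift ![1, t.1, t.2.1, t.2.2]
  let f' : Q × Q × Q → F4 →* Q := fun t =>
    (Monoid.Coprod.lift θ ((f t).comp K.subtype)).comp e.symm.toMonoidHom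
  have hH : ∀ t (a : hh.range), f' t a = θ a := by
    intro t a
    have : e.symm a = Monoid.Coprod.inl a := by
      rw [MulEquiv.symm_apply_eq]; simp [e]
    simp [f', this]
  have hK : ∀ t (a : K), f' t a = f t a := by
    intro t a
    have : e.symm a = Monoid.Coprod.inr a := by
      rw [MulEquiv.symm_apply_eq]; simp [e]
    simp [f', this]
  have e1 : hh x = κ WW := by simp [hh, x]
  have e2 : hh y = of 0 := by simp [hh, y]
  have hf : ∀ t, f t (κ WW) = wq t := by
    intro t; rw [map_W]; simp [f]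
  refine absurd (Finset.card_le_card_of_injOn
    (fun t => (f' t (of 1), f' t (of 2), f' t (of 3))) ?_ ?_) (not_le.2 cnt)
  · intro t _
    simp only [Finset.coe_filter, Finset.mem_univ, true_and, Set.mem_ofPred_eq]
    rw [← map_W, ← e1]
    have := hH t ⟨hh x, x, rfl⟩
    rw [this]
    simp [θ, ψ2_hh, x]
  · intro t1 h1 t2 h2 h
    simp only [Finset.coe_filter, Finset.mem_univ, true_and, Set.mem_ofPred_eq] at h1 h2
    simp only [Prod.mk.injEq] at h
    have k0 : f' t1 (of 0) = f' t2 (of 0) := by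
      rw [← e2]
      exact (hH t1 ⟨hh y, y, rfl⟩).trans (hH t2 ⟨hh y, y, rfl⟩).symm
    have k1 : f' t1 = f' t2 := by
      ext i : 1
      fin_cases i
      exacts [k0, h.1, h.2.1, h.2.2]
    have k2 : (f t1).comp hh = (f t2).comp hh := by
      ext i : 1
      fin_cases i
      · simp [hh, hf, h1, h2]
      · simp [hh, f]
    have k3 : (f t1).comp e.toMonoidHom = (f t2).comp e.toMonoidHom := by
      apply Monoid.Coprod.hom_ext
      · ext ⟨_, a, rfl⟩
        simpa [e] using DFunLike.congr_fun k2 a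
      · ext a
        have := (hK t1 a).symm.trans ((DFunLike.congr_fun k1 _).trans (hK t2 a))
        simpa [e] using this
    have k4 : ∀ w, f t1 w = f t2 w := by
      intro w
      obtain ⟨v, rfl⟩ := e.surjective w
      exact DFunLike.congr_fun k3 v
    have a1 := k4 (of 1)
    have a2 := k4 (of 2)
    have a3 := k4 (of 3)
    simp [f] at a1 a2 a3
    exact Prod.ext a1 (Prod.ext a2 a3)

/-- The negation of the preceding statement: In a free group of rank r ≥ 2, any subgroup H where every finite system of equations and inequations with constants in H that is solvable in the group is also solvable in H is nonabelian and is a free factor (the group is H free product some K). -/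
theorem result :
    ¬ (∀ (r : ℕ), 2 ≤ r → ∀ H : Subgroup (FreeGroup (Fin r)),
      (∀ (n : ℕ) (E I : Finset (Monoid.Coprod (FreeGroup (Fin n)) ↥H)),
        (∃ x : Fin n → FreeGroup (Fin r),
          (∀ w ∈ E, Monoid.Coprod.lift (FreeGroup.lift x) H.subtype w = 1) ∧
          (∀ v ∈ I, Monoid.Coprod.lift (FreeGroup.lift x) H.subtype v ≠ 1)) →
        (∃ y : Fin n → ↥H,
          (∀ w ∈ E, Monoid.Coprod.lift (FreeGroup.lift y) (MonoidHom.id ↥H) w = 1) ∧
          (∀ v ∈ I, Monoid.Coprod.lift (FreeGroup.lift y) (MonoidHom.id ↥H) v ≠ 1))) →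
      (∃ a ∈ H, ∃ b ∈ H, a * b ≠ b * a) ∧
      ∃ K : Subgroup (FreeGroup (Fin r)),
        Function.Bijective (Monoid.Coprod.lift H.subtype K.subtype)) := by
  intro h
  obtain ⟨-, K, hK⟩ := h 4 (by norm_num) hh.range (by
    rintro n E I ⟨v, hE, hI⟩
    have h1 : ∀ᶠ k in atTop, ∀ᶠ m in atTop, ∀ w ∈ I,
        ψ2 k m (Monoid.Coprod.lift (FreeGroup.lift v) hh.range.subtype w) ≠ 1 := by
      simp only [eventually_all_finset]
      exact fun w hw => disc2 _ (hI w hw)
    obtain ⟨k, hk⟩ := h1.exists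
    obtain ⟨m, hm⟩ := hk.exists
    let r : F4 →* hh.range := hh.rangeRestrict.comp (ψ2 k m)
    have hr : Monoid.Coprod.lift (FreeGroup.lift fun i => r (v i)) (MonoidHom.id hh.range) =
        r.comp (Monoid.Coprod.lift (FreeGroup.lift v) hh.range.subtype) := by
      apply Monoid.Coprod.hom_ext
      · ext i : 1
        simp
      · ext ⟨_, a, rfl⟩
        simp [r, ψ2_hh]
    refine ⟨fun i => r (v i), fun w hw => ?_, fun w hw h0 => hm w hw ?_⟩
    · rw [hr, MonoidHom.comp_apply, hE w hw, map_one]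
    · rw [hr] at h0
      have h2 := congrArg (fun a : hh.range => ψ2 k m a) h0
      simpa [r, ψ2_hh] using h2)
  exact not_factor K hK

end Pool.Agent.S02332
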