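import Pool.Statements.S02397
import Pool.Agent.Lib.lead.CfgLib

set_option autoImplicit false
open Pool Pool.MP_977c67_al

namespace Pool.Agent.S02397

open LeadCfg

lemma isCF {T N : Type} [Finite T] [Finite N] (R : N → List (T ⊕ N) → Prop) (k : ℕ)
    (hk : ∀ A rhs, R A rhs → rhs.length ≤ k) (S : N) :
    Language.IsContextFree ({w | Gen R [.inr S] w} : Language T) := by
  have hf : {r : ContextFreeRule T N | R r.input (r.output.map ofSym)}.Finite := by
    refine ((Set.finite_univ.prod (List.finite_length_le (T ⊕ N) k)).image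
      fun p : N × List (T ⊕ N) => (⟨p.1, p.2.map toSym⟩ : ContextFreeRule T N)).subset ?_
    rintro ⟨A, o⟩ h
    refine ⟨(A, o.map ofSym), ⟨trivial, hk _ _ h⟩, ?_⟩
    simp only [List.map_map]
    rw [show toSym ∘ ofSym = (id : Symbol T N → _) from funext fun x => by cases x <;> rfl,
      List.map_id]
  refine ⟨⟨N, S, hf.toFinset⟩, ?_⟩
  ext w
  refine language_iff ⟨N, S, hf.toFinset⟩ R (fun A rhs => ?_) w
  simp only [Set.Finite.mem_toFinset, Set.mem_setOf_eq, List.map_map]
  rw [show ofSym ∘ toSym = (id : T ⊕ N → _) from funext fun x => by cases x <;> rfl, List.map_id]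

inductive D : Fin 7 → List Bool → Prop
  | nil : D 3 []
  | zero {k k' : Fin 7} {w : List Bool} : D k' w → k'.val = k.val + 1 → D k (w ++ [false])
  | one {k k' : Fin 7} {w : List Bool} (a : Bool) : D k' w → k.val = k'.val + a.toNat →
      D k (a :: (w ++ [true]))

def Z (w : List Bool) : Prop := ∃ p m s k, (k = 0 ∨ k = 6) ∧ D k m ∧ w = p ++ m ++ s

lemma Z.ideal {w : List Bool} (h : Z w) (p s : List Bool) : Z (p ++ w ++ s) := by
  obtain ⟨p', m, s', k, h1, h2, rfl⟩ := h
  exact ⟨p ++ p', m, s' ++ s, k, h1, h2, by simp⟩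

lemma D.spec {k : Fin 7} {m : List Bool} (h : D k m) : ∃ u v : List Bool, m = u ++ v ∧
    u.length = v.count true ∧ u.count true + 3 = k + v.count false := by
  induction h with
  | nil => exact ⟨[], [], rfl, rfl, rfl⟩
  | zero _ e ih =>
    obtain ⟨u, v, rfl, h1, h2⟩ := ih
    exact ⟨u, v ++ [false], by simp, by simpa using h1, by simp; omega⟩
  | one a _ e ih =>
    obtain ⟨u, v, rfl, h1, h2⟩ := ih
    exact ⟨a :: u, v ++ [true], by simp, by simpa using h1, by cases a <;> simp at e ⊢ <;> omega⟩

lemma hit (v : List Bool) : ∀ u : List Bool, u.length = v.count true →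
    Z (u ++ v) ∨ ∃ k, D k (u ++ v) ∧ u.count true + 3 = k + v.count false := by
  induction v using List.reverseRecOn with
  | nil =>
    intro u h
    obtain rfl : u = [] := by simpa using h
    exact .inr ⟨3, .nil, rfl⟩
  | append_singleton v b ih =>
    intro u h
    cases b with
    | false =>
      rcases ih u (by simpa using h) with h1 | ⟨k, h1, h2⟩
      · exact .inl (by simpa using h1.ideal [] [false])
      · by_cases hk : k = 0
        · exact .inl ⟨[], _, [false], k, .inl hk, h1, by simp⟩
        · have : k.val ≠ 0 := fun e => hk (Fin.ext e)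
          refine .inr ⟨⟨k - 1, by omega⟩, ?_, by simp; omega⟩
          rw [← List.append_assoc]
          exact .zero h1 (by simp; omega)
    | true =>
      obtain _ | ⟨a, u⟩ := u
      · simp at h
      rcases ih u (by simpa using h) with h1 | ⟨k, h1, h2⟩
      · exact .inl (by simpa using h1.ideal [a] [true])
      · by_cases hk : k = 6
        · exact .inl ⟨[a], _, [true], k, .inr hk, h1, by simp⟩
        · have : k.val ≠ 6 := fun e => hk (Fin.ext e)
          refine .inr ⟨⟨k + a.toNat, by cases a <;> simp <;> omega⟩, ?_,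
            by cases a <;> simp <;> omega⟩
          rw [List.cons_append, ← List.append_assoc]
          exact .one a h1 rfl

lemma count_add (w : List Bool) : w.count true + w.count false = w.length := by
  induction w with
  | nil => rfl
  | cons a w ih => cases a <;> simp <;> omega

lemma power (w : List Bool) (hw : w ≠ []) : ∃ n, Z (List.replicate n w).flatten := by
  have hc : ∀ n b, (List.replicate n w).flatten.count b = n * w.count b := by
    intro n b
    induction n with
    | zero => simp
    | succ n ih => rw [List.replicate_succ, List.flatten_cons, List.count_append, ih]; ring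
  refine ⟨3 * w.count true + 3 * w.length, ?_⟩
  rw [List.replicate_add, List.flatten_append]
  rcases hit (List.replicate (3 * w.length) w).flatten (List.replicate (3 * w.count true) w).flatten
    (by rw [hc]; simp; ring) with h | ⟨k, h1, h2⟩
  · exact h
  · by_cases hk : k = 0 ∨ k = 6
    · exact ⟨[], _, [], k, hk, h1, by simp⟩
    exfalso
    rw [hc, hc, ← count_add w, mul_assoc, mul_assoc] at h2
    have hp := List.length_pos_iff.mpr hw
    rw [← count_add w] at hp
    generalize w.count true = a at *
    generalize w.count false = z at *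
    have e : a * a = (a + z) * z := by
      simp only [Fin.ext_iff] at hk
      have := k.2
      simp at hk
      omega
    have e' : (a : ℝ) * a = (a + z) * z := by exact_mod_cast e
    have hp' : (0 : ℝ) < a + z := by exact_mod_cast hp
    refine Nat.prime_five.irrational_sqrt ⟨(3 * a + z) / (a + z), ?_⟩
    push_cast
    rw [eq_comm, Real.sqrt_eq_iff_mul_self_eq (by norm_num) (by positivity)]
    field_simp
    nlinarith

noncomputable def al : ℝ := (√5 - 1) / 2

lemma al_spec : al * al + al = 1 ∧ 1 / 2 < al ∧ al < 1 := by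
  have h := Real.mul_self_sqrt (show (0 : ℝ) ≤ 5 by norm_num)
  have h0 := Real.sqrt_nonneg 5
  unfold al
  refine ⟨by nlinarith, by nlinarith, by nlinarith⟩

noncomputable def X (n : ℕ) : List Bool :=
  (List.range n).map fun j => decide (⌊(j + 1 : ℕ) * al⌋₊ = ⌊j * al⌋₊ + 1)

lemma X_count (n : ℕ) : (X n).count true = ⌊n * al⌋₊ := by
  obtain ⟨_, h1, h2⟩ := al_spec
  induction n with
  | zero => simp [X]
  | succ n ih =>
    have a1 : ⌊n * al⌋₊ ≤ ⌊(n + 1 : ℕ) * al⌋₊ := Nat.floor_mono (by push_cast; nlinarith)
    have a2 : ⌊(n + 1 : ℕ) * al⌋₊ ≤ ⌊n * al⌋₊ + 1 := by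
      rw [← Nat.floor_add_one (by positivity)]
      exact Nat.floor_mono (by push_cast; nlinarith)
    rw [X, List.range_succ, List.map_append, List.count_append, ← X, ih, List.map_singleton]
    by_cases h : ⌊(n + 1 : ℕ) * al⌋₊ = ⌊n * al⌋₊ + 1
    · rw [decide_eq_true h, h]; rfl
    · rw [decide_eq_false h]
      show _ + 0 = _
      omega

lemma X_pre {p s : List Bool} {n : ℕ} (h : X n = p ++ s) : p.count true = ⌊p.length * al⌋₊ := by
  have hl : p.length ≤ n := by simpa [X] using (congrArg List.length h).ge.trans' (by simp)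
  rw [← X_count]
  congr 1
  have := congrArg (List.take p.length) h
  rw [List.take_left' rfl] at this
  rw [← this, X, X, ← List.map_take, List.take_range, min_eq_left hl, List.length_map,
    List.length_range]

lemma X_not (n : ℕ) : ¬ Z (X n) := by
  rintro ⟨p, m, s, k, hk, hD, e⟩
  obtain ⟨u, v, rfl, h1, h2⟩ := hD.spec
  obtain ⟨a0, a1, a2⟩ := al_spec
  have b1 := X_pre (p := p) (s := u ++ v ++ s) (by rw [e]; simp)
  have b2 := X_pre (p := p ++ u) (s := v ++ s) (by rw [e]; simp)
  have b3 := X_pre (p := p ++ u ++ v) (s := s) (by rw [e]; simp)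
  simp only [List.count_append, List.length_append] at b2 b3
  rw [← count_add v, h1] at b3
  rw [h1] at b2
  have f : ∀ x y : ℕ, x = ⌊y * al⌋₊ → (x : ℝ) ≤ y * al ∧ y * al < x + 1 := by
    rintro _ y rfl
    exact ⟨Nat.floor_le (by positivity), Nat.lt_floor_add_one _⟩
  obtain ⟨c1, c2⟩ := f _ _ b1
  obtain ⟨c3, c4⟩ := f _ _ b2
  obtain ⟨c5, c6⟩ := f _ _ b3
  push_cast at c3 c4 c5 c6
  have h3 : (u.count true : ℝ) + 3 = (k : ℕ) + v.count false := by exact_mod_cast h2
  generalize (v.count true : ℝ) = N at *
  generalize (v.count false : ℝ) = z at *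
  have e1 : al * (N * al - z) = N - (N + z) * al := by linear_combination N * a0
  rcases hk with rfl | rfl
  · have : N * al - z < -2 := by simp at h3; linarith
    nlinarith
  · have : 2 < N * al - z := by
      rw [show (((6 : Fin 7) : ℕ) : ℝ) = 6 by norm_num] at h3
      linarith
    nlinarith

inductive NT
  | S | P | T | D (b : Bool) (k : Fin 7)
  deriving DecidableEq, Fintype

def rv {α : Type} (b : Bool) (l : List α) : List α := bif b then l.reverse else l

inductive R : NT → List (Option Bool ⊕ NT) → Prop
  | sp : R .S [.inr .P]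
  | sz (k k' : Fin 7) : (k = 0 ∨ k = 6) → (k' = 0 ∨ k' = 6) →
      R .S [.inr .T, .inr (.D false k), .inr .T, .inl none, .inr .T, .inr (.D true k'), .inr .T]
  | p0 (a : Bool) : R .P [.inl (some a), .inl none, .inl (some a)]
  | p1 (a : Bool) : R .P [.inl (some a), .inr .P, .inl (some a)]
  | t0 : R .T []
  | t1 (a : Bool) : R .T [.inl (some a), .inr .T]
  | d0 (b : Bool) : R (.D b 3) []
  | d1 (b : Bool) (k k' : Fin 7) : k'.val = k.val + 1 →
      R (.D b k) (rv b [.inr (.D b k'), .inl (some false)])
  | d2 (b a : Bool) (k k' : Fin 7) : k.val = k'.val + a.toNat →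
      R (.D b k) (rv b [.inl (some a), .inr (.D b k'), .inl (some true)])

def sem : NT → List (Option Bool) → Prop
  | .S, w => ∃ u v : List Bool, u ≠ [] ∧ v ≠ [] ∧ (u = v ∨ Z u ∧ Z v) ∧
      w = u.map some ++ [none] ++ v.reverse.map some
  | .P, w => ∃ u : List Bool, u ≠ [] ∧ w = u.map some ++ [none] ++ u.reverse.map some
  | .T, w => ∃ u : List Bool, w = u.map some
  | .D b k, w => ∃ m, D k m ∧ w = (rv b m).map some

lemma Z.ne {w : List Bool} (h : Z w) : w ≠ [] := fun e => X_not 0 (e ▸ h : Z [])

lemma gen_iff (w : List (Option Bool)) : Gen R [.inr .S] w ↔ sem .S w := by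
  constructor
  · intro h
    have := h.sound sem ?_
    · obtain ⟨_, _, rfl, h1, rfl⟩ := this
      rwa [List.append_nil]
    intro A rhs w r h
    cases r with
    | sp =>
      obtain ⟨_, _, rfl, ⟨u, h1, rfl⟩, rfl⟩ := h
      exact ⟨u, u, h1, h1, .inl rfl, by simp⟩
    | sz k k' hk hk' =>
      obtain ⟨_, _, rfl, ⟨p, rfl⟩, _, _, rfl, ⟨m, hm, rfl⟩, _, _, rfl, ⟨s, rfl⟩, _, rfl, _, _, rfl,
        ⟨s', rfl⟩, _, _, rfl, ⟨m', hm', rfl⟩, _, _, rfl, ⟨p', rfl⟩, rfl⟩ := h
      have z1 : Z (p ++ m ++ s) := ⟨p, m, s, k, hk, hm, rfl⟩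
      have z2 : Z (p'.reverse ++ m' ++ s'.reverse) := ⟨_, m', _, k', hk', hm', rfl⟩
      exact ⟨_, _, z1.ne, z2.ne, .inr ⟨z1, z2⟩, by simp [rv]⟩
    | p0 a =>
      obtain ⟨_, rfl, _, rfl, _, rfl, rfl⟩ := h
      exact ⟨[a], by simp, rfl⟩
    | p1 a =>
      obtain ⟨_, rfl, _, _, rfl, ⟨u, h1, rfl⟩, _, rfl, rfl⟩ := h
      exact ⟨a :: u, by simp, by simp⟩
    | t0 => exact ⟨[], h⟩
    | t1 a =>
      obtain ⟨_, rfl, _, _, rfl, ⟨u, rfl⟩, rfl⟩ := h
      exact ⟨a :: u, by simp⟩
    | d0 b => exact ⟨[], .nil, by cases b <;> exact h⟩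
    | d1 b k k' e =>
      cases b
      · obtain ⟨_, _, rfl, ⟨m, hm, rfl⟩, _, rfl, rfl⟩ := h
        exact ⟨_, .zero hm e, by simp [rv]⟩
      · obtain ⟨_, rfl, _, _, rfl, ⟨m, hm, rfl⟩, rfl⟩ := h
        exact ⟨_, .zero hm e, by simp [rv]⟩
    | d2 b a k k' e =>
      cases b
      · obtain ⟨_, rfl, _, _, rfl, ⟨m, hm, rfl⟩, _, rfl, rfl⟩ := h
        exact ⟨_, .one a hm e, by simp [rv]⟩
      · obtain ⟨_, rfl, _, _, rfl, ⟨m, hm, rfl⟩, _, rfl, rfl⟩ := h
        exact ⟨_, .one a hm e, by simp [rv]⟩
  · have gT : ∀ u : List Bool, Gen R [.inr .T] (u.map some) := by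
      intro u
      induction u with
      | nil => exact .one .t0 .nil
      | cons a u ih => exact .one (.t1 a) (.t _ ih)
    have gD : ∀ b k m, D k m → Gen R [.inr (.D b k)] ((rv b m).map some) := by
      intro b k m h
      induction h with
      | nil => exact .one (.d0 b) (by cases b <;> exact .nil)
      | zero _ e ih =>
        refine .one (.d1 b _ _ e) ?_
        cases b
        · simpa [rv] using ih.cons_nt (.t (some false) .nil)
        · simpa [rv] using Gen.t (some false) ih
      | one a _ e ih =>
        refine .one (.d2 b a _ _ e) ?_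
        cases b
        · simpa [rv] using Gen.t (some a) (ih.cons_nt (.t (some true) .nil))
        · simpa [rv] using Gen.t (some true) (ih.cons_nt (.t (some a) .nil))
    have gP : ∀ (u : List Bool) (a : Bool), Gen R [.inr .P]
        ((a :: u).map some ++ [none] ++ (a :: u).reverse.map some) := by
      intro u
      induction u with
      | nil => exact fun a => .one (.p0 a) (.t _ (.t _ (.t _ .nil)))
      | cons b u ih =>
        intro a
        simpa using Gen.one (.p1 a) (.t _ ((ih b).cons_nt (.t (some a) .nil)))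
    rintro ⟨u, v, h1, h2, rfl | ⟨⟨p, m, s, k, hk, hm, rfl⟩, ⟨p', m', s', k', hk', hm', rfl⟩⟩, rfl⟩
    · obtain _ | ⟨a, u⟩ := u
      · exact absurd rfl h1
      · exact .one .sp (gP u a)
    · simpa [rv] using Gen.one (.sz k k' hk hk') ((gT p).cons_nt ((gD false k m hm).cons_nt
        ((gT s).cons_nt (.t none ((gT s'.reverse).cons_nt ((gD true k' m' hm').cons_nt
        (gT p'.reverse)))))))

def toL (a : FreeSemigroup Bool) : List Bool := a.head :: a.tail

lemma toL_mul (a b : FreeSemigroup Bool) : toL (a * b) = toL a ++ toL b := rfl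

def con : Con (FreeSemigroup Bool) where
  r a b := a = b ∨ Z (toL a) ∧ Z (toL b)
  iseqv := ⟨fun _ => .inl rfl, fun h => h.imp Eq.symm And.symm, by
    rintro a b c (rfl | h) h'
    · exact h'
    · rcases h' with rfl | h'
      exacts [.inr h, .inr ⟨h.1, h'.2⟩]⟩
  mul' := by
    rintro a b c d (rfl | h) h'
    · rcases h' with rfl | h'
      · exact .inl rfl
      · exact .inr ⟨by simpa [toL_mul] using h'.1.ideal (toL a) [],
          by simpa [toL_mul] using h'.2.ideal (toL a) []⟩
    · exact .inr ⟨by simpa [toL_mul] using h.1.ideal [] (toL c),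
        by simpa [toL_mul] using h.2.ideal [] (toL d)⟩

/-- There is an infinite semigroup, every element generating a finite subsemigroup, with a finite generating set for which the language of words u#reverse(v), u and v nonempty and equal in the semigroup, is context-free. -/
theorem result :
    ∃ (S : Type) (_ : Semigroup S) (α : Type) (_ : Fintype α) (f : α → S),
      Infinite S ∧
      (∀ x : S, (Subsemigroup.closure ({x} : Set S) : Set S).Finite) ∧
      Subsemigroup.closure (Set.range f) = ⊤ ∧
      Language.IsContextFree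
        ({w : List (Option α) | ∃ u v : List α, u ≠ [] ∧ v ≠ [] ∧
            (u.map (fun a => ((f a : S) : WithOne S))).prod =
              (v.map (fun a => ((f a : S) : WithOne S))).prod ∧
            w = u.map some ++ [none] ++ v.reverse.map some} : Language (Option α)) := by
  refine ⟨con.Quotient, inferInstance, Bool, inferInstance, fun a => (FreeSemigroup.of a :),
    ?_, fun x => ?_, ?_, ?_⟩
  · have hX : ∀ n, ∃ a, toL a = X (n + 1) := fun n => by
      cases e : X (n + 1) with
      | nil => simp [X] at e
      | cons a t => exact ⟨⟨a, t⟩, rfl⟩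
    choose g hg using hX
    refine Infinite.of_injective (fun n => (g n : con.Quotient)) fun n m h => ?_
    rcases con.eq.mp h with h | h
    · simpa [hg, X] using congrArg (fun a => (toL a).length) h
    · exact absurd (hg n ▸ h.1) (X_not _)
  · induction x using Con.induction_on with
    | H w =>
      obtain ⟨n, hn⟩ := power (toL w) (by simp [toL])
      have hp : ∀ k, ∃ a, toL a = (List.replicate (k + 1) (toL w)).flatten := fun k =>
        ⟨⟨w.head, w.tail ++ (List.replicate k (toL w)).flatten⟩, rfl⟩
      choose g hg using hp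
      have inj : ∀ a b, toL a = toL b → a = b := fun a b h =>
        FreeSemigroup.ext (List.cons.inj h).1 (List.cons.inj h).2
      have hz : ∀ k, n ≤ k → Z (toL (g k)) := by
        intro k hk
        obtain ⟨d, rfl⟩ := Nat.exists_eq_add_of_le hk
        rw [hg, add_assoc, List.replicate_add, List.flatten_append]
        simpa using hn.ideal [] _
      refine ((Set.finite_Iic n).image fun k => (g k : con.Quotient)).subset fun y hy => ?_
      have : ∃ k, y = (g k : con.Quotient) := by
        induction hy using Subsemigroup.closure_induction with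
        | mem y hy => exact ⟨0, hy.trans (congrArg _ (inj _ _ (by simp [hg])))⟩
        | mul a b _ _ ha hb =>
          obtain ⟨i, rfl⟩ := ha
          obtain ⟨j, rfl⟩ := hb
          refine ⟨i + j + 1, (con.coe_mul _ _).symm.trans (congrArg _ (inj _ _ ?_))⟩
          rw [toL_mul, hg, hg, hg, ← List.flatten_append, ← List.replicate_add]
          congr 2
          omega
      obtain ⟨k, rfl⟩ := this
      by_cases hk : k ≤ n
      · exact ⟨k, hk, rfl⟩
      · exact ⟨n, le_refl n, con.eq.mpr (.inr ⟨hz n le_rfl, hz k (by omega)⟩)⟩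
  · rw [eq_top_iff]
    intro x _
    induction x using Con.induction_on with
    | H w =>
      induction w using FreeSemigroup.recOnMul with
      | ih1 a => exact Subsemigroup.subset_closure ⟨a, rfl⟩
      | ih2 a b h1 h2 => exact Subsemigroup.mul_mem _ (h1 trivial) (h2 trivial)
  · have pr : ∀ (t : List Bool) (a : Bool), ((a :: t).map fun a =>
        (((FreeSemigroup.of a : con.Quotient) : con.Quotient) : WithOne con.Quotient)).prod =
        (((⟨a, t⟩ : FreeSemigroup Bool) : con.Quotient) : WithOne con.Quotient) := by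
      intro t
      induction t with
      | nil => intro a; exact List.prod_singleton
      | cons b t ih =>
        intro a
        rw [List.map_cons, List.prod_cons, ih, ← WithOne.coe_mul]
        rfl
    have := isCF R 7 (fun A rhs r => by
      have : ∀ (b : Bool) (l : List (Option Bool ⊕ NT)), (rv b l).length = l.length :=
        fun b l => by cases b <;> simp [rv]
      cases r <;> simp [this]) .S
    have e : ({w | Gen R [.inr .S] w} : Language (Option Bool)) = _ := Set.ext fun w =>
      (gen_iff w).trans (exists_congr fun u => exists_congr fun v => and_congr_right fun hu =>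
        and_congr_right fun hv => and_congr_left fun _ => (by
          obtain _ | ⟨a, u⟩ := u
          · exact absurd rfl hu
          obtain _ | ⟨b, v⟩ := v
          · exact absurd rfl hv
          rw [pr, pr, WithOne.coe_inj, con.eq]
          refine or_congr ⟨fun h => ?_, fun h => congrArg toL h⟩ Iff.rfl
          rw [(List.cons.inj h).1, (List.cons.inj h).2] :
          (u = v ∨ Z u ∧ Z v) ↔ (u.map fun a =>
            (((FreeSemigroup.of a : con.Quotient) : con.Quotient) : WithOne con.Quotient)).prod =
            (v.map fun a =>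
            (((FreeSemigroup.of a : con.Quotient) : con.Quotient) : WithOne con.Quotient)).prod))
    exact e ▸ this

end Pool.Agent.S02397
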