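import Pool.Statements.S02419
import Pool.Agent.Lib.helper4.LargePart

set_option autoImplicit false
open scoped Pointwise
open Pool Pool.MP_9865ab_al

namespace Pool.Agent.S02419

/-- For every infinite group G and infinite cardinal κ ≤ ∣G∣, G splits into exactly κ nonempty disjoint cells, each with G = FA and G = AF for some sets F of size less than κ. -/
theorem result : ∀ (G : Type) [Group G], Infinite G → ∀ κ : Cardinal.{0}, Cardinal.aleph0 ≤ κ → κ ≤ Cardinal.mk G → ∃ P : Set (Set G), Setoid.IsPartition P ∧ Cardinal.mk P = κ ∧ ∀ A ∈ P, (∃ F : Set G, Cardinal.mk F < κ ∧ F * A = Set.univ) ∧ (∃ F : Set G, Cardinal.mk F < κ ∧ A * F = Set.univ) := by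
  intro G _ _ κ h1 h2
  exact Pool.Agent.H4Large.exists_partition G κ h1 h2

end Pool.Agent.S02419
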