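import Pool.Statements.S02438
import Pool.Agent.Lib.helper7.NR3

set_option autoImplicit false
open Pool Pool.MP_99e35a_al

namespace Pool.Agent.S02438


/-- The negation of the preceding statement: For any group G and char-0 field k, any nonzero k-representation V with no invariant subspaces besides 0 and V, in which each g−1 is nilpotent on each vector, has G acting as the identity. -/
theorem result :
    ¬ (∀ (k : Type) [Field k] [CharZero k] (G : Type) [Group G]
      (V : Type) [AddCommGroup V] [Module k V] (ρ : Representation k G V),
      Nontrivial V →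
      (∀ W : Submodule k V, (∀ g : G, ∀ v ∈ W, ρ g v ∈ W) → W = ⊥ ∨ W = ⊤) →
      (∀ g : G, ∀ v : V, ∃ n : ℕ, ((ρ g - 1) ^ n) v = 0) →
      ∀ g : G, ρ g = 1) := by
  intro H
  haveI : CharZero (FractionRing Pool.Agent.Lib.helper7.NR.PP) :=
    charZero_of_injective_algebraMap
      (IsFractionRing.injective Pool.Agent.Lib.helper7.NR.PP
        (FractionRing Pool.Agent.Lib.helper7.NR.PP))
  exact Pool.Agent.Lib.helper7.NR.final
    (algebraMap Pool.Agent.Lib.helper7.NR.PP (FractionRing Pool.Agent.Lib.helper7.NR.PP))
    (IsFractionRing.injective _ _) (H (FractionRing Pool.Agent.Lib.helper7.NR.PP))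

end Pool.Agent.S02438
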