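import Pool.Statements.S02443
import Pool.Agent.Lib.helper19.Rev1

set_option autoImplicit false
open Pool Pool.MP_9aaefc_al

namespace Pool.Agent.S02443

section Aux

open MvPowerSeries Pool.Agent.H19Rev Module

abbrev RR (n : ℕ) := MvPowerSeries (Fin n) ℂ

variable {n : ℕ}

/-- series of order at least `k` -/
def II (n k : ℕ) : Ideal (RR n) where
  carrier := {f | (k : ℕ∞) ≤ f.order}
  zero_mem' := by simp
  add_mem' := fun {f g} hf hg => le_trans (le_min hf hg) min_order_le_add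
  smul_mem' := fun c f hf => by
    refine le_trans ?_ (le_order_mul (f := c) (g := f))
    exact le_trans hf le_add_self

lemma mem_II_order {k : ℕ} {f : RR n} : f ∈ II n k ↔ (k : ℕ∞) ≤ f.order := Iff.rfl

lemma mem_II {k : ℕ} {f : RR n} : f ∈ II n k ↔ ∀ d : Fin n →₀ ℕ, d.degree < k → coeff d f = 0 := by
  rw [mem_II_order]
  constructor
  · intro h d hd
    exact coeff_of_lt_order (lt_of_lt_of_le (by exact_mod_cast hd) h)
  · exact fun h => nat_le_order h

lemma II_mono {k l : ℕ} (h : k ≤ l) : II n l ≤ II n k := fun _ hf =>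
  mem_II.2 fun d hd => mem_II.1 hf d (lt_of_lt_of_le hd h)

lemma II_mul {k l : ℕ} {f g : RR n} (hf : f ∈ II n k) (hg : g ∈ II n l) : f * g ∈ II n (k + l) := by
  rw [mem_II_order] at *
  refine le_trans ?_ (le_order_mul (f := f) (g := g))
  push_cast
  exact add_le_add hf hg

lemma II_zero (f : RR n) : f ∈ II n 0 := by rw [mem_II_order]; simp

lemma eq_of_II {f g : RR n} (h : ∀ k, f - g ∈ II n k) : f = g := by
  ext d
  have := mem_II.1 (h (d.degree + 1)) d (Nat.lt_succ_self _)
  rwa [map_sub, sub_eq_zero] at this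

lemma mem_II_one {f : RR n} : f ∈ II n 1 ↔ f 0 = 0 := by
  rw [mem_II_order, Nat.cast_one, one_le_order_iff_constCoeff_eq_zero]; rfl

lemma X_mem (i : Fin n) : (X i : RR n) ∈ II n 1 := by
  rw [mem_II_order, Nat.cast_one, one_le_order_iff_constCoeff_eq_zero]; simp

lemma mono_mem (d : Fin n →₀ ℕ) : (monomial d 1 : RR n) ∈ II n d.degree := by
  rw [mem_II_order, order_monomial_of_ne_zero one_ne_zero]

lemma ind (k : ℕ) (P : Submodule ℂ (RR n)) (hI : ∀ g ∈ II n k, g ∈ P) (f : RR n)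
    (hm : ∀ d : Fin n →₀ ℕ, d.degree < k → coeff d f ≠ 0 → (monomial d 1 : RR n) ∈ P) :
    f ∈ P := by
  classical
  obtain ⟨S, hS⟩ : ∃ S : Finset (Fin n →₀ ℕ), ∀ d, d ∈ S ↔ d.degree < k :=
    ⟨(Finsupp.finite_of_degree_lt k).toFinset, fun d => by simp⟩
  have h1 : ∑ d ∈ S, coeff d f • (monomial d 1 : RR n) ∈ P := by
    refine Submodule.sum_mem _ fun d hd => ?_
    by_cases h : coeff d f = 0
    · rw [h, zero_smul]; exact P.zero_mem
    · exact P.smul_mem _ (hm d ((hS d).1 hd) h)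
  have h2 : f - ∑ d ∈ S, coeff d f • (monomial d 1 : RR n) ∈ II n k := by
    rw [mem_II]
    intro e he
    rw [map_sub, map_sum, Finset.sum_eq_single e]
    · simp
    · intro d _ hde
      simp [coeff_monomial, hde.symm]
    · intro h; exact absurd ((hS e).2 he) h
  have := P.add_mem h1 (hI _ h2)
  simpa using this

lemma mono_ind (Q : (Fin n →₀ ℕ) → Prop) (h0 : Q 0)
    (hs : ∀ d i, Q d → Q (d + Finsupp.single i 1)) (d : Fin n →₀ ℕ) : Q d := by
  induction d using Finsupp.induction₂ with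
  | zero => exact h0
  | add_single a b f h1 h2 hf =>
    clear h1 h2
    induction b with
    | zero => simpa using hf
    | succ b ih => rw [Finsupp.single_add, ← add_assoc]; exact hs _ _ ih

lemma mono_succ (d : Fin n →₀ ℕ) (i : Fin n) :
    (monomial (d + Finsupp.single i 1) 1 : RR n) = monomial d 1 * X i := by
  rw [X_def, monomial_mul_monomial, one_mul]

lemma hs {a : Fin n → RR n} (ha : ∀ i, a i 0 = 0) : HasSubst a :=
  hasSubst_of_constantCoeff_zero fun i => ha i

/-- substitution homomorphism -/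
noncomputable def sb {a : Fin n → RR n} (ha : ∀ i, a i 0 = 0) : RR n →ₐ[ℂ] RR n :=
  substAlgHom (hs ha)

lemma sb_apply {a : Fin n → RR n} (ha : ∀ i, a i 0 = 0) (f : RR n) : sb ha f = subst a f :=
  substAlgHom_apply _ _

lemma sb_X {a : Fin n → RR n} (ha : ∀ i, a i 0 = 0) (i : Fin n) : sb ha (X i) = a i := by
  rw [sb_apply, subst_X (hs ha)]

lemma sb_mem {a : Fin n → RR n} (ha : ∀ i, a i 0 = 0) {k : ℕ} {f : RR n} (hf : f ∈ II n k) :
    sb ha f ∈ II n k := by
  rw [mem_II_order] at *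
  rw [sb_apply]
  refine le_trans ?_ (le_order_subst (hs ha) f)
  have h1 : (1 : ℕ∞) ≤ ⨅ i, (a i).order :=
    le_iInf fun i => by simpa [mem_II_order] using mem_II_one.2 (ha i)
  calc (k : ℕ∞) ≤ 1 * f.order := by rwa [one_mul]
    _ ≤ _ := mul_le_mul_left h1 _

abbrev VV (n k : ℕ) := RR n ⧸ II n k

/-- the projection -/
noncomputable def pr (n k : ℕ) : RR n →ₐ[ℂ] VV n k := Ideal.Quotient.mkₐ ℂ (II n k)

lemma pr_surj (k : ℕ) : Function.Surjective (pr n k) := Ideal.Quotient.mkₐ_surjective ℂ _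

lemma pr_eq {k : ℕ} {f g : RR n} : pr n k f = pr n k g ↔ f - g ∈ II n k := Ideal.Quotient.eq

lemma pr_zero {k : ℕ} {f : RR n} : pr n k f = 0 ↔ f ∈ II n k := Ideal.Quotient.eq_zero_iff_mem

lemma exists_desc {k l : ℕ} (s : RR n →ₐ[ℂ] RR n) (h : ∀ f ∈ II n l, s f ∈ II n k) :
    ∃ t : VV n l →ₐ[ℂ] VV n k, ∀ f, t (pr n l f) = pr n k (s f) :=
  ⟨Ideal.quotientMapₐ (II n k) s (fun f hf => h f hf), fun _ => rfl⟩

lemma fin_VV (k : ℕ) : FiniteDimensional ℂ (VV n k) := by
  classical
  refine ⟨⟨(Finsupp.finite_of_degree_lt (σ := Fin n) k).toFinset.image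
    fun d => pr n k (monomial d 1), ?_⟩⟩
  rw [eq_top_iff]
  intro v _
  obtain ⟨f, rfl⟩ := pr_surj k v
  refine (Submodule.mem_comap (f := (pr n k).toLinearMap)).1 ?_
  refine ind k _ ?_ f ?_
  · intro g hg
    rw [Submodule.mem_comap]
    have : (pr n k).toLinearMap g = 0 := pr_zero.2 hg
    rw [this]; exact Submodule.zero_mem _
  · intro d hd _
    rw [Submodule.mem_comap]
    apply Submodule.subset_span
    simp only [Finset.coe_image, Set.Finite.coe_toFinset]
    exact ⟨d, hd, rfl⟩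

/-- multiplicative linear maps killing `II k` are determined by the values on the variables -/
lemma ext_k {A : Type*} [CommRing A] [Algebra ℂ A] (k : ℕ) (s t : RR n →ₗ[ℂ] A)
    (hs1 : s 1 = t 1) (hsm : ∀ f g, s (f * g) = s f * s g) (htm : ∀ f g, t (f * g) = t f * t g)
    (hsI : ∀ f ∈ II n k, s f = 0) (htI : ∀ f ∈ II n k, t f = 0)
    (hX : ∀ i, s (X i) = t (X i)) (f : RR n) : s f = t f := by
  refine ind k (LinearMap.eqLocus s t) ?_ f ?_
  · intro g hg
    rw [LinearMap.mem_eqLocus, hsI g hg, htI g hg]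
  · intro d _ _
    rw [LinearMap.mem_eqLocus]
    refine mono_ind (fun d => s (monomial d 1) = t (monomial d 1)) hs1 ?_ d
    intro d i h
    rw [mono_succ, hsm, htm, h, hX]

/-- an endomorphism tangent to the identity raises the order after subtracting the identity -/
lemma tangent (U : RR n →ₐ[ℂ] RR n) (hU : ∀ k, ∀ f ∈ II n k, U f ∈ II n k)
    (hX : ∀ i, U (X i) - X i ∈ II n 2) (j : ℕ) (f : RR n) (hf : f ∈ II n j) :
    U f - f ∈ II n (j + 1) := by
  have hm : ∀ d : Fin n →₀ ℕ, U (monomial d 1) - monomial d 1 ∈ II n (d.degree + 1) := by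
    intro d
    refine mono_ind (fun d => U (monomial d 1) - monomial d 1 ∈ II n (d.degree + 1)) ?_ ?_ d
    · have : (monomial 0 1 : RR n) = 1 := rfl
      rw [this, map_one, sub_self]; exact zero_mem _
    · intro d i h
      rw [mono_succ, map_mul]
      have e1 : U (monomial d 1) * U (X i) - monomial d 1 * X i =
          (U (monomial d 1) - monomial d 1) * U (X i) + monomial d 1 * (U (X i) - X i) := by ring
      have e2 : (d + Finsupp.single i 1).degree + 1 = d.degree + 1 + 1 := by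
        simp [map_add]
      rw [e1, e2]
      exact add_mem (II_mul h (hU _ _ (X_mem i))) (II_mul (k := d.degree) (l := 2) (mono_mem d) (hX i))
  refine ind (j + 1) (Submodule.comap (U.toLinearMap - LinearMap.id)
    ((II n (j + 1)).restrictScalars ℂ)) ?_ f ?_
  · intro g hg
    exact sub_mem (hU _ _ hg) hg
  · intro d hd hc
    have hjd : j ≤ d.degree := by
      by_contra hlt
      exact hc (mem_II.1 hf d (by omega))
    exact II_mono (by omega) (hm d)

lemma sb_sb {a b : Fin n → RR n} (ha : ∀ i, a i 0 = 0) (hb : ∀ i, b i 0 = 0) (f : RR n) :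
    sb hb (sb ha f) = subst (fun s => subst b (a s)) f := by
  rw [sb_apply, sb_apply, subst_comp_subst_apply (hs ha) (hs hb)]

lemma sb_inv {a b : Fin n → RR n} (ha : ∀ i, a i 0 = 0) (hb : ∀ i, b i 0 = 0)
    (h : ∀ i, subst b (a i) = (X i : RR n)) (f : RR n) : sb hb (sb ha f) = f := by
  rw [sb_sb, funext h]
  exact congrFun subst_self f

lemma sb_zero {a b : Fin n → RR n} (ha : ∀ i, a i 0 = 0) (hb : ∀ i, b i 0 = 0) (i : Fin n) :
    (subst b (a i) : RR n) 0 = 0 := by
  rw [← sb_apply hb]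
  exact mem_II_one.1 (sb_mem hb (mem_II_one.2 (ha i)))

lemma iter {K : Fin n → RR n} (hK : ∀ i, K i 0 = 0) (m : ℕ) :
    (∀ i, ((fun M : Fin n → RR n => fun i => (subst M (K i) : RR n))^[m] (fun i => X i)) i 0 = 0) ∧
    ∀ f : RR n, subst ((fun M : Fin n → RR n => fun i => (subst M (K i) : RR n))^[m]
      (fun i => X i)) f = (sb hK ^ m) f := by
  induction m with
  | zero =>
    refine ⟨fun i => mem_II_one.1 (X_mem i), fun f => ?_⟩
    exact congrFun subst_self f
  | succ m ih =>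
    rw [Function.iterate_succ_apply']
    refine ⟨fun i => sb_zero hK ih.1 i, fun f => ?_⟩
    rw [← sb_sb hK ih.1, sb_apply ih.1, ih.2, pow_succ, AlgHom.mul_apply]

lemma exists_K {H : Fin n → RR n} (hH : ∀ i, H i 0 = 0) {χ : ℂ → ℂ}
    (hχ : ∀ a b, χ (a * b) = χ a * χ b) (h1 : χ 1 = 1)
    (η : ∀ k, VV n k →ₐ[ℂ] VV n k) (hη : ∀ k f, η k (pr n k f) = pr n k (sb hH f))
    (T : ∀ k, End ℂ (VV n k)) (hT : ∀ k, Acts χ (η k).toLinearMap (T k)) :
    ∃ (K : Fin n → RR n) (hK : ∀ i, K i 0 = 0), ∀ k f, pr n k (sb hK f) = T k (pr n k f) := by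
  have compat : ∀ k l, k ≤ l → ∀ f g, T l (pr n l f) = pr n l g → T k (pr n k f) = pr n k g := by
    intro k l hkl f g h
    obtain ⟨ρ, hρ⟩ := exists_desc (k := k) (l := l) (AlgHom.id ℂ (RR n))
      (fun f hf => II_mono hkl hf)
    haveI := fin_VV (n := n) l
    have := acts_natural hχ (hT l) (hT k) ρ.toLinearMap 1 (by
      intro v
      obtain ⟨x, rfl⟩ := pr_surj l v
      simp [hρ, hη]) (pr n l f)
    rw [h1, one_smul, h] at this
    simpa [hρ] using this
  have hL : ∀ k i, ∃ g, pr n k g = T k (pr n k (X i)) := fun k i => pr_surj k _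
  choose L hL using hL
  obtain ⟨K, hKd⟩ : ∃ K : Fin n → RR n, ∀ i d, coeff d (K i) = coeff d (L (d.degree + 1) i) :=
    ⟨fun i d => coeff d (L (d.degree + 1) i), fun _ _ => rfl⟩
  have hKX : ∀ k i, pr n k (K i) = T k (pr n k (X i)) := by
    intro k i
    rw [← hL, pr_eq, mem_II]
    intro d hd
    rw [map_sub, hKd, ← map_sub]
    have := compat (d.degree + 1) k hd _ _ (hL k i).symm
    rw [← hL, pr_eq] at this
    exact mem_II.1 this d (Nat.lt_succ_self _)
  have hK : ∀ i, K i 0 = 0 := by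
    intro i
    rw [← mem_II_one, ← pr_zero, hKX, pr_zero.2 (X_mem i), map_zero]
  refine ⟨K, hK, fun k f => ?_⟩
  haveI := fin_VV (n := n) k
  refine ext_k k ((pr n k).toLinearMap ∘ₗ (sb hK).toLinearMap) (T k ∘ₗ (pr n k).toLinearMap)
    ?_ ?_ ?_ ?_ ?_ ?_ f
  · simp [acts_one h1 _ (hT k)]
  · intro f g; simp
  · intro f g; simp [acts_mul hχ _ (hT k)]
  · intro f hf
    simpa using pr_zero.2 (sb_mem hK hf)
  · intro f hf
    simp [pr_zero.2 hf]
  · intro i
    simp [sb_X, hKX]

end Aux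


/-- For every n, if an invertible formal map F in n variables over ℂ satisfies F∘H∘F = H for some invertible formal map H, then some formal map K of finite compositional order also satisfies F∘K∘F = K. -/
theorem result :
    ∀ (n : ℕ) (F H : Fin n → MvPowerSeries (Fin n) ℂ),
      (∀ i, F i 0 = 0) →
      (∃ G : Fin n → MvPowerSeries (Fin n) ℂ, (∀ i, G i 0 = 0) ∧
          (∀ i, MvPowerSeries.subst G (F i) = MvPowerSeries.X i) ∧
          (∀ i, MvPowerSeries.subst F (G i) = MvPowerSeries.X i)) →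
      (∀ i, H i 0 = 0) →
      (∃ G : Fin n → MvPowerSeries (Fin n) ℂ, (∀ i, G i 0 = 0) ∧
          (∀ i, MvPowerSeries.subst G (H i) = MvPowerSeries.X i) ∧
          (∀ i, MvPowerSeries.subst H (G i) = MvPowerSeries.X i)) →
      (∀ i, MvPowerSeries.subst (fun j => MvPowerSeries.subst F (H j)) (F i) = H i) →
      ∃ K : Fin n → MvPowerSeries (Fin n) ℂ, (∀ i, K i 0 = 0) ∧
        (∃ k : ℕ, 1 ≤ k ∧
          (fun M : Fin n → MvPowerSeries (Fin n) ℂ => fun i => MvPowerSeries.subst M (K i))^[k]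
              (fun i => MvPowerSeries.X i) = (fun i => MvPowerSeries.X i)) ∧
        (∀ i, MvPowerSeries.subst (fun j => MvPowerSeries.subst F (K j)) (F i) = K i) := by
  rintro n F H hF ⟨G, hG, hGF, hFG⟩ hH ⟨J, hJ, hJH, -⟩ hrel
  obtain ⟨χ, hχ, h1, hneg, hroot⟩ := H19Rev.exists_chi
  have hd : ∀ {a : Fin n → RR n} (ha : ∀ i, a i 0 = 0) (k : ℕ),
      ∃ t : VV n k →ₐ[ℂ] VV n k, ∀ f, t (pr n k f) = pr n k (sb ha f) :=
    fun ha k => exists_desc (sb ha) fun f hf => sb_mem ha hf
  choose φ hφ using hd hF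
  choose γ hγ using hd hG
  choose η hη using hd hH
  choose ι hι using hd hJ
  have hT : ∀ k, ∃ T, H19Rev.Acts χ (η k).toLinearMap T := fun k =>
    haveI := fin_VV (n := n) k
    H19Rev.exists_acts χ _
  choose T hT using hT
  obtain ⟨K, hK, hKT⟩ := exists_K hH hχ h1 η hη T hT
  have hrel' : ∀ f, sb hF (sb hH (sb hF f)) = sb hH f := by
    intro f
    rw [sb_sb hH hF, ← sb_apply (sb_zero hH hF), sb_sb, funext hrel, sb_apply]
  refine ⟨K, hK, ?_, ?_⟩
  · have hinj : Function.Injective (η 2).toLinearMap := by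
      apply Function.LeftInverse.injective (g := ι 2)
      intro v
      obtain ⟨x, rfl⟩ := pr_surj 2 v
      simp [hη, hι, sb_inv hH hJ hJH]
    haveI := fin_VV (n := n) 2
    obtain ⟨N, hN, hTN⟩ := H19Rev.acts_finite_order hroot (hT 2) hinj
    refine ⟨N, hN, ?_⟩
    have hpow : ∀ k m f, pr n k ((sb hK ^ m) f) = (T k ^ m) (pr n k f) := by
      intro k m
      induction m with
      | zero => intro f; simp
      | succ m ih => intro f; rw [pow_succ', pow_succ', AlgHom.mul_apply, hKT, ih]; rfl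
    have hU : ∀ k, ∀ f ∈ II n k, (sb hK ^ N) f ∈ II n k := by
      intro k f hf
      rw [← pr_zero, hpow, pr_zero.2 hf, map_zero]
    have hX : ∀ i, (sb hK ^ N) (MvPowerSeries.X i) - MvPowerSeries.X i ∈ II n 2 := by
      intro i
      rw [← pr_eq, hpow, hTN]
    have hnil : ∀ k m f, ∃ g ∈ II n m, ((T k ^ N - 1) ^ m) (pr n k f) = pr n k g := by
      intro k m f
      induction m with
      | zero => exact ⟨f, II_zero f, by simp⟩
      | succ m ih =>
        obtain ⟨g, hg, e⟩ := ih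
        refine ⟨_, tangent _ hU hX m g hg, ?_⟩
        rw [pow_succ', Module.End.mul_apply, e, map_sub, hpow]
        simp
    have hid : ∀ f, (sb hK ^ N) f = f := by
      intro f
      apply eq_of_II
      intro k
      haveI := fin_VV (n := n) k
      rw [← pr_eq, hpow]
      refine H19Rev.acts_unipotent (H19Rev.acts_pow (hT k) N) k ?_ _
      intro v
      obtain ⟨x, rfl⟩ := pr_surj k v
      obtain ⟨g, hg, e⟩ := hnil k k x
      rw [e, pr_zero.2 hg]
    funext i
    have h2 := (iter hK N).2 (MvPowerSeries.X i)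
    rw [MvPowerSeries.subst_X (hs (iter hK N).1), hid] at h2
    exact h2
  · intro i
    rw [← sb_sb hK hF, ← sb_X hF i, ← sb_X hK i]
    apply eq_of_II
    intro k
    haveI := fin_VV (n := n) k
    rw [← pr_eq, ← hφ, hKT, ← hφ, hKT]
    refine H19Rev.acts_reverse hχ h1 hneg (hT k) (φ k).toLinearMap (γ k).toLinearMap ?_ ?_ ?_ _
    · intro v
      obtain ⟨x, rfl⟩ := pr_surj k v
      simp [hφ, hγ, sb_inv hG hF hFG]
    · intro v
      obtain ⟨x, rfl⟩ := pr_surj k v
      simp [hφ, hγ, sb_inv hF hG hGF]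
    · intro v
      obtain ⟨x, rfl⟩ := pr_surj k v
      simp [hφ, hη, hrel']


end Pool.Agent.S02443
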