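import Pool.Statements.S02477
import Pool.Agent.Lib.helper27.WInf

set_option autoImplicit false
open Pool Pool.MP_9d3c8a_al

namespace Pool.Agent.S02477

/-- Over a char-0 field, every Lie automorphism of the algebra of derivations of F[x1,x2,...] moving only finitely many variables is conjugation by a polynomial automorphism in which each variable occurs in finitely many images of the variables, for both it and its inverse. -/
theorem result :
    ∀ (F : Type) [Field F] [CharZero F]
      (θ : Derivation F (MvPolynomial ℕ F) (MvPolynomial ℕ F) →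
            Derivation F (MvPolynomial ℕ F) (MvPolynomial ℕ F)),
      (∀ d : Derivation F (MvPolynomial ℕ F) (MvPolynomial ℕ F),
          Set.Finite {i : ℕ | d (MvPolynomial.X i) ≠ 0} →
          Set.Finite {i : ℕ | θ d (MvPolynomial.X i) ≠ 0}) →
      (∀ e : Derivation F (MvPolynomial ℕ F) (MvPolynomial ℕ F),
          Set.Finite {i : ℕ | e (MvPolynomial.X i) ≠ 0} →
          ∃ d : Derivation F (MvPolynomial ℕ F) (MvPolynomial ℕ F),
            Set.Finite {i : ℕ | d (MvPolynomial.X i) ≠ 0} ∧ θ d = e) →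
      (∀ d e : Derivation F (MvPolynomial ℕ F) (MvPolynomial ℕ F),
          Set.Finite {i : ℕ | d (MvPolynomial.X i) ≠ 0} →
          Set.Finite {i : ℕ | e (MvPolynomial.X i) ≠ 0} →
          θ d = θ e → d = e) →
      (∀ d e : Derivation F (MvPolynomial ℕ F) (MvPolynomial ℕ F),
          Set.Finite {i : ℕ | d (MvPolynomial.X i) ≠ 0} →
          Set.Finite {i : ℕ | e (MvPolynomial.X i) ≠ 0} →
          θ (d + e) = θ d + θ e ∧ θ ⁅d, e⁆ = ⁅θ d, θ e⁆) →
      (∀ (c : F) (d : Derivation F (MvPolynomial ℕ F) (MvPolynomial ℕ F)),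
          Set.Finite {i : ℕ | d (MvPolynomial.X i) ≠ 0} →
          θ (c • d) = c • θ d) →
      ∃ φ : MvPolynomial ℕ F ≃ₐ[F] MvPolynomial ℕ F,
        (∀ n : ℕ, Set.Finite {i : ℕ | n ∈ (φ (MvPolynomial.X i)).vars} ∧
                  Set.Finite {i : ℕ | n ∈ (φ.symm (MvPolynomial.X i)).vars}) ∧
        ∀ d : Derivation F (MvPolynomial ℕ F) (MvPolynomial ℕ F),
          Set.Finite {i : ℕ | d (MvPolynomial.X i) ≠ 0} →
          ∀ f : MvPolynomial ℕ F, θ d f = φ (d (φ.symm f)) := by
  intro F _ _ θ h1 h2 h3 h4 h5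
  have h : Lib.helper27.WInf.IsAut θ :=
    ⟨h1, h2, h3, fun d e hd he => (h4 d e hd he).1, fun d e hd he => (h4 d e hd he).2, h5⟩
  obtain ⟨φ, hφ⟩ := h.main
  refine ⟨φ, fun n => ⟨?_, ?_⟩, fun d hd f => ?_⟩
  · obtain ⟨d, hd, he⟩ := h2 _ (Lib.helper27.WInf.W_pd n)
    refine hd.subset fun i hi h0 => Lib.helper27.WInf.pderiv_ne_zero hi ?_
    rw [← he, hφ d hd, h0, map_zero]
  · refine (h1 _ (Lib.helper27.WInf.W_pd n)).subset fun i hi h0 =>
      Lib.helper27.WInf.pderiv_ne_zero hi ?_
    have := hφ _ (Lib.helper27.WInf.W_pd n) (φ.symm (MvPolynomial.X i))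
    rw [φ.apply_symm_apply, h0] at this
    exact (map_eq_zero_iff φ φ.injective).mp this.symm
  · rw [← hφ d hd, φ.apply_symm_apply]

end Pool.Agent.S02477
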