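import Pool.Statements.S02538
-- import your own Pool.Agent.* helpers here

set_option autoImplicit false
open Pool Pool.MP_a19302_al

namespace Pool.Agent.S02538

abbrev V := ℕ × ℕ → ℚ

def letter (M p : ℕ) : Bool := decide (M ∣ p)

def T (c : Bool) : Module.End ℚ V where
  toFun f := fun x => if x.2 < x.1 * x.1 ∧ letter x.1 x.2 = c then f (x.1, x.2 + 1) else 0
  map_add' f g := by funext x; simp only [Pi.add_apply]; split_ifs <;> simp
  map_smul' a f := by funext x; simp only [Pi.smul_apply, RingHom.id_apply]; split_ifs <;> simp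

lemma T_apply (c : Bool) (f : V) (M p : ℕ) :
    T c f (M, p) = if p < M * M ∧ letter M p = c then f (M, p + 1) else 0 := rfl

def mt : List Bool → ℕ → ℕ → Prop
  | [], _, _ => True
  | c :: w, M, p => (p < M * M ∧ letter M p = c) ∧ mt w M (p + 1)

def W : ℕ → ℕ → ℕ → List Bool
  | 0, _, _ => []
  | n + 1, M, r => letter M r :: W n M (r + 1)

lemma W_length (n M : ℕ) : ∀ r, (W n M r).length = n := by
  induction n with
  | zero => intro r; rfl
  | succ n ih => intro r; simp [W, ih]

lemma mt_eq (w : List Bool) (M : ℕ) : ∀ p, mt w M p → w = W w.length M p := by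
  induction w with
  | nil => intro p _; rfl
  | cons c w ih =>
    rintro p ⟨⟨-, h1⟩, h2⟩
    simp only [List.length_cons, W, h1, ← ih _ h2]

lemma W_congr (n M M' : ℕ) : ∀ p r, (∀ i < n, (M ∣ p + i ↔ M' ∣ r + i)) → W n M p = W n M' r := by
  induction n with
  | zero => intro p r _; rfl
  | succ n ih =>
    intro p r h
    have h0 := h 0 (by omega)
    simp only [add_zero] at h0
    simp only [W, letter, h0]
    congr 1
    apply ih
    intro i hi
    have := h (i + 1) (by omega)
    rwa [show p + (i + 1) = p + 1 + i by ring, show r + (i + 1) = r + 1 + i by ring] at this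

lemma mt_W (n M M' : ℕ) : ∀ r p, mt (W n M r) M' p ↔
    ∀ i < n, p + i < M' * M' ∧ (M' ∣ p + i ↔ M ∣ r + i) := by
  induction n with
  | zero => intro r p; simp [W, mt]
  | succ n ih =>
    intro r p
    simp only [W, mt, ih, letter, decide_eq_decide]
    constructor
    · rintro ⟨h0, h⟩ i hi
      rcases i with _ | i
      · simpa using h0
      · have := h i (by omega)
        rwa [show p + (i + 1) = p + 1 + i by ring, show r + (i + 1) = r + 1 + i by ring]
    · intro h
      refine ⟨by simpa using h 0 (by omega), fun i hi => ?_⟩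
      have := h (i + 1) (by omega)
      rwa [show p + (i + 1) = p + 1 + i by ring, show r + (i + 1) = r + 1 + i by ring] at this

lemma W_small (n M p : ℕ) : ∃ M' < n + 2, ∃ r < n + 2, W n M p = W n M' r := by
  by_cases h1 : 0 < M ∧ M ≤ n
  · refine ⟨M, by omega, p % M, by have := Nat.mod_lt p h1.1; omega, W_congr _ _ _ _ _ ?_⟩
    intro i _
    rw [Nat.dvd_iff_mod_eq_zero, Nat.dvd_iff_mod_eq_zero, Nat.mod_add_mod]
  by_cases h2 : ∃ j < n, M ∣ p + j
  · obtain ⟨j, hj, hd⟩ := h2
    refine ⟨n + 1, by omega, n + 1 - j, by omega, W_congr _ _ _ _ _ ?_⟩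
    intro i hi
    constructor
    · intro hi2
      have : i = j := by
        by_contra hne
        rcases Nat.lt_or_gt_of_ne hne with h | h
        · have h3 : M ∣ j - i := by
            have := Nat.dvd_sub hd hi2
            rwa [show p + j - (p + i) = j - i by omega] at this
          have := Nat.le_of_dvd (by omega) h3
          have := Nat.pos_of_dvd_of_pos h3 (by omega)
          omega
        · have h3 : M ∣ i - j := by
            have := Nat.dvd_sub hi2 hd
            rwa [show p + i - (p + j) = i - j by omega] at this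
          have := Nat.le_of_dvd (by omega) h3
          have := Nat.pos_of_dvd_of_pos h3 (by omega)
          omega
      rw [this, show n + 1 - j + j = n + 1 by omega]
    · rintro ⟨c, hc⟩
      have : i = j := by
        rcases c with _ | _ | c
        · omega
        · omega
        · have : (n + 1) * (c + 1 + 1) = (n + 1) * c + 2 * (n + 1) := by ring
          omega
      rw [this]; exact hd
  · refine ⟨n + 1, by omega, 1, by omega, W_congr _ _ _ _ _ ?_⟩
    intro i hi
    constructor
    · intro h; exact absurd ⟨i, hi, h⟩ h2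
    · intro h
      have := Nat.le_of_dvd (by omega) h
      omega

open Classical in
lemma op_apply (w : List Bool) (f : V) (M : ℕ) : ∀ p,
    (w.map T).prod f (M, p) = if mt w M p then f (M, p + w.length) else 0 := by
  induction w with
  | nil => intro p; simp [mt]
  | cons c w ih =>
    intro p
    simp only [List.map_cons, List.prod_cons, Module.End.mul_apply, T_apply, ih, mt,
      List.length_cons]
    by_cases h1 : p < M * M ∧ letter M p = c <;> by_cases h2 : mt w M (p + 1) <;>
      simp [h1, h2, add_assoc, add_comm 1]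

noncomputable abbrev A : Subalgebra ℚ (Module.End ℚ V) := Algebra.adjoin ℚ (Set.range T)

noncomputable def g (c : Bool) : A := ⟨T c, Algebra.subset_adjoin ⟨c, rfl⟩⟩

noncomputable def wd (w : List Bool) : A := (w.map g).prod

lemma wd_coe (w : List Bool) : (wd w : Module.End ℚ V) = (w.map T).prod := by
  induction w with
  | nil => rfl
  | cons c w ih =>
    simp only [wd, List.map_cons, List.prod_cons] at ih ⊢
    rw [Subalgebra.coe_mul, ih]; rfl

noncomputable def VV : Submodule ℚ A := Submodule.span ℚ {1, g true, g false}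

lemma pow_le (n : ℕ) : VV ^ n ≤ Submodule.span ℚ {a | ∃ w : List Bool, w.length ≤ n ∧ a = wd w} := by
  induction n with
  | zero =>
    rw [pow_zero, Submodule.one_le]
    exact Submodule.subset_span ⟨[], le_rfl, rfl⟩
  | succ n ih =>
    rw [pow_succ']
    refine (mul_le_mul_right ih _).trans ?_
    rw [VV, Submodule.span_mul_span]
    apply Submodule.span_mono
    rintro _ ⟨a, ha, _, ⟨w, hw, rfl⟩, rfl⟩
    rcases ha with rfl | rfl | rfl
    · exact ⟨w, by omega, by simp⟩
    · exact ⟨true :: w, by simp [hw], by simp [wd]⟩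
    · exact ⟨false :: w, by simp [hw], by simp [wd]⟩

lemma growth (n : ℕ) : Module.finrank ℚ ↥(VV ^ n) ≤ 8 * (n + 1) ^ 3 := by
  classical
  let S : Finset A := (Finset.range (n + 2) ×ˢ Finset.range (n + 2) ×ˢ Finset.range (n + 2)).image
    (fun q => wd (W q.1 q.2.1 q.2.2))
  have h1 : VV ^ n ≤ Submodule.span ℚ (S : Set A) := by
    refine (pow_le n).trans (Submodule.span_le.2 ?_)
    rintro _ ⟨w, hw, rfl⟩
    by_cases h : ∃ M p, mt w M p
    · obtain ⟨M, p, h⟩ := h
      obtain ⟨M', hM', r, hr, he⟩ := W_small w.length M p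
      apply Submodule.subset_span
      simp only [S, Finset.coe_image]
      refine ⟨(w.length, M', r), ?_, ?_⟩
      · simp only [Finset.coe_product, Finset.coe_range, Set.mem_prod, Set.mem_Iio]
        omega
      · simp only [← he, ← mt_eq w M p h]
    · have : wd w = 0 := by
        apply Subtype.ext
        rw [wd_coe]
        ext f ⟨M, p⟩
        rw [op_apply, if_neg (fun h' => h ⟨M, p, h'⟩)]; rfl
      rw [this]; exact Submodule.zero_mem _
  have h2 := Submodule.finrank_mono h1
  have h3 := finrank_span_finset_le_card (R := ℚ) S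
  have h4 : S.card ≤ (n + 2) * ((n + 2) * (n + 2)) := by
    refine Finset.card_image_le.trans ?_
    simp
  have h5 : (n + 2) * ((n + 2) * (n + 2)) ≤ 8 * (n + 1) ^ 3 := by nlinarith [Nat.zero_le (n ^ 3), Nat.zero_le (n ^ 2)]
  exact h2.trans (h3.trans (h4.trans h5))

def E (M j : ℕ) : Submodule ℚ V where
  carrier := {f | ∀ M' p, (M' ≠ M ∨ j ≤ p) → f (M', p) = 0}
  add_mem' := by
    intro f g hf hg M' p h
    simp [hf M' p h, hg M' p h]
  zero_mem' := by intro M' p _; rfl
  smul_mem' := by
    intro c f hf M' p h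
    simp [hf M' p h]

lemma A_pres (M j : ℕ) (a : A) : ∀ f ∈ E M j, (a : Module.End ℚ V) f ∈ E M j := by
  obtain ⟨a, ha⟩ := a
  induction ha using Algebra.adjoin_induction with
  | mem x hx =>
    obtain ⟨c, rfl⟩ := hx
    intro f hf M' p h
    show T c f (M', p) = 0
    rw [T_apply]
    split_ifs
    · exact hf M' (p + 1) (by omega)
    · rfl
  | algebraMap r => intro f hf; exact (E M j).smul_mem r hf
  | add x y _ _ hx hy => intro f hf; exact (E M j).add_mem (hx f hf) (hy f hf)
  | mul x y _ _ hx hy => intro f hf; exact hx _ (hy f hf)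

noncomputable def I (M : ℕ) : TwoSidedIdeal A :=
  TwoSidedIdeal.mk' {a | (∀ f, (a : Module.End ℚ V) f ∈ E M (M * M)) ∧
      ∀ j, ∀ f ∈ E M (j + 1), (a : Module.End ℚ V) f ∈ E M j}
    ⟨fun _ => (E _ _).zero_mem, fun _ _ _ => (E _ _).zero_mem⟩
    (fun ha hb => ⟨fun f => (E _ _).add_mem (ha.1 f) (hb.1 f),
      fun j f hf => (E _ _).add_mem (ha.2 j f hf) (hb.2 j f hf)⟩)
    (fun ha => ⟨fun f => (E _ _).neg_mem (ha.1 f), fun j f hf => (E _ _).neg_mem (ha.2 j f hf)⟩)
    (fun {x y} hy => ⟨fun f => A_pres _ _ x _ (hy.1 f),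
      fun j f hf => A_pres _ _ x _ (hy.2 j f hf)⟩)
    (fun {x y} hx => ⟨fun f => hx.1 _, fun j f hf => hx.2 j _ (A_pres _ _ y _ hf)⟩)

lemma mem_I (M : ℕ) (a : A) : a ∈ I M ↔ (∀ f, (a : Module.End ℚ V) f ∈ E M (M * M)) ∧
      ∀ j, ∀ f ∈ E M (j + 1), (a : Module.End ℚ V) f ∈ E M j := by
  rw [I, TwoSidedIdeal.mem_mk']; rfl

lemma I_lower (M : ℕ) (l : List A) (hl : ∀ a ∈ l, a ∈ I M) (j : ℕ) :
    ∀ f ∈ E M (j + l.length), ((l.prod : A) : Module.End ℚ V) f ∈ E M j := by
  induction l generalizing j with
  | nil => intro f hf; exact hf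
  | cons a l ih =>
    intro f hf
    rw [List.prod_cons]
    refine ((mem_I M a).1 (hl a (by simp))).2 j _ (ih (fun b hb => hl b (by simp [hb])) (j + 1) f ?_)
    rwa [show j + 1 + l.length = j + (a :: l).length by simp; ring]

lemma I_nil (M : ℕ) : ∃ m : ℕ, ∀ f : Fin m → A, (∀ i, f i ∈ I M) → (List.ofFn f).prod = 0 := by
  refine ⟨M * M + 1, fun f hf => ?_⟩
  rw [List.ofFn_succ', List.prod_concat]
  apply Subtype.ext
  ext v ⟨M', p⟩
  have h1 := ((mem_I M _).1 (hf (Fin.last _))).1 v
  have h2 := I_lower M (List.ofFn fun i : Fin (M * M) => f i.castSucc)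
    (by simp only [List.mem_ofFn]; rintro _ ⟨i, rfl⟩; exact hf _) 0 _ (by simpa using h1)
  exact h2 M' p (Or.inr (Nat.zero_le _))

lemma gM_mem (M : ℕ) (hM : 0 < M) : wd (W (2 * M) M 0) ∈ I M := by
  have key : ∀ M' p, mt (W (2 * M) M 0) M' p → M' = M ∧ p < M * M := by
    intro M' p h
    rw [mt_W] at h
    have h0 := h 0 (by omega)
    have hm := h M (by omega)
    simp only [add_zero, dvd_zero, iff_true, zero_add, dvd_refl] at h0 hm
    have hd : M' ∣ M := (Nat.dvd_add_right h0.2).1 hm.2
    have hle := Nat.le_of_dvd hM hd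
    have hpos : 0 < M' := Nat.pos_of_dvd_of_pos hd hM
    have h2 := (h M' (by omega)).2
    simp only [zero_add] at h2
    have := Nat.le_of_dvd hpos (h2.1 (dvd_add h0.2 dvd_rfl))
    have he : M' = M := by omega
    exact ⟨he, he ▸ h0.1⟩
  rw [mem_I, wd_coe]
  constructor
  · intro f M' p h
    rw [op_apply, if_neg]
    intro h'
    have := key _ _ h'
    omega
  · intro j f hf M' p h
    rw [op_apply]
    split_ifs
    · apply hf
      rw [W_length]; omega
    · rfl

lemma gM_pow (M : ℕ) (f : V) (r : ℕ) : ∀ s, 2 * (s + r) ≤ M →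
    ((wd (W (2 * M) M 0) ^ r : A) : Module.End ℚ V) f (M, 2 * M * s) = f (M, 2 * M * (s + r)) := by
  induction r with
  | zero => intro s _; simp
  | succ r ih =>
    intro s hs
    rw [pow_succ', Subalgebra.coe_mul, Module.End.mul_apply, wd_coe, op_apply, if_pos, W_length,
      show 2 * M * s + 2 * M = 2 * M * (s + 1) by ring, ih (s + 1) (by omega)]
    · congr 2; ring
    · rw [mt_W]
      intro i hi
      refine ⟨by nlinarith, ?_⟩
      rw [zero_add]
      exact Nat.dvd_add_right ⟨2 * s, by ring⟩


/-- The negation of the preceding statement: Every finitely generated associative algebra over a field with polynomially bounded growth (finite GK dimension) has a nilpotent two-sided ideal containing every nilpotent two-sided ideal. -/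
theorem result :
    ¬ (∀ (k : Type) [Field k] (A : Type) [Ring A] [Algebra k A],
      Algebra.FiniteType k A →
      (∃ V : Submodule k A, FiniteDimensional k V ∧ (1 : A) ∈ V ∧
          Algebra.adjoin k (V : Set A) = ⊤ ∧
          ∃ C d : ℕ, ∀ n : ℕ, Module.finrank k ↥(V ^ n) ≤ C * (n + 1) ^ d) →
      ∃ N : TwoSidedIdeal A,
        (∃ m : ℕ, ∀ f : Fin m → A, (∀ i, f i ∈ N) → (List.ofFn f).prod = 0) ∧
        ∀ I : TwoSidedIdeal A,
          (∃ m : ℕ, ∀ f : Fin m → A, (∀ i, f i ∈ I) → (List.ofFn f).prod = 0) → I ≤ N) := by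
  intro h
  have htop : Algebra.adjoin ℚ (VV : Set A) = ⊤ := by
    rw [eq_top_iff, ← Algebra.adjoin_adjoin_coe_preimage (R := ℚ) (s := Set.range T)]
    apply Algebra.adjoin_mono
    rintro ⟨x, hx⟩ ⟨c, rfl⟩
    apply Submodule.subset_span
    cases c
    · right; right; rfl
    · right; left; rfl
  have hft : Algebra.FiniteType ℚ A := by
    rw [← Subalgebra.fg_iff_finiteType]
    exact Subalgebra.fg_def.2 ⟨Set.range T, Set.finite_range T, rfl⟩
  have hfd : Module.Finite ℚ VV := by
    unfold VV
    exact Module.Finite.span_of_finite ℚ (Set.toFinite _)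
  have hone : (1 : A) ∈ VV := by
    unfold VV
    exact Submodule.subset_span (Or.inl rfl)
  obtain ⟨N, ⟨m, hm⟩, hN⟩ := h ℚ A hft ⟨VV, hfd, hone, htop, 8, 3, growth⟩
  have h1 := hN (I (2 * m + 1)) (I_nil _) (gM_mem _ (by omega))
  have h2 := hm (fun _ => wd (W (2 * (2 * m + 1)) (2 * m + 1) 0)) (fun _ => h1)
  rw [List.ofFn_const, List.prod_replicate] at h2
  have h3 := gM_pow (2 * m + 1) (fun _ => 1) m 0 (by omega)
  rw [h2] at h3
  simp at h3

end Pool.Agent.S02538
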