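import Pool.Statements.S02549
import Pool.Agent.Lib.helper7.Prim3

set_option autoImplicit false
open Pool Pool.MP_a23033_al

namespace Pool.Agent.S02549

open Pool.Agent.Lib.helper7.Prim

lemma mem_iff (n : ℕ) (w : FreeGroup (Fin n)) :
    w ∈ Subgroup.closure {x : FreeGroup (Fin n) | ∃ (f : ℕ → FreeGroup (Fin n)) (w : FreeGroup ℕ),
          w ∈ Laws GG ∧ FreeGroup.lift f w = x} ↔ InK GG w := by
  constructor
  · intro hw
    refine (Subgroup.closure_le (KK GG (Fin n))).2 ?_ hw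
    rintro x ⟨f, u, hu, e⟩
    exact (verbal_iff GG n x).1 ⟨u, hu, f, e⟩
  · intro hw
    obtain ⟨u, hu, f, e⟩ := (verbal_iff GG n w).2 hw
    exact Subgroup.subset_closure ⟨f, u, hu, e⟩
/-- There is a variety of groups (given by laws), a rank r, and an element h of the relatively free group of rank r that is not primitive, together with an injective endomorphism of that group sending h to a primitive element. -/
theorem result :
    ∃ (W : Set (FreeGroup ℕ)) (r : ℕ) (V : Subgroup (FreeGroup (Fin r))),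
      V = Subgroup.closure
        {x : FreeGroup (Fin r) | ∃ (f : ℕ → FreeGroup (Fin r)) (w : FreeGroup ℕ),
          w ∈ W ∧ FreeGroup.lift f w = x} ∧
      ∃ (h : FreeGroup (Fin r)) (g : Fin r → FreeGroup (Fin r)),
        (¬ ∃ (a b : Fin r → FreeGroup (Fin r)) (i : Fin r),
            (∀ j : Fin r, (FreeGroup.lift b (a j))⁻¹ * FreeGroup.of j ∈ V) ∧
            (∀ j : Fin r, (FreeGroup.lift a (b j))⁻¹ * FreeGroup.of j ∈ V) ∧
            (a i)⁻¹ * h ∈ V) ∧
        (∀ w : FreeGroup (Fin r), FreeGroup.lift g w ∈ V → w ∈ V) ∧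
        (∃ (a b : Fin r → FreeGroup (Fin r)) (i : Fin r),
            (∀ j : Fin r, (FreeGroup.lift b (a j))⁻¹ * FreeGroup.of j ∈ V) ∧
            (∀ j : Fin r, (FreeGroup.lift a (b j))⁻¹ * FreeGroup.of j ∈ V) ∧
            (a i)⁻¹ * FreeGroup.lift g h ∈ V) := by
  obtain ⟨h, hh⟩ := exists_h h5T hGG
  obtain ⟨g, hg1, hg2⟩ := mono h5T hGG hreg h hh
  refine ⟨Laws GG, 2, _, rfl, h, g, ?_, ?_, ?_⟩
  · rintro ⟨a, b, i, h1, h2, h3⟩
    exact not_prim h5T xU yU xmem ymem hxy hnc h hh a b i (fun j => (mem_iff 2 _).1 (h1 j))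
      (fun j => (mem_iff 2 _).1 (h2 j)) ((mem_iff 2 _).1 h3)
  · intro w hw
    exact (mem_iff 2 _).2 (hg1 w ((mem_iff 2 _).1 hw))
  · refine ⟨FreeGroup.of, FreeGroup.of, 0, fun j => by simp, fun j => by simp, ?_⟩
    exact (mem_iff 2 _).2 hg2

end Pool.Agent.S02549
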