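import Pool.Statements.S02659

set_option autoImplicit false
open Filter Topology
open Pool Pool.MP_ab8afa_al

namespace Pool.Agent.S02659

def P : ℕ → ℕ
  | 0 => 1
  | n + 1 => 10 * (n + 1) * P n + 1

theorem P_pos : ∀ n, 0 < P n
  | 0 => Nat.one_pos
  | _ + 1 => Nat.succ_pos _

noncomputable def A (n : ℕ) : ℝ := 1 / ((n:ℝ) + 1)

def pi (k : ℕ →₀ ℤ) : ℤ := k.sum (fun i c => c * (P i : ℤ))

noncomputable def nm (k : ℕ →₀ ℤ) : ℝ := k.sum (fun i c => |(c : ℝ)| * A i)

theorem A_pos (n : ℕ) : 0 < A n := by unfold A; positivity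

theorem pi_sub (k l : ℕ →₀ ℤ) : pi (k - l) = pi k - pi l := by
  unfold pi
  exact Finsupp.sum_sub_index (fun i a b => by ring)

theorem nm_nonneg (k : ℕ →₀ ℤ) : 0 ≤ nm k :=
  Finset.sum_nonneg fun i _ => mul_nonneg (abs_nonneg _) (A_pos i).le

theorem coord_le (k : ℕ →₀ ℤ) (i : ℕ) : |(k i : ℝ)| ≤ nm k * (i + 1) := by
  have h : |(k i : ℝ)| * A i ≤ nm k := by
    by_cases hi : i ∈ k.support
    · exact Finset.single_le_sum (f := fun i => |(k i : ℝ)| * A i)
        (fun j _ => mul_nonneg (abs_nonneg _) (A_pos j).le) hi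
    · rw [Finsupp.notMem_support_iff.1 hi]
      simpa using nm_nonneg k
  unfold A at h
  rwa [mul_one_div, div_le_iff₀ (by positivity)] at h

theorem S_lt : ∀ n, ∑ i ∈ Finset.range n, 5 * ((i:ℤ) + 1) * P i < P n
  | 0 => by simp [P]
  | n + 1 => by
    rw [Finset.sum_range_succ]
    have := S_lt n
    have h2 : (0:ℤ) < P n := by exact_mod_cast P_pos n
    simp only [P]
    push_cast
    nlinarith [Int.natCast_nonneg n]

theorem uniq_aux (k : ℕ → ℤ) (hk : ∀ i, |k i| ≤ 5 * ((i:ℤ) + 1)) :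
    ∀ n, ∑ i ∈ Finset.range n, k i * P i = 0 → ∀ i < n, k i = 0
  | 0, _, i, hi => absurd hi (Nat.not_lt_zero i)
  | n + 1, h, i, hi => by
    rw [Finset.sum_range_succ] at h
    have h1 : |∑ i ∈ Finset.range n, k i * P i| < P n := by
      refine lt_of_le_of_lt (Finset.abs_sum_le_sum_abs _ _) (lt_of_le_of_lt ?_ (S_lt n))
      refine Finset.sum_le_sum fun j _ => ?_
      rw [abs_mul, Nat.abs_cast]
      exact mul_le_mul_of_nonneg_right (hk j) (Int.natCast_nonneg _)
    have h2 : (0:ℤ) < P n := by exact_mod_cast P_pos n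
    have h3 : k n = 0 := by
      have e : ∑ i ∈ Finset.range n, k i * P i = -(k n * P n) := by linarith
      rw [e, abs_neg, abs_mul, Nat.abs_cast] at h1
      have : |k n| < 1 := by
        by_contra hc
        push Not at hc
        nlinarith
      exact Int.abs_lt_one_iff.1 this
    rcases Nat.lt_succ_iff_lt_or_eq.1 hi with hi | rfl
    · exact uniq_aux k hk n (by rw [h3] at h; simpa using h) i hi
    · exact h3

theorem uniq (k : ℕ →₀ ℤ) (hk : ∀ i, |(k i : ℝ)| ≤ 5 * ((i:ℝ) + 1)) (h : pi k = 0) : k = 0 := by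
  obtain ⟨n, hn⟩ := k.support.exists_nat_subset_range
  have h1 : ∑ i ∈ Finset.range n, k i * P i = 0 := by
    rw [← h, pi, Finsupp.sum_of_support_subset k hn _ (by simp)]
  ext i
  by_cases hi : i ∈ k.support
  · exact uniq_aux k (fun i => by exact_mod_cast hk i) n h1 i (Finset.mem_range.1 (hn hi))
  · exact Finsupp.notMem_support_iff.1 hi

def XS : Set ℤ := {z | ∃ c : ℕ →₀ ℤ, (∀ i, |(c i : ℝ)| ≤ 2 * ((i:ℝ) + 1)) ∧ pi c = z}

theorem exists_rep (N : ℤ → ℝ) (hN : ∀ z : ℤ, N z = sInf {r : ℝ | ∃ k : ℕ →₀ ℤ,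
    pi k = z ∧ r = nm k}) (z : ℤ) (e : ℝ) (he : 0 < e) :
    ∃ k : ℕ →₀ ℤ, pi k = z ∧ nm k < N z + e := by
  have hne : {r : ℝ | ∃ k : ℕ →₀ ℤ, pi k = z ∧ r = nm k}.Nonempty :=
    ⟨_, Finsupp.single 0 z, by simp [pi, P], rfl⟩
  obtain ⟨r, ⟨k, h1, rfl⟩, h2⟩ := Real.lt_sInf_add_pos hne he
  exact ⟨k, h1, by rw [hN]; exact h2⟩

/-- There exist positive integers p_n and reals a_n with a_1=1 strictly decreasing to 0, a_n(p_{n+1}/p_n-1)≥1, and gcd-1 tails, and a split of ℤ into nonempty X and its complement Y, such that for x_i in X and y_i in Y the three N-series are never all convergent. -/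
theorem result :
    ∃ p : ℕ → ℕ, ∃ a : ℕ → ℝ,
      a 0 = 1 ∧ StrictAnti a ∧ Tendsto a atTop (𝓝 0) ∧
      (∀ n, 0 < p n) ∧
      (∀ n, 1 ≤ a n * ((p (n + 1) : ℝ) / (p n : ℝ) - 1)) ∧
      (∀ m : ℕ, ∃ s : Finset ℕ, (∀ n ∈ s, m < n) ∧ s.gcd p = 1) ∧
      ∃ X : Set ℤ, X.Nonempty ∧ Xᶜ.Nonempty ∧
        ∀ N : ℤ → ℝ,
          (∀ z : ℤ, N z = sInf {r : ℝ | ∃ k : ℕ →₀ ℤ,
              (k.sum (fun i c => c * (p i : ℤ))) = z ∧
              r = k.sum (fun i c => |(c : ℝ)| * a i)}) →
          ∀ x y : ℕ → ℤ, (∀ i, x i ∈ X) → (∀ i, y i ∈ Xᶜ) →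
            ¬ (Summable (fun i => N (x i - x (i + 1))) ∧
               Summable (fun i => N (y i - y (i + 1))) ∧
               Summable (fun i => N (x i - y i))) := by
  refine ⟨P, A, by simp [A], ?_, tendsto_one_div_add_atTop_nhds_zero_nat, P_pos, ?_, ?_, XS,
    ⟨0, 0, fun i => by simp; positivity, by simp [pi]⟩, ⟨3, ?_⟩, ?_⟩
  · intro i j hij
    unfold A
    apply one_div_lt_one_div_of_lt (by positivity)
    have : (i:ℝ) < j := by exact_mod_cast hij
    linarith
  · intro n
    have h2 : (0:ℝ) < P n := by exact_mod_cast P_pos n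
    have h3 : 10 * ((n:ℝ) + 1) ≤ (P (n + 1) : ℝ) / P n := by
      rw [le_div_iff₀ h2]
      simp only [P]
      push_cast
      linarith
    unfold A
    rw [one_div_mul_eq_div, le_div_iff₀ (by positivity)]
    have : (0:ℝ) ≤ n := by positivity
    linarith
  · intro m
    refine ⟨{m + 1, m + 2}, ?_, ?_⟩
    · intro n hn
      simp only [Finset.mem_insert, Finset.mem_singleton] at hn
      omega
    · rw [Finset.gcd_insert, Finset.gcd_singleton, normalize_eq]
      show Nat.gcd (P (m + 1)) (P (m + 1 + 1)) = 1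
      rw [P]
      exact (Nat.coprime_mul_right_add_right _ _ _).2 (Nat.coprime_one_right _)
  · rintro ⟨c, hc, h3⟩
    have h := uniq (c - Finsupp.single 0 3) (fun i => by
      have := hc i
      by_cases hi : i = 0
      · subst hi
        simp only [Finsupp.coe_sub, Pi.sub_apply, Finsupp.single_eq_same] at this ⊢
        push_cast at this ⊢
        rw [abs_le] at this ⊢
        constructor <;> linarith [this.1, this.2]
      · simp only [Finsupp.coe_sub, Pi.sub_apply, Finsupp.single_eq_of_ne hi, sub_zero]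
        have : (0:ℝ) ≤ i := by positivity
        linarith) (by rw [pi_sub, h3]; simp [pi, P])
    have h4 := hc 0
    rw [sub_eq_zero.1 h] at h4
    simp at h4
    norm_num at h4
  · rintro N hN x y hx hy ⟨s1, -, s3⟩
    choose c hc hcx using hx
    choose d hd1 hd2 using fun j : ℕ => exists_rep N hN (x j - x (j + 1)) ((1 / 2) ^ j) (by positivity)
    choose e he1 he2 using fun j : ℕ => exists_rep N hN (x j - y j) ((1 / 2) ^ j) (by positivity)
    have sd : Summable fun j => nm (d j) :=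
      Summable.of_nonneg_of_le (fun j => nm_nonneg _) (fun j => (hd2 j).le)
        (s1.add summable_geometric_two)
    have se : Summable fun j => nm (e j) :=
      Summable.of_nonneg_of_le (fun j => nm_nonneg _) (fun j => (he2 j).le)
        (s3.add summable_geometric_two)
    have tail := tendsto_sum_nat_add fun j => nm (d j)
    obtain ⟨J, hJ⟩ := eventually_atTop.1 (tail.eventually (gt_mem_nhds one_pos))
    have hJ' := hJ J le_rfl
    have sd' : Summable fun j => nm (d (j + J)) := (summable_nat_add_iff J).2 sd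
    have hpart : ∀ n, ∑ j ∈ Finset.range n, nm (d (j + J)) ≤ 1 := fun n =>
      le_trans (sd'.sum_le_tsum _ fun j _ => nm_nonneg _) hJ'.le
    have hd3 : ∀ j, nm (d (j + J)) ≤ 1 := fun j =>
      le_trans (sd'.le_tsum j fun j _ => nm_nonneg _) hJ'.le
    have hstep : ∀ j, c (j + J + 1) = c (j + J) - d (j + J) := by
      intro j
      have h := uniq (c (j + J) - d (j + J) - c (j + J + 1)) (fun i => by
        have h1 := hc (j + J) i
        have h2 := hc (j + J + 1) i
        have h3 := coord_le (d (j + J)) i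
        have h4 : nm (d (j + J)) * ((i:ℝ) + 1) ≤ 1 * (i + 1) :=
          mul_le_mul_of_nonneg_right (hd3 j) (by positivity)
        simp only [Finsupp.coe_sub, Pi.sub_apply]
        push_cast
        rw [abs_le] at h1 h2 h3 ⊢
        constructor <;> linarith [h1.1, h1.2, h2.1, h2.2, h3.1, h3.2])
        (by rw [pi_sub, pi_sub, hcx, hcx, hd1]; ring)
      exact (sub_eq_zero.1 h).symm
    obtain ⟨I, hI⟩ := (c J).support.exists_nat_subset_range
    have hfar : ∀ i, I ≤ i → ∀ n, |(c (n + J) i : ℝ)| ≤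
        (∑ j ∈ Finset.range n, nm (d (j + J))) * (i + 1) := by
      intro i hi n
      induction n with
      | zero =>
        have : c J i = 0 := Finsupp.notMem_support_iff.1 fun h => by
          have := Finset.mem_range.1 (hI h); omega
        simp [this]
      | succ n ih =>
        rw [show n + 1 + J = n + J + 1 by ring, hstep, Finset.sum_range_succ, add_mul]
        simp only [Finsupp.coe_sub, Pi.sub_apply]
        push_cast
        have h3 := coord_le (d (n + J)) i
        linarith [abs_sub ((c (n + J)) i : ℝ) ((d (n + J)) i : ℝ)]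
    obtain ⟨J2, hJ2⟩ := eventually_atTop.1 (se.tendsto_atTop_zero.eventually (gt_mem_nhds (A_pos I)))
    have hsmall := hJ2 (J2 + J) (by omega)
    apply hy (J2 + J)
    refine ⟨c (J2 + J) - e (J2 + J), fun i => ?_, by rw [pi_sub, hcx, he1]; ring⟩
    have h3 := coord_le (e (J2 + J)) i
    have hnn := nm_nonneg (e (J2 + J))
    unfold A at hsmall
    rw [lt_div_iff₀ (by positivity)] at hsmall
    simp only [Finsupp.coe_sub, Pi.sub_apply]
    push_cast
    by_cases hi : I ≤ i
    · have h1 := hfar i hi J2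
      have h4 : (∑ j ∈ Finset.range J2, nm (d (j + J))) * ((i:ℝ) + 1) ≤ 1 * (i + 1) :=
        mul_le_mul_of_nonneg_right (hpart J2) (by positivity)
      have h5 : nm (e (J2 + J)) ≤ 1 := by
        have : (0:ℝ) ≤ I := by positivity
        nlinarith
      have h6 : nm (e (J2 + J)) * ((i:ℝ) + 1) ≤ 1 * (i + 1) :=
        mul_le_mul_of_nonneg_right h5 (by positivity)
      linarith [abs_sub ((c (J2 + J)) i : ℝ) ((e (J2 + J)) i : ℝ)]
    · have h7 : (i:ℝ) + 1 ≤ I + 1 := by
        have : i ≤ I := by omega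
        have : (i:ℝ) ≤ I := by exact_mod_cast this
        linarith
      have h8 : |(e (J2 + J) i : ℝ)| < 1 := by nlinarith
      have h9 : e (J2 + J) i = 0 := Int.abs_lt_one_iff.1 (by exact_mod_cast h8)
      rw [h9]
      simpa using hc (J2 + J) i

end Pool.Agent.S02659
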