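import Pool.Statements.S02663
import Pool.Agent.Lib.helper17.NO6

set_option autoImplicit false
open Pool Pool.MP_aba4aa_al

namespace Pool.Agent.S02663



/-- For every even positive integer k there is a group on which exactly k distinct partial orders are both two-sided translation invariant and lattice orders (all pairs have joins and meets). -/
theorem result :
    ∀ k : ℕ, 0 < k → Even k →
      ∃ (G : Type) (_ : Group G),
        Set.ncard {r : G → G → Prop |
          (∀ a, r a a) ∧
          (∀ a b c, r a b → r b c → r a c) ∧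
          (∀ a b, r a b → r b a → a = b) ∧
          (∀ a b c d, r a b → r (c * a * d) (c * b * d)) ∧
          (∀ a b, ∃ s, r a s ∧ r b s ∧ ∀ u, r a u → r b u → r s u) ∧
          (∀ a b, ∃ t, r t a ∧ r t b ∧ ∀ u, r u a → r u b → r u t)} = k := by
  rintro _ hk ⟨k, rfl⟩
  obtain ⟨K, h1, h2⟩ := Pool.Agent.Lib.helper17.NO.ex_field (m := k) (by omega)
  refine ⟨Pool.Agent.Lib.helper17.NO.DD K, inferInstance, ?_⟩
  have e : Set.ncard (Set.range (Pool.Agent.Lib.helper17.NO.Rl (K := K))) = k + k := by
    rw [Set.ncard_range_of_injective Pool.Agent.Lib.helper17.NO.Rl_inj, Nat.card_prod, h2]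
    simp [mul_two]
  rw [← e, ← Pool.Agent.Lib.helper17.NO.orders]
  congr 1
  ext r
  constructor
  · rintro ⟨a1, a2, a3, a4, -, a6⟩
    exact ⟨{ refl := a1, trans := a2, antisymm := a3,
             total := Pool.Agent.Lib.helper17.NO.lat_total a1 a2 a3 a4 a6 }, a4⟩
  · rintro ⟨a1, a2⟩
    refine ⟨refl_of r, fun _ _ _ => trans_of r, fun _ _ => antisymm_of r, a2, fun a b => ?_,
      fun a b => ?_⟩
    · rcases total_of r a b with h | h
      · exact ⟨b, h, refl_of r b, fun _ _ h => h⟩
      · exact ⟨a, refl_of r a, h, fun _ h _ => h⟩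
    · rcases total_of r a b with h | h
      · exact ⟨a, refl_of r a, h, fun _ h _ => h⟩
      · exact ⟨b, h, refl_of r b, fun _ _ h => h⟩

end Pool.Agent.S02663
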