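import Pool.Statements.S02666
-- import your own Pool.Agent.* helpers here

set_option autoImplicit false
open Pool Pool.MP_abd870_al

namespace Pool.Agent.S02666

section
open Set Filter Topology

lemma core {G R : Type} [Group G] [TopologicalSpace G] [Ring R] [TopologicalSpace R]
    [IsTopologicalRing R] (f : G →ₙ* R) (hf : Continuous f) (P : Subgroup G) (a b : G)
    (haa : a * a = 1) (hab : b * (a * b) = a)
    (hroot : ∀ U ∈ 𝓝 (1 : G), ∃ (n : ℕ) (u v : G), u ∈ U ∧ v ∈ U ∧ u ∈ P ∧ v ∈ P ∧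
      u ^ n = a ∧ v ^ n = b)
    (hconj : ∀ V : ℕ → Set G, (∀ j, V j ∈ 𝓝 (1 : G)) → ∃ g, ∀ z ∈ P, ∀ j, g⁻¹ * z * g ∈ V j)
    (W0 : Set R) (hW0 : W0 ∈ 𝓝 (0 : R)) : f (b * b * a) - f (a * b * b) ∈ W0 := by
  obtain ⟨W1, hW1, h4⟩ := exists_nhds_zero_quarter hW0
  obtain ⟨W, hW, h3⟩ : ∃ W ∈ 𝓝 (0 : R), ∀ x ∈ W, ∀ y ∈ W, ∀ z ∈ W, x * y * z ∈ W1 := by
    have hc : Continuous (fun p : R × R × R => p.1 * p.2.1 * p.2.2) := by fun_prop
    have h1 : (fun p : R × R × R => p.1 * p.2.1 * p.2.2) ⁻¹' W1 ∈ 𝓝 ((0, 0, 0) : R × R × R) :=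
      hc.continuousAt.preimage_mem_nhds (by simpa using hW1)
    obtain ⟨s, hs, t, ht, hst⟩ := mem_nhds_prod_iff.mp h1
    obtain ⟨s', hs', t', ht', hst'⟩ := mem_nhds_prod_iff.mp ht
    exact ⟨s ∩ (s' ∩ t'), inter_mem hs (inter_mem hs' ht'), fun x hx y hy z hz =>
      hst (show (x, y, z) ∈ s ×ˢ t from ⟨hx.1, hst' ⟨hy.2.1, hz.2.2⟩⟩)⟩
  have hstep : ∀ S : {S : Set R // S ∈ 𝓝 (0 : R)}, ∃ S' : {S : Set R // S ∈ 𝓝 (0 : R)},
      ∀ x ∈ S'.1, ∀ y ∈ S'.1, x - y ∈ S.1 := by
    rintro ⟨S, hS⟩
    have h1 : (fun p : R × R => p.1 - p.2) ⁻¹' S ∈ 𝓝 ((0, 0) : R × R) :=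
      continuous_sub.continuousAt.preimage_mem_nhds (by simpa using hS)
    obtain ⟨s, hs, t, ht, hst⟩ := mem_nhds_prod_iff.mp h1
    exact ⟨⟨s ∩ t, inter_mem hs ht⟩, fun x hx y hy =>
      hst (show (x, y) ∈ s ×ˢ t from ⟨hx.1, hy.2⟩)⟩
  choose nx hnx using hstep
  let S : ℕ → {S : Set R // S ∈ 𝓝 (0 : R)} := fun j => nx^[j] ⟨W, hW⟩
  have hS : ∀ j, ∀ x ∈ (S (j + 1)).1, ∀ y ∈ (S (j + 1)).1, x - y ∈ (S j).1 := by
    intro j
    simp only [S, Function.iterate_succ_apply']
    exact hnx _
  have h0 : ∀ j, (0 : R) ∈ (S j).1 := fun j => mem_of_mem_nhds (S j).2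
  let N : AddSubgroup R :=
    { carrier := {x | ∀ j, x ∈ (S j).1}
      zero_mem' := h0
      neg_mem' := fun {x} hx j => by simpa using hS j 0 (h0 _) x (hx _)
      add_mem' := fun {x y} hx hy j => by
        simpa using hS j x (hx _) _ (hS (j + 1) 0 (h0 _) y (hy _)) }
  have hfd : Continuous (fun x => f x - f 1) := hf.sub continuous_const
  obtain ⟨g, hg⟩ := hconj (fun j => (fun x => f x - f 1) ⁻¹' (S j).1)
    (fun j => hfd.continuousAt.preimage_mem_nhds (by simpa using (S j).2))
  have hQ : ∀ p ∈ P, ∀ q ∈ P, f g⁻¹ * (f p - f q) * f g ∈ N := by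
    intro p hp q hq
    have := N.sub_mem (show f (g⁻¹ * p * g) - f 1 ∈ N from hg p hp)
      (show f (g⁻¹ * q * g) - f 1 ∈ N from hg q hq)
    convert this using 1
    simp only [map_mul, mul_sub, sub_mul]
    abel
  obtain ⟨n, u, v, hu, hv, huP, hvP, hua, hvb⟩ := hroot
    (((fun x => (f x - f 1) * f g) ⁻¹' W) ∩ ((fun x => f g⁻¹ * (f x - f 1)) ⁻¹' W))
    (inter_mem ((hfd.mul continuous_const).continuousAt.preimage_mem_nhds (by simpa using hW))
      ((continuous_const.mul hfd).continuousAt.preimage_mem_nhds (by simpa using hW)))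
  have hT1 : ∀ x : G, f (x ^ n) - f 1 = (f x - f 1) * ∑ j ∈ Finset.range n, f (x ^ j) := by
    intro x
    rw [Finset.mul_sum, ← pow_zero x, ← Finset.sum_range_sub (fun j => f (x ^ j))]
    apply Finset.sum_congr rfl
    intro j _
    simp only [sub_mul, ← map_mul, pow_zero, one_mul, pow_succ']
  have hT2 : ∀ x : G, f (x ^ n) - f 1 = (∑ j ∈ Finset.range n, f (x ^ j)) * (f x - f 1) := by
    intro x
    rw [Finset.sum_mul, ← pow_zero x, ← Finset.sum_range_sub (fun j => f (x ^ j))]
    apply Finset.sum_congr rfl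
    intro j _
    simp only [mul_sub, ← map_mul, pow_zero, mul_one, pow_succ]
  have key : ∀ x ∈ P, ∀ y ∈ P, (f x - f 1) * f g ∈ W → f g⁻¹ * (f y - f 1) ∈ W →
      ∀ p ∈ P, ∀ q ∈ P, (f (x ^ n) - f 1) * (f p - f q) * (f (y ^ n) - f 1) ∈ W1 := by
    intro x hx y hy h1 h2 p hp q hq
    have h5 : f g⁻¹ * ((∑ j ∈ Finset.range n, f (x ^ j)) * (f p - f q) *
        (∑ j ∈ Finset.range n, f (y ^ j))) * f g ∈ N := by
      simp only [Finset.sum_mul, Finset.mul_sum]
      refine N.sum_mem fun i _ => N.sum_mem fun j _ => ?_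
      have := hQ _ (P.mul_mem (P.mul_mem (P.pow_mem hx j) hp) (P.pow_mem hy i)) _
        (P.mul_mem (P.mul_mem (P.pow_mem hx j) hq) (P.pow_mem hy i))
      convert this using 3
      simp only [map_mul, mul_sub, sub_mul]
    have h6 := h3 _ h1 _ (h5 0) _ h2
    convert h6 using 1
    rw [hT1 x, hT2 y]
    have e1 : (f x - f 1) * f g * f g⁻¹ = f x - f 1 := by
      simp only [sub_mul, ← map_mul, mul_inv_cancel_right]
    have e2 : f g * (f g⁻¹ * (f y - f 1)) = f y - f 1 := by
      simp only [mul_sub, ← map_mul, mul_inv_cancel_left]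
    calc _ = ((f x - f 1) * f g * f g⁻¹) * (∑ j ∈ Finset.range n, f (x ^ j)) * (f p - f q) *
        ((∑ j ∈ Finset.range n, f (y ^ j)) * (f g * (f g⁻¹ * (f y - f 1)))) := by rw [e1, e2]
      _ = _ := by simp only [mul_assoc]
  have haP : a ∈ P := hua ▸ P.pow_mem huP n
  have hbP : b ∈ P := hvb ▸ P.pow_mem hvP n
  have hab' := P.mul_mem haP hbP
  have hba' := P.mul_mem hbP haP
  have k1 := key u huP u huP hu.1 hu.2 _ hab' _ haP
  have k2 := key v hvP u huP hv.1 hu.2 _ hbP _ hab'
  have k3 := key u huP v hvP hu.1 hv.2 _ hba' _ hbP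
  have k4 := key u huP u huP hu.1 hu.2 _ haP _ hba'
  have := h4 k1 k2 k3 k4
  rw [hua, hvb] at this
  convert this using 1
  have r1 : ∀ x, a * (a * x) = x := fun x => by rw [← mul_assoc, haa, one_mul]
  have r2 : ∀ x, b * (a * (b * x)) = a * x := fun x => by
    rw [← mul_assoc a b, ← mul_assoc b, hab]
  simp only [mul_sub, sub_mul, ← map_mul, one_mul, mul_one, mul_assoc, r1, r2, haa, hab]
  abel

def XX : Type := ℝ × ℂ

open Classical in
noncomputable instance : PseudoEMetricSpace XX where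
  edist p q := if p.1 = q.1 then edist p.2 q.2 else ⊤
  edist_self p := by simp
  edist_comm p q := by
    by_cases h : p.1 = q.1
    · simp [h, edist_comm]
    · simp [h, Ne.symm h]
  edist_triangle p q r := by
    by_cases h1 : p.1 = q.1
    · by_cases h2 : q.1 = r.1
      · simp [h1, h2, edist_triangle]
      · simp [h2]
    · simp [h1]

open Classical in
lemma edist_def (p q : XX) : edist p q = if p.1 = q.1 then edist p.2 q.2 else ⊤ := rfl

abbrev GG : Type := XX ≃ᵢ XX

noncomputable instance : TopologicalSpace GG := TopologicalSpace.induced (fun g x => g x) Pi.topologicalSpace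

lemma cont_ev (x : XX) : Continuous (fun g : GG => g x) :=
  (continuous_apply x).comp continuous_induced_dom

lemma cont_ev2 : Continuous (fun p : GG × XX => p.1 p.2) := by
  rw [continuous_iff_continuousAt]
  rintro ⟨g, x⟩
  rw [ContinuousAt, EMetric.tendsto_nhds]
  intro ε hε
  have h2 : 0 < ε / 2 := ENNReal.half_pos hε.ne'
  have h3 := EMetric.tendsto_nhds.mp
    (((cont_ev x).comp (continuous_fst (X := GG) (Y := XX))).tendsto (g, x)) _ h2
  have h4 := EMetric.tendsto_nhds.mp
    ((continuous_snd (X := GG) (Y := XX)).tendsto (g, x)) _ h2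
  filter_upwards [h3, h4] with p h5 h6
  calc edist (p.1 p.2) (g x) ≤ edist (p.1 p.2) (p.1 x) + edist (p.1 x) (g x) := edist_triangle _ _ _
    _ < ε / 2 + ε / 2 := by
      rw [p.1.edist_eq]
      exact ENNReal.add_lt_add h6 h5
    _ = ε := ENNReal.add_halves ε

instance : IsTopologicalGroup GG where
  continuous_mul := by
    apply continuous_induced_rng.mpr
    apply continuous_pi
    intro x
    exact cont_ev2.comp (continuous_fst.prodMk ((cont_ev x).comp continuous_snd))
  continuous_inv := by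
    apply continuous_induced_rng.mpr
    apply continuous_pi
    intro x
    rw [continuous_iff_continuousAt]
    intro g
    rw [ContinuousAt, EMetric.tendsto_nhds]
    intro ε hε
    filter_upwards [EMetric.tendsto_nhds.mp ((cont_ev (g⁻¹ x)).tendsto g) _ hε] with h hh
    simp only [Function.comp]
    rw [← h.edist_eq, edist_comm]
    simpa using hh

open Classical in
noncomputable def fib : (ℂ ≃ᵢ ℂ) →* GG where
  toFun φ :=
    { toFun := fun p => (p.1, if p.1 = 0 then φ p.2 else p.2)
      invFun := fun p => (p.1, if p.1 = 0 then φ.symm p.2 else p.2)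
      left_inv := fun p => by
        by_cases h : p.1 = 0 <;> simp [h] <;> exact Prod.ext h.symm rfl
      right_inv := fun p => by
        by_cases h : p.1 = 0 <;> simp [h] <;> exact Prod.ext h.symm rfl
      isometry_toFun := fun p q => by
        simp only [edist_def]
        by_cases h : p.1 = q.1
        · by_cases h2 : q.1 = 0 <;> simp [h, h2, φ.edist_eq]
        · simp [h] }
  map_one' := by
    ext p
    show (p.1, if p.1 = 0 then p.2 else p.2) = p
    simp
  map_mul' φ ψ := by
    ext p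
    show (p.1, if p.1 = 0 then φ (ψ p.2) else p.2) =
      (p.1, if p.1 = 0 then φ (if p.1 = 0 then ψ p.2 else p.2) else
        (if p.1 = 0 then ψ p.2 else p.2))
    by_cases h : p.1 = 0 <;> simp [h]

open Classical in
lemma fib_apply (φ : ℂ ≃ᵢ ℂ) (p : XX) : fib φ p = (p.1, if p.1 = 0 then φ p.2 else p.2) := rfl

noncomputable def rot (t : ℝ) : ℂ ≃ᵢ ℂ := (rotation (Circle.exp t)).toIsometryEquiv

lemma rot_apply (t : ℝ) (z : ℂ) : rot t z = Complex.exp (t * Complex.I) * z := by
  simp [rot, rotation_apply]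

noncomputable def tr (t : ℝ) : ℂ ≃ᵢ ℂ := IsometryEquiv.addRight (t : ℂ)

lemma tr_apply (t : ℝ) (z : ℂ) : tr t z = z + t := rfl

lemma rot_pow (t : ℝ) (n : ℕ) : rot t ^ n = rot (n * t) := by
  induction n with
  | zero => ext z; simp [rot_apply]
  | succ n ih =>
    ext z
    rw [pow_succ, ih, IsometryEquiv.mul_apply, rot_apply, rot_apply, rot_apply, ← mul_assoc,
      ← Complex.exp_add]
    congr 2; push_cast; ring

lemma tr_pow (t : ℝ) (n : ℕ) : tr t ^ n = tr (n * t) := by
  induction n with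
  | zero => ext z; simp [tr_apply]
  | succ n ih =>
    ext z
    rw [pow_succ, ih, IsometryEquiv.mul_apply, tr_apply, tr_apply, tr_apply]
    push_cast; ring

lemma cont_mk (i : ℝ) : Continuous (fun z : ℂ => (show XX from (i, z))) :=
  Isometry.continuous (fun z w => by simp [edist_def])

lemma cont_fib (φ : ℝ → ℂ ≃ᵢ ℂ) (h : ∀ z, Continuous fun t => φ t z) :
    Continuous (fun t => fib (φ t)) := by
  apply continuous_induced_rng.mpr
  apply continuous_pi
  intro p
  simp only [Function.comp, fib_apply]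
  by_cases hp : p.1 = 0
  · simp only [hp, if_true]
    exact (cont_mk 0).comp (h p.2)
  · simp only [hp, if_false]
    exact continuous_const

open Classical in
noncomputable def sw (i : ℝ) : GG where
  toFun p := (Equiv.swap 0 i p.1, p.2)
  invFun p := (Equiv.swap 0 i p.1, p.2)
  left_inv p := by simp
  right_inv p := by simp
  isometry_toFun p q := by simp [edist_def]

lemma conj (V : ℕ → Set GG) (hV : ∀ j, V j ∈ 𝓝 (1 : GG)) :
    ∃ g, ∀ z ∈ fib.range, ∀ j, g⁻¹ * z * g ∈ V j := by
  classical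
  have h1 : ∀ j, ∃ F : Set XX, F.Finite ∧ ∀ h : GG, (∀ p ∈ F, h p = p) → h ∈ V j := by
    intro j
    have := hV j
    rw [nhds_induced, mem_comap] at this
    obtain ⟨M, hM, hMV⟩ := this
    rw [nhds_pi, Filter.mem_pi] at hM
    obtain ⟨F, hF, w, hw, hwM⟩ := hM
    refine ⟨F, hF, fun h hh => hMV (hwM fun p hp => ?_)⟩
    show h p ∈ w p
    rw [hh p hp]
    exact mem_of_mem_nhds (hw p)
  choose F hF h2 using h1
  have hc : (⋃ j, Prod.fst '' F j).Countable :=
    countable_iUnion fun j => ((hF j).image _).countable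
  obtain ⟨i, hi⟩ : ∃ i : ℝ, i ∉ ⋃ j, Prod.fst '' F j := by
    by_contra hh
    push Not at hh
    exact Cardinal.not_countable_real (hc.mono fun i _ => hh i)
  refine ⟨sw i, ?_⟩
  rintro _ ⟨φ, rfl⟩ j
  apply h2 j
  intro p hp
  have h3 : p.1 ≠ i := fun h => hi (mem_iUnion.mpr ⟨j, p, hp, h⟩)
  have h4 : Equiv.swap 0 i p.1 ≠ 0 := by
    intro h
    rw [Equiv.swap_apply_eq_iff] at h
    exact h3 (by simpa using h)
  have h5 : fib φ (sw i p) = sw i p := by
    rw [fib_apply]
    show (Equiv.swap 0 i p.1, if Equiv.swap 0 i p.1 = 0 then φ p.2 else p.2) = _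
    rw [if_neg h4]; rfl
  rw [IsometryEquiv.mul_apply, IsometryEquiv.mul_apply, h5]
  simp

end

/-- The negation of the preceding statement: Every topological group G admits a topological ring R and a multiplicative map from G into R that is a topological embedding (injective and a homeomorphism onto its image). -/
theorem result :
    ¬ (∀ (G : Type) [Group G] [TopologicalSpace G] [IsTopologicalGroup G],
      ∃ (R : Type) (_ : Ring R) (_ : TopologicalSpace R),
        IsTopologicalRing R ∧ ∃ f : G →ₙ* R, Topology.IsEmbedding f) := by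
  intro H
  obtain ⟨R, _, _, _, f, hf⟩ := H GG
  have ha : ∀ z, rot Real.pi z = -z := fun z => by simp [rot_apply]
  have key := core f hf.continuous fib.range (fib (rot Real.pi)) (fib (tr 1))
    (by rw [← map_mul, ← map_one fib]; congr 1; ext z; simp [ha])
    (by rw [← map_mul, ← map_mul]; congr 1; ext z; simp [ha, tr_apply])
    (by
      intro U hU
      have c1 : Continuous (fun t => fib (rot (Real.pi * t))) :=
        cont_fib _ (fun z => by simp only [rot_apply]; fun_prop)
      have c2 : Continuous (fun t => fib (tr t)) :=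
        cont_fib _ (fun z => by simp only [tr_apply]; fun_prop)
      have e1 : fib (rot (Real.pi * 0)) = 1 := by
        rw [← map_one fib]; congr 1; ext z; simp [rot_apply]
      have e2 : fib (tr 0) = 1 := by
        rw [← map_one fib]; congr 1; ext z; simp [tr_apply]
      have t0 := tendsto_one_div_add_atTop_nhds_zero_nat (𝕜 := ℝ)
      have t1 := (c1.tendsto 0).comp t0
      have t2 := (c2.tendsto 0).comp t0
      rw [e1] at t1
      rw [e2] at t2
      obtain ⟨n, h1, h2⟩ := ((t1.eventually hU).and (t2.eventually hU)).exists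
      refine ⟨n + 1, _, _, h1, h2, ⟨_, rfl⟩, ⟨_, rfl⟩, ?_, ?_⟩
      · simp only [Function.comp]
        rw [← map_pow, rot_pow]; congr 2; push_cast; field_simp
      · simp only [Function.comp]
        rw [← map_pow, tr_pow]; congr 2; push_cast; field_simp)
    conj
  set p := fib (tr 1) * fib (tr 1) * fib (rot Real.pi) with hp
  set q := fib (rot Real.pi) * fib (tr 1) * fib (tr 1) with hq
  have h1 : f q ⤳ f p := by
    rw [specializes_iff_forall_closed]
    intro s hs hqs
    by_contra hps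
    have h2 : (fun x => f p - x) ⁻¹' sᶜ ∈ nhds (0 : R) :=
      (continuous_const.sub continuous_id).continuousAt.preimage_mem_nhds
        (by simpa using hs.isOpen_compl.mem_nhds hps)
    exact key _ h2 (by simpa using hqs)
  have h2 := (hf.isInducing.specializes_iff.mp h1).map (cont_ev ((0 : ℝ), (0 : ℂ)))
  have h3 := EMetric.inseparable_iff.mp (specializes_iff_inseparable.mp h2)
  simp only [hp, hq, IsometryEquiv.mul_apply, fib_apply, edist_def, if_true, ha, tr_apply,
    edist_eq_zero] at h3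
  norm_num at h3

end Pool.Agent.S02666
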