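import Pool.Statements.S02686
import Pool.Agent.Lib.helper4.FreePart

set_option autoImplicit false
open Pool Pool.MP_adca84_al

namespace Pool.Agent.S02686

/-- The negation of the preceding statement: For every group G and every partition of G into n cells, some cell A and some set F of at most n pairs (x,y) in G×G satisfy: every element of G equals x·a·b⁻¹·y for some (x,y) in F and a,b in A. -/
theorem result :
    ¬ (∀ (G : Type) [Group G] (n : ℕ) (A : Fin n → Set G),
      (∀ g : G, ∃ i, g ∈ A i) →
      (∀ i j, i ≠ j → Disjoint (A i) (A j)) →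
      ∃ i : Fin n, ∃ F : Finset (G × G), F.card ≤ n ∧
        ∀ g : G, ∃ p ∈ F, ∃ a ∈ A i, ∃ b ∈ A i, g = p.1 * a * b⁻¹ * p.2) := by
  intro h
  classical
  obtain ⟨c, h1, -⟩ := Pool.Agent.H4Free.main
  obtain ⟨i, F, hF, e⟩ := h _ 7 (fun i => {g | c g = i}) (fun g => ⟨c g, rfl⟩)
    (fun i j hij => Set.disjoint_left.2 fun x (a : c x = i) (b : c x = j) =>
      hij (a.symm.trans b))
  obtain ⟨t, ht⟩ := h1 i (F.image Prod.fst) (F.image Prod.snd) (Finset.card_image_le.trans hF)
    (Finset.card_image_le.trans hF)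
  obtain ⟨p, hp, a, ha, b, hb, e'⟩ := e t
  exact ht _ (Finset.mem_image_of_mem _ hp) _ (Finset.mem_image_of_mem _ hp) a b ha hb e'

end Pool.Agent.S02686
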