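import Pool.Statements.S02752
import Pool.Agent.Lib.helper33.EclGroup

set_option autoImplicit false
open Pool Pool.MP_b2345f_al

namespace Pool.Agent.S02752

section aux

open Pool.Agent.Lib.helper33.EclGroup Monoid

abbrev F := CoprodI (fun _ : Fin 2 => K)

abbrev S := Σ _ : Fin 2, Lt

def valS (w : List S) : F :=
  (w.map (fun s : S => CoprodI.of (M := fun _ : Fin 2 => K) (i := s.1) s.2.1)).prod

theorem valS_cons (s : S) (w : List S) :
    valS (s :: w) = CoprodI.of (M := fun _ : Fin 2 => K) (i := s.1) s.2.1 * valS w := by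
  simp [valS]

theorem valS_append (u w : List S) : valS (u ++ w) = valS u * valS w := by simp [valS]

def in0 (x : Lt) : S := ⟨0, x⟩

def z : S := ⟨1, lt⟩

theorem valS_in0 (u : List Lt) :
    valS (u.map in0) = CoprodI.of (M := fun _ : Fin 2 => K) (i := 0) (val u) := by
  induction u with
  | nil => simp [valS, val]
  | cons x u ih => rw [List.map_cons, valS_cons, ih, val_cons, map_mul]; rfl

def proj (k : Fin 2) : F →* K := CoprodI.lift (fun i => if i = k then MonoidHom.id K else 1)

def part (k : Fin 2) (w : List S) : List Lt := (w.filter (fun s => s.1 = k)).map (fun s => s.2)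

theorem proj_valS (k : Fin 2) (w : List S) : proj k (valS w) = val (part k w) := by
  induction w with
  | nil => simp [valS, part, val]
  | cons s w ih =>
    rw [valS_cons, map_mul, ih, proj, CoprodI.lift_of]
    by_cases h : s.1 = k
    · simp [part, h, val]
    · simp [part, h, val]

theorem length_part (w : List S) : w.length = (part 0 w).length + (part 1 w).length := by
  induction w with
  | nil => simp [part]
  | cons s w ih =>
    obtain ⟨i, x⟩ := s
    fin_cases i <;> simp [part] at ih ⊢ <;> omega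

theorem split0 (w : List S) (h : part 1 w = []) : ∃ u : List Lt, w = u.map in0 := by
  induction w with
  | nil => exact ⟨[], rfl⟩
  | cons s w ih =>
    obtain ⟨i, x⟩ := s
    fin_cases i
    · obtain ⟨u, rfl⟩ := ih (by simpa [part] using h)
      exact ⟨x :: u, rfl⟩
    · simp [part] at h

theorem split1 (w : List S) (h : part 1 w = [lt]) :
    ∃ u u' : List Lt, w = u.map in0 ++ z :: u'.map in0 := by
  induction w with
  | nil => simp [part] at h
  | cons s w ih =>
    obtain ⟨i, x⟩ := s
    fin_cases i
    · obtain ⟨u, u', rfl⟩ := ih (by simpa [part] using h)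
      exact ⟨x :: u, u', rfl⟩
    · have h' : x = lt ∧ part 1 w = [] := by simpa [part] using h
      obtain ⟨u, rfl⟩ := split0 w h'.2
      exact ⟨[], u, by rw [h'.1]; rfl⟩

theorem part0_split (u u' : List Lt) : part 0 (u.map in0 ++ z :: u'.map in0) = u ++ u' := by
  have : ∀ v : List Lt, part 0 (v.map in0) = v := by
    intro v
    induction v with
    | nil => rfl
    | cons x v ih => simp [part, in0] at ih ⊢; exact ih
  have h1 := this u
  have h2 := this u'
  simp [part, z] at h1 h2 ⊢
  rw [h1, h2]

def J : Matrix (Fin 3) (Fin 3) ℤ := !![0, 0, 1; 0, 1, 0; 1, 0, 0]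

def ρ : K →* Matrix (Fin 3) (Fin 3) ℤ where
  toFun g := if g.s then !![0, 1, 2 * g.i + g.j; 1, 0, g.j; 0, 0, 1]
    else !![1, 0, 2 * g.i + g.j; 0, 1, g.j; 0, 0, 1]
  map_one' := by
    ext a b
    fin_cases a <;> fin_cases b <;> simp [one_def]
  map_mul' := by
    rintro ⟨a, b, s⟩ ⟨c, d, t⟩
    cases s <;> cases t <;> simp [mul_def] <;> constructor <;> ring

def sg : K →* Matrix (Fin 3) (Fin 3) ℤ where
  toFun g := if g.s then J else 1
  map_one' := by simp [one_def]
  map_mul' := by
    rintro ⟨a, b, s⟩ ⟨c, d, t⟩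
    cases s <;> cases t <;> simp [mul_def]
    ext a b
    fin_cases a <;> fin_cases b <;> simp [J]

def ψ : F →* Matrix (Fin 3) (Fin 3) ℤ := CoprodI.lift (fun i => if i = 0 then ρ else sg)

theorem ψ_split (u u' : List Lt) :
    ψ (valS (u.map in0 ++ z :: u'.map in0)) = ρ (val u) * (J * ρ (val u')) := by
  rw [valS_append, valS_cons, valS_in0, valS_in0, map_mul, map_mul, ψ, CoprodI.lift_of,
    CoprodI.lift_of, CoprodI.lift_of]
  rfl

theorem trace_conj {A B : Matrix (Fin 3) (Fin 3) ℤ} (h : IsConj A B) : A.trace = B.trace := by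
  obtain ⟨c, hc⟩ := h
  have : B = c.val * A * c.inv := by
    rw [hc.eq, mul_assoc, c.val_inv, mul_one]
  rw [this, Matrix.trace_mul_comm, ← mul_assoc, c.inv_val, one_mul]

def g (m n : ℕ) : K := ⟨(m : ℤ) - n, 2 * n, false⟩

theorem conj0 (m n : ℕ) (h : K) (hc : IsConj (g m n) h) : h = g m n ∨ h = g n m := by
  obtain ⟨⟨a, b, u⟩, rfl⟩ := isConj_iff.1 hc
  cases u <;> simp [g, mul_def, inv_def] <;> omega

theorem conj1 (h : K) (hc : IsConj lt.1 h) : h.s = true ∧ h.i + h.j = 0 ∧ h.j % 2 = 0 := by
  obtain ⟨⟨a, b, u⟩, rfl⟩ := isConj_iff.1 hc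
  cases u <;> simp [lt, mul_def, inv_def] <;> omega

theorem one_letter : ∀ x : Lt, x.1.s = true → x = lt := by decide

theorem two_letters : ∀ x y : Lt,
    ¬ ((x.1 * y.1).s = true ∧ (x.1 * y.1).i + (x.1 * y.1).j = 0 ∧ (x.1 * y.1).j % 2 = 0) := by
  decide

theorem part1_eq (l : List Lt) (hc : IsConj lt.1 (val l)) (hl : l.length ≤ 2) : l = [lt] := by
  have := conj1 _ hc
  match l, hl with
  | [], _ => simp [val, one_def] at this
  | [x], _ => rw [one_letter x (by simpa [val] using this.1)]
  | [x, y], _ => exact absurd (by simpa [val] using this) (two_letters x y)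

theorem len_g (m n : ℕ) : m + n ≤ len (g m n) ∧ (m + 2 ≤ n → len (g m n) = m + n + 2) ∧
    (n ≤ m → len (g m n) = m + n) := by
  simp only [len, g, Bool.false_eq_true, if_false]
  split_ifs <;> omega

theorem val_rep (m : ℕ) : val (List.replicate m lc) = ⟨m, 0, false⟩ := by
  induction m with
  | zero => rfl
  | succ m ih => rw [List.replicate_succ, val_cons, ih]; simp [lc, mul_def]; ring

def tl (n : ℕ) : List Lt := lt :: (List.replicate n lc ++ [lt])

theorem val_W (m n : ℕ) : val (List.replicate m lc ++ tl n) = g m n := by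
  rw [tl, val_append, val_cons, val_append, val_rep, val_rep]
  simp [val, lt, g, mul_def]
  ring

theorem good_c (n : ℕ) : Good (List.replicate n lc ++ [lt]) := by
  refine (acc_sound _ 1 ?_).1
  induction n with
  | zero => exact (by decide : (6 : Fin 16) ≠ 15)
  | succ n ih => exact ih

theorem good_W (m n : ℕ) (h : m + 3 ≤ n) : Good (List.replicate m lc ++ tl n) := by
  induction m with
  | zero =>
    have e : lt.1 * val (List.replicate n lc ++ [lt]) = g 0 n := by
      rw [← val_cons]; exact val_W 0 n
    refine ⟨good_c n, ?_, fun y hy => ?_⟩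
    · rw [e, (len_g 0 n).2.1 (by omega)]; simp
    · rw [e]
      simp only [List.length_append, List.length_replicate, List.length_singleton]
      rcases letter_cases y with e' | e' | e' | e' | e' | e' | e' <;> rw [e'] at hy ⊢ <;>
        simp [rank, lt] at hy <;>
        simp only [len, g, mul_def, inv_def, Bool.false_eq_true, if_false, Bool.xor_false] <;>
        split_ifs <;> omega
  | succ m ih =>
    have e : lc.1 * val (List.replicate m lc ++ tl n) = g (m + 1) n := by
      rw [← val_cons]; exact val_W (m + 1) n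
    refine ⟨ih (by omega), ?_, fun y hy => ?_⟩
    · change len (lc.1 * val (List.replicate m lc ++ tl n)) =
        (List.replicate m lc ++ tl n).length + 1
      rw [e, (len_g (m + 1) n).2.1 (by omega)]
      simp [tl]
      omega
    · exact absurd hy (by simp [rank, lc])

def W (m n : ℕ) : List S := (List.replicate m lc ++ tl n).map in0 ++ z :: ([] : List Lt).map in0

theorem W_length (m n : ℕ) : (W m n).length = m + n + 3 := by
  simp [W, tl]
  omega

theorem proj0_W (m n : ℕ) : proj 0 (valS (W m n)) = g m n := by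
  rw [proj_valS, W, part0_split, List.append_nil, val_W]

theorem proj1_W (m n : ℕ) : proj 1 (valS (W m n)) = lt.1 := by
  rw [W, valS_append, valS_cons, valS_in0, valS_in0, map_mul, map_mul, proj, CoprodI.lift_of,
    CoprodI.lift_of, CoprodI.lift_of]
  simp [z]

theorem ψ_W (m n : ℕ) : ψ (valS (W m n)) = ρ (g m n) * J := by
  rw [W, ψ_split, val_W]
  simp [val]

theorem trace_g (m n : ℕ) : (ρ (g m n) * J).trace = 2 * m + 1 := by
  simp [ρ, g, J, Matrix.trace_fin_three]
  ring

theorem conj_min (m n : ℕ) (h : m + 3 ≤ n) (w : List S) (hc : IsConj (valS (W m n)) (valS w)) :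
    (W m n).length ≤ w.length := by
  rw [W_length]
  by_contra hlt
  have h0 := (proj 0).map_isConj hc
  have h1 := (proj 1).map_isConj hc
  rw [proj0_W, proj_valS] at h0
  rw [proj1_W, proj_valS] at h1
  have l0 : m + n ≤ (part 0 w).length := by
    refine le_trans ?_ (len_val _)
    rcases conj0 m n _ h0 with e | e <;> rw [e]
    · exact (len_g m n).1
    · have := (len_g n m).1; omega
  have hl := length_part w
  obtain ⟨u, u', rfl⟩ := split1 w (part1_eq _ h1 (by omega))
  have h2 := trace_conj (ψ.map_isConj hc)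
  rw [ψ_W, ψ_split, trace_g, ← mul_assoc, Matrix.trace_mul_comm, ← mul_assoc, ← map_mul,
    ← val_append] at h2
  rw [part0_split] at h0
  have h3 : IsConj (g m n) (val (u' ++ u)) := by
    refine h0.trans (isConj_iff.2 ⟨val u', ?_⟩)
    rw [val_append, val_append]
    group
  rcases conj0 m n _ h3 with e | e
  · have := len_val (u' ++ u)
    rw [e, (len_g m n).2.1 (by omega)] at this
    simp at this hlt
    omega
  · rw [e, trace_g] at h2
    omega

theorem comm_J (b : K) (h : J * ρ b = ρ b * J) : b = 1 := by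
  obtain ⟨i, j, s⟩ := b
  have h1 := congrFun (congrFun h 0) 0
  have h2 := congrFun (congrFun h 1) 0
  have h3 := congrFun (congrFun h 0) 2
  cases s <;> simp [ρ, J, one_def] at h1 h2 h3 ⊢
  omega

theorem lex_map (R : S → S → Prop) (hR : ∀ a b, R ⟨0, a⟩ ⟨0, b⟩ ↔ r a b) (t : List S)
    {l₁ l₂ : List Lt} (h : List.Lex r l₁ l₂) (hl : l₁.length = l₂.length) :
    List.Lex R (l₁.map in0 ++ t) (l₂.map in0 ++ t) := by
  induction h with
  | nil => simp at hl
  | rel h => exact List.Lex.rel ((hR _ _).2 h)
  | cons _ ih => exact List.Lex.cons (ih (by simpa using hl))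

theorem sl_min (R : S → S → Prop) (hR : ∀ a b, R ⟨0, a⟩ ⟨0, b⟩ ↔ r a b) (m n : ℕ)
    (h : m + 3 ≤ n) (w : List S) (hw : valS w = valS (W m n)) :
    (W m n).length < w.length ∨
      ((W m n).length = w.length ∧ (W m n = w ∨ List.Lex R (W m n) w)) := by
  rcases (conj_min m n h w (by rw [hw])).lt_or_eq with hl | hl
  · exact Or.inl hl
  refine Or.inr ⟨hl, ?_⟩
  have h0 := proj0_W m n
  have h1 := proj1_W m n
  have h2 := ψ_W m n
  rw [← hw] at h0 h1 h2
  rw [proj_valS] at h0 h1
  have l0 := len_val (part 0 w)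
  rw [h0, (len_g m n).2.1 (by omega)] at l0
  have hl' := length_part w
  rw [W_length] at hl
  obtain ⟨u, u', rfl⟩ := split1 w (part1_eq _ (by rw [h1]) (by omega))
  rw [part0_split, val_append] at h0
  rw [ψ_split, ← h0, map_mul, mul_assoc] at h2
  have h3 : J * ρ (val u') = ρ (val u') * J := by
    have := congrArg (fun A => ρ (val u)⁻¹ * A) h2
    simpa only [← mul_assoc, ← map_mul, inv_mul_cancel, map_one, one_mul] using this
  rw [comm_J _ h3, mul_one] at h0
  have l1 := len_val u
  rw [h0, (len_g m n).2.1 (by omega)] at l1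
  have hu' : u' = [] := by
    rw [← List.length_eq_zero_iff]
    simp at hl
    omega
  subst hu'
  have hlu : (List.replicate m lc ++ tl n).length = u.length := by
    simp [tl] at hl ⊢
    omega
  rcases good_min _ (good_W m n h) u (by rw [h0, val_W]) with h4 | ⟨-, h4 | h4⟩
  · omega
  · left; rw [W, h4]
  · right; exact lex_map R hR _ h4 hlu

theorem not_min (m n : ℕ) (h : n ≤ m) : ∃ w, valS w = valS (W m n) ∧ w.length < (W m n).length := by
  obtain ⟨u, h1, h2⟩ := acc_complete _ 0 (g m n) rfl (by simp [Pool.Agent.Lib.helper33.EclGroup.Inv, Iv, g]; omega)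
  have h3 := (acc_sound u 0 h1).2.2
  rw [h2, (len_g m n).2.2 h] at h3
  refine ⟨u.map in0 ++ z :: ([] : List Lt).map in0, ?_, ?_⟩
  · rw [W, valS_append, valS_append, valS_in0, valS_in0, h2, val_W]
  · rw [W_length]
    simp
    omega

theorem W_split (m n : ℕ) :
    W m n = (List.replicate m lc).map in0 ++ ((tl n).map in0 ++ [z]) := by
  simp [W]

end aux

/-- The negation of the preceding statement: For any graph product of groups with finite inverse-closed generating sets ordered so each factor's equal-length conjugacy shortlex language is regular, some total order on the union extending those orders makes the graph product's language regular. -/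
theorem result :
    ¬ (∀ (n : ℕ) (Γ : SimpleGraph (Fin n)) (G : Fin n → Type) [∀ i, Group (G i)]
    (X : ∀ i, Finset (G i))
    (r : ∀ i, {x // x ∈ X i} → {x // x ∈ X i} → Prop),
    (∀ i, IsStrictTotalOrder {x // x ∈ X i} (r i)) →
    (∀ i, ∀ x ∈ X i, x⁻¹ ∈ X i) →
    (∀ i, Subgroup.closure ((X i : Finset (G i)) : Set (G i)) = ⊤) →
    (∀ i, ∃ (σ : Type), Finite σ ∧ ∃ (M : DFA {x // x ∈ X i} σ),
      ∀ w : List {x // x ∈ X i}, w ∈ M.accepts ↔
        ((∀ w' : List {x // x ∈ X i},
            (w'.map Subtype.val).prod = (w.map Subtype.val).prod →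
              w.length < w'.length ∨
                (w.length = w'.length ∧ (w = w' ∨ List.Lex (r i) w w'))) ∧
          ∀ w' : List {x // x ∈ X i},
            IsConj (w.map Subtype.val).prod (w'.map Subtype.val).prod →
              w.length ≤ w'.length)) →
    ∀ (H : Type) [Group H] (φ : Monoid.CoprodI G →* H),
      Function.Surjective φ →
      φ.ker = Subgroup.normalClosure
        {x : Monoid.CoprodI G | ∃ (i j : Fin n), Γ.Adj i j ∧
          ∃ (a : G i) (b : G j),
            x = Monoid.CoprodI.of (M := G) (i := i) a * Monoid.CoprodI.of (M := G) (i := j) b *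
              (Monoid.CoprodI.of (M := G) (i := i) a)⁻¹ *
              (Monoid.CoprodI.of (M := G) (i := j) b)⁻¹} →
    ∃ R : (Σ i, {x // x ∈ X i}) → (Σ i, {x // x ∈ X i}) → Prop,
      IsStrictTotalOrder (Σ i, {x // x ∈ X i}) R ∧
      (∀ i (a b : {x // x ∈ X i}), R ⟨i, a⟩ ⟨i, b⟩ ↔ r i a b) ∧
      ∃ (σ : Type), Finite σ ∧ ∃ (M : DFA (Σ i, {x // x ∈ X i}) σ),
        ∀ w : List (Σ i, {x // x ∈ X i}), w ∈ M.accepts ↔
          ((∀ w' : List (Σ i, {x // x ∈ X i}),
              (w'.map (fun s : (Σ i, {x // x ∈ X i}) =>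
                  φ (Monoid.CoprodI.of (M := G) (i := s.1) s.2.1))).prod =
              (w.map (fun s : (Σ i, {x // x ∈ X i}) =>
                  φ (Monoid.CoprodI.of (M := G) (i := s.1) s.2.1))).prod →
                w.length < w'.length ∨
                  (w.length = w'.length ∧ (w = w' ∨ List.Lex R w w'))) ∧
            ∀ w' : List (Σ i, {x // x ∈ X i}),
              IsConj
                (w.map (fun s : (Σ i, {x // x ∈ X i}) =>
                  φ (Monoid.CoprodI.of (M := G) (i := s.1) s.2.1))).prod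
                (w'.map (fun s : (Σ i, {x // x ∈ X i}) =>
                  φ (Monoid.CoprodI.of (M := G) (i := s.1) s.2.1))).prod →
                w.length ≤ w'.length)) := by
  intro h
  obtain ⟨R, -, hR, σ, hσ, M', hM⟩ := h 2 ⊥ (fun _ => Pool.Agent.Lib.helper33.EclGroup.K)
    (fun _ => Pool.Agent.Lib.helper33.EclGroup.X) (fun _ => Pool.Agent.Lib.helper33.EclGroup.r)
    (fun _ => inferInstance) (fun _ => Pool.Agent.Lib.helper33.EclGroup.X_inv)
    (fun _ => Pool.Agent.Lib.helper33.EclGroup.X_gen)
    (fun _ => ⟨Fin 16, inferInstance, Pool.Agent.Lib.helper33.EclGroup.M,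
      Pool.Agent.Lib.helper33.EclGroup.regular⟩)
    F (MonoidHom.id _) Function.surjective_id (by simp)
  have key : ∀ a b : ℕ, a < b →
      M'.eval ((List.replicate (3 * a) Pool.Agent.Lib.helper33.EclGroup.lc).map in0) ≠
        M'.eval ((List.replicate (3 * b) Pool.Agent.Lib.helper33.EclGroup.lc).map in0) := by
    intro a b hab e
    have h1 : W (3 * a) (3 * a + 3) ∈ M'.accepts :=
      (hM _).2 ⟨sl_min R (hR 0) _ _ le_rfl, conj_min _ _ le_rfl⟩
    have h2 : W (3 * b) (3 * a + 3) ∈ M'.accepts := by
      rw [DFA.mem_accepts, W_split, DFA.eval, DFA.evalFrom_of_append] at h1 ⊢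
      unfold DFA.eval at e
      rw [← e]
      exact h1
    obtain ⟨w, w1, w2⟩ := not_min (3 * b) (3 * a + 3) (by omega)
    rcases ((hM _).1 h2).1 w w1 with h3 | h3 <;> omega
  obtain ⟨a, b, hab, e⟩ := Finite.exists_ne_map_eq_of_infinite (fun a : ℕ =>
    M'.eval ((List.replicate (3 * a) Pool.Agent.Lib.helper33.EclGroup.lc).map in0))
  rcases lt_or_gt_of_ne hab with h1 | h1
  · exact key a b h1 e
  · exact key b a h1 e.symm

end Pool.Agent.S02752
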