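import Pool.Statements.S02774
-- import your own Pool.Agent.* helpers here

set_option autoImplicit false
open Pool Pool.MP_b442e4_al

namespace Pool.Agent.S02774

/-- relators of the example: exponent 6, involutions, `of none` commutes with all generators -/
def rels : Set (FreeGroup (Option ℝ)) :=
  {r | (∃ g, r = g ^ 6) ∨ (∃ i, r = FreeGroup.of i ^ 2) ∨
    ∃ j, r = FreeGroup.of none * FreeGroup.of (some j) * (FreeGroup.of none)⁻¹ *
      (FreeGroup.of (some j))⁻¹}

abbrev P := PresentedGroup rels

def lawS : Set (FreeGroup ℕ) := {FreeGroup.of 0 ^ 6}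

lemma law_iff (K : Type) [Group K] :
    (∀ w ∈ lawS, ∀ f : ℕ → K, FreeGroup.lift f w = 1) ↔ ∀ k : K, k ^ 6 = 1 := by
  constructor
  · intro h k
    have := h _ rfl (fun _ => k)
    simpa using this
  · intro h w hw f
    rw [show w = FreeGroup.of 0 ^ 6 from hw]
    simp [h]

def liftP {K : Type} [Group K] (hK : ∀ k : K, k ^ 6 = 1) (f : Option ℝ → K)
    (h2 : ∀ i, f i ^ 2 = 1) (hc : ∀ j, f none * f (some j) = f (some j) * f none) : P →* K :=
  PresentedGroup.toGroup (f := f) (by
    rintro r (⟨g, rfl⟩ | ⟨i, rfl⟩ | ⟨j, rfl⟩)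
    · simp [hK]
    · simp [h2]
    · simp [hc j])

@[simp] lemma liftP_of {K : Type} [Group K] (hK : ∀ k : K, k ^ 6 = 1) (f : Option ℝ → K)
    (h2 : ∀ i, f i ^ 2 = 1) (hc : ∀ j, f none * f (some j) = f (some j) * f none) (i : Option ℝ) :
    liftP hK f h2 hc (PresentedGroup.of i) = f i := PresentedGroup.toGroup.of _

lemma P_exp (g : P) : g ^ 6 = 1 := by
  obtain ⟨x, rfl⟩ := PresentedGroup.mk_surjective rels g
  rw [← map_pow]
  exact PresentedGroup.one_of_mem (Or.inl ⟨x, rfl⟩)

lemma P_sq (i : Option ℝ) : (PresentedGroup.of i : P) ^ 2 = 1 := by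
  have : PresentedGroup.mk rels (FreeGroup.of i ^ 2) = 1 :=
    PresentedGroup.one_of_mem (Or.inr (Or.inl ⟨i, rfl⟩))
  rw [map_pow] at this
  exact this

lemma P_comm (j : ℝ) : (PresentedGroup.of none : P) * PresentedGroup.of (some j) =
    PresentedGroup.of (some j) * PresentedGroup.of none := by
  have : PresentedGroup.mk rels (FreeGroup.of none * FreeGroup.of (some j) * (FreeGroup.of none)⁻¹ *
      (FreeGroup.of (some j))⁻¹) = 1 :=
    PresentedGroup.one_of_mem (Or.inr (Or.inr ⟨j, rfl⟩))
  simp only [map_mul, map_inv] at this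
  have h : (PresentedGroup.of none : P) * PresentedGroup.of (some j) * (PresentedGroup.of none)⁻¹ *
      (PresentedGroup.of (some j))⁻¹ = 1 := this
  rw [mul_inv_eq_one, mul_inv_eq_iff_eq_mul] at h
  exact h

lemma P_central (g : P) : (PresentedGroup.of none : P) * g = g * PresentedGroup.of none := by
  have : g ∈ Subgroup.centralizer {(PresentedGroup.of none : P)} := by
    apply PresentedGroup.generated_by
    intro i
    rw [Subgroup.mem_centralizer_iff]
    rintro _ rfl
    cases i with
    | none => rfl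
    | some j => exact P_comm j
  rw [Subgroup.mem_centralizer_iff] at this
  exact this _ rfl

lemma dihedral {A : Type} [Group A] (a b : A) (ha : a ^ 2 = 1) (hb : b ^ 2 = 1)
    (h6 : (a * b) ^ 6 = 1) :
    (a * (a * b) ^ 3) ^ 2 = 1 ∧ a * (a * (a * b) ^ 3) = (a * (a * b) ^ 3) * a := by
  have ha' : a⁻¹ = a := by rw [inv_eq_iff_mul_eq_one, ← sq, ha]
  have hb' : b⁻¹ = b := by rw [inv_eq_iff_mul_eq_one, ← sq, hb]
  have haa : a * a = 1 := by rw [← sq, ha]
  have h1 : a * (a * b) * a⁻¹ = (a * b)⁻¹ := by
    rw [mul_inv_rev, ha', hb', ← mul_assoc, haa, one_mul]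
  have h2 : a * (a * b) ^ 3 * a⁻¹ = ((a * b) ^ 3)⁻¹ := by
    rw [← conj_pow, h1, inv_pow]
  have h3 : ((a * b) ^ 3)⁻¹ = (a * b) ^ 3 := by
    rw [inv_eq_iff_mul_eq_one, ← pow_add]; exact h6
  rw [h3, mul_inv_eq_iff_eq_mul] at h2
  constructor
  · calc (a * (a * b) ^ 3) ^ 2 = a * ((a * b) ^ 3 * a) * (a * b) ^ 3 := by
          rw [sq]; simp only [mul_assoc]
      _ = (a * a) * ((a * b) ^ 3 * (a * b) ^ 3) := by rw [← h2]; simp only [mul_assoc]
      _ = 1 := by rw [haa, ← pow_add, h6, one_mul]
  · rw [mul_assoc a _ a, ← h2]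

lemma P_proj (A B : Type) [Group A] [Group B] (hA : ∀ k : A, k ^ 6 = 1)
    (π : A →* B) (hπ : Function.Surjective π) (φ : P →* B) : ∃ ψ : P →* A, π.comp ψ = φ := by
  choose s hs using hπ
  let h : Option ℝ → A := fun i => s (φ (PresentedGroup.of i)) ^ 3
  have h2 : ∀ i, h i ^ 2 = 1 := fun i => by
    simp only [h, ← pow_mul]; exact hA _
  have hφ2 : ∀ i, φ (PresentedGroup.of i) ^ 2 = 1 := fun i => by rw [← map_pow, P_sq, map_one]
  have hπh : ∀ i, π (h i) = φ (PresentedGroup.of i) := fun i => by
    simp only [h, map_pow, hs]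
    rw [pow_succ, hφ2, one_mul]
  let f : Option ℝ → A := fun i => match i with
    | none => h none
    | some j => h none * (h none * h (some j)) ^ 3
  refine ⟨liftP hA f ?_ ?_, ?_⟩
  · intro i
    cases i with
    | none => exact h2 none
    | some j => exact (dihedral _ _ (h2 none) (h2 (some j)) (hA _)).1
  · intro j
    exact (dihedral _ _ (h2 none) (h2 (some j)) (hA _)).2
  · apply PresentedGroup.ext
    intro i
    rw [MonoidHom.comp_apply, liftP_of]
    cases i with
    | none => exact hπh none
    | some j =>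
      simp only [f, map_mul, map_pow, hπh]
      have hc : Commute (φ (PresentedGroup.of none)) (φ (PresentedGroup.of (some j))) := by
        unfold Commute SemiconjBy
        rw [← map_mul, ← map_mul, P_comm]
      rw [hc.mul_pow, pow_succ _ 2, pow_succ _ 2, hφ2, hφ2, one_mul, one_mul, ← mul_assoc, ← sq,
        hφ2, one_mul]

abbrev S3 := Equiv.Perm (Fin 3)

lemma S3_exp : ∀ k : S3, k ^ 6 = 1 := fun k => by
  have := pow_card_eq_one (G := S3) (x := k)
  simpa [Fintype.card_perm, Nat.factorial] using this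

open Classical in
/-- the character sending the generator `k` to the involution `τ` and the others to `1` -/
noncomputable def chi (τ : S3) (hτ : τ ^ 2 = 1) (k : Option ℝ) : P →* S3 :=
  liftP S3_exp (fun i => if i = k then τ else 1)
    (fun i => by by_cases h : i = k <;> simp [h, hτ])
    (fun j => by by_cases h : none = k <;> by_cases h' : some j = k <;> simp [h, h'])

open Classical in
lemma chi_of (τ : S3) (hτ : τ ^ 2 = 1) (k i : Option ℝ) :
    chi τ hτ k (PresentedGroup.of i) = if i = k then τ else 1 := liftP_of _ _ _ _ _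

lemma chi_range (τ : S3) (hτ : τ ^ 2 = 1) (k : Option ℝ) (g : P) :
    chi τ hτ k g = 1 ∨ chi τ hτ k g = τ := by
  have hi : τ⁻¹ = τ := by rw [inv_eq_iff_mul_eq_one, ← sq, hτ]
  let N : Subgroup P :=
    { carrier := {g | chi τ hτ k g = 1 ∨ chi τ hτ k g = τ}
      one_mem' := Or.inl (map_one _)
      mul_mem' := by
        rintro a b (ha | ha) (hb | hb) <;> simp [ha, hb, ← sq, hτ]
      inv_mem' := by
        rintro a (ha | ha) <;> simp [ha, hi] }
  have : g ∈ N := by
    apply PresentedGroup.generated_by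
    intro i
    show chi τ hτ k _ = 1 ∨ chi τ hτ k _ = τ
    rw [chi_of]
    split_ifs <;> simp
  exact this

lemma countable_closure {G : Type} [Group G] (s : Set G) (hs : s.Countable) :
    (Subgroup.closure s : Set G).Countable := by
  have : Countable s := hs.to_subtype
  have h1 : Subgroup.closure s = (FreeGroup.lift (fun x : s => (x : G))).range := by
    rw [FreeGroup.range_lift_eq_closure]; simp
  have : Countable (FreeGroup s) := by
    unfold FreeGroup; infer_instance
  rw [h1, MonoidHom.coe_range]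
  exact Set.countable_range _

def t1 : S3 := Equiv.swap 0 1
def t2 : S3 := Equiv.swap 1 2
lemma t1sq : t1 ^ 2 = 1 := by decide
lemma t2sq : t2 ^ 2 = 1 := by decide

noncomputable def Psi : P →* (ℝ → S3) := MonoidHom.pi fun j => chi t2 t2sq (some j)

lemma Psi_unc (s : Set (ℝ → S3)) (hs : s.Countable) :
    ¬ ∀ g : P, Psi g ∈ Subgroup.closure s := by
  intro h
  have hc := countable_closure s hs
  have hinj : Function.Injective (fun j : ℝ => Psi (PresentedGroup.of (some j))) := by
    intro j j' hj
    have := congrFun hj j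
    simp only [Psi, MonoidHom.pi_apply, chi_of] at this
    by_contra hne
    have h' : ¬ j' = j := fun e => hne e.symm
    simp [h'] at this
    exact absurd this (by decide)
  have : (Set.univ : Set ℝ).Countable := by
    have := hc.preimage_of_injOn (f := fun j : ℝ => Psi (PresentedGroup.of (some j)))
      (hinj.injOn)
    refine this.mono fun j _ => h _
  exact Cardinal.not_countable_real this


/-- The negation of the preceding statement: For every group variety given by laws, every projective group of the variety that is not finitely generated is the coproduct in the variety (the 𝔐-free product) of a family of countably generated projective groups of the variety. -/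
theorem result :
    ¬ (∀ (S : Set (FreeGroup ℕ)) (G : Type) [Group G],
    (∀ w ∈ S, ∀ f : ℕ → G, FreeGroup.lift f w = 1) →
    (∀ (A B : Type) [Group A] [Group B],
      (∀ w ∈ S, ∀ f : ℕ → A, FreeGroup.lift f w = 1) →
      (∀ w ∈ S, ∀ f : ℕ → B, FreeGroup.lift f w = 1) →
      ∀ (π : A →* B), Function.Surjective π →
        ∀ (φ : G →* B), ∃ ψ : G →* A, π.comp ψ = φ) →
    ¬ Group.FG G →
    ∃ (I : Type) (H : I → Type) (_ : ∀ i, Group (H i)) (ι : ∀ i, H i →* G),
      (∀ i,
        (∀ w ∈ S, ∀ f : ℕ → H i, FreeGroup.lift f w = 1) ∧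
        (∃ s : Set (H i), s.Countable ∧ Subgroup.closure s = ⊤) ∧
        (∀ (A B : Type) [Group A] [Group B],
          (∀ w ∈ S, ∀ f : ℕ → A, FreeGroup.lift f w = 1) →
          (∀ w ∈ S, ∀ f : ℕ → B, FreeGroup.lift f w = 1) →
          ∀ (π : A →* B), Function.Surjective π →
            ∀ (φ : H i →* B), ∃ ψ : H i →* A, π.comp ψ = φ)) ∧
      (∀ (K : Type) [Group K],
        (∀ w ∈ S, ∀ f : ℕ → K, FreeGroup.lift f w = 1) →
        ∀ g : ∀ i, H i →* K, ∃! θ : G →* K, ∀ i, θ.comp (ι i) = g i)) := by
  intro h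
  have hFG : ¬ Group.FG P := by
    intro hfg
    obtain ⟨s, hs, hfin⟩ := Group.fg_iff.mp hfg
    apply Psi_unc (Psi '' s) (hfin.countable.image _)
    intro g
    rw [← MonoidHom.map_closure, hs]
    exact ⟨g, trivial, rfl⟩
  obtain ⟨I, H, _, ι, hH, hU⟩ := h lawS P ((law_iff P).2 P_exp)
    (fun A B _ _ hA _ π hπ φ => P_proj A B ((law_iff A).1 hA) π hπ φ) hFG
  classical
  -- the images generate
  let N : Subgroup P := Subgroup.closure (⋃ i, Set.range (ι i))
  have hN : ∀ g, g ∈ N := by
    have hmem : ∀ i x, ι i x ∈ N := fun i x =>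
      Subgroup.subset_closure (Set.mem_iUnion.2 ⟨i, x, rfl⟩)
    obtain ⟨θ, hθ, -⟩ := hU N ((law_iff N).2 fun k => Subtype.ext (by simpa using P_exp k))
      (fun i => (ι i).codRestrict N (hmem i))
    obtain ⟨θ', -, huniq⟩ := hU P ((law_iff P).2 P_exp) ι
    have e1 := huniq (N.subtype.comp θ) (fun i => by
      rw [MonoidHom.comp_assoc, hθ i]; rfl)
    have e2 := huniq (MonoidHom.id P) (fun i => rfl)
    intro g
    have : N.subtype.comp θ g = g := by rw [e1, ← e2]; rfl
    rw [← this]
    exact (θ g).2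
  have hF : ∀ g, ∃ F : Finset I, g ∈ Subgroup.closure (⋃ i ∈ F, Set.range (ι i)) := by
    intro g
    induction hN g using Subgroup.closure_induction with
    | mem x hx =>
      obtain ⟨i, hi⟩ := Set.mem_iUnion.1 hx
      exact ⟨{i}, Subgroup.subset_closure (by simpa using hi)⟩
    | one => exact ⟨∅, one_mem _⟩
    | mul x y _ _ hx hy =>
      obtain ⟨F1, h1⟩ := hx
      obtain ⟨F2, h2⟩ := hy
      refine ⟨F1 ∪ F2, mul_mem (Subgroup.closure_mono ?_ h1) (Subgroup.closure_mono ?_ h2)⟩
      · exact Set.biUnion_subset_biUnion_left (by simp)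
      · exact Set.biUnion_subset_biUnion_left (by simp)
    | inv x _ hx =>
      obtain ⟨F1, h1⟩ := hx
      exact ⟨F1, inv_mem h1⟩
  obtain ⟨F, hF0⟩ := hF (PresentedGroup.of none)
  have hex : ∃ i, i ∉ F ∧ ∃ (j : ℝ) (x : H i), chi t2 t2sq (some j) (ι i x) ≠ 1 := by
    by_contra hcon
    push Not at hcon
    choose s hsc hst using fun i => (hH i).2.1
    apply Psi_unc (⋃ i ∈ F, Psi '' (ι i '' s i))
      (Set.Countable.biUnion F.countable_toSet fun i _ => ((hsc i).image _).image _)
    intro g
    induction hN g using Subgroup.closure_induction with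
    | mem x hx =>
      obtain ⟨i, y, rfl⟩ := Set.mem_iUnion.1 hx
      by_cases hi : i ∈ F
      · have hy : y ∈ Subgroup.closure (s i) := by rw [hst i]; trivial
        have : Psi (ι i y) ∈ Subgroup.closure (Psi '' (ι i '' s i)) := by
          rw [← MonoidHom.map_closure, ← MonoidHom.map_closure]
          exact ⟨_, ⟨y, hy, rfl⟩, rfl⟩
        exact Subgroup.closure_mono
          (Set.subset_biUnion_of_mem (u := fun i => Psi '' (ι i '' s i)) hi) this
      · have : Psi (ι i y) = 1 := by
          funext j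
          exact hcon i hi j y
        rw [this]; exact one_mem _
    | one => rw [map_one]; exact one_mem _
    | mul x y _ _ hx hy => rw [map_mul]; exact mul_mem hx hy
    | inv x _ hx => rw [map_inv]; exact inv_mem hx
  obtain ⟨i, hi, j, x, hx⟩ := hex
  obtain ⟨θ, hθ, -⟩ := hU S3 ((law_iff S3).2 S3_exp)
    (fun i' => if i' ∈ F then (chi t1 t1sq none).comp (ι i') else
      (chi t2 t2sq (some j)).comp (ι i'))
  have h0 : θ (PresentedGroup.of none) = t1 := by
    have : θ (PresentedGroup.of none) = chi t1 t1sq none (PresentedGroup.of none) := by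
      refine MonoidHom.eqOn_closure (f := θ) (g := chi t1 t1sq none) ?_ hF0
      intro y hy
      simp only [Set.mem_iUnion] at hy
      obtain ⟨i', hi', z, rfl⟩ := hy
      have := DFunLike.congr_fun (hθ i') z
      simpa [hi'] using this
    rw [this, chi_of]; simp
  have h1 : θ (ι i x) = t2 := by
    have := DFunLike.congr_fun (hθ i) x
    simp only [hi, if_false, MonoidHom.comp_apply] at this
    rw [this]
    exact (chi_range _ _ _ _).resolve_left hx
  have := congrArg θ (P_central (ι i x))
  rw [map_mul, map_mul, h0, h1] at this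
  exact absurd this (by decide)

end Pool.Agent.S02774
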