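import Pool.Statements.S02783
import Pool.Agent.Lib.helper24.SemiDiv2

set_option autoImplicit false
open Pool Pool.MP_b4fb0e_al

namespace Pool.Agent.S02783

open Pool.Agent.Lib.helper24.SemiDiv

/-- There is a semigroup S and fields F1, F2 such that both semigroup algebras F1[S] and F2[S] have no zero divisors, F1[S] embeds injectively into some division ring, but F2[S] embeds into no division ring. -/
theorem result :
    ∃ (S : Type) (_ : Semigroup S) (F₁ F₂ : Type) (_ : Field F₁) (_ : Field F₂),
      NoZeroDivisors (MonoidAlgebra F₁ S) ∧ NoZeroDivisors (MonoidAlgebra F₂ S) ∧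
      (∃ (D : Type) (_ : DivisionRing D) (f : MonoidAlgebra F₁ S →ₙ+* D),
          Function.Injective f) ∧
      ¬ ∃ (D : Type) (_ : DivisionRing D) (f : MonoidAlgebra F₂ S →ₙ+* D),
          Function.Injective f := by
  exact ⟨S, inferInstance, ℚ, ZMod 7, inferInstance, inferInstance, inferInstance, inferInstance,
    embeds_Q, not_embeds⟩

end Pool.Agent.S02783
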