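import Pool.Statements.S02852
import Pool.Agent.Lib.helper24.TwoTransB

set_option autoImplicit false
open Pool Pool.MP_b93de1_al

namespace Pool.Agent.S02852

/-- The negation of the preceding statement: Every infinite group acting faithfully and 2-transitively on a set, whose point stabilizers are locally solvable, has a finite-dimensional irreducible representation over some field on which some element acts nontrivially. -/
theorem result :
    ¬ (∀ (G X : Type) [Group G] [MulAction G X], FaithfulSMul G X → Infinite G →
      MulAction.IsMultiplyPretransitive G X 2 →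
      (∀ x : X, ∀ S : Finset G,
        ((↑S : Set G) ⊆ (MulAction.stabilizer G x : Set G)) →
          IsSolvable (Subgroup.closure (↑S : Set G))) →
      ∃ (K : Type) (_ : Field K) (V : Type) (_ : AddCommGroup V) (_ : Module K V),
        FiniteDimensional K V ∧ ∃ ρ : Representation K G V,
          Nontrivial V ∧
          (∀ W : Submodule K V, (∀ g : G, ∀ v ∈ W, ρ g v ∈ W) → W = ⊥ ∨ W = ⊤) ∧
          ∃ g : G, ρ g ≠ 1) := by
  intro H
  open Pool.Agent.TwoTrans in
  obtain ⟨K, _, θ, _, hz⟩ := exists_field zz zz_central mm mm_zz
  open Pool.Agent.TwoTrans in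
  obtain ⟨F, _, V, _, _, _, ρ, -, -, g, hg⟩ := H (SA θ ⊤) K inferInstance (infinite_SA θ)
    (two_trans θ) (fun _ S _ => locSol θ ML_locSol S)
  open Pool.Agent.TwoTrans in
  exact hg (normal_top θ zz hz (MonoidHom.ker ρ) (hN := MonoidHom.normal_ker ρ)
    (fun γ => ML_rep ((ρ : SA θ ⊤ →* Module.End F V).comp (inc θ)) γ) g)

end Pool.Agent.S02852
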