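import Pool.Statements.S02863

set_option autoImplicit false
open Pool Pool.MP_b9977e_al

namespace Pool.Agent.S02863

open Finset

theorem exists_fact (S : AddSubmonoid ℕ) {e : ℕ} (g : Fin e → ℕ)
    (hg : Set.range g = {x : ℕ | x ∈ S ∧ x ≠ 0 ∧ ∀ a ∈ S, ∀ b ∈ S, a + b = x → a = 0 ∨ b = 0})
    (n : ℕ) (hn : n ∈ S) : ∃ x : Fin e → ℕ, ∑ i, x i * g i = n := by
  induction n using Nat.strong_induction_on with
  | _ n ih =>
    by_cases h0 : n = 0
    · exact ⟨0, by simp [h0]⟩
    by_cases h1 : n ∈ Set.range g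
    · obtain ⟨i, rfl⟩ := h1
      refine ⟨Pi.single i 1, ?_⟩
      rw [Finset.sum_eq_single i] <;> simp +contextual
    · rw [hg] at h1
      simp only [Set.mem_ofPred_eq, not_and, not_forall] at h1
      obtain ⟨a, ha, b, hb, hab, hne⟩ := h1 hn h0
      push Not at hne
      obtain ⟨x, hx⟩ := ih a (by omega) ha
      obtain ⟨y, hy⟩ := ih b (by omega) hb
      refine ⟨x + y, ?_⟩
      simp only [Pi.add_apply, add_mul, sum_add_distrib, hx, hy, hab]

theorem zhai (S : AddSubmonoid ℕ) (F : ℕ) (hF : F ∉ S) (hF' : ∀ n : ℕ, F < n → n ∈ S)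
    {e : ℕ} (g : Fin e → ℕ) (hgS : ∀ i, g i ∈ S) (hg0 : ∀ i, 0 < g i)
    (hfact : ∀ n ∈ S, ∃ x : Fin e → ℕ, ∑ i, x i * g i = n) (i0 : Fin e) :
    2 * (F + g i0) ≤ e * (2 * Set.ncard {γ : ℕ | γ ∈ S ∧ γ < F} + (g i0 - 1)) := by
  classical
  set m := g i0 with hm
  have hm0 : 0 < m := hg0 i0
  set M := F + m with hM
  set Ap := (range (M + 1)).filter (fun w => w ∈ S ∧ ¬ (m ≤ w ∧ w - m ∈ S)) with hAp
  set L := (range F).filter (fun γ => γ ∈ S) with hL
  have hLc : Set.ncard {γ : ℕ | γ ∈ S ∧ γ < F} = L.card := by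
    rw [← Set.ncard_coe_finset]
    congr 1
    ext x
    simp [hL, and_comm]
  have hmem : ∀ w, w ∈ Ap ↔ w ≤ M ∧ w ∈ S ∧ ¬ (m ≤ w ∧ w - m ∈ S) := by
    intro w
    simp only [hAp, mem_filter, mem_range, Nat.lt_succ_iff]
  have hmul : ∀ (k : ℕ) (i : Fin e), k * g i ∈ S := fun k i => by
    simpa using S.nsmul_mem (hgS i) k
  have hinj : ∀ u ∈ Ap, ∀ v ∈ Ap, u % m = v % m → u = v := by
    have aux : ∀ u ∈ Ap, ∀ v ∈ Ap, u % m = v % m → ¬ u < v := by
      intro u hu v hv huv hlt
      obtain ⟨k, hk⟩ : m ∣ v - u := (Nat.modEq_iff_dvd' hlt.le).mp huv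
      rw [hmem] at hu hv
      obtain ⟨k, rfl⟩ : ∃ k', k = k' + 1 := ⟨k - 1, by
        rcases k with _ | k
        · omega
        · rfl⟩
      apply hv.2.2
      have h1 : v = u + k * m + m := by
        have : m * (k + 1) = k * m + m := by ring
        omega
      refine ⟨by omega, ?_⟩
      have : v - m = u + k * m := by omega
      rw [this]
      exact S.add_mem hu.2.1 (hmul k i0)
    intro u hu v hv huv
    have h1 := aux u hu v hv huv
    have h2 := aux v hv u hu huv.symm
    omega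
  have hcard : m ≤ Ap.card := by
    have : range m ⊆ Ap.image (fun w => w % m) := by
      intro r hr
      have hex : ∃ w, w ∈ S ∧ w % m = r := by
        refine ⟨r + m * (F + 1), hF' _ (by nlinarith), ?_⟩
        rw [Nat.add_mul_mod_self_left, Nat.mod_eq_of_lt (mem_range.mp hr)]
      have hs := Nat.find_spec hex
      have hno : ¬ (m ≤ Nat.find hex ∧ Nat.find hex - m ∈ S) := by
        rintro ⟨h1, h2⟩
        apply Nat.find_min hex (m := Nat.find hex - m) (by omega)
        refine ⟨h2, ?_⟩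
        rw [← Nat.mod_eq_sub_mod h1]; exact hs.2
      refine mem_image.mpr ⟨Nat.find hex, (hmem _).mpr ⟨?_, hs.1, hno⟩, hs.2⟩
      by_contra hh
      exact hno ⟨by omega, hF' _ (by omega)⟩
    calc m = (range m).card := (card_range m).symm
      _ ≤ _ := card_le_card this
      _ ≤ _ := card_image_le
  have hA : ∑ u ∈ Ap, (M - u) / m ≤ L.card := by
    have h1 : ∑ u ∈ Ap, (M - u) / m = (Ap.sigma (fun u => range ((M - u) / m))).card := by
      rw [card_sigma]; simp
    rw [h1]
    apply card_le_card_of_injOn (fun p => p.1 + p.2 * m)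
    · rintro ⟨u, k⟩ hp
      simp only [coe_sigma, Set.mem_sigma_iff, mem_coe, mem_range] at hp
      obtain ⟨hu, hk⟩ := hp
      rw [hmem] at hu
      have hS : u + k * m ∈ S := S.add_mem hu.2.1 (hmul k i0)
      have h2 : (k + 1) * m ≤ M - u := (Nat.le_div_iff_mul_le hm0).mp hk
      have h3 : u + k * m ≤ F := by
        have : (k + 1) * m = k * m + m := by ring
        omega
      have h4 : u + k * m ≠ F := fun h => hF (h ▸ hS)
      simp only [hL, coe_filter, mem_range, Set.mem_ofPred_eq]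
      exact ⟨by omega, hS⟩
    · rintro ⟨u, k⟩ hp ⟨v, l⟩ hq h
      simp only [coe_sigma, Set.mem_sigma_iff, mem_coe, mem_range] at hp hq
      simp only at h
      have huv : u = v := by
        apply hinj u hp.1 v hq.1
        have := congrArg (· % m) h
        simpa using this
      subst huv
      have : k = l := Nat.eq_of_mul_eq_mul_right hm0 (by omega)
      subst this
      rfl
  have hB : (∑ u ∈ Ap, (M - u) % m) * 2 ≤ m * (m - 1) := by
    rw [← Finset.sum_range_id_mul_two]
    apply Nat.mul_le_mul_right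
    rw [← Finset.sum_image (f := fun r => r) (g := fun u => (M - u) % m)]
    · apply sum_le_sum_of_subset
      intro r hr
      obtain ⟨u, _, rfl⟩ := mem_image.mp hr
      exact mem_range.mpr (Nat.mod_lt _ hm0)
    · intro u hu v hv h
      apply hinj u hu v hv
      have hu' := ((hmem u).mp hu).1
      have hv' := ((hmem v).mp hv).1
      have h1 : (M - u) ≡ (M - v) [MOD m] := h
      have h2 : (M - u) + u ≡ (M - v) + v [MOD m] := by
        rw [Nat.sub_add_cancel hu', Nat.sub_add_cancel hv']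
      exact Nat.ModEq.add_left_cancel h1 h2
  have hC : (∑ u ∈ Ap, (M - u)) * 2 ≤ m * (2 * L.card + (m - 1)) := by
    have h1 : ∑ u ∈ Ap, (M - u) = m * ∑ u ∈ Ap, (M - u) / m + ∑ u ∈ Ap, (M - u) % m := by
      rw [mul_sum, ← sum_add_distrib]
      exact sum_congr rfl (fun u _ => (Nat.div_add_mod _ _).symm)
    have h2 := Nat.mul_le_mul_left m hA
    rw [h1]
    nlinarith
  choose! x hx using hfact
  have hsub : ∀ w ∈ S, ∀ i, ∀ t ≤ x w i, t * g i ≤ w ∧ w - t * g i ∈ S := by
    intro w hw i t ht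
    have h1 := hx w hw
    rw [← Finset.add_sum_erase _ _ (mem_univ i)] at h1
    have h2 : ∑ j ∈ univ.erase i, x w j * g j ∈ S := S.sum_mem (fun j _ => hmul _ j)
    have h3 : x w i * g i = t * g i + (x w i - t) * g i := by
      rw [← add_mul]; congr 1; omega
    refine ⟨by omega, ?_⟩
    have : w - t * g i = (x w i - t) * g i + ∑ j ∈ univ.erase i, x w j * g j := by omega
    rw [this]
    exact S.add_mem (hmul _ i) h2
  have hD : ∀ i, ∑ w ∈ Ap, x w i * g i ≤ ∑ u ∈ Ap, (M - u) := by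
    intro i
    have h1 : ∑ w ∈ Ap, x w i ≤ ∑ u ∈ Ap, (M - u) / g i := by
      have e1 : ∑ w ∈ Ap, x w i = (Ap.sigma (fun w => range (x w i))).card := by
        rw [card_sigma]; simp
      have e2 : ∑ u ∈ Ap, (M - u) / g i = (Ap.sigma (fun u => range ((M - u) / g i))).card := by
        rw [card_sigma]; simp
      rw [e1, e2]
      apply card_le_card_of_injOn (fun p => ⟨p.1 - (p.2 + 1) * g i, p.2⟩)
      · rintro ⟨w, t⟩ hp
        simp only [coe_sigma, Set.mem_sigma_iff, mem_coe, mem_range] at hp ⊢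
        obtain ⟨hw, ht⟩ := hp
        rw [hmem] at hw
        obtain ⟨h2, h3⟩ := hsub w hw.2.1 i (t + 1) ht
        refine ⟨(hmem _).mpr ⟨by omega, h3, ?_⟩, ?_⟩
        · rintro ⟨h4, h5⟩
          apply hw.2.2
          refine ⟨by omega, ?_⟩
          have : w - m = (w - (t + 1) * g i - m) + (t + 1) * g i := by omega
          rw [this]
          exact S.add_mem h5 (hmul _ i)
        · show t + 1 ≤ _
          rw [Nat.le_div_iff_mul_le (hg0 i)]
          omega
      · rintro ⟨w, t⟩ hp ⟨v, s⟩ hq h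
        simp only [coe_sigma, Set.mem_sigma_iff, mem_coe, mem_range] at hp hq
        simp only [Sigma.mk.injEq, heq_eq_eq] at h
        obtain ⟨h1, rfl⟩ := h
        have h2 := (hsub w ((hmem w).mp hp.1).2.1 i (t + 1) hp.2).1
        have h3 := (hsub v ((hmem v).mp hq.1).2.1 i (t + 1) hq.2).1
        have : w = v := by omega
        subst this
        rfl
    rw [← sum_mul]
    refine (Nat.mul_le_mul_right _ h1).trans ?_
    rw [sum_mul]
    exact sum_le_sum (fun u _ => Nat.div_mul_le_self _ _)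
  have hx0 : ∀ w ∈ Ap, x w i0 = 0 := by
    intro w hw
    rw [hmem] at hw
    by_contra hh
    have := hsub w hw.2.1 i0 1 (by omega)
    rw [one_mul] at this
    exact hw.2.2 this
  have hE : ∑ w ∈ Ap, w ≤ (e - 1) * ∑ u ∈ Ap, (M - u) := by
    have h1 : ∑ w ∈ Ap, w = ∑ w ∈ Ap, ∑ j ∈ univ.erase i0, x w j * g j := by
      apply sum_congr rfl
      intro w hw
      have h1 := hx w ((hmem w).mp hw).2.1
      rw [← Finset.add_sum_erase _ _ (mem_univ i0), hx0 w hw] at h1
      omega
    rw [h1, sum_comm]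
    refine (sum_le_sum (fun j _ => hD j)).trans ?_
    simp
  have hG : m * M ≤ ∑ u ∈ Ap, (M - u) + ∑ w ∈ Ap, w := by
    rw [← sum_add_distrib]
    have : ∑ u ∈ Ap, (M - u + u) = ∑ u ∈ Ap, M :=
      sum_congr rfl (fun u hu => Nat.sub_add_cancel ((hmem u).mp hu).1)
    rw [this, sum_const, smul_eq_mul]
    exact Nat.mul_le_mul_right _ hcard
  obtain ⟨e', rfl⟩ : ∃ e', e = e' + 1 := ⟨e - 1, by have := i0.pos; omega⟩
  rw [hLc]
  simp only [Nat.add_sub_cancel] at hE
  apply Nat.le_of_mul_le_mul_left _ hm0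
  have h5 := Nat.mul_le_mul_left (e' + 1) hC
  nlinarith

open MvPolynomial in
theorem mem_prod (S : AddSubmonoid ℕ) (F : ℕ) (hF' : ∀ n : ℕ, F < n → n ∈ S)
    {e : ℕ} (g : Fin e → ℕ)
    (hfact : ∀ n ∈ S, ∃ x : Fin e → ℕ, ∑ i, x i * g i = n) (i0 : Fin e)
    (f : MvPolynomial (Fin e) ℚ) (d : ℕ) (hd : ∀ j, F + g i0 + g j < d)
    (hf : f ∈ RingHom.ker (MvPolynomial.aeval (fun i : Fin e => (Polynomial.X : Polynomial ℚ) ^ g i)))
    (hh : MvPolynomial.IsWeightedHomogeneous (fun i : Fin e => g i) f d) :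
    f ∈ Ideal.span (Set.range (MvPolynomial.X : Fin e → MvPolynomial (Fin e) ℚ)) *
      RingHom.ker (MvPolynomial.aeval (fun i : Fin e => (Polynomial.X : Polynomial ℚ) ^ g i)) := by
  classical
  set φ := MvPolynomial.aeval (R := ℚ) (fun i : Fin e => (Polynomial.X : Polynomial ℚ) ^ g i)
    with hφ
  set J := Ideal.span (Set.range (MvPolynomial.X : Fin e → MvPolynomial (Fin e) ℚ)) *
    RingHom.ker φ with hJ
  have hmono : ∀ n ∈ S, ∃ p : MvPolynomial (Fin e) ℚ, φ p = Polynomial.X ^ n := by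
    intro n hn
    obtain ⟨x, hx⟩ := hfact n hn
    refine ⟨∏ i, X i ^ x i, ?_⟩
    rw [← hx, ← Finset.prod_pow_eq_pow_sum]
    simp only [hφ, map_prod, map_pow, aeval_X, ← pow_mul, mul_comm]
  have hφX : ∀ j, φ (X j) = Polynomial.X ^ g j := fun j => by simp [hφ]
  have hφm : ∀ a : Fin e →₀ ℕ, φ (monomial a 1) =
      Polynomial.X ^ (Finsupp.weight (fun i => g i) a) := by
    intro a
    rw [hφ, aeval_monomial, Finsupp.weight_apply, Finsupp.prod, Finsupp.sum,
      ← Finset.prod_pow_eq_pow_sum]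
    simp only [map_one, one_mul, ← pow_mul, smul_eq_mul, mul_comm]
  have hJm : ∀ j p q, φ p = φ q → X j * p - X j * q ∈ J := by
    intro j p q hpq
    rw [← mul_sub]
    apply Ideal.mul_mem_mul (Ideal.subset_span (Set.mem_range_self j))
    rw [RingHom.mem_ker, map_sub, hpq, sub_self]
  obtain ⟨p0, hp0⟩ := hmono (d - g i0) (hF' _ (by have := hd i0; omega))
  have hall : ∀ a : Fin e →₀ ℕ, Finsupp.weight (fun i => g i) a = d →
      monomial a 1 - X i0 * p0 ∈ J := by
    intro a ha
    have ha0 : a ≠ 0 := by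
      rintro rfl
      have := hd i0
      simp at ha
      omega
    obtain ⟨j, hj⟩ := Finsupp.ne_iff.mp ha0
    have hj' : a j ≠ 0 := by simpa using hj
    set a' := a - Finsupp.single j 1 with ha'
    have haa : a = Finsupp.single j 1 + a' := by
      ext k
      simp only [ha', Finsupp.coe_add, Pi.add_apply, Finsupp.coe_tsub, Pi.sub_apply,
        Finsupp.single_apply]
      split_ifs with h
      · subst h; omega
      · omega
    have hw : Finsupp.weight (fun i => g i) a' + g j = d := by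
      rw [← ha]
      conv_rhs => rw [haa, map_add, Finsupp.weight_single]
      simp [add_comm]
    have hm : (monomial a 1 : MvPolynomial (Fin e) ℚ) = X j * monomial a' 1 := by
      conv_lhs => rw [haa]
      rw [X, monomial_mul, one_mul]
    obtain ⟨p, hp⟩ := hmono (d - g i0 - g j) (hF' _ (by have := hd j; omega))
    have h1 := hJm j (monomial a' 1) (X i0 * p) (by
      rw [hφm, map_mul, hφX, hp, ← pow_add]
      congr 1
      have := hd j; omega)
    have h2 := hJm i0 (X j * p) p0 (by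
      rw [map_mul, hφX, hp, hp0, ← pow_add]
      congr 1
      have := hd j; omega)
    have := J.add_mem h1 h2
    rw [hm]
    convert this using 1
    ring
  have hsum : f = ∑ a ∈ f.support, C (coeff a f) * monomial a 1 := by
    conv_lhs => rw [f.as_sum]
    apply Finset.sum_congr rfl
    intro a _
    rw [C_mul_monomial, mul_one]
  have hc : ∑ a ∈ f.support, coeff a f = 0 := by
    have h1 : φ f = 0 := hf
    have h2 : φ f = Polynomial.C (∑ a ∈ f.support, coeff a f) * Polynomial.X ^ d := by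
      conv_lhs => rw [hsum]
      rw [map_sum, map_sum, Finset.sum_mul]
      apply Finset.sum_congr rfl
      intro a ha
      rw [map_mul, hφm, hh (mem_support_iff.mp ha)]
      simp [hφ]
    rw [h2] at h1
    rcases mul_eq_zero.mp h1 with h3 | h3
    · exact Polynomial.C_eq_zero.mp h3
    · exact absurd h3 (pow_ne_zero _ Polynomial.X_ne_zero)
  have h3 : f = ∑ a ∈ f.support, C (coeff a f) * (monomial a 1 - X i0 * p0) := by
    simp only [mul_sub, Finset.sum_sub_distrib]
    rw [← hsum, ← Finset.sum_mul, ← map_sum, hc]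
    simp
  rw [h3]
  apply J.sum_mem
  intro a ha
  exact J.mul_mem_left _ (hall a (hh (mem_support_iff.mp ha)))

theorem result :
    ∀ (S : AddSubmonoid ℕ), {n : ℕ | n ∉ S}.Finite →
    ∀ (F : ℕ), F ∉ S → (∀ n : ℕ, F < n → n ∈ S) →
    ∀ (e : ℕ) (g : Fin e → ℕ), Function.Injective g →
      Set.range g = {x : ℕ | x ∈ S ∧ x ≠ 0 ∧ ∀ a ∈ S, ∀ b ∈ S, a + b = x → a = 0 ∨ b = 0} →
    ∀ (f : MvPolynomial (Fin e) ℚ) (d : ℕ),
      f ∈ RingHom.ker (MvPolynomial.aeval (fun i : Fin e => (Polynomial.X : Polynomial ℚ) ^ g i)) →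
      MvPolynomial.IsWeightedHomogeneous (fun i : Fin e => g i) f d →
      f ∉ Ideal.span (Set.range (MvPolynomial.X : Fin e → MvPolynomial (Fin e) ℚ)) *
            RingHom.ker (MvPolynomial.aeval (fun i : Fin e => (Polynomial.X : Polynomial ℚ) ^ g i)) →
      d ≤ e * (Set.ncard {γ : ℕ | γ ∈ S ∧ γ < F} - 1) + ∑ i, g i + 1 := by
  intro S _ F hF hF' e g hinj hg f d hf hh hnot
  have hgi : ∀ i, g i ∈ S ∧ g i ≠ 0 := by
    intro i
    have : g i ∈ Set.range g := ⟨i, rfl⟩
    rw [hg] at this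
    exact ⟨this.1, this.2.1⟩
  have hfact := exists_fact S g hg
  have hne : (univ : Finset (Fin e)).Nonempty := by
    by_contra h0
    obtain ⟨x, hx⟩ := hfact (F + 1) (hF' _ (by omega))
    rw [not_nonempty_iff_eq_empty.mp h0] at hx
    simp at hx
  obtain ⟨i0, -, hi0⟩ := exists_min_image univ g hne
  obtain ⟨j0, -, hj0⟩ := exists_max_image univ g hne
  have hd : d ≤ F + g i0 + g j0 := by
    by_contra hlt
    apply hnot
    apply mem_prod S F hF' g hfact i0 f d _ hf hh
    intro j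
    have := hj0 j (mem_univ _)
    omega
  have hm2 : 2 ≤ g i0 := by
    by_contra h
    have h1 : g i0 = 1 := by have := (hgi i0).2; omega
    apply hF
    simpa [h1] using S.nsmul_mem (hgi i0).1 F
  have hij : i0 ≠ j0 := by
    intro h
    have hall : ∀ i, g i = g i0 := fun i =>
      le_antisymm (h ▸ hj0 i (mem_univ _)) (hi0 i (mem_univ _))
    obtain ⟨x, hx⟩ := hfact ((F + 1) * g i0 + 1) (hF' _ (by nlinarith))
    simp only [hall, ← sum_mul] at hx
    have h1 : g i0 ∣ (F + 1) * g i0 + 1 := hx ▸ Dvd.intro_left _ rfl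
    have h2 : g i0 ∣ 1 := (Nat.dvd_add_right (Dvd.intro_left _ rfl)).mp h1
    have := Nat.le_of_dvd one_pos h2
    omega
  have hsum : g i0 + g j0 + (e - 2) * (g i0 + 1) ≤ ∑ i, g i := by
    rw [← Finset.add_sum_erase _ _ (mem_univ i0),
      ← Finset.add_sum_erase _ _ (mem_erase.mpr ⟨hij.symm, mem_univ j0⟩)]
    have h1 : ∑ _i ∈ (univ.erase i0).erase j0, (g i0 + 1) ≤
        ∑ i ∈ (univ.erase i0).erase j0, g i := by
      apply sum_le_sum
      intro i hi
      have h2 : i ≠ i0 := (mem_erase.mp (mem_erase.mp hi).2).1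
      have h3 : g i ≠ g i0 := fun h => h2 (hinj h)
      have := hi0 i (mem_univ _)
      omega
    rw [sum_const, card_erase_of_mem (mem_erase.mpr ⟨hij.symm, mem_univ j0⟩),
      card_erase_of_mem (mem_univ _), card_univ, Fintype.card_fin, smul_eq_mul] at h1
    have : e - 1 - 1 = e - 2 := by omega
    rw [this] at h1
    omega
  have he2 : 2 ≤ e := by
    have : Nontrivial (Fin e) := ⟨i0, j0, hij⟩
    have := Fintype.one_lt_card (α := Fin e)
    rw [Fintype.card_fin] at this
    omega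
  have hz := zhai S F hF hF' g (fun i => (hgi i).1) (fun i => Nat.pos_of_ne_zero (hgi i).2)
    hfact i0
  have hη : 1 ≤ Set.ncard {γ : ℕ | γ ∈ S ∧ γ < F} := by
    apply (Set.ncard_pos _).mpr
    · refine ⟨0, S.zero_mem, Nat.pos_of_ne_zero ?_⟩
      rintro rfl
      exact hF S.zero_mem
    · exact (Set.finite_lt_nat F).subset (fun x hx => hx.2)
  obtain ⟨η, hη'⟩ : ∃ η, Set.ncard {γ : ℕ | γ ∈ S ∧ γ < F} = η + 1 := ⟨_, (Nat.sub_add_cancel hη).symm⟩
  obtain ⟨e', rfl⟩ : ∃ e', e = e' + 2 := ⟨e - 2, by omega⟩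
  obtain ⟨m, hm⟩ : ∃ m, g i0 = m + 1 := ⟨g i0 - 1, by omega⟩
  rw [hη'] at hz ⊢
  rw [hm] at hz hsum hd
  simp only [Nat.add_sub_cancel] at hz hsum ⊢
  nlinarith [Nat.zero_le (e' * m)]

end Pool.Agent.S02863
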