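import Pool.Statements.S02882
import Pool.Agent.Lib.helper3.Pal
-- import your own Pool.Agent.* helpers here

set_option autoImplicit false
open Pool Pool.MP_bb0bfc_al

namespace Pool.Agent.S02882

/-- The negation of the preceding statement: For every finitely generated group G: some finite generating set gives a uniform bound on the number of palindromic words needed to write any element iff there is a uniform bound on the number of commutators needed to write any element of the derived subgroup. -/
theorem result :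
    ¬ (∀ (G : Type) [Group G] [Group.FG G],
      (∃ S : Finset G, Subgroup.closure (S : Set G) = ⊤ ∧
        ∃ n : ℕ, ∀ g : G, ∃ L : List (List G), L.length ≤ n ∧
          (∀ w ∈ L, w.reverse = w ∧ ∀ x ∈ w, x ∈ S ∨ x⁻¹ ∈ S) ∧
          (L.map List.prod).prod = g) ↔
      (∃ n : ℕ, ∀ g ∈ commutator G, ∃ l : List G, l.length ≤ n ∧
          (∀ c ∈ l, c ∈ commutatorSet G) ∧ l.prod = g)) := by
  intro h
  obtain ⟨φ, -, h2⟩ := Lib.H3Pal.main
  obtain ⟨N, hN⟩ := (h (FreeGroup Bool)).1 ⟨{.of true, .of false, .of true * .of false}, by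
    refine top_unique (Lib.H3Pal.gen.ge.trans (Subgroup.closure_mono ?_))
    rintro _ (rfl | rfl) <;> simp, 3, fun g => by
    simpa using Lib.H3Pal.fin_width _ _ Lib.H3Pal.gen g⟩
  obtain ⟨g, h3, hg⟩ := h2 N
  obtain ⟨l, a, b, c⟩ := hN g h3
  refine hg l a (fun p hp => ?_) c
  obtain ⟨x, y, rfl⟩ := b p hp
  have := Lib.H3Pal.q_mul (φ x * φ y * (φ x)⁻¹) (φ y)⁻¹
  rw [Lib.H3Pal.q_conj, Lib.H3Pal.q_inv] at this
  simpa [commutatorElement_def] using this

end Pool.Agent.S02882
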