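import Pool.Statements.S02883

set_option autoImplicit false
open scoped Pointwise
open Pool Pool.MP_bb8083_al

namespace Pool.Agent.S02883

open Filter

section
variable {G : Type} [Group G]

lemma exists_filter (G : Type) [Group G] : ∃ Φ : Filter G, Φ.NeBot ∧ (∀ g, Tendsto (g * ·) Φ Φ) ∧
    ∀ E : Set G, (∃ᶠ x in Φ, x ∈ E) → ∃ F : Finset G, ∀ᶠ x in Φ, ∃ f ∈ F, f⁻¹ * x ∈ E := by
  obtain ⟨Φ, -, hΦ⟩ := zorn_le_nonempty₀ (α := (Filter G)ᵒᵈ)
    {Φ : Filter G | Φ.NeBot ∧ ∀ g, Tendsto (g * ·) Φ Φ} (by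
      intro c hc hch y hy
      refine ⟨sInf (α := Filter G) c, ⟨?_, fun g => ?_⟩, fun z hz => sInf_le (α := Filter G) hz⟩
      · refine sInf_neBot_of_directed' ⟨y, hy⟩ hch.directedOn fun h => ?_
        exact (hc h).1.ne rfl
      · exact le_sInf fun z hz => ((hc hz).2 g).mono_left (sInf_le (α := Filter G) hz))
    (⊤ : Filter G) ⟨inferInstance, fun _ => tendsto_top⟩
  refine ⟨Φ, hΦ.1.1, hΦ.1.2, fun E hE => ?_⟩
  let Ψ : Filter G := OrderDual.ofDual Φ ⊓ ⨅ g : G, Filter.principal {x | g⁻¹ * x ∉ E}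
  have hΨ : ¬ Ψ.NeBot := by
    intro hne
    have h1 : OrderDual.ofDual Φ ≤ Ψ := hΦ.2 (y := OrderDual.toDual Ψ) ⟨hne, fun g => by
      refine tendsto_inf.2 ⟨(hΦ.1.2 g).mono_left inf_le_left, tendsto_iInf.2 fun h => ?_⟩
      rw [tendsto_principal]
      have : ∀ᶠ x in Ψ, x ∈ {x | (g⁻¹ * h)⁻¹ * x ∉ E} :=
        le_principal_iff.1 (inf_le_right.trans (iInf_le _ _))
      filter_upwards [this] with x hx
      simpa [mul_assoc] using hx⟩ (inf_le_left (α := Filter G))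
    have h2 := le_principal_iff.1 (h1.trans (inf_le_right.trans (iInf_le _ 1)))
    exact hE (by filter_upwards [h2] with x hx; simpa using hx)
  rw [not_neBot, ← empty_mem_iff_bot, mem_inf_iff] at hΨ
  obtain ⟨s, hs, t, ht, hst⟩ := hΨ
  rw [mem_iInf_finite] at ht
  obtain ⟨F, hF⟩ := ht
  rw [iInf_principal_finset, mem_principal] at hF
  refine ⟨F, ?_⟩
  filter_upwards [hs] with x hx
  by_contra hc
  push Not at hc
  have : x ∈ s ∩ t := ⟨hx, hF (by simpa using hc)⟩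
  rw [← hst] at this
  exact this

def Sep (n : ℕ) (A : Set G) : Prop :=
  ∃ y : Fin (n + 1) → G, ∀ j k, j ≠ k → (y j)⁻¹ * y k ∉ (A * A⁻¹) ^ 4

lemma small {Φ : Filter G} (hΦ : ∀ g, Tendsto (g * ·) Φ Φ) {n : ℕ} {A E : Set G} (hA : A.Nonempty)
    (hE : ∀ e ∈ E, ∀ e' ∈ E, e * e'⁻¹ ∈ A * A⁻¹) (hS : Sep n A) {F : Finset G}
    (hF : ∀ᶠ x in Φ, ∃ f ∈ F, f⁻¹ * x ∈ E) :
    ∃ F' : Finset G, (n + 1) * F'.card ≤ F.card ∧
      ∀ᶠ x in Φ, (∃ e ∈ E, e * x⁻¹ ∈ A) → ∃ f ∈ F', f⁻¹ * x ∈ E := by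
  classical
  obtain ⟨a0, ha0⟩ := hA
  obtain ⟨y, hy⟩ := hS
  let T : Fin (n + 1) → Finset G := fun j =>
    F.filter fun f => ∃ a ∈ A, ∃ e ∈ E, f⁻¹ * (y j * a0 * (a⁻¹ * e)) ∈ E
  have hd : ∀ j k, j ≠ k → Disjoint (T j) (T k) := by
    intro j k hjk
    rw [Finset.disjoint_left]
    intro f h1 h2
    obtain ⟨-, a, ha, e, he, h1⟩ := Finset.mem_filter.1 h1
    obtain ⟨-, a', ha', e', he', h2⟩ := Finset.mem_filter.1 h2
    apply hy j k hjk
    have m1 : a0 * a⁻¹ ∈ A * A⁻¹ := Set.mul_mem_mul ha0 (by simpa using ha)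
    have m2 : a' * a0⁻¹ ∈ A * A⁻¹ := Set.mul_mem_mul ha' (by simpa using ha0)
    have := Set.mul_mem_mul (Set.mul_mem_mul (Set.mul_mem_mul m1 (hE _ he _ h1)) (hE _ h2 _ he')) m2
    convert this using 1
    · simp only [pow_succ, pow_zero, one_mul]
    · group
  have hsum : ∑ j, (T j).card ≤ F.card := by
    rw [← Finset.card_biUnion fun j _ k _ h => hd j k h]
    exact Finset.card_le_card (Finset.biUnion_subset.2 fun j _ => Finset.filter_subset _ _)
  obtain ⟨j, -, hj⟩ := Finset.exists_min_image Finset.univ (fun j => (T j).card) Finset.univ_nonempty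
  refine ⟨(T j).image fun f => (y j * a0)⁻¹ * f, ?_, ?_⟩
  · refine (Nat.mul_le_mul_left _ Finset.card_image_le).trans (le_trans ?_ hsum)
    simpa using Finset.card_nsmul_le_sum Finset.univ (fun j => (T j).card) _ hj
  · filter_upwards [(hΦ (y j * a0)).eventually hF] with x hx
    rintro ⟨e, he, ha⟩
    obtain ⟨f, hf, hfx⟩ := hx
    refine ⟨_, Finset.mem_image_of_mem _ (Finset.mem_filter.2 ⟨hf, _, ha, e, he, ?_⟩), ?_⟩
    · simpa using hfx
    · simpa [mul_assoc] using hfx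

lemma main {n : ℕ} (A : Fin n → Set G) (hc : ⋃ i, A i = Set.univ)
    (hS : ∀ i, (A i).Nonempty → Sep n (A i)) : False := by
  classical
  obtain ⟨Φ, hne, hΦ, hcov⟩ := exists_filter G
  have : ∀ k : ℕ, ∃ (J : Finset (Fin n)) (E : Set G), J.card = k ∧ (∃ᶠ x in Φ, x ∈ E) ∧
      ∀ i ∈ J, ∀ e ∈ E, ∀ e' ∈ E, e * e'⁻¹ ∈ A i * (A i)⁻¹ := by
    intro k
    induction k with
    | zero => exact ⟨∅, Set.univ, rfl, Frequently.of_forall fun _ => trivial, by simp⟩
    | succ k ih =>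
      obtain ⟨J, E, hJ, hE, hJE⟩ := ih
      have hex : ∃ c, ∃ F : Finset G, F.card = c ∧ ∀ᶠ x in Φ, ∃ f ∈ F, f⁻¹ * x ∈ E := by
        obtain ⟨F, hF⟩ := hcov E hE
        exact ⟨_, F, rfl, hF⟩
      obtain ⟨F, hFc, hF⟩ := Nat.find_spec hex
      have hF0 : 0 < F.card := by
        obtain ⟨x, f, hf, -⟩ := hF.exists
        exact Finset.card_pos.2 ⟨f, hf⟩
      obtain ⟨e0, he0⟩ := hE.exists
      have h1 : ∀ i ∈ J, ∃ F' : Finset G, (n + 1) * F'.card ≤ F.card ∧
          ∀ᶠ x in Φ, (∃ e ∈ E, e * x⁻¹ ∈ A i) → ∃ f ∈ F', f⁻¹ * x ∈ E := by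
        intro i hi
        have hA : (A i).Nonempty := by
          obtain ⟨a, ha, -⟩ := hJE i hi e0 he0 e0 he0
          exact ⟨a, ha⟩
        exact small hΦ hA (hJE i hi) (hS i hA) hF
      choose! F' hF1 hF2 using h1
      have h2 : ∃ x, ∀ i ∈ J, ∀ e ∈ E, e * x⁻¹ ∉ A i := by
        by_contra hcon
        push Not at hcon
        refine Nat.find_min hex (m := (J.biUnion F').card) ?_ ⟨_, rfl, ?_⟩
        · rw [← hFc]
          have a1 : (J.biUnion F').card ≤ ∑ i ∈ J, (F' i).card := Finset.card_biUnion_le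
          have a2 : (n + 1) * ∑ i ∈ J, (F' i).card ≤ J.card * F.card := by
            rw [Finset.mul_sum]
            simpa using Finset.sum_le_card_nsmul J _ _ hF1
          have a3 : J.card ≤ n := by simpa using J.card_le_univ
          by_contra a4
          have a5 : F.card ≤ ∑ i ∈ J, (F' i).card := by omega
          nlinarith
        · filter_upwards [(eventually_all_finset J).2 hF2] with x hx
          obtain ⟨i, hi, e, he, ha⟩ := hcon x
          obtain ⟨f, hf, h⟩ := hx i hi ⟨e, he, ha⟩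
          exact ⟨f, Finset.mem_biUnion.2 ⟨i, hi, hf⟩, h⟩
      obtain ⟨x, hx⟩ := h2
      have h3 : ∃ j, ∃ᶠ e in Φ, e ∈ E ∧ e * x⁻¹ ∈ A j := by
        by_contra hcon
        push Not at hcon
        refine hE ?_
        filter_upwards [eventually_all.2 hcon] with e he h
        obtain ⟨j, hj⟩ := Set.mem_iUnion.1 (hc ▸ Set.mem_univ (e * x⁻¹))
        exact he j h hj
      obtain ⟨j, hj⟩ := h3
      have hjJ : j ∉ J := fun h => by
        obtain ⟨e, he, h'⟩ := hj.exists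
        exact hx j h e he h'
      refine ⟨insert j J, {e | e ∈ E ∧ e * x⁻¹ ∈ A j}, by rw [Finset.card_insert_of_notMem hjJ, hJ],
        hj, fun i hi e he e' he' => ?_⟩
      rcases Finset.mem_insert.1 hi with rfl | hi
      · have := Set.mul_mem_mul he.2 (Set.inv_mem_inv.2 he'.2)
        simpa [mul_assoc] using this
      · exact hJE i hi e he.1 e' he'.1
  obtain ⟨J, -, hJ, -⟩ := this (n + 1)
  have : J.card ≤ n := by simpa using J.card_le_univ
  omega

lemma idx {H : Subgroup G} {n : ℕ} (h : ¬ (H.index ≠ 0 ∧ H.index ≤ n)) :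
    ∃ y : Fin (n + 1) → G, ∀ j k, j ≠ k → (y j)⁻¹ * y k ∉ H := by
  have : Nonempty (Fin (n + 1) ↪ G ⧸ H) := by
    rcases finite_or_infinite (G ⧸ H) with hf | hf
    · have := Fintype.ofFinite (G ⧸ H)
      refine Function.Embedding.nonempty_of_card_le ?_
      have h0 : H.index ≠ 0 := Nat.card_pos.ne'
      have h1 : H.index = Fintype.card (G ⧸ H) := Nat.card_eq_fintype_card
      simp only [Fintype.card_fin]
      omega
    · exact ⟨Fin.valEmbedding.trans (Infinite.natEmbedding _)⟩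
  obtain ⟨f⟩ := this
  refine ⟨fun j => (f j).out, fun j k hjk hm => hjk (f.injective ?_)⟩
  rw [← QuotientGroup.out_eq' (f j), ← QuotientGroup.out_eq' (f k)]
  exact QuotientGroup.eq.2 hm

lemma stab {U : Set G} (h1 : (1 : G) ∈ U) {m : ℕ} (h : U ^ (m + 1) ⊆ U ^ m) (l : ℕ) :
    U ^ l ⊆ U ^ m := by
  induction l with
  | zero => exact Set.pow_subset_pow_right h1 (Nat.zero_le _)
  | succ l ih => rw [pow_succ]; exact (Set.mul_subset_mul_right ih).trans (by rwa [← pow_succ])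

lemma sub {U : Set G} (h1 : (1 : G) ∈ U) (hi : U⁻¹ = U) {m : ℕ} (h : U ^ (m + 1) ⊆ U ^ m) :
    ∃ H : Subgroup G, U ^ m = H :=
  ⟨{ carrier := U ^ m
     mul_mem' := fun ha hb => stab h1 h (m + m) (by rw [pow_add]; exact Set.mul_mem_mul ha hb)
     one_mem' := Set.one_mem_pow h1
     inv_mem' := fun {a} ha => by rw [← hi, inv_pow]; exact Set.inv_mem_inv.2 ha }, rfl⟩

lemma one_mem {A : Set G} (h : A.Nonempty) : (1 : G) ∈ A * A⁻¹ := by
  obtain ⟨a, ha⟩ := h
  simpa using Set.mul_mem_mul ha (Set.inv_mem_inv.2 ha)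

lemma sep_of {A : Set G} (hA : A.Nonempty) {n K : ℕ} (hK : 4 ≤ K) (hn : 5 * n ≤ K + 1)
    (h : ¬ ∃ H : Subgroup G, (A * A⁻¹) ^ K = H ∧ H.index ≠ 0 ∧ H.index ≤ n) : Sep n A := by
  have h1 := one_mem hA
  have hi : (A * A⁻¹)⁻¹ = A * A⁻¹ := by simp
  unfold Sep
  generalize A * A⁻¹ = U at *
  by_cases hs : U ^ (K + 1) ⊆ U ^ K
  · obtain ⟨H, hH⟩ := sub h1 hi hs
    obtain ⟨y, hy⟩ := idx (H := H) (n := n) fun h' => h ⟨H, hH, h'⟩
    exact ⟨y, fun j k hjk hm => hy j k hjk (by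
      have := Set.pow_subset_pow_right h1 hK hm
      rwa [hH] at this)⟩
  · have h2 : ∀ k : Fin (n + 1), ∃ z ∈ U ^ (5 * k.1), 0 < k.1 → z ∉ U ^ (5 * k.1 - 1) := by
      intro k
      by_cases h0 : k.1 = 0
      · exact ⟨1, Set.one_mem_pow h1, fun h => absurd h0 h.ne'⟩
      by_contra hc
      push Not at hc
      have := k.2
      refine hs ((stab h1 (m := 5 * k.1 - 1) ?_ _).trans (Set.pow_subset_pow_right h1 (by omega)))
      rw [show 5 * k.1 - 1 + 1 = 5 * k.1 by omega]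
      exact fun z hz => (hc z hz).2
    choose y hy1 hy2 using h2
    have h3 : ∀ j k, j < k → (y j)⁻¹ * y k ∉ U ^ 4 := fun j k hjk hm => by
      have hjk' : j.1 < k.1 := hjk
      have := Set.mul_mem_mul (hy1 j) hm
      rw [← pow_add, mul_inv_cancel_left] at this
      exact hy2 k (by omega) (Set.pow_subset_pow_right h1 (by omega) this)
    refine ⟨y, fun j k hjk hm => ?_⟩
    rcases lt_or_gt_of_ne hjk with h | h
    · exact h3 j k h hm
    · refine h3 k j h ?_
      rw [← hi, inv_pow, Set.mem_inv]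
      simpa using hm

lemma two {A B : Set G} (hc : ∀ g, g ∈ A ∨ g ∈ B) (hB : B * B⁻¹ ≠ Set.univ) :
    ∃ H : Subgroup G, (A * A⁻¹) ^ 4 = H ∧ H.index ≠ 0 ∧ H.index ≤ 2 := by
  obtain ⟨x, hx⟩ := (Set.ne_univ_iff_exists_notMem _).1 hB
  have hA : A.Nonempty := by
    by_contra h
    rw [Set.not_nonempty_iff_eq_empty] at h
    simp only [h, Set.mem_empty_iff_false, false_or] at hc
    exact hx (by simpa using Set.mul_mem_mul (hc x) (Set.inv_mem_inv.2 (hc 1)))
  have h1 := one_mem hA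
  have hi : (A * A⁻¹)⁻¹ = A * A⁻¹ := by simp
  obtain ⟨a, ha⟩ := hA
  have h2 : ∀ g, g ∉ A * A⁻¹ → g * a ∈ B := fun g hg => (hc _).resolve_left fun h =>
    hg (by simpa using Set.mul_mem_mul h (Set.inv_mem_inv.2 ha))
  have h3 : ∀ g, g ∈ A * A⁻¹ ∨ x * g ∈ A * A⁻¹ := fun g => by
    by_contra h
    push Not at h
    exact hx (by simpa [mul_assoc] using
      Set.mul_mem_mul (h2 _ h.2) (Set.inv_mem_inv.2 (h2 _ h.1)))
  generalize A * A⁻¹ = U at *
  by_cases hs : U ^ (1 + 1) ⊆ U ^ 1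
  · obtain ⟨H, hH⟩ := sub h1 hi hs
    have e : U ^ 4 = H := hH ▸ (stab h1 hs 4).antisymm (Set.pow_subset_pow_right h1 (by norm_num))
    rw [pow_one] at hH
    refine ⟨H, e, ?_⟩
    by_contra hcon
    obtain ⟨y, hy⟩ := idx hcon
    have k1 : ∀ j k, j ≠ k → y j ∈ U → y k ∈ U → False := fun j k h a b =>
      hy j k h (H.mul_mem (H.inv_mem (by rwa [hH] at a)) (by rwa [hH] at b))
    have k2 : ∀ j k, j ≠ k → x * y j ∈ U → x * y k ∈ U → False := fun j k h a b =>
      hy j k h (by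
        rw [hH] at a b
        simpa [mul_assoc] using H.mul_mem (H.inv_mem a) b)
    rcases h3 (y 0) with a | a <;> rcases h3 (y 1) with b | b <;> rcases h3 (y 2) with c | c
    exacts [k1 0 1 (by decide) a b, k1 0 1 (by decide) a b, k1 0 2 (by decide) a c,
      k2 1 2 (by decide) b c, k1 1 2 (by decide) b c, k2 0 2 (by decide) a c,
      k2 0 1 (by decide) a b, k2 0 1 (by decide) a b]
  · obtain ⟨u, hu, hu'⟩ := Set.not_subset.1 hs
    rw [pow_one] at hu'
    have h4 : x⁻¹ ∈ U ^ 3 := by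
      have := Set.mul_mem_mul hu (Set.inv_mem_inv.2 ((h3 u).resolve_left hu'))
      rw [hi, ← pow_succ] at this
      simpa using this
    refine ⟨⊤, ?_, by simp, by simp⟩
    rw [Subgroup.coe_top, Set.eq_univ_iff_forall]
    intro g
    rcases h3 g with h | h
    · exact Set.pow_subset_pow_right h1 (show 1 ≤ 4 by norm_num) (by rwa [pow_one])
    · have := Set.mul_mem_mul h4 h
      rw [← pow_succ] at this
      simpa using this

end

/-- For every group G and every partition of G into n pairwise disjoint sets, some cell A has (A·A⁻¹) raised to the power 4^(n−1) equal to a subgroup of G of finite index at most n. -/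
theorem result :
    ∀ (G : Type) [Group G] (n : ℕ) (A : Fin n → Set G),
      Pairwise (fun i j => Disjoint (A i) (A j)) →
      (⋃ i, A i) = Set.univ →
      ∃ i : Fin n, ∃ H : Subgroup G,
        ((A i * (A i)⁻¹) ^ (4 ^ (n - 1)) : Set G) = (H : Set G) ∧
        H.index ≠ 0 ∧ H.index ≤ n := by
  intro G _ n A _ hc
  have hc' : ∀ g, ∃ i, g ∈ A i := fun g => Set.mem_iUnion.1 (hc ▸ Set.mem_univ g)
  match n, A, hc, hc' with
  | 0, A, _, hc' => exact (hc' 1).choose.elim0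
  | 1, A, _, hc' =>
    have : A 0 = Set.univ := Set.eq_univ_iff_forall.2 fun g => by
      obtain ⟨i, hi⟩ := hc' g
      rwa [Subsingleton.elim i 0] at hi
    exact ⟨0, ⊤, by simp [this], by simp, by simp⟩
  | 2, A, _, hc' =>
    by_cases h : A 1 * (A 1)⁻¹ = Set.univ
    · exact ⟨1, ⊤, by rw [h, Subgroup.coe_top]; exact Set.univ_pow (by norm_num), by simp, by simp⟩
    · exact ⟨0, two (fun g => by simpa [Fin.exists_fin_two] using hc' g) h⟩
  | m + 3, A, hc, _ =>
    by_contra hcon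
    push Not at hcon
    have h5 : 5 * (m + 3) ≤ 4 ^ (m + 2) + 1 := by
      induction m with
      | zero => norm_num
      | succ m ih =>
        have : m + 1 < 4 ^ (m + 1) := Nat.lt_pow_self (by norm_num)
        have e : 4 ^ (m + 1 + 2) = 16 * 4 ^ (m + 1) := by ring
        omega
    refine main A hc fun i hi => sep_of hi (K := 4 ^ (m + 2)) (by omega) h5 ?_
    rintro ⟨H, h1, h2, h3⟩
    exact absurd h3 (not_le.2 (hcon i H h1 h2))

end Pool.Agent.S02883
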