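import Pool.Statements.S02888
import Pool.Agent.Lib.helper15.CompSer

set_option autoImplicit false
open Pool Pool.MP_bc5942_al

namespace Pool.Agent.S02888

open H15CompSer

lemma series_simple {G : Type} [Group G] (A : Subgroup G) [hA : IsSimpleGroup A] :
    ∃ n : ℕ, ∃ s : Fin (n+1) → Subgroup G, s 0 = ⊥ ∧ s (Fin.last n) = A ∧
      ∀ i : Fin n, s i.castSucc ≤ s i.succ ∧
        ((s i.castSucc).subgroupOf (s i.succ)).Normal ∧
        (s i.castSucc).subgroupOf (s i.succ) ≠ ⊤ ∧
        ∀ M : Subgroup (s i.succ), M.Normal →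
          (s i.castSucc).subgroupOf (s i.succ) ≤ M →
          M = (s i.castSucc).subgroupOf (s i.succ) ∨ M = ⊤ := by
  refine ⟨1, ![⊥, A], rfl, rfl, fun i => ?_⟩
  obtain rfl : i = 0 := Subsingleton.elim _ _
  show (⊥ : Subgroup G) ≤ A ∧ ((⊥ : Subgroup G).subgroupOf A).Normal ∧
    (⊥ : Subgroup G).subgroupOf A ≠ ⊤ ∧ ∀ M : Subgroup A, M.Normal →
      (⊥ : Subgroup G).subgroupOf A ≤ M → M = (⊥ : Subgroup G).subgroupOf A ∨ M = ⊤
  rw [Subgroup.bot_subgroupOf]
  exact ⟨bot_le, inferInstance, bot_ne_top, fun M hM _ => hM.eq_bot_or_eq_top⟩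

lemma step {G : Type} [Group G] (Z : Set G) (hZc : ∀ z ∈ Z, ∀ g, z * g = g * z)
    (hZ2 : ∀ z ∈ Z, z * z = 1) (hZm : ∀ z ∈ Z, ∀ w ∈ Z, z * w ∈ Z) (U V : Subgroup G)
    (hn : (U.subgroupOf V).Normal)
    (hmax : ∀ M : Subgroup V, M.Normal → U.subgroupOf V ≤ M → M = U.subgroupOf V ∨ M = ⊤)
    (hfin : (Z ∩ U).Finite) : (Z ∩ V).Finite := by
  by_cases h : Z ∩ V ⊆ U
  · exact hfin.subset fun z hz => ⟨hz.1, h hz⟩
  obtain ⟨m, ⟨hmZ, hmV⟩, hmU⟩ := Set.not_subset.1 h
  have hmi : m⁻¹ = m := inv_eq_of_mul_eq_one_right (hZ2 m hmZ)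
  let K : Subgroup V :=
    { carrier := {v | (v : G) ∈ U ∨ m * v ∈ U}
      one_mem' := Or.inl (one_mem _)
      mul_mem' := by
        rintro a b (ha | ha) (hb | hb)
        · exact Or.inl (mul_mem ha hb)
        · right
          have := mul_mem ha hb
          rwa [← mul_assoc, ← hZc m hmZ, mul_assoc] at this
        · right
          have := mul_mem ha hb
          rwa [mul_assoc] at this
        · left
          have := mul_mem ha hb
          rwa [mul_assoc, ← mul_assoc (a : G), ← hZc m hmZ, ← mul_assoc, ← mul_assoc, hZ2 m hmZ,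
            one_mul] at this
      inv_mem' := by
        rintro a (ha | ha)
        · exact Or.inl (inv_mem ha)
        · right
          have := inv_mem ha
          rwa [mul_inv_rev, hmi, ← hZc m hmZ] at this }
  have hK : K.Normal := by
    constructor
    rintro a (ha | ha) g
    · exact Or.inl (hn.conj_mem a ha g)
    · right
      have := hn.conj_mem (⟨m, hmV⟩ * a) ha g
      have e : ((g * (⟨m, hmV⟩ * a) * g⁻¹ : V) : G) = m * ((g * a * g⁻¹ : V) : G) := by
        simp only [Subgroup.coe_mul]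
        rw [← mul_assoc (g : G) m, ← hZc m hmZ g]
        simp only [mul_assoc]
      rw [Subgroup.mem_subgroupOf, e] at this
      exact this
  rcases hmax K hK (fun v hv => Or.inl hv) with h1 | h1
  · exfalso
    have : (⟨m, hmV⟩ : V) ∈ K := Or.inr (by rw [hZ2 m hmZ]; exact one_mem _)
    rw [h1] at this
    exact hmU this
  · refine (hfin.union (hfin.image (fun z => m * z))).subset ?_
    rintro z ⟨hzZ, hzV⟩
    have : (⟨z, hzV⟩ : V) ∈ K := by rw [h1]; trivial
    rcases this with h2 | h2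
    · exact Or.inl ⟨hzZ, h2⟩
    · exact Or.inr ⟨m * z, ⟨hZm m hmZ z hzZ, h2⟩, by
        simp only [← mul_assoc, hZ2 m hmZ, one_mul]⟩


/-- The negation of the preceding statement: For every group G and subgroups A, B with every element of G equal to a·b (a in A, b in B): if A and B each have a composition series (finite subnormal chain with simple nontrivial factors), then G has one. -/
theorem result :
    ¬ (∀ (G : Type) [Group G] (A B : Subgroup G),
    (∀ g : G, ∃ a ∈ A, ∃ b ∈ B, g = a * b) →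
    (∃ n : ℕ, ∃ s : Fin (n+1) → Subgroup G, s 0 = ⊥ ∧ s (Fin.last n) = A ∧
      ∀ i : Fin n, s i.castSucc ≤ s i.succ ∧
        ((s i.castSucc).subgroupOf (s i.succ)).Normal ∧
        (s i.castSucc).subgroupOf (s i.succ) ≠ ⊤ ∧
        ∀ M : Subgroup (s i.succ), M.Normal →
          (s i.castSucc).subgroupOf (s i.succ) ≤ M →
          M = (s i.castSucc).subgroupOf (s i.succ) ∨ M = ⊤) →
    (∃ n : ℕ, ∃ s : Fin (n+1) → Subgroup G, s 0 = ⊥ ∧ s (Fin.last n) = B ∧
      ∀ i : Fin n, s i.castSucc ≤ s i.succ ∧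
        ((s i.castSucc).subgroupOf (s i.succ)).Normal ∧
        (s i.castSucc).subgroupOf (s i.succ) ≠ ⊤ ∧
        ∀ M : Subgroup (s i.succ), M.Normal →
          (s i.castSucc).subgroupOf (s i.succ) ≤ M →
          M = (s i.castSucc).subgroupOf (s i.succ) ∨ M = ⊤) →
    (∃ n : ℕ, ∃ s : Fin (n+1) → Subgroup G, s 0 = ⊥ ∧ s (Fin.last n) = ⊤ ∧
      ∀ i : Fin n, s i.castSucc ≤ s i.succ ∧
        ((s i.castSucc).subgroupOf (s i.succ)).Normal ∧
        (s i.castSucc).subgroupOf (s i.succ) ≠ ⊤ ∧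
        ∀ M : Subgroup (s i.succ), M.Normal →
          (s i.castSucc).subgroupOf (s i.succ) ≤ M →
          M = (s i.castSucc).subgroupOf (s i.succ) ∨ M = ⊤)) := by
  intro h
  obtain ⟨n, s, h0, hl, hs⟩ := h Gs (phi hh).range (phi 0).range factor
    (series_simple _) (series_simple _)
  have key : ∀ i : Fin (n + 1), (Set.range cen ∩ s i).Finite := by
    intro i
    induction i using Fin.induction with
    | zero =>
      rw [h0]
      exact (Set.finite_singleton 1).subset fun z hz => hz.2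
    | succ i ih =>
      obtain ⟨-, h2, -, h4⟩ := hs i
      refine step _ ?_ ?_ ?_ _ _ h2 h4 ih
      · rintro _ ⟨c, rfl⟩ g; exact cen_comm c g
      · rintro _ ⟨c, rfl⟩; exact cen_sq c
      · rintro _ ⟨c, rfl⟩ _ ⟨d, rfl⟩; exact ⟨c * d, map_mul _ _ _⟩
  have := key (Fin.last n)
  rw [hl, Subgroup.coe_top, Set.inter_univ] at this
  exact Set.infinite_range_of_injective cen_inj this

end Pool.Agent.S02888
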