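import Pool.Statements.S02892
import Pool.Agent.Lib.helper24.ZeroDiv

set_option autoImplicit false
open Pool Pool.MP_bcc032_al

namespace Pool.Agent.S02892

open Pool.Agent.ZeroDiv Polynomial

section
variable (k : Type) [Field k]

abbrev FA : Type := FreeAlgebra k (Fin 4)
abbrev g (i : Fin 4) : FA k := FreeAlgebra.ι k i

def rel : Fin 5 → FA k := ![g k 0 * g k 1 - 1, g k 1 * g k 0 - 1,
  g k 0 * g k 2 - g k 2 * g k 0 - g k 0, g k 2 * g k 3 - g k 3 * g k 2,
  g k 0 * g k 2 * g k 3 - g k 2 * g k 3 * g k 0]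

abbrev II : Ideal (FA k) := (TwoSidedIdeal.span (Set.range (rel k))).asIdeal
abbrev RR : Type := FA k ⧸ II k
abbrev mk : FA k →ₐ[k] RR k := Ideal.Quotient.mkₐ k (II k)

theorem mk_zero (p : FA k) : mk k p = 0 ↔ p ∈ TwoSidedIdeal.span (Set.range (rel k)) :=
  Ideal.Quotient.eq_zero_iff_mem.trans TwoSidedIdeal.mem_asIdeal

theorem mk_rel (i : Fin 5) : mk k (rel k i) = 0 :=
  (mk_zero k _).mpr (TwoSidedIdeal.subset_span ⟨i, rfl⟩)

noncomputable def uu : (RR k)ˣ where
  val := mk k (g k 0)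
  inv := mk k (g k 1)
  val_inv := by simpa [rel, sub_eq_zero] using mk_rel k 0
  inv_val := by simpa [rel, sub_eq_zero] using mk_rel k 1

theorem r1 : (uu k : RR k) * mk k (g k 2) = (mk k (g k 2) + 1) * uu k := by
  have h := mk_rel k 2
  simp only [rel, Matrix.cons_val, map_sub, map_mul] at h
  rw [add_mul, one_mul, ← sub_eq_zero, ← sub_sub]; exact h
theorem r2 : Commute (mk k (g k 2)) (mk k (g k 3)) := by
  have h := mk_rel k 3
  simp only [rel, Matrix.cons_val, map_sub, map_mul] at h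
  exact sub_eq_zero.mp h
theorem r3 : Commute (uu k : RR k) (mk k (g k 2) * mk k (g k 3)) := by
  have h := mk_rel k 4
  simp only [rel, Matrix.cons_val, map_sub, map_mul] at h
  exact (mul_assoc _ _ _).symm.trans (sub_eq_zero.mp h)

theorem model (E : Type) [CommRing E] [Algebra k E] (τ α : ℤ → E) (γ : E)
    (h1 : ∀ i, τ (i - 1) = τ i + 1) (h2 : ∀ i, τ i * α i = γ) :
    ∃ φ : RR k →ₐ[k] Module.End k (ℤ → E), φ (uu k) = sh k E 1 ∧
      φ ((uu k)⁻¹ : (RR k)ˣ) = sh k E (-1) ∧ φ (mk k (g k 2)) = lm k E τ ∧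
      φ (mk k (g k 3)) = lm k E α := by
  let L : FA k →ₐ[k] Module.End k (ℤ → E) :=
    FreeAlgebra.lift k ![sh k E 1, sh k E (-1), lm k E τ, lm k E α]
  have hL : ∀ i, L (g k i) = ![sh k E 1, sh k E (-1), lm k E τ, lm k E α] i :=
    fun i => FreeAlgebra.lift_ι_apply _ i
  have h3 : TwoSidedIdeal.span (Set.range (rel k)) ≤ TwoSidedIdeal.ker L := by
    rw [TwoSidedIdeal.span_le]
    rintro _ ⟨i, rfl⟩
    rw [SetLike.mem_coe, TwoSidedIdeal.mem_ker]
    ext1 f
    funext j
    fin_cases i <;>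
      simp only [rel, Fin.reduceFinMk, Matrix.cons_val, map_sub, map_mul, map_one, hL,
        LinearMap.sub_apply, Module.End.mul_apply, Module.End.one_apply, Pi.sub_apply, sh_apply,
        lm_apply, LinearMap.zero_apply, Pi.zero_apply, ← mul_assoc, h2, Fin.zero_eta,
        Fin.mk_one]
    · simp
    · simp
    · rw [h1]; ring
    · rw [mul_comm (α j), h2, sub_self]
    · rw [sub_self]
  exact ⟨Ideal.Quotient.liftₐ (II k) L fun a ha =>
    (TwoSidedIdeal.mem_ker L).mp (h3 (TwoSidedIdeal.mem_asIdeal.mp ha)), hL 0, hL 1, hL 2, hL 3⟩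

theorem low (N : ℕ) (hN : Set.InjOn (Int.cast : ℤ → k) (Finset.Icc (-(N : ℤ)) N))
    (p q : FA k)
    (hp : p ∈ Submodule.span k {a : FA k | ∃ w : FreeMonoid (Fin 4),
      w.length < N ∧ a = (w.toList.map (FreeAlgebra.ι k)).prod})
    (hq : q ∈ Submodule.span k {a : FA k | ∃ w : FreeMonoid (Fin 4),
      w.length < N ∧ a = (w.toList.map (FreeAlgebra.ι k)).prod})
    (h : mk k p * mk k q = 0) : mk k p = 0 ∨ mk k q = 0 := by
  obtain ⟨d, hd, hQ, hP⟩ := exd (r1 k) (r2 k) (r3 k) _ hN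
  have h1 : Submodule.span k {a : FA k | ∃ w : FreeMonoid (Fin 4),
      w.length < N ∧ a = (w.toList.map (FreeAlgebra.ι k)).prod} ≤
      (LinearMap.range (Ph (k := k) (uu k) hd)).comap (mk k).toLinearMap := by
    refine Submodule.span_le.mpr ?_
    rintro _ ⟨w, hw, rfl⟩
    have h2 := word (r1 k) hd N (fun e he => hP e (Finset.mem_Icc.mpr (abs_le.mp he)))
      (fun i => mk k (g k i)) (fun z => by
        fin_cases z
        exacts [Or.inl rfl, Or.inr (Or.inl rfl), Or.inr (Or.inr (Or.inl rfl)),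
          Or.inr (Or.inr (Or.inr rfl))]) w.toList hw.le
    have h5 : mk k (w.toList.map (FreeAlgebra.ι k)).prod =
        (w.toList.map fun i => mk k (g k i)).prod := by
      rw [map_list_prod, List.map_map]; rfl
    have h6 := WW_le hd _ h2
    rw [← h5] at h6
    exact h6
  obtain ⟨F, hF⟩ := h1 hp
  obtain ⟨G, hG⟩ := h1 hq
  rw [AlgHom.toLinearMap_apply] at hF hG
  have h3 : ∀ i, tau k i ≠ 0 := fun i => by simpa using ae_ne i (X_ne_zero (R := k))
  obtain ⟨φ, p1, p2, p3, p4⟩ := model k (RatFunc k)[X] (fun i => C (tau k i))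
    (fun i => C (tau k i)⁻¹ * X) X
    (fun i => by rw [← C_1, ← C_add]; congr 1; simp only [tau]; push_cast; ring)
    (fun i => by rw [← mul_assoc, ← C_mul, mul_inv_cancel₀ (h3 i), C_1, one_mul])
  have h4 : φ (mk k (g k 2) * mk k (g k 3)) = lm k _ fun _ => X := by
    rw [map_mul, p3, p4, ← map_mul]
    congr 1; funext i
    rw [Pi.mul_apply, ← mul_assoc, ← C_mul, mul_inv_cancel₀ (h3 i), C_1, one_mul]
  rw [← hF, ← hG] at h ⊢
  rcases dom φ p1 p2 p3 h4 hd (Finset.prod_ne_zero_iff.mpr fun e _ => X_sub_C_ne_zero _) hQ F G h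
    with rfl | rfl
  · left; exact map_zero _
  · right; exact map_zero _

theorem high (p : ℕ) (hp : 1 < p) (h0 : (p : k) = 0) : mk k (g k 2) ≠ 0 ∧
    mk k (g k 0 ^ p * g k 3 - g k 3 * g k 0 ^ p) ≠ 0 ∧
    mk k (g k 2 * (g k 0 ^ p * g k 3 - g k 3 * g k 0 ^ p)) = 0 := by
  obtain ⟨φ, p1, -, p3, p4⟩ := model k k (fun i => -i) (Pi.single 0 1) 0
    (fun i => by push_cast; ring)
    (fun i => by by_cases h : i = 0 <;> simp [h])
  have h1 : ∀ (n : ℕ) (f : ℤ → k) (i : ℤ), (sh k k 1 ^ n) f i = f (i - n) := by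
    intro n
    induction n with
    | zero => simp
    | succ n ih =>
      intro f i
      rw [pow_succ, Module.End.mul_apply, ih, sh_apply]; congr 1; push_cast; ring
  have p1' : φ (mk k (g k 0)) = sh k k 1 := p1
  refine ⟨fun h => ?_, fun h => ?_, ?_⟩
  · have h2 := congrFun (LinearMap.congr_fun (congrArg φ h) 1) 1
    rw [p3, lm_apply, map_zero] at h2
    simp at h2
  · have h2 := congrFun (LinearMap.congr_fun (congrArg φ h) 1) 0
    simp only [map_sub, map_mul, map_pow, p1', p4, map_zero, LinearMap.sub_apply,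
      Module.End.mul_apply, Pi.sub_apply, h1, lm_apply] at h2
    rw [Pi.single_eq_of_ne (by omega)] at h2
    simp at h2
  · have h2 := tg (r1 k) (r3 k) p
    have h3 : ((p : ℤ) : RR k) = 0 := by
      rw [Int.cast_natCast, ← map_natCast (algebraMap k (RR k)), h0, map_zero]
    have h4 := aa_mul (uu k) (mk k (g k 3)) p
    rw [h3, add_zero] at h2
    rw [zpow_natCast, Units.val_pow_eq_pow_val] at h4
    rw [map_mul, map_sub, map_mul, map_mul, map_pow, mul_sub, sub_eq_zero,
      ← mul_assoc _ (mk k (g k 3)), ← h2, mul_assoc]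
    exact congrArg _ h4.symm

theorem deg (i : Fin 5) : rel k i ∈ Submodule.span k {a : FA k | ∃ w : FreeMonoid (Fin 4),
    w.length ≤ 3 ∧ a = (w.toList.map (FreeAlgebra.ι k)).prod} := by
  have h : ∀ l : List (Fin 4), l.length ≤ 3 → (l.map (FreeAlgebra.ι k)).prod ∈ Submodule.span k
      {a : FA k | ∃ w : FreeMonoid (Fin 4),
        w.length ≤ 3 ∧ a = (w.toList.map (FreeAlgebra.ι k)).prod} :=
    fun l hl => Submodule.subset_span ⟨FreeMonoid.ofList l, hl, rfl⟩
  have h0 := h [] (by simp)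
  have h1 := fun i => h [i] (by simp)
  have h2 := fun i j => h [i, j] (by simp)
  have h3 := fun i j l => h [i, j, l] (by simp)
  simp only [List.map_cons, List.map_nil, List.prod_cons, List.prod_nil, mul_one, ← mul_assoc]
    at h0 h1 h2 h3
  fin_cases i
  exacts [sub_mem (h2 0 1) h0, sub_mem (h2 1 0) h0, sub_mem (sub_mem (h2 0 2) (h2 2 0)) (h1 0),
    sub_mem (h2 2 3) (h2 3 2), sub_mem (h3 0 2 3) (h3 2 3 0)]

end

/-- The negation of the preceding statement: For all d,s,n there is N such that, over any field, if the free algebra on d letters modulo s relations of degree ≤ n has zero divisors, then it has two nonzero elements of degree < N with product zero. -/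
theorem result :
    ¬ (∀ d s n : ℕ, ∃ N : ℕ, ∀ (k : Type) [Field k] (r : Fin s → FreeAlgebra k (Fin d)),
      (∀ i, r i ∈ Submodule.span k
        {a : FreeAlgebra k (Fin d) | ∃ w : FreeMonoid (Fin d),
          w.length ≤ n ∧ a = (w.toList.map (FreeAlgebra.ι k)).prod}) →
      (∃ p q : FreeAlgebra k (Fin d),
        p ∉ TwoSidedIdeal.span (Set.range r) ∧ q ∉ TwoSidedIdeal.span (Set.range r) ∧
        p * q ∈ TwoSidedIdeal.span (Set.range r)) →
      ∃ p q : FreeAlgebra k (Fin d),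
        p ∈ Submodule.span k
          {a : FreeAlgebra k (Fin d) | ∃ w : FreeMonoid (Fin d),
            w.length < N ∧ a = (w.toList.map (FreeAlgebra.ι k)).prod} ∧
        q ∈ Submodule.span k
          {a : FreeAlgebra k (Fin d) | ∃ w : FreeMonoid (Fin d),
            w.length < N ∧ a = (w.toList.map (FreeAlgebra.ι k)).prod} ∧
        p ∉ TwoSidedIdeal.span (Set.range r) ∧ q ∉ TwoSidedIdeal.span (Set.range r) ∧
        p * q ∈ TwoSidedIdeal.span (Set.range r)) := by
  intro h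
  obtain ⟨N, hN⟩ := h 4 5 3
  obtain ⟨p, hp, hp'⟩ := Nat.exists_infinite_primes (2 * N + 1)
  haveI := Fact.mk hp'
  obtain ⟨h1, h2, h3⟩ := high (ZMod p) p hp'.one_lt (ZMod.natCast_self p)
  obtain ⟨a, b, ha, hb, ha', hb', hab⟩ := hN (ZMod p) (rel _) (deg _)
    ⟨_, _, (mk_zero _ _).not.mp h1, (mk_zero _ _).not.mp h2, (mk_zero _ _).mp h3⟩
  refine (low (ZMod p) N (fun i hi j hj hij => ?_) a b ha hb
    ((map_mul _ _ _).symm.trans ((mk_zero _ _).mpr hab))).elim
    ((mk_zero _ _).not.mpr ha') ((mk_zero _ _).not.mpr hb')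
  have h4 := (ZMod.intCast_eq_intCast_iff_dvd_sub i j p).mp hij
  have hi' := Finset.mem_Icc.mp (Finset.mem_coe.mp hi)
  have hj' := Finset.mem_Icc.mp (Finset.mem_coe.mp hj)
  have h5 := Int.eq_zero_of_abs_lt_dvd h4 (abs_lt.mpr (by omega))
  omega

end Pool.Agent.S02892
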