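import Pool.Statements.S02958
-- import your own Pool.Agent.* helpers here

set_option autoImplicit false
open Pool Pool.MP_c12e41_al

namespace Pool.Agent.S02958

abbrev F2 := ZMod 2

@[ext] structure Gm where
  s : ℤ →₀ F2
  m : ℤ
  f : F2 × F2

noncomputable def sh (m : ℤ) (s : ℤ →₀ F2) : ℤ →₀ F2 := Finsupp.equivMapDomain (Equiv.addRight m) s

@[simp] lemma sh_apply (m : ℤ) (s : ℤ →₀ F2) (i : ℤ) : sh m s i = s (i - m) := by
  simp [sh, Finsupp.equivMapDomain_apply, sub_eq_add_neg]

lemma sh_single (m i : ℤ) (c : F2) : sh m (Finsupp.single i c) = Finsupp.single (i + m) c := by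
  simp [sh, Finsupp.equivMapDomain_single]

@[simp] lemma sh_zero (m : ℤ) : sh m 0 = 0 := by ext; simp

noncomputable instance : Mul Gm := ⟨fun g h => ⟨g.s + sh g.m h.s, g.m + h.m, g.f + h.f⟩⟩
noncomputable instance : One Gm := ⟨⟨0, 0, 0⟩⟩
noncomputable instance : Inv Gm := ⟨fun g => ⟨-sh (-g.m) g.s, -g.m, -g.f⟩⟩

@[simp] lemma mul_s (g h : Gm) : (g * h).s = g.s + sh g.m h.s := rfl
@[simp] lemma mul_m (g h : Gm) : (g * h).m = g.m + h.m := rfl
@[simp] lemma mul_f (g h : Gm) : (g * h).f = g.f + h.f := rfl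
@[simp] lemma one_s : (1 : Gm).s = 0 := rfl
@[simp] lemma one_m : (1 : Gm).m = 0 := rfl
@[simp] lemma one_f : (1 : Gm).f = 0 := rfl
@[simp] lemma inv_s (g : Gm) : (g⁻¹).s = -sh (-g.m) g.s := rfl
@[simp] lemma inv_m (g : Gm) : (g⁻¹).m = -g.m := rfl
@[simp] lemma inv_f (g : Gm) : (g⁻¹).f = -g.f := rfl

noncomputable instance : Group Gm := Group.ofLeftAxioms
  (fun a b c => by
    refine Gm.ext ?_ ?_ ?_
    · ext i; simp [add_assoc, sub_sub]
    · simp [add_assoc]
    · simp [add_assoc])
  (fun a => by
    refine Gm.ext ?_ ?_ ?_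
    · ext i; simp
    · simp
    · simp)
  (fun a => by
    refine Gm.ext ?_ ?_ ?_
    · ext i; simp
    · simp
    · simp)

abbrev RR := MonoidAlgebra F2 Gm

/-- pairing of a function with a group algebra element -/
noncomputable def L (w : Gm → F2) : RR →+ F2 where
  toFun β := Finsupp.linearCombination F2 w β.coeff
  map_zero' := by simp
  map_add' := by intro a b; simp

@[simp] lemma L_single (w : Gm → F2) (g : Gm) (c : F2) :
    L w (MonoidAlgebra.single g c) = c * w g := by
  simp [L]

lemma L_mul_single (w : Gm → F2) (β : RR) (h : Gm) :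
    L w (β * MonoidAlgebra.single h 1) = L (fun g => w (g * h)) β := by
  induction β using MonoidAlgebra.induction_linear with
  | zero => simp
  | add x y hx hy => rw [add_mul, map_add, map_add, hx, hy]
  | single g c => simp [MonoidAlgebra.single_mul_single]

lemma L_single_mul (w : Gm → F2) (β : RR) (h : Gm) (c : F2) :
    L w (MonoidAlgebra.single h c * β) = c * L (fun g => w (h * g)) β := by
  induction β using MonoidAlgebra.induction_linear with
  | zero => simp
  | add x y hx hy => rw [mul_add, map_add, map_add, hx, hy, mul_add]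
  | single g d => simp [MonoidAlgebra.single_mul_single, mul_assoc]

lemma L_add (w w' : Gm → F2) (β : RR) : L (fun g => w g + w' g) β = L w β + L w' β := by
  induction β using MonoidAlgebra.induction_linear with
  | zero => simp
  | add x y hx hy => rw [map_add, map_add, map_add, hx, hy]; ring
  | single g d => simp [mul_add]

lemma L_eq_zero (w : Gm → F2) (β : RR) (h : ∀ g ∈ β.coeff.support, w g = 0) : L w β = 0 := by
  show Finsupp.linearCombination F2 w β.coeff = 0
  rw [Finsupp.linearCombination_apply, Finsupp.sum]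
  exact Finset.sum_eq_zero fun g hg => by simp [h g hg]

noncomputable def lamp (n : ℤ) : Gm := ⟨Finsupp.single n 1, 0, 0⟩
def tau (n : ℤ) : Gm := ⟨0, n, 0⟩
def uu : Gm := ⟨0, 0, (1, 0)⟩
def vv : Gm := ⟨0, 0, (0, 1)⟩

noncomputable def e (g : Gm) : RR := MonoidAlgebra.single g 1

lemma e_mul (g h : Gm) : e g * e h = e (g * h) := by simp [e, MonoidAlgebra.single_mul_single]
lemma e_one : e 1 = 1 := rfl

noncomputable def xx : RR := e uu - 1
noncomputable def yy : RR := e vv - 1
noncomputable def al : RR := xx * (e (lamp 0) - 1) + yy * (e (tau 1) - 1)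

lemma uu_comm (g : Gm) : Commute uu g := by
  refine Gm.ext ?_ ?_ ?_
  · ext i; simp [uu]
  · simp [uu]
  · simp [uu, add_comm]

lemma vv_comm (g : Gm) : Commute vv g := by
  refine Gm.ext ?_ ?_ ?_
  · ext i; simp [vv]
  · simp [vv]
  · simp [vv, add_comm]

lemma xx_comm (β : RR) : xx * β = β * xx := by
  have := (MonoidAlgebra.single_commute (R := F2) (r := 1) uu_comm (fun r => Commute.one_left r) β).eq
  simp only [xx, e, sub_mul, mul_sub, this, one_mul, mul_one]

lemma yy_comm (β : RR) : yy * β = β * yy := by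
  have := (MonoidAlgebra.single_commute (R := F2) (r := 1) vv_comm (fun r => Commute.one_left r) β).eq
  simp only [yy, e, sub_mul, mul_sub, this, one_mul, mul_one]

lemma add_self_RR (β : RR) : β + β = 0 := by
  ext g; simp [CharTwo.add_self_eq_zero]

lemma sq_zero (g : Gm) (hg : g * g = 1) : (e g - 1) * (e g - 1) = 0 := by
  have h1 : (e g - 1) * (e g - 1) = (1 + 1) - (e g + e g) := by
    rw [sub_mul, mul_sub, mul_sub, e_mul, hg, e_one]; simp only [mul_one, one_mul]; abel
  rw [h1, add_self_RR, add_self_RR, sub_zero]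

lemma xx_sq : xx * xx = 0 := sq_zero uu (by
  refine Gm.ext ?_ ?_ ?_
  · simp [uu]
  · simp [uu]
  · simp only [uu, mul_f, one_f]; decide)

lemma yy_sq : yy * yy = 0 := sq_zero vv (by
  refine Gm.ext ?_ ?_ ?_
  · simp [vv]
  · simp [vv]
  · simp only [vv, mul_f, one_f]; decide)

def w (n : ℤ) (f0 : F2 × F2) (g : Gm) : F2 := if g.f = f0 then g.s (g.m + n) else 0

lemma key (β : RR) (hβ : β * al = 0) (r : ℤ → F2) (f1 : F2 × F2) :
    L (fun g => if g.f = f1 then r g.m else 0) (β * xx) = 0 := by
  set G : Gm → F2 := fun g => if g.f = f1 then Finsupp.linearCombination F2 r g.s else 0 with hG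
  have h1 : (fun g => G (g * lamp 0)) = fun g => (if g.f = f1 then r g.m else 0) + G g := by
    funext g
    simp only [hG, mul_f, mul_s, lamp, add_zero, sh_single, zero_add, map_add,
      Finsupp.linearCombination_single, one_smul]
    split_ifs <;> simp [add_comm]
  have h2 : (fun g => G (g * tau 1)) = G := by
    funext g
    simp [hG, tau]
  have h3 : L G (β * al) = 0 := by rw [hβ, map_zero]
  have h4 : β * al = (β * xx * e (lamp 0) - β * xx) + (β * yy * e (tau 1) - β * yy) := by
    simp only [al, mul_add, ← mul_assoc, mul_sub, mul_one]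
  rw [h4, map_add, map_sub, map_sub, e, e, L_mul_single, L_mul_single, h1, h2, L_add] at h3
  simpa using h3

noncomputable def J (n : ℤ) : Submodule RR RR where
  carrier := {β | β * al = 0 ∧ ∀ f0, L (w n f0) (β * xx) = 0}
  zero_mem' := by simp
  add_mem' := by
    rintro a b ⟨ha, ha'⟩ ⟨hb, hb'⟩
    exact ⟨by rw [add_mul, ha, hb, add_zero], fun f0 => by rw [add_mul, map_add, ha', hb', add_zero]⟩
  smul_mem' := by
    rintro γ β ⟨hb, hb'⟩
    refine ⟨by rw [smul_eq_mul, mul_assoc, hb, mul_zero], fun f0 => ?_⟩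
    rw [smul_eq_mul, mul_assoc]
    induction γ using MonoidAlgebra.induction_linear with
    | zero => simp
    | add x y hx hy => rw [add_mul, map_add, hx, hy, add_zero]
    | single h c =>
      rw [L_single_mul]
      have : (fun g => w n f0 (h * g)) = fun g => w n (f0 - h.f) g +
          (if g.f = f0 - h.f then (fun m => h.s (h.m + m + n)) g.m else 0) := by
        funext g
        have hiff : (h.f + g.f = f0) ↔ (g.f = f0 - h.f) := by
          constructor
          · rintro rfl; simp
          · intro h'; rw [h']; simp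
        simp only [w, mul_f, mul_s, mul_m, hiff, Finsupp.add_apply, sh_apply]
        split_ifs
        · rw [add_comm]; congr 2; ring
        · simp
      rw [this, L_add, hb', key β hb (fun m => h.s (h.m + m + n)), add_zero, mul_zero]

noncomputable def xn (n : ℕ) : RR := 1 - e (lamp n) + (e (lamp 0) - 1) * e (tau n)
noncomputable def yn (n : ℕ) : RR :=
  (e (lamp 0) - 1) * (1 - e (lamp n)) * ∑ i ∈ Finset.range n, e (tau 1) ^ i

lemma tau_pow (n : ℕ) : e (tau 1) ^ n = e (tau n) := by
  induction n with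
  | zero => rfl
  | succ n ih =>
    rw [pow_succ, ih, e_mul]
    exact congrArg e (by refine Gm.ext ?_ ?_ ?_ <;> simp [tau])

lemma rel (n : ℕ) : xn n * (e (lamp 0) - 1) + yn n * (e (tau 1) - 1) = 0 := by
  have h1 : e (lamp n) * e (tau n) = e (tau n) * e (lamp 0) := by
    rw [e_mul, e_mul]; congr 1
    refine Gm.ext ?_ ?_ ?_ <;> simp [tau, lamp, sh_single]
  have h2 : e (lamp n) * e (lamp 0) = e (lamp 0) * e (lamp n) := by
    rw [e_mul, e_mul]; congr 1
    refine Gm.ext ?_ ?_ ?_ <;> simp [tau, lamp, sh_single, add_comm]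
  rw [yn, mul_assoc, geom_sum_mul, tau_pow, xn]
  generalize e (lamp n) = B at *
  generalize e (lamp 0) = A at *
  generalize e (tau n) = T at *
  have : (1 - B + (A - 1) * T) * (A - 1) + (A - 1) * (1 - B) * (T - 1)
      = (A - 1) * (T * A - B * T) + (A * B - B * A) := by noncomm_ring
  rw [this, h1, h2]; simp

noncomputable def bn (n : ℕ) : RR := yy * xn n + xx * yn n

lemma bn_xx (n : ℕ) : bn n * xx = xx * yy * xn n := by
  rw [bn, add_mul, ← xx_comm, ← xx_comm, ← mul_assoc, ← mul_assoc, xx_sq]; simp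

lemma bn_yy (n : ℕ) : bn n * yy = xx * yy * yn n := by
  rw [bn, add_mul, ← yy_comm, ← yy_comm, ← mul_assoc, ← mul_assoc, yy_sq, yy_comm xx]; simp

lemma bn_al (n : ℕ) : bn n * al = 0 := by
  rw [al, mul_add, ← mul_assoc, ← mul_assoc, bn_xx, bn_yy, mul_assoc (xx * yy), mul_assoc (xx * yy),
    ← mul_add, rel, mul_zero]

lemma L_xy (n : ℤ) (g : Gm) (hg : g.f = 0) : L (w n 0) (xx * yy * e g) = g.s (g.m + n) := by
  have : xx * yy * e g = e (uu * vv * g) - e (uu * g) - e (vv * g) + e g := by
    simp only [xx, yy, ← e_mul]; noncomm_ring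
  rw [this]
  simp only [map_add, map_sub, e, L_single, one_mul, w, mul_f, hg, uu, vv]
  rw [if_neg (by decide), if_neg (by decide), if_neg (by decide)]
  simp

lemma bn_not (n : ℕ) (hn : n ≠ 0) : bn n ∉ J n := by
  rintro ⟨-, h⟩
  have h0 := h 0
  have : xx * yy * xn n = xx * yy * e 1 - xx * yy * e (lamp n) + xx * yy * e (lamp 0 * tau n)
      - xx * yy * e (tau n) := by
    rw [xn, ← e_mul, e_one]; noncomm_ring
  rw [bn_xx, this, map_sub, map_add, map_sub, L_xy _ _ rfl, L_xy _ _ rfl, L_xy _ _ (by simp [lamp, tau]),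
    L_xy _ _ rfl] at h0
  have h2 : (n : ℤ) + n ≠ 0 := by omega
  simp [lamp, tau, Finsupp.single_apply, h2, h2.symm] at h0

lemma eventually_mem (β : RR) (hβ : β * al = 0) : ∀ᶠ n : ℕ in Filter.atTop, β ∈ J n := by
  have : ∀ᶠ n : ℕ in Filter.atTop, ∀ g ∈ (β * xx).coeff.support, g.s (g.m + n) = 0 := by
    rw [Filter.eventually_all_finset]
    intro g _
    obtain ⟨M, hM⟩ := g.s.support.bddAbove
    filter_upwards [Filter.eventually_gt_atTop (M - g.m).toNat] with n hn
    by_contra h
    have := hM (Finsupp.mem_support_iff.2 h)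
    omega
  filter_upwards [this] with n hn
  refine ⟨hβ, fun f0 => L_eq_zero _ _ fun g hg => ?_⟩
  simp [w, hn g hg]


/-- The negation of the preceding statement: For every field K, every group G and every element a of the group algebra K[G], the set of x with x·a = 0 equals the left ideal generated by some finite set of elements of K[G]. -/
theorem result :
    ¬ (∀ (K : Type) [Field K] (G : Type) [Group G] (a : MonoidAlgebra K G),
      ∃ s : Finset (MonoidAlgebra K G),
        ((Submodule.span (MonoidAlgebra K G) (s : Set (MonoidAlgebra K G)) :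
            Set (MonoidAlgebra K G)) = {x : MonoidAlgebra K G | x * a = 0})) := by
  intro H
  obtain ⟨s, hs⟩ := H F2 Gm al
  have h1 : ∀ᶠ n : ℕ in Filter.atTop, ∀ β ∈ s, β ∈ J n := by
    rw [Filter.eventually_all_finset]
    intro β hβ
    apply eventually_mem
    have : β ∈ (Submodule.span RR (s : Set RR) : Set RR) := Submodule.subset_span hβ
    rw [hs] at this
    exact this
  obtain ⟨n, hn, hn0⟩ := (h1.and (Filter.eventually_ne_atTop 0)).exists
  apply bn_not n hn0
  have h2 : bn n ∈ (Submodule.span RR (s : Set RR) : Set RR) := by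
    rw [hs]; exact bn_al n
  exact (Submodule.span_le.2 hn : Submodule.span RR (s : Set RR) ≤ J n) h2

end Pool.Agent.S02958
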