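import Pool.Statements.S02968

set_option autoImplicit false
open Pool Pool.MP_c1d873_al

namespace Pool.Agent.S02968

section
open Set Topology Filter
open scoped Manifold ContDiff

instance f2 : Fact ((0 : ℝ) < 2) := ⟨two_pos⟩

abbrev H := EuclideanHalfSpace 1
abbrev T := AddCircle (2 : ℝ)

noncomputable def E : OpenPartialHomeomorph ℝ H where
  toFun t := ⟨WithLp.toLp 2 fun _ => Real.exp t, (Real.exp_pos t).le⟩
  invFun v := Real.log (v.1 0)
  source := univ
  target := {v | 0 < v.1 0}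
  map_source' t _ := Real.exp_pos t
  map_target' _ _ := mem_univ _
  left_inv' t _ := Real.log_exp t
  right_inv' v hv := by
    refine Subtype.ext ?_
    ext i
    rw [Subsingleton.elim i 0]
    exact Real.exp_log hv
  open_source := isOpen_univ
  open_target := isOpen_lt continuous_const (by fun_prop)
  continuousOn_toFun := (Continuous.subtype_mk (by fun_prop) _).continuousOn
  continuousOn_invFun := ContinuousOn.log (by fun_prop) fun v hv => (show 0 < v.1 0 from hv).ne'

noncomputable def c (a : ℝ) : OpenPartialHomeomorph T H :=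
  (AddCircle.openPartialHomeomorphCoe 2 a).symm ≫ₕ E

theorem one_ne : ((1 : ℝ) : T) ≠ 0 := by
  intro h
  have := (AddCircle.norm_coe_eq_abs_iff (2 : ℝ) (x := 1) two_ne_zero).2 (by norm_num)
  rw [h] at this; simp at this

theorem c_source (a : ℝ) : (c a).source = {(a : T)}ᶜ := by simp [c, E]

noncomputable instance cs : ChartedSpace H T where
  atlas := range c
  chartAt z := c (AddCircle.equivIco 2 0 z + 1)
  mem_chart_source z := by
    rw [c_source, AddCircle.coe_add, AddCircle.coe_equivIco]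
    simpa using one_ne
  chart_mem_atlas z := mem_range_self _

theorem sec_smooth (b t : ℝ) (h : (t : T) ≠ b) :
    ContDiffAt ℝ ∞ (fun u : ℝ => (AddCircle.equivIco 2 b (u : T) : ℝ)) t := by
  have h1 := eventuallyEq_toIcoDiv_nhds two_pos b (x := t)
    (AddCommGroup.not_modEq_iff_ne_mod_zmultiples.2 h)
  refine (show ContDiffAt ℝ ∞ (fun u : ℝ => u - toIcoDiv two_pos b t • (2 : ℝ)) t by
    fun_prop).congr_of_eventuallyEq ?_
  filter_upwards [h1] with u hu
  rw [← hu]; rfl

theorem log_smooth (v : EuclideanSpace ℝ (Fin 1)) (h : 0 < v 0) :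
    ContDiffAt ℝ ∞ (fun v : EuclideanSpace ℝ (Fin 1) => Real.log (v 0)) v :=
  ContDiffAt.log (by fun_prop) h.ne'

theorem exp_smooth : ContDiff ℝ ∞ (fun t : ℝ => (WithLp.toLp 2 fun _ => Real.exp t :
    EuclideanSpace ℝ (Fin 1))) := contDiff_euclidean.2 fun _ => Real.contDiff_exp

instance mf : IsManifold (𝓡∂ 1) ∞ T := by
  refine isManifold_of_contDiffOn _ _ _ ?_
  rintro _ _ ⟨a, rfl⟩ ⟨b, rfl⟩ v hv'
  obtain ⟨hv, w, rfl⟩ := id hv'
  simp only [mem_preimage, ModelWithCorners.left_inv, OpenPartialHomeomorph.trans_source,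
    mem_inter_iff, c_source] at hv
  have h0 : 0 < w.1 0 := hv.1.1
  have h1 : ((Real.log (w.1 0) : ℝ) : T) ≠ b := hv.2
  have := (exp_smooth.contDiffAt.comp _ ((sec_smooth b _ h1).comp w.1 (log_smooth w.1 h0)))
  refine this.contDiffWithinAt.congr_of_mem ?_ hv'
  rintro _ ⟨-, u, rfl⟩
  simp only [Function.comp, ModelWithCorners.left_inv]; rfl

theorem E_smooth : ContMDiff 𝓘(ℝ) (𝓡∂ 1) ∞ E := by
  rw [contMDiff_iff]
  refine ⟨continuousOn_univ.1 E.continuousOn_toFun, fun x y => ?_⟩
  exact exp_smooth.contDiffOn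

theorem Es_smooth (v : H) (h : 0 < v.1 0) : ContMDiffAt (𝓡∂ 1) 𝓘(ℝ) ∞ E.symm v :=
  (log_smooth v.1 h).contMDiffAt.comp v (𝓡∂ 1).contMDiff.contMDiffAt

theorem cm (a : ℝ) : c a ∈ IsManifold.maximalAtlas (𝓡∂ 1) ∞ T :=
  IsManifold.subset_maximalAtlas (mem_range_self a)

theorem coe_smooth : ContMDiff 𝓘(ℝ) (𝓡∂ 1) ∞ ((↑) : ℝ → T) := by
  intro t
  have h : E t ∈ (c (t - 1)).target := by
    refine ⟨Real.exp_pos t, ?_⟩
    show Real.log (Real.exp t) ∈ Ioo (t - 1) (t - 1 + 2)
    rw [Real.log_exp]; constructor <;> linarith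
  have := ((contMDiffOn_symm_of_mem_maximalAtlas (cm (t - 1))).contMDiffAt
    ((c (t - 1)).open_target.mem_nhds h)).comp t (E_smooth t)
  convert this using 1
  ext u
  show _ = ((Real.log (Real.exp u) : ℝ) : T)
  rw [Real.log_exp]

theorem sec_msmooth (a : ℝ) (z : T) (h : z ≠ a) :
    ContMDiffAt (𝓡∂ 1) 𝓘(ℝ) ∞ (fun z : T => (AddCircle.equivIco 2 a z : ℝ)) z := by
  have := (Es_smooth (c a z) (Real.exp_pos _)).comp z
    ((contMDiffOn_of_mem_maximalAtlas (cm a)).contMDiffAt
      ((c a).open_source.mem_nhds (by rw [c_source]; exact h)))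
  convert this using 1
  ext u
  exact (Real.log_exp _).symm

theorem lift_smooth (D : T → T) (L : ℝ → ℝ) (a : ℝ) (h : ∀ u ∈ Ico a (a + 2), D u = L u)
    (hL : ContDiffOn ℝ 1 L (Ioo a (a + 2))) (z : T) (hz : z ≠ a) :
    ContMDiffAt (𝓡∂ 1) (𝓡∂ 1) 1 D z := by
  have h1 : (AddCircle.equivIco 2 a z : ℝ) ∈ Ioo a (a + 2) :=
    (AddCircle.openPartialHomeomorphCoe 2 a).map_target hz
  have := (coe_smooth.of_le (by norm_num) _).comp z
    ((hL.contDiffAt (isOpen_Ioo.mem_nhds h1)).contMDiffAt.comp z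
      ((sec_msmooth a z hz).of_le (by norm_num)))
  convert this using 1
  ext w
  show D w = ((L (AddCircle.equivIco 2 a w) : ℝ) : T)
  rw [← h _ (AddCircle.equivIco 2 a w).2, AddCircle.coe_equivIco]

noncomputable def refl (F : ℝ → ℝ) (x : ℝ) : ℝ := if 0 ≤ x then F x else 2 * F 0 - F (-x)

theorem refl_smooth (F : ℝ → ℝ) (hF : ContDiffOn ℝ 1 F (Icc 0 1)) :
    ContDiffOn ℝ 1 (refl F) (Ioo (-1) 1) := by
  have hu := uniqueDiffOn_Icc (zero_lt_one' ℝ)
  have hd : ∀ x ∈ Icc (0 : ℝ) 1, HasDerivWithinAt F (derivWithin F (Icc 0 1) x) (Icc 0 1) x :=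
    fun x hx => (hF.differentiableOn one_ne_zero x hx).hasDerivWithinAt
  have hc := hF.continuousOn_derivWithin hu le_rfl
  have h1 : ∀ x ∈ Icc (0 : ℝ) 1,
      HasDerivWithinAt (refl F) (derivWithin F (Icc 0 1) x) (Icc 0 1) x :=
    fun x hx => (hd x hx).congr (fun y hy => if_pos hy.1) (if_pos hx.1)
  have h2 : ∀ x ∈ Icc (-1 : ℝ) 0,
      HasDerivWithinAt (refl F) (derivWithin F (Icc 0 1) (-x)) (Icc (-1) 0) x := by
    intro x hx
    have m : MapsTo (fun y : ℝ => -y) (Icc (-1) 0) (Icc 0 1) :=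
      fun y hy => ⟨by linarith [hy.2], by linarith [hy.1]⟩
    have := ((hd _ (m hx)).comp x (hasDerivWithinAt_neg x _) m).const_sub (2 * F 0)
    have e : ∀ y ∈ Icc (-1 : ℝ) 0, refl F y = 2 * F 0 - F (-y) := by
      intro y hy
      unfold refl
      split_ifs with h
      · rw [le_antisymm hy.2 h, neg_zero]; ring
      · rfl
    simpa using this.congr e (e x hx)
  have h3 : ∀ x ∈ Ioo (-1 : ℝ) 1, HasDerivAt (refl F) (derivWithin F (Icc 0 1) |x|) x := by
    intro x hx
    rcases lt_trichotomy x 0 with h | rfl | h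
    · rw [abs_of_neg h]
      exact (h2 x ⟨hx.1.le, h.le⟩).hasDerivAt (Icc_mem_nhds hx.1 h)
    · have := ((by simpa using h2 0 (by simp) : HasDerivWithinAt (refl F)
        (derivWithin F (Icc 0 1) 0) (Icc (-1) 0) 0).union (h1 0 (by simp)))
      rw [Icc_union_Icc_eq_Icc (by norm_num) (by norm_num)] at this
      simpa using this.hasDerivAt (Icc_mem_nhds hx.1 hx.2)
    · rw [abs_of_pos h]
      exact (h1 x ⟨h.le, hx.2.le⟩).hasDerivAt (Icc_mem_nhds h hx.2)
  rw [contDiffOn_one_iff_derivWithin isOpen_Ioo.uniqueDiffOn]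
  refine ⟨fun x hx => (h3 x hx).differentiableAt.differentiableWithinAt, ?_⟩
  refine (hc.comp continuous_abs.continuousOn
    fun x hx => ⟨abs_nonneg x, (abs_lt.2 hx).le⟩).congr fun x hx => ?_
  rw [derivWithin_of_isOpen isOpen_Ioo hx, (h3 x hx).deriv]; rfl

abbrev J := Icc (0 : ℝ) 1

noncomputable def fold (z : T) : J :=
  ⟨‖z‖, norm_nonneg z, (AddCircle.norm_le_half_period _ two_ne_zero).trans (by norm_num)⟩

theorem fold_coe (s : J) : fold (s : ℝ) = s := Subtype.ext <|
  ((AddCircle.norm_coe_eq_abs_iff (2 : ℝ) two_ne_zero).2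
    (by rw [abs_of_nonneg s.2.1]; simpa using s.2.2)).trans (abs_of_nonneg s.2.1)

theorem fold_neg (z : T) : fold (-z) = fold z := Subtype.ext (norm_neg z)

open Classical in
noncomputable def D (f : J → J) (z : T) : T :=
  if z = (fold z : ℝ) then (f (fold z) : ℝ) else -((f (fold z) : ℝ) : T)

theorem D_coe (f : J → J) (s : J) : D f (s : ℝ) = (f s : ℝ) := by simp [D, fold_coe]

def Ends (f : J → J) : Prop := ∀ s : J, (s = 0 ∨ s = 1) → (f s = 0 ∨ f s = 1)

theorem two_zero : ((2 : ℝ) : T) = 0 := AddCircle.coe_period 2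

theorem neg_end (s : J) (h : s = 0 ∨ s = 1) : -((s : ℝ) : T) = (s : ℝ) := by
  rcases h with rfl | rfl
  · simp
  · rw [neg_eq_iff_add_eq_zero, ← AddCircle.coe_add, ← two_zero]; norm_num

theorem D_neg (f : J → J) (hf : Ends f) (s : J) : D f (-((s : ℝ) : T)) = -((f s : ℝ) : T) := by
  unfold D
  rw [fold_neg, fold_coe]
  split_ifs with h
  · refine (neg_end _ (hf s ?_)).symm
    rw [neg_eq_iff_add_eq_zero, ← AddCircle.coe_add, AddCircle.coe_eq_zero_iff] at h
    obtain ⟨n, hn⟩ := h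
    rw [zsmul_eq_mul] at hn
    have e : (s : ℝ) = n := by linarith
    have h0 : (0 : ℤ) ≤ n := by exact_mod_cast e ▸ s.2.1
    have h1 : n ≤ 1 := by exact_mod_cast e ▸ s.2.2
    interval_cases n
    · exact .inl (Subtype.ext (by simpa using e))
    · exact .inr (Subtype.ext (by simpa using e))
  · rfl

theorem cases_T (z : T) : ∃ s : J, z = (s : ℝ) ∨ z = -((s : ℝ) : T) := by
  obtain ⟨t, ht⟩ : ∃ t : Ico (-1 : ℝ) (-1 + 2), z = (t : ℝ) :=
    ⟨AddCircle.equivIco 2 (-1) z, (AddCircle.coe_equivIco).symm⟩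
  rcases le_total 0 (t : ℝ) with h | h
  · exact ⟨⟨t, h, by linarith [t.2.2]⟩, .inl ht⟩
  · exact ⟨⟨-t, by linarith, by linarith [t.2.1]⟩, .inr (by simp [ht])⟩

theorem ends (f : Equiv.Perm J) (hf : Continuous f) : Ends f := by
  have a0 : ∀ s : J, 0 ≤ s := fun s => s.2.1
  have a1 : ∀ s : J, s ≤ 1 := fun s => s.2.2
  have e := f.apply_symm_apply
  rcases hf.strictMono_of_inj_boundedOrder' f.injective with h | h
  · rintro s (rfl | rfl)
    · exact .inl (le_antisymm ((h.monotone (a0 _)).trans_eq (e 0)) (a0 _))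
    · exact .inr (le_antisymm (a1 _) ((e 1).symm.trans_le (h.monotone (a1 _))))
  · rintro s (rfl | rfl)
    · exact .inr (le_antisymm (a1 _) ((e 1).symm.trans_le (h.antitone (a0 _))))
    · exact .inl (le_antisymm ((h.antitone (a1 _)).trans_eq (e 0)) (a0 _))

theorem D_smooth (f : J → J) (he : Ends f) (hf : ContMDiff (𝓡∂ 1) (𝓡∂ 1) 1 f) :
    ContMDiff (𝓡∂ 1) (𝓡∂ 1) 1 (D f) := by
  let F : ℝ → ℝ := fun x => f (projIcc 0 1 zero_le_one x)
  have hF : ContDiffOn ℝ 1 F (Icc 0 1) :=
    (contMDiff_subtypeVal_Icc.comp_contMDiffOn (hf.comp_contMDiffOn contMDiffOn_projIcc)).contDiffOn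
  have hFs : ∀ s : J, F s = f s := fun s => by simp [F]
  have h2 : ∀ s : J, (s = 0 ∨ s = 1) → ((2 * F s : ℝ) : T) = 0 := fun s hs => by
    rw [hFs, two_mul, AddCircle.coe_add, ← neg_eq_iff_add_eq_zero, neg_end _ (he s hs)]
  intro z
  by_cases hz : z = ((-1 : ℝ) : T)
  · refine lift_smooth _ (fun x => refl (fun y => F (1 - y)) (1 - x)) 0 ?_ ?_ z ?_
    · intro u hu
      unfold refl
      split_ifs with h
      · have := D_coe f ⟨u, hu.1, by linarith⟩
        rw [← hFs] at this
        simpa using this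
      · have := D_neg f he ⟨2 - u, by linarith [hu.2], by linarith⟩
        rw [← hFs, AddCircle.coe_sub, two_zero, zero_sub, neg_neg] at this
        show _ = ((2 * F (1 - 0) - F (1 - -(1 - u)) : ℝ) : T)
        rw [AddCircle.coe_sub, sub_zero, show ((2 * F 1 : ℝ) : T) = 0 from h2 1 (.inr rfl),
          zero_sub, show 1 - -(1 - u) = 2 - u by ring, this]
    · refine (refl_smooth _ (hF.comp (by fun_prop)
        fun y hy => ⟨by linarith [hy.2], by linarith [hy.1]⟩)).comp (by fun_prop)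
        fun y hy => ⟨by linarith [hy.2], by linarith [hy.1]⟩
    · simpa [hz] using one_ne
  · refine lift_smooth _ (refl F) (-1) ?_ (by norm_num; exact refl_smooth F hF) z hz
    intro u hu
    unfold refl
    split_ifs with h
    · have := D_coe f ⟨u, h, by linarith [hu.2]⟩
      rwa [← hFs] at this
    · have := D_neg f he ⟨-u, by linarith, by linarith [hu.1]⟩
      rw [← hFs, AddCircle.coe_neg, neg_neg] at this
      rw [this, AddCircle.coe_sub, show ((2 * F 0 : ℝ) : T) = 0 from h2 0 (.inl rfl), zero_sub]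

theorem no_homeo (e : J ≃ₜ T) : False := by
  let g : J → J := fun s => e.symm (e s + ((1 : ℝ) : T))
  have hg : Continuous g := by fun_prop
  obtain ⟨s, -, hs⟩ := exists_mem_Icc_isFixedPt (a := (0 : J)) (b := 1) hg.continuousOn
    zero_le_one bot_le le_top
  have := congrArg e hs
  simp only [g, Homeomorph.apply_symm_apply, add_eq_left] at this
  exact one_ne this
end

/-- The negation of the preceding statement: For every regularity k≥1 (or ∞) and every compact connected smooth n-manifold M (n≥1, boundary allowed) there is a finitely generated group acting faithfully by C^k diffeomorphisms on a compact connected n-manifold N iff N is C^k-diffeomorphic to M. -/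
theorem result :
    ¬ (∀ (k : ℕ∞), 1 ≤ k →
  ∀ (n : ℕ) [NeZero n] (M : Type) [TopologicalSpace M] [T2Space M] [CompactSpace M]
    [ConnectedSpace M] [ChartedSpace (EuclideanHalfSpace n) M]
    [IsManifold (modelWithCornersEuclideanHalfSpace n) ((⊤ : ℕ∞) : WithTop ℕ∞) M],
  ∃ (G : Type) (_ : Group G), Group.FG G ∧
    ∀ (N : Type) [TopologicalSpace N] [T2Space N] [CompactSpace N] [ConnectedSpace N]
      [ChartedSpace (EuclideanHalfSpace n) N]
      [IsManifold (modelWithCornersEuclideanHalfSpace n) ((⊤ : ℕ∞) : WithTop ℕ∞) N],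
      ((∃ ρ : G →* Equiv.Perm N, Function.Injective ρ ∧
          ∀ g : G, ContMDiff (modelWithCornersEuclideanHalfSpace n)
            (modelWithCornersEuclideanHalfSpace n) (k : WithTop ℕ∞) (ρ g)) ↔
        Nonempty (Diffeomorph (modelWithCornersEuclideanHalfSpace n)
          (modelWithCornersEuclideanHalfSpace n) M N (k : WithTop ℕ∞)))) := by
  intro h
  obtain ⟨G, _, -, hG⟩ := h 1 le_rfl 1 J
  obtain ⟨ρ, hρ, hs⟩ := (hG J).2 ⟨Diffeomorph.refl _ _ _⟩
  have he : ∀ g, Ends (ρ g) := fun g => ends _ (hs g).continuous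
  let φ : G →* Function.End T :=
    { toFun := fun g => D (ρ g)
      map_one' := funext fun z => by
        show D _ z = z
        obtain ⟨s, rfl | rfl⟩ := cases_T z
        · rw [D_coe]; simp
        · rw [D_neg _ (he _)]; simp
      map_mul' := fun a b => funext fun z => by
        show D _ z = D _ (D _ z)
        obtain ⟨s, rfl | rfl⟩ := cases_T z
        · simp [D_coe]
        · rw [D_neg _ (he _), D_neg _ (he _), D_neg _ (he _)]; simp }
  refine ((hG T).1 ⟨φ.toHomPerm, (injective_iff_map_eq_one _).2 fun g hg => ?_,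
    fun g => D_smooth _ (he g) (hs g)⟩).elim fun e => no_homeo e.toHomeomorph
  · refine hρ ((Equiv.ext fun s => ?_).trans (map_one ρ).symm)
    have : D (ρ g) (s : ℝ) = (s : ℝ) := congrArg (fun p : Equiv.Perm T => p (s : ℝ)) hg
    rw [D_coe] at this
    simpa [fold_coe] using congrArg fold this

end Pool.Agent.S02968
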