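import Pool.Statements.S03022
import Pool.Agent.Lib.helper4.FreePart

set_option autoImplicit false
open scoped Pointwise
open Pool Pool.MP_c8ecde_al

namespace Pool.Agent.S03022

/-- The negation of the preceding statement: For every group G and every partition of G into n cells, some cell A satisfies G = F·A·A⁻¹·F⁻¹ for some finite set F ⊆ G with at most n elements. -/
theorem result :
    ¬ (∀ (G : Type) [Group G] (n : ℕ) (A : Fin n → Set G),
      (∀ i j, i ≠ j → Disjoint (A i) (A j)) →
      (⋃ i, A i) = Set.univ →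
      ∃ i : Fin n, ∃ F : Finset G, F.card ≤ n ∧
        (F : Set G) * A i * (A i)⁻¹ * (F : Set G)⁻¹ = Set.univ) := by
  intro h
  classical
  obtain ⟨c, h1, -⟩ := Pool.Agent.H4Free.main
  obtain ⟨i, F, hF, e⟩ := h _ 7 (fun i => {g | c g = i})
    (fun i j hij => Set.disjoint_left.2 fun x (a : c x = i) (b : c x = j) =>
      hij (a.symm.trans b)) (by ext x; simp)
  obtain ⟨t, ht⟩ := h1 i F (F.image (·⁻¹)) hF (Finset.card_image_le.trans hF)
  obtain ⟨_, ⟨_, ⟨f, hf, a, ha, rfl⟩, b, hb, rfl⟩, y, hy, e'⟩ := e ▸ Set.mem_univ t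
  exact ht f hf y (Finset.mem_image.2 ⟨y⁻¹, hy, inv_inv y⟩) a b⁻¹ ha hb
    (by simpa using e'.symm)

end Pool.Agent.S03022
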