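import Pool.Statements.S03041
-- import your own Pool.Agent.* helpers here

set_option autoImplicit false
open Pool Pool.MP_c9c98b_al

namespace Pool.Agent.S03041

open scoped commutatorElement
open Polynomial

/-! ### `b` dies in nilpotent groups -/

lemma b_dies {H : Type} [Group H] (hH : Group.IsNilpotent H) (a s z b : H)
    (h1 : s * a ^ 3 * s⁻¹ * a ^ 3 = z) (h2 : z * a = b * a * z) (h3 : Commute s z)
    (h4 : Commute b a) (h5 : Commute b z) (h6 : b ^ 3 = 1) : b = 1 := by
  have hz : ∀ m : ℕ, z ^ m * a = b ^ m * a * z ^ m := by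
    intro m
    induction m with
    | zero => simp
    | succ m ih =>
      rw [pow_succ' z, mul_assoc, ih, ← mul_assoc, ← mul_assoc, ← (h5.pow_left m).eq, mul_assoc (b ^ m),
        h2, pow_succ b]
      simp only [mul_assoc]
  have hza : z * a * z⁻¹ = b * a := by rw [h2]; group
  have htz : Commute z (a ^ 3) := by
    have := conj_pow (i := 3) (a := z) (b := a)
    rw [hza, h4.mul_pow, h6, one_mul] at this
    exact mul_inv_eq_iff_eq_mul.1 this.symm
  set t := a ^ 3 with ht
  set u := z * t⁻¹ * t⁻¹ with hu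
  have hst : s * t⁻¹ * s⁻¹ = t * z⁻¹ := by rw [← h1]; group
  have hsu : s * u * s⁻¹ = u⁻¹ := by
    calc s * u * s⁻¹ = (s * z * s⁻¹) * (s * t⁻¹ * s⁻¹) * (s * t⁻¹ * s⁻¹) := by rw [hu]; group
      _ = (z * t) * z⁻¹ * (t * z⁻¹) := by rw [hst, h3.eq]; group
      _ = u⁻¹ := by rw [htz.eq, hu]; simp [mul_assoc]
  have hγ : ∀ n : ℕ, u ^ (2 ^ n) ∈ (⊤ : Subgroup H).lowerCentralSeries n := by
    intro n
    induction n with
    | zero => simp
    | succ n ih =>
      rw [Subgroup.lowerCentralSeries_succ]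
      have := Subgroup.commutator_mem_commutator ih (Subgroup.mem_top s)
      convert this using 1
      have h7 : s * (u ^ 2 ^ n)⁻¹ * s⁻¹ = u ^ 2 ^ n := by
        rw [← inv_pow, ← conj_pow, ← conj_inv, hsu, inv_inv]
      rw [commutatorElement_def, mul_assoc, mul_assoc, ← mul_assoc s, h7, ← pow_add, pow_succ, mul_two]
  obtain ⟨n, hn⟩ := Subgroup.nilpotent_iff_lowerCentralSeries.1 hH
  have h8 := hγ n
  rw [hn, Subgroup.mem_bot, hu, mul_assoc, (htz.inv_right.mul_right htz.inv_right).mul_pow,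
    mul_eq_one_iff_eq_inv] at h8
  have hta : Commute t a := by rw [ht]; exact (Commute.refl a).pow_left 3
  have h9 : Commute (z ^ 2 ^ n) a := by
    rw [h8]; exact ((hta.inv_left.mul_left hta.inv_left).pow_left _).inv_left
  have h10 := hz (2 ^ n)
  rw [h9.eq, mul_left_inj, eq_comm, mul_eq_right] at h10
  have := Nat.dvd_gcd (orderOf_dvd_of_pow_eq_one h10) (orderOf_dvd_of_pow_eq_one h6)
  rw [Nat.Coprime.gcd_eq_one (Nat.Coprime.pow_left n (by norm_num)), Nat.dvd_one] at this
  exact orderOf_eq_one_iff.1 this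

/-! ### The groups -/

def rG : FreeGroup (Fin 2) :=
  FreeGroup.of 1 * FreeGroup.of 0 ^ 3 * (FreeGroup.of 1)⁻¹ * FreeGroup.of 0 ^ 3

abbrev GG := PresentedGroup ({rG} : Set (FreeGroup (Fin 2)))

def ga : GG := PresentedGroup.of 0
def gs : GG := PresentedGroup.of 1

lemma relG : gs * ga ^ 3 * gs⁻¹ * ga ^ 3 = 1 := by
  have := PresentedGroup.one_of_mem (rels := ({rG} : Set (FreeGroup (Fin 2)))) (x := rG) rfl
  rw [rG, map_mul, map_mul, map_mul, map_pow, map_inv] at this
  exact this

def liftG {H : Type} [Group H] (a s : H) (h : s * a ^ 3 * s⁻¹ * a ^ 3 = 1) : GG →* H :=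
  PresentedGroup.toGroup (f := ![a, s]) (by
    rintro r rfl
    simpa [rG] using h)

@[simp] lemma liftG_a {H : Type} [Group H] (a s : H) (h) : liftG a s h ga = a :=
  PresentedGroup.toGroup.of _
@[simp] lemma liftG_s {H : Type} [Group H] (a s : H) (h) : liftG a s h gs = s :=
  PresentedGroup.toGroup.of _

lemma extG {H : Type} [Group H] (φ ψ : GG →* H) (h1 : φ ga = ψ ga) (h2 : φ gs = ψ gs) : φ = ψ :=
  PresentedGroup.ext fun x => by fin_cases x; exacts [h1, h2]

def fa : FreeGroup (Fin 4) := FreeGroup.of 0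
def fs : FreeGroup (Fin 4) := FreeGroup.of 1
def fz : FreeGroup (Fin 4) := FreeGroup.of 2
def fb : FreeGroup (Fin 4) := FreeGroup.of 3

def rE : Set (FreeGroup (Fin 4)) :=
  {fs * fa ^ 3 * fs⁻¹ * fa ^ 3 * fz⁻¹, fz * fa * (fb * fa * fz)⁻¹, fs * fz * (fz * fs)⁻¹,
    fb * fa * (fa * fb)⁻¹, fb * fs * (fs * fb)⁻¹, fb * fz * (fz * fb)⁻¹, fb ^ 3}

abbrev EE := PresentedGroup rE

def ea : EE := PresentedGroup.of 0
def es : EE := PresentedGroup.of 1
def ez : EE := PresentedGroup.of 2
def eb : EE := PresentedGroup.of 3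

lemma relE : es * ea ^ 3 * es⁻¹ * ea ^ 3 = ez ∧ ez * ea = eb * ea * ez ∧ Commute es ez ∧
    Commute eb ea ∧ Commute eb es ∧ Commute eb ez ∧ eb ^ 3 = 1 := by
  have h := fun x hx => PresentedGroup.one_of_mem (rels := rE) (x := x) hx
  refine ⟨?_, ?_, ?_, ?_, ?_, ?_, ?_⟩
  · have := h _ (by simp [rE] : fs * fa ^ 3 * fs⁻¹ * fa ^ 3 * fz⁻¹ ∈ rE)
    rw [map_mul, map_inv, mul_inv_eq_one] at this
    simp only [map_mul, map_inv, map_pow] at this
    exact this
  · have := h _ (by simp [rE] : fz * fa * (fb * fa * fz)⁻¹ ∈ rE)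
    rw [map_mul, map_inv, mul_inv_eq_one] at this
    simp only [map_mul, map_inv, map_pow] at this
    exact this
  · have := h _ (by simp [rE] : fs * fz * (fz * fs)⁻¹ ∈ rE)
    rw [map_mul, map_inv, mul_inv_eq_one] at this
    simp only [map_mul, map_inv, map_pow] at this
    exact this
  · have := h _ (by simp [rE] : fb * fa * (fa * fb)⁻¹ ∈ rE)
    rw [map_mul, map_inv, mul_inv_eq_one] at this
    simp only [map_mul, map_inv, map_pow] at this
    exact this
  · have := h _ (by simp [rE] : fb * fs * (fs * fb)⁻¹ ∈ rE)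
    rw [map_mul, map_inv, mul_inv_eq_one] at this
    simp only [map_mul, map_inv, map_pow] at this
    exact this
  · have := h _ (by simp [rE] : fb * fz * (fz * fb)⁻¹ ∈ rE)
    rw [map_mul, map_inv, mul_inv_eq_one] at this
    simp only [map_mul, map_inv, map_pow] at this
    exact this
  · have := h _ (by simp [rE] : fb ^ 3 ∈ rE)
    rw [map_pow] at this
    exact this

def liftE {H : Type} [Group H] (a s z b : H)
    (h : s * a ^ 3 * s⁻¹ * a ^ 3 = z ∧ z * a = b * a * z ∧ s * z = z * s ∧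
      b * a = a * b ∧ b * s = s * b ∧ b * z = z * b ∧ b ^ 3 = 1) : EE →* H :=
  PresentedGroup.toGroup (f := ![a, s, z, b]) (by
    obtain ⟨h1, h2, h3, h4, h5, h6, h7⟩ := h
    intro r hr
    simp only [rE, Set.mem_insert_iff, Set.mem_singleton_iff] at hr
    rcases hr with rfl | rfl | rfl | rfl | rfl | rfl | rfl <;>
      simp only [map_mul, map_inv, map_pow, mul_inv_eq_one, fa, fs, fz, fb, FreeGroup.lift_apply_of] <;>
      assumption)

@[simp] lemma liftE_a {H : Type} [Group H] (a s z b : H) (h) : liftE a s z b h ea = a :=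
  PresentedGroup.toGroup.of _
@[simp] lemma liftE_s {H : Type} [Group H] (a s z b : H) (h) : liftE a s z b h es = s :=
  PresentedGroup.toGroup.of _
@[simp] lemma liftE_z {H : Type} [Group H] (a s z b : H) (h) : liftE a s z b h ez = z :=
  PresentedGroup.toGroup.of _
@[simp] lemma liftE_b {H : Type} [Group H] (a s z b : H) (h) : liftE a s z b h eb = b :=
  PresentedGroup.toGroup.of _

lemma extE {H : Type} [Group H] (φ ψ : EE →* H) (h1 : φ ea = ψ ea) (h2 : φ es = ψ es)
    (h3 : φ ez = ψ ez) (h4 : φ eb = ψ eb) : φ = ψ :=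
  PresentedGroup.ext fun x => by fin_cases x; exacts [h1, h2, h3, h4]

lemma genE (H : Subgroup EE) (h1 : ea ∈ H) (h2 : es ∈ H) (h3 : ez ∈ H) (h4 : eb ∈ H) (x : EE) :
    x ∈ H := PresentedGroup.generated_by rE H (fun j => by fin_cases j; exacts [h1, h2, h3, h4]) x

/-! ### The finite model -/

abbrev Pt := Fin 3 × Fin 3 × Fin 3 × Fin 3

def pa : Equiv.Perm Pt where
  toFun x := (x.1 - x.2.1, x.2.1, x.2.2.1 + (if x.2.2.2 = 2 then 1 else 0), x.2.2.2 + 1)
  invFun x := (x.1 + x.2.1, x.2.1, x.2.2.1 - (if x.2.2.2 = 0 then 1 else 0), x.2.2.2 - 1)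
  left_inv := by decide
  right_inv := by decide

def ps : Equiv.Perm Pt where
  toFun x := (x.1, x.2.1 + x.2.2.1, -x.2.2.1, x.2.2.2)
  invFun x := (x.1, x.2.1 + x.2.2.1, -x.2.2.1, x.2.2.2)
  left_inv := by decide
  right_inv := by decide

def pz : Equiv.Perm Pt where
  toFun x := (x.1, x.2.1 + 1, x.2.2.1, x.2.2.2)
  invFun x := (x.1, x.2.1 - 1, x.2.2.1, x.2.2.2)
  left_inv := by decide
  right_inv := by decide

def pb : Equiv.Perm Pt where
  toFun x := (x.1 + 1, x.2.1, x.2.2.1, x.2.2.2)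
  invFun x := (x.1 - 1, x.2.1, x.2.2.1, x.2.2.2)
  left_inv := by decide
  right_inv := by decide

lemma model : ps * pa ^ 3 * ps⁻¹ * pa ^ 3 = pz ∧ pz * pa = pb * pa * pz ∧ ps * pz = pz * ps ∧
      pb * pa = pa * pb ∧ pb * ps = ps * pb ∧ pb * pz = pz * pb ∧ pb ^ 3 = 1 := by
  simp only [pow_three]
  refine ⟨?_, ?_, ?_, ?_, ?_, ?_, ?_⟩ <;> apply Equiv.ext <;> decide

lemma eb_ne : eb ≠ 1 := by
  intro h
  have := liftE_b pa ps pz pb model
  rw [h, map_one] at this
  exact absurd (congrArg (fun π : Equiv.Perm Pt => π (0, 0, 0, 0)) this) (by decide)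

lemma eb_central : eb ∈ Subgroup.center EE := by
  obtain ⟨-, -, -, h4, h5, h6, -⟩ := relE
  rw [Subgroup.mem_center_iff]
  intro g
  have := genE (Subgroup.centralizer {eb}) (by simpa [Subgroup.mem_centralizer_iff] using h4.eq)
    (by simpa [Subgroup.mem_centralizer_iff] using h5.eq)
    (by simpa [Subgroup.mem_centralizer_iff] using h6.eq)
    (by simp [Subgroup.mem_centralizer_iff]) g
  exact (this eb rfl).symm

def NB : Subgroup EE := Subgroup.normalClosure {eb}
instance : NB.Normal := Subgroup.normalClosure_normal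

lemma NB_le : NB ≤ Subgroup.center EE :=
  Subgroup.normalClosure_le_normal (by simpa using eb_central)

def piE : EE →* GG := liftE ga gs 1 1 (by simp [relG])

def f1 : EE ⧸ NB →* GG := QuotientGroup.lift NB piE (by
  apply Subgroup.normalClosure_le_normal
  simp [piE])

lemma piE_surj : Function.Surjective piE := by
  intro g
  exact PresentedGroup.generated_by _ piE.range
    (fun j => by fin_cases j; exacts [⟨ea, liftE_a ..⟩, ⟨es, liftE_s ..⟩]) g

lemma f1_ker : f1.ker ≤ Subgroup.center (EE ⧸ NB) := by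
  obtain ⟨h1, h2, h3, h4, h5, h6, -⟩ := relE
  let π := QuotientGroup.mk' NB
  have hb : π eb = 1 := (QuotientGroup.eq_one_iff _).2 (Subgroup.subset_normalClosure rfl)
  have hz : π ez ∈ Subgroup.center (EE ⧸ NB) := by
    rw [Subgroup.mem_center_iff]
    intro g
    obtain ⟨g, rfl⟩ := QuotientGroup.mk'_surjective NB g
    have := genE ((Subgroup.centralizer {π ez}).comap π) (by
        simp only [Subgroup.mem_comap, Subgroup.mem_centralizer_iff, Set.mem_singleton_iff, forall_eq]
        rw [← map_mul, h2, map_mul, map_mul, hb, one_mul])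
      (by
        simp only [Subgroup.mem_comap, Subgroup.mem_centralizer_iff, Set.mem_singleton_iff, forall_eq]
        rw [← map_mul, ← h3.eq, map_mul])
      (by simp [Subgroup.mem_centralizer_iff])
      (by rw [Subgroup.mem_comap, hb]; exact Subgroup.one_mem _) g
    exact (this _ rfl).symm
  let N : Subgroup EE := (Subgroup.center (EE ⧸ NB)).comap π
  let q := QuotientGroup.mk' N
  have hq : q ez = 1 := (QuotientGroup.eq_one_iff _).2 hz
  have hqb : q eb = 1 := (QuotientGroup.eq_one_iff _).2 (by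
    rw [Subgroup.mem_comap, hb]; exact Subgroup.one_mem _)
  let ψ : GG →* EE ⧸ N := liftG (q ea) (q es) (by
    rw [← hq, ← h1]; simp)
  have hψ : ψ.comp piE = q := extE _ _ (by simp [ψ, piE]) (by simp [ψ, piE]) (by simp [piE, hq])
    (by simp [piE, hqb])
  intro x hx
  obtain ⟨x, rfl⟩ := QuotientGroup.mk'_surjective NB x
  have hx' : piE x = 1 := hx
  have : q x = 1 := by rw [← hψ, MonoidHom.comp_apply, hx', map_one]
  exact (QuotientGroup.eq_one_iff (N := N) _).1 this

/-! ### Central extensions of `G` meet the commutator subgroup trivially -/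

lemma ker_comm {E : Type} [Group E] (f : E →* GG) (hf : Function.Surjective f)
    (hc : f.ker ≤ Subgroup.center E) (g : E) (hg : f g = 1) (hg' : g ∈ commutator E) : g = 1 := by
  choose l hl using fun i : Fin 2 => hf (PresentedGroup.of i)
  let p : FreeGroup (Fin 2) →* E := FreeGroup.lift l
  have hp : f.comp p = PresentedGroup.mk _ := FreeGroup.ext_hom _ _ fun i => by
    simp [p, hl]; rfl
  have hp' : ∀ w, f (p w) = PresentedGroup.mk _ w := fun w => DFunLike.congr_fun hp w
  let ex : FreeGroup (Fin 2) →* Multiplicative ℤ :=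
    FreeGroup.lift ![Multiplicative.ofAdd 1, 1]
  have hdec : ∀ x : E, ∃ w, ∃ c ∈ Subgroup.center E, x = p w * c := by
    intro x
    obtain ⟨w, hw⟩ := PresentedGroup.mk_surjective _ (f x)
    refine ⟨w, (p w)⁻¹ * x, hc ?_, by group⟩
    rw [MonoidHom.mem_ker, map_mul, map_inv, hp', hw, inv_mul_cancel]
  have h1 : commutator E ≤ (commutator (FreeGroup (Fin 2))).map p := by
    rw [commutator_def, Subgroup.commutator_le]
    intro x _ y _
    obtain ⟨w, c, hc, rfl⟩ := hdec x
    obtain ⟨w', c', hc', rfl⟩ := hdec y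
    refine ⟨⁅w, w'⁆, Subgroup.commutator_mem_commutator trivial trivial, ?_⟩
    rw [map_commutatorElement, commutatorElement_def, commutatorElement_def]
    rw [Subgroup.mem_center_iff] at hc hc'
    calc p w * p w' * (p w)⁻¹ * (p w')⁻¹
        = p w * ((p w' * c') * c) * c⁻¹ * (c'⁻¹ * (p w)⁻¹) * (p w')⁻¹ := by group
      _ = _ := by
        rw [hc (p w' * c')]
        have : c'⁻¹ * (p w)⁻¹ = (p w)⁻¹ * c'⁻¹ := by rw [← mul_inv_rev, hc', mul_inv_rev]
        rw [this]; group
  obtain ⟨w, hw, rfl⟩ := h1 hg'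
  have hcen : p rG ∈ Subgroup.center E := hc (by
    rw [MonoidHom.mem_ker, hp']; exact PresentedGroup.one_of_mem rfl)
  have h2 : ∀ w ∈ Subgroup.normalClosure ({rG} : Set (FreeGroup (Fin 2))),
      ∃ k : ℤ, p w = p rG ^ k ∧ ex w = Multiplicative.ofAdd (6 * k) := by
    intro w hw
    induction hw using Subgroup.closure_induction with
    | mem z hz =>
      obtain ⟨x, rfl, hz⟩ := Group.mem_conjugatesOfSet_iff.1 hz
      obtain ⟨c, rfl⟩ := isConj_iff.1 hz
      refine ⟨1, ?_, ?_⟩
      · rw [map_mul, map_mul, Subgroup.mem_center_iff.1 hcen, map_inv]; simp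
      · rw [map_mul, map_mul, map_inv, mul_inv_cancel_comm]
        simp [ex, rG]; rfl
    | one => exact ⟨0, by simp⟩
    | mul x y _ _ hx hy =>
      obtain ⟨k, h1, h2⟩ := hx
      obtain ⟨k', h1', h2'⟩ := hy
      exact ⟨k + k', by rw [map_mul, h1, h1', zpow_add], by rw [map_mul, h2, h2', mul_add, ofAdd_add]⟩
    | inv x _ hx =>
      obtain ⟨k, h1, h2⟩ := hx
      exact ⟨-k, by rw [map_inv, h1, zpow_neg], by rw [map_inv, h2, mul_neg, ofAdd_neg]⟩
  rw [hp', PresentedGroup.mk_eq_one_iff] at hg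
  obtain ⟨k, h3, h4⟩ := h2 w hg
  have h5 : ex w = 1 := Abelianization.commutator_subset_ker ex hw
  rw [h5] at h4
  have : k = 0 := by
    have := congrArg Multiplicative.toAdd h4
    simp at this; omega
  rw [h3, this, zpow_zero]

/-! ### Ping-pong -/

abbrev PP := (ZMod 3)[X]
abbrev MM := Matrix (Fin 2) (Fin 2) PP

noncomputable instance : MulAction MMˣ (Fin 2 → PP) where
  smul g v := g.val.mulVec v
  one_smul v := Matrix.one_mulVec v
  mul_smul g h v := (Matrix.mulVec_mulVec v g.val h.val).symm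

lemma smul_def (g : MMˣ) (v : Fin 2 → PP) : g • v = g.val.mulVec v := rfl

noncomputable def par (N : MM) (hN : N * N = 0) : Multiplicative (ZMod 3) →* MMˣ :=
  MonoidHom.toHomUnits
    { toFun := fun k => 1 + (C k.toAdd * X : PP) • N
      map_one' := by simp
      map_mul' := fun a b => by
        simp [add_mul, mul_add, hN, add_smul, smul_smul]; abel }

lemma par_val (N : MM) (hN) (k) : (par N hN k).val = 1 + (C k.toAdd * X : PP) • N := rfl

noncomputable def Na : MM := !![0, 1; 0, 0]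
noncomputable def Nc : MM := !![0, 0; 1, 0]
noncomputable def Nd : MM := !![1, -1; 1, -1]
lemma hNa : Na * Na = 0 := by ext i j; fin_cases i <;> fin_cases j <;> simp [Na, Matrix.mul_apply]
lemma hNc : Nc * Nc = 0 := by ext i j; fin_cases i <;> fin_cases j <;> simp [Nc, Matrix.mul_apply]
lemma hNd : Nd * Nd = 0 := by ext i j; fin_cases i <;> fin_cases j <;> simp [Nd, Matrix.mul_apply]

def Xa : Set (Fin 2 → PP) := {v | (v 1).degree < (v 0).degree}
def Xc : Set (Fin 2 → PP) := {v | (v 0).degree < (v 1).degree}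
def Xd : Set (Fin 2 → PP) := {v | (v 0 - v 1).degree < (v 0).degree}

lemma deg_step (f g : PP) (k : ZMod 3) (hk : k ≠ 0) (hg : g ≠ 0) (h : f.degree ≤ g.degree) :
    g.degree < (f + C k * X * g).degree := by
  have h1 : g.degree < (C k * X * g).degree := by
    rw [mul_assoc, degree_C_mul hk, mul_comm]; exact degree_lt_degree_mul_X hg
  rwa [degree_add_eq_right_of_degree_lt (h.trans_lt h1)]

lemma Xd_eq {v : Fin 2 → PP} (h : v ∈ Xd) : (v 1).degree = (v 0).degree ∧ v 0 ≠ 0 ∧ v 1 ≠ 0 := by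
  have h' : (v 0 - v 1).degree < (v 0).degree := h
  have h1 : (v 1).degree = (v 0).degree := by
    have := degree_sub_eq_left_of_degree_lt h'
    simpa using this
  have h2 : v 0 ≠ 0 := by intro h0; rw [h0] at h'; simp at h'
  refine ⟨h1, h2, fun h0 => h2 ?_⟩
  rw [h0, degree_zero, eq_comm, degree_eq_bot] at h1; exact h1

lemma ne0 {f g : PP} (h : f.degree < g.degree) : g ≠ 0 := by
  rintro rfl; simp at h

lemma step_a (k) (hk : k ≠ 1) (v) (hv : v ∈ Xc ∪ Xd) : par Na hNa k • v ∈ Xa := by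
  have h : v 1 ≠ 0 ∧ (v 0).degree ≤ (v 1).degree := by
    rcases hv with hv | hv
    · exact ⟨ne0 hv, le_of_lt hv⟩
    · exact ⟨(Xd_eq hv).2.2, (Xd_eq hv).1.ge⟩
  have := deg_step (v 0) (v 1) k.toAdd hk h.1 h.2
  simpa [Xa, smul_def, par_val, Na, Matrix.mulVec, dotProduct, Fin.sum_univ_two] using this

lemma step_c (k) (hk : k ≠ 1) (v) (hv : v ∈ Xa ∪ Xd) : par Nc hNc k • v ∈ Xc := by
  have h : v 0 ≠ 0 ∧ (v 1).degree ≤ (v 0).degree := by
    rcases hv with hv | hv
    · exact ⟨ne0 hv, le_of_lt hv⟩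
    · exact ⟨(Xd_eq hv).2.1, (Xd_eq hv).1.le⟩
  have := deg_step (v 1) (v 0) k.toAdd hk h.1 h.2
  simpa [Xc, smul_def, par_val, Nc, Matrix.mulVec, dotProduct, Fin.sum_univ_two, add_comm] using this

lemma step_d (k) (hk : k ≠ 1) (v) (hv : v ∈ Xa ∪ Xc) : par Nd hNd k • v ∈ Xd := by
  have h : v 0 - v 1 ≠ 0 ∧ (v 0).degree ≤ (v 0 - v 1).degree := by
    rcases hv with hv | hv
    · have := degree_sub_eq_left_of_degree_lt (show (v 1).degree < (v 0).degree from hv)
      refine ⟨ne0 (f := v 1) (by rw [this]; exact hv), this.ge⟩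
    · have := degree_sub_eq_right_of_degree_lt (show (v 0).degree < (v 1).degree from hv)
      refine ⟨ne0 (f := v 0) (by rw [this]; exact hv), by rw [this]; exact le_of_lt hv⟩
  have := deg_step (v 0) (v 0 - v 1) k.toAdd hk h.1 h.2
  have e0 : (par Nd hNd k • v) 0 = v 0 + C k.toAdd * X * (v 0 - v 1) := by
    simp [smul_def, par_val, Nd, Matrix.mulVec, dotProduct, Fin.sum_univ_two]; ring
  have e1 : (par Nd hNd k • v) 1 = v 1 + C k.toAdd * X * (v 0 - v 1) := by
    simp [smul_def, par_val, Nd, Matrix.mulVec, dotProduct, Fin.sum_univ_two]; ring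
  show degree (_ - _) < degree _
  rw [e0, e1, add_sub_add_right_eq_sub]
  exact this

def one3 : Multiplicative (ZMod 3) := Multiplicative.ofAdd 1

noncomputable def sM : MMˣ := par Nc hNc one3 * par Nd hNd one3

lemma step_s (j : ℤ) (hj : j ≠ 0) (v) (hv : v ∈ Xa) : sM ^ j • v ∈ Xc ∪ Xd := by
  have h1 : ∀ n : ℕ, sM ^ (n + 1) • v ∈ Xc := by
    have : ∀ w ∈ Xa ∪ Xc, sM • w ∈ Xc := fun w hw => by
      rw [sM, mul_smul]
      exact step_c _ (by decide) _ (Or.inr (step_d _ (by decide) _ hw))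
    intro n
    induction n with
    | zero => simpa using this v (Or.inl hv)
    | succ n ih => rw [pow_succ', mul_smul]; exact this _ (Or.inr ih)
  have h2 : ∀ n : ℕ, sM⁻¹ ^ (n + 1) • v ∈ Xd := by
    have : ∀ w ∈ Xa ∪ Xd, sM⁻¹ • w ∈ Xd := fun w hw => by
      rw [sM, mul_inv_rev, mul_smul, ← map_inv, ← map_inv]
      exact step_d _ (by decide) _ (Or.inr (step_c _ (by decide) _ hw))
    intro n
    induction n with
    | zero => simpa using this v (Or.inl hv)
    | succ n ih => rw [pow_succ', mul_smul]; exact this _ (Or.inr ih)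
  rcases j with (_ | n) | n
  · exact absurd rfl hj
  · left; rw [Int.ofNat_eq_natCast, zpow_natCast]; exact h1 n
  · right; rw [zpow_negSucc, ← inv_pow]; exact h2 n

def HH : Bool → Type
  | true => Multiplicative (ZMod 3)
  | false => Multiplicative ℤ

instance : ∀ i, Group (HH i)
  | true => inferInstanceAs (Group (Multiplicative (ZMod 3)))
  | false => inferInstanceAs (Group (Multiplicative ℤ))

noncomputable def ff : ∀ i, HH i →* MMˣ
  | true => par Na hNa
  | false => zpowersHom _ sM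

def XX : Bool → Set (Fin 2 → PP)
  | true => Xa
  | false => Xc ∪ Xd

lemma pp_inj : Function.Injective (Monoid.CoprodI.lift ff) := by
  have hdisj : Disjoint Xa (Xc ∪ Xd) := by
    rw [Set.disjoint_left]
    rintro v hv (h | h)
    · exact lt_asymm (show (v 1).degree < (v 0).degree from hv) h
    · exact (show (v 1).degree < (v 0).degree from hv).ne (Xd_eq h).1
  apply Monoid.CoprodI.lift_injective_of_ping_pong ff _ XX
  · rintro (_ | _)
    · exact ⟨![0, 1], Or.inl (by simp [Xc])⟩
    · exact ⟨![1, 0], by simp [XX, Xa]⟩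
  · rintro (_ | _) (_ | _) h
    · exact absurd rfl h
    · exact hdisj.symm
    · exact hdisj
    · exact absurd rfl h
  · rintro (_ | _) (_ | _) h
    · exact absurd rfl h
    · rintro k hk _ ⟨v, hv, rfl⟩
      exact step_s (Multiplicative.toAdd (k : Multiplicative ℤ)) hk v hv
    · rintro k hk _ ⟨v, hv, rfl⟩
      exact step_a k hk v hv
    · exact absurd rfl h
  · right
    refine ⟨true, ?_⟩
    show 3 ≤ Cardinal.mk (Multiplicative (ZMod 3))
    simp

/-! ### Residual nilpotence -/

def CongX : Subgroup MMˣ where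
  carrier := {g | ∃ N : MM, g.val = 1 + (X : PP) • N}
  one_mem' := ⟨0, by simp⟩
  mul_mem' := by
    rintro a b ⟨N, hN⟩ ⟨M, hM⟩
    refine ⟨N + M + (X : PP) • (N * M), ?_⟩
    rw [Units.val_mul, hN, hM]
    simp only [add_mul, mul_add, smul_add, one_mul, mul_one, smul_mul_assoc, mul_smul_comm]; abel
  inv_mem' := by
    rintro a ⟨N, hN⟩
    refine ⟨-(N * (a⁻¹).val), ?_⟩
    have : a.val * (a⁻¹).val = 1 := a.mul_inv
    rw [hN, add_mul, one_mul, smul_mul_assoc] at this
    rw [smul_neg, ← sub_eq_add_neg, eq_sub_iff_add_eq, this]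

lemma par_mem (N hN k) : par N hN k ∈ CongX :=
  ⟨(C k.toAdd : PP) • N, by rw [par_val, smul_smul, mul_comm]⟩

lemma congX_sep {G : Type} [Group G] (ρ : G →* MMˣ) (hρ : ∀ g, ρ g ∈ CongX) (g : G) (hg : ρ g ≠ 1) :
    ∃ (H : Type) (_ : Group H) (φ : G →* H), Group.IsNilpotent H ∧ φ g ≠ 1 := by
  have h1 : ∃ i j, ((ρ g).val - 1) i j ≠ 0 := by
    by_contra h
    push Not at h
    apply hg
    ext1
    exact sub_eq_zero.1 (Matrix.ext h)
  obtain ⟨i, j, hij⟩ := h1
  set n := (((ρ g).val - 1) i j).natDegree + 1 with hn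
  let R := AdjoinRoot (X ^ n : PP)
  have hfin : Finite R := by
    have : Module.Finite (ZMod 3) R := (AdjoinRoot.powerBasis' (monic_X_pow n)).finite
    exact Module.finite_of_finite (ZMod 3)
  let π : PP →+* R := AdjoinRoot.mk _
  let ψ : G →* (Matrix (Fin 2) (Fin 2) R)ˣ := (Units.map (π.mapMatrix : MM →+* _).toMonoidHom).comp ρ
  have hp : IsPGroup 3 ψ.range := by
    rintro ⟨_, x, rfl⟩
    refine ⟨n, Subtype.ext (Units.ext ?_)⟩
    obtain ⟨N, hN⟩ := hρ x
    show π.mapMatrix (ρ x).val ^ 3 ^ n = 1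
    rw [← map_pow, hN]
    obtain ⟨r, hr⟩ := (Commute.one_left ((X : PP) • N)).exists_add_pow_prime_pow_eq Nat.prime_three n
    have h3 : ((3 : ℕ) : MM) = 0 := by
      have : ((3 : ℕ) : PP) = 0 := CharP.cast_eq_zero PP 3
      rw [← map_natCast (algebraMap PP MM), this, map_zero]
    rw [hr, h3]
    simp only [one_pow, zero_mul, add_zero, map_add, map_one, add_eq_left, _root_.smul_pow]
    ext a b
    obtain ⟨m, hm⟩ := Nat.exists_eq_add_of_le (Nat.lt_pow_self (by norm_num : 1 < 3) (n := n)).le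
    simp only [RingHom.mapMatrix_apply, Matrix.map_apply, Matrix.smul_apply, smul_eq_mul, Matrix.zero_apply]
    have h0 : π (X ^ n) = 0 := AdjoinRoot.mk_self
    rw [hm, pow_add (X : PP) n m, mul_assoc, map_mul, h0, zero_mul]
  have : Fact (Nat.Prime 3) := ⟨Nat.prime_three⟩
  refine ⟨ψ.range, inferInstance, ψ.rangeRestrict, hp.isNilpotent, fun h => hij ?_⟩
  have h2 : π.mapMatrix ((ρ g).val - 1) = 0 := by
    rw [map_sub, map_one, sub_eq_zero]
    exact congrArg (fun x : ψ.range => x.val.val) h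
  have h3 : π (((ρ g).val - 1) i j) = 0 := congrFun (congrFun h2 i) j
  rw [AdjoinRoot.mk_eq_zero] at h3
  by_contra h4
  have := natDegree_le_of_dvd h3 h4
  rw [natDegree_X_pow] at this
  omega

def toC : GG →* Monoid.CoprodI HH :=
  liftG (Monoid.CoprodI.of (i := true) one3) (Monoid.CoprodI.of (i := false) (Multiplicative.ofAdd (1 : ℤ)))
    (by
      have : (Monoid.CoprodI.of (M := HH) (i := true) one3) ^ 3 = 1 := by
        rw [← map_pow]
        exact (congrArg _ (by decide : one3 ^ 3 = 1)).trans (map_one _)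
      rw [this]; simp)

def CC : Subgroup GG := Subgroup.zpowers (ga ^ 3)

instance : CC.Normal := by
  rw [← Subgroup.normalizer_eq_top_iff, eq_top_iff]
  intro g _
  refine PresentedGroup.generated_by _ _ (fun j => ?_) g
  have key : ∀ x : GG, x * ga ^ 3 * x⁻¹ ∈ CC → x⁻¹ * ga ^ 3 * x ∈ CC → x ∈ Subgroup.normalizer (CC : Set GG) := by
    intro x h1 h2
    rw [Subgroup.mem_normalizer_iff]
    intro y
    constructor
    · rintro ⟨k, rfl⟩
      simp only [← conj_zpow]
      exact CC.zpow_mem h1 k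
    · rintro ⟨k, hk⟩
      have : y = (x⁻¹ * ga ^ 3 * x⁻¹⁻¹) ^ k := by
        simp only at hk
        rw [conj_zpow, hk]; group
      rw [this, inv_inv]
      exact CC.zpow_mem h2 k
  have hm : ga ^ 3 ∈ CC := Subgroup.mem_zpowers _
  fin_cases j
  · apply key ga
    · convert hm using 1; group
    · convert hm using 1; group
  · apply key gs
    · convert CC.inv_mem hm using 1
      exact eq_inv_of_mul_eq_one_left relG
    · convert CC.inv_mem hm using 1
      have := eq_inv_of_mul_eq_one_right relG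
      calc gs⁻¹ * ga ^ 3 * gs = gs⁻¹ * (gs * ga ^ 3 * gs⁻¹)⁻¹ * gs := by rw [← this]
        _ = _ := by group

lemma toC_ker (g : GG) (hg : toC g = 1) : g ∈ CC := by
  let q := QuotientGroup.mk' CC
  have hq : q ga ^ 3 = 1 := by
    rw [← map_pow]; exact (QuotientGroup.eq_one_iff _).2 (Subgroup.mem_zpowers _)
  let α : Multiplicative (ZMod 3) →* GG ⧸ CC := MonoidHom.mk' (fun k => q ga ^ k.toAdd.val) (by
    intro a b
    rw [toAdd_mul, ZMod.val_add, ← pow_add, ← pow_eq_pow_mod _ hq])
  let ψ : Monoid.CoprodI HH →* GG ⧸ CC := Monoid.CoprodI.lift fun i => match i with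
    | true => α
    | false => zpowersHom _ (q gs)
  have h : ψ.comp toC = q := extG _ _
    (by
      rw [MonoidHom.comp_apply, toC, liftG_a, Monoid.CoprodI.lift_of]
      exact pow_one _)
    (by
      rw [MonoidHom.comp_apply, toC, liftG_s, Monoid.CoprodI.lift_of]
      exact zpow_one (q gs))
  have : q g = 1 := by rw [← h, MonoidHom.comp_apply, hg, map_one]
  exact (QuotientGroup.eq_one_iff _).1 this

lemma G_rn (g : GG) (hg : g ≠ 1) :
    ∃ (H : Type) (_ : Group H) (φ : GG →* H), Group.IsNilpotent H ∧ φ g ≠ 1 := by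
  by_cases h : toC g = 1
  · obtain ⟨k, rfl⟩ := toC_ker g h
    have hk : k ≠ 0 := by rintro rfl; exact hg (zpow_zero _)
    set n := (3 * k).natAbs with hn
    have : NeZero (2 ^ n) := ⟨by positivity⟩
    let φ : GG →* DihedralGroup (2 ^ n) := liftG (DihedralGroup.r 1) (DihedralGroup.sr 0) (by
      simp [DihedralGroup.r_one_pow])
    have hp : IsPGroup 2 (DihedralGroup (2 ^ n)) :=
      IsPGroup.of_card (n := n + 1) (by rw [DihedralGroup.nat_card, pow_succ'])
    refine ⟨_, inferInstance, φ, hp.isNilpotent, ?_⟩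
    simp only [φ, map_zpow, map_pow, liftG_a]
    rw [← zpow_natCast, ← zpow_mul, Ne, ← orderOf_dvd_iff_zpow_eq_one, DihedralGroup.orderOf_r_one]
    intro hd
    have h1 := Int.natAbs_le_of_dvd_ne_zero hd (by omega)
    have h2 := Nat.lt_two_pow_self (n := n)
    simp only [Int.natAbs_natCast, Nat.cast_ofNat] at h1
    omega
  · refine congX_sep ((Monoid.CoprodI.lift ff).comp toC) (fun x => ?_) g
      (fun h' => h (pp_inj (by rw [map_one]; exact h')))
    refine PresentedGroup.generated_by _ (CongX.comap ((Monoid.CoprodI.lift ff).comp toC)) (fun j => ?_) x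
    fin_cases j
    · show Monoid.CoprodI.lift ff (toC ga) ∈ CongX
      rw [toC, liftG_a, Monoid.CoprodI.lift_of]
      exact par_mem Na hNa one3
    · show Monoid.CoprodI.lift ff (toC gs) ∈ CongX
      rw [toC, liftG_s, Monoid.CoprodI.lift_of]
      exact CongX.zpow_mem (x := sM) (CongX.mul_mem (par_mem _ _ _) (par_mem _ _ _)) 1


/-- There is a group G all of whose central extensions are residually nilpotent, yet some central extension of some central extension of G is not residually nilpotent. -/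
theorem result :
    ∃ (G : Type) (hG : Group G),
      (∀ (E : Type) (hE : Group E) (f : E →* G), Function.Surjective f →
        f.ker ≤ Subgroup.center E →
        ∀ g : E, g ≠ 1 →
          ∃ (H : Type) (hH : Group H) (φ : E →* H), Group.IsNilpotent H ∧ φ g ≠ 1) ∧
      ∃ (E₁ : Type) (h₁ : Group E₁) (f₁ : E₁ →* G)
        (E₂ : Type) (h₂ : Group E₂) (f₂ : E₂ →* E₁),
        Function.Surjective f₁ ∧ f₁.ker ≤ Subgroup.center E₁ ∧
        Function.Surjective f₂ ∧ f₂.ker ≤ Subgroup.center E₂ ∧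
        ∃ g : E₂, g ≠ 1 ∧
          ∀ (H : Type) (hH : Group H) (φ : E₂ →* H), Group.IsNilpotent H → φ g = 1 := by
  refine ⟨GG, inferInstance, ?_, EE ⧸ NB, inferInstance, f1, EE, inferInstance, QuotientGroup.mk' NB,
    ?_, f1_ker, QuotientGroup.mk'_surjective NB, ?_, eb, eb_ne, ?_⟩
  · intro E _ f hf hc g hg
    by_cases h : f g = 1
    · refine ⟨Abelianization E, inferInstance, Abelianization.of, inferInstance, fun h' => hg ?_⟩
      apply ker_comm f hf hc g h
      rw [← Abelianization.ker_of]; exact h'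
    · obtain ⟨H, _, φ, h1, h2⟩ := G_rn _ h
      exact ⟨H, inferInstance, φ.comp f, h1, h2⟩
  · intro g
    obtain ⟨x, rfl⟩ := piE_surj g
    exact ⟨x, rfl⟩
  · rw [QuotientGroup.ker_mk']; exact NB_le
  · intro H _ φ hH
    obtain ⟨h1, h2, h3, h4, -, h6, h7⟩ := relE
    refine b_dies hH (φ ea) (φ es) (φ ez) (φ eb) ?_ ?_ (h3.map φ) (h4.map φ) (h6.map φ) ?_
    · rw [← h1]; simp
    · simpa using congrArg φ h2
    · rw [← map_pow, h7, map_one]

end Pool.Agent.S03041
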