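import Pool.Statements.S03052
-- import your own Pool.Agent.* helpers here

set_option autoImplicit false
open Pool Pool.MP_cacfbf_al

namespace Pool.Agent.S03052

abbrev F := ZMod 3

def H : Type := Fin 3 → F

instance : AddCommGroup H := Pi.addCommGroup
instance : Module F H := Pi.module _ _ _

def br (u v : H) : H := (![0, 0, u 0 * v 1 - u 1 * v 0] : Fin 3 → F)

@[simp] lemma br0 (u v : H) : br u v 0 = 0 := rfl
@[simp] lemma br1 (u v : H) : br u v 1 = 0 := rfl
@[simp] lemma br2 (u v : H) : br u v 2 = u 0 * v 1 - u 1 * v 0 := rfl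
@[simp] lemma add_ap (u v : H) (i : Fin 3) : (u + v) i = u i + v i := rfl
@[simp] lemma smul_ap (c : F) (v : H) (i : Fin 3) : (c • v) i = c * v i := rfl
@[simp] lemma zero_ap (i : Fin 3) : (0 : H) i = 0 := rfl

lemma H_ext {u v : H} (h0 : u 0 = v 0) (h1 : u 1 = v 1) (h2 : u 2 = v 2) : u = v := by
  funext i; fin_cases i <;> assumption

instance : LieRing H where
  bracket := br
  add_lie x y z := by apply H_ext <;> simp <;> ring
  lie_add x y z := by apply H_ext <;> simp <;> ring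
  lie_self x := by apply H_ext <;> simp <;> ring
  leibniz_lie x y z := by apply H_ext <;> simp

lemma br_def (u v : H) : ⁅u, v⁆ = br u v := rfl

instance : LieAlgebra F H where
  lie_smul t x y := by apply H_ext <;> simp [br_def] <;> ring

def pm (u : H) : H := (![0, 0, u 2] : Fin 3 → F)
@[simp] lemma pm0 (u : H) : pm u 0 = 0 := rfl
@[simp] lemma pm1 (u : H) : pm u 1 = 0 := rfl
@[simp] lemma pm2 (u : H) : pm u 2 = u 2 := rfl

def ex : H := (![1, 0, 0] : Fin 3 → F)
def ey : H := (![0, 1, 0] : Fin 3 → F)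
def ez : H := (![0, 0, 1] : Fin 3 → F)

lemma cube_add {A : Type} [Ring A] (h3 : ∀ a : A, a + a + a = 0) (U V W : A)
    (hW : V * U = U * V - W) (hU : W * U = U * W) (hV : W * V = V * W) :
    (U + V) ^ 3 - U ^ 3 - V ^ 3 = 0 := by
  have e1 : ∀ w, V * (U * w) = U * (V * w) - W * w := by
    intro w; rw [← mul_assoc, hW, sub_mul, mul_assoc]
  have e2 : ∀ w, W * (U * w) = U * (W * w) := by
    intro w; rw [← mul_assoc, hU, mul_assoc]
  have e3 : ∀ w, W * (V * w) = V * (W * w) := by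
    intro w; rw [← mul_assoc, hV, mul_assoc]
  have h := h3 (U * (U * V) - U * W + U * (V * V) - V * W)
  rw [← h]
  simp only [pow_succ, pow_zero, one_mul, mul_add, add_mul, mul_assoc, mul_sub, sub_mul, e1, e2,
    e3, hW, hU, hV]
  abel

lemma units {A : Type} [Ring A] (h3 : ∀ a : A, a + a + a = 0) (X Y Z : A)
    (hXY : X * Y = Y * X + Z) (hXZ : X * Z = Z * X) (hYZ : Y * Z = Z * Y)
    (hX : X ^ 3 = 0) (hY : Y ^ 3 = 0) (hZ : Z ^ 3 = Z) (a b : A)
    (ha : a = Z * (Z * (X * X))) (hb : b = - (Z * (Z * (Y * Y)))) :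
    a * a = 0 ∧ b * b = 0 ∧ a * (b * a) = a ∧ b * (a * b) = b := by
  have e2 : ∀ w, X * (Z * w) = Z * (X * w) := by
    intro w; rw [← mul_assoc, hXZ, mul_assoc]
  have e3 : ∀ w, Y * (Z * w) = Z * (Y * w) := by
    intro w; rw [← mul_assoc, hYZ, mul_assoc]
  have x3 : X * (X * X) = 0 := by rw [← hX]; noncomm_ring
  have y3 : Y * (Y * Y) = 0 := by rw [← hY]; noncomm_ring
  have x3' : ∀ w, X * (X * (X * w)) = 0 := by
    intro w; rw [← mul_assoc, ← mul_assoc, mul_assoc X X X, x3, zero_mul]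
  have y3' : ∀ w, Y * (Y * (Y * w)) = 0 := by
    intro w; rw [← mul_assoc, ← mul_assoc, mul_assoc Y Y Y, y3, zero_mul]
  have z3' : ∀ w, Z * (Z * (Z * w)) = Z * w := by
    intro w
    have : Z * (Z * (Z * w)) = Z ^ 3 * w := by noncomm_ring
    rw [this, hZ]
  subst ha hb
  refine ⟨?_, ?_, ?_, ?_⟩
  · simp only [mul_assoc, e2, x3', mul_zero]
  · simp only [mul_neg, neg_mul, neg_neg, mul_assoc, e3, y3', mul_zero]
  · have e1 : ∀ w, X * (Y * w) = Y * (X * w) + Z * w := by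
      intro w; rw [← mul_assoc, hXY, add_mul, mul_assoc]
    have h := h3 (Z * (Z * (X * X)))
    simp only [mul_neg, neg_mul, mul_assoc, e1, e2, e3, x3, x3', mul_zero, mul_add, z3', zero_add,
      add_zero]
    rw [neg_eq_iff_add_eq_zero]
    exact h
  · have hYX : Y * X = X * Y - Z := by rw [hXY]; abel
    have e1 : ∀ w, Y * (X * w) = X * (Y * w) - Z * w := by
      intro w; rw [← mul_assoc, hYX, sub_mul, mul_assoc]
    have h := h3 (Z * (Z * (Y * Y)))
    simp only [mul_neg, neg_mul, neg_neg, mul_assoc, e1, e2, e3, y3, y3', mul_zero, mul_sub, z3',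
      zero_sub, sub_zero, sub_neg_eq_add, mul_add]
    rw [← sub_eq_zero, ← h]
    abel

lemma S4_expand {A : Type} [Ring A] (r : Fin (2 * 2) → A) :
    (∑ σ : Equiv.Perm (Fin (2 * 2)),
      ((Equiv.Perm.sign σ : ℤˣ) : ℤ) • (List.ofFn fun i => r (σ i)).prod) =
      r 0 * (r 1 * (r 2 * r 3))
      - r 0 * (r 1 * (r 3 * r 2))
      - r 0 * (r 2 * (r 1 * r 3))
      + r 0 * (r 2 * (r 3 * r 1))
      + r 0 * (r 3 * (r 1 * r 2))
      - r 0 * (r 3 * (r 2 * r 1))
      - r 1 * (r 0 * (r 2 * r 3))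
      + r 1 * (r 0 * (r 3 * r 2))
      + r 1 * (r 2 * (r 0 * r 3))
      - r 1 * (r 2 * (r 3 * r 0))
      - r 1 * (r 3 * (r 0 * r 2))
      + r 1 * (r 3 * (r 2 * r 0))
      + r 2 * (r 0 * (r 1 * r 3))
      - r 2 * (r 0 * (r 3 * r 1))
      - r 2 * (r 1 * (r 0 * r 3))
      + r 2 * (r 1 * (r 3 * r 0))
      + r 2 * (r 3 * (r 0 * r 1))
      - r 2 * (r 3 * (r 1 * r 0))
      - r 3 * (r 0 * (r 1 * r 2))
      + r 3 * (r 0 * (r 2 * r 1))
      + r 3 * (r 1 * (r 0 * r 2))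
      - r 3 * (r 1 * (r 2 * r 0))
      - r 3 * (r 2 * (r 0 * r 1))
      + r 3 * (r 2 * (r 1 * r 0)) := by
  show (∑ σ : Equiv.Perm (Fin 4),
      ((Equiv.Perm.sign σ : ℤˣ) : ℤ) • (List.ofFn fun i : Fin 4 => r (σ i)).prod) = _
  have key : (Finset.univ : Finset (Equiv.Perm (Fin 4))).val.map
      (fun σ => (((Equiv.Perm.sign σ : ℤˣ) : ℤ), σ 0, σ 1, σ 2, σ 3)) =
      (([(1, 0, 1, 2, 3), (-1, 0, 1, 3, 2), (-1, 0, 2, 1, 3), (1, 0, 2, 3, 1), (1, 0, 3, 1, 2), (-1, 0, 3, 2, 1), (-1, 1, 0, 2, 3), (1, 1, 0, 3, 2), (1, 1, 2, 0, 3), (-1, 1, 2, 3, 0), (-1, 1, 3, 0, 2), (1, 1, 3, 2, 0), (1, 2, 0, 1, 3), (-1, 2, 0, 3, 1), (-1, 2, 1, 0, 3), (1, 2, 1, 3, 0), (1, 2, 3, 0, 1), (-1, 2, 3, 1, 0), (-1, 3, 0, 1, 2), (1, 3, 0, 2, 1), (1, 3, 1, 0, 2), (-1, 3, 1, 2, 0), (-1, 3, 2, 0, 1), (1, 3, 2, 1, 0)] : List (ℤ × Fin 4 × Fin 4 × Fin 4 × Fin 4)) : Multiset _) := by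
    decide +kernel
  have h2 := congrArg (fun m : Multiset (ℤ × Fin 4 × Fin 4 × Fin 4 × Fin 4) =>
    (m.map (fun q => q.1 • (r q.2.1 * (r q.2.2.1 * (r q.2.2.2.1 * r q.2.2.2.2))))).sum) key
  simp only [Multiset.map_map, Function.comp_def, Multiset.map_coe, Multiset.sum_coe, List.map_cons,
    List.map_nil, List.sum_cons, List.sum_nil, one_smul, neg_smul, add_zero] at h2
  have h3 : (∑ σ : Equiv.Perm (Fin 4),
      ((Equiv.Perm.sign σ : ℤˣ) : ℤ) • (List.ofFn fun i : Fin 4 => r (σ i)).prod) =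
      ∑ σ : Equiv.Perm (Fin 4),
      ((Equiv.Perm.sign σ : ℤˣ) : ℤ) • (r (σ 0) * (r (σ 1) * (r (σ 2) * r (σ 3)))) := by
    refine Finset.sum_congr rfl fun σ _ => ?_
    simp [List.ofFn_succ]
  rw [h3]
  refine h2.trans ?_
  abel

lemma S2_expand {A : Type} [Ring A] (r : Fin (2 * 1) → A) :
    (∑ σ : Equiv.Perm (Fin (2 * 1)),
      ((Equiv.Perm.sign σ : ℤˣ) : ℤ) • (List.ofFn fun i => r (σ i)).prod) =
      r 0 * r 1 - r 1 * r 0 := by
  show (∑ σ : Equiv.Perm (Fin 2),
      ((Equiv.Perm.sign σ : ℤˣ) : ℤ) • (List.ofFn fun i : Fin 2 => r (σ i)).prod) = _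
  have : (Finset.univ : Finset (Equiv.Perm (Fin 2))) = {1, Equiv.swap 0 1} := by decide
  rw [this, Finset.sum_pair (by decide)]
  simp [sub_eq_add_neg]


attribute [local instance 100] LieRing.ofAssociativeRing LieAlgebra.ofAssociativeAlgebra

abbrev Rel : UniversalEnvelopingAlgebra F H → UniversalEnvelopingAlgebra F H → Prop :=
  fun a b => ∃ x : H, a = UniversalEnvelopingAlgebra.ι F x ^ 3 ∧
    b = UniversalEnvelopingAlgebra.ι F (pm x)

abbrev Uq := RingQuot Rel

noncomputable def q (v : H) : Uq := RingQuot.mkAlgHom F Rel (UniversalEnvelopingAlgebra.ι F v)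

lemma three {A : Type} [Ring A] [Algebra F A] (a : A) : a + a + a = 0 := by
  have : a + a + a = ((1 : F) + 1 + 1) • a := by simp only [add_smul, one_smul]
  rw [this, show ((1 : F) + 1 + 1) = 0 by decide, zero_smul]

lemma iota_comm (u v : H) : UniversalEnvelopingAlgebra.ι F u * UniversalEnvelopingAlgebra.ι F v -
    UniversalEnvelopingAlgebra.ι F v * UniversalEnvelopingAlgebra.ι F u =
    UniversalEnvelopingAlgebra.ι F ⁅u, v⁆ := by
  rw [LieHom.map_lie, Ring.lie_def]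

lemma q_comm (u v : H) : q u * q v - q v * q u = q ⁅u, v⁆ := by
  simp only [q, ← map_mul, ← map_sub, iota_comm]

lemma q_zero : q 0 = 0 := by simp only [q, map_zero]

lemma q_cube (u : H) : q u ^ 3 = q (pm u) := by
  simp only [q, ← map_pow]
  exact RingQuot.mkAlgHom_rel F ⟨u, rfl, rfl⟩

noncomputable def aa : Uq := q ez * (q ez * (q ex * q ex))
noncomputable def bb : Uq := - (q ez * (q ez * (q ey * q ey)))

lemma rels : aa * aa = 0 ∧ bb * bb = 0 ∧ aa * (bb * aa) = aa ∧ bb * (aa * bb) = bb := by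
  refine units three (q ex) (q ey) (q ez) ?_ ?_ ?_ ?_ ?_ ?_ _ _ rfl rfl
  · have := q_comm ex ey
    rw [show ⁅ex, ey⁆ = ez by apply H_ext <;> decide] at this
    rw [← this]; abel
  · have := q_comm ex ez
    rw [show ⁅ex, ez⁆ = 0 by apply H_ext <;> decide, q_zero] at this
    exact sub_eq_zero.1 this
  · have := q_comm ey ez
    rw [show ⁅ey, ez⁆ = 0 by apply H_ext <;> decide, q_zero] at this
    exact sub_eq_zero.1 this
  · rw [q_cube, show pm ex = 0 by apply H_ext <;> decide, q_zero]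
  · rw [q_cube, show pm ey = 0 by apply H_ext <;> decide, q_zero]
  · rw [q_cube, show pm ez = ez by apply H_ext <;> decide]

noncomputable def psi : Matrix (Fin 2) (Fin 2) F →ₙₐ[F] Uq where
  toFun M := M 0 0 • (aa * bb) + M 0 1 • aa + M 1 0 • bb + M 1 1 • (bb * aa)
  map_smul' c M := by simp only [Matrix.smul_apply, smul_eq_mul, mul_smul, smul_add]; rfl
  map_zero' := by simp
  map_add' M N := by simp only [Matrix.add_apply, add_smul]; abel
  map_mul' M N := by
    obtain ⟨h1, h2, h3, h4⟩ := rels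
    have h1' : ∀ w, aa * (aa * w) = 0 := fun w => by rw [← mul_assoc, h1, zero_mul]
    have h2' : ∀ w, bb * (bb * w) = 0 := fun w => by rw [← mul_assoc, h2, zero_mul]
    have h3' : ∀ w, aa * (bb * (aa * w)) = aa * w := fun w => by
      rw [← mul_assoc bb, ← mul_assoc, h3]
    have h4' : ∀ w, bb * (aa * (bb * w)) = bb * w := fun w => by
      rw [← mul_assoc aa, ← mul_assoc, h4]
    simp only [Matrix.mul_apply, Fin.sum_univ_two, add_smul, mul_add, add_mul, smul_mul_assoc,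
      mul_smul_comm, mul_assoc, h1, h2, h3, h4, h1', h2', h3', h4', mul_zero, smul_zero, add_zero,
      zero_add, smul_add, smul_smul]
    simp only [mul_comm (N _ _) (M _ _)]
    abel

lemma psi_apply (M : Matrix (Fin 2) (Fin 2) F) :
    psi M = M 0 0 • (aa * bb) + M 0 1 • aa + M 1 0 • bb + M 1 1 • (bb * aa) := rfl

lemma S4_M2 (r : Fin (2 * 2) → Matrix (Fin 2) (Fin 2) F) :
    (∑ σ : Equiv.Perm (Fin (2 * 2)),
      ((Equiv.Perm.sign σ : ℤˣ) : ℤ) • (List.ofFn fun i => r (σ i)).prod) = 0 := by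
  rw [S4_expand]
  ext i j
  fin_cases i <;> fin_cases j <;>
    simp [Matrix.mul_apply, Fin.sum_univ_two, Matrix.add_apply, Matrix.sub_apply] <;> ring

lemma S4_R (r : Fin (2 * 2) → Uq) (hr : ∀ i, r i ∈ NonUnitalAlgHom.range psi) :
    (∑ σ : Equiv.Perm (Fin (2 * 2)),
      ((Equiv.Perm.sign σ : ℤˣ) : ℤ) • (List.ofFn fun i => r (σ i)).prod) = 0 := by
  choose M hM using hr
  have h := congrArg psi (S4_M2 M)
  rw [S4_expand] at h ⊢
  simp only [map_add, map_sub, map_mul, map_zero] at h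
  have hM' : ∀ i, psi (M i) = r i := hM
  simpa only [hM'] using h

def rho0 (v : H) : Matrix (Fin 3) (Fin 3) F :=
  !![v 2, v 0, 0; v 1, v 2, 2 * v 0; 0, v 1, v 2]

def rho1 : H →ₗ⁅F⁆ Matrix (Fin 3) (Fin 3) F where
  toFun := rho0
  map_add' u v := by
    ext i j; fin_cases i <;> fin_cases j <;> simp [rho0] <;> ring
  map_smul' c v := by
    ext i j; fin_cases i <;> fin_cases j <;> simp [rho0] <;> ring
  map_lie' {u v} := by
    have h3 : (3 : F) = 0 := by decide
    rw [Ring.lie_def, br_def]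
    ext i j
    fin_cases i <;> fin_cases j <;>
      simp [rho0, Matrix.mul_apply, Fin.sum_univ_three]
    all_goals first | ring1 | linear_combination (u 0 * v 1 - u 1 * v 0) * h3

lemma rho_cube (v : H) : rho0 v ^ 3 = rho0 (pm v) := by
  have : ∀ a b c : F, (!![c, a, 0; b, c, 2 * a; 0, b, c] : Matrix (Fin 3) (Fin 3) F) ^ 3 =
      !![c, 0, 0; 0, c, 2 * 0; 0, 0, c] := by decide +kernel
  exact this _ _ _

noncomputable def rho : Uq →ₐ[F] Matrix (Fin 3) (Fin 3) F :=
  RingQuot.liftAlgHom F ⟨UniversalEnvelopingAlgebra.lift F rho1, by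
    rintro _ _ ⟨x, rfl, rfl⟩
    rw [map_pow, UniversalEnvelopingAlgebra.lift_ι_apply, UniversalEnvelopingAlgebra.lift_ι_apply]
    exact rho_cube x⟩

lemma rho_q (v : H) : rho (q v) = rho0 v := by
  rw [rho, q, RingQuot.liftAlgHom_mkAlgHom_apply, UniversalEnvelopingAlgebra.lift_ι_apply]
  rfl

lemma comm_pow (t : ℕ) : (aa * bb - bb * aa) ^ t ≠ 0 := by
  intro h
  have h2 := congrArg rho h
  have h3 : rho (aa * bb - bb * aa) = Matrix.diagonal ![1, 0, -1] := by
    simp only [aa, bb, map_sub, map_mul, map_neg, rho_q]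
    decide +kernel
  rw [map_pow, h3, map_zero, Matrix.diagonal_pow] at h2
  have := congrFun (congrFun h2 0) 0
  simp at this

/-- The negation of the preceding statement: For every prime p, field F of char p, Lie p-algebra L and PI non-unital subalgebra R of u(L): if n is the least positive integer such that some power of the standard polynomial S_2n vanishes on R, then n is a power of p. -/
theorem result :
    ¬ (∀ (p : ℕ), p.Prime → ∀ (F : Type) [Field F] [CharP F p] (L : Type) [LieRing L] [LieAlgebra F L]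
    (f : L → L),
    (∀ (a : F) (x : L), f (a • x) = a ^ p • f x) →
    (∀ x y : L, (LieAlgebra.ad F L x ^ p) y = ⁅f x, y⁆) →
    (∀ x y : L,
      UniversalEnvelopingAlgebra.ι F (f (x + y)) - UniversalEnvelopingAlgebra.ι F (f x)
        - UniversalEnvelopingAlgebra.ι F (f y)
      = (UniversalEnvelopingAlgebra.ι F x + UniversalEnvelopingAlgebra.ι F y) ^ p
        - UniversalEnvelopingAlgebra.ι F x ^ p - UniversalEnvelopingAlgebra.ι F y ^ p) →
    ∀ R : NonUnitalSubalgebra F (RingQuot (fun a b : UniversalEnvelopingAlgebra F L =>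
        ∃ x : L, a = UniversalEnvelopingAlgebra.ι F x ^ p ∧ b = UniversalEnvelopingAlgebra.ι F (f x))),
    (∃ m : ℕ, ∃ φ : FreeAlgebra F (Fin m), φ ≠ 0 ∧
      ∀ r : Fin m → RingQuot (fun a b : UniversalEnvelopingAlgebra F L =>
        ∃ x : L, a = UniversalEnvelopingAlgebra.ι F x ^ p ∧ b = UniversalEnvelopingAlgebra.ι F (f x)),
        (∀ i, r i ∈ R) → FreeAlgebra.lift F r φ = 0) →
    ∀ n : ℕ, 1 ≤ n →
      (∃ t : ℕ, 1 ≤ t ∧
        ∀ r : Fin (2 * n) → RingQuot (fun a b : UniversalEnvelopingAlgebra F L =>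
          ∃ x : L, a = UniversalEnvelopingAlgebra.ι F x ^ p ∧ b = UniversalEnvelopingAlgebra.ι F (f x)),
          (∀ i, r i ∈ R) →
          (∑ σ : Equiv.Perm (Fin (2 * n)),
            ((Equiv.Perm.sign σ : ℤˣ) : ℤ) • (List.ofFn fun i => r (σ i)).prod) ^ t = 0) →
      (∀ m : ℕ, 1 ≤ m → m < n →
        ¬ ∃ t : ℕ, 1 ≤ t ∧
          ∀ r : Fin (2 * m) → RingQuot (fun a b : UniversalEnvelopingAlgebra F L =>
            ∃ x : L, a = UniversalEnvelopingAlgebra.ι F x ^ p ∧ b = UniversalEnvelopingAlgebra.ι F (f x)),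
            (∀ i, r i ∈ R) →
            (∑ σ : Equiv.Perm (Fin (2 * m)),
              ((Equiv.Perm.sign σ : ℤˣ) : ℤ) • (List.ofFn fun i => r (σ i)).prod) ^ t = 0) →
      ∃ k : ℕ, n = p ^ k) := by
  intro h
  have key := h 3 (by norm_num) F H pm ?_ ?_ ?_ (NonUnitalAlgHom.range psi) ?_ 2 (by norm_num) ?_ ?_
  · obtain ⟨k, hk⟩ := key
    rcases k with _ | k
    · simp at hk
    · rw [pow_succ] at hk; omega
  · intro a x
    rw [ZMod.pow_card]
    apply H_ext <;> simp
  · intro x y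
    simp only [pow_succ, pow_zero, one_mul, Module.End.mul_apply, LieAlgebra.ad_apply, br_def]
    apply H_ext <;> simp
  · intro x y
    have h1 : pm (x + y) = pm x + pm y := by apply H_ext <;> simp
    rw [h1, map_add, cube_add three _ _ (UniversalEnvelopingAlgebra.ι F ⁅x, y⁆)]
    · abel
    · rw [← iota_comm]; abel
    · have := iota_comm ⁅x, y⁆ x
      rw [show ⁅⁅x, y⁆, x⁆ = 0 by apply H_ext <;> simp [br_def], map_zero] at this
      exact sub_eq_zero.1 this
    · have := iota_comm ⁅x, y⁆ y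
      rw [show ⁅⁅x, y⁆, y⁆ = 0 by apply H_ext <;> simp [br_def], map_zero] at this
      exact sub_eq_zero.1 this
  · refine ⟨2 * 2, ∑ σ : Equiv.Perm (Fin (2 * 2)), ((Equiv.Perm.sign σ : ℤˣ) : ℤ) •
      (List.ofFn fun i => FreeAlgebra.ι F (σ i)).prod, ?_, ?_⟩
    · intro h0
      let m : Fin (2 * 2) → Matrix (Fin 3) (Fin 3) F :=
        ![!![1, 0, 0; 0, 0, 0; 0, 0, 0], !![0, 1, 0; 0, 0, 0; 0, 0, 0],
          !![0, 0, 0; 0, 1, 0; 0, 0, 0], !![0, 0, 0; 0, 0, 1; 0, 0, 0]]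
      have h1 := congrArg (FreeAlgebra.lift F m) h0
      rw [S4_expand (fun i => FreeAlgebra.ι F i)] at h1
      simp only [map_add, map_sub, map_mul, map_zero, FreeAlgebra.lift_ι_apply] at h1
      revert h1
      decide +kernel
    · intro r hr
      have h1 := S4_R r hr
      rw [S4_expand] at h1
      rw [S4_expand (fun i => FreeAlgebra.ι F i)]
      simpa only [map_add, map_sub, map_mul, map_zero, FreeAlgebra.lift_ι_apply] using h1
  · exact ⟨1, le_rfl, fun r hr => by rw [pow_one]; exact S4_R r hr⟩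
  · intro m hm1 hm2
    obtain rfl : m = 1 := by omega
    rintro ⟨t, -, ht⟩
    have := ht ![aa, bb] (by
      intro i
      fin_cases i
      · exact ⟨!![0, 1; 0, 0], (psi_apply _).trans (by simp)⟩
      · exact ⟨!![0, 0; 1, 0], (psi_apply _).trans (by simp)⟩)
    rw [S2_expand] at this
    exact comm_pow t this

end Pool.Agent.S03052
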