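import Pool.Statements.S03067

set_option autoImplicit false
open Pool Pool.MP_cc18b0_al

namespace Pool.Agent.S03067

variable {A : Type} [AddCommGroup A]

def perp (H : AddSubgroup A) : AddSubgroup (CharacterModule A) where
  carrier := {c | ∀ a ∈ H, c a = 0}
  add_mem' := by
    intro c d hc hd a ha
    show c a + d a = 0
    rw [hc a ha, hd a ha, add_zero]
  zero_mem' := fun _ _ => rfl
  neg_mem' := by
    intro c hc a ha
    show -c a = 0
    rw [hc a ha, neg_zero]

theorem perp_anti {H K : AddSubgroup A} (h : H ≤ K) : perp K ≤ perp H :=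
  fun _ hc a ha => hc a (h ha)

theorem perp_sup (H K : AddSubgroup A) : perp (H ⊔ K) = perp H ⊓ perp K := by
  refine le_antisymm (le_inf (perp_anti le_sup_left) (perp_anti le_sup_right)) ?_
  rintro c ⟨h1, h2⟩ a ha
  obtain ⟨x, hx, y, hy, rfl⟩ := AddSubgroup.mem_sup.1 ha
  rw [map_add, h1 x hx, h2 y hy, add_zero]

theorem perp_inf (H K : AddSubgroup A) : perp (H ⊓ K) = perp H ⊔ perp K := by
  refine le_antisymm ?_ (sup_le (perp_anti inf_le_left) (perp_anti inf_le_right))
  intro c hc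
  let δ : A ⧸ (H ⊓ K) →+ (A ⧸ H) × (A ⧸ K) :=
    QuotientAddGroup.lift (H ⊓ K) ((QuotientAddGroup.mk' H).prod (QuotientAddGroup.mk' K))
      fun a ha => Prod.ext ((QuotientAddGroup.eq_zero_iff a).2 ha.1)
        ((QuotientAddGroup.eq_zero_iff a).2 ha.2)
  have hδ : Function.Injective δ := by
    rw [injective_iff_map_eq_zero]
    intro x hx
    obtain ⟨a, rfl⟩ := QuotientAddGroup.mk_surjective x
    exact (QuotientAddGroup.eq_zero_iff a).2
      ⟨(QuotientAddGroup.eq_zero_iff a).1 (congrArg Prod.fst hx),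
        (QuotientAddGroup.eq_zero_iff a).1 (congrArg Prod.snd hx)⟩
  obtain ⟨ψ, hψ⟩ := CharacterModule.dual_surjective_of_injective (R := ℤ) δ.toIntLinearMap hδ
    (QuotientAddGroup.lift (H ⊓ K) (c : A →+ AddCircle (1 : ℚ)) hc)
  let ψ' : (A ⧸ H) × (A ⧸ K) →+ AddCircle (1 : ℚ) := ψ
  refine AddSubgroup.mem_sup.2
    ⟨(ψ'.comp ((AddMonoidHom.inl _ _).comp (QuotientAddGroup.mk' H)) : A →+ _), ?_,
      (ψ'.comp ((AddMonoidHom.inr _ _).comp (QuotientAddGroup.mk' K)) : A →+ _), ?_, ?_⟩
  · intro a ha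
    show ψ' ((a : A ⧸ H), 0) = 0
    rw [(QuotientAddGroup.eq_zero_iff a).2 ha]
    exact map_zero ψ'
  · intro a ha
    show ψ' (0, (a : A ⧸ K)) = 0
    rw [(QuotientAddGroup.eq_zero_iff a).2 ha]
    exact map_zero ψ'
  · ext a
    show ψ' ((a : A ⧸ H), 0) + ψ' (0, (a : A ⧸ K)) = c a
    rw [← map_add, Prod.mk_add_mk, add_zero, zero_add]
    exact DFunLike.congr_fun hψ (a : A ⧸ (H ⊓ K))

theorem le_of_perp {H K : AddSubgroup A} (h : perp K ≤ perp H) : H ≤ K := by
  intro a ha
  rw [← QuotientAddGroup.eq_zero_iff]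
  apply CharacterModule.eq_zero_of_character_apply
  intro c
  let c' : (A ⧸ K) →+ AddCircle (1 : ℚ) := c
  exact h (x := (c'.comp (QuotientAddGroup.mk' K) : A →+ _)) (fun b hb => by
    show c' (b : A ⧸ K) = 0
    rw [(QuotientAddGroup.eq_zero_iff b).2 hb, map_zero]) a ha
/-- For every lattice L, if L embeds as a lattice into the subgroup lattice of some abelian group, then its order dual also embeds as a lattice into the subgroup lattice of some abelian group. -/
theorem result :
    ∀ (L : Type) [Lattice L],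
      (∃ (A : Type) (_ : AddCommGroup A), ∃ f : LatticeHom L (AddSubgroup A), Function.Injective f) →
      (∃ (B : Type) (_ : AddCommGroup B), ∃ g : LatticeHom Lᵒᵈ (AddSubgroup B), Function.Injective g) := by
  rintro L _ ⟨A, _, f, hf⟩
  refine ⟨CharacterModule A, inferInstance,
    ⟨⟨fun x => perp (f (OrderDual.ofDual x)), fun x y => ?_⟩, fun x y => ?_⟩, fun x y h => ?_⟩
  · rw [ofDual_sup, map_inf, perp_inf]
  · show perp (f (OrderDual.ofDual (x ⊓ y))) = perp (f (OrderDual.ofDual x)) ⊓ perp (f (OrderDual.ofDual y))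
    rw [ofDual_inf, map_sup, perp_sup]
  · exact OrderDual.ofDual.injective
      (hf (le_antisymm (le_of_perp (le_of_eq h.symm)) (le_of_perp (le_of_eq h))))

end Pool.Agent.S03067
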