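import Pool.Statements.S03082

set_option autoImplicit false
open CategoryTheory CategoryTheory.Limits
open Pool Pool.MP_cd2797_al

namespace Pool.Agent.S03082

section Gen
variable {R : Type} [Ring R] (e : R)

/-- modules with a two-element essential top -/
def Thin (M : Type) [AddCommGroup M] [Module R M] : Prop :=
  (∀ x y : M, e • x ≠ 0 → e • y ≠ 0 → e • x = e • y) ∧ ∀ x : M, x ≠ 0 → ∃ r : R, e • r • x ≠ 0

lemma zero_or_inj {M N : Type} [AddCommGroup M] [Module R M] [AddCommGroup N] [Module R N]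
    (hM : Thin e M) (hN : Thin e N) (f : M →ₗ[R] N) : (∀ x, f x = 0) ∨ ∀ x, f x = 0 → x = 0 := by
  by_cases h : ∃ x0, f (e • x0) ≠ 0
  · obtain ⟨x0, h0⟩ := h
    right
    intro y hy
    by_contra hy0
    obtain ⟨r, hr⟩ := hM.2 y hy0
    have h1 : e • x0 ≠ 0 := fun h => h0 (by rw [h, map_zero])
    apply h0
    rw [hM.1 _ _ h1 hr, map_smul, map_smul, hy, smul_zero, smul_zero]
  · left
    intro y
    by_contra hy
    obtain ⟨r, hr⟩ := hN.2 _ hy
    apply h
    exact ⟨r • y, by rwa [map_smul, map_smul]⟩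

lemma thin_colim {ι : Type} [Preorder ι] [IsDirected ι (· ≤ ·)] [Nonempty ι]
    (F : ι ⥤ ModuleCat.{0} R) (c : Cocone F) (hc : IsColimit c) (h : ∀ i, Thin e (F.obj i)) :
    Thin e c.pt := by
  have w : ∀ {i j : ι} (f : i ⟶ j) (y : F.obj i), (c.ι.app j).hom ((F.map f).hom y) = (c.ι.app i).hom y :=
    fun f y => by
      have := congrArg (fun g => g.hom y) (c.w f)
      simpa using this
  refine ⟨fun x y hx hy => ?_, fun x hx => ?_⟩
  · obtain ⟨i, x', rfl⟩ := Concrete.isColimit_exists_rep F hc x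
    obtain ⟨j, y', rfl⟩ := Concrete.isColimit_exists_rep F hc y
    obtain ⟨k, hi, hj⟩ := exists_ge_ge i j
    change e • (c.ι.app i).hom x' ≠ 0 at hx
    change e • (c.ι.app j).hom y' ≠ 0 at hy
    change e • (c.ι.app i).hom x' = e • (c.ι.app j).hom y'
    rw [← w (homOfLE hi), ← map_smul] at hx
    rw [← w (homOfLE hj), ← map_smul] at hy
    have := congrArg (c.ι.app k).hom
      ((h k).1 _ _ (fun h => hx (by rw [h, map_zero])) (fun h => hy (by rw [h, map_zero])))
    rwa [map_smul, map_smul, w, w] at this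
  · obtain ⟨i, x', rfl⟩ := Concrete.isColimit_exists_rep F hc x
    change (c.ι.app i).hom x' ≠ 0 at hx
    obtain ⟨r, hr⟩ := (h i).2 x' (fun h => hx (by rw [h, map_zero]))
    refine ⟨r, fun h0 => ?_⟩
    change e • r • (c.ι.app i).hom x' = 0 at h0
    rw [← map_smul, ← map_smul, ← map_zero (c.ι.app i).hom] at h0
    obtain ⟨k, f, g, hfg⟩ := (Concrete.isColimit_rep_eq_iff_exists F hc _ _).1 h0
    change (F.map f).hom _ = (F.map g).hom 0 at hfg
    rw [map_zero] at hfg
    rcases zero_or_inj e (h i) (h k) (F.map f).hom with h1 | h1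
    · apply hx
      rw [← w f, h1, map_zero]
    · exact hr (h1 _ hfg)

lemma thin_iso {M N : ModuleCat.{0} R} (φ : M ≅ N) (h : Thin e M) : Thin e N := by
  let ψ := φ.toLinearEquiv
  refine ⟨fun x y hx hy => ?_, fun x hx => ?_⟩
  · obtain ⟨x, rfl⟩ := ψ.surjective x
    obtain ⟨y, rfl⟩ := ψ.surjective y
    rw [← map_smul] at hx hy ⊢
    rw [← map_smul, h.1 _ _ (fun h => hx (by rw [h, map_zero])) (fun h => hy (by rw [h, map_zero]))]
  · obtain ⟨x, rfl⟩ := ψ.surjective x
    obtain ⟨r, hr⟩ := h.2 x (fun h => hx (by rw [h, map_zero]))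
    exact ⟨r, by rwa [← map_smul, ← map_smul, ne_eq, ψ.map_eq_zero_iff]⟩

/-- the class of direct limits -/
def Lim (C : Set (ModuleCat.{0} R)) (M : ModuleCat.{0} R) : Prop :=
  ∃ (ι : Type) (_ : Preorder ι) (_ : IsDirected ι (· ≤ ·)) (_ : Nonempty ι)
        (F : ι ⥤ ModuleCat.{0} R) (c : Cocone F),
        Nonempty (IsColimit c) ∧ Nonempty (c.pt ≅ M) ∧ ∀ i, F.obj i ∈ C

section Chain
variable {E : Type} [AddCommGroup E] [Module R E] (N : ℕ → Submodule R E) (hN : Monotone N)

def chainF : ℕ ⥤ ModuleCat.{0} R where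
  obj k := ModuleCat.of R (N k)
  map f := ModuleCat.ofHom (Submodule.inclusion (hN f.le))
  map_id _ := rfl
  map_comp _ _ := rfl

def chainC (T : Submodule R E) (hT : ∀ k, N k ≤ T) : Cocone (chainF N hN) where
  pt := ModuleCat.of R T
  ι := { app := fun k => ModuleCat.ofHom (Submodule.inclusion (hT k))
         naturality := fun _ _ _ => rfl }

lemma chain_colim (T : Submodule R E) (hT : ∀ k, N k ≤ T) (hs : ∀ x ∈ T, ∃ k, x ∈ N k) :
    Nonempty (IsColimit (chainC N hN T hT)) := by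
  refine ⟨isColimitOfReflects (forget (ModuleCat.{0} R)) (Types.FilteredColimit.isColimitOf' _ _ ?_ ?_)⟩
  · rintro ⟨x, hx⟩
    obtain ⟨k, hk⟩ := hs x hx
    exact ⟨k, ⟨x, hk⟩, rfl⟩
  · intro i x y h
    refine ⟨i, 𝟙 i, ?_⟩
    have h' : Submodule.inclusion (hT i) x = Submodule.inclusion (hT i) y := h
    have : x = y := Submodule.inclusion_injective _ h'
    rw [this]

end Chain

lemma lim_retract (C : Set (ModuleCat.{0} R)) (hC : ∀ M ∈ C, Thin e M)
    (h0 : ∀ M : ModuleCat.{0} R, Subsingleton M → M ∈ C)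
    (M N : ModuleCat.{0} R) (s : N ⟶ M) (r : M ⟶ N) (hsr : s ≫ r = 𝟙 N) (hM : Lim C M) : Lim C N := by
  obtain ⟨ι, _, _, _, F, c, ⟨hc⟩, ⟨φ⟩, hF⟩ := hM
  have hT : Thin e M := thin_iso e φ (thin_colim e F c hc fun i => hC _ (hF i))
  have h1 : ∀ y, r.hom (s.hom y) = y := fun y => by
    have := congrArg (fun g => g.hom y) hsr
    simpa using this
  rcases zero_or_inj e hT hT (s.hom ∘ₗ r.hom) with h | h
  · have hsub : ∀ y : N, y = 0 := fun y => by
      have := h (s.hom y)
      rw [LinearMap.comp_apply, h1] at this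
      rw [← h1 y, this, map_zero]
    refine ⟨ℕ, inferInstance, inferInstance, inferInstance, chainF (fun _ => (⊤ : Submodule R N)) monotone_const,
      chainC _ _ ⊤ (fun _ => le_rfl), chain_colim _ _ _ _ (fun x hx => ⟨0, hx⟩),
      ⟨Submodule.topEquiv.toModuleIso⟩, fun i => h0 _ ⟨fun a b => ?_⟩⟩
    exact Subtype.ext ((hsub _).trans (hsub _).symm)
  · refine ⟨ι, inferInstance, inferInstance, inferInstance, F, c, ⟨hc⟩, ⟨φ ≪≫ ⟨r, s, ?_, hsr⟩⟩, hF⟩
    ext x
    have := h (s.hom (r.hom x) - x) (by simp [h1])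
    simpa using sub_eq_zero.1 this

end Gen

abbrev S : Type := (ℕ × ℕ) ⊕ ℕ
abbrev E : Type := Option S →₀ ZMod 2

def RR : Subring (Module.End (ZMod 2) E) where
  carrier := {f | ∀ (U : Set S) (x : E), (∀ s, s ∉ U → x (some s) = 0) → ∀ s, s ∉ U → f x (some s) = 0}
  mul_mem' := fun hf hg U x hx => hf U _ (hg U x hx)
  one_mem' := fun U x hx => hx
  add_mem' := fun hf hg U x hx s hs => by
    rw [LinearMap.add_apply, Finsupp.add_apply, hf U x hx s hs, hg U x hx s hs, add_zero]
  zero_mem' := fun U x hx s hs => rfl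
  neg_mem' := fun hf U x hx s hs => by
    rw [LinearMap.neg_apply, Finsupp.neg_apply, hf U x hx s hs, neg_zero]

noncomputable def pr (o : Option S) : RR :=
  ⟨Finsupp.lsingle o ∘ₗ Finsupp.lapply o, fun U x hx s hs => by
    show Finsupp.single o (x o) (some s) = 0
    by_cases h : o = some s
    · subst h; rw [Finsupp.single_eq_same, hx s hs]
    · exact Finsupp.single_eq_of_ne (Ne.symm h)⟩

noncomputable def ar (o : Option S) : RR :=
  ⟨Finsupp.lsingle none ∘ₗ Finsupp.lapply o, fun U x hx s hs =>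
    Finsupp.single_eq_of_ne (Option.some_ne_none s)⟩

lemma pr_smul (o : Option S) (x : E) : pr o • x = Finsupp.single o (x o) := rfl
lemma ar_smul (o : Option S) (x : E) : ar o • x = Finsupp.single none (x o) := rfl

def MM (U : Set S) : Submodule RR E where
  carrier := {x | ∀ s, s ∉ U → x (some s) = 0}
  add_mem' := fun hx hy s hs => by rw [Finsupp.add_apply, hx s hs, hy s hs, add_zero]
  zero_mem' := fun _ _ => rfl
  smul_mem' := fun r x hx => r.2 U x hx

lemma MM_mono {U V : Set S} (h : U ⊆ V) : MM U ≤ MM V := fun _ hx s hs => hx s fun h' => hs (h h')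

lemma z2 : ∀ a : ZMod 2, a ≠ 0 → a = 1 := by decide

lemma thin_MM (U : Set S) : Thin (pr none) (MM U) := by
  refine ⟨fun x y hx hy => Subtype.ext ?_, fun x hx => ?_⟩
  · have h1 : x.1 none ≠ 0 := fun h => hx (Subtype.ext (by
      show Finsupp.single none (x.1 none) = 0
      rw [h, Finsupp.single_zero]))
    have h2 : y.1 none ≠ 0 := fun h => hy (Subtype.ext (by
      show Finsupp.single none (y.1 none) = 0
      rw [h, Finsupp.single_zero]))
    show Finsupp.single none (x.1 none) = Finsupp.single none (y.1 none)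
    rw [z2 _ h1, z2 _ h2]
  · obtain ⟨o, ho⟩ : ∃ o, x.1 o ≠ 0 := by
      by_contra h
      push Not at h
      exact hx (Subtype.ext (Finsupp.ext h))
    refine ⟨ar o, fun h => ho ?_⟩
    have h1 : Finsupp.single (none : Option S) (Finsupp.single (none : Option S) (x.1 o) none) = 0 :=
      congrArg Subtype.val h
    rwa [Finsupp.single_eq_same, Finsupp.single_eq_zero] at h1

def Supp (M : Type) [AddCommGroup M] [Module RR M] : Set S := {s | ∃ x : M, pr (some s) • x ≠ 0}

lemma single_mem {U : Set S} {s : S} (h : s ∈ U) : Finsupp.single (some s) (1 : ZMod 2) ∈ MM U :=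
  fun t ht => Finsupp.single_eq_of_ne (fun e => ht (by rw [Option.some_injective _ e]; exact h))

lemma supp_MM (U : Set S) : Supp (MM U) = U := by
  ext s
  constructor
  · rintro ⟨x, hx⟩
    by_contra hs
    apply hx
    apply Subtype.ext
    show Finsupp.single (some s) (x.1 (some s)) = 0
    rw [x.2 s hs, Finsupp.single_zero]
  · intro hs
    refine ⟨⟨_, single_mem hs⟩, fun h => ?_⟩
    have h1 : Finsupp.single (some s) (Finsupp.single (some s) (1 : ZMod 2) (some s)) = 0 :=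
      congrArg Subtype.val h
    rw [Finsupp.single_eq_same, Finsupp.single_eq_zero] at h1
    exact one_ne_zero h1

def Cs (n k : ℕ) : Set S := {s | Sum.elim (fun p : ℕ × ℕ => p.1 ≠ n ∨ p.2 < k) (fun m => m < n) s}
def Ds (n : ℕ) : Set S := {s | Sum.elim (fun _ : ℕ × ℕ => True) (fun m => m < n) s}

def CC : Set (ModuleCat.{0} RR) :=
  {M | Thin (pr none) M ∧ (Subsingleton M ∨ ∃ n k, Supp M = Cs n k)}

lemma bound (x : E) (g : S → ℕ) : ∃ k, ∀ s, x (some s) ≠ 0 → g s < k := by
  refine ⟨(x.support.sup fun o => o.elim 0 g) + 1, fun s hs => Nat.lt_succ_of_le ?_⟩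
  exact Finset.le_sup (f := fun o : Option S => o.elim 0 g) (Finsupp.mem_support_iff.2 hs)

lemma Cs_mono (n : ℕ) : Monotone fun k => MM (Cs n k) := by
  intro a b h
  apply MM_mono
  rintro (⟨p, q⟩ | m) hs
  · exact Or.imp id (fun h' => lt_of_lt_of_le h' h) hs
  · exact hs

lemma Ds_mono : Monotone fun n => MM (Ds n) := by
  intro a b h
  apply MM_mono
  rintro (⟨p, q⟩ | m) hs
  · trivial
  · exact lt_of_lt_of_le hs h

lemma lim_D (n : ℕ) : Lim CC (ModuleCat.of RR (MM (Ds n))) := by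
  have hT : ∀ k, MM (Cs n k) ≤ MM (Ds n) := fun k => MM_mono (by
    rintro (⟨p, q⟩ | m) hs
    · trivial
    · exact hs)
  refine ⟨ℕ, inferInstance, inferInstance, inferInstance, chainF _ (Cs_mono n), chainC _ _ _ hT,
    chain_colim _ _ _ _ ?_, ⟨Iso.refl _⟩, fun k => ⟨thin_MM _, Or.inr ⟨n, k, supp_MM _⟩⟩⟩
  intro x hx
  obtain ⟨k, hk⟩ := bound x (Sum.elim Prod.snd fun _ => 0)
  refine ⟨k, ?_⟩
  rintro (⟨p, q⟩ | m) hs
  · by_contra h
    exact hs (Or.inr (hk _ h))
  · exact hx _ hs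

lemma not_lim : ¬ Lim CC (ModuleCat.of RR (MM Set.univ)) := by
  rintro ⟨ι, _, _, _, F, c, ⟨hc⟩, ⟨φ⟩, hF⟩
  let g : ∀ i, F.obj i →ₗ[RR] MM Set.univ := fun i => φ.hom.hom ∘ₗ (c.ι.app i).hom
  have w : ∀ {i j : ι} (f : i ⟶ j) (y : F.obj i), g j ((F.map f).hom y) = g i y :=
    fun f y => by
      have := congrArg (fun g => g.hom y) (c.w f)
      exact congrArg φ.hom.hom this
  have rep : ∀ x : MM Set.univ, ∃ i y, g i y = x := fun x => by
    obtain ⟨x', rfl⟩ := φ.toLinearEquiv.surjective x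
    obtain ⟨i, y, rfl⟩ := Concrete.isColimit_exists_rep F hc x'
    exact ⟨i, y, rfl⟩
  have ne : ∀ s : S, pr (some s) • (⟨_, single_mem (Set.mem_univ s)⟩ : MM Set.univ) ≠ 0 := fun s h => by
    have h1 : Finsupp.single (some s) (Finsupp.single (some s) (1 : ZMod 2) (some s)) = 0 :=
      congrArg Subtype.val h
    rw [Finsupp.single_eq_same, Finsupp.single_eq_zero] at h1
    exact one_ne_zero h1
  have sup : ∀ i (y : F.obj i), g i y ≠ 0 → ∃ n k, Supp (F.obj i) = Cs n k := fun i y hy =>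
    (hF i).2.resolve_left fun h => hy (by rw [Subsingleton.elim y 0, map_zero])
  obtain ⟨i, y, hy⟩ := rep ⟨_, single_mem (Set.mem_univ (Sum.inr 0))⟩
  have hy0 : g i y ≠ 0 := fun h => ne (Sum.inr 0) (by rw [← hy, h, smul_zero])
  obtain ⟨n, k, hn⟩ := sup i y hy0
  obtain ⟨j0, y0, hy1⟩ := rep ⟨_, single_mem (Set.mem_univ (Sum.inr n))⟩
  obtain ⟨j, hi, hj⟩ := exists_ge_ge i j0
  have hy2 : g j ((F.map (homOfLE hi)).hom y) ≠ 0 := by rwa [w]
  obtain ⟨m, k', hm⟩ := sup j _ hy2
  have hinj := (zero_or_inj (pr none) (hF i).1 (hF j).1 (F.map (homOfLE hi)).hom).resolve_left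
    fun h => hy2 (by rw [h, map_zero])
  have hsub : Cs n k ⊆ Cs m k' := by
    rw [← hn, ← hm]
    rintro s ⟨x, hx⟩
    exact ⟨(F.map (homOfLE hi)).hom x, fun h => hx (hinj _ (by rwa [map_smul]))⟩
  have hmn : m = n := by
    by_contra h
    have : (Sum.inl (m, k') : S) ∈ Cs m k' := hsub (Or.inl h)
    rcases this with h' | h'
    · exact h' rfl
    · exact lt_irrefl _ h'
  have : (Sum.inr n : S) ∈ Cs m k' := by
    rw [← hm]
    refine ⟨(F.map (homOfLE hj)).hom y0, fun h => ne (Sum.inr n) ?_⟩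
    rw [← hy1, ← w (homOfLE hj), ← map_smul, h, map_zero]
  rw [hmn] at this
  exact lt_irrefl n this


/-- The negation of the preceding statement: For any ring and any class C of modules, if the class of direct limits of modules from C is closed under direct summands, then it is closed under direct limits over directed sets. -/
theorem result :
    ¬ (∀ (R : Type) [Ring R] (C : Set (ModuleCat.{0} R)) (L : ModuleCat.{0} R → Prop),
    (∀ M : ModuleCat.{0} R, L M ↔
      ∃ (ι : Type) (_ : Preorder ι) (_ : IsDirected ι (· ≤ ·)) (_ : Nonempty ι)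
        (F : ι ⥤ ModuleCat.{0} R) (c : Cocone F),
        Nonempty (IsColimit c) ∧ Nonempty (c.pt ≅ M) ∧ ∀ i, F.obj i ∈ C) →
    (∀ (M N : ModuleCat.{0} R) (s : N ⟶ M) (r : M ⟶ N), s ≫ r = 𝟙 N → L M → L N) →
    ∀ (ι : Type) (_ : Preorder ι) (_ : IsDirected ι (· ≤ ·)) (_ : Nonempty ι)
      (F : ι ⥤ ModuleCat.{0} R) (c : Cocone F),
      Nonempty (IsColimit c) → (∀ i, L (F.obj i)) → L c.pt) := by
  intro H
  apply not_lim
  refine H RR CC (Lim CC) (fun M => Iff.rfl)
    (lim_retract (pr none) CC (fun M hM => hM.1) fun M hM => ⟨⟨fun x y _ _ => Subsingleton.elim _ _,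
      fun x hx => absurd (Subsingleton.elim _ _) hx⟩, Or.inl hM⟩)
    ℕ inferInstance inferInstance inferInstance (chainF _ Ds_mono)
    (chainC _ _ (MM Set.univ) fun n => MM_mono (Set.subset_univ _)) (chain_colim _ _ _ _ ?_) lim_D
  intro x _
  obtain ⟨k, hk⟩ := bound x (Sum.elim (fun _ => 0) id)
  refine ⟨k, ?_⟩
  rintro (⟨p, q⟩ | m) hs
  · exact absurd trivial hs
  · by_contra h
    exact hs (hk _ h)

end Pool.Agent.S03082
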