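import Pool.Statements.S03098

set_option autoImplicit false
open Pool Pool.MP_ce123d_al

namespace Pool.Agent.S03098

inductive E
  | g (n : ℤ) | x (n : ℤ) | y (n : ℤ) | m (i : Bool) (n : ℤ) | l (i : Bool) (n : ℤ) | r (i : Bool) (n : ℤ)
  | z | o

open E

def P : Bool → ℤ → Prop
  | false, n => n = 0 ∨ n = 1
  | true, n => ∃ k : ℕ, n = 2 ^ k ∨ n = 3 * 2 ^ k

open Classical in
noncomputable def p (i : Bool) (n : ℤ) : E := if P i n then z else o

lemma pc (i : Bool) (n : ℤ) : p i n = z ∨ p i n = o := by unfold p; split_ifs <;> simp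

noncomputable def mul : E → E → E
  | g n, g k => g (n + k)
  | g _, x a => x a
  | g n, y a => y (n + a)
  | g n, m i a => m i (n + a)
  | g _, l i a => l i a
  | g n, r i a => r i (n + a)
  | g _, z => z
  | x a, g n => x (a + n)
  | x a, m i b => l i (a + b)
  | x a, r i b => p i (a + b)
  | y a, g _ => y a
  | m i a, g n => m i (a + n)
  | m i a, y b => r i (a + b)
  | l i a, g n => l i (a + n)
  | l i a, y b => p i (a + b)
  | r i a, g _ => r i a
  | z, g _ => z
  | _, _ => o

lemma gp (n i k) : mul (g n) (p i k) = p i k := by rcases pc i k with h | h <;> rw [h] <;> rfl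
lemma pg (n i k) : mul (p i k) (g n) = p i k := by rcases pc i k with h | h <;> rw [h] <;> rfl
lemma ap (a i k) (h : ∀ n, a ≠ g n) : mul a (p i k) = o := by
  rcases pc i k with h | h <;> rw [h] <;> cases a <;> simp_all [mul]
lemma pa (a i k) (h : ∀ n, a ≠ g n) : mul (p i k) a = o := by
  rcases pc i k with h | h <;> rw [h] <;> cases a <;> simp_all [mul]

noncomputable instance : Semigroup E where
  mul := mul
  mul_assoc a b c := by
    show mul (mul a b) c = mul a (mul b c)
    cases a <;> cases b <;> cases c <;>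
      first
        | exact (gp _ _ _).symm | exact pg _ _ _ | exact (ap _ _ _ (by simp)).symm | exact pa _ _ _ (by simp)
        | simp only [mul, add_assoc]

@[simp] lemma pm (i n j k) : p i n ≠ m j k := by rcases pc i n with h | h <;> simp [h]
@[simp] lemma pg' (i n k) : p i n ≠ g k := by rcases pc i n with h | h <;> simp [h]

lemma me (a b : E) : a * b = mul a b := rfl

def T : Subsemigroup E where
  carrier := {s | ∀ a, s ≠ m true a}
  mul_mem' {a b} ha hb := by
    cases a <;> cases b <;> simp_all [me, mul]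

lemma mT {s} : s ∈ T ↔ ∀ a, s ≠ m true a := Iff.rfl

lemma P2 (n : ℤ) : P true (2 * n) ↔ P true n := by
  refine ⟨?_, fun ⟨k, h⟩ => ⟨k + 1, by rw [pow_succ]; omega⟩⟩
  rintro ⟨_ | k, h⟩
  · omega
  · exact ⟨k, by rw [pow_succ] at h; omega⟩

lemma P1 (n : ℤ) : P true (2 * n + 1) ↔ P false n := by
  refine ⟨?_, fun h => ⟨0, by simp only [P] at h; omega⟩⟩
  rintro ⟨_ | k, h⟩
  · simp only [P]; omega
  · rw [pow_succ] at h; omega

def c : Bool → ℤ → ℤ
  | false, n => 2 * n + 1
  | true, n => 2 * n

def φ : E → E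
  | g n => g (2 * n) | x n => x (2 * n) | y n => y (2 * n)
  | m i n => m true (c i n) | l i n => l true (c i n) | r i n => r true (c i n)
  | z => z | o => o

lemma φp (i n) : φ (p i n) = p true (c i n) := by
  have : P true (c i n) ↔ P i n := by cases i; exacts [P1 n, P2 n]
  by_cases h : P i n <;> simp only [p, this, h, if_true, if_false] <;> rfl

lemma core (F : E → E) (hm : ∀ s t, s ∈ T → t ∈ T → F (s * t) = F s * F t) (hi : Set.InjOn F T)
    (ht : ∀ s ∈ T, F s ∈ T) : ∀ s ∈ T, ∃ t ∈ T, F t = s := by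
  have id : ∀ s : E, s * s = s → s = g 0 ∨ s = o := fun s h => by
    cases s <;> simp_all [me, mul]
  have ne : ∀ s t, s ∈ T → t ∈ T → s ≠ t → F s ≠ F t := fun s t a b h e => h (hi a b e)
  simp only [mT] at hm ne ht
  have o1 := hm (g 0) o (by simp) (by simp)
  have g0 : F (g 0) = g 0 := (id _ (hm (g 0) (g 0) (by simp) (by simp)).symm).resolve_right fun h =>
    ne (g 0) o (by simp) (by simp) (by simp) (by rw [h] at o1 ⊢; exact o1.symm)
  have oo : F o = o := (id _ (hm o o (by simp) (by simp)).symm).resolve_left fun h =>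
    ne (g 0) o (by simp) (by simp) (by simp) (g0.trans h.symm)
  obtain ⟨k, k1, k2⟩ : ∃ k, F (g 1) = g k ∧ F (g (-1)) = g (-k) := by
    have : F (g 1) * F (g (-1)) = g 0 := (hm (g 1) (g (-1)) (by simp) (by simp)).symm.trans (by exact g0)
    generalize F (g 1) = a at this
    generalize F (g (-1)) = b at this
    cases a <;> cases b <;> simp [me, mul] at this ⊢
    omega
  have gn : ∀ n, F (g n) = g (k * n) := fun n => by
    induction n using Int.induction_on with
    | zero => simpa using g0
    | succ n ih => rw [show g (n + 1) = g n * g 1 from rfl, hm _ _ (by simp) (by simp), ih, k1, mul_add, mul_one]; rfl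
    | pred n ih =>
      rw [show g (-n - 1) = g (-n) * g (-1) from rfl, hm _ _ (by simp) (by simp), ih, k2, mul_sub, mul_one]; rfl
  have tl : ∀ s, (∀ a, s ≠ m true a) → g 1 * s = s → s * g 1 ≠ s →
      (∃ a, F s = x a) ∨ ∃ i a, F s = l i a := fun s h h1 h2 => by
    have a := hm (g 1) s (by simp) h
    have b := ne _ _ (T.mul_mem h (by simp [mT])) h h2
    rw [hm _ _ h (by simp), k1] at b
    rw [h1, k1] at a
    generalize F s = u at a b
    cases u <;> simp [me, mul] at a b ⊢ <;> contradiction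
  have tr : ∀ s, (∀ a, s ≠ m true a) → s * g 1 = s → g 1 * s ≠ s →
      (∃ a, F s = y a) ∨ ∃ i a, F s = r i a := fun s h h1 h2 => by
    have a := hm s (g 1) h (by simp)
    have b := ne _ _ (T.mul_mem (by simp [mT]) h) h h2
    rw [hm _ _ (by simp) h, k1] at b
    rw [h1, k1] at a
    generalize F s = u at a b
    cases u <;> simp [me, mul] at a b ⊢ <;> contradiction
  obtain ⟨c, hc⟩ : ∃ c, F (m false 0) = m false c := by
    have a := ne (g 1 * m false 0) (m false 0) (by simp [me, mul]) (by simp) (by simp [me, mul])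
    have b := ne (m false 0 * g 1) (m false 0) (by simp [me, mul]) (by simp) (by simp [me, mul])
    have d := (hm (m false 0) (m false 0) (by simp) (by simp)).symm.trans oo
    have e := ht (m false 0) (by simp)
    rw [hm _ _ (by simp) (by simp), k1] at a b
    generalize F (m false 0) = u at a b d e
    rcases u with n | n | n | ⟨_ | _, n⟩ | _ | _ | _ | _ <;> simp [me, mul] at a b d e ⊢
  obtain ⟨a, ha⟩ : ∃ a, F (x 0) = x a := (tl _ (by simp) rfl (by simp [me, mul])).resolve_right (by
    rintro ⟨i, a, h⟩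
    have := ne (x 0 * m false 0) o (by simp [me, mul]) (by simp) (by simp [me, mul])
    rw [hm _ _ (by simp) (by simp), h, hc, oo] at this
    exact this rfl)
  obtain ⟨b, hb⟩ : ∃ a, F (y 0) = y a := (tr _ (by simp) rfl (by simp [me, mul])).resolve_right (by
    rintro ⟨i, a, h⟩
    have := ne (m false 0 * y 0) o (by simp [me, mul]) (by simp) (by simp [me, mul])
    rw [hm _ _ (by simp) (by simp), h, hc, oo] at this
    exact this rfl)
  have lf : F (l false 0) = l false (a + c) := by
    rw [show l false 0 = x 0 * m false 0 from rfl, hm _ _ (by simp) (by simp), ha, hc]; rfl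
  have rf : F (r false 0) = r false (c + b) := by
    rw [show r false 0 = m false 0 * y 0 from rfl, hm _ _ (by simp) (by simp), hb, hc]; rfl
  have zz : ∀ n, n = 0 ∨ n = 1 → F z = z ∧ P false (a + c + k * n + b) := fun n hn => by
    have h : z = l false 0 * g n * y 0 := by simp [me, mul, p, P, hn]
    have h1 := ne z o (by simp) (by simp) (by simp)
    have h2 : F z = p false (a + c + k * n + b) := by
      rw [h, hm _ _ (by simp [me, mul]) (by simp), hm _ _ (by simp) (by simp), lf, gn, hb]; rfl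
    rw [oo, h2] at h1
    unfold p at h1 h2
    split_ifs at h1 h2 with h3
    exacts [⟨h2, h3⟩, absurd rfl h1]
  have kk : k * k = 1 := by
    have h0 := (zz 0 (.inl rfl)).2
    have h1 := (zz 1 (.inr rfl)).2
    have := ne (g 1) (g 0) (by simp) (by simp) (by simp)
    simp only [P, k1, g0, ne_eq, g.injEq] at *
    obtain rfl | rfl : k = 1 ∨ k = -1 := by omega
    all_goals rfl
  have kn : ∀ n d : ℤ, d + k * (k * (n - d)) = n := fun n d => by rw [← mul_assoc, kk]; ring
  have R : ∀ s d (u : ℤ → E), (∀ a, s ≠ m true a) → (∀ a n, u a * g n = u (a + n)) → F s = u d →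
      ∀ n, F (s * g (k * (n - d))) = u n := fun s d u h1 h2 h3 n => by
    rw [hm _ _ h1 (by simp), gn, h3, h2, kn]
  have L : ∀ s d (u : ℤ → E), (∀ a, s ≠ m true a) → (∀ a n, g n * u a = u (n + a)) → F s = u d →
      ∀ n, F (g (k * (n - d)) * s) = u n := fun s d u h1 h2 h3 n => by
    rw [hm _ _ (by simp) h1, gn, h3, h2, add_comm, kn]
  have X := R _ _ x (by simp) (fun _ _ => rfl) ha
  have Y := L _ _ y (by simp) (fun _ _ => rfl) hb
  have Lf := R _ _ (l false) (by simp) (fun _ _ => rfl) lf
  have Rf := L _ _ (r false) (by simp) (fun _ _ => rfl) rf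
  obtain ⟨d, hd⟩ : ∃ d, F (l true 0) = l true d := by
    rcases tl (l true 0) (by simp) rfl (by simp [me, mul]) with ⟨d, h⟩ | ⟨_ | _, d, h⟩
    · exact absurd ((X d).trans h.symm) (ne _ _ (by simp [me, mul]) (by simp) (by simp [me, mul]))
    · exact absurd ((Lf d).trans h.symm) (ne _ _ (by simp [me, mul]) (by simp) (by simp [me, mul]))
    · exact ⟨d, h⟩
  obtain ⟨e, he⟩ : ∃ d, F (r true 0) = r true d := by
    rcases tr (r true 0) (by simp) rfl (by simp [me, mul]) with ⟨d, h⟩ | ⟨_ | _, d, h⟩
    · exact absurd ((Y d).trans h.symm) (ne _ _ (by simp [me, mul]) (by simp) (by simp [me, mul]))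
    · exact absurd ((Rf d).trans h.symm) (ne _ _ (by simp [me, mul]) (by simp) (by simp [me, mul]))
    · exact ⟨d, h⟩
  rintro (n | n | n | ⟨_ | _, n⟩ | ⟨_ | _, n⟩ | ⟨_ | _, n⟩ | _ | _) hs
  · exact ⟨_, by simp [mT, me, mul], R _ _ g (by simp) (fun _ _ => rfl) g0 n⟩
  · exact ⟨_, by simp [mT, me, mul], X n⟩
  · exact ⟨_, by simp [mT, me, mul], Y n⟩
  · exact ⟨_, by simp [mT, me, mul], R _ _ (m false) (by simp) (fun _ _ => rfl) hc n⟩
  · exact absurd rfl (hs n)
  · exact ⟨_, by simp [mT, me, mul], Lf n⟩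
  · exact ⟨_, by simp [mT, me, mul], R _ _ (l true) (by simp) (fun _ _ => rfl) hd n⟩
  · exact ⟨_, by simp [mT, me, mul], Rf n⟩
  · exact ⟨_, by simp [mT, me, mul], L _ _ (r true) (by simp) (fun _ _ => rfl) he n⟩
  · exact ⟨_, hs, (zz 0 (.inl rfl)).1⟩
  · exact ⟨_, hs, oo⟩

/-- The negation of the preceding statement: For any semigroup S and finitely generated subsemigroup T whose complement splits into finitely many relative H-classes (finite Green index): if every injective endomorphism of T is surjective, then every injective endomorphism of S is surjective. -/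
theorem result :
    ¬ (∀ (S : Type) [Semigroup S] (T : Subsemigroup S),
      (∃ G : Finset S, Subsemigroup.closure (G : Set S) = T) →
      (∃ F : Finset S, ∀ u : S, u ∉ T → ∃ v ∈ F, v ∉ T ∧
        ((u = v ∨ ∃ t ∈ T, u = v * t) ∧ (v = u ∨ ∃ t ∈ T, v = u * t)) ∧
        ((u = v ∨ ∃ t ∈ T, u = t * v) ∧ (v = u ∨ ∃ t ∈ T, v = t * u))) →
      (∀ f : T →ₙ* T, Function.Injective f → Function.Surjective f) →
      ∀ f : S →ₙ* S, Function.Injective f → Function.Surjective f) := by
  classical
  intro H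
  have := H E T ⟨{g 1, g (-1), x 0, y 0, m false 0, l true 0, r true 0}, le_antisymm
    (Subsemigroup.closure_le.2 (by simp [Set.insert_subset_iff, mT])) ?_⟩ ⟨{m true 0}, ?_⟩ ?_
    ⟨φ, fun a b => ?_⟩ fun a b h => ?_
  · obtain ⟨a, h⟩ := this (g 1)
    cases a <;> simp [φ] at h
    omega
  · set C := Subsemigroup.closure (↑({g 1, g (-1), x 0, y 0, m false 0, l true 0, r true 0} : Finset E) : Set E)
    have b : ∀ s ∈ ({g 1, g (-1), x 0, y 0, m false 0, l true 0, r true 0} : Finset E), s ∈ C :=
      fun s h => Subsemigroup.subset_closure h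
    have gn : ∀ n, g n ∈ C := fun n => by
      induction n using Int.induction_on with
      | zero => exact C.mul_mem (b (g 1) (by simp)) (b (g (-1)) (by simp))
      | succ n ih => exact C.mul_mem ih (b (g 1) (by simp))
      | pred n ih => exact C.mul_mem ih (b (g (-1)) (by simp))
    have X : ∀ n, x n ∈ C := fun n => by simpa [me, mul] using C.mul_mem (b (x 0) (by simp)) (gn n)
    have Y : ∀ n, y n ∈ C := fun n => by simpa [me, mul] using C.mul_mem (gn n) (b (y 0) (by simp))
    have M : ∀ n, m false n ∈ C := fun n => by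
      simpa [me, mul] using C.mul_mem (gn n) (b (m false 0) (by simp))
    rintro (n | n | n | ⟨_ | _, n⟩ | ⟨_ | _, n⟩ | ⟨_ | _, n⟩ | _ | _) hs
    exacts [gn n, X n, Y n, M n, absurd rfl (hs n), by simpa [me, mul] using C.mul_mem (X 0) (M n),
      by simpa [me, mul] using C.mul_mem (b (l true 0) (by simp)) (gn n),
      by simpa [me, mul] using C.mul_mem (M n) (Y 0),
      by simpa [me, mul] using C.mul_mem (gn n) (b (r true 0) (by simp)),
      by simpa [me, mul, p, P] using C.mul_mem (C.mul_mem (X 0) (M 0)) (Y 0), C.mul_mem (X 0) (X 0)]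
  · intro u hu
    simp only [mT, not_forall, not_not] at hu
    obtain ⟨a, rfl⟩ := hu
    exact ⟨_, Finset.mem_singleton_self _, fun h => h 0 rfl,
      ⟨.inr ⟨g a, by simp [mT], by simp [me, mul]⟩, .inr ⟨g (-a), by simp [mT], by simp [me, mul]⟩⟩,
      .inr ⟨g a, by simp [mT], by simp [me, mul]⟩, .inr ⟨g (-a), by simp [mT], by simp [me, mul]⟩⟩
  · intro f hf s
    obtain ⟨t, h1, h2⟩ := core (fun s => if h : s ∈ T then (f ⟨s, h⟩).1 else s)
      (fun s t a b => by
        simp only [a, b, T.mul_mem a b, dif_pos]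
        exact congrArg Subtype.val (map_mul f ⟨s, a⟩ ⟨t, b⟩))
      (fun s a t b h => by
        simp only [show s ∈ T from a, show t ∈ T from b, dif_pos] at h
        exact congrArg Subtype.val (hf (Subtype.ext h)))
      (fun s a => by simp only [a, dif_pos]; exact (f _).2) s.1 s.2
    exact ⟨⟨t, h1⟩, Subtype.ext (by simpa only [h1, dif_pos] using h2)⟩
  · rcases a with n | n | n | ⟨_ | _, n⟩ | ⟨_ | _, n⟩ | ⟨_ | _, n⟩ | _ | _ <;>
    rcases b with n | n | n | ⟨_ | _, n⟩ | ⟨_ | _, n⟩ | ⟨_ | _, n⟩ | _ | _ <;>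
    first | rfl | (simp only [me, mul, φp]; simp only [φ, mul, c]; congr 1; ring)
  · rcases a with n | n | n | ⟨_ | _, n⟩ | ⟨_ | _, n⟩ | ⟨_ | _, n⟩ | _ | _ <;>
    rcases b with n | n | n | ⟨_ | _, n⟩ | ⟨_ | _, n⟩ | ⟨_ | _, n⟩ | _ | _ <;>
    simp [φ, c] at h ⊢ <;> omega

end Pool.Agent.S03098
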