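import Pool.Statements.S03180

set_option autoImplicit false
open Pool Pool.MP_d4d493_al

namespace Pool.Agent.S03180

section General
variable {K F : Type} [Field K] [Field F] [Algebra K F]

/-- the Lie algebra `F ⊕ F` with bracket `[(a,x),(b,y)] = (0, a σ b - b σ a)` -/
def Alg (_σ : F →ₐ[K] F) : Type := F × F

variable (σ : F →ₐ[K] F)

instance : AddCommGroup (Alg σ) := inferInstanceAs (AddCommGroup (F × F))
instance : Module K (Alg σ) := inferInstanceAs (Module K (F × F))

def mk (a x : F) : Alg σ := (a, x)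

instance : Bracket (Alg σ) (Alg σ) := ⟨fun u v => mk σ 0 (u.1 * σ v.1 - v.1 * σ u.1)⟩

lemma br (u v : Alg σ) : ⁅u, v⁆ = mk σ 0 (u.1 * σ v.1 - v.1 * σ u.1) := rfl

lemma ext' {u v : Alg σ} (h1 : u.1 = v.1) (h2 : u.2 = v.2) : u = v := Prod.ext h1 h2

@[simp] lemma mk1 (a x : F) : (mk σ a x).1 = a := rfl
@[simp] lemma mk2 (a x : F) : (mk σ a x).2 = x := rfl
@[simp] lemma add1 (u v : Alg σ) : (u + v).1 = u.1 + v.1 := rfl
@[simp] lemma add2 (u v : Alg σ) : (u + v).2 = u.2 + v.2 := rfl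
@[simp] lemma sub1 (u v : Alg σ) : (u - v).1 = u.1 - v.1 := rfl
@[simp] lemma sub2 (u v : Alg σ) : (u - v).2 = u.2 - v.2 := rfl
@[simp] lemma zero1 : (0 : Alg σ).1 = 0 := rfl
@[simp] lemma zero2 : (0 : Alg σ).2 = 0 := rfl
@[simp] lemma smul1 (r : K) (u : Alg σ) : (r • u).1 = r • u.1 := rfl
@[simp] lemma smul2 (r : K) (u : Alg σ) : (r • u).2 = r • u.2 := rfl

instance : LieRing (Alg σ) where
  add_lie u v w := by
    apply ext' <;> simp [br]
    ring
  lie_add u v w := by
    apply ext' <;> simp [br]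
    ring
  lie_self u := by
    apply ext' <;> simp [br]
  leibniz_lie u v w := by
    apply ext' <;> simp [br]

instance : LieAlgebra K (Alg σ) where
  lie_smul r u v := by
    apply ext' <;> simp [br, smul_sub]

def inl : F →ₗ[K] Alg σ where
  toFun a := mk σ a 0
  map_add' a b := by apply ext' <;> simp
  map_smul' r a := by apply ext' <;> simp

theorem general [IsAlgClosed K] (hfix : ∀ a : F, σ a = a → ∃ r : K, a = algebraMap K F r)
    (t : F) (ht : σ (σ t) ≠ t) :
    (∀ x y z : Alg σ, ⁅x, ⁅y, z⁆⁆ = 0) ∧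
    (∀ x : Alg σ, (∃ y : Alg σ, ⁅x, y⁆ ≠ 0) →
        ∃ W : Submodule K (Alg σ), FiniteDimensional K W ∧
          ∀ y : Alg σ, ⁅x, y⁆ = 0 →
            ∃ w ∈ W, ∃ z : Alg σ, (∀ u : Alg σ, ⁅z, u⁆ = 0) ∧ y = w + z) ∧
    ∀ I : LieIdeal K (Alg σ), FiniteDimensional K (Alg σ ⧸ (I : Submodule K (Alg σ))) →
      mk σ 0 1 ∈ I := by
  refine ⟨?_, ?_, ?_⟩
  · intro x y z
    apply ext' <;> simp [br]
  · rintro x ⟨y0, hy0⟩
    have ha : x.1 ≠ 0 := by
      intro h
      apply hy0
      apply ext' <;> simp [br, h]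
    refine ⟨Submodule.span K {mk σ x.1 0}, inferInstance, ?_⟩
    intro y hy
    have h2 := congrArg Prod.snd hy
    have h3 : x.1 * σ y.1 - y.1 * σ x.1 = 0 := h2
    have hs : σ x.1 ≠ 0 := by simpa using ha
    obtain ⟨r, hr⟩ := hfix (y.1 / x.1) (by
      rw [map_div₀, div_eq_div_iff hs ha]
      linear_combination h3)
    refine ⟨r • mk σ x.1 0, Submodule.smul_mem _ _ (Submodule.subset_span rfl), mk σ 0 y.2, ?_, ?_⟩
    · intro u
      apply ext' <;> simp [br]
    · apply ext'
      · simp only [add1, smul1, mk1, add_zero, Algebra.smul_def, ← hr]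
        field_simp
      · simp
  · intro I hI
    have hinf : ¬ FiniteDimensional K F := by
      intro hF
      obtain ⟨c, hc⟩ := (IsAlgClosed.algebraMap_bijective_of_isIntegral (k := K) (K := F)).2 t
      apply ht
      rw [← hc]
      simp
    let q := (I : Submodule K (Alg σ)).mkQ ∘ₗ inl σ
    let f := q.prod (q ∘ₗ LinearMap.mulLeft K (σ t))
    have hf : ¬ Function.Injective f := fun h => hinf (FiniteDimensional.of_injective f h)
    rw [← LinearMap.ker_eq_bot] at hf
    obtain ⟨w, hw, hw0⟩ := Submodule.exists_mem_ne_zero_of_ne_bot hf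
    rw [LinearMap.mem_ker] at hw
    have h1 : mk σ w 0 ∈ I := by
      have := congrArg Prod.fst hw
      exact (Submodule.Quotient.mk_eq_zero _).1 this
    have h2 : mk σ (σ t * w) 0 ∈ I := by
      have := congrArg Prod.snd hw
      exact (Submodule.Quotient.mk_eq_zero _).1 this
    have hs : σ w ≠ 0 := by simpa using hw0
    have hd : σ (σ t) - t ≠ 0 := sub_ne_zero.2 ht
    let b : F := ((σ (σ t) - t) * σ w)⁻¹
    have hb : (σ (σ t) - t) * σ w * b = 1 := mul_inv_cancel₀ (mul_ne_zero hd hs)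
    have h3 := I.sub_mem (lie_mem_left K _ I _ (mk σ (t * b) 0) h1) (lie_mem_left K _ I _ (mk σ b 0) h2)
    have e : ⁅mk σ w 0, mk σ (t * b) 0⁆ - ⁅mk σ (σ t * w) 0, mk σ b 0⁆ = mk σ 0 1 := by
      apply ext'
      · simp [br]
      · simp only [br, sub2, mk1, mk2, map_mul]
        linear_combination hb
    rw [← e]
    exact h3

end General

def dbl : ℤ →+ ℤ where
  toFun n := 2 * n
  map_zero' := by simp
  map_add' a b := by ring

lemma dbl_inj : Function.Injective dbl := by
  intro a b h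
  have : 2 * a = 2 * b := h
  omega

lemma dbl_le (a b : ℤ) : dbl a ≤ dbl b ↔ a ≤ b := by
  show 2 * a ≤ 2 * b ↔ a ≤ b
  omega

def FF : Type := HahnSeries ℤ ℂ
noncomputable instance : Field FF := inferInstanceAs (Field (HahnSeries ℤ ℂ))
noncomputable instance : Algebra ℂ FF := HahnSeries.instAlgebra (Γ := ℤ) (R := ℂ) (A := ℂ)

noncomputable def sig : FF →ₐ[ℂ] FF :=
  HahnSeries.embDomainAlgHom (R := ℂ) (A := ℂ) dbl dbl_inj dbl_le

lemma sig_even (f : FF) (n : ℤ) : HahnSeries.coeff (sig f) (2 * n) = HahnSeries.coeff f n :=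
  HahnSeries.embDomain_coeff (f := ⟨⟨dbl, dbl_inj⟩, dbl_le _ _⟩) (x := f) (a := n)

lemma sig_odd (f : FF) (n : ℤ) : HahnSeries.coeff (sig f) (2 * n + 1) = 0 := by
  apply HahnSeries.embDomain_of_notMem_range (f := ⟨⟨dbl, dbl_inj⟩, dbl_le _ _⟩) (x := f)
  rintro ⟨m, hm⟩
  have : 2 * m = 2 * n + 1 := hm
  omega

lemma sig_fix (f : FF) (h : sig f = f) : ∃ r : ℂ, f = algebraMap ℂ _ r := by
  have key : ∀ k : ℕ, ∀ n : ℤ, n.natAbs = k → n ≠ 0 → HahnSeries.coeff f n = 0 := by
    intro k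
    induction k using Nat.strong_induction_on with
    | _ k ih =>
      intro n hn h0
      rcases Int.even_or_odd' n with ⟨m, rfl | rfl⟩
      · rw [← h, sig_even]
        exact ih m.natAbs (by omega) m rfl (by omega)
      · rw [← h, sig_odd]
  refine ⟨HahnSeries.coeff f 0, ?_⟩
  apply HahnSeries.ext
  funext n
  have : (algebraMap ℂ FF) (HahnSeries.coeff f 0) = HahnSeries.single (0 : ℤ) (HahnSeries.coeff f 0) := rfl
  rw [this]
  by_cases hn : n = 0
  · subst hn; simp
  · rw [key _ n rfl hn, HahnSeries.coeff_single_of_ne hn]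

noncomputable def tt : FF := HahnSeries.single (1 : ℤ) (1 : ℂ)

lemma sig_t : sig (sig tt) ≠ tt := by
  intro h
  have h1 := sig_odd (sig tt) 0
  rw [h] at h1
  simp [tt] at h1


/-- The negation of the preceding statement: Let L be a 2-step nilpotent Lie algebra over an algebraically closed field, where each non-central element's centralizer lies in a finite-dimensional subspace plus the center. Then every nonzero element lies outside some Lie ideal of finite codimension. -/
theorem result :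
    ¬ (∀ (K : Type) (L : Type) [Field K] [IsAlgClosed K] [LieRing L] [LieAlgebra K L],
      (∀ x y z : L, ⁅x, ⁅y, z⁆⁆ = 0) →
      (∀ x : L, (∃ y : L, ⁅x, y⁆ ≠ 0) →
        ∃ W : Submodule K L, FiniteDimensional K W ∧
          ∀ y : L, ⁅x, y⁆ = 0 →
            ∃ w ∈ W, ∃ z : L, (∀ u : L, ⁅z, u⁆ = 0) ∧ y = w + z) →
      ∀ x : L, x ≠ 0 →
        ∃ I : LieIdeal K L, x ∉ I ∧ FiniteDimensional K (L ⧸ (I : Submodule K L))) := by
  intro H
  obtain ⟨h1, h2, h3⟩ := general sig sig_fix _ sig_t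
  obtain ⟨I, hI, hfin⟩ := H ℂ (Alg sig) h1 h2 (mk sig 0 1) (by
    intro h
    have := congrArg Prod.snd h
    exact one_ne_zero (α := FF) this)
  exact hI (h3 I hfin)

end Pool.Agent.S03180
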