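import Pool.Statements.S03188
import Pool.Agent.Lib.helper12.RapidExp

set_option autoImplicit false
open scoped Pointwise Classical
open Pool Pool.MP_d581c5_al

namespace Pool.Agent.S03188

/-- The negation of the preceding statement: For every group with a length function, if there are C>0 and d with ∣S∣∣X∣ ≤ C(1+r)^d ∣SX∣ whenever S has lengths ≤ r, then the group has property RD: convolution by f supported in the r-ball has ℓ² norm ≤ C'(1+r)^d' ‖f‖₂. -/
theorem result :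
    ¬ (∀ (G : Type) [Group G] (L : G → ℝ),
      (∀ g, 0 ≤ L g) → L 1 = 0 → (∀ g, L g⁻¹ = L g) →
      (∀ g h, L (g * h) ≤ L g + L h) →
      (∃ C : ℝ, 0 < C ∧ ∃ d : ℕ, ∀ r : ℝ, 0 ≤ r → ∀ S X : Finset G,
          (∀ s ∈ S, L s ≤ r) →
          (S.card : ℝ) * (X.card : ℝ) ≤ C * (1 + r) ^ d * ((S * X).card : ℝ)) →
      ∃ C : ℝ, 0 < C ∧ ∃ d : ℕ, ∀ r : ℝ, 0 ≤ r →
        ∀ (A B : Finset G) (f g : G → ℂ), (∀ y ∈ A, L y ≤ r) →
          ∑ x ∈ A * B, ‖∑ p ∈ (A ×ˢ B).filter (fun p => p.1 * p.2 = x), f p.1 * g p.2‖ ^ 2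
            ≤ (C * (1 + r) ^ d) ^ 2 * (∑ y ∈ A, ‖f y‖ ^ 2) * (∑ z ∈ B, ‖g z‖ ^ 2)) := by
  intro h
  let _ : DecidableEq Pool.Agent.Lib.helper12.RapidExp.G := fun a b => Classical.propDecidable (a = b)
  open Pool.Agent.Lib.helper12.RapidExp in
  obtain ⟨C, hC, d, h⟩ := h G (fun g => len g) (fun g => by positivity)
    (by simp [len, seg]) (fun g => by rw [len_inv]) (fun g h => by exact_mod_cast len_mul g h)
    ⟨40, by norm_num, 1, fun r hr S X hS => by
      have h1 := rapid S X ⌊r⌋₊ fun s hs => Nat.le_floor (hS s hs)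
      have h2 : (S.card : ℝ) * X.card ≤ 20 * (2 * ⌊r⌋₊ + 1) * (S * X).card := by exact_mod_cast h1
      have h3 := Nat.floor_le hr
      refine h2.trans (mul_le_mul_of_nonneg_right (by linarith) (by positivity))⟩
  obtain ⟨n, hn⟩ := exists_nat_gt (2 * (C * (1 + 1) ^ d) ^ 2)
  have h1 := h 1 zero_le_one (A n) (A n)⁻¹ (fun _ => 1) (fun _ => 1) fun y hy => by
    obtain ⟨u, -, rfl⟩ := Finset.mem_image.1 hy
    exact_mod_cast W_len n u
  have h2 := energy n
  rw [Finset.mulEnergy_eq_sum_sq'] at h2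
  have h3 : ((n : ℝ) + 2) * 4 ^ n ≤ 2 * ∑ x ∈ A n * (A n)⁻¹,
      ((((A n) ×ˢ (A n)⁻¹).filter (fun p => p.1 * p.2 = x)).card : ℝ) ^ 2 := by exact_mod_cast h2
  simp only [mul_one, Finset.sum_const, nsmul_eq_mul, Complex.norm_natCast, norm_one, one_pow,
    Finset.card_inv, card_A] at h1
  have h4 : ((2 ^ n : ℕ) : ℝ) * ((2 ^ n : ℕ) : ℝ) = 4 ^ n := by
    push_cast; rw [← mul_pow]; norm_num
  rw [mul_assoc, h4] at h1
  have h5 : (0 : ℝ) < 4 ^ n := by positivity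
  have h6 := h3.trans (mul_le_mul_of_nonneg_left h1 (by norm_num))
  nlinarith [mul_lt_mul_of_pos_right hn h5]

end Pool.Agent.S03188
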