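import Pool.Statements.S03202
import Pool.Agent.Lib.helper24.InvGen

set_option autoImplicit false
open Pool Pool.MP_d69214_al

namespace Pool.Agent.S03202

open Pool.Agent.Lib.helper24.InvGen Matrix MatrixGroups

/-- The negation of the preceding statement: For every field K and n, if a subgroup G of GL_n(K) is invariably generated (every subset meeting all conjugacy classes of G generates G), then G has a solvable subgroup of finite index. -/
theorem result :
    ¬ (∀ (K : Type) [Field K] (n : ℕ) (G : Subgroup (Matrix.GeneralLinearGroup (Fin n) K)),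
      (∀ S : Set G, (∀ g : G, ∃ s ∈ S, IsConj g s) → Subgroup.closure S = ⊤) →
      ∃ H : Subgroup G, H.FiniteIndex ∧ IsSolvable H) := by
  intro h
  let e : SL(2, K2) ≃* (Matrix.SpecialLinearGroup.toGL : SL(2, K2) →* GL (Fin 2) K2).range :=
    MonoidHom.ofInjective Matrix.SpecialLinearGroup.toGL_injective
  obtain ⟨H, hH, hs⟩ := h K2 2 (Matrix.SpecialLinearGroup.toGL : SL(2, K2) →* GL (Fin 2) K2).range
    (by
      intro S hS
      have := K2_ig ((Subgroup.closure S).comap e.toMonoidHom) (by
        intro g
        obtain ⟨s, hs, hc⟩ := hS (e g)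
        obtain ⟨c, hc⟩ := isConj_iff.1 hc
        refine ⟨e.symm c, ?_⟩
        rw [Subgroup.mem_comap]
        have : e.toMonoidHom (e.symm c * g * (e.symm c)⁻¹) = s := by
          rw [← hc]; simp
        rw [this]
        exact Subgroup.subset_closure hs)
      rw [eq_top_iff] at this ⊢
      intro x _
      have h1 := this (Subgroup.mem_top (e.symm x))
      rw [Subgroup.mem_comap] at h1
      simpa using h1)
  have hfi : (H.comap e.toMonoidHom).FiniteIndex :=
    ⟨by rw [Subgroup.index_comap_of_surjective (f := e.toMonoidHom) _ e.surjective]; exact hH.index_ne_zero⟩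
  have htop := not_vs K2_sq (H.comap e.toMonoidHom)
  apply K2_not_solvable
  let φ : SL(2, K2) →* H := e.toMonoidHom.codRestrict H (fun x => by
    have : x ∈ H.comap e.toMonoidHom := htop ▸ Subgroup.mem_top x
    exact this)
  have : Group.IsSolvable H := hs
  exact solvable_of_solvable_injective (f := φ) (fun x y hxy =>
    e.injective (congrArg Subtype.val hxy))

end Pool.Agent.S03202
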