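import Pool.Statements.S03208
import Pool.Agent.Lib.helper25.AdjGen

set_option autoImplicit false
open Pool Pool.MP_d7a7a6_al

namespace Pool.Agent.S03208

open Pool.Agent.Lib.H25AdjGen

abbrev Al : Type := Fin 3 × Fin 3

def om (n : ℕ) : Al := (⟨n % 3, Nat.mod_lt _ (by norm_num)⟩, ⟨ii n, ii_lt n⟩)

section Con
variable (F : Type) [Field F] (N : ℕ)

def op (a : Al) : Module.End F (ℕ → F) where
  toFun f n := if om n = a ∧ n < N then f (n + 1) else 0
  map_add' f g := by
    funext n
    simp only [Pi.add_apply]
    split_ifs <;> simp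
  map_smul' c f := by
    funext n
    simp only [Pi.smul_apply, RingHom.id_apply]
    split_ifs <;> simp

def Occ : List Al → ℕ → Prop
  | [], _ => True
  | a :: w, n => (om n = a ∧ n < N) ∧ Occ w (n + 1)

open Classical in
lemma Y_apply (w : List Al) : ∀ (f : ℕ → F) (n : ℕ),
    X (op F N) w f n = if Occ N w n then f (n + w.length) else 0 := by
  induction w with
  | nil => intro f n; simp [X, Occ]
  | cons a w ih =>
    intro f n
    have : X (op F N) (a :: w) f n = if om n = a ∧ n < N then X (op F N) w f (n + 1) else 0 := by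
      simp only [X, List.map_cons, List.prod_cons]; rfl
    rw [this, ih]
    simp only [Occ, List.length_cons]
    by_cases h1 : om n = a ∧ n < N <;> by_cases h2 : Occ N w (n + 1) <;> simp [h1, h2, add_assoc, add_comm 1]

lemma Occ_spec (w : List Al) : ∀ n, Occ N w n →
    w.length ≤ N - n ∧ ∀ j (h : j < w.length), w[j] = om (n + j) := by
  induction w with
  | nil => intro n _; exact ⟨by simp, fun j h => absurd h (by simp)⟩
  | cons a w ih =>
    rintro n ⟨⟨h1, h2⟩, h3⟩
    obtain ⟨h4, h5⟩ := ih _ h3
    refine ⟨by rw [List.length_cons]; omega, fun j h => ?_⟩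
    cases j with
    | zero => exact h1.symm
    | succ j =>
      rw [List.getElem_cons_succ, h5 j (by simpa using h)]
      congr 1; ring

lemma Y_ne {w : List Al} (h : X (op F N) w ≠ 0) : ∃ n, Occ N w n := by
  by_contra h'
  push Not at h'
  apply h
  ext1 f
  funext n
  rw [Y_apply, if_neg (h' n)]; rfl

lemma Y_nil (w : List Al) (h : N < w.length) : X (op F N) w = 0 := by
  by_contra h'
  obtain ⟨n, hn⟩ := Y_ne F N h'
  have := (Occ_spec N w n hn).1
  omega

lemma Y_rot (w : List Al) (h : 2 ≤ w.length) : ∃ s, X (op F N) (w.rotate s) = 0 := by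
  by_contra h'
  push Not at h'
  have hp : ∀ t, t % w.length < w.length := fun t => Nat.mod_lt _ (by omega)
  refine no_rot w.length h (fun t => (w[t % w.length]'(hp t)).1.val) (fun t => (w[t % w.length]'(hp t)).2.val)
    (fun t => by simp) (fun t => by simp) fun s => ?_
  obtain ⟨m, hm⟩ := Y_ne F N (h' s)
  refine ⟨m, fun j hj => ?_⟩
  have := (Occ_spec N _ m hm).2 j (by simpa using hj)
  rw [List.getElem_rotate] at this
  simp only [add_comm s j]
  rw [this]
  exact ⟨rfl, rfl⟩

lemma occ_pre (k : ℕ) : ∀ n, n + k ≤ N → Occ N ((List.range' n k).map om) n := by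
  induction k with
  | zero => intro n _; trivial
  | succ k ih => intro n h; exact ⟨⟨rfl, by omega⟩, ih _ (by omega)⟩

abbrev RR : Type := NonUnitalAlgebra.adjoin F (Set.range (op F N))

def gen (a : Al) : RR F N := ⟨op F N a, NonUnitalAlgebra.subset_adjoin F ⟨a, rfl⟩⟩

def xx (a : Al) : Unitization F (RR F N) := Unitization.inr (gen F N a)

lemma X_inr (w : List Al) (hw : w ≠ []) :
    ∃ r : RR F N, X (xx F N) w = Unitization.inr r ∧ r.1 = X (op F N) w := by
  induction w with
  | nil => exact absurd rfl hw
  | cons a w ih =>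
    by_cases h : w = []
    · subst h
      exact ⟨gen F N a, by simp [X, xx], by simp [X, gen]⟩
    · obtain ⟨r, h1, h2⟩ := ih h
      refine ⟨gen F N a * r, ?_, ?_⟩
      · rw [Unitization.inr_mul, ← h1]; simp [X, xx]
      · show op F N a * r.1 = _
        rw [h2]; simp [X]

lemma X_zero (w : List Al) (hw : w ≠ []) (h : X (op F N) w = 0) : X (xx F N) w = 0 := by
  obtain ⟨r, h1, h2⟩ := X_inr F N w hw
  have : r = 0 := Subtype.ext (h2.trans h)
  rw [h1, this, Unitization.inr_zero]

lemma xnil (w : List Al) (h : N < w.length) : X (xx F N) w = 0 :=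
  X_zero F N w (by rintro rfl; simp at h) (Y_nil F N w h)

lemma xrot (w : List Al) (h : 2 ≤ w.length) : ∃ s, X (xx F N) (w.rotate s) = 0 := by
  obtain ⟨s, hs⟩ := Y_rot F N w h
  refine ⟨s, X_zero F N _ (fun e => ?_) hs⟩
  have := congrArg List.length e
  rw [List.length_rotate, List.length_nil] at this
  omega

lemma inr_mem (h01 : ∀ c : F, c = 0 ∨ c = 1) (r : RR F N) :
    (Unitization.inr r : Unitization F (RR F N)) ∈ J (xx F N) 1 := by
  obtain ⟨r, hr⟩ := r
  induction hr using NonUnitalAlgebra.adjoin_induction with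
  | mem z hz =>
    obtain ⟨a, rfl⟩ := hz
    have := X_mem (xx F N) [a] (n := 1) le_rfl
    simp only [X, List.map_cons, List.map_nil, List.prod_cons, List.prod_nil, mul_one] at this
    exact this
  | add u v hu hv iu iv =>
    have := add_mem iu iv
    rwa [← Unitization.inr_add] at this
  | zero =>
    have : (⟨0, zero_mem _⟩ : RR F N) = 0 := rfl
    rw [this, Unitization.inr_zero]; exact zero_mem _
  | mul u v hu hv iu iv =>
    have := J_mul (xx F N) (k := 1) (by omega) iu iv
    rwa [← Unitization.inr_mul] at this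
  | smul c u hu iu =>
    rcases h01 c with rfl | rfl
    · have : (⟨(0 : F) • u, SMulMemClass.smul_mem _ hu⟩ : RR F N) = 0 := Subtype.ext (zero_smul _ _)
      rw [this, Unitization.inr_zero]; exact zero_mem _
    · have : (⟨(1 : F) • u, SMulMemClass.smul_mem _ hu⟩ : RR F N) = ⟨u, hu⟩ := Subtype.ext (one_smul _ _)
      rw [this]; exact iu

lemma prod_mem (l : List (Unitization F (RR F N))) (hl : ∀ z ∈ l, z ∈ J (xx F N) 1) :
    l.prod ∈ J (xx F N) l.length := by
  induction l with
  | nil => exact X_mem (xx F N) [] le_rfl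
  | cons a l ih =>
    rw [List.prod_cons, List.length_cons]
    exact J_mul _ (by omega) (hl a (by simp)) (ih fun z hz => hl z (by simp [hz]))

lemma xx_nilp (a : Al) : IsNilpotent (xx F N a) := by
  refine ⟨N + 1, ?_⟩
  have := xnil F N (List.replicate (N + 1) a) (by simp)
  simpa [X] using this

lemma xx_unit (a : Al) : IsUnit (1 + xx F N a) :=
  IsNilpotent.isUnit_one_add (R := Unitization F (RR F N)) (xx_nilp F N a)

lemma rank_ge : (N : Cardinal) ≤ Module.rank F (RR F N) := by
  classical
  have h : ∀ k : Fin N, ∃ r : RR F N, r.1 = X (op F N) ((List.range' 0 (k + 1)).map om) := fun k => by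
    obtain ⟨r, -, h⟩ := X_inr F N ((List.range' 0 (k + 1)).map om) (by simp)
    exact ⟨r, h⟩
  choose r hr using h
  have li : LinearIndependent F r := by
    refine (Fintype.linearIndependent_iff (R := F) (M := RR F N)).2 ?_
    intro g hg j
    let φ : RR F N →ₗ[F] F :=
      { toFun := fun z => z.1 (Pi.single (j.val + 1) 1) 0
        map_add' := fun _ _ => rfl
        map_smul' := fun _ _ => rfl }
    have h1 : ∀ k, φ (r k) = if k = j then 1 else 0 := fun k => by
      show (r k).1 (Pi.single (j.val + 1) 1) 0 = _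
      rw [hr, Y_apply, if_pos (occ_pre N _ _ (by omega))]
      simp [Pi.single_apply, Fin.ext_iff]
    have := congrArg φ hg
    rw [map_sum, map_zero] at this
    simpa [h1] using this
  simpa using li.cardinal_le_rank

end Con


/-- The negation of the preceding statement: There is one function f such that for every field F and every nilpotent associative F-algebra R, if the adjoint group of R is generated by d elements, then dim R is at most f(d). -/
theorem result :
    ¬ (∃ f : ℕ → ℕ, ∀ (F : Type) [Field F] (R : Type) [NonUnitalRing R] [Module F R]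
      [IsScalarTower F R R] [SMulCommClass F R R],
      (∃ n : ℕ, ∀ x : Fin n → R,
        (List.ofFn (fun i => (Unitization.inr (x i) : Unitization F R))).prod = 0) →
      ∀ d : ℕ, ∀ g : Fin d → (Unitization F R)ˣ,
        (∀ i, ∃ r : R, ((g i : (Unitization F R)ˣ) : Unitization F R) = 1 + Unitization.inr r) →
        (∀ r : R, ∃ u ∈ Subgroup.closure (Set.range g),
          (u : Unitization F R) = 1 + Unitization.inr r) →
        Module.rank F R ≤ (f d : Cardinal)) := by
  rintro ⟨f, hf⟩
  have h01 : ∀ c : ZMod 2, c = 0 ∨ c = 1 := by decide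
  let N := f 9 + 1
  let e : Fin 9 ≃ Al := (finProdFinEquiv (m := 3) (n := 3)).symm
  let g : Fin 9 → (Unitization (ZMod 2) (RR (ZMod 2) N))ˣ :=
    fun i => (xx_unit (ZMod 2) N (e i)).unit
  have h := hf (ZMod 2) (RR (ZMod 2) N) ⟨N + 1, fun x => J_zero _ N (xnil _ N) (by
      have := prod_mem (ZMod 2) N (List.ofFn fun i => Unitization.inr (x i)) (fun z hz => by
        obtain ⟨i, rfl⟩ := List.mem_ofFn.1 hz
        exact inr_mem _ N h01 _)
      rwa [List.length_ofFn] at this)⟩ 9 g (fun i => ⟨gen _ N (e i), rfl⟩)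
    (fun r => generated _ N (xnil _ N) (xrot _ N) (Subgroup.closure (Set.range g))
      (fun a => ⟨g (e.symm a), Subgroup.subset_closure (Set.mem_range_self _), by
        show 1 + xx (ZMod 2) N (e (e.symm a)) = _
        rw [e.apply_symm_apply]⟩) (inr_mem _ N h01 r))
  have h2 := (rank_ge (ZMod 2) N).trans h
  have h3 : N ≤ f 9 := by exact_mod_cast h2
  omega

end Pool.Agent.S03208
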