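import Pool.Statements.S03215
import Pool.Agent.Lib.helper7.PLCalc

set_option autoImplicit false
open Pool Pool.MP_d888c1_al

namespace Pool.Agent.S03215

open Pool.Agent.Lib.helper7.PLCalc Set

noncomputable section

abbrev V := ℝ × ℝ

def P (k : ℤ) : V :=
  if k % 4 = 0 then (1, -1) else if k % 4 = 1 then (1, 1) else if k % 4 = 2 then (-1, 1)
  else (-1, -1)

def gam (t : ℝ) : V := P ⌊t⌋ + Int.fract t • (P (⌊t⌋ + 1) - P ⌊t⌋)

theorem P_add (k m : ℤ) : P (k + 4 * m) = P k := by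
  unfold P
  rw [Int.add_mul_emod_self_left]

theorem P0 : P 0 = (1, -1) := by simp [P]
theorem P1 : P 1 = (1, 1) := by simp [P]
theorem P2 : P 2 = (-1, 1) := by simp [P]
theorem P3 : P 3 = (-1, -1) := by simp [P]
theorem P4 : P 4 = (1, -1) := by simp [P]
theorem P5 : P 5 = (1, 1) := by simp [P]

theorem gam_eq (k : ℤ) (s : ℝ) (h0 : 0 ≤ s) (h1 : s ≤ 1) :
    gam (k + s) = P k + s • (P (k + 1) - P k) := by
  rcases h1.lt_or_eq with h1 | rfl
  · have hf : ⌊(k : ℝ) + s⌋ = k := by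
      rw [Int.floor_eq_iff]; constructor <;> linarith
    unfold gam
    rw [Int.fract, hf]
    simp
  · have hf : ⌊(k : ℝ) + 1⌋ = k + 1 := by simp
    unfold gam
    rw [Int.fract, hf]
    simp

theorem gam_period (t : ℝ) (m : ℤ) : gam (t + 4 * m) = gam t := by
  have h1 : t + 4 * (m : ℝ) = ((⌊t⌋ + 4 * m : ℤ) : ℝ) + Int.fract t := by
    push_cast
    have := Int.floor_add_fract t
    linarith
  rw [h1, gam_eq _ _ (Int.fract_nonneg t) (Int.fract_lt_one t).le]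
  have : ⌊t⌋ + 4 * m + 1 = ⌊t⌋ + 1 + 4 * m := by ring
  rw [this, P_add, P_add]
  rfl

theorem exists_rep (t : ℝ) : ∃ (k m : ℤ) (s : ℝ), (k = 0 ∨ k = 1 ∨ k = 2 ∨ k = 3) ∧ 0 ≤ s ∧ s < 1 ∧
    t = k + s + 4 * m := by
  refine ⟨⌊t⌋ % 4, ⌊t⌋ / 4, Int.fract t, by omega, Int.fract_nonneg t, Int.fract_lt_one t, ?_⟩
  have h1 := Int.floor_add_fract t
  have h2 : ⌊t⌋ % 4 + 4 * (⌊t⌋ / 4) = ⌊t⌋ := Int.emod_add_mul_ediv _ _
  have h3 : ((⌊t⌋ % 4 : ℤ) : ℝ) + 4 * ((⌊t⌋ / 4 : ℤ) : ℝ) = (⌊t⌋ : ℝ) := by exact_mod_cast h2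
  linarith

theorem gam0 (s : ℝ) (h0 : 0 ≤ s) (h1 : s ≤ 1) : gam ((0 : ℤ) + s) = (1, -1 + 2 * s) := by
  rw [gam_eq _ _ h0 h1]; norm_num [P0, P1]; ring
theorem gam1 (s : ℝ) (h0 : 0 ≤ s) (h1 : s ≤ 1) : gam ((1 : ℤ) + s) = (1 - 2 * s, 1) := by
  rw [gam_eq _ _ h0 h1]; norm_num [P1, P2]; ring
theorem gam2 (s : ℝ) (h0 : 0 ≤ s) (h1 : s ≤ 1) : gam ((2 : ℤ) + s) = (-1, 1 - 2 * s) := by
  rw [gam_eq _ _ h0 h1]; norm_num [P2, P3]; ring
theorem gam3 (s : ℝ) (h0 : 0 ≤ s) (h1 : s ≤ 1) : gam ((3 : ℤ) + s) = (-1 + 2 * s, -1) := by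
  rw [gam_eq _ _ h0 h1]; norm_num [P3, P4]; ring

theorem gam_inj {s t : ℝ} (h : gam s = gam t) : ∃ m : ℤ, s = t + 4 * m := by
  obtain ⟨k, m, a, hk, a0, a1, rfl⟩ := exists_rep s
  obtain ⟨l, n, b, hl, b0, b1, rfl⟩ := exists_rep t
  rw [gam_period, gam_period] at h
  refine ⟨m - n, ?_⟩
  push_cast
  suffices (k : ℝ) + a = l + b by linarith
  rcases hk with rfl | rfl | rfl | rfl <;> rcases hl with rfl | rfl | rfl | rfl <;>
    simp only [gam0 a a0 a1.le, gam1 a a0 a1.le, gam2 a a0 a1.le, gam3 a a0 a1.le,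
      gam0 b b0 b1.le, gam1 b b0 b1.le, gam2 b b0 b1.le, gam3 b b0 b1.le, Prod.mk.injEq] at h <;>
    obtain ⟨h1, h2⟩ := h <;> push_cast <;> linarith

theorem norm_gam (t : ℝ) : ‖gam t‖ = 1 := by
  obtain ⟨k, m, a, hk, a0, a1, rfl⟩ := exists_rep t
  rw [gam_period]
  have e1 : |(-1 : ℝ) + 2 * a| ≤ 1 := abs_le.2 ⟨by linarith, by linarith⟩
  have e2 : |(1 : ℝ) - 2 * a| ≤ 1 := abs_le.2 ⟨by linarith, by linarith⟩
  rcases hk with rfl | rfl | rfl | rfl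
  · rw [gam0 a a0 a1.le, Prod.norm_def]; simp [e1]
  · rw [gam1 a a0 a1.le, Prod.norm_def]; simp [e2]
  · rw [gam2 a a0 a1.le, Prod.norm_def]; simp [e2]
  · rw [gam3 a a0 a1.le, Prod.norm_def]; simp [e1]

/-- polar form inside the cone number `k`. -/
theorem cone_polar (k : ℤ) (r τ : ℝ) (h0 : 0 ≤ τ) (h1 : τ ≤ r) :
    r • P k + τ • (P (k + 1) - P k) = r • gam (k + τ / r) := by
  rcases (h0.trans h1).eq_or_lt with hr | hr
  · have : τ = 0 := by linarith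
    subst this
    rw [← hr]; simp
  · rw [gam_eq _ _ (by positivity) ((div_le_one hr).2 h1), smul_add, smul_smul]
    congr 2
    field_simp

theorem cone_norm (k : ℤ) (r τ : ℝ) (h0 : 0 ≤ τ) (h1 : τ ≤ r) :
    ‖r • P k + τ • (P (k + 1) - P k)‖ = r := by
  rw [cone_polar k r τ h0 h1, norm_smul, norm_gam, mul_one, Real.norm_eq_abs,
    abs_of_nonneg (h0.trans h1)]

theorem cone0 (v : V) : v = v.1 • P 0 + ((v.1 + v.2) / 2) • (P (0 + 1) - P 0) := by
  ext <;> norm_num [P0, P1] <;> ring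
theorem cone1 (v : V) : v = v.2 • P 1 + ((v.2 - v.1) / 2) • (P (1 + 1) - P 1) := by
  ext <;> norm_num [P1, P2] <;> ring
theorem cone2 (v : V) : v = (-v.1) • P 2 + ((-v.1 - v.2) / 2) • (P (2 + 1) - P 2) := by
  ext <;> norm_num [P2, P3] <;> ring
theorem cone3 (v : V) : v = (-v.2) • P 3 + ((v.1 - v.2) / 2) • (P (3 + 1) - P 3) := by
  ext <;> norm_num [P3, P4] <;> ring

theorem exists_cone (v : V) : ∃ (k : ℤ) (r τ : ℝ), 0 ≤ τ ∧ τ ≤ r ∧
    v = r • P k + τ • (P (k + 1) - P k) := by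
  rcases le_total 0 (v.1 + v.2) with h1 | h1 <;> rcases le_total 0 (v.1 - v.2) with h2 | h2
  · exact ⟨0, _, _, by linarith, by linarith, cone0 v⟩
  · exact ⟨1, _, _, by linarith, by linarith, cone1 v⟩
  · exact ⟨3, _, _, by linarith, by linarith, cone3 v⟩
  · exact ⟨2, _, _, by linarith, by linarith, cone2 v⟩

theorem exists_arg (v : V) : ∃ t : ℝ, v = ‖v‖ • gam t := by
  obtain ⟨k, r, τ, h0, h1, rfl⟩ := exists_cone v
  exact ⟨k + τ / r, by rw [cone_norm k r τ h0 h1, cone_polar k r τ h0 h1]⟩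

def arg (v : V) : ℝ := (exists_arg v).choose

theorem arg_spec (v : V) : v = ‖v‖ • gam (arg v) := (exists_arg v).choose_spec

def rho (θ : ℝ) (v : V) : V := ‖v‖ • gam (arg v + θ)

theorem norm_smul_gam {r : ℝ} (hr : 0 ≤ r) (t : ℝ) : ‖r • gam t‖ = r := by
  rw [norm_smul, norm_gam, mul_one, Real.norm_eq_abs, abs_of_nonneg hr]

theorem rho_gam (θ : ℝ) {r : ℝ} (hr : 0 ≤ r) (t : ℝ) : rho θ (r • gam t) = r • gam (t + θ) := by
  unfold rho
  rw [norm_smul_gam hr]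
  rcases hr.eq_or_lt with h | h
  · rw [← h]; simp
  · have h1 := arg_spec (r • gam t)
    rw [norm_smul_gam hr] at h1
    have h2 := smul_right_injective V h.ne' h1
    obtain ⟨m, hm⟩ := gam_inj h2
    have : t + θ = arg (r • gam t) + θ + 4 * m := by linarith
    rw [this, gam_period]

theorem norm_rho (θ : ℝ) (v : V) : ‖rho θ v‖ = ‖v‖ := norm_smul_gam (norm_nonneg _) _

theorem rho_rho (a b : ℝ) (v : V) : rho a (rho b v) = rho (a + b) v := by
  conv_lhs => rw [rho.eq_1 b v]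
  rw [rho_gam a (norm_nonneg _), rho]
  congr 2; ring

theorem rho_zero (v : V) : rho 0 v = v := by
  rw [rho, add_zero, ← arg_spec]

def Sh (p : V × ℝ) : V := rho (p.2 / ‖p.1‖) p.1

theorem Sh_eq1 (k : ℤ) (r τ s : ℝ) (h0 : 0 ≤ τ) (h1 : τ ≤ r) (hs : 0 ≤ s) (h : τ + s ≤ r) :
    Sh (r • P k + τ • (P (k + 1) - P k), s) = r • P k + (τ + s) • (P (k + 1) - P k) := by
  unfold Sh
  simp only
  rw [cone_norm k r τ h0 h1, cone_polar k r τ h0 h1, rho_gam _ (h0.trans h1),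
    cone_polar k r (τ + s) (by linarith) h]
  congr 2; ring

theorem Sh_eq2 (k : ℤ) (r τ s : ℝ) (h0 : 0 ≤ τ) (h1 : τ ≤ r) (hs : s ≤ r) (h : r ≤ τ + s) :
    Sh (r • P k + τ • (P (k + 1) - P k), s) =
      r • P (k + 1) + (τ + s - r) • (P (k + 1 + 1) - P (k + 1)) := by
  unfold Sh
  simp only
  rw [cone_norm k r τ h0 h1, cone_polar k r τ h0 h1, rho_gam _ (h0.trans h1),
    cone_polar (k + 1) r (τ + s - r) (by linarith) (by linarith)]
  rcases (h0.trans h1).eq_or_lt with hr | hr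
  · rw [← hr]; simp
  · congr 2
    push_cast
    field_simp
    ring

def ell (a b c : ℝ) : (V × ℝ) →ₗ[ℝ] ℝ where
  toFun p := a * p.1.1 + b * p.1.2 + c * p.2
  map_add' p q := by simp; ring
  map_smul' t p := by simp; ring

theorem ell_apply (a b c : ℝ) (p : V × ℝ) : ell a b c p = a * p.1.1 + b * p.1.2 + c * p.2 := rfl

theorem Sh_PL_cone (X : Set (V × ℝ)) (k : ℤ) (r τ : (V × ℝ) →ₗ[ℝ] ℝ)
    (hX : ∀ p ∈ X, 0 ≤ p.2 ∧ p.2 ≤ ‖p.1‖ ∧ 0 ≤ τ p ∧ τ p ≤ r p ∧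
      p.1 = r p • P k + τ p • (P (k + 1) - P k)) : PLOn Sh X := by
  apply PLOn.split (r - τ - LinearMap.snd ℝ V ℝ).toAffineMap
  · refine (((PLOn.linear r _).smulc (P k)).add
      (((PLOn.linear τ _).add (PLOn.id _).snd).smulc (P (k + 1) - P k))).congr ?_
    rintro p ⟨hp, h⟩
    obtain ⟨a1, a2, a3, a4, a5⟩ := hX p hp
    have h : 0 ≤ r p - τ p - p.2 := h
    rw [← Sh_eq1 k _ _ _ a3 a4 a1 (by linarith), ← a5]
  · refine (((PLOn.linear r _).smulc (P (k + 1))).add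
      ((((PLOn.linear τ _).add (PLOn.id _).snd).sub (PLOn.linear r _)).smulc
        (P (k + 1 + 1) - P (k + 1)))).congr ?_
    rintro p ⟨hp, h⟩
    obtain ⟨a1, a2, a3, a4, a5⟩ := hX p hp
    have h : r p - τ p - p.2 ≤ 0 := h
    have hn : ‖p.1‖ = r p := by rw [a5]; exact cone_norm k _ _ a3 a4
    rw [← Sh_eq2 k _ _ _ a3 a4 (hn ▸ a2) (by linarith), ← a5]

theorem Sh_PL : PLOn Sh {p | 0 ≤ p.2 ∧ p.2 ≤ ‖p.1‖} := by
  apply PLOn.split (ell 1 1 0).toAffineMap <;> apply PLOn.split (ell 1 (-1) 0).toAffineMap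
  · apply Sh_PL_cone _ 0 (ell 1 0 0) (ell (1/2) (1/2) 0)
    rintro p ⟨⟨⟨a1, a2⟩, h1⟩, h2⟩
    have h1 : 0 ≤ ell 1 1 0 p := h1
    have h2 : 0 ≤ ell 1 (-1) 0 p := h2
    simp only [ell_apply] at h1 h2 ⊢
    refine ⟨a1, a2, by linarith, by linarith, ?_⟩
    convert cone0 p.1 using 3 <;> ring
  · apply Sh_PL_cone _ 1 (ell 0 1 0) (ell (-1/2) (1/2) 0)
    rintro p ⟨⟨⟨a1, a2⟩, h1⟩, h2⟩
    have h1 : 0 ≤ ell 1 1 0 p := h1
    have h2 : ell 1 (-1) 0 p ≤ 0 := h2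
    simp only [ell_apply] at h1 h2 ⊢
    refine ⟨a1, a2, by linarith, by linarith, ?_⟩
    convert cone1 p.1 using 3 <;> ring
  · apply Sh_PL_cone _ 3 (ell 0 (-1) 0) (ell (1/2) (-1/2) 0)
    rintro p ⟨⟨⟨a1, a2⟩, h1⟩, h2⟩
    have h1 : ell 1 1 0 p ≤ 0 := h1
    have h2 : 0 ≤ ell 1 (-1) 0 p := h2
    simp only [ell_apply] at h1 h2 ⊢
    refine ⟨a1, a2, by linarith, by linarith, ?_⟩
    convert cone3 p.1 using 3 <;> ring
  · apply Sh_PL_cone _ 2 (ell (-1) 0 0) (ell (-1/2) (-1/2) 0)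
    rintro p ⟨⟨⟨a1, a2⟩, h1⟩, h2⟩
    have h1 : ell 1 1 0 p ≤ 0 := h1
    have h2 : ell 1 (-1) 0 p ≤ 0 := h2
    simp only [ell_apply] at h1 h2 ⊢
    refine ⟨a1, a2, by linarith, by linarith, ?_⟩
    convert cone2 p.1 using 3 <;> ring

theorem norm_PL : PLOn (fun v : V => ‖v‖) Set.univ := by
  have key : ∀ (X : Set V) (k : ℤ) (r : V →ₗ[ℝ] ℝ),
      (∀ v ∈ X, ∃ τ, 0 ≤ τ ∧ τ ≤ r v ∧ v = r v • P k + τ • (P (k + 1) - P k)) →
      PLOn (fun v : V => ‖v‖) X := by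
    intro X k r h
    refine (PLOn.linear r X).congr ?_
    intro v hv
    obtain ⟨τ, h0, h1, h2⟩ := h v hv
    conv_lhs => rw [h2]
    exact cone_norm k _ _ h0 h1
  apply PLOn.split (LinearMap.fst ℝ ℝ ℝ + LinearMap.snd ℝ ℝ ℝ).toAffineMap <;>
    apply PLOn.split (LinearMap.fst ℝ ℝ ℝ - LinearMap.snd ℝ ℝ ℝ).toAffineMap
  · apply key _ 0 (LinearMap.fst ℝ ℝ ℝ)
    rintro v ⟨⟨-, h1⟩, h2⟩
    have h1 : 0 ≤ v.1 + v.2 := h1
    have h2 : 0 ≤ v.1 - v.2 := h2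
    exact ⟨_, by linarith, by show _ ≤ v.1; linarith, cone0 v⟩
  · apply key _ 1 (LinearMap.snd ℝ ℝ ℝ)
    rintro v ⟨⟨-, h1⟩, h2⟩
    have h1 : 0 ≤ v.1 + v.2 := h1
    have h2 : v.1 - v.2 ≤ 0 := h2
    exact ⟨_, by linarith, by show _ ≤ v.2; linarith, cone1 v⟩
  · apply key _ 3 (-LinearMap.snd ℝ ℝ ℝ)
    rintro v ⟨⟨-, h1⟩, h2⟩
    have h1 : v.1 + v.2 ≤ 0 := h1
    have h2 : 0 ≤ v.1 - v.2 := h2
    exact ⟨_, by linarith, by show _ ≤ -v.2; linarith, cone3 v⟩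
  · apply key _ 2 (-LinearMap.fst ℝ ℝ ℝ)
    rintro v ⟨⟨-, h1⟩, h2⟩
    have h1 : v.1 + v.2 ≤ 0 := h1
    have h2 : v.1 - v.2 ≤ 0 := h2
    exact ⟨_, by linarith, by show _ ≤ -v.1; linarith, cone2 v⟩

abbrev W := V × V

/-- rotation of the first factor -/
def tt (θ : ℝ) : Equiv.Perm W where
  toFun w := (rho θ w.1, w.2)
  invFun w := (rho (-θ) w.1, w.2)
  left_inv w := by simp [rho_rho, rho_zero]
  right_inv w := by simp [rho_rho, rho_zero]

/-- shear of the second factor -/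
def bb (F : V → ℝ → ℝ) : Equiv.Perm W where
  toFun w := (w.1, rho (F w.1 ‖w.2‖) w.2)
  invFun w := (w.1, rho (-F w.1 ‖w.2‖) w.2)
  left_inv w := by simp [rho_rho, rho_zero, norm_rho]
  right_inv w := by simp [rho_rho, rho_zero, norm_rho]

theorem tt_apply (θ : ℝ) (w : W) : tt θ w = (rho θ w.1, w.2) := rfl
theorem bb_apply (F : V → ℝ → ℝ) (w : W) : bb F w = (w.1, rho (F w.1 ‖w.2‖) w.2) := rfl

def GG : Subgroup (Equiv.Perm W) where
  carrier := {g | ∀ w, ‖g w‖ = ‖w‖}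
  mul_mem' := by
    intro a b ha hb w
    rw [Equiv.Perm.mul_apply, ha, hb]
  one_mem' := fun _ => rfl
  inv_mem' := by
    intro a ha w
    rw [← ha (a⁻¹ w)]; simp

def tG (θ : ℝ) : GG := ⟨tt θ, fun w => by simp [tt_apply, Prod.norm_def w, Prod.norm_mk, norm_rho]⟩
def bG (F : V → ℝ → ℝ) : GG :=
  ⟨bb F, fun w => by simp [bb_apply, Prod.norm_def w, Prod.norm_mk, norm_rho]⟩

theorem tG_mul (a b : ℝ) : tG a * tG b = tG (a + b) := by
  ext w <;> simp [tG, tt_apply, rho_rho]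

theorem tG_zero : tG 0 = 1 := by
  ext w <;> simp [tG, tt_apply, rho_zero]

theorem bG_mul (F G : V → ℝ → ℝ) : bG F * bG G = bG (F + G) := by
  ext w <;> simp [bG, bb_apply, rho_rho, norm_rho]

theorem bG_zero : bG 0 = 1 := by
  ext w <;> simp [bG, bb_apply, rho_zero]

def tH : Multiplicative ℝ →* GG where
  toFun a := tG a.toAdd
  map_one' := tG_zero
  map_mul' a b := (tG_mul _ _).symm

def bH : Multiplicative (V → ℝ → ℝ) →* GG where
  toFun a := bG a.toAdd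
  map_one' := bG_zero
  map_mul' a b := (bG_mul _ _).symm

theorem tG_zpow (a : ℝ) (n : ℤ) : tG a ^ n = tG (n * a) := by
  have := map_zpow tH (Multiplicative.ofAdd a) n
  rw [← zsmul_eq_mul]
  exact this.symm

theorem bG_zpow (F : V → ℝ → ℝ) (n : ℤ) : bG F ^ n = bG (n • F) := by
  have := map_zpow bH (Multiplicative.ofAdd F) n
  exact this.symm

theorem tG_inv (a : ℝ) : (tG a)⁻¹ = tG (-a) := by
  rw [inv_eq_iff_mul_eq_one, tG_mul, add_neg_cancel, tG_zero]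

theorem conj_eq (θ : ℝ) (F : V → ℝ → ℝ) :
    tG θ * bG F * (tG θ)⁻¹ = bG (fun u => F (rho (-θ) u)) := by
  rw [tG_inv]
  ext w <;> simp [tG, bG, tt_apply, bb_apply, rho_rho, rho_zero]

theorem tG_list (l : List ℝ) : (l.map tG).prod = tG l.sum := by
  induction l with
  | nil => simp [tG_zero]
  | cons a l ih => simp [ih, tG_mul]

theorem bG_list (l : List (V → ℝ → ℝ)) : (l.map bG).prod = bG l.sum := by
  induction l with
  | nil => simp [bG_zero]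
  | cons a l ih => simp [ih, bG_mul]

abbrev Cube := Set.Icc (0 : Fin 4 → ℝ) 1

def eA : (Fin 4 → ℝ) →ᵃ[ℝ] W where
  toFun x := ((2 * x 0 - 1, 2 * x 1 - 1), (2 * x 2 - 1, 2 * x 3 - 1))
  linear :=
    { toFun := fun x => ((2 * x 0, 2 * x 1), (2 * x 2, 2 * x 3))
      map_add' := fun x y => by simp [mul_add]
      map_smul' := fun c x => by simp [mul_left_comm] }
  map_vadd' p v := by
    ext <;> simp <;> ring

def eB : W →ᵃ[ℝ] (Fin 4 → ℝ) where
  toFun w := ![(w.1.1 + 1) / 2, (w.1.2 + 1) / 2, (w.2.1 + 1) / 2, (w.2.2 + 1) / 2]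
  linear :=
    { toFun := fun w => ![w.1.1 / 2, w.1.2 / 2, w.2.1 / 2, w.2.2 / 2]
      map_add' := fun x y => by ext i; fin_cases i <;> simp [add_div]
      map_smul' := fun c x => by ext i; fin_cases i <;> simp [mul_div_assoc] }
  map_vadd' p v := by
    ext i; fin_cases i <;> simp <;> ring

theorem eA_apply (x : Fin 4 → ℝ) :
    eA x = ((2 * x 0 - 1, 2 * x 1 - 1), (2 * x 2 - 1, 2 * x 3 - 1)) := rfl
theorem eB_apply (w : W) :
    eB w = ![(w.1.1 + 1) / 2, (w.1.2 + 1) / 2, (w.2.1 + 1) / 2, (w.2.2 + 1) / 2] := rfl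

theorem eA_eB (w : W) : eA (eB w) = w := by
  rw [eA_apply, eB_apply]
  ext <;> simp <;> ring

theorem eB_eA (x : Fin 4 → ℝ) : eB (eA x) = x := by
  rw [eA_apply, eB_apply]
  ext i; fin_cases i <;> simp

theorem mem_cube (x : Fin 4 → ℝ) : x ∈ Cube ↔ ‖eA x‖ ≤ 1 := by
  rw [eA_apply]
  simp only [Prod.norm_mk, max_le_iff, Real.norm_eq_abs, abs_le, mem_Icc, Pi.le_def,
    Fin.forall_fin_succ, Pi.zero_apply, Pi.one_apply, IsEmpty.forall_iff, and_true]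
  simp only [Fin.succ_zero_eq_one, Fin.succ_one_eq_two, Fin.isValue]
  have e : (Fin.succ (2 : Fin 3) : Fin 4) = 3 := rfl
  simp only [e]
  constructor
  · rintro ⟨⟨a0, a1, a2, a3⟩, b0, b1, b2, b3⟩
    refine ⟨⟨⟨?_, ?_⟩, ?_, ?_⟩, ⟨?_, ?_⟩, ?_, ?_⟩ <;> linarith
  · rintro ⟨⟨⟨a0, a1⟩, a2, a3⟩, ⟨b0, b1⟩, b2, b3⟩
    refine ⟨⟨?_, ?_, ?_, ?_⟩, ?_, ?_, ?_, ?_⟩ <;> linarith

def act (g : GG) (x : Cube) : Cube :=
  ⟨eB (g.1 (eA x.1)), by rw [mem_cube, eA_eB, g.2, ← mem_cube]; exact x.2⟩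

theorem act_mul (g h : GG) (x : Cube) : act (g * h) x = act g (act h x) := by
  apply Subtype.ext
  simp [act, eA_eB]

theorem act_one (x : Cube) : act 1 x = x := by
  apply Subtype.ext
  simp [act, eB_eA]

def Phi : GG →* Equiv.Perm Cube where
  toFun g :=
    { toFun := act g
      invFun := act g⁻¹
      left_inv := fun x => by rw [← act_mul, inv_mul_cancel, act_one]
      right_inv := fun x => by rw [← act_mul, mul_inv_cancel, act_one] }
  map_one' := by ext1 x; exact act_one x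
  map_mul' g h := by ext1 x; exact act_mul g h x

theorem Phi_eq_one {g : GG} (h : Phi g = 1) (w : W) (hw : ‖w‖ ≤ 1) : g.1 w = w := by
  have hx : eB w ∈ Cube := by rw [mem_cube, eA_eB]; exact hw
  have h1 : (Phi g ⟨eB w, hx⟩).1 = eB w := by rw [h]; rfl
  have h2 : eB (g.1 (eA (eB w))) = eB w := h1
  have h3 := congrArg eA h2
  rwa [eA_eB, eA_eB] at h3

theorem cube_poly : IsPoly Cube := by
  refine ⟨(Set.range fun i : Fin 4 => (AffineMap.proj i : (Fin 4 → ℝ) →ᵃ[ℝ] ℝ)) ∪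
    (Set.range fun i : Fin 4 => AffineMap.const ℝ (Fin 4 → ℝ) (1 : ℝ) -
      (AffineMap.proj i : (Fin 4 → ℝ) →ᵃ[ℝ] ℝ)),
    (finite_range _).union (finite_range _), ?_⟩
  ext x
  simp only [mem_Icc, Pi.le_def, mem_union, mem_range]
  constructor
  · rintro ⟨h0, h1⟩ h (⟨i, rfl⟩ | ⟨i, rfl⟩)
    · simpa using h0 i
    · simpa using h1 i
  · intro h
    exact ⟨fun i => by simpa using h _ (Or.inl ⟨i, rfl⟩),
      fun i => by simpa using h _ (Or.inr ⟨i, rfl⟩)⟩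

theorem Phi_PL (g : GG) (hg : PLOn (fun w => g.1 w) {w | ‖w‖ ≤ 1}) :
    Continuous ⇑(Phi g) ∧ Continuous ⇑(Phi g).symm ∧
      ∃ (k : ℕ) (S : Fin k → Finset (Fin 4 → ℝ)) (A : Fin k → ((Fin 4 → ℝ) →ᵃ[ℝ] (Fin 4 → ℝ))),
        (∀ x : Cube, ∃ i, x.1 ∈ convexHull ℝ (↑(S i) : Set (Fin 4 → ℝ))) ∧
        (∀ i, ∀ x : Cube, x.1 ∈ convexHull ℝ (↑(S i) : Set (Fin 4 → ℝ)) →
          (Phi g x).1 = A i x.1) := by
  have h1 : PLOn (fun x => eB (g.1 (eA x))) Cube :=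
    (PLOn.affine eB Set.univ).comp
      (hg.comp (PLOn.affine eA Cube) fun x hx => (mem_cube x).1 hx) fun _ _ => mem_univ _
  have hc : Continuous ⇑(Phi g) := by
    have := h1.continuousOn isClosed_Icc
    exact (continuousOn_iff_continuous_restrict.1 this).subtype_mk _
  refine ⟨hc, hc.continuous_symm_of_equiv_compact_to_t2, ?_⟩
  obtain ⟨k, S, A, h2, h3⟩ := h1.exists_fin cube_poly isCompact_Icc
  exact ⟨k, S, A, fun x => h2 x.1 x.2, fun i x hx => h3 i x.1 x.2 hx⟩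

theorem tG_PL (θ : ℝ) (h0 : 0 ≤ θ) (h1 : θ ≤ 1) :
    PLOn (fun w => (tG θ).1 w) {w | ‖w‖ ≤ 1} := by
  have a1 : PLOn (fun w : W => (w.1, θ • ‖w.1‖)) {w | ‖w‖ ≤ 1} :=
    (PLOn.id _).fst.prod ((norm_PL.comp (PLOn.id _).fst fun _ _ => mem_univ _).smul θ)
  have a2 := Sh_PL.comp a1 fun w _ => ⟨by simp only [smul_eq_mul]; positivity,
    by simp only [smul_eq_mul]; nlinarith [norm_nonneg w.1]⟩
  refine (a2.prod (PLOn.id _).snd).congr ?_
  intro w _
  simp only [tG, tt_apply, Sh, smul_eq_mul, Prod.mk.injEq, and_true]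
  by_cases h : ‖w.1‖ = 0
  · simp [rho, h]
  · rw [mul_div_assoc, div_self h, mul_one]

def psi (u : V) (r : ℝ) : ℝ := min r ((1 + u.1) / 2) / r

theorem bG_PL : PLOn (fun w => (bG psi).1 w) {w | ‖w‖ ≤ 1} := by
  have a0 : PLOn (fun w : W => (1 + w.1.1) / 2) {w | ‖w‖ ≤ 1} :=
    (((PLOn.const (1 : ℝ) _).add (PLOn.id _).fst.fst).smul (1 / 2 : ℝ)).congr
      fun w _ => by simp only [smul_eq_mul]; ring
  have a1 : PLOn (fun w : W => (w.2, min ‖w.2‖ ((1 + w.1.1) / 2))) {w | ‖w‖ ≤ 1} :=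
    (PLOn.id _).snd.prod ((norm_PL.comp (PLOn.id _).snd fun _ _ => mem_univ _).min a0)
  have a2 := Sh_PL.comp a1 fun w hw => ⟨by
      have h1 : ‖w.1.1‖ ≤ 1 := (norm_fst_le w.1).trans ((norm_fst_le w).trans hw)
      have := (abs_le.1 h1).1
      exact le_min (norm_nonneg _) (by linarith),
    min_le_left _ _⟩
  exact ((PLOn.id _).fst.prod a2).congr fun w _ => rfl

theorem psi_one (t : ℝ) : psi (gam t) 1 = (1 + (gam t).1) / 2 := by
  have h1 : ‖(gam t).1‖ ≤ 1 := (norm_fst_le _).trans (norm_gam t).le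
  have := (abs_le.1 h1).2
  rw [psi, div_one, min_eq_right (by linarith)]

def D2 (t ε : ℝ) : ℝ := psi (gam (t + ε)) 1 + psi (gam (t - ε)) 1 - 2 * psi (gam t) 1

theorem D2_corner (ε : ℝ) (h0 : 0 ≤ ε) (h1 : ε ≤ 1) : D2 1 ε = -ε := by
  have e1 := gam1 ε h0 h1
  have e2 := gam0 (1 - ε) (by linarith) (by linarith)
  have e3 := gam1 0 le_rfl zero_le_one
  simp only [Int.cast_one, Int.cast_zero, zero_add, add_zero] at e1 e2 e3
  rw [D2, psi_one, psi_one, psi_one, e1, e2, e3]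
  ring

theorem D2_smooth (t : ℝ) (ht : ∀ m : ℤ, t ≠ m) :
    ∀ᶠ ε in nhdsWithin (0 : ℝ) (Ioi 0), D2 t ε = 0 := by
  have h0 : 0 < Int.fract t := by
    rw [Int.fract_pos]; exact ht _
  have h1 := Int.fract_lt_one t
  have h2 : 0 < min (Int.fract t) (1 - Int.fract t) := lt_min h0 (by linarith)
  filter_upwards [Ioo_mem_nhdsGT h2] with ε hε
  obtain ⟨a, b⟩ := hε
  have b1 := (lt_min_iff.1 b).1
  have b2 := (lt_min_iff.1 b).2
  have hf := Int.floor_add_fract t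
  have e1 := gam_eq ⌊t⌋ (Int.fract t + ε) (by linarith) (by linarith)
  have e2 := gam_eq ⌊t⌋ (Int.fract t - ε) (by linarith) (by linarith)
  have e3 := gam_eq ⌊t⌋ (Int.fract t) (by linarith) (by linarith)
  rw [← add_assoc, hf] at e1
  rw [← add_sub_assoc, hf] at e2
  rw [hf] at e3
  rw [D2, psi_one, psi_one, psi_one, e1, e2, e3]
  simp only [Prod.fst_add, Prod.smul_fst, smul_eq_mul]
  ring

theorem exists_tau : ∃ τ : ℝ, 0 ≤ τ ∧ τ ≤ 1 ∧
    ∀ (v : Fin 5 → ℤ) (m : ℤ), ∑ i, (v i : ℝ) * τ ^ (i.1 + 1) = m → v = 0 := by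
  have hL : Transcendental ℤ (liouvilleNumber 2) := by
    exact_mod_cast transcendental_liouvilleNumber (m := 2) le_rfl
  have hT : Transcendental ℤ (Int.fract (liouvilleNumber 2)) := by
    intro h
    apply hL
    have := h.add (isAlgebraic_int (R := ℤ) (A := ℝ) ⌊liouvilleNumber 2⌋)
    rwa [Int.fract_add_floor] at this
  refine ⟨_, Int.fract_nonneg _, (Int.fract_lt_one (liouvilleNumber 2)).le, ?_⟩
  intro v m h
  have h1 := (transcendental_iff.1 hT)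
    (∑ i : Fin 5, Polynomial.monomial (i.1 + 1) (v i) - Polynomial.C m) (by
      rw [map_sub, Polynomial.aeval_C]
      simp only [map_sum, Polynomial.aeval_monomial, eq_intCast]
      rw [h, sub_self])
  funext j
  have h2 := congrArg (fun p => Polynomial.coeff p (j.1 + 1)) h1
  simp only [Polynomial.coeff_sub, Polynomial.finset_sum_coeff, Polynomial.coeff_monomial,
    Polynomial.coeff_C, Polynomial.coeff_zero, add_left_inj, Fin.val_inj] at h2
  simpa using h2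

theorem list_sum_apply (l : List (V → ℝ → ℝ)) (u : V) (r : ℝ) :
    l.sum u r = (l.map fun F => F u r).sum := by
  induction l with
  | nil => simp
  | cons a l ih => simp [ih]

theorem indep {ι : Type} (θ : ι → ℝ) (hθ : ∀ a b, ∀ m : ℤ, θ a - θ b = m → a = b)
    (l : List (ι × ℤ)) (hl : (l.map Prod.fst).Nodup)
    (h : ∀ t : ℝ, ∃ m : ℤ, (l.map fun p => (p.2 : ℝ) * psi (gam (t - θ p.1)) 1).sum = m) :
    ∀ p ∈ l, p.2 = 0 := by
  classical
  intro p hp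
  have hn : l.Nodup := List.Nodup.of_map _ hl
  have hinj : ∀ q ∈ l, q.1 = p.1 → q = p := fun q hq e =>
    List.inj_on_of_nodup_map hl hq hp e
  have hev : ∀ᶠ ε in nhdsWithin (0 : ℝ) (Ioi 0), ∀ q ∈ l.toFinset, q ≠ p →
      D2 (1 + θ p.1 - θ q.1) ε = 0 := by
    rw [Filter.eventually_all_finset]
    intro q hq
    by_cases e : q = p
    · exact Filter.Eventually.of_forall fun _ h => absurd e h
    · refine (D2_smooth (1 + θ p.1 - θ q.1) ?_).mono fun ε h _ => h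
      intro m hm
      apply e
      apply hinj q (List.mem_toFinset.1 hq)
      exact (hθ p.1 q.1 (m - 1) (by push_cast; linarith)).symm
  have hsmall : (0 : ℝ) < 1 / (|(p.2 : ℝ)| + 1) := by positivity
  obtain ⟨ε, hε, ε0, ε1⟩ := (hev.and (Ioo_mem_nhdsGT hsmall)).exists
  obtain ⟨m1, h1⟩ := h (1 + θ p.1 + ε)
  obtain ⟨m2, h2⟩ := h (1 + θ p.1 - ε)
  obtain ⟨m3, h3⟩ := h (1 + θ p.1)
  rw [← List.sum_toFinset _ hn] at h1 h2 h3
  have hs : ∑ q ∈ l.toFinset, (q.2 : ℝ) * D2 (1 + θ p.1 - θ q.1) ε = m1 + m2 - 2 * m3 := by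
    rw [← h1, ← h2, ← h3, Finset.mul_sum, ← Finset.sum_add_distrib, ← Finset.sum_sub_distrib]
    refine Finset.sum_congr rfl fun q _ => ?_
    rw [D2, show 1 + θ p.1 - θ q.1 + ε = 1 + θ p.1 + ε - θ q.1 by ring,
      show 1 + θ p.1 - θ q.1 - ε = 1 + θ p.1 - ε - θ q.1 by ring]
    ring
  rw [Finset.sum_eq_single_of_mem p (List.mem_toFinset.2 hp)
    (fun q hq e => by rw [hε q hq e, mul_zero])] at hs
  have habs := abs_nonneg (p.2 : ℝ)
  have hε2 : ε * (|(p.2 : ℝ)| + 1) < 1 := by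
    rwa [lt_div_iff₀ (by positivity)] at ε1
  rw [add_sub_cancel_right, D2_corner ε ε0.le (by nlinarith)] at hs
  have hlt : |((m1 + m2 - 2 * m3 : ℤ) : ℝ)| < 1 := by
    push_cast
    rw [← hs, abs_mul, abs_neg, abs_of_pos ε0]
    nlinarith
  have hz : m1 + m2 - 2 * m3 = 0 := by
    have : |m1 + m2 - 2 * m3| < 1 := by exact_mod_cast hlt
    exact Int.abs_lt_one_iff.1 this
  have hz' : (m1 : ℝ) + m2 - 2 * m3 = 0 := by exact_mod_cast hz
  rw [hz'] at hs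
  have : (p.2 : ℝ) = 0 := by
    rcases mul_eq_zero.1 hs with h | h
    · exact h
    · linarith
  exact_mod_cast this

theorem rho_gam1 (θ t : ℝ) : rho θ (gam t) = gam (t + θ) := by
  have := rho_gam θ zero_le_one t
  simpa using this

end
/-- For some n>1 there are PL homeomorphisms a, t_1..t_n of the cube [0,1]^(n-1) satisfying exactly the relations of Z wr Z^n faithfully, i.e. Z wr Z^n embeds in the PL homeomorphism group of the (n-1)-cube. -/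
theorem result :
    ∃ n : ℕ, 1 < n ∧
      ∃ (a : Equiv.Perm (Set.Icc (0 : Fin (n - 1) → ℝ) 1))
        (t : Fin n → Equiv.Perm (Set.Icc (0 : Fin (n - 1) → ℝ) 1)),
        (∀ g : Equiv.Perm (Set.Icc (0 : Fin (n - 1) → ℝ) 1),
            (g = a ∨ ∃ i, g = t i) →
              Continuous ⇑g ∧ Continuous ⇑g.symm ∧
              ∃ (k : ℕ) (S : Fin k → Finset (Fin (n - 1) → ℝ))
                (A : Fin k → ((Fin (n - 1) → ℝ) →ᵃ[ℝ] (Fin (n - 1) → ℝ))),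
                (∀ x : Set.Icc (0 : Fin (n - 1) → ℝ) 1,
                    ∃ i, x.1 ∈ convexHull ℝ (↑(S i) : Set (Fin (n - 1) → ℝ))) ∧
                (∀ i, ∀ x : Set.Icc (0 : Fin (n - 1) → ℝ) 1,
                    x.1 ∈ convexHull ℝ (↑(S i) : Set (Fin (n - 1) → ℝ)) →
                      (g x).1 = A i x.1)) ∧
        (∀ i j, t i * t j = t j * t i) ∧
        (∀ v w : Fin n → ℤ,
            Commute
              ((List.ofFn fun i => t i ^ v i).prod * a * ((List.ofFn fun i => t i ^ v i).prod)⁻¹)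
              ((List.ofFn fun i => t i ^ w i).prod * a * ((List.ofFn fun i => t i ^ w i).prod)⁻¹)) ∧
        (∀ (l : List ((Fin n → ℤ) × ℤ)) (v : Fin n → ℤ),
            (l.map Prod.fst).Nodup →
            (l.map (fun p : (Fin n → ℤ) × ℤ =>
                ((List.ofFn fun i => t i ^ p.1 i).prod * a *
                  ((List.ofFn fun i => t i ^ p.1 i).prod)⁻¹) ^ p.2)).prod *
              (List.ofFn fun i => t i ^ v i).prod = 1 →
            v = 0 ∧ ∀ p ∈ l, p.2 = 0) := by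
  obtain ⟨τ, τ0, τ1, hτ⟩ := exists_tau
  let θ : (Fin 5 → ℤ) → ℝ := fun v => ∑ i, (v i : ℝ) * τ ^ (i.1 + 1)
  have hT : ∀ v : Fin 5 → ℤ,
      (List.ofFn fun i : Fin 5 => Phi (tG (τ ^ (i.1 + 1))) ^ v i).prod = Phi (tG (θ v)) := by
    intro v
    simp only [← map_zpow, tG_zpow]
    have : (List.ofFn fun i : Fin 5 => Phi (tG ((v i : ℝ) * τ ^ (i.1 + 1)))) =
        ((List.ofFn fun i : Fin 5 => (v i : ℝ) * τ ^ (i.1 + 1)).map tG).map Phi := by
      simp only [List.map_ofFn]; rfl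
    rw [this, ← map_list_prod, tG_list, List.sum_ofFn]
  have hC : ∀ v : Fin 5 → ℤ,
      (List.ofFn fun i : Fin 5 => Phi (tG (τ ^ (i.1 + 1))) ^ v i).prod * Phi (bG psi) *
        ((List.ofFn fun i : Fin 5 => Phi (tG (τ ^ (i.1 + 1))) ^ v i).prod)⁻¹ =
        Phi (bG fun u => psi (rho (-θ v) u)) := by
    intro v
    rw [hT, ← map_inv, ← map_mul, ← map_mul, conj_eq]
  refine ⟨5, by norm_num, Phi (bG psi), fun i : Fin 5 => Phi (tG (τ ^ (i.1 + 1))), ?_, ?_, ?_, ?_⟩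
  · rintro g (rfl | ⟨i, rfl⟩)
    · exact Phi_PL _ bG_PL
    · exact Phi_PL _ (tG_PL _ (pow_nonneg τ0 _) (pow_le_one₀ τ0 τ1))
  · intro i j
    show Phi _ * Phi _ = Phi _ * Phi _
    rw [← map_mul, ← map_mul, tG_mul, tG_mul, add_comm]
  · intro v w
    have h1 := hC v
    have h2 := hC w
    show (_ : Equiv.Perm Cube) * _ = _ * _
    rw [h1, h2, ← map_mul, ← map_mul, bG_mul, bG_mul, add_comm]
  · intro l v hl h
    have h1 : (l.map (fun p : (Fin 5 → ℤ) × ℤ =>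
        ((List.ofFn fun i : Fin 5 => Phi (tG (τ ^ (i.1 + 1))) ^ p.1 i).prod * Phi (bG psi) *
          ((List.ofFn fun i : Fin 5 => Phi (tG (τ ^ (i.1 + 1))) ^ p.1 i).prod)⁻¹) ^ p.2)).prod *
        (List.ofFn fun i : Fin 5 => Phi (tG (τ ^ (i.1 + 1))) ^ v i).prod = 1 := h
    simp only [hC] at h1
    rw [hT] at h1
    simp only [← map_zpow, bG_zpow] at h1
    have h2 : (l.map fun p : (Fin 5 → ℤ) × ℤ => Phi (bG (p.2 • fun u => psi (rho (-θ p.1) u)))) =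
        ((l.map fun p : (Fin 5 → ℤ) × ℤ => p.2 • fun u => psi (rho (-θ p.1) u)).map bG).map Phi := by
      simp only [List.map_map]; rfl
    rw [h2, ← map_list_prod, bG_list, ← map_mul] at h1
    have h3 := fun t => Phi_eq_one h1 (gam t, gam 0) (by simp [Prod.norm_mk, norm_gam])
    simp only [Subgroup.coe_mul, Equiv.Perm.mul_apply, tG, bG, tt_apply, bb_apply, rho_gam1,
      Prod.mk.injEq, norm_gam] at h3
    have hv : v = 0 := by
      obtain ⟨m, hm⟩ := gam_inj (h3 0).1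
      exact hτ v (4 * m) (by push_cast; simpa using hm)
    refine ⟨hv, indep θ ?_ l hl ?_⟩
    · intro a b m hm
      have := hτ (a - b) m (by
        rw [← hm]
        simp only [θ, ← Finset.sum_sub_distrib, Pi.sub_apply]
        push_cast
        exact Finset.sum_congr rfl fun i _ => by ring)
      exact sub_eq_zero.1 this
    · intro t
      obtain ⟨e1, e2⟩ := h3 t
      rw [e1] at e2
      obtain ⟨m, hm⟩ := gam_inj e2
      refine ⟨4 * m, ?_⟩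
      rw [list_sum_apply, List.map_map] at hm
      push_cast
      rw [zero_add, zero_add] at hm
      rw [← hm]
      congr 1
      refine List.map_congr_left fun p _ => ?_
      simp [rho_gam1, sub_eq_add_neg]

end Pool.Agent.S03215
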