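import Pool.Statements.S03238

set_option autoImplicit false
open Pool Pool.MP_da5d41_al

namespace Pool.Agent.S03238

inductive E
  | z | p | t | y (i : ℕ) | K (i j : ℕ) | R (i : ℕ) | N (i j : ℕ) | T (i : ℕ) | W
  deriving DecidableEq

namespace E

def le : E → E → Prop
  | .z, .z => True
  | .z, .p => True
  | .z, .t => True
  | .z, .y _ => True
  | .z, .K _ _ => True
  | .z, .R _ => True
  | .z, .N _ _ => True
  | .z, .T _ => True
  | .z, .W => True
  | .p, .z => False
  | .p, .p => True
  | .p, .t => False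
  | .p, .y _ => False
  | .p, .K _ _ => True
  | .p, .R _ => True
  | .p, .N _ _ => True
  | .p, .T _ => True
  | .p, .W => True
  | .t, .z => False
  | .t, .p => False
  | .t, .t => True
  | .t, .y _ => False
  | .t, .K _ _ => False
  | .t, .R _ => False
  | .t, .N _ _ => False
  | .t, .T _ => True
  | .t, .W => True
  | .y _, .z => False
  | .y _, .p => False
  | .y _, .t => False
  | .y i, .y k => k ≤ i
  | .y _, .K _ _ => False
  | .y _, .R _ => False
  | .y i, .N _ l => l ≤ i
  | .y i, .T k => k ≤ i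
  | .y _, .W => False
  | .K _ _, .z => False
  | .K _ _, .p => False
  | .K _ _, .t => False
  | .K _ _, .y _ => False
  | .K i j, .K k l => k ≤ i ∧ l ≤ j
  | .K _ _, .R _ => False
  | .K i j, .N k l => k ≤ i ∧ l ≤ j
  | .K _ j, .T k => k ≤ j
  | .K _ _, .W => False
  | .R _, .z => False
  | .R _, .p => False
  | .R _, .t => False
  | .R _, .y _ => False
  | .R i, .K k _ => k ≤ i
  | .R i, .R k => k ≤ i
  | .R i, .N k _ => k ≤ i
  | .R _, .T _ => True
  | .R _, .W => True
  | .N _ _, .z => False
  | .N _ _, .p => False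
  | .N _ _, .t => False
  | .N _ _, .y _ => False
  | .N _ _, .K _ _ => False
  | .N _ _, .R _ => False
  | .N i j, .N k l => k ≤ i ∧ l ≤ j
  | .N _ j, .T k => k ≤ j
  | .N _ _, .W => False
  | .T _, .z => False
  | .T _, .p => False
  | .T _, .t => False
  | .T _, .y _ => False
  | .T _, .K _ _ => False
  | .T _, .R _ => False
  | .T _, .N _ _ => False
  | .T i, .T k => k ≤ i
  | .T _, .W => False
  | .W, .z => False
  | .W, .p => False
  | .W, .t => False
  | .W, .y _ => False
  | .W, .K _ _ => False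
  | .W, .R _ => False
  | .W, .N _ _ => False
  | .W, .T _ => True
  | .W, .W => True

def sup : E → E → E
  | .z, .z => .z
  | .z, .p => .p
  | .z, .t => .t
  | .z, .y k => .y k
  | .z, .K k l => .K k l
  | .z, .R k => .R k
  | .z, .N k l => .N k l
  | .z, .T k => .T k
  | .z, .W => .W
  | .p, .z => .p
  | .p, .p => .p
  | .p, .t => .W
  | .p, .y k => .N (k+1) k
  | .p, .K k l => .K k l
  | .p, .R k => .R k
  | .p, .N k l => .N k l
  | .p, .T k => .T k
  | .p, .W => .W
  | .t, .z => .t
  | .t, .p => .W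
  | .t, .t => .t
  | .t, .y k => .T k
  | .t, .K _ l => .T l
  | .t, .R _ => .W
  | .t, .N _ l => .T l
  | .t, .T k => .T k
  | .t, .W => .W
  | .y i, .z => .y i
  | .y i, .p => .N (i+1) i
  | .y i, .t => .T i
  | .y i, .y k => .y (min i k)
  | .y i, .K k l => .N (min k (i+1)) (min l i)
  | .y i, .R k => .N (min k (i+1)) i
  | .y i, .N k l => .N (min k (i+1)) (min l i)
  | .y i, .T k => .T (min i k)
  | .y i, .W => .T i
  | .K i j, .z => .K i j
  | .K i j, .p => .K i j
  | .K _ j, .t => .T j
  | .K i j, .y k => .N (min i (k+1)) (min j k)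
  | .K i j, .K k l => .K (min i k) (min j l)
  | .K i j, .R k => .K (min i k) j
  | .K i j, .N k l => .N (min i k) (min j l)
  | .K _ j, .T k => .T (min j k)
  | .K _ j, .W => .T j
  | .R i, .z => .R i
  | .R i, .p => .R i
  | .R _, .t => .W
  | .R i, .y k => .N (min i (k+1)) k
  | .R i, .K k l => .K (min k i) l
  | .R i, .R k => .R (min i k)
  | .R i, .N k l => .N (min i k) l
  | .R _, .T k => .T k
  | .R _, .W => .W
  | .N i j, .z => .N i j
  | .N i j, .p => .N i j
  | .N _ j, .t => .T j
  | .N i j, .y k => .N (min i (k+1)) (min j k)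
  | .N i j, .K k l => .N (min k i) (min l j)
  | .N i j, .R k => .N (min k i) j
  | .N i j, .N k l => .N (min i k) (min j l)
  | .N _ j, .T k => .T (min j k)
  | .N _ j, .W => .T j
  | .T i, .z => .T i
  | .T i, .p => .T i
  | .T i, .t => .T i
  | .T i, .y k => .T (min k i)
  | .T i, .K _ l => .T (min l i)
  | .T i, .R _ => .T i
  | .T i, .N _ l => .T (min l i)
  | .T i, .T k => .T (min i k)
  | .T i, .W => .T i
  | .W, .z => .W
  | .W, .p => .W
  | .W, .t => .W
  | .W, .y k => .T k
  | .W, .K _ l => .T l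
  | .W, .R _ => .W
  | .W, .N _ l => .T l
  | .W, .T k => .T k
  | .W, .W => .W

def inf : E → E → E
  | .z, .z => .z
  | .z, .p => .z
  | .z, .t => .z
  | .z, .y _ => .z
  | .z, .K _ _ => .z
  | .z, .R _ => .z
  | .z, .N _ _ => .z
  | .z, .T _ => .z
  | .z, .W => .z
  | .p, .z => .z
  | .p, .p => .p
  | .p, .t => .z
  | .p, .y _ => .z
  | .p, .K _ _ => .p
  | .p, .R _ => .p
  | .p, .N _ _ => .p
  | .p, .T _ => .p
  | .p, .W => .p
  | .t, .z => .z
  | .t, .p => .z
  | .t, .t => .t
  | .t, .y _ => .z
  | .t, .K _ _ => .z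
  | .t, .R _ => .z
  | .t, .N _ _ => .z
  | .t, .T _ => .t
  | .t, .W => .t
  | .y _, .z => .z
  | .y _, .p => .z
  | .y _, .t => .z
  | .y i, .y k => .y (max i k)
  | .y _, .K _ _ => .z
  | .y _, .R _ => .z
  | .y i, .N _ l => .y (max i l)
  | .y i, .T k => .y (max i k)
  | .y _, .W => .z
  | .K _ _, .z => .z
  | .K _ _, .p => .p
  | .K _ _, .t => .z
  | .K _ _, .y _ => .z
  | .K i j, .K k l => .K (max i k) (max j l)
  | .K i _, .R k => .R (max i k)
  | .K i j, .N k l => .K (max i k) (max (max j l) k)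
  | .K i j, .T k => .K i (max j k)
  | .K i _, .W => .R i
  | .R _, .z => .z
  | .R _, .p => .p
  | .R _, .t => .z
  | .R _, .y _ => .z
  | .R i, .K k _ => .R (max k i)
  | .R i, .R k => .R (max i k)
  | .R i, .N k _ => .R (max i k)
  | .R i, .T _ => .R i
  | .R i, .W => .R i
  | .N _ _, .z => .z
  | .N _ _, .p => .p
  | .N _ _, .t => .z
  | .N _ j, .y k => .y (max k j)
  | .N i j, .K k l => .K (max k i) (max (max l j) i)
  | .N i _, .R k => .R (max k i)
  | .N i j, .N k l => .N (max i k) (max j l)
  | .N i j, .T k => .N i (max j k)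
  | .N i _, .W => .R i
  | .T _, .z => .z
  | .T _, .p => .p
  | .T _, .t => .t
  | .T i, .y k => .y (max k i)
  | .T i, .K k l => .K k (max l i)
  | .T _, .R k => .R k
  | .T i, .N k l => .N k (max l i)
  | .T i, .T k => .T (max i k)
  | .T _, .W => .W
  | .W, .z => .z
  | .W, .p => .p
  | .W, .t => .t
  | .W, .y _ => .z
  | .W, .K k _ => .R k
  | .W, .R k => .R k
  | .W, .N k _ => .R k
  | .W, .T _ => .W
  | .W, .W => .W


def V : E → Prop
  | .K i j => i ≤ j
  | .N i j => i ≤ j + 1
  | _ => True

theorem le_rfl' (a : E) : le a a := by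
  cases a <;> simp [le]

theorem le_tr (a b c : E) (h1 : le a b) (h2 : le b c) : le a c := by
  cases a <;> cases b <;> simp only [le] at h1 <;> cases c <;> simp only [le] at h2 ⊢ <;> omega

theorem le_as (a b : E) (h1 : le a b) (h2 : le b a) : a = b := by
  cases a <;> cases b <;> simp only [le] at h1 h2 <;> simp <;> omega

theorem V_sup (a b : E) (ha : V a) (hb : V b) : V (sup a b) := by
  cases a <;> cases b <;> simp only [V, sup] at * <;> omega

theorem V_inf (a b : E) (ha : V a) (hb : V b) : V (inf a b) := by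
  cases a <;> cases b <;> simp only [V, inf] at * <;> omega

theorem le_sup_l (a b : E) (ha : V a) (hb : V b) : le a (sup a b) := by
  cases a <;> cases b <;> simp only [V, sup, le] at * <;> omega

theorem le_sup_r (a b : E) (ha : V a) (hb : V b) : le b (sup a b) := by
  cases a <;> cases b <;> simp only [V, sup, le] at * <;> omega

theorem inf_le_l (a b : E) (ha : V a) (hb : V b) : le (inf a b) a := by
  cases a <;> cases b <;> simp only [V, inf, le] at * <;> omega

theorem inf_le_r (a b : E) (ha : V a) (hb : V b) : le (inf a b) b := by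
  cases a <;> cases b <;> simp only [V, inf, le] at * <;> omega

theorem sup_le' (a b c : E) (ha : V a) (hb : V b) (hc : V c) (h1 : le a c) (h2 : le b c) :
    le (sup a b) c := by
  cases c <;> cases a <;> simp only [le] at h1 <;> cases b <;> simp only [le] at h2 <;>
    simp only [V, sup, le] at * <;> omega

theorem le_inf' (a b c : E) (ha : V a) (hb : V b) (hc : V c) (h1 : le a b) (h2 : le a c) :
    le a (inf b c) := by
  cases a <;> cases b <;> simp only [le] at h1 <;> cases c <;> simp only [le] at h2 <;>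
    simp only [V, inf, le] at * <;> omega

def code : E → ℕ × ℕ × ℕ
  | .z => (0, 0, 0)
  | .p => (1, 0, 0)
  | .t => (2, 0, 0)
  | .y i => (3, i, 0)
  | .K i j => (4, i, j)
  | .R i => (5, i, 0)
  | .N i j => (6, i, j)
  | .T i => (7, i, 0)
  | .W => (8, 0, 0)

theorem code_inj : Function.Injective code := by
  intro a b h
  cases a <;> cases b <;> simp [code] at h ⊢ <;> omega

/-- all indices are at most `k`, and the element is not `p`. -/
def B (k : ℕ) : E → Prop
  | .p => False
  | .y i => i ≤ k
  | .K i j => i ≤ k ∧ j ≤ k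
  | .R i => i ≤ k
  | .N i j => i ≤ k ∧ j ≤ k
  | .T i => i ≤ k
  | _ => True

theorem B_mono {k m : ℕ} (h : k ≤ m) (a : E) (ha : B k a) : B m a := by
  cases a <;> simp only [B] at * <;> omega

theorem B_ex (a : E) (ha : a ≠ .p) : ∃ k, B k a := by
  cases a with
  | p => exact absurd rfl ha
  | y i => exact ⟨i, le_rfl⟩
  | K i j => exact ⟨max i j, le_max_left _ _, le_max_right _ _⟩
  | R i => exact ⟨i, le_rfl⟩
  | N i j => exact ⟨max i j, le_max_left _ _, le_max_right _ _⟩
  | T i => exact ⟨i, le_rfl⟩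
  | _ => exact ⟨0, trivial⟩

theorem B_sup (k : ℕ) (a b : E) (ha : B k a) (hb : B k b) : B k (sup a b) := by
  cases a <;> cases b <;> simp only [B, sup] at * <;> omega

theorem B_inf (k : ℕ) (a b : E) (ha : B k a) (hb : B k b) : B k (inf a b) := by
  cases a <;> cases b <;> simp only [B, inf] at * <;> omega

theorem B_code (k : ℕ) (a : E) (ha : B k a) : code a ≤ (8, k, k) := by
  cases a <;> simp only [B, code, Prod.mk_le_mk] at * <;> omega

/-- the eight elements generated by `p`, `t`, `y k`. -/
def Q (k : ℕ) : E → Prop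
  | .y i => i = k
  | .K _ _ => False
  | .R i => i = k + 1
  | .N i j => i = k + 1 ∧ j = k
  | .T i => i = k
  | _ => True

theorem Q_sup (k : ℕ) (a b : E) (ha : Q k a) (hb : Q k b) : Q k (sup a b) := by
  cases a <;> cases b <;> simp only [Q, sup] at * <;> omega

theorem Q_inf (k : ℕ) (a b : E) (ha : Q k a) (hb : Q k b) : Q k (inf a b) := by
  cases a <;> cases b <;> simp only [Q, inf] at * <;> omega

theorem Q_code (k : ℕ) (a : E) (ha : Q k a) : code a ≤ (8, k + 1, k + 1) := by
  cases a <;> simp only [Q, code, Prod.mk_le_mk] at * <;> omega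

end E

def L : Type := {x : E // x.V}

instance : Lattice L where
  le a b := E.le a.1 b.1
  le_refl a := E.le_rfl' a.1
  le_trans a b c := E.le_tr a.1 b.1 c.1
  le_antisymm a b h1 h2 := Subtype.ext (E.le_as _ _ h1 h2)
  sup a b := ⟨E.sup a.1 b.1, E.V_sup _ _ a.2 b.2⟩
  inf a b := ⟨E.inf a.1 b.1, E.V_inf _ _ a.2 b.2⟩
  le_sup_left a b := E.le_sup_l _ _ a.2 b.2
  le_sup_right a b := E.le_sup_r _ _ a.2 b.2
  sup_le a b c := E.sup_le' _ _ _ a.2 b.2 c.2
  inf_le_left a b := E.inf_le_l _ _ a.2 b.2
  inf_le_right a b := E.inf_le_r _ _ a.2 b.2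
  le_inf a b c := E.le_inf' _ _ _ a.2 b.2 c.2

theorem sup_val (a b : L) : (a ⊔ b).1 = E.sup a.1 b.1 := rfl
theorem inf_val (a b : L) : (a ⊓ b).1 = E.inf a.1 b.1 := rfl
theorem le_val (a b : L) : a ≤ b ↔ E.le a.1 b.1 := Iff.rfl

def mkp : L := ⟨.p, trivial⟩
def mkt : L := ⟨.t, trivial⟩
def mky (n : ℕ) : L := ⟨.y n, trivial⟩
def mkx (n : ℕ) : L := ⟨.K n n, le_refl n⟩

theorem fin_of_code (S : Set L) (c : ℕ × ℕ × ℕ) (h : ∀ a ∈ S, E.code a.1 ≤ c) : S.Finite := by
  refine Set.Finite.subset ((Set.finite_Iic c).preimage (f := fun a : L => E.code a.1) ?_) h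
  intro a _ b _ hab
  exact Subtype.ext (E.code_inj hab)

theorem gen (S : Set L) (hs : SupClosed S) (hi : InfClosed S) (hp : mkp ∈ S) (ht : mkt ∈ S)
    (hy : mky 0 ∈ S) (hx : mkx 0 ∈ S) (a : L) : a ∈ S := by
  have key : ∀ n, mkx n ∈ S ∧ mky n ∈ S := by
    intro n
    induction n with
    | zero => exact ⟨hx, hy⟩
    | succ n ih =>
      have h1 : mkx (n + 1) ∈ S := by
        have := hi hx (hs hp ih.2)
        convert this using 1
        apply Subtype.ext
        simp [inf_val, sup_val, mkx, mkp, mky, E.inf, E.sup]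
      refine ⟨h1, ?_⟩
      have := hi hy (hs ht h1)
      convert this using 1
      apply Subtype.ext
      simp [inf_val, sup_val, mkx, mkt, mky, E.inf, E.sup]
  obtain ⟨a, ha⟩ := a
  cases a with
  | z => exact hi hp ht
  | p => exact hp
  | t => exact ht
  | y i => exact (key i).2
  | K i j =>
    have := hi (key i).1 (hs ht (key j).1)
    convert this using 1
    apply Subtype.ext
    have hij : i ≤ j := ha
    simp [inf_val, sup_val, mkx, mkt, E.inf, E.sup, hij]
  | R i => exact hi (key i).1 (hs hp ht)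
  | N i j =>
    have := hs (hi (key i).1 (hs hp ht)) (key j).2
    convert this using 1
    apply Subtype.ext
    have hij : i ≤ j + 1 := ha
    simp [inf_val, sup_val, mkx, mkt, mkp, mky, E.inf, E.sup, hij]
  | T i => exact hs ht (key i).1
  | W => exact hs hp ht

/-- The negation of the preceding statement: Every infinite lattice generated by finitely many elements contains a finite antichain whose generated sublattice (the smallest subset containing it and closed under join and meet) is infinite. -/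
theorem result :
    ¬ (∀ (L : Type) [Lattice L], Infinite L →
      (∃ G : Set L, G.Finite ∧
        ⋂₀ {S : Set L | G ⊆ S ∧ SupClosed S ∧ InfClosed S} = Set.univ) →
      ∃ A : Set L, A.Finite ∧ IsAntichain (· ≤ ·) A ∧
        (⋂₀ {S : Set L | A ⊆ S ∧ SupClosed S ∧ InfClosed S}).Infinite) := by
  intro h
  have hinf : Infinite L := Infinite.of_injective mky (fun i j hij => by
    have := congrArg Subtype.val hij
    simpa [mky] using this)
  obtain ⟨A, hA, hanti, hI⟩ := h L hinf ⟨{mkp, mkt, mky 0, mkx 0}, Set.toFinite _, by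
    apply Set.eq_univ_of_forall
    intro a S hS
    exact gen S hS.2.1 hS.2.2 (hS.1 (by simp)) (hS.1 (by simp)) (hS.1 (by simp))
      (hS.1 (by simp)) a⟩
  apply hI
  by_cases hp : mkp ∈ A
  · have hk : ∃ k, ∀ i, mky i ∈ A → i = k := by
      by_cases hy : ∃ k, mky k ∈ A
      · obtain ⟨k, hk⟩ := hy
        refine ⟨k, fun i hi => ?_⟩
        by_contra hne
        have hne' : mky i ≠ mky k := fun e => hne (by
          have := congrArg Subtype.val e
          simpa [mky] using this)
        have h1 := hanti hi hk hne'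
        have h2 := hanti hk hi hne'.symm
        have h3 : ¬ k ≤ i := h1
        have h4 : ¬ i ≤ k := h2
        omega
      · exact ⟨0, fun i hi => absurd ⟨i, hi⟩ hy⟩
    obtain ⟨k, hk⟩ := hk
    refine Set.Finite.subset (fin_of_code {a : L | E.Q k a.1} _
      (fun a ha => E.Q_code k _ ha)) (Set.sInter_subset_of_mem ⟨?_, ?_, ?_⟩)
    · rintro ⟨a, ha⟩ haA
      have hne : ∀ b : L, b ∈ A → b.1 ≠ .p → ¬ E.le .p b.1 := fun b hb hbp =>
        hanti hp hb (fun e => hbp (by rw [← e]; rfl))
      have := hne _ haA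
      cases a with
      | y i => exact hk i haA
      | K i j => exact absurd trivial (this (by simp))
      | R i => exact absurd trivial (this (by simp))
      | N i j => exact absurd trivial (this (by simp))
      | T i => exact absurd trivial (this (by simp))
      | _ => trivial
    · intro a ha b hb
      exact E.Q_sup k _ _ ha hb
    · intro a ha b hb
      exact E.Q_inf k _ _ ha hb
  · have hk : ∃ k, ∀ a ∈ A, E.B k a.1 := by
      have h1 : ∀ a : L, ∃ k, a ∈ A → E.B k a.1 := by
        intro a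
        by_cases ha : a ∈ A
        · obtain ⟨k, hk⟩ := E.B_ex a.1 (fun e => hp (by
            have : a = mkp := Subtype.ext e
            rwa [← this]))
          exact ⟨k, fun _ => hk⟩
        · exact ⟨0, fun h => absurd h ha⟩
      choose f hf using h1
      obtain ⟨k, hk⟩ := (hA.image f).bddAbove
      exact ⟨k, fun a ha => E.B_mono (hk ⟨a, ha, rfl⟩) _ (hf a ha)⟩
    obtain ⟨k, hk⟩ := hk
    refine Set.Finite.subset (fin_of_code {a : L | E.B k a.1} _
      (fun a ha => E.B_code k _ ha)) (Set.sInter_subset_of_mem ⟨hk, ?_, ?_⟩)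
    · intro a ha b hb
      exact E.B_sup k _ _ ha hb
    · intro a ha b hb
      exact E.B_inf k _ _ ha hb

end Pool.Agent.S03238
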