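import Pool.Statements.S03284
import Pool.Agent.Lib.helper15.Fact

set_option autoImplicit false
open Pool Pool.MP_debbfb_al

namespace Pool.Agent.S03284

open Pool.Agent.Lib.helper15.Fact Function RegularWreathProduct

section Tri
variable {ι R : Type} [AddCommGroup R]

def Dep (pos : ι → ℕ) (N : AddMonoid.End (ι → R)) : Prop :=
  ∀ x c, (∀ c', pos c' < pos c → x c' = 0) → N x c = 0

lemma Dep.pow {pos : ι → ℕ} {N : AddMonoid.End (ι → R)} (h : Dep pos N) (k : ℕ) :
    ∀ x c, pos c < k → (N ^ k) x c = 0 := by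
  induction k with
  | zero => intro x c hc; omega
  | succ k ih =>
    intro x c hc
    rw [pow_succ']
    exact h _ c fun c' hc' => ih x c' (by omega)

lemma Dep.nil {pos : ι → ℕ} {N : AddMonoid.End (ι → R)} (h : Dep pos N) (B : ℕ) (hB : ∀ c, pos c < B) :
    N ^ B = 0 := by
  ext x c; exact h.pow B x c (hB c)

lemma pow_two_pow (h2 : ∀ r : R, r + r = 0) {pos : ι → ℕ} (g : AddMonoid.End (ι → R))
    (h : Dep pos (g - 1)) (B : ℕ) (hB : ∀ c, pos c < B) : g ^ 2 ^ B = 1 := by
  obtain ⟨r, hr⟩ := (Commute.one_left (g - 1)).exists_add_pow_prime_pow_eq Nat.prime_two B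
  have h3 : ((2 : ℕ) : AddMonoid.End (ι → R)) = 0 := by
    ext x c
    simp [two_smul, h2]
  rw [add_sub_cancel, h3] at hr
  obtain ⟨m, hm⟩ := Nat.exists_eq_add_of_le (Nat.lt_two_pow_self (n := B)).le
  rw [hr, one_pow, hm, pow_add, h.nil B hB]; simp

def Tri (h2 : ∀ r : R, r + r = 0) (pos : ι → ℕ) (B : ℕ) (hB : ∀ c, pos c < B) :
    Subgroup (AddMonoid.End (ι → R))ˣ where
  carrier := {g | Dep pos (g.val - 1)}
  one_mem' := fun x c _ => by simp
  mul_mem' := by
    intro a b ha hb x c hx
    have e : (a * b).val - 1 = (a.val - 1) + (b.val - 1) + (a.val - 1) * (b.val - 1) := by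
      rw [Units.val_mul]; simp only [sub_mul, mul_sub, mul_one, one_mul]; abel
    rw [e]
    show (a.val - 1) x c + (b.val - 1) x c + (a.val - 1) ((b.val - 1) x) c = 0
    rw [ha x c hx, hb x c hx, ha _ c fun c' hc' => hb x c' fun c'' h => hx c'' (by omega)]; simp
  inv_mem' := by
    intro a ha
    have key : ∀ k : ℕ, Dep pos ((a ^ k).val - 1) := by
      intro k
      induction k with
      | zero => intro x c _; simp
      | succ k ih =>
        intro x c hx
        have e : (a ^ (k + 1)).val - 1 =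
            (a.val - 1) + ((a ^ k).val - 1) + (a.val - 1) * ((a ^ k).val - 1) := by
          rw [pow_succ', Units.val_mul]; simp only [sub_mul, mul_sub, mul_one, one_mul]; abel
        rw [e]
        show (a.val - 1) x c + ((a ^ k).val - 1) x c + (a.val - 1) (((a ^ k).val - 1) x) c = 0
        rw [ha x c hx, ih x c hx, ha _ c fun c' hc' => ih x c' fun c'' h => hx c'' (by omega)]; simp
    have h1 : a ^ 2 ^ B = 1 := Units.ext (by
      rw [Units.val_pow_eq_pow_val]; exact pow_two_pow h2 _ ha B hB)
    have : a⁻¹ = a ^ (2 ^ B - 1) := by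
      rw [inv_eq_iff_mul_eq_one, ← pow_succ', Nat.sub_add_cancel Nat.one_le_two_pow, h1]
    rw [this]; exact key _

lemma Tri_p (h2 : ∀ r : R, r + r = 0) (pos : ι → ℕ) (B : ℕ) (hB : ∀ c, pos c < B) :
    IsPGroup 2 (Tri h2 pos B hB) := fun g => ⟨B, Subtype.ext (Units.ext (by
  rw [Subgroup.coe_pow, Units.val_pow_eq_pow_val]; exact pow_two_pow h2 _ g.2 B hB))⟩

lemma unit_of (h2 : ∀ r : R, r + r = 0) (pos : ι → ℕ) (B : ℕ) (hB : ∀ c, pos c < B)
    (N : AddMonoid.End (ι → R)) (h : Dep pos N) : ∃ g ∈ Tri h2 pos B hB, g.val = 1 + N := by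
  obtain ⟨g, hg⟩ := IsNilpotent.isUnit_one_add ⟨B, h.nil B hB⟩
  refine ⟨g, ?_, hg⟩
  show Dep pos (g.val - 1)
  rw [hg, add_sub_cancel_left]; exact h

end Tri

section LU
variable {R : Type} [Ring R] (n : ℕ)

abbrev Ix (n : ℕ) := Bool × Fin (n + 1)

def dg (r : R) : AddMonoid.End (Ix n → R) :=
  AddMonoidHom.mk' (fun x c => if c.1 then r * x c else x c) (by
    intro a b; funext c; simp only [Pi.add_apply]; split_ifs <;> simp [mul_add])

def B0 : AddMonoid.End (Ix n → R) :=
  AddMonoidHom.mk' (fun x c => if c.1 then x (false, c.2) + x c else x c) (by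
    intro a b; funext c; simp only [Pi.add_apply]; split_ifs <;> abel)

def A0 : AddMonoid.End (Ix n → R) :=
  AddMonoidHom.mk' (fun x c => if c.1 then x (true, c.2 + 1) else
    x c + if c.2 = Fin.last n then 0 else x (true, c.2 + 1)) (by
    intro a b; funext c; simp only [Pi.add_apply]; split_ifs <;> abel)

def A1 : AddMonoid.End (Ix n → R) :=
  AddMonoidHom.mk' (fun x c => if c.1 then x (true, c.2 - 1) else
    x c + if c.2 = Fin.last n then 0 else x (true, c.2)) (by
    intro a b; funext c; simp only [Pi.add_apply]; split_ifs <;> abel)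

def Nl (r t : R) : AddMonoid.End (Ix n → R) :=
  AddMonoidHom.mk' (fun x c => if c.1 then (if c.2 = Fin.last n then ∑ j, r ^ (j.val + 1) * x (false, j)
    else x (false, c.2) + t * x (true, c.2 - 1)) else 0) (by
    intro a b; funext c; simp only [Pi.add_apply]
    split_ifs
    · simp [mul_add, Finset.sum_add_distrib]
    · simp [mul_add]; abel
    · simp)

def Nu (r : R) : AddMonoid.End (Ix n → R) :=
  AddMonoidHom.mk' (fun x c => if c.1 then
    (if c.2 = Fin.last n then ∑ j : Fin n, r ^ (j.val + 1) * x (true, j.castSucc) else 0)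
    else if c.2 = Fin.last n then 0 else r * (x (false, c.2 + 1) + x (true, c.2 + 1))) (by
    intro a b; funext c; simp only [Pi.add_apply]
    split_ifs
    · simp [mul_add, Finset.sum_add_distrib]
    · simp
    · simp
    · simp [mul_add]; abel)

def pos (c : Ix n) : ℕ := if c.1 then (if c.2 = Fin.last n then n + 1 else n + 2 + c.2.val) else c.2.val

lemma pos_lt (c : Ix n) : pos n c < 2 * n + 3 := by
  have := c.2.2
  unfold pos; split_ifs <;> omega

lemma dep_l (r t : R) : Dep (pos n) (Nl n r t) := by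
  rintro x ⟨b, i⟩ hx
  cases b
  · rfl
  show (if i = Fin.last n then _ else _) = 0
  split_ifs with h
  · refine Finset.sum_eq_zero fun j _ => ?_
    rw [hx, mul_zero]
    have := j.2
    simp [pos, h]; try omega
  · have h1 := i.2
    rw [hx, hx, mul_zero, add_zero]
    · simp only [pos, h, if_true, if_false]
      split_ifs with h2
      · omega
      · have h0 : i ≠ 0 := by rintro rfl; exact h2 (sub_eq_iff_eq_add.2 (Fin.last_add_one n).symm)
        rw [Fin.val_sub_one_of_ne_zero h0]
        have : i.val ≠ 0 := fun h => h0 (Fin.ext h)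
        omega
    · simp [pos, h]; try omega

lemma dep_u (r : R) : Dep (fun c => 2 * n + 3 - pos n c) (Nu n r) := by
  rintro x ⟨b, i⟩ hx
  cases b
  · show (if i = Fin.last n then _ else _) = 0
    split_ifs with h
    · rfl
    · have h1 := i.2
      have h2 := (i + 1).2
      have h3 : (i + 1).val = i.val + 1 := Fin.val_add_one_of_lt (Fin.lt_last_iff_ne_last.2 h)
      rw [hx, hx, add_zero, mul_zero]
      · simp only [pos, if_true, Bool.false_eq_true, if_false]; split_ifs <;> omega
      · simp [pos]; omega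
  · show (if i = Fin.last n then _ else _) = 0
    split_ifs with h
    · refine Finset.sum_eq_zero fun j _ => ?_
      rw [hx, mul_zero]
      have := j.2
      simp [pos, h, (Fin.castSucc_lt_last j).ne]; omega
    · rfl

lemma lu (h2 : ∀ r : R, r + r = 0) (r t : R) (ht : t * r = 1) (hr : r ^ (n + 1) = 1) :
    (1 + Nl n r t) * (A0 n * dg n r * B0 n : AddMonoid.End (Ix n → R)) = 1 + Nu n r := by
  ext x ⟨b, i⟩
  have hg : ∀ c, (A0 n * dg n r * B0 n : AddMonoid.End (Ix n → R)) x c = if c.1 then r * (x (false, c.2 + 1) + x (true, c.2 + 1))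
      else x c + if c.2 = Fin.last n then 0 else r * (x (false, c.2 + 1) + x (true, c.2 + 1)) := by
    rintro ⟨b, i⟩
    cases b <;> rfl
  show (A0 n * dg n r * B0 n : AddMonoid.End (Ix n → R)) x (b, i) +
    Nl n r t ((A0 n * dg n r * B0 n : AddMonoid.End (Ix n → R)) x) (b, i) =
    x (b, i) + Nu n r x (b, i)
  cases b
  · rw [hg]
    show _ + 0 = _ + (if i = Fin.last n then _ else _)
    simp
  · show _ + (if i = Fin.last n then _ else _) = _ + (if i = Fin.last n then _ else _)
    split_ifs with h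
    · subst h
      simp only [hg, if_true, Bool.false_eq_true, if_false, Fin.last_add_one, mul_add,
        Finset.sum_add_distrib]
      have e1 : ∑ j : Fin (n + 1), r ^ (j.val + 1) * (if j = Fin.last n then 0 else
          r * x (false, j + 1) + r * x (true, j + 1)) =
          ∑ j : Fin n, r ^ (j.succ.val + 1) * x (false, j.succ) +
          ∑ j : Fin n, r ^ (j.succ.val + 1) * x (true, j.succ) := by
        rw [Fin.sum_univ_castSucc, ← Finset.sum_add_distrib]
        simp only [if_true, mul_zero, add_zero]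
        refine Finset.sum_congr rfl fun j _ => ?_
        rw [if_neg (Fin.castSucc_lt_last j).ne, Fin.coeSucc_eq_succ, mul_add, ← mul_assoc, ← mul_assoc,
          ← pow_succ]
        rfl
      have e2 := Fin.sum_univ_succ (fun j : Fin (n + 1) => r ^ (j.val + 1) * x (false, j))
      have e3 := Fin.sum_univ_succ (fun j : Fin (n + 1) => r ^ (j.val + 1) * x (true, j))
      have e4 := Fin.sum_univ_castSucc (fun j : Fin (n + 1) => r ^ (j.val + 1) * x (true, j))
      simp only [Fin.val_zero, zero_add, pow_one, Fin.val_last, hr, one_mul, Fin.val_castSucc] at e2 e3 e4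
      rw [e1, e2, add_comm (x (true, Fin.last n)), ← e4, e3]
      generalize ∑ j : Fin n, r ^ (j.succ.val + 1) * x (false, j.succ) = U
      generalize ∑ j : Fin n, r ^ (j.succ.val + 1) * x (true, j.succ) = W
      calc _ = (r * x (false, 0) + r * x (false, 0)) + (U + U) + (r * x (true, 0) + W) := by abel
        _ = _ := by rw [h2, h2]; simp
    · simp only [hg, if_true, Bool.false_eq_true, if_false, h, sub_add_cancel, ← mul_assoc, ht, one_mul]
      generalize r * (x (false, i + 1) + x (true, i + 1)) = U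
      calc _ = (U + U) + (x (false, i) + x (false, i)) + x (true, i) := by abel
        _ = _ := by rw [h2, h2]; simp

lemma AA (h2 : ∀ r : R, r + r = 0) : (A0 n * A1 n : AddMonoid.End (Ix n → R)) = 1 ∧
    (A1 n * A0 n : AddMonoid.End (Ix n → R)) = 1 := by
  constructor
  · ext x ⟨b, i⟩
    cases b
    · show (x (false, i) + if i = Fin.last n then 0 else x (true, i)) +
        (if i = Fin.last n then 0 else x (true, i + 1 - 1)) = x (false, i)
      rw [add_sub_cancel_right, add_assoc, h2, add_zero]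
    · show x (true, i + 1 - 1) = x (true, i)
      rw [add_sub_cancel_right]
  · ext x ⟨b, i⟩
    cases b
    · show (x (false, i) + if i = Fin.last n then 0 else x (true, i + 1)) +
        (if i = Fin.last n then 0 else x (true, i + 1)) = x (false, i)
      rw [add_assoc, h2, add_zero]
    · show x (true, i - 1 + 1) = x (true, i)
      rw [sub_add_cancel]

lemma BB (h2 : ∀ r : R, r + r = 0) : (B0 n * B0 n : AddMonoid.End (Ix n → R)) = 1 := by
  ext x ⟨b, i⟩
  cases b
  · rfl
  · show x (false, i) + (x (false, i) + x (true, i)) = x (true, i)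
    rw [← add_assoc, h2, zero_add]

def dgHom : R →* AddMonoid.End (Ix n → R) where
  toFun := dg n
  map_one' := by
    ext x ⟨b, i⟩
    cases b
    · rfl
    · exact one_mul _
  map_mul' r s := by
    ext x ⟨b, i⟩
    cases b
    · rfl
    · exact mul_assoc _ _ _

end LU

def GC (S : Type) [Group S] : Prop := Finite S
def PC (S : Type) [Group S] : Prop := Finite S ∧ IsPGroup 2 S

lemma base (S : Type) [Group S] (hS : GC S) :
    ∃ (T : Type) (_ : Group T) (P1 P2 : Subgroup T) (ι : S →* T), GC T ∧ PC P1 ∧ PC P2 ∧ Injective ι ∧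
      ∀ y, ∃ a ∈ P1, ∃ b ∈ P2, ι y = a * b := by
  have : Finite S := hS
  let R := MonoidAlgebra (ZMod 2) S
  have : Finite (S →₀ ZMod 2) := Finite.of_equiv _ Finsupp.equivFunOnFinite.symm
  have : Finite R := Finite.of_equiv _ (MonoidAlgebra.coeffEquiv (R := ZMod 2) (M := S)).symm
  have h2 : ∀ r : R, r + r = 0 := fun r => by
    ext g
    show r.coeff g + r.coeff g = 0
    exact CharTwo.add_self_eq_zero _
  obtain ⟨n, hn⟩ := Nat.exists_eq_succ_of_ne_zero (Nat.card_pos (α := S)).ne'
  have : Finite (AddMonoid.End (Ix n → R)) := DFunLike.finite _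
  let ι : S →* (AddMonoid.End (Ix n → R))ˣ :=
    ((dgHom n).comp (MonoidAlgebra.of (ZMod 2) S)).toHomUnits
  let A : (AddMonoid.End (Ix n → R))ˣ := ⟨A0 n, A1 n, (AA n h2).1, (AA n h2).2⟩
  let B : (AddMonoid.End (Ix n → R))ˣ := ⟨B0 n, B0 n, BB n h2, BB n h2⟩
  let L := Tri h2 (pos n) _ (pos_lt n)
  let U := Tri h2 (fun c => 2 * n + 3 - pos n c) (2 * n + 4) (fun c => by omega)
  have key : ∀ y, ∃ l ∈ L, ∃ u ∈ U, l * (A * ι y * B) = u := by
    intro y
    obtain ⟨l, hl, e1⟩ := unit_of h2 _ _ (pos_lt n) _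
      (dep_l n (MonoidAlgebra.of (ZMod 2) S y) (MonoidAlgebra.of (ZMod 2) S y⁻¹))
    obtain ⟨u, hu, e2⟩ := unit_of h2 _ (2 * n + 4) (fun c => by omega) _
      (dep_u n (MonoidAlgebra.of (ZMod 2) S y))
    refine ⟨l, hl, u, hu, Units.ext ?_⟩
    rw [Units.val_mul, e1, e2]
    refine lu n h2 _ _ (by rw [← map_mul, inv_mul_cancel, map_one]) ?_
    rw [← map_pow, ← Nat.succ_eq_add_one, ← hn, pow_card_eq_one', map_one]
  refine ⟨_, inferInstance, L.map (MulAut.conj A⁻¹).toMonoidHom, U.map (MulAut.conj B).toMonoidHom, ι,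
    (inferInstance : Finite _), ⟨inferInstance, (Tri_p _ _ _ _).map _⟩,
    ⟨inferInstance, (Tri_p _ _ _ _).map _⟩, ?_, fun y => ?_⟩
  · intro a b h
    have h1 := congrArg (fun g : (AddMonoid.End (Ix n → R))ˣ => g.val (fun _ => 1) (true, 0)) h
    apply MonoidAlgebra.of_injective (R := ZMod 2)
    have h3 : MonoidAlgebra.of (ZMod 2) S a * 1 = MonoidAlgebra.of (ZMod 2) S b * 1 := h1
    simpa using h3
  · obtain ⟨l, hl, u, hu, e⟩ := key y
    obtain ⟨l', hl', u', hu', e'⟩ := key 1
    refine ⟨_, ⟨l⁻¹ * l', L.mul_mem (L.inv_mem hl) hl', rfl⟩, _,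
      ⟨u'⁻¹ * u, U.mul_mem (U.inv_mem hu') hu, rfl⟩, ?_⟩
    show ι y = A⁻¹ * (l⁻¹ * l') * A⁻¹⁻¹ * (B * (u'⁻¹ * u) * B⁻¹)
    rw [← e, ← e', map_one]; group


/-- The negation of the preceding statement: If a group whose finitely generated subgroups are all finite equals AB for two subgroups A, B whose finitely generated subgroups are nilpotent, then every finitely generated subgroup of the group is solvable. -/
theorem result :
    ¬ (∀ (G : Type) [Group G],
      (∀ s : Finset G, Finite (Subgroup.closure (s : Set G))) →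
      ∀ A B : Subgroup G,
        (∀ s : Finset G, (s : Set G) ⊆ (A : Set G) →
          Group.IsNilpotent (Subgroup.closure (s : Set G))) →
        (∀ s : Finset G, (s : Set G) ⊆ (B : Set G) →
          Group.IsNilpotent (Subgroup.closure (s : Set G))) →
        (∀ g : G, ∃ a ∈ A, ∃ b ∈ B, g = a * b) →
        ∀ s : Finset G, IsSolvable (Subgroup.closure (s : Set G))) := by
  intro H
  have : Fact (Nat.Prime 2) := ⟨Nat.prime_two⟩
  have hyp := hyp_of_base GC PC (fun G _ h => by have : Finite G := h; infer_instance) (fun G _ h => h.1)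
    (fun P1 P2 Q _ _ _ ⟨_, h1⟩ ⟨_, h2⟩ ⟨_, h⟩ => ⟨inferInstance, wr_pgroup (prod_pgroup h1 h2) h⟩)
    (fun T P1 P2 Q _ _ _ _ h ⟨_, _⟩ ⟨_, _⟩ ⟨_, _⟩ => by
      have : Finite T := h
      exact (inferInstance : Finite ((T × P1 × P2) ≀ᵣ Q)))
    (fun S _ hS Y _ => by
      obtain ⟨T, _, P1, P2, ι, a1, a2, a3, a4, a5⟩ := base S hS
      exact ⟨T, inferInstance, P1, P2, ι, a1, a2, a3, a4, fun y _ => a5 y⟩)
  obtain ⟨G, _, A, B, h1, ⟨j, hj⟩, h2⟩ := limit hyp (st0 (Equiv.Perm (Fin 5)))
    ⟨(inferInstance : Finite (Equiv.Perm (Fin 5))), (inferInstance : Finite Unit), fun x : Unit => ⟨0, rfl⟩⟩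
  have hnil : ∀ (Q : Type) [Group Q] (f : Q →* G), PC Q → ∀ s : Finset G, (∀ y ∈ s, y ∈ f.range) →
      Group.IsNilpotent (Subgroup.closure (s : Set G)) := by
    rintro Q _ f ⟨_, hQ⟩ s hs
    have h3 : Subgroup.closure (s : Set G) ≤ f.range := (Subgroup.closure_le _).2 hs
    have : Finite f.range := (Set.finite_range _).to_subtype
    have : Finite (Subgroup.closure (s : Set G)) := Finite.of_injective _ (Subgroup.inclusion_injective h3)
    exact ((hQ.of_surjective _ f.rangeRestrict_surjective).to_le h3).isNilpotent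
  classical
  have := H G (by
      intro s
      obtain ⟨t, ht, k, -, h3, -⟩ := h2 s s.finite_toSet
      have : Finite t.G := ht.1
      have : Finite k.range := (Set.finite_range _).to_subtype
      exact Finite.of_injective _ (Subgroup.inclusion_injective ((Subgroup.closure_le k.range).2 h3))) A B
    (by
      intro s hs
      obtain ⟨t, ht, k, -, -, h3, -⟩ := h2 s s.finite_toSet
      exact hnil _ _ ht.2 s fun y hy => h3 y hy (hs hy))
    (by
      intro s hs
      obtain ⟨t, ht, k, -, -, -, h3⟩ := h2 s s.finite_toSet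
      exact hnil _ _ ht.2 s fun y hy => h3 y hy (hs hy)) h1
    (Finset.univ.image (fun x : Equiv.Perm (Fin 5) => j x))
  have h3 : Group.IsSolvable (Subgroup.closure
    ((Finset.univ.image (fun x : Equiv.Perm (Fin 5) => j x) : Finset G) : Set G)) := this
  apply Equiv.Perm.not_isSolvable_fin_5
  refine Group.isSolvable_of_isSolvable_injective (G := Equiv.Perm (Fin 5))
    (f := j.codRestrict (Subgroup.closure
      ((Finset.univ.image (fun x : Equiv.Perm (Fin 5) => j x) : Finset G) : Set G))
      fun x => Subgroup.subset_closure (by simp)) ?_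
  intro a b h
  exact hj (congrArg Subtype.val h)

end Pool.Agent.S03284
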