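import Pool.Statements.S03302
-- import your own Pool.Agent.* helpers here

set_option autoImplicit false
open Pool Pool.MP_e00c87_al

namespace Pool.Agent.S03302

def FF (H : Type) [Group H] : Prop :=
  ∃ S : Subgroup H, S.Normal ∧ IsPGroup 2 S ∧ ∀ g : H, ∃ m, Odd m ∧ g ^ (8 * m) ∈ S

theorem FF_img (H K : Type) [Group H] [Group K] (f : H →* K) (hf : Function.Surjective f)
    (h : FF H) : FF K := by
  obtain ⟨S, h1, h2, h3⟩ := h
  refine ⟨S.map f, h1.map f hf, h2.map f, fun g => ?_⟩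
  obtain ⟨g, rfl⟩ := hf g
  obtain ⟨m, hm, hg⟩ := h3 g
  exact ⟨m, hm, _, hg, map_pow f g _⟩

theorem FF_sub (K₁ K₂ : Type) [Group K₁] [Group K₂] (L : Subgroup (K₁ × K₂)) (h : FF K₁)
    (h' : FF K₂) : FF L := by
  obtain ⟨S, h1, h2, h3⟩ := h
  obtain ⟨T, g1, g2, g3⟩ := h'
  refine ⟨(S.prod T).comap L.subtype, inferInstance, ?_, fun g => ?_⟩
  · rintro ⟨⟨⟨a, b⟩, hL⟩, ha, hb⟩
    obtain ⟨i, hi⟩ := h2 ⟨a, ha⟩
    obtain ⟨j, hj⟩ := g2 ⟨b, hb⟩
    have hi' : a ^ 2 ^ i = 1 := congrArg Subtype.val hi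
    have hj' : b ^ 2 ^ j = 1 := congrArg Subtype.val hj
    refine ⟨i + j, Subtype.ext (Subtype.ext (Prod.ext ?_ ?_))⟩
    · change a ^ 2 ^ (i + j) = 1
      rw [pow_add, pow_mul, hi', one_pow]
    · change b ^ 2 ^ (i + j) = 1
      rw [pow_add, mul_comm, pow_mul, hj', one_pow]
  · obtain ⟨m, hm, hg⟩ := h3 g.1.1
    obtain ⟨n, hn, hg'⟩ := g3 g.1.2
    refine ⟨m * n, hm.mul hn, ?_, ?_⟩
    · change g.1.1 ^ (8 * (m * n)) ∈ S
      rw [← mul_assoc, pow_mul]; exact pow_mem hg n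
    · change g.1.2 ^ (8 * (m * n)) ∈ T
      rw [mul_comm m, ← mul_assoc, pow_mul]; exact pow_mem hg' m

theorem FF_sat (H K : Type) [Group H] [Group K] [Finite H] (f : H →* K)
    (hf : Function.Surjective f) (hM : ∀ M : Subgroup H, IsCoatom M → f.ker ≤ M) (h : FF K) :
    FF H := by
  obtain ⟨S, h1, h2, h3⟩ := h
  let Q : Sylow 2 (S.comap f) := Sylow.nonempty.some
  have hs := f.subgroupComap_surjective_of_surjective S hf
  have h4 : ((Q.mapSurjective hs : Sylow 2 S) : Subgroup S) = ⊤ :=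
    ((Q.mapSurjective hs).is_maximal' (h2.to_subgroup ⊤) le_top).symm
  have h5 : Subgroup.normalizer
      (((Q : Subgroup (S.comap f)).map (S.comap f).subtype : Subgroup H) : Set H) = ⊤ := by
    by_contra hc
    obtain ⟨M, hM1, hM2⟩ := (eq_top_or_exists_le_coatom _).resolve_left hc
    refine hM1.1 (top_le_iff.mp (Q.normalizer_sup_eq_top ▸ sup_le hM2 fun n hn => ?_))
    obtain ⟨q, hq, hq'⟩ : f.subgroupComap S ⟨n, hn⟩ ∈
        ((Q.mapSurjective hs : Sylow 2 S) : Subgroup S) := h4 ▸ Subgroup.mem_top _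
    have h6 : f q = f n := congrArg Subtype.val hq'
    have h7 : (q : H)⁻¹ * n ∈ M := hM M hM1 (by
      rw [MonoidHom.mem_ker, map_mul, map_inv, h6, inv_mul_cancel])
    have h8 : (q : H) ∈ M := hM2 (Subgroup.le_normalizer ⟨q, hq, rfl⟩)
    simpa using mul_mem h8 h7
  have h6 := Subgroup.normalizer_eq_top_iff.mp h5
  have h7 : (Q : Subgroup (S.comap f)).Normal := by
    rw [← Subgroup.comap_map_eq_self_of_injective (S.comap f).subtype_injective
      (Q : Subgroup (S.comap f))]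
    exact h6.comap _
  refine ⟨_, h6, Q.2.map _, fun g => ?_⟩
  obtain ⟨m, hm, hg⟩ := h3 (f g)
  rw [← map_pow] at hg
  refine ⟨m * (Q : Subgroup (S.comap f)).index,
    hm.mul (Nat.odd_iff.mpr (Nat.two_dvd_ne_zero.mp Q.not_dvd_index)), _,
    (Q : Subgroup (S.comap f)).pow_index_mem ⟨g ^ (8 * m), hg⟩, ?_⟩
  rw [← mul_assoc, pow_mul _ (8 * m)]; rfl

abbrev F3 : Type := ZMod 3
abbrev V : Type := F3 × F3 × F3 × F3
abbrev Z : Type := F3 × F3 × F3 × F3 × F3 × F3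

def wg (v w : V) : Z := (v.1 * w.2.1 - v.2.1 * w.1, v.1 * w.2.2.1 - v.2.2.1 * w.1,
  v.1 * w.2.2.2 - v.2.2.2 * w.1, v.2.1 * w.2.2.1 - v.2.2.1 * w.2.1,
  v.2.1 * w.2.2.2 - v.2.2.2 * w.2.1, v.2.2.1 * w.2.2.2 - v.2.2.2 * w.2.2.1)
def aV (v : V) : V := (v.2.2.2, v.1, v.2.1 - v.2.2.2, v.2.2.1)
def aZ (z : Z) : Z := (-z.2.2.1, -z.2.2.2.2.1, -z.2.2.2.2.2, z.1 - z.2.2.1, z.2.1,
  z.2.2.2.1 + z.2.2.2.2.2)

def P : Type := V × Z
instance : Finite P := inferInstanceAs (Finite (V × Z))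
instance : Mul P := ⟨fun x y => (x.1 + y.1, x.2 + y.2 + wg x.1 y.1)⟩
instance : One P := ⟨(0, 0)⟩
instance : Inv P := ⟨fun x => (-x.1, -x.2)⟩
theorem p1 (x y : P) : (x * y).1 = x.1 + y.1 := rfl
theorem p2 (x y : P) : (x * y).2 = x.2 + y.2 + wg x.1 y.1 := rfl
theorem wg_add (u v w : V) : wg (u + v) w + wg u v = wg u (v + w) + wg v w := by
  ext <;> simp [wg] <;> ring
theorem wg0 (v : V) : wg 0 v = 0 := by ext <;> simp [wg]
theorem wg0' (v : V) : wg v 0 = 0 := by ext <;> simp [wg]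
theorem wgn (v : V) : wg (-v) v = 0 := by ext <;> simp [wg] <;> ring
instance : Group P := Group.ofLeftAxioms
  (fun a b c => Prod.ext (add_assoc _ _ _) (by
    simp only [p1, p2]; linear_combination (exp := 1) wg_add a.1 b.1 c.1))
  (fun a => Prod.ext (zero_add _) (by
    change 0 + a.2 + wg 0 a.1 = a.2
    rw [wg0, zero_add, add_zero]))
  (fun a => Prod.ext (neg_add_cancel _) (by
    change -a.2 + a.2 + wg (-a.1) a.1 = 0
    rw [wgn, neg_add_cancel, add_zero]))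
def mkP (v : V) (z : Z) : P := (v, z)

theorem v3 : ∀ v : V, v + v + v = 0 ∧ wg v v = 0 ∧ wg (v + v) v = 0 := by decide +kernel
theorem z3 : ∀ z : Z, z + z + z = 0 := by decide +kernel
theorem P3 (x : P) : x ^ 3 = 1 := by
  rw [pow_succ, sq]
  refine Prod.ext (v3 x.1).1 ?_
  rw [p2, p2, p1, (v3 x.1).2.1, (v3 x.1).2.2, add_zero, add_zero]; exact z3 x.2

def al : Monoid.End P := MonoidHom.mk' (fun x => mkP (aV x.1) (aZ x.2)) fun x y => by
  refine Prod.ext ?_ ?_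
  · change aV (x.1 + y.1) = aV x.1 + aV y.1
    ext <;> simp [aV]; ring
  · change aZ (x.2 + y.2 + wg x.1 y.1) = aZ x.2 + aZ y.2 + wg (aV x.1) (aV y.1)
    ext <;> simp [aV, aZ, wg] <;> ring

theorem al_pow (n : ℕ) (x : P) : (al ^ n) x = mkP (aV^[n] x.1) (aZ^[n] x.2) := by
  induction n generalizing x with
  | zero => rfl
  | succ n ih => rw [pow_succ, Monoid.End.coe_mul, Function.comp_apply, ih]; rfl
theorem a8V : ∀ v : V, aV^[8] v = -v := by decide +kernel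
theorem a8Z : ∀ z : Z, aZ^[8] z = z := by decide +kernel
theorem al8 (x : P) : (al ^ 8) x = mkP (-x.1) x.2 := by rw [al_pow, a8V, a8Z]
theorem al16 : al ^ 16 = 1 := MonoidHom.ext fun x => by
  have h : (al ^ 8) ((al ^ 8) x) = x := by
    rw [al8, al8]
    exact Prod.ext (neg_neg _) rfl
  rw [show 16 = 8 + 8 from rfl, pow_add]
  exact h
def T (h : ZMod 16) : P →* P := al ^ h.val
theorem T_add (a b : ZMod 16) (x : P) : T (a + b) x = T a (T b x) := by
  rw [T, ZMod.val_add, ← pow_eq_pow_mod _ al16, pow_add]; rfl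

theorem T8 (x : P) : T 8 x = mkP (-x.1) x.2 := al8 x

def G : Type := P × ZMod 16
instance : Finite G := inferInstanceAs (Finite (P × ZMod 16))
instance : Mul G := ⟨fun g h => (g.1 * T g.2 h.1, g.2 + h.2)⟩
instance : One G := ⟨(1, 0)⟩
instance : Inv G := ⟨fun g => (T (-g.2) g.1⁻¹, -g.2)⟩
theorem g1 (x y : G) : (x * y).1 = x.1 * T x.2 y.1 := rfl
theorem g2 (x y : G) : (x * y).2 = x.2 + y.2 := rfl
instance : Group G := Group.ofLeftAxioms
  (fun a b c => Prod.ext (by simp only [g1, g2, T_add, map_mul, mul_assoc]) (add_assoc _ _ _))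
  (fun a => Prod.ext (one_mul a.1) (zero_add _))
  (fun a => Prod.ext ((map_mul (T (-a.2)) _ _).symm.trans (by rw [inv_mul_cancel, map_one]; rfl))
    (neg_add_cancel _))
def pi : G →* Multiplicative (ZMod 16) := MonoidHom.mk' (fun g => .ofAdd g.2) fun _ _ => rfl
def io : P →* G := MonoidHom.mk' (fun x => (x, 0)) fun _ _ => Prod.ext rfl (add_zero _).symm
theorem io_inj : Function.Injective io := fun _ _ h => congrArg Prod.fst h
theorem pw2 (g : G) (n : ℕ) : (g ^ n).2 = n * g.2 := by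
  have h : (g ^ n).2 = n • g.2 := congrArg Multiplicative.toAdd (map_pow pi g n)
  rw [h, nsmul_eq_mul]
theorem eio {g : G} (h : g.2 = 0) : g = io g.1 := Prod.ext rfl h
theorem G3 {g : G} (h : g.2 = 0) : g ^ 3 = 1 := by rw [eio h, ← map_pow, P3, map_one]
theorem cj (g : G) (x : P) : g * io x * g⁻¹ = io (g.1 * T g.2 x * g.1⁻¹) := by
  rw [mul_inv_eq_iff_eq_mul]
  refine Prod.ext ?_ ((add_zero _).trans (zero_add _).symm)
  exact (inv_mul_cancel_right _ _).symm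

theorem wsk1 : ∀ v w : V, wg w v + wg w v = wg v w := by decide +kernel
theorem wsk (v w : V) : wg w v + wg w v = wg v w ∧ wg (v + w) (-v) = wg v w ∧
    wg w (-w) = 0 := by
  refine ⟨wsk1 v w, ?_, ?_⟩ <;> ext <;> simp [wg] <;> ring
theorem cm (x y : P) : x * y * x⁻¹ * y⁻¹ = mkP 0 (wg y.1 x.1) := by
  have h : (x * y * x⁻¹).1 = y.1 := add_neg_cancel_comm _ _
  refine Prod.ext ((congrArg (· + -y.1) h).trans (add_neg_cancel _)) ?_
  rw [p2, h]
  change x.2 + y.2 + wg x.1 y.1 + -x.2 + wg (x.1 + y.1) (-x.1) + -y.2 + wg y.1 (-y.1) = wg y.1 x.1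
  rw [(wsk x.1 y.1).2.1, (wsk x.1 y.1).2.2, ← (wsk y.1 x.1).1]; abel

theorem mz (z z' : Z) : mkP 0 z * mkP 0 z' = mkP 0 (z + z') :=
  Prod.ext (add_zero _) ((congrArg _ (wg0 _)).trans (add_zero _))

theorem gen (K : Subgroup P) (h : ∀ v, ∃ z, mkP v z ∈ K) (x : P) : x ∈ K := by
  have h1 : ∀ v w, mkP 0 (wg v w) ∈ K := fun v w => by
    obtain ⟨z, hz⟩ := h v
    obtain ⟨z', hz'⟩ := h w
    have := mul_mem (mul_mem (mul_mem hz' hz) (inv_mem hz')) (inv_mem hz)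
    rwa [cm] at this
  have h2 : ∀ z, mkP 0 z ∈ K := fun z => by
    have := mul_mem (mul_mem (h1 (1, 0, 0, 0) (0, z.1, z.2.1, z.2.2.1))
      (h1 (0, 1, 0, 0) (0, 0, z.2.2.2.1, z.2.2.2.2.1))) (h1 (0, 0, 1, 0) (0, 0, 0, z.2.2.2.2.2))
    have h4 : wg (1, 0, 0, 0) (0, z.1, z.2.1, z.2.2.1) +
        wg (0, 1, 0, 0) (0, 0, z.2.2.2.1, z.2.2.2.2.1) +
        wg (0, 0, 1, 0) (0, 0, 0, z.2.2.2.2.2) = z := by ext <;> simp [wg]
    rwa [mz, mz, h4] at this
  obtain ⟨z, hz⟩ := h x.1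
  have h3 : mkP 0 (x.2 - z) * mkP x.1 z = x :=
    Prod.ext (zero_add _) ((congrArg _ (wg0 _)).trans ((add_zero _).trans (sub_add_cancel _ _)))
  exact h3 ▸ mul_mem (h2 _) hz

def gg : G := (1, 1)
theorem gg_pow (n : ℕ) : (gg ^ n).1 = 1 := by
  induction n with
  | zero => rfl
  | succ n ih => rw [pow_succ, g1, ih, one_mul]; exact map_one _
theorem odd8 : ∀ a : ZMod 16, 8 * (2 * a + 1) * 1 = 8 := by decide

theorem res (H : Type) [Group H] (f : G →* H) (hf : Function.Surjective f) (h : FF H) (x : P) :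
    f (io x) = 1 := by
  obtain ⟨S, h1, h2, h3⟩ := h
  obtain ⟨m, ⟨a, rfl⟩, hm⟩ := h3 (f gg)
  rw [← map_pow] at hm
  have h4 : (gg ^ (8 * (2 * a + 1))).2 = 8 := by rw [pw2]; push_cast; exact odd8 a
  have h4' := gg_pow (8 * (2 * a + 1))
  generalize gg ^ (8 * (2 * a + 1)) = s at hm h4 h4'
  refine gen (f.comp io).ker (fun v => ?_) x
  obtain ⟨y, hy⟩ : ∃ y, y = s.1 * T s.2 (mkP v 0) * s.1⁻¹ * (mkP v 0)⁻¹ := ⟨_, rfl⟩
  have h5 : f (io y) ∈ S := by
    have h5 := mul_mem hm (h1.conj_mem _ (inv_mem hm) (f (io (mkP v 0))))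
    rw [hy, map_mul io, ← cj]
    simp only [map_mul, map_inv, mul_assoc] at h5 ⊢
    exact h5
  obtain ⟨k, hk⟩ := h2 ⟨_, h5⟩
  have h6 : f (io y) ^ 2 ^ k = 1 := congrArg Subtype.val hk
  have h7 : y.1 = v := by
    rw [hy, h4, h4', inv_one, one_mul, mul_one, p1, T8]
    exact (neg_add _ _).symm.trans (neg_eq_of_add_eq_zero_right (v3 v).1)
  refine ⟨y.2, ?_⟩
  rw [← h7]
  have h8 : f (io y) ^ 3 = 1 := by rw [← map_pow, ← map_pow, P3, map_one, map_one]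
  have h9 := pow_gcd_eq_one.mpr ⟨h6, h8⟩
  rw [Nat.Coprime.pow_left k (by norm_num : Nat.Coprime 2 3), pow_one] at h9
  exact h9

theorem irr : ∀ v : V, v ≠ 0 → ∃ a b c d : Fin 3,
    a.val • v + b.val • aV v + c.val • aV (aV v) + d.val • aV (aV (aV v)) = (1, 0, 0, 0) := by
  decide +kernel
theorem span : ∀ v : V, v = v.1.val • (1, 0, 0, 0) + v.2.1.val • aV (1, 0, 0, 0) +
    v.2.2.1.val • aV (aV (1, 0, 0, 0)) + v.2.2.2.val • aV (aV (aV (1, 0, 0, 0))) := by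
  decide +kernel
theorem zm : ∀ h : ZMod 16, 8 * h ≠ 0 → (((h ^ 3).val : ℕ) : ZMod 16) * h = 1 ∧
    ((24 : ℕ) : ZMod 16) * h = 8 := by decide
theorem e24 {g : G} (h : 8 * g.2 = 0) : g ^ (8 * 3) = 1 := by
  rw [pow_mul, G3 ((pw2 g 8).trans h)]
theorem e48 (g : G) : g ^ 24 * g ^ 24 = 1 := by
  rw [← pow_add, show 24 + 24 = 16 * 3 from rfl, pow_mul,
    G3 ((pw2 g 16).trans (by rw [ZMod.natCast_self, zero_mul]))]

theorem proper (K : Subgroup G) (hK : K ≠ ⊤) : FF K := by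
  by_cases h : ∀ g ∈ K, 8 * g.2 = 0
  · exact ⟨⊥, inferInstance, IsPGroup.of_bot, fun g => ⟨3, by decide,
      Subtype.ext (e24 (h g g.2))⟩⟩
  push Not at h
  obtain ⟨g0, hg0, hg0'⟩ := h
  obtain ⟨g, hg, hg'⟩ : ∃ g ∈ K, g.2 = 1 :=
    ⟨_, pow_mem hg0 (g0.2 ^ 3).val, (pw2 _ _).trans (zm _ hg0').1⟩
  have h1 : ∀ t : G, ∃ x, t = io x * g ^ t.2.val := fun t => ⟨_, by
    rw [← eio (g := t * (g ^ t.2.val)⁻¹), inv_mul_cancel_right]
    change t.2 + -(g ^ t.2.val).2 = 0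
    rw [pw2, hg', mul_one, ZMod.natCast_zmod_val, add_neg_cancel]⟩
  let W : AddSubmonoid V :=
    { carrier := {v | ∃ z, io (mkP v z) ∈ K}
      zero_mem' := ⟨0, (map_one io).symm ▸ one_mem K⟩
      add_mem' := fun ⟨_, h⟩ ⟨_, h'⟩ => ⟨_, (map_mul io _ _).symm ▸ mul_mem h h'⟩ }
  have h2 : ∀ v ∈ W, aV v ∈ W := by
    rintro v ⟨z, hz⟩
    have h3 := mul_mem (mul_mem hg hz) (inv_mem hg)
    rw [cj, hg'] at h3
    have h4 : (g.1 * T 1 (mkP v z) * g.1⁻¹).1 = aV v := add_neg_cancel_comm _ _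
    rw [← h4]
    exact ⟨_, h3⟩
  have h3 : ∀ v ∈ W, ∀ a b c d : ℕ, a • v + b • aV v + c • aV (aV v) + d • aV (aV (aV v)) ∈ W :=
    fun v hv a b c d => add_mem (add_mem (add_mem (nsmul_mem hv a) (nsmul_mem (h2 _ hv) b))
      (nsmul_mem (h2 _ (h2 _ hv)) c)) (nsmul_mem (h2 _ (h2 _ (h2 _ hv))) d)
  have h4 : ∀ x, io x ∈ K → x.1 = 0 := by
    intro x hx
    by_contra hc
    obtain ⟨a, b, c, d, h5⟩ := irr _ hc
    have h6 := h3 x.1 ⟨x.2, hx⟩ a b c d
    rw [h5] at h6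
    refine hK (eq_top_iff.mpr fun t _ => ?_)
    obtain ⟨y, hy⟩ := h1 t
    rw [hy]
    exact mul_mem (gen (K.comap io) (fun v => span v ▸ h3 _ h6 _ _ _ _) y) (pow_mem hg _)
  have h5 : (g ^ 24).2 = 8 := by rw [pw2, hg']; rfl
  have h6 : ∀ t ∈ K, Commute (g ^ 24) t := by
    intro t ht
    obtain ⟨y, hy⟩ := h1 t
    have h7 : y.1 = 0 := h4 y (by
      rw [eq_mul_inv_of_mul_eq hy.symm]; exact mul_mem ht (inv_mem (pow_mem hg _)))
    rw [hy]
    refine Commute.mul_right ?_ (Commute.pow_pow_self g _ _)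
    rw [commute_iff_eq, ← mul_inv_eq_iff_eq_mul, cj, h5, T8, h7, neg_zero]
    congr 1
    rw [mul_inv_eq_iff_eq_mul]
    refine Prod.ext (by rw [p1, p1, h7, add_comm]; rfl) ?_
    rw [p2, p2, h7, wg0, add_comm y.2]
    exact congrArg _ (wg0' _)
  let s : K := ⟨g ^ 24, pow_mem hg _⟩
  have hs : s ^ 2 = 1 := Subtype.ext ((sq _).trans (e48 g))
  refine ⟨Subgroup.zpowers s, ⟨fun n ⟨j, hj⟩ t => ?_⟩, fun ⟨n, j, hj⟩ => ⟨1, Subtype.ext ?_⟩,
    fun t => ⟨3, by decide, ?_⟩⟩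
  · have h7 : Commute s t := Subtype.ext (h6 t t.2)
    rw [← hj, ← (h7.zpow_left j).eq, mul_inv_cancel_right]
    exact ⟨j, rfl⟩
  · change n ^ 2 ^ 1 = 1
    rw [← hj, pow_one, ← zpow_natCast, ← zpow_mul, mul_comm, zpow_mul, zpow_natCast, hs, one_zpow]
  · by_cases h7 : 8 * t.1.2 = 0
    · rw [show t ^ (8 * 3) = 1 from Subtype.ext (e24 h7)]; exact one_mem _
    · have h8 : (g ^ 24 * t.1 ^ 24) ^ 3 = 1 := G3 (by rw [g2, h5, pw2, (zm _ h7).2]; rfl)
      have h9 : (g ^ 24 * t.1 ^ 24) ^ 2 = 1 := by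
        rw [(h6 _ (pow_mem t.2 24)).mul_pow, sq, sq, e48, e48, one_mul]
      rw [pow_succ, h9, one_mul] at h8
      exact ⟨-1, Subtype.ext ((zpow_neg_one _).trans (inv_eq_of_mul_eq_one_right h8))⟩

theorem pi_surj : Function.Surjective pi := fun h => ⟨(1, h.toAdd), rfl⟩
theorem e16 : ∀ g : Multiplicative (ZMod 16), g ^ 2 ^ 4 = 1 := by decide
theorem PP : IsPGroup 3 P := fun x => ⟨1, P3 x⟩

theorem fin (K : Type) [Field K] (fr : K →+* K) (h3 : (3 : K) = 0) (hf : ∀ t, fr (fr t) = t)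
    (φ : K × K → G) (h1 : ∀ x : K × K, x.2 + fr x.2 + fr x.1 * x.1 = 0 → (φ x).2 = 0)
    (h2 : ∀ g : P, ∃ x : K × K, x.2 + fr x.2 + fr x.1 * x.1 = 0 ∧ φ x = io g)
    (h4 : ∀ x y : K × K, x.2 + fr x.2 + fr x.1 * x.1 = 0 → y.2 + fr y.2 + fr y.1 * y.1 = 0 →
      φ (x.1 + y.1, x.2 + y.2 - x.1 * fr y.1) = φ x * φ y) : False := by
  have h5 : ∀ x y : K × K, x.2 + fr x.2 + fr x.1 * x.1 = 0 → y.2 + fr y.2 + fr y.1 * y.1 = 0 →
      φ x * φ y * (φ x)⁻¹ * (φ y)⁻¹ = φ (0, y.1 * fr x.1 - x.1 * fr y.1) := by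
    intro x y hx hy
    have h6 := h4 (0, y.1 * fr x.1 - x.1 * fr y.1) (y.1 + x.1, y.2 + x.2 - y.1 * fr x.1)
      (by simp only [map_sub, map_mul, hf, map_zero]; ring)
      (by simp only [map_sub, map_mul, map_add, hf]; linear_combination hx + hy)
    rw [h4 y x hy hx] at h6
    rw [mul_inv_eq_iff_eq_mul, mul_inv_eq_iff_eq_mul, mul_assoc, ← h6, ← h4 x y hx hy]
    congr 2 <;> ring
  obtain ⟨x, hx, hx'⟩ := h2 (mkP (1, 0, 0, 0) 0)
  obtain ⟨y, hy, hy'⟩ := h2 (mkP (0, 1, 0, 0) 0)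
  obtain ⟨w, hw, hw'⟩ := h2 (mkP (0, 0, 1, 0) 0)
  have h6 : ∀ a b : P, io a * io b * (io a)⁻¹ * (io b)⁻¹ = io (mkP 0 (wg b.1 a.1)) := fun a b => by
    rw [← cm, map_mul, map_mul, map_mul, map_inv, map_inv]
  have h7 : x.1 ≠ 0 := by
    intro h
    have h8 := h5 x y hx hy
    have h9 := h5 x x hx hx
    rw [hx', hy', h6, h] at h8
    rw [hx', h6, h] at h9
    simp only [map_zero, mul_zero, zero_mul] at h8 h9
    have h10 := congrArg (fun p : P => p.2.1) (io_inj (h8.trans h9.symm))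
    revert h10; decide
  have h8 : fr x.1 ≠ 0 := (map_ne_zero fr).mpr h7
  obtain ⟨c, hc⟩ : ∃ c, c = w.1 * fr y.1 - y.1 * fr w.1 := ⟨_, rfl⟩
  have h9 : fr c = -c := by rw [hc]; simp only [map_sub, map_mul, hf]; ring
  obtain ⟨s, hs⟩ : ∃ s, s = -c / fr x.1 := ⟨_, rfl⟩
  have h10 : fr s = c / x.1 := by rw [hs, map_div₀, map_neg, h9, hf, neg_neg]
  have h11 : (s, fr s * s).2 + fr (s, fr s * s).2 + fr (s, fr s * s).1 * (s, fr s * s).1 = 0 := by
    simp only [map_mul, hf]; linear_combination (fr s * s) * h3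
  have h12 := h5 x _ hx h11
  have h13 := h5 y w hy hw
  have h14 : s * fr x.1 - x.1 * fr s = c := by
    rw [h10, hs]; field_simp; linear_combination (-c) * h3
  rw [hx', eio (h1 _ h11), h6, h14] at h12
  rw [hy', hw', h6, ← hc] at h13
  have h15 := congrArg (fun p : P => p.2.2.2.2.1) (io_inj (h12.trans h13.symm))
  simp [mkP, wg] at h15

/-- The negation of the preceding statement: For any saturated formation F and finite soluble minimal non-F-group G whose F-residual is a Sylow p-subgroup, that residual is a homomorphic image of the Sylow p-subgroup of PSU(3,q) over the field of order q², q = p^n, for some n ≥ 1. -/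
theorem result :
    ¬ (∀ (F : ∀ (H : Type) [Group H], Prop),
    (∀ (H K : Type) [Group H] [Group K] [Finite H] (f : H →* K),
        Function.Surjective f → F H → F K) →
    (∀ (H K₁ K₂ : Type) [Group H] [Group K₁] [Group K₂] [Finite H]
        (f₁ : H →* K₁) (f₂ : H →* K₂),
        Function.Surjective f₁ → Function.Surjective f₂ → F K₁ → F K₂ →
        F ↥(f₁.prod f₂).range) →
    (∀ (H K : Type) [Group H] [Group K] [Finite H] (f : H →* K),
        Function.Surjective f → (∀ M : Subgroup H, IsCoatom M → f.ker ≤ M) →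
        F K → F H) →
    ∀ (G : Type) [Group G] [Finite G],
      IsSolvable G → ¬ F G → (∀ K : Subgroup G, K ≠ ⊤ → F ↥K) →
      ∀ (p : ℕ) [Fact p.Prime] (R : Subgroup G),
        R = sInf {K : Subgroup G | ∃ (H : Type) (_ : Group H) (_ : Finite H),
              F H ∧ ∃ f : G →* H, Function.Surjective f ∧ f.ker = K} →
        (∃ P : Sylow p G, (P : Subgroup G) = R) →
        ∃ n : ℕ, 0 < n ∧
          ∃ φ : GaloisField p (2 * n) × GaloisField p (2 * n) → G,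
            (∀ x : GaloisField p (2 * n) × GaloisField p (2 * n),
                x.2 + x.2 ^ (p ^ n) + x.1 ^ (p ^ n + 1) = 0 → φ x ∈ R) ∧
            (∀ g ∈ R, ∃ x : GaloisField p (2 * n) × GaloisField p (2 * n),
                x.2 + x.2 ^ (p ^ n) + x.1 ^ (p ^ n + 1) = 0 ∧ φ x = g) ∧
            (∀ x y : GaloisField p (2 * n) × GaloisField p (2 * n),
                x.2 + x.2 ^ (p ^ n) + x.1 ^ (p ^ n + 1) = 0 →
                y.2 + y.2 ^ (p ^ n) + y.1 ^ (p ^ n + 1) = 0 →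
                φ (x.1 + y.1, x.2 + y.2 - x.1 * y.1 ^ (p ^ n)) = φ x * φ y)) := by
  intro h
  have hs : Group.IsSolvable P := by
    have := PP.isNilpotent
    infer_instance
  have hp : IsPGroup 3 pi.ker := fun g => ⟨1, Subtype.ext (G3 g.2)⟩
  have hi : ¬ 3 ∣ pi.ker.index := by
    rw [Subgroup.index_ker, MonoidHom.range_eq_top.mpr pi_surj, Subgroup.card_top]
    simp
  obtain ⟨n, hn, φ, h1, h2, h3⟩ := h FF (fun H K _ _ _ f => FF_img H K f)
    (fun _ K₁ K₂ _ _ _ _ _ _ _ _ => FF_sub K₁ K₂ _) FF_sat G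
    (solvable_of_ker_le_range io pi fun g hg => ⟨_, (eio hg).symm⟩)
    (fun hF => absurd (congrArg (fun p : P => p.1.1) (io_inj ((res G (MonoidHom.id G)
      Function.surjective_id hF (mkP (1, 0, 0, 0) 0)).trans (map_one io).symm))) (by decide))
    proper 3 pi.ker (le_antisymm (le_sInf fun K ⟨H, _, _, hH, f, hf, hK⟩ g hg => by
      rw [← hK, eio hg]; exact res H f hf hH _)
      (sInf_le ⟨_, _, inferInstance, ⟨⊤, inferInstance, fun g => ⟨4, Subtype.ext (e16 _)⟩, fun _ => ⟨1, odd_one, trivial⟩⟩,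
        pi, pi_surj, rfl⟩))
    ⟨hp.toSylow hi, rfl⟩
  have := Fintype.ofFinite (GaloisField 3 (2 * n))
  refine fin _ (iterateFrobenius (GaloisField 3 (2 * n)) 3 n) (CharP.cast_eq_zero _ 3)
    (fun t => ?_) φ (fun x hx => h1 x ?_) (fun g => ?_) fun x y hx hy => h3 x y ?_ ?_
  · rw [iterateFrobenius_def, iterateFrobenius_def, ← pow_mul, ← pow_add, ← two_mul,
      ← GaloisField.card 3 (2 * n) (by omega), Nat.card_eq_fintype_card, FiniteField.pow_card]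
  · rw [pow_succ]; exact hx
  · obtain ⟨x, hx, hx'⟩ := h2 (io g) rfl
    rw [pow_succ] at hx
    exact ⟨x, hx, hx'⟩
  · rw [pow_succ]; exact hx
  · rw [pow_succ]; exact hy

end Pool.Agent.S03302
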