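import Pool.Statements.S03339
import Pool.Agent.Lib.helper27.CoxMain

set_option autoImplicit false
open Pool Pool.MP_e21d7a_al

namespace Pool.Agent.S03339

/-- For the rank-4 system A and the rank-5 cyclic system B, every infinite reduced word's inversion roots, normalized to coordinate sum 1 (i.e. viewed projectively), have exactly one accumulation point. -/
theorem result :
    (∀ (M : CoxeterMatrix (Fin 4)), (∀ i j : Fin 4, i ≠ j → M i j = 0) →
      ∀ (G : Matrix (Fin 4) (Fin 4) ℝ),
        (∀ i j : Fin 4, G i j =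
          if i = j then 1
          else if (i = 0 ∧ j = 1) ∨ (i = 1 ∧ j = 0) then -2
          else if (i = 2 ∧ j = 3) ∨ (i = 3 ∧ j = 2) then -6
          else -1) →
      ∀ (σ : Fin 4 → Matrix (Fin 4) (Fin 4) ℝ),
        (∀ i a b : Fin 4, σ i a b = (if a = b then (1 : ℝ) else 0) - (if a = i then 2 * G i b else 0)) →
      ∀ s : ℕ → Fin 4,
        (∀ k : ℕ, M.toCoxeterSystem.IsReduced (List.ofFn fun j : Fin k => s j)) →
        ∃! x : Fin 4 → ℝ, AccPt x (Filter.principal (Set.range fun k : ℕ =>
          (∑ i, (Matrix.mulVec (List.ofFn fun j : Fin k => σ (s j)).prod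
              (Pi.single (s k) (1 : ℝ) : Fin 4 → ℝ)) i)⁻¹ •
            Matrix.mulVec (List.ofFn fun j : Fin k => σ (s j)).prod
              (Pi.single (s k) (1 : ℝ) : Fin 4 → ℝ)))) ∧
    (∀ (M : CoxeterMatrix (Fin 5)),
        (∀ i j : Fin 5, i ≠ j → M i j = if i - j = 1 ∨ j - i = 1 then 0 else 2) →
      ∀ (G : Matrix (Fin 5) (Fin 5) ℝ),
        (∀ i j : Fin 5, G i j =
          if i = j then 1
          else if i - j = 1 ∨ j - i = 1 then -2
          else 0) →
      ∀ (σ : Fin 5 → Matrix (Fin 5) (Fin 5) ℝ),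
        (∀ i a b : Fin 5, σ i a b = (if a = b then (1 : ℝ) else 0) - (if a = i then 2 * G i b else 0)) →
      ∀ s : ℕ → Fin 5,
        (∀ k : ℕ, M.toCoxeterSystem.IsReduced (List.ofFn fun j : Fin k => s j)) →
        ∃! x : Fin 5 → ℝ, AccPt x (Filter.principal (Set.range fun k : ℕ =>
          (∑ i, (Matrix.mulVec (List.ofFn fun j : Fin k => σ (s j)).prod
              (Pi.single (s k) (1 : ℝ) : Fin 5 → ℝ)) i)⁻¹ •
            Matrix.mulVec (List.ofFn fun j : Fin k => σ (s j)).prod
              (Pi.single (s k) (1 : ℝ) : Fin 5 → ℝ)))) := by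
  refine ⟨?_, ?_⟩
  · intro M _ G hG σ hσ s hred
    have h := Pool.Agent.Lib.helper27.CoxMain.sysA
      ⟨Pool.Agent.Lib.helper27.CoxCert.GA, G, σ, s,
        fun i j => by
          rw [hG]; unfold Pool.Agent.Lib.helper27.CoxCert.GA; split_ifs <;> simp,
        hσ, Pool.Agent.Lib.helper27.CoxCert.A_symm, Pool.Agent.Lib.helper27.CoxCert.A_diag⟩ rfl
      (fun k hk => Pool.Agent.Lib.helper27.CoxAn.red_contra M.toCoxeterSystem s hred k (k + 1)
        (by omega) hk (fun l a b => by omega))
    simp only [Pool.Agent.Lib.helper27.CoxMain.single_eq]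
    exact h
  · intro M hM G hG σ hσ s hred
    have h := Pool.Agent.Lib.helper27.CoxMain.sysB
      ⟨Pool.Agent.Lib.helper27.CoxCert.GB, G, σ, s,
        fun i j => by
          rw [hG]; unfold Pool.Agent.Lib.helper27.CoxCert.GB; split_ifs <;> simp,
        hσ, Pool.Agent.Lib.helper27.CoxCert.B_symm, Pool.Agent.Lib.helper27.CoxCert.B_diag⟩ rfl
      (fun i k hik he hc => Pool.Agent.Lib.helper27.CoxAn.red_contra M.toCoxeterSystem s hred i k
        hik he (fun l a b => by
          have h0 : Pool.Agent.Lib.helper27.CoxCert.GB (s l) (s k) = 0 := hc l a b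
          have hne : s l ≠ s k := by
            intro h1
            rw [h1, Pool.Agent.Lib.helper27.CoxCert.B_diag] at h0
            exact one_ne_zero h0
          have h2 : M (s l) (s k) = 2 := by
            rw [hM _ _ hne, if_neg]
            intro h3
            unfold Pool.Agent.Lib.helper27.CoxCert.GB at h0
            rw [if_neg hne, if_pos h3] at h0
            exact absurd h0 (by norm_num)
          have h3 := M.toCoxeterSystem.simple_mul_simple_pow (s l) (s k)
          rw [h2, pow_two] at h3
          have h4 := eq_inv_of_mul_eq_one_left h3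
          rw [mul_inv_rev, M.toCoxeterSystem.inv_simple, M.toCoxeterSystem.inv_simple] at h4
          exact h4))
    simp only [Pool.Agent.Lib.helper27.CoxMain.single_eq]
    exact h

end Pool.Agent.S03339
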