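import Pool.Statements.S03341
import Pool.Agent.Lib.helper4.Circ3

set_option autoImplicit false
open Real
open Pool Pool.MP_e2537c_al

namespace Pool.Agent.S03341

/-- There exist n ≥ 4 and a group of homeomorphisms of the circle that can map any counterclockwise-ordered n-tuple of distinct points onto any other such tuple, but fails to do so for some pair of ordered (n+1)-tuples. -/
theorem result :
    ∃ n : ℕ, 4 ≤ n ∧ ∃ Γ : Subgroup (Circle ≃ₜ Circle),
      (∀ x y : Fin n → Circle,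
        (∃ t : Fin n → ℝ, StrictMono t ∧ (∀ i j, t j < t i + 2 * π) ∧
            ∀ i, x i = Circle.exp (t i)) →
        (∃ s : Fin n → ℝ, StrictMono s ∧ (∀ i j, s j < s i + 2 * π) ∧
            ∀ i, y i = Circle.exp (s i)) →
        ∃ γ ∈ Γ, ∀ i, x i = γ (y i)) ∧
      ¬ (∀ x y : Fin (n + 1) → Circle,
        (∃ t : Fin (n + 1) → ℝ, StrictMono t ∧ (∀ i j, t j < t i + 2 * π) ∧
            ∀ i, x i = Circle.exp (t i)) →
        (∃ s : Fin (n + 1) → ℝ, StrictMono s ∧ (∀ i j, s j < s i + 2 * π) ∧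
            ∀ i, y i = Circle.exp (s i)) →
        ∃ γ ∈ Γ, ∀ i, x i = γ (y i)) := by
  have hpi := Real.pi_gt_three
  let A : Fin 5 → Circle := fun i => Circle.exp ((i : ℕ) : ℝ)
  let B : Fin 5 → Circle := fun i => Circle.exp (((i : ℕ) : ℝ) + 1)
  have bd : ∀ i : Fin 5, (0 : ℝ) ≤ (i : ℕ) ∧ ((i : ℕ) : ℝ) ≤ 4 := fun i =>
    ⟨Nat.cast_nonneg _, by exact_mod_cast Nat.lt_succ_iff.mp i.2⟩
  have small : ∀ (x : ℝ) (m : ℤ), x = m * (2 * π) → -6 < x → x < 6 → x = 0 := by
    intro x m e h1 h2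
    have a : m < 1 := by
      by_contra hc
      have : (1 : ℝ) ≤ m := by exact_mod_cast not_lt.mp hc
      nlinarith
    have b : -1 < m := by
      by_contra hc
      have : (m : ℝ) ≤ -1 := by exact_mod_cast not_lt.mp hc
      nlinarith
    have : m = 0 := by omega
    rw [e, this]; simp
  have hA : Function.Injective A := by
    intro i j e
    obtain ⟨m, hm⟩ := Circle.exp_eq_exp.mp e
    have := small (((i : ℕ) : ℝ) - (j : ℕ)) m (by linarith) (by linarith [bd i, bd j])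
      (by linarith [bd i, bd j])
    have : ((i : ℕ) : ℝ) = (j : ℕ) := by linarith
    exact Fin.ext (by exact_mod_cast this)
  let T : Type := {s : Fin 4 → ℝ // StrictMono s ∧ ∀ i j, s j < s i + 2 * π}
  have hT : Cardinal.mk T ≤ Cardinal.continuum :=
    (Cardinal.mk_subtype_le _).trans (by
      simp [Cardinal.mk_real]
      exact_mod_cast Cardinal.power_nat_le (n := 4) Cardinal.aleph0_le_continuum)
  have : Nonempty T := ⟨⟨fun i => ((i : ℕ) : ℝ), fun i j h => by
        show ((i : ℕ) : ℝ) < (j : ℕ)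
        exact_mod_cast h, fun i j => by
    have h1 : ((j : ℕ) : ℝ) ≤ 3 := by exact_mod_cast Nat.lt_succ_iff.mp j.2
    have h2 : (0 : ℝ) ≤ (i : ℕ) := Nat.cast_nonneg _
    linarith⟩⟩
  obtain ⟨Γ, h1, h2⟩ := Lib.helper4.Circ.transfinite (G := Lib.helper4.Circ.HC) (I := T × T)
    (by
      rw [Cardinal.mk_prod, Cardinal.lift_id, ← Cardinal.continuum_mul_self]
      exact mul_le_mul' hT hT)
    (Lib.helper4.Circ.Good A B)
    ⟨fun h => absurd rfl h, fun h => by
      obtain ⟨m, hm⟩ := Circle.exp_eq_exp.mp (h 0)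
      have := small (-1) m (by simp at hm; linarith) (by norm_num) (by norm_num)
      norm_num at this⟩
    (fun i g => ∀ j, Circle.exp (i.2.1 j) = g (Circle.exp (i.1.1 j)))
    (fun Γ hc hΓ i => Lib.helper4.Circ.step A B hA Γ hc hΓ i.1.1 i.2.1 i.1.2.1 i.2.2.1 i.1.2.2 i.2.2.2)
  refine ⟨4, le_rfl, Γ, ?_, fun h => ?_⟩
  · rintro x y ⟨t, t1, t2, t3⟩ ⟨s, s1, s2, s3⟩
    obtain ⟨g, hg, hg'⟩ := h2 (⟨s, s1, s2⟩, ⟨t, t1, t2⟩)
    exact ⟨g, hg, fun i => by rw [t3, s3]; exact hg' i⟩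
  · obtain ⟨g, hg, hg'⟩ := h B A
      ⟨fun i => ((i : ℕ) : ℝ) + 1, fun i j h => by
        have : ((i : ℕ) : ℝ) < (j : ℕ) := by exact_mod_cast h
        show _ + _ < _ + _
        linarith, fun i j => by linarith [bd i, bd j], fun i => rfl⟩
      ⟨fun i => ((i : ℕ) : ℝ), fun i j h => by
        show ((i : ℕ) : ℝ) < (j : ℕ)
        exact_mod_cast h,
        fun i j => by linarith [bd i, bd j], fun i => rfl⟩
    exact (h1 g hg).2 (fun i => (hg' i).symm)

end Pool.Agent.S03341
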