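import Pool.Statements.S03353
import Pool.Agent.Lib.helper4.FrInv

set_option autoImplicit false
open Pool Pool.MP_e3e9dd_al

namespace Pool.Agent.S03353

/-- For every free group on an infinite set of generators, there is an automorphism of order exactly two whose normal closure in the automorphism group is the whole automorphism group. -/
theorem result :
    ∀ (α : Type) [Infinite α],
      ∃ σ : MulAut (FreeGroup α), σ ≠ 1 ∧ σ * σ = 1 ∧
        Subgroup.normalClosure ({σ} : Set (MulAut (FreeGroup α))) = ⊤ := by
  intro α _
  exact H4Fr.involution α

end Pool.Agent.S03353
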