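import Pool.Statements.S03388
import Pool.Agent.Lib.helper7.CoHopf

set_option autoImplicit false
open Pool Pool.MP_e6a096_al

namespace Pool.Agent.S03388

open Pool.Agent.Lib.helper7.CoHopf

lemma fg : Subsemigroup.closure ({b 0, t, t⁻¹, a, c} : Set G) = T.toSubsemigroup := by
  apply le_antisymm
  · rw [Subsemigroup.closure_le]
    rintro x (rfl | rfl | rfl | rfl | rfl)
    exacts [b_mem 0, t_mem, T.inv_mem t_mem, a_mem, c_mem]
  · have m : ∀ x ∈ ({b 0, t, t⁻¹, a, c} : Set G),
        x ∈ Subsemigroup.closure ({b 0, t, t⁻¹, a, c} : Set G) :=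
      fun x hx => Subsemigroup.subset_closure hx
    let K : Subgroup G :=
      { carrier := Subsemigroup.closure ({b 0, t, t⁻¹, a, c} : Set G)
        mul_mem' := fun h1 h2 => Subsemigroup.mul_mem _ h1 h2
        one_mem' := by
          rw [← bb 0]
          exact Subsemigroup.mul_mem _ (m _ (by simp)) (m _ (by simp))
        inv_mem' := by
          intro x hx
          induction hx using Subsemigroup.closure_induction with
          | mem x hx =>
            rcases hx with rfl | rfl | rfl | rfl | rfl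
            · rw [inv_eq_of_mul_eq_one_right (bb 0)]; exact m _ (by simp)
            · exact m _ (by simp)
            · rw [inv_inv]; exact m _ (by simp)
            · rw [inv_eq_of_mul_eq_one_left aaa]
              exact Subsemigroup.mul_mem _ (m _ (by simp)) (m _ (by simp))
            · have : c * c = 1 := by ext1 <;> simp [c, CharTwo.add_self_eq_zero]
              rw [inv_eq_of_mul_eq_one_right this]; exact m _ (by simp)
          | mul x y _ _ h1 h2 => rw [mul_inv_rev]; exact Subsemigroup.mul_mem _ h2 h1 }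
    exact gen K (b_of K 0 (m _ (by simp)) (m _ (by simp))) (m _ (by simp)) (m _ (by simp))
      (m _ (by simp))

lemma coset {u v : G} (hu : u ∉ T) (hv : v ∉ T) : u⁻¹ * v ∈ T ∧ v * u⁻¹ ∈ T := by
  simp only [mem_T, mul_e, inv_e, mul_n, inv_n, Int.negOnePow_add, Int.negOnePow_neg] at *
  rcases Int.units_eq_one_or u.e with h1 | h1 <;> rcases Int.units_eq_one_or v.e with h2 | h2 <;>
    rcases Int.units_eq_one_or u.n.negOnePow with h3 | h3 <;>
    rcases Int.units_eq_one_or v.n.negOnePow with h4 | h4 <;> simp_all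

lemma cohopf' (f : T → T) (hm : ∀ x y, f (x * y) = f x * f y) (hi : Function.Injective f) :
    Function.Surjective f := cohopf (MonoidHom.mk' f hm) hi

/-- The negation of the preceding statement: If T is a finitely generated subsemigroup of finite Green index in a semigroup S, T is co-hopfian, and every T-relative Schützenberger group of an H^T-class outside T is co-hopfian, then every injective endomorphism of S is surjective. -/
theorem result :
    ¬ (∀ (S : Type) [Semigroup S] (T : Subsemigroup S) (Hrel : S → S → Prop),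
      (∀ u v : S, Hrel u v ↔
        ((v = u ∨ ∃ t ∈ T, v = u * t) ∧ (u = v ∨ ∃ t ∈ T, u = v * t) ∧
         (v = u ∨ ∃ t ∈ T, v = t * u) ∧ (u = v ∨ ∃ t ∈ T, u = t * v))) →
      (∃ A : Finset S, Subsemigroup.closure (A : Set S) = T) →
      (∃ F : Finset S, ∀ u : S, u ∉ T → ∃ f ∈ F, Hrel u f) →
      (∀ f : T →ₙ* T, Function.Injective f → Function.Surjective f) →
      (∀ u : S, u ∉ T →
        ∀ G : Set ({h : S // Hrel u h} → {h : S // Hrel u h}),
          (∀ g : {h : S // Hrel u h} → {h : S // Hrel u h}, g ∈ G ↔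
            (g = id ∨ ∃ t ∈ T,
              (∀ h : {h : S // Hrel u h}, ∃ h' : {h : S // Hrel u h}, h'.1 * t = h.1) ∧
              ∀ h : {h : S // Hrel u h}, (g h).1 = h.1 * t)) →
          ∀ φ : ({h : S // Hrel u h} → {h : S // Hrel u h}) →
                ({h : S // Hrel u h} → {h : S // Hrel u h}),
            (∀ g ∈ G, φ g ∈ G) →
            (∀ g ∈ G, ∀ g' ∈ G, φ (g ∘ g') = φ g ∘ φ g') →
            Set.InjOn φ G →
            ∀ g ∈ G, ∃ g' ∈ G, φ g' = g) →
      ∀ f : S →ₙ* S, Function.Injective f → Function.Surjective f) := by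
  intro H
  classical
  let Hrel : G → G → Prop := fun u v =>
    ((v = u ∨ ∃ t ∈ T.toSubsemigroup, v = u * t) ∧ (u = v ∨ ∃ t ∈ T.toSubsemigroup, u = v * t) ∧
      (v = u ∨ ∃ t ∈ T.toSubsemigroup, v = t * u) ∧ (u = v ∨ ∃ t ∈ T.toSubsemigroup, u = t * v))
  have h1 : ∀ u v, u ∉ T → v ∉ T → Hrel u v := fun u v hu hv =>
    ⟨Or.inr ⟨_, (coset hu hv).1, by simp⟩, Or.inr ⟨_, (coset hv hu).1, by simp⟩,
      Or.inr ⟨_, (coset hu hv).2, by simp⟩, Or.inr ⟨_, (coset hv hu).2, by simp⟩⟩
  have h2 : ∀ u v, u ∉ T → Hrel u v → v ∉ T := by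
    rintro u v hu ⟨-, rfl | ⟨s, hs, rfl⟩, -⟩ hv
    · exact hu hv
    · exact hu (T.mul_mem hv hs)
  have h3 : ∀ v s, v ∉ T → s ∈ T → v * s ∉ T := fun v s hv hs h =>
    hv (by simpa using T.mul_mem h (T.inv_mem hs))
  refine φ_not_surj (H G T.toSubsemigroup Hrel (fun _ _ => Iff.rfl)
    ⟨{b 0, t, t⁻¹, a, c}, by rw [← fg]; simp⟩
    ⟨{⟨0, 0, 1, 0, 1⟩}, fun u hu => ⟨_, Finset.mem_singleton_self _, h1 _ _ hu (by simp [mem_T])⟩⟩
    (fun f hf => cohopf' f f.map_mul hf) ?_ φ φ_inj)
  intro u hu Γ hΓ ψ m1 m2 m3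
  let ρ : T → {h : G // Hrel u h} → {h : G // Hrel u h} := fun s h =>
    ⟨h.1 * s, h1 _ _ hu (h3 _ _ (h2 _ _ hu h.2) s.2)⟩
  have ρm : ∀ s, ρ s ∈ Γ := fun s => (hΓ _).2 (Or.inr ⟨s, s.2, fun h => ⟨ρ s⁻¹ h, by simp [ρ]⟩,
    fun _ => rfl⟩)
  have ρs : ∀ g ∈ Γ, ∃ s, ρ s = g := by
    intro g hg
    rcases (hΓ g).1 hg with rfl | ⟨s, hs, -, h⟩
    · exact ⟨1, funext fun h => Subtype.ext (by simp [ρ])⟩
    · exact ⟨⟨s, hs⟩, funext fun x => Subtype.ext (h x).symm⟩
  have ρi : Function.Injective ρ := by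
    intro s s' h
    have := congrArg (fun g => (g ⟨u, h1 _ _ hu hu⟩).1) h
    exact Subtype.ext (mul_left_cancel this)
  have ρc : ∀ s s', ρ (s * s') = ρ s' ∘ ρ s := fun s s' =>
    funext fun h => Subtype.ext (by simp [ρ, mul_assoc])
  choose f hf using fun s => ρs _ (m1 _ (ρm s))
  have := cohopf' f (fun x y => ρi (by rw [hf, ρc, ρc, m2 _ (ρm _) _ (ρm _), hf, hf]))
    (fun x y h => ρi (m3 (ρm x) (ρm y) (by rw [← hf, ← hf, h])))
  intro g hg
  obtain ⟨s, rfl⟩ := ρs g hg
  obtain ⟨s', rfl⟩ := this s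
  exact ⟨ρ s', ρm _, (hf s').symm⟩

end Pool.Agent.S03388
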