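import Pool.Statements.S03452
import Pool.Agent.Lib.helper15.Fact

set_option autoImplicit false
open Pool Pool.MP_ead43b_al

namespace Pool.Agent.S03452

open Pool.Agent.Lib.helper15.Fact Function RegularWreathProduct

def VA (S : Type) [Group S] : Prop :=
  ∃ (N : Subgroup S) (ι : Type) (_ : Finite ι) (l : N →* (ι → Multiplicative ℤ)),
    N.FiniteIndex ∧ Injective l

lemma VA_of {H S : Type} [Group H] [Group S] (f : H →* S) (hf : Injective f) (h : f.range.FiniteIndex)
    (hH : VA H) : VA S := by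
  obtain ⟨N, ι, _, l, h1, h2⟩ := hH
  refine ⟨N.map f, ι, inferInstance, l.comp (N.equivMapOfInjective f hf).symm.toMonoidHom, ⟨?_⟩,
    h2.comp (N.equivMapOfInjective f hf).symm.injective⟩
  rw [Subgroup.index_map_of_injective N hf]
  exact mul_ne_zero h1.index_ne_zero h.index_ne_zero

lemma VA_pi {D : Type} [Group D] (Q : Type) [Finite Q] (hD : VA D) : VA (Q → D) := by
  obtain ⟨N, ι, _, l, h1, h2⟩ := hD
  have := Fintype.ofFinite Q
  refine ⟨Subgroup.pi Set.univ fun _ => N, Q × ι, inferInstance,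
    MonoidHom.mk' (fun x z => l ⟨x.1 z.1, x.2 z.1 trivial⟩ z.2) ?_, ⟨?_⟩, ?_⟩
  · intro a b
    funext z
    rw [Pi.mul_apply, ← Pi.mul_apply, ← map_mul]; rfl
  · rw [Subgroup.index_pi]
    exact Finset.prod_ne_zero_iff.2 fun _ _ => h1.index_ne_zero
  · intro a b h
    apply Subtype.ext
    funext q
    have : l ⟨a.1 q, a.2 q trivial⟩ = l ⟨b.1 q, b.2 q trivial⟩ := funext fun i => congrFun h (q, i)
    exact congrArg Subtype.val (h2 this)

def GC (S : Type) [Group S] : Prop := Group.IsSolvable S ∧ Countable S ∧ VA S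
def PC (S : Type) [Group S] : Prop := Finite S ∧ Group.IsSolvable S

lemma GC_wr (D Q : Type) [Group D] [Group Q] (hD : GC D) (hQ : PC Q) : GC (D ≀ᵣ Q) := by
  obtain ⟨h1, h2, h3⟩ := hD
  obtain ⟨h4, h5⟩ := hQ
  refine ⟨wr_solvable D Q h1 h5, inferInstance, VA_of (wbase D Q) (wbase_inj D Q) ?_ (VA_pi Q h3)⟩
  rw [wbase_range]; infer_instance

lemma GC_pi (D Q : Type) [Group D] [Finite Q] (hD : GC D) : GC (Q → D) := by
  obtain ⟨h1, h2, h3⟩ := hD
  refine ⟨?_, inferInstance, VA_pi Q h3⟩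
  obtain ⟨n, hn⟩ := h1.solvable
  refine ⟨n, ?_⟩
  rw [eq_bot_iff]
  intro x hx
  rw [Subgroup.mem_bot]
  funext q
  have := map_derivedSeries_le_derivedSeries (Pi.evalMonoidHom (fun _ : Q => D) q) n ⟨x, hx, rfl⟩
  rwa [hn, Subgroup.mem_bot] at this

lemma GC_prod (D P : Type) [Group D] [Group P] (hD : GC D) (hP : PC P) : GC (D × P) := by
  obtain ⟨h1, h2, h3⟩ := hD
  obtain ⟨h4, h5⟩ := hP
  refine ⟨inferInstance, inferInstance, VA_of (MonoidHom.inl D P) (Prod.mk_left_injective 1) ?_ h3⟩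
  have : (MonoidHom.inl D P).range = (MonoidHom.snd D P).ker := by
    ext ⟨x, y⟩; simp [eq_comm, Subgroup.mem_prod]
  rw [this]; infer_instance

lemma wr_fact {D Q : Type} [Group D] [Group Q] (R1 R2 : Subgroup D) (x : D ≀ᵣ Q)
    (h : ∀ q, ∃ a ∈ R1, ∃ b ∈ R2, x.left q = a * b) :
    ∃ a ∈ (wmap (Q := Q) R1.subtype).range, ∃ b ∈ (wmap (Q := Q) R2.subtype).range, x = a * b := by
  choose a ha b hb h using h
  refine ⟨_, ⟨⟨fun q => ⟨a q, ha q⟩, 1⟩, rfl⟩, _, ⟨⟨fun q => ⟨b q, hb q⟩, x.right⟩, rfl⟩, ?_⟩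
  ext q
  · simp [h]
  · simp

abbrev Dinf := DihedralGroup 0

lemma GC_Dinf : GC Dinf := by
  let f : Multiplicative ℤ →* Dinf := MonoidHom.mk' (fun k => DihedralGroup.r k.toAdd) fun a b => rfl
  let g : Dinf →* Multiplicative (ZMod 2) := MonoidHom.mk'
    (fun x => match x with
      | DihedralGroup.r _ => Multiplicative.ofAdd 0
      | DihedralGroup.sr _ => Multiplicative.ofAdd 1) (by
      rintro (a | a) (b | b)
      exacts [rfl, rfl, rfl, (by decide : Multiplicative.ofAdd (0 : ZMod 2) =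
        Multiplicative.ofAdd 1 * Multiplicative.ofAdd 1)])
  have hk : g.ker = f.range := by
    ext (a | a)
    · exact ⟨fun _ => ⟨Multiplicative.ofAdd a, rfl⟩, fun _ => rfl⟩
    · constructor
      · intro h; exact absurd (show Multiplicative.ofAdd (1 : ZMod 2) = 1 from h) (by decide)
      · rintro ⟨_, h⟩; cases h
  refine ⟨Group.isSolvable_of_ker_le_range f g hk.le, ?_, VA_of f ?_ (hk ▸ inferInstance) ?_⟩
  · have : Countable (ZMod 0) := inferInstanceAs (Countable ℤ)
    refine Function.Surjective.countable (f := fun x : ZMod 0 ⊕ ZMod 0 =>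
      (Sum.elim DihedralGroup.r DihedralGroup.sr x : Dinf)) ?_
    rintro (a | a)
    · exact ⟨Sum.inl a, rfl⟩
    · exact ⟨Sum.inr a, rfl⟩
  · intro a b h
    exact DihedralGroup.r.inj h
  · exact ⟨⊤, Unit, inferInstance, MonoidHom.mk' (fun x _ => x.1) fun _ _ => rfl, inferInstance,
      fun a b h => Subtype.ext (congrFun h ())⟩

lemma line (n : ℕ) : ∃ (W : Type) (_ : Group W) (P1 P2 : Subgroup W) (od : Multiplicative ℤ →* W),
    GC W ∧ Finite P1 ∧ Finite P2 ∧ Injective od ∧
    ∀ t : ℤ, |t| ≤ n → ∃ a ∈ P1, ∃ b ∈ P2, od (Multiplicative.ofAdd t) = a * b := by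
  classical
  set m := 2 * n + 1 with hm
  let C := Multiplicative (ZMod m)
  let s : Dinf ≀ᵣ C := ⟨Pi.mulSingle 1 (DihedralGroup.r 1), Multiplicative.ofAdd 1⟩
  have hs : ∀ t ≤ m, (s ^ t).right = Multiplicative.ofAdd (t : ZMod m) ∧
      ∀ x : C, (s ^ t).left x = if x.toAdd.val < t then DihedralGroup.r 1 else 1 := by
    intro t
    induction t with
    | zero => intro _; simp
    | succ t ih =>
      intro ht
      obtain ⟨h1, h2⟩ := ih (by omega)
      refine ⟨by rw [pow_succ, mul_right, h1]; simp [s, ofAdd_add], fun x => ?_⟩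
      rw [pow_succ, mul_left, Pi.mul_apply, h1, h2]
      have hv : (t : ZMod m).val = t := ZMod.val_cast_of_lt (by omega)
      by_cases hx : x = Multiplicative.ofAdd (t : ZMod m)
      · subst hx
        simp [s, hv]
      · have h3 : (Multiplicative.ofAdd (t : ZMod m))⁻¹ * x ≠ 1 := by
          rw [Ne, inv_mul_eq_one]; exact Ne.symm hx
        have h4 : x.toAdd.val ≠ t := by
          intro h; apply hx
          rw [← h, ZMod.natCast_zmod_val]; rfl
        simp only [s, Pi.mulSingle_eq_of_ne h3, mul_one]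
        congr 1
        apply propext; omega
  let R1 : Subgroup Dinf := Subgroup.zpowers (DihedralGroup.sr 0)
  let R2 : Subgroup Dinf := Subgroup.zpowers (DihedralGroup.sr 1)
  have f1 : Finite R1 := by
    apply Set.Finite.to_subtype
    exact finite_zpowers.2 (by rw [← orderOf_pos_iff, DihedralGroup.orderOf_sr]; norm_num)
  have f2 : Finite R2 := by
    apply Set.Finite.to_subtype
    exact finite_zpowers.2 (by rw [← orderOf_pos_iff, DihedralGroup.orderOf_sr]; norm_num)
  have hfac : ∀ t ≤ m, ∃ a ∈ (wmap (Q := C) R1.subtype).range, ∃ b ∈ (wmap (Q := C) R2.subtype).range,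
      s ^ t = a * b := by
    intro t ht
    apply wr_fact
    intro q
    rw [(hs t ht).2]
    split_ifs
    · exact ⟨_, Subgroup.mem_zpowers _, _, Subgroup.mem_zpowers _, by simp⟩
    · exact ⟨1, R1.one_mem, 1, R2.one_mem, by simp⟩
  refine ⟨Dinf ≀ᵣ C, inferInstance,
    (wmap (Q := C) R1.subtype).range.map (MulAut.conj (s ^ n)⁻¹).toMonoidHom,
    (wmap (Q := C) R2.subtype).range, zpowersHom _ s,
    GC_wr _ _ GC_Dinf ⟨inferInstance, inferInstance⟩, ?_, (Set.finite_range _).to_subtype, ?_, ?_⟩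
  · exact ((Set.finite_range _).image _).to_subtype
  · have h1 : ¬ IsOfFinOrder s := by
      intro h
      have h2 : s ^ m = wbase Dinf C (fun _ => DihedralGroup.r 1) := by
        ext x
        · rw [(hs m le_rfl).2, if_pos (ZMod.val_lt _)]; rfl
        · rw [(hs m le_rfl).1]; simp
      have h3 := h.pow (n := m)
      rw [h2, (wbase_inj Dinf C).isOfFinOrder_iff] at h3
      have h4 := (Pi.evalMonoidHom (fun _ : C => Dinf) 1).isOfFinOrder h3
      rw [← orderOf_pos_iff] at h4
      exact absurd (DihedralGroup.orderOf_r_one (n := 0)) h4.ne'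
    intro a b h
    exact (injective_zpow_iff_not_isOfFinOrder.2 h1) h
  · intro t ht
    obtain ⟨a, ha, b, hb, h1⟩ := hfac (n + t).toNat (by have := abs_le.1 ht; omega)
    obtain ⟨c, hc, d, hd, h2⟩ := hfac n (by omega)
    refine ⟨_, ⟨a * c⁻¹, Subgroup.mul_mem _ ha (Subgroup.inv_mem _ hc), rfl⟩, d⁻¹ * b,
      Subgroup.mul_mem _ (Subgroup.inv_mem _ hd) hb, ?_⟩
    have h3 : s ^ t = (s ^ n)⁻¹ * s ^ (n + t).toNat := by
      rw [← zpow_natCast, ← zpow_natCast, Int.toNat_of_nonneg (by have := abs_le.1 ht; omega),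
        ← zpow_neg, ← zpow_add]
      congr 1; ring
    show s ^ t = (s ^ n)⁻¹ * (a * c⁻¹) * (s ^ n)⁻¹⁻¹ * (d⁻¹ * b)
    rw [h3, h1, inv_inv]
    nth_rewrite 3 [h2]
    group

lemma base (S : Type) [Group S] (hS : GC S) (Y : Set S) (hY : Y.Finite) :
    ∃ (T : Type) (_ : Group T) (P1 P2 : Subgroup T) (ι : S →* T), GC T ∧ PC P1 ∧ PC P2 ∧ Injective ι ∧
      ∀ y ∈ Y, ∃ a ∈ P1, ∃ b ∈ P2, ι y = a * b := by
  obtain ⟨h1, h2, N, I, _, l, h3, h4⟩ := hS
  let π := QuotientGroup.mk' N.normalCore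
  have hker : π.ker ≤ N := by rw [QuotientGroup.ker_mk']; exact N.normalCore_le
  let l' : π.ker →* (I → Multiplicative ℤ) := l.comp (Subgroup.inclusion hker)
  have hl' : Injective l' := h4.comp (Subgroup.inclusion_injective hker)
  have hσ : ∀ q : S ⧸ N.normalCore, π q.out = q := fun q => QuotientGroup.out_eq' q
  let k0 := kk π Quotient.out l' hσ
  have hfin : (Set.image2 (fun y (z : (S ⧸ N.normalCore) × I) => |((k0 y).left z.1 z.2).toAdd|)
      Y Set.univ).Finite := hY.image2 _ Set.finite_univ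
  obtain ⟨M, hM⟩ := hfin.bddAbove
  obtain ⟨W, _, P1, P2, od, g1, g2, g3, g4, g5⟩ := line M.toNat
  let odp : (I → Multiplicative ℤ) →* (I → W) := od.compLeft I
  let R1 : Subgroup (I → W) := Subgroup.pi Set.univ fun _ => P1
  let R2 : Subgroup (I → W) := Subgroup.pi Set.univ fun _ => P2
  have f1 : Finite R1 := (Set.Finite.pi fun _ => Set.toFinite (P1 : Set W)).to_subtype
  have f2 : Finite R2 := (Set.Finite.pi fun _ => Set.toFinite (P2 : Set W)).to_subtype
  have hT : GC ((I → W) ≀ᵣ (S ⧸ N.normalCore)) := GC_wr _ _ (GC_pi W I g1) ⟨inferInstance, inferInstance⟩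
  have := hT.1
  refine ⟨_, inferInstance, (wmap R1.subtype).range, (wmap R2.subtype).range, (wmap odp).comp k0, hT,
    ⟨(Set.finite_range _).to_subtype, inferInstance⟩, ⟨(Set.finite_range _).to_subtype, inferInstance⟩,
    (wmap_inj _ ?_).comp (kk_inj _ _ _ _ hl'), fun y hy => ?_⟩
  · intro a b h
    funext i
    exact g4 (congrFun h i)
  · apply wr_fact
    intro q
    have : ∀ i, ∃ a ∈ P1, ∃ b ∈ P2, od ((k0 y).left q i) = a * b := fun i =>
      g5 _ ((hM ⟨y, hy, (q, i), trivial, rfl⟩).trans (Int.self_le_toNat M))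
    choose a ha b hb h using this
    exact ⟨a, fun i _ => ha i, b, fun i _ => hb i, funext h⟩


/-- The negation of the preceding statement: Suppose every finitely generated subgroup of a group G is soluble, and every element of G is a product ab with a, b taken from two periodic subgroups A and B. Then every element of G has finite order. -/
theorem result :
    ¬ (∀ (G : Type) [Group G],
      (∀ S : Finset G, IsSolvable (Subgroup.closure (S : Set G))) →
      ∀ A B : Subgroup G,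
        (∀ a ∈ A, IsOfFinOrder a) →
        (∀ b ∈ B, IsOfFinOrder b) →
        (∀ g : G, ∃ a ∈ A, ∃ b ∈ B, g = a * b) →
        Monoid.IsTorsion G) := by
  intro H
  have hyp := hyp_of_base GC PC (fun G _ h => h.2.1) (fun G _ h => h.1)
    (fun P1 P2 Q _ _ _ ⟨_, _⟩ ⟨_, _⟩ ⟨_, h⟩ => ⟨inferInstance, wr_solvable _ _ inferInstance h⟩)
    (fun T P1 P2 Q _ _ _ _ h ⟨_, _⟩ ⟨_, _⟩ h' =>
      GC_wr _ _ (GC_prod _ _ h ⟨inferInstance, inferInstance⟩) h') base
  obtain ⟨G, _, A, B, h1, ⟨j, hj⟩, h2⟩ := limit hyp (st0 (Multiplicative ℤ))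
    ⟨⟨(inferInstance : Group.IsSolvable (Multiplicative ℤ)), (inferInstance : Countable ℤ),
      ⊤, Unit, inferInstance, MonoidHom.mk' (fun x _ => x.1) fun _ _ => rfl, inferInstance,
      fun a b h => Subtype.ext (congrFun h ())⟩,
      (inferInstance : Finite Unit), (inferInstance : Group.IsSolvable Unit)⟩
  have := H G (by
      intro S
      obtain ⟨t, ht, k, -, h3, -⟩ := h2 S S.finite_toSet
      have := ht.1.1
      have : Group.IsSolvable k.range := Group.isSolvable_of_surjective k.rangeRestrict_surjective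
      exact Group.isSolvable_of_isSolvable_injective
        (Subgroup.inclusion_injective ((Subgroup.closure_le k.range).2 h3))) A B
    (by
      intro a ha
      obtain ⟨t, ht, k, -, -, h3, -⟩ := h2 {a} (Set.finite_singleton a)
      obtain ⟨q, rfl⟩ := h3 a rfl ha
      have := ht.2.1
      exact MonoidHom.isOfFinOrder _ (isOfFinOrder_of_finite q))
    (by
      intro a ha
      obtain ⟨t, ht, k, -, -, -, h3⟩ := h2 {a} (Set.finite_singleton a)
      obtain ⟨q, rfl⟩ := h3 a rfl ha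
      have := ht.2.1
      exact MonoidHom.isOfFinOrder _ (isOfFinOrder_of_finite q)) h1 (j (Multiplicative.ofAdd (1 : ℤ)))
  rw [hj.isOfFinOrder_iff] at this
  exact absurd (isOfFinOrder_ofAdd_iff.1 (show IsOfFinOrder (Multiplicative.ofAdd (1 : ℤ)) from this))
    (not_isOfFinAddOrder_of_isAddTorsionFree one_ne_zero)

end Pool.Agent.S03452
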