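import Pool.Statements.S03463

set_option autoImplicit false
open Pool Pool.MP_ec79b7_al

namespace Pool.Agent.S03463

section Seq
variable {X : Type}

theorem step_inc (r : X → X → Prop) (tr : ∀ a b c, r a b → r b c → r a c)
    (tot : ∀ a b, r a b ∨ r b a) (s : ℕ → X) (β : X) (N : ℕ)
    (h : ∀ i ≥ N, ¬ r (s (i + 1)) (s i)) :
    (∃ N, ∀ i ≥ N, ¬ r (s i) β) ∨ (∃ N, ∀ i ≥ N, ¬ r β (s i)) := by
  by_cases h1 : ∃ j ≥ N, ¬ r (s j) β
  · obtain ⟨j, hj, h1⟩ := h1
    left
    refine ⟨j, fun i hi => ?_⟩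
    induction i, hi using Nat.le_induction with
    | base => exact h1
    | succ i hi ih =>
      intro h2
      exact ih (tr _ _ _ ((tot _ _).resolve_left (h i (le_trans hj hi))) h2)
  · right
    push Not at h1
    exact ⟨N, fun i hi h2 => h i hi (tr _ _ _ (h1 (i + 1) (by omega)) h2)⟩

def Tri (r : X → X → Prop) (s : ℕ → X) (t : ℕ → X) : Prop :=
  (∀ i, r (s i) (t i) ∧ r (t i) (s i)) ∨ (∃ N, ∀ i ≥ N, ¬ r (s i) (t i)) ∨
    (∃ N, ∀ i ≥ N, ¬ r (t i) (s i))

theorem step (r : X → X → Prop) (tr : ∀ a b c, r a b → r b c → r a c)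
    (tot : ∀ a b, r a b ∨ r b a) (s : ℕ → X) (β : X)
    (h : Tri r (fun i => s (i + 1)) s) : Tri r s (fun _ => β) := by
  rcases h with h | ⟨N, h⟩ | ⟨N, h⟩
  · have h0 : ∀ i, r (s i) (s 0) ∧ r (s 0) (s i) := by
      intro i
      induction i with
      | zero => exact ⟨(tot _ _).elim id id, (tot _ _).elim id id⟩
      | succ i ih => exact ⟨tr _ _ _ (h i).1 ih.1, tr _ _ _ ih.2 (h i).2⟩
    by_cases h1 : r (s 0) β
    · by_cases h2 : r β (s 0)
      · exact Or.inl fun i => ⟨tr _ _ _ (h0 i).1 h1, tr _ _ _ h2 (h0 i).2⟩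
      · exact Or.inr (Or.inr ⟨0, fun i _ h3 => h2 (tr _ _ _ h3 (h0 i).1)⟩)
    · exact Or.inr (Or.inl ⟨0, fun i _ h3 => h1 (tr _ _ _ (h0 i).2 h3)⟩)
  · exact Or.inr (step_inc r tr tot s β N h)
  · exact Or.inr (step_inc (fun a b => r b a) (fun a b c h1 h2 => tr _ _ _ h2 h1)
      (fun a b => tot b a) s β N h).symm

end Seq

section LG
variable {G : Type} [Group G]

theorem engel_tri (r : G → G → Prop) (tr : ∀ a b c, r a b → r b c → r a c)
    (tot : ∀ a b, r a b ∨ r b a) (inv : ∀ c a b, r a b → r (c * a) (c * b)) (y β : G) (n : ℕ) :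
    ∀ c : G, (fun z : G => z⁻¹ * y⁻¹ * z * y)^[n] c = 1 →
      Tri r (fun i => (y ^ i)⁻¹ * c * y ^ i * β) (fun _ => β) := by
  induction n with
  | zero =>
    intro c hc
    have : c = 1 := hc
    subst this
    left
    intro i
    simp only [mul_one, inv_mul_cancel, one_mul, and_self]
    exact (tot _ _).elim id id
  | succ n ih =>
    intro c hc
    rw [Function.iterate_succ_apply] at hc
    have h := ih _ hc
    apply step r tr tot
    have inv' : ∀ c a b, r (c * a) (c * b) ↔ r a b := fun c a b =>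
      ⟨fun h => by simpa using inv c⁻¹ _ _ h, inv c a b⟩
    have e1 : ∀ i : ℕ, (y ^ (i + 1))⁻¹ * c * y ^ (i + 1) * β =
        ((y ^ i)⁻¹ * c * y ^ i) * ((y ^ i)⁻¹ * (c⁻¹ * y⁻¹ * c * y) * y ^ i * β) := by
      intro i
      rw [pow_succ']
      group
    unfold Tri at h ⊢
    simp only [e1, inv']
    exact h

variable [Lattice G] [MulLeftMono G] [MulRightMono G]

structure PI (I : Set G) : Prop where
  low : ∀ a b, a ≤ b → b ∈ I → a ∈ I
  sup : ∀ a b, a ∈ I → b ∈ I → a ⊔ b ∈ I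
  prime : ∀ a b, a ⊓ b ∈ I → a ∈ I ∨ b ∈ I

theorem distrib (x y z : G) : x ⊓ (y ⊔ z) ≤ x ⊓ y ⊔ x ⊓ z := by
  have key : ∀ w, w ≤ y ⊔ z → (x ⊓ (y ⊔ z)) * ((y ⊔ z)⁻¹ * w) ≤ x ⊓ w := by
    intro w hw
    apply le_inf
    · have h1 : (y ⊔ z)⁻¹ * w ≤ 1 := by rw [inv_mul_le_iff_le_mul, mul_one]; exact hw
      exact (mul_le_of_le_one_right' h1).trans inf_le_left
    · calc (x ⊓ (y ⊔ z)) * ((y ⊔ z)⁻¹ * w) ≤ (y ⊔ z) * ((y ⊔ z)⁻¹ * w) :=
          mul_le_mul_left inf_le_right _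
        _ = w := by group
  calc x ⊓ (y ⊔ z) = (x ⊓ (y ⊔ z)) * ((y ⊔ z)⁻¹ * (y ⊔ z)) := by group
    _ = (x ⊓ (y ⊔ z)) * ((y ⊔ z)⁻¹ * y) ⊔ (x ⊓ (y ⊔ z)) * ((y ⊔ z)⁻¹ * z) := by
      rw [mul_sup, mul_sup]
    _ ≤ _ := sup_le_sup (key y le_sup_left) (key z le_sup_right)

theorem exists_PI (a b : G) (h : ¬ b ≤ a) : ∃ I : Set G, PI I ∧ a ∈ I ∧ b ∉ I := by
  letI : DistribLattice G := DistribLattice.ofInfSupLe distrib
  obtain ⟨J, hJ, h1, h2⟩ := DistribLattice.prime_ideal_of_disjoint_filter_ideal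
    (F := Order.PFilter.principal b) (I := Order.Ideal.principal a) (by
      rw [Set.disjoint_left]
      intro x hx hx'
      exact h (le_trans (Order.PFilter.mem_principal.1 hx) (Order.Ideal.mem_principal.1 hx')))
  refine ⟨J, ⟨fun a b hab hb => J.lower hab hb, fun a b ha hb => Order.Ideal.sup_mem ha hb,
    fun a b hab => hJ.mem_or_mem hab⟩, h1 Order.Ideal.mem_principal_self, ?_⟩
  exact Set.disjoint_left.1 h2 (Order.PFilter.mem_principal.2 le_rfl)

def R (I : Set G) (a b : G) : Prop := ∀ t, t * b ∈ I → t * a ∈ I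

omit [Lattice G] [MulLeftMono G] [MulRightMono G] in
theorem R_tr (I : Set G) (a b c : G) (h1 : R I a b) (h2 : R I b c) : R I a c :=
  fun t h => h1 t (h2 t h)

omit [Lattice G] [MulLeftMono G] [MulRightMono G] in
theorem R_inv (I : Set G) (c a b : G) (h : R I a b) : R I (c * a) (c * b) := by
  intro t ht
  rw [← mul_assoc] at ht ⊢
  exact h _ ht

variable {I : Set G}

omit [MulRightMono G] in
theorem R_of_le (hI : PI I) {a b : G} (h : a ≤ b) : R I a b :=
  fun t ht => hI.low _ _ (mul_le_mul_right h t) ht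

theorem R_tot (hI : PI I) (a b : G) : R I a b ∨ R I b a := by
  by_contra h
  push Not at h
  obtain ⟨h1, h2⟩ := h
  simp only [R, not_forall] at h1 h2
  obtain ⟨t, ht, ht'⟩ := h1
  obtain ⟨s, hs, hs'⟩ := h2
  have : t * a ⊓ s * b ≤ s * a ⊔ t * b :=
    calc t * a ⊓ s * b ≤ t * (a ⊔ b) ⊓ s * (a ⊔ b) :=
          inf_le_inf (mul_le_mul_right le_sup_left _) (mul_le_mul_right le_sup_right _)
      _ = (t ⊓ s) * a ⊔ (t ⊓ s) * b := by rw [← inf_mul, mul_sup]
      _ ≤ _ := sup_le_sup (mul_le_mul_left inf_le_right _) (mul_le_mul_left inf_le_left _)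
  rcases hI.prime _ _ (hI.low _ _ this (hI.sup _ _ hs ht)) with h | h
  · exact ht' h
  · exact hs' h

omit [MulRightMono G] in
theorem R_inf (hI : PI I) {a b c : G} (h : R I (a ⊓ b) c) (tot : R I a b ∨ R I b a) :
    R I a c ∨ R I b c := by
  rcases tot with h1 | h1
  · left
    intro t ht
    have := h t ht
    rw [mul_inf] at this
    rcases hI.prime _ _ this with h2 | h2
    · exact h2
    · exact h1 t h2
  · right
    intro t ht
    have := h t ht
    rw [mul_inf] at this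
    rcases hI.prime _ _ this with h2 | h2
    · exact h1 t h2
    · exact h2

theorem disj_triv (hI : PI I) (c y β : G) (n : ℕ)
    (hn : (fun z : G => z⁻¹ * y⁻¹ * z * y)^[n] c = 1) (hc : 1 ≤ c)
    (hd : c ⊓ (y⁻¹ * c * y) ≤ 1) : R I (c * β) β := by
  rcases engel_tri (R I) (R_tr I) (R_tot hI) (R_inv I) y β n c hn with h | ⟨N, h⟩ | ⟨N, h⟩
  · simpa using (h 0).1
  · exfalso
    have h1 := h N le_rfl
    have h2 := h (N + 1) (by omega)
    have h3 : (y ^ N)⁻¹ * c * y ^ N * β ⊓ (y ^ (N + 1))⁻¹ * c * y ^ (N + 1) * β ≤ β := by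
      have : (y ^ N)⁻¹ * c * y ^ N * β ⊓ (y ^ (N + 1))⁻¹ * c * y ^ (N + 1) * β =
          (y ^ N)⁻¹ * (c ⊓ (y⁻¹ * c * y)) * (y ^ N * β) := by
        rw [mul_inf, inf_mul, pow_succ']
        congr 1 <;> group
      rw [this]
      calc (y ^ N)⁻¹ * (c ⊓ (y⁻¹ * c * y)) * (y ^ N * β) ≤ (y ^ N)⁻¹ * 1 * (y ^ N * β) :=
            mul_le_mul_left (mul_le_mul_right hd _) _
        _ = β := by group
    rcases R_inf hI (R_of_le hI h3) (R_tot hI _ _) with h4 | h4
    · exact h1 h4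
    · exact h2 h4
  · exfalso
    apply h N le_rfl
    apply R_of_le hI
    calc β = (y ^ N)⁻¹ * 1 * y ^ N * β := by group
      _ ≤ _ := mul_le_mul_left (mul_le_mul_left (mul_le_mul_right hc _) _) _

def T (I : Set G) (a b : G) : Prop := ∀ s, R I (a * s) (b * s)

theorem T_tot (hI : PI I)
    (hE : ∀ x y : G, ∃ n : ℕ, (fun z : G => z⁻¹ * y⁻¹ * z * y)^[n] x = 1) (a b : G) :
    T I a b ∨ T I b a := by
  by_contra h
  push Not at h
  obtain ⟨h1, h2⟩ := h
  simp only [T, not_forall] at h1 h2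
  obtain ⟨s, hs⟩ := h1
  obtain ⟨t, ht⟩ := h2
  set d := b⁻¹ * a with hd
  have hs1 : ¬ R I (d⁺ᵐ * s) s := by
    intro h
    apply hs
    have h3 : R I (d * s) s := R_tr I _ _ _ (R_of_le hI (mul_le_mul_left (le_oneLePart d) s)) h
    have := R_inv I b _ _ h3
    rwa [hd, ← mul_assoc, mul_inv_cancel_left] at this
  have ht1 : ¬ R I (d⁻ᵐ * t) t := by
    intro h
    apply ht
    have h3 : R I (d⁻¹ * t) t := R_tr I _ _ _ (R_of_le hI (mul_le_mul_left (inv_le_leOnePart d) t)) h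
    have := R_inv I a _ _ h3
    rwa [hd, mul_inv_rev, inv_inv, ← mul_assoc, mul_inv_cancel_left] at this
  set y := t * s⁻¹ with hy
  set c := (y * d⁺ᵐ * y⁻¹) ⊓ d⁻ᵐ with hc
  have hc1 : 1 ≤ c := by
    refine le_inf ?_ (one_le_leOnePart d)
    calc (1 : G) = y * 1 * y⁻¹ := by group
      _ ≤ _ := mul_le_mul_left (mul_le_mul_right (one_le_oneLePart d) _) _
  have hc2 : c ⊓ (y⁻¹ * c * y) ≤ 1 := by
    rw [← oneLePart_inf_leOnePart_eq_one d, inf_comm]
    refine inf_le_inf ?_ inf_le_right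
    calc y⁻¹ * c * y ≤ y⁻¹ * (y * d⁺ᵐ * y⁻¹) * y :=
          mul_le_mul_left (mul_le_mul_right inf_le_left _) _
      _ = d⁺ᵐ := by group
  obtain ⟨n, hn⟩ := hE c y
  have h3 := disj_triv hI c y t n hn hc1 hc2
  rw [hc, inf_mul] at h3
  rcases R_inf hI h3 (R_tot hI _ _) with h4 | h4
  · apply hs1
    have := R_inv I y⁻¹ _ _ h4
    have e1 : y⁻¹ * (y * d⁺ᵐ * y⁻¹ * t) = d⁺ᵐ * s := by rw [hy]; group
    have e2 : y⁻¹ * t = s := by rw [hy]; group
    rwa [e1, e2] at this
  · exact ht1 h4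

omit [Lattice G] [MulLeftMono G] [MulRightMono G] in
theorem T_mul (I : Set G) (a b c d : G) (h1 : T I a b) (h2 : T I c d) : T I (a * c) (b * d) := by
  intro s
  rw [mul_assoc, mul_assoc]
  exact R_tr I _ _ _ (h1 _) (R_inv I b _ _ (h2 s))

omit [Lattice G] [MulLeftMono G] [MulRightMono G] in
theorem T_refl (I : Set G) (a : G) : T I a a := fun _ _ h => h

omit [Lattice G] [MulLeftMono G] [MulRightMono G] in
theorem T_tr (I : Set G) (a b c : G) (h1 : T I a b) (h2 : T I b c) : T I a c :=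
  fun s => R_tr I _ _ _ (h1 s) (h2 s)

def con (I : Set G) : Con G where
  r a b := T I a b ∧ T I b a
  iseqv := ⟨fun a => ⟨T_refl I a, T_refl I a⟩, fun h => h.symm,
    fun h1 h2 => ⟨T_tr I _ _ _ h1.1 h2.1, T_tr I _ _ _ h2.2 h1.2⟩⟩
  mul' h1 h2 := ⟨T_mul I _ _ _ _ h1.1 h2.1, T_mul I _ _ _ _ h1.2 h2.2⟩

def qle (I : Set G) (x y : (con I).Quotient) : Prop :=
  Quotient.liftOn₂' x y (T I) fun _ _ _ _ h1 h2 => propext
    ⟨fun h => T_tr I _ _ _ h1.2 (T_tr I _ _ _ h h2.1),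
      fun h => T_tr I _ _ _ h1.1 (T_tr I _ _ _ h h2.2)⟩

@[reducible] noncomputable def qord (I : Set G) (tot : ∀ a b, T I a b ∨ T I b a) :
    LinearOrder (con I).Quotient :=
  { le := qle I
    le_refl := fun x => Con.induction_on x fun a => T_refl I a
    le_trans := fun x y z => Con.induction_on x fun a => Con.induction_on₂ y z fun b c =>
      T_tr I a b c
    le_antisymm := fun x y => Con.induction_on₂ x y fun _ _ h1 h2 => (Con.eq _).2 ⟨h1, h2⟩
    le_total := fun x y => Con.induction_on₂ x y tot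
    toDecidableLE := Classical.decRel _ }

end LG
/-- Every lattice-ordered group with the Engel property (for all x, y some iterated commutator [x,_n y] is 1) is residually totally ordered: each non-identity element survives some lattice-and-group homomorphism into a totally ordered group. -/
theorem result :
    ∀ (G : Type) [Group G] [Lattice G] [MulLeftMono G] [MulRightMono G],
      (∀ x y : G, ∃ n : ℕ, (fun z : G => z⁻¹ * y⁻¹ * z * y)^[n] x = 1) →
      ∀ g : G, g ≠ 1 →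
        ∃ (H : Type) (_ : Group H) (_ : LinearOrder H) (_ : MulLeftMono H)
          (_ : MulRightMono H) (f : G →* H),
          (∀ a b : G, f (a ⊔ b) = f a ⊔ f b) ∧
          (∀ a b : G, f (a ⊓ b) = f a ⊓ f b) ∧
          f g ≠ 1 := by
  intro G _ _ _ _ hE g hg
  have hI : ∃ I : Set G, PI I ∧ ¬ ((1 : G) ∈ I ↔ g ∈ I) := by
    by_cases h : g ≤ 1
    · obtain ⟨I, hI, h1, h2⟩ := exists_PI g 1 fun h' => hg (le_antisymm h h')
      exact ⟨I, hI, fun h => h2 (h.2 h1)⟩
    · obtain ⟨I, hI, h1, h2⟩ := exists_PI 1 g h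
      exact ⟨I, hI, fun h => h2 (h.1 h1)⟩
  obtain ⟨I, hI, hg⟩ := hI
  letI := qord I (T_tot hI hE)
  have hle : ∀ a b : G, (con I).mk' a ≤ (con I).mk' b ↔ T I a b := fun _ _ => Iff.rfl
  have hT : ∀ a b : G, a ≤ b → T I a b := fun a b h s => R_of_le hI (mul_le_mul_left h s)
  refine ⟨(con I).Quotient, inferInstance, this, ⟨?_⟩, ⟨?_⟩, (con I).mk', ?_, ?_, ?_⟩
  · intro x y z
    exact Con.induction_on x fun a => Con.induction_on₂ y z fun b c h =>
      T_mul I _ _ _ _ (T_refl I a) h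
  · intro x y z
    exact Con.induction_on x fun a => Con.induction_on₂ y z fun b c h =>
      T_mul I _ _ _ _ h (T_refl I a)
  · intro a b
    apply le_antisymm
    · rw [le_max_iff, hle, hle]
      rcases T_tot hI hE a b with h | h
      · right
        intro s t ht
        rw [sup_mul, mul_sup]
        exact hI.sup _ _ (h s t ht) ht
      · left
        intro s t ht
        rw [sup_mul, mul_sup]
        exact hI.sup _ _ ht (h s t ht)
    · exact max_le ((hle _ _).2 (hT _ _ le_sup_left)) ((hle _ _).2 (hT _ _ le_sup_right))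
  · intro a b
    apply le_antisymm
    · exact le_min ((hle _ _).2 (hT _ _ inf_le_left)) ((hle _ _).2 (hT _ _ inf_le_right))
    · rw [min_le_iff, hle, hle]
      rcases T_tot hI hE a b with h | h
      · left
        intro s t ht
        rw [inf_mul, mul_inf] at ht
        exact (hI.prime _ _ ht).elim id (h s t)
      · right
        intro s t ht
        rw [inf_mul, mul_inf] at ht
        exact (hI.prime _ _ ht).elim (h s t) id
  · intro h
    have h1 : (con I) g 1 := (Con.eq _).1 h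
    apply hg
    constructor
    · intro h2
      simpa using h1.1 1 1 (by simpa using h2)
    · intro h2
      simpa using h1.2 1 1 (by simpa using h2)

end Pool.Agent.S03463
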