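import Pool.Statements.S03501
import Pool.Agent.Lib.helper27.SwB

set_option autoImplicit false
open Pool Pool.MP_f0391a_al

namespace Pool.Agent.S03501

/-- The orbit algebra over ℚ of the switching-automorphism group of the random graph is generated by an algebraically independent family of homogeneous elements, i.e. it is a polynomial ring. -/
theorem result :
  ∀ K : Ideal (MvPowerSeries ℕ ℚ),
    K = Ideal.span {f : MvPowerSeries ℕ ℚ |
      ∀ s : ℕ →₀ ℕ, (∀ i, s i ≤ 1) → MvPowerSeries.coeff s f = 0} →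
  ∀ T : Set (MvPowerSeries ℕ ℚ),
    T = {f : MvPowerSeries ℕ ℚ |
      (∀ σ : Equiv.Perm ℕ,
        (∃ S : Set ℕ, ∀ i j : ℕ, i ≠ j →
          ((Nat.testBit (σ j) (σ i) = true ∨ Nat.testBit (σ i) (σ j) = true) ↔
            ((Nat.testBit j i = true ∨ Nat.testBit i j = true) ↔ (i ∈ S ↔ j ∈ S)))) →
        ∀ s : ℕ →₀ ℕ,
          MvPowerSeries.coeff (Finsupp.equivMapDomain σ s) f = MvPowerSeries.coeff s f) ∧
      ∃ N : ℕ, ∀ s : ℕ →₀ ℕ, N ≤ s.sum (fun _ e => e) → MvPowerSeries.coeff s f = 0} →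
  ∃ (ι : Type) (x : ι → MvPowerSeries ℕ ℚ ⧸ K),
    (∀ i, ∃ d : ℕ, ∃ f ∈ T, Ideal.Quotient.mk K f = x i ∧
        ∀ s : ℕ →₀ ℕ, MvPowerSeries.coeff s f ≠ 0 → s.sum (fun _ e => e) = d) ∧
    AlgebraicIndependent ℚ x ∧
    Algebra.adjoin ℚ (Set.range x) = Algebra.adjoin ℚ (Ideal.Quotient.mk K '' T) := by
  intro K hK T hT
  have hK0 : K = Pool.Agent.Lib.helper27.SwB.K0 := by
    rw [hK]; exact Ideal.span_eq Pool.Agent.Lib.helper27.SwB.K0
  subst hK0
  have hmem : ∀ i, Pool.Agent.Lib.helper27.SwA.Phi (Pool.Agent.Lib.helper27.SwB.rep i) ∈ T := by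
    intro i
    rw [hT]
    refine ⟨Pool.Agent.Lib.helper27.SwB.inv_rep i, Pool.Agent.Lib.helper27.SwB.sz i + 1,
      fun s hs => ?_⟩
    by_contra h
    have := Pool.Agent.Lib.helper27.SwA.Phi_deg _ s h
    rw [Fintype.card_fin] at this
    omega
  refine ⟨Pool.Agent.Lib.helper27.SwB.Cl, Pool.Agent.Lib.helper27.SwB.gen, fun i => ?_,
    Pool.Agent.Lib.helper27.SwB.gen_indep, le_antisymm ?_ ?_⟩
  · exact ⟨_, _, hmem i, rfl, fun s hs => Pool.Agent.Lib.helper27.SwA.Phi_deg _ s hs⟩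
  · apply Algebra.adjoin_mono
    rintro _ ⟨i, rfl⟩
    exact ⟨_, hmem i, rfl⟩
  · rw [Algebra.adjoin_le_iff]
    rintro _ ⟨f, hf, rfl⟩
    rw [hT] at hf
    obtain ⟨h1, N, h2⟩ := hf
    exact Pool.Agent.Lib.helper27.SwB.mk_mem h1 N h2

end Pool.Agent.S03501
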