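import Pool.Statements.S03516

set_option autoImplicit false
open Pool Pool.MP_f1c158_al

namespace Pool.Agent.S03516

open scoped TensorProduct

section hopf

variable (k : Type) [Field k] (I ι : Type) [Fintype ι] [DecidableEq ι] (s : I → I)

inductive HRel : FreeAlgebra k (I × ι × ι) → FreeAlgebra k (I × ι × ι) → Prop
  | r1 (r : I) (i j : ι) : HRel (∑ l, FreeAlgebra.ι k (r, i, l) * FreeAlgebra.ι k (s r, j, l))
      (if i = j then 1 else 0)
  | r2 (r : I) (i j : ι) : HRel (∑ l, FreeAlgebra.ι k (s r, l, i) * FreeAlgebra.ι k (r, l, j))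
      (if i = j then 1 else 0)

def HH : Type := RingQuot (HRel k I ι s)

noncomputable instance : Ring (HH k I ι s) := inferInstanceAs (Ring (RingQuot (HRel k I ι s)))
noncomputable instance : Algebra k (HH k I ι s) :=
  inferInstanceAs (Algebra k (RingQuot (HRel k I ι s)))

variable {k I ι}

noncomputable def mkH : FreeAlgebra k (I × ι × ι) →ₐ[k] HH k I ι s :=
  RingQuot.mkAlgHom k (HRel k I ι s)

noncomputable def yy (r : I) (i j : ι) : HH k I ι s := mkH s (FreeAlgebra.ι k (r, i, j))

theorem yy1 (r : I) (i j : ι) :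
    ∑ l, (yy s r i l : HH k I ι s) * yy s (s r) j l = if i = j then 1 else 0 := by
  have := RingQuot.mkAlgHom_rel k (HRel.r1 (k := k) (s := s) r i j)
  change mkH s _ = mkH s _ at this
  simpa [yy, apply_ite] using this

theorem yy2 (r : I) (i j : ι) :
    ∑ l, (yy s (s r) l i : HH k I ι s) * yy s r l j = if i = j then 1 else 0 := by
  have := RingQuot.mkAlgHom_rel k (HRel.r2 (k := k) (s := s) r i j)
  change mkH s _ = mkH s _ at this
  simpa [yy, apply_ite] using this

noncomputable def liftH {A : Type} [Ring A] [Algebra k A] (Y : I → ι → ι → A)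
    (h1 : ∀ r i j, ∑ l, Y r i l * Y (s r) j l = if i = j then 1 else 0)
    (h2 : ∀ r i j, ∑ l, Y (s r) l i * Y r l j = if i = j then 1 else 0) : HH k I ι s →ₐ[k] A :=
  RingQuot.liftAlgHom k ⟨FreeAlgebra.lift k (fun p => Y p.1 p.2.1 p.2.2), by
    intro x y h
    cases h with
    | r1 r i j => simpa [apply_ite] using h1 r i j
    | r2 r i j => simpa [apply_ite] using h2 r i j⟩

theorem liftH_yy {A : Type} [Ring A] [Algebra k A] (Y : I → ι → ι → A) (h1) (h2) (r : I)
    (i j : ι) : liftH (k := k) s Y h1 h2 (yy s r i j) = Y r i j := by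
  unfold liftH yy mkH
  exact (RingQuot.liftAlgHom_mkAlgHom_apply k _ _ _).trans (by simp)

theorem indH {P : HH k I ι s → Prop} (h0 : ∀ c : k, P (algebraMap k _ c))
    (h1 : ∀ r i j, P (yy s r i j)) (hm : ∀ a b, P a → P b → P (a * b))
    (ha : ∀ a b, P a → P b → P (a + b)) (h : HH k I ι s) : P h := by
  obtain ⟨x, rfl⟩ : ∃ x, mkH s x = h := RingQuot.mkAlgHom_surjective k _ h
  induction x using FreeAlgebra.induction with
  | grade0 c => rw [AlgHom.commutes]; exact h0 c
  | grade1 p => exact h1 p.1 p.2.1 p.2.2
  | mul a b iha ihb => rw [map_mul]; exact hm _ _ iha ihb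
  | add a b iha ihb => rw [map_add]; exact ha _ _ iha ihb

theorem extH {A : Type} [Semiring A] [Algebra k A] {f g : HH k I ι s →ₐ[k] A}
    (h : ∀ r i j, f (yy s r i j) = g (yy s r i j)) : f = g := by
  ext x
  induction x using indH with
  | h0 c => simp
  | h1 r i j => exact h r i j
  | hm a b iha ihb => rw [map_mul, map_mul, iha, ihb]
  | ha a b iha ihb => rw [map_add, map_add, iha, ihb]

noncomputable def comulH : HH k I ι s →ₐ[k] HH k I ι s ⊗[k] HH k I ι s :=
  liftH s (fun r i j => ∑ l, yy s r i l ⊗ₜ yy s r l j)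
    (by
      intro r i j
      simp only [Finset.sum_mul_sum, Algebra.TensorProduct.tmul_mul_tmul]
      calc _ = ∑ a, ∑ b, ∑ l, ((yy s r i a : HH k I ι s) * yy s (s r) j b) ⊗ₜ[k]
              ((yy s r a l : HH k I ι s) * yy s (s r) b l) := by
            rw [Finset.sum_comm]
            exact Finset.sum_congr rfl fun a _ => Finset.sum_comm
        _ = ∑ a, ((yy s r i a : HH k I ι s) * yy s (s r) j a) ⊗ₜ[k] (1 : HH k I ι s) := by
            refine Finset.sum_congr rfl fun a _ => ?_
            simp only [← TensorProduct.tmul_sum, yy1, TensorProduct.tmul_ite,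
              TensorProduct.tmul_zero, Finset.sum_ite_eq, Finset.mem_univ, if_true]
        _ = _ := by
            rw [← TensorProduct.sum_tmul, yy1]
            split_ifs
            · rfl
            · simp)
    (by
      intro r i j
      simp only [Finset.sum_mul_sum, Algebra.TensorProduct.tmul_mul_tmul]
      calc _ = ∑ a, ∑ b, ∑ l, ((yy s (s r) l a : HH k I ι s) * yy s r l b) ⊗ₜ[k]
              ((yy s (s r) a i : HH k I ι s) * yy s r b j) := by
            rw [Finset.sum_comm]
            exact Finset.sum_congr rfl fun a _ => Finset.sum_comm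
        _ = ∑ a, (1 : HH k I ι s) ⊗ₜ[k] ((yy s (s r) a i : HH k I ι s) * yy s r a j) := by
            refine Finset.sum_congr rfl fun a _ => ?_
            simp only [← TensorProduct.sum_tmul, yy2, TensorProduct.ite_tmul,
              TensorProduct.zero_tmul, Finset.sum_ite_eq, Finset.mem_univ, if_true]
        _ = _ := by
            rw [← TensorProduct.tmul_sum, yy2]
            split_ifs
            · rfl
            · simp)

theorem comulH_yy (r : I) (i j : ι) :
    comulH (k := k) s (yy s r i j) = ∑ l, yy s r i l ⊗ₜ yy s r l j := liftH_yy _ _ _ _ _ _ _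

noncomputable def counitH : HH k I ι s →ₐ[k] k :=
  liftH s (fun _ i j => if i = j then 1 else 0)
    (by intro r i j; simp [eq_comm]) (by intro r i j; simp [eq_comm])

theorem counitH_yy (r : I) (i j : ι) :
    counitH (k := k) s (yy s r i j) = if i = j then 1 else 0 := liftH_yy _ _ _ _ _ _ _

noncomputable def antiH : HH k I ι s →ₐ[k] (HH k I ι s)ᵐᵒᵖ :=
  liftH s (fun r i j => MulOpposite.op (yy s (s r) j i))
    (by
      intro r i j
      simp only [← MulOpposite.op_mul, ← Finset.op_sum, yy2]
      by_cases h : i = j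
      · simp [h]
      · simp [h, Ne.symm h])
    (by
      intro r i j
      simp only [← MulOpposite.op_mul, ← Finset.op_sum, yy1]
      by_cases h : i = j
      · simp [h]
      · simp [h, Ne.symm h])

noncomputable def SS : HH k I ι s →ₗ[k] HH k I ι s :=
  (MulOpposite.opLinearEquiv k).symm.toLinearMap ∘ₗ (antiH s).toLinearMap

theorem SS_yy (r : I) (i j : ι) : SS (k := k) s (yy s r i j) = yy s (s r) j i := by
  simp only [SS, antiH, LinearMap.comp_apply, AlgHom.toLinearMap_apply, liftH_yy]
  rfl

theorem SS_mul (a b : HH k I ι s) : SS s (a * b) = SS s b * SS s a := by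
  simp [SS]

theorem SS_one : SS s (1 : HH k I ι s) = 1 := by
  simp [SS]

noncomputable instance bialgH : Bialgebra k (HH k I ι s) :=
  Bialgebra.ofAlgHom (comulH s) (counitH s)
    (by
      apply extH
      intro r i j
      simp only [AlgHom.comp_apply, comulH_yy, map_sum, Algebra.TensorProduct.map_tmul,
        AlgHom.id_apply, TensorProduct.sum_tmul, TensorProduct.tmul_sum]
      rw [Finset.sum_comm]
      rfl)
    (by
      apply extH
      intro r i j
      simp [comulH_yy, counitH_yy, TensorProduct.ite_tmul])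
    (by
      apply extH
      intro r i j
      simp [comulH_yy, counitH_yy, TensorProduct.tmul_ite])

theorem comul_eq (h : HH k I ι s) : Coalgebra.comul (R := k) h = comulH s h := rfl
theorem counit_eq (h : HH k I ι s) : Coalgebra.counit (R := k) h = counitH s h := rfl

theorem m1_mul (t t' : HH k I ι s ⊗[k] HH k I ι s) (c : k)
    (h : LinearMap.mul' k _ ((SS s).rTensor _ t) = algebraMap k _ c) :
    LinearMap.mul' k _ ((SS s).rTensor _ (t * t')) =
      c • LinearMap.mul' k _ ((SS s).rTensor _ t') := by
  induction t' using TensorProduct.induction_on with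
  | zero => simp
  | add x y hx hy => simp only [mul_add, map_add, hx, hy, smul_add]
  | tmul a b =>
    have : ∀ t : HH k I ι s ⊗[k] HH k I ι s, LinearMap.mul' k _ ((SS s).rTensor _ (t * a ⊗ₜ b)) =
        SS s a * LinearMap.mul' k _ ((SS s).rTensor _ t) * b := by
      intro t
      induction t using TensorProduct.induction_on with
      | zero => simp
      | add x y hx hy => simp only [add_mul, mul_add, map_add, hx, hy]
      | tmul x y => simp [SS_mul, mul_assoc]
    rw [this, h, Algebra.algebraMap_eq_smul_one]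
    simp

theorem m2_mul (t t' : HH k I ι s ⊗[k] HH k I ι s) (c : k)
    (h : LinearMap.mul' k _ ((SS s).lTensor _ t') = algebraMap k _ c) :
    LinearMap.mul' k _ ((SS s).lTensor _ (t * t')) =
      c • LinearMap.mul' k _ ((SS s).lTensor _ t) := by
  induction t using TensorProduct.induction_on with
  | zero => simp
  | add x y hx hy => simp only [add_mul, map_add, hx, hy, smul_add]
  | tmul a b =>
    have : ∀ t : HH k I ι s ⊗[k] HH k I ι s, LinearMap.mul' k _ ((SS s).lTensor _ (a ⊗ₜ b * t)) =
        a * LinearMap.mul' k _ ((SS s).lTensor _ t) * SS s b := by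
      intro t
      induction t using TensorProduct.induction_on with
      | zero => simp
      | add x y hx hy => simp only [add_mul, mul_add, map_add, hx, hy]
      | tmul x y => simp [SS_mul, mul_assoc]
    rw [this, h, Algebra.algebraMap_eq_smul_one]
    simp

noncomputable instance hopfH : HopfAlgebra k (HH k I ι s) where
  antipode := SS s
  mul_antipode_rTensor_comul := by
    ext h
    change LinearMap.mul' k _ ((SS s).rTensor _ (comulH s h)) = algebraMap k _ (counitH s h)
    induction h using indH with
    | h0 c =>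
      rw [AlgHom.commutes, AlgHom.commutes, Algebra.algebraMap_eq_smul_one, map_smul, map_smul,
        Algebra.TensorProduct.one_def]
      simp [SS_one, Algebra.algebraMap_eq_smul_one]
    | h1 r i j => simp [comulH_yy, counitH_yy, SS_yy, yy2]
    | hm a b iha ihb =>
      rw [map_mul, m1_mul s _ _ _ iha, ihb, map_mul, map_mul, Algebra.smul_def]
    | ha a b iha ihb => simp only [map_add, iha, ihb]
  mul_antipode_lTensor_comul := by
    ext h
    change LinearMap.mul' k _ ((SS s).lTensor _ (comulH s h)) = algebraMap k _ (counitH s h)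
    induction h using indH with
    | h0 c =>
      rw [AlgHom.commutes, AlgHom.commutes, Algebra.algebraMap_eq_smul_one, map_smul, map_smul,
        Algebra.TensorProduct.one_def]
      simp [SS_one, Algebra.algebraMap_eq_smul_one]
    | h1 r i j => simp [comulH_yy, counitH_yy, SS_yy, yy1]
    | hm a b iha ihb =>
      rw [map_mul, m2_mul s _ _ _ ihb, iha, map_mul, mul_comm (counitH s a), map_mul,
        Algebra.smul_def]
    | ha a b iha ihb => simp only [map_add, iha, ihb]

end hopf

section action

variable {k : Type} [Field k] {I ι : Type} [Fintype ι] [DecidableEq ι] (s : I → I)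
  {W : Type} [AddCommGroup W] [Module k W] (Y : I → ι → ι → Module.End k W)

noncomputable def LL (r : I) : W →ₗ[k] Matrix ι ι (TensorAlgebra k W) where
  toFun w := Matrix.of fun i j => TensorAlgebra.ι k (Y r i j w)
  map_add' a b := by ext i j; simp
  map_smul' c a := by ext i j; simp

noncomputable def Phi (r : I) : TensorAlgebra k W →ₐ[k] Matrix ι ι (TensorAlgebra k W) :=
  TensorAlgebra.lift k (LL Y r)

noncomputable def ph (r : I) (i j : ι) : Module.End k (TensorAlgebra k W) where
  toFun x := Phi Y r x i j
  map_add' a b := by simp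
  map_smul' c a := by simp

theorem ph_mul (r : I) (i j : ι) (x y : TensorAlgebra k W) :
    ph Y r i j (x * y) = ∑ l, ph Y r i l x * ph Y r l j y := by
  change Phi Y r (x * y) i j = _
  rw [map_mul, Matrix.mul_apply]
  rfl

theorem ph_one (r : I) (i j : ι) : ph Y r i j 1 = if i = j then 1 else 0 := by
  change Phi Y r 1 i j = _
  rw [map_one, Matrix.one_apply]

theorem ph_ι (r : I) (i j : ι) (w : W) :
    ph Y r i j (TensorAlgebra.ι k w) = TensorAlgebra.ι k (Y r i j w) := by
  change Phi Y r _ i j = _
  rw [Phi, TensorAlgebra.lift_ι_apply]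
  rfl

theorem ph_rel1 (h1 : ∀ r i j, ∑ l, Y r i l * Y (s r) j l = if i = j then 1 else 0)
    (r : I) (x : TensorAlgebra k W) :
    ∀ i j, ∑ l, ph Y r i l (ph Y (s r) j l x) = if i = j then x else 0 := by
  induction x using TensorAlgebra.induction with
  | algebraMap c =>
    intro i j
    simp only [Algebra.algebraMap_eq_smul_one, map_smul, ph_one, apply_ite (ph Y r i _), map_zero,
      ← Finset.smul_sum, Finset.sum_ite_eq, Finset.mem_univ, if_true, smul_ite, smul_zero]
  | ι w =>
    intro i j
    simp only [ph_ι, ← map_sum]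
    have := congrArg (fun f : Module.End k W => f w) (h1 r i j)
    simp only [LinearMap.sum_apply, Module.End.mul_apply] at this
    rw [this]
    split_ifs <;> simp
  | add a b ha hb =>
    intro i j
    simp only [map_add, Finset.sum_add_distrib, ha, hb]
    split_ifs <;> simp
  | mul a b ha hb =>
    intro i j
    simp only [ph_mul, map_sum]
    calc _ = ∑ m, ∑ p, ∑ l, ph Y r i p (ph Y (s r) j m a) * ph Y r p l (ph Y (s r) m l b) := by
          rw [Finset.sum_comm]
          exact Finset.sum_congr rfl fun a _ => Finset.sum_comm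
      _ = ∑ m, ph Y r i m (ph Y (s r) j m a) * b := by
          refine Finset.sum_congr rfl fun m _ => ?_
          simp only [← Finset.mul_sum, hb, mul_ite, mul_zero, Finset.sum_ite_eq', Finset.mem_univ,
            if_true]
      _ = _ := by
          rw [← Finset.sum_mul, ha]
          split_ifs <;> simp

theorem ph_rel2 (h2 : ∀ r i j, ∑ l, Y (s r) l i * Y r l j = if i = j then 1 else 0)
    (r : I) (x : TensorAlgebra k W) :
    ∀ i j, ∑ l, ph Y (s r) l i (ph Y r l j x) = if i = j then x else 0 := by
  induction x using TensorAlgebra.induction with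
  | algebraMap c =>
    intro i j
    simp only [Algebra.algebraMap_eq_smul_one, map_smul, ph_one, apply_ite (ph Y (s r) _ i),
      map_zero, ← Finset.smul_sum, Finset.sum_ite_eq', Finset.mem_univ, if_true, smul_ite,
      smul_zero, eq_comm (a := j)]
  | ι w =>
    intro i j
    simp only [ph_ι, ← map_sum]
    have := congrArg (fun f : Module.End k W => f w) (h2 r i j)
    simp only [LinearMap.sum_apply, Module.End.mul_apply] at this
    rw [this]
    split_ifs <;> simp
  | add a b ha hb =>
    intro i j
    simp only [map_add, Finset.sum_add_distrib, ha, hb]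
    split_ifs <;> simp
  | mul a b ha hb =>
    intro i j
    simp only [ph_mul, map_sum]
    calc _ = ∑ m, ∑ p, ∑ l, ph Y (s r) l p (ph Y r l m a) * ph Y (s r) p i (ph Y r m j b) := by
          rw [Finset.sum_comm]
          exact Finset.sum_congr rfl fun a _ => Finset.sum_comm
      _ = ∑ m, a * ph Y (s r) m i (ph Y r m j b) := by
          refine Finset.sum_congr rfl fun m _ => ?_
          simp only [← Finset.sum_mul, ha, ite_mul, zero_mul, Finset.sum_ite_eq', Finset.mem_univ,
            if_true]
      _ = _ := by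
          rw [← Finset.mul_sum, hb]
          split_ifs <;> simp

variable (h1 : ∀ r i j, ∑ l, Y r i l * Y (s r) j l = if i = j then 1 else 0)
  (h2 : ∀ r i j, ∑ l, Y (s r) l i * Y r l j = if i = j then 1 else 0)

noncomputable def actH : HH k I ι s →ₐ[k] Module.End k (TensorAlgebra k W) :=
  liftH s (ph Y)
    (by
      intro r i j
      ext1 x
      rw [LinearMap.sum_apply]
      simp only [Module.End.mul_apply, ph_rel1 s Y h1]
      split_ifs <;> simp)
    (by
      intro r i j
      ext1 x
      rw [LinearMap.sum_apply]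
      simp only [Module.End.mul_apply, ph_rel2 s Y h2]
      split_ifs <;> simp)

theorem actH_yy (r : I) (i j : ι) : actH s Y h1 h2 (yy s r i j) = ph Y r i j :=
  liftH_yy _ _ _ _ _ _ _

theorem act_one (h : HH k I ι s) :
    actH s Y h1 h2 h 1 = algebraMap k _ (Coalgebra.counit (R := k) h) := by
  rw [counit_eq]
  induction h using indH with
  | h0 c => simp [Algebra.algebraMap_eq_smul_one]
  | h1 r i j =>
    rw [actH_yy, ph_one, counitH_yy]
    split_ifs <;> simp
  | hm a b iha ihb =>
    rw [map_mul, Module.End.mul_apply, ihb, Algebra.algebraMap_eq_smul_one, map_smul, iha,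
      map_mul, mul_comm (counitH s a), map_mul, Algebra.smul_def]
  | ha a b iha ihb => simp only [map_add, LinearMap.add_apply, iha, ihb]

theorem act_mul (h : HH k I ι s) : ∀ x y : TensorAlgebra k W, actH s Y h1 h2 h (x * y) =
    TensorProduct.lift ((LinearMap.mul k (TensorAlgebra k W)).compl₁₂
      ((actH s Y h1 h2).toLinearMap.flip x) ((actH s Y h1 h2).toLinearMap.flip y))
      (Coalgebra.comul (R := k) h) := by
  rw [comul_eq]
  induction h using indH with
  | h0 c =>
    intro x y
    rw [AlgHom.commutes, AlgHom.commutes, Algebra.algebraMap_eq_smul_one,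
      Algebra.algebraMap_eq_smul_one, map_smul, Algebra.TensorProduct.one_def]
    simp
  | h1 r i j =>
    intro x y
    rw [actH_yy, ph_mul, comulH_yy]
    simp [actH_yy]
  | ha a b iha ihb =>
    intro x y
    simp only [map_add, LinearMap.add_apply, iha, ihb]
  | hm a b iha ihb =>
    intro x y
    rw [map_mul (actH s Y h1 h2), Module.End.mul_apply, ihb, map_mul (comulH s)]
    generalize comulH s b = t'
    induction t' using TensorProduct.induction_on with
    | zero => simp
    | add u v hu hv => simp only [mul_add, map_add, hu, hv]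
    | tmul c d =>
      rw [TensorProduct.lift.tmul, LinearMap.compl₁₂_apply, LinearMap.mul_apply', iha]
      generalize comulH s a = t
      induction t using TensorProduct.induction_on with
      | zero => simp
      | add u v hu hv => simp only [add_mul, map_add, hu, hv]
      | tmul e f => simp

theorem hollow (r : I) (D : ι → Prop) (o : ι)
    (hz : ∀ i j, (D i ∨ i = o) → ¬ D j → Y r i j = 0) (x : TensorAlgebra k W) :
    ∀ i j, (D i ∨ i = o) → ¬ D j →
      ph Y r i j x = if i = j then algebraMap k _ (TensorAlgebra.algebraMapInv x) else 0 := by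
  induction x using TensorAlgebra.induction with
  | algebraMap c =>
    intro i j _ _
    rw [AlgHom.commutes, Algebra.algebraMap_eq_smul_one c, map_smul, ph_one]
    simp [Algebra.algebraMap_eq_smul_one]
  | ι w =>
    intro i j hi hj
    rw [ph_ι, hz i j hi hj]
    simp [TensorAlgebra.algebraMapInv]
  | add a b ha hb =>
    intro i j hi hj
    simp only [map_add, ha i j hi hj, hb i j hi hj]
    split_ifs <;> simp
  | mul a b ha hb =>
    intro i j hi hj
    rw [ph_mul, Finset.sum_eq_single i]
    · rw [hb i j hi hj]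
      split_ifs with h
      · subst h
        rw [ha i i hi hj]
        simp
      · simp
    · intro l _ hl
      by_cases hD : D l
      · rw [hb l j (Or.inl hD) hj, if_neg (by rintro rfl; exact hj hD), mul_zero]
      · rw [ha i l hi hD, if_neg (Ne.symm hl), zero_mul]
    · simp

end action

section model

abbrev K5 : Type := ZMod 5

instance : Fact (Nat.Prime 5) := ⟨by norm_num⟩

abbrev TT : Type := List (Fin 3) →₀ K5

noncomputable def bT (j : Fin 3) : Module.End K5 TT := Finsupp.lmapDomain K5 K5 (List.cons j)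

def chi : Fin 3 → K5 := ![1, 2, 0]

def beta : Fin 3 → K5 := ![3, 4, 0]

noncomputable def AA : List (Fin 3) → Fin 3 → TT
  | [], i => Finsupp.single [] (chi i)
  | j :: w, i => (if i = j then Finsupp.single w 1 else 0) + bT i (AA w j)

noncomputable def aT (i : Fin 3) : Module.End K5 TT :=
  Finsupp.linearCombination K5 (fun w => AA w i)

noncomputable def vac : TT := Finsupp.single [] 1

theorem aT_vac (i : Fin 3) : aT i vac = chi i • vac := by
  simp [aT, vac, AA]

theorem aT_bT (i j : Fin 3) (t : TT) :
    aT i (bT j t) = (if i = j then t else 0) + bT i (aT j t) := by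
  induction t using Finsupp.induction_linear with
  | zero => simp
  | add f g hf hg =>
    simp only [map_add, hf, hg]
    split_ifs <;> abel
  | single w c =>
    simp only [aT, bT, Finsupp.lmapDomain_apply, Finsupp.mapDomain_single,
      Finsupp.linearCombination_single, AA, smul_add, map_smul]
    split_ifs <;> simp

theorem indT {P : TT → Prop} (h0 : P vac) (hb : ∀ j t, P t → P (bT j t))
    (hadd : ∀ a b, P a → P b → P (a + b)) (hs : ∀ (c : K5) a, P a → P (c • a)) (t : TT) : P t := by
  induction t using Finsupp.induction_linear with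
  | zero => simpa using hs 0 vac h0
  | add f g hf hg => exact hadd _ _ hf hg
  | single w c =>
    have : ∀ w : List (Fin 3), P (Finsupp.single w 1) := by
      intro w
      induction w with
      | nil => exact h0
      | cons j w ih =>
        have := hb j _ ih
        simpa [bT] using this
    simpa using hs c _ (this w)

inductive InJ : TT → Prop
  | g1 (t : TT) : InJ (∑ j, bT j (bT j t))
  | g2 : InJ (∑ j, chi j • bT j vac - vac)
  | zero : InJ 0
  | add (a b : TT) : InJ a → InJ b → InJ (a + b)
  | smul (c : K5) (a : TT) : InJ a → InJ (c • a)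
  | mulb (j : Fin 3) (a : TT) : InJ a → InJ (bT j a)

def JJ : Submodule K5 TT where
  carrier := {t | InJ t}
  zero_mem' := InJ.zero
  add_mem' ha hb := InJ.add _ _ ha hb
  smul_mem' c _ ha := InJ.smul c _ ha

theorem JN (t : TT) : ∑ j, bT j (aT j t) - t ∈ JJ := by
  induction t using indT with
  | h0 =>
    simp only [aT_vac, map_smul]
    exact InJ.g2
  | hb l t _ =>
    simp only [aT_bT, map_add, Finset.sum_add_distrib, apply_ite (bT _), map_zero,
      Finset.sum_ite_eq', Finset.mem_univ, if_true, add_sub_cancel_left]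
    exact InJ.g1 _
  | hadd a b ha hb =>
    have := JJ.add_mem ha hb
    convert this using 1
    simp only [map_add, Finset.sum_add_distrib]
    abel
  | hs c a ha =>
    have := JJ.smul_mem c ha
    convert this using 1
    simp only [map_smul, smul_sub, Finset.smul_sum]

theorem five (t : TT) : t + t + t + t + t = 0 := by
  have : t + t + t + t + t = (5 : K5) • t := by module
  rw [this, show (5 : K5) = 0 from rfl, zero_smul]

theorem JM (t : TT) : ∑ j, aT j (bT j t) + t ∈ JJ := by
  have := JN t
  convert this using 1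
  simp only [aT_bT, if_true, Finset.sum_add_distrib, Fin.sum_univ_three]
  rw [← sub_eq_zero, ← five t]
  abel

theorem aJ (t : TT) (ht : InJ t) : ∀ i, InJ (aT i t) := by
  induction ht with
  | g1 t =>
    intro i
    have := InJ.mulb i _ (JM t)
    convert this using 1
    simp only [map_sum, map_add, aT_bT i, Finset.sum_add_distrib, Finset.sum_ite_eq,
      Finset.mem_univ, if_true]
    abel
  | g2 =>
    intro i
    have : aT i (∑ j, chi j • bT j vac - vac) = (∑ j, chi j * chi j) • bT i vac := by
      simp only [map_sub, map_sum, map_smul, aT_bT, aT_vac, smul_add, Finset.sum_add_distrib,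
        smul_ite, smul_zero, Finset.sum_ite_eq, Finset.mem_univ, if_true, smul_smul,
        Finset.sum_smul]
      abel
    rw [this, show (∑ j, chi j * chi j) = 0 by decide, zero_smul]
    exact InJ.zero
  | zero => intro i; simpa using InJ.zero
  | add a b _ _ ha hb => intro i; rw [map_add]; exact InJ.add _ _ (ha i) (hb i)
  | smul c a _ ha => intro i; rw [map_smul]; exact InJ.smul _ _ (ha i)
  | mulb j a h ha =>
    intro i
    rw [aT_bT]
    refine InJ.add _ _ ?_ (InJ.mulb _ _ (ha j))
    split_ifs
    · exact h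
    · exact InJ.zero

theorem JA (t : TT) : ∑ j, aT j (aT j t) ∈ JJ := by
  induction t using indT with
  | h0 =>
    simp only [aT_vac, map_smul, smul_smul, ← Finset.sum_smul]
    rw [show (∑ j, chi j * chi j) = 0 by decide, zero_smul]
    exact JJ.zero_mem
  | hb l t _ =>
    have := JM (aT l t)
    convert this using 1
    simp only [aT_bT _ l, map_add, Finset.sum_add_distrib, apply_ite (aT _), map_zero,
      Finset.sum_ite_eq', Finset.mem_univ, if_true]
    abel
  | hadd a b ha hb =>
    have := JJ.add_mem ha hb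
    convert this using 1
    simp only [map_add, Finset.sum_add_distrib]
  | hs c a ha =>
    have := JJ.smul_mem c ha
    convert this using 1
    simp only [map_smul, Finset.smul_sum]

noncomputable def fT : TT →ₗ[K5] K5 :=
  Finsupp.linearCombination K5 (fun w => (w.map beta).prod)

theorem fT_vac : fT vac = 1 := by simp [fT, vac]

theorem fT_bT (j : Fin 3) (t : TT) : fT (bT j t) = beta j * fT t := by
  induction t using Finsupp.induction_linear with
  | zero => simp
  | add f g hf hg => simp only [map_add, hf, hg, mul_add]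
  | single w c =>
    simp only [fT, bT, Finsupp.lmapDomain_apply, Finsupp.mapDomain_single,
      Finsupp.linearCombination_single, List.map_cons, List.prod_cons, smul_eq_mul]
    ring

theorem fJ (t : TT) (ht : InJ t) : fT t = 0 := by
  induction ht with
  | g1 t =>
    simp only [map_sum, fT_bT, ← mul_assoc, ← Finset.sum_mul]
    rw [show (∑ j, beta j * beta j) = 0 by decide, zero_mul]
  | g2 =>
    simp only [map_sub, map_sum, map_smul, fT_bT, fT_vac]
    decide
  | zero => simp
  | add a b _ _ ha hb => rw [map_add, ha, hb, add_zero]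
  | smul c a _ ha => rw [map_smul, ha, smul_zero]
  | mulb j a _ ha => rw [fT_bT, ha, mul_zero]

abbrev W0 : Type := TT ⧸ JJ

abbrev WW : Type := ℕ → W0

noncomputable def aW (i : Fin 3) : Module.End K5 WW :=
  LinearMap.compLeft (JJ.mapQ JJ (aT i) (fun t ht => aJ t ht i)) ℕ

noncomputable def bW (i : Fin 3) : Module.End K5 WW :=
  LinearMap.compLeft (JJ.mapQ JJ (bT i) (fun t ht => InJ.mulb i t ht)) ℕ

theorem rab (i j : Fin 3) : aW i * bW j = (if i = j then 1 else 0) + bW i * aW j := by
  ext1 w
  funext n
  obtain ⟨t, ht⟩ := JJ.mkQ_surjective (w n)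
  have : (aW i * bW j) w n = JJ.mkQ (aT i (bT j t)) := by
    simp [aW, bW, ← ht]
  rw [this, aT_bT]
  split_ifs <;> simp [aW, bW, ← ht]

theorem rba : bW 0 * aW 0 + bW 1 * aW 1 + bW 2 * aW 2 = 1 := by
  ext1 w
  funext n
  obtain ⟨t, ht⟩ := JJ.mkQ_surjective (w n)
  have := (Submodule.Quotient.mk_eq_zero JJ).mpr (JN t)
  rw [Submodule.Quotient.mk_sub, sub_eq_zero, Fin.sum_univ_three] at this
  simpa [aW, bW, ← ht] using this

theorem rbb : bW 0 * bW 0 + bW 1 * bW 1 + bW 2 * bW 2 = 0 := by
  ext1 w
  funext n
  obtain ⟨t, ht⟩ := JJ.mkQ_surjective (w n)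
  have := (Submodule.Quotient.mk_eq_zero JJ).mpr (InJ.g1 t)
  rw [Fin.sum_univ_three] at this
  simpa [bW, ← ht] using this

theorem raa : aW 0 * aW 0 + aW 1 * aW 1 + aW 2 * aW 2 = 0 := by
  ext1 w
  funext n
  obtain ⟨t, ht⟩ := JJ.mkQ_surjective (w n)
  have := (Submodule.Quotient.mk_eq_zero JJ).mpr (JA t)
  rw [Fin.sum_univ_three] at this
  simpa [aW, ← ht] using this

theorem rab' : aW 0 * bW 0 + aW 1 * bW 1 + aW 2 * bW 2 = -1 := by
  ext1 w
  funext n
  obtain ⟨t, ht⟩ := JJ.mkQ_surjective (w n)
  have := (Submodule.Quotient.mk_eq_zero JJ).mpr (JM t)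
  rw [Submodule.Quotient.mk_add, add_eq_zero_iff_eq_neg, Fin.sum_univ_three] at this
  simpa [aW, bW, ← ht] using this

section abs
variable {A : Type} [Ring A] (a b : Fin 3 → A)

def M0 : Matrix (Fin 5) (Fin 5) A :=
  !![a 0, a 1, a 2, 0, 0; b 0, b 1, b 2, 0, 0; 0, 0, 0, a 0, b 0; 0, 0, 0, a 1, b 1;
    0, 0, 0, a 2, b 2]

def M1 : Matrix (Fin 5) (Fin 5) A :=
  !![-b 0, -b 1, -b 2, 0, 0; a 0, a 1, a 2, 0, 0; 0, 0, 0, b 0, -a 0; 0, 0, 0, b 1, -a 1;
    0, 0, 0, b 2, -a 2]

theorem eall (rab : ∀ i j, a i * b j = (if i = j then 1 else 0) + b i * a j)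
    (rba : b 0 * a 0 + b 1 * a 1 + b 2 * a 2 = 1) (rbb : b 0 * b 0 + b 1 * b 1 + b 2 * b 2 = 0)
    (raa : a 0 * a 0 + a 1 * a 1 + a 2 * a 2 = 0)
    (rab' : a 0 * b 0 + a 1 * b 1 + a 2 * b 2 = -1) (i j : Fin 5) :
    (∑ l, M0 a b i l * M1 a b j l = if i = j then 1 else 0) ∧
    (∑ l, M1 a b l i * M0 a b l j = if i = j then 1 else 0) ∧
    (∑ l, M1 a b i l * M0 a b j l = if i = j then -1 else 0) ∧
    (∑ l, M0 a b l i * M1 a b l j = if i = j then -1 else 0) := by
  have rab2 : -(a 0 * b 0) + -(a 1 * b 1) + -(a 2 * b 2) = 1 := by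
    rw [← neg_add, ← neg_add, rab', neg_neg]
  have rba2 : -(b 0 * a 0) + -(b 1 * a 1) + -(b 2 * a 2) = -1 := by
    rw [← neg_add, ← neg_add, rba]
  have rbb2 : -(b 0 * b 0) + -(b 1 * b 1) + -(b 2 * b 2) = 0 := by
    rw [← neg_add, ← neg_add, rbb, neg_zero]
  have raa2 : -(a 0 * a 0) + -(a 1 * a 1) + -(a 2 * a 2) = 0 := by
    rw [← neg_add, ← neg_add, raa, neg_zero]
  have rc1 (i j : Fin 3) : a i * b j + -(b i * a j) = if i = j then 1 else 0 := by
    rw [rab]; abel
  have rc2 (i j : Fin 3) : -(b i * a j) + a i * b j = if i = j then 1 else 0 := by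
    rw [rab]; abel
  have rc3 (i j : Fin 3) : b i * a j + -(a i * b j) = if i = j then -1 else 0 := by
    rw [rab]; split_ifs <;> abel
  have rc4 (i j : Fin 3) : -(a i * b j) + b i * a j = if i = j then -1 else 0 := by
    rw [rab]; split_ifs <;> abel
  clear rab
  refine ⟨?_, ?_, ?_, ?_⟩ <;> fin_cases i <;> fin_cases j <;>
    simp [M0, M1, Fin.sum_univ_five, rab2, rba2, rbb2, raa2, rab', rba, rbb, raa, rc1, rc2, rc3, rc4]

theorem chain (P Q : Matrix (Fin 5) (Fin 5) A) (s : Fin 4 → Fin 4) (hs : s = ![1, 2, 3, 0])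
    (Y : Fin 4 → Fin 5 → Fin 5 → A)
    (hY : Y = ![fun i j => P i j, fun i j => Q i j, fun i j => -P i j, fun i j => -Q i j])
    (i j : Fin 5)
    (h : (∑ l, P i l * Q j l = if i = j then 1 else 0) ∧
    (∑ l, Q l i * P l j = if i = j then 1 else 0) ∧
    (∑ l, Q i l * P j l = if i = j then -1 else 0) ∧
    (∑ l, P l i * Q l j = if i = j then -1 else 0)) (r : Fin 4) :
    (∑ l, Y r i l * Y (s r) j l = if i = j then 1 else 0) ∧
    (∑ l, Y (s r) l i * Y r l j = if i = j then 1 else 0) := by
  obtain ⟨e1, e2, e3, e4⟩ := h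
  subst hs hY
  fin_cases r <;> simp [e1, e2, e3, e4] <;> split_ifs <;> simp

end abs

noncomputable def YY : Fin 4 → Fin 5 → Fin 5 → Module.End K5 WW :=
  ![fun i j => M0 aW bW i j, fun i j => M1 aW bW i j, fun i j => -M0 aW bW i j,
    fun i j => -M1 aW bW i j]

def sx : Fin 4 → Fin 4 := ![1, 2, 3, 0]

theorem hY1 (r : Fin 4) (i j : Fin 5) :
    ∑ l, YY r i l * YY (sx r) j l = if i = j then 1 else 0 :=
  (chain (M0 aW bW) (M1 aW bW) sx rfl YY rfl i j (eall aW bW rab rba rbb raa rab' i j) r).1

theorem hY2 (r : Fin 4) (i j : Fin 5) :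
    ∑ l, YY (sx r) l i * YY r l j = if i = j then 1 else 0 :=
  (chain (M0 aW bW) (M1 aW bW) sx rfl YY rfl i j (eall aW bW rab rba rbb raa rab' i j) r).2

theorem central (x : TensorAlgebra K5 WW) :
    actH sx YY hY1 hY2 (yy sx 0 2 2) x = algebraMap K5 _ (TensorAlgebra.algebraMapInv x) := by
  rw [actH_yy, hollow YY 0 (fun i => i = 3 ∨ i = 4) 2 _ x 2 2 (Or.inr rfl) (by decide), if_pos rfl]
  intro i j hi hj
  fin_cases i <;> fin_cases j <;> simp_all [YY, M0]

noncomputable def fW : W0 →ₗ[K5] K5 := JJ.liftQ fT (fun t ht => fJ t ht)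

theorem notPI (m : ℕ) (p : FreeAlgebra K5 (Fin m))
    (h : ∀ r : Fin m → TensorAlgebra K5 WW, FreeAlgebra.lift K5 r p = 0) : p = 0 := by
  let θ : TensorAlgebra K5 WW →ₐ[K5] FreeAlgebra K5 (Fin m) := TensorAlgebra.lift K5
    (∑ i : Fin m, (fW ∘ₗ LinearMap.proj (i : ℕ)).smulRight (FreeAlgebra.ι K5 i))
  let r : Fin m → TensorAlgebra K5 WW := fun i =>
    TensorAlgebra.ι K5 (Pi.single (i : ℕ) (JJ.mkQ vac))
  have hv : fW (JJ.mkQ vac) = 1 := fT_vac
  have : θ.comp (FreeAlgebra.lift K5 r) = AlgHom.id K5 _ := by
    ext i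
    simp only [θ, r, Function.comp_apply, AlgHom.comp_apply, FreeAlgebra.lift_ι_apply,
      TensorAlgebra.lift_ι_apply, LinearMap.sum_apply, LinearMap.smulRight_apply,
      LinearMap.comp_apply, LinearMap.proj_apply, AlgHom.id_apply]
    rw [Finset.sum_eq_single i]
    · rw [Pi.single_eq_same, hv, one_smul]
    · intro j _ hj
      rw [Pi.single_eq_of_ne (by simpa [Fin.ext_iff] using hj), map_zero, zero_smul]
    · simp
  have h2 := congrArg (fun f => f p) this
  simp only [AlgHom.comp_apply, h r, map_zero, AlgHom.id_apply] at h2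
  exact h2.symm

end model

/-- The negation of the preceding statement: For every field k, Hopf algebra H over k and H-module algebra R: if R satisfies a multilinear generalized identity with H-operators whose ordered monomial parts have values generating the unit ideal, then R satisfies a nonzero polynomial identity. -/
theorem result :
    ¬ (∀ (k : Type) [Field k] (H : Type) [Ring H] [HopfAlgebra k H]
    (R : Type) [Ring R] [Algebra k R] (act : H →ₐ[k] Module.End k R),
    (∀ (h : H) (x y : R), act h (x * y) =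
        TensorProduct.lift ((LinearMap.mul k R).compl₁₂
          (act.toLinearMap.flip x) (act.toLinearMap.flip y))
          (Coalgebra.comul (R := k) h)) →
    (∀ h : H, act h 1 = algebraMap k R (Coalgebra.counit (R := k) h)) →
    ∀ (n N : ℕ) (a : Fin N → Fin (n + 1) → R) (g : Fin N → Fin n → H)
      (σ : Fin N → Equiv.Perm (Fin n)),
    (∀ r : Fin n → R, ∑ j, a j 0 *
        (List.ofFn fun i : Fin n => act (g j i) (r (σ j i)) * a j i.succ).prod = 0) →
    (∃ (M : ℕ) (u w : Fin M → R) (τ : Fin M → Equiv.Perm (Fin n))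
        (s : Fin M → Fin n → R),
      ∑ m, u m * (∑ j ∈ Finset.univ.filter (fun j => σ j = τ m), a j 0 *
        (List.ofFn fun i : Fin n => act (g j i) (s m (σ j i)) * a j i.succ).prod)
        * w m = 1) →
    ∃ (m : ℕ) (p : FreeAlgebra k (Fin m)), p ≠ 0 ∧
      ∀ r : Fin m → R, FreeAlgebra.lift k r p = 0) := by
  intro H
  obtain ⟨m, p, hp, h⟩ := H K5 (HH K5 (Fin 4) (Fin 5) sx) (TensorAlgebra K5 WW)
    (actH sx YY hY1 hY2) (act_mul sx YY hY1 hY2) (act_one sx YY hY1 hY2) 2 2
    ![![1, 1, 1], ![-1, 1, 1]] ![![yy sx 0 2 2, 1], ![1, yy sx 0 2 2]] ![1, Equiv.swap 0 1]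
    (by
      intro r
      simp [Fin.sum_univ_two, List.ofFn_succ, central, Algebra.commutes])
    ⟨1, fun _ => 1, fun _ => 1, fun _ => 1, fun _ _ => 1, by
      have : Finset.univ.filter (fun j : Fin 2 =>
          (![1, Equiv.swap 0 1] : Fin 2 → Equiv.Perm (Fin 2)) j = 1) = {0} := by decide
      simp [this, List.ofFn_succ, central]⟩
  exact hp (notPI m p h)

end Pool.Agent.S03516
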