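import Pool.Statements.S03530
import Mathlib

set_option autoImplicit false
open Pool Pool.MP_f345de_al

namespace Pool.Agent.S03530

set_option autoImplicit false

namespace H17BO

open Subgroup
open scoped commutatorElement

def PF (G : Type) [Group G] : Prop :=
  ∃ S : Set G, S.Finite ∧ closure S ≠ ⊥ ∧ closure S ≤ ⁅closure S, closure S⁆

theorem conj_comm {G : Type} [Group G] (A : Subgroup G) (g : G) (h : ∀ n ∈ A, g * n * g⁻¹ ∈ A) :
    ∀ n ∈ ⁅A, A⁆, g * n * g⁻¹ ∈ ⁅A, A⁆ := by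
  intro n hn
  have h1 : A.map (MulAut.conj g).toMonoidHom ≤ A := by
    rintro _ ⟨a, ha, rfl⟩
    exact h a ha
  have := (map_commutator A A (MulAut.conj g).toMonoidHom).le.trans (commutator_mono h1 h1)
  exact this ⟨n, hn, rfl⟩

theorem sub_lemma {G Γ : Type} [Group G] [Group Γ] (π : G →* Γ)
    (hab : ∀ a ∈ π.ker, ∀ b ∈ π.ker, a * b = b * a) (A N : Subgroup G)
    (h1 : ∀ g ∈ A, ∀ n ∈ N, g * n * g⁻¹ ∈ N) (h0 : N ≤ A) (h2 : A.map π ≤ N.map π) :
    ⁅A, A⁆ ≤ N := by
  have k : ∀ g ∈ A, ∃ n ∈ N, ∃ m ∈ A, m ∈ π.ker ∧ g = n * m := by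
    intro g hg
    obtain ⟨n, hn, e⟩ := h2 ⟨g, hg, rfl⟩
    exact ⟨n, hn, n⁻¹ * g, mul_mem (inv_mem (h0 hn)) hg, by simp [MonoidHom.mem_ker, e], by simp⟩
  refine commutator_le.mpr fun a ha b hb => ?_
  obtain ⟨n1, a1, m1, a2, a3, rfl⟩ := k a ha
  obtain ⟨n2, b1, m2, b2, b3, rfl⟩ := k b hb
  have : ⁅n1 * m1, n2 * m2⁆ = n1 * (m1 * n2 * m1⁻¹) * (m2 * n1⁻¹ * m2⁻¹) * n2⁻¹ := by
    have e : m2 * m1⁻¹ = m1⁻¹ * m2 := hab _ b3 _ (inv_mem a3)
    rw [commutatorElement_def]
    calc _ = n1 * m1 * n2 * (m2 * m1⁻¹) * n1⁻¹ * m2⁻¹ * n2⁻¹ := by group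
      _ = _ := by rw [e]; group
  rw [this]
  exact mul_mem (mul_mem (mul_mem a1 (h1 _ a2 _ b1)) (h1 _ b2 _ (inv_mem a1))) (inv_mem b1)

theorem PF_lift {G Γ : Type} [Group G] [Group Γ] (π : G →* Γ) (hs : Function.Surjective π)
    (hab : ∀ a ∈ π.ker, ∀ b ∈ π.ker, a * b = b * a) (h : PF Γ) : PF G := by
  obtain ⟨S, s1, s2, s3⟩ := h
  choose r hr using hs
  let A := closure (r '' S)
  have hA : A.map π = closure S := by
    rw [MonoidHom.map_closure, Set.image_image]
    simp [hr]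
  have s4 : ⁅closure S, closure S⁆ = closure S := le_antisymm (commutator_le.mpr fun a ha b hb =>
    mul_mem (mul_mem (mul_mem ha hb) (inv_mem ha)) (inv_mem hb)) s3
  have hD : ⁅A, A⁆.map π = closure S := by rw [map_commutator, hA, s4]
  have hDA : ⁅A, A⁆ ≤ A := commutator_le.mpr fun a ha b hb =>
    mul_mem (mul_mem (mul_mem ha hb) (inv_mem ha)) (inv_mem hb)
  have hc : ∀ g ∈ A, ∀ n ∈ ⁅A, A⁆, g * n * g⁻¹ ∈ ⁅A, A⁆ := fun g hg =>
    conj_comm A g fun n hn => mul_mem (mul_mem hg hn) (inv_mem hg)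
  have hP : ⁅A, A⁆ ≤ ⁅⁅A, A⁆, ⁅A, A⁆⁆ := sub_lemma π hab A _
    (fun g hg => conj_comm _ g (hc g hg)) ((commutator_mono hDA hDA).trans hDA)
    (by rw [map_commutator, hD, hA, s4])
  have hw : ∀ s : S, ∃ w ∈ ⁅A, A⁆, π w = s := fun s => by
    have : s.1 ∈ ⁅A, A⁆.map π := hD ▸ subset_closure s.2
    exact this
  choose w w1 w2 using hw
  let m : S → G := fun s => (w s)⁻¹ * r s
  have m1 : ∀ s, m s ∈ π.ker := fun s => by simp [m, MonoidHom.mem_ker, w2, hr]
  have m2 : ∀ s, m s ∈ A := fun s =>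
    mul_mem (inv_mem (hDA (w1 s))) (subset_closure ⟨s, s.2, rfl⟩)
  have m3 : ∀ s t, ⁅w s, m t⁆ ∈ π.ker := fun s t => by
    have : π (m t) = 1 := m1 t
    simp [MonoidHom.mem_ker, commutatorElement_def, this]
  have := s1.to_subtype
  let T := Set.range w ∪ Set.range fun p : S × S => ⁅w p.1, m p.2⁆
  have t1 : ∀ s, w s ∈ closure T := fun s => subset_closure (Or.inl ⟨s, rfl⟩)
  have t2 : ∀ s t, ⁅w s, m t⁆ ∈ closure T := fun s t => subset_closure (Or.inr ⟨(s, t), rfl⟩)
  have hK : closure T ≤ ⁅A, A⁆ := (closure_le _).mpr (by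
    rintro _ (⟨s, rfl⟩ | ⟨p, rfl⟩)
    · exact w1 s
    · exact commutator_mem_commutator (hDA (w1 _)) (m2 _))
  have cj : ∀ g : G, g ∈ π.ker → (∀ s, g * w s * g⁻¹ ∈ closure T) →
      ∀ n ∈ closure T, g * n * g⁻¹ ∈ closure T := by
    intro g hg h n hn
    have : (closure T).map (MulAut.conj g).toMonoidHom ≤ closure T := by
      rw [MonoidHom.map_closure, closure_le]
      rintro _ ⟨_, ⟨s, rfl⟩ | ⟨p, rfl⟩, rfl⟩
      · exact h s
      · have := hab g hg _ (m3 p.1 p.2)
        simp only [MulEquiv.coe_toMonoidHom, MulAut.conj_apply, this, mul_inv_cancel_right]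
        exact t2 _ _
    exact this ⟨n, hn, rfl⟩
  have hN : A ≤ normalizer (closure T : Set G) := by
    refine (closure_le _).mpr ?_
    rintro _ ⟨s, hs, rfl⟩
    have e : r s = w ⟨s, hs⟩ * m ⟨s, hs⟩ := by simp [m]
    rw [e]
    refine mul_mem (le_normalizer (t1 _)) (mem_normalizer_iff.mpr fun n => ⟨cj _ (m1 _) (fun t => ?_) n,
      fun h => ?_⟩)
    · have : m ⟨s, hs⟩ * w t * (m ⟨s, hs⟩)⁻¹ = ⁅w t, m ⟨s, hs⟩⁆⁻¹ * w t := by
        rw [commutatorElement_def]; group
      rw [this]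
      exact mul_mem (inv_mem (t2 _ _)) (t1 _)
    · have := cj _ (inv_mem (m1 ⟨s, hs⟩)) (fun t => by
        have : (m ⟨s, hs⟩)⁻¹ * w t * (m ⟨s, hs⟩)⁻¹⁻¹ = ⁅w t, m ⟨s, hs⟩⁆ * w t := by
          have e := hab _ (m1 ⟨s, hs⟩) _ (m3 t ⟨s, hs⟩)
          calc _ = (m ⟨s, hs⟩)⁻¹ * (⁅w t, m ⟨s, hs⟩⁆ * m ⟨s, hs⟩) * w t := by
                rw [commutatorElement_def]; group
            _ = _ := by rw [← e]; group
        rw [this]
        exact mul_mem (t2 _ _) (t1 _)) _ h
      simpa [mul_assoc] using this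
  have hK2 : ⁅A, A⁆ ≤ closure T := sub_lemma π hab A _
    (fun g hg n hn => (mem_normalizer_iff.mp (hN hg) n).mp hn) (hK.trans hDA) (by
      rw [hA, closure_le]
      intro s hs
      exact ⟨_, t1 ⟨s, hs⟩, w2 _⟩)
  refine ⟨T, (Set.finite_range _).union (Set.finite_range _), fun h => s2 ?_, ?_⟩
  · rw [← hD, le_antisymm hK2 hK, h, Subgroup.map_bot]
  · rw [le_antisymm hK hK2]
    exact hP

theorem not_PF {G : Type} [Group G] [LinearOrder G] (hl : ∀ a b c : G, a ≤ b → c * a ≤ c * b)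
    (hr : ∀ a b c : G, a ≤ b → a * c ≤ b * c) : ¬ PF G := by
  have : MulLeftMono G := ⟨fun c a b h => hl a b c h⟩
  have : MulRightMono G := ⟨fun c a b h => hr a b c h⟩
  rintro ⟨S, s1, s2, s3⟩
  obtain ⟨s, hs, s4, s5⟩ : ∃ s ∈ closure S, 1 < s ∧ ∀ t ∈ S, t ≤ s ∧ t⁻¹ ≤ s := by
    have hne : S.Nonempty := by
      by_contra hn
      rw [Set.not_nonempty_iff_eq_empty.mp hn] at s2
      exact s2 closure_empty
    obtain ⟨t, ht, h⟩ := S.exists_max_image (fun t => max t t⁻¹) s1 hne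
    refine ⟨max t t⁻¹, ?_, ?_, fun u hu => max_le_iff.mp (h u hu)⟩
    · rcases max_choice t t⁻¹ with e | e <;> rw [e]
      · exact subset_closure ht
      · exact inv_mem (subset_closure ht)
    · by_contra hn
      refine s2 ((closure_eq_bot_iff).mpr fun u hu => ?_)
      obtain ⟨h1, h2⟩ := max_le_iff.mp ((h u hu).trans (not_lt.mp hn))
      exact le_antisymm h1 (inv_le_one'.mp h2)
  have sm : StrictMono fun k : ℤ => s ^ k := strictMono_int_of_lt_succ fun k => by
    rw [zpow_add_one]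
    exact lt_mul_of_one_lt_right' _ s4
  have P : ∀ (a b : G) (m : ℕ), a * b ≤ b * a → a ^ m * b ≤ b * a ^ m := by
    intro a b m h
    induction m with
    | zero => simp
    | succ m ih =>
      calc a ^ (m + 1) * b = a ^ m * (a * b) := by rw [pow_succ, mul_assoc]
        _ ≤ a ^ m * (b * a) := hl _ _ _ h
        _ = a ^ m * b * a := by rw [mul_assoc]
        _ ≤ b * a ^ m * a := hr _ _ _ ih
        _ = _ := by rw [pow_succ, mul_assoc]
  have A : ∀ (g h : G) (n : ℕ) (a b : ℤ), g ^ n ≤ s ^ a → h ^ n ≤ s ^ b →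
      (g * h) ^ n ≤ s ^ (a + b) := by
    intro g h n a b ha hb
    rcases le_total (g * h) (h * g) with e | e
    · have : ∀ n : ℕ, (g * h) ^ n ≤ h ^ n * g ^ n := by
        intro n
        induction n with
        | zero => simp
        | succ n ih =>
          calc (g * h) ^ (n + 1) = (g * h) ^ n * (g * h) := pow_succ _ _
            _ ≤ h ^ n * g ^ n * (g * h) := hr _ _ _ ih
            _ = h ^ n * (g ^ (n + 1) * h) := by rw [pow_succ]; group
            _ ≤ h ^ n * (h * g ^ (n + 1)) := hl _ _ _ (P _ _ _ e)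
            _ = _ := by rw [pow_succ h, mul_assoc]
      refine (this n).trans ?_
      rw [add_comm, zpow_add]
      exact mul_le_mul' hb ha
    · have : ∀ n : ℕ, (g * h) ^ n ≤ g ^ n * h ^ n := by
        intro n
        induction n with
        | zero => simp
        | succ n ih =>
          calc (g * h) ^ (n + 1) = (g * h) ^ n * (g * h) := pow_succ _ _
            _ ≤ g ^ n * h ^ n * (g * h) := hr _ _ _ ih
            _ = g ^ n * (h ^ n * g * h) := by group
            _ ≤ g ^ n * (g * h ^ n * h) := hl _ _ _ (hr _ _ _ (P _ _ _ e))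
            _ = _ := by rw [pow_succ h, pow_succ g]; group
      refine (this n).trans ?_
      rw [zpow_add]
      exact mul_le_mul' ha hb
  have B : ∀ g ∈ closure S, ∃ a b : ℤ, g ≤ s ^ a ∧ g⁻¹ ≤ s ^ b := by
    intro g hg
    induction hg using closure_induction with
    | mem t ht => exact ⟨1, 1, by simpa using s5 t ht⟩
    | one => exact ⟨0, 0, by simp⟩
    | mul x y _ _ hx hy =>
      obtain ⟨a, b, h1, h2⟩ := hx
      obtain ⟨c, d, h3, h4⟩ := hy
      exact ⟨a + c, d + b, by rw [zpow_add]; exact mul_le_mul' h1 h3,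
        by rw [zpow_add, mul_inv_rev]; exact mul_le_mul' h4 h2⟩
    | inv x _ hx =>
      obtain ⟨a, b, h1, h2⟩ := hx
      exact ⟨b, a, h2, by rwa [inv_inv]⟩
  have C : ∀ g ∈ closure S, ∀ n : ℕ, ∃ m : ℤ, g ^ n ≤ s ^ (m + 1) ∧ g⁻¹ ^ n ≤ s ^ (-m) := by
    intro g hg n
    obtain ⟨a, b, h1, h2⟩ := B _ (pow_mem hg n)
    obtain ⟨m, h3, h4⟩ := Int.exists_greatest_of_bdd (P := fun m : ℤ => s ^ m ≤ g ^ n)
      ⟨a, fun m hm => sm.le_iff_le.mp (hm.trans h1)⟩
      ⟨-b, by rw [zpow_neg]; exact inv_le'.mp h2⟩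
    refine ⟨m, (not_le.mp fun h => by have := h4 _ h; omega).le, ?_⟩
    rw [inv_pow, zpow_neg]
    exact inv_le_inv_iff.mpr h3
  have C2 : ∀ g ∈ closure S, ∀ h ∈ closure S, ∀ n : ℕ, ⁅g, h⁆ ^ n ≤ s ^ (2 : ℤ) := by
    intro g hg h hh n
    obtain ⟨a, a1, a2⟩ := C g hg n
    obtain ⟨b, b1, b2⟩ := C h hh n
    have := A _ _ _ _ _ (A _ _ _ _ _ (A _ _ _ _ _ a1 b1) a2) b2
    rwa [show a + 1 + (b + 1) + -a + -b = 2 by ring] at this
  have D : ∀ c ∈ ⁅closure S, closure S⁆, ∃ a b : ℤ, ∀ n : ℕ, c ^ n ≤ s ^ a ∧ c⁻¹ ^ n ≤ s ^ b := by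
    intro c hc
    rw [Subgroup.commutator_def] at hc
    induction hc using closure_induction with
    | mem t ht =>
      obtain ⟨g, hg, h, hh, rfl⟩ := ht
      exact ⟨2, 2, fun n => ⟨C2 g hg h hh n, by
        rw [commutatorElement_inv]; exact C2 h hh g hg n⟩⟩
    | one => exact ⟨0, 0, by simp⟩
    | mul x y _ _ hx hy =>
      obtain ⟨a, b, h1⟩ := hx
      obtain ⟨c, d, h3⟩ := hy
      exact ⟨a + c, d + b, fun n => ⟨A _ _ _ _ _ (h1 n).1 (h3 n).1,
        by rw [mul_inv_rev]; exact A _ _ _ _ _ (h3 n).2 (h1 n).2⟩⟩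
    | inv x _ hx =>
      obtain ⟨a, b, h1⟩ := hx
      exact ⟨b, a, fun n => ⟨(h1 n).2, by rw [inv_inv]; exact (h1 n).1⟩⟩
  obtain ⟨a, _, h⟩ := D s (s3 hs)
  have := (h (a.toNat + 1)).1
  rw [← zpow_natCast] at this
  have := sm.le_iff_le.mp this
  omega

abbrev Om := ℤ ×ₗ WithTop ℚ

def fa (l t : ℚ) (w : Om) : Om := toLex ((ofLex w).1, WithTop.map (fun x => l * x + t) (ofLex w).2)

noncomputable def aff (l t : ℚ) (h : 0 < l) : Om ≃o Om :=
  StrictMono.orderIsoOfSurjective (fa l t) (by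
    intro v w hvw
    rcases Prod.Lex.lt_iff.mp hvw with h1 | ⟨h1, h2⟩
    · exact Prod.Lex.lt_iff.mpr (Or.inl h1)
    · exact Prod.Lex.lt_iff.mpr (Or.inr ⟨h1, (WithTop.strictMono_map_iff.mpr fun x y hxy => by
        simpa [h] using hxy) h2⟩)) (by
    intro w
    refine ⟨fa l⁻¹ (-t / l) w, ?_⟩
    obtain ⟨n, x⟩ := w
    cases x with
    | top => rfl
    | coe x =>
      refine Prod.ext rfl (congrArg (fun y : ℚ => (y : WithTop ℚ)) ?_)
      field_simp
      ring)

def sg : WithTop ℚ → WithTop ℚ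
  | none => (0 : ℚ)
  | some x => if x = 0 then ⊤ else ((-1 / x : ℚ) : WithTop ℚ)

theorem sg_top : sg ⊤ = (0 : ℚ) := rfl
theorem sg_coe (x : ℚ) : sg x = if x = 0 then ⊤ else ((-1 / x : ℚ) : WithTop ℚ) := rfl

theorem sg_sg (x : WithTop ℚ) : sg (sg x) = x := by
  cases x with
  | top => rw [sg_top, sg_coe, if_pos rfl]
  | coe x =>
    rw [sg_coe]
    split_ifs with h
    · rw [h, sg_top]
    · rw [sg_coe, if_neg (by simpa using h)]
      simp

theorem sg_pos (x : WithTop ℚ) : ((0 : ℚ) : WithTop ℚ) < sg x ↔ ¬ ((0 : ℚ) : WithTop ℚ) < x := by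
  cases x with
  | top => simp [sg_top]
  | coe x =>
    rw [sg_coe]
    split_ifs with h
    · simp [h]
    · rw [WithTop.coe_lt_coe, WithTop.coe_lt_coe, neg_div, one_div, neg_pos, inv_lt_zero, not_lt]
      exact ⟨le_of_lt, fun h' => lt_of_le_of_ne h' h⟩

theorem sg_mono {x y : WithTop ℚ} (h : x < y)
    (h1 : ((0 : ℚ) : WithTop ℚ) < x ↔ ((0 : ℚ) : WithTop ℚ) < y) : sg x < sg y := by
  cases x with
  | top => simp at h
  | coe x =>
    cases y with
    | top =>
      have : 0 < x := by simpa using h1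
      rw [sg_top, sg_coe, if_neg this.ne', WithTop.coe_lt_coe]
      exact div_neg_of_neg_of_pos (by norm_num) this
    | coe y =>
      rw [WithTop.coe_lt_coe] at h
      rw [WithTop.coe_lt_coe, WithTop.coe_lt_coe] at h1
      rw [sg_coe, sg_coe]
      rcases lt_trichotomy y 0 with h2 | h2 | h2
      · rw [if_neg h2.ne, if_neg (h.trans h2).ne, WithTop.coe_lt_coe, neg_div, neg_div,
          neg_lt_neg_iff]
        exact (one_div_lt_one_div_of_neg h2 (h.trans h2)).mpr h
      · rw [if_pos h2, if_neg (h2 ▸ h).ne]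
        exact WithTop.coe_lt_top _
      · rw [if_neg h2.ne', if_neg (h1.mpr h2).ne', WithTop.coe_lt_coe, neg_div, neg_div,
          neg_lt_neg_iff]
        exact one_div_lt_one_div_of_lt (h1.mpr h2) h

def fs (w : Om) : Om :=
  toLex ((ofLex w).1 + if ((0 : ℚ) : WithTop ℚ) < (ofLex w).2 then 1 else 0, sg (ofLex w).2)

noncomputable def ss : Om ≃o Om :=
  StrictMono.orderIsoOfSurjective fs (by
    rintro ⟨n, x⟩ ⟨m, y⟩ hvw
    refine Prod.Lex.lt_iff.mpr ?_
    have a1 := sg_pos x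
    have a2 := sg_pos y
    rcases Prod.Lex.lt_iff.mp hvw with h1 | ⟨h1, h2⟩ <;> simp only [fs, ofLex_toLex] <;>
      change _ at h1
    · change n < m at h1
      change n + (if _ < x then 1 else 0) < m + (if _ < y then 1 else 0) ∨
        n + (if _ < x then 1 else 0) = m + (if _ < y then 1 else 0) ∧ sg x < sg y
      split_ifs with b1 b2 b2
      · omega
      · rcases (Int.add_one_le_iff.mpr h1).eq_or_lt with h | h
        · exact Or.inr ⟨by omega, (not_lt.mp fun h => a1.mp h b1).trans_lt (a2.mpr b2)⟩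
        · omega
      · omega
      · omega
    · change n = m at h1
      change x < y at h2
      change n + (if _ < x then 1 else 0) < m + (if _ < y then 1 else 0) ∨
        n + (if _ < x then 1 else 0) = m + (if _ < y then 1 else 0) ∧ sg x < sg y
      split_ifs with b1 b2 b2
      · exact Or.inr ⟨by omega, sg_mono h2 (by simp only [b1, b2])⟩
      · exact absurd (b1.trans h2) b2
      · omega
      · exact Or.inr ⟨by omega, sg_mono h2 (by simp only [b1, b2])⟩) (by
    rintro ⟨n, x⟩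
    refine ⟨toLex (n - if ((0 : ℚ) : WithTop ℚ) < sg x then 1 else 0, sg x), ?_⟩
    exact Prod.ext (sub_add_cancel _ _) (sg_sg x))

def sh (k : ℤ) (w : Om) : Om := toLex ((ofLex w).1 + k, (ofLex w).2)

def HH : Subgroup (Om ≃o Om) where
  carrier := {g | ∀ k w, g (sh k w) = sh k (g w)}
  one_mem' _ _ := rfl
  mul_mem' {a b} ha hb k w := by
    change a (b _) = sh k (a (b w))
    rw [hb, ha]
  inv_mem' {a} ha k w := by
    apply a.injective
    change a (a.symm _) = a (sh k (a.symm w))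
    rw [ha, a.apply_symm_apply, a.apply_symm_apply]

theorem ex_sh {v w : Om} (h : (ofLex v).2 = (ofLex w).2) : ∃ k, v = sh k w :=
  ⟨(ofLex v).1 - (ofLex w).1, Prod.ext (by simp [sh]; rfl) h⟩

theorem snd_eq (g : HH) {v w : Om} (h : (ofLex v).2 = (ofLex w).2) :
    (ofLex (g.1 v)).2 = (ofLex (g.1 w)).2 := by
  obtain ⟨k, rfl⟩ := ex_sh h
  rw [g.2]
  rfl

def pp : HH →* Equiv.Perm (WithTop ℚ) := MonoidHom.toHomPerm {
  toFun g x := (ofLex (g.1 (toLex (0, x)))).2
  map_one' := rfl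
  map_mul' a b := funext fun x => snd_eq a rfl }

theorem pp_apply (g : HH) (x : WithTop ℚ) : pp g x = (ofLex (g.1 (toLex (0, x)))).2 := rfl

theorem ker_ab : ∀ a ∈ pp.rangeRestrict.ker, ∀ b ∈ pp.rangeRestrict.ker, a * b = b * a := by
  intro a ha b hb
  rw [MonoidHom.ker_rangeRestrict, MonoidHom.mem_ker] at ha hb
  have k : ∀ a : HH, pp a = 1 → ∀ w, ∃ k, a.1 w = sh k w := fun a ha w =>
    ex_sh ((snd_eq a (v := w) (w := toLex (0, (ofLex w).2)) rfl).trans
      (by rw [← pp_apply, ha]; rfl))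
  ext w
  obtain ⟨i, hi⟩ := k a ha w
  obtain ⟨j, hj⟩ := k b hb w
  change a.1 (b.1 w) = b.1 (a.1 w)
  rw [hi, hj, a.2, b.2, hi, hj]
  simp [sh, add_right_comm]

noncomputable def ga (l t : ℚ) (h : 0 < l) : pp.range := ⟨_, ⟨aff l t h, fun _ _ => rfl⟩, rfl⟩

noncomputable def gs : pp.range := ⟨_, ⟨ss, fun k w => by
  change fs _ = sh k (fs w)
  exact Prod.ext (add_right_comm _ _ _) rfl⟩, rfl⟩

theorem ga_apply (l t : ℚ) (h : 0 < l) (x : WithTop ℚ) :
    (ga l t h).1 x = WithTop.map (fun x => l * x + t) x := rfl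

theorem gs_apply (x : WithTop ℚ) : gs.1 x = sg x := rfl

theorem ga_mul (l t l' t' a b : ℚ) (h : 0 < l) (h' : 0 < l') (ha : 0 < a) (e1 : l * l' = a)
    (e2 : l * t' + t = b) : ga l t h * ga l' t' h' = ga a b ha := by
  subst e1 e2
  ext x
  rw [Subgroup.coe_mul, Equiv.Perm.mul_apply, ga_apply, ga_apply, ga_apply]
  cases x with
  | top => rfl
  | coe x => exact congrArg (fun y : ℚ => (y : WithTop ℚ)) (by ring)

theorem key (a : ℚ) (h : 0 < a) : ga 1 a one_pos * gs * ga 1 a⁻¹ one_pos * gs * ga 1 a one_pos * gs =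
    ga (a ^ 2) 0 (by positivity) := by
  ext x
  simp only [Subgroup.coe_mul, Equiv.Perm.mul_apply, ga_apply, gs_apply]
  have h0 := h.ne'
  cases x with
  | top =>
    simp only [sg_top, WithTop.map_coe, sg_coe, WithTop.map_top]
    rw [if_neg (by simpa using h0)]
    simp only [WithTop.map_coe, sg_coe]
    rw [if_pos (by field_simp; ring)]
    rfl
  | coe x =>
    rw [sg_coe]
    split_ifs with h1
    · rw [WithTop.map_top, sg_top, WithTop.map_coe, sg_coe, if_neg (by simpa using h0),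
        WithTop.map_coe, WithTop.map_coe, WithTop.coe_inj, h1]
      field_simp
      ring
    rw [WithTop.map_coe, sg_coe]
    split_ifs with h2
    · simp only [WithTop.map_top, sg_top, WithTop.map_coe, WithTop.coe_inj]
      field_simp at h2
      linear_combination (-a) * h2
    have h3 : a * x - 1 ≠ 0 := fun h => h2 (by field_simp; linear_combination h)
    have e : 1 * (-1 / (1 * (-1 / x) + a)) + a⁻¹ = -1 / (a * (a * x - 1)) := by
      rw [show 1 * (-1 / x) + a = (a * x - 1) / x by field_simp; ring]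
      field_simp
      ring
    rw [WithTop.map_coe, sg_coe, e, if_neg (by positivity), WithTop.map_coe, WithTop.map_coe,
      WithTop.coe_inj]
    field_simp
    ring

theorem PF_range : PF pp.range := by
  let S : Set pp.range := {ga 1 1 one_pos, ga 4 0 (by norm_num), ga 9 0 (by norm_num), gs}
  have u1 : ga 1 1 one_pos ∈ closure S := subset_closure (by simp [S])
  have u2 : ga 4 0 (by norm_num) ∈ closure S := subset_closure (by simp [S])
  have u3 : ga 9 0 (by norm_num) ∈ closure S := subset_closure (by simp [S])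
  have u4 : gs ∈ closure S := subset_closure (by simp [S])
  have hc : ∀ g ∈ closure S, ∀ n ∈ ⁅closure S, closure S⁆, g * n * g⁻¹ ∈ ⁅closure S, closure S⁆ :=
    fun g hg => conj_comm _ g fun n hn => mul_mem (mul_mem hg hn) (inv_mem hg)
  have cj : ∀ (l t : ℚ) (h : 0 < l), (ga l 0 h)⁻¹ * ga 1 t one_pos * (ga l 0 h)⁻¹⁻¹ =
      ga 1 (t / l) one_pos := by
    intro l t h
    rw [inv_inv, mul_assoc, inv_mul_eq_iff_eq_mul, ga_mul _ _ _ _ l t _ _ h (by ring) (by ring),
      ga_mul _ _ _ _ l t _ _ h (by ring) (by field_simp; ring)]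
  have ad : ∀ (K : Subgroup pp.range) (a b c : ℚ), a + b = c → ga 1 a one_pos ∈ K →
      ga 1 b one_pos ∈ K → ga 1 c one_pos ∈ K := fun K a b c e ha hb => by
    rw [← ga_mul 1 a 1 b 1 c one_pos one_pos one_pos (by ring) (by linarith)]
    exact mul_mem ha hb
  have v1 : ga 1 (1 / 9) one_pos ∈ closure S := by
    rw [← cj 9 1 (by norm_num), inv_inv]
    exact mul_mem (mul_mem (inv_mem u3) u1) u3
  have v2 : ga 1 (1 / 3) one_pos ∈ ⁅closure S, closure S⁆ := by
    have : ⁅ga 4 0 (by norm_num), ga 1 (1 / 9) one_pos⁆ = ga 1 (1 / 3) one_pos := by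
      rw [commutatorElement_def, mul_inv_eq_iff_eq_mul, mul_inv_eq_iff_eq_mul,
        ga_mul 1 _ 1 _ 1 (4 / 9) _ _ one_pos (by norm_num) (by norm_num),
        ga_mul 4 _ 1 _ 4 (4 / 9) _ _ (by norm_num) (by norm_num) (by norm_num),
        ga_mul 1 _ 4 _ 4 (4 / 9) _ _ (by norm_num) (by norm_num) (by norm_num)]
    rw [← this]
    exact commutator_mem_commutator u2 v1
  have v3 := ad _ _ _ 1 (by norm_num) (ad _ _ _ _ rfl v2 v2) v2
  have v4 := ad _ _ _ 2 (by norm_num) v3 v3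
  have v5 := ad _ _ _ 3 (by norm_num) v4 v3
  have v6 := hc _ (inv_mem u2) _ v4
  rw [cj] at v6
  have g2 : gs * gs = 1 := by
    ext x
    simp only [Subgroup.coe_mul, Equiv.Perm.mul_apply, gs_apply, sg_sg]
    rfl
  have gi : gs⁻¹ = gs := inv_eq_of_mul_eq_one_right g2
  have v7 : gs ∈ ⁅closure S, closure S⁆ := by
    have e := key 1 one_pos
    have e1 : ga (1 ^ 2) 0 (by positivity) = 1 := by
      ext x
      rw [ga_apply]
      cases x <;> simp
    have e2 := hc _ u4 _ v3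
    rw [e1, inv_one, mul_eq_one_iff_inv_eq, mul_assoc (ga 1 1 one_pos), mul_assoc (ga 1 1 one_pos)] at e
    rw [gi] at e2
    rw [← e]
    exact inv_mem (mul_mem (mul_mem v3 e2) v3)
  refine ⟨S, Set.toFinite _, fun h => ?_, (closure_le _).mpr ?_⟩
  · rw [h, mem_bot] at u1
    have := ga_apply 1 1 one_pos (0 : ℚ)
    rw [u1] at this
    simp at this
  · rintro _ (rfl | rfl | rfl | rfl)
    · exact v3
    · have := key 2 two_pos
      norm_num at this v6
      rw [← this]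
      exact mul_mem (mul_mem (mul_mem (mul_mem (mul_mem v4 v7) v6) v7) v4) v7
    · have := key 3 three_pos
      norm_num at this
      rw [← this]
      exact mul_mem (mul_mem (mul_mem (mul_mem (mul_mem v5 v7) v2) v7) v5) v7
    · exact v7

theorem RO : ∃ o : LinearOrder HH, ∀ a b c : HH, a ≤ b → a * c ≤ b * c := by
  have : Countable Om := inferInstanceAs (Countable (ℤ × Option ℚ))
  obtain ⟨e, he⟩ := exists_surjective_nat Om
  let f : HH → Lex (ℕ → Om) := fun g => toLex fun n => g.1.symm (e n)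
  have hf : Function.Injective f := fun a b h => by
    refine Subtype.ext (OrderIso.symm_injective (OrderIso.ext (funext fun w => ?_)))
    obtain ⟨n, rfl⟩ := he w
    exact congrFun h n
  refine ⟨LinearOrder.lift' f hf, fun a b c h => ?_⟩
  change f a ≤ f b at h
  change f (a * c) ≤ f (b * c)
  rcases h.eq_or_lt with h | ⟨i, h1, h2⟩
  · rw [hf h]
  · exact le_of_lt ⟨i, fun j hj => congrArg c.1.symm (h1 j hj), c.1.symm.strictMono h2⟩

end H17BO

/-- The negation of the preceding statement: For every free group F and normal subgroup H, if F/H admits a right-invariant linear order, then F/[H,H] admits a linear order invariant under both left and right multiplication. -/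
theorem result :
    ¬ (∀ (α : Type) (H : Subgroup (FreeGroup α)) [H.Normal],
      (∃ o : LinearOrder (FreeGroup α ⧸ H),
          ∀ a b c : FreeGroup α ⧸ H, a ≤ b → a * c ≤ b * c) →
      ∃ o : LinearOrder (FreeGroup α ⧸ ⁅H, H⁆),
        (∀ a b c : FreeGroup α ⧸ ⁅H, H⁆, a ≤ b → c * a ≤ c * b) ∧
        (∀ a b c : FreeGroup α ⧸ ⁅H, H⁆, a ≤ b → a * c ≤ b * c)) := by
  intro h
  let π : FreeGroup H17BO.HH →* H17BO.HH := FreeGroup.lift id
  have hπ : Function.Surjective π := fun g => ⟨FreeGroup.of g, by simp [π]⟩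
  let e := QuotientGroup.quotientKerEquivOfSurjective π hπ
  obtain ⟨o, ho⟩ := H17BO.RO
  obtain ⟨o', h1, h2⟩ := h H17BO.HH π.ker ⟨LinearOrder.lift' e e.injective, fun a b c hab => by
    change e (a * c) ≤ e (b * c)
    rw [map_mul, map_mul]
    exact ho _ _ _ hab⟩
  refine H17BO.not_PF h1 h2 (H17BO.PF_lift
    (QuotientGroup.lift ⁅π.ker, π.ker⁆ π (Subgroup.commutator_le_left _ _)) ?_ ?_
    (H17BO.PF_lift _ H17BO.pp.rangeRestrict_surjective H17BO.ker_ab H17BO.PF_range))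
  · intro g
    obtain ⟨x, rfl⟩ := hπ g
    exact ⟨x, rfl⟩
  · intro a ha b hb
    obtain ⟨a, rfl⟩ := QuotientGroup.mk_surjective a
    obtain ⟨b, rfl⟩ := QuotientGroup.mk_surjective b
    rw [← QuotientGroup.mk_mul, ← QuotientGroup.mk_mul, QuotientGroup.eq]
    have := Subgroup.commutator_mem_commutator (H₁ := π.ker) (H₂ := π.ker) (inv_mem hb) (inv_mem ha)
    simpa [commutatorElement_def, mul_assoc] using this

end Pool.Agent.S03530
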