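import Pool.Statements.S03547
import Pool.Agent.Lib.helper4.SmallPart

set_option autoImplicit false
universe u
open Pool Pool.MP_f49b6d_al

namespace Pool.Agent.S03547

/-- Every infinite group G has a coloring by natural numbers whose color classes are all ∣G∣-small. A class A is ∣G∣-small if, whenever fewer than ∣G∣ left (right) translates of L cover G, fewer than ∣G∣ left (right) translates of L minus A also cover G. -/
theorem result :
    ∀ (G : Type u) [Group G] [Infinite G],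
      ∃ f : G → ℕ, ∀ n : ℕ,
        (∀ L : Set G,
          (∃ F : Set G, Cardinal.mk F < Cardinal.mk G ∧
              ∀ g : G, ∃ x ∈ F, ∃ y ∈ L, g = x * y) →
          (∃ F : Set G, Cardinal.mk F < Cardinal.mk G ∧
              ∀ g : G, ∃ x ∈ F, ∃ y ∈ L, f y ≠ n ∧ g = x * y)) ∧
        (∀ L : Set G,
          (∃ F : Set G, Cardinal.mk F < Cardinal.mk G ∧
              ∀ g : G, ∃ x ∈ F, ∃ y ∈ L, g = y * x) →
          (∃ F : Set G, Cardinal.mk F < Cardinal.mk G ∧
              ∀ g : G, ∃ x ∈ F, ∃ y ∈ L, f y ≠ n ∧ g = y * x)) := by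
  intro G _ _
  obtain ⟨c, hc⟩ := Pool.Agent.H4Small.exists_thick G
  refine ⟨fun g => max (c g) (c g⁻¹), fun n => ⟨fun L hL => ?_, fun L hL => ?_⟩⟩
  · obtain ⟨F, h1, h2⟩ := Pool.Agent.H4Small.small_of_thick (A := {g | c g ≤ n}) (fun F hF => by
      obtain ⟨F', a1, a2⟩ := hc F hF (n + 1)
      refine ⟨F', a1, fun x => ?_⟩
      obtain ⟨u, u1, u2⟩ := a2 x
      exact ⟨u, u1, fun f hf (h : c _ ≤ n) => by have := u2 f hf; omega⟩) L hL
    refine ⟨F, h1, fun g => ?_⟩
    obtain ⟨x, hx, y, hy, a1, a2⟩ := h2 g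
    refine ⟨x, hx, y, hy, fun e => a1 ?_, a2⟩
    exact (le_max_left _ _).trans e.le
  · obtain ⟨F, h1, h2⟩ := Pool.Agent.H4Small.small_of_thick (A := {g | c g ≤ n}) (fun F hF => by
      obtain ⟨F', a1, a2⟩ := hc F hF (n + 1)
      refine ⟨F', a1, fun x => ?_⟩
      obtain ⟨u, u1, u2⟩ := a2 x
      exact ⟨u, u1, fun f hf (h : c _ ≤ n) => by have := u2 f hf; omega⟩) L⁻¹ (by
      obtain ⟨F, a1, a2⟩ := hL
      refine ⟨F⁻¹, by simpa using a1, fun g => ?_⟩
      obtain ⟨x, hx, y, hy, e⟩ := a2 g⁻¹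
      exact ⟨x⁻¹, by simpa using hx, y⁻¹, by simpa using hy, by rw [← mul_inv_rev, ← e, inv_inv]⟩)
    refine ⟨F⁻¹, by simpa using h1, fun g => ?_⟩
    obtain ⟨x, hx, y, hy, a1, a2⟩ := h2 g⁻¹
    refine ⟨x⁻¹, by simpa using hx, y⁻¹, by simpa using hy, fun e => a1 ?_,
      by rw [← mul_inv_rev, ← a2, inv_inv]⟩
    have := (le_max_right _ _).trans e.le
    simpa using this

end Pool.Agent.S03547
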