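import Pool.Statements.S03570
-- import your own Pool.Agent.* helpers here

set_option autoImplicit false
open Pool Pool.MP_f67ce1_al

namespace Pool.Agent.S03570

theorem proj_of_dual {R M ι : Type} [Ring R] [AddCommGroup M] [Module R M]
    (φ : ι → M →ₗ[R] R) (u : ι → M)
    (h : ∀ x, ∃ s : Finset ι, (∀ a ∉ s, φ a x = 0) ∧ ∑ a ∈ s, φ a x • u a = x) :
    Module.Projective R M := by
  classical
  have hf : ∀ x, (Function.support fun a => φ a x).Finite := fun x => by
    obtain ⟨s, hs, -⟩ := h x
    exact s.finite_toSet.subset fun a ha => by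
      by_contra hc
      exact ha (hs a hc)
  let i : M →ₗ[R] (ι →₀ R) :=
    { toFun := fun x => Finsupp.ofSupportFinite (fun a => φ a x) (hf x)
      map_add' := fun x y => by ext a; simp [Finsupp.ofSupportFinite_coe]
      map_smul' := fun r x => by ext a; simp [Finsupp.ofSupportFinite_coe] }
  refine Module.Projective.of_split i (Finsupp.linearCombination R u) (LinearMap.ext fun x => ?_)
  obtain ⟨s, hs, e⟩ := h x
  rw [LinearMap.comp_apply, Finsupp.linearCombination_apply,
    Finsupp.sum_of_support_subset (i x) (s := s) (fun a ha => by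
      by_contra hc
      exact Finsupp.mem_support_iff.1 ha (hs a hc)) _ (by simp)]
  exact e

abbrev U : Type := ℕ → ℚ
abbrev D : Type := U →ₗ[ℚ] ℚ
abbrev E : Type := Module.End ℚ U

def R : Subring E where
  carrier := {x | (∀ (i : ℕ) (v : U), (∀ j ≤ i, v j = 0) → x v i = 0) ∧
    ∃ (c : ℚ) (N : ℕ), ∀ i, N ≤ i → ∀ v : U, x v i = c * v i}
  mul_mem' := by
    rintro x y ⟨h1, c, N, h2⟩ ⟨h3, d, M, h4⟩
    refine ⟨fun i v hv => h1 i _ fun j hj => h3 j v fun l hl => hv l (hl.trans hj),
      c * d, N + M, fun i hi v => ?_⟩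
    rw [Module.End.mul_apply, h2 i (by omega), h4 i (by omega), mul_assoc]
  one_mem' := ⟨fun i v hv => hv i le_rfl, 1, 0, fun i _ v => by simp⟩
  add_mem' := by
    rintro x y ⟨h1, c, N, h2⟩ ⟨h3, d, M, h4⟩
    refine ⟨fun i v hv => by simp [h1 i v hv, h3 i v hv], c + d, N + M, fun i hi v => ?_⟩
    simp [h2 i (by omega), h4 i (by omega), add_mul]
  zero_mem' := ⟨fun i v _ => rfl, 0, 0, fun i _ v => by simp⟩
  neg_mem' := by
    rintro x ⟨h1, c, N, h2⟩
    exact ⟨fun i v hv => by simp [h1 i v hv], -c, N, fun i hi v => by simp [h2 i hi]⟩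

def δ (m : ℕ) : U := Pi.single m 1

theorem expand (l : D) (j N : ℕ) (hj : j < N) (h : ∀ v : U, (∀ i ≤ j, v i = 0) → l v = 0) (v : U) :
    l v = ∑ m ∈ Finset.range N, l (δ m) * v m := by
  have := h (v - ∑ m ∈ Finset.range N, v m • δ m) (fun i hi => by
    simp only [Pi.sub_apply, Finset.sum_apply, Pi.smul_apply, δ, Pi.single_apply, smul_eq_mul,
      mul_ite, mul_one, mul_zero]
    rw [Finset.sum_ite_eq, if_pos (Finset.mem_range.2 (by omega)), sub_self])
  rw [map_sub, sub_eq_zero, map_sum] at this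
  rw [this]
  exact Finset.sum_congr rfl fun m _ => by rw [map_smul, smul_eq_mul, mul_comm]

def row (i : ℕ) (x : R) : D := (LinearMap.proj i : D).comp x.1

theorem row_apply (i : ℕ) (x : R) (v : U) : row i x v = x.1 v i := rfl

theorem row_mul (i : ℕ) (r y : R) :
    row i (r * y) = ∑ l ∈ Finset.range (i + 1), r.1 (δ l) i • row l y := by
  refine LinearMap.ext fun v => ?_
  have := expand (row i r) i (i + 1) (by omega) (r.2.1 i) (y.1 v)
  rw [LinearMap.sum_apply]
  exact this

def sc (c : ℚ) : R := ⟨c • (1 : E), fun i v hv => by simp [hv i le_rfl], c, 0, fun i _ v => by simp⟩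

def e (i j : ℕ) (h : j ≤ i) : R :=
  ⟨(LinearMap.proj j : D).smulRight (δ i), fun l v hv => by
      by_cases hl : l = i
      · simp [hv j (by omega)]
      · simp [δ, hl],
    0, i + 1, fun l hl v => by
      have : l ≠ i := by omega
      simp [δ, this]⟩

theorem e_apply (i j : ℕ) (h : j ≤ i) (v : U) (l : ℕ) :
    (e i j h).1 v l = if l = i then v j else 0 := by
  simp [e, δ, Pi.single_apply]

section
variable (I : Submodule R R)

def W (i : ℕ) : Submodule ℚ D where
  carrier := {l | ∃ x ∈ I, row i x = l}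
  add_mem' := by
    rintro _ _ ⟨x, hx, rfl⟩ ⟨y, hy, rfl⟩
    exact ⟨x + y, I.add_mem hx hy, rfl⟩
  zero_mem' := ⟨0, I.zero_mem, rfl⟩
  smul_mem' := by
    rintro c _ ⟨x, hx, rfl⟩
    exact ⟨sc c * x, I.smul_mem _ hx, rfl⟩

theorem W_mono {i j : ℕ} (h : i ≤ j) : W I i ≤ W I j := by
  rintro _ ⟨x, hx, rfl⟩
  refine ⟨e j i h * x, I.smul_mem _ hx, LinearMap.ext fun v => ?_⟩
  show (e j i h).1 (x.1 v) j = x.1 v i
  rw [e_apply, if_pos rfl]

theorem W_low {j : ℕ} {l : D} (h : l ∈ W I j) (v : U) (hv : ∀ i ≤ j, v i = 0) : l v = 0 := by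
  obtain ⟨x, -, rfl⟩ := h
  exact x.2.1 j v hv

theorem exists_q (i : ℕ) : ∃ q : D →ₗ[ℚ] D, (∀ l, q l ∈ W I i) ∧ ∀ l ∈ W I i, q l = l := by
  obtain ⟨g, hg⟩ := LinearMap.exists_leftInverse_of_injective (W I i).subtype (by simp)
  refine ⟨(W I i).subtype.comp g, fun l => (g l).2, fun l hl => ?_⟩
  have := LinearMap.congr_fun hg ⟨l, hl⟩
  exact congrArg Subtype.val this

noncomputable def q (i : ℕ) : D →ₗ[ℚ] D := (exists_q I i).choose
theorem q_mem (i : ℕ) (l : D) : q I i l ∈ W I i := (exists_q I i).choose_spec.1 l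
theorem q_id {i : ℕ} {l : D} (h : l ∈ W I i) : q I i l = l := (exists_q I i).choose_spec.2 l h

noncomputable def ρ (j : ℕ) : ℕ → D →ₗ[ℚ] D
  | 0 => if j = 0 then LinearMap.id else 0
  | i + 1 => if j = i + 1 then LinearMap.id - q I i else (ρ j i).comp (q I i)

theorem ρ_zero (j i : ℕ) (h : i < j) (l : D) : ρ I j i l = 0 := by
  induction i generalizing l with
  | zero => rw [ρ, if_neg (by omega)]; rfl
  | succ i ih => rw [ρ, if_neg (by omega), LinearMap.comp_apply, ih (by omega)]

theorem ρ_mem (j i : ℕ) (l : D) (h : l ∈ W I i) : ρ I j i l ∈ W I j := by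
  induction i generalizing l with
  | zero =>
    rw [ρ]
    split_ifs with hj
    · subst hj; exact h
    · exact zero_mem _
  | succ i ih =>
    rw [ρ]
    split_ifs with hj
    · subst hj
      exact sub_mem h (W_mono I (by omega) (q_mem I i l))
    · exact ih _ (q_mem I i l)

theorem ρ_stab (j i i' : ℕ) (hi : i ≤ i') (l : D) (h : l ∈ W I i) : ρ I j i' l = ρ I j i l := by
  induction i', hi using Nat.le_induction with
  | base => rfl
  | succ n hn ih =>
    have hq := q_id I (W_mono I hn h)
    rw [ρ]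
    split_ifs with hj
    · rw [ρ_zero I j i (by omega), LinearMap.sub_apply, hq]; simp
    · rw [LinearMap.comp_apply, hq, ih]

theorem ρ_sum (i : ℕ) (l : D) : ∑ j ∈ Finset.range (i + 1), ρ I j i l = l := by
  induction i generalizing l with
  | zero => simp [ρ]
  | succ i ih =>
    rw [Finset.sum_range_succ, Finset.sum_congr rfl (g := fun j => ρ I j i (q I i l)), ih]
    · simp [ρ]
    · intro j hj
      rw [ρ, if_neg (by have := Finset.mem_range.1 hj; omega)]; rfl

theorem exists_g : ∃ g ∈ I, ∀ x ∈ I, ∃ N, ∀ i, N ≤ i → row i (x * (1 - g)) = 0 := by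
  by_cases h : ∀ x ∈ I, ∃ N, ∀ i, N ≤ i → row i x = 0
  · exact ⟨0, I.zero_mem, fun x hx => by simpa using h x hx⟩
  · push Not at h
    obtain ⟨x, hx, h⟩ := h
    obtain ⟨c, N, hc⟩ := x.2.2
    have hc0 : c ≠ 0 := by
      rintro rfl
      obtain ⟨i, hi, h0⟩ := h N
      exact h0 (LinearMap.ext fun v => by simpa [row_apply] using hc i hi v)
    refine ⟨sc c⁻¹ * x, I.smul_mem _ hx, fun y _ => ?_⟩
    obtain ⟨d, M, hd⟩ := y.2.2
    refine ⟨N + M, fun i hi => LinearMap.ext fun v => ?_⟩
    show y.1 (v - c⁻¹ • x.1 v) i = 0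
    rw [hd i (by omega), Pi.sub_apply, Pi.smul_apply, hc i (by omega), smul_eq_mul,
      inv_mul_cancel_left₀ hc0, sub_self, mul_zero]

theorem hered : Module.Projective R I := by
  classical
  obtain ⟨g, hg, hfin⟩ := exists_g I
  have hmem : ∀ x : I, x.1 * (1 - g) ∈ I := fun x => by
    rw [mul_sub, mul_one]
    exact I.sub_mem x.2 (I.smul_mem _ hg)
  let c : ℕ → ℕ → I → U := fun j m x i => ρ I j i (row i (x.1 * (1 - g))) (δ m)
  have hcR : ∀ j m x, (LinearMap.proj j : D).smulRight (c j m x) ∈ R := by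
    intro j m x
    obtain ⟨N, hN⟩ := hfin x.1 x.2
    refine ⟨fun i v hv => ?_, 0, N, fun i hi v => ?_⟩
    · by_cases hj : j ≤ i
      · simp [hv j hj]
      · simp [c, ρ_zero I j i (by omega)]
    · simp [c, hN i hi]
  let φ : ℕ × ℕ → I →ₗ[R] R := fun a =>
    { toFun := fun x => ⟨_, hcR a.1 a.2 x⟩
      map_add' := fun x y => by
        refine Subtype.ext (LinearMap.ext fun v => funext fun i => ?_)
        have : row i ((x + y : I).1 * (1 - g)) =
            row i (x.1 * (1 - g)) + row i (y.1 * (1 - g)) := by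
          rw [Submodule.coe_add, add_mul]; rfl
        show v a.1 * c a.1 a.2 (x + y) i = v a.1 * c a.1 a.2 x i + v a.1 * c a.1 a.2 y i
        simp only [c]
        rw [this, map_add, LinearMap.add_apply, mul_add]
      map_smul' := fun r x => by
        refine Subtype.ext (LinearMap.ext fun v => funext fun i => ?_)
        have h1 : row i ((r • x : I).1 * (1 - g)) = row i (r * (x.1 * (1 - g))) := by
          rw [Submodule.coe_smul, smul_eq_mul, mul_assoc]
        show v a.1 * c a.1 a.2 (r • x) i = r.1 (v a.1 • c a.1 a.2 x) i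
        rw [map_smul, Pi.smul_apply, smul_eq_mul]
        congr 1
        have h2 := expand (row i r) i (i + 1) (by omega) (r.2.1 i) (c a.1 a.2 x)
        rw [row_apply] at h2
        rw [h2]
        simp only [c]
        rw [h1, row_mul, map_sum, LinearMap.sum_apply]
        refine Finset.sum_congr rfl fun l hl => ?_
        rw [map_smul, ρ_stab I a.1 l i (by have := Finset.mem_range.1 hl; omega) _
          ⟨_, hmem x, rfl⟩]
        rfl }
  have hu : ∀ a : ℕ × ℕ, ∃ y : I, ∀ v i, y.1.1 v i =
      if i = a.1 then q I a.1 (LinearMap.proj a.2) v else 0 := by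
    intro a
    obtain ⟨x, hx, h⟩ := q_mem I a.1 (LinearMap.proj a.2)
    refine ⟨⟨e a.1 a.1 le_rfl * x, I.smul_mem _ hx⟩, fun v i => ?_⟩
    show (e a.1 a.1 le_rfl).1 (x.1 v) i = _
    rw [e_apply, ← h]; rfl
  choose u hu using hu
  refine proj_of_dual (ι := Option (ℕ × ℕ)) (fun a => a.elim I.subtype φ)
    (fun a => a.elim ⟨g, hg⟩ u) fun x => ?_
  obtain ⟨N, hN⟩ := hfin x.1 x.2
  refine ⟨Finset.insertNone (Finset.range N ×ˢ Finset.range N), ?_, ?_⟩
  · rintro (_ | ⟨j, m⟩) ha
    · simp at ha
    · refine Subtype.ext (LinearMap.ext fun v => funext fun i => ?_)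
      show v j * c j m x i = 0
      have : c j m x i = 0 := by
        simp only [c]
        by_cases hi : N ≤ i
        · simp [hN i hi]
        by_cases hj : i < j
        · simp [ρ_zero I j i hj]
        have hm : N ≤ m := by
          simp only [Finset.some_mem_insertNone, Finset.mem_product, Finset.mem_range] at ha
          omega
        refine W_low I (ρ_mem I j i _ ⟨_, hmem x, rfl⟩) _ fun l hl => ?_
        have : l ≠ m := by omega
        simp [δ, this]
      rw [this, mul_zero]
  · rw [Finset.sum_insertNone]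
    have key : ∑ a ∈ Finset.range N ×ˢ Finset.range N, (φ a x • u a).1 = x.1 * (1 - g) := by
      refine Subtype.ext (LinearMap.ext fun v => funext fun i => ?_)
      rw [AddSubmonoidClass.coe_finsetSum, LinearMap.sum_apply, Finset.sum_apply,
        Finset.sum_product]
      have h1 : ∀ j ∈ Finset.range N, ∑ m ∈ Finset.range N, (φ (j, m) x • u (j, m)).1.1 v i =
          ρ I j i (row i (x.1 * (1 - g))) v := by
        intro j hj
        have hW := ρ_mem I j i _ ⟨_, hmem x, rfl⟩
        have h2 : ρ I j i (row i (x.1 * (1 - g))) =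
            ∑ m ∈ Finset.range N, c j m x i • (LinearMap.proj m : D) := by
          refine LinearMap.ext fun w => ?_
          rw [expand _ j N (Finset.mem_range.1 hj) (W_low I hW), LinearMap.sum_apply]
          rfl
        rw [← q_id I hW, h2, map_sum, LinearMap.sum_apply]
        refine Finset.sum_congr rfl fun m _ => ?_
        show (u (j, m)).1.1 v j * c j m x i = _
        rw [hu, if_pos rfl, map_smul, LinearMap.smul_apply, smul_eq_mul, mul_comm]
      rw [Finset.sum_congr rfl h1, ← row_apply]
      by_cases hi : N ≤ i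
      · simp [hN i hi]
      · rw [← LinearMap.sum_apply, ← Finset.sum_subset (s₁ := Finset.range (i + 1))
          (Finset.range_subset_range.2 (by omega))
          (fun j _ hj => ρ_zero I j i (by simpa using hj) _), ρ_sum]
    refine Subtype.ext ?_
    rw [Submodule.coe_add, AddSubmonoidClass.coe_finsetSum]
    show x.1 * g + ∑ a ∈ Finset.range N ×ˢ Finset.range N, (φ a x • u a).1 = x.1
    rw [key, mul_sub, mul_one, add_sub_cancel]

end

def chain : ℕ → List R
  | 0 => []
  | n + 1 => e (n + 1) n (by omega) :: chain n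

theorem chain_len (n : ℕ) : (chain n).length = n := by
  induction n with
  | zero => rfl
  | succ n ih => simp [chain, ih]

theorem chain_mem (n : ℕ) : ∀ x ∈ chain n, ∃ i, x = e (i + 1) i (by omega) := by
  induction n with
  | zero => simp [chain]
  | succ n ih =>
    intro x hx
    rcases List.mem_cons.1 hx with h | h
    · exact ⟨n, h⟩
    · exact ih x h

theorem chain_prod (n : ℕ) : ((chain n).prod).1 (δ 0) n = 1 := by
  induction n with
  | zero => simp [chain, δ]
  | succ n ih =>
    rw [chain, List.prod_cons]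
    show (e (n + 1) n (by omega)).1 ((chain n).prod.1 (δ 0)) (n + 1) = 1
    rw [e_apply, if_pos rfl, ih]

theorem sq_zero (i : ℕ) (r : R) : e (i + 1) i (by omega) * r * e (i + 1) i (by omega) = 0 := by
  refine Subtype.ext (LinearMap.ext fun v => funext fun l => ?_)
  show (e (i + 1) i (by omega)).1 (r.1 ((e (i + 1) i (by omega)).1 v)) l = 0
  rw [e_apply, r.2.1 i _ fun j hj => by rw [e_apply, if_neg (by omega)]]
  simp

/-- The negation of the preceding statement: For every ring whose left ideals are all projective, its prime radical (intersection of all prime two-sided ideals) is nilpotent, and the quotient of the ring by the prime radical again has all left ideals projective. -/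
theorem result :
    ¬ (∀ (R : Type) [Ring R], (∀ I : Submodule R R, Module.Projective R I) →
      (∃ n : ℕ, ∀ l : List R, l.length = n →
          (∀ x ∈ l, ∀ J : TwoSidedIdeal R,
            ((∃ y : R, y ∉ J) ∧ ∀ a b : R, (∀ r : R, a * r * b ∈ J) → a ∈ J ∨ b ∈ J) →
              x ∈ J) →
          l.prod = 0) ∧
      ∀ (S : Type) [Ring S] (f : R →+* S), Function.Surjective f →
        (∀ x : R, f x = 0 ↔
          ∀ J : TwoSidedIdeal R,
            ((∃ y : R, y ∉ J) ∧ ∀ a b : R, (∀ r : R, a * r * b ∈ J) → a ∈ J ∨ b ∈ J) →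
              x ∈ J) →
        ∀ I : Submodule S S, Module.Projective S I) := by
  intro h
  obtain ⟨⟨n, hn⟩, -⟩ := h R hered
  have := hn (chain n) (chain_len n) (fun x hx J hJ => by
    obtain ⟨i, rfl⟩ := chain_mem n x hx
    exact (hJ.2 _ _ fun r => by rw [sq_zero]; exact J.zero_mem).elim id id)
  have h2 := chain_prod n
  rw [this] at h2
  simp at h2

end Pool.Agent.S03570
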