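import Pool.Statements.S03590

set_option autoImplicit false
open Pool Pool.MP_f85ae1_al

namespace Pool.Agent.S03590

open MvPolynomial in
/-- chain rule along a polynomial curve -/
lemma chain {k : Type} [Field k] {σ : Type} [Fintype σ] [DecidableEq σ] (c : σ → Polynomial k)
    (f : MvPolynomial σ k) :
    Polynomial.derivative (MvPolynomial.aeval c f) =
      ∑ i, MvPolynomial.aeval c (MvPolynomial.pderiv i f) * Polynomial.derivative (c i) := by
  induction f using MvPolynomial.induction_on with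
  | C a => simp
  | add f g hf hg => simp [hf, hg, add_mul, Finset.sum_add_distrib]
  | mul_X f j hf =>
    simp only [map_mul, MvPolynomial.aeval_X, Polynomial.derivative_mul, hf, Derivation.leibniz,
      smul_eq_mul, map_add, add_mul, Finset.sum_add_distrib, MvPolynomial.pderiv_X]
    rw [add_comm]
    congr 1
    · rw [Finset.sum_eq_single j]
      · simp
      · intro i _ hij
        simp [Pi.single_apply, hij.symm]
      · simp
    · rw [Finset.sum_mul]
      refine Finset.sum_congr rfl fun i _ => by ring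

lemma eval_aeval {k : Type} [Field k] {σ : Type} (c : σ → Polynomial k) (f : MvPolynomial σ k) (s : k) :
    Polynomial.eval s (MvPolynomial.aeval c f) = MvPolynomial.eval (fun i => (c i).eval s) f := by
  induction f using MvPolynomial.induction_on with
  | C a => simp
  | add f g hf hg => simp [hf, hg]
  | mul_X f j hf => simp [hf]

/-- tangent vectors of curves -/
lemma tangent {k : Type} [Field k] [Infinite k] {σ : Type} [Fintype σ] [DecidableEq σ]
    (c : σ → Polynomial k) (f : MvPolynomial σ k)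
    (h : ∀ s : k, s ≠ -1 → MvPolynomial.eval (fun i => (c i).eval s) f = 0) :
    ∑ i, MvPolynomial.eval (fun i => (c i).eval 0) (MvPolynomial.pderiv i f) *
      (Polynomial.derivative (c i)).eval 0 = 0 := by
  have h0 : MvPolynomial.aeval c f = 0 := by
    apply Polynomial.eq_zero_of_infinite_isRoot
    have : ({-1} : Set k)ᶜ ⊆ {x | (MvPolynomial.aeval c f).IsRoot x} := by
      intro s hs
      simp only [Set.mem_ofPred_eq, Polynomial.IsRoot, eval_aeval]
      exact h s hs
    exact Set.Infinite.mono this (Set.Finite.infinite_compl (Set.finite_singleton _))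
  have h1 := congrArg (Polynomial.eval 0) (chain c f)
  rw [h0] at h1
  simp only [map_zero, Polynomial.eval_zero, Polynomial.eval_finsetSum, Polynomial.eval_mul,
    eval_aeval] at h1
  exact h1.symm

abbrev K : Type := AlgebraicClosure (ZMod 2)

def P (g : Matrix (Fin 3) (Fin 3) K) : Prop :=
  g 1 0 = 0 ∧ g 2 0 = 0 ∧ g 2 1 = 0 ∧ g 2 2 = 1 ∧ g 0 0 = g 1 1 ^ 2 ∧ g 0 1 = g 1 1 * g 1 2

lemma P_mul {g h : Matrix (Fin 3) (Fin 3) K} (hg : P g) (hh : P h) : P (g * h) := by
  obtain ⟨a1, a2, a3, a4, a5, a6⟩ := hg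
  obtain ⟨b1, b2, b3, b4, b5, b6⟩ := hh
  simp only [P, Matrix.mul_apply, Fin.sum_univ_three, a1, a2, a3, a4, a5, a6, b1, b2, b3, b4, b5, b6]
  refine ⟨by ring, by ring, by ring, by ring, by ring, by ring⟩

def S : Subgroup (Matrix.GeneralLinearGroup (Fin 3) K) where
  carrier := {g | P (g : Matrix (Fin 3) (Fin 3) K) ∧ P ((g⁻¹ : Matrix.GeneralLinearGroup (Fin 3) K) : Matrix (Fin 3) (Fin 3) K)}
  mul_mem' := by
    rintro a b ⟨h1, h2⟩ ⟨h3, h4⟩
    refine ⟨?_, ?_⟩
    · rw [Units.val_mul]; exact P_mul h1 h3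
    · rw [mul_inv_rev, Units.val_mul]; exact P_mul h4 h2
  one_mem' := by
    refine ⟨?_, ?_⟩ <;> simp [P]
  inv_mem' := by
    rintro a ⟨h1, h2⟩
    exact ⟨h2, by simpa using h1⟩

/-- the general element -/
noncomputable def el (t a b : K) (ht : t ≠ 0) : Matrix.GeneralLinearGroup (Fin 3) K where
  val := !![t ^ 2, t * a, b; 0, t, a; 0, 0, 1]
  inv := !![(t⁻¹) ^ 2, t⁻¹ * (-(a * t⁻¹)), (a ^ 2 - b) * (t⁻¹) ^ 2; 0, t⁻¹, -(a * t⁻¹); 0, 0, 1]
  val_inv := by
    ext i j
    fin_cases i <;> fin_cases j <;> simp [Matrix.mul_apply, Fin.sum_univ_three] <;> field_simp <;> ring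
  inv_val := by
    ext i j
    fin_cases i <;> fin_cases j <;> simp [Matrix.mul_apply, Fin.sum_univ_three] <;> field_simp <;> ring

lemma el_mem (t a b : K) (ht : t ≠ 0) : el t a b ht ∈ S := by
  refine ⟨?_, ?_⟩
  · simp [P, el]
  · show P !![(t⁻¹) ^ 2, t⁻¹ * (-(a * t⁻¹)), (a ^ 2 - b) * (t⁻¹) ^ 2; 0, t⁻¹, -(a * t⁻¹); 0, 0, 1]
    simp [P]

def G : Set (Matrix (Fin 3) (Fin 3) K) :=
  {X : Matrix (Fin 3) (Fin 3) K |
        ∀ f : MvPolynomial (Fin 3 × Fin 3) K,
          (∀ g ∈ S, MvPolynomial.eval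
              (fun ij : Fin 3 × Fin 3 => (g : Matrix (Fin 3) (Fin 3) K) ij.1 ij.2) f = 0) →
          ∑ ij : Fin 3 × Fin 3,
            MvPolynomial.eval
              (fun ij' : Fin 3 × Fin 3 => (1 : Matrix (Fin 3) (Fin 3) K) ij'.1 ij'.2)
              (MvPolynomial.pderiv ij f) * X ij.1 ij.2 = 0}

lemma two_eq : (2 : K) = 0 := CharP.ofNat_eq_zero K 2

open MvPolynomial in
lemma G_upper {X : Matrix (Fin 3) (Fin 3) K} (hX : X ∈ G) :
    X 1 0 = 0 ∧ X 2 0 = 0 ∧ X 2 1 = 0 ∧ X 2 2 = 0 ∧ X 0 0 = 0 ∧ X 0 1 = X 1 2 := by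
  have h1 := hX (MvPolynomial.X (1, 0)) (fun g hg => by simpa using hg.1.1)
  have h2 := hX (MvPolynomial.X (2, 0)) (fun g hg => by simpa using hg.1.2.1)
  have h3 := hX (MvPolynomial.X (2, 1)) (fun g hg => by simpa using hg.1.2.2.1)
  have h4 := hX (MvPolynomial.X (2, 2) - 1) (fun g hg => by
    have := hg.1.2.2.2.1
    simp [this])
  have h5 := hX (MvPolynomial.X (0, 0) - MvPolynomial.X (1, 1) * MvPolynomial.X (1, 1)) (fun g hg => by
    have := hg.1.2.2.2.2.1
    simp [this, sq])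
  have h6 := hX (MvPolynomial.X (0, 1) - MvPolynomial.X (1, 1) * MvPolynomial.X (1, 2)) (fun g hg => by
    have := hg.1.2.2.2.2.2
    simp [this])
  simp [Fintype.sum_prod_type, Fin.sum_univ_three, Pi.single_apply, Matrix.one_apply] at h1 h2 h3 h4 h5 h6
  refine ⟨h1, h2, h3, h4, ?_, ?_⟩
  · have := two_eq
    linear_combination h5 + X 1 1 * this
  · linear_combination h6

/-- every tangent direction of the three coordinate curves lies in `G` -/
lemma G_lower (x y z : K) (hx : x = 0 ∨ x = 1) : (!![0, y, z; 0, x, y; 0, 0, 0] : Matrix (Fin 3) (Fin 3) K) ∈ G := by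
  intro f hf
  let T : Polynomial K := 1 + Polynomial.C x * Polynomial.X
  let A : Polynomial K := Polynomial.C y * Polynomial.X
  let B : Polynomial K := Polynomial.C z * Polynomial.X
  let c : Fin 3 × Fin 3 → Polynomial K := fun ij =>
    (!![T ^ 2, T * A, B; 0, T, A; 0, 0, 1] : Matrix (Fin 3) (Fin 3) (Polynomial K)) ij.1 ij.2
  have h := tangent c f (fun s hs => by
    have ht : (1 + x * s) ≠ 0 := by
      rcases hx with rfl | rfl
      · simp
      · intro h; apply hs; linear_combination h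
    have := hf _ (el_mem (1 + x * s) (y * s) (z * s) ht)
    rw [← this]
    congr 2
    funext ij
    obtain ⟨i, j⟩ := ij
    fin_cases i <;> fin_cases j <;> simp [c, T, A, B, el])
  have e1 : (fun i => (c i).eval 0) =
      (fun ij' : Fin 3 × Fin 3 => (1 : Matrix (Fin 3) (Fin 3) K) ij'.1 ij'.2) := by
    funext ij
    obtain ⟨i, j⟩ := ij
    fin_cases i <;> fin_cases j <;> simp [c, T, A, B]
  rw [e1] at h
  refine Eq.trans ?_ h
  refine Finset.sum_congr rfl fun ij _ => ?_
  congr 1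
  obtain ⟨i, j⟩ := ij
  have h2 := two_eq
  fin_cases i <;> fin_cases j <;> simp [c, T, A, B, Polynomial.derivative_sq, h2]

noncomputable def entry (i j : Fin 3) : Matrix (Fin 3) (Fin 3) K →ₗ[K] K where
  toFun X := X i j
  map_add' _ _ := rfl
  map_smul' _ _ := rfl

noncomputable def rho : Matrix (Fin 3) (Fin 3) K →ₗ[K] Module.End K K :=
  (entry 0 2).smulRight (1 : Module.End K K)

noncomputable def chi : Matrix (Fin 3) (Fin 3) K →ₗ[K] K := entry 0 2 - entry 0 1

noncomputable def v : Fin 3 → Matrix (Fin 3) (Fin 3) K :=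
  ![!![0, 0, 0; 0, 1, 0; 0, 0, 0], !![0, 1, 0; 0, 0, 1; 0, 0, 0], !![0, 0, 1; 0, 0, 0; 0, 0, 0]]

lemma v_mem (i : Fin 3) : v i ∈ G := by
  fin_cases i
  · exact G_lower 1 0 0 (Or.inr rfl)
  · exact G_lower 0 1 0 (Or.inl rfl)
  · exact G_lower 0 0 1 (Or.inl rfl)

lemma v_li : LinearIndependent K v := by
  rw [Fintype.linearIndependent_iff]
  intro g hg i
  have h1 := congrFun (congrFun hg 1) 1
  have h2 := congrFun (congrFun hg 0) 1
  have h3 := congrFun (congrFun hg 0) 2
  simp [Fin.sum_univ_three, v] at h1 h2 h3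
  fin_cases i
  · exact h1
  · exact h2
  · exact h3

lemma rank_G : 3 ≤ Module.finrank K (Submodule.span K G) := by
  have h1 : Module.finrank K (Submodule.span K (Set.range v)) = 3 := by
    rw [finrank_span_eq_card v_li]; simp
  refine le_trans h1.ge ?_
  apply Submodule.finrank_mono
  apply Submodule.span_mono
  rintro _ ⟨i, rfl⟩
  exact v_mem i

lemma rank_Gchi : Module.finrank K (Submodule.span K
    {X : Matrix (Fin 3) (Fin 3) K | X ∈ G ∧ ∀ Y ∈ G, chi (X * Y - Y * X) = 0}) ≤ 1 := by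
  have h1 : Module.finrank K (Submodule.span K ({v 2} : Set (Matrix (Fin 3) (Fin 3) K))) ≤ 1 := by
    have := finrank_span_le_card (R := K) ({v 2} : Set (Matrix (Fin 3) (Fin 3) K))
    simpa using this
  refine le_trans (Submodule.finrank_mono ?_) h1
  rw [Submodule.span_le]
  rintro X ⟨hX, hY⟩
  obtain ⟨a1, a2, a3, a4, a5, a6⟩ := G_upper hX
  have b1 := hY _ (v_mem 0)
  have b2 := hY _ (v_mem 1)
  simp [chi, entry, v, Matrix.mul_apply, Matrix.vecMul, dotProduct, Fin.sum_univ_three, a1, a2, a3, a4, a5, a6] at b1 b2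
  rw [SetLike.mem_coe, Submodule.mem_span_singleton]
  refine ⟨X 0 2, ?_⟩
  ext i j
  fin_cases i <;> fin_cases j <;> simp [v, a1, a2, a3, a4, a5, a6, b1, b2]


/-- The negation of the preceding statement: For the Lie algebra g of any linear algebraic group in GL_n over an algebraically closed field of characteristic p, any linear form χ, and any simple U_χ(g)-module M, p^((dim g − dim g^χ)/2) divides dim M. -/
theorem result :
    ¬ (∀ (p : ℕ) (k : Type) [Field k] [IsAlgClosed k] [CharP k p], p.Prime →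
    ∀ (n : ℕ) (S : Subgroup (Matrix.GeneralLinearGroup (Fin n) k))
      (𝔤 : Set (Matrix (Fin n) (Fin n) k)),
      𝔤 = {X : Matrix (Fin n) (Fin n) k |
        ∀ f : MvPolynomial (Fin n × Fin n) k,
          (∀ g ∈ S, MvPolynomial.eval
              (fun ij : Fin n × Fin n => (g : Matrix (Fin n) (Fin n) k) ij.1 ij.2) f = 0) →
          ∑ ij : Fin n × Fin n,
            MvPolynomial.eval
              (fun ij' : Fin n × Fin n => (1 : Matrix (Fin n) (Fin n) k) ij'.1 ij'.2)
              (MvPolynomial.pderiv ij f) * X ij.1 ij.2 = 0} →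
    ∀ (χ : Matrix (Fin n) (Fin n) k →ₗ[k] k) (𝔤χ : Set (Matrix (Fin n) (Fin n) k)),
      𝔤χ = {X : Matrix (Fin n) (Fin n) k | X ∈ 𝔤 ∧ ∀ Y ∈ 𝔤, χ (X * Y - Y * X) = 0} →
    ∀ (M : Type) [AddCommGroup M] [Module k M]
      (ρ : Matrix (Fin n) (Fin n) k →ₗ[k] Module.End k M),
      (∀ X ∈ 𝔤, ∀ Y ∈ 𝔤, ρ (X * Y - Y * X) = ρ X * ρ Y - ρ Y * ρ X) →
      (∀ X ∈ 𝔤, ρ X ^ p - ρ (X ^ p) = (χ X) ^ p • (1 : Module.End k M)) →
      Nontrivial M →
      (∀ N : Submodule k M, (∀ X ∈ 𝔤, ∀ v ∈ N, ρ X v ∈ N) → N = ⊥ ∨ N = ⊤) →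
      p ^ ((Module.finrank k (Submodule.span k 𝔤) - Module.finrank k (Submodule.span k 𝔤χ)) / 2)
        ∣ Module.finrank k M) := by
  intro H
  have h := H 2 K Nat.prime_two 3 S G rfl chi _ rfl K rho ?_ ?_ inferInstance ?_
  · have h1 := rank_G
    have h2 := rank_Gchi
    rw [Module.finrank_self, Nat.dvd_one, Nat.pow_eq_one] at h
    omega
  · intro X hX Y hY
    obtain ⟨a1, a2, a3, a4, a5, a6⟩ := G_upper hX
    obtain ⟨b1, b2, b3, b4, b5, b6⟩ := G_upper hY
    ext
    simp [rho, entry, Matrix.mul_apply, Fin.sum_univ_three, a4, a5, a6, b4, b5, b6]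
    ring
  · intro X hX
    obtain ⟨a1, a2, a3, a4, a5, a6⟩ := G_upper hX
    have h2 := two_eq
    ext
    simp [rho, chi, entry, sq, Matrix.mul_apply, Fin.sum_univ_three, a4, a5, a6]
    linear_combination (X 0 2 * X 1 2 - X 1 2 * X 1 2) * h2
  · intro N _
    exact eq_bot_or_eq_top N

end Pool.Agent.S03590
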