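import Pool.Statements.S03678

set_option autoImplicit false
open Pool Pool.MP_01e6d0_an

namespace Pool.Agent.S03678

open Polynomial
open scoped InnerProductSpace

section abstract
variable {V : Type} [NormedAddCommGroup V] [InnerProductSpace ℝ V] (δ : V →ₗ[ℝ] ℝ)
  (hδ : ∀ C : ℝ, ∃ x, C * ‖x‖ < δ x)
include hδ

lemma unb (W : Submodule ℝ V) [FiniteDimensional ℝ W] (c : ℝ) (hc : 0 < c) :
    ∃ x ∈ Wᗮ, δ x = 1 ∧ ‖x‖ < c := by
  let L : W →L[ℝ] ℝ := LinearMap.toContinuousLinearMap (δ ∘ₗ W.subtype)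
  obtain ⟨x, hx⟩ := hδ (c⁻¹ + ‖L‖)
  obtain ⟨y, hy, z, hz, rfl⟩ := W.exists_add_mem_mem_orthogonal x
  have h0 : ⟪y, z⟫_ℝ = 0 := hz y hy
  have h1 := norm_add_sq_eq_norm_sq_add_norm_sq_real h0
  have h2 : ‖y‖ ≤ ‖y + z‖ := by
    refine le_of_sq_le_sq ?_ (norm_nonneg _); nlinarith [mul_self_nonneg ‖z‖]
  have h3 : ‖z‖ ≤ ‖y + z‖ := by
    refine le_of_sq_le_sq ?_ (norm_nonneg _); nlinarith [mul_self_nonneg ‖y‖]
  have h4 : δ y ≤ ‖L‖ * ‖y‖ := (le_abs_self _).trans (L.le_opNorm ⟨y, hy⟩)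
  have h5 : c⁻¹ * ‖z‖ < δ z := by
    rw [map_add] at hx
    have := mul_le_mul_of_nonneg_left h2 (norm_nonneg L)
    have := mul_le_mul_of_nonneg_left h3 (inv_pos.2 hc).le
    linarith
  have h6 : 0 < δ z := lt_of_le_of_lt (by positivity) h5
  refine ⟨(δ z)⁻¹ • z, Submodule.smul_mem _ _ hz, by simp [h6.ne'], ?_⟩
  rw [norm_smul, Real.norm_eq_abs, abs_of_pos (inv_pos.2 h6), inv_mul_lt_iff₀ h6]
  rw [inv_mul_lt_iff₀ hc] at h5
  linarith

lemma sphere (W : Submodule ℝ V) [FiniteDimensional ℝ W] (a ρ : ℝ) (hρ : 0 < ρ) :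
    ∃ y ∈ Wᗮ, δ y = a ∧ ‖y‖ = ρ := by
  obtain ⟨x, hx, hx1, hx2⟩ := unb δ hδ W (ρ / (|a| + 1)) (by positivity)
  have hx0 : 0 < ‖x‖ := norm_pos_iff.2 (by rintro rfl; simp at hx1)
  obtain ⟨z, hz, hz1, hz2⟩ := unb δ hδ W ‖x‖ hx0
  have hw : 0 < ‖x - z‖ := norm_pos_iff.2 (sub_ne_zero.2 (by rintro rfl; exact lt_irrefl _ hz2))
  have h1 : ‖a • x‖ < ρ := by
    rw [norm_smul, Real.norm_eq_abs]
    rw [lt_div_iff₀ (by positivity)] at hx2
    nlinarith
  have hc : Continuous fun t : ℝ => ‖a • x + t • (x - z)‖ := by fun_prop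
  obtain ⟨t, -, ht⟩ := intermediate_value_Icc (a := 0) (b := 2 * ρ / ‖x - z‖) (by positivity)
    hc.continuousOn (show ρ ∈ _ from ⟨by simpa using h1.le, by
      have h2 := norm_sub_le (a • x + (2 * ρ / ‖x - z‖) • (x - z)) (a • x)
      rw [add_sub_cancel_left, norm_smul, Real.norm_eq_abs, abs_of_pos (by positivity),
        div_mul_cancel₀ _ hw.ne'] at h2
      linarith⟩)
  exact ⟨_, add_mem (Submodule.smul_mem _ _ hx) (Submodule.smul_mem _ _ (sub_mem hx hz)),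
    by simp [hx1, hz1], ht⟩

lemma step (e : V) (T : Set V) (hT : ∀ W : Submodule ℝ V, FiniteDimensional ℝ W → ¬ T ⊆ W)
    (U : Submodule ℝ V) [FiniteDimensional ℝ U] : ∃ u : V × V, u.1 ∈ Uᗮ ∧ u.2 ∈ Uᗮ ∧ u.1 ≠ 0 ∧
      u.2 ≠ 0 ∧ ⟪u.1, u.2⟫_ℝ = 0 ∧ δ u.1 = 0 ∧ ⟪e, u.2⟫_ℝ = 0 ∧
      ∃ t ∈ T, t - u.1 - u.2 ∈ U := by
  obtain ⟨t, ht, htW⟩ := Set.not_subset.1 (hT (U ⊔ ℝ ∙ e) inferInstance)
  obtain ⟨p, hp, g, hg, rfl⟩ := U.exists_add_mem_mem_orthogonal t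
  obtain ⟨q, hq, k, hk, rfl⟩ := (U ⊔ ℝ ∙ e).exists_add_mem_mem_orthogonal g
  have hk0 : k ≠ 0 := by
    rintro rfl
    exact htW (add_mem (Submodule.mem_sup_left hp) (by simpa using hq))
  have hk1 : 0 < ‖k‖ := norm_pos_iff.2 hk0
  obtain ⟨y, hy, hy1, hy2⟩ := sphere δ hδ ((U ⊔ ℝ ∙ e) ⊔ ℝ ∙ k) (δ (q + k) - δ k / 2) (‖k‖ / 2)
    (by positivity)
  have hy' : y ∈ (U ⊔ ℝ ∙ e)ᗮ := Submodule.orthogonal_le le_sup_left hy
  have hky : ⟪k, y⟫_ℝ = 0 := hy k (Submodule.mem_sup_right (Submodule.mem_span_singleton_self k))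
  have hyk : ⟪y, k⟫_ℝ = 0 := by rw [real_inner_comm, hky]
  have hqk : ⟪q, k⟫_ℝ = 0 := hk q hq
  have hqy : ⟪q, y⟫_ℝ = 0 := hy' q hq
  have hv : (1 / 2 : ℝ) • k + y ∈ (U ⊔ ℝ ∙ e)ᗮ := add_mem (Submodule.smul_mem _ _ hk) hy'
  have hv' : (1 / 2 : ℝ) • k + y ∈ Uᗮ := Submodule.orthogonal_le le_sup_left hv
  have hkk : ⟪k, k⟫_ℝ = ‖k‖ ^ 2 := real_inner_self_eq_norm_sq k
  have hyy : ⟪y, y⟫_ℝ = (‖k‖ / 2) ^ 2 := by rw [real_inner_self_eq_norm_sq, hy2]
  refine ⟨(q + k - ((1 / 2 : ℝ) • k + y), (1 / 2 : ℝ) • k + y), sub_mem hg hv', hv', fun h => ?_,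
    fun h => ?_, ?_, ?_, hv e (Submodule.mem_sup_right (Submodule.mem_span_singleton_self e)),
    _, ht, ?_⟩
  · have := congrArg (fun x => ⟪x, k⟫_ℝ) h
    simp only [inner_sub_left, inner_add_left, real_inner_smul_left, hqk, hyk, hkk,
      inner_zero_left] at this
    nlinarith
  · have := congrArg (fun x => ⟪x, k⟫_ℝ) h
    simp only [inner_add_left, real_inner_smul_left, hyk, hkk, inner_zero_left] at this
    nlinarith
  · simp only [inner_sub_left, inner_add_left, inner_add_right, real_inner_smul_left,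
      real_inner_smul_right, hqk, hyk, hkk, hqy, hky, hyy]
    ring
  · simp only [map_sub, map_add, map_smul, hy1, smul_eq_mul]; ring
  · have : p + (q + k) - (q + k - ((1 / 2 : ℝ) • k + y)) - ((1 / 2 : ℝ) • k + y) = p := by abel
    rwa [this]

lemma system (e : V) (T : ℕ → Set V)
    (hT : ∀ k, ∀ W : Submodule ℝ V, FiniteDimensional ℝ W → ¬ T k ⊆ W) :
    ∃ φ : ℕ → V, (∀ n, φ n ≠ 0) ∧ (∀ m n, m ≠ n → ⟪φ m, φ n⟫_ℝ = 0) ∧
      (∀ n, δ (φ n) = 0 ∨ ⟪e, φ n⟫_ℝ = 0) ∧ ∀ k, ∃ t ∈ T k, t ∈ Submodule.span ℝ (Set.range φ) := by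
  choose f hf using fun (k : ℕ) (U : {U : Submodule ℝ V // FiniteDimensional ℝ U}) =>
    @step V _ _ δ hδ e (T k) (hT k) U.1 U.2
  let U : ℕ → {U : Submodule ℝ V // FiniteDimensional ℝ U} := fun k => Nat.rec ⟨⊥, inferInstance⟩
    (fun k U => ⟨(U.1 ⊔ ℝ ∙ (f k U).1) ⊔ ℝ ∙ (f k U).2, by have := U.2; infer_instance⟩) k
  have hU : ∀ k, (U (k + 1)).1 = ((U k).1 ⊔ ℝ ∙ (f k (U k)).1) ⊔ ℝ ∙ (f k (U k)).2 := fun k => rfl
  have hmono : Monotone fun k => (U k).1 := monotone_nat_of_le_succ fun k => by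
    rw [hU]; exact le_sup_left.trans le_sup_left
  let φ : ℕ → V := fun n => if n % 2 = 0 then (f (n / 2) (U (n / 2))).1 else (f (n / 2) (U (n / 2))).2
  have h1 : ∀ n, φ n ∈ (U (n / 2)).1ᗮ := fun n => by
    simp only [φ]; split_ifs
    exacts [(hf _ _).1, (hf _ _).2.1]
  have h2 : ∀ n, φ n ∈ (U (n / 2 + 1)).1 := fun n => by
    rw [hU]; simp only [φ]; split_ifs
    exacts [Submodule.mem_sup_left (Submodule.mem_sup_right (Submodule.mem_span_singleton_self _)),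
      Submodule.mem_sup_right (Submodule.mem_span_singleton_self _)]
  have h3 : ∀ m n, m < n → ⟪φ m, φ n⟫_ℝ = 0 := fun m n h => by
    by_cases h' : m / 2 = n / 2
    · simp only [φ, if_pos (show m % 2 = 0 by omega), if_neg (show ¬ n % 2 = 0 by omega), h']
      exact (hf _ _).2.2.2.2.1
    · exact h1 n _ (hmono (show m / 2 + 1 ≤ n / 2 by omega) (h2 m))
  have e1 : ∀ k, (f k (U k)).1 ∈ Submodule.span ℝ (Set.range φ) := fun k =>
    Submodule.subset_span ⟨2 * k, by simp [φ]⟩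
  have e2 : ∀ k, (f k (U k)).2 ∈ Submodule.span ℝ (Set.range φ) := fun k =>
    Submodule.subset_span ⟨2 * k + 1, by
      simp only [φ, if_neg (show ¬ (2 * k + 1) % 2 = 0 by omega),
        show (2 * k + 1) / 2 = k by omega]⟩
  have h4 : ∀ k, (U k).1 ≤ Submodule.span ℝ (Set.range φ) := fun k => by
    induction k with
    | zero => exact bot_le
    | succ k ih =>
      rw [hU]
      exact sup_le (sup_le ih ((Submodule.span_singleton_le_iff_mem _ _).2 (e1 k)))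
        ((Submodule.span_singleton_le_iff_mem _ _).2 (e2 k))
  refine ⟨φ, fun n => ?_, fun m n h => ?_, fun n => ?_, fun k => ?_⟩
  · simp only [φ]; split_ifs
    exacts [(hf _ _).2.2.1, (hf _ _).2.2.2.1]
  · rcases lt_or_gt_of_ne h with h | h
    · exact h3 m n h
    · rw [real_inner_comm]; exact h3 n m h
  · simp only [φ]; split_ifs
    exacts [Or.inl (hf _ _).2.2.2.2.2.1, Or.inr (hf _ _).2.2.2.2.2.2.1]
  · obtain ⟨t, ht, h⟩ := (hf k (U k)).2.2.2.2.2.2.2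
    refine ⟨t, ht, ?_⟩
    have := add_mem (add_mem (h4 k h) (e2 k)) (e1 k)
    simpa using this

end abstract

lemma nz {p : ℝ[X]} (hp : p ≠ 0) : ∃ t ∈ Set.Icc (0 : ℝ) 1, p.eval t ≠ 0 := by
  by_contra h
  push Not at h
  exact hp (Polynomial.eq_zero_of_infinite_isRoot p
    ((Set.Icc_infinite (zero_lt_one' ℝ)).mono fun t ht => h t ht))

lemma ii (p q : ℝ[X]) : IntervalIntegrable (fun t => p.eval t * q.eval t) MeasureTheory.volume 0 1 :=
  (p.continuous.mul q.continuous).intervalIntegrable _ _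

@[reducible] noncomputable def core : InnerProductSpace.Core ℝ ℝ[X] where
  inner p q := ∫ t in (0 : ℝ)..1, p.eval t * q.eval t
  conj_inner_symm p q := by simp [mul_comm]
  re_inner_nonneg p := intervalIntegral.integral_nonneg zero_le_one fun t _ => mul_self_nonneg _
  add_left p q r := by
    simp only [eval_add, add_mul]
    exact intervalIntegral.integral_add (ii p r) (ii q r)
  smul_left p q r := by simp [mul_assoc]
  definite p h := by
    by_contra hp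
    obtain ⟨t, ht, h1⟩ := nz hp
    exact (intervalIntegral.integral_pos zero_lt_one (p.continuous.mul p.continuous).continuousOn
      (fun x _ => mul_self_nonneg _) ⟨t, ht, mul_self_pos.2 h1⟩).ne' h

lemma exists_system : ∃ φ : ℕ → ℝ[X], (∀ n, φ n ≠ 0) ∧
    (∀ m n, m ≠ n → ∫ t in (0 : ℝ)..1, (φ m).eval t * (φ n).eval t = 0) ∧
    (∀ n, (φ n).eval 1 = 0 ∨ ∫ t in (0 : ℝ)..1, 1 * (φ n).eval t = 0) ∧
    ∀ j i : ℕ, ∃ t ∈ Submodule.span ℝ (Set.range φ), ∀ x ∈ Set.Icc (0 : ℝ) 1,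
      |x ^ j - t.eval x| ≤ 1 / (i + 1) := by
  let := core
  let : NormedAddCommGroup ℝ[X] := InnerProductSpace.Core.toNormedAddCommGroup (𝕜 := ℝ)
  let : InnerProductSpace ℝ ℝ[X] := InnerProductSpace.ofCore core.toCore
  have hin : ∀ p q : ℝ[X], ⟪p, q⟫_ℝ = ∫ t in (0 : ℝ)..1, p.eval t * q.eval t := fun p q => rfl
  obtain ⟨φ, h1, h2, h3, h4⟩ := system (V := ℝ[X]) (Polynomial.leval (1 : ℝ)) (fun C => by
    obtain ⟨n, hn⟩ := exists_nat_gt (C ^ 2)
    refine ⟨X ^ n, ?_⟩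
    have e : ‖(X ^ n : ℝ[X])‖ ^ 2 = 1 / (2 * n + 1) := by
      rw [← real_inner_self_eq_norm_sq, hin]
      simp only [eval_pow, eval_X, ← pow_add, integral_pow]
      simp [two_mul]
    have e2 : (C * ‖(X ^ n : ℝ[X])‖) ^ 2 < 1 ^ 2 := by
      rw [mul_pow, e, mul_one_div, one_pow, div_lt_one (by positivity)]
      have : (0 : ℝ) ≤ n := Nat.cast_nonneg n
      linarith
    simpa using lt_of_pow_lt_pow_left₀ 2 zero_le_one e2) 1
    (fun k => {t | ∀ x ∈ Set.Icc (0 : ℝ) 1,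
      |x ^ (Nat.unpair k).1 - t.eval x| ≤ 1 / ((Nat.unpair k).2 + 1)}) (fun k W hW h => by
    set j := (Nat.unpair k).1
    set η : ℝ := 1 / ((Nat.unpair k).2 + 1) with hη
    have hη0 : 0 < η := by positivity
    have a1 : (X ^ j : ℝ[X]) ∈ W := h fun x _ => by simpa using hη0.le
    have a2 : ∀ m, (X ^ m : ℝ[X]) ∈ W := fun m => by
      have a3 : (X ^ j + η • X ^ m : ℝ[X]) ∈ W := h fun x hx => by
        simp only [eval_add, eval_smul, eval_pow, eval_X, sub_add_cancel_left, abs_neg, smul_eq_mul,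
          abs_mul, abs_of_pos hη0, abs_of_nonneg (pow_nonneg hx.1 m)]
        exact mul_le_of_le_one_right hη0.le (pow_le_one₀ hx.1 hx.2)
      have a4 := W.smul_mem η⁻¹ (sub_mem a3 a1)
      rwa [add_sub_cancel_left, smul_smul, inv_mul_cancel₀ hη0.ne', one_smul] at a4
    have a5 : W = ⊤ := eq_top_iff.2 fun p _ => by
      induction p using Polynomial.induction_on' with
      | add p q hp hq => exact add_mem (hp trivial) (hq trivial)
      | monomial n a => rw [← smul_X_eq_monomial]; exact W.smul_mem a (a2 n)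
    subst a5
    exact Polynomial.not_finite (R := ℝ) (Module.Finite.equiv Submodule.topEquiv))
  refine ⟨φ, h1, h2, fun n => ?_, fun j i => ?_⟩
  · simpa [hin] using h3 n
  · obtain ⟨t, ht, h⟩ := h4 (Nat.pair j i)
    exact ⟨t, h, by simpa using ht⟩

/-- The negation of the preceding statement: For every system of nonzero continuous functions on [0,1] that is L²-orthogonal and uniformly dense in C[0,1], each continuous f is a uniform limit of finite combinations of those φ_n with nonzero Fourier coefficient of f. -/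
theorem result :
    ¬ (∀ φ : ℕ → ℝ → ℝ,
      (∀ n, ContinuousOn (φ n) (Set.Icc (0:ℝ) 1)) →
      (∀ n, ∃ t ∈ Set.Icc (0:ℝ) 1, φ n t ≠ 0) →
      (∀ m n : ℕ, m ≠ n → ∫ t in (0:ℝ)..1, φ m t * φ n t = 0) →
      (∀ g : ℝ → ℝ, ContinuousOn g (Set.Icc (0:ℝ) 1) → ∀ ε : ℝ, ε > 0 →
        ∃ s : Finset ℕ, ∃ c : ℕ → ℝ,
          ∀ t ∈ Set.Icc (0:ℝ) 1, |g t - ∑ i ∈ s, c i * φ i t| < ε) →
      ∀ f : ℝ → ℝ, ContinuousOn f (Set.Icc (0:ℝ) 1) → ∀ ε : ℝ, ε > 0 →
        ∃ s : Finset ℕ, (∀ i ∈ s, ∫ t in (0:ℝ)..1, f t * φ i t ≠ 0) ∧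
          ∃ c : ℕ → ℝ, ∀ t ∈ Set.Icc (0:ℝ) 1, |f t - ∑ i ∈ s, c i * φ i t| < ε) := by
  intro h
  obtain ⟨φ, h1, h2, h3, h4⟩ := exists_system
  have hp : ∀ p : ℝ[X], ∀ ε > 0, ∃ t ∈ Submodule.span ℝ (Set.range φ), ∀ x ∈ Set.Icc (0 : ℝ) 1,
      |p.eval x - t.eval x| ≤ ε := by
    intro p
    induction p using Polynomial.induction_on' with
    | add p q hp hq =>
      intro ε hε
      obtain ⟨t, ht, h5⟩ := hp (ε / 2) (by positivity)
      obtain ⟨u, hu, h6⟩ := hq (ε / 2) (by positivity)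
      refine ⟨t + u, add_mem ht hu, fun x hx => ?_⟩
      have a := abs_le.1 (h5 x hx)
      have b := abs_le.1 (h6 x hx)
      rw [eval_add, eval_add, abs_le]
      constructor <;> linarith
    | monomial n a =>
      intro ε hε
      obtain ⟨i, hi⟩ := exists_nat_one_div_lt (show 0 < ε / (|a| + 1) by positivity)
      obtain ⟨t, ht, h5⟩ := h4 n i
      refine ⟨a • t, Submodule.smul_mem _ _ ht, fun x hx => ?_⟩
      rw [eval_monomial, eval_smul, smul_eq_mul, ← mul_sub, abs_mul]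
      have h6 := (h5 x hx).trans hi.le
      rw [le_div_iff₀ (by positivity)] at h6
      nlinarith [abs_nonneg (x ^ n - eval x t)]
  obtain ⟨s, hs, c, hc⟩ := h (fun n t => (φ n).eval t) (fun n => (φ n).continuous.continuousOn)
    (fun n => nz (h1 n)) h2 (fun g hg ε hε => by
      obtain ⟨p, hp1⟩ := exists_polynomial_near_of_continuousOn 0 1 g hg (ε / 2) (by positivity)
      obtain ⟨t, ht, h5⟩ := hp p (ε / 2) (by positivity)
      obtain ⟨c, rfl⟩ := Finsupp.mem_span_range_iff_exists_finsupp.1 ht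
      refine ⟨c.support, c, fun x hx => ?_⟩
      have a := abs_lt.1 (hp1 x hx)
      have b := abs_le.1 (h5 x hx)
      simp only [Finsupp.sum, eval_finsetSum, eval_smul, smul_eq_mul] at b
      rw [abs_lt]
      constructor <;> linarith) (fun _ => 1) continuousOn_const 1 one_pos
  have h5 := hc 1 ⟨zero_le_one, le_rfl⟩
  rw [Finset.sum_eq_zero fun i hi => by rw [(h3 i).resolve_right (hs i hi), mul_zero]] at h5
  simp at h5

end Pool.Agent.S03678
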