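import Pool.Statements.S03687
import Pool.Agent.Lib.helper23.JoinC

set_option autoImplicit false
open MeasureTheory
open Pool Pool.MP_03548f_an

namespace Pool.Agent.S03687

/-- For any two shift-invariant probability measures on sequences over countable alphabets, both of positive entropy, there is a shift-invariant joining under which some pair of first-coordinate events a, b fails the product rule. -/
theorem result :
    ∀ (μ ν : Measure (ℕ → ℕ)),
      IsProbabilityMeasure μ → IsProbabilityMeasure ν →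
      MeasurePreserving (fun (x : ℕ → ℕ) (n : ℕ) => x (n + 1)) μ μ →
      MeasurePreserving (fun (x : ℕ → ℕ) (n : ℕ) => x (n + 1)) ν ν →
      (∃ m : ℕ, ∃ f : ℕ → Fin m, ∃ c : ℝ, 0 < c ∧ ∀ n : ℕ,
        c * (n : ℝ) ≤ ∑ w : Fin n → Fin m,
          Real.negMulLog ((μ {x : ℕ → ℕ | ∀ i : Fin n, f (x i.val) = w i}).toReal)) →
      (∃ m : ℕ, ∃ f : ℕ → Fin m, ∃ c : ℝ, 0 < c ∧ ∀ n : ℕ,
        c * (n : ℝ) ≤ ∑ w : Fin n → Fin m,
          Real.negMulLog ((ν {x : ℕ → ℕ | ∀ i : Fin n, f (x i.val) = w i}).toReal)) →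
      ∃ ξ : Measure ((ℕ → ℕ) × (ℕ → ℕ)),
        IsProbabilityMeasure ξ ∧
        MeasurePreserving
          (Prod.map (fun (x : ℕ → ℕ) (n : ℕ) => x (n + 1))
                    (fun (x : ℕ → ℕ) (n : ℕ) => x (n + 1))) ξ ξ ∧
        ξ.map Prod.fst = μ ∧ ξ.map Prod.snd = ν ∧
        ∃ a b : ℕ,
          ξ ({p : (ℕ → ℕ) × (ℕ → ℕ) | p.1 0 = a} ∩ {p | p.2 0 = b}) ≠
            μ {x : ℕ → ℕ | x 0 = a} * ν {y : ℕ → ℕ | y 0 = b} := by
  intro μ ν _ _ hμ hν ⟨m, f, c, hc, hH⟩ ⟨m', g, c', hc', hH'⟩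
  obtain ⟨ξ, h1, h2, h3, h4, a, b, h5⟩ := Pool.Agent.Lib.helper23.Join.dependent μ ν hμ hν f g hc hc'
    (fun n => by rw [Pool.Agent.Lib.helper23.Join.Hn_eq]; exact hH n)
    (fun n => by rw [Pool.Agent.Lib.helper23.Join.Hn_eq]; exact hH' n)
  refine ⟨ξ, h1, h2, h3, h4, ?_⟩
  by_contra hn
  push Not at hn
  have m0 : Measurable fun x : ℕ → ℕ => x 0 := measurable_pi_apply 0
  have m1 : Measurable fun p : (ℕ → ℕ) × (ℕ → ℕ) => (p.1 0, p.2 0) :=
    (m0.comp measurable_fst).prodMk (m0.comp measurable_snd)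
  have e : ξ.map (fun p => (p.1 0, p.2 0)) = (μ.map fun x => x 0).prod (ν.map fun x => x 0) := by
    refine Measure.ext_of_singleton fun p => ?_
    obtain ⟨u, w⟩ := p
    rw [Measure.map_apply m1 (measurableSet_singleton _), ← Set.singleton_prod_singleton,
      Measure.prod_prod, Measure.map_apply m0 (measurableSet_singleton _),
      Measure.map_apply m0 (measurableSet_singleton _)]
    exact hn u w
  have e2 := congrArg (fun κ : Measure (ℕ × ℕ) => κ ((f ⁻¹' {a}) ×ˢ (g ⁻¹' {b}))) e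
  simp only [Measure.prod_prod] at e2
  rw [Measure.map_apply m1 (MeasurableSet.of_discrete), Measure.map_apply m0 (MeasurableSet.of_discrete),
    Measure.map_apply m0 (MeasurableSet.of_discrete)] at e2
  exact h5.ne' e2

end Pool.Agent.S03687
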