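import Pool.Statements.S03690
-- import your own Pool.Agent.* helpers here
import Pool.Agent.Lib.helper16.NullC

set_option autoImplicit false
open Filter
open Pool Pool.MP_0396c7_an

namespace Pool.Agent.S03690

open Pool.Agent.Lib.helper16.NullT Finset Topology

def Y : Type := ℕ → ℝ

noncomputable instance : MetricSpace Y := PiCountable.metricSpace (F := fun _ : ℕ => ℝ)

lemma dist_def (x y : Y) : dist x y = ∑' i : ℕ, min ((2 : ℝ)⁻¹ ^ i) |x i - y i| :=
  PiCountable.dist_eq_tsum (F := fun _ : ℕ => ℝ) x y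

lemma dist_sum (x y : Y) : Summable fun i : ℕ => min ((2 : ℝ)⁻¹ ^ i) |x i - y i| :=
  PiCountable.dist_summable (F := fun _ : ℕ => ℝ) x y

lemma dist_ge (x y : Y) : min 1 |x 0 - y 0| ≤ dist x y := by
  have := PiCountable.min_dist_le_dist_pi (F := fun _ : ℕ => ℝ) x y 0
  exact le_trans (by simp [Real.dist_eq]) this

lemma dist_lt (ε : ℝ) (hε : 0 < ε) : ∃ (r : ℕ) (η : ℝ), 0 < η ∧
    ∀ x y : Y, (∀ j < r, |x j - y j| ≤ η) → dist x y < ε := by
  obtain ⟨r, hr⟩ := exists_pow_lt_of_lt_one (show 0 < ε / 4 by positivity)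
    (show (2 : ℝ)⁻¹ < 1 by norm_num)
  refine ⟨r, ε / (2 * (r + 1)), by positivity, fun x y h => ?_⟩
  rw [dist_def, ← (dist_sum x y).sum_add_tsum_nat_add r]
  have h1 : ∑ i ∈ range r, min ((2 : ℝ)⁻¹ ^ i) |x i - y i| ≤ r * (ε / (2 * (r + 1))) := by
    refine (sum_le_sum (g := fun _ => ε / (2 * (r + 1))) fun i hi =>
      (min_le_right _ _).trans (h i (mem_range.1 hi))).trans (by simp)
  have h2 : (r : ℝ) * (ε / (2 * (r + 1))) ≤ ε / 2 := by
    rw [← mul_div_assoc, div_le_div_iff₀ (by positivity) (by positivity)]; nlinarith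
  have hs : HasSum (fun i : ℕ => (2 : ℝ)⁻¹ ^ (i + r)) (2 * 2⁻¹ ^ r) := by
    simp only [pow_add]
    have := hasSum_geometric_two
    simp only [one_div] at this
    exact this.mul_right _
  have h3 : ∑' i : ℕ, min ((2 : ℝ)⁻¹ ^ (i + r)) |x (i + r) - y (i + r)| ≤ 2 * 2⁻¹ ^ r := by
    rw [← hs.tsum_eq]
    exact ((summable_nat_add_iff r).2 (dist_sum x y)).tsum_le_tsum (fun i => min_le_left _ _)
      hs.summable
  linarith

lemma cont_ev (j : ℕ) : Continuous fun x : Y => x j :=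
  continuous_apply (A := fun _ : ℕ => ℝ) j

noncomputable def orb (m : ℕ) : Y := fun j => f (m + j)

def sh (x : Y) : Y := fun j => x (j + 1)

lemma cont_sh : Continuous sh :=
  continuous_pi (X := Y) (A := fun _ : ℕ => ℝ) fun j => cont_ev (j + 1)

def XX : Set Y := closure (Set.range orb)

instance : CompactSpace XX := by
  have h : IsCompact (X := Y) (Set.pi Set.univ fun _ : ℕ => Set.Icc (0 : ℝ) 1) :=
    isCompact_univ_pi (X := fun _ : ℕ => ℝ) fun _ => isCompact_Icc
  refine isCompact_iff_compactSpace.1 (h.of_isClosed_subset isClosed_closure ?_)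
  refine closure_minimal ?_ h.isClosed
  rintro _ ⟨m, rfl⟩ j -
  exact f_mem _

def TT (x : XX) : XX := ⟨sh x, map_mem_closure cont_sh x.2 (by
  rintro _ ⟨m, rfl⟩
  exact ⟨m + 1, funext fun j => by simp only [orb, sh]; congr 1; omega⟩)⟩

lemma cont_TT : Continuous TT := (cont_sh.comp continuous_subtype_val).subtype_mk _

lemma TT_iter (n : ℕ) (x : XX) (j : ℕ) : (TT^[n] x).1 j = x.1 (n + j) := by
  induction n generalizing j with
  | zero => simp
  | succ n ih =>
    rw [Function.iterate_succ_apply']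
    change (TT^[n] x).1 (j + 1) = _
    rw [ih, show n + (j + 1) = n + 1 + j by omega]

noncomputable def P (m : ℕ) : XX := ⟨orb m, subset_closure ⟨m, rfl⟩⟩

lemma TT_P (n m : ℕ) : TT^[n] (P m) = P (m + n) :=
  Subtype.ext (funext fun j => by rw [TT_iter]; simp only [P, orb, add_assoc])

lemma P_dense : DenseRange P := Metric.denseRange_iff.2 fun x r hr => by
  obtain ⟨_, ⟨m, rfl⟩, h⟩ := Metric.mem_closure_iff.1 x.2 r hr
  exact ⟨m, h⟩

lemma zero_mem : (show Y from fun _ => 0) ∈ XX := by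
  refine Metric.mem_closure_iff.2 fun ε hε => ?_
  obtain ⟨r, η, hη, h⟩ := dist_lt ε hε
  obtain ⟨k, hk⟩ := exists_nat_ge ((2 * r + 1) / η)
  refine ⟨orb (B k * 1), ⟨_, rfl⟩, h _ _ fun j hj => ?_⟩
  have h1 := f_near k 1 j (Or.inl rfl)
  rw [abs_sub_comm]
  refine le_trans (by simpa [orb] using h1) ?_
  have h2 : (k : ℝ) + 1 ≤ B k := by exact_mod_cast lt_B k
  have h3 : (j : ℝ) ≤ r := by exact_mod_cast hj.le
  have hk0 : (0 : ℝ) ≤ k := Nat.cast_nonneg _
  have hj0 : (0 : ℝ) ≤ j := Nat.cast_nonneg _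
  have h4 : (j : ℝ) / B k ≤ r / (k + 1) := by gcongr
  have h5 : ((B k : ℝ) + j) / B (k + 1) ≤ (r + 1) / (k + 1) := by
    simp only [B]; push_cast
    rw [div_le_div_iff₀ (by nlinarith) (by positivity)]
    have : (B k : ℝ) + j ≤ (r + 1) * B k := by nlinarith
    have h6 : (0 : ℝ) ≤ (r + 1) * B k := by nlinarith
    nlinarith
  rw [div_le_iff₀ hη] at hk
  have h6 : (r : ℝ) / (k + 1) + (r + 1) / (k + 1) ≤ η := by
    rw [← add_div, div_le_iff₀ (by positivity)]; nlinarith
  linarith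

lemma f_big (k m : ℕ) (hm : m < (k + 2) * B (k + 1)) : 1 / 3 ≤ f (B (k + 2) * 2 + m) := by
  have h1 := f_near (k + 2) 2 m (Or.inr rfl)
  have hm' : (m : ℝ) ≤ (k + 2) * B (k + 1) := by exact_mod_cast hm.le
  have h0 : (0 : ℝ) < B (k + 1) := by exact_mod_cast B_pos _
  have hk0 : (0 : ℝ) ≤ k := Nat.cast_nonneg _
  have e : (B (k + 2) : ℝ) = 3 * (k + 2) * B (k + 1) := by
    rw [B]; push_cast; ring
  have e' : (B (k + 2 + 1) : ℝ) = 3 * (k + 3) * B (k + 2) := by
    rw [B]; push_cast; ring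
  have h2 : (m : ℝ) / B (k + 2) ≤ 1 / 3 := by
    rw [e, div_le_div_iff₀ (by positivity) (by positivity)]; nlinarith
  have h3 : ((B (k + 2) * 2 + m : ℕ) : ℝ) / B (k + 2 + 1) ≤ 1 / 3 := by
    push_cast
    rw [e', e, div_le_div_iff₀ (by positivity) (by positivity)]
    have : 0 ≤ k * ((k + 2) * (B (k + 1) : ℝ)) := by positivity
    nlinarith
  rw [if_pos rfl, abs_le] at h1
  linarith [h1.1]


/-- The negation of the preceding statement: Every continuous self-map of a compact metric space that is topologically transitive and has zero sequence entropy along every increasing sequence is mean equicontinuous: nearby points have uniformly small limsup of average orbit distance. -/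
theorem result :
    ¬ (∀ (X : Type) [MetricSpace X] [CompactSpace X] (T : X → X), Continuous T →
      (∀ U V : Set X, IsOpen U → IsOpen V → U.Nonempty → V.Nonempty →
        ∃ n : ℕ, 1 ≤ n ∧ (V ∩ T^[n] ⁻¹' U).Nonempty) →
      (∀ a : ℕ → ℕ, StrictMono a → ∀ ε : ℝ, 0 < ε → ∀ δ : ℝ, 0 < δ →
        ∀ᶠ n in atTop, ∀ F : Finset X,
          (∀ x ∈ F, ∀ y ∈ F, x ≠ y → ∃ i < n, ε ≤ dist (T^[a i] x) (T^[a i] y)) →
          (F.card : ℝ) ≤ Real.exp (δ * n)) →
      ∀ ε : ℝ, 0 < ε → ∃ δ : ℝ, 0 < δ ∧ ∀ x y : X, dist x y < δ →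
        ∀ᶠ n in atTop,
          (∑ i ∈ Finset.range n, dist (T^[i] x) (T^[i] y)) / (n : ℝ) < ε) := by
  intro H
  refine absurd (H XX TT cont_TT ?_ ?_ (1 / 21) (by norm_num)) ?_
  rotate_left 2
  · rintro ⟨δ, hδ, h⟩
    let Z : XX := ⟨_, zero_mem⟩
    obtain ⟨q, hq⟩ := Metric.denseRange_iff.1 P_dense Z δ hδ
    obtain ⟨N, hN⟩ := eventually_atTop.1 (h Z (P q) hq)
    set k := N + q with hk
    set c := (k + 2) * B (k + 1) with hc
    have e : B (k + 2) = 3 * c := by rw [B, hc]; ring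
    have hl := lt_B (k + 2)
    have h1 := hN (B (k + 2) * 2 - q + c) (by omega)
    rw [sum_range_add, div_lt_iff₀ (by exact_mod_cast (by omega))] at h1
    have h2 : ∑ i ∈ range c, (1 / 3 : ℝ) ≤ ∑ i ∈ range c,
        dist (TT^[B (k + 2) * 2 - q + i] Z) (TT^[B (k + 2) * 2 - q + i] (P q)) := by
      refine sum_le_sum fun i hi => le_trans ?_ (dist_ge _ _)
      rw [TT_iter, TT_iter]
      have h3 := f_big k i (mem_range.1 hi)
      have h4 : (P q).1 (B (k + 2) * 2 - q + i + 0) = f (B (k + 2) * 2 + i) := by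
        simp only [P, orb]; congr 1; omega
      rw [h4]
      refine le_min (by norm_num) ?_
      simp only [Z, zero_sub, abs_neg]
      exact h3.trans (le_abs_self _)
    have h3 : 0 ≤ ∑ i ∈ range (B (k + 2) * 2 - q), dist (TT^[i] Z) (TT^[i] (P q)) :=
      sum_nonneg fun _ _ => dist_nonneg
    have h4 : ((B (k + 2) * 2 - q + c : ℕ) : ℝ) ≤ 7 * c := by exact_mod_cast (by omega)
    simp only [sum_const, card_range, nsmul_eq_mul] at h2
    linarith
  · intro U V hU hV hU' hV'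
    obtain ⟨a, ha⟩ := P_dense.exists_mem_open hV hV'
    obtain ⟨b, hb⟩ := P_dense.exists_mem_open hU hU'
    obtain ⟨ε, hε, hball⟩ := Metric.isOpen_iff.1 hU _ hb
    obtain ⟨r, η, hη, h⟩ := dist_lt ε hε
    obtain ⟨k, hk⟩ := exists_nat_ge (1 / η)
    have hl := lt_B (k + a)
    refine ⟨b + B (k + a) * 3 - a, by omega, P a, ha, hball ?_⟩
    rw [TT_P]
    refine h _ _ fun j _ => ?_
    have h1 := f_rigid (k + a) (b + j)
    have h2 : (P (a + (b + B (k + a) * 3 - a))).1 j = f (b + j + B (k + a) * 3) := by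
      simp only [P, orb]; congr 1; omega
    rw [h2]
    refine h1.trans ?_
    rw [div_le_iff₀ hη] at hk
    rw [div_le_iff₀ (by positivity)]
    push_cast
    nlinarith [(Nat.cast_nonneg a : (0 : ℝ) ≤ a)]
  · intro a _ ε hε δ hδ
    obtain ⟨r, η, hη, h⟩ := dist_lt ε hε
    filter_upwards [null (η / 2) δ (by positivity) hδ r] with n hn F hF
    classical
    let T : Finset ℕ := (range r ×ˢ range n).image fun p => a p.2 + p.1
    have hm : ∀ x : XX, ∃ m, ∀ t ∈ T, |x.1 t - f (m + t)| < η / 4 := fun x => by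
      have ho : IsOpen (⋂ t ∈ T, {y : XX | |x.1 t - y.1 t| < η / 4}) :=
        isOpen_biInter_finset fun t _ => isOpen_lt
          (continuous_const.sub ((cont_ev t).comp continuous_subtype_val)).abs continuous_const
      obtain ⟨m, hm⟩ := P_dense.exists_mem_open ho ⟨x, by simp [hη]⟩
      exact ⟨m, fun t ht => Set.mem_iInter₂.1 hm t ht⟩
    choose m hm using hm
    have hsep : ∀ x ∈ F, ∀ y ∈ F, x ≠ y → ∃ t ∈ T, η / 2 ≤ |f (m x + t) - f (m y + t)| := by
      intro x hx y hy hne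
      obtain ⟨i, hi, hd⟩ := hF x hx y hy hne
      by_contra hc
      push Not at hc
      refine absurd (h (TT^[a i] x).1 (TT^[a i] y).1 fun j hj => ?_) (not_lt.2 hd)
      have ht : a i + j ∈ T := mem_image.2 ⟨(j, i), by simp [hi, hj], rfl⟩
      rw [TT_iter, TT_iter]
      have h1 := abs_lt.1 (hm x _ ht)
      have h2 := abs_lt.1 (hm y _ ht)
      have h3 := abs_lt.1 (hc _ ht)
      rw [abs_le]; constructor <;> linarith [h1.1, h1.2, h2.1, h2.2, h3.1, h3.2]
    have hinj : Set.InjOn m F := fun x hx y hy e => by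
      by_contra hne
      obtain ⟨t, -, ht⟩ := hsep x hx y hy hne
      rw [e, sub_self, abs_zero] at ht
      linarith
    rw [← card_image_of_injOn hinj]
    refine hn T _ (card_image_le.trans (by simp)) fun u hu v hv hne => ?_
    obtain ⟨x, hx, rfl⟩ := mem_image.1 hu
    obtain ⟨y, hy, rfl⟩ := mem_image.1 hv
    exact hsep x hx y hy fun e => hne (by rw [e])

end Pool.Agent.S03690
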