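import Pool.Statements.S03716
import Pool.Agent.Lib.helper23.DbC

set_option autoImplicit false
open Pool Pool.MP_05b6ce_an

namespace Pool.Agent.S03716

/-- The negation of the preceding statement: For a Pythagorean pair (b,a) given by Taylor coefficients, with phi=b/a: if f is in H^2 and the convergent series sums c_m=Σ conj(phi_n) f_{m+n} are square-summable, then sup over g in H^2 of ‖f+bg‖²−‖g‖² equals Σ∣f_m∣²+Σ∣c_m∣². -/
theorem result :
    ¬ (∀ (a b φ : ℕ → ℂ),
    (∀ g : ℕ → ℂ, Summable (fun n => ‖g n‖ ^ 2) →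
      Summable (fun n => ‖∑ k ∈ Finset.range (n+1), a k * g (n-k)‖ ^ 2) ∧
      Summable (fun n => ‖∑ k ∈ Finset.range (n+1), b k * g (n-k)‖ ^ 2) ∧
      (∑' n, ‖∑ k ∈ Finset.range (n+1), a k * g (n-k)‖ ^ 2) +
        (∑' n, ‖∑ k ∈ Finset.range (n+1), b k * g (n-k)‖ ^ 2) = ∑' n, ‖g n‖ ^ 2) →
    (∀ g : ℕ → ℂ, Summable (fun n => ‖g n‖ ^ 2) →
      (∀ j : ℕ, ∑' n, a n * starRingEnd ℂ (g (n + j)) = 0) → g = 0) →
    0 < (a 0).re → (a 0).im = 0 →
    (∀ n, ∑ k ∈ Finset.range (n+1), a k * φ (n-k) = b n) →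
    ∀ f c : ℕ → ℂ, Summable (fun n => ‖f n‖ ^ 2) →
      (∀ m, Filter.Tendsto (fun N => ∑ n ∈ Finset.range N, starRingEnd ℂ (φ n) * f (m+n))
        Filter.atTop (nhds (c m))) →
      Summable (fun m => ‖c m‖ ^ 2) →
      IsLUB {x : ℝ | ∃ g : ℕ → ℂ, Summable (fun n => ‖g n‖ ^ 2) ∧
          x = (∑' n, ‖f n + ∑ k ∈ Finset.range (n+1), b k * g (n-k)‖ ^ 2) - ∑' n, ‖g n‖ ^ 2}
        ((∑' m, ‖f m‖ ^ 2) + ∑' m, ‖c m‖ ^ 2)) := by
  intro hmain
  obtain ⟨v, hv, hd, hu, hr⟩ := Lib.helper23.DbC.model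
  set t := Lib.helper23.DbA.θ Lib.helper23.DbC.U v with ht
  have ht0 : t 0 = 0 := rfl
  let s : ℕ → ℂ := fun k => inner ℂ v ((Lib.helper23.DbC.U ^ k) v)
  have hs0 : s 0 = 1 := by simp [s, inner_self_eq_norm_sq_to_K, hv]
  let δ : ℕ → ℂ := Pi.single 0 1
  let φ : ℕ → ℂ := fun n => 2 * s n - δ n
  have hiso := Lib.helper23.DbA.isom Lib.helper23.DbC.U hv hd
  rw [← ht] at hiso
  have hδ : ∀ n, Lib.helper23.DbA.conv t δ n = t n := fun n => by
    rw [Lib.helper23.DbA.conv, Finset.sum_range_succ, Finset.sum_eq_zero fun k hk => ?_]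
    · simp [δ]
    · rw [show δ (n - k) = 0 from Pi.single_eq_of_ne (by have := Finset.mem_range.1 hk; omega) _,
        mul_zero]
  have hδ1 : HasSum (fun n => ‖δ n‖ ^ 2) 1 := by
    have := hasSum_single (f := fun n => ‖δ n‖ ^ 2) 0 fun n hn => by simp [δ, hn]
    simpa [δ] using this
  have ht2 : Summable fun n => ‖t n‖ ^ 2 := by simpa only [hδ] using (hiso δ hδ1.summable).summable
  have hsum : ∀ (z : ℂ) (g : ℕ → ℂ), Summable (fun n => ‖g n‖ ^ 2) →
      Summable fun n => ‖(g n + z * Lib.helper23.DbA.conv t g n) / 2‖ ^ 2 := fun z g hg =>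
    (Lib.helper23.DbC.summ hg (hiso g hg).summable (1 / 2) (z / 2)).congr fun n => by
      congr 2; ring
  obtain ⟨f, c, hf0, hf1, hc, hc1⟩ := Lib.helper23.DbB.exists_f
    (ψ := fun m k => if m ≤ k then starRingEnd ℂ (φ (k - m)) else 0)
    (Lib.helper23.DbB.piece Lib.helper23.DbC.U v hv (fun m k hmk => by
      obtain ⟨n, rfl⟩ := Nat.exists_eq_add_of_lt hmk
      rw [if_pos (by omega), show m + n + 1 - m = n + 1 by omega, add_assoc, pow_add]
      change _ = 2 * inner ℂ ((Lib.helper23.DbC.U ^ m) ((Lib.helper23.DbC.U ^ (n + 1)) v)) _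
      rw [LinearIsometry.inner_map_map]
      simp [φ, δ, s, map_ofNat]) hu hr)
  have hf2 : ∀ M, ∑ n ∈ Finset.range M, ‖f n‖ ^ 2 ≤ 9 / 8 := fun M => by
    refine (Finset.sum_le_sum_of_subset_of_nonneg (Finset.range_mono (Nat.le_succ M))
      fun _ _ _ => by positivity).trans ?_
    have := hf1 (M + 1)
    rw [Lib.helper23.DbB.Q, Finset.sum_Ico_eq_sum_range, Nat.add_sub_cancel] at this
    rw [Finset.sum_range_succ', hf0]
    simp only [add_comm 1] at this
    norm_num at this ⊢
    linarith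
  have hf3 : Summable fun n => ‖f n‖ ^ 2 := summable_of_sum_range_le (fun _ => by positivity) hf2
  have hc2 : ∀ m, ‖c m‖ ^ 2 ≤ 1 / 64 * (1 / 2) ^ m := fun m => by
    have h1 : (1 / 2 : ℝ) ^ m ≤ 1 := pow_le_one₀ (by norm_num) (by norm_num)
    have h2 : (0 : ℝ) ≤ (1 / 2) ^ m := by positivity
    have := pow_le_pow_left₀ (norm_nonneg _) (hc1 m) 2
    nlinarith
  have hc3 := hasSum_geometric_two.mul_left (1 / 64)
  have hc4 : Summable fun m => ‖c m‖ ^ 2 :=
    Summable.of_nonneg_of_le (fun _ => by positivity) hc2 hc3.summable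
  have key := hmain (fun k => (δ k + -1 * t k) / 2) (fun k => (δ k + 1 * t k) / 2) φ
    (fun g hg => ?_) (fun g hg h => ?_) (by simp [δ, ht0]) (by simp [δ, ht0]) (fun n => ?_) f c hf3
    (fun m => ?_) hc4
  · have h1 := key.1 ⟨δ, hδ1.summable, rfl⟩
    simp only [δ, Lib.helper23.DbC.conv_lin] at h1
    have h2 := (Lib.helper23.DbC.summ hf3 (hsum 1 δ hδ1.summable) 1 1).sum_le_tsum {0}
      fun _ _ => by positivity
    simp only [one_mul] at h1 h2
    rw [Finset.sum_singleton, hf0, hδ, ht0] at h2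
    have h3 := hf3.tsum_le_of_sum_range_le hf2
    have h4 := hasSum_le hc2 hc4.hasSum hc3
    have h5 := hδ1.tsum_eq
    simp only [δ] at h2 h5
    norm_num at h2 h4
    linarith
  · simp only [δ, Lib.helper23.DbC.conv_lin]
    refine ⟨hsum _ g hg, hsum _ g hg, ?_⟩
    rw [← (hsum _ g hg).tsum_add (hsum _ g hg)]
    have h1 := (hg.hasSum.add (hiso g hg)).div_const 2
    rw [add_self_div_two] at h1
    rw [← h1.tsum_eq]
    refine tsum_congr fun n => ?_
    have := parallelogram_law_with_norm ℂ (g n) (Lib.helper23.DbA.conv t g n)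
    simp only [norm_div, Complex.norm_two, neg_mul, one_mul, ← sub_eq_add_neg, div_pow]
    nlinarith
  · have h1 : ∀ j, HasSum (fun n => t n * starRingEnd ℂ (g (n + j))) (starRingEnd ℂ (g j)) := by
      intro j
      have h2 : Summable fun n => t n * starRingEnd ℂ (g (n + j)) := by
        refine Summable.of_norm_bounded (ht2.add ((summable_nat_add_iff j).2 hg)) fun n => ?_
        rw [norm_mul, Complex.norm_conj]
        nlinarith [sq_nonneg (‖t n‖ - ‖g (n + j)‖), norm_nonneg (t n), norm_nonneg (g (n + j))]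
      have h3 := hasSum_single (f := fun n => δ n * starRingEnd ℂ (g (n + j))) 0
        fun n hn => by simp [δ, hn]
      have h4 := ((h3.sub h2.hasSum).div_const 2).tsum_eq
      have h5 := h j
      rw [tsum_congr (g := fun n => (δ n * starRingEnd ℂ (g (n + j)) -
        t n * starRingEnd ℂ (g (n + j))) / 2) fun n => by ring, h4] at h5
      have h6 : ∑' n, t n * starRingEnd ℂ (g (n + j)) = starRingEnd ℂ (g j) := by
        simp only [δ, Pi.single_eq_same, one_mul, zero_add] at h5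
        linear_combination -2 * h5
      exact h6 ▸ h2.hasSum
    funext i
    have := Lib.helper23.DbC.outer0 t ht0 (fun g N => by
      have := Lib.helper23.DbA.energy Lib.helper23.DbC.U hv g N
      rw [← ht] at this
      nlinarith [sq_nonneg ‖Lib.helper23.DbA.st Lib.helper23.DbC.U v g N‖]) (fun n => g (n + i))
      ((summable_nat_add_iff i).2 hg) fun j => by simpa only [add_assoc] using h1 (j + i)
    simpa using this
  · simp only [δ, Lib.helper23.DbC.conv_lin]
    have h1 : Lib.helper23.DbA.conv t φ n = 2 * Lib.helper23.DbA.conv t s n - t n := by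
      rw [← hδ n]
      simp only [Lib.helper23.DbA.conv, φ, Finset.mul_sum, ← Finset.sum_sub_distrib]
      exact Finset.sum_congr rfl fun _ _ => by ring
    rw [h1]
    cases n with
    | zero => simp [φ, δ, Lib.helper23.DbA.conv, ht0, hs0]; norm_num
    | succ n =>
      rw [show Lib.helper23.DbA.conv t s (n + 1) = s (n + 1) from
        Lib.helper23.DbA.renewal Lib.helper23.DbC.U hv n]
      simp [φ, δ]
  · refine ((hc m).comp (Filter.tendsto_add_atTop_nat m)).congr fun N => ?_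
    simp only [Function.comp, Lib.helper23.DbB.I]
    rw [← Finset.sum_Ico_consecutive _ (Nat.zero_le m) (Nat.le_add_left _ _),
      Finset.sum_eq_zero fun k hk => by rw [if_neg (by simpa using hk), zero_mul], zero_add,
      Finset.sum_Ico_eq_sum_range, Nat.add_sub_cancel]
    exact Finset.sum_congr rfl fun n _ => by rw [if_pos (by omega), Nat.add_sub_cancel_left]

end Pool.Agent.S03716
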