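import Pool.Statements.S03735
import Pool.Agent.Lib.helper15.Bac

set_option autoImplicit false
open Pool Pool.MP_086137_an

namespace Pool.Agent.S03735

open Filter Topology TensorProduct Pool.Agent.Lib.helper15.Bac

section
variable {A : Type} [NormedRing A] [NormedAlgebra ℂ A]

structure St (A : Type) [NormedRing A] [NormedAlgebra ℂ A] where
  J : Submodule ℂ A
  hJ : ∀ a x : A, x ∈ J → a * x ∈ J ∧ x * a ∈ J
  n : ℕ
  b : Fin n → A
  φ : Fin n → A →L[ℂ] ℂ
  hφ : ∀ j, ∀ x ∈ J, φ j x = 0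
  hb : ∀ x, x - ∑ j, φ j x • b j ∈ J
  M0 : A ⊗[ℂ] A
  h1 : LinearMap.mul' ℂ A M0 - 1 ∈ J
  h2 : ∀ a, qq J (lm a M0 - rm a M0) = 0
  C : ℝ
  hC0 : 0 ≤ C
  hC : ∀ F : Finset A, ∀ ε : ℝ, 0 < ε → ∃ M, qq J (M0 - M) = 0 ∧
      (∀ a, ‖io (lm a M - rm a M)‖ ≤ C * ‖a‖) ∧ ∀ a ∈ F, ‖io (lm a M - rm a M)‖ < ε

lemma qq_lm (J : Submodule ℂ A) (hJ : ∀ a x : A, x ∈ J → a * x ∈ J ∧ x * a ∈ J) (a : A)
    (t : A ⊗[ℂ] A) (ht : qq J t = 0) : qq J (lm a t) = 0 ∧ qq J (rm a t) = 0 := by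
  have h0 : ∀ x ∈ J, J.mkQ x = 0 := fun x hx => (Submodule.Quotient.mk_eq_zero J).2 hx
  constructor
  · refine factor J ((qq J).comp (lm a)) (fun x hx y => ?_) (fun x y hy => ?_) t ht
    · show J.mkQ (a * x) ⊗ₜ J.mkQ y = 0
      rw [h0 _ (hJ a x hx).1, zero_tmul]
    · show J.mkQ (a * x) ⊗ₜ J.mkQ y = 0
      rw [h0 _ hy, tmul_zero]
  · refine factor J ((qq J).comp (rm a)) (fun x hx y => ?_) (fun x y hy => ?_) t ht
    · show J.mkQ x ⊗ₜ J.mkQ (y * a) = 0
      rw [h0 _ hx, zero_tmul]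
    · show J.mkQ x ⊗ₜ J.mkQ (y * a) = 0
      rw [h0 _ (hJ a y hy).2, tmul_zero]

lemma exists_St (hA : BAC A) (J : Submodule ℂ A) (hJ : ∀ a x : A, x ∈ J → a * x ∈ J ∧ x * a ∈ J)
    (hc : IsClosed (J : Set A)) [FiniteDimensional ℂ (A ⧸ J)] : ∃ S : St A, S.J = J := by
  obtain ⟨M0, h1, h2⟩ := exists_diag hA J hJ hc
  obtain ⟨C, hC0, hC⟩ := gen2 hA (LinearMap.ker (qq J)) (fun a t ht => (qq_lm J hJ a t ht).1)
    (fun a t ht => (qq_lm J hJ a t ht).2) M0 h2
  let β := Module.finBasis ℂ (A ⧸ J)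
  choose b hb using fun j => J.mkQ_surjective (β j)
  refine ⟨⟨J, hJ, _, b, fun j => (LinearMap.toContinuousLinearMap (β.coord j)).comp J.mkQL,
    fun j x hx => ?_, fun x => ?_, M0, h1, h2, C, hC0, hC⟩, rfl⟩
  · show β.coord j (J.mkQ x) = 0
    rw [show J.mkQ x = 0 from (Submodule.Quotient.mk_eq_zero J).2 hx, map_zero]
  · rw [← Submodule.Quotient.mk_eq_zero, ← Submodule.mkQ_apply, map_sub, map_sum, sub_eq_zero]
    simp only [map_smul, hb]
    exact (β.sum_repr _).symm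

namespace St
variable (S : St A)

lemma modJ (β : A ⊗[ℂ] A →ₗ[ℂ] A) (h1 : ∀ x ∈ S.J, ∀ y, β (x ⊗ₜ y) ∈ S.J)
    (h2 : ∀ x, ∀ y ∈ S.J, β (x ⊗ₜ y) ∈ S.J) (t : A ⊗[ℂ] A) (ht : qq S.J t = 0) : β t ∈ S.J :=
  (Submodule.Quotient.mk_eq_zero S.J).1 (factor S.J (S.J.mkQ.comp β)
    (fun x hx y => (Submodule.Quotient.mk_eq_zero S.J).2 (h1 x hx y))
    (fun x y hy => (Submodule.Quotient.mk_eq_zero S.J).2 (h2 x y hy)) t ht)

lemma pi_mem (M : A ⊗[ℂ] A) (hM : qq S.J (S.M0 - M) = 0) : 1 - LinearMap.mul' ℂ A M ∈ S.J := by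
  have := S.modJ (LinearMap.mul' ℂ A) (fun x hx y => (S.hJ y x hx).2) (fun x y hy => (S.hJ x y hy).1)
    _ hM
  have := S.J.sub_mem this S.h1
  rw [map_sub] at this
  convert this using 1; abel

noncomputable def κ : ℝ := ∑ j, ‖S.b j‖ * ‖S.φ j‖
lemma κ_nonneg : 0 ≤ S.κ := Finset.sum_nonneg fun _ _ => by positivity
noncomputable def K : ℝ := 1 + S.κ * S.C
lemma K_nonneg : 0 ≤ S.K := by have := S.κ_nonneg; have := S.hC0; unfold K; positivity

lemma left (M : A ⊗[ℂ] A) (hM : qq S.J (S.M0 - M) = 0) :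
    ∃ e ∈ S.J, ∀ x ∈ S.J, ‖e * x - x‖ ≤ S.κ * ‖io (lm x M - rm x M)‖ := by
  refine ⟨1 - ∑ j, S.b j * sl (S.φ j : A →ₗ[ℂ] ℂ) M, ?_, fun x hx => ?_⟩
  · have : ∀ t : A ⊗[ℂ] A, LinearMap.mul' ℂ A t - ∑ j, S.b j * sl (S.φ j : A →ₗ[ℂ] ℂ) t ∈ S.J := by
      intro t
      induction t using TensorProduct.induction_on with
      | zero => simp
      | tmul x y =>
        convert (S.hJ y _ (S.hb x)).2 using 1
        simp [sub_mul, Finset.sum_mul]
      | add x y hx hy =>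
        convert S.J.add_mem hx hy using 1
        simp only [map_add, mul_add, Finset.sum_add_distrib]; abel
    convert S.J.add_mem (S.pi_mem M hM) (this M) using 1; abel
  · have e : ∀ j, ∀ t : A ⊗[ℂ] A, sl (S.φ j : A →ₗ[ℂ] ℂ) (lm x t - rm x t) =
        -(sl (S.φ j : A →ₗ[ℂ] ℂ) t * x) := by
      intro j t
      induction t using TensorProduct.induction_on with
      | zero => simp
      | tmul u v => simp [S.hφ j _ (S.hJ u x hx).2]
      | add u v hu hv => simp only [map_add, add_sub_add_comm, hu, hv, add_mul, neg_add]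
    rw [sub_mul, one_mul, sub_sub_cancel_left, norm_neg, Finset.sum_mul, κ, Finset.sum_mul]
    refine (norm_sum_le _ _).trans (Finset.sum_le_sum fun j _ => ?_)
    rw [mul_assoc, mul_assoc]
    refine (norm_mul_le _ _).trans (mul_le_mul_of_nonneg_left ?_ (norm_nonneg _))
    rw [← norm_neg, ← e, mul_comm]
    exact sl_norm _ _

lemma right (M : A ⊗[ℂ] A) (hM : qq S.J (S.M0 - M) = 0) :
    ∃ e ∈ S.J, ∀ x ∈ S.J, ‖x * e - x‖ ≤ S.κ * ‖io (lm x M - rm x M)‖ := by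
  refine ⟨1 - ∑ j, sr (S.φ j : A →ₗ[ℂ] ℂ) M * S.b j, ?_, fun x hx => ?_⟩
  · have : ∀ t : A ⊗[ℂ] A, LinearMap.mul' ℂ A t - ∑ j, sr (S.φ j : A →ₗ[ℂ] ℂ) t * S.b j ∈ S.J := by
      intro t
      induction t using TensorProduct.induction_on with
      | zero => simp
      | tmul x y =>
        convert (S.hJ x _ (S.hb y)).1 using 1
        simp [mul_sub, Finset.mul_sum]
      | add x y hx hy =>
        convert S.J.add_mem hx hy using 1
        simp only [map_add, add_mul, Finset.sum_add_distrib]; abel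
    convert S.J.add_mem (S.pi_mem M hM) (this M) using 1; abel
  · have e : ∀ j, ∀ t : A ⊗[ℂ] A, sr (S.φ j : A →ₗ[ℂ] ℂ) (lm x t - rm x t) =
        x * sr (S.φ j : A →ₗ[ℂ] ℂ) t := by
      intro j t
      induction t using TensorProduct.induction_on with
      | zero => simp
      | tmul u v => simp [S.hφ j _ (S.hJ v x hx).1]
      | add u v hu hv => simp only [map_add, add_sub_add_comm, hu, hv, mul_add]
    rw [mul_sub, mul_one, sub_sub_cancel_left, norm_neg, Finset.mul_sum, κ, Finset.sum_mul]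
    refine (norm_sum_le _ _).trans (Finset.sum_le_sum fun j _ => ?_)
    rw [← mul_assoc, mul_assoc ‖S.b j‖, mul_comm ‖S.b j‖]
    refine (norm_mul_le _ _).trans (mul_le_mul_of_nonneg_right ?_ (norm_nonneg _))
    rw [← e, mul_comm]
    exact sr_norm _ _

def E : Set A := {e | e ∈ S.J ∧ ∀ x ∈ S.J, ‖e * x‖ ≤ S.K * ‖x‖}
def F : Set A := {e | e ∈ S.J ∧ ∀ x ∈ S.J, ‖x * e‖ ≤ S.K * ‖x‖}

lemma both (G : Finset A) (hG : ∀ x ∈ G, x ∈ S.J) (ε : ℝ) (hε : 0 < ε) :
    (∃ e ∈ S.E, ∀ x ∈ G, ‖e * x - x‖ ≤ ε) ∧ ∃ e ∈ S.F, ∀ x ∈ G, ‖x * e - x‖ ≤ ε := by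
  have hκ := S.κ_nonneg
  obtain ⟨M, hM, h1, h2⟩ := S.hC G (ε / (S.κ + 1)) (by positivity)
  have a1 : ∀ x y : A, ‖y - x‖ ≤ S.κ * ‖io (lm x M - rm x M)‖ → ‖y‖ ≤ S.K * ‖x‖ := by
    intro x y h
    have := norm_add_le (y - x) x
    rw [sub_add_cancel] at this
    have := mul_le_mul_of_nonneg_left (h1 x) hκ
    unfold K; nlinarith
  have a2 : ∀ x ∈ G, S.κ * ‖io (lm x M - rm x M)‖ ≤ ε := by
    intro x hx
    have := h2 x hx
    rw [lt_div_iff₀ (by positivity)] at this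
    nlinarith [norm_nonneg (io (lm x M - rm x M))]
  obtain ⟨e, he, he'⟩ := S.left M hM
  obtain ⟨f, hf, hf'⟩ := S.right M hM
  exact ⟨⟨e, ⟨he, fun x hx => a1 _ _ (he' x hx)⟩, fun x hx => (he' x (hG x hx)).trans (a2 x hx)⟩,
    ⟨f, ⟨hf, fun x hx => a1 _ _ (hf' x hx)⟩, fun x hx => (hf' x (hG x hx)).trans (a2 x hx)⟩⟩

def W : Submodule ℂ A where
  carrier := {x | ∃ c, ∀ f ∈ S.F, ‖x * f‖ ≤ c}
  add_mem' := fun ⟨c, hc⟩ ⟨d, hd⟩ => ⟨c + d, fun f hf => by
    rw [add_mul]; exact (norm_add_le _ _).trans (add_le_add (hc f hf) (hd f hf))⟩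
  zero_mem' := ⟨0, by simp⟩
  smul_mem' := fun a x ⟨c, hc⟩ => ⟨‖a‖ * c, fun f hf => by
    rw [smul_mul_assoc, norm_smul]; exact mul_le_mul_of_nonneg_left (hc f hf) (norm_nonneg _)⟩

def W' : Submodule ℂ A where
  carrier := {x | ∃ c, ∀ e ∈ S.E, ‖e * x‖ ≤ c}
  add_mem' := fun ⟨c, hc⟩ ⟨d, hd⟩ => ⟨c + d, fun f hf => by
    rw [mul_add]; exact (norm_add_le _ _).trans (add_le_add (hc f hf) (hd f hf))⟩
  zero_mem' := ⟨0, by simp⟩
  smul_mem' := fun a x ⟨c, hc⟩ => ⟨‖a‖ * c, fun f hf => by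
    rw [mul_smul_comm, norm_smul]; exact mul_le_mul_of_nonneg_left (hc f hf) (norm_nonneg _)⟩

lemma W_mul (a x : A) (hx : x ∈ S.W) : a * x ∈ S.W := by
  obtain ⟨c, hc⟩ := hx
  exact ⟨‖a‖ * c, fun f hf => by
    rw [mul_assoc]
    exact (norm_mul_le _ _).trans (mul_le_mul_of_nonneg_left (hc f hf) (norm_nonneg _))⟩

lemma W'_mul (a x : A) (hx : x ∈ S.W') : x * a ∈ S.W' := by
  obtain ⟨c, hc⟩ := hx
  exact ⟨c * ‖a‖, fun f hf => by
    rw [← mul_assoc]
    exact (norm_mul_le _ _).trans (mul_le_mul_of_nonneg_right (hc f hf) (norm_nonneg _))⟩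

lemma J_W (x : A) (hx : x ∈ S.J) : x ∈ S.W := ⟨_, fun f hf => hf.2 x hx⟩
lemma J_W' (x : A) (hx : x ∈ S.J) : x ∈ S.W' := ⟨_, fun f hf => hf.2 x hx⟩

noncomputable def sand (ψ : A →L[ℂ] ℂ) (v w : A) : A →L[ℂ] ℂ :=
  ψ.comp (ContinuousLinearMap.mulLeftRight ℂ A v w)

omit S in
@[simp] lemma sand_apply (ψ : A →L[ℂ] ℂ) (v w x : A) : sand ψ v w x = ψ (v * x * w) := rfl

lemma key (x0 : A) (h0 : x0 ∉ S.W') : ∃ ψ : A →L[ℂ] ℂ, ψ 1 = 1 ∧ (∀ x, x0 * x ∈ S.J → ψ x = 0) ∧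
    ∀ v w, sl (sand ψ v w : A →ₗ[ℂ] ℂ) S.M0 ∈ S.W := by
  have hK := S.K_nonneg
  have hC := S.hC0
  have : ∀ n : ℕ, ∃ e ∈ S.E, (n : ℝ) < ‖e * x0‖ := fun n => by
    by_contra h; push Not at h; exact h0 ⟨n, h⟩
  choose e he hr using this
  have hr0 : ∀ n, 0 < ‖e n * x0‖ := fun n => lt_of_le_of_lt (Nat.cast_nonneg n) (hr n)
  choose l hl1 hl2 using fun n => exists_dual_vector ℂ (e n * x0) (hr0 n).ne'
  have hlb : ∀ n x, ‖l n x‖ ≤ ‖x‖ := fun n x => by simpa [hl1] using (l n).le_opNorm x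
  let r : ℕ → ℂ := fun n => ((‖e n * x0‖ : ℝ) : ℂ)⁻¹
  have hrn : ∀ n, ‖r n‖ = ‖e n * x0‖⁻¹ := fun n => by simp [r]
  have hrt : Tendsto (fun n => ‖r n‖) atTop (𝓝 0) := by
    simp only [hrn]
    exact tendsto_inv_atTop_zero.comp
      (tendsto_atTop_mono (fun n => (hr n).le) tendsto_natCast_atTop_atTop)
  let ψn : ℕ → WeakDual ℂ A := fun n =>
    StrongDual.toWeakDual (r n • (l n).comp (ContinuousLinearMap.mul ℂ A (e n * x0)))
  have hψn : ∀ n x, ψn n x = r n * l n (e n * x0 * x) := fun _ _ => rfl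
  obtain ⟨ψ', -, hψ'⟩ := (WeakDual.isCompact_closedBall (0 : StrongDual ℂ A) 1).ultrafilter_le_nhds
    ((hyperfilter ℕ).map ψn) (by
      rw [Ultrafilter.coe_map, le_principal_iff, mem_map]
      refine univ_mem' fun n => ?_
      show _ ∈ Metric.closedBall _ _
      rw [mem_closedBall_zero_iff]
      refine ContinuousLinearMap.opNorm_le_bound _ zero_le_one fun x => ?_
      show ‖ψn n x‖ ≤ _
      rw [hψn, norm_mul, hrn, inv_mul_le_iff₀ (hr0 n), one_mul]
      exact (hlb _ _).trans (norm_mul_le _ _))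
  let ψ : A →L[ℂ] ℂ := WeakDual.toStrongDual ψ'
  have hU : (hyperfilter ℕ : Filter ℕ) ≤ atTop := Nat.hyperfilter_le_atTop
  have hlim : ∀ x, Tendsto (fun n => r n * l n (e n * x0 * x)) (hyperfilter ℕ) (𝓝 (ψ x)) := fun x =>
    ((WeakDual.eval_continuous x).tendsto ψ').comp hψ'
  have hz : ∀ (g : ℕ → ℂ) (c : ℝ), (∀ n, ‖g n‖ ≤ c) →
      Tendsto (fun n => r n * g n) (hyperfilter ℕ) (𝓝 0) := by
    intro g c hg
    refine (squeeze_zero_norm (a := fun n => ‖r n‖ * c) (fun n => ?_) ?_).mono_left hU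
    · rw [norm_mul]; exact mul_le_mul_of_nonneg_left (hg n) (norm_nonneg _)
    · simpa using hrt.mul_const c
  have hψ0 : ∀ x, x0 * x ∈ S.J → ψ x = 0 := fun x hx =>
    tendsto_nhds_unique (hlim x) (hz _ (S.K * ‖x0 * x‖) fun n =>
      (hlb _ _).trans (by rw [mul_assoc]; exact (he n).2 _ hx))
  refine ⟨ψ, ?_, hψ0, fun v w => ?_⟩
  · refine tendsto_nhds_unique (hlim 1) (tendsto_const_nhds.congr fun n => ?_)
    rw [mul_one, hl2]
    exact (inv_mul_cancel₀ (by exact_mod_cast (hr0 n).ne')).symm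
  set θ := sand ψ v w with hθ
  have hθJ : ∀ x ∈ S.J, θ x = 0 := fun x hx =>
    hψ0 _ (S.hJ _ _ (S.hJ w _ (S.hJ v x hx).1).2).1
  let s : A →L[ℂ] A := ∑ j, (S.φ j).smulRight (S.b j)
  have hs : ∀ x, s x = ∑ j, S.φ j x • S.b j := fun x => by simp [s]
  let P : A →L[ℂ] A := 1 - s
  have hP : ∀ x, P x ∈ S.J := fun x => by
    show x - s x ∈ S.J
    rw [hs]; exact S.hb x
  have hsJ : ∀ x ∈ S.J, s x = 0 := fun x hx => by simp [hs, S.hφ _ x hx]
  have hPJ : ∀ x ∈ S.J, P x = x := fun x hx => by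
    show x - s x = x
    rw [hsJ x hx, sub_zero]
  have hW : s (sl (θ : A →ₗ[ℂ] ℂ) S.M0) ∈ S.W := by
    refine ⟨‖θ‖ + S.C * ‖v‖ * ‖w‖ * (S.K * ‖P‖), fun f hf => ?_⟩
    obtain ⟨M, hM, h1, h2⟩ := S.hC {f} 1 one_pos
    have e1 : s (sl (θ : A →ₗ[ℂ] ℂ) S.M0) = s (sl (θ : A →ₗ[ℂ] ℂ) M) := by
      have := factor S.J ((s : A →ₗ[ℂ] A).comp (sl (θ : A →ₗ[ℂ] ℂ)))
        (fun x hx y => by simp [hθJ x hx]) (fun x y hy => by simp [hsJ y hy]) _ hM
      rw [map_sub, sub_eq_zero] at this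
      exact this
    set g := sl (θ : A →ₗ[ℂ] ℂ) M with hg
    have e2 : ‖g * f‖ ≤ ‖θ‖ := by
      have e : ∀ t : A ⊗[ℂ] A, sl (θ : A →ₗ[ℂ] ℂ) (lm f t - rm f t) =
          -(sl (θ : A →ₗ[ℂ] ℂ) t * f) := by
        intro t
        induction t using TensorProduct.induction_on with
        | zero => simp
        | tmul u v => simp only [lm_tmul, rm_tmul, map_sub, sl_tmul, ContinuousLinearMap.coe_coe,
            hθJ _ (S.hJ u f hf.1).2]; simp
        | add u v hu hv => simp only [map_add, add_sub_add_comm, hu, hv, add_mul, neg_add]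
      rw [← norm_neg, ← e]
      refine (sl_norm _ _).trans (mul_le_of_le_one_left (norm_nonneg _) ?_)
      exact (h2 f (Finset.mem_singleton_self f)).le
    have e3 : ‖P g * f‖ ≤ S.C * ‖v‖ * ‖w‖ * (S.K * ‖P‖) := by
      refine NormedSpace.norm_le_dual_bound ℂ _ (by positivity) fun μ => ?_
      let μ' : A →L[ℂ] ℂ := (μ.comp ((ContinuousLinearMap.mul ℂ A).flip f)).comp P
      have hμ' : ∀ y, μ' y = μ (P y * f) := fun _ => rfl
      have hμn : ‖μ'‖ ≤ S.K * ‖P‖ * ‖μ‖ :=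
        ContinuousLinearMap.opNorm_le_bound _ (by positivity) fun y => by
          rw [hμ']
          calc _ ≤ ‖μ‖ * ‖P y * f‖ := μ.le_opNorm _
            _ ≤ ‖μ‖ * (S.K * (‖P‖ * ‖y‖)) := by
              gcongr
              exact (hf.2 _ (hP y)).trans (mul_le_mul_of_nonneg_left (P.le_opNorm y) hK)
            _ = _ := by ring
      let θn : ℕ → A →L[ℂ] ℂ := fun n => r n • (l n).comp ((ContinuousLinearMap.mul ℂ A).flip w)
      have hθn : ∀ n x, θn n x = r n * l n (x * w) := fun _ _ => rfl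
      have hθb : ∀ n, ‖θn n‖ ≤ ‖r n‖ * ‖w‖ := fun n =>
        ContinuousLinearMap.opNorm_le_bound _ (by positivity) fun x => by
          rw [hθn, norm_mul, mul_assoc, mul_comm ‖w‖]
          exact mul_le_mul_of_nonneg_left ((hlb _ _).trans (norm_mul_le _ _)) (norm_nonneg _)
      have t1 : ∀ t : A ⊗[ℂ] A, Tendsto (fun n => μ' (sl (θn n : A →ₗ[ℂ] ℂ)
          (lm (e n * x0 * v) t - rm (e n * x0 * v) t))) (hyperfilter ℕ)
          (𝓝 (μ' (sl (θ : A →ₗ[ℂ] ℂ) t))) := by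
        intro t
        induction t using TensorProduct.induction_on with
        | zero => simp
        | tmul x y =>
          have a1 := (hlim (v * x * w)).mul_const (μ' y)
          have a2 := hz (fun n => l n (x * w) * μ' (y * (e n * x0 * v)))
            (‖x * w‖ * (‖μ‖ * (‖y‖ * (S.K * ‖x0 * v * f‖)))) fun n => by
              rw [norm_mul, hμ', hPJ _ (S.hJ y _ (S.hJ v _ (S.hJ x0 _ (he n).1).2).2).1]
              refine mul_le_mul (hlb _ _) ((μ.le_opNorm _).trans ?_) (norm_nonneg _) (norm_nonneg _)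
              refine mul_le_mul_of_nonneg_left ?_ (norm_nonneg _)
              rw [mul_assoc]
              refine (norm_mul_le _ _).trans (mul_le_mul_of_nonneg_left ?_ (norm_nonneg _))
              rw [mul_assoc (e n), mul_assoc (e n)]
              exact (he n).2 _ (S.hJ _ f hf.1).1
          have a3 := a1.sub a2
          rw [sub_zero] at a3
          simp only [lm_tmul, rm_tmul, map_sub, sl_tmul, ContinuousLinearMap.coe_coe, map_smul,
            smul_eq_mul, hθn, hθ, sand_apply]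
          simpa only [mul_assoc] using a3
        | add x y hx hy =>
          simp only [map_add, add_sub_add_comm]
          exact hx.add hy
      refine le_of_tendsto' (t1 M).norm fun n => ?_
      refine (sl_bd _ _ _).trans ?_
      calc _ ≤ (S.C * (‖e n * x0‖ * ‖v‖)) * (‖r n‖ * ‖w‖) * (S.K * ‖P‖ * ‖μ‖) := by
            gcongr
            · exact (h1 _).trans (mul_le_mul_of_nonneg_left (norm_mul_le _ _) hC)
            · exact hθb n
        _ = _ := by rw [hrn]; have := (hr0 n).ne'; field_simp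
    rw [e1]
    have : s g * f = g * f - P g * f := by
      show _ = g * f - (g - s g) * f
      rw [sub_mul]; abel
    rw [this]
    exact (norm_sub_le _ _).trans (add_le_add e2 e3)
  have := S.W.add_mem (S.J_W _ (hP (sl (θ : A →ₗ[ℂ] ℂ) S.M0))) hW
  rwa [show ∀ x, P x + s x = x from fun x => sub_add_cancel x (s x)] at this

def T1 : Submodule ℂ A where
  carrier := {x | ∀ v, x * v ∈ S.W}
  add_mem' := fun ha hb v => by rw [add_mul]; exact S.W.add_mem (ha v) (hb v)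
  zero_mem' := fun v => by simp
  smul_mem' := fun c x hx v => by rw [smul_mul_assoc]; exact S.W.smul_mem c (hx v)

def T2 : Submodule ℂ A where
  carrier := {x | ∀ v, v * x ∈ S.W'}
  add_mem' := fun ha hb v => by rw [mul_add]; exact S.W'.add_mem (ha v) (hb v)
  zero_mem' := fun v => by simp
  smul_mem' := fun c x hx v => by rw [mul_smul_comm]; exact S.W'.smul_mem c (hx v)

lemma one_mem : (1 : A) ∈ S.T1 ⊔ S.T2 := by
  set T := S.T1 ⊔ S.T2 with hT
  have hTm : ∀ a x, x ∈ T → a * x ∈ T ∧ x * a ∈ T := by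
    intro a x hx
    obtain ⟨y, hy, z, hz, rfl⟩ := Submodule.mem_sup.1 hx
    rw [mul_add, add_mul]
    refine ⟨Submodule.add_mem_sup (fun v => ?_) (fun v => ?_),
      Submodule.add_mem_sup (fun v => ?_) (fun v => ?_)⟩
    · rw [mul_assoc]; exact S.W_mul _ _ (hy v)
    · rw [← mul_assoc]; exact hz _
    · rw [mul_assoc]; exact hy _
    · rw [← mul_assoc]; exact S.W'_mul _ _ (hz v)
  obtain ⟨T', hT'⟩ := T.exists_isCompl
  let p : A →ₗ[ℂ] A := T.subtype.comp (T.projectionOnto T' hT')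
  have hpT : ∀ x, p x ∈ T := fun x => (T.projectionOnto T' hT' x).2
  have hp : ∀ x ∈ T, p x = x := fun x hx =>
    congrArg Subtype.val (Submodule.projectionOnto_apply_left hT' ⟨x, hx⟩)
  have hJT : ∀ x ∈ S.J, x ∈ T := fun x hx =>
    Submodule.mem_sup_left (fun v => S.J_W _ (S.hJ v x hx).2 : x ∈ S.T1)
  let β1 : A ⊗[ℂ] A →ₗ[ℂ] A := (LinearMap.mul' ℂ A).comp (TensorProduct.map LinearMap.id p)
  let β2 : A ⊗[ℂ] A →ₗ[ℂ] A := (LinearMap.mul' ℂ A).comp (TensorProduct.map p LinearMap.id)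
  have hβ1 : ∀ x y, β1 (x ⊗ₜ y) = x * p y := fun _ _ => rfl
  have hβ2 : ∀ x y, β2 (x ⊗ₜ y) = p x * y := fun _ _ => rfl
  have hT1 : ∀ t, β1 t ∈ T := fun t => by
    induction t using TensorProduct.induction_on with
    | zero => simp
    | tmul x y => exact (hTm x _ (hpT y)).1
    | add x y hx hy => rw [map_add]; exact T.add_mem hx hy
  have hT2 : ∀ t, β2 t ∈ T := fun t => by
    induction t using TensorProduct.induction_on with
    | zero => simp
    | tmul x y => exact (hTm y _ (hpT x)).2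
    | add x y hx hy => rw [map_add]; exact T.add_mem hx hy
  have hz1 : ∀ a ∈ T, a * β1 S.M0 - a ∈ S.J := by
    intro a ha
    have a1 := S.modJ β1 (fun x hx y => (S.hJ _ x hx).2)
      (fun x y hy => by rw [hβ1, hp y (hJT y hy)]; exact (S.hJ x y hy).1) _ (S.h2 a)
    have a2 : ∀ t, β1 (lm a t - rm a t) = a * β1 t - LinearMap.mul' ℂ A t * a := by
      intro t
      induction t using TensorProduct.induction_on with
      | zero => simp
      | tmul x y => simp [hβ1, hp _ (hTm y a ha).1, mul_assoc]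
      | add x y hx hy => simp only [map_add, add_sub_add_comm, hx, hy, mul_add, add_mul]
    rw [a2] at a1
    convert S.J.add_mem a1 (S.hJ a _ S.h1).2 using 1
    rw [sub_mul, one_mul]; abel
  have hz2 : ∀ a ∈ T, β2 S.M0 * a - a ∈ S.J := by
    intro a ha
    have a1 := S.modJ β2 (fun x hx y => by rw [hβ2, hp x (hJT x hx)]; exact (S.hJ y x hx).2)
      (fun x y hy => (S.hJ _ y hy).1) _ (S.h2 a)
    have a2 : ∀ t, β2 (lm a t - rm a t) = a * LinearMap.mul' ℂ A t - β2 t * a := by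
      intro t
      induction t using TensorProduct.induction_on with
      | zero => simp
      | tmul x y => simp [hβ2, hp _ (hTm x a ha).2, mul_assoc]
      | add x y hx hy => simp only [map_add, add_sub_add_comm, hx, hy, mul_add, add_mul]
    rw [a2] at a1
    convert S.J.sub_mem (S.hJ a _ S.h1).1 a1 using 1
    rw [mul_sub, mul_one]; abel
  set ζ := β1 S.M0
  set ζ' := β2 S.M0
  have hζ : ζ ∈ T := hT1 _
  have hζ' : ζ' ∈ T := hT2 _
  by_cases h0 : 1 - ζ' ∈ S.W'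
  · have : 1 - ζ' ∈ S.T2 := by
      intro v
      have a1 := hz1 _ (hTm v _ hζ').2
      have a2 := hz2 _ (hTm v _ hζ).1
      have a3 := S.J.sub_mem (hz1 _ hζ') (hz2 _ hζ)
      have a4 := S.J.add_mem (S.J.sub_mem a2 a1) (S.hJ v _ a3).1
      convert S.W'.add_mem (S.W'_mul v _ h0) (S.J_W' _ a4) using 1
      noncomm_ring
    simpa using T.add_mem (Submodule.mem_sup_right this) hζ'
  exfalso
  obtain ⟨ψ, hψ1, hψ0, hψ⟩ := S.key _ h0
  have hψT : ∀ x ∈ T, ψ x = 0 := fun x hx => hψ0 x (by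
    convert S.J.neg_mem (hz2 x hx) using 1
    rw [sub_mul, one_mul]; abel)
  have hy : ∀ w, sl (sand ψ 1 w : A →ₗ[ℂ] ℂ) S.M0 ∈ T := by
    intro w
    refine Submodule.mem_sup_left (fun v => ?_ : _ ∈ S.T1)
    have a1 := S.modJ (sl (sand ψ 1 w : A →ₗ[ℂ] ℂ)) (fun x hx y => by
        simp [hψT _ (hJT _ (S.hJ w x hx).2)])
      (fun x y hy => S.J.smul_mem _ hy) _ (S.h2 v)
    have a2 : ∀ t, sl (sand ψ 1 w : A →ₗ[ℂ] ℂ) (lm v t - rm v t) =
        sl (sand ψ v w : A →ₗ[ℂ] ℂ) t - sl (sand ψ 1 w : A →ₗ[ℂ] ℂ) t * v := by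
      intro t
      induction t using TensorProduct.induction_on with
      | zero => simp
      | tmul x y => simp
      | add x y hx hy => simp only [map_add, add_sub_add_comm, hx, hy, add_mul]
    rw [a2] at a1
    simpa using S.W.sub_mem (hψ v w) (S.J_W _ a1)
  have a3 : ∀ t, ψ (LinearMap.mul' ℂ A t) = ψ (β1 t) +
      ∑ j, S.φ j (sl (sand ψ 1 (S.b j) : A →ₗ[ℂ] ℂ) t - p (sl (sand ψ 1 (S.b j) : A →ₗ[ℂ] ℂ) t)) := by
    intro t
    induction t using TensorProduct.induction_on with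
    | zero => simp
    | tmul x y =>
      have := hψT _ (hJT _ (S.hJ x _ (S.hb (y - p y))).1)
      rw [mul_sub, mul_sub, map_sub, map_sub, Finset.mul_sum, map_sum] at this
      simp only [LinearMap.mul'_apply, hβ1, sl_tmul, map_smul, ← smul_sub, smul_eq_mul,
        ContinuousLinearMap.coe_coe, sand_apply, one_mul, mul_smul_comm] at this ⊢
      simp only [mul_comm (ψ (x * _))]
      linear_combination this
    | add x y hx hy =>
      simp only [map_add, add_sub_add_comm, hx, hy, Finset.sum_add_distrib]; abel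
  have a4 := a3 S.M0
  simp only [hp _ (hy _), sub_self, map_zero, Finset.sum_const_zero, add_zero] at a4
  have a5 := hψT _ (hJT _ S.h1)
  rw [map_sub, a4, hψ1, hψT _ hζ] at a5
  simp at a5

lemma bdd : ∃ c, ∀ e ∈ S.E, ∀ f ∈ S.F, ‖e * f‖ ≤ c := by
  obtain ⟨y, hy, z, hz, h⟩ := Submodule.mem_sup.1 S.one_mem
  obtain ⟨c, hc⟩ := hy 1
  obtain ⟨d, hd⟩ := hz 1
  rw [mul_one] at hc
  rw [one_mul] at hd
  refine ⟨S.K * c + S.K * d, fun e he f hf => ?_⟩
  have : e * f = e * (y * f) + e * z * f := by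
    rw [← mul_assoc, ← add_mul, ← mul_add, h, mul_one]
  rw [this]
  exact (norm_add_le _ _).trans (add_le_add
    ((he.2 _ (S.hJ y f hf.1).1).trans (mul_le_mul_of_nonneg_left (hc f hf) S.K_nonneg))
    ((hf.2 _ (S.hJ z e he.1).2).trans (mul_le_mul_of_nonneg_left (hd e he) S.K_nonneg)))

end St
end


/-- If a complex Banach algebra has every continuous derivation into every Banach bimodule approximable pointwise by uniformly bounded inner derivations, then every closed two-sided ideal of finite codimension has a bounded two-sided approximate identity. -/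
theorem result :
    ∀ (A : Type) [NormedRing A] [NormedAlgebra ℂ A] [CompleteSpace A],
      (∀ (X : Type) [NormedAddCommGroup X] [NormedSpace ℂ X] [CompleteSpace X]
          (L R : A →L[ℂ] X →L[ℂ] X),
          (∀ a b : A, L (a * b) = (L a).comp (L b)) →
          (∀ a b : A, R (a * b) = (R b).comp (R a)) →
          (∀ a b : A, (L a).comp (R b) = (R b).comp (L a)) →
          ∀ D : A →L[ℂ] X, (∀ a b : A, D (a * b) = L a (D b) + R b (D a)) →
            ∃ C : ℝ, ∀ F : Finset A, ∀ ε : ℝ, 0 < ε → ∃ ξ : X,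
              (∀ a : A, ‖L a ξ - R a ξ‖ ≤ C * ‖a‖) ∧
                ∀ a ∈ F, ‖D a - (L a ξ - R a ξ)‖ < ε) →
      ∀ J : Submodule ℂ A, (∀ a x : A, x ∈ J → a * x ∈ J ∧ x * a ∈ J) →
        IsClosed (J : Set A) → FiniteDimensional ℂ (A ⧸ J) →
        ∃ C : ℝ, ∀ F : Finset A, (∀ x ∈ F, x ∈ J) → ∀ ε : ℝ, 0 < ε →
          ∃ e ∈ J, ‖e‖ ≤ C ∧ ∀ x ∈ F, ‖e * x - x‖ < ε ∧ ‖x * e - x‖ < ε := by
  intro A _ _ _ hA J hJ hc hfd
  obtain ⟨S, rfl⟩ := exists_St hA J hJ hc
  obtain ⟨c, hc⟩ := S.bdd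
  have hE : ∀ e ∈ S.E, ‖e‖ ≤ |c| + 1 := by
    intro e he
    obtain ⟨-, f, hf, h⟩ := S.both {e} (by simpa using he.1) 1 one_pos
    have h1 := h e (Finset.mem_singleton_self e)
    have h2 := norm_sub_le (e * f) (e * f - e)
    rw [sub_sub_cancel] at h2
    linarith [hc e he f hf, le_abs_self c]
  have hF : ∀ e ∈ S.F, ‖e‖ ≤ |c| + 1 := by
    intro f hf
    obtain ⟨⟨e, he, h⟩, -⟩ := S.both {f} (by simpa using hf.1) 1 one_pos
    have h1 := h f (Finset.mem_singleton_self f)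
    have h2 := norm_sub_le (e * f) (e * f - f)
    rw [sub_sub_cancel] at h2
    linarith [hc e he f hf, le_abs_self c]
  set d := |c| + 1 with hd
  have hd0 : 0 < d := by positivity
  refine ⟨d + d + d * d, fun G hG ε hε => ?_⟩
  obtain ⟨⟨e, he, he'⟩, f, hf, hf'⟩ := S.both G hG (ε / (d + 2)) (by positivity)
  have hlt : ε / (d + 2) + d * (ε / (d + 2)) < ε := by
    rw [← one_add_mul, mul_div_assoc', div_lt_iff₀ (by positivity)]; nlinarith
  refine ⟨e + f - f * e, S.J.sub_mem (S.J.add_mem he.1 hf.1) (S.hJ f e he.1).1, ?_,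
    fun x hx => ⟨?_, ?_⟩⟩
  · refine (norm_sub_le _ _).trans (add_le_add ((norm_add_le _ _).trans
      (add_le_add (hE e he) (hF f hf))) ((norm_mul_le _ _).trans ?_))
    exact mul_le_mul (hF f hf) (hE e he) (norm_nonneg _) hd0.le
  · have : (e + f - f * e) * x - x = (e * x - x) - f * (e * x - x) := by noncomm_ring
    rw [this]
    refine lt_of_le_of_lt ((norm_sub_le _ _).trans (add_le_add (he' x hx)
      ((norm_mul_le _ _).trans ?_))) hlt
    exact mul_le_mul (hF f hf) (he' x hx) (norm_nonneg _) hd0.le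
  · have : x * (e + f - f * e) - x = (x * f - x) - (x * f - x) * e := by noncomm_ring
    rw [this]
    refine lt_of_le_of_lt ((norm_sub_le _ _).trans (add_le_add (hf' x hx)
      ((norm_mul_le _ _).trans ?_))) hlt
    rw [mul_comm]
    exact mul_le_mul (hE e he) (hf' x hx) (norm_nonneg _) hd0.le

end Pool.Agent.S03735
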