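import Pool.Statements.S03752
-- import your own Pool.Agent.* helpers here

set_option autoImplicit false
open Pool Pool.MP_097dd0_an

namespace Pool.Agent.S03752

open Set Filter Topology

section
variable {H : Type} [NormedAddCommGroup H] [InnerProductSpace ℝ H]

theorem nested [CompleteSpace H] (C : ℕ → Set H) (hc : ∀ n, Convex ℝ (C n))
    (hcl : ∀ n, IsClosed (C n)) (hne : ∀ n, (C n).Nonempty) (ha : Antitone C) (R : ℝ)
    (hb : ∀ x ∈ C 0, ‖x‖ ≤ R) : ∃ x, ∀ n, x ∈ C n := by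
  choose x hx hx' using fun n =>
    exists_norm_eq_iInf_of_complete_convex (hne n) (hcl n).isComplete (hc n) 0
  have h1 : ∀ n m, n ≤ m → ‖x n - x m‖ ^ 2 ≤ ‖x m‖ ^ 2 - ‖x n‖ ^ 2 := by
    intro n m h
    have := (norm_eq_iInf_iff_real_inner_le_zero (hc n) (hx n)).mp (hx' n) _ (ha h (hx m))
    rw [zero_sub, inner_neg_left, inner_sub_right, real_inner_self_eq_norm_sq] at this
    rw [norm_sub_sq_real]; linarith
  have hm : Monotone fun n => ‖x n‖ ^ 2 := fun n m h => by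
    linarith [h1 n m h, sq_nonneg ‖x n - x m‖]
  have hbd : BddAbove (range fun n => ‖x n‖ ^ 2) := ⟨R ^ 2, by
    rintro _ ⟨n, rfl⟩
    exact pow_le_pow_left₀ (norm_nonneg _) (hb _ (ha (Nat.zero_le n) (hx n))) 2⟩
  have ht := tendsto_atTop_ciSup hm hbd
  have hcs : CauchySeq x := by
    refine cauchySeq_of_le_tendsto_0' (fun n => √((⨆ n, ‖x n‖ ^ 2) - ‖x n‖ ^ 2))
      (fun n m h => ?_) ?_
    · rw [dist_eq_norm]
      exact Real.le_sqrt_of_sq_le ((h1 n m h).trans (sub_le_sub_right (le_ciSup hbd m) _))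
    · have := (ht.const_sub (⨆ n, ‖x n‖ ^ 2)).sqrt
      rwa [sub_self, Real.sqrt_zero] at this
  obtain ⟨y, hy⟩ := cauchySeq_tendsto_of_complete hcs
  exact ⟨y, fun n => (hcl n).mem_of_tendsto hy
    ((eventually_ge_atTop n).mono fun m h => ha h (hx m))⟩

variable {ι : Type} (c : ι → H) (r : ι → ℝ)

noncomputable def L (i : ι) (y : H) : ℝ := 2 * inner ℝ (c i) y - ‖c i‖ ^ 2 + r i ^ 2

theorem L_eq (i : ι) (y : H) : L c r i y = ‖y‖ ^ 2 + r i ^ 2 - ‖y - c i‖ ^ 2 := by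
  rw [L, norm_sub_sq_real, real_inner_comm]; ring

theorem L_add (i : ι) (y v : H) : L c r i (y + v) = L c r i y + 2 * inner ℝ (c i) v := by
  rw [L, L, inner_add_right]; ring

def K (p : H × ℝ) : Prop := ‖p.1‖ ^ 2 < p.2 ∧ ∀ i, L c r i p.1 ≤ p.2

def Good (W : Set (H × ℝ)) : Prop :=
  IsOpen W ∧ (∃ N : Submodule ℝ H, FiniteDimensional ℝ N ∧ ∀ p ∈ W, ∀ v ∈ Nᗮ, (p.1 + v, p.2) ∈ W) ∧
    ∃ p ∈ W, K c r p

variable {c r}

theorem mem_of_L (hr : ∀ i, 0 < r i) {i : ι} {y : H} (h : ‖y‖ ^ 2 ≤ L c r i y) :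
    ‖y - c i‖ ≤ r i := by
  rw [L_eq] at h
  exact abs_le_of_sq_le_sq' (by linarith) (hr i).le |>.2

theorem maxi [CompleteSpace H] (hr : ∀ i, 0 < r i) (hf : ∀ y, {i | ‖y - c i‖ ≤ r i}.Finite)
    (W : Set (H × ℝ)) (h : ∃ p ∈ W, K c r p) : ∃ p ∈ W, K c r p ∧ ∀ q ∈ W, K c r q →
      (∀ i, L c r i p.1 = p.2 → L c r i q.1 = q.2) → ∀ i, L c r i q.1 = q.2 → L c r i p.1 = p.2 := by
  by_contra hc
  push Not at hc
  choose f f1 f2 f3 g g1 g2 using fun p : {p // p ∈ W ∧ K c r p} => hc p.1 p.2.1 p.2.2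
  obtain ⟨p0, hp0⟩ := h
  let F : {p // p ∈ W ∧ K c r p} → {p // p ∈ W ∧ K c r p} := fun p => ⟨f p, f1 p, f2 p⟩
  let s : ℕ → {p // p ∈ W ∧ K c r p} := fun n => F^[n] ⟨p0, hp0⟩
  have hs : ∀ n, (s (n + 1)).1 = f (s n) := fun n => by
    simp only [s, Function.iterate_succ_apply', F]
  have h1 : ∀ n m, n < m → L c r (g (s n)) (s m).1.1 = (s m).1.2 := by
    intro n m h
    induction h with
    | refl => rw [hs]; exact g1 _
    | step _ ih => rw [hs]; exact f3 _ _ ih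
  have hinj : Function.Injective fun n => g (s n) := by
    refine Function.Injective.of_lt_imp_ne fun n m h e => g2 (s m) ?_
    have e' : g (s n) = g (s m) := e
    rw [← e']; exact h1 n m h
  obtain ⟨x, hx⟩ := nested (fun n => ⋂ k ∈ Iic n, Metric.closedBall (c (g (s k))) (r (g (s k))))
    (fun n => convex_iInter₂ fun _ _ => convex_closedBall _ _)
    (fun n => isClosed_biInter fun _ _ => Metric.isClosed_closedBall)
    (fun n => ⟨(s (n + 1)).1.1, mem_iInter₂.mpr fun k hk => mem_closedBall_iff_norm.mpr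
      (mem_of_L hr (by rw [h1 k _ (Nat.lt_succ_of_le hk)]; exact (s (n + 1)).2.2.1.le))⟩)
    (fun n m h => biInter_subset_biInter_left (Iic_subset_Iic.mpr h))
    (‖c (g (s 0))‖ + r (g (s 0))) fun x hx =>
      norm_le_of_mem_closedBall (mem_iInter₂.mp hx 0 self_mem_Iic)
  exact infinite_of_injective_forall_mem hinj
    (fun n => mem_closedBall_iff_norm.mp (mem_iInter₂.mp (hx n) n self_mem_Iic)) (hf x)

theorem disc [CompleteSpace H] (hr : ∀ i, 0 < r i) (hf : ∀ y, {i | ‖y - c i‖ ≤ r i}.Finite)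
    (W : Set (H × ℝ)) (h : Good c r W) : ∃ p ∈ W, K c r p ∧ ∃ N : Submodule ℝ H,
      FiniteDimensional ℝ N ∧ p.1 ∈ N ∧ (∀ p ∈ W, ∀ v ∈ Nᗮ, (p.1 + v, p.2) ∈ W) ∧
      (∀ i, L c r i p.1 = p.2 → c i ∈ N) ∧ ∀ v ∈ Nᗮ, ‖p.1‖ ^ 2 + ‖v‖ ^ 2 < p.2 →
        ∀ i, L c r i p.1 ≠ p.2 → L c r i (p.1 + v) < p.2 := by
  obtain ⟨-, ⟨N, hN, hW⟩, h⟩ := h
  obtain ⟨⟨y, t⟩, hp, hK, hm⟩ := maxi hr hf W h
  have hF : (insert y (c '' {i | L c r i y = t})).Finite :=
    (((hf y).subset fun i (hi : _ = _) => mem_of_L hr (hi ▸ hK.1.le)).image c).insert y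
  haveI := FiniteDimensional.span_of_finite ℝ hF
  set N' := N ⊔ Submodule.span ℝ (insert y (c '' {i | L c r i y = t})) with hN'
  have hy : y ∈ N' := Submodule.mem_sup_right (Submodule.subset_span (mem_insert _ _))
  have hc : ∀ i, L c r i y = t → c i ∈ N' := fun i hi =>
    Submodule.mem_sup_right (Submodule.subset_span (mem_insert_of_mem _ ⟨i, hi, rfl⟩))
  have hW' : ∀ p ∈ W, ∀ v ∈ N'ᗮ, (p.1 + v, p.2) ∈ W := fun p hp v hv =>
    hW p hp v (Submodule.orthogonal_le le_sup_left hv)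
  refine ⟨_, hp, hK, N', inferInstance, hy, hW', hc, fun v hv hvt i0 hi0 => ?_⟩
  by_contra hcon
  have hn : ∀ a : ℝ, ‖y + a • v‖ ^ 2 = ‖y‖ ^ 2 + a ^ 2 * ‖v‖ ^ 2 := fun a => by
    rw [norm_add_sq_real, inner_smul_right, Submodule.inner_right_of_mem_orthogonal hy hv,
      norm_smul, mul_pow, Real.norm_eq_abs, sq_abs]; ring
  have hn1 := hn 1
  simp only [one_smul, one_pow, one_mul] at hn1 hvt hi0 hcon
  have hJ : {i | L c r i y ≠ t ∧ t ≤ L c r i (y + v)}.Finite :=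
    (hf (y + v)).subset fun i hi => mem_of_L hr (by linarith [hi.2])
  obtain ⟨i, ⟨hi1, hi2⟩, hmin⟩ := exists_min_image _
    (fun i => (t - L c r i y) / (2 * inner ℝ (c i) v)) hJ ⟨i0, hi0, not_lt.mp hcon⟩
  have lt : ∀ i, L c r i y ≠ t → 0 < t - L c r i y := fun i hi =>
    sub_pos.mpr (lt_of_le_of_ne (hK.2 i) hi)
  rw [L_add] at hi2
  have b1 : 0 < 2 * inner ℝ (c i) v := by linarith [lt i hi1]
  set a := (t - L c r i y) / (2 * inner ℝ (c i) v) with ha
  have a0 : 0 < a := div_pos (lt i hi1) b1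
  have a1 : a ≤ 1 := (div_le_one b1).mpr (by linarith)
  have e : ∀ j, L c r j (y + a • v) = L c r j y + a * (2 * inner ℝ (c j) v) := fun j => by
    rw [L_add, inner_smul_right]; ring
  have e0 : ∀ j, L c r j y = t → L c r j (y + a • v) = t := fun j hj => by
    rw [e, Submodule.inner_right_of_mem_orthogonal (hc j hj) hv, hj]; ring
  refine hi1 (hm (y + a • v, t) (hW' _ hp _ (Submodule.smul_mem _ a hv)) ⟨?_, fun j => ?_⟩ e0 i ?_)
  · show ‖y + a • v‖ ^ 2 < t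
    rw [hn]
    have : a ^ 2 ≤ 1 := by nlinarith
    nlinarith [sq_nonneg ‖v‖]
  · show L c r j (y + a • v) ≤ t
    by_cases h1 : L c r j y = t
    · exact (e0 j h1).le
    have h2 := lt j h1
    rw [e]
    by_cases h3 : t ≤ L c r j (y + v)
    · have h4 := hmin j ⟨h1, h3⟩
      rw [L_add] at h3
      have := (le_div_iff₀ (by linarith)).mp h4
      linarith
    · rw [L_add] at h3
      nlinarith
  · show L c r i (y + a • v) = t
    rw [e, ha, div_mul_cancel₀ _ b1.ne']; ring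

theorem step [CompleteSpace H] (hH : ¬ FiniteDimensional ℝ H) (hr : ∀ i, 0 < r i)
    (hf : ∀ y, {i | ‖y - c i‖ ≤ r i}.Finite) (W : Set (H × ℝ)) (h : Good c r W) (ρ : ℝ)
    (hρ : 0 < ρ) : ∃ W' ⊆ W, Good c r W' ∧ ∃ z : H, ∃ κ > 0, ∀ p ∈ W', ‖p.1‖ ^ 2 ≤ p.2 →
      ‖p.1 - z‖ ≤ ρ ∧ p.2 ≤ ‖p.1‖ ^ 2 + ρ ^ 2 ∧ ∀ i, ρ ≤ r i → L c r i p.1 + κ ≤ p.2 := by
  obtain ⟨⟨y, t⟩, hp, hK, N, hN, hy, hW, hc, hd⟩ := disc hr hf W h
  simp only at hy hc hd
  have hK1 : ‖y‖ ^ 2 < t := hK.1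
  obtain ⟨s, s0, hs⟩ : ∃ s : ℝ, 0 < s ∧ s ^ 2 = t - ‖y‖ ^ 2 :=
    ⟨√(t - ‖y‖ ^ 2), Real.sqrt_pos.mpr (by linarith), Real.sq_sqrt (by linarith)⟩
  obtain ⟨v, hv, hvs⟩ : ∃ v ∈ Nᗮ, ‖v‖ = s := by
    have : Nᗮ ≠ ⊥ := fun h => hH (by
      rw [Submodule.orthogonal_eq_bot_iff] at h
      rw [h] at hN
      exact Module.Finite.equiv Submodule.topEquiv)
    obtain ⟨v, hv, h0⟩ := Submodule.exists_mem_ne_zero_of_ne_bot this
    have := norm_pos_iff.mpr h0
    exact ⟨(s / ‖v‖) • v, Submodule.smul_mem _ _ hv, by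
      rw [norm_smul, Real.norm_eq_abs, abs_of_pos (by positivity)]; field_simp⟩
  have hyv := Submodule.inner_right_of_mem_orthogonal hy hv
  have hz : ‖y + v‖ ^ 2 = t := by rw [norm_add_sq_real, hyv, hvs]; linarith
  have hG : ∀ i, L c r i (y + v) ≤ t := by
    intro i
    by_cases hi : L c r i y = t
    · rw [L_add, Submodule.inner_right_of_mem_orthogonal (hc i hi) hv, hi]; simp
    have h1 : Tendsto (fun a : ℝ => L c r i y + 2 * (a * inner ℝ (c i) v)) (𝓝[<] 1)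
        (𝓝 (L c r i y + 2 * (1 * inner ℝ (c i) v))) :=
      (Continuous.tendsto (by fun_prop) 1).mono_left nhdsWithin_le_nhds
    rw [L_add, ← one_mul (inner ℝ (c i) v)]
    refine le_of_tendsto h1 ?_
    filter_upwards [Ioo_mem_nhdsLT (zero_lt_one' ℝ)] with a ha
    have := hd (a • v) (Submodule.smul_mem _ a hv) (by
      rw [norm_smul, mul_pow, Real.norm_eq_abs, sq_abs, hvs]
      have : a ^ 2 < 1 := by nlinarith [ha.1, ha.2]
      nlinarith [sq_pos_of_pos s0]) i hi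
    rw [L_add, inner_smul_right] at this
    exact this.le
  obtain ⟨τ, τ0, τ1, hτ⟩ : ∃ τ : ℝ, 0 < τ ∧ τ < 1 ∧ τ * (ρ + s) ≤ ρ / 32 :=
    ⟨ρ / (32 * (ρ + s)), by positivity, (div_lt_one (by positivity)).mpr (by linarith),
      le_of_eq (by field_simp)⟩
  obtain ⟨ε, ε0, ε1, ε2⟩ : ∃ ε : ℝ, 0 < ε ∧ ε ≤ ρ / 2 ∧ ε ≤ τ * s / 32 :=
    ⟨min _ _, by positivity, min_le_left _ _, min_le_right _ _⟩
  let N' := N ⊔ Submodule.span ℝ {v}
  have hvN : v ∈ N' := Submodule.mem_sup_right (Submodule.mem_span_singleton_self v)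
  obtain ⟨T, -, hT, hTc⟩ := finite_cover_balls_of_compact (isCompact_closedBall (0 : N') 1)
    (show (0 : ℝ) < 1 / 4 by norm_num)
  have hJ : {i | L c r i y ≠ t ∧ ρ ≤ r i ∧ ‖y + v - c i‖ ≤ r i + ε}.Finite := by
    refine (hT.biUnion fun m _ => hf (y + v + ρ • (m : H))).subset fun i ⟨i1, i2, i3⟩ => ?_
    have d1 : r i ≤ ‖y + v - c i‖ := by
      have := hG i
      rw [L_eq] at this
      exact (abs_le_of_sq_le_sq' (by linarith) (norm_nonneg _)).2
    have hL := L_eq c r i (y + v)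
    obtain ⟨u, hu, hcu⟩ : ∃ u : H, ‖u‖ = 1 ∧ c i = y + v + ‖y + v - c i‖ • u := by
      have d0 : ‖y + v - c i‖ ≠ 0 := by linarith
      refine ⟨‖y + v - c i‖⁻¹ • (c i - (y + v)), ?_, ?_⟩
      · rw [norm_smul, norm_inv, norm_norm, norm_sub_rev (c i), inv_mul_cancel₀ d0]
      · rw [smul_inv_smul₀ d0]; abel
    generalize ‖y + v - c i‖ = d at *
    obtain ⟨m, hm, w, hw, rfl⟩ := N'.exists_add_mem_mem_orthogonal u
    have hmw := Submodule.inner_right_of_mem_orthogonal hm hw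
    have hvw := Submodule.inner_right_of_mem_orthogonal hvN hw
    have hwN := Submodule.orthogonal_le (le_sup_left : N ≤ N') hw
    have hyw := Submodule.inner_right_of_mem_orthogonal hy hwN
    have n1 : ‖m‖ ^ 2 + ‖w‖ ^ 2 = 1 := by
      have := norm_add_sq_real m w
      rw [hu, hmw] at this; linarith
    have n2 : ‖w‖ ≤ 1 / 4 := by
      have h1 := hd (v + ((-τ ^ 2) • v + (τ * s) • w)) (Submodule.add_mem _ hv
        (Submodule.add_mem _ (Submodule.smul_mem _ _ hv) (Submodule.smul_mem _ _ hwN))) (by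
          rw [← add_assoc, show v + (-τ ^ 2) • v = (1 - τ ^ 2) • v by module, norm_add_sq_real,
            inner_smul_left, inner_smul_right, hvw, norm_smul, norm_smul, mul_pow, mul_pow,
            Real.norm_eq_abs, Real.norm_eq_abs, sq_abs, sq_abs, hvs]
          have h2 : τ ^ 2 < 1 := by nlinarith
          have h3 : 0 < τ ^ 2 * s ^ 2 := by positivity
          have h4 := mul_le_mul_of_nonneg_left (show ‖w‖ ^ 2 ≤ 1 by nlinarith [sq_nonneg ‖m‖]) h3.le
          nlinarith) i i1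
      rw [← add_assoc, L_add, hL, hz] at h1
      have h5 := (abs_le.mp (abs_real_inner_le_norm (m + w) v)).2
      rw [hu, hvs, one_mul] at h5
      have h6 : inner ℝ (c i) ((-τ ^ 2) • v + (τ * s) • w) =
          -τ ^ 2 * s ^ 2 - τ ^ 2 * d * inner ℝ (m + w) v + τ * s * d * ‖w‖ ^ 2 := by
        rw [hcu]
        simp only [inner_add_right, inner_smul_right, inner_add_left (y + v), inner_add_left y,
          inner_smul_left, hyv, hyw, hvw, real_inner_self_eq_norm_sq, hvs, conj_trivial]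
        rw [inner_add_left m w w, hmw, real_inner_self_eq_norm_sq]
        ring
      rw [h6] at h1
      have d0 : 0 < d := by linarith
      have h7 : d ^ 2 - r i ^ 2 ≤ 2 * d * ε := by nlinarith
      have h8 := mul_le_mul_of_nonneg_left h5 (show 0 ≤ τ ^ 2 * d by positivity)
      have h9 : τ * (d + s) ≤ d / 32 := by
        have : τ ≤ 1 / 32 := by nlinarith
        nlinarith
      have h10 := mul_le_mul_of_nonneg_left h9 (show 0 ≤ τ * s by positivity)
      have h11 := mul_le_mul_of_nonneg_left ε2 d0.le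
      have h12 : τ * s * d * ‖w‖ ^ 2 ≤ τ * s * d * (1 / 4) ^ 2 := by nlinarith
      exact (abs_le_of_sq_le_sq' (le_of_mul_le_mul_left h12 (by positivity)) (by norm_num)).2
    obtain ⟨m0, hm0, hmm⟩ := mem_iUnion₂.mp (hTc (show (⟨m, hm⟩ : N') ∈ _ from by
      rw [mem_closedBall_zero_iff]
      exact (abs_le_of_sq_le_sq' (a := ‖m‖) (by nlinarith [sq_nonneg ‖w‖]) zero_le_one).2))
    refine mem_iUnion₂.mpr ⟨m0, hm0, ?_⟩
    have e1 : ‖m - (m0 : H)‖ < 1 / 4 := mem_ball_iff_norm.mp hmm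
    have e2 : y + v + ρ • (m0 : H) - c i = -(ρ • ((m - m0) + w) + (d - ρ) • (m + w)) := by
      rw [hcu]; module
    show ‖y + v + ρ • (m0 : H) - c i‖ ≤ r i
    rw [e2, norm_neg]
    refine (norm_add_le _ _).trans ?_
    rw [norm_smul, norm_smul, hu, Real.norm_eq_abs, Real.norm_eq_abs, abs_of_pos hρ,
      abs_of_nonneg (by linarith)]
    have := mul_le_mul_of_nonneg_left (norm_add_le (m - m0) w) hρ.le
    nlinarith
  have hF : {i | L c r i y = t}.Finite :=
    (hf y).subset fun i (hi : _ = _) => mem_of_L hr (hi ▸ hK.1.le)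
  have hE := hF.union hJ
  set E := {i | L c r i y = t} ∪ {i | L c r i y ≠ t ∧ ρ ≤ r i ∧ ‖y + v - c i‖ ≤ r i + ε} with hE'
  obtain ⟨δ, δ0, δ1, δ2⟩ : ∃ δ : ℝ, 0 < δ ∧ δ < (ε / 2) ^ 2 ∧ (y + v, t + δ) ∈ W := by
    have h1 : ∀ᶠ δ in 𝓝 (0 : ℝ), (y + v, t + δ) ∈ W :=
      (Continuous.tendsto' (f := fun δ : ℝ => (y + v, t + δ)) (by fun_prop) 0 (y + v, t)
        (by simp)).eventually (h.1.mem_nhds (hW _ hp v hv))
    exact (Eventually.and self_mem_nhdsWithin (nhdsWithin_le_nhds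
      ((gt_mem_nhds (by positivity)).and h1)) : ∀ᶠ δ in 𝓝[>] (0 : ℝ), _).exists
  have hF2 : (insert (y + v) (c '' E)).Finite := (hE.image c).insert _
  haveI := FiniteDimensional.span_of_finite ℝ hF2
  refine ⟨W ∩ ({p | p.2 < 2 * inner ℝ (y + v) p.1 - t + (ε / 2) ^ 2} ∩
    ⋂ i ∈ E, {p | L c r i p.1 + δ / 2 < p.2}), inter_subset_left, ⟨h.1.inter
      ((isOpen_lt (by fun_prop) (by fun_prop)).inter (hE.isOpen_biInter fun i _ =>
        isOpen_lt (by unfold L; fun_prop) (by fun_prop))),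
      ⟨N ⊔ Submodule.span ℝ (insert (y + v) (c '' E)), inferInstance, fun p hp w hw => ?_⟩,
      (y + v, t + δ), ⟨δ2, ?_, mem_iInter₂.mpr fun i _ => ?_⟩, ?_, fun i => ?_⟩,
    y + v, min (δ / 2) (ε * ρ), by positivity, fun p ⟨_, p1, p2⟩ p3 => ?_⟩
  · have o : ∀ x ∈ insert (y + v) (c '' E), inner ℝ x w = 0 := fun x hx =>
      Submodule.inner_right_of_mem_orthogonal
        (Submodule.mem_sup_right (Submodule.subset_span hx)) hw
    refine ⟨hW p hp.1 w (Submodule.orthogonal_le le_sup_left hw), ?_,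
      mem_iInter₂.mpr fun i hi => ?_⟩
    · show p.2 < 2 * inner ℝ (y + v) (p.1 + w) - t + (ε / 2) ^ 2
      rw [inner_add_right, o _ (mem_insert _ _), add_zero]; exact hp.2.1
    · show L c r i (p.1 + w) + δ / 2 < p.2
      rw [L_add, o _ (mem_insert_of_mem _ ⟨i, hi, rfl⟩), mul_zero, add_zero]
      exact mem_iInter₂.mp hp.2.2 i hi
  · show t + δ < 2 * inner ℝ (y + v) (y + v) - t + (ε / 2) ^ 2
    rw [real_inner_self_eq_norm_sq]; linarith
  · show L c r i (y + v) + δ / 2 < t + δ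
    linarith [hG i]
  · show ‖y + v‖ ^ 2 < t + δ
    linarith
  · show L c r i (y + v) ≤ t + δ
    linarith [hG i]
  · have q1 : p.2 < 2 * inner ℝ (y + v) p.1 - t + (ε / 2) ^ 2 := p1
    have q2 := norm_sub_sq_real p.1 (y + v)
    rw [real_inner_comm, hz] at q2
    have q3 : ‖p.1 - (y + v)‖ ≤ ε / 2 := (abs_le_of_sq_le_sq' (by linarith) (by linarith)).2
    refine ⟨by linarith, by nlinarith [sq_nonneg ‖p.1 - (y + v)‖], fun i hi => ?_⟩
    by_cases hiE : i ∈ E
    · have : L c r i p.1 + δ / 2 < p.2 := mem_iInter₂.mp p2 i hiE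
      linarith [min_le_left (δ / 2) (ε * ρ)]
    · have q4 : r i + ε < ‖y + v - c i‖ := by
        by_contra h4
        exact hiE (by_cases Or.inl fun h5 => Or.inr ⟨h5, hi, not_lt.mp h4⟩)
      have q5 := norm_sub_le_norm_sub_add_norm_sub (y + v) p.1 (c i)
      rw [norm_sub_rev (y + v) p.1] at q5
      have q6 : (r i + ε / 2) ^ 2 ≤ ‖p.1 - c i‖ ^ 2 :=
        pow_le_pow_left₀ (by linarith) (by linarith) 2
      rw [L_eq]
      nlinarith [min_le_right (δ / 2) (ε * ρ)]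

theorem main [CompleteSpace H] (hH : ¬ FiniteDimensional ℝ H) (hr : ∀ i, 0 < r i)
    (hf : ∀ y, {i | ‖y - c i‖ ≤ r i}.Finite) : ∃ y, ∀ i, r i < ‖y - c i‖ := by
  have h0 : Good c r univ := by
    obtain ⟨t, ht⟩ := ((hf 0).image fun i => L c r i 0).bddAbove
    refine ⟨isOpen_univ, ⟨⊥, inferInstance, fun _ _ _ _ => trivial⟩, (0, max t 1), trivial,
      by simp, fun i => ?_⟩
    by_cases hi : ‖(0 : H)‖ ^ 2 ≤ L c r i 0
    · exact (ht ⟨i, mem_of_L hr hi, rfl⟩).trans (le_max_left _ _)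
    · simp only [norm_zero] at hi
      exact le_max_of_le_right (by linarith)
  choose f f1 f2 z κ κ0 f3 using fun (W : {W // Good c r W}) (n : ℕ) =>
    step hH hr hf W.1 W.2 (1 / (n + 1)) Nat.one_div_pos_of_nat
  let s : ℕ → {W // Good c r W} := fun n => Nat.rec ⟨_, h0⟩ (fun n W => ⟨f W n, f2 W n⟩) n
  have ha : Antitone fun n => (s n).1 := antitone_nat_of_succ_le fun n => f1 (s n) n
  choose p p1 p2 using fun n => (s (n + 1)).2.2.2
  have key := fun n m (h : n ≤ m) => f3 (s n) n (p m) (ha (Nat.succ_le_succ h) (p1 m)) (p2 m).1.le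
  have t0 := tendsto_one_div_add_atTop_nhds_zero_nat (𝕜 := ℝ)
  obtain ⟨x, hx⟩ := cauchySeq_tendsto_of_complete (u := fun n => (p n).1)
    (cauchySeq_of_le_tendsto_0' (fun n : ℕ => 2 * (1 / ((n : ℝ) + 1))) (fun n m h => by
      have := dist_triangle_right (p n).1 (p m).1 (z (s n) n)
      rw [dist_eq_norm (p n).1 (z _ _), dist_eq_norm (p m).1 (z _ _)] at this
      linarith [(key n n le_rfl).1, (key n m h).1]) (by simpa using t0.const_mul 2))
  refine ⟨x, fun i => ?_⟩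
  obtain ⟨n, hn⟩ := exists_nat_one_div_lt (hr i)
  have h1 : L c r i x + κ (s n) n ≤ ‖x‖ ^ 2 + 0 ^ 2 := by
    refine le_of_tendsto_of_tendsto (((Continuous.tendsto (f := fun y => L c r i y + κ (s n) n)
      (by unfold L; fun_prop) x)).comp hx) ((hx.norm.pow 2).add (t0.pow 2)) ?_
    filter_upwards [eventually_ge_atTop n] with m hm
    exact ((key n m hm).2.2 i hn.le).trans (key m m le_rfl).2.1
  rw [L_eq] at h1
  exact lt_of_pow_lt_pow_left₀ 2 (norm_nonneg _) (by linarith [κ0 (s n) n])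

end

/-- The negation of the preceding statement: There is a family of closed balls of positive radius in the Hilbert space of square-summable real families indexed by ℝ that covers the whole space, with each point lying in only finitely many balls. -/
theorem result :
    ¬ (∃ S : Set (lp (fun _ : ℝ => ℝ) (2 : ENNReal) × ℝ),
      (∀ p ∈ S, 0 < p.2) ∧
      (∀ x : lp (fun _ : ℝ => ℝ) (2 : ENNReal), ∃ p ∈ S, x ∈ Metric.closedBall p.1 p.2) ∧
      (∀ x : lp (fun _ : ℝ => ℝ) (2 : ENNReal),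
        {p ∈ S | x ∈ Metric.closedBall p.1 p.2}.Finite)) := by
  rintro ⟨S, h1, h2, h3⟩
  have hH : ¬ FiniteDimensional ℝ (lp (fun _ : ℝ => ℝ) (2 : ENNReal)) := by
    classical
    intro h
    have : Orthonormal ℝ fun a : ℝ => lp.single (E := fun _ : ℝ => ℝ) 2 a (1 : ℝ) := by
      rw [orthonormal_iff_ite]
      intro a b
      rw [lp.inner_single_left]
      simp [Pi.single_apply]
    exact not_finite_iff_infinite.mpr inferInstance this.linearIndependent.finite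
  obtain ⟨y, hy⟩ := main (c := fun p : S => p.1.1) (r := fun p : S => p.1.2) hH
    (fun p => h1 p.1 p.2) fun y => ((h3 y).preimage Subtype.val_injective.injOn).subset
      fun p hp => ⟨p.2, mem_closedBall_iff_norm.mpr hp⟩
  obtain ⟨p, hp, h⟩ := h2 y
  exact (hy ⟨p, hp⟩).not_ge (mem_closedBall_iff_norm.mp h)

end Pool.Agent.S03752
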