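import Pool.Statements.S03755
import Pool.Agent.Lib.helper21.Peano3

set_option autoImplicit false
open Pool Pool.MP_09c31c_an

namespace Pool.Agent.S03755

/-- There is a power series with absolutely summable complex coefficients whose sum has nonzero derivative everywhere in the open unit disc and maps the unit circle onto a set of positive planar Lebesgue measure. -/
theorem result :
    ∃ a : ℕ → ℂ, Summable (fun n => ‖a n‖) ∧
      (∀ z : ℂ, ‖z‖ < 1 → deriv (fun w : ℂ => ∑' n, a n * w ^ n) z ≠ 0) ∧
      MeasureTheory.volume ((fun w : ℂ => ∑' n, a n * w ^ n) '' Metric.sphere (0 : ℂ) 1) ≠ 0 := by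
  open Complex Set Filter Metric Topology MeasureTheory ComplexOrder Pool.Agent.Lib.Helper21.Peano in
  obtain ⟨B, B0⟩ : ∃ B : ℝ, 10 ^ 6 ≤ B := ⟨_, le_rfl⟩
  have Bp : 0 < B := by linarith
  have E1 := Real.one_le_exp Bp.le
  obtain ⟨R, hR⟩ : ∃ R : ℝ, R * B = Real.exp B := ⟨_, div_mul_cancel₀ _ Bp.ne'⟩
  have R0 : 1000 * (20 + B ^ 2) ≤ R := by
    have := Real.pow_div_factorial_le_exp B Bp.le 4
    norm_num [Nat.factorial] at this
    refine le_of_mul_le_mul_right ?_ Bp
    have b2 : 10 ^ 6 * B ≤ B ^ 2 := by nlinarith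
    have b3 : 10 ^ 6 * B ^ 2 ≤ B ^ 3 := by nlinarith
    nlinarith
  have Rp : 0 < R := by nlinarith
  obtain ⟨q, q1, q2⟩ : ∃ q : ℕ, 100 * Real.exp B ≤ q ∧ (q : ℝ) ≤ 101 * Real.exp B :=
    ⟨_, Nat.le_ceil _, by linarith [Nat.ceil_lt_add_one (show 0 ≤ 100 * Real.exp B by linarith)]⟩
  have q3 : (2 : ℝ) ≤ q := by linarith
  have q4 : 2 ≤ q := by exact_mod_cast q3
  obtain ⟨s, hs⟩ : ∃ s : ℕ → ℂ → ℂ, ∀ k, s k = fun z : ℂ => (B : ℂ) * ∑ j ∈ Finset.range k, z ^ q ^ (j + 1) :=
    ⟨_, fun _ => rfl⟩
  have ds : ∀ k, Differentiable ℂ (s k) := fun k => by rw [hs]; fun_prop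
  have ss : ∀ k z, s (k + 1) z = s k z + B * z ^ q ^ (k + 1) := fun k z => by
    simp only [hs, Finset.sum_range_succ, mul_add]
  have ns : ∀ k z, ‖s k z‖ ≤ B * ∑ j ∈ Finset.range k, ‖z‖ ^ q ^ (j + 1) := fun k z => by
    simp only [hs, norm_mul, norm_real, Real.norm_of_nonneg Bp.le, ← norm_pow]
    gcongr; exact norm_sum_le _ _
  choose f f0 hf using fun k => (ds k).cexp.isExactOn_univ.with_val_at 0 0
  replace hf := fun k z => hf k z (mem_univ z)
  have df : ∀ k, Differentiable ℂ (f k) := fun k z => (hf k z).differentiableAt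
  have u : TendstoUniformlyOn f (fun z => ∑' k, (f (k + 1) z - f k z) + f 0 z) atTop (closedBall 0 1) := by
    have := tendstoUniformlyOn_tsum_nat (f := fun k z => f (k + 1) z - f k z) (s := closedBall 0 1)
      ((summable_geometric_of_lt_one (r := 1 / 100) (by norm_num) (by norm_num)).mul_left
        (B * Real.exp B)) fun k z hz => by
      rw [mem_closedBall_zero_iff] at hz
      have c := (ds k).continuous
      have c' := (ds (k + 1)).continuous
      rw [rad (by fun_prop) (hf k) (f0 k) z, rad (by fun_prop) (hf _) (f0 _) z,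
        ← intervalIntegral.integral_sub (Continuous.intervalIntegrable (by fun_prop) _ _)
          (Continuous.intervalIntegrable (by fun_prop) _ _)]
      refine (intervalIntegral.norm_integral_le_of_norm_le zero_le_one (g := fun r =>
        Real.exp B ^ k * B * Real.exp B * r ^ q ^ (k + 1)) (ae_of_all _ fun r hr => ?_)
        (Continuous.intervalIntegrable (by fun_prop) _ _)).trans ?_
      · obtain ⟨r0, r1⟩ := hr
        have a : ‖r * z‖ ≤ r := by
          rw [norm_mul, norm_real, Real.norm_of_nonneg r0.le]; exact mul_le_of_le_one_right r0.le hz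
        have b : ‖B * (r * z) ^ q ^ (k + 1)‖ ≤ B * r ^ q ^ (k + 1) := by
          rw [norm_mul, norm_real, Real.norm_of_nonneg Bp.le, norm_pow]; gcongr
        have d : ‖exp (s k (r * z))‖ ≤ Real.exp B ^ k := by
          rw [← Real.exp_nat_mul]
          refine (norm_exp_le_exp_norm _).trans (Real.exp_le_exp.2 ((ns k _).trans ?_))
          rw [mul_comm]; gcongr
          simpa using Finset.sum_le_card_nsmul (Finset.range k) _ 1 fun j _ =>
            pow_le_one₀ (norm_nonneg _) (a.trans r1) (n := q ^ (j + 1))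
        rw [ss, exp_add, ← sub_mul, ← mul_sub_one, norm_mul, norm_mul]
        calc _ ≤ Real.exp B ^ k * (B * r ^ q ^ (k + 1) * Real.exp B) * 1 := by
              gcongr
              refine (e1 _).trans ?_
              gcongr
              exact b.trans (mul_le_of_le_one_right Bp.le (pow_le_one₀ r0.le r1))
          _ = _ := by ring
      · rw [intervalIntegral.integral_const_mul, integral_pow]
        have : Real.exp B ^ k / (((q ^ (k + 1) : ℕ) : ℝ) + 1) ≤ (1 / 100) ^ k := by
          rw [div_le_iff₀ (by positivity)]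
          calc _ ≤ (1 / 100 * q : ℝ) ^ k := by gcongr; linarith
            _ ≤ _ := by
              rw [mul_pow]; gcongr; push_cast
              linarith [pow_le_pow_right₀ (show (1 : ℝ) ≤ q by linarith) (k.le_add_right 1)]
        calc _ = B * Real.exp B * (Real.exp B ^ k / (((q ^ (k + 1) : ℕ) : ℝ) + 1)) := by simp; ring
          _ ≤ _ := by gcongr
    refine Metric.tendstoUniformlyOn_iff.2 fun ε ε0 =>
      (Metric.tendstoUniformlyOn_iff.1 this ε ε0).mono fun k hk z hz => ?_
    have := hk z hz
    rwa [Finset.sum_range_sub (fun k => f k z), dist_eq_norm, ← sub_add, ← add_sub_right_comm,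
      ← dist_eq_norm] at this
  generalize (fun z => ∑' k, (f (k + 1) z - f k z) + f 0 z) = F at u
  obtain ⟨a, sa, e⟩ := wiener df (fun k n => by
    rcases n with _ | n
    · simp [f0]
    rw [iteratedDeriv_succ', show deriv (f k) = fun z => exp (s k z) from funext fun z => (hf k z).deriv]
    refine pos (ds k) (fun n => ?_) n
    rw [hs, iteratedDeriv_const_mul_field, iteratedDeriv_fun_sum fun j _ => by fun_prop]
    refine mul_nonneg (by exact_mod_cast Bp.le) (Finset.sum_nonneg fun j _ => ?_)
    rw [iteratedDeriv_fun_pow_zero]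
    split_ifs
    exacts [Nat.cast_nonneg _, by simp]) u
  refine ⟨a, sa, fun z hz => ?_, ?_⟩
  · have hz' := mem_ball_zero_iff.2 hz
    rw [(e.mono ball_subset_closedBall).eventuallyEq_of_mem (isOpen_ball.mem_nhds hz') |>.deriv_eq]
    have t := ((u.mono ball_subset_closedBall).tendstoLocallyUniformlyOn.deriv
      (.of_forall fun k => (df k).differentiableOn) isOpen_ball).tendsto_at hz'
    refine norm_pos_iff.1 ((Real.exp_pos (-(B * (1 - ‖z‖)⁻¹))).trans_le
      (ge_of_tendsto' t.norm fun k => ?_))
    rw [Function.comp, (hf k z).deriv, norm_exp]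
    refine Real.exp_le_exp.2 (le_trans (neg_le_neg ((ns k z).trans ?_)) (abs_le.1 (abs_re_le_norm _)).1)
    gcongr
    refine le_trans (Finset.sum_le_sum fun j _ => pow_le_pow_of_le_one (norm_nonneg z) hz.le ?_)
      (sum_le_hasSum _ (fun j _ => by positivity) (hasSum_geometric_of_lt_one (norm_nonneg z) hz))
    exact j.le_succ.trans (Nat.lt_pow_self q4).le
  rw [(e.mono sphere_subset_closedBall).image_eq]
  refine ((measure_closedBall_pos volume (1 : ℂ) (show 0 < R / 4 / q by positivity)).trans_le
    (measure_mono fun w hw => ?_)).ne'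
  have inv : ∀ k, ∃ θ : ℝ, ‖w - f k (exp (θ * I))‖ ≤
      R / 4 / (q ^ (k + 1) : ℕ) * ‖exp (s k (exp (θ * I)))‖ := fun k => by
    induction k with
    | zero =>
      refine ⟨0, ?_⟩
      rw [rad (ds 0).continuous.cexp (hf 0) (f0 0)]
      simpa [hs, dist_eq_norm] using hw
    | succ k ih =>
      obtain ⟨θ, h⟩ := ih
      have g : ∀ k, ∑ j ∈ Finset.range k, (q : ℝ) ^ (j + 1) ≤ 2 * q ^ k := fun k => by
        induction k with
        | zero => simp
        | succ k ih =>
          rw [Finset.sum_range_succ, pow_succ]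
          nlinarith [pow_pos (show (0 : ℝ) < q by linarith) k]
      have g1 : (1 : ℝ) ≤ q ^ k := one_le_pow₀ (by linarith)
      obtain ⟨θ, h⟩ := step (L := B * ∑ j ∈ Finset.range k, (q : ℝ) ^ (j + 1)) B0 hR R0
        (Nat.one_le_pow _ _ (by omega)) (ds k).continuous (by positivity) (by
          calc _ ≤ (3 * B * q ^ k) / (q ^ (k + 1) : ℕ) * R := by gcongr; nlinarith [g k]
            _ = 3 * Real.exp B / q := by rw [← hR]; push_cast; rw [pow_succ]; field_simp
            _ ≤ _ := by rw [div_le_iff₀ (by linarith)]; linarith)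
        (fun z w hz hw => by
          simp only [hs]
          rw [← mul_sub, ← Finset.sum_sub_distrib, norm_mul, norm_real, Real.norm_of_nonneg Bp.le,
            mul_assoc, Finset.sum_mul]
          gcongr
          exact norm_sum_le_of_le _ fun j _ => by simpa using lip (q ^ (j + 1)) hz hw)
        (hf k) (fun z => ss k z ▸ hf (k + 1) z) (f0 k) (f0 _) h
      refine ⟨θ, h.trans ?_⟩
      rw [ss]
      gcongr ?_ * _
      rw [pow_succ q (k + 1), Nat.cast_mul, mul_comm, ← div_div]
      gcongr ?_ / _
      rw [div_div, div_div]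
      exact div_le_div_of_nonneg_left Rp.le (by linarith) (by linarith)
  choose θ hθ using inv
  have cF := u.continuousOn (.of_forall fun k => (df k).continuous.continuousOn)
  refine ((isCompact_sphere (0 : ℂ) 1).image_of_continuousOn
    (cF.mono sphere_subset_closedBall)).isClosed.mem_of_tendsto (b := atTop)
    (f := fun k => F (exp (θ k * I))) (Metric.tendsto_nhds.2 fun ε ε0 => ?_)
    (.of_forall fun k => mem_image_of_mem _ (by simp [norm_exp_ofReal_mul_I]))
  have t := (tendsto_pow_atTop_nhds_zero_of_lt_one (r := 1 / 100) (by norm_num) (by norm_num)).const_mul R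
  filter_upwards [Metric.tendstoUniformlyOn_iff.1 u _ (half_pos ε0),
    t.eventually (gt_mem_nhds (show R * 0 < ε / 2 by linarith))] with k h1 h2
  have n := norm_exp_ofReal_mul_I (θ k)
  have h3 := h1 (exp (θ k * I)) (by simp [n])
  have h4 : ‖exp (s k (exp (θ k * I)))‖ ≤ (1 / 100 * q) ^ k := by
    refine (norm_exp_le_exp_norm _).trans ((Real.exp_le_exp.2 (ns k _)).trans ?_)
    simp only [n, one_pow, Finset.sum_const, Finset.card_range, nsmul_eq_mul, mul_one]
    rw [mul_comm, Real.exp_nat_mul]
    gcongr; linarith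
  have h5 : dist (f k (exp (θ k * I))) w ≤ R * (1 / 100) ^ k := by
    rw [dist_comm, dist_eq_norm]
    calc _ ≤ R / 4 / (q ^ (k + 1) : ℕ) * (1 / 100 * q) ^ k := (hθ k).trans (by gcongr)
      _ = R * (1 / 100) ^ k / (4 * q) := by push_cast; rw [mul_pow, pow_succ]; field_simp
      _ ≤ _ := div_le_self (by positivity) (by linarith)
  linarith [dist_triangle (F (exp (θ k * I))) (f k (exp (θ k * I))) w]

end Pool.Agent.S03755
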