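import Pool.Statements.S03759
-- import your own Pool.Agent.* helpers here

set_option autoImplicit false
open Pool Pool.MP_09f91e_an

namespace Pool.Agent.S03759

noncomputable def L0 : List (ℝ × ℝ × Matrix (Fin 3) (Fin 3) ℝ) := [(1, 1, 1)]

noncomputable def L1 : List (ℝ × ℝ × Matrix (Fin 3) (Fin 3) ℝ) := [(1, 99, 1)]

noncomputable def L2 : List (ℝ × ℝ × Matrix (Fin 3) (Fin 3) ℝ) :=
  [(1/4, 1, !![1, 0, 0; 0, 1, 0; 0, 0, 66/17]),
   (3/4, 99, !![1, 0, 0; 0, 1, 0; 0, 0, 2/51])]

noncomputable def L3 : List (ℝ × ℝ × Matrix (Fin 3) (Fin 3) ℝ) :=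
  [(1/12, 1, !![1, 0, 0; 0, 12309/11476, -1617/2869; 0, -1617/2869, 23694/2869]),
   (1/4, 99, !![1, 0, 0; 0, 12309/11476, -1617/2869; 0, -49/8607, 718/8607]),
   (2/3, 99, !![1, 0, 0; 0, 22119/22952, 1617/5738; 0, 833/11476, 1252/2869])]

noncomputable def L4 : List (ℝ × ℝ × Matrix (Fin 3) (Fin 3) ℝ) :=
  [(1/36, 1, !![1, 0, 0; 0, -25476/173807, -164934/869035; 0, 1044582/173807, 5425398/869035]),
   (1/12, 99, !![1, 0, 0; 0, -25476/173807, -164934/869035; 0, 31654/521421, 54802/869035]),
   (2/9, 99, !![1, 0, 0; 0, 79188/173807, 380289/869035; 0, 59731/173807, 61401/173807]),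
   (2/3, 1, !![1, 0, 0; 0, 477121/347614, -99274/869035; 0, -129507/347614, 968309/869035])]

/-- There are two positive isotropic conductivities and a 3D multiple rank laminate of them whose normalized field matrix has cofactor trace strictly positive on one cell and strictly negative on another. -/
theorem result :
    ∃ s1 s2 : ℝ, 0 < s1 ∧ 0 < s2 ∧
    ∃ L : List (ℝ × ℝ × Matrix (Fin 3) (Fin 3) ℝ),
      (∀ P : List (ℝ × ℝ × Matrix (Fin 3) (Fin 3) ℝ) → Prop,
        P [((1 : ℝ), s1, (1 : Matrix (Fin 3) (Fin 3) ℝ))] →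
        P [((1 : ℝ), s2, (1 : Matrix (Fin 3) (Fin 3) ℝ))] →
        (∀ A B : List (ℝ × ℝ × Matrix (Fin 3) (Fin 3) ℝ), P A → P B →
          ∀ t : ℝ, 0 < t → t < 1 →
          ∀ n : Fin 3 → ℝ, n ≠ 0 →
          ∀ EA EB : Matrix (Fin 3) (Fin 3) ℝ,
            t • EA + (1 - t) • EB = 1 →
            (∃ c : Fin 3 → ℝ, EA - EB = Matrix.vecMulVec n c) →
            Matrix.vecMul n
              ((A.map (fun p => (p.1 * p.2.1) • p.2.2)).sum * EA
                - (B.map (fun p => (p.1 * p.2.1) • p.2.2)).sum * EB) = 0 →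
            P (A.map (fun p => (t * p.1, p.2.1, p.2.2 * EA))
                ++ B.map (fun p => ((1 - t) * p.1, p.2.1, p.2.2 * EB)))) →
        P L) ∧
      ∃ a ∈ L, ∃ b ∈ L,
        0 < (Matrix.adjugate a.2.2).trace ∧ (Matrix.adjugate b.2.2).trace < 0 := by
  refine ⟨1, 99, by norm_num, by norm_num, L4, ?_, ?_⟩
  · intro P h0 h1 hs
    change P L0 at h0
    change P L1 at h1
    have h2 : P L2 := by
      have := hs L0 L1 h0 h1 (1/4) (by norm_num) (by norm_num) ![0, 0, 1]
        (by intro h; have := congrFun h 2; simp at this)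
        !![1, 0, 0; 0, 1, 0; 0, 0, 66/17] !![1, 0, 0; 0, 1, 0; 0, 0, 2/51]
        (by ext i j; fin_cases i <;> fin_cases j <;> simp <;> norm_num)
        ⟨![0, 0, 196/51], by
          ext i j; fin_cases i <;> fin_cases j <;> simp [Matrix.vecMulVec_apply] <;> norm_num⟩
        (by
          ext j
          fin_cases j <;>
            simp [L0, L1, Matrix.vecMul, dotProduct, Matrix.mul_apply, Fin.sum_univ_three, Matrix.one_apply] <;>
            norm_num)
      convert this using 1
      simp [L2, L0, L1]
      norm_num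
    have h3 : P L3 := by
      have := hs L2 L1 h2 h1 (1/3) (by norm_num) (by norm_num) ![0, 1, -2]
        (by intro h; have := congrFun h 2; simp at this)
        !![1, 0, 0; 0, 12309/11476, -1617/2869; 0, -833/5738, 6103/2869] !![1, 0, 0; 0, 22119/22952, 1617/5738; 0, 833/11476, 1252/2869]
        (by ext i j; fin_cases i <;> fin_cases j <;> simp <;> norm_num)
        ⟨![0, 2499/22952, -4851/5738], by
          ext i j; fin_cases i <;> fin_cases j <;> simp [Matrix.vecMulVec_apply] <;> norm_num⟩
        (by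
          ext j
          fin_cases j <;>
            simp [L2, L1, Matrix.vecMul, dotProduct, Matrix.mul_apply, Fin.sum_univ_three, Matrix.one_apply] <;>
            norm_num)
      convert this using 1
      simp [L3, L2, L1]
      norm_num
    have h4 : P L4 := by
      have := hs L3 L0 h3 h0 (1/3) (by norm_num) (by norm_num) ![0, 1, -1]
        (by intro h; have := congrFun h 2; simp at this)
        !![1, 0, 0; 0, 44300/173807, 198548/869035; 0, 129507/173807, 670487/869035] !![1, 0, 0; 0, 477121/347614, -99274/869035; 0, -129507/347614, 968309/869035]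
        (by ext i j; fin_cases i <;> fin_cases j <;> simp <;> norm_num)
        ⟨![0, -388521/347614, 297822/869035], by
          ext i j; fin_cases i <;> fin_cases j <;> simp [Matrix.vecMulVec_apply] <;> norm_num⟩
        (by
          ext j
          fin_cases j <;>
            simp [L3, L0, Matrix.vecMul, dotProduct, Matrix.mul_apply, Fin.sum_univ_three, Matrix.one_apply] <;>
            norm_num)
      convert this using 1
      simp [L4, L3, L0]
      norm_num
    exact h4
  · refine ⟨(1/36, 1, !![1, 0, 0; 0, -25476/173807, -164934/869035; 0, 1044582/173807, 5425398/869035]), by simp [L4], (1/12, 99, !![1, 0, 0; 0, -25476/173807, -164934/869035; 0, 31654/521421, 54802/869035]), by simp [L4], ?_, ?_⟩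
    · simp [Matrix.adjugate_fin_three, Matrix.trace_fin_three]
      norm_num
    · simp [Matrix.adjugate_fin_three, Matrix.trace_fin_three]
      norm_num

end Pool.Agent.S03759
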