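import Pool.Statements.S03774
import Pool.Agent.Lib.helper3.DimCount

set_option autoImplicit false
open Matrix
open Pool Pool.MP_0ac5c2_an

namespace Pool.Agent.S03774

open Polynomial Pool.Agent.Lib.H3Dim
open scoped ComplexOrder

noncomputable section

def Sh (n : ℕ) : Matrix (Fin n) (Fin n) ℂ := of fun i j => if (i : ℕ) = j + 1 then 1 else 0

lemma Sh_pow (n m : ℕ) : ∀ i j : Fin n, (i : ℕ) < m → (Sh n ^ m) i j = 0 := by
  induction m with
  | zero => intro i j h; omega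
  | succ m ih =>
    intro i j h
    rw [pow_succ', mul_apply]
    refine Finset.sum_eq_zero fun l _ => ?_
    by_cases hl : (i : ℕ) = l + 1
    · rw [ih l j (by omega), mul_zero]
    · simp [Sh, hl]

def unst {n : ℕ} (B : Matrix (Fin n) (Fin n) ℂ) : Matrix (Fin n) (Fin n) ℂ :=
  ∑ j ∈ Finset.range n, Sh n ^ j * B * (Sh n)ᴴ ^ j

lemma unst_eq {n : ℕ} (Z : Matrix (Fin n) (Fin n) ℂ) : unst (Z - Sh n * Z * (Sh n)ᴴ) = Z := by
  have h0 : Sh n ^ n = 0 := by ext i j; exact Sh_pow n n i j i.2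
  have h1 := Finset.sum_range_sub' (fun j => Sh n ^ j * Z * (Sh n)ᴴ ^ j) n
  simp only [h0, pow_zero, Matrix.one_mul, Matrix.mul_one, Matrix.zero_mul, sub_zero] at h1
  refine Eq.trans (Finset.sum_congr rfl fun j _ => ?_) h1
  rw [pow_succ, pow_succ']
  simp only [Matrix.mul_sub, Matrix.sub_mul, Matrix.mul_assoc]

abbrev Par (n : ℕ) := Option (Fin 2 × Fin 4 × Fin 2 × Fin n) → ℂ

def tp (n : ℕ) (a : Fin 2) (θ : Par n) : Matrix (Fin n) (Fin n) ℂ :=
  unst (∑ l : Fin 4, vecMulVec (fun x => θ (some (a, l, 0, x))) fun x => θ (some (a, l, 1, x)))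

lemma sm_tp (n : ℕ) (a : Fin 2) : Sm (tp n a) := by
  have h : Sm fun θ : Par n => ∑ l : Fin 4,
      vecMulVec (fun x => θ (some (a, l, 0, x))) fun x => θ (some (a, l, 1, x)) := fun i j => by
    simp only [Matrix.sum_apply, vecMulVec_apply]
    fun_prop
  intro i j
  simp only [tp, unst, Matrix.sum_apply]
  exact ContDiff.sum fun l _ => (Sm.mul (Sm.mul (f := fun _ => Sh n ^ l)
    (fun _ _ => contDiff_const) h) (g := fun _ => (Sh n)ᴴ ^ l) (fun _ _ => contDiff_const)) i j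

def Phi (n : ℕ) {κ : Type} (p q : κ → ℂ[X]) (θ : Par n) (k : κ) : ℝ :=
  inv (p k) (q k) (tp n 1 θ * (θ none • adjugate (tp n 0 θ)))
    ((tp n 1 θ)ᴴ * (θ none • adjugate (tp n 0 θ)))

lemma sm_Phi (n : ℕ) {κ : Type} [Fintype κ] (p q : κ → ℂ[X]) : ContDiff ℝ 1 (Phi n p q) := by
  rw [contDiff_pi]
  intro k
  have h0 : Sm fun θ : Par n => θ none • adjugate (tp n 0 θ) :=
    Sm.smul (by fun_prop) (sm_tp n 0).adj
  have h1 := (sm_tp n 1).mul h0
  have h2 := (sm_tp n 1).conj.mul h0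
  exact (((((h1.add h2).aeval (p k)).mul (h1.sub h2)).mul ((h1.add h2).aeval (q k))).mul
    (h1.sub h2)).trace

lemma krylov {n : ℕ} (T : Matrix (Fin n) (Fin n) ℂ) (k : Fin n → ℂ)
    (h1 : 1 - T * Tᴴ = vecMulVec k (star k))
    (h2 : ∀ μ : ℂ, ∀ x : Fin n → ℂ, x ≠ 0 → T *ᵥ x = μ • x → ‖μ‖ < 1) :
    (of fun i j : Fin n => (T ^ (j : ℕ) *ᵥ k) i).det ≠ 0 := by
  intro h
  obtain ⟨x, hx, h0⟩ := Matrix.exists_vecMul_eq_zero_iff.2 h
  have h3 : ∀ j < n, x ⬝ᵥ (T ^ j *ᵥ k) = 0 := fun j hj => congrFun h0 ⟨j, hj⟩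
  have hn : Nonempty (Fin n) := by
    by_contra hn
    exact hx (funext fun i => (hn ⟨i⟩).elim)
  have h4 : ∀ j, x ⬝ᵥ (T ^ j *ᵥ k) = 0 := fun j => by
    have hd : (X ^ j %ₘ T.charpoly).natDegree < n := by
      have := natDegree_modByMonic_lt (X ^ j) T.charpoly_monic (by
        intro h
        have := T.charpoly_natDegree_eq_dim
        rw [h, natDegree_one] at this
        exact (Fintype.card_pos_iff.2 hn).ne this)
      rwa [charpoly_natDegree_eq_dim, Fintype.card_fin] at this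
    rw [Matrix.pow_eq_aeval_mod_charpoly, aeval_eq_sum_range' hd, sum_mulVec, dotProduct_sum]
    refine Finset.sum_eq_zero fun i hi => ?_
    rw [smul_mulVec, dotProduct_smul, h3 i (Finset.mem_range.1 hi), smul_zero]
  let W : Submodule ℂ (Fin n → ℂ) :=
    { carrier := {y | ∀ j, y ⬝ᵥ (T ^ j *ᵥ k) = 0}
      add_mem' := fun ha hb j => by rw [add_dotProduct, ha j, hb j, add_zero]
      zero_mem' := fun j => zero_dotProduct _
      smul_mem' := fun c y hy j => by rw [smul_dotProduct, hy j, smul_zero] }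
  have hW : ∀ y ∈ W, T.vecMulLinear y ∈ W := fun y hy j => by
    rw [vecMulLinear_apply, ← dotProduct_mulVec, mulVec_mulVec, ← pow_succ']
    exact hy _
  have : Nontrivial W := ⟨⟨⟨x, h4⟩, 0, fun h => hx (congrArg Subtype.val h)⟩⟩
  obtain ⟨μ, hμ⟩ := Module.End.exists_eigenvalue (T.vecMulLinear.restrict hW)
  obtain ⟨⟨y, hy⟩, hy1⟩ := hμ.exists_hasEigenvector
  have hy0 : y ≠ 0 := fun h => hy1.2 (Subtype.ext h)
  have hy2 : y ᵥ* T = μ • y := congrArg Subtype.val hy1.apply_eq_smul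
  have hy3 : y ⬝ᵥ k = 0 := by simpa using hy 0
  have hy4 : y = μ • (y ᵥ* Tᴴ) := by
    have := congrArg (fun Z => y ᵥ* Z) h1
    simp only [vecMul_sub, vecMul_one, ← vecMul_vecMul, hy2, vecMul_vecMulVec, hy3, zero_smul,
      smul_vecMul] at this
    exact sub_eq_zero.1 this
  have hy5 : star y = star μ • (T *ᵥ star y) := by
    conv_lhs => rw [hy4]
    rw [star_smul, star_vecMul, conjTranspose_conjTranspose]
  have hμ0 : star μ ≠ 0 := fun h => hy0 (by simpa [h] using hy5)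
  have hy6 : T *ᵥ star y = (star μ)⁻¹ • star y := by
    conv_rhs => rw [hy5]
    rw [smul_smul, inv_mul_cancel₀ hμ0, one_smul]
  have h5 := h2 _ _ (by simpa using hy0) hy6
  have h6 : μ * (y ⬝ᵥ star y) = (star μ)⁻¹ * (y ⬝ᵥ star y) := by
    rw [← smul_eq_mul, ← smul_dotProduct, ← hy2, ← dotProduct_mulVec, hy6, dotProduct_smul,
      smul_eq_mul]
  have h7 := mul_right_cancel₀ (fun h => hy0 (dotProduct_self_star_eq_zero.1 h)) h6
  have h8 : ‖μ‖ * ‖μ‖ = 1 := by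
    have h9 : μ * star μ = 1 := by
      conv_lhs => lhs; rw [h7]
      exact inv_mul_cancel₀ hμ0
    simpa using congrArg norm h9
  rw [← h7] at h5
  nlinarith [norm_nonneg μ]

lemma disp {n : ℕ} (Z : Matrix (Fin n) (Fin n) ℂ) (c e u k v : Fin n → ℂ)
    (h : Z - (Sh n + vecMulVec c e) * Z * (Sh n + vecMulVec c e)ᴴ =
      vecMulVec u (star k) + vecMulVec k (star v)) :
    ∃ x y : Fin 4 → Fin n → ℂ, Z = unst (∑ l, vecMulVec (x l) (y l)) := by
  refine ⟨![u, k, (Sh n * Z) *ᵥ star e, c],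
    ![star k, star v, star c, e ᵥ* (Z * (Sh n + vecMulVec c e)ᴴ)], ?_⟩
  rw [← unst_eq Z]
  congr 1
  rw [unst_eq Z]
  simp only [Fin.sum_univ_four, cons_val_zero, cons_val_one, cons_val]
  rw [← h, ← mul_vecMulVec, ← vecMulVec_mul, ← conjTranspose_vecMulVec]
  simp only [conjTranspose_add, Matrix.add_mul, Matrix.mul_add, Matrix.mul_assoc]
  abel

lemma mem_Phi {n : ℕ} {κ : Type} (p q : κ → ℂ[X]) (M T : Matrix (Fin (n + 1)) (Fin (n + 1)) ℂ)
    (k u v : Fin (n + 1) → ℂ) (h1 : 1 - T * Tᴴ = vecMulVec k (star k))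
    (h2 : ∀ μ : ℂ, ∀ x : Fin (n + 1) → ℂ, x ≠ 0 → T *ᵥ x = μ • x → ‖μ‖ < 1)
    (h3 : M - T * M * Tᴴ = vecMulVec u (star k) + vecMulVec k (star v)) :
    (fun k => inv (p k) (q k) M Mᴴ) ∈ Set.range (Phi (n + 1) p q) := by
  have hd := krylov T k h1 h2
  set S : Matrix (Fin (n + 1)) (Fin (n + 1)) ℂ := of fun i j => (T ^ (j : ℕ) *ᵥ k) i with hS
  obtain ⟨R, hRS, hSR⟩ : ∃ R, R * S = 1 ∧ S * R = 1 :=
    ⟨S⁻¹, nonsing_inv_mul _ (Ne.isUnit hd), mul_nonsing_inv _ (Ne.isUnit hd)⟩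
  let e : Fin (n + 1) → ℂ := Pi.single (Fin.last n) 1
  have hTS : T * S = S * Sh (n + 1) + vecMulVec (T ^ (n + 1) *ᵥ k) e := by
    ext i j
    have e1 : (T * S) i j = (T ^ ((j : ℕ) + 1) *ᵥ k) i := by
      rw [pow_succ', ← mulVec_mulVec]; rfl
    rw [e1, Matrix.add_apply, vecMulVec_apply, mul_apply]
    induction j using Fin.lastCases with
    | last =>
      rw [Finset.sum_eq_zero fun l _ => by
        have : (l : ℕ) ≠ n + 1 := l.2.ne
        simp [Sh, this]]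
      simp [e]
    | cast j =>
      rw [Finset.sum_eq_single j.succ (fun l _ hl => by
        have : (l : ℕ) ≠ j + 1 := fun h => hl (Fin.ext h)
        simp [Sh, this]) (by simp)]
      simp [e, Sh, hS, Pi.single_eq_of_ne (Fin.castSucc_ne_last j)]
  have hC : R * T * S = Sh (n + 1) + vecMulVec (R *ᵥ (T ^ (n + 1) *ᵥ k)) e := by
    rw [Matrix.mul_assoc, hTS, Matrix.mul_add, ← Matrix.mul_assoc, hRS, Matrix.one_mul,
      mul_vecMulVec]
  have hRS' : Sᴴ * Rᴴ = 1 := by rw [← conjTranspose_mul, hRS, conjTranspose_one]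
  have hSR' : Rᴴ * Sᴴ = 1 := by rw [← conjTranspose_mul, hSR, conjTranspose_one]
  have key : ∀ (Z : Matrix (Fin (n + 1)) (Fin (n + 1)) ℂ) (u v : Fin (n + 1) → ℂ),
      Z - T * Z * Tᴴ = vecMulVec u (star k) + vecMulVec k (star v) →
      ∃ x y : Fin 4 → Fin (n + 1) → ℂ, R * Z * Rᴴ = unst (∑ l, vecMulVec (x l) (y l)) := by
    intro Z u v h
    refine disp _ (R *ᵥ (T ^ (n + 1) *ᵥ k)) e (R *ᵥ u) (R *ᵥ k) (R *ᵥ v) ?_
    rw [← hC, star_mulVec, star_mulVec, ← vecMulVec_mul, ← vecMulVec_mul, ← mul_vecMulVec,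
      ← mul_vecMulVec, ← Matrix.add_mul, ← Matrix.mul_add, ← h]
    simp only [conjTranspose_mul, Matrix.mul_sub, Matrix.sub_mul, Matrix.mul_assoc]
    rw [← Matrix.mul_assoc S R, hSR, ← Matrix.mul_assoc Rᴴ Sᴴ, hSR', Matrix.one_mul,
      Matrix.one_mul]
  obtain ⟨x0, y0, e0⟩ := key 1 k 0 (by simpa using h1)
  obtain ⟨x1, y1, e1⟩ := key M u v h3
  let θ : Par (n + 1) := fun o => o.elim (R * 1 * Rᴴ).det⁻¹ fun w =>
    ![![x0, y0], ![x1, y1]] w.1 w.2.2.1 w.2.1 w.2.2.2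
  have f0 : tp (n + 1) 0 θ = R * 1 * Rᴴ := e0.symm
  have f1 : tp (n + 1) 1 θ = R * M * Rᴴ := e1.symm
  have f2 : θ none = (R * 1 * Rᴴ).det⁻¹ := rfl
  have g0 : (R * 1 * Rᴴ) * (Sᴴ * S) = 1 := by
    rw [Matrix.mul_one, Matrix.mul_assoc, ← Matrix.mul_assoc Rᴴ, hSR', Matrix.one_mul, hRS]
  have g1 : θ none • adjugate (tp (n + 1) 0 θ) = Sᴴ * S := by
    rw [f0, f2, ← inv_eq_right_inv g0, inv_def, Ring.inverse_eq_inv']
  refine ⟨θ, funext fun k => ?_⟩
  rw [← inv_conj R S hRS hSR, Phi, g1, f1]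
  simp only [conjTranspose_mul, conjTranspose_conjTranspose, Matrix.mul_assoc]
  rw [← Matrix.mul_assoc Rᴴ, hSR', Matrix.one_mul]

def Mx {n : ℕ} (K : Fin n → Fin n → ℝ) : Matrix (Fin n) (Fin n) ℂ :=
  diagonal (fun a : Fin n => ((a : ℕ) : ℂ)) + Complex.I • of fun a b => (K a b : ℂ)

lemma Mx_sub {n : ℕ} (K : Fin n → Fin n → ℝ) (hK : ∀ a b, K a b = K b a) :
    Mx K - (Mx K)ᴴ = of fun a b => 2 * Complex.I * K a b := by
  ext a b
  by_cases h : a = b <;> simp [Mx, diagonal_apply, hK a b, h, eq_comm (a := b)] <;> ring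

lemma inv_val {n : ℕ} (K : Fin n → Fin n → ℝ) (hK : ∀ a b, K a b = K b a) (j k : Fin n) :
    inv (Lagrange.basis Finset.univ (fun a : Fin n => 2 * ((a : ℕ) : ℂ)) j)
      (Lagrange.basis Finset.univ (fun a : Fin n => 2 * ((a : ℕ) : ℂ)) k)
      (Mx K) (Mx K)ᴴ = -4 * K j k ^ 2 := by
  have hv : Function.Injective fun a : Fin n => 2 * ((a : ℕ) : ℂ) := fun a b h => by
    simpa [Fin.val_inj] using h
  have h1 : Mx K + (Mx K)ᴴ = diagonal fun x : Fin n => 2 * ((x : ℕ) : ℂ) := by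
    ext a b
    by_cases h : a = b <;> simp [Mx, diagonal_apply, hK a b, h, eq_comm (a := b)] <;> ring
  have h3 : ∀ j : Fin n, aeval (diagonal fun x : Fin n => 2 * ((x : ℕ) : ℂ))
      (Lagrange.basis Finset.univ (fun a : Fin n => 2 * ((a : ℕ) : ℂ)) j) =
      diagonal fun x => if x = j then 1 else 0 := by
    intro j
    refine (aeval_algHom_apply (diagonalAlgHom (n := Fin n) (α := ℂ) ℂ) _ _).trans ?_
    rw [diagonalAlgHom_apply]
    congr 1
    funext x
    rw [aeval_fn_apply, coe_aeval_eq_eval]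
    split_ifs with h
    · rw [h]; exact Lagrange.eval_basis_self hv.injOn (Finset.mem_univ j)
    · exact Lagrange.eval_basis_of_ne (v := fun a : Fin n => 2 * ((a : ℕ) : ℂ)) (Ne.symm h)
        (Finset.mem_univ _)
  rw [Lib.H3Dim.inv, h1, Mx_sub K hK, h3, h3, Matrix.mul_assoc, Matrix.mul_assoc,
    ← Matrix.mul_assoc _ _ (_ * _)]
  simp only [trace, diag_apply, Matrix.mul_apply (M := diagonal _ * _), diagonal_mul]
  simp [hK k j]
  ring

lemma base {n : ℕ} (x y : Fin n → ℂ) (a b : ℂ) (hx : x ≠ 0) (hy : y ≠ 0)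
    (h1 : Mx (fun _ _ => 1) *ᵥ x = a • x) (h2 : Mx (fun _ _ => 1) *ᵥ y = b • y) :
    star x ⬝ᵥ y ≠ 0 := by
  intro h
  have aux : ∀ (x : Fin n → ℂ) (a : ℂ), x ≠ 0 → Mx (fun _ _ => 1) *ᵥ x = a • x → ∑ i, x i ≠ 0 := by
    intro x a hx h1 h0
    have h3 : ∀ i : Fin n, ((i : ℕ) : ℂ) * x i = a * x i := fun i => by
      have := congrFun h1 i
      simp only [Mx, add_mulVec, smul_mulVec, Pi.add_apply, mulVec_diagonal, Pi.smul_apply,
        smul_eq_mul] at this
      simpa [mulVec, dotProduct, h0] using this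
    obtain ⟨j, hj⟩ := Function.ne_iff.1 hx
    rw [Finset.sum_eq_single j (fun i _ hi => ?_) (by simp)] at h0
    · exact hj h0
    · by_contra h4
      have h5 := (mul_right_cancel₀ h4 (h3 i)).trans (mul_right_cancel₀ hj (h3 j)).symm
      exact hi (Fin.ext (by exact_mod_cast h5))
  have h3 : star x ⬝ᵥ ((Mx (fun _ _ => 1) - (Mx (fun _ _ => 1))ᴴ) *ᵥ y) = 0 := by
    rw [sub_mulVec, dotProduct_sub, h2, dotProduct_smul, h, dotProduct_mulVec, ← star_mulVec, h1,
      star_smul, smul_dotProduct, h]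
    simp
  rw [Mx_sub _ fun _ _ => rfl] at h3
  simp only [dotProduct, mulVec, of_apply, ← Finset.mul_sum, ← Finset.sum_mul, Pi.star_apply,
    ← star_sum, mul_eq_zero, star_eq_zero] at h3
  simp [aux x a hx h1, aux y b hy h2] at h3

end

/-- The negation of the preceding statement: For n at least 4, every complex symmetric n×n matrix with no two orthogonal nonzero eigenvectors is unitarily equivalent to a truncated Toeplitz operator, encoded via the compressed-shift model and Sarason's rank-two criterion M − TMT* = u⊗k + k⊗v. -/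
theorem result :
    ¬ (∀ n : ℕ, 4 ≤ n → ∀ M : Matrix (Fin n) (Fin n) ℂ, Mᵀ = M →
      (¬ ∃ x y : Fin n → ℂ, ∃ a b : ℂ, x ≠ 0 ∧ y ≠ 0 ∧
          M *ᵥ x = a • x ∧ M *ᵥ y = b • y ∧ star x ⬝ᵥ y = 0) →
      ∃ T : Matrix (Fin n) (Fin n) ℂ, ∃ k u v : Fin n → ℂ,
        1 - T * Tᴴ = Matrix.vecMulVec k (star k) ∧
        (∀ μ : ℂ, ∀ x : Fin n → ℂ, x ≠ 0 → T *ᵥ x = μ • x → ‖μ‖ < 1) ∧
        M - T * M * Tᴴ = Matrix.vecMulVec u (star k) + Matrix.vecMulVec k (star v)) := by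
  intro h
  obtain ⟨N, hN⟩ : ∃ N : ℕ, 64 * (N + 1) + 2 < (N + 1) * (N + 1) := ⟨64, by norm_num⟩
  let L := fun j : Fin (N + 1 + N + 1) =>
    Lagrange.basis Finset.univ (fun a : Fin (N + 1 + N + 1) => 2 * ((a : ℕ) : ℂ)) j
  let e : Fin (N + 1) ⊕ Fin (N + 1) ≃ Fin (N + 1 + N + 1) := finSumFinEquiv
  let p : Fin (N + 1) × Fin (N + 1) → ℂ[X] := fun x => L (e (Sum.inl x.1))
  let q : Fin (N + 1) × Fin (N + 1) → ℂ[X] := fun x => L (e (Sum.inr x.2))
  have hd := (sm_Phi (N + 1 + N + 1) p q).dense_compl_range_of_finrank_lt_finrank (by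
    rw [Module.finrank_pi_fintype, Module.finrank_fintype_fun_eq_card]
    simp [Complex.finrank_real_complex]
    linarith)
  let K : (Fin (N + 1) × Fin (N + 1) → ℝ) → Fin (N + 1 + N + 1) → Fin (N + 1 + N + 1) → ℝ :=
    fun z a b => fromBlocks (of fun _ _ => 1) (of fun j k => √(-z (j, k) / 4))
      (of fun j k => √(-z (k, j) / 4)) (of fun _ _ => 1) (e.symm a) (e.symm b)
  have hK : ∀ z a b, K z a b = K z b a := fun z a b => by
    simp only [K]
    rcases e.symm a with a | a <;> rcases e.symm b with b | b <;> simp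
  have hKc : Continuous fun z => Mx (K z) := by
    refine continuous_const.add (Continuous.const_smul (g := fun z => of fun a b => (K z a b : ℂ))
      (continuous_matrix fun a b => ?_) Complex.I)
    simp only [K, of_apply]
    rcases e.symm a with a | a <;> rcases e.symm b with b | b <;> simp <;> fun_prop
  let V := Metric.sphere (0 : Fin (N + 1 + N + 1) → ℂ) 1
  let C : Set ((Fin (N + 1) × Fin (N + 1) → ℝ) × V × V) := {w |
    (star w.2.1.1 ⬝ᵥ w.2.1.1) • Mx (K w.1) *ᵥ w.2.1.1 =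
      (star w.2.1.1 ⬝ᵥ Mx (K w.1) *ᵥ w.2.1.1) • w.2.1.1 ∧
    (star w.2.2.1 ⬝ᵥ w.2.2.1) • Mx (K w.1) *ᵥ w.2.2.1 =
      (star w.2.2.1 ⬝ᵥ Mx (K w.1) *ᵥ w.2.2.1) • w.2.2.1 ∧ star w.2.1.1 ⬝ᵥ w.2.2.1 = 0}
  have hC : IsClosed C := by
    have c0 : Continuous fun w : (Fin (N + 1) × Fin (N + 1) → ℝ) × V × V => Mx (K w.1) :=
      hKc.comp continuous_fst
    have c1 : Continuous fun w : (Fin (N + 1) × Fin (N + 1) → ℝ) × V × V => w.2.1.1 := by fun_prop
    have c2 : Continuous fun w : (Fin (N + 1) × Fin (N + 1) → ℝ) × V × V => w.2.2.1 := by fun_prop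
    exact (isClosed_eq ((c1.star.dotProduct c1).smul (c0.matrix_mulVec c1))
      ((c1.star.dotProduct (c0.matrix_mulVec c1)).smul c1)).inter
      ((isClosed_eq ((c2.star.dotProduct c2).smul (c0.matrix_mulVec c2))
      ((c2.star.dotProduct (c0.matrix_mulVec c2)).smul c2)).inter
      (isClosed_eq (c1.star.dotProduct c2) continuous_const))
  have hC' : IsClosed (Prod.fst '' C) := isClosedMap_fst_of_compactSpace _ hC
  obtain ⟨z, hz, hz0, hz1⟩ := hd.exists_mem_open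
    (U := {z | ∀ x, z x < 0} ∩ (Prod.fst '' C)ᶜ) (IsOpen.inter (by
      rw [Set.ofPred_forall]
      exact isOpen_iInter_of_finite fun x => isOpen_lt (continuous_apply x) continuous_const)
      hC'.isOpen_compl)
    ⟨fun _ => -4, fun _ => by norm_num, by
      rintro ⟨⟨z, x, y⟩, ⟨h1, h2, h3⟩, rfl : z = _⟩
      have e1 : K (fun _ => -4) = fun _ _ => 1 := by
        funext a b
        simp only [K]
        rcases e.symm a with a | a <;> rcases e.symm b with b | b <;> simp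
      simp only [e1] at h1 h2 h3
      have hx : x.1 ≠ 0 := ne_zero_of_mem_unit_sphere x
      have hy : y.1 ≠ 0 := ne_zero_of_mem_unit_sphere y
      refine base x.1 y.1 _ _ hx hy
        (((eq_inv_smul_iff₀ fun h => hx (dotProduct_star_self_eq_zero.1 h)).2 h1).trans
          (smul_smul _ _ _))
        (((eq_inv_smul_iff₀ fun h => hy (dotProduct_star_self_eq_zero.1 h)).2 h2).trans
          (smul_smul _ _ _)) h3⟩
  obtain ⟨T, k, u, v, h1, h2, h3⟩ := h (N + 1 + N + 1) (by nlinarith) (Mx (K z)) (by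
      ext a b
      simp [Mx, diagonal_apply, hK z a b]
      by_cases h : a = b <;> simp [h, eq_comm (a := b)]) (by
      rintro ⟨x, y, a, b, hx, hy, h1, h2, h3⟩
      have hs : ∀ x : Fin (N + 1 + N + 1) → ℂ, x ≠ 0 → ((‖x‖ : ℂ)⁻¹ • x) ∈ V := fun x hx => by
        simp [V, norm_smul, hx]
      refine hz1 ⟨(z, ⟨_, hs x hx⟩, ⟨_, hs y hy⟩), ⟨?_, ?_, ?_⟩, rfl⟩
      · simp only [mulVec_smul, h1, dotProduct_smul, smul_smul, smul_eq_mul]
        congr 1; ring
      · simp only [mulVec_smul, h2, dotProduct_smul, smul_smul, smul_eq_mul]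
        congr 1; ring
      · simp only [star_smul, dotProduct_smul, smul_dotProduct, h3, smul_zero])
  refine hz ?_
  have e2 : z = fun x => -4 * K z (e (Sum.inl x.1)) (e (Sum.inr x.2)) ^ 2 := by
    funext x
    have := hz0 x
    simp only [K, Equiv.symm_apply_apply, fromBlocks_apply₁₂, of_apply]
    rw [Real.sq_sqrt (by linarith)]
    ring
  rw [e2]
  simpa only [p, q, L, inv_val _ (hK z)] using mem_Phi p q _ T k u v h1 h2 h3

end Pool.Agent.S03774
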