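import Pool.Statements.S03785
import Pool.Agent.Lib.helper25.Bisym

set_option autoImplicit false
open Pool Pool.MP_0bc80f_an

namespace Pool.Agent.S03785

/-- For a<b and n≥2, every map F from [a,b]^n to [a,b] that is reflexive, bisymmetric and strictly increasing in each variable (not assumed symmetric) is continuous. -/
theorem result :
    ∀ (a b : ℝ), a < b → ∀ (n : ℕ), 2 ≤ n →
      ∀ F : (Fin n → Set.Icc a b) → Set.Icc a b,
        (∀ x : Set.Icc a b, F (fun _ => x) = x) →
        (∀ M : Fin n → Fin n → Set.Icc a b,
            F (fun i => F (M i)) = F (fun j => F (fun i => M i j))) →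
        (∀ (x : Fin n → Set.Icc a b) (i : Fin n),
            StrictMono (fun t : Set.Icc a b => F (Function.update x i t))) →
        Continuous F := by
  intro a b hab n hn F hr hm hs
  have hmono : ∀ x y : Fin n → Set.Icc a b, (∀ i, x i ≤ y i) → F x ≤ F y := by
    intro x y h
    have key : ∀ s : Finset (Fin n), F x ≤ F (s.piecewise y x) := by
      intro s
      induction s using Finset.induction_on with
      | empty => simp
      | insert i s hi ih =>
        rw [Finset.piecewise_insert]
        refine ih.trans ?_
        have := (hs (s.piecewise y x) i).monotone (h i)
        have e : Function.update (s.piecewise y x) i (x i) = s.piecewise y x := by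
          rw [← Finset.piecewise_eq_of_notMem s y x hi, Function.update_eq_self]
        exact le_of_eq_of_le (congrArg F e.symm) this
    simpa using key Finset.univ
  let i0 : Fin n := ⟨0, by omega⟩
  let i1 : Fin n := ⟨1, by omega⟩
  have h01 : i1 ≠ i0 := by simp [i0, i1, Fin.ext_iff]
  let G : Set.Icc a b → Set.Icc a b → Set.Icc a b :=
    fun x y => F (fun i => if i = i0 then x else y)
  have hFG : ∀ x y : Fin n → Set.Icc a b, F (fun i => G (x i) (y i)) = G (F x) (F y) := by
    intro x y
    rw [hm (fun i j => if j = i0 then x i else y i)]
    simp only [G]
    congr 1
    funext j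
    split_ifs <;> rfl
  refine Pool.Agent.Lib.H25Bisym.cont _ Set.ordConnected_Icc G (fun x => by simp [G, hr]) ?_ ?_ ?_
    F hmono hr hFG
  · intro x y u v
    rw [← hFG (fun i => if i = i0 then x else y) (fun i => if i = i0 then u else v)]
    change _ = F (fun i => if i = i0 then G x u else G y v)
    congr 1
    funext j
    split_ifs <;> rfl
  · intro x y y' h
    have h1 := hs (fun i => if i = i0 then x else y) i1 h
    simp only at h1
    have h2 : Function.update (fun i => if i = i0 then x else y) i1 y =
        fun i => if i = i0 then x else y := by
      funext j
      by_cases hj : j = i1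
      · subst hj; simp [h01]
      · simp [hj]
    rw [h2] at h1
    refine h1.trans_le (hmono _ _ fun j => ?_)
    by_cases hj : j = i1
    · subst hj; simp [h01]
    · simp only [Function.update_of_ne hj]
      split_ifs
      · exact le_rfl
      · exact h.le
  · intro y x x' h
    have h1 := hs (fun _ => y) i0 h
    have h2 : ∀ z, Function.update (fun _ : Fin n => y) i0 z = fun i => if i = i0 then z else y := by
      intro z
      funext j
      by_cases hj : j = i0
      · subst hj; simp
      · simp [hj]
    simp only [h2] at h1
    exact h1

end Pool.Agent.S03785
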