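import Pool.Statements.S03823
import Pool.Agent.Lib.Helper33.HilbGen

set_option autoImplicit false
open MeasureTheory Filter Topology
open Pool Pool.MP_0eb56c_an Pool.Agent.Lib.Helper33.HilbGen

set_option linter.unusedSectionVars false

namespace Pool.Agent.S03823

section
variable {α : Type} {m0 : MeasurableSpace α} {μ : Measure α} {p : ENNReal} [Fact (1 ≤ p)]

/-- the function `f` represents an element of `Y` -/
def Rep (Y : Submodule ℝ (Lp ℝ p μ)) (f : α → ℝ) : Prop := ∃ g ∈ Y, ⇑g =ᵐ[μ] f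

lemma Rep.add {Y : Submodule ℝ (Lp ℝ p μ)} {f g : α → ℝ} (hf : Rep Y f) (hg : Rep Y g) :
    Rep Y fun x => f x + g x := by
  obtain ⟨a, ha, ea⟩ := hf
  obtain ⟨b, hb, eb⟩ := hg
  refine ⟨a + b, Y.add_mem ha hb, ?_⟩
  filter_upwards [Lp.coeFn_add a b, ea, eb] with x h1 h2 h3
  rw [h1, Pi.add_apply, h2, h3]

lemma Rep.smul {Y : Submodule ℝ (Lp ℝ p μ)} {f : α → ℝ} (hf : Rep Y f) (c : ℝ) :
    Rep Y fun x => c * f x := by
  obtain ⟨a, ha, ea⟩ := hf
  refine ⟨c • a, Y.smul_mem c ha, ?_⟩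
  filter_upwards [Lp.coeFn_smul c a, ea] with x h1 h2
  rw [h1, Pi.smul_apply, h2, smul_eq_mul]

lemma Rep.mem {Y : Submodule ℝ (Lp ℝ p μ)} {f : α → ℝ} (hf : Rep Y f) {g : Lp ℝ p μ}
    (h : ⇑g =ᵐ[μ] f) : g ∈ Y := by
  obtain ⟨a, ha, ea⟩ := hf
  rwa [Lp.ext (h.trans ea.symm)]

lemma Rep.congr {Y : Submodule ℝ (Lp ℝ p μ)} {f g : α → ℝ} (hf : Rep Y f) (h : ∀ x, f x = g x) :
    Rep Y g := by
  rwa [← funext h]

lemma of_ind [IsFiniteMeasure μ] (hp : p ≠ ⊤) {m : MeasurableSpace α} (hm : m ≤ m0)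
    (Y : Submodule ℝ (Lp ℝ p μ)) (hY : IsClosed (Y : Set (Lp ℝ p μ)))
    (h : ∀ B, MeasurableSet[m] B → Rep Y (B.indicator fun _ => 1)) (f : Lp ℝ p μ)
    (hf : AEStronglyMeasurable[m] f μ) : f ∈ Y := by
  refine Lp.induction_stronglyMeasurable hm hp (fun f => f ∈ Y) (fun c s hs hμs => ?_)
    (fun f g hf hg _ _ _ a b => Y.add_mem a b) (hY.preimage continuous_subtype_val) f hf
  refine ((h s hs).smul c).mem ?_
  refine (@indicatorConstLp_coeFn α ℝ m0 p μ _ s (hm s hs) hμs.ne c).trans (.of_forall fun x => ?_)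
  by_cases h : x ∈ s <;> simp [h]

lemma of_pi [IsFiniteMeasure μ] (hp : p ≠ ⊤) (P : Set (Set α)) (hP : IsPiSystem P)
    (hm : MeasurableSpace.generateFrom P ≤ m0)
    (Y : Submodule ℝ (Lp ℝ p μ)) (hY : IsClosed (Y : Set (Lp ℝ p μ))) (h1 : Rep Y fun _ => 1)
    (h : ∀ B ∈ P, Rep Y (B.indicator fun _ => 1)) (B : Set α)
    (hB : MeasurableSet[MeasurableSpace.generateFrom P] B) : Rep Y (B.indicator fun _ => 1) := by
  have h0 : Rep Y ((∅ : Set α).indicator fun _ => 1) := (h1.smul 0).congr fun x => by simp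
  refine MeasurableSpace.induction_on_inter (m := MeasurableSpace.generateFrom P)
    (C := fun B _ => Rep Y (B.indicator fun _ => 1)) rfl hP h0 h (fun t _ ht => ?_)
    (fun f hd hf hr => ?_) B hB
  · exact (h1.add (ht.smul (-1))).congr fun x => by by_cases h : x ∈ t <;> simp [h]
  · have mf : ∀ n, MeasurableSet[m0] (f n) := fun n => hm _ (hf n)
    have ma : ∀ n, MeasurableSet[m0] (⋃ i ∈ Finset.range n, f i) := fun n =>
      Finset.measurableSet_biUnion _ fun i _ => mf i
    have ra : ∀ n, Rep Y ((⋃ i ∈ Finset.range n, f i).indicator fun _ => 1) := fun n => by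
      induction n with
      | zero => simpa using h0
      | succ n ih =>
        rw [Finset.range_add_one, Finset.set_biUnion_insert]
        refine ((hr n).add ih).congr fun x => ?_
        rw [Set.indicator_union_of_disjoint]
        exact Set.disjoint_iUnion₂_right.2 fun i hi => hd (Finset.mem_range.1 hi).ne'
    refine ⟨indicatorConstLp p (MeasurableSet.iUnion mf) (measure_ne_top μ _) 1, ?_,
      indicatorConstLp_coeFn⟩
    refine hY.mem_of_tendsto (tendsto_indicatorConstLp_set (l := atTop) (ht := ma)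
      (hμt := fun _ => measure_ne_top μ _) hp ?_)
      (.of_forall fun n => (ra n).mem indicatorConstLp_coeFn)
    have e : ∀ n, symmDiff (⋃ i ∈ Finset.range n, f i) (⋃ i, f i) =
        (⋃ i, f i) \ ⋃ i ∈ Finset.range n, f i := fun n =>
      symmDiff_of_le (Set.iUnion₂_subset fun i _ => Set.subset_iUnion f i)
    simp only [e]
    have := tendsto_measure_iInter_atTop (μ := μ)
      (s := fun n => (⋃ i, f i) \ ⋃ i ∈ Finset.range n, f i)
      (fun n => ((MeasurableSet.iUnion mf).diff (ma n)).nullMeasurableSet)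
      (fun a b hab => Set.sdiff_subset_sdiff_right
        (Set.biUnion_subset_biUnion_left (Finset.coe_subset.2 (Finset.range_mono hab))))
      ⟨0, measure_ne_top μ _⟩
    have z : ⋂ n, (⋃ i, f i) \ ⋃ i ∈ Finset.range n, f i = ∅ := by
      refine Set.eq_empty_of_forall_notMem fun x hx => ?_
      rw [Set.mem_iInter] at hx
      obtain ⟨i, hi⟩ := Set.mem_iUnion.1 (hx 0).1
      exact (hx (i + 1)).2 (Set.mem_biUnion (Finset.mem_coe.2 (Finset.self_mem_range_succ i)) hi)
    rw [z, measure_empty] at this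
    exact this

lemma exists_diff [IsFiniteMeasure μ] {m : MeasurableSpace α} (hm : m ≤ m0) (A : Set α)
    (hA : MeasurableSet[m0] A) : ∃ q : α → ℝ, Measurable[m] q ∧ (∀ x, 0 ≤ q x ∧ q x ≤ 1) ∧
      ∀ G, BM m G → ∫ x, G x * (A.indicator (fun _ => (1 : ℝ)) x - q x) ∂μ = 0 := by
  set f : α → ℝ := A.indicator fun _ => 1 with hf
  have bf : BM m0 f := ⟨measurable_const.indicator hA, 1, fun x => by
    by_cases h : x ∈ A <;> simp [hf, h]⟩
  have e0 : 0 ≤ᵐ[μ] μ[f | m] := condExp_nonneg (.of_forall fun x => by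
    by_cases h : x ∈ A <;> simp [hf, h])
  have e1 : μ[f | m] ≤ᵐ[μ] fun _ => (1 : ℝ) := by
    have := condExp_mono (m := m) (bf.int μ) (integrable_const (1 : ℝ)) (.of_forall fun x => by
      by_cases h : x ∈ A <;> simp [hf, h])
    rwa [condExp_const hm] at this
  have mq : Measurable[m] fun x => max 0 (min 1 (μ[f | m] x)) :=
    measurable_const.max (measurable_const.min stronglyMeasurable_condExp.measurable)
  have bq : ∀ x, 0 ≤ max 0 (min 1 (μ[f | m] x)) ∧ max 0 (min 1 (μ[f | m] x)) ≤ 1 := fun x =>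
    ⟨le_max_left _ _, max_le zero_le_one (min_le_left _ _)⟩
  refine ⟨_, mq, bq, fun G hG => ?_⟩
  have j1 : Integrable (G * f) μ := ((hG.mono hm).mul bf).int μ
  have j1' : Integrable (fun x => G x * f x) μ := j1
  have j2 := ((hG.mono hm).mul ⟨mq.mono hm le_rfl, 1, fun x =>
    abs_le.2 ⟨by linarith [(bq x).1], (bq x).2⟩⟩).int μ
  simp only [mul_sub]
  rw [integral_sub j1' j2, sub_eq_zero]
  change ∫ x, (G * f) x ∂μ = _
  rw [← integral_condExp hm]
  refine integral_congr_ae ?_
  filter_upwards [condExp_mul_of_stronglyMeasurable_left hG.1.stronglyMeasurable j1 (bf.int μ),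
    e0, e1] with x h1 h2 h3
  rw [h1, Pi.mul_apply, min_eq_right h3, max_eq_right (show (0 : ℝ) ≤ _ from h2)]

lemma main [IsFiniteMeasure μ] (hp : p ≠ ⊤) {I : Type} [LinearOrder I] [WellFoundedLT I]
    (A : I → Set α) (hA : ∀ i, MeasurableSet[m0] (A i))
    (hs : ∀ B, MeasurableSet[m0] B → ∃ i, A i = B) :
    ∃ T : lp (fun _ : Finset I => ℝ) 2 →L[ℝ] Lp ℝ p μ, DenseRange T := by
  let P : I → Set (Set α) := fun i => {B | ∃ J : Finset I, (∀ j ∈ J, j < i) ∧ B = ⋂ j ∈ J, A j}
  let F : I → MeasurableSpace α := fun i => MeasurableSpace.generateFrom (P i)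
  have hF : ∀ i, F i ≤ m0 := fun i => MeasurableSpace.generateFrom_le (by
    rintro _ ⟨J, -, rfl⟩; exact Finset.measurableSet_biInter _ fun j _ => hA j)
  have Fm : ∀ i j, j < i → F j ≤ F i := fun i j h => MeasurableSpace.generateFrom_mono (by
    rintro _ ⟨J, hJ, rfl⟩; exact ⟨J, fun l hl => (hJ l hl).trans h, rfl⟩)
  have AF : ∀ i j, j < i → MeasurableSet[F i] (A j) := fun i j h =>
    MeasurableSpace.measurableSet_generateFrom ⟨{j}, by simpa using h, by simp⟩
  have hP : ∀ i, IsPiSystem (P i) := fun i => by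
    rintro _ ⟨J, hJ, rfl⟩ _ ⟨K, hK, rfl⟩ -
    exact ⟨J ∪ K, fun j hj => (Finset.mem_union.1 hj).elim (hJ j) (hK j),
      (Finset.set_biInter_inter J K A).symm⟩
  choose q mq bq oq using fun i => exists_diff (μ := μ) (hF i) (A i) (hA i)
  let u : I → α → ℝ := fun i x => (A i).indicator (fun _ => (1 : ℝ)) x - q i x
  have hb : ∀ i x, |u i x| ≤ 1 := fun i x => by
    have := bq i x
    by_cases h : x ∈ A i <;> simp only [u, Set.indicator_of_mem, Set.indicator_of_notMem, h,
      not_false_eq_true, abs_le] <;> constructor <;> linarith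
  have hm : ∀ i, BM m0 (u i) := fun i =>
    ⟨(measurable_const.indicator (hA i)).sub ((mq i).mono (hF i) le_rfl), 1, hb i⟩
  have hm' : ∀ i j, j < i → BM (F i) (u j) := fun i j h =>
    ⟨(measurable_const.indicator (AF i j h)).sub ((mq j).mono (Fm i j h) le_rfl), 1, hb j⟩
  obtain ⟨k, hk⟩ := exists_nat_ge p.toReal
  obtain ⟨ρ, r0, hρ⟩ := bessel μ F hF u hb hm hm' oq k
  have bW : ∀ S : Finset I, BM m0 fun x => ∏ i ∈ S, u i x := fun S => BM.prod _ fun i _ => hm i
  let w : Finset I → Lp ℝ p μ := fun S => ((bW S).memLp p μ).toLp _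
  have ew : ∀ S, ⇑(w S) =ᵐ[μ] fun x => ∏ i ∈ S, u i x := fun S => MemLp.coeFn_toLp _
  have p0 : p ≠ 0 := (one_pos.trans_le (Fact.out : 1 ≤ p)).ne'
  have p1 : 0 < p.toReal := ENNReal.toReal_pos p0 hp
  have μ0 : 0 ≤ μ.real Set.univ := measureReal_nonneg
  obtain ⟨T, hT⟩ := synth (fun S : Finset I => ρ ^ S.card • w S)
    ((2 * μ.real Set.univ) ^ p.toReal⁻¹ + 1) (by positivity) fun T c hc => by
      set J := T.biUnion id with hJ
      have sub : T ⊆ J.powerset := fun S hS =>
        Finset.mem_powerset.2 (Finset.subset_biUnion_of_mem id hS)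
      have := hρ J (fun S => if S ∈ T then c S else 0) 1 (by
        simp only [ite_pow, ne_eq, OfNat.ofNat_ne_zero, not_false_eq_true, zero_pow,
          Finset.sum_ite_mem, Finset.inter_eq_right.2 sub]
        exact hc)
      simp only [ite_mul, zero_mul, Finset.sum_ite_mem, Finset.inter_eq_right.2 sub, one_pow,
        mul_one] at this
      set X : α → ℝ := fun x => ∑ S ∈ T, c S * (ρ ^ S.card * ∏ i ∈ S, u i x) with hX
      have bX : BM m0 X := BM.sum _ fun S _ => (BM.const _).mul ((BM.const _).mul (bW S))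
      have e : ⇑(∑ S ∈ T, c S • ρ ^ S.card • w S) =ᵐ[μ] X := by
        refine (Lp.coeFn_finsetSum _ _).trans ?_
        have : ∀ᵐ x ∂μ, ∀ S ∈ T, (c S • ρ ^ S.card • w S : Lp ℝ p μ) x =
            c S * (ρ ^ S.card * ∏ i ∈ S, u i x) := by
          refine (Finset.eventually_all T).2 fun S _ => ?_
          filter_upwards [Lp.coeFn_smul (c S) (ρ ^ S.card • w S), Lp.coeFn_smul (ρ ^ S.card) (w S),
            ew S] with x h1 h2 h3
          rw [h1, Pi.smul_apply, h2, Pi.smul_apply, h3, smul_eq_mul, smul_eq_mul]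
        filter_upwards [this] with x hx
        rw [Finset.sum_apply]
        exact Finset.sum_congr rfl hx
      rw [Lp.norm_def, eLpNorm_congr_ae e, (bX.memLp p μ).eLpNorm_eq_integral_rpow_norm p0 hp,
        ENNReal.toReal_ofReal (by positivity)]
      refine le_trans (Real.rpow_le_rpow (by positivity) ?_ (by positivity)) (le_add_of_nonneg_right
        zero_le_one)
      calc _ ≤ ∫ x, (1 + X x ^ (2 * k + 2)) ∂μ := by
            refine integral_mono_of_nonneg (.of_forall fun x => by positivity)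
              (((BM.const 1).add (bX.pow _)).int μ) (.of_forall fun x => ?_)
            have ev : 0 ≤ X x ^ (2 * k + 2) := Even.pow_nonneg ⟨k + 1, by ring⟩ _
            rcases le_total ‖X x‖ 1 with h | h
            · exact (Real.rpow_le_one (norm_nonneg _) h p1.le).trans (le_add_of_nonneg_right ev)
            · refine (Real.rpow_le_rpow_of_exponent_le h
                (show p.toReal ≤ ((2 * k + 2 : ℕ) : ℝ) by push_cast; linarith)).trans ?_
              rw [Real.rpow_natCast, Real.norm_eq_abs, Even.pow_abs ⟨k + 1, by ring⟩]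
              exact le_add_of_nonneg_left zero_le_one
        _ ≤ _ := by
            rw [integral_add (integrable_const _) ((bX.pow _).int μ), integral_const, smul_eq_mul]
            linarith
  let Y : I → Submodule ℝ (Lp ℝ p μ) := fun i =>
    (Submodule.span ℝ (w '' {S | ∀ j ∈ S, j < i})).topologicalClosure
  have cY : ∀ i, IsClosed (Y i : Set (Lp ℝ p μ)) := fun i => Submodule.isClosed_topologicalClosure _
  have wY : ∀ i (S : Finset I), (∀ j ∈ S, j < i) → w S ∈ Y i := fun i S hS =>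
    Submodule.le_topologicalClosure _ (Submodule.subset_span ⟨S, hS, rfl⟩)
  have Y1 : ∀ i, Rep (Y i) fun _ => 1 := fun i =>
    ⟨w ∅, wY i ∅ (by simp), by simpa using ew ∅⟩
  have Ym : ∀ i j, j < i → Y j ≤ Y i := fun i j h => Submodule.topologicalClosure_mono
    (Submodule.span_mono (Set.image_mono fun S hS l hl => (hS l hl).trans h))
  have mulY : ∀ i j, j < i → ∀ f, Rep (Y j) f → Rep (Y i) fun x => u j x * f x := by
    rintro i j h f ⟨g, hg, eg⟩
    let U : Lp ℝ ⊤ μ := ((hm j).memLp ⊤ μ).toLp _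
    have eU : ⇑U =ᵐ[μ] u j := MemLp.coeFn_toLp _
    let M : Lp ℝ p μ →L[ℝ] Lp ℝ p μ := (ContinuousLinearMap.mul ℝ ℝ).holderL μ ⊤ p p U
    have eM : ∀ g, ⇑(M g) =ᵐ[μ] fun x => u j x * g x := fun g => by
      filter_upwards [(ContinuousLinearMap.mul ℝ ℝ).coeFn_holder (r := p) U g, eU] with x h1 h2
      rw [← h2]; exact h1
    have : Y j ≤ (Y i).comap (M : Lp ℝ p μ →ₗ[ℝ] Lp ℝ p μ) := by
      refine Submodule.topologicalClosure_minimal _ (Submodule.span_le.2 ?_)
        ((cY i).preimage M.continuous)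
      rintro _ ⟨S, hS, rfl⟩
      have nm : j ∉ S := fun h => lt_irrefl _ (hS j h)
      refine Rep.mem ⟨w (insert j S), wY i _ fun l hl => ?_, ew _⟩ ?_
      · rcases Finset.mem_insert.1 hl with rfl | hl
        exacts [h, (hS l hl).trans h]
      · filter_upwards [eM (w S), ew S] with x h1 h2
        rw [Finset.prod_insert nm, ← h2]; exact h1
    refine ⟨M g, this hg, ?_⟩
    filter_upwards [eM g, eg] with x h1 h2
    rw [h1, h2]
  have key : ∀ i f, BM (F i) f → Rep (Y i) f := fun i => by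
    induction i using WellFoundedLT.induction with
    | ind i ih =>
    intro f hf
    refine ⟨((hf.mono (hF i)).memLp p μ).toLp _, of_ind hp (hF i) _ (cY i) ?_ _
      (hf.1.stronglyMeasurable.aestronglyMeasurable.congr (MemLp.coeFn_toLp _).symm),
      MemLp.coeFn_toLp _⟩
    refine of_pi hp (P i) (hP i) (hF i) _ (cY i) (Y1 i) ?_
    rintro _ ⟨J, hJ, rfl⟩
    rcases J.eq_empty_or_nonempty with rfl | hne
    · exact (Y1 i).congr fun x => by simp
    · set β := J.max' hne with hβ
      have bi : β < i := hJ β (J.max'_mem hne)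
      have mB : MeasurableSet[F β] (⋂ j ∈ J.erase β, A j) :=
        MeasurableSpace.measurableSet_generateFrom ⟨J.erase β, fun j hj =>
          J.lt_max'_of_mem_erase_max' hne hj, rfl⟩
      have bB : BM (F β) ((⋂ j ∈ J.erase β, A j).indicator fun _ => (1 : ℝ)) :=
        ⟨measurable_const.indicator mB, 1, fun x => by
          by_cases h : x ∈ ⋂ j ∈ J.erase β, A j
          · rw [Set.indicator_of_mem h]; simp
          · rw [Set.indicator_of_notMem h]; simp⟩
      have bq' : BM (F β) (q β) := ⟨mq β, 1, fun x => abs_le.2 ⟨by linarith [(bq β x).1],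
        (bq β x).2⟩⟩
      obtain ⟨g, hg, eg⟩ := ih β bi _ (bq'.mul bB)
      refine ((mulY i β bi _ (ih β bi _ bB)).add ⟨g, Ym i β bi hg, eg⟩).congr fun x => ?_
      conv_rhs => rw [← Finset.insert_erase (J.max'_mem hne), Finset.set_biInter_insert]
      rw [← hβ]
      by_cases h1 : x ∈ A β <;> by_cases h2 : x ∈ ⋂ j ∈ J.erase β, A j <;>
        simp only [u, Set.indicator_of_mem, Set.indicator_of_notMem, h1, h2, Set.mem_inter_iff,
          not_false_eq_true, and_self, and_false, and_true] <;> ring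
  refine ⟨T, ?_⟩
  have cl : IsClosed ((LinearMap.range T.toLinearMap).topologicalClosure :
    Set (Lp ℝ p μ)) := Submodule.isClosed_topologicalClosure _
  have wT : ∀ S, w S ∈ (LinearMap.range T.toLinearMap).topologicalClosure := fun S => by
    refine Submodule.le_topologicalClosure _ ⟨(ρ ^ S.card)⁻¹ • lp.single 2 S 1, ?_⟩
    rw [map_smul]
    change (ρ ^ S.card)⁻¹ • T _ = _
    rw [hT, smul_smul, inv_mul_cancel₀ (by positivity), one_smul]
  intro f
  refine of_ind hp le_rfl _ cl (fun B hB => ?_) f (Lp.aestronglyMeasurable f)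
  obtain ⟨i, rfl⟩ := hs B hB
  obtain ⟨g, hg, eg⟩ := key i (q i) ⟨mq i, 1, fun x => abs_le.2 ⟨by linarith [(bq i x).1],
    (bq i x).2⟩⟩
  have hg' : g ∈ (LinearMap.range T.toLinearMap).topologicalClosure :=
    Submodule.topologicalClosure_minimal _ (Submodule.span_le.2 (by
      rintro _ ⟨S, -, rfl⟩; exact wT S)) cl hg
  exact (Rep.add ⟨w {i}, wT _, ew _⟩ ⟨g, hg', eg⟩).congr fun x => by simp [u]

end

/-- Every `L^p(μ)` with `2 < p < ∞` and `μ` finite is Hilbert generated. -/
theorem result :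
    ∀ (p : ENNReal) [Fact (1 ≤ p)], 2 < p → p ≠ ⊤ →
      ∀ (α : Type) [MeasurableSpace α] (μ : Measure α) [IsFiniteMeasure μ],
        ∃ (H : Type) (_ : NormedAddCommGroup H) (_ : InnerProductSpace ℝ H)
          (_ : CompleteSpace H) (T : H →L[ℝ] Lp ℝ p μ), DenseRange (⇑T) := by
  intro p _ _ hp α _ μ _
  obtain ⟨lo, wf⟩ := exists_wellFoundedLT (ULift.{0} {s : Set α // MeasurableSet s})
  obtain ⟨T, hT⟩ := @main α _ μ p _ _ hp _ lo wf (fun i => i.down.1) (fun i => i.down.2)
    fun B hB => ⟨⟨⟨B, hB⟩⟩, rfl⟩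
  exact ⟨_, inferInstance, inferInstance, inferInstance, T, hT⟩

end Pool.Agent.S03823
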