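import Pool.Statements.S03845

set_option autoImplicit false
open Filter Topology
open Pool Pool.MP_10e324_an

namespace Pool.Agent.S03845

open Metric in
lemma min_mod (F : ℂ → ℂ) (z0 : ℂ) (ρ A : ℝ) (hρ : 0 < ρ)
    (hF : DifferentiableOn ℂ F (closedBall z0 ρ)) (h0 : ‖F z0‖ < A)
    (h1 : ∀ z ∈ sphere z0 ρ, A ≤ ‖F z‖) : ∃ z ∈ closedBall z0 ρ, F z = 0 := by
  by_contra hne
  push Not at hne
  have hd : DifferentiableOn ℂ (fun z => (F z)⁻¹) (closedBall z0 ρ) := hF.inv hne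
  have hA : 0 < A := (norm_nonneg _).trans_lt h0
  have h := Complex.norm_le_of_forall_mem_frontier_norm_le (U := ball z0 ρ) (C := A⁻¹)
    (f := fun z => (F z)⁻¹) isBounded_ball
    (DifferentiableOn.diffContOnCl (by rwa [closure_ball _ hρ.ne'])) (fun w hw => by
      rw [frontier_ball _ hρ.ne'] at hw
      rw [norm_inv]
      exact inv_anti₀ hA (h1 w hw)) (subset_closure (mem_ball_self hρ))
  rw [norm_inv] at h
  have hp : 0 < ‖F z0‖ := norm_pos_iff.2 (hne z0 (mem_closedBall_self hρ.le))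
  have := (inv_le_inv₀ hp hA).1 h
  linarith

open Metric in
lemma step (β : ℂ → ℂ) (hβ : AnalyticOnNhd ℂ β (ball 0 1))
    (hu : ∀ M : ℝ, ∃ z ∈ ball (0:ℂ) 1, M < ‖β z‖) (P : ℂ → ℂ) (hP : Differentiable ℂ P)
    (R ε N : ℝ) (hR : 0 ≤ R) (hε : 0 < ε) (hN : 0 ≤ N) :
    ∃ (Q : ℂ → ℂ) (R' : ℝ), Differentiable ℂ Q ∧ (∀ w, ‖w‖ ≤ R → ‖Q w‖ ≤ ε) ∧ R + 1 ≤ R' ∧
      ∃ (z0 : ℂ) (ρ M : ℝ), 0 < ρ ∧ closedBall z0 ρ ⊆ ball 0 1 ∧
        (∀ z ∈ closedBall z0 ρ, ‖β z‖ ≤ R') ∧ ‖P (β z0) + Q (β z0)‖ ≤ M ∧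
        ∀ z ∈ sphere z0 ρ, M + N ≤ ‖P (β z) + Q (β z)‖ := by
  obtain ⟨z0, hz0, hw0⟩ := hu (R + 2)
  have h1 : ∀ᶠ z in 𝓝[≠] z0, β z ≠ β z0 := by
    refine ((hβ z0 hz0).eventually_eq_or_eventually_ne analyticAt_const).resolve_left fun h => ?_
    have := hβ.eqOn_of_preconnected_of_eventuallyEq analyticOnNhd_const
      (convex_ball _ _).isPreconnected hz0 h
    obtain ⟨z1, hz1, hw1⟩ := hu ‖β z0‖
    rw [this hz1] at hw1
    exact lt_irrefl _ hw1
  have h2 : ∀ᶠ z in 𝓝 z0, z ∈ ball (0:ℂ) 1 := isOpen_ball.mem_nhds hz0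
  have h3 : ∀ᶠ z in 𝓝 z0, β z ∈ closedBall (β z0) 1 :=
    (hβ z0 hz0).continuousAt.eventually_mem (closedBall_mem_nhds _ one_pos)
  obtain ⟨ρ, hρ, hb⟩ := nhds_basis_closedBall.mem_iff.mp
    ((h2.and h3).and (eventually_nhdsWithin_iff.mp h1))
  have hsub : closedBall z0 ρ ⊆ ball 0 1 := fun z hz => (hb hz).1.1
  obtain ⟨r, hr, hr2⟩ := (isCompact_sphere z0 ρ).exists_forall_le' (a := 0)
    (f := fun z => ‖β z - β z0‖)
    ((hβ.continuousOn.mono (sphere_subset_closedBall.trans hsub)).sub continuousOn_const).norm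
    (fun z hz => norm_pos_iff.2 (sub_ne_zero.2 ((hb (sphere_subset_closedBall hz)).2 (by
      intro h
      rw [Set.mem_singleton_iff] at h
      rw [h] at hz
      simp at hz
      exact hρ.ne hz))))
  obtain ⟨M0, hM0⟩ := (isCompact_closedBall (β z0) 1).exists_bound_of_continuousOn
    hP.continuous.continuousOn
  have hM00 : 0 ≤ M0 := (norm_nonneg _).trans (hM0 _ (mem_closedBall_self zero_le_one))
  set c : ℝ := (2 * M0 + N) / r with hc
  have hc0 : 0 ≤ c := by positivity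
  obtain ⟨k, hk⟩ := exists_pow_lt_of_lt_one (x := ε / (c * (R + ‖β z0‖) + 1)) (y := R / (R + 1))
    (by positivity) (by rw [div_lt_one (by linarith)]; linarith)
  have hnorm : ∀ w : ℂ, ‖(c : ℂ) * (w - β z0) * (w / ((R + 1 : ℝ) : ℂ)) ^ k‖
      = c * ‖w - β z0‖ * (‖w‖ / (R + 1)) ^ k := by
    intro w
    rw [norm_mul, norm_mul, norm_pow, norm_div, Complex.norm_real, Complex.norm_real,
      Real.norm_of_nonneg hc0, Real.norm_of_nonneg (by linarith)]
  refine ⟨fun w => (c : ℂ) * (w - β z0) * (w / ((R + 1 : ℝ) : ℂ)) ^ k, ‖β z0‖ + 1, by fun_prop,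
    fun w hw => ?_, by linarith, z0, ρ, M0, hρ, hsub, fun z hz => ?_, ?_, fun z hz => ?_⟩
  · rw [hnorm]
    have a1 : ‖w - β z0‖ ≤ R + ‖β z0‖ := (norm_sub_le _ _).trans (by linarith)
    have a2 : (‖w‖ / (R + 1)) ^ k ≤ (R / (R + 1)) ^ k := by gcongr
    rw [lt_div_iff₀ (by positivity)] at hk
    have a3 : 0 ≤ (R / (R + 1)) ^ k := by positivity
    calc c * ‖w - β z0‖ * (‖w‖ / (R + 1)) ^ k ≤ c * (R + ‖β z0‖) * (R / (R + 1)) ^ k := by gcongr
      _ ≤ ε := by nlinarith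
  · have := (hb hz).1.2
    rw [mem_closedBall, dist_eq_norm] at this
    have h := norm_add_le (β z - β z0) (β z0)
    rw [sub_add_cancel] at h
    linarith
  · simpa using hM0 _ (mem_closedBall_self zero_le_one)
  · have b1 := (hb (sphere_subset_closedBall hz)).1.2
    have b2 := hM0 _ b1
    rw [mem_closedBall, dist_eq_norm] at b1
    have b3 : R + 1 ≤ ‖β z‖ := by
      have h := norm_sub_le (β z) (β z - β z0)
      rw [sub_sub_cancel] at h
      linarith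
    have b4 : 1 ≤ (‖β z‖ / (R + 1)) ^ k :=
      one_le_pow₀ (by rw [le_div_iff₀ (by linarith)]; linarith)
    have b5 := hr2 z hz
    have b6 : 2 * M0 + N ≤ c * ‖β z - β z0‖ * (‖β z‖ / (R + 1)) ^ k := by
      have : c * r = 2 * M0 + N := by rw [hc]; field_simp
      calc 2 * M0 + N = c * r * 1 := by rw [this, mul_one]
        _ ≤ _ := by gcongr
    rw [← hnorm] at b6
    have h := norm_sub_le (P (β z) + (c : ℂ) * (β z - β z0) * (β z / ((R + 1 : ℝ) : ℂ)) ^ k)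
      (P (β z))
    rw [add_sub_cancel_left] at h
    linarith

open Metric in
lemma exists_onto (β : ℂ → ℂ) (hβ : AnalyticOnNhd ℂ β (ball 0 1))
    (hu : ∀ M : ℝ, ∃ z ∈ ball (0:ℂ) 1, M < ‖β z‖) :
    ∃ H : ℂ → ℂ, Differentiable ℂ H ∧ ∀ t : ℂ, ∃ z ∈ ball (0:ℂ) 1, H (β z) + z = t := by
  have hs := fun (n : ℕ) (s : {s : (ℂ → ℂ) × ℝ // Differentiable ℂ s.1 ∧ 0 ≤ s.2}) =>
    step β hβ hu s.1.1 s.2.1 s.1.2 ((1 / 2) ^ n) (2 * n + 7) s.2.2 (by positivity) (by positivity)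
  choose Q R' hQ hQε hR' hrest using hs
  let s : ℕ → {s : (ℂ → ℂ) × ℝ // Differentiable ℂ s.1 ∧ 0 ≤ s.2} := fun n =>
    Nat.rec ⟨(fun _ => 0, 0), differentiable_const _, le_rfl⟩
      (fun n s => ⟨(fun w => s.1.1 w + Q n s w, R' n s), s.2.1.add (hQ n s),
        by have := hR' n s; have := s.2.2; simp only; linarith⟩) n
  have hs1 : ∀ n w, (s (n + 1)).1.1 w = (s n).1.1 w + Q n (s n) w := fun n w => rfl
  have hs2 : ∀ n, (s (n + 1)).1.2 = R' n (s n) := fun n => rfl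
  have hsum : ∀ n w, (s n).1.1 w = ∑ j ∈ Finset.range n, Q j (s j) w := by
    intro n w
    induction n with
    | zero => rfl
    | succ n ih => rw [hs1, ih, Finset.sum_range_succ]
  have hmono : Monotone fun n => (s n).1.2 :=
    monotone_nat_of_le_succ fun n => by rw [hs2]; have := hR' n (s n); linarith
  have hge : ∀ n : ℕ, (n : ℝ) ≤ (s n).1.2 := by
    intro n
    induction n with
    | zero => simpa using (s 0).2.2
    | succ n ih => rw [hs2]; have := hR' n (s n); push_cast; linarith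
  have hgeo : ∀ n : ℕ, Summable fun j : ℕ => ((1:ℝ) / 2) ^ (j + n) := fun n =>
    (summable_nat_add_iff n).2 summable_geometric_two
  have hbd : ∀ n j w, ‖w‖ ≤ (s n).1.2 → ‖Q (j + n) (s (j + n)) w‖ ≤ (1 / 2) ^ (j + n) :=
    fun n j w hw => hQε _ _ w (hw.trans (hmono (Nat.le_add_left n j)))
  have hsplit : ∀ n w, ‖w‖ ≤ (s n).1.2 →
      ∑' j, Q j (s j) w = (s n).1.1 w + ∑' j, Q (j + n) (s (j + n)) w := by
    intro n w hw
    rw [hsum, Summable.sum_add_tsum_nat_add]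
    exact (summable_nat_add_iff n).1
      (Summable.of_norm_bounded (hgeo n) (fun j => hbd n j w hw))
  have htail : ∀ n w, ‖w‖ ≤ (s n).1.2 → ‖∑' j, Q (j + n) (s (j + n)) w‖ ≤ 2 := by
    intro n w hw
    refine tsum_of_norm_bounded (g := fun j : ℕ => ((1:ℝ) / 2) ^ j) hasSum_geometric_two
      fun j => (hbd n j w hw).trans ?_
    exact pow_le_pow_of_le_one (by norm_num) (by norm_num) (Nat.le_add_right _ _)
  have hH : Differentiable ℂ fun w => ∑' j, Q j (s j) w := by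
    intro w
    obtain ⟨n, hn⟩ := exists_nat_gt ‖w‖
    have hw : w ∈ ball (0:ℂ) (s n).1.2 := by simpa using hn.trans_le (hge n)
    have h1 : DifferentiableOn ℂ (fun w => ∑' j, Q (j + n) (s (j + n)) w) (ball 0 (s n).1.2) :=
      Complex.differentiableOn_tsum_of_summable_norm (hgeo n)
        (fun j => (hQ _ _).differentiableOn) isOpen_ball
        (fun j w hw => hbd n j w (by simpa using (mem_ball_zero_iff.1 hw).le))
    have h2 := ((s n).2.1 w).add (h1.differentiableAt (isOpen_ball.mem_nhds hw))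
    refine h2.congr_of_eventuallyEq ?_
    filter_upwards [isOpen_ball.mem_nhds hw] with v hv
    exact hsplit n v (mem_ball_zero_iff.1 hv).le
  refine ⟨_, hH, fun t => ?_⟩
  obtain ⟨n, hn⟩ := exists_nat_gt ‖t‖
  obtain ⟨z0, ρ, M, hρ, hsub, hb, h0, h1⟩ := hrest n (s n)
  have key : ∀ z ∈ closedBall z0 ρ, ‖(∑' j, Q j (s j) (β z) + z - t)
      - ((s n).1.1 (β z) + Q n (s n) (β z))‖ < n + 3 := by
    intro z hz
    have a1 := hb z hz
    rw [← hs2] at a1
    rw [hsplit (n + 1) _ a1, hs1]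
    have a2 := htail (n + 1) (β z) a1
    have a3 := mem_ball_zero_iff.1 (hsub hz)
    have e : ∀ a b c d e : ℂ, a + b + c + d - e - (a + b) = c + d - e := by intros; ring
    rw [e]
    have := norm_sub_le (∑' j, Q (j + (n + 1)) (s (j + (n + 1))) (β z) + z) t
    have := norm_add_le (∑' j, Q (j + (n + 1)) (s (j + (n + 1))) (β z)) z
    linarith
  obtain ⟨z, hz, hz0⟩ := min_mod (fun z => ∑' j, Q j (s j) (β z) + z - t) z0 ρ (M + n + 3) hρ
    (((hH.comp_differentiableOn (hβ.differentiableOn.mono hsub)).add differentiableOn_id).sub_const t)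
    (by
      have a := key z0 (mem_closedBall_self hρ.le)
      have b := norm_add_le ((∑' j, Q j (s j) (β z0) + z0 - t)
        - ((s n).1.1 (β z0) + Q n (s n) (β z0))) ((s n).1.1 (β z0) + Q n (s n) (β z0))
      rw [sub_add_cancel] at b
      linarith)
    (fun z hz => by
      have a := key z (sphere_subset_closedBall hz)
      have c := h1 z hz
      have b := norm_sub_le (∑' j, Q j (s j) (β z) + z - t) ((∑' j, Q j (s j) (β z) + z - t)
        - ((s n).1.1 (β z) + Q n (s n) (β z)))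
      rw [sub_sub_cancel] at b
      linarith)
  exact ⟨z, hsub hz, sub_eq_zero.1 hz0⟩

open Metric in
lemma exists_T (α : ℂ → ℂ) (hα : AnalyticOnNhd ℂ α (ball 0 1))
    (ho : IsOpen (α '' ball (0:ℂ) 1)) :
    ∃ T : ℂ → ℂ, AnalyticOnNhd ℂ T (α '' ball (0:ℂ) 1) ∧
      ∀ M : ℝ, ∃ z ∈ ball (0:ℂ) 1, M < ‖T (α z)‖ := by
  by_cases hU : α '' ball (0:ℂ) 1 = Set.univ
  · refine ⟨id, analyticOnNhd_id, fun M => ?_⟩
    obtain ⟨z, hz, h⟩ : ((|M| + 1 : ℝ) : ℂ) ∈ α '' ball (0:ℂ) 1 := by rw [hU]; trivial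
    refine ⟨z, hz, ?_⟩
    rw [id, h, Complex.norm_real, Real.norm_of_nonneg (by positivity)]
    linarith [le_abs_self M]
  · have hne : (α '' ball (0:ℂ) 1).Nonempty := ⟨_, 0, by simp, rfl⟩
    obtain ⟨p, hp⟩ := nonempty_frontier_iff.2 ⟨hne, hU⟩
    rw [ho.frontier_eq] at hp
    refine ⟨fun w => (w - p)⁻¹, fun w hw => ?_, fun M => ?_⟩
    · refine (analyticAt_id.sub analyticAt_const).inv (sub_ne_zero.2 ?_)
      rintro rfl
      exact hp.2 hw
    · obtain ⟨_, ⟨z, hz, rfl⟩, h⟩ := Metric.mem_closure_iff.1 hp.1 (|M| + 1)⁻¹ (by positivity)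
      refine ⟨z, hz, ?_⟩
      rw [dist_comm, dist_eq_norm] at h
      have h0 : 0 < ‖α z - p‖ := norm_pos_iff.2 (sub_ne_zero.2 fun e => hp.2 ⟨z, hz, e⟩)
      rw [norm_inv]
      have := (lt_inv_comm₀ h0 (by positivity)).1 h
      linarith [le_abs_self M]

open Metric in
lemma inv_analytic (α : ℂ → ℂ) (hα : AnalyticOnNhd ℂ α (ball 0 1))
    (ho : ∀ s ⊆ ball (0:ℂ) 1, IsOpen s → IsOpen (α '' s)) (hinj : Set.InjOn α (ball 0 1)) :
    AnalyticOnNhd ℂ (Function.invFunOn α (ball 0 1)) (α '' ball (0:ℂ) 1) := by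
  set g := Function.invFunOn α (ball 0 1) with hg
  have hl : ∀ z ∈ ball (0:ℂ) 1, g (α z) = z := fun z hz => hinj.leftInvOn_invFunOn hz
  have hG := ho _ subset_rfl isOpen_ball
  have hc : ∀ w ∈ α '' ball (0:ℂ) 1, ContinuousAt g w := by
    rintro _ ⟨z, hz, rfl⟩
    rw [ContinuousAt, hl z hz]
    intro V hV
    obtain ⟨W, hW, hWo, hzW⟩ := _root_.mem_nhds_iff.1 (Filter.inter_mem hV (isOpen_ball.mem_nhds hz))
    have h1 := ho W (fun x hx => (hW hx).2) hWo
    rw [Filter.mem_map]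
    refine Filter.mem_of_superset (h1.mem_nhds ⟨z, hzW, rfl⟩) ?_
    rintro _ ⟨x, hx, rfl⟩
    rw [Set.mem_preimage, hl x (hW hx).2]
    exact (hW hx).1
  have hr : ∀ w ∈ α '' ball (0:ℂ) 1, α (g w) = w ∧ g w ∈ ball (0:ℂ) 1 := by
    rintro _ ⟨z, hz, rfl⟩
    rw [hl z hz]
    exact ⟨rfl, hz⟩
  rintro _ ⟨z, hz, rfl⟩
  refine Complex.analyticAt_of_differentiable_on_punctured_nhds_of_continuousAt ?_
    (hc _ ⟨z, hz, rfl⟩)
  have h1 : ∀ᶠ x in 𝓝[≠] z, deriv α x ≠ 0 := by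
    refine ((hα.deriv z hz).eventually_eq_zero_or_eventually_ne_zero).resolve_left fun h => ?_
    obtain ⟨r, hr, hb⟩ := Metric.eventually_nhds_iff_ball.1
      (h.and (isOpen_ball.mem_nhds hz : ∀ᶠ x in 𝓝 z, x ∈ ball (0:ℂ) 1))
    have hz' : z + (r / 2 : ℝ) ∈ ball z r := by
      rw [mem_ball, dist_eq_norm, add_sub_cancel_left, Complex.norm_real,
        Real.norm_of_nonneg (by positivity)]
      linarith
    have := isOpen_ball.is_const_of_deriv_eq_zero (convex_ball z r).isPreconnected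
      (hα.differentiableOn.mono fun x hx => (hb x hx).2) (fun x hx => (hb x hx).1)
      hz' (mem_ball_self hr)
    have h2 := hinj (hb _ hz').2 hz this
    have h3 : ((r / 2 : ℝ) : ℂ) = 0 := by linear_combination h2
    rw [Complex.ofReal_eq_zero] at h3
    linarith
  rw [eventually_nhdsWithin_iff] at h1 ⊢
  have h2 : Tendsto g (𝓝 (α z)) (𝓝 z) := by
    have := hc _ ⟨z, hz, rfl⟩
    rwa [ContinuousAt, hl z hz] at this
  filter_upwards [h2.eventually h1, hG.mem_nhds ⟨z, hz, rfl⟩] with w hw1 hw2 hw3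
  have h3 : g w ≠ z := by
    intro e
    apply hw3
    rw [← e, (hr w hw2).1]
    rfl
  refine (HasDerivAt.of_local_left_inverse (hc w hw2)
    (hα _ (hr w hw2).2).differentiableAt.hasDerivAt (hw1 h3) ?_).differentiableAt
  filter_upwards [hG.mem_nhds hw2] with v hv using (hr v hv).1


theorem result :
    ∀ α : ℂ → ℂ, AnalyticOnNhd ℂ α (Metric.ball (0:ℂ) 1) →
      (∃ a ∈ Metric.ball (0:ℂ) 1, ∃ b ∈ Metric.ball (0:ℂ) 1, α a ≠ α b) →
      ((∀ f : ℂ → ℂ, AnalyticOnNhd ℂ f (Metric.ball (0:ℂ) 1) →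
          (∀ z : ℕ → ℂ, (∀ n, z n ∈ Metric.ball (0:ℂ) 1) →
            Tendsto (fun n => ‖z n‖) atTop (𝓝 1) →
            (∀ K : Set ℂ, K ⊆ f '' Metric.ball (0:ℂ) 1 → IsCompact K →
              {n : ℕ | f (z n) ∈ K}.Finite) →
            (∀ K : Set ℂ, K ⊆ α '' Metric.ball (0:ℂ) 1 → IsCompact K →
              {n : ℕ | α (z n) ∈ K}.Finite)) →
          ∃ φ : ℂ → ℂ, AnalyticOnNhd ℂ φ (α '' Metric.ball (0:ℂ) 1) ∧
            ∀ w ∈ Metric.ball (0:ℂ) 1, f w = φ (α w))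
        ↔ Set.InjOn α (Metric.ball (0:ℂ) 1)) := by
  intro α hα ⟨a, ha, b, hb, hab⟩
  have ho : ∀ s ⊆ Metric.ball (0:ℂ) 1, IsOpen s → IsOpen (α '' s) :=
    (hα.is_constant_or_isOpen (convex_ball _ _).isPreconnected).resolve_left
      fun ⟨w, hw⟩ => hab ((hw a ha).trans (hw b hb).symm)
  have hG := ho _ subset_rfl Metric.isOpen_ball
  constructor
  · intro h
    obtain ⟨T, hT, hu⟩ := exists_T α hα hG
    have hβ : AnalyticOnNhd ℂ (fun z => T (α z)) (Metric.ball 0 1) := fun z hz =>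
      (hT _ ⟨z, hz, rfl⟩).comp (hα z hz)
    obtain ⟨H, hH, honto⟩ := exists_onto _ hβ hu
    obtain ⟨φ, -, hφ⟩ := h (fun z => H (T (α z)) + z)
      (fun z hz => ((hH.analyticAt _).comp (hβ z hz)).add analyticAt_id) (by
        intro z hz _ hL K hK hKc
        obtain ⟨M, hM⟩ := hKc.exists_bound_of_continuousOn (f := fun w => H (T w))
          (hH.continuous.comp_continuousOn (hT.continuousOn.mono hK))
        refine (hL (Metric.closedBall 0 (M + 1)) (fun t _ => honto t)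
          (isCompact_closedBall _ _)).subset fun n hn => ?_
        have a1 := hM _ hn
        have a2 := mem_ball_zero_iff.1 (hz n)
        have a3 := norm_add_le (H (T (α (z n)))) (z n)
        simp only [Set.mem_ofPred_eq, mem_closedBall_zero_iff]
        linarith)
    intro x hx y hy hxy
    have h1 := hφ x hx
    have h2 := hφ y hy
    simp only [hxy] at h1
    linear_combination h1 - h2
  · intro hinj f hf _
    refine ⟨fun w => f (Function.invFunOn α (Metric.ball 0 1) w), ?_, fun w hw => ?_⟩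
    · rintro _ ⟨z, hz, rfl⟩
      refine AnalyticAt.comp ?_ (inv_analytic α hα ho hinj _ ⟨z, hz, rfl⟩)
      rw [hinj.leftInvOn_invFunOn hz]
      exact hf z hz
    · simp only [hinj.leftInvOn_invFunOn hw]

end Pool.Agent.S03845
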