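import Pool.Statements.S03851
import Pool.Agent.Lib.helper31.ShiftC0

set_option autoImplicit false
open Pool Pool.MP_115f17_an

namespace Pool.Agent.S03851

open Pool.Agent.H31.ShiftC0 Filter Topology

/-- Some bounded operator on a real or complex Banach space has a frequently hypercyclic vector x and a nonempty open U such that no subset of the visit set of x in U has a natural density that exists and is positive. -/
theorem result :
    ∃ (𝕜 : Type) (_ : RCLike 𝕜) (X : Type) (_ : NormedAddCommGroup X)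
      (_ : NormedSpace 𝕜 X) (_ : CompleteSpace X) (T : X →L[𝕜] X) (x : X),
      (∀ U : Set X, IsOpen U → U.Nonempty →
        ∃ δ : ℝ, 0 < δ ∧ ∀ᶠ n : ℕ in Filter.atTop,
          δ * (n : ℝ) ≤ (({k : ℕ | k < n ∧ (⇑T)^[k] x ∈ U}.ncard : ℕ) : ℝ)) ∧
      ∃ U : Set X, IsOpen U ∧ U.Nonempty ∧
        ∀ A : Set ℕ, A ⊆ {k : ℕ | (⇑T)^[k] x ∈ U} →
          ¬ ∃ d : ℝ, 0 < d ∧
            Filter.Tendsto
              (fun n : ℕ => (({k : ℕ | k < n ∧ k ∈ A}.ncard : ℕ) : ℝ) / (n : ℝ))
              Filter.atTop (nhds d) := by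
  have ht : Tendsto (fun m => if Nat.log 2 m % 2 = 0 then pat m else 0) atTop (𝓝 0) :=
    Tendsto.if' pat_tends tendsto_const_nhds
  have hit : ∀ (k : ℕ) (x : X), (⇑T)^[k] x = (T ^ k) x := by
    intro k x
    rw [ContinuousLinearMap.coe_pow']
  refine ⟨ℝ, inferInstance, X, inferInstance, inferInstance, inferInstance, T, mk _ ht, ?_,
    {y : X | y 0 ≠ 0}, ?_, ?_, ?_⟩
  · simp only [hit]
    exact fhc 0 (by norm_num) _ fun m hm => by simp [hm]
  · have hc : Continuous fun y : X => y 0 := by
      refine (LipschitzWith.of_dist_le_mul (K := 1) fun y z => ?_).continuous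
      rw [NNReal.coe_one, one_mul, dist_eq_norm, dist_eq_norm]
      exact abs_le_norm (y - z) 0
    exact isOpen_ne_fun hc continuous_const
  · exact ⟨mk _ (tendsto_one_div_add_atTop_nhds_zero_nat (𝕜 := ℝ)), by simp⟩
  · rintro A hA ⟨d, hd, hlim⟩
    have hgap : ∀ k ∈ A, Nat.log 2 k % 2 = 0 := by
      intro k hk
      have := hA hk
      simp only [Set.mem_setOf_eq, hit, T_pow, mk_apply, zero_add] at this
      by_contra h
      rw [if_neg h, mul_zero] at this
      exact this rfl
    have h1 : Tendsto (fun j : ℕ => 2 ^ (2 * j + 1)) atTop atTop :=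
      tendsto_atTop_mono (f := fun j => j) (fun j => by
        have : 2 * j + 1 < 2 ^ (2 * j + 1) := Nat.lt_two_pow_self
        omega) tendsto_id
    have h2 : Tendsto (fun j : ℕ => 2 ^ (2 * j + 2)) atTop atTop :=
      tendsto_atTop_mono (f := fun j => j) (fun j => by
        have : 2 * j + 2 < 2 ^ (2 * j + 2) := Nat.lt_two_pow_self
        omega) tendsto_id
    have l1 := (hlim.comp h1).div_const 2
    have l2 := hlim.comp h2
    have e : ∀ j : ℕ, {k : ℕ | k < 2 ^ (2 * j + 2) ∧ k ∈ A} = {k : ℕ | k < 2 ^ (2 * j + 1) ∧ k ∈ A} := by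
      intro j
      ext k
      simp only [Set.mem_setOf_eq]
      refine and_congr_left fun hk => ⟨fun h => ?_, fun h => ?_⟩
      · by_contra h'
        have := Nat.log_eq_of_pow_le_of_lt_pow (not_lt.1 h') h
        have := hgap k hk
        omega
      · rw [pow_succ]; omega
    have := tendsto_nhds_unique l2 (l1.congr fun j => by
      simp only [Function.comp_apply, e]
      push_cast
      rw [pow_succ 2 (2 * j + 1), div_div])
    linarith

end Pool.Agent.S03851
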