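import Pool.Statements.S03896

set_option autoImplicit false
open Polynomial
open Pool Pool.MP_15266c_an

namespace Pool.Agent.S03896

/- Counterexample: Q = (2/23) z (z - 7), P = z (z^2 - 4 z + 5) (z - 7)^7.
All zeros 0, 2 + i, 2 - i, 7 of P lie in the lemniscate region, n - m = 8, but
P' = (z - 7)^6 (2 z - 1) (5 z^2 - 26 z + 35) has two of its nine zeros outside the region. -/

noncomputable def QQ : ℂ[X] := C (2 / 23) * (X * (X - C 7))
noncomputable def RR : ℂ[X] := C (23 / 2) * ((X ^ 2 - C 4 * X + C 5) * (X - C 7) ^ 6)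
noncomputable def PP : ℂ[X] := X * (X ^ 2 - C 4 * X + C 5) * (X - C 7) ^ 7
noncomputable def AA : ℂ[X] := (X - C 7) ^ 6 * (C 2 * X - C 1)
noncomputable def BB : ℂ[X] := C 5 * X ^ 2 - C 26 * X + C 35

lemma QQ_deg : QQ.natDegree = 2 := by
  unfold QQ; compute_degree!

lemma PP_deg : PP.natDegree = 10 := by
  unfold PP; compute_degree!

lemma AA_deg : AA.natDegree = 7 := by
  unfold AA; compute_degree!

lemma BB_deg : BB.natDegree = 2 := by
  unfold BB; compute_degree!

lemma PP_eq : PP = QQ * RR := by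
  unfold PP QQ RR
  have h : (C (2 / 23) : ℂ[X]) * C (23 / 2) = 1 := by
    rw [← C_mul]; norm_num
  linear_combination (-(X * (X ^ 2 - C 4 * X + C 5) * (X - C 7) ^ 7)) * h

lemma PP_deriv : derivative PP = AA * BB := by
  apply Polynomial.funext
  intro z
  unfold PP AA BB
  simp [derivative_mul, derivative_pow]
  ring

lemma QQ_eval (z : ℂ) : QQ.eval z = (2 / 23) * (z * (z - 7)) := by
  unfold QQ; simp

lemma normSq_QQ (z : ℂ) :
    ‖QQ.eval z‖ ^ 2 = (4 / 529) * ((z.re ^ 2 + z.im ^ 2) * ((z.re - 7) ^ 2 + z.im ^ 2)) := by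
  rw [QQ_eval, Complex.sq_norm, Complex.normSq_apply]
  simp
  ring

lemma roots_in (z : ℂ) (hz : z ∈ PP.roots) : ‖QQ.eval z‖ ≤ 1 := by
  have h0 : PP.eval z = 0 := (mem_roots'.1 hz).2
  unfold PP at h0
  simp only [eval_mul, eval_X, eval_add, eval_sub, eval_pow, eval_C, mul_eq_zero] at h0
  rcases h0 with (h | h) | h
  · rw [QQ_eval, h]; simp
  · have hre := congrArg Complex.re h
    have him := congrArg Complex.im h
    simp [pow_two] at hre him
    have h2 : z.im * (z.re - 2) = 0 := by linarith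
    have hx : z.re = 2 := by
      rcases mul_eq_zero.1 h2 with h3 | h3
      · rw [h3] at hre; nlinarith [sq_nonneg (z.re - 2)]
      · linarith
    have hy : z.im ^ 2 = 1 := by rw [hx] at hre; nlinarith
    have := normSq_QQ z
    rw [hx, hy] at this
    have hn := norm_nonneg (QQ.eval z)
    nlinarith
  · have : z = 7 := by
      have := pow_eq_zero_iff (n := 7) (by norm_num) |>.1 h
      exact sub_eq_zero.1 this
    rw [QQ_eval, this]; simp

lemma roots_out (z : ℂ) (hz : z ∈ BB.roots) : ¬ ‖QQ.eval z‖ ≤ 1 := by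
  have h : BB.eval z = 0 := (mem_roots'.1 hz).2
  unfold BB at h
  simp only [eval_mul, eval_X, eval_add, eval_sub, eval_pow, eval_C] at h
  have hre := congrArg Complex.re h
  have him := congrArg Complex.im h
  simp [pow_two] at hre him
  have h2 : z.im * (5 * z.re - 13) = 0 := by linarith
  have hx : z.re = 13 / 5 := by
    rcases mul_eq_zero.1 h2 with h3 | h3
    · rw [h3] at hre; nlinarith [sq_nonneg (5 * z.re - 13)]
    · linarith
  have hy : z.im ^ 2 = 6 / 25 := by rw [hx] at hre; nlinarith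
  have := normSq_QQ z
  rw [hx, hy] at this
  have hn := norm_nonneg (QQ.eval z)
  intro hle
  nlinarith

/-- The negation of the frozen statement, by an explicit counterexample with m = 2, n = 10. -/
theorem result :
    ¬ (∀ (P Q : Polynomial ℂ), 1 ≤ Q.natDegree → Q.natDegree < P.natDegree → Q ∣ P →
      (∀ z ∈ P.roots, ‖Q.eval z‖ ≤ 1) →
      P.natDegree - Q.natDegree ≤
        (Multiset.filter (fun z => ‖Q.eval z‖ ≤ 1) (Polynomial.derivative P).roots).card) := by
  intro H
  have h := H PP QQ (by rw [QQ_deg]; norm_num) (by rw [QQ_deg, PP_deg]; norm_num)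
    ⟨RR, PP_eq⟩ roots_in
  have hA : AA ≠ 0 := by
    intro h0; have := AA_deg; rw [h0] at this; simp at this
  have hB : BB ≠ 0 := by
    intro h0; have := BB_deg; rw [h0] at this; simp at this
  rw [PP_deg, QQ_deg, PP_deriv, roots_mul (mul_ne_zero hA hB), Multiset.filter_add,
    Multiset.card_add] at h
  have h1 : (Multiset.filter (fun z => ‖QQ.eval z‖ ≤ 1) BB.roots).card = 0 := by
    rw [Multiset.card_eq_zero, Multiset.filter_eq_nil]
    exact roots_out
  have h2 : (Multiset.filter (fun z => ‖QQ.eval z‖ ≤ 1) AA.roots).card ≤ 7 := by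
    calc _ ≤ AA.roots.card := Multiset.card_le_card (Multiset.filter_le _ _)
      _ ≤ AA.natDegree := card_roots' _
      _ = 7 := AA_deg
  omega

end Pool.Agent.S03896
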