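import Pool.Statements.S03926
import Pool.Agent.Lib.helper6.Ach

set_option autoImplicit false
open Pool Pool.MP_171342_an

namespace Pool.Agent.S03926

open Set Pool.Agent.H6Ach

noncomputable section

/-- the Guthrie-Nymann sequence 3/4, 2/4, 3/16, 2/16, ... -/
def g (n : ℕ) : ℝ := (if n % 2 = 0 then 3 else 2) / 4 ^ (n / 2 + 1)

def x (n : ℕ) : ℝ := if n = 0 then 1 / 3 else g (n - 1)

lemma g_pos (n : ℕ) : 0 < g n := by unfold g; split_ifs <;> positivity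

lemma g_rec (n : ℕ) : g (n + 2) = g n / 4 := by
  unfold g
  rw [Nat.add_mod_right, Nat.add_div_right _ (by norm_num), pow_succ]
  field_simp

lemma g_sum : Summable g ∧ ∑' n, g n = 5 / 3 := by
  have := block_sum (m := 2) (q := 4) (by norm_num) (by norm_num) (fun n => (g_pos n).le) g_rec
  refine ⟨this.1, ?_⟩
  rw [this.2]
  norm_num [Finset.sum_range_succ, g]

lemma x_pos (n : ℕ) : 0 < x n := by
  unfold x; split_ifs
  · norm_num
  · exact g_pos _

lemma sh_x : sh 1 x = g := by funext n; simp [sh, x]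

lemma x_summ : Summable x := by
  rw [← summable_nat_add_iff 1]
  have := g_sum.1
  rw [← sh_x] at this
  exact this

lemma memE (s : ℝ) : s ∈ E x ↔ s ∈ E g ∨ s - 1 / 3 ∈ E g := by
  rw [E_succ x_summ, sh_x]; simp [x]

lemma memX (s : ℝ) : s ∈ E g ↔
    4 * s ∈ E g ∨ 4 * s - 2 ∈ E g ∨ 4 * s - 3 ∈ E g ∨ 4 * s - 5 ∈ E g := by
  have h2 : sh 2 g = fun n => g n / 4 := funext g_rec
  have e0 : g 0 = 3 / 4 := by norm_num [g]
  have e1 : sh 1 g 0 = 2 / 4 := by norm_num [g, sh]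
  rw [E_succ g_sum.1, E_succ (sh_summ g_sum.1 1), E_succ (sh_summ g_sum.1 1), sh_sh, h2]
  simp only [E_div 4 (by norm_num), e0, e1]
  rw [show 4 * (s - 2 / 4) = 4 * s - 2 by ring, show 4 * (s - 3 / 4) = 4 * s - 3 by ring,
    show 4 * (s - 3 / 4 - 2 / 4) = 4 * s - 5 by ring]
  tauto

lemma X_bd {s : ℝ} (h : s ∈ E g) : 0 ≤ s ∧ s ≤ 5 / 3 := by
  have := E_bounds (fun n => (g_pos n).le) g_sum.1 h
  rwa [g_sum.2] at this

lemma X_int : Icc (2 / 3 : ℝ) 1 ⊆ E g := by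
  have := intv (E_compact (fun n => (g_pos n).le) g_sum.1).isClosed (zero_mem g) 4 (by norm_num)
    (by
      intro d h1 h2 w hw
      have : d = 0 ∨ d = 2 ∨ d = 3 ∨ d = 5 := by omega
      rw [memX]
      rcases this with rfl | rfl | rfl | rfl
      · left; convert hw using 1; push_cast; ring
      · right; left; convert hw using 1; push_cast; ring
      · right; right; left; convert hw using 1; push_cast; ring
      · right; right; right; convert hw using 1; push_cast; ring)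
  norm_num at this ⊢
  exact this

lemma small {s : ℝ} (h : s < 1 / 2) : s ∈ E g ↔ 4 * s ∈ E g := by
  refine ⟨fun h1 => ?_, fun h1 => (memX s).2 (Or.inl h1)⟩
  rcases (memX s).1 h1 with h2 | h2 | h2 | h2
  · exact h2
  all_goals linarith [(X_bd h2).1]

lemma second {s : ℝ} (h : 5 / 12 < s) (h' : s < 3 / 4) : s ∈ E g ↔ 4 * s - 2 ∈ E g := by
  refine ⟨fun h1 => ?_, fun h1 => (memX s).2 (Or.inr (Or.inl h1))⟩
  rcases (memX s).1 h1 with h2 | h2 | h2 | h2
  · linarith [(X_bd h2).2]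
  · exact h2
  all_goals linarith [(X_bd h2).1]

lemma last {s : ℝ} (h : 7 / 6 < s) : s ∈ E g ↔ 4 * s - 5 ∈ E g := by
  refine ⟨fun h1 => ?_, fun h1 => (memX s).2 (Or.inr (Or.inr (Or.inr h1)))⟩
  rcases (memX s).1 h1 with h2 | h2 | h2 | h2
  · linarith [(X_bd h2).2]
  · linarith [(X_bd h2).2]
  · linarith [(X_bd h2).2]
  · exact h2

lemma gap0 {s : ℝ} (h : 5 / 12 < s) (h' : s < 1 / 2) : s ∉ E g := fun h1 => by
  linarith [(X_bd ((small h').1 h1)).2]

lemma pw (k : ℕ) : 0 < (1 / 4 : ℝ) ^ k ∧ (1 / 4 : ℝ) ^ k ≤ 1 :=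
  ⟨by positivity, pow_le_one₀ (by norm_num) (by norm_num)⟩

lemma gapA (k : ℕ) : 11 / 24 * (1 / 4 : ℝ) ^ k ∉ E g := by
  induction k with
  | zero => exact gap0 (by norm_num) (by norm_num)
  | succ k ih =>
    have := pw (k + 1)
    rw [small (by linarith)]
    convert ih using 2; ring

lemma gapL {τ : ℝ} (h : 1 / 6 < τ) (h' : τ < 1 / 4) (k : ℕ) :
    2 / 3 - τ * (1 / 4 : ℝ) ^ k ∉ E g := by
  induction k with
  | zero => exact gap0 (by linarith) (by linarith)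
  | succ k ih =>
    have := pw (k + 1)
    rw [second (by nlinarith) (by nlinarith)]
    convert ih using 2; ring

lemma third (τ : ℝ) (h : 0 < τ) (h' : τ < 1 / 4) (k : ℕ) :
    1 / 3 - τ * (1 / 4 : ℝ) ^ (2 * k) ∈ E g ↔ 1 / 3 - τ ∈ E g := by
  induction k with
  | zero => simp
  | succ k ih =>
    have := pw (2 * k)
    have e : (1 / 4 : ℝ) ^ (2 * (k + 1)) = (1 / 4) ^ (2 * k) / 16 := by ring
    rw [e, small (by nlinarith), last (by nlinarith), ← ih]
    apply iff_of_eq; congr 1; ring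

lemma in1 : (1 / 3 - 5 / 24 : ℝ) ∈ E g := by
  rw [small (by norm_num), second (by norm_num) (by norm_num)]
  convert zero_mem g using 1; norm_num

lemma out1 : (1 / 3 - 7 / 32 : ℝ) ∉ E g := by
  rw [small (by norm_num)]
  exact gap0 (by norm_num) (by norm_num)

lemma ex_small {δ : ℝ} (hδ : 0 < δ) : ∃ k : ℕ, 1 ≤ k ∧ (1 / 4 : ℝ) ^ (2 * k) < δ := by
  obtain ⟨k, hk⟩ := exists_pow_lt_of_lt_one hδ (by norm_num : (1 / 4 : ℝ) < 1)
  exact ⟨k + 1, by omega,
    (pow_le_pow_of_le_one (by norm_num) (by norm_num) (by omega)).trans_lt hk⟩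

lemma lowE {s : ℝ} (h : s < 1 / 3) : s ∈ E x ↔ s ∈ E g := by
  rw [memE]
  exact ⟨fun h1 => h1.elim id fun h2 => by linarith [(X_bd h2).1], Or.inl⟩

lemma a_out (k : ℕ) (hk : 1 ≤ k) : 1 / 6 - 5 / 24 * (1 / 4 : ℝ) ^ (2 * k) ∉ E x := by
  have := pw (2 * k)
  rw [lowE (by linarith), small (by linarith)]
  obtain ⟨j, hj⟩ : ∃ j, 2 * k = j + 1 := ⟨2 * k - 1, by omega⟩
  convert gapL (τ := 5 / 24) (by norm_num) (by norm_num) j using 2
  rw [hj]; ring

lemma b_out (k : ℕ) : 2 / 3 - 7 / 32 * (1 / 4 : ℝ) ^ (2 * k) ∉ E x := by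
  rw [memE]
  rintro (h | h)
  · exact gapL (by norm_num) (by norm_num) _ h
  · apply out1
    rw [← third _ (by norm_num) (by norm_num) k]
    convert h using 1; ring

lemma b_in (k : ℕ) : 2 / 3 - 5 / 24 * (1 / 4 : ℝ) ^ (2 * k) ∈ E x := by
  rw [memE]
  right
  convert (third _ (by norm_num) (by norm_num) k).2 in1 using 1; ring

lemma a_int : Icc (1 / 6 : ℝ) (1 / 4) ⊆ E x := by
  intro s hs
  rw [lowE (by linarith [hs.2]), small (by linarith [hs.2])]
  exact X_int ⟨by linarith [hs.1], by linarith [hs.2]⟩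

lemma b_int : Icc (2 / 3 : ℝ) 1 ⊆ E x := fun s hs => (memE s).2 (Or.inl (X_int hs))

lemma gaps : ∀ δ > 0, ∃ τ, 0 < τ ∧ τ < δ ∧ τ ∉ E x := by
  intro δ hδ
  obtain ⟨k, -, hk⟩ := ex_small (lt_min hδ (by norm_num : (0 : ℝ) < 1 / 3))
  have := pw (2 * k)
  have h1 := min_le_left δ (1 / 3)
  have h2 := min_le_right δ (1 / 3)
  refine ⟨11 / 24 * (1 / 4 : ℝ) ^ (2 * k), by linarith, by linarith, ?_⟩
  rw [lowE (by linarith)]
  exact gapA _

end

theorem result :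
    ¬ (∀ x : ℕ → ℝ, (∀ n, 0 < x n) → Summable x →
    ∀ E : Set ℝ, E = {s | ∃ A : Set ℕ, s = ∑' n, A.indicator x n} →
    (E.Nonempty ∧ IsCompact E ∧ closure (interior E) = E ∧
      ∀ p ∈ E, (connectedComponentIn E p).Nontrivial →
        sInf (connectedComponentIn E p) ∈ closure {y ∈ E | connectedComponentIn E y = {y}} ∧
        sSup (connectedComponentIn E p) ∈ closure {y ∈ E | connectedComponentIn E y = {y}}) →
    ∀ a b : ℝ, a ≠ b →
      (∃ c, a < c ∧ Set.Icc a c ⊆ E) → (∀ y, y < a → ¬ Set.Icc y a ⊆ E) →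
      (∃ c, b < c ∧ Set.Icc b c ⊆ E) → (∀ y, y < b → ¬ Set.Icc y b ⊆ E) →
      ∃ ε : ℝ, ε > 0 ∧ ∃ t : ℝ,
        E ∩ Set.Icc (a - ε) a = (fun z => z + t) '' (E ∩ Set.Icc (b - ε) b)) := by
  intro H
  have hx : ∀ n, 0 ≤ x n := fun n => (x_pos n).le
  obtain ⟨ε, hε, t, ht⟩ := H x x_pos x_summ (E x) rfl
    ⟨⟨0, zero_mem x⟩, E_compact hx x_summ,
      closure_int hx x_summ ⟨3 / 4, interior_mono b_int (by
        rw [interior_Icc]; constructor <;> norm_num)⟩,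
      fun p hp _ => ends hx x_summ gaps p hp⟩
    (1 / 6) (2 / 3) (by norm_num) ⟨1 / 4, by norm_num, a_int⟩
    (by
      intro y hy h
      obtain ⟨k, hk1, hk⟩ := ex_small (sub_pos.2 hy)
      have := pw (2 * k)
      exact a_out k hk1 (h ⟨by linarith, by linarith⟩))
    ⟨1, by norm_num, b_int⟩
    (by
      intro y hy h
      obtain ⟨k, hk1, hk⟩ := ex_small (sub_pos.2 hy)
      have := pw (2 * k)
      exact b_out k (h ⟨by linarith, by linarith⟩))
  have h1 : 2 / 3 + t ∈ E x ∩ Set.Icc (1 / 6 - ε) (1 / 6) := by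
    rw [ht]
    exact ⟨2 / 3, ⟨b_int ⟨le_rfl, by norm_num⟩, by linarith, le_rfl⟩, rfl⟩
  have h2 : (1 / 6 : ℝ) ∈ E x ∩ Set.Icc (1 / 6 - ε) (1 / 6) :=
    ⟨a_int ⟨le_rfl, by norm_num⟩, by linarith, le_rfl⟩
  rw [ht] at h2
  obtain ⟨z, hz, hz'⟩ := h2
  have h3 : t = -1 / 2 := by
    have := h1.2.2
    have := hz.2.2
    simp only at hz'
    linarith
  obtain ⟨k, hk1, hk⟩ := ex_small hε
  have := pw (2 * k)
  have h4 : 2 / 3 - 5 / 24 * (1 / 4 : ℝ) ^ (2 * k) + t ∈ E x ∩ Set.Icc (1 / 6 - ε) (1 / 6) := by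
    rw [ht]
    exact ⟨_, ⟨b_in k, by linarith, by linarith⟩, rfl⟩
  apply a_out k hk1
  convert h4.1 using 1
  rw [h3]; ring

end Pool.Agent.S03926
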