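import Pool.Statements.S03935
-- import your own Pool.Agent.* helpers here

set_option autoImplicit false
open Pool Pool.MP_17a4eb_an

namespace Pool.Agent.S03935

open Filter Topology

section
variable {B : Type} [NormedRing B] [NormedAlgebra ℂ B] [CompleteSpace B]

/-- Allan's lemma for one central element. -/
lemma allan (a z : B) (hz : ∀ x, z * x = x * z) (ρ : ℝ)
    (h1 : ∀ c : ℂ, ρ < ‖c‖ → IsUnit (z - algebraMap ℂ B c))
    (h2 : ∀ c : ℂ, ‖c‖ ≤ ρ → ∃ b, b * (a - algebraMap ℂ B c) = 1) : ∃ G, G * (a - z) = 1 := by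
  by_contra hc
  push Not at hc
  have hne : Ideal.span {a - z} ≠ ⊤ := by
    rw [Ne, Ideal.eq_top_iff_one, Ideal.mem_span_singleton']
    rintro ⟨b, hb⟩; exact hc b hb
  obtain ⟨L, hL, hLa⟩ := Ideal.exists_le_maximal _ hne
  have haz : a - z ∈ L := hLa (Ideal.mem_span_singleton_self _)
  have hcl : IsClosed (L : Set B) := Ideal.IsMaximal.isClosed
  have hnot : ∀ c : ℂ, z - algebraMap ℂ B c ∉ L := by
    intro c hcL
    by_cases h : ‖c‖ ≤ ρ
    · obtain ⟨b, hb⟩ := h2 c h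
      have : a - algebraMap ℂ B c ∈ L := by
        have := L.add_mem haz hcL
        rwa [sub_add_sub_cancel] at this
      exact hL.ne_top ((Ideal.eq_top_iff_one _).2 (hb ▸ L.mul_mem_left b this))
    · exact hL.ne_top (L.eq_top_of_isUnit_mem hcL (h1 c (not_le.1 h)))
  let L' : Submodule ℂ B := L.restrictScalars ℂ
  have hcl' : IsClosed (L' : Set B) := hcl
  let Z : (B ⧸ L') →L[ℂ] (B ⧸ L') :=
    L'.liftQL ((L'.mkQL).comp (ContinuousLinearMap.mul ℂ B z)) (by
      intro x hx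
      show L'.mkQ (z * x) = 0
      exact (Submodule.Quotient.mk_eq_zero _).2 (L.mul_mem_left z hx))
  have hZ : ∀ x : B, Z (Submodule.Quotient.mk x) = Submodule.Quotient.mk (z * x) := fun x => rfl
  have : Nontrivial (B ⧸ L') := Submodule.Quotient.nontrivial_iff.2 (by
    intro h
    have : (1 : B) ∈ L' := h ▸ Submodule.mem_top
    exact hL.ne_top ((Ideal.eq_top_iff_one _).2 this))
  obtain ⟨c, hcs⟩ := spectrum.nonempty Z
  apply hcs
  set w := z - algebraMap ℂ B c with hw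
  have hwc : ∀ x, w * x = x * w := fun x => by
    rw [hw, sub_mul, mul_sub, hz, Algebra.commutes]
  have hT : ∀ x : B, (algebraMap ℂ _ c - Z) (Submodule.Quotient.mk x) =
      (Submodule.Quotient.mk (-(x * w)) : B ⧸ L') := by
    intro x
    rw [← hwc, hw, sub_mul, neg_sub, Submodule.Quotient.mk_sub, ← hZ, ← Algebra.smul_def,
      Submodule.Quotient.mk_smul, Algebra.algebraMap_eq_smul_one]
    rfl
  obtain ⟨u, v, hv, huv⟩ := hL.exists_inv (hnot c)
  show IsUnit _
  rw [ContinuousLinearMap.isUnit_iff_bijective]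
  constructor
  · rw [injective_iff_map_eq_zero]
    intro y hy
    obtain ⟨x, rfl⟩ := Submodule.Quotient.mk_surjective L' y
    rw [hT, Submodule.Quotient.mk_eq_zero] at hy
    have hy' : x * w ∈ L := L.neg_mem_iff.1 hy
    rw [Submodule.Quotient.mk_eq_zero]
    by_contra hx
    obtain ⟨u', v', hv', h'⟩ := hL.exists_inv (show x ∉ L from hx)
    apply hnot c
    have : w = u' * (x * w) + w * v' := by rw [hwc v', ← mul_assoc, ← add_mul, h', one_mul]
    rw [← hw, this]
    exact L.add_mem (L.mul_mem_left _ hy') (L.mul_mem_left _ hv')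
  · intro y
    obtain ⟨x, rfl⟩ := Submodule.Quotient.mk_surjective L' y
    refine ⟨Submodule.Quotient.mk (-(x * u)), ?_⟩
    rw [hT, Submodule.Quotient.eq]
    have : -(-(x * u) * w) - x = -(x * v) := by
      have : x = x * (u * w + v) := by rw [huv, mul_one]
      nth_rewrite 2 [this]; noncomm_ring
    rw [this]
    exact L'.neg_mem (L.mul_mem_left _ hv)

lemma conn (a z : B) (h : ∀ t ∈ Set.Icc (0 : ℝ) 1, ∃ G, G * (a - (t : ℂ) • z) = 1) :
    ∃ J : Bˣ, J * a = a - z := by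
  let P : ℝ → Prop := fun t => ∃ J : Bˣ, J * a = a - (t : ℂ) • z
  have key : ∀ t ∈ Set.Icc (0 : ℝ) 1, ∀ᶠ s in 𝓝 t, (P s ↔ P t) := by
    intro t ht
    obtain ⟨G, hG⟩ := h t ht
    have hc : Continuous fun s : ℝ => 1 + ((t : ℂ) - s) • (z * G) := by fun_prop
    have h0 : IsUnit ((fun s : ℝ => 1 + ((t : ℂ) - s) • (z * G)) t) := by simp
    filter_upwards [hc.continuousAt.eventually (Units.isOpen.mem_nhds h0)] with s hs
    obtain ⟨u, hu⟩ := hs
    have e : (u : B) * (a - (t : ℂ) • z) = a - (s : ℂ) • z := by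
      rw [hu, add_mul, one_mul, smul_mul_assoc, mul_assoc, hG, mul_one, sub_smul]; abel
    constructor
    · rintro ⟨J, hJ⟩
      exact ⟨u⁻¹ * J, by rw [Units.val_mul, mul_assoc, hJ, ← e, Units.inv_mul_cancel_left]⟩
    · rintro ⟨J, hJ⟩
      exact ⟨u * J, by rw [Units.val_mul, mul_assoc, hJ, e]⟩
  have hP : P 0 ↔ P 1 := by
    have := isPreconnected_Icc.induction₂' (fun s t => (P s ↔ P t)) (s := Set.Icc (0 : ℝ) 1)
      (fun t ht => (key t ht).filter_mono nhdsWithin_le_nhds |>.mono fun s hs => ⟨hs.symm, hs⟩)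
      (fun _ _ _ _ _ _ h1 h2 => h1.trans h2) (x := 0) (y := 1) (by simp) (by simp)
    exact this
  simpa [P] using hP.1 ⟨1, by simp⟩

end

section
variable {A : Type} [NormedRing A] [NormedAlgebra ℂ A] [CompleteSpace A]

abbrev D (ρ : ℝ) := Metric.closedBall (0 : ℂ) ρ

def Q (a : A) (ρ : ℝ) (f : C(D ρ, A)) : Prop :=
  ∃ y : A, ∀ l : D ρ, ∃ q : A, y - f l = (a - algebraMap ℂ A l) * q

noncomputable def T (a : A) (ρ : ℝ) : Subalgebra ℂ C(D ρ, A) where
  carrier := {f | ∀ c : A, Q a ρ (ContinuousMap.const _ c * f)}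
  mul_mem' := fun {f g} hf hg c => by
    obtain ⟨y1, h1⟩ := hf c
    obtain ⟨y2, h2⟩ := hg y1
    refine ⟨y2, fun l => ?_⟩
    obtain ⟨q1, e1⟩ := h1 l
    obtain ⟨q2, e2⟩ := h2 l
    refine ⟨q2 + q1 * g l, ?_⟩
    rw [mul_add (a - _), ← mul_assoc (a - _), ← e1, ← e2]
    simp only [ContinuousMap.mul_apply, ContinuousMap.const_apply]; noncomm_ring
  add_mem' := fun {f g} hf hg c => by
    obtain ⟨y1, h1⟩ := hf c
    obtain ⟨y2, h2⟩ := hg c
    refine ⟨y1 + y2, fun l => ?_⟩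
    obtain ⟨q1, e1⟩ := h1 l
    obtain ⟨q2, e2⟩ := h2 l
    refine ⟨q1 + q2, ?_⟩
    rw [mul_add (a - _), ← e1, ← e2]
    simp only [ContinuousMap.mul_apply, ContinuousMap.const_apply, ContinuousMap.add_apply]
    noncomm_ring
  algebraMap_mem' := fun r c => ⟨c * algebraMap ℂ A r, fun l => ⟨0, by simp [Algebra.algebraMap_eq_smul_one]⟩⟩

omit [CompleteSpace A] in
lemma const_mem (a : A) (ρ : ℝ) (d : A) : ContinuousMap.const (D ρ) d ∈ T a ρ :=
  fun c => ⟨c * d, fun l => ⟨0, by simp⟩⟩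

noncomputable def zf (A : Type) [NormedRing A] [NormedAlgebra ℂ A] (ρ : ℝ) : C(D ρ, A) :=
  ⟨fun l => algebraMap ℂ A l, by fun_prop⟩

omit [CompleteSpace A] in
lemma z_mem (a : A) (ρ : ℝ) : zf A ρ ∈ T a ρ :=
  fun c => ⟨a * c, fun l => ⟨c, by simp [zf, sub_mul, Algebra.commutes]⟩⟩

theorem main (a : A) (ρ : ℝ) (hρ : 0 ≤ ρ)
    (h : ∀ c : ℂ, ‖c‖ ≤ ρ → ∃ b, b * (a - algebraMap ℂ A c) = 1) :
    ∃ b : A, b * a = 1 ∧ ∀ c : ℂ, ‖c‖ ≤ ρ → IsUnit (1 - c • b) := by
  let B := (T a ρ).topologicalClosure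
  have hBc : IsClosed (B : Set C(D ρ, A)) := (T a ρ).isClosed_topologicalClosure
  have : CompleteSpace B := hBc.completeSpace_coe
  let k : A → B := fun d => ⟨ContinuousMap.const _ d, (T a ρ).le_topologicalClosure (const_mem a ρ d)⟩
  let z : B := ⟨zf A ρ, (T a ρ).le_topologicalClosure (z_mem a ρ)⟩
  obtain ⟨g0, hg0⟩ := h 0 (by simpa using hρ)
  rw [map_zero, sub_zero] at hg0
  have hext : ∀ x y : B, (∀ l, x.1 l = y.1 l) → x = y := fun x y hxy =>
    Subtype.ext (ContinuousMap.ext hxy)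
  obtain ⟨J, hJ⟩ := conn (k a) z (fun t ht => by
    refine allan (k a) ((t : ℂ) • z) (fun x => ?_) ρ (fun c hc => ?_) (fun c hc => ?_)
    · apply hext; intro l
      simp [z, zf, Algebra.commutes]
    · have hc0 : c ≠ 0 := by rintro rfl; simp at hc; linarith
      -- spectrum of `t z`
      have hn : ∀ n : ℕ, ‖((t : ℂ) • z) ^ (n + 1)‖ ≤ ρ ^ (n + 1) * ‖(1 : A)‖ := by
        intro n
        show ‖((((t : ℂ) • z) ^ (n + 1) : B) : C(D ρ, A))‖ ≤ _
        rw [ContinuousMap.norm_le _ (by positivity)]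
        intro l
        have hl : ‖(l : ℂ)‖ ≤ ρ := mem_closedBall_zero_iff.1 l.2
        have : ((((t : ℂ) • z) ^ (n + 1) : B) : C(D ρ, A)) l = ((t * l : ℂ) ^ (n + 1)) • (1 : A) := by
          show ((t : ℂ) • algebraMap ℂ A l) ^ (n + 1) = _
          rw [Algebra.algebraMap_eq_smul_one, smul_smul, smul_pow, one_pow]
        rw [this, norm_smul, norm_pow]
        gcongr
        rw [norm_mul, Complex.norm_real, Real.norm_of_nonneg ht.1]
        exact (mul_le_of_le_one_left (norm_nonneg _) ht.2).trans hl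
      have hs : Summable fun n : ℕ => (c⁻¹ • ((t : ℂ) • z)) ^ n := by
        rw [← summable_nat_add_iff 1]
        have hr : ρ / ‖c‖ < 1 := (div_lt_one (by linarith)).2 hc
        refine Summable.of_norm_bounded (((summable_nat_add_iff 1).2
          (summable_geometric_of_lt_one (by positivity) hr)).mul_right ‖(1 : A)‖) fun n => ?_
        rw [smul_pow, norm_smul, norm_pow, norm_inv, div_eq_inv_mul, mul_pow, mul_assoc]
        exact mul_le_mul_of_nonneg_left (hn n) (by positivity)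
      have hu : IsUnit (1 - c⁻¹ • ((t : ℂ) • z)) :=
        ⟨⟨_, _, hs.one_sub_mul_tsum_pow, hs.tsum_pow_mul_one_sub⟩, rfl⟩
      have : (t : ℂ) • z - algebraMap ℂ B c = algebraMap ℂ B (-c) * (1 - c⁻¹ • ((t : ℂ) • z)) := by
        rw [← Algebra.smul_def, smul_sub, smul_smul, neg_mul, mul_inv_cancel₀ hc0,
          Algebra.algebraMap_eq_smul_one]
        simp only [neg_smul, one_smul]; abel
      rw [this]
      exact ((IsUnit.mk0 _ (neg_ne_zero.2 hc0)).map _).mul hu
    · obtain ⟨b, hb⟩ := h c hc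
      refine ⟨k b, hext _ _ fun l => ?_⟩
      simpa [k, Algebra.algebraMap_eq_smul_one] using hb)
  set e0 : A := 1 - a * g0 with he0
  have he : e0 * a = 0 := by rw [he0, sub_mul, mul_assoc, hg0]; simp
  have hcont : Continuous fun w : B => (k a - z) * k g0 + w * k e0 := by fun_prop
  have hJu : IsUnit ((fun w : B => (k a - z) * k g0 + w * k e0) J) := by
    have : k a * k g0 + k e0 = 1 := hext _ _ fun l => by simp [k, he0]
    simp only
    rw [← hJ, mul_assoc, ← mul_add, this, mul_one]; exact J.isUnit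
  have hev := hcont.continuousAt.eventually (Units.isOpen.mem_nhds hJu)
  obtain ⟨p, hpu, hp⟩ : ∃ p : B, IsUnit ((k a - z) * k g0 + p * k e0) ∧ p.1 ∈ T a ρ := by
    obtain ⟨ε, hε, hb⟩ := Metric.eventually_nhds_iff.1 hev
    obtain ⟨p, hp, hd⟩ := Metric.mem_closure_iff.1 (show J.1.1 ∈ closure (T a ρ : Set _) from J.1.2) ε hε
    exact ⟨⟨p, (T a ρ).le_topologicalClosure hp⟩, hb (by rw [dist_comm]; exact hd), hp⟩
  obtain ⟨y, hy⟩ := hp 1
  have hV : ∀ c : ℂ, ‖c‖ ≤ ρ → IsUnit ((a - algebraMap ℂ A c) * g0 + y * e0) := by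
    intro c hc
    let l : D ρ := ⟨c, by simpa using hc⟩
    let ev : B →* A :=
      { toFun := fun x => x.1 l, map_one' := rfl, map_mul' := fun _ _ => rfl }
    have h1 : IsUnit ((a - algebraMap ℂ A c) * g0 + p.1 l * e0) := hpu.map ev
    obtain ⟨q, hq⟩ := hy l
    have hq' : y = p.1 l + (a - algebraMap ℂ A c) * q := by
      rw [← hq]; simp
    have h2 : IsUnit (1 + a * q * e0) := by
      have : a * q * e0 * (a * q * e0) = 0 := by
        rw [mul_assoc a q e0, mul_assoc, mul_assoc q, ← mul_assoc e0, he]; simp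
      generalize a * q * e0 = w at this
      refine ⟨⟨_, 1 - w, ?_, ?_⟩, rfl⟩
      · rw [add_mul, one_mul, mul_sub, mul_one, this]; simp
      · rw [sub_mul, one_mul, mul_add, mul_one, this]; simp
    have h3 : ((a - algebraMap ℂ A c) * g0 + p.1 l * e0) * a = a - algebraMap ℂ A c := by
      rw [add_mul, mul_assoc, mul_assoc, hg0, he]; simp
    convert h1.mul h2 using 1
    rw [mul_add, mul_one, mul_assoc a q, ← mul_assoc _ a, h3, hq', add_mul, mul_assoc, add_assoc]
  obtain ⟨V, hV0⟩ := hV 0 (by simpa using hρ)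
  rw [map_zero, sub_zero] at hV0
  have hVa : (V : A) * a = a := by rw [hV0, add_mul, mul_assoc, mul_assoc, hg0, he]; simp
  refine ⟨g0 * ↑V⁻¹, ?_, fun c hc => ?_⟩
  · rw [mul_assoc]; nth_rewrite 1 [← hVa]; rw [Units.inv_mul_cancel_left, hg0]
  · have : (a - algebraMap ℂ A c) * g0 + y * e0 = (1 - c • (g0 * ↑V⁻¹)) * V := by
      rw [sub_mul (1 : A), one_mul, smul_mul_assoc, Units.inv_mul_cancel_right, hV0, sub_mul,
        ← Algebra.smul_def]; abel
    have h1 := hV c hc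
    rw [this] at h1
    exact (Units.isUnit_mul_units _ _).1 h1

end


/-- For every complex unital Banach algebra A, every left invertible a with left invertibility radius 1, and every compact K in the open unit disc, some g holomorphic on an open set containing K satisfies g(λ)(a−λ)=1 and the resolvent identity on K. -/
theorem result :
    ∀ (A : Type) [NormedRing A] [NormedAlgebra ℂ A] [CompleteSpace A] (a : A),
      (∃ b : A, b * a = 1) →
      (∀ z : ℂ, ‖z‖ < 1 → ∃ b : A, b * (a - algebraMap ℂ A z) = 1) →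
      (∀ α : ℝ, 1 < α → ∃ z : ℂ, ‖z‖ < α ∧ ∀ b : A, b * (a - algebraMap ℂ A z) ≠ 1) →
      ∀ K : Set ℂ, IsCompact K → K ⊆ Metric.ball (0 : ℂ) 1 →
        ∃ U : Set ℂ, IsOpen U ∧ K ⊆ U ∧
          ∃ g : ℂ → A, DifferentiableOn ℂ g U ∧
            (∀ z ∈ K, g z * (a - algebraMap ℂ A z) = 1) ∧
            (∀ z ∈ K, ∀ w ∈ K, g z - g w = (z - w) • (g z * g w)) := by
  intro A _ _ _ a _ h _ K hK hK1
  obtain ⟨ρ, hρ0, hρ1, hρ⟩ : ∃ ρ : ℝ, 0 ≤ ρ ∧ ρ < 1 ∧ ∀ z ∈ K, ‖z‖ ≤ ρ := by
    rcases K.eq_empty_or_nonempty with rfl | hne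
    · exact ⟨0, le_rfl, one_pos, by simp⟩
    · obtain ⟨z, hz, hm⟩ := hK.exists_isMaxOn hne continuous_norm.continuousOn
      exact ⟨‖z‖, norm_nonneg _, by simpa using hK1 hz, fun w hw => hm hw⟩
  obtain ⟨b, hb, hu⟩ := main a ρ hρ0 (fun c hc => h c (by linarith))
  have hc : Continuous fun c : ℂ => 1 - c • b := by fun_prop
  refine ⟨{c | IsUnit (1 - c • b)}, Units.isOpen.preimage hc, fun z hz => hu z (hρ z hz),
    fun c => Ring.inverse (1 - c • b) * b, fun c hc' => ?_, fun z hz => ?_, fun z hz w hw => ?_⟩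
  · apply DifferentiableAt.differentiableWithinAt
    have h1 : DifferentiableAt ℂ (fun c : ℂ => 1 - c • b) c := by fun_prop
    exact (h1.inverse hc').mul_const b
  · simp only
    rw [mul_assoc, mul_sub, hb, ← Algebra.commutes, ← Algebra.smul_def,
      Ring.inverse_mul_cancel _ (hu z (hρ z hz))]
  · obtain ⟨u, hu'⟩ := hu z (hρ z hz)
    obtain ⟨v, hv'⟩ := hu w (hρ w hw)
    simp only
    rw [← hu', ← hv', Ring.inverse_unit, Ring.inverse_unit]
    have e1 : (z - w) • b = (v : A) - u := by rw [hu', hv', sub_smul]; abel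
    calc (↑u⁻¹ : A) * b - ↑v⁻¹ * b = ↑u⁻¹ * ((v : A) - u) * ↑v⁻¹ * b := by
          rw [mul_sub, sub_mul, sub_mul, Units.inv_mul, one_mul, Units.mul_inv_cancel_right]
      _ = _ := by rw [← e1]; simp [mul_assoc]

end Pool.Agent.S03935
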