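import Pool.Statements.S03944
import Pool.Agent.Lib.helper23.DetE

set_option autoImplicit false
open Pool Pool.MP_18663b_an

namespace Pool.Agent.S03944

/-- The negation of the preceding statement: For every base r≥2, if a nonzero real x has base-r digits whose limiting block-frequency measures all have zero entropy (deterministic), then the digits of 1/x have the same property. -/
theorem result :
    ¬ (∀ r : ℕ, 2 ≤ r →
    ∀ D : ℝ → Prop,
      (∀ y : ℝ, D y ↔
        ∀ ε : ℝ, 0 < ε → ∃ K : ℕ, ∃ N₀ : ℕ, ∀ N : ℕ, N₀ ≤ N →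
          ∃ k : ℕ, 1 ≤ k ∧ k ≤ K ∧
            (∑ w : Fin k → Fin r,
                Real.negMulLog
                  ((((Finset.range N).filter (fun n : ℕ =>
                      ∀ i : Fin k,
                        ⌊(r : ℝ) ^ (n + i.val + 1) * y⌋ % (r : ℤ) = ((w i : ℕ) : ℤ))).card : ℝ)
                    / (N : ℝ))) / (k : ℝ) < ε) →
      ∀ x : ℝ, x ≠ 0 → D x → D x⁻¹) := by
  intro H
  obtain ⟨y, hy, h1, h2⟩ := Pool.Agent.Lib.helper23.DetE.inv_main 2 le_rfl
  have hy0 : y ≠ 0 := by have := hy.1; positivity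
  have H2 := H 2 le_rfl _ (fun y => Iff.rfl) y hy0 ?_
  · have hl : 0 < Real.log ((2 : ℕ) : ℝ) := Real.log_pos (by norm_num)
    obtain ⟨K, N0, hN⟩ := H2 (Real.log ((2 : ℕ) : ℝ) / 2) (by positivity)
    have hev := (Finset.eventually_all (Finset.Icc 1 K)).2 fun k hk =>
      (Pool.Agent.Lib.helper23.DetA.entropy_of_weyl 2 (by norm_num) _ h2 k).eventually
        (lt_mem_nhds (show Real.log ((2 : ℕ) : ℝ) / 2 * k < k * Real.log ((2 : ℕ) : ℝ) by
          have : (1 : ℝ) ≤ k := by exact_mod_cast (Finset.mem_Icc.1 hk).1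
          have h5 := mul_pos hl (show (0 : ℝ) < k by linarith)
          generalize Real.log ((2 : ℕ) : ℝ) = L at h5
          linarith))
    obtain ⟨N, hN1, hN2⟩ := (hev.and (Filter.eventually_ge_atTop N0)).exists
    obtain ⟨k, hk1, hk2, hk3⟩ := hN N hN2
    have hk4 := hN1 k (Finset.mem_Icc.2 ⟨hk1, hk2⟩)
    rw [div_lt_iff₀ (by exact_mod_cast hk1)] at hk3
    simp only [mul_comm y⁻¹] at hk4
    exact lt_asymm hk3 hk4
  · intro ε hε
    have h3 := Pool.Agent.Lib.helper23.DetA.entropy_of_sparse 2 _ h1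
    obtain ⟨N0, hN0⟩ := Filter.eventually_atTop.1 (h3.eventually (gt_mem_nhds hε))
    refine ⟨1, N0, fun N hN => ⟨1, le_rfl, le_rfl, ?_⟩⟩
    have := hN0 N hN
    simp only [mul_comm y] at this
    rw [Nat.cast_one, div_one]
    exact this

end Pool.Agent.S03944
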