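import Pool.Statements.S03954
import Pool.Agent.Lib.helper29.Dual1

set_option autoImplicit false
open Pool Pool.MP_196b75_an

namespace Pool.Agent.S03954

/-- The negation of the preceding statement: Every normalized analytic g on the unit disk with ∣(g'−1)−(g−z)/z∣+∣(g'−1)+(g−z)/z∣<2 throughout the disk has Hadamard product with every normalized univalent h nonvanishing for 0<∣z∣<1. -/
theorem result :
    ¬ (∀ g : ℂ → ℂ, DifferentiableOn ℂ g (Metric.ball (0 : ℂ) 1) → g 0 = 0 → deriv g 0 = 1 →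
      (∀ z : ℂ, z ∈ Metric.ball (0 : ℂ) 1 → z ≠ 0 →
        ‖(deriv g z - 1) - (g z - z) / z‖ + ‖(deriv g z - 1) + (g z - z) / z‖ < 2) →
      ∀ h : ℂ → ℂ, DifferentiableOn ℂ h (Metric.ball (0 : ℂ) 1) → h 0 = 0 → deriv h 0 = 1 →
        Set.InjOn h (Metric.ball (0 : ℂ) 1) →
        ∀ z : ℂ, 0 < ‖z‖ → ‖z‖ < 1 →
          (∑' n : ℕ, (iteratedDeriv n g 0 / (n.factorial : ℂ)) *
              (iteratedDeriv n h 0 / (n.factorial : ℂ)) * z ^ n) ≠ 0) := by
  intro H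
  open Pool.Agent.Lib.H29.Dual in
  refine H g ?_ ?_ ?_ (fun z hz h0 => g_bound (mem_ball_zero_iff.1 hz) h0) (h yy)
    (fun z hz => (h_an yy_norm (mem_ball_zero_iff.1 hz)).differentiableAt.differentiableWithinAt)
    ?_ ?_ (h_inj yy_norm) z0 ?_ ?_ conv_zero
  · rw [Pool.Agent.Lib.H29.Dual.g_eq]; fun_prop
  · simp [Pool.Agent.Lib.H29.Dual.g_eq]
  · simp [Pool.Agent.Lib.H29.Dual.g_deriv]
  · simp [Pool.Agent.Lib.H29.Dual.h]
  · simpa [Pool.Agent.Lib.H29.Dual.aa] using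
      Pool.Agent.Lib.H29.Dual.h_coeff Pool.Agent.Lib.H29.Dual.yy_norm (n := 1) (by norm_num)
  · norm_num [Pool.Agent.Lib.H29.Dual.z0]
  · norm_num [Pool.Agent.Lib.H29.Dual.z0]

end Pool.Agent.S03954
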