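import Pool.Statements.S03969
import Pool.Agent.Lib.helper19.H19Mom

set_option autoImplicit false
open Pool Pool.MP_1ac4dc_an

namespace Pool.Agent.S03969
section Aux
open Pool.Agent.H19Mom Finset

lemma fact_add (n j : ℕ) : ((n + j).factorial : ℝ) = n.factorial * ∏ i ∈ range j, ((n:ℝ) + i + 1) := by
  induction j with
  | zero => simp
  | succ j ih => rw [← add_assoc, Nat.factorial_succ, prod_range_succ]; push_cast; rw [ih]; ring

lemma pair_even (g : ℕ → ℝ) (p : ℕ) :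
    ∏ i ∈ range (2 * p), g i = ∏ i ∈ range p, (g i * g (2 * p - 1 - i)) := by
  rw [two_mul, prod_range_add, prod_mul_distrib]
  congr 1
  rw [← prod_range_reflect]
  refine prod_congr rfl (fun i hi => ?_)
  have := mem_range.1 hi
  congr 1; omega

lemma pair_odd (g : ℕ → ℝ) (p : ℕ) :
    ∏ i ∈ range (2 * p + 1), g i = g p * ∏ i ∈ range p, (g i * g (2 * p - i)) := by
  rw [show 2 * p + 1 = (p + 1) + p by ring, prod_range_add, prod_range_succ, prod_mul_distrib]
  have : ∏ i ∈ range p, g (p + 1 + i) = ∏ i ∈ range p, g (2 * p - i) := by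
    rw [← prod_range_reflect]
    refine prod_congr rfl (fun i hi => ?_)
    have := mem_range.1 hi
    congr 1; omega
  rw [this]; ring

/-- paired product -/
noncomputable def pp (M p : ℕ) (x : ℝ) : ℝ :=
  ∏ i ∈ range p, ((x + ((i:ℝ) + 1) / M) * (x + (1 - ((i:ℝ) + 1) / M)))

lemma prod_odd (p : ℕ) (x : ℝ) :
    ∏ i ∈ range (2 * p), (x + ((i:ℝ) + 1) / ((2 * p + 1 : ℕ):ℝ)) = pp (2 * p + 1) p x := by
  rw [pair_even]
  refine prod_congr rfl (fun i hi => ?_)
  have := mem_range.1 hi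
  have h : ((2 * p - 1 - i : ℕ):ℝ) = 2 * p - 1 - i := by
    rw [Nat.cast_sub (by omega), Nat.cast_sub (by omega)]; push_cast; ring
  rw [h]
  congr 1
  push_cast
  field_simp
  ring

lemma prod_even (p : ℕ) (x : ℝ) :
    ∏ i ∈ range (2 * p + 1), (x + ((i:ℝ) + 1) / ((2 * p + 2 : ℕ):ℝ))
      = (x + 1 / 2) * pp (2 * p + 2) p x := by
  rw [pair_odd]
  congr 1
  · push_cast; field_simp
  refine prod_congr rfl (fun i hi => ?_)
  have := mem_range.1 hi
  have h : ((2 * p - i : ℕ):ℝ) = 2 * p - i := by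
    rw [Nat.cast_sub (by omega)]; push_cast; ring
  rw [h]
  congr 1
  push_cast
  field_simp
  ring

lemma pairing (m : ℕ) (hm : 2 ≤ m) (x : ℝ) :
    (x + 1 / 2) * (∏ i ∈ range (m - 1), (x + ((i:ℝ) + 1) / m)) * pp (m + 1) (m / 2) x
      = (∏ i ∈ range m, (x + ((i:ℝ) + 1) / ((m + 1 : ℕ):ℝ))) * pp m (m / 2) x := by
  rcases Nat.even_or_odd' m with ⟨p, rfl | rfl⟩
  · obtain ⟨q, rfl⟩ : ∃ q, p = q + 1 := ⟨p - 1, by omega⟩
    rw [prod_odd, show 2 * (q + 1) / 2 = q + 1 by omega, show 2 * (q + 1) - 1 = 2 * q + 1 by omega,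
      show 2 * (q + 1) = 2 * q + 2 by ring, prod_even]
    have : pp (2 * q + 2) (q + 1) x = pp (2 * q + 2) q x * ((x + 1 / 2) * (x + 1 / 2)) := by
      unfold pp
      rw [prod_range_succ]
      congr 1
      have : ((q:ℝ) + 1) / ((2 * q + 2 : ℕ):ℝ) = 1 / 2 := by push_cast; field_simp
      rw [this]; ring
    rw [this]; ring
  · rw [show (2 * p + 1) / 2 = p by omega, show 2 * p + 1 - 1 = 2 * p by omega, prod_odd,
      show 2 * p + 1 + 1 = 2 * p + 2 by ring, prod_even]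
    ring

noncomputable def dl (m i : ℕ) : ℝ :=
  ((i:ℝ) + 1) / m * (1 - ((i:ℝ) + 1) / m) - ((i:ℝ) + 1) / (m + 1) * (1 - ((i:ℝ) + 1) / (m + 1))

noncomputable def q (m : ℕ) (x : ℝ) : ℝ :=
  ∏ i ∈ range (m / 2), (1 - dl m i / ((x + ((i:ℝ) + 1) / m) * (x + (1 - ((i:ℝ) + 1) / m))))

lemma a_bounds {m i : ℕ} (hm : 2 ≤ m) (hi : i < m / 2) :
    0 < ((i:ℝ) + 1) / m ∧ ((i:ℝ) + 1) / m ≤ 1 / 2 ∧ 0 < ((i:ℝ) + 1) / (m + 1) ∧
      ((i:ℝ) + 1) / (m + 1) ≤ ((i:ℝ) + 1) / m := by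
  have h0 : (0:ℝ) < m := by exact_mod_cast (by omega : 0 < m)
  have h1 : 2 * ((i:ℝ) + 1) ≤ m := by exact_mod_cast (by omega : 2 * (i + 1) ≤ m)
  refine ⟨by positivity, ?_, by positivity, ?_⟩
  · rw [div_le_iff₀ h0]; linarith
  · exact div_le_div_of_nonneg_left (by positivity) h0 (by linarith)

lemma dl_nonneg {m i : ℕ} (hm : 2 ≤ m) (hi : i < m / 2) : 0 ≤ dl m i := by
  obtain ⟨h1, h2, h3, h4⟩ := a_bounds hm hi
  unfold dl
  nlinarith

lemma pp_pos {m : ℕ} (hm : 2 ≤ m) {x : ℝ} (hx : 0 ≤ x) : 0 < pp m (m / 2) x ∧ 0 < pp (m + 1) (m / 2) x := by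
  constructor
  · refine prod_pos (fun i hi => ?_)
    obtain ⟨h1, h2, h3, h4⟩ := a_bounds hm (mem_range.1 hi)
    exact mul_pos (by linarith) (by linarith)
  · refine prod_pos (fun i hi => ?_)
    obtain ⟨h1, h2, h3, h4⟩ := a_bounds hm (mem_range.1 hi)
    push_cast
    exact mul_pos (by linarith) (by linarith)

lemma q_mul {m : ℕ} (hm : 2 ≤ m) {x : ℝ} (hx : 0 ≤ x) :
    q m x * pp m (m / 2) x = pp (m + 1) (m / 2) x := by
  unfold q pp
  rw [← prod_mul_distrib]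
  refine prod_congr rfl (fun i hi => ?_)
  obtain ⟨h1, h2, h3, h4⟩ := a_bounds hm (mem_range.1 hi)
  have : (x + ((i:ℝ) + 1) / m) * (x + (1 - ((i:ℝ) + 1) / m)) ≠ 0 :=
    (mul_pos (by linarith) (by linarith)).ne'
  rw [sub_mul, div_mul_cancel₀ _ this]
  unfold dl
  push_cast
  ring

lemma q_pos {m : ℕ} (hm : 2 ≤ m) {x : ℝ} (hx : 0 ≤ x) : 0 < q m x := by
  have h := q_mul hm hx
  obtain ⟨h1, h2⟩ := pp_pos hm hx
  by_contra hn
  push Not at hn
  nlinarith

lemma q_le {m : ℕ} (hm : 2 ≤ m) {x : ℝ} (hx : 0 ≤ x) : q m x ≤ 1 := by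
  have h := q_mul hm hx
  obtain ⟨h1, h2⟩ := pp_pos hm hx
  have : pp (m + 1) (m / 2) x ≤ pp m (m / 2) x := by
    unfold pp
    refine prod_le_prod (fun i hi => ?_) (fun i hi => ?_)
    · obtain ⟨h1, h2, h3, h4⟩ := a_bounds hm (mem_range.1 hi)
      push_cast
      exact (mul_pos (by linarith) (by linarith)).le
    · obtain ⟨h1, h2, h3, h4⟩ := a_bounds hm (mem_range.1 hi)
      push_cast
      nlinarith
  by_contra hn
  push Not at hn
  nlinarith

noncomputable def S (m : ℕ) : ℝ := 4 * (m:ℝ) ^ m / ((m:ℝ) + 1) ^ (m + 1)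

noncomputable def c (m k : ℕ) : ℝ :=
  ((m * k).factorial : ℝ) / ((((m + 1) * k).factorial : ℝ) * (k.factorial : ℝ))

noncomputable def rho (m k : ℕ) : ℝ := c m k * ((2 * k).factorial : ℝ) / S m ^ k

lemma S_pos {m : ℕ} (hm : 2 ≤ m) : 0 < S m := by
  have h0 : (0:ℝ) < m := by exact_mod_cast (by omega : 0 < m)
  unfold S; positivity

lemma rho_pos {m : ℕ} (hm : 2 ≤ m) (k : ℕ) : 0 < rho m k := by
  have := S_pos hm
  unfold rho c; positivity

lemma rho_zero (m : ℕ) : rho m 0 = 1 := by simp [rho, c]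

lemma rho_succ {m : ℕ} (hm : 2 ≤ m) (k : ℕ) : rho m (k + 1) * q m k = rho m k := by
  have h0 : (0:ℝ) < m := by exact_mod_cast (by omega : 0 < m)
  have hk : (0:ℝ) ≤ k := Nat.cast_nonneg k
  obtain ⟨A, hA⟩ : ∃ A, A = ∏ i ∈ range (m - 1), ((k:ℝ) + ((i:ℝ) + 1) / m) := ⟨_, rfl⟩
  obtain ⟨D, hD⟩ : ∃ D, D = ∏ i ∈ range m, ((k:ℝ) + ((i:ℝ) + 1) / ((m + 1 : ℕ):ℝ)) := ⟨_, rfl⟩
  have hA0 : 0 < A := by rw [hA]; exact prod_pos (fun i _ => by positivity)
  have hD0 : 0 < D := by rw [hD]; exact prod_pos (fun i _ => by positivity)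
  have e1 : ((m * (k + 1)).factorial : ℝ) = (m * k).factorial * (m ^ m * ((k + 1) * A)) := by
    rw [mul_add, mul_one, fact_add]
    congr 1
    have : ∏ i ∈ range m, (((m * k : ℕ):ℝ) + i + 1) = ∏ i ∈ range m, ((m:ℝ) * (k + (i + 1) / m)) :=
      prod_congr rfl (fun i _ => by push_cast; field_simp; ring)
    rw [this, prod_mul_distrib, prod_const, card_range]
    congr 1
    obtain ⟨n, rfl⟩ : ∃ n, m = n + 1 := ⟨m - 1, by omega⟩
    rw [prod_range_succ, hA, Nat.add_sub_cancel]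
    have : ((n:ℝ) + 1) / ((n + 1 : ℕ):ℝ) = 1 := by push_cast; field_simp
    rw [this]; ring
  have e2 : (((m + 1) * (k + 1)).factorial : ℝ)
      = ((m + 1) * k).factorial * (((m:ℝ) + 1) ^ (m + 1) * ((k + 1) * D)) := by
    rw [mul_add (m + 1), mul_one, fact_add]
    congr 1
    have : ∏ i ∈ range (m + 1), ((((m + 1) * k : ℕ):ℝ) + i + 1)
        = ∏ i ∈ range (m + 1), (((m:ℝ) + 1) * (k + (i + 1) / ((m + 1 : ℕ):ℝ))) :=
      prod_congr rfl (fun i _ => by push_cast; field_simp; ring)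
    rw [this, prod_mul_distrib, prod_const, card_range]
    congr 1
    rw [prod_range_succ, hD]
    have : ((m:ℝ) + 1) / ((m + 1 : ℕ):ℝ) = 1 := by push_cast; field_simp
    rw [this]; ring
  have e3 : ((2 * (k + 1)).factorial : ℝ) = (2 * k).factorial * ((2 * k + 1) * (2 * k + 2)) := by
    rw [show 2 * (k + 1) = 2 * k + 1 + 1 by ring, Nat.factorial_succ, Nat.factorial_succ]
    push_cast; ring
  have e4 : ((k + 1).factorial : ℝ) = (k + 1) * k.factorial := by
    rw [Nat.factorial_succ]; push_cast; ring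
  have hp := pairing m hm k
  rw [← hA, ← hD, ← q_mul hm hk] at hp
  have hq : q m k = D / ((k + 1 / 2) * A) := by
    obtain ⟨h1, h2⟩ := pp_pos hm hk
    rw [eq_div_iff (by positivity)]
    apply mul_right_cancel₀ h1.ne'
    rw [← hp]; ring
  have hS := S_pos hm
  have f1 : (0:ℝ) < (m * k).factorial := by positivity
  have f2 : (0:ℝ) < ((m + 1) * k).factorial := by positivity
  have f3 : (0:ℝ) < (k).factorial := by positivity
  unfold rho c
  rw [e1, e2, e3, e4, hq, pow_succ (S m)]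
  have hS' : S m = 4 * (m:ℝ) ^ m / ((m:ℝ) + 1) ^ (m + 1) := rfl
  generalize S m ^ k = Z at *
  rw [hS']
  by_cases hZ : Z = 0
  · simp [hZ]
  field_simp
  ring

lemma rho_add {m : ℕ} (hm : 2 ≤ m) (k N : ℕ) :
    rho m (k + N) * ∏ n ∈ range N, q m ((k:ℝ) + n) = rho m k := by
  induction N with
  | zero => simp
  | succ N ih =>
    rw [prod_range_succ, ← ih, ← rho_succ hm (k + N), ← add_assoc]
    push_cast; ring

lemma tel (N : ℕ) : ∑ n ∈ range N, 1 / (((n:ℝ) + 1) * (n + 2)) ≤ 1 := by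
  have : ∀ N : ℕ, ∑ n ∈ range N, 1 / (((n:ℝ) + 1) * (n + 2)) = 1 - 1 / ((N:ℝ) + 1) := by
    intro N
    induction N with
    | zero => simp
    | succ N ih => rw [sum_range_succ, ih]; push_cast; field_simp; ring
  rw [this]
  have : (0:ℝ) ≤ 1 / ((N:ℝ) + 1) := by positivity
  linarith

lemma inner_sum {a : ℝ} (h1 : 0 < a) (h2 : a ≤ 1 / 2) (N : ℕ) :
    ∑ n ∈ range N, 1 / (((n:ℝ) + a) * (n + (1 - a))) ≤ 1 / (a * (1 - a)) + 1 := by
  have h3 : 0 < 1 - a := by linarith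
  rcases N with _ | N
  · simp only [range_zero, sum_empty]; positivity
  rw [sum_range_succ']
  have : ∑ n ∈ range N, 1 / ((((n + 1 : ℕ):ℝ) + a) * ((n + 1 : ℕ) + (1 - a)))
      ≤ ∑ n ∈ range N, 1 / (((n:ℝ) + 1) * (n + 2)) := by
    refine sum_le_sum (fun n _ => ?_)
    have hn : (0:ℝ) ≤ n := Nat.cast_nonneg n
    refine one_div_le_one_div_of_le (by positivity) ?_
    push_cast
    nlinarith [mul_pos h1 h3]
  have := tel N
  simp only [Nat.cast_zero, zero_add]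
  linarith

lemma dl_bound {m i : ℕ} (hm : 2 ≤ m) (hi : i < m / 2) :
    dl m i * (1 / (((i:ℝ) + 1) / m * (1 - ((i:ℝ) + 1) / m)) + 1) ≤ 1 / ((m:ℝ) + 1) := by
  obtain ⟨h1, h2, h3, h4⟩ := a_bounds hm hi
  have h0 : (0:ℝ) < m := by exact_mod_cast (by omega : 0 < m)
  have hi0 : (0:ℝ) ≤ i := Nat.cast_nonneg i
  obtain ⟨a, ha⟩ : ∃ a : ℝ, a = ((i:ℝ) + 1) / m := ⟨_, rfl⟩
  obtain ⟨u, hu⟩ : ∃ u : ℝ, u = 1 / ((m:ℝ) + 1) := ⟨_, rfl⟩
  have hb : ((i:ℝ) + 1) / (m + 1) = a * (1 - u) := by rw [ha, hu]; field_simp; ring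
  have hua : u ≤ a := by
    rw [ha, hu]
    calc 1 / ((m:ℝ) + 1) ≤ 1 / m := one_div_le_one_div_of_le h0 (by linarith)
      _ ≤ ((i:ℝ) + 1) / m := div_le_div_of_nonneg_right (by linarith) h0.le
  have hu0 : 0 < u := by rw [hu]; positivity
  unfold dl
  rw [hb] at h3 h4 ⊢
  rw [← ha] at h1 h2 h4 ⊢
  rw [← hu]
  have h5 : 0 < 1 - a := by linarith
  have e : (a * (1 - a) - a * (1 - u) * (1 - a * (1 - u))) * (1 / (a * (1 - a)) + 1)
      = u * ((1 - a - a * (1 - u)) * (1 + a * (1 - a)) / (1 - a)) := by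
    field_simp; ring
  rw [e]
  refine mul_le_of_le_one_right hu0.le ?_
  rw [div_le_one h5]
  have h6 : (1 - a) * (1 - a - a * (1 - u)) ≤ 1 - u := by
    have : (1 - a) * (1 - a - a * (1 - u)) ≤ (1 - a) * 1 :=
      mul_le_mul_of_nonneg_left (by linarith) h5.le
    linarith
  nlinarith [mul_le_mul_of_nonneg_left h6 h1.le]

lemma tau_bound {m : ℕ} (hm : 2 ≤ m) (N : ℕ) :
    (∏ j ∈ range N ×ˢ range (m / 2), (1 + dl m j.2 /
      (((j.1:ℝ) + ((j.2:ℝ) + 1) / m) * (j.1 + (1 - ((j.2:ℝ) + 1) / m))))) - 1 ≤ 0.7 := by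
  have hpos : ∀ j ∈ range N ×ˢ range (m / 2), 0 ≤ dl m j.2 /
      (((j.1:ℝ) + ((j.2:ℝ) + 1) / m) * (j.1 + (1 - ((j.2:ℝ) + 1) / m))) := by
    intro j hj
    have hi := mem_range.1 (mem_product.1 hj).2
    obtain ⟨h1, h2, h3, h4⟩ := a_bounds hm hi
    have hn : (0:ℝ) ≤ j.1 := Nat.cast_nonneg _
    exact div_nonneg (dl_nonneg hm hi) (mul_pos (by linarith) (by linarith)).le
  have h1 : (∏ j ∈ range N ×ˢ range (m / 2), (1 + dl m j.2 /
      (((j.1:ℝ) + ((j.2:ℝ) + 1) / m) * (j.1 + (1 - ((j.2:ℝ) + 1) / m))))) ≤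
      Real.exp (∑ j ∈ range N ×ˢ range (m / 2), dl m j.2 /
      (((j.1:ℝ) + ((j.2:ℝ) + 1) / m) * (j.1 + (1 - ((j.2:ℝ) + 1) / m)))) := by
    rw [Real.exp_sum]
    refine prod_le_prod (fun j hj => by linarith [hpos j hj]) (fun j hj => ?_)
    rw [add_comm]; exact Real.add_one_le_exp _
  have h2 : (∑ j ∈ range N ×ˢ range (m / 2), dl m j.2 /
      (((j.1:ℝ) + ((j.2:ℝ) + 1) / m) * (j.1 + (1 - ((j.2:ℝ) + 1) / m)))) ≤ 1 / 2 := by
    rw [sum_product_right]
    have : ∀ i ∈ range (m / 2), ∑ n ∈ range N, dl m i /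
        (((n:ℝ) + ((i:ℝ) + 1) / m) * (n + (1 - ((i:ℝ) + 1) / m))) ≤ 1 / ((m:ℝ) + 1) := by
      intro i hi
      have hi := mem_range.1 hi
      obtain ⟨h1, h2, h3, h4⟩ := a_bounds hm hi
      refine le_trans ?_ (dl_bound hm hi)
      simp_rw [div_eq_mul_one_div (dl m i)]
      rw [← mul_sum]
      exact mul_le_mul_of_nonneg_left (inner_sum h1 h2 N) (dl_nonneg hm hi)
    refine (sum_le_sum this).trans ?_
    rw [sum_const, card_range, nsmul_eq_mul]
    have : 2 * ((m / 2 : ℕ):ℝ) ≤ m := by exact_mod_cast (by omega : 2 * (m / 2) ≤ m)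
    rw [mul_one_div, div_le_iff₀ (by positivity)]
    linarith
  have h3 : Real.exp (1 / 2) ≤ 1.7 := by
    have h := Real.exp_one_lt_d9
    have : Real.exp (1 / 2) ^ 2 = Real.exp 1 := by rw [← Real.exp_nat_mul]; norm_num
    have h0 := Real.exp_pos (1 / 2)
    nlinarith
  have := Real.exp_le_exp.2 h2
  linarith

lemma Pi_bound {m : ℕ} (hm : 2 ≤ m) {g : ℕ → ℝ} {K : ℝ} (a : P g K) (N : ℕ) :
    |∑' k : ℕ, ((∏ n ∈ range N, q m ((k:ℝ) + n)) - 1) * g k| ≤ 0.7 * K := by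
  have hK : 0 ≤ K := (abs_nonneg _).trans a.one
  have := (a.prod (fun j : ℕ × ℕ => dl m j.2) (fun j => (j.1:ℝ) + ((j.2:ℝ) + 1) / m)
    (fun j => (j.1:ℝ) + (1 - ((j.2:ℝ) + 1) / m)) (range N ×ˢ range (m / 2))
    (fun j hj => dl_nonneg hm (mem_range.1 (mem_product.1 hj).2))
    (fun j hj => by
      obtain ⟨h1, h2, h3, h4⟩ := a_bounds hm (mem_range.1 (mem_product.1 hj).2)
      have hn : (0:ℝ) ≤ j.1 := Nat.cast_nonneg _
      linarith)
    (fun j hj => by
      obtain ⟨h1, h2, h3, h4⟩ := a_bounds hm (mem_range.1 (mem_product.1 hj).2)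
      have hn : (0:ℝ) ≤ j.1 := Nat.cast_nonneg _
      linarith)).one
  refine le_trans (le_of_eq ?_) (this.trans (mul_le_mul_of_nonneg_right (tau_bound hm N) hK))
  congr 2
  funext k
  rw [prod_product]
  congr 2
  refine prod_congr rfl (fun n _ => ?_)
  unfold q
  refine prod_congr rfl (fun i _ => ?_)
  simp only [add_assoc]

lemma rho_mono {m : ℕ} (hm : 2 ≤ m) : Monotone (rho m) := by
  refine monotone_nat_of_le_succ (fun k => ?_)
  have := rho_succ hm k
  have h1 := q_le hm (Nat.cast_nonneg k)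
  have h2 := rho_pos hm (k + 1)
  nlinarith

lemma rho_bdd {m : ℕ} (hm : 2 ≤ m) (N : ℕ) : rho m N ≤ 4 := by
  have a : P (fun k => if k = 0 then (1:ℝ) else 0) 1 := by
    refine ⟨?_, fun s _ => ?_⟩
    · refine summable_of_ne_finset_zero (s := {0}) (fun b hb => ?_)
      simp at hb; simp [hb]
    · rw [tsum_eq_single 0 (fun b hb => by simp [hb])]; simp
  have h := Pi_bound hm a N
  rw [tsum_eq_single 0 (fun b hb => by simp [hb])] at h
  have h2 := rho_add hm 0 N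
  rw [rho_zero, zero_add] at h2
  simp only [if_true, mul_one] at h
  have h3 := (abs_le.1 h).1
  have h4 := rho_pos hm N
  generalize (∏ n ∈ range N, q m (((0:ℕ):ℝ) + n)) = Z at h2 h3
  norm_num at h3
  nlinarith

lemma key {m : ℕ} (hm : 2 ≤ m) {g : ℕ → ℝ} {K : ℝ} (a : P g K) (h0 : ∑' k, rho m k * g k = 0) :
    |∑' k, g k| ≤ 0.7 * K := by
  have hb : BddAbove (Set.range (rho m)) := ⟨4, by rintro _ ⟨N, rfl⟩; exact rho_bdd hm N⟩
  have ht := tendsto_atTop_ciSup (rho_mono hm) hb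
  obtain ⟨L, hL⟩ : ∃ L, L = ⨆ i, rho m i := ⟨_, rfl⟩
  rw [← hL] at ht
  have hL0 : 0 < L := by rw [hL]; exact (rho_pos hm 0).trans_le (le_ciSup hb 0)
  have hP : ∀ k N : ℕ, ∏ n ∈ range N, q m ((k:ℝ) + n) = rho m k / rho m (k + N) := by
    intro k N
    rw [eq_div_iff (rho_pos hm _).ne', mul_comm]; exact rho_add hm k N
  have hlim : Filter.Tendsto (fun N => ∑' k : ℕ, ((∏ n ∈ range N, q m ((k:ℝ) + n)) - 1) * g k)
      Filter.atTop (nhds (∑' k, (rho m k / L - 1) * g k)) := by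
    refine tendsto_tsum_of_dominated_convergence (bound := fun k => |g k|) a.1 (fun k => ?_) ?_
    · simp_rw [hP]
      refine Filter.Tendsto.mul_const _ (Filter.Tendsto.sub_const ?_ _)
      refine Filter.Tendsto.div tendsto_const_nhds ?_ hL0.ne'
      have := ht.comp (Filter.tendsto_add_atTop_nat k)
      simpa [Function.comp_def, add_comm] using this
    · refine Filter.Eventually.of_forall (fun N k => ?_)
      rw [hP, Real.norm_eq_abs, abs_mul]
      refine mul_le_of_le_one_left (abs_nonneg _) ?_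
      have h1 := rho_pos hm k
      have h2 := rho_pos hm (k + N)
      have h3 : rho m k / rho m (k + N) ≤ 1 := (div_le_one h2).2 (rho_mono hm (by omega))
      have h4 : 0 < rho m k / rho m (k + N) := div_pos h1 h2
      rw [abs_le]; constructor <;> linarith
  have hle : |∑' k, (rho m k / L - 1) * g k| ≤ 0.7 * K :=
    le_of_tendsto' hlim.abs (fun N => Pi_bound hm a N)
  have hs : Summable (fun k => rho m k * g k) := by
    refine Summable.of_abs (Summable.of_nonneg_of_le (fun _ => abs_nonneg _) (fun k => ?_)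
      (a.1.mul_left 4))
    rw [abs_mul, abs_of_pos (rho_pos hm k)]
    exact mul_le_mul_of_nonneg_right (rho_bdd hm k) (abs_nonneg _)
  have e : ∑' k, (rho m k / L - 1) * g k = - ∑' k, g k := by
    have : ∀ k, (rho m k / L - 1) * g k = L⁻¹ * (rho m k * g k) - g k := fun k => by ring
    simp_rw [this]
    rw [Summable.tsum_sub (hs.mul_left _) a.1.of_abs, tsum_mul_left, h0]; ring
  rwa [e, abs_neg] at hle

noncomputable def tm (w : ℂ) (k : ℕ) : ℂ := (-1) ^ k * w ^ (2 * k) / ((2 * k).factorial : ℂ)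

lemma tm_norm (w : ℂ) : Summable (fun k => ‖tm w k‖) := by
  have := (Real.hasSum_cosh ‖w‖).summable
  refine this.congr (fun k => ?_)
  simp [tm]

lemma tm_scale (w : ℂ) {s : ℝ} (hs : 0 ≤ s) (k : ℕ) :
    tm ((Real.sqrt s : ℂ) * w) k = ((s ^ k : ℝ) : ℂ) * tm w k := by
  unfold tm
  rw [mul_pow, pow_mul (Real.sqrt s : ℂ), ← Complex.ofReal_pow, Real.sq_sqrt hs]
  push_cast; ring

lemma cos_re (w : ℂ) : (Complex.cos w).re = Real.cos w.re * Real.cosh w.im := by
  conv_lhs => rw [← Complex.re_add_im w]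
  rw [Complex.cos_add_mul_I]
  simp [← Complex.ofReal_cos, ← Complex.ofReal_sin, ← Complex.ofReal_cosh, ← Complex.ofReal_sinh]

lemma cos_im (w : ℂ) : (Complex.cos w).im = -(Real.sin w.re * Real.sinh w.im) := by
  conv_lhs => rw [← Complex.re_add_im w]
  rw [Complex.cos_add_mul_I]
  simp [← Complex.ofReal_cos, ← Complex.ofReal_sin, ← Complex.ofReal_cosh, ← Complex.ofReal_sinh]

lemma P_re (w : ℂ) : P (fun k => (tm w k).re) (Real.cosh w.im) := by
  refine ⟨Summable.of_nonneg_of_le (fun _ => abs_nonneg _) (fun k => Complex.abs_re_le_norm _)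
    (tm_norm w), fun s hs => ?_⟩
  have h := Complex.hasSum_re (Complex.hasSum_cos ((Real.sqrt s : ℂ) * w))
  have h' : HasSum (fun k => s ^ k * (tm w k).re) (Complex.cos ((Real.sqrt s : ℂ) * w)).re := by
    have e : ∀ k, s ^ k * (tm w k).re = (tm ((Real.sqrt s : ℂ) * w) k).re := by
      intro k; rw [tm_scale w hs.1.le, Complex.re_ofReal_mul]
    simp_rw [e]; exact h
  rw [h'.tsum_eq, cos_re, abs_mul]
  have h1 : Real.sqrt s ≤ 1 := Real.sqrt_le_one.2 hs.2
  have h2 : Real.cosh ((Real.sqrt s : ℂ) * w).im ≤ Real.cosh w.im := by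
    rw [Real.cosh_le_cosh]
    simp only [Complex.mul_im, Complex.ofReal_re, Complex.ofReal_im, zero_mul, add_zero, abs_mul]
    rw [abs_of_nonneg (Real.sqrt_nonneg _)]
    exact mul_le_of_le_one_left (abs_nonneg _) h1
  rw [abs_of_pos (Real.cosh_pos _)]
  exact (mul_le_of_le_one_left (Real.cosh_pos _).le (Real.abs_cos_le_one _)).trans h2

lemma P_im (w : ℂ) : P (fun k => (tm w k).im) |Real.sinh w.im| := by
  refine ⟨Summable.of_nonneg_of_le (fun _ => abs_nonneg _) (fun k => Complex.abs_im_le_norm _)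
    (tm_norm w), fun s hs => ?_⟩
  have h := Complex.hasSum_im (Complex.hasSum_cos ((Real.sqrt s : ℂ) * w))
  have h' : HasSum (fun k => s ^ k * (tm w k).im) (Complex.cos ((Real.sqrt s : ℂ) * w)).im := by
    have e : ∀ k, s ^ k * (tm w k).im = (tm ((Real.sqrt s : ℂ) * w) k).im := by
      intro k; rw [tm_scale w hs.1.le, Complex.im_ofReal_mul]
    simp_rw [e]; exact h
  rw [h'.tsum_eq, cos_im, abs_neg, abs_mul]
  have h1 : Real.sqrt s ≤ 1 := Real.sqrt_le_one.2 hs.2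
  have h2 : |Real.sinh ((Real.sqrt s : ℂ) * w).im| ≤ |Real.sinh w.im| := by
    rw [Real.abs_sinh, Real.abs_sinh, Real.sinh_le_sinh]
    simp only [Complex.mul_im, Complex.ofReal_re, Complex.ofReal_im, zero_mul, add_zero, abs_mul]
    rw [abs_of_nonneg (Real.sqrt_nonneg _)]
    exact mul_le_of_le_one_left (abs_nonneg _) h1
  exact (mul_le_of_le_one_left (abs_nonneg _) (Real.abs_sin_le_one _)).trans h2

lemma main {m : ℕ} (hm : 2 ≤ m) (w : ℂ) (h : ∑' k, ((rho m k : ℝ) : ℂ) * tm w k = 0) :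
    w.im = 0 := by
  by_contra hy
  have hs : Summable (fun k => ((rho m k : ℝ) : ℂ) * tm w k) := by
    refine Summable.of_norm (Summable.of_nonneg_of_le (fun _ => norm_nonneg _) (fun k => ?_)
      ((tm_norm w).mul_left 4))
    rw [norm_mul, Complex.norm_real, Real.norm_eq_abs, abs_of_pos (rho_pos hm k)]
    exact mul_le_mul_of_nonneg_right (rho_bdd hm k) (norm_nonneg _)
  have h1 : ∑' k, rho m k * (tm w k).re = 0 := by
    have := Complex.re_tsum hs
    rw [h] at this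
    simp_rw [Complex.re_ofReal_mul] at this
    exact this.symm
  have h2 : ∑' k, rho m k * (tm w k).im = 0 := by
    have := Complex.im_tsum hs
    rw [h] at this
    simp_rw [Complex.im_ofReal_mul] at this
    exact this.symm
  have k1 := key hm (P_re w) h1
  have k2 := key hm (P_im w) h2
  have e1 : ∑' k, (tm w k).re = (Complex.cos w).re :=
    (Complex.hasSum_re (Complex.hasSum_cos w)).tsum_eq
  have e2 : ∑' k, (tm w k).im = (Complex.cos w).im :=
    (Complex.hasSum_im (Complex.hasSum_cos w)).tsum_eq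
  rw [e1, cos_re, abs_mul, abs_of_pos (Real.cosh_pos _)] at k1
  rw [e2, cos_im, abs_neg, abs_mul] at k2
  have p1 := Real.cosh_pos w.im
  have p2 : 0 < |Real.sinh w.im| := abs_pos.2 (by simpa using hy)
  have c1 : |Real.cos w.re| ≤ 0.7 := le_of_mul_le_mul_right k1 p1
  have c2 : |Real.sin w.re| ≤ 0.7 := le_of_mul_le_mul_right k2 p2
  have := Real.sin_sq_add_cos_sq w.re
  have d1 := sq_abs (Real.cos w.re)
  have d2 := sq_abs (Real.sin w.re)
  nlinarith [abs_nonneg (Real.cos w.re), abs_nonneg (Real.sin w.re)]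

end Aux


/-- For every integer m at least 2, every complex zero of the entire function sum over k of (mk)!/(((m+1)k)! k!) z^k is real. -/
theorem result :
    ∀ m : ℕ, 2 ≤ m → ∀ z : ℂ,
      (∑' k : ℕ, ((Nat.factorial (m * k) : ℂ) /
          ((Nat.factorial ((m + 1) * k) : ℂ) * (Nat.factorial k : ℂ))) * z ^ k) = 0 →
      z.im = 0 := by
  intro m hm z hz
  obtain ⟨w, hw⟩ := IsAlgClosed.exists_pow_nat_eq (-((S m : ℝ) : ℂ) * z) (n := 2) two_pos
  have hS := S_pos hm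
  have hSc : ((S m : ℝ) : ℂ) ≠ 0 := by exact_mod_cast hS.ne'
  have := main hm w (by
    rw [← hz]
    congr 1
    funext k
    unfold tm rho c
    rw [pow_mul, hw, mul_pow, neg_pow ((S m : ℝ) : ℂ)]
    have f1 : (((2 * k).factorial : ℕ) : ℂ) ≠ 0 := by exact_mod_cast (Nat.factorial_pos _).ne'
    have f2 : ((-1 : ℂ)) ^ k * (-1) ^ k = 1 := by rw [← mul_pow]; simp
    push_cast
    field_simp
    rw [sq, f2]; ring)
  have h2 := congrArg Complex.im hw
  simp only [sq, Complex.mul_im, this, mul_zero, zero_mul, add_zero, Complex.neg_re,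
    Complex.ofReal_re, Complex.neg_im, Complex.ofReal_im, neg_zero] at h2
  have : S m * z.im = 0 := by linarith
  exact (mul_eq_zero.1 this).resolve_left hS.ne'


end Pool.Agent.S03969
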