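import Pool.Statements.S03988

set_option autoImplicit false
open Pool Pool.MP_1c6fe5_an

namespace Pool.Agent.S03988

open Filter Topology

abbrev K : Type := OnePoint ℕ

/-- The semigroup of continuous self-maps of the one-point compactification of the naturals. -/
structure S : Type where
  f : C(K, K)

instance : Semigroup S where
  mul a b := ⟨a.f.comp b.f⟩
  mul_assoc _ _ _ := rfl

theorem mul_f (a b : S) : (a * b).f = a.f.comp b.f := rfl

def cst (x : K) : S := ⟨ContinuousMap.const K x⟩

theorem mul_cst (a : S) (x : K) : a * cst x = cst (a.f x) := rfl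

/-- The step map. -/
def step {Y : Type} [TopologicalSpace Y] (x y : Y) (n : ℕ) : C(K, Y) :=
  OnePoint.continuousMapMkNat (fun j => if j ≤ n then x else y) y (by
    refine tendsto_const_nhds.congr' ?_
    filter_upwards [eventually_gt_atTop n] with j hj
    simp [not_le.mpr hj])

theorem step_nat {Y : Type} [TopologicalSpace Y] (x y : Y) (n j : ℕ) :
    step x y n (j : K) = if j ≤ n then x else y := rfl

/-- Double limit property. -/
theorem dlim {ι : Type} (A : Set (lp (fun _ : ι => ℝ) ⊤))
    (hA : IsCompact (closure (toWeakSpace ℝ (lp (fun _ : ι => ℝ) ⊤) '' A)))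
    (G : ℕ → lp (fun _ : ι => ℝ) ⊤) (hG : ∀ n, G n ∈ A) (t : ℕ → ι) (α β : ℝ)
    (h : ∀ n m, G n (t m) = if m ≤ n then α else β) : α = β := by
  set e := toWeakSpace ℝ (lp (fun _ : ι => ℝ) ⊤) with he
  obtain ⟨w, -, hw⟩ := hA.exists_mapClusterPt (f := atTop) (u := fun n => e (G n))
    (by
      rw [le_principal_iff, mem_map]
      exact Eventually.of_forall fun n => subset_closure ⟨G n, hG n, rfl⟩)
  have key : ∀ D : Set (lp (fun _ : ι => ℝ) ⊤), Convex ℝ D → (∀ᶠ n in atTop, G n ∈ D) →
      e.symm w ∈ closure D := by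
    intro D hD hev
    have h1 : w ∈ closure (e '' D) := by
      refine hw.mem_closure_of_mem _ ?_
      rw [mem_map]
      filter_upwards [hev] with n hn
      exact ⟨G n, hn, rfl⟩
    rw [← hD.toWeakSpace_closure ℝ] at h1
    obtain ⟨u, hu, rfl⟩ := h1
    rw [he, LinearEquiv.symm_apply_apply]; exact hu
  have hev : ∀ (u v : lp (fun _ : ι => ℝ) ⊤) (i : ι), |u i - v i| ≤ dist u v := by
    intro u v i
    have := lp.norm_apply_le_norm (p := ⊤) (by simp) (u - v) i
    simpa [dist_eq_norm] using this
  have h1 : ∀ m, (e.symm w) (t m) = α := by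
    intro m
    have := key {u | u (t m) = α} (by
      intro u hu v hv a b _ _ hab
      simp only [Set.mem_ofPred_eq] at hu hv ⊢
      simp only [lp.coeFn_add, lp.coeFn_smul, Pi.add_apply, Pi.smul_apply, smul_eq_mul, hu, hv]
      rw [← add_mul, hab, one_mul]) (by
      filter_upwards [eventually_ge_atTop m] with n hn
      simp [h, hn])
    rw [Metric.mem_closure_iff] at this
    refine eq_of_forall_dist_le fun ε hε => ?_
    obtain ⟨u, hu, hd⟩ := this ε hε
    have := hev (e.symm w) u (t m)
    rw [hu] at this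
    exact this.trans hd.le
  have h2 := key {u | ∀ᶠ m in atTop, u (t m) = β} (by
      intro u hu v hv a b _ _ hab
      simp only [Set.mem_ofPred_eq] at hu hv ⊢
      filter_upwards [hu, hv] with m hu hv
      simp only [lp.coeFn_add, lp.coeFn_smul, Pi.add_apply, Pi.smul_apply, smul_eq_mul, hu, hv]
      rw [← add_mul, hab, one_mul]) (by
      refine Eventually.of_forall fun n => ?_
      filter_upwards [eventually_gt_atTop n] with m hm
      simp [h, not_le.mpr hm])
  rw [Metric.mem_closure_iff] at h2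
  refine eq_of_forall_dist_le fun ε hε => ?_
  obtain ⟨u, hu, hd⟩ := h2 ε hε
  obtain ⟨m, hm⟩ := hu.exists
  have := hev (e.symm w) u (t m)
  rw [hm, h1] at this
  exact this.trans hd.le

abbrev X : Type := C(K, ℝ)

/-- Point evaluation. -/
noncomputable def dl (x : K) : StrongDual ℝ X := ContinuousMap.evalCLM ℝ x

theorem dl_apply (x : K) (g : X) : dl x g = g x := rfl

theorem dl_norm (x : K) : ‖dl x‖ ≤ 1 :=
  ContinuousLinearMap.opNorm_le_bound _ zero_le_one fun g => by
    rw [dl_apply, one_mul]; exact g.norm_coe_le_norm x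

/-- Indicator of a natural number. -/
def ind (n : ℕ) : X :=
  OnePoint.continuousMapMkNat (fun j => if j = n then 1 else 0) 0 (by
    refine tendsto_const_nhds.congr' ?_
    filter_upwards [eventually_gt_atTop n] with j hj
    simp [hj.ne'])

theorem ind_nat (n j : ℕ) : ind n (j : K) = if j = n then 1 else 0 := rfl
theorem ind_inf (n : ℕ) : ind n OnePoint.infty = 0 := rfl

theorem comb_nat (c : ℕ → ℝ) (N j : ℕ) :
    (∑ n ∈ Finset.range N, c n • ind n) (j : K) = if j < N then c j else 0 := by
  simp only [ContinuousMap.coe_sum, Finset.sum_apply, ContinuousMap.smul_apply, ind_nat,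
    smul_eq_mul, mul_ite, mul_one, mul_zero]
  simp [Finset.sum_ite_eq]

theorem comb_inf (c : ℕ → ℝ) (N : ℕ) :
    (∑ n ∈ Finset.range N, c n • ind n) OnePoint.infty = 0 := by
  simp only [ContinuousMap.coe_sum, Finset.sum_apply, ContinuousMap.smul_apply, ind_inf,
    smul_eq_mul, mul_zero, Finset.sum_const_zero]

theorem summ (φ : StrongDual ℝ X) : Summable fun n => |φ (ind n)| := by
  refine summable_of_sum_range_le (c := ‖φ‖) (fun n => abs_nonneg _) fun N => ?_
  set c : ℕ → ℝ := fun n => if 0 ≤ φ (ind n) then 1 else -1 with hc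
  have h1 : ∑ n ∈ Finset.range N, |φ (ind n)| = φ (∑ n ∈ Finset.range N, c n • ind n) := by
    rw [map_sum]
    refine Finset.sum_congr rfl fun n _ => ?_
    rw [map_smul, hc]
    simp only [smul_eq_mul]
    split_ifs with h
    · rw [abs_of_nonneg h, one_mul]
    · rw [abs_of_neg (not_le.mp h)]; ring
  have h2 : ‖∑ n ∈ Finset.range N, c n • ind n‖ ≤ 1 := by
    rw [ContinuousMap.norm_le _ zero_le_one]
    intro x
    induction x using OnePoint.rec with
    | infty => rw [comb_inf]; simp
    | coe j =>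
      rw [comb_nat, hc]
      simp only []
      split_ifs <;> simp
  rw [h1]
  calc φ _ ≤ ‖φ (∑ n ∈ Finset.range N, c n • ind n)‖ := le_abs_self _
    _ ≤ ‖φ‖ * ‖∑ n ∈ Finset.range N, c n • ind n‖ := φ.le_opNorm _
    _ ≤ ‖φ‖ := mul_le_of_le_one_right (ContinuousLinearMap.opNorm_nonneg φ) h2

theorem approx (g : X) : Tendsto (fun N => g OnePoint.infty • (1 : X) +
    ∑ n ∈ Finset.range N, (g n - g OnePoint.infty) • ind n) atTop (𝓝 g) := by
  have hg := (OnePoint.continuous_iff_from_nat g).mp g.continuous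
  rw [Metric.tendsto_atTop] at hg ⊢
  intro ε hε
  obtain ⟨N, hN⟩ := hg ε hε
  refine ⟨N, fun M hM => ?_⟩
  rw [ContinuousMap.dist_lt_iff hε]
  intro x
  induction x using OnePoint.rec with
  | infty => rw [ContinuousMap.add_apply, comb_inf]; simpa using hε
  | coe j =>
    rw [ContinuousMap.add_apply, comb_nat]
    split_ifs with h
    · simpa using hε
    · have := hN j (by omega)
      rw [dist_comm] at this
      simpa using this

theorem mem_cl (φ : StrongDual ℝ X) :
    φ ∈ closure (Submodule.span ℝ (Set.range dl) : Set (StrongDual ℝ X)) := by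
  set u : ℕ → StrongDual ℝ X := fun n => φ (ind n) • (dl n - dl OnePoint.infty) with hu
  have hs : Summable u := by
    refine Summable.of_norm_bounded (E := StrongDual ℝ X) (g := fun n => |φ (ind n)| * 2)
      ((summ φ).mul_right 2) fun n => ?_
    refine ContinuousLinearMap.opNorm_le_bound _ (by positivity) fun g => ?_
    have h1 := g.norm_coe_le_norm n
    have h2 := g.norm_coe_le_norm OnePoint.infty
    have h3 := norm_sub_le (g n) (g OnePoint.infty)
    show ‖φ (ind n) * (g n - g OnePoint.infty)‖ ≤ _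
    rw [norm_mul, Real.norm_eq_abs (φ _), mul_assoc]
    exact mul_le_mul_of_nonneg_left (by linarith) (abs_nonneg _)
  have ht : Tendsto (fun N => φ 1 • dl OnePoint.infty + ∑ n ∈ Finset.range N, u n) atTop
      (𝓝 (φ 1 • dl OnePoint.infty + ∑' n, u n)) :=
    tendsto_const_nhds.add hs.hasSum.tendsto_sum_nat
  have he : φ 1 • dl OnePoint.infty + ∑' n, u n = φ := by
    ext g
    have h1 : Tendsto (fun N => (φ 1 • dl OnePoint.infty + ∑ n ∈ Finset.range N, u n) g) atTop
        (𝓝 ((φ 1 • dl OnePoint.infty + ∑' n, u n) g)) :=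
      ((ContinuousLinearMap.apply ℝ ℝ g).continuous.tendsto _).comp ht
    have h2 := (φ.continuous.tendsto g).comp (approx g)
    refine tendsto_nhds_unique h1 (h2.congr fun N => ?_)
    simp only [Function.comp, map_add, map_smul, map_sum, hu, add_apply,
      smul_apply, FunLike.coe_sum, Finset.sum_apply, sub_apply, dl_apply, smul_eq_mul]
    congr 1
    · ring
    · exact Finset.sum_congr rfl fun n _ => by ring
  rw [he] at ht
  refine mem_closure_of_tendsto ht (Eventually.of_forall fun N => ?_)
  have hm : ∀ x, dl x ∈ Submodule.span ℝ (Set.range dl) := fun x =>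
    Submodule.subset_span ⟨x, rfl⟩
  exact Submodule.add_mem _ (Submodule.smul_mem _ _ (hm _))
    (Submodule.sum_mem _ fun n _ => Submodule.smul_mem _ _ (Submodule.sub_mem _ (hm _) (hm _)))

theorem sep (C : Set (StrongDual ℝ X)) : TopologicalSpace.IsSeparable C := by
  have : Countable K := inferInstanceAs (Countable (Option ℕ))
  exact ((Set.countable_range dl).isSeparable.span (R := ℝ)).closure.mono fun φ _ => mem_cl φ

/-- Composition operator. -/
noncomputable def pull (s : S) : X →L[ℝ] X :=
  LinearMap.mkContinuous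
    { toFun := fun g => g.comp s.f
      map_add' := fun _ _ => rfl
      map_smul' := fun _ _ => rfl } 1 fun g => by
    rw [one_mul, ContinuousMap.norm_le _ (norm_nonneg _)]
    intro x
    exact g.norm_coe_le_norm _

theorem pull_apply (s : S) (g : X) : pull s g = g.comp s.f := rfl

theorem pull_le (s : S) (g : X) : ‖pull s g‖ ≤ ‖g‖ := by
  rw [ContinuousMap.norm_le _ (norm_nonneg _)]
  intro x
  exact g.norm_coe_le_norm _

theorem push_le (s : S) (φ : StrongDual ℝ X) : ‖φ.comp (pull s)‖ ≤ ‖φ‖ :=
  ContinuousLinearMap.opNorm_le_bound _ (ContinuousLinearMap.opNorm_nonneg φ) fun g =>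
    (φ.le_opNorm _).trans (mul_le_mul_of_nonneg_left (pull_le s g)
      (ContinuousLinearMap.opNorm_nonneg φ))

/-- The negation of the preceding statement: For every semigroup S: if WAP(S) has a left invariant mean, then every left action of S on a nonempty convex, norm-separable, weak*-compact subset of a real dual Banach space, by norm-nonexpansive weak*-continuous maps, has a common fixed point. -/
theorem result :
    ¬ (∀ (S : Type) [Semigroup S] (W : (S → ℝ) → Prop),
      (∀ f : S → ℝ, W f ↔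
        ∃ F : lp (fun _ : S => ℝ) ⊤, (∀ t, F t = f t) ∧
          IsCompact (closure (toWeakSpace ℝ (lp (fun _ : S => ℝ) ⊤) ''
            {G : lp (fun _ : S => ℝ) ⊤ | ∃ s : S, ∀ t : S, G t = f (s * t)}))) →
      (∃ m : (S → ℝ) → ℝ,
        (∀ f g : S → ℝ, W f → W g → m (f + g) = m f + m g) ∧
        (∀ (c : ℝ) (f : S → ℝ), W f → m (c • f) = c * m f) ∧
        (∀ f : S → ℝ, W f → (∀ t, 0 ≤ f t) → 0 ≤ m f) ∧
        m (fun _ => 1) = 1 ∧
        (∀ (s : S) (f : S → ℝ), W f → m (fun t => f (s * t)) = m f)) →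
      ∀ (X : Type) [NormedAddCommGroup X] [NormedSpace ℝ X] [CompleteSpace X]
        (C : Set (StrongDual ℝ X)) (T : S → StrongDual ℝ X → StrongDual ℝ X),
        C.Nonempty → Convex ℝ C → TopologicalSpace.IsSeparable C →
        IsCompact (StrongDual.toWeakDual '' C) →
        (∀ s, Set.MapsTo (T s) C C) →
        (∀ s t : S, ∀ φ ∈ C, T (s * t) φ = T s (T t φ)) →
        (∀ s : S, ∀ φ ∈ C, ∀ ψ ∈ C, ‖T s φ - T s ψ‖ ≤ ‖φ - ψ‖) →
        (∀ s : S, ContinuousOn
          (fun ω => StrongDual.toWeakDual (T s (StrongDual.toWeakDual.symm ω)))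
          (StrongDual.toWeakDual '' C)) →
        ∃ φ ∈ C, ∀ s : S, T s φ = φ) := by
  intro H
  have H1 := H S _ (fun f => Iff.rfl) ⟨fun f => f (cst OnePoint.infty), fun _ _ _ _ => rfl,
    fun _ _ _ => rfl, fun _ _ h => h _, rfl, ?_⟩ X {φ | ‖φ‖ ≤ 1 ∧ φ 1 = 1}
    (fun s φ => φ.comp (pull s)) ⟨dl OnePoint.infty, dl_norm _, rfl⟩ ?_ (sep _) ?_ ?_ ?_ ?_ ?_
  · obtain ⟨φ, ⟨-, h1⟩, hφ⟩ := H1
    have key : ∀ (x : K) (g : X), φ g = g x := by
      intro x g
      have e := hφ (cst x)
      have : pull (cst x) g = g x • (1 : X) := by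
        ext y; simp [pull_apply, cst]
      rw [← e]
      simp only [ContinuousLinearMap.comp_apply, this, map_smul, h1, smul_eq_mul, mul_one]
    have a := key OnePoint.infty (ind 0)
    have b := key (0 : ℕ) (ind 0)
    rw [a, ind_inf, ind_nat] at b
    simp at b
  · rintro s f ⟨F, hF, hc⟩
    simp only [mul_cst]
    have hb : ∀ a : S, Memℓp (fun t => f (a * t)) ⊤ := by
      intro a
      apply memℓp_infty
      refine ⟨‖F‖, ?_⟩
      rintro _ ⟨t, rfl⟩
      simp only [← hF]
      exact lp.norm_apply_le_norm (p := ⊤) (by simp) F _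
    refine dlim _ hc (fun n => ⟨fun t => f (⟨step (s.f OnePoint.infty) OnePoint.infty n⟩ * t),
      hb ⟨step (s.f OnePoint.infty) OnePoint.infty n⟩⟩) (fun n => ⟨_, fun t => rfl⟩) (fun m => cst (m : ℕ)) _ _ fun n m => ?_
    show f (cst (step (s.f OnePoint.infty) OnePoint.infty n (m : K))) = _
    rw [step_nat]
    split_ifs <;> rfl
  · intro φ hφ ψ hψ a b ha hb hab
    refine ⟨?_, ?_⟩
    · calc ‖a • φ + b • ψ‖ ≤ ‖a • φ‖ + ‖b • ψ‖ := norm_add_le _ _
        _ = a * ‖φ‖ + b * ‖ψ‖ := by
          rw [norm_smul, norm_smul, Real.norm_of_nonneg ha, Real.norm_of_nonneg hb]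
        _ ≤ a * 1 + b * 1 := by gcongr; exacts [hφ.1, hψ.1]
        _ = 1 := by linarith
    · simp [hφ.2, hψ.2, hab]
  · have h1 := WeakDual.isCompact_closedBall (𝕜 := ℝ) (E := X) 0 1
    have h2 : IsClosed {ω : WeakDual ℝ X | ω 1 = 1} :=
      isClosed_eq (WeakDual.eval_continuous _) continuous_const
    convert h1.inter_right h2 using 1
    ext ω
    constructor
    · rintro ⟨φ, hφ, rfl⟩
      exact ⟨by simpa using hφ.1, hφ.2⟩
    · rintro ⟨h, h'⟩
      exact ⟨WeakDual.toStrongDual ω, ⟨by simpa using h, h'⟩, rfl⟩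
  · intro s φ hφ
    refine ⟨(push_le s φ).trans hφ.1, ?_⟩
    exact hφ.2
  · intro s t φ _
    rfl
  · intro s φ _ ψ _
    rw [← ContinuousLinearMap.sub_comp]
    exact push_le s _
  · intro s
    apply Continuous.continuousOn
    apply WeakDual.continuous_of_continuous_eval
    intro g
    exact WeakDual.eval_continuous (pull s g)

end Pool.Agent.S03988
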