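import Pool.Statements.S03998
-- import your own Pool.Agent.* helpers here
import Pool.Agent.Lib.helper16.RigA

set_option autoImplicit false
open Filter Topology
open scoped symmDiff
open Pool Pool.MP_1dc7bd_an

namespace Pool.Agent.S03998

open Pool.Agent.Lib.helper16.Rig MeasureTheory

noncomputable instance : MeasurableSpace ℤ_[3] := borel _
instance : BorelSpace ℤ_[3] := ⟨rfl⟩

lemma dvd_int (k : ℕ) (a : ℤ) : (3 : ℤ_[3]) ^ k ∣ (a : ℤ_[3]) ↔ (3 : ℤ) ^ k ∣ a := by
  simpa using PadicInt.pow_p_dvd_int_iff (p := 3) k a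

lemma dvd_norm (k : ℕ) (u : ℤ_[3]) : (3 : ℤ_[3]) ^ k ∣ u ↔ ‖u‖ ≤ (3 : ℝ) ^ (-k : ℤ) := by
  have := PadicInt.norm_le_pow_iff_mem_span_pow (p := 3) u k
  rw [Ideal.mem_span_singleton] at this
  simpa using this.symm

lemma appr_dvd (k : ℕ) (u : ℤ_[3]) : (3 : ℤ_[3]) ^ k ∣ u - (u.appr k : ℕ) := by
  have := PadicInt.appr_spec (p := 3) k u
  rw [Ideal.mem_span_singleton] at this
  simpa using this

lemma clopen_dvd (k : ℕ) : IsClopen {u : ℤ_[3] | (3 : ℤ_[3]) ^ k ∣ u} := by
  have : {u : ℤ_[3] | (3 : ℤ_[3]) ^ k ∣ u} = Metric.closedBall 0 ((3 : ℝ) ^ (-k : ℤ)) := by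
    ext u; rw [mem_closedBall_zero_iff, ← dvd_norm]; rfl
  rw [this]
  exact IsUltrametricDist.isClopen_closedBall _ (by positivity)

lemma low (u : ℤ_[3]) (hu : u ≠ 0) :
    ∃ k : ℕ, (3 : ℤ_[3]) ^ (k + 1) ∣ u - 3 ^ k ∨ (3 : ℤ_[3]) ^ (k + 1) ∣ u + 3 ^ k := by
  have h1 := PadicInt.unitCoeff_spec hu
  set c := PadicInt.unitCoeff hu
  set v := u.valuation
  obtain ⟨d, hd⟩ := appr_dvd 1 (c : ℤ_[3])
  have h2 := PadicInt.appr_lt (c : ℤ_[3]) 1
  refine ⟨v, ?_⟩
  generalize (c : ℤ_[3]).appr 1 = a at hd h2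
  norm_num at h2 h1 hd
  interval_cases a
  · exfalso
    have h3 : IsUnit ((3 : ℕ) : ℤ_[3]) := isUnit_of_dvd_unit ⟨d, by simpa using hd⟩ c.isUnit
    exact PadicInt.prime_p.not_isUnit h3
  · left; exact ⟨d, by rw [h1]; push_cast at hd; linear_combination 3 ^ v * hd⟩
  · right; exact ⟨d + 1, by rw [h1]; push_cast at hd; linear_combination 3 ^ v * hd⟩

lemma excl (u : ℤ_[3]) (j k : ℕ) (h1 : (3 : ℤ_[3]) ^ (j + 1) ∣ u - 3 ^ j)
    (h2 : (3 : ℤ_[3]) ^ (k + 1) ∣ u + 3 ^ k) : False := by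
  have key : ∀ a b : ℕ, a ≤ b → ¬ (3 : ℤ_[3]) ^ (a + 1) ∣ 3 ^ a + 3 ^ b := by
    intro a b hab h
    have h' : (3 : ℤ) ^ (a + 1) ∣ 3 ^ a + 3 ^ b := (dvd_int _ _).1 (by exact_mod_cast h)
    obtain ⟨c, rfl⟩ := Nat.exists_eq_add_of_le hab
    rw [show (3 : ℤ) ^ a + 3 ^ (a + c) = 3 ^ a * (1 + 3 ^ c) by ring, pow_succ,
      mul_dvd_mul_iff_left (by positivity)] at h'
    cases c with
    | zero => norm_num at h'
    | succ c => rw [pow_succ] at h'; omega
  rcases le_total j k with h | h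
  · refine key j k h ?_
    have := dvd_sub ((pow_dvd_pow _ (by omega)).trans h2) h1
    rwa [show u + 3 ^ k - (u - 3 ^ j) = 3 ^ j + 3 ^ k by ring] at this
  · refine key k j h ?_
    have := dvd_sub h2 ((pow_dvd_pow _ (by omega)).trans h1)
    rwa [show u + 3 ^ k - (u - 3 ^ j) = 3 ^ k + 3 ^ j by ring] at this

def XX : Set (ℤ_[3] × (ℤ → Bool)) := {p | ∀ (n : ℤ) (k : ℕ),
  ((3 : ℤ_[3]) ^ (k + 1) ∣ p.1 + n - 3 ^ k → p.2 n = true) ∧
  ((3 : ℤ_[3]) ^ (k + 1) ∣ p.1 + n + 3 ^ k → p.2 n = false)}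

instance : CompactSpace XX := by
  refine isCompact_iff_compactSpace.1 (IsClosed.isCompact ?_)
  simp only [XX, Set.ofPred_forall]
  refine isClosed_iInter fun n => isClosed_iInter fun k => IsClosed.inter ?_ ?_
  · exact isClosed_imp ((clopen_dvd (k + 1)).isOpen.preimage
      (f := fun p : ℤ_[3] × (ℤ → Bool) => p.1 + n - 3 ^ k) (by fun_prop))
      (isClosed_eq (by fun_prop) continuous_const)
  · exact isClosed_imp ((clopen_dvd (k + 1)).isOpen.preimage
      (f := fun p : ℤ_[3] × (ℤ → Bool) => p.1 + n + 3 ^ k) (by fun_prop))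
      (isClosed_eq (by fun_prop) continuous_const)

noncomputable def sh (m : ℤ) (p : XX) : XX := ⟨(p.1.1 + m, fun n => p.1.2 (n + m)), fun n k => by
  have := p.2 (n + m) k
  push_cast at this
  simpa only [add_assoc, add_comm (m : ℤ_[3]) n] using this⟩

lemma sh_sh (a b : ℤ) (p : XX) : sh a (sh b p) = sh (a + b) p := by
  refine Subtype.ext (Prod.ext ?_ (funext fun n => ?_))
  · simp only [sh]; push_cast; ring
  · simp only [sh, add_assoc]

lemma sh_zero (p : XX) : sh 0 p = p := by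
  refine Subtype.ext (Prod.ext ?_ (funext fun n => ?_)) <;> simp [sh]

lemma cont_sh (m : ℤ) : Continuous (sh m) := by
  refine Continuous.subtype_mk ?_ _
  fun_prop

noncomputable def TT : XX ≃ₜ XX where
  toFun := sh 1
  invFun := sh (-1)
  left_inv p := by rw [sh_sh]; exact sh_zero p
  right_inv p := by rw [sh_sh]; exact sh_zero p
  continuous_toFun := cont_sh 1
  continuous_invFun := cont_sh (-1)

lemma TT_iter (m : ℕ) (p : XX) : TT^[m] p = sh m p := by
  induction m with
  | zero => exact (sh_zero p).symm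
  | succ m ih =>
    rw [Function.iterate_succ_apply', ih]
    change sh 1 _ = _
    rw [sh_sh]; congr 1; push_cast; ring

open Classical in
noncomputable def aa (u : ℤ_[3]) : Bool := decide (∃ k : ℕ, (3 : ℤ_[3]) ^ (k + 1) ∣ u - 3 ^ k)

noncomputable def sec (z : ℤ_[3]) : XX := ⟨(z, fun n => aa (z + n)), fun n k =>
  ⟨fun h => by simp only [aa, decide_eq_true_eq]; exact ⟨k, h⟩,
   fun h => by simp only [aa, decide_eq_false_iff_not]; exact fun ⟨j, hj⟩ => excl _ j k hj h⟩⟩

lemma meas_sec : Measurable sec := by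
  have h : Measurable aa := by
    refine measurable_to_bool ?_
    have : aa ⁻¹' {true} = ⋃ k : ℕ, (fun u => u - 3 ^ k) ⁻¹' {u | (3 : ℤ_[3]) ^ (k + 1) ∣ u} := by
      ext u; simp [aa]
    rw [this]
    exact (isOpen_iUnion fun k => (clopen_dvd _).isOpen.preimage (by fun_prop)).measurableSet
  refine Measurable.subtype_mk (measurable_id.prodMk (measurable_pi_lambda _ fun n => ?_))
  exact h.comp (measurable_id.add_const _)

lemma sh_sec (m : ℤ) (z : ℤ_[3]) : sh m (sec z) = sec (z + m) := by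
  refine Subtype.ext (Prod.ext rfl (funext fun n => ?_))
  simp only [sh, sec]; congr 1; push_cast; ring

lemma nbhd (q : XX) (U : Set XX) (hU : U ∈ 𝓝 q) :
    ∃ (w : ℤ_[3]) (K : ℕ), ∀ p : XX, (3 : ℤ_[3]) ^ K ∣ p.1.1 - w → p ∈ U := by
  classical
  let e : ℤ_[3] := if ∃ n : ℤ, q.1.1 + n = 0 ∧ q.1.2 n = true then 1 else -1
  by_contra hc
  push Not at hc
  choose p hp hpU using fun K : ℕ => hc (q.1.1 + e * 3 ^ K) (K + 1)
  have h0 : ∀ K, (3 : ℤ_[3]) ^ K ∣ (p K).1.1 - q.1.1 := fun K => by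
    have := dvd_add ((pow_dvd_pow _ (Nat.le_succ K)).trans (hp K)) (dvd_mul_left (3 ^ K) e)
    rwa [show (p K).1.1 - (q.1.1 + e * 3 ^ K) + e * 3 ^ K = (p K).1.1 - q.1.1 by ring] at this
  have ht : Tendsto p atTop (𝓝 q) := by
    refine tendsto_subtype_rng.2 ((Prod.tendsto_iff _ _).2 ⟨?_, tendsto_pi_nhds.2 fun n => ?_⟩)
    · refine tendsto_iff_norm_sub_tendsto_zero.2 (squeeze_zero (fun _ => norm_nonneg _)
        (fun K => (dvd_norm _ _).1 (h0 K)) ?_)
      simp only [zpow_neg, zpow_natCast, ← inv_pow]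
      exact tendsto_pow_atTop_nhds_zero_of_lt_one (by norm_num) (by norm_num)
    · refine tendsto_const_nhds.congr' ?_
      by_cases hn : q.1.1 + n = 0
      · refine Eventually.of_forall fun K => ?_
        have h1 := hp K
        cases hq : q.1.2 n
        · have : e = -1 := if_neg fun ⟨n', h1, h2⟩ => by
            have : n' = n := by exact_mod_cast add_left_cancel (h1.trans hn.symm)
            rw [this, hq] at h2; exact absurd h2 (by simp)
          refine (((p K).2 n K).2 ?_).symm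
          rwa [this, show (p K).1.1 - (q.1.1 + -1 * 3 ^ K) = (p K).1.1 + n + 3 ^ K by
            linear_combination -hn] at h1
        · have : e = 1 := if_pos ⟨n, hn, hq⟩
          refine (((p K).2 n K).1 ?_).symm
          rwa [this, show (p K).1.1 - (q.1.1 + 1 * 3 ^ K) = (p K).1.1 + n - 3 ^ K by
            linear_combination -hn] at h1
      · obtain ⟨k, hk⟩ := low _ hn
        filter_upwards [eventually_ge_atTop (k + 1)] with K hK
        have h1 := (pow_dvd_pow _ hK).trans (h0 K)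
        rcases hk with hk | hk
        · rw [(q.2 n k).1 hk, ((p K).2 n k).1 ?_]
          convert dvd_add h1 hk using 1; ring
        · rw [(q.2 n k).2 hk, ((p K).2 n k).2 ?_]
          convert dvd_add h1 hk using 1; ring
  obtain ⟨K, hK⟩ := (ht.eventually hU).exists
  exact hpU K hK

noncomputable def μ0 : Measure ℤ_[3] := Measure.addHaarMeasure ⊤
instance : IsProbabilityMeasure μ0 := ⟨by
  have := Measure.addHaarMeasure_self (K₀ := (⊤ : TopologicalSpace.PositiveCompacts ℤ_[3]))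
  simpa [μ0] using this⟩
instance : μ0.IsAddHaarMeasure := Measure.isAddHaarMeasure_addHaarMeasure _

noncomputable def μ : Measure XX := μ0.map sec
instance : IsProbabilityMeasure μ := Measure.isProbabilityMeasure_map meas_sec.aemeasurable

lemma pres : MeasurePreserving TT μ μ := by
  refine ⟨TT.continuous.measurable, ?_⟩
  rw [μ, Measure.map_map TT.continuous.measurable meas_sec]
  have : TT ∘ sec = sec ∘ (fun z => z + 1) := funext fun z => by
    have := sh_sec 1 z
    rw [Int.cast_one] at this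
    exact this
  rw [this, ← Measure.map_map meas_sec (measurable_add_const 1), map_add_right_eq_self]

lemma cover (D : Set XX) (a b L : ℕ) [DecidablePred (· ∈ D)]
    (h : ∀ p, a ≤ b * ∑ j ∈ Finset.range L, if TT^[j] p ∈ D then 1 else 0) :
    (a : ENNReal) ≤ b * (L * μ D) := by
  have hm := measurableSet_toMeasurable μ D
  have h1 : ∀ p, (a : ENNReal) ≤
      b * ∑ j ∈ Finset.range L, (TT^[j] ⁻¹' toMeasurable μ D).indicator 1 p := fun p => by
    have h2 : (a : ENNReal) ≤ b * ∑ j ∈ Finset.range L, if TT^[j] p ∈ D then 1 else 0 := by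
      exact_mod_cast h p
    refine h2.trans ?_
    gcongr with j
    split_ifs with h3
    · rw [Set.indicator_of_mem (by exact subset_toMeasurable μ D h3)]; simp
    · simp
  have h2 := lintegral_mono (μ := μ) h1
  have hj : ∀ j, MeasurableSet (TT^[j] ⁻¹' toMeasurable μ D) := fun j =>
    (pres.iterate j).measurable hm
  rw [lintegral_const, measure_univ, mul_one, lintegral_const_mul' _ _ (by simp),
    lintegral_finsetSum _ fun j _ => measurable_one.indicator (hj j)] at h2
  simp only [lintegral_indicator_one (hj _),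
    (pres.iterate _).measure_preimage hm.nullMeasurableSet, measure_toMeasurable] at h2
  simpa using h2

def AA : Set XX := {p | p.1.2 0 = true}

lemma mem_AA (j : ℕ) (p : XX) : TT^[j] p ∈ AA ↔ p.1.2 j = true := by
  rw [TT_iter]; simp [AA, sh]

lemma ex (p : XX) : ∃ r : ℕ, 0 < r ∧ TT^[r] p ∈ AA := by
  refine ⟨(-p.1.1).appr 1 + 1, by omega, (mem_AA _ _).2 ((p.2 _ 0).1 ?_)⟩
  have := (appr_dvd 1 (-p.1.1)).neg_right
  convert this using 1
  push_cast; ring

open Classical in
noncomputable def rr (p : XX) : ℕ := Nat.find (ex p)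

lemma rr_spec (p : XX) : 0 < rr p ∧ TT^[rr p] p ∈ AA ∧ ∀ j, 0 < j → j < rr p → TT^[j] p ∉ AA := by
  classical
  exact ⟨(Nat.find_spec (ex p)).1, (Nat.find_spec (ex p)).2,
    fun j h1 h2 h3 => Nat.find_min (ex p) h2 ⟨h1, h3⟩⟩

noncomputable def SS (p : XX) : XX := TT^[rr p] p

noncomputable def Rn (p : XX) : ℕ → ℕ
  | 0 => 0
  | n + 1 => Rn p n + rr (SS^[n] p)

lemma SS_iter (p : XX) (n : ℕ) : SS^[n] p = TT^[Rn p n] p := by
  induction n with
  | zero => rfl
  | succ n ih =>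
    rw [Function.iterate_succ_apply', Rn, add_comm, Function.iterate_add_apply, ← ih]; rfl

lemma Rn_spec (p : XX) (hp : p ∈ AA) (n : ℕ) :
    C (fun j => p.1.2 j) (Rn p n) = n ∧ TT^[Rn p n] p ∈ AA := by
  induction n with
  | zero => exact ⟨rfl, hp⟩
  | succ n ih =>
    obtain ⟨h1, h2, h3⟩ := rr_spec (SS^[n] p)
    refine ⟨?_, by rw [← SS_iter, Function.iterate_succ_apply']; exact h2⟩
    obtain ⟨r, hr⟩ : ∃ r, rr (SS^[n] p) = 1 + r := ⟨rr (SS^[n] p) - 1, by omega⟩
    rw [Rn, hr, ← add_assoc, C, Finset.sum_range_add]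
    change C (fun j => p.1.2 j) (Rn p n + 1) + _ = _
    rw [C_succ, ih.1, (mem_AA _ _).1 ih.2, if_pos rfl, Finset.sum_eq_zero]
    · rfl
    intro j hj
    have := h3 (1 + j) (by omega) (by have := Finset.mem_range.1 hj; omega)
    rw [SS_iter, ← Function.iterate_add_apply, mem_AA] at this
    rw [if_neg]
    rwa [show Rn p n + 1 + j = 1 + j + Rn p n by ring]

lemma lower (n : ℕ) (hn : 0 < n) : 1 ≤ 18 * μ {p | p ∈ AA ∧ ¬ 9 ∣ Rn p n} := by
  classical
  have hK : 3 * n < 3 ^ (n + 1) := by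
    have := Nat.lt_pow_self (show 1 < 3 by norm_num) (n := n)
    rw [pow_succ]; omega
  have := cover {p | p ∈ AA ∧ ¬ 9 ∣ Rn p n} (3 ^ (n + 1)) 9 (2 * 3 ^ (n + 1)) fun p => by
    set j0 := (-p.1.1).appr (n + 1) with hj0
    have h1 : j0 < 3 ^ (n + 1) := PadicInt.appr_lt _ _
    have h2 : (3 : ℤ_[3]) ^ (n + 1) ∣ p.1.1 + j0 := by
      convert (appr_dvd (n + 1) (-p.1.1)).neg_right using 1; ring
    have hg : Good (n + 1) (fun i => p.1.2 ((j0 + i : ℕ) : ℤ)) := fun k hk i => by
      have h3 := (pow_dvd_pow _ (show k + 1 ≤ n + 1 from hk)).trans h2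
      have h4 : ((i : ℕ) : ℤ_[3]) = 3 ^ (k + 1) * (i / 3 ^ (k + 1) : ℕ) + (i % 3 ^ (k + 1) : ℕ) := by
        exact_mod_cast congrArg (Nat.cast (R := ℤ_[3])) (Nat.div_add_mod i (3 ^ (k + 1))).symm
      refine ⟨fun e => (p.2 _ k).1 ?_, fun e => (p.2 _ k).2 ?_⟩
      · rw [e] at h4
        convert dvd_add h3 (dvd_mul_right _ ((i / 3 ^ (k + 1) : ℕ) : ℤ_[3])) using 1
        push_cast at h4 ⊢; linear_combination h4
      · rw [e] at h4
        convert dvd_add h3 (dvd_mul_right _ (((i / 3 ^ (k + 1) : ℕ) : ℤ_[3]) + 1)) using 1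
        push_cast at h4 ⊢; linear_combination h4
    have h5 := core hg n hn hK (fun i => Rn (TT^[j0 + i] p) n) fun i hi => by
      obtain ⟨a, b⟩ := Rn_spec (TT^[j0 + i] p) ((mem_AA _ _).2 hi) n
      rw [← Function.iterate_add_apply, mem_AA] at b
      refine ⟨?_, by rw [← b]; congr 2; ring_nf⟩
      rw [C, Finset.sum_range_add]
      congr 1
      refine Eq.trans (Finset.sum_congr rfl fun t _ => ?_) a
      rw [TT_iter]; simp only [sh]; congr 3; push_cast; ring_nf
    refine h5.trans (Nat.mul_le_mul_left _ ?_)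
    rw [show 2 * 3 ^ (n + 1) = j0 + 3 ^ (n + 1) + (3 ^ (n + 1) - j0) by omega,
      Finset.sum_range_add, Finset.sum_range_add]
    refine le_trans (le_of_eq ?_) ((Nat.le_add_left _ _).trans (Nat.le_add_right _ _))
    refine Finset.sum_congr rfl fun t _ => ?_
    simp [mem_AA]
  have h3 : ((3 ^ (n + 1) : ℕ) : ENNReal) ≠ 0 := by simp
  refine (ENNReal.mul_le_mul_iff_right h3 (by simp)).1 ?_
  rw [mul_one]
  refine this.trans (le_of_eq ?_)
  push_cast; ring


/-- The negation of the preceding statement: For every minimal homeomorphism of a Cantor space with an invariant probability measure that is rigid, and every clopen set of positive measure, the first return map on that set is rigid for the restricted measure. -/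
theorem result :
    ¬ (∀ (X : Type) [TopologicalSpace X] [CompactSpace X] [TopologicalSpace.MetrizableSpace X]
      [TotallyDisconnectedSpace X] [MeasurableSpace X] [BorelSpace X],
      (∀ x : X, (𝓝[≠] x).NeBot) →
      ∀ (T : X ≃ₜ X) (μ : MeasureTheory.Measure X),
        MeasureTheory.IsProbabilityMeasure μ →
        MeasureTheory.MeasurePreserving (⇑T) μ μ →
        (∀ x : X, Dense {y : X | ∃ n : ℕ, (⇑T)^[n] x = y ∨ (⇑T.symm)^[n] x = y}) →
        (∃ n : ℕ → ℕ, StrictMono n ∧ (∀ k, 0 < n k) ∧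
          ∀ B : Set X, MeasurableSet B →
            Tendsto (fun k => μ (((⇑T)^[n k] ⁻¹' B) ∆ B)) atTop (𝓝 0)) →
        ∀ A : Set X, IsClopen A → μ A ≠ 0 →
          ∀ S : X → X,
            (∀ x ∈ A, ∃ r : ℕ, 0 < r ∧ S x = (⇑T)^[r] x ∧ (⇑T)^[r] x ∈ A ∧
              ∀ j : ℕ, 0 < j → j < r → (⇑T)^[j] x ∉ A) →
            ∃ n : ℕ → ℕ, StrictMono n ∧ (∀ k, 0 < n k) ∧
              ∀ B : Set X, MeasurableSet B → B ⊆ A →
                Tendsto (fun k => μ ((A ∩ S^[n k] ⁻¹' B) ∆ B)) atTop (𝓝 0)) := by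
  intro H
  have hA : IsClopen AA := (isClopen_discrete {true}).preimage
    (f := fun p : XX => p.1.2 0) (by fun_prop)
  have h1 : ∀ q : XX, (𝓝[≠] q).NeBot := fun q => by
    refine mem_closure_iff_nhdsWithin_neBot.1 (mem_closure_iff_nhds.2 fun U hU => ?_)
    obtain ⟨w, K, h⟩ := nbhd q U hU
    by_cases e : sec w = q
    · refine ⟨sec (w + 3 ^ K), h _ (by simp [sec]), fun e' => ?_⟩
      have := congrArg (fun p : XX => p.1.1) (e'.trans e.symm)
      simp [sec] at this
    · exact ⟨sec w, h _ (by simp [sec]), e⟩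
  have h2 : ∀ x : XX, Dense {y | ∃ n : ℕ, TT^[n] x = y ∨ TT.symm^[n] x = y} := fun x q => by
    refine mem_closure_iff_nhds.2 fun U hU => ?_
    obtain ⟨w, K, h⟩ := nbhd q U hU
    refine ⟨TT^[(w - x.1.1).appr K] x, h _ ?_, _, Or.inl rfl⟩
    rw [TT_iter]
    convert (appr_dvd K (w - x.1.1)).neg_right using 1
    simp only [sh]; push_cast; ring
  have h3 : ∀ B : Set XX, MeasurableSet B →
      Tendsto (fun k => μ ((TT^[3 ^ k] ⁻¹' B) ∆ B)) atTop (𝓝 0) := fun B hB => by
    have t0 : Tendsto (fun k : ℕ => (3 : ℤ_[3]) ^ k) atTop (𝓝 0) :=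
      tendsto_pow_atTop_nhds_zero_of_norm_lt_one (by
        have := PadicInt.norm_p (p := 3)
        simp only [Nat.cast_ofNat] at this
        rw [this]; norm_num)
    have t1 : Tendsto (fun k : ℕ => ContinuousMap.id ℤ_[3] + ContinuousMap.const ℤ_[3] (3 ^ k))
        atTop (𝓝 (ContinuousMap.id ℤ_[3] + ContinuousMap.const ℤ_[3] 0)) :=
      tendsto_const_nhds.add ((ContinuousMap.continuous_const'.tendsto 0).comp t0)
    have t2 := tendsto_measure_symmDiff_preimage_nhds_zero (μ := μ0) (ν := μ0) t1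
      (Eventually.of_forall fun k => measurePreserving_add_right μ0 (3 ^ k))
      (measurePreserving_add_right μ0 0) (meas_sec hB).nullMeasurableSet (measure_ne_top _ _)
    refine t2.congr fun k => ?_
    rw [μ, Measure.map_apply meas_sec (((pres.iterate _).measurable hB).symmDiff hB),
      Set.preimage_symmDiff]
    congr 2
    · ext z; simp [TT_iter, sh_sec]
    · ext z; simp
  have h4 : μ AA ≠ 0 := fun e => by
    have := lower 1 one_pos
    rw [measure_mono_null (fun p hp => hp.1) e] at this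
    simp at this
  obtain ⟨n, -, hn, h⟩ := H XX h1 TT μ inferInstance pres h2
    ⟨fun k => 3 ^ k, pow_right_strictMono₀ (by norm_num), fun k => by positivity, h3⟩ AA hA h4 SS
    fun x _ => ⟨rr x, (rr_spec x).1, rfl, (rr_spec x).2⟩
  let B : ℕ → Set XX := fun c => AA ∩ {p | (3 : ℤ_[3]) ^ 2 ∣ p.1.1 - c}
  have hB : ∀ c, MeasurableSet (B c) := fun c => hA.isOpen.measurableSet.inter
    ((clopen_dvd 2).isOpen.preimage (f := fun p : XX => p.1.1 - c) (by fun_prop)).measurableSet
  have t1 := tendsto_finsetSum (Finset.range 9) fun c _ => h (B c) (hB c) Set.inter_subset_left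
  have t2 := ENNReal.Tendsto.const_mul (a := 18) t1 (Or.inr (by simp))
  simp only [Finset.sum_const_zero, mul_zero] at t2
  refine absurd (ge_of_tendsto' t2 fun k => (lower (n k) (hn k)).trans ?_) (by simp)
  gcongr
  refine le_trans (measure_mono ?_) (measure_biUnion_finset_le _ _)
  rintro p ⟨hp, hp'⟩
  refine Set.mem_biUnion (Finset.mem_range.2 (PadicInt.appr_lt p.1.1 2))
    (Or.inr ⟨⟨hp, appr_dvd 2 p.1.1⟩, fun hh => hp' ?_⟩)
  have e := hh.2.2
  simp only [Set.mem_ofPred_eq, SS_iter, TT_iter, sh] at e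
  have e2 := dvd_sub e (appr_dvd 2 p.1.1)
  rw [show ∀ a b c : ℤ_[3], a + b - c - (a - c) = b from fun a b c => by ring, dvd_int] at e2
  exact_mod_cast e2

end Pool.Agent.S03998
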