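import Pool.Statements.S04003
import Pool.Agent.Lib.helper27.SmoothSep

set_option autoImplicit false
open Pool Pool.MP_1e94b9_an

namespace Pool.Agent.S04003

open Pool.Agent.Lib.helper27.Smooth Set Filter Topology MeasureTheory

section
variable {X : Type} [NormedAddCommGroup X] [NormedSpace ℝ X]

theorem app_le (g : X →L[ℝ] ℝ) (c : ℝ) (hg : ‖g‖ ≤ c) (v : X) : g v ≤ c * ‖v‖ := by
  have := g.le_opNorm v
  have h6 := le_abs_self (g v)
  rw [Real.norm_eq_abs] at this
  nlinarith [norm_nonneg v]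

theorem helly (φ : (X →L[ℝ] ℝ) →L[ℝ] ℝ) (hφ : ‖φ‖ ≤ 1) {ι : Type} [Finite ι]
    (f : ι → X →L[ℝ] ℝ) (η : ℝ) (hη : 0 < η) :
    ∃ x : X, ‖x‖ ≤ 1 ∧ ∀ i, |f i x - φ (f i)| < η := by
  classical
  haveI := Fintype.ofFinite ι
  let R : X →L[ℝ] (ι → ℝ) := ContinuousLinearMap.pi f
  have hp : (fun i => φ (f i)) ∈ closure (R '' Metric.closedBall 0 1) := by
    by_contra hcon
    obtain ⟨L, u, h1, h2⟩ := geometric_hahn_banach_closed_point
      ((convex_closedBall (0 : X) 1).linear_image R.toLinearMap).closure isClosed_closure hcon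
    have hL : ∀ a : ι → ℝ, L a = ∑ i, a i * L (Pi.single i 1) := by
      intro a
      conv_lhs => rw [pi_eq_sum_univ' a]
      simp [map_sum]
    have h3 : L.comp R = ∑ i, L (Pi.single i 1) • f i := by
      ext x
      rw [ContinuousLinearMap.comp_apply, hL (R x)]
      simp [R, mul_comm]
    have hu : 0 < u := by simpa using h1 0 (subset_closure ⟨0, by simp, by simp⟩)
    have h4 : ‖L.comp R‖ ≤ u := by
      refine ContinuousLinearMap.opNorm_le_of_unit_norm hu.le fun x hx => ?_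
      have a1 := h1 _ (subset_closure ⟨x, by simp [hx], rfl⟩)
      have a2 := h1 _ (subset_closure ⟨-x, by simp [hx], rfl⟩)
      rw [Real.norm_eq_abs, abs_le]
      have a3 : L (R (-x)) = -L (R x) := by rw [map_neg, map_neg]
      have a4 : L (R (-x)) < u := a2
      have a5 : L (R x) < u := a1
      show -u ≤ L (R x) ∧ L (R x) ≤ u
      constructor <;> linarith
    have h5 : φ (L.comp R) = L fun i => φ (f i) := by
      rw [h3, hL, map_sum]
      simp [mul_comm]
    have h6 := app_le φ 1 hφ (L.comp R)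
    linarith
  obtain ⟨_, ⟨x, hx, rfl⟩, h⟩ := Metric.mem_closure_iff.mp hp η hη
  refine ⟨x, by simpa using hx, fun i => ?_⟩
  have := (dist_pi_lt_iff hη).mp h i
  rwa [Real.dist_eq, abs_sub_comm] at this

variable (T : Om → X →L[ℝ] ℝ) (hm : ∀ v, Measurable fun ω => T ω v) (h1 : ∀ ω, ‖T ω‖ ≤ 1)
include hm h1

theorem intT (v : X) : Integrable (fun ω => T ω v) mu :=
  Integrable.of_bound (hm v).aestronglyMeasurable ‖v‖ (Filter.Eventually.of_forall fun ω => by
    have := (T ω).le_opNorm v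
    nlinarith [h1 ω, norm_nonneg v])

noncomputable def GA (A : Set Om) : X →L[ℝ] ℝ :=
  LinearMap.mkContinuous
    { toFun := fun v => ∫ ω in A, T ω v ∂mu
      map_add' := fun a b => by
        simp only [map_add]
        exact integral_add (intT T hm h1 a).integrableOn (intT T hm h1 b).integrableOn
      map_smul' := fun c a => by
        simp only [map_smul, RingHom.id_apply]
        exact integral_smul _ _ } (mu.real A) (fun v => by
    have := norm_setIntegral_le_of_norm_le_const (μ := mu) (s := A) (f := fun ω => T ω v)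
      (C := ‖v‖) (measure_lt_top _ _) (fun ω _ => by
        have := (T ω).le_opNorm v
        nlinarith [h1 ω, norm_nonneg v])
    rw [mul_comm] at this
    exact this)

theorem GA_apply (A : Set Om) (v : X) : GA T hm h1 A v = ∫ ω in A, T ω v ∂mu := rfl

theorem GA_norm (A : Set Om) : ‖GA T hm h1 A‖ ≤ mu.real A :=
  LinearMap.mkContinuous_norm_le _ measureReal_nonneg _

theorem GA_sum (A : ℕ → Set Om) (hA : ∀ i, MeasurableSet (A i))
    (hd : Pairwise (Function.onFun Disjoint A)) :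
    HasSum (fun i => GA T hm h1 (A i)) (GA T hm h1 (⋃ i, A i)) ∧
    HasSum (fun i => mu.real (A i)) (mu.real (⋃ i, A i)) := by
  have h2 : HasSum (fun i => mu.real (A i)) (mu.real (⋃ i, A i)) := by
    simpa using hasSum_integral_iUnion (μ := mu) (f := fun _ => (1 : ℝ)) hA hd
      (integrable_const _).integrableOn
  refine ⟨?_, h2⟩
  have h3 : ∀ F : Finset ℕ, ‖∑ i ∈ F, GA T hm h1 (A i) - GA T hm h1 (⋃ i, A i)‖ ≤
      mu.real (⋃ i, A i) - ∑ i ∈ F, mu.real (A i) := by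
    intro F
    refine norm_le_of_le _ _ (sub_nonneg.mpr (sum_le_hasSum F (fun _ _ => measureReal_nonneg) h2))
      fun v => ?_
    have hi : Integrable (fun ω => ‖v‖ + T ω v) mu := (integrable_const _).add (intT T hm h1 v)
    have h4 := sum_le_hasSum F (fun i _ => setIntegral_nonneg (hA i) fun ω _ => by
      have := app_le (T ω) 1 (h1 ω) (-v)
      rw [map_neg, norm_neg] at this
      linarith) (hasSum_integral_iUnion (μ := mu) hA hd hi.integrableOn)
    have h5 : ∀ B : Set Om, ∫ ω in B, (‖v‖ + T ω v) ∂mu = mu.real B * ‖v‖ + GA T hm h1 B v := by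
      intro B
      rw [integral_add (integrable_const _) (intT T hm h1 v).integrableOn, GA_apply]
      simp
    simp only [h5, Finset.sum_add_distrib, ← Finset.sum_mul] at h4
    rw [sub_apply, sum_apply]
    linarith
  have h6 : Tendsto (fun F : Finset ℕ => mu.real (⋃ i, A i) - ∑ i ∈ F, mu.real (A i)) atTop
      (𝓝 0) := by
    have h7 : Tendsto (fun F : Finset ℕ => ∑ i ∈ F, mu.real (A i)) atTop (𝓝 _) := h2
    simpa using h7.const_sub (mu.real (⋃ i, A i))
  exact tendsto_iff_norm_sub_tendsto_zero.mpr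
    (squeeze_zero (fun _ => norm_nonneg _) h3 h6)

theorem hered (φ : (X →L[ℝ] ℝ) →L[ℝ] ℝ) (β : ℝ) (hβ : β < φ (GA T hm h1 univ)) :
    ∃ E : Set Om, MeasurableSet E ∧ mu E ≠ 0 ∧
      ∀ A, MeasurableSet A → A ⊆ E → β * mu.real A ≤ φ (GA T hm h1 A) := by
  classical
  let s : SignedMeasure Om :=
    { measureOf' := fun A => if MeasurableSet A then φ (GA T hm h1 A) - β * mu.real A else 0
      empty' := by
        have : GA T hm h1 ∅ = 0 := by ext v; simp [GA_apply]
        simp [this]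
      not_measurable' := fun A hA => if_neg hA
      m_iUnion' := fun A hA hd => by
        simp only [hA, MeasurableSet.iUnion hA, if_true]
        obtain ⟨a, b⟩ := GA_sum T hm h1 A hA hd
        exact (φ.hasSum a).sub (b.mul_left β) }
  have hs : ∀ A, MeasurableSet A → s A = φ (GA T hm h1 A) - β * mu.real A := fun A hA => if_pos hA
  obtain ⟨E, hE, hp, hn⟩ := s.exists_compl_positive_negative
  refine ⟨E, hE, fun h0 => ?_, fun A hA hAE => ?_⟩
  · have e1 := s.of_union disjoint_compl_right hE hE.compl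
    rw [union_compl_self, hs _ MeasurableSet.univ, hs _ hE] at e1
    have e2 := VectorMeasure.nonpos_of_restrict_le_zero _ hn
    have e3 : mu.real E = 0 := by simp [Measure.real, h0]
    have e4 : GA T hm h1 E = 0 := norm_le_zero_iff.mp (e3 ▸ GA_norm T hm h1 E)
    rw [e3, e4] at e1
    simp at e1
    linarith
  · have := VectorMeasure.subset_le_of_restrict_le_restrict _ _ hE hp hAE
    rw [hs _ hA] at this
    simpa using this

omit h1 in
theorem good [TopologicalSpace.SeparableSpace X] (h1 : ∀ ω, ‖T ω‖ ≤ 1) (P : Om → Prop)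
    (hP : ∀ᵐ ω ∂mu, P ω) (A : Set Om) (hA : mu A ≠ 0) :
    ∃ ω, P ω ∧ ∀ x a, T ω x < a → mu (A ∩ {ω' | T ω' x < a}) ≠ 0 := by
  let u := TopologicalSpace.denseSeq X
  have h2 : ∀ p : ℕ × ℚ, ∀ᵐ ω ∂mu, mu (A ∩ {ω' | T ω' (u p.1) < p.2}) = 0 →
      ω ∉ A ∩ {ω' | T ω' (u p.1) < p.2} := by
    intro p
    by_cases h : mu (A ∩ {ω' | T ω' (u p.1) < p.2}) = 0
    · filter_upwards [measure_eq_zero_iff_ae_notMem.mp h] with ω hω _ using hω
    · exact Filter.Eventually.of_forall fun ω h' => (h h').elim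
  obtain ⟨ω, hωA, hω1, hω2⟩ := Measure.exists_mem_of_measure_ne_zero_of_ae hA
    (ae_restrict_of_ae (hP.and (ae_all_iff.mpr h2)))
  refine ⟨ω, hω1, fun x a hxa h0 => ?_⟩
  obtain ⟨k, hk⟩ := (TopologicalSpace.denseRange_denseSeq X).exists_dist_lt x
    (show 0 < (a - T ω x) / 3 by linarith)
  rw [dist_eq_norm] at hk
  obtain ⟨q, hq1, hq2⟩ := exists_rat_btwn
    (show T ω x + (a - T ω x) / 3 < a - (a - T ω x) / 3 by linarith)
  refine hω2 (k, q) (measure_mono_null (fun ω' hω' => ?_) h0) ⟨hωA, ?_⟩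
  · refine ⟨hω'.1, ?_⟩
    have e1 := app_le (T ω') 1 (h1 ω') (x - u k)
    rw [map_sub] at e1
    have e2 : T ω' (u k) < q := hω'.2
    show T ω' x < a
    linarith
  · have e1 := app_le (T ω) 1 (h1 ω) (u k - x)
    rw [map_sub, norm_sub_rev] at e1
    show T ω (u k) < q
    linarith

def cut (r δ : ℝ) (x : X) (b : Bool) : Set Om :=
  if b then {ω | r + 2 * δ < T ω x} else {ω | T ω x < r + δ}

omit h1 in
theorem cut_meas (r δ : ℝ) (x : X) (b : Bool) : MeasurableSet (cut T r δ x b) := by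
  cases b
  · exact measurableSet_lt (hm x) measurable_const
  · exact measurableSet_lt measurable_const (hm x)

theorem step [TopologicalSpace.SeparableSpace X] (φ : (X →L[ℝ] ℝ) →L[ℝ] ℝ) (hφ : ‖φ‖ ≤ 1)
    (r δ : ℝ) (hδ : 0 < δ) (hP : ∀ᵐ ω ∂mu, φ (T ω) ≤ r) (S : Set (Set Om)) (hS : S.Finite)
    (hS2 : ∀ A ∈ S, MeasurableSet A ∧ mu A ≠ 0 ∧
      (r + 3 * δ) * mu.real A ≤ φ (GA T hm h1 A)) :
    ∃ x : X, ‖x‖ ≤ 1 ∧ ∀ A ∈ S, ∀ b, mu (A ∩ cut T r δ x b) ≠ 0 := by
  haveI : Finite S := hS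
  choose w hw1 hw2 using fun A : S => good T hm h1 _ hP A.1 (hS2 A.1 A.2).2.1
  obtain ⟨x, hx, H⟩ := helly φ hφ (ι := S ⊕ S)
    (Sum.elim (fun A => T (w A)) fun A => (mu.real A.1)⁻¹ • GA T hm h1 A.1) δ hδ
  refine ⟨x, hx, fun A hA b => ?_⟩
  cases b
  · have e1 := (abs_lt.mp (H (Sum.inl ⟨A, hA⟩))).2
    simp only [Sum.elim_inl] at e1
    exact hw2 ⟨A, hA⟩ x (r + δ) (by linarith [hw1 ⟨A, hA⟩])
  · intro h0
    obtain ⟨a1, a2, a3⟩ := hS2 A hA
    have hpos : 0 < mu.real A := ENNReal.toReal_pos a2 (measure_ne_top _ _)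
    have e1 := (abs_lt.mp (H (Sum.inr ⟨A, hA⟩))).1
    simp only [Sum.elim_inr, map_smul, smul_apply, smul_eq_mul] at e1
    have e2 : GA T hm h1 A x ≤ ∫ _ in A, (r + 2 * δ) ∂mu := by
      rw [GA_apply]
      refine setIntegral_mono_ae_restrict (intT T hm h1 x).integrableOn
        (integrable_const _).integrableOn ?_
      rw [EventuallyLE, ae_restrict_iff' a1]
      filter_upwards [measure_eq_zero_iff_ae_notMem.mp h0] with ω hω hωA
      by_contra hc
      exact hω ⟨hωA, not_le.mp hc⟩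
    simp only [integral_const, measureReal_restrict_apply_univ, smul_eq_mul] at e2
    have e3 : (mu.real A)⁻¹ * GA T hm h1 A x ≤ r + 2 * δ := by
      rw [inv_mul_le_iff₀ hpos]; exact e2
    have e4 : r + 3 * δ ≤ (mu.real A)⁻¹ * φ (GA T hm h1 A) := by
      rw [le_inv_mul_iff₀ hpos]; linarith
    linarith

theorem indep [TopologicalSpace.SeparableSpace X] (φ : (X →L[ℝ] ℝ) →L[ℝ] ℝ) (hφ : ‖φ‖ ≤ 1)
    (r δ : ℝ) (hδ : 0 < δ) (hP : ∀ᵐ ω ∂mu, φ (T ω) ≤ r)
    (hβ : r + 3 * δ < φ (GA T hm h1 univ)) :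
    ∃ x : ℕ → X, (∀ n, ‖x n‖ ≤ 1) ∧
      ∀ (σ : ℕ → Bool) (n : ℕ), ∃ ω, ∀ k < n, ω ∈ cut T r δ (x k) (σ k) := by
  obtain ⟨E, hE, hE0, hEh⟩ := hered T hm h1 φ _ hβ
  let P := Subtype fun S : Set (Set Om) => S.Finite ∧ ∀ A ∈ S, MeasurableSet A ∧ mu A ≠ 0 ∧ A ⊆ E
  choose g hg1 hg2 using fun S : P => step T hm h1 φ hφ r δ hδ hP S.1 S.2.1
    fun A hA => ⟨(S.2.2 A hA).1, (S.2.2 A hA).2.1, hEh A (S.2.2 A hA).1 (S.2.2 A hA).2.2⟩
  let nx : P → P := fun S => ⟨Set.image2 (fun A b => A ∩ cut T r δ (g S) b) S.1 univ,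
    S.2.1.image2 _ finite_univ, by
      rintro _ ⟨A, hA, b, -, rfl⟩
      exact ⟨(S.2.2 A hA).1.inter (cut_meas T hm _ _ _ _), hg2 S A hA b,
        inter_subset_left.trans (S.2.2 A hA).2.2⟩⟩
  let S : ℕ → P := fun n => Nat.rec ⟨{E}, finite_singleton _, by
    rintro _ rfl; exact ⟨hE, hE0, subset_rfl⟩⟩ (fun _ S => nx S) n
  refine ⟨fun n => g (S n), fun n => hg1 _, fun σ n => ?_⟩
  have key : ∃ A ∈ (S n).1, ∀ ω ∈ A, ∀ k < n, ω ∈ cut T r δ (g (S k)) (σ k) := by
    induction n with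
    | zero => exact ⟨E, rfl, fun _ _ k hk => absurd hk (Nat.not_lt_zero k)⟩
    | succ n ih =>
      obtain ⟨A, hA, H⟩ := ih
      refine ⟨A ∩ cut T r δ (g (S n)) (σ n), ⟨A, hA, σ n, mem_univ _, rfl⟩, fun ω hω k hk => ?_⟩
      rcases Nat.lt_succ_iff_lt_or_eq.mp hk with h | rfl
      · exact H ω hω.1 k h
      · exact hω.2
  obtain ⟨A, hA, H⟩ := key
  obtain ⟨ω, hω⟩ := nonempty_of_measure_ne_zero ((S n).2.2 A hA).2.1
  exact ⟨ω, H ω hω⟩

omit hm in
theorem emb [CompleteSpace X] (r δ : ℝ) (hδ : 0 < δ) (x : ℕ → X) (hx : ∀ n, ‖x n‖ ≤ 1)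
    (H : ∀ (σ : ℕ → Bool) (n : ℕ), ∃ ω, ∀ k < n, ω ∈ cut T r δ (x k) (σ k)) :
    ∃ S : (lp (fun _ : ℕ => ℝ) 1) →L[ℝ] X, ∃ c : ℝ, 0 < c ∧ ∀ a, c * ‖a‖ ≤ ‖S a‖ := by
  classical
  let S : (lp (fun _ : ℕ => ℝ) 1) →L[ℝ] X := (lp.tsumCLM ℝ ℕ X).comp
    (lp.mapCLM 1 (fun n => ContinuousLinearMap.toSpanSingleton ℝ (x n)) zero_le_one
      (fun n => by rw [ContinuousLinearMap.norm_toSpanSingleton]; exact hx n))
  refine ⟨S, δ / 2, by positivity, fun a => ?_⟩
  have hn : HasSum (fun n => ‖a n‖) ‖a‖ := by simpa using lp.hasSum_norm (p := 1) (by simp) a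
  have hs : HasSum (fun n => a n • x n) (S a) := by
    refine Summable.hasSum (Summable.of_norm_bounded hn.summable fun n => ?_)
    rw [norm_smul]
    nlinarith [hx n, norm_nonneg (a n)]
  refine le_of_tendsto_of_tendsto' (hn.tendsto_sum_nat.const_mul (δ / 2))
    hs.tendsto_sum_nat.norm fun n => ?_
  obtain ⟨ω, hω⟩ := H (fun k => decide (0 ≤ a k)) n
  obtain ⟨ω', hω'⟩ := H (fun k => !decide (0 ≤ a k)) n
  have e1 := app_le (T ω) 1 (h1 ω) (∑ i ∈ Finset.range n, a i • x i)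
  have e2 := app_le (T ω') 1 (h1 ω') (-∑ i ∈ Finset.range n, a i • x i)
  rw [map_neg, norm_neg] at e2
  have e3 : δ * ∑ i ∈ Finset.range n, ‖a i‖ ≤ T ω (∑ i ∈ Finset.range n, a i • x i) -
      T ω' (∑ i ∈ Finset.range n, a i • x i) := by
    rw [map_sum, map_sum, ← Finset.sum_sub_distrib, Finset.mul_sum]
    refine Finset.sum_le_sum fun k hk => ?_
    have b1 := hω k (Finset.mem_range.mp hk)
    have b2 := hω' k (Finset.mem_range.mp hk)
    rw [map_smul, map_smul, smul_eq_mul, smul_eq_mul, Real.norm_eq_abs]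
    by_cases hk0 : 0 ≤ a k
    · simp only [cut, hk0, decide_true, if_true, Bool.not_true, Bool.false_eq_true, if_false,
        mem_ofPred_eq] at b1 b2
      rw [abs_of_nonneg hk0]; nlinarith
    · simp only [cut, hk0, decide_false, if_true, Bool.not_false, Bool.false_eq_true, if_false,
        mem_ofPred_eq] at b1 b2
      rw [abs_of_neg (not_le.mp hk0)]; nlinarith
  linarith

end


/-- For every separable real Banach space with no subspace isomorphic to ℓ¹, the norm closure of the convex hull of the weak*-exposed points of the dual unit ball is the whole dual unit ball. -/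
theorem result :
    ∀ (X : Type) [NormedAddCommGroup X] [NormedSpace ℝ X] [CompleteSpace X]
      [TopologicalSpace.SeparableSpace X],
      (¬ ∃ T : (lp (fun _ : ℕ => ℝ) 1) →L[ℝ] X, ∃ c : ℝ, 0 < c ∧ ∀ a, c * ‖a‖ ≤ ‖T a‖) →
      closure (convexHull ℝ
        {f : X →L[ℝ] ℝ | f ∈ Metric.closedBall (0 : X →L[ℝ] ℝ) 1 ∧
          ∃ x : X, ∀ g ∈ Metric.closedBall (0 : X →L[ℝ] ℝ) 1, g ≠ f → g x < f x})
        = Metric.closedBall (0 : X →L[ℝ] ℝ) 1 := by
  intro X _ _ _ _ hno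
  refine Subset.antisymm (closure_minimal (convexHull_min (fun f hf => hf.1)
    (convex_closedBall _ _)) Metric.isClosed_closedBall) fun f hf => ?_
  by_contra hcon
  obtain ⟨ψ, u, hψ1, hψ2⟩ := geometric_hahn_banach_closed_point
    (convex_convexHull ℝ _).closure isClosed_closure hcon
  let c : ℝ := (‖ψ‖ + 1)⁻¹
  have hc : 0 < c := by positivity
  have hφ : ‖c • ψ‖ ≤ 1 := by
    refine (ContinuousLinearMap.opNorm_smul_le c ψ).trans ?_
    rw [Real.norm_eq_abs, abs_of_pos hc, inv_mul_le_iff₀ (by positivity)]; linarith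
  let δ : ℝ := (c * ψ f - c * u) / 5
  have hδ : 0 < δ := by
    have := mul_lt_mul_of_pos_left hψ2 hc
    simp only [δ]; linarith
  obtain ⟨T, hm, h1, hG, hT⟩ := core f (mem_closedBall_zero_iff.mp hf) δ hδ
  have hP : ∀ᵐ ω ∂mu, (c • ψ) (T ω) ≤ c * u := by
    filter_upwards [hG] with ω ⟨y, hy⟩
    refine mul_le_mul_of_nonneg_left (hψ1 _ (subset_closure (subset_convexHull _ _
      ⟨mem_closedBall_zero_iff.mpr hy.1, y, fun g hg hne => ?_⟩))).le hc.le
    have hg1 := mem_closedBall_zero_iff.mp hg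
    have e1 := app_le g 1 hg1 y
    rw [hy.2.1]
    refine lt_of_le_of_ne (by linarith) fun h => hne ?_
    ext v
    exact (supp_eq y v g hg1 h _ (hy.2.2 v)).symm
  have hβ : c * u + 3 * δ < (c • ψ) (GA T hm h1 univ) := by
    have e1 : ‖f - GA T hm h1 univ‖ ≤ δ := by
      refine norm_le_of_le _ _ hδ.le fun v => ?_
      rw [sub_apply, GA_apply, Measure.restrict_univ]
      linarith [hT v]
    have e2 := app_le (c • ψ) 1 hφ (f - GA T hm h1 univ)
    rw [map_sub] at e2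
    have e3 : (c • ψ) f = c * ψ f := rfl
    have e4 : 5 * δ = c * ψ f - c * u := by simp only [δ]; ring
    linarith
  obtain ⟨x, hx, H⟩ := indep T hm h1 (c • ψ) hφ (c * u) δ hδ hP hβ
  exact hno (emb T h1 _ δ hδ x hx H)

end Pool.Agent.S04003
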