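import Pool.Statements.S04016
import Pool.Agent.Lib.helper28.RittA

set_option autoImplicit false
open Pool Pool.MP_1fc4c0_an

namespace H28Ritt

open Finset

/-- projection of formal integer combinations -/
noncomputable def pr : (ℕ →₀ ℤ) →ₗ[ℤ] ℤ := Finsupp.linearCombination ℤ N

def Box (y : ℕ →₀ ℤ) (r : ℕ) : Prop := (∀ k, |y k| ≤ r) ∧ y.support.card ≤ r

theorem Box.mono {y : ℕ →₀ ℤ} {r s : ℕ} (h : Box y r) (hrs : r ≤ s) : Box y s :=
  ⟨fun k => (h.1 k).trans (by exact_mod_cast hrs), h.2.trans hrs⟩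

theorem Box.step {y : ℕ →₀ ℤ} {r : ℕ} (h : Box y r) (k : ℕ) (e : ℤ) (he : |e| ≤ 1) :
    Box (y + Finsupp.single k e) (r + 1) := by
  refine ⟨fun l => ?_, ?_⟩
  · rw [Finsupp.add_apply]
    have h1 := h.1 l
    have h2 : |Finsupp.single k e l| ≤ 1 := by
      rw [Finsupp.single_apply]; split_ifs <;> simp [he]
    have := abs_add_le (y l) (Finsupp.single k e l)
    push_cast; linarith
  · have h1 : (y + Finsupp.single k e).support ⊆ y.support ∪ {k} :=
      Finsupp.support_add.trans (union_subset_union (Subset.refl _) Finsupp.support_single_subset)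
    have h2 := card_le_card h1
    have h3 := card_union_le y.support {k}
    have := h.2
    simp only [card_singleton] at h3
    omega

theorem box_inj (L k0 : ℕ) (hk : 2 * L ≤ k0) (y y' : ℕ →₀ ℤ) (h : Box y L) (h' : Box y' L)
    (he : pr y = pr y') : ∀ k, k0 ≤ k → y k = y' k := by
  intro k hk0
  by_contra hne
  set d := y - y' with hd
  have hdk : k ∈ d.support := by
    rw [Finsupp.mem_support_iff, hd, Finsupp.sub_apply]; exact sub_ne_zero.2 hne
  have hne' : d.support.Nonempty := ⟨k, hdk⟩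
  set M := d.support.max' hne' with hM
  have hkM : k ≤ M := le_max' _ _ hdk
  have hMs : d M ≠ 0 := Finsupp.mem_support_iff.1 (max'_mem _ hne')
  have hsub : d.support ⊆ range (M + 1) := fun l hl => by
    have := le_max' _ _ hl
    rw [mem_range]; omega
  have h0 : pr d = 0 := by rw [hd, map_sub, he, sub_self]
  have h1 : pr d = ∑ l ∈ range (M + 1), d l * N l := by
    unfold pr
    rw [Finsupp.linearCombination_apply, Finsupp.sum_of_support_subset _ hsub _ (by simp)]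
    simp
  rw [h0, sum_range_succ] at h1
  have hb : ∀ l, |d l| ≤ 2 * L := fun l => by
    rw [hd, Finsupp.sub_apply]
    have := abs_sub (y l) (y' l)
    have := h.1 l
    have := h'.1 l
    linarith
  have h2 : |∑ l ∈ range M, d l * N l| ≤ 2 * L * S M := by
    rw [← sum_N, mul_sum]
    refine (abs_sum_le_sum_abs _ _).trans (sum_le_sum (fun l _ => ?_))
    rw [abs_mul, abs_of_pos (N_pos l)]
    exact mul_le_mul_of_nonneg_right (hb l) (N_pos l).le
  have h3 : N M ≤ |d M * N M| := by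
    rw [abs_mul, abs_of_pos (N_pos M)]
    have : 1 ≤ |d M| := Int.one_le_abs hMs
    nlinarith [N_pos M]
  have h4 : d M * N M = -∑ l ∈ range M, d l * N l := by linarith
  rw [h4, abs_neg] at h3
  have h5 : (N M : ℤ) = M * S M + 1 := by simp [N]
  have h6 : (2 * L : ℤ) ≤ M := by exact_mod_cast (hk.trans (hk0.trans hkM))
  have h7 : (0 : ℤ) ≤ S M := by positivity
  nlinarith

/-- number of large jumps that are remembered -/
def ph (k0 : ℕ) (y : ℕ →₀ ℤ) : ℕ := (y.support.filter (fun k => k0 ≤ k)).card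

open Classical in
noncomputable def tf (L k0 : ℕ) (z : ℂ) (a : ℤ) : ℂ :=
  if h : ∃ y, Box y L ∧ pr y = a then z ^ ph k0 h.choose else 0

theorem tf_le (L k0 : ℕ) (z : ℂ) (hz : ‖z‖ ≤ 1) (a : ℤ) : ‖tf L k0 z a‖ ≤ 1 := by
  unfold tf
  split_ifs
  · rw [norm_pow]; exact pow_le_one₀ (norm_nonneg _) hz
  · simp

theorem tf_eq (L k0 : ℕ) (hk : 2 * L ≤ k0) (z : ℂ) (y : ℕ →₀ ℤ) (hy : Box y L) :
    tf L k0 z (pr y) = z ^ ph k0 y := by
  unfold tf
  have h : ∃ y', Box y' L ∧ pr y' = pr y := ⟨y, hy, rfl⟩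
  rw [dif_pos h]
  congr 1
  have h1 := box_inj L k0 hk _ _ h.choose_spec.1 hy h.choose_spec.2
  unfold ph
  congr 1
  ext k
  simp only [mem_filter, Finsupp.mem_support_iff]
  constructor
  · rintro ⟨h2, h3⟩; exact ⟨by rwa [← h1 k h3], h3⟩
  · rintro ⟨h2, h3⟩; exact ⟨by rwa [h1 k h3], h3⟩

theorem ph_small (k0 : ℕ) (y : ℕ →₀ ℤ) (k : ℕ) (e : ℤ) (hk : ¬ k0 ≤ k) :
    ph k0 (y + Finsupp.single k e) = ph k0 y := by
  unfold ph
  congr 1
  ext l
  simp only [mem_filter, Finsupp.mem_support_iff, Finsupp.add_apply, Finsupp.single_apply]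
  by_cases h : k = l
  · subst h; simp [hk]
  · simp [h]

theorem ph_new (k0 : ℕ) (y : ℕ →₀ ℤ) (k : ℕ) (e : ℤ) (he : e ≠ 0) (hk : k0 ≤ k)
    (hy : k ∉ y.support) : ph k0 (y + Finsupp.single k e) = ph k0 y + 1 := by
  unfold ph
  rw [← card_insert_of_notMem (a := k) (by simp only [mem_filter]; tauto)]
  congr 1
  ext l
  have hy' : y k = 0 := by simpa using hy
  simp only [mem_filter, Finsupp.mem_support_iff, Finsupp.add_apply, Finsupp.single_apply,
    mem_insert]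
  by_cases h : k = l
  · subst h; simp [hk, hy', he]
  · simp [h, Ne.symm h]

noncomputable def ww (k0 : ℕ) (z : ℂ) : ℂ := 1 + (u k0 : ℂ) * ((z - 1) / 2)

theorem ww_sum (k0 : ℕ) (z : ℂ) :
    HasSum (fun k => (c k : ℂ) * (if k0 ≤ k then (1 + z) / 2 else 1)) (ww k0 z) := by
  have h1 := Complex.hasSum_ofReal.2 c_sum
  have h2 := (Complex.hasSum_ofReal.2 (c_tail' k0)).mul_right ((z - 1) / 2)
  have h3 := h1.add h2
  rw [Complex.ofReal_one] at h3
  unfold ww
  convert h3 using 1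
  funext k
  split_ifs
  · ring
  · simp

theorem ww_le (k0 : ℕ) (z : ℂ) (hz : ‖z‖ ≤ 1) : ‖ww k0 z‖ ≤ 1 := by
  rw [← (ww_sum k0 z).tsum_eq]
  refine wsum_le _ 1 (fun k => ?_)
  split_ifs
  · have := norm_add_le (1 : ℂ) z
    simp only [norm_div, Complex.norm_ofNat, norm_one] at this ⊢
    linarith
  · simp

theorem one_step (k0 r : ℕ) (z : ℂ) (hz : ‖z‖ ≤ 1) (y : ℕ →₀ ℤ) (hy : y.support.card ≤ r) :
    ‖∑' k, (c k : ℂ) * (z ^ ph k0 y / 2 + z ^ ph k0 (y + Finsupp.single k 1) / 4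
        + z ^ ph k0 (y + Finsupp.single k (-1)) / 4) - ww k0 z * z ^ ph k0 y‖
      ≤ r * (2 / ((k0 : ℝ) + 1)) := by
  have hp : ∀ n : ℕ, ‖z ^ n‖ ≤ 1 := fun n => by
    rw [norm_pow]; exact pow_le_one₀ (norm_nonneg _) hz
  have h1 := (wsum_summable (fun k => z ^ ph k0 y / 2 + z ^ ph k0 (y + Finsupp.single k 1) / 4
        + z ^ ph k0 (y + Finsupp.single k (-1)) / 4) 1
        (fun k => avg_le _ _ _ 1 (hp _) (hp _) (hp _))).hasSum
  have h2 := (ww_sum k0 z).mul_right (z ^ ph k0 y)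
  have h3 := h1.sub h2
  have h4 : HasSum (fun k => if k ∈ y.support then (2 / ((k0 : ℝ) + 1)) else 0)
      (∑ k ∈ y.support, if k ∈ y.support then (2 / ((k0 : ℝ) + 1)) else 0) :=
    hasSum_sum_of_ne_finset_zero (fun b hb => if_neg hb)
  refine (h3.norm_le_of_bounded h4 (fun k => ?_)).trans ?_
  · by_cases hk : k0 ≤ k
    · by_cases hs : k ∈ y.support
      · rw [if_pos hs, if_pos hk, mul_assoc, ← mul_sub, norm_mul, Complex.norm_real,
          Real.norm_of_nonneg (c_pos k).le]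
        have ha := avg_le _ _ _ 1 (hp (ph k0 y)) (hp (ph k0 (y + Finsupp.single k 1)))
          (hp (ph k0 (y + Finsupp.single k (-1))))
        have hb : ‖(1 + z) / 2 * z ^ ph k0 y‖ ≤ 1 := by
          rw [norm_mul]
          have := norm_add_le (1 : ℂ) z
          have h5 : ‖(1 + z) / 2‖ ≤ 1 := by
            simp only [norm_div, Complex.norm_ofNat, norm_one] at this ⊢
            linarith
          exact mul_le_one₀ h5 (norm_nonneg _) (hp _)
        have hc := (norm_sub_le _ _).trans (add_le_add ha hb)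
        have hd : c k ≤ 1 / ((k0 : ℝ) + 1) := by
          refine (c_le k).trans (one_div_le_one_div_of_le (by positivity) ?_)
          have : (k0 : ℝ) ≤ k := by exact_mod_cast hk
          linarith
        calc c k * _ ≤ 1 / ((k0 : ℝ) + 1) * (1 + 1) :=
              mul_le_mul hd hc (norm_nonneg _) (by positivity)
          _ = _ := by ring
      · rw [if_neg hs, if_pos hk, ph_new k0 y k 1 (by norm_num) hk hs,
          ph_new k0 y k (-1) (by norm_num) hk hs]
        apply le_of_eq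
        rw [norm_eq_zero]; ring
    · rw [if_neg hk, ph_small k0 y k 1 hk, ph_small k0 y k (-1) hk]
      have : (c k : ℂ) * (z ^ ph k0 y / 2 + z ^ ph k0 y / 4 + z ^ ph k0 y / 4)
          - (c k : ℂ) * 1 * z ^ ph k0 y = 0 := by ring
      rw [this, norm_zero]
      split_ifs <;> positivity
  · rw [sum_ite_of_true (fun _ h => h), sum_const, nsmul_eq_mul]
    exact mul_le_mul_of_nonneg_right (by exact_mod_cast hy) (by positivity)

theorem iter_est (L k0 : ℕ) (hk : 2 * L ≤ k0) (z : ℂ) (hz : ‖z‖ ≤ 1) (m : ℕ) :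
    ∀ (r : ℕ) (y : ℕ →₀ ℤ), Box y r → r + m ≤ L →
      ‖P^[m] (tf L k0 z) (pr y) - ww k0 z ^ m * z ^ ph k0 y‖
        ≤ m * (L * (2 / ((k0 : ℝ) + 1))) := by
  have hp : ∀ n : ℕ, ‖z ^ n‖ ≤ 1 := fun n => by
    rw [norm_pow]; exact pow_le_one₀ (norm_nonneg _) hz
  induction m with
  | zero =>
    intro r y hy hr
    simp [tf_eq L k0 hk z y (hy.mono (by omega))]
  | succ m ih =>
    intro r y hy hr
    rw [Function.iterate_succ_apply']
    set h := P^[m] (tf L k0 z) with hh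
    set W := ww k0 z ^ m with hW
    set E := (L * (2 / ((k0 : ℝ) + 1))) with hE
    have hW1 : ‖W‖ ≤ 1 := by
      rw [hW, norm_pow]; exact pow_le_one₀ (norm_nonneg _) (ww_le k0 z hz)
    have hb : ∀ a, ‖h a‖ ≤ 1 := P_iter_bound _ 1 (tf_le L k0 z hz) m
    have e1 : ∀ k, pr y + N k = pr (y + Finsupp.single k 1) := fun k => by
      simp [pr, Finsupp.linearCombination_single]
    have e2 : ∀ k, pr y - N k = pr (y + Finsupp.single k (-1)) := fun k => by
      rw [map_add]; simp [pr, Finsupp.linearCombination_single, sub_eq_add_neg]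
    have s1 := (wsum_summable (fun k => h (pr y) / 2 + h (pr y + N k) / 4 + h (pr y - N k) / 4) 1
      (fun k => avg_le _ _ _ 1 (hb _) (hb _) (hb _))).hasSum
    have s2 := (wsum_summable (fun k => z ^ ph k0 y / 2 + z ^ ph k0 (y + Finsupp.single k 1) / 4
        + z ^ ph k0 (y + Finsupp.single k (-1)) / 4) 1
        (fun k => avg_le _ _ _ 1 (hp _) (hp _) (hp _))).hasSum
    have s3 := s1.sub (s2.mul_left W)
    have s4 := c_sum.mul_right (m * E)
    have t1 := s3.norm_le_of_bounded s4 (fun k => by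
      have : (c k : ℂ) * (h (pr y) / 2 + h (pr y + N k) / 4 + h (pr y - N k) / 4)
          - W * ((c k : ℂ) * (z ^ ph k0 y / 2 + z ^ ph k0 (y + Finsupp.single k 1) / 4
            + z ^ ph k0 (y + Finsupp.single k (-1)) / 4))
          = (c k : ℂ) * ((h (pr y) - W * z ^ ph k0 y) / 2
            + (h (pr y + N k) - W * z ^ ph k0 (y + Finsupp.single k 1)) / 4
            + (h (pr y - N k) - W * z ^ ph k0 (y + Finsupp.single k (-1))) / 4) := by ring
      rw [this, norm_mul, Complex.norm_real, Real.norm_of_nonneg (c_pos k).le]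
      refine mul_le_mul_of_nonneg_left (avg_le _ _ _ _ ?_ ?_ ?_) (c_pos k).le
      · exact ih r y hy (by omega)
      · rw [e1]; exact ih (r + 1) _ (hy.step k 1 (by norm_num)) (by omega)
      · rw [e2]; exact ih (r + 1) _ (hy.step k (-1) (by norm_num)) (by omega))
    have t2 := one_step k0 L z hz y (hy.2.trans (by omega))
    rw [one_mul] at t1
    set X := ∑' k, (c k : ℂ) * (z ^ ph k0 y / 2 + z ^ ph k0 (y + Finsupp.single k 1) / 4
        + z ^ ph k0 (y + Finsupp.single k (-1)) / 4) with hX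
    have t3 : P h (pr y) - ww k0 z ^ (m + 1) * z ^ ph k0 y
        = (P h (pr y) - W * X) + W * (X - ww k0 z * z ^ ph k0 y) := by
      rw [pow_succ, ← hW]; ring
    rw [t3]
    refine (norm_add_le _ _).trans ?_
    have t4 : ‖W * (X - ww k0 z * z ^ ph k0 y)‖ ≤ E := by
      rw [norm_mul]
      exact (mul_le_of_le_one_left (norm_nonneg _) hW1).trans t2
    have t5 : ‖P h (pr y) - W * X‖ ≤ m * E := t1
    push_cast
    linarith

theorem u_pow (m : ℕ) (hm : 0 < m) : u (m ^ 4 - 1) = 1 / m := by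
  unfold u
  have h1 : 1 ≤ m ^ 4 := Nat.one_le_pow _ _ hm
  have : (((m ^ 4 - 1 : ℕ) : ℝ) + 1) = ((m : ℝ) ^ 2) ^ 2 := by
    rw [Nat.cast_sub h1]; push_cast; ring
  rw [this, Real.sqrt_sq (by positivity), Real.sqrt_sq (by positivity)]

theorem not_ritt (K : ℕ) (hK : 1 ≤ K) :
    ∃ n : ℕ, (K : ℝ) / 4 - 1 ≤ n * ∑' k, |F n k - F (n + 1) k| := by
  set m : ℕ := 24 * K ^ 6 with hm
  set n : ℕ := m * K ^ 2 with hn
  have hK' : (1 : ℝ) ≤ K := by exact_mod_cast hK
  have hK6 : 1 ≤ K ^ 6 := Nat.one_le_pow _ _ hK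
  have hK2 : 1 ≤ K ^ 2 := Nat.one_le_pow _ _ hK
  have hm0 : 0 < m := by omega
  have hn1 : 1 ≤ n := by rw [hn]; exact Nat.mul_pos hm0 hK2
  have hm4 : 1 ≤ m ^ 4 := Nat.one_le_pow _ _ hm0
  have hnm : 24 * n ^ 3 = m ^ 4 := by rw [hn]; nth_rewrite 2 [hm]; rw [hm]; ring
  have hk : 2 * (n + 1) ≤ m ^ 4 - 1 := by
    have : n ≤ n ^ 3 := Nat.le_self_pow (by norm_num) n
    omega
  set z : ℂ := ⟨1 - 1 / (K : ℝ) ^ 2, 1 / K⟩ with hzdef
  have hz : ‖z‖ ≤ 1 := by
    rw [← sq_le_one_iff₀ (norm_nonneg _), Complex.sq_norm, Complex.normSq_mk]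
    have h1 : 1 / (K : ℝ) ^ 2 ≤ 1 := by
      rw [div_le_one (by positivity)]; nlinarith
    have h2 : 1 / (K : ℝ) * (1 / K) = 1 / (K : ℝ) ^ 2 := by ring
    have h3 : 0 ≤ 1 / (K : ℝ) ^ 2 := by positivity
    rw [h2]; nlinarith
  refine ⟨n, ?_⟩
  have hb0 : Box 0 0 := ⟨fun k => by simp, by simp⟩
  have a1 := iter_est (n + 1) (m ^ 4 - 1) hk z hz n 0 0 hb0 (by omega)
  have a2 := iter_est (n + 1) (m ^ 4 - 1) hk z hz (n + 1) 0 0 hb0 (by omega)
  have a3 := diff_le n (tf (n + 1) (m ^ 4 - 1) z) (tf_le _ _ z hz)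
  have hc : (((m ^ 4 - 1 : ℕ) : ℝ) + 1) = 24 * (n : ℝ) ^ 3 := by
    rw [Nat.cast_sub hm4, ← hnm]; push_cast; ring
  simp only [map_zero, ph, Finsupp.support_zero, filter_empty, card_empty, pow_zero, mul_one,
    hc] at a1 a2
  set w := ww (m ^ 4 - 1) z with hw
  have hmr : (0 : ℝ) < m := by exact_mod_cast hm0
  have hnr : (n : ℝ) = m * K ^ 2 := by rw [hn]; push_cast; ring
  have hnr1 : (1 : ℝ) ≤ n := by exact_mod_cast hn1
  have hwre : w.re = 1 - 1 / (2 * n) := by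
    rw [hw, ww, u_pow m hm0, hnr]
    simp [hzdef]
    field_simp
    ring
  have hwim : w.im = 1 / (2 * m * K) := by
    rw [hw, ww, u_pow m hm0]
    simp [hzdef]
    field_simp
  have b1 : 1 / 2 ≤ ‖w‖ ^ n := by
    have h1 : 1 - 1 / (2 * (n : ℝ)) ≤ ‖w‖ := hwre ▸ Complex.re_le_norm w
    have h2 : 1 / (2 * (n : ℝ)) ≤ 1 := by rw [div_le_one (by positivity)]; linarith
    have h3 := one_add_mul_le_pow (a := -(1 / (2 * (n : ℝ)))) (by linarith) n
    have h4 : (1 + -(1 / (2 * (n : ℝ)))) ^ n ≤ ‖w‖ ^ n :=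
      pow_le_pow_left₀ (by linarith) (by linarith) n
    have h5 : 1 + (n : ℝ) * -(1 / (2 * (n : ℝ))) = 1 / 2 := by field_simp; ring
    linarith
  have b2 : 1 / (2 * (m : ℝ) * K) ≤ ‖1 - w‖ := by
    have := Complex.abs_im_le_norm (1 - w)
    rw [Complex.sub_im, hwim, Complex.one_im, zero_sub, abs_neg, abs_of_pos (by positivity)] at this
    exact this
  have b3 : 1 / (4 * (m : ℝ) * K) ≤ ‖w ^ n - w ^ (n + 1)‖ := by
    have : w ^ n - w ^ (n + 1) = w ^ n * (1 - w) := by ring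
    rw [this, norm_mul, norm_pow]
    calc 1 / (4 * (m : ℝ) * K) = 1 / 2 * (1 / (2 * (m : ℝ) * K)) := by field_simp; ring
      _ ≤ _ := mul_le_mul b1 b2 (by positivity) (by positivity)
  set A := P^[n] (tf (n + 1) (m ^ 4 - 1) z) 0
  set B := P^[n + 1] (tf (n + 1) (m ^ 4 - 1) z) 0
  have b4 : ‖w ^ n - w ^ (n + 1)‖ ≤ ‖A - B‖ + ‖A - w ^ n‖ + ‖B - w ^ (n + 1)‖ := by
    have : w ^ n - w ^ (n + 1) = (A - B) - (A - w ^ n) + (B - w ^ (n + 1)) := by ring
    rw [this]
    exact (norm_add_le _ _).trans (add_le_add_left (norm_sub_le _ _) _)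
  have b5 : (n : ℝ) * (1 / (4 * (m : ℝ) * K)) = K / 4 := by rw [hnr]; field_simp
  have b6 : (n : ℝ) * ((n : ℝ) * (((n + 1 : ℕ) : ℝ) * (2 / (24 * (n : ℝ) ^ 3)))
      + ((n + 1 : ℕ) : ℝ) * (((n + 1 : ℕ) : ℝ) * (2 / (24 * (n : ℝ) ^ 3)))) ≤ 1 := by
    push_cast
    have : (n : ℝ) * ((n : ℝ) * (((n : ℝ) + 1) * (2 / (24 * (n : ℝ) ^ 3)))
      + ((n : ℝ) + 1) * (((n : ℝ) + 1) * (2 / (24 * (n : ℝ) ^ 3))))
      = (2 * n + 1) * (n + 1) / (12 * (n : ℝ) ^ 2) := by field_simp; ring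
    rw [this, div_le_one (by positivity)]
    nlinarith
  have b7 : 1 / (4 * (m : ℝ) * K) - ((n : ℝ) * (((n + 1 : ℕ) : ℝ) * (2 / (24 * (n : ℝ) ^ 3)))
      + ((n + 1 : ℕ) : ℝ) * (((n + 1 : ℕ) : ℝ) * (2 / (24 * (n : ℝ) ^ 3))))
      ≤ ∑' k, |F n k - F (n + 1) k| := by linarith
  have b8 := mul_le_mul_of_nonneg_left b7 (by linarith : (0 : ℝ) ≤ n)
  rw [mul_sub, b5] at b8
  linarith

theorem fourier (t : ℝ) (ht : t ∈ Set.Ioo 0 (2 * Real.pi)) : ∃ r : ℝ, 0 ≤ r ∧ r < 1 ∧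
    ∑' n : ℤ, (p n : ℂ) * Complex.exp (Complex.I * (t : ℂ) * (n : ℂ)) = r := by
  have h1 := p_test (fun n : ℤ => Complex.exp (Complex.I * (t : ℂ) * (n : ℂ))) 1 (fun m => by
    have : Complex.I * (t : ℂ) * (m : ℂ) = ((t * m : ℝ) : ℂ) * Complex.I := by push_cast; ring
    rw [this, Complex.norm_exp_ofReal_mul_I]) 0
  simp only [zero_add] at h1
  have hs : Summable (fun k => c k * ((1 + Real.cos (t * N k)) / 2)) := by
    refine Summable.of_nonneg_of_le (fun k => mul_nonneg (c_pos k).le ?_) (fun k => ?_)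
      c_sum.summable
    · have := Real.neg_one_le_cos (t * N k); linarith
    · have := Real.cos_le_one (t * N k)
      exact mul_le_of_le_one_right (c_pos k).le (by linarith)
  refine ⟨∑' k, c k * ((1 + Real.cos (t * N k)) / 2), tsum_nonneg (fun k => ?_), ?_, ?_⟩
  · have := Real.neg_one_le_cos (t * N k)
    exact mul_nonneg (c_pos k).le (by linarith)
  · refine lt_of_lt_of_eq ?_ c_sum.tsum_eq
    refine hs.tsum_lt_tsum (i := 0) (fun k => ?_) ?_ c_sum.summable
    · have := Real.cos_le_one (t * N k)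
      exact mul_le_of_le_one_right (c_pos k).le (by linarith)
    · have h2 : Real.cos t ≠ 1 := by
        rw [Ne, Real.cos_eq_one_iff_of_lt_of_lt (by linarith [ht.1, Real.pi_pos]) ht.2]
        exact ht.1.ne'
      have h3 : Real.cos t < 1 := lt_of_le_of_ne (Real.cos_le_one t) h2
      have h4 : ((N 0 : ℤ) : ℝ) = 1 := by simp [N]
      rw [h4, mul_one]
      exact mul_lt_of_lt_one_right (c_pos 0) (by linarith)
  · rw [h1.tsum_eq, Complex.ofReal_tsum]
    unfold P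
    congr 1
    funext k
    push_cast
    rw [Complex.cos]
    simp only [zero_add, zero_sub, mul_zero, Complex.exp_zero]
    have e1 : Complex.I * (t : ℂ) * (N k : ℂ) = (t : ℂ) * (N k : ℂ) * Complex.I := by ring
    have e2 : Complex.I * (t : ℂ) * -(N k : ℂ) = -((t : ℂ) * (N k : ℂ)) * Complex.I := by ring
    rw [e1, e2]
    ring

end H28Ritt

namespace Pool.Agent.S04016

/-- The negation of the preceding statement: For every probability measure on the integers whose Fourier transform has modulus below 1 off 0 mod 2π: the bound ∣1−μ̂(t)∣ ≤ C(1−∣μ̂(t)∣) holds iff n·‖μ^n − μ^(n+1)‖ in ℓ¹ stays bounded. -/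
theorem result :
    ¬ (∀ p : ℤ → ℝ, (∀ n, 0 ≤ p n) → Summable p → ∑' n, p n = 1 →
      (∀ t : ℝ, t ∈ Set.Ioo 0 (2 * Real.pi) →
        ‖∑' n : ℤ, (p n : ℂ) * Complex.exp (Complex.I * (t : ℂ) * (n : ℂ))‖ < 1) →
      ((∃ C : ℝ, ∀ t : ℝ, t ∈ Set.Ioo 0 (2 * Real.pi) →
          ‖1 - ∑' n : ℤ, (p n : ℂ) * Complex.exp (Complex.I * (t : ℂ) * (n : ℂ))‖
            ≤ C * (1 - ‖∑' n : ℤ, (p n : ℂ) * Complex.exp (Complex.I * (t : ℂ) * (n : ℂ))‖)) ↔
       (∃ C : ℝ, ∀ n : ℕ,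
          (n : ℝ) * ∑' k : ℤ,
            |((fun f : ℤ → ℝ => fun m : ℤ => ∑' j : ℤ, f j * p (m - j))^[n]
                (fun m : ℤ => if m = 0 then (1 : ℝ) else 0)) k
              - ((fun f : ℤ → ℝ => fun m : ℤ => ∑' j : ℤ, f j * p (m - j))^[n + 1]
                (fun m : ℤ => if m = 0 then (1 : ℝ) else 0)) k| ≤ C))) := by
  intro h
  have h1 := h H28Ritt.p H28Ritt.p_nonneg H28Ritt.p_sum.summable H28Ritt.p_sum.tsum_eq
    (fun t ht => by
      obtain ⟨r, h0, h1, h2⟩ := H28Ritt.fourier t ht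
      rw [h2, Complex.norm_real, Real.norm_of_nonneg h0]; exact h1)
  obtain ⟨C, hC⟩ := h1.1 ⟨1, fun t ht => by
    obtain ⟨r, h0, h1, h2⟩ := H28Ritt.fourier t ht
    rw [h2, Complex.norm_real, Real.norm_of_nonneg h0, one_mul, ← Complex.ofReal_one,
      ← Complex.ofReal_sub, Complex.norm_real, Real.norm_of_nonneg (by linarith)]⟩
  obtain ⟨K, hK⟩ := exists_nat_gt (4 * (C + 1))
  obtain ⟨n, hn⟩ := H28Ritt.not_ritt (K + 1) (by omega)
  have h2 : (n : ℝ) * ∑' k, |H28Ritt.F n k - H28Ritt.F (n + 1) k| ≤ C := hC n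
  push_cast at hn
  linarith

end Pool.Agent.S04016
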