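import Pool.Statements.S04054
import Pool.Agent.Lib.helper31.UCL

set_option autoImplicit false
open Pool Pool.MP_22f2dc_an

namespace Pool.Agent.S04054

/-- The negation of the preceding statement: Take nonconstant C1 weak solutions u, v of div(A grad u)=0 on a connected open set in R^n, n≥2, with A symmetric, uniformly elliptic and Lipschitz. If u vanishes on a connected smooth hypersurface S and v on a nonempty open proper piece of S, then v vanishes on all of S. -/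
theorem result :
    ¬ (∀ (n : ℕ), 2 ≤ n →
  ∀ (Ω : Set (EuclideanSpace ℝ (Fin n))), IsOpen Ω → IsConnected Ω →
  ∀ (A : EuclideanSpace ℝ (Fin n) → Matrix (Fin n) (Fin n) ℝ) (K E : ℝ), 0 < K →
    (∀ x ∈ Ω, ∀ i j, A x i j = A x j i) →
    (∀ x ∈ Ω, ∀ ξ : EuclideanSpace ℝ (Fin n),
        K⁻¹ * ‖ξ‖ ^ 2 ≤ ∑ i, ∑ j, A x i j * ξ i * ξ j ∧
        ∑ i, ∑ j, A x i j * ξ i * ξ j ≤ K * ‖ξ‖ ^ 2) →
    (∀ x ∈ Ω, ∀ y ∈ Ω, ∀ i j, |A x i j - A y i j| ≤ E * dist x y) →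
  ∀ (u v : EuclideanSpace ℝ (Fin n) → ℝ),
    ContDiffOn ℝ 1 u Ω → ContDiffOn ℝ 1 v Ω →
    (¬ ∃ c : ℝ, ∀ x ∈ Ω, u x = c) →
    (¬ ∃ c : ℝ, ∀ x ∈ Ω, v x = c) →
    (∀ φ : EuclideanSpace ℝ (Fin n) → ℝ,
        ContDiff ℝ ((⊤ : ℕ∞) : WithTop ℕ∞) φ → HasCompactSupport φ → tsupport φ ⊆ Ω →
        ∫ x, ∑ i, ∑ j, A x i j * fderiv ℝ u x (EuclideanSpace.single j 1)
            * fderiv ℝ φ x (EuclideanSpace.single i 1) = 0) →
    (∀ φ : EuclideanSpace ℝ (Fin n) → ℝ,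
        ContDiff ℝ ((⊤ : ℕ∞) : WithTop ℕ∞) φ → HasCompactSupport φ → tsupport φ ⊆ Ω →
        ∫ x, ∑ i, ∑ j, A x i j * fderiv ℝ v x (EuclideanSpace.single j 1)
            * fderiv ℝ φ x (EuclideanSpace.single i 1) = 0) →
  ∀ (S Sig : Set (EuclideanSpace ℝ (Fin n))),
    S ⊆ Ω → IsConnected S →
    (∀ p ∈ S, ∃ (U : Set (EuclideanSpace ℝ (Fin n))) (f : EuclideanSpace ℝ (Fin n) → ℝ),
        IsOpen U ∧ p ∈ U ∧ ContDiff ℝ ((⊤ : ℕ∞) : WithTop ℕ∞) f ∧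
        (∀ x ∈ U, fderiv ℝ f x ≠ 0) ∧ S ∩ U = {x | x ∈ U ∧ f x = 0}) →
    Sig ⊆ S → Sig.Nonempty → Sig ≠ S →
    (∃ O : Set (EuclideanSpace ℝ (Fin n)), IsOpen O ∧ Sig = S ∩ O) →
    (∀ x ∈ S, u x = 0) →
    (∀ x ∈ Sig, v x = 0) →
    ∀ x ∈ S, v x = 0) := by
  intro H
  have p : (!₂[1 / 4, 0] : H31.UCL.E) ∈ Metric.ball 0 (1 / 2) := by
    simp [EuclideanSpace.norm_eq]; norm_num
  have p1 : (!₂[0, 1 / 4] : H31.UCL.E) ∈ Metric.ball 0 (1 / 2) := by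
    simp [EuclideanSpace.norm_eq]; norm_num
  have p2 : (!₂[-1 / 4, 0] : H31.UCL.E) ∈ Metric.ball 0 (1 / 2) := by
    simp [EuclideanSpace.norm_eq]; norm_num
  have z : (0 : H31.UCL.E) ∈ Metric.ball 0 (1 / 2) := Metric.mem_ball_self (by norm_num)
  have vp : H31.UCL.v !₂[1 / 4, 0] ≠ 0 := by simp [H31.UCL.v, H31.UCL.h, H31.UCL.m]
  have off : ∀ (φ : H31.UCL.E → ℝ) x, tsupport φ ⊆ Metric.ball 0 (1 / 2) →
      x ∉ Metric.ball 0 (1 / 2) → fderiv ℝ φ x = 0 := fun φ x h hx =>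
    fderiv_of_notMem_tsupport ℝ fun k => hx (h k)
  refine vp (H 2 le_rfl (Metric.ball 0 (1 / 2)) Metric.isOpen_ball
    ((convex_ball _ _).isConnected ⟨0, z⟩) H31.UCL.A 4 48 (by norm_num)
    (fun x _ i j => by fin_cases i <;> fin_cases j <;> simp [H31.UCL.A])
    (fun x hx => H31.UCL.ell hx) (fun x hx y hy => H31.UCL.lip hx hy) (fun x => x 1) H31.UCL.v
    (by fun_prop) (by unfold H31.UCL.v; fun_prop) ?_ ?_ ?_ ?_
    {x | x ∈ Metric.ball 0 (1 / 2) ∧ x 1 = 0}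
    ({x | x ∈ Metric.ball 0 (1 / 2) ∧ x 1 = 0} ∩ {x | x 0 < 0}) (fun x hx => hx.1) ?_
    (fun x hx => ⟨Metric.ball 0 (1 / 2), fun x => x 1, Metric.isOpen_ball, hx.1, by fun_prop,
      fun x _ k => ?_, Set.inter_eq_left.2 fun x hx => hx.1⟩) Set.inter_subset_left
    ⟨_, ⟨p2, by simp⟩, by simp; norm_num⟩ (fun k => ?_)
    ⟨_, isOpen_lt (by fun_prop) continuous_const, rfl⟩ (fun x hx => hx.2) ?_ _ ⟨p, by simp⟩)
  · rintro ⟨c, k⟩
    have := (k _ p1).trans (k _ z).symm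
    simp at this
  · rintro ⟨c, k⟩
    exact vp ((k _ p).trans ((k _ z).symm.trans (by simp [H31.UCL.v, H31.UCL.h])))
  · intro φ a b _
    refine H31.UCL.weak (F := fun _ => 0) (G := fun _ => 1) contDiff_const contDiff_const
      (by simp) a b fun x => ?_
    simp [(H31.UCL.d 1 x).fderiv, H31.UCL.A]
  · intro φ a b c
    refine H31.UCL.weak (F := H31.UCL.q) (G := H31.UCL.g) (by unfold H31.UCL.q; fun_prop)
      (by unfold H31.UCL.g; fun_prop) H31.UCL.dq a b fun x => ?_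
    by_cases hx : x ∈ Metric.ball 0 (1 / 2)
    · have k : 1 + 3 * (H31.UCL.m (x 0) * x 1) ≠ 0 := by linarith [(H31.UCL.bd hx).2.2.1]
      simp [H31.UCL.A, (H31.UCL.dv x).1, (H31.UCL.dv x).2]
      left
      rw [mul_comm (H31.UCL.q x), inv_mul_cancel_left₀ k]
    · simp [off φ x c hx]
  · refine ((convex_ball _ _).inter (convex_hyperplane
      (EuclideanSpace.proj (𝕜 := ℝ) (1 : Fin 2)).toLinearMap.isLinear 0)).isConnected ⟨0, z, rfl⟩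
  · have := congrArg (fun T : H31.UCL.E →L[ℝ] ℝ => T (H31.UCL.e 1)) ((H31.UCL.d 1 x).fderiv.symm.trans k)
    simp at this
  · have : (0 : H31.UCL.E) ∈ _ := k.symm.subset ⟨z, rfl⟩
    simpa using this.2
  · rintro x ⟨⟨-, a⟩, b⟩
    simp [H31.UCL.v, H31.UCL.h, H31.UCL.m, a, (show x 0 < 0 from b).le]

end Pool.Agent.S04054
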