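import Pool.Statements.S04080
-- import your own Pool.Agent.* helpers here

set_option autoImplicit false
open Pool Pool.MP_24fbf1_an

namespace Pool.Agent.S04080

open Complex NormedSpace Filter Topology

section alg
variable {A : Type*} [CStarAlgebra A]

lemma exp_lip {X Y P Q : A} (hX : IsSelfAdjoint X) (hY : IsSelfAdjoint Y) (hP : Commute P Y)
    (hQ : Commute Q X) : ‖P * (exp (I • X) - exp (I • Y)) * Q‖ ≤ ‖P * (X - Y) * Q‖ := by
  let _ : NormedAlgebra ℚ A := .restrictScalars ℚ ℂ A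
  have u : ∀ {Z : A}, IsSelfAdjoint Z → ∀ s : ℝ, exp (s • I • Z) ∈ unitary A :=
    fun {Z} hZ s => exp_mem_unitary_of_mem_skewAdjoint (by
      rw [skewAdjoint.mem_iff, star_smul, star_smul, hZ.star_eq]; simp)
  have := norm_image_sub_le_of_norm_deriv_le_segment_01'
    (f := fun s : ℝ => P * (exp (s • I • Y) * exp ((1 - s) • I • X)) * Q)
    (f' := fun s : ℝ => -(I • (exp (s • I • Y) * (P * (X - Y) * Q) *
      exp ((1 - s) • I • X)))) (C := ‖P * (X - Y) * Q‖) (fun s _ => by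
      have d1 := hasDerivAt_exp_smul_const (𝕂 := ℝ) (I • Y) s
      have d2 := (hasDerivAt_exp_smul_const' (𝕂 := ℝ) (I • X) (1 - s)).scomp s
        ((hasDerivAt_id s).const_sub 1)
      refine (((d1.mul d2).const_mul P).mul_const Q).hasDerivWithinAt.congr_deriv ?_
      have c1 : Commute P (exp (s • I • Y)) := ((hP.smul_right _).smul_right _).exp_right
      have c2 : Commute Q (exp ((1 - s) • I • X)) := ((hQ.smul_right _).smul_right _).exp_right
      simp only [Function.comp_apply, id]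
      generalize exp (s • I • Y) = E at *
      generalize exp ((1 - s) • I • X) = F at *
      rw [← mul_assoc E, ← mul_assoc E, ← c1.eq, mul_assoc _ Q, c2.eq]
      simp only [mul_add, add_mul, mul_sub, sub_mul, smul_sub, mul_smul_comm, smul_mul_assoc,
        mul_assoc, neg_smul, one_smul, mul_neg, neg_mul]
      abel)
    (fun s _ => by
      rw [norm_neg, norm_smul, norm_I, one_mul, CStarRing.norm_mul_mem_unitary _ (u hX _),
        CStarRing.norm_mem_unitary_mul _ (u hY _)])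
  rw [← norm_neg] at this
  simpa [mul_sub, sub_mul] using this

lemma sin_eq {X : A} (hX : IsSelfAdjoint X) :
    cfc Real.sin X = (2 * I)⁻¹ • (exp (I • X) - exp (I • -X)) := by
  have := hX.isStarNormal
  have e : ∀ c : ℂ, exp (c • X) = cfc (fun z => cexp (c • z)) X := fun c => by
    rw [cfc_comp_smul c cexp X, CFC.complex_exp_eq_normedSpace_exp]
  rw [smul_neg, ← neg_smul, e, e, ← cfc_sub .., ← cfc_smul .., cfc_real_eq_complex]
  refine cfc_congr fun z hz => ?_
  have h : (z.re : ℂ) = z := (hX.mem_spectrum_eq_re hz).symm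
  simp only [ofReal_sin, h, smul_eq_mul, Complex.sin, mul_comm I]
  field_simp
  simp only [I_sq, mul_comm I, mul_neg, neg_mul]
  ring

lemma sin_lip {X Y P Q : A} (hX : IsSelfAdjoint X) (hY : IsSelfAdjoint Y) (hP : Commute P Y)
    (hQ : Commute Q X) : ‖P * (cfc Real.sin X - cfc Real.sin Y) * Q‖ ≤ ‖P * (X - Y) * Q‖ := by
  have h1 := exp_lip hX hY hP hQ
  have h2 := exp_lip hX.neg hY.neg hP.neg_right hQ.neg_right
  rw [show P * (-X - -Y) * Q = -(P * (X - Y) * Q) by noncomm_ring, norm_neg] at h2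
  rw [sin_eq hX, sin_eq hY, ← smul_sub, mul_smul_comm, smul_mul_assoc, norm_smul,
    show ∀ a b c d : A, P * (a - b - (c - d)) * Q = P * (a - c) * Q - P * (b - d) * Q by
      intros; noncomm_ring]
  have := norm_sub_le (P * (exp (I • X) - exp (I • Y)) * Q) (P * (exp (I • -X) - exp (I • -Y)) * Q)
  simp only [norm_inv, norm_mul, norm_I, Complex.norm_ofNat]
  linarith

noncomputable def g (x : ℝ) : ℝ := x ^ 2 * Real.sin x⁻¹

lemma g_zero : HasDerivAt g 0 0 := by
  rw [hasDerivAt_iff_tendsto_slope_zero]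
  refine squeeze_zero_norm (a := fun t => |t|) (fun t => ?_)
    ((continuous_abs.tendsto' 0 0 abs_zero).mono_left nhdsWithin_le_nhds)
  rcases eq_or_ne t 0 with rfl | h
  · simp
  · rw [show t⁻¹ • (g (0 + t) - g 0) = t * Real.sin t⁻¹ by simp [g]; field_simp, norm_mul]
    exact mul_le_of_le_one_right (abs_nonneg _) (Real.abs_sin_le_one _)

lemma g_ne {x : ℝ} (hx : x ≠ 0) : HasDerivAt g (2 * x * Real.sin x⁻¹ - Real.cos x⁻¹) x :=
  ((hasDerivAt_pow 2 x).mul (hasDerivAt_inv hx).sin).congr_deriv (by simp; field_simp; ring)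

lemma g_cont : Continuous g := continuous_iff_continuousAt.2 fun x => by
  rcases eq_or_ne x 0 with rfl | h
  exacts [g_zero.continuousAt, (g_ne h).continuousAt]

lemma g_eps {a b : A} (ha : IsSelfAdjoint a) (hb : IsSelfAdjoint b) (sa : spectrum ℝ a ⊆ Set.Icc 0 1)
    (sb : spectrum ℝ b ⊆ Set.Icc 0 1) {ε : ℝ} (h0 : 0 < ε) (h1 : ε ≤ 1) :
    ‖cfc (fun x => g (x + ε)) a - cfc (fun x => g (x + ε)) b‖ ≤ 5 * ‖a - b‖ := by
  have key : ∀ {a : A}, IsSelfAdjoint a → spectrum ℝ a ⊆ Set.Icc 0 1 → ∃ X : A,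
      IsSelfAdjoint X ∧ (a + algebraMap ℝ A ε) * X = 1 ∧ X * (a + algebraMap ℝ A ε) = 1 ∧
      ‖a + algebraMap ℝ A ε‖ ≤ 2 ∧ cfc (fun x => g (x + ε)) a =
        (a + algebraMap ℝ A ε) * cfc Real.sin X * (a + algebraMap ℝ A ε) := fun {a} ha sa => by
    have p : ∀ x ∈ spectrum ℝ a, x + ε ≠ 0 := fun x hx => by linarith [(sa hx).1]
    have c : ContinuousOn (fun x : ℝ => (x + ε)⁻¹) (spectrum ℝ a) :=
      ContinuousOn.inv₀ (by fun_prop) p
    have c' : ContinuousOn (fun x : ℝ => Real.sin (x + ε)⁻¹) (spectrum ℝ a) :=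
      Real.continuous_sin.comp_continuousOn c
    have e : a + algebraMap ℝ A ε = cfc (fun x : ℝ => x + ε) a := by
      rw [cfc_add_const ε (fun x : ℝ => x) a continuousOn_id ha, cfc_id' ℝ a ha]
    have c0 : ContinuousOn (fun x : ℝ => x + ε) (spectrum ℝ a) := by fun_prop
    refine ⟨cfc (fun x : ℝ => (x + ε)⁻¹) a, cfc_predicate _ _, ?_, ?_, ?_, ?_⟩
    · rw [e, ← cfc_mul _ _ a c0 c, ← cfc_one ℝ a ha]
      exact cfc_congr fun x hx => mul_inv_cancel₀ (p x hx)
    · rw [e, ← cfc_mul _ _ a c c0, ← cfc_one ℝ a ha]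
      exact cfc_congr fun x hx => inv_mul_cancel₀ (p x hx)
    · rw [e]
      exact norm_cfc_le (by norm_num) fun x hx => by
        rw [Real.norm_eq_abs, abs_le]; constructor <;> linarith [(sa hx).1, (sa hx).2]
    · rw [e, ← cfc_comp' Real.sin (fun x : ℝ => (x + ε)⁻¹) a Real.continuous_sin.continuousOn c ha,
        ← cfc_mul _ _ a c0 c', ← cfc_mul (fun x : ℝ => (x + ε) * Real.sin (x + ε)⁻¹) _ a (c0.mul c') c0]
      exact cfc_congr fun x _ => by simp only [g]; ring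
  obtain ⟨X, X1, X2, X3, X4, X5⟩ := key ha sa
  obtain ⟨Y, Y1, Y2, Y3, Y4, Y5⟩ := key hb sb
  have h := sin_lip X1 Y1 (P := b + algebraMap ℝ A ε) (Q := a + algebraMap ℝ A ε)
    (Y2.trans Y3.symm) (X2.trans X3.symm)
  have n1 : ‖cfc Real.sin X‖ ≤ 1 := norm_cfc_le zero_le_one fun x _ => Real.abs_sin_le_one x
  have n2 : ‖cfc Real.sin Y‖ ≤ 1 := norm_cfc_le zero_le_one fun x _ => Real.abs_sin_le_one x
  rw [X5, Y5, show a - b = (a + algebraMap ℝ A ε) - (b + algebraMap ℝ A ε) by abel]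
  generalize a + algebraMap ℝ A ε = p at *
  generalize b + algebraMap ℝ A ε = q at *
  generalize cfc Real.sin X = S at *
  generalize cfc Real.sin Y = T at *
  rw [mul_sub q X, sub_mul (q * X), mul_assoc q X, X3, Y2, mul_one, one_mul, norm_sub_rev q] at h
  rw [show p * S * p - q * T * q = (p - q) * (S * p) + q * (S - T) * p + q * T * (p - q) by
    noncomm_ring]
  have m1 : ‖S * p‖ ≤ 1 * 2 := (norm_mul_le _ _).trans (by gcongr)
  have m2 : ‖q * T‖ ≤ 2 * 1 := (norm_mul_le _ _).trans (by gcongr)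
  have m3 := (norm_mul_le (p - q) (S * p)).trans (mul_le_mul_of_nonneg_left m1 (norm_nonneg _))
  have m4 := (norm_mul_le (q * T) (p - q)).trans (mul_le_mul_of_nonneg_right m2 (norm_nonneg _))
  linarith [norm_add₃_le (a := (p - q) * (S * p)) (b := q * (S - T) * p) (c := q * T * (p - q))]

lemma g_lip {a b : A} (ha : IsSelfAdjoint a) (hb : IsSelfAdjoint b) (sa : spectrum ℝ a ⊆ Set.Icc 0 1)
    (sb : spectrum ℝ b ⊆ Set.Icc 0 1) : ‖cfc g a - cfc g b‖ ≤ 5 * ‖a - b‖ := by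
  refine le_of_forall_pos_le_add fun η hη => ?_
  obtain ⟨δ, hδ, h⟩ := Metric.uniformContinuousOn_iff.1
    ((isCompact_Icc (a := (0 : ℝ)) (b := 2)).uniformContinuousOn_of_continuous g_cont.continuousOn)
    _ (half_pos hη)
  have e0 : 0 < min (δ / 2) 1 := lt_min (half_pos hδ) one_pos
  have e1 := min_le_left (δ / 2) 1
  have e2 := min_le_right (δ / 2) 1
  have k : ∀ {a : A}, spectrum ℝ a ⊆ Set.Icc 0 1 →
      ‖cfc g a - cfc (fun x => g (x + min (δ / 2) 1)) a‖ ≤ η / 2 := fun {a} sa => by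
    have := g_cont
    rw [← cfc_sub ..]
    refine norm_cfc_le (half_pos hη).le fun x hx => ?_
    obtain ⟨x0, x1⟩ := sa hx
    exact (h x ⟨x0, by linarith⟩ _ ⟨by linarith, by linarith⟩
      (by rw [dist_self_add_right, Real.norm_of_nonneg e0.le]; linarith)).le
  have k1 := k sa
  have k2 := k sb
  have k3 := g_eps ha hb sa sb e0 e2
  rw [← dist_eq_norm] at k1 k2 k3 ⊢
  linarith [dist_triangle4_right (cfc g a) (cfc g b) (cfc (fun x => g (x + min (δ / 2) 1)) a)
    (cfc (fun x => g (x + min (δ / 2) 1)) b)]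

noncomputable def f (x : ℝ) : ℝ := x + 2 * x ^ 2 + g x

lemma f_lip {a b : A} (ha : IsSelfAdjoint a) (hb : IsSelfAdjoint b) (sa : spectrum ℝ a ⊆ Set.Icc 0 1)
    (sb : spectrum ℝ b ⊆ Set.Icc 0 1) : ‖cfc f a - cfc f b‖ ≤ 10 * ‖a - b‖ := by
  have key : ∀ {a : A}, IsSelfAdjoint a → spectrum ℝ a ⊆ Set.Icc 0 1 →
      cfc f a = a + (2 : ℝ) • (a * a) + cfc g a ∧ ‖a‖ ≤ 1 := fun {a} ha sa => by
    have := g_cont
    constructor
    · unfold f
      rw [cfc_add .., cfc_add .., cfc_const_mul .., cfc_pow .., cfc_id' ℝ a, sq]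
    · rw [← cfc_id' ℝ a]
      exact norm_cfc_le zero_le_one fun x hx => by
        rw [Real.norm_of_nonneg (sa hx).1]; exact (sa hx).2
  obtain ⟨a1, a2⟩ := key ha sa
  obtain ⟨b1, b2⟩ := key hb sb
  have h := g_lip ha hb sa sb
  rw [a1, b1, show a + (2 : ℝ) • (a * a) + cfc g a - (b + (2 : ℝ) • (b * b) + cfc g b) =
    (a - b) + (2 : ℝ) • ((a - b) * a + b * (a - b)) + (cfc g a - cfc g b) by
      simp only [mul_sub, sub_mul]; module]
  have m1 := (norm_mul_le (a - b) a).trans (mul_le_of_le_one_right (norm_nonneg _) a2)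
  have m2 := (norm_mul_le b (a - b)).trans (mul_le_of_le_one_left (norm_nonneg _) b2)
  refine norm_add₃_le.trans ?_
  rw [norm_smul, Real.norm_two]
  linarith [norm_add_le ((a - b) * a) (b * (a - b))]

end alg

lemma f_deriv {x d : ℝ} (h : HasDerivAt g d x) : HasDerivAt f (1 + 4 * x + d) x :=
  (((hasDerivAt_id x).add ((hasDerivAt_pow 2 x).const_mul 2)).add h).congr_deriv (by simp; ring)

/-- The negation of the preceding statement: If f is operator Lipschitz on [a,b] (uniform bound on ‖f(A)−f(B)‖ by C‖A−B‖ for self-adjoint A,B with spectrum in [a,b]) and has nonzero derivative at every point of [a,b], then its inverse is operator Lipschitz on the interval between f(a) and f(b). -/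
theorem result :
    ¬ (∀ (f : ℝ → ℝ) (a b : ℝ),
      (ContinuousOn f (Set.Icc a b) ∧
        ∃ C : ℝ, ∀ (H : Type) [NormedAddCommGroup H] [InnerProductSpace ℂ H] [CompleteSpace H],
          ∀ A B : H →L[ℂ] H, IsSelfAdjoint A → IsSelfAdjoint B →
            spectrum ℝ A ⊆ Set.Icc a b → spectrum ℝ B ⊆ Set.Icc a b →
              ‖cfc f A - cfc f B‖ ≤ C * ‖A - B‖) →
      (∀ x ∈ Set.Icc a b, ∃ d : ℝ, d ≠ 0 ∧ HasDerivWithinAt f d (Set.Icc a b) x) →
      ∃ g : ℝ → ℝ, (∀ x ∈ Set.Icc a b, g (f x) = x) ∧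
        (ContinuousOn g (Set.uIcc (f a) (f b)) ∧
          ∃ C : ℝ, ∀ (H : Type) [NormedAddCommGroup H] [InnerProductSpace ℂ H] [CompleteSpace H],
            ∀ A B : H →L[ℂ] H, IsSelfAdjoint A → IsSelfAdjoint B →
              spectrum ℝ A ⊆ Set.uIcc (f a) (f b) → spectrum ℝ B ⊆ Set.uIcc (f a) (f b) →
                ‖cfc g A - cfc g B‖ ≤ C * ‖A - B‖)) := by
  intro h
  obtain ⟨G, G1, G2, C, hC⟩ := h f 0 1
    ⟨Continuous.continuousOn (by have := g_cont; unfold f; fun_prop), 10,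
      fun H _ _ _ A B hA hB sa sb => f_lip hA hB sa sb⟩ fun x hx => by
      rcases hx.1.eq_or_lt with rfl | h
      · exact ⟨_, by norm_num, (f_deriv g_zero).hasDerivWithinAt⟩
      · refine ⟨_, ne_of_gt ?_, (f_deriv (g_ne h.ne')).hasDerivWithinAt⟩
        nlinarith [Real.cos_le_one x⁻¹, Real.neg_one_le_sin x⁻¹]
  have mem : ∀ x ∈ Set.Ioo (0 : ℝ) (1 / 2), f x ∈ Set.uIcc (f 0) (f 1) := fun x hx => by
    refine Set.mem_uIcc_of_le ?_ ?_ <;> simp only [f, g] <;>
      nlinarith [hx.1, hx.2, Real.sin_le_one x⁻¹, Real.neg_one_le_sin x⁻¹,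
        Real.neg_one_le_sin (1 : ℝ)⁻¹, sq_nonneg x]
  have lip : ∀ x ∈ Set.Ioo (0 : ℝ) (1 / 2), ∀ y ∈ Set.Ioo (0 : ℝ) (1 / 2),
      |x - y| ≤ C * |f x - f y| := fun x hx y hy => by
    have := hC ℂ (algebraMap ℝ _ (f x)) (algebraMap ℝ _ (f y))
      (IsSelfAdjoint.algebraMap _ (.all _)) (IsSelfAdjoint.algebraMap _ (.all _))
      (by rw [spectrum.scalar_eq]; simpa using mem x hx)
      (by rw [spectrum.scalar_eq]; simpa using mem y hy)
    rwa [cfc_algebraMap, cfc_algebraMap, ← map_sub, ← map_sub, norm_algebraMap', norm_algebraMap',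
      G1 x ⟨hx.1.le, by linarith [hx.2]⟩, G1 y ⟨hy.1.le, by linarith [hy.2]⟩] at this
  obtain ⟨k, hk⟩ := exists_nat_gt (|C| + 1)
  have k0 : (1 : ℝ) < k := by linarith [abs_nonneg C]
  have p0 : 6 * (k : ℝ) < k * (2 * Real.pi) := by nlinarith [Real.pi_gt_three]
  have x0 : (k * (2 * Real.pi))⁻¹ ∈ Set.Ioo (0 : ℝ) (1 / 2) :=
    ⟨by positivity, by rw [inv_lt_comm₀ (by positivity) (by norm_num)]; linarith⟩
  have d := f_deriv (g_ne x0.1.ne')
  rw [inv_inv, Real.cos_nat_mul_two_pi, show (k : ℝ) * (2 * Real.pi) = (2 * k : ℕ) * Real.pi by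
    push_cast; ring, Real.sin_nat_mul_pi, show ((2 * k : ℕ) : ℝ) * Real.pi = k * (2 * Real.pi) by
    push_cast; ring, hasDerivAt_iff_tendsto_slope] at d
  have := ge_of_tendsto (b := 1) (d.abs.const_mul C) (by
    filter_upwards [self_mem_nhdsWithin, nhdsWithin_le_nhds (isOpen_Ioo.mem_nhds x0)] with y hy hy'
    rw [slope_def_field, abs_div, ← mul_div_assoc, le_div_iff₀ (abs_pos.2 (sub_ne_zero.2 hy)),
      one_mul]
    exact lip _ hy' _ x0)
  rw [show 1 + 4 * (k * (2 * Real.pi))⁻¹ + (2 * (k * (2 * Real.pi))⁻¹ * 0 - 1) =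
    4 / (k * (2 * Real.pi)) by ring, abs_of_pos (by positivity), ← mul_div_assoc,
    le_div_iff₀ (by positivity)] at this
  linarith [le_abs_self C, abs_nonneg C]

end Pool.Agent.S04080
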