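import Pool.Statements.S04088
-- import your own Pool.Agent.* helpers here
import Pool.Agent.Lib.helper16.TilA

set_option autoImplicit false
open MeasureTheory
open Pool Pool.MP_260e18_an

namespace Pool.Agent.S04088

open Pool.Agent.Lib.helper16.Til Real Set
open scoped BoundedContinuousFunction

lemma w_pos {ε : ℝ} (hε : 0 < ε) (y : ℝ) : 0 < w ε y := by unfold w; positivity

lemma w_near {ε : ℝ} (hε : 0 < ε) (hε1 : ε ≤ 1) {y z : ℝ} (h : |y - z| ≤ 1) :
    w ε y ≤ 3 * w ε z := by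
  unfold w
  rw [← mul_div_assoc, div_le_div_iff₀ (by positivity) (by positivity)]
  have h1 : (ε * (y - z)) ^ 2 ≤ 1 := by
    rw [sq_le_one_iff_abs_le_one, abs_mul, abs_of_pos hε]
    exact mul_le_one₀ hε1 (abs_nonneg _) h
  nlinarith [sq_nonneg (ε * y + ε * (y - z)), sq_nonneg (ε * y)]

lemma w_int {ε : ℝ} (hε : 0 < ε) : Integrable (w ε) ∧ ∫ y, w ε y = π := by
  have e : w ε = fun y => ε * (1 + (ε * y) ^ 2)⁻¹ := funext fun y => div_eq_mul_inv _ _
  rw [e]
  refine ⟨(integrable_inv_one_add_sq.comp_mul_left' hε.ne').const_mul ε, ?_⟩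
  rw [integral_const_mul, Measure.integral_comp_mul_left (fun x : ℝ => (1 + x ^ 2)⁻¹) ε,
    integral_univ_inv_one_add_sq, abs_of_pos (inv_pos.2 hε), smul_eq_mul]
  field_simp

lemma w_sum {ε : ℝ} (hε : 0 < ε) (hε1 : ε ≤ 1) (s : ℝ) :
    Summable (fun n : ℤ => w ε (s - n)) ∧ ∑' n : ℤ, w ε (s - n) ≤ 12 := by
  have h := ((w_int hε).1.hasSum_intervalIntegral (-s)).mul_left 3
  have hle : ∀ n : ℤ, w ε (s - n) ≤ 3 * ∫ x in -s + n..-s + n + 1, w ε x := fun n => by
    rw [← intervalIntegral.integral_const_mul]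
    have := intervalIntegral.integral_mono_on (f := fun _ => w ε (s - n))
      (g := fun x => 3 * w ε x) (μ := volume) (a := -s + n) (b := -s + n + 1) (by linarith)
      (by simp) ((w_int hε).1.const_mul 3).intervalIntegrable fun x hx => by
        have : w ε (s - n) = w ε (-s + n) := by unfold w; ring
        rw [this]
        exact w_near hε hε1 (by rw [abs_le]; constructor <;> linarith [hx.1, hx.2])
    simpa using this
  have hs := Summable.of_nonneg_of_le (fun n => (w_pos hε _).le) hle h.summable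
  refine ⟨hs, (hs.tsum_le_tsum hle h.summable).trans ?_⟩
  rw [h.tsum_eq, (w_int hε).2]; linarith [pi_lt_four]

lemma w_sum' {ε : ℝ} (hε : 0 < ε) (M : ℕ) (hM : ε * M = 1) (s : ℝ) :
    Summable (fun j : ℕ => w ε (s - M * j)) ∧ ∑' j : ℕ, w ε (s - M * j) ≤ 12 * ε := by
  have e : ∀ j : ℕ, w ε (s - M * j) = ε * w 1 (ε * s - (j : ℤ)) := fun j => by
    unfold w
    rw [mul_sub, ← mul_assoc, hM]; push_cast; ring
  simp only [e]
  obtain ⟨h1, h2⟩ := w_sum one_pos le_rfl (ε * s)
  refine ⟨(h1.comp_injective Nat.cast_injective).mul_left ε, ?_⟩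
  rw [tsum_mul_left, mul_comm 12]
  refine mul_le_mul_of_nonneg_left (le_trans ?_ h2) hε.le
  exact tsum_comp_le_tsum_of_inj h1 (fun n => (w_pos one_pos _).le) Nat.cast_injective

lemma bd {ι : Type} {g v : ι → ℝ} {C : ℝ} (hv : Summable v ∧ ∑' i, v i ≤ C) (K : ℝ) (hK : 0 ≤ K)
    (h : ∀ i, |g i| ≤ K * v i) :
    Summable (fun i => |g i|) ∧ ∑' i, |g i| ≤ K * C ∧ Summable g ∧ |∑' i, g i| ≤ K * C := by
  have h1 := Summable.of_nonneg_of_le (fun i => abs_nonneg _) h (hv.1.mul_left K)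
  have h2 : ∑' i, |g i| ≤ K * C := (h1.tsum_le_tsum h (hv.1.mul_left K)).trans (by
    rw [tsum_mul_left]; exact mul_le_mul_of_nonneg_left hv.2 hK)
  exact ⟨h1, h2, h1.of_abs, (norm_tsum_le_tsum_norm (f := g) h1).trans h2⟩

lemma fub {ι : Type} (a : ℤ → ι → ℝ) (F : ℤ → ℂ) (C : ℝ) (hF : Summable fun m => ‖F m‖)
    (ha : ∀ m, Summable (fun i => |a m i|) ∧ ∑' i, |a m i| ≤ C) :
    ∑' i, ∑' m, (a m i : ℂ) * F m = ∑' m, ((∑' i, a m i : ℝ) : ℂ) * F m := by
  have hs : Summable (Function.uncurry fun m i => (a m i : ℂ) * F m) := by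
    refine Summable.of_norm ?_
    simp only [Function.uncurry, norm_mul, Complex.norm_real, Real.norm_eq_abs]
    refine (summable_prod_of_nonneg fun p => by positivity).2 ⟨fun m => (ha m).1.mul_right ‖F m‖, ?_⟩
    refine Summable.of_nonneg_of_le (fun m => tsum_nonneg fun i => by positivity)
      (fun m => ?_) (hF.mul_left C)
    dsimp only
    rw [tsum_mul_right]
    exact mul_le_mul_of_nonneg_right (ha m).2 (norm_nonneg _)
  rw [hs.tsum_comm]
  simp only [tsum_mul_right, Complex.ofReal_tsum]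

lemma fix (H : ℝ → ℝ → ℝ) (B : ℤ → ℝ) (ε r L : ℝ) (hε : 0 < ε) (hε1 : ε ≤ 1) (hr : 0 ≤ r)
    (hL0 : 0 ≤ L) (hL : L * 12 ≤ 1 / 2) (hB : ∀ m, |B m| ≤ r / 2) (H0 : ∀ y, H y 0 = 0)
    (HL : ∀ y a b, |a| ≤ r → |b| ≤ r → |H y a - H y b| ≤ L * |a - b| * w ε y) :
    ∃ α : ℤ → ℝ, (∀ n, |α n| ≤ r) ∧ ∀ m, α m = B m + ∑' n : ℤ, H (m - n) (α n) := by
  let cl : ℝ → ℝ := fun a => max (-r) (min r a)
  have c1 : ∀ a, |cl a| ≤ r := fun a => abs_le.2 ⟨le_max_left _ _, max_le (by linarith) (min_le_left _ _)⟩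
  have c2 : ∀ a b, |cl a - cl b| ≤ |a - b| := fun a b =>
    (abs_max_sub_max_le_max _ _ _ _).trans (max_le (by simp)
      ((abs_min_sub_min_le_max _ _ _ _).trans (max_le (by simp) le_rfl)))
  have s1 : ∀ (β : ℤ → ℝ) (m : ℤ), Summable (fun n : ℤ => H (m - n) (cl (β n))) ∧
      |∑' n : ℤ, H (m - n) (cl (β n))| ≤ L * r * 12 := fun β m =>
    (bd (w_sum hε hε1 m) (L * r) (by positivity) fun n => by
      have := HL (m - n) (cl (β n)) 0 (c1 _) (by simpa using hr)
      rw [H0, sub_zero, sub_zero] at this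
      refine this.trans ?_
      have := w_pos hε (m - n)
      gcongr; exact c1 _).2.2
  have s2 : ∀ (β : ℤ → ℝ) (m : ℤ), |B m + ∑' n : ℤ, H (m - n) (cl (β n))| ≤ r := fun β m => by
    have := (s1 β m).2; have := hB m
    refine (abs_add_le _ _).trans ?_
    nlinarith
  let Ψ : (ℤ →ᵇ ℝ) → (ℤ →ᵇ ℝ) := fun β => BoundedContinuousFunction.ofNormedAddCommGroupDiscrete
    (fun m => B m + ∑' n : ℤ, H (m - n) (cl (β n))) r (s2 β)
  have hc : ContractingWith (1 / 2) Ψ := by
    refine ⟨by norm_num, LipschitzWith.of_dist_le_mul fun β γ => ?_⟩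
    refine (BoundedContinuousFunction.dist_le (by positivity)).2 fun m => ?_
    change |(B m + ∑' n : ℤ, H (m - n) (cl (β n))) - (B m + ∑' n : ℤ, H (m - n) (cl (γ n)))| ≤ _
    rw [add_sub_add_left_eq_sub, ← (s1 β m).1.tsum_sub (s1 γ m).1]
    have := (bd (w_sum hε hε1 m) (L * dist β γ) (by positivity) fun n => by
      refine (HL (m - n) (cl (β n)) (cl (γ n)) (c1 _) (c1 _)).trans ?_
      have := w_pos hε (m - n)
      gcongr
      exact (c2 _ _).trans (BoundedContinuousFunction.dist_coe_le_dist (f := β) (g := γ) n)).2.2.2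
    refine this.trans ?_
    have := dist_nonneg (x := β) (y := γ)
    push_cast; nlinarith
  have hf := hc.fixedPoint_isFixedPt
  set α := hc.fixedPoint Ψ
  have h1 : ∀ m, α m = B m + ∑' n : ℤ, H (m - n) (cl (α n)) := fun m =>
    (congrArg (fun g : ℤ →ᵇ ℝ => g m) hf.eq).symm
  have h2 : ∀ n, |α n| ≤ r := fun n => by rw [h1]; exact s2 α n
  refine ⟨α, h2, fun m => ?_⟩
  rw [h1 m]
  congr 2; ext n
  have := abs_le.1 (h2 n)
  simp only [cl, min_eq_right this.2, max_eq_right this.1]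

theorem main : ∃ (f : ℝ → ℂ) (α : ℤ → ℝ) (M : ℕ), Integrable f ∧ Continuous f ∧ f 0 ≠ 0 ∧ 0 < M ∧
    (∀ n, |α n| ≤ 1 / 8) ∧ ∀ x : ℝ,
      Summable (fun n : ℤ => ‖f (x - (n + α n))‖) ∧
      Summable (fun j : ℕ => ‖f (x - (M * j + 1 / 2))‖) ∧
      ∑' n : ℤ, f (x - (n + α n)) + ∑' j : ℕ, f (x - (M * j + 1 / 2)) = 0 := by
  obtain ⟨A, hA, h⟩ := pack
  obtain ⟨M, hM⟩ := exists_nat_ge (24 * (A * (72 * A + 1)) + 192 * A + 8)
  have hA2 : 0 < A * (72 * A + 1) := by positivity
  have M0 : (0 : ℝ) < M := by linarith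
  set ε : ℝ := 1 / M with hε'
  have hε : 0 < ε := by positivity
  have hεM : ε * M = 1 := by rw [hε']; field_simp
  have hε8 : ε ≤ 1 / 8 := by nlinarith
  have hε1 : ε ≤ 1 := by linarith
  obtain ⟨k, u, e, k2, f, c, d1, d2, bk, bu, be, bk2, ko, bf, cf, f0, c0, S1, S2⟩ := h ε hε hε8
  set r := 24 * A * ε with hr
  have r0 : 0 ≤ r := by positivity
  have r8 : r ≤ 1 / 8 := by nlinarith
  have sB := fun m : ℝ => bd (g := fun j : ℕ => k (m - (M * j + 1 / 2)))
    (w_sum' hε M hεM (m - 1 / 2)) A hA.le fun j => by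
      rw [show m - 1 / 2 - M * j = m - (M * j + 1 / 2) by ring]; exact bk _
  obtain ⟨α, hα, hfix⟩ := fix (fun y a => k (y - a) - k y + a * u y)
    (fun m => ∑' j : ℕ, k (m - (M * j + 1 / 2))) ε r (A * (3 * r + ε)) hε hε1 r0 (by positivity)
    (by rw [hr]; nlinarith) (fun m => (sB m).2.2.2.trans (by rw [hr]; linarith)) (by simp)
    fun y a b ha hb => by
      have hw := w_pos hε y
      have hd : ∀ s ∈ Icc (-r) r, HasDerivWithinAt (fun a => k (y - a) - k y + a * u y)
          (-(u (y - s) + e (y - s)) + u y) (Icc (-r) r) s := fun s _ => by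
        have := (((d1 (y - s)).comp_const_sub y s).sub_const (k y)).add
          ((hasDerivAt_id s).mul_const (u y))
        rw [one_mul] at this
        exact this.hasDerivWithinAt
      have hb' : ∀ s ∈ Icc (-r) r, ‖-(u (y - s) + e (y - s)) + u y‖ ≤ A * (3 * r + ε) * w ε y := by
        intro s hs
        have h1 := (convex_Icc (y - r) (y + r)).norm_image_sub_le_of_norm_hasDerivWithin_le
          (f := fun y => u y + e y) (C := 3 * A * w ε y) (fun z _ => (d2 z).hasDerivWithinAt)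
          (fun z hz => (bk2 z).trans (by
            have := w_near hε hε1 (y := z) (z := y)
              (by rw [abs_le]; constructor <;> linarith [hz.1, hz.2])
            nlinarith)) (x := y - s) (y := y) ⟨by linarith [hs.2], by linarith [hs.1]⟩
          ⟨by linarith, by linarith⟩
        rw [sub_sub_cancel, Real.norm_eq_abs, Real.norm_eq_abs] at h1
        have h2 : 3 * A * w ε y * |s| ≤ 3 * A * w ε y * r := by gcongr; exact abs_le.2 hs
        have h3 := abs_le.1 (be y)
        have h4 := abs_le.1 (h1.trans h2)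
        rw [Real.norm_eq_abs, abs_le]
        constructor <;> nlinarith [h3.1, h3.2, h4.1, h4.2]
      have := (convex_Icc (-r) r).norm_image_sub_le_of_norm_hasDerivWithin_le hd hb'
        (abs_le.1 hb) (abs_le.1 ha)
      rw [Real.norm_eq_abs, Real.norm_eq_abs] at this
      linarith
  have near : ∀ (s : ℝ) (n : ℤ), A * w ε (s - (n + α n)) ≤ 3 * A * w ε (s - n) := fun s n => by
    have := w_near hε hε1 (y := s - (n + α n)) (z := s - n) (by
      rw [show s - (n + α n) - (s - n) = -α n by ring, abs_neg]; linarith [hα n])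
    nlinarith
  refine ⟨f, α, M, ((w_int hε).1.const_mul A).mono' cf.aestronglyMeasurable
    (Filter.Eventually.of_forall bf), cf, f0, by exact_mod_cast M0, fun n => (hα n).trans r8,
    fun x => ⟨?_, ?_, ?_⟩⟩
  · exact Summable.of_nonneg_of_le (fun _ => norm_nonneg _) (fun n => (bf _).trans (near x n))
      ((w_sum hε hε1 x).1.mul_left _)
  · refine Summable.of_nonneg_of_le (fun _ => norm_nonneg _) (fun j => ?_)
      ((w_sum' hε M hεM (x - 1 / 2)).1.mul_left A)
    rw [show x - 1 / 2 - M * j = x - (M * j + 1 / 2) by ring]; exact bf _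
  have hF : Summable fun m : ℤ => ‖f (x - m)‖ :=
    Summable.of_nonneg_of_le (fun _ => norm_nonneg _) (fun n => bf _)
      ((w_sum hε hε1 x).1.mul_left _)
  have s1 := fun m : ℝ => bd (g := fun n : ℤ => k (m - (n + α n))) (w_sum hε hε1 m) (3 * A)
    (by positivity) fun n => (bk _).trans (near m n)
  have s2 := fun m : ℝ => bd (g := fun n : ℤ => k (m - n)) (w_sum hε hε1 m) A hA.le fun n => bk _
  have s3 := fun m : ℝ => bd (g := fun n : ℤ => α n * u (m - n)) (w_sum hε hε1 m) (r * A)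
    (by positivity) fun n => by
      rw [abs_mul, mul_assoc]; exact mul_le_mul (hα n) (bu _) (abs_nonneg _) r0
  have z : ∀ m : ℤ, ∑' n : ℤ, k (m - n) = 0 := fun m => by
    have := (Equiv.subLeft (2 * m)).tsum_eq (fun n : ℤ => k (m - n))
    have e2 : ∀ n : ℤ, k (m - ((Equiv.subLeft (2 * m)) n : ℤ)) = - k (m - n) := fun n => by
      rw [← ko]; simp only [Equiv.subLeft_apply]; push_cast; ring_nf
    simp only [e2, tsum_neg] at this
    linarith
  have cm : ∀ m : ℤ, ∑' n : ℤ, k (m - (n + α n)) + ∑' j : ℕ, k (m - (M * j + 1 / 2)) =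
      α m - ∑' n : ℤ, α n * u (m - n) := fun m => by
    have := hfix m
    simp only [sub_sub] at this
    rw [((s1 m).2.2.1.sub (s2 m).2.2.1).tsum_add (s3 m).2.2.1,
      (s1 m).2.2.1.tsum_sub (s2 m).2.2.1, z] at this
    linarith
  have sm : ∀ (g : ℤ → ℝ) (C : ℝ), (∀ m, |g m| ≤ C) → Summable fun m : ℤ => (g m : ℂ) * f (x - m) :=
    fun g C hg => Summable.of_norm_bounded (hF.mul_left C) fun m => by
      rw [norm_mul, Complex.norm_real, Real.norm_eq_abs]
      exact mul_le_mul_of_nonneg_right (hg m) (norm_nonneg _)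
  refine mul_left_cancel₀ c0 ?_
  rw [mul_add, ← tsum_mul_left, ← tsum_mul_left, mul_zero]
  simp only [← (S1 x _).tsum_eq]
  rw [fub (fun m n => k (m - (n + α n))) _ _ hF fun m => ⟨(s1 m).1, (s1 m).2.1⟩,
    fub (fun m (j : ℕ) => k (m - (M * j + 1 / 2))) _ _ hF fun m => ⟨(sB m).1, (sB m).2.1⟩,
    ← (sm _ _ fun m => (s1 m).2.2.2).tsum_add (sm _ _ fun m => (sB m).2.2.2)]
  simp only [← add_mul, ← Complex.ofReal_add, cm, Complex.ofReal_sub, sub_mul]
  rw [(sm _ _ hα).tsum_sub (sm _ _ fun m => (s3 m).2.2.2),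
    ← fub (fun m n => α n * u (m - n)) _ _ hF fun m => ⟨(s3 m).1, (s3 m).2.1⟩, sub_eq_zero]
  refine tsum_congr fun n => ?_
  simp only [Complex.ofReal_mul, mul_assoc, tsum_mul_left, (S2 x _).tsum_eq]


/-- The negation of the preceding statement: Suppose f is integrable and not a.e. zero, and Λ is a nonempty set of bounded density with the sum over Λ of f(x-λ) absolutely convergent and zero for a.e. x. Then there is D>0 with #(Λ∩[x,x+r)) = Dr + o(r) as r→∞, uniformly in x. -/
theorem result :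
    ¬ (∀ (f : ℝ → ℂ) (Λ : Set ℝ),
      Integrable f volume →
      ¬ (f =ᵐ[volume] 0) →
      Λ.Nonempty →
      (∃ M : ℕ, ∀ x : ℝ, (Λ ∩ Set.Ico x (x + 1)).encard ≤ (M : ℕ∞)) →
      (∀ᵐ x ∂(volume : Measure ℝ),
        Summable (fun l : Λ => ‖f (x - (l : ℝ))‖) ∧
        ∑' l : Λ, f (x - (l : ℝ)) = 0) →
      ∃ D : ℝ, 0 < D ∧
        ∀ ε : ℝ, 0 < ε → ∃ R : ℝ, 0 < R ∧
          ∀ r : ℝ, R ≤ r → ∀ x : ℝ,
            |((Λ ∩ Set.Ico x (x + r)).ncard : ℝ) - D * r| ≤ ε * r) := by
  intro H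
  obtain ⟨f, α, M, fi, cf, f0, M0, hα, hs⟩ := main
  have ha := fun n => abs_le.1 (hα n)
  let p : ℤ ⊕ ℕ → ℝ := Sum.elim (fun n => n + α n) (fun j => M * j + 1 / 2)
  have hp : Function.Injective p := by
    rintro (a | a) (b | b) h <;> simp only [p, Sum.elim_inl, Sum.elim_inr] at h
    · have h1 : (a : ℝ) < b + 1 := by linarith [ha a, ha b]
      have h2 : (b : ℝ) < a + 1 := by linarith [ha a, ha b]
      have h1' : a < b + 1 := by exact_mod_cast h1
      have h2' : b < a + 1 := by exact_mod_cast h2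
      congr 1; omega
    · have h1 : (a : ℝ) < M * b + 1 := by linarith [ha a]
      have h2 : (M * b : ℝ) < a := by linarith [ha a]
      have h1' : a < M * b + 1 := by exact_mod_cast h1
      have h2' : (M * b : ℤ) < a := by exact_mod_cast h2
      omega
    · have h1 : (b : ℝ) < M * a + 1 := by linarith [ha b]
      have h2 : (M * a : ℝ) < b := by linarith [ha b]
      have h1' : b < M * a + 1 := by exact_mod_cast h1
      have h2' : (M * a : ℤ) < b := by exact_mod_cast h2
      omega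
    · have h1 : M * a = M * b := by exact_mod_cast add_right_cancel h
      rw [Nat.eq_of_mul_eq_mul_left M0 h1]
  refine absurd (H f (range p) fi (fun h => f0 (congrFun
    ((cf.ae_eq_iff_eq volume continuous_zero).1 h) 0)) (range_nonempty p) ⟨8, fun x => ?_⟩
    (Filter.Eventually.of_forall fun x => ?_)) ?_
  rotate_left 2
  · rintro ⟨D, -, hD⟩
    have M0' : (0 : ℝ) < M := by exact_mod_cast M0
    obtain ⟨R, hR, h⟩ := hD (1 / (4 * M)) (by positivity)
    obtain ⟨N, hN⟩ := exists_nat_ge R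
    have M1 : (1 : ℝ) ≤ M := by exact_mod_cast M0
    have hL : R ≤ (M * N : ℕ) := by push_cast; nlinarith
    have h1 := abs_le.1 (h _ hL (-(M * N : ℕ) - 1 / 4))
    have h2 := abs_le.1 (h _ hL (-1 / 4))
    have c1 : (range p ∩ Ico (-(M * N : ℕ) - 1 / 4 : ℝ) (-(M * N : ℕ) - 1 / 4 + (M * N : ℕ))).ncard
        ≤ M * N := by
      refine (ncard_le_ncard (t := ((Finset.Ico (-(M * N : ℕ) : ℤ) 0).image (p ∘ Sum.inl) : Finset ℝ))
        ?_ (Finset.finite_toSet _)).trans ?_
      · rintro _ ⟨⟨a | a, rfl⟩, h1, h2⟩ <;> simp only [p, Sum.elim_inl, Sum.elim_inr] at h1 h2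
        · refine Finset.mem_coe.2 (Finset.mem_image.2 ⟨a, Finset.mem_Ico.2 ⟨?_, ?_⟩, rfl⟩)
          · have : (-(M * N : ℕ) : ℝ) < a + 1 := by linarith [ha a]
            have : (-(M * N : ℕ) : ℤ) < a + 1 := by exact_mod_cast this
            omega
          · exact_mod_cast (show (a : ℝ) < 0 by linarith [ha a])
        · have : (0 : ℝ) ≤ M * a := by positivity
          linarith
      · rw [ncard_coe_finset]
        exact Finset.card_image_le.trans (by simp)
    have c2 : (range p ∩ Ico (-1 / 4 : ℝ) (-1 / 4 + (M * N : ℕ))) =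
        (((Finset.Ico (0 : ℤ) (M * N : ℕ)).disjSum (Finset.range N)).image p : Finset ℝ) := by
      ext y
      simp only [Finset.coe_image, mem_image, Finset.mem_coe, mem_inter_iff, mem_range, mem_Ico]
      constructor
      · rintro ⟨⟨a | a, rfl⟩, h1, h2⟩ <;> simp only [p, Sum.elim_inl, Sum.elim_inr] at h1 h2
        · refine ⟨_, Finset.inl_mem_disjSum.2 (Finset.mem_Ico.2 ⟨?_, ?_⟩), rfl⟩
          · have : (0 : ℝ) < a + 1 := by linarith [ha a]
            have : 0 < a + 1 := by exact_mod_cast this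
            omega
          · exact_mod_cast (show (a : ℝ) < (M * N : ℕ) by linarith [ha a])
        · refine ⟨_, Finset.inr_mem_disjSum.2 (Finset.mem_range.2 ?_), rfl⟩
          have : M * a < M * N := by exact_mod_cast (show (M * a : ℝ) < (M * N : ℕ) by linarith)
          exact Nat.lt_of_mul_lt_mul_left this
      · rintro ⟨a | a, h1, rfl⟩ <;> refine ⟨⟨_, rfl⟩, ?_⟩ <;>
          simp only [p, Sum.elim_inl, Sum.elim_inr]
        · obtain ⟨h2, h3⟩ := Finset.mem_Ico.1 (Finset.inl_mem_disjSum.1 h1)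
          have h2' : (0 : ℝ) ≤ a := by exact_mod_cast h2
          have h3' : (a : ℝ) + 1 ≤ (M * N : ℕ) := by exact_mod_cast h3
          constructor <;> linarith [ha a]
        · have h2 : M * (a + 1) ≤ M * N :=
            Nat.mul_le_mul_left _ (Finset.mem_range.1 (Finset.inr_mem_disjSum.1 h1))
          have h3 : (M * (a + 1) : ℝ) ≤ (M * N : ℕ) := by exact_mod_cast h2
          have : (0 : ℝ) ≤ M * a := by positivity
          constructor <;> nlinarith
    rw [c2, ncard_coe_finset, Finset.card_image_of_injective _ hp] at h2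
    have c1' : ((range p ∩ Ico (-(M * N : ℕ) - 1 / 4 : ℝ)
      (-(M * N : ℕ) - 1 / 4 + (M * N : ℕ))).ncard : ℝ) ≤ (M * N : ℕ) := by exact_mod_cast c1
    have e : 1 / (4 * M : ℝ) * (M * N : ℕ) = N / 4 := by push_cast; field_simp
    rw [e] at h1 h2
    simp only [Finset.card_disjSum, Int.card_Ico, sub_zero, Int.toNat_natCast, Finset.card_range,
      Nat.cast_add] at h2
    linarith [h1.1, h2.2]
  · let S := Finset.Ioc (⌊x⌋ - 2) (⌊x⌋ + 2)
    have hS : S.card = 4 := by simp [S]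
    refine (encard_le_encard (t := (S.image (fun n : ℤ => n + α n) ∪
      S.image (fun n : ℤ => (n : ℝ) + 1 / 2) : Finset ℝ)) ?_).trans ?_
    · have f1 := Int.floor_le x
      have f2 := Int.lt_floor_add_one x
      have key : ∀ n : ℤ, x - 1 < n → (n : ℝ) < x + 5 / 4 → n ∈ S := fun n h1 h2 => by
        have a : (⌊x⌋ : ℝ) - 2 < n := by linarith
        have b : (n : ℝ) < ⌊x⌋ + 3 := by linarith
        have a' : ⌊x⌋ - 2 < n := by exact_mod_cast a
        have b' : n < ⌊x⌋ + 3 := by exact_mod_cast b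
        exact Finset.mem_Ioc.2 ⟨a', by omega⟩
      rintro _ ⟨⟨a | a, rfl⟩, h1, h2⟩ <;> simp only [p, Sum.elim_inl, Sum.elim_inr] at h1 h2 ⊢ <;>
        refine Finset.mem_coe.2 (Finset.mem_union.2 ?_)
      · exact Or.inl (Finset.mem_image.2 ⟨a, key a (by linarith [ha a]) (by linarith [ha a]), rfl⟩)
      · refine Or.inr (Finset.mem_image.2 ⟨M * a, key _ ?_ ?_, by push_cast; rfl⟩) <;>
          push_cast <;> linarith
    · rw [encard_coe_eq_coe_finsetCard]
      have a := Finset.card_image_le (s := S) (f := fun n : ℤ => n + α n)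
      have b := Finset.card_image_le (s := S) (f := fun n : ℤ => (n : ℝ) + 1 / 2)
      have := Finset.card_union_le (S.image (fun n : ℤ => n + α n))
        (S.image (fun n : ℤ => (n : ℝ) + 1 / 2))
      exact_mod_cast (by omega)
  · obtain ⟨h1, h2, h3⟩ := hs x
    refine ⟨(Equiv.ofInjective p hp).summable_iff.1
      (HasSum.sum (f := fun i => ‖f (x - p i)‖) h1.hasSum h2.hasSum).summable, ?_⟩
    rw [← (Equiv.ofInjective p hp).tsum_eq, ← h3]
    exact (HasSum.sum (f := fun i => f (x - p i)) h1.of_norm.hasSum h2.of_norm.hasSum).tsum_eq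

end Pool.Agent.S04088
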