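import Pool.Statements.S04098
import Pool.Agent.Lib.helper11.ChiharaB

set_option autoImplicit false
open Pool Pool.MP_268976_an

namespace Pool.Agent.S04098

open Pool.Agent.Lib.H11Chihara Finset

lemma tsum_C (x : ℕ → ℂ) (N : ℕ) (hx : ∀ n, N ≤ n → x n = 0) (t : ℝ) :
    ∑' k : ℕ, ‖opC al be x k - (t : ℂ) * x k‖ ^ 2 =
      ∑ k ∈ range (N + 1), ‖opC al be x k - (t : ℂ) * x k‖ ^ 2 := by
  refine tsum_eq_sum fun k hk => ?_
  have hk' : N + 1 ≤ k := by simpa using hk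
  unfold opC
  rw [if_neg (by omega), hx (k - 1) (by omega), hx k (by omega), hx (k + 1) (by omega)]
  simp

lemma tsum_x (x : ℕ → ℂ) (N : ℕ) (hx : ∀ n, N ≤ n → x n = 0) :
    ∑' k : ℕ, ‖x k‖ ^ 2 = ∑ k ∈ range N, ‖x k‖ ^ 2 := by
  refine tsum_eq_sum fun k hk => ?_
  have hk' : N ≤ k := by simpa using hk
  rw [hx k hk']; simp

def SS : Set ℝ := {t : ℝ | ∀ ε : ℝ, 0 < ε → ∀ n : ℕ, ∃ V : Submodule ℂ (ℕ →₀ ℂ),
  Module.finrank ℂ V = n ∧ ∀ x ∈ V,
    ∑' k : ℕ, ‖opC al be x k - (t : ℂ) * x k‖ ^ 2 ≤ ε ^ 2 * ∑' k : ℕ, ‖x k‖ ^ 2}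

lemma not_mem_SS (t c : ℝ) (hc : 0 < c) (h : ∀ (x : ℕ → ℂ) (N : ℕ), (∀ n, N ≤ n → x n = 0) →
    ∃ M, N ≤ M ∧ c * ∑ k ∈ range M, ‖x k‖ ^ 2 ≤
      ∑ k ∈ range (M + 1), ‖opC al be x k - (t : ℂ) * x k‖ ^ 2) : t ∉ SS := by
  intro ht
  obtain ⟨V, hV, hV'⟩ := ht (Real.sqrt (c / 2)) (Real.sqrt_pos.2 (by positivity)) 1
  have hne : V ≠ ⊥ := by
    rintro rfl
    simp at hV
  obtain ⟨x, hxV, hx0⟩ := Submodule.exists_mem_ne_zero_of_ne_bot hne
  obtain ⟨N, hN⟩ := x.support.bddAbove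
  have hx : ∀ n, N + 1 ≤ n → x n = 0 := by
    intro n hn
    by_contra h0
    have := hN (Finsupp.mem_support_iff.2 h0)
    omega
  obtain ⟨M, hM, hle⟩ := h x (N + 1) hx
  have hx' : ∀ n, M ≤ n → x n = 0 := fun n hn => hx n (hM.trans hn)
  have h1 := hV' x hxV
  rw [tsum_C x M hx', tsum_x x M hx', Real.sq_sqrt (by positivity)] at h1
  obtain ⟨j, hj⟩ := Finsupp.ne_iff.1 hx0
  have hj' : x j ≠ 0 := hj
  have hjM : j < M := by
    by_contra h0
    exact hj' (hx' j (by omega))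
  have h2 : ‖x j‖ ^ 2 ≤ ∑ k ∈ range M, ‖x k‖ ^ 2 :=
    single_le_sum (f := fun k => ‖x k‖ ^ 2) (fun k _ => sq_nonneg _) (mem_range.2 hjM)
  have h3 : 0 < ‖x j‖ ^ 2 := by positivity
  nlinarith

noncomputable def ext (K n : ℕ) (y : Fin n → ℂ) (κ : ℕ) : ℂ :=
  if h : K + 1 ≤ κ ∧ κ < K + 1 + n then y ⟨κ - (K + 1), by omega⟩ else 0

lemma blk_ext_zero (K n : ℕ) (y : Fin n → ℂ) (j : ℕ) (hj : 2 ^ (K + 1 + n) ≤ j) :
    blk (ext K n y) j = 0 := by
  have h1 : K + 1 + n ≤ kk j := by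
    unfold kk
    exact Nat.le_log_of_pow_le (by norm_num) (by omega)
  unfold blk ext
  rw [dif_neg (by omega), zero_mul]

noncomputable def TT (K n : ℕ) : (Fin n → ℂ) →ₗ[ℂ] (ℕ →₀ ℂ) where
  toFun y := Finsupp.onFinset (range (2 ^ (K + 1 + n))) (blk (ext K n y)) (by
    intro j hj
    by_contra h
    exact hj (blk_ext_zero K n y j (by simpa using h)))
  map_add' y z := by
    ext j
    simp only [Finsupp.onFinset_apply, Finsupp.add_apply, blk, ext]
    split_ifs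
    · simp only [Pi.add_apply]; ring
    · simp
  map_smul' c y := by
    ext j
    simp only [Finsupp.onFinset_apply, Finsupp.smul_apply, blk, ext]
    split_ifs
    · simp only [Pi.smul_apply, smul_eq_mul, RingHom.id_apply]; ring
    · simp

lemma TT_inj (K n : ℕ) (hK : 10 ≤ K) : Function.Injective (TT K n) := by
  rw [injective_iff_map_eq_zero]
  intro y hy
  funext i
  have h1 : 2 ^ 10 ≤ 2 ^ (K + 1 + i) := Nat.pow_le_pow_right (by norm_num) (by omega)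
  have h2 : kk (2 ^ (K + 1 + i) - 1024) = K + 1 + i := by
    apply kk_eq
    · omega
    · rw [pow_succ]; omega
  have h3 : TT K n y (cc (2 ^ (K + 1 + i) - 1024)) = 0 := by rw [hy]; rfl
  have h4 : TT K n y (cc (2 ^ (K + 1 + i) - 1024)) =
    blk (ext K n y) (cc (2 ^ (K + 1 + i) - 1024)) := rfl
  rw [h4, blk_cc, h2] at h3
  unfold ext at h3
  rw [dif_pos ⟨by omega, by have := i.2; omega⟩] at h3
  simpa using h3

lemma zero_mem_SS : (0 : ℝ) ∈ SS := by
  intro ε hε n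
  obtain ⟨K, hK, h⟩ := small_C ε hε
  refine ⟨LinearMap.range (TT K n), ?_, ?_⟩
  · rw [LinearMap.finrank_range_of_inj (TT_inj K n hK)]; simp
  · rintro _ ⟨y, rfl⟩
    have e : ⇑(TT K n y) = blk (ext K n y) := rfl
    rw [e, tsum_C _ _ (blk_ext_zero K n y), tsum_x _ _ (blk_ext_zero K n y)]
    have := h (ext K n y) (fun κ hκ => by unfold ext; rw [dif_neg (by omega)]) _
      (blk_ext_zero K n y)
    simpa using this

/-- The negation of the preceding statement: For a Jacobi operator with positive off-diagonals a, diagonal b tending to infinity, a_n^2/(b_n b_{n+1}) tending to 1/4 and zero deficiency: if its essential spectrum has a least point ρ, then the essential spectrum equals [ρ, ∞). -/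
theorem result :
    ¬ (∀ (a b : ℕ → ℝ), (∀ n, 0 < a n) →
      Filter.Tendsto b Filter.atTop Filter.atTop →
      Filter.Tendsto (fun n => a n ^ 2 / (b n * b (n + 1))) Filter.atTop (nhds (1 / 4 : ℝ)) →
      (∀ u : ℕ → ℂ, Summable (fun k => ‖u k‖ ^ 2) →
        (∀ k : ℕ, (if k = 0 then (0 : ℂ) else (a (k - 1) : ℂ) * u (k - 1))
            + (b k : ℂ) * u k + (a k : ℂ) * u (k + 1) = Complex.I * u k) → u = 0) →
      ∀ S : Set ℝ,
        S = {t : ℝ | ∀ ε : ℝ, 0 < ε → ∀ n : ℕ, ∃ V : Submodule ℂ (ℕ →₀ ℂ),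
              Module.finrank ℂ V = n ∧ ∀ x ∈ V,
                ∑' k : ℕ, ‖(if k = 0 then (0 : ℂ) else (a (k - 1) : ℂ) * x (k - 1))
                    + (b k : ℂ) * x k + (a k : ℂ) * x (k + 1) - (t : ℂ) * x k‖ ^ 2
                  ≤ ε ^ 2 * ∑' k : ℕ, ‖x k‖ ^ 2} →
        ∀ ρ : ℝ, IsLeast S ρ → S = Set.Ici ρ) := by
  intro H
  have h := H (aa al be) (bb al be) aa_pos bb_tendsto quarter
    (fun u hu h => deficiency al be 1024 aa_pos aa_le u hu h) SS rfl 0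
    ⟨zero_mem_SS, fun t ht => by
      by_contra hneg
      have hneg' : t < 0 := not_le.1 hneg
      exact not_mem_SS t (t ^ 2 / 4) (by have := hneg'.ne; positivity)
        (fun x N hx => ⟨N, le_rfl, gap_neg x N hx t hneg'⟩) ht⟩
  refine not_mem_SS (1 / 2) (1 / 64) (by norm_num)
    (fun x N hx => ⟨2 * N + 1025, by omega, gap_half x N hx⟩) ?_
  rw [h]
  norm_num

end Pool.Agent.S04098
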