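import Pool.Statements.S04108

set_option autoImplicit false
open Pool Pool.MP_275f89_an

namespace Pool.Agent.S04108

open Classical in
/-- the minimum when one argument equals 1 at the point 2, and the bottom element otherwise -/
noncomputable def tau (F G : ℝ → ℝ) : ℝ → ℝ :=
  if F 2 = 1 ∨ G 2 = 1 then fun x => min (F x) (G x) else fun _ => 0

def D : Set (ℝ → ℝ) :=
  {F : ℝ → ℝ | Monotone F ∧ (∀ x, 0 ≤ F x ∧ F x ≤ 1) ∧ (∀ x : ℝ, x ≤ 0 → F x = 0) ∧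
    ∀ x : ℝ, ContinuousWithinAt F (Set.Iio x) x}

lemma tau_mem {F G : ℝ → ℝ} (hF : F ∈ D) (hG : G ∈ D) : tau F G ∈ D := by
  unfold tau
  split_ifs
  · refine ⟨hF.1.min hG.1, fun x => ⟨le_min (hF.2.1 x).1 (hG.2.1 x).1,
      (min_le_left _ _).trans (hF.2.1 x).2⟩, fun x hx => by simp [hF.2.2.1 x hx, hG.2.2.1 x hx],
      fun x => (hF.2.2.2 x).min (hG.2.2.2 x)⟩
  · exact ⟨monotone_const, fun x => by simp, fun x _ => rfl, fun x => continuousWithinAt_const⟩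

lemma tau_pos {F G : ℝ → ℝ} (h : F 2 = 1 ∨ G 2 = 1) : tau F G = fun x => min (F x) (G x) := by
  unfold tau; rw [if_pos h]

lemma tau_neg {F G : ℝ → ℝ} (h1 : F 2 ≠ 1) (h2 : G 2 ≠ 1) : tau F G = fun _ => 0 := by
  unfold tau; rw [if_neg (by tauto)]

lemma tau_zero {F : ℝ → ℝ} (hF : F ∈ D) : tau (fun _ => 0) F = fun _ => 0 := by
  unfold tau
  split_ifs
  · funext x; exact min_eq_left (hF.2.1 x).1
  · rfl

lemma tau_comm (F G : ℝ → ℝ) : tau F G = tau G F := by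
  unfold tau
  simp only [or_comm, min_comm]

lemma min_ne {F G : ℝ → ℝ} (hF : F ∈ D) (h : F 2 ≠ 1) : min (F 2) (G 2) ≠ 1 :=
  ((min_le_left _ _).trans_lt (lt_of_le_of_ne (hF.2.1 2).2 h)).ne

lemma tau_assoc {F G H : ℝ → ℝ} (hF : F ∈ D) (hG : G ∈ D) (hH : H ∈ D) :
    tau (tau F G) H = tau F (tau G H) := by
  by_cases h1 : F 2 = 1 <;> by_cases h2 : G 2 = 1 <;> by_cases h3 : H 2 = 1
  · rw [tau_pos (Or.inl h1), tau_pos (Or.inr h3), tau_pos (Or.inl h1), tau_pos (Or.inl h2)]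
    simp only [min_assoc]
  · rw [tau_pos (Or.inl h1), tau_pos (Or.inl (by simp [h1, h2])), tau_pos (Or.inl h1),
      tau_pos (Or.inl h2)]
    simp only [min_assoc]
  · rw [tau_pos (Or.inl h1), tau_pos (Or.inr h3), tau_pos (Or.inl h1), tau_pos (Or.inr h3)]
    simp only [min_assoc]
  · rw [tau_pos (Or.inl h1), tau_neg h2 h3, tau_comm F, tau_zero hF,
      tau_neg (by rw [min_comm]; exact min_ne hG h2) h3]
  · rw [tau_pos (Or.inr h2), tau_pos (Or.inr h3), tau_pos (F := G) (Or.inr h3),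
      tau_pos (Or.inr (by simp [h2, h3]))]
    simp only [min_assoc]
  · rw [tau_pos (Or.inr h2), tau_neg (min_ne hF h1) h3, tau_pos (Or.inl h2),
      tau_neg h1 (by rw [min_comm]; exact min_ne hH h3)]
  · rw [tau_neg h1 h2, tau_zero hH, tau_pos (Or.inr h3), tau_neg h1 (min_ne hG h2)]
  · rw [tau_neg h1 h2, tau_zero hH, tau_neg h2 h3, tau_comm F, tau_zero hF]

lemma tau_mono {F₁ F₂ G : ℝ → ℝ} (h2 : F₂ ∈ D) (hG : G ∈ D) (h : F₁ ≤ F₂) :
    tau F₁ G ≤ tau F₂ G := by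
  by_cases h1 : F₁ 2 = 1 ∨ G 2 = 1
  · have h3 : F₂ 2 = 1 ∨ G 2 = 1 := by
      rcases h1 with h1 | h1
      · exact Or.inl (le_antisymm (h2.2.1 2).2 (h1 ▸ h 2))
      · exact Or.inr h1
    rw [tau_pos h1, tau_pos h3]
    intro x; exact min_le_min (h x) le_rfl
  · push Not at h1
    rw [tau_neg h1.1 h1.2]
    intro x; exact ((tau_mem h2 hG).2.1 x).1

/-- a step function with steps at 0 and 1 -/
noncomputable def st (c : ℝ) (x : ℝ) : ℝ := if x ≤ 0 then 0 else if x ≤ 1 then 1 / 2 else c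

lemma st_mem {c : ℝ} (h1 : 1 / 2 ≤ c) (h2 : c ≤ 1) : st c ∈ D := by
  refine ⟨?_, ?_, ?_, ?_⟩
  · intro x y hxy
    unfold st
    split_ifs <;> linarith
  · intro x
    unfold st
    split_ifs <;> constructor <;> linarith
  · intro x hx; simp [st, hx]
  · intro x
    apply ContinuousWithinAt.congr_of_eventuallyEq (f := fun _ => st c x) continuousWithinAt_const
      _ rfl
    by_cases h0 : x ≤ 0
    · filter_upwards [self_mem_nhdsWithin] with y hy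
      have : y ≤ 0 := (le_of_lt hy).trans h0
      simp [st, h0, this]
    · by_cases h1 : x ≤ 1
      · filter_upwards [Ioo_mem_nhdsLT (not_le.1 h0)] with y hy
        have h3 : ¬ y ≤ 0 := not_le.2 hy.1
        have h4 : y ≤ 1 := hy.2.le.trans h1
        simp [st, h0, h1, h3, h4]
      · filter_upwards [Ioo_mem_nhdsLT (not_le.1 h1)] with y hy
        have h3 : ¬ y ≤ 0 := not_le.2 (by linarith [hy.1])
        have h4 : ¬ y ≤ 1 := not_le.2 hy.1
        simp [st, h0, h1, h3, h4]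

theorem result :
    ¬ (∀ D : Set (ℝ → ℝ),
      D = {F : ℝ → ℝ | Monotone F ∧ (∀ x, 0 ≤ F x ∧ F x ≤ 1) ∧ (∀ x : ℝ, x ≤ 0 → F x = 0) ∧
            ∀ x : ℝ, ContinuousWithinAt F (Set.Iio x) x} →
      ∀ τ : (ℝ → ℝ) → (ℝ → ℝ) → (ℝ → ℝ),
        (∀ F ∈ D, ∀ G ∈ D, τ F G ∈ D) →
        (∀ F ∈ D, ∀ G ∈ D, τ F G = τ G F) →
        (∀ F ∈ D, ∀ G ∈ D, ∀ H ∈ D, τ (τ F G) H = τ F (τ G H)) →
        (∀ F ∈ D, τ F (fun x : ℝ => if 0 < x then (1 : ℝ) else 0) = F) →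
        (∀ F₁ ∈ D, ∀ F₂ ∈ D, ∀ G ∈ D, F₁ ≤ F₂ → τ F₁ G ≤ τ F₂ G) →
        ∀ a : ℝ, 0 < a →
          ∀ F₁ ∈ D, ∀ F₂ ∈ D, ∀ G₁ ∈ D, ∀ G₂ ∈ D,
            (∀ x : ℝ, x ≤ a → F₁ x ≤ F₂ x) →
            (∀ x : ℝ, x ≤ a → G₁ x ≤ G₂ x) →
            ∀ x : ℝ, x ≤ a → τ F₁ G₁ x ≤ τ F₂ G₂ x) := by
  intro H
  have key := H D rfl tau (fun F hF G hG => tau_mem hF hG) (fun F _ G _ => tau_comm F G)
    (fun F hF G hG K hK => tau_assoc hF hG hK)
    (by
      intro F hF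
      rw [tau_pos (Or.inr (by norm_num))]
      funext x
      split_ifs with hx
      · exact min_eq_left (hF.2.1 x).2
      · rw [hF.2.2.1 x (not_lt.1 hx)]; simp)
    (fun F₁ _ F₂ h2 G hG h => tau_mono h2 hG h) 1 one_pos
    (st 1) (st_mem (by norm_num) le_rfl) (st (1 / 2)) (st_mem le_rfl (by norm_num))
    (st 1) (st_mem (by norm_num) le_rfl) (st (1 / 2)) (st_mem le_rfl (by norm_num))
    (by intro x hx; simp [st, hx]) (by intro x hx; simp [st, hx]) 1 le_rfl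
  rw [tau_pos (Or.inl (by norm_num [st])), tau_neg (by norm_num [st]) (by norm_num [st])] at key
  norm_num [st] at key

end Pool.Agent.S04108
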