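import Pool.Statements.S04122
import Pool.Agent.Lib.helper18.Jac6

set_option autoImplicit false
open MeasureTheory Filter Topology
open Pool Pool.MP_28611e_an

namespace Pool.Agent.S04122

open H18Jac H18Cantor

noncomputable def Fs (x : ℝ) (s : ℕ) : ℝ :=
  List.foldl (fun (y : ℝ) (k : ℕ) => if k = 0 then 2 * y * (y - 1) / (lam 0 / 4) + 1
    else (y ^ 2 - 1) / (2 * (lam k / 4)) + 1) x (List.range s)

lemma Fs_succ (x : ℝ) (s : ℕ) : Fs x (s + 1) = orb (4 * x - 2) (s + 1) / 2 := by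
  induction s with
  | zero =>
    have := (ok.pos 0).ne'
    simp only [Fs, zero_add, List.range_one, List.foldl_cons, List.foldl_nil, if_true, orb, f]
    field_simp
    ring
  | succ s ih =>
    have := (ok.pos (s + 1)).ne'
    have e : Fs x (s + 1 + 1) = (Fs x (s + 1) ^ 2 - 1) / (2 * (lam (s + 1) / 4)) + 1 := by
      rw [Fs, List.range_succ, List.foldl_append]
      rfl
    rw [e, ih, show orb (4 * x - 2) (s + 1 + 1) = f lam (s + 1) (orb (4 * x - 2) (s + 1)) from rfl, f]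
    field_simp
    ring

lemma bad {φ : ℕ → Om → ℝ} (s : H18Jac.Nest lam φ) :
    {x : ℝ | ∃ s : ℕ, 1 < |Fs x s|} = (Set.range fun e => (φ 0 e + 2) / 4)ᶜ := by
  ext x
  simp only [Set.mem_setOf_eq, Set.mem_compl_iff, ← not_le, ← not_forall, not_iff_not]
  constructor
  · intro h
    obtain ⟨e, he⟩ := (mem_iff s (4 * x - 2)).2 fun k => by
      have := h (k + 1)
      rw [Fs_succ, abs_div, abs_two] at this
      linarith
    exact ⟨e, by simp only [he]; ring⟩
  · rintro ⟨e, rfl⟩ k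
    cases k with
    | zero =>
      have := abs_le.1 (s.le 0 e)
      simp only [Fs, List.range_zero, List.foldl_nil, abs_le]
      constructor <;> linarith
    | succ k =>
      have := (mem_iff s _).1 ⟨e, rfl⟩ k
      rw [Fs_succ, abs_div, abs_two, show 4 * ((φ 0 e + 2) / 4) - 2 = φ 0 e by ring]
      linarith

lemma en (ν : Measure ℝ) : (∫⁻ x, ∫⁻ y, (if x = y then (⊤ : ENNReal)
    else ENNReal.ofReal (-Real.log |x - y|)) ∂ν ∂ν) = H18Widom.En 1 ν ν := by
  simp only [H18Widom.En, H18Widom.U, H18Widom.k, one_div, Real.log_inv]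


theorem result :
    ¬ (∀ γ : ℕ → ℝ, (∀ k, 0 < γ k ∧ γ k < 1/4) →
  ∀ μ : Measure ℝ, IsProbabilityMeasure μ →
  μ {x : ℝ | ∃ s : ℕ, 1 < |List.foldl (fun (y : ℝ) (k : ℕ) => if k = 0 then 2 * y * (y - 1) / γ 0 + 1 else (y ^ 2 - 1) / (2 * γ k) + 1) x (List.range s)|} = 0 →
  (∫⁻ x, ∫⁻ y, (if x = y then (⊤ : ENNReal) else ENNReal.ofReal (-Real.log |x - y|)) ∂μ ∂μ) < ⊤ →
  (∀ ν : Measure ℝ, IsProbabilityMeasure ν →
    ν {x : ℝ | ∃ s : ℕ, 1 < |List.foldl (fun (y : ℝ) (k : ℕ) => if k = 0 then 2 * y * (y - 1) / γ 0 + 1 else (y ^ 2 - 1) / (2 * γ k) + 1) x (List.range s)|} = 0 →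
    (∫⁻ x, ∫⁻ y, (if x = y then (⊤ : ENNReal) else ENNReal.ofReal (-Real.log |x - y|)) ∂μ ∂μ)
      ≤ (∫⁻ x, ∫⁻ y, (if x = y then (⊤ : ENNReal) else ENNReal.ofReal (-Real.log |x - y|)) ∂ν ∂ν)) →
  ∀ p : ℕ → Polynomial ℝ, (∀ n, (p n).natDegree = n ∧ 0 < (p n).leadingCoeff) →
  (∀ m n, ∫ x, (p m).eval x * (p n).eval x ∂μ = if m = n then 1 else 0) →
  ∃ c d : ℤ → ℝ,
    (∀ ε : ℝ, 0 < ε → ∃ L : ℕ, ∀ m : ℤ, ∃ τ : ℤ, m ≤ τ ∧ τ ≤ m + L ∧ ∀ n : ℤ, |c (n + τ) - c n| < ε) ∧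
    (∀ ε : ℝ, 0 < ε → ∃ L : ℕ, ∀ m : ℤ, ∃ τ : ℤ, m ≤ τ ∧ τ ≤ m + L ∧ ∀ n : ℤ, |d (n + τ) - d n| < ε) ∧
    Tendsto (fun n : ℕ => (∫ x, x * (p n).eval x * (p (n + 1)).eval x ∂μ) - c n) atTop (𝓝 0) ∧
    Tendsto (fun n : ℕ => (∫ x, x * (p n).eval x * (p n).eval x ∂μ) - d n) atTop (𝓝 0)) := by
  intro H
  obtain ⟨φ, s⟩ := H18Jac.exists_nest
  have hm := emb s (j := fun x : ℝ => (x + 2) / 4) (by fun_prop) (fun x y h => by linarith)
  set μ := (P fair).map fun e => (φ 0 e + 2) / 4 with hμ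
  have : IsProbabilityMeasure μ := Measure.isProbabilityMeasure_map hm.measurable.aemeasurable
  have hK : μ (Set.range fun e => (φ 0 e + 2) / 4)ᶜ = 0 := by rw [hm.map_apply]; simp
  obtain ⟨E, hE, hU⟩ := pot s fair_eq le_rfl
  have hmin := fun (ν : Measure ℝ) (_ : IsProbabilityMeasure ν) hν =>
    H18Widom.minimal (K := Set.range fun e => (φ 0 e + 2) / 4) one_pos (by
      rintro _ ⟨x, rfl⟩ _ ⟨y, rfl⟩
      rw [← sub_div, abs_div, add_sub_add_right_eq_sub, abs_of_pos (four_pos (α := ℝ))]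
      linarith [s.diam 0 x y]) μ ν hK hν hE (by
      rintro _ ⟨x, rfl⟩
      rw [H18Widom.U, hμ, hm.lintegral_map, ← hU x]
      refine lintegral_congr fun y => ?_
      simp only [H18Widom.k]
      rw [← sub_div, abs_div, add_sub_add_right_eq_sub, abs_of_pos (four_pos (α := ℝ)), one_div_div]
      congr 1
      rw [div_left_inj' four_ne_zero, add_left_inj])
  have hq : (Polynomial.C 4 * Polynomial.X + Polynomial.C (-2) : Polynomial ℝ).natDegree = 1 :=
    Polynomial.natDegree_linear four_ne_zero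
  have ev : ∀ n e, ((q φ n).comp (Polynomial.C 4 * Polynomial.X + Polynomial.C (-2))).eval
      ((φ 0 e + 2) / 4) = (q φ n).eval (φ 0 e) := by
    intro n e
    simp only [Polynomial.eval_comp, Polynomial.eval_add, Polynomial.eval_mul, Polynomial.eval_C,
      Polynomial.eval_X]
    congr 1
    ring
  obtain ⟨c, -, h1, -, h2, -⟩ := H (fun k => lam k / 4)
    (fun k => ⟨by linarith [ok.pos k], by linarith [(ok k).2]⟩) μ this
    ((congrArg μ (bad s)).trans hK) (by rw [en, (hmin μ this hK).1]; exact hE.lt_top)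
    (fun ν hν h => by rw [en, en]; exact (hmin ν hν ((congrArg ν (bad s)).symm.trans h)).2)
    (fun n => (q φ n).comp (Polynomial.C 4 * Polynomial.X + Polynomial.C (-2)))
    (fun n => by
      rw [Polynomial.natDegree_comp, Polynomial.leadingCoeff_comp (by rw [hq]; norm_num), hq,
        (q_deg s n).1, Polynomial.leadingCoeff_linear four_ne_zero]
      exact ⟨mul_one _, mul_pos (q_deg s n).2 (by positivity)⟩)
    (fun m n => by
      rw [hμ, hm.integral_map]
      simp only [ev]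
      exact q_orth s m n)
  refine not_ap (κ := 1 / 4) (by norm_num) _ (fun n => ?_) c (fun e he => ?_) h2
  · have i : ∀ {F : Om → ℝ}, Continuous F → Integrable F (P fair) := fun hF =>
      hF.integrable_of_hasCompactSupport (HasCompactSupport.of_compactSpace _)
    have hc := s.cont 0
    have e1 := q_orth s n (n + 1)
    rw [if_neg (by omega)] at e1
    rw [hμ, hm.integral_map, ← q_x s n, ← add_zero (1 / 4 * _), ← mul_zero (1 / 2 : ℝ), ← e1,
      ← integral_const_mul, ← integral_const_mul, ← integral_add (i (by fun_prop)) (i (by fun_prop))]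
    simp only [ev]
    congr 1
    funext e
    ring
  · obtain ⟨L, hL⟩ := h1 e he
    obtain ⟨τ, a1, -, a2⟩ := hL 1
    exact ⟨τ, a1, a2⟩

end Pool.Agent.S04122
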