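import Pool.Statements.S04125
import Pool.Agent.Lib.helper29.Gabor4

set_option autoImplicit false
open MeasureTheory
open Pool Pool.MP_288ee9_an

namespace Pool.Agent.S04125

open Pool.Agent.Lib.H29.Gabor

/-- There exist d ≥ 1, a measurable finite-measure set E in ℝ^d with no orthogonal basis of exponentials for L²(E), and S in ℝ^d × ℝ^d such that the functions χ_E(x−a)e^{−2πi x·b}, (a,b) in S, form an orthogonal basis of L²(ℝ^d). -/
theorem result :
    ∃ (d : ℕ) (E : Set (EuclideanSpace ℝ (Fin d))),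
      0 < d ∧ MeasurableSet E ∧ volume E < ⊤ ∧
      (¬ ∃ B : Set (EuclideanSpace ℝ (Fin d)),
          (∀ b ∈ B, ∀ b' ∈ B, b ≠ b' →
            ∫ x in E, Complex.exp (-2 * (Real.pi : ℂ) * Complex.I * ((inner ℝ x b : ℝ) : ℂ)) *
              starRingEnd ℂ (Complex.exp (-2 * (Real.pi : ℂ) * Complex.I * ((inner ℝ x b' : ℝ) : ℂ))) = 0) ∧
          (∀ f : EuclideanSpace ℝ (Fin d) → ℂ, MemLp f 2 (volume.restrict E) →
            (∀ b ∈ B, ∫ x in E, f x *
              starRingEnd ℂ (Complex.exp (-2 * (Real.pi : ℂ) * Complex.I * ((inner ℝ x b : ℝ) : ℂ))) = 0) →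
            f =ᵐ[volume.restrict E] 0)) ∧
      ∃ S : Set (EuclideanSpace ℝ (Fin d) × EuclideanSpace ℝ (Fin d)),
        (∀ p ∈ S, ∀ q ∈ S, p ≠ q →
          ∫ x, (E.indicator (fun _ => (1 : ℂ)) (x - p.1) *
                Complex.exp (-2 * (Real.pi : ℂ) * Complex.I * ((inner ℝ x p.2 : ℝ) : ℂ))) *
              starRingEnd ℂ (E.indicator (fun _ => (1 : ℂ)) (x - q.1) *
                Complex.exp (-2 * (Real.pi : ℂ) * Complex.I * ((inner ℝ x q.2 : ℝ) : ℂ))) = 0) ∧
        (∀ f : EuclideanSpace ℝ (Fin d) → ℂ, MemLp f 2 volume →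
          (∀ p ∈ S, ∫ x, f x *
              starRingEnd ℂ (E.indicator (fun _ => (1 : ℂ)) (x - p.1) *
                Complex.exp (-2 * (Real.pi : ℂ) * Complex.I * ((inner ℝ x p.2 : ℝ) : ℂ))) = 0) →
          f =ᵐ[volume] 0) := by
  refine ⟨2, EE, two_pos, meas_EE, vol_EE, ?_,
    {p | ∃ t n, p = (tau t, fr t n)}, ?_, fun f hf h => ?_⟩
  · have := EE_not_spectral
    unfold ch at this
    exact this
  · rintro _ ⟨t, n, rfl⟩ _ ⟨t', n', rfl⟩ hne
    have h : (t, n) ≠ (t', n') := fun e => by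
      obtain ⟨e1, e2⟩ := Prod.mk.inj e
      rw [e1, e2] at hne
      exact hne rfl
    have := orth t n t' n' h
    unfold gb ch at this
    dsimp only
    exact this
  · refine complete f hf fun t n => ?_
    have := h (tau t, fr t n) ⟨t, n, rfl⟩
    dsimp only at this
    unfold gb ch
    exact this

end Pool.Agent.S04125
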