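import Pool.Statements.S04150

set_option autoImplicit false
open Pool Pool.MP_299699_an

namespace Pool.Agent.S04150

abbrev H := lp (fun _ : ℕ => ℝ) 2

lemma refl : Function.Surjective (NormedSpace.inclusionInDoubleDual ℝ (H × ℝ)) := by
  intro Φ
  let j : H →L[ℝ] StrongDual ℝ (H × ℝ) :=
    ((ContinuousLinearMap.compL ℝ (H × ℝ) H ℝ).flip (ContinuousLinearMap.fst ℝ H ℝ)).comp
      (innerSL ℝ)
  obtain ⟨x, hx⟩ := (InnerProductSpace.toDual ℝ H).surjective (Φ.comp j)
  refine ⟨(x, Φ (ContinuousLinearMap.snd ℝ H ℝ)), ?_⟩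
  ext φ
  obtain ⟨v, hv⟩ := (InnerProductSpace.toDual ℝ H).surjective
    (φ.comp (ContinuousLinearMap.inl ℝ H ℝ))
  have h1 : ∀ a : H, φ (a, 0) = inner ℝ v a := fun a => by
    have := congrArg (fun g : StrongDual ℝ H => g a) hv
    simpa using this.symm
  have h2 : ∀ p : H × ℝ, φ p = inner ℝ v p.1 + φ (0, 1) * p.2 := fun p => by
    have : p = (p.1, 0) + p.2 • ((0, 1) : H × ℝ) := by simp
    conv_lhs => rw [this, map_add, map_smul, h1, smul_eq_mul, mul_comm]
  have h3 : φ = j v + φ (0, 1) • ContinuousLinearMap.snd ℝ H ℝ := by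
    refine ContinuousLinearMap.ext fun p => ?_
    rw [h2 p]; rfl
  have h4 : Φ (j v) = inner ℝ x v := by
    have := congrArg (fun g : StrongDual ℝ H => g v) hx
    simpa using this.symm
  rw [NormedSpace.dual_def, h2]
  conv_rhs => rw [h3, map_add, map_smul, h4, smul_eq_mul, real_inner_comm]

noncomputable def e (n : ℕ) : H := lp.single 2 n 1

lemma e_norm (n : ℕ) : ‖e n‖ = 1 := by
  rw [e, lp.norm_single (by norm_num), norm_one]

lemma e_dist {n m : ℕ} (h : n ≠ m) : 1 ≤ ‖e n - e m‖ := by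
  have := lp.norm_apply_le_norm (p := 2) (by norm_num) (e n - e m) n
  rw [lp.coeFn_sub, Pi.sub_apply, e, e, lp.single_apply_self, lp.single_apply_ne _ _ _ h] at this
  simpa [e] using this

noncomputable def g (x : H) : ℝ := ⨅ n : ℕ, (‖x - e n‖ + 1 / (n + 1))

lemma bdd (x : H) : BddBelow (Set.range fun n : ℕ => ‖x - e n‖ + 1 / ((n : ℝ) + 1)) :=
  ⟨0, by rintro _ ⟨n, rfl⟩; positivity⟩

lemma g_le (x : H) (n : ℕ) : g x ≤ ‖x - e n‖ + 1 / (n + 1) := ciInf_le (bdd x) n

lemma g_lip (x y : H) : g x - g y ≤ ‖x - y‖ := by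
  rw [sub_le_iff_le_add, ← sub_le_iff_le_add']
  refine le_ciInf fun n => ?_
  have := g_le x n
  have h2 : ‖x - e n‖ ≤ ‖x - y‖ + ‖y - e n‖ := norm_sub_le_norm_sub_add_norm_sub _ _ _
  linarith

lemma g_pos (x : H) : 0 < g x := by
  by_cases h : ∃ m, ‖x - e m‖ < 1 / 2
  · obtain ⟨m, hm⟩ := h
    refine lt_of_lt_of_le (lt_min (by norm_num : (0 : ℝ) < 1 / 2)
      (by positivity : (0 : ℝ) < 1 / ((m : ℝ) + 1))) (le_ciInf fun n => ?_)
    by_cases hn : n = m
    · subst hn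
      exact (min_le_right _ _).trans (le_add_of_nonneg_left (norm_nonneg _))
    · have h1 := e_dist hn
      have h2 : ‖e n - e m‖ ≤ ‖e n - x‖ + ‖x - e m‖ := norm_sub_le_norm_sub_add_norm_sub _ _ _
      rw [norm_sub_rev (e n) x] at h2
      exact (min_le_left _ _).trans (le_add_of_le_of_nonneg (by linarith) (by positivity))
  · push Not at h
    exact lt_of_lt_of_le (by norm_num : (0 : ℝ) < 1 / 2)
      (le_ciInf fun n => le_add_of_le_of_nonneg (h n) (by positivity))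

/-- In `ℓ₂ × ℝ` with the maximum norm, `x ↦ x + (0, g x)` on the unit ball of `ℓ₂` is nonexpansive
and `I - f` has a range that is not closed. -/
theorem result :
    ¬ (∀ (X : Type) [NormedAddCommGroup X] [NormedSpace ℝ X] [CompleteSpace X],
    Function.Surjective (NormedSpace.inclusionInDoubleDual ℝ X) →
    ∀ (C : Set X), IsClosed C → Convex ℝ C → IsCompact ((toWeakSpace ℝ X) '' C) →
    (∀ K : Set X, K ⊆ C → Convex ℝ K → (∃ a ∈ K, ∃ b ∈ K, a ≠ b) →
        ∃ x ∈ K, ∃ r : ℝ, r < Metric.diam K ∧ ∀ y ∈ K, dist x y ≤ r) →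
    ∀ f : X → X, (∀ x ∈ C, ∀ y ∈ C, dist (f x) (f y) ≤ dist x y) →
    IsClosed {z : X | ∃ x ∈ C, z = x - f x}) := by
  intro h
  set C : Set (H × ℝ) := Metric.closedBall 0 1 ×ˢ {0} with hC
  have c1 : IsClosed C := Metric.isClosed_closedBall.prod isClosed_singleton
  have c2 : Convex ℝ C := (convex_closedBall _ _).prod (convex_singleton _)
  have c3 : Bornology.IsBounded C := Metric.isBounded_closedBall.prod Bornology.isBounded_singleton
  have d : ∀ x ∈ C, ∀ y ∈ C, dist x y = ‖x.1 - y.1‖ := fun x hx y hy => by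
    have a : x.2 = 0 := hx.2
    have b : y.2 = 0 := hy.2
    rw [Prod.dist_eq, a, b, dist_self, dist_eq_norm, max_eq_left (norm_nonneg _)]
  have key := h (H × ℝ) refl C c1 c2 ?_ ?_ (fun p => (p.1, g p.1)) ?_
  · have m : (0 : H × ℝ) ∈ closure {z : H × ℝ | ∃ x ∈ C, z = x - (x.1, g x.1)} := by
      rw [Metric.mem_closure_iff]
      intro ε hε
      obtain ⟨n, hn⟩ := exists_nat_one_div_lt hε
      refine ⟨_, ⟨(e n, 0), ⟨by simp [e_norm], rfl⟩, rfl⟩, ?_⟩
      have := g_le (e n) n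
      rw [sub_self, norm_zero, zero_add] at this
      simp only [Prod.mk_sub_mk, sub_self, zero_sub, dist_zero_left, Prod.norm_mk, norm_zero,
        norm_neg, Real.norm_eq_abs, abs_of_pos (g_pos _), max_lt_iff]
      exact ⟨hε, this.trans_lt hn⟩
    rw [key.closure_eq] at m
    obtain ⟨x, hx, hx2⟩ := m
    have a : x.2 = 0 := hx.2
    have := congrArg Prod.snd hx2
    simp only [Prod.snd_zero, Prod.snd_sub, a] at this
    linarith [g_pos x.1]
  · have := NormedSpace.isCompact_closure_of_isBounded ℝ (H × ℝ) (toWeakSpace ℝ (H × ℝ) '' C)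
      (by rwa [Set.preimage_image_eq _ (toWeakSpace ℝ (H × ℝ)).injective])
      (fun y _ => refl y)
    rwa [← c2.toWeakSpace_closure ℝ, c1.closure_eq] at this
  · rintro K hK cK ⟨a, ha, b, hb, hab⟩
    have bK := c3.subset hK
    have p : 0 < ‖a.1 - b.1‖ := by rw [← d a (hK ha) b (hK hb)]; exact dist_pos.2 hab
    have le : ∀ x ∈ K, ∀ y ∈ K, ‖x.1 - y.1‖ ≤ Metric.diam K := fun x hx y hy => by
      rw [← d x (hK hx) y (hK hy)]; exact Metric.dist_le_diam_of_mem bK hx hy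
    have hm := cK ha hb (by norm_num : (0 : ℝ) ≤ 1 / 2) (by norm_num : (0 : ℝ) ≤ 1 / 2)
      (by norm_num)
    have D0 : 0 < Metric.diam K := p.trans_le (le a ha b hb)
    refine ⟨_, hm, √(Metric.diam K ^ 2 - ‖a.1 - b.1‖ ^ 2 / 4), ?_, fun y hy => ?_⟩
    · rw [Real.sqrt_lt' D0]; nlinarith
    · rw [d _ (hK hm) y (hK hy)]
      refine Real.le_sqrt_of_sq_le ?_
      have e1 : ((1 / 2 : ℝ) • a + (1 / 2 : ℝ) • b).1 - y.1 =
          (1 / 2 : ℝ) • ((a.1 - y.1) + (b.1 - y.1)) := by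
        simp only [Prod.fst_add, Prod.smul_fst]; module
      have e2 := parallelogram_law_with_norm ℝ (a.1 - y.1) (b.1 - y.1)
      rw [sub_sub_sub_cancel_right] at e2
      rw [e1, norm_smul, Real.norm_eq_abs, abs_of_pos (by norm_num : (0 : ℝ) < 1 / 2)]
      nlinarith [le a ha y hy, le b hb y hy, norm_nonneg (a.1 - y.1), norm_nonneg (b.1 - y.1)]
  · intro x hx y hy
    rw [d x hx y hy, Prod.dist_eq, dist_eq_norm, Real.dist_eq]
    refine max_le le_rfl (abs_le.2 ⟨?_, g_lip _ _⟩)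
    have := g_lip y.1 x.1
    rw [norm_sub_rev] at this
    linarith

end Pool.Agent.S04150
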