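import Pool.Statements.S04194
import Pool.Agent.Lib.helper28.KahB
import Pool.Agent.Lib.helper28.RepC

set_option autoImplicit false
open Pool Pool.MP_2cf295_an

namespace Pool.Agent.S04194

open MeasureTheory AddCircle Finset Pool.Agent.H28Kah
open scoped ComplexConjugate

lemma q_inj : Function.Injective fun p : ℕ × ℕ =>
    (5 : ℤ) ^ (2 * p.1) + (5 ^ (2 * p.2 + 1) + 1) := by
  rintro ⟨i, j⟩ ⟨k, l⟩ h
  have E : ∀ e, ({2 * i, 2 * j + 1} : Multiset ℕ).count e =
      ({2 * k, 2 * l + 1} : Multiset ℕ).count e := fun e => digits e _ _ (by simp) (by simp) (by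
    simp only [Multiset.insert_eq_cons, Multiset.map_cons, Multiset.sum_cons,
      Multiset.map_singleton, Multiset.sum_singleton]
    simp only at h
    zify; linarith)
  have a := E (2 * i)
  have b := E (2 * j + 1)
  simp only [Multiset.insert_eq_cons, Multiset.count_cons, Multiset.count_singleton] at a b
  refine Prod.ext ?_ ?_ <;> simp only <;> split_ifs at a b <;> omega

lemma notSidon : ¬ ∃ C : ℝ, ∀ (s : Finset ℤ) (c : ℤ → ℂ), (↑s ⊆ {n : ℤ | Odd n}) →
    ∑ n ∈ s, ‖c n‖ ≤ C * ‖∑ n ∈ s, c n • (fourier n : C(UnitAddCircle, ℂ))‖ := by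
  rintro ⟨C, hC⟩
  obtain ⟨m, hm⟩ := exists_nat_gt (max C 0)
  have m0 : (0 : ℝ) < m := lt_of_le_of_lt (le_max_right _ _) hm
  set N := m ^ 2 with hN
  have N0 : 0 < N := by have : 0 < m := by exact_mod_cast m0
                        positivity
  have hw := Complex.isPrimitiveRoot_exp N N0.ne'
  set w := Complex.exp (2 * Real.pi * Complex.I / N)
  have wn : ‖w‖ = 1 := hw.norm'_eq_one N0.ne'
  set q := fun p : ℕ × ℕ => (5 : ℤ) ^ (2 * p.1) + (5 ^ (2 * p.2 + 1) + 1) with hq
  have h := hC ((range N ×ˢ range N).image q)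
    (Function.extend q (fun p => (conj w ^ p.2) ^ p.1) 0) (by
      intro n hn
      obtain ⟨p, -, rfl⟩ := mem_image.mp hn
      have o : Odd (5 : ℤ) := by decide
      exact o.pow.add_even (o.pow.add_one))
  simp only [Finset.sum_image (q_inj.injOn), q_inj.extend_apply, hq] at h
  simp only [norm_pow, Complex.norm_conj, wn, one_pow, sum_const, card_product, card_range,
    nsmul_eq_mul, mul_one] at h
  have b : ‖∑ p ∈ range N ×ˢ range N, (conj w ^ p.2) ^ p.1 • (fourier
      ((5 : ℤ) ^ (2 * p.1) + (5 ^ (2 * p.2 + 1) + 1)) : C(UnitAddCircle, ℂ))‖ ≤ (m : ℝ) ^ 3 := by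
    refine (ContinuousMap.norm_le _ (by positivity)).mpr fun x => ?_
    have p := H28Rep.parseval N0 hw le_rfl
      (fun j => fourier ((5 : ℤ) ^ (2 * j + 1) + 1) x) (fun j => four_norm _ x)
    rw [ContinuousMap.sum_apply, Finset.sum_product]
    refine (norm_sum_le _ _).trans ((abs_le_of_sq_le_sq' ?_ (by positivity)).2)
    refine sq_sum_le_card_mul_sum_sq.trans (le_of_eq ?_)
    have e : ∀ i, ‖∑ j ∈ range N, ((conj w ^ j) ^ i • (fourier
        ((5 : ℤ) ^ (2 * i) + (5 ^ (2 * j + 1) + 1)) : C(UnitAddCircle, ℂ))) x‖ =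
        ‖∑ j ∈ range N, fourier ((5 : ℤ) ^ (2 * j + 1) + 1) x * (conj w ^ j) ^ i‖ := by
      intro i
      have : ∑ j ∈ range N, ((conj w ^ j) ^ i • (fourier
          ((5 : ℤ) ^ (2 * i) + (5 ^ (2 * j + 1) + 1)) : C(UnitAddCircle, ℂ))) x =
          fourier ((5 : ℤ) ^ (2 * i)) x *
            ∑ j ∈ range N, fourier ((5 : ℤ) ^ (2 * j + 1) + 1) x * (conj w ^ j) ^ i := by
        rw [Finset.mul_sum]
        refine Finset.sum_congr rfl fun j _ => ?_
        rw [ContinuousMap.smul_apply, fourier_add, smul_eq_mul]; ring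
      rw [this, norm_mul, four_norm, one_mul]
    simp only [e]
    rw [p, card_range, hN]; push_cast; ring
  have h2 := h.trans ((mul_le_mul_of_nonneg_right (le_max_left C 0) (norm_nonneg _)).trans
    (mul_le_mul_of_nonneg_left b (le_max_right C 0)))
  have h3 := mul_lt_mul_of_pos_right hm (show (0 : ℝ) < m ^ 3 by positivity)
  rw [hN] at h2
  push_cast at h2
  nlinarith

lemma anti (f : C(UnitAddCircle, ℂ)) (hf : ∀ n ∉ {n : ℤ | Odd n}, fourierCoeff (⇑f) n = 0) :
    f.comp (ContinuousMap.mk (fun x : UnitAddCircle => x + ((1 / 2 : ℝ) : UnitAddCircle))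
      (continuous_add_right _)) = (-1 : ℂ) • f := by
  set a : UnitAddCircle := ((1 / 2 : ℝ) : UnitAddCircle) with ha
  set g := f.comp (ContinuousMap.mk (fun x : UnitAddCircle => x + a) (continuous_add_right _))
  have z : ∀ n, fourierCoeff (⇑(g + f)) n = 0 := by
    intro n
    have e1 : fourierCoeff (⇑g) n = fourier n a * fourierCoeff (⇑f) n := by
      have := integral_add_right_eq_self (μ := haarAddCircle)
        (fun x : UnitAddCircle => fourier n a * (fourier (-n) x • f x)) a
      rw [fourierCoeff, fourierCoeff, ← integral_const_mul, ← this]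
      refine integral_congr_ae (ae_of_all _ fun x => ?_)
      have u : fourier n a * fourier (-n) a = 1 := by rw [← fourier_add]; simp
      simp only [four_add, smul_eq_mul, g, ContinuousMap.comp_apply, ContinuousMap.coe_mk]
      linear_combination -(fourier (-n) x * f (x + a)) * u
    rw [ContinuousMap.coe_add, fourierCoeff.add (intg g.continuous) (intg f.continuous),
      Pi.add_apply, e1]
    by_cases h : Odd n
    · obtain ⟨k, rfl⟩ := h
      have : fourier (2 * k + 1) a = -1 := by
        rw [ha, fourier_coe_apply, ← Complex.exp_pi_mul_I,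
          ← mul_one (Complex.exp (Real.pi * _)), ← Complex.exp_int_mul_two_pi_mul_I k,
          ← Complex.exp_add]
        congr 1; push_cast; ring
      rw [this]; ring
    · rw [hf n h]; ring
  have s := hasSum_fourier_series_of_summable (f := g + f) (by
    rw [show fourierCoeff (⇑(g + f)) = fun _ => 0 from funext z]; exact summable_zero)
  have s2 : g + f = 0 := s.unique (by
    simp only [z]
    have : ∀ i : ℤ, (0 : ℂ) • (fourier i : C(UnitAddCircle, ℂ)) = 0 := fun i => by ext; simp
    simp only [this]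
    exact hasSum_zero)
  ext x
  have := congrArg (fun u : C(UnitAddCircle, ℂ) => u x) s2
  simp only [ContinuousMap.add_apply, ContinuousMap.zero_apply] at this
  simp only [ContinuousMap.smul_apply, smul_eq_mul]
  linear_combination this

/-- The negation of the preceding statement: For every set E of integers: every translation-invariant linear functional on continuous circle functions with Fourier spectrum in E is sup-norm bounded if and only if E is a Sidon set. -/
theorem result :
    ¬ (∀ E : Set ℤ,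
    (∀ φ : C(UnitAddCircle, ℂ) → ℂ,
      (∀ f g : C(UnitAddCircle, ℂ),
          (∀ n ∉ E, fourierCoeff (⇑f) n = 0) →
          (∀ n ∉ E, fourierCoeff (⇑g) n = 0) →
          φ (f + g) = φ f + φ g) →
      (∀ (c : ℂ) (f : C(UnitAddCircle, ℂ)),
          (∀ n ∉ E, fourierCoeff (⇑f) n = 0) → φ (c • f) = c * φ f) →
      (∀ (a : UnitAddCircle) (f : C(UnitAddCircle, ℂ)),
          (∀ n ∉ E, fourierCoeff (⇑f) n = 0) →
          φ (f.comp (ContinuousMap.mk (fun x : UnitAddCircle => x + a)
            (continuous_add_right a))) = φ f) →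
      ∃ C : ℝ, ∀ f : C(UnitAddCircle, ℂ),
          (∀ n ∉ E, fourierCoeff (⇑f) n = 0) → ‖φ f‖ ≤ C * ‖f‖)
    ↔
    (∃ C : ℝ, ∀ (s : Finset ℤ) (c : ℤ → ℂ), (↑s ⊆ E) →
        ∑ n ∈ s, ‖c n‖ ≤ C * ‖∑ n ∈ s, c n • (fourier n : C(UnitAddCircle, ℂ))‖)) := by
  intro h
  refine notSidon ((h {n : ℤ | Odd n}).mp fun φ _ h2 h3 => ⟨0, fun f hf => ?_⟩)
  have a := h3 ((1 / 2 : ℝ) : UnitAddCircle) f hf
  rw [anti f hf, h2 _ f hf] at a
  have : φ f = 0 := by linear_combination (-1 / 2 : ℂ) * a
  simp [this]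

end Pool.Agent.S04194
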