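import Pool.Statements.S04204

set_option autoImplicit false
open Pool Pool.MP_2d773b_an

namespace Pool.Agent.S04204

open Set Filter Topology

abbrev E := EuclideanSpace ℝ (Fin 1)

noncomputable def gg (y : ℝ) : ℝ := 2 * (√y - √(-y))

def Sup (v : ℝ → E → ℝ) : Prop :=
  ∀ φ : ℝ → E → ℝ, ContDiff ℝ ((⊤ : ℕ∞) : WithTop ℕ∞) (fun q : ℝ × E => φ q.1 q.2) →
    ∀ t0 ∈ Ioo (0 : ℝ) 1, ∀ x0 : E, IsLocalMin (fun q : ℝ × E => v q.1 q.2 - φ q.1 q.2) (t0, x0) →
      deriv (fun s => φ s x0) t0 + gg (v t0 x0) ≤ 0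

lemma box (v : ℝ → E → ℝ) (hc : ContinuousOn (fun q : ℝ × E => v q.1 q.2) (Icc 0 1 ×ˢ univ))
    (hs : Sup v) (x0 : E) (r τ' τ m : ℝ) (hr : 0 < r) (h0 : 0 < τ') (h1 : τ' < τ) (h2 : τ < 1)
    (hp : ∀ t ∈ Icc τ' 1, ∀ x ∈ Metric.closedBall x0 r, 0 < v t x)
    (hm : ∀ x ∈ Metric.closedBall x0 r, m ≤ √(v 1 x)) :
    m + (1 - τ) / 2 ≤ √(v τ x0) := by
  refine le_of_forall_pos_le_add fun ε hε => ?_
  have hq : 1 < (1 - τ') / (1 - τ) := by rw [one_lt_div (by linarith)]; linarith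
  obtain ⟨N, hN⟩ := pow_unbounded_of_one_lt ((|m| + 1) / ε) hq
  rw [div_lt_iff₀ hε] at hN
  set lam := (|m| + 1) / r ^ 2 with hlam
  have hlam0 : 0 ≤ lam := by positivity
  let ψ : ℝ × E → ℝ := fun q =>
    (1 - q.1) / 2 - lam * ‖q.2 - x0‖ ^ 2 - ε * ((1 - q.1) / (1 - τ)) ^ (N + 1)
  have hψ : ContDiff ℝ ((⊤ : ℕ∞) : WithTop ℕ∞) ψ := by
    have : ContDiff ℝ ((⊤ : ℕ∞) : WithTop ℕ∞) (fun q : ℝ × E => ‖q.2 - x0‖ ^ 2) :=
      (contDiff_snd.sub contDiff_const).norm_sq ℝ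
    refine ContDiff.sub (ContDiff.sub (by fun_prop) (contDiff_const.mul this)) ?_
    refine contDiff_const.mul (ContDiff.pow ?_ _)
    exact (contDiff_const.sub contDiff_fst).div_const _
  have hQ : IsCompact (Icc τ' 1 ×ˢ Metric.closedBall x0 r) :=
    isCompact_Icc.prod (isCompact_closedBall _ _)
  have hF : ContinuousOn (fun q : ℝ × E => √(v q.1 q.2) - ψ q) (Icc τ' 1 ×ˢ Metric.closedBall x0 r) :=
    ((hc.mono (prod_mono (Icc_subset_Icc h0.le le_rfl) (subset_univ _))).sqrt).sub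
      hψ.continuous.continuousOn
  have hmem : (τ, x0) ∈ Icc τ' 1 ×ˢ Metric.closedBall x0 r :=
    ⟨⟨h1.le, h2.le⟩, Metric.mem_closedBall_self hr.le⟩
  obtain ⟨⟨t, x⟩, ⟨ht, hx⟩, hmin⟩ := hQ.exists_isMinOn ⟨_, hmem⟩ hF
  simp only at ht hx
  have a1 : 0 ≤ lam * ‖x - x0‖ ^ 2 := by positivity
  have a0 : 0 ≤ (1 - t) / (1 - τ) := div_nonneg (by linarith [ht.2]) (by linarith)
  have a2 : 0 ≤ ε * ((1 - t) / (1 - τ)) ^ (N + 1) := by positivity
  have a3 := Real.sqrt_nonneg (v t x)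
  have a4 := le_abs_self m
  have key : m ≤ √(v t x) - ψ (t, x) := by
    simp only [ψ]
    by_cases c1 : t = 1
    · subst c1
      have := hm x hx
      linarith
    by_cases c2 : t = τ'
    · subst c2
      have : ((1 - t) / (1 - τ)) ^ N ≤ ((1 - t) / (1 - τ)) ^ (N + 1) :=
        pow_le_pow_right₀ hq.le (Nat.le_succ N)
      nlinarith
    by_cases c3 : ‖x - x0‖ = r
    · have : lam * ‖x - x0‖ ^ 2 = |m| + 1 := by rw [c3, hlam]; field_simp
      linarith [ht.1]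
    exfalso
    have t1 : τ' < t := lt_of_le_of_ne ht.1 (Ne.symm c2)
    have t2 : t < 1 := lt_of_le_of_ne ht.2 c1
    have x1 : x ∈ Metric.ball x0 r := by
      rw [Metric.mem_closedBall, dist_eq_norm] at hx
      rw [Metric.mem_ball, dist_eq_norm]
      exact lt_of_le_of_ne hx c3
    have hn : Icc τ' 1 ×ˢ Metric.closedBall x0 r ∈ 𝓝 (t, x) :=
      prod_mem_nhds (Icc_mem_nhds t1 t2)
        (mem_of_superset (Metric.isOpen_ball.mem_nhds x1) Metric.ball_subset_closedBall)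
    set M := √(v t x) - ψ (t, x) with hM
    have hpos : 0 < √(v t x) := Real.sqrt_pos.2 (hp t ht x hx)
    have hθ : ψ (t, x) + M = √(v t x) := by rw [hM]; ring
    have hev : ∀ᶠ q in 𝓝 (t, x), 0 < ψ q + M :=
      (hψ.continuous.add continuous_const).continuousAt.eventually (lt_mem_nhds (lt_of_lt_of_eq hpos hθ.symm))
    have hloc : IsLocalMin (fun q : ℝ × E => v q.1 q.2 - (ψ (q.1, q.2) + M) ^ 2) (t, x) := by
      filter_upwards [hn, hev] with q hq hq'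
      have b1 : M ≤ √(v q.1 q.2) - ψ q := hmin hq
      have b2 := Real.sq_sqrt (hp q.1 hq.1 q.2 hq.2).le
      have b3 := Real.sq_sqrt (hp t ht x hx).le
      have b4 : (ψ q + M) ^ 2 ≤ √(v q.1 q.2) ^ 2 := pow_le_pow_left₀ hq'.le (by linarith) 2
      simp only [hθ]
      linarith
    have h3 := hs (fun a b => (ψ (a, b) + M) ^ 2) ((hψ.add contDiff_const).pow 2) t
      ⟨by linarith, t2⟩ x hloc
    have d1 : HasDerivAt (fun s : ℝ => 1 - s) (-1) t := by simpa using (hasDerivAt_id t).const_sub 1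
    have d2 : HasDerivAt (fun s : ℝ => ψ (s, x))
        (-1 / 2 - ε * (((N + 1 : ℕ) : ℝ) * ((1 - t) / (1 - τ)) ^ (N + 1 - 1) * (-1 / (1 - τ)))) t :=
      ((d1.div_const 2).sub_const (lam * ‖x - x0‖ ^ 2)).fun_sub (((d1.div_const (1 - τ)).fun_pow (N + 1)).const_mul ε)
    have d3 := (d2.add_const M).fun_pow 2
    rw [d3.deriv, hθ] at h3
    have e1 : √(-v t x) = 0 := Real.sqrt_eq_zero_of_nonpos (by linarith [hp t ht x hx])
    have e2 : 0 ≤ ε * (((N + 1 : ℕ) : ℝ) * ((1 - t) / (1 - τ)) ^ (N + 1 - 1) * (1 / (1 - τ))) := by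
      have : 0 < 1 - τ := by linarith
      positivity
    have e3 : ε * (((N + 1 : ℕ) : ℝ) * ((1 - t) / (1 - τ)) ^ (N + 1 - 1) * (-1 / (1 - τ))) =
        -(ε * (((N + 1 : ℕ) : ℝ) * ((1 - t) / (1 - τ)) ^ (N + 1 - 1) * (1 / (1 - τ)))) := by ring
    rw [e3] at h3
    simp only [gg, e1] at h3
    norm_num at h3 e2
    nlinarith [mul_nonneg hpos.le e2]
  have b1 : √(v t x) - ψ (t, x) ≤ √(v τ x0) - ψ (τ, x0) := hmin hmem
  have b2 : ψ (τ, x0) = (1 - τ) / 2 - ε := by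
    have : 1 - τ ≠ 0 := by linarith
    simp [ψ, div_self this]
  linarith

lemma line (v : ℝ → E → ℝ) (hc : ContinuousOn (fun q : ℝ × E => v q.1 q.2) (Icc 0 1 ×ˢ univ))
    (hs : Sup v) (x0 : E) (hpos : 0 < v 1 x0) : 1 / 4 ≤ √(v (1 / 2) x0) := by
  have hc1 : Continuous (fun x => v 1 x) :=
    continuousOn_univ.1 (hc.comp (f := fun x : E => ((1 : ℝ), x)) (by fun_prop)
      (fun x _ => ⟨⟨zero_le_one, le_rfl⟩, trivial⟩))
  obtain ⟨r0, hr0, hb⟩ := Metric.nhds_basis_closedBall.eventually_iff.1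
    (hc1.continuousAt.eventually (lt_mem_nhds (show v 1 x0 / 2 < v 1 x0 by linarith)))
  set m := √(v 1 x0 / 2) with hm
  have hm0 : 0 < m := Real.sqrt_pos.2 (by linarith)
  let pr : ℝ → ℝ := fun t => max 0 (min t 1)
  have prm : ∀ t, pr t ∈ Icc (0 : ℝ) 1 := fun t =>
    ⟨le_max_left _ _, max_le zero_le_one (min_le_right _ _)⟩
  have pre : ∀ t ∈ Icc (0 : ℝ) 1, pr t = t := fun t ht => by
    simp only [pr, min_eq_left ht.2, max_eq_right ht.1]
  have hw : Continuous (fun q : ℝ × E => v (pr q.1) q.2) :=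
    continuousOn_univ.1 (hc.comp (f := fun q : ℝ × E => (pr q.1, q.2)) (by fun_prop)
      (fun q _ => ⟨prm _, trivial⟩))
  have step : ∀ τ, 0 < τ → τ < 1 → (∀ t ∈ Icc τ 1, 0 < v t x0) → m + (1 - τ) / 2 ≤ √(v τ x0) := by
    intro τ h0 h1 hp
    obtain ⟨U, V, hU, hV, h2, h3, h4⟩ := generalized_tube_lemma (isCompact_Icc (a := τ) (b := 1))
      (isCompact_singleton (x := x0)) (isOpen_lt continuous_const hw) (by
        rintro ⟨t, x⟩ ⟨ht, rfl⟩
        show 0 < v (pr t) x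
        rw [pre t ⟨h0.le.trans ht.1, ht.2⟩]
        exact hp t ht)
    obtain ⟨r1, hr1, h5⟩ := Metric.nhds_basis_closedBall.mem_iff.1 (hV.mem_nhds (h3 rfl))
    obtain ⟨e, he, h6⟩ := Metric.nhds_basis_closedBall.mem_iff.1 (hU.mem_nhds (h2 ⟨le_rfl, h1.le⟩))
    refine box v hc hs x0 (min r0 r1) (max (τ / 2) (τ - e)) τ m (lt_min hr0 hr1)
      (lt_max_of_lt_left (by linarith)) (max_lt (by linarith) (by linarith)) h1 ?_ ?_
    · intro t ht x hx
      have a1 := (le_max_left _ _).trans ht.1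
      have a2 := (le_max_right _ _).trans ht.1
      have tU : t ∈ U := by
        rcases le_total τ t with h | h
        · exact h2 ⟨h, ht.2⟩
        · exact h6 (by rw [Real.closedBall_eq_Icc]; exact ⟨a2, by linarith⟩)
      have := h4 (mk_mem_prod tU (h5 (Metric.closedBall_subset_closedBall (min_le_right _ _) hx)))
      rw [← pre t ⟨by linarith, ht.2⟩]
      exact this
    · intro x hx
      exact Real.sqrt_le_sqrt (hb (Metric.closedBall_subset_closedBall (min_le_left _ _) hx)).le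
  have hall : ∀ t ∈ Icc (1 / 2 : ℝ) 1, 0 < v t x0 := by
    by_contra hc'
    push Not at hc'
    have hw1 : Continuous (fun t : ℝ => v (pr t) x0) := hw.comp (continuous_id.prodMk continuous_const)
    have hK : IsCompact (Icc (1 / 2 : ℝ) 1 ∩ {t | v (pr t) x0 ≤ 0}) :=
      isCompact_Icc.inter_right (isClosed_le hw1 continuous_const)
    obtain ⟨t0, ⟨ht0, hv0⟩, hmax⟩ := hK.exists_isGreatest (by
      obtain ⟨t, ht, h⟩ := hc'
      exact ⟨t, ht, by show v (pr t) x0 ≤ 0; rwa [pre t ⟨by linarith [ht.1], ht.2⟩]⟩)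
    have hlt : t0 < 1 := by
      refine lt_of_le_of_ne ht0.2 fun e => ?_
      have : v (pr t0) x0 ≤ 0 := hv0
      rw [e, pre 1 ⟨zero_le_one, le_rfl⟩] at this
      linarith
    have hge : m ≤ √(v (pr t0) x0) := by
      refine ge_of_tendsto ((hw1.sqrt.tendsto t0).mono_left (nhdsWithin_le_nhds (s := Ioi t0))) ?_
      filter_upwards [Ioo_mem_nhdsGT hlt] with τ hτ
      have h0 : 0 < τ := by linarith [ht0.1, hτ.1]
      rw [pre τ ⟨h0.le, hτ.2.le⟩]
      refine le_trans (by linarith [hτ.2]) (step τ h0 hτ.2 fun t ht => ?_)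
      by_contra hh
      have : t ≤ t0 := hmax ⟨⟨by linarith [ht0.1, hτ.1, ht.1], ht.2⟩, by
        show v (pr t) x0 ≤ 0
        rw [pre t ⟨h0.le.trans ht.1, ht.2⟩]
        exact not_lt.1 hh⟩
      linarith [hτ.1, ht.1]
    rw [Real.sqrt_eq_zero_of_nonpos hv0] at hge
    linarith
  have := step (1 / 2) (by norm_num) (by norm_num) hall
  linarith

lemma lim (v : ℝ → E → ℝ) (hc : ContinuousOn (fun q : ℝ × E => v q.1 q.2) (Icc 0 1 ×ˢ univ))
    (hs : Sup v) (e : E) (hpos : ∀ c : ℝ, 0 < c → 0 < v 1 (c • e)) : 0 < v (1 / 2) 0 := by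
  have hc1 : Continuous (fun c : ℝ => v (1 / 2) (c • e)) :=
    continuousOn_univ.1 (hc.comp (f := fun c : ℝ => ((1 / 2 : ℝ), c • e)) (by fun_prop)
      (fun x _ => ⟨⟨by norm_num, by norm_num⟩, trivial⟩))
  have := ge_of_tendsto ((hc1.sqrt.tendsto 0).mono_left (nhdsWithin_le_nhds (s := Ioi 0)))
    (eventually_of_mem self_mem_nhdsWithin fun c hc' => line v hc hs _ (hpos c hc'))
  rw [zero_smul] at this
  exact Real.sqrt_pos.1 (by linarith)

lemma gg_neg (y : ℝ) : gg (-y) = -gg y := by simp only [gg, neg_neg]; ring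

lemma gg_abs (y : ℝ) : |gg y| ≤ 1 + |y| := by
  unfold gg
  rcases le_total 0 y with h | h
  · rw [Real.sqrt_eq_zero_of_nonpos (neg_nonpos.2 h), abs_of_nonneg h, sub_zero,
      abs_of_nonneg (by positivity)]
    nlinarith [Real.sq_sqrt h, sq_nonneg (√y - 1)]
  · rw [Real.sqrt_eq_zero_of_nonpos h, abs_of_nonpos h, zero_sub, mul_neg, abs_neg,
      abs_of_nonneg (by positivity)]
    nlinarith [Real.sq_sqrt (neg_nonneg.2 h), sq_nonneg (√(-y) - 1)]

/-- The negation of the preceding statement: For all T>0, n,d≥1 and continuous b,σ,g,h with Lipschitz/bounded coefficients and growth bounds G1, G2, some u continuous on [0,T]×ℝⁿ with u(T,·)=h is a viscosity sub- and supersolution of ∂ₜu+Lu+g(t,x,u,σ*∇u)=0 on (0,T)×ℝⁿ. 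
Counterexample: b = 0, σ = 0, g = 2 sgn(y) sqrt(abs y), h(x) = x (Peano non-uniqueness). -/
theorem result :
    ¬ (∀ (T : ℝ), 0 < T → ∀ (n d : ℕ), 1 ≤ n → 1 ≤ d →
  ∀ (b : ℝ → EuclideanSpace ℝ (Fin n) → EuclideanSpace ℝ (Fin n))
    (σ : ℝ → EuclideanSpace ℝ (Fin n) → Fin n → Fin d → ℝ)
    (g : ℝ → EuclideanSpace ℝ (Fin n) → ℝ → (Fin d → ℝ) → ℝ)
    (h : EuclideanSpace ℝ (Fin n) → ℝ)
    (K k α p : ℝ),
    ContinuousOn (fun q : ℝ × EuclideanSpace ℝ (Fin n) => b q.1 q.2)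
      (Set.Icc (0:ℝ) T ×ˢ (Set.univ : Set (EuclideanSpace ℝ (Fin n)))) →
    ContinuousOn (fun q : ℝ × EuclideanSpace ℝ (Fin n) => σ q.1 q.2)
      (Set.Icc (0:ℝ) T ×ˢ (Set.univ : Set (EuclideanSpace ℝ (Fin n)))) →
    ContinuousOn
      (fun q : ℝ × EuclideanSpace ℝ (Fin n) × ℝ × (Fin d → ℝ) => g q.1 q.2.1 q.2.2.1 q.2.2.2)
      (Set.Icc (0:ℝ) T ×ˢ (Set.univ : Set (EuclideanSpace ℝ (Fin n) × ℝ × (Fin d → ℝ)))) →
    Continuous h →
    0 < K → 0 ≤ k → 1 < α → α ≤ 2 → 1 ≤ p → p < α / (α - 1) →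
    (∀ t ∈ Set.Icc (0:ℝ) T, ∀ x x' : EuclideanSpace ℝ (Fin n),
      ‖b t 0‖ + Real.sqrt (∑ i, ∑ j, (σ t x i j) ^ 2) ≤ K ∧
      ‖b t x - b t x'‖ + Real.sqrt (∑ i, ∑ j, (σ t x i j - σ t x' i j) ^ 2) ≤ K * ‖x - x'‖) →
    (∀ t ∈ Set.Icc (0:ℝ) T, ∀ (x : EuclideanSpace ℝ (Fin n)) (y : ℝ) (z : Fin d → ℝ),
      Real.sign y * g t x y z
        ≤ k * (1 + ‖x‖ ^ p + |y| + (Real.sqrt (∑ j, z j ^ 2)) ^ α)) →
    (∀ t ∈ Set.Icc (0:ℝ) T, ∀ (x : EuclideanSpace ℝ (Fin n)) (y : ℝ) (z : Fin d → ℝ),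
      |g t x y z| + |h x|
        ≤ k * (1 + ‖x‖ ^ p + Real.exp (k * |y| ^ (2 / (α / (α - 1)))) + ∑ j, z j ^ 2)) →
    ∃ u : ℝ → EuclideanSpace ℝ (Fin n) → ℝ,
      ContinuousOn (fun q : ℝ × EuclideanSpace ℝ (Fin n) => u q.1 q.2)
        (Set.Icc (0:ℝ) T ×ˢ (Set.univ : Set (EuclideanSpace ℝ (Fin n)))) ∧
      (∀ x, u T x = h x) ∧
      ∀ φ : ℝ → EuclideanSpace ℝ (Fin n) → ℝ,
        ContDiff ℝ ((⊤ : ℕ∞) : WithTop ℕ∞)
          (fun q : ℝ × EuclideanSpace ℝ (Fin n) => φ q.1 q.2) →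
        ∀ t0 ∈ Set.Ioo (0:ℝ) T, ∀ x0 : EuclideanSpace ℝ (Fin n),
          (IsLocalMin (fun q : ℝ × EuclideanSpace ℝ (Fin n) => u q.1 q.2 - φ q.1 q.2) (t0, x0) →
            deriv (fun s => φ s x0) t0 + fderiv ℝ (φ t0) x0 (b t0 x0)
              + (1 / 2) * ∑ i, ∑ j, (∑ l, σ t0 x0 i l * σ t0 x0 j l)
                  * fderiv ℝ (fun y => fderiv ℝ (φ t0) y) x0
                      (EuclideanSpace.single i (1:ℝ)) (EuclideanSpace.single j (1:ℝ))
              + g t0 x0 (u t0 x0)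
                  (fun j => ∑ i, σ t0 x0 i j * fderiv ℝ (φ t0) x0 (EuclideanSpace.single i (1:ℝ)))
              ≤ 0) ∧
          (IsLocalMax (fun q : ℝ × EuclideanSpace ℝ (Fin n) => u q.1 q.2 - φ q.1 q.2) (t0, x0) →
            0 ≤ deriv (fun s => φ s x0) t0 + fderiv ℝ (φ t0) x0 (b t0 x0)
              + (1 / 2) * ∑ i, ∑ j, (∑ l, σ t0 x0 i l * σ t0 x0 j l)
                  * fderiv ℝ (fun y => fderiv ℝ (φ t0) y) x0
                      (EuclideanSpace.single i (1:ℝ)) (EuclideanSpace.single j (1:ℝ))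
              + g t0 x0 (u t0 x0)
                  (fun j => ∑ i, σ t0 x0 i j * fderiv ℝ (φ t0) x0 (EuclideanSpace.single i (1:ℝ))))) := by
  intro h
  obtain ⟨u, hc, hT, hv⟩ := h 1 one_pos 1 1 le_rfl le_rfl (fun _ _ => 0) (fun _ _ _ _ => 0)
    (fun _ _ y _ => gg y) (fun x => x 0) 1 1 2 1 continuousOn_const continuousOn_const
    (by unfold gg; fun_prop) (by fun_prop) one_pos zero_le_one one_lt_two le_rfl le_rfl (by norm_num)
    (fun t _ x x' => by simp)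
    (fun t _ x y z => by
      have h1 := gg_abs y
      have h2 : Real.sign y * gg y ≤ |gg y| := by
        rcases Real.sign_apply_eq y with h | h | h <;> rw [h] <;>
          linarith [le_abs_self (gg y), neg_abs_le (gg y), abs_nonneg (gg y)]
      have h3 : 0 ≤ ‖x‖ ^ (1 : ℝ) := by positivity
      have h4 : 0 ≤ √(∑ j, z j ^ 2) ^ (2 : ℝ) := by positivity
      linarith)
    (fun t _ x y z => by
      have h1 := gg_abs y
      have h2 : |x 0| ≤ ‖x‖ := PiLp.norm_apply_le x 0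
      have h3 : (2 : ℝ) / (2 / (2 - 1)) = 1 := by norm_num
      have h4 : 0 ≤ ∑ j, z j ^ 2 := by positivity
      rw [h3, Real.rpow_one, Real.rpow_one, one_mul, one_mul]
      linarith [Real.add_one_le_exp |y|])
  have s1 : Sup u := fun φ hφ t0 ht x0 hl => by simpa using (hv φ hφ t0 ht x0).1 hl
  have s2 : Sup (fun t x => -u t x) := fun φ hφ t0 ht x0 hl => by
    have h1 := (hv (fun t x => -φ t x) hφ.neg t0 ht x0).2 (by
      have := hl.neg
      simp only [neg_sub, sub_neg_eq_add] at this ⊢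
      simpa only [add_comm] using this)
    have h2 : 0 ≤ deriv (fun s => -φ s x0) t0 + gg (u t0 x0) := by simpa using h1
    rw [deriv.fun_neg] at h2
    rw [gg_neg]
    linarith
  have a1 := lim u hc s1 (EuclideanSpace.single 0 1) (fun c hc => by simpa [hT] using hc)
  have a2 := lim _ hc.neg s2 (EuclideanSpace.single 0 (-1)) (fun c hc => by simpa [hT] using hc)
  linarith

end Pool.Agent.S04204
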