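import Pool.Statements.S04226
-- import your own Pool.Agent.* helpers here

set_option autoImplicit false
open Pool Pool.MP_2eee10_an

namespace Pool.Agent.S04226

noncomputable def step (a b c : ℝ) : ℝ := (90600 * b + 40317 * c) / (15529 * a + 115099 * b + 289 * c)

noncomputable def sol (y : ℕ → ℝ) : ℕ → ℝ
  | 0 => y 0
  | 1 => y 1
  | 2 => y 2
  | n + 3 => step (sol y (n + 2)) (sol y (n + 1)) (sol y n)

def SS (x : ℕ → ℝ) : Prop := (∀ n, 0 < x n) ∧ ∀ n, x (n + 3) = step (x (n + 2)) (x (n + 1)) (x n)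

lemma SS_iff (x : ℕ → ℝ) : SS x ↔ ((∀ n, 0 < x n) ∧
    ∀ n : ℕ, 3 ≤ n →
      (0 < 0 + ∑ j : Fin 3, (![15529, 115099, 289] : Fin 3 → ℝ) j * x (n - 1 - (j : ℕ)) ∧
        x n = (0 + ∑ j : Fin 3, (![0, 90600, 40317] : Fin 3 → ℝ) j * x (n - 1 - (j : ℕ))) /
          (0 + ∑ j : Fin 3, (![15529, 115099, 289] : Fin 3 → ℝ) j * x (n - 1 - (j : ℕ))))) := by
  refine and_congr_right fun hpos => ⟨fun h n hn => ?_, fun h n => ?_⟩
  · obtain ⟨m, rfl⟩ := Nat.exists_eq_add_of_le' hn
    have h0 := hpos m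
    have h1 := hpos (m + 1)
    have h2 := hpos (m + 2)
    simp only [Fin.sum_univ_three]
    constructor
    · simp; positivity
    · rw [h m]; simp [step]
  · have := (h (n + 3) (by omega)).2
    simp only [Fin.sum_univ_three] at this
    rw [this]; simp [step]

lemma step_pos {a b c : ℝ} (ha : 0 < a) (hb : 0 < b) (hc : 0 < c) : 0 < step a b c := by
  unfold step; positivity

lemma step_le {a b c : ℝ} (ha : 0 < a) (hb : 0 < b) (hc : 0 < c) : step a b c ≤ 140 := by
  rw [step, div_le_iff₀ (by positivity)]; linarith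

lemma step_near {a b c e : ℝ} (ha : |a - 1| ≤ e) (hb : |b - 1| ≤ e) (hc : |c - 1| ≤ e)
    (ha' : |a - 1| ≤ 1 / 10) (hb' : |b - 1| ≤ 1 / 10) (hc' : |c - 1| ≤ 1 / 10) :
    |step a b c - 1| ≤ 7 / 10 * e := by
  have he : 0 ≤ e := le_trans (abs_nonneg _) ha
  rw [abs_le] at ha hb hc ha' hb' hc'
  have hD : 117000 ≤ 15529 * a + 115099 * b + 289 * c := by linarith
  have hD0 : 0 < 15529 * a + 115099 * b + 289 * c := by linarith
  have h1 := mul_le_mul_of_nonneg_left hD he
  rw [step, div_sub_one hD0.ne', abs_le, le_div_iff₀ hD0, div_le_iff₀ hD0]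
  constructor <;> nlinarith

lemma decay {x : ℕ → ℝ} (h : SS x) (d : ℝ) (hd : d ≤ 1 / 10)
    (h0 : ∀ i, i < 3 → |x i - 1| ≤ d) (n : ℕ) :
    |x n - 1| ≤ 2 * d * (9 / 10) ^ n ∧ |x n - 1| ≤ d := by
  have hd0 : 0 ≤ d := le_trans (abs_nonneg _) (h0 0 (by norm_num))
  induction n using Nat.strong_induction_on with
  | _ n ih =>
    match n with
    | 0 => exact ⟨by have := h0 0 (by norm_num); simp only [pow_zero]; linarith, h0 0 (by norm_num)⟩
    | 1 => exact ⟨by have := h0 1 (by norm_num); simp only [pow_one]; linarith, h0 1 (by norm_num)⟩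
    | 2 => exact ⟨by have := h0 2 (by norm_num); norm_num; linarith, h0 2 (by norm_num)⟩
    | m + 3 =>
      have i0 := ih m (by omega)
      have i1 := ih (m + 1) (by omega)
      have i2 := ih (m + 2) (by omega)
      have hp : 0 ≤ d * (9 / 10 : ℝ) ^ m := by positivity
      rw [h.2 m]
      constructor
      · have := step_near (e := 2 * d * (9 / 10) ^ m) (a := x (m + 2)) (b := x (m + 1)) (c := x m)
          (by have := i2.1; rw [pow_add] at this; nlinarith)
          (by have := i1.1; rw [pow_add] at this; nlinarith) i0.1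
          (by linarith [i2.2]) (by linarith [i1.2]) (by linarith [i0.2])
        rw [pow_add]
        nlinarith
      · have := step_near i2.2 i1.2 i0.2 (by linarith [i2.2]) (by linarith [i1.2])
          (by linarith [i0.2])
        linarith


/-- The negation of the preceding statement: For any k ≥ 1 and nonnegative parameters where all positive initial values give positive, bounded solutions of the rational recurrence, any locally asymptotically stable equilibrium attracts every positive solution. -/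
theorem result :
    ¬ (∀ (k : ℕ), 1 ≤ k → ∀ (α A : ℝ) (β B : Fin k → ℝ), 0 ≤ α → 0 ≤ A →
    (∀ j, 0 ≤ β j) → (∀ j, 0 ≤ B j) →
    ∀ S : (ℕ → ℝ) → Prop,
      (∀ x : ℕ → ℝ, S x ↔ ((∀ n, 0 < x n) ∧
        ∀ n : ℕ, k ≤ n →
          (0 < A + ∑ j : Fin k, B j * x (n - 1 - (j : ℕ)) ∧
           x n = (α + ∑ j : Fin k, β j * x (n - 1 - (j : ℕ))) /
                 (A + ∑ j : Fin k, B j * x (n - 1 - (j : ℕ)))))) →
      (∀ y : ℕ → ℝ, (∀ i : ℕ, i < k → 0 < y i) →
        ∃ x : ℕ → ℝ, S x ∧ ∀ i : ℕ, i < k → x i = y i) →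
      (∀ x : ℕ → ℝ, S x → ∃ M : ℝ, ∀ n, x n ≤ M) →
      ∀ xbar : ℝ, 0 ≤ xbar →
        xbar * (A + ∑ j : Fin k, B j * xbar) = α + ∑ j : Fin k, β j * xbar →
        (∀ ε : ℝ, 0 < ε → ∃ δ : ℝ, 0 < δ ∧ ∀ x : ℕ → ℝ, S x →
          (∀ i : ℕ, i < k → |x i - xbar| < δ) → ∀ n : ℕ, k ≤ n → |x n - xbar| < ε) →
        (∃ γ : ℝ, 0 < γ ∧ ∀ x : ℕ → ℝ, S x →
          (∀ i : ℕ, i < k → |x i - xbar| < γ) →
          Filter.Tendsto x Filter.atTop (nhds xbar)) →
        ∀ x : ℕ → ℝ, S x → Filter.Tendsto x Filter.atTop (nhds xbar)) := by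
  intro H
  let x : ℕ → ℝ := fun n => if n % 3 = 0 then 4 / 5 else if n % 3 = 1 then 20 else 1 / 5
  have key := H 3 (by norm_num) 0 0 ![0, 90600, 40317] ![15529, 115099, 289] le_rfl le_rfl
    (fun j => by fin_cases j <;> simp) (fun j => by fin_cases j <;> simp) SS SS_iff ?_ ?_ 1
    zero_le_one (by simp [Fin.sum_univ_three]; norm_num) ?_ ?_ x ?_
  · have h3 : Filter.Tendsto (fun n : ℕ => 3 * n) Filter.atTop Filter.atTop :=
      Filter.tendsto_atTop_mono (fun n => by simp only [id]; omega) Filter.tendsto_id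
    have h4 := key.comp h3
    have h5 : (x ∘ fun n : ℕ => 3 * n) = fun _ => 4 / 5 := by
      funext n
      simp [x]
    rw [h5] at h4
    have h6 := tendsto_nhds_unique h4 tendsto_const_nhds
    norm_num at h6
  · intro y hy
    refine ⟨sol y, ⟨fun n => ?_, fun n => rfl⟩, fun i hi => ?_⟩
    · induction n using Nat.strong_induction_on with
      | _ n ih =>
        match n with
        | 0 => exact hy 0 (by norm_num)
        | 1 => exact hy 1 (by norm_num)
        | 2 => exact hy 2 (by norm_num)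
        | m + 3 => exact step_pos (ih _ (by omega)) (ih _ (by omega)) (ih _ (by omega))
    · interval_cases i <;> rfl
  · intro z hz
    refine ⟨140 + z 0 + z 1 + z 2, fun n => ?_⟩
    have p0 := hz.1 0
    have p1 := hz.1 1
    have p2 := hz.1 2
    match n with
    | 0 => linarith
    | 1 => linarith
    | 2 => linarith
    | m + 3 =>
      have := step_le (hz.1 (m + 2)) (hz.1 (m + 1)) (hz.1 m)
      rw [hz.2 m]
      linarith
  · intro ε hε
    refine ⟨min (ε / 2) (1 / 10), by positivity, fun z hz hd n _ => ?_⟩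
    have := (decay hz (min (ε / 2) (1 / 10)) (min_le_right _ _) (fun i hi => (hd i hi).le) n).2
    have h2 := min_le_left (ε / 2) (1 / 10)
    linarith
  · refine ⟨1 / 10, by norm_num, fun z hz hd => ?_⟩
    have hb := fun n => (decay hz (1 / 10) le_rfl (fun i hi => (hd i hi).le) n).1
    rw [tendsto_iff_norm_sub_tendsto_zero]
    refine squeeze_zero (fun n => norm_nonneg _) hb ?_
    simpa using (tendsto_pow_atTop_nhds_zero_of_lt_one (r := (9 / 10 : ℝ)) (by norm_num)
      (by norm_num)).const_mul (2 * (1 / 10 : ℝ))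
  · refine ⟨fun n => ?_, fun n => ?_⟩
    · simp only [x]; split_ifs <;> norm_num
    · have hn : n % 3 = 0 ∨ n % 3 = 1 ∨ n % 3 = 2 := by omega
      rcases hn with h | h | h <;> simp only [x, h, Nat.add_mod n] <;> norm_num [step]

end Pool.Agent.S04226
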