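import Pool.Statements.S04229
import Pool.Agent.Lib.helper15.PosC

set_option autoImplicit false
open Pool Pool.MP_2f01a7_an

namespace Pool.Agent.S04229



/-- There is a bounded linear bijection with bounded inverse from the real continuous functions on the Cantor space onto the real continuous functions on [0,1] that sends nonnegative functions to nonnegative functions. -/
theorem result :
    ∃ T : C(ℕ → Bool, ℝ) ≃L[ℝ] C(unitInterval, ℝ),
      ∀ f : C(ℕ → Bool, ℝ), (∀ x, 0 ≤ f x) → ∀ y, 0 ≤ (T f) y := by
  exact Pool.Agent.Lib.helper15.PosC.CD

end Pool.Agent.S04229
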