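import Pool.Statements.S04252

set_option autoImplicit false
open Filter Topology
open Pool Pool.MP_309e42_an

namespace Pool.Agent.S04252

noncomputable def f : ℂ → ℂ := dslope Complex.sin 0

lemma df : Differentiable ℂ f := differentiableOn_univ.1
  ((Complex.differentiableOn_dslope univ_mem).2 Complex.differentiable_sin.differentiableOn)

lemma zf (z : ℂ) : z * f z = Complex.sin z := by
  simpa [f] using sub_smul_dslope Complex.sin 0 z

lemma dn (n : ℕ) : Differentiable ℂ (iteratedDeriv n f) :=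
  df.contDiff.differentiable_iteratedDeriv' n

lemma lb (n : ℕ) : iteratedDeriv (n + 1) Complex.sin
    = fun z => z * iteratedDeriv (n + 1) f z + (n + 1) * iteratedDeriv n f z := by
  have d : ∀ n z, HasDerivAt (iteratedDeriv n f) (iteratedDeriv (n + 1) f z) z := fun n z => by
    rw [iteratedDeriv_succ]; exact (dn n z).hasDerivAt
  induction n with
  | zero =>
    ext z
    rw [iteratedDeriv_succ, iteratedDeriv_zero, ← funext zf]
    have := ((hasDerivAt_id z).mul (d 0 z)).deriv
    simp only [iteratedDeriv_zero, id] at this ⊢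
    refine this.trans (by push_cast; ring)
  | succ n ih =>
    ext z
    rw [iteratedDeriv_succ, ih]
    refine (((hasDerivAt_id z).mul (d (n + 1) z)).add ((d n z).const_mul _)).deriv.trans ?_
    simp only [id]; push_cast; ring

lemma ev (n : ℕ) : iteratedDeriv n f 0 ≠ 0 ↔ Even n := by
  have h := congrFun (lb n) 0
  have n0 : (n + 1 : ℂ) ≠ 0 := by exact_mod_cast n.succ_ne_zero
  rcases n.even_or_odd' with ⟨k, rfl | rfl⟩
  · rw [Complex.iteratedDeriv_odd_sin] at h
    refine iff_of_true (fun e => ?_) (by simp)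
    simp [e] at h
  · rw [show 2 * k + 1 + 1 = 2 * (k + 1) by ring, Complex.iteratedDeriv_even_sin] at h
    refine iff_of_false (fun e => e ?_) (by simp)
    simp only [Pi.mul_apply, Complex.sin_zero, mul_zero, zero_mul, zero_add] at h
    exact (mul_eq_zero.1 h.symm).resolve_left n0

lemma cd {t : ℝ} (ht : 0 ≤ t) :
    Nat.card {n : ℕ // iteratedDeriv n f 0 ≠ 0 ∧ (n : ℝ) ≤ t} = ⌊1 / 2 * t⌋₊ + 1 := by
  rw [Nat.subtype_card ((Finset.range (⌊1 / 2 * t⌋₊ + 1)).image (2 * ·)),
    Finset.card_image_of_injective _ (mul_right_injective₀ two_ne_zero), Finset.card_range]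
  intro n
  simp only [ev, Finset.mem_image, Finset.mem_range, Nat.lt_succ_iff,
    Nat.le_floor_iff (show 0 ≤ 1 / 2 * t by positivity)]
  constructor
  · rintro ⟨k, hk, rfl⟩; exact ⟨by simp, by push_cast; linarith⟩
  · rintro ⟨⟨k, rfl⟩, hk⟩; exact ⟨k, by push_cast at hk; linarith, by ring⟩

lemma ns (z : ℂ) : ‖Complex.sin z‖ ≤ Real.exp ‖z‖ := by
  have h1 := Complex.norm_exp_le_exp_norm (-z * Complex.I)
  have h2 := Complex.norm_exp_le_exp_norm (z * Complex.I)
  have h3 := norm_sub_le (Complex.exp (-z * Complex.I)) (Complex.exp (z * Complex.I))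
  simp only [norm_mul, norm_neg, Complex.norm_I, mul_one] at h1 h2
  rw [Complex.sin, norm_div, norm_mul, Complex.norm_I, Complex.norm_ofNat]
  linarith

/-- The negation of the preceding statement: Every non-constant entire f of finite order ρ whose exponent set (nonzero Taylor coefficients) has maximal Pólya density Δ with ρΔ<1 has no finite asymptotic value along any curve tending to infinity. -/
theorem result :
    ¬ (∀ f : ℂ → ℂ, Differentiable ℂ f → (∃ z w : ℂ, f z ≠ f w) →
    ∀ ρ Δ : ℝ,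
      (∀ ε : ℝ, 0 < ε → ∀ᶠ r : ℝ in atTop, ∀ z : ℂ, ‖z‖ = r →
          ‖f z‖ ≤ Real.exp (r ^ (ρ + ε))) →
      Tendsto (fun ξ : ℝ => Filter.limsup (fun t : ℝ =>
          (((Nat.card {n : ℕ // iteratedDeriv n f 0 ≠ 0 ∧ (n : ℝ) ≤ t} : ℕ) : ℝ) -
            ((Nat.card {n : ℕ // iteratedDeriv n f 0 ≠ 0 ∧ (n : ℝ) ≤ ξ * t} : ℕ) : ℝ)) /
            ((1 - ξ) * t)) atTop)
        (𝓝[<] (1 : ℝ)) (𝓝 Δ) →
      ρ * Δ < 1 →
      ¬ ∃ a : ℂ, ∃ γ : ℝ → ℂ, Continuous γ ∧
          Tendsto (fun t : ℝ => ‖γ t‖) atTop atTop ∧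
          Tendsto (fun t : ℝ => f (γ t)) atTop (𝓝 a)) := by
  intro H
  refine H f df ⟨0, Real.pi, ?_⟩ 1 (1 / 2) (fun ε hε => ?_) ?_ (by norm_num)
    ⟨0, fun t => t, Complex.continuous_ofReal, ?_, ?_⟩
  · have h1 : f 0 = 1 := by simp [f]
    have h2 := zf Real.pi
    rw [Complex.sin_pi, mul_eq_zero] at h2
    rw [h1, h2.resolve_left (by exact_mod_cast Real.pi_ne_zero)]
    exact one_ne_zero
  · filter_upwards [eventually_ge_atTop 1] with r hr z hz
    have h1 := ns z
    rw [← zf, norm_mul, hz] at h1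
    have h2 : r ≤ r ^ (1 + ε) := by
      simpa using Real.rpow_le_rpow_of_exponent_le hr (show 1 ≤ 1 + ε by linarith)
    have := Real.exp_le_exp.2 h2
    nlinarith [norm_nonneg (f z)]
  · refine tendsto_const_nhds.congr' ?_
    filter_upwards [Ioo_mem_nhdsLT zero_lt_one] with ξ hξ
    refine (Tendsto.limsup_eq ?_).symm
    have x1 := (sub_pos.2 hξ.2).ne'
    have h := ((tendsto_nat_floor_mul_div_atTop (a := (1 / 2 : ℝ)) (by norm_num)).sub
      (tendsto_nat_floor_mul_div_atTop (a := 1 / 2 * ξ) (by linarith [hξ.1]))).div_const (1 - ξ)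
    rw [show (1 / 2 - 1 / 2 * ξ) / (1 - ξ) = 1 / 2 by field_simp] at h
    refine h.congr' ?_
    filter_upwards [eventually_gt_atTop 0] with t ht
    rw [cd ht.le, cd (mul_pos hξ.1 ht).le, mul_assoc]
    push_cast; field_simp; ring
  · simpa using tendsto_abs_atTop_atTop
  · rw [tendsto_zero_iff_norm_tendsto_zero]
    refine squeeze_zero' (.of_forall fun _ => norm_nonneg _) ?_ tendsto_inv_atTop_zero
    filter_upwards [eventually_gt_atTop 0] with t ht
    have h1 := congrArg norm (zf t)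
    rw [norm_mul, ← Complex.ofReal_sin, Complex.norm_real, Complex.norm_real,
      Real.norm_of_nonneg ht.le, Real.norm_eq_abs] at h1
    rw [← one_div, le_div_iff₀' ht, h1]
    exact Real.abs_sin_le_one t

end Pool.Agent.S04252
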