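import Pool.Statements.S04269
import Pool.Agent.Lib.helper28.RepB

set_option autoImplicit false
open Pool Pool.MP_321233_an

namespace Pool.Agent.S04269

/-- There is a sequence of distinct points in the open unit disc whose closure misses some point of the unit circle, such that every H^2 function (as a square-summable coefficient sequence) is a norm-convergent series of Cauchy kernels at those points. -/
theorem result :
    ∃ Λ : ℕ → ℂ, Function.Injective Λ ∧ (∀ n, ‖Λ n‖ < 1) ∧
      (∃ ζ : ℂ, ‖ζ‖ = 1 ∧ ζ ∉ closure (Set.range Λ)) ∧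
      ∀ f : ℕ → ℂ, Summable (fun n => ‖f n‖ ^ 2) →
        ∃ c : ℕ → ℂ, Filter.Tendsto
          (fun N : ℕ => ∑' n : ℕ,
            ‖f n - ∑ k ∈ Finset.range N, c k * (starRingEnd ℂ (Λ k)) ^ n‖ ^ 2)
          Filter.atTop (nhds 0) := by
  obtain ⟨L, h1, h2, -, h4⟩ := Pool.Agent.H28Rep.exists_to_one
  refine ⟨fun n => (L n : ℂ), Complex.ofReal_injective.comp h1, fun n => ?_,
    ⟨-1, by simp, fun h => ?_⟩, h4⟩
  · rw [Complex.norm_real, Real.norm_eq_abs, abs_of_pos (h2 n).1]
    exact (h2 n).2
  · have hc : IsClosed {z : ℂ | 0 ≤ z.re} := isClosed_le continuous_const Complex.continuous_re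
    have := hc.closure_subset_iff.mpr (by
      rintro _ ⟨n, rfl⟩
      simpa using (h2 n).1.le) h
    norm_num at this

end Pool.Agent.S04269
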