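import Pool.Statements.S04274

set_option autoImplicit false
open Pool Pool.MP_32357e_an

namespace Pool.Agent.S04274

/-- The negation of the preceding statement: For every injective analytic f on the unit disc, its primitive F with F(0)=0 satisfies a uniform bound on (1-∣z∣^2)∣f(z)∣/(1+∣F(z)∣^2) over the disc, i.e. F is a normal function. -/
theorem result :
    ¬ (∀ f F : ℂ → ℂ,
      AnalyticOnNhd ℂ f (Metric.ball (0:ℂ) 1) →
      Set.InjOn f (Metric.ball (0:ℂ) 1) →
      F 0 = 0 →
      (∀ z ∈ Metric.ball (0:ℂ) 1, HasDerivAt F (f z) z) →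
      ∃ C : ℝ, ∀ z ∈ Metric.ball (0:ℂ) 1,
        (1 - ‖z‖ ^ 2) * ‖f z‖ / (1 + ‖F z‖ ^ 2) ≤ C) := by
  open Complex Set Metric in
  intro H
  set b : ℂ := 1 / 100 + I / 2 with hb
  have nb : 1 / 2 ≤ ‖b‖ := le_trans (by simp [hb]) (im_le_norm b)
  have b0 : b ≠ 0 := norm_pos_iff.1 (by linarith)
  have re0 : ∀ z ∈ ball (0 : ℂ) 1, 0 < (1 - z).re := fun z hz => by
    simpa using (re_le_norm z).trans_lt (mem_ball_zero_iff.1 hz)
  have ne0 : ∀ z ∈ ball (0 : ℂ) 1, 1 - z ≠ 0 := fun z hz h => by simpa [h] using re0 z hz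
  have ds : ∀ z ∈ ball (0 : ℂ) 1, HasDerivAt (fun z => -log (1 - z)) (cexp (-log (1 - z))) z :=
    fun z hz => (((hasDerivAt_id z).const_sub 1).clog (.inl (re0 z hz))).neg.congr_deriv (by
      rw [exp_neg, exp_log (ne0 z hz)]; simp [div_eq_mul_inv])
  obtain ⟨C, hC⟩ := H
    (fun z => 1 / 100 * cexp ((1 + 1 / 100) * -log (1 - z)) - b * cexp ((1 + b) * -log (1 - z)))
    (fun z => cexp (1 / 100 * -log (1 - z)) - cexp (b * -log (1 - z)))
    (DifferentiableOn.analyticOnNhd (fun z hz => by
      have := (ds z hz).differentiableAt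
      exact DifferentiableAt.differentiableWithinAt (by fun_prop)) isOpen_ball)
    (fun z hz w hw h => by
      set T : Set ℂ := {s | s.im < 2} with hT
      have m : ∀ z ∈ ball (0 : ℂ) 1, |(-log (1 - z)).im| < Real.pi / 2 := fun z hz => by
        rw [neg_im, abs_neg, log_im]; exact abs_arg_lt_pi_div_two_iff.2 (.inl (re0 z hz))
      have u : ∀ s ∈ T, ‖1 / 100 / b * cexp (-(I / 2) * s)‖ ≤ 3 / 50 := fun s hs => by
        rw [norm_mul, norm_div, norm_exp, div_mul_eq_mul_div, div_le_iff₀ (by linarith)]
        have : Real.exp (-(I / 2) * s).re ≤ Real.exp 1 :=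
          Real.exp_le_exp.2 (by simp; linarith [show s.im < 2 from hs])
        simp only [norm_div, norm_one, norm_ofNat]
        linarith [Real.exp_one_lt_d9]
      have sl : ∀ s ∈ T, 1 - 1 / 100 / b * cexp (-(I / 2) * s) ∈ slitPlane := fun s hs => by
        rw [sub_eq_add_neg]
        exact mem_slitPlane_of_norm_lt_one (by rw [norm_neg]; linarith [u s hs])
      have p := Real.pi_lt_four
      have mT (s : ℂ) (hs : |s.im| < Real.pi / 2) : s ∈ T :=
        show s.im < 2 by linarith [(abs_lt.1 hs).2]
      have L := (convex_halfSpace_im_lt 2).norm_image_sub_le_of_norm_hasDerivWithin_le (C := 1 / 25)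
        (f := fun s => log (1 - 1 / 100 / b * cexp (-(I / 2) * s)))
        (fun s hs => ((((((hasDerivAt_id s).const_mul (-(I / 2))).cexp).const_mul
          (1 / 100 / b)).const_sub 1).clog (sl s hs)).hasDerivWithinAt) (fun s hs => by
          have := norm_sub_norm_le 1 (1 / 100 / b * cexp (-(I / 2) * s))
          rw [norm_one] at this
          rw [id, norm_div, norm_neg, ← mul_assoc, norm_mul, div_le_iff₀ (by linarith [u s hs])]
          simp only [mul_one, norm_neg, norm_div I, norm_I, norm_ofNat]
          linarith [u s hs]) (x := -log (1 - z)) (y := -log (1 - w))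
        (mT _ (m z hz)) (mT _ (m w hw))
      have e (s : ℂ) (hs : s ∈ T) : 1 / 100 * cexp ((1 + 1 / 100) * s) - b * cexp ((1 + b) * s) =
          -b * cexp ((1 + b) * s + log (1 - 1 / 100 / b * cexp (-(I / 2) * s))) := by
        rw [exp_add _ (log _), exp_log (slitPlane_ne_zero (sl s hs)),
          show (1 + 1 / 100) * s = (1 + b) * s + -(I / 2) * s by rw [hb]; ring, exp_add]
        field_simp; ring
      have m1 := m z hz
      have m2 := m w hw
      simp only at h
      suffices -log (1 - z) = -log (1 - w) by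
        have := congrArg cexp (neg_injective this)
        rwa [exp_log (ne0 z hz), exp_log (ne0 w hw), sub_right_inj] at this
      generalize -log (1 - z) = s at *
      generalize -log (1 - w) = t at *
      rw [e s (mT s m1), e t (mT t m2),
        mul_right_inj' (neg_ne_zero.2 b0), exp_eq_exp_iff_exists_int] at h
      obtain ⟨n, h⟩ := h
      generalize log (1 - 1 / 100 / b * cexp (-(I / 2) * s)) = A at *
      generalize log (1 - 1 / 100 / b * cexp (-(I / 2) * t)) = B at *
      have h1 := congrArg re h
      have h2 := congrArg im h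
      have l1 := abs_le.1 ((abs_re_le_norm _).trans L)
      have l2 := abs_le.1 ((abs_im_le_norm _).trans L)
      have l3 := norm_le_abs_re_add_abs_im (t - s)
      simp [hb] at h1 h2 l1 l2 l3
      rw [abs_lt] at m1 m2
      have p0 := Real.pi_pos
      have n0 : n = 0 := by
        have : |(n : ℝ)| < 1 := by
          rw [← mul_lt_mul_iff_left₀ (show 0 < 2 * Real.pi by linarith), ← abs_of_pos
            (show 0 < 2 * Real.pi by linarith), ← abs_mul, abs_of_pos
            (show 0 < 2 * Real.pi by linarith), abs_lt]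
          rcases abs_cases (t.re - s.re) with k | k <;> rcases abs_cases (t.im - s.im) with l | l <;>
            constructor <;> linarith
        exact Int.abs_lt_one_iff.1 (by exact_mod_cast this)
      subst n0
      rw [Int.cast_zero, zero_mul, add_zero] at h2
      refine Complex.ext ?_ ?_ <;> rcases abs_cases (t.re - s.re) with k | k <;>
        rcases abs_cases (t.im - s.im) with l | l <;> linarith) (by simp)
    (fun z hz => ((((ds z hz).const_mul _).cexp).sub ((ds z hz).const_mul _).cexp).congr_deriv (by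
      simp only [add_mul, one_mul, exp_add]; ring))
  obtain ⟨k, hk⟩ := exists_nat_gt (200 * |C|)
  set s : ℝ := k * (4 * Real.pi) with hs
  have s0 : k ≤ s := le_mul_of_one_le_right k.cast_nonneg (by linarith [Real.pi_gt_three])
  have e0 := Real.exp_pos (-s)
  have e1 : Real.exp (-s) ≤ 1 := Real.exp_le_one_iff.2 (by linarith [k.cast_nonneg (α := ℝ)])
  have := hC (1 - Real.exp (-s) : ℝ) (by
    rw [mem_ball_zero_iff, norm_real, Real.norm_of_nonneg (by linarith)]; linarith)
  have e : cexp (b * s) = cexp (1 / 100 * s) := by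
    rw [show b * s = 1 / 100 * s + k * (2 * Real.pi * I) by rw [hb, hs]; push_cast; ring, exp_add,
      exp_nat_mul_two_pi_mul_I, mul_one]
  simp only [show -log (1 - (1 - Real.exp (-s) : ℝ)) = s by
    rw [ofReal_sub, ofReal_one, sub_sub_cancel, ← ofReal_log e0.le, Real.log_exp]; simp,
    add_mul, one_mul, exp_add, e, sub_self, norm_zero] at this
  rw [← sub_mul, show 1 / 100 - b = -(I / 2) by rw [hb]; ring, norm_real,
    Real.norm_of_nonneg (by linarith), norm_mul, norm_mul, norm_exp, norm_exp] at this
  have k1 : Real.exp (-s) * Real.exp s = 1 := by rw [← Real.exp_add]; simp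
  have k2 := Real.add_one_le_exp (100⁻¹ * s)
  simp at this
  have k3 := mul_pos (Real.exp_pos s) (Real.exp_pos (100⁻¹ * s))
  have k4 := mul_le_mul_of_nonneg_right (show Real.exp (-s) ≤
    1 - (1 - Real.exp (-s)) ^ 2 by nlinarith) k3.le
  rw [← mul_assoc, k1] at k4
  linarith [le_abs_self C]

end Pool.Agent.S04274
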