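import Pool.Statements.S04282
import Pool.Agent.Lib.helper5.Krho

set_option autoImplicit false
open Pool Pool.MP_32963f_an

namespace Pool.Agent.S04282

/-- The negation of the preceding statement: For every scattered compact Hausdorff space K: if real C(K) has a norming Markushevich basis, then K is homeomorphic to a weakly compact subset of some real Banach space, i.e. K is Eberlein compact. -/
theorem result :
    ¬ (∀ (K : Type) [TopologicalSpace K] [CompactSpace K] [T2Space K],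
      (∀ s : Set K, s.Nonempty → ∃ x ∈ s, ∃ U : Set K, IsOpen U ∧ U ∩ s = {x}) →
      (∃ (I : Type) (x : I → C(K, ℝ)) (f : I → (C(K, ℝ) →L[ℝ] ℝ)),
        (∀ i j : I, i = j → f i (x j) = 1) ∧
        (∀ i j : I, i ≠ j → f i (x j) = 0) ∧
        Dense (Submodule.span ℝ (Set.range x) : Set C(K, ℝ)) ∧
        (∀ y : C(K, ℝ), (∀ i, f i y = 0) → y = 0) ∧
        ∃ c : ℝ, 0 < c ∧ ∀ y : C(K, ℝ),
          ∃ g ∈ Submodule.span ℝ (Set.range f), ‖g‖ ≤ 1 ∧ c * ‖y‖ ≤ |g y|) →
      ∃ (E : Type) (_ : NormedAddCommGroup E) (_ : NormedSpace ℝ E) (_ : CompleteSpace E),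
        ∃ S : Set (WeakSpace ℝ E), IsCompact S ∧ Nonempty (K ≃ₜ S)) := by
  intro h
  obtain ⟨Γ, K, _, h1, h2, ⟨I, x, f, n1, n2, n3, n4, n5⟩, -, p, hp⟩ := H5M.main
  obtain ⟨E, _, _, _, S, -, ⟨e⟩⟩ := h K h1 ⟨I, x, f, fun i j e => e ▸ n1 i, n2, n3, n4, 1 / 2,
    one_half_pos, fun y => by
      by_cases e : y = 0
      · exact ⟨0, zero_mem _, ContinuousLinearMap.opNorm_zero.trans_le zero_le_one, by simp [e]⟩
      obtain ⟨g, g1, g2, g3⟩ := n5 y (1 / 2 * ‖y‖) (by linarith [norm_pos_iff.2 e])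
      exact ⟨g, g1, g2, g3.le⟩⟩
  have i := Topology.IsEmbedding.subtypeVal.comp e.isEmbedding
  obtain ⟨C, c1, c2, c3⟩ := H5M.tight (image_closure_subset_closure_image i.continuous ⟨p, h2 p, rfl⟩)
  refine hp (_ ⁻¹' C) (fun y m => ?_) (c2.preimage i.injective) (i.closure_eq_preimage_closure_image _ ▸ ?_)
  · obtain ⟨z, z1, z2⟩ := c1 m
    exact i.injective z2 ▸ z1
  · rwa [Set.image_preimage_eq_of_subset (c1.trans (Set.image_subset_range ..))]

end Pool.Agent.S04282
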