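import Pool.Statements.S04285
import Pool.Agent.Lib.helper21.Shir2

set_option autoImplicit false
open MeasureTheory
open Pool Pool.MP_32de40_an

namespace Pool.Agent.S04285

/-- For every admissible modulus ω, every nonzero disc-algebra f with ω-controlled boundary modulus and every inner Θ: (spec Θ null and ∣f∣ ≤ C·ω(1/∣Θ′∣) on the circle off spec) holds iff for some ε, ∣f(z)∣ ≤ C·ω(1−∣z∣) wherever ∣Θ(z)∣ < ε. -/
theorem result :
  ∀ (ω : ℝ → ℝ) (L : ℝ),
    ContinuousOn ω (Set.Ioo 0 1) →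
    MonotoneOn ω (Set.Ioo 0 1) →
    (∀ t ∈ Set.Ioo (0:ℝ) 1, 0 < ω t) →
    Filter.Tendsto ω (nhdsWithin 0 (Set.Ioi 0)) (nhds 0) →
    AntitoneOn (fun t => ω t / t) (Set.Ioo 0 1) →
    Filter.Tendsto ω (nhdsWithin 1 (Set.Iio 1)) (nhds L) →
    ∀ f : ℂ → ℂ,
      DifferentiableOn ℂ f (Metric.ball 0 1) →
      ContinuousOn f (Metric.closedBall 0 1) →
      (∃ C : ℝ, ∃ δ₀ ∈ Set.Ioo (0:ℝ) 1, ∀ δ ∈ Set.Ioo 0 δ₀, ∀ x h : ℝ, |h| ≤ δ →
          ‖f (Complex.exp (((x + h : ℝ) : ℂ) * Complex.I))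
            - f (Complex.exp ((x : ℂ) * Complex.I))‖ ≤ C * ω δ) →
      (∃ z ∈ Metric.ball (0:ℂ) 1, f z ≠ 0) →
      ∀ Θ : ℂ → ℂ,
        DifferentiableOn ℂ Θ (Metric.ball 0 1) →
        (∀ z ∈ Metric.ball (0:ℂ) 1, ‖Θ z‖ ≤ 1) →
        (∀ᵐ θ : ℝ, ∃ w : ℂ, ‖w‖ = 1 ∧
          Filter.Tendsto (fun r : ℝ => Θ ((r : ℂ) * Complex.exp ((θ : ℂ) * Complex.I)))
            (nhdsWithin 1 (Set.Iio 1)) (nhds w)) →
        ((MeasureTheory.volume {θ : ℝ | ¬ ∃ r > (0:ℝ), ∃ g : ℂ → ℂ,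
              DifferentiableOn ℂ g (Metric.ball (Complex.exp ((θ:ℂ) * Complex.I)) r) ∧
              Set.EqOn g Θ (Metric.ball (Complex.exp ((θ:ℂ) * Complex.I)) r ∩ Metric.ball 0 1)} = 0 ∧
          ∃ C : ℝ, ∀ ζ : ℂ, ‖ζ‖ = 1 → ∀ r > (0:ℝ), ∀ g : ℂ → ℂ,
            DifferentiableOn ℂ g (Metric.ball ζ r) →
            Set.EqOn g Θ (Metric.ball ζ r ∩ Metric.ball 0 1) →
            ‖f ζ‖ ≤ C * (if 1 < ‖deriv g ζ‖ then ω (1 / ‖deriv g ζ‖) else L))
         ↔
         (∃ ε ∈ Set.Ioo (0:ℝ) 1, ∃ C : ℝ, ∀ z ∈ Metric.ball (0:ℂ) 1, ‖Θ z‖ < ε →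
            ‖f z‖ ≤ C * (if 1 - ‖z‖ < 1 then ω (1 - ‖z‖) else L))) := by
  open Complex Set Filter Metric Topology Pool.Agent.Lib.Helper21.Shir in
  intro ω L _ hm hp h0 ha hL f hf hc hω hz Θ hΘ h1 hl
  obtain ⟨W, hW⟩ : ∃ W : ℝ → ℝ, ∀ t, W t = if t < 1 then ω t else L := ⟨_, fun _ => rfl⟩
  have l1 : ∀ t ∈ Ioo (0 : ℝ) 1, ω t ≤ L := fun t ht => ge_of_tendsto hL (by
    filter_upwards [Ioo_mem_nhdsLT ht.2] with u hu using hm ht ⟨ht.1.trans hu.1, hu.2⟩ hu.1.le)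
  have l2 : ∀ t ∈ Ioo (0 : ℝ) 1, L ≤ ω t / t := fun t ht => by
    have : Tendsto (fun u : ℝ => ω u / u) (𝓝[<] 1) (𝓝 (L / 1)) :=
      hL.div (tendsto_nhdsWithin_of_tendsto_nhds tendsto_id) one_ne_zero
    rw [div_one] at this
    exact le_of_tendsto this (by
      filter_upwards [Ioo_mem_nhdsLT ht.2] with u hu using ha ht ⟨ht.1.trans hu.1, hu.2⟩ hu.1.le)
  have L0 : 0 < L := (hp (1 / 2) ⟨by norm_num, by norm_num⟩).trans_le (l1 _ ⟨by norm_num, by norm_num⟩)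
  have W0 : ∀ t, 0 < t → 0 < W t := fun t ht => by
    rw [hW]; split_ifs with h
    exacts [hp t ⟨ht, h⟩, L0]
  have dbl : ∀ s t k : ℝ, 0 < s → 0 < t → 1 ≤ k → s ≤ k * t → W s ≤ k * W t := by
    intro s t k s0 t0 k1 h
    have wt := W0 t t0
    rw [hW s]
    by_cases ht : t < 1
    · have e : W t = ω t := by rw [hW, if_pos ht]
      rw [e] at wt ⊢
      have b : s * (ω t / t) ≤ k * ω t := by
        rw [mul_div_assoc', div_le_iff₀ t0]; nlinarith
      split_ifs with hs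
      · rcases le_total s t with h' | h'
        · nlinarith [hm ⟨s0, hs⟩ ⟨t0, ht⟩ h']
        · have := ha ⟨t0, ht⟩ ⟨s0, hs⟩ h'
          simp only at this
          rw [div_le_iff₀ s0] at this; linarith
      · nlinarith [l2 t ⟨t0, ht⟩]
    · have e : W t = L := by rw [hW, if_neg ht]
      rw [e]
      split_ifs with hs
      · nlinarith [l1 s ⟨s0, hs⟩]
      · nlinarith
  obtain ⟨B, hB⟩ := (isCompact_closedBall (0 : ℂ) 1).exists_bound_of_continuousOn hc
  have B0 : 0 ≤ B := (norm_nonneg _).trans (hB 0 (by simp))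
  have ea : ∀ ζ : ℂ, ‖ζ‖ = 1 → exp (arg ζ * I) = ζ := fun ζ h => by
    have := norm_mul_exp_arg_mul_I ζ
    rwa [h, ofReal_one, one_mul] at this
  obtain ⟨C1, C10, hC1⟩ : ∃ C1 : ℝ, 0 ≤ C1 ∧ ∀ ζ η : ℂ, ‖ζ‖ = 1 → ‖η‖ = 1 → η ≠ ζ →
      ‖f η - f ζ‖ ≤ C1 * W (2 * ‖η - ζ‖) := by
    obtain ⟨C, δ, hδ, h⟩ := hω
    have wδ := W0 δ hδ.1
    refine ⟨|C| + 2 * B / W δ, by positivity, fun ζ η hζ hη ne => ?_⟩
    have d0 : 0 < 2 * ‖η - ζ‖ := by have := norm_pos_iff.2 (sub_ne_zero.2 ne); linarith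
    have w := W0 _ d0
    have ζ0 : ζ ≠ 0 := norm_pos_iff.1 (by rw [hζ]; exact one_pos)
    have η0 : η ≠ 0 := norm_pos_iff.1 (by rw [hη]; exact one_pos)
    by_cases hd : 2 * ‖η - ζ‖ < δ
    · have k := h _ ⟨d0, hd⟩ (arg ζ) (arg (η / ζ)) (by
        rw [← angle_eq_abs_arg η0 ζ0]
        refine (angle_le_mul_norm_sub hη hζ).trans ?_
        gcongr; linarith [Real.pi_le_four])
      rw [ofReal_add, add_mul, exp_add, ea ζ hζ, ea _ (by rw [norm_div, hη, hζ, div_one]),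
        mul_div_cancel₀ _ ζ0, ← if_pos (t := ω _) (e := L) (hd.trans hδ.2), ← hW] at k
      have : 0 ≤ 2 * B / W δ := by positivity
      nlinarith [le_abs_self C]
    · have k := dbl δ _ 1 hδ.1 d0 le_rfl (by linarith)
      have : 2 * B ≤ 2 * B / W δ * W (2 * ‖η - ζ‖) := by
        rw [div_mul_eq_mul_div, le_div_iff₀ wδ]; nlinarith
      have := norm_sub_le (f η) (f ζ)
      nlinarith [hB η (by simp [hη]), hB ζ (by simp [hζ]), abs_nonneg C]
  have T : ∀ ζ z : ℂ, ∀ δ : ℝ, ‖ζ‖ = 1 → ‖z‖ ≤ 1 → 0 < δ → ‖z - ζ‖ ≤ 2 * δ →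
      ‖f z - f ζ‖ ≤ 12 * C1 * W δ := by
    intro ζ z δ hζ hz δ0 h
    have w := W0 δ δ0
    refine (tam hf hc hζ (A := 2 * C1 * W δ / δ) (by positivity) δ0 (fun η hη => ?_) hz).trans ?_
    · by_cases ne : η = ζ
      · rw [ne, sub_self, norm_zero]; positivity
      have d0 := norm_pos_iff.2 (sub_ne_zero.2 ne)
      refine (hC1 ζ η hζ hη ne).trans ((mul_le_mul_of_nonneg_left (dbl _ δ (2 * (δ + ‖η - ζ‖) / δ)
        (by linarith) δ0 (by rw [le_div_iff₀ δ0]; linarith)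
        (by rw [div_mul_cancel₀ _ δ0.ne']; linarith)) C10).trans_eq (by ring))
    · calc _ ≤ 2 * (2 * C1 * W δ / δ) * (δ + 2 * δ) := by gcongr
        _ = _ := by field_simp; ring
  simp only [← hW]
  constructor
  · rintro ⟨hn, C, hC⟩
    refine ⟨1 / 2, ⟨by norm_num, by norm_num⟩, 8 * |C| + 12 * C1, fun z hz hθ => ?_⟩
    have z1 := mem_ball_zero_iff.1 hz
    have ez := norm_mul_exp_arg_mul_I z
    have U : {θ : ℝ | ‖Θ (‖z‖ * exp (θ * I))‖ < 1 / 2 ∧ ‖z - exp (θ * I)‖ < 2 * (1 - ‖z‖)} ∈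
        𝓝 (arg z) := by
      refine Eventually.and (ContinuousAt.eventually_lt (ContinuousAt.comp_of_eq
        (f := fun θ : ℝ => (‖z‖ : ℂ) * exp (θ * I)) (hΘ.continuousOn.continuousAt
          (isOpen_ball.mem_nhds hz)) (by fun_prop) ez).norm continuousAt_const (by simpa [ez] using hθ))
        (ContinuousAt.eventually_lt (by fun_prop) continuousAt_const ?_)
      have : z - exp (arg z * I) = ((‖z‖ - 1 : ℝ) : ℂ) * exp (arg z * I) := by
        push_cast; linear_combination -ez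
      rw [this, norm_mul, norm_exp_ofReal_mul_I, norm_real, Real.norm_eq_abs, abs_of_neg (by linarith)]
      linarith
    obtain ⟨θ, ⟨u1, u2⟩, ⟨w, w1, t⟩, r, r0, g, hg, e⟩ := Measure.exists_mem_of_measure_ne_zero_of_ae
      (Measure.measure_pos_of_mem_nhds volume U).ne' (ae_restrict_of_ae (hl.and (ae_iff.2 hn)))
    have n := norm_exp_ofReal_mul_I θ
    have j := julia hΘ h1 n (norm_nonneg z) z1 u1 r0 hg e w1 t
    have k := hC _ n r r0 g hg e
    have p : 0 < 1 - ‖z‖ := by linarith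
    have D0 : 0 < ‖deriv g (exp (θ * I))‖ := lt_of_lt_of_le (by positivity) j
    simp only [← div_lt_one D0, ← hW] at k
    have a := dbl _ (1 - ‖z‖) 8 (one_div_pos.2 D0) p (by norm_num) (by
      rw [div_le_iff₀ D0]; rw [div_le_iff₀ (by positivity)] at j; linarith)
    have b := T _ z _ n z1.le p u2.le
    have c := norm_sub_norm_le (f z) (f (exp (θ * I)))
    have := W0 _ (one_div_pos.2 D0)
    nlinarith [le_abs_self C, abs_nonneg C]
  · rintro ⟨ε, hε, C, hC⟩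
    obtain ⟨K, hK⟩ : ∃ K, K = |C| + 12 * C1 + B / L := ⟨_, rfl⟩
    have K0 : 0 ≤ K := by rw [hK]; positivity
    have Q : ∀ θ s : ℝ, 0 < s → (∃ g : ℂ → ℂ, DifferentiableOn ℂ g (ball (exp (θ * I)) (s / 8)) ∧
        EqOn g Θ (ball (exp (θ * I)) (s / 8) ∩ ball 0 1) ∧
        ∀ z ∈ ball (exp (θ * I)) (s / 8), ‖g z‖ ≤ 2 / ε) ∨ ‖f (exp (θ * I))‖ ≤ K * W s := by
      intro θ s s0
      have n := norm_exp_ofReal_mul_I θ
      have w := W0 s s0
      have bl : 0 ≤ B / L := by positivity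
      by_cases s1 : s < 1
      · by_cases h : ∀ z ∈ ball (0 : ℂ) 1, ‖z - exp (θ * I)‖ < s → ε ≤ ‖Θ z‖
        · exact .inl (ext hΘ h1 hl s0 s1.le hε.1 hε.2.le h)
        push Not at h
        obtain ⟨z, hz, a, b⟩ := h
        have z1 := mem_ball_zero_iff.1 hz
        have p : 0 < 1 - ‖z‖ := by linarith
        have c := norm_sub_norm_le (exp (θ * I)) z
        rw [norm_sub_rev, n] at c
        have d := dbl _ s 1 p s0 le_rfl (by linarith)
        have e := T _ z s n z1.le s0 (by linarith)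
        have c' := norm_sub_norm_le (f (exp (θ * I))) (f z)
        rw [norm_sub_rev] at c'
        have := hC z hz b
        have := W0 _ p
        right; rw [hK]
        nlinarith [le_abs_self C, abs_nonneg C]
      · right
        rw [hW, if_neg s1, hK, add_mul, div_mul_cancel₀ _ L0.ne']
        have : 0 ≤ (|C| + 12 * C1) * L := by positivity
        linarith [hB (exp (θ * I)) (by simp [n])]
    have ε0 := hε.1
    have k1 : 1 ≤ 64 / ε := by rw [le_div_iff₀ ε0]; linarith [hε.2]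
    refine ⟨measure_mono_null (fun θ hθ => ?_) (null hf hc hz), (K + B / L) * (64 / ε),
      fun ζ hζ r r0 g hg e => ?_⟩
    · refine norm_le_zero_iff.1 (ge_of_tendsto (by simpa using h0.const_mul K) ?_)
      filter_upwards [Ioo_mem_nhdsGT one_pos] with s hs
      rcases Q θ s hs.1 with ⟨g, a, b, -⟩ | h
      · exact (hθ ⟨_, by linarith [hs.1], g, a, b⟩).elim
      · rwa [hW, if_pos hs.2] at h
    have bl : 0 ≤ B / L := by positivity
    split_ifs with D1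
    · have D0 : 0 < ‖deriv g ζ‖ := by linarith
      have s0 : 0 < 64 / ε * (1 / ‖deriv g ζ‖) := by positivity
      have q := Q (arg ζ) _ s0
      rw [ea ζ hζ] at q
      rcases q with ⟨G, a, b, c⟩ | h
      · exfalso
        have eq : deriv g ζ = deriv G ζ := by
          refine EventuallyEq.deriv_eq (((hg.analyticAt (ball_mem_nhds _ r0)).frequently_eq_iff_eventually_eq
            (a.analyticAt (ball_mem_nhds _ (by positivity)))).1 ?_)
          have fr : ∃ᶠ z in 𝓝 ζ, z ∈ ball (0 : ℂ) 1 := mem_closure_iff_frequently.1 (by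
            rw [closure_ball _ one_ne_zero]; simp [hζ])
          refine frequently_nhdsWithin_iff.2 ((fr.and_eventually (Eventually.and (ball_mem_nhds ζ r0)
            (ball_mem_nhds ζ (show 0 < 64 / ε * (1 / ‖deriv g ζ‖) / 8 by positivity)))).mono ?_)
          rintro z ⟨z1, z2, z3⟩
          refine ⟨(e ⟨z2, z1⟩).trans (b ⟨z3, z1⟩).symm, ?_⟩
          rintro rfl
          simp [hζ] at z1
        have sb : closedBall ζ (64 / ε * (1 / ‖deriv g ζ‖) / 16) ⊆
          ball ζ (64 / ε * (1 / ‖deriv g ζ‖) / 8) := closedBall_subset_ball (by linarith)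
        have := norm_deriv_le_of_forall_mem_sphere_norm_le (by positivity)
          (a.diffContOnCl_ball sb) fun z hz => c z (sb (sphere_subset_closedBall hz))
        rw [← eq, show 2 / ε / (64 / ε * (1 / ‖deriv g ζ‖) / 16) = ‖deriv g ζ‖ / 2 by
          field_simp; norm_num] at this
        linarith
      · have d := dbl _ _ _ s0 (one_div_pos.2 D0) k1 le_rfl
        have w := W0 _ (one_div_pos.2 D0)
        rw [hW (1 / _), if_pos ((div_lt_one D0).2 D1)] at d w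
        calc _ ≤ K * (64 / ε * ω (1 / ‖deriv g ζ‖)) := h.trans (by gcongr)
          _ = K * (64 / ε) * ω (1 / ‖deriv g ζ‖) := by ring
          _ ≤ _ := by gcongr; linarith
    · calc _ ≤ B := hB ζ (by simp [hζ])
        _ = (0 + B / L) * 1 * L := by field_simp; ring
        _ ≤ _ := by gcongr

end Pool.Agent.S04285
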