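import Pool.Statements.S04342

set_option autoImplicit false
open Pool Pool.MP_3789da_an

namespace Pool.Agent.S04342

/-- Vertices of the free tree: a vertex has a parent and a label. -/
inductive V : Type
  | root : V
  | child : V → V → V
  deriving DecidableEq

def V.size : V → ℕ
  | V.root => 0
  | V.child p y => p.size + y.size + 1

abbrev L : Type := lp (fun _ : V => ℝ) 1

noncomputable def psi (t : ℝ) : ℝ := t / (1 + t)

/-- position of a vertex and position of its label -/
noncomputable def E : V → L × L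
  | V.root => (0, lp.single 1 V.root (1:ℝ))
  | V.child p y =>
      ((E p).1 + lp.single 1 (V.child p y) (psi ‖(E p).2 - (E y).1‖), (E y).1)

theorem psi_nonneg {t : ℝ} (ht : 0 ≤ t) : 0 ≤ psi t := by unfold psi; positivity

theorem psi_le {t : ℝ} (ht : 0 ≤ t) : psi t ≤ t := by
  unfold psi
  rw [div_le_iff₀ (by positivity)]
  nlinarith

theorem psi_le_add {t a e : ℝ} (ht : 0 ≤ t) (ha : 0 ≤ a) (he : 0 ≤ e) (h : t ≤ a + e) :
    psi t ≤ psi a + e := by
  unfold psi
  rw [div_add' _ _ _ (by positivity), div_le_div_iff₀ (by positivity) (by positivity)]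
  nlinarith [mul_nonneg ha he, mul_nonneg ht he, mul_nonneg (mul_nonneg ht ha) he]

theorem norm_add_single (f : L) (v : V) (s : ℝ) (hs : 0 ≤ s) (hf : f v = 0) :
    ‖f + lp.single 1 v s‖ = ‖f‖ + s := by
  have h1 : (0:ℝ) < (1 : ENNReal).toReal := by simp
  have a := lp.hasSum_norm h1 f
  have b := lp.hasSum_norm h1 (lp.single 1 v s : L)
  have c := lp.hasSum_norm h1 (f + lp.single 1 v s)
  have hn : ‖(lp.single 1 v s : L)‖ = s := by
    rw [lp.norm_single (by simp)]; simp [abs_of_nonneg hs]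
  simp only [ENNReal.toReal_one, Real.rpow_one] at a b c
  rw [hn] at b
  refine c.unique ?_
  convert a.add b using 1
  funext i
  by_cases hi : i = v
  · subst hi
    simp [hf]
  · simp [Pi.single_eq_of_ne hi]

theorem E_zero : ∀ (u v : V), u.size < v.size → (E u).1 v = 0
  | V.root, v, _ => by simp [E]
  | V.child p y, v, h => by
    have hp : p.size < v.size := by simp only [V.size] at h; omega
    have hne : v ≠ V.child p y := by rintro rfl; exact lt_irrefl _ h
    simp [E, E_zero p v hp, Pi.single_eq_of_ne hne]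

theorem norm_child (p y : V) :
    ‖(E (V.child p y)).1‖ = ‖(E p).1‖ + psi ‖(E p).2 - (E y).1‖ := by
  simp only [E]
  exact norm_add_single _ _ _ (psi_nonneg (norm_nonneg _)) (E_zero _ _ (by simp only [V.size]; omega))

theorem dist_child (p y : V) :
    ‖(E (V.child p y)).1 - (E p).1‖ = psi ‖(E p).2 - (E y).1‖ := by
  simp only [E, add_sub_cancel_left]
  rw [lp.norm_single (by simp)]
  simp [abs_of_nonneg (psi_nonneg (norm_nonneg _))]

theorem F_child (p y : V) :
    ‖(E (V.child p y)).1 - (E (V.child p y)).2‖ =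
      ‖(E p).1 - (E y).1‖ + psi ‖(E p).2 - (E y).1‖ := by
  simp only [E]
  rw [add_sub_right_comm]
  refine norm_add_single _ _ _ (psi_nonneg (norm_nonneg _)) ?_
  have h1 := E_zero p (V.child p y) (by simp only [V.size]; omega)
  have h2 := E_zero y (V.child p y) (by simp only [V.size]; omega)
  simp [h1, h2]

theorem step {F F' b A B : ℝ} (hb : 0 ≤ b) (hA : 1 ≤ A) (hF : 1 / 4 ≤ F * A)
    (h1 : psi b ≤ F') (h2 : F - b + psi b ≤ F') (hB : A * (1 + 4 * psi b) ≤ B) :
    1 / 4 ≤ F' * B := by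
  have hs := psi_nonneg hb
  set s := psi b with hsdef
  have hbs : s * (1 + b) = b := by
    rw [hsdef]; unfold psi; field_simp
  have hF' : 0 ≤ F' := le_trans hs h1
  refine le_trans ?_ (mul_le_mul_of_nonneg_left hB hF')
  by_cases h : 1 / 4 ≤ s * A
  · nlinarith [mul_nonneg hF' (mul_nonneg (le_trans zero_le_one hA) hs)]
  · push Not at h
    have hs4 : s ≤ 1 / 4 := by nlinarith
    have hb2 : b ≤ 4 / 3 * s := by nlinarith
    have h3 : b - s ≤ 4 / 3 * s * s := by nlinarith
    have h4 : (b - s) * A ≤ 1 / 3 * s := by nlinarith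
    have h5 : 1 / 4 - 1 / 3 * s ≤ F' * A := by nlinarith
    have h6 : (1 / 4 - 1 / 3 * s) * (1 + 4 * s) ≤ F' * A * (1 + 4 * s) :=
      mul_le_mul_of_nonneg_right h5 (by positivity)
    nlinarith

theorem key : ∀ v : V, 1 / 4 ≤ ‖(E v).1 - (E v).2‖ * Real.exp (4 * ‖(E v).1‖)
  | V.root => by
    have : ‖(lp.single 1 V.root (1:ℝ) : L)‖ = 1 := by
      rw [lp.norm_single (by simp)]; simp
    simp [E, this]; norm_num
  | V.child p y => by
    have ih := key p
    refine step (b := ‖(E p).2 - (E y).1‖) (norm_nonneg _) (Real.one_le_exp (by positivity)) ih ?_ ?_ ?_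
    · rw [F_child]; linarith [norm_nonneg ((E p).1 - (E y).1)]
    · rw [F_child]
      have := norm_sub_le_norm_sub_add_norm_sub (E p).1 (E y).1 (E p).2
      rw [norm_sub_rev (E y).1] at this
      linarith
    · rw [norm_child, mul_add 4, Real.exp_add]
      refine mul_le_mul_of_nonneg_left ?_ (Real.exp_pos _).le
      linarith [Real.add_one_le_exp (4 * psi ‖(E p).2 - (E y).1‖)]

def XS : Set L := closure (Set.range fun v => (E v).1)

def Gam : Set (L × L) := closure {q | ∃ p y : V, q = ((E y).1, (E (V.child p y)).1)}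

theorem no_fix (z : L) : (z, z) ∉ Gam := by
  intro h
  have hc : IsClosed {q : L × L | 1 / 4 ≤ ‖q.2 - q.1‖ * Real.exp (4 * ‖q.2‖)} :=
    isClosed_le continuous_const (by fun_prop)
  have := closure_minimal (t := {q : L × L | 1 / 4 ≤ ‖q.2 - q.1‖ * Real.exp (4 * ‖q.2‖)}) ?_ hc h
  · simp at this; norm_num at this
  · rintro q ⟨p, y, rfl⟩
    exact key (V.child p y)

theorem extend (q : V) (z : L) (hz : z ∈ XS) (e : ℝ) (he : 0 < e) :
    ∃ y : V, dist (E y).1 z ≤ e ∧ ∃ u ∈ XS, (z, u) ∈ Gam ∧ dist (E (V.child q y)).1 u ≤ 4 * e := by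
  have h : ∀ k : ℕ, ∃ y : V, dist (E y).1 z ≤ e / 2 ^ k := by
    intro k
    obtain ⟨b, ⟨y, rfl⟩, hb⟩ := Metric.mem_closure_iff.1 hz (e / 2 ^ k) (by positivity)
    exact ⟨y, by rw [dist_comm]; exact hb.le⟩
  choose y hy using h
  let par : ℕ → V := fun k => Nat.rec q (fun k r => V.child r (y k)) k
  have hpar : ∀ k, par (k + 1) = V.child (par k) (y k) := fun k => rfl
  let w : ℕ → L := fun k => (E (par (k + 1))).1
  have hw : ∀ k, dist (w k) (w (k + 1)) ≤ (4 * e) / 2 / 2 ^ k := by
    intro k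
    rw [dist_comm, dist_eq_norm]
    show ‖(E (V.child (par (k + 1)) (y (k + 1)))).1 - (E (par (k + 1))).1‖ ≤ _
    rw [dist_child]
    refine le_trans (psi_le (norm_nonneg _)) ?_
    have : (E (par (k + 1))).2 = (E (y k)).1 := rfl
    rw [this, ← dist_eq_norm]
    have h1 := hy k
    have h2 := hy (k + 1)
    have h3 := dist_triangle_right (E (y k)).1 (E (y (k + 1))).1 z
    have h4 : e / 2 ^ (k + 1) ≤ e / 2 ^ k := by
      apply div_le_div_of_nonneg_left he.le (by positivity)
      exact pow_le_pow_right₀ (by norm_num) (Nat.le_succ k)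
    have h5 : 4 * e / 2 / 2 ^ k = e / 2 ^ k + e / 2 ^ k := by ring
    linarith
  obtain ⟨u, hu⟩ := cauchySeq_tendsto_of_complete (cauchySeq_of_le_geometric_two hw)
  have hyz : Filter.Tendsto (fun k => (E (y k)).1) Filter.atTop (nhds z) := by
    rw [tendsto_iff_dist_tendsto_zero]
    refine squeeze_zero (fun _ => dist_nonneg) hy ?_
    exact Filter.Tendsto.const_div_atTop (tendsto_pow_atTop_atTop_of_one_lt (by norm_num)) e
  refine ⟨y 0, by simpa using hy 0, u, ?_, ?_, ?_⟩
  · exact mem_closure_of_tendsto hu (Filter.Eventually.of_forall fun k => ⟨_, rfl⟩)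
  · exact mem_closure_of_tendsto (hyz.prodMk_nhds hu)
      (Filter.Eventually.of_forall fun k => ⟨par k, y k, rfl⟩)
  · exact dist_le_of_le_geometric_two_of_tendsto₀ hw hu

theorem haus (z z' u : L) (hz' : z' ∈ XS) (hu : (z, u) ∈ Gam) (e : ℝ) (he : 0 < e) :
    ∃ u' ∈ XS, (z', u') ∈ Gam ∧ dist u u' ≤ psi (dist z z') + 7 * e := by
  obtain ⟨b, ⟨p, y, rfl⟩, hb⟩ := Metric.mem_closure_iff.1 hu e he
  rw [Prod.dist_eq, max_lt_iff] at hb
  obtain ⟨hb1, hb2⟩ := hb
  obtain ⟨y', hy', u', hu', hg, hd⟩ := extend (V.child p y) z' hz' e he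
  refine ⟨u', hu', hg, ?_⟩
  have h1 := dist_child (V.child p y) y'
  have h2 : (E (V.child p y)).2 = (E y).1 := rfl
  rw [h2, ← dist_eq_norm, ← dist_eq_norm] at h1
  have h3 : psi (dist (E y).1 (E y').1) ≤ psi (dist z z') + 2 * e := by
    refine psi_le_add dist_nonneg dist_nonneg (by positivity) ?_
    have := dist_triangle4 (E y).1 z z' (E y').1
    rw [dist_comm (E y).1 z, dist_comm z' (E y').1] at this
    simp only at hb1
    linarith
  have h4 := dist_triangle4 u (E (V.child p y)).1 (E (V.child (V.child p y) y')).1 u'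
  rw [dist_comm (E (V.child p y)).1] at h4
  simp only at hb2
  linarith

/-- The negation of the preceding statement: Every multivalued map on a nonempty complete metric space with nonempty closed values, whose Hausdorff distance H(Tx,Ty) is less than φ(d(x,y)) for x≠y with φ an L-function, has a point x with x in Tx. -/
theorem result :
    ¬ (∀ (X : Type) [MetricSpace X] [CompleteSpace X] [Nonempty X]
      (T : X → Set X) (φ : ℝ → ℝ),
      (∀ x, (T x).Nonempty ∧ IsClosed (T x)) →
      φ 0 = 0 →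
      (∀ s : ℝ, 0 < s → 0 < φ s) →
      (∀ s : ℝ, 0 < s → ∃ δ : ℝ, 0 < δ ∧ ∀ t ∈ Set.Icc s (s + δ), φ t ≤ s) →
      (∀ x y : X, x ≠ y →
        EMetric.hausdorffEdist (T x) (T y) < ENNReal.ofReal (φ (dist x y))) →
      ∃ x : X, x ∈ T x) := by
  intro h
  have : CompleteSpace XS := (isClosed_closure (s := Set.range fun v => (E v).1)).completeSpace_coe
  have : Nonempty XS := ⟨⟨(E V.root).1, subset_closure ⟨_, rfl⟩⟩⟩
  refine (h XS (fun z => {u | (z.1, u.1) ∈ Gam}) (fun t => 2 * t / (2 + t)) ?_ (by simp)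
    (fun s hs => by positivity) ?_ ?_).elim (fun x hx => no_fix x.1 hx)
  · intro x
    constructor
    · obtain ⟨y, -, u, hu, hg, -⟩ := extend V.root x.1 x.2 1 one_pos
      exact ⟨⟨u, hu⟩, hg⟩
    · exact isClosed_closure.preimage (f := fun u : XS => (x.1, u.1)) (by fun_prop)
  · intro s hs
    refine ⟨s ^ 2 / 2, by positivity, ?_⟩
    rintro t ⟨h1, h2⟩
    show 2 * t / (2 + t) ≤ s
    rw [div_le_iff₀ (by linarith)]
    nlinarith
  · intro x y hxy
    have hd : 0 < dist x y := dist_pos.2 hxy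
    have hlt : psi (dist x y) < 2 * dist x y / (2 + dist x y) := by
      unfold psi
      rw [div_lt_div_iff₀ (by positivity) (by positivity)]
      nlinarith
    set e := (2 * dist x y / (2 + dist x y) - psi (dist x y)) / 8 with he
    have hepos : 0 < e := by rw [he]; linarith
    refine lt_of_le_of_lt (b := ENNReal.ofReal (psi (dist x y) + 7 * e)) ?_ ?_
    · apply EMetric.hausdorffEdist_le_of_mem_edist
      · intro u hu
        obtain ⟨u', hu', hg, hdd⟩ := haus x.1 y.1 u.1 y.2 hu e hepos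
        refine ⟨⟨u', hu'⟩, hg, ?_⟩
        rw [edist_dist]
        exact ENNReal.ofReal_le_ofReal hdd
      · intro u hu
        obtain ⟨u', hu', hg, hdd⟩ := haus y.1 x.1 u.1 x.2 hu e hepos
        refine ⟨⟨u', hu'⟩, hg, ?_⟩
        rw [edist_dist]
        rw [dist_comm y.1 x.1] at hdd
        exact ENNReal.ofReal_le_ofReal hdd
    · rw [ENNReal.ofReal_lt_ofReal_iff (by positivity)]
      rw [he]; linarith

end Pool.Agent.S04342
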