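import Pool.Statements.S04348

set_option autoImplicit false
open MeasureTheory
open scoped ENNReal
open Pool Pool.MP_37b4fc_an

namespace Pool.Agent.S04348

open Filter Topology BoundedContinuousFunction

abbrev B := ℕ →ᵇ ℝ

noncomputable def mk (f : ℕ → ℝ) (C : ℝ) (h : ∀ n, |f n| ≤ C) : B :=
  BoundedContinuousFunction.ofNormedAddCommGroupDiscrete f C h

lemma mk_apply (f : ℕ → ℝ) (C : ℝ) (h : ∀ n, |f n| ≤ C) (n : ℕ) : mk f C h n = f n := rfl

lemma ab (f : B) (n : ℕ) : |f n| ≤ ‖f‖ := f.norm_coe_le_norm n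

lemma nle (f : B) (C : ℝ) (h : ∀ n, |f n| ≤ C) : ‖f‖ ≤ C :=
  (BoundedContinuousFunction.norm_le ((abs_nonneg _).trans (h 0))).2 h

def c0 : Submodule ℝ B where
  carrier := {f | Tendsto f atTop (𝓝 0)}
  add_mem' := fun {a b} ha hb => by
    have := Tendsto.add ha hb
    rw [add_zero] at this
    exact this
  zero_mem' := tendsto_const_nhds
  smul_mem' := fun c f hf => by simpa using Tendsto.const_mul c hf

lemma c0_closed : IsClosed (c0 : Set B) := by
  refine isClosed_of_closure_subset fun f hf => ?_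
  refine Metric.tendsto_atTop.2 fun ε hε => ?_
  obtain ⟨g, hg, h⟩ := Metric.mem_closure_iff.1 hf (ε / 2) (by linarith)
  obtain ⟨N, hN⟩ := Metric.tendsto_atTop.1 hg (ε / 2) (by linarith)
  refine ⟨N, fun n hn => ?_⟩
  have h1 := hN n hn
  have h2 := BoundedContinuousFunction.dist_coe_le_dist (f := f) (g := g) n
  linarith [dist_triangle (f n) (g n) 0]

def C0 : Type := c0

noncomputable instance : NormedAddCommGroup C0 := inferInstanceAs (NormedAddCommGroup c0)
noncomputable instance : NormedSpace ℝ C0 := inferInstanceAs (NormedSpace ℝ c0)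
instance : CompleteSpace C0 := c0_closed.completeSpace_coe

noncomputable def s (n : ℕ) : ℝ := 1 / ((n : ℝ) + 1)

lemma s_pos (n : ℕ) : 0 < s n := by unfold s; positivity

lemma s_le (n : ℕ) : s n ≤ 1 := by
  unfold s
  rw [div_le_one (by positivity)]
  linarith [n.cast_nonneg (α := ℝ)]

lemma s_zero : s 0 = 1 := by simp [s]

lemma s_tend : Tendsto s atTop (𝓝 0) := tendsto_one_div_add_atTop_nhds_zero_nat

noncomputable def w : B := mk (fun n => s n ^ 2) 1 (fun n => by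
  rw [abs_of_nonneg (sq_nonneg _)]
  exact pow_le_one₀ (s_pos n).le (s_le n))

noncomputable def iB : B →L[ℝ] B := ContinuousLinearMap.mul ℝ B w

lemma iB_apply (z : B) (n : ℕ) : iB z n = s n ^ 2 * z n := rfl

lemma iB_inj : Function.Injective iB := by
  intro a b h
  ext n
  have := congrArg (fun f : B => f n) h
  simp only [iB_apply] at this
  exact mul_left_cancel₀ (pow_pos (s_pos n) 2).ne' this

noncomputable def iA : C0 →L[ℝ] B := iB.comp c0.subtypeL

def cl (x r : ℝ) : ℝ := max (-r) (min x r)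

lemma cl_abs (x r : ℝ) (hr : 0 ≤ r) : |cl x r| ≤ |x| := by
  unfold cl
  rw [abs_le]
  rcases abs_cases x with h | h <;> rcases le_total x r with h1 | h1 <;>
    simp only [min_def, max_def] <;> split_ifs <;> constructor <;> linarith

lemma cl_lip (x r y q : ℝ) : |cl x r - cl y q| ≤ |x - y| + |r - q| := by
  unfold cl
  have h1 := abs_max_sub_max_le_max (-r) (min x r) (-q) (min y q)
  have h2 := abs_min_sub_min_le_max x r y q
  have h3 : |-r - -q| = |r - q| := by rw [← abs_neg]; congr 1; ring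
  rw [h3] at h1
  have := abs_nonneg (x - y)
  have := abs_nonneg (r - q)
  exact h1.trans (max_le (by linarith) (h2.trans (max_le (by linarith) (by linarith))))

lemma cl_mul (c x r : ℝ) (hc : 0 < c) : cl (c * x) r = c * cl x (r / c) := by
  unfold cl
  rw [mul_max_of_nonneg _ _ hc.le, mul_min_of_nonneg _ _ hc.le, mul_neg, mul_div_cancel₀ _ hc.ne']

noncomputable def U (a : B) : B :=
  mk (fun n => cl (a n) |a 0|) ‖a‖ (fun n => (cl_abs _ _ (abs_nonneg _)).trans (ab a n))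

noncomputable def V (y : C0) : B :=
  mk (fun n => cl (y.1 n) (|y.1 0| / s n ^ 2)) ‖y‖
    (fun n => (cl_abs _ _ (by positivity)).trans (ab y.1 n))

lemma V_cont : Continuous V := by
  refine Metric.continuous_iff.2 fun y ε hε => ?_
  obtain ⟨N, hN⟩ := Metric.tendsto_atTop.1 y.2 (ε / 4) (by linarith)
  have hp : (0 : ℝ) < 1 + (N : ℝ) ^ 2 := by positivity
  refine ⟨ε / 4 / (1 + (N : ℝ) ^ 2), by positivity, fun x hx => ?_⟩
  rw [dist_eq_norm] at hx ⊢
  rw [lt_div_iff₀ hp] at hx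
  have h0 : ∀ n, |x.1 n - y.1 n| ≤ ‖x - y‖ := fun n => ab (x - y).1 n
  have hd := norm_nonneg (x - y)
  refine lt_of_le_of_lt (nle _ (3 * ε / 4) fun n => ?_) (by linarith)
  show |cl _ _ - cl _ _| ≤ _
  rcases le_or_gt N n with h | h
  · have h1 := hN n h
    rw [Real.dist_eq, sub_zero] at h1
    have h2 := cl_abs (x.1 n) (|x.1 0| / s n ^ 2) (by positivity)
    have h3 := cl_abs (y.1 n) (|y.1 0| / s n ^ 2) (by positivity)
    have h4 := abs_sub_abs_le_abs_sub (x.1 n) (y.1 n)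
    have h5 := h0 n
    have h6 := abs_sub (cl (x.1 n) (|x.1 0| / s n ^ 2)) (cl (y.1 n) (|y.1 0| / s n ^ 2))
    nlinarith [sq_nonneg (N : ℝ)]
  · refine (cl_lip _ _ _ _).trans ?_
    have h1 : |x.1 0| / s n ^ 2 - |y.1 0| / s n ^ 2 = (|x.1 0| - |y.1 0|) * ((n : ℝ) + 1) ^ 2 := by
      unfold s
      field_simp
    have h2 : ((n : ℝ) + 1) ^ 2 ≤ (N : ℝ) ^ 2 :=
      pow_le_pow_left₀ (by positivity) (by exact_mod_cast h) 2
    have h3 := (abs_abs_sub_abs_le_abs_sub (x.1 0) (y.1 0)).trans (h0 0)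
    rw [h1, abs_mul, abs_of_nonneg (sq_nonneg ((n : ℝ) + 1))]
    have h4 := mul_le_mul h3 h2 (by positivity) hd
    have h5 := h0 n
    nlinarith

noncomputable def mu : Measure ℝ :=
  (volume.restrict (Set.Ioi (0:ℝ))).withDensity (fun t => ENNReal.ofReal t⁻¹)

lemma rp (t : ℝ) (ht : 0 < t) : t ^ (-(1 / 2 : ℝ)) = (√t)⁻¹ := by
  rw [Real.rpow_neg ht.le, Real.sqrt_eq_rpow]

lemma upper (c : B) (C : ℝ) (h : ∀ n, |c n| ≤ C * s n) :
    eLpNorm (fun t : ℝ => t ^ (-(1 / 2 : ℝ)) * ⨅ y : C0, (‖c - iA y‖ + t * ‖y‖)) ∞ mu ≤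
      ENNReal.ofReal (2 * C) := by
  have hC : 0 ≤ C := by simpa [s_zero] using (abs_nonneg _).trans (h 0)
  rw [eLpNorm_exponent_top]
  refine eLpNormEssSup_le_of_ae_bound ?_
  have : ∀ᵐ t ∂mu, t ∈ Set.Ioi (0 : ℝ) :=
    (withDensity_absolutelyContinuous _ _).ae_le (ae_restrict_mem measurableSet_Ioi)
  filter_upwards [this] with t ht
  have ht' : 0 < t := ht
  have hq : 0 < √t := Real.sqrt_pos.2 ht'
  have hb : ∀ n, |(if √t < s n then c n / s n ^ 2 else 0)| ≤ C / √t := by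
    intro n
    split_ifs with h1
    · have := s_pos n
      rw [abs_div, abs_of_pos (pow_pos this 2), div_le_div_iff₀ (by positivity) hq]
      have h2 := mul_le_mul (h n) h1.le hq.le (by positivity)
      nlinarith
    · simpa using div_nonneg hC hq.le
  have hy : mk _ _ hb ∈ c0 := by
    refine tendsto_const_nhds.congr' ?_
    filter_upwards [s_tend.eventually (gt_mem_nhds hq)] with n hn
    rw [mk_apply, if_neg (not_lt.2 hn.le)]
  let y0 : C0 := ⟨_, hy⟩
  have h1 : ‖c - iA y0‖ ≤ C * √t := by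
    refine nle _ _ fun n => ?_
    show |c n - s n ^ 2 * (if √t < s n then c n / s n ^ 2 else 0)| ≤ _
    split_ifs with h1
    · rw [mul_div_cancel₀ _ (pow_pos (s_pos n) 2).ne', sub_self, abs_zero]
      positivity
    · rw [mul_zero, sub_zero]
      exact (h n).trans (mul_le_mul_of_nonneg_left (not_lt.1 h1) hC)
  have h2 : ‖y0‖ ≤ C / √t := nle _ _ hb
  have h3 : ∀ y : C0, 0 ≤ ‖c - iA y‖ + t * ‖y‖ := fun y => by positivity
  have h4 := ciInf_le (f := fun y : C0 => ‖c - iA y‖ + t * ‖y‖) ⟨0, by rintro _ ⟨y, rfl⟩; exact h3 y⟩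
    y0
  have h5 := Real.iInf_nonneg h3
  rw [rp t ht', Real.norm_eq_abs, abs_of_nonneg (by positivity), inv_mul_le_iff₀ hq]
  have h6 : t * (C / √t) = C * √t := by
    field_simp
    rw [Real.sq_sqrt ht'.le, mul_comm]
  have h7 := mul_le_mul_of_nonneg_left h2 ht'.le
  linarith

lemma lower (c : B) (n : ℕ) (h : c n = s n) :
    ¬ eLpNorm (fun t : ℝ => t ^ (-(1 / 2 : ℝ)) * ⨅ z : B, (‖c - iB z‖ + t * ‖z‖)) ∞ mu <
      ENNReal.ofReal (1 / 2) := by
  intro hlt
  rw [eLpNorm_exponent_top] at hlt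
  have h1 := ae_le_eLpNormEssSup
    (f := fun t : ℝ => t ^ (-(1 / 2 : ℝ)) * ⨅ z : B, (‖c - iB z‖ + t * ‖z‖)) (μ := mu)
  unfold mu at h1
  rw [ae_withDensity_iff (by fun_prop), ae_restrict_iff' measurableSet_Ioi] at h1
  have hs := s_pos n
  obtain ⟨t, ht, h2⟩ := Measure.exists_mem_of_measure_ne_zero_of_ae
    (s := Set.Ioo (s n ^ 2) (4 * s n ^ 2)) (μ := volume)
    (by simp only [Real.volume_Ioo, ne_eq, ENNReal.ofReal_eq_zero, not_le]; nlinarith)
    (ae_restrict_of_ae h1)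
  have ht' : 0 < t := lt_trans (by positivity) ht.1
  have h3 := lt_of_le_of_lt (h2 ht' (by simpa using ht')) hlt
  have hq : 0 < √t := Real.sqrt_pos.2 ht'
  have h4 : s n ≤ ⨅ z : B, (‖c - iB z‖ + t * ‖z‖) := by
    refine le_ciInf fun z => ?_
    have a1 : |c n - s n ^ 2 * z n| ≤ ‖c - iB z‖ := ab (c - iB z) n
    have a2 := ab z n
    have a3 := le_abs_self (c n - s n ^ 2 * z n)
    have a4 := le_abs_self (z n)
    have a5 := mul_le_mul ht.1.le a2 (abs_nonneg _) ht'.le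
    nlinarith [sq_nonneg (s n)]
  have h5 : √t ≤ 2 * s n := Real.sqrt_le_iff.2 ⟨by positivity, by nlinarith [ht.2]⟩
  rw [← ofReal_norm_eq_enorm, ENNReal.ofReal_lt_ofReal_iff (by norm_num), rp t ht',
    Real.norm_eq_abs, abs_of_nonneg (mul_nonneg (by positivity) (hs.le.trans h4)),
    inv_mul_lt_iff₀ hq] at h3
  linarith

lemma U_lip (a b : B) : ‖U a - U b‖ ≤ 2 * ‖a - b‖ := by
  refine nle _ _ fun n => ?_
  have h0 : (U a - U b) n = cl (a n) |a 0| - cl (b n) |b 0| := rfl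
  have h1 : |a n - b n| ≤ ‖a - b‖ := ab (a - b) n
  have h2 : |a 0 - b 0| ≤ ‖a - b‖ := ab (a - b) 0
  rw [h0]
  linarith [abs_abs_sub_abs_le_abs_sub (a 0) (b 0), cl_lip (a n) |a 0| (b n) |b 0|]

lemma UV (x : C0) : U (iA x) = iB (V x) := by
  ext n
  show cl (s n ^ 2 * x.1 n) |s 0 ^ 2 * x.1 0| = s n ^ 2 * cl (x.1 n) (|x.1 0| / s n ^ 2)
  rw [s_zero, one_pow, one_mul, cl_mul _ _ _ (pow_pos (s_pos n) 2)]

lemma V_bd (x : C0) : ‖V x‖ ≤ 1 * ‖x‖ := by
  rw [one_mul]
  exact nle _ _ fun n => (cl_abs _ _ (by positivity)).trans (ab x.1 n)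

lemma iA_inj : Function.Injective iA := iB_inj.comp Subtype.val_injective

lemma hb (η : ℝ) (hη : |η| ≤ 1) (n : ℕ) : |(if n = 0 then η else s n)| ≤ 1 * s n := by
  split_ifs with h1
  · rw [h1, s_zero, mul_one]; exact hη
  · rw [abs_of_pos (s_pos n), one_mul]

noncomputable def aa (η : ℝ) (hη : |η| ≤ 1) : B :=
  mk (fun n => if n = 0 then η else s n) 1 (fun n => (hb η hη n).trans (by linarith [s_le n]))

lemma aa_apply (η : ℝ) (hη : |η| ≤ 1) (n : ℕ) : aa η hη n = if n = 0 then η else s n := rfl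

lemma U_apply (a : B) (n : ℕ) : U a n = cl (a n) |a 0| := rfl

/-- The negation of the preceding statement: For Banach couples A1⊂A0, B1⊂B0 and U Lipschitz A0→B0, mapping A1 to B1 with linear bound and continuously, U is continuous from the real interpolation space (A0,A1)θ,p;K to (B0,B1)θ,p;K for all 0<θ<1, 1≤p≤∞.
Counterexample for p = ∞, θ = 1/2: weighted sequence spaces, U clamps every coordinate to [-|a_0|, |a_0|]. -/
theorem result :
    ¬ (∀ (E0 E1 F0 F1 : Type)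
      [NormedAddCommGroup E0] [NormedSpace ℝ E0] [CompleteSpace E0]
      [NormedAddCommGroup E1] [NormedSpace ℝ E1] [CompleteSpace E1]
      [NormedAddCommGroup F0] [NormedSpace ℝ F0] [CompleteSpace F0]
      [NormedAddCommGroup F1] [NormedSpace ℝ F1] [CompleteSpace F1]
      (ιA : E1 →L[ℝ] E0) (ιB : F1 →L[ℝ] F0),
      Function.Injective ιA → Function.Injective ιB →
      ∀ (U : E0 → F0) (V : E1 → F1) (M0 M1 : ℝ),
        (∀ a b : E0, ‖U a - U b‖ ≤ M0 * ‖a - b‖) →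
        (∀ x : E1, U (ιA x) = ιB (V x)) →
        (∀ x : E1, ‖V x‖ ≤ M1 * ‖x‖) →
        Continuous V →
        ∀ θ : ℝ, 0 < θ → θ < 1 → ∀ p : ℝ≥0∞, 1 ≤ p →
        ∀ a : E0,
          eLpNorm (fun t : ℝ => t ^ (-θ) * ⨅ y : E1, (‖a - ιA y‖ + t * ‖y‖)) p
            ((volume.restrict (Set.Ioi (0:ℝ))).withDensity (fun t => ENNReal.ofReal t⁻¹)) < ∞ →
          ∀ ε : ℝ≥0∞, 0 < ε → ∃ δ : ℝ≥0∞, 0 < δ ∧ ∀ b : E0,
            eLpNorm (fun t : ℝ => t ^ (-θ) * ⨅ y : E1, (‖b - ιA y‖ + t * ‖y‖)) p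
              ((volume.restrict (Set.Ioi (0:ℝ))).withDensity (fun t => ENNReal.ofReal t⁻¹)) < ∞ →
            eLpNorm (fun t : ℝ => t ^ (-θ) * ⨅ y : E1, (‖(b - a) - ιA y‖ + t * ‖y‖)) p
              ((volume.restrict (Set.Ioi (0:ℝ))).withDensity (fun t => ENNReal.ofReal t⁻¹)) < δ →
            eLpNorm (fun t : ℝ => t ^ (-θ) * ⨅ z : F1, (‖(U b - U a) - ιB z‖ + t * ‖z‖)) p
              ((volume.restrict (Set.Ioi (0:ℝ))).withDensity (fun t => ENNReal.ofReal t⁻¹)) < ε) := by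
  intro h
  have z1 : |(0 : ℝ)| ≤ 1 := by simp
  have h' := h B C0 B B iA iB iA_inj iB_inj U V 2 1 U_lip UV V_bd
    V_cont (1 / 2) (by norm_num) (by norm_num) ∞ le_top (aa 0 z1)
    (lt_of_le_of_lt (upper (aa 0 z1) 1 (hb 0 z1)) ENNReal.ofReal_lt_top)
    (ENNReal.ofReal (1 / 2)) (by simp)
  obtain ⟨δ, hδ, h⟩ := h'
  have t1 : Tendsto (fun n => ENNReal.ofReal (2 * s n)) atTop (𝓝 0) := by
    simpa using ENNReal.tendsto_ofReal (s_tend.const_mul 2)
  obtain ⟨n, hn, hn0⟩ := ((t1.eventually (gt_mem_nhds hδ)).and (eventually_gt_atTop 0)).exists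
  have z2 : |s n| ≤ 1 := by rw [abs_of_pos (s_pos n)]; exact s_le n
  have e1 : (U (aa (s n) z2) - U (aa 0 z1)) n = s n := by
    have := s_pos n
    rw [BoundedContinuousFunction.sub_apply, U_apply, U_apply]
    simp [aa_apply, cl, abs_of_pos this, this.le, hn0.ne']
  have e2 : ∀ m, |(aa (s n) z2 - aa 0 z1) m| ≤ s n * s m := by
    intro m
    rw [BoundedContinuousFunction.sub_apply, aa_apply, aa_apply]
    split_ifs with h1
    · rw [h1, s_zero, sub_zero, mul_one, abs_of_pos (s_pos n)]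
    · rw [sub_self, abs_zero]
      exact (mul_pos (s_pos n) (s_pos m)).le
  exact lower _ n e1 (h (aa (s n) z2)
    (lt_of_le_of_lt (upper (aa (s n) z2) 1 (hb _ z2)) ENNReal.ofReal_lt_top)
    (lt_of_le_of_lt (upper _ (s n) e2) hn))

end Pool.Agent.S04348
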