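import Pool.Statements.S04351
import Pool.Agent.Lib.helper27.SmoothSep

set_option autoImplicit false
open Pool Pool.MP_37ff87_an

namespace Pool.Agent.S04351

/-- For every separable real Banach space X: if the set of Gâteaux derivatives of the norm at unit vectors (the support functionals at Gâteaux points) is norm separable in X*, then the dual X* is separable. -/
theorem result :
    ∀ (X : Type) [NormedAddCommGroup X] [NormedSpace ℝ X] [CompleteSpace X]
      [TopologicalSpace.SeparableSpace X],
      TopologicalSpace.IsSeparable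
          {f : X →L[ℝ] ℝ | ∃ x : X, ‖x‖ = 1 ∧
            ∀ v : X, HasLineDerivAt ℝ (fun y : X => ‖y‖) (f v) x v} →
        TopologicalSpace.SeparableSpace (X →L[ℝ] ℝ) := by
  intro X _ _ _ _ h
  refine Pool.Agent.Lib.helper27.Smooth.sep_of_sep
    ((h.union (Set.countable_singleton 0).isSeparable).mono ?_)
  rintro f ⟨y, hy⟩
  rcases Pool.Agent.Lib.helper27.Smooth.gat_unit y f hy with h0 | ⟨x, hx1, hx⟩
  · exact Or.inr h0
  · exact Or.inl ⟨x, hx1, hx.2.2⟩

end Pool.Agent.S04351
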