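import Pool.Statements.S04361

set_option autoImplicit false
open Pool Pool.MP_38bb9b_an

namespace Pool.Agent.S04361

open Polynomial Finset MeasureTheory

noncomputable section

lemma pair {ι : Type} (w : ι → ℂ) (l : ℕ) (S F : Finset ι) (hF : F ⊆ S) (hl : l < F.card) :
    ∃ j ∈ F, ∃ j' ∈ F, l < (S.filter (fun t => ‖w j - w t‖ ≤ ‖w j - w j'‖)).card := by
  have hne : F.Nonempty := card_pos.1 (by omega)
  obtain ⟨j, hj⟩ := hne
  obtain ⟨j', hj', hmax⟩ := exists_max_image F (fun t => ‖w j - w t‖) ⟨j, hj⟩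
  refine ⟨j, hj, j', hj', hl.trans_le (card_le_card ?_)⟩
  intro t ht
  exact mem_filter.2 ⟨hF ht, hmax t ht⟩

lemma net {ι : Type} [DecidableEq ι] (w : ι → ℂ) (l : ℕ) (m : ℕ) :
    ∀ S : Finset ι, S.card ≤ (m + 1) * l → ∃ q : ℂ[X], q.Monic ∧ q.natDegree = m ∧
      ∀ (z : ℂ) (r : Fin m → ℝ),
        (∀ i : Fin m, (i + 1) * l < (S.filter (fun t => ‖z - w t‖ ≤ r i)).card) →
        ‖q.eval z‖ ≤ ∏ i, 3 * r i := by
  induction m with
  | zero =>
    intro S _
    exact ⟨1, monic_one, natDegree_one, by simp⟩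
  | succ m ih =>
    intro S hS
    by_cases hsm : S.card ≤ (m + 1) * l
    · refine ⟨X ^ (m + 1), monic_X_pow _, natDegree_X_pow _, fun z r hr => ?_⟩
      have h1 := hr (Fin.last m)
      have h2 := card_filter_le S (fun t => ‖z - w t‖ ≤ r (Fin.last m))
      simp only [Fin.val_last] at h1
      omega
    push Not at hsm
    have hl : l < S.card := by nlinarith
    set Q := (S ×ˢ S).filter
      (fun p : ι × ι => l < (S.filter (fun t => ‖w p.1 - w t‖ ≤ ‖w p.1 - w p.2‖)).card) with hQ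
    have hQne : Q.Nonempty := by
      obtain ⟨j, hj, j', hj', h⟩ := pair w l S S Subset.rfl hl
      exact ⟨(j, j'), mem_filter.2 ⟨mem_product.2 ⟨hj, hj'⟩, h⟩⟩
    obtain ⟨p, hp, hmin⟩ := exists_min_image Q (fun p => ‖w p.1 - w p.2‖) hQne
    have hr0 : ∀ (z : ℂ) (r : ℝ), l < (S.filter (fun t => ‖z - w t‖ ≤ r)).card →
        ‖w p.1 - w p.2‖ ≤ 2 * r := by
      intro z r h
      obtain ⟨j, hj, j', hj', h'⟩ := pair w l S _ (filter_subset _ _) h
      have h1 := hmin (j, j') (mem_filter.2 ⟨mem_product.2 ⟨(mem_filter.1 hj).1,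
        (mem_filter.1 hj').1⟩, h'⟩)
      have h2 := (mem_filter.1 hj).2
      have h3 := (mem_filter.1 hj').2
      have h4 : ‖w j - w j'‖ ≤ ‖z - w j'‖ + ‖z - w j‖ := by
        have : w j - w j' = (z - w j') - (z - w j) := by ring
        rw [this]; exact norm_sub_le _ _
      simp only at h1
      linarith
    obtain ⟨S0, hS0, hc0⟩ := exists_subset_card_eq (mem_filter.1 hp).2.le
    have hS0S : S0 ⊆ S := hS0.trans (filter_subset _ _)
    have hcard : (S \ S0).card ≤ (m + 1) * l := by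
      rw [card_sdiff_of_subset hS0S, hc0]
      have : (m + 1 + 1) * l = (m + 1) * l + l := by ring
      omega
    obtain ⟨q, hq, hqd, hqb⟩ := ih (S \ S0) hcard
    refine ⟨(X - C (w p.1)) * q, (monic_X_sub_C _).mul hq, ?_, fun z r hr => ?_⟩
    · rw [(monic_X_sub_C _).natDegree_mul hq, natDegree_X_sub_C, hqd]; ring
    have hsame : ∀ i, (¬ ∃ t ∈ S0, ‖z - w t‖ ≤ r i) →
        S.filter (fun t => ‖z - w t‖ ≤ r i) ⊆ (S \ S0).filter (fun t => ‖z - w t‖ ≤ r i) := by
      intro i hi t ht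
      obtain ⟨h1, h2⟩ := mem_filter.1 ht
      exact mem_filter.2 ⟨mem_sdiff.2 ⟨h1, fun h => hi ⟨t, h, h2⟩⟩, h2⟩
    have hex : (univ.filter (fun i : Fin (m + 1) => ∃ t ∈ S0, ‖z - w t‖ ≤ r i)).Nonempty := by
      refine ⟨Fin.last m, mem_filter.2 ⟨mem_univ _, ?_⟩⟩
      by_contra hi
      have h1 := card_le_card (hsame _ hi)
      have h2 := hr (Fin.last m)
      have h3 := card_filter_le (S \ S0) (fun t => ‖z - w t‖ ≤ r (Fin.last m))
      simp only [Fin.val_last] at h2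
      omega
    obtain ⟨i0, hi0, hi0min⟩ := exists_min_image _ (fun i => i) hex
    obtain ⟨t0, ht0, ht0r⟩ := (mem_filter.1 hi0).2
    have hza : ‖z - w p.1‖ ≤ 3 * r i0 := by
      have h1 := (mem_filter.1 (hS0 ht0)).2
      have h2 := hr0 z (r i0) (lt_of_le_of_lt (by nlinarith) (hr i0))
      have h4 : ‖z - w p.1‖ ≤ ‖z - w t0‖ + ‖w p.1 - w t0‖ := by
        have : z - w p.1 = (z - w t0) - (w p.1 - w t0) := by ring
        rw [this]; exact norm_sub_le _ _
      linarith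
    have hrest := hqb z (fun i => r (i0.succAbove i)) (by
      intro i
      by_cases hlt : i.castSucc < i0
      · rw [Fin.succAbove_of_castSucc_lt _ _ hlt]
        have hn : ¬ ∃ t ∈ S0, ‖z - w t‖ ≤ r i.castSucc := by
          intro h
          exact absurd (hi0min _ (mem_filter.2 ⟨mem_univ _, h⟩)) (not_le.2 hlt)
        have h1 := card_le_card (hsame _ hn)
        have h2 := hr i.castSucc
        simp only [Fin.val_castSucc] at h2
        omega
      · rw [Fin.succAbove_of_le_castSucc _ _ (not_lt.1 hlt)]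
        have h2 := hr i.succ
        simp only [Fin.val_succ] at h2
        have h3 : S.filter (fun t => ‖z - w t‖ ≤ r i.succ) ⊆
            (S \ S0).filter (fun t => ‖z - w t‖ ≤ r i.succ) ∪ S0 := by
          intro t ht
          obtain ⟨h1, h2⟩ := mem_filter.1 ht
          by_cases h : t ∈ S0
          · exact mem_union_right _ h
          · exact mem_union_left _ (mem_filter.2 ⟨mem_sdiff.2 ⟨h1, h⟩, h2⟩)
        have h4 := (card_le_card h3).trans (card_union_le _ _)
        have : (i + 1 + 1) * l = (i + 1) * l + l := by ring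
        omega)
    rw [Fin.prod_univ_succAbove _ i0, eval_mul, norm_mul]
    simp only [eval_sub, eval_X, eval_C]
    exact mul_le_mul hza hrest (norm_nonneg _) ((norm_nonneg _).trans hza)

/-- the kernel used for the pointwise bound -/
def psi (s : ℝ) (z : ℂ) : ℝ := if ‖z‖ ≤ s then 1 / (s * ‖z‖) else 0

lemma psi_nonneg {s : ℝ} (hs : 0 < s) (z : ℂ) : 0 ≤ psi s z := by
  unfold psi; split_ifs <;> positivity

lemma psi_meas (s : ℝ) : Measurable (psi s) := by
  unfold psi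
  exact Measurable.ite (measurableSet_le measurable_norm measurable_const) (by fun_prop)
    measurable_const

lemma psi_int {s : ℝ} (hs : 0 < s) (w : ℂ) :
    ∫⁻ z, ENNReal.ofReal (psi s (z - w)) ≤ ENNReal.ofReal 8 := by
  rw [lintegral_sub_right_eq_self (fun z => ENNReal.ofReal (psi s z)) w,
    ← Complex.lintegral_comp_polarCoord_symm]
  have h1 : ∫⁻ p in polarCoord.target,
      ENNReal.ofReal p.1 • ENNReal.ofReal (psi s (Complex.polarCoord.symm p)) ≤
      ∫⁻ p, (Set.Ioc (0 : ℝ) s ×ˢ Set.Ioo (-Real.pi) Real.pi).indicator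
        (fun _ => ENNReal.ofReal (1 / s)) p := by
    rw [← lintegral_indicator polarCoord.open_target.measurableSet]
    apply lintegral_mono
    intro p
    simp only
    by_cases hp : p ∈ polarCoord.target
    · rw [Set.indicator_of_mem hp]
      have hp' := hp
      rw [polarCoord_target] at hp'
      have h0 : 0 < p.1 := hp'.1
      unfold psi
      rw [Complex.norm_polarCoord_symm, abs_of_pos h0]
      split_ifs with h
      · rw [Set.indicator_of_mem (by exact ⟨⟨h0, h⟩, hp'.2⟩), smul_eq_mul,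
          ← ENNReal.ofReal_mul h0.le]
        apply le_of_eq
        congr 1
        field_simp
      · simp
    · rw [Set.indicator_of_notMem hp]; exact zero_le
  refine h1.trans ?_
  rw [lintegral_indicator_const (measurableSet_Ioc.prod measurableSet_Ioo), Measure.volume_eq_prod,
    Measure.prod_prod, Real.volume_Ioc, Real.volume_Ioo, ← ENNReal.ofReal_mul (by linarith),
    ← ENNReal.ofReal_mul (by positivity)]
  apply ENNReal.ofReal_le_ofReal
  have := Real.pi_le_four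
  have h2 : 1 / s * ((s - 0) * (Real.pi - -Real.pi)) = 2 * Real.pi := by
    field_simp; ring
  rw [h2]; linarith

lemma crit {m : ℕ} (ρ : Fin m → ℝ) {A : ℝ} (hA : 0 < A) :
    ∃ s : ℝ, 0 < s ∧ s * ∏ i, max s (ρ i) = A := by
  have hc : Continuous (fun s : ℝ => s * ∏ i, max s (ρ i)) := by fun_prop
  have h1 : A ∈ Set.Icc ((fun s : ℝ => s * ∏ i, max s (ρ i)) 0)
      ((fun s : ℝ => s * ∏ i, max s (ρ i)) (A + 1)) := by
    refine ⟨by simp [hA.le], ?_⟩
    have : (1 : ℝ) ≤ ∏ i, max (A + 1) (ρ i) :=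
      one_le_prod (fun i _ => le_max_of_le_left (by linarith))
    simp only
    nlinarith
  obtain ⟨s, hs, hs'⟩ := intermediate_value_Icc (by linarith : (0 : ℝ) ≤ A + 1) hc.continuousOn h1
  refine ⟨s, lt_of_le_of_ne hs.1 ?_, hs'⟩
  rintro rfl
  simp at hs'
  exact hA.ne hs'

lemma amgm {l : ℕ} (x : Fin l → ℝ) (hx : ∀ b, 0 < x b) (hp : ∏ b, x b ≤ 1) :
    (l : ℝ) ≤ 2 * ∑ b, (if x b ≤ 2 then 1 / x b else 0) := by
  have h1 : ∑ b, Real.log (x b) ≤ 0 := by
    rw [← Real.log_prod (fun b _ => (hx b).ne')]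
    exact Real.log_nonpos (prod_nonneg fun b _ => (hx b).le) hp
  have h2 : ∀ b, 1 / 2 - Real.log (x b) ≤ (if x b ≤ 2 then 1 / x b else 0) := by
    intro b
    split_ifs with h
    · have := Real.log_le_sub_one_of_pos (one_div_pos.2 (hx b))
      rw [one_div, Real.log_inv] at this
      rw [one_div (x b)]; linarith
    · have h3 : Real.log 2 ≤ Real.log (x b) := Real.log_le_log (by norm_num) (not_le.1 h).le
      have := Real.log_two_gt_d9
      linarith
  have h3 := sum_le_sum (s := univ) (fun b _ => h2 b)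
  rw [sum_sub_distrib] at h3
  simp only [sum_const, card_univ, Fintype.card_fin, nsmul_eq_mul] at h3
  linarith

section pw

variable {m l : ℕ} (hl : 0 < l) (w : Fin ((m + 1) * l) → ℂ)

def ix (a : Fin (m + 1)) (b : Fin l) : Fin ((m + 1) * l) := finProdFinEquiv (a, b)

lemma ix_val (a : Fin (m + 1)) (b : Fin l) : (ix a b : ℕ) = b + l * a := rfl

/-- distances from `z` to the points, in increasing order -/
def sd (z : ℂ) : Fin ((m + 1) * l) → ℝ :=
  (fun j => ‖z - w j‖) ∘ Tuple.sort (fun j => ‖z - w j‖)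

lemma sd_mono (z : ℂ) : Monotone (sd w z) := Tuple.monotone_sort _

def rho (z : ℂ) (i : Fin m) : ℝ := sd w z (ix i.succ ⟨0, hl⟩)

lemma rho_nonneg (z : ℂ) (i : Fin m) : 0 ≤ rho hl w z i := norm_nonneg _

lemma rho_iff (z : ℂ) (i : Fin m) (r : ℝ) :
    (i + 1) * l < (univ.filter (fun t => ‖z - w t‖ ≤ r)).card ↔ rho hl w z i ≤ r := by
  unfold rho
  rw [← Tuple.lt_card_le_iff_apply_le_of_monotone (sd_mono w z), ix_val]
  have h1 : (univ.filter (fun t => sd w z t ≤ r)).card =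
      (univ.filter (fun t => ‖z - w t‖ ≤ r)).card :=
    card_equiv (Tuple.sort (fun j => ‖z - w j‖)) (by simp [sd])
  rw [h1]
  simp [mul_comm]

lemma rho_lip (z z' : ℂ) (i : Fin m) : rho hl w z i ≤ rho hl w z' i + ‖z - z'‖ := by
  rw [← rho_iff]
  refine ((rho_iff hl w z' i _).2 le_rfl).trans_le (card_le_card ?_)
  intro t ht
  simp only [mem_filter, mem_univ, true_and] at ht ⊢
  have : z - w t = (z' - w t) + (z - z') := by ring
  rw [this]
  exact (norm_add_le _ _).trans (by linarith)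

lemma near_le (z : ℂ) (b : Fin l) (i : Fin m) : sd w z (ix 0 b) ≤ rho hl w z i := by
  apply sd_mono
  rw [Fin.le_def, ix_val, ix_val]
  have := b.2
  simp only [Fin.val_zero, Fin.val_succ]
  nlinarith

lemma prod_low (z : ℂ) :
    (∏ b, sd w z (ix 0 b)) * (∏ i, rho hl w z i) ^ l ≤ ∏ j, ‖z - w j‖ := by
  have h1 : ∏ j, ‖z - w j‖ = ∏ j, sd w z j :=
    (Equiv.prod_comp (Tuple.sort (fun j => ‖z - w j‖)) (fun j => ‖z - w j‖)).symm
  have h2 : ∏ j, sd w z j = ∏ a, ∏ b, sd w z (ix a b) := by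
    rw [← Equiv.prod_comp finProdFinEquiv, Fintype.prod_prod_type]; rfl
  rw [h1, h2, Fin.prod_univ_succ]
  apply mul_le_mul_of_nonneg_left _ (prod_nonneg fun b _ => norm_nonneg _)
  rw [← prod_pow]
  apply prod_le_prod (fun i _ => pow_nonneg (rho_nonneg hl w z i) _)
  intro i _
  have : rho hl w z i ^ l = ∏ _b : Fin l, rho hl w z i := by simp
  rw [this]
  apply prod_le_prod (fun _ _ => rho_nonneg hl w z i)
  intro b _
  apply sd_mono
  rw [Fin.le_def, ix_val, ix_val]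
  simp

lemma sum_low (z : ℂ) (f : Fin ((m + 1) * l) → ℝ) (hf : ∀ j, 0 ≤ f j) :
    ∑ b, f (Tuple.sort (fun j => ‖z - w j‖) (ix 0 b)) ≤ ∑ j, f j := by
  rw [← Equiv.sum_comp (Tuple.sort (fun j => ‖z - w j‖)) f, ← Equiv.sum_comp finProdFinEquiv,
    Fintype.sum_prod_type, Fin.sum_univ_succ]
  exact le_add_of_nonneg_right (sum_nonneg fun _ _ => sum_nonneg fun _ _ => hf _)

lemma one_term {M : ℝ} (hM : 0 < M) (z u : ℂ) (s : ℝ) (hs : 0 < s)
    (hs' : s * ∏ i, max s (rho hl w u i) = 2 ^ (m + 1) * M)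
    (hd : 0 < ‖z - u‖) (hle : ∀ i, ‖z - u‖ ≤ rho hl w z i) :
    (∏ i, rho hl w z i) ^ 2 *
      (if ‖z - u‖ * (∏ i, rho hl w z i) / M ≤ 2 then 1 / (‖z - u‖ * (∏ i, rho hl w z i) / M)
        else 0) ≤ 2 ^ (2 * m + 1) * M ^ 2 * psi s (z - u) := by
  set G := ∏ i, rho hl w z i with hG
  set d := ‖z - u‖ with hdd
  have hGpos : 0 < G := prod_pos fun i _ => hd.trans_le (hle i)
  split_ifs with hx
  swap
  · have := psi_nonneg hs (z - u)
    rw [mul_zero]; positivity
  have hup : ∏ i, max d (rho hl w u i) ≤ 2 ^ m * G := by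
    have : 2 ^ m * G = ∏ i, 2 * rho hl w z i := by rw [prod_mul_distrib]; simp [hG]
    rw [this]
    apply prod_le_prod (fun i _ => le_max_of_le_left hd.le)
    intro i _
    have h1 := rho_lip hl w u z i
    rw [norm_sub_rev] at h1
    have h2 := hle i
    exact max_le (by linarith) (by linarith)
  have hlow : G ≤ 2 ^ m * ∏ i, max d (rho hl w u i) := by
    have : 2 ^ m * ∏ i, max d (rho hl w u i) = ∏ i, 2 * max d (rho hl w u i) := by
      rw [prod_mul_distrib]; simp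
    rw [this]
    apply prod_le_prod (fun i _ => rho_nonneg hl w z i)
    intro i _
    have h1 := rho_lip hl w z u i
    have h2 := le_max_left d (rho hl w u i)
    have h3 := le_max_right d (rho hl w u i)
    linarith
  rw [div_le_iff₀ hM] at hx
  have hds : d ≤ s := by
    by_contra hc
    push Not at hc
    have h1 : ∏ i, max s (rho hl w u i) ≤ ∏ i, max d (rho hl w u i) :=
      prod_le_prod (fun i _ => le_max_of_le_left hs.le) (fun i _ => max_le_max hc.le le_rfl)
    have h2 : 0 < ∏ i, max s (rho hl w u i) := prod_pos fun i _ => lt_max_of_lt_left hs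
    have h3 : s * ∏ i, max s (rho hl w u i) < d * ∏ i, max d (rho hl w u i) :=
      mul_lt_mul hc h1 h2 hd.le
    have h4 : d * ∏ i, max d (rho hl w u i) ≤ d * (2 ^ m * G) :=
      mul_le_mul_of_nonneg_left hup hd.le
    have h5 : (2 : ℝ) ^ m * (d * G) ≤ 2 ^ m * (2 * M) :=
      mul_le_mul_of_nonneg_left hx (by positivity)
    rw [pow_succ] at hs'
    nlinarith
  have h1 : ∏ i, max d (rho hl w u i) ≤ ∏ i, max s (rho hl w u i) :=
    prod_le_prod (fun i _ => le_max_of_le_left hd.le) (fun i _ => max_le_max hds le_rfl)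
  have h2 : s * G ≤ 2 ^ (2 * m + 1) * M := by
    calc s * G ≤ s * (2 ^ m * ∏ i, max s (rho hl w u i)) :=
          mul_le_mul_of_nonneg_left (hlow.trans (by gcongr)) hs.le
      _ = 2 ^ m * (s * ∏ i, max s (rho hl w u i)) := by ring
      _ = 2 ^ (2 * m + 1) * M := by rw [hs']; ring
  unfold psi
  rw [if_pos hds, ← hdd]
  have e1 : G ^ 2 * (1 / (d * G / M)) = (s * G) * (M / (s * d)) := by field_simp
  have e2 : 2 ^ (2 * m + 1) * M ^ 2 * (1 / (s * d)) = (2 ^ (2 * m + 1) * M) * (M / (s * d)) := by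
    field_simp
  rw [e1, e2]
  exact mul_le_mul_of_nonneg_right h2 (by positivity)

lemma pointwise {M : ℝ} (hM : 0 < M) (s : Fin ((m + 1) * l) → ℝ) (hs : ∀ j, 0 < s j)
    (hs' : ∀ j, s j * ∏ i, max (s j) (rho hl w (w j) i) = 2 ^ (m + 1) * M)
    (z : ℂ) (hz : ∀ j, z ≠ w j) (hp : ∏ j, ‖z - w j‖ ≤ M ^ l) :
    (∏ i, rho hl w z i) ^ 2 ≤ 2 ^ (2 * m + 2) * M ^ 2 / l * ∑ j, psi (s j) (z - w j) := by
  set G := ∏ i, rho hl w z i with hG
  set σ := Tuple.sort (fun j => ‖z - w j‖) with hσ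
  have hd : ∀ j, 0 < ‖z - w j‖ := fun j => norm_pos_iff.2 (sub_ne_zero.2 (hz j))
  have hGpos : 0 < G := prod_pos fun i _ => hd _
  have h1 := amgm (fun b => ‖z - w (σ (ix 0 b))‖ * G / M)
    (fun b => div_pos (mul_pos (hd _) hGpos) hM) (by
      rw [prod_div_distrib, prod_mul_distrib]
      simp only [prod_const, card_univ, Fintype.card_fin]
      rw [div_le_one (by positivity)]
      exact (prod_low hl w z).trans hp)
  have h2 := sum_le_sum (s := univ) (fun (b : Fin l) _ =>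
    one_term hl w hM z (w (σ (ix 0 b))) (s (σ (ix 0 b))) (hs _) (hs' _) (hd _)
      (fun i => near_le hl w z b i))
  rw [← mul_sum, ← mul_sum] at h2
  have h3 := sum_low w z (fun j => psi (s j) (z - w j)) (fun j => psi_nonneg (hs j) _)
  have hl' : (0 : ℝ) < l := by exact_mod_cast hl
  rw [div_mul_eq_mul_div, le_div_iff₀ hl']
  have h4 := mul_le_mul_of_nonneg_left h1 (sq_nonneg G)
  have h5 := mul_le_mul_of_nonneg_left h3 (by positivity : (0 : ℝ) ≤ 2 ^ (2 * m + 1) * M ^ 2)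
  rw [← hG] at h2
  calc G ^ 2 * l ≤ _ := h4
    _ = 2 * (G ^ 2 * ∑ b, if ‖z - w (σ (ix 0 b))‖ * G / M ≤ 2 then
          1 / (‖z - w (σ (ix 0 b))‖ * G / M) else 0) := by ring
    _ ≤ 2 * (2 ^ (2 * m + 1) * M ^ 2 * ∑ j, psi (s j) (z - w j)) := by linarith
    _ = _ := by ring

include hl in
lemma core {M : ℝ} (hM : 0 < M) (K : Set ℂ) (hK : MeasurableSet K)
    (hp : ∀ z ∈ K, ∏ j, ‖z - w j‖ ≤ M ^ l) :
    ∃ q : ℂ[X], q.Monic ∧ q.natDegree = m ∧
      ∫ z in K, ‖q.eval z‖ ^ 2 ≤ 9 ^ m * 2 ^ (2 * m + 2) * (8 * (m + 1)) * M ^ 2 := by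
  obtain ⟨q, hq, hqd, hqb⟩ := net w l m univ (by simp)
  refine ⟨q, hq, hqd, ?_⟩
  choose s hs hs' using fun j => crit (rho hl w (w j)) (A := 2 ^ (m + 1) * M) (by positivity)
  have hl' : (0 : ℝ) < l := by exact_mod_cast hl
  set B : ℝ := 9 ^ m * (2 ^ (2 * m + 2) * M ^ 2 / l) with hB
  have hB0 : 0 ≤ B := by positivity
  rw [integral_eq_lintegral_of_nonneg_ae (Filter.Eventually.of_forall fun z => by positivity)
    (Continuous.aestronglyMeasurable (by fun_prop))]
  apply ENNReal.toReal_le_of_le_ofReal (by positivity)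
  have hfin : ∀ᵐ z : ℂ, z ∉ Set.range w := (Set.finite_range w).countable.ae_notMem _
  calc ∫⁻ z in K, ENNReal.ofReal (‖q.eval z‖ ^ 2)
      ≤ ∫⁻ z in K, ENNReal.ofReal B * ∑ j, ENNReal.ofReal (psi (s j) (z - w j)) := by
        apply lintegral_mono_ae
        filter_upwards [ae_restrict_mem hK, ae_restrict_of_ae hfin] with z hz hz'
        rw [← ENNReal.ofReal_sum_of_nonneg (fun j _ => psi_nonneg (hs j) _),
          ← ENNReal.ofReal_mul hB0]
        apply ENNReal.ofReal_le_ofReal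
        have h1 := hqb z (rho hl w z) (fun i => (rho_iff hl w z i _).2 le_rfl)
        have h2 := pointwise hl w hM s hs hs' z (fun j h => hz' ⟨j, h.symm⟩) (hp z hz)
        rw [prod_mul_distrib] at h1
        simp only [prod_const, card_univ, Fintype.card_fin] at h1
        calc ‖q.eval z‖ ^ 2 ≤ (3 ^ m * ∏ i, rho hl w z i) ^ 2 := by gcongr
          _ = 9 ^ m * (∏ i, rho hl w z i) ^ 2 := by
            rw [mul_pow, ← pow_mul, mul_comm m 2, pow_mul]; norm_num
          _ ≤ 9 ^ m * (2 ^ (2 * m + 2) * M ^ 2 / l * ∑ j, psi (s j) (z - w j)) := by gcongr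
          _ = _ := by rw [hB]; ring
    _ ≤ ∫⁻ z, ENNReal.ofReal B * ∑ j, ENNReal.ofReal (psi (s j) (z - w j)) :=
        setLIntegral_le_lintegral _ _
    _ = ENNReal.ofReal B * ∑ j, ∫⁻ z, ENNReal.ofReal (psi (s j) (z - w j)) := by
        rw [lintegral_const_mul' _ _ ENNReal.ofReal_ne_top, lintegral_finsetSum]
        intro j _
        exact ((psi_meas _).comp (measurable_id.sub_const _)).ennreal_ofReal
    _ ≤ ENNReal.ofReal B * ∑ _j : Fin ((m + 1) * l), ENNReal.ofReal 8 := by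
        gcongr with j
        exact psi_int (hs j) _
    _ = _ := by
        rw [← ENNReal.ofReal_sum_of_nonneg (fun j _ => by norm_num), ← ENNReal.ofReal_mul hB0]
        congr 1
        simp only [sum_const, card_univ, Fintype.card_fin, nsmul_eq_mul, hB]
        push_cast
        field_simp

end pw

lemma roots_fun (P : ℂ[X]) (hP : P.Monic) (k : ℕ) (hk : P.natDegree = k) :
    ∃ w : Fin k → ℂ, ∀ z, P.eval z = ∏ j, (z - w j) := by
  have h1 := (IsAlgClosed.splits P).eq_prod_roots_of_monic hP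
  have h2 : P.roots.card = k := by rw [← hk]; exact IsAlgClosed.card_roots_eq_natDegree
  obtain ⟨L, hL⟩ := Quotient.exists_rep P.roots
  have h3 : L.length = k := by rw [← h2, ← hL]; rfl
  subst h3
  refine ⟨fun j => L.get j, fun z => ?_⟩
  rw [h1, ← hL]
  simp only [Multiset.quot_mk_to_coe, Multiset.map_coe, Multiset.prod_coe, eval_list_prod,
    List.map_map]
  rw [← List.prod_ofFn]
  congr 1
  apply List.ext_getElem <;> simp

lemma antider (q : ℂ[X]) (hq : q.Monic) (m : ℕ) (hm : q.natDegree = m) :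
    ∃ p : ℂ[X], p.Monic ∧ p.natDegree = m + 1 ∧ derivative p = C ((m : ℂ) + 1) * q := by
  have hsur : ∃ p : ℂ[X], derivative p = C ((m : ℂ) + 1) * q := by
    generalize C ((m : ℂ) + 1) * q = f
    induction f using Polynomial.induction_on' with
    | add p q hp hq =>
      obtain ⟨a, ha⟩ := hp
      obtain ⟨b, hb⟩ := hq
      exact ⟨a + b, by rw [derivative_add, ha, hb]⟩
    | monomial n a =>
      refine ⟨monomial (n + 1) (a / ((n : ℂ) + 1)), ?_⟩
      rw [derivative_monomial_succ, div_mul_cancel₀ _ (Nat.cast_add_one_ne_zero n)]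
  obtain ⟨p, hp⟩ := hsur
  have hne : ((m : ℂ) + 1) ≠ 0 := Nat.cast_add_one_ne_zero m
  have h1 : p.coeff (m + 1) = 1 := by
    have := congrArg (fun f => f.coeff m) hp
    simp only [coeff_derivative, coeff_C_mul] at this
    have h2 : q.coeff m = 1 := by rw [← hm]; exact hq
    rw [h2, mul_one] at this
    exact mul_right_cancel₀ hne (by rw [this, one_mul])
  have h2 : p.natDegree ≤ m + 1 := by
    rw [natDegree_le_iff_coeff_eq_zero]
    intro N hN
    obtain ⟨N, rfl⟩ : ∃ N', N = N' + 1 := ⟨N - 1, by omega⟩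
    have := congrArg (fun f => f.coeff N) hp
    simp only [coeff_derivative, coeff_C_mul] at this
    rw [coeff_eq_zero_of_natDegree_lt (p := q) (by omega), mul_zero] at this
    exact (mul_eq_zero.1 this).resolve_right (Nat.cast_add_one_ne_zero N)
  exact ⟨p, monic_of_natDegree_le_of_coeff_eq_one _ h2 h1,
    natDegree_eq_of_le_of_coeff_ne_zero h2 (by rw [h1]; exact one_ne_zero), hp⟩

lemma main (m : ℕ) : ∃ B : ℝ, 0 < B ∧ ∀ K : Set ℂ, MeasurableSet K → ∀ (l : ℕ) (T : ℂ[X]),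
    T.Monic → T.natDegree = l + 1 → ∀ c : ℝ, 0 < c → (∀ z ∈ K, ‖T.eval z‖ ≤ c ^ (l + 1)) →
    ∃ p : ℂ[X], p.Monic ∧ p.natDegree = m + 1 ∧
      Real.sqrt (∫ z in K, ‖(derivative p).eval z‖ ^ 2) ≤ B * c ^ (m + 1) := by
  refine ⟨(m + 1) * Real.sqrt (9 ^ m * 2 ^ (2 * m + 2) * (8 * (m + 1))), by positivity, ?_⟩
  intro K hK l T hT hTd c hc hb
  obtain ⟨w, hw⟩ := roots_fun (T ^ (m + 1)) (hT.pow _) ((m + 1) * (l + 1))
    (by rw [hT.natDegree_pow, hTd])
  obtain ⟨q, hq, hqd, hI⟩ := core (Nat.succ_pos l) w (M := c ^ (m + 1)) (by positivity) K hK (by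
    intro z hz
    rw [← norm_prod, ← hw, eval_pow, norm_pow, ← pow_mul, mul_comm, pow_mul]
    exact pow_le_pow_left₀ (norm_nonneg _) (hb z hz) _)
  obtain ⟨p, hp, hpd, hp'⟩ := antider q hq m hqd
  refine ⟨p, hp, hpd, ?_⟩
  have h1 : ∫ z in K, ‖(derivative p).eval z‖ ^ 2 = ((m : ℝ) + 1) ^ 2 * ∫ z in K, ‖q.eval z‖ ^ 2 := by
    rw [← integral_const_mul]
    congr 1
    funext z
    rw [hp', eval_mul, eval_C, norm_mul, mul_pow]
    congr 2
    exact_mod_cast Complex.norm_natCast (m + 1)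
  rw [h1, Real.sqrt_le_iff]
  refine ⟨by positivity, ?_⟩
  rw [mul_pow, mul_pow, Real.sq_sqrt (by positivity), mul_assoc]
  gcongr

lemma fin_step (m : ℕ) (Y : ℝ) (Z : ℕ → ℝ) (hY0 : 0 ≤ Y) (hZ0 : ∀ l, 0 ≤ Z l)
    (h : ∀ (l : ℕ) (c : ℝ), 0 < c → Z l < c ^ (l + 1) → Y ≤ c ^ (m + 1)) :
    Y ≤ (⨅ l : ℕ, Z l ^ ((1 : ℝ) / ((l : ℝ) + 1))) ^ (m + 1) := by
  have key : Y ^ (((m + 1 : ℕ) : ℝ)⁻¹) ≤ ⨅ l : ℕ, Z l ^ ((1 : ℝ) / ((l : ℝ) + 1)) := by
    apply le_ciInf
    intro l
    apply le_of_forall_gt_imp_ge_of_dense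
    intro c hc
    have hc0 : 0 < c := (Real.rpow_nonneg (hZ0 l) _).trans_lt hc
    have h1 : Z l < c ^ (l + 1) := by
      have h2 := pow_lt_pow_left₀ hc (Real.rpow_nonneg (hZ0 l) _) (Nat.succ_ne_zero l)
      rw [one_div, ← Nat.cast_succ, Real.rpow_inv_natCast_pow (hZ0 l) (Nat.succ_ne_zero l)] at h2
      exact h2
    have h4 := Real.rpow_le_rpow hY0 (h l c hc0 h1)
      (by positivity : (0 : ℝ) ≤ ((m + 1 : ℕ) : ℝ)⁻¹)
    rwa [Real.pow_rpow_inv_natCast hc0.le (Nat.succ_ne_zero m)] at h4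
  have h5 := pow_le_pow_left₀ (Real.rpow_nonneg hY0 _) key (m + 1)
  rwa [Real.rpow_inv_natCast_pow hY0 (Nat.succ_ne_zero m)] at h5

end

theorem result :
    ∀ n : ℕ, 1 ≤ n → ∃ C : ℝ, 0 < C ∧ ∀ K : Set ℂ, IsCompact K → K.Nonempty →
      C * (⨅ p : {p : Polynomial ℂ // p.Monic ∧ p.natDegree = n},
            Real.sqrt (∫ z in K, ‖(Polynomial.derivative p.1).eval z‖ ^ 2)) ≤
        (⨅ m : ℕ,
            (⨅ q : {q : Polynomial ℂ // q.Monic ∧ q.natDegree = m + 1},
                sSup ((fun z => ‖q.1.eval z‖) '' K)) ^ ((1 : ℝ) / ((m : ℝ) + 1))) ^ n := by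
  intro n hn
  obtain ⟨m, rfl⟩ : ∃ m, n = m + 1 := ⟨n - 1, by omega⟩
  obtain ⟨B, hB, H⟩ := main m
  refine ⟨1 / B, by positivity, fun K hK hne => ?_⟩
  apply fin_step m
  · exact mul_nonneg (by positivity) (Real.iInf_nonneg fun _ => Real.sqrt_nonneg _)
  · intro l
    exact Real.iInf_nonneg fun q => Real.sSup_nonneg (by
      rintro _ ⟨z, -, rfl⟩; exact norm_nonneg _)
  intro l c hc0 h1
  have : Nonempty {q : Polynomial ℂ // q.Monic ∧ q.natDegree = l + 1} :=
    ⟨⟨Polynomial.X ^ (l + 1), Polynomial.monic_X_pow _, Polynomial.natDegree_X_pow _⟩⟩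
  obtain ⟨T, hT⟩ := exists_lt_of_ciInf_lt h1
  obtain ⟨p, hp, hpd, hI⟩ := H K hK.measurableSet l T.1 T.2.1 T.2.2 c hc0 (by
    intro z hz
    refine le_trans (le_csSup ?_ (Set.mem_image_of_mem (fun z => ‖T.1.eval z‖) hz)) hT.le
    exact (hK.image (by fun_prop)).bddAbove)
  rw [one_div, inv_mul_le_iff₀ hB]
  refine ciInf_le_of_le ?_
    (⟨p, hp, hpd⟩ : {p : Polynomial ℂ // p.Monic ∧ p.natDegree = m + 1}) hI
  refine ⟨0, ?_⟩
  rintro _ ⟨p, rfl⟩; exact Real.sqrt_nonneg _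

end Pool.Agent.S04361
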