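import Pool.Statements.S04368
-- import your own Pool.Agent.* helpers here

set_option autoImplicit false
open Filter Topology
open Pool Pool.MP_393faa_an

namespace Pool.Agent.S04368

open scoped ENNReal

lemma memL2_iff (f : ℕ → ℂ) :
    Memℓp f 2 ↔ ∑' x, ENNReal.ofReal (‖f x‖ ^ 2) ≠ ⊤ := by
  rw [memℓp_gen_iff (by norm_num)]
  simp only [ENNReal.toReal_ofNat, Real.rpow_ofNat]
  constructor
  · intro h
    rw [← ENNReal.ofReal_tsum_of_nonneg (fun _ => sq_nonneg _) h]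
    exact ENNReal.ofReal_ne_top
  · intro h
    have := ENNReal.summable_toReal h
    simpa [ENNReal.toReal_ofReal (sq_nonneg _)] using this

lemma normSq_eq (f : lp (fun _ : ℕ => ℂ) 2) :
    ENNReal.ofReal (‖f‖ ^ 2) = ∑' x, ENNReal.ofReal (‖f x‖ ^ 2) := by
  have h1 := lp.norm_rpow_eq_tsum (p := 2) (by norm_num) f
  have h2 := (memℓp_gen_iff (p := 2) (by norm_num)).1 (lp.memℓp f)
  simp only [ENNReal.toReal_ofNat, Real.rpow_ofNat] at h1 h2
  rw [h1, ENNReal.ofReal_tsum_of_nonneg (fun _ => sq_nonneg _) h2]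

theorem exists_op (L : (ℕ → ℂ) →ₗ[ℂ] (ℕ → ℂ)) (C : ℝ) (hC : 0 ≤ C)
    (h : ∀ f : ℕ → ℂ, ∑' x, ENNReal.ofReal (‖L f x‖ ^ 2) ≤
      ENNReal.ofReal (C ^ 2) * ∑' x, ENNReal.ofReal (‖f x‖ ^ 2)) :
    ∃ H : lp (fun _ : ℕ => ℂ) 2 →L[ℂ] lp (fun _ : ℕ => ℂ) 2,
      (∀ f x, H f x = L f x) ∧ ‖H‖ ≤ C := by
  have hmem : ∀ f : lp (fun _ : ℕ => ℂ) 2, Memℓp (L f) 2 := by
    intro f
    rw [memL2_iff]
    refine ne_top_of_le_ne_top ?_ (h f)
    exact ENNReal.mul_ne_top ENNReal.ofReal_ne_top ((memL2_iff _).1 (lp.memℓp f))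
  let T : lp (fun _ : ℕ => ℂ) 2 →ₗ[ℂ] lp (fun _ : ℕ => ℂ) 2 :=
    { toFun := fun f => ⟨L f, hmem f⟩
      map_add' := fun f g => by
        ext x
        change L (⇑(f + g)) x = (L f + L g) x
        rw [lp.coeFn_add, map_add]
      map_smul' := fun c f => by
        ext x
        simp [lp.coeFn_smul] }
  have hT : ∀ f, ‖T f‖ ≤ C * ‖f‖ := by
    intro f
    have h1 := h f
    rw [← normSq_eq f, ← ENNReal.ofReal_mul (sq_nonneg _)] at h1
    have h2 : ENNReal.ofReal (‖T f‖ ^ 2) = ∑' x, ENNReal.ofReal (‖L f x‖ ^ 2) := normSq_eq (T f)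
    rw [← h2, ENNReal.ofReal_le_ofReal_iff (by positivity), ← mul_pow] at h1
    exact le_of_sq_le_sq h1 (by positivity)
  exact ⟨T.mkContinuous C hT, fun f x => rfl, T.mkContinuous_norm_le hC hT⟩

lemma tsum_nat (Φ : ℕ → ℝ≥0∞) : ∑' n, Φ n = Φ 0 + ∑' n, Φ (n + 1) :=
  tsum_eq_zero_add' ENNReal.summable

lemma exists_diag (w : ℕ → ℂ) (C : ℝ) (hC : 0 ≤ C) (hw : ∀ n, ‖w n‖ ≤ C) :
    ∃ D : lp (fun _ : ℕ => ℂ) 2 →L[ℂ] lp (fun _ : ℕ => ℂ) 2,
      (∀ f n, D f n = w n * f n) ∧ ‖D‖ ≤ C := by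
  let L : (ℕ → ℂ) →ₗ[ℂ] (ℕ → ℂ) :=
    { toFun := fun f n => w n * f n
      map_add' := fun f g => by ext n; simp [mul_add]
      map_smul' := fun c f => by ext n; simp; ring }
  refine exists_op L C hC fun f => ?_
  rw [← ENNReal.tsum_mul_left]
  refine ENNReal.tsum_le_tsum fun n => ?_
  rw [← ENNReal.ofReal_mul (sq_nonneg _), ← mul_pow]
  refine ENNReal.ofReal_le_ofReal ?_
  change ‖w n * f n‖ ^ 2 ≤ _
  rw [norm_mul]
  gcongr
  exact hw n

def sh (f : ℕ → ℂ) : ℕ → ℂ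
  | 0 => 0
  | 1 => 0
  | n + 2 => f n

lemma sh_sum (f : ℕ → ℂ) :
    ∑' x, ENNReal.ofReal (‖sh f x‖ ^ 2) = ∑' x, ENNReal.ofReal (‖f x‖ ^ 2) := by
  rw [tsum_nat, tsum_nat]
  simp [sh]

lemma exists_shift :
    ∃ S : lp (fun _ : ℕ => ℂ) 2 →L[ℂ] lp (fun _ : ℕ => ℂ) 2,
      (∀ f n, S f n = sh f n) ∧ ∀ f, ‖S f‖ = ‖f‖ := by
  let L : (ℕ → ℂ) →ₗ[ℂ] (ℕ → ℂ) :=
    { toFun := sh
      map_add' := fun f g => by
        ext n
        rcases n with _ | _ | n <;> simp [sh]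
      map_smul' := fun c f => by
        ext n
        rcases n with _ | _ | n <;> simp [sh] }
  obtain ⟨S, hS, -⟩ := exists_op L 1 zero_le_one fun f => by
    change ∑' x, ENNReal.ofReal (‖sh f x‖ ^ 2) ≤ _
    rw [sh_sum]; simp
  refine ⟨S, hS, fun f => ?_⟩
  have h1 := normSq_eq (S f)
  have h2 := normSq_eq f
  have h3 : ∑' x, ENNReal.ofReal (‖S f x‖ ^ 2) = ∑' x, ENNReal.ofReal (‖f x‖ ^ 2) := by
    rw [← sh_sum f]
    exact tsum_congr fun n => by rw [hS]; rfl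
  rw [h3, ← h2, ENNReal.ofReal_eq_ofReal_iff (sq_nonneg _) (sq_nonneg _)] at h1
  exact (sq_eq_sq₀ (norm_nonneg _) (norm_nonneg _)).1 h1

noncomputable def wl : ℕ → ℂ
  | 0 => 2
  | 1 => 1 / 2
  | _ + 2 => 1

noncomputable def wm : ℕ → ℂ
  | 0 => 2
  | 1 => 1
  | n + 2 => if n % 2 = 0 then 1 else 2

lemma unit_of (w : ℕ → ℂ) (hw : ∀ n, w n ≠ 0)
    (A B : lp (fun _ : ℕ => ℂ) 2 →L[ℂ] lp (fun _ : ℕ => ℂ) 2)
    (hA : ∀ f n, A f n = w n * f n) (hB : ∀ f n, B f n = (w n)⁻¹ * f n) :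
    A * B = 1 ∧ B * A = 1 := by
  constructor
  · ext f n
    change A (B f) n = f n
    rw [hA, hB, ← mul_assoc, mul_inv_cancel₀ (hw n), one_mul]
  · ext f n
    change B (A f) n = f n
    rw [hB, hA, ← mul_assoc, inv_mul_cancel₀ (hw n), one_mul]

lemma norm_ge (w : ℕ → ℂ) (A : lp (fun _ : ℕ => ℂ) 2 →L[ℂ] lp (fun _ : ℕ => ℂ) 2)
    (hA : ∀ f n, A f n = w n * f n) (n : ℕ) : ‖w n‖ ≤ ‖A‖ := by
  have h1 := A.le_opNorm (lp.single 2 n (1 : ℂ))
  have h2 := lp.norm_apply_le_norm (p := 2) (by norm_num) (A (lp.single 2 n (1 : ℂ))) n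
  rw [hA, lp.single_apply_self, mul_one] at h2
  rw [lp.norm_single (by norm_num), norm_one, mul_one] at h1
  exact h2.trans h1

/-- The negation of the preceding statement: On a complex Hilbert space, if T = L⁻¹SL with S an isometry and ‖Lx‖ = lim ‖Tⁿx‖ for all x, then ‖L‖‖L⁻¹‖ equals the infimum of ‖M‖‖M⁻¹‖ over all similarities M of T to an isometry. -/
theorem result :
    ¬ (∀ (H : Type) [NormedAddCommGroup H] [InnerProductSpace ℂ H] [CompleteSpace H]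
      (T S : H →L[ℂ] H) (L : (H →L[ℂ] H)ˣ),
      (∀ x : H, ‖S x‖ = ‖x‖) →
      T = (↑L⁻¹ : H →L[ℂ] H) * S * (↑L : H →L[ℂ] H) →
      (∀ x : H, Tendsto (fun n : ℕ => ‖(T ^ n) x‖) atTop (𝓝 ‖(↑L : H →L[ℂ] H) x‖)) →
      ‖(↑L : H →L[ℂ] H)‖ * ‖(↑L⁻¹ : H →L[ℂ] H)‖ =
        sInf {r : ℝ | ∃ (M : (H →L[ℂ] H)ˣ) (S' : H →L[ℂ] H),
          (∀ x : H, ‖S' x‖ = ‖x‖) ∧
          T = (↑M⁻¹ : H →L[ℂ] H) * S' * (↑M : H →L[ℂ] H) ∧
          r = ‖(↑M : H →L[ℂ] H)‖ * ‖(↑M⁻¹ : H →L[ℂ] H)‖}) := by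
  intro h
  obtain ⟨S, hS, hSn⟩ := exists_shift
  have hl : ∀ n, wl n ≠ 0 := fun n => by rcases n with _ | _ | n <;> simp [wl]
  have hm : ∀ n, wm n ≠ 0 := fun n => by
    rcases n with _ | _ | n
    · simp [wm]
    · simp [wm]
    · simp only [wm]; split_ifs <;> simp
  obtain ⟨A, hA, -⟩ := exists_diag wl 2 (by norm_num) fun n => by
    rcases n with _ | _ | n <;> simp [wl]
    norm_num
  obtain ⟨B, hB, -⟩ := exists_diag (fun n => (wl n)⁻¹) 2 (by norm_num) fun n => by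
    rcases n with _ | _ | n <;> simp [wl]
    norm_num
  obtain ⟨C, hC, hCn⟩ := exists_diag wm 2 (by norm_num) fun n => by
    rcases n with _ | _ | n
    · simp [wm]
    · simp [wm]
    · simp only [wm]; split_ifs <;> simp
  obtain ⟨D, hD, hDn⟩ := exists_diag (fun n => (wm n)⁻¹) 1 (by norm_num) fun n => by
    rcases n with _ | _ | n
    · simp [wm]; norm_num
    · simp [wm]
    · simp only [wm]; split_ifs <;> simp
      norm_num
  obtain ⟨hAB, hBA⟩ := unit_of wl hl A B hA hB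
  obtain ⟨hCD, hDC⟩ := unit_of wm hm C D hC hD
  have hBS : B * S = S := by
    ext f n
    change B (S f) n = S f n
    rw [hB, hS]
    rcases n with _ | _ | n <;> simp [sh, wl]
  have hAS : A * S = S := by
    ext f n
    change A (S f) n = S f n
    rw [hA, hS]
    rcases n with _ | _ | n <;> simp [sh, wl]
  have hT : B * S * A = D * S * C := by
    ext f n
    change B (S (A f)) n = D (S (C f)) n
    rw [hB, hD, hS, hS]
    rcases n with _ | _ | n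
    · simp [sh]
    · simp [sh]
    · simp only [sh, hA, hC]
      rcases n with _ | _ | n
      · simp [wl, wm]
      · simp [wl, wm]
      · have : (n + 1 + 1) % 2 = n % 2 := by omega
        simp only [wl, wm, this]
        split_ifs <;> simp
  have hpow : ∀ k : ℕ, (B * S * A) ^ (k + 1) = S ^ (k + 1) * A := by
    intro k
    induction k with
    | zero => simp [hBS]
    | succ k ih =>
      rw [pow_succ' _ (k + 1), ih, hBS, pow_succ' S (k + 1), pow_succ' S k]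
      simp only [← mul_assoc]
      rw [mul_assoc S A S, hAS]
  have hSk : ∀ (k : ℕ) f, ‖(S ^ k) f‖ = ‖f‖ := by
    intro k
    induction k with
    | zero => intro f; simp
    | succ k ih =>
      intro f
      rw [pow_succ']
      change ‖S ((S ^ k) f)‖ = _
      rw [hSn, ih]
  have key := h (lp (fun _ : ℕ => ℂ) 2) (B * S * A) S ⟨A, B, hAB, hBA⟩ hSn rfl (fun x => by
    rw [← tendsto_add_atTop_iff_nat 1]
    have : ∀ k : ℕ, ‖((B * S * A) ^ (k + 1)) x‖ = ‖A x‖ := fun k => by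
      rw [hpow]
      exact hSk (k + 1) (A x)
    simp only [this]
    exact tendsto_const_nhds)
  have hle : ‖A‖ * ‖B‖ ≤ ‖C‖ * ‖D‖ := by
    refine key.le.trans (csInf_le ⟨0, ?_⟩ ⟨⟨C, D, hCD, hDC⟩, S, hSn, hT, rfl⟩)
    rintro r ⟨M, S', -, -, rfl⟩
    positivity
  have h1 := norm_ge wl A hA 0
  have h2 := norm_ge (fun n => (wl n)⁻¹) B hB 1
  simp [wl] at h1 h2
  have h3 : ‖C‖ * ‖D‖ ≤ 2 * 1 := mul_le_mul hCn hDn (norm_nonneg _) (by norm_num)
  nlinarith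

end Pool.Agent.S04368
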