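import Pool.Statements.S04402
import Pool.Agent.Lib.helper23.DinfA

set_option autoImplicit false
open MeasureTheory Filter Topology
open Pool Pool.MP_3c0e9a_an

namespace Pool.Agent.S04402

/-- The negation of the preceding statement: Every sequence of measurable maps from [0,1] into real L^1[0,1], uniformly essentially bounded, with every functional of it tending to 0 in measure, has a subsequence with every functional of it tending to 0 almost everywhere. -/
theorem result :
    ¬ (∀ f : ℕ → ℝ → MeasureTheory.Lp ℝ 1 (MeasureTheory.volume.restrict (Set.Icc (0:ℝ) 1)),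
      (∀ n, MeasureTheory.AEStronglyMeasurable (f n)
          (MeasureTheory.volume.restrict (Set.Icc (0:ℝ) 1))) →
      (∃ C : ℝ, ∀ n, ∀ᵐ t ∂(MeasureTheory.volume.restrict (Set.Icc (0:ℝ) 1)), ‖f n t‖ ≤ C) →
      (∀ x : MeasureTheory.Lp ℝ 1 (MeasureTheory.volume.restrict (Set.Icc (0:ℝ) 1)) →L[ℝ] ℝ,
          MeasureTheory.TendstoInMeasure (MeasureTheory.volume.restrict (Set.Icc (0:ℝ) 1))
            (fun n t => x (f n t)) atTop (fun _ => (0:ℝ))) →
      ∃ φ : ℕ → ℕ, StrictMono φ ∧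
        ∀ x : MeasureTheory.Lp ℝ 1 (MeasureTheory.volume.restrict (Set.Icc (0:ℝ) 1)) →L[ℝ] ℝ,
          ∀ᵐ t ∂(MeasureTheory.volume.restrict (Set.Icc (0:ℝ) 1)),
            Tendsto (fun k => x (f (φ k) t)) atTop (𝓝 (0:ℝ))) := by
  intro h
  obtain ⟨f, h1, h2, h3, h4⟩ := Lib.helper23.DinfA.main
  obtain ⟨φ, hφ, h5⟩ := h f h1 ⟨1, fun n => Eventually.of_forall (h2 n)⟩ h3
  obtain ⟨x, hx⟩ := h4 φ hφ
  exact hx (h5 x)

end Pool.Agent.S04402
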