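import Pool.Statements.S04412
-- import your own Pool.Agent.* helpers here
import Pool.Agent.Lib.helper16.ND4

set_option autoImplicit false
open Filter Topology
open Pool Pool.MP_3d1c33_an

namespace Pool.Agent.S04412

open Pool.Agent.Lib.helper16.ND Cardinal Ordinal

abbrev I : Type := (Cardinal.aleph 1).ord.ToType

lemma mk_I : #I = Cardinal.aleph 1 := Cardinal.mk_ord_toType _

instance : Uncountable I := by
  rw [← Cardinal.aleph0_lt_mk_iff, mk_I]
  exact Cardinal.aleph0_lt_aleph_one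

lemma Iio_c (b : I) : (Set.Iio b).Countable := by
  have := (Cardinal.mk_Iio_toType_ord_lt b).trans_eq Cardinal.succ_aleph0.symm
  exact Cardinal.le_aleph0_iff_set_countable.mp (Order.lt_succ_iff.mp this)

lemma Iic_c (b : I) : (Set.Iic b).Countable := by
  rw [← Set.Iio_insert]
  exact (Iio_c b).insert b

lemma bdd (C : Set I) (hC : C.Countable) : ∃ c, ∀ a ∈ C, a ≤ c := by
  have : (⋃ a ∈ C, Set.Iic a).Countable := hC.biUnion fun a _ => Iic_c a
  obtain ⟨c, hc⟩ : ∃ c, c ∉ ⋃ a ∈ C, Set.Iic a := by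
    by_contra h
    push Not at h
    exact Set.not_countable_univ (this.mono fun b _ => h b)
  refine ⟨c, fun a ha => ?_⟩
  simp only [Set.mem_iUnion, Set.mem_Iic, not_exists, not_le] at hc
  exact (hc a ha).le

lemma sep_rat (F : Set ℝ) (hF : F.Finite) (x : ℝ) :
    ∃ p q : ℚ, (p : ℝ) < x ∧ x < q ∧ ∀ y ∈ F, (p : ℝ) < y → y < q → y = x := by
  have ho : IsOpen (F \ {x})ᶜ := (hF.subset Set.sdiff_subset).isClosed.isOpen_compl
  have hx : x ∈ (F \ {x})ᶜ := by simp
  obtain ⟨a, b, hab, hs⟩ := mem_nhds_iff_exists_Ioo_subset.mp (ho.mem_nhds hx)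
  obtain ⟨p, hp1, hp2⟩ := exists_rat_btwn hab.1
  obtain ⟨q, hq1, hq2⟩ := exists_rat_btwn hab.2
  refine ⟨p, q, hp2, hq1, fun y hy h1 h2 => ?_⟩
  have := hs (⟨hp1.trans h1, h2.trans hq2⟩ : y ∈ Set.Ioo a b)
  by_contra h
  exact this ⟨hy, h⟩


/-- The negation of the preceding statement: Every real or complex Banach space that has a Schauder decomposition (nonzero blocks, ordered convergent unique expansions) also has one whose coordinate projections each have operator norm exactly 1 in the given norm. -/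
theorem result :
    ¬ (∀ (𝕜 : Type) [RCLike 𝕜] (E : Type) [NormedAddCommGroup E] [NormedSpace 𝕜 E]
      [CompleteSpace E],
      (∃ v : ℕ → (E →L[𝕜] E),
        (∀ n, v n ≠ 0) ∧
        (∀ n m, (v n).comp (v m) = if n = m then v n else 0) ∧
        (∀ x : E, Tendsto (fun N => ∑ n ∈ Finset.range N, v n x) atTop (𝓝 x))) →
      ∃ w : ℕ → (E →L[𝕜] E),
        (∀ n, w n ≠ 0) ∧
        (∀ n m, (w n).comp (w m) = if n = m then w n else 0) ∧
        (∀ x : E, Tendsto (fun N => ∑ n ∈ Finset.range N, w n x) atTop (𝓝 x)) ∧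
        (∀ n, ‖w n‖ = 1)) := by
  classical
  intro h
  obtain ⟨lam⟩ : Nonempty (I ↪ ℝ) := by
    rw [← Cardinal.le_def, mk_I, Cardinal.mk_real]
    exact Cardinal.aleph_one_le_continuum
  have hex : ∀ b : I, ∃ f : ℕ → I, Set.Iic b = Set.range f := fun b =>
    (Iic_c b).exists_eq_range ⟨b, le_refl b⟩
  choose e he using hex
  obtain ⟨p, hp⟩ : ∃ p : I → ℕ, Function.Surjective p :=
    ⟨_, Function.invFun_surjective (Infinite.natEmbedding I).injective⟩
  obtain ⟨τ, hτ⟩ := exists_surjective_nat ((ℚ × ℚ) × ℕ)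
  let σ : ℕ → (ℚ × ℚ) × ℕ := fun k => τ (Nat.unpair k).1
  let D : Data I :=
    { χ := fun p => if ((σ p.1).1.1 : ℝ) < lam p.2 ∧ lam p.2 < (σ p.1).1.2 then 1 else 0
      α := fun p => e p.2 (σ p.1).2
      hχ := fun p => by split_ifs <;> norm_num }
  obtain ⟨w, h1, h2, h3, h4⟩ := h ℝ (E D) (exists_dec D p hp)
  refine no_normal D e ?_ ?_ w h1 h2 h3 h4
  · intro C hC
    obtain ⟨c, hc⟩ := bdd C hC
    refine (Iio_c c).mono fun b hb => ?_
    by_contra hbc
    apply hb
    rw [← he]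
    exact fun a ha => le_trans (hc a ha) (not_lt.mp hbc)
  · intro b0 j F hF n
    obtain ⟨r, s, hr, hs, hrs⟩ := sep_rat _ (hF.image lam) (lam b0)
    obtain ⟨m, hm⟩ := hτ ((r, s), j)
    have hσ : σ (Nat.pair m n) = ((r, s), j) := by
      simp only [σ, Nat.unpair_pair, hm]
    refine ⟨Nat.pair m n, Nat.right_le_pair _ _, ?_, ?_, ?_⟩
    · simp only [D, hσ]
      rw [if_pos ⟨hr, hs⟩]
    · simp only [D, hσ]
    · intro b hb hne
      simp only [D, hσ]
      rw [if_neg]
      rintro ⟨a1, a2⟩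
      exact hne (lam.injective (hrs _ ⟨b, hb, rfl⟩ a1 a2))

end Pool.Agent.S04412
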