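-- Proof of the frozen statement S04442 (negation of the problem MP_3fe7c1_an).
import Pool.Statements.S04442

set_option autoImplicit false
open Filter Topology NNReal
open Pool Pool.MP_3fe7c1_an

namespace Pool.Agent.S04442

open Complex

theorem lim_int (u : ℝ → ℂ) (hu : Continuous u) (h : Tendsto (fun t => exp (u t)) atTop (𝓝 1)) :
    ∃ j : ℤ, Tendsto u atTop (𝓝 (j * (2 * Real.pi * I))) := by
  have h1 : ∀ᶠ t in atTop, exp (u t) ∈ slitPlane :=
    h.eventually (isOpen_slitPlane.mem_nhds one_mem_slitPlane)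
  obtain ⟨t0, ht0⟩ := eventually_atTop.1 h1
  obtain ⟨j, hj⟩ := exp_eq_exp_iff_exists_int.1
    (show exp (u t0) = exp (log (exp (u t0))) by rw [exp_log (exp_ne_zero _)])
  refine ⟨j, ?_⟩
  have h2 : Set.EqOn u (fun t => log (exp (u t)) + j * (2 * Real.pi * I)) (Set.Ici t0) := by
    refine isCoveringMap_exp.eqOn_of_comp_eqOn isPreconnected_Ici hu.continuousOn ?_ ?_
      (Set.self_mem_Ici) hj
    · refine ContinuousOn.add ?_ continuousOn_const
      exact ContinuousOn.clog (by fun_prop) (fun t ht => ht0 t ht)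
    · intro t _
      apply Subtype.ext
      simp only [Function.comp]
      rw [exp_add, exp_log (exp_ne_zero _), exp_int_mul_two_pi_mul_I, mul_one]
  have h3 : Tendsto (fun t => log (exp (u t)) + j * (2 * Real.pi * I)) atTop
      (𝓝 (log 1 + j * (2 * Real.pi * I))) :=
    (h.clog one_mem_slitPlane).add tendsto_const_nhds
  rw [log_one, zero_add] at h3
  refine h3.congr' ?_
  filter_upwards [eventually_ge_atTop t0] with t ht
  exact (h2 ht).symm

noncomputable def lam (n : ℕ) : ℂ := -(1 / ((n : ℂ) + 1)) + 2 * Real.pi * I * 3 ^ n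

noncomputable def m (n : ℕ) (t : ℝ) : ℂ := exp (lam n * t)

theorem m_eq (n : ℕ) (t : ℝ) :
    m n t = (Real.exp (-(t / (n + 1))) : ℝ) * exp (2 * Real.pi * I * 3 ^ n * t) := by
  rw [m, lam, ofReal_exp, ← exp_add]
  congr 1
  push_cast
  ring

theorem norm_m (n : ℕ) (t : ℝ) : ‖m n t‖ = Real.exp (-(t / (n + 1))) := by
  rw [m_eq, norm_mul, Complex.norm_real, Real.norm_of_nonneg (Real.exp_pos _).le]
  have : 2 * Real.pi * I * 3 ^ n * t = ((2 * Real.pi * 3 ^ n * t : ℝ) : ℂ) * I := by
    push_cast; ring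
  rw [this, norm_exp_ofReal_mul_I, mul_one]

theorem norm_m_le (n : ℕ) (t : ℝ) (ht : 0 ≤ t) : ‖m n t‖ ≤ 1 := by
  rw [norm_m, Real.exp_le_one_iff, neg_nonpos]
  positivity

theorem m_add (n : ℕ) (s t : ℝ) : m n (s + t) = m n s * m n t := by
  rw [m, m, m, ← exp_add]
  congr 1
  push_cast
  ring

theorem m_cont (n : ℕ) : Continuous (m n) := by
  unfold m
  fun_prop

theorem norm_m_le' (n : ℕ) (t : ℝ) (ht : 0 < t) : ‖m n t‖ ≤ (n + 1) / t := by
  rw [norm_m, Real.exp_neg]
  have h1 := Real.add_one_le_exp (t / (n + 1))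
  have h2 : 0 < t / (n + 1) := by positivity
  calc _ ≤ (t / (n + 1))⁻¹ := inv_anti₀ h2 (by linarith)
    _ = _ := by rw [inv_div]

theorem shift (c : ℕ → ℂ) (hc : Summable fun n => ‖c n‖) (h : ℝ) (h0 : 0 ≤ h) (h1 : h ≤ 1)
    (σ : ℂ) (hσ : ‖σ‖ = 1) (K : ℕ) (hK : ∀ n, K ≤ n → exp (2 * Real.pi * I * 3 ^ n * h) = σ)
    (t : ℝ) (ht : 0 < t) :
    ‖(∑' n, m n (t + h) * c n) - σ * ∑' n, m n t * c n‖ ≤ (2 * K + 1) / t * ∑' n, ‖c n‖ := by
  have hs : ∀ s : ℝ, 0 ≤ s → Summable fun n => m n s * c n := fun s hs =>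
    Summable.of_norm_bounded hc fun n => by
      rw [norm_mul]
      exact mul_le_of_le_one_left (norm_nonneg _) (norm_m_le n s hs)
  rw [← _root_.tsum_mul_left, ← Summable.tsum_sub (hs _ (by linarith)) ((hs t ht.le).mul_left σ)]
  refine tsum_of_norm_bounded (hc.hasSum.mul_left _) fun n => ?_
  have e : m n (t + h) * c n - σ * (m n t * c n) = (m n t * (m n h - σ)) * c n := by
    rw [m_add]; ring
  rw [e, norm_mul, norm_mul]
  refine mul_le_mul_of_nonneg_right ?_ (norm_nonneg _)
  have a1 := norm_m_le' n t ht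
  have hn : (0 : ℝ) < n + 1 := by positivity
  rcases le_or_gt K n with hn' | hn'
  · have a2 : ‖m n h - σ‖ ≤ 1 / (n + 1) := by
      rw [m_eq, hK n hn']
      have e2 : (Real.exp (-(h / (n + 1))) : ℝ) * σ - σ =
          ((Real.exp (-(h / (n + 1))) - 1 : ℝ) : ℂ) * σ := by push_cast; ring
      rw [e2, norm_mul, hσ, mul_one, Complex.norm_real, Real.norm_eq_abs, abs_le]
      have b1 := Real.add_one_le_exp (-(h / (n + 1)))
      have b2 : Real.exp (-(h / (n + 1))) ≤ 1 := by
        rw [Real.exp_le_one_iff, neg_nonpos]; positivity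
      have b3 : h / (n + 1) ≤ 1 / (n + 1) := by gcongr
      have b4 : (0 : ℝ) < 1 / (n + 1) := by positivity
      constructor <;> linarith
    calc _ ≤ (n + 1) / t * (1 / (n + 1)) := by gcongr
      _ = 1 / t := by field_simp
      _ ≤ _ := by
        gcongr
        have : (0 : ℝ) ≤ K := by positivity
        linarith
  · have a2 : ‖m n h - σ‖ ≤ 2 := by
      have := norm_sub_le (m n h) σ
      have := norm_m_le n h h0
      linarith
    have a3 : (n : ℝ) + 1 ≤ K := by exact_mod_cast hn'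
    calc _ ≤ (n + 1) / t * 2 := by gcongr
      _ = (2 * (n + 1)) / t := by ring
      _ ≤ _ := by
        gcongr
        linarith

theorem no_orbit (c : ℕ → ℂ) (hc : Summable fun n => ‖c n‖)
    (hl : ∀ t : ℝ, 0 ≤ t → 1 / Real.sqrt (t + 1) ≤ ‖∑' n, m n t * c n‖) : False := by
  let f : ℝ → ℂ := fun t => ∑' n, m n (max t 0) * c n
  have hf : Continuous f := by
    refine continuous_tsum (fun n => ?_) hc (fun n t => ?_)
    · have := m_cont n
      fun_prop
    · rw [norm_mul]
      exact mul_le_of_le_one_left (norm_nonneg _) (norm_m_le n _ (le_max_right _ _))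
  have hne : ∀ t, f t ≠ 0 := by
    intro t h
    have h1 := hl (max t 0) (le_max_right _ _)
    have h2 : 0 < 1 / Real.sqrt (max t 0 + 1) := by positivity
    have h3 : ‖f t‖ = 0 := by rw [h, norm_zero]
    simp only [f] at h3
    linarith
  obtain ⟨L, ⟨-, hL⟩, -⟩ := isCoveringMapOn_exp.existsUnique_continuousMap_lifts
    (⟨f, hf⟩ : C(ℝ, ℂ)) (a₀ := 0) (e₀ := log (f 0)) (exp_log (hne 0)) (fun t => hne t)
  have hL' : ∀ t, exp (L t) = f t := fun t => congrFun hL t
  have key : ∀ (h : ℝ), 0 ≤ h → h ≤ 1 → ∀ b : ℂ, ‖exp b‖ = 1 → ∀ K : ℕ,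
      (∀ n, K ≤ n → exp (2 * Real.pi * I * 3 ^ n * h) = exp b) →
      ∃ j : ℤ, Tendsto (fun t => L (t + h) - L t) atTop (𝓝 (b + j * (2 * Real.pi * I))) := by
    intro h h0 h1 b hb K hK
    obtain ⟨j, hj⟩ := lim_int (fun t => L (t + h) - L t - b) (by fun_prop) (by
      rw [tendsto_iff_norm_sub_tendsto_zero]
      have hC : 0 ≤ ∑' n, ‖c n‖ := tsum_nonneg fun n => norm_nonneg _
      have hlim : Tendsto (fun t : ℝ => ((2 * K + 1) * (∑' n, ‖c n‖) * 2) * (Real.sqrt (t + 1))⁻¹)
          atTop (𝓝 0) := by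
        have a1 : Tendsto (fun t : ℝ => Real.sqrt (t + 1)) atTop atTop :=
          Real.tendsto_sqrt_atTop.comp (tendsto_atTop_add_const_right _ _ tendsto_id)
        simpa using a1.inv_tendsto_atTop.const_mul ((2 * K + 1) * (∑' n, ‖c n‖) * 2)
      refine squeeze_zero' (Eventually.of_forall fun t => norm_nonneg _) ?_ hlim
      filter_upwards [eventually_ge_atTop 1] with t ht
      have a1 := shift c hc h h0 h1 (exp b) hb K hK t (by linarith)
      have a2 := hl t (by linarith)
      have e1 : f t = ∑' n, m n t * c n := by simp only [f]; rw [max_eq_left (by linarith)]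
      have e2 : f (t + h) = ∑' n, m n (t + h) * c n := by
        simp only [f]; rw [max_eq_left (by linarith)]
      rw [← e1] at a1 a2
      rw [← e2] at a1
      have e3 : exp (L (t + h) - L t - b) - 1 = (f (t + h) - exp b * f t) / (exp b * f t) := by
        rw [exp_sub, exp_sub, hL', hL']
        have := hne t
        have := exp_ne_zero b
        field_simp
      have hs : 0 < Real.sqrt (t + 1) := by positivity
      have hs2 : Real.sqrt (t + 1) ^ 2 = t + 1 := Real.sq_sqrt (by linarith)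
      rw [e3, norm_div, norm_mul, hb, one_mul, div_le_iff₀ (norm_pos_iff.2 (hne t))]
      refine a1.trans ?_
      have a3 : 1 / t ≤ 2 * (Real.sqrt (t + 1))⁻¹ * (1 / Real.sqrt (t + 1)) := by
        have e4 : 2 * (Real.sqrt (t + 1))⁻¹ * (1 / Real.sqrt (t + 1)) = 2 / (t + 1) := by
          field_simp
          exact hs2.symm
        rw [e4, div_le_div_iff₀ (by linarith) (by linarith)]
        linarith
      calc (2 * K + 1) / t * ∑' n, ‖c n‖ = ((2 * K + 1) * ∑' n, ‖c n‖) * (1 / t) := by ring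
        _ ≤ ((2 * K + 1) * ∑' n, ‖c n‖) * (2 * (Real.sqrt (t + 1))⁻¹ * (1 / Real.sqrt (t + 1))) := by
          gcongr
        _ ≤ ((2 * K + 1) * ∑' n, ‖c n‖) * (2 * (Real.sqrt (t + 1))⁻¹ * ‖f t‖) := by gcongr
        _ = _ := by ring)
    refine ⟨j, ?_⟩
    have := hj.const_add b
    simpa using this
  have multi : ∀ (h : ℝ) (l : ℂ), Tendsto (fun t => L (t + h) - L t) atTop (𝓝 l) →
      ∀ k : ℕ, Tendsto (fun t => L (t + k * h) - L t) atTop (𝓝 (k * l)) := by
    intro h l hl k
    induction k with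
    | zero => simp
    | succ k ih =>
      have a1 := (hl.comp (tendsto_atTop_add_const_right atTop (k * h) tendsto_id)).add ih
      have e : ((k + 1 : ℕ) : ℂ) * l = l + k * l := by push_cast; ring
      rw [e]
      refine a1.congr fun t => ?_
      have e2 : t + ((k + 1 : ℕ) : ℝ) * h = t + k * h + h := by push_cast; ring
      simp only [Function.comp, id, e2]
      ring
  obtain ⟨j, hj⟩ := key (1 / 2) (by norm_num) (by norm_num) (Real.pi * I) (by simp) 0 (by
    intro n _
    obtain ⟨r, hr⟩ : Odd (3 ^ n) := Odd.pow (by decide)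
    have e : (3 : ℂ) ^ n = 2 * r + 1 := by exact_mod_cast hr
    rw [e, exp_eq_exp_iff_exists_int]
    refine ⟨r, ?_⟩
    push_cast
    ring)
  have b1 := multi _ _ hj 2
  obtain ⟨K, hK⟩ : ∃ K : ℕ, K = (1 + 2 * j).natAbs := ⟨_, rfl⟩
  have h3 : (1 : ℝ) ≤ 3 ^ K := one_le_pow₀ (by norm_num)
  obtain ⟨i, hi⟩ := key (1 / 3 ^ K) (by positivity) (by rw [div_le_one (by positivity)]; exact h3)
    0 (by simp) K (by
      intro n hn
      obtain ⟨r, rfl⟩ := Nat.exists_eq_add_of_le hn
      rw [exp_eq_exp_iff_exists_int]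
      refine ⟨3 ^ r, ?_⟩
      push_cast
      field_simp
      ring)
  have b2 := multi _ _ hi (3 ^ K)
  have e1 : ((2 : ℕ) : ℝ) * (1 / 2) = 1 := by norm_num
  have e2 : ((3 ^ K : ℕ) : ℝ) * (1 / 3 ^ K) = 1 := by push_cast; field_simp
  rw [e1] at b1
  rw [e2] at b2
  have b3 := tendsto_nhds_unique b1 b2
  have b4 : ((1 + 2 * j : ℤ) : ℂ) = ((3 ^ K * i : ℤ) : ℂ) := by
    apply mul_right_cancel₀ two_pi_I_ne_zero
    push_cast at b3 ⊢
    linear_combination b3
  have b5 : 1 + 2 * j = 3 ^ K * i := by exact_mod_cast b4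
  have b6 : i ≠ 0 := by
    rintro rfl
    omega
  have b7 : K = 3 ^ K * i.natAbs := by
    conv_lhs => rw [hK, b5]
    simp [Int.natAbs_mul, Int.natAbs_pow]
  have b8 : K < 3 ^ K := Nat.lt_pow_self (by norm_num)
  have b9 : 1 ≤ i.natAbs := Int.natAbs_pos.2 b6
  nlinarith

noncomputable abbrev X := lp (fun _ : ℕ => ℂ) 1

theorem mul_le (t : ℝ≥0) (x : X) (n : ℕ) : ‖m n t * x n‖ ≤ ‖x n‖ := by
  rw [norm_mul]
  exact mul_le_of_le_one_left (norm_nonneg _) (norm_m_le n t t.2)

noncomputable def T (t : ℝ≥0) : X →L[ℂ] X :=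
  LinearMap.mkContinuous
    { toFun := fun x => ⟨fun n => m n t * x n, (lp.memℓp x).mono' (mul_le t x)⟩
      map_add' := fun x y => by
        ext n
        simp [mul_add]
      map_smul' := fun a x => by
        ext n
        simp [mul_left_comm] }
    1 (fun x => by
      rw [one_mul]
      exact lp.norm_mono one_ne_zero (mul_le t x))

theorem T_apply (t : ℝ≥0) (x : X) (n : ℕ) : T t x n = m n t * x n := rfl

noncomputable def e (n : ℕ) : X := lp.single 1 n (1 : ℂ)

theorem norm_e (n : ℕ) : ‖e n‖ = 1 := by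
  rw [e, lp.norm_single one_pos, norm_one]

theorem single_eq (n : ℕ) (a : ℂ) : (lp.single 1 n a : X) = a • e n := by
  rw [e, ← lp.single_smul, smul_eq_mul, mul_one]

theorem T_hasSum (t : ℝ≥0) (x : X) : HasSum (fun n => (m n t * x n) • e n) (T t x) := by
  have := lp.hasSum_single (p := 1) ENNReal.one_ne_top (T t x)
  simpa only [single_eq, T_apply] using this

theorem x_summable (x : X) : Summable fun n => ‖x n‖ := by
  simpa using (lp.memℓp x).summable (by simp)

theorem y_T (t : ℝ≥0) (x : X) (y : X →L[ℂ] ℂ) : y (T t x) = ∑' n, m n t * (x n * y (e n)) := by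
  have := (T_hasSum t x).mapL y
  rw [← this.tsum_eq]
  congr 1
  funext n
  rw [map_smul, smul_eq_mul, mul_assoc]

theorem c_summable (x : X) (y : X →L[ℂ] ℂ) : Summable fun n => ‖x n * y (e n)‖ := by
  refine Summable.of_nonneg_of_le (fun n => norm_nonneg _) (fun n => ?_)
    ((x_summable x).mul_right ‖y‖)
  rw [norm_mul]
  gcongr
  simpa [norm_e] using y.le_opNorm (e n)

/-- The negation of the preceding statement: For every complex Banach space X and strongly continuous semigroup T on X that is weakly stable (y(T t x)→0 for all x, y∈X') and not exponentially stable, every positive antitone a:ℝ≥0→ℝ tending to 0 admits x∈X, y∈X' with a t ≤ ∣y(T t x)∣ for all t≥0. -/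
theorem result :
    ¬ (∀ (X : Type) [NormedAddCommGroup X] [NormedSpace ℂ X] [CompleteSpace X]
      (T : ℝ≥0 → (X →L[ℂ] X)),
      T 0 = 1 →
      (∀ s t : ℝ≥0, T (s + t) = T s * T t) →
      (∀ x : X, Continuous (fun t : ℝ≥0 => T t x)) →
      (∀ (x : X) (y : X →L[ℂ] ℂ), Tendsto (fun t : ℝ≥0 => y (T t x)) atTop (𝓝 0)) →
      (¬ ∃ M ω : ℝ, 0 < ω ∧ ∀ t : ℝ≥0, ‖T t‖ ≤ M * Real.exp (-ω * (t : ℝ))) →
      ∀ a : ℝ≥0 → ℝ, (∀ t, 0 < a t) → Antitone a → Tendsto a atTop (𝓝 0) →
        ∃ (x : X) (y : X →L[ℂ] ℂ), ∀ t : ℝ≥0, a t ≤ ‖y (T t x)‖) := by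
  intro hall
  have ha0 : ∀ t : ℝ≥0, 0 < 1 / Real.sqrt ((t : ℝ) + 1) := fun t => by positivity
  have hmain : (∃ (x : X) (y : X →L[ℂ] ℂ), ∀ t : ℝ≥0,
      1 / Real.sqrt ((t : ℝ) + 1) ≤ ‖y (T t x)‖) → False := by
    rintro ⟨x, y, h⟩
    refine no_orbit (fun n => x n * y (e n)) (c_summable x y) fun t ht => ?_
    have := h ⟨t, ht⟩
    rwa [y_T] at this
  refine hmain (hall X T ?_ ?_ ?_ ?_ ?_ (fun t => 1 / Real.sqrt ((t : ℝ) + 1)) ha0 ?_ ?_)
  · ext x n
    simp [T_apply, m]
  · intro s t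
    ext x n
    simp [T_apply, m_add, mul_assoc]
  · intro x
    have e1 : (fun t : ℝ≥0 => T t x) = fun t : ℝ≥0 => ∑' n, (m n t * x n) • e n :=
      funext fun t => (T_hasSum t x).tsum_eq.symm
    rw [e1]
    refine continuous_tsum (fun n => ?_) (x_summable x) (fun n t => ?_)
    · have := m_cont n
      fun_prop
    · rw [norm_smul, norm_e, mul_one]
      exact mul_le t x n
  · intro x y
    simp only [y_T]
    have := tendsto_tsum_of_dominated_convergence (𝓕 := (atTop : Filter ℝ≥0))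
      (f := fun (t : ℝ≥0) n => m n t * (x n * y (e n))) (g := fun _ => 0) (c_summable x y) ?_ ?_
    · simpa using this
    · intro n
      have a1 : Tendsto (fun t : ℝ≥0 => m n t) atTop (𝓝 0) := by
        rw [tendsto_zero_iff_norm_tendsto_zero]
        simp only [norm_m]
        refine Real.tendsto_exp_neg_atTop_nhds_zero.comp ?_
        exact (NNReal.tendsto_coe_atTop.2 tendsto_id).atTop_div_const (by positivity)
      simpa using a1.mul_const (x n * y (e n))
    · refine Eventually.of_forall fun t n => ?_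
      rw [norm_mul]
      exact mul_le_of_le_one_left (norm_nonneg _) (norm_m_le n t t.2)
  · rintro ⟨M, ω, hω, h⟩
    obtain ⟨n, hn⟩ := exists_nat_gt (2 / ω)
    have hn' : 1 / ((n : ℝ) + 1) ≤ ω / 2 := by
      rw [div_lt_iff₀ hω] at hn
      rw [div_le_div_iff₀ (by positivity) (by norm_num)]
      nlinarith
    let t : ℝ≥0 := ⟨2 * |M| / ω, by positivity⟩
    have ht : (t : ℝ) = 2 * |M| / ω := rfl
    have a1 : ‖m n t‖ ≤ ‖T t‖ := by
      have b1 := (T t).le_opNorm (e n)
      have b2 := lp.norm_apply_le_norm one_ne_zero (T t (e n)) n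
      rw [T_apply] at b2
      rw [norm_e, mul_one] at b1
      have b3 : e n n = 1 := by simp [e]
      rw [b3, mul_one] at b2
      linarith
    have a2 := a1.trans (h t)
    rw [norm_m] at a2
    have a3 : Real.exp (-ω * t) * Real.exp |M| ≤ Real.exp (-(t / (n + 1))) := by
      rw [← Real.exp_add]
      apply Real.exp_le_exp.2
      have c1 : (t : ℝ) / (n + 1) ≤ t * (ω / 2) := by
        rw [div_eq_mul_one_div]
        exact mul_le_mul_of_nonneg_left hn' t.2
      have c2 : (t : ℝ) * ω = 2 * |M| := by rw [ht]; field_simp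
      nlinarith
    have a4 := Real.add_one_le_exp |M|
    have a5 := le_abs_self M
    have a6 := Real.exp_pos (-ω * t)
    nlinarith
  · intro s t hst
    have : (s : ℝ) ≤ t := hst
    simp only
    gcongr
  · have a1 : Tendsto (fun t : ℝ≥0 => Real.sqrt ((t : ℝ) + 1)) atTop atTop :=
      Real.tendsto_sqrt_atTop.comp
        (tendsto_atTop_add_const_right _ _ (NNReal.tendsto_coe_atTop.2 tendsto_id))
    simp only [one_div]
    exact a1.inv_tendsto_atTop

end Pool.Agent.S04442
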