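import Pool.Statements.S04455
import Pool.Agent.Lib.helper18.Erd4

set_option autoImplicit false
open Pool Pool.MP_410a69_an

namespace Pool.Agent.S04455

open Polynomial MeasureTheory H18Erd

lemma nn1 (F : Set ℝ) (q : ℝ[X]) : 0 ≤ sSup ((fun x => |q.eval x|) '' F) :=
  Real.sSup_nonneg (by rintro _ ⟨x, -, rfl⟩; exact abs_nonneg _)

lemma nn2 (F : Set ℝ) (n : ℕ) : 0 ≤ sInf {t : ℝ | ∃ q : ℝ[X], q.Monic ∧ q.natDegree = n ∧
    t = sSup ((fun x => |q.eval x|) '' F)} :=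
  Real.sInf_nonneg (by rintro _ ⟨q, -, -, rfl⟩; exact nn1 F q)


theorem result :
    ∀ w : ℝ → ℝ, Measurable w → (∀ x, 0 ≤ w x) → (∃ M : ℝ, ∀ x, w x ≤ M) →
      (∀ a b : ℝ, -1 ≤ a → a < b → b ≤ 1 → 0 < ∫ x in a..b, w x) →
      Filter.Tendsto
        (fun k : ℕ =>
          (sInf {t : ℝ | ∃ q : Polynomial ℝ, q.Monic ∧ q.natDegree = k ∧
              t = Real.sqrt (∫ x in (-1:ℝ)..1, (q.eval x) ^ 2 * w x)}) ^ ((1:ℝ) / k))
        Filter.atTop (nhds (1 / 2)) →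
      ∀ η : ℝ, 0 < η → ∃ ε : ℝ, 0 < ε ∧
        ∀ E : Set ℝ, MeasurableSet E →
          E ⊆ {x : ℝ | x ∈ Set.Icc (-1:ℝ) 1 ∧ 0 < w x} →
          MeasureTheory.volume ({x : ℝ | x ∈ Set.Icc (-1:ℝ) 1 ∧ 0 < w x} \ E) ≤ ENNReal.ofReal ε →
          1 / 2 - η ≤ sSup {c : ℝ | ∃ F : Set ℝ, IsCompact F ∧ F ⊆ E ∧
            c = sInf {s : ℝ | ∃ n : ℕ, 1 ≤ n ∧
              s = (sInf {t : ℝ | ∃ q : Polynomial ℝ, q.Monic ∧ q.natDegree = n ∧
                    t = sSup ((fun x => |q.eval x|) '' F)}) ^ ((1:ℝ) / n)}} := by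
  intro w hm h0 ⟨M, hM⟩ hs ht η η0
  have hw : IntervalIntegrable w volume (-1) 1 :=
    (intervalIntegrable_const (c := M)).mono_fun hm.aestronglyMeasurable
      (Filter.Eventually.of_forall fun x => by
        simp only [Real.norm_eq_abs]
        rw [abs_of_nonneg (h0 x)]; exact (hM x).trans (le_abs_self M))
  rcases le_or_gt (1 / 2 - η) 0 with c0 | c0
  · refine ⟨1, one_pos, fun E _ _ _ => c0.trans (Real.sSup_nonneg ?_)⟩
    rintro _ ⟨F, -, -, rfl⟩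
    refine Real.sInf_nonneg ?_
    rintro _ ⟨n, -, rfl⟩
    exact Real.rpow_nonneg (nn2 F n) _
  obtain ⟨ε, ε0, H⟩ := main hw hm h0 hM (hs _ _ le_rfl (by norm_num) le_rfl) (fun θ θ0 => by
    have h1 : Real.exp (-(θ / 2)) / 2 < 1 / 2 := by
      have := Real.exp_lt_one_iff.2 (show -(θ / 2) < 0 by linarith)
      linarith
    obtain ⟨N, hN⟩ := Filter.eventually_atTop.1 (ht.eventually_const_lt h1)
    refine ⟨N + 1, fun Q hQ hd => ?_⟩
    have h2 := hN Q.natDegree (by omega)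
    have b0 : ∀ t ∈ {t : ℝ | ∃ q : Polynomial ℝ, q.Monic ∧ q.natDegree = Q.natDegree ∧
        t = Real.sqrt (∫ x in (-1:ℝ)..1, (q.eval x) ^ 2 * w x)}, 0 ≤ t := by
      rintro _ ⟨q, -, -, rfl⟩; exact Real.sqrt_nonneg _
    have h3 := pow_le_pow_left₀ (by positivity) h2.le Q.natDegree
    rw [one_div, Real.rpow_inv_natCast_pow (Real.sInf_nonneg b0) (by omega)] at h3
    have h4 := Real.le_sqrt' (by positivity) |>.1 (h3.trans (csInf_le ⟨0, b0⟩ ⟨Q, hQ, rfl, rfl⟩))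
    have e : Lw hw (Q ^ 2) = ∫ x in (-1:ℝ)..1, (Q.eval x) ^ 2 * w x := by
      simp [Lw]
    rw [e]
    refine le_trans (le_of_eq ?_) (mul_le_mul_of_nonneg_left h4 (by positivity))
    rw [← pow_mul, mul_comm Q.natDegree, pow_mul, ← mul_pow,
      show 4 * (Real.exp (-(θ / 2)) / 2) ^ 2 = Real.exp (-(θ / 2)) ^ 2 by ring, ← pow_mul,
      ← Real.exp_nat_mul]
    congr 1; push_cast; ring) c0 (by linarith)
  refine ⟨ε / 2, by positivity, fun E hE hEA hv => ?_⟩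
  have fin : volume E ≠ ⊤ := ne_top_of_le_ne_top (isCompact_Icc (a := (-1 : ℝ)) (b := 1)).measure_lt_top.ne
    (measure_mono fun x hx => (hEA hx).1)
  obtain ⟨F, hFE, hF, hv2⟩ := hE.exists_isCompact_sdiff_lt fin
    (ε := ENNReal.ofReal (ε / 2)) (by simpa using ε0)
  refine le_trans ?_ (le_csSup ?_ ⟨F, hF, hFE, rfl⟩)
  · by_contra hc
    have h1 := not_le.1 hc
    obtain ⟨_, ⟨n, hn, rfl⟩, h2⟩ := exists_lt_of_csInf_lt (by exact ⟨_, 1, le_rfl, rfl⟩) h1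
    have h3 := pow_lt_pow_left₀ h2 (Real.rpow_nonneg (nn2 F n) _) (show n ≠ 0 by omega)
    rw [one_div, Real.rpow_inv_natCast_pow (nn2 F n) (by omega)] at h3
    obtain ⟨_, ⟨q, hq, rfl, rfl⟩, h4⟩ :=
      exists_lt_of_csInf_lt (by exact ⟨_, X ^ n, monic_X_pow n, natDegree_X_pow n, rfl⟩) h3
    refine H F hF.measurableSet ?_ q hq hn fun x hx => le_trans (le_csSup
      (hF.bddAbove_image q.continuous.abs.continuousOn) ⟨x, hx, rfl⟩) h4.le
    refine (measure_mono (t := _ ∪ (E \ F)) fun x hx => ?_).trans ((measure_union_le _ _).trans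
      ((add_le_add hv hv2.le).trans ?_))
    · by_cases h : x ∈ E
      · exact Or.inr ⟨h, hx.2⟩
      · exact Or.inl ⟨hx.1, h⟩
    · rw [← ENNReal.ofReal_add (by positivity) (by positivity), add_halves]
  · refine ⟨1, ?_⟩
    rintro _ ⟨G, -, hG, rfl⟩
    refine csInf_le_of_le ⟨0, ?_⟩ ⟨1, le_rfl, rfl⟩ ?_
    · rintro _ ⟨n, -, rfl⟩
      exact Real.rpow_nonneg (nn2 G n) _
    rw [Nat.cast_one, div_one, Real.rpow_one]
    refine csInf_le_of_le ⟨0, ?_⟩ ⟨X, monic_X, natDegree_X, rfl⟩ (Real.sSup_le ?_ zero_le_one)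
    · rintro _ ⟨q, -, -, rfl⟩; exact nn1 G q
    · rintro _ ⟨x, hx, rfl⟩
      simpa using abs_le.2 (hEA (hG hx)).1

end Pool.Agent.S04455
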