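import Pool.Statements.S04462
import Pool.Agent.Lib.helper3.Osc

set_option autoImplicit false
open Filter Topology
open Pool Pool.MP_413ec1_an

namespace Pool.Agent.S04462

open MeasureTheory Complex Pool.Agent.Lib.H3Osc

abbrev L : Type := Lp ℂ 1 (volume : Measure (ℝ × ℝ))

lemma exists_pair (φ : ℝ × ℝ → ℂ) (hφ : Continuous φ) (C : ℝ) (h : ∀ p, ‖φ p‖ ≤ C) :
    ∃ Λ : L →L[ℂ] ℂ, (∀ f, Λ f = ∫ p, φ p * f p) ∧ ∀ f, ‖Λ f‖ ≤ C * ‖f‖ := by
  have hi : ∀ f : L, Integrable fun p => φ p * f p := fun f =>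
    (L1.integrable_coeFn f).bdd_mul hφ.aestronglyMeasurable (Eventually.of_forall h)
  let A : L →ₗ[ℂ] ℂ :=
    { toFun := fun f => ∫ p, φ p * f p
      map_add' := fun f g => by
        rw [← integral_add (hi f) (hi g)]
        exact integral_congr_ae ((Lp.coeFn_add f g).mono fun p hp => by
          simp only [hp, Pi.add_apply, mul_add])
      map_smul' := fun c f => by
        rw [RingHom.id_apply, ← integral_smul]
        exact integral_congr_ae ((Lp.coeFn_smul c f).mono fun p hp => by simp [hp]; ring) }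
  have hA : ∀ f, ‖A f‖ ≤ C * ‖f‖ := fun f => by
    rw [L1.norm_eq_integral_norm, ← integral_const_mul]
    exact norm_integral_le_of_norm_le ((L1.integrable_coeFn f).norm.const_mul C)
      (Eventually.of_forall fun p => by rw [norm_mul]; gcongr; exact h p)
  exact ⟨A.mkContinuous C hA, fun _ => rfl, hA⟩

lemma lift_le {Y : Type*} [NormedAddCommGroup Y] [NormedSpace ℂ Y] (N : Submodule ℂ L)
    (F : L →L[ℂ] Y) (hF : N ≤ F.ker) {C : ℝ} (hC : 0 ≤ C) (h : ∀ f, ‖F f‖ ≤ C * ‖f‖) (q : L ⧸ N) :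
    ‖N.liftQL F hF q‖ ≤ C * ‖q‖ := by
  refine le_of_forall_pos_le_add fun ε hε => ?_
  obtain ⟨f, rfl, hf⟩ := Submodule.Quotient.norm_mk_lt q (show 0 < ε / (C + 1) by positivity)
  refine (h f).trans ((mul_le_mul_of_nonneg_left hf.le hC).trans ?_)
  rw [mul_add, add_le_add_iff_left, ← mul_div_assoc, div_le_iff₀ (by positivity)]
  nlinarith

lemma chi_cont : Continuous fun z : ℝ × ℝ × ℝ => chi z.1 z.2 := by unfold chi; fun_prop

lemma ww_cont : Continuous ww := continuous_iff_continuousAt.2 fun y => (ww_deriv y).continuousAt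

lemma chi_add (y : ℝ) (p v : ℝ × ℝ) : chi y (p + v) = chi y v * chi y p := by
  simp only [chi, ← Complex.exp_add, Prod.fst_add, Prod.snd_add]
  congr 1; push_cast; ring

noncomputable def tr (v : ℝ × ℝ) : L →L[ℂ] L :=
  (Lp.compMeasurePreservingₗᵢ ℂ (fun p => p - v)
    (measurePreserving_sub_right volume v)).toContinuousLinearMap

lemma tr_cont (f : L) : Continuous fun v => tr v f :=
  Continuous.compMeasurePreservingLp (g := fun v : ℝ × ℝ => (⟨fun p => p - v, by fun_prop⟩ :
    C(ℝ × ℝ, ℝ × ℝ))) continuous_const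
    (ContinuousMap.continuous_of_continuous_uncurry _ (continuous_snd.sub continuous_fst))
    (fun v => measurePreserving_sub_right volume v) (by simp)

lemma fub (n : ℕ) (f : L) : ∫ p, (∫ y in (0 : ℝ)..1, chi y p * ww y ^ n) * f p =
    ∫ y in (0 : ℝ)..1, ww y ^ n * ∫ p, chi y p * f p := by
  simp only [← intervalIntegral.integral_mul_const, ← integral_const_mul]
  rw [← intervalIntegral_integral_swap]
  · congr 1; ext y; congr 1; ext p; ring
  · have : IsFiniteMeasure ((volume : Measure ℝ).restrict (Set.uIoc 0 1)) := by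
      rw [Set.uIoc_of_le zero_le_one]; infer_instance
    refine ((L1.integrable_coeFn f).comp_snd _).bdd_mul (c := 1)
      (f := fun z : ℝ × ℝ × ℝ => chi z.1 z.2 * ww z.1 ^ n) (Continuous.aestronglyMeasurable
        (chi_cont.mul ((ww_cont.comp continuous_fst).pow n))) (Eventually.of_forall fun z => ?_)
    rw [norm_mul, norm_pow, chi_norm, ww_norm, one_pow, mul_one]

lemma exists_ne {φ : ℝ × ℝ → ℂ} (hφ : Continuous φ) (h0 : φ 0 ≠ 0) :
    ∃ f : L, ∫ p, φ p * f p ≠ 0 := by
  have hi : IntegrableOn (fun p => (starRingEnd ℂ) (φ p)) (Metric.closedBall 0 1) :=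
    (continuous_conj.comp hφ).continuousOn.integrableOn_compact (isCompact_closedBall _ _)
  rw [← integrable_indicator_iff measurableSet_closedBall] at hi
  refine ⟨hi.toL1 _, fun h => ?_⟩
  have e : ∫ p, φ p * hi.toL1 _ p = ((∫ p in Metric.closedBall 0 1, ‖φ p‖ ^ 2 : ℝ) : ℂ) := by
    rw [← integral_complex_ofReal, ← integral_indicator measurableSet_closedBall]
    refine integral_congr_ae (hi.coeFn_toL1.mono fun p hp => ?_)
    simp only [hp]
    by_cases h : p ∈ Metric.closedBall (0 : ℝ × ℝ) 1 <;> simp [h, mul_conj']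
  rw [e, ofReal_eq_zero] at h
  have hc : Continuous fun p => ‖φ p‖ ^ 2 := by fun_prop
  have := (setIntegral_pos_iff_support_of_nonneg_ae (Eventually.of_forall fun p => sq_nonneg _)
    (hc.continuousOn.integrableOn_compact (isCompact_closedBall (0 : ℝ × ℝ) 1))).2
    (((hc.isOpen_support.inter Metric.isOpen_ball).measure_pos volume
      ⟨0, by simpa using h0, Metric.mem_ball_self one_pos⟩).trans_le
      (measure_mono (Set.inter_subset_inter_right _ Metric.ball_subset_closedBall)))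
  exact this.ne' h

/-- The negation of the preceding statement: On a complex Banach space, suppose A generates a bounded C0-semigroup and its inverse A⁻¹ also generates a bounded C0-semigroup. Then the bounded operator V with V(Ax−x)=Ax+x for all x in the domain of A has uniformly bounded powers. -/
theorem result :
    ¬ (∀ (E : Type) [NormedAddCommGroup E] [NormedSpace ℂ E] [CompleteSpace E]
      (T S : ℝ → E →L[ℂ] E),
      T 0 = 1 → S 0 = 1 →
      (∀ s t : ℝ, 0 ≤ s → 0 ≤ t → T (s + t) = T s * T t) →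
      (∀ s t : ℝ, 0 ≤ s → 0 ≤ t → S (s + t) = S s * S t) →
      (∀ x : E, ContinuousOn (fun t : ℝ => T t x) (Set.Ici 0)) →
      (∀ x : E, ContinuousOn (fun t : ℝ => S t x) (Set.Ici 0)) →
      (∃ M : ℝ, ∀ t : ℝ, 0 ≤ t → ‖T t‖ ≤ M) →
      (∃ M : ℝ, ∀ t : ℝ, 0 ≤ t → ‖S t‖ ≤ M) →
      (∀ x y : E,
        Tendsto (fun t : ℝ => t⁻¹ • (T t x - x)) (𝓝[>] 0) (𝓝 y) ↔
          Tendsto (fun t : ℝ => t⁻¹ • (S t y - y)) (𝓝[>] 0) (𝓝 x)) →
      ∀ V : E →L[ℂ] E,
        (∀ x y : E, Tendsto (fun t : ℝ => t⁻¹ • (T t x - x)) (𝓝[>] 0) (𝓝 y) →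
          V (y - x) = y + x) →
        ∃ C : ℝ, ∀ n : ℕ, ‖V ^ n‖ ≤ C) := by
  intro h
  choose ev ev1 ev2 using fun y => exists_pair (chi y) (chi_cont.comp (Continuous.prodMk_right y)) 1
    fun p => (chi_norm y p).le
  have ev3 : ∀ y v f, ev y (tr v f) = chi y v * ev y f := fun y v f => by
    rw [ev1, ev1, ← integral_const_mul,
      ← integral_sub_right_eq_self (fun p => chi y v * (chi y p * f p)) v]
    refine integral_congr_ae ((Lp.coeFn_compMeasurePreserving f
      (measurePreserving_sub_right volume v)).mono fun p hp => ?_)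
    simp only [← mul_assoc, ← chi_add, sub_add_cancel]
    exact congrArg _ hp
  let N : Submodule ℂ L := ⨅ y, (ev y).ker
  have hN : ∀ f, f ∈ N ↔ ∀ y, ev y f = 0 := fun f => by simp [N]
  have : IsClosed (N : Set L) := by
    rw [Submodule.coe_iInf]
    exact isClosed_iInter fun y => (ev y).isClosed_ker
  let e : ℝ → (L ⧸ N) →L[ℂ] ℂ := fun y => N.liftQL (ev y) (iInf_le _ y)
  have hs : ∀ f g, (∀ y, e y f = e y g) → f = g := fun f g h => by
    obtain ⟨f, rfl⟩ := N.mkQ_surjective f
    obtain ⟨g, rfl⟩ := N.mkQ_surjective g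
    exact (Submodule.Quotient.eq N).2 ((hN _).2 fun y => by rw [map_sub, sub_eq_zero]; exact h y)
  let U : ℝ × ℝ → (L ⧸ N) →L[ℂ] (L ⧸ N) := fun v => N.liftQL (N.mkQL.comp (tr v)) fun f hf =>
    (Submodule.Quotient.mk_eq_zero N).2 ((hN _).2 fun y => by
      refine (ev3 y v f).trans ?_
      rw [(hN f).1 hf, mul_zero])
  have U1 : ∀ v y f, e y (U v f) = chi y v * e y f := fun v y f => by
    obtain ⟨f, rfl⟩ := N.mkQ_surjective f
    exact ev3 y v f
  have U2 : ∀ v f, ‖U v f‖ ≤ ‖f‖ := fun v f => by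
    simpa using lift_le N _ _ zero_le_one (fun f => (Submodule.Quotient.norm_mk_le N _).trans
      (by simp [tr])) f
  have U3 : ∀ f, Continuous fun v => U v f := fun f => by
    obtain ⟨f, rfl⟩ := N.mkQ_surjective f
    exact N.mkQL.continuous.comp (tr_cont f)
  have U4 : U 0 = 1 := ContinuousLinearMap.ext fun f => hs _ _ fun y => by simp [U1, chi]
  have U5 : ∀ v w, U (v + w) = U v * U w := fun v w => ContinuousLinearMap.ext fun f =>
    hs _ _ fun y => by rw [mul_apply_eq_comp, U1, U1, U1, chi_add]; ring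
  have cT : ∀ f, Continuous fun t : ℝ => U (t, 0) f := fun f => (U3 f).comp (by fun_prop)
  have cS : ∀ f, Continuous fun t : ℝ => U (0, t) f := fun f => (U3 f).comp (by fun_prop)
  have hT : ∀ (t y : ℝ) f, e y (U (t, 0) f) = cexp (t * (I * Real.exp y)) * e y f := fun t y f => by
    rw [U1, chi]; congr 2; push_cast; ring
  have hS : ∀ (t y : ℝ) f, e y (U (0, t) f) = cexp (t * (I * Real.exp y)⁻¹) * e y f :=
    fun t y f => by
      rw [U1, chi, mul_inv, inv_I, Real.exp_neg, ← ofReal_inv]; congr 2; push_cast; ring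
  have gT := gen_iff e (fun t => U (t, 0)) _ hs cT hT
  have gS := gen_iff e (fun t => U (0, t)) _ hs cS hS
  obtain ⟨R, hR⟩ := exists_res e (fun t => U (t, 0)) _ cT (fun t => U2 _) hT fun y => by simp
  have hV : ∀ y f, ww y * e y ((1 - (2 : ℂ) • R) f) = e y f := fun y f => by
    have := den1 y
    rw [sub_apply, one_apply_eq_self, smul_apply, map_sub, map_smul, smul_eq_mul, ← hR y f, ww]
    field_simp
    ring
  have hVn : ∀ y n f, ww y ^ n * e y (((1 - (2 : ℂ) • R) ^ n) f) = e y f := fun y n => by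
    induction n with
    | zero => simp
    | succ n ih => intro f; rw [pow_succ, pow_succ', mul_apply_eq_comp, mul_assoc, hV, ih]
  obtain ⟨C, hC⟩ := h (L ⧸ N) (fun t => U (t, 0)) (fun t => U (0, t)) U4 U4
    (fun s t _ _ => by rw [← U5]; simp) (fun s t _ _ => by rw [← U5]; simp)
    (fun f => (cT f).continuousOn) (fun f => (cS f).continuousOn)
    ⟨1, fun t _ => ContinuousLinearMap.opNorm_le_bound _ zero_le_one fun f => by simpa using U2 _ f⟩
    ⟨1, fun t _ => ContinuousLinearMap.opNorm_le_bound _ zero_le_one fun f => by simpa using U2 _ f⟩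
    (fun f g => by
      rw [gT, gS]
      refine forall_congr' fun y => ?_
      have : I * (Real.exp y : ℂ) ≠ 0 := mul_ne_zero I_ne_zero (by simp)
      rw [eq_inv_mul_iff_mul_eq₀ this, eq_comm])
    (1 - (2 : ℂ) • R) (fun f g hg => hs _ _ fun y => by
      have h1 := hV y (g - f)
      have h2 := den1 y
      have h3 := den2 y
      rw [map_sub (e y) g, (gT f g).1 hg y, ww, div_mul_eq_mul_div, div_eq_iff h2] at h1
      rw [map_add, (gT f g).1 hg y]
      exact mul_left_cancel₀ h3 (by linear_combination h1))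
  have hφ : ∀ n : ℕ, Continuous fun p => ∫ y in (0 : ℝ)..1, chi y p * ww y ^ n := fun n =>
    intervalIntegral.continuous_parametric_intervalIntegral_of_continuous'
      (f := fun p y => chi y p * ww y ^ n)
      ((chi_cont.comp continuous_swap).mul ((ww_cont.comp continuous_snd).pow n)) 0 1
  obtain ⟨f, hf⟩ := exists_ne (hφ 0) (by simp [chi])
  have C0 : 0 ≤ C := (norm_nonneg _).trans (hC 0)
  refine hf (norm_le_zero_iff.1 (le_of_forall_pos_le_add fun ε hε => ?_))
  have p0 : 0 < C * ‖f‖ + 1 := by positivity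
  obtain ⟨n, hn⟩ := small (div_pos hε p0)
  obtain ⟨Λ, Λ1, Λ2⟩ := exists_pair _ (hφ n) _ hn
  have Λ3 : N ≤ Λ.ker := fun g hg => by
    change Λ g = 0
    simp only [Λ1, fub, ← ev1, (hN g).1 hg, mul_zero, intervalIntegral.integral_zero]
  have h1 := lift_le N Λ Λ3 (div_pos hε p0).le Λ2 (((1 - (2 : ℂ) • R) ^ n) (N.mkQ f))
  have h2 := (((1 - (2 : ℂ) • R) ^ n).le_of_opNorm_le (hC n) (N.mkQ f)).trans
    (mul_le_mul_of_nonneg_left (Submodule.Quotient.norm_mk_le N f) C0)
  obtain ⟨g, hg⟩ := N.mkQ_surjective (((1 - (2 : ℂ) • R) ^ n) (N.mkQ f))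
  have h3 : ∀ y, ww y ^ n * ev y g = ev y f := fun y => by
    have := hVn y n (N.mkQ f)
    rw [← hg] at this
    exact this
  rw [← hg] at h1 h2
  change ‖Λ g‖ ≤ _ at h1
  simp only [Λ1, fub, ← ev1, h3] at h1
  rw [fub]
  simp only [← ev1, pow_zero, one_mul, zero_add]
  refine h1.trans ((mul_le_mul_of_nonneg_left h2 (div_pos hε p0).le).trans ?_)
  rw [div_mul_eq_mul_div, div_le_iff₀ p0]
  nlinarith

end Pool.Agent.S04462
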