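import Pool.Statements.S04474
import Pool.Agent.Lib.helper28.GabB

set_option autoImplicit false
open MeasureTheory
open Pool Pool.MP_41f43f_an

namespace Pool.Agent.S04474

/-- The negation of the preceding statement: For n ≥ 1, every odd window g in the Feichtinger algebra and every relatively separated set Γ in the plane with lower Beurling density (n+1)/n, the Gabor system of g over Γ is not a frame for L²(ℝ). -/
theorem result :
    ¬ (∀ n : ℕ, 1 ≤ n →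
  ∀ g : ℝ → ℂ, MemLp g 2 volume →
    Integrable g volume →
    Integrable (fun p : ℝ × ℝ => ∫ t : ℝ, g t
        * Complex.exp (-(Real.pi : ℂ) * (((t - p.1) ^ 2 : ℝ) : ℂ))
        * Complex.exp (-2 * (Real.pi : ℂ) * Complex.I * (p.2 : ℂ) * (t : ℂ)))
      (volume : Measure (ℝ × ℝ)) →
    (∀ t : ℝ, g (-t) = -g t) →
  ∀ Γ : Set (ℝ × ℝ),
    (∃ C : ℕ, ∀ z : ℝ × ℝ,
      (Γ ∩ (Set.Ico z.1 (z.1 + 1) ×ˢ Set.Ico z.2 (z.2 + 1))).Finite ∧
      (Γ ∩ (Set.Ico z.1 (z.1 + 1) ×ˢ Set.Ico z.2 (z.2 + 1))).ncard ≤ C) →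
    Filter.liminf (fun R : ℝ => ⨅ z : ℝ × ℝ,
        ((Γ ∩ (Set.Ico z.1 (z.1 + R) ×ˢ Set.Ico z.2 (z.2 + R))).ncard : ℝ) / R ^ 2)
      Filter.atTop = ((n : ℝ) + 1) / (n : ℝ) →
    ¬ ∃ A B : ℝ, 0 < A ∧ 0 < B ∧ ∀ f : ℝ → ℂ, MemLp f 2 volume →
      Summable (fun γ : Γ => ‖∫ t : ℝ, f t * (starRingEnd ℂ)
          (Complex.exp (2 * (Real.pi : ℂ) * Complex.I * (((γ : ℝ × ℝ).2 : ℝ) : ℂ) * (t : ℂ))
            * g (t - (γ : ℝ × ℝ).1))‖ ^ 2) ∧
      A * (∫ t : ℝ, ‖f t‖ ^ 2) ≤ (∑' γ : Γ, ‖∫ t : ℝ, f t * (starRingEnd ℂ)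
          (Complex.exp (2 * (Real.pi : ℂ) * Complex.I * (((γ : ℝ × ℝ).2 : ℝ) : ℂ) * (t : ℂ))
            * g (t - (γ : ℝ × ℝ).1))‖ ^ 2) ∧
      (∑' γ : Γ, ‖∫ t : ℝ, f t * (starRingEnd ℂ)
          (Complex.exp (2 * (Real.pi : ℂ) * Complex.I * (((γ : ℝ × ℝ).2 : ℝ) : ℂ) * (t : ℂ))
            * g (t - (γ : ℝ × ℝ).1))‖ ^ 2) ≤ B * (∫ t : ℝ, ‖f t‖ ^ 2)) := by
  
  intro H
  let G : ContDiffBump (0:ℝ) := ⟨3 / 8, 1 / 2, by norm_num, by norm_num⟩
  set g : ℝ → ℝ := fun t => t * G t with hg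
  have hgs : ContDiff ℝ 2 g := contDiff_id.mul G.contDiff
  have hgc : HasCompactSupport g := G.hasCompactSupport.mul_left
  have h0 : ∀ t, 1 / 2 ≤ |t| → g t = 0 := fun t ht => by
    simp only [hg]; rw [G.zero_of_le_dist (by rw [Real.dist_eq, sub_zero]; exact ht), mul_zero]
  have hb : ∀ t, |g t| ≤ 1 := fun t => by
    by_cases ht : 1 / 2 ≤ |t|
    · rw [h0 t ht]; simp
    · simp only [hg]; rw [abs_mul, abs_of_nonneg G.nonneg]
      nlinarith [G.le_one (x := t), G.nonneg (x := t), abs_nonneg t]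
  have h1 : ∀ t, 1 / 8 ≤ |t| → |t| ≤ 3 / 8 → 1 / 64 ≤ g t ^ 2 := fun t a b => by
    simp only [hg]
    rw [G.one_of_mem_closedBall (by simpa using b), mul_one, ← sq_abs]; nlinarith
  have hcc : Continuous fun t => (g t : ℂ) := Complex.continuous_ofReal.comp hgs.continuous
  have hcs : HasCompactSupport fun t => (g t : ℂ) := hgc.comp_left Complex.ofReal_zero
  refine H 1 le_rfl (fun t => (g t : ℂ)) (hcc.memLp_of_hasCompactSupport hcs)
    (hcc.integrable_of_hasCompactSupport hcs) (H28Gab.stft_int hgs hgc)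
    (fun t => by simp [hg, G.neg]) (Set.range H28Gab.pt) ⟨8, fun z => ⟨?_, ?_⟩⟩ ?_
    ⟨1 / 64, 2, by norm_num, by norm_num, fun f hf => ?_⟩
  · rw [H28Gab.box_eq]; exact (Finset.finite_toSet _).image _
  · have := (H28Gab.box_card z le_rfl).2
    norm_num at this
    exact_mod_cast this
  · rw [H28Gab.dens.liminf_eq]; norm_num
  · set φ : ℝ × ℝ → ℝ := fun γ => ‖∫ t : ℝ, f t * (starRingEnd ℂ)
          (Complex.exp (2 * (Real.pi : ℂ) * Complex.I * ((γ.2 : ℝ) : ℂ) * (t : ℂ))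
            * (g (t - γ.1) : ℂ))‖ ^ 2 with hφ
    have key := H28Gab.frame hgs.continuous hb h0 h1 hf (c := fun q => φ (H28Gab.pt q))
      (fun q => by simp only [hφ]; positivity)
      (fun x => by
        have := H28Gab.painless hgs.continuous hb h0 hf (H28Gab.off x.1 + x.2)
        simp only [hφ, H28Gab.pt]
        exact this)
    have e := tsum_range φ H28Gab.pt_inj
    have hs : Summable fun γ : Set.range H28Gab.pt => φ γ :=
      (Equiv.summable_iff (Equiv.ofInjective _ H28Gab.pt_inj)).1 key.1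
    rw [← e] at key
    exact ⟨hs, key.2.1, key.2.2⟩

end Pool.Agent.S04474
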