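import Pool.Statements.S04486
-- import your own Pool.Agent.* helpers here

set_option autoImplicit false
open MeasureTheory ProbabilityTheory
open Pool Pool.MP_42c79c_an

namespace Pool.Agent.S04486

/-- robust Wilkinson-type pattern -/
noncomputable def W {n : ℕ} (i j : Fin n) : ℝ := if i = j then 1 else if j < i then -1 / 2 else 0

lemma lu (n : ℕ) : ∀ (A : Matrix (Fin (n + 1)) (Fin (n + 1)) ℝ) (e m : ℝ), 0 ≤ m →
    e * 2 ^ n ≤ 1 / 10 → (∀ i j, j ≠ Fin.last n → |A i j - W i j| ≤ e) →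
    (∀ i, m ≤ A i (Fin.last n)) → ∃ L U : Matrix (Fin (n + 1)) (Fin (n + 1)) ℝ,
      (∀ i j, i < j → L i j = 0) ∧ (∀ i, L i i = 1) ∧ (∀ i j, |L i j| ≤ 1) ∧
      (∀ i j, j < i → U i j = 0) ∧ A = L * U ∧ m * (4 / 3) ^ n ≤ U (Fin.last n) (Fin.last n) := by
  induction n with
  | zero =>
    intro A e m _ _ _ h
    refine ⟨1, A, fun i j h => by omega, by simp, fun i j => ?_, fun i j h => by omega, by simp,
      by simpa using h 0⟩
    rw [show i = j by omega]; simp
  | succ n ih =>
    intro A e m hm he h1 h2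
    have z : (0 : Fin (n + 2)) ≠ Fin.last (n + 1) := (Fin.last_pos).ne
    have a0 := abs_le.mp (h1 0 0 z)
    have e0 : 0 ≤ e := (abs_nonneg _).trans (h1 0 0 z)
    have e1 : e ≤ 1 / 10 := le_trans (le_mul_of_one_le_right e0 (one_le_pow₀ (by norm_num))) he
    rw [show W (0 : Fin (n + 2)) 0 = 1 by simp [W]] at a0
    have p : 0 < A 0 0 := by linarith [a0.1]
    have hl : ∀ i : Fin (n + 1), -2 / 3 ≤ A i.succ 0 / A 0 0 ∧ A i.succ 0 / A 0 0 ≤ -1 / 3 := by
      intro i
      have a := abs_le.mp (h1 i.succ 0 z)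
      rw [show W i.succ 0 = -1 / 2 by simp [W]] at a
      rw [le_div_iff₀ p, div_le_iff₀ p]
      constructor <;> linarith [a.1, a.2, a0.1, a0.2]
    obtain ⟨L, U, l1, l2, l3, u1, e, g⟩ := ih
      (fun i j => A i.succ j.succ - A i.succ 0 / A 0 0 * A 0 j.succ) (e * 2) (m * (4 / 3))
      (by positivity) (by rw [pow_succ] at he; linarith) (by
        intro i j hj
        have hj' : j.succ ≠ Fin.last (n + 1) := fun h => hj (Fin.succ_injective _ h)
        have a := abs_le.mp (h1 i.succ j.succ hj')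
        have b := abs_le.mp (h1 0 j.succ hj')
        rw [show W i.succ j.succ = W i j by simp [W]] at a
        rw [show W 0 j.succ = 0 by simp [W, (Fin.succ_ne_zero j).symm], sub_zero] at b
        have := hl i
        rw [abs_le]
        constructor <;> nlinarith) (by
        intro i
        have a := h2 i.succ
        have b := h2 0
        have := hl i
        rw [← Fin.succ_last] at a b
        nlinarith)
    refine ⟨Matrix.of (Fin.cons (Fin.cons 1 0) fun i => Fin.cons (A i.succ 0 / A 0 0) (L i)),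
      Matrix.of (Fin.cons (A 0) fun i => Fin.cons 0 (U i)), ?_, ?_, ?_, ?_, ?_, ?_⟩
    · intro i j
      refine Fin.cases ?_ (fun i => ?_) i <;> refine Fin.cases ?_ (fun j => ?_) j <;> intro h
      · simp at h
      · simp
      · simp at h
      · simpa using l1 i j (by simpa using h)
    · intro i
      refine Fin.cases ?_ (fun i => ?_) i
      · simp
      · simpa using l2 i
    · intro i j
      refine Fin.cases ?_ (fun i => ?_) i <;> refine Fin.cases ?_ (fun j => ?_) j
      · simp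
      · simp
      · simp only [Matrix.of_apply, Fin.cons_succ, Fin.cons_zero]
        rw [abs_le]; constructor <;> linarith [(hl i).1, (hl i).2]
      · simpa using l3 i j
    · intro i j
      refine Fin.cases ?_ (fun i => ?_) i <;> refine Fin.cases ?_ (fun j => ?_) j <;> intro h
      · simp at h
      · simp at h
      · simp
      · simpa using u1 i j (by simpa using h)
    · ext i j
      rw [Matrix.mul_apply, Fin.sum_univ_succ]
      refine Fin.cases ?_ (fun i => ?_) i <;> refine Fin.cases ?_ (fun j => ?_) j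
      · simp
      · simp
      · simp [p.ne']
      · have := congrFun (congrFun e i) j
        rw [Matrix.mul_apply] at this
        simp only [Matrix.of_apply, Fin.cons_succ, Fin.cons_zero, ← this]
        ring
    · rw [← Fin.succ_last]
      simp only [Matrix.of_apply, Fin.cons_succ]
      rw [pow_succ]; linarith

lemma box : ∃ c : ℝ, 0 < c ∧ c ≤ 1 ∧ ∀ a δ : ℝ, -2 ≤ a → a + δ ≤ 2 →
    ENNReal.ofReal (c * δ) ≤ gaussianReal 0 1 (Set.Icc a (a + δ)) := by
  have hp : 1 ≤ √(2 * Real.pi) := Real.one_le_sqrt.mpr (by linarith [Real.pi_gt_three])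
  refine ⟨(√(2 * Real.pi))⁻¹ * Real.exp (-2), by positivity, mul_le_one₀
    (inv_le_one_of_one_le₀ hp) (Real.exp_pos _).le (by simp), fun a δ h1 h2 => ?_⟩
  rw [gaussianReal_apply 0 one_ne_zero, ENNReal.ofReal_mul (by positivity)]
  have : ENNReal.ofReal δ = volume (Set.Icc a (a + δ)) := by simp
  rw [this, ← setLIntegral_const]
  refine setLIntegral_mono' measurableSet_Icc fun x hx => ENNReal.ofReal_le_ofReal ?_
  simp only [gaussianPDFReal, NNReal.coe_one, mul_one, sub_zero]
  gcongr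
  nlinarith [hx.1, hx.2]

/-- The negation of the preceding statement: There are constants c₁ and c₂>0 such that for every n, every σ in (0,1], every real n×n Ā with spectral norm ≤ 1, and every x ≥ 1, the partial-pivoting growth factor of Ā+σG (G i.i.d. standard Gaussian) exceeds x(n/σ)^c₁ with probability ≤ 2^(−c₂x). -/
theorem result :
    ¬ (∃ c₁ c₂ : ℝ, 0 < c₂ ∧ ∀ n : ℕ, ∀ σ : ℝ, 0 < σ → σ ≤ 1 →
    ∀ Abar : Matrix (Fin n) (Fin n) ℝ,
    (∀ v : Fin n → ℝ, ∑ i, (Abar.mulVec v i) ^ 2 ≤ ∑ i, v i ^ 2) →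
    ∀ x : ℝ, 1 ≤ x →
    (Measure.pi fun _ : Fin n => Measure.pi fun _ : Fin n => gaussianReal 0 1)
      {G : Fin n → Fin n → ℝ | ∃ π : Equiv.Perm (Fin n), ∃ L U : Matrix (Fin n) (Fin n) ℝ,
        (∀ i j, i < j → L i j = 0) ∧ (∀ i, L i i = 1) ∧ (∀ i j, |L i j| ≤ 1) ∧
        (∀ i j, j < i → U i j = 0) ∧
        (Matrix.of fun i j => Abar (π i) j + σ * G (π i) j) = L * U ∧
        x * ((n : ℝ) / σ) ^ c₁ * (⨆ i, ⨆ j, |Abar i j + σ * G i j|) < ⨆ i, ⨆ j, |U i j|}
      ≤ ENNReal.ofReal ((2 : ℝ) ^ (-(c₂ * x)))) := by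
  rintro ⟨c₁, c₂, hc, H⟩
  obtain ⟨c, c0, c1, hbox⟩ := box
  obtain ⟨k, hk⟩ := exists_nat_ge c₁
  have lq : Real.log (c / 20) < 0 := Real.log_neg (by positivity) (by linarith)
  have l2 : 0 < Real.log 2 := Real.log_pos (by norm_num)
  obtain ⟨M, hM1, hM⟩ : ∃ M : ℝ, 1 ≤ M ∧ -Real.log (c / 20) < c₂ * Real.log 2 * M :=
    ⟨1 + -Real.log (c / 20) / (c₂ * Real.log 2), by
      linarith [div_pos (neg_pos.mpr lq) (mul_pos hc l2)], by
      rw [mul_add, mul_div_cancel₀ _ (by positivity)]; linarith [mul_pos hc l2]⟩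
  obtain ⟨n, hn⟩ := ((tendsto_pow_const_div_const_pow_of_one_lt (k + 3)
    (show (1 : ℝ) < 4 / 3 by norm_num)).comp (Filter.tendsto_add_atTop_nat 1)).eventually
    (gt_mem_nhds (show (0 : ℝ) < 1 / (4 * M) by positivity)) |>.exists
  simp only [Function.comp] at hn
  have N1 : (1 : ℝ) ≤ (n + 1 : ℕ) := by simp
  generalize hN : ((n + 1 : ℕ) : ℝ) = N at hn N1
  have hx : M * N ^ 3 ≤ (4 / 3) ^ n / (3 * N ^ k) := by
    rw [div_lt_div_iff₀ (by positivity) (by positivity), pow_succ (4 / 3 : ℝ), pow_add] at hn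
    rw [le_div_iff₀ (by positivity)]
    linarith
  have N3 : 1 ≤ N ^ 3 := one_le_pow₀ N1
  have key := H (n + 1) 1 one_pos le_rfl 0 (fun v => by
    simp only [Matrix.zero_mulVec, Pi.zero_apply]
    exact Finset.sum_le_sum fun i _ => by simpa using sq_nonneg (v i))
    ((4 / 3) ^ n / (3 * N ^ k)) (by nlinarith)
  obtain ⟨δ, hδ, hδ2⟩ : ∃ δ : ℝ, 0 < δ ∧ δ * 2 ^ n = 1 / 10 :=
    ⟨1 / (10 * 2 ^ n), by positivity, by field_simp⟩
  have hδ1 : δ ≤ 1 / 10 := hδ2 ▸ le_mul_of_one_le_right hδ.le (one_le_pow₀ (by norm_num))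
  let V : Fin (n + 1) → Fin (n + 1) → ℝ := fun i j => if j = Fin.last n then 1 else W i j
  have hV : ∀ i j, -1 ≤ V i j ∧ V i j ≤ 1 := fun i j => by
    simp only [V, W]; split_ifs <;> norm_num
  refine absurd ((measure_mono (s := Set.univ.pi fun i => Set.univ.pi fun j =>
    Set.Icc (V i j) (V i j + δ)) fun G hG => ?_).trans key) (not_le.mpr ?_)
  · have hG' : ∀ i j, V i j ≤ G i j ∧ G i j ≤ V i j + δ := fun i j => hG i trivial j trivial
    obtain ⟨L, U, l1, l2, l3, u1, e, g⟩ := lu n (Matrix.of G) δ 1 zero_le_one hδ2.le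
      (fun i j hj => by
        have := hG' i j
        simp only [V, if_neg hj] at this
        rw [Matrix.of_apply, abs_le]
        constructor <;> linarith [this.1, this.2])
      fun i => by simpa [V] using (hG' i (Fin.last n)).1
    refine ⟨1, L, U, l1, l2, l3, u1, by rw [← e]; ext; simp, ?_⟩
    have s1 : (⨆ i, ⨆ j, |(0 : Matrix (Fin (n + 1)) (Fin (n + 1)) ℝ) i j + 1 * G i j|) ≤ 2 :=
      ciSup_le fun i => ciSup_le fun j => by
        rw [Matrix.zero_apply, zero_add, one_mul, abs_le]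
        constructor <;> linarith [(hG' i j).1, (hG' i j).2, (hV i j).1, (hV i j).2]
    have s2 : |U (Fin.last n) (Fin.last n)| ≤ ⨆ i, ⨆ j, |U i j| :=
      le_ciSup_of_le (Finite.bddAbove_range _) (Fin.last n)
        (le_ciSup (f := fun j => |U (Fin.last n) j|) (Finite.bddAbove_range _) _)
    have s3 : (N / 1) ^ c₁ ≤ N ^ k := by
      rw [div_one, ← Real.rpow_natCast]; exact Real.rpow_le_rpow_of_exponent_le N1 hk
    rw [hN]
    calc _ ≤ (4 / 3) ^ n / (3 * N ^ k) * N ^ k * 2 := by
          refine (mul_le_mul_of_nonneg_left s1 (by positivity)).trans ?_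
          gcongr
      _ = 2 / 3 * (4 / 3) ^ n := by field_simp
      _ < _ := by
          have : (0 : ℝ) < (4 / 3) ^ n := by positivity
          linarith [le_abs_self (U (Fin.last n) (Fin.last n))]
  · rw [Measure.pi_pi]
    simp only [Measure.pi_pi]
    have q : (c / 20) ^ (n + 1) ≤ c * δ := by
      have : δ = 1 / 10 * (1 / 2) ^ n := by rw [← hδ2, mul_assoc, ← mul_pow]; simp
      rw [this, pow_succ]
      have : (c / 20) ^ n ≤ (1 / 2) ^ n := pow_le_pow_left₀ (by positivity) (by linarith) n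
      nlinarith [pow_pos (show (0 : ℝ) < 1 / 2 by norm_num) n]
    refine lt_of_lt_of_le ?_ (Finset.prod_le_prod' fun i _ => Finset.prod_le_prod' fun j _ =>
      (ENNReal.ofReal_le_ofReal q).trans (hbox _ δ (by linarith [(hV i j).1])
        (by linarith [(hV i j).2])))
    simp only [Finset.prod_const, Finset.card_univ, Fintype.card_fin]
    rw [← ENNReal.ofReal_pow (by positivity), ← ENNReal.ofReal_pow (by positivity),
      ENNReal.ofReal_lt_ofReal_iff (by positivity),
      ← Real.log_lt_log_iff (by positivity) (by positivity), Real.log_rpow (by norm_num),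
      Real.log_pow, Real.log_pow, Real.log_pow, hN]
    have := mul_le_mul_of_nonneg_left hx (mul_pos hc l2).le
    nlinarith [mul_lt_mul_of_pos_right hM (show 0 < N ^ 3 by positivity)]

end Pool.Agent.S04486
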