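import Pool.Statements.S04518

set_option autoImplicit false
open MeasureTheory
open scoped Pointwise
open Pool Pool.MP_4442a2_an

namespace Pool.Agent.S04518

lemma seg : ∫⁻ u in Set.Icc (0 : ℝ) 1, ∫⁻ v in Set.Icc (0 : ℝ) 1, edist u v ^ (-(1 / 2) : ℝ) < ⊤ := by
  have h : IntegrableOn (fun w : ℝ => ‖w‖ ^ (-(1 / 2) : ℝ)) (Metric.ball 0 2) volume :=
    integrableOn_ball_of_norm_le_rpow (C := 1) (α := 1 / 2) (by simp) (by norm_num)
      (.of_forall fun w => by rw [one_mul, Real.norm_of_nonneg (by positivity)])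
      (measurable_norm.pow_const _).aestronglyMeasurable
  refine lt_of_le_of_lt (setLIntegral_mono' measurableSet_Icc fun u hu => ?_)
    (by simpa using h.lintegral_lt_top : ∫⁻ _ in Set.Icc (0 : ℝ) 1,
      ∫⁻ w in Metric.ball (0 : ℝ) 2, ENNReal.ofReal (‖w‖ ^ (-(1 / 2) : ℝ)) < ⊤)
  rw [← lintegral_indicator measurableSet_Icc, ← lintegral_indicator measurableSet_ball,
    ← lintegral_sub_left_eq_self _ u]
  refine lintegral_mono_ae ?_
  filter_upwards [compl_mem_ae_iff.2 (measure_singleton (0 : ℝ))] with w hw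
  by_cases hv : u - w ∈ Set.Icc (0 : ℝ) 1
  · rw [Set.indicator_of_mem hv, Set.indicator_of_mem (by
      rw [mem_ball_zero_iff, Real.norm_eq_abs, abs_lt]
      constructor <;> linarith [hu.1, hu.2, hv.1, hv.2]), edist_dist, dist_eq_norm, sub_sub_cancel,
      ENNReal.ofReal_rpow_of_pos (norm_pos_iff.2 hw)]
  · simp [Set.indicator_of_notMem hv]

def B {N : ℕ} (a : Fin N → ℝ) : Set (EuclideanSpace ℝ (Fin N)) := {x | ∀ i, |x i| ≤ a i}

lemma nb {N : ℕ} {a : Fin N → ℝ} {x : EuclideanSpace ℝ (Fin N)} (h : x ∈ B a) :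
    ‖x‖ ≤ √(∑ i, a i ^ 2) := by
  rw [EuclideanSpace.norm_eq]
  gcongr with i
  exact h i

lemma comb {N : ℕ} {a b : Fin N → ℝ} {x y : EuclideanSpace ℝ (Fin N)} (hx : x ∈ B a)
    (hy : y ∈ B b) {s t : ℝ} (hs : 0 ≤ s) (ht : 0 ≤ t) : s • x + t • y ∈ B (s • a + t • b) := fun i => by
  have h1 := abs_le.1 (hx i)
  have h2 := abs_le.1 (hy i)
  simp only [PiLp.add_apply, PiLp.smul_apply, Pi.add_apply, Pi.smul_apply, smul_eq_mul, abs_le]
  constructor <;> nlinarith [h1.1, h1.2, h2.1, h2.2]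

lemma body {N : ℕ} {a : Fin N → ℝ} {e : ℝ} (he : 0 < e) (h : ∀ i, e ≤ a i) :
    IsCompact (B a) ∧ Convex ℝ (B a) ∧ (interior (B a)).Nonempty := by
  refine ⟨Metric.isCompact_of_isClosed_isBounded ?_ (isBounded_iff_forall_norm_le.2
    ⟨_, fun x => nb⟩), fun x hx y hy s t hs ht hst i => ?_, 0, mem_interior_iff_mem_nhds.2
      (Filter.mem_of_superset (Metric.ball_mem_nhds 0 he) fun x hx i => ?_)⟩
  · simp only [B, Set.setOf_forall]
    exact isClosed_iInter fun i => isClosed_le (by fun_prop) (by fun_prop)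
  · simpa [← add_mul, hst] using comb hx hy hs ht i
  · exact ((PiLp.norm_apply_le x i).trans (mem_ball_zero_iff.1 hx).le).trans (h i)

theorem result :
    ¬ (∀ (N : ℕ) (α : ℝ), 2 ≤ N → 0 < α → α < (N : ℝ) →
    ∀ Cap : Set (EuclideanSpace ℝ (Fin N)) → ENNReal,
      (∀ K : Set (EuclideanSpace ℝ (Fin N)),
        Cap K = (⨅ (μ : Measure (EuclideanSpace ℝ (Fin N)))
                  (_ : IsProbabilityMeasure μ) (_ : μ Kᶜ = 0),
                  ∫⁻ x, ∫⁻ y, (edist x y) ^ (α - (N : ℝ)) ∂μ ∂μ)⁻¹) →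
      ∀ K₀ K₁ : Set (EuclideanSpace ℝ (Fin N)),
        IsCompact K₀ → Convex ℝ K₀ → (interior K₀).Nonempty →
        IsCompact K₁ → Convex ℝ K₁ → (interior K₁).Nonempty →
        ∀ t : ℝ, 0 ≤ t → t ≤ 1 →
          ENNReal.ofReal t * Cap K₁ ^ (1 / ((N : ℝ) - α))
            + ENNReal.ofReal (1 - t) * Cap K₀ ^ (1 / ((N : ℝ) - α))
            ≤ Cap (t • K₁ + (1 - t) • K₀) ^ (1 / ((N : ℝ) - α))) := by
  intro H
  set E := ∫⁻ u in Set.Icc (0 : ℝ) 1, ∫⁻ v in Set.Icc (0 : ℝ) 1, edist u v ^ (-(1 / 2) : ℝ) with hE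
  have c0 : 0 < E⁻¹ ^ (2 : ℝ) := ENNReal.rpow_pos_of_nonneg (ENNReal.inv_pos.2 seg.ne) (by norm_num)
  obtain ⟨M, hM⟩ := ENNReal.exists_inv_nat_lt c0.ne'
  set m : ℝ := 4 * (M + 1) with hm
  have m0 : 0 < m := by positivity
  set N := (4 * (M + 1)) ^ 2 with hN
  have N0 : (N : ℝ) = m ^ 2 := by simp [hN, hm]
  have N2 : 2 ≤ N := by rw [hN]; nlinarith [M.zero_le]
  have N3 : (2 : ℝ) ≤ N := by exact_mod_cast N2
  replace H := H N (N - 1 / 2) N2 (by linarith) (by linarith) _ fun _ => rfl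
  simp only [sub_sub_cancel_left, sub_sub_cancel, one_div_one_div] at H
  set Cap : Set (EuclideanSpace ℝ (Fin N)) → ENNReal := fun K => (⨅ (μ : Measure _)
    (_ : IsProbabilityMeasure μ) (_ : μ Kᶜ = 0),
      ∫⁻ x, ∫⁻ y, edist x y ^ (-(1 / 2) : ℝ) ∂μ ∂μ)⁻¹ with hC
  have mono : ∀ K L, K ⊆ L → Cap K ^ (2 : ℝ) ≤ Cap L ^ (2 : ℝ) := fun K L h =>
    ENNReal.rpow_le_rpow (ENNReal.inv_le_inv.2 (iInf₂_mono fun μ _ => iInf_mono' fun h0 =>
      ⟨measure_mono_null (Set.compl_subset_compl.2 h) h0, le_rfl⟩)) (by norm_num)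
  have cv : Convex ℝ {a : Fin N → ℝ | (∀ i, (N : ℝ)⁻¹ ≤ a i) ∧ E⁻¹ ^ (2 : ℝ) ≤ Cap (B a) ^ (2 : ℝ)} := by
    intro a ha b hb s t hs ht hst
    obtain rfl : t = 1 - s := by linarith
    have ka := body (by positivity) ha.1
    have kb := body (by positivity) hb.1
    refine ⟨fun i => ?_, le_trans ?_ ((H (B b) (B a) kb.1 kb.2.1 kb.2.2 ka.1 ka.2.1 ka.2.2 s hs
      (by linarith)).trans (mono _ _ ?_))⟩
    · simp only [Pi.add_apply, Pi.smul_apply, smul_eq_mul]
      nlinarith [ha.1 i, hb.1 i]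
    · refine le_trans (le_of_eq ?_) (add_le_add (mul_le_mul_right ha.2 _) (mul_le_mul_right hb.2 _))
      rw [← add_mul, ← ENNReal.ofReal_add hs ht]
      simp
    · rintro _ ⟨_, ⟨x, hx, rfl⟩, _, ⟨y, hy, rfl⟩, rfl⟩
      exact comb hx hy hs ht
  have key := (cv.sum_mem (t := Finset.univ) (w := fun _ : Fin N => (N : ℝ)⁻¹)
    (z := fun j i => (N : ℝ)⁻¹ + if i = j then 1 else 0) (fun _ _ => by positivity)
    (by simp) fun j _ => ⟨fun i => by dsimp only; split_ifs <;> simp, ?_⟩).2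
  · refine (key.trans_lt (lt_of_le_of_lt ?_ hM)).false
    refine (ENNReal.rpow_le_rpow (ENNReal.inv_le_inv.2 (le_iInf₂ fun μ hμ => le_iInf fun h0 =>
      (?_ : ((M : ENNReal)⁻¹) ^ (-(1 / 2) : ℝ) ≤ _))) (by norm_num)).trans (le_of_eq ?_)
    · have h1 : ∀ᵐ x ∂μ, x ∈ B _ := h0
      have h2 : ∀ c : ENNReal, c ≤ ∫⁻ _, c ∂μ := fun c => by simp [hμ.1]
      refine (h2 _).trans (lintegral_mono_ae (h1.mono fun x hx => (h2 _).trans
        (lintegral_mono_ae (h1.mono fun y hy => ?_))))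
      rw [ENNReal.rpow_neg, ENNReal.rpow_neg]
      refine ENNReal.inv_le_inv.2 (ENNReal.rpow_le_rpow ?_ (by norm_num))
      have h3 : ∀ z : EuclideanSpace ℝ (Fin N), z ∈ B _ → ‖z‖ ≤ 2 / m := fun z hz =>
        (nb (a := ∑ j, (N : ℝ)⁻¹ • fun i => (N : ℝ)⁻¹ + if i = j then 1 else 0) hz).trans (by
          refine (Real.sqrt_le_left (by positivity)).2 (le_of_eq ?_)
          simp [Finset.sum_apply, mul_add, Finset.sum_add_distrib, N0]
          field_simp
          norm_num)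
      refine le_trans ?_ (ENNReal.inv_le_inv.2 (by exact_mod_cast M.le_succ :
        (M : ENNReal) ≤ (M + 1 : ℕ)))
      rw [edist_dist, ← ENNReal.ofReal_natCast, ← ENNReal.ofReal_inv_of_pos (by positivity)]
      refine ENNReal.ofReal_le_ofReal ((dist_le_norm_add_norm x y).trans
        ((add_le_add (h3 x hx) (h3 y hy)).trans (le_of_eq ?_)))
      rw [hm]
      push_cast
      field_simp
      norm_num
    · rw [← ENNReal.rpow_neg, ← ENNReal.rpow_mul]
      norm_num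
  · have hm : Measurable fun u : ℝ => (EuclideanSpace.single j u : EuclideanSpace ℝ (Fin N)) :=
      Continuous.measurable (Isometry.continuous fun u v => by simp)
    refine ENNReal.rpow_le_rpow (ENNReal.inv_le_inv.2 (iInf_le_of_le
      ((volume.restrict (Set.Icc (0 : ℝ) 1)).map fun u => EuclideanSpace.single j u)
      (iInf_le_of_le ⟨by simp [Measure.map_apply hm]⟩ (iInf_le_of_le ?_ ?_)))) (by norm_num)
    · rw [Measure.map_apply hm (body (e := (N : ℝ)⁻¹) (by positivity) fun i => by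
        split_ifs <;> simp).1.measurableSet.compl]
      refine (ae_restrict_iff' measurableSet_Icc).2 (.of_forall fun u hu i => ?_)
      have : (0 : ℝ) ≤ (N : ℝ)⁻¹ := by positivity
      by_cases h : i = j
      · simp [h, abs_of_nonneg hu.1]
        linarith [hu.2]
      · simp [h]
    · refine (lintegral_map_le _ _).trans (lintegral_mono fun u => (lintegral_map_le _ _).trans ?_)
      simp

end Pool.Agent.S04518
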