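import Pool.Statements.S04527
-- import your own Pool.Agent.* helpers here

set_option autoImplicit false
open Pointwise
open Pool Pool.MP_449b18_an

namespace Pool.Agent.S04527

/-- Dyadic level set. -/
noncomputable def lev {Γ : Type} (H : Finset Γ) (h : Γ → ℝ) (j : ℤ) : Finset Γ :=
  H.filter fun z => 0 < h z ∧ Int.log 2 (h z) = j

lemma lev_sum {Γ : Type} (H : Finset Γ) (h : Γ → ℝ) (J : Finset ℤ) (d : ℤ) :
    ∑ j ∈ J, ((2 : ℝ) ^ (j + d)) ^ 2 * (lev H h (j + d)).card ≤ ∑ z ∈ H, h z ^ 2 := by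
  simp only [lev, Finset.card_filter]
  push_cast
  simp_rw [Finset.mul_sum]
  rw [Finset.sum_comm]
  refine Finset.sum_le_sum fun z _ => ?_
  calc _ ≤ ∑ j ∈ J, if j = Int.log 2 (h z) - d then h z ^ 2 else 0 := by
        refine Finset.sum_le_sum fun j _ => ?_
        by_cases c : 0 < h z ∧ Int.log 2 (h z) = j + d
        · rw [if_pos c, if_pos (by omega), mul_one, ← c.2]
          have := Int.zpow_log_le_self (b := 2) (by norm_num) c.1
          exact pow_le_pow_left₀ (by positivity) (by exact_mod_cast this) 2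
        · rw [if_neg c, mul_zero]; split_ifs <;> positivity
    _ ≤ h z ^ 2 := by
        rw [Finset.sum_ite_eq']; split_ifs
        · exact le_rfl
        · positivity

lemma pos_of_mul_pos_of_pos_right' {b c n : ℝ} (h : c < b * n) (hc : 0 ≤ c) (hn : 0 < n) :
    0 < b := by
  by_contra hb
  nlinarith [mul_nonneg (neg_nonneg.mpr (not_lt.mp hb)) hn.le]

lemma pointwise {a b c : ℝ} (M : ℕ) (ha : 0 ≤ a) (ha1 : a ≤ 1) (hb : 0 ≤ b) (hc : 0 ≤ c) :
    a * b * c ≤ (b ^ 2 + c ^ 2) / 2 ^ M ∨ (0 < a ∧ 0 < b ∧ 0 < c ∧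
      Int.log 2 a ∈ Finset.Icc (-(M : ℤ)) 0 ∧
      Int.log 2 c - Int.log 2 b ∈ Finset.Icc (-(M : ℤ)) M ∧
      a * b * c ≤ 8 * (2 ^ Int.log 2 a * 2 ^ Int.log 2 b * 2 ^ Int.log 2 c)) := by
  have hn : (0 : ℝ) < 2 ^ M := by positivity
  have hab : a * b * c ≤ b * c := by nlinarith [mul_nonneg hb hc]
  by_cases h1 : b * 2 ^ M ≤ c
  · left
    rw [le_div_iff₀ hn]
    nlinarith [mul_le_mul_of_nonneg_right h1 hc, mul_le_mul_of_nonneg_right hab hn.le]
  by_cases h2 : c * 2 ^ M ≤ b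
  · left
    rw [le_div_iff₀ hn]
    nlinarith [mul_le_mul_of_nonneg_right h2 hb, mul_le_mul_of_nonneg_right hab hn.le]
  by_cases h3 : a * 2 ^ M ≤ 1
  · left
    rw [le_div_iff₀ hn]
    nlinarith [mul_le_mul_of_nonneg_right h3 (mul_nonneg hb hc), sq_nonneg (b - c),
      mul_nonneg hb hc]
  right
  push Not at h1 h2 h3
  have a0 : 0 < a := by
    rcases ha.eq_or_lt with rfl | h
    · norm_num at h3
    · exact h
  have b0 : 0 < b := pos_of_mul_pos_of_pos_right' h1 hc hn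
  have c0 : 0 < c := pos_of_mul_pos_of_pos_right' h2 hb hn
  have lo : ∀ {t : ℝ}, 0 < t → (2 : ℝ) ^ Int.log 2 t ≤ t := fun ht => by
    exact_mod_cast Int.zpow_log_le_self (b := 2) (by norm_num) ht
  have hi : ∀ t : ℝ, t < 2 * (2 : ℝ) ^ Int.log 2 t := fun t => by
    have := Int.lt_zpow_succ_log_self (b := 2) (by norm_num) t
    rw [zpow_add_one₀ (by norm_num)] at this
    push_cast at this
    linarith
  have key : ∀ {s t : ℝ}, 0 < s → s < t * 2 ^ M → Int.log 2 s ≤ Int.log 2 t + M := by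
    intro s t hs h
    have : (2 : ℝ) ^ Int.log 2 s < 2 ^ (Int.log 2 t + M + 1) := by
      rw [zpow_add_one₀ (by norm_num), zpow_add₀ (by norm_num), zpow_natCast]
      nlinarith [lo hs, mul_lt_mul_of_pos_right (hi t) hn]
    rw [zpow_lt_zpow_iff_right₀ (by norm_num)] at this
    omega
  have k1 := key c0 h1
  have k2 := key b0 h2
  have k3 := key one_pos h3
  rw [Int.log_one_right] at k3
  have k4 : Int.log 2 a ≤ 0 := by
    have := (lo a0).trans ha1
    rwa [zpow_le_one_iff_right₀ (by norm_num)] at this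
  refine ⟨a0, b0, c0, Finset.mem_Icc.mpr ⟨by omega, k4⟩, Finset.mem_Icc.mpr ⟨by omega, by omega⟩, ?_⟩
  calc a * b * c ≤ (2 * 2 ^ Int.log 2 a) * (2 * 2 ^ Int.log 2 b) * (2 * 2 ^ Int.log 2 c) := by
        gcongr <;> exact (hi _).le
    _ = _ := by ring

lemma core {Γ : Type} [Group Γ] [DecidableEq Γ] (F G H : Finset Γ) (f g h : Γ → ℝ) (p : ℝ)
    (M : ℕ) (hp : 0 ≤ p) (hF : (F.card : ℝ) ≤ 2 ^ M)
    (hT : ∀ A B C : Finset Γ, A ⊆ F →
      (((A ×ˢ B ×ˢ C).filter (fun t => t.1 * t.2.1 * t.2.2 = 1)).card : ℝ)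
        ≤ p * Real.sqrt ((A.card : ℝ) * B.card * C.card))
    (f0 : ∀ x, 0 ≤ f x) (g0 : ∀ x, 0 ≤ g x) (h0 : ∀ x, 0 ≤ h x)
    (f1 : ∑ x ∈ F, f x ^ 2 ≤ 1) (g1 : ∑ x ∈ G, g x ^ 2 ≤ 1) (h1 : ∑ x ∈ H, h x ^ 2 ≤ 1) :
    ∑ x ∈ F, ∑ y ∈ G, ∑ z ∈ H, (if x * y * z = 1 then f x * g y * h z else 0) ≤
      2 + 8 * p * ((M + 1) * (2 * M + 1)) := by
  set J := G.image fun y => Int.log 2 (g y) with hJ
  set I1 := Finset.Icc (-(M : ℤ)) 0
  set I2 := Finset.Icc (-(M : ℤ)) M
  let T : Γ → Γ → Γ → ℤ × ℤ × ℤ → ℝ := fun x y z q =>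
    if x * y * z = 1 ∧ x ∈ lev F f q.1 ∧ y ∈ lev G g q.2.2 ∧ z ∈ lev H h (q.2.2 + q.2.1) then
      8 * (2 ^ q.1 * 2 ^ q.2.2 * 2 ^ (q.2.2 + q.2.1)) else 0
  have T0 : ∀ x y z q, 0 ≤ T x y z q := fun x y z q => by
    simp only [T]; split_ifs <;> positivity
  have hn : (0 : ℝ) < 2 ^ M := by positivity
  have step : ∀ x ∈ F, ∀ y ∈ G, ∀ z ∈ H, (if x * y * z = 1 then f x * g y * h z else 0) ≤
      ((if z = (x * y)⁻¹ then g y ^ 2 / 2 ^ M else 0) +
        (if y = x⁻¹ * z⁻¹ then h z ^ 2 / 2 ^ M else 0)) + ∑ q ∈ I1 ×ˢ I2 ×ˢ J, T x y z q := by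
    intro x hx y hy z hz
    have s0 : 0 ≤ ∑ q ∈ I1 ×ˢ I2 ×ˢ J, T x y z q := Finset.sum_nonneg fun q _ => T0 _ _ _ _
    by_cases e : x * y * z = 1
    · have e1 : z = (x * y)⁻¹ := eq_inv_of_mul_eq_one_right e
      have e2 : y = x⁻¹ * z⁻¹ := by rw [e1]; group
      rw [if_pos e, if_pos e1, if_pos e2]
      have fx : f x ≤ 1 := by
        have := (Finset.single_le_sum (fun x _ => sq_nonneg (f x)) hx).trans f1
        nlinarith [f0 x]
      rcases pointwise M (f0 x) fx (g0 y) (h0 z) with k | ⟨a0, b0, c0, k1, k2, k3⟩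
      · rw [add_div] at k; linarith
      · have := Finset.single_le_sum (fun q _ => T0 x y z q)
          (show (Int.log 2 (f x), Int.log 2 (h z) - Int.log 2 (g y), Int.log 2 (g y)) ∈
            I1 ×ˢ I2 ×ˢ J from Finset.mem_product.mpr ⟨k1, Finset.mem_product.mpr
              ⟨k2, Finset.mem_image_of_mem _ hy⟩⟩)
        simp only [T, add_sub_cancel] at this
        rw [if_pos ⟨e, Finset.mem_filter.mpr ⟨hx, a0, rfl⟩, Finset.mem_filter.mpr ⟨hy, b0, rfl⟩,
          Finset.mem_filter.mpr ⟨hz, c0, rfl⟩⟩] at this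
        have : 0 ≤ g y ^ 2 / 2 ^ M + h z ^ 2 / 2 ^ M := by positivity
        linarith
    · rw [if_neg e]
      refine add_nonneg (add_nonneg ?_ ?_) s0 <;> split_ifs <;> positivity
  refine (Finset.sum_le_sum fun x hx => Finset.sum_le_sum fun y hy =>
    Finset.sum_le_sum fun z hz => step x hx y hy z hz).trans ?_
  simp only [Finset.sum_add_distrib]
  have easy : ∀ (G H : Finset Γ) (g : Γ → ℝ) (φ : Γ → Γ → Γ), ∑ x ∈ G, g x ^ 2 ≤ 1 →
      ∑ x ∈ F, ∑ y ∈ G, ∑ z ∈ H, (if z = φ x y then g y ^ 2 / 2 ^ M else 0) ≤ 1 := by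
    intro G H g φ g1
    calc _ ≤ ∑ x ∈ F, (1 : ℝ) / 2 ^ M := by
          refine Finset.sum_le_sum fun x _ => ?_
          calc _ ≤ ∑ y ∈ G, g y ^ 2 / 2 ^ M := by
                refine Finset.sum_le_sum fun y _ => ?_
                rw [Finset.sum_ite_eq']; split_ifs
                · exact le_rfl
                · positivity
            _ ≤ _ := by rw [← Finset.sum_div]; gcongr
      _ ≤ 1 := by
          rw [Finset.sum_const, nsmul_eq_mul, mul_one_div, div_le_one hn]; exact hF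
  have a1 := easy G H g (fun x y => (x * y)⁻¹) g1
  have a2 := easy H G h (fun x z => x⁻¹ * z⁻¹) h1
  have a2' : ∑ x ∈ F, ∑ y ∈ G, ∑ z ∈ H, (if y = x⁻¹ * z⁻¹ then h z ^ 2 / 2 ^ M else 0) ≤ 1 := by
    refine le_trans (le_of_eq (Finset.sum_congr rfl fun x _ => Finset.sum_comm)) a2
  have cnt : ∀ q : ℤ × ℤ × ℤ, ∑ x ∈ F, ∑ y ∈ G, ∑ z ∈ H, T x y z q ≤
      4 * p * ((2 ^ (q.2.2 + 0)) ^ 2 * (lev G g (q.2.2 + 0)).card +
        (2 ^ (q.2.2 + q.2.1)) ^ 2 * (lev H h (q.2.2 + q.2.1)).card) := by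
    rintro ⟨i, d, j⟩
    simp only [add_zero]
    have b := hT (lev F f i) (lev G g j) (lev H h (j + d)) (Finset.filter_subset _ _)
    have e : ∑ x ∈ F, ∑ y ∈ G, ∑ z ∈ H, T x y z (i, d, j) = 8 * (2 ^ i * 2 ^ j * 2 ^ (j + d)) *
        (((lev F f i ×ˢ lev G g j ×ˢ lev H h (j + d)).filter
          (fun t => t.1 * t.2.1 * t.2.2 = 1)).card : ℝ) := by
      have : (lev F f i ×ˢ lev G g j ×ˢ lev H h (j + d)).filter
          (fun t => t.1 * t.2.1 * t.2.2 = 1) = (F ×ˢ G ×ˢ H).filter fun t =>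
            t.1 * t.2.1 * t.2.2 = 1 ∧ t.1 ∈ lev F f i ∧ t.2.1 ∈ lev G g j ∧
              t.2.2 ∈ lev H h (j + d) := by
        ext t
        simp only [Finset.mem_filter, Finset.mem_product, lev]
        tauto
      rw [this, Finset.card_filter, Finset.sum_product]
      push_cast
      simp only [Finset.sum_product, Finset.mul_sum, T, mul_ite, mul_one, mul_zero]
    rw [e]
    have l1 := (lev_sum F f {i} 0).trans f1
    simp only [Finset.sum_singleton, add_zero] at l1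
    rw [Real.sqrt_mul (by positivity), Real.sqrt_mul (by positivity)] at b
    have sA := Real.sq_sqrt (Nat.cast_nonneg (α := ℝ) (lev F f i).card)
    have sB := Real.sq_sqrt (Nat.cast_nonneg (α := ℝ) (lev G g j).card)
    have sC := Real.sq_sqrt (Nat.cast_nonneg (α := ℝ) (lev H h (j + d)).card)
    set α := Real.sqrt (lev F f i).card
    set β := Real.sqrt (lev G g j).card
    set γ := Real.sqrt (lev H h (j + d)).card
    have hα : 0 ≤ α := Real.sqrt_nonneg _
    have hβ : 0 ≤ β := Real.sqrt_nonneg _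
    have hγ : 0 ≤ γ := Real.sqrt_nonneg _
    rw [← sA, ← mul_pow] at l1
    rw [← sB, ← sC, ← mul_pow, ← mul_pow]
    have l2 : 2 ^ i * α ≤ 1 := by
      have : 0 ≤ 2 ^ i * α := by positivity
      nlinarith
    calc _ ≤ 8 * (2 ^ i * 2 ^ j * 2 ^ (j + d)) * (p * (α * β * γ)) := by gcongr
      _ = 8 * p * ((2 ^ j * β) * (2 ^ (j + d) * γ)) * (2 ^ i * α) := by ring
      _ ≤ 8 * p * ((2 ^ j * β) * (2 ^ (j + d) * γ)) * 1 := by gcongr
      _ ≤ _ := by nlinarith [mul_nonneg hp (sq_nonneg (2 ^ j * β - 2 ^ (j + d) * γ))]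
  have a3 : ∑ x ∈ F, ∑ y ∈ G, ∑ z ∈ H, ∑ q ∈ I1 ×ˢ I2 ×ˢ J, T x y z q ≤
      8 * p * ((M + 1) * (2 * M + 1)) := by
    calc _ = ∑ q ∈ I1 ×ˢ I2 ×ˢ J, ∑ x ∈ F, ∑ y ∈ G, ∑ z ∈ H, T x y z q := by
          rw [Finset.sum_comm (s := I1 ×ˢ I2 ×ˢ J)]
          refine Finset.sum_congr rfl fun x _ => ?_
          rw [Finset.sum_comm (s := I1 ×ˢ I2 ×ˢ J)]
          refine Finset.sum_congr rfl fun y _ => Finset.sum_comm
      _ ≤ ∑ i ∈ I1, ∑ d ∈ I2, 8 * p := by
          refine (Finset.sum_le_sum fun q _ => cnt q).trans ?_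
          rw [Finset.sum_product]
          refine Finset.sum_le_sum fun i _ => ?_
          rw [Finset.sum_product]
          refine Finset.sum_le_sum fun d _ => ?_
          rw [← Finset.mul_sum, Finset.sum_add_distrib]
          have u := (lev_sum G g J 0).trans g1
          have v := (lev_sum H h J d).trans h1
          simp only
          nlinarith
      _ = _ := by
          simp only [Finset.sum_const, nsmul_eq_mul, I1, I2, Int.card_Icc]
          rw [show ((0 : ℤ) + 1 - -(M : ℤ)).toNat = M + 1 by omega,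
            show ((M : ℤ) + 1 - -(M : ℤ)).toNat = 2 * M + 1 by omega]
          push_cast; ring
  linarith

/-- For every finitely generated group, rapid decay (a polynomial P(r) bounds the trilinear convolution form for f supported in the r-ball) holds iff some polynomial P(r) bounds the number of abc=1 triples in A×B×C by P(r)√(∣A∣∣B∣∣C∣) when A lies in the r-ball. -/
theorem result :
    ∀ (Γ : Type) [Group Γ] [DecidableEq Γ] (S : Finset Γ),
      Subgroup.closure (S : Set Γ) = ⊤ →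
      ((∃ P : Polynomial ℝ, ∀ (r : ℕ) (F G H : Finset Γ) (f g h : Γ → ℂ),
          F ⊆ (insert 1 (S ∪ S⁻¹)) ^ r →
          ‖∑ x ∈ F, ∑ y ∈ G, ∑ z ∈ H, (if x * y * z = 1 then f x * g y * h z else 0)‖
            ≤ P.eval (r : ℝ) *
              (Real.sqrt (∑ x ∈ F, ‖f x‖ ^ 2) * Real.sqrt (∑ y ∈ G, ‖g y‖ ^ 2) *
                Real.sqrt (∑ z ∈ H, ‖h z‖ ^ 2)))
        ↔
       (∃ P : Polynomial ℝ, ∀ (r : ℕ) (A B C : Finset Γ),
          A ⊆ (insert 1 (S ∪ S⁻¹)) ^ r →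
          (((A ×ˢ B ×ˢ C).filter (fun t => t.1 * t.2.1 * t.2.2 = 1)).card : ℝ)
            ≤ P.eval (r : ℝ) * Real.sqrt ((A.card : ℝ) * B.card * C.card))) := by
  intro Γ _ _ S _
  constructor
  · rintro ⟨P, hP⟩
    refine ⟨P, fun r A B C hA => ?_⟩
    have := hP r A B C (fun _ => 1) (fun _ => 1) (fun _ => 1) hA
    simp only [norm_one, one_pow, Finset.sum_const, nsmul_eq_mul, mul_one] at this
    rw [Real.sqrt_mul (by positivity), Real.sqrt_mul (by positivity)]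
    refine le_trans (le_of_eq ?_) this
    rw [← Complex.norm_natCast, Finset.card_filter]
    push_cast
    simp only [Finset.sum_product]
  · rintro ⟨P, hP⟩
    set K := (insert 1 (S ∪ S⁻¹)).card with hK
    refine ⟨2 + 8 * (P ^ 2 + 1) * ((Polynomial.C (K : ℝ) * Polynomial.X + 1) *
      (2 * (Polynomial.C (K : ℝ) * Polynomial.X) + 1)), fun r F G H f g h hF => ?_⟩
    have hc : (F.card : ℝ) ≤ 2 ^ (K * r) := by
      have a := (Finset.card_le_card hF).trans Finset.card_pow_le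
      have b : K ^ r ≤ (2 ^ K) ^ r := Nat.pow_le_pow_left Nat.lt_two_pow_self.le r
      rw [pow_mul]
      exact_mod_cast a.trans b
    have nrm : ∀ (F : Finset Γ) (f : Γ → ℂ), ∃ u : Γ → ℝ, (∀ x, 0 ≤ u x) ∧
        ∑ x ∈ F, u x ^ 2 ≤ 1 ∧ ∀ x ∈ F, ‖f x‖ = Real.sqrt (∑ x ∈ F, ‖f x‖ ^ 2) * u x := by
      intro F f
      have s0 : 0 ≤ ∑ x ∈ F, ‖f x‖ ^ 2 := Finset.sum_nonneg fun _ _ => sq_nonneg _
      refine ⟨fun x => ‖f x‖ / Real.sqrt (∑ x ∈ F, ‖f x‖ ^ 2), fun x => by positivity, ?_,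
        fun x hx => ?_⟩
      · simp only [div_pow]
        rw [← Finset.sum_div, Real.sq_sqrt s0]
        exact div_self_le_one _
      · rcases s0.eq_or_lt with e | e
        · have := (Finset.sum_eq_zero_iff_of_nonneg fun _ _ => sq_nonneg _).mp e.symm x hx
          have : ‖f x‖ = 0 := by simpa using this
          simp [this]
        · have := Real.sqrt_pos.mpr e
          field_simp
    obtain ⟨u, u0, u1, u2⟩ := nrm F f
    obtain ⟨v, v0, v1, v2⟩ := nrm G g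
    obtain ⟨w, w0, w1, w2⟩ := nrm H h
    have c := core F G H u v w (P.eval (r : ℝ) ^ 2 + 1) (K * r) (by positivity) hc
      (fun A B C hA => (hP r A B C (hA.trans hF)).trans
        (mul_le_mul_of_nonneg_right (by nlinarith [sq_nonneg (P.eval (r : ℝ) - 1)])
          (Real.sqrt_nonneg _))) u0 v0 w0 u1 v1 w1
    set α := Real.sqrt (∑ x ∈ F, ‖f x‖ ^ 2)
    set β := Real.sqrt (∑ x ∈ G, ‖g x‖ ^ 2)
    set γ := Real.sqrt (∑ x ∈ H, ‖h x‖ ^ 2)
    have pos : 0 ≤ α * β * γ := by positivity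
    calc _ ≤ ∑ x ∈ F, ∑ y ∈ G, ∑ z ∈ H,
          (if x * y * z = 1 then u x * v y * w z else 0) * (α * β * γ) := by
          refine (norm_sum_le _ _).trans (Finset.sum_le_sum fun x hx => ?_)
          refine (norm_sum_le _ _).trans (Finset.sum_le_sum fun y hy => ?_)
          refine (norm_sum_le _ _).trans (Finset.sum_le_sum fun z hz => ?_)
          split_ifs
          · rw [norm_mul, norm_mul, u2 x hx, v2 y hy, w2 z hz]; exact le_of_eq (by ring)
          · simp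
      _ ≤ _ := by
          simp only [← Finset.sum_mul]
          refine mul_le_mul_of_nonneg_right (c.trans (le_of_eq ?_)) pos
          simp

end Pool.Agent.S04527
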