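import Pool.Statements.S04536
import Pool.Agent.Lib.helper31.ShiftC0

set_option autoImplicit false
open Pool Pool.MP_45d43b_an

namespace Pool.Agent.S04536


open Filter Topology
open Pool.Agent.H31.ShiftC0 (X mk mk_apply tends abs_le_norm norm_le)

/-- the sequence with a new first term -/
def cons' (a : ℝ) (x : X) : ℕ → ℝ
  | 0 => a
  | n + 1 => x n

lemma cons_tends (a : ℝ) (x : X) : Tendsto (cons' a x) atTop (𝓝 0) :=
  (tendsto_add_atTop_iff_nat 1).mp (tends x)

noncomputable def F (x : X) : X := mk _ (cons_tends (1 - ‖x‖) x)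

lemma F_zero (x : X) : F x 0 = 1 - ‖x‖ := rfl

lemma F_succ (x : X) (n : ℕ) : F x (n + 1) = x n := rfl

lemma F_lip : LipschitzWith 1 F := by
  refine LipschitzWith.of_dist_le_mul fun x y => ?_
  rw [dist_eq_norm, dist_eq_norm, NNReal.coe_one, one_mul]
  refine norm_le _ (norm_nonneg _) fun i => ?_
  cases i with
  | zero =>
    simp only [ZeroAtInftyContinuousMap.coe_sub, Pi.sub_apply, F_zero]
    have := abs_norm_sub_norm_le x y
    rw [abs_sub_comm] at this
    convert this using 2; ring
  | succ n =>
    simp only [ZeroAtInftyContinuousMap.coe_sub, Pi.sub_apply, F_succ]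
    exact abs_le_norm (x - y) n

lemma F_nofix (x : X) : F x ≠ x := by
  intro h
  have h1 : ∀ n, x n = x 0 := fun n => by
    induction n with
    | zero => rfl
    | succ n ih => rw [← ih, ← F_succ x n, h]
  have h2 : x 0 = 0 := by
    have := tends x
    rw [show (x : ℕ → ℝ) = fun _ => x 0 from funext h1] at this
    exact tendsto_nhds_unique tendsto_const_nhds this
  have h3 : x = 0 := by ext n; rw [h1, h2]; rfl
  have h4 := F_zero x
  rw [h, h2, h3] at h4
  simp at h4

/-- unit vectors -/
def e (n : ℕ) : X := mk (fun i => if i = n then 1 else 0) (by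
  refine tendsto_const_nhds.congr' ?_
  filter_upwards [eventually_gt_atTop n] with i hi
  simp [hi.ne'])

lemma e_apply (n i : ℕ) : e n i = if i = n then 1 else 0 := rfl

lemma norm_e (n : ℕ) : ‖e n‖ = 1 := by
  refine le_antisymm (norm_le _ zero_le_one fun i => ?_) ?_
  · rw [e_apply]; split_ifs <;> simp
  · have := abs_le_norm (e n) n
    simpa [e_apply] using this

lemma orbit (n : ℕ) : F^[n + 1] 0 = e n := by
  induction n with
  | zero =>
    ext i
    cases i with
    | zero => simp [F_zero, e_apply]
    | succ i => simp [F_succ, e_apply]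
  | succ n ih =>
    rw [Function.iterate_succ_apply', ih]
    ext i
    cases i with
    | zero => simp [F_zero, e_apply, norm_e]
    | succ i => simp [F_succ, e_apply]

lemma weak_null (f : X →L[ℝ] ℝ) : Tendsto (fun n => f (e n)) atTop (𝓝 0) := by
  have hs : Summable fun n => |f (e n)| := by
    refine summable_of_sum_le (c := ‖f‖) (fun n => abs_nonneg _) fun s => ?_
    have h1 : ∑ n ∈ s, |f (e n)| = f (∑ n ∈ s, (SignType.sign (f (e n)) : ℝ) • e n) := by
      rw [map_sum]
      refine Finset.sum_congr rfl fun n _ => ?_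
      rw [map_smul, smul_eq_mul, sign_mul_self]
    have h2 : ‖∑ n ∈ s, (SignType.sign (f (e n)) : ℝ) • e n‖ ≤ 1 := by
      refine norm_le _ zero_le_one fun i => ?_
      have h3 : (∑ n ∈ s, (SignType.sign (f (e n)) : ℝ) • e n) i =
          ∑ n ∈ s, (SignType.sign (f (e n)) : ℝ) * e n i := by
        clear h1
        induction s using Finset.induction_on with
        | empty => simp
        | insert a s ha ih => rw [Finset.sum_insert ha, Finset.sum_insert ha, ← ih]; simp
      rw [h3]
      simp only [e_apply, mul_ite, mul_one, mul_zero, Finset.sum_ite_eq]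
      split_ifs
      · rcases SignType.sign (f (e i)) with _ | _ | _ <;> simp
      · simp
    rw [h1]
    refine (le_abs_self _).trans ((f.le_opNorm _).trans ?_)
    exact mul_le_of_le_one_right (norm_nonneg _) h2
  exact (tendsto_zero_iff_abs_tendsto_zero _).mpr hs.tendsto_atTop_zero

lemma weak_tends : Tendsto (fun n => toWeakSpace ℝ X (e n)) atTop (𝓝 (toWeakSpace ℝ X 0)) := by
  refine (WeakBilin.tendsto_iff_forall_eval_tendsto (topDualPairing ℝ X).flip
    (separatingDual_iff_injective.mp inferInstance)).mpr fun f => ?_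
  have := weak_null f
  change Tendsto (fun n => f (e n)) atTop (𝓝 (f 0))
  rwa [map_zero]

/-- The negation of the preceding statement: In real c_0, if a commutative semigroup acts on a nonempty closed convex set C by nonexpansive maps and some orbit is relatively weakly compact, then some point of C is fixed by every map. -/
theorem result :
    ¬ (∀ (S : Type) [CommSemigroup S] (C : Set (ZeroAtInftyContinuousMap ℕ ℝ))
      (T : S → ZeroAtInftyContinuousMap ℕ ℝ → ZeroAtInftyContinuousMap ℕ ℝ),
      C.Nonempty → IsClosed C → Convex ℝ C →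
      (∀ s, Set.MapsTo (T s) C C) →
      (∀ s, LipschitzOnWith 1 (T s) C) →
      (∀ s t, ∀ x ∈ C, T (s * t) x = T s (T t x)) →
      (∃ c ∈ C, IsCompact (closure
        (toWeakSpace ℝ (ZeroAtInftyContinuousMap ℕ ℝ) '' Set.range (fun s => T s c)))) →
      ∃ x ∈ C, ∀ s, T s x = x) := by
  intro h
  obtain ⟨x, -, hx⟩ := h (Multiplicative ℕ) Set.univ (fun s => F^[Multiplicative.toAdd s])
    Set.univ_nonempty isClosed_univ convex_univ (fun _ => Set.mapsTo_univ _ _)
    (fun s => by simpa using F_lip.iterate (Multiplicative.toAdd s))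
    (fun s t x _ => by rw [toAdd_mul, Function.iterate_add_apply])
    ⟨0, Set.mem_univ _, weak_tends.isCompact_insert_range.closure_of_subset (by
      rintro _ ⟨_, ⟨s, rfl⟩, rfl⟩
      rcases hs : Multiplicative.toAdd s with _ | n
      · left; simp [hs]
      · right; exact ⟨n, by simp only [hs, orbit]⟩)⟩
  exact F_nofix x (hx (Multiplicative.ofAdd 1))

end Pool.Agent.S04536
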