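import Pool.Statements.S04563
import Pool.Agent.Lib.helper11.Surj

set_option autoImplicit false
open Pool Pool.MP_498e64_an

namespace Pool.Agent.S04563

/-- For every monoid M: if every finitely generated submonoid has all injective finite-alphabet cellular automata surjective, then every injective finite-alphabet cellular automaton over M itself is surjective. -/
theorem result :
    ∀ (M : Type) [Monoid M],
      (∀ N : Submonoid M, N.FG →
        ∀ (A : Type) [Fintype A] (S : Finset N) (μ : (↥S → A) → A),
          Function.Injective (fun (x : N → A) (m : N) => μ (fun s => x (s.1 * m))) →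
          Function.Surjective (fun (x : N → A) (m : N) => μ (fun s => x (s.1 * m)))) →
      ∀ (A : Type) [Fintype A] (S : Finset M) (μ : (↥S → A) → A),
        Function.Injective (fun (x : M → A) (m : M) => μ (fun s => x (s.1 * m))) →
        Function.Surjective (fun (x : M → A) (m : M) => μ (fun s => x (s.1 * m))) := by
  intro M _ H A _ S μ
  classical
  refine Surj.main (s := fun i : S => i.1) fun T => ⟨Submonoid.closure T, Submonoid.subset_closure,
    fun κ _ s f ν h => h.swap ?_⟩
  exact H _ ⟨T, rfl⟩ A (Finset.univ.image s) (fun g => μ fun i => g ⟨s i, by simp⟩)
    (Function.LeftInverse.injective h.left)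

end Pool.Agent.S04563
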