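import Pool.Statements.S04566
import Pool.Agent.Lib.helper31.Kit

set_option autoImplicit false
open Pool Pool.MP_4998f1_an

namespace Pool.Agent.S04566

/-- The negation of the preceding statement: For a closed commutative operator algebra A on a Banach space with ‖a²‖=‖a‖², and invertible U with UAU⁻¹=A, if periodic characters are meagre in the Shilov boundary, σ(U) lies in the unit circle, and A is inverse-closed, then σ(aU) on X equals the spectrum of b↦a·UbU⁻¹ on A. -/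
theorem result :
    ¬ (∀ (X : Type) [NormedAddCommGroup X] [NormedSpace ℂ X] [CompleteSpace X]
    (A : Subalgebra ℂ (X →L[ℂ] X)) (U : (X →L[ℂ] X)ˣ)
    (S : Set (WeakDual.characterSpace ℂ A)) (P : Set (WeakDual.characterSpace ℂ A)),
    IsClosed (A : Set (X →L[ℂ] X)) →
    (∀ a ∈ A, ∀ b ∈ A, a * b = b * a) →
    (∀ a ∈ A, ‖a * a‖ = ‖a‖ ^ 2) →
    (∀ a ∈ A, U.val * a * U.inv ∈ A) →
    (∀ a ∈ A, U.inv * a * U.val ∈ A) →
    S = ⋂₀ {K : Set (WeakDual.characterSpace ℂ A) | IsClosed K ∧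
          ∀ a : A, ∃ χ ∈ K, ∀ ψ : WeakDual.characterSpace ℂ A, ‖ψ a‖ ≤ ‖χ a‖} →
    P = {χ : WeakDual.characterSpace ℂ A | ∃ n : ℕ, 0 < n ∧
          ∀ (a : X →L[ℂ] X) (ha : a ∈ A) (b : X →L[ℂ] X) (hb : b ∈ A),
            b = (U ^ n).val * a * (U ^ n).inv → χ (⟨b, hb⟩ : A) = χ (⟨a, ha⟩ : A)} →
    IsMeagre {x : S | x.val ∈ P} →
    spectrum ℂ U.val ⊆ Metric.sphere (0 : ℂ) 1 →
    (∀ (a : X →L[ℂ] X) (ha : a ∈ A), IsUnit a → IsUnit (⟨a, ha⟩ : A)) →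
    ∀ a ∈ A, ∀ μ : ℂ,
      (μ ∈ spectrum ℂ (a * U.val) ↔
        ¬ ∀ c ∈ A, ∃! b, b ∈ A ∧ c = μ • b - a * (U.val * b * U.inv))) := by
  intro h
  have memL : ∀ {f : H31.Kit.X}, H31.Kit.Good f → H31.Kit.L f ∈ H31.Kit.A := fun hf => ⟨_, hf, rfl⟩
  have conj : ∀ s : ℝ, ∀ a ∈ H31.Kit.A, H31.Kit.V s * a * H31.Kit.V (-s) ∈ H31.Kit.A := by
    rintro s _ ⟨f, hf, rfl⟩
    exact H31.Kit.V_L s f ▸ memL (H31.Kit.W_good (Complex.norm_exp_ofReal_mul_I s) hf)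
  have := h H31.Kit.X H31.Kit.A H31.Kit.U _ _ H31.Kit.A_closed
    (by rintro _ ⟨f, -, rfl⟩ _ ⟨g, -, rfl⟩; exact H31.Kit.L_comm f g)
    (by rintro _ ⟨f, -, rfl⟩; exact H31.Kit.L_sq f)
    (fun a ha => by have := conj (-1) a ha; rwa [neg_neg] at this) (conj 1) rfl rfl H31.Kit.meagre H31.Kit.spec
    H31.Kit.inv_closed _ (memL H31.Kit.fa_good) (-1 / 2)
  refine this.2 (fun h1 => ?_) H31.Kit.unit
  obtain ⟨_, ⟨⟨f, -, rfl⟩, h2⟩, -⟩ := h1 1 (one_mem _)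
  exact H31.Kit.not_surj f h2

end Pool.Agent.S04566
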