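import Pool.Statements.S04606
import Pool.Agent.Lib.helper31.Sab

set_option autoImplicit false
open MeasureTheory
open Pool Pool.MP_4bee3f_an

namespace Pool.Agent.S04606

/-- The negation of the preceding statement: For all n≥2, k, open connected Ω⊆ℝⁿ, and linear elliptic systems with a locally Lipschitz a.e. solution u whose a.e. Jacobian equals a nonvanishing J: if A,B,c,J are C^{k,1} then u is C^{k+1,1}, and if A,B,c,J are C^{k+1} then u is C^{k+2}. -/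
theorem result :
    ¬ (∀ (n : ℕ), 2 ≤ n → ∀ (k : ℕ) (Ω : Set (EuclideanSpace ℝ (Fin n))), IsOpen Ω → IsConnected Ω →
  ∀ (A : Fin n → Fin n → Fin n → EuclideanSpace ℝ (Fin n) → ℝ)
    (B : Fin n → Fin n → EuclideanSpace ℝ (Fin n) → ℝ)
    (c : Fin n → EuclideanSpace ℝ (Fin n) → ℝ)
    (u : Fin n → EuclideanSpace ℝ (Fin n) → ℝ)
    (J : EuclideanSpace ℝ (Fin n) → ℝ),
  (∀ x ∈ Ω, ∀ ξ : Fin n → ℝ, ξ ≠ 0 →
      (Matrix.of fun i l => ∑ j, ξ j * A j i l x).det ≠ 0) →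
  (∀ i, ∀ x ∈ Ω, ∃ C : NNReal, ∃ U ∈ nhds x, LipschitzOnWith C (u i) (U ∩ Ω)) →
  (∀ᵐ x ∂(volume.restrict Ω), ∀ i,
      ∑ j, ∑ l, A j i l x * fderiv ℝ (u l) x (EuclideanSpace.single j 1)
        + ∑ l, B i l x * u l x = c i x) →
  (∀ x ∈ Ω, J x ≠ 0) →
  (∀ᵐ x ∂(volume.restrict Ω),
      (Matrix.of fun i j => fderiv ℝ (u i) x (EuclideanSpace.single j 1)).det = J x) →
  (((∀ j i l, ContDiffOn ℝ k (A j i l) Ω ∧ ∀ x ∈ Ω, ∃ C : NNReal, ∃ U ∈ nhds x,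
        LipschitzOnWith C (iteratedFDeriv ℝ k (A j i l)) (U ∩ Ω)) ∧
    (∀ i l, ContDiffOn ℝ k (B i l) Ω ∧ ∀ x ∈ Ω, ∃ C : NNReal, ∃ U ∈ nhds x,
        LipschitzOnWith C (iteratedFDeriv ℝ k (B i l)) (U ∩ Ω)) ∧
    (∀ i, ContDiffOn ℝ k (c i) Ω ∧ ∀ x ∈ Ω, ∃ C : NNReal, ∃ U ∈ nhds x,
        LipschitzOnWith C (iteratedFDeriv ℝ k (c i)) (U ∩ Ω)) ∧
    (ContDiffOn ℝ k J Ω ∧ ∀ x ∈ Ω, ∃ C : NNReal, ∃ U ∈ nhds x,
        LipschitzOnWith C (iteratedFDeriv ℝ k J) (U ∩ Ω)) →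
    ∀ i, ContDiffOn ℝ (k + 1) (u i) Ω ∧ ∀ x ∈ Ω, ∃ C : NNReal, ∃ U ∈ nhds x,
        LipschitzOnWith C (iteratedFDeriv ℝ (k + 1) (u i)) (U ∩ Ω)) ∧
   ((∀ j i l, ContDiffOn ℝ (k + 1) (A j i l) Ω) ∧
    (∀ i l, ContDiffOn ℝ (k + 1) (B i l) Ω) ∧
    (∀ i, ContDiffOn ℝ (k + 1) (c i) Ω) ∧
    ContDiffOn ℝ (k + 1) J Ω →
    ∀ i, ContDiffOn ℝ (k + 2) (u i) Ω))) := by
  intro H
  obtain ⟨K, hK⟩ := H31.Sab.J_lip
  have k0 : (0 : ℝ) < 1 / (K + 1) := by positivity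
  have k1 : (1 : ℝ) / (K + 1) ≤ 1 := div_le_one_of_le₀ (by simp) (by positivity)
  have z : (0 : H31.UCL.E) ∈ Metric.ball 0 (1 / (K + 1)) := Metric.mem_ball_self k0
  have ae : ∀ᵐ x ∂(volume.restrict (Metric.ball (0 : H31.UCL.E) (1 / (K + 1)))),
      H31.Sab.s x ≠ 0 := ae_restrict_of_ae ((Measure.ae_ne volume 0).mono fun x hx => by
    rw [H31.Sab.s_eq]; exact pow_ne_zero 2 (norm_ne_zero_iff.2 hx))
  refine (fun ⟨C, U, hU, h⟩ => H31.Sab.not_lip (Filter.inter_mem hU (Metric.ball_mem_nhds _ k0)) h :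
    (∃ C : NNReal, ∃ U ∈ nhds (0 : H31.UCL.E), LipschitzOnWith C (iteratedFDeriv ℝ 1 (H31.Sab.u 0))
      (U ∩ Metric.ball 0 (1 / (K + 1)))) → False) (((H 2 le_rfl 0 _ Metric.isOpen_ball ((convex_ball _ _).isConnected ⟨0, z⟩)
    (fun j i l _ => ![!![1, 0; 0, 1], !![0, -1; 1, 0]] j i l) (fun _ _ _ => 0) H31.Sab.c H31.Sab.u
    H31.Sab.J (fun x _ ξ h k => h ?_)
    (fun i x _ => (H31.Sab.u_lip i).imp fun _ k => ⟨Set.univ, Filter.univ_mem,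
      k.mono (Set.inter_subset_right.trans (Metric.ball_subset_ball k1))⟩)
    (ae.mono fun x hx i => ?_) (fun x hx k => ?_) (ae.mono fun x hx => ?_)).1
    ⟨fun _ _ _ => H31.Sab.it0 (H31.Sab.lip_c1 contDiff_const) k1,
      fun _ _ => H31.Sab.it0 (H31.Sab.lip_c1 contDiff_const) k1,
      fun i => H31.Sab.it0 (H31.Sab.c_lip i) k1, H31.Sab.it0 ⟨K, hK⟩ k1⟩ 0).2 0 z)
  · simp [Matrix.det_fin_two] at k
    funext i
    fin_cases i <;> simp <;> nlinarith [sq_nonneg (ξ 0), sq_nonneg (ξ 1)]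
  · obtain ⟨a1, a2, a3, a4⟩ := H31.Sab.du hx
    fin_cases i <;> simp [a1, a2, a3, a4, H31.Sab.c, H31.Sab.p, H31.Sab.p2] <;> ring
  · have a := hK.dist_le_mul x (Metric.ball_subset_ball k1 hx) 0 (Metric.mem_ball_self one_pos)
    have b := (lt_div_iff₀ (by positivity)).1 (Metric.mem_ball.1 hx)
    rw [k] at a
    simp [H31.Sab.J, H31.Sab.s] at a
    rw [dist_zero_right] at b
    linarith [norm_nonneg x]
  · obtain ⟨a1, a2, a3, a4⟩ := H31.Sab.du hx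
    simp only [Matrix.det_fin_two, Matrix.of_apply, a1, a2, a3, a4, H31.Sab.J, H31.Sab.p]
    generalize Real.log (H31.Sab.s x) = L
    field_simp
    simp only [H31.Sab.s]
    ring

end Pool.Agent.S04606
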