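import Pool.Statements.S04611
import Pool.Agent.Lib.helper18.Poch2

set_option autoImplicit false
open Pool Pool.MP_4c66eb_an

namespace Pool.Agent.S04611


theorem result :
    ∀ (n : ℕ) (f : ℕ → ℝ), f n ≠ 0 →
      (∀ z : ℂ, (∑ k ∈ Finset.range (n + 1), (f k : ℂ) * z ^ k) = 0 →
          z.im = 0 ∧ z.re < 0) →
      ∀ z ∈ (∑ k ∈ Finset.range (n + 1),
          Polynomial.C (((f k * f (n - k) * (n.choose k : ℝ)) : ℝ) : ℂ) *
            (ascPochhammer ℂ k * ascPochhammer ℂ (n - k) -
              (ascPochhammer ℂ k).comp (Polynomial.X + 1) *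
                (ascPochhammer ℂ (n - k)).comp (Polynomial.X - 1))).roots,
        z.im = 0 ∧ z.re < 0 := by
  intro n f hn hf z hz
  have h := H18Poch.main (n := n) (f := fun k => (f k : ℂ)) ⟨Complex.ofReal_ne_zero.2 hn, hf⟩
  rw [Polynomial.mem_roots'] at hz
  obtain ⟨h0, hz⟩ := hz
  have e : ∀ w : ℂ, Polynomial.eval w (∑ k ∈ Finset.range (n + 1),
          Polynomial.C (((f k * f (n - k) * (n.choose k : ℝ)) : ℝ) : ℂ) *
            (ascPochhammer ℂ k * ascPochhammer ℂ (n - k) -
              (ascPochhammer ℂ k).comp (Polynomial.X + 1) *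
                (ascPochhammer ℂ (n - k)).comp (Polynomial.X - 1))) =
      ∑ k ∈ Finset.range (n + 1), (f k : ℂ) * f (n - k) * n.choose k *
        (H18Poch.R k w * H18Poch.R (n - k) w - H18Poch.R k (w + 1) * H18Poch.R (n - k) (w - 1)) := by
    intro w
    simp [Polynomial.eval_finsetSum, Polynomial.eval_comp, H18Poch.poch]
  rcases h with h | h
  · exact absurd (Polynomial.funext fun w => by rw [e, Polynomial.eval_zero]; exact h w) h0
  · exact h z ((e z).symm.trans hz)

end Pool.Agent.S04611
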