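import Pool.Statements.S04636
import Pool.Agent.Lib.helper29.Spin2

set_option autoImplicit false
open Pool Pool.MP_4e7b39_an

namespace Pool.Agent.S04636

/-- The negation of the preceding statement: Every continuous map of the plane to itself equals a finite composition of continuous plane maps (f,g) in which both f and g, viewed as binary operations on the reals, are associative. -/
theorem result :
    ¬ (∀ T : ℝ × ℝ → ℝ × ℝ, Continuous T →
      ∃ L : List (ℝ × ℝ → ℝ × ℝ),
        (∀ S ∈ L, Continuous S ∧
          (∀ a b c : ℝ, (S ((S (a, b)).1, c)).1 = (S (a, (S (b, c)).1)).1) ∧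
          (∀ a b c : ℝ, (S ((S (a, b)).2, c)).2 = (S (a, (S (b, c)).2)).2)) ∧
        T = L.foldr (fun S R => S ∘ R) id) := by
  intro h
  refine Pool.Agent.Lib.H29.Spin.main fun T hT => ?_
  obtain ⟨L, hL, e⟩ := h T hT
  exact ⟨L, fun S hS => ⟨(hL S hS).1, (hL S hS).2.1⟩, e⟩

end Pool.Agent.S04636
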