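import Pool.Statements.S04656
import Pool.Agent.Lib.helper3.L2W

set_option autoImplicit false
open MeasureTheory
open Pool Pool.MP_50702e_an

namespace Pool.Agent.S04656

open Filter Topology
open scoped ComplexConjugate

noncomputable section

/-- If every operator commuting with `S` acts by scalars on a two-dimensional quotient, then `S`
is not a multiplication operator on `R²(K, μ)`. -/
lemma notModel {H : Type} [NormedAddCommGroup H] [InnerProductSpace ℂ H] (S : H →L[ℂ] H)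
    (α β : H →L[ℂ] ℂ) (x1 x2 : H) (h11 : α x1 = 1) (h12 : β x1 = 0) (h21 : α x2 = 0)
    (h22 : β x2 = 1)
    (hc : ∀ T : H →L[ℂ] H, (∀ x, T (S x) = S (T x)) →
      ∃ l : ℂ, ∀ x, α (T x) = l * α x ∧ β (T x) = l * β x)
    (μ : Measure ℂ) (K : Set ℂ) (R : Submodule ℂ (Lp ℂ 2 μ)) (φ : ℂ → ℂ) (U : H ≃ₗᵢ[ℂ] R)
    [IsFiniteMeasure μ] (hK : IsCompact K) (hμ : μ Kᶜ = 0)
    (hR : R = (Submodule.span ℂ
              {f : Lp ℂ 2 μ | ∃ p q : Polynomial ℂ, (∀ z ∈ K, q.eval z ≠ 0) ∧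
                (f : ℂ → ℂ) =ᵐ[μ] fun z => p.eval z / q.eval z}).topologicalClosure)
    (hU : ∀ x : H, ((U (S x) : Lp ℂ 2 μ) : ℂ → ℂ) =ᵐ[μ]
          fun z => φ z * ((U x : Lp ℂ 2 μ) : ℂ → ℂ) z) : False := by
  set G := {f : Lp ℂ 2 μ | ∃ p q : Polynomial ℂ, (∀ z ∈ K, q.eval z ≠ 0) ∧
                (f : ℂ → ℂ) =ᵐ[μ] fun z => p.eval z / q.eval z} with hG
  have hcl : IsClosed (R : Set (Lp ℂ 2 μ)) := hR ▸ Submodule.isClosed_topologicalClosure _
  have hGR : G ⊆ R := fun f hf =>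
    hR ▸ Submodule.le_topologicalClosure _ (Submodule.subset_span hf)
  have hind : ∀ W : Submodule ℂ (Lp ℂ 2 μ), IsClosed (W : Set (Lp ℂ 2 μ)) → G ⊆ W → R ≤ W :=
    fun W hW hGW => hR ▸ Submodule.topologicalClosure_minimal _ (Submodule.span_le.2 hGW) hW
  let o : Lp ℂ 2 μ := (memLp_const (1 : ℂ)).toLp _
  have ho : (o : ℂ → ℂ) =ᵐ[μ] fun _ => 1 := MemLp.coeFn_toLp _
  have hoG : o ∈ G := ⟨1, 1, by simp, by simpa using ho⟩
  let g : H := U.symm ⟨o, hGR hoG⟩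
  let ψ : H →L[ℂ] ℂ := β g • α - α g • β
  have key : ∀ f (hf : f ∈ G), ∃ l : ℂ, α (U.symm ⟨f, hGR hf⟩) = l * α g ∧
      β (U.symm ⟨f, hGR hf⟩) = l * β g := by
    rintro f ⟨p, q, hq, hf⟩
    have hb : MemLp (fun z => p.eval z / q.eval z) ⊤ μ := by
      obtain ⟨C, hC⟩ := hK.exists_bound_of_continuousOn
        (f := fun z => p.eval z / q.eval z)
        (p.continuous.continuousOn.div q.continuous.continuousOn hq)
      refine memLp_top_of_bound
        (p.continuous.measurable.div q.continuous.measurable).aestronglyMeasurable C ?_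
      have : ∀ᵐ z ∂μ, z ∈ K := hμ
      exact this.mono hC
    let M : Lp ℂ 2 μ →L[ℂ] Lp ℂ 2 μ := (ContinuousLinearMap.mul ℂ ℂ).holderL μ ⊤ 2 2 (hb.toLp _)
    have hM : ∀ h : Lp ℂ 2 μ, (M h : ℂ → ℂ) =ᵐ[μ] fun z => p.eval z / q.eval z * h z := by
      intro h
      have h1 := (ContinuousLinearMap.mul ℂ ℂ).coeFn_holder (r := 2) (hb.toLp _) h
      filter_upwards [h1, hb.coeFn_toLp] with z hz hz'
      exact hz.trans (by rw [hz']; rfl)
    have hMR : R ≤ R.comap (M : Lp ℂ 2 μ →ₗ[ℂ] Lp ℂ 2 μ) := by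
      refine hind _ (hcl.preimage M.continuous) ?_
      rintro h ⟨p', q', hq', hh⟩
      refine hGR ⟨p * p', q * q', fun z hz => ?_, ?_⟩
      · rw [Polynomial.eval_mul]; exact mul_ne_zero (hq z hz) (hq' z hz)
      · filter_upwards [hM h, hh] with z hz hz'
        refine hz.trans ?_
        rw [hz', Polynomial.eval_mul, Polynomial.eval_mul, div_mul_div_comm]
    let M' : R →L[ℂ] R := (M ∘L R.subtypeL).codRestrict R fun h => hMR h.2
    let T : H →L[ℂ] H := (U.symm : R →L[ℂ] H) ∘L M' ∘L (U : H →L[ℂ] R)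
    have hT : ∀ x, ((U (T x) : Lp ℂ 2 μ)) = M (U x) := fun x => by simp [T, M']
    obtain ⟨l, hl⟩ := hc T fun x => by
      apply U.injective
      apply Subtype.ext
      apply Lp.ext
      rw [hT]
      filter_upwards [hM (U (S x)), hU x, hU (T x), hM (U x)] with z h1 h2 h3 h4
      rw [h1, h2, h3, hT, h4]; ring
    have e : U.symm ⟨f, hGR ⟨p, q, hq, hf⟩⟩ = T g := by
      apply U.injective
      apply Subtype.ext
      apply Lp.ext
      rw [hT]
      simp only [g, LinearIsometryEquiv.apply_symm_apply]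
      filter_upwards [hM o, ho, hf] with z h1 h2 h3
      rw [h1, h2, h3, mul_one]
    rw [e]
    exact ⟨l, hl g⟩
  have all : ∀ χ : H →L[ℂ] ℂ, (∀ f (hf : f ∈ G), χ (U.symm ⟨f, hGR hf⟩) = 0) → ∀ x, χ x = 0 := by
    intro χ hχ x
    have : CompleteSpace R := hcl.completeSpace_coe
    let χ' : Lp ℂ 2 μ →L[ℂ] ℂ := χ ∘L (U.symm : R →L[ℂ] H) ∘L R.orthogonalProjectionOnto
    have h1 : ∀ y : R, χ' y = χ (U.symm y) := fun y => by simp [χ']
    have h2 : R ≤ LinearMap.ker (χ' : Lp ℂ 2 μ →ₗ[ℂ] ℂ) :=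
      hind _ χ'.isClosed_ker fun f hf => (h1 ⟨f, hGR hf⟩).trans (hχ f hf)
    have h3 : χ' (U x) = 0 := h2 (U x).2
    rwa [h1, U.symm_apply_apply] at h3
  have key' : ∀ f (hf : f ∈ G), ψ (U.symm ⟨f, hGR hf⟩) = 0 := fun f hf => by
    obtain ⟨l, h1, h2⟩ := key f hf
    simp only [ψ, _root_.sub_apply, _root_.smul_apply, h1, h2, smul_eq_mul]
    ring
  have h2 := all ψ key' x2
  simp only [ψ, _root_.sub_apply, _root_.smul_apply, h21, h22, smul_eq_mul, mul_one,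
    mul_zero, zero_sub, neg_eq_zero] at h2
  have h3 := all α (fun f hf => by
    obtain ⟨l, h1, _⟩ := key f hf
    rw [h1, h2, mul_zero]) x1
  rw [h11] at h3
  exact one_ne_zero h3

abbrev E := lp (fun _ : ℕ × ℤ => ℂ) 2

lemma hs (a : E) : HasSum (fun n => ‖a n‖ ^ 2) (‖a‖ ^ 2) := by
  have h1 := lp.hasSum_norm (p := 2) (by norm_num) a
  simpa only [ENNReal.toReal_ofNat, Real.rpow_two] using h1

def sq (j : ℕ) : ℝ := 4 ^ (j + 1)
def w (j : ℕ) : ℝ := Real.exp (-sq j)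
def r (j : ℕ) : ℝ := Real.exp (-(1 / 2 ^ j))
def nn (J : ℕ) : ℕ := 2 ^ J * (4 ^ (J + 1) + 2 * J)

lemma w_pos (j : ℕ) : 0 < w j := Real.exp_pos _
lemma r_pos (j : ℕ) : 0 < r j := Real.exp_pos _

lemma lin_le (j : ℕ) : 8 * (j : ℝ) ≤ sq j := by
  have : 2 * j < 2 ^ (2 * j) := Nat.lt_two_pow_self
  have h2 : ((2 * j : ℕ) : ℝ) ≤ ((2 ^ (2 * j) : ℕ) : ℝ) := by exact_mod_cast this.le
  push_cast at h2
  rw [sq, pow_succ, show (4 : ℝ) = 2 ^ 2 by norm_num, ← pow_mul]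
  linarith

lemma dom (J j : ℕ) (h : j ≠ J) :
    w j * r j ^ nn J ≤ w J * r J ^ nn J * Real.exp (-J) * Real.exp (-j) := by
  simp only [w, r, ← Real.exp_nat_mul, ← Real.exp_add]
  refine Real.exp_le_exp.2 ?_
  have e : (nn J : ℝ) = 2 ^ J * (sq J + 2 * J) := by simp [nn, sq]
  have e1 : (nn J : ℝ) * -(1 / 2 ^ J) = -(sq J + 2 * J) := by rw [e]; field_simp
  rw [e1]
  have hJ := lin_le J
  have hj := lin_le j
  have hJ0 : (0 : ℝ) ≤ J := Nat.cast_nonneg _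
  have hj0 : (0 : ℝ) ≤ j := Nat.cast_nonneg _
  rcases lt_or_gt_of_ne h with h | h
  · obtain ⟨d, rfl⟩ := Nat.exists_eq_add_of_lt h
    have e2 : (nn (j + d + 1) : ℝ) * -(1 / 2 ^ j) =
        -(2 ^ d * (2 * (sq (j + d + 1) + 2 * (j + d + 1 : ℕ)))) := by
      rw [e]; field_simp; ring
    rw [e2]
    have h1 : (1 : ℝ) ≤ 2 ^ d := one_le_pow₀ (by norm_num)
    have h2 : (j : ℝ) ≤ (j + d + 1 : ℕ) := by exact_mod_cast h.le
    nlinarith
  · have h1 : 4 * sq J ≤ sq j := by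
      rw [sq, sq, ← pow_succ']
      exact pow_le_pow_right₀ (by norm_num) (by omega)
    have h2 : (J : ℝ) ≤ j := by exact_mod_cast h.le
    have h3 : (nn J : ℝ) * -(1 / 2 ^ j) ≤ 0 :=
      mul_nonpos_of_nonneg_of_nonpos (Nat.cast_nonneg _) (neg_nonpos.2 (by positivity))
    linarith

lemma geo : HasSum (fun j : ℕ => Real.exp (-j) ^ 2) (1 - Real.exp (-2))⁻¹ := by
  have h := hasSum_geometric_of_lt_one (Real.exp_pos (-2)).le
    (Real.exp_lt_one_iff.2 (by norm_num))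
  have e : (fun j : ℕ => Real.exp (-j) ^ 2) = fun j : ℕ => Real.exp (-2) ^ j := by
    funext j; rw [← Real.exp_nat_mul, ← Real.exp_nat_mul]; congr 1; push_cast; ring
  rwa [e]

lemma inj (n : ℤ) : Function.Injective fun j : ℕ => (j, n) := fun _ _ h => congrArg Prod.fst h

lemma off {n : ℤ} {x : ℕ × ℤ} (hx : x ∉ Set.range fun j : ℕ => (j, n)) : x.2 ≠ n :=
  fun h => hx ⟨x.1, by rw [← h]⟩

def g0 : E := ⟨fun x => if x.2 = 0 then (w x.1 : ℂ) else 0, by
  refine memℓp_gen ?_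
  simp only [ENNReal.toReal_ofNat, Real.rpow_two]
  refine ((inj 0).summable_iff fun x hx => by simp [off hx]).1 ?_
  refine Summable.of_nonneg_of_le (fun j => sq_nonneg _) (fun j => ?_) geo.summable
  simp only [Function.comp, if_true, Complex.norm_real, Real.norm_eq_abs, abs_of_pos (w_pos j)]
  refine pow_le_pow_left₀ (w_pos j).le (Real.exp_le_exp.2 ?_) 2
  have := lin_le j
  have hj0 : (0 : ℝ) ≤ j := Nat.cast_nonneg _
  linarith⟩

section main
variable {N : E →L[ℂ] E} (hN : ∀ f x, N f x = (r x.1 : ℂ) * f (x.1, x.2 - 1))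
include hN

lemma N_pow (n : ℕ) : ∀ (f : E) (x : ℕ × ℤ), (N ^ n) f x = (r x.1 : ℂ) ^ n * f (x.1, x.2 - n) := by
  induction n with
  | zero => intro f x; simp
  | succ n ih =>
    intro f x
    rw [pow_succ', mul_apply_eq_comp, hN, ih, pow_succ', mul_assoc, sub_sub, add_comm 1]
    push_cast; rfl

lemma rigid (x y : E) (u v : ℕ → ℂ) (M C : ℝ) (hM : 0 ≤ M) (hC : 0 ≤ C) (hu : ∀ j, ‖u j‖ ≤ M)
    (hx : ∀ z, x z = u z.1 * g0 z) (hy : ∀ j, y (j, 0) = v j * w j)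
    (h : ∀ n : ℕ, ‖(N ^ n) y‖ ≤ C * ‖(N ^ n) x‖) (J : ℕ) (hJ : u J = 0) :
    ‖v J‖ ^ 2 ≤ C ^ 2 * M ^ 2 * (1 - Real.exp (-2))⁻¹ * Real.exp (-J) ^ 2 := by
  set n := nn J with hn
  have hA : 0 < w J * r J ^ n := mul_pos (w_pos J) (pow_pos (r_pos J) _)
  have h1 : w J * r J ^ n * ‖v J‖ ≤ ‖(N ^ n) y‖ := by
    have := lp.norm_apply_le_norm (p := 2) (by norm_num) ((N ^ n) y) (J, (n : ℤ))
    rw [N_pow hN, sub_self, hy, norm_mul, norm_mul, norm_pow, Complex.norm_real,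
      Complex.norm_real, Real.norm_eq_abs, Real.norm_eq_abs, abs_of_pos (r_pos J),
      abs_of_pos (w_pos J)] at this
    linarith
  have h2 : ‖(N ^ n) x‖ ^ 2 ≤ (M * (w J * r J ^ n * Real.exp (-J))) ^ 2 * (1 - Real.exp (-2))⁻¹ := by
    have h3 := ((inj n).hasSum_iff (f := fun z => ‖(N ^ n) x z‖ ^ 2) fun z hz => by
      have : z.2 - n ≠ 0 := sub_ne_zero.2 (off hz)
      rw [N_pow hN, hx]; simp [g0, this]).2 (hs ((N ^ n) x))
    refine hasSum_le (fun j => ?_) h3 (geo.mul_left _)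
    simp only [Function.comp]
    rw [← mul_pow]
    refine pow_le_pow_left₀ (norm_nonneg _) ?_ 2
    by_cases hj : j = J
    · rw [N_pow hN, hx, hj, hJ, zero_mul, mul_zero, norm_zero]; positivity
    · have e : g0 (j, (n : ℤ) - n) = w j := by simp [g0]
      rw [N_pow hN, hx, e, norm_mul, norm_mul, norm_pow, Complex.norm_real,
        Complex.norm_real, Real.norm_eq_abs, Real.norm_eq_abs, abs_of_pos (r_pos j),
        abs_of_pos (w_pos j)]
      have h4 := mul_le_mul (hu j) (dom J j hj)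
        (mul_pos (w_pos j) (pow_pos (r_pos j) _)).le hM
      rw [← hn] at h4
      linarith
  have h5 := pow_le_pow_left₀ (by positivity) (h1.trans (h n)) 2
  rw [mul_pow C] at h5
  have h6 := h5.trans (mul_le_mul_of_nonneg_left h2 (sq_nonneg C))
  refine le_of_mul_le_mul_left (a := (w J * r J ^ n) ^ 2) ?_ (by positivity)
  calc _ = (w J * r J ^ n * ‖v J‖) ^ 2 := by ring
    _ ≤ _ := h6
    _ = _ := by ring

lemma rigid' (x y : E) (u v : ℕ → ℂ) (M C : ℝ) (hM : 0 ≤ M) (hC : 0 ≤ C) (hu : ∀ j, ‖u j‖ ≤ M)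
    (hx : ∀ z, x z = u z.1 * g0 z) (hy : ∀ j, y (j, 0) = v j * w j)
    (h : ∀ n : ℕ, ‖(N ^ n) y‖ ≤ C * ‖(N ^ n) x‖) (t : ℕ) (c : ℂ) (hJ : ∀ i, u (3 * i + t) = 0)
    (hv : ∀ i, v (3 * i + t) = c) : c = 0 := by
  have h1 : Tendsto (fun i : ℕ => C ^ 2 * M ^ 2 * (1 - Real.exp (-2))⁻¹ *
      Real.exp (-(3 * i + t : ℕ)) ^ 2) atTop (𝓝 0) := by
    have h2 : Tendsto (fun i : ℕ => 3 * i + t) atTop atTop :=
      tendsto_atTop_mono (fun i => by simp only [id]; omega) tendsto_id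
    simpa using (geo.summable.tendsto_atTop_zero.comp h2).const_mul
      (C ^ 2 * M ^ 2 * (1 - Real.exp (-2))⁻¹)
  have h3 : ‖c‖ ^ 2 ≤ 0 := ge_of_tendsto' h1 fun i => by
    have := rigid hN x y u v M C hM hC hu hx hy h _ (hJ i)
    rwa [hv] at this
  simpa using h3

end main

def v1 (j : ℕ) : ℂ := if j % 3 = 1 then 0 else 1
def v2 (j : ℕ) : ℂ := if j % 3 = 0 then 0 else 1

def co (x : ℕ × ℤ) : E →L[ℂ] ℂ := innerSL ℂ (lp.single 2 x (1 : ℂ) : E)

lemma co_apply (x : ℕ × ℤ) (a : E) : co x a = a x := by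
  simp only [co, innerSL_apply_apply]
  rw [lp.inner_single_left]; simp

lemma normal : ∃ N : E →L[ℂ] E, IsStarNormal N ∧
    ∀ f x, N f x = (r x.1 : ℂ) * f (x.1, x.2 - 1) := by
  have hr : ∀ x : ℕ × ℤ, ‖(r x.1 : ℂ)‖ ≤ 1 := fun x => by
    rw [Complex.norm_real, Real.norm_eq_abs, abs_of_pos (r_pos _)]
    exact Real.exp_le_one_iff.2 (neg_nonpos.2 (by positivity))
  let σ : ℕ × ℤ ≃ ℕ × ℤ := (Equiv.refl ℕ).prodCongr (Equiv.addRight 1)
  obtain ⟨N, hN, -⟩ := Pool.Agent.Lib.H3L2W.exists_wcomp (fun x : ℕ × ℤ => (r x.1 : ℂ))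
    σ.symm σ.symm.injective 1 zero_le_one hr
  obtain ⟨M, hM, -⟩ := Pool.Agent.Lib.H3L2W.exists_wcomp (fun x : ℕ × ℤ => (r x.1 : ℂ))
    σ σ.injective 1 zero_le_one hr
  have h1 : ∀ x, (σ x).1 = x.1 := fun x => rfl
  have h2 : ∀ x, (σ.symm x).1 = x.1 := fun x => rfl
  have hadj : M = ContinuousLinearMap.adjoint N := by
    rw [ContinuousLinearMap.eq_adjoint_iff]
    intro f g
    rw [lp.inner_eq_tsum, lp.inner_eq_tsum, ← σ.symm.tsum_eq]
    refine tsum_congr fun x => ?_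
    rw [hM, hN, σ.apply_symm_apply, h2]
    simp only [RCLike.inner_apply, map_mul, Complex.conj_ofReal]
    ring
  refine ⟨N, ⟨?_⟩, fun f x => ?_⟩
  · rw [ContinuousLinearMap.star_eq_adjoint, ← hadj]
    ext f x
    simp only [mul_apply_eq_comp, hM, hN, h1, h2, σ.apply_symm_apply, σ.symm_apply_apply]
  · rw [hN]; rfl

lemma all (G : Set E) (χ : (Submodule.span ℂ G).topologicalClosure →L[ℂ] ℂ)
    (h : ∀ f : (Submodule.span ℂ G).topologicalClosure, f.1 ∈ G → χ f = 0) (x) : χ x = 0 := by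
  let χ' : E →L[ℂ] ℂ := χ ∘L (Submodule.span ℂ G).topologicalClosure.orthogonalProjectionOnto
  have h1 : ∀ y : (Submodule.span ℂ G).topologicalClosure, χ' y = χ y := fun y => by simp [χ']
  have h2 : (Submodule.span ℂ G).topologicalClosure ≤ LinearMap.ker (χ' : E →ₗ[ℂ] ℂ) :=
    Submodule.topologicalClosure_minimal _ (Submodule.span_le.2 fun f hf =>
      (h1 ⟨f, Submodule.le_topologicalClosure _ (Submodule.subset_span hf)⟩).trans (h _ hf))
      χ'.isClosed_ker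
  exact (h1 x).symm.trans (h2 x.2)

lemma commutant {N : E →L[ℂ] E} (hN : ∀ f x, N f x = (r x.1 : ℂ) * f (x.1, x.2 - 1))
    (f1 f2 : E) (hf1 : ∀ z, f1 z = v1 z.1 * g0 z) (hf2 : ∀ z, f2 z = v2 z.1 * g0 z)
    (R : Submodule ℂ E)
    (hall : ∀ χ : R →L[ℂ] ℂ, (∀ f : R, (∃ n : ℕ, f.1 = (N ^ n) f1 ∨ f.1 = (N ^ n) f2) → χ f = 0) →
      ∀ x, χ x = 0) (x1 x2 : R) (hx1 : x1.1 = f1) (hx2 : x2.1 = f2)
    (S : R →L[ℂ] R) (hS : ∀ x, (S x).1 = N x.1) :
    ∃ α β : R →L[ℂ] ℂ, α x1 = 1 ∧ β x1 = 0 ∧ α x2 = 0 ∧ β x2 = 1 ∧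
      ∀ T : R →L[ℂ] R, (∀ x, T (S x) = S (T x)) →
        ∃ l : ℂ, ∀ x, α (T x) = l * α x ∧ β (T x) = l * β x := by
  let c : ℕ × ℤ → R →L[ℂ] ℂ := fun z => co z ∘L R.subtypeL
  have hc : ∀ z x, c z x = x.1 z := fun z x => co_apply z _
  let α : R →L[ℂ] ℂ := (w 0 : ℂ)⁻¹ • c (0, 0)
  let β : R →L[ℂ] ℂ := (w 1 : ℂ)⁻¹ • c (1, 0)
  have hα : ∀ x, α x = (w 0 : ℂ)⁻¹ * x.1 (0, 0) := fun x => by simp [α, hc]
  have hβ : ∀ x, β x = (w 1 : ℂ)⁻¹ * x.1 (1, 0) := fun x => by simp [β, hc]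
  have hw : ∀ j, (w j : ℂ) ≠ 0 := fun j => by exact_mod_cast (w_pos j).ne'
  have hg : ∀ j, g0 (j, 0) = w j := fun j => by simp [g0]
  have hg' : ∀ j k, k ≠ 0 → g0 (j, k) = 0 := fun j k hk => by simp [g0, hk]
  have h11 : α x1 = 1 := by rw [hα, hx1, hf1, hg]; simp [v1, hw]
  have h12 : β x1 = 0 := by rw [hβ, hx1, hf1, hg]; simp [v1]
  have h21 : α x2 = 0 := by rw [hα, hx2, hf2, hg]; simp [v2]
  have h22 : β x2 = 1 := by rw [hβ, hx2, hf2, hg]; simp [v2, hw]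
  have ha : ∀ (x : R) (j : ℕ), x.1 (j, -1) = 0 := fun x j => by
    rw [← hc]
    refine hall _ (fun f ⟨n, hf⟩ => ?_) x
    have : (-1 : ℤ) - n ≠ 0 := by omega
    rcases hf with hf | hf
    · rw [hc, hf, N_pow hN, hf1, hg' _ _ this]; simp
    · rw [hc, hf, N_pow hN, hf2, hg' _ _ this]; simp
  have hS0 : ∀ (x : R) (j : ℕ), (S x).1 (j, 0) = 0 := fun x j => by
    rw [hS, hN, zero_sub, ha, mul_zero]
  have hSn : ∀ (n : ℕ) (x : R), ((S ^ n) x).1 = (N ^ n) x.1 := by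
    intro n
    induction n with
    | zero => intro x; rfl
    | succ n ih => intro x; rw [pow_succ', pow_succ', mul_apply_eq_comp, mul_apply_eq_comp, hS, ih]
  have hall' : ∀ χ : R →L[ℂ] ℂ, χ x1 = 0 → χ x2 = 0 → (∀ x, χ (S x) = 0) → ∀ x, χ x = 0 := by
    intro χ h1 h2 h3
    refine hall χ fun f ⟨n, hf⟩ => ?_
    rw [← hx1, ← hx2, ← hSn, ← hSn] at hf
    rcases hf with hf | hf <;> rw [Subtype.ext hf] <;> rcases n with _ | n
    · exact h1
    · rw [pow_succ', mul_apply_eq_comp, h3]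
    · exact h2
    · rw [pow_succ', mul_apply_eq_comp, h3]
  have hαS : ∀ x, α (S x) = 0 := fun x => by rw [hα, hS0, mul_zero]
  have hβS : ∀ x, β (S x) = 0 := fun x => by rw [hβ, hS0, mul_zero]
  have hb : ∀ (x : R) (j : ℕ), x.1 (j, 0) = (α x * v1 j + β x * v2 j) * w j := fun x j => by
    have := hall' (c (j, 0) - (v1 j * w j) • α - (v2 j * w j) • β) ?_ ?_ ?_ x
    · simp only [_root_.sub_apply, _root_.smul_apply, hc, smul_eq_mul] at this
      linear_combination this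
    · simp only [_root_.sub_apply, _root_.smul_apply, hc, smul_eq_mul, h11, h12, hx1, hf1, hg]
      ring
    · simp only [_root_.sub_apply, _root_.smul_apply, hc, smul_eq_mul, h21, h22, hx2, hf2, hg]
      ring
    · intro x
      simp only [_root_.sub_apply, _root_.smul_apply, hc, smul_eq_mul, hαS, hβS, hS0]
      ring
  refine ⟨α, β, h11, h12, h21, h22, fun T hT => ?_⟩
  have hTn : ∀ (n : ℕ) (x : R), T ((S ^ n) x) = (S ^ n) (T x) := by
    intro n
    induction n with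
    | zero => intro x; rfl
    | succ n ih => intro x; rw [pow_succ', mul_apply_eq_comp, mul_apply_eq_comp, hT, ih]
  have hn : ∀ (x : R) (n : ℕ), ‖(N ^ n) (T x).1‖ ≤ ‖T‖ * ‖(N ^ n) x.1‖ := fun x n => by
    rw [← hSn, ← hSn, ← hTn]
    exact T.le_opNorm _
  have hv1 : ∀ j, ‖v1 j‖ ≤ 1 := fun j => by unfold v1; split_ifs <;> simp
  have hv2 : ∀ j, ‖v2 j‖ ≤ 1 := fun j => by unfold v2; split_ifs <;> simp
  have e1 : α (T x2) = 0 :=
    rigid' hN x2.1 (T x2).1 v2 _ 1 ‖T‖ zero_le_one T.opNorm_nonneg hv2 (by rw [hx2]; exact hf2)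
      (hb _) (hn _) 0 _ (fun i => by simp [v2]) (fun i => by simp [v1, v2])
  have e2 : β (T x1) = 0 :=
    rigid' hN x1.1 (T x1).1 v1 _ 1 ‖T‖ zero_le_one T.opNorm_nonneg hv1 (by rw [hx1]; exact hf1)
      (hb _) (hn _) 1 _ (fun i => by simp [v1]) (fun i => by simp [v1, v2])
  have e3 : α (T (x1 - x2)) + β (T (x1 - x2)) = 0 :=
    rigid' hN (x1 - x2).1 (T (x1 - x2)).1 (fun j => v1 j - v2 j) _ 2 ‖T‖ zero_le_two T.opNorm_nonneg
      (fun j => (norm_sub_le _ _).trans (by linarith [hv1 j, hv2 j]))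
      (fun z => by
        rw [Submodule.coe_sub, lp.coeFn_sub, Pi.sub_apply, hx1, hx2, hf1, hf2, sub_mul])
      (hb _) (hn _) 2 _ (fun i => by simp [v1, v2]) (fun i => by simp [v1, v2])
  simp only [map_sub, e1, e2, sub_zero, zero_sub] at e3
  refine ⟨α (T x1), fun x => ⟨?_, ?_⟩⟩
  · have := hall' (α ∘L T - α (T x1) • α) (by simp [h11]) (by simp [h21, e1])
      (fun x => by simp [hT, hαS]) x
    simpa [sub_eq_zero] using this
  · have := hall' (β ∘L T - α (T x1) • β) (by simp [h12, e2])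
      (by simp only [_root_.sub_apply, _root_.smul_apply, ContinuousLinearMap.comp_apply, h22,
            smul_eq_mul]
          linear_combination -e3)
      (fun x => by simp [hT, hβS]) x
    simpa [sub_eq_zero] using this

end

/-- The negation of the preceding statement: Every subnormal operator on a separable complex Hilbert space is unitarily equivalent to multiplication by a bounded φ in R²(K,μ) on R²(K,μ), for some finite compactly supported μ and compact K containing its support. -/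
theorem result :
    ¬ (∀ (H : Type) [NormedAddCommGroup H] [InnerProductSpace ℂ H] [CompleteSpace H]
      [TopologicalSpace.SeparableSpace H] (S : H →L[ℂ] H),
      (∃ (E : Type) (_ : NormedAddCommGroup E) (_ : InnerProductSpace ℂ E) (_ : CompleteSpace E)
          (V : H →ₗᵢ[ℂ] E) (N : E →L[ℂ] E),
          IsStarNormal N ∧ N.comp V.toContinuousLinearMap = V.toContinuousLinearMap.comp S) →
      ∃ (μ : Measure ℂ) (K : Set ℂ) (R : Submodule ℂ (Lp ℂ 2 μ)) (φ : ℂ → ℂ) (U : H ≃ₗᵢ[ℂ] R),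
        IsFiniteMeasure μ ∧ IsCompact K ∧ μ Kᶜ = 0 ∧
        R = (Submodule.span ℂ
              {f : Lp ℂ 2 μ | ∃ p q : Polynomial ℂ, (∀ z ∈ K, q.eval z ≠ 0) ∧
                (f : ℂ → ℂ) =ᵐ[μ] fun z => p.eval z / q.eval z}).topologicalClosure ∧
        MemLp φ ⊤ μ ∧ (∃ f ∈ R, (f : ℂ → ℂ) =ᵐ[μ] φ) ∧
        ∀ x : H, ((U (S x) : Lp ℂ 2 μ) : ℂ → ℂ) =ᵐ[μ]
          fun z => φ z * ((U x : Lp ℂ 2 μ) : ℂ → ℂ) z) := by
  intro h
  obtain ⟨N, hNn, hN⟩ := normal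
  obtain ⟨D1, hD1, -⟩ := Pool.Agent.Lib.H3L2W.exists_wcomp (fun x : ℕ × ℤ => v1 x.1)
    id Function.injective_id 1 zero_le_one fun x => by unfold v1; split_ifs <;> simp
  obtain ⟨D2, hD2, -⟩ := Pool.Agent.Lib.H3L2W.exists_wcomp (fun x : ℕ × ℤ => v2 x.1)
    id Function.injective_id 1 zero_le_one fun x => by unfold v2; split_ifs <;> simp
  let G : Set E := Set.range (fun n : ℕ => (N ^ n) (D1 g0)) ∪ Set.range fun n : ℕ => (N ^ n) (D2 g0)
  let R := (Submodule.span ℂ G).topologicalClosure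
  have hcl : IsClosed (R : Set E) := Submodule.isClosed_topologicalClosure _
  have hGR : G ⊆ R := fun f hf => Submodule.le_topologicalClosure _ (Submodule.subset_span hf)
  have hNR : R ≤ R.comap (N : E →ₗ[ℂ] E) := by
    refine Submodule.topologicalClosure_minimal _ (Submodule.span_le.2 ?_)
      (hcl.preimage N.continuous)
    rintro _ (⟨n, rfl⟩ | ⟨n, rfl⟩)
    · exact hGR (Or.inl ⟨n + 1, by simp only [pow_succ', mul_apply_eq_comp]; rfl⟩)
    · exact hGR (Or.inr ⟨n + 1, by simp only [pow_succ', mul_apply_eq_comp]; rfl⟩)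
  let S : R →L[ℂ] R := (N ∘L R.subtypeL).codRestrict R fun x => hNR x.2
  have hsep : TopologicalSpace.IsSeparable (R : Set E) :=
    (((Set.countable_range _).union (Set.countable_range _)).isSeparable.span (R := ℂ)).closure
  have := hsep.separableSpace
  obtain ⟨μ, K, R', φ, U, hμ, hK, hμK, hR', -, -, hU⟩ := h R S
    ⟨E, inferInstance, inferInstance, inferInstance, R.subtypeₗᵢ, N, hNn, by ext1 x; rfl⟩
  obtain ⟨α, β, h11, h12, h21, h22, hc⟩ := commutant hN (D1 g0) (D2 g0) (hD1 _) (hD2 _) R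
    (fun χ hχ => all G χ fun f hf => hχ f (by
      rcases hf with ⟨n, hn⟩ | ⟨n, hn⟩
      · exact ⟨n, Or.inl hn.symm⟩
      · exact ⟨n, Or.inr hn.symm⟩))
    ⟨_, hGR (Or.inl ⟨0, rfl⟩)⟩ ⟨_, hGR (Or.inr ⟨0, rfl⟩)⟩ rfl rfl S fun x => rfl
  exact notModel S α β _ _ h11 h12 h21 h22 hc μ K R' φ U hK hμK hR' hU

end Pool.Agent.S04656
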