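import Pool.Statements.S04674

set_option autoImplicit false
open Pool Pool.MP_51da40_an

namespace Pool.Agent.S04674

open Real in
noncomputable def pz (η a : ℝ) : ℂ :=
  ((sin a / sin (a + (a / 4 + η)) : ℝ) : ℂ) * Complex.exp (((a / 4 + η : ℝ) : ℂ) * Complex.I)

open Real in
noncomputable def pt (η a : ℝ) : ℝ :=
  (sin a / sin (a + (a / 4 + η))) ^ 4 * (sin (a / 4 + η) / sin (a + (a / 4 + η)))

open Real in
lemma S_pos {η a : ℝ} (h1 : π / 120 ≤ η) (h2 : η ≤ π / 60) (h3 : 0 ≤ a) (h4 : a ≤ π / 2) :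
    0 < sin (a + (a / 4 + η)) := by
  have := pi_pos
  apply sin_pos_of_pos_of_lt_pi <;> linarith

open Real in
lemma U_eq {η a : ℝ} (hS : sin (a + (a / 4 + η)) ≠ 0) :
    pz η a ^ 4 * (1 - pz η a) = (pt η a : ℂ) * Complex.exp (((4 * η : ℝ) : ℂ) * Complex.I) := by
  have h1 : 1 - pz η a = ((sin (a / 4 + η) / sin (a + (a / 4 + η)) : ℝ) : ℂ) *
      Complex.exp (((-a : ℝ) : ℂ) * Complex.I) := by
    unfold pz
    set b := a / 4 + η
    apply Complex.ext
    · simp only [Complex.sub_re, Complex.one_re, Complex.re_ofReal_mul,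
        Complex.exp_ofReal_mul_I_re, cos_neg]
      field_simp
      rw [sin_add]; ring
    · simp only [Complex.sub_im, Complex.one_im, Complex.im_ofReal_mul,
        Complex.exp_ofReal_mul_I_im, sin_neg]
      field_simp
      ring
  rw [h1]
  unfold pz pt
  rw [mul_pow, ← Complex.exp_nat_mul]
  have : Complex.exp (((4 * η : ℝ) : ℂ) * Complex.I) =
      Complex.exp (((4 : ℕ) : ℂ) * (((a / 4 + η : ℝ) : ℂ) * Complex.I)) *
        Complex.exp (((-a : ℝ) : ℂ) * Complex.I) := by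
    rw [← Complex.exp_add]; congr 1; push_cast; ring
  rw [this]; push_cast; ring

open Real in
lemma pt_le {η a : ℝ} (h1 : π / 120 ≤ η) (h2 : η ≤ π / 60) (h3 : 0 ≤ a) (h4 : a ≤ π / 2) :
    pt η a ≤ 1 := by
  have hp := pi_pos
  have hp2 := pi_lt_d2
  have hS := S_pos h1 h2 h3 h4
  unfold pt
  set b := a / 4 + η with hb
  have hb0 : 0 ≤ b := by linarith
  have hb1 : b ≤ 0.447 := by linarith
  have hsa : 0 ≤ sin a := sin_nonneg_of_nonneg_of_le_pi h3 (by linarith)
  have hsb : 0 ≤ sin b := sin_nonneg_of_nonneg_of_le_pi hb0 (by linarith)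
  by_cases hc : a + b ≤ π / 2
  · have e1 : sin a ≤ sin (a + b) := sin_le_sin_of_le_of_le_pi_div_two (by linarith) hc (by linarith)
    have e2 : sin b ≤ sin (a + b) := sin_le_sin_of_le_of_le_pi_div_two (by linarith) hc (by linarith)
    have f1 : sin a / sin (a + b) ≤ 1 := (div_le_one hS).2 e1
    have f2 : sin b / sin (a + b) ≤ 1 := (div_le_one hS).2 e2
    have f3 : (sin a / sin (a + b)) ^ 4 ≤ 1 := pow_le_one₀ (by positivity) f1
    exact mul_le_one₀ f3 (by positivity) f2
  · push Not at hc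
    have e1 : cos b ≤ sin (a + b) := by
      rw [← cos_pi_div_two_sub, ← cos_neg (π / 2 - (a + b))]
      apply cos_le_cos_of_nonneg_of_le_pi <;> linarith
    have e2 : 1 - b ^ 2 / 2 ≤ cos b := one_sub_sq_div_two_le_cos
    have e3 : (0.9 : ℝ) ≤ sin (a + b) := by nlinarith
    have e4 : sin b ≤ b := sin_le hb0
    have f1 : sin a / sin (a + b) ≤ 1 / 0.9 :=
      div_le_div₀ (by norm_num) (sin_le_one a) (by norm_num) e3
    have f2 : sin b / sin (a + b) ≤ 0.447 / 0.9 :=
      div_le_div₀ (by norm_num) (by linarith) (by norm_num) e3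
    have f3 : (sin a / sin (a + b)) ^ 4 ≤ (1 / 0.9) ^ 4 := pow_le_pow_left₀ (by positivity) f1 4
    calc _ ≤ (1 / 0.9 : ℝ) ^ 4 * (0.447 / 0.9) := mul_le_mul f3 f2 (by positivity) (by positivity)
      _ ≤ 1 := by norm_num

open Real in
noncomputable def tau : ℝ := sin (1 / 4000) ^ 4 * sin (π / 120)

open Real in
lemma tau_pos : 0 < tau := by
  have hp := pi_gt_three
  have h1 : 0 < sin (1 / 4000 : ℝ) := sin_pos_of_pos_of_lt_pi (by norm_num) (by linarith)
  have h2 : 0 < sin (π / 120) := sin_pos_of_pos_of_lt_pi (by linarith) (by linarith)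
  unfold tau; positivity

open Real in
lemma pt_ge {η a : ℝ} (h1 : π / 120 ≤ η) (h2 : η ≤ π / 60) (h3 : 1 / 4000 ≤ a) (h4 : a ≤ π / 2) :
    tau ≤ pt η a := by
  have hp := pi_gt_three
  have hS := S_pos h1 h2 (a := a) (by linarith) h4
  unfold pt tau
  set b := a / 4 + η with hb
  have g1 : 0 < sin (1 / 4000 : ℝ) := sin_pos_of_pos_of_lt_pi (by norm_num) (by linarith)
  have g2 : 0 < sin (π / 120) := sin_pos_of_pos_of_lt_pi (by linarith) (by linarith)
  have e1 : sin (1 / 4000 : ℝ) ≤ sin a := sin_le_sin_of_le_of_le_pi_div_two (by linarith) h4 h3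
  have e2 : sin (π / 120) ≤ sin b :=
    sin_le_sin_of_le_of_le_pi_div_two (by linarith) (by linarith) (by linarith)
  have f1 : sin (1 / 4000 : ℝ) ≤ sin a / sin (a + b) := by
    rw [le_div_iff₀ hS]; nlinarith [sin_le_one (a + b)]
  have f2 : sin (π / 120) ≤ sin b / sin (a + b) := by
    rw [le_div_iff₀ hS]; nlinarith [sin_le_one (a + b)]
  exact mul_le_mul (pow_le_pow_left₀ g1.le f1 4) f2 g2.le (by positivity)

open Real in
lemma norm_pz {η a : ℝ} (h1 : π / 120 ≤ η) (h2 : η ≤ π / 60) (h3 : 0 ≤ a) (h4 : a ≤ π / 2) :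
    ‖pz η a‖ = sin a / sin (a + (a / 4 + η)) := by
  have hp := pi_pos
  have hS := S_pos h1 h2 h3 h4
  have hsa : 0 ≤ sin a := sin_nonneg_of_nonneg_of_le_pi h3 (by linarith)
  unfold pz
  rw [norm_mul, Complex.norm_exp_ofReal_mul_I, mul_one, Complex.norm_real, Real.norm_eq_abs,
    abs_of_nonneg (by positivity)]

open Real in
lemma far {η : ℝ} (h1 : π / 120 ≤ η) (h2 : η ≤ π / 60) :
    1 + 1 / 100 < dist (pz η (π / 2)) (pz η (1 / 4000)) := by
  have hp := pi_gt_three
  have e1 : 32 / 31 ≤ ‖pz η (π / 2)‖ := by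
    rw [norm_pz h1 h2 (by linarith) le_rfl, sin_pi_div_two]
    have hS := S_pos h1 h2 (a := π / 2) (by linarith) le_rfl
    rw [le_div_iff₀ hS]
    have : sin (π / 2 + (π / 2 / 4 + η)) = cos (π / 2 / 4 + η) := by
      rw [add_comm, sin_add_pi_div_two]
    rw [this]
    have c1 : cos (π / 2 / 4 + η) ≤ cos (π / 8) :=
      cos_le_cos_of_nonneg_of_le_pi (by linarith) (by linarith) (by linarith)
    have c2 : cos (π / 8) ≤ 1 - 2 / π ^ 2 * (π / 8) ^ 2 :=
      cos_le_one_sub_mul_cos_sq (by rw [abs_of_nonneg (by linarith)]; linarith)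
    have c3 : 2 / π ^ 2 * (π / 8) ^ 2 = 1 / 32 := by field_simp; norm_num
    linarith
  have e2 : ‖pz η (1 / 4000)‖ ≤ 1 / 50 := by
    rw [norm_pz h1 h2 (by norm_num) (by linarith)]
    have hS := S_pos h1 h2 (a := 1 / 4000) (by norm_num) (by linarith)
    rw [div_le_iff₀ hS]
    have c1 : sin (1 / 4000 : ℝ) ≤ 1 / 4000 := sin_le (by norm_num)
    have c2 : sin (π / 120) ≤ sin (1 / 4000 + (1 / 4000 / 4 + η)) :=
      sin_le_sin_of_le_of_le_pi_div_two (by linarith) (by linarith) (by linarith)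
    have c3 : 2 / π * (π / 120) ≤ sin (π / 120) := mul_le_sin (by linarith) (by linarith)
    have c4 : 2 / π * (π / 120) = 1 / 60 := by field_simp; norm_num
    linarith
  have := norm_sub_norm_le (pz η (π / 2)) (pz η (1 / 4000))
  rw [dist_eq_norm]
  linarith

open Real in
lemma pz_cont {η : ℝ} (h1 : π / 120 ≤ η) (h2 : η ≤ π / 60) :
    ContinuousOn (pz η) (Set.Icc (1 / 4000) (π / 2)) := by
  unfold pz
  apply ContinuousOn.mul
  · apply Complex.continuous_ofReal.comp_continuousOn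
    apply ContinuousOn.div (by fun_prop) (by fun_prop)
    intro a ha
    exact (S_pos h1 h2 (by linarith [ha.1]) ha.2).ne'
  · fun_prop


/-- The negation of the preceding statement: For every c>0 and ε>0, for all large n, every monic complex polynomial of degree n has at most εn connected components of {∣f∣≤1} with diameter greater than 1+c. -/
theorem result :
    ¬ (∀ c : ℝ, 0 < c → ∀ ε : ℝ, 0 < ε → ∃ N : ℕ, ∀ n : ℕ, N ≤ n →
      ∀ f : Polynomial ℂ, f.Monic → f.natDegree = n →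
        ∀ s : Finset (Set ℂ),
          (∀ C ∈ s, (∃ z : ℂ, ‖f.eval z‖ ≤ 1 ∧
              connectedComponentIn {w : ℂ | ‖f.eval w‖ ≤ 1} z = C) ∧
            1 + c < Metric.diam C) →
          (s.card : ℝ) ≤ ε * (n : ℝ)) := by
  intro H
  obtain ⟨N, hN⟩ := H (1 / 100) (by norm_num) (1 / 600) (by norm_num)
  have hp := Real.pi_gt_three
  obtain ⟨j, hj⟩ : ∃ j : ℕ, j = N + 1 := ⟨_, rfl⟩
  obtain ⟨m, hm⟩ : ∃ m : ℕ, m = 60 * j := ⟨_, rfl⟩
  have hj0 : (0 : ℝ) < j := by rw [hj]; positivity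
  have hm0 : m ≠ 0 := by omega
  have hme : Even m := ⟨30 * j, by omega⟩
  have hmR : (m : ℝ) = 60 * j := by rw [hm]; push_cast; ring
  obtain ⟨A, hA⟩ : ∃ A : ℝ, A = 1 + tau ^ m := ⟨_, rfl⟩
  have htau1 : tau ≤ 1 :=
    (pt_ge (η := Real.pi / 120) (a := Real.pi / 2) le_rfl (by linarith) (by linarith) le_rfl).trans
      (pt_le le_rfl (by linarith) (by linarith) le_rfl)
  have hA1 : 1 < A := by have := pow_pos tau_pos m; linarith
  have hA2 : A ≤ 2 := by have := pow_le_one₀ tau_pos.le htau1 (n := m); linarith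
  let T : Polynomial ℂ := Polynomial.X ^ 4 * (Polynomial.X - Polynomial.C 1)
  have hT : T.Monic := (Polynomial.monic_X_pow 4).mul (Polynomial.monic_X_sub_C 1)
  have hTd : T.natDegree = 5 := by
    rw [(Polynomial.monic_X_pow 4).natDegree_mul (Polynomial.monic_X_sub_C 1),
      Polynomial.natDegree_X_pow, Polynomial.natDegree_X_sub_C]
  have hTm : (T ^ m).natDegree = 5 * m := by rw [hT.natDegree_pow, hTd, mul_comm]
  let f : Polynomial ℂ := T ^ m - Polynomial.C (A : ℂ)
  have hfd : f.natDegree = 5 * m := by rw [Polynomial.natDegree_sub_C, hTm]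
  have hfm : f.Monic := by
    apply (hT.pow m).sub_of_left
    refine lt_of_le_of_lt Polynomial.degree_C_le ?_
    rw [← Polynomial.natDegree_pos_iff_degree_pos, hTm]; omega
  have hev : ∀ z : ℂ, f.eval z = (z ^ 4 * (1 - z)) ^ m - A := by
    intro z
    simp only [f, T, Polynomial.eval_sub, Polynomial.eval_pow, Polynomial.eval_mul,
      Polynomial.eval_X, Polynomial.eval_C]
    rw [← hme.neg_pow]; congr 2; ring
  set E : Set ℂ := {w : ℂ | ‖f.eval w‖ ≤ 1} with hE
  have hEb : Bornology.IsBounded E := by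
    apply (Metric.isBounded_closedBall (x := (0 : ℂ)) (r := 3)).subset
    intro z hz
    rw [mem_closedBall_zero_iff]
    by_contra hc
    push Not at hc
    have h1 : ‖(z ^ 4 * (1 - z)) ^ m - A‖ ≤ 1 := by rw [← hev]; exact hz
    have h2 : 2 ≤ ‖1 - z‖ := by
      have := norm_sub_norm_le z 1
      rw [norm_sub_rev, norm_one] at this; linarith
    have h3 : (4 : ℝ) ≤ ‖z ^ 4 * (1 - z)‖ := by
      rw [norm_mul, norm_pow]
      have : (3 : ℝ) ^ 4 ≤ ‖z‖ ^ 4 := pow_le_pow_left₀ (by norm_num) hc.le 4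
      nlinarith
    have h4 : ‖z ^ 4 * (1 - z)‖ ≤ ‖z ^ 4 * (1 - z)‖ ^ m := le_self_pow₀ (by linarith) hm0
    have h5 := norm_sub_norm_le ((z ^ 4 * (1 - z)) ^ m) (A : ℂ)
    rw [norm_pow, Complex.norm_real, Real.norm_eq_abs, abs_of_pos (by linarith)] at h5
    linarith
  let η : ℕ → ℝ := fun k => Real.pi * k / (2 * m)
  have hη : ∀ k ∈ Finset.Ico j (2 * j), Real.pi / 120 ≤ η k ∧ η k ≤ Real.pi / 60 := by
    intro k hk
    rw [Finset.mem_Ico] at hk
    have k1 : (j : ℝ) ≤ k := by exact_mod_cast hk.1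
    have k2 : (k : ℝ) ≤ 2 * j := by exact_mod_cast hk.2.le
    simp only [η, hmR]
    constructor
    · rw [le_div_iff₀ (by positivity)]; nlinarith
    · rw [div_le_iff₀ (by positivity)]; nlinarith
  have hin : ∀ k ∈ Finset.Ico j (2 * j), ∀ a ∈ Set.Icc (1 / 4000) (Real.pi / 2), pz (η k) a ∈ E := by
    intro k hk a ha
    obtain ⟨h1, h2⟩ := hη k hk
    have h3 : (0 : ℝ) ≤ a := by linarith [ha.1]
    show ‖f.eval _‖ ≤ 1
    rw [hev, U_eq (S_pos h1 h2 h3 ha.2).ne', mul_pow, ← Complex.exp_nat_mul]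
    have : ((m : ℕ) : ℂ) * (((4 * η k : ℝ) : ℂ) * Complex.I) = (k : ℕ) * (2 * Real.pi * Complex.I) := by
      have : (m : ℂ) ≠ 0 := by exact_mod_cast hm0
      simp only [η]; push_cast; field_simp; ring
    rw [this, Complex.exp_nat_mul_two_pi_mul_I, mul_one]
    have e1 : tau ^ m ≤ pt (η k) a ^ m := pow_le_pow_left₀ tau_pos.le (pt_ge h1 h2 ha.1 ha.2) m
    have e2 : pt (η k) a ^ m ≤ 1 :=
      pow_le_one₀ (tau_pos.le.trans (pt_ge h1 h2 ha.1 ha.2)) (pt_le h1 h2 h3 ha.2)
    rw [← Complex.ofReal_pow, ← Complex.ofReal_sub, Complex.norm_real, Real.norm_eq_abs, abs_le]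
    constructor <;> linarith
  have h0 : (1 / 4000 : ℝ) ∈ Set.Icc (1 / 4000 : ℝ) (Real.pi / 2) := ⟨le_rfl, by linarith⟩
  let Cm : ℕ → Set ℂ := fun k => connectedComponentIn E (pz (η k) (1 / 4000))
  have hsep : ∀ k ∈ Finset.Ico j (2 * j), ∀ l ∈ Finset.Ico j (2 * j), k < l → Cm k ≠ Cm l := by
    intro k hk l hl hkl hC
    set ψ : ℝ := (2 * k + 1) * Real.pi / m with hψ
    let g : ℂ → ℝ := fun z => (z ^ 4 * (1 - z) * Complex.exp (((-ψ : ℝ) : ℂ) * Complex.I)).im
    have hg : Continuous g := by fun_prop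
    have hgv : ∀ i ∈ Finset.Ico j (2 * j), g (pz (η i) (1 / 4000)) =
        pt (η i) (1 / 4000) * Real.sin (4 * η i - ψ) := by
      intro i hi
      obtain ⟨h1, h2⟩ := hη i hi
      simp only [g]
      rw [U_eq (S_pos h1 h2 (by norm_num) h0.2).ne', mul_assoc, ← Complex.exp_add,
        Complex.im_ofReal_mul, ← add_mul, ← Complex.ofReal_add, Complex.exp_ofReal_mul_I_im]
      rfl
    have hmp : (0 : ℝ) < m := by rw [hmR]; positivity
    have hm1 : (1 : ℝ) < m := by
      have : (1 : ℝ) ≤ j := by exact_mod_cast (by omega : 1 ≤ j)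
      rw [hmR]; linarith
    have gk : g (pz (η k) (1 / 4000)) < 0 := by
      rw [hgv k hk]
      obtain ⟨h1, h2⟩ := hη k hk
      apply mul_neg_of_pos_of_neg (tau_pos.trans_le (pt_ge h1 h2 h0.1 h0.2))
      have : 4 * η k - ψ = -(Real.pi / m) := by simp only [η, hψ]; field_simp; ring
      rw [this, Real.sin_neg, neg_lt_zero]
      apply Real.sin_pos_of_pos_of_lt_pi (by positivity)
      rw [div_lt_iff₀ hmp]; nlinarith
    have gl : 0 < g (pz (η l) (1 / 4000)) := by
      rw [hgv l hl]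
      obtain ⟨h1, h2⟩ := hη l hl
      apply mul_pos (tau_pos.trans_le (pt_ge h1 h2 h0.1 h0.2))
      have hψ0 : 0 < ψ := by positivity
      apply Real.sin_pos_of_pos_of_lt_pi _ (by linarith)
      have : 4 * η l - ψ = (2 * (l - k - 1 : ℝ) + 1) * (Real.pi / m) := by
        simp only [η, hψ]; field_simp; ring
      rw [this]
      have : (k : ℝ) + 1 ≤ l := by exact_mod_cast hkl
      apply mul_pos (by linarith) (by positivity)
    have hk' : pz (η k) (1 / 4000) ∈ Cm k := mem_connectedComponentIn (hin k hk _ h0)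
    have hl' : pz (η l) (1 / 4000) ∈ Cm k := hC ▸ mem_connectedComponentIn (hin l hl _ h0)
    obtain ⟨z, hz, hgz⟩ := (isPreconnected_connectedComponentIn (x := pz (η k) (1 / 4000))
      (F := E)).intermediate_value hk' hl' hg.continuousOn (Set.mem_Icc.2 ⟨gk.le, gl.le⟩)
    have hzE : ‖f.eval z‖ ≤ 1 := connectedComponentIn_subset E _ hz
    rw [hev] at hzE
    set w := z ^ 4 * (1 - z) * Complex.exp (((-ψ : ℝ) : ℂ) * Complex.I) with hw
    have hw1 : w = (w.re : ℂ) := by
      apply Complex.ext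
      · simp
      · simpa using hgz
    have hw2 : (z ^ 4 * (1 - z)) ^ m = -((w.re ^ m : ℝ) : ℂ) := by
      have e : z ^ 4 * (1 - z) = w * Complex.exp ((ψ : ℂ) * Complex.I) := by
        rw [hw, mul_assoc, ← Complex.exp_add]; simp
      rw [e, mul_pow, ← Complex.exp_nat_mul]
      have : ((m : ℕ) : ℂ) * ((ψ : ℂ) * Complex.I) =
          (k : ℕ) * (2 * Real.pi * Complex.I) + Real.pi * Complex.I := by
        have : (m : ℂ) ≠ 0 := by exact_mod_cast hm0
        rw [hψ]; push_cast; field_simp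
      rw [this, Complex.exp_add, Complex.exp_nat_mul_two_pi_mul_I, Complex.exp_pi_mul_I,
        Complex.ofReal_pow, ← hw1]
      ring
    rw [hw2, ← Complex.ofReal_neg, ← Complex.ofReal_sub, Complex.norm_real, Real.norm_eq_abs,
      abs_le] at hzE
    have := hme.pow_nonneg w.re
    linarith [hzE.1]
  classical
  have key := hN (5 * m) (by omega) f hfm hfd ((Finset.Ico j (2 * j)).image Cm) (by
    intro C hC
    obtain ⟨k, hk, rfl⟩ := Finset.mem_image.1 hC
    obtain ⟨h1, h2⟩ := hη k hk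
    refine ⟨⟨_, hin k hk _ h0, rfl⟩, ?_⟩
    have hsub : pz (η k) '' Set.Icc (1 / 4000) (Real.pi / 2) ⊆ Cm k := by
      apply IsPreconnected.subset_connectedComponentIn
        (isPreconnected_Icc.image _ (pz_cont h1 h2)) (Set.mem_image_of_mem _ h0)
      rintro _ ⟨a, ha, rfl⟩
      exact hin k hk a ha
    refine (far h1 h2).trans_le (Metric.dist_le_diam_of_mem
      (hEb.subset (connectedComponentIn_subset E _)) (hsub (Set.mem_image_of_mem _ ?_))
      (hsub (Set.mem_image_of_mem _ h0)))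
    exact ⟨by linarith, le_rfl⟩)
  rw [Finset.card_image_of_injOn] at key
  · rw [Nat.card_Ico] at key
    have : ((2 * j - j : ℕ) : ℝ) = j := by congr 1; omega
    rw [this] at key
    push_cast at key
    rw [hmR] at key
    linarith
  · intro k hk l hl h
    rcases lt_trichotomy k l with h' | h' | h'
    · exact absurd h (hsep k hk l hl h')
    · exact h'
    · exact absurd h.symm (hsep l hl k hk h')

end Pool.Agent.S04674
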