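import Pool.Statements.S04676

set_option autoImplicit false
open Pool Pool.MP_529e31_an

namespace Pool.Agent.S04676

def R : ℕ → ℕ
  | 0 => 1
  | n + 1 => (8 * R n ^ 2 + 2 * R n + 1).factorial

lemma R_lt (n : ℕ) : R n < R (n + 1) := by
  have := Nat.self_le_factorial (8 * R n ^ 2 + 2 * R n + 1)
  simp only [R]
  omega

lemma R_mono : StrictMono R := strictMono_nat_of_lt_succ R_lt

lemma R_ge (n : ℕ) : n + 1 ≤ R n := by
  induction n with
  | zero => simp [R]
  | succ n ih => have := R_lt n; omega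

lemma pow_le_exp (m : ℕ) (x : ℝ) (hx : ((m + 1).factorial : ℝ) ≤ x) : x ^ m ≤ Real.exp x := by
  have h0 : (0:ℝ) < (m + 1).factorial := by exact_mod_cast Nat.factorial_pos _
  have hx0 : 0 < x := h0.trans_le hx
  have h := Real.pow_div_factorial_le_exp x hx0.le (m + 1)
  refine le_trans ?_ h
  rw [le_div_iff₀ h0, pow_succ]
  gcongr

lemma littleO (A : ℝ) : Asymptotics.IsLittleO (Filter.cocompact ℂ)
    (fun z : ℂ => Real.exp (A * ‖z‖ ^ (1:ℝ))) (fun z : ℂ => Real.exp (‖z‖ ^ 2)) := by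
  rw [Real.isLittleO_exp_comp_exp_comp]
  have h1 : Filter.Tendsto (fun z : ℂ => ‖z‖) (Filter.cocompact ℂ) Filter.atTop :=
    tendsto_norm_cocompact_atTop
  have h2 : Filter.Tendsto (fun x : ℝ => x * (x - A)) Filter.atTop Filter.atTop :=
    Filter.Tendsto.atTop_mul_atTop₀ Filter.tendsto_id
      (Filter.tendsto_atTop_add_const_right _ (-A) Filter.tendsto_id)
  refine (h2.comp h1).congr fun z => ?_
  simp only [Function.comp, Real.rpow_one, Pi.sub_apply]
  ring


theorem result :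
    ¬ (∀ ρ : ℝ, 0 < ρ → ∀ S : Set ℂ,
      (∀ f : ℂ → ℂ, Differentiable ℂ f →
        (∃ A B : ℝ, 0 < A ∧ 0 < B ∧ ∀ z : ℂ, ‖f z‖ ≤ B * Real.exp (A * ‖z‖ ^ ρ)) →
        (Bornology.IsBounded (f '' S) ↔ Bornology.IsBounded (Set.range f))) →
      ∀ k : ℂ → ℝ, Continuous k → (∀ z : ℂ, 0 < k z) →
        (∀ A : ℝ, 0 < A →
          Asymptotics.IsLittleO (Filter.cocompact ℂ) (fun z : ℂ => Real.exp (A * ‖z‖ ^ ρ)) k) →
        ∃ k' : ℂ → ℝ, Continuous k' ∧ (∀ z : ℂ, 0 < k' z) ∧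
          (∀ A : ℝ, 0 < A →
            Asymptotics.IsLittleO (Filter.cocompact ℂ) (fun z : ℂ => Real.exp (A * ‖z‖ ^ ρ)) k') ∧
          ∃ C : ℝ, 0 < C ∧
            ∀ f : ℂ → ℂ, Differentiable ℂ f →
              (∃ A B : ℝ, 0 < A ∧ 0 < B ∧ ∀ z : ℂ, ‖f z‖ ≤ B * Real.exp (A * ‖z‖ ^ ρ)) →
              (∀ z ∈ S, ‖f z‖ ≤ k' z) → ∀ z : ℂ, ‖f z‖ ≤ C * k z) := by
  intro H
  set S : Set ℂ := ⋃ n, Metric.sphere (0:ℂ) (R n) with hS
  obtain ⟨k', hk1, hk2, hk3, C, hC, hf⟩ := H 1 one_pos S (fun f hf _ => ⟨fun hb => by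
      obtain ⟨M, hM⟩ := hb.exists_norm_le
      rw [isBounded_iff_forall_norm_le]
      refine ⟨M, ?_⟩
      rintro _ ⟨z, rfl⟩
      obtain ⟨n, hn⟩ := exists_nat_gt ‖z‖
      have hn' : ‖z‖ < R n := by
        have : ((n + 1 : ℕ) : ℝ) ≤ R n := by exact_mod_cast R_ge n
        push_cast at this
        linarith
      have hpos : (0:ℝ) < R n := (norm_nonneg _).trans_lt hn'
      refine Complex.norm_le_of_forall_mem_frontier_norm_le (U := Metric.ball 0 (R n))
        Metric.isBounded_ball hf.diffContOnCl (fun w hw => ?_) (subset_closure (by simpa using hn'))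
      rw [frontier_ball _ hpos.ne'] at hw
      exact hM _ ⟨w, Set.mem_iUnion.2 ⟨n, hw⟩, rfl⟩,
    fun hb => hb.subset (Set.image_subset_range _ _)⟩)
    (fun z => Real.exp (‖z‖ ^ 2)) (by fun_prop) (fun z => Real.exp_pos _) (fun A _ => littleO A)
  have hc0 : ∃ c : ℝ, 0 < c ∧ ∀ z : ℂ, c * Real.exp ‖z‖ ≤ k' z := by
    have h := (hk3 1 one_pos).bound one_pos
    rw [Filter.Eventually, Filter.mem_cocompact] at h
    obtain ⟨K, hK, hK2⟩ := h
    obtain ⟨a, ha, ha2⟩ := hK.exists_forall_le' (f := fun z => k' z / Real.exp ‖z‖) (a := 0)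
      (Continuous.continuousOn (hk1.div (by fun_prop) (fun z => (Real.exp_pos _).ne')))
      (fun z _ => div_pos (hk2 z) (Real.exp_pos _))
    refine ⟨min a 1, lt_min ha one_pos, fun z => ?_⟩
    by_cases hz : z ∈ K
    · have := ha2 z hz
      rw [le_div_iff₀ (Real.exp_pos _)] at this
      exact le_trans (by gcongr; exact min_le_left _ _) this
    · have := hK2 hz
      simp only [Set.mem_ofPred_eq, Real.rpow_one, one_mul, Real.norm_eq_abs,
        abs_of_pos (Real.exp_pos _), abs_of_pos (hk2 z)] at this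
      refine le_trans ?_ this
      have := min_le_right a 1
      have := Real.exp_pos ‖z‖
      nlinarith
  obtain ⟨c, hc, hck⟩ := hc0
  obtain ⟨n, hn⟩ := exists_nat_gt (C / c)
  set m := 8 * R n ^ 2 + 2 * R n with hm
  have hR1 : (1:ℝ) ≤ R n := by
    have := R_ge n
    exact_mod_cast (by omega : 1 ≤ R n)
  have hnorm : ∀ z : ℂ, ‖(c : ℂ) * (z / (R n : ℂ)) ^ m‖ = c * (‖z‖ / R n) ^ m := by
    intro z
    simp [abs_of_pos hc]
  have hle : ∀ z : ℂ, (‖z‖ / R n) ^ m ≤ ‖z‖ ^ m := by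
    intro z
    gcongr
    exact div_le_self (norm_nonneg _) hR1
  have key := hf (fun z => (c : ℂ) * (z / (R n : ℂ)) ^ m) (by fun_prop)
    ⟨1, c * m.factorial, one_pos, by positivity, fun z => by
      rw [hnorm, Real.rpow_one, one_mul, mul_assoc]
      have h := Real.pow_div_factorial_le_exp ‖z‖ (norm_nonneg _) m
      rw [div_le_iff₀ (by positivity)] at h
      gcongr
      exact (hle z).trans (by linarith)⟩
    (fun z hz => by
      obtain ⟨j, hj⟩ := Set.mem_iUnion.1 hz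
      have hj' : ‖z‖ = R j := by simpa using hj
      refine le_trans ?_ (hck z)
      rw [hnorm]
      gcongr
      rcases le_or_gt j n with h | h
      · have h1 : ‖z‖ / R n ≤ 1 := by
          rw [div_le_one (by linarith), hj']
          exact_mod_cast R_mono.monotone h
        exact (pow_le_one₀ (by positivity) h1).trans (Real.one_le_exp (norm_nonneg _))
      · refine (hle z).trans (pow_le_exp m _ ?_)
        rw [hj']
        exact_mod_cast (R_mono.monotone h : R (n + 1) ≤ R j)) (2 * (R n : ℂ))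
  rw [hnorm] at key
  have e1 : ‖(2 * (R n : ℂ))‖ = 2 * R n := by simp
  rw [e1, mul_div_assoc, div_self (by linarith), mul_one] at key
  have e2 : Real.exp (4 * (R n : ℝ) ^ 2 + R n) ≤ 2 ^ m := by
    have : Real.exp (4 * (R n : ℝ) ^ 2 + R n) = Real.exp (1 / 2) ^ m := by
      rw [← Real.exp_nat_mul]
      congr 1
      rw [hm]; push_cast; ring
    rw [this]
    gcongr
    have h1 := Real.exp_one_lt_d9
    have h2 : Real.exp (1 / 2) ^ 2 = Real.exp 1 := by
      rw [← Real.exp_nat_mul]; norm_num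
    have := Real.exp_pos (1 / 2)
    nlinarith
  have e3 : (2 * (R n : ℝ)) ^ 2 = 4 * (R n : ℝ) ^ 2 := by ring
  rw [e3] at key
  rw [Real.exp_add] at e2
  have e4 := Real.add_one_le_exp (R n : ℝ)
  have e5 : ((n + 1 : ℕ) : ℝ) ≤ R n := by exact_mod_cast R_ge n
  push_cast at e5
  rw [div_lt_iff₀ hc] at hn
  have e6 := Real.exp_pos (4 * (R n : ℝ) ^ 2)
  have e7 : c * (Real.exp (4 * (R n : ℝ) ^ 2) * Real.exp (R n)) ≤ C * Real.exp (4 * (R n : ℝ) ^ 2) :=
    le_trans (by gcongr) key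
  have e8 : c * Real.exp (R n) ≤ C := by
    by_contra hcon
    push Not at hcon
    nlinarith
  nlinarith

end Pool.Agent.S04676
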