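import Pool.Statements.S04698
-- import your own Pool.Agent.* helpers here

set_option autoImplicit false
open Pool Pool.MP_541d58_an

namespace Pool.Agent.S04698

open Set Filter Topology Metric

section
variable {H : Type} [NormedAddCommGroup H] [InnerProductSpace ℝ H] {T : H → Set H}

structure Til (T : H → Set H) : Prop where
  h1 : ∀ x, x ∈ T x
  h2 : ∀ x, IsClosed (T x)
  h3 : ∀ x, Convex ℝ (T x)
  h4 : ∀ x, (interior (T x)).Nonempty
  h5 : ∀ x y, y ∈ T x → T y = T x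
  h6 : ∀ x, (T x)ᶜ.Nonempty

noncomputable def D (T : H → Set H) (x : H) : ℝ := infDist x (T x)ᶜ

theorem D_le (x : H) {y : H} (h : y ∉ T x) : D T x ≤ dist x y := infDist_le_dist_of_mem h

theorem D_lip (h : Til T) (x y : H) : D T x ≤ D T y + dist x y := by
  by_cases e : y ∈ T x
  · rw [D, D, h.h5 x y e]; exact infDist_le_infDist_add_dist
  · exact (D_le x e).trans (le_add_of_nonneg_left infDist_nonneg)

theorem D_cont (h : Til T) : Continuous (D T) :=
  (LipschitzWith.of_le_add (D_lip h)).continuous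

theorem D_dense (h : Til T) (x : H) (γ : ℝ) (hγ : 0 < γ) : ∃ y, dist x y < γ ∧ 0 < D T y := by
  have h1 : x ∈ closure (interior (T x)) := by
    rw [(h.h3 x).closure_interior_eq_closure_of_nonempty_interior (h.h4 x)]
    exact subset_closure (h.h1 x)
  obtain ⟨y, hy, hxy⟩ := Metric.mem_closure_iff.mp h1 γ hγ
  refine ⟨y, hxy, ?_⟩
  rw [D, h.h5 x y (interior_subset hy), ← infDist_pos_iff_notMem_closure (h.h6 x),
    closure_compl]
  exact fun h => h hy

theorem bdry (h : Til T) {y z : H} (hz : z ∉ T y) :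
    ∃ w, w ∉ T y ∧ D T w = 0 ∧ dist y w ≤ dist y z := by
  obtain ⟨w, w1, w2, w3⟩ := isPreconnected_closed_iff.mp (convex_segment y z).isPreconnected
    (T z) (closure (T z)ᶜ) (h.h2 z) isClosed_closure
    (fun w _ => by_cases Or.inl fun h => Or.inr (subset_closure h))
    ⟨z, right_mem_segment _ _ _, h.h1 z⟩
    ⟨y, left_mem_segment _ _ _, subset_closure fun e => hz (h.h5 z y e ▸ h.h1 z)⟩
  refine ⟨w, fun e => hz (h.h5 y w e ▸ (h.h5 z w w2).symm ▸ h.h1 z), ?_, ?_⟩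
  · rw [D, h.h5 z w w2]; exact infDist_zero_of_mem_closure w3
  · linarith [dist_add_dist_of_mem_segment w1, dist_nonneg (x := w) (y := z)]

theorem step (h : Til T) (z : H) (hz : D T z = 0) (R : ℝ) (R0 : 0 < R) (R1 : R ≤ 1) (S : H)
    (ε : ℝ) (ε0 : 0 < ε) (ε1 : ε ≤ 1) : ∃ (φ w : H) (Q : ℝ), ‖φ‖ = 1 ∧ inner ℝ φ S ≤ 1 ∧
      D T w = 0 ∧ 0 < Q ∧ Q ≤ ε ∧ closedBall w Q ⊆ ball z R ∧ ∃ y, ∀ x ∈ closedBall w Q,
        x ∉ T y ∧ ∀ v, (∀ a ∈ Icc (0 : ℝ) 1, x + a • v ∉ T y) →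
          -ε * (1 + ‖v‖ ^ 2) ≤ inner ℝ φ v := by
  have S0 := norm_nonneg S
  obtain ⟨t, t0, ht⟩ : ∃ t : ℝ, 0 < t ∧ t * (‖S‖ + 1) = R / 8 :=
    ⟨R / 8 / (‖S‖ + 1), by positivity, by field_simp⟩
  obtain ⟨y0, hy0, Dy0⟩ := D_dense h (z + t • S) (t / 2) (by positivity)
  let k : ℝ → ℝ := fun s => D T (y0 - s • S) - s / 2
  have kc : Continuous k := ((D_cont h).comp (by fun_prop)).sub (by fun_prop)
  have k0 : 0 < k 0 := by simpa [k] using Dy0
  have hd : ∀ s, 0 ≤ s → s ≤ t → dist (y0 - s • S) z ≤ t / 2 + (t - s) * ‖S‖ := by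
    intro s s0 s1
    rw [dist_comm, dist_eq_norm] at hy0
    rw [dist_eq_norm, show y0 - s • S - z = (y0 - (z + t • S)) + (t - s) • S by module]
    refine (norm_add_le _ _).trans (add_le_add hy0.le ?_)
    rw [norm_smul, Real.norm_eq_abs, abs_of_nonneg (by linarith)]
  have ivt : ∀ s, 0 ≤ s → k s ≤ k 0 / 2 → ∃ s' ∈ Icc 0 s, k s' = k 0 / 2 := fun s s0 hs =>
    intermediate_value_Icc' s0 kc.continuousOn ⟨hs, by linarith⟩
  obtain ⟨s, ⟨⟨s0, st⟩, hs⟩, hmin⟩ := (isCompact_Icc.inter_right (isClosed_eq kc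
    (continuous_const (y := k 0 / 2)))).exists_isMinOn (ivt t t0.le (by
      have := D_lip h (y0 - t • S) z
      have := hd t t0.le le_rfl
      simp only [k] at k0 ⊢
      linarith)) continuousOn_id
  have hs' : k s = k 0 / 2 := hs
  have s1 : 0 < s := lt_of_le_of_ne s0 fun e => by rw [← e] at hs'; linarith
  set y := y0 - s • S with hy
  set r := D T y with hr
  have r0 : 0 < r := by simp only [k] at hs' k0; linarith
  have yz : dist y z ≤ R / 8 := (hd s s0 st).trans (by nlinarith)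
  have r1 : r ≤ R / 8 := by linarith [D_lip h y z]
  obtain ⟨τ, τ0, τ1, τ2⟩ : ∃ τ : ℝ, 0 < τ ∧ τ ≤ s ∧ τ * (‖S‖ + 1) ^ 2 ≤ r / 4 :=
    ⟨min s (r / 4 / (‖S‖ + 1) ^ 2), by positivity, min_le_left _ _,
      (le_div_iff₀ (by positivity)).mp (min_le_right _ _)⟩
  have τ3 : τ ≤ r / 4 := by nlinarith [mul_nonneg τ0.le S0, mul_nonneg τ0.le (sq_nonneg ‖S‖)]
  have hτ : r - τ / 2 ≤ D T (y + τ • S) := by
    by_contra hc
    obtain ⟨s', ⟨a1, a2⟩, a3⟩ := ivt (s - τ) (by linarith) (by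
      rw [← hs']
      simp only [k]
      rw [show y0 - (s - τ) • S = y + τ • S by rw [hy]; module]
      linarith)
    have : s ≤ s' := hmin ⟨⟨a1, by linarith⟩, a3⟩
    linarith
  have hT : T (y + τ • S) = T y := by
    refine h.h5 _ _ (by_contra fun hc => ?_)
    have := D_le y hc
    rw [dist_self_add_right, norm_smul, Real.norm_eq_abs, abs_of_pos τ0] at this
    nlinarith
  obtain ⟨δ, δ0, δ1, δ2⟩ : ∃ δ : ℝ, 0 < δ ∧ δ ≤ τ / 8 ∧ δ ≤ ε ^ 2 * r / 2 :=
    ⟨min _ _, by positivity, min_le_left _ _, min_le_right _ _⟩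
  have e2 : ε ^ 2 ≤ ε := by nlinarith
  have δ3 : δ ≤ r / 2 := by nlinarith
  obtain ⟨z', hz', dz'⟩ := (infDist_lt_iff (h.h6 y)).mp (show D T y < r + δ by linarith)
  obtain ⟨w, w1, w2, w3⟩ := bdry h hz'
  obtain ⟨Q, Q0, hQ⟩ := Metric.isOpen_iff.mp (h.h2 y).isOpen_compl w w1
  have d1 := D_le y w1
  have d2 := D_le (y + τ • S) (hT ▸ w1)
  have d3 : dist y w ≤ r + δ := by linarith
  rw [dist_comm, dist_eq_norm] at d1 d2 d3
  obtain ⟨φ, hφ, hw⟩ : ∃ φ : H, ‖φ‖ = 1 ∧ w = y + ‖w - y‖ • φ := by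
    have d0 : ‖w - y‖ ≠ 0 := by linarith
    exact ⟨‖w - y‖⁻¹ • (w - y), by rw [norm_smul, norm_inv, norm_norm, inv_mul_cancel₀ d0],
      by rw [smul_inv_smul₀ d0]; abel⟩
  generalize ‖w - y‖ = d at *
  refine ⟨φ, w, min (Q / 2) δ, hφ, ?_, w2, by positivity, (min_le_right _ _).trans (by nlinarith),
    fun x hx => ?_, y, fun x hx => ⟨hQ (closedBall_subset_ball
      ((min_le_left _ _).trans_lt (half_lt_self Q0)) hx), fun v hv => ?_⟩⟩
  · rw [hw, show y + d • φ - (y + τ • S) = d • φ - τ • S by abel] at d2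
    have h1 := pow_le_pow_left₀ (by linarith) (hτ.trans d2) 2
    rw [norm_sub_sq_real, inner_smul_left, inner_smul_right, norm_smul, norm_smul, hφ,
      Real.norm_eq_abs, Real.norm_eq_abs, mul_pow, mul_pow, sq_abs, sq_abs, conj_trivial] at h1
    have h2 : d ^ 2 ≤ r ^ 2 + 3 * r * (τ / 8) := by nlinarith
    have h3 : τ * (τ * ‖S‖ ^ 2) ≤ τ * (r / 4) :=
      mul_le_mul_of_nonneg_left (by nlinarith) τ0.le
    have h4 : τ * d * inner ℝ φ S ≤ τ * d * 1 := by nlinarith [mul_le_mul_of_nonneg_left d1 τ0.le]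
    exact le_of_mul_le_mul_left h4 (mul_pos τ0 (by linarith))
  · have := dist_triangle4 x w y z
    rw [dist_eq_norm w y, hw, add_sub_cancel_left, norm_smul, hφ, Real.norm_eq_abs,
      abs_of_pos (by linarith), ← hw] at this
    rw [mem_ball]
    linarith [mem_closedBall.mp hx, min_le_right (Q / 2) δ]
  · have h1 := D_le y (hv (ε * r) ⟨by positivity, by nlinarith⟩)
    rw [dist_comm, dist_eq_norm, show x + (ε * r) • v - y =
      (r • φ + (ε * r) • v) + ((x - w) + (d - r) • φ) by rw [hw]; module] at h1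
    have h2 := norm_add_le (r • φ + (ε * r) • v) ((x - w) + (d - r) • φ)
    have h3 := norm_add_le (x - w) ((d - r) • φ)
    rw [norm_smul, hφ, Real.norm_eq_abs, abs_of_nonneg (by linarith)] at h3
    have h4 := (mem_closedBall_iff_norm.mp hx).trans (min_le_right _ _)
    have h5 := pow_le_pow_left₀ (by linarith) (show r - 2 * δ ≤ ‖r • φ + (ε * r) • v‖ by
      linarith) 2
    rw [norm_add_sq_real, inner_smul_left, inner_smul_right, norm_smul, norm_smul, hφ,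
      Real.norm_eq_abs, Real.norm_eq_abs, mul_pow, mul_pow, sq_abs, sq_abs, conj_trivial] at h5
    have h6 := mul_le_mul_of_nonneg_left δ2 r0.le
    have h7 : 0 ≤ (ε * r) ^ 2 * ‖v‖ ^ 2 := by positivity
    have h8 : ε * r ^ 2 * (-ε * (1 + ‖v‖ ^ 2)) ≤ ε * r ^ 2 * inner ℝ φ v := by
      nlinarith [sq_nonneg δ]
    exact le_of_mul_le_mul_left h8 (by positivity)

theorem main [CompleteSpace H] (h : Til T) : False := by
  obtain ⟨z0, -, hz0, -⟩ := bdry h (y := 0) (h.h6 0).some_mem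
  choose φ w Q f1 f2 f3 f4 f5 f6 y f7 using
    fun (p : {p : H × ℝ × H // D T p.1 = 0 ∧ 0 < p.2.1 ∧ p.2.1 ≤ 1}) (n : ℕ) =>
      step h p.1.1 p.2.1 p.1.2.1 p.2.2.1 p.2.2.2 p.1.2.2 ((1 / 2) ^ n) (by positivity)
        (pow_le_one₀ (by norm_num) (by norm_num))
  let s : ℕ → {p : H × ℝ × H // D T p.1 = 0 ∧ 0 < p.2.1 ∧ p.2.1 ≤ 1} := fun n =>
    Nat.rec ⟨(z0, 1, 0), hz0, one_pos, le_rfl⟩ (fun n p => ⟨(w p n, Q p n, p.1.2.2 + φ p n),
      f3 p n, f4 p n, (f5 p n).trans (pow_le_one₀ (by norm_num) (by norm_num))⟩) n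
  have ha : Antitone fun n => closedBall (w (s n) n) (Q (s n) n) :=
    antitone_nat_of_succ_le fun n => (f6 (s (n + 1)) (n + 1)).trans ball_subset_closedBall
  have hm : ∀ n m, n ≤ m → w (s m) m ∈ closedBall (w (s n) n) (Q (s n) n) := fun n m h =>
    ha h (mem_closedBall_self (f4 _ _).le)
  obtain ⟨x, hx⟩ := cauchySeq_tendsto_of_complete (cauchySeq_of_le_geometric (1 / 2) 1
    (by norm_num) (f := fun n => w (s n) n) fun n => by
      rw [one_mul, dist_comm]; exact (hm n _ n.le_succ).trans (f5 _ _))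
  have hx' := fun n => f7 (s n) n x
    (isClosed_closedBall.mem_of_tendsto hx ((eventually_ge_atTop n).mono (hm n)))
  obtain ⟨c, hc⟩ := h.h4 x
  obtain ⟨ρ, ρ0, hρ⟩ := nhds_basis_closedBall.mem_iff.mp (mem_interior_iff_mem_nhds.mp hc)
  set C := 1 + (‖c - x‖ + ρ) ^ 2 with hC
  have h1 : ∀ n, ρ - (1 / 2) ^ n * C ≤ inner ℝ (φ (s n) n) (c - x) := by
    intro n
    have e : ‖ρ • φ (s n) n‖ = ρ := by
      rw [norm_smul, f1, mul_one, Real.norm_eq_abs, abs_of_pos ρ0]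
    have h2 := (hx' n).2 (c - x - ρ • φ (s n) n) fun a a1 e' => (hx' n).1 (by
      have := (h.h3 x).add_smul_sub_mem (h.h1 x) (hρ (show c - ρ • φ (s n) n ∈ _ by
        rw [mem_closedBall, dist_self_sub_left, e])) a1
      rw [sub_right_comm] at this
      rw [← h.h5 _ _ e', h.h5 _ _ this]; exact h.h1 x)
    rw [inner_sub_right, inner_smul_right, real_inner_self_eq_norm_sq, f1] at h2
    have h3 := pow_le_pow_left₀ (norm_nonneg _) (norm_sub_le (c - x) (ρ • φ (s n) n)) 2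
    rw [e] at h3
    have := mul_le_mul_of_nonneg_left h3 (show (0 : ℝ) ≤ (1 / 2) ^ n by positivity)
    rw [hC]; linarith
  have h2 : ∀ n : ℕ, ‖(s n).1.2.2‖ ^ 2 ≤ 3 * n ∧
      n * ρ - 2 * C + 2 * (1 / 2) ^ n * C ≤ inner ℝ (s n).1.2.2 (c - x) := by
    intro n
    induction n with
    | zero => simp [s]
    | succ n ih =>
      show ‖(s n).1.2.2 + φ (s n) n‖ ^ 2 ≤ _ ∧ _ ≤ inner ℝ ((s n).1.2.2 + φ (s n) n) (c - x)
      rw [norm_add_sq_real, f1, real_inner_comm, inner_add_left, pow_succ (1 / 2 : ℝ)]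
      push_cast
      exact ⟨by linarith [ih.1, f2 (s n) n], by linarith [ih.2, h1 n]⟩
  have C0 : 0 < C := by positivity
  obtain ⟨n, hn⟩ := exists_nat_gt (4 * C / ρ + 12 * ‖c - x‖ ^ 2 / ρ ^ 2)
  have n1 : 4 * C < n * ρ := (div_lt_iff₀ ρ0).mp (lt_of_le_of_lt (le_add_of_nonneg_right
    (by positivity)) hn)
  have n2 : 12 * ‖c - x‖ ^ 2 < n * ρ ^ 2 := (div_lt_iff₀ (by positivity)).mp (lt_of_le_of_lt
    (le_add_of_nonneg_left (by positivity)) hn)
  have n0 : (0 : ℝ) < n := by nlinarith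
  have h3 : n * ρ / 2 ≤ ‖(s n).1.2.2‖ * ‖c - x‖ := by
    have : 0 ≤ 2 * (1 / 2 : ℝ) ^ n * C := by positivity
    linarith [(h2 n).2, real_inner_le_norm (s n).1.2.2 (c - x)]
  have h4 := pow_le_pow_left₀ (by positivity) h3 2
  rw [mul_pow] at h4
  nlinarith [mul_le_mul_of_nonneg_right (h2 n).1 (sq_nonneg ‖c - x‖), mul_lt_mul_of_pos_left n2 n0]

end

/-- The negation of the preceding statement: There is a family of pairwise disjoint, bounded, closed convex sets with nonempty interior whose union is the whole real Hilbert space ℓ²(ℝ), i.e. ℓ₂ of continuum density. -/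
theorem result :
    ¬ (∃ 𝒯 : Set (Set (lp (fun _ : ℝ => ℝ) (2 : ENNReal))),
      (∀ C ∈ 𝒯, IsClosed C ∧ Convex ℝ C ∧ (interior C).Nonempty ∧ Bornology.IsBounded C) ∧
      𝒯.PairwiseDisjoint id ∧
      ⋃₀ 𝒯 = Set.univ) := by
  rintro ⟨𝒯, h1, h2, h3⟩
  choose T hT hx using fun x => mem_sUnion.mp (h3.ge (mem_univ x))
  refine main (T := T) ⟨hx, fun x => (h1 _ (hT x)).1, fun x => (h1 _ (hT x)).2.1,
    fun x => (h1 _ (hT x)).2.2.1, fun x y h => by_contra fun e =>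
      Set.disjoint_left.mp (h2 (hT y) (hT x) e) (hx y) h, fun x => ?_⟩
  obtain ⟨R, hR⟩ := (h1 _ (hT x)).2.2.2.exists_norm_le
  refine ⟨lp.single 2 0 (|R| + 1), fun e => ?_⟩
  have := hR _ e
  rw [lp.norm_single (by norm_num), Real.norm_eq_abs, abs_of_pos (by positivity)] at this
  linarith [le_abs_self R]

end Pool.Agent.S04698
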