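import Pool.Statements.S04707
import Pool.Agent.Lib.helper6.Ach

set_option autoImplicit false
open Pool Pool.MP_555292_an

namespace Pool.Agent.S04707

open Set Pool.Agent.H6Ach

noncomputable section

def x (n : ℕ) : ℝ := (if n % 2 = 0 then 30 else 4) / 10 ^ (n / 2)

def y (n : ℕ) : ℝ :=
  (if n % 4 = 0 then 4 else if n % 4 = 1 then 7 else if n % 4 = 2 then 9 else 14) / 10 ^ (n / 4)

lemma x_pos (n : ℕ) : 0 < x n := by unfold x; split_ifs <;> positivity
lemma y_pos (n : ℕ) : 0 < y n := by unfold y; split_ifs <;> positivity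

lemma x_rec (n : ℕ) : x (n + 2) = x n / 10 := by
  unfold x
  rw [Nat.add_mod_right, Nat.add_div_right _ (by norm_num), pow_succ]
  field_simp

lemma y_rec (n : ℕ) : y (n + 4) = y n / 10 := by
  unfold y
  rw [Nat.add_mod_right, Nat.add_div_right _ (by norm_num), pow_succ]
  field_simp

lemma x0 : x 0 = 30 := by norm_num [x]
lemma x1 : x 1 = 4 := by norm_num [x]

lemma x_sum : Summable x ∧ ∑' n, x n = 340 / 9 := by
  have := block_sum (m := 2) (q := 10) (by norm_num) (by norm_num) (fun n => (x_pos n).le) x_rec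
  refine ⟨this.1, ?_⟩
  rw [this.2]
  norm_num [Finset.sum_range_succ, x]

lemma y_sum : Summable y ∧ ∑' n, y n = 340 / 9 := by
  have := block_sum (m := 4) (q := 10) (by norm_num) (by norm_num) (fun n => (y_pos n).le) y_rec
  refine ⟨this.1, ?_⟩
  rw [this.2]
  norm_num [Finset.sum_range_succ, y]

def r (n : ℕ) : ℝ := ∑' k, x (n + 1 + k)

lemma r_rec (n : ℕ) : r (n + 2) = r n / 10 := by
  unfold r
  rw [← tsum_div_const]
  apply tsum_congr
  intro k
  rw [← x_rec]; congr 1; ring

lemma r0 : r 0 = 70 / 9 := by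
  have h := x_sum.1.sum_add_tsum_nat_add 1
  rw [x_sum.2] at h
  simp only [Finset.sum_range_one, x0] at h
  have : r 0 = ∑' k, x (k + 1) := tsum_congr fun k => by rw [add_comm]
  linarith

lemma r1 : r 1 = 34 / 9 := by
  have h := x_sum.1.sum_add_tsum_nat_add 2
  rw [x_sum.2] at h
  simp only [Finset.sum_range_succ, Finset.sum_range_zero, x0, x1] at h
  have : r 1 = ∑' k, x (k + 2) := tsum_congr fun k => by rw [add_comm]
  linarith

lemma fast (n : ℕ) : r n < x n := by
  induction n using Nat.twoStepInduction with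
  | zero => rw [r0, x0]; norm_num
  | one => rw [r1, x1]; norm_num
  | more n h _ => rw [r_rec, x_rec]; linarith

lemma memX (s : ℝ) : s ∈ E x ↔
    10 * s ∈ E x ∨ 10 * (s - 4) ∈ E x ∨ 10 * (s - 30) ∈ E x ∨ 10 * (s - 34) ∈ E x := by
  have h2 : sh 2 x = fun n => x n / 10 := funext x_rec
  have e1 : sh 1 x 0 = 4 := x1
  rw [E_succ x_sum.1, E_succ (sh_summ x_sum.1 1), E_succ (sh_summ x_sum.1 1), sh_sh, h2]
  simp only [E_div 10 (by norm_num), x0, e1]
  rw [show s - 30 - 4 = s - 34 by ring]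
  tauto

def D : List ℝ := [0, 4, 7, 9, 11, 13, 14, 16, 18, 20, 21, 23, 25, 27, 30, 34]

lemma memY (s : ℝ) : s ∈ E y ↔ ∃ d ∈ D, 10 * (s - d) ∈ E y := by
  have h2 : sh 4 y = fun n => y n / 10 := funext y_rec
  have e0 : y 0 = 4 := by norm_num [y]
  have e1 : sh 1 y 0 = 7 := by norm_num [y, sh]
  have e2 : sh 2 y 0 = 9 := by norm_num [y, sh]
  have e3 : sh 3 y 0 = 14 := by norm_num [y, sh]
  have s1 := E_succ (sh_summ y_sum.1 1)
  have s2 := E_succ (sh_summ y_sum.1 2)
  have s3 := E_succ (sh_summ y_sum.1 3)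
  rw [sh_sh] at s1 s2 s3
  norm_num at s1 s2 s3
  rw [E_succ y_sum.1]
  simp only [s1, s2, s3, h2, E_div 10 (by norm_num), e0, e1, e2, e3, D, sub_sub, List.mem_cons,
    List.not_mem_nil, or_false, exists_eq_or_imp, exists_eq_left]
  norm_num
  tauto

def FS (z : ℕ → ℝ) (n : ℕ) : Set ℝ := {s | ∃ F : Finset ℕ, F ⊆ Finset.range n ∧ s = ∑ i ∈ F, z i}

lemma FS_iff (z : ℕ → ℝ) (n : ℕ) (s : ℝ) :
    s ∈ FS z n ↔ ∃ e : ℕ → Bool, s = ∑ i ∈ Finset.range n, if e i then z i else 0 := by
  constructor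
  · rintro ⟨F, hF, rfl⟩
    refine ⟨fun i => decide (i ∈ F), ?_⟩
    simp only [decide_eq_true_eq]
    rw [← Finset.sum_filter, Finset.filter_mem_eq_inter, Finset.inter_eq_right.2 hF]
  · rintro ⟨e, rfl⟩
    exact ⟨(Finset.range n).filter (fun i => e i), Finset.filter_subset _ _,
      (Finset.sum_filter _ _).symm⟩

lemma FS_rec (n : ℕ) (s : ℝ) : s ∈ FS x (n + 2) ↔
    ∃ f ∈ FS x n, s = f / 10 ∨ s = 4 + f / 10 ∨ s = 30 + f / 10 ∨ s = 34 + f / 10 := by
  have key : ∀ e : ℕ → Bool, (∑ i ∈ Finset.range (n + 2), if e i then x i else 0) =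
      (∑ i ∈ Finset.range n, if e (i + 2) then x i else 0) / 10
        + (if e 1 then 4 else 0) + (if e 0 then 30 else 0) := by
    intro e
    rw [Finset.sum_range_succ', Finset.sum_range_succ', Finset.sum_div, x0]
    congr 2
    · apply Finset.sum_congr rfl
      intro i _
      rw [show i + 1 + 1 = i + 2 by ring, x_rec]
      split_ifs <;> simp
    · simp [x1]
  simp only [FS_iff]
  constructor
  · rintro ⟨e, rfl⟩
    refine ⟨_, ⟨fun i => e (i + 2), rfl⟩, ?_⟩
    rw [key]
    generalize (∑ i ∈ Finset.range n, if e (i + 2) then x i else 0) = f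
    cases e 0 <;> cases e 1
    · left; simp
    · right; left; simp; ring
    · right; right; left; simp; ring
    · right; right; right; simp; ring
  · rintro ⟨_, ⟨e, rfl⟩, h⟩
    have mk : ∀ a b : Bool, ∃ e' : ℕ → Bool, e' 0 = a ∧ e' 1 = b ∧ ∀ i, e' (i + 2) = e i :=
      fun a b => ⟨fun i => if i = 0 then a else if i = 1 then b else e (i - 2), by simp, by simp,
        fun i => by simp⟩
    rcases h with h | h | h | h
    · obtain ⟨e', h0, h1, h2⟩ := mk false false
      exact ⟨e', by rw [key, h]; simp [h0, h1, h2]⟩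
    · obtain ⟨e', h0, h1, h2⟩ := mk false true
      exact ⟨e', by rw [key, h]; simp [h0, h1, h2]; ring⟩
    · obtain ⟨e', h0, h1, h2⟩ := mk true false
      exact ⟨e', by rw [key, h]; simp [h0, h1, h2]; ring⟩
    · obtain ⟨e', h0, h1, h2⟩ := mk true true
      exact ⟨e', by rw [key, h]; simp [h0, h1, h2]; ring⟩

def G : Set ℝ := {t | ∃ n : ℕ, Even n ∧ ∃ f ∈ FS x n, f + r n < t ∧ t < f + x n}

lemma memG (t : ℝ) : t ∈ G ↔ (70 / 9 < t ∧ t < 30) ∨
    10 * t ∈ G ∨ 10 * (t - 4) ∈ G ∨ 10 * (t - 30) ∈ G ∨ 10 * (t - 34) ∈ G := by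
  constructor
  · rintro ⟨n, hn, f, hf, h1, h2⟩
    rcases Nat.eq_zero_or_pos n with rfl | hpos
    · left
      obtain ⟨e, rfl⟩ := (FS_iff _ _ _).1 hf
      rw [r0] at h1; rw [x0] at h2
      simp at h1 h2
      exact ⟨h1, h2⟩
    · obtain ⟨n, rfl⟩ : ∃ m, n = m + 2 := ⟨n - 2, by obtain ⟨k, hk⟩ := hn; omega⟩
      have hn' : Even n := by obtain ⟨k, hk⟩ := hn; exact ⟨k - 1, by omega⟩
      rw [r_rec] at h1; rw [x_rec] at h2
      obtain ⟨f', hf', h | h | h | h⟩ := (FS_rec _ _).1 hf
      · exact Or.inr (Or.inl ⟨n, hn', f', hf', by linarith, by linarith⟩)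
      · exact Or.inr (Or.inr (Or.inl ⟨n, hn', f', hf', by linarith, by linarith⟩))
      · exact Or.inr (Or.inr (Or.inr (Or.inl ⟨n, hn', f', hf', by linarith, by linarith⟩)))
      · exact Or.inr (Or.inr (Or.inr (Or.inr ⟨n, hn', f', hf', by linarith, by linarith⟩)))
  · rintro (h | ⟨n, hn, f, hf, h1, h2⟩ | ⟨n, hn, f, hf, h1, h2⟩ | ⟨n, hn, f, hf, h1, h2⟩ |
      ⟨n, hn, f, hf, h1, h2⟩)
    · exact ⟨0, Even.zero, 0, ⟨∅, by simp, by simp⟩, by rw [r0]; linarith, by rw [x0]; linarith⟩
    · exact ⟨n + 2, hn.add even_two, _, (FS_rec _ _).2 ⟨f, hf, Or.inl rfl⟩,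
        by rw [r_rec]; linarith, by rw [x_rec]; linarith⟩
    · exact ⟨n + 2, hn.add even_two, _, (FS_rec _ _).2 ⟨f, hf, Or.inr (Or.inl rfl)⟩,
        by rw [r_rec]; linarith, by rw [x_rec]; linarith⟩
    · exact ⟨n + 2, hn.add even_two, _, (FS_rec _ _).2 ⟨f, hf, Or.inr (Or.inr (Or.inl rfl))⟩,
        by rw [r_rec]; linarith, by rw [x_rec]; linarith⟩
    · exact ⟨n + 2, hn.add even_two, _, (FS_rec _ _).2 ⟨f, hf, Or.inr (Or.inr (Or.inr rfl))⟩,
        by rw [r_rec]; linarith, by rw [x_rec]; linarith⟩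

lemma G_bd {t : ℝ} (h : t ∈ G) : 0 ≤ t ∧ t ≤ 340 / 9 := by
  obtain ⟨n, -, f, ⟨F, hF, rfl⟩, h1, h2⟩ := h
  have a : 0 ≤ ∑ i ∈ F, x i := Finset.sum_nonneg fun i _ => (x_pos i).le
  have b : 0 ≤ r n := tsum_nonneg fun i => (x_pos _).le
  refine ⟨by linarith, ?_⟩
  have hn : n ∉ F := fun h => by simpa using hF h
  have c := x_sum.1.sum_le_tsum (insert n F) (fun i _ => (x_pos i).le)
  rw [Finset.sum_insert hn, x_sum.2] at c
  linarith

def A : Set ℝ := E x ∪ G

lemma A_bd {t : ℝ} (h : t ∈ A) : 0 ≤ t ∧ t ≤ 340 / 9 := by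
  rcases h with h | h
  · have := E_bounds (fun n => (x_pos n).le) x_sum.1 h
    rwa [x_sum.2] at this
  · exact G_bd h

lemma memA (t : ℝ) : t ∈ A ↔ (70 / 9 ≤ t ∧ t ≤ 30) ∨
    10 * t ∈ A ∨ 10 * (t - 4) ∈ A ∨ 10 * (t - 30) ∈ A ∨ 10 * (t - 34) ∈ A := by
  have h0 := zero_mem x
  have h1 := full_mem x
  rw [x_sum.2] at h1
  constructor
  · intro h
    rcases h with h | h
    · rcases (memX t).1 h with h | h | h | h <;> simp [A, h]
    · rcases (memG t).1 h with h | h | h | h | h
      · exact Or.inl ⟨h.1.le, h.2.le⟩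
      all_goals simp [A, h]
  · intro h
    rcases h with ⟨a, b⟩ | h
    · rcases a.eq_or_lt with rfl | a
      · exact Or.inl ((memX _).2 (Or.inr (Or.inl (by convert h1 using 1; norm_num))))
      rcases b.eq_or_lt with rfl | b
      · exact Or.inl ((memX _).2 (Or.inr (Or.inr (Or.inl (by convert h0 using 1; norm_num)))))
      exact Or.inr ((memG _).2 (Or.inl ⟨a, b⟩))
    · unfold A at *
      rw [mem_union, memX, memG]
      simp only [mem_union] at h
      tauto

lemma upA {w : ℝ} (hw : w ∈ A) {d : ℝ} (hd : d ∈ D) : d + w / 10 ∈ A := by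
  have b := A_bd hw
  simp only [D, List.mem_cons, List.not_mem_nil, or_false] at hd
  rw [memA]
  rcases hd with rfl | rfl | rfl | rfl | rfl | rfl | rfl | rfl | rfl | rfl | rfl | rfl | rfl | rfl |
    rfl | rfl
  · right; left; convert hw using 1; ring
  · right; right; left; convert hw using 1; ring
  · by_cases h : 70 / 9 ≤ w
    · left; constructor <;> linarith
    · push Not at h
      right; right; left
      rw [memA] at hw ⊢
      rcases hw with h1 | h1 | h1 | h1 | h1
      · linarith [h1.1]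
      · right; right; right; left; convert h1 using 1; ring
      · right; right; right; right; convert h1 using 1; ring
      · linarith [(A_bd h1).1]
      · linarith [(A_bd h1).1]
  iterate 10 (left; constructor <;> linarith)
  · by_cases h : w ≤ 30
    · left; constructor <;> linarith
    · push Not at h
      right; right; right; left
      rw [memA] at hw ⊢
      rcases hw with h1 | h1 | h1 | h1 | h1
      · linarith [h1.2]
      · linarith [(A_bd h1).2]
      · linarith [(A_bd h1).2]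
      · right; left; convert h1 using 1; ring
      · right; right; left; convert h1 using 1; ring
  · right; right; right; left; convert hw using 1; ring
  · right; right; right; right; convert hw using 1; ring

lemma downA {t : ℝ} (ht : t ∈ A) : ∃ d ∈ D, 10 * (t - d) ∈ A := by
  rcases (memA t).1 ht with ⟨a, b⟩ | h | h | h | h
  · have key : ∀ d ∈ D, 7 / 9 + d ≤ t → t ≤ 3 + d → ∃ d ∈ D, 10 * (t - d) ∈ A :=
      fun d hd h1 h2 => ⟨d, hd, (memA _).2 (Or.inl ⟨by linarith, by linarith⟩)⟩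
    by_cases h : t ≤ 10; · exact key 7 (by simp [D]) (by linarith) (by linarith)
    by_cases h : t ≤ 12; · exact key 9 (by simp [D]) (by linarith) (by linarith)
    by_cases h : t ≤ 14; · exact key 11 (by simp [D]) (by linarith) (by linarith)
    by_cases h : t ≤ 16; · exact key 13 (by simp [D]) (by linarith) (by linarith)
    by_cases h : t ≤ 17; · exact key 14 (by simp [D]) (by linarith) (by linarith)
    by_cases h : t ≤ 19; · exact key 16 (by simp [D]) (by linarith) (by linarith)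
    by_cases h : t ≤ 21; · exact key 18 (by simp [D]) (by linarith) (by linarith)
    by_cases h : t ≤ 23; · exact key 20 (by simp [D]) (by linarith) (by linarith)
    by_cases h : t ≤ 24; · exact key 21 (by simp [D]) (by linarith) (by linarith)
    by_cases h : t ≤ 26; · exact key 23 (by simp [D]) (by linarith) (by linarith)
    by_cases h : t ≤ 28; · exact key 25 (by simp [D]) (by linarith) (by linarith)
    exact key 27 (by simp [D]) (by linarith) (by linarith)
  · exact ⟨0, by simp [D], by simpa using h⟩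
  · exact ⟨4, by simp [D], h⟩
  · exact ⟨30, by simp [D], h⟩
  · exact ⟨34, by simp [D], h⟩

lemma A_closed : IsClosed A := by
  have hcl : closure A ⊆ {t | (70 / 9 ≤ t ∧ t ≤ 30) ∨ 10 * t ∈ closure A ∨
      10 * (t - 4) ∈ closure A ∨ 10 * (t - 30) ∈ closure A ∨ 10 * (t - 34) ∈ closure A} := by
    apply closure_minimal
    · intro t ht
      rcases (memA t).1 ht with h | h | h | h | h
      · exact Or.inl h
      · exact Or.inr (Or.inl (subset_closure h))
      · exact Or.inr (Or.inr (Or.inl (subset_closure h)))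
      · exact Or.inr (Or.inr (Or.inr (Or.inl (subset_closure h))))
      · exact Or.inr (Or.inr (Or.inr (Or.inr (subset_closure h))))
    · exact isClosed_Icc.union ((isClosed_closure.preimage (by fun_prop)).union
        ((isClosed_closure.preimage (f := fun t : ℝ => 10 * (t - 4)) (by fun_prop)).union
        ((isClosed_closure.preimage (f := fun t : ℝ => 10 * (t - 30)) (by fun_prop)).union
        (isClosed_closure.preimage (f := fun t : ℝ => 10 * (t - 34)) (by fun_prop)))))
  have hb : closure A ⊆ Icc 0 (340 / 9) := closure_minimal (fun t ht => A_bd ht) isClosed_Icc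
  have := coind (S := closure A \ A) (E_compact (fun n => (x_pos n).le) x_sum.1).isClosed
    (zero_mem x) (R := 340 / 9) (q := 10) (by norm_num)
    (fun z hz => abs_le.2 ⟨by linarith [(hb hz.1).1], (hb hz.1).2⟩) (by
      intro z hz
      have hn := hz.2
      rw [memA] at hn
      push Not at hn
      rcases hcl hz.1 with h | h | h | h | h
      · linarith [hn.1 h.1, h.2]
      · refine ⟨_, ⟨h, hn.2.1⟩, fun w hw => (memX _).2 ?_⟩
        left; convert hw using 1; ring
      · refine ⟨_, ⟨h, hn.2.2.1⟩, fun w hw => (memX _).2 ?_⟩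
        right; left; convert hw using 1; ring
      · refine ⟨_, ⟨h, hn.2.2.2.1⟩, fun w hw => (memX _).2 ?_⟩
        right; right; left; convert hw using 1; ring
      · refine ⟨_, ⟨h, hn.2.2.2.2⟩, fun w hw => (memX _).2 ?_⟩
        right; right; right; convert hw using 1; ring)
  apply isClosed_of_closure_subset
  intro z hz
  by_contra hn
  exact hn (Or.inl (this ⟨hz, hn⟩))

lemma main : E y = A := by
  apply Subset.antisymm
  · refine coind A_closed (Or.inl (zero_mem x)) (R := 340 / 9) (q := 10) (by norm_num)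
      (fun z hz => ?_) (fun z hz => ?_)
    · have := E_bounds (fun n => (y_pos n).le) y_sum.1 hz
      rw [y_sum.2] at this
      exact abs_le.2 ⟨by linarith, this.2⟩
    · obtain ⟨d, hd, h⟩ := (memY z).1 hz
      refine ⟨_, h, fun w hw => ?_⟩
      convert upA hw hd using 1; ring
  · refine coind (E_compact (fun n => (y_pos n).le) y_sum.1).isClosed (zero_mem y)
      (R := 340 / 9) (q := 10) (by norm_num)
      (fun z hz => abs_le.2 ⟨by linarith [(A_bd hz).1], (A_bd hz).2⟩) (fun z hz => ?_)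
    obtain ⟨d, hd, h⟩ := downA hz
    refine ⟨_, h, fun w hw => (memY _).2 ⟨d, hd, ?_⟩⟩
    convert hw using 1; ring

end

theorem result :
    ∃ x : ℕ → ℝ, (∀ n, 0 < x n) ∧ Summable x ∧
      (∀ n, ∑' k, x (n + 1 + k) < x n) ∧
      ∃ y : ℕ → ℝ, (∀ n, 0 < y n) ∧ Summable y ∧
        {s : ℝ | ∃ A : Set ℕ, s = ∑' n, A.indicator y n} =
          {s : ℝ | ∃ A : Set ℕ, s = ∑' n, A.indicator x n} ∪
          {t : ℝ | ∃ n : ℕ, Even n ∧ ∃ F : Finset ℕ, F ⊆ Finset.range n ∧
              (∑ i ∈ F, x i) + (∑' k, x (n + 1 + k)) < t ∧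
              t < (∑ i ∈ F, x i) + x n} := by
  refine ⟨x, x_pos, x_sum.1, fast, y, y_pos, y_sum.1, ?_⟩
  refine main.trans ?_
  unfold A
  congr 1
  ext t
  constructor
  · rintro ⟨n, hn, _, ⟨F, hF, rfl⟩, h⟩
    exact ⟨n, hn, F, hF, h⟩
  · rintro ⟨n, hn, F, hF, h⟩
    exact ⟨n, hn, _, ⟨F, hF, rfl⟩, h⟩

end Pool.Agent.S04707
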