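import Pool.Statements.S04719
import Pool.Agent.Lib.helper11.Surj

set_option autoImplicit false
open Pool Pool.MP_565f87_an

namespace Pool.Agent.S04719

/-- For every monoid whose finitely generated submonoids are all finite, every injective cellular automaton over a finite alphabet (finite memory set, local rule applied to shifted configurations) is surjective. -/
theorem result :
    ∀ (M : Type) [Monoid M],
      (∀ s : Finset M, (Submonoid.closure (s : Set M) : Set M).Finite) →
      ∀ (k : ℕ) (τ : (M → Fin k) → (M → Fin k)),
        (∃ S : Finset M, ∃ μ : ({a : M // a ∈ S} → Fin k) → Fin k,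
          ∀ (x : M → Fin k) (m : M), τ x m = μ (fun s => x (m * s.1))) →
        Function.Injective τ → Function.Surjective τ := by
  rintro M _ H k τ ⟨S, μ, h⟩ hi y
  classical
  have e : ∀ x, Surj.ca (fun i : S => MulOpposite.op i.1) μ x =
      fun m => τ (fun a => x (MulOpposite.op a)) m.unop := fun x => funext fun m => by
    rw [h]; rfl
  obtain ⟨x, hx⟩ := Surj.main (s := fun i : S => MulOpposite.op i.1) (μ := μ) (fun T =>
    ⟨(Submonoid.closure (T.image MulOpposite.unop : Finset M)).op, fun a ha =>
      Submonoid.subset_closure (by simpa using ha), fun κ _ s f ν h =>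
      haveI : Finite (Submonoid.closure (T.image MulOpposite.unop : Finset M) : Submonoid M).op :=
        ((H _).preimage (f := MulOpposite.unop) MulOpposite.unop_injective.injOn).to_subtype
      h.fin⟩) (fun x x' hx => by
      rw [e, e] at hx
      exact funext fun m => congrFun (hi (funext fun a => congrFun hx (MulOpposite.op a))) m.unop)
    fun m => y m.unop
  rw [e] at hx
  exact ⟨_, funext fun a => congrFun hx (MulOpposite.op a)⟩

end Pool.Agent.S04719
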