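import Pool.Statements.S04734
import Pool.Agent.Lib.helper31.Hill

set_option autoImplicit false
open Pool Pool.MP_5876d3_an

namespace Pool.Agent.S04734


open Complex Pool.Agent.Lib.helper31.Hill

noncomputable def w (x : ℝ) : ℂ := cexp (x * I)

lemma w_ne (x : ℝ) : w x ≠ 0 := exp_ne_zero _

lemma norm_w (x : ℝ) : ‖w x‖ = 1 := norm_exp_ofReal_mul_I x

lemma w_per (x : ℝ) : w (x + 2 * Real.pi) = w x := by
  unfold w; push_cast; rw [add_mul, exp_add, exp_two_pi_mul_I, mul_one]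

lemma hw (x : ℝ) : HasDerivAt w (I * w x) x := by
  have h : HasDerivAt (fun z : ℂ => cexp (z * I)) (cexp (x * I) * I) (x : ℂ) := by
    simpa using ((hasDerivAt_id (x : ℂ)).mul_const I).cexp
  exact h.comp_ofReal.congr_deriv (by unfold w; ring)

lemma w_cont : Continuous w := by unfold w; fun_prop

lemma slit {z : ℂ} (h : ‖z‖ < 1) : 1 - z ∈ slitPlane := by
  left
  have := re_le_norm z
  simp only [sub_re, one_re]; linarith

section
variable {a t : ℂ}

lemma s1 (ha : ‖a‖ < 1) (x : ℝ) : 1 - a / w x ∈ slitPlane :=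
  slit (by rwa [norm_div, norm_w, div_one])

lemma s2 (ht : ‖t‖ < 1) (x : ℝ) : 1 - t * w x ∈ slitPlane :=
  slit (by rwa [norm_mul, norm_w, mul_one])

lemma n1 (ha : ‖a‖ < 1) (x : ℝ) : w x - a ≠ 0 := fun h => by
  have h2 : w x = a := by linear_combination h
  have := norm_w x
  rw [h2] at this; linarith

lemma n2 (ht : ‖t‖ < 1) (x : ℝ) : 1 - t * w x ≠ 0 := slitPlane_ne_zero (s2 ht x)

lemma hl1 (ha : ‖a‖ < 1) (x : ℝ) :
    HasDerivAt (fun x => log (1 - a / w x)) (I * (a / (w x - a))) x := by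
  have h := ((((hasDerivAt_const x a).div (hw x) (w_ne x))).const_sub 1).clog_real (s1 ha x)
  refine h.congr_deriv ?_
  have := n1 ha x
  have := w_ne x
  simp only [Pi.div_apply]
  field_simp
  ring

lemma hl2 (ht : ‖t‖ < 1) (x : ℝ) :
    HasDerivAt (fun x => log (1 - t * w x)) (-I * (t * w x / (1 - t * w x))) x := by
  have h := (((hw x).const_mul t).const_sub 1).clog_real (s2 ht x)
  refine h.congr_deriv ?_
  ring

lemma mean (ha : ‖a‖ < 1) (ht : ‖t‖ < 1) {f : ℝ → ℂ} (C cm c1 c2 c3 A T : ℂ)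
    (hf : ∀ x, f x = C + cm * (w x)⁻¹ + c1 * w x + c2 * w x ^ 2 + c3 * w x ^ 3 +
      A * (a / (w x - a)) + T * (t * w x / (1 - t * w x))) :
    ∫ x in (0 : ℝ)..(2 * Real.pi), f x = 2 * Real.pi * C := by
  have hd : ∀ x : ℝ, HasDerivAt (fun x : ℝ => C * x + cm * I * (w x)⁻¹ - c1 * I * w x -
      c2 * I / 2 * w x ^ 2 - c3 * I / 3 * w x ^ 3 - A * I * log (1 - a / w x) +
      T * I * log (1 - t * w x)) (f x) x := fun x => by
    have h0 : HasDerivAt (fun x : ℝ => (x : ℂ)) 1 x := (hasDerivAt_id (x : ℂ)).comp_ofReal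
    have h := (((((((h0.const_mul C).add (((hw x).inv (w_ne x)).const_mul (cm * I))).sub
      ((hw x).const_mul (c1 * I))).sub (((hw x).pow 2).const_mul (c2 * I / 2))).sub
      (((hw x).pow 3).const_mul (c3 * I / 3))).sub ((hl1 ha x).const_mul (A * I))).add
      ((hl2 ht x).const_mul (T * I)))
    refine h.congr_deriv ?_
    rw [hf]
    have h1 : -(I * w x) / w x ^ 2 = -I * (w x)⁻¹ := by
      have := w_ne x
      field_simp
    rw [h1]
    push_cast
    linear_combination (-(cm * (w x)⁻¹ + c1 * w x + c2 * w x ^ 2 + c3 * w x ^ 3 +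
      A * (a / (w x - a)) + T * (t * w x / (1 - t * w x)))) * I_mul_I
  have hc : Continuous f := by
    rw [show f = _ from funext hf]
    have := w_cont
    have h1 : Continuous fun x => (w x)⁻¹ := this.inv₀ w_ne
    have h2 : Continuous fun x => a / (w x - a) := continuous_const.div (by fun_prop) (n1 ha)
    have h3 : Continuous fun x => t * w x / (1 - t * w x) :=
      Continuous.div (by fun_prop) (by fun_prop) (n2 ht)
    fun_prop
  rw [intervalIntegral.integral_eq_sub_of_hasDerivAt (fun x _ => hd x) (hc.intervalIntegrable _ _)]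
  have := w_per 0
  rw [zero_add] at this
  rw [this]; push_cast; ring

noncomputable def u (a t : ℂ) (x : ℝ) : ℂ :=
  cexp (-(1 / 2) * (2 * (x * I) + log (1 - a / w x) + log (1 - t * w x)))

noncomputable def L (a t v : ℂ) : ℂ :=
  -(1 / 2) * (2 * I + I * (a / (v - a)) + -I * (t * v / (1 - t * v)))

noncomputable def L1 (a t v : ℂ) : ℂ := -(1 / 2) * (a * v / (v - a) ^ 2 + t * v / (1 - t * v) ^ 2)

noncomputable def psi (a t v : ℂ) : ℂ := v ^ 2 * (1 + a * t) / 2 - a * v - t * v ^ 3 / 3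

noncomputable def P (a t v : ℂ) : ℂ := v * (v - a) * (1 - t * v)

lemma hu (ha : ‖a‖ < 1) (ht : ‖t‖ < 1) (x : ℝ) :
    HasDerivAt (u a t) (L a t (w x) * u a t x) x := by
  have h0 : HasDerivAt (fun x : ℝ => (x : ℂ)) 1 x := (hasDerivAt_id (x : ℂ)).comp_ofReal
  have h := (((((h0.mul_const I).const_mul 2).add (hl1 ha x)).add (hl2 ht x)).const_mul
    (-(1 / 2))).cexp
  refine h.congr_deriv ?_
  unfold L u
  simp only [Pi.add_apply]
  ring

lemma u_per (a t : ℂ) (x : ℝ) : u a t (x + 2 * Real.pi) = u a t x := by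
  unfold u
  rw [w_per, ← exp_periodic.sub_eq
    (-(1 / 2) * (2 * (x * I) + log (1 - a / w x) + log (1 - t * w x)))]
  congr 1; push_cast; ring

lemma u_sq (ha : ‖a‖ < 1) (ht : ‖t‖ < 1) (x : ℝ) : P a t (w x) * (u a t x * u a t x) = 1 := by
  unfold u
  rw [← exp_add]
  have e : -(1 / 2) * (2 * (x * I) + log (1 - a / w x) + log (1 - t * w x)) +
      -(1 / 2) * (2 * (x * I) + log (1 - a / w x) + log (1 - t * w x)) =
      -(x * I + x * I + log (1 - a / w x) + log (1 - t * w x)) := by ring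
  rw [e, exp_neg, exp_add, exp_add, exp_add, exp_log (slitPlane_ne_zero (s1 ha x)),
    exp_log (n2 ht x)]
  change P a t (w x) * (w x * w x * (1 - a / w x) * (1 - t * w x))⁻¹ = 1
  have := n1 ha x
  have := n2 ht x
  have : 1 - w x * t ≠ 0 := by rwa [mul_comm]
  have := w_ne x
  unfold P
  field_simp

lemma hL (ha : ‖a‖ < 1) (ht : ‖t‖ < 1) (x : ℝ) :
    HasDerivAt (fun x => L a t (w x)) (L1 a t (w x)) x := by
  have h := (((((hasDerivAt_const x a).div ((hw x).sub_const a) (n1 ha x)).const_mul I).const_add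
    (2 * I)).add ((((hw x).const_mul t).div (((hw x).const_mul t).const_sub 1)
    (n2 ht x)).const_mul (-I))).const_mul (-(1 / 2))
  refine h.congr_deriv ?_
  unfold L1
  linear_combination (1 / 2 * (a * w x / (w x - a) ^ 2 + t * w x / (1 - t * w x) ^ 2)) * I_mul_I

lemma hpsi (a t : ℂ) (x : ℝ) : HasDerivAt (fun x => psi a t (w x)) (I * P a t (w x)) x := by
  have h := ((((((hw x).pow 2).mul_const (1 + a * t)).div_const 2).sub ((hw x).const_mul a)).sub
    ((((hw x).pow 3).const_mul t).div_const 3))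
  refine h.congr_deriv ?_
  unfold P
  push_cast
  ring

lemma hP (ha : ‖a‖ < 1) (ht : ‖t‖ < 1) (x : ℝ) :
    HasDerivAt (fun x => P a t (w x)) (-2 * P a t (w x) * L a t (w x)) x := by
  have h := ((hw x).mul ((hw x).sub_const a)).mul (((hw x).const_mul t).const_sub 1)
  refine h.congr_deriv ?_
  unfold P L
  have := n1 ha x
  have := n2 ht x
  have : 1 - w x * t ≠ 0 := by rwa [mul_comm]
  simp only [Pi.mul_apply]
  field_simp
  ring

lemma pf0 {v : ℂ} (hv : v ≠ 0) (h1 : v - a ≠ 0) (h2 : 1 - t * v ≠ 0) (ha : a ≠ 0)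
    (hp : 1 - a * t ≠ 0) : (P a t v)⁻¹ = t ^ 2 / (1 - a * t) + (-1 / a) * v⁻¹ +
      1 / (a ^ 2 * (1 - a * t)) * (a / (v - a)) + t ^ 2 / (1 - a * t) * (t * v / (1 - t * v)) := by
  have : 1 - v * t ≠ 0 := by rwa [mul_comm]
  unfold P; field_simp; ring

lemma pf1 {v : ℂ} (hv : v ≠ 0) (h1 : v - a ≠ 0) (h2 : 1 - t * v ≠ 0)
    (hp : 1 - a * t ≠ 0) : psi a t v * (P a t v)⁻¹ = (3 - 5 * (a * t)) / (6 * (1 - a * t)) +
      (a * t - 3) / (6 * (1 - a * t)) * (a / (v - a)) +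
      (1 - 3 * (a * t)) / (6 * (1 - a * t)) * (t * v / (1 - t * v)) := by
  have : 1 - v * t ≠ 0 := by rwa [mul_comm]
  have : 1 - t * a ≠ 0 := by rwa [mul_comm]
  unfold P psi; field_simp; ring

lemma pf2 {v : ℂ} (hv : v ≠ 0) (h1 : v - a ≠ 0) (h2 : 1 - t * v ≠ 0) (ht : t ≠ 0)
    (hp : 1 - a * t ≠ 0) : psi a t v ^ 2 * (P a t v)⁻¹ =
      a ^ 2 * (a * t - 3) ^ 2 / (36 * (1 - a * t)) +
      (-a / 9 - 4 * a / 9 - (1 + a * t) ^ 2 / (36 * t)) * v + (2 * (1 + a * t) / 9) * v ^ 2 +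
      (-t / 9) * v ^ 3 +
      a ^ 2 * (a * t - 3) ^ 2 / (36 * (1 - a * t)) * (a / (v - a)) +
      (1 - 3 * (a * t)) ^ 2 / (36 * t ^ 2 * (1 - a * t)) * (t * v / (1 - t * v)) := by
  have : 1 - v * t ≠ 0 := by rwa [mul_comm]
  have : 1 - t * a ≠ 0 := by rwa [mul_comm]
  unfold P psi; field_simp; ring

noncomputable def data (ha : ‖a‖ < 1) (ht : ‖t‖ < 1) (ha0 : a ≠ 0) (ht0 : t ≠ 0)
    (hp : 1 - a * t ≠ 0) (hq : (a * t) ^ 2 - 8 * (a * t) + 3 = 0) : Data where
  a := 2 * Real.pi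
  g := 2 * Real.pi * (t ^ 2 / (1 - a * t))
  q := fun x => L1 a t (w x) + L a t (w x) ^ 2
  y1 := fun x => -I * (psi a t (w x) - (3 - 5 * (a * t)) / (6 * t ^ 2)) * u a t x
  y2 := fun x => -u a t x
  d1 := fun x => P a t (w x) * u a t x +
    -I * (psi a t (w x) - (3 - 5 * (a * t)) / (6 * t ^ 2)) * (L a t (w x) * u a t x)
  d2 := fun x => -(L a t (w x) * u a t x)
  ha := by positivity
  hg := mul_ne_zero (mul_ne_zero two_ne_zero (ofReal_ne_zero.mpr Real.pi_ne_zero))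
    (div_ne_zero (pow_ne_zero 2 ht0) hp)
  qc := by
    have := w_cont
    refine Continuous.add ?_ (Continuous.pow
      (continuous_iff_continuousAt.mpr fun x => (hL ha ht x).continuousAt) 2)
    unfold L1
    exact continuous_const.mul ((Continuous.div (by fun_prop) (by fun_prop)
      fun x => pow_ne_zero 2 (n1 ha x)).add (Continuous.div (by fun_prop) (by fun_prop)
      fun x => pow_ne_zero 2 (n2 ht x)))
  qp := fun x => by simp only [w_per]
  hy1 := fun x => ((((hpsi a t x).sub_const _).const_mul (-I)).mul (hu ha ht x)).congr_deriv (by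
    linear_combination (-(P a t (w x) * u a t x)) * I_mul_I)
  hy2 := fun x => (hu ha ht x).neg
  hd1 := fun x => (((hP ha ht x).mul (hu ha ht x)).add
    ((((hpsi a t x).sub_const _).const_mul (-I)).mul ((hL ha ht x).mul (hu ha ht x)))).congr_deriv
    (by
      simp only [Pi.mul_apply]
      linear_combination (-(P a t (w x) * L a t (w x) * u a t x)) * I_mul_I)
  hd2 := fun x => ((hL ha ht x).mul (hu ha ht x)).neg.congr_deriv (by ring)
  p1 := fun x => by simp only [w_per, u_per]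
  p2 := fun x => by simp only [u_per]
  p3 := fun x => by simp only [w_per, u_per]
  p4 := fun x => by simp only [w_per, u_per]
  W := fun x => by linear_combination u_sq ha ht x
  g11 := by
    set k := (3 - 5 * (a * t)) / (6 * t ^ 2) with hk
    rw [mean ha ht (-(a ^ 2 * (a * t - 3) ^ 2 / (36 * (1 - a * t)) -
        2 * k * ((3 - 5 * (a * t)) / (6 * (1 - a * t))) + k ^ 2 * (t ^ 2 / (1 - a * t))))
      (-(k ^ 2 * (-1 / a))) (-(-a / 9 - 4 * a / 9 - (1 + a * t) ^ 2 / (36 * t)))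
      (-(2 * (1 + a * t) / 9)) (-(-t / 9))
      (-(a ^ 2 * (a * t - 3) ^ 2 / (36 * (1 - a * t)) - 2 * k * ((a * t - 3) / (6 * (1 - a * t))) +
        k ^ 2 * (1 / (a ^ 2 * (1 - a * t)))))
      (-((1 - 3 * (a * t)) ^ 2 / (36 * t ^ 2 * (1 - a * t)) -
        2 * k * ((1 - 3 * (a * t)) / (6 * (1 - a * t))) + k ^ 2 * (t ^ 2 / (1 - a * t))))]
    · have : a ^ 2 * (a * t - 3) ^ 2 / (36 * (1 - a * t)) -
          2 * k * ((3 - 5 * (a * t)) / (6 * (1 - a * t))) + k ^ 2 * (t ^ 2 / (1 - a * t)) =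
          ((a * t) ^ 2 - 8 * (a * t) + 3) * ((a * t) ^ 2 + 2 * (a * t) - 3) /
            (36 * t ^ 2 * (1 - a * t)) := by
        rw [hk]; field_simp; ring
      rw [this, hq]; simp
    · intro x
      have e : u a t x * u a t x = (P a t (w x))⁻¹ := (eq_inv_of_mul_eq_one_right (u_sq ha ht x))
      have e0 := pf0 (w_ne x) (n1 ha x) (n2 ht x) ha0 hp
      have e1 := pf1 (w_ne x) (n1 ha x) (n2 ht x) hp
      have e2 := pf2 (w_ne x) (n1 ha x) (n2 ht x) ht0 hp
      linear_combination (I * I * (psi a t (w x) - k) ^ 2) * e +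
        ((psi a t (w x) - k) ^ 2 * (P a t (w x))⁻¹) * I_mul_I - e2 + 2 * k * e1 - k ^ 2 * e0
  g12 := by
    set k := (3 - 5 * (a * t)) / (6 * t ^ 2) with hk
    rw [mean ha ht (I * ((3 - 5 * (a * t)) / (6 * (1 - a * t)) - k * (t ^ 2 / (1 - a * t))))
      (I * (-(k * (-1 / a)))) 0 0 0
      (I * ((a * t - 3) / (6 * (1 - a * t)) - k * (1 / (a ^ 2 * (1 - a * t)))))
      (I * ((1 - 3 * (a * t)) / (6 * (1 - a * t)) - k * (t ^ 2 / (1 - a * t))))]
    · have : (3 - 5 * (a * t)) / (6 * (1 - a * t)) - k * (t ^ 2 / (1 - a * t)) = 0 := by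
        rw [hk]; field_simp; ring
      rw [this]; simp
    · intro x
      have e : u a t x * u a t x = (P a t (w x))⁻¹ := (eq_inv_of_mul_eq_one_right (u_sq ha ht x))
      have e0 := pf0 (w_ne x) (n1 ha x) (n2 ht x) ha0 hp
      have e1 := pf1 (w_ne x) (n1 ha x) (n2 ht x) hp
      linear_combination (I * (psi a t (w x) - k)) * e + I * e1 - I * k * e0
  g22 := by
    refine mean ha ht (t ^ 2 / (1 - a * t)) (-1 / a) 0 0 0 (1 / (a ^ 2 * (1 - a * t)))
      (t ^ 2 / (1 - a * t)) fun x => ?_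
    have e : u a t x * u a t x = (P a t (w x))⁻¹ := (eq_inv_of_mul_eq_one_right (u_sq ha ht x))
    have e0 := pf0 (w_ne x) (n1 ha x) (n2 ht x) ha0 hp
    linear_combination e + e0

end

lemma exists_data : Nonempty Data := by
  have h13 : √(13 : ℝ) ^ 2 = 13 := Real.sq_sqrt (by norm_num)
  have hl : 7 / 2 < √(13 : ℝ) := Real.lt_sqrt_of_sq_lt (by norm_num)
  have hu : √(13 : ℝ) < 4 := (Real.sqrt_lt' (by norm_num)).mpr (by norm_num)
  have hC : ((√(13 : ℝ) : ℝ) : ℂ) ^ 2 = 13 := by exact_mod_cast h13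
  refine ⟨data (a := ((8 - 2 * √(13 : ℝ) : ℝ) : ℂ)) (t := 1 / 2) ?_ (by norm_num) ?_ (by norm_num)
    ?_ ?_⟩
  · rw [norm_real, Real.norm_eq_abs, abs_lt]; constructor <;> linarith
  · exact ofReal_ne_zero.mpr (by linarith)
  · have : (1 : ℂ) - ((8 - 2 * √(13 : ℝ) : ℝ) : ℂ) * (1 / 2) = ((√(13 : ℝ) - 3 : ℝ) : ℂ) := by
      push_cast; ring
    rw [this]; exact ofReal_ne_zero.mpr (by linarith)
  · push_cast; linear_combination hC

/-- The negation of the preceding statement: For any locally integrable complex a-periodic q, if the zero order of (tr M)^2-4 at z exceeds the sum of the minimal (over base points in [0,a]) Dirichlet and Neumann zero orders at z, then that sum is 0. -/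
theorem result :
    ¬ (∀ (a : ℝ), 0 < a → ∀ q : ℝ → ℂ, Function.Periodic q a →
    MeasureTheory.LocallyIntegrable q MeasureTheory.volume →
    ∀ c dc s ds : ℝ → ℂ → ℝ → ℂ,
    (∀ (x₀ : ℝ) (z : ℂ), Continuous (c x₀ z) ∧ Continuous (dc x₀ z) ∧
      Continuous (s x₀ z) ∧ Continuous (ds x₀ z) ∧
      ∀ x : ℝ,
        (c x₀ z x = 1 + ∫ t in x₀..x, dc x₀ z t) ∧
        (dc x₀ z x = ∫ t in x₀..x, (q t - z) * c x₀ z t) ∧
        (s x₀ z x = ∫ t in x₀..x, ds x₀ z t) ∧
        (ds x₀ z x = 1 + ∫ t in x₀..x, (q t - z) * s x₀ z t)) →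
    ∀ z : ℂ,
      (⨅ x₀ ∈ Set.Icc (0 : ℝ) a, analyticOrderAt (fun w : ℂ => s x₀ w (x₀ + a)) z) +
        (⨅ x₀ ∈ Set.Icc (0 : ℝ) a, analyticOrderAt (fun w : ℂ => dc x₀ w (x₀ + a)) z)
        < analyticOrderAt (fun w : ℂ => (c 0 w a + ds 0 w a) ^ 2 - 4) z →
      (⨅ x₀ ∈ Set.Icc (0 : ℝ) a, analyticOrderAt (fun w : ℂ => s x₀ w (x₀ + a)) z) +
        (⨅ x₀ ∈ Set.Icc (0 : ℝ) a, analyticOrderAt (fun w : ℂ => dc x₀ w (x₀ + a)) z) = 0) := by
  intro h
  obtain ⟨D⟩ := exists_data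
  obtain ⟨c, dc, s, ds, h1, h2, h3, h4⟩ := counter D
  have := h D.a D.ha D.q D.qp D.qc.locallyIntegrable c dc s ds h1 0
  rw [h2, h3] at this
  exact absurd (this h4) (by decide)

end Pool.Agent.S04734
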