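import Pool.Statements.S04759
-- import your own Pool.Agent.* helpers here

set_option autoImplicit false
open Set
open Pool Pool.MP_5b6163_an

namespace Pool.Agent.S04759

open Classical in
/-- markers 1 at p - 2^k, markers 2 at q + 2^k -/
noncomputable def x (p q : ℤ) : ℤ → Fin 3 := fun i =>
  if ∃ k : ℕ, i = p - 2 ^ k then 1 else if ∃ k : ℕ, i = q + 2 ^ k then 2 else 0

def S : Set (ℤ → Fin 3) := {z | ∃ p q, p ≤ q ∧ z = x p q}

def X : Set (ℤ → Fin 3) := closure S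

def cyl (z : ℤ → Fin 3) (r : ℕ) : Set (ℤ → Fin 3) := {y | ∀ i : ℤ, |i| ≤ r → y i = z i}

lemma p2 (k : ℕ) : (1 : ℤ) ≤ 2 ^ k := one_le_pow₀ (by norm_num)

lemma x_one (p q i : ℤ) : x p q i = 1 ↔ ∃ k : ℕ, i = p - 2 ^ k := by
  unfold x
  split_ifs with h1 h2
  · simp [h1]
  · simp only [h1, iff_false]; decide
  · simp only [h1, iff_false]; decide

lemma x_two {p q : ℤ} (h : p ≤ q) (i : ℤ) : x p q i = 2 ↔ ∃ k : ℕ, i = q + 2 ^ k := by
  unfold x
  split_ifs with h1 h2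
  · obtain ⟨k, hk⟩ := h1
    constructor
    · intro h; exact absurd h (by decide)
    · rintro ⟨l, hl⟩
      have := p2 k; have := p2 l; omega
  · simp [h2]
  · simp only [h2, iff_false]; decide

lemma fin3 (a : Fin 3) (h1 : a ≠ 1) (h2 : a ≠ 2) : a = 0 := by revert a; decide

lemma x_shift (p q a i : ℤ) : x (p + a) (q + a) (i + a) = x p q i := by
  unfold x
  have e1 : (∃ k : ℕ, i + a = p + a - 2 ^ k) ↔ ∃ k : ℕ, i = p - 2 ^ k :=
    exists_congr fun k => by constructor <;> intro h <;> linarith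
  have e2 : (∃ k : ℕ, i + a = q + a + 2 ^ k) ↔ ∃ k : ℕ, i = q + 2 ^ k :=
    exists_congr fun k => by constructor <;> intro h <;> linarith
  by_cases h1 : ∃ k : ℕ, i = p - 2 ^ k
  · rw [if_pos h1, if_pos (e1.2 h1)]
  · rw [if_neg h1, if_neg (mt e1.1 h1)]
    by_cases h2 : ∃ k : ℕ, i = q + 2 ^ k
    · rw [if_pos h2, if_pos (e2.2 h2)]
    · rw [if_neg h2, if_neg (mt e2.1 h2)]

lemma isOpen_cyl (z : ℤ → Fin 3) (r : ℕ) : IsOpen (cyl z r) := by
  have : cyl z r = Set.pi (Icc (-(r : ℤ)) r) (fun i => {z i}) := by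
    ext y; simp only [cyl, mem_ofPred_eq, mem_pi, mem_Icc, mem_singleton_iff, abs_le]
  rw [this]
  exact isOpen_set_pi (finite_Icc _ _) fun _ _ => isOpen_discrete _

lemma cyl_sub {z : ℤ → Fin 3} {U : Set (ℤ → Fin 3)} (hU : IsOpen U) (hz : z ∈ U) :
    ∃ r : ℕ, cyl z r ⊆ U := by
  obtain ⟨I, u, hu, hsub⟩ := isOpen_pi_iff.1 hU z hz
  refine ⟨I.sup Int.natAbs, fun y hy => hsub fun i hi => ?_⟩
  have h1 : i.natAbs ≤ I.sup Int.natAbs := Finset.le_sup (f := Int.natAbs) hi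
  rw [hy i (by rw [← Int.natCast_natAbs]; exact_mod_cast h1)]
  exact (hu i hi).2

lemma mem_X {z : ℤ → Fin 3} :
    z ∈ X ↔ ∀ r : ℕ, ∃ p q, p ≤ q ∧ ∀ i : ℤ, |i| ≤ r → x p q i = z i := by
  unfold X
  rw [mem_closure_iff]
  constructor
  · intro h r
    obtain ⟨y, hy, p, q, hpq, rfl⟩ := h _ (isOpen_cyl z r) (fun _ _ => rfl)
    exact ⟨p, q, hpq, hy⟩
  · intro h U hU hz
    obtain ⟨r, hr⟩ := cyl_sub hU hz
    obtain ⟨p, q, hpq, hy⟩ := h r
    exact ⟨x p q, hr hy, p, q, hpq, rfl⟩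

lemma x_mem {p q : ℤ} (h : p ≤ q) : x p q ∈ X := subset_closure ⟨p, q, h, rfl⟩

lemma sh_mem {z : ℤ → Fin 3} (hz : z ∈ X) (j : ℤ) : (fun i => z (i + j)) ∈ X := by
  rw [mem_X] at hz ⊢
  intro r
  obtain ⟨p, q, hpq, h⟩ := hz (r + j.natAbs)
  refine ⟨p - j, q - j, by omega, fun i hi => ?_⟩
  rw [← x_shift _ _ j, sub_add_cancel, sub_add_cancel]
  apply h
  rw [abs_le] at hi ⊢
  push_cast
  constructor <;> cases abs_cases j <;> omega

lemma both {z : ℤ → Fin 3} (hz : z ∈ X) {i j : ℤ} (hi : z i = 1) (hj : z j = 2) :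
    ∃ p q, p ≤ q ∧ z = x p q := by
  have hU : IsOpen {y : ℤ → Fin 3 | y i = 1 ∧ y j = 2} :=
    IsOpen.inter
      ((isOpen_discrete ({1} : Set (Fin 3))).preimage
        (continuous_apply (A := fun _ : ℤ => Fin 3) i))
      ((isOpen_discrete ({2} : Set (Fin 3))).preimage
        (continuous_apply (A := fun _ : ℤ => Fin 3) j))
  have h1 := hU.inter_closure (t := S) ⟨⟨hi, hj⟩, hz⟩
  have hfin : ({y : ℤ → Fin 3 | y i = 1 ∧ y j = 2} ∩ S).Finite := by
    refine (((finite_Icc i j).prod (finite_Icc i j)).image (fun w => x w.1 w.2)).subset ?_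
    rintro y ⟨⟨h1, h2⟩, p, q, hpq, rfl⟩
    obtain ⟨k, hk⟩ := (x_one _ _ _).1 h1
    obtain ⟨l, hl⟩ := (x_two hpq _).1 h2
    have := p2 k; have := p2 l
    exact ⟨(p, q), ⟨⟨by omega, by omega⟩, ⟨by omega, by omega⟩⟩, rfl⟩
  rw [hfin.isClosed.closure_eq] at h1
  exact h1.2

lemma sep {z : ℤ → Fin 3} (hz : z ∈ X) {i j : ℤ} (hi : z i = 1) (hj : z j = 2) : i + 2 ≤ j := by
  obtain ⟨p, q, hpq, rfl⟩ := both hz hi hj
  obtain ⟨k, hk⟩ := (x_one _ _ _).1 hi
  obtain ⟨l, hl⟩ := (x_two hpq _).1 hj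
  have := p2 k; have := p2 l; omega

lemma dbl {a b : ℕ} (h : a < b) : 2 * (2 : ℤ) ^ a ≤ 2 ^ b := by
  rw [← pow_succ']
  exact pow_le_pow_right₀ (by norm_num) h

lemma lt_of_pow {a b : ℕ} (h : (2 : ℤ) ^ a < 2 ^ b) : a < b :=
  (pow_lt_pow_iff_right₀ (by norm_num)).1 h

lemma big (R : ℕ) {k : ℕ} (h : R ≤ k) : (R : ℤ) < 2 ^ k := by
  have h1 : R < 2 ^ R := Nat.lt_two_pow_self
  have h2 : 2 ^ R ≤ 2 ^ k := Nat.pow_le_pow_right (by norm_num) h
  exact_mod_cast h1.trans_le h2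

lemma gap (R : ℕ) {k l : ℕ} (hk : 2 * R ≤ k) (h : |(2 : ℤ) ^ l - 2 ^ k| ≤ R) : l = k := by
  have h1 := big _ hk
  push_cast at h1
  rw [abs_le] at h
  rcases lt_trichotomy l k with h2 | h2 | h2
  · have := dbl h2; omega
  · exact h2
  · have := dbl h2; omega

lemma left2 {z : ℤ → Fin 3} (hz : z ∈ X) : ∃ m : ℤ, ∀ i < m, z i ≠ 2 := by
  by_contra hc
  push Not at hc
  obtain ⟨j, -, hj⟩ := hc 0
  obtain ⟨j', h1, hj'⟩ := hc j
  obtain ⟨j'', h2, hj''⟩ := hc (j' - (j - j'))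
  obtain ⟨p, q, hpq, h⟩ := mem_X.1 hz (j.natAbs + j'.natAbs + j''.natAbs)
  obtain ⟨a, ha⟩ := (x_two hpq j).1 ((h j (by push_cast; have := abs_nonneg j'; have := abs_nonneg j''; omega)).trans hj)
  obtain ⟨b, hb⟩ := (x_two hpq j').1 ((h j' (by push_cast; have := abs_nonneg j; have := abs_nonneg j''; omega)).trans hj')
  obtain ⟨c, hc⟩ := (x_two hpq j'').1 ((h j'' (by push_cast; have := abs_nonneg j'; have := abs_nonneg j; omega)).trans hj'')
  have h3 := dbl (lt_of_pow (a := b) (b := a) (by omega))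
  have := p2 c
  omega

lemma right1 {z : ℤ → Fin 3} (hz : z ∈ X) : ∃ m : ℤ, ∀ i > m, z i ≠ 1 := by
  by_contra hc
  push Not at hc
  obtain ⟨j, -, hj⟩ := hc 0
  obtain ⟨j', h1, hj'⟩ := hc j
  obtain ⟨j'', h2, hj''⟩ := hc (j' + (j' - j))
  obtain ⟨p, q, hpq, h⟩ := mem_X.1 hz (j.natAbs + j'.natAbs + j''.natAbs)
  obtain ⟨a, ha⟩ := (x_one p q j).1 ((h j (by push_cast; have := abs_nonneg j'; have := abs_nonneg j''; omega)).trans hj)
  obtain ⟨b, hb⟩ := (x_one p q j').1 ((h j' (by push_cast; have := abs_nonneg j; have := abs_nonneg j''; omega)).trans hj')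
  obtain ⟨c, hc⟩ := (x_one p q j'').1 ((h j'' (by push_cast; have := abs_nonneg j'; have := abs_nonneg j; omega)).trans hj'')
  have h3 := dbl (lt_of_pow (a := b) (b := a) (by omega))
  have := p2 c
  omega

def e (c : Fin 3) : ℤ → Fin 3 := fun t => if t = 0 then c else 0

lemma loc1 (R : ℕ) {k : ℕ} (hk : 2 * R ≤ k) {p q : ℤ} (hpq : p ≤ q) {t : ℤ} (ht : |t| ≤ R) :
    x p q (p - 2 ^ k + t) = e 1 t := by
  unfold e
  split_ifs with h
  · exact (x_one _ _ _).2 ⟨k, by omega⟩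
  · apply fin3
    · intro h1
      obtain ⟨l, hl⟩ := (x_one _ _ _).1 h1
      have h2 : (2 : ℤ) ^ l - 2 ^ k = -t := by omega
      have h3 := gap R (l := l) hk (by rw [h2, abs_neg]; exact ht)
      subst h3; omega
    · intro h1
      obtain ⟨l, hl⟩ := (x_two hpq _).1 h1
      have := big _ hk
      have := p2 l
      push_cast at *
      rw [abs_le] at ht
      omega

lemma loc2 (R : ℕ) {k : ℕ} (hk : 2 * R ≤ k) {p q : ℤ} (hpq : p ≤ q) {t : ℤ} (ht : |t| ≤ R) :
    x p q (q + 2 ^ k + t) = e 2 t := by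
  unfold e
  split_ifs with h
  · exact (x_two hpq _).2 ⟨k, by omega⟩
  · apply fin3
    · intro h1
      obtain ⟨l, hl⟩ := (x_one _ _ _).1 h1
      have := big _ hk
      have := p2 l
      push_cast at *
      rw [abs_le] at ht
      omega
    · intro h1
      obtain ⟨l, hl⟩ := (x_two hpq _).1 h1
      have h2 : (2 : ℤ) ^ l - 2 ^ k = t := by omega
      have h3 := gap R (l := l) hk (by rw [h2]; exact ht)
      subst h3; omega

lemma e1_mem : e 1 ∈ X := mem_X.2 fun r =>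
  ⟨2 ^ (2 * r), 2 ^ (2 * r), le_rfl, fun i hi => by
    have := loc1 r (le_refl (2 * r)) (le_refl ((2 : ℤ) ^ (2 * r))) hi
    simpa using this⟩

lemma e2_mem : e 2 ∈ X := mem_X.2 fun r =>
  ⟨-2 ^ (2 * r), -2 ^ (2 * r), le_rfl, fun i hi => by
    have := loc2 r (le_refl (2 * r)) (le_refl (-(2 : ℤ) ^ (2 * r))) hi
    simpa using this⟩

lemma zero_mem' : (fun _ => 0 : ℤ → Fin 3) ∈ X := mem_X.2 fun r =>
  ⟨-r, r, by omega, fun i hi => by
    rw [abs_le] at hi
    apply fin3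
    · intro h1
      obtain ⟨l, hl⟩ := (x_one _ _ _).1 h1
      have := p2 l; omega
    · intro h1
      obtain ⟨l, hl⟩ := (x_two (by omega) _).1 h1
      have := p2 l; omega⟩

section endo
variable {f : (ℤ → Fin 3) → (ℤ → Fin 3)}

lemma block (hf : ContinuousOn f X) :
    ∃ r : ℕ, ∀ y ∈ X, ∀ z ∈ X, (∀ i : ℤ, |i| ≤ r → y i = z i) → f y 0 = f z 0 := by
  have hloc : ∀ z ∈ X, ∃ r : ℕ, ∀ y ∈ X, y ∈ cyl z r → f y 0 = f z 0 := by
    intro z hz
    have h1 : ContinuousWithinAt (fun y => f y 0) X z :=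
      (continuous_apply 0).continuousAt.comp_continuousWithinAt (hf z hz)
    have h2 := h1 ((isOpen_discrete {f z 0}).mem_nhds rfl)
    obtain ⟨U, hU, hzU, hsub⟩ := mem_nhdsWithin.1 h2
    obtain ⟨r, hr⟩ := cyl_sub hU hzU
    exact ⟨r, fun y hy hyc => hsub ⟨hr hyc, hy⟩⟩
  choose! ρ hρ using hloc
  have hc : IsCompact X := isClosed_closure.isCompact
  obtain ⟨t, ht, hcov⟩ := hc.elim_nhds_subcover (fun z => cyl z (ρ z))
    (fun z _ => (isOpen_cyl _ _).mem_nhds fun _ _ => rfl)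
  refine ⟨t.sup ρ, fun y hy z hz h => ?_⟩
  obtain ⟨w, hw, hyw⟩ := mem_iUnion₂.1 (hcov hy)
  have h1 : ρ w ≤ t.sup ρ := Finset.le_sup hw
  rw [hρ w (ht w hw) y hy hyw, hρ w (ht w hw) z hz]
  intro i hi
  rw [← h i (hi.trans (by exact_mod_cast h1))]
  exact hyw i hi

lemma comm (hs : ∀ z ∈ X, f (fun i => z (i + 1)) = fun i => f z (i + 1))
    {z : ℤ → Fin 3} (hz : z ∈ X) (j : ℤ) : f (fun i => z (i + j)) = fun i => f z (i + j) := by
  induction j using Int.induction_on with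
  | zero => simp
  | succ n ih =>
    have h1 := hs _ (sh_mem hz n)
    rw [ih] at h1
    have e1 : (fun i => z (i + (n + 1))) = fun i => z (i + 1 + n) := by
      funext i; congr 1; ring
    rw [e1, h1]
    funext i; congr 1; ring
  | pred n ih =>
    have h1 := hs _ (sh_mem hz (-n - 1))
    have e1 : (fun i => z (i + 1 + (-n - 1))) = fun i => z (i + -n) := by
      funext i; congr 1; ring
    rw [e1, ih] at h1
    funext i
    have h2 := congrFun h1 (i - 1)
    simp only [sub_add_cancel] at h2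
    rw [← h2]; congr 1; ring

lemma inj_of_surj (hm : MapsTo f X X) (hf : ContinuousOn f X)
    (hs : ∀ z ∈ X, f (fun i => z (i + 1)) = fun i => f z (i + 1)) (hsurj : SurjOn f X X) :
    InjOn f X := by
  obtain ⟨r, hr⟩ := block hf
  have hb : ∀ y ∈ X, ∀ z ∈ X, ∀ s t : ℤ, (∀ i : ℤ, |i| ≤ r → y (i + s) = z (i + t)) →
      f y s = f z t := by
    intro y hy z hz s t h
    have := hr _ (sh_mem hy s) _ (sh_mem hz t) h
    rw [comm hs hy, comm hs hz] at this
    simpa using this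
  have hconst : ∀ s, f (fun _ => 0) s = f (fun _ => 0) 0 := fun s =>
    hb _ zero_mem' _ zero_mem' s 0 fun _ _ => rfl
  have h0 : ∀ s, f (fun _ => 0) s = 0 := by
    intro s
    rw [hconst]
    apply fin3
    · intro h
      obtain ⟨m, hm'⟩ := right1 (hm zero_mem')
      exact hm' (m + 1) (by omega) ((hconst _).trans h)
    · intro h
      obtain ⟨m, hm'⟩ := left2 (hm zero_mem')
      exact hm' (m - 1) (by omega) ((hconst _).trans h)
  have hzero : ∀ y ∈ X, ∀ s, (∀ i : ℤ, |i| ≤ r → y (i + s) = 0) → f y s = 0 := by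
    intro y hy s h
    rw [hb y hy _ zero_mem' s 0 h, h0]
  obtain ⟨z, hz, hfz⟩ := hsurj (x_mem (le_refl 0))
  have hz1 : ∃ i, z i = 1 := by
    by_contra hc
    push Not at hc
    obtain ⟨m, hm'⟩ := left2 hz
    have h1 := big (m.natAbs + r) le_rfl
    have h2 := hzero z hz (0 - 2 ^ (m.natAbs + r)) fun i hi => fin3 _ (hc _) (hm' _ (by
      rw [abs_le] at hi; push_cast at h1; cases abs_cases m <;> omega))
    rw [hfz, (x_one 0 0 _).2 ⟨_, rfl⟩] at h2
    exact absurd h2 (by decide)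
  have hz2 : ∃ i, z i = 2 := by
    by_contra hc
    push Not at hc
    obtain ⟨m, hm'⟩ := right1 hz
    have h1 := big (m.natAbs + r) le_rfl
    have h2 := hzero z hz (0 + 2 ^ (m.natAbs + r)) fun i hi => fin3 _ (hm' _ (by
      rw [abs_le] at hi; push_cast at h1; cases abs_cases m <;> omega)) (hc _)
    rw [hfz, (x_two le_rfl _).2 ⟨_, rfl⟩] at h2
    exact absurd h2 (by decide)
  obtain ⟨i1, hi1⟩ := hz1
  obtain ⟨i2, hi2⟩ := hz2
  obtain ⟨p0, q0, hpq0, rfl⟩ := both hz hi1 hi2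
  have ha : ∃ a, f (e 1) a = 1 := by
    set m : ℕ := p0.natAbs + r + 2 ^ (4 * r) with hmdef
    have h1 := big m le_rfl
    have h1' : (m : ℤ) = |p0| + r + 2 ^ (4 * r) := by rw [hmdef]; push_cast; rfl
    have h4 := p2 (4 * r)
    have h2 : f (x p0 q0) (0 - 2 ^ m) = 1 := by rw [hfz, (x_one 0 0 _).2 ⟨_, rfl⟩]
    by_cases hc : ∀ i : ℤ, |i| ≤ r → x p0 q0 (i + (0 - 2 ^ m)) = 0
    · rw [hzero _ hz _ hc] at h2; exact absurd h2 (by decide)
    push Not at hc
    obtain ⟨i, hi, hne⟩ := hc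
    have hi' := abs_le.1 hi
    have h3 : x p0 q0 (i + (0 - 2 ^ m)) = 1 := by
      by_contra h3
      refine hne (fin3 _ h3 fun h5 => ?_)
      obtain ⟨l, hl⟩ := (x_two hpq0 _).1 h5
      have := p2 l
      cases abs_cases p0 <;> omega
    obtain ⟨k, hk⟩ := (x_one _ _ _).1 h3
    have hk' : 4 * r < k := lt_of_pow (by cases abs_cases p0 <;> omega)
    refine ⟨-i, Eq.trans ?_ h2⟩
    refine hb _ e1_mem _ hz _ _ fun j hj => ?_
    have hj' := abs_le.1 hj
    rw [← loc1 (2 * r) (k := k) (by omega) hpq0 (t := j + -i) (by rw [abs_le]; push_cast; omega)]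
    congr 1; omega
  have hb' : ∃ b, f (e 2) b = 2 := by
    set m : ℕ := q0.natAbs + r + 2 ^ (4 * r) with hmdef
    have h1 := big m le_rfl
    have h1' : (m : ℤ) = |q0| + r + 2 ^ (4 * r) := by rw [hmdef]; push_cast; rfl
    have h4 := p2 (4 * r)
    have h2 : f (x p0 q0) (0 + 2 ^ m) = 2 := by rw [hfz, (x_two le_rfl _).2 ⟨_, rfl⟩]
    by_cases hc : ∀ i : ℤ, |i| ≤ r → x p0 q0 (i + (0 + 2 ^ m)) = 0
    · rw [hzero _ hz _ hc] at h2; exact absurd h2 (by decide)
    push Not at hc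
    obtain ⟨i, hi, hne⟩ := hc
    have hi' := abs_le.1 hi
    have h3 : x p0 q0 (i + (0 + 2 ^ m)) = 2 := by
      by_contra h3
      refine hne (fin3 _ (fun h5 => ?_) h3)
      obtain ⟨l, hl⟩ := (x_one _ _ _).1 h5
      have := p2 l
      cases abs_cases q0 <;> omega
    obtain ⟨k, hk⟩ := (x_two hpq0 _).1 h3
    have hk' : 4 * r < k := lt_of_pow (by cases abs_cases q0 <;> omega)
    refine ⟨-i, Eq.trans ?_ h2⟩
    refine hb _ e2_mem _ hz _ _ fun j hj => ?_
    have hj' := abs_le.1 hj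
    rw [← loc2 (2 * r) (k := k) (by omega) hpq0 (t := j + -i) (by rw [abs_le]; push_cast; omega)]
    congr 1; omega
  obtain ⟨a, ha⟩ := ha
  obtain ⟨b, hb'⟩ := hb'
  have key : ∀ p q, p ≤ q → p + a ≤ q + b ∧ f (x p q) = x (p + a) (q + b) := by
    intro p q hpq
    have k1 : ∀ k, 2 * (r + a.natAbs) ≤ k → f (x p q) (p - 2 ^ k + a) = 1 := by
      intro k hk
      refine Eq.trans ?_ ha
      refine hb _ (x_mem hpq) _ e1_mem _ _ fun j hj => ?_
      have hj' := abs_le.1 hj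
      rw [← loc1 _ hk hpq (t := j + a) (by
        rw [abs_le]; push_cast; cases abs_cases a <;> omega)]
      congr 1; omega
    have k2 : ∀ k, 2 * (r + b.natAbs) ≤ k → f (x p q) (q + 2 ^ k + b) = 2 := by
      intro k hk
      refine Eq.trans ?_ hb'
      refine hb _ (x_mem hpq) _ e2_mem _ _ fun j hj => ?_
      have hj' := abs_le.1 hj
      rw [← loc2 _ hk hpq (t := j + b) (by
        rw [abs_le]; push_cast; cases abs_cases b <;> omega)]
      congr 1; omega
    obtain ⟨p', q', hpq', he⟩ := both (hm (x_mem hpq)) (k1 _ le_rfl) (k2 _ le_rfl)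
    rw [he] at k1 k2
    have hp : p' = p + a := by
      obtain ⟨l, hl⟩ := (x_one _ _ _).1
        (k1 (2 * (r + a.natAbs) + 2 * (p' - p - a).natAbs) (by omega))
      have h3 := gap (p' - p - a).natAbs (l := l)
        (k := 2 * (r + a.natAbs) + 2 * (p' - p - a).natAbs) (by omega) (by
          rw [Int.natCast_natAbs]; apply le_of_eq; congr 1; omega)
      rw [h3] at hl; omega
    have hq : q' = q + b := by
      obtain ⟨l, hl⟩ := (x_two hpq' _).1
        (k2 (2 * (r + b.natAbs) + 2 * (q + b - q').natAbs) (by omega))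
      have h3 := gap (q + b - q').natAbs (l := l)
        (k := 2 * (r + b.natAbs) + 2 * (q + b - q').natAbs) (by omega) (by
          rw [Int.natCast_natAbs]; apply le_of_eq; congr 1; omega)
      rw [h3] at hl; omega
    rw [← hp, ← hq]
    exact ⟨hpq', he⟩
  have hab : a = b := by
    have h1 := (key 0 0 le_rfl).1
    obtain ⟨h2, h3⟩ := key p0 q0 hpq0
    rw [hfz] at h3
    have h4 : x 0 0 (0 - 2 ^ 0) = 1 := (x_one _ _ _).2 ⟨0, rfl⟩
    have h5 : x 0 0 (0 + 2 ^ 0) = 2 := (x_two le_rfl _).2 ⟨0, rfl⟩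
    rw [h3] at h4 h5
    obtain ⟨k, hk⟩ := (x_one _ _ _).1 h4
    obtain ⟨l, hl⟩ := (x_two h2 _).1 h5
    have := p2 k; have := p2 l
    omega
  subst hab
  have fin : ∀ y ∈ X, ∀ i, f y (i + a) = y i := by
    intro y hy i
    obtain ⟨p, q, hpq, h⟩ := mem_X.1 hy (r + i.natAbs + a.natAbs)
    have h1 : f y (i + a) = f (x p q) (i + a) := by
      refine hb _ hy _ (x_mem hpq) _ _ fun j hj => (h _ ?_).symm
      have hj' := abs_le.1 hj
      rw [abs_le]; push_cast
      cases abs_cases a <;> cases abs_cases i <;> omega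
    rw [h1, (key p q hpq).2, x_shift]
    apply h
    push_cast
    have := abs_nonneg a
    omega
  intro y hy w hw h
  funext i
  rw [← fin y hy i, ← fin w hw i, h]

end endo

def g (a b : Fin 3) : Fin 3 := if a = 1 then 1 else if b = 2 then 2 else 0

def tau (z : ℤ → Fin 3) : ℤ → Fin 3 := fun i => g (z i) (z (i - 1))

lemma tau_x {p q : ℤ} (h : p ≤ q) : tau (x p q) = x p (q + 1) := by
  funext i
  unfold tau g
  split_ifs with h1 h2
  · exact ((x_one _ _ _).2 ((x_one _ _ _).1 h1)).symm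
  · obtain ⟨k, hk⟩ := (x_two h _).1 h2
    exact ((x_two (by omega) _).2 ⟨k, by omega⟩).symm
  · symm
    apply fin3
    · intro h3; exact h1 ((x_one _ _ _).2 ((x_one _ _ _).1 h3))
    · intro h3
      obtain ⟨k, hk⟩ := (x_two (by omega) _).1 h3
      exact h2 ((x_two h _).2 ⟨k, by omega⟩)

lemma tau_cont : Continuous tau :=
  continuous_pi fun i =>
    (continuous_of_discreteTopology (f := fun w : Fin 3 × Fin 3 => g w.1 w.2)).comp
      (f := fun z : ℤ → Fin 3 => (z i, z (i - 1)))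
      ((continuous_apply i).prodMk (continuous_apply (i - 1)))

lemma tau_maps : MapsTo tau X X := by
  refine MapsTo.closure ?_ tau_cont
  rintro _ ⟨p, q, hpq, rfl⟩
  exact ⟨p, q + 1, by omega, tau_x hpq⟩

lemma g_one (a b : Fin 3) : g a b = 1 ↔ a = 1 := by revert a b; decide
lemma g_two (a b : Fin 3) : g a b = 2 ↔ a ≠ 1 ∧ b = 2 := by revert a b; decide

lemma tau_two {z : ℤ → Fin 3} (hz : z ∈ X) (i : ℤ) : tau z (i + 1) = 2 ↔ z i = 2 := by
  unfold tau
  rw [g_two, add_sub_cancel_right]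
  refine ⟨fun h => h.2, fun h => ⟨fun h1 => ?_, h⟩⟩
  have := sep hz h1 h
  omega

lemma ext3 (a b : Fin 3) (h1 : a = 1 ↔ b = 1) (h2 : a = 2 ↔ b = 2) : a = b := by
  revert a b; decide

lemma tau_inj : InjOn tau X := by
  intro y hy z hz h
  funext i
  apply ext3
  · rw [← g_one (y i) (y (i - 1)), ← g_one (z i) (z (i - 1))]
    change tau y i = 1 ↔ tau z i = 1
    rw [h]
  · rw [← tau_two hy, ← tau_two hz, h]

lemma tau_not_surj : ¬ SurjOn tau X X := by
  intro h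
  obtain ⟨z, hz, hfz⟩ := h (x_mem (le_refl 0))
  have h4 : x 0 0 (0 - 2 ^ 0) = 1 := (x_one _ _ _).2 ⟨0, rfl⟩
  have h5 : x 0 0 (0 + 1) = 2 := (x_two le_rfl _).2 ⟨0, rfl⟩
  rw [← hfz] at h4 h5
  have := sep hz ((g_one _ _).1 h4) ((tau_two hz _).1 h5)
  omega


/-- There is a finite alphabet and a closed shift-invariant set X of bi-infinite sequences on which every surjective continuous shift-commuting self-map is injective, yet some injective such self-map is not surjective. -/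
theorem result :
    ∃ n : ℕ, ∃ X : Set (ℤ → Fin n),
      IsClosed X ∧
      (∀ x : ℤ → Fin n, x ∈ X ↔ (fun i => x (i + 1)) ∈ X) ∧
      (∀ f : (ℤ → Fin n) → (ℤ → Fin n),
        MapsTo f X X → ContinuousOn f X →
        (∀ x ∈ X, f (fun i => x (i + 1)) = fun i => f x (i + 1)) →
        SurjOn f X X → InjOn f X) ∧
      ¬ (∀ f : (ℤ → Fin n) → (ℤ → Fin n),
        MapsTo f X X → ContinuousOn f X →
        (∀ x ∈ X, f (fun i => x (i + 1)) = fun i => f x (i + 1)) →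
        InjOn f X → SurjOn f X X) := by
  refine ⟨3, X, isClosed_closure, fun z => ⟨fun hz => sh_mem hz 1, fun hz => ?_⟩,
    fun f hm hf hs hsurj => inj_of_surj hm hf hs hsurj, fun h => tau_not_surj
      (h tau tau_maps tau_cont.continuousOn (fun z _ => ?_) tau_inj)⟩
  · simpa using sh_mem hz (-1)
  · funext i
    simp only [tau]
    congr 2; ring

end Pool.Agent.S04759
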