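import Pool.Statements.S04785
import Pool.Agent.Lib.helper21.Psum

set_option autoImplicit false
open scoped BigOperators
open Pool Pool.MP_5d54af_an

namespace Pool.Agent.S04785

/-- If f(z)=Σ a_k z^k converges everywhere, never vanishes and is nonconstant, then for every ε>0 some partial sum Σ_{k≤n} a_k z^k vanishes at a point z₀ where ∣f(z₀)∣<ε. -/
theorem result :
    ∀ (a : ℕ → ℂ) (f : ℂ → ℂ),
      (∀ z : ℂ, HasSum (fun k : ℕ => a k * z ^ k) (f z)) →
      (∀ z : ℂ, f z ≠ 0) →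
      (∃ z w : ℂ, f z ≠ f w) →
      ∀ ε : ℝ, 0 < ε →
        ∃ z₀ : ℂ, ∃ n : ℕ,
          (∑ k ∈ Finset.range (n + 1), a k * z₀ ^ k) = 0 ∧ ‖f z₀‖ < ε := by
  intro a f hf nz ⟨z, w, ne⟩ ε e0
  by_contra! H
  have f0 : f 0 = a 0 := (hf 0).unique (by
    simpa using hasSum_single (f := fun k => a k * (0 : ℂ) ^ k) 0 fun k hk => by simp [hk])
  have a0 : a 0 ≠ 0 := f0 ▸ nz 0
  refine ne (mul_left_cancel₀ (inv_ne_zero a0) (Pool.Agent.Lib.Helper21.Psum.main
    (a := fun k => (a 0)⁻¹ * a k) (f := fun z => (a 0)⁻¹ * f z) (ε := min 1 (‖(a 0)⁻¹‖ * ε))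
    (fun z => by simpa only [mul_assoc] using (hf z).mul_left (a 0)⁻¹)
    (fun z => mul_ne_zero (inv_ne_zero a0) (nz z)) (inv_mul_cancel₀ a0) (fun n z h => ?_)
    (lt_min one_pos (mul_pos (norm_pos_iff.2 (inv_ne_zero a0)) e0)) (min_le_left _ _) z w))
  simp only [mul_assoc, ← Finset.mul_sum, mul_eq_zero, inv_eq_zero, a0, false_or] at h
  rw [norm_mul]
  exact (min_le_right _ _).trans (mul_le_mul_of_nonneg_left (H z n h) (norm_nonneg _))

end Pool.Agent.S04785
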