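import Pool.Statements.S04808

set_option autoImplicit false
open Pool Pool.MP_5e6479_an

namespace Pool.Agent.S04808

open Metric in
lemma harnack (h : ℂ → ℂ) (hh : Differentiable ℂ h) (δ B r : ℝ) (z0 z : ℂ) (hδ : 0 < δ)
    (hr : 0 < r) (hlow : ∀ w ∈ ball z0 r, δ ≤ ‖h w‖) (hB : ‖h z0‖ ≤ B) (hz : ‖z - z0‖ ≤ r / 2) :
    ‖h z‖ ≤ B * Real.exp (2 * (Real.log (B / δ) + 1)) := by
  have hne : ∀ w ∈ ball z0 r, h w ≠ 0 := fun w hw => norm_pos_iff.1 (hδ.trans_le (hlow w hw))
  have hd : DifferentiableOn ℂ (fun w => deriv h w / h w) (ball z0 r) :=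
    (hh.deriv.differentiableOn).div hh.differentiableOn hne
  obtain ⟨u, hu0, hu⟩ := hd.isExactOn_ball.with_val_at z0 0
  have hconst : ∀ w ∈ ball z0 r, h w = h z0 * Complex.exp (u w) := by
    intro w hw
    have hder : ∀ v ∈ ball z0 r, HasDerivAt (fun v => h v * Complex.exp (-u v)) 0 v := by
      intro v hv
      have := (hh v).hasDerivAt.mul (hu v hv).neg.cexp
      refine this.congr_deriv ?_
      have := hne v hv
      simp only [Pi.neg_apply]
      field_simp
      ring
    have := isOpen_ball.is_const_of_deriv_eq_zero (convex_ball z0 r).isPreconnected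
      (fun v hv => (hder v hv).differentiableAt.differentiableWithinAt)
      (fun v hv => (hder v hv).deriv) hw (mem_ball_self hr)
    simp only [hu0, neg_zero, Complex.exp_zero, mul_one] at this
    rw [← this, mul_assoc, ← Complex.exp_add]
    simp
  have hδB : δ ≤ B := (hlow z0 (mem_ball_self hr)).trans hB
  have hB0 : 0 < B := hδ.trans_le hδB
  have hlog : 0 ≤ Real.log (B / δ) := Real.log_nonneg (by rw [le_div_iff₀ hδ]; linarith)
  have hmem : ∀ w ∈ ball (0:ℂ) r, z0 + w ∈ ball z0 r := fun w hw => by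
    simpa [mem_ball, dist_eq_norm] using hw
  have hzz : z - z0 ∈ ball (0:ℂ) r := by rw [mem_ball_zero_iff]; linarith
  have bc := Complex.borelCaratheodory_zero (f := fun w => -u (z0 + w))
    (M := Real.log (B / δ) + 1) (R := r) (z := z - z0) (by linarith)
    (fun w hw => ((hu _ (hmem w hw)).differentiableAt.comp w
      (by fun_prop : DifferentiableAt ℂ (fun w => z0 + w) w)).neg.differentiableWithinAt)
    (fun w hw => by
      have a1 := hlow _ (hmem w hw)
      rw [hconst _ (hmem w hw), norm_mul, Complex.norm_exp] at a1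
      simp only [Set.mem_ofPred_eq, Complex.neg_re]
      have a2 : Real.exp (-(u (z0 + w)).re) ≤ B / δ := by
        rw [le_div_iff₀ hδ, Real.exp_neg, inv_mul_le_iff₀ (Real.exp_pos _)]
        refine a1.trans ?_
        rw [mul_comm]
        gcongr
      have a3 := (Real.le_log_iff_exp_le (by positivity)).2 a2
      linarith) hr hzz (by simp [hu0])
  simp only [add_sub_cancel, norm_neg] at bc
  have hz' : z ∈ ball z0 r := by rw [mem_ball, dist_eq_norm]; linarith
  rw [hconst z hz', norm_mul, Complex.norm_exp]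
  gcongr
  refine ((le_abs_self _).trans (Complex.abs_re_le_norm _)).trans (bc.trans ?_)
  rw [div_le_iff₀ (by linarith)]
  have := norm_nonneg (z - z0)
  nlinarith

def E : Set ℂ := {z | |z.im| ≤ 1} ∪ ({z | |z.im| ≤ |z.re|} ∩ {z | z.re ∈ Set.range ((↑) : ℤ → ℝ)})
  ∪ {z | |z.im| = |z.re|}

lemma closed_E : IsClosed E := by
  refine ((isClosed_le (by fun_prop) (by fun_prop)).union
    ((isClosed_le (by fun_prop) (by fun_prop)).inter ?_)).union
    (isClosed_eq (by fun_prop) (by fun_prop))
  exact Int.isClosedEmbedding_coe_real.isClosed_range.preimage Complex.continuous_re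

lemma one_le_norm_sin (z : ℂ) (hz : 1 < |z.im|) : 1 ≤ ‖Complex.sin z‖ := by
  have h1 : ‖Complex.sin z‖ = ‖Complex.exp (-z * Complex.I) - Complex.exp (z * Complex.I)‖ / 2 := by
    simp [Complex.sin]
  have h2 := abs_norm_sub_norm_le (Complex.exp (-z * Complex.I)) (Complex.exp (z * Complex.I))
  rw [Complex.norm_exp, Complex.norm_exp] at h2
  simp only [neg_mul, Complex.neg_re, Complex.mul_re, Complex.I_re, mul_zero, Complex.I_im,
    mul_one, zero_sub, neg_neg] at h2
  have h3 : 1 ≤ |Real.sinh z.im| := by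
    rw [Real.abs_sinh]
    exact hz.le.trans (Real.self_le_sinh_iff.2 (abs_nonneg _))
  rw [Real.sinh_eq, abs_div, abs_two] at h3
  rw [h1, neg_mul]
  linarith


theorem result :
    ¬ (∀ E : Set ℂ, IsClosed E →
      (∃ f : ℂ → ℂ, Differentiable ℂ f ∧
          (¬ ∃ p : Polynomial ℂ, ∀ z, f z = p.eval z) ∧
          ∃ M : ℝ, ∀ z ∈ E, ‖f z‖ ≤ M) →
      (∃ g : ℂ → ℂ, Differentiable ℂ g ∧
          (¬ ∃ p : Polynomial ℂ, ∀ z, g z = p.eval z) ∧
          ∃ δ : ℝ, 0 < δ ∧ ∀ z ∉ E, δ ≤ ‖g z‖) →
      ∃ h : ℂ → ℂ, Differentiable ℂ h ∧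
          (¬ ∃ p : Polynomial ℂ, ∀ z, h z = p.eval z) ∧
          (∃ M : ℝ, ∀ z ∈ E, ‖h z‖ ≤ M) ∧
          ∃ δ : ℝ, 0 < δ ∧ ∀ z ∉ E, δ ≤ ‖h z‖) := by
  intro H
  obtain ⟨h, hh, hp, ⟨M, hM⟩, δ, hδ, hlow⟩ := H E closed_E
    ⟨fun z => Complex.exp (-z ^ 2), by fun_prop, by
      rintro ⟨p, hp⟩
      by_cases hd : p.degree = 0
      · rw [Polynomial.eq_C_of_degree_eq_zero hd] at hp
        have h0 := hp 0
        have h1 := hp 1
        simp only [Polynomial.eval_C] at h0 h1
        have := congrArg norm (h0.trans h1.symm)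
        rw [Complex.norm_exp, Complex.norm_exp] at this
        have := Real.exp_injective this
        simp at this
      · obtain ⟨z, hz⟩ := IsAlgClosed.exists_root p hd
        exact Complex.exp_ne_zero _ ((hp z).trans hz),
      Real.exp 1, fun z hz => by
        rw [Complex.norm_exp, Real.exp_le_exp]
        have e : (-z ^ 2).re = |z.im| ^ 2 - |z.re| ^ 2 := by
          rw [sq_abs, sq_abs]; simp [pow_two]
        rw [e]
        have a := abs_nonneg z.im
        have b := abs_nonneg z.re
        rcases hz with (hz | hz) | hz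
        · simp only [Set.mem_ofPred_eq] at hz
          nlinarith
        · have := hz.1
          simp only [Set.mem_ofPred_eq] at this
          nlinarith
        · simp only [Set.mem_ofPred_eq] at hz
          rw [hz]; linarith⟩
    ⟨Complex.sin, Complex.differentiable_sin, by
      rintro ⟨p, hp⟩
      have h0 : p = 0 := by
        refine Polynomial.eq_zero_of_infinite_isRoot p ?_
        refine Set.infinite_of_injective_forall_mem (f := fun n : ℕ => (n : ℂ) * Real.pi) ?_ ?_
        · intro a b hab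
          simpa using hab
        · intro n
          simp only [Set.mem_ofPred_eq, Polynomial.IsRoot, ← hp]
          exact Complex.sin_nat_mul_pi n
      have := hp (Real.pi / 2)
      rw [h0, Complex.sin_pi_div_two] at this
      simp at this,
      1, one_pos, fun z hz => one_le_norm_sin z (by
        by_contra hc
        exact hz (Or.inl (Or.inl (not_lt.1 hc))))⟩
  have low : ∀ z : ℂ, 1 < |z.im| → δ ≤ ‖h z‖ := by
    intro z hz
    have hc : (Set.range ((↑) : ℤ → ℝ) ∪ {z.im, -z.im}).Countable :=
      (Set.countable_range _).union (Set.toFinite _).countable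
    have hcl : IsClosed {t : ℝ | δ ≤ ‖h (t + z.im * Complex.I)‖} :=
      isClosed_le continuous_const (hh.continuous.comp (by fun_prop)).norm
    have hsub : (Set.range ((↑) : ℤ → ℝ) ∪ {z.im, -z.im})ᶜ ⊆
        {t : ℝ | δ ≤ ‖h (t + z.im * Complex.I)‖} := by
      intro t ht
      refine hlow _ ?_
      rintro ((hE | hE) | hE)
      · simp at hE
        linarith
      · apply ht
        left
        simpa using hE.2
      · apply ht
        right
        simp only [Set.mem_ofPred_eq] at hE
        simp at hE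
        rcases abs_eq_abs.1 hE with e | e
        · left; exact e.symm
        · right; simp [e]
    have := closure_minimal hsub hcl ((hc.dense_compl ℝ) z.re)
    simpa using this
  have up : ∀ z : ℂ, |z.im| ≤ |z.re| → ‖h z‖ ≤ M := by
    intro z hz
    set n := ⌊z.re⌋ with hn
    have hopen : IsOpen {w : ℂ | (n : ℝ) < w.re ∧ w.re < n + 1 ∧ |w.im| < |w.re|} := by
      simp only [Set.ofPred_and]
      refine IsOpen.inter ?_ (IsOpen.inter ?_ ?_) <;> exact isOpen_lt (by fun_prop) (by fun_prop)
    have hclosed : IsClosed {w : ℂ | (n : ℝ) ≤ w.re ∧ w.re ≤ n + 1 ∧ |w.im| ≤ |w.re|} := by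
      simp only [Set.ofPred_and]
      refine IsClosed.inter ?_ (IsClosed.inter ?_ ?_) <;>
        exact isClosed_le (by fun_prop) (by fun_prop)
    have hE : ∀ w : ℂ, w ∈ {w : ℂ | (n : ℝ) ≤ w.re ∧ w.re ≤ n + 1 ∧ |w.im| ≤ |w.re|} →
        w ∉ {w : ℂ | (n : ℝ) < w.re ∧ w.re < n + 1 ∧ |w.im| < |w.re|} → w ∈ E := by
      rintro w ⟨a, b, c⟩ hw
      rcases a.eq_or_lt with a | a
      · exact Or.inl (Or.inr ⟨c, n, a⟩)
      rcases b.eq_or_lt with b | b
      · exact Or.inl (Or.inr ⟨c, n + 1, by push_cast; exact b.symm⟩)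
      rcases c.eq_or_lt with c | c
      · exact Or.inr c
      exact (hw ⟨a, b, c⟩).elim
    by_cases hU : z ∈ {w : ℂ | (n : ℝ) < w.re ∧ w.re < n + 1 ∧ |w.im| < |w.re|}
    · refine Complex.norm_le_of_forall_mem_frontier_norm_le ?_ hh.diffContOnCl
        (fun w hw => ?_) (subset_closure hU)
      · rw [isBounded_iff_forall_norm_le]
        refine ⟨2 * (|(n:ℝ)| + 1), fun w ⟨a, b, c⟩ => ?_⟩
        have := Complex.norm_le_abs_re_add_abs_im w
        have : |w.re| ≤ |(n:ℝ)| + 1 := by
          rw [abs_le]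
          constructor <;> linarith [le_abs_self (n:ℝ), neg_abs_le (n:ℝ)]
        linarith
      · rw [hopen.frontier_eq] at hw
        exact hM _ (hE w (closure_minimal (fun v hv => And.intro hv.1.le (And.intro hv.2.1.le hv.2.2.le))
          hclosed hw.1) hw.2)
    · exact hM _ (hE z ⟨Int.floor_le _, (Int.lt_floor_add_one _).le, hz⟩ hU)
  have chain : ∀ k : ℕ, ∃ B : ℝ, ∀ z : ℂ, 2 ≤ |z.im| → (1 - k / 4) * |z.im| ≤ |z.re| →
      ‖h z‖ ≤ B := by
    intro k
    induction k with
    | zero => exact ⟨M, fun z _ hz => up z (by simpa using hz)⟩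
    | succ k ih =>
      obtain ⟨B, hB⟩ := ih
      refine ⟨B * Real.exp (2 * (Real.log (B / δ) + 1)), fun z h1 h2 => ?_⟩
      obtain ⟨s, hs1, hs2⟩ : ∃ s : ℝ, |s| = |z.im| / 4 ∧ |z.re + s| = |z.re| + |z.im| / 4 := by
        rcases le_total 0 z.re with a | a
        · exact ⟨|z.im| / 4, abs_of_nonneg (by positivity),
            by rw [abs_of_nonneg a, abs_of_nonneg (by positivity)]⟩
        · refine ⟨-(|z.im| / 4), by rw [abs_neg, abs_of_nonneg (by positivity)], ?_⟩
          rw [abs_of_nonpos a, abs_of_nonpos (by linarith)]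
          ring
      refine harnack h hh δ B (|z.im| / 2) (z + s) z hδ (by linarith) (fun w hw => low w ?_)
        (hB _ (by simpa using h1) ?_) ?_
      · rw [Metric.mem_ball, dist_eq_norm] at hw
        have a := Complex.abs_im_le_norm (w - (z + s))
        simp only [Complex.sub_im, Complex.add_im, Complex.ofReal_im, add_zero] at a
        have b := abs_sub_abs_le_abs_sub z.im w.im
        rw [abs_sub_comm] at b
        linarith
      · simp only [Complex.add_im, Complex.ofReal_im, add_zero, Complex.add_re, Complex.ofReal_re]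
        rw [hs2]
        push_cast at h2
        linarith
      · rw [sub_add_cancel_left, norm_neg, Complex.norm_real, Real.norm_eq_abs, hs1]
        linarith
  obtain ⟨B, hB⟩ := chain 4
  obtain ⟨C, hC⟩ := (isCompact_closedBall (0:ℂ) 4).exists_bound_of_continuousOn
    hh.continuous.continuousOn
  have hbd : Bornology.IsBounded (Set.range h) := by
    rw [isBounded_iff_forall_norm_le]
    refine ⟨max M (max B C), ?_⟩
    rintro _ ⟨z, rfl⟩
    rcases le_total |z.im| |z.re| with a | a
    · exact (up z a).trans (le_max_left _ _)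
    rcases le_total 2 |z.im| with b | b
    · refine (hB z b ?_).trans ((le_max_left _ _).trans (le_max_right _ _))
      norm_num
    · refine (hC z ?_).trans ((le_max_right _ _).trans (le_max_right _ _))
      rw [mem_closedBall_zero_iff]
      have := Complex.norm_le_abs_re_add_abs_im z
      linarith
  exact hp ⟨Polynomial.C (h 0), fun z => by
    rw [Polynomial.eval_C]; exact hh.apply_eq_apply_of_bounded hbd z 0⟩

end Pool.Agent.S04808
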