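import Pool.Statements.S04822
import Pool.Agent.Lib.H8.Star

set_option autoImplicit false
open Pool Pool.MP_5fe217_an

namespace Pool.Agent.S04822

/-- The negation of the preceding statement: For n at least 2, A with max eigenvalue real part below twice min Re(Az,z) on the sphere, and f normalized spirallike w.r.t. A on the ball: f is a support point of that family iff h = Df^{-1} A f is a support point of N_A. -/
theorem result :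
    ¬ (∀ n : ℕ, 2 ≤ n →
  ∀ A : EuclideanSpace ℂ (Fin n) →L[ℂ] EuclideanSpace ℂ (Fin n),
  (∃ c : ℝ, (∀ z : EuclideanSpace ℂ (Fin n), ‖z‖ = 1 → c ≤ (inner ℂ z (A z)).re) ∧
     ∀ μ : ℂ, Module.End.HasEigenvalue A.toLinearMap μ → μ.re < 2 * c) →
  ∀ f : EuclideanSpace ℂ (Fin n) → EuclideanSpace ℂ (Fin n),
  (DifferentiableOn ℂ f (Metric.ball 0 1) ∧ Set.InjOn f (Metric.ball 0 1) ∧ f 0 = 0 ∧
     fderiv ℂ f 0 = ContinuousLinearMap.id ℂ (EuclideanSpace ℂ (Fin n)) ∧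
     ∀ z ∈ Metric.ball (0 : EuclideanSpace ℂ (Fin n)) 1, z ≠ 0 →
       0 < (inner ℂ z ((fderiv ℂ f z).inverse (A (f z)))).re) →
  ((∃ L : (EuclideanSpace ℂ (Fin n) → EuclideanSpace ℂ (Fin n)) → ℂ,
      ((∀ g₁ g₂ : EuclideanSpace ℂ (Fin n) → EuclideanSpace ℂ (Fin n),
          DifferentiableOn ℂ g₁ (Metric.ball 0 1) → DifferentiableOn ℂ g₂ (Metric.ball 0 1) →
          L (g₁ + g₂) = L g₁ + L g₂) ∧
       (∀ (c : ℂ) (g : EuclideanSpace ℂ (Fin n) → EuclideanSpace ℂ (Fin n)),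
          DifferentiableOn ℂ g (Metric.ball 0 1) → L (c • g) = c * L g) ∧
       ∃ K : Set (EuclideanSpace ℂ (Fin n)), IsCompact K ∧ K ⊆ Metric.ball 0 1 ∧
         ∃ C : ℝ, ∀ g : EuclideanSpace ℂ (Fin n) → EuclideanSpace ℂ (Fin n),
           DifferentiableOn ℂ g (Metric.ball 0 1) →
           ∀ M : ℝ, (∀ x ∈ K, ‖g x‖ ≤ M) → ‖L g‖ ≤ C * M) ∧
      (∃ g₁ g₂ : EuclideanSpace ℂ (Fin n) → EuclideanSpace ℂ (Fin n),
        (DifferentiableOn ℂ g₁ (Metric.ball 0 1) ∧ Set.InjOn g₁ (Metric.ball 0 1) ∧ g₁ 0 = 0 ∧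
          fderiv ℂ g₁ 0 = ContinuousLinearMap.id ℂ (EuclideanSpace ℂ (Fin n)) ∧
          ∀ z ∈ Metric.ball (0 : EuclideanSpace ℂ (Fin n)) 1, z ≠ 0 →
            0 < (inner ℂ z ((fderiv ℂ g₁ z).inverse (A (g₁ z)))).re) ∧
        (DifferentiableOn ℂ g₂ (Metric.ball 0 1) ∧ Set.InjOn g₂ (Metric.ball 0 1) ∧ g₂ 0 = 0 ∧
          fderiv ℂ g₂ 0 = ContinuousLinearMap.id ℂ (EuclideanSpace ℂ (Fin n)) ∧
          ∀ z ∈ Metric.ball (0 : EuclideanSpace ℂ (Fin n)) 1, z ≠ 0 →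
            0 < (inner ℂ z ((fderiv ℂ g₂ z).inverse (A (g₂ z)))).re) ∧
        (L g₁).re ≠ (L g₂).re) ∧
      ∀ g : EuclideanSpace ℂ (Fin n) → EuclideanSpace ℂ (Fin n),
        (DifferentiableOn ℂ g (Metric.ball 0 1) ∧ Set.InjOn g (Metric.ball 0 1) ∧ g 0 = 0 ∧
          fderiv ℂ g 0 = ContinuousLinearMap.id ℂ (EuclideanSpace ℂ (Fin n)) ∧
          ∀ z ∈ Metric.ball (0 : EuclideanSpace ℂ (Fin n)) 1, z ≠ 0 →
            0 < (inner ℂ z ((fderiv ℂ g z).inverse (A (g z)))).re) →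
        (L g).re ≤ (L f).re) ↔
   (∃ L : (EuclideanSpace ℂ (Fin n) → EuclideanSpace ℂ (Fin n)) → ℂ,
      ((∀ g₁ g₂ : EuclideanSpace ℂ (Fin n) → EuclideanSpace ℂ (Fin n),
          DifferentiableOn ℂ g₁ (Metric.ball 0 1) → DifferentiableOn ℂ g₂ (Metric.ball 0 1) →
          L (g₁ + g₂) = L g₁ + L g₂) ∧
       (∀ (c : ℂ) (g : EuclideanSpace ℂ (Fin n) → EuclideanSpace ℂ (Fin n)),
          DifferentiableOn ℂ g (Metric.ball 0 1) → L (c • g) = c * L g) ∧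
       ∃ K : Set (EuclideanSpace ℂ (Fin n)), IsCompact K ∧ K ⊆ Metric.ball 0 1 ∧
         ∃ C : ℝ, ∀ g : EuclideanSpace ℂ (Fin n) → EuclideanSpace ℂ (Fin n),
           DifferentiableOn ℂ g (Metric.ball 0 1) →
           ∀ M : ℝ, (∀ x ∈ K, ‖g x‖ ≤ M) → ‖L g‖ ≤ C * M) ∧
      (∃ g₁ g₂ : EuclideanSpace ℂ (Fin n) → EuclideanSpace ℂ (Fin n),
        (DifferentiableOn ℂ g₁ (Metric.ball 0 1) ∧ g₁ 0 = 0 ∧ fderiv ℂ g₁ 0 = A ∧
          ∀ z ∈ Metric.ball (0 : EuclideanSpace ℂ (Fin n)) 1, z ≠ 0 → 0 < (inner ℂ z (g₁ z)).re) ∧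
        (DifferentiableOn ℂ g₂ (Metric.ball 0 1) ∧ g₂ 0 = 0 ∧ fderiv ℂ g₂ 0 = A ∧
          ∀ z ∈ Metric.ball (0 : EuclideanSpace ℂ (Fin n)) 1, z ≠ 0 → 0 < (inner ℂ z (g₂ z)).re) ∧
        (L g₁).re ≠ (L g₂).re) ∧
      ∀ g : EuclideanSpace ℂ (Fin n) → EuclideanSpace ℂ (Fin n),
        (DifferentiableOn ℂ g (Metric.ball 0 1) ∧ g 0 = 0 ∧ fderiv ℂ g 0 = A ∧
          ∀ z ∈ Metric.ball (0 : EuclideanSpace ℂ (Fin n)) 1, z ≠ 0 → 0 < (inner ℂ z (g z)).re) →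
        (L g).re ≤ (L (fun z => (fderiv ℂ f z).inverse (A (f z)))).re))) := by
  intro H
  have h := (H 2 le_rfl (ContinuousLinearMap.id ℂ _) ⟨1, fun z hz => by
      rw [ContinuousLinearMap.id_apply, inner_self_eq_norm_sq_to_K, hz]
      simp, fun μ hμ => by
      obtain ⟨v, hv⟩ := hμ.exists_hasEigenvector
      have h1 : v = μ • v := hv.apply_eq_smul
      have h2 : (1 - μ) • v = 0 := by rw [sub_smul, one_smul, ← h1, sub_self]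
      have h3 := (smul_eq_zero.1 h2).resolve_right hv.2
      rw [← sub_eq_zero.1 h3]
      norm_num⟩ (Lib.H8.Star.pr (Lib.H8.Star.ph 1 (-1)))
    (Lib.H8.Star.ph_mem (by simp) (by simp))).2
    ⟨Lib.H8.Star.L3, Lib.H8.Star.L3_fun, ⟨id, Lib.H8.Star.pr Lib.H8.Star.H0, Lib.H8.Star.id_mem,
      Lib.H8.Star.H0_mem, by rw [Lib.H8.Star.L3_id, Lib.H8.Star.L3_H0]; norm_num⟩,
      fun g hg => by
        rw [Lib.H8.Star.L3_field]
        exact Lib.H8.Star.L3_le g hg⟩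
  obtain ⟨L, hL, ⟨g₁, g₂, h1, h2, hne⟩, hm⟩ := h
  exact hne ((Lib.H8.Star.not_supp hL hm g₁ h1).trans (Lib.H8.Star.not_supp hL hm g₂ h2).symm)

end Pool.Agent.S04822
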