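import Pool.Statements.S04844
-- import your own Pool.Agent.* helpers here

set_option autoImplicit false
open Filter Topology
open Pool Pool.MP_613746_an

namespace Pool.Agent.S04844

open Set

def L : ℕ → ℤ
  | 0 => 1
  | k + 1 => L k * (4 * L k)

lemma L_pos (k : ℕ) : 0 < L k := by
  induction k with
  | zero => simp [L]
  | succ k ih => simp only [L]; positivity

lemma L_gt (k : ℕ) : (k : ℤ) < L k := by
  induction k with
  | zero => simp [L]
  | succ k ih => have := L_pos k; simp only [L]; push_cast; nlinarith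

def F : ℕ → ℤ → Bool → ℤ → ℤ → Bool
  | 0, _, c, _, _ => c
  | K + 1, a, c, i, j =>
    if j / L K % (4 * L K) = a / L K then F K (a % L K) c i j
    else F K (j / L K % (4 * L K) % L K) (decide (j / L K % (4 * L K) / L K % 2 = 1)) j i

lemma emod_div (K : ℕ) (j : ℤ) : j % L (K + 1) / L K = j / L K % (4 * L K) := by
  have hp := L_pos K
  have h1 : j % L (K + 1) = j + (-(4 * L K) * (j / L K / (4 * L K))) * L K := by
    rw [Int.emod_def, Int.ediv_ediv_of_nonneg hp.le]; simp only [L]; ring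
  rw [h1, Int.add_mul_ediv_right _ _ hp.ne', Int.emod_def]; ring

lemma P1 (K : ℕ) (a : ℤ) (c : Bool) (i j : ℤ) (h : j % L K = a) : F K a c i j = c := by
  induction K generalizing a with
  | zero => rfl
  | succ K ih =>
    simp only [F]
    rw [if_pos (by rw [← h, emod_div])]
    apply ih
    rw [← h, Int.emod_emod_of_dvd _ (show L K ∣ L (K + 1) from Dvd.intro _ rfl)]

def H (m : ℕ) (G : ℤ → ℤ → Bool) (i j : ℤ) : Prop :=
  ∀ c, ∃ i0, ∀ s, 0 ≤ s → s < L m → (i0 + s) / L (m + 1) = i / L (m + 1) ∧ G (i0 + s) j = c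

lemma blk {a b : ℕ} (h : a ≤ b) {i i' : ℤ} (e : i / L a = i' / L a) : i / L b = i' / L b := by
  induction h with
  | refl => exact e
  | step _ ih =>
    simp only [L]
    rw [← Int.ediv_ediv_of_nonneg (L_pos _).le, ← Int.ediv_ediv_of_nonneg (L_pos _).le, ih]

lemma P2 (K : ℕ) (a : ℤ) (c : Bool) (m : ℕ) (hm : m < K) (i j : ℤ) :
    H m (F K a c) i j ∨ H m (fun j i => F K a c i j) j i := by
  induction K generalizing a c i j with
  | zero => omega
  | succ K ih =>
    have hp := L_pos K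
    rcases Nat.lt_succ_iff_lt_or_eq.1 hm with h | rfl
    · by_cases e : j / L K % (4 * L K) = a / L K
      · rcases ih (a % L K) c h i j with h1 | h1
        · left
          intro c'
          obtain ⟨i0, h2⟩ := h1 c'
          exact ⟨i0, fun s s0 s1 => ⟨(h2 s s0 s1).1, by
            simp only [F, if_pos e]; exact (h2 s s0 s1).2⟩⟩
        · right
          intro c'
          obtain ⟨i0, h2⟩ := h1 c'
          exact ⟨i0, fun s s0 s1 => ⟨(h2 s s0 s1).1, by
            simp only [F, blk h (h2 s s0 s1).1, if_pos e]; exact (h2 s s0 s1).2⟩⟩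
      · rcases ih (j / L K % (4 * L K) % L K) (decide (j / L K % (4 * L K) / L K % 2 = 1)) h j i
          with h1 | h1
        · right
          intro c'
          obtain ⟨i0, h2⟩ := h1 c'
          exact ⟨i0, fun s s0 s1 => ⟨(h2 s s0 s1).1, by
            simp only [F, blk h (h2 s s0 s1).1, if_neg e]; exact (h2 s s0 s1).2⟩⟩
        · left
          intro c'
          obtain ⟨i0, h2⟩ := h1 c'
          exact ⟨i0, fun s s0 s1 => ⟨(h2 s s0 s1).1, by
            simp only [F, if_neg e]; exact (h2 s s0 s1).2⟩⟩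
    · right
      intro c'
      have w0 := Int.emod_nonneg i hp.ne'
      have w1 := Int.emod_lt_of_pos i hp
      obtain ⟨t, t0, t1, t2, t3⟩ : ∃ t : ℤ, 0 ≤ t ∧ t < 4 ∧ decide (t % 2 = 1) = c' ∧
          i % L m + t * L m ≠ a / L m := by
        cases c'
        · by_cases e : i % L m + 0 * L m = a / L m
          · exact ⟨2, by norm_num, by norm_num, by decide, by omega⟩
          · exact ⟨0, by norm_num, by norm_num, by decide, e⟩
        · by_cases e : i % L m + 1 * L m = a / L m
          · exact ⟨3, by norm_num, by norm_num, by decide, by omega⟩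
          · exact ⟨1, by norm_num, by norm_num, by decide, e⟩
      set J := i % L m + t * L m with hJ
      have J0 : 0 ≤ J := by positivity
      have J1 : J < 4 * L m := by nlinarith
      refine ⟨(J + j / L (m + 1) * (4 * L m)) * L m, fun s s0 s1 => ?_⟩
      have e1 : ((J + j / L (m + 1) * (4 * L m)) * L m + s) / L m =
          J + j / L (m + 1) * (4 * L m) := by
        rw [add_comm, Int.add_mul_ediv_right _ _ hp.ne', Int.ediv_eq_zero_of_lt s0 s1, zero_add]
      constructor
      · change _ / (L m * (4 * L m)) = _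
        rw [← Int.ediv_ediv_of_nonneg hp.le, e1,
          Int.add_mul_ediv_right _ _ (by omega), Int.ediv_eq_zero_of_lt J0 J1, zero_add]
      · simp only [F, e1, Int.add_mul_emod_self_right, Int.emod_eq_of_lt J0 J1, if_neg t3]
        rw [P1 _ _ _ _ _ (by rw [hJ, Int.add_mul_emod_self_right, Int.emod_emod]), hJ,
          Int.add_mul_ediv_right _ _ hp.ne', Int.ediv_eq_zero_of_lt w0 w1, zero_add, t2]

def Hc (m : ℕ) (r : ℤ → Bool) : Prop :=
  ∀ c, ∃ d ∈ Icc (-L (m + 1)) (L (m + 1)), ∀ s ∈ Ico 0 (L m), r (d + s) = c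

lemma H_Hc {m : ℕ} {G : ℤ → ℤ → Bool} {i j : ℤ} (h : H m G i j) : Hc m fun t => G (t + i) j := by
  intro c
  obtain ⟨i0, h⟩ := h c
  refine ⟨i0 - i, ?_, fun s hs => ?_⟩
  · have h1 := (h 0 le_rfl (L_pos m)).1
    rw [add_zero] at h1
    have hp := L_pos (m + 1)
    have a1 := Int.ediv_mul_add_emod i0 (L (m + 1))
    have a2 := Int.ediv_mul_add_emod i (L (m + 1))
    have b1 := Int.emod_nonneg i hp.ne'
    have b2 := Int.emod_lt_of_pos i hp
    have b3 := Int.emod_nonneg i0 hp.ne'
    have b4 := Int.emod_lt_of_pos i0 hp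
    rw [h1] at a1
    constructor <;> linarith
  · simp only
    rw [show i0 - i + s + i = i0 + s by ring]
    exact (h s hs.1 hs.2).2

lemma closed_Hc (m : ℕ) : IsClosed {r | Hc m r} := by
  have e : {r | Hc m r} = ⋂ c, ⋃ d ∈ Icc (-L (m + 1)) (L (m + 1)), ⋂ s ∈ Ico 0 (L m),
      {r : ℤ → Bool | r (d + s) = c} := by
    ext r; simp [Hc]
  rw [e]
  exact isClosed_iInter fun c => (finite_Icc _ _).isClosed_biUnion fun d _ =>
    isClosed_biInter fun s _ => isClosed_eq (continuous_apply _) continuous_const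

def C (m : ℕ) : Set (ℤ → ℤ → Bool) :=
  {x | ∀ i j, Hc m (fun t => x (t + i) j) ∨ Hc m (fun t => x i (t + j))}

lemma closed_C (m : ℕ) : IsClosed (C m) := by
  simp only [C, ofPred_forall]
  exact isClosed_iInter fun i => isClosed_iInter fun j => IsClosed.union
    ((closed_Hc m).preimage (f := fun x : ℤ → ℤ → Bool => fun t => x (t + i) j) (by fun_prop))
    ((closed_Hc m).preimage (f := fun x : ℤ → ℤ → Bool => fun t => x i (t + j)) (by fun_prop))

def XS : Set (ℤ → ℤ → Bool) := ⋂ m, C m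

lemma XS_ne : XS.Nonempty := by
  have hcl : ∀ K : ℕ, IsClosed (⋂ m ∈ Iio K, C m) := fun K => isClosed_biInter fun m _ => closed_C m
  obtain ⟨x, hx⟩ := IsCompact.nonempty_iInter_of_sequence_nonempty_isCompact_isClosed
    (fun K : ℕ => ⋂ m ∈ Iio K, C m)
    (fun K => biInter_subset_biInter_left (Iio_subset_Iio (Nat.le_succ K)))
    (fun K => ⟨F K 0 true, mem_iInter₂.2 fun m hm i j =>
      (P2 K 0 true m hm i j).imp H_Hc fun h => H_Hc h⟩) (hcl 0).isCompact hcl
  exact ⟨x, mem_iInter.2 fun m => mem_iInter₂.1 (mem_iInter.1 hx (m + 1)) m (Nat.lt_succ_self m)⟩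

def f (x : XS) : XS := ⟨fun i j => x.1 (i + 1) j, mem_iInter.2 fun m i j => by
  simpa only [add_assoc] using mem_iInter.1 x.2 m (i + 1) j⟩

def g (x : XS) : XS := ⟨fun i j => x.1 i (j + 1), mem_iInter.2 fun m i j => by
  simpa only [add_assoc] using mem_iInter.1 x.2 m i (j + 1)⟩

lemma key {Y : Type} [TopologicalSpace Y] (T : Y → Y) (r : Y → ℤ → Bool) (hr : Continuous r)
    (hT : ∀ y t, r (T y) t = r y (t + 1)) (x : Y)
    (h : ∀ U ∈ 𝓝 x, ∃ N : ℕ, ∀ m : ℕ, ∃ k : ℕ, m ≤ k ∧ k ≤ m + N ∧ T^[k] x ∈ U) :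
    ∃ N : ℕ, ∀ m ≥ N, ¬ Hc m (r x) := by
  have hk : ∀ (k : ℕ) t, r (T^[k] x) t = r x (t + k) := by
    intro k
    induction k with
    | zero => simp
    | succ k ih => intro t; rw [Function.iterate_succ_apply', hT, ih]; push_cast; ring_nf
  have ho : ∀ t c, IsOpen {y | r y t = c} := fun t c =>
    (isOpen_discrete {c}).preimage ((continuous_apply t).comp hr)
  obtain ⟨N, hN⟩ := h _ ((ho 0 (r x 0)).mem_nhds rfl)
  refine ⟨N, fun m hm hc => ?_⟩
  obtain ⟨d, -, hd⟩ := hc (!r x 0)
  obtain ⟨N', hN'⟩ := h (⋂ s ∈ Ico 0 (L m), {y | r y (d + s) = !r x 0})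
    (((finite_Ico _ _).isOpen_biInter fun s _ => ho _ _).mem_nhds (mem_iInter₂.2 hd))
  obtain ⟨k, k1, -, k2⟩ := hN' d.natAbs
  obtain ⟨k', a1, a2, a3⟩ := hN (d + k).toNat
  have := L_gt m
  have h5 := mem_iInter₂.1 k2 (k' - (d + k)) ⟨by omega, by omega⟩
  simp only [mem_ofPred_eq, hk] at h5 a3
  rw [show d + (k' - (d + k)) + k = 0 + k' by ring, a3] at h5
  simp at h5


/-- The negation of the preceding statement: For any nonempty compact metric space and commuting continuous maps f, g on it, some point x is uniformly recurrent for both: for each neighbourhood U of x, the times n with f^n(x) in U (resp. g^n(x) in U) have bounded gaps. -/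
theorem result :
    ¬ (∀ (X : Type) [MetricSpace X] [CompactSpace X] [Nonempty X]
      (f g : X → X), Continuous f → Continuous g → f ∘ g = g ∘ f →
      ∃ x : X,
        (∀ U ∈ 𝓝 x, ∃ N : ℕ, ∀ m : ℕ, ∃ k : ℕ, m ≤ k ∧ k ≤ m + N ∧ f^[k] x ∈ U) ∧
        (∀ U ∈ 𝓝 x, ∃ N : ℕ, ∀ m : ℕ, ∃ k : ℕ, m ≤ k ∧ k ≤ m + N ∧ g^[k] x ∈ U)) := by
  intro Hy
  have : CompactSpace XS := isCompact_iff_compactSpace.1 (isClosed_iInter closed_C).isCompact
  have : Nonempty XS := XS_ne.to_subtype
  have c0 : ∀ i j, Continuous fun y : XS => y.1 i j := fun i j =>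
    (continuous_apply j).comp ((continuous_apply i).comp continuous_subtype_val)
  have c1 : Continuous f :=
    Continuous.subtype_mk (continuous_pi fun i => continuous_pi fun j => c0 _ _) _
  have c2 : Continuous g :=
    Continuous.subtype_mk (continuous_pi fun i => continuous_pi fun j => c0 _ _) _
  have k1 := key f (fun y t => y.1 t 0) (continuous_pi fun i => c0 _ _) (fun _ _ => rfl)
  have k2 := key g (fun y t => y.1 0 t) (continuous_pi fun i => c0 _ _) (fun _ _ => rfl)
  let _ : MetricSpace XS := TopologicalSpace.metrizableSpaceMetric _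
  obtain ⟨x, h1, h2⟩ := Hy XS f g c1 c2 rfl
  obtain ⟨N1, a1⟩ := k1 x h1
  obtain ⟨N2, a2⟩ := k2 x h2
  have h3 := mem_iInter.1 x.2 (max N1 N2) 0 0
  simp only [add_zero] at h3
  exact h3.elim (a1 _ (le_max_left _ _)) (a2 _ (le_max_right _ _))

end Pool.Agent.S04844
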