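import Pool.Statements.S04862
import Pool.Agent.Lib.helper31.ShiftC0

set_option autoImplicit false
open Pool Pool.MP_63a02b_an

namespace Pool.Agent.S04862

open Filter Topology Finset
open Pool.Agent.H31.ShiftC0 (kk kk_syndetic)

/-- all complex two-sided sequences with the product topology -/
abbrev X : Type := ℤ → ℂ

/-- a primitive root of unity of order two to the `m+1` -/
noncomputable def om (m : ℕ) : ℂ := Complex.exp (2 * Real.pi * Complex.I / (2 ^ (m + 1) : ℕ))

lemma om_prim (m : ℕ) : IsPrimitiveRoot (om m) (2 ^ (m + 1)) :=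
  Complex.isPrimitiveRoot_exp _ (by positivity)

lemma om_norm (m : ℕ) : ‖om m‖ = 1 := (om_prim m).norm'_eq_one (by positivity)

/-- the diagonal -/
noncomputable def c (i : ℤ) : ℂ :=
  (om (Nat.unpair (-i - 1).toNat).1 ^ (2 * (Nat.unpair (-i - 1).toNat).2 + 1))⁻¹

lemma c_surj (m a : ℕ) : ∃ k : ℕ, c (-(k : ℤ) - 1) = (om m ^ (2 * a + 1))⁻¹ :=
  ⟨Nat.pair m a, by simp [c]⟩

lemma c_pow_ne (i : ℤ) (K : ℕ) : c i ^ (2 * K + 1) ≠ 1 := by
  unfold c
  intro h
  rw [inv_pow, inv_eq_one, ← pow_mul, (om_prim _).pow_eq_one_iff_dvd] at h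
  have h2 : 2 ∣ (2 * (Nat.unpair (-i - 1).toNat).2 + 1) * (2 * K + 1) :=
    (dvd_pow_self 2 (Nat.succ_ne_zero _)).trans h
  rcases (Nat.Prime.dvd_mul Nat.prime_two).1 h2 with h | h <;> omega

/-- shift plus diagonal -/
noncomputable def T : X →L[ℂ] X :=
  ContinuousLinearMap.pi fun i =>
    ContinuousLinearMap.proj (i + 1) + c i • ContinuousLinearMap.proj i

lemma T_apply (x : X) (i : ℤ) : T x i = x (i + 1) + c i * x i := rfl

lemma T_succ (n : ℕ) (x : X) (i : ℤ) :
    (T ^ (n + 1)) x i = (T ^ n) x (i + 1) + c i * (T ^ n) x i := by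
  rw [pow_succ']; rfl

lemma dep (n : ℕ) : ∀ (i : ℤ) (x y : X), (∀ j, i ≤ j → j ≤ i + n → x j = y j) →
    (T ^ n) x i = (T ^ n) y i := by
  induction n with
  | zero => intro i x y h; exact h i le_rfl (by simp)
  | succ n ih =>
    intro i x y h
    rw [T_succ, T_succ, ih (i + 1) x y fun j h1 h2 => h j (by omega) (by omega),
      ih i x y fun j h1 h2 => h j h1 (by omega)]

lemma single_out (n : ℕ) (i m : ℤ) (h : m < i ∨ i + n < m) :
    (T ^ n) (Pi.single m (1 : ℂ) : X) i = 0 := by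
  rw [dep n i _ 0 fun j h1 h2 => Pi.single_eq_of_ne (by omega) _, map_zero]; rfl

lemma single_top (n : ℕ) : ∀ i : ℤ, (T ^ n) (Pi.single (i + n) (1 : ℂ) : X) i = 1 := by
  induction n with
  | zero => intro i; simp
  | succ n ih =>
    intro i
    rw [T_succ, single_out n i _ (by omega), show i + ((n + 1 : ℕ) : ℤ) = i + 1 + n by omega, ih]
    simp

lemma single_bot (n : ℕ) (i : ℤ) : (T ^ n) (Pi.single i (1 : ℂ) : X) i = c i ^ n := by
  induction n with
  | zero => simp
  | succ n ih => rw [T_succ, single_out n (i + 1) _ (by omega), ih]; ring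

lemma T_update (n : ℕ) (x : X) (m i : ℤ) (v : ℂ) :
    (T ^ n) (Function.update x m v) i
      = (T ^ n) x i + (v - x m) * (T ^ n) (Pi.single m (1 : ℂ) : X) i := by
  have : Function.update x m v = x + (v - x m) • (Pi.single m (1 : ℂ) : X) := by
    funext j
    by_cases h : j = m
    · subst h; simp
    · simp [h]
  rw [this, map_add, map_smul]; rfl

lemma solve (p : ℕ → ℤ) (hp : Function.Injective p) (G : ℕ → X → Prop)
    (hdep : ∀ r x y, (∀ i, (∀ s, r < s → i ≠ p s) → x i = y i) → G r x → G r y)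
    (hsol : ∀ r x, ∃ v, G r (Function.update x (p r) v)) (x0 : X) :
    ∃ x : X, (∀ i, (∀ r, i ≠ p r) → x i = x0 i) ∧ ∀ r, G r x := by
  classical
  choose v hv using hsol
  let s : ℕ → X := fun r => Nat.rec x0 (fun r y => Function.update y (p r) (v r y)) r
  have hs : ∀ r, s (r + 1) = Function.update (s r) (p r) (v r (s r)) := fun r => rfl
  have hstab : ∀ i a b, a ≤ b → (∀ r, a ≤ r → r < b → i ≠ p r) → s b i = s a i := by
    intro i a b hab
    induction b, hab using Nat.le_induction with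
    | base => intro _; rfl
    | succ b hab ih =>
      intro h
      rw [hs, Function.update_of_ne (h b hab (by omega)), ih fun r h1 h2 => h r h1 (by omega)]
  refine ⟨fun i => if h : ∃ r, p r = i then s (h.choose + 1) i else x0 i, fun i hi => ?_,
    fun r => hdep r (s (r + 1)) _ (fun i hi => ?_) (hv r (s r))⟩
  · exact dif_neg fun ⟨r, hr⟩ => hi r hr.symm
  · split_ifs with h
    · have h1 := h.choose_spec
      have h2 : h.choose ≤ r := by
        by_contra h3
        exact hi _ (by omega) h1.symm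
      refine hstab i (h.choose + 1) (r + 1) (by omega) fun t ht1 _ e => ?_
      have := hp (h1.trans e)
      omega
    · exact hstab i 0 (r + 1) (Nat.zero_le _) fun t _ _ e => h ⟨t, e.symm⟩

lemma control (m0 : ℤ) (n : ℕ → ℕ) (y : ℕ → ℂ) (x0 : X) :
    ∃ x : X, (∀ i, i < m0 → x i = x0 i) ∧ ∀ r : ℕ, (T ^ n r) x (m0 + r - n r) = y r := by
  obtain ⟨x, h1, h2⟩ := solve (fun r => m0 + r) (fun a b h => by simpa using h)
    (fun r x => (T ^ n r) x (m0 + r - n r) = y r) (fun r x z h hx => by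
      rw [← hx]
      exact dep _ _ _ _ fun j _ h2 => (h j fun s hs => by omega).symm) (fun r x => by
      refine ⟨x (m0 + r) + y r - (T ^ n r) x (m0 + r - n r), ?_⟩
      have := single_top (n r) (m0 + r - n r)
      rw [sub_add_cancel] at this
      rw [T_update, this]; ring) x0
  exact ⟨x, fun i hi => h1 i fun r => by omega, h2⟩

lemma window {U : Set X} (hU : IsOpen U) {v : X} (hv : v ∈ U) :
    ∃ K : ℕ, ∀ x : X, (∀ i : ℤ, -(K : ℤ) ≤ i → i ≤ K → x i = v i) → x ∈ U := by
  by_contra h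
  push Not at h
  choose x hx1 hx2 using h
  have : Tendsto x atTop (𝓝 v) := by
    rw [tendsto_pi_nhds]
    intro i
    refine tendsto_const_nhds.congr' ?_
    filter_upwards [eventually_ge_atTop i.natAbs] with K hK
    exact (hx1 K i (by omega) (by omega)).symm
  obtain ⟨K, hK⟩ := (this.eventually (hU.mem_nhds hv)).exists
  exact hx2 K hK

lemma mixing (U V : Set X) (hU : IsOpen U) (hV : IsOpen V) (hu : U.Nonempty) (hv : V.Nonempty) :
    ∃ N : ℕ, ∀ n : ℕ, N ≤ n → ((⇑(T ^ n)) ⁻¹' V ∩ U).Nonempty := by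
  obtain ⟨u, hu⟩ := hu
  obtain ⟨v, hv⟩ := hv
  obtain ⟨K, hK⟩ := window hU hu
  obtain ⟨L, hL⟩ := window hV hv
  refine ⟨K + L + 1, fun n hn => ?_⟩
  obtain ⟨x, h1, h2⟩ := control (n - L) (fun _ => n) (fun r => v (r - L)) u
  refine ⟨x, hL _ fun i hi _ => ?_, hK _ fun i _ hi => h1 i (by omega)⟩
  have := h2 (i + L).toNat
  rwa [show (n : ℤ) - L + ((i + L).toNat : ℕ) - n = i by omega,
    show (((i + L).toNat : ℕ) : ℤ) - L = i by omega] at this

lemma periodic : Dense {x : X | ∃ n : ℕ, 0 < n ∧ (T ^ n) x = x} := by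
  rw [dense_iff_inter_open]
  rintro U hU ⟨v, hv⟩
  obtain ⟨K, hK⟩ := window hU hv
  let p : ℕ → ℤ := fun r => if r % 2 = 0 then K + 1 + (r / 2 : ℕ) else -K - 1 - (r / 2 : ℕ)
  let e : ℕ → ℤ := fun r => if r % 2 = 0 then -K + (r / 2 : ℕ) else -K - 1 - (r / 2 : ℕ)
  have hout : ∀ r s j, r < s → e r ≤ j → j ≤ e r + ((2 * K + 1 : ℕ) : ℤ) → j ≠ p s := by
    intro r s j hrs h1 h2
    simp only [e, p] at h1 h2 ⊢
    split_ifs at h1 h2 ⊢ <;> omega
  obtain ⟨x, h1, h2⟩ := solve p (fun a b h => by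
      simp only [p] at h; split_ifs at h <;> omega)
    (fun r x => (T ^ (2 * K + 1)) x (e r) = x (e r)) (fun r x z h hx => by
      rw [← dep _ _ x z fun j h1 h2 => h j fun s hs => hout r s j hs h1 h2, hx]
      exact h _ fun s hs => hout r s _ hs le_rfl (by omega)) (fun r x => by
      by_cases hr : r % 2 = 0
      · have e1 : p r = e r + ((2 * K + 1 : ℕ) : ℤ) := by simp only [p, e, if_pos hr]; omega
        refine ⟨x (p r) + x (e r) - (T ^ (2 * K + 1)) x (e r), ?_⟩
        rw [T_update, Function.update_of_ne (by omega), e1, single_top]; ring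
      · have e1 : p r = e r := by simp only [p, e, if_neg hr]
        have h0 : 1 - c (e r) ^ (2 * K + 1) ≠ 0 := sub_ne_zero.2 (c_pow_ne _ _).symm
        refine ⟨((T ^ (2 * K + 1)) x (e r) - x (e r) * c (e r) ^ (2 * K + 1)) /
          (1 - c (e r) ^ (2 * K + 1)), ?_⟩
        rw [T_update, e1, Function.update_self, single_bot]
        field_simp
        ring) v
  refine ⟨x, hK x fun i hi1 hi2 => h1 i fun r => ?_, 2 * K + 1, by omega, funext fun i => ?_⟩
  · simp only [p]; split_ifs <;> omega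
  · by_cases hi : -(K : ℤ) ≤ i
    · have := h2 (2 * (i + K).toNat)
      rwa [show e (2 * (i + K).toNat) = i by simp only [e]; split_ifs <;> omega] at this
    · have := h2 (2 * (-i - K - 1).toNat + 1)
      rwa [show e (2 * (-i - K - 1).toNat + 1) = i by simp only [e]; split_ifs <;> omega] at this

lemma count (Q : ℕ → Prop) (k S n0 K : ℕ) (hS : 0 < S) (hK : K ≤ n0)
    (h : ∀ j n, kk j = k → 2 ^ j ≤ n → 2 * n < 3 * 2 ^ j → S ∣ n → n0 ≤ n → Q (n + K)) :
    ∃ δ : ℝ, 0 < δ ∧ ∃ N₀ : ℕ, ∀ N : ℕ, N₀ ≤ N →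
      δ * (N : ℝ) ≤ (Nat.card {n : ℕ // n < N ∧ Q n} : ℝ) := by
  set G := 2 ^ (k + 3) with hG
  refine ⟨1 / (S * 2 ^ (G + 5)), by positivity, 2 ^ (G + 1 + (S + n0 + 3)), fun N hN => ?_⟩
  have hN0 : N ≠ 0 := by
    have : 0 < 2 ^ (G + 1 + (S + n0 + 3)) := by positivity
    omega
  have hl : G + 1 + (S + n0 + 3) ≤ Nat.log 2 N := Nat.le_log_of_pow_le (by norm_num) hN
  obtain ⟨j, hj1, hj2, hj3, -⟩ := kk_syndetic k 0 (by norm_num) (Nat.log 2 N - G - 1)
  rw [← hG] at hj2
  obtain ⟨a, rfl⟩ : ∃ a, j = a + 3 := ⟨j - 3, by omega⟩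
  set w := 2 ^ a with hw
  have hwa : a < w := Nat.lt_two_pow_self
  have e8 : 2 ^ (a + 3) = 8 * w := by rw [hw]; ring
  have hN1 : 16 * w ≤ N := by
    have h1 : 2 ^ (a + 4) ≤ 2 ^ Nat.log 2 N := Nat.pow_le_pow_right (by norm_num) (by omega)
    have h2 := Nat.pow_log_le_self 2 hN0
    have : 2 ^ (a + 4) = 16 * w := by rw [hw]; ring
    omega
  have hN2 : N ≤ 2 ^ (G + 5) * w := by
    have h1 := Nat.lt_pow_succ_log_self (b := 2) (by norm_num) N
    have h2 : 2 ^ (Nat.log 2 N).succ ≤ 2 ^ (G + 5 + a) :=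
      Nat.pow_le_pow_right (by norm_num) (by omega)
    rw [pow_add 2 (G + 5) a, ← hw] at h2
    exact (h1.trans_le h2).le
  set b := 8 * w / S + 1 with hc
  set q := 2 * w / S with hq
  have hc1 := Nat.div_add_mod (8 * w) S
  have hc2 := Nat.mod_lt (8 * w) hS
  have hq1 := Nat.div_add_mod (2 * w) S
  have hq2 := Nat.mod_lt (2 * w) hS
  rw [← hq] at hq1
  have hcS : S * b = S * (8 * w / S) + S := by rw [hc]; ring
  have hsub : ((Finset.range q).image (fun t => S * (b + t) + K) : Set ℕ) ⊆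
      {n : ℕ | n < N ∧ Q n} := by
    intro n hn
    simp only [Finset.coe_image, Finset.coe_range, Set.mem_image, Set.mem_Iio] at hn
    obtain ⟨t, ht, rfl⟩ := hn
    have h1 : S * (t + 1) ≤ S * q := Nat.mul_le_mul_left _ ht
    have h2 : S * (b + t) = S * b + S * t := by ring
    have h3 : S * (t + 1) = S * t + S := by ring
    exact ⟨by omega, h (a + 3) _ hj3 (by omega) (by omega) ⟨_, rfl⟩ (by omega)⟩
  have hcard := Set.ncard_le_ncard hsub
    ((Set.finite_Iio N).subset fun n hn => hn.1)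
  rw [Set.ncard_coe_finset, Finset.card_image_of_injective _ (by
    intro s t hst
    have := Nat.eq_of_mul_eq_mul_left hS (Nat.add_right_cancel hst)
    omega), Finset.card_range] at hcard
  have h1 : w ≤ S * q := by omega
  have h2 : (N : ℝ) ≤ 2 ^ (G + 5) * (S * q) := by
    have : N ≤ 2 ^ (G + 5) * (S * q) := hN2.trans (Nat.mul_le_mul_left _ h1)
    exact_mod_cast this
  have h3 : (q : ℝ) ≤ (Nat.card {n : ℕ // n < N ∧ Q n} : ℝ) := by exact_mod_cast hcard
  refine le_trans ?_ h3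
  rw [one_div, inv_mul_le_iff₀ (by positivity)]
  linarith

lemma fhc : ∃ x : X, ∀ U : Set X, IsOpen U → U.Nonempty →
    ∃ δ : ℝ, 0 < δ ∧ ∃ N₀ : ℕ, ∀ N : ℕ, N₀ ≤ N →
      δ * (N : ℝ) ≤ (Nat.card {n : ℕ // n < N ∧ (T ^ n) x ∈ U} : ℝ) := by
  let Kf : ℕ → ℕ := fun m => (Nat.unpair (kk (Nat.log 2 m))).2
  let vf : ℕ → X := fun m => TopologicalSpace.denseSeq X (Nat.unpair (kk (Nat.log 2 m))).1
  let nf : ℕ → ℕ := fun m => (2 * Kf m + 1) * (m / (2 * Kf m + 1)) + Kf m
  obtain ⟨x, -, hx⟩ := control 0 nf (fun m => vf m (m - nf m)) 0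
  refine ⟨x, fun U hU hne => ?_⟩
  obtain ⟨a, ha⟩ := (TopologicalSpace.denseRange_denseSeq X).exists_mem_open hU hne
  obtain ⟨K, hK⟩ := window hU ha
  refine count _ (Nat.pair a K) (2 * K + 1) (3 * (2 * K + 1)) K (by omega) (by omega)
    fun j n hj h1 h2 hS hn => hK _ fun i hi1 hi2 => ?_
  obtain ⟨b, rfl⟩ : ∃ b : ℕ, i = b - K := ⟨(i + K).toNat, by omega⟩
  have hlog : Nat.log 2 (n + b) = j :=
    Nat.log_eq_of_pow_le_of_lt_pow (by omega) (by rw [pow_succ]; omega)
  have e1 : Kf (n + b) = K := by simp only [Kf, hlog, hj, Nat.unpair_pair]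
  have e2 : vf (n + b) = TopologicalSpace.denseSeq X a := by
    simp only [vf, hlog, hj, Nat.unpair_pair]
  have e3 : nf (n + b) = n + K := by
    simp only [nf, e1]
    obtain ⟨t, rfl⟩ := hS
    rw [Nat.mul_add_div (by omega), Nat.div_eq_of_lt (by omega), add_zero]
  have := hx (n + b)
  rw [e2, e3, zero_add, show ((n + b : ℕ) : ℤ) - ((n + K : ℕ) : ℤ) = b - K by omega] at this
  exact this

lemma fourier (a : ℤ → ℂ) (ha : Summable a)
    (h : ∀ m b : ℕ, ∑' n, a n * (om m ^ (2 * b + 1)) ^ n = 0) : a 0 = 0 := by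
  let s : ℕ → ℤ → ℂ := fun m n => (∑ b ∈ range (2 ^ m), (om m ^ (2 * b + 1)) ^ n) / 2 ^ m
  have hnorm : ∀ m b : ℕ, ∀ n : ℤ, ‖(om m ^ (2 * b + 1)) ^ n‖ = 1 := by
    intro m b n; rw [norm_zpow, norm_pow, om_norm, one_pow, one_zpow]
  have hsum : ∀ m b : ℕ, Summable fun n => a n * (om m ^ (2 * b + 1)) ^ n := by
    intro m b
    refine Summable.of_norm ?_
    simpa only [norm_mul, hnorm, mul_one] using ha.norm
  have h1 : ∀ m, ∑' n, a n * s m n = 0 := by
    intro m
    simp only [s, mul_div_assoc', mul_sum]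
    rw [tsum_div_const, Summable.tsum_finsetSum fun b _ => hsum m b]
    simp [h]
  have h2 : ∀ m n, ‖a n * s m n‖ ≤ ‖a n‖ := by
    intro m n
    rw [norm_mul]
    refine mul_le_of_le_one_right (norm_nonneg _) ?_
    simp only [s]
    rw [norm_div, norm_pow, Complex.norm_two, div_le_one (by positivity)]
    refine (norm_sum_le _ _).trans ?_
    simp [hnorm]
  have h3 : ∀ n, Tendsto (fun m => a n * s m n) atTop (𝓝 (if n = 0 then a 0 else 0)) := by
    intro n
    split_ifs with hn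
    · subst hn
      refine tendsto_const_nhds.congr fun m => ?_
      have : (2 : ℂ) ^ m ≠ 0 := pow_ne_zero _ two_ne_zero
      simp [s, this]
    · refine tendsto_const_nhds.congr' ?_
      filter_upwards [eventually_ge_atTop n.natAbs] with m hm
      have hne : om m ≠ 0 := by
        intro h0; have := om_norm m; rw [h0] at this; simp at this
      have e : ∀ b : ℕ, (om m ^ (2 * b + 1)) ^ n = om m ^ n * (om m ^ (2 * n)) ^ b := by
        intro b
        rw [← zpow_natCast, ← zpow_natCast, ← zpow_mul, ← zpow_mul, ← zpow_add₀ hne]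
        congr 1; push_cast; ring
      have hw1 : om m ^ (2 * n) ≠ 1 := by
        rw [Ne, (om_prim m).zpow_eq_one_iff_dvd]
        intro hd
        have h4 := Int.le_of_dvd (by positivity) ((dvd_abs _ _).2 hd)
        have h5 : m < 2 ^ m := Nat.lt_two_pow_self
        rw [pow_succ, Int.abs_eq_natAbs] at h4
        omega
      have hw2 : (om m ^ (2 * n)) ^ (2 ^ m) = 1 := by
        rw [← zpow_natCast, ← zpow_mul, (om_prim m).zpow_eq_one_iff_dvd]
        exact ⟨n, by push_cast; ring⟩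
      simp only [s, e, ← mul_sum]
      rw [geom_sum_eq hw1, hw2]
      simp
  have h4 := tendsto_tsum_of_dominated_convergence ha.norm h3 (Eventually.of_forall h2)
  simp only [h1, tsum_ite_eq] at h4
  exact (tendsto_nhds_unique tendsto_const_nhds h4).symm

lemma vanish (z : ℤ → X) (hz : ∀ n, T (z n) = z (n + 1)) (hs : ∀ i, Summable fun n => z n i) :
    z 0 0 = 0 := by
  refine fourier (fun n => z n 0) (hs 0) fun m b => ?_
  set u := om m ^ (2 * b + 1) with hu
  have hun : ‖u‖ = 1 := by rw [hu, norm_pow, om_norm, one_pow]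
  have hu0 : u ≠ 0 := by intro h0; rw [h0] at hun; simp at hun
  have hsum : ∀ i, Summable fun n => z n i * u ^ n := by
    intro i
    refine Summable.of_norm ?_
    simpa only [norm_mul, norm_zpow, hun, one_zpow, mul_one] using (hs i).norm
  have hrec : ∀ i, ∑' n, z n (i + 1) * u ^ n = (u⁻¹ - c i) * ∑' n, z n i * u ^ n := by
    intro i
    have e1 : ∑' n, z n i * u ^ n = u * ∑' n, z (n + 1) i * u ^ n := by
      rw [← (Equiv.addRight (1 : ℤ)).tsum_eq, ← tsum_mul_left]
      refine tsum_congr fun n => ?_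
      simp only [Equiv.coe_addRight]
      rw [zpow_add_one₀ hu0]; ring
    have e2 : ∑' n, z (n + 1) i * u ^ n
        = ∑' n, z n (i + 1) * u ^ n + c i * ∑' n, z n i * u ^ n := by
      rw [← tsum_mul_left, ← (hsum _).tsum_add ((hsum i).mul_left _)]
      refine tsum_congr fun n => ?_
      rw [← hz, T_apply]; ring
    rw [e2] at e1
    field_simp
    linear_combination -e1
  obtain ⟨k, hk⟩ := c_surj m b
  have : ∀ t : ℕ, ∑' n, z n (-(k : ℤ) + t) * u ^ n = 0 := by
    intro t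
    induction t with
    | zero =>
      have := hrec (-(k : ℤ) - 1)
      rw [hk, sub_self, zero_mul, sub_add_cancel] at this
      simpa using this
    | succ t ih =>
      have := hrec (-(k : ℤ) + t)
      rw [ih, mul_zero] at this
      rw [← this]; push_cast; simp only [add_assoc]
  simpa using this k

/-- The negation of the preceding statement: Every operator on a real or complex separable F-space that is chaotic, topologically mixing and frequently hypercyclic admits a dense set X0 and a self-map S of X0 with the series of T^n x and S^n x unconditionally convergent and TSx = x on X0. -/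
theorem result :
    ¬ (∀ (𝕂 : Type) [RCLike 𝕂] (X : Type) [AddCommGroup X] [Module 𝕂 X] [UniformSpace X]
      [IsUniformAddGroup X] [CompleteSpace X] [TopologicalSpace.MetrizableSpace X]
      [TopologicalSpace.SeparableSpace X] [ContinuousSMul 𝕂 X] (T : X →L[𝕂] X),
      ((∃ x : X, Dense (Set.range (fun n : ℕ => (T ^ n) x))) ∧
        Dense {x : X | ∃ n : ℕ, 0 < n ∧ (T ^ n) x = x}) →
      (∀ U V : Set X, IsOpen U → IsOpen V → U.Nonempty → V.Nonempty →
        ∃ N : ℕ, ∀ n : ℕ, N ≤ n → ((⇑(T ^ n)) ⁻¹' V ∩ U).Nonempty) →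
      (∃ x : X, ∀ U : Set X, IsOpen U → U.Nonempty →
        ∃ δ : ℝ, 0 < δ ∧ ∃ N₀ : ℕ, ∀ N : ℕ, N₀ ≤ N →
          δ * (N : ℝ) ≤ (Nat.card {n : ℕ // n < N ∧ (T ^ n) x ∈ U} : ℝ)) →
      ∃ X₀ : Set X, Dense X₀ ∧ ∃ S : X → X, (∀ x ∈ X₀, S x ∈ X₀) ∧
        ∀ x ∈ X₀, Summable (fun n : ℕ => (T ^ n) x) ∧
          Summable (fun n : ℕ => S^[n] x) ∧ T (S x) = x) := by
  intro H
  have hc : ∃ x : X, Dense (Set.range (fun n : ℕ => (T ^ n) x)) := by
    obtain ⟨x, hx⟩ := fhc
    refine ⟨x, dense_iff_inter_open.2 fun U hU hne => ?_⟩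
    obtain ⟨δ, hδ, N, hN⟩ := hx U hU hne
    have h1 := hN (N + 1) (by omega)
    have h2 : (0 : ℝ) < δ * ((N + 1 : ℕ) : ℝ) := by positivity
    have h3 : Nat.card {n : ℕ // n < N + 1 ∧ (T ^ n) x ∈ U} ≠ 0 := by
      intro h; rw [h] at h1; simp only [Nat.cast_zero] at h1; linarith
    obtain ⟨⟨n, -, hn⟩⟩ := (Nat.card_ne_zero.1 h3).1
    exact ⟨_, hn, n, rfl⟩
  obtain ⟨X₀, hd, S, hS, h⟩ := H ℂ X T ⟨hc, periodic⟩ mixing fhc
  obtain ⟨x, hx, hx0⟩ := hd.inter_open_nonempty {x : X | x 0 ≠ 0}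
    (isOpen_ne_fun (continuous_apply 0) continuous_const) ⟨1, by simp⟩
  apply hx
  have hit : ∀ n, S^[n] x ∈ X₀ := by
    intro n
    induction n with
    | zero => exact hx0
    | succ n ih => rw [Function.iterate_succ_apply']; exact hS _ ih
  let z : ℤ → X := fun n => if 0 ≤ n then (T ^ n.toNat) x else S^[(-n).toNat] x
  have z1 : ∀ n : ℕ, z n = (T ^ n) x := fun n => by simp [z]
  have z2 : ∀ n : ℕ, z (-n) = S^[n] x := fun n => by
    rcases n with _ | n
    · simp [z]
    · simp only [z]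
      rw [if_neg (by omega), neg_neg, Int.toNat_natCast]
  have := vanish z (fun n => ?_) (fun i => ?_)
  · simpa [z] using this
  · rcases le_or_gt 0 n with hn | hn
    · lift n to ℕ using hn
      rw [z1, show (n : ℤ) + 1 = ((n + 1 : ℕ) : ℤ) by omega, z1, pow_succ']; rfl
    · obtain ⟨k, rfl⟩ : ∃ k : ℕ, n = -((k + 1 : ℕ) : ℤ) := ⟨(-n - 1).toNat, by omega⟩
      rw [z2, show -((k + 1 : ℕ) : ℤ) + 1 = -(k : ℤ) by omega, z2, Function.iterate_succ_apply']
      exact (h _ (hit k)).2.2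
  · refine Summable.of_nat_of_neg ?_ ?_
    · simp only [z1]; exact Pi.summable.1 (h x hx0).1 i
    · simp only [z2]; exact Pi.summable.1 (h x hx0).2.1 i

end Pool.Agent.S04862
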