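import Pool.Statements.S04875
import Pool.Agent.Lib.helper21.Aor2

set_option autoImplicit false
open Pool Pool.MP_64ccd3_an

namespace Pool.Agent.S04875

/-- Suppose a power series has radius 1, its partial sums are uniformly bounded on its singular set E, and E has positive measure on the circle. Then at every circle point outside E the series converges to the value of the local analytic continuation. -/
theorem result :
  ∀ (a : ℕ → ℂ) (E : Set ℂ),
    (FormalMultilinearSeries.ofScalars ℂ a).radius = 1 →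
    E = {ξ : ℂ | ‖ξ‖ = 1 ∧ ¬ ∃ r : ℝ, 0 < r ∧ ∃ g : ℂ → ℂ,
          DifferentiableOn ℂ g (Metric.ball ξ r) ∧
          ∀ w ∈ Metric.ball ξ r, ‖w‖ < 1 → g w = ∑' n, a n * w ^ n} →
    (∃ M : ℝ, ∀ ξ ∈ E, ∀ N : ℕ, ‖∑ n ∈ Finset.range (N + 1), a n * ξ ^ n‖ ≤ M) →
    0 < MeasureTheory.volume
          {θ : ℝ | θ ∈ Set.Ioc 0 (2 * Real.pi) ∧ Complex.exp ((θ : ℂ) * Complex.I) ∈ E} →
    ∀ z : ℂ, ‖z‖ = 1 → z ∉ E →
      ∃ L : ℂ, Filter.Tendsto (fun N : ℕ => ∑ n ∈ Finset.range N, a n * z ^ n)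
            Filter.atTop (nhds L) ∧
        ∃ r : ℝ, 0 < r ∧ ∃ g : ℂ → ℂ, DifferentiableOn ℂ g (Metric.ball z r) ∧
          (∀ w ∈ Metric.ball z r, ‖w‖ < 1 → g w = ∑' n, a n * w ^ n) ∧ g z = L := by
  open Complex Set Filter Metric Topology Pool.Agent.Lib.Helper21.Aor2 in
  intro a E _ hE ⟨M, hM⟩ hp z hz zE
  obtain ⟨α, -, hα⟩ := MeasureTheory.nonempty_of_measure_ne_zero hp.ne'
  have reg (ξ : ℂ) (h : ‖ξ‖ = 1) : ξ ∉ E ↔ ∃ r : ℝ, 0 < r ∧ ∃ g : ℂ → ℂ,
      DifferentiableOn ℂ g (ball ξ r) ∧ ∀ w ∈ ball ξ r, ‖w‖ < 1 → g w = ∑' n, a n * w ^ n := by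
    rw [hE, mem_ofPred, not_and, not_not]; exact ⟨fun k => k h, fun k _ => k⟩
  have n1 := norm_exp_ofReal_mul_I
  have A := ab (n1 α) (hM _ hα)
  have cE : IsClosed {x : ℝ | cexp (x * I) ∈ E} := by
    refine isOpen_compl_iff.1 (isOpen_iff_mem_nhds.2 fun x hx => ?_)
    obtain ⟨r, r0, g, hg, e⟩ := (reg _ (n1 x)).1 hx
    refine mem_of_superset ((show Continuous fun x : ℝ => cexp (x * I) by
      fun_prop).continuousAt.preimage_mem_nhds (ball_mem_nhds _ r0)) fun y hy => ?_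
    obtain ⟨s, s0, hs⟩ := Metric.isOpen_iff.1 isOpen_ball _ hy
    exact (reg _ (n1 y)).2 ⟨s, s0, g, hg.mono hs, fun w hw => e w (hs hw)⟩
  obtain ⟨r, r0, g, hg, e⟩ := (reg z hz).1 zE
  refine ⟨g z, riesz (toz cE hα ?_ (fun x hx => hM _ hx) fun δ δ0 => ?_) hz r0 hg e, r, r0, g, hg, e, rfl⟩
  · rwa [mem_ofPred, show ((α + 2 * Real.pi : ℝ) : ℂ) * I = α * I + 2 * Real.pi * I by
      push_cast; ring, exp_periodic]
  have c := continuous_infDist_pt {x : ℝ | cexp (x * I) ∈ E}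
  have := ((isCompact_Icc (a := (0 : ℝ)) (b := 1)).prod ((isCompact_Icc (a := α)
    (b := α + 2 * Real.pi)).inter_right (isClosed_le (continuous_const (y := δ)) c))).induction_on
    (p := fun S => ∃ B, ∀ q ∈ S, q.1 ∈ Ico (0 : ℝ) 1 → ‖∑' n, a n * (q.1 * cexp (q.2 * I)) ^ n‖ ≤ B)
    ⟨0, by simp⟩ (fun s t h ⟨B, hB⟩ => ⟨B, fun q hq => hB q (h hq)⟩)
    (fun s t ⟨B, hB⟩ ⟨C, hC⟩ => ⟨max B C, fun q hq k => hq.elim
      (fun h => (hB q h k).trans (le_max_left _ _)) fun h => (hC q h k).trans (le_max_right _ _)⟩)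
    fun q hq => by
      rcases hq.1.2.lt_or_eq with k | k
      · obtain ⟨t, t1, t2⟩ := exists_between k
        refine ⟨_, mem_nhdsWithin_of_mem_nhds (continuous_fst.continuousAt.eventually_lt_const t1),
          2 * M * (1 - t)⁻¹, fun p hp k => tsum_of_norm_bounded
          ((hasSum_geometric_of_lt_one (hq.1.1.trans t1.le) t2).mul_left _) fun n => ?_⟩
        rw [norm_mul, norm_pow, nz k.1]
        exact mul_le_mul (A n) (pow_le_pow_left₀ k.1 (le_of_lt hp) n) (pow_nonneg k.1 n)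
          ((norm_nonneg _).trans (A 0))
      · obtain ⟨r, r0, g, hg, e⟩ := (reg _ (n1 q.2)).1 fun h => by
          have := hq.2.2
          rw [mem_ofPred, infDist_zero_of_mem (show q.2 ∈ {x : ℝ | cexp (x * I) ∈ E} from h)] at this
          linarith
        have t : Tendsto (fun p : ℝ × ℝ => p.1 * cexp (p.2 * I)) (𝓝 q) (𝓝 (cexp (q.2 * I))) :=
          (show Continuous fun p : ℝ × ℝ => p.1 * cexp (p.2 * I) by fun_prop).tendsto' _ _ (by simp [k])
        refine ⟨_, mem_nhdsWithin_of_mem_nhds (t.eventually (((hg.differentiableAt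
          (ball_mem_nhds _ r0)).continuousAt.norm.eventually_lt_const (lt_add_one _)).and
          (ball_mem_nhds _ r0))), ‖g (cexp (q.2 * I))‖ + 1, fun p hp k => ?_⟩
        rw [← e _ hp.2 ((nz k.1 _).trans_lt k.2)]
        exact hp.1.le
  obtain ⟨B, hB⟩ := this
  exact ⟨B, fun r hr x hx k => hB (r, x) ⟨⟨hr.1, hr.2.le⟩, hx, k⟩ hr⟩

end Pool.Agent.S04875
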