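import Pool.Statements.S04889

set_option autoImplicit false
open Pool Pool.MP_65dae3_an

namespace Pool.Agent.S04889

noncomputable section

def y (n : ℕ) : ℝ := (1 / 8) ^ n
def A (n : ℕ) : ℕ := (Nat.unpair n).1
def B (n : ℕ) : ℕ := (Nat.unpair n).2
def u (n : ℕ) : ℤ := if (A n).sqrt = (B n).sqrt then 0 else 1
def v (n : ℕ) : ℤ := if (A n).sqrt = (B n).sqrt then 0 else if A n < B n then 1 else -1
def h (j : ℕ) : ℝ := ∑' n : A ⁻¹' {j}, (u n : ℝ) * y n + ∑' n : B ⁻¹' {j}, (v n : ℝ) * y n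
def x (m : ℕ) : ℝ := if m % 2 = 0 then y (m / 2) else h (m / 2)

lemma x_even (n : ℕ) : x (2 * n) = y n := by simp [x]
lemma x_odd (n : ℕ) : x (2 * n + 1) = h n := by
  have h1 : (2 * n + 1) % 2 = 1 := by omega
  have h2 : (2 * n + 1) / 2 = n := by omega
  simp [x, h1, h2]

lemma y_pos (n : ℕ) : 0 < y n := by unfold y; positivity

lemma y_sum : Summable y := summable_geometric_of_lt_one (by norm_num) (by norm_num)

lemma summ (k : ℕ → ℤ) (hk : ∀ n, |k n| ≤ 4) : Summable fun n => (k n : ℝ) * y n := by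
  refine Summable.of_norm_bounded (y_sum.mul_left 4) fun n => ?_
  rw [norm_mul, Real.norm_eq_abs, Real.norm_eq_abs, abs_of_pos (y_pos n)]
  have : |(k n : ℝ)| ≤ 4 := by exact_mod_cast hk n
  exact mul_le_mul_of_nonneg_right this (y_pos n).le

lemma u_abs (n : ℕ) : u n = 0 ∨ u n = 1 := by unfold u; split_ifs <;> simp
lemma v_abs (n : ℕ) : v n = 0 ∨ v n = 1 ∨ v n = -1 := by unfold v; split_ifs <;> simp

def K (c : ℕ → ℤ) (n : ℕ) : ℤ := c (2 * n) + c (2 * A n + 1) * u n + c (2 * B n + 1) * v n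

lemma fib (g : ℕ → ℕ) (w c : ℕ → ℤ) (hw : ∀ n, |c (g n) * w n| ≤ 4) :
    HasSum (fun j => (c j : ℝ) * ∑' n : g ⁻¹' {j}, (w n : ℝ) * y n)
      (∑' n, ((c (g n) * w n : ℤ) : ℝ) * y n) := by
  have := (summ _ hw).hasSum.tsum_fiberwise g
  have e : (fun j => (c j : ℝ) * ∑' n : g ⁻¹' {j}, (w n : ℝ) * y n) =
      fun j => ∑' n : g ⁻¹' {j}, ((c (g n) * w n : ℤ) : ℝ) * y n := ?_
  · rw [e]; exact this
  funext j
  rw [← tsum_mul_left]
  apply tsum_congr
  rintro ⟨n, hn⟩
  have : g n = j := hn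
  simp [this, mul_assoc]

lemma rel (c : ℕ → ℤ) (hc : ∀ m, c m = 0 ∨ c m = 1) :
    HasSum (fun m => (c m : ℝ) * x m) (∑' n, (K c n : ℝ) * y n) := by
  have b0 : ∀ n, |c (2 * n)| ≤ 4 := fun n => by rcases hc (2 * n) with h | h <;> simp [h]
  have b1 : ∀ n, |c (2 * A n + 1) * u n| ≤ 4 := fun n => by
    rcases hc (2 * A n + 1) with h | h <;> rcases u_abs n with h' | h' <;> simp [h, h']
  have b2 : ∀ n, |c (2 * B n + 1) * v n| ≤ 4 := fun n => by
    rcases hc (2 * B n + 1) with h | h <;> rcases v_abs n with h' | h' | h' <;> simp [h, h']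
  have h0 := (summ _ b0).hasSum
  have h1 := fib A u (fun j => c (2 * j + 1)) b1
  have h2 := fib B v (fun j => c (2 * j + 1)) b2
  have h3 := HasSum.even_add_odd (f := fun m => (c m : ℝ) * x m)
    (by simpa only [x_even] using h0) (by simpa only [x_odd, h, mul_add] using h1.add h2)
  convert h3 using 1
  rw [← (summ _ b1).tsum_add (summ _ b2), ← (summ _ b0).tsum_add ((summ _ b1).add (summ _ b2))]
  apply tsum_congr
  intro n
  simp only [K]; push_cast; ring

lemma uniq (k : ℕ → ℤ) (hk : ∀ n, |k n| ≤ 4) (h0 : ∑' n, (k n : ℝ) * y n = 0) (n : ℕ) :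
    k n = 0 := by
  induction n using Nat.strong_induction_on with
  | _ n ih =>
    have hs := summ k hk
    rw [← hs.sum_add_tsum_nat_add (n + 1), Finset.sum_range_succ,
      Finset.sum_eq_zero (fun i hi => by simp [ih i (Finset.mem_range.1 hi)]), zero_add] at h0
    have hg : HasSum (fun i : ℕ => 4 * y (n + 1) * (1 / 8 : ℝ) ^ i) (4 * y (n + 1) * (1 - 1 / 8)⁻¹) :=
      (hasSum_geometric_of_lt_one (by norm_num) (by norm_num)).mul_left _
    have hb := tsum_of_norm_bounded hg (f := fun i => (k (i + (n + 1)) : ℝ) * y (i + (n + 1)))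
      (fun i => by
        rw [norm_mul, Real.norm_eq_abs, Real.norm_eq_abs, abs_of_pos (y_pos _)]
        have : |(k (i + (n + 1)) : ℝ)| ≤ 4 := by exact_mod_cast hk _
        have e : 4 * y (n + 1) * (1 / 8 : ℝ) ^ i = 4 * y (i + (n + 1)) := by
          unfold y; ring
        rw [e]
        exact mul_le_mul_of_nonneg_right this (y_pos _).le)
    have e1 : ∑' i, (k (i + (n + 1)) : ℝ) * y (i + (n + 1)) = -((k n : ℝ) * y n) := by linarith
    have e2 : y (n + 1) = y n / 8 := by unfold y; ring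
    rw [e1, norm_neg, norm_mul, Real.norm_eq_abs, Real.norm_eq_abs, abs_of_pos (y_pos _), e2] at hb
    have hp := y_pos n
    have : |(k n : ℝ)| < 1 := by nlinarith
    have : |k n| < 1 := by exact_mod_cast this
    exact Int.abs_lt_one_iff.1 this

def io (e : ℕ → Bool) (m : ℕ) : ℤ := if e m = true then 1 else 0

lemma io_val (e : ℕ → Bool) (m : ℕ) : io e m = 0 ∨ io e m = 1 := by
  unfold io; split_ifs <;> simp

lemma S_eq (e : ℕ → Bool) :
    ∑' n, (if e n = true then x n else 0) = ∑' n, (K (io e) n : ℝ) * y n := by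
  rw [← (rel _ (io_val e)).tsum_eq]
  apply tsum_congr
  intro n
  unfold io; split_ifs <;> simp

lemma K_bd (e : ℕ → Bool) (n : ℕ) : -1 ≤ K (io e) n ∧ K (io e) n ≤ 3 := by
  unfold K
  rcases io_val e (2 * n) with a | a <;> rcases io_val e (2 * A n + 1) with b | b <;>
    rcases io_val e (2 * B n + 1) with c | c <;> rcases u_abs n with d | d <;>
    rcases v_abs n with f | f | f <;> simp [a, b, c, d, f]

lemma K_eq {e e' : ℕ → Bool}
    (h : ∑' n, (if e n = true then x n else 0) = ∑' n, (if e' n = true then x n else 0)) (n : ℕ) :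
    K (io e) n = K (io e') n := by
  rw [S_eq, S_eq] at h
  have b : ∀ (e : ℕ → Bool) n, |K (io e) n| ≤ 4 := fun e n =>
    abs_le.2 ⟨by linarith [(K_bd e n).1], by linarith [(K_bd e n).2]⟩
  have := uniq (fun n => K (io e) n - K (io e') n)
    (fun n => abs_le.2 ⟨by linarith [(K_bd e n).1, (K_bd e' n).2],
      by linarith [(K_bd e n).2, (K_bd e' n).1]⟩)
    (by
      rw [← sub_eq_zero, ← (summ _ (b e)).tsum_sub (summ _ (b e'))] at h
      rw [← h]
      apply tsum_congr
      intro n; push_cast; ring) n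
  linarith

lemma io_inj {e e' : ℕ → Bool} {m : ℕ} (h : io e m = io e' m) : e m = e' m := by
  unfold io at h
  cases h1 : e m <;> cases h2 : e' m <;> simp_all

lemma heads {e e' : ℕ → Bool} (h : ∀ n, K (io e) n = K (io e') n)
    (hh : ∀ j, e (2 * j + 1) = e' (2 * j + 1)) : e = e' := by
  funext m
  rcases Nat.even_or_odd' m with ⟨n, rfl | rfl⟩
  · have := h n
    simp only [K, io, hh] at this
    apply io_inj
    unfold io
    linarith
  · exact hh n

lemma same_group {e e' : ℕ → Bool} (h : ∀ n, K (io e) n = K (io e') n) {j j' : ℕ}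
    (h1 : e (2 * j + 1) ≠ e' (2 * j + 1)) (h2 : e (2 * j' + 1) ≠ e' (2 * j' + 1)) :
    j.sqrt = j'.sqrt := by
  by_contra hne
  wlog hlt : j < j' generalizing j j'
  · have h3 : j ≠ j' := by rintro rfl; exact hne rfl
    exact this h2 h1 (Ne.symm hne) (by omega)
  have a := h (Nat.pair j j')
  have b := h (Nat.pair j' j)
  have hn : ¬ j' < j := by omega
  simp only [K, u, v, A, B, Nat.unpair_pair, hne, Ne.symm hne, hlt, hn, if_true, if_false] at a b
  have c1 : io e (2 * j + 1) ≠ io e' (2 * j + 1) := fun h => h1 (io_inj h)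
  have c2 : io e (2 * j' + 1) ≠ io e' (2 * j' + 1) := fun h => h2 (io_inj h)
  have := io_val e (2 * j + 1)
  have := io_val e' (2 * j + 1)
  have := io_val e (2 * j' + 1)
  have := io_val e' (2 * j' + 1)
  have := io_val e (2 * Nat.pair j j')
  have := io_val e' (2 * Nat.pair j j')
  have := io_val e (2 * Nat.pair j' j)
  have := io_val e' (2 * Nat.pair j' j)
  omega

lemma fin_fib (t : ℝ) : Finite {e : ℕ → Bool // ∑' n, (if e n = true then x n else 0) = t} := by
  rcases isEmpty_or_nonempty {e : ℕ → Bool // ∑' n, (if e n = true then x n else 0) = t} with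
    hE | ⟨⟨e0⟩⟩
  · infer_instance
  have hK : ∀ a b : {e : ℕ → Bool // ∑' n, (if e n = true then x n else 0) = t},
      ∀ n, K (io a.1) n = K (io b.1) n := fun a b => K_eq (a.2.trans b.2.symm)
  have hM : ∃ M : ℕ, ∀ a : {e : ℕ → Bool // ∑' n, (if e n = true then x n else 0) = t},
      ∀ j, M ≤ j → a.1 (2 * j + 1) = e0.1 (2 * j + 1) := by
    by_cases hc : ∃ (a : {e : ℕ → Bool // ∑' n, (if e n = true then x n else 0) = t}) (j : ℕ),
        a.1 (2 * j + 1) ≠ e0.1 (2 * j + 1)
    · obtain ⟨e1, j1, h1⟩ := hc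
      refine ⟨(j1.sqrt + 1) * (j1.sqrt + 1), fun a j hj => ?_⟩
      by_contra h2
      have hne : j.sqrt ≠ j1.sqrt := by
        have := Nat.le_sqrt.2 hj
        omega
      have h3 : a.1 (2 * j1 + 1) = e0.1 (2 * j1 + 1) := by
        by_contra h; exact hne (same_group (hK a e0) h2 h)
      have h4 : e1.1 (2 * j + 1) = e0.1 (2 * j + 1) := by
        by_contra h; exact hne (same_group (hK e1 e0) h h1)
      exact hne (same_group (hK a e1) (by rw [h4]; exact h2) (by rw [h3]; exact h1.symm))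
    · push Not at hc
      exact ⟨0, fun a j _ => hc a j⟩
  obtain ⟨M, hM⟩ := hM
  refine Finite.of_injective (β := Fin M → Bool) (fun a i => a.1 (2 * i + 1)) ?_
  intro a b hab
  apply Subtype.ext
  apply heads (hK a b)
  intro j
  by_cases hj : j < M
  · exact congrFun hab ⟨j, hj⟩
  · rw [hM a j (by omega), hM b j (by omega)]

def T (N n : ℕ) : ℤ :=
  if ((A n).sqrt = N ∧ u n = 1) ∨ ((B n).sqrt = N ∧ v n = 1) then 1 else 0

def ej (N j : ℕ) (m : ℕ) : Bool :=
  if m % 2 = 0 then
    decide (T N (m / 2) - (if A (m / 2) = j then 1 else 0) * u (m / 2)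
      - (if B (m / 2) = j then 1 else 0) * v (m / 2) = 1)
  else decide (m / 2 = j)

lemma ej_odd (N j i : ℕ) : ej N j (2 * i + 1) = decide (i = j) := by
  have h1 : (2 * i + 1) % 2 = 1 := by omega
  have h2 : (2 * i + 1) / 2 = i := by omega
  simp [ej, h1, h2]

lemma K_ej (N j : ℕ) (hj : j.sqrt = N) (n : ℕ) : K (io (ej N j)) n = T N n := by
  have h1 : (2 * n) % 2 = 0 := by omega
  have h2 : (2 * n) / 2 = n := by omega
  simp only [K, io, ej_odd]
  simp only [ej, h1, h2, if_true, decide_eq_true_eq]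
  subst hj
  by_cases a : A n = j <;> by_cases b : B n = j <;>
    by_cases c : (A n).sqrt = (B n).sqrt <;> by_cases d : A n < B n <;>
    simp only [T, u, v] <;> split_ifs <;> simp_all

end

theorem result :
    ∃ x : ℕ → ℝ, Summable (fun n => |x n|) ∧
      (∀ N : ℕ, ∃ t : ℝ, ∃ k : ℕ, N ≤ k ∧
        Cardinal.mk {ε : ℕ → Bool // ∑' n, (if ε n = true then x n else 0) = t} = (k : Cardinal)) ∧
      (∀ t : ℝ,
        Cardinal.mk {ε : ℕ → Bool // ∑' n, (if ε n = true then x n else 0) = t} ≠ Cardinal.aleph0 ∧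
        Cardinal.mk {ε : ℕ → Bool // ∑' n, (if ε n = true then x n else 0) = t} ≠ Cardinal.continuum) := by
  refine ⟨x, ?_, fun N => ?_, fun t => ?_⟩
  · have := (rel (fun _ => 1) (fun _ => Or.inr rfl)).summable
    simp only [Int.cast_one, one_mul] at this
    exact this.abs
  · refine ⟨∑' n, (T N n : ℝ) * y n, ?_⟩
    have := fin_fib (∑' n, (T N n : ℝ) * y n)
    refine ⟨Nat.card {e : ℕ → Bool // ∑' n, (if e n = true then x n else 0) =
      ∑' n, (T N n : ℝ) * y n}, ?_, Nat.cast_card.symm⟩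
    have hs : ∀ i : Fin N, (N * N + i).sqrt = N := fun i => Nat.sqrt_add_eq N (by omega)
    have := Nat.card_le_card_of_injective
      (fun i : Fin N => (⟨ej N (N * N + i), by rw [S_eq]; simp only [K_ej N _ (hs i)]⟩ :
        {e : ℕ → Bool // ∑' n, (if e n = true then x n else 0) = ∑' n, (T N n : ℝ) * y n}))
      (by
        intro i i' h
        have := congrFun (congrArg Subtype.val h) (2 * (N * N + i) + 1)
        simp only [ej_odd, decide_true] at this
        have h2 := of_decide_eq_true this.symm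
        exact Fin.ext (by omega))
    simpa using this
  · have := fin_fib t
    have h1 := Cardinal.lt_aleph0_of_finite
      {e : ℕ → Bool // ∑' n, (if e n = true then x n else 0) = t}
    exact ⟨h1.ne, (h1.trans Cardinal.aleph0_lt_continuum).ne⟩

end Pool.Agent.S04889
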