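import Pool.Statements.S04961
import Pool.Agent.Lib.helper28.WieB

set_option autoImplicit false
open MeasureTheory
open Pool Pool.MP_6c36f4_an

namespace Pool.Agent.S04961

/-- There is a domain in ℂⁿ (n ≥ 1) and reals 1 < a < b such that, for p > 1, its Bergman projection satisfies ‖Pf‖_p ≤ C‖f‖_p on L² ∩ Lᵖ exactly when a ≤ p ≤ b. -/
theorem result : ∃ n : ℕ, 1 ≤ n ∧ ∃ Ω : Set (Fin n → ℂ), IsOpen Ω ∧ IsConnected Ω ∧
    ∃ a b : ℝ, 1 < a ∧ a < b ∧ ∀ p : ℝ, 1 < p →
      ((∃ C : ℝ, ∀ f g : (Fin n → ℂ) → ℂ,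
          MemLp f 2 (volume.restrict Ω) →
          MemLp f (ENNReal.ofReal p) (volume.restrict Ω) →
          DifferentiableOn ℂ g Ω →
          MemLp g 2 (volume.restrict Ω) →
          (∀ h : (Fin n → ℂ) → ℂ, DifferentiableOn ℂ h Ω → MemLp h 2 (volume.restrict Ω) →
              ∫ z in Ω, (f z - g z) * (starRingEnd ℂ) (h z) = 0) →
          eLpNorm g (ENNReal.ofReal p) (volume.restrict Ω)
            ≤ ENNReal.ofReal C * eLpNorm f (ENNReal.ofReal p) (volume.restrict Ω))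
        ↔ (a ≤ p ∧ p ≤ b)) := by
  have hc : Continuous fun x : Fin 2 → ℂ => (x 0, x 1) := by fun_prop
  have ho : IsOpen (H28Wie.pre H28Wie.Om) := H28Wie.Om_open.preimage hc
  have two : ENNReal.ofReal 2 = 2 := by simp
  have e2 := (H28Wie.mem_e H28Wie.Om two_pos).2 (H28Wie.fin_int (by norm_num) (by norm_num))
  rw [two] at e2
  have hN := H28Wie.nz (H28Wie.s1 0) e2
  have c2 : MemLp (fun x : Fin 2 → ℂ => starRingEnd ℂ (x 0)) 2
      (volume.restrict (H28Wie.pre H28Wie.Om)) := e2.star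
  have hi : ∀ (f : (Fin 2 → ℂ) → ℂ) (β : ℂ), MemLp f 2 (volume.restrict (H28Wie.pre H28Wie.Om)) →
      ∫ x in H28Wie.pre H28Wie.Om, (f x - β * x 0) * starRingEnd ℂ (x 0) =
        (∫ x in H28Wie.pre H28Wie.Om, f x * starRingEnd ℂ (x 0)) -
          β * ∫ x in H28Wie.pre H28Wie.Om, x 0 * starRingEnd ℂ (x 0) := fun f β hf => by
    simp only [sub_mul, mul_assoc]
    exact (integral_sub (hf.integrable_mul c2) ((e2.integrable_mul c2).const_mul β)).trans
      (congrArg _ (integral_const_mul _ _))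
  refine ⟨2, one_le_two, _, ho, ((ContinuousLinearEquiv.finTwoArrow ℂ ℂ).toHomeomorph.isConnected_preimage).2
    H28Wie.Om_conn, 3 / 2, 3, by norm_num, by norm_num, fun p hp => ⟨fun ⟨C, hC⟩ => ?_, fun ⟨p1, p2⟩ => ?_⟩⟩
  · by_contra hn
    have p0 : 0 < p := by linarith
    have hB : MeasurableSet (H28Wie.pre (H28Wie.P1 0)) :=
      ((Metric.isOpen_ball.prod Metric.isOpen_ball).preimage hc).measurableSet
    have hr : (volume.restrict (H28Wie.pre H28Wie.Om)).restrict (H28Wie.pre (H28Wie.P1 0))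
        = volume.restrict (H28Wie.pre (H28Wie.P1 0)) :=
      Measure.restrict_restrict_of_subset (Set.preimage_mono (H28Wie.s1 0))
    have m0 : ∀ q : ℝ, 0 < q → MemLp (fun x : Fin 2 → ℂ => x 0) (ENNReal.ofReal q)
        (volume.restrict (H28Wie.pre (H28Wie.P1 0))) := fun q hq =>
      (H28Wie.mem_e _ hq).2 ((H28Wie.up measurableSet_ball measurableSet_ball hq.le
        fun z hz => (mem_ball_zero_iff.1 hz).le).trans_lt (ENNReal.mul_lt_top ENNReal.ofReal_lt_top
          (ENNReal.mul_lt_top measure_ball_lt_top measure_ball_lt_top)))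
    have m1 : ∀ q : ℝ, 0 < q → MemLp ((H28Wie.pre (H28Wie.P1 0)).indicator fun x : Fin 2 → ℂ => x 0)
        (ENNReal.ofReal q) (volume.restrict (H28Wie.pre H28Wie.Om)) := fun q hq => by
      rw [memLp_indicator_iff_restrict hB, hr]; exact m0 q hq
    have m2 := m1 2 two_pos
    have m3 := m0 2 two_pos
    rw [two] at m2 m3
    have a1 : ∫ x in H28Wie.pre H28Wie.Om, (H28Wie.pre (H28Wie.P1 0)).indicator
        (fun x : Fin 2 → ℂ => x 0) x * starRingEnd ℂ (x 0) ≠ 0 := by
      rw [funext fun x => (Set.indicator_mul_left (H28Wie.pre (H28Wie.P1 0))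
        (fun x : Fin 2 → ℂ => x 0) (fun x => starRingEnd ℂ (x 0)) (i := x)).symm,
        integral_indicator hB, hr]
      exact H28Wie.nz subset_rfl m3
    obtain ⟨γ, a2, hγ⟩ : ∃ γ : ℂ, γ ≠ 0 ∧ γ * _ = _ := ⟨_, div_ne_zero a1 hN, div_mul_cancel₀ _ hN⟩
    have a3 := hC _ (fun x => γ * x 0) m2 (m1 p p0) (by fun_prop) (e2.const_mul _) fun h h1 h2 => by
      obtain ⟨β, hβ⟩ := H28Wie.onedim' h1 h2
      have := hi _ γ m2
      rw [hγ, sub_self] at this
      rw [← mul_zero (starRingEnd ℂ β), ← this, ← integral_const_mul]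
      refine setIntegral_congr_fun ho.measurableSet fun x hx => ?_
      simp only [hβ x hx, map_mul]
      ring
    have a4 : MemLp _ _ _ := ⟨(e2.const_mul _).1, a3.trans_lt
      (ENNReal.mul_lt_top ENNReal.ofReal_lt_top (m1 p p0).2)⟩
    have a5 := a4.const_mul γ⁻¹
    simp only [inv_mul_cancel_left₀ a2] at a5
    rw [H28Wie.mem_e _ p0, H28Wie.inf_int p0.le (by
      rw [not_and_or, not_le, not_le] at hn; exact hn)] at a5
    exact lt_irrefl _ a5
  · have hq := Real.HolderConjugate.conjExponent hp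
    have q1 : 3 / 2 ≤ p.conjExponent := by
      rw [Real.conjExponent, le_div_iff₀ (by linarith)]; linarith
    have q2 : p.conjExponent ≤ 3 := by
      rw [Real.conjExponent, div_le_iff₀ (by linarith)]; linarith
    have k1 := (H28Wie.mem_e H28Wie.Om (by linarith)).2 (H28Wie.fin_int p1 p2)
    have k2 : MemLp (fun x : Fin 2 → ℂ => starRingEnd ℂ (x 0)) _ _ :=
      ((H28Wie.mem_e H28Wie.Om (by linarith)).2 (H28Wie.fin_int q1 q2)).star
    have n1 := enorm_ne_zero.2 hN
    have hC := ENNReal.mul_ne_top k1.2.ne (ENNReal.div_ne_top k2.2.ne n1)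
    obtain ⟨C, hC⟩ : ∃ C : ℝ, ENNReal.ofReal C = _ := ⟨_, ENNReal.ofReal_toReal hC⟩
    refine ⟨C, fun f g f2 fp g1 g2 hg => ?_⟩
    rw [hC]
    obtain ⟨β, hβ⟩ := H28Wie.onedim' g1 g2
    have a1 := hg (fun x => x 0) (by fun_prop) e2
    rw [setIntegral_congr_fun ho.measurableSet (g := fun x => (f x - β * x 0) * starRingEnd ℂ (x 0))
      (fun x hx => by simp only [hβ x hx]), hi f β f2, sub_eq_zero] at a1
    haveI := hq.ennrealOfReal
    have a2 := (enorm_integral_le_lintegral_enorm _).trans ((eLpNorm_one_eq_lintegral_enorm.ge).trans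
      (eLpNorm_smul_le_mul_eLpNorm (p := ENNReal.ofReal p) (q := ENNReal.ofReal p.conjExponent)
        k2.1 fp.1))
    simp only [Pi.smul_apply', smul_eq_mul] at a2
    rw [a1, enorm_mul, ← ENNReal.le_div_iff_mul_le (Or.inl n1) (Or.inl enorm_ne_top),
      mul_div_assoc] at a2
    rw [eLpNorm_congr_ae (g := β • fun x : Fin 2 → ℂ => x 0)
      ((ae_restrict_iff' ho.measurableSet).2 (ae_of_all _ hβ)), eLpNorm_const_smul, mul_comm,
      mul_assoc, mul_comm (_ / _)]
    exact mul_le_mul_right a2 _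

end Pool.Agent.S04961
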