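import Pool.Statements.S04970
import Pool.Agent.Lib.helper28.CutC

set_option autoImplicit false
open Pool Pool.MP_6d7699_an

namespace Pool.Agent.S04970

open Finset Pool.Agent.H28Cut

lemma four {w : ℕ → ℝ} {KK : ℕ → ℕ} {NN : ℕ → ℕ → ℤ} (w0 : ∀ i, 0 ≤ w i) (w1 : HasSum w 1)
    (hK : ∀ i, 0 < KK i) (h0 : 0 < w 0) (h1 : ∀ k, NN 0 k = 1) {t : ℝ} (t0 : 0 < |t|)
    (t1 : |t| ≤ Real.pi) : ∃ r : ℝ, 0 ≤ r ∧ r < 1 ∧
    ∑' k : ℤ, (mu w KK NN k : ℂ) * Complex.exp (((t * (k : ℝ) : ℝ) : ℂ) * Complex.I) = r := by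
  have h := mu_test (NN := NN) w0 w1 hK
    (fun k : ℤ => Complex.exp (((t * (k : ℝ) : ℝ) : ℂ) * Complex.I)) 1
    fun m => (Complex.norm_exp_ofReal_mul_I _).le
  let G : ℕ → ℝ := fun i => ∑ k : Fin (KK i), (KK i : ℝ)⁻¹ * ((1 + Real.cos (t * NN i k)) / 2)
  have G0 : ∀ i, 0 ≤ G i := fun i => sum_nonneg fun k _ =>
    mul_nonneg (by positivity) (by linarith [Real.neg_one_le_cos (t * NN i k)])
  have e : ∀ i (u : ℝ), ∑ _k : Fin (KK i), (KK i : ℝ)⁻¹ * u = u := fun i u => by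
    have : (KK i : ℝ) ≠ 0 := by exact_mod_cast (hK i).ne'
    simp; field_simp
  have G1 : ∀ i, G i ≤ 1 := fun i => (sum_le_sum fun k _ => mul_le_mul_of_nonneg_left
    (by linarith [Real.cos_le_one (t * NN i k)]) (by positivity)).trans (e i 1).le
  have hs : Summable fun i => w i * G i := w1.summable.of_nonneg_of_le
    (fun i => mul_nonneg (w0 i) (G0 i)) fun i => mul_le_of_le_one_right (w0 i) (G1 i)
  refine ⟨∑' i, w i * G i, tsum_nonneg fun i => mul_nonneg (w0 i) (G0 i), ?_, ?_⟩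
  · refine lt_of_lt_of_eq ?_ w1.tsum_eq
    refine hs.tsum_lt_tsum (i := 0) (fun i => mul_le_of_le_one_right (w0 i) (G1 i)) ?_ w1.summable
    have a := abs_le.mp t1
    have h2 : Real.cos t ≠ 1 := by
      rw [Ne, Real.cos_eq_one_iff_of_lt_of_lt (by linarith [Real.pi_pos])
        (by linarith [Real.pi_pos])]
      exact abs_pos.mp t0
    have h3 : Real.cos t < 1 := lt_of_le_of_ne (Real.cos_le_one t) h2
    refine mul_lt_of_lt_one_right h0 ?_
    simp only [G, h1, e, Int.cast_one, mul_one]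
    linarith
  · simp only [Complex.real_smul] at h
    rw [h.tsum_eq, Complex.ofReal_tsum]
    congr 1
    funext i
    simp only [G]
    push_cast
    congr 1
    refine sum_congr rfl fun k _ => ?_
    rw [Complex.cos]
    simp only [mul_zero, zero_mul, Complex.exp_zero, mul_neg, neg_mul]
    ring

lemma build : ∃ (w : ℕ → ℝ) (KK : ℕ → ℕ) (NN : ℕ → ℕ → ℤ), (∀ i, 0 ≤ w i) ∧ HasSum w 1 ∧
    (∀ i, 0 < KK i) ∧ 0 < w 0 ∧ (∀ k, NN 0 k = 1) ∧ ∀ b : ℕ,
      ∃ (f : ℤ → ℝ) (B : ℝ) (S : Finset ℤ), (∀ x, |f x| ≤ B) ∧ Summable (fun x => |f x|) ∧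
        ∑' x, |f x| ≤ 8 * S.card ∧ 0 < S.card ∧ ∀ x ∈ S, ∃ p r : ℕ, (b : ℝ) ^ 2 <
          ∑ n ∈ Ico p r, ((n : ℝ) + 1) * ((T (mu w KK NN))^[n + 1] f x -
            (T (mu w KK NN))^[n + 2] f x) ^ 2 := by
  choose K L ε K0 ε0 H using step
  let s : ℕ → ℕ × ℕ := fun j => Nat.rec (1, 1) (fun j p => (2 * p.1 + ⌈1 / ε j p.1 p.2⌉₊,
    p.2 + (L j p.1 p.2 + 1) ^ K j p.1 p.2)) j
  have s0 : s 0 = (1, 1) := rfl
  have s1 : ∀ j, (s (j + 1)).1 = 2 * (s j).1 + ⌈1 / ε j (s j).1 (s j).2⌉₊ := fun j => rfl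
  have s2 : ∀ j, (s (j + 1)).2 = (s j).2 + (L j (s j).1 (s j).2 + 1) ^ K j (s j).1 (s j).2 :=
    fun j => rfl
  clear_value s
  have Qg : ∀ j i, 2 ^ i * (s j).1 ≤ (s (j + i)).1 := fun j i => by
    induction i with
    | zero => simp
    | succ i ih => rw [← add_assoc, s1, pow_succ, mul_right_comm]; omega
  have Q1 : ∀ j, 1 ≤ (s j).1 := fun j => by
    have := Qg 0 j
    rw [s0, zero_add, mul_one] at this
    exact le_trans Nat.one_le_two_pow this
  have Rm : Monotone fun j => (s j).2 := monotone_nat_of_le_succ fun j => by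
    simp only [s2]; omega
  have R1 : ∀ j, 1 ≤ (s j).2 := fun j => by simpa [s0] using Rm (Nat.zero_le j)
  let v : ℕ → ℝ := fun j => 1 / (4 * (s j).1)
  have v0 : ∀ j, 0 ≤ v j := fun j => by positivity
  have vg : ∀ j i, v (i + j) ≤ v j * (1 / 2) ^ i := fun j i => by
    have a : (2 : ℝ) ^ i * (s j).1 ≤ (s (j + i)).1 := by exact_mod_cast Qg j i
    have b : (1 : ℝ) ≤ (s j).1 := by exact_mod_cast Q1 j
    simp only [v]
    rw [add_comm i, one_div_pow, div_mul_div_comm, one_mul]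
    exact one_div_le_one_div_of_le (by positivity) (by linarith)
  have vs : ∀ j, Summable (fun i => v (i + j)) ∧ ∑' i, v (i + j) ≤ 2 * v j := fun j => by
    have g := hasSum_geometric_two.mul_left (v j)
    have a := g.summable.of_nonneg_of_le (fun i => v0 _) (vg j)
    exact ⟨a, by linarith [a.tsum_le_tsum (vg j) g.summable, g.tsum_eq]⟩
  have a0 := vs 0
  simp only [add_zero] at a0
  have a1 : v 0 = 1 / 4 := by simp [v, s0]
  let w : ℕ → ℝ := fun i => Nat.casesOn i (1 - ∑' i, v i) v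
  let KK : ℕ → ℕ := fun i => Nat.casesOn i 1 fun j => K j (s j).1 (s j).2
  let NN : ℕ → ℕ → ℤ := fun i => Nat.casesOn i (fun _ => 1)
    fun j k => (L j (s j).1 (s j).2 : ℤ) ^ (k + 1)
  have w00 : 0 < w 0 := by show 0 < 1 - ∑' i, v i; linarith [a0.2]
  have w0 : ∀ i, 0 ≤ w i := fun i => by
    cases i
    · exact w00.le
    · exact v0 _
  have w1 : HasSum w 1 := by
    rw [← hasSum_nat_add_iff' 1, sum_range_one]
    show HasSum v (1 - (1 - ∑' i, v i))
    simpa using a0.1.hasSum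
  have hK : ∀ i, 0 < KK i := fun i => by
    cases i
    · exact one_pos
    · exact K0 _ _ _
  refine ⟨w, KK, NN, w0, w1, hK, w00, fun _ => rfl, fun b => H b (s b).1 (s b).2 (Q1 b) (R1 b)
    w KK NN (b + 1) w0 w1 hK rfl rfl (fun _ => rfl) (fun i hi k hk => ?_) ?_⟩
  · rcases i with _ | i
    · show |(1 : ℤ)| ≤ _
      exact_mod_cast R1 b
    · show |(L i (s i).1 (s i).2 : ℤ) ^ (k + 1)| ≤ _
      have a : (s (i + 1)).2 ≤ (s b).2 := Rm (by omega)
      have c : L i (s i).1 (s i).2 ^ (k + 1) ≤ (L i (s i).1 (s i).2 + 1) ^ K i (s i).1 (s i).2 :=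
        (Nat.pow_le_pow_left (Nat.le_succ _) _).trans (Nat.pow_le_pow_right (by omega) hk)
      rw [s2] at a
      rw [abs_of_nonneg (by positivity)]
      exact_mod_cast (by omega)
  · have st : Summable fun i => if b + 1 < i then w i else 0 :=
      w1.summable.of_nonneg_of_le (fun i => by split_ifs <;> simp [w0])
        fun i => by split_ifs <;> simp [w0]
    rw [← st.sum_add_tsum_nat_add (b + 2), sum_eq_zero fun i hi =>
      if_neg (by have := mem_range.mp hi; omega), zero_add]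
    have e : ∀ i, (if b + 1 < i + (b + 2) then w (i + (b + 2)) else 0) = v (i + (b + 1)) :=
      fun i => if_pos (by omega)
    simp only [e]
    refine (vs (b + 1)).2.trans ?_
    have p := ε0 b (s b).1 (s b).2
    have c := Nat.le_ceil (1 / ε b (s b).1 (s b).2)
    have d : (1 : ℝ) ≤ (s b).1 := by exact_mod_cast Q1 b
    simp only [v, s1]
    push_cast
    rw [mul_one_div, div_le_iff₀ (by positivity)]
    rw [div_le_iff₀ p] at c
    nlinarith

/-- The negation of the preceding statement: For every probability measure μ on the integers with bounded angular ratio, the square function (sum over n≥1 of n·((μ^n−μ^(n+1))∗f)²)^(1/2) is weak type (1,1): the number of k with value > λ is at most A·‖f‖₁/λ. -/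
theorem result :
    ¬ (∀ μ : ℤ → ℝ, (∀ k, 0 ≤ μ k) → HasSum μ 1 →
      (∀ t : ℝ, 0 < |t| → |t| ≤ Real.pi →
        ‖∑' k : ℤ, (μ k : ℂ) * Complex.exp (((t * (k : ℝ) : ℝ) : ℂ) * Complex.I)‖ < 1) →
      (∃ C : ℝ, ∀ t : ℝ, 0 < |t| → |t| ≤ Real.pi →
        ‖1 - ∑' k : ℤ, (μ k : ℂ) * Complex.exp (((t * (k : ℝ) : ℝ) : ℂ) * Complex.I)‖
          ≤ C * (1 - ‖∑' k : ℤ, (μ k : ℂ) * Complex.exp (((t * (k : ℝ) : ℝ) : ℂ) * Complex.I)‖)) →
      ∃ A : ℝ, 0 < A ∧ ∀ f : ℤ → ℝ, Summable (fun k => |f k|) → ∀ lam : ℝ, 0 < lam →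
        MeasureTheory.Measure.count
          {k : ℤ | ENNReal.ofReal (lam ^ 2) <
            ∑' n : ℕ, ENNReal.ofReal (((n : ℝ) + 1) *
              (∑' j : ℤ,
                (Nat.iterate (fun g : ℤ → ℝ => fun m => ∑' i : ℤ, μ i * g (m - i)) (n + 1)
                    (fun m => if m = 0 then (1 : ℝ) else 0) j
                  - Nat.iterate (fun g : ℤ → ℝ => fun m => ∑' i : ℤ, μ i * g (m - i)) (n + 2)
                    (fun m => if m = 0 then (1 : ℝ) else 0) j) * f (k - j)) ^ 2)}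
          ≤ ENNReal.ofReal (A * (∑' k : ℤ, |f k|) / lam)) := by
  intro h
  obtain ⟨w, KK, NN, w0, w1, hK, h0, h1, H⟩ := build
  have m0 := mu_nonneg (KK := KK) (NN := NN) w0
  have m1 := mu_sum (NN := NN) w0 w1 hK
  obtain ⟨A, A0, hA⟩ := h (mu w KK NN) m0 m1 (fun t t0 t1 => by
    obtain ⟨r, r0, r1, e⟩ := four w0 w1 hK h0 h1 t0 t1
    rwa [e, Complex.norm_real, Real.norm_of_nonneg r0]) ⟨1, fun t t0 t1 => by
    obtain ⟨r, r0, r1, e⟩ := four w0 w1 hK h0 h1 t0 t1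
    rw [e, ← Complex.ofReal_one, ← Complex.ofReal_sub, Complex.norm_real, Complex.norm_real,
      Real.norm_of_nonneg r0, Real.norm_of_nonneg (by linarith), one_mul]⟩
  obtain ⟨b, hb⟩ := exists_nat_gt (8 * A)
  have b0 : (0 : ℝ) < b := by linarith
  obtain ⟨f, B, S, fb, fs, fl, S0, hS⟩ := H b
  have S1 : (0 : ℝ) < S.card := by exact_mod_cast S0
  refine absurd (le_trans ?_ (hA f fs b b0)) (not_le.mpr (?_ : _ < (S.card : ENNReal)))
  · rw [← MeasureTheory.Measure.count_apply_finset]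
    refine MeasureTheory.measure_mono fun x hx => ?_
    obtain ⟨p, r, hx⟩ := hS x hx
    refine lt_of_lt_of_le ?_ (ENNReal.sum_le_tsum (Ico p r))
    rw [← ENNReal.ofReal_sum_of_nonneg fun _ _ => by positivity,
      ENNReal.ofReal_lt_ofReal_iff_of_nonneg (by positivity)]
    refine hx.trans_le (le_of_eq (sum_congr rfl fun n _ => ?_))
    have := (((pow_test m0 m1 (n + 1)).2 f B fb x).sub ((pow_test m0 m1 (n + 2)).2 f B fb x)).tsum_eq
    simp only [← sub_mul] at this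
    rw [← this]
    rfl
  · rw [← ENNReal.ofReal_natCast, ENNReal.ofReal_lt_ofReal_iff S1, div_lt_iff₀ b0]
    nlinarith [mul_le_mul_of_nonneg_left fl A0.le]

end Pool.Agent.S04970
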