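import Pool.Statements.S04981

set_option autoImplicit false
open Filter Topology
open Pool Pool.MP_6df72f_an

namespace Pool.Agent.S04981

section
open Submodule Finset
variable {𝕂 : Type} [RCLike 𝕂] {X : Type} [NormedAddCommGroup X] [NormedSpace 𝕂 X]

theorem mazur (Y F : Submodule 𝕂 X) (hY : ¬ FiniteDimensional 𝕂 Y) [FiniteDimensional 𝕂 F]
    (q : ℝ) (hq : 1 < q) : ∃ y ∈ Y, y ≠ 0 ∧ ∀ x ∈ F, ∀ c : 𝕂, ‖x‖ ≤ q * ‖x + c • y‖ := by
  choose ψ n e using exists_dual_vector'' 𝕂 (E := X)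
  have := FiniteDimensional.proper_rclike 𝕂 F
  obtain ⟨t, -, ht⟩ := (isCompact_sphere (0 : F) 1).elim_nhds_subcover
    (fun x => {z : F | 1 < q * ‖ψ x z‖}) fun x hx =>
      (isOpen_lt continuous_const (by fun_prop)).mem_nhds (by
        simp only [Set.mem_ofPred_eq, e]; simp_all)
  let Φ : Y →ₗ[𝕂] (t → 𝕂) := LinearMap.pi fun x => (ψ x : X →ₗ[𝕂] 𝕂) ∘ₗ Y.subtype
  obtain ⟨y, h1, h2⟩ := (Submodule.ne_bot_iff (LinearMap.ker Φ)).mp fun h =>
    hY (FiniteDimensional.of_injective Φ (LinearMap.ker_eq_bot.mp h))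
  refine ⟨y, y.2, by simpa using h2, fun x hx c => ?_⟩
  by_cases z : x = 0
  · rw [z, norm_zero]; positivity
  obtain ⟨w, hw, h⟩ := Set.mem_iUnion₂.mp (ht (a := (‖x‖⁻¹ : 𝕂) • ⟨x, hx⟩)
    (mem_sphere_zero_iff_norm.mpr (norm_smul_inv_norm z)))
  have a : ψ w y = 0 := congrFun h1 ⟨w, hw⟩
  have b := (ψ w).le_of_opNorm_le (n w) (x + c • y)
  have p := norm_pos_iff.mpr z
  simp [a] at h b
  rw [mul_left_comm, lt_inv_mul_iff₀ p] at h
  nlinarith

theorem step (Y : Submodule 𝕂 X) (hY : ¬ FiniteDimensional 𝕂 Y) (s : Finset X) (g : X) (r : ℝ)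
    (hr : 1 < r) : ∃ y ∈ Y, ∀ x ∈ span 𝕂 (s : Set X), ∀ c : 𝕂, ‖x‖ ≤ r * ‖x + c • (g + y)‖ := by
  have := FiniteDimensional.span_of_finite 𝕂 (s.finite_toSet.insert g)
  obtain ⟨y, hy, z, h⟩ := mazur Y (span 𝕂 (insert g (s : Set X))) hY ((1 + r) / 2) (by linarith)
  have p := norm_pos_iff.mpr z
  obtain ⟨k, hk⟩ := NormedField.exists_lt_norm 𝕂 ((3 + r) * ‖g‖ / ((r - 1) * ‖y‖))
  rw [div_lt_iff₀ (mul_pos (by linarith) p)] at hk
  refine ⟨k • y, Y.smul_mem _ hy, fun x hx c => ?_⟩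
  have a := h (x + c • g) (add_mem (span_mono (Set.subset_insert _ _) hx)
    (smul_mem _ _ (subset_span (Set.mem_insert _ _)))) (c * k)
  rw [show x + c • g + (c * k) • y = x + c • (g + k • y) by module] at a
  have b := norm_sub_le (x + c • (g + k • y)) (x + c • g)
  rw [show x + c • (g + k • y) - (x + c • g) = c • k • y by module, norm_smul, norm_smul] at b
  have d := norm_sub_le (x + c • g) (c • g)
  rw [add_sub_cancel_right, norm_smul] at d
  have e : (3 + r) * (‖c‖ * ‖g‖) ≤ (3 + r) * ((r - 1) / 2 * ‖x + c • (g + k • y)‖) := by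
    have := mul_le_mul_of_nonneg_left hk.le (norm_nonneg c)
    have := mul_le_mul_of_nonneg_left (b.trans (add_le_add le_rfl a)) (show 0 ≤ r - 1 by linarith)
    nlinarith
  have := le_of_mul_le_mul_left e (by linarith)
  linarith

theorem grun [CompleteSpace X] (f : ℕ → X) (h : ∀ (a : ℕ → 𝕂) n m, n ≤ m →
    ‖∑ i ∈ range n, a i • f i‖ ≤ 2 * ‖∑ i ∈ range m, a i • f i‖) :
    IsClosed {y | ∃ a : ℕ → 𝕂, Tendsto (fun N => ∑ i ∈ range N, a i • f i) atTop (𝓝 y)} := by
  refine IsSeqClosed.isClosed fun u y hu hy => ?_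
  choose a ha using hu
  have b : ∀ k l n, ‖∑ i ∈ range n, a k i • f i - ∑ i ∈ range n, a l i • f i‖ ≤
      2 * ‖u k - u l‖ := fun k l n =>
    ge_of_tendsto (((ha k).sub (ha l)).norm.const_mul 2) ((eventually_ge_atTop n).mono fun m c => by
      simpa [sub_smul] using h (a k - a l) n m c)
  have c : ∀ n, ∃ z, Tendsto (fun k => ∑ i ∈ range n, a k i • f i) atTop (𝓝 z) := fun n =>
    cauchySeq_tendsto_of_complete (Metric.cauchySeq_iff.mpr fun ε e => by
      obtain ⟨N, c⟩ := Metric.cauchySeq_iff.mp hy.cauchySeq (ε / 2) (by positivity)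
      refine ⟨N, fun k hk l hl => ?_⟩
      have := c k hk l hl
      rw [dist_eq_norm] at this ⊢
      linarith [b k l n])
  choose z hz using c
  have d : ∀ n, ∃ c : 𝕂, c • f n = z (n + 1) - z n := fun n => mem_span_singleton.mp
    ((closed_of_finiteDimensional _).mem_of_tendsto ((hz (n + 1)).sub (hz n))
      (.of_forall fun k => mem_span_singleton.mpr ⟨a k n, by simp [sum_range_succ]⟩))
  choose c hc using d
  refine ⟨c, Metric.tendsto_atTop.mpr fun ε e => ?_⟩
  obtain ⟨k, hk⟩ := Metric.tendsto_atTop.mp hy (ε / 4) (by positivity)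
  obtain ⟨N, hN⟩ := Metric.tendsto_atTop.mp (ha k) (ε / 4) (by positivity)
  refine ⟨N, fun n hn => ?_⟩
  have z0 : z 0 = 0 := tendsto_nhds_unique (hz 0) (by simp)
  have := le_of_tendsto_of_tendsto' ((hz n).sub_const _).norm
    ((hy.sub_const (u k)).norm.const_mul 2) fun l => b l k n
  simp only [hc, sum_range_sub, z0, sub_zero, ← dist_eq_norm] at this ⊢
  linarith [hk k le_rfl, hN n hn, dist_comm y (u k),
    dist_triangle4 (z n) (∑ i ∈ range n, a k i • f i) (u k) y]

theorem lift [CompleteSpace X] {W : Type} [NormedAddCommGroup W] [NormedSpace 𝕂 W]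
    [CompleteSpace W] (R : X →L[𝕂] W) (hR : Function.Surjective R) (φ : ℕ → W)
    (h : ∀ y ∈ (span 𝕂 (Set.range φ)).topologicalClosure, ∃! a : ℕ → 𝕂,
      Tendsto (fun N => ∑ i ∈ range N, a i • φ i) atTop (𝓝 y)) :
    ∃ f : ℕ → X, (∀ n, R (f n) = φ n) ∧ ∀ y ∈ (span 𝕂 (Set.range f)).topologicalClosure,
      ∃! a : ℕ → 𝕂, Tendsto (fun N => ∑ i ∈ range N, a i • f i) atTop (𝓝 y) := by
  have m : ∀ f : ℕ → X, (∀ n, R (f n) = φ n) → ∀ y ∈ (span 𝕂 (Set.range f)).topologicalClosure,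
      R y ∈ (span 𝕂 (Set.range φ)).topologicalClosure := fun f e y hy =>
    topologicalClosure_minimal (span 𝕂 (Set.range f)) (t := comap (R : X →ₗ[𝕂] W)
      (span 𝕂 (Set.range φ)).topologicalClosure) (span_le.mpr (by
      rintro _ ⟨n, rfl⟩
      exact le_topologicalClosure _ (subset_span ⟨n, (e n).symm⟩)))
      ((isClosed_topologicalClosure _).preimage R.continuous) hy
  suffices ∃ f : ℕ → X, (∀ n, R (f n) = φ n) ∧ ∀ y ∈ (span 𝕂 (Set.range f)).topologicalClosure,
      ∃ a : ℕ → 𝕂, Tendsto (fun N => ∑ i ∈ range N, a i • f i) atTop (𝓝 y) by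
    obtain ⟨f, e, c⟩ := this
    refine ⟨f, e, fun y hy => existsUnique_of_exists_of_unique (c y hy) fun a b ha hb =>
      (h _ (m f e y hy)).unique ?_ ?_⟩
    · simpa [Function.comp_def, e] using (R.continuous.tendsto y).comp ha
    · simpa [Function.comp_def, e] using (R.continuous.tendsto y).comp hb
  choose g hg using fun n => hR (φ n)
  by_cases d : FiniteDimensional 𝕂 R.ker
  · obtain ⟨p, hp⟩ := ClosedComplemented.of_finiteDimensional R.ker
    obtain ⟨C, c, hC⟩ := R.exists_preimage_norm_le hR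
    have e : ∀ n, R (g n - p (g n)) = φ n := fun n => by
      rw [map_sub, hg, show R (p (g n)) = 0 from (p (g n)).2, sub_zero]
    refine ⟨_, e, fun y hy => ?_⟩
    obtain ⟨a, ha, -⟩ := h _ (m _ e y hy)
    have k : ∀ z, p z = 0 → ‖z‖ ≤ (1 + ‖p‖) * C * ‖R z‖ := fun z hz => by
      obtain ⟨x, h1, h2⟩ := hC (R z)
      have := congrArg Subtype.val (hp ⟨x - z, by simp [h1]⟩)
      simp only [map_sub, hz, sub_zero] at this
      have b : ‖(p x : X)‖ ≤ ‖p‖ * ‖x‖ := p.le_opNorm x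
      have := norm_sub_le x (p x)
      rw [show x - p x = z by simp [*]] at this
      nlinarith [norm_nonneg p]
    have : p y = 0 := topologicalClosure_minimal _ (t := p.ker) (span_le.mpr (by
      rintro _ ⟨n, rfl⟩
      simp [hp])) p.isClosed_ker hy
    refine ⟨a, tendsto_iff_norm_sub_tendsto_zero.mpr (squeeze_zero (fun _ => norm_nonneg _)
      (fun N => k _ (by simp [hp, this])) ?_)⟩
    simpa [e, -map_sub, map_sub R (∑ _ ∈ _, _)] using
      (tendsto_iff_norm_sub_tendsto_zero.mp ha).const_mul ((1 + ‖p‖) * C)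
  classical
  let w : ℕ → ℝ := fun n => 2 - 1 / (n + 1)
  have w1 : ∀ n, 1 ≤ w n := fun n => by
    have : 1 / (n + 1 : ℝ) ≤ 1 := (div_le_one (by positivity)).mpr (by simp)
    simp only [w]; linarith
  have w2 : ∀ n, w n ≤ 2 := fun n => sub_le_self _ (by positivity)
  choose y hy k using fun n s => step R.ker d s (g n) (w (n + 1) / w n)
    ((one_lt_div (by linarith [w1 n])).mpr (sub_lt_sub_left
      (one_div_lt_one_div_of_lt (by positivity) (by simp)) _))
  obtain ⟨T, hT⟩ : ∃ T : ℕ → Finset X, ∀ n, T (n + 1) = insert (g n + y n (T n)) (T n) :=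
    ⟨Nat.rec ∅ fun n s => insert (g n + y n s) s, fun _ => rfl⟩
  obtain ⟨f, hf⟩ : ∃ f : ℕ → X, ∀ n, f n = g n + y n (T n) := ⟨_, fun _ => rfl⟩
  simp only [← hf] at hT
  have t : ∀ (a : ℕ → 𝕂) n, ∑ i ∈ range n, a i • f i ∈ span 𝕂 (T n : Set X) := fun a n => by
    induction n with
    | zero => simp
    | succ n ih =>
      rw [sum_range_succ, hT]
      exact add_mem (span_mono (coe_subset.mpr (subset_insert _ _)) ih)
        (smul_mem _ _ (subset_span (mem_coe.mpr (mem_insert_self _ _))))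
  refine ⟨f, fun n => by rw [hf, map_add, hg, show R _ = 0 from hy n _, add_zero], fun x hx =>
    closure_minimal (fun x hx => ?_) (grun f fun a n m c => ?_) hx⟩
  · obtain ⟨a, rfl⟩ := Finsupp.mem_span_range_iff_exists_finsupp.mp hx
    exact ⟨a, (hasSum_sum_of_ne_finset_zero (s := a.support) fun i c => by
      simp [Finsupp.notMem_support_iff.mp c]).tendsto_sum_nat⟩
  · have : w n * ‖∑ i ∈ range n, a i • f i‖ ≤ w m * ‖∑ i ∈ range m, a i • f i‖ :=
      monotone_nat_of_le_succ (f := fun n => w n * ‖∑ i ∈ range n, a i • f i‖) (fun n => by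
        have := k n _ _ (t a n) (a n)
        rwa [div_mul_eq_mul_div, le_div_iff₀' (by linarith [w1 n]), ← hf, ← sum_range_succ
          fun i => a i • f i] at this) c
    nlinarith [w1 n, w2 m, norm_nonneg (∑ i ∈ range n, a i • f i),
      norm_nonneg (∑ i ∈ range m, a i • f i)]

end

/-- For real or complex scalars, every basic sequence of functionals on a closed subspace G of a Banach space E extends termwise to a sequence of functionals on E that is itself a basic sequence in the dual of E. -/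
theorem result :
    ∀ (𝕂 : Type) [RCLike 𝕂] (E : Type) [NormedAddCommGroup E] [NormedSpace 𝕂 E]
      [CompleteSpace E] (G : Submodule 𝕂 E), IsClosed (G : Set E) →
      ∀ φ : ℕ → (G →L[𝕂] 𝕂),
        ((∀ n, φ n ≠ 0) ∧
          ∀ y ∈ (Submodule.span 𝕂 (Set.range φ)).topologicalClosure,
            ∃! a : ℕ → 𝕂,
              Tendsto (fun N => ∑ i ∈ Finset.range N, a i • φ i) atTop (𝓝 y)) →
        ∃ f : ℕ → (E →L[𝕂] 𝕂),
          (∀ n, (f n).comp G.subtypeL = φ n) ∧
          (∀ n, f n ≠ 0) ∧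
          ∀ y ∈ (Submodule.span 𝕂 (Set.range f)).topologicalClosure,
            ∃! a : ℕ → 𝕂,
              Tendsto (fun N => ∑ i ∈ Finset.range N, a i • f i) atTop (𝓝 y) := by
  intro 𝕂 _ E _ _ _ G _ φ ⟨h0, h⟩
  obtain ⟨f, e, c⟩ := lift ((ContinuousLinearMap.compL 𝕂 G E 𝕂).flip G.subtypeL) (fun ψ => by
    obtain ⟨g, hg, -⟩ := exists_extension_norm_eq G ψ
    exact ⟨g, ContinuousLinearMap.ext hg⟩) φ h
  exact ⟨f, e, fun n z => h0 n (by rw [← e, z, map_zero]), c⟩

end Pool.Agent.S04981
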