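import Pool.Statements.S04985
-- import your own Pool.Agent.* helpers here

set_option autoImplicit false
open Pool Pool.MP_6eb165_an

namespace Pool.Agent.S04985

open Filter Topology Set

def X0 : Submodule ℂ (Fin 3 → ℂ) := LinearMap.ker (∑ i : Fin 3, LinearMap.proj (R := ℂ) (φ := fun _ : Fin 3 => ℂ) i)

lemma mem_X0 (u : Fin 3 → ℂ) : u ∈ X0 ↔ u 0 + u 1 + u 2 = 0 := by
  simp [X0, Fin.sum_univ_three]

def E : Type := X0

noncomputable instance : NormedAddCommGroup E := inferInstanceAs (NormedAddCommGroup X0)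
noncomputable instance : NormedSpace ℂ E := inferInstanceAs (NormedSpace ℂ X0)
instance : FiniteDimensional ℂ E := inferInstanceAs (FiniteDimensional ℂ X0)
instance : ProperSpace E := FiniteDimensional.proper ℂ E
instance : CompleteSpace E := FiniteDimensional.complete ℂ E

lemma cle (u : E) (i : Fin 3) : ‖u.1 i‖ ≤ ‖u‖ := norm_le_pi_norm u.1 i

lemma nle (u : E) (c : ℝ) (hc : 0 ≤ c) (h : ∀ i, ‖u.1 i‖ ≤ c) : ‖u‖ ≤ c :=
  (pi_norm_le_iff_of_nonneg hc).mpr h

noncomputable def prL (i : Fin 3) : E →ₗ[ℂ] ℂ where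
  toFun u := u.1 i
  map_add' _ _ := rfl
  map_smul' _ _ := rfl

noncomputable def pr (i : Fin 3) : E →L[ℂ] ℂ := (prL i).mkContinuous 1 fun u => by
  rw [one_mul]; exact cle u i

lemma pr_apply (i : Fin 3) (u : E) : pr i u = u.1 i := rfl

lemma sum0 (u : E) : pr 0 u + pr 1 u + pr 2 u = 0 := (mem_X0 _).mp u.2

lemma two (u : E) (i j : Fin 3) (hij : i ≠ j) (v : ℝ) (hi : ‖pr i u‖ ≤ v) (hj : ‖pr j u‖ ≤ v) :
    ‖u‖ ≤ 2 * v := by
  have hv : 0 ≤ v := le_trans (norm_nonneg _) hi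
  have s := sum0 u
  refine nle u _ (by positivity) fun l => ?_
  by_cases h1 : l = i
  · subst h1; rw [← pr_apply]; linarith
  by_cases h2 : l = j
  · subst h2; rw [← pr_apply]; linarith
  have e : pr l u = -(pr i u + pr j u) := by
    fin_cases i <;> fin_cases j <;> fin_cases l <;> simp_all <;> linear_combination s
  rw [← pr_apply, e, norm_neg]
  exact le_trans (norm_add_le _ _) (by linarith)

noncomputable def hv (i : Fin 3) : E :=
  ⟨fun j => if j = i then 0 else if j = i + 1 then 1 else -1, by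
    rw [mem_X0]; fin_cases i <;> simp⟩

lemma hv_self (i : Fin 3) : pr i (hv i) = 0 := by simp [pr_apply, hv]

lemma hv_le (i j : Fin 3) : ‖pr j (hv i)‖ ≤ 1 := by
  simp only [pr_apply, hv]
  split_ifs <;> simp

lemma hv_next (i : Fin 3) : ‖pr (i + 1) (hv i)‖ = 1 := by
  fin_cases i <;> simp [pr_apply, hv]

noncomputable def g (u : E) : ℝ := ∑ i, ‖pr i u‖ ^ 2

lemma g_par (u h : E) : g (u + h) + g (u - h) = 2 * g u + 2 * g h := by
  unfold g
  rw [Finset.mul_sum, Finset.mul_sum, ← Finset.sum_add_distrib, ← Finset.sum_add_distrib]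
  refine Finset.sum_congr rfl fun i _ => ?_
  rw [map_add, map_sub]
  have := parallelogram_law_with_norm ℂ (pr i u) (pr i h)
  nlinarith

lemma shilov (P : E → E) (hP : Differentiable ℂ P) : ∃ x : E, ‖x‖ ≤ 1 ∧
    (∀ y, ‖y‖ ≤ 1 → ‖P y‖ ≤ ‖P x‖) ∧ ∃ i j, i ≠ j ∧ ‖pr i x‖ = 1 ∧ ‖pr j x‖ = 1 := by
  have hc : Continuous fun y => ‖P y‖ := hP.continuous.norm
  obtain ⟨x0, hx0, hmax⟩ := (isCompact_closedBall (0 : E) 1).exists_isMaxOn
    ⟨0, by simp⟩ hc.continuousOn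
  have hK : IsCompact (Metric.closedBall (0 : E) 1 ∩ {y | ‖P y‖ = ‖P x0‖}) :=
    (isCompact_closedBall _ _).inter_right (isClosed_eq hc continuous_const)
  have hg : Continuous g := by unfold g; fun_prop
  obtain ⟨x, ⟨hx1, hx2⟩, hx3⟩ := hK.exists_isMaxOn ⟨x0, hx0, rfl⟩ hg.continuousOn
  have hx1' : ‖x‖ ≤ 1 := by simpa using hx1
  have hx2' : ‖P x‖ = ‖P x0‖ := hx2
  have hm : ∀ y, ‖y‖ ≤ 1 → ‖P y‖ ≤ ‖P x‖ := fun y hy => by
    rw [hx2']; exact hmax (by simpa using hy)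
  refine ⟨x, hx1', hm, ?_⟩
  by_contra hcon
  have h1 : ∃ i, ∀ j, j ≠ i → ‖pr j x‖ < 1 := by
    by_cases h : ∃ i, ‖pr i x‖ = 1
    · obtain ⟨i, hi⟩ := h
      exact ⟨i, fun j hj => lt_of_le_of_ne (le_trans (cle x j) hx1') fun e => hcon ⟨j, i, hj, e, hi⟩⟩
    · exact ⟨0, fun j _ => lt_of_le_of_ne (le_trans (cle x j) hx1') fun e => h ⟨j, e⟩⟩
  obtain ⟨i, hi⟩ := h1
  obtain ⟨δ, hδ, hδ2⟩ : ∃ δ > 0, ∀ j, j ≠ i → ‖pr j x‖ + δ ≤ 1 := by
    obtain ⟨j, hj, hj2⟩ := Finset.exists_max_image (Finset.univ.erase i) (fun j => ‖pr j x‖)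
      ⟨i + 1, by fin_cases i <;> simp⟩
    refine ⟨1 - ‖pr j x‖, by have := hi j (Finset.mem_erase.mp hj).1; linarith, fun l hl => ?_⟩
    have := hj2 l (by simp [hl])
    linarith
  have ball : ∀ ζ : ℂ, ‖ζ‖ ≤ δ → ‖x + ζ • hv i‖ ≤ 1 := by
    intro ζ hζ
    refine nle _ _ zero_le_one fun j => ?_
    rw [← pr_apply, map_add, map_smul]
    by_cases hj : j = i
    · subst hj
      rw [hv_self, smul_zero, add_zero]
      exact le_trans (cle x j) hx1'
    · refine le_trans (norm_add_le _ _) ?_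
      rw [norm_smul]
      have := hδ2 j hj
      have := mul_le_mul hζ (hv_le i j) (norm_nonneg _) hδ.le
      linarith
  have hd : Differentiable ℂ fun ζ : ℂ => P (x + ζ • hv i) := hP.comp (by fun_prop)
  have key := Complex.norm_eqOn_closedBall_of_isMaxOn (z := 0) (r := δ) hd.diffContOnCl (by
    intro ζ hζ
    have : ‖ζ‖ ≤ δ := le_of_lt (by simpa using hζ)
    simpa using hm _ (ball ζ this))
  have k1 : ∀ ζ : ℂ, ‖ζ‖ ≤ δ → g (x + ζ • hv i) ≤ g x := by
    intro ζ hζ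
    apply hx3
    refine ⟨by simpa using ball ζ hζ, ?_⟩
    have := key (show ζ ∈ Metric.closedBall (0 : ℂ) δ by simpa using hζ)
    simp only [Function.comp, Function.const, zero_smul, add_zero] at this
    exact this.trans hx2'
  have a1 := k1 δ (by simp [abs_of_pos hδ])
  have a2 := k1 (-δ) (by simp [abs_of_pos hδ])
  rw [neg_smul, ← sub_eq_add_neg] at a2
  have a3 := g_par x ((δ : ℂ) • hv i)
  have a4 : ‖pr (i + 1) ((δ : ℂ) • hv i)‖ ^ 2 ≤ g ((δ : ℂ) • hv i) :=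
    Finset.single_le_sum (f := fun j => ‖pr j ((δ : ℂ) • hv i)‖ ^ 2) (fun j _ => sq_nonneg _)
      (Finset.mem_univ _)
  rw [map_smul, norm_smul, hv_next, Complex.norm_real, Real.norm_eq_abs, abs_of_pos hδ] at a4
  nlinarith [mul_pos hδ hδ]

lemma norming (x : E) (hx : ‖x‖ ≤ 1) (i : Fin 3) (hi : ‖pr i x‖ = 1) :
    ‖x‖ = 1 ∧ ‖(starRingEnd ℂ (pr i x)) • pr i‖ = 1 ∧ ((starRingEnd ℂ (pr i x)) • pr i) x = 1 := by
  have h1 : ‖x‖ = 1 := le_antisymm hx (by rw [← hi]; exact cle x i)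
  have h3 : ((starRingEnd ℂ (pr i x)) • pr i) x = 1 := by
    rw [smul_apply, smul_eq_mul, Complex.conj_mul', hi]; simp
  refine ⟨h1, le_antisymm (ContinuousLinearMap.opNorm_le_bound _ zero_le_one fun y => ?_) ?_, h3⟩
  · rw [smul_apply, norm_smul, Complex.norm_conj, hi]
    exact mul_le_mul_of_nonneg_left (cle y i) zero_le_one
  · have := ((starRingEnd ℂ (pr i x)) • pr i).le_opNorm x
    rw [h3, h1] at this
    simpa using this

noncomputable def y0 : E := ⟨![1 / 2, 1 / 2, -1], by rw [mem_X0]; simp; norm_num⟩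
noncomputable def y1 : E := ⟨![1, -1, 0], by rw [mem_X0]; simp⟩
noncomputable def ph : E →L[ℂ] ℂ := (1 / 2 : ℂ) • (pr 0 - pr 1)

lemma ph_apply (x : E) : ph x = (1 / 2 : ℂ) * (pr 0 x - pr 1 x) := rfl

lemma y0_norm : ‖y0‖ = 1 := by
  apply le_antisymm
  · refine nle _ _ zero_le_one fun i => ?_
    fin_cases i <;> simp [y0] <;> norm_num
  · have := cle y0 2
    simpa [y0] using this

lemma y1_norm : ‖y1‖ ≤ 1 := by
  refine nle _ _ zero_le_one fun i => ?_
  fin_cases i <;> simp [y1]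

lemma ph_y1 : ph y1 = 1 := by
  rw [ph_apply]; simp [pr_apply, y1]; norm_num

lemma upper (k : ℕ) (hk : 6 ≤ k) (x : E) (φ : E →L[ℂ] ℂ) (hx : ‖x‖ = 1) (hφ : ‖φ‖ = 1)
    (h : φ x = 1) : ‖ph x‖ ^ k * ‖φ y0‖ ≤ 1 / 2 := by
  have c0 : ‖pr 0 x‖ ≤ 1 := hx ▸ cle x 0
  have c1 : ‖pr 1 x‖ ≤ 1 := hx ▸ cle x 1
  have c2 : ‖pr 2 x‖ ≤ 1 := hx ▸ cle x 2
  have p1 : ‖ph x‖ = 1 / 2 * ‖pr 0 x - pr 1 x‖ := by rw [ph_apply, norm_mul]; simp
  have p2 : ‖ph x‖ ≤ 1 := by
    have := norm_sub_le (pr 0 x) (pr 1 x)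
    linarith
  have p3 : ‖φ y0‖ ≤ 1 := by
    have := φ.le_opNorm y0
    rw [hφ, y0_norm] at this
    linarith
  rcases eq_or_lt_of_le c2 with h2 | h2
  · have e : pr 0 x + pr 1 x = -pr 2 x := by linear_combination sum0 x
    have q := parallelogram_law_with_norm ℂ (pr 0 x) (pr 1 x)
    rw [e, norm_neg, h2] at q
    have q2 : ‖ph x‖ ^ 2 ≤ 3 / 4 := by
      rw [p1]
      nlinarith [norm_nonneg (pr 0 x), norm_nonneg (pr 1 x)]
    have q3 : ‖ph x‖ ^ k ≤ (‖ph x‖ ^ 2) ^ 3 := by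
      rw [← pow_mul]; exact pow_le_pow_of_le_one (norm_nonneg _) p2 hk
    have q4 : (‖ph x‖ ^ 2) ^ 3 ≤ (3 / 4) ^ 3 := by gcongr
    have : 0 ≤ ‖ph x‖ ^ k := by positivity
    nlinarith
  · obtain ⟨ω, hω, hω2⟩ := Complex.exists_norm_eq_mul_self (φ y0)
    set t := 1 - ‖pr 2 x‖ with ht
    have ht0 : 0 < t := by linarith
    have q1 : ‖x + ((t : ℂ) * ω) • y0‖ ≤ 1 + t / 2 := by
      refine nle _ _ (by positivity) fun j => ?_
      rw [← pr_apply, map_add, map_smul]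
      refine le_trans (norm_add_le _ _) ?_
      rw [norm_smul, norm_mul, hω, Complex.norm_real, Real.norm_eq_abs, abs_of_pos ht0]
      fin_cases j
      · have : ‖pr 0 y0‖ = 1 / 2 := by simp [pr_apply, y0]
        simp only [Fin.zero_eta]
        rw [this]; linarith
      · have : ‖pr 1 y0‖ = 1 / 2 := by simp [pr_apply, y0]
        simp only [Fin.mk_one]
        rw [this]; linarith
      · have : ‖pr 2 y0‖ = 1 := by simp [pr_apply, y0]
        simp only [Fin.reduceFinMk]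
        rw [this]; linarith
    have q2 := φ.le_opNorm (x + ((t : ℂ) * ω) • y0)
    rw [hφ, one_mul, map_add, map_smul, h, smul_eq_mul, mul_assoc, ← hω2] at q2
    have q3 : (1 : ℂ) + t * (‖φ y0‖ : ℂ) = ((1 + t * ‖φ y0‖ : ℝ) : ℂ) := by push_cast; ring
    rw [q3, Complex.norm_real, Real.norm_eq_abs, abs_of_pos (by positivity)] at q2
    have q4 : ‖φ y0‖ ≤ 1 / 2 := by nlinarith
    have q5 : ‖ph x‖ ^ k ≤ 1 := pow_le_one₀ (norm_nonneg _) p2
    nlinarith [norm_nonneg (φ y0)]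


/-- There is a real or complex Banach space X whose polynomial numerical indices n^(k)(X) (best constant c with c‖P‖ ≤ numerical radius of P, over k-homogeneous polynomials P on X) converge to a limit different from 0 and 1. -/
theorem result :
    ∃ (𝕂 : Type) (_ : RCLike 𝕂) (X : Type) (_ : NormedAddCommGroup X)
      (_ : NormedSpace 𝕂 X) (_ : CompleteSpace X) (L : ℝ),
      Filter.Tendsto
        (fun k : ℕ => sSup {c : ℝ | 0 ≤ c ∧
          ∀ (A : ContinuousMultilinearMap 𝕂 (fun _ : Fin k => X) X) (y : X), ‖y‖ ≤ 1 →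
            c * ‖A (fun _ => y)‖ ≤
              ⨆ p : {p : X × (X →L[𝕂] 𝕂) // ‖p.1‖ = 1 ∧ ‖p.2‖ = 1 ∧ p.2 p.1 = 1},
                ‖p.1.2 (A (fun _ => p.1.1))‖})
        Filter.atTop (nhds L) ∧ L ≠ 0 ∧ L ≠ 1 := by
  refine ⟨ℂ, inferInstance, E, inferInstance, inferInstance, inferInstance, 1 / 2, ?_, by norm_num,
    by norm_num⟩
  refine tendsto_const_nhds.congr' ?_
  filter_upwards [eventually_ge_atTop 6] with k hk
  symm
  apply IsGreatest.csSup_eq
  constructor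
  · refine ⟨by norm_num, fun A y hy => ?_⟩
    have hd : Differentiable ℂ fun x : E => A fun _ => x :=
      (A.contDiff (n := 1)).differentiable (by norm_num) |>.comp (by fun_prop)
    obtain ⟨x, hx, hm, i, j, hij, hi, hj⟩ := shilov _ hd
    have bdd : BddAbove (Set.range fun p : {p : E × (E →L[ℂ] ℂ) // ‖p.1‖ = 1 ∧ ‖p.2‖ = 1 ∧ p.2 p.1 = 1} =>
        ‖p.1.2 (A fun _ => p.1.1)‖) := by
      refine ⟨‖A fun _ => x‖, ?_⟩
      rintro _ ⟨p, rfl⟩
      have := p.1.2.le_opNorm (A fun _ => p.1.1)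
      rw [p.2.2.1, one_mul] at this
      exact le_trans this (hm _ p.2.1.le)
    have a1 := le_ciSup bdd ⟨(x, _), norming x hx i hi⟩
    have a2 := le_ciSup bdd ⟨(x, _), norming x hx j hj⟩
    simp only [smul_apply, norm_smul, Complex.norm_conj, hi, hj, one_mul] at a1 a2
    have := two _ i j hij _ a1 a2
    have := hm y hy
    linarith
  · rintro c ⟨-, hc⟩
    have := hc (((ContinuousMultilinearMap.mkPiAlgebra ℂ (Fin k) ℂ).compContinuousLinearMap
      fun _ => ph).smulRight y0) y1 y1_norm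
    simp only [ContinuousMultilinearMap.smulRight_apply,
      ContinuousMultilinearMap.compContinuousLinearMap_apply,
      ContinuousMultilinearMap.mkPiAlgebra_apply, Finset.prod_const, Finset.card_univ,
      Fintype.card_fin, ph_y1, one_pow, one_smul, y0_norm, mul_one, map_smul, norm_smul,
      norm_pow] at this
    exact le_trans this (Real.iSup_le (fun p => upper k hk _ _ p.2.1 p.2.2.1 p.2.2.2) (by norm_num))

end Pool.Agent.S04985
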