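import Pool.Statements.S05050

set_option autoImplicit false
open Pool Pool.MP_7364f6_an

namespace Pool.Agent.S05050

open Filter Topology Finset

/-- ramp weight -/
noncomputable def g (P m : ℕ) : ℝ := Real.sqrt (P / ((P - m % P : ℕ) : ℝ))

/-- potential -/
noncomputable def h (P m : ℕ) : ℝ :=
  2 * Real.sqrt (P * ((P - m % P : ℕ) : ℝ)) - 2 * ((P - m % P : ℕ) : ℝ)

lemma d_pos {P : ℕ} (hP : 0 < P) (m : ℕ) : 1 ≤ P - m % P := by
  have := Nat.mod_lt m hP; omega

lemma d_succ {P : ℕ} (hP : 0 < P) (m : ℕ) :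
    (P - m % P = 1 ∧ P - (m + 1) % P = P) ∨ P - m % P = (P - (m + 1) % P) + 1 := by
  have h1 := Nat.mod_lt m hP
  have h2 : (m + 1) % P = (m % P + 1) % P := by simp
  by_cases h : m % P + 1 < P
  · rw [h2, Nat.mod_eq_of_lt h]; omega
  · have : m % P + 1 = P := by omega
    rw [h2, this, Nat.mod_self]; omega

lemma one_le_g {P : ℕ} (hP : 0 < P) (m : ℕ) : 1 ≤ g P m := by
  unfold g
  have h1 : (1 : ℝ) ≤ ((P - m % P : ℕ) : ℝ) := by exact_mod_cast d_pos hP m
  have h2 : ((P - m % P : ℕ) : ℝ) ≤ P := by exact_mod_cast Nat.sub_le _ _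
  rw [Real.one_le_sqrt, one_le_div (by linarith)]
  exact h2

lemma h_nonneg {P : ℕ} (m : ℕ) : 0 ≤ h P m := by
  unfold h
  have h2 : ((P - m % P : ℕ) : ℝ) ≤ P := by exact_mod_cast Nat.sub_le _ _
  have h1 : (0 : ℝ) ≤ ((P - m % P : ℕ) : ℝ) := Nat.cast_nonneg _
  have : ((P - m % P : ℕ) : ℝ) ≤ Real.sqrt (P * ((P - m % P : ℕ) : ℝ)) :=
    Real.le_sqrt_of_sq_le (by nlinarith)
  linarith

lemma sqrt_step (P e : ℝ) (hP : 0 ≤ P) (he : 0 ≤ e) :
    Real.sqrt (P / (e + 1)) ≤ 2 * Real.sqrt (P * (e + 1)) - 2 * Real.sqrt (P * e) := by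
  rw [Real.sqrt_div hP, Real.sqrt_mul hP, Real.sqrt_mul hP]
  set a := Real.sqrt (e + 1)
  set b := Real.sqrt e
  set c := Real.sqrt P
  have ha : a ^ 2 = e + 1 := Real.sq_sqrt (by linarith)
  have hb : b ^ 2 = e := Real.sq_sqrt he
  have ha0 : 0 < a := Real.sqrt_pos.2 (by linarith)
  have hc0 : 0 ≤ c := Real.sqrt_nonneg _
  rw [div_le_iff₀ ha0]
  have : 1 ≤ 2 * a * (a - b) := by nlinarith [sq_nonneg (a - b)]
  nlinarith

lemma g_le_h {P : ℕ} (hP : 0 < P) (m : ℕ) : g P m ≤ 2 + h P m - h P (m + 1) := by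
  have hP' : (0 : ℝ) ≤ P := Nat.cast_nonneg _
  unfold g h
  rcases d_succ hP m with ⟨h1, h2⟩ | h1
  · rw [h1, h2, Real.sqrt_mul_self hP']
    simp only [Nat.cast_one, div_one, mul_one]
    linarith [Real.sqrt_nonneg (P : ℝ)]
  · rw [h1]
    push_cast
    have := sqrt_step P ((P - (m + 1) % P : ℕ) : ℝ) hP' (Nat.cast_nonneg _)
    linarith

lemma sum_g_le1 {P : ℕ} (hP : 0 < P) (m n : ℕ) :
    ∑ j ∈ range n, g P (m + j) ≤ 2 * n + h P m - h P (m + n) := by
  induction n with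
  | zero => simp
  | succ n ih =>
    rw [sum_range_succ, ← add_assoc]
    have := g_le_h hP (m + n)
    push_cast
    linarith

lemma sum_g_le {P : ℕ} (hP : 0 < P) (m n : ℕ) :
    ∑ j ∈ range n, g P (m + j) ≤ 6 * n * g P m := by
  have hP' : (0 : ℝ) ≤ P := Nat.cast_nonneg _
  have hg := one_le_g hP m
  have hn : (0 : ℝ) ≤ n := Nat.cast_nonneg _
  have hd1 : (1 : ℝ) ≤ ((P - m % P : ℕ) : ℝ) := by exact_mod_cast d_pos hP m
  by_cases hc : P - m % P ≤ 2 * n
  · have h1 := sum_g_le1 hP m n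
    have h2 := h_nonneg (P := P) (m + n)
    have h3 : h P m ≤ 2 * ((P - m % P : ℕ) : ℝ) * g P m := by
      unfold h g
      set d : ℝ := ((P - m % P : ℕ) : ℝ)
      have : Real.sqrt (P * d) = d * Real.sqrt (P / d) := by
        rw [show (P : ℝ) * d = d ^ 2 * (P / d) by field_simp, Real.sqrt_mul (sq_nonneg _),
          Real.sqrt_sq (by linarith)]
      rw [this]; linarith
    have h4 : ((P - m % P : ℕ) : ℝ) ≤ 2 * n := by exact_mod_cast hc
    nlinarith
  · have h1 : ∀ j ∈ range n, g P (m + j) ≤ 2 * g P m := by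
      intro j hj
      rw [mem_range] at hj
      have h2 : (m + j) % P = m % P + j := by
        have : (m + j) % P = (m % P + j) % P := by simp
        rw [this, Nat.mod_eq_of_lt (by omega)]
      unfold g
      have h3 : ((P - m % P : ℕ) : ℝ) ≤ 4 * ((P - (m + j) % P : ℕ) : ℝ) := by
        exact_mod_cast (by omega : P - m % P ≤ 4 * (P - (m + j) % P))
      have h4 : (1 : ℝ) ≤ ((P - (m + j) % P : ℕ) : ℝ) := by exact_mod_cast d_pos hP (m + j)
      rw [show (2 : ℝ) = Real.sqrt 4 by rw [show (4 : ℝ) = 2 ^ 2 by norm_num]; simp,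
        ← Real.sqrt_mul (by norm_num)]
      refine Real.sqrt_le_sqrt ?_
      rw [mul_div_assoc', div_le_div_iff₀ (by linarith) (by linarith)]
      nlinarith
    refine (sum_le_sum h1).trans ?_
    simp only [sum_const, card_range, nsmul_eq_mul]
    nlinarith

/-- the weights of the block of index `k` -/
noncomputable def wt (k m : ℕ) : ℝ := if 4 ^ (k + 1) ∣ m + 1 then 1 else g (4 ^ k) m

lemma one_le_wt (k m : ℕ) : 1 ≤ wt k m := by
  unfold wt; split_ifs
  · exact le_rfl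
  · exact one_le_g (by positivity) m

lemma wt_le_g (k m : ℕ) : wt k m ≤ g (4 ^ k) m := by
  unfold wt; split_ifs
  · exact one_le_g (by positivity) m
  · exact le_rfl

lemma sum_wt_le (k m n : ℕ) : ∑ j ∈ range n, wt k (m + j) ≤ 6 * n * wt k m := by
  have hP : 0 < 4 ^ k := by positivity
  by_cases hs : 4 ^ (k + 1) ∣ m + 1
  · rcases n with _ | n
    · simp
    · have h1 : wt k m = 1 := if_pos hs
      have h2 : g (4 ^ k) (m + 1) = 1 := by
        unfold g
        rw [Nat.mod_eq_zero_of_dvd ((pow_dvd_pow 4 (Nat.le_succ k)).trans hs), Nat.sub_zero,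
          div_self (by positivity), Real.sqrt_one]
      have h3 := sum_g_le hP (m + 1) n
      have h4 : ∑ j ∈ range n, wt k (m + (j + 1)) ≤ ∑ j ∈ range n, g (4 ^ k) (m + 1 + j) :=
        sum_le_sum fun j _ => by rw [show m + (j + 1) = m + 1 + j by ring]; exact wt_le_g _ _
      rw [sum_range_succ', add_zero, h1]
      rw [h2] at h3
      push_cast
      linarith
  · have h1 : wt k m = g (4 ^ k) m := if_neg hs
    rw [h1]
    exact (sum_le_sum fun j _ => wt_le_g _ _).trans (sum_g_le hP m n)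

lemma wt_mod (k m : ℕ) : wt k (m % 4 ^ (k + 1)) = wt k m := by
  unfold wt g
  rw [Nat.mod_mod_of_dvd m (pow_dvd_pow 4 (Nat.le_succ k))]
  congr 1
  rw [Nat.dvd_iff_mod_eq_zero, Nat.dvd_iff_mod_eq_zero]
  simp

/-- the index set -/
abbrev I : Type := Σ k : ℕ, ZMod (4 ^ (k + 1))

/-- the cyclic shift on blocks -/
def sg : Equiv.Perm I := Equiv.sigmaCongrRight fun _ => Equiv.addRight 1

lemma sg_pow (j k : ℕ) (r : ZMod (4 ^ (k + 1))) : (sg ^ j) ⟨k, r⟩ = ⟨k, r + j⟩ := by
  induction j with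
  | zero => simp
  | succ j ih =>
    rw [pow_succ', Equiv.Perm.mul_apply, ih]
    simp [sg, add_assoc]

/-- the weight function -/
noncomputable def W (i : I) : ℝ := wt i.1 i.2.val

lemma W_pos (i : I) : 0 < W i := lt_of_lt_of_le one_pos (one_le_wt _ _)

lemma W_pow (j k : ℕ) (r : ZMod (4 ^ (k + 1))) : W ((sg ^ j) ⟨k, r⟩) = wt k (r.val + j) := by
  rw [sg_pow, W]
  simp only
  rw [ZMod.val_add, ZMod.val_natCast, wt_mod, ← wt_mod, Nat.add_mod_mod, wt_mod]

lemma sum_W (i : I) (n : ℕ) : ∑ j ∈ range n, W ((sg ^ j) i) / W i ≤ 6 * n := by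
  obtain ⟨k, r⟩ := i
  rw [← sum_div, div_le_iff₀ (W_pos _)]
  simp only [W_pow]
  exact sum_wt_le k r.val n

lemma W_step (i : I) : W (sg i) / W i ≤ 12 := by
  have := sum_W i 2
  simp only [sum_range_succ, range_zero, sum_empty, pow_zero, Equiv.Perm.one_apply, pow_one,
    div_self (W_pos i).ne'] at this
  norm_num at this
  linarith

/-- the space -/
abbrev X : Type := lp (fun _ : I => ℝ) 1

lemma hs_norm (x : X) : HasSum (fun i => |x i|) ‖x‖ := by
  simpa using lp.hasSum_norm (p := 1) (by simp) x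

lemma mem_of {f : I → ℝ} (hf : Summable fun i => |f i|) : Memℓp f 1 :=
  memℓp_gen (by simpa using hf)

lemma T_summable (x : X) :
    Summable fun i => |W i / W (sg.symm i) * x (sg.symm i)| := by
  rw [← sg.summable_iff]
  refine Summable.of_nonneg_of_le (fun _ => abs_nonneg _) (fun i => ?_)
    ((hs_norm x).summable.mul_left 12)
  simp only [Function.comp_apply, Equiv.symm_apply_apply]
  rw [abs_mul, abs_of_pos (div_pos (W_pos _) (W_pos _))]
  exact mul_le_mul_of_nonneg_right (W_step i) (abs_nonneg _)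

/-- the weighted shift -/
noncomputable def T : X →L[ℝ] X :=
  LinearMap.mkContinuous
    { toFun := fun x => ⟨fun i => W i / W (sg.symm i) * x (sg.symm i), mem_of (T_summable x)⟩
      map_add' := fun x y => by ext i; simp; ring
      map_smul' := fun c x => by ext i; simp; ring } 12 (fun x => by
      refine hasSum_le (fun i => ?_) ((sg.hasSum_iff).2 (hs_norm _)) ((hs_norm x).mul_left 12)
      simp only [Function.comp_apply, LinearMap.coe_mk, AddHom.coe_mk, Equiv.symm_apply_apply]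
      rw [abs_mul, abs_of_pos (div_pos (W_pos _) (W_pos _))]
      exact mul_le_mul_of_nonneg_right (W_step i) (abs_nonneg _))

lemma T_apply (x : X) (i : I) : T x (sg i) = W (sg i) / W i * x i := by
  change W (sg i) / W (sg.symm (sg i)) * x (sg.symm (sg i)) = _
  rw [Equiv.symm_apply_apply]

lemma T_pow (n : ℕ) (x : X) (i : I) : (T ^ n) x ((sg ^ n) i) = W ((sg ^ n) i) / W i * x i := by
  induction n with
  | zero => simp [(W_pos i).ne']
  | succ n ih =>
    have e1 : (T ^ (n + 1)) x = T ((T ^ n) x) := by rw [pow_succ']; rfl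
    have e2 : (sg ^ (n + 1)) i = sg ((sg ^ n) i) := by rw [pow_succ']; rfl
    rw [e1, e2, T_apply, ih]
    have := (W_pos ((sg ^ n) i)).ne'
    field_simp

lemma cesaro (x : X) (n : ℕ) : ∑ j ∈ range n, ‖(T ^ j) x‖ ≤ 6 * n * ‖x‖ := by
  have h1 : ∀ j ∈ range n, HasSum (fun i => W ((sg ^ j) i) / W i * |x i|) ‖(T ^ j) x‖ := by
    intro j _
    have := ((sg ^ j).hasSum_iff).2 (hs_norm ((T ^ j) x))
    convert this using 2 with i
    simp only [Function.comp_apply]
    rw [T_pow, abs_mul, abs_of_pos (div_pos (W_pos _) (W_pos _))]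
  refine hasSum_le (fun i => ?_) (hasSum_sum h1) ((hs_norm x).mul_left (6 * (n : ℝ)))
  rw [← sum_mul]
  exact mul_le_mul_of_nonneg_right (sum_W i n) (abs_nonneg _)

/-- periodic vectors -/
def Per : Submodule ℝ X where
  carrier := {y | ∃ P : ℕ, 0 < P ∧ (T ^ P) y = y}
  zero_mem' := ⟨1, one_pos, by simp⟩
  smul_mem' := fun c y ⟨P, hP, h⟩ => ⟨P, hP, by rw [map_smul, h]⟩
  add_mem' := by
    rintro y z ⟨P, hP, h1⟩ ⟨Q, hQ, h2⟩
    have key : ∀ (y : X) (P : ℕ), (T ^ P) y = y → ∀ t, (T ^ (P * t)) y = y := by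
      intro y P h t
      induction t with
      | zero => simp
      | succ t ih => rw [mul_add, mul_one, pow_add, mul_apply_eq_comp, h, ih]
    exact ⟨P * Q, Nat.mul_pos hP hQ, by rw [map_add, key y P h1, mul_comm, key z Q h2]⟩

lemma per_mul (y : X) (P : ℕ) (h : (T ^ P) y = y) (t : ℕ) : (T ^ (P * t)) y = y := by
  induction t with
  | zero => simp
  | succ t ih => rw [mul_add, mul_one, pow_add, mul_apply_eq_comp, h, ih]

lemma single_per (i : I) (c : ℝ) : (lp.single 1 i c : X) ∈ Per := by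
  classical
  refine ⟨4 ^ (i.1 + 1), by positivity, ?_⟩
  ext j
  obtain ⟨j, rfl⟩ := (sg ^ 4 ^ (i.1 + 1)).surjective j
  rw [T_pow]
  have hi : (sg ^ 4 ^ (i.1 + 1)) i = i := by
    obtain ⟨k, r⟩ := i
    rw [sg_pow]; simp
  by_cases hj : j = i
  · subst hj
    rw [hi, div_self (W_pos _).ne', one_mul]
  · rw [lp.single_apply_ne _ _ _ hj, lp.single_apply_ne, mul_zero]
    intro h
    exact hj ((sg ^ 4 ^ (i.1 + 1)).injective (h.trans hi.symm))

lemma dense_per : Dense (Per : Set X) := by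
  classical
  intro x
  refine mem_closure_of_tendsto (lp.hasSum_single (p := 1) (by simp) x)
    (Eventually.of_forall fun s => ?_)
  exact Per.sum_mem fun i _ => single_per i _

lemma frec_of (x y : X) (P : ℕ) (hP : 0 < P) (hy : (T ^ P) y = y) {ε : ℝ} (hε : 0 < ε)
    (hxy : ‖x - y‖ < ε / (24 * P)) (n : ℕ) :
    1 / (2 * P) * (n : ℝ) ≤ (Set.ncard {k : ℕ | k < n ∧ ‖(T ^ k) x - x‖ < ε} : ℕ) := by
  classical
  set z := x - y with hz
  have hP' : (1 : ℝ) ≤ P := by exact_mod_cast hP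
  let A := (range n).filter fun k => P ∣ k
  let B := (range n).filter fun k => ε / 2 ≤ ‖(T ^ k) z‖
  have hA : (n : ℝ) ≤ P * A.card := by
    have h1 : A.card = (n + P - 1) / P := by
      have := Nat.count_modEq_card n hP 0
      have h2 : A.card = Nat.count (fun k => k ≡ 0 [MOD P]) n := by
        rw [Nat.count_eq_card_filter_range]
        simp only [A, Nat.modEq_zero_iff_dvd]
      rw [h2, this]
      have h3 := Nat.div_add_mod n P
      have h4 := Nat.mod_lt n hP
      symm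
      rw [Nat.div_eq_iff hP]
      simp only [Nat.zero_mod]
      split_ifs with h5
      · rw [add_mul, mul_comm]; omega
      · rw [add_zero, mul_comm]; omega
    have h2 := Nat.div_add_mod (n + P - 1) P
    have h3 := Nat.mod_lt (n + P - 1) hP
    have : n ≤ P * A.card := by rw [h1]; omega
    exact_mod_cast this
  have hB : (B.card : ℝ) * (ε / 2) ≤ 6 * n * ‖z‖ := by
    refine le_trans ?_ (cesaro z n)
    have := card_nsmul_le_sum B (fun k => ‖(T ^ k) z‖) (ε / 2) (fun k hk => (mem_filter.1 hk).2)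
    rw [nsmul_eq_mul] at this
    exact this.trans (sum_le_sum_of_subset_of_nonneg (filter_subset _ _) fun _ _ _ => norm_nonneg _)
  have hn : (0 : ℝ) ≤ n := Nat.cast_nonneg _
  have hB2 : (B.card : ℝ) * (2 * P) ≤ n := by
    rw [lt_div_iff₀ (by positivity)] at hxy
    have h1 : (B.card : ℝ) * (2 * P) * ε ≤ n * (‖z‖ * (24 * P)) := by nlinarith
    have h2 : n * (‖z‖ * (24 * P)) ≤ n * ε := mul_le_mul_of_nonneg_left hxy.le hn
    exact le_of_mul_le_mul_right (h1.trans h2) hε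
  have hsub : ((A \ B : Finset ℕ) : Set ℕ) ⊆ {k : ℕ | k < n ∧ ‖(T ^ k) x - x‖ < ε} := by
    intro k hk
    simp only [coe_sdiff, Set.mem_sdiff, mem_coe, A, B, mem_filter, mem_range, not_and, not_le] at hk
    obtain ⟨⟨h1, t, rfl⟩, h2⟩ := hk
    refine ⟨h1, ?_⟩
    have e : (T ^ (P * t)) x - x = (T ^ (P * t)) z - z := by
      rw [hz, map_sub, per_mul y P hy]; abel
    rw [e]
    have h3 : ‖z‖ < ε / 2 := hxy.trans_le (div_le_div_of_nonneg_left hε.le (by norm_num) (by linarith))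
    linarith [norm_sub_le ((T ^ (P * t)) z) z, h2 h1]
  have hcard := Set.ncard_le_ncard hsub ((Set.finite_Iio n).subset fun k hk => hk.1)
  rw [Set.ncard_coe_finset] at hcard
  have h4 : A.card ≤ (A \ B).card + B.card := card_le_card_sdiff_add_card
  have h5 : (A.card : ℝ) ≤ (Set.ncard {k : ℕ | k < n ∧ ‖(T ^ k) x - x‖ < ε} : ℕ) + B.card := by
    exact_mod_cast h4.trans (Nat.add_le_add_right hcard _)
  rw [one_div, inv_mul_le_iff₀ (by positivity)]
  nlinarith

open Classical in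
/-- a vector that is not recurrent -/
noncomputable def x0 : X :=
  ⟨fun i => if i.2 = -1 then (1 / 2) ^ i.1 else 0, mem_of (by
    have hinj : Function.Injective fun k : ℕ => (⟨k, -1⟩ : I) := fun a b h => congrArg Sigma.fst h
    rw [← hinj.summable_iff]
    · refine summable_geometric_two.congr fun k => ?_
      simp
    · rintro ⟨k, r⟩ hr
      rw [if_neg, abs_zero]
      intro h
      exact hr ⟨k, by simp only at h; rw [h]⟩)⟩

lemma x0_far (j : ℕ) (hj : j ≠ 0) : 1 ≤ ‖(T ^ j) x0 - x0‖ := by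
  obtain ⟨k, t, ht, rfl⟩ := Nat.exists_eq_pow_mul_and_not_dvd hj 4 (by norm_num)
  have hnd : ¬ 4 ^ (k + 1) ∣ 4 ^ k * t := by
    rw [pow_succ]
    exact fun h => ht (Nat.dvd_of_mul_dvd_mul_left (by positivity) h)
  have hp : 0 < 4 ^ (k + 1) := by positivity
  have hval : (-1 : ZMod (4 ^ (k + 1))).val + 1 = 4 ^ (k + 1) := by
    obtain ⟨n, hn⟩ : ∃ n, 4 ^ (k + 1) = n + 1 := ⟨4 ^ (k + 1) - 1, by omega⟩
    rw [hn, ZMod.val_neg_one]
  refine le_trans ?_ (lp.norm_apply_le_norm (by simp) _ ((sg ^ (4 ^ k * t)) ⟨k, -1⟩))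
  rw [lp.coeFn_sub, Pi.sub_apply, T_pow, W_pow]
  have h1 : W ⟨k, -1⟩ = 1 := by
    unfold W wt
    rw [if_pos (by rw [hval])]
  have h2 : x0 ⟨k, -1⟩ = (1 / 2) ^ k := by simp [x0]
  have h3 : x0 ((sg ^ (4 ^ k * t)) ⟨k, -1⟩) = 0 := by
    rw [sg_pow]
    simp only [x0]
    rw [if_neg]
    intro h
    exact hnd ((ZMod.natCast_eq_zero_iff _ _).1 (add_eq_left.1 h))
  have h4 : wt k ((-1 : ZMod (4 ^ (k + 1))).val + 4 ^ k * t) = 2 ^ k := by
    unfold wt
    rw [if_neg]
    · unfold g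
      have h5 : ((-1 : ZMod (4 ^ (k + 1))).val + 4 ^ k * t) % 4 ^ k = 4 ^ k - 1 := by
        have h6 : 0 < 4 ^ k := by positivity
        rw [show (-1 : ZMod (4 ^ (k + 1))).val + 4 ^ k * t = (4 ^ k - 1) + 4 ^ k * (t + 3) by
          have e4 : 4 ^ (k + 1) = 4 * 4 ^ k := by ring
          rw [mul_add]; omega, Nat.add_mul_mod_self_left,
          Nat.mod_eq_of_lt (by omega)]
      have h6 : 0 < 4 ^ k := by positivity
      rw [h5, show 4 ^ k - (4 ^ k - 1) = 1 by omega]
      push_cast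
      rw [div_one, show (4 : ℝ) ^ k = (2 ^ k) ^ 2 by rw [← pow_mul, mul_comm, pow_mul]; norm_num,
        Real.sqrt_sq (by positivity)]
    · rw [add_right_comm, hval]
      exact fun h => hnd ((Nat.dvd_add_right dvd_rfl).1 h)
  rw [h1, h2, h3, h4, div_one, ← mul_pow]
  norm_num

/-- The negation of the preceding statement: For every continuous linear operator T on a real or complex Fréchet space X, the set of vectors whose orbit returns to each of their neighbourhoods along a set of positive lower density is either all of X or a meager set. -/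
theorem result :
    ¬ (∀ (𝕜 : Type) [RCLike 𝕜] (X : Type) [AddCommGroup X] [Module 𝕜 X] [Module ℝ X]
      [IsScalarTower ℝ 𝕜 X] [UniformSpace X] [IsUniformAddGroup X] [CompleteSpace X]
      [TopologicalSpace.MetrizableSpace X] [ContinuousSMul 𝕜 X] [LocallyConvexSpace ℝ X]
      (T : X →L[𝕜] X),
      {x : X | ∀ U ∈ nhds x, ∃ δ : ℝ, 0 < δ ∧ ∃ N : ℕ, ∀ n : ℕ, N ≤ n →
          δ * (n : ℝ) ≤ ((Set.ncard {k : ℕ | k < n ∧ (T ^ k) x ∈ U} : ℕ) : ℝ)} = Set.univ ∨
      IsMeagre {x : X | ∀ U ∈ nhds x, ∃ δ : ℝ, 0 < δ ∧ ∃ N : ℕ, ∀ n : ℕ, N ≤ n →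
          δ * (n : ℝ) ≤ ((Set.ncard {k : ℕ | k < n ∧ (T ^ k) x ∈ U} : ℕ) : ℝ)}) := by
  intro H
  rcases H ℝ X T with h | h
  · obtain ⟨δ, hδ, N, hN⟩ := (Set.eq_univ_iff_forall.1 h x0) _ (Metric.ball_mem_nhds x0 one_pos)
    obtain ⟨M, hM⟩ := exists_nat_gt (1 / δ)
    have h1 := hN (N + M) (by omega)
    have h2 : {k : ℕ | k < N + M ∧ (T ^ k) x0 ∈ Metric.ball x0 1} ⊆ {0} := by
      intro k hk
      by_contra h0
      have := x0_far k h0
      have h3 := mem_ball_iff_norm.1 hk.2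
      linarith
    have h3 := Set.ncard_le_ncard h2 (Set.finite_singleton 0)
    rw [Set.ncard_singleton] at h3
    have h4 : ((Set.ncard {k : ℕ | k < N + M ∧ (T ^ k) x0 ∈ Metric.ball x0 1} : ℕ) : ℝ) ≤ 1 := by
      exact_mod_cast h3
    rw [div_lt_iff₀ hδ] at hM
    have h5 := h1.trans h4
    push_cast at h5
    nlinarith [mul_nonneg hδ.le (Nat.cast_nonneg (α := ℝ) N)]
  · let U : ℕ → Set X := fun m => ⋃ (y : X) (P : ℕ) (_ : 0 < P ∧ (T ^ P) y = y),
      Metric.ball y (1 / (m + 1) / (24 * P))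
    have hU : ∀ m, U m ∈ residual X := by
      intro m
      refine residual_of_dense_open (isOpen_iUnion fun _ => isOpen_iUnion fun _ =>
        isOpen_iUnion fun _ => Metric.isOpen_ball) (dense_per.mono ?_)
      rintro y ⟨P, hP, hy⟩
      simp only [U, Set.mem_iUnion]
      exact ⟨y, P, ⟨hP, hy⟩, Metric.mem_ball_self (by positivity)⟩
    have h2 := Filter.inter_mem ((countable_iInter_mem).2 hU) h
    obtain ⟨x, hx1, hx2⟩ := (dense_of_mem_residual h2).nonempty
    apply hx2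
    intro V hV
    obtain ⟨ε, hε, hb⟩ := Metric.mem_nhds_iff.1 hV
    obtain ⟨m, hm⟩ := exists_nat_one_div_lt hε
    have := Set.mem_iInter.1 hx1 m
    simp only [U, Set.mem_iUnion] at this
    obtain ⟨y, P, ⟨hP, hy⟩, hxy⟩ := this
    refine ⟨1 / (2 * P), by positivity, 0, fun n _ => ?_⟩
    refine (frec_of x y P hP hy (by positivity) (mem_ball_iff_norm.1 hxy) n).trans ?_
    have : {k : ℕ | k < n ∧ ‖(T ^ k) x - x‖ < 1 / (m + 1)} ⊆ {k : ℕ | k < n ∧ (T ^ k) x ∈ V} :=
      fun k hk => ⟨hk.1, hb (mem_ball_iff_norm.2 (hk.2.trans hm))⟩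
    exact_mod_cast Set.ncard_le_ncard this ((Set.finite_Iio n).subset fun k hk => hk.1)

end Pool.Agent.S05050
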