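import Pool.Statements.S05072
-- import your own Pool.Agent.* helpers here

set_option autoImplicit false
open Pool Pool.MP_75b936_an

namespace Pool.Agent.S05072

open Set Filter Topology

/-- causal operators have fixed points -/
theorem fix (Φ : (ℝ → ℝ) → ℝ → ℝ) (hc : ∀ g, Continuous g → Continuous (Φ g))
    (h : ∀ (r : ℕ) (g g' : ℝ → ℝ), (∀ t : ℝ, |t| < r → g t = g' t) →
      ∀ x : ℝ, |x| < r + 1 → Φ g x = Φ g' x) :
    ∃ f, Continuous f ∧ Φ f = f := by
  let u : ℕ → ℝ → ℝ := fun N => Φ^[N] 0
  have us : ∀ N, u (N + 1) = Φ (u N) := fun N => Function.iterate_succ_apply' Φ N 0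
  have uc : ∀ N, Continuous (u N) := by
    intro N
    induction N with
    | zero => exact continuous_zero
    | succ N ih => rw [us]; exact hc _ ih
  have ag : ∀ r N N' : ℕ, r ≤ N → r ≤ N' → ∀ t : ℝ, |t| < r → u N t = u N' t := by
    intro r
    induction r with
    | zero => intro N N' _ _ t ht; exact absurd ht (by simp)
    | succ r ih =>
      intro N N' h1 h2 t ht
      obtain ⟨N, rfl⟩ : ∃ k, N = k + 1 := ⟨N - 1, by omega⟩
      obtain ⟨N', rfl⟩ : ∃ k, N' = k + 1 := ⟨N' - 1, by omega⟩
      rw [us, us]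
      exact h r _ _ (ih N N' (by omega) (by omega)) t (by exact_mod_cast ht)
  let f : ℝ → ℝ := fun x => u (⌊|x|⌋₊ + 1) x
  have hf : ∀ (N : ℕ) (t : ℝ), |t| < N → f t = u N t := fun N t ht =>
    ag (⌊|t|⌋₊ + 1) _ _ le_rfl ((Nat.floor_lt (abs_nonneg t)).2 ht) t
      (by exact_mod_cast Nat.lt_floor_add_one |t|)
  refine ⟨f, continuous_iff_continuousAt.2 fun x => ?_, funext fun x => ?_⟩
  · obtain ⟨N, hN⟩ := exists_nat_gt |x|
    refine (uc N).continuousAt.congr ?_
    filter_upwards [ContinuousAt.eventually_lt (f := fun t : ℝ => |t|) (g := fun _ => (N : ℝ))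
      (by fun_prop) (by fun_prop) hN] with t ht using (hf N t ht).symm
  · obtain ⟨N, hN⟩ := exists_nat_gt |x|
    rw [h N f (u N) (hf N) x (by linarith), ← us, hf (N + 1) x (by push_cast; linarith)]

/-- gluing pieces around the integers -/
noncomputable def glue (u : ℤ → ℝ → ℝ) (x : ℝ) : ℝ := u (round x) (x - round x)

theorem round_of {m : ℤ} {x : ℝ} (h : |x - m| < 1 / 2) : round x = m := by
  rw [abs_lt] at h
  exact round_eq_iff.2 ⟨by linarith [h.1], by linarith [h.2]⟩

theorem glue_cont (u : ℤ → ℝ → ℝ) (hu : ∀ m, Continuous (u m))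
    (h0 : ∀ m y, 7 / 16 ≤ |y| → u m y = 0) : Continuous (glue u) := by
  refine continuous_iff_continuousAt.2 fun x => ?_
  rcases lt_or_ge |x - round x| (1 / 2) with h | h
  · have := hu (round x)
    refine (show ContinuousAt (fun t => u (round x) (t - round x)) x by fun_prop).congr ?_
    filter_upwards [ContinuousAt.eventually_lt (f := fun t : ℝ => |t - round x|)
      (g := fun _ => (1 / 2 : ℝ)) (by fun_prop) (by fun_prop) h] with t ht
    rw [glue, round_of ht]
  · refine (continuousAt_const (y := (0 : ℝ))).congr ?_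
    filter_upwards [ContinuousAt.eventually_lt (f := fun t : ℝ => |t - x|)
      (g := fun _ => (1 / 16 : ℝ)) (by fun_prop) (by fun_prop) (by simp)] with t ht
    refine (h0 _ _ ?_).symm
    have h1 := round_le x (round t)
    have h2 : |x - round t| ≤ |t - round t| + |t - x| := by
      rw [show x - round t = (t - round t) - (t - x) by ring]
      exact abs_sub _ _
    linarith

/-- tent -/
noncomputable def tent (y : ℝ) : ℝ := max 0 (3 / 8 - |y|)

/-- plateau -/
noncomputable def plat (y : ℝ) : ℝ := max 0 (min 1 (7 - 16 * |y|))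

/-- periodic tent -/
noncomputable def A : ℝ → ℝ := glue fun _ => tent

/-- piecewise translation -/
noncomputable def hat (g : ℤ → ℤ) : ℝ → ℝ := glue fun m y => plat y * (g m + y)

theorem tent_zero {y : ℝ} (h : 3 / 8 ≤ |y|) : tent y = 0 := max_eq_left (by linarith)

theorem A_cont : Continuous A :=
  glue_cont _ (fun _ => by unfold tent; fun_prop) fun _ _ h => tent_zero (by linarith)

theorem hat_cont (g : ℤ → ℤ) : Continuous (hat g) :=
  glue_cont _ (fun _ => by unfold plat; fun_prop) fun m y h => by
    rw [plat, max_eq_left (min_le_of_right_le (by linarith)), zero_mul]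

theorem hat_eq (g : ℤ → ℤ) (m : ℤ) {y : ℝ} (h : |y| < 3 / 8) : hat g (m + y) = g m + y := by
  have : round ((m : ℝ) + y) = m := round_of (by rw [add_sub_cancel_left]; linarith)
  rw [hat, glue, this, add_sub_cancel_left, plat, min_eq_left (by linarith),
    max_eq_right zero_le_one, one_mul]

theorem A_pos (x : ℝ) : 0 < A x ^ 2 + A (x + 1 / 2) ^ 2 := by
  by_cases h : |x - round x| < 3 / 8
  · have : 0 < A x := lt_max_of_lt_right (by linarith)
    positivity
  · have h1 := abs_sub_round x
    have : 0 < A (x + 1 / 2) := by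
      refine lt_max_of_lt_right ?_
      have a := round_le (x + 1 / 2) (round x)
      have b := round_le (x + 1 / 2) (round x + 1)
      push_cast at b
      rcases abs_cases (x - round x) with c | c
      · rw [abs_of_nonpos (a := x + 1 / 2 - (round x + 1)) (by linarith)] at b
        linarith
      · rw [abs_of_nonneg (a := x + 1 / 2 - round x) (by linarith)] at a
        linarith
    positivity

/-- first placement -/
def g0 (m : ℤ) : ℤ := if 0 ≤ m then 4 * m + 5 else -4 * m + 3

/-- placement of the pieces -/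
def rho (p : ℕ × ℤ) : ℤ := (fun z => 2 * z)^[p.1] (g0 p.2)

theorem rho_succ (k : ℕ) (m : ℤ) : rho (k + 1, m) = 2 * rho (k, m) :=
  Function.iterate_succ_apply' _ _ _

theorem rho_zero (m : ℤ) : rho (0, m) = g0 m := rfl

theorem rho_inj : Function.Injective rho := by
  rintro ⟨k, m⟩
  induction k with
  | zero =>
    rintro ⟨_ | k', m'⟩ h
    · rw [rho_zero, rho_zero] at h
      unfold g0 at h
      have : m = m' := by split_ifs at h <;> omega
      rw [this]
    · rw [rho_zero, rho_succ] at h
      unfold g0 at h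
      split_ifs at h <;> omega
  | succ k ih =>
    rintro ⟨_ | k', m'⟩ h
    · rw [rho_zero, rho_succ] at h
      unfold g0 at h
      split_ifs at h <;> omega
    · rw [rho_succ, rho_succ] at h
      have := ih (show rho (k, m) = rho (k', m') by omega)
      simp only [Prod.mk.injEq] at this ⊢
      exact ⟨by omega, this.2⟩

theorem rho_ge (k : ℕ) (m : ℤ) : |m| + k + 3 ≤ rho (k, m) := by
  induction k with
  | zero =>
    rw [rho_zero]
    unfold g0
    rcases abs_cases m with h | h <;> split_ifs <;> omega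
  | succ k ih =>
    rw [rho_succ]
    have := abs_nonneg m
    push_cast
    omega

theorem hat_iter (k : ℕ) (m : ℤ) {y : ℝ} (h : |y| < 3 / 8) :
    (hat fun z => 2 * z)^[k] (hat g0 (m + y)) = rho (k, m) + y := by
  induction k with
  | zero => exact hat_eq g0 m h
  | succ k ih => rw [Function.iterate_succ_apply', ih, hat_eq _ _ h, rho_succ]

theorem univ_fun (O : ℕ → (ℝ → ℝ) → ℝ → ℝ) (hc : ∀ k g, Continuous g → Continuous (O k g))
    (h : ∀ (k : ℕ) (g g' : ℝ → ℝ) (z : ℝ), (∀ t : ℝ, |t| ≤ |z| + k + 1 → g t = g' t) → O k g z = O k g' z) :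
    ∃ f, Continuous f ∧ ∀ k x, A x * f ((hat fun z => 2 * z)^[k] (hat g0 x)) = A x ^ 2 * O k f x := by
  classical
  obtain ⟨f, hf, e⟩ := fix (fun g => glue fun m y =>
      if h : ∃ p, rho p = m then tent y * O h.choose.1 g (h.choose.2 + y) else 0) (by
    intro g hg
    refine glue_cont _ (fun m => ?_) fun m y hy => ?_
    · split_ifs with h1
      · have := hc h1.choose.1 g hg
        unfold tent
        fun_prop
      · exact continuous_const
    · rw [tent_zero (by linarith)]
      simp) (by
    intro r g g' hg x hx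
    simp only [glue]
    split_ifs with h1
    · by_cases hy : |x - round x| < 3 / 8
      · congr 1
        refine h _ _ _ _ fun t ht => hg t ?_
        have h2 := h1.choose_spec
        generalize h1.choose = p at *
        have h3 := rho_ge p.1 p.2
        rw [show rho (p.1, p.2) = round x from h2] at h3
        have h4 : |(p.2 : ℝ)| + p.1 + 3 ≤ round x := by exact_mod_cast h3
        have h5 := abs_add_le (p.2 : ℝ) (x - round x)
        have h6 := le_abs_self x
        have h7 := neg_le_abs (x - round x)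
        linarith
      · rw [tent_zero (not_lt.1 hy), zero_mul, zero_mul]
    · rfl)
  refine ⟨f, hf, fun k x => ?_⟩
  by_cases hy : |x - round x| < 3 / 8
  · have e1 := hat_iter k (round x) hy
    rw [add_sub_cancel] at e1
    have e2 : round ((rho (k, round x) : ℝ) + (x - round x)) = rho (k, round x) :=
      round_of (by rw [add_sub_cancel_left]; linarith)
    have h1 : ∃ p, rho p = rho (k, round x) := ⟨_, rfl⟩
    have h2 : h1.choose = (k, round x) := rho_inj h1.choose_spec
    have e3 := congrFun e (rho (k, round x) + (x - round x))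
    simp only [glue, e2, add_sub_cancel_left] at e3
    rw [dif_pos h1, h2] at e3
    simp only [add_sub_cancel] at e3
    rw [e1, ← e3]
    show A x * (A x * _) = _
    ring
  · have : A x = 0 := tent_zero (not_lt.1 hy)
    simp [this]

/-- minimum of the modulus between two points -/
noncomputable def mn (d : ℝ → ℝ) (q x : ℝ) : ℝ := sInf ((fun t => |d t|) '' uIcc q x)

theorem mn_cont {d : ℝ → ℝ} (hd : Continuous d) (q : ℝ) : Continuous (mn d q) := by
  have : mn d q = fun x => sInf ((fun s => |d (AffineMap.lineMap q x s)|) '' Icc (0 : ℝ) 1) := by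
    funext x
    rw [mn, ← segment_eq_uIcc, segment_eq_image_lineMap, image_image]
  rw [this]
  refine isCompact_Icc.continuous_sInf ?_
  simp only [AffineMap.lineMap_apply, Function.HasUncurry.uncurry]
  fun_prop

theorem mn_spec {d : ℝ → ℝ} (hd : Continuous d) (q x : ℝ) :
    (∃ t ∈ uIcc q x, mn d q x = |d t|) ∧ ∀ t ∈ uIcc q x, mn d q x ≤ |d t| :=
  ⟨isCompact_uIcc.exists_sInf_image_eq nonempty_uIcc (by fun_prop), fun t ht =>
    csInf_le ⟨0, by rintro _ ⟨s, _, rfl⟩; exact abs_nonneg _⟩ ⟨t, ht, rfl⟩⟩

theorem prim_der {p d : ℝ → ℝ} (hp : Continuous p) (hd : Continuous d) {q x : ℝ}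
    (h : ∀ t ∈ uIcc q x, d t ≠ 0) :
    HasDerivAt (fun u => ∫ t in q..u, p t / d t) (p x / d x) x :=
  intervalIntegral.integral_hasDerivAt_right
    ((hp.continuousOn.div hd.continuousOn h).intervalIntegrable)
    (hp.measurable.div hd.measurable).stronglyMeasurable.stronglyMeasurableAtFilter
    (hp.continuousAt.div hd.continuousAt (h x right_mem_uIcc))

theorem num_cont {p d : ℝ → ℝ} (hp : Continuous p) (hd : Continuous d) (q : ℝ) :
    Continuous fun x => mn d q x ^ 2 * ∫ t in q..x, p t / d t := by
  refine continuous_iff_continuousAt.2 fun x => ?_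
  have hm := mn_cont hd q
  have h0 : ∀ y, 0 ≤ mn d q y := fun y => by
    obtain ⟨t, _, e⟩ := (mn_spec hd q y).1
    rw [e]
    exact abs_nonneg _
  rcases (h0 x).eq_or_lt with h | h
  · obtain ⟨K, hK⟩ := (isCompact_Icc (a := -(|q| + |x| + 1)) (b := |q| + |x| + 1)
      ).exists_bound_of_continuousOn hp.continuousOn
    have t : Tendsto (fun y => mn d q y * K * |y - q|) (𝓝 x) (𝓝 0) := by
      have : ContinuousAt (fun y => mn d q y * K * |y - q|) x := by fun_prop
      rw [ContinuousAt, ← h] at this
      simpa using this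
    rw [ContinuousAt, ← h]
    simp only [ne_eq, OfNat.ofNat_ne_zero, not_false_eq_true, zero_pow, zero_mul]
    refine squeeze_zero_norm' ?_ t
    filter_upwards [ContinuousAt.eventually_lt (f := fun t : ℝ => |t|) (g := fun _ => |x| + 1)
      (by fun_prop) (by fun_prop) (lt_add_one _)] with y hy
    rw [← intervalIntegral.integral_const_mul]
    refine intervalIntegral.norm_integral_le_of_norm_le_const fun s hs => ?_
    have hs2 := uIoc_subset_uIcc hs
    have h1 := (mn_spec hd q y).2 s hs2
    have h2 : ‖p s‖ ≤ K := by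
      apply hK
      have := abs_nonneg q
      have := abs_nonneg x
      have := le_abs_self q
      have := neg_abs_le q
      have := le_abs_self y
      have := neg_abs_le y
      rcases mem_uIcc.1 hs2 with c | c <;> constructor <;> linarith [c.1, c.2]
    have h3 := h0 y
    rw [norm_mul, norm_div, norm_pow, Real.norm_eq_abs, abs_of_nonneg h3, Real.norm_eq_abs (d s)]
    rcases h3.eq_or_lt with c | c
    · simp [← c]
    · have h4 : 0 < |d s| := c.trans_le h1
      calc _ = mn d q y * ‖p s‖ * (mn d q y / |d s|) := by ring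
        _ ≤ mn d q y * K * 1 := by
          gcongr
          · exact mul_nonneg c.le ((norm_nonneg _).trans h2)
          · exact (div_le_one h4).2 h1
        _ = _ := mul_one _
  · have := (prim_der hp hd (q := q) (x := x) fun t ht =>
      abs_pos.1 (h.trans_le ((mn_spec hd q x).2 t ht))).continuousAt
    exact (hm.continuousAt.pow 2).mul this

/-- the five generators -/
noncomputable def gen (g : ℝ → ℝ) : Fin 5 → ℝ → ℝ :=
  ![g, A, fun x => x + 1 / 2, hat fun z => 2 * z, hat g0]

/-- evaluation of a polynomial at the generators -/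
noncomputable def ev (g : ℝ → ℝ) (P : MvPolynomial (Fin 5) ℤ) (t : ℝ) : ℝ :=
  MvPolynomial.aeval (fun i => gen g i t) P

theorem gen_cont {g : ℝ → ℝ} (hg : Continuous g) (i : Fin 5) : Continuous (gen g i) := by
  fin_cases i
  · exact hg
  · exact A_cont
  · exact continuous_id.add continuous_const
  · exact hat_cont _
  · exact hat_cont _

theorem ev_cont {g : ℝ → ℝ} (hg : Continuous g) (P : MvPolynomial (Fin 5) ℤ) :
    Continuous (ev g P) := by
  unfold ev
  induction P using MvPolynomial.induction_on with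
  | C a => simpa using continuous_const
  | add p q hp hq => simp only [map_add]; exact hp.add hq
  | mul_X p i hp => simp only [map_mul, MvPolynomial.aeval_X]; exact hp.mul (gen_cont hg i)

theorem ev_congr {g g' : ℝ → ℝ} {t : ℝ} (h : g t = g' t) (P : MvPolynomial (Fin 5) ℤ) :
    ev g P t = ev g' P t := by
  have : (fun i => gen g i t) = fun i => gen g' i t := by
    funext i
    fin_cases i
    · exact h
    all_goals rfl
  rw [ev, ev, this]

/-- tasks -/
abbrev Task := MvPolynomial (Fin 5) ℤ × MvPolynomial (Fin 5) ℤ × ℚ × Bool × Bool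

/-- the quantity to be stored -/
noncomputable def Op (T : Task) (g : ℝ → ℝ) (z : ℝ) : ℝ :=
  mn (ev g T.2.1) T.2.2.1 (z - if T.2.2.2.2 then 1 / 2 else 0) ^ 2 *
    if T.2.2.2.1 then ∫ t in (T.2.2.1 : ℝ)..(z - if T.2.2.2.2 then 1 / 2 else 0),
      ev g T.1 t / ev g T.2.1 t else 1

theorem Op_cont (T : Task) {g : ℝ → ℝ} (hg : Continuous g) : Continuous (Op T g) := by
  obtain ⟨P, Q, q, b, c⟩ := T
  unfold Op
  cases b
  · have := mn_cont (ev_cont hg Q) q
    simp only [Bool.false_eq_true, if_false]
    fun_prop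
  · exact (num_cont (ev_cont hg P) (ev_cont hg Q) q).comp (continuous_id.sub continuous_const)

theorem Op_congr (T : Task) (g g' : ℝ → ℝ) (z : ℝ)
    (h : ∀ t, |t| ≤ |z| + |(T.2.2.1 : ℝ)| + 1 → g t = g' t) : Op T g z = Op T g' z := by
  obtain ⟨P, Q, q, b, c⟩ := T
  unfold Op
  simp only at h ⊢
  have hw : |z - if c then 1 / 2 else 0| ≤ |z| + 1 := by
    refine (abs_sub _ _).trans ?_
    split_ifs <;> norm_num
  generalize (z - if c then 1 / 2 else 0) = w at *
  have h1 : ∀ t ∈ uIcc (q : ℝ) w, g t = g' t := fun t ht => h t (by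
    have := abs_nonneg (q : ℝ)
    have := abs_nonneg z
    have := le_abs_self (q : ℝ)
    have := neg_abs_le (q : ℝ)
    have := le_abs_self w
    have := neg_abs_le w
    rw [abs_le]
    rcases mem_uIcc.1 ht with c | c <;> constructor <;> linarith [c.1, c.2])
  have e1 : mn (ev g Q) q w = mn (ev g' Q) q w := by
    unfold mn
    rw [image_congr fun t ht => by rw [ev_congr (h1 t ht)]]
  have e2 : ∫ t in (q : ℝ)..w, ev g P t / ev g Q t = ∫ t in (q : ℝ)..w, ev g' P t / ev g' Q t :=
    intervalIntegral.integral_congr fun t ht => by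
      simp only [ev_congr (h1 t ht)]
  rw [e1, e2]

theorem main : ∃ f, Continuous f ∧ ∀ T : Task, ∃ k : ℕ, ∀ x,
    A x * f ((hat fun z => 2 * z)^[k] (hat g0 x)) = A x ^ 2 * Op T f x := by
  classical
  have : Countable (MvPolynomial (Fin 5) ℤ) := AddMonoidAlgebra.coeff_injective.countable
  obtain ⟨e, he⟩ := exists_surjective_nat Task
  obtain ⟨f, hf, h⟩ := univ_fun (fun k g z =>
      if |((e (Nat.unpair k).1).2.2.1 : ℝ)| ≤ k then Op (e (Nat.unpair k).1) g z else 0) (by
    intro k g hg
    split_ifs
    · exact Op_cont _ hg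
    · exact continuous_const) (by
    intro k g g' z hz
    split_ifs with h1
    · exact Op_congr _ _ _ _ fun t ht => hz t (by linarith)
    · rfl)
  refine ⟨f, hf, fun T => ?_⟩
  obtain ⟨j, rfl⟩ := he T
  obtain ⟨N, hN⟩ := exists_nat_ge |((e j).2.2.1 : ℝ)|
  refine ⟨Nat.pair j N, fun x => ?_⟩
  rw [h, Nat.unpair_pair, if_pos (hN.trans (by exact_mod_cast Nat.right_le_pair j N))]

theorem fold_rep (f : ℝ → ℝ) (k : ℕ) (l : List (Fin 5)) (x : ℝ) :
    (List.replicate k 3 ++ l).foldr (fun j y => gen f j y) x =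
      (hat fun z => 2 * z)^[k] (l.foldr (fun j y => gen f j y) x) := by
  induction k with
  | zero => rfl
  | succ k ih =>
    rw [List.replicate_succ, List.cons_append, List.foldr_cons, ih, Function.iterate_succ_apply']
    rfl

/-- the decoding polynomial -/
noncomputable def dec (k l : ℕ) : MvPolynomial (Fin 5 × List (Fin 5)) ℤ :=
  MvPolynomial.X (1, []) * MvPolynomial.X (0, List.replicate k 3 ++ [4]) +
  MvPolynomial.X (1, [2]) * MvPolynomial.X (0, List.replicate l 3 ++ [4, 2])

theorem dec_ev (f : ℝ → ℝ) (k l : ℕ) (x : ℝ) : MvPolynomial.aeval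
    (fun v : Fin 5 × List (Fin 5) => gen f v.1 (v.2.foldr (fun j y => gen f j y) x)) (dec k l) =
    A x * f ((hat fun z => 2 * z)^[k] (hat g0 x)) +
    A (x + 1 / 2) * f ((hat fun z => 2 * z)^[l] (hat g0 (x + 1 / 2))) := by
  simp only [dec, map_add, map_mul, MvPolynomial.aeval_X, fold_rep]
  rfl


/-- The negation of the preceding statement: For any continuous f_1..f_n not all zero there are a rational combination R of them, defined on an open interval I, such that no antiderivative of R on I equals on I a rational combination of superpositions of the f_i. -/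
theorem result :
    ¬ (∀ n : ℕ, ∀ f : Fin n → ℝ → ℝ, (∀ i, Continuous (f i)) → (∃ i x, f i x ≠ 0) →
      ∃ (R : ℝ → ℝ) (I : Set ℝ), IsOpen I ∧ I.OrdConnected ∧ I.Nonempty ∧
        (∃ P Q : MvPolynomial (Fin n) ℤ, MvPolynomial.constantCoeff P = 0 ∧
          ((∀ x ∈ I, R x = MvPolynomial.aeval (fun i => f i x) P) ∨
           (MvPolynomial.constantCoeff Q = 0 ∧
             ∀ x ∈ I, MvPolynomial.aeval (fun i => f i x) Q ≠ 0 ∧
               R x = MvPolynomial.aeval (fun i => f i x) P /
                 MvPolynomial.aeval (fun i => f i x) Q))) ∧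
        ¬ ∃ F : ℝ → ℝ, (∀ x ∈ I, HasDerivAt F (R x) x) ∧
          ∃ P Q : MvPolynomial (Fin n × List (Fin n)) ℤ, MvPolynomial.constantCoeff P = 0 ∧
            ((∀ x ∈ I, F x =
                MvPolynomial.aeval
                  (fun v : Fin n × List (Fin n) => f v.1 (v.2.foldr (fun j y => f j y) x)) P) ∨
             (MvPolynomial.constantCoeff Q = 0 ∧
               ∀ x ∈ I,
                 MvPolynomial.aeval
                   (fun v : Fin n × List (Fin n) => f v.1 (v.2.foldr (fun j y => f j y) x)) Q ≠ 0 ∧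
                 F x =
                   MvPolynomial.aeval
                     (fun v : Fin n × List (Fin n) => f v.1 (v.2.foldr (fun j y => f j y) x)) P /
                   MvPolynomial.aeval
                     (fun v : Fin n × List (Fin n) => f v.1 (v.2.foldr (fun j y => f j y) x)) Q))) := by
  intro H
  obtain ⟨f, hf, hm⟩ := main
  obtain ⟨R, I, hI, hoc, hne, ⟨P, Q, -, hR⟩, hno⟩ := H 5 (gen f) (gen_cont hf)
    ⟨2, 0, by simp [gen]⟩
  obtain ⟨Q, hQ⟩ : ∃ Q, ∀ x ∈ I, ev f Q x ≠ 0 ∧ R x = ev f P x / ev f Q x := by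
    rcases hR with h | h
    · exact ⟨1, fun x hx => by simp [ev, h x hx]⟩
    · exact ⟨Q, h.2⟩
  obtain ⟨q, hq⟩ := Rat.denseRange_cast.exists_mem_open hI hne
  obtain ⟨k1, h1⟩ := hm (P, Q, q, true, false)
  obtain ⟨k2, h2⟩ := hm (P, Q, q, true, true)
  obtain ⟨k3, h3⟩ := hm (P, Q, q, false, false)
  obtain ⟨k4, h4⟩ := hm (P, Q, q, false, true)
  have hd : ∀ x ∈ I, ∀ t ∈ uIcc (q : ℝ) x, ev f Q t ≠ 0 := fun x hx t ht =>
    (hQ t (hoc.uIcc_subset hq hx ht)).1
  refine hno ⟨fun u => ∫ t in (q : ℝ)..u, ev f P t / ev f Q t, fun x hx => ?_, dec k1 k2,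
    dec k3 k4, by simp [dec], Or.inr ⟨by simp [dec], fun x hx => ?_⟩⟩
  · rw [(hQ x hx).2]
    exact prim_der (ev_cont hf P) (ev_cont hf Q) (hd x hx)
  · rw [dec_ev, dec_ev, h1, h2, h3, h4]
    have p1 := A_pos x
    have p2 : mn (ev f Q) q x ≠ 0 := by
      obtain ⟨t, ht, e⟩ := (mn_spec (ev_cont hf Q) q x).1
      rw [e]
      exact abs_ne_zero.2 (hd x hx t ht)
    simp only [Op, if_true, Bool.false_eq_true, if_false, sub_zero, add_sub_cancel_right, mul_one]
    rw [← add_mul, ← add_mul]
    refine ⟨by positivity, ?_⟩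
    generalize A x ^ 2 + A (x + 1 / 2) ^ 2 = w at *
    field_simp

end Pool.Agent.S05072
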