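import Pool.Statements.S05086

set_option autoImplicit false
open Pool Pool.MP_7697ea_an

namespace Pool.Agent.S05086

def ff : ℕ → ℝ
  | 0 => 1 | 1 => 66 | 2 => 1575 | 3 => 16120 | 4 => 67215 | 5 => 144906 | 6 => 178361
  | 7 => 127260 | 8 => 49200 | 9 => 8000 | _ => 0

def Q : Cubic ℝ := ⟨218806763880902400, 1115198044734009600, 1882885828825612800,
  1055433589762406400⟩

lemma poch (a : ℕ) (x : ℂ) : (ascPochhammer ℂ a).eval x = ∏ i ∈ Finset.range a, (x + i) := by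
  induction a with
  | zero => simp
  | succ a ih => rw [ascPochhammer_succ_eval, ih, Finset.prod_range_succ]

lemma lst : List.Nat.antidiagonalTuple 3 9 = [![0, 0, 9], ![0, 1, 8], ![0, 2, 7], ![0, 3, 6], ![0, 4, 5], ![0, 5, 4], ![0, 6, 3], ![0, 7, 2], ![0, 8, 1], ![0, 9, 0], ![1, 0, 8], ![1, 1, 7], ![1, 2, 6], ![1, 3, 5], ![1, 4, 4], ![1, 5, 3], ![1, 6, 2], ![1, 7, 1], ![1, 8, 0], ![2, 0, 7], ![2, 1, 6], ![2, 2, 5], ![2, 3, 4], ![2, 4, 3], ![2, 5, 2], ![2, 6, 1], ![2, 7, 0], ![3, 0, 6], ![3, 1, 5], ![3, 2, 4], ![3, 3, 3], ![3, 4, 2], ![3, 5, 1], ![3, 6, 0], ![4, 0, 5], ![4, 1, 4], ![4, 2, 3], ![4, 3, 2], ![4, 4, 1], ![4, 5, 0], ![5, 0, 4], ![5, 1, 3], ![5, 2, 2], ![5, 3, 1], ![5, 4, 0], ![6, 0, 3], ![6, 1, 2], ![6, 2, 1], ![6, 3, 0], ![7, 0, 2], ![7, 1, 1], ![7, 2, 0], ![8, 0, 1], ![8, 1, 0], ![9, 0, 0]] := by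
  decide

noncomputable def term (z : ℂ) (k : Fin 3 → ℕ) : ℂ :=
  (Nat.multinomial Finset.univ k : ℂ) * (∏ i, (ff (k i) : ℂ)) *
    Matrix.det (Matrix.of (fun i j : Fin 3 =>
      (ascPochhammer ℂ (k i)).eval (z + ((j : ℕ) : ℂ) - ((i : ℕ) : ℂ))))

noncomputable def R (a : ℕ) (x : ℂ) : ℂ := ∏ i ∈ Finset.range a, (x + i)

lemma term_eq (z : ℂ) (a b c : ℕ) : term z ![a, b, c] =
    (((a + b + c).factorial / (a.factorial * b.factorial * c.factorial) : ℕ) : ℂ) *
      ((ff a : ℂ) * ff b * ff c) *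
      (R a z * R b z * R c z - R a z * R b (z + 1) * R c (z - 1) -
        R a (z + 1) * R b (z - 1) * R c z + R a (z + 1) * R b (z + 1) * R c (z - 2) +
        R a (z + 2) * R b (z - 1) * R c (z - 1) - R a (z + 2) * R b z * R c (z - 2)) := by
  have e1 : z + 2 - 1 = z + 1 := by ring
  have e2 : z + 1 - 2 = z - 1 := by ring
  simp [term, Nat.multinomial, Fin.sum_univ_three, Fin.prod_univ_three, Matrix.det_fin_three,
    poch, R, e1, e2]

lemma key (z : ℂ) : ∑ k ∈ Finset.Nat.antidiagonalTuple 3 9, term z k =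
    (Q.a : ℂ) * z ^ 3 + Q.b * z ^ 2 + Q.c * z + Q.d := by
  change ((List.Nat.antidiagonalTuple 3 9).map (term z)).sum = _
  rw [lst]
  simp only [List.map_cons, List.map_nil, List.sum_cons, List.sum_nil, term_eq]
  norm_num [ff, Q, Nat.factorial, R, Finset.prod_range_succ]
  ring

theorem result :
    ¬ (∀ (n : ℕ) (f : ℕ → ℝ), f n ≠ 0 →
      (∀ z : ℂ, ∑ k ∈ Finset.range (n + 1), (f k : ℂ) * z ^ k = 0 → z.im = 0 ∧ z.re < 0) →
      ∀ r : ℕ, 2 ≤ r →
        (∃ w : ℂ, ∑ k ∈ Finset.Nat.antidiagonalTuple r n,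
            (Nat.multinomial Finset.univ k : ℂ) * (∏ i, (f (k i) : ℂ)) *
              Matrix.det (Matrix.of (fun i j : Fin r =>
                (ascPochhammer ℂ (k i)).eval (w + ((j : ℕ) : ℂ) - ((i : ℕ) : ℂ)))) ≠ 0) →
        ∀ z : ℂ, ∑ k ∈ Finset.Nat.antidiagonalTuple r n,
            (Nat.multinomial Finset.univ k : ℂ) * (∏ i, (f (k i) : ℂ)) *
              Matrix.det (Matrix.of (fun i j : Fin r =>
                (ascPochhammer ℂ (k i)).eval (z + ((j : ℕ) : ℂ) - ((i : ℕ) : ℂ)))) = 0 →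
          z.im = 0 ∧ z.re < 0) := by
  intro h
  have h1 := h 9 ff (by norm_num [ff]) (by
    intro z hz
    have : ∑ k ∈ Finset.range (9 + 1), (ff k : ℂ) * z ^ k = (1 + z) ^ 6 * (1 + 20 * z) ^ 3 := by
      simp [Finset.sum_range_succ, ff]
      ring
    rw [this, mul_eq_zero] at hz
    rcases hz with hz | hz
    · have : z = -1 := by linear_combination pow_eq_zero_iff (n := 6) (by norm_num) |>.1 hz
      subst this; simp
    · have : z = -1 / 20 := by
        linear_combination (pow_eq_zero_iff (n := 3) (by norm_num) |>.1 hz) / 20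
      subst this; norm_num) 3 (by norm_num) ⟨0, by
        have := key 0
        unfold term at this
        rw [this]; norm_num [Q]⟩
  have h2 : ∀ z : ℂ, (Q.a : ℂ) * z ^ 3 + Q.b * z ^ 2 + Q.c * z + Q.d = 0 → z.im = 0 := by
    intro z hz
    rw [← key] at hz
    exact (h1 z hz).1
  have ha : Q.a ≠ 0 := by norm_num [Q]
  obtain ⟨x, y, z, h3⟩ := (Cubic.splits_iff_roots_eq_three (φ := algebraMap ℝ ℂ) ha).1
    (IsAlgClosed.splits _)
  have h0 : (Cubic.map (algebraMap ℝ ℂ) Q).toPoly ≠ 0 :=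
    Cubic.ne_zero_of_a_ne_zero (by simpa [Cubic.map] using ha)
  have hr : ∀ w ∈ ({x, y, z} : Multiset ℂ), w = (w.re : ℂ) := by
    intro w hw
    rw [← h3, Cubic.mem_roots_iff h0] at hw
    exact Complex.ext rfl (by simpa using h2 w hw)
  have hd := Cubic.discr_eq_prod_three_roots ha h3
  rw [hr x (by simp), hr y (by simp), hr z (by simp)] at hd
  have hd' : Q.discr = (Q.a * Q.a * (x.re - y.re) * (x.re - z.re) * (y.re - z.re)) ^ 2 := by
    simp only [Complex.coe_algebraMap] at hd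
    exact_mod_cast hd
  have hneg : Q.discr < 0 := by norm_num [Cubic.discr, Q]
  rw [hd'] at hneg
  exact absurd hneg (not_lt.2 (sq_nonneg _))

end Pool.Agent.S05086
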