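import Pool.Statements.S05106
-- import your own Pool.Agent.* helpers here

set_option autoImplicit false
open Pool Pool.MP_7987d1_an

namespace Pool.Agent.S05106

/-- The negation of the preceding statement: For 1≤n≤8, every C² solution of Δu−u_t=u³−u for t<0 with ∣u∣≤1, ∂u/∂x_n>0 and u_t≥0 has the form u(x,t)=g(ν·x) for a unit vector ν, i.e. is one-dimensional and time-independent. -/
theorem result :
    ¬ (∀ m : ℕ, m + 1 ≤ 8 → ∀ u : EuclideanSpace ℝ (Fin (m + 1)) × ℝ → ℝ,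
    ContDiffOn ℝ 2 u {p | p.2 < 0} →
    (∀ x : EuclideanSpace ℝ (Fin (m + 1)), ∀ t : ℝ, t < 0 →
      |u (x, t)| ≤ 1 ∧
      (∑ i : Fin (m + 1), iteratedFDeriv ℝ 2 (fun y => u (y, t)) x
          (fun _ => EuclideanSpace.single i (1 : ℝ)))
        - deriv (fun s => u (x, s)) t = u (x, t) ^ 3 - u (x, t) ∧
      0 < fderiv ℝ (fun y => u (y, t)) x (EuclideanSpace.single (Fin.last m) (1 : ℝ)) ∧
      0 ≤ deriv (fun s => u (x, s)) t) →
    ∃ ν : EuclideanSpace ℝ (Fin (m + 1)), ‖ν‖ = 1 ∧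
      ∃ g : ℝ → ℝ, ∀ x : EuclideanSpace ℝ (Fin (m + 1)), ∀ t : ℝ, t < 0 →
        u (x, t) = g (inner ℝ ν x)) := by
  intro h
  set a : ℝ := Real.sqrt 2 / 2 with ha
  have a2 : a ^ 2 = 1 / 2 := by
    rw [ha, div_pow, Real.sq_sqrt (by norm_num)]; norm_num
  have ap : 0 < a := by positivity
  let L : EuclideanSpace ℝ (Fin (0 + 1)) →L[ℝ] ℝ := EuclideanSpace.proj (𝕜 := ℝ) 0
  have c : ∀ (t : ℝ) (x : EuclideanSpace ℝ (Fin (0 + 1))),
      HasFDerivAt (fun y : EuclideanSpace ℝ (Fin (0 + 1)) => a * y 0 + 3 / 2 * t) (a • L) x :=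
    fun t x => (L.hasFDerivAt.const_mul a).add_const _
  have d1 : ∀ (t : ℝ), fderiv ℝ (fun y : EuclideanSpace ℝ (Fin (0 + 1)) =>
      Real.sigmoid (a * y 0 + 3 / 2 * t)) = fun x => (Real.sigmoid (a * x 0 + 3 / 2 * t) *
        (1 - Real.sigmoid (a * x 0 + 3 / 2 * t))) • (a • L) := fun t => by
    ext1 x
    exact ((Real.hasDerivAt_sigmoid _).comp_hasFDerivAt x (c t x)).fderiv
  have dt : ∀ (x : EuclideanSpace ℝ (Fin (0 + 1))) (t : ℝ),
      HasDerivAt (fun s => Real.sigmoid (a * x 0 + 3 / 2 * s))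
      (Real.sigmoid (a * x 0 + 3 / 2 * t) * (1 - Real.sigmoid (a * x 0 + 3 / 2 * t)) * (3 / 2)) t :=
    fun x t => ((Real.hasDerivAt_sigmoid _).comp t
      (((hasDerivAt_id t).const_mul (3 / 2)).const_add (a * x 0))).congr_deriv (by simp)
  obtain ⟨ν, -, g, hg⟩ := h 0 (by norm_num) (fun p => Real.sigmoid (a * p.1 0 + 3 / 2 * p.2))
    (((contDiff_sigmoid.of_le le_top).comp (by fun_prop)).contDiffOn) (fun x t _ => by
      have s0 := Real.sigmoid_pos (a * x 0 + 3 / 2 * t)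
      have s1 := Real.sigmoid_lt_one (a * x 0 + 3 / 2 * t)
      have s2 : 0 < 1 - Real.sigmoid (a * x 0 + 3 / 2 * t) := by linarith
      refine ⟨by rw [abs_of_pos s0]; exact s1.le, ?_, ?_, ?_⟩
      · simp only [iteratedFDeriv_two_apply, d1, (dt x t).deriv]
        have e := (Real.hasDerivAt_sigmoid _).comp_hasFDerivAt x (c t x)
        have e2 := (e.mul (e.const_sub 1)).smul_const (a • L)
        have e3 : fderiv ℝ (fun x : EuclideanSpace ℝ (Fin (0 + 1)) =>
          (Real.sigmoid (a * x 0 + 3 / 2 * t) *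
            (1 - Real.sigmoid (a * x 0 + 3 / 2 * t))) • (a • L)) x = _ := e2.fderiv
        rw [e3]
        simp [L]
        linear_combination (Real.sigmoid (a * x 0 + 3 / 2 * t) *
          (1 - Real.sigmoid (a * x 0 + 3 / 2 * t)) * (1 - 2 * Real.sigmoid (a * x 0 + 3 / 2 * t))) * a2
      · simp only [d1]
        simp [L]
        positivity
      · simp only [(dt x t).deriv]
        positivity)
  have h1 := hg 0 (-1) (by norm_num)
  have h2 := hg 0 (-2) (by norm_num)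
  rw [← h2] at h1
  have := Real.sigmoid_injective h1
  norm_num at this

end Pool.Agent.S05106
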