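import Pool.Statements.S05212
import Pool.Agent.Lib.helper23.NullSeries

set_option autoImplicit false
open Real
open Pool Pool.MP_807847_an

namespace Pool.Agent.S05212

section
open Pool.Agent.Lib.helper23.NullSeries MeasureTheory Finset Filter Topology

theorem four (n : ℤ) (s : ℝ) : fourier n (s : AddCircle (2 * π)) = Complex.exp (n * s * Complex.I) := by
  have : (π : ℂ) ≠ 0 := by exact_mod_cast pi_ne_zero
  rw [fourier_coe_apply]; congr 1; push_cast; field_simp

theorem four2 (n : ℤ) (s : ℝ) : fourier n (s : AddCircle (2 * π)) +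
    fourier n ((-s : ℝ) : AddCircle (2 * π)) = (2 * cos (n.natAbs * s) : ℝ) := by
  have : cos (n.natAbs * s) = cos (n * s) := by
    rw [Nat.cast_natAbs, Int.cast_abs, ← cos_abs (n * s), ← cos_abs (|(n : ℝ)| * s), abs_mul, abs_mul,
      abs_abs]
  rw [four, four, this]; push_cast; rw [Complex.two_cos]; congr 2; ring

theorem psum (B : ℕ → ℝ) (h0 : B 0 = 0) (s : ℝ) (N : ℕ) :
    ∑ n ∈ Icc (-(N : ℤ)) (N : ℤ), (if n = 0 then 2 else (B n.natAbs : ℂ)) *
      fourier n (s : AddCircle (2 * π)) = (2 * P B (N + 1) s : ℝ) := by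
  induction N with
  | zero => simp [P, h0]
  | succ N ih =>
    have e : Icc (-((N + 1 : ℕ) : ℤ)) (N + 1 : ℕ) = insert (-((N + 1 : ℕ) : ℤ))
        (insert ((N + 1 : ℕ) : ℤ) (Icc (-(N : ℤ)) N)) := by
      ext k; simp only [mem_Icc, mem_insert]; omega
    have f := four2 (N + 1 : ℕ) s
    rw [four _ (-s)] at f
    rw [e, sum_insert (by simp only [mem_Icc, mem_insert]; omega),
      sum_insert (by simp only [mem_Icc]; omega), ih, if_neg (by omega), if_neg (by omega),
      Int.natAbs_neg, Int.natAbs_natCast, P, P, sum_range_succ _ (N + 1), four (-_)]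
    rw [Int.natAbs_natCast] at f
    push_cast at f ⊢
    rw [show -((N : ℂ) + 1) * s = (N + 1) * -s by ring]
    linear_combination (B (N + 1) : ℂ) * f

noncomputable def mu : Measure (AddCircle (2 * π)) := Measure.sum fun j =>
  ENNReal.ofReal ((7 / 8) ^ j) • (Measure.dirac ((τ j : ℝ) : AddCircle (2 * π)) +
    Measure.dirac ((-τ j : ℝ) : AddCircle (2 * π)))

theorem mu_fin : IsFiniteMeasure mu := ⟨by
  have := ((summable_geometric_of_lt_one (r := (7 / 8 : ℝ)) (by norm_num)
    (by norm_num)).tsum_ofReal_ne_top).lt_top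
  simp only [mu, Measure.sum_apply _ MeasurableSet.univ, Measure.smul_apply, Measure.add_apply,
    measure_univ, smul_eq_mul, ENNReal.tsum_mul_right]
  exact ENNReal.mul_lt_top this (by simp)⟩

theorem mu_hat (n : ℤ) : ∫ t, fourier n t ∂mu = (2 * m n.natAbs : ℝ) := by
  have := mu_fin
  have : Fact (0 < 2 * π) := ⟨two_pi_pos⟩
  have i : ∀ (ν : Measure (AddCircle (2 * π))) [IsFiniteMeasure ν], Integrable (fourier n) ν :=
    fun ν _ => (fourier n).continuous.integrable_of_hasCompactSupport (.of_compactSpace _)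
  rw [mu, integral_sum_measure (i mu), m, ← tsum_mul_left, Complex.ofReal_tsum]
  refine tsum_congr fun j => ?_
  rw [integral_smul_measure, integral_add_measure (i _) (i _), integral_dirac, integral_dirac, four2,
    ENNReal.toReal_ofReal (by positivity), Complex.real_smul]
  push_cast; ring

theorem tau0 : Tendsto τ atTop (𝓝 0) :=
  tendsto_const_nhds.div_atTop (tendsto_natCast_atTop_atTop.comp
    Nat.fermatNumber_strictMono.tendsto_atTop)

end

/-- The negation of the preceding statement: If a_n → 0, the symmetric partial sums of ∑ a_n e^{int} tend to 0 on a closed set F of the circle, and μ is a finite positive measure carried by F with ∑∣μ̂(n)∣∣a_{-n}∣ finite, then ∑ μ̂(n) a_{-n} = 0. -/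
theorem result :
    ¬ (∀ (a : ℤ → ℂ) (F : Set (AddCircle (2 * π))) (μ : MeasureTheory.Measure (AddCircle (2 * π))),
      Filter.Tendsto a Filter.cofinite (nhds 0) →
      IsClosed F →
      (∀ t ∈ F, Filter.Tendsto
        (fun N : ℕ => ∑ n ∈ Finset.Icc (-(N : ℤ)) (N : ℤ), a n * fourier n t)
        Filter.atTop (nhds 0)) →
      MeasureTheory.IsFiniteMeasure μ →
      μ Fᶜ = 0 →
      Summable (fun n : ℤ => ‖∫ t, fourier (-n) t ∂μ‖ * ‖a (-n)‖) →
      ∑' n : ℤ, (∫ t, fourier (-n) t ∂μ) * a (-n) = 0) := by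
  open Pool.Agent.Lib.helper23.NullSeries MeasureTheory Filter Topology in
  intro H
  obtain ⟨B, h0, h1, h2, h3⟩ := main
  have c : Continuous fun s : ℝ => (s : AddCircle (2 * π)) := AddCircle.continuous_mk' _
  have sm : Summable fun n => |B n| * |m n| :=
    summable_of_sum_range_le (fun n => by positivity) h2
  have sm2 : ∀ n : ℕ, n ≠ 0 → ‖((2 * m n : ℝ) : ℂ)‖ * ‖(B n : ℂ)‖ = 2 * (|B n| * |m n|) := fun n _ => by
    rw [Complex.norm_real, Complex.norm_real, norm_eq_abs, norm_eq_abs, abs_mul, abs_two]; ring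
  have S : Summable fun n : ℤ => ‖∫ t, fourier (-n) t ∂mu‖ *
      ‖if -n = 0 then 2 else (B (-n).natAbs : ℂ)‖ := by
    have : Summable fun n : ℕ => ‖((2 * m (n + 1) : ℝ) : ℂ)‖ * ‖(B (n + 1) : ℂ)‖ := by
      simpa only [sm2 _ (Nat.succ_ne_zero _)] using ((summable_nat_add_iff 1).2 sm).mul_left 2
    refine .of_nat_of_neg ((summable_nat_add_iff 1).1 (this.congr fun n => ?_))
      ((summable_nat_add_iff 1).1 (this.congr fun n => ?_))
    · rw [mu_hat, if_neg (by omega), Int.natAbs_neg, Int.natAbs_natCast]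
    · rw [mu_hat, if_neg (by omega), neg_neg, Int.natAbs_natCast]
  have := H (fun n => if n = 0 then 2 else (B n.natAbs : ℂ))
    (insert ((0 : ℝ) : AddCircle (2 * π)) (Set.range fun j => ((τ j : ℝ) : AddCircle (2 * π))) ∪
      insert ((-0 : ℝ) : AddCircle (2 * π)) (Set.range fun j => ((-τ j : ℝ) : AddCircle (2 * π))))
    mu ?_ ((((c.tendsto _).comp tau0).isCompact_insert_range.union
      ((c.tendsto _).comp tau0.neg).isCompact_insert_range).isClosed) ?_ mu_fin ?_ S
  · have a := (Summable.of_norm (by simpa only [norm_mul] using S) : Summable fun n : ℤ =>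
      (∫ t, fourier (-n) t ∂mu) * if -n = 0 then 2 else (B (-n).natAbs : ℂ)).hasSum
    rw [this] at a
    have b := (hasSum_nat_add_iff' 1).2 a.nat_add_neg
    simp only [mu_hat, Finset.range_one, Finset.sum_singleton, neg_neg, Int.natAbs_neg,
      Int.natAbs_natCast, neg_eq_zero, Nat.cast_eq_zero, Nat.add_eq_zero_iff, one_ne_zero,
      and_false, if_false, if_true, Int.natAbs_zero] at b
    have m0 : m 0 = 8 := by
      simp only [m, Nat.cast_zero, zero_mul, cos_zero, mul_one]
      rw [tsum_geometric_of_lt_one (by norm_num) (by norm_num)]; norm_num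
    have d := b.norm_le_of_bounded (((summable_nat_add_iff 1).2 sm).mul_left 4).hasSum fun n => by
      refine (norm_add_le _ _).trans ?_
      rw [norm_mul, sm2 _ n.succ_ne_zero]; linarith
    have e : ∑' n, |B (n + 1)| * |m (n + 1)| ≤ 1 := by
      have := sm.sum_add_tsum_nat_add 1
      have := sm.tsum_le_of_sum_range_le h2
      simp only [Finset.range_one, Finset.sum_singleton, h0, abs_zero, zero_mul] at *
      linarith
    rw [tsum_mul_left, m0] at d
    norm_num at d
    linarith
  · refine (((Complex.continuous_ofReal.tendsto 0).comp h1).comp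
      (Nat.cofinite_eq_atTop ▸ Tendsto.cofinite_of_finite_preimage_singleton
        (f := Int.natAbs) fun n => ((Set.finite_Icc (-(n : ℤ)) n).subset fun k hk => by
          have : k.natAbs = n := hk
          constructor <;> omega))).congr' ?_
    filter_upwards [eventually_cofinite_ne 0] with n hn using (if_neg hn).symm
  · have k : ∀ l s, G l s → ∀ s', (∀ n : ℕ, cos (n * s') = cos (n * s)) → Tendsto
        (fun N : ℕ => ∑ n ∈ Finset.Icc (-(N : ℤ)) (N : ℤ), (if n = 0 then 2 else (B n.natAbs : ℂ)) *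
          fourier n (s' : AddCircle (2 * π))) atTop (𝓝 0) := fun l s hs s' h => by
      simp only [psum B h0, P, h]
      simpa [P, Function.comp_def] using (Complex.continuous_ofReal.tendsto _).comp
        (((h3 l s hs).comp (tendsto_add_atTop_nat 1)).const_mul 2)
    rintro _ ((rfl | ⟨j, rfl⟩) | rfl | ⟨j, rfl⟩)
    · exact k 0 0 (.inl rfl) _ fun _ => rfl
    · exact k (j + 1) _ (.inr ⟨j, j.lt_succ_self, rfl⟩) _ fun _ => rfl
    · exact k 0 0 (.inl rfl) _ fun _ => by simp
    · exact k (j + 1) _ (.inr ⟨j, j.lt_succ_self, rfl⟩) _ fun _ => by simp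
  · simp only [mu, Measure.sum_apply_eq_zero, Measure.smul_apply, Measure.add_apply]
    intro j
    rw [Measure.dirac_apply, Measure.dirac_apply, Set.indicator_of_notMem (by simp),
      Set.indicator_of_notMem (by simp)]
    simp

end Pool.Agent.S05212
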