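import Pool.Statements.S05214
-- import your own Pool.Agent.* helpers here

set_option autoImplicit false
open Pool Pool.MP_80a07b_an

namespace Pool.Agent.S05214

theorem dyn {H Ω : Type*} [Group H] [Infinite H] [TopologicalSpace Ω] [T2Space Ω]
    (act : H → Ω → Ω) (hmul : ∀ g h y, act (g * h) y = act g (act h y))
    (hc : ∀ g, Continuous (act g)) (W : Set Ω) (hW : IsCompact W) (hne : W.Nonempty)
    (hinv : ∀ g, ∀ y ∈ W, act g y ∈ W) {ι : Type*} [Countable ι] (B : ι → Set Ω)
    (hB : ∀ i, IsClosed (B i)) (hcov : W ⊆ ⋃ i, B i) :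
    ∃ i, ∃ g : H, g ≠ 1 ∧ ∃ y ∈ W, y ∈ B i ∧ act g y ∈ B i := by
  classical
  let S : Set (Set Ω) := {M | M ⊆ W ∧ M.Nonempty ∧ IsClosed M ∧ ∀ g, ∀ y ∈ M, act g y ∈ M}
  obtain ⟨M, -, hM⟩ := zorn_superset_nonempty S (by
    intro c hcS hchain hcne
    refine ⟨⋂₀ c, ⟨?_, ?_, ?_, ?_⟩, fun s hs => Set.sInter_subset_of_mem hs⟩
    · obtain ⟨s, hs⟩ := hcne
      exact (Set.sInter_subset_of_mem hs).trans (hcS hs).1
    · haveI : Nonempty c := hcne.to_subtype
      refine IsCompact.nonempty_sInter_of_directed_nonempty_isCompact_isClosed ?_ ?_ ?_ ?_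
      · intro a ha b hb
        rcases hchain.total ha hb with h | h
        · exact ⟨a, ha, subset_rfl, h⟩
        · exact ⟨b, hb, h, subset_rfl⟩
      · intro U hU; exact (hcS hU).2.1
      · intro U hU; exact hW.of_isClosed_subset (hcS hU).2.2.1 (hcS hU).1
      · intro U hU; exact (hcS hU).2.2.1
    · exact isClosed_sInter fun t ht => (hcS ht).2.2.1
    · intro g y hy t ht
      exact (hcS ht).2.2.2 g y (hy t ht)) W ⟨subset_rfl, hne, hW.isClosed, hinv⟩
  obtain ⟨hMW, hMne, hMc, hMinv⟩ := hM.prop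
  have hMK : IsCompact M := hW.of_isClosed_subset hMc hMW
  have hdense : ∀ z ∈ M, M ⊆ closure (Set.range fun g => act g z) := by
    intro z hz
    have h1 : closure (Set.range fun g => act g z) ⊆ M :=
      closure_minimal (by rintro _ ⟨g, rfl⟩; exact hMinv g z hz) hMc
    refine hM.le_of_le ⟨h1.trans hMW, ⟨_, subset_closure ⟨1, rfl⟩⟩, isClosed_closure, ?_⟩ h1
    intro g y hy
    refine map_mem_closure (hc g) hy ?_
    rintro _ ⟨h, rfl⟩
    exact ⟨g * h, hmul g h z⟩
  haveI : CompactSpace M := isCompact_iff_compactSpace.mp hMK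
  haveI : Nonempty M := hMne.to_subtype
  obtain ⟨i, y, hy⟩ := nonempty_interior_of_iUnion_of_closed
    (f := fun i => (Subtype.val ⁻¹' B i : Set M))
    (fun i => (hB i).preimage continuous_subtype_val) (by
      ext y
      simp only [Set.mem_iUnion, Set.mem_preimage, Set.mem_univ, iff_true]
      exact Set.mem_iUnion.mp (hcov (hMW y.2)))
  obtain ⟨U, hUs, hUo, hyU⟩ := mem_interior.mp hy
  obtain ⟨V, hVo, rfl⟩ := isOpen_induced_iff.mp hUo
  refine ⟨i, ?_⟩
  by_contra hcon
  push Not at hcon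
  have hcovM : M ⊆ ⋃ g : H, act g ⁻¹' V := by
    intro z hz
    obtain ⟨_, hV, ⟨g, rfl⟩⟩ := mem_closure_iff.mp (hdense z hz y.2) V hVo hyU
    exact Set.mem_iUnion.mpr ⟨g, hV⟩
  obtain ⟨T, hT⟩ := hMK.elim_finite_subcover _ (fun g => hVo.preimage (hc g)) hcovM
  obtain ⟨k, hk⟩ := Infinite.exists_notMem_finset (T.image fun t => t⁻¹)
  obtain ⟨t, htT, ht⟩ := Set.mem_iUnion₂.mp (hT (hMinv k y y.2))
  have h1 : t * k ≠ 1 := by
    intro h
    apply hk
    exact Finset.mem_image.mpr ⟨t, htT, (eq_inv_of_mul_eq_one_right h).symm⟩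
  refine hcon (t * k) h1 y (hMW y.2) (hUs hyU) ?_
  have h2 : act (t * k) y ∈ M := hMinv _ _ y.2
  have h3 : (⟨_, h2⟩ : M) ∈ Subtype.val ⁻¹' V := by
    show act (t * k) y ∈ V
    rw [hmul]; exact ht
  exact hUs h3

section
variable {X : Type} [NormedAddCommGroup X] [NormedSpace ℝ X]

noncomputable def un (y : WeakSpace ℝ X) : X := (toWeakSpace ℝ X).symm y

theorem wclosed (s : Set X) (hs : Convex ℝ s) (hc : IsClosed s) :
    IsClosed {y : WeakSpace ℝ X | un y ∈ s} := by
  have h := hs.toWeakSpace_closure ℝ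
  rw [hc.closure_eq] at h
  have h2 : {y : WeakSpace ℝ X | un y ∈ s} = toWeakSpace ℝ X '' s := by
    ext y
    constructor
    · intro hy; exact ⟨un y, hy, rfl⟩
    · rintro ⟨x, hx, rfl⟩; exact hx
  rw [h2, h]; exact isClosed_closure

theorem wcompact (hrefl : ∀ φ : (X →L[ℝ] ℝ) →L[ℝ] ℝ, ∃ x : X, ∀ f : X →L[ℝ] ℝ, φ f = f x)
    (R : ℝ) : IsCompact {y : WeakSpace ℝ X | un y ∈ Metric.closedBall (0 : X) R} := by
  have h := NormedSpace.isCompact_closure_of_isBounded ℝ X
    {y : WeakSpace ℝ X | un y ∈ Metric.closedBall (0 : X) R} Metric.isBounded_closedBall (by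
      intro φ _
      obtain ⟨x, hx⟩ := hrefl (WeakDual.toStrongDual φ)
      refine ⟨toWeakSpace ℝ X x, ?_⟩
      apply WeakDual.toStrongDual.injective
      ext f
      exact (hx f).symm)
  rwa [(wclosed _ (convex_closedBall _ _) Metric.isClosed_closedBall).closure_eq] at h

theorem wcont (F : X →L[ℝ] X) (s : Finset X) (hF : ∀ x, F x ∈ Submodule.span ℝ (s : Set X)) :
    Continuous fun y : WeakSpace ℝ X => F (un y) := by
  let E := Submodule.span ℝ (s : Set X)
  haveI : FiniteDimensional ℝ E := FiniteDimensional.span_finset ℝ s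
  let b := Module.finBasis ℝ E
  let F' : X →L[ℝ] E := F.codRestrict E hF
  have h1 : (fun y : WeakSpace ℝ X => F (un y)) = fun y =>
      ∑ j, ((LinearMap.toContinuousLinearMap (b.coord j)).comp F') (un y) • (b j : X) := by
    funext y
    have := congrArg Subtype.val (b.sum_repr (F' (un y)))
    simp only [Submodule.coe_sum, Submodule.coe_smul] at this
    exact this.symm
  rw [h1]
  refine continuous_finsetSum _ fun j _ => Continuous.smul ?_ continuous_const
  exact WeakBilin.eval_continuous (topDualPairing ℝ X).flip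
    ((LinearMap.toContinuousLinearMap (b.coord j)).comp F')

end


/-- The negation of the preceding statement: There is a reflexive real Banach space X and an infinite, norm-bounded group of invertible operators on X, each equal to identity plus a finite-rank operator, which is discrete in the topology of pointwise convergence. -/
theorem result :
    ¬ (∃ (X : Type) (_ : NormedAddCommGroup X) (_ : NormedSpace ℝ X), CompleteSpace X ∧
      (∀ φ : (X →L[ℝ] ℝ) →L[ℝ] ℝ, ∃ x : X, ∀ f : X →L[ℝ] ℝ, φ f = f x) ∧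
      ∃ G : Subgroup (X →L[ℝ] X)ˣ, (G : Set (X →L[ℝ] X)ˣ).Infinite ∧
        (∃ C : ℝ, ∀ g ∈ G, ‖g.val‖ ≤ C) ∧
        (∀ g ∈ G, ∃ s : Finset X, ∀ x : X, g.val x - x ∈ Submodule.span ℝ (s : Set X)) ∧
        (∀ g ∈ G, ∃ s : Finset X, ∃ ε : ℝ, 0 < ε ∧ ∀ h ∈ G,
          (∀ x ∈ s, ‖h.val x - g.val x‖ < ε) → h = g)) := by
  classical
  rintro ⟨X, _, _, -, hrefl, G, hinf, ⟨C, hC⟩, hfr, hdisc⟩
  obtain ⟨s, ε, hε, hs⟩ := hdisc 1 G.one_mem
  let a : ℕ ↪ G := hinf.natEmbedding _
  let H : Subgroup G := (FreeGroup.lift a).range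
  haveI : Countable H := (FreeGroup.lift a).rangeRestrict_surjective.countable
  haveI : Infinite H := Infinite.of_injective
    (fun n => (⟨a n, FreeGroup.of n, FreeGroup.lift_apply_of⟩ : H))
    (fun m n h => a.injective (congrArg Subtype.val h))
  let op : H → X →L[ℝ] X := fun h => h.1.1.val
  have op_mul : ∀ g h : H, ∀ x, op (g * h) x = op g (op h x) := fun g h x => rfl
  have op_one : ∀ x, op 1 x = x := fun x => rfl
  let C' := max C 1
  have hC'pos : 0 < C' := lt_of_lt_of_le one_pos (le_max_right _ _)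
  have hop : ∀ h x, ‖op h x‖ ≤ C' * ‖x‖ := fun h x =>
    ((op h).le_opNorm x).trans
      (mul_le_mul_of_nonneg_right ((hC _ h.1.2).trans (le_max_left _ _)) (norm_nonneg _))
  let Ω := s → WeakSpace ℝ X
  let act : H → Ω → Ω := fun h y i => WeakSpace.map (op h) (y i)
  let x0 : Ω := fun i => toWeakSpace ℝ X i.1
  let W : Set Ω := closure (Set.range fun h => act h x0)
  let R : ℝ := C' * ∑ x ∈ s, ‖x‖
  have hactc : ∀ g, Continuous (act g) := fun g =>
    continuous_pi fun i => (WeakSpace.map (op g)).continuous.comp (continuous_apply i)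
  have hK : IsCompact {y : Ω | ∀ i, y i ∈
      {y : WeakSpace ℝ X | un y ∈ Metric.closedBall (0 : X) R}} :=
    isCompact_pi_infinite fun _ => wcompact hrefl R
  haveI : T2Space (WeakSpace ℝ X) :=
    (NormedSpace.isEmbedding_inclusionInDoubleDualWeak ℝ X).t2Space
  have hW : IsCompact W := by
    refine hK.of_isClosed_subset isClosed_closure (closure_minimal ?_ hK.isClosed)
    rintro _ ⟨h, rfl⟩ i
    show op h i.1 ∈ Metric.closedBall (0 : X) R
    rw [mem_closedBall_zero_iff]
    refine (hop h _).trans (mul_le_mul_of_nonneg_left ?_ hC'pos.le)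
    exact Finset.single_le_sum (f := fun x : X => ‖x‖) (fun _ _ => norm_nonneg _) i.2
  let X0 : Submodule ℝ X :=
    (Submodule.span ℝ (Set.range fun p : H × s => op p.1 p.2.1)).topologicalClosure
  have hsep : TopologicalSpace.IsSeparable (X0 : Set X) :=
    ((Set.countable_range _).isSeparable.span).closure
  obtain ⟨D, hDc, hD⟩ := hsep
  haveI : Countable D := hDc.to_subtype
  let δ : ℝ := ε / C' / 3
  have hδ : 0 < δ := by positivity
  let B : (s → D) → Set Ω := fun d => {y | ∀ i, un (y i) ∈ Metric.closedBall (d i : X) δ}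
  have hB : ∀ d, IsClosed (B d) := by
    intro d
    have : B d = ⋂ i, (fun y : Ω => y i) ⁻¹'
        {y : WeakSpace ℝ X | un y ∈ Metric.closedBall (d i : X) δ} := by
      ext y; simp [B]
    rw [this]
    exact isClosed_iInter fun i =>
      (wclosed _ (convex_closedBall _ _) Metric.isClosed_closedBall).preimage (continuous_apply i)
  have hW0 : ∀ y ∈ W, ∀ i, un (y i) ∈ X0 := by
    intro y hy i
    have hcl : IsClosed ((fun y : Ω => y i) ⁻¹' {y : WeakSpace ℝ X | un y ∈ (X0 : Set X)}) :=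
      (wclosed _ X0.convex (Submodule.isClosed_topologicalClosure _)).preimage
        (continuous_apply i)
    refine closure_minimal ?_ hcl hy
    rintro _ ⟨h, rfl⟩
    exact Submodule.le_topologicalClosure _ (Submodule.subset_span ⟨(h, i), rfl⟩)
  have hcov : W ⊆ ⋃ d, B d := by
    intro y hy
    have : ∀ i, ∃ d : D, un (y i) ∈ Metric.closedBall (d : X) δ := by
      intro i
      obtain ⟨d, hd, hdd⟩ := Metric.mem_closure_iff.mp (hD (hW0 y hy i)) δ hδ
      exact ⟨⟨d, hd⟩, hdd.le⟩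
    choose d hd using this
    exact Set.mem_iUnion.mpr ⟨d, hd⟩
  obtain ⟨d, g, hg, y, hyW, hy1, hy2⟩ := dyn act (fun g h y => rfl) hactc W hW
    ⟨_, subset_closure ⟨1, rfl⟩⟩ (by
      intro g y hy
      refine map_mem_closure (hactc g) hy ?_
      rintro _ ⟨h, rfl⟩
      exact ⟨g * h, rfl⟩) B hB hcov
  obtain ⟨t, ht⟩ := hfr g.1.1 g.1.2
  have hcont : ∀ i, Continuous fun y : Ω => ‖(op g - ContinuousLinearMap.id ℝ X) (un (y i))‖ :=
    fun i => ((wcont (op g - ContinuousLinearMap.id ℝ X) t ht).comp (continuous_apply i)).norm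
  have hcl : IsClosed (⋃ i : s, {y : Ω |
      ε / C' ≤ ‖(op g - ContinuousLinearMap.id ℝ X) (un (y i))‖}) :=
    isClosed_iUnion_of_finite fun i => isClosed_le continuous_const (hcont i)
  have hmem : y ∈ ⋃ i : s, {y : Ω |
      ε / C' ≤ ‖(op g - ContinuousLinearMap.id ℝ X) (un (y i))‖} := by
    refine closure_minimal ?_ hcl hyW
    rintro _ ⟨k, rfl⟩
    have hne : (k⁻¹ * g * k).1.1 ≠ 1 := by
      intro h
      apply hg
      have h1 : k⁻¹ * g * k = 1 := Subtype.ext (Subtype.ext h)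
      have : g = k * (k⁻¹ * g * k) * k⁻¹ := by group
      rw [this, h1]; group
    by_contra hcon
    apply hne
    apply hs _ (k⁻¹ * g * k).1.2
    intro x hx
    have h1 : ‖op g (op k x) - op k x‖ < ε / C' := by
      by_contra h2
      exact hcon (Set.mem_iUnion.mpr ⟨⟨x, hx⟩, not_lt.mp h2⟩)
    have h2 : op (k⁻¹ * g * k) x - x = op k⁻¹ (op g (op k x) - op k x) := by
      rw [map_sub, ← op_mul k⁻¹ k, inv_mul_cancel, op_one, op_mul, op_mul]
    show ‖op (k⁻¹ * g * k) x - x‖ < ε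
    rw [h2]
    refine (hop _ _).trans_lt ?_
    rwa [lt_div_iff₀' hC'pos] at h1
  obtain ⟨i, hi⟩ := Set.mem_iUnion.mp hmem
  have h1 : ‖un (y i) - d i‖ ≤ δ := mem_closedBall_iff_norm.mp (hy1 i)
  have h2 : ‖op g (un (y i)) - d i‖ ≤ δ := mem_closedBall_iff_norm.mp (hy2 i)
  have h3 : ε / C' ≤ ‖op g (un (y i)) - un (y i)‖ := hi
  have h4 : ‖op g (un (y i)) - un (y i)‖ ≤ ‖op g (un (y i)) - d i‖ + ‖un (y i) - d i‖ := by
    have := norm_sub_le (op g (un (y i)) - d i) (un (y i) - d i)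
    rwa [sub_sub_sub_cancel_right] at this
  have h5 : ε / C' = 3 * δ := by simp only [δ]; ring
  linarith

end Pool.Agent.S05214
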