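import Pool.Statements.S05220
import Pool.Agent.Lib.helper18.Hm1

set_option autoImplicit false
open MeasureTheory
open Pool Pool.MP_816d1e_an

namespace Pool.Agent.S05220

open H18Hm H18Cantor Set Filter Topology
open scoped ENNReal NNReal

noncomputable def H (μ : Measure ℝ) (r : ℝ≥0) : ℝ≥0∞ := ⨆ x : ℝ, μ (Icc x (x + r))

lemma H_mono (μ : Measure ℝ) : Monotone (H μ) := fun _ _ h =>
  iSup_mono fun _ => measure_mono (Icc_subset_Icc_right (by gcongr))

lemma H_add (μ : Measure ℝ) (r t : ℝ≥0) : H μ (r + t) ≤ H μ r + H μ t := by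
  refine iSup_le fun x => ?_
  rw [NNReal.coe_add, ← add_assoc]
  exact (measure_mono (Icc_subset_Icc_union_Icc (b := x + r))).trans ((measure_union_le _ _).trans
    (add_le_add (le_iSup (fun x : ℝ => μ (Icc x (x + r))) x)
      (le_iSup (fun x : ℝ => μ (Icc x (x + t))) _)))

lemma H_ne (μ : Measure ℝ) [IsProbabilityMeasure μ] (r : ℝ≥0) : H μ r ≠ ⊤ :=
  ne_top_of_le_ne_top ENNReal.one_ne_top (iSup_le fun _ => prob_le_one)

lemma H_ge (μ : Measure ℝ) (A : Set ℝ) (hA : Metric.ediam A ≠ ⊤) :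
    μ A ≤ H μ (Metric.ediam A).toNNReal := by
  have hb := Metric.isBounded_iff_ediam_ne_top.2 hA
  refine le_trans (measure_mono ?_) 
    (le_iSup (fun x : ℝ => μ (Icc x (x + (Metric.ediam A).toNNReal))) (sInf A))
  refine (hb.subset_Icc_sInf_sSup).trans (Icc_subset_Icc_right (le_of_eq ?_))
  change _ = sInf A + Metric.diam A
  rw [Real.diam_eq hb]
  ring

variable {φ : ℕ → Om → ℝ} (s : H18Hm.Nest φ)
include s

lemma H_small (n : ℕ) (r : ℝ≥0) (hr : (r : ℝ) < 2 * (1 / 2) ^ (S n + 2 * n)) :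
    H ((P H18Jac.fair).map (φ 0)) r ≤ 2⁻¹ ^ (n + 1) :=
  iSup_le fun x => s.sep n _ fun a ha b hb => by
    rw [abs_lt]
    constructor <;> linarith [ha.1, ha.2, hb.1, hb.2]

lemma H_cont : Continuous fun r => (H ((P H18Jac.fair).map (φ 0)) r).toNNReal := by
  set μ := (P H18Jac.fair).map (φ 0)
  have : IsProbabilityMeasure μ := Measure.isProbabilityMeasure_map s.emb.measurable.aemeasurable
  refine Metric.continuous_iff.2 fun b ε hε => ?_
  obtain ⟨n, hn⟩ := exists_pow_lt_of_lt_one hε (show (2⁻¹ : ℝ) < 1 by norm_num)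
  refine ⟨2 * (1 / 2) ^ (S n + 2 * n), by positivity, fun a ha => ?_⟩
  have key : ∀ a b : ℝ≥0, dist a b < 2 * (1 / 2) ^ (S n + 2 * n) →
      (H μ a).toReal - (H μ b).toReal < ε := by
    intro a b h
    have h1 : a ≤ b + nndist a b := by
      rw [← NNReal.coe_le_coe, NNReal.coe_add, coe_nndist, NNReal.dist_eq]
      linarith [le_abs_self ((a : ℝ) - b)]
    have h2 := ENNReal.toReal_mono (ENNReal.add_ne_top.2 ⟨H_ne μ _, by simp⟩)
      (((H_mono μ h1).trans (H_add μ _ _)).trans (add_le_add le_rfl (H_small s n _ h)))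
    rw [ENNReal.toReal_add (H_ne μ _) (by simp), ENNReal.toReal_pow, ENNReal.toReal_inv,
      ENNReal.toReal_ofNat, pow_succ] at h2
    have : (0 : ℝ) < 2⁻¹ ^ n := by positivity
    linarith
  rw [NNReal.dist_eq, abs_sub_lt_iff]
  exact ⟨key a b ha, key b a (by rwa [dist_comm])⟩

lemma upper : Measure.mkMetric (fun r : ℝ≥0∞ => (((H ((P H18Jac.fair).map (φ 0))
    r.toNNReal).toNNReal : ℝ≥0) : ℝ≥0∞)) (range (φ 0)) ≤ 1 := by
  choose u hu1 hu2 using special
  have hd : ∀ (n : ℕ) (w : Fin n → Bool), Metric.ediam (φ 0 '' {e | ∀ i : Fin n, e i = w i}) ≤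
      ENNReal.ofReal (4 * (1 / 2) ^ (S n + n)) := by
    intro n w
    refine Metric.ediam_le ?_
    rintro _ ⟨x, hx, rfl⟩ _ ⟨y, hy, rfl⟩
    rw [edist_dist, Real.dist_eq]
    refine ENNReal.ofReal_le_ofReal ?_
    simpa [S] using s.upper n 0 x y fun i hi => (hx ⟨i, hi⟩).trans (hy ⟨i, hi⟩).symm
  refine (Measure.mkMetric_le_liminf_sum (l := atTop) (ι := fun j => Fin (u j + 1) → Bool) _
    (fun j => ENNReal.ofReal (4 * (1 / 2) ^ j)) ?_
    (fun j w => φ 0 '' {e | ∀ i : Fin (u j + 1), e i = w i})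
    (.of_forall fun j w => (hd _ w).trans (ENNReal.ofReal_le_ofReal ?_))
    (.of_forall fun j => ?_) _).trans (liminf_le_of_frequently_le' (.of_forall fun j => ?_))
  · simpa using ENNReal.tendsto_ofReal ((tendsto_pow_atTop_nhds_zero_of_lt_one (r := (1 / 2 : ℝ))
      (by norm_num) (by norm_num)).const_mul 4)
  · have := hu1 j
    exact mul_le_mul_of_nonneg_left (pow_le_pow_of_le_one (by norm_num) (by norm_num) (by omega))
      (by norm_num)
  · rintro _ ⟨e, rfl⟩
    exact mem_iUnion.2 ⟨fun i => e i, e, fun _ => rfl, rfl⟩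
  · refine (Finset.sum_le_card_nsmul _ _ (2⁻¹ ^ (u j + 1)) fun w _ => ?_).trans ?_
    · refine ENNReal.coe_toNNReal_le_self.trans (H_small s _ _ ?_)
      refine (ENNReal.toReal_le_of_le_ofReal (by positivity) (hd _ w)).trans_lt ?_
      rw [S, if_pos (hu2 j), show S (u j) + (u j + 3) + (u j + 1) = S (u j) + 2 * u j + 4 by ring,
        pow_add]
      have : (0 : ℝ) < (1 / 2) ^ (S (u j) + 2 * u j) := by positivity
      linarith
    · simp [← mul_pow, ENNReal.mul_inv_cancel]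

lemma frost : (P H18Jac.fair).map (φ 0) ≤ Measure.hausdorffMeasure ((1 / 10 : ℝ≥0) : ℝ) := by
  refine Measure.le_hausdorffMeasure _ _ (2⁻¹ ^ 10) (by simp [pos_iff_ne_zero]) fun A hA => ?_
  have hb : ∀ n : ℕ, Metric.ediam A ≤ 2⁻¹ ^ (10 * (n + 1)) →
      (P H18Jac.fair).map (φ 0) A ≤ 2⁻¹ ^ (n + 1 + 1) := by
    intro n h
    refine s.sep _ A fun a ha b hb => ?_
    have h1 := ENNReal.toReal_mono (by simp) ((Metric.edist_le_ediam_of_mem ha hb).trans h)
    rw [edist_dist, ENNReal.toReal_ofReal dist_nonneg, Real.dist_eq, ENNReal.toReal_pow,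
      ENNReal.toReal_inv, ENNReal.toReal_ofNat, ← one_div] at h1
    have h2 := S_le (n + 1)
    have h3 : ((1 : ℝ) / 2) ^ (10 * (n + 1)) ≤ (1 / 2) ^ (S (n + 1) + 2 * (n + 1)) :=
      pow_le_pow_of_le_one (by norm_num) (by norm_num) (by omega)
    have : (0 : ℝ) < (1 / 2) ^ (S (n + 1) + 2 * (n + 1)) := by positivity
    linarith
  by_cases h : ∃ n : ℕ, 2⁻¹ ^ (10 * (n + 1)) < Metric.ediam A
  · classical
    have h1 := Nat.find_spec h
    have h0 : Nat.find h ≠ 0 := fun e => by rw [e] at h1; exact h1.not_ge hA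
    obtain ⟨n, hn⟩ := Nat.exists_eq_succ_of_ne_zero h0
    have h2 := Nat.find_min h (m := n) (by omega)
    refine (hb n (not_lt.1 h2)).trans (le_trans (le_of_eq ?_) (ENNReal.rpow_le_rpow h1.le (by positivity)))
    rw [hn, ← ENNReal.rpow_natCast, ← ENNReal.rpow_natCast, ← ENNReal.rpow_mul]
    congr 1
    push_cast
    ring
  · push Not at h
    have t := ENNReal.tendsto_pow_atTop_nhds_zero_of_lt_one (r := 2⁻¹) (by simp)
    exact (ge_of_tendsto' (t.comp (tendsto_add_atTop_nat 2)) fun n => hb n (h n)).trans bot_le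

omit s

lemma en {D : ℝ} (hD : 0 < D) (ν : Measure ℝ) : (∫⁻ x, ∫⁻ y, (if x = y then (⊤ : ENNReal)
    else ENNReal.ofReal (Real.log D - Real.log (dist x y))) ∂ν ∂ν) = H18Widom.En D ν ν := by
  refine lintegral_congr fun x => lintegral_congr fun y => ?_
  rw [H18Widom.k]
  split_ifs with h
  · rfl
  · rw [Real.log_div hD.ne' (abs_ne_zero.2 (sub_ne_zero.2 h)), Real.dist_eq]


theorem result :
    ¬ (∀ (K : Set ℝ), IsCompact K →
  ∀ (h : NNReal → NNReal), Continuous h → Monotone h → h 0 = 0 →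
  ∀ (μ : Measure ℝ), IsProbabilityMeasure μ → μ Kᶜ = 0 →
  (∃ ν : Measure ℝ, IsProbabilityMeasure ν ∧ ν Kᶜ = 0 ∧
      (∫⁻ x, ∫⁻ y, (if x = y then (⊤ : ENNReal)
          else ENNReal.ofReal (Real.log (Metric.diam K + 1) - Real.log (dist x y))) ∂ν ∂ν) < ⊤) →
  (∀ ν : Measure ℝ, IsProbabilityMeasure ν → ν Kᶜ = 0 →
      (∫⁻ x, ∫⁻ y, (if x = y then (⊤ : ENNReal)
          else ENNReal.ofReal (Real.log (Metric.diam K + 1) - Real.log (dist x y))) ∂μ ∂μ)
        ≤ (∫⁻ x, ∫⁻ y, (if x = y then (⊤ : ENNReal)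
          else ENNReal.ofReal (Real.log (Metric.diam K + 1) - Real.log (dist x y))) ∂ν ∂ν)) →
  μ = (Measure.mkMetric (fun r : ENNReal => ((h r.toNNReal : NNReal) : ENNReal))).restrict K →
  dimH K = 0) := by
  intro Hy
  obtain ⟨φ, s⟩ := H18Hm.exists_nest
  set μ := (P H18Jac.fair).map (φ 0) with hμ
  have : IsProbabilityMeasure μ := Measure.isProbabilityMeasure_map s.emb.measurable.aemeasurable
  have hK : μ (range (φ 0))ᶜ = 0 := by rw [s.emb.map_apply]; simp
  have hKc := isCompact_range (s.cont 0)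
  have hd : ∀ x y, |φ 0 x - φ 0 y| ≤ Metric.diam (range (φ 0)) := fun x y =>
    Metric.dist_le_diam_of_mem hKc.isBounded ⟨x, rfl⟩ ⟨y, rfl⟩
  have hD : 4 ≤ Metric.diam (range (φ 0)) + 1 := by
    have h1 := hd (cons true fun _ => true) (cons false fun _ => true)
    have h2 := s.sq 0 fun _ => true
    have h3 := s.nn 0 fun _ => true
    have h4 := abs_le.1 (s.le (0 + 1) fun _ => true)
    rw [show l 0 = 1 / 8 by norm_num [l, ex, S]] at h2
    rw [s.neg, sub_neg_eq_add, abs_of_nonneg (by linarith)] at h1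
    nlinarith
  obtain ⟨E, hE, hU⟩ := s.pot hD
  have hmin := fun (ν : Measure ℝ) (_ : IsProbabilityMeasure ν) hν =>
    H18Widom.minimal (K := range (φ 0)) (D := Metric.diam (range (φ 0)) + 1) (by linarith) (by
      rintro _ ⟨x, rfl⟩ _ ⟨y, rfl⟩
      linarith [hd x y]) μ ν hK hν hE (by
      rintro _ ⟨x, rfl⟩
      rw [H18Widom.U, hμ, s.emb.lintegral_map, ← hU x])
  have h0 := Hy _ hKc _ (H_cont s) (fun a b h => ENNReal.toNNReal_mono (H_ne μ b) (H_mono μ h))
    (by
      have t := ENNReal.tendsto_pow_atTop_nhds_zero_of_lt_one (r := 2⁻¹) (by simp)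
      have := ge_of_tendsto' (t.comp (tendsto_add_atTop_nat 1)) fun n =>
        H_small s n 0 (by rw [NNReal.coe_zero]; positivity)
      rw [nonpos_iff_eq_zero.1 this, ENNReal.toNNReal_zero])
    μ this hK ⟨μ, this, hK, by rw [en (by linarith), (hmin μ this hK).1]; exact hE.lt_top⟩
    (fun ν hν h => by rw [en (by linarith), en (by linarith)]; exact (hmin ν hν h).2)
    (by
      have h1 : μ ≤ (Measure.mkMetric fun r : ℝ≥0∞ =>
          (((H μ r.toNNReal).toNNReal : ℝ≥0) : ℝ≥0∞)).restrict (range (φ 0)) := by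
        conv_lhs => rw [← Measure.restrict_eq_self_of_ae_mem (μ := μ) (s := range (φ 0)) hK]
        refine Measure.restrict_mono_measure (Measure.le_mkMetric _ _ 1 one_pos fun A hA => ?_) _
        rw [ENNReal.coe_toNNReal (H_ne μ _)]
        exact H_ge μ A (ne_top_of_le_ne_top ENNReal.one_ne_top hA)
      refine Measure.eq_of_le_of_measure_univ_eq h1 (le_antisymm (h1 _) ?_)
      rw [Measure.restrict_apply_univ, measure_univ]
      exact upper s)
  have h1 := le_dimH_of_hausdorffMeasure_ne_zero (d := 1 / 10) (s := range (φ 0)) fun h => by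
    have h2 := frost s (range (φ 0))
    rw [h, s.emb.map_apply] at h2
    simp at h2
  rw [h0] at h1
  simp at h1

end Pool.Agent.S05220
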