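import Pool.Statements.S05310
import Pool.Agent.Lib.helper15.Fac5

set_option autoImplicit false
open Pool Pool.MP_89f94c_an

namespace Pool.Agent.S05310

/-- The negation of the preceding statement: There is M ≥ 1 such that every absolutely summable complex function a on the positive rationals equals a convolution b⋆c of two such functions with ‖b‖₁‖c‖₁ ≤ M‖a‖₁. -/
theorem result :
    ¬ (∃ M : ℝ, 1 ≤ M ∧
      ∀ a : ℚ → ℂ, (∀ q : ℚ, q ≤ 0 → a q = 0) → Summable (fun q : ℚ => ‖a q‖) →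
        ∃ b c : ℚ → ℂ,
          (∀ q : ℚ, q ≤ 0 → b q = 0) ∧ (∀ q : ℚ, q ≤ 0 → c q = 0) ∧
          Summable (fun q : ℚ => ‖b q‖) ∧ Summable (fun q : ℚ => ‖c q‖) ∧
          (∀ q : ℚ, a q = ∑' r : ℚ, b r * c (q - r)) ∧
          (∑' q : ℚ, ‖b q‖) * (∑' q : ℚ, ‖c q‖) ≤ M * ∑' q : ℚ, ‖a q‖) := by
  rintro ⟨M, -, h⟩
  obtain ⟨a, h1, h2, h3⟩ := Lib.helper15.Fac.no_fact
  obtain ⟨b, c, b0, c0, bs, cs, e, -⟩ := h a h1 h2
  exact h3 b c b0 c0 bs cs e

end Pool.Agent.S05310
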