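import Pool.Statements.S05328
-- import your own Pool.Agent.* helpers here

set_option autoImplicit false
open Filter Topology
open Pool Pool.MP_8ba4a6_an

namespace Pool.Agent.S05328

noncomputable def phi (y : ℝ) : ℝ := max ((3 - y) / 2) (1 / (2 * y))

lemma phi_pos {y : ℝ} (hy : 0 < y) : 0 < phi y := lt_max_of_lt_right (by positivity)

lemma phi_anti {a b : ℝ} (ha : 0 < a) (hab : a < b) : phi b < phi a := by
  refine max_lt_max (by linarith) ?_
  exact one_div_lt_one_div_of_lt (by positivity) (by linarith)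

lemma phi_near {y : ℝ} (hy : |y - 1| < 1 / 2) : phi y = (3 - y) / 2 := by
  rw [abs_lt] at hy
  refine max_eq_left ?_
  rw [div_le_div_iff₀ (by linarith) (by norm_num)]
  nlinarith

lemma rec_phi {x : ℕ → ℝ} (h0 : 0 < x 0) (h1 : 0 < x 1)
    (h : ∀ n : ℕ, x (n + 2) = x (n + 1) * (phi (x n) / x (n + 1))) (n : ℕ) :
    x (n + 2) = phi (x n) := by
  have pos : ∀ n, 0 < x n ∧ 0 < x (n + 1) := by
    intro n
    induction n with
    | zero => exact ⟨h0, h1⟩
    | succ n ih =>
      refine ⟨ih.2, ?_⟩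
      rw [h n]
      exact mul_pos ih.2 (div_pos (phi_pos ih.1) ih.2)
  rw [h n]
  field_simp [(pos n).2.ne']

lemma decay {x : ℕ → ℝ} (h : ∀ n : ℕ, x (n + 2) = phi (x n)) (d : ℝ) (hd : d < 1 / 2)
    (h0 : |x 0 - 1| ≤ d) (h1 : |x 1 - 1| ≤ d) (n : ℕ) : |x n - 1| ≤ 2 * d * (3 / 4) ^ n ∧
      |x n - 1| ≤ d := by
  have hd0 : 0 ≤ d := le_trans (abs_nonneg _) h0
  induction n using Nat.twoStepInduction with
  | zero => exact ⟨by simp only [pow_zero]; linarith, h0⟩
  | one => exact ⟨by simp only [pow_one]; linarith, h1⟩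
  | more n ih _ =>
    have e : |x (n + 2) - 1| = |x n - 1| / 2 := by
      rw [h n, phi_near (lt_of_le_of_lt ih.2 hd),
        show (3 - x n) / 2 - 1 = -(x n - 1) / 2 by ring, abs_div, abs_neg, abs_two]
    have hp : 0 ≤ d * (3 / 4 : ℝ) ^ n := by positivity
    rw [e, pow_add]
    constructor
    · nlinarith [ih.1]
    · linarith [ih.2]


/-- The negation of the preceding statement: If f>0 is continuous on the positive quadrant, nonincreasing in x, strictly decreasing in y, x·f(x,x) strictly decreasing, and the unique positive equilibrium of x_{n+1}=x_n f(x_n,x_{n-1}) is locally asymptotically stable, then every positive solution converges to it. -/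
theorem result :
    ¬ (∀ (f : ℝ → ℝ → ℝ) (xbar : ℝ),
      ContinuousOn (fun p : ℝ × ℝ => f p.1 p.2) (Set.Ioi (0:ℝ) ×ˢ Set.Ioi (0:ℝ)) →
      (∀ x y : ℝ, 0 < x → 0 < y → 0 < f x y) →
      (∀ x₁ x₂ y : ℝ, 0 < x₁ → x₁ ≤ x₂ → 0 < y → f x₂ y ≤ f x₁ y) →
      (∀ x y₁ y₂ : ℝ, 0 < x → 0 < y₁ → y₁ < y₂ → f x y₂ < f x y₁) →
      (∀ x₁ x₂ : ℝ, 0 < x₁ → x₁ < x₂ → x₂ * f x₂ x₂ < x₁ * f x₁ x₁) →
      0 < xbar →
      f xbar xbar = 1 →
      (∀ y : ℝ, 0 < y → f y y = 1 → y = xbar) →
      (∀ ε : ℝ, 0 < ε → ∃ δ : ℝ, 0 < δ ∧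
        ∀ x : ℕ → ℝ, 0 < x 0 → 0 < x 1 →
          (∀ n : ℕ, x (n + 2) = x (n + 1) * f (x (n + 1)) (x n)) →
          |x 0 - xbar| + |x 1 - xbar| < δ →
          ∀ n : ℕ, |x n - xbar| < ε) →
      (∃ γ : ℝ, 0 < γ ∧
        ∀ x : ℕ → ℝ, 0 < x 0 → 0 < x 1 →
          (∀ n : ℕ, x (n + 2) = x (n + 1) * f (x (n + 1)) (x n)) →
          |x 0 - xbar| + |x 1 - xbar| < γ →
          Tendsto x atTop (𝓝 xbar)) →
      ∀ x : ℕ → ℝ, 0 < x 0 → 0 < x 1 →
        (∀ n : ℕ, x (n + 2) = x (n + 1) * f (x (n + 1)) (x n)) →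
        Tendsto x atTop (𝓝 xbar)) := by
  intro H
  have p1 : phi 1 = 1 := by rw [phi_near (by simp)]; norm_num
  have p4 : phi 4 = 1 / 8 := by norm_num [phi]
  have p8 : phi (1 / 8) = 4 := by norm_num [phi]
  let x : ℕ → ℝ := fun n => if n % 4 < 2 then 4 else 1 / 8
  have key := H (fun x y => phi y / x) 1 ?_ ?_ ?_ ?_ ?_ one_pos (by simp [p1]) ?_ ?_ ?_ x
    (by simp [x]) (by simp [x]) ?_
  · have h3 : Filter.Tendsto (fun n : ℕ => 4 * n) Filter.atTop Filter.atTop :=
      Filter.tendsto_atTop_mono (fun n => by simp only [id]; omega) Filter.tendsto_id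
    have h4 := key.comp h3
    have h5 : (x ∘ fun n : ℕ => 4 * n) = fun _ => 4 := by
      funext n
      simp [x]
    rw [h5] at h4
    have h6 := tendsto_nhds_unique h4 tendsto_const_nhds
    norm_num at h6
  · refine ContinuousOn.div ?_ continuousOn_fst (fun p hp => (ne_of_gt hp.1))
    unfold phi
    refine ContinuousOn.sup (by fun_prop) ?_
    refine ContinuousOn.div continuousOn_const (by fun_prop) (fun p hp => ?_)
    have : 0 < p.2 := hp.2
    positivity
  · intro x y hx hy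
    exact div_pos (phi_pos hy) hx
  · intro a b y ha hab hy
    exact div_le_div_of_nonneg_left (phi_pos hy).le ha hab
  · intro x a b hx ha hab
    exact div_lt_div_of_pos_right (phi_anti ha hab) hx
  · intro a b ha hab
    have hb : 0 < b := ha.trans hab
    have := phi_anti ha hab
    simp only [mul_div_cancel₀ _ ha.ne', mul_div_cancel₀ _ hb.ne']
    exact this
  · intro y hy h
    simp only [div_eq_one_iff_eq hy.ne'] at h
    rcases lt_trichotomy y 1 with h1 | h1 | h1
    · have := phi_anti hy h1; linarith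
    · exact h1
    · have := phi_anti one_pos h1; linarith
  · intro ε hε
    refine ⟨min ε (1 / 2), by positivity, fun x h0 h1 h hd n => ?_⟩
    have a0 := abs_nonneg (x 0 - 1)
    have a1 := abs_nonneg (x 1 - 1)
    have := (decay (rec_phi h0 h1 h) (|x 0 - 1| + |x 1 - 1|) (lt_of_lt_of_le hd (min_le_right _ _))
      (by linarith) (by linarith) n).2
    exact lt_of_le_of_lt this (lt_of_lt_of_le hd (min_le_left _ _))
  · refine ⟨1 / 2, by norm_num, fun x h0 h1 h hd => ?_⟩
    have a0 := abs_nonneg (x 0 - 1)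
    have a1 := abs_nonneg (x 1 - 1)
    have hb := fun n => (decay (rec_phi h0 h1 h) (|x 0 - 1| + |x 1 - 1|) hd
      (by linarith) (by linarith) n).1
    rw [tendsto_iff_norm_sub_tendsto_zero]
    refine squeeze_zero (fun n => norm_nonneg _) hb ?_
    simpa using (tendsto_pow_atTop_nhds_zero_of_lt_one (r := (3 / 4 : ℝ)) (by norm_num)
      (by norm_num)).const_mul (2 * (|x 0 - 1| + |x 1 - 1|))
  · intro n
    have hn : n % 4 = 0 ∨ n % 4 = 1 ∨ n % 4 = 2 ∨ n % 4 = 3 := by omega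
    rcases hn with h | h | h | h <;>
      simp only [x, h, Nat.add_mod n, p4, p8] <;> norm_num [p4, p8]

end Pool.Agent.S05328
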