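import Pool.Statements.S05340
-- import your own Pool.Agent.* helpers here
import Pool.Agent.Lib.helper16.ND5

set_option autoImplicit false
open Pool Pool.MP_8cad90_an

namespace Pool.Agent.S05340

open Pool.Agent.Lib.helper16.ND Filter Topology Polynomial
open scoped RealInnerProductSpace

def al (k : ℕ) : ℕ := (Nat.unpair (Nat.unpair k).1).1
def be (k : ℕ) : ℕ := (Nat.unpair (Nat.unpair k).1).2

lemma visit (a b n : ℕ) : ∃ k ≥ n, al k = a ∧ be k = b :=
  ⟨Nat.pair (Nat.pair a b) n, Nat.right_le_pair _ _, by simp [al], by simp [be]⟩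

noncomputable def D : Data ℕ where
  χ p := if p.2 = be p.1 then wt p.1 else 0
  α p := al p.1
  hχ p := by
    have := wt_pos p.1
    have := wt_le_one p.1
    split_ifs
    · nlinarith
    · norm_num

lemma cs (y x : H ℕ) : (2 * ⟪y, x⟫) ^ 2 ≤ 4 * ‖y‖ ^ 2 * ‖x‖ ^ 2 := by
  have := abs_real_inner_le_norm y x
  have h2 : ⟪y, x⟫ ^ 2 ≤ (‖y‖ * ‖x‖) ^ 2 := by
    rw [← sq_abs]; gcongr
  nlinarith

lemma deriv_zero (y x : H ℕ) (hy : y ≠ 0) (ho : ∀ s : ℝ, Q D y ≤ Q D (y + s • x)) :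
    HasSum (fun k => eps k * wt k *
      g1 k (‖y‖ ^ 2) (2 * ⟪y, x⟫) (y (be k)) (x (be k)) (y (al k)) (x (al k))) (-(2 * ⟪y, x⟫)) := by
  have hn := norm_pos_iff.mpr hy
  have hne : ∀ t : ℝ, y + t • x ≠ 0 := by
    intro t h
    have h1 := ho t
    have h2 := Q_le D (y + t • x)
    have h3 := Q_ge D y
    rw [h] at h1 h2
    simp only [norm_zero] at h2
    nlinarith [pow_pos hn 2]
  set f : ℕ → ℝ := fun k => eps k * wt k *
      g1 k (‖y‖ ^ 2) (2 * ⟪y, x⟫) (y (be k)) (x (be k)) (y (al k)) (x (al k)) with hf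
  have hsum : Summable f := by
    refine Summable.of_norm_bounded (hasSum_geometric_two.mul_right (‖y‖ ^ 2 + ‖x‖ ^ 2)).summable
      fun k => ?_
    have := g1_bound k _ _ _ _ _ _ _ (pow_pos hn 2) (sq_le y (be k)) (sq_le y (al k))
      (sq_le x (be k)) (sq_le x (al k)) (cs y x)
    have h1 := wt_pos k
    have h2 := wt_le_one k
    rw [hf, Real.norm_eq_abs]
    simp only
    rw [abs_mul, abs_of_pos (mul_pos (eps_pos k) h1), mul_right_comm]
    exact le_trans (mul_le_of_le_one_right (mul_nonneg (eps_pos k).le (abs_nonneg _)) h2) this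
  have hinj : Function.Injective (fun k : ℕ => (k, be k)) := fun a b h => (Prod.ext_iff.mp h).1
  have hT : HasSum (T1 D y x 0) (∑' k, f k) := by
    rw [← hinj.hasSum_iff]
    · convert hsum.hasSum using 1
      funext k
      simp only [Function.comp, T1, L, D, g1, hf, if_true]
      ring_nf
    · rintro ⟨k, b⟩ hp
      have : b ≠ be k := fun h => hp ⟨k, by simp [h]⟩
      simp [T1, L, D, g1, this]
  have key : ∀ t : ℝ, 0 ≤ t * (2 * ⟪y, x⟫ + ∑' k, f k) + 2 * ‖x‖ ^ 2 * t ^ 2 := by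
    intro t
    have := taylor_line D y x hne _ hT t
    have := ho t
    linarith
  set s := 2 * ⟪y, x⟫ + ∑' k, f k with hs
  have : s = 0 := by
    by_contra hs0
    have h1 := key (-s / (2 * ‖x‖ ^ 2 + 1))
    have h2 : 0 < s ^ 2 := by positivity
    have h3 : -s / (2 * ‖x‖ ^ 2 + 1) * s + 2 * ‖x‖ ^ 2 * (-s / (2 * ‖x‖ ^ 2 + 1)) ^ 2
        = - s ^ 2 / (2 * ‖x‖ ^ 2 + 1) ^ 2 := by field_simp; ring
    rw [h3, neg_div] at h1
    have : 0 < s ^ 2 / (2 * ‖x‖ ^ 2 + 1) ^ 2 := by positivity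
    linarith
  have e : -(2 * ⟪y, x⟫) = ∑' k, f k := by linarith
  rw [e]
  exact hsum.hasSum

noncomputable def lin (a b : ℝ) : ℝ[X] := C a + C b * X

lemma lin_deg (a b : ℝ) : (lin a b).natDegree ≤ 1 := by unfold lin; compute_degree

lemma lin_eval (a b t : ℝ) : (lin a b).eval t = a + t * b := by simp [lin]; ring

lemma lin_I (a b : ℝ) : aeval Complex.I (lin a b) = (a : ℂ) + b * Complex.I := by simp [lin]

noncomputable def p3 (k : ℕ) (U L d : ℝ[X]) (u1 l1 : ℝ) : ℝ[X] :=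
  C ((k : ℝ) + 2) * U ^ (2 * k + 2) * (C (2 * u1) * U * (1 + X ^ 2) - U ^ 2 * d) * (U * L)
    + U ^ (2 * k + 4) * (C u1 * L + U * C l1) * (1 + X ^ 2)

noncomputable def p2 (k : ℕ) (U L : ℝ[X]) (u1 l1 : ℝ) : ℝ[X] :=
  U ^ (2 * k + 4) * (C ((2 * k + 5) * u1) * L + U * C l1)

lemma p3_deg (k : ℕ) (a b c e f g u1 l1 : ℝ) :
    (p3 k (lin a b) (lin c e) (lin f g) u1 l1).natDegree ≤ 2 * k + 7 := by
  have hU := lin_deg a b
  have hL := lin_deg c e
  have hd := lin_deg f g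
  have hr : (1 + X ^ 2 : ℝ[X]).natDegree ≤ 2 := by compute_degree
  have h1 := natDegree_pow_le_of_le (2 * k + 2) hU
  have h2 := natDegree_pow_le_of_le (2 * k + 4) hU
  have h3 := natDegree_pow_le_of_le 2 hU
  have a1 : (C ((k : ℝ) + 2) * lin a b ^ (2 * k + 2)).natDegree ≤ 2 * k + 2 :=
    le_trans (natDegree_C_mul_le _ _) (by omega)
  have a2 : (C (2 * u1) * lin a b * (1 + X ^ 2) - lin a b ^ 2 * lin f g).natDegree ≤ 3 := by
    refine le_trans (natDegree_sub_le _ _) (max_le ?_ ?_)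
    · refine le_trans natDegree_mul_le ?_
      have := natDegree_C_mul_le (2 * u1) (lin a b)
      omega
    · refine le_trans natDegree_mul_le ?_
      omega
  have a3 : (lin a b * lin c e).natDegree ≤ 2 := le_trans natDegree_mul_le (by omega)
  have a4 : (C u1 * lin c e + lin a b * C l1).natDegree ≤ 1 :=
    natDegree_add_le_of_degree_le (le_trans (natDegree_C_mul_le _ _) hL)
      (le_trans (natDegree_mul_C_le _ _) hU)
  unfold p3
  refine natDegree_add_le_of_degree_le ?_ ?_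
  · refine le_trans natDegree_mul_le ?_
    have := le_trans natDegree_mul_le (add_le_add a1 a2)
    omega
  · refine le_trans natDegree_mul_le ?_
    have := le_trans natDegree_mul_le (add_le_add h2 a4)
    omega

lemma p2_deg (k : ℕ) (a b c e u1 l1 : ℝ) :
    (p2 k (lin a b) (lin c e) u1 l1).natDegree ≤ 2 * k + 7 := by
  have hU := lin_deg a b
  have hL := lin_deg c e
  have h2 := natDegree_pow_le_of_le (2 * k + 4) hU
  have a4 : (C ((2 * k + 5) * u1) * lin c e + lin a b * C l1).natDegree ≤ 1 :=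
    natDegree_add_le_of_degree_le (le_trans (natDegree_C_mul_le _ _) hL)
      (le_trans (natDegree_mul_C_le _ _) hU)
  unfold p2
  have := le_trans natDegree_mul_le (add_le_add h2 a4)
  omega

lemma p3_eval (k : ℕ) (U L d : ℝ[X]) (u1 l1 t : ℝ) :
    (p3 k U L d u1 l1).eval t / (1 + t ^ 2) ^ (k + 3)
      = g1 k (1 + t ^ 2) (d.eval t) (U.eval t) u1 (L.eval t) l1 := by
  have : (1 + t ^ 2) ≠ 0 := by positivity
  simp only [p3, g1, q1, eval_add, eval_mul, eval_C, eval_pow, eval_sub, eval_one, eval_X, div_pow]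
  generalize 1 + t ^ 2 = r at this ⊢
  field_simp
  ring

lemma p2_eval (k : ℕ) (U L : ℝ[X]) (u1 l1 t : ℝ) :
    (p2 k U L u1 l1).eval t / (1 + t ^ 2) ^ (k + 2)
      = g1 k (1 + t ^ 2) 0 (U.eval t) u1 (L.eval t) l1 := by
  have : (1 + t ^ 2) ≠ 0 := by positivity
  simp only [p2, g1, q1, eval_add, eval_mul, eval_C, eval_pow, div_pow]
  generalize 1 + t ^ 2 = r at this ⊢
  field_simp
  ring

lemma p3_I (k : ℕ) (U L d : ℝ[X]) (u1 l1 : ℝ) : aeval Complex.I (p3 k U L d u1 l1)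
    = -(((k : ℝ) + 2 : ℝ) : ℂ) * (((aeval Complex.I U) ^ 2) ^ k *
      ((aeval Complex.I U) ^ 5 * aeval Complex.I L * aeval Complex.I d)) := by
  simp only [p3, map_add, map_mul, map_sub, map_pow, aeval_C, aeval_X, map_one,
    Complex.I_sq, Complex.coe_algebraMap]
  push_cast
  ring

lemma p2_I (k : ℕ) (U L : ℝ[X]) (u1 l1 : ℝ) : aeval Complex.I (p2 k U L u1 l1)
    = ((aeval Complex.I U) ^ 2) ^ k * ((aeval Complex.I U) ^ 4 *
      ((((2 * k + 5) * u1 : ℝ) : ℂ) * aeval Complex.I L + aeval Complex.I U * l1)) := by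
  simp only [p2, map_add, map_mul, map_pow, aeval_C, Complex.coe_algebraMap]
  push_cast
  ring

lemma no_strong (u v x : H ℕ) (hu : ‖u‖ = 1) (hv : ‖v‖ = 1) (huv : ⟪u, v⟫ = 0)
    (ho : ∀ t s : ℝ, Q D (u + t • v) ≤ Q D (u + t • v + s • x)) : x = 0 := by
  have hr : ∀ t : ℝ, ‖u + t • v‖ ^ 2 = 1 + t ^ 2 := by
    intro t; rw [norm_line, hu, hv, huv]; ring
  have hne : ∀ t : ℝ, u + t • v ≠ 0 := by
    intro t h
    have := hr t
    rw [h] at this
    simp only [norm_zero] at this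
    nlinarith [sq_nonneg t]
  have hco : ∀ (t : ℝ) (b : ℕ), (u + t • v) b = (lin (u b) (v b)).eval t := by
    intro t b; rw [lin_eval]; simp
  have hd : ∀ t : ℝ, 2 * ⟪u + t • v, x⟫ = (lin (2 * ⟪u, x⟫) (2 * ⟪v, x⟫)).eval t := by
    intro t; rw [lin_eval, inner_add_left, real_inner_smul_left]; ring
  have hb : ∀ k (t : ℝ), |t| ≤ 1 → eps k * |g1 k (‖u + t • v‖ ^ 2) (2 * ⟪u + t • v, x⟫)
      ((u + t • v) (be k)) (x (be k)) ((u + t • v) (al k)) (x (al k))| ≤ (1 / 2) ^ k * (2 + ‖x‖ ^ 2) := by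
    intro k t ht
    have ht2 : t ^ 2 ≤ 1 := by rw [← sq_abs]; nlinarith [abs_nonneg t]
    refine le_trans (g1_bound k _ _ _ _ _ _ _ (pow_pos (norm_pos_iff.mpr (hne t)) 2) (sq_le _ (be k))
      (sq_le _ (al k)) (sq_le x (be k)) (sq_le x (al k)) (cs _ x)) ?_
    rw [hr]
    gcongr
    linarith
  have hs := fun t => deriv_zero _ x (hne t) (ho t)
  obtain ⟨b, hb0⟩ : ∃ b, u b ≠ 0 := by
    by_contra h
    push Not at h
    have : u = 0 := lp.ext (funext h)
    rw [this] at hu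
    simp at hu
  set W : ℕ → ℂ := fun a => (u a : ℂ) + v a * Complex.I with hW
  have hWb : W b ≠ 0 := fun h => hb0 (by simpa [hW] using congrArg Complex.re h)
  have hc : 0 < ‖W b‖ := norm_pos_iff.mpr hWb
  have e1 := extract 3 (by norm_num) le_rfl
    (fun k => p3 k (lin (u (be k)) (v (be k))) (lin (u (al k)) (v (al k)))
      (lin (2 * ⟪u, x⟫) (2 * ⟪v, x⟫)) (x (be k)) (x (al k)))
    (fun k => p3_deg _ _ _ _ _ _ _ _ _) (lin (2 * ⟪u, x⟫) (2 * ⟪v, x⟫)) (lin_deg _ _) (2 + ‖x‖ ^ 2)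
    (fun k t ht => by simpa only [p3_eval, hco, hd, hr] using hb k t ht)
    (fun t _ => by simpa only [p3_eval, hco, hd, hr] using hs t)
  set ξ : ℂ := ((2 * ⟪u, x⟫ : ℝ) : ℂ) + ((2 * ⟪v, x⟫ : ℝ) : ℂ) * Complex.I with hξ
  have s1 : ‖W b‖ ^ 6 * ‖ξ‖ ≤ 0 := by
    refine small_zero (‖W b‖ ^ 2) (by positivity) _ (16 * (2 + ‖x‖ ^ 2)) fun n => ?_
    obtain ⟨k, hk, ha, hb'⟩ := visit b b n
    refine ⟨k, hk, le_trans ?_ (e1 k)⟩
    have : aeval Complex.I (p3 k (lin (u (be k)) (v (be k))) (lin (u (al k)) (v (al k)))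
        (lin (2 * ⟪u, x⟫) (2 * ⟪v, x⟫)) (x (be k)) (x (al k)))
        = -(((k : ℝ) + 2 : ℝ) : ℂ) * ((W b ^ 2) ^ k * (W b ^ 6 * ξ)) := by
      rw [p3_I, lin_I, lin_I, lin_I, ha, hb']
      change _ * ((W b ^ 2) ^ k * (W b ^ 5 * W b * ξ)) = _
      ring
    rw [this, norm_mul, norm_neg, Complex.norm_real, norm_mul, norm_mul, norm_pow, norm_pow, norm_pow,
      Real.norm_eq_abs, abs_of_nonneg (by positivity)]
    have hk0 : (0 : ℝ) ≤ k := Nat.cast_nonneg k
    exact le_mul_of_one_le_left (by positivity) (by linarith)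
  have hξ0 : ξ = 0 := by
    have : 0 < ‖W b‖ ^ 6 := by positivity
    have h2 : ‖ξ‖ ≤ 0 := by nlinarith [norm_nonneg ξ]
    exact norm_le_zero_iff.mp h2
  have hux : ⟪u, x⟫ = 0 := by simpa [hξ] using congrArg Complex.re hξ0
  have hvx : ⟪v, x⟫ = 0 := by simpa [hξ] using congrArg Complex.im hξ0
  have hd0 : ∀ t : ℝ, 2 * ⟪u + t • v, x⟫ = 0 := by
    intro t; rw [hd, lin_eval, hux, hvx]; ring
  have e2 := extract 2 (by norm_num) (by norm_num)
    (fun k => p2 k (lin (u (be k)) (v (be k))) (lin (u (al k)) (v (al k))) (x (be k)) (x (al k)))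
    (fun k => p2_deg _ _ _ _ _ _ _) 0 (by simp) (2 + ‖x‖ ^ 2)
    (fun k t ht => by simpa only [p2_eval, hco, hd0, hr] using hb k t ht)
    (fun t _ => by simpa only [p2_eval, hco, hd0, hr, eval_zero] using hs t)
  have ev : ∀ k, aeval Complex.I (p2 k (lin (u (be k)) (v (be k))) (lin (u (al k)) (v (al k)))
      (x (be k)) (x (al k))) = (W (be k) ^ 2) ^ k * (W (be k) ^ 4 *
        ((((2 * k + 5) * x (be k) : ℝ) : ℂ) * W (al k) + W (be k) * x (al k))) := by
    intro k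
    rw [p2_I, lin_I, lin_I]
  have s2 : ‖W b‖ ^ 5 * |x b| ≤ 0 := by
    refine small_zero (‖W b‖ ^ 2) (by positivity) _ (16 * (2 + ‖x‖ ^ 2)) fun n => ?_
    obtain ⟨k, hk, ha, hb'⟩ := visit b b n
    refine ⟨k, hk, le_trans ?_ (e2 k)⟩
    rw [ev, ha, hb']
    have : (W b ^ 2) ^ k * (W b ^ 4 * ((((2 * k + 5) * x b : ℝ) : ℂ) * W b + W b * x b))
        = ((2 * k + 6 : ℝ) : ℂ) * ((W b ^ 2) ^ k * (W b ^ 5 * x b)) := by
      push_cast; ring
    rw [this, norm_mul, Complex.norm_real, norm_mul, norm_mul, norm_pow, norm_pow, norm_pow,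
      Complex.norm_real, Real.norm_eq_abs, Real.norm_eq_abs,
      abs_of_nonneg (by positivity : (0 : ℝ) ≤ 2 * k + 6)]
    have hk0 : (0 : ℝ) ≤ k := Nat.cast_nonneg k
    exact le_mul_of_one_le_left (by positivity) (by linarith)
  have hxb : x b = 0 := by
    have : 0 < ‖W b‖ ^ 5 := by positivity
    have h2 : |x b| ≤ 0 := by nlinarith [abs_nonneg (x b)]
    exact abs_nonpos_iff.mp h2
  refine lp.ext (funext fun a => ?_)
  have s3 : ‖W b‖ ^ 5 * |x a| ≤ 0 := by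
    refine small_zero (‖W b‖ ^ 2) (by positivity) _ (16 * (2 + ‖x‖ ^ 2)) fun n => ?_
    obtain ⟨k, hk, ha, hb'⟩ := visit a b n
    refine ⟨k, hk, le_trans ?_ (e2 k)⟩
    rw [ev, ha, hb', hxb]
    have : (W b ^ 2) ^ k * (W b ^ 4 * ((((2 * k + 5) * 0 : ℝ) : ℂ) * W a + W b * x a))
        = (W b ^ 2) ^ k * (W b ^ 5 * x a) := by
      push_cast; ring
    rw [this, norm_mul, norm_mul, norm_pow, norm_pow, norm_pow,
      Complex.norm_real, Real.norm_eq_abs]
  have : 0 < ‖W b‖ ^ 5 := by positivity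
  have h2 : |x a| ≤ 0 := by nlinarith [abs_nonneg (x a)]
  exact abs_nonpos_iff.mp h2

lemma onb (G : Submodule ℝ (H ℕ)) (hG : 2 ≤ Module.rank ℝ G) :
    ∃ u ∈ G, ∃ v ∈ G, ‖u‖ = 1 ∧ ‖v‖ = 1 ∧ ⟪u, v⟫ = 0 := by
  obtain ⟨w, hw⟩ := (Module.le_rank_iff (n := 2)).mp (by exact_mod_cast hG)
  have hw' := hw.map' G.subtype G.ker_subtype
  have := InnerProductSpace.gramSchmidtNormed_orthonormal hw'
  have hm : ∀ i, InnerProductSpace.gramSchmidtNormed ℝ (G.subtype ∘ w) i ∈ G := by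
    intro i
    refine G.smul_mem _ ?_
    have := InnerProductSpace.gramSchmidt_mem_span ℝ (G.subtype ∘ w) (le_refl i)
    refine Submodule.span_le.mpr ?_ this
    rintro _ ⟨j, _, rfl⟩
    exact (w j).2
  exact ⟨_, hm 0, _, hm 1, this.1 0, this.1 1, this.2 (by decide)⟩

lemma inf_dim : ¬ FiniteDimensional ℝ (E D) := by
  intro h
  have : FiniteDimensional ℝ (H ℕ) := (toH D).finiteDimensional
  have h1 : Orthonormal ℝ (fun i : ℕ => (lp.single 2 i (1 : ℝ) : H ℕ)) := by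
    rw [orthonormal_iff_ite]
    intro i j
    rw [lp.inner_single_left]
    by_cases hij : i = j <;> simp [lp.single_apply, Pi.single_apply, hij]
  have := h1.linearIndependent.finite
  exact _root_.not_finite ℕ


/-- The negation of the preceding statement: Every infinite-dimensional real or complex Banach space E has a subspace G of dimension at least 2 and a nonzero x in E with ‖g + αx‖ ≥ ‖g‖ for all g in G and all scalars α. -/
theorem result :
    ¬ (∀ (𝕜 : Type) [RCLike 𝕜] (E : Type) [NormedAddCommGroup E] [NormedSpace 𝕜 E]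
      [CompleteSpace E], ¬ FiniteDimensional 𝕜 E →
      ∃ G : Submodule 𝕜 E, 2 ≤ Module.rank 𝕜 G ∧
        ∃ x : E, x ≠ 0 ∧ ∀ g ∈ G, ∀ α : 𝕜, ‖g‖ ≤ ‖g + α • x‖) := by
  intro h
  obtain ⟨G, hG, x, hx, ho⟩ := h ℝ (E D) inf_dim
  obtain ⟨u, hu, v, hv, h1, h2, h3⟩ := onb (G.map (toH D).toLinearMap)
    (by rw [LinearEquiv.rank_map_eq]; exact hG)
  obtain ⟨u, hu, rfl⟩ := hu
  obtain ⟨v, hv, rfl⟩ := hv
  have := no_strong _ _ (toH D x) h1 h2 h3 fun t s => by
    have := ho (u + t • v) (G.add_mem hu (G.smul_mem t hv)) s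
    rw [norm_E, norm_E] at this
    simp only [map_add, map_smul] at this
    rw [← N_sq, ← N_sq]
    exact pow_le_pow_left₀ (N_nonneg D _) this 2
  exact hx (by simpa using this)

end Pool.Agent.S05340
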