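import Pool.Statements.S05355

set_option autoImplicit false
open Pool Pool.MP_8d66ab_an

namespace Pool.Agent.S05355

noncomputable section

open Set Filter Topology

/-- twice differentiable with value and two derivatives bounded by `e` -/
def Sm (h : ℝ → ℝ) (e : ℝ) : Prop :=
  ∃ h1 h2 : ℝ → ℝ, (∀ y, HasDerivAt h (h1 y) y) ∧ (∀ y, HasDerivAt h1 (h2 y) y) ∧
    ∀ y, |h y| ≤ e ∧ |h1 y| ≤ e ∧ |h2 y| ≤ e

lemma Sm.add {h k : ℝ → ℝ} {e f : ℝ} (a : Sm h e) (b : Sm k f) :
    Sm (fun y => h y + k y) (e + f) := by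
  obtain ⟨h1, h2, a1, a2, a3⟩ := a
  obtain ⟨k1, k2, b1, b2, b3⟩ := b
  refine ⟨fun y => h1 y + k1 y, fun y => h2 y + k2 y, fun y => (a1 y).add (b1 y),
    fun y => (a2 y).add (b2 y), fun y => ?_⟩
  obtain ⟨c1, c2, c3⟩ := a3 y
  obtain ⟨d1, d2, d3⟩ := b3 y
  exact ⟨(abs_add_le _ _).trans (add_le_add c1 d1), (abs_add_le _ _).trans (add_le_add c2 d2),
    (abs_add_le _ _).trans (add_le_add c3 d3)⟩

lemma Sm.mono {h : ℝ → ℝ} {e f : ℝ} (a : Sm h e) (hef : e ≤ f) : Sm h f := by
  obtain ⟨h1, h2, a1, a2, a3⟩ := a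
  exact ⟨h1, h2, a1, a2, fun y => ⟨(a3 y).1.trans hef, (a3 y).2.1.trans hef,
    (a3 y).2.2.trans hef⟩⟩

lemma Sm.scale {p : ℝ → ℝ} {K : ℝ} (a : Sm p K) (c r t e : ℝ) (hr : 0 < r) (hr1 : r ≤ 1)
    (ht : |t| ≤ e * r ^ 2) : Sm (fun y => t * p ((y - c) / r)) (e * K) := by
  obtain ⟨p1, p2, a1, a2, a3⟩ := a
  have hK : 0 ≤ K := (abs_nonneg _).trans (a3 0).1
  have he : 0 ≤ e := by
    by_contra hne
    push Not at hne
    have : e * r ^ 2 < 0 := mul_neg_of_neg_of_pos hne (by positivity)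
    linarith [abs_nonneg t]
  have hd : ∀ y : ℝ, HasDerivAt (fun y => (y - c) / r) (1 / r) y := fun y =>
    ((hasDerivAt_id y).sub_const c).div_const r
  refine ⟨fun y => t * (p1 ((y - c) / r) * (1 / r)),
    fun y => t * (p2 ((y - c) / r) * (1 / r) * (1 / r)), fun y => ?_, fun y => ?_, fun y => ?_⟩
  · exact ((a1 _).comp y (hd y)).const_mul t
  · exact (((a2 _).comp y (hd y)).mul_const (1 / r)).const_mul t
  · obtain ⟨c1, c2, c3⟩ := a3 ((y - c) / r)
    have hr' : |1 / r| = 1 / r := abs_of_pos (by positivity)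
    have t0 : |t| ≤ e := ht.trans (by nlinarith [mul_le_mul hr1 hr1 hr.le zero_le_one])
    have t1 : |t| * (1 / r) ≤ e := by
      rw [mul_one_div, div_le_iff₀ hr]; nlinarith [mul_nonneg he hr.le]
    have t2 : |t| * (1 / r) * (1 / r) ≤ e := by
      rw [mul_one_div, mul_one_div, div_le_iff₀ hr, div_le_iff₀ hr]; nlinarith
    refine ⟨?_, ?_, ?_⟩
    · rw [abs_mul]; exact mul_le_mul t0 c1 (abs_nonneg _) he
    · rw [abs_mul, abs_mul, hr']
      calc |t| * (|p1 ((y - c) / r)| * (1 / r)) = |t| * (1 / r) * |p1 ((y - c) / r)| := by ring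
        _ ≤ e * K := mul_le_mul t1 c2 (abs_nonneg _) he
    · rw [abs_mul, abs_mul, abs_mul, hr']
      calc |t| * (|p2 ((y - c) / r)| * (1 / r) * (1 / r))
          = |t| * (1 / r) * (1 / r) * |p2 ((y - c) / r)| := by ring
        _ ≤ e * K := mul_le_mul t2 c3 (abs_nonneg _) he

lemma sm_of_cs {p : ℝ → ℝ} (hp : ContDiff ℝ 2 p) (hs : HasCompactSupport p) : ∃ K, Sm p K := by
  have h1 : ContDiff ℝ 1 (deriv p) := by
    have := (contDiff_succ_iff_deriv (n := 1) (f := p)).1 (by simpa [one_add_one_eq_two] using hp)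
    exact this.2.2
  have h2 : Continuous (deriv (deriv p)) := h1.continuous_deriv le_rfl
  obtain ⟨K0, k0⟩ := hp.continuous.bounded_above_of_compact_support hs
  obtain ⟨K1, k1⟩ := h1.continuous.bounded_above_of_compact_support hs.deriv
  obtain ⟨K2, k2⟩ := h2.bounded_above_of_compact_support hs.deriv.deriv
  refine ⟨max K0 (max K1 K2), deriv p, deriv (deriv p),
    fun y => (hp.differentiable (by norm_num) y).hasDerivAt,
    fun y => (h1.differentiable (by norm_num) y).hasDerivAt, fun y => ⟨?_, ?_, ?_⟩⟩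
  · exact (k0 y).trans (le_max_left _ _)
  · exact (k1 y).trans ((le_max_left _ _).trans (le_max_right _ _))
  · exact (k2 y).trans ((le_max_right _ _).trans (le_max_right _ _))

lemma bump : ∃ K : ℝ, 0 < K ∧ ∀ c r a b d e : ℝ, 0 < r → r ≤ 1 → |a| ≤ e * r ^ 2 → |b| ≤ e * r →
    |d| ≤ e → ∃ h : ℝ → ℝ, Sm h (e * K) ∧ (∀ y, r ≤ |y - c| → h y = 0) ∧
      ∀ y, |y - c| ≤ r / 2 → h y = a + b * (y - c) + d * (y - c) ^ 2 := by
  let p : ContDiffBump (0 : ℝ) := ⟨1 / 2, 1, by norm_num, by norm_num⟩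
  have hp : ContDiff ℝ 2 p := p.contDiff
  have hs : HasCompactSupport p := p.hasCompactSupport
  obtain ⟨K0, k0⟩ := sm_of_cs hp hs
  obtain ⟨K1, k1⟩ := sm_of_cs (p := fun t => t * p t) (contDiff_id.mul hp) hs.mul_left
  obtain ⟨K2, k2⟩ := sm_of_cs (p := fun t => t ^ 2 * p t) ((contDiff_id.pow 2).mul hp) hs.mul_left
  refine ⟨|K0| + |K1| + |K2| + 1, by positivity, fun c r a b d e hr hr1 ha hb hd => ?_⟩
  have he : 0 ≤ e := (abs_nonneg _).trans hd
  have s0 := k0.scale c r a e hr hr1 ha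
  have s1 := k1.scale c r (b * r) e hr hr1 (by
    rw [abs_mul, abs_of_pos hr]; nlinarith)
  have s2 := k2.scale c r (d * r ^ 2) e hr hr1 (by
    rw [abs_mul, abs_of_pos (pow_pos hr 2)]; nlinarith [pow_pos hr 2])
  refine ⟨_, ((s0.add s1).add s2).mono ?_, fun y hy => ?_, fun y hy => ?_⟩
  · nlinarith [mul_le_mul_of_nonneg_left (le_abs_self K0) he,
      mul_le_mul_of_nonneg_left (le_abs_self K1) he, mul_le_mul_of_nonneg_left (le_abs_self K2) he]
  · have : p ((y - c) / r) = 0 := by
      apply p.zero_of_le_dist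
      show (1 : ℝ) ≤ _
      rw [Real.dist_eq, sub_zero, abs_div, abs_of_pos hr, le_div_iff₀ hr]; linarith
    simp [this]
  · have : p ((y - c) / r) = 1 := by
      apply p.one_of_mem_closedBall
      show dist _ _ ≤ (1 / 2 : ℝ)
      rw [Real.dist_eq, sub_zero, abs_div, abs_of_pos hr, div_le_iff₀ hr]; linarith
    simp only [this]
    field_simp

section scheme

variable {S : Type} (ch : S → Bool → S) (h : S → ℝ → ℝ)

def G : ℕ → S → ℝ → ℝ
  | 0 => fun s => h s
  | k + 1 => fun s y => G k (ch s true) y + G k (ch s false) y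

def st (s : S) (b : ℕ → Bool) : ℕ → S
  | 0 => s
  | n + 1 => ch (st s b n) (b n)

lemma st_succ (s : S) (b : ℕ → Bool) (n : ℕ) :
    st ch s b (n + 1) = st ch (ch s (b 0)) (fun i => b (i + 1)) n := by
  induction n with
  | zero => rfl
  | succ n ih => rw [st, ih]; rfl

lemma uncount : ¬ (Set.univ : Set (ℕ → Bool)).Countable := by
  intro H
  obtain ⟨f, hf⟩ := H.exists_eq_range ⟨fun _ => true, trivial⟩
  obtain ⟨n, hn⟩ : (fun n => !f n n) ∈ range f := hf ▸ mem_univ _
  have := congrFun hn n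
  simp at this

lemma scheme0 (g : ℝ → ℝ) (hg : Continuous g) (c r e : S → ℝ) (F : S → ℝ → ℝ)
    (he : ∀ s, 0 < e s) (hr : ∀ s, 0 < r s) (hval : ∀ s, F s (c s) = g (c s))
    (hsm : ∀ s, Sm (h s) (e s)) (hz : ∀ s y, r s ≤ |y - c s| → h s y = 0)
    (hin : ∀ s b, |c (ch s b) - c s| + r (ch s b) ≤ r s) (hre : ∀ s b, r (ch s b) ≤ e s)
    (hee : ∀ s b, e (ch s b) = e s / 4) (hF : ∀ s b y, F (ch s b) y = F s y + h s y)
    (hdis : ∀ s, r (ch s true) + r (ch s false) < |c (ch s true) - c (ch s false)|)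
    (s0 : S) (d1 : Differentiable ℝ (F s0)) (d2 : Differentiable ℝ (deriv (F s0))) :
    ∃ f : ℝ → ℝ, Differentiable ℝ f ∧ Differentiable ℝ (deriv f) ∧
      ¬ Set.Countable {x : ℝ | f x = g x} := by
  have G1 : ∀ k s, Sm (G ch h k s) (e s / 2 ^ k) := by
    intro k
    induction k with
    | zero => intro s; simpa [G] using hsm s
    | succ k ih =>
      intro s
      refine ((ih (ch s true)).add (ih (ch s false))).mono (le_of_eq ?_)
      rw [hee, hee, pow_succ]; field_simp; ring
  have nest : ∀ s b y, |y - c (ch s b)| ≤ r (ch s b) → |y - c s| ≤ r s := by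
    intro s b y hy
    have := abs_sub_le y (c (ch s b)) (c s)
    linarith [hin s b]
  have G2 : ∀ k s y, r s ≤ |y - c s| → G ch h k s y = 0 := by
    intro k
    induction k with
    | zero => exact hz
    | succ k ih =>
      intro s y hy
      have : ∀ b, G ch h k (ch s b) y = 0 := fun b => ih _ _ (by
        have := abs_sub_le y (c (ch s b)) (c s)
        linarith [hin s b])
      simp [G, this]
  have nest2 : ∀ s b m n y, m ≤ n → |y - c (st ch s b n)| ≤ r (st ch s b n) →
      |y - c (st ch s b m)| ≤ r (st ch s b m) := by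
    intro s b m n y hmn
    induction hmn with
    | refl => exact id
    | step _ ih => exact fun hy => ih (nest _ _ _ hy)
  have sep : ∀ s b y, |y - c (ch s b)| ≤ r (ch s b) → r (ch s (!b)) < |y - c (ch s (!b))| := by
    intro s b y hy
    have h1 := abs_sub_le (c (ch s true)) y (c (ch s false))
    have h2 := hdis s
    rw [abs_sub_comm _ y] at h1
    cases b <;> simp only [Bool.not_true, Bool.not_false] <;> linarith
  have G3 : ∀ k s b y, |y - c (st ch s b k)| ≤ r (st ch s b k) →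
      G ch h k s y = h (st ch s b k) y := by
    intro k
    induction k with
    | zero => intro s b y _; rfl
    | succ k ih =>
      intro s b y hy
      rw [st_succ] at hy ⊢
      have h1 := ih _ _ _ hy
      have h2 : |y - c (ch s (b 0))| ≤ r (ch s (b 0)) := nest2 _ _ 0 k y (Nat.zero_le _) hy
      have h3 := G2 k _ y (sep s (b 0) y h2).le
      rw [← h1]
      cases hb : b 0 <;> simp only [hb, Bool.not_true, Bool.not_false] at h3 <;> simp [G, h3]
  have FF : ∀ b n y, F (st ch s0 b n) y =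
      F s0 y + ∑ k ∈ Finset.range n, h (st ch s0 b k) y := by
    intro b n y
    induction n with
    | zero => simp [st]
    | succ n ih => rw [st, hF, ih, Finset.sum_range_succ]; ring
  have EE : ∀ b n, e (st ch s0 b n) = e s0 / 4 ^ n := by
    intro b n
    induction n with
    | zero => simp [st]
    | succ n ih => rw [st, hee, ih, pow_succ]; field_simp
  choose A1 A2 a1 a2 a3 using fun k => G1 k s0
  have hu : Summable fun k : ℕ => e s0 / 2 ^ k := by
    have := (summable_geometric_two).mul_left (e s0)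
    refine this.congr fun k => ?_
    rw [one_div, inv_pow, div_eq_mul_inv]
  have b1 : ∀ y, HasDerivAt (fun z => ∑' k, G ch h k s0 z) (∑' k, A1 k y) y := fun y =>
    hasDerivAt_tsum (y₀ := 0) hu a1 (fun k y => (a3 k y).2.1)
      (Summable.of_norm_bounded hu fun k => (a3 k 0).1) y
  have b2 : ∀ y, HasDerivAt (fun z => ∑' k, A1 k z) (∑' k, A2 k y) y := fun y =>
    hasDerivAt_tsum (y₀ := 0) hu a2 (fun k y => (a3 k y).2.2)
      (Summable.of_norm_bounded hu fun k => (a3 k 0).2.1) y
  have df : ∀ y, HasDerivAt (fun z => F s0 z + ∑' k, G ch h k s0 z)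
      (deriv (F s0) y + ∑' k, A1 k y) y := fun y => (d1 y).hasDerivAt.add (b1 y)
  refine ⟨fun z => F s0 z + ∑' k, G ch h k s0 z, fun y => (df y).differentiableAt, ?_, ?_⟩
  · have : deriv (fun z => F s0 z + ∑' k, G ch h k s0 z) =
        fun y => deriv (F s0) y + ∑' k, A1 k y := funext fun y => (df y).deriv
    rw [this]
    exact fun y => (d2 y).add (b2 y).differentiableAt
  have hx : ∀ b : ℕ → Bool, ∃ x, ∀ n, |x - c (st ch s0 b n)| ≤ r (st ch s0 b n) := by
    intro b
    obtain ⟨x, hx⟩ := IsCompact.nonempty_iInter_of_sequence_nonempty_isCompact_isClosed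
      (fun n => Metric.closedBall (c (st ch s0 b n)) (r (st ch s0 b n)))
      (fun n y hy => nest _ _ y hy) (fun n => ⟨_, Metric.mem_closedBall_self (hr _).le⟩)
      (isCompact_closedBall _ _) (fun n => Metric.isClosed_closedBall)
    exact ⟨x, fun n => mem_iInter.1 hx n⟩
  choose x hx using hx
  have inj : Function.Injective x := by
    intro b b' hbb
    have : ∀ n, st ch s0 b n = st ch s0 b' n ∧ b n = b' n := by
      have key : ∀ n, st ch s0 b n = st ch s0 b' n → b n = b' n := by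
        intro n hn
        by_contra hne
        have h1 := hx b (n + 1)
        have h2 := hx b' (n + 1)
        have h3 : b' n = !b n := by
          cases hb : b n <;> cases hb' : b' n <;> simp_all
        rw [st] at h1 h2
        rw [← hn, h3, ← hbb] at h2
        linarith [sep _ _ _ h1]
      intro n
      induction n with
      | zero => exact ⟨rfl, key 0 rfl⟩
      | succ n ih =>
        have : st ch s0 b (n + 1) = st ch s0 b' (n + 1) := by rw [st, st, ih.1, ih.2]
        exact ⟨this, key _ this⟩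
    exact funext fun n => (this n).2
  intro hc
  apply uncount
  refine (hc.preimage_of_injOn (f := x) inj.injOn).mono fun b _ => ?_
  show F s0 (x b) + ∑' k, G ch h k s0 (x b) = g (x b)
  have t1 : Tendsto (fun n => c (st ch s0 b n)) atTop (𝓝 (x b)) := by
    rw [← tendsto_add_atTop_iff_nat 1, tendsto_iff_norm_sub_tendsto_zero]
    have t0 : Tendsto (fun n : ℕ => e s0 / 4 ^ n) atTop (𝓝 0) :=
      tendsto_const_nhds.div_atTop (tendsto_pow_atTop_atTop_of_one_lt (by norm_num))
    refine squeeze_zero (fun n => norm_nonneg _) (fun n => ?_) t0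
    rw [Real.norm_eq_abs, abs_sub_comm, ← EE b n]
    exact (hx b (n + 1)).trans (hre _ _)
  have t2 := (tendstoUniformly_tsum_nat hu (fun k y => (a3 k y).1)).tendsto_comp
    (b1 (x b)).continuousAt t1
  have t3 := ((d1.continuous.tendsto (x b)).comp t1).add t2
  have t4 := (hg.tendsto (x b)).comp t1
  refine tendsto_nhds_unique t3 (t4.congr fun n => ?_)
  simp only [Function.comp]
  rw [← hval, FF]
  congr 1
  refine Finset.sum_congr rfl fun k hk => (G3 k s0 b _ ?_).symm
  exact nest2 _ _ k n _ (Finset.mem_range.1 hk).le (by simpa using (hr _).le)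

end scheme

lemma scheme (g : ℝ → ℝ) (hg : Continuous g) (Good : ℝ → ℝ → (ℝ → ℝ) → Prop)
    (hval : ∀ c r F, Good c r F → 0 < r ∧ F c = g c)
    (step : ∀ c r F, Good c r F → ∀ e, 0 < e → ∃ (h : ℝ → ℝ) (c' r' : Bool → ℝ), Sm h e ∧
      (∀ y, r ≤ |y - c| → h y = 0) ∧
      (∀ b, |c' b - c| + r' b ≤ r ∧ r' b ≤ e ∧ Good (c' b) (r' b) (fun y => F y + h y)) ∧
      r' true + r' false < |c' true - c' false|)
    (c0 r0 : ℝ) (F0 : ℝ → ℝ) (h0 : Good c0 r0 F0) (d1 : Differentiable ℝ F0)
    (d2 : Differentiable ℝ (deriv F0)) :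
    ∃ f : ℝ → ℝ, Differentiable ℝ f ∧ Differentiable ℝ (deriv f) ∧
      ¬ Set.Countable {x : ℝ | f x = g x} := by
  let S := {p : ℝ × ℝ × ℝ × (ℝ → ℝ) // Good p.1 p.2.1 p.2.2.2 ∧ 0 < p.2.2.1}
  choose h c' r' k1 k2 k3 k4 using fun s : S => step _ _ _ s.2.1 _ s.2.2
  let ch : S → Bool → S := fun s b => ⟨(c' s b, r' s b, s.1.2.2.1 / 4,
    fun y => s.1.2.2.2 y + h s y), (k3 s b).2.2, div_pos s.2.2 (by norm_num)⟩
  exact scheme0 ch h g hg (fun s => s.1.1) (fun s => s.1.2.1) (fun s => s.1.2.2.1)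
    (fun s => s.1.2.2.2) (fun s => s.2.2) (fun s => (hval _ _ _ s.2.1).1)
    (fun s => (hval _ _ _ s.2.1).2) k1 k2 (fun s b => (k3 s b).1) (fun s b => (k3 s b).2.1)
    (fun _ _ => rfl) (fun _ _ _ => rfl) k4 ⟨(c0, r0, 1, F0), h0, one_pos⟩ d1 d2

def Node (g : ℝ → ℝ) (x s : ℝ) : Prop :=
  HasDerivAt g s x ∧ ∃ r, 0 < r ∧ ∀ y ∈ Icc x (x + r), g x + s * (y - x) ≤ g y

lemma node_of_min {g : ℝ → ℝ} (hg : Differentiable ℝ g) {a b x s : ℝ} (h1 : a < x) (h2 : x < b)
    (h : ∀ y ∈ Icc a b, g x + s * (y - x) ≤ g y) : Node g x s := by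
  refine ⟨?_, b - x, by linarith, fun y hy => h y ⟨by linarith [hy.1], by linarith [hy.2]⟩⟩
  have hm : IsLocalMin (fun y => g y - s * y) x := by
    filter_upwards [Icc_mem_nhds h1 h2] with y hy
    have := h y hy
    linarith
  have hd : HasDerivAt (fun y => g y - s * y) (deriv g x - s * 1) x :=
    (hg x).hasDerivAt.sub ((hasDerivAt_id x).const_mul s)
  have := hm.hasDerivAt_eq_zero hd
  have e : s = deriv g x := by linarith
  rw [e]; exact (hg x).hasDerivAt

lemma near {g : ℝ → ℝ} {c q : ℝ} (hq : HasDerivAt g q c) {t : ℝ} (ht : 0 < t) :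
    ∃ d, 0 < d ∧ ∀ w, |w - c| < d → |g w - g c - q * (w - c)| ≤ t * |w - c| := by
  have := hq.isLittleO.bound ht
  obtain ⟨d, hd, h⟩ := Metric.eventually_nhds_iff.1 this
  refine ⟨d, hd, fun w hw => ?_⟩
  have := h (y := w) (by rwa [Real.dist_eq])
  simpa [mul_comm] using this

lemma near' {g : ℝ → ℝ} {c q : ℝ} (hq : HasDerivAt g q c) {t d : ℝ} (ht : 0 < t) (hd : 0 < d) :
    ∃ w, c < w ∧ w < c + d ∧ g w - g c - q * (w - c) < t * (w - c) := by
  obtain ⟨d', hd', h⟩ := near hq (half_pos ht)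
  have hm : 0 < min d d' := lt_min hd hd'
  have h1 := min_le_left d d'
  have h2 := min_le_right d d'
  refine ⟨c + min d d' / 2, by linarith, by linarith, ?_⟩
  have e : |c + min d d' / 2 - c| = c + min d d' / 2 - c := abs_of_pos (by linarith)
  have h3 := h (c + min d d' / 2) (by rw [e]; linarith)
  rw [e] at h3
  have := (abs_le.1 h3).2
  nlinarith [mul_pos ht hm]

lemma above {g : ℝ → ℝ} {p q : ℝ} (h : ¬ ConvexOn ℝ (Icc p q) g) :
    ∃ m ∈ Icc p q, ∀ s, ∃ z ∈ Icc p q, g z - s * z < g m - s * m := by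
  by_contra H
  push Not at H
  apply h
  refine ⟨convex_Icc _ _, fun x hx y hy a b ha hb hab => ?_⟩
  obtain ⟨s, hs⟩ := H _ (convex_Icc p q hx hy ha hb hab)
  have h1 := mul_le_mul_of_nonneg_left (hs x hx) ha
  have h2 := mul_le_mul_of_nonneg_left (hs y hy) hb
  simp only [smul_eq_mul] at *
  have e : g (a * x + b * y) - s * (a * x + b * y) =
      a * (g (a * x + b * y) - s * (a * x + b * y)) +
      b * (g (a * x + b * y) - s * (a * x + b * y)) := by rw [← add_mul, hab, one_mul]
  nlinarith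

lemma bitan {g : ℝ → ℝ} (hg : Differentiable ℝ g)
    (hn : ∀ p q, p < q → ¬ ConvexOn ℝ (Icc p q) g) {c q : ℝ} (hc : Node g c q)
    {d0 e : ℝ} (hd0 : 0 < d0) (he : 0 < e) :
    ∃ u v s, c ≤ u ∧ u < v ∧ v ≤ c + d0 ∧ |s - q| ≤ e ∧ g v = g u + s * (v - u) ∧
      Node g u s ∧ Node g v s := by
  obtain ⟨hq, r, hr, hs⟩ := id hc
  obtain ⟨d, hd, hdd, hdr⟩ : ∃ d, 0 < d ∧ d ≤ d0 ∧ d < r :=
    ⟨min d0 (r / 2), lt_min hd0 (half_pos hr), min_le_left _ _,
      (min_le_right _ _).trans_lt (half_lt_self hr)⟩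
  rcases (hs (c + d) ⟨by linarith, by linarith⟩).eq_or_lt with h0 | h0
  · refine ⟨c, c + d, q, le_rfl, by linarith, by linarith, by simpa using he.le, h0.symm, hc,
      node_of_min hg (a := c) (b := c + r) (by linarith) (by linarith) fun y hy => ?_⟩
    have := hs y hy
    linarith
  obtain ⟨e', he', hee, hed⟩ : ∃ e', 0 < e' ∧ e' ≤ e ∧ g c + (q + e') * d < g (c + d) := by
    have hD : 0 < (g (c + d) - g c - q * d) / (2 * d) := div_pos (by linarith) (by linarith)
    refine ⟨min e ((g (c + d) - g c - q * d) / (2 * d)), lt_min he hD, min_le_left _ _, ?_⟩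
    have h1 := min_le_right e ((g (c + d) - g c - q * d) / (2 * d))
    rw [le_div_iff₀ (by linarith)] at h1
    nlinarith
  obtain ⟨w, hw1, hw2, hw3⟩ := near' hq (half_pos he') hd
  obtain ⟨m, hm, hm'⟩ := above (hn c (c + (w - c) / 2) (by linarith))
  have hcont : Continuous (Function.uncurry fun t y : ℝ => g y - (q + t) * y) := by
    have := hg.continuous
    fun_prop
  have cL := (isCompact_Icc (a := c) (b := m)).continuous_sInf
    (f := fun t y : ℝ => g y - (q + t) * y) hcont
  have cR := (isCompact_Icc (a := m) (b := c + d)).continuous_sInf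
    (f := fun t y : ℝ => g y - (q + t) * y) hcont
  have hcm : c ≤ m := hm.1
  have hmw : m ≤ c + (w - c) / 2 := hm.2
  have ct : ∀ t, Continuous fun y : ℝ => g y - (q + t) * y := fun t => by
    have := hg.continuous
    fun_prop
  have exL : ∀ t, ∃ u ∈ Icc c m, sInf ((fun y : ℝ => g y - (q + t) * y) '' Icc c m) =
      g u - (q + t) * u ∧ ∀ y ∈ Icc c m, g u - (q + t) * u ≤ g y - (q + t) * y := fun t =>
    isCompact_Icc.exists_sInf_image_eq_and_le ⟨c, le_rfl, hcm⟩ (ct t).continuousOn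
  have exR : ∀ t, ∃ u ∈ Icc m (c + d), sInf ((fun y : ℝ => g y - (q + t) * y) '' Icc m (c + d)) =
      g u - (q + t) * u ∧ ∀ y ∈ Icc m (c + d), g u - (q + t) * u ≤ g y - (q + t) * y := fun t =>
    isCompact_Icc.exists_sInf_image_eq_and_le ⟨m, le_rfl, by linarith⟩ (ct t).continuousOn
  obtain ⟨t, ht, hteq⟩ := intermediate_value_Icc he'.le (cL.sub cR).continuousOn (a := 0)
    (show (0 : ℝ) ∈ _ from by
      constructor
      · obtain ⟨u, hu, e1, e2⟩ := exL 0
        obtain ⟨v, hv, e3, e4⟩ := exR 0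
        simp only [Pi.sub_apply]
        rw [e1, e3]
        have := e2 c ⟨le_rfl, hcm⟩
        have := hs v ⟨by linarith [hv.1], by linarith [hv.2]⟩
        linarith
      · obtain ⟨u, hu, e1, e2⟩ := exL e'
        obtain ⟨v, hv, e3, e4⟩ := exR e'
        simp only [Pi.sub_apply]
        rw [e1, e3]
        have := e4 w ⟨by linarith, by linarith⟩
        have := hs u ⟨hu.1, by linarith [hu.2]⟩
        have : e' * (u - c) ≤ e' * ((w - c) / 2) :=
          mul_le_mul_of_nonneg_left (by linarith [hu.2]) he'.le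
        linarith)
  obtain ⟨u, hu, e1, e2⟩ := exL t
  obtain ⟨v, hv, e3, e4⟩ := exR t
  simp only [Pi.sub_apply] at hteq
  rw [e1, e3] at hteq
  have gl : ∀ y ∈ Icc c (c + d), g u - (q + t) * u ≤ g y - (q + t) * y := by
    intro y hy
    rcases le_total y m with h | h
    · exact e2 y ⟨hy.1, h⟩
    · have := e4 y ⟨h, hy.2⟩
      linarith
  obtain ⟨z, hz, hz'⟩ := hm' (q + t)
  have hz2 := gl z ⟨hz.1, by linarith [hz.2]⟩
  have hum : u < m := lt_of_le_of_ne hu.2 (by rintro rfl; linarith)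
  have hmv : m < v := lt_of_le_of_ne hv.1 (by rintro rfl; linarith)
  have hvd : v < c + d := lt_of_le_of_ne hv.2 (by
    rintro rfl
    have := gl c ⟨le_rfl, by linarith⟩
    have : t * d ≤ e' * d := mul_le_mul_of_nonneg_right ht.2 hd.le
    linarith)
  refine ⟨u, v, q + t, hu.1, by linarith, by linarith, ?_, by linarith, ?_, ?_⟩
  · rw [add_sub_cancel_left, abs_of_nonneg ht.1]; linarith [ht.2]
  · rcases hu.1.eq_or_lt with h | h
    · subst h
      rcases ht.1.eq_or_lt with h' | h'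
      · rw [← h', add_zero]; exact hc
      · obtain ⟨w', k1, k2, k3⟩ := near' hq h' hd
        have := gl w' ⟨k1.le, k2.le⟩
        linarith
    · exact node_of_min hg h (b := c + d) (by linarith) fun y hy => by linarith [gl y hy]
  · exact node_of_min hg (a := c) (by linarith) hvd fun y hy => by linarith [gl y hy]

lemma caseB {g : ℝ → ℝ} (hg : Differentiable ℝ g)
    (hn : ∀ p q, p < q → ¬ ConvexOn ℝ (Icc p q) g) (hc : ¬ ConcaveOn ℝ (Icc 0 1) g) :
    ∃ f : ℝ → ℝ, Differentiable ℝ f ∧ Differentiable ℝ (deriv f) ∧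
      ¬ Set.Countable {x : ℝ | f x = g x} := by
  obtain ⟨c0, q0, h0⟩ : ∃ c q, Node g c q := by
    by_contra H
    push Not at H
    apply hc
    apply concaveOn_iff_forall_pos.2
    refine ⟨convex_Icc _ _, fun x _ y _ a b ha hb hab => ?_⟩
    wlog hxy : x ≤ y generalizing x y a b
    · have := this y ‹_› x ‹_› b a hb ha (by linarith) (by linarith)
      rwa [add_comm (b • g y), add_comm (b • y)] at this
    rcases hxy.eq_or_lt with rfl | hxy
    · simp only [smul_eq_mul, ← add_mul, hab, one_mul, le_refl]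
    by_contra hlt
    push Not at hlt
    simp only [smul_eq_mul] at hlt
    obtain ⟨s, hs⟩ : ∃ s, g y = g x + s * (y - x) :=
      ⟨(g y - g x) / (y - x), by rw [div_mul_cancel₀ _ (by linarith)]; ring⟩
    obtain ⟨z, hz, hz'⟩ := (isCompact_Icc (a := x) (b := y)).exists_isMinOn ⟨x, le_rfl, hxy.le⟩
      (f := fun w => g w - s * w) (by have := hg.continuous; fun_prop)
    have hb' : b = 1 - a := by linarith
    have k : g z - s * z ≤ g (a * x + b * y) - s * (a * x + b * y) :=
      hz' (show a * x + b * y ∈ Icc x y from ⟨by subst hb'; nlinarith, by subst hb'; nlinarith⟩)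
    have k2 : g z - s * z < g x - s * x := by
      rw [hs] at hlt; subst hb'; nlinarith
    refine H z s (node_of_min hg (lt_of_le_of_ne hz.1 ?_) (lt_of_le_of_ne hz.2 ?_) fun w hw => ?_)
    · rintro rfl; linarith
    · rintro rfl; linarith
    · have : g z - s * z ≤ g w - s * w := hz' hw
      linarith
  obtain ⟨K, hK, hb⟩ := bump
  refine scheme g hg.continuous
    (fun c r F => 0 < r ∧ ∃ q, Node g c q ∧ ∀ y, |y - c| ≤ r → F y = g c + q * (y - c))
    ?_ ?_ c0 1 (fun y => g c0 + q0 * (y - c0)) ⟨one_pos, q0, h0, fun _ _ => rfl⟩ (by fun_prop) ?_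
  · rintro c r F ⟨hr, q, -, hF⟩
    exact ⟨hr, by simpa using hF c (by simpa using hr.le)⟩
  · rintro c r F ⟨hr, q, hN, hF⟩ e he
    obtain ⟨p, hp, hp1, hpr⟩ : ∃ p, 0 < p ∧ p ≤ 1 ∧ p ≤ r :=
      ⟨min 1 r, lt_min one_pos hr, min_le_left _ _, min_le_right _ _⟩
    obtain ⟨E, hE, hEK⟩ : ∃ E, 0 < E ∧ E * K = e := ⟨e / K, div_pos he hK, by field_simp⟩
    obtain ⟨d1, hd1, hn1⟩ := near hN.1 one_pos
    obtain ⟨d, hd, k1, k2, k3⟩ : ∃ d, 0 < d ∧ d < d1 ∧ d ≤ p / 4 ∧ (1 + E * p) * d ≤ E * p ^ 2 := by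
      have h3 : 0 < E * p ^ 2 / (1 + E * p) := by positivity
      refine ⟨min (d1 / 2) (min (p / 4) (E * p ^ 2 / (1 + E * p))),
        lt_min (half_pos hd1) (lt_min (by linarith) h3),
        (min_le_left _ _).trans_lt (half_lt_self hd1),
        (min_le_right _ _).trans (min_le_left _ _), ?_⟩
      rw [← le_div_iff₀' (by positivity)]
      exact (min_le_right _ _).trans (min_le_right _ _)
    obtain ⟨u, v, s, hcu, huv, hvd, hsq, hguv, hNu, hNv⟩ := bitan hg hn hN hd (mul_pos hE hp)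
    have eu : |u - c| = u - c := abs_of_nonneg (by linarith)
    have ev : |v - c| = v - c := abs_of_nonneg (by linarith)
    obtain ⟨h, s1, s2, s3⟩ := hb c p (g u + s * (c - u) - g c) (s - q) 0 E hp hp1 (by
      have j1 := hn1 u (by rw [eu]; linarith)
      have j2 : g u + s * (c - u) - g c = (g u - g c - q * (u - c)) - (s - q) * (u - c) := by ring
      have j3 : |(s - q) * (u - c)| ≤ E * p * d := by
        rw [abs_mul, eu]
        exact mul_le_mul hsq (by linarith) (by linarith) (by positivity)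
      rw [j2]
      refine (abs_sub _ _).trans ?_
      rw [eu] at j1
      linarith) hsq (by simpa using hE.le)
    obtain ⟨t, ht, t1, t2, t3⟩ : ∃ t, 0 < t ∧ t ≤ (v - u) / 3 ∧ t ≤ e ∧ t ≤ p / 4 :=
      ⟨min ((v - u) / 3) (min e (p / 4)), lt_min (by linarith) (lt_min he (by linarith)),
        min_le_left _ _, (min_le_right _ _).trans (min_le_left _ _),
        (min_le_right _ _).trans (min_le_right _ _)⟩
    have key : ∀ y, |y - c| ≤ p / 2 → F y + h y = g u + s * (y - u) := by
      intro y hy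
      rw [hF y (by linarith), s3 y hy]; ring
    refine ⟨h, fun b => if b then v else u, fun _ => t, hEK ▸ s1,
      fun y hy => s2 y (by linarith), fun b => ?_, ?_⟩
    · cases b
      · simp only [Bool.false_eq_true, if_false]
        refine ⟨by rw [eu]; linarith, t2, ht, s, hNu, fun y hy => key y ?_⟩
        have := abs_sub_le y u c
        linarith
      · simp only [if_true]
        refine ⟨by rw [ev]; linarith, t2, ht, s, hNv, fun y hy => ?_⟩
        have := abs_sub_le y v c
        rw [key y (by linarith), hguv]; ring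
    · simp only [if_true, Bool.false_eq_true, if_false]
      rw [abs_of_pos (by linarith)]; linarith
  · have : deriv (fun y => g c0 + q0 * (y - c0)) = fun _ => q0 := by
      funext y
      have := (((hasDerivAt_id y).sub_const c0).const_mul q0).const_add (g c0)
      simpa using this.deriv
    rw [this]; fun_prop

lemma cond {E : Set ℝ} (hE : ¬ E.Countable) (k : ℝ → ℝ) :
    ∃ E' ⊆ E, E'.Nonempty ∧ ∀ x ∈ E', ∀ d, 0 < d → ∃ v ∈ E', v ≠ x ∧ |v - x| < d ∧
      |k v - k x| < d := by
  let B : ℝ → ℝ → Set ℝ := fun x d => {v ∈ E | |v - x| < d ∧ |k v - k x| < d}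
  let bad : Set ℝ := {x ∈ E | ∃ d, 0 < d ∧ (B x d).Countable}
  have hb : bad.Countable := by
    have h1 : ∀ p : ℝ × ℝ, ∃ d, 0 < d ∧ (p.1 ∈ bad → (B p.1 d).Countable) := by
      intro p
      by_cases hp : p.1 ∈ bad
      · obtain ⟨-, d, hd, h⟩ := hp
        exact ⟨d, hd, fun _ => h⟩
      · exact ⟨1, one_pos, fun h => absurd h hp⟩
    choose d hd hd' using h1
    obtain ⟨t, ht, htc, hcov⟩ := TopologicalSpace.countable_cover_nhdsWithin
      (s := (fun x => (x, k x)) '' bad) (f := fun p => Metric.ball p (d p))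
      (fun p _ => mem_nhdsWithin_of_mem_nhds (Metric.ball_mem_nhds p (hd p)))
    refine (htc.biUnion (t := fun p _ => B p.1 (d p)) fun p hp => ?_).mono fun x hx => ?_
    · obtain ⟨x, hx, rfl⟩ := ht hp
      exact hd' _ hx
    · obtain ⟨p, hp, hxp⟩ := mem_iUnion₂.1 (hcov (mem_image_of_mem _ hx))
      obtain ⟨z, hz, rfl⟩ := ht hp
      rw [Metric.mem_ball, Prod.dist_eq, max_lt_iff, Real.dist_eq, Real.dist_eq] at hxp
      exact mem_iUnion₂.2 ⟨_, hp, hx.1, hxp⟩
  refine ⟨E \ bad, diff_subset, ?_, fun x hx d hd => ?_⟩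
  · by_contra H
    rw [not_nonempty_iff_eq_empty, diff_eq_empty] at H
    exact hE (hb.mono H)
  · by_contra H
    push Not at H
    refine hx.2 ⟨hx.1, d, hd, (hb.insert x).mono fun v hv => ?_⟩
    by_contra hv'
    rw [mem_insert_iff, not_or] at hv'
    exact absurd hv.2.2 (not_lt.2 (H v ⟨hv.1, hv'.2⟩ hv'.1 hv.2.1))

lemma caseA {g : ℝ → ℝ} (hg : Differentiable ℝ g)
    (hE : ¬ {x | DifferentiableAt ℝ (deriv g) x}.Countable) :
    ∃ f : ℝ → ℝ, Differentiable ℝ f ∧ Differentiable ℝ (deriv f) ∧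
      ¬ Set.Countable {x : ℝ | f x = g x} := by
  obtain ⟨E', hE', ⟨c0, h0⟩, hcond⟩ := cond hE (deriv (deriv g))
  obtain ⟨K, hK, hb⟩ := bump
  let T : ℝ → ℝ → ℝ := fun c y =>
    g c + deriv g c * (y - c) + deriv (deriv g) c / 2 * (y - c) ^ 2
  have dT : ∀ c y, HasDerivAt (T c) (deriv g c + deriv (deriv g) c * (y - c)) y := by
    intro c y
    have h1 := (hasDerivAt_id y).sub_const c
    have := ((h1.const_mul (deriv g c)).const_add (g c)).add
      ((h1.pow 2).const_mul (deriv (deriv g) c / 2))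
    refine this.congr_deriv ?_
    simp only [id, Nat.cast_ofNat, Nat.add_one_sub_one, pow_one]; ring
  refine scheme g hg.continuous
    (fun c r F => 0 < r ∧ c ∈ E' ∧ ∀ y, |y - c| ≤ r → F y = T c y)
    ?_ ?_ c0 1 (T c0) ⟨one_pos, h0, fun _ _ => rfl⟩ (fun y => (dT c0 y).differentiableAt) ?_
  · rintro c r F ⟨hr, -, hF⟩
    exact ⟨hr, by simpa [T] using hF c (by simpa using hr.le)⟩
  · rintro c r F ⟨hr, hc, hF⟩ e he
    obtain ⟨E, hE0, hEK⟩ : ∃ E, 0 < E ∧ E * K = e := ⟨e / K, div_pos he hK, by field_simp⟩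
    obtain ⟨d1, hd1, hn1⟩ := near (hE' hc).hasDerivAt (show 0 < E / 4 by linarith)
    obtain ⟨d, hd, k1, k2, k3, k4, k5⟩ : ∃ d, 0 < d ∧ d ≤ d1 ∧ d ≤ r / 2 ∧ d ≤ E ∧ d ≤ 1 ∧ d ≤ e :=
      ⟨min d1 (min (r / 2) (min E (min 1 e))),
        lt_min hd1 (lt_min (half_pos hr) (lt_min hE0 (lt_min one_pos he))), min_le_left _ _,
        (min_le_right _ _).trans (min_le_left _ _),
        (min_le_right _ _).trans ((min_le_right _ _).trans (min_le_left _ _)),
        (min_le_right _ _).trans ((min_le_right _ _).trans ((min_le_right _ _).trans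
          (min_le_left _ _))),
        (min_le_right _ _).trans ((min_le_right _ _).trans ((min_le_right _ _).trans
          (min_le_right _ _)))⟩
    obtain ⟨v, hv, hvc, hv1, hv2⟩ := hcond c hc d hd
    obtain ⟨D, hD⟩ : ∃ D, D = |v - c| := ⟨_, rfl⟩
    have hD0 : 0 < D := hD ▸ abs_pos.2 (sub_ne_zero.2 hvc)
    have j1 : |g v - T c v| ≤ E * (D / 2) ^ 2 := by
      have := (convex_closedBall c D).norm_image_sub_le_of_norm_hasDerivWithin_le
        (f := fun y => g y - T c y)
        (f' := fun y => deriv g y - (deriv g c + deriv (deriv g) c * (y - c))) (C := E / 4 * D)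
        (fun y _ => ((hg y).hasDerivAt.sub (dT c y)).hasDerivWithinAt)
        (fun y hy => by
          rw [Metric.mem_closedBall, Real.dist_eq] at hy
          have := hn1 y (by linarith)
          rw [Real.norm_eq_abs, ← sub_sub]
          exact this.trans (mul_le_mul_of_nonneg_left hy (by linarith)))
        (Metric.mem_closedBall_self hD0.le) (y := v) (by rw [Metric.mem_closedBall, Real.dist_eq, hD])
      have e0 : g c - T c c = 0 := by simp [T]
      simp only [e0, sub_zero, Real.norm_eq_abs, ← hD] at this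
      linarith
    obtain ⟨h, s1, s2, s3⟩ := hb v (D / 2) (g v - T c v)
      (deriv g v - deriv g c - deriv (deriv g) c * (v - c))
      ((deriv (deriv g) v - deriv (deriv g) c) / 2) E (half_pos hD0) (by linarith) j1
      (by
        have := hn1 v (by linarith)
        rw [← hD] at this
        nlinarith [mul_pos hE0 hD0])
      (by rw [abs_div, abs_two]; linarith)
    refine ⟨h, fun b => if b then v else c, fun _ => D / 4, hEK ▸ s1, fun y hy => s2 y ?_,
      fun b => ?_, ?_⟩
    · have := abs_sub_le y v c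
      linarith
    · cases b
      · simp only [Bool.false_eq_true, if_false]
        refine ⟨by rw [sub_self, abs_zero]; linarith, by linarith, by linarith, hc, fun y hy => ?_⟩
        have := abs_sub_le v y c
        rw [abs_sub_comm v y] at this
        rw [hF y (by linarith), s2 y (by linarith), add_zero]
      · simp only [if_true]
        refine ⟨by linarith, by linarith, by linarith, hv, fun y hy => ?_⟩
        have := abs_sub_le y v c
        rw [hF y (by linarith), s3 y (by linarith)]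
        simp only [T]; ring
    · simp only [if_true, Bool.false_eq_true, if_false]
      linarith
  · have : deriv (T c0) = fun y => deriv g c0 + deriv (deriv g) c0 * (y - c0) :=
      funext fun y => (dT c0 y).deriv
    rw [this]; fun_prop

lemma unc {k : ℝ → ℝ} {p q : ℝ} (hpq : p < q) (h : MonotoneOn k (Ioo p q)) :
    ¬ {x | DifferentiableAt ℝ k x}.Countable := by
  intro hc
  have h1 := h.ae_differentiableWithinAt_of_mem
  have h2 : ∀ᵐ x : ℝ, x ∉ {x | DifferentiableAt ℝ k x} :=
    MeasureTheory.measure_eq_zero_iff_ae_notMem.1 (hc.measure_zero _)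
  have h3 : ∀ᵐ x : ℝ, x ∉ Ioo p q := by
    filter_upwards [h1, h2] with x a b hx
    exact b ((a hx).differentiableAt (Ioo_mem_nhds hx.1 hx.2))
  have := MeasureTheory.measure_eq_zero_iff_ae_notMem.2 h3
  rw [Real.volume_Ioo, ENNReal.ofReal_eq_zero] at this
  linarith

end

theorem result :
    ∀ g : ℝ → ℝ, Differentiable ℝ g →
      ∃ f : ℝ → ℝ, Differentiable ℝ f ∧ Differentiable ℝ (deriv f) ∧
        ¬ Set.Countable {x : ℝ | f x = g x} := by
  intro g hg
  by_cases h1 : ∃ p q, p < q ∧ ConvexOn ℝ (Set.Icc p q) g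
  · obtain ⟨p, q, hpq, h⟩ := h1
    exact caseA hg (unc hpq ((h.monotoneOn_deriv fun x _ => hg x).mono Set.Ioo_subset_Icc_self))
  by_cases h2 : ConcaveOn ℝ (Set.Icc 0 1) g
  · refine caseA hg fun hc => unc (k := fun x => - deriv g x) one_pos
      (((h2.antitoneOn_deriv fun x _ => hg x).mono Set.Ioo_subset_Icc_self).neg) (hc.mono ?_)
    intro x hx
    simpa using DifferentiableAt.neg hx
  · push Not at h1
    exact caseB hg h1 h2

end Pool.Agent.S05355
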