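import Pool.Statements.S05388
-- import your own Pool.Agent.* helpers here
import Pool.Agent.Lib.helper16.ND6

set_option autoImplicit false
open Pool Pool.MP_90e313_an

namespace Pool.Agent.S05388

open Pool.Agent.Lib.helper16.ND Pool.Agent.Lib.helper16.NDB Filter Topology

lemma bas_basis (M : ℕ) (x : E D) : ∃! a : ℕ → ℝ,
    Tendsto (fun n : ℕ => ∑ i ∈ Finset.range n, a i • bas M i) atTop (nhds x) := by
  refine ⟨fun i => ev (rev M i) x, ?_, fun a ha => ?_⟩
  · simpa only [cutE_eq] using cutE_tendsto (rev M) x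
  · funext i
    have h1 := ((ev (rev M i)).continuous.tendsto _).comp ha
    refine tendsto_nhds_unique (tendsto_const_nhds.congr' ?_) h1
    filter_upwards [eventually_gt_atTop i] with n hn
    simp only [Function.comp, ev_sum, rev_rev, if_pos hn]

lemma bas_cut (M p q : ℕ) (h : p ≤ q) (b : ℕ → ℝ) :
    ∑ i ∈ Finset.range p, b i • bas M i
      = cutE {j | rev M j < p} (∑ i ∈ Finset.range q, b i • bas M i) := by
  refine ext_ev' _ _ fun j => ?_
  rw [ev_cutE, Set.indicator_apply, ev_sum, ev_sum]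
  simp only [Set.mem_ofPred_eq]
  split_ifs <;> first | rfl | omega

lemma indep (e : ℕ → E D) (he : ∀ x : E D, ∃! a : ℕ → ℝ,
    Tendsto (fun n : ℕ => ∑ i ∈ Finset.range n, a i • e i) atTop (nhds x)) :
    LinearIndependent ℝ e := by
  classical
  rw [linearIndependent_iff']
  intro s g hg i hi
  have h1 : Tendsto (fun n : ℕ => ∑ i ∈ Finset.range n, (if i ∈ s then g i else 0) • e i) atTop
      (nhds 0) := by
    refine tendsto_const_nhds.congr' ?_
    filter_upwards [eventually_gt_atTop (s.sup id)] with n hn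
    rw [← hg]
    simp only [ite_smul, zero_smul]
    rw [← Finset.sum_filter]
    refine Finset.sum_congr ?_ fun _ _ => rfl
    ext j
    simp only [Finset.mem_filter, Finset.mem_range]
    exact ⟨fun h => ⟨lt_of_le_of_lt (Finset.le_sup (f := id) h) hn, h⟩, fun h => h.2⟩
  have h2 : Tendsto (fun n : ℕ => ∑ i ∈ Finset.range n, (0 : ℝ) • e i) atTop (nhds 0) := by simp
  have := congrFun ((he 0).unique h1 h2) i
  simpa [hi] using this


/-- The negation of the preceding statement: Every real or complex Banach space with a Schauder basis has a Schauder basis whose basis constant equals the infimum of the basis constants over all its Schauder bases. -/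
theorem result :
    ¬ (∀ (𝕜 : Type) [RCLike 𝕜] (E : Type) [NormedAddCommGroup E] [NormedSpace 𝕜 E] [CompleteSpace E],
      (∃ e : ℕ → E, ∀ x : E, ∃! a : ℕ → 𝕜,
          Filter.Tendsto (fun n : ℕ => ∑ i ∈ Finset.range n, a i • e i) Filter.atTop (nhds x)) →
      ∃ e : ℕ → E,
        (∀ x : E, ∃! a : ℕ → 𝕜,
          Filter.Tendsto (fun n : ℕ => ∑ i ∈ Finset.range n, a i • e i) Filter.atTop (nhds x)) ∧
        ∀ (a : ℕ → 𝕜) (m n : ℕ), m ≤ n →
          ‖∑ i ∈ Finset.range m, a i • e i‖ ≤
            sInf {K : ℝ | ∃ f : ℕ → E,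
                (∀ x : E, ∃! b : ℕ → 𝕜,
                  Filter.Tendsto (fun k : ℕ => ∑ i ∈ Finset.range k, b i • f i) Filter.atTop (nhds x)) ∧
                ∀ (b : ℕ → 𝕜) (p q : ℕ), p ≤ q →
                  ‖∑ i ∈ Finset.range p, b i • f i‖ ≤ K * ‖∑ i ∈ Finset.range q, b i • f i‖} *
              ‖∑ i ∈ Finset.range n, a i • e i‖) := by
  intro h
  obtain ⟨e, he, hm⟩ := h ℝ (E D) ⟨bas 0, bas_basis 0⟩
  set s := sInf {K : ℝ | ∃ f : ℕ → E D,
    (∀ x : E D, ∃! b : ℕ → ℝ,
      Filter.Tendsto (fun k : ℕ => ∑ i ∈ Finset.range k, b i • f i) Filter.atTop (nhds x)) ∧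
    ∀ (b : ℕ → ℝ) (p q : ℕ), p ≤ q →
      ‖∑ i ∈ Finset.range p, b i • f i‖ ≤ K * ‖∑ i ∈ Finset.range q, b i • f i‖} with hs
  have hs1 : s ≤ 1 := by
    refine le_of_forall_pos_le_add fun δ hδ => ?_
    obtain ⟨M, hM⟩ := good δ hδ
    rw [hs]
    by_cases hb : BddBelow {K : ℝ | ∃ f : ℕ → E D,
      (∀ x : E D, ∃! b : ℕ → ℝ,
        Filter.Tendsto (fun k : ℕ => ∑ i ∈ Finset.range k, b i • f i) Filter.atTop (nhds x)) ∧
      ∀ (b : ℕ → ℝ) (p q : ℕ), p ≤ q →
        ‖∑ i ∈ Finset.range p, b i • f i‖ ≤ K * ‖∑ i ∈ Finset.range q, b i • f i‖}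
    · refine csInf_le hb ⟨bas M, bas_basis M, fun b p q hpq => ?_⟩
      rw [bas_cut M p q hpq b]
      exact le_trans (ContinuousLinearMap.le_opNorm _ _)
        (mul_le_mul_of_nonneg_right (hM p) (norm_nonneg _))
    · rw [Real.sInf_of_not_bddBelow hb]; linarith
  have hi := indep e he
  have hG : 2 ≤ Module.rank ℝ (Submodule.span ℝ (Set.range ![e 0, e 1])) := by
    have : LinearIndependent ℝ ![e 0, e 1] := by
      have := hi.comp (fun i : Fin 2 => (i : ℕ)) Fin.val_injective
      convert this using 1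
      funext i
      fin_cases i <;> rfl
    rw [rank_span this, Cardinal.mk_range_eq _ this.injective]
    simp
  obtain ⟨b, hb⟩ := strong_fin _ hG
  have hz : ∀ j a, b ≤ a → ev a (e (j + 2)) = 0 := by
    intro j a ha
    rw [ev_apply]
    refine hb _ (fun g hg t => ?_) a ha
    obtain ⟨c, rfl⟩ := (Submodule.mem_span_range_iff_exists_fun ℝ).mp hg
    have := hm (fun i => if i = 0 then c 0 else if i = 1 then c 1 else if i = j + 2 then t else 0)
      2 (j + 3) (by omega)
    have e1 : ∑ i ∈ Finset.range (j + 3),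
        (if i = 0 then c 0 else if i = 1 then c 1 else if i = j + 2 then t else 0) • e i
        = c 0 • e 0 + c 1 • e 1 + t • e (j + 2) := by
      rw [Finset.sum_range_succ, add_comm j 2, Finset.sum_range_add, Finset.sum_eq_zero (s := Finset.range j)]
      · simp [Finset.sum_range_succ]
        intro h; omega
      · intro i hi
        have := Finset.mem_range.mp hi
        rw [if_neg (by omega), if_neg (by omega), if_neg (by omega), zero_smul]
    rw [e1] at this
    simp only [Finset.sum_range_succ, Finset.range_zero, Finset.sum_empty, zero_add, if_true,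
      one_ne_zero, if_false] at this
    simp only [Fin.sum_univ_two, Matrix.cons_val_zero, Matrix.cons_val_one]
    exact le_trans this (mul_le_of_le_one_left (norm_nonneg _) hs1)
  let T : E D →ₗ[ℝ] (Fin b → ℝ) := LinearMap.pi fun a => (ev a : E D →ₗ[ℝ] ℝ)
  have hi2 : LinearIndependent ℝ (T ∘ fun j => e (j + 2)) := by
    refine (hi.comp (fun j => j + 2) (add_left_injective 2)).map ?_
    rw [Submodule.disjoint_def]
    intro x hx hx2
    refine ext_ev x fun a => ?_
    by_cases ha : a < b
    · exact congrFun (LinearMap.mem_ker.mp hx2) ⟨a, ha⟩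
    · refine Submodule.span_induction (p := fun x _ => ev a x = 0) ?_ ?_ ?_ ?_ hx
      · rintro _ ⟨j, rfl⟩
        exact hz j a (not_lt.mp ha)
      · simp
      · intro x y _ _ h1 h2; simp [h1, h2]
      · intro c x _ h1; simp [h1]
  have := hi2.finite
  exact not_finite ℕ

end Pool.Agent.S05388
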