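import Pool.Statements.S05422
import Pool.Agent.Lib.helper5.BaSub

set_option autoImplicit false
open Pool Pool.MP_92fb3f_an

namespace Pool.Agent.S05422

/-- The negation of the preceding statement: For every real Banach space X: if every separable subspace of the bidual X** lies in a separable complemented subspace of X**, then every separable subspace of X lies in a separable complemented subspace of X. -/
theorem result :
    ¬ (∀ (X : Type) [NormedAddCommGroup X] [NormedSpace ℝ X] [CompleteSpace X],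
    (∀ Y : Submodule ℝ ((X →L[ℝ] ℝ) →L[ℝ] ℝ),
      TopologicalSpace.IsSeparable (Y : Set ((X →L[ℝ] ℝ) →L[ℝ] ℝ)) →
      ∃ Z : Submodule ℝ ((X →L[ℝ] ℝ) →L[ℝ] ℝ), Y ≤ Z ∧
        IsClosed (Z : Set ((X →L[ℝ] ℝ) →L[ℝ] ℝ)) ∧
        TopologicalSpace.IsSeparable (Z : Set ((X →L[ℝ] ℝ) →L[ℝ] ℝ)) ∧
        ∃ P : ((X →L[ℝ] ℝ) →L[ℝ] ℝ) →L[ℝ] ((X →L[ℝ] ℝ) →L[ℝ] ℝ),
          (∀ x, P x ∈ Z) ∧ ∀ z ∈ Z, P z = z) →
    (∀ Y : Submodule ℝ X, TopologicalSpace.IsSeparable (Y : Set X) →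
      ∃ Z : Submodule ℝ X, Y ≤ Z ∧ IsClosed (Z : Set X) ∧
        TopologicalSpace.IsSeparable (Z : Set X) ∧
        ∃ P : X →L[ℝ] X, (∀ x, P x ∈ Z) ∧ ∀ z ∈ Z, P z = z)) := by
  intro h
  obtain ⟨X, _, _, _, h1, s, s1, s2⟩ := H5B.main
  obtain ⟨Z, z1, -, z2, P, p1, p2⟩ := h X (fun Y hY => by
    obtain ⟨P, p1, p2, p3⟩ := h1.proj hY
    have k : ∀ y ∈ P.range, P y = y := by
      rintro _ ⟨x, rfl⟩
      exact p3 x
    exact ⟨P.range, fun y k => ⟨y, p1 y k⟩, isClosed_of_closure_subset fun y h => ⟨y, closure_minimal k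
      (isClosed_eq P.continuous continuous_id) h⟩, p2, P, fun x => ⟨x, rfl⟩, k⟩)
    (.span ℝ s) (s1.isSeparable.span (R := ℝ))
  exact s2 P (fun x k => p2 x (z1 (Submodule.subset_span k))) (z2.mono (Set.range_subset_iff.2 p1))

end Pool.Agent.S05422
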