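import Pool.Statements.S05428
import Pool.Agent.Lib.helper15.Conv

set_option autoImplicit false
open Pool Pool.MP_935ebb_an

namespace Pool.Agent.S05428

open Filter Topology Pool.Agent.Lib.helper15.Conv

lemma mean_of_locfin (G : Type) [Group G]
    (h : ∀ S : Finset G, ∃ H : Subgroup G, (H : Set G).Finite ∧ ∀ g ∈ S, g ∈ H) :
    ∃ μ : Set G → ℝ, (∀ A, 0 ≤ μ A) ∧ μ Set.univ = 1 ∧
        (∀ A B : Set G, Disjoint A B → μ (A ∪ B) = μ A + μ B) ∧
        (∀ (g : G) (A : Set G), μ ((fun x => g * x) '' A) = μ A) := by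
  classical
  choose H hH hS using h
  let U : Ultrafilter (Finset G) := Ultrafilter.of atTop
  have hU : (U : Filter (Finset G)) ≤ atTop := Ultrafilter.of_le _
  let m : Set G → Finset G → ℝ := fun A S => ((A ∩ H S).ncard : ℝ) / (H S : Set G).ncard
  have hpos : ∀ S, (0 : ℝ) < (H S : Set G).ncard := fun S => by
    exact_mod_cast (Set.ncard_pos (hH S)).2 ⟨1, (H S).one_mem⟩
  have hm : ∀ A S, m A S ∈ Set.Icc (0 : ℝ) 1 := fun A S =>
    ⟨by positivity, (div_le_one (hpos S)).2 (by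
      exact_mod_cast Set.ncard_le_ncard Set.inter_subset_right (hH S))⟩
  have hl : ∀ A, ∃ x ∈ Set.Icc (0 : ℝ) 1, Tendsto (m A) U (𝓝 x) := fun A =>
    isCompact_Icc.ultrafilter_le_nhds (U.map (m A)) (by
      rw [Ultrafilter.coe_map, le_principal_iff, mem_map]
      exact univ_mem' (hm A))
  choose μ hμ1 hμ2 using hl
  refine ⟨μ, fun A => (hμ1 A).1, ?_, fun A B hAB => ?_, fun g A => ?_⟩
  · refine tendsto_nhds_unique (hμ2 _) (tendsto_const_nhds.congr fun S => ?_)
    simp [m, (hpos S).ne']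
  · refine tendsto_nhds_unique (hμ2 _) (((hμ2 A).add (hμ2 B)).congr fun S => ?_)
    simp only [m]
    rw [← add_div, Set.union_inter_distrib_right, Set.ncard_union_eq
      (hAB.mono Set.inter_subset_left Set.inter_subset_left)
      ((hH S).subset Set.inter_subset_right) ((hH S).subset Set.inter_subset_right)]
    push_cast; rfl
  · refine tendsto_nhds_unique (hμ2 _) ((hμ2 A).congr' ?_)
    filter_upwards [hU (mem_atTop {g})] with S hS'
    have hg : g ∈ H S := hS S g (hS' (Finset.mem_singleton_self g))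
    have : (fun x => g * x) '' A ∩ H S = (fun x => g * x) '' (A ∩ H S) := by
      ext x; constructor
      · rintro ⟨⟨y, hy, rfl⟩, h2⟩
        exact ⟨y, ⟨hy, (Subgroup.mul_mem_cancel_left _ hg).1 h2⟩, rfl⟩
      · rintro ⟨y, ⟨hy, h2⟩, rfl⟩
        exact ⟨⟨y, hy, rfl⟩, (H S).mul_mem hg h2⟩
    simp only [m]
    rw [this, Set.ncard_image_of_injective _ (mul_right_injective g)]

@[ext] structure Gp where
  v : ℕ → ZMod 2
  w : ℕ → ℕ → ZMod 2

def tens (u v : ℕ → ZMod 2) : ℕ → ℕ → ZMod 2 := fun i j => u i * v j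

instance : Mul Gp := ⟨fun a b => ⟨a.v + b.v, a.w + b.w + tens a.v b.v⟩⟩
instance : One Gp := ⟨⟨0, 0⟩⟩
instance : Inv Gp := ⟨fun a => ⟨-a.v, -a.w + tens a.v a.v⟩⟩
@[simp] lemma mul_v (a b : Gp) : (a * b).v = a.v + b.v := rfl
@[simp] lemma mul_w (a b : Gp) : (a * b).w = a.w + b.w + tens a.v b.v := rfl
@[simp] lemma one_v : (1 : Gp).v = 0 := rfl
@[simp] lemma one_w : (1 : Gp).w = 0 := rfl
@[simp] lemma inv_v (a : Gp) : (a⁻¹).v = -a.v := rfl
@[simp] lemma inv_w (a : Gp) : (a⁻¹).w = -a.w + tens a.v a.v := rfl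

instance : Group Gp := Group.ofLeftAxioms
  (fun a b c => by
    ext i j
    · simp [add_assoc]
    · simp [tens]; ring)
  (fun a => by
    ext i j
    · simp
    · simp [tens])
  (fun a => by
    ext i j
    · exact neg_add_cancel _
    · simp only [mul_w, inv_w, inv_v, one_w, tens, Pi.add_apply, Pi.neg_apply, Pi.zero_apply]
      ring)

lemma fin_span {M : Type} [AddCommGroup M] [Module (ZMod 2) M] (s : Set M) (hs : s.Finite) :
    (Submodule.span (ZMod 2) s : Set M).Finite := by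
  have := Module.Finite.span_of_finite (ZMod 2) hs
  have : Finite (Submodule.span (ZMod 2) s) := Module.finite_of_finite (ZMod 2)
  exact Set.toFinite _

lemma locfin (S : Finset Gp) : ∃ H : Subgroup Gp, (H : Set Gp).Finite ∧ ∀ g ∈ S, g ∈ H := by
  let U := Submodule.span (ZMod 2) (Gp.v '' S)
  have hU : (U : Set (ℕ → ZMod 2)).Finite := fin_span _ (S.finite_toSet.image _)
  let W := Submodule.span (ZMod 2) (Gp.w '' S ∪ Set.image2 tens U U)
  have hW : (W : Set (ℕ → ℕ → ZMod 2)).Finite :=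
    fin_span _ ((S.finite_toSet.image _).union (hU.image2 _ hU))
  have ht : ∀ a ∈ U, ∀ b ∈ U, tens a b ∈ W := fun a ha b hb =>
    Submodule.subset_span (Or.inr (Set.mem_image2_of_mem ha hb))
  refine ⟨{ carrier := {g | g.v ∈ U ∧ g.w ∈ W}
            mul_mem' := fun {a b} ha hb =>
              ⟨U.add_mem ha.1 hb.1, W.add_mem (W.add_mem ha.2 hb.2) (ht _ ha.1 _ hb.1)⟩
            one_mem' := ⟨U.zero_mem, W.zero_mem⟩
            inv_mem' := fun {a} ha =>
              ⟨U.neg_mem ha.1, W.add_mem (W.neg_mem ha.2) (ht _ ha.1 _ ha.1)⟩ }, ?_, ?_⟩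
  · refine ((hU.prod hW).image (fun p => (⟨p.1, p.2⟩ : Gp))).subset fun g hg => ?_
    exact ⟨(g.v, g.w), hg, rfl⟩
  · intro g hg
    exact ⟨Submodule.subset_span ⟨g, hg, rfl⟩, Submodule.subset_span (Or.inl ⟨g, hg, rfl⟩)⟩

lemma z2 (x : ZMod 2) : x = 0 ∨ x = 1 := by revert x; decide

lemma comm_v {a b : Gp} (h : a * b = b * a) (ha : a.v ≠ 0) (hb : b.v ≠ 0) : b.v = a.v := by
  have h1 : ∀ i j, a.v i * b.v j = b.v i * a.v j := fun i j => by
    have := congrFun (congrFun (congrArg Gp.w h) i) j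
    simp only [mul_w, Pi.add_apply, tens] at this
    linear_combination this
  obtain ⟨i, hi⟩ := Function.ne_iff.1 ha
  obtain ⟨k, hk⟩ := Function.ne_iff.1 hb
  have hi' := (z2 (a.v i)).resolve_left hi
  have h2 : b.v i = 1 := by
    refine (z2 (b.v i)).resolve_left fun h0 => hk ?_
    have := h1 i k
    rw [hi', h0] at this; simpa using this
  funext j
  have := h1 i j
  rw [hi', h2] at this; simpa using this

noncomputable def chi (n : ℕ) (g : Gp) : ℂ := if g.v n = 0 then 1 else -1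

lemma chi_mul (n : ℕ) (a b : Gp) : chi n (a * b) = chi n a * chi n b := by
  have h11 : (1 : ZMod 2) + 1 = 0 := by decide
  rcases z2 (a.v n) with h | h <;> rcases z2 (b.v n) with h' | h' <;> simp [chi, h, h', h11]

lemma chi_norm (n : ℕ) (a : Gp) : ‖chi n a‖ ≤ 1 := by
  unfold chi; split_ifs <;> simp

lemma one_pos' : 0 < (1 : ENNReal).toReal := by norm_num

noncomputable def ev (w : Gp → ℂ) (hw : ∀ g, ‖w g‖ ≤ 1) : L Gp 1 →L[ℂ] ℂ :=
  (lp.tsumCLM ℂ Gp ℂ).comp (op one_pos' w hw (Equiv.refl Gp))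

lemma ev_apply (w : Gp → ℂ) (hw : ∀ g, ‖w g‖ ≤ 1) (f : L Gp 1) : ev w hw f = ∑' g, w g * f g := rfl

lemma sm (f : L Gp 1) : Summable fun g => ‖f g‖ := by
  simpa using (lp.memℓp f).summable one_pos'

lemma ev_conv (n : ℕ) (f g h : L Gp 1) (hh : ∀ x, h x = ∑' y, f y * g (y⁻¹ * x)) :
    ev (chi n) (chi_norm n) h = ev (chi n) (chi_norm n) f * ev (chi n) (chi_norm n) g := by
  have := conv_assoc f g h (sm f) (sm g) hh (chi n) 1 (chi_norm n) 1
  simp only [one_mul, chi_mul] at this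
  simp only [ev_apply]
  rw [← tsum_mul_right]
  calc _ = ∑' m, h m * chi n m := tsum_congr fun x => mul_comm _ _
    _ = _ := this.symm
    _ = _ := tsum_congr fun x => by
      rw [mul_comm (chi n x), mul_assoc, ← tsum_mul_left (a := chi n x)]
      congr 2; funext y; ring

open Classical in
lemma ev_single (w : Gp → ℂ) (hw : ∀ g, ‖w g‖ ≤ 1) (x : Gp) :
    ev w hw (lp.single 1 x 1) = w x := by
  rw [ev_apply, tsum_eq_single x]
  · simp
  · intro y hy; simp [lp.single_apply, hy]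

noncomputable def Phi : L Gp 1 →ₗ[ℂ] (ℕ → ℂ) :=
  LinearMap.pi fun n => (ev (chi n) (chi_norm n) : L Gp 1 →ₗ[ℂ] ℂ)

lemma mem_ker (f : L Gp 1) : f ∈ LinearMap.ker Phi ↔ ∀ n, ev (chi n) (chi_norm n) f = 0 := by
  simp [Phi, funext_iff]


/-- The negation of the preceding statement: For every amenable group G and closed two-sided convolution ideal I of l1(G): if I meets l1(H) in a finite-codimensional subspace of l1(H) for every abelian subgroup H, then l1(G)/I is finite-dimensional. -/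
theorem result :
    ¬ (∀ (G : Type) [Group G],
      (∃ μ : Set G → ℝ, (∀ A, 0 ≤ μ A) ∧ μ Set.univ = 1 ∧
        (∀ A B : Set G, Disjoint A B → μ (A ∪ B) = μ A + μ B) ∧
        (∀ (g : G) (A : Set G), μ ((fun x => g * x) '' A) = μ A)) →
      ∀ I : Submodule ℂ (lp (fun _ : G => ℂ) 1),
        IsClosed (I : Set (lp (fun _ : G => ℂ) 1)) →
        (∀ f g : lp (fun _ : G => ℂ) 1, g ∈ I → ∀ h : lp (fun _ : G => ℂ) 1,
          (∀ x : G, h x = ∑' y : G, f y * g (y⁻¹ * x)) → h ∈ I) →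
        (∀ f g : lp (fun _ : G => ℂ) 1, g ∈ I → ∀ h : lp (fun _ : G => ℂ) 1,
          (∀ x : G, h x = ∑' y : G, g y * f (y⁻¹ * x)) → h ∈ I) →
        (∀ H : Subgroup G, (∀ a ∈ H, ∀ b ∈ H, a * b = b * a) →
          ∃ s : Finset (lp (fun _ : G => ℂ) 1),
            (∀ v ∈ s, ∀ x : G, x ∉ H → v x = 0) ∧
            ∀ f : lp (fun _ : G => ℂ) 1, (∀ x : G, x ∉ H → f x = 0) →
              f ∈ I ⊔ Submodule.span ℂ (s : Set (lp (fun _ : G => ℂ) 1))) →
        FiniteDimensional ℂ (lp (fun _ : G => ℂ) 1 ⧸ I)) := by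
  classical
  intro H
  have hfd := H Gp (mean_of_locfin Gp locfin) (LinearMap.ker Phi) ?_ ?_ ?_ ?_
  · have h1 : FiniteDimensional ℂ (LinearMap.range Phi) := Phi.quotKerEquivRange.finiteDimensional
    have h2 : ∀ m : ℕ, (Pi.single m 1 : ℕ → ℂ) ∈ LinearMap.range Phi := by
      intro m
      refine ⟨(1 / 2 : ℂ) • (lp.single 1 1 1 - lp.single 1 (⟨Pi.single m 1, 0⟩ : Gp) 1), ?_⟩
      funext n
      simp only [Phi, LinearMap.pi_apply, ContinuousLinearMap.coe_coe, map_smul, map_sub, ev_single]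
      by_cases h : n = m
      · subst h; simp [chi]; norm_num
      · simp [chi, h]
    have h3 : LinearIndependent ℂ (fun m : ℕ => (⟨_, h2 m⟩ : LinearMap.range Phi)) :=
      LinearIndependent.of_comp (LinearMap.range Phi).subtype (Pi.linearIndependent_single_one ℕ ℂ)
    have := h3.finite
    exact not_finite ℕ
  · have : (LinearMap.ker Phi : Set (L Gp 1)) = ⋂ n, (ev (chi n) (chi_norm n)) ⁻¹' {0} := by
      ext f; rw [SetLike.mem_coe, mem_ker]; simp
    rw [this]
    exact isClosed_iInter fun n => isClosed_singleton.preimage (ev _ _).continuous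
  · intro f g hg h hh
    rw [mem_ker] at hg ⊢
    intro n; rw [ev_conv n f g h hh, hg, mul_zero]
  · intro f g hg h hh
    rw [mem_ker] at hg ⊢
    intro n; rw [ev_conv n g f h hh, hg, zero_mul]
  · intro K hK
    obtain ⟨h, hhK, hh⟩ : ∃ h ∈ K, ∀ g ∈ K, g.v ≠ 0 → g.v = h.v := by
      by_cases h0 : ∃ h ∈ K, h.v ≠ 0
      · obtain ⟨h, h1, h2⟩ := h0
        exact ⟨h, h1, fun g hg hg' => comm_v (hK h h1 g hg) h2 hg'⟩
      · push Not at h0
        exact ⟨1, K.one_mem, fun g hg hg' => absurd (h0 g hg) hg'⟩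
    refine ⟨{lp.single 1 1 1, lp.single 1 h 1}, ?_, fun f hf => ?_⟩
    · intro v hv x hx
      rcases Finset.mem_insert.1 hv with rfl | hv
      · exact lp.single_apply_ne _ _ _ fun h' => hx (h' ▸ K.one_mem)
      · rw [Finset.mem_singleton.1 hv]
        exact lp.single_apply_ne _ _ _ fun h' => hx (h' ▸ hhK)
    · let w0 : Gp → ℂ := fun g => if g.v = 0 then 1 else 0
      let w1 : Gp → ℂ := fun g => if g.v = 0 then 0 else 1
      have hw0 : ∀ g, ‖w0 g‖ ≤ 1 := fun g => by simp only [w0]; split_ifs <;> simp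
      have hw1 : ∀ g, ‖w1 g‖ ≤ 1 := fun g => by simp only [w1]; split_ifs <;> simp
      let s : L Gp 1 := ev w0 hw0 f • lp.single 1 1 1 + ev w1 hw1 f • lp.single 1 h 1
      rw [← sub_add_cancel f s]
      refine Submodule.add_mem_sup ?_ (Submodule.add_mem _ (Submodule.smul_mem _ _
        (Submodule.subset_span (by simp))) (Submodule.smul_mem _ _ (Submodule.subset_span (by simp))))
      rw [mem_ker]
      intro n
      simp only [s, map_sub, map_add, map_smul, ev_single, smul_eq_mul]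
      have s0 : Summable fun g => w0 g * f g := (sm (op one_pos' w0 hw0 (Equiv.refl _) f)).of_norm
      have s1 : Summable fun g => w1 g * f g := (sm (op one_pos' w1 hw1 (Equiv.refl _) f)).of_norm
      rw [sub_eq_zero, ev_apply, ev_apply, ev_apply, ← tsum_mul_right, ← tsum_mul_right,
        ← Summable.tsum_add (s0.mul_right _) (s1.mul_right _)]
      congr 1; funext g
      by_cases hg : g ∈ K
      · by_cases h0 : g.v = 0
        · simp [w0, w1, h0, chi]
        · simp [w0, w1, h0, chi, ← hh g hg h0, mul_comm]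
      · simp [hf g hg]

end Pool.Agent.S05428
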