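import Pool.Statements.S05460
-- import your own Pool.Agent.* helpers here

set_option autoImplicit false
open Pool Pool.MP_95bae3_an

namespace Pool.Agent.S05460

open BoundedContinuousFunction

abbrev H := ℤ →₀ ZMod 2

noncomputable def σ (k : ℤ) : H →+ H := Finsupp.mapDomain.addMonoidHom (fun j => j - k)

lemma σ_apply (k : ℤ) (c : H) (j : ℤ) : σ k c j = c (j + k) := by
  have := Finsupp.mapDomain_apply (f := fun j : ℤ => j - k) (fun a b h => by simpa using h) c (j + k)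
  simp only [add_sub_cancel_right] at this
  exact this

lemma σ_add (k l : ℤ) (c : H) : σ l (σ k c) = σ (k + l) c := by
  ext j; simp only [σ_apply]; congr 1; ring

lemma σ_zero (c : H) : σ 0 c = c := by ext j; simp [σ_apply]

@[ext] structure G where
  k : ℤ
  c : H

noncomputable instance : Mul G := ⟨fun x y => ⟨x.k + y.k, σ y.k x.c + y.c⟩⟩
instance : One G := ⟨⟨0, 0⟩⟩
noncomputable instance : Inv G := ⟨fun x => ⟨-x.k, -σ (-x.k) x.c⟩⟩

@[simp] lemma mul_k (x y : G) : (x * y).k = x.k + y.k := rfl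
@[simp] lemma mul_c (x y : G) : (x * y).c = σ y.k x.c + y.c := rfl
@[simp] lemma one_k : (1 : G).k = 0 := rfl
@[simp] lemma one_c : (1 : G).c = 0 := rfl
@[simp] lemma inv_k (x : G) : (x⁻¹).k = -x.k := rfl
@[simp] lemma inv_c (x : G) : (x⁻¹).c = -σ (-x.k) x.c := rfl

noncomputable instance : Group G := Group.ofLeftAxioms
  (fun a b c => by ext1 <;> simp [add_assoc, σ_add])
  (fun a => by ext1 <;> simp)
  (fun a => by ext1 <;> simp [σ_add, σ_zero])

instance : Countable G := Function.Injective.countable (f := fun x : G => (x.k, x.c))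
  (fun a b h => by ext1; exacts [congrArg Prod.fst h, congrArg Prod.snd h])

lemma folner (F : Finset G) (ε : ℝ) (hε : 0 < ε) : ∃ A : Set G, A.Finite ∧ A.Nonempty ∧
    ∀ g ∈ F, ((symmDiff ((fun x => g * x) '' A) A).ncard : ℝ) < ε * (A.ncard : ℝ) := by
  classical
  obtain ⟨R, hR⟩ : ∃ R : ℕ, ∀ g ∈ F, g.k.natAbs ≤ R :=
    ⟨F.sup fun g => g.k.natAbs, fun g hg => Finset.le_sup (f := fun g : G => g.k.natAbs) hg⟩
  obtain ⟨m, hm⟩ := exists_nat_gt (4 * R / ε)
  have hm0 : (0 : ℝ) < m := lt_of_le_of_lt (by positivity) hm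
  have hm0' : 0 < m := by exact_mod_cast hm0
  let S : Finset H := (F ×ˢ Finset.Ico (0 : ℤ) m).image fun p => σ p.2 p.1.c
  let H0 : Submodule (ZMod 2) H := Submodule.span (ZMod 2) (S : Set H)
  have : Module.Finite (ZMod 2) H0 := Module.Finite.span_of_finite _ S.finite_toSet
  have : Finite H0 := Module.finite_of_finite (ZMod 2)
  have hfin : (H0 : Set H).Finite := Set.toFinite _
  let B : Finset ℤ → Set G := fun I => (fun p : ℤ × H => (⟨p.1, p.2⟩ : G)) '' ((I : Set ℤ) ×ˢ (H0 : Set H))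
  have inj : Function.Injective fun p : ℤ × H => (⟨p.1, p.2⟩ : G) := by
    rintro ⟨a, b⟩ ⟨c, d⟩ h
    simp only [G.mk.injEq] at h
    exact Prod.ext h.1 h.2
  have Bfin : ∀ I, (B I).Finite := fun I => (I.finite_toSet.prod hfin).image _
  have Bcard : ∀ I, (B I).ncard = I.card * (H0 : Set H).ncard := fun I => by
    rw [Set.ncard_image_of_injective _ inj, Set.ncard_prod, Set.ncard_coe_finset]
  have Bmem : ∀ I x, x ∈ B I ↔ x.k ∈ I ∧ x.c ∈ H0 := by
    intro I x
    constructor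
    · rintro ⟨p, hp, rfl⟩; exact ⟨hp.1, hp.2⟩
    · rintro ⟨h1, h2⟩; exact ⟨(x.k, x.c), ⟨h1, h2⟩, rfl⟩
  have hpos : 0 < (H0 : Set H).ncard := (Set.ncard_pos hfin).2 ⟨0, H0.zero_mem⟩
  refine ⟨B (Finset.Ico 0 m), Bfin _, ⟨⟨0, 0⟩, (Bmem _ _).2 ⟨by simpa using hm0', H0.zero_mem⟩⟩,
    fun g hg => ?_⟩
  set A := B (Finset.Ico 0 m) with hA
  have h1 : (fun x => g * x) '' A \ A ⊆ B (Finset.Ico (-R : ℤ) 0 ∪ Finset.Ico (m : ℤ) (m + R)) := by
    rintro _ ⟨⟨x, hx, rfl⟩, hn⟩
    rw [hA, Bmem] at hx hn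
    have hc : (g * x).c ∈ H0 := by
      refine H0.add_mem (Submodule.subset_span ?_) hx.2
      exact Finset.mem_coe.2 (Finset.mem_image.2 ⟨(g, x.k), Finset.mem_product.2 ⟨hg, hx.1⟩, rfl⟩)
    refine (Bmem _ _).2 ⟨?_, hc⟩
    have h2 : ¬ (g * x).k ∈ Finset.Ico (0 : ℤ) m := fun h => hn ⟨h, hc⟩
    have h3 := hR g hg
    have h4 := hx.1
    simp only [mul_k, Finset.mem_Ico, Finset.mem_union] at h2 h4 ⊢
    omega
  have h2 : ((fun x => g * x) '' A \ A).ncard ≤ 2 * R * (H0 : Set H).ncard := by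
    refine (Set.ncard_le_ncard h1 (Bfin _)).trans ?_
    rw [Bcard]
    gcongr
    refine (Finset.card_union_le _ _).trans ?_
    simp; omega
  have h3 : (A \ (fun x => g * x) '' A).ncard = ((fun x => g * x) '' A \ A).ncard := by
    refine (Set.ncard_eq_ncard_iff_ncard_sdiff_eq_ncard_sdiff (Bfin _) ((Bfin _).image _)).1 ?_
    rw [Set.ncard_image_of_injective _ (mul_right_injective g)]
  have h4 : (symmDiff ((fun x => g * x) '' A) A).ncard ≤ 4 * R * (H0 : Set H).ncard := by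
    rw [symmDiff_def]
    refine (Set.ncard_union_le _ _).trans ?_
    show ((fun x => g * x) '' A \ A).ncard + (A \ (fun x => g * x) '' A).ncard ≤ _
    rw [h3]; nlinarith
  have h5 : A.ncard = m * (H0 : Set H).ncard := by rw [hA, Bcard]; simp
  rw [h5]
  have h6 : ((symmDiff ((fun x => g * x) '' A) A).ncard : ℝ) ≤ 4 * R * (H0 : Set H).ncard := by
    exact_mod_cast h4
  have h7 : (0 : ℝ) < (H0 : Set H).ncard := by exact_mod_cast hpos
  rw [div_lt_iff₀ hε] at hm
  push_cast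
  nlinarith

instance : TopologicalSpace G := ⊥
instance : DiscreteTopology G := ⟨rfl⟩

noncomputable def r (g : G) : (G →ᵇ ℝ) →ₗ[ℝ] (G →ᵇ ℝ) where
  toFun φ := φ.compContinuous ⟨fun x => x * g, continuous_of_discreteTopology⟩
  map_add' _ _ := rfl
  map_smul' _ _ := rfl

lemma r_apply (g : G) (φ : G →ᵇ ℝ) (x : G) : r g φ x = φ (x * g) := rfl

lemma r_mul (g h : G) (φ : G →ᵇ ℝ) : r (g * h) φ = r g (r h φ) := by
  ext x; simp [r_apply, mul_assoc]

lemma r_one (φ : G →ᵇ ℝ) : r 1 φ = φ := by ext x; simp [r_apply]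

lemma r_norm (g : G) (φ : G →ᵇ ℝ) : ‖r g φ‖ = ‖φ‖ := by
  have h : ∀ g φ, ‖r g φ‖ ≤ ‖φ‖ := fun g φ => norm_compContinuous_le _ _
  refine le_antisymm (h _ _) ?_
  have := h g⁻¹ (r g φ)
  rwa [← r_mul, inv_mul_cancel, r_one] at this

noncomputable def f : G →ᵇ ℝ := BoundedContinuousFunction.ofNormedAddCommGroupDiscrete
  (fun x => if 0 < x.k then (if x.c (-x.k) = 0 then 1 else -1) else 0) 1 (fun x => by
    split_ifs <;> simp)

lemma f_apply (x : G) : f x = if 0 < x.k then (if x.c (-x.k) = 0 then 1 else -1) else 0 := rfl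

noncomputable def X : Submodule ℝ (G →ᵇ ℝ) :=
  (Submodule.span ℝ (Set.range fun g => r g f)).topologicalClosure

lemma r_mem (g : G) (φ : G →ᵇ ℝ) (h : φ ∈ X) : r g φ ∈ X := by
  have hc : Continuous (r g) := (⟨r g, r_norm g⟩ : (G →ᵇ ℝ) →ₗᵢ[ℝ] (G →ᵇ ℝ)).continuous
  refine map_mem_closure hc h fun ψ hψ => ?_
  refine Submodule.span_induction (p := fun ψ _ => r g ψ ∈ Submodule.span ℝ (Set.range fun g => r g f))
    ?_ ?_ ?_ ?_ hψ
  · rintro _ ⟨h, rfl⟩
    exact Submodule.subset_span ⟨g * h, r_mul _ _ _⟩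
  · simp
  · intro a b _ _ ha hb; rw [map_add]; exact add_mem ha hb
  · intro a b _ hb; rw [map_smul]; exact Submodule.smul_mem _ _ hb

noncomputable def ρ0 (g : G) : X ≃ₗᵢ[ℝ] X where
  toFun φ := ⟨r g φ, r_mem g _ φ.2⟩
  invFun φ := ⟨r g⁻¹ φ, r_mem _ _ φ.2⟩
  map_add' a b := Subtype.ext (map_add (r g) _ _)
  map_smul' a b := Subtype.ext (map_smul (r g) _ _)
  left_inv φ := Subtype.ext (by
    show r g⁻¹ (r g φ) = φ
    rw [← r_mul, inv_mul_cancel, r_one])
  right_inv φ := Subtype.ext (by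
    show r g (r g⁻¹ φ) = φ
    rw [← r_mul, mul_inv_cancel, r_one])
  norm_map' φ := r_norm g φ

noncomputable def ρ : G →* (X ≃ₗᵢ[ℝ] X) where
  toFun := ρ0
  map_one' := by ext1 φ; exact Subtype.ext (r_one _)
  map_mul' g h := by ext1 φ; exact Subtype.ext (r_mul _ _ _)

instance : CompleteSpace X := (Submodule.isClosed_topologicalClosure _).completeSpace_coe

instance : TopologicalSpace.SeparableSpace X :=
  ((Set.countable_range _).isSeparable.span (R := ℝ)).closure.separableSpace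

noncomputable def f0 : X := ⟨f, Submodule.le_topologicalClosure _
  (Submodule.subset_span ⟨1, r_one f⟩)⟩

noncomputable def g1 : G := ⟨1, 0⟩
noncomputable def g2 : G := ⟨1, Finsupp.single (-1) 1⟩

lemma harm : (1 / 2 : ℝ) • (ρ g1 f0 + ρ g2 f0) = f0 := by
  apply Subtype.ext
  ext x
  show (1 / 2 : ℝ) * (f (x * g1) + f (x * g2)) = f x
  simp only [f_apply, mul_k, mul_c, g1, g2, Finsupp.add_apply, σ_apply, Finsupp.zero_apply, add_zero,
    show -(x.k + 1) + 1 = -x.k by ring]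
  rcases lt_trichotomy x.k 0 with h | h | h
  · rw [if_neg (by omega), if_neg (by omega), if_neg (by omega)]; simp
  · rw [h]
    simp only [zero_add, zero_lt_one, if_true, neg_zero, lt_irrefl, if_false, Finsupp.single_eq_same]
    generalize x.c 0 = a
    have : ∀ a : ZMod 2, (a = 0 ∧ ¬ a + 1 = 0) ∨ (¬ a = 0 ∧ a + 1 = 0) := by decide
    rcases this a with ⟨h1, h2⟩ | ⟨h1, h2⟩
    · rw [if_pos h1, if_neg h2]; simp
    · rw [if_neg h1, if_pos h2]; simp
  · rw [if_pos (by omega), if_pos (show 0 < x.k + 1 by omega), if_pos h,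
      Finsupp.single_eq_of_ne (by omega), add_zero]
    ring

lemma ne12 : ρ g1 f0 ≠ ρ g2 f0 := by
  intro h
  have : f (1 * g1) = f (1 * g2) := congrArg (fun φ : X => φ.1 1) h
  simp only [one_mul, f_apply, g1, g2] at this
  norm_num at this


/-- The negation of the preceding statement: Every countable group satisfying the Følner condition, acting by linear isometries on a separable real Banach space, admits an equivalent norm that is invariant under the action and strictly convex. -/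
theorem result :
    ¬ (∀ (G : Type) [Group G] [Countable G],
      (∀ (F : Finset G) (ε : ℝ), 0 < ε → ∃ A : Set G, A.Finite ∧ A.Nonempty ∧
          ∀ g ∈ F, ((symmDiff ((fun x => g * x) '' A) A).ncard : ℝ) < ε * (A.ncard : ℝ)) →
      ∀ (X : Type) [NormedAddCommGroup X] [NormedSpace ℝ X] [CompleteSpace X]
        [TopologicalSpace.SeparableSpace X] (ρ : G →* (X ≃ₗᵢ[ℝ] X)),
      ∃ N : X → ℝ,
        (∀ x y : X, N (x + y) ≤ N x + N y) ∧
        (∀ (c : ℝ) (x : X), N (c • x) = |c| * N x) ∧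
        (∃ a b : ℝ, 0 < a ∧ 0 < b ∧ ∀ x : X, a * ‖x‖ ≤ N x ∧ N x ≤ b * ‖x‖) ∧
        (∀ (g : G) (x : X), N (ρ g x) = N x) ∧
        (∀ x y : X, N x = 1 → N y = 1 → x ≠ y → N ((1 / 2 : ℝ) • (x + y)) < 1)) := by
  intro h
  obtain ⟨N, h1, h2, ⟨a, b, ha, hb, h3⟩, h4, h5⟩ := h G folner X ρ
  have hf : 0 < ‖f‖ := by
    rw [norm_pos_iff]
    intro h0
    have : f g1 = 0 := by rw [h0]; rfl
    simp [f_apply, g1] at this
  have hN : 0 < N f0 := lt_of_lt_of_le (mul_pos ha hf) (h3 f0).1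
  have e : ∀ g, N ((N f0)⁻¹ • ρ g f0) = 1 := fun g => by
    rw [h2, h4, abs_of_pos (inv_pos.2 hN), inv_mul_cancel₀ hN.ne']
  have := h5 _ _ (e g1) (e g2) (fun h => ne12 (smul_right_injective _ (inv_pos.2 hN).ne' h))
  rw [← smul_add, smul_comm, harm, h2, abs_of_pos (inv_pos.2 hN), inv_mul_cancel₀ hN.ne'] at this
  exact lt_irrefl _ this

end Pool.Agent.S05460
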