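import Pool.Statements.S05466
import Pool.Agent.Lib.helper31.Osc

set_option autoImplicit false
open MeasureTheory Filter Topology
open Pool Pool.MP_95eb0c_an

namespace Pool.Agent.S05466

/-- The negation of the preceding statement: For ideal gas γ>1, any sequence of bounded weak solutions of 1D Lagrangian gas dynamics on t>0 with uniform bounds τ,p bounded away from 0 and ∣v∣≤V, converging weak-* in L^∞, has velocity and pressure converging in L¹ on every compact subset. -/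
theorem result :
    ¬ (∀ (γ : ℝ), 1 < γ →
  ∀ (τe ve pe : ℕ → ℝ × ℝ → ℝ) (τ v p : ℝ × ℝ → ℝ) (τm τM pm pM V : ℝ),
  0 < τm → τm ≤ τM → 0 < pm → pm ≤ pM →
  (∀ n, AEStronglyMeasurable (τe n) (volume.restrict {z : ℝ × ℝ | 0 < z.2}) ∧
        AEStronglyMeasurable (ve n) (volume.restrict {z : ℝ × ℝ | 0 < z.2}) ∧
        AEStronglyMeasurable (pe n) (volume.restrict {z : ℝ × ℝ | 0 < z.2})) →
  (∀ n, ∀ᵐ z ∂(volume.restrict {z : ℝ × ℝ | 0 < z.2}),
        τm ≤ τe n z ∧ τe n z ≤ τM ∧ pm ≤ pe n z ∧ pe n z ≤ pM ∧ |ve n z| ≤ V) →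
  (∀ n, ∀ φ : ℝ × ℝ → ℝ, ContDiff ℝ ((⊤ : ℕ∞) : WithTop ℕ∞) φ → HasCompactSupport φ →
      tsupport φ ⊆ {z : ℝ × ℝ | 0 < z.2} →
      (∫ z in {z : ℝ × ℝ | 0 < z.2},
          (τe n z * fderiv ℝ φ z (0, 1) - ve n z * fderiv ℝ φ z (1, 0))) = 0 ∧
      (∫ z in {z : ℝ × ℝ | 0 < z.2},
          (ve n z * fderiv ℝ φ z (0, 1) + pe n z * fderiv ℝ φ z (1, 0))) = 0 ∧
      (∫ z in {z : ℝ × ℝ | 0 < z.2},
          ((ve n z ^ 2 / 2 + pe n z * τe n z / (γ - 1)) * fderiv ℝ φ z (0, 1)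
            + pe n z * ve n z * fderiv ℝ φ z (1, 0))) = 0) →
  AEStronglyMeasurable τ (volume.restrict {z : ℝ × ℝ | 0 < z.2}) →
  AEStronglyMeasurable v (volume.restrict {z : ℝ × ℝ | 0 < z.2}) →
  AEStronglyMeasurable p (volume.restrict {z : ℝ × ℝ | 0 < z.2}) →
  (∃ C : ℝ, ∀ᵐ z ∂(volume.restrict {z : ℝ × ℝ | 0 < z.2}),
      |τ z| ≤ C ∧ |v z| ≤ C ∧ |p z| ≤ C) →
  (∀ g : ℝ × ℝ → ℝ, Integrable g (volume.restrict {z : ℝ × ℝ | 0 < z.2}) →
      Tendsto (fun n => ∫ z in {z : ℝ × ℝ | 0 < z.2}, τe n z * g z) atTop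
        (𝓝 (∫ z in {z : ℝ × ℝ | 0 < z.2}, τ z * g z)) ∧
      Tendsto (fun n => ∫ z in {z : ℝ × ℝ | 0 < z.2}, ve n z * g z) atTop
        (𝓝 (∫ z in {z : ℝ × ℝ | 0 < z.2}, v z * g z)) ∧
      Tendsto (fun n => ∫ z in {z : ℝ × ℝ | 0 < z.2}, pe n z * g z) atTop
        (𝓝 (∫ z in {z : ℝ × ℝ | 0 < z.2}, p z * g z))) →
  ∀ K : Set (ℝ × ℝ), IsCompact K → K ⊆ {z : ℝ × ℝ | 0 < z.2} →
    Tendsto (fun n => ∫ z in K, |ve n z - v z|) atTop (𝓝 0) ∧
    Tendsto (fun n => ∫ z in K, |pe n z - p z|) atTop (𝓝 0)) := by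
  intro h
  have hs : MeasurableSet {z : ℝ × ℝ | 0 < z.2} := measurableSet_lt measurable_const measurable_snd
  have km := Lib.helper31.Osc.K_meas
  have := h 3 (by norm_num) (fun n z => 9/2 + (-1/2) * Lib.helper31.Osc.K n z)
    (fun n z => 1/2 + (1/2) * Lib.helper31.Osc.K n z)
    (fun n z => 3/2 + (1/2) * Lib.helper31.Osc.K n z)
    (fun _ => 9/2) (fun _ => 1/2) (fun _ => 3/2) 4 5 1 2 1
    (by norm_num) (by norm_num) (by norm_num) (by norm_num)
    (fun n => ⟨(((km n).const_mul _).const_add _).aestronglyMeasurable,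
      (((km n).const_mul _).const_add _).aestronglyMeasurable,
      (((km n).const_mul _).const_add _).aestronglyMeasurable⟩)
    (fun n => Eventually.of_forall fun z => by
      rcases Lib.helper31.Osc.K_cases n z with e | e <;> rw [e] <;> norm_num)
    (fun n φ hφ hc hsup => by
      have h1 : ContDiff ℝ 1 φ := hφ.of_le (by exact_mod_cast le_top)
      refine ⟨?_, ?_, ?_⟩
      · have := Lib.helper31.Osc.weak n φ h1 hc hsup (9/2) (-1/2) (-1/2)
          (fun z => 9/2 + (-1/2) * Lib.helper31.Osc.K n z)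
          (fun z => -(1/2 + (1/2) * Lib.helper31.Osc.K n z)) (fun z => rfl) (fun z => by ring)
        simpa only [neg_mul, ← sub_eq_add_neg] using this
      · exact Lib.helper31.Osc.weak n φ h1 hc hsup (1/2) (3/2) (1/2) _ _ (fun z => rfl)
          (fun z => rfl)
      · refine Lib.helper31.Osc.weak n φ h1 hc hsup (7/2) 1 1 _ _ (fun z => ?_) (fun z => ?_)
        · rcases Lib.helper31.Osc.K_cases n z with e | e <;> rw [e] <;> norm_num
        · rcases Lib.helper31.Osc.K_cases n z with e | e <;> rw [e] <;> norm_num)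
    aestronglyMeasurable_const aestronglyMeasurable_const aestronglyMeasurable_const
    ⟨5, Eventually.of_forall fun z => by norm_num⟩
    (fun g hg => ⟨Lib.helper31.Osc.conv_s _ hs g hg _ _, Lib.helper31.Osc.conv_s _ hs g hg _ _,
      Lib.helper31.Osc.conv_s _ hs g hg _ _⟩)
    (Set.Icc (0, 1) (1, 2)) isCompact_Icc (fun z hz => lt_of_lt_of_le one_pos hz.1.2)
  have e : ∀ n, ∫ z in Set.Icc ((0:ℝ), (1:ℝ)) (1, 2),
      |1/2 + (1/2) * Lib.helper31.Osc.K n z - 1/2| = 1/2 := fun n => by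
    have : ∀ z, |1/2 + (1/2) * Lib.helper31.Osc.K n z - 1/2| = (1/2 : ℝ) := fun z => by
      rcases Lib.helper31.Osc.K_cases n z with e | e <;> rw [e] <;> norm_num
    simp only [this]
    rw [setIntegral_const, Set.Icc_prod_eq, measureReal_def, Measure.volume_eq_prod,
      Measure.prod_prod]
    norm_num
  have t := this.1
  simp only [e] at t
  have := tendsto_nhds_unique t tendsto_const_nhds
  norm_num at this

end Pool.Agent.S05466
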