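import Pool.Statements.S05490
-- import your own Pool.Agent.* helpers here
import Pool.Agent.Lib.helper16.ND6

set_option autoImplicit false
open Filter Topology
open Pool Pool.MP_97ee8d_an

namespace Pool.Agent.S05490

open Pool.Agent.Lib.helper16.ND Pool.Agent.Lib.helper16.NDB


/-- The negation of the preceding statement: For every real or complex Banach space with a finite-dimensional decomposition, some decomposition has partial-sum projections whose norms are bounded by any bound valid for every other decomposition, so the decomposition constant is attained. -/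
theorem result :
    ¬ (∀ (𝕜 : Type) [RCLike 𝕜] (E : Type) [NormedAddCommGroup E] [NormedSpace 𝕜 E]
      [CompleteSpace E],
      (∃ P : ℕ → E →L[𝕜] E,
          (∀ n, FiniteDimensional 𝕜 (LinearMap.range (P n : E →ₗ[𝕜] E))) ∧
          (∀ n m, (P n).comp (P m) = P (min n m)) ∧
          (∀ x : E, Tendsto (fun n => P n x) atTop (𝓝 x))) →
      ∃ P : ℕ → E →L[𝕜] E,
        ((∀ n, FiniteDimensional 𝕜 (LinearMap.range (P n : E →ₗ[𝕜] E))) ∧
          (∀ n m, (P n).comp (P m) = P (min n m)) ∧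
          (∀ x : E, Tendsto (fun n => P n x) atTop (𝓝 x))) ∧
        ∀ Q : ℕ → E →L[𝕜] E,
          ((∀ n, FiniteDimensional 𝕜 (LinearMap.range (Q n : E →ₗ[𝕜] E))) ∧
            (∀ n m, (Q n).comp (Q m) = Q (min n m)) ∧
            (∀ x : E, Tendsto (fun n => Q n x) atTop (𝓝 x))) →
          ∀ c : ℝ, (∀ m, ‖Q m‖ ≤ c) → ∀ n, ‖P n‖ ≤ c) := by
  intro h
  have hdec : ∀ M, (∀ n, FiniteDimensional ℝ
      (LinearMap.range (cutE {j | rev M j < n} : E D →ₗ[ℝ] E D))) ∧
      (∀ n m, (cutE {j | rev M j < n}).comp (cutE {j | rev M j < m}) = cutE {j | rev M j < min n m}) ∧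
      (∀ x : E D, Tendsto (fun n => cutE {j | rev M j < n} x) atTop (𝓝 x)) :=
    fun M => ⟨cutE_fin M, cutE_comp (rev M), cutE_tendsto (rev M)⟩
  obtain ⟨P, ⟨h1, h2, h3⟩, h4⟩ := h ℝ (E D) ⟨fun n => cutE {j | rev 0 j < n}, hdec 0⟩
  have hn : ∀ n, ‖P n‖ ≤ 1 := fun n => le_of_forall_pos_le_add fun δ hδ => by
    obtain ⟨M, hM⟩ := good δ hδ
    exact h4 (fun n => cutE {j | rev M j < n}) (hdec M) _ hM n
  have a0 := Metric.tendsto_nhds.mp (h3 (bas 0 0)) (1 / 8) (by norm_num)
  have a1 := Metric.tendsto_nhds.mp (h3 (bas 0 1)) (1 / 8) (by norm_num)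
  obtain ⟨n, b0, b1⟩ := (a0.and a1).exists
  rw [dist_eq_norm] at b0 b1
  refine no_proj (P n) (h1 n) (fun x => ?_) (hn n) (rank_two _ b0.le b1.le)
  have := congrArg (fun T : E D →L[ℝ] E D => T x) (h2 n n)
  simpa using this

end Pool.Agent.S05490
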