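import Pool.Statements.S05494
import Pool.Agent.Lib.helper28.BlA

set_option autoImplicit false
open Pool Pool.MP_983584_an

namespace Pool.Agent.S05494

/-- The negation of the preceding statement: If f is holomorphic on the unit disc with f(0)=1, positive real part, the Bloch condition sup (1−∣z∣²)∣f′(z)∣ < ∞, and all Taylor coefficients a_n (n≥1) real and nonnegative, then Σ a_n² converges. -/
theorem result :
    ¬ (∀ f : ℂ → ℂ, DifferentiableOn ℂ f (Metric.ball (0 : ℂ) 1) → f 0 = 1 →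
      (∀ z ∈ Metric.ball (0 : ℂ) 1, 0 < (f z).re) →
      (∃ C : ℝ, ∀ z ∈ Metric.ball (0 : ℂ) 1, (1 - ‖z‖ ^ 2) * ‖deriv f z‖ ≤ C) →
      ∀ a : ℕ → ℝ,
        (∀ n : ℕ, 1 ≤ n → 0 ≤ a n ∧ iteratedDeriv n f 0 = ((n.factorial : ℂ) * (a n : ℂ))) →
        Summable (fun n : ℕ => a n ^ 2)) := by
  intro h
  obtain ⟨b, b0, bn, bs, bb, bp⟩ := Pool.Agent.H28Bl.seq
  set a : ℕ → ℝ := fun n => if n = 0 then 1 else b n / 2 with ha
  have a0 : ∀ n, 0 ≤ a n := fun n => by
    simp only [ha]; split_ifs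
    · norm_num
    · linarith [bn n]
  have a1 : ∀ n, a n ≤ b n := fun n => by
    simp only [ha]; split_ifs with h
    · rw [h, b0]
    · linarith [bn n]
  have s1 : ∀ ρ : ℝ, 0 ≤ ρ → ρ < 1 → Summable fun n : ℕ => b (n + 1) * (n + 1) * ρ ^ n :=
    fun ρ r0 r1 => summable_of_sum_range_le (fun n => mul_nonneg (mul_nonneg (bn _) (by positivity))
      (by positivity)) (bb ρ r0 r1)
  have s2 : ∀ ρ : ℝ, 0 ≤ ρ → ρ < 1 → Summable fun n : ℕ => b n * ρ ^ n := fun ρ r0 r1 => by
    rw [← summable_nat_add_iff 1]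
    refine Summable.of_nonneg_of_le (fun n => mul_nonneg (bn _) (by positivity)) (fun n => ?_)
      (s1 ρ r0 r1)
    rw [mul_assoc]
    refine mul_le_mul_of_nonneg_left ?_ (bn _)
    have : 0 ≤ ρ ^ n := by positivity
    have : (0:ℝ) ≤ n := by positivity
    rw [pow_succ]; nlinarith
  have s3 : ∀ ρ : ℝ, 0 ≤ ρ → ∀ (n : ℕ) (w : ℂ), w ∈ Metric.ball (0:ℂ) ρ →
      ‖(a n : ℂ) * w ^ n‖ ≤ b n * ρ ^ n := fun ρ r0 n w hw => by
    rw [norm_mul, norm_pow, Complex.norm_real, Real.norm_of_nonneg (a0 n)]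
    exact mul_le_mul (a1 n) (pow_le_pow_left₀ (norm_nonneg _) (mem_ball_zero_iff.1 hw).le n)
      (by positivity) (bn n)
  have hd : ∀ (n : ℕ) (U : Set ℂ), DifferentiableOn ℂ (fun w : ℂ => (a n : ℂ) * w ^ n) U :=
    fun n U => by fun_prop
  refine bs ?_
  have key := h (fun w => ∑' n, (a n : ℂ) * w ^ n) ?_ ?_ ?_ ⟨8, ?_⟩ a ?_
  · rw [← summable_nat_add_iff 1] at key ⊢
    refine (key.mul_left 4).congr fun n => ?_
    simp only [ha, Nat.succ_ne_zero, if_false]; ring
  · intro z hz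
    obtain ⟨ρ, r1, r2⟩ := exists_between (mem_ball_zero_iff.1 hz)
    have r0 : 0 ≤ ρ := (norm_nonneg _).trans r1.le
    exact ((Complex.differentiableOn_tsum_of_summable_norm (s2 ρ r0 r2) (hd · _) Metric.isOpen_ball
      (s3 ρ r0)).differentiableAt
      (Metric.isOpen_ball.mem_nhds (mem_ball_zero_iff.2 r1))).differentiableWithinAt
  · show ∑' n, (a n : ℂ) * 0 ^ n = 1
    rw [tsum_eq_single 0 (fun n hn => by simp [hn])]; simp [ha]
  · intro z hz
    have hz' := mem_ball_zero_iff.1 hz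
    have t1 := s2 ‖z‖ (norm_nonneg _) hz'
    have t2 : Summable fun n => (b n : ℂ) * z ^ n := Summable.of_norm (t1.congr fun n => by
      rw [norm_mul, norm_pow, Complex.norm_real, Real.norm_of_nonneg (bn n)])
    have t3 : HasSum (fun n => (a n : ℂ) * z ^ n) (((1 / 2 : ℝ) : ℂ) * (∑' n, (b n : ℂ) * z ^ n) + 1 / 2) := by
      refine ((t2.hasSum.mul_left ((1 / 2 : ℝ) : ℂ)).add (hasSum_ite_eq 0 (1 / 2 : ℂ))).congr_fun ?_
      intro n
      simp only [ha]
      split_ifs with h
      · rw [h, b0]; norm_num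
      · push_cast; ring
    show 0 < (∑' n, (a n : ℂ) * z ^ n).re
    rw [t3.tsum_eq, Complex.add_re, Complex.re_ofReal_mul]
    have := bp z hz' t1
    norm_num
    linarith
  · intro z hz
    have hz' := mem_ball_zero_iff.1 hz
    have z0 := norm_nonneg z
    obtain ⟨ρ, r1, r2⟩ := exists_between hz'
    have r0 : 0 ≤ ρ := z0.trans r1.le
    have t1 := Complex.hasSum_deriv_of_summable_norm (s2 ρ r0 r2) (hd · _) Metric.isOpen_ball
      (s3 ρ r0) (mem_ball_zero_iff.2 r1)
    rw [← hasSum_nat_add_iff' 1] at t1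
    have t2 := t1.norm_le_of_bounded (s1 _ z0 hz').hasSum (fun n => by
      rw [deriv_const_mul_field, deriv_pow_field, Nat.add_sub_cancel, norm_mul, norm_mul, norm_pow,
        Complex.norm_real, Real.norm_of_nonneg (a0 _), Complex.norm_natCast, ← mul_assoc]
      push_cast
      gcongr
      exact a1 _)
    have t3 := (s1 _ z0 hz').tsum_le_of_sum_range_le (bb _ z0 hz')
    simp only [Finset.range_one, Finset.sum_singleton, pow_zero, mul_one, deriv_const', sub_zero] at t2
    have t4 := t2.trans t3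
    rw [le_div_iff₀ (by linarith)] at t4
    nlinarith [norm_nonneg (deriv (fun w : ℂ => ∑' n, (a n : ℂ) * w ^ n) z)]
  · intro n _
    refine ⟨a0 n, ?_⟩
    have t1 : (0 : ENNReal) < (FormalMultilinearSeries.ofScalars ℂ fun n => (a n : ℂ)).radius := by
      refine lt_of_lt_of_le (by norm_num) (FormalMultilinearSeries.le_radius_of_summable_norm _
        (r := 1 / 2) ?_)
      simp only [FormalMultilinearSeries.ofScalars_norm, Complex.norm_real]
      refine Summable.of_nonneg_of_le (fun n => by positivity) (fun n => ?_)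
        (s2 (1 / 2) (by norm_num) (by norm_num))
      rw [Real.norm_of_nonneg (a0 n)]
      push_cast
      gcongr
      exact a1 n
    have t2 := ((FormalMultilinearSeries.ofScalars ℂ fun n => (a n : ℂ)).hasFPowerSeriesOnBall
      t1).factorial_smul 1 n
    rw [← iteratedDeriv_eq_iteratedFDeriv, FormalMultilinearSeries.ofScalars_apply_eq] at t2
    have t3 : (FormalMultilinearSeries.ofScalars ℂ fun n => (a n : ℂ)).sum =
        fun w => ∑' n, (a n : ℂ) * w ^ n := FormalMultilinearSeries.ofScalarsSum_eq_tsum _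
    rw [t3] at t2
    rw [← t2]; simp

end Pool.Agent.S05494
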