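import Pool.Statements.S05498

set_option autoImplicit false
open Classical
open Pool Pool.MP_987215_an

namespace Pool.Agent.S05498

lemma d3 : deriv (fun x : ℂ => x ^ 3 / 6) = fun x => x ^ 2 / 2 := by
  ext x
  simp
  ring

lemma d2 : deriv (fun x : ℂ => x ^ 2 / 2) = fun x => x := by
  ext x
  simp

theorem result :
    ¬ (∀ (n : ℕ), 1 ≤ n → ∀ k : ℕ, k ≤ n - 1 → ∀ z : Fin n → ℂ, (∀ j, ‖z j‖ ≤ 1) →
    (∀ w : ℂ, w.im ≠ 0 →
      (Finset.univ.filter (fun j => z j = w)).card =
        (Finset.univ.filter (fun j => z j = starRingEnd ℂ w)).card) →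
    (∀ w : ℂ, w.im = 0 → Even (Finset.univ.filter (fun j => z j = w)).card) →
    IsLUB {e : ℝ | ∃ g : ℂ → ℂ, ∃ p : Polynomial ℂ,
        Differentiable ℂ g ∧
        (∀ w : ℂ, ‖w‖ ≤ 1 → ‖iteratedDeriv n g w‖ ≤ 1) ∧
        p.degree < (n : WithBot ℕ) ∧
        (∀ j : Fin n, ∀ i : ℕ, i < (Finset.univ.filter (fun l => z l = z j)).card →
          iteratedDeriv i (fun x => p.eval x) (z j) = iteratedDeriv i g (z j)) ∧
        e = ‖iteratedDeriv k g 1 - iteratedDeriv k (fun x => p.eval x) 1‖}
      (‖iteratedDeriv k (fun x => (∏ j : Fin n, (Polynomial.X - Polynomial.C (z j))).eval x) 1‖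
        / (n.factorial : ℝ))) := by
  intro h
  have hne : (4 / 5 + 3 / 5 * Complex.I : ℂ) ≠ 4 / 5 - 3 / 5 * Complex.I := by
    intro e
    have := congrArg Complex.im e
    norm_num at this
  have h1 := (h 2 (by norm_num) 1 le_rfl ![4 / 5 + 3 / 5 * Complex.I, 4 / 5 - 3 / 5 * Complex.I]
    (by
      intro j
      fin_cases j <;>
      · rw [← sq_le_one_iff₀ (norm_nonneg _), Complex.sq_norm, Complex.normSq_apply]
        norm_num) (by
      intro w _
      have e1 : (4 / 5 + 3 / 5 * Complex.I : ℂ) = starRingEnd ℂ w ↔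
          (4 / 5 - 3 / 5 * Complex.I : ℂ) = w := by
        simp only [Complex.ext_iff]; norm_num; intro _; constructor <;> intro h <;> linarith
      have e2 : (4 / 5 - 3 / 5 * Complex.I : ℂ) = starRingEnd ℂ w ↔
          (4 / 5 + 3 / 5 * Complex.I : ℂ) = w := by
        simp only [Complex.ext_iff]; norm_num
      simp only [Finset.card_filter, Fin.sum_univ_two, Matrix.cons_val_zero, Matrix.cons_val_one,
        e1, e2]
      exact add_comm _ _) (by
      intro w hw
      have e1 : (4 / 5 + 3 / 5 * Complex.I : ℂ) ≠ w := by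
        rintro rfl; norm_num at hw
      have e2 : (4 / 5 - 3 / 5 * Complex.I : ℂ) ≠ w := by
        rintro rfl; norm_num at hw
      simp [Finset.card_filter, Fin.sum_univ_two, e1, e2, -Finset.sum_boole])).1
    ⟨fun x => x ^ 3 / 6, Polynomial.C (39 / 150) * Polynomial.X + Polynomial.C (-8 / 30),
      by fun_prop, by
        intro w hw
        rwa [iteratedDeriv_succ, iteratedDeriv_one, d3, d2],
      Polynomial.degree_linear_lt, by
        intro j i hi
        have : i = 0 := by
          fin_cases j <;>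
            simp [Finset.card_filter, Fin.sum_univ_two, hne, hne.symm, -Finset.sum_boole] at hi <;> exact hi
        subst this
        fin_cases j <;> simp <;> ring_nf <;> simp [Complex.I_pow_three] <;> ring, rfl⟩
  simp only [iteratedDeriv_one, d3, Polynomial.deriv, Fin.prod_univ_two] at h1
  simp at h1
  rw [show (2⁻¹ - 39 / 150 : ℂ) = ((6 / 25 : ℝ) : ℂ) by push_cast; ring,
    show (1 - (4 / 5 - 3 / 5 * Complex.I) + (1 - (4 / 5 + 3 / 5 * Complex.I)) : ℂ) =
      ((2 / 5 : ℝ) : ℂ) by push_cast; ring, Complex.norm_real, Complex.norm_real] at h1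
  norm_num at h1

end Pool.Agent.S05498
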