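import Pool.Statements.S05499
-- import your own Pool.Agent.* helpers here

set_option autoImplicit false
open MeasureTheory
open Pool Pool.MP_98de44_an

namespace Pool.Agent.S05499

/-- Take an invertible, conservative, measure-preserving map T on an infinite σ-finite standard space with T×T ergodic. Then T×T has no nonconstant eigenfunctions: any measurable f with f∘(T×T) = c·f a.e. is a.e. constant. -/
theorem result :
    ∀ (α : Type) [MeasurableSpace α] [StandardBorelSpace α]
      (μ : MeasureTheory.Measure α) [MeasureTheory.SigmaFinite μ] (T : α ≃ᵐ α),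
      μ Set.univ = ⊤ →
      MeasureTheory.MeasurePreserving (⇑T) μ μ →
      MeasureTheory.Conservative (⇑T) μ →
      Ergodic (Prod.map ⇑T ⇑T) (μ.prod μ) →
      ∀ (f : α × α → ℂ), Measurable f → ∀ c : ℂ,
        (f ∘ Prod.map ⇑T ⇑T =ᵐ[μ.prod μ] fun x => c * f x) →
        ∃ a : ℂ, f =ᵐ[μ.prod μ] fun _ => a := by
  intro α _ _ μ _ T hinf hT _ hE f hf c hc
  have hne : μ ≠ 0 := by
    rintro rfl
    simp at hinf
  have : NeZero μ := ⟨hne⟩
  have hS := hE.toMeasurePreserving
  -- one-variable eigenvalues are trivial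
  have E (φ : α → ℂ) (hφ : Measurable φ) (d : ℂ)
      (h : ∀ᵐ x ∂μ, φ (T x) = d * φ x ∧ φ x ≠ 0) : d = 1 := by
    have h1 := hT.quasiMeasurePreserving.ae h
    have hd : d ≠ 0 := by
      obtain ⟨x, hx, hx'⟩ := (h.and h1).exists
      rintro rfl
      exact hx'.2 (by simpa using hx.1)
    have hG : Measurable fun p : α × α => φ p.1 / φ p.2 :=
      (hφ.comp measurable_fst).div (hφ.comp measurable_snd)
    obtain ⟨a, ha⟩ := hE.ae_eq_const_of_ae_eq_comp₀ hG.nullMeasurable (by
      filter_upwards [Measure.quasiMeasurePreserving_fst.ae h,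
        Measure.quasiMeasurePreserving_snd.ae h] with p h1 h2
      simp only [Function.comp, Prod.map]
      rw [h1.1, h2.1, mul_div_mul_left _ _ hd])
    obtain ⟨x, hx, hx0⟩ := ((Measure.ae_ae_of_ae_prod ha).and h).exists
    have h2 := hT.quasiMeasurePreserving.ae hx
    obtain ⟨y, ⟨y1, y2⟩, y3, y4⟩ := ((hx.and h2).and h).exists
    simp only [Function.const] at y1 y2
    rw [y3, ← y1] at y2
    have x0 := hx0.2
    field_simp at y2
    exact y2.symm
  by_cases h0 : c = 0
  · refine ⟨0, ?_⟩
    have hs : MeasurableSet {p : α × α | f p = 0} := hf (measurableSet_singleton 0)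
    have : ∀ᵐ p ∂((μ.prod μ).map (Prod.map ⇑T ⇑T)), f p = 0 := by
      rw [ae_map_iff hS.measurable.aemeasurable hs]
      filter_upwards [hc] with p hp
      simpa [h0] using hp
    rwa [hS.map_eq] at this
  have hs : MeasurableSet {p : α × α | f p = 0} := hf (measurableSet_singleton 0)
  rcases hE.quasiErgodic.ae_empty_or_univ₀ hs.nullMeasurableSet (by
    filter_upwards [hc] with p hp
    simp only [Function.comp] at hp
    show (f (Prod.map T T p) = 0) = (f p = 0)
    rw [hp]
    simp [h0]) with hz | hz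
  swap
  · exact ⟨0, ae_eq_univ.1 hz⟩
  have hnz : ∀ᵐ p ∂μ.prod μ, f p ≠ 0 := ae_eq_empty.1 hz |> fun h => by
    rw [ae_iff]
    simpa using h
  have hV : MeasurePreserving (Prod.map id ⇑T) (μ.prod μ) (μ.prod μ) :=
    (MeasurePreserving.id μ).prod hT
  have hU : MeasurePreserving (Prod.map ⇑T id) (μ.prod μ) (μ.prod μ) :=
    hT.prod (MeasurePreserving.id μ)
  have hF : Measurable fun p : α × α => f (Prod.map ⇑T id p) / f p := (hf.comp hU.measurable).div hf
  obtain ⟨d, hd⟩ := hE.ae_eq_const_of_ae_eq_comp₀ hF.nullMeasurable (by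
    filter_upwards [hc, hU.quasiMeasurePreserving.ae hc] with p h1 h2
    simp only [Function.comp, Prod.map, id] at h1 h2 ⊢
    rw [h1, h2, mul_div_mul_left _ _ h0])
  have h1 : ∀ᵐ p ∂μ.prod μ, f (T p.1, p.2) = d * f p ∧ f p ≠ 0 := by
    filter_upwards [hd, hnz] with p h1 h2
    simp only [Function.const, Prod.map, id] at h1
    refine ⟨?_, h2⟩
    rw [← h1]
    field_simp
  have hd1 : d = 1 := by
    obtain ⟨y, hy⟩ := (Measure.ae_ae_of_ae_prod
      ((Measure.measurePreserving_swap (μ := μ) (ν := μ)).quasiMeasurePreserving.ae h1)).exists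
    exact E (fun x => f (x, y)) (hf.comp measurable_prodMk_right) d hy
  have h2 : ∀ᵐ p ∂μ.prod μ, f (p.1, T p.2) = c * f p ∧ f p ≠ 0 := by
    filter_upwards [hc, hnz, hV.quasiMeasurePreserving.ae h1] with p a b e
    simp only [Function.comp, Prod.map, id, hd1, one_mul] at a e
    exact ⟨e.1.symm.trans a, b⟩
  have hc1 : c = 1 := by
    obtain ⟨x, hx⟩ := (Measure.ae_ae_of_ae_prod h2).exists
    exact E (fun y => f (x, y)) (hf.comp measurable_prodMk_left) c hx
  exact hE.ae_eq_const_of_ae_eq_comp₀ hf.nullMeasurable (by simpa [hc1] using hc)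

end Pool.Agent.S05499
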