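import Pool.Statements.S05528
import Pool.Agent.Lib.helper23.AgB

set_option autoImplicit false
open Filter Topology
open Pool Pool.MP_9b8acd_an

namespace Pool.Agent.S05528

/-- The negation of the preceding statement: Over ℝ or ℂ, every almost-greedy Markushevich basis of a Banach space (greedy-set approximation within a constant of the best same-size coordinate projection) can be reordered into a Schauder basis. -/
theorem result :
    ¬ (∀ (𝕜 : Type) [RCLike 𝕜] (X : Type) [NormedAddCommGroup X] [NormedSpace 𝕜 X]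
      [CompleteSpace X] (e : ℕ → X) (e' : ℕ → X →L[𝕜] 𝕜),
      (∀ i j : ℕ, e' i (e j) = if i = j then (1 : 𝕜) else 0) →
      Dense ((Submodule.span 𝕜 (Set.range e) : Submodule 𝕜 X) : Set X) →
      (∀ x : X, (∀ i : ℕ, e' i x = 0) → x = 0) →
      (∃ C : ℝ, ∀ (x : X) (A B : Finset ℕ),
        (∀ i ∈ A, ∀ j : ℕ, j ∉ A → ‖e' j x‖ ≤ ‖e' i x‖) →
        B.card ≤ A.card →
        ‖x - ∑ i ∈ A, e' i x • e i‖ ≤ C * ‖x - ∑ i ∈ B, e' i x • e i‖) →
      ∃ π : Equiv.Perm ℕ, ∀ x : X,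
        Tendsto (fun n : ℕ => ∑ k ∈ Finset.range n, e' (π k) x • e (π k)) atTop (𝓝 x)) := by
  intro h
  obtain ⟨π, hπ⟩ := h ℝ (Lib.helper23.AgA.X _ Lib.helper23.AgB.g_inj)
    (Lib.helper23.AgA.e _) (Lib.helper23.AgA.e' _) (Lib.helper23.AgA.e'_e _)
    (Lib.helper23.AgA.dense_e _) (Lib.helper23.AgA.total _)
    ⟨8, Lib.helper23.AgA.almost_greedy _⟩
  exact Lib.helper23.AgA.not_schauder _ Lib.helper23.AgB.H1 π (Lib.helper23.AgB.H2 π) hπ

end Pool.Agent.S05528
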