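import Pool.Statements.S05628
import Pool.Agent.Lib.helper9.OneRadius

set_option autoImplicit false
open MeasureTheory
open Pool Pool.MP_a19bc9_an

namespace Pool.Agent.S05628

/-- The negation of the preceding statement: For every n ≥ 1, a bounded continuous complex function on the unit ball of ℂⁿ that satisfies the invariant sphere-mean identity at each point for at least one radius satisfies it at every point for every radius in (0,1), i.e. is M-harmonic. -/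
theorem result :
    ¬ (∀ n : ℕ, 1 ≤ n →
  ∀ (φ : (Fin n → ℂ) → (Fin n → ℂ) → (Fin n → ℂ)),
    (∀ z w, φ z w = (1 - ∑ j, w j * starRingEnd ℂ (z j))⁻¹ •
        (z - ((∑ j, w j * starRingEnd ℂ (z j)) / (∑ j, z j * starRingEnd ℂ (z j))) • z
          - ((Real.sqrt (1 - ∑ j, ‖z j‖ ^ 2) : ℝ) : ℂ) •
              (w - ((∑ j, w j * starRingEnd ℂ (z j)) / (∑ j, z j * starRingEnd ℂ (z j))) • z))) →
  ∀ (B : Set (Fin n → ℂ)), B = {x : Fin n → ℂ | ∑ j, ‖x j‖ ^ 2 < 1} →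
  ∀ (avg : ((Fin n → ℂ) → ℂ) → (Fin n → ℂ) → ℝ → ℂ),
    (∀ u z r, avg u z r = ((MeasureTheory.volume B).toReal : ℂ)⁻¹ *
        ∫ x in B, u (φ z (((r / Real.sqrt (∑ j, ‖x j‖ ^ 2) : ℝ) : ℂ) • x))) →
  ∀ u : (Fin n → ℂ) → ℂ, ContinuousOn u B → (∃ M : ℝ, ∀ z ∈ B, ‖u z‖ ≤ M) →
    (∀ z ∈ B, ∃ r : ℝ, 0 < r ∧ r < 1 ∧ avg u z r = u z) →
    ∀ z ∈ B, ∀ r : ℝ, 0 < r → r < 1 → avg u z r = u z) := by
  intro h
  set B : Set (Fin 1 → ℂ) := {x : Fin 1 → ℂ | ∑ j, ‖x j‖ ^ 2 < 1} with hB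
  have hBm : ∀ x : Fin 1 → ℂ, x ∈ B ↔ ‖x 0‖ < 1 := by
    intro x
    simp only [hB, Set.mem_setOf_eq, Fin.sum_univ_one]
    constructor
    · intro hx; nlinarith [norm_nonneg (x 0)]
    · intro hx; nlinarith [norm_nonneg (x 0)]
  have hBb : B = Metric.ball 0 1 := by
    ext x
    rw [hBm, mem_ball_zero_iff, pi_norm_lt_iff one_pos]
    constructor
    · intro hx i
      rw [Subsingleton.elim i 0]; exact hx
    · intro hx; exact hx 0
  have hfin : volume B < ⊤ := by rw [hBb]; exact measure_ball_lt_top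
  have hpos : 0 < volume B := by rw [hBb]; exact Metric.measure_ball_pos _ _ one_pos
  haveI : IsFiniteMeasure (volume.restrict B) := ⟨by simpa using hfin⟩
  have hm0 : 0 < (volume B).toReal := ENNReal.toReal_pos hpos.ne' hfin.ne
  have hreal : (volume.restrict B).real Set.univ = (volume B).toReal := by
    simp [Measure.real]
  set ζ : (Fin 1 → ℂ) → ℂ := fun x => x 0 / ((‖x 0‖ : ℝ) : ℂ) with hζ
  have hζm : Measurable ζ := by
    rw [hζ]; fun_prop
  have hζ1 : ∀ᵐ x ∂(volume.restrict B), ‖ζ x‖ = 1 := by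
    apply ae_restrict_of_ae
    have : ∀ᵐ x : Fin 1 → ℂ, x ≠ 0 := by
      rw [ae_iff]; simp
    filter_upwards [this] with x hx
    have hx0 : x 0 ≠ 0 := by
      intro h0; apply hx; funext i; rw [Subsingleton.elim i 0]; exact h0
    simp [hζ, hx0]
  set φ : (Fin 1 → ℂ) → (Fin 1 → ℂ) → (Fin 1 → ℂ) := fun z w =>
    (1 - ∑ j, w j * starRingEnd ℂ (z j))⁻¹ •
        (z - ((∑ j, w j * starRingEnd ℂ (z j)) / (∑ j, z j * starRingEnd ℂ (z j))) • z
          - ((Real.sqrt (1 - ∑ j, ‖z j‖ ^ 2) : ℝ) : ℂ) •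
              (w - ((∑ j, w j * starRingEnd ℂ (z j)) / (∑ j, z j * starRingEnd ℂ (z j))) • z))
    with hφ
  have hφ0 : ∀ z w : Fin 1 → ℂ, φ z w 0 = Pool.Agent.Lib.helper9.OneRadius.mob (z 0) (w 0) := by
    intro z w
    simp only [hφ, Fin.sum_univ_one, Pi.smul_apply, Pi.sub_apply, smul_eq_mul,
      Pool.Agent.Lib.helper9.OneRadius.mob]
    by_cases hz : z 0 = 0
    · simp [hz]
    · have hz' : (starRingEnd ℂ) (z 0) ≠ 0 := by simpa using hz
      have : w 0 * (starRingEnd ℂ) (z 0) / (z 0 * (starRingEnd ℂ) (z 0)) * z 0 = w 0 := by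
        field_simp
      rw [this, sub_self, mul_zero, sub_zero, div_eq_inv_mul]
  set u : (Fin 1 → ℂ) → ℂ := fun x => ((Pool.Agent.Lib.helper9.OneRadius.U (‖x 0‖ ^ 2) : ℝ) : ℂ)
    with hu
  have havg : ∀ (z : Fin 1 → ℂ) (r : ℝ), ((MeasureTheory.volume B).toReal : ℂ)⁻¹ *
        ∫ x in B, u (φ z (((r / Real.sqrt (∑ j, ‖x j‖ ^ 2) : ℝ) : ℂ) • x)) =
        ((((volume B).toReal)⁻¹ * Pool.Agent.Lib.helper9.OneRadius.I (volume.restrict B) ζ (z 0) r
          : ℝ) : ℂ) := by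
    intro z r
    rw [Complex.ofReal_mul, Complex.ofReal_inv]
    congr 1
    unfold Pool.Agent.Lib.helper9.OneRadius.I
    rw [← integral_complex_ofReal]
    congr 1
    funext x
    simp only [hu, hφ0, hζ, Fin.sum_univ_one, Pi.smul_apply, smul_eq_mul]
    rw [Real.sqrt_sq (norm_nonneg _)]
    congr 5
    push_cast
    ring
  have hlt : ∀ z : Fin 1 → ℂ, ‖z 0‖ < 1 →
      |Pool.Agent.Lib.helper9.OneRadius.U (‖z 0‖ ^ 2)| < 1 := fun z hz =>
    Pool.Agent.Lib.helper9.OneRadius.abs_U_lt (by positivity) (by nlinarith [norm_nonneg (z 0)])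
  have key := h 1 le_rfl φ (fun _ _ => rfl) B rfl
    (fun u z r => ((MeasureTheory.volume B).toReal : ℂ)⁻¹ *
        ∫ x in B, u (φ z (((r / Real.sqrt (∑ j, ‖x j‖ ^ 2) : ℝ) : ℂ) • x))) (fun _ _ _ => rfl) u
    (by
      intro x hx
      have c1 := (Pool.Agent.Lib.helper9.OneRadius.analyticAt_u ((hBm x).1 hx)).continuousAt
      have c2 : ContinuousAt (fun x : Fin 1 → ℂ =>
          Pool.Agent.Lib.helper9.OneRadius.U (‖x 0‖ ^ 2)) x :=
        ContinuousAt.comp (f := fun x : Fin 1 → ℂ => x 0) c1 (continuous_apply 0).continuousAt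
      exact (Complex.continuous_ofReal.continuousAt.comp c2).continuousWithinAt)
    ⟨1, fun z hz => by
      simp only [hu, Complex.norm_real, Real.norm_eq_abs]
      exact (hlt z ((hBm z).1 hz)).le⟩
    (by
      intro z hz
      obtain ⟨r, h0, h1, hr⟩ := Pool.Agent.Lib.helper9.OneRadius.exists_radius hζm hζ1
        ((hBm z).1 hz) (hlt z ((hBm z).1 hz))
      refine ⟨r, h0, h1, ?_⟩
      simp only [havg]
      rw [hr, hreal, ← mul_assoc, inv_mul_cancel₀ hm0.ne', one_mul])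
  have h0B : (0 : Fin 1 → ℂ) ∈ B := (hBm 0).2 (by simp)
  have hc := abs_lt.1 (hlt 0 ((hBm 0).1 h0B))
  obtain ⟨r, h0, h1, hr⟩ := Pool.Agent.Lib.helper9.OneRadius.upper hζm hζ1
    ((hBm 0).1 h0B) (c := (Pool.Agent.Lib.helper9.OneRadius.U (‖(0 : Fin 1 → ℂ) 0‖ ^ 2) + 1) / 2)
    (by linarith [hc.2])
  have h2 := key 0 h0B r h0 h1
  simp only [havg] at h2
  have h3 := Complex.ofReal_injective h2
  rw [inv_mul_eq_iff_eq_mul₀ hm0.ne'] at h3
  rw [h3, hreal] at hr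
  have := le_of_mul_le_mul_left hr hm0
  linarith [hc.2]

end Pool.Agent.S05628
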