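import Pool.Statements.S05632
import Pool.Agent.Lib.H8.Dautov

set_option autoImplicit false
open Pool Pool.MP_a1ab50_an

namespace Pool.Agent.S05632

/-- The negation of the preceding statement: For real coprime polynomials P, Q in n variables with Q(0)≠0 and finitely many common zeros on the unit torus, the Taylor coefficients of P/Q at 0 are absolutely summable iff P/Q on the open unit polydisk extends continuously to the closed polydisk. -/
theorem result :
    ¬ (∀ (n : ℕ) (P Q : MvPolynomial (Fin n) ℝ),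
      IsRelPrime P Q →
      MvPolynomial.constantCoeff Q ≠ 0 →
      {z : Fin n → ℂ | (∀ i, ‖z i‖ = 1) ∧ MvPolynomial.aeval z P = 0 ∧
          MvPolynomial.aeval z Q = 0}.Finite →
      (Summable (fun k : Fin n →₀ ℕ =>
          |MvPowerSeries.coeff k
            ((P : MvPowerSeries (Fin n) ℝ) * (Q : MvPowerSeries (Fin n) ℝ)⁻¹)|) ↔
        ∃ F : (Fin n → ℂ) → ℂ,
          ContinuousOn F {z : Fin n → ℂ | ∀ i, ‖z i‖ ≤ 1} ∧
          ∀ z : Fin n → ℂ, (∀ i, ‖z i‖ < 1) → MvPolynomial.aeval z Q ≠ 0 →
            F z = MvPolynomial.aeval z P / MvPolynomial.aeval z Q)) := by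
  intro h
  exact Pool.Agent.H8.Dautov.not_summable ((h 43 _ _ Pool.Agent.H8.Dautov.relPrime
    Pool.Agent.H8.Dautov.const Pool.Agent.H8.Dautov.fin).2
    ⟨_, Pool.Agent.H8.Dautov.cont, fun _ _ _ => rfl⟩)

end Pool.Agent.S05632
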