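import Pool.Statements.S05635

set_option autoImplicit false
open scoped ContDiff
open Pool Pool.MP_a1b43b_an

namespace Pool.Agent.S05635

noncomputable section

lemma routh (P Q R : ℝ) (hP : 0 < P) (hR : 0 < R) (h : R < P * Q) (z : ℂ)
    (hz : z ^ 3 + P * z ^ 2 + Q * z + R = 0) : z.re < 0 := by
  have hQ : 0 < Q := by nlinarith
  have h1 := congrArg Complex.re hz
  have h2 := congrArg Complex.im hz
  simp only [pow_succ, pow_zero, one_mul, Complex.add_re, Complex.mul_re, Complex.mul_im,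
    Complex.ofReal_re, Complex.ofReal_im, Complex.add_im, Complex.zero_re, Complex.zero_im,
    zero_mul, sub_zero, add_zero] at h1 h2
  by_contra hx
  push Not at hx
  set x := z.re
  set y := z.im
  have h3 : y * (3 * x ^ 2 - y ^ 2 + 2 * P * x + Q) = 0 := by linear_combination h2
  have hx2 : 0 ≤ x ^ 2 := sq_nonneg x
  have hx3 : 0 ≤ x ^ 3 := pow_nonneg hx 3
  rcases mul_eq_zero.1 h3 with h4 | h4
  · have : x ^ 3 + P * x ^ 2 + Q * x + R = 0 := by rw [h4] at h1; linear_combination h1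
    nlinarith [mul_nonneg hP.le hx2, mul_nonneg hQ.le hx]
  · have : 8 * x ^ 3 + 8 * (P * x ^ 2) + 2 * (P ^ 2 * x) + 2 * (Q * x) + (P * Q - R) = 0 := by
      linear_combination (3 * x + P) * h4 - h1
    nlinarith [mul_nonneg hP.le hx2, mul_nonneg hQ.le hx, mul_nonneg (sq_nonneg P) hx]

def A (s : ℝ) : ℝ := s / (1 + s) ^ 2
def A' (s : ℝ) : ℝ := (1 - s) / (1 + s) ^ 3
def E (z : ℝ) : ℝ := -2 * (z - 2) / (1 + (z - 2) ^ 2)
def E' (z : ℝ) : ℝ := -2 * (1 - (z - 2) ^ 2) / (1 + (z - 2) ^ 2) ^ 2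
def h (s : ℝ) : ℝ := 4 - 4 / (1 + s) ^ 2
def h' (s : ℝ) : ℝ := 8 / (1 + s) ^ 3
def om (z : ℝ) : ℝ := 20 * (1 + (z - 2) ^ 2)

def F (p : Fin 3 → ℝ) : Fin 3 → ℝ :=
  ![(-1 + 4 * (E (p 2) * A (p 0 ^ 2 + p 1 ^ 2))) * p 0 - om (p 2) * p 1,
    (-1 + 4 * (E (p 2) * A (p 0 ^ 2 + p 1 ^ 2))) * p 1 + om (p 2) * p 0,
    -3 * p 2 + h (p 0 ^ 2 + p 1 ^ 2)]

lemma dA {s : ℝ} (hs : 0 ≤ s) : HasDerivAt A (A' s) s := by
  have h1 : (1 + s) ^ 2 ≠ 0 := by positivity
  have h2 := (hasDerivAt_id' s).div (((hasDerivAt_id' s).const_add 1).pow 2) h1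
  refine h2.congr_deriv ?_
  have : 1 + s ≠ 0 := by positivity
  simp only [A', Pi.pow_apply]; field_simp; ring

lemma dh {s : ℝ} (hs : 0 ≤ s) : HasDerivAt h (h' s) s := by
  have h1 : (1 + s) ^ 2 ≠ 0 := by positivity
  have h2 := ((hasDerivAt_const s (4 : ℝ)).div (((hasDerivAt_id' s).const_add 1).pow 2)
    h1).const_sub 4
  refine h2.congr_deriv ?_
  have : 1 + s ≠ 0 := by positivity
  simp only [h', Pi.pow_apply]; field_simp; ring

lemma dE (z : ℝ) : HasDerivAt E (E' z) z := by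
  have h1 : 1 + (z - 2) ^ 2 ≠ 0 := by positivity
  have h0 := (hasDerivAt_id' z).sub_const 2
  have h2 := (h0.const_mul (-2)).div ((h0.pow 2).const_add 1) h1
  refine h2.congr_deriv ?_
  simp only [E', Pi.pow_apply]; field_simp; ring

lemma dom (z : ℝ) : HasDerivAt om (40 * (z - 2)) z := by
  have h0 := (hasDerivAt_id' z).sub_const 2
  refine (((h0.pow 2).const_add 1).const_mul 20).congr_deriv ?_
  ring

def Jac (x y a as az o o' c : ℝ) : Matrix (Fin 3) (Fin 3) ℝ :=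
  !![a + 2 * x ^ 2 * as, 2 * x * y * as - o, x * az - y * o';
     2 * x * y * as + o, a + 2 * y ^ 2 * as, y * az + x * o';
     2 * x * c, 2 * y * c, -3]

lemma jac (p : Fin 3 → ℝ) : LinearMap.toMatrix' (fderiv ℝ F p).toLinearMap =
    Jac (p 0) (p 1) (-1 + 4 * (E (p 2) * A (p 0 ^ 2 + p 1 ^ 2)))
      (4 * (E (p 2) * A' (p 0 ^ 2 + p 1 ^ 2))) (4 * (E' (p 2) * A (p 0 ^ 2 + p 1 ^ 2)))
      (om (p 2)) (40 * (p 2 - 2)) (h' (p 0 ^ 2 + p 1 ^ 2)) := by
  have h0 := hasFDerivAt_apply (𝕜 := ℝ) 0 p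
  have h1 := hasFDerivAt_apply (𝕜 := ℝ) 1 p
  have h2 := hasFDerivAt_apply (𝕜 := ℝ) 2 p
  have hs := (h0.pow 2).add (h1.pow 2)
  have hs0 : 0 ≤ p 0 ^ 2 + p 1 ^ 2 := by positivity
  have hA := (dA hs0).comp_hasFDerivAt p hs
  have hh := (dh hs0).comp_hasFDerivAt p hs
  have hE := (dE (p 2)).comp_hasFDerivAt p h2
  have ho := (dom (p 2)).comp_hasFDerivAt p h2
  have ha := ((hE.mul hA).const_mul 4).const_add (-1)
  have f0 := (ha.mul h0).sub (ho.mul h1)
  have f1 := (ha.mul h1).add (ho.mul h0)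
  have f2 := (h2.const_mul (-3)).add hh
  have hF : DifferentiableAt ℝ F p := by
    rw [differentiableAt_pi]
    intro i
    fin_cases i
    exacts [f0.differentiableAt, f1.differentiableAt, f2.differentiableAt]
  have e : ∀ i v, fderiv ℝ F p v i = fderiv ℝ (fun q => F q i) p v := fun i v => by
    rw [fderiv_apply hF]; rfl
  have e0 : fderiv ℝ (fun q => F q 0) p = _ := f0.fderiv
  have e1 : fderiv ℝ (fun q => F q 1) p = _ := f1.fderiv
  have e2 : fderiv ℝ (fun q => F q 2) p = _ := f2.fderiv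
  ext i j
  rw [LinearMap.toMatrix'_apply, ContinuousLinearMap.coe_coe, e]
  fin_cases i <;> fin_cases j <;> simp [e0, e1, e2, Jac] <;> ring_nf <;> simp

lemma hur (x y a as az o o' c : ℝ) (z : ℂ)
    (hz : Polynomial.aeval z (Jac x y a as az o o' c).charpoly = 0) (s J : ℝ) (hs : s = x ^ 2 + y ^ 2)
    (hJ : J = -3 * (a + 2 * s * as) - 2 * s * az * c) :
    z ^ 3 + (3 - 2 * a - 2 * s * as : ℝ) * z ^ 2 + (a * (a + 2 * s * as) + o ^ 2 + J - 3 * a : ℝ) * z +
      (3 * o ^ 2 + 2 * s * o * o' * c - a * J : ℝ) = 0 := by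
  rw [Polynomial.aeval_def, Polynomial.eval₂_eq_eval_map, ← Matrix.charpoly_map,
    Matrix.eval_charpoly, Matrix.det_fin_three] at hz
  simp [Jac] at hz
  subst hs hJ
  push_cast
  linear_combination hz

lemma bounds (P Q R a g k o : ℝ) (ha0 : -2 ≤ a) (ha1 : a ≤ 0) (hg0 : -(5 / 2) ≤ g) (hg1 : g ≤ 5 / 2)
    (hk0 : -5 ≤ k) (hk1 : k ≤ 5) (ho : 400 ≤ o) (hP : P = 5 - g)
    (hQ : Q = a * (-2 + g - a) + o + (-3 * (-2 + g - a) - k) - 3 * a)
    (hR : R = 3 * o - g * o - a * (-3 * (-2 + g - a) - k)) : 0 < P ∧ 0 < R ∧ R < P * Q := by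
  have h1 : |a * (-3 * (-2 + g - a) - k)| ≤ 2 * 20 := by
    rw [abs_mul]
    exact mul_le_mul (abs_le.2 ⟨by linarith, by linarith⟩) (abs_le.2 ⟨by linarith, by linarith⟩)
      (abs_nonneg _) (by norm_num)
  have h2 : |a * (-2 + g - a)| ≤ 2 * 5 := by
    rw [abs_mul]
    exact mul_le_mul (abs_le.2 ⟨by linarith, by linarith⟩) (abs_le.2 ⟨by linarith, by linarith⟩)
      (abs_nonneg _) (by norm_num)
  have h3 := abs_le.1 h1
  have h4 := abs_le.1 h2
  have h5 : o - 30 ≤ Q := by linarith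
  refine ⟨by linarith, by nlinarith, ?_⟩
  have h6 : P * (o - 30) ≤ P * Q := mul_le_mul_of_nonneg_left h5 (by linarith)
  nlinarith

end

/-- There is a C^∞ vector field F on R^3 with F(0)=0, all complex eigenvalues of its Jacobian at every point having negative real part, and a non-constant periodic solution of x' = F(x). -/
theorem result :
    ∃ F : (Fin 3 → ℝ) → (Fin 3 → ℝ),
      ContDiff ℝ ∞ F ∧ F 0 = 0 ∧
      (∀ (x : Fin 3 → ℝ) (z : ℂ),
        Polynomial.aeval z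
            (LinearMap.toMatrix' (fderiv ℝ F x).toLinearMap).charpoly = 0 →
          z.re < 0) ∧
      ∃ γ : ℝ → (Fin 3 → ℝ), ∃ T : ℝ, 0 < T ∧
        (∀ t : ℝ, HasDerivAt γ (F (γ t)) t) ∧
        (∀ t : ℝ, γ (t + T) = γ t) ∧
        ∃ t : ℝ, γ t ≠ γ 0 := by
  refine ⟨F, ?_, ?_, fun p z hz => ?_,
    fun t => ![Real.cos (40 * t), Real.sin (40 * t), 1], 2 * Real.pi / 40, by positivity,
    fun t => ?_, fun t => ?_, Real.pi / 40, fun h => ?_⟩
  · rw [contDiff_pi]
    intro i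
    fin_cases i <;> simp only [F, A, E, h, om] <;> simp <;> fun_prop (disch := intro x; positivity)
  · ext i; fin_cases i <;> simp [F, h]
  · rw [jac] at hz
    have h1 := hur _ _ _ _ _ _ _ _ z hz _ _ rfl rfl
    set s := p 0 ^ 2 + p 1 ^ 2 with hs
    have hs0 : 0 ≤ s := by positivity
    have hs1 : 0 < 1 + s := by linarith
    have hu : 0 < 1 + (p 2 - 2) ^ 2 := by positivity
    have hA0 : 0 ≤ 4 * A s := by unfold A; positivity
    have hA1 : 4 * A s ≤ 1 := by
      rw [A, ← mul_div_assoc, div_le_one (by positivity)]; nlinarith [sq_nonneg (s - 1)]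
    have hc0 : 0 ≤ 2 * s * h' s := by unfold h'; positivity
    have hc1 : 2 * s * h' s ≤ 5 / 2 := by
      rw [h', ← mul_div_assoc, div_le_iff₀ (by positivity)]
      nlinarith [mul_nonneg hs0 (sq_nonneg (s - 1 / 2)), sq_nonneg (s - 1 / 2)]
    have hE : |E (p 2)| ≤ 1 := by
      rw [E, abs_div, abs_of_pos hu, div_le_one hu, abs_le]
      constructor <;> nlinarith [sq_nonneg (p 2 - 1), sq_nonneg (p 2 - 3)]
    have hE' : |E' (p 2)| ≤ 2 := by
      rw [E', abs_div, abs_of_pos (pow_pos hu 2), div_le_iff₀ (pow_pos hu 2), abs_le]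
      constructor <;> nlinarith [sq_nonneg (p 2 - 2), sq_nonneg ((p 2 - 2) ^ 2)]
    have b1 : |E (p 2) * (4 * A s)| ≤ 1 * 1 := by
      rw [abs_mul, abs_of_nonneg hA0]; exact mul_le_mul hE hA1 hA0 zero_le_one
    have b2 : |E (p 2) * (2 * s * h' s)| ≤ 1 * (5 / 2) := by
      rw [abs_mul, abs_of_nonneg hc0]; exact mul_le_mul hE hc1 hc0 zero_le_one
    have b3 : |E' (p 2) * (4 * A s * (2 * s * h' s))| ≤ 2 * (1 * (5 / 2)) := by
      rw [abs_mul, abs_of_nonneg (mul_nonneg hA0 hc0)]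
      exact mul_le_mul hE' (mul_le_mul hA1 hc1 hc0 zero_le_one) (mul_nonneg hA0 hc0) zero_le_two
    have i1 : 4 * s * A' s = s * h' s - 4 * A s := by
      simp only [A, A', h']; field_simp; ring
    have i2 : 40 * (p 2 - 2) = -E (p 2) * om (p 2) := by
      simp only [E, om]; field_simp; ring
    have ho : 400 ≤ om (p 2) ^ 2 := by
      have : 20 ≤ om (p 2) := by rw [om]; nlinarith [sq_nonneg (p 2 - 2)]
      nlinarith
    have b1' := abs_le.1 b1
    have b2' := abs_le.1 b2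
    have b3' := abs_le.1 b3
    obtain ⟨c1, c2, c3⟩ := bounds _ _ _ (-1 + 4 * (E (p 2) * A s)) (E (p 2) * (2 * s * h' s))
      (E' (p 2) * (4 * A s * (2 * s * h' s))) (om (p 2) ^ 2) (by linarith) (by linarith)
      (by linarith) (by linarith) (by linarith) (by linarith) ho rfl rfl rfl
    refine routh _ _ _ c1 c2 c3 z ?_
    rw [← h1]
    congr 1
    · congr 1
      · congr 3
        linear_combination (2 * E (p 2)) * i1
      · congr 2
        linear_combination (-2 * E (p 2) * (-1 + 4 * (E (p 2) * A s) - 3)) * i1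
    · congr 1
      rw [i2]
      linear_combination (-6 * E (p 2) * (-1 + 4 * (E (p 2) * A s))) * i1
  · rw [hasDerivAt_pi]
    intro i
    have h0 : HasDerivAt (fun t : ℝ => 40 * t) 40 t := by
      simpa using (hasDerivAt_id' t).const_mul 40
    have hA : A 1 = 1 / 4 := by norm_num [A]
    have hE : E 1 = 1 := by norm_num [E]
    have hh : h 1 = 3 := by norm_num [h]
    have ho : om 1 = 40 := by norm_num [om]
    fin_cases i
    · refine h0.cos.congr_deriv ?_
      simp [F, hA, hE, ho]; ring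
    · refine h0.sin.congr_deriv ?_
      simp [F, hA, hE, ho]; ring
    · refine (hasDerivAt_const t (1 : ℝ)).congr_deriv ?_
      simp [F, hh]
  · have : 40 * (t + 2 * Real.pi / 40) = 40 * t + 2 * Real.pi := by ring
    simp only [this, Real.cos_add_two_pi, Real.sin_add_two_pi]
  · have := congrFun h 0
    have e : 40 * (Real.pi / 40) = Real.pi := by ring
    simp [e] at this
    norm_num at this

end Pool.Agent.S05635
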