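import Pool.Statements.S05651
import Pool.Agent.Lib.helper18.Cantor4

set_option autoImplicit false
open MeasureTheory Filter
open Pool Pool.MP_a2ac39_an

namespace Pool.Agent.S05651

open H18Cantor in

theorem result :
  ∃ (μ : Measure ℂ) (K : Set ℂ) (ν : Measure ℂ),
    IsProbabilityMeasure μ ∧ NoAtoms μ ∧
    IsCompact K ∧ μ Kᶜ = 0 ∧
    (∀ U : Set ℂ, IsOpen U → (U ∩ K).Nonempty → 0 < μ U) ∧
    IsProbabilityMeasure ν ∧ ν Kᶜ = 0 ∧ NoAtoms ν ∧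
    Integrable (fun p : ℂ × ℂ => Real.log ‖p.1 - p.2‖) (ν.prod ν) ∧
    (∀ ρ : Measure ℂ, IsProbabilityMeasure ρ → ρ Kᶜ = 0 → NoAtoms ρ →
      Integrable (fun p : ℂ × ℂ => Real.log ‖p.1 - p.2‖) (ρ.prod ρ) →
      ∫ p, Real.log ‖p.1 - p.2‖ ∂(ρ.prod ρ) ≤ ∫ p, Real.log ‖p.1 - p.2‖ ∂(ν.prod ν)) ∧
    μ.MutuallySingular ν ∧
    ∃ c : ℝ, 0 < c ∧ ∀ᶠ n : ℕ in atTop,
      c ≤ (⨅ P : {P : Polynomial ℂ // P.Monic ∧ P.natDegree = n},
            Real.sqrt (∫ z, ‖P.1.eval z‖ ^ 2 ∂μ)) /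
          Real.exp (∫ p, Real.log ‖p.1 - p.2‖ ∂(ν.prod ν)) ^ n := by
  obtain ⟨φ, h⟩ := exists_nest
  have q1 : (4⁻¹ : ENNReal) ≤ 3 * 4⁻¹ := le_mul_of_one_le_left bot_le (by norm_num)
  have q2 : (3 * 4⁻¹ + 4⁻¹ : ENNReal) = 1 := by
    rw [← add_one_mul, show (3 + 1 : ENNReal) = 4 by norm_num,
      ENNReal.mul_inv_cancel (by simp) (by simp)]
  have q3 : (3 * 4⁻¹ : ENNReal) < 1 := by
    rw [← q2]
    exact ENNReal.lt_add_right (ENNReal.mul_ne_top (by simp) (by simp)) (by simp)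
  have q4 : (3 * 4⁻¹ : ENNReal) ≠ 2⁻¹ := by
    intro e
    have := congrArg ENNReal.toReal e
    norm_num at this
  have := bern_prob q2
  have := bern_prob ENNReal.inv_two_add_inv_two
  have b1 : ∀ b, bern 2⁻¹ 2⁻¹ {b} = 2⁻¹ := fun b => by
    cases b
    · exact bern_false _ _
    · exact bern_true _ _
  have b2 : ∀ b, 4⁻¹ ≤ bern (3 * 4⁻¹) 4⁻¹ {b} ∧ bern (3 * 4⁻¹) 4⁻¹ {b} ≤ 3 * 4⁻¹ := fun b => by
    cases b
    · rw [bern_false]; exact ⟨le_rfl, q1⟩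
    · rw [bern_true]; exact ⟨q1, le_rfl⟩
  obtain ⟨e1, e2, e3⟩ := h.equil _ b1
  refine ⟨(P (bern (3 * 4⁻¹) 4⁻¹)).map (ψ φ), Set.range (ψ φ), (P (bern 2⁻¹ 2⁻¹)).map (ψ φ),
    Measure.isProbabilityMeasure_map h.ψ_emb.measurable.aemeasurable,
    h.null _ q3 fun b => (b2 b).2, isCompact_range h.ψ_cont, h.supp _, ?_,
    Measure.isProbabilityMeasure_map h.ψ_emb.measurable.aemeasurable, h.supp _,
    h.null _ (r := 2⁻¹) (by simp) fun b => (b1 b).le, e1, ?_,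
    h.ψ_emb.mutuallySingular_map (sing _ _ (by rwa [bern_true, bern_true])), 1, one_pos,
    Eventually.of_forall fun n => ?_⟩
  · rintro U hU ⟨_, hz, e, rfl⟩
    rw [h.ψ_emb.map_apply]
    exact opos _ (fun b => lt_of_lt_of_le (by simp) (b2 b).1) (hU.preimage h.ψ_cont) ⟨e, hz⟩
  · rw [e2]
    exact e3
  · rw [e2, Real.exp_zero, one_pow, div_one]
    have : Nonempty {P : Polynomial ℂ // P.Monic ∧ P.natDegree = n} :=
      ⟨⟨Polynomial.X ^ n, Polynomial.monic_X_pow n, by simp⟩⟩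
    exact le_ciInf fun Q => Real.one_le_sqrt.2 (h.l2' _ (fun b => (b2 b).1) _ Q.2.1)

end Pool.Agent.S05651
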