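import Pool.Statements.S05654
import Pool.Agent.Lib.helper15.Conv3

set_option autoImplicit false
open Filter Topology
open Pool Pool.MP_a2b00d_an

namespace Pool.Agent.S05654

open Pool.Agent.Lib.helper15.Conv

lemma exists_perm (j : Fin 4) : ∃ κ : Equiv.Perm ℕ, ∀ n, (κ n % 2 = j % 2 ↔ n % 4 = j) := by
  have hj := j.2
  have inf : ∀ (p : ℕ → Prop) (r : ℕ), (∀ k, p (4 * k + r)) → Infinite {n // p n} := fun p r h =>
    Infinite.of_injective (fun k : ℕ => (⟨4 * k + r, h k⟩ : {n // p n})) fun a b hab => by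
      have := congrArg Subtype.val hab
      simp only at this; omega
  have i1 := inf (fun n => n % 4 = j) j (fun k => by omega)
  have i2 := inf (fun n => n % 2 = j % 2) j (fun k => by omega)
  have i3 := inf (fun n => ¬ n % 4 = j) (j + 1) (fun k => by omega)
  have i4 := inf (fun n => ¬ n % 2 = j % 2) (j + 1) (fun k => by omega)
  obtain ⟨e⟩ : Nonempty ({n : ℕ // n % 4 = j} ≃ {n : ℕ // n % 2 = j % 2}) := nonempty_equiv_of_countable
  obtain ⟨f⟩ : Nonempty ({n : ℕ // ¬ n % 4 = j} ≃ {n : ℕ // ¬ n % 2 = j % 2}) :=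
    nonempty_equiv_of_countable
  refine ⟨Equiv.subtypeCongr e f, fun n => ?_⟩
  by_cases h : n % 4 = j
  · have : Equiv.subtypeCongr e f n = e ⟨n, h⟩ := by
      simp [Equiv.subtypeCongr, Equiv.sumCompl_symm_apply_of_pos (p := fun n : ℕ => n % 4 = j) h]
    rw [this]; exact ⟨fun _ => h, fun _ => (e ⟨n, h⟩).2⟩
  · have : Equiv.subtypeCongr e f n = f ⟨n, h⟩ := by
      simp [Equiv.subtypeCongr, Equiv.sumCompl_symm_apply_of_neg (p := fun n : ℕ => n % 4 = j) h]
    rw [this]; exact ⟨fun h' => absurd h' (f ⟨n, h⟩).2, fun h' => absurd h' h⟩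

open Classical in
noncomputable def xx (n : ℕ) (g : FreeGroup ℕ) : ℂ :=
  if n < 4 then (if g = 1 then 1 else 0) - (if g = FreeGroup.of n then 1 else 0) else 0

lemma xx_tsum (n : ℕ) (hn : n < 4) (ψ : FreeGroup ℕ → ℂ) :
    HasSum (fun g => xx n g * ψ g) (ψ 1 - ψ (FreeGroup.of n)) := by
  classical
  have h := (hasSum_ite_eq (1 : FreeGroup ℕ) (ψ 1)).sub
    (hasSum_ite_eq (FreeGroup.of n) (ψ (FreeGroup.of n)))
  have e : (fun g => xx n g * ψ g) = fun g => (if g = 1 then ψ 1 else 0) -
      (if g = FreeGroup.of n then ψ (FreeGroup.of n) else 0) := by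
    funext g
    simp only [xx, hn, if_true, sub_mul]
    congr 1 <;> split_ifs with h <;> simp [h]
  rw [e]; exact h


/-- The negation of the preceding statement: Every ℓ¹-null sequence in the augmentation ideal of ℓ¹ of the countably generated free group factors as one ideal element a convolved with an ℓ¹-null sequence from the ideal. -/
theorem result :
    ¬ (∀ x : ℕ → FreeGroup ℕ → ℂ,
      (∀ n, Summable (fun g => ‖x n g‖) ∧ ∑' g, x n g = 0) →
      Tendsto (fun n => ∑' g, ‖x n g‖) atTop (𝓝 0) →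
      ∃ a : FreeGroup ℕ → ℂ, Summable (fun g => ‖a g‖) ∧ ∑' g, a g = 0 ∧
        ∃ y : ℕ → FreeGroup ℕ → ℂ,
          (∀ n, Summable (fun g => ‖y n g‖) ∧ ∑' g, y n g = 0) ∧
          Tendsto (fun n => ∑' g, ‖y n g‖) atTop (𝓝 0) ∧
          ∀ n g, x n g = ∑' h, a h * y n (h⁻¹ * g)) := by
  classical
  intro H
  obtain ⟨a, ha, ha0, y, hy, -, hxy⟩ := H xx (fun n => by
      by_cases hn : n < 4
      · have := xx_tsum n hn (fun _ => 1)
        simp only [mul_one, sub_self] at this
        exact ⟨this.summable.norm, this.tsum_eq⟩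
      · simp [xx, hn, summable_zero])
    (tendsto_const_nhds.congr' (by
      filter_upwards [eventually_ge_atTop 4] with n hn
      simp [xx, not_lt.2 hn]))
  choose κ hκ using exists_perm
  let τ : FreeGroup ℕ →* Equiv.Perm ℕ :=
    FreeGroup.lift fun n => if h : n < 4 then (κ ⟨n, h⟩)⁻¹ else 1
  let π : FreeGroup ℕ → ℕ := fun g => τ g⁻¹ 0
  have hπ : ∀ g (j : Fin 4), π (g * FreeGroup.of (j : ℕ)) = κ j (π g) := by
    intro g j
    have : τ (FreeGroup.of (j : ℕ)) = (κ j)⁻¹ := by simp [τ, j.2]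
    simp only [π, mul_inv_rev, map_mul, map_inv, this, inv_inv, Equiv.Perm.mul_apply]
  let D : Data (FreeGroup ℕ) :=
    { a := a
      ha := ha
      c := fun j => FreeGroup.of (j : ℕ)
      w := fun j g => if π g % 2 = j % 2 then 1 else 0
      hw := fun j g => by split_ifs <;> simp
      h1 := fun g => by
        rw [Fin.sum_univ_four]
        rcases Nat.mod_two_eq_zero_or_one (π g) with h | h <;>
          simp [h] <;> norm_num
      h2 := fun g i j hi hj => by
        have hi' : π (g * FreeGroup.of (i : ℕ)) % 2 = i % 2 := by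
          by_contra h; simp [h] at hi
        have hj' : π (g * FreeGroup.of (j : ℕ)) % 2 = j % 2 := by
          by_contra h; simp [h] at hj
        rw [hπ, hκ] at hi' hj'
        exact Fin.ext (hi'.symm.trans hj')
      y := fun j => y j
      hy := fun j => (hy j).1
      hay := fun j φ B hB g => by
        rw [conv_assoc a (y j) (xx j) ha (hy j).1 (hxy j) φ B hB g,
          (xx_tsum j j.2 (fun m => φ (g * m))).tsum_eq, mul_one] }
  exact D.sum_ne_zero ha0

end Pool.Agent.S05654
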