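import Pool.Statements.S05690
-- import your own Pool.Agent.* helpers here
import Pool.Agent.Lib.helper16.ND6

set_option autoImplicit false
open Pool Pool.MP_a56edf_an

namespace Pool.Agent.S05690

open Pool.Agent.Lib.helper16.ND Pool.Agent.Lib.helper16.NDB Filter Topology

instance : TopologicalSpace.SeparableSpace (E D) := by
  rw [← TopologicalSpace.isSeparable_univ_iff]
  have h1 : TopologicalSpace.IsSeparable (Submodule.span ℝ (Set.range (bas 0)) : Set (E D)) :=
    (Set.countable_range _).isSeparable.span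
  refine h1.closure.mono fun x _ => ?_
  refine mem_closure_of_tendsto (cutE_tendsto (rev 0) x) (Eventually.of_forall fun n => ?_)
  rw [cutE_eq]
  exact Submodule.sum_mem _ fun i _ => Submodule.smul_mem _ _ (Submodule.subset_span ⟨i, rfl⟩)


/-- The negation of the preceding statement: Let E be a separable real or complex Banach space and λ ≥ 1. Suppose for every δ > 0, compact Q and ε > 0, some finite-rank projection of norm ≤ λ+δ is within ε of the identity on Q. Then the same holds with norm ≤ λ. -/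
theorem result :
    ¬ (∀ (𝕜 : Type) [RCLike 𝕜] (E : Type) [NormedAddCommGroup E] [NormedSpace 𝕜 E]
      [CompleteSpace E] [TopologicalSpace.SeparableSpace E] (lam : ℝ), 1 ≤ lam →
      (∀ δ : ℝ, 0 < δ → ∀ Q : Set E, IsCompact Q → ∀ ε : ℝ, 0 < ε →
        ∃ u : E →L[𝕜] E, FiniteDimensional 𝕜 (LinearMap.range (u : E →ₗ[𝕜] E)) ∧
          u.comp u = u ∧ ‖u‖ ≤ lam + δ ∧ ∀ x ∈ Q, ‖u x - x‖ ≤ ε) →
      (∀ Q : Set E, IsCompact Q → ∀ ε : ℝ, 0 < ε →
        ∃ u : E →L[𝕜] E, FiniteDimensional 𝕜 (LinearMap.range (u : E →ₗ[𝕜] E)) ∧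
          u.comp u = u ∧ ‖u‖ ≤ lam ∧ ∀ x ∈ Q, ‖u x - x‖ ≤ ε)) := by
  intro h
  obtain ⟨u, h1, h2, h3, h4⟩ := h ℝ (E D) 1 le_rfl (by
      intro δ hδ Q hQ ε hε
      obtain ⟨M, hM⟩ := good δ hδ
      have hpos : 0 < ε / (2 * (2 + δ)) := by positivity
      obtain ⟨t, -, htf, ht⟩ := finite_cover_balls_of_compact hQ hpos
      have hev : ∀ᶠ n in atTop, ∀ y ∈ t, dist (cutE {j | rev M j < n} y) y < ε / 2 :=
        (eventually_all_finite htf).mpr fun y _ =>
          Metric.tendsto_nhds.mp (cutE_tendsto (rev M) y) _ (half_pos hε)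
      obtain ⟨n, hn⟩ := hev.exists
      refine ⟨cutE {j | rev M j < n}, cutE_fin M n, by simpa using cutE_comp (rev M) n n, hM n,
        fun x hx => ?_⟩
      obtain ⟨y, hy, hxy⟩ := Set.mem_iUnion₂.mp (ht hx)
      have a1 := hn y hy
      rw [Metric.mem_ball, dist_eq_norm] at hxy
      rw [dist_eq_norm] at a1
      have a2 : ‖cutE {j | rev M j < n} (x - y)‖ ≤ (1 + δ) * ‖x - y‖ :=
        le_trans (ContinuousLinearMap.le_opNorm _ _)
          (mul_le_mul_of_nonneg_right (hM n) (norm_nonneg _))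
      have a3 : cutE {j | rev M j < n} x - x = cutE {j | rev M j < n} (x - y)
          + (cutE {j | rev M j < n} y - y) - (x - y) := by rw [map_sub]; abel
      have a4 : (2 + δ) * ‖x - y‖ ≤ ε / 2 := by
        rw [lt_div_iff₀ (by positivity)] at hxy
        linarith
      rw [a3]
      refine le_trans (norm_sub_le _ _) (le_trans (add_le_add_left (norm_add_le _ _) _) ?_)
      linarith)
    {bas 0 0, bas 0 1} ((Set.toFinite _).isCompact) (1 / 8) (by norm_num)
  refine no_proj u h1 (fun x => ?_) h3 (rank_two u (h4 _ (by simp)) (h4 _ (by simp)))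
  exact congrArg (fun T : E D →L[ℝ] E D => T x) h2

end Pool.Agent.S05690
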