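import Pool.Statements.S05749
import Pool.Agent.Lib.helper18.Vdm6

set_option autoImplicit false
open Pool Pool.MP_a9f24d_an

namespace Pool.Agent.S05749

open Filter Topology MvPolynomial MeasureTheory H18Vdm


theorem result :
  ∀ (n : ℕ), 2 ≤ n → ∀ (K : Set (Fin n → ℂ)), IsCompact K →
    (∃ V : (Fin n → ℂ) → ℝ, Continuous V ∧ ∀ z : Fin n → ℂ,
      IsLUB {t : ℝ | ∃ k : ℕ, 1 ≤ k ∧ ∃ p : MvPolynomial (Fin n) ℂ, p.totalDegree ≤ k ∧
        (∀ x ∈ K, ‖MvPolynomial.eval x p‖ ≤ 1) ∧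
        t = Real.log ‖MvPolynomial.eval z p‖ / (k : ℝ)} (V z)) →
    ∀ (ν : MeasureTheory.Measure (Fin n → ℂ)) [MeasureTheory.IsFiniteMeasure ν], ν Kᶜ = 0 →
    ((∀ ε : ℝ, 0 < ε → ∃ C : ℝ, ∀ (k : ℕ) (p : MvPolynomial (Fin n) ℂ), p.totalDegree ≤ k →
        ∀ x ∈ K, ‖MvPolynomial.eval x p‖ ^ 2 ≤
          C * (1 + ε) ^ (2 * k) * ∫ y, ‖MvPolynomial.eval y p‖ ^ 2 ∂ν)
    ↔
    ∃ d : ℝ,
      Filter.Tendsto (fun k : ℕ =>
        (sSup {s : ℝ | ∃ z : {α : Fin n → Fin (k+1) // ∑ i, (α i : ℕ) ≤ k} → (Fin n → ℂ),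
            (∀ a, z a ∈ K) ∧
            s = ‖Matrix.det (Matrix.of (fun a b : {α : Fin n → Fin (k+1) // ∑ i, (α i : ℕ) ≤ k} =>
                  ∏ i, z a i ^ ((b.1 i : ℕ))))‖}) ^
          ((1 : ℝ) / (∑ a : {α : Fin n → Fin (k+1) // ∑ i, (α i : ℕ) ≤ k},
                        ∑ i, ((a.1 i : ℕ) : ℝ))))
        Filter.atTop (nhds d) ∧
      Filter.Tendsto (fun k : ℕ =>
        (∫ z, ‖Matrix.det (Matrix.of (fun a b : {α : Fin n → Fin (k+1) // ∑ i, (α i : ℕ) ≤ k} =>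
                  ∏ i, z a i ^ ((b.1 i : ℕ))))‖ ^ 2
            ∂(MeasureTheory.Measure.pi
                (fun _ : {α : Fin n → Fin (k+1) // ∑ i, (α i : ℕ) ≤ k} => ν))) ^
          ((1 : ℝ) / (2 * ∑ a : {α : Fin n → Fin (k+1) // ∑ i, (α i : ℕ) ≤ k},
                        ∑ i, ((a.1 i : ℕ) : ℝ))))
        Filter.atTop (nhds d)) := by
  intro n hn K hK ⟨V, hc, hV⟩ ν _ hν
  have ne : K.Nonempty := by
    by_contra h
    have := (hV 0).1 ⟨1, le_rfl, C (Real.exp (V 0 + 1) : ℂ), by simp,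
      fun x hx => (h ⟨x, hx⟩).elim, rfl⟩
    rw [eval_C, Complex.norm_real, Real.norm_of_nonneg (Real.exp_pos _).le, Real.log_exp] at this
    norm_num at this
  have hB : ∀ z W, V z ≤ W → Bd K z W := fun z W hW k p s hp hs => by
    obtain ⟨x, hx⟩ := ne
    rcases Nat.eq_zero_or_pos k with rfl | hk
    · have := hs x hx
      rw [totalDegree_eq_zero_iff_eq_C.1 (Nat.le_zero.1 hp)] at this ⊢
      simpa using this
    rw [← div_le_iff₀ (Real.exp_pos _)]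
    refine le_of_forall_gt_imp_ge_of_dense fun t ht => ?_
    have t0 : 0 < t := ((norm_nonneg _).trans (hs x hx)).trans_lt ht
    have e : ∀ y, ‖eval y (C (t⁻¹ : ℂ) * p)‖ = ‖eval y p‖ / t := fun y => by
      simp [abs_of_pos t0, div_eq_inv_mul]
    have := ((hV z).1 ⟨k, hk, C (t⁻¹ : ℂ) * p, (totalDegree_mul _ _).trans (by simpa), fun y hy => by
      rw [e, div_le_one t0]; exact (hs y hy).trans ht.le, rfl⟩).trans hW
    rw [e, div_le_iff₀' (by exact_mod_cast hk)] at this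
    rw [div_le_iff₀ (Real.exp_pos _), ← div_le_iff₀' t0]
    exact (Real.le_exp_log _).trans (Real.exp_le_exp.2 this)
  obtain ⟨M, hM⟩ := (isCompact_closedBall (0 : Fin n → ℂ) 1).bddAbove_image hc.continuousOn
  have hM' : ∀ z, ‖z‖ ≤ 1 → Bd K z M := fun z hz => hB z M (hM ⟨z, by simpa, rfl⟩)
  obtain ⟨δ, hδ⟩ := zaharjuta hK ne hM' (by omega)
  have h1 := V_lim hK ne hM' hδ
  refine ⟨fun h => ⟨_, h1, toZ hK hν ne hM' (by omega) hδ h⟩, fun ⟨d, h2, h3⟩ => ?_⟩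
  obtain rfl : d = Real.exp δ := tendsto_nhds_unique h2 h1
  by_contra h
  push Not at h
  obtain ⟨ε, ε0, h⟩ := h
  have e0 : 0 < Real.log (1 + ε) / 2 := half_pos (Real.log_pos (by linarith))
  obtain ⟨ρ, ρ0, hρ⟩ := hK.exists_cthickening_subset_open
    (isOpen_lt hc (continuous_const (y := Real.log (1 + ε) / 2))) fun x hx => by
      refine lt_of_le_of_lt ((hV x).2 ?_) e0
      rintro _ ⟨k, -, p, -, h, rfl⟩
      exact div_nonpos_of_nonpos_of_nonneg (Real.log_nonpos (norm_nonneg _) (h x hx)) k.cast_nonneg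
  obtain ⟨R, R0, hR⟩ := hK.isBounded.exists_pos_norm_le
  refine core hK hν ne hM' (by omega) hδ (r := ρ / (2 * R)) (W := Real.log (1 + ε) / 2)
    (by positivity) e0 (fun A => ?_) h3
  obtain ⟨k, p, hp, x, hx, h4⟩ := h (Real.exp A)
  refine ⟨k, p, x, hp, fun y hy t ht => hB _ _
    (le_of_lt (hρ (Metric.mem_cthickening_of_dist_le _ x ρ K hx ?_))), ?_⟩
  · rw [dist_self_add_left, norm_smul, ht, div_mul_eq_mul_div, div_le_iff₀ (by positivity)]
    gcongr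
    linarith [norm_sub_le y x, hR x hx, hR y hy]
  · rwa [add_halves, Real.exp_add, show (2 : ℝ) * k = (2 * k : ℕ) by simp, Real.exp_nat_mul,
      Real.exp_log (by positivity)]

end Pool.Agent.S05749
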