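import Pool.Statements.S05776
import Pool.Agent.Lib.helper21.BentGeo

set_option autoImplicit false
open Pool Pool.MP_ab96c2_an

namespace Pool.Agent.S05776

/-- The negation of the preceding statement: For every bounded simply connected planar domain, the number of critical points of its torsion function (Δv=−2, v=0 on the boundary) is at most 2m−1, where m is the number of components of the set of local maxima of the distance to the boundary. -/
theorem result :
    ¬ (∀ (Ω : Set ℂ), IsOpen Ω → Bornology.IsBounded Ω → SimplyConnectedSpace Ω →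
    ∀ (v : ℂ → ℝ), ContDiffOn ℝ 2 v Ω →
      (∀ z ∈ Ω, fderiv ℝ (fun w => fderiv ℝ v w (1 : ℂ)) z (1 : ℂ)
          + fderiv ℝ (fun w => fderiv ℝ v w Complex.I) z Complex.I = -2) →
      ContinuousOn v (closure Ω) →
      (∀ z ∈ frontier Ω, v z = 0) →
      Set.encard {z : ℂ | z ∈ Ω ∧ fderiv ℝ v z = 0}
        ≤ 2 * ENat.card (ConnectedComponents
              {z : ℂ | z ∈ Ω ∧ IsLocalMax (fun w : ℂ => Metric.infDist w Ωᶜ) z}) - 1) := by
  open Pool.Agent.Lib.Helper21.BentGeo in
  intro h
  have := star.contractibleSpace ⟨0, by norm_num, v0⟩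
  have k := h Ω opn bdd (SimplyConnectedSpace.ofContractible _) v cv.contDiffOn (fun z _ => lap z)
    cv.continuous.continuousOn fun z hz => zero hz.1 (by rw [← opn.interior_eq]; exact hz.2)
  have := uniq.coe_sort
  have c : ENat.card (ConnectedComponents
      {z : ℂ | z ∈ Ω ∧ IsLocalMax (fun w : ℂ => Metric.infDist w Ωᶜ) z}) ≤ 1 :=
    (ENat.card_le_one_iff_subsingleton _).2 ConnectedComponents.surjective_coe.subsingleton
  have k1 := k.trans (show _ ≤ (1 : ℕ∞) from (tsub_le_tsub_right (mul_le_mul_right c 2) 1).trans (by decide))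
  obtain ⟨p, p1, p2, p3⟩ := crit (Or.inl rfl)
  obtain ⟨q, q1, q2, q3⟩ := crit (Or.inr rfl)
  have := Set.encard_le_one_iff.1 k1 p q ⟨p1, p2⟩ ⟨q1, q2⟩
  rw [this] at p3
  linarith

end Pool.Agent.S05776
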