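import Pool.Statements.S05779
import Pool.Agent.Lib.helper31.ShiftC0

set_option autoImplicit false
open Pool Pool.MP_abc713_an

namespace Pool.Agent.S05779

open Pool.Agent.H31.ShiftC0 Filter Topology

/-- There is a bounded operator T on a nonzero separable real or complex Banach space such that every vector is a sum of two vectors whose orbits visit each nonempty open set with positive lower density. -/
theorem result :
    ∃ (𝕜 : Type) (_ : RCLike 𝕜) (X : Type) (_ : NormedAddCommGroup X)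
      (_ : NormedSpace 𝕜 X) (_ : CompleteSpace X)
      (_ : TopologicalSpace.SeparableSpace X) (_ : Nontrivial X)
      (T : X →L[𝕜] X),
      ∀ x : X, ∃ y z : X, x = y + z ∧
        (∀ U : Set X, IsOpen U → U.Nonempty →
          ∃ δ : ℝ, 0 < δ ∧ ∀ᶠ N : ℕ in Filter.atTop,
            δ * (N : ℝ) ≤ (({n : ℕ | n < N ∧ (T ^ n) y ∈ U}.ncard : ℕ) : ℝ)) ∧
        (∀ U : Set X, IsOpen U → U.Nonempty →
          ∃ δ : ℝ, 0 < δ ∧ ∀ᶠ N : ℕ in Filter.atTop,
            δ * (N : ℝ) ≤ (({n : ℕ | n < N ∧ (T ^ n) z ∈ U}.ncard : ℕ) : ℝ)) := by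
  have hsep : TopologicalSpace.SeparableSpace X := by
    refine ⟨⟨Set.range fun n : ℕ => (T ^ n) (mk pat pat_tends), Set.countable_range _, ?_⟩⟩
    rw [dense_iff_inter_open]
    intro U hU hne
    obtain ⟨δ, hδ, h⟩ := fhc 0 (by norm_num) (mk pat pat_tends) (fun _ _ => rfl) U hU hne
    obtain ⟨N, hN, hN1⟩ := (h.and (eventually_ge_atTop 1)).exists
    have h1 : (0 : ℝ) < δ * N := mul_pos hδ (by exact_mod_cast hN1)
    have h2 : 0 < {n : ℕ | n < N ∧ (T ^ n) (mk pat pat_tends) ∈ U}.ncard := by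
      exact_mod_cast h1.trans_le hN
    obtain ⟨n, -, hn⟩ := Set.nonempty_of_ncard_ne_zero h2.ne'
    exact ⟨_, hn, n, rfl⟩
  have hnt : Nontrivial X := by
    refine ⟨mk _ (tendsto_one_div_add_atTop_nhds_zero_nat (𝕜 := ℝ)), 0, fun h => ?_⟩
    have := congrArg (fun f : X => f 0) h
    simp at this
  refine ⟨ℝ, inferInstance, X, inferInstance, inferInstance, inferInstance, hsep, hnt, T, fun x => ?_⟩
  have ht : Tendsto (fun m => if Nat.log 2 m % 2 = 0 then pat m else x m - pat m) atTop (𝓝 0) := by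
    refine Tendsto.if' pat_tends ?_
    simpa using (tends x).sub pat_tends
  refine ⟨mk _ ht, x - mk _ ht, by simp, fhc 0 (by norm_num) _ fun m hm => ?_,
    fhc 1 (by norm_num) _ fun m hm => ?_⟩
  · simp [hm]
  · simp [hm]

end Pool.Agent.S05779
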