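import Pool.Statements.S05866
-- import your own Pool.Agent.* helpers here
import Pool.Agent.Lib.helper16.ND4

set_option autoImplicit false
open Pool Pool.MP_b372c7_an

namespace Pool.Agent.S05866

open Pool.Agent.Lib.helper16.ND Filter Topology
open scoped RealInnerProductSpace

noncomputable def D0 : Data ℕ where
  χ p := if p = (0, 0) then 1 else 0
  α _ := 0
  hχ p := by split_ifs <;> norm_num

noncomputable def e0 : H ℕ := lp.single 2 0 (1 : ℝ)

lemma inner_e0 (h : H ℕ) : ⟪e0, h⟫ = h 0 := by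
  unfold e0
  rw [lp.inner_single_left]
  simp

lemma Q0 (x : H ℕ) : Q D0 x = ‖x‖ ^ 2 + term D0 x (0, 0) := by
  unfold Q
  rw [tsum_eq_single (0, 0)]
  intro p hp
  simp [term, g0, L, D0, hp]

lemma Q0' (x : H ℕ) : Q D0 x = ‖x‖ ^ 2 + eps 0 * (x 0 ^ 6 / (‖x‖ ^ 2) ^ 2) := by
  rw [Q0]
  simp only [term, g0, L, D0, if_true]
  ring

noncomputable def w (x : H ℕ) : H ℕ :=
  (2 - 4 * eps 0 * (x 0 ^ 6 / (‖x‖ ^ 2) ^ 3)) • x + (6 * eps 0 * (x 0 ^ 5 / (‖x‖ ^ 2) ^ 2)) • e0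

lemma w_inner (x h : H ℕ) : ⟪w x, h⟫ = (2 - 4 * eps 0 * (x 0 ^ 6 / (‖x‖ ^ 2) ^ 3)) * ⟪x, h⟫
    + (6 * eps 0 * (x 0 ^ 5 / (‖x‖ ^ 2) ^ 2)) * h 0 := by
  unfold w
  rw [inner_add_left, real_inner_smul_left, real_inner_smul_left, inner_e0]

lemma w_T1 (x h : H ℕ) (hx : x ≠ 0) : ⟪w x, h⟫ = 2 * ⟪x, h⟫ + T1 D0 x h 0 (0, 0) := by
  have hn : ‖x‖ ≠ 0 := norm_ne_zero_iff.mpr hx
  rw [w_inner]
  simp only [T1, g1, q1, L, D0, if_true, mul_zero, zero_mul, add_zero, one_mul, ne_eq,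
    OfNat.ofNat_ne_zero, not_false_eq_true, zero_pow, Nat.cast_zero, zero_add]
  field_simp
  ring

lemma euler (x : H ℕ) : ⟪w x, x⟫ = 2 * Q D0 x := by
  rcases eq_or_ne x 0 with rfl | hx
  · simp [Q0']
  have hn : ‖x‖ ≠ 0 := norm_ne_zero_iff.mpr hx
  rw [w_inner, Q0', real_inner_self_eq_norm_sq]
  field_simp
  ring

lemma two_sided (x h : H ℕ) : Q D0 x + ⟪w x, h⟫ + 1 / 2 * ‖h‖ ^ 2 ≤ Q D0 (x + h) ∧
    Q D0 (x + h) ≤ Q D0 x + ⟪w x, h⟫ + 2 * ‖h‖ ^ 2 := by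
  rcases eq_or_ne x 0 with rfl | hx
  · have := Q_ge D0 h
    have := Q_le D0 h
    have e : Q D0 0 = 0 := by simp [Q0']
    have e2 : w 0 = 0 := by simp [w]
    rw [e, e2, zero_add h]
    simp only [inner_zero_left]
    constructor <;> linarith
  by_cases hne : ∀ t : ℝ, x + t • h ≠ 0
  · have a1 := tangent
      (fun t => (‖x‖ ^ 2 + 2 * ⟪x, h⟫ * t + (‖h‖ ^ 2 / 2) * t ^ 2)
        + ∑ p ∈ {((0, 0) : ℕ × ℕ)}, term D0 (x + t • h) p)
      (fun t => (2 * ⟪x, h⟫ + 2 * (‖h‖ ^ 2 / 2) * t) + ∑ p ∈ {((0, 0) : ℕ × ℕ)}, T1 D0 x h t p)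
      (fun t => 2 * (‖h‖ ^ 2 / 2) + ∑ p ∈ {((0, 0) : ℕ × ℕ)}, T2 D0 x h t p)
      (fun t => (hr _ _ _ t).add (dS0 D0 x h hne _ t))
      (fun t => (hd _ _ t).add (dS1 D0 x h hne _ t))
      (fun t => by have := abs_le.mp (S2_bound D0 x h hne {((0, 0) : ℕ × ℕ)} t); linarith)
      0 1
    have a2 := tangent
      (fun t => (0 + 2 * 0 * t + ‖h‖ ^ 2 * t ^ 2) - ∑ p ∈ {((0, 0) : ℕ × ℕ)}, term D0 (x + t • h) p)
      (fun t => (2 * 0 + 2 * ‖h‖ ^ 2 * t) - ∑ p ∈ {((0, 0) : ℕ × ℕ)}, T1 D0 x h t p)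
      (fun t => 2 * ‖h‖ ^ 2 - ∑ p ∈ {((0, 0) : ℕ × ℕ)}, T2 D0 x h t p)
      (fun t => (hr _ _ _ t).sub (dS0 D0 x h hne _ t))
      (fun t => (hd _ _ t).sub (dS1 D0 x h hne _ t))
      (fun t => by
        have := abs_le.mp (S2_bound D0 x h hne {((0, 0) : ℕ × ℕ)} t); nlinarith [sq_nonneg ‖h‖])
      0 1
    simp only [Finset.sum_singleton, zero_smul, add_zero, one_smul] at a1 a2
    rw [w_T1 x h hx, Q0, Q0, norm_add_sq_real]
    constructor <;> linarith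
  · push Not at hne
    obtain ⟨t, ht⟩ := hne
    have ht0 : t ≠ 0 := by rintro rfl; simp [hx] at ht
    have e : h = (-t⁻¹) • x := by
      have : x = -(t • h) := eq_neg_of_add_eq_zero_left ht
      rw [this, smul_neg, smul_smul, neg_mul, inv_mul_cancel₀ ht0]; simp
    set c := -t⁻¹
    have b1 := Q_ge D0 h
    have b2 := Q_le D0 h
    have e1 : Q D0 (x + h) = (1 + c) ^ 2 * Q D0 x := by
      rw [← Q_smul, add_smul, one_smul, ← e]
    have e2 : ⟪w x, h⟫ = c * (2 * Q D0 x) := by rw [e, real_inner_smul_right, euler]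
    have e3 : Q D0 h = c ^ 2 * Q D0 x := by rw [← Q_smul, ← e]
    constructor <;> nlinarith

lemma w_lip (x y : H ℕ) : ‖w y - w x‖ ≤ 4 * ‖y - x‖ := by
  set g := w y - w x with hg
  have a1 := (two_sided x (y - x)).2
  have a2 := (two_sided y ((-(1 / 4) : ℝ) • g)).2
  have a3 := (two_sided x (y - x + (-(1 / 4) : ℝ) • g)).1
  rw [← add_assoc, add_sub_cancel] at a3
  rw [add_sub_cancel] at a1
  rw [inner_add_right, real_inner_smul_right] at a3
  rw [real_inner_smul_right, norm_smul, mul_pow, Real.norm_eq_abs, sq_abs] at a2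
  have e : ⟪w y, g⟫ - ⟪w x, g⟫ = ‖g‖ ^ 2 := by
    rw [← inner_sub_left, real_inner_self_eq_norm_sq]
  apply le_of_sq_le_sq _ (by positivity) |> fun h => h
  nlinarith [sq_nonneg ‖y - x + (-(1 / 4) : ℝ) • g‖]

lemma opt (y g : H ℕ) (h : ∀ t : ℝ, Q D0 y ≤ Q D0 (y + t • g)) : ⟪w y, g⟫ = 0 := by
  by_contra hs0
  set s := ⟪w y, g⟫ with hs
  have h1 := le_trans (h (-s / (2 * ‖g‖ ^ 2 + 1))) (two_sided y _).2
  rw [real_inner_smul_right, norm_smul, mul_pow, Real.norm_eq_abs, sq_abs, ← hs] at h1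
  have h2 : 0 < s ^ 2 := by positivity
  have h3 : -s / (2 * ‖g‖ ^ 2 + 1) * s + 2 * ((-s / (2 * ‖g‖ ^ 2 + 1)) ^ 2 * ‖g‖ ^ 2)
      = - (s ^ 2 / (2 * ‖g‖ ^ 2 + 1) ^ 2) := by field_simp; ring
  have : 0 < s ^ 2 / (2 * ‖g‖ ^ 2 + 1) ^ 2 := by positivity
  linarith

lemma mid (x y : H ℕ) : 2 * Q D0 ((1 / 2 : ℝ) • (x + y)) + 1 / 4 * ‖x - y‖ ^ 2 ≤ Q D0 x + Q D0 y := by
  have a1 := (two_sided ((1 / 2 : ℝ) • (x + y)) ((1 / 2 : ℝ) • (x - y))).1
  have a2 := (two_sided ((1 / 2 : ℝ) • (x + y)) ((-(1 / 2) : ℝ) • (x - y))).1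
  have e1 : (1 / 2 : ℝ) • (x + y) + (1 / 2 : ℝ) • (x - y) = x := by module
  have e2 : (1 / 2 : ℝ) • (x + y) + (-(1 / 2) : ℝ) • (x - y) = y := by module
  rw [e1] at a1
  rw [e2] at a2
  rw [real_inner_smul_right, norm_smul, mul_pow, Real.norm_eq_abs, sq_abs] at a1 a2
  linarith

lemma dykstra (a : ℕ → ℝ) (B : ℝ) (hB : ∀ n, ∑ k ∈ Finset.range n, a k ^ 2 ≤ B)
    (C ε : ℝ) (hε : 0 < ε) :
    ∃ k ≥ 1, a k * (C + ∑ j ∈ Finset.range (k + 1), a j) < ε := by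
  by_contra hcon
  push Not at hcon
  have hB0 : 0 ≤ B := by simpa using hB 0
  have hs : Summable fun k => a k ^ 2 := summable_of_sum_range_le (fun k => sq_nonneg _) hB
  have key : ∀ k ≥ 1, ε ^ 2 * (1 / ((k + 1 : ℕ) : ℝ)) ≤ (2 * C ^ 2 + 2 * B) * a k ^ 2 := by
    intro k hk
    have h1 := hcon k hk
    have h2 : (∑ j ∈ Finset.range (k + 1), a j) ^ 2 ≤ ((k + 1 : ℕ) : ℝ) * B := by
      have := sq_sum_le_card_mul_sum_sq (s := Finset.range (k + 1)) (f := a)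
      rw [Finset.card_range] at this
      exact le_trans this (mul_le_mul_of_nonneg_left (hB _) (by positivity))
    set S := ∑ j ∈ Finset.range (k + 1), a j
    have hk1 : (1 : ℝ) ≤ ((k + 1 : ℕ) : ℝ) := by exact_mod_cast Nat.le_add_left 1 k
    have h3 : (C + S) ^ 2 ≤ ((k + 1 : ℕ) : ℝ) * (2 * C ^ 2 + 2 * B) := by
      nlinarith [sq_nonneg (C - S), sq_nonneg C]
    have h4 : ε ^ 2 ≤ (a k * (C + S)) ^ 2 := by gcongr
    rw [mul_one_div, div_le_iff₀ (by positivity)]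
    rw [mul_pow] at h4
    nlinarith [sq_nonneg (a k)]
  have h1 : Summable fun k : ℕ => ε ^ 2 * (1 / ((k + 1 + 1 : ℕ) : ℝ)) :=
    Summable.of_nonneg_of_le (fun k => by positivity) (fun k => key (k + 1) (by omega))
      (((summable_nat_add_iff 1).mpr hs).mul_left _)
  have h2 : Summable fun k : ℕ => (1 / ((k + 2 : ℕ) : ℝ)) :=
    (summable_mul_left_iff (by positivity : ε ^ 2 ≠ 0)).mp h1
  exact Real.not_summable_one_div_natCast ((summable_nat_add_iff 2).mp h2)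

lemma alt (G : ℕ → Submodule ℝ (H ℕ)) (hG : ∀ k, G (k + 2) = G k) (r : ℕ → H ℕ)
    (h1 : ∀ k, r k - r (k + 1) ∈ G k)
    (h2 : ∀ k, ∀ g ∈ G k, Q D0 (r (k + 1)) ≤ Q D0 (r k - g)) :
    Antitone (fun k => Q D0 (r k)) ∧
    ∀ g ∈ G 0 ⊔ G 1, ∀ ε > 0, ∃ k, Q D0 (r k) < Q D0 (r 0 - g) + ε := by
  have orth : ∀ k, ∀ g ∈ G k, ⟪w (r (k + 1)), g⟫ = 0 := by
    intro k g hg
    apply opt
    intro t
    have := h2 k (r k - r (k + 1) - t • g) ((G k).sub_mem (h1 k) ((G k).smul_mem t hg))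
    convert this using 2
    abel
  have dec : ∀ k, Q D0 (r (k + 1)) + 1 / 2 * ‖r k - r (k + 1)‖ ^ 2 ≤ Q D0 (r k) := by
    intro k
    have := (two_sided (r (k + 1)) (r k - r (k + 1))).1
    rw [orth k _ (h1 k), add_sub_cancel] at this
    linarith
  refine ⟨antitone_nat_of_succ_le fun k => by
    have := dec k; nlinarith [sq_nonneg ‖r k - r (k + 1)‖], ?_⟩
  have sq : ∀ n, ∑ k ∈ Finset.range n, ‖r k - r (k + 1)‖ ^ 2 ≤ 2 * Q D0 (r 0) - 2 * Q D0 (r n) := by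
    intro n
    induction n with
    | zero => simp
    | succ n ih => rw [Finset.sum_range_succ]; have := dec n; linarith
  have par : ∀ k j, G j = G k ∨ G j = G (k + 1) := by
    have p0 : ∀ j, (G j = G 0 ∧ G (j + 1) = G 1) ∨ (G j = G 1 ∧ G (j + 1) = G 0) := by
      intro j
      induction j with
      | zero => left; simp
      | succ j ih =>
        rcases ih with h | h
        · right; exact ⟨h.2, by rw [hG, h.1]⟩
        · left; exact ⟨h.2, by rw [hG, h.1]⟩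
    intro k j
    rcases p0 k with h | h <;> rcases p0 j with h' | h' <;> simp [h.1, h.2, h'.1]
  have bd : ∀ k j, ∀ g ∈ G j, |⟪w (r (k + 2)), g⟫| ≤ 4 * ‖r (k + 1) - r (k + 2)‖ * ‖g‖ := by
    intro k j g hg
    rcases par k j with h | h
    · have e : ⟪w (r (k + 2)), g⟫ = ⟪w (r (k + 2)) - w (r (k + 1)), g⟫ := by
        rw [inner_sub_left, orth k g (h ▸ hg), sub_zero]
      rw [e]
      refine le_trans (abs_real_inner_le_norm _ _) (mul_le_mul_of_nonneg_right ?_ (norm_nonneg _))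
      rw [norm_sub_rev (r (k + 1))]
      exact w_lip _ _
    · rw [orth (k + 1) g (h ▸ hg), abs_zero]; positivity
  intro g hg ε hε
  obtain ⟨g0, hg0, g1, hg1, rfl⟩ := Submodule.mem_sup.mp hg
  obtain ⟨k, hk, hk2⟩ := dykstra (fun k => ‖r k - r (k + 1)‖) 
    (2 * Q D0 (r 0)) (fun n => by have := sq n; have := Q_nonneg D0 (r n); linarith)
    (‖g0‖ + ‖g1‖) (ε / 4) (by positivity)
  obtain ⟨k, rfl⟩ : ∃ m, k = m + 1 := ⟨k - 1, by omega⟩
  refine ⟨k + 2, ?_⟩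
  have a := (two_sided (r (k + 2)) (r 0 - (g0 + g1) - r (k + 2))).1
  rw [add_sub_cancel] at a
  have e : r 0 - (g0 + g1) - r (k + 2) = ∑ j ∈ Finset.range (k + 2), (r j - r (j + 1)) - g0 - g1 := by
    rw [Finset.sum_range_sub']; abel
  rw [e, inner_sub_right, inner_sub_right, inner_sum] at a
  have b0 := abs_le.mp (bd k 0 g0 hg0)
  have b1 := abs_le.mp (bd k 1 g1 hg1)
  have b2 : -(4 * ‖r (k + 1) - r (k + 2)‖ * ∑ j ∈ Finset.range (k + 2), ‖r j - r (j + 1)‖)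
      ≤ ∑ j ∈ Finset.range (k + 2), ⟪w (r (k + 2)), r j - r (j + 1)⟫ := by
    rw [Finset.mul_sum, ← Finset.sum_neg_distrib]
    exact Finset.sum_le_sum fun j _ => (abs_le.mp (bd k j _ (h1 j))).1
  nlinarith [sq_nonneg ‖∑ j ∈ Finset.range (k + 2), (r j - r (j + 1)) - g0 - g1‖]

lemma nsq (x : E D0) : ‖x‖ ^ 2 = Q D0 (eH D0 x) := by rw [norm_E', N_sq]

lemma altE (G : ℕ → Submodule ℝ (E D0)) (hG : ∀ k, G (k + 2) = G k) (r : ℕ → E D0)
    (h1 : ∀ k, r k - r (k + 1) ∈ G k)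
    (h2 : ∀ k, ‖r (k + 1)‖ = Metric.infDist (r k) (G k : Set (E D0))) :
    ∃ y : E D0, Tendsto r atTop (nhds y) ∧ r 0 - y ∈ (G 0 ⊔ G 1).topologicalClosure ∧
      ‖y‖ = Metric.infDist (r 0) ((G 0 ⊔ G 1).topologicalClosure : Set (E D0)) := by
  obtain ⟨anti, low⟩ := alt G hG r h1 (fun k g hg => by
    have := Metric.infDist_le_dist_of_mem (x := r k) (show g ∈ (G k : Set (E D0)) from hg)
    rw [← h2, dist_eq_norm] at this
    have h3 : ‖r (k + 1)‖ ^ 2 ≤ ‖r k - (show E D0 from g)‖ ^ 2 := by gcongr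
    rw [nsq, nsq] at h3
    exact h3)
  have anti' : Antitone fun k => ‖r k‖ ^ 2 := by simp only [nsq]; exact anti
  have low' : ∀ g ∈ G 0 ⊔ G 1, ∀ ε > 0, ∃ k, ‖r k‖ ^ 2 < ‖r 0 - g‖ ^ 2 + ε := by
    intro g hg ε hε
    simp only [nsq]; exact low g hg ε hε
  have bdd : BddBelow (Set.range fun k => ‖r k‖ ^ 2) := ⟨0, by rintro _ ⟨k, rfl⟩; positivity⟩
  have lim := tendsto_atTop_ciInf anti' bdd
  set m := ⨅ k, ‖r k‖ ^ 2
  have hm : ∀ g ∈ G 0 ⊔ G 1, m ≤ ‖r 0 - g‖ ^ 2 := by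
    intro g hg
    refine le_of_forall_pos_lt_add fun ε hε => ?_
    obtain ⟨k, hk⟩ := low' g hg ε hε
    exact lt_of_le_of_lt (ciInf_le bdd k) hk
  have mem : ∀ k, r 0 - r k ∈ G 0 ⊔ G 1 := by
    have p0 : ∀ j, G j ≤ G 0 ⊔ G 1 ∧ G (j + 1) ≤ G 0 ⊔ G 1 := by
      intro j
      induction j with
      | zero => exact ⟨le_sup_left, le_sup_right⟩
      | succ j ih => exact ⟨ih.2, by rw [hG]; exact ih.1⟩
    intro k
    rw [← Finset.sum_range_sub']
    exact Submodule.sum_mem _ fun j _ => (p0 j).1 (h1 j)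
  have cau : CauchySeq r := by
    have c2 : CauchySeq fun k => eH D0 (r k) := by
      rw [Metric.cauchySeq_iff']
      intro ε hε
      obtain ⟨n, hn⟩ := (lim.eventually (gt_mem_nhds (show m < m + ε ^ 2 / 8 by
        have : 0 < ε ^ 2 / 8 := by positivity
        linarith))).exists
      refine ⟨n, fun k hk => ?_⟩
      have a1 := mid (eH D0 (r k)) (eH D0 (r n))
      have a2 := hm ((1 / 2 : ℝ) • ((r 0 - r k) + (r 0 - r n)))
        (Submodule.smul_mem _ _ (Submodule.add_mem _ (mem k) (mem n)))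
      have e : r 0 - (1 / 2 : ℝ) • ((r 0 - r k) + (r 0 - r n)) = (1 / 2 : ℝ) • (r k + r n) := by module
      rw [e, nsq, map_smul, map_add] at a2
      rw [← nsq, ← nsq] at a1
      have a3 := anti' hk
      simp only at a3
      rw [dist_eq_norm]
      apply lt_of_pow_lt_pow_left₀ 2 hε.le
      linarith
    have := ((eH D0).symm : H ℕ →L[ℝ] E D0).uniformContinuous.comp_cauchySeq c2
    simpa [Function.comp_def] using this
  obtain ⟨y, hy⟩ := cauchySeq_tendsto_of_complete cau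
  have my : r 0 - y ∈ (G 0 ⊔ G 1).topologicalClosure :=
    mem_closure_of_tendsto (hy.const_sub (r 0)) (Eventually.of_forall mem)
  refine ⟨y, hy, my, le_antisymm ?_ ?_⟩
  · have e : ‖y‖ ^ 2 = m := tendsto_nhds_unique (hy.norm.pow 2) lim
    rw [Submodule.topologicalClosure_coe, Metric.infDist_closure,
      Metric.le_infDist ⟨0, Submodule.zero_mem _⟩]
    intro g hg
    rw [dist_eq_norm]
    apply le_of_sq_le_sq _ (norm_nonneg _) |> fun h => h
    rw [e]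
    exact hm g hg
  · have := Metric.infDist_le_dist_of_mem (x := r 0) (show r 0 - y ∈
      ((G 0 ⊔ G 1).topologicalClosure : Set (E D0)) from my)
    rwa [dist_eq_norm, sub_sub_cancel] at this

lemma refl : Function.Surjective (NormedSpace.inclusionInDoubleDual ℝ (E D0)) := by
  intro φ
  let T : H ℕ →L[ℝ] StrongDual ℝ (E D0) :=
    ((ContinuousLinearMap.compL ℝ (E D0) (H ℕ) ℝ).flip (eH D0 : E D0 →L[ℝ] H ℕ)).comp (innerSL ℝ)
  obtain ⟨u, hu⟩ := (InnerProductSpace.toDual ℝ (H ℕ)).surjective (φ.comp T)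
  refine ⟨(eH D0).symm u, ?_⟩
  ext f
  obtain ⟨v, hv⟩ := (InnerProductSpace.toDual ℝ (H ℕ)).surjective
    (f.comp ((eH D0).symm : H ℕ →L[ℝ] E D0))
  have e1 : T v = f := by
    ext x
    have := congrArg (fun g : StrongDual ℝ (H ℕ) => g (eH D0 x)) hv
    simpa [T] using this
  have e2 := congrArg (fun g : StrongDual ℝ (H ℕ) => g v) hu
  have e3 := congrArg (fun g : StrongDual ℝ (H ℕ) => g u) hv
  simp only [InnerProductSpace.toDual_apply_apply, ContinuousLinearMap.comp_apply, e1] at e2 e3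
  rw [NormedSpace.dual_def, ← e2, real_inner_comm]
  exact e3.symm

lemma infd : ¬ FiniteDimensional ℝ (E D0) := by
  intro h
  have h2 : FiniteDimensional ℝ (H ℕ) := (toH D0).finiteDimensional
  have ho : Orthonormal ℝ (fun n : ℕ => (lp.single 2 n (1 : ℝ) : H ℕ)) := by
    rw [orthonormal_iff_ite]
    intro i j
    rw [lp.inner_single_left]
    by_cases hij : i = j
    · subst hij; simp
    · simp [hij, Pi.single_apply]
  exact Module.Finite.not_linearIndependent_of_infinite _ ho.linearIndependent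


/-- The negation of the preceding statement: Every infinite-dimensional real or complex Banach space that is reflexive, strictly convex and admits the alternating method for metric projections satisfies the parallelogram law, i.e. its norm comes from an inner product. -/
theorem result :
    ¬ (∀ (𝕜 : Type) [RCLike 𝕜] (E : Type) [NormedAddCommGroup E] [NormedSpace 𝕜 E] [CompleteSpace E],
    ¬ FiniteDimensional 𝕜 E →
    Function.Surjective (NormedSpace.inclusionInDoubleDual 𝕜 E) →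
    (∀ x y : E, ‖x‖ = 1 → ‖y‖ = 1 → x ≠ y → ‖x + y‖ < 2) →
    (∀ (G₁ G₂ : Submodule 𝕜 E), IsClosed (G₁ : Set E) → IsClosed (G₂ : Set E) →
      ∀ r : ℕ → E,
        (∀ k : ℕ, r (2 * k) - r (2 * k + 1) ∈ G₁ ∧
            ‖r (2 * k + 1)‖ = Metric.infDist (r (2 * k)) (G₁ : Set E)) →
        (∀ k : ℕ, r (2 * k + 1) - r (2 * k + 2) ∈ G₂ ∧
            ‖r (2 * k + 2)‖ = Metric.infDist (r (2 * k + 1)) (G₂ : Set E)) →
        ∃ y : E, Filter.Tendsto r Filter.atTop (nhds y) ∧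
          r 0 - y ∈ (G₁ ⊔ G₂).topologicalClosure ∧
          ‖y‖ = Metric.infDist (r 0) ((G₁ ⊔ G₂).topologicalClosure : Set E)) →
    ∀ x y : E, ‖x + y‖ ^ 2 + ‖x - y‖ ^ 2 = 2 * (‖x‖ ^ 2 + ‖y‖ ^ 2)) := by
  intro hall
  have key := hall ℝ (E D0) infd refl ?_ ?_ ((eH D0).symm e0) ((eH D0).symm (lp.single 2 1 (1 : ℝ)))
  · simp only [nsq, map_add, map_sub, ContinuousLinearEquiv.apply_symm_apply, Q0'] at key
    set e1 : H ℕ := lp.single 2 1 (1 : ℝ) with he1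
    have n0 : ‖e0‖ = 1 := by unfold e0; rw [lp.norm_single (by norm_num)]; simp
    have n1 : ‖e1‖ = 1 := by rw [he1, lp.norm_single (by norm_num)]; simp
    have c1 : e1 0 = 0 := by simp [he1]
    have c0 : e0 0 = 1 := by simp [e0]
    have i01 : ⟪e0, e1⟫ = 0 := by rw [inner_e0, c1]
    rw [norm_add_sq_real, norm_sub_sq_real, i01, n0, n1] at key
    simp only [lp.coeFn_add, lp.coeFn_sub, Pi.add_apply, Pi.sub_apply, c0, c1] at key
    have := eps_pos 0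
    linarith
  · intro x y hx hy hxy
    have a := mid (eH D0 x) (eH D0 y)
    rw [← map_add, ← map_smul, ← nsq, ← nsq, ← nsq, hx, hy, norm_smul] at a
    have : 0 < ‖eH D0 x - eH D0 y‖ := norm_pos_iff.mpr (sub_ne_zero.mpr fun h => hxy ((eH D0).injective h))
    have h2 : 0 < ‖eH D0 x - eH D0 y‖ ^ 2 := by positivity
    apply lt_of_pow_lt_pow_left₀ 2 (by norm_num)
    norm_num at a ⊢
    nlinarith
  · intro G₁ G₂ _ _ r h1 h2
    have := altE (fun k => if k % 2 = 0 then G₁ else G₂) (fun k => by simp) r ?_ ?_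
    · simpa using this
    · intro k
      rcases Nat.even_or_odd' k with ⟨j, rfl | rfl⟩
      · simpa using (h1 j).1
      · simpa [Nat.add_mod] using (h2 j).1
    · intro k
      rcases Nat.even_or_odd' k with ⟨j, rfl | rfl⟩
      · simpa using (h1 j).2
      · simpa [Nat.add_mod] using (h2 j).2

end Pool.Agent.S05866
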