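import Pool.Statements.S05912
-- import your own Pool.Agent.* helpers here

set_option autoImplicit false
open Filter Topology
open Pool Pool.MP_b82e9e_an

namespace Pool.Agent.S05912

noncomputable def d (a : ℕ) : ℝ := 1 / (((a : ℝ) + 1) * ((Nat.log 2 (a + 1) : ℝ) + 1))

lemma d_pos (a : ℕ) : 0 < d a := by unfold d; positivity

lemma d_anti : Antitone d := by
  intro a b hab
  have h1 : (a : ℝ) ≤ b := by exact_mod_cast hab
  have h2 : (Nat.log 2 (a + 1) : ℝ) ≤ Nat.log 2 (b + 1) := by
    exact_mod_cast Nat.log_mono_right (by omega)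
  unfold d
  gcongr

lemma d_le_one (a : ℕ) : d a ≤ 1 := le_trans (d_anti (Nat.zero_le a)) (by simp [d])

lemma d_not_summable : ¬ Summable d := by
  intro h
  have h1 : Summable (fun n : ℕ => d (n - 1)) := by
    rw [← summable_nat_add_iff 1]; simpa using h
  rw [← summable_condensed_iff_of_nonneg (fun n => (d_pos _).le)
    (fun m n _ hmn => d_anti (Nat.sub_le_sub_right hmn 1))] at h1
  have h2 : (fun k : ℕ => (2 : ℝ) ^ k * d (2 ^ k - 1)) = fun k : ℕ => 1 / ((k + 1 : ℕ) : ℝ) := by
    funext k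
    have h3 : 2 ^ k - 1 + 1 = 2 ^ k := Nat.sub_add_cancel Nat.one_le_two_pow
    have h4 : ((2 ^ k - 1 : ℕ) : ℝ) + 1 = 2 ^ k := by exact_mod_cast h3
    rw [d, h3, h4, Nat.log_pow (by norm_num)]
    push_cast
    field_simp
  rw [h2] at h1
  exact Real.not_summable_one_div_natCast ((summable_nat_add_iff 1).mp h1)

noncomputable def S (N : ℕ) : ℝ := ∑ t ∈ Finset.range N, d t

lemma S_tendsto : Tendsto S atTop atTop :=
  (not_summable_iff_tendsto_nat_atTop_of_nonneg (fun n => (d_pos n).le)).mp d_not_summable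

lemma S_pos (N : ℕ) : 0 < S (N + 1) :=
  Finset.sum_pos (fun t _ => d_pos t) ⟨0, by simp⟩

noncomputable def cl (x : ℝ) : ℝ := max 0 (min 1 x)

lemma cl_nonneg (x : ℝ) : 0 ≤ cl x := le_max_left _ _
lemma cl_le_one (x : ℝ) : cl x ≤ 1 := max_le zero_le_one (min_le_left _ _)
lemma cl_mono {x y : ℝ} (h : x ≤ y) : cl x ≤ cl y := by unfold cl; gcongr
lemma cl_sub (x e : ℝ) (he : 0 ≤ e) : cl x - e ≤ cl (x - e) := by
  unfold cl
  simp only [max_def, min_def]
  split_ifs <;> linarith

def F (z : ℝ × ℕ × Bool) : Set (ℝ × ℕ × Bool) :=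
  {y | y = (z.1 - d z.2.1, z.2.1, true) ∨ y = (z.1, z.2.1 + 1, false)}

noncomputable def r (z : ℝ × ℕ × Bool) : ℝ := if z.2.2 = true then cl z.1 else 0

lemma r_nonneg (z : ℝ × ℕ × Bool) : 0 ≤ r z := by
  unfold r; split_ifs; exacts [cl_nonneg _, le_rfl]

lemma r_le (z : ℝ × ℕ × Bool) : r z ≤ cl z.1 := by
  unfold r; split_ifs; exacts [le_rfl, cl_nonneg _]

lemma tsum_cut (w u : ℕ → ℝ) (N : ℕ) :
    ∑' t, (if t < N then w t else 0) * u t = ∑ t ∈ Finset.range N, w t * u t := by
  rw [tsum_eq_sum (s := Finset.range N) (fun t ht => by simp at ht; simp [not_lt.mpr ht])]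
  exact Finset.sum_congr rfl fun t ht => by simp [Finset.mem_range.mp ht]

def ces (n : ℕ) (z : ℝ × ℕ × Bool) : Set ℝ :=
  {x : ℝ | ∃ s : ℕ → ℝ × ℕ × Bool, s 0 = z ∧ (∀ t, s (t + 1) ∈ F (s t)) ∧
    x = ∑' t, (if t < n + 1 then 1 / ((n : ℝ) + 1) else 0) * r (s (t + 1))}

lemma ces_le (n : ℕ) (z : ℝ × ℕ × Bool) (x : ℝ) (hx : x ∈ ces n z) : x ≤ cl z.1 := by
  obtain ⟨s, h0, hs, rfl⟩ := hx
  have mono : ∀ t, (s t).1 ≤ z.1 := by
    intro t
    induction t with
    | zero => rw [h0]
    | succ t ih =>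
      rcases hs t with h | h <;> rw [h]
      · exact le_trans (sub_le_self _ (d_pos _).le) ih
      · exact ih
  rw [tsum_cut (fun _ => 1 / ((n : ℝ) + 1))]
  calc _ ≤ ∑ _t ∈ Finset.range (n + 1), 1 / ((n : ℝ) + 1) * cl z.1 :=
        Finset.sum_le_sum fun t _ => mul_le_mul_of_nonneg_left
          (le_trans (r_le _) (cl_mono (mono _))) (by positivity)
    _ = cl z.1 := by simp; field_simp

lemma ces_ge (n m : ℕ) (z : ℝ × ℕ × Bool) :
    ∃ x ∈ ces n z, cl z.1 - ((n : ℝ) + 1) * d m - m / ((n : ℝ) + 1) ≤ x := by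
  let s : ℕ → ℝ × ℕ × Bool := fun t => if t = 0 then z else
    (z.1 - ((t - m : ℕ) : ℝ) * d (z.2.1 + m), z.2.1 + min t m, decide (m < t))
  have hs1 : ∀ t, (s t).1 = z.1 - ((t - m : ℕ) : ℝ) * d (z.2.1 + m) := by
    intro t; by_cases h : t = 0 <;> simp [s, h]
  have hs2 : ∀ t, (s t).2.1 = z.2.1 + min t m := by
    intro t; by_cases h : t = 0 <;> simp [s, h]
  refine ⟨_, ⟨s, by simp [s], fun t => ?_, rfl⟩, ?_⟩
  · unfold F
    rw [Set.mem_ofPred_eq, hs1, hs2]
    by_cases h : m ≤ t
    · left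
      have e1 : t + 1 - m = (t - m) + 1 := by omega
      simp only [s, Nat.succ_ne_zero, if_false, e1, min_eq_right h,
        min_eq_right (Nat.le_succ_of_le h), Nat.lt_succ_of_le h, decide_true]
      push_cast
      congr 1
      ring
    · right
      have e1 : t + 1 - m = 0 := by omega
      have e2 : t - m = 0 := by omega
      have e3 : min (t + 1) m = t + 1 := by omega
      have e4 : min t m = t := by omega
      have e5 : ¬ m < t + 1 := by omega
      simp only [s, Nat.succ_ne_zero, if_false, e1, e2, e3, e4, e5, decide_false, add_assoc]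
  · rw [tsum_cut (fun _ => 1 / ((n : ℝ) + 1)), ← Finset.mul_sum]
    have key : ∀ t ∈ Finset.range (n + 1), cl z.1 - ((n : ℝ) + 1) * d m -
        (if t < m then 1 else 0) ≤ r (s (t + 1)) := by
      intro t ht
      have hd := d_pos m
      split_ifs with h
      · have := r_nonneg (s (t + 1))
        have := cl_le_one z.1
        have : 0 ≤ ((n : ℝ) + 1) * d m := by positivity
        linarith
      · have e5 : m < t + 1 := by omega
        have : r (s (t + 1)) = cl (z.1 - ((t + 1 - m : ℕ) : ℝ) * d (z.2.1 + m)) := by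
          simp [r, s, e5]
        rw [this]
        have h1 : ((t + 1 - m : ℕ) : ℝ) ≤ (n : ℝ) + 1 := by
          have := Finset.mem_range.mp ht
          exact_mod_cast (by omega : t + 1 - m ≤ n + 1)
        have h2 : d (z.2.1 + m) ≤ d m := d_anti (by omega)
        have h3 := d_pos (z.2.1 + m)
        have h4 := cl_sub z.1 (((t + 1 - m : ℕ) : ℝ) * d (z.2.1 + m)) (by positivity)
        have h5 : ((t + 1 - m : ℕ) : ℝ) * d (z.2.1 + m) ≤ ((n : ℝ) + 1) * d m := by gcongr
        linarith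
    have h1 := Finset.sum_le_sum key
    have h2 : ∑ t ∈ Finset.range (n + 1), (if t < m then (1 : ℝ) else 0) ≤ m := by
      rw [Finset.sum_boole]
      have : ((Finset.range (n + 1)).filter (fun t => t < m)).card ≤ (Finset.range m).card :=
        Finset.card_le_card fun t ht => Finset.mem_range.mpr (Finset.mem_filter.mp ht).2
      exact_mod_cast (by simpa using this)
    rw [Finset.sum_sub_distrib, Finset.sum_const, Finset.card_range, nsmul_eq_mul] at h1
    push_cast at h1
    rw [one_div, ← div_eq_inv_mul, le_div_iff₀ (by positivity)]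
    have : (m : ℝ) / ((n : ℝ) + 1) * ((n : ℝ) + 1) = m := by field_simp
    nlinarith

lemma ces_unif : TendstoUniformly (fun (n : ℕ) (z : ℝ × ℕ × Bool) => sSup (ces n z))
    (fun z => cl z.1) atTop := by
  rw [Metric.tendstoUniformly_iff]
  intro ε hε
  obtain ⟨K, hK⟩ := exists_nat_gt (2 / ε)
  have hK0 : (0 : ℝ) < K := lt_trans (by positivity) hK
  have hKn : 0 < K := by exact_mod_cast hK0
  obtain ⟨J, hJ⟩ := exists_nat_gt (2 * K / ε)
  filter_upwards [eventually_ge_atTop (K * 2 ^ J)] with n hn z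
  set m := (n + 1) / K with hm
  obtain ⟨x, hx, hxl⟩ := ces_ge n m z
  have hb : BddAbove (ces n z) := ⟨_, ces_le n z⟩
  have h1 : sSup (ces n z) ≤ cl z.1 := csSup_le ⟨x, hx⟩ (ces_le n z)
  have h2 : x ≤ sSup (ces n z) := le_csSup hb hx
  have a1 : K * m ≤ n + 1 := Nat.mul_div_le _ _
  have a2 : n + 1 ≤ K * (m + 1) := (Nat.lt_mul_div_succ _ hKn).le
  have a3 : 2 ^ J ≤ m + 1 := by
    have : 2 ^ J ≤ m := (Nat.le_div_iff_mul_le hKn).mpr (by rw [mul_comm]; omega)
    omega
  have a4 : J ≤ Nat.log 2 (m + 1) := Nat.le_log_of_pow_le (by norm_num) a3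
  have b1 : (m : ℝ) / ((n : ℝ) + 1) < ε / 2 := by
    have : (K : ℝ) * m ≤ (n : ℝ) + 1 := by exact_mod_cast a1
    rw [div_lt_iff₀ hε] at hK
    rw [div_lt_iff₀ (by positivity)]
    have hn0 : (0 : ℝ) < (n : ℝ) + 1 := by positivity
    by_contra hc
    push Not at hc
    have := mul_le_mul_of_nonneg_left hc hK0.le
    nlinarith
  have b2 : ((n : ℝ) + 1) * d m < ε / 2 := by
    have c1 : (n : ℝ) + 1 ≤ K * ((m : ℝ) + 1) := by exact_mod_cast a2
    have c2 : (J : ℝ) ≤ Nat.log 2 (m + 1) := by exact_mod_cast a4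
    rw [div_lt_iff₀ hε] at hJ
    rw [d, mul_one_div, div_lt_iff₀ (by positivity)]
    have c3 : (K : ℝ) < ε / 2 * ((Nat.log 2 (m + 1) : ℝ) + 1) := by nlinarith
    have c4 : (0 : ℝ) < (m : ℝ) + 1 := by positivity
    nlinarith
  rw [Real.dist_eq, abs_lt]
  constructor <;> linarith

lemma bad_le (s : ℕ → ℝ × ℕ × Bool) (h0 : s 0 = (1, 0, false)) (hs : ∀ t, s (t + 1) ∈ F (s t))
    (T : ℕ) : (s T).2.1 ≤ T ∧
      ∑ t ∈ Finset.range T, d t * r (s (t + 1)) ≤ 1 - max (s T).1 0 := by
  induction T with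
  | zero => simp [h0]
  | succ T ih =>
    rw [Finset.sum_range_succ]
    rcases hs T with h | h <;> rw [h]
    · refine ⟨by simp only; omega, ?_⟩
      have h1 : d T ≤ d (s T).2.1 := d_anti ih.1
      have h2 := d_pos T
      have h3 := ih.2
      simp only [r, if_true] at h3 ⊢
      rcases le_or_gt ((s T).1 - d (s T).2.1) 0 with h4 | h4
      · have : cl ((s T).1 - d (s T).2.1) = 0 :=
          max_eq_left (le_trans (min_le_right _ _) h4)
        rw [this, max_eq_right h4]
        have := le_max_right (s T).1 0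
        linarith
      · have h5 := cl_le_one ((s T).1 - d (s T).2.1)
        have h6 := le_max_left (s T).1 0
        rw [max_eq_left h4.le]
        nlinarith
    · refine ⟨by simp only; omega, ?_⟩
      simpa [r] using ih.2

lemma tv_eq (w : ℕ → ℝ) (hw : Antitone w) (h0 : ∀ t, 0 ≤ w t) (N : ℕ) :
    ∑' t, |(if t + 1 < N + 1 then w (t + 1) else 0) - (if t < N + 1 then w t else 0)| = w 0 := by
  set u : ℕ → ℝ := fun t => if t < N + 1 then w t else 0 with hu
  have hanti : ∀ t, u (t + 1) ≤ u t := by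
    intro t
    simp only [hu]
    split_ifs with h1 h2 h3
    · exact hw (Nat.le_succ t)
    · omega
    · exact h0 t
    · exact le_rfl
  have e : ∀ t, |u (t + 1) - u t| = u t - u (t + 1) := fun t => by
    rw [abs_sub_comm, abs_of_nonneg (sub_nonneg.mpr (hanti t))]
  change ∑' t, |u (t + 1) - u t| = w 0
  simp only [e]
  rw [tsum_eq_sum (s := Finset.range (N + 1)) (fun t ht => by
    have h1 : ¬ t < N + 1 := by simpa using ht
    have h2 : ¬ t + 1 < N + 1 := by omega
    simp only [hu, h1, h2, if_false, sub_zero]), Finset.sum_range_sub']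
  simp [hu]

noncomputable def wt (k t : ℕ) : ℝ := if k % 2 = 0 then 1 / ((k : ℝ) + 1) else d t / S (k + 1)

lemma wt_nonneg (k t : ℕ) : 0 ≤ wt k t := by
  have := d_pos t
  have := S_pos k
  unfold wt; split_ifs <;> positivity


/-- The negation of the preceding statement: For any type Z, nonempty-valued F, r∈[0,1]: if the Cesàro values v_{n+1}(z)=sup over plays of (1/(n+1))Σ_{t≤n} r(s(t+1)) converge uniformly, then for any probability weights θ^k with Σ∣θ^k_{t+1}-θ^k_t∣→0, the values sup over plays of Σ θ^k_t r(s(t+1)) converge uniformly to some w. -/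
theorem result :
    ¬ (∀ (Z : Type) (F : Z → Set Z) (r : Z → ℝ),
      (∀ z, (F z).Nonempty) →
      (∀ z, 0 ≤ r z ∧ r z ≤ 1) →
      (∃ w : Z → ℝ, TendstoUniformly
          (fun (n : ℕ) (z : Z) =>
            sSup {x : ℝ | ∃ s : ℕ → Z, s 0 = z ∧ (∀ t, s (t + 1) ∈ F (s t)) ∧
              x = ∑' t, (if t < n + 1 then 1 / ((n : ℝ) + 1) else 0) * r (s (t + 1))})
          w atTop) →
      ∀ θ : ℕ → ℕ → ℝ,
        (∀ k t, 0 ≤ θ k t) →
        (∀ k, HasSum (θ k) 1) →
        Tendsto (fun k => ∑' t, |θ k (t + 1) - θ k t|) atTop (𝓝 0) →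
        ∃ w : Z → ℝ, TendstoUniformly
          (fun (k : ℕ) (z : Z) =>
            sSup {x : ℝ | ∃ s : ℕ → Z, s 0 = z ∧ (∀ t, s (t + 1) ∈ F (s t)) ∧
              x = ∑' t, θ k t * r (s (t + 1))})
          w atTop) := by
  intro H
  have hS1 : Tendsto (fun k : ℕ => 1 / S (k + 1)) atTop (𝓝 0) := by
    simp only [one_div]
    exact (S_tendsto.comp (tendsto_add_atTop_nat 1)).inv_tendsto_atTop
  obtain ⟨w, hw⟩ := H (ℝ × ℕ × Bool) F r (fun z => ⟨_, Or.inl rfl⟩)
    (fun z => ⟨r_nonneg z, le_trans (r_le z) (cl_le_one _)⟩) ⟨_, ces_unif⟩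
    (fun k t => if t < k + 1 then wt k t else 0)
    (fun k t => by split_ifs; exacts [wt_nonneg k t, le_rfl]) (fun k => by
      have h := hasSum_sum_of_ne_finset_zero (f := fun t => if t < k + 1 then wt k t else 0)
        (s := Finset.range (k + 1)) (L := SummationFilter.unconditional ℕ)
        (fun t ht => if_neg (fun h => ht (Finset.mem_range.mpr h)))
      have e : ∑ t ∈ Finset.range (k + 1), (if t < k + 1 then wt k t else 0) = 1 := by
        rw [Finset.sum_congr rfl (g := fun t => wt k t)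
          (fun t ht => by simp only [Finset.mem_range.mp ht, if_true])]
        unfold wt
        split_ifs
        · simp; field_simp
        · rw [← Finset.sum_div]; exact div_self (S_pos k).ne'
      rwa [e] at h) (by
      have e : ∀ k, ∑' t, |(if t + 1 < k + 1 then wt k (t + 1) else 0) -
          (if t < k + 1 then wt k t else 0)| = wt k 0 := fun k =>
        tv_eq (wt k) (fun a b hab => by
          unfold wt
          split_ifs
          · exact le_rfl
          · exact div_le_div_of_nonneg_right (d_anti hab) (S_pos k).le) (wt_nonneg k) k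
      simp only [e]
      refine squeeze_zero (fun k => wt_nonneg k 0) (g := fun k : ℕ => 1 / ((k : ℝ) + 1) + 1 / S (k + 1))
        (fun k => ?_) (by simpa using tendsto_one_div_add_atTop_nhds_zero_nat.add hS1)
      have h1 := S_pos k
      have h2 : 0 ≤ 1 / ((k : ℝ) + 1) := by positivity
      have h3 : 0 ≤ 1 / S (k + 1) := by positivity
      unfold wt
      split_ifs
      · linarith
      · have : d 0 / S (k + 1) ≤ 1 / S (k + 1) := div_le_div_of_nonneg_right (d_le_one 0) h1.le
        linarith)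
  have h1 := (Metric.tendstoUniformly_iff.mp hw) (1 / 4) (by norm_num)
  have h2 := (Metric.tendstoUniformly_iff.mp ces_unif) (1 / 4) (by norm_num)
  have h3 := hS1.eventually (gt_mem_nhds (show (0 : ℝ) < 1 / 4 by norm_num))
  obtain ⟨N, hN⟩ := eventually_atTop.mp (h1.and (h2.and h3))
  have a1 := (hN (2 * N) (by omega)).1 (1, 0, false)
  have a2 := (hN (2 * N) (by omega)).2.1 (1, 0, false)
  have a3 := (hN (2 * N + 1) (by omega)).1 (1, 0, false)
  have a4 := (hN (2 * N + 1) (by omega)).2.2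
  have e1 : (2 * N) % 2 = 0 := by omega
  have e2 : ¬ (2 * N + 1) % 2 = 0 := by omega
  simp only [wt, e1, if_true] at a1
  simp only [wt, e2, if_false] at a3
  have c1 : cl (1 : ℝ) = 1 := by simp [cl]
  simp only [c1] at a2
  change dist _ (sSup (ces (2 * N) (1, 0, false))) < _ at a1
  have hS := S_pos (2 * N + 1)
  have a5 : sSup {x : ℝ | ∃ s : ℕ → ℝ × ℕ × Bool, s 0 = (1, 0, false) ∧
      (∀ t, s (t + 1) ∈ F (s t)) ∧
      x = ∑' t, (if t < 2 * N + 1 + 1 then d t / S (2 * N + 1 + 1) else 0) * r (s (t + 1))}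
      ≤ 1 / S (2 * N + 1 + 1) := by
    refine Real.sSup_le ?_ (by positivity)
    rintro x ⟨s, h0, hs, rfl⟩
    rw [tsum_cut (fun t => d t / S (2 * N + 1 + 1))]
    have := (bad_le s h0 hs (2 * N + 1 + 1)).2
    have h4 := le_max_right (s (2 * N + 1 + 1)).1 0
    simp only [div_mul_eq_mul_div]
    rw [← Finset.sum_div]
    exact div_le_div_of_nonneg_right (by linarith) hS.le
  rw [Real.dist_eq, abs_lt] at a1 a2 a3
  linarith [a1.1, a1.2, a2.1, a2.2, a3.1, a3.2]

end Pool.Agent.S05912
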