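import Pool.Statements.S05958
import Pool.Agent.Lib.helper3.CDD

set_option autoImplicit false
open Polynomial Filter
open Pool Pool.MP_bcdbe1_an

namespace Pool.Agent.S05958

/-- The negation of the preceding statement: For every complex polynomial p, the width of the strip of real parts of zeros of (p(z+l)-p(z-l))/(2l) is non-increasing in l for l greater than the zero-strip width of p', and tends to 0 as l goes to infinity. -/
theorem result :
    ¬ (∀ W : Polynomial ℂ → ℝ,
      (∀ q : Polynomial ℂ,
        W q = sSup {x : ℝ | ∃ z ∈ q.roots, ∃ w ∈ q.roots, x = z.re - w.re}) →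
      ∀ p : Polynomial ℂ,
        AntitoneOn
          (fun l : ℝ =>
            W ((p.comp (X + C (l : ℂ)) - p.comp (X - C (l : ℂ))) * C (1 / (2 * (l : ℂ)))))
          (Set.Ioi (W (derivative p))) ∧
        Tendsto
          (fun l : ℝ =>
            W ((p.comp (X + C (l : ℂ)) - p.comp (X - C (l : ℂ))) * C (1 / (2 * (l : ℂ)))))
          atTop (nhds 0)) := by
  intro h
  have h1 := (h _ (fun _ => rfl) Pool.Agent.Lib.H3CDD.pp).1
  have hw := Pool.Agent.Lib.H3CDD.width_le _ 0 12 (by norm_num) Pool.Agent.Lib.H3CDD.deriv_root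
  have h2 := h1 (a := 13) (b := 14) (by simp only [Set.mem_Ioi]; linarith)
    (by simp only [Set.mem_Ioi]; linarith) (by norm_num)
  simp only [Pool.Agent.Lib.H3CDD.delta13, Pool.Agent.Lib.H3CDD.delta14] at h2
  have h3 := Pool.Agent.Lib.H3CDD.width_le _ 4.0007 5.2433 (by norm_num)
    Pool.Agent.Lib.H3CDD.root13
  obtain ⟨z, hz, w, hw', h4⟩ := Pool.Agent.Lib.H3CDD.root14
  have h5 := Pool.Agent.Lib.H3CDD.le_width _ z w hz hw'
  norm_num at h3 h4
  norm_num at h2 h5
  linarith

end Pool.Agent.S05958
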