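import Pool.Statements.S05971
import Pool.Agent.Lib.helper31.FreeMap

set_option autoImplicit false
open Pool Pool.MP_bdf9ed_an

namespace Pool.Agent.S05971

open Pool.Agent.Lib.helper31.FreeMap

noncomputable def fs {k : ℕ} (b : Fin k → ℝ) (μ : Fin k → ℚ) : ℝ →₀ ℚ :=
  ∑ i, Finsupp.single (b i) (μ i)

lemma fs_apply_self {k : ℕ} {b : Fin k → ℝ} (hb : Function.Injective b) (μ : Fin k → ℚ) (i : Fin k) :
    fs b μ (b i) = μ i := by
  classical
  simp only [fs, Finsupp.finsetSum_apply]
  rw [Finset.sum_eq_single i]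
  · simp
  · intro j _ hj
    exact Finsupp.single_eq_of_ne (fun h => hj (hb h).symm)
  · simp

lemma fs_apply_not {k : ℕ} {b : Fin k → ℝ} (μ : Fin k → ℚ) {β : ℝ} (h : ∀ i, b i ≠ β) :
    fs b μ β = 0 := by
  classical
  simp only [fs, Finsupp.finsetSum_apply]
  exact Finset.sum_eq_zero fun i _ => Finsupp.single_eq_of_ne (h i).symm

lemma comb_fs (p : ℝ → ℝ) {k : ℕ} (b : Fin k → ℝ) (μ ν : Fin k → ℚ) :
    comb p (fs b μ) (fs b ν) = ∑ i, ((μ i : ℝ) * p (b i) + (ν i : ℝ) * b i) := by
  simp only [comb, fs, map_sum, Finsupp.linearCombination_single, Rat.smul_def,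
    Finset.sum_add_distrib]

lemma comb_sub (p : ℝ → ℝ) (m n m' n' : ℝ →₀ ℚ) :
    comb p (m - m') (n - n') = comb p m n - comb p m' n' := by
  simp only [comb, map_sub]; ring

lemma comb_mid (p : ℝ → ℝ) (m n m' n' : ℝ →₀ ℚ) :
    comb p ((1 / 2 : ℚ) • (m + m')) ((1 / 2 : ℚ) • (n + n')) = (comb p m n + comb p m' n') / 2 := by
  simp only [comb, map_smul, map_add, Rat.smul_def]
  push_cast
  ring

def W (p : ℝ → ℝ) : Set ℝ :=
  {x | ∃ m n : ℝ →₀ ℚ, n.support ⊆ m.support ∧ (∀ β, 0 ≤ m β ∧ m β < 1) ∧ x = comb p m n}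

def box {k : ℕ} (N : ℕ) (z : Fin k → ℤ) : Set (Fin k → ℝ) := {b | ∀ i, ⌊(N : ℝ) * b i⌋ = z i}

lemma box_inj {k N : ℕ} {z : Fin k → ℤ} (hz : Function.Injective z) {b : Fin k → ℝ}
    (hb : b ∈ box N z) : Function.Injective b := by
  intro i j hij
  apply hz
  rw [← hb i, ← hb j, hij]

lemma measurableSet_W (p : ℝ → ℝ) (hp : Measurable p)
    (hfree : ∀ m n : ℝ →₀ ℚ, n.support ⊆ m.support → comb p m n = 0 → m = 0) :
    MeasurableSet (W p) := by
  classical
  have hW : W p = ⋃ k : ℕ, ⋃ N : ℕ, ⋃ z : Fin k → ℤ, ⋃ μ : Fin k → ℚ, ⋃ ν : Fin k → ℚ,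
      ⋃ _ : Function.Injective z ∧ ∀ i, 0 < μ i ∧ μ i < 1,
        (fun b : Fin k → ℝ => ∑ i, ((μ i : ℝ) * p (b i) + (ν i : ℝ) * b i)) '' box N z := by
    ext x
    simp only [Set.mem_iUnion]
    constructor
    · rintro ⟨m, n, hs, hm, rfl⟩
      obtain ⟨N, hN⟩ := exists_grid m.support
      let e := m.support.equivFin.symm
      let b : Fin m.support.card → ℝ := fun i => (e i : ℝ)
      have hbi : Function.Injective b := fun i j h => e.injective (Subtype.ext h)
      have hrep : ∀ u : ℝ →₀ ℚ, u.support ⊆ m.support → fs b (fun i => u (b i)) = u := by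
        intro u hu
        ext β
        by_cases h : β ∈ m.support
        · obtain ⟨i, hi⟩ := e.surjective ⟨β, h⟩
          have : b i = β := by simp [b, hi]
          rw [← this, fs_apply_self hbi]
        · rw [fs_apply_not]
          · by_contra h'
            exact h (hu (Finsupp.mem_support_iff.2 (Ne.symm h')))
          · intro i hi
            exact h (hi ▸ (e i).2)
      refine ⟨m.support.card, N, fun i => ⌊(N : ℝ) * b i⌋, fun i => m (b i), fun i => n (b i),
        ⟨fun i j h => hbi (hN (e i).2 (e j).2 h), fun i => ⟨?_, (hm _).2⟩⟩, b, fun i => rfl, ?_⟩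
      · exact lt_of_le_of_ne (hm _).1 (Finsupp.mem_support_iff.1 (e i).2).symm
      · simp only
        rw [← comb_fs, hrep m subset_rfl, hrep n hs]
    · rintro ⟨k, N, z, μ, ν, ⟨hz, hμ⟩, b, hb, rfl⟩
      have hbi := box_inj hz hb
      refine ⟨fs b μ, fs b ν, fun β hβ => ?_, fun β => ?_, (comb_fs p b μ ν).symm⟩
      · rw [Finsupp.mem_support_iff] at hβ ⊢
        by_cases h : ∃ i, b i = β
        · obtain ⟨i, rfl⟩ := h
          rw [fs_apply_self hbi]
          exact (hμ i).1.ne'
        · push Not at h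
          exact absurd (fs_apply_not ν h) hβ
      · by_cases h : ∃ i, b i = β
        · obtain ⟨i, rfl⟩ := h
          rw [fs_apply_self hbi]
          exact ⟨(hμ i).1.le, (hμ i).2⟩
        · push Not at h
          rw [fs_apply_not μ h]
          norm_num
  rw [hW]
  refine MeasurableSet.iUnion fun k => MeasurableSet.iUnion fun N => MeasurableSet.iUnion fun z =>
    MeasurableSet.iUnion fun μ => MeasurableSet.iUnion fun ν => MeasurableSet.iUnion fun h => ?_
  obtain ⟨hz, hμ⟩ := h
  refine MeasurableSet.image_of_measurable_injOn ?_ ?_ ?_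
  · have : box N z = ⋂ i, (fun b : Fin k → ℝ => ⌊(N : ℝ) * b i⌋) ⁻¹' {z i} := by
      ext b; simp [box]
    rw [this]
    exact MeasurableSet.iInter fun i =>
      ((measurable_pi_apply i).const_mul _).floor (MeasurableSet.singleton _)
  · exact Finset.measurable_sum _ fun i _ =>
      ((hp.comp (measurable_pi_apply i)).const_mul _).add ((measurable_pi_apply i).const_mul _)
  · intro b hb b' hb' heq
    simp only at heq
    rw [← comb_fs, ← comb_fs] at heq
    have hbi := box_inj hz hb
    have hbi' := box_inj hz hb'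
    have key : ∀ i j, b i = b' j → i = j := by
      intro i j h
      apply hz
      rw [← hb i, ← hb' j, h]
    have h0 := hfree (fs b μ - fs b' μ) (fs b ν - fs b' ν) (by
      intro β hβ
      rw [Finsupp.mem_support_iff] at hβ ⊢
      simp only [Finsupp.coe_sub, Pi.sub_apply] at hβ ⊢
      by_cases h : ∃ i, b i = β
      · obtain ⟨i, rfl⟩ := h
        by_cases h' : ∃ j, b' j = b i
        · obtain ⟨j, hj⟩ := h'
          have := key i j hj.symm
          subst this
          rw [fs_apply_self hbi, ← hj, fs_apply_self hbi'] at hβ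
          simp at hβ
        · push Not at h'
          rw [fs_apply_self hbi, fs_apply_not μ h', sub_zero]
          exact (hμ i).1.ne'
      · push Not at h
        by_cases h' : ∃ j, b' j = β
        · obtain ⟨j, rfl⟩ := h'
          rw [fs_apply_self hbi', fs_apply_not μ h, zero_sub, neg_ne_zero]
          exact (hμ j).1.ne'
        · push Not at h'
          rw [fs_apply_not ν h, fs_apply_not ν h'] at hβ
          simp at hβ) (by rw [comb_sub, heq, sub_self])
    funext i
    by_contra hne
    have h1 := DFunLike.congr_fun h0 (b i)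
    simp only [Finsupp.coe_sub, Pi.sub_apply, Finsupp.coe_zero, Pi.zero_apply] at h1
    rw [fs_apply_self hbi, fs_apply_not μ] at h1
    · exact (hμ i).1.ne' (by simpa using h1)
    · intro j hj
      have := key i j hj.symm
      subst this
      exact hne hj.symm

lemma comb_single (p : ℝ → ℝ) (α : ℝ) (s : ℚ) :
    comb p (Finsupp.single α 1) (Finsupp.single α s) = p α + s * α := by
  simp [comb, Rat.smul_def]

lemma mid_mem (p : ℝ → ℝ) (m n m' n' : ℝ →₀ ℚ) (h : n.support ⊆ m.support)
    (h' : n'.support ⊆ m'.support) (hm : ∀ β, 0 ≤ m β ∧ m β ≤ 1) (hm' : ∀ β, 0 ≤ m' β ∧ m' β ≤ 1)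
    (hlt : ∀ β, m β < 1 ∨ m' β < 1) : (comb p m n + comb p m' n') / 2 ∈ W p := by
  refine ⟨(1 / 2 : ℚ) • (m + m'), (1 / 2 : ℚ) • (n + n'), fun β hβ => ?_, fun β => ?_,
    (comb_mid p m n m' n').symm⟩
  · rw [Finsupp.mem_support_iff] at hβ ⊢
    simp only [Finsupp.coe_smul, Finsupp.coe_add, Pi.smul_apply, Pi.add_apply, smul_eq_mul] at hβ ⊢
    have a1 := hm β
    have a2 := hm' β
    intro h0
    have e1 : m β = 0 := by linarith
    have e2 : m' β = 0 := by linarith
    have f1 : n β = 0 := by
      by_contra hh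
      exact Finsupp.mem_support_iff.1 (h (Finsupp.mem_support_iff.2 hh)) e1
    have f2 : n' β = 0 := by
      by_contra hh
      exact Finsupp.mem_support_iff.1 (h' (Finsupp.mem_support_iff.2 hh)) e2
    simp [f1, f2] at hβ
  · simp only [Finsupp.coe_smul, Finsupp.coe_add, Pi.smul_apply, Pi.add_apply, smul_eq_mul]
    have a1 := hm β
    have a2 := hm' β
    rcases hlt β with h1 | h1 <;> constructor <;> linarith

lemma single_inj (p : ℝ → ℝ)
    (hfree : ∀ m n : ℝ →₀ ℚ, n.support ⊆ m.support → comb p m n = 0 → m = 0)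
    {α β : ℝ} {s t : ℚ} (h : p α + s * α = p β + t * β) : α = β := by
  classical
  by_contra hne
  have h0 := hfree (Finsupp.single α 1 - Finsupp.single β 1)
    (Finsupp.single α s - Finsupp.single β t) (by
      intro γ hγ
      rw [Finsupp.mem_support_iff] at hγ ⊢
      simp only [Finsupp.coe_sub, Pi.sub_apply, Finsupp.single_apply] at hγ ⊢
      by_cases h1 : α = γ
      · have h2 : ¬ β = γ := fun h2 => hne (h1.trans h2.symm)
        simp [h1, h2]
      · by_cases h2 : β = γ
        · simp [h1, h2]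
        · simp [h1, h2] at hγ) (by rw [comb_sub, comb_single, comb_single, h, sub_self])
  have h1 := DFunLike.congr_fun h0 α
  simp [Finsupp.single_apply, Ne.symm hne] at h1

lemma not_mem_W (p : ℝ → ℝ)
    (hfree : ∀ m n : ℝ →₀ ℚ, n.support ⊆ m.support → comb p m n = 0 → m = 0) (α : ℝ) :
    p α ∉ W p := by
  classical
  rintro ⟨m, n, hs, hm, h⟩
  have h0 := hfree (m - Finsupp.single α 1) (n - Finsupp.single α 0) (by
      intro γ hγ
      rw [Finsupp.single_zero, sub_zero] at hγ
      have := Finsupp.mem_support_iff.1 (hs hγ)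
      rw [Finsupp.mem_support_iff]
      simp only [Finsupp.coe_sub, Pi.sub_apply, Finsupp.single_apply]
      split_ifs with h1
      · have := (hm γ).2
        intro h2
        linarith
      · simpa using this) (by rw [comb_sub, comb_single, ← h]; simp)
  have h1 := DFunLike.congr_fun h0 α
  simp only [Finsupp.coe_sub, Pi.sub_apply, Finsupp.single_eq_same, Finsupp.coe_zero,
    Pi.zero_apply] at h1
  have := (hm α).2
  linarith


/-- Every Borel set A of nonnegative reals containing 0 equals, for some Borel set B of reals, the set of all α ≥ 0 such that each point of B has a point of B at distance exactly α. -/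
theorem result :
    ∀ A : Set ℝ, MeasurableSet A → (0 : ℝ) ∈ A → A ⊆ Set.Ici (0 : ℝ) →
      ∃ B : Set ℝ, MeasurableSet B ∧
        {α : ℝ | 0 ≤ α ∧ ∀ x ∈ B, ∃ y ∈ B, |x - y| = α} = A := by
  classical
  intro A hA h0 hsub
  obtain ⟨p, hp, hfree⟩ := exists_free
  set D : Set ℝ := Set.Ioi 0 \ A with hD
  have hDm : MeasurableSet D := measurableSet_Ioi.diff hA
  have him : ∀ s : ℚ, MeasurableSet ((fun α => p α + s * α) '' D) := fun s =>
    MeasurableSet.image_of_measurable_injOn hDm (hp.add (measurable_id.const_mul _))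
      (fun a _ b _ h => single_inj p hfree h)
  set Z : Set ℝ := ((fun α => p α + (1 : ℚ) * α) '' D ∪ (fun α => p α + (-1 : ℚ) * α) '' D) ∪ W p
    with hZ
  have hZm : MeasurableSet Z := ((him 1).union (him (-1))).union (measurableSet_W p hp hfree)
  have hs1 : ∀ (α : ℝ) (s : ℚ), (Finsupp.single α s).support ⊆ (Finsupp.single α (1 : ℚ)).support := by
    intro α s
    rw [Finsupp.support_single _ one_ne_zero]
    exact Finsupp.support_single_subset
  have hs2 : ∀ α β : ℝ, 0 ≤ (Finsupp.single α (1 : ℚ)) β ∧ (Finsupp.single α (1 : ℚ)) β ≤ 1 := by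
    intro α β
    rw [Finsupp.single_apply]
    split_ifs <;> norm_num
  have hZ' : ∀ x ∈ Z, (∃ α ∈ D, ∃ s : ℚ, (s = 1 ∨ s = -1) ∧ x = p α + s * α) ∨ x ∈ W p := by
    rintro x ((⟨α, hα, rfl⟩ | ⟨α, hα, rfl⟩) | h)
    · exact Or.inl ⟨α, hα, 1, Or.inl rfl, rfl⟩
    · exact Or.inl ⟨α, hα, -1, Or.inr rfl, rfl⟩
    · exact Or.inr h
  have hmid : ∀ x ∈ Z, ∀ y ∈ Z, y ≤ x → (x + y) / 2 ∈ Z ∨ (x - y) / 2 ∈ D := by
    intro x hx y hy hyx
    rcases hZ' x hx with ⟨α, hα, s, hs, rfl⟩ | ⟨m, n, hmn, hm, rfl⟩
    · rcases hZ' y hy with ⟨β, hβ, t, ht, rfl⟩ | ⟨m', n', hmn', hm', rfl⟩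
      · by_cases hab : α = β
        · subst hab
          have hpos : 0 < α := hα.1
          rcases hs with rfl | rfl <;> rcases ht with rfl | rfl
          · left; convert hx using 1; ring
          · right; convert hα using 1; push_cast; ring
          · exfalso; push_cast at hyx; linarith
          · left; convert hx using 1; ring
        · left; right
          rw [← comb_single, ← comb_single]
          refine mid_mem p _ _ _ _ (hs1 _ _) (hs1 _ _) (hs2 _) (hs2 _) fun γ => ?_
          by_cases h1 : α = γ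
          · right
            rw [Finsupp.single_eq_of_ne (fun h => hab (h1.trans h))]
            norm_num
          · left
            rw [Finsupp.single_eq_of_ne (Ne.symm h1)]
            norm_num
      · left; right
        rw [← comb_single]
        exact mid_mem p _ _ _ _ (hs1 _ _) hmn' (hs2 _) (fun γ => ⟨(hm' γ).1, (hm' γ).2.le⟩)
          fun γ => Or.inr (hm' γ).2
    · rcases hZ' y hy with ⟨β, hβ, t, ht, rfl⟩ | ⟨m', n', hmn', hm', rfl⟩
      · left; right
        rw [← comb_single]
        exact mid_mem p _ _ _ _ hmn (hs1 _ _) (fun γ => ⟨(hm γ).1, (hm γ).2.le⟩) (hs2 _)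
          fun γ => Or.inl (hm γ).2
      · left; right
        exact mid_mem p _ _ _ _ hmn hmn' (fun γ => ⟨(hm γ).1, (hm γ).2.le⟩)
          (fun γ => ⟨(hm' γ).1, (hm' γ).2.le⟩) fun γ => Or.inl (hm γ).2
  refine ⟨Zᶜ, hZm.compl, ?_⟩
  ext α
  simp only [Set.mem_ofPred_eq]
  constructor
  · rintro ⟨hα, h⟩
    by_contra hαA
    have hpos : 0 < α := lt_of_le_of_ne hα (fun h => hαA (h ▸ h0))
    have hαD : α ∈ D := ⟨hpos, hαA⟩
    have hpZ : p α ∉ Z := by
      intro hz
      rcases hZ' _ hz with ⟨β, hβ, t, ht, he⟩ | hw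
      · have e : p α + (0 : ℚ) * α = p β + t * β := by simpa using he
        have := single_inj p hfree e
        subst this
        rcases ht with rfl | rfl <;> push_cast at he <;> linarith
      · exact not_mem_W p hfree α hw
    obtain ⟨y, hy, hyα⟩ := h (p α) hpZ
    apply hy
    rcases (abs_eq hα).1 hyα with h1 | h1
    · exact Or.inl (Or.inr ⟨α, hαD, by push_cast; linarith⟩)
    · exact Or.inl (Or.inl ⟨α, hαD, by push_cast; linarith⟩)
  · intro hαA
    have hα : 0 ≤ α := hsub hαA
    refine ⟨hα, fun x hx => ?_⟩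
    by_contra hcon
    push Not at hcon
    have h1 : x + α ∈ Z := by
      by_contra h
      exact hcon (x + α) h (by simp [abs_of_nonneg hα])
    have h2 : x - α ∈ Z := by
      by_contra h
      exact hcon (x - α) h (by simp [abs_of_nonneg hα])
    rcases hmid _ h1 _ h2 (by linarith) with h | h
    · apply hx
      convert h using 1
      ring
    · apply h.2
      convert hαA using 1
      ring

end Pool.Agent.S05971
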