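import Pool.Statements.S05978
import Pool.Agent.Lib.helper29.Akop1

set_option autoImplicit false
open MeasureTheory
open Pool Pool.MP_be6048_an

namespace Pool.Agent.S05978

/-- The negation of the preceding statement: Let G be a bounded open convex set in ℂ containing [-1,1], and 1 ≤ k ≤ n, 1 ≤ q ≤ ∞. Take any degree-n complex polynomial with no zeros in G that maximizes the L^q norm of its k-th derivative on [-1,1] over its sup norm there. Then all its zeros lie on the boundary of G. -/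
theorem result :
    ¬ (∀ G : Set ℂ, IsOpen G → Convex ℝ G → Bornology.IsBounded G →
      (∀ x : ℝ, x ∈ Set.Icc (-1 : ℝ) 1 → (x : ℂ) ∈ G) →
      ∀ n k : ℕ, 1 ≤ k → k ≤ n →
      ∀ q : ENNReal, 1 ≤ q →
      ∀ P : Polynomial ℂ, P.natDegree = n → (∀ z ∈ G, P.eval z ≠ 0) →
        (∀ Q : Polynomial ℂ, Q.natDegree = n → (∀ z ∈ G, Q.eval z ≠ 0) →
          eLpNorm (fun x : ℝ => ((⇑Polynomial.derivative)^[k] Q).eval (x : ℂ)) q
              (volume.restrict (Set.Icc (-1 : ℝ) 1)) /
            eLpNorm (fun x : ℝ => Q.eval (x : ℂ)) ⊤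
              (volume.restrict (Set.Icc (-1 : ℝ) 1))
          ≤
          eLpNorm (fun x : ℝ => ((⇑Polynomial.derivative)^[k] P).eval (x : ℂ)) q
              (volume.restrict (Set.Icc (-1 : ℝ) 1)) /
            eLpNorm (fun x : ℝ => P.eval (x : ℂ)) ⊤
              (volume.restrict (Set.Icc (-1 : ℝ) 1))) →
        ∀ z : ℂ, P.eval z = 0 → z ∈ frontier G) := by
  intro H
  obtain ⟨u, v, hu, hv, hmax, hbig⟩ := Lib.H29.Akop.exists_max
  have huv : u * v ≠ 0 := fun h => by linarith [Lib.H29.Akop.low_degree h]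
  have hu0 : u ≠ 0 := left_ne_zero_of_mul huv
  have hv0 : v ≠ 0 := right_ne_zero_of_mul huv
  have ev : ∀ (a b c z : ℂ), (Polynomial.C a * Polynomial.X ^ 2 + Polynomial.C b * Polynomial.X
      + Polynomial.C c).eval z = a * z ^ 2 + b * z + c := by
    intro a b c z; simp
  have evd : ∀ (a b c z : ℂ), ((⇑Polynomial.derivative)^[1] (Polynomial.C a * Polynomial.X ^ 2
      + Polynomial.C b * Polynomial.X + Polynomial.C c)).eval z = 2 * a * z + b := by
    intro a b c z; simp; ring
  set P : Polynomial ℂ := Polynomial.C (u * v) * Polynomial.X ^ 2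
    + Polynomial.C (-(u + v)) * Polynomial.X + Polynomial.C 1 with hP
  have hPe : ∀ z : ℂ, P.eval z = (1 - u * z) * (1 - v * z) := by
    intro z; rw [hP, ev]; ring
  have hPd : ∀ z : ℂ, ((⇑Polynomial.derivative)^[1] P).eval z = 2 * (u * v) * z - (u + v) := by
    intro z; rw [hP, evd]; ring
  have hfr := H Lib.H29.Akop.G Lib.H29.Akop.G_open Lib.H29.Akop.G_convex Lib.H29.Akop.G_bdd
    (fun x hx => ⟨by
      simp only [Complex.ofReal_re]
      exact abs_lt.mpr ⟨by linarith [hx.1], by linarith [hx.2]⟩, by simp⟩)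
    2 1 (by norm_num) (by norm_num) 1 le_rfl P (Polynomial.natDegree_quadratic huv)
    (fun z hz => by
      rw [hPe]
      exact mul_ne_zero (sub_ne_zero.mpr (hu z hz).symm) (sub_ne_zero.mpr (hv z hz).symm))
    (fun Q hQ hQ0 => by
      obtain ⟨a, b, c, rfl⟩ : ∃ a b c : ℂ, Q = Polynomial.C a * Polynomial.X ^ 2
          + Polynomial.C b * Polynomial.X + Polynomial.C c := by
        refine ⟨Q.coeff 2, Q.coeff 1, Q.coeff 0, ?_⟩
        conv_lhs => rw [Q.as_sum_range_C_mul_X_pow, hQ]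
        simp [Finset.sum_range_succ]
        ring
      simp only [ev] at hQ0
      obtain ⟨w, hw, hpos, hle⟩ := Lib.H29.Akop.quad_le hQ0
      simp only [ev, evd, hPe, hPd]
      have e1 := Lib.H29.Akop.eLp_one (Lib.H29.Akop.cont_d u v)
      have e2 := Lib.H29.Akop.eLp_top (Lib.H29.Akop.cont_p u v)
      have e3 := lt_of_lt_of_le one_pos (Lib.H29.Akop.one_le_M u v)
      unfold Lib.H29.Akop.p at e3
      unfold Lib.H29.Akop.d at e1
      unfold Lib.H29.Akop.p at e2
      rw [e1, e2, Lib.H29.Akop.eLp_one (by fun_prop), Lib.H29.Akop.eLp_top (by fun_prop),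
        ← ENNReal.ofReal_div_of_pos hpos,
        ← ENNReal.ofReal_div_of_pos e3]
      exact ENNReal.ofReal_le_ofReal (le_trans hle (hmax w hw)))
  have h1 := Lib.H29.Akop.G_frontier (hfr u⁻¹ (by rw [hPe, mul_inv_cancel₀ hu0]; ring))
  have h2 := Lib.H29.Akop.G_frontier (hfr v⁻¹ (by rw [hPe, mul_inv_cancel₀ hv0]; ring))
  linarith [Lib.H29.Akop.thin_bound hu0 hv0 h1 h2]

end Pool.Agent.S05978
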