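import Pool.Statements.S05985
import Pool.Agent.Lib.helper27.SmoothSep

set_option autoImplicit false
open Pool Pool.MP_bec4cd_an

namespace Pool.Agent.S05985

open Pool.Agent.Lib.helper27.Smooth Set Filter Topology CantorScheme

section
variable {X : Type} [NormedAddCommGroup X] [NormedSpace ℝ X]

def Small (ε : ℝ) (A : Set X) : Prop :=
  ∃ c : Set (X →L[ℝ] ℝ), c.Countable ∧ ∀ x ∈ A, ∀ f, Gat x f → ∃ g ∈ c, ‖f - g‖ ≤ ε

def Sep (ε : ℝ) (A B : Set X) : Prop :=
  ∀ x ∈ A, ∀ y ∈ B, ∀ f g : X →L[ℝ] ℝ, ‖f‖ ≤ 1 → f x = ‖x‖ → ‖g‖ ≤ 1 → g y = ‖y‖ → ε ≤ ‖f - g‖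

theorem usc (x : X) (f : X →L[ℝ] ℝ) (h : Gat x f) (v : X) (δ : ℝ) (hδ : 0 < δ) :
    ∃ r > 0, ∀ (y : X) (g : X →L[ℝ] ℝ), ‖y - x‖ ≤ r → ‖g‖ ≤ 1 → g y = ‖y‖ → g v ≤ f v + δ := by
  have h1 := (h.2.2 v).tendsto_slope_zero_right
  have h2 := (h1.eventually (gt_mem_nhds (show f v < f v + δ / 2 by linarith))).and
    self_mem_nhdsWithin
  obtain ⟨t, ht, ht0⟩ := h2.exists
  have ht0' : 0 < t := ht0
  rw [smul_eq_mul, inv_mul_lt_iff₀ ht0'] at ht
  refine ⟨t * δ / 4, by positivity, fun y g hy hg1 hg2 => ?_⟩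
  have h3 : g (y + t • v) ≤ ‖y + t • v‖ := by
    have := g.le_opNorm (y + t • v)
    have h6 := le_abs_self (g (y + t • v))
    rw [Real.norm_eq_abs] at this
    nlinarith [norm_nonneg (y + t • v)]
  rw [map_add, map_smul, hg2, smul_eq_mul] at h3
  have h4 := abs_norm_sub_norm_le (y + t • v) (x + t • v)
  rw [add_sub_add_right_eq_sub] at h4
  have h5 := abs_norm_sub_norm_le y x
  rw [abs_le] at h4 h5
  have : t * g v ≤ t * (f v + δ) := by nlinarith
  exact le_of_mul_le_mul_left this ht0'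

theorem split [TopologicalSpace.SeparableSpace X] (ε : ℝ) (hε : 0 < ε) (C : Set X)
    (hC : IsClosed C ∧ ¬ Small ε C) (η : ℝ) (hη : 0 < η) :
    ∃ C0 C1 : Set X, ((IsClosed C0 ∧ ¬ Small ε C0) ∧ C0 ⊆ C ∧ Metric.ediam C0 ≤ ENNReal.ofReal η) ∧
      ((IsClosed C1 ∧ ¬ Small ε C1) ∧ C1 ⊆ C ∧ Metric.ediam C1 ≤ ENNReal.ofReal η) ∧
      Sep ε C0 C1 := by
  classical
  haveI : SecondCountableTopology X := UniformSpace.secondCountable_of_separable X
  let B : Set X := {x | ∃ r > 0, Small ε (C ∩ Metric.closedBall x r)}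
  have h1 : ∀ x ∈ B, ∃ r > 0, Small ε (C ∩ Metric.closedBall x r) := fun x hx => hx
  choose! r hr0 hr using h1
  obtain ⟨t, htB, htc, hcov⟩ := TopologicalSpace.countable_cover_nhdsWithin
    (f := fun x => Metric.closedBall x (r x)) (s := B)
    (fun x hx => mem_nhdsWithin_of_mem_nhds (Metric.closedBall_mem_nhds x (hr0 x hx)))
  choose! c hcc hc using hr
  have h2 : ∃ x ∈ C, x ∉ B ∧ ∃ y ∈ C, y ∉ B ∧ ∃ f g, Gat x f ∧ Gat y g ∧ ε < ‖f - g‖ := by
    by_contra hcon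
    push Not at hcon
    apply hC.2
    by_cases h3 : ∃ y ∈ C, y ∉ B ∧ ∃ g, Gat y g
    · obtain ⟨y, hy, hyB, g, hg⟩ := h3
      refine ⟨insert g (⋃ x ∈ t, c x), (htc.biUnion fun x hx => hcc x (htB hx)).insert g, ?_⟩
      intro x hx f hf
      by_cases hxB : x ∈ B
      · obtain ⟨z, hz, hxz⟩ := mem_iUnion₂.mp (hcov hxB)
        obtain ⟨k, hk, hfk⟩ := hc z (htB hz) x ⟨hx, hxz⟩ f hf
        exact ⟨k, Or.inr (mem_biUnion hz hk), hfk⟩
      · exact ⟨g, Or.inl rfl, hcon x hx hxB y hy hyB f g hf hg⟩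
    · refine ⟨⋃ x ∈ t, c x, htc.biUnion fun x hx => hcc x (htB hx), ?_⟩
      intro x hx f hf
      by_cases hxB : x ∈ B
      · obtain ⟨z, hz, hxz⟩ := mem_iUnion₂.mp (hcov hxB)
        obtain ⟨k, hk, hfk⟩ := hc z (htB hz) x ⟨hx, hxz⟩ f hf
        exact ⟨k, mem_biUnion hz hk, hfk⟩
      · exact (h3 ⟨x, hx, hxB, f, hf⟩).elim
  obtain ⟨x, -, hxB, y, -, hyB, f, g, hf, hg, hfg⟩ := h2
  have h4 : ∃ v, ε * ‖v‖ < (f - g) v := by
    by_contra hcon
    push Not at hcon
    exact absurd (norm_le_of_le _ _ hε.le hcon) (not_le.mpr hfg)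
  obtain ⟨v, hv⟩ := h4
  have hv' : ε * ‖v‖ < f v - g v := hv
  obtain ⟨r1, hr1, H1⟩ := usc x f hf (-v) ((f v - g v - ε * ‖v‖) / 3) (by linarith)
  obtain ⟨r2, hr2, H2⟩ := usc y g hg v ((f v - g v - ε * ‖v‖) / 3) (by linarith)
  have hd : ∀ (z : X) (s : ℝ), Metric.ediam (C ∩ Metric.closedBall z (min s (η / 2))) ≤
      ENNReal.ofReal η := by
    intro z s
    refine Metric.ediam_le fun a ha b hb => ?_
    rw [edist_dist]
    apply ENNReal.ofReal_le_ofReal
    have := dist_triangle_right a b z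
    have ha' : dist a z ≤ _ := ha.2
    have hb' : dist b z ≤ _ := hb.2
    linarith [min_le_right s (η / 2)]
  refine ⟨C ∩ Metric.closedBall x (min r1 (η / 2)), C ∩ Metric.closedBall y (min r2 (η / 2)),
    ⟨⟨hC.1.inter Metric.isClosed_closedBall, fun h => hxB ⟨_, by positivity, h⟩⟩,
      inter_subset_left, hd _ _⟩,
    ⟨⟨hC.1.inter Metric.isClosed_closedBall, fun h => hyB ⟨_, by positivity, h⟩⟩,
      inter_subset_left, hd _ _⟩, ?_⟩
  intro a ha b hb p q hp1 hp2 hq1 hq2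
  have e1 := H1 a p ((mem_closedBall_iff_norm.mp ha.2).trans (min_le_left _ _)) hp1 hp2
  have e2 := H2 b q ((mem_closedBall_iff_norm.mp hb.2).trans (min_le_left _ _)) hq1 hq2
  rw [map_neg, map_neg] at e1
  have e3 := (p - q).le_opNorm v
  have e4 : p v - q v ≤ |(p - q) v| := le_abs_self ((p - q) v)
  rw [Real.norm_eq_abs] at e3
  have e5 : ε * ‖v‖ < ‖p - q‖ * ‖v‖ := by linarith
  exact (lt_of_mul_lt_mul_right e5 (norm_nonneg _)).le

end


/-- Every separable real Banach space with nonseparable dual contains a Cantor-set-homeomorphic subset K of its unit sphere and ε>0 such that norm-one functionals attaining 1 at distinct points of K are always at least ε apart in norm. -/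
theorem result :
    ∀ (X : Type) [NormedAddCommGroup X] [NormedSpace ℝ X] [CompleteSpace X],
      TopologicalSpace.SeparableSpace X →
      ¬ TopologicalSpace.SeparableSpace (X →L[ℝ] ℝ) →
      ∃ K : Set X, K ⊆ Metric.sphere (0 : X) 1 ∧ Nonempty (K ≃ₜ (ℕ → Bool)) ∧
        ∃ ε : ℝ, 0 < ε ∧
          ∀ x ∈ K, ∀ y ∈ K, x ≠ y →
            ∀ f g : X →L[ℝ] ℝ, ‖f‖ = 1 → f x = 1 → ‖g‖ = 1 → g y = 1 →
              ε ≤ ‖f - g‖ := by
  intro X _ _ _ hsep hns
  classical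
  have hbig : ∃ ε > 0, ¬ Small ε (Metric.sphere (0 : X) 1) := by
    by_contra hcon
    push Not at hcon
    apply hns
    choose c hcc hc using fun n : ℕ => hcon (1 / ((n : ℝ) + 1)) (by positivity)
    refine sep_of_sep ⟨insert 0 (⋃ n, c n), (countable_iUnion hcc).insert 0, ?_⟩
    rintro f ⟨y, hy⟩
    rcases gat_unit y f hy with h0 | ⟨x, hx1, hx⟩
    · exact subset_closure (Or.inl h0)
    · rw [Metric.mem_closure_iff]
      intro δ hδ
      obtain ⟨n, hn⟩ := exists_nat_one_div_lt hδ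
      obtain ⟨g, hg, hfg⟩ := hc n x (by simpa using hx1) f hx
      exact ⟨g, Or.inr (mem_iUnion.mpr ⟨n, hg⟩), by rw [dist_eq_norm]; linarith⟩
  obtain ⟨ε, hε, hbig⟩ := hbig
  let P := Subtype fun E : Set X => IsClosed E ∧ ¬ Small ε E
  choose C0 C1 h0 h1 hs using fun (C : Set X) (hC : IsClosed C ∧ ¬ Small ε C) (n : ℕ) =>
    split ε hε C hC (1 / ((n : ℝ) + 1)) (by positivity)
  let DP : List Bool → P := fun l => List.rec ⟨Metric.sphere 0 1, Metric.isClosed_sphere, hbig⟩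
    (fun a l ih => Bool.rec ⟨C0 ih.1 ih.2 l.length, (h0 _ _ _).1⟩
      ⟨C1 ih.1 ih.2 l.length, (h1 _ _ _).1⟩ a) l
  let D : List Bool → Set X := fun l => (DP l).val
  have hanti : ClosureAntitone D := by
    refine Antitone.closureAntitone ?_ fun l => (DP l).property.1
    intro l a
    cases a
    · exact (h0 _ _ _).2.1
    exact (h1 _ _ _).2.1
  have hdiam : VanishingDiam D := by
    intro x
    rw [← tendsto_add_atTop_iff_nat 1]
    have hl : Tendsto (fun n : ℕ => ENNReal.ofReal (1 / ((n : ℝ) + 1))) atTop (𝓝 0) := by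
      simpa using ENNReal.tendsto_ofReal tendsto_one_div_add_atTop_nhds_zero_nat
    refine tendsto_of_tendsto_of_tendsto_of_le_of_le tendsto_const_nhds hl (fun n => by simp) ?_
    intro n
    have e : PiNat.res x (n + 1) = x n :: PiNat.res x n := rfl
    show Metric.ediam (D (PiNat.res x (n + 1))) ≤ _
    rw [e]
    have e2 : (PiNat.res x n).length = n := PiNat.res_length x n
    cases x n
    · have := (h0 (DP (PiNat.res x n)).1 (DP (PiNat.res x n)).2 (PiNat.res x n).length).2.2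
      rw [← e2]; rw [e2] at this ⊢
      convert this using 2
      simp only [D, DP, e2]
    · have := (h1 (DP (PiNat.res x n)).1 (DP (PiNat.res x n)).2 (PiNat.res x n).length).2.2
      rw [← e2]; rw [e2] at this ⊢
      convert this using 2
      simp only [D, DP, e2]
  have hne : ∀ l, (D l).Nonempty := by
    intro l
    by_contra h
    apply (DP l).property.2
    exact ⟨∅, countable_empty, fun x hx => (h ⟨x, hx⟩).elim⟩
  have hdom : ∀ {x : ℕ → Bool}, x ∈ (inducedMap D).1 := fun {x} => by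
    rw [hanti.map_of_vanishingDiam hdiam hne]
    apply mem_univ
  let φ : (ℕ → Bool) → X := fun x => (inducedMap D).2 ⟨x, hdom⟩
  have hφ : ∀ x n, φ x ∈ D (PiNat.res x n) := fun x n => map_mem ⟨_, hdom⟩ n
  have hφc : Continuous φ := hdiam.map_continuous.comp (continuous_id.subtype_mk _)
  have hsepφ : ∀ a b, a ≠ b → ∀ f g : X →L[ℝ] ℝ, ‖f‖ ≤ 1 → f (φ a) = ‖φ a‖ → ‖g‖ ≤ 1 →
      g (φ b) = ‖φ b‖ → ε ≤ ‖f - g‖ := by
    intro a b hab f g hf1 hf2 hg1 hg2
    have hn := PiNat.apply_firstDiff_ne hab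
    have hr : PiNat.res a (PiNat.firstDiff a b) = PiNat.res b (PiNat.firstDiff a b) :=
      PiNat.res_eq_res.mpr fun m hm => PiNat.apply_eq_of_lt_firstDiff hm
    have ha := hφ a (PiNat.firstDiff a b + 1)
    have hb := hφ b (PiNat.firstDiff a b + 1)
    rw [PiNat.res_succ] at ha hb
    rw [← hr] at hb
    generalize a (PiNat.firstDiff a b) = u at ha hn
    generalize b (PiNat.firstDiff a b) = w at hb hn
    cases u <;> cases w
    · exact (hn rfl).elim
    · exact hs _ _ _ _ ha _ hb f g hf1 hf2 hg1 hg2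
    · rw [norm_sub_rev]; exact hs _ _ _ _ hb _ ha g f hg1 hg2 hf1 hf2
    · exact (hn rfl).elim
  have hinj : Function.Injective φ := by
    intro a b hab
    by_contra hne'
    obtain ⟨f, hf1, hf2⟩ := exists_dual_vector'' ℝ (φ a)
    have := hsepφ a b hne' f f hf1 hf2 hf1 (hab ▸ hf2)
    rw [sub_self, norm_zero] at this
    linarith
  have hsph : ∀ a, φ a ∈ Metric.sphere (0 : X) 1 := fun a => hφ a 0
  refine ⟨range φ, by rintro _ ⟨a, rfl⟩; exact hsph a,
    ⟨(hφc.isClosedEmbedding hinj).isEmbedding.toHomeomorph.symm⟩, ε, hε, ?_⟩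
  rintro _ ⟨a, rfl⟩ _ ⟨b, rfl⟩ hab f g hf1 hf2 hg1 hg2
  have ea : ‖φ a‖ = 1 := by simpa using hsph a
  have eb : ‖φ b‖ = 1 := by simpa using hsph b
  exact hsepφ a b (fun h => hab (h ▸ rfl)) f g hf1.le (hf2.trans ea.symm) hg1.le
    (hg2.trans eb.symm)

end Pool.Agent.S05985
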