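import Pool.Statements.S05991
-- import your own Pool.Agent.* helpers here

set_option autoImplicit false
open Pool Pool.MP_bf1b21_an

namespace Pool.Agent.S05991

open Set

theorem dep {G : Type} (h : C(G → Bool, ℝ)) :
    ∃ S : Set G, S.Countable ∧ ∀ a b : G → Bool, (∀ i ∈ S, a i = b i) → h a = h b := by
  have h1 : ∀ ε > (0 : ℝ), ∃ S : Set G, S.Finite ∧
      ∀ a b : G → Bool, (∀ i ∈ S, a i = b i) → dist (h a) (h b) ≤ 2 * ε := by
    intro ε hε
    have h2 : ∀ a : G → Bool, ∃ I : Set G, I.Finite ∧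
        ∀ b : G → Bool, (∀ i ∈ I, b i = a i) → dist (h b) (h a) < ε := by
      intro a
      have := h.continuous.continuousAt (x := a) (Metric.ball_mem_nhds _ hε)
      rw [Filter.mem_map, nhds_pi, Filter.mem_pi] at this
      obtain ⟨I, hI, t, ht, hs⟩ := this
      exact ⟨I, hI, fun b hb => hs fun i hi => hb i hi ▸ mem_of_mem_nhds (ht i)⟩
    choose I hI hI' using h2
    obtain ⟨T, hT⟩ := isCompact_univ.elim_finite_subcover (fun a => (I a).pi fun i => {a i})
      (fun a => isOpen_set_pi (hI a) fun _ _ => isOpen_discrete _)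
      fun a _ => mem_iUnion.mpr ⟨a, fun _ _ => rfl⟩
    refine ⟨⋃ a ∈ T, I a, T.finite_toSet.biUnion fun a _ => hI a, fun a b hab => ?_⟩
    obtain ⟨c, hc, hac⟩ := mem_iUnion₂.mp (hT (mem_univ a))
    have h3 := hI' c a hac
    have h4 := hI' c b fun i hi => (hab i (mem_biUnion hc hi)).symm.trans (hac i hi)
    linarith [dist_triangle_right (h a) (h b) (h c)]
  choose S hS hS' using fun n : ℕ => h1 (1 / (n + 1)) Nat.one_div_pos_of_nat
  refine ⟨⋃ n, S n, countable_iUnion fun n => (hS n).countable, fun a b hab => ?_⟩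
  refine eq_of_forall_dist_le fun ε hε => ?_
  obtain ⟨n, hn⟩ := exists_nat_one_div_lt (half_pos hε)
  linarith [hS' n a b fun i hi => hab i (mem_iUnion.mpr ⟨n, hi⟩)]

abbrev A : Type := Bool × C(ℕ → Bool, ℝ)

abbrev W : Type := WType fun p : A => {_n : ℕ // p.1 = true}

noncomputable def xv : W → C(W → Bool, ℝ)
  | ⟨p, f⟩ => p.2.comp ⟨fun a n => if h : p.1 = true then a (f ⟨n, h⟩) else false,
      continuous_pi fun n => by split_ifs <;> fun_prop⟩

def ch : W → W → Prop
  | ⟨_, f⟩, b => ∃ i, f i = b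

theorem ch_wf (a : W) : Acc (fun b a => ch a b) a := by
  induction a with
  | mk p f ih => exact ⟨_, fun b ⟨i, hi⟩ => hi ▸ ih i⟩

theorem ch_asymm {a b : W} (h : ch a b) : ¬ ch b a :=
  (WellFounded.asymmetric (r := fun b a => ch a b) ⟨ch_wf⟩ _ _ h)

open Classical in
theorem xv_upd {a b : W} (h : ¬ ch a b) (w : W → Bool) (t : Bool) :
    xv a (Function.update w b t) = xv a w := by
  obtain ⟨p, f⟩ := a
  refine congrArg p.2 (funext fun n => ?_)
  show dite _ _ _ = dite _ _ _
  split_ifs with h1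
  · exact Function.update_of_ne (fun e => h ⟨_, e⟩) _ _
  · rfl

theorem xv_surj : Function.Surjective xv := by
  classical
  intro h
  obtain ⟨S, hS, hS'⟩ := dep h
  obtain ⟨f, hf⟩ := (hS.insert ⟨(false, 0), fun n => absurd n.2 (by simp)⟩).exists_eq_range
    (insert_nonempty _ _)
  refine ⟨⟨(true, h.comp ⟨fun s w => if h : ∃ n, f n = w then s h.choose else false,
    continuous_pi fun w => by split_ifs <;> fun_prop⟩), fun n => f n.1⟩, ?_⟩
  ext a
  refine hS' _ _ fun i hi => ?_
  have h1 : ∃ n, f n = i := hf.subset (mem_insert_of_mem _ hi)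
  exact (dif_pos h1).trans (congrArg a h1.choose_spec)

noncomputable def ev (a : W) : C(W → Bool, ℝ) :=
  ⟨fun w => if w a = true then 1 else -1, (continuous_of_discreteTopology
    (f := fun t : Bool => if t = true then (1 : ℝ) else -1)).comp (continuous_apply a)⟩

theorem ev_norm (a : W) : ‖ev a‖ ≤ 1 :=
  (ContinuousMap.norm_le _ zero_le_one).mpr fun w => by
    show ‖if w a = true then (1 : ℝ) else -1‖ ≤ 1
    split_ifs <;> simp

open Classical in
theorem add_ev (g : C(W → Bool, ℝ)) (a : W) (h : ∀ w t, g (Function.update w a t) = g w) :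
    ‖g‖ + 1 ≤ ‖g + ev a‖ := by
  rw [← le_sub_iff_add_le]
  refine (ContinuousMap.norm_le_of_nonempty _).mpr fun w => ?_
  have h1 := (g + ev a).norm_coe_le_norm (Function.update w a true)
  have h2 := (g + ev a).norm_coe_le_norm (Function.update w a false)
  simp only [ContinuousMap.add_apply, h, ev, ContinuousMap.coe_mk, Function.update_self,
    Real.norm_eq_abs, abs_le] at h1 h2 ⊢
  norm_num at h1 h2
  constructor <;> linarith [h1.2, h2.1]

def used (a : W) : Prop :=
  WType.rec (motive := fun _ => Prop) (fun p f ih => Function.surjInv xv_surj (xv ⟨p, f⟩) = ⟨p, f⟩ ∧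
    ∀ i, ih i → 1 < dist (xv ⟨p, f⟩) (xv (f i) + ev (f i))) a

theorem used_iff (a : W) : used a ↔ Function.surjInv xv_surj (xv a) = a ∧
    ∀ b, ch a b → used b → 1 < dist (xv a) (xv b + ev b) := by
  obtain ⟨p, f⟩ := a
  exact and_congr_right' ⟨fun h b ⟨i, hi⟩ => hi ▸ h i, fun h i => h _ ⟨i, rfl⟩⟩

open Classical in
theorem far {a b : W} (ha : used a) (hb : used b) (hab : a ≠ b) (h : ¬ ch b a) :
    2 < dist (xv a + ev a) (xv b + ev b) := by
  have h1 : 1 < dist (xv a) (xv b + ev b) := by
    by_cases c : ch a b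
    · exact ((used_iff a).mp ha).2 b c hb
    have h2 := add_ev (xv b - xv a) b fun w t => by
      simp only [ContinuousMap.sub_apply, xv_upd c, xv_upd fun h => ch_asymm h h]
    have h3 : xv b - xv a ≠ 0 := fun e => hab (by
      rw [← ((used_iff a).mp ha).1, ← sub_eq_zero.mp e, ((used_iff b).mp hb).1])
    rw [dist_comm, dist_eq_norm, add_sub_right_comm]
    linarith [norm_pos_iff.mpr h3]
  have h4 := add_ev (xv a - (xv b + ev b)) a fun w t => by
    simp only [ContinuousMap.sub_apply, ContinuousMap.add_apply, xv_upd h,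
      xv_upd fun h => ch_asymm h h, ev, ContinuousMap.coe_mk, Function.update_of_ne hab.symm]
  rw [dist_eq_norm] at h1
  rw [dist_eq_norm, add_sub_right_comm]
  linarith

/-- There is an infinite compact Hausdorff space K such that C(K) with the sup norm is covered by closed balls of positive radius, each of which meets only finitely many balls of the cover. -/
theorem result :
    ∃ (K : Type) (_ : TopologicalSpace K) (_ : CompactSpace K) (_ : T2Space K),
      Infinite K ∧
      ∃ 𝓑 : Set (Set C(K, ℝ)),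
        (∀ B ∈ 𝓑, ∃ (x : C(K, ℝ)) (r : ℝ), 0 < r ∧ B = Metric.closedBall x r) ∧
        ⋃₀ 𝓑 = Set.univ ∧
        ∀ B ∈ 𝓑, {B' : Set C(K, ℝ) | B' ∈ 𝓑 ∧ (B ∩ B').Nonempty}.Finite := by
  have hinf : Infinite (W → Bool) := by
    classical
    let z : C(ℕ → Bool, ℝ) → W := fun g => ⟨(false, g), fun n => absurd n.2 (by simp)⟩
    have hz : Function.Injective z := fun g g' h => by
      injection h with h1
      exact (Prod.mk.inj h1).2
    haveI : Infinite C(ℕ → Bool, ℝ) := Infinite.of_injective (ContinuousMap.const (ℕ → Bool))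
      fun s t h => DFunLike.congr_fun h fun _ => true
    haveI := Infinite.of_injective z hz
    infer_instance
  refine ⟨W → Bool, inferInstance, inferInstance, inferInstance, hinf,
    {B | ∃ a, used a ∧ B = Metric.closedBall (xv a + ev a) 1},
    fun B ⟨a, _, h⟩ => ⟨_, _, one_pos, h⟩, eq_univ_of_forall fun v => ?_, ?_⟩
  · have hv : xv (Function.surjInv xv_surj v) = v := Function.surjInv_eq xv_surj v
    by_cases h : used (Function.surjInv xv_surj v)
    · refine ⟨_, ⟨_, h, rfl⟩, ?_⟩
      rw [Metric.mem_closedBall, hv, dist_self_add_right]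
      exact ev_norm _
    · rw [used_iff, hv] at h
      push Not at h
      obtain ⟨b, -, h1, h2⟩ := h rfl
      exact ⟨_, ⟨b, h1, rfl⟩, h2⟩
  · rintro _ ⟨a, ha, rfl⟩
    refine (finite_singleton (Metric.closedBall (xv a + ev a) 1)).subset ?_
    rintro _ ⟨⟨b, hb, rfl⟩, x, h1, h2⟩
    by_cases hab : a = b
    · rw [hab]; rfl
    have h3 := dist_triangle_left (xv a + ev a) (xv b + ev b) x
    rw [Metric.mem_closedBall] at h1 h2
    by_cases c : ch b a
    · linarith [far hb ha (Ne.symm hab) (ch_asymm c), dist_comm (xv a + ev a) (xv b + ev b)]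
    · linarith [far ha hb hab c]

end Pool.Agent.S05991
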