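import Pool.Statements.S05997
import Pool.Agent.Lib.helper25.Bisym

set_option autoImplicit false
open Pool Pool.MP_bfe0f8_an

namespace Pool.Agent.S05997

/-- For every real interval I, any binary operation on I that is reflexive, bisymmetric, and strictly increasing in each variable is continuous on I×I. -/
theorem result :
    ∀ (I : Set ℝ), I.OrdConnected → ∀ F : ℝ → ℝ → ℝ,
      (∀ x ∈ I, ∀ y ∈ I, F x y ∈ I) →
      (∀ x ∈ I, F x x = x) →
      (∀ x ∈ I, ∀ y ∈ I, ∀ u ∈ I, ∀ v ∈ I,
        F (F x y) (F u v) = F (F x u) (F y v)) →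
      (∀ x ∈ I, StrictMonoOn (F x) I) →
      (∀ y ∈ I, StrictMonoOn (fun x => F x y) I) →
      ContinuousOn (Function.uncurry F) (I ×ˢ I) := by
  intro I hI F hc hr hm m1 m2
  let G : I → I → I := fun x y => ⟨F x y, hc _ x.2 _ y.2⟩
  have g1 : ∀ x, StrictMono (G x) := fun x a b h => m1 x x.2 a.2 b.2 h
  have g2 : ∀ y, StrictMono (fun x => G x y) := fun y a b h => m2 y y.2 a.2 b.2 h
  have gm : ∀ x y u v, G (G x y) (G u v) = G (G x u) (G y v) :=
    fun x y u v => Subtype.ext (hm _ x.2 _ y.2 _ u.2 _ v.2)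
  have h := Pool.Agent.Lib.H25Bisym.cont I hI G (fun x => Subtype.ext (hr x x.2)) gm g1 g2
    (fun x : Bool → I => G (x false) (x true))
    (fun x y h => ((g1 _).monotone (h true)).trans ((g2 _).monotone (h false)))
    (fun x => Subtype.ext (hr x x.2)) (fun x y => gm _ _ _ _)
  rw [continuousOn_iff_continuous_restrict]
  let e : ↥(I ×ˢ I) → (Bool → I) := fun p b => if b then ⟨p.1.2, p.2.2⟩ else ⟨p.1.1, p.2.1⟩
  have he : Continuous e := by
    apply continuous_pi
    intro b
    cases b
    · exact (continuous_fst.comp continuous_subtype_val).subtype_mk _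
    · exact (continuous_snd.comp continuous_subtype_val).subtype_mk _
  exact continuous_subtype_val.comp (h.comp he)

end Pool.Agent.S05997
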