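import Pool.Statements.S06000

set_option autoImplicit false
open Pool Pool.MP_c0175c_an

namespace Pool.Agent.S06000

open MeasureTheory Set Filter Topology
open scoped ENNReal

/-- the space `c_0` -/
abbrev C0 := ZeroAtInftyContinuousMap ℕ ℝ

/-- coordinate functional -/
noncomputable def ev (k : ℕ) : StrongDual ℝ C0 :=
  LinearMap.mkContinuous ⟨⟨fun x => x k, fun _ _ => rfl⟩, fun _ _ => rfl⟩ 1 fun x => by
    rw [one_mul, ← ZeroAtInftyContinuousMap.norm_toBCF_eq_norm]
    exact x.toBCF.norm_coe_le_norm k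

lemma ev_norm (k : ℕ) : ‖ev k‖ₑ ≤ 1 := by
  rw [← ofReal_norm, ENNReal.ofReal_le_one]
  exact LinearMap.mkContinuous_norm_le _ zero_le_one _

lemma norm_le {x : C0} {c : ℝ} (hc : 0 ≤ c) (h : ∀ k, |x k| ≤ c) : ‖x‖ ≤ c := by
  rw [← ZeroAtInftyContinuousMap.norm_toBCF_eq_norm]
  exact (BoundedContinuousFunction.norm_le hc).2 h

/-- initial segments of the `n`-th block -/
noncomputable def xx (n i : ℕ) : C0 where
  toFun t := if t.unpair.1 = n ∧ t.unpair.2 < i then 1 else 0
  zero_at_infty' := by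
    rw [cocompact_eq_cofinite]
    refine tendsto_const_nhds.congr' (((finite_Iio i).image (Nat.pair n)).subset fun t ht => ?_)
    by_contra h
    refine ht (if_neg fun h2 => h ⟨t.unpair.2, h2.2, ?_⟩).symm
    rw [← h2.1, Nat.pair_unpair]

lemma xx_apply (n i t : ℕ) : xx n i t = if t.unpair.1 = n ∧ t.unpair.2 < i then 1 else 0 := rfl

lemma weak (f : StrongDual ℝ C0) :
    Tendsto (fun p : (Σ n : ℕ, Fin (n + 1)) => f (xx p.1 p.2)) cofinite (𝓝 0) := by
  classical
  rw [Metric.tendsto_nhds]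
  intro ε hε
  have hfin : {n | ∃ i, ε ≤ |f (xx n i)|}.Finite := by
    by_contra hinf
    obtain ⟨N, hN⟩ := exists_nat_gt (‖f‖ / ε)
    obtain ⟨s, hs, hc⟩ := Set.Infinite.exists_subset_card_eq hinf N
    choose! g hg using fun n (hn : n ∈ s) => hs hn
    have h1 : ‖∑ n ∈ s, (SignType.sign (f (xx n (g n))) : ℝ) • xx n (g n)‖ ≤ 1 := by
      refine norm_le zero_le_one fun k => ?_
      have : (∑ n ∈ s, (SignType.sign (f (xx n (g n))) : ℝ) • xx n (g n)) k =
          ∑ n ∈ s, (SignType.sign (f (xx n (g n))) : ℝ) * xx n (g n) k := map_sum (ev k) _ _ |>.trans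
        (Finset.sum_congr rfl fun n _ => map_smul (ev k) _ _)
      by_cases hk : k.unpair.1 ∈ s
      swap
      · rw [this, Finset.sum_eq_zero fun n hn => by
          rw [xx_apply, if_neg (by rintro ⟨h, -⟩; exact hk (h ▸ hn)), mul_zero]]
        simp
      rw [this, Finset.sum_eq_single_of_mem k.unpair.1 hk (fun n _ h => by simp [xx_apply, h.symm])]
      · rw [abs_mul, xx_apply]
        refine mul_le_one₀ ?_ (abs_nonneg _) (by split_ifs <;> simp)
        rcases SignType.sign (f (xx k.unpair.1 (g k.unpair.1))) <;> simp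
    have h2 := (le_abs_self _).trans ((f.le_opNorm _).trans (mul_le_of_le_one_right (norm_nonneg _) h1))
    rw [map_sum] at h2
    have h3 : ∑ n ∈ s, ε ≤ ∑ n ∈ s, f ((SignType.sign (f (xx n (g n))) : ℝ) • xx n (g n)) :=
      Finset.sum_le_sum fun n hn => by rw [map_smul, smul_eq_mul, sign_mul_self]; exact hg n hn
    rw [Finset.sum_const, hc, nsmul_eq_mul] at h3
    rw [div_lt_iff₀ hε] at hN
    linarith
  refine (hfin.biUnion fun n _ => finite_range (Sigma.mk (β := fun n => Fin (n + 1)) n)).subset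
    fun p hp => mem_biUnion (x := p.1) ⟨p.2, ?_⟩ ⟨p.2, rfl⟩
  simpa [Real.dist_eq] using hp

lemma unif {α : Type} [MeasurableSpace α] (μ : VectorMeasure α C0) (lam : ℕ → Measure α)
    (h : ∀ k s, lam k s ≤ μ.semivariation s) (m : Measure α) [IsFiniteMeasure m]
    (hm : ∀ k s, lam k s ≤ 2 ^ k * m s) :
    ∃ δ > 0, ∀ A, MeasurableSet A → m A < δ → ∀ k, lam k A ≤ 4⁻¹ := by
  by_contra hc
  push Not at hc
  obtain ⟨f, hf, hr⟩ := exists_seq_of_forall_finset_exists
    (fun x : ℕ × Set α => MeasurableSet x.2 ∧ 4⁻¹ < lam x.1 x.2)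
    (fun x y => 2 ^ x.1 * m y.2 ≤ 16⁻¹ ∧ m y.2 ≤ 2⁻¹ * m x.2) (by
      intro s hs
      have : ∀ᶠ δ in 𝓝 (0 : ℝ≥0∞), ∀ x ∈ s, 2 ^ x.1 * δ ≤ 16⁻¹ ∧ δ ≤ 2⁻¹ * m x.2 := by
        refine (eventually_all_finset s).2 fun x hx => Eventually.and ?_ ?_
        · refine (ENNReal.Tendsto.const_mul tendsto_id (Or.inr (by simp))).eventually ?_
          rw [mul_zero]
          exact eventually_le_nhds (by simp)
        · refine eventually_le_nhds (ENNReal.mul_pos (by simp) fun h0 => ?_)
          have := (hs x hx).2.trans_le (hm _ _)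
          simp [h0] at this
      obtain ⟨δ, hδ, h1⟩ := ENNReal.nhds_zero_basis.eventually_iff.1 this
      obtain ⟨A, h2, h3, k, h4⟩ := hc δ hδ
      exact ⟨(k, A), ⟨h2, h4⟩, h1 h3⟩)
  let D : ℕ → Set α := fun j => (f j).2 \ ⋃ i, (f (j + 1 + i)).2
  have hD : ∀ j, MeasurableSet (D j) := fun j => (hf j).1.diff (MeasurableSet.iUnion fun i => (hf _).1)
  have hD2 : ∀ j, 8⁻¹ < μ.semivariation (D j) := by
    intro j
    have g1 : ∀ i, m (f (j + 1 + i)).2 ≤ 2⁻¹ ^ i * m (f (j + 1)).2 := by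
      intro i
      induction i with
      | zero => simp
      | succ i ih =>
        refine (hr (j + 1 + i) _ (by omega)).2.trans ?_
        rw [pow_succ', mul_assoc]
        gcongr
    have g2 : lam (f j).1 (⋃ i, (f (j + 1 + i)).2) ≤ 8⁻¹ := by
      refine (hm _ _).trans ((mul_le_mul_right ((measure_iUnion_le _).trans (ENNReal.tsum_le_tsum g1)) _).trans ?_)
      rw [ENNReal.tsum_mul_right, ENNReal.tsum_geometric_two, mul_left_comm]
      refine (mul_le_mul_right (hr j (j + 1) (by omega)).1 _).trans (le_of_eq ?_)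
      rw [show (16 : ℝ≥0∞) = 2 * 8 by norm_num, ENNReal.mul_inv (by simp) (by simp), ← mul_assoc,
        ENNReal.mul_inv_cancel (by simp) (by simp), one_mul]
    refine lt_of_lt_of_le ?_ (h (f j).1 _)
    by_contra g3
    have g4 := (hf j).2.trans_le ((measure_mono (subset_sdiff_union _ _)).trans ((measure_union_le _ _).trans
      (add_le_add (not_lt.1 g3) g2)))
    rw [← two_mul, show (8 : ℝ≥0∞) = 2 * 4 by norm_num, ENNReal.mul_inv (by simp) (by simp), ← mul_assoc,
      ENNReal.mul_inv_cancel (by simp) (by simp), one_mul] at g4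
    exact g4.false
  choose t ht1 ht2 ht3 using fun j => μ.exists_subset_lt_enorm_apply_of_lt_semivariation (hD j) (hD2 j)
  have hdis : Pairwise (Function.onFun Disjoint t) := by
    refine pairwise_disjoint_on t |>.2 fun i j hij => ?_
    obtain ⟨d, rfl⟩ := Nat.exists_eq_add_of_lt hij
    exact Set.disjoint_left.2 fun x h1 h2 =>
      (ht1 i h1).2 (mem_iUnion.2 ⟨d, by rw [add_right_comm]; exact (ht1 _ h2).1⟩)
  have g5 := (μ.hasSum_of_disjoint_iUnion ht2 hdis).summable.tendsto_atTop_zero.enorm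
  have g6 := ENNReal.Tendsto.const_mul (a := 2) g5 (Or.inr (by simp))
  rw [← ofReal_norm, norm_zero, ENNReal.ofReal_zero, mul_zero] at g6
  simpa using ge_of_tendsto' g6 fun j => (ht3 j).le

lemma tree {α : Type} [MeasurableSpace α] (m : Measure α) [IsFiniteMeasure m] (J : ℕ → (α → ℝ) → ℝ)
    (hJ : ∀ j (φ ψ : α → ℝ) (a b : ℝ), Measurable φ → Measurable ψ → (∀ x, φ x ∈ Icc 0 1) →
      (∀ x, ψ x ∈ Icc 0 1) → J j (fun x => a * φ x + b * ψ x) = a * J j φ + b * J j ψ)
    (κ : ℝ) (hκ : ∀ j (ψ : α → ℝ), Measurable ψ → (∀ x, |ψ x| ≤ 1) → J j ψ = 1 → κ ≤ ∫ x, ψ x ^ 2 ∂m)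
    (n : ℕ) (E : ℕ → Set α) (hE : ∀ i, MeasurableSet (E i))
    (hEJ : ∀ i ≤ n, ∀ j, J j ((E i).indicator 1) = if j < i then 1 else 0) (h : ℕ) :
    ∀ a, a + 2 ^ h ≤ n + 1 → ∃ φ : α → ℝ, Measurable φ ∧ (∀ x, φ x ∈ Icc 0 1) ∧
      (∀ j, j < a → J j φ = 1) ∧ (∀ j, a + 2 ^ h ≤ j + 1 → J j φ = 0) ∧
      ∫ x, φ x ^ 2 ∂m ≤ m.real univ - h * (κ / 4) := by
  have int : ∀ φ : α → ℝ, Measurable φ → (∀ x, |φ x| ≤ 1) → Integrable (fun x => φ x ^ 2) m := fun φ h1 h2 =>
    (integrable_const 1).mono' (h1.pow_const 2).aestronglyMeasurable (Eventually.of_forall fun x => by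
      simpa using h2 x)
  have ab : ∀ {y : ℝ}, y ∈ Icc 0 1 → |y| ≤ 1 := fun h => abs_le.2 ⟨by linarith [h.1], h.2⟩
  induction h with
  | zero =>
    intro a ha
    have h1 : ∀ x, (E a).indicator (1 : α → ℝ) x ∈ Icc 0 1 := fun x => by
      by_cases hx : x ∈ E a <;> simp [hx]
    have h2 : Measurable ((E a).indicator (1 : α → ℝ)) := measurable_one.indicator (hE a)
    refine ⟨_, h2, h1, fun j hj => by rw [hEJ a (by omega), if_pos hj],
      fun j hj => by rw [hEJ a (by omega), if_neg (by omega)], ?_⟩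
    simpa using integral_mono (int _ h2 fun x => ab (h1 x)) (integrable_const 1) fun x => by
      simpa using ab (h1 x)
  | succ h ih =>
    intro a ha
    have hp : 0 < 2 ^ h := by positivity
    obtain ⟨φ, p1, p2, p3, p4, p5⟩ := ih a (by omega)
    obtain ⟨ψ, q1, q2, q3, q4, q5⟩ := ih (a + 2 ^ h) (by omega)
    have hd : ∀ x, |-1 * φ x + 1 * ψ x| ≤ 1 := fun x =>
      abs_le.2 ⟨by linarith [(p2 x).2, (q2 x).1], by linarith [(p2 x).1, (q2 x).2]⟩
    have h1 := hκ (a + 2 ^ h - 1) _ (by fun_prop) hd (by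
      rw [hJ _ _ _ _ _ p1 q1 p2 q2, p4 _ (by omega), q3 _ (by omega)]; norm_num)
    refine ⟨fun x => 2⁻¹ * φ x + 2⁻¹ * ψ x, by fun_prop,
      fun x => ⟨by linarith [(p2 x).1, (q2 x).1], by linarith [(p2 x).2, (q2 x).2]⟩,
      fun j hj => by rw [hJ _ _ _ _ _ p1 q1 p2 q2, p3 _ hj, q3 _ (by omega)]; norm_num,
      fun j hj => by rw [hJ _ _ _ _ _ p1 q1 p2 q2, p4 _ (by omega), q4 _ (by omega)]; norm_num, ?_⟩
    have i1 := int φ p1 fun x => ab (p2 x)
    have i2 := int ψ q1 fun x => ab (q2 x)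
    have i3 := int _ (by fun_prop) hd
    have e : (fun x => (2⁻¹ * φ x + 2⁻¹ * ψ x) ^ 2) =
        fun x => (2⁻¹ * φ x ^ 2 + 2⁻¹ * ψ x ^ 2) - 4⁻¹ * (-1 * φ x + 1 * ψ x) ^ 2 := by
      funext x; ring
    rw [e, integral_sub (f := fun x => 2⁻¹ * φ x ^ 2 + 2⁻¹ * ψ x ^ 2) ((i1.const_mul _).add (i2.const_mul _))
      (i3.const_mul _),
      integral_add (i1.const_mul _) (i2.const_mul _), integral_const_mul, integral_const_mul,
      integral_const_mul]
    push_cast
    linarith


/-- The negation of the preceding statement: Every weakly compact subset of the real sequence space c_0 is contained in the range of some countably additive c_0-valued vector measure on some measurable space. -/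
theorem result :
    ¬ (∀ K : Set (ZeroAtInftyContinuousMap ℕ ℝ),
      IsCompact ((toWeakSpace ℝ (ZeroAtInftyContinuousMap ℕ ℝ)) '' K) →
      ∃ (α : Type) (_ : MeasurableSpace α)
        (μ : MeasureTheory.VectorMeasure α (ZeroAtInftyContinuousMap ℕ ℝ)),
        K ⊆ Set.range (fun s : Set α => μ s)) := by
  intro H
  obtain ⟨α, _, μ, hμ⟩ := H (insert 0 (range fun p : (Σ n : ℕ, Fin (n + 1)) => xx p.1 p.2)) (by
    rw [image_insert_eq, ← range_comp]
    refine Tendsto.isCompact_insert_range_of_cofinite ?_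
    refine (Topology.IsInducing.tendsto_nhds_iff ⟨rfl⟩).2 (tendsto_pi_nhds.2 fun f => ?_)
    have := weak f
    rw [← f.map_zero] at this
    exact this)
  let ν : ℕ → SignedMeasure α := fun k => μ.mapRange (ev k : C0 →+ ℝ) (ev k).continuous
  let lam : ℕ → Measure α := fun k => (ν k).totalVariation
  have h1 : ∀ k s, lam k s ≤ μ.semivariation s := fun k s => by
    simp only [lam, SignedMeasure.totalVariation_eq_variation]
    exact le_biSup (fun ℓ : StrongDual ℝ C0 => (μ.mapRange (ℓ : C0 →+ ℝ) ℓ.continuous).variation s) (ev_norm k)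
  have h2 : ∀ k s, lam k s ≤ μ.bound := fun k s => (h1 k s).trans μ.semivariation_apply_le_bound
  let m : Measure α := Measure.sum fun k => (2⁻¹ : ℝ≥0∞) ^ k • lam k
  have : IsFiniteMeasure m := ⟨by
    rw [Measure.sum_apply _ MeasurableSet.univ]
    refine (ENNReal.tsum_le_tsum fun k => mul_le_mul_right (h2 k _) _).trans_lt ?_
    rw [ENNReal.tsum_mul_right, ENNReal.tsum_geometric_two]
    exact ENNReal.mul_lt_top (by simp) (by simp)⟩
  obtain ⟨δ, hδ, h3⟩ := unif μ lam h1 m (fun k s => by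
    refine le_trans (le_of_eq ?_) (mul_le_mul_right (Measure.le_sum _ k s) _)
    rw [Measure.smul_apply, smul_eq_mul, ← mul_assoc, ← mul_pow, ENNReal.mul_inv_cancel (by simp) (by simp)]
    simp)
  obtain ⟨d, hd0, hd⟩ := ENNReal.lt_iff_exists_nnreal_btwn.1 hδ
  have hd1 : (0 : ℝ) < d := by exact_mod_cast hd0
  let J : ℕ → (α → ℝ) → ℝ := fun k φ =>
    ∫ x, φ x ∂(ν k).toJordanDecomposition.posPart - ∫ x, φ x ∂(ν k).toJordanDecomposition.negPart
  have int : ∀ (ρ : Measure α) [IsFiniteMeasure ρ] (φ : α → ℝ), Measurable φ → (∀ x, |φ x| ≤ 1) →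
      Integrable φ ρ := fun ρ _ φ a b =>
    (integrable_const 1).mono' a.aestronglyMeasurable (Eventually.of_forall b)
  have ab : ∀ {y : ℝ}, y ∈ Icc 0 1 → |y| ≤ 1 := fun h => abs_le.2 ⟨by linarith [h.1], h.2⟩
  set η : ℝ := 1 / (4 * (μ.bound + 1)) with hη
  have hη0 : 0 < η := by positivity
  obtain ⟨h, hh⟩ := exists_nat_gt (m.real univ / (η ^ 2 * d / 4))
  have hE : ∀ i, ∃ s, MeasurableSet s ∧ (i ≤ 2 ^ h → μ s = xx (2 ^ h) i) := by
    intro i
    by_cases hi : i ≤ 2 ^ h
    · obtain ⟨s, hs⟩ := hμ (Or.inr ⟨⟨2 ^ h, ⟨i, by omega⟩⟩, rfl⟩)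
      by_cases h4 : MeasurableSet s
      · exact ⟨s, h4, fun _ => hs⟩
      · exact ⟨∅, MeasurableSet.empty, fun _ => by rw [μ.empty, ← μ.not_measurable h4]; exact hs⟩
    · exact ⟨∅, MeasurableSet.empty, fun h => absurd h hi⟩
  choose E hE1 hE2 using hE
  obtain ⟨φ, -, -, -, -, h5⟩ := tree m (fun j => J (Nat.pair (2 ^ h) j)) (by
    intro j φ ψ a b p1 q1 p2 q2
    simp only [J]
    rw [integral_add ((int _ φ p1 fun x => ab (p2 x)).const_mul _) ((int _ ψ q1 fun x => ab (q2 x)).const_mul _),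
      integral_add ((int _ φ p1 fun x => ab (p2 x)).const_mul _) ((int _ ψ q1 fun x => ab (q2 x)).const_mul _)]
    simp only [integral_const_mul]
    ring) (η ^ 2 * d) (by
    intro j ψ p1 p2 p3
    set k := Nat.pair (2 ^ h) j
    have hA : MeasurableSet {x | η < |ψ x|} := measurableSet_lt measurable_const p1.abs
    have : IsFiniteMeasure (lam k) := ⟨(h2 k _).trans_lt (by simp)⟩
    have pa : ∀ x, |(|ψ x|)| ≤ 1 := fun x => by simpa using p2 x
    have a1 : 1 ≤ ∫ x, |ψ x| ∂lam k := by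
      simp only [lam, SignedMeasure.totalVariation]
      rw [integral_add_measure (int _ _ p1.abs pa) (int _ _ p1.abs pa), ← p3]
      exact add_le_add ((le_abs_self _).trans abs_integral_le_integral_abs)
        ((neg_le_abs _).trans abs_integral_le_integral_abs)
    have a2 : ∫ x, |ψ x| ∂lam k ≤ (lam k).real {x | η < |ψ x|} + η * (lam k).real univ := by
      rw [← integral_indicator_one hA, mul_comm, ← smul_eq_mul, ← integral_const,
        ← integral_add ((integrable_const 1).indicator hA) (integrable_const _)]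
      refine integral_mono (int _ _ p1.abs pa) (((integrable_const 1).indicator hA).add (integrable_const _))
        fun x => ?_
      by_cases hx : η < |ψ x|
      · simp only [indicator_of_mem (show x ∈ {x | η < |ψ x|} from hx), Pi.one_apply]
        linarith [p2 x]
      · simp only [indicator_of_notMem (show x ∉ {x | η < |ψ x|} from hx)]
        linarith
    have a3 : η * (lam k).real univ ≤ 1 / 4 := by
      have : (lam k).real univ ≤ μ.bound := ENNReal.toReal_le_coe_of_le_coe (h2 k _)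
      rw [hη, div_mul_eq_mul_div, div_le_div_iff₀ (by positivity) (by positivity)]
      linarith
    have a4 : (d : ℝ) ≤ m.real {x | η < |ψ x|} := by
      by_contra hc
      have b1 : m {x | η < |ψ x|} < δ := by
        refine lt_trans ?_ hd
        rw [← ENNReal.toReal_lt_toReal (measure_ne_top _ _) (by simp)]
        exact not_le.1 hc
      have b2 : (lam k).real {x | η < |ψ x|} ≤ 4⁻¹ := by
        simpa [Measure.real] using ENNReal.toReal_mono (by simp) (h3 _ hA b1 k)
      linarith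
    have a5 := mul_meas_ge_le_integral_of_nonneg (μ := m) (f := fun x => ψ x ^ 2)
      (Eventually.of_forall fun x => sq_nonneg _) (int m _ (p1.pow_const 2) fun x => by simpa using p2 x) (η ^ 2)
    refine le_trans (mul_le_mul_of_nonneg_left (a4.trans (measureReal_mono fun x hx => ?_)) (sq_nonneg _)) a5
    exact (sq_le_sq (b := ψ x)).2 (by rw [abs_of_pos hη0]; exact le_of_lt hx)) (2 ^ h) E hE1 (by
    intro i hi j
    simp only [J]
    rw [integral_indicator_one (hE1 i), integral_indicator_one (hE1 i),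
      ← SignedMeasure.apply_eq_posPart_real_sub_negPart_real _ (hE1 i)]
    show ev _ (μ (E i)) = _
    rw [hE2 i hi]
    show xx _ _ _ = _
    simp [xx_apply]) h 0 (by omega)
  have h6 : 0 ≤ ∫ x, φ x ^ 2 ∂m := integral_nonneg fun x => sq_nonneg _
  rw [div_lt_iff₀ (by positivity)] at hh
  linarith

end Pool.Agent.S06000
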