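import Pool.Statements.S06006

set_option autoImplicit false
open MeasureTheory
open Pool Pool.MP_c09e54_an

namespace Pool.Agent.S06006

/-- A compact set of positive measure with empty interior. -/
theorem exists_fat : ∃ K : Set ℝ, IsCompact K ∧ interior K = ∅ ∧ 0 < volume K := by
  have hQ : volume (Set.range ((↑) : ℚ → ℝ)) = 0 :=
    (Set.countable_range _).measure_zero _
  obtain ⟨U, hQU, hU, hvol⟩ := (Set.range ((↑) : ℚ → ℝ)).exists_isOpen_lt_of_lt (μ := volume) 1
    (by rw [hQ]; exact zero_lt_one)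
  refine ⟨Set.Icc 0 1 \ U, isCompact_Icc.diff hU, ?_, ?_⟩
  · rw [Set.eq_empty_iff_forall_notMem]
    intro x hx
    have hd : Dense (Set.range ((↑) : ℚ → ℝ)) := Rat.denseRange_cast
    obtain ⟨y, hy1, hy2⟩ := hd.inter_open_nonempty _ isOpen_interior ⟨x, hx⟩
    exact (interior_subset hy1).2 (hQU hy2)
  · rw [pos_iff_ne_zero]
    intro h0
    have h1 : volume (Set.Icc (0:ℝ) 1) ≤ volume (Set.Icc (0:ℝ) 1 \ U) + volume U := by
      refine le_trans (measure_mono ?_) (measure_union_le _ _)
      intro x hx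
      by_cases hxU : x ∈ U
      · exact Or.inr hxU
      · exact Or.inl ⟨hx, hxU⟩
    rw [h0, zero_add] at h1
    simp at h1
    exact absurd hvol (not_lt.2 h1)

/-- The negation of the preceding statement: Any two bounded Lebesgue measurable subsets of the reals of equal measure become, after deleting null sets, equidecomposable: finitely many disjoint measurable pieces of one, moved by isometries of the line, exactly tile the other. -/
theorem result :
    ¬ (∀ A B : Set ℝ, NullMeasurableSet A volume → NullMeasurableSet B volume →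
      Bornology.IsBounded A → Bornology.IsBounded B → volume A = volume B →
      ∃ E₁ E₂ : Set ℝ, volume E₁ = 0 ∧ volume E₂ = 0 ∧
        ∃ (n : ℕ) (P : Fin n → Set ℝ) (f : Fin n → ℝ → ℝ),
          (∀ i, NullMeasurableSet (P i) volume) ∧
          (∀ i, Isometry (f i)) ∧
          Pairwise (fun i j => Disjoint (P i) (P j)) ∧
          Pairwise (fun i j => Disjoint (f i '' P i) (f j '' P j)) ∧
          (⋃ i, P i) = A \ E₁ ∧
          (⋃ i, f i '' P i) = B \ E₂) := by
  intro h
  obtain ⟨K, hK, hint, hpos⟩ := exists_fat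
  have hfin : volume K ≠ ⊤ := hK.measure_lt_top.ne
  set m : ℝ := (volume K).toReal with hm
  have hmpos : 0 < m := ENNReal.toReal_pos hpos.ne' hfin
  obtain ⟨E₁, E₂, h1, h2, n, P, f, hP, hf, -, -, hA, hB⟩ :=
    h K (Set.Ioo 0 m) hK.measurableSet.nullMeasurableSet measurableSet_Ioo.nullMeasurableSet
      hK.isBounded (Metric.isBounded_Ioo 0 m)
      (by rw [Real.volume_Ioo, sub_zero, hm, ENNReal.ofReal_toReal hfin])
  have hcl : ∀ i, IsClosed (f i '' K) := fun i => (hK.image (hf i).continuous).isClosed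
  have hden : ∀ i, Dense (f i '' K)ᶜ := by
    intro i
    rw [← interior_eq_empty_iff_dense_compl, Set.eq_empty_iff_forall_notMem]
    intro y hy
    obtain ⟨x, hx, rfl⟩ := interior_subset hy
    have hsub : (f i) ⁻¹' (interior (f i '' K)) ⊆ K := by
      intro z hz
      have := interior_subset hz
      rwa [(hf i).injective.mem_set_image] at this
    have hx' : x ∈ interior K :=
      interior_maximal hsub (isOpen_interior.preimage (hf i).continuous) hy
    rw [hint] at hx'
    exact hx'
  have hD : Dense (⋂ i, (f i '' K)ᶜ) :=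
    dense_iInter_of_isOpen (fun i => (hcl i).isOpen_compl) hden
  have hO : IsOpen (⋂ i, (f i '' K)ᶜ) := isOpen_iInter_of_finite (fun i => (hcl i).isOpen_compl)
  have hne : (Set.Ioo 0 m ∩ ⋂ i, (f i '' K)ᶜ).Nonempty :=
    hD.inter_open_nonempty _ isOpen_Ioo (Set.nonempty_Ioo.2 hmpos)
  have hp : 0 < volume (Set.Ioo 0 m ∩ ⋂ i, (f i '' K)ᶜ) :=
    (isOpen_Ioo.inter hO).measure_pos volume hne
  have hsub : (Set.Ioo 0 m ∩ ⋂ i, (f i '' K)ᶜ) ⊆ E₂ := by
    rintro y ⟨hy1, hy2⟩
    by_contra hyE
    have : y ∈ ⋃ i, f i '' P i := by rw [hB]; exact ⟨hy1, hyE⟩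
    obtain ⟨i, x, hx, rfl⟩ := Set.mem_iUnion.1 this
    have hxK : x ∈ K := by
      have : x ∈ ⋃ i, P i := Set.mem_iUnion.2 ⟨i, hx⟩
      rw [hA] at this
      exact this.1
    exact (Set.mem_iInter.1 hy2 i) ⟨x, hxK, rfl⟩
  have := measure_mono (μ := volume) hsub
  rw [h2] at this
  exact absurd hp (not_lt.2 this)

end Pool.Agent.S06006
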