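import Pool.Statements.S06028
import Pool.Agent.Lib.helper28.BerC

set_option autoImplicit false
open Pool Pool.MP_c1f8f0_an

namespace Pool.Agent.S06028

/-- The negation of the preceding statement: For all nonnegative subharmonic weights w, σ on the unit disc, f ↦ Bergman projection of fσ is bounded L²(σ)→L²(w) iff f ↦ positive Bergman operator of ∣f∣σ is, both tested on bounded f supported in a smaller disc. -/
theorem result :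
    ¬ (∀ w σ : ℂ → ℝ,
    ((∀ z ∈ Metric.ball (0:ℂ) 1, 0 ≤ w z) ∧ UpperSemicontinuousOn w (Metric.ball (0:ℂ) 1) ∧
      ∀ z : ℂ, ∀ r : ℝ, 0 < r → Metric.closedBall z r ⊆ Metric.ball (0:ℂ) 1 →
        w z ≤ (2 * Real.pi)⁻¹ *
          ∫ θ in (0:ℝ)..2 * Real.pi, w (z + (r:ℂ) * Complex.exp ((θ:ℂ) * Complex.I))) →
    ((∀ z ∈ Metric.ball (0:ℂ) 1, 0 ≤ σ z) ∧ UpperSemicontinuousOn σ (Metric.ball (0:ℂ) 1) ∧
      ∀ z : ℂ, ∀ r : ℝ, 0 < r → Metric.closedBall z r ⊆ Metric.ball (0:ℂ) 1 →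
        σ z ≤ (2 * Real.pi)⁻¹ *
          ∫ θ in (0:ℝ)..2 * Real.pi, σ (z + (r:ℂ) * Complex.exp ((θ:ℂ) * Complex.I))) →
    ((∃ C : NNReal, ∀ f : ℂ → ℂ, Measurable f → (∃ M : ℝ, ∀ z, ‖f z‖ ≤ M) →
        (∃ s : ℝ, s < 1 ∧ ∀ z : ℂ, s < ‖z‖ → f z = 0) →
        ∫⁻ z in Metric.ball (0:ℂ) 1,
            ‖∫ ζ in Metric.ball (0:ℂ) 1,
                f ζ * (σ ζ : ℂ) / (1 - z * starRingEnd ℂ ζ) ^ 2‖ₑ ^ 2 * ENNReal.ofReal (w z)
          ≤ (C : ENNReal) * ∫⁻ ζ in Metric.ball (0:ℂ) 1, ‖f ζ‖ₑ ^ 2 * ENNReal.ofReal (σ ζ)) ↔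
     (∃ C : NNReal, ∀ f : ℂ → ℂ, Measurable f → (∃ M : ℝ, ∀ z, ‖f z‖ ≤ M) →
        (∃ s : ℝ, s < 1 ∧ ∀ z : ℂ, s < ‖z‖ → f z = 0) →
        ∫⁻ z in Metric.ball (0:ℂ) 1,
            (∫⁻ ζ in Metric.ball (0:ℂ) 1,
                ‖f ζ‖ₑ * ENNReal.ofReal (σ ζ) / ‖1 - z * starRingEnd ℂ ζ‖ₑ ^ 2) ^ 2
              * ENNReal.ofReal (w z)
          ≤ (C : ENNReal) * ∫⁻ ζ in Metric.ball (0:ℂ) 1, ‖f ζ‖ₑ ^ 2 * ENNReal.ofReal (σ ζ)))) := by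
  intro H
  obtain ⟨N, hN⟩ := H28Ber.unbdd
  obtain ⟨C, hC⟩ := (H H28Ber.w (H28Ber.sg N)
    ⟨fun z hz => (H28Ber.w_pos hz).le, H28Ber.w_cont.upperSemicontinuousOn, H28Ber.w_sub⟩
    ⟨fun z hz => (H28Ber.sg_pos N hz).le, (H28Ber.sg_cont N).upperSemicontinuousOn,
      H28Ber.sg_sub N⟩).1 ⟨40, H28Ber.bdd N⟩
  refine hN ⟨C, fun f h1 h2 h3 => le_trans ?_ (hC f h1 h2 h3)⟩
  refine MeasureTheory.setLIntegral_mono' measurableSet_ball fun z hz => ?_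
  refine mul_le_mul_left (pow_le_pow_left₀ (by positivity)
    ((MeasureTheory.enorm_integral_le_lintegral_enorm _).trans ?_) 2) _
  refine MeasureTheory.setLIntegral_mono' measurableSet_ball fun ζ hζ => le_of_eq ?_
  have h0 : 0 < ‖1 - z * starRingEnd ℂ ζ‖ := by
    have := norm_sub_norm_le 1 (z * starRingEnd ℂ ζ)
    rw [norm_one, norm_mul, Complex.norm_conj] at this
    nlinarith [mem_ball_zero_iff.1 hζ, mem_ball_zero_iff.1 hz, norm_nonneg z, norm_nonneg ζ]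
  rw [← ofReal_norm, ← ofReal_norm, ← ofReal_norm, norm_div, norm_mul, Complex.norm_real,
    Complex.norm_real, Real.norm_of_nonneg (H28Ber.sg_pos N hζ).le,
    Real.norm_of_nonneg (by positivity), ENNReal.ofReal_div_of_pos (by positivity),
    ENNReal.ofReal_mul (norm_nonneg _), ENNReal.ofReal_pow (norm_nonneg _)]

end Pool.Agent.S06028
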