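import Pool.Statements.S06045
import Pool.Agent.Lib.helper3.CKD

set_option autoImplicit false
open Filter Topology
open Pool Pool.MP_c3b115_an

namespace Pool.Agent.S06045

/-- There exist complex sequences c, t with t nonzero, t tending to infinity, and sum ∣c_n∣/∣t_n∣^2 finite, such that f(z)=sum c_n/(z-t_n)^2 has infinite Nevanlinna order and only finitely many zeros. -/
theorem result :
    ∃ (c t : ℕ → ℂ), (∀ n, t n ≠ 0) ∧ Tendsto t atTop (cocompact ℂ) ∧
      Summable (fun n => ‖c n‖ / ‖t n‖ ^ 2) ∧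
      (∀ ρ : ℝ, ∀ R : ℝ, ∃ r > R,
        r ^ ρ < ValueDistribution.characteristic
          (fun z : ℂ => ∑' n, c n / (z - t n) ^ 2) ⊤ r) ∧
      {z : ℂ | 0 < meromorphicOrderAt (fun w : ℂ => ∑' n, c n / (w - t n) ^ 2) z}.Finite := by
  exact Pool.Agent.Lib.H3CK.main_thm

end Pool.Agent.S06045
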