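import Pool.Statements.S06057

set_option autoImplicit false
open Pool Pool.MP_c42e77_an

namespace Pool.Agent.S06057

open Set Filter Topology

noncomputable section

/-- agreement below a level -/
def Agr (m : ℕ) (a b : ℕ → Bool) : Prop := ∀ i < m, a i = b i

lemma cond (S : Set (ℕ → Bool)) (hS : ¬ S.Countable) :
    ∃ C ⊆ S, C.Nonempty ∧ ∀ a ∈ C, ∀ m, ∃ b ∈ C, b ≠ a ∧ Agr m a b := by
  set C := {a ∈ S | ∀ m, ¬ {b ∈ S | Agr m a b}.Countable} with hC
  have hbad : (S \ C).Countable := by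
    have : S \ C ⊆ ⋃ m : ℕ, ⋃ p : Fin m → Bool,
        ⋃ _h : {b ∈ S | ∀ i : Fin m, p i = b i}.Countable, {b ∈ S | ∀ i : Fin m, p i = b i} := by
      rintro a ⟨ha, hn⟩
      simp only [hC, mem_ofPred_eq, not_and, not_forall, not_not] at hn
      obtain ⟨m, hm⟩ := hn ha
      simp only [mem_iUnion]
      refine ⟨m, fun i => a i, hm.mono ?_, ha, fun _ => rfl⟩
      rintro b ⟨hb, hb'⟩
      exact ⟨hb, fun i hi => hb' ⟨i, hi⟩⟩
    refine Set.Countable.mono this ?_
    refine countable_iUnion fun m => countable_iUnion fun p => ?_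
    by_cases h : {b ∈ S | ∀ i : Fin m, p i = b i}.Countable
    · exact h.mono (iUnion_subset fun _ => Subset.rfl)
    · simp [h]
  refine ⟨C, fun a ha => ha.1, ?_, ?_⟩
  · by_contra hne
    rw [not_nonempty_iff_eq_empty] at hne
    rw [hne, sdiff_empty] at hbad
    exact hS hbad
  · intro a ha m
    by_contra hc
    push Not at hc
    apply ha.2 m
    refine (hbad.insert a).mono ?_
    rintro b ⟨hb, hb'⟩
    by_cases hbC : b ∈ C
    · left
      by_contra hne
      exact hc b hbC hne hb'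
    · exact Or.inr ⟨hb, hbC⟩

structure St (C : Set (ℕ → Bool)) where
  c : (ℕ → Bool) → (ℕ → Bool)
  m : ℕ
  r : ℝ
  hr : 0 < r
  fin : (range c).Finite
  mem : ∀ β, c β ∈ C

lemma step {C : Set (ℕ → Bool)} (hC : ∀ a ∈ C, ∀ m, ∃ b ∈ C, b ≠ a ∧ Agr m a b)
    (U : Ultrafilter ℕ) (hU : (U : Filter ℕ) ≤ atTop) (v : Bool)
    (hv : ∀ a ∈ C, ∀ᶠ n in (U : Filter ℕ), a n = v)
    (x : ℕ → ℝ) (hx : ∀ n, 0 < x n) (hx0 : Tendsto x atTop (𝓝 0)) (k : ℕ) (s : St C) :
    ∃ p : St C × ℕ, s.m ≤ p.2 ∧ p.2 < p.1.m ∧ x p.2 < s.r ∧ p.1.r = x p.2 / 3 ∧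
      (∀ β, s.c β p.2 = v) ∧ (∀ β, Agr (p.2 + 1) (s.c β) (p.1.c β)) ∧
      (∀ β β', s.c β = s.c β' → β k = β' k → p.1.c β = p.1.c β') ∧
      (∀ β β', s.c β = s.c β' → β k ≠ β' k → ¬ Agr p.1.m (p.1.c β) (p.1.c β')) := by
  have h1 : ∀ᶠ n in (U : Filter ℕ), ∀ a ∈ range s.c, a n = v := by
    rw [eventually_all_finite s.fin]
    rintro _ ⟨β, rfl⟩
    exact hv _ (s.mem β)
  have h2 : ∀ᶠ n in (U : Filter ℕ), s.m ≤ n := hU (eventually_ge_atTop _)
  have h3 : ∀ᶠ n in (U : Filter ℕ), x n < s.r := hU (hx0.eventually (gt_mem_nhds s.hr))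
  obtain ⟨n, hn1, hn2, hn3⟩ := (h1.and (h2.and h3)).exists
  have h4 : ∀ a : ℕ → Bool, ∃ b d, a ∈ C → b ∈ C ∧ Agr (n + 1) a b ∧ a d ≠ b d := by
    intro a
    by_cases ha : a ∈ C
    · obtain ⟨b, hb, hne, hag⟩ := hC a ha (n + 1)
      obtain ⟨d, hd⟩ := Function.ne_iff.1 hne
      exact ⟨b, d, fun _ => ⟨hb, hag, hd.symm⟩⟩
    · exact ⟨a, 0, fun h => absurd h ha⟩
  choose tw d htw using h4
  obtain ⟨M, hM⟩ := (s.fin.image d).bddAbove
  have hM' : ∀ β, d (s.c β) ≤ M := fun β => hM ⟨_, ⟨β, rfl⟩, rfl⟩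
  refine ⟨(⟨fun β => if β k then tw (s.c β) else s.c β, max (n + 1) (M + 1), x n / 3,
    by have := hx n; positivity, ?_, ?_⟩, n), hn2, ?_, hn3, rfl, fun β => hn1 _ ⟨β, rfl⟩,
    ?_, ?_, ?_⟩
  · refine (s.fin.union (s.fin.image tw)).subset ?_
    rintro _ ⟨β, rfl⟩
    simp only
    split_ifs
    · exact Or.inr ⟨_, ⟨β, rfl⟩, rfl⟩
    · exact Or.inl ⟨β, rfl⟩
  · intro β
    split_ifs
    · exact (htw _ (s.mem β)).1
    · exact s.mem β
  · simp
  · intro β
    simp only
    split_ifs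
    · exact (htw _ (s.mem β)).2.1
    · intro i _; rfl
  · intro β β' h h'
    simp only [h, h']
  · intro β β' h h' hag
    have h5 := hag (d (s.c β)) (lt_max_of_lt_right (Nat.lt_succ_of_le (hM' β)))
    have h6 := (htw _ (s.mem β)).2.2
    simp only [← h] at h5
    cases hb : β k <;> cases hb' : β' k <;> simp_all

lemma fusion (T : Set (ℕ → Bool)) (hT : IsClosed T) (hunc : ¬ T.Countable)
    (x : ℕ → ℝ) (hx : ∀ n, 0 < x n) (hx0 : Tendsto x atTop (𝓝 0)) :
    ∃ (v : Bool) (n : ℕ → ℕ) (φ : (ℕ → Bool) → (ℕ → Bool)), StrictMono n ∧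
      (∀ k, x (n (k + 1)) < x (n k) / 3) ∧ Function.Injective φ ∧ (∀ β, φ β ∈ T) ∧
      ∀ β k, φ β (n k) = v := by
  let U := hyperfilter ℕ
  have hU : (U : Filter ℕ) ≤ atTop := by rw [← Nat.cofinite_eq_atTop]; exact hyperfilter_le_cofinite
  have hv : ∃ v : Bool, ¬ {a ∈ T | ∀ᶠ n in (U : Filter ℕ), a n = v}.Countable := by
    by_contra hc
    push Not at hc
    apply hunc
    refine ((hc true).union (hc false)).mono fun a ha => ?_
    by_cases h : ∀ᶠ n in (U : Filter ℕ), a n = true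
    · exact Or.inl ⟨ha, h⟩
    · refine Or.inr ⟨ha, ?_⟩
      rw [← Ultrafilter.eventually_not] at h
      exact h.mono fun n hn => by simpa using hn
  obtain ⟨v, hv⟩ := hv
  obtain ⟨C, hCS, ⟨a0, ha0⟩, hC⟩ := cond _ hv
  choose f hf using step hC U hU v (fun a ha => (hCS ha).2) x hx hx0
  let s : ℕ → St C := fun k => Nat.rec ⟨fun _ => a0, 0, 1, one_pos, by simp, fun _ => ha0⟩
    (fun k s => (f k s).1) k
  have hs : ∀ k, s (k + 1) = (f k (s k)).1 := fun k => rfl
  let n : ℕ → ℕ := fun k => (f k (s k)).2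
  have h1 : ∀ k, (s k).m ≤ n k := fun k => (hf k (s k)).1
  have h2 : ∀ k, n k < (s (k + 1)).m := fun k => (hf k (s k)).2.1
  have hmono : StrictMono fun k => (s k).m :=
    strictMono_nat_of_lt_succ fun k => (h1 k).trans_lt (h2 k)
  have hag1 : ∀ k β, Agr (n k + 1) ((s k).c β) ((s (k + 1)).c β) :=
    fun k => (hf k (s k)).2.2.2.2.2.1
  have hag : ∀ β k l, k ≤ l → Agr (s k).m ((s k).c β) ((s l).c β) := by
    intro β k l hkl
    induction l, hkl using Nat.le_induction with
    | base => intro i _; rfl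
    | succ l hl ih =>
      intro i hi
      rw [ih i hi]
      have := hmono.monotone hl
      have := h1 l
      exact hag1 l β i (by omega)
  let φ : (ℕ → Bool) → (ℕ → Bool) := fun β i => (s (i + 1)).c β i
  have hφ : ∀ β k, Agr (s k).m ((s k).c β) (φ β) := by
    intro β k i hi
    have h3 : i < (s (i + 1)).m := lt_of_lt_of_le (Nat.lt_succ_self i) (hmono.le_apply)
    rw [hag β k (max k (i + 1)) (le_max_left _ _) i hi]
    exact (hag β (i + 1) (max k (i + 1)) (le_max_right _ _) i h3).symm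
  refine ⟨v, n, φ, strictMono_nat_of_lt_succ fun k => (h2 k).trans_le (h1 (k + 1)), fun k => ?_,
    ?_, fun β => ?_, fun β k => ?_⟩
  · have h3 := (hf (k + 1) (s (k + 1))).2.2.1
    have h4 := (hf k (s k)).2.2.2.1
    rw [hs k, h4] at h3
    exact h3
  · intro β β' h
    have key : ∀ k, (∀ i < k, β i = β' i) ∧ (s k).c β = (s k).c β' := by
      intro k
      induction k with
      | zero => exact ⟨fun i hi => absurd hi (Nat.not_lt_zero _), rfl⟩
      | succ k ih =>
        have hk : β k = β' k := by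
          by_contra hne
          apply (hf k (s k)).2.2.2.2.2.2.2 β β' ih.2 hne
          intro i hi
          rw [← hs k] at hi ⊢
          rw [hφ β (k + 1) i hi, hφ β' (k + 1) i hi, h]
        refine ⟨fun i hi => ?_, (hf k (s k)).2.2.2.2.2.2.1 β β' ih.2 hk⟩
        rcases Nat.lt_succ_iff_lt_or_eq.1 hi with h | rfl
        · exact ih.1 i h
        · exact hk
    funext i
    exact (key (i + 1)).1 i (Nat.lt_succ_self i)
  · refine hT.mem_of_tendsto (f := fun k => (s k).c β) (b := atTop) ?_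
      (Eventually.of_forall fun k => (hCS ((s k).mem β)).1)
    rw [tendsto_pi_nhds]
    intro i
    apply tendsto_const_nhds.congr'
    filter_upwards [eventually_gt_atTop i] with k hk
    exact (hφ β k i (lt_of_lt_of_le hk hmono.le_apply)).symm
  · rw [← hφ β (k + 1) _ (h2 k), ← hag1 k β _ (Nat.lt_succ_self _)]
    exact (hf k (s k)).2.2.2.2.1 β

def F (x : ℕ → ℝ) (e : ℕ → Bool) : ℝ := ∑' n, if e n then x n else 0

lemma bd {x : ℕ → ℝ} (hx : ∀ n, 0 < x n) (e : ℕ → Bool) (n : ℕ) :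
    ‖(if e n then x n else 0 : ℝ)‖ ≤ x n := by
  split_ifs
  · rw [Real.norm_eq_abs, abs_of_pos (hx n)]
  · simp [(hx n).le]

lemma F_summ {x : ℕ → ℝ} (hx : ∀ n, 0 < x n) (hs : Summable x) (e : ℕ → Bool) :
    Summable fun n => (if e n then x n else 0 : ℝ) := Summable.of_norm_bounded hs (bd hx e)

lemma F_cont {x : ℕ → ℝ} (hx : ∀ n, 0 < x n) (hs : Summable x) : Continuous (F x) := by
  refine continuous_tsum (fun n => ?_) hs (fun n e => bd hx e n)
  exact (continuous_of_discreteTopology (f := fun b : Bool => if b then x n else 0)).comp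
    (continuous_apply n)

lemma F_inj {y : ℕ → ℝ} (hy : ∀ n, 0 < y n) (hs : Summable y) (h3 : ∀ k, y (k + 1) < y k / 3) :
    Function.Injective (F y) := by
  have tail : ∀ k (e : ℕ → Bool), 0 ≤ ∑' i, (if e (i + (k + 1)) then y (i + (k + 1)) else 0 : ℝ) ∧
      ∑' i, (if e (i + (k + 1)) then y (i + (k + 1)) else 0 : ℝ) < y k := by
    intro k e
    refine ⟨tsum_nonneg fun i => by split_ifs; exacts [(hy _).le, le_rfl], ?_⟩
    have hb : ∀ i, y (i + (k + 1)) ≤ y k / 3 * (1 / 3) ^ i := by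
      intro i
      induction i with
      | zero => simpa using (h3 k).le
      | succ i ih =>
        have := h3 (i + (k + 1))
        rw [show i + 1 + (k + 1) = i + (k + 1) + 1 by ring, pow_succ]
        linarith
    have hg : HasSum (fun i : ℕ => y k / 3 * (1 / 3 : ℝ) ^ i) (y k / 3 * (1 - 1 / 3)⁻¹) :=
      (hasSum_geometric_of_lt_one (by norm_num) (by norm_num)).mul_left _
    have := tsum_of_norm_bounded hg
      (f := fun i => (if e (i + (k + 1)) then y (i + (k + 1)) else 0 : ℝ))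
      (fun i => (bd hy e _).trans (hb i))
    have h4 := (le_abs_self _).trans this
    have := hy k
    linarith
  intro e e' h
  funext k
  induction k using Nat.strong_induction_on with
  | _ k ih =>
    unfold F at h
    rw [← (F_summ hy hs e).sum_add_tsum_nat_add (k + 1),
      ← (F_summ hy hs e').sum_add_tsum_nat_add (k + 1), Finset.sum_range_succ,
      Finset.sum_range_succ, Finset.sum_congr rfl
        (fun i hi => by rw [ih i (Finset.mem_range.1 hi)])] at h
    have t1 := tail k e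
    have t2 := tail k e'
    cases h1 : e k <;> cases h2 : e' k <;> simp only [h1, h2] at h ⊢ <;> simp at h <;> linarith

open Classical in
/-- overwrite the coordinates `n k` by the values of `g` -/
def ow (n : ℕ → ℕ) (g e : ℕ → Bool) : ℕ → Bool := Function.extend n g e

lemma F_ow {x : ℕ → ℝ} (hx : ∀ n, 0 < x n) (hs : Summable x) {n : ℕ → ℕ}
    (hn : Function.Injective n) (g e : ℕ → Bool) :
    F x (ow n g e) = F (x ∘ n) g + F x (ow n (fun _ => false) e) := by
  have h1 : F (x ∘ n) g = ∑' i, (if ow n g (fun _ => false) i then x i else 0 : ℝ) := by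
    unfold F
    rw [← hn.tsum_eq (f := fun i => (if ow n g (fun _ => false) i then x i else 0 : ℝ))]
    · simp [ow, hn.extend_apply]
    · intro i hi
      by_contra hc
      apply hi
      have : ow n g (fun _ => false) i = false := Function.extend_apply' _ _ _ hc
      simp [this]
  rw [h1]
  unfold F
  rw [← (F_summ hx hs _).tsum_add (F_summ hx hs _)]
  apply tsum_congr
  intro i
  by_cases hi : ∃ k, n k = i
  · obtain ⟨k, rfl⟩ := hi
    simp [ow, hn.extend_apply]
  · simp [ow, Function.extend_apply' _ _ _ hi]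

end

theorem result :
    ∀ x : ℕ → ℝ, (∀ n, 0 < x n) → Summable x →
      ({t : ℝ | Cardinal.mk (↥{ε : ℕ → Bool | (∑' n, if ε n then x n else 0) = t})
            = Cardinal.continuum} = ∅ ∨
        ∃ C : Set ℝ,
          C ⊆ {t : ℝ | Cardinal.mk (↥{ε : ℕ → Bool | (∑' n, if ε n then x n else 0) = t})
                = Cardinal.continuum} ∧
          Nonempty (C ≃ₜ (ℕ → Bool))) := by
  intro x hx hs
  by_cases hE : {t : ℝ | Cardinal.mk (↥{ε : ℕ → Bool | (∑' n, if ε n then x n else 0) = t})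
      = Cardinal.continuum} = ∅
  · exact Or.inl hE
  right
  obtain ⟨t, ht⟩ := Set.nonempty_iff_ne_empty.2 hE
  have hT : IsClosed {ε : ℕ → Bool | F x ε = t} := isClosed_eq (F_cont hx hs) continuous_const
  have hunc : ¬ {ε : ℕ → Bool | F x ε = t}.Countable := by
    rw [← Cardinal.le_aleph0_iff_set_countable, not_le]
    have : Cardinal.mk (↥{ε : ℕ → Bool | F x ε = t}) = Cardinal.continuum := ht
    rw [this]; exact Cardinal.aleph0_lt_continuum
  obtain ⟨v, n, φ, hn, h3, hφ, hφT, hv⟩ := fusion _ hT hunc x hx hs.tendsto_atTop_zero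
  have hsy : Summable (x ∘ n) := hs.comp_injective hn.injective
  have hy : ∀ k, 0 < (x ∘ n) k := fun k => hx _
  have hself : ∀ β, ow n (fun _ => v) (φ β) = φ β := by
    intro β
    funext i
    by_cases hi : ∃ k, n k = i
    · obtain ⟨k, rfl⟩ := hi
      simp [ow, hn.injective.extend_apply, hv]
    · simp [ow, Function.extend_apply' _ _ _ hi]
  have hval : ∀ g β, F x (ow n g (φ β)) = F (x ∘ n) g + (t - F (x ∘ n) (fun _ => v)) := by
    intro g β
    have h1 := F_ow hx hs hn.injective (fun _ => v) (φ β)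
    rw [hself, hφT β] at h1
    rw [F_ow hx hs hn.injective, h1]; ring
  let G : (ℕ → Bool) → ℝ := fun g => F (x ∘ n) g + (t - F (x ∘ n) (fun _ => v))
  have hG : Topology.IsEmbedding G :=
    (((F_cont hy hsy).add continuous_const).isClosedEmbedding
      (fun a b h => F_inj hy hsy h3 (add_right_cancel h))).isEmbedding
  refine ⟨Set.range G, ?_, ⟨hG.toHomeomorph.symm⟩⟩
  rintro _ ⟨g, rfl⟩
  have hc : Cardinal.mk (ℕ → Bool) = Cardinal.continuum := by simp
  apply le_antisymm
  · rw [← hc]; exact Cardinal.mk_set_le _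
  · rw [← hc]
    refine Cardinal.mk_le_of_injective (f := fun β => ⟨ow n g (φ β), hval g β⟩) ?_
    intro β β' h
    apply hφ
    have h1 : ow n g (φ β) = ow n g (φ β') := congrArg Subtype.val h
    funext i
    by_cases hi : ∃ k, n k = i
    · obtain ⟨k, rfl⟩ := hi
      rw [hv, hv]
    · have := congrFun h1 i
      simpa [ow, Function.extend_apply' _ _ _ hi] using this

end Pool.Agent.S06057
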