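import Pool.Statements.S06071
-- import your own Pool.Agent.* helpers here

set_option autoImplicit false
open Pool Pool.MP_c4f5bb_an

namespace Pool.Agent.S06071

open Set

section
variable {X : Type} [NormedAddCommGroup X] [NormedSpace ℝ X]
variable {ι κ : Type} [Fintype ι] [Fintype κ]

def conn (x : ι → X) (t : ℝ) (i j : ι) : Prop :=
  Relation.ReflTransGen (fun a b => dist (x a) (x b) ≤ t) i j

noncomputable def um (x : ι → X) (i j : ι) : ℝ := sInf {t | 0 ≤ t ∧ conn x t i j}

noncomputable def del (x : ι → X) : ℝ := sInf {t | ∃ i j, i ≠ j ∧ t = dist (x i) (x j)}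

noncomputable def wt (x : ι → X) (i j : ι) : ℝ := max 0 (min (del x) (2 * del x - um x i j))

noncomputable def mv (x : ι → X) (i : ι) : X :=
  (∑ j, wt x i j)⁻¹ • ∑ j, wt x i j • (x j - x i)

omit [NormedSpace ℝ X] [Fintype ι] in
theorem um_ne (x : ι → X) (i j : ι) : {t | 0 ≤ t ∧ conn x t i j}.Nonempty :=
  ⟨dist (x i) (x j), dist_nonneg, Relation.ReflTransGen.single le_rfl⟩

omit [NormedSpace ℝ X] [Fintype ι] in
theorem um_le (x : ι → X) (i j : ι) (t : ℝ) (h0 : 0 ≤ t) (h : conn x t i j) : um x i j ≤ t :=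
  csInf_le ⟨0, fun _ h => h.1⟩ ⟨h0, h⟩

omit [NormedSpace ℝ X] [Fintype ι] in
theorem conn_mono (x : ι → X) {s t : ℝ} (h : s ≤ t) {i j : ι} (hc : conn x s i j) :
    conn x t i j := Relation.ReflTransGen.mono (fun _ _ h' => le_trans h' h) _ _ hc

omit [NormedSpace ℝ X] [Fintype ι] in
theorem conn_of_lt (x : ι → X) {i j : ι} {t : ℝ} (h : um x i j < t) : conn x t i j := by
  obtain ⟨s, hs, hst⟩ := exists_lt_of_csInf_lt (um_ne x i j) h
  exact conn_mono x hst.le hs.2

omit [NormedSpace ℝ X] [Fintype ι] in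
theorem um_nonneg (x : ι → X) (i j : ι) : 0 ≤ um x i j := le_csInf (um_ne x i j) fun _ h => h.1

omit [NormedSpace ℝ X] [Fintype ι] [Fintype κ] in
theorem um_lip (x : ι → X) (y : κ → X) (e : ι → κ) (ε : ℝ) (hε : 0 ≤ ε)
    (h : ∀ i, dist (x i) (y (e i)) ≤ ε) (i j : ι) : um y (e i) (e j) ≤ um x i j + 2 * ε := by
  rw [← sub_le_iff_le_add]
  refine le_csInf (um_ne x i j) fun t ht => ?_
  rw [sub_le_iff_le_add]
  refine um_le y _ _ _ (by linarith [ht.1]) (Relation.ReflTransGen.lift e (fun a b hab => ?_) _ _ ht.2)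
  show dist (y (e a)) (y (e b)) ≤ _
  have := dist_triangle4 (y (e a)) (x a) (x b) (y (e b))
  linarith [h a, h b, dist_comm (y (e a)) (x a)]

omit [NormedSpace ℝ X] in
theorem del_fin (x : ι → X) : {t | ∃ i j, i ≠ j ∧ t = dist (x i) (x j)}.Finite :=
  (finite_range fun p : ι × ι => dist (x p.1) (x p.2)).subset
    (by rintro _ ⟨i, j, -, rfl⟩; exact ⟨(i, j), rfl⟩)

omit [NormedSpace ℝ X] in
theorem del_le (x : ι → X) {i j : ι} (h : i ≠ j) : del x ≤ dist (x i) (x j) :=
  csInf_le (del_fin x).bddBelow ⟨i, j, h, rfl⟩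

omit [NormedSpace ℝ X] in
theorem del_att [Nontrivial ι] (x : ι → X) : ∃ i j, i ≠ j ∧ del x = dist (x i) (x j) := by
  obtain ⟨i, j, h⟩ := exists_pair_ne ι
  exact Set.Nonempty.csInf_mem (s := {t | ∃ i j, i ≠ j ∧ t = dist (x i) (x j)})
    ⟨_, i, j, h, rfl⟩ (del_fin x)

omit [NormedSpace ℝ X] in
theorem del_lip [Nontrivial ι] (x : ι → X) (y : κ → X) (e : ι → κ) (he : Function.Injective e)
    (ε : ℝ) (h : ∀ i, dist (x i) (y (e i)) ≤ ε) : del y ≤ del x + 2 * ε := by
  obtain ⟨a, b, hab, hd⟩ := del_att x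
  have h1 := del_le y (he.ne hab)
  have := dist_triangle4 (y (e a)) (x a) (x b) (y (e b))
  linarith [h a, h b, dist_comm (y (e a)) (x a)]

omit [NormedSpace ℝ X] in
theorem conn_dist (x : ι → X) (t : ℝ) (ht : 0 < t) {i j : ι} (h : conn x t i j) :
    dist (x i) (x j) ≤ Fintype.card ι * t := by
  classical
  have h1 : ∃ k : ℕ, k ≤ Fintype.card ι ∧
      ∀ z, ¬ ((k : ℝ) * t < dist (x i) (x z) ∧ dist (x i) (x z) ≤ (k + 1) * t) := by
    by_contra hc
    push Not at hc
    choose f hf using fun k : Fin (Fintype.card ι + 1) => hc k (Nat.lt_succ_iff.mp k.2)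
    have hinj : Function.Injective f := by
      intro a b hab
      have a1 := hf a
      have b1 := hf b
      rw [hab] at a1
      have c1 : (a : ℝ) < (b : ℝ) + 1 := lt_of_mul_lt_mul_right (a1.1.trans_le b1.2) ht.le
      have c2 : (b : ℝ) < (a : ℝ) + 1 := lt_of_mul_lt_mul_right (b1.1.trans_le a1.2) ht.le
      have d1 : (a : ℕ) < b + 1 := by exact_mod_cast c1
      have d2 : (b : ℕ) < a + 1 := by exact_mod_cast c2
      exact Fin.ext (by omega)
    have := Fintype.card_le_of_injective f hinj
    simp at this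
  obtain ⟨k, hk, H⟩ := h1
  have h2 : dist (x i) (x j) ≤ k * t := by
    induction h with
    | refl => rw [dist_self]; positivity
    | tail _ hbc ih =>
      by_contra hc
      refine H _ ⟨not_le.mp hc, (dist_triangle _ _ _).trans ((add_le_add ih hbc).trans_eq ?_)⟩
      ring
  exact h2.trans (mul_le_mul_of_nonneg_right (by exact_mod_cast hk) ht.le)

omit [NormedSpace ℝ X] [Fintype ι] in
theorem wt_nonneg (x : ι → X) (i j : ι) : 0 ≤ wt x i j := le_max_left _ _

omit [NormedSpace ℝ X] in
theorem wt_sum (x : ι → X) (hd : 0 < del x) (i : ι) : del x ≤ ∑ j, wt x i j := by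
  refine le_trans ?_ (Finset.single_le_sum (fun j _ => wt_nonneg x i j) (Finset.mem_univ i))
  have : um x i i ≤ 0 := um_le x i i 0 le_rfl Relation.ReflTransGen.refl
  exact le_max_of_le_right (le_min le_rfl (by linarith))

omit [NormedSpace ℝ X] in
theorem wt_dist (x : ι → X) (hd : 0 < del x) {i j : ι} (h : wt x i j ≠ 0) :
    ‖x j - x i‖ ≤ Fintype.card ι * (2 * del x) := by
  rw [← dist_eq_norm, dist_comm]
  refine conn_dist x _ (by linarith) (conn_of_lt x ?_)
  by_contra hc
  exact h (max_eq_left ((min_le_right _ _).trans (by linarith)))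

theorem mv_le (x : ι → X) (hd : 0 < del x) (i : ι) :
    ‖mv x i‖ ≤ Fintype.card ι * (2 * del x) := by
  have hs : 0 < ∑ j, wt x i j := hd.trans_le (wt_sum x hd i)
  rw [mv, norm_smul, norm_inv, Real.norm_eq_abs, abs_of_pos hs, inv_mul_le_iff₀ hs,
    Finset.sum_mul]
  refine (norm_sum_le _ _).trans (Finset.sum_le_sum fun j _ => ?_)
  rw [norm_smul, Real.norm_eq_abs, abs_of_nonneg (wt_nonneg x i j)]
  by_cases h : wt x i j = 0
  · simp [h]
  · exact mul_le_mul_of_nonneg_left (wt_dist x hd h) (wt_nonneg x i j)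

theorem mv_eq (x : ι → X) (hd : 0 < del x) (i : ι) :
    x i + mv x i = (∑ j, wt x i j)⁻¹ • ∑ j, wt x i j • x j := by
  have hs : 0 < ∑ j, wt x i j := hd.trans_le (wt_sum x hd i)
  simp only [mv, smul_sub, Finset.sum_sub_distrib, ← Finset.sum_smul, smul_smul,
    inv_mul_cancel₀ hs.ne', one_smul]
  abel

theorem collapse [Nontrivial ι] (x : ι → X) (hd : 0 < del x) :
    ¬ Function.Injective fun i => x i + mv x i := by
  obtain ⟨a, b, hab, h⟩ := del_att x
  intro hinj
  apply hab
  apply hinj
  have key : ∀ a b : ι, dist (x a) (x b) = del x → ∀ j, wt x b j ≤ wt x a j := by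
    intro a b h j
    have h1 : um x a j ≤ max (del x) (um x b j) := by
      refine le_of_forall_gt_imp_ge_of_dense fun t ht => ?_
      rw [max_lt_iff] at ht
      exact um_le x a j t (by linarith [ht.1])
        (Relation.ReflTransGen.head (h.trans_le ht.1.le) (conn_of_lt x ht.2))
    refine max_le_max le_rfl (le_min (min_le_left _ _) ?_)
    rcases le_max_iff.mp h1 with h2 | h2
    · exact (min_le_left _ _).trans (by linarith)
    · exact (min_le_right _ _).trans (by linarith)
  have : wt x a = wt x b := funext fun j =>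
    le_antisymm (key b a (by rw [dist_comm, h]) j) (key a b h.symm j)
  show x a + mv x a = x b + mv x b
  rw [mv_eq x hd, mv_eq x hd, this]

theorem mv_lip [Nontrivial ι] [Nontrivial κ] (x : ι → X) (y : κ → X) (e : ι ≃ κ) (ε : ℝ)
    (hε : 0 ≤ ε) (hd : 4 * ε < del x) (h : ∀ i, dist (x i) (y (e i)) ≤ ε) (i : ι) :
    dist (x i + mv x i) (y (e i) + mv y (e i)) ≤ (3 + 36 * (Fintype.card ι : ℝ) ^ 2) * ε := by
  have h' : ∀ k, dist (y k) (x (e.symm k)) ≤ ε := fun k => by
    rw [dist_comm]; simpa using h (e.symm k)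
  have d1 := del_lip x y e e.injective ε h
  have d2 := del_lip y x e.symm e.symm.injective ε h'
  have hx : 0 < del x := by linarith
  have hy : 0 < del y := by linarith
  have hN : (1 : ℝ) ≤ Fintype.card ι := by exact_mod_cast Fintype.card_pos
  have hc : (Fintype.card κ : ℝ) = Fintype.card ι := by rw [Fintype.card_congr e]
  have hw : ∀ j, |wt x i j - wt y (e i) (e j)| ≤ 6 * ε := by
    intro j
    have u1 := um_lip x y e ε hε h i j
    have u2 := um_lip y x e.symm ε hε h' (e i) (e j)
    simp only [Equiv.symm_apply_apply] at u2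
    refine (abs_max_sub_max_le_max _ _ _ _).trans (max_le (by simp; positivity) ?_)
    refine (abs_min_sub_min_le_max _ _ _ _).trans (max_le ?_ ?_) <;> rw [abs_le] <;>
      constructor <;> linarith
  have hs : 0 < ∑ j, wt x i j := hx.trans_le (wt_sum x hx i)
  have hs' : 0 < ∑ j, wt y (e i) j := hy.trans_le (wt_sum y hy _)
  have hm := mv_le y hy (e i)
  rw [hc] at hm
  have z : ∑ j, wt y (e i) (e j) • (y (e j) - y (e i) - mv y (e i)) = 0 := by
    rw [e.sum_comp fun k => wt y (e i) k • (y k - y (e i) - mv y (e i))]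
    simp only [smul_sub (wt y (e i) _) (y _ - y _), Finset.sum_sub_distrib, ← Finset.sum_smul]
    rw [mv, smul_smul, mul_inv_cancel₀ hs'.ne', one_smul, sub_self]
  have e1 : mv x i - mv y (e i) = (∑ j, wt x i j)⁻¹ •
      ∑ j, (wt x i j • ((x j - y (e j)) - (x i - y (e i))) +
        (wt x i j - wt y (e i) (e j)) • (y (e j) - y (e i) - mv y (e i))) := by
    have : ∀ j, wt x i j • ((x j - y (e j)) - (x i - y (e i))) +
        (wt x i j - wt y (e i) (e j)) • (y (e j) - y (e i) - mv y (e i)) =
        wt x i j • (x j - x i) - wt x i j • mv y (e i) -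
          wt y (e i) (e j) • (y (e j) - y (e i) - mv y (e i)) := fun j => by module
    simp only [this, Finset.sum_sub_distrib, z, sub_zero, ← Finset.sum_smul]
    rw [smul_sub, smul_smul, inv_mul_cancel₀ hs.ne', one_smul, mv]
  have e2 : ‖mv x i - mv y (e i)‖ ≤ (2 + 36 * (Fintype.card ι : ℝ) ^ 2) * ε := by
    rw [e1, norm_smul, norm_inv, Real.norm_eq_abs, abs_of_pos hs, inv_mul_le_iff₀ hs]
    have e3 : ∀ j, ‖wt x i j • ((x j - y (e j)) - (x i - y (e i))) +
        (wt x i j - wt y (e i) (e j)) • (y (e j) - y (e i) - mv y (e i))‖ ≤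
        wt x i j * (2 * ε) + 6 * ε * (6 * Fintype.card ι * del x) := by
      intro j
      have a1 := h j
      have a2 := h i
      rw [dist_eq_norm] at a1 a2
      refine (norm_add_le _ _).trans (add_le_add ?_ ?_)
      · rw [norm_smul, Real.norm_eq_abs, abs_of_nonneg (wt_nonneg x i j)]
        exact mul_le_mul_of_nonneg_left ((norm_sub_le _ _).trans (by linarith)) (wt_nonneg x i j)
      · rw [norm_smul, Real.norm_eq_abs]
        by_cases hz : wt x i j = 0 ∧ wt y (e i) (e j) = 0
        · rw [hz.1, hz.2, sub_zero, abs_zero, zero_mul]; positivity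
        refine mul_le_mul (hw j) ((norm_sub_le _ _).trans ?_) (norm_nonneg _) (by positivity)
        have a3 : ‖y (e j) - y (e i)‖ ≤ 3 * Fintype.card ι * del x := by
          rcases not_and_or.mp hz with hz | hz
          · have b1 := wt_dist x hx hz
            have b2 : y (e j) - y (e i) = (x j - x i) - ((x j - y (e j)) - (x i - y (e i))) := by
              abel
            have b3 := norm_sub_le (x j - x i) ((x j - y (e j)) - (x i - y (e i)))
            have b4 := norm_sub_le (x j - y (e j)) (x i - y (e i))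
            rw [b2]; nlinarith
          · have b1 := wt_dist y hy hz
            rw [hc] at b1
            nlinarith
        nlinarith
    refine (norm_sum_le _ _).trans ((Finset.sum_le_sum fun j _ => e3 j).trans ?_)
    rw [Finset.sum_add_distrib, ← Finset.sum_mul, Finset.sum_const, Finset.card_univ, nsmul_eq_mul]
    have := mul_le_mul_of_nonneg_right (wt_sum x hx i)
      (show 0 ≤ 36 * (Fintype.card ι : ℝ) ^ 2 * ε by positivity)
    nlinarith
  have e4 := dist_add_add_le (x i) (mv x i) (y (e i)) (mv y (e i))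
  rw [dist_eq_norm (mv x i)] at e4
  linarith [h i]

end


/-- For every real Banach space X and n ≥ 2, some map sends nonempty sets of at most n points to nonempty sets of at most n−1 points, fixes the latter, and is Lipschitz for the Hausdorff distance. -/
theorem result :
    ∀ (X : Type) [NormedAddCommGroup X] [NormedSpace ℝ X] [CompleteSpace X] (n : ℕ), 2 ≤ n →
      ∃ (r : Set X → Set X) (L : ℝ),
        (∀ S : Set X, S.Nonempty → S.Finite → S.ncard ≤ n →
          (r S).Nonempty ∧ (r S).Finite ∧ (r S).ncard ≤ n - 1) ∧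
        (∀ S : Set X, S.Nonempty → S.Finite → S.ncard ≤ n - 1 → r S = S) ∧
        (∀ S T : Set X, S.Nonempty → S.Finite → S.ncard ≤ n →
          T.Nonempty → T.Finite → T.ncard ≤ n →
          Metric.hausdorffDist (r S) (r T) ≤ L * Metric.hausdorffDist S T) := by
  intro X _ _ _ n hn
  classical
  let r : Set X → Set X := fun S => if h : S.Finite ∧ S.ncard = n then
    range fun i : S => i.1 + @mv X _ _ S h.1.fintype Subtype.val i else S
  have hnt : ∀ S : Set X, S.Finite → S.ncard = n → Nontrivial S := fun S h1 h2 => by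
    haveI := h1.to_subtype
    exact Set.nontrivial_coe_sort.mpr (Set.one_lt_ncard_iff_nontrivial.mp (by omega))
  have hcard : ∀ (S : Set X) (h1 : S.Finite), @Fintype.card S h1.fintype = S.ncard := by
    intro S h1
    letI := h1.fintype
    rw [← Nat.card_eq_fintype_card]; rfl
  have hpos : ∀ S : Set X, S.Finite → S.ncard = n → 0 < del (Subtype.val : S → X) := by
    intro S h1 h2
    letI := h1.fintype
    haveI := hnt S h1 h2
    obtain ⟨a, b, hab, h⟩ := del_att (Subtype.val : S → X)
    rw [h]; exact dist_pos.mpr fun h' => hab (Subtype.ext h')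
  have near : ∀ S T : Set X, S.Nonempty → S.Finite → T.Nonempty → T.Finite → ∀ a ∈ S, ∃ b ∈ T,
      dist a b ≤ Metric.hausdorffDist S T := by
    intro S T h1 h2 h3 h4 a ha
    obtain ⟨b, hb, hab⟩ := h4.isCompact.exists_infDist_eq_dist h3 a
    exact ⟨b, hb, hab ▸ Metric.infDist_le_hausdorffDist_of_mem ha
      (Metric.hausdorffEDist_ne_top_of_nonempty_of_bounded h1 h3 h2.isBounded h4.isBounded)⟩
  have case1 : ∀ S T : Set X, S.Nonempty → S.Finite → S.ncard = n → T.Nonempty → T.Finite →
      T.ncard ≤ n → 4 * Metric.hausdorffDist S T < del (Subtype.val : S → X) →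
      Metric.hausdorffDist (r S) (r T) ≤ (3 + 36 * (n : ℝ) ^ 2) * Metric.hausdorffDist S T := by
    intro S T h1 h2 h3 h4 h5 h6 h7
    letI := h2.fintype
    letI := h5.fintype
    have H0 : 0 ≤ Metric.hausdorffDist S T := Metric.hausdorffDist_nonneg
    choose f hf1 hf2 using fun a : S => near S T h1 h2 h4 h5 a.1 a.2
    let g : S → T := fun a => ⟨f a, hf1 a⟩
    have hg : Function.Injective g := by
      intro a b hab
      by_contra hne
      have a1 := del_le (Subtype.val : S → X) hne
      have a2 : f a = f b := congrArg Subtype.val hab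
      have a3 := dist_triangle_right (a : X) b (f a)
      have a4 := hf2 a
      have a5 := hf2 b
      rw [← a2] at a5
      linarith
    have c1 := Fintype.card_le_of_injective g hg
    have c2 := hcard S h2
    have c3 := hcard T h5
    have h8 : T.ncard = n := by omega
    have hb : Function.Bijective g :=
      (Fintype.bijective_iff_injective_and_card g).mpr ⟨hg, by omega⟩
    haveI := hnt S h2 h3
    haveI := hnt T h5 h8
    have key := mv_lip (Subtype.val : S → X) (Subtype.val : T → X) (Equiv.ofBijective g hb) _ H0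
      h7 hf2
    rw [c2, h3] at key
    simp only [r, dif_pos (And.intro h2 h3), dif_pos (And.intro h5 h8)]
    refine Metric.hausdorffDist_le_of_mem_dist (by positivity) ?_ ?_
    · rintro _ ⟨i, rfl⟩
      exact ⟨_, ⟨_, rfl⟩, key i⟩
    · rintro _ ⟨k, rfl⟩
      obtain ⟨i, rfl⟩ := (Equiv.ofBijective g hb).surjective k
      exact ⟨_, ⟨i, rfl⟩, by rw [dist_comm]; exact key i⟩
  have close : ∀ (S : Set X) (H : ℝ), 0 ≤ H → S.Finite →
      ¬ (S.ncard = n ∧ 4 * H < del (Subtype.val : S → X)) →
      (∀ p ∈ r S, ∃ a ∈ S, dist p a ≤ 8 * n * H) ∧ ∀ a ∈ S, ∃ p ∈ r S, dist p a ≤ 8 * n * H := by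
    intro S H H0 h1 h2
    by_cases h3 : S.ncard = n
    · letI := h1.fintype
      have h4 : del (Subtype.val : S → X) ≤ 4 * H := not_lt.mp fun h => h2 ⟨h3, h⟩
      have h5 : ∀ i : S, dist (i.1 + mv Subtype.val i) i.1 ≤ 8 * n * H := by
        intro i
        have := mv_le (Subtype.val : S → X) (hpos S h1 h3) i
        rw [hcard S h1, h3] at this
        rw [dist_eq_norm, add_sub_cancel_left]
        have hn0 : (0 : ℝ) ≤ n := Nat.cast_nonneg n
        nlinarith
      simp only [r, dif_pos (And.intro h1 h3)]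
      exact ⟨by rintro _ ⟨i, rfl⟩; exact ⟨i.1, i.2, h5 i⟩,
        fun a ha => ⟨_, ⟨⟨a, ha⟩, rfl⟩, h5 ⟨a, ha⟩⟩⟩
    · have : r S = S := dif_neg fun h => h3 h.2
      rw [this]
      exact ⟨fun p hp => ⟨p, hp, by rw [dist_self]; positivity⟩,
        fun p hp => ⟨p, hp, by rw [dist_self]; positivity⟩⟩
  refine ⟨r, 3 + 36 * (n : ℝ) ^ 2 + 16 * n, fun S h1 h2 h3 => ?_,
    fun S _ _ h3 => dif_neg fun h => by omega, fun S T h1 h2 h3 h4 h5 h6 => ?_⟩
  · by_cases h4 : S.ncard = n
    · letI := h2.fintype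
      haveI := hnt S h2 h4
      simp only [r, dif_pos (And.intro h2 h4)]
      refine ⟨range_nonempty _, finite_range _, ?_⟩
      have h5 := collapse (Subtype.val : S → X) (hpos S h2 h4)
      have h6 := Fintype.card_lt_of_surjective_not_injective _
        (Set.rangeFactorization_surjective (f := fun i : S => i.1 + mv Subtype.val i))
        (fun h => h5 fun a b hab => h (Subtype.ext hab))
      rw [hcard S h2, ← Nat.card_eq_fintype_card] at h6
      have h7 : Nat.card (range fun i : S => i.1 + mv Subtype.val i) =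
        (range fun i : S => i.1 + mv Subtype.val i).ncard := rfl
      omega
    · have : r S = S := dif_neg fun h => h4 h.2
      rw [this]; exact ⟨h1, h2, by omega⟩
  · have H0 : 0 ≤ Metric.hausdorffDist S T := Metric.hausdorffDist_nonneg
    have hn0 : (0 : ℝ) ≤ n := Nat.cast_nonneg n
    have H1 := mul_nonneg hn0 H0
    have H2 := mul_nonneg (sq_nonneg (n : ℝ)) H0
    by_cases c1 : S.ncard = n ∧ 4 * Metric.hausdorffDist S T < del (Subtype.val : S → X)
    · have := case1 S T h1 h2 c1.1 h4 h5 h6 c1.2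
      nlinarith
    by_cases c2 : T.ncard = n ∧ 4 * Metric.hausdorffDist S T < del (Subtype.val : T → X)
    · have := case1 T S h4 h5 c2.1 h1 h2 h3 (by rw [Metric.hausdorffDist_comm]; exact c2.2)
      rw [Metric.hausdorffDist_comm, Metric.hausdorffDist_comm (s := T)] at this
      nlinarith
    obtain ⟨a1, a2⟩ := close S _ H0 h2 c1
    obtain ⟨b1, b2⟩ := close T _ H0 h5 c2
    refine Metric.hausdorffDist_le_of_mem_dist (by positivity) ?_ ?_
    · intro p hp
      obtain ⟨a, ha, e1⟩ := a1 p hp
      obtain ⟨b, hb, e2⟩ := near S T h1 h2 h4 h5 a ha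
      obtain ⟨q, hq, e3⟩ := b2 b hb
      refine ⟨q, hq, ?_⟩
      have := dist_triangle4 p a b q
      rw [dist_comm b q] at this
      nlinarith
    · intro p hp
      obtain ⟨a, ha, e1⟩ := b1 p hp
      obtain ⟨b, hb, e2⟩ := near T S h4 h5 h1 h2 a ha
      rw [Metric.hausdorffDist_comm] at e2
      obtain ⟨q, hq, e3⟩ := a2 b hb
      refine ⟨q, hq, ?_⟩
      have := dist_triangle4 p a b q
      rw [dist_comm b q] at this
      nlinarith

end Pool.Agent.S06071
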