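import Pool.Statements.S06082
-- import your own Pool.Agent.* helpers here

set_option autoImplicit false
open scoped ENNReal
open Pool Pool.MP_c5b4b2_an

namespace Pool.Agent.S06082

instance fact4 : Fact (1 ≤ (4 : ℝ≥0∞)) := ⟨by norm_num⟩

abbrev E := PiLp (4 : ℝ≥0∞) (fun _ : Fin 2 => ℂ)

lemma norm4 (x : E) : ‖x‖ ^ 4 = ‖x 0‖ ^ 4 + ‖x 1‖ ^ 4 := by
  rw [PiLp.norm_eq_sum (by norm_num)]
  have h : (4 : ℝ≥0∞).toReal = ((4 : ℕ) : ℝ) := by norm_num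
  rw [h, Fin.sum_univ_two, Real.rpow_natCast, Real.rpow_natCast, one_div,
    Real.rpow_inv_natCast_pow (by positivity) (by norm_num)]

noncomputable def T0 : E →L[ℂ] E :=
  LinearMap.toContinuousLinearMap
    { toFun := fun x => WithLp.toLp 4 ![x 0 + 25 * x 1, -3 * x 1]
      map_add' := by
        intro x y
        ext i
        fin_cases i <;> simp <;> ring
      map_smul' := by
        intro c x
        ext i
        fin_cases i <;> simp <;> ring }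

lemma T0_0 (x : E) : T0 x 0 = x 0 + 25 * x 1 := rfl
lemma T0_1 (x : E) : T0 x 1 = -3 * x 1 := rfl

lemma lin_zero (c1 c2 c3 c4 : ℝ) (h : ∀ t : ℝ, 0 ≤ c1 * t + c2 * t ^ 2 + c3 * t ^ 3 + c4 * t ^ 4) :
    c1 = 0 := by
  have hd : HasDerivAt (fun t : ℝ => c1 * t + c2 * t ^ 2 + c3 * t ^ 3 + c4 * t ^ 4) c1 0 := by
    have := ((((hasDerivAt_id (0 : ℝ)).const_mul c1).add ((hasDerivAt_pow 2 (0 : ℝ)).const_mul c2)).add
      ((hasDerivAt_pow 3 (0 : ℝ)).const_mul c3)).add ((hasDerivAt_pow 4 (0 : ℝ)).const_mul c4)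
    refine HasDerivAt.congr_deriv (this.congr_of_eventuallyEq ?_) (by simp)
    exact Filter.Eventually.of_forall fun t => by simp
  refine IsLocalMin.hasDerivAt_eq_zero ?_ hd
  refine Filter.Eventually.of_forall fun t => ?_
  simpa using h t

lemma nsq (a b : ℂ) (t : ℝ) : ‖a + (t : ℂ) * b‖ ^ 2 =
    ‖a‖ ^ 2 + 2 * t * (starRingEnd ℂ a * b).re + t ^ 2 * ‖b‖ ^ 2 := by
  simp only [Complex.sq_norm, Complex.normSq_apply]
  simp
  ring

lemma dual (x y : E) (f : E →L[ℂ] ℂ) (hx : ‖x‖ = 1) (hf : ‖f‖ = 1) (hfx : f x = 1) :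
    (f y).re = ‖x 0‖ ^ 2 * (starRingEnd ℂ (x 0) * y 0).re +
      ‖x 1‖ ^ 2 * (starRingEnd ℂ (x 1) * y 1).re := by
  have h4 := norm4 x
  rw [hx] at h4
  set r := (f y).re
  set u := (starRingEnd ℂ (x 0) * y 0).re
  set v := (starRingEnd ℂ (x 1) * y 1).re
  have key : ∀ t : ℝ, (1 + t * r) ^ 4 ≤ (‖x 0‖ ^ 2 + 2 * t * u + t ^ 2 * ‖y 0‖ ^ 2) ^ 2 +
      (‖x 1‖ ^ 2 + 2 * t * v + t ^ 2 * ‖y 1‖ ^ 2) ^ 2 := by
    intro t
    have h1 : (f (x + (t : ℂ) • y)).re = 1 + t * r := by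
      simp [hfx, r]
    have h2 : |1 + t * r| ≤ ‖x + (t : ℂ) • y‖ := by
      rw [← h1]
      refine (Complex.abs_re_le_norm _).trans ?_
      simpa [hf] using f.le_opNorm (x + (t : ℂ) • y)
    have h3 := pow_le_pow_left₀ (abs_nonneg _) h2 4
    rw [norm4, ← abs_pow, abs_of_nonneg (by positivity)] at h3
    rw [← nsq, ← nsq]
    simp only [PiLp.add_apply, PiLp.smul_apply, smul_eq_mul] at h3
    calc _ ≤ _ := h3
      _ = _ := by ring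
  have := lin_zero (4 * (‖x 0‖ ^ 2 * u + ‖x 1‖ ^ 2 * v - r))
    (4 * u ^ 2 + 2 * ‖x 0‖ ^ 2 * ‖y 0‖ ^ 2 + 4 * v ^ 2 + 2 * ‖x 1‖ ^ 2 * ‖y 1‖ ^ 2 - 6 * r ^ 2)
    (4 * u * ‖y 0‖ ^ 2 + 4 * v * ‖y 1‖ ^ 2 - 4 * r ^ 3)
    (‖y 0‖ ^ 4 + ‖y 1‖ ^ 4 - r ^ 4) (fun t => by nlinarith [key t])
  linarith

lemma amgm (A B l : ℝ) (hA : 0 ≤ A) (hB : 0 ≤ B) (hl : 0 ≤ l) :
    4 * l ^ 3 * A ^ 3 * B ≤ 3 * l ^ 4 * A ^ 4 + B ^ 4 := by
  have : 0 ≤ (l * A - B) ^ 2 * (3 * (l * A) ^ 2 + 2 * (l * A) * B + B ^ 2) := by positivity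
  nlinarith

lemma radius (x : E) (f : E →L[ℂ] ℂ) (hx : ‖x‖ = 1) (hf : ‖f‖ = 1) (hfx : f x = 1) :
    ‖f (T0 x)‖ ≤ 1437 / 100 := by
  obtain ⟨w, hw, hw2⟩ : ∃ w : ℂ, ‖w‖ = 1 ∧ (w * f (T0 x)).re = ‖f (T0 x)‖ := by
    by_cases h : f (T0 x) = 0
    · exact ⟨1, by simp, by simp [h]⟩
    · have hn : (‖f (T0 x)‖ : ℝ) ≠ 0 := norm_ne_zero_iff.2 h
      refine ⟨starRingEnd ℂ (f (T0 x)) / (‖f (T0 x)‖ : ℝ), by simp [hn], ?_⟩
      rw [div_mul_eq_mul_div, Complex.conj_mul', Complex.div_ofReal_re]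
      norm_cast
      field_simp
  have h4 := norm4 x
  rw [hx] at h4
  have hd := dual x (w • T0 x) f hx hf hfx
  rw [map_smul, smul_eq_mul, hw2] at hd
  simp only [PiLp.smul_apply, smul_eq_mul, T0_0, T0_1] at hd
  set A := ‖x 0‖ with hA
  set B := ‖x 1‖ with hB
  have e0 : (starRingEnd ℂ (x 0) * (w * (x 0 + 25 * x 1))).re =
      w.re * A ^ 2 + 25 * (w * starRingEnd ℂ (x 0) * x 1).re := by
    rw [hA, Complex.sq_norm, Complex.normSq_apply]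
    simp
    ring
  have e1 : (starRingEnd ℂ (x 1) * (w * (-3 * x 1))).re = -3 * w.re * B ^ 2 := by
    rw [hB, Complex.sq_norm, Complex.normSq_apply]
    simp
    ring
  have e2 : (w * starRingEnd ℂ (x 0) * x 1).re ≤ A * B := by
    refine (Complex.re_le_norm _).trans ?_
    simp [hw, hA, hB]
  have e3 : |w.re| ≤ 1 := hw ▸ Complex.abs_re_le_norm w
  rw [abs_le] at e3
  have hA0 : 0 ≤ A := norm_nonneg _
  have hB0 : 0 ≤ B := norm_nonneg _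
  have a1 := amgm A B (713 / 1000) hA0 hB0 (by norm_num)
  have a2 := amgm A B (1639 / 2000) hA0 hB0 (by norm_num)
  have e4 : A ^ 2 * (w * starRingEnd ℂ (x 0) * x 1).re ≤ A ^ 3 * B := by
    calc _ ≤ A ^ 2 * (A * B) := mul_le_mul_of_nonneg_left e2 (by positivity)
      _ = _ := by ring
  have hA4 : 0 ≤ A ^ 4 := by positivity
  have hB4 : 0 ≤ B ^ 4 := by positivity
  rw [hd, e0, e1]
  have b1 : A ^ 4 - 3 * B ^ 4 + 25 * (A ^ 3 * B) ≤ 1437 / 100 * (A ^ 4 + B ^ 4) := by nlinarith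
  have b2 : -A ^ 4 + 3 * B ^ 4 + 25 * (A ^ 3 * B) ≤ 1437 / 100 * (A ^ 4 + B ^ 4) := by nlinarith
  have b3 : w.re * (A ^ 4 - 3 * B ^ 4) ≤ |A ^ 4 - 3 * B ^ 4| := by
    calc _ ≤ |w.re * (A ^ 4 - 3 * B ^ 4)| := le_abs_self _
      _ = |w.re| * |A ^ 4 - 3 * B ^ 4| := abs_mul _ _
      _ ≤ 1 * |A ^ 4 - 3 * B ^ 4| := mul_le_mul_of_nonneg_right (abs_le.2 e3) (abs_nonneg _)
      _ = _ := one_mul _
  rw [← h4] at b1 b2
  rcases abs_cases (A ^ 4 - 3 * B ^ 4) with ⟨h, _⟩ | ⟨h, _⟩ <;> rw [h] at b3 <;> nlinarith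

lemma normT : (76 ^ 4 + 9 ^ 4) / 82 ≤ ‖T0‖ ^ 4 := by
  let x : E := WithLp.toLp 4 ![1, 3]
  have h1 := norm4 x
  have h2 := norm4 (T0 x)
  rw [T0_0, T0_1] at h2
  have x0 : x 0 = 1 := rfl
  have x1 : x 1 = 3 := rfl
  rw [x0, x1] at h1 h2
  norm_num at h1 h2
  have h3 := pow_le_pow_left₀ (norm_nonneg _) (T0.le_opNorm x) 4
  rw [mul_pow, h1, h2] at h3
  linarith


/-- The negation of the preceding statement: For every 1<p<∞, the numerical index of complex 2-dimensional l_p (inf over norm-one operators T of the sup of ∣f(Tx)∣ with ‖x‖=‖f‖=f(x)=1) equals 1/(p^(1/p) q^(1/q)), where q=p/(p-1). -/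
theorem result :
    ¬ (∀ (p : ℝ≥0∞) [Fact (1 ≤ p)], 1 < p → p ≠ ⊤ →
      sInf {c : ℝ | ∃ T : PiLp p (fun _ : Fin 2 => ℂ) →L[ℂ] PiLp p (fun _ : Fin 2 => ℂ),
          ‖T‖ = 1 ∧
          c = sSup {s : ℝ | ∃ (x : PiLp p (fun _ : Fin 2 => ℂ))
                (f : PiLp p (fun _ : Fin 2 => ℂ) →L[ℂ] ℂ),
                ‖x‖ = 1 ∧ ‖f‖ = 1 ∧ f x = 1 ∧ s = ‖f (T x)‖}}
        = 1 / (p.toReal ^ (1 / p.toReal) *
            (p.toReal / (p.toReal - 1)) ^ ((p.toReal - 1) / p.toReal))) := by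
  intro h
  have h4 := h 4 (by norm_num) (by norm_num)
  have hN := normT
  have hpos : 0 < ‖T0‖ := by
    rcases (norm_nonneg T0).eq_or_lt with h0 | h0
    · rw [← h0] at hN; norm_num at hN
    · exact h0
  have e : (4 : ℝ≥0∞).toReal = 4 := by norm_num
  rw [e] at h4
  set c : ℝ := 1 / ((4 : ℝ) ^ (1 / (4 : ℝ)) * ((4 : ℝ) / (4 - 1)) ^ ((4 - 1) / (4 : ℝ))) with hc
  have hc4 : c ^ 4 = 27 / 256 := by
    rw [hc, div_pow, mul_pow, ← Real.rpow_natCast, ← Real.rpow_natCast, ← Real.rpow_natCast,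
      ← Real.rpow_mul (by norm_num), ← Real.rpow_mul (by norm_num)]
    norm_num
  have hc0 : 0 ≤ c := by rw [hc]; positivity
  have hle : c ≤ 1437 / 100 / ‖T0‖ := by
    rw [← h4]
    refine csInf_le_of_le ⟨0, ?_⟩ ⟨((‖T0‖⁻¹ : ℝ) : ℂ) • T0, ?_, rfl⟩ ?_
    · rintro _ ⟨T, -, rfl⟩
      refine Real.sSup_nonneg ?_
      rintro _ ⟨x, f, -, -, -, rfl⟩
      exact norm_nonneg _
    · rw [norm_smul]
      simp [hpos.ne']
    · refine Real.sSup_le ?_ (by positivity)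
      rintro _ ⟨x, f, hx, hf, hfx, rfl⟩
      have := radius x f hx hf hfx
      rw [smul_apply, map_smul, norm_smul, Complex.norm_real, norm_inv,
        norm_norm, div_eq_inv_mul]
      exact mul_le_mul_of_nonneg_left this (by positivity)
  have h5 := pow_le_pow_left₀ hc0 hle 4
  rw [hc4, div_pow, le_div_iff₀ (by positivity)] at h5
  nlinarith

end Pool.Agent.S06082
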