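import Pool.Statements.S06089
import Pool.Agent.Lib.helper21.Geno

set_option autoImplicit false
open Pool Pool.MP_c64be7_an

namespace Pool.Agent.S06089

open Real Filter Topology Pool.Agent.Lib.Helper21.Geno

lemma key (β x w : ℝ) : (1 + tanh x) / 2 * exp (β * (1 - 2 * ((1 + tanh w) / 2))) /
    (1 - (1 + tanh x) / 2 + (1 + tanh x) / 2 * exp (β * (1 - 2 * ((1 + tanh w) / 2)))) =
    (1 + tanh (x - β / 2 * tanh w)) / 2 := by
  obtain ⟨c, hc⟩ : ∃ c, c = β / 2 * tanh w := ⟨_, rfl⟩
  rw [show β * (1 - 2 * ((1 + tanh w) / 2)) = -c + -c by rw [hc]; ring, ← hc, tanh_eq x, tanh_eq (x - c)]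
  simp only [exp_add, exp_neg, exp_sub, neg_sub]
  have := exp_pos x
  have := exp_pos c
  have : 0 < exp x * exp x + 1 := by positivity
  rw [div_eq_iff (ne_of_gt ?_)]
  · field_simp
    ring
  · refine add_pos_of_pos_of_nonneg ?_ ?_
    · rw [← exp_neg, ← tanh_eq]; linarith [tanh_lt_one x]
    · rw [← exp_neg x, ← tanh_eq]; exact mul_nonneg (by linarith [neg_one_lt_tanh x]) (by positivity)

lemma toU {k : ℕ} {β : ℝ} {y : ℕ → ℝ} (h0 : ∀ i, i ≤ k → 0 < y i ∧ y i < 1) (h : ∀ n : ℕ, y (n + k + 1) =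
    y (n + k) * exp (β * (1 - 2 * y n)) / (1 - y (n + k) + y (n + k) * exp (β * (1 - 2 * y n)))) :
    ∃ u, Orb k (β / 2) u ∧ ∀ n, y n = (1 + tanh (u n)) / 2 := by
  refine ⟨_, orb_O fun i => artanh (2 * y i - 1), fun n => ?_⟩
  induction n using Nat.strong_induction_on with
  | _ n ih =>
    rcases le_or_gt n k with c | c
    · rw [orb, if_pos c, tanh_artanh ⟨by linarith [h0 n c], by linarith [h0 n c]⟩]; ring
    · obtain ⟨m, rfl⟩ := Nat.exists_eq_add_of_lt c
      rw [add_comm k m, h, orb_O, ← key, ← ih m (by omega), ← ih (m + k) (by omega)]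

/-- For integer delay k≥2 and β>0, the equilibrium 1/2 of y' = y e^{β(1−2y_{delayed})}/(1−y+y e^{β(1−2y_{delayed})}) with initial values in (0,1) is globally asymptotically stable iff β ≤ 4cos(kπ/(2k+1)). -/
theorem result :
    ∀ k : ℕ, 2 ≤ k → ∀ β : ℝ, 0 < β →
      (((∀ ε : ℝ, 0 < ε → ∃ δ : ℝ, 0 < δ ∧
          ∀ y : ℕ → ℝ, (∀ i, i ≤ k → 0 < y i ∧ y i < 1) →
            (∀ n : ℕ, y (n + k + 1) =
                y (n + k) * Real.exp (β * (1 - 2 * y n)) /
                  (1 - y (n + k) + y (n + k) * Real.exp (β * (1 - 2 * y n)))) →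
            (∀ i, i ≤ k → |y i - 1 / 2| < δ) →
            ∀ n : ℕ, |y n - 1 / 2| < ε) ∧
        (∀ y : ℕ → ℝ, (∀ i, i ≤ k → 0 < y i ∧ y i < 1) →
            (∀ n : ℕ, y (n + k + 1) =
                y (n + k) * Real.exp (β * (1 - 2 * y n)) /
                  (1 - y (n + k) + y (n + k) * Real.exp (β * (1 - 2 * y n)))) →
            Filter.Tendsto y Filter.atTop (nhds (1 / 2))))
        ↔ β ≤ 4 * Real.cos ((k : ℝ) * Real.pi / (2 * (k : ℝ) + 1))) := by
  intro k hk β hβ
  have ca : ContinuousAt artanh 0 := by unfold artanh; fun_prop (disch := simp)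
  constructor
  · rintro ⟨-, h⟩
    by_contra c
    obtain ⟨u, hu, v⟩ := unstable (k := k) (b := β / 2) (by omega) (by linarith)
    have l := h (fun n => (1 + tanh (u n)) / 2) (fun i _ => ⟨by linarith [neg_one_lt_tanh (u i)], by
      linarith [tanh_lt_one (u i)]⟩) fun n => by rw [key, hu]
    refine (V_nn (by linarith) hu ?_ 0).not_gt v
    have := (artanh_zero ▸ ca.tendsto).comp (show Tendsto (fun n => tanh (u n)) atTop (𝓝 0) by
      simpa [mul_div_cancel₀] using (l.const_mul 2).sub_const 1)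
    simpa [Function.comp_def, artanh_tanh] using this
  · intro hc
    refine ⟨fun ε ε0 => ?_, fun y h0 h => ?_⟩
    · obtain ⟨δ, δ0, hδ⟩ := stable (k := k) (b := β / 2) (by omega) (by linarith) (by linarith) ε0
      obtain ⟨η, η0, hη⟩ := Metric.continuousAt_iff.1 ca δ δ0
      refine ⟨η / 2, by linarith, fun y h0 h s n => ?_⟩
      obtain ⟨u, hu, e⟩ := toU h0 h
      have r : ∀ n, |y n - 1 / 2| = |tanh (u n)| / 2 := fun n => by
        rw [e, show (1 + tanh (u n)) / 2 - 1 / 2 = tanh (u n) / 2 by ring, abs_div, abs_two]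
      have := hδ u hu (fun i hi => by
        simpa [artanh_tanh] using hη (x := tanh (u i)) (by have := s i hi; rw [r] at this; simpa using by linarith)) n
      have t : |tanh (u n)| ≤ |u n| := (eq_or_ne (u n) 0).elim (fun e => by simp [e]) fun e => sq_le_sq.1 (T_sq e).le
      rw [r]
      linarith [abs_nonneg (u n)]
    · obtain ⟨u, hu, e⟩ := toU h0 h
      have := (cT.tendsto 0).comp (attract (by omega) (by linarith) (by linarith) hu)
      simpa [funext e] using (this.const_add 1).div_const 2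

end Pool.Agent.S06089
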