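import Pool.Statements.S06164
import Pool.Agent.Lib.helper18.Jac6

set_option autoImplicit false
open MeasureTheory Filter Topology
open Pool Pool.MP_cc1b6d_an

namespace Pool.Agent.S06164

open H18Jac H18Cantor

noncomputable def ff (n : ℕ) : Polynomial ℂ :=
  Polynomial.C ((lam n)⁻¹ : ℂ) * Polynomial.X ^ 2 + Polynomial.C 0 * Polynomial.X +
    Polynomial.C (2 - 4 * (lam n)⁻¹ : ℂ)

noncomputable def FF : ℕ → ℂ → ℂ
  | 0, z => z
  | n + 1, z => (ff n).eval (FF n z)

lemma lam_ne (n : ℕ) : (lam n : ℂ) ≠ 0 := by exact_mod_cast (ok.pos n).ne'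

lemma ff_eval (n : ℕ) (z : ℂ) : (ff n).eval z = (z ^ 2 - 4) / lam n + 2 := by
  simp [ff]; ring

lemma FF_real (x : ℝ) (n : ℕ) : FF n x = orb x n := by
  induction n with
  | zero => rfl
  | succ n ih => rw [FF, ih, ff_eval, orb, f]; push_cast; ring

lemma N_ge (z : ℂ) : 4 ≤ ‖z - 2‖ + ‖z + 2‖ := by
  have := norm_sub_le (z + 2) (z - 2)
  rw [show z + 2 - (z - 2) = 4 by ring] at this
  simp only [Complex.norm_ofNat] at this
  linarith

lemma N_step (n : ℕ) (z : ℂ) :
    4 * (‖z - 2‖ + ‖z + 2‖ - 4) ≤ ‖(ff n).eval z - 2‖ + ‖(ff n).eval z + 2‖ - 4 := by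
  have h0 := N_ge z
  have h1 := N_ge ((ff n).eval z)
  have hl := ok.pos n
  have hl' := (ok n).2
  have e1 : (z - 2) * (z + 2) = lam n * ((ff n).eval z - 2) := by
    rw [ff_eval]; field_simp [lam_ne n]; ring
  have e2 : z ^ 2 = lam n * ((ff n).eval z + 2) + ((4 * (1 - lam n) : ℝ) : ℂ) := by
    rw [ff_eval]; push_cast; field_simp [lam_ne n]; ring
  have a1 := congrArg norm e1
  have a2 := (congrArg norm e2).le.trans (norm_add_le _ _)
  rw [norm_mul, norm_mul, Complex.norm_real, Real.norm_of_nonneg hl.le] at a1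
  rw [norm_pow, norm_mul, Complex.norm_real, Complex.norm_real, Real.norm_of_nonneg hl.le,
    Real.norm_of_nonneg (by linarith)] at a2
  have a3 := parallelogram_law_with_norm ℝ z 2
  simp only [Complex.norm_ofNat] at a3
  nlinarith [mul_nonneg (sub_nonneg.2 hl'.le) (sub_nonneg.2 h1), sq_nonneg (‖z - 2‖ + ‖z + 2‖ - 4)]

lemma filled {φ : ℕ → Om → ℝ} (s : H18Jac.Nest lam φ) :
    {z : ℂ | ∃ M : ℝ, ∀ n, ‖FF n z‖ ≤ M} = Set.range fun e => (φ 0 e : ℂ) := by
  ext z
  constructor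
  · rintro ⟨M, hM⟩
    have h1 : ∀ m n, 4 ^ m * (‖FF n z - 2‖ + ‖FF n z + 2‖ - 4) ≤ 2 * M := by
      intro m
      induction m with
      | zero =>
        intro n
        have a1 := norm_sub_le (FF n z) 2
        have a2 := norm_add_le (FF n z) 2
        simp only [Complex.norm_ofNat] at a1 a2
        linarith [hM n]
      | succ m ih =>
        intro n
        refine le_trans ?_ (ih (n + 1))
        rw [pow_succ, mul_assoc]
        exact mul_le_mul_of_nonneg_left (N_step n _) (by positivity)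
    have h2 : ∀ n, ‖FF n z - 2‖ + ‖FF n z + 2‖ ≤ 4 := by
      intro n
      by_contra hn
      have hp : 0 < ‖FF n z - 2‖ + ‖FF n z + 2‖ - 4 := by linarith [not_le.1 hn]
      obtain ⟨m, hm⟩ := pow_unbounded_of_one_lt (2 * M / (‖FF n z - 2‖ + ‖FF n z + 2‖ - 4))
        (show (1 : ℝ) < 4 by norm_num)
      rw [div_lt_iff₀ hp] at hm
      linarith [h1 m n]
    have h3 : z.im = 0 := by
      by_contra h
      have a1 := Complex.abs_re_lt_norm.2 (show (z - 2).im ≠ 0 by simpa using h)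
      have a2 := Complex.re_le_norm (z + 2)
      have a3 := h2 0
      have a4 := neg_le_abs (z - 2).re
      simp only [FF, Complex.sub_re, Complex.add_re, Complex.re_ofNat] at a1 a2 a3 a4
      linarith
    obtain ⟨x, rfl⟩ : ∃ x : ℝ, z = x := ⟨z.re, Complex.ext rfl (by simpa using h3)⟩
    obtain ⟨e, he⟩ := (mem_iff s x).2 fun k => by
      have a1 := h2 (k + 1)
      have a2 := norm_add_le (FF (k + 1) x - 2) (FF (k + 1) x + 2)
      rw [show FF (k + 1) x - 2 + (FF (k + 1) x + 2) = 2 * FF (k + 1) x by ring, norm_mul] at a2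
      rw [← Real.norm_eq_abs, ← Complex.norm_real, ← FF_real]
      simp only [Complex.norm_ofNat] at a2
      linarith
    exact ⟨e, by simp only [he]⟩
  · rintro ⟨e, rfl⟩
    refine ⟨2, fun n => ?_⟩
    rw [FF_real, Complex.norm_real]
    cases n with
    | zero => exact s.le 0 e
    | succ n => exact (mem_iff s _).1 ⟨e, rfl⟩ n

lemma conv2 {K : Set ℂ} (D : ℝ) (hre : ∀ z ∈ K, (z.re : ℂ) = z) (ρ : Measure ℂ)
    [IsProbabilityMeasure ρ] [NullSingletonClass ρ] (hK : ρ Kᶜ = 0) :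
    ∫⁻ z, ∫⁻ w, ENNReal.ofReal (Real.log (D / ‖z - w‖)) ∂ρ ∂ρ =
      H18Widom.En D (ρ.map Complex.re) (ρ.map Complex.re) := by
  have hK' : ∀ᵐ x ∂ρ, x ∈ K := hK
  have mr := Complex.measurable_re
  rw [H18Widom.En, lintegral_map (H18Widom.U_meas D _) mr]
  simp only [H18Widom.U, lintegral_map (H18Widom.k_meas1 D _) mr]
  refine lintegral_congr_ae (hK'.mono fun z a => lintegral_congr_ae ?_)
  filter_upwards [hK', Measure.ae_ne ρ z] with w b c
  have e : |z.re - w.re| = ‖z - w‖ := by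
    conv_rhs => rw [← hre _ a, ← hre _ b, ← Complex.ofReal_sub, Complex.norm_real]
    rfl
  have c' := norm_pos_iff.2 (sub_ne_zero.2 c.symm)
  rw [H18Widom.k, if_neg (sub_ne_zero.1 (abs_pos.1 (e ▸ c'))), e]


theorem result :
    ¬ (∀ (f : ℕ → Polynomial ℂ) (F : ℕ → ℂ → ℂ) (J : Set ℂ),
      (∃ A₁ A₂ A₃ : ℝ, 0 < A₁ ∧ 0 ≤ A₂ ∧ 0 < A₃ ∧
        ∀ n, 2 ≤ (f n).natDegree ∧ A₁ ≤ ‖(f n).leadingCoeff‖ ∧
          (∀ j, ‖(f n).coeff j‖ ≤ A₂ * ‖(f n).leadingCoeff‖) ∧
          Real.log ‖(f n).leadingCoeff‖ ≤ A₃ * ((f n).natDegree : ℝ)) →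
      (∀ z, F 0 z = z) →
      (∀ n z, F (n + 1) z = (f n).eval (F n z)) →
      J = frontier {z : ℂ | ∃ M : ℝ, ∀ n, ‖F n z‖ ≤ M} →
      J ⊆ {z : ℂ | z.im = 0} →
      IsTotallyDisconnected J →
      ∀ μ : Measure ℂ, IsProbabilityMeasure μ → NoAtoms μ → μ Jᶜ = 0 →
      (∫⁻ z, ∫⁻ w, ENNReal.ofReal (Real.log ((Metric.diam J + 1) / ‖z - w‖)) ∂μ ∂μ) < ⊤ →
      (∀ ν : Measure ℂ, IsProbabilityMeasure ν → NoAtoms ν → ν Jᶜ = 0 →
        (∫⁻ z, ∫⁻ w, ENNReal.ofReal (Real.log ((Metric.diam J + 1) / ‖z - w‖)) ∂μ ∂μ) ≤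
          (∫⁻ z, ∫⁻ w, ENNReal.ofReal (Real.log ((Metric.diam J + 1) / ‖z - w‖)) ∂ν ∂ν)) →
      ∀ (a b : ℕ → ℝ) (P : ℕ → Polynomial ℝ),
        (∀ n, 0 < a n) →
        P 0 = 1 →
        P 1 = Polynomial.X - Polynomial.C (b 0) →
        (∀ n, P (n + 2) = (Polynomial.X - Polynomial.C (b (n + 1))) * P (n + 1)
                - Polynomial.C (a n ^ 2) * P n) →
        (∀ n m, n ≠ m → ∫ z, (P n).eval z.re * (P m).eval z.re ∂μ = 0) →
        ∃ α β : ℤ → ℝ,
          (∀ ε > 0, ∃ L : ℕ, ∀ m : ℤ, ∃ τ : ℤ, m ≤ τ ∧ τ ≤ m + (L : ℤ) ∧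
            ∀ k : ℤ, |α (k + τ) - α k| < ε ∧ |β (k + τ) - β k| < ε) ∧
          Tendsto (fun n : ℕ => |a n - α (n : ℤ)| + |b n - β (n : ℤ)|) atTop (𝓝 0)) := by
  intro H
  obtain ⟨φ, s⟩ := H18Jac.exists_nest
  have hm := emb s Complex.continuous_ofReal Complex.ofReal_injective
  have hc : Continuous fun e => (φ 0 e : ℂ) := Complex.continuous_ofReal.comp (s.cont 0)
  set J := Set.range fun e => (φ 0 e : ℂ) with hJ
  set μ := (P fair).map fun e => (φ 0 e : ℂ) with hμ
  have : IsProbabilityMeasure μ := Measure.isProbabilityMeasure_map hm.measurable.aemeasurable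
  have hK : μ Jᶜ = 0 := by rw [hm.map_apply]; simp [hJ]
  have hA : NullSingletonClass μ := by
    have : NullSingletonClass (P fair) := ⟨atom fair (r := 2⁻¹) (by simp) fun b => (fair_eq b).le⟩
    refine ⟨fun z => ?_⟩
    rw [hm.map_apply]
    exact (Set.subsingleton_singleton.preimage hm.injective).measure_zero _
  have hJc : IsCompact J := isCompact_range hc
  have him : J ⊆ {z : ℂ | z.im = 0} := by rintro _ ⟨e, rfl⟩; simp
  have hre : ∀ z ∈ J, (z.re : ℂ) = z := by rintro _ ⟨e, rfl⟩; simp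
  have hd : ∀ x y, |φ 0 x - φ 0 y| ≤ Metric.diam J := fun x y => by
    have := Metric.dist_le_diam_of_mem hJc.isBounded ⟨x, rfl⟩ ⟨y, rfl⟩
    rwa [Complex.dist_eq, ← Complex.ofReal_sub, Complex.norm_real] at this
  have hD : 4 ≤ Metric.diam J + 1 := by
    have o : ∀ x : ℝ, x ^ 2 = 4 → ∀ k, |orb x (k + 1)| ≤ 2 := by
      intro x hx k
      have : orb x (k + 1) = 2 := by
        induction k with
        | zero => simp [orb, f, hx]
        | succ k ih => rw [orb, ih, ok.f_two]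
      rw [this, abs_two]
    obtain ⟨x, hx⟩ := (mem_iff s 2).2 (o 2 (by norm_num))
    obtain ⟨y, hy⟩ := (mem_iff s (-2)).2 (o _ (by norm_num))
    have := hd x y
    rw [hx, hy] at this
    linarith [le_abs_self (2 - -2 : ℝ)]
  obtain ⟨E, hE, hU⟩ := pot s fair_eq hD
  have mr := Complex.measurable_re
  have hs : ∀ ρ : Measure ℂ, ρ Jᶜ = 0 → ρ.map Complex.re (Set.range (φ 0))ᶜ = 0 := by
    intro ρ hρ
    rw [Measure.map_apply mr (isCompact_range (s.cont 0)).isClosed.measurableSet.compl]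
    refine measure_mono_null ?_ hρ
    rintro _ hz ⟨e, rfl⟩
    exact hz ⟨e, by simp⟩
  have hmin := fun (ν : Measure ℂ) (_ : IsProbabilityMeasure ν) (hν : ν Jᶜ = 0) =>
    have : IsProbabilityMeasure (μ.map Complex.re) := Measure.isProbabilityMeasure_map mr.aemeasurable
    have : IsProbabilityMeasure (ν.map Complex.re) := Measure.isProbabilityMeasure_map mr.aemeasurable
    H18Widom.minimal (K := Set.range (φ 0)) (D := Metric.diam J + 1) (by linarith) (by
      rintro _ ⟨x, rfl⟩ _ ⟨y, rfl⟩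
      linarith [hd x y]) _ _ (hs μ hK) (hs ν hν) hE (by
      rintro _ ⟨x, rfl⟩
      rw [H18Widom.U, lintegral_map (H18Widom.k_meas1 _ _) mr, hμ, hm.lintegral_map, ← hU x]
      simp)
  obtain ⟨α, β, h1, h2⟩ := H ff FF J ⟨1, 4, 1, one_pos, by norm_num, one_pos, fun n => by
      have hl := ok.pos n
      have e : ‖((lam n)⁻¹ : ℂ)‖ = (lam n)⁻¹ := by
        rw [norm_inv, Complex.norm_real, Real.norm_of_nonneg hl.le]
      have a1 : 1 ≤ (lam n)⁻¹ := (one_le_inv₀ hl).2 (ok n).2.le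
      have a2 : (lam n)⁻¹ ≤ 2 := by rw [inv_le_comm₀ hl two_pos]; linarith [(ok n).1]
      have a3 := Real.log_le_sub_one_of_pos (inv_pos.2 hl)
      rw [ff, Polynomial.natDegree_quadratic (inv_ne_zero (lam_ne n)),
        Polynomial.leadingCoeff_quadratic (inv_ne_zero (lam_ne n)), e]
      refine ⟨le_rfl, a1, fun j => ?_, by push_cast; linarith⟩
      simp only [Polynomial.coeff_add, Polynomial.coeff_C_mul, Polynomial.coeff_X_pow,
        Polynomial.coeff_C, zero_mul, add_zero]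
      split_ifs with j2 j0 j0
      · omega
      · rw [mul_one, add_zero, e]; linarith
      · rw [mul_zero, zero_add, show (2 - 4 * (lam n)⁻¹ : ℂ) = ((2 - 4 * (lam n)⁻¹ : ℝ) : ℂ) by
          push_cast; rfl, Complex.norm_real, Real.norm_eq_abs, abs_le]
        constructor <;> linarith
      · simp [hl.le]⟩
    (fun _ => rfl) (fun _ _ => rfl)
    (by
      rw [filled s, ← hJ, hJc.isClosed.frontier_eq]
      have : interior J = ∅ := by
        refine Set.eq_empty_of_subset_empty ((interior_mono him).trans (le_of_eq ?_))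
        have := Complex.isOpenMap_im.preimage_interior_eq_interior_preimage Complex.continuous_im {0}
        rw [interior_singleton, Set.preimage_empty] at this
        exact this.symm
      rw [this, Set.diff_empty])
    him ((hc.isClosedEmbedding hm.injective).isEmbedding.isTotallyDisconnected_range.2 inferInstance)
    μ this hA hK (by rw [conv2 _ hre μ hK, (hmin μ this hK).1]; exact hE.lt_top)
    (fun ν hν (_ : NullSingletonClass ν) h => by
      rw [conv2 _ hre μ hK, conv2 _ hre ν h]; exact (hmin ν hν h).2)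
    (fun n => √(R lam 0 (n + 1))) (fun _ => 0) (Q 0) (fun n => Real.sqrt_pos.2 (ok.R_pos n 0)) rfl
    (by simp [Q]) (fun n => by rw [Q, Real.sq_sqrt (ok.R_pos n 0).le]; simp)
    (fun n m h => by
      rw [hμ, hm.integral_map]
      exact I_ne s fair_eq h)
  refine not_ap one_pos (fun n => √(R lam 0 (n + 1))) (fun n => (one_mul _).symm) α
    (fun e he => ?_) ?_
  · obtain ⟨L, hL⟩ := h1 e he
    obtain ⟨τ, a1, -, a2⟩ := hL 1
    exact ⟨τ, a1, fun n => (a2 n).1⟩
  · exact squeeze_zero_norm (fun n => le_add_of_nonneg_right (abs_nonneg _)) h2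

end Pool.Agent.S06164
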