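import Pool.Statements.S06172
import Pool.Agent.Lib.helper23.AlmB

set_option autoImplicit false
open Pool Pool.MP_cc91a5_an

namespace Pool.Agent.S06172

/-- The negation of the preceding statement: For every continuous self-map T of a compact metric space and every almost additive sequence of continuous functions with bounded variations in the Bowen metric, some continuous g has Birkhoff sums uniformly within bounded distance of f_n. -/
theorem result :
    ¬ (∀ (X : Type) [MetricSpace X] [CompactSpace X] (T : X → X), Continuous T →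
      ∀ f : ℕ → X → ℝ, (∀ n, Continuous (f n)) →
        (∃ C : ℝ, ∀ n m : ℕ, 1 ≤ n → 1 ≤ m → ∀ x : X,
            |f (n + m) x - f n x - f m (T^[n] x)| ≤ C) →
        (∃ ε : ℝ, 0 < ε ∧ ∃ K : ℝ, ∀ n : ℕ, 1 ≤ n → ∀ x y : X,
            (∀ k : ℕ, k < n → dist (T^[k] x) (T^[k] y) < ε) →
              |f n x - f n y| ≤ K) →
        ∃ g : X → ℝ, Continuous g ∧ ∃ B : ℝ, ∀ n : ℕ, 1 ≤ n → ∀ x : X,
            |f n x - ∑ k ∈ Finset.range n, g (T^[k] x)| ≤ B) := by
  intro H
  let m : MetricSpace Pool.Agent.Lib.helper23.Alm.X := TopologicalSpace.metrizableSpaceMetric _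
  obtain ⟨g, hg, B, hB⟩ := H Pool.Agent.Lib.helper23.Alm.X Pool.Agent.Lib.helper23.Alm.T
    Pool.Agent.Lib.helper23.Alm.T_cont Pool.Agent.Lib.helper23.Alm.f Pool.Agent.Lib.helper23.Alm.f_cont
    ⟨3, fun n m _ _ x => Pool.Agent.Lib.helper23.Alm.alm_add n m x⟩ (by
      obtain ⟨δ, hδ, h⟩ := Metric.uniformContinuous_iff.1
        (@CompactSpace.uniformContinuous_of_continuous _ _ m.toUniformSpace _ _ _
          (Pool.Agent.Lib.helper23.Alm.ev_cont 0))
        (1 / 2) (by norm_num)
      refine ⟨δ, hδ, 3, fun n _ x y hxy => Pool.Agent.Lib.helper23.Alm.bv n x y fun i hi => ?_⟩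
      have := h (hxy i hi)
      rwa [Pool.Agent.Lib.helper23.Alm.T_iter, Pool.Agent.Lib.helper23.Alm.T_iter, zero_add,
        Real.dist_eq] at this)
  exact Pool.Agent.Lib.helper23.Alm.no_g g hg B hB

end Pool.Agent.S06172
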