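import Pool.Statements.S06198

set_option autoImplicit false
open Pool Pool.MP_cea7e0_an

namespace Pool.Agent.S06198

def L (k : ℕ) : ℕ := [1, 229218, 239645, 250072, 260499, 270926, 280141].getD k 289356

def F (k : ℤ) : ℝ := if 0 ≤ k ∧ k ≤ 15 then L k.toNat else 0

lemma F0 (k : ℤ) : 0 ≤ F k := by unfold F; split_ifs <;> positivity

lemma Fn (k : ℕ) (h : k ≤ 15) : F k = L k := if_pos ⟨by omega, by omega⟩

lemma lc : ∀ u < 16, ∀ w < 16, ∀ s < w, u < s → L u * L w ≤ L s * L (u + w - s) := by decide +kernel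

lemma F2 {u s t w : ℤ} (h1 : u < s) (h2 : s < w) (e : s + t = u + w) : F u * F w ≤ F s * F t := by
  by_cases c : 0 ≤ u ∧ w ≤ 15
  · obtain ⟨u, rfl⟩ := Int.eq_ofNat_of_zero_le c.1
    obtain ⟨s, rfl⟩ := Int.eq_ofNat_of_zero_le (show 0 ≤ s by omega)
    obtain ⟨w, rfl⟩ := Int.eq_ofNat_of_zero_le (show 0 ≤ w by omega)
    rw [show t = (u + w - s : ℕ) by omega, Fn u (by omega), Fn w (by omega), Fn s (by omega), Fn _ (by omega)]
    exact_mod_cast lc u (by omega) w (by omega) s (by omega) (by omega)
  · have : F u * F w = 0 := mul_eq_zero.2 <| (not_and_or.1 c).imp (fun h => if_neg fun g => h g.1) fun h => if_neg fun g => h g.2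
    exact this ▸ mul_nonneg (F0 _) (F0 _)

def M (k : ℕ) : ℕ := [289356, 994884054120, 7280985455100, 32923724302560, 102889534899060, 235417373158968, 405707698375980, 538782567626160, 538782567626160, 405707698375980, 235417373158968, 102889534899060, 32923724302560, 7280985455100, 994884054120, 289356].getD k 0

lemma eM : ∀ k < 16, Nat.choose 15 k * (L k * L (15 - k)) = M k := by decide +kernel

lemma ev (z : ℂ) (k : ℕ) : Polynomial.aeval z (ascPochhammer ℝ k) = ∏ i ∈ Finset.range k, (z + i) := by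
  induction k with
  | zero => simp
  | succ k ih => rw [ascPochhammer_succ_right, map_mul, ih, Finset.prod_range_succ]; simp

lemma evP (z : ℂ) : Polynomial.aeval z (∑ k ∈ Finset.Nat.antidiagonalTuple 2 15,
    Polynomial.C ((Nat.multinomial Finset.univ k : ℝ) * ∏ i, F ((k i : ℕ) : ℤ)) *
    (Matrix.of fun (i j : Fin 2) => (ascPochhammer ℝ (k i)).comp
      (Polynomial.X + Polynomial.C (((j : ℕ) : ℝ) - ((i : ℕ) : ℝ)))).det) =
    ∑ k ∈ Finset.range 16, (M k : ℕ) *
      ((∏ i ∈ Finset.range k, (z + i)) * ∏ i ∈ Finset.range (15 - k), (z + i) -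
        (∏ i ∈ Finset.range k, (z + 1 + i)) * ∏ i ∈ Finset.range (15 - k), (z - 1 + i)) := by
  rw [Finset.Nat.antidiagonalTuple_two, Finset.sum_map, Finset.Nat.sum_antidiagonal_eq_sum_range_succ_mk, map_sum]
  refine Finset.sum_congr rfl fun k hk => ?_
  have hk' : k ≤ 15 := by simpa [Nat.lt_succ_iff] using hk
  rw [← eM k (by omega)]
  simp [Matrix.det_fin_two, Polynomial.aeval_comp, ev, Nat.multinomial_univ_two, Fn k hk', Fn (15 - k) (by omega),
    Nat.add_sub_of_le hk', Nat.choose_eq_factorial_div_factorial hk', sub_eq_add_neg]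

/-- The negation of the preceding statement: For n≥0, r≥2, d≥r and a real sequence f_0..f_n (zero elsewhere) with f_0,f_n>0 and all Toeplitz minors of order ≤d nonnegative, if the Pochhammer–determinant polynomial P_n^r is nonzero then all its roots have negative real part and all its coefficients are positive. -/
theorem result :
    ¬ (∀ (n r d : ℕ), 2 ≤ r → r ≤ d → ∀ f : ℤ → ℝ,
      (∀ k : ℤ, (k < 0 ∨ (n : ℤ) < k) → f k = 0) →
      0 < f 0 → 0 < f (n : ℤ) →
      (∀ m : ℕ, m ≤ d → ∀ a b : Fin m → ℤ, StrictMono a → StrictMono b →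
          0 ≤ (Matrix.of fun s t => f (a s - b t)).det) →
      ∀ P : Polynomial ℝ,
        P = ∑ k ∈ Finset.Nat.antidiagonalTuple r n,
          Polynomial.C ((Nat.multinomial Finset.univ k : ℝ) * ∏ i, f ((k i : ℕ) : ℤ)) *
          (Matrix.of fun (i j : Fin r) => (ascPochhammer ℝ (k i)).comp
              (Polynomial.X + Polynomial.C (((j : ℕ) : ℝ) - ((i : ℕ) : ℝ)))).det →
        P ≠ 0 →
        (∀ z : ℂ, Polynomial.aeval z P = 0 → z.re < 0) ∧
        (∀ i : ℕ, i ≤ P.natDegree → 0 < P.coeff i)) := by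
  intro h
  refine absurd ((h 15 2 2 le_rfl le_rfl F (fun k hk => if_neg (by omega)) (by simp [F, L]) (by simp [F, L])
    (fun m hm a b ha hb => ?_) _ rfl fun e => ?_).1 (4 * Complex.I) ?_) (by simp)
  · interval_cases m
    · simp
    · simpa using F0 _
    · have h1 := ha (show (0 : Fin 2) < 1 by decide)
      have h2 := hb (show (0 : Fin 2) < 1 by decide)
      simp only [Matrix.det_fin_two, Matrix.of_apply, sub_nonneg]
      exact F2 (by omega) (by omega) (by omega)
  · have := evP 1
    rw [e] at this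
    norm_num [Finset.sum_range_succ, Finset.prod_range_succ, M] at this
  · rw [evP]
    have k : ∀ (a : ℤ) (n : ℕ), ∏ i ∈ Finset.range n, (4 * Complex.I + a + i) =
        GaussianInt.toComplex (∏ i ∈ Finset.range n, ⟨a + i, 4⟩) := fun a n => by
      rw [map_prod]
      exact Finset.prod_congr rfl fun i _ => by simp [GaussianInt.toComplex_def']; ring
    have k0 := k 0
    have k1 := k 1
    have k2 := k (-1)
    simp only [Int.cast_zero, add_zero, Int.cast_one, Int.cast_neg, ← sub_eq_add_neg] at k0 k1 k2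
    simp only [k0, k1, k2]
    simp only [← map_mul, ← map_sub, ← map_natCast GaussianInt.toComplex, ← map_sum]
    rw [GaussianInt.toComplex_eq_zero]
    decide +kernel

end Pool.Agent.S06198
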