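import Pool.Statements.S06207
-- import your own Pool.Agent.* helpers here

set_option autoImplicit false
open Pool Pool.MP_ced77a_an

namespace Pool.Agent.S06207

open Filter Topology BoundedContinuousFunction

section
variable {X : Type} [NormedAddCommGroup X] [NormedSpace ℂ X] {T : X →L[ℂ] X}

lemma dr (hT : ∀ (c : ℂ) (φ : X →L[ℂ] ℂ), φ.comp T = c • φ → φ = 0) (c : ℂ) :
    DenseRange fun z => c • z - T z := fun y => by_contra fun hy => by
  let L : X →L[ℂ] X := c • 1 - T
  have hc : Convex ℝ (Set.range L) := (L.range.restrictScalars ℝ).convex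
  obtain ⟨f, u, h1, h2⟩ := RCLike.geometric_hahn_banach_closed_point (𝕜 := ℂ) hc.closure
    isClosed_closure hy
  have h3 : f = 0 := hT c f (ContinuousLinearMap.ext fun z => by
    by_contra h
    have h4 : f (L z) ≠ 0 := fun h' => h (Eq.symm (by simpa [L, sub_eq_zero] using h'))
    have := h1 _ (subset_closure ⟨(u / f (L z)) • z, rfl⟩)
    rw [map_smul, map_smul, smul_eq_mul, div_mul_cancel₀ _ h4] at this
    simp at this)
  have := h1 _ (subset_closure ⟨0, rfl⟩)
  simp [h3] at this h2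
  linarith

lemma krein {P : Set X} (hc : IsClosed P) (add : ∀ a ∈ P, ∀ b ∈ P, a + b ∈ P)
    (sm : ∀ t : ℝ, 0 ≤ t → ∀ a ∈ P, t • a ∈ P) (hT : ∀ a ∈ P, T a ∈ P)
    (hd : ∀ r : ℝ, DenseRange fun z => r • z - T z) {y : X} (hy : y ∈ interior P) :
    0 ∈ interior P := by
  by_contra h0
  have ev : ∀ {Y : Type} [TopologicalSpace Y] (g : Y → X) (a : Y), Continuous g →
      g a ∈ interior P → ∀ᶠ b in 𝓝 a, g b ∈ interior P := fun g a hg h =>
    hg.continuousAt.eventually (isOpen_interior.mem_nhds h)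
  have oa : ∀ a ∈ interior P, ∀ b ∈ P, a + b ∈ interior P := fun a ha b hb =>
    mem_interior_iff_mem_nhds.2 ((ev (fun w => w - b) (a + b) (by fun_prop) (by simpa)).mono
      fun w hw => show w ∈ P by simpa using add _ (interior_subset hw) b hb)
  have os : ∀ t : ℝ, 0 < t → ∀ a ∈ interior P, t • a ∈ interior P := fun t ht a ha =>
    mem_interior_iff_mem_nhds.2 ((ev (fun w => t⁻¹ • w) (t • a) (by fun_prop)
      (by simpa [smul_smul, ht.ne'])).mono fun w hw => show w ∈ P by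
        simpa [smul_smul, ht.ne'] using sm t ht.le _ (interior_subset hw))
  have big : ∀ u ∈ interior P, ∀ z, ∃ s : ℝ, 0 < s ∧ s • u + z ∈ interior P := fun u hu z => by
    obtain ⟨s, h1, h2⟩ := (((ev (fun s : ℝ => u + s • z) 0 (by fun_prop) (by simpa)).filter_mono
      nhdsWithin_le_nhds).and (self_mem_nhdsWithin (s := Set.Ioi 0))).exists
    replace h2 : 0 < s := h2
    exact ⟨s⁻¹, inv_pos.2 h2, by simpa [smul_smul, h2.ne'] using os _ (inv_pos.2 h2) _ h1⟩
  let E : Set ℝ := {t | ∃ u ∈ interior P, t • u - T u ∈ interior P}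
  have e1 : E.Nonempty := by
    obtain ⟨s, -, h⟩ := big y hy (-T y)
    exact ⟨s, y, hy, by rwa [sub_eq_add_neg]⟩
  have e2 : ∀ t ∈ E, 0 < t := fun t ⟨u, h1, h2⟩ => not_le.1 fun h => h0 (by
    simpa using oa _ (oa _ h2 _ (hT _ (interior_subset h1))) _
      (sm _ (neg_nonneg.2 h) _ (interior_subset h1)))
  have e3 : BddBelow E := ⟨0, fun t ht => (e2 t ht).le⟩
  obtain ⟨z, hz⟩ := (hd (sInf E)).exists_mem_open isOpen_interior ⟨y, hy⟩
  obtain ⟨δ, hδ, hz'⟩ := Metric.eventually_nhds_iff.1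
    (ev (fun t : ℝ => t • z - T z) (sInf E) (by fun_prop) hz)
  obtain ⟨t, ht, ht'⟩ := exists_lt_of_csInf_lt e1 (lt_add_of_pos_right _ hδ)
  have h1 := hz' (y := t) (by
    rw [Real.dist_eq, abs_of_nonneg (sub_nonneg.2 (csInf_le e3 ht))]; linarith)
  have t0 := e2 t ht
  obtain ⟨u, u1, u2⟩ := ht
  let S : Set ℝ := Set.Ici 0 ∩ {s | s • u + z ∈ P}
  have s1 : BddBelow S := ⟨0, fun _ h => h.1⟩
  obtain ⟨s2, s3⟩ : sInf S ∈ S := IsClosed.csInf_mem
    (isClosed_Ici.inter (hc.preimage (by fun_prop)))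
    (by obtain ⟨s, a, b⟩ := big u u1 z; exact ⟨s, a.le, interior_subset (s := P) b⟩) s1
  have s4 : sInf S • u + z ∈ interior P := by
    have := os _ (inv_pos.2 t0) _
      (oa _ (oa _ h1 _ (sm _ s2 _ (interior_subset u2))) _ (hT _ s3))
    rwa [show t • z - T z + sInf S • (t • u - T u) + T (sInf S • u + z) =
      t • (sInf S • u + z) by rw [map_add, T.map_smul_of_tower]; module, inv_smul_smul₀ t0.ne']
      at this
  rcases eq_or_lt_of_le (show 0 ≤ sInf S from s2) with h | h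
  · rw [← h, zero_smul, zero_add] at s4
    have := csInf_le e3 ⟨z, s4, hz' (y := sInf E - δ / 2) (by
      rw [Real.dist_eq, sub_sub_cancel_left, abs_neg, abs_of_pos (half_pos hδ)]; linarith)⟩
    linarith
  · obtain ⟨s, a, b⟩ := (((ev (fun s : ℝ => s • u + z) _ (by fun_prop) s4).filter_mono
      nhdsWithin_le_nhds).and (Ioo_mem_nhdsLT h)).exists
    exact absurd (csInf_le s1 ⟨b.1.le, interior_subset (s := P) a⟩) (not_le.2 b.2)

lemma zero_int {K : Set X} (hK : Convex ℝ K) (hT : ∀ a ∈ K, T a ∈ K)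
    (hd : ∀ r : ℝ, DenseRange fun z => r • z - T z) {y : X} (hy : y ∈ interior K) :
    0 ∈ interior K := by
  let P : Set X := {z | ∃ t : ℝ, 0 ≤ t ∧ ∃ k ∈ K, t • k = z}
  have h := krein (P := closure P) isClosed_closure
    (fun a ha b hb => map_mem_closure₂ continuous_add ha hb (by
      rintro _ ⟨s, hs, k, hk, rfl⟩ _ ⟨t, ht, l, hl, rfl⟩
      obtain ⟨m, h1, h2⟩ := hK.exists_mem_add_smul_eq hk hl hs ht
      exact ⟨_, add_nonneg hs ht, m, h1, h2⟩))
    (fun t ht a ha => map_mem_closure (continuous_const_smul t) ha (by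
      rintro _ ⟨s, hs, k, hk, rfl⟩
      exact ⟨_, mul_nonneg ht hs, k, hk, mul_smul _ _ _⟩))
    (fun a ha => map_mem_closure T.continuous ha (by
      rintro _ ⟨s, hs, k, hk, rfl⟩
      exact ⟨s, hs, _, hT k hk, (T.map_smul_of_tower _ _).symm⟩)) hd
    (interior_mono (fun k hk => subset_closure (s := P) ⟨1, zero_le_one, k, hk, one_smul _ _⟩) hy)
  obtain ⟨s, h1, h2⟩ := ((((by fun_prop : Continuous fun s : ℝ => -s • y).continuousAt.eventually_mem
    (s := closure P) (mem_interior_iff_mem_nhds.1 (by simpa using h))).filter_mono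
      nhdsWithin_le_nhds).and (self_mem_nhdsWithin (a := (0 : ℝ)) (s := Set.Ioi 0))).exists
  replace h2 : 0 < s := h2
  obtain ⟨_, h3, t, ht, k, hk, rfl⟩ := mem_closure_iff.1 h1 {z | -s⁻¹ • z ∈ interior K}
    (isOpen_interior.preimage (by fun_prop)) (by simpa [smul_smul, h2.ne'])
  have p : 0 < s + t := by positivity
  have := hK.combo_interior_self_mem_interior h3 hk (a := s / (s + t)) (b := t / (s + t))
    (by positivity) (by positivity) (by field_simp)
  rwa [smul_smul, smul_smul, ← add_smul, show s / (s + t) * -s⁻¹ * t + t / (s + t) = 0 by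
    field_simp; ring, zero_smul] at this

lemma pw (m n : ℕ) (z : X) : (T ^ m) ((T ^ n) z) = (T ^ (m + n)) z := by
  rw [pow_add]; rfl

lemma final0 {W : Type} [NormedAddCommGroup W] [NormedSpace ℂ W] [CompleteSpace W] [Nontrivial W]
    (hd : ∀ c : ℂ, DenseRange fun z => c • z - T z) {x : X} {C D : ℝ} (hC : 0 < C) (hD : 0 < D)
    (hx : Dense (Submodule.span ℂ (Set.range fun n : ℕ => (T ^ n) x) : Set X))
    (S : W →L[ℂ] W) (π : W →ₗ[ℂ] X →L[ℂ] ℂ) (S0 : ∀ w z, π (S w) z = π w (T z))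
    (b1 : ∀ (w : W) (n : ℕ), ‖π w ∘L (T ^ n)‖ ≤ C * ‖w‖)
    (b2 : ∀ (w : W) (M : ℝ), 0 ≤ M → (∀ n : ℕ, ‖π w ((T ^ n) x)‖ ≤ M) → ‖w‖ ≤ D * M) : False := by
  have S1 : ∀ (k : ℕ) (w : W) z, π ((S ^ k) w) z = π w ((T ^ k) z) := fun k => by
    induction k with
    | zero => exact fun _ _ => rfl
    | succ k ih => exact fun w z => by rw [pow_succ, pow_succ']; exact (ih (S w) z).trans (S0 _ _)
  obtain ⟨c, hc⟩ := spectrum.nonempty S
  obtain ⟨_, h1, z, hz, rfl⟩ := Metric.dense_iff.1 ((hd c).dense_image (by fun_prop) hx) x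
    (1 / 2 / (D * C)) (by positivity)
  obtain ⟨Q, Q1, Q2⟩ : ∃ Q : W →L[ℂ] W, Commute S Q ∧
      ∀ (w : W) (n : ℕ), π (Q w) ((T ^ n) x) = π w ((T ^ n) z) := by
    clear h1
    induction hz using Submodule.span_induction with
    | mem _ h =>
      obtain ⟨k, rfl⟩ := h
      exact ⟨S ^ k, Commute.self_pow _ _, fun w n => by rw [S1, pw, pw, add_comm]⟩
    | zero => exact ⟨0, Commute.zero_right _, fun w n => by simp⟩
    | add a b _ _ ha hb =>
      obtain ⟨Q, a1, a2⟩ := ha
      obtain ⟨R, b1, b2⟩ := hb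
      exact ⟨Q + R, a1.add_right b1, fun w n => by simp only [_root_.add_apply, map_add, a2, b2]⟩
    | smul t a _ ha =>
      obtain ⟨Q, a1, a2⟩ := ha
      exact ⟨t • Q, a1.smul_right t, fun w n => by simp only [_root_.smul_apply, map_smul, a2]⟩
  have hA : ‖1 - (algebraMap ℂ _ c - S) * Q‖ ≤ 1 / 2 := by
    refine ContinuousLinearMap.opNorm_le_bound _ (by norm_num) fun w => ?_
    rw [Metric.mem_ball, dist_comm, dist_eq_norm, lt_div_iff₀ (by positivity)] at h1
    refine (b2 _ (C * ‖w‖ * ‖x - (c • z - T z)‖) (by positivity) fun n => ?_).trans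
      (by nlinarith [mul_le_mul_of_nonneg_left h1.le (norm_nonneg w)])
    refine le_of_eq_of_le (congrArg _ ?_) (ContinuousLinearMap.le_of_opNorm_le _ (b1 w n) _)
    have e1 := S1 1 (Q w) ((T ^ n) x)
    rw [pw, Q2, pow_one, add_comm, pow_succ] at e1
    rw [Algebra.algebraMap_eq_smul_one]
    simp only [_root_.sub_apply, one_apply_eq_self, mul_apply_eq_comp, _root_.smul_apply, map_sub, map_smul, Q2, e1,
      ContinuousLinearMap.comp_apply]
  have u := (Units.oneSub _ (hA.trans_lt (by norm_num))).isUnit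
  rw [Units.val_oneSub, sub_sub_cancel,
    ((Algebra.commute_algebraMap_left c Q).sub_left Q1).isUnit_mul_iff] at u
  exact hc u.1

lemma final [CompleteSpace X] (hd : ∀ c : ℂ, DenseRange fun z => c • z - T z) {x : X} {C : ℝ}
    (hC : 0 < C) (hx : Dense (Submodule.span ℂ (Set.range fun n : ℕ => (T ^ n) x) : Set X))
    (hb : ∀ (φ : X →L[ℂ] ℂ) (M : ℝ), (∀ n : ℕ, (φ ((T ^ n) x)).re ≤ M) → ‖φ‖ ≤ C * M)
    (φ : X →L[ℂ] ℂ) (M : ℝ) (hφ : ∀ n : ℕ, (φ ((T ^ n) x)).re ≤ M) : φ = 0 := by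
  let W : Submodule ℂ ((X →L[ℂ] ℂ) × (ℕ →ᵇ ℂ)) :=
    { carrier := {p | ∀ n, p.2 n = p.1 ((T ^ n) x)}
      add_mem' := fun ha hb n => by simp [ha n, hb n]
      zero_mem' := fun n => rfl
      smul_mem' := fun c p h n => by simp [h n] }
  have hW : IsClosed (W : Set ((X →L[ℂ] ℂ) × (ℕ →ᵇ ℂ))) := by
    change IsClosed {p : (X →L[ℂ] ℂ) × (ℕ →ᵇ ℂ) | ∀ n, p.2 n = p.1 ((T ^ n) x)}
    simp only [Set.ofPred_forall]
    exact isClosed_iInter fun n => isClosed_eq (by fun_prop) (by fun_prop)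
  have : CompleteSpace W := hW.completeSpace_coe
  let S : W →L[ℂ] W := (((ContinuousLinearMap.compL ℂ X X ℂ).flip T).prodMap
    (compContinuousCLM ℂ ℂ ⟨Nat.succ, continuous_of_discreteTopology⟩) ∘L W.subtypeL).codRestrict
      W fun w n => (w.2 (n + 1)).trans (by rw [pow_succ']; rfl)
  by_contra h0
  have b2 : ∀ n : ℕ, ‖φ ((T ^ n) x)‖ ≤ C * M * ‖x‖ := fun n =>
    (φ ∘L (T ^ n)).le_of_opNorm_le (hb _ _ fun m => by
      rw [ContinuousLinearMap.comp_apply, pw]; exact hφ _) x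
  have : Nontrivial W := nontrivial_of_ne ⟨(φ, ofNormedAddCommGroupDiscrete _ _ b2), fun _ => rfl⟩ 0
    fun h => h0 (congrArg (fun w : W => w.1.1) h)
  let π : W →ₗ[ℂ] X →L[ℂ] ℂ := (LinearMap.fst ℂ (X →L[ℂ] ℂ) (ℕ →ᵇ ℂ)).comp W.subtype
  refine final0 (W := W) hd hC (add_pos hC one_pos) hx S π
    (fun _ _ => rfl) (fun w n => hb _ _ fun m => ?_) fun w M h1 h2 => ?_
  · change (w.1.1 ((T ^ n) ((T ^ m) x))).re ≤ _
    rw [pw, ← w.2]
    exact (Complex.re_le_norm _).trans ((norm_coe_le_norm _ _).trans (norm_snd_le w.1))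
  · have a1 := hb w.1.1 M fun n => (Complex.re_le_norm _).trans (h2 n)
    have a2 : ‖w.1.2‖ ≤ M := (norm_le h1).2 fun n => by rw [w.2]; exact h2 n
    change max ‖w.1.1‖ ‖w.1.2‖ ≤ _
    refine max_le ?_ ?_ <;> nlinarith [mul_nonneg hC.le h1]

end

/-- For every complex Banach space X and bounded operator T whose adjoint has no eigenvalues, and every x, if the closed convex hull of the orbit of x has nonempty interior then it is all of X. -/
theorem result :
    ∀ (X : Type) [NormedAddCommGroup X] [NormedSpace ℂ X] [CompleteSpace X]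
      (T : X →L[ℂ] X),
      (∀ (c : ℂ) (φ : X →L[ℂ] ℂ), φ.comp T = c • φ → φ = 0) →
      ∀ x : X,
        (interior (closure (convexHull ℝ (Set.range (fun n : ℕ => (T ^ n) x))))).Nonempty →
        closure (convexHull ℝ (Set.range (fun n : ℕ => (T ^ n) x))) = Set.univ := by
  intro X _ _ _ T hT x ⟨y, hy⟩
  have hd := dr hT
  have K1 := (convex_convexHull ℝ (Set.range fun n : ℕ => (T ^ n) x)).closure
  have h0 := zero_int (T := T) K1 (by
      refine Set.MapsTo.closure (f := T) ?_ T.continuous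
      refine convexHull_min ?_ ((convex_convexHull ℝ _).is_linear_preimage
        ⟨map_add T, T.map_smul_of_tower⟩)
      rintro _ ⟨n, rfl⟩
      exact subset_convexHull ℝ _ ⟨n + 1, by simp [pow_succ']⟩)
    (fun r => by simpa using hd r) hy
  obtain ⟨ρ, hρ, h1⟩ := Metric.mem_nhds_iff.1 (mem_interior_iff_mem_nhds.1 h0)
  refine Set.eq_univ_of_forall fun v => by_contra fun hv => ?_
  obtain ⟨f, u, f1, f2⟩ := RCLike.geometric_hahn_banach_closed_point (𝕜 := ℂ) K1
    isClosed_closure hv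
  have f3 : f = 0 := by
    refine final hd (x := x) (C := 2 / ρ) (by positivity) ?_ (fun φ M hM => ?_) f u fun n =>
      (f1 _ (subset_closure (subset_convexHull ℝ _ ⟨n, rfl⟩))).le
    · refine Submodule.dense_iff_topologicalClosure_eq_top.2
        (Submodule.eq_top_of_nonempty_interior' _ ⟨y, interior_mono (closure_mono ?_) hy⟩)
      exact convexHull_min Submodule.subset_span
        ((Submodule.span ℂ _).restrictScalars ℝ).convex
    · have h2 : ∀ h : X, ‖h‖ < ρ → (φ h).re ≤ M := fun h hh => closure_minimal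
        (t := {h | (φ h).re ≤ M})
        (convexHull_min (Set.range_subset_iff.2 hM) (convex_halfSpace_le (f := fun h => (φ h).re)
          ⟨fun a b => by simp, fun t a => by simp [φ.map_smul_of_tower]⟩ M))
        (isClosed_le (by fun_prop) continuous_const) (h1 (mem_ball_zero_iff.2 hh))
      have M0 : 0 ≤ M := by simpa using h2 0 (by simpa)
      refine ContinuousLinearMap.opNorm_le_of_shell hρ (by positivity) (c := 2) (by norm_num)
        fun h a b => ?_
      obtain ⟨c, c1, c2⟩ := Complex.exists_norm_eq_mul_self (φ h)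
      have := h2 (c • h) (by rwa [norm_smul, c1, one_mul])
      rw [map_smul, smul_eq_mul, ← c2, Complex.ofReal_re] at this
      rw [Complex.norm_ofNat, div_le_iff₀ two_pos] at a
      rw [div_mul_eq_mul_div, div_mul_eq_mul_div, le_div_iff₀ hρ]
      nlinarith [norm_nonneg (φ h)]
  have := f1 0 (interior_subset h0)
  simp [f3] at this f2
  linarith

end Pool.Agent.S06207
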