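import Pool.Statements.S06212

set_option autoImplicit false
open ComplexOrder
open Pool Pool.MP_cf2fa9_an

namespace Pool.Agent.S06212

open Finset

section Words
variable {α : Type} [DecidableEq α]

/-- Tree distance of two words. -/
def D : List α → List α → ℕ
  | [], y => y.length
  | _ :: x, [] => x.length + 1
  | a :: x, b :: y => if a = b then D x y else (x.length + 1) + (y.length + 1)

theorem D_symm : ∀ x y : List α, D x y = D y x
  | [], [] => rfl
  | [], _ :: _ => by simp [D]
  | _ :: _, [] => by simp [D]
  | a :: x, b :: y => by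
    by_cases h : a = b
    · subst h; simp [D, D_symm x y]
    · have h' : ¬ b = a := fun e => h e.symm
      simp [D, h, h']; omega

/-- The kernel. -/
noncomputable def F (r : ℝ) (x y : List α) : ℝ :=
  r ^ D x y - (2 / 3) * (r ^ x.length * r ^ y.length) - (1 / 16) * (if x = y then 1 else 0)

/-- Indicator of the head letter. -/
def H (a : α) (x : List α) : ℝ := if x.head? = some a then 1 else 0

/-- Indicator of the empty word. -/
def E (x : List α) : ℝ := if x = [] then 1 else 0

variable [Fintype α]

theorem F_rec (r : ℝ) (hr : r ^ 2 = 1 / 3) (x y : List α) :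
    F r x y = (1 / 3) * (r ^ x.length * r ^ y.length)
      + ∑ a, H a x * H a y * (F r x.tail y.tail + (1 / 3) * (r ^ x.tail.length * r ^ y.tail.length))
      - (1 / 16) * (E x * E y) := by
  rcases x with _ | ⟨a, x⟩ <;> rcases y with _ | ⟨b, y⟩
  · simp [F, D, H, E]; norm_num
  · simp [F, D, H, E]; ring
  · simp [F, D, H, E]; ring
  · by_cases h : a = b
    · subst h
      have : ∀ c : α, H c (a :: x) * H c (a :: y) = if c = a then 1 else 0 := by
        intro c
        by_cases hc : c = a
        · subst hc; simp [H]
        · have : ¬ a = c := fun e => hc e.symm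
          simp [H, hc, this]
      simp only [this, ite_mul, one_mul, zero_mul, Finset.sum_ite_eq', Finset.mem_univ, if_true]
      simp only [F, D, if_true, List.tail_cons, List.length_cons, List.cons.injEq, true_and, E,
        reduceCtorEq, if_false]
      have e : r ^ (x.length + 1) * r ^ (y.length + 1) = (1 / 3) * (r ^ x.length * r ^ y.length) := by
        rw [← hr]; ring
      rw [e]; ring
    · have : ∀ c : α, H c (a :: x) * H c (b :: y) = 0 := by
        intro c
        by_cases hc : a = c
        · subst hc
          have : ¬ b = a := fun e => h e.symm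
          simp [H, this]
        · simp [H, hc]
      simp only [this, zero_mul, Finset.sum_const_zero]
      simp only [F, D, h, if_false, List.length_cons, List.cons.injEq, false_and, E, reduceCtorEq]
      ring

theorem pow_rec (r : ℝ) (x : List α) :
    r ^ x.length = E x + r * ∑ a, H a x * r ^ x.tail.length := by
  rcases x with _ | ⟨a, x⟩
  · simp [E, H]
  · have : ∀ c : α, H c (a :: x) = if c = a then 1 else 0 := by
      intro c
      by_cases hc : c = a
      · subst hc; simp [H]
      · have : ¬ a = c := fun e => hc e.symm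
        simp [H, hc, this]
    simp only [this, ite_mul, one_mul, zero_mul, Finset.sum_ite_eq', Finset.mem_univ, if_true]
    simp [E]; ring

theorem F_nonneg (hα : Fintype.card α = 4) (r : ℝ) (hr : r ^ 2 = 1 / 3) {ι : Type} [Fintype ι] :
    ∀ (N : ℕ) (x : ι → List α) (c : ι → ℝ), (∀ i, (x i).length ≤ N) →
      0 ≤ ∑ i, ∑ j, c i * c j * F r (x i) (x j) := by
  intro N
  induction N with
  | zero =>
    intro x c hx
    have h0 : ∀ i, x i = [] := fun i => List.length_eq_zero_iff.mp (Nat.le_zero.mp (hx i))
    have : ∑ i, ∑ j, c i * c j * F r (x i) (x j) = (13 / 48) * (∑ i, c i) ^ 2 := by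
      rw [sq, Finset.sum_mul_sum, Finset.mul_sum]
      refine Finset.sum_congr rfl fun i _ => ?_
      rw [Finset.mul_sum]
      refine Finset.sum_congr rfl fun j _ => ?_
      simp [h0, F, D]; ring
    rw [this]; positivity
  | succ N ih =>
    intro x c hx
    set U : ℝ := ∑ i, c i * r ^ (x i).length with hU
    set V : α → ℝ := fun a => ∑ i, c i * H a (x i) * r ^ (x i).tail.length with hV
    set W : ℝ := ∑ i, c i * E (x i) with hW
    set Q : α → ℝ := fun a => ∑ i, ∑ j, (c i * H a (x i)) * (c j * H a (x j)) *
      F r (x i).tail (x j).tail with hQ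
    have hQ0 : ∀ a, 0 ≤ Q a := fun a =>
      ih (fun i => (x i).tail) (fun i => c i * H a (x i)) (fun i => by
        have := hx i
        simp only [List.length_tail]; omega)
    have e1 : ∑ i, ∑ j, c i * c j * F r (x i) (x j)
        = (1 / 3) * U ^ 2 + ∑ a, (Q a + (1 / 3) * V a ^ 2) - (1 / 16) * W ^ 2 := by
      have hUU : U ^ 2 = ∑ i, ∑ j, c i * c j * (r ^ (x i).length * r ^ (x j).length) := by
        rw [sq, hU, Finset.sum_mul_sum]
        exact Finset.sum_congr rfl fun i _ => Finset.sum_congr rfl fun j _ => by ring
      have hWW : W ^ 2 = ∑ i, ∑ j, c i * c j * (E (x i) * E (x j)) := by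
        rw [sq, hW, Finset.sum_mul_sum]
        exact Finset.sum_congr rfl fun i _ => Finset.sum_congr rfl fun j _ => by ring
      have hVV : ∀ a, Q a + (1 / 3) * V a ^ 2 = ∑ i, ∑ j, c i * c j * (H a (x i) * H a (x j) *
          (F r (x i).tail (x j).tail
            + (1 / 3) * (r ^ (x i).tail.length * r ^ (x j).tail.length))) := by
        intro a
        rw [sq, hV, hQ]
        simp only []
        rw [Finset.sum_mul_sum, Finset.mul_sum, ← Finset.sum_add_distrib]
        refine Finset.sum_congr rfl fun i _ => ?_
        rw [Finset.mul_sum, ← Finset.sum_add_distrib]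
        exact Finset.sum_congr rfl fun j _ => by ring
      simp only [hVV]
      rw [hUU, hWW, Finset.sum_comm (s := (Finset.univ : Finset α)), Finset.mul_sum, Finset.mul_sum,
        ← Finset.sum_add_distrib, ← Finset.sum_sub_distrib]
      refine Finset.sum_congr rfl fun i _ => ?_
      rw [Finset.sum_comm (s := (Finset.univ : Finset α)), Finset.mul_sum, Finset.mul_sum,
        ← Finset.sum_add_distrib, ← Finset.sum_sub_distrib]
      refine Finset.sum_congr rfl fun j _ => ?_
      rw [F_rec r hr, ← Finset.mul_sum]; ring
    have e2 : U = W + r * ∑ a, V a := by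
      rw [hU, hW, hV]
      simp only []
      rw [Finset.sum_comm, Finset.mul_sum, ← Finset.sum_add_distrib]
      refine Finset.sum_congr rfl fun i _ => ?_
      rw [pow_rec r (x i), mul_add, Finset.mul_sum, Finset.mul_sum, Finset.mul_sum]
      congr 1
      exact Finset.sum_congr rfl fun a _ => by ring
    have e3 : (∑ a, V a) ^ 2 ≤ 4 * ∑ a, V a ^ 2 := by
      have := sq_sum_le_card_mul_sum_sq (s := (Finset.univ : Finset α)) (f := V)
      rw [Finset.card_univ, hα] at this
      exact_mod_cast this
    rw [e1, Finset.sum_add_distrib, ← Finset.mul_sum]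
    have hs : 0 ≤ ∑ a, Q a := Finset.sum_nonneg fun a _ => hQ0 a
    have hW' : W = U - r * ∑ a, V a := by linarith
    set S := ∑ a, V a
    have : W ^ 2 ≤ 2 * U ^ 2 + 2 * (r ^ 2 * S ^ 2) := by
      rw [hW']; nlinarith [sq_nonneg (U + r * S)]
    rw [hr] at this
    nlinarith [sq_nonneg U, sq_nonneg S]

end Words

open FreeGroup in
theorem len_eq {β : Type} [DecidableEq β] : ∀ (x y : List (β × Bool)), IsReduced x → IsReduced y →
    (toWord ((mk x)⁻¹ * mk y)).length = D x y
  | [], y, _, hy => by
    have : (mk ([] : List (β × Bool))) = 1 := rfl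
    rw [this, inv_one, one_mul, toWord_mk, hy.reduce_eq]; simp [D]
  | a :: x, [], hx, _ => by
    have : (mk ([] : List (β × Bool))) = 1 := rfl
    rw [this, mul_one, toWord_inv, invRev_length, toWord_mk, hx.reduce_eq]; simp [D]
  | a :: x, b :: y, hx, hy => by
    by_cases h : a = b
    · subst h
      have hx' : FreeGroup.IsReduced x := List.IsChain.tail (l := a :: x) hx
      have hy' : FreeGroup.IsReduced y := List.IsChain.tail (l := a :: y) hy
      have e : (mk (a :: x))⁻¹ * mk (a :: y) = (mk x)⁻¹ * mk y := by
        rw [show a :: x = [a] ++ x from rfl, show a :: y = [a] ++ y from rfl, ← mul_mk, ← mul_mk]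
        group
      rw [e, len_eq x y hx' hy']; simp [D]
    · have hinv : IsReduced (invRev (a :: x)) := by
        have := isReduced_toWord (x := (mk (a :: x))⁻¹)
        rwa [toWord_inv, toWord_mk, hx.reduce_eq] at this
      have hred : IsReduced (invRev (a :: x) ++ (b :: y)) := by
        unfold FreeGroup.IsReduced at *
        rw [List.isChain_append]
        refine ⟨hinv, hy, ?_⟩
        intro p hp q hq
        simp [invRev] at hp hq
        subst hp; subst hq
        intro e
        rcases a with ⟨a1, a2⟩
        rcases b with ⟨b1, b2⟩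
        simp only at e
        subst e
        cases a2 <;> cases b2 <;> simp_all
      rw [inv_mk, mul_mk, toWord_mk, hred.reduce_eq]
      simp [D, h]

/-- The negation of the preceding statement: For k ≥ 2, no nonzero positive definite ℓ²-coefficient ψ(g)=⟨λ(g)η,η⟩ lies below g ↦ (2k−1)^(−∣g∣/2) on the free group F_k. That is, the critical Haagerup function is singular to the Fourier algebra. -/
theorem result :
    ¬ (∀ k : ℕ, 2 ≤ k → ∀ η : FreeGroup (Fin k) → ℂ,
    Summable (fun h => ‖η h‖ ^ 2) → η ≠ 0 →
    ¬ ∀ (n : ℕ) (g : Fin n → FreeGroup (Fin k)) (c : Fin n → ℂ),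
      0 ≤ ∑ i, ∑ j, starRingEnd ℂ (c i) * c j *
        ((((1 / Real.sqrt (2 * (k : ℝ) - 1)) ^ (FreeGroup.toWord ((g i)⁻¹ * g j)).length : ℝ) : ℂ)
          - ∑' h, starRingEnd ℂ (η h) * η (((g i)⁻¹ * g j)⁻¹ * h))) := by
  classical
  intro H0
  refine H0 2 le_rfl (fun h => if h = 1 then (1 / 4 : ℂ) else 0) ?_ ?_ ?_
  · apply summable_of_ne_finset_zero (s := {1})
    intro b hb
    have : b ≠ 1 := by simpa using hb
    simp [this]
  · intro h
    have := congrFun h 1
    simp at this
  · intro n g c
    set r : ℝ := 1 / Real.sqrt (2 * ((2 : ℕ) : ℝ) - 1) with hrdef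
    have hr : r ^ 2 = 1 / 3 := by
      rw [hrdef, div_pow, Real.sq_sqrt (by norm_num)]; norm_num
    set x : Fin n → List (Fin 2 × Bool) := fun i => (g i).toWord with hx
    set K : Fin n → Fin n → ℝ := fun i j =>
      F r (x i) (x j) + (2 / 3) * (r ^ (x i).length * r ^ (x j).length) with hK
    have hKs : ∀ i j, K i j = K j i := by
      intro i j
      simp only [hK, F, D_symm (x i) (x j), eq_comm (a := x i)]
      ring
    have hKn : ∀ a : Fin n → ℝ, 0 ≤ ∑ i, ∑ j, a i * a j * K i j := by
      intro a
      have h1 := F_nonneg (α := Fin 2 × Bool) (by simp) r hr (∑ i, (x i).length) x a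
        (fun i => Finset.single_le_sum (f := fun i => (x i).length) (fun _ _ => Nat.zero_le _)
          (Finset.mem_univ i))
      have h2 : ∑ i, ∑ j, a i * a j * K i j = ∑ i, ∑ j, a i * a j * F r (x i) (x j)
          + (2 / 3) * (∑ i, a i * r ^ (x i).length) ^ 2 := by
        rw [sq, Finset.sum_mul_sum, Finset.mul_sum, ← Finset.sum_add_distrib]
        refine Finset.sum_congr rfl fun i _ => ?_
        rw [Finset.mul_sum, ← Finset.sum_add_distrib]
        refine Finset.sum_congr rfl fun j _ => ?_
        simp only [hK]; ring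
      rw [h2]; positivity
    have hterm : ∀ i j, (((r ^ (FreeGroup.toWord ((g i)⁻¹ * g j)).length : ℝ) : ℂ)
          - ∑' h, starRingEnd ℂ (if h = 1 then (1 / 4 : ℂ) else 0) *
            (if ((g i)⁻¹ * g j)⁻¹ * h = 1 then (1 / 4 : ℂ) else 0)) = (K i j : ℂ) := by
      intro i j
      rw [tsum_eq_single 1 (by intro b hb; simp [hb])]
      have e := len_eq (x i) (x j) FreeGroup.isReduced_toWord FreeGroup.isReduced_toWord
      simp only [hx, FreeGroup.mk_toWord] at e
      rw [e]
      have hiff : ((g i)⁻¹ * g j)⁻¹ * 1 = 1 ↔ x i = x j := by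
        rw [mul_one, inv_eq_one, inv_mul_eq_one]
        exact ⟨fun h => by simp [hx, h], fun h => FreeGroup.toWord_injective h⟩
      simp only [hK, F, hiff, if_true, hx]
      have h4 : starRingEnd ℂ (1 / 4 : ℂ) = 1 / 4 := by
        rw [map_div₀, map_one, map_ofNat]
      rw [h4]
      split_ifs <;> push_cast <;> ring
    simp only [hterm]
    rw [Complex.le_def]
    constructor
    · have : (∑ i, ∑ j, starRingEnd ℂ (c i) * c j * (K i j : ℂ)).re
          = ∑ i, ∑ j, (c i).re * (c j).re * K i j + ∑ i, ∑ j, (c i).im * (c j).im * K i j := by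
        rw [Complex.re_sum, ← Finset.sum_add_distrib]
        refine Finset.sum_congr rfl fun i _ => ?_
        rw [Complex.re_sum, ← Finset.sum_add_distrib]
        refine Finset.sum_congr rfl fun j _ => ?_
        simp; ring
      rw [this, Complex.zero_re]
      exact add_nonneg (hKn _) (hKn _)
    · have : (∑ i, ∑ j, starRingEnd ℂ (c i) * c j * (K i j : ℂ)).im
          = ∑ i, ∑ j, (c i).re * (c j).im * K i j - ∑ i, ∑ j, (c i).im * (c j).re * K i j := by
        rw [Complex.im_sum, ← Finset.sum_sub_distrib]
        refine Finset.sum_congr rfl fun i _ => ?_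
        rw [Complex.im_sum, ← Finset.sum_sub_distrib]
        refine Finset.sum_congr rfl fun j _ => ?_
        simp; ring
      rw [this, Complex.zero_im, Finset.sum_comm (f := fun i j => (c i).im * (c j).re * K i j)]
      symm
      rw [sub_eq_zero]
      exact Finset.sum_congr rfl fun i _ => Finset.sum_congr rfl fun j _ => by rw [hKs j i]; ring

end Pool.Agent.S06212
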