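import Pool.Statements.S06219
import Pool.Agent.Lib.helper3.L2W
import Pool.Agent.Lib.helper3.Hardy
-- import your own Pool.Agent.* helpers here

set_option autoImplicit false
open scoped InnerProductSpace
open Pool Pool.MP_cfa8a6_an

namespace Pool.Agent.S06219

open Filter Topology NormedSpace Complex Finset

section alg
variable {A : Type*} [NormedRing A] [NormedAlgebra ℂ A] [CompleteSpace A]

lemma exp_idem {P : A} (h : P * P = P) (c : ℂ) : exp (c • P) = 1 + (cexp c - 1) • P := by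
  have h1 := (exp_series_hasSum_exp' (𝕂 := ℂ) c).smul_const P
  have h2 := h1.add (hasSum_ite_eq 0 (1 - P))
  rw [← Complex.exp_eq_exp_ℂ] at h2
  refine (HasSum.unique ?_ h2).trans (by module)
  refine (congrArg (HasSum · _) (funext fun n => ?_)).mp (exp_series_hasSum_exp' (𝕂 := ℂ) (c • P))
  cases n with
  | zero => simp
  | succ n => simp [smul_pow, IsIdempotentElem.pow_succ_eq n h, smul_smul]

lemma alg (P : ℕ → A) (h1 : ∀ i, P i * P i = P i) (h2 : ∀ i j, Commute (P i) (P j)) :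
    ∃ (T : A) (N : ℕ → ℕ) (E : ℕ → A), Tendsto E atTop (𝓝 1) ∧
      ∀ j, T ^ N j = (1 - (2 : ℂ) • P j) * E j := by
  let _ : NormedAlgebra ℚ A := .restrictScalars ℚ ℂ A
  let k : ℕ → ℕ := fun i => ⌈2 ^ i * ‖P i‖⌉₊ + 1
  let N : ℕ → ℕ := fun j => ∏ i ∈ range j, 2 * k i
  have N0 : ∀ j, 0 < N j := fun j => prod_pos fun i _ => by positivity
  have N1 : ∀ i j, i ≤ j → N i ∣ N j := fun i j h => prod_dvd_prod_of_subset _ _ _ (range_mono h)
  let a : ℕ → A := fun i => (Real.pi * I / N (i + 1)) • P i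
  have hc : ∀ i j, Commute (a i) (a j) := fun i j => ((h2 i j).smul_left _).smul_right _
  have b : ∀ j i, j ≤ i → ‖N j • a i‖ ≤ Real.pi / 2 / 2 ^ i := fun j i h => by
    have e1 : (N j : ℝ) ≤ N i := Nat.cast_le.2 (Nat.le_of_dvd (N0 i) (N1 j i h))
    have e2 : 2 ^ i * ‖P i‖ ≤ k i := (Nat.le_ceil _).trans (Nat.cast_le.2 (Nat.le_succ _))
    have e3 : (N (i + 1) : ℝ) = N i * (2 * k i) := by simp [N, prod_range_succ]
    have e4 : (0 : ℝ) < N i := Nat.cast_pos.2 (N0 i)
    have e5 : (0 : ℝ) < k i := by positivity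
    rw [← Nat.cast_smul_eq_nsmul ℂ, norm_smul, norm_smul, norm_div, norm_mul, norm_I, norm_real,
      Complex.norm_natCast, Complex.norm_natCast, Real.norm_of_nonneg Real.pi_pos.le, e3]
    calc _ ≤ N i * (Real.pi * 1 / (N i * (2 * k i)) * (k i / 2 ^ i)) := by
          gcongr
          rwa [le_div_iff₀' (by positivity)]
      _ = _ := by field_simp
  have s : Summable a := .of_norm_bounded (hasSum_geometric_two' Real.pi).summable fun i => by
    simpa [N] using b 0 i (Nat.zero_le i)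
  refine ⟨exp (∑' i, a i), fun j => N (j + 1), fun j => exp (N (j + 1) • ∑' i, a (i + (j + 1))),
    ?_, fun j => ?_⟩
  · rw [← NormedSpace.exp_zero (𝔸 := A)]
    refine (exp_continuous.tendsto 0).comp (squeeze_zero_norm (a := fun j => Real.pi * (1 / 2) ^ j)
      (fun j => ?_) (by
        simpa using (tendsto_pow_atTop_nhds_zero_of_lt_one (r := (1 / 2 : ℝ)) (by norm_num)
          (by norm_num)).const_mul Real.pi))
    rw [← ((summable_nat_add_iff (j + 1)).2 s).tsum_const_smul]
    refine tsum_of_norm_bounded (hasSum_geometric_two' _) fun i =>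
      (b _ _ (Nat.le_add_left _ _)).trans ?_
    rw [pow_add, pow_succ, one_div, inv_pow]
    have := Real.pi_pos
    calc _ = Real.pi * (2 ^ j)⁻¹ / 2 / 2 ^ i / 2 := by field_simp
      _ ≤ _ := half_le_self (by positivity)
  · have e : ∀ m ≤ j, exp (N (j + 1) • ∑ i ∈ range m, a i) = 1 := fun m hm => by
      induction m with
      | zero => simp
      | succ m ih =>
        obtain ⟨t, ht⟩ := N1 (m + 1) j hm
        have : (N (m + 1) : ℂ) ≠ 0 := Nat.cast_ne_zero.2 (N0 _).ne'
        rw [sum_range_succ, smul_add, exp_add_of_commute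
          (((Commute.sum_left _ _ _ fun i _ => hc i m).smul_left _).smul_right _),
          ih (Nat.le_of_succ_le hm), one_mul, ← Nat.cast_smul_eq_nsmul ℂ, smul_smul, exp_idem (h1 m),
          show (N (j + 1) : ℂ) * (Real.pi * I / N (m + 1)) = (t * k j : ℕ) * (2 * Real.pi * I) by
            rw [show N (j + 1) = N j * (2 * k j) from prod_range_succ _ _, ht]
            push_cast; field_simp, exp_nat_mul_two_pi_mul_I, sub_self, zero_smul, add_zero]
    have : (N (j + 1) : ℂ) ≠ 0 := Nat.cast_ne_zero.2 (N0 _).ne'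
    rw [← NormedSpace.exp_nsmul, ← s.sum_add_tsum_nat_add (j + 1), smul_add, exp_add_of_commute
      (((Commute.sum_left _ _ _ fun i _ => Commute.tsum_right _ fun l => hc i _).smul_left
        _).smul_right _), sum_range_succ, smul_add, exp_add_of_commute
      (((Commute.sum_left _ _ _ fun i _ => hc i j).smul_left _).smul_right _), e j le_rfl, one_mul,
      ← Nat.cast_smul_eq_nsmul ℂ _ (a j), smul_smul, exp_idem (h1 j), mul_div_cancel₀ _ this,
      exp_pi_mul_I]
    congr 1
    module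

end alg

lemma exists_P (p : ℕ → ℂ) : ∃ P : ℕ → lp (fun _ : ℕ => ℂ) 2 →L[ℂ] lp (fun _ : ℕ => ℂ) 2,
    (∀ i, P i * P i = P i) ∧ (∀ i j, Commute (P i) (P j)) ∧ (∀ i, ‖P i‖ ≤ 2 * (1 + ‖p i‖)) ∧
      ∀ i x a, a < 2 ^ i → P i x a = p i * (x a + x (a ^^^ 2 ^ i)) := by
  let c : ℕ → ℕ → ℂ := fun i a => if a.testBit i then 1 - p i else p i
  have c1 : ∀ i a, ‖c i a‖ ≤ 1 + ‖p i‖ := fun i a => by
    simp only [c]
    split_ifs
    · simpa using norm_sub_le 1 (p i)
    · linarith
  have c2 : ∀ i a, c i a + c i (a ^^^ 2 ^ i) = 1 := fun i a => by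
    by_cases h : a.testBit i <;> simp [c, h]
  have c3 : ∀ i j a, i ≠ j → c i (a ^^^ 2 ^ j) = c i a := fun i j a h => by
    simp [c, h.symm]
  have s1 : ∀ i a, a ^^^ 2 ^ i ^^^ 2 ^ i = a := fun i a => by simp
  choose D d1 d2 using fun i => Lib.H3L2W.exists_wcomp (c i) id Function.injective_id _
    (by positivity) (c1 i)
  choose F f1 f2 using fun i => Lib.H3L2W.exists_wcomp (c i) (· ^^^ 2 ^ i)
    (Function.LeftInverse.injective (g := (· ^^^ 2 ^ i)) (s1 i)) _ (by positivity) (c1 i)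
  have e : ∀ i x a, (D i + F i) x a = c i a * (x a + x (a ^^^ 2 ^ i)) := fun i x a => by
    rw [add_apply, lp.coeFn_add, Pi.add_apply, d1, f1, mul_add, id]
  refine ⟨fun i => D i + F i, fun i => ?_, fun i j => ?_, fun i => ?_, fun i x a h => ?_⟩
  · refine ContinuousLinearMap.ext fun x => lp.ext (funext fun a => ?_)
    rw [mul_apply_eq_comp, e, e, e, s1]
    linear_combination c i a * (x a + x (a ^^^ 2 ^ i)) * c2 i a
  · rcases eq_or_ne i j with rfl | h
    · rfl
    refine ContinuousLinearMap.ext fun x => lp.ext (funext fun a => ?_)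
    simp only [mul_apply_eq_comp, e, c3 _ _ _ h, c3 _ _ _ h.symm]
    rw [Nat.xor_right_comm a]
    ring
  · linarith [norm_add_le (D i) (F i), d2 i, f2 i]
  · rw [e]; simp [c, Nat.testBit_lt_two_pow h]

/-- There is a bounded linear operator T on complex ℓ²(ℕ) such that, for every unit vector x, the set of numbers ⟨Tⁿx, x⟩ over n in ℕ is dense in ℂ. -/
theorem result :
    ∃ T : lp (fun _ : ℕ => ℂ) 2 →L[ℂ] lp (fun _ : ℕ => ℂ) 2,
      ∀ x : lp (fun _ : ℕ => ℂ) 2, ‖x‖ = 1 →
        Dense (Set.range (fun n : ℕ => ⟪x, (T ^ n) x⟫_ℂ)) := by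
  obtain ⟨d, hd⟩ := TopologicalSpace.exists_dense_seq ℂ
  obtain ⟨P, p1, p2, p3, p4⟩ := exists_P fun i => d i.unpair.1
  obtain ⟨T, N, E, t1, t2⟩ := alg P p1 p2
  refine ⟨T, fun x hx => dense_closure.1 (Dense.mono ?_
    ((Function.Surjective.denseRange (f := fun z : ℂ => 1 - 2 * z)
      fun w => ⟨(1 - w) / 2, by ring⟩).comp hd (by fun_prop)))⟩
  rintro _ ⟨k, rfl⟩
  have j1 : Tendsto (Nat.pair k) atTop atTop := tendsto_atTop_mono (Nat.right_le_pair k) tendsto_id
  have q3 : ∀ m, ‖P (k.pair m)‖ ≤ 2 * (1 + ‖d k‖) := fun m => by simpa using p3 (k.pair m)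
  have x0 : Tendsto (fun a => x a) atTop (𝓝 0) := by
    have := ((lp.memℓp x).summable (by norm_num)).tendsto_atTop_zero
    rw [tendsto_zero_iff_norm_tendsto_zero]
    simpa using this.sqrt
  have C0 : (0 : ℝ) < 2 + 3 * ‖d k‖ := by positivity
  have C1 : ((2 + 3 * ‖d k‖ : ℝ) : ℂ) ≠ 0 := ofReal_ne_zero.2 C0.ne'
  have w := Lib.H3Hardy.weak_null (l := atTop)
    (fun m => ((2 + 3 * ‖d k‖ : ℝ) : ℂ)⁻¹ • (P (k.pair m) x - d k • x)) (fun m => by
      rw [norm_smul, norm_inv, norm_real, Real.norm_of_nonneg C0.le, inv_mul_le_iff₀ C0]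
      have := (P (k.pair m)).le_of_opNorm_le (q3 m) x
      have h := norm_sub_le (P (k.pair m) x) (d k • x)
      rw [norm_smul] at h
      rw [hx] at this h
      linarith) (fun a => by
      have h1 : Tendsto (fun m => a ^^^ 2 ^ k.pair m) atTop atTop := by
        refine tendsto_atTop_mono' _ ?_ j1
        filter_upwards [j1.eventually_ge_atTop a] with m hm
        refine Nat.lt_two_pow_self.le.trans (Nat.ge_two_pow_of_testBit ?_)
        simp [Nat.testBit_lt_two_pow (hm.trans_lt Nat.lt_two_pow_self)]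
      have h2 := ((x0.comp h1).const_mul (((2 + 3 * ‖d k‖ : ℝ) : ℂ)⁻¹ * d k)).star
      rw [mul_zero, star_zero] at h2
      refine h2.congr' ?_
      filter_upwards [j1.eventually_ge_atTop a] with m hm
      rw [lp.inner_single_right, lp.coeFn_smul, Pi.smul_apply, lp.coeFn_sub, Pi.sub_apply,
        p4 _ _ _ (hm.trans_lt Nat.lt_two_pow_self), lp.coeFn_smul]
      simp [map_ofNat]
      ring) x
  have w1 := (w.star.const_mul (-2 * ((2 + 3 * ‖d k‖ : ℝ) : ℂ))).const_add (1 - 2 * d k)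
  have w2 : Tendsto (fun m => ⟪x, ((1 - (2 : ℂ) • P (k.pair m)) * (E (k.pair m) - 1)) x⟫_ℂ) atTop
      (𝓝 0) := by
    refine squeeze_zero_norm (fun m => ?_) (by
      simpa using (tendsto_iff_norm_sub_tendsto_zero.1 (t1.comp j1)).const_mul
        (1 + 2 * (2 * (1 + ‖d k‖))))
    refine (norm_inner_le_norm _ _).trans ?_
    rw [hx, one_mul]
    refine (ContinuousLinearMap.le_opNorm _ _).trans ?_
    rw [hx, mul_one]
    refine (norm_mul_le _ _).trans (mul_le_mul_of_nonneg_right ((norm_sub_le _ _).trans ?_)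
      (norm_nonneg _))
    rw [norm_smul, Complex.norm_ofNat]
    exact add_le_add ContinuousLinearMap.norm_id_le (by linarith [q3 m])
  have w3 := w1.add w2
  rw [star_zero, mul_zero, add_zero, add_zero] at w3
  refine mem_closure_of_tendsto w3 (Eventually.of_forall fun m => ⟨N (k.pair m), ?_⟩)
  have x1 : ⟪x, x⟫_ℂ = 1 := by rw [inner_self_eq_norm_sq_to_K, hx]; simp
  simp only [t2, mul_sub, mul_one, sub_apply, inner_sub_right, RCLike.star_def, inner_conj_symm,
    inner_smul_right, smul_apply, one_apply_eq_self, x1]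
  field_simp
  ring

end Pool.Agent.S06219
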