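import Pool.Statements.S06250
import Pool.Agent.Lib.helper12.SmaleB

set_option autoImplicit false
open Pool Pool.MP_d219ff_an

namespace Pool.Agent.S06250
open Pool.Agent.Lib.H12Smale

/-- The negation of the preceding statement: Every surjunctive Smale system is conjugate to the disjoint union of a non-wandering Smale system and a countable subshift of finite type whose Cantor-Bendixson rank is at most 2 (second derived set equals third). -/
theorem result :
    ¬ (∀ (X : Type) [TopologicalSpace X] [CompactSpace X] (f : X ≃ₜ X),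
      (∃ (d : X → X → ℝ) (ε lam : ℝ) (br : X → X → X),
        (∀ x y, d x y = d y x) ∧ (∀ x y, d x y = 0 ↔ x = y) ∧
        (∀ x y z, d x z ≤ d x y + d y z) ∧
        (∀ U : Set X, IsOpen U ↔ ∀ x ∈ U, ∃ r > 0, ∀ y, d x y < r → y ∈ U) ∧
        0 < ε ∧ 0 < lam ∧ lam < 1 ∧
        ContinuousOn (fun p : X × X => br p.1 p.2) {p | d p.1 p.2 ≤ ε} ∧
        (∀ x, br x x = x) ∧
        (∀ x y z, d y z ≤ ε → d x (br y z) ≤ ε → d x z ≤ ε → br x (br y z) = br x z) ∧
        (∀ x y z, d x y ≤ ε → d (br x y) z ≤ ε → d x z ≤ ε → br (br x y) z = br x z) ∧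
        (∀ x y, d x y ≤ ε → d (f x) (f y) ≤ ε → f (br x y) = br (f x) (f y)) ∧
        (∀ x y z, d x y ≤ ε → br y x = x → d x z ≤ ε → br z x = x →
          d (f y) (f z) ≤ lam * d y z) ∧
        (∀ x y z, d x y ≤ ε → br x y = x → d x z ≤ ε → br x z = x →
          d (f.symm y) (f.symm z) ≤ lam * d y z)) →
      (∀ τ : X → X, Continuous τ → (∀ x, τ (f x) = f (τ x)) →
        Function.Injective τ → Function.Surjective τ) →
      ∃ (Y : Type) (_ : TopologicalSpace Y) (_ : CompactSpace Y) (g : Y ≃ₜ Y),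
        (∃ (d : Y → Y → ℝ) (ε lam : ℝ) (br : Y → Y → Y),
          (∀ x y, d x y = d y x) ∧ (∀ x y, d x y = 0 ↔ x = y) ∧
          (∀ x y z, d x z ≤ d x y + d y z) ∧
          (∀ U : Set Y, IsOpen U ↔ ∀ x ∈ U, ∃ r > 0, ∀ y, d x y < r → y ∈ U) ∧
          0 < ε ∧ 0 < lam ∧ lam < 1 ∧
          ContinuousOn (fun p : Y × Y => br p.1 p.2) {p | d p.1 p.2 ≤ ε} ∧
          (∀ x, br x x = x) ∧
          (∀ x y z, d y z ≤ ε → d x (br y z) ≤ ε → d x z ≤ ε → br x (br y z) = br x z) ∧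
          (∀ x y z, d x y ≤ ε → d (br x y) z ≤ ε → d x z ≤ ε → br (br x y) z = br x z) ∧
          (∀ x y, d x y ≤ ε → d (g x) (g y) ≤ ε → g (br x y) = br (g x) (g y)) ∧
          (∀ x y z, d x y ≤ ε → br y x = x → d x z ≤ ε → br z x = x →
            d (g y) (g z) ≤ lam * d y z) ∧
          (∀ x y z, d x y ≤ ε → br x y = x → d x z ≤ ε → br x z = x →
            d (g.symm y) (g.symm z) ≤ lam * d y z)) ∧
        (∀ U : Set Y, IsOpen U → U.Nonempty →
          ∃ n : ℕ, 1 ≤ n ∧ ((⇑g)^[n] '' U ∩ U).Nonempty) ∧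
        ∃ (A : Type) (_ : Fintype A) (_ : TopologicalSpace A) (_ : DiscreteTopology A)
          (F : Finset (List A)) (Z : Set (ℤ → A)),
          Z = {x : ℤ → A | ∀ w ∈ F, ∀ i : ℤ, ∃ j : Fin w.length, x (i + (j : ℤ)) ≠ w.get j} ∧
          Z.Countable ∧
          derivedSet (derivedSet Z) = derivedSet (derivedSet (derivedSet Z)) ∧
          ∃ σZ : Z → Z, (∀ z : Z, ((σZ z : Z) : ℤ → A) = fun i => (z : ℤ → A) (i + 1)) ∧
            ∃ h : X ≃ₜ (Y ⊕ Z), ∀ x : X, h (f x) = Sum.map (⇑g) σZ (h x)) := by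
  intro H
  obtain ⟨Y, _, _, g, -, hnw, A, _, _, _, F, Z, -, hZ, -, σZ, -, h, hh⟩ :=
    H X f smale surjunctive
  have hit : ∀ (n : ℕ) x, h ((⇑f)^[n] x) = (Sum.map (⇑g) σZ)^[n] (h x) := fun n x =>
    Function.Semiconj.iterate_right hh n x
  have hit2 : ∀ (n : ℕ) (w : Y), (Sum.map (⇑g) σZ)^[n] (Sum.inl w) = Sum.inl ((⇑g)^[n] w) := by
    intro n w
    induction n with
    | zero => rfl
    | succ n ih => rw [Function.iterate_succ_apply', Function.iterate_succ_apply', ih]; rfl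
  let U : Set X := (fun z : X => (z.1 0).1) ⁻¹' Set.Ioo ((1 : ℝ) : EReal) ((2 : ℝ) : EReal)
  have hU : IsOpen U := isOpen_Ioo.preimage (continuous_fst.comp (cont_ev 0))
  have hUio : ∀ r, io r ∈ U ↔ r ∈ Set.Ioo (1 : ℝ) 2 := by
    intro r
    simp only [U, Set.mem_preimage, io_fst, Set.mem_Ioo, EReal.coe_lt_coe_iff, zpow_zero, one_mul]
  have hUr : ∀ z ∈ U, ∃ r, z = io r := by
    intro z hz
    rcases cases3 z with h1 | h1 | h1
    · exact h1
    · exact absurd (lt_of_eq_of_lt (h1 0).symm hz.2) not_top_lt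
    · exact absurd (lt_of_lt_of_eq hz.1 (h1 0)) not_lt_bot
  have key : ∀ r : Set.Ioo (1 : ℝ) 2, ∃ z : Z, h (io r) = Sum.inr z := by
    intro r
    rcases hr : h (io r) with w | z
    · exfalso
      have hV : IsOpen ((fun w : Y => h.symm (Sum.inl w)) ⁻¹' U) :=
        hU.preimage (h.symm.continuous.comp continuous_inl)
      obtain ⟨n, hn, _, ⟨w', hw', rfl⟩, hw''⟩ := hnw _ hV ⟨w, by
        simp only [Set.mem_preimage, ← hr, Homeomorph.symm_apply_apply]
        exact (hUio _).2 r.2⟩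
      simp only [Set.mem_preimage] at hw' hw''
      obtain ⟨s, hs⟩ := hUr _ hw'
      have e : h.symm (Sum.inl ((⇑g)^[n] w')) = io (2 ^ n * s) := by
        rw [← iter_io, ← hs, Homeomorph.symm_apply_eq, hit, Homeomorph.apply_symm_apply, hit2]
      rw [e, hUio] at hw''
      rw [hs, hUio] at hw'
      have : (2 : ℝ) ^ 1 ≤ 2 ^ n := pow_le_pow_right₀ (by norm_num) hn
      nlinarith [hw'.1, hw''.2]
    · exact ⟨z, rfl⟩
  choose k hk using key
  have hki : Function.Injective k := fun a b hab =>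
    Subtype.ext (io_inj (h.injective (by rw [hk, hk, hab])))
  have : Countable Z := hZ.to_subtype
  have hc : Countable (Set.Ioo (1 : ℝ) 2) := hki.countable
  have h3 := Cardinal.mk_Ioo_real (show (1 : ℝ) < 2 by norm_num)
  have h4 := Cardinal.mk_le_aleph0_iff.2 hc
  rw [h3] at h4
  exact absurd h4 (not_le.2 Cardinal.aleph0_lt_continuum)

end Pool.Agent.S06250
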