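import Pool.Statements.S06255
import Pool.Agent.Lib.helper5.Moeb

set_option autoImplicit false
open Pool Pool.MP_d2b9e5_an

namespace Pool.Agent.S06255

/-- For every ordinal metric ρ on ω₁ satisfying (ρ1)–(ρ4), the space of continuous real functions on the closure K_ρ of the sets F_n(α) in {0,1}^ω₁ has a norming Markushevich basis. -/
theorem result :
  ∀ (W : Type) [LinearOrder W] [WellFoundedLT W],
    ¬ (Set.univ : Set W).Countable →
    (∀ a : W, (Set.Iio a).Countable) →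
    ∀ ρ : W → W → ℕ,
      (∀ α β γ : W, α < β → β < γ →
        ρ α γ ≤ max (ρ α β) (ρ β γ) ∧ ρ α β ≤ max (ρ α γ) (ρ β γ) ∧
          0 < ρ α β ∧ ρ α γ ≠ ρ β γ) →
      ∀ K : Set (W → Bool),
        K = closure (Set.range (fun p : ℕ × W =>
          fun ξ : W => decide (ξ ≤ p.2 ∧ (ξ = p.2 ∨ ρ ξ p.2 ≤ p.1)))) →
        ∃ (I : Type) (x : I → BoundedContinuousFunction (↥K) ℝ)
          (f : I → (BoundedContinuousFunction (↥K) ℝ →L[ℝ] ℝ)),
          (∀ i j : I, (i = j → f j (x i) = 1) ∧ (i ≠ j → f j (x i) = 0)) ∧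
          (Submodule.span ℝ (Set.range x)).topologicalClosure = ⊤ ∧
          (∀ v : BoundedContinuousFunction (↥K) ℝ, (∀ i, f i v = 0) → v = 0) ∧
          ∃ c : ℝ, 0 < c ∧ ∀ v : BoundedContinuousFunction (↥K) ℝ, ∀ t : ℝ, t < c * ‖v‖ →
            ∃ φ ∈ Submodule.span ℝ (Set.range f), ‖φ‖ ≤ 1 ∧ t < |φ v| := by
  intro W _ _ w1 w2 ρ h K hK
  classical
  have : CompactSpace K := isCompact_iff_compactSpace.1 (hK ▸ isClosed_closure.isCompact)
  let F := fun (n : ℕ) (a : W) (ξ : W) => decide (ξ ≤ a ∧ (ξ = a ∨ ρ ξ a ≤ n))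
  have e : ∀ n a ξ, F n a ξ ↔ ξ = a ∨ ξ < a ∧ ρ ξ a ≤ n := fun n a ξ => by
    simp only [F, decide_eq_true_eq, le_iff_eq_or_lt (a := ξ)]
    tauto
  have f0 : ∀ n a, F n a ∈ K := fun n a => hK ▸ subset_closure ⟨(n, a), rfl⟩
  have f1 : ∀ n a, {ξ | F n a ξ}.Finite := fun n a => ((Set.Finite.of_injOn (f := (ρ · a))
    (s := {ξ | ξ < a ∧ ρ ξ a ≤ n}) (t := Set.Iic n) (fun _ k => k.2) (fun x k y l e => by_contra
      fun m => (lt_or_gt_of_ne m).elim (fun j => (h x y a j l.1).2.2.2 e) fun j =>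
        (h y x a j k.1).2.2.2 e.symm) (Set.finite_Iic n)).insert a).subset fun ξ => (e ..).1
  obtain ⟨I, x, f, h1, h2, h3, h4, h5⟩ := (H5M.moeb (K := K) (Subtype.dense_iff.2
    (hK.le.trans (closure_mono (by
      rintro _ ⟨p, rfl⟩
      exact ⟨⟨_, f0 p.1 p.2⟩, f1 p.1 p.2, rfl⟩)))) fun s _ => by
    rcases s.eq_empty_or_nonempty with rfl | n
    · refine ⟨fun _ => false, hK ▸ mem_closure_iff.2 fun U u1 u2 => ?_, by simp, by simp⟩
      obtain ⟨G, t, t1, t2⟩ := isOpen_pi_iff.1 u1 _ u2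
      obtain ⟨a, -, ha⟩ := Set.Infinite.exists_notMem_finset (fun k => w1 k.countable) G
      obtain ⟨b, hb⟩ : ∃ b, a < b := by_contra fun k => w1 (((w2 a).insert a).mono fun b _ =>
        (not_lt.1 fun j => k ⟨b, j⟩).eq_or_lt)
      refine ⟨F 0 a, t2 fun ξ m => ?_, (0, a), rfl⟩
      rw [Bool.eq_false_iff.2 fun k => ((e 0 a ξ).1 k).elim (fun k => ha (k ▸ m)) fun k =>
        (h ξ a b k.1 hb).2.2.1.not_ge k.2]
      exact (t1 ξ m).2
    obtain ⟨b, b1, b2⟩ := s.exists_max_image id n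
    refine ⟨_, f0 ((s.erase b).sup (ρ · b)) b, fun ξ m => (e ..).2 ((eq_or_ne ξ b).imp id fun k =>
      ⟨(b2 ξ m).lt_of_ne k, Finset.le_sup (f := (ρ · b)) (Finset.mem_erase.2 ⟨k, m⟩)⟩),
        fun x m k ζ z => closure_minimal ?_ (H5M.cl s ζ) (hK ▸ m) k⟩
    rintro _ ⟨⟨n, a⟩, rfl⟩ k
    rcases (e ..).1 z with rfl | z
    · exact k _ b1
    have j : ρ ζ b ≤ n := z.2.trans (Finset.sup_le fun ξ m => by
      have l := (b2 ξ (Finset.mem_erase.1 m).2).lt_of_ne (Finset.mem_erase.1 m).1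
      rcases (e n a b).1 (k b b1) with rfl | p
      · exact (((e ..).1 (k ξ (Finset.mem_erase.1 m).2)).resolve_left l.ne).2
      · exact (h ξ b a l p.1).2.1.trans (max_le (((e ..).1 (k ξ (Finset.mem_erase.1 m).2)).resolve_left
          (l.trans p.1).ne).2 p.2))
    refine (e n a ζ).2 (.inr ?_)
    rcases (e n a b).1 (k b b1) with rfl | p
    · exact ⟨z.1, j⟩
    · exact ⟨z.1.trans p.1, (h ζ b a z.1 p.1).1.trans (max_le j p.2)⟩).of_equiv
      (ContinuousMap.linearIsometryBoundedOfCompact K ℝ ℝ)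
  exact ⟨I, x, f, fun i j => ⟨fun e => e ▸ h1 i, fun e => h2 j i e.symm⟩,
    Submodule.dense_iff_topologicalClosure_eq_top.1 h3, h4, 1, one_pos, by simpa using h5⟩

end Pool.Agent.S06255
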