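import Pool.Statements.S06274
-- import your own Pool.Agent.* helpers here

set_option autoImplicit false
open Filter Topology
open Pool Pool.MP_d4a912_an

namespace Pool.Agent.S06274

abbrev L := lp (fun _ : ℕ => ℝ) ⊤
abbrev L2 := lp (fun _ : ℕ => ℝ) 2
abbrev E := WithLp 2 (ℝ × L2)
abbrev J := ℕ ⊕ (ℕ × ℕ × Bool)
noncomputable abbrev A := lp (fun _ : J => E) ⊤

noncomputable def a (i : ℕ) : ℝ := (1 / 2) ^ (i + 1)

lemma a_pos (i : ℕ) : 0 < a i := by unfold a; positivity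

lemma hs_a : HasSum (fun i => a i ^ 2) (1 / 3) := by
  have h := (hasSum_geometric_of_lt_one (r := (1 / 4 : ℝ)) (by norm_num) (by norm_num)).mul_left (1 / 4)
  have e : (fun i => a i ^ 2) = fun i : ℕ => (1 / 4 : ℝ) * (1 / 4) ^ i := by
    funext i
    rw [a, ← pow_mul, mul_comm, pow_mul, pow_succ]; norm_num [mul_comm]
  have e2 : (1 / 3 : ℝ) = 1 / 4 * (1 - 1 / 4)⁻¹ := by norm_num
  rw [e, e2]; exact h

lemma coord_le (x : L) (i : ℕ) : |x i| ≤ ‖x‖ := lp.norm_apply_le_norm (by simp) x i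

lemma term_le (x : L) (i : ℕ) : ‖a i * x i‖ ^ (2 : ENNReal).toReal ≤ a i ^ 2 * ‖x‖ ^ 2 := by
  simp only [ENNReal.toReal_ofNat, Real.rpow_ofNat, norm_mul, Real.norm_eq_abs, mul_pow, sq_abs]
  refine mul_le_mul_of_nonneg_left ?_ (sq_nonneg _)
  rw [← sq_abs]
  exact pow_le_pow_left₀ (abs_nonneg _) (coord_le x i) 2

lemma memT (x : L) : Memℓp (fun i => a i * x i) 2 :=
  memℓp_gen (Summable.of_nonneg_of_le (fun i => by positivity) (term_le x) (hs_a.summable.mul_right _))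

noncomputable def T : L →ₗ[ℝ] L2 where
  toFun x := ⟨fun i => a i * x i, memT x⟩
  map_add' x y := by ext i; simp [mul_add]
  map_smul' c x := by ext i; simp; ring

lemma T_apply (x : L) (i : ℕ) : T x i = a i * x i := rfl

lemma T_norm (x : L) : ‖T x‖ ^ 2 ≤ 1 / 3 * ‖x‖ ^ 2 := by
  have h := lp.norm_rpow_eq_tsum (p := 2) (by norm_num) (T x)
  have e : ‖T x‖ ^ (2 : ENNReal).toReal = ‖T x‖ ^ 2 := by simp
  rw [← e, h, ← hs_a.tsum_eq, ← tsum_mul_right]
  exact Summable.tsum_le_tsum (term_le x) ((lp.memℓp (T x)).summable (by norm_num))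
    (hs_a.summable.mul_right _)

lemma T_coord (x : L) (i : ℕ) : a i * |x i| ≤ ‖T x‖ := by
  have := lp.norm_apply_le_norm (p := 2) (by norm_num) (T x) i
  rwa [T_apply, norm_mul, Real.norm_eq_abs, Real.norm_eq_abs, abs_of_pos (a_pos i)] at this

def mn (k : ℕ) : ℕ := min (Nat.unpair k).1 (Nat.unpair k).2
def mx (k : ℕ) : ℕ := max (Nat.unpair k).1 (Nat.unpair k).2

noncomputable def φ : J → L → ℝ
  | Sum.inl k, x => x (k + 1)
  | Sum.inr (k, l, s), x => if mx k < mn l then 2 / 3 * (x (k + 1) + cond s 1 (-1) * x (l + 1)) else 0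

noncomputable def β : J → ℝ
  | Sum.inl k => 1 / (mn k + 1)
  | Sum.inr _ => 1

lemma β_pos (j : J) : 0 < β j := by cases j <;> simp only [β] <;> positivity
lemma β_le (j : J) : β j ≤ 1 := by
  cases j <;> simp only [β, le_refl]
  rw [div_le_one (by positivity)]; simp

lemma φ_add (j : J) (x y : L) : φ j (x + y) = φ j x + φ j y := by
  rcases j with k | ⟨k, l, s⟩ <;> simp only [φ]
  · simp
  · split_ifs <;> simp; ring

lemma φ_smul (j : J) (c : ℝ) (x : L) : φ j (c • x) = c * φ j x := by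
  rcases j with k | ⟨k, l, s⟩ <;> simp only [φ]
  · simp
  · split_ifs <;> simp; ring

lemma φ_le (j : J) (x : L) : |φ j x| ≤ 2 * ‖x‖ := by
  rcases j with k | ⟨k, l, s⟩ <;> simp only [φ]
  · linarith [coord_le x (k + 1), norm_nonneg x]
  · have h1 := abs_le.1 (coord_le x (k + 1))
    have h2 := abs_le.1 (coord_le x (l + 1))
    split_ifs
    · cases s <;> simp only [cond_true, cond_false] <;> rw [abs_le] <;> constructor <;>
        linarith [h1.1, h1.2, h2.1, h2.2]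
    · simp

noncomputable def Hc (j : J) (x : L) : E := WithLp.toLp 2 (φ j x, β j • T x)

lemma Hc_sq (j : J) (x : L) : ‖Hc j x‖ ^ 2 = φ j x ^ 2 + β j ^ 2 * ‖T x‖ ^ 2 := by
  rw [Hc, WithLp.prod_norm_sq_eq_of_L2]
  simp [norm_smul, mul_pow]

lemma Hc_le (j : J) (x : L) : ‖Hc j x‖ ≤ 3 * ‖x‖ := by
  apply abs_le_of_sq_le_sq' _ (by positivity) |>.2
  rw [Hc_sq]
  have h1 : φ j x ^ 2 ≤ (2 * ‖x‖) ^ 2 := by rw [← sq_abs]; gcongr; exact φ_le j x
  have h2 := T_norm x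
  have h3 : β j ^ 2 ≤ 1 := pow_le_one₀ (β_pos j).le (β_le j)
  nlinarith [sq_nonneg ‖T x‖, sq_nonneg ‖x‖]

noncomputable def Φ : L →L[ℝ] A :=
  LinearMap.mkContinuous
    { toFun := fun x => ⟨fun j => Hc j x, memℓp_infty ⟨3 * ‖x‖, by
        rintro _ ⟨j, rfl⟩; exact Hc_le j x⟩⟩
      map_add' := fun x y => by
        ext j : 2
        show Hc j (x + y) = Hc j x + Hc j y
        simp only [Hc, φ_add, map_add, smul_add]; rfl
      map_smul' := fun c x => by
        ext j : 2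
        show Hc j (c • x) = c • Hc j x
        simp only [Hc, φ_smul, map_smul, smul_comm (β j) c]; rfl } 3
    (fun x => lp.norm_le_of_forall_le (by positivity) fun j => Hc_le j x)

lemma Φ_apply (x : L) (j : J) : Φ x j = Hc j x := rfl

lemma Hc_le_Φ (x : L) (j : J) : ‖Hc j x‖ ≤ ‖Φ x‖ := lp.norm_apply_le_norm (by simp) (Φ x) j

lemma φ_le_Φ (x : L) (j : J) : |φ j x| ≤ ‖Φ x‖ := by
  refine le_trans (abs_le_of_sq_le_sq ?_ (norm_nonneg _)) (Hc_le_Φ x j)
  rw [Hc_sq]; nlinarith [sq_nonneg (β j * ‖T x‖)]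

lemma T_le_Φ (x : L) : ‖T x‖ ≤ ‖Φ x‖ := by
  refine le_trans (abs_le_of_sq_le_sq' ?_ (norm_nonneg _)).2 (Hc_le_Φ x (Sum.inr (0, 0, true)))
  rw [Hc_sq]; simp only [β]; nlinarith [sq_nonneg (φ (Sum.inr (0, 0, true)) x)]

lemma coord_le_Φ (x : L) (i : ℕ) : |x i| ≤ 2 * ‖Φ x‖ := by
  cases i with
  | zero =>
    have := (T_coord x 0).trans (T_le_Φ x)
    simp only [a] at this; linarith
  | succ k =>
    have := φ_le_Φ x (Sum.inl k)
    simp only [φ] at this; linarith [norm_nonneg (Φ x)]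

lemma norm_le_Φ (x : L) : ‖x‖ ≤ 2 * ‖Φ x‖ :=
  lp.norm_le_of_forall_le (by positivity) (coord_le_Φ x)

def c0 : Submodule ℝ L where
  carrier := {x | Tendsto x atTop (𝓝 0)}
  add_mem' {x y} hx hy := by
    have := Tendsto.add hx hy
    rw [add_zero] at this
    exact this
  zero_mem' := tendsto_const_nhds
  smul_mem' c x hx := by
    have := Tendsto.const_smul hx c
    rw [smul_zero] at this
    exact this

lemma c0_closed : IsClosed (c0 : Set L) := by
  rw [← closure_subset_iff_isClosed]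
  intro x hx
  show Tendsto x atTop (𝓝 0)
  rw [Metric.tendsto_atTop]
  intro ε hε
  obtain ⟨y, hy, hxy⟩ := Metric.mem_closure_iff.1 hx (ε / 2) (half_pos hε)
  obtain ⟨N, hN⟩ := Metric.tendsto_atTop.1 hy (ε / 2) (half_pos hε)
  refine ⟨N, fun n hn => ?_⟩
  have h1 := hN n hn
  have h2 := coord_le (x - y) n
  rw [dist_eq_norm] at hxy
  simp only [dist_zero_right, Real.norm_eq_abs, lp.coeFn_sub, Pi.sub_apply] at h1 h2 ⊢
  have := abs_sub_abs_le_abs_sub (x n) (y n)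
  linarith

def C0 : Type := c0
noncomputable instance : NormedAddCommGroup C0 := inferInstanceAs (NormedAddCommGroup c0)
noncomputable instance : NormedSpace ℝ C0 := inferInstanceAs (NormedSpace ℝ c0)
instance : CompleteSpace C0 := c0_closed.completeSpace_coe

noncomputable def v : C0 →L[ℝ] L := c0.subtypeL

lemma v_norm (x : C0) : ‖v x‖ = ‖x‖ := rfl
lemma v_tend (x : C0) : Tendsto (v x) atTop (𝓝 0) := x.2

noncomputable def Ψ : C0 →L[ℝ] A := Φ ∘L v

noncomputable def X0 : Submodule ℝ A := LinearMap.range (Ψ : C0 →ₗ[ℝ] A)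

lemma X_closed : IsClosed (X0 : Set A) := by
  have : AntilipschitzWith 2 Ψ := Ψ.antilipschitz_of_bound fun x => norm_le_Φ (v x)
  exact this.isClosed_range Ψ.uniformContinuous

def X : Type := X0
noncomputable instance : NormedAddCommGroup X := inferInstanceAs (NormedAddCommGroup X0)
noncomputable instance : NormedSpace ℝ X := inferInstanceAs (NormedSpace ℝ X0)
instance : CompleteSpace X := X_closed.completeSpace_coe

noncomputable def w : X →L[ℝ] A := X0.subtypeL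

noncomputable def ι : C0 →L[ℝ] X := Ψ.codRestrict X0 fun x => ⟨x, rfl⟩

lemma ι_norm (x : C0) : ‖ι x‖ = ‖Φ (v x)‖ := rfl

lemma ι_surj (y : X) : ∃ x, ι x = y := by
  obtain ⟨y, x, rfl⟩ := y
  exact ⟨x, rfl⟩

lemma fin_mem (x : L) (K : ℕ) (h : ∀ i ≥ K, x i = 0) : x ∈ c0 :=
  tendsto_const_nhds.congr' (eventually_atTop.2 ⟨K, fun i hi => (h i hi).symm⟩)

noncomputable def e (i : ℕ) : C0 := ⟨lp.single ⊤ i 1, fin_mem _ (i + 1) fun j hj => by
  rw [lp.single_apply, Pi.single_eq_of_ne (by omega)]⟩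

lemma sum_e (c : ℕ → ℝ) (K j : ℕ) :
    v (∑ i ∈ Finset.range K, c i • e i) j = if j < K then c j else 0 := by
  induction K with
  | zero => simp
  | succ K ih =>
    rw [Finset.sum_range_succ, map_add, lp.coeFn_add, Pi.add_apply, ih]
    show _ + c K * (lp.single ⊤ K (1 : ℝ) : L) j = _
    rw [lp.single_apply]
    rcases lt_trichotomy j K with h | rfl | h
    · rw [if_pos h, if_pos (by omega), Pi.single_eq_of_ne h.ne]; simp
    · simp
    · rw [if_neg (by omega), if_neg (by omega), Pi.single_eq_of_ne h.ne']; simp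

lemma weak (g : C0 →L[ℝ] ℝ) (x : ℕ → C0) (C : ℝ) (hC : ∀ n i, |v (x n) i| ≤ C) (u : ℕ → ℝ)
    (hu : ∀ i, Tendsto (fun n => v (x n) i) atTop (𝓝 (u i))) : CauchySeq fun n => g (x n) := by
  have hs : Summable fun i => |g (e i)| := by
    refine summable_of_sum_range_le (c := ‖g‖) (fun i => abs_nonneg _) fun K => ?_
    have h1 : ∑ i ∈ Finset.range K, |g (e i)| =
        g (∑ i ∈ Finset.range K, (SignType.sign (g (e i)) : ℝ) • e i) := by
      rw [map_sum]
      refine Finset.sum_congr rfl fun i _ => ?_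
      rw [map_smul, smul_eq_mul, sign_mul_self]
    rw [h1]
    refine (le_abs_self _).trans ((g.le_opNorm _).trans (mul_le_of_le_one_right (norm_nonneg _) ?_))
    rw [← v_norm]
    refine lp.norm_le_of_forall_le zero_le_one fun j => ?_
    rw [sum_e]
    split_ifs
    · cases SignType.sign (g (e j)) <;> simp
    · simp
  have rep : ∀ y : C0, g y = ∑' i, v y i * g (e i) := by
    intro y
    have hy : Summable fun i => v y i * g (e i) := by
      refine Summable.of_norm_bounded (hs.mul_left ‖v y‖) fun i => ?_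
      rw [norm_mul]
      exact mul_le_mul_of_nonneg_right (coord_le _ i) (abs_nonneg _)
    refine tendsto_nhds_unique ?_ hy.hasSum.tendsto_sum_nat
    have h1 : Tendsto (fun K => ∑ i ∈ Finset.range K, v y i • e i) atTop (𝓝 y) := by
      rw [Metric.tendsto_atTop]
      intro ε hε
      obtain ⟨N, hN⟩ := Metric.tendsto_atTop.1 (v_tend y) (ε / 2) (half_pos hε)
      refine ⟨N, fun K hK => lt_of_le_of_lt ?_ (half_lt_self hε)⟩
      rw [dist_eq_norm, ← v_norm]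
      refine lp.norm_le_of_forall_le (half_pos hε).le fun j => ?_
      rw [map_sub, lp.coeFn_sub, Pi.sub_apply, sum_e]
      split_ifs with h
      · simpa using (half_pos hε).le
      · simpa using (hN j (by omega)).le
    have h2 := (g.continuous.tendsto y).comp h1
    refine h2.congr fun K => ?_
    simp [map_sum]
  have e1 : (fun n => g (x n)) = fun n => ∑' i, v (x n) i * g (e i) := funext fun n => rep _
  rw [e1]
  refine (tendsto_tsum_of_dominated_convergence (g := fun i => u i * g (e i)) (hs.mul_left C)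
    (fun i => (hu i).mul_const _) (Eventually.of_forall fun n i => ?_)).cauchySeq
  rw [norm_mul]
  exact mul_le_mul_of_nonneg_right (hC n i) (abs_nonneg _)

lemma exists_j (x : L) (c : ℝ) (hc : 0 ≤ c) (h : c < ‖Φ x‖) : ∃ j, c < ‖Hc j x‖ := by
  by_contra hn
  push Not at hn
  exact absurd (lp.norm_le_of_forall_le hc hn) (not_le.2 h)

lemma Hc_add (j : J) (x y : L) : Hc j (x + y) = Hc j x + Hc j y := by
  rw [← Φ_apply, map_add]; rfl

lemma Hc_sub (j : J) (x y : L) : Hc j (x - y) = Hc j x - Hc j y := by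
  rw [← Φ_apply, map_sub]; rfl

lemma step (x y : L) (hx : ‖Φ x‖ = 1) (hy : ‖Φ y‖ = 1) (i M : ℕ) (c θ : ℝ) (hc : 0 < c)
    (hxy : c ≤ |x i - y i|) (h0 : 0 < θ) (h1 : θ ≤ 1 / 10)
    (h2 : 4 * θ < (a i * c / (M + 4)) ^ 2) (h : 2 - θ < ‖Φ (x + y)‖) :
    ∃ k, M ≤ mn k ∧ 3 / 4 < |x (k + 1)| ∧ 3 / 4 < |y (k + 1)| := by
  obtain ⟨j, hj⟩ := exists_j _ _ (by linarith) h
  rw [Hc_add] at hj
  have u1 : ‖Hc j x‖ ≤ 1 := hx ▸ Hc_le_Φ x j
  have v1 : ‖Hc j y‖ ≤ 1 := hy ▸ Hc_le_Φ y j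
  have tr := norm_add_le (Hc j x) (Hc j y)
  have par := parallelogram_law_with_norm ℝ (Hc j x) (Hc j y)
  have d1 : ‖Hc j (x - y)‖ ^ 2 ≤ 4 * θ := by
    rw [Hc_sub]
    nlinarith [norm_nonneg (Hc j x), norm_nonneg (Hc j y)]
  rw [Hc_sq] at d1
  have t1 : a i * c ≤ ‖T (x - y)‖ := by
    refine le_trans ?_ (T_coord (x - y) i)
    exact mul_le_mul_of_nonneg_left (by simpa using hxy) (a_pos i).le
  have ac : 0 < a i * c := mul_pos (a_pos i) hc
  have b1 : β j < 1 / (M + 4) := by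
    have h3 : (β j * (a i * c)) ^ 2 < (1 / (M + 4) * (a i * c)) ^ 2 := by
      have : (a i * c) ^ 2 ≤ ‖T (x - y)‖ ^ 2 := by gcongr
      have h4 : β j ^ 2 * (a i * c) ^ 2 ≤ β j ^ 2 * ‖T (x - y)‖ ^ 2 := by gcongr
      have h5 : (1 / (M + 4) * (a i * c)) ^ 2 = (a i * c / (M + 4)) ^ 2 := by ring
      rw [h5, mul_pow]
      nlinarith [sq_nonneg (φ j (x - y))]
    exact lt_of_mul_lt_mul_right (lt_of_pow_lt_pow_left₀ 2 (by positivity) h3) ac.le
  have b2 : (1 : ℝ) / (M + 4) ≤ 1 / 4 := by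
    apply one_div_le_one_div_of_le <;> [norm_num; simp]
  rcases j with k | j
  · have hb : β (Sum.inl k) ^ 2 ≤ 1 / 16 := by nlinarith [β_pos (Sum.inl k)]
    have fin : ∀ z : L, ‖Φ z‖ = 1 → 9 / 10 ≤ ‖Hc (Sum.inl k) z‖ → 3 / 4 < |z (k + 1)| := by
      intro z hz h9
      have q := Hc_sq (Sum.inl k) z
      have tz : ‖T z‖ ^ 2 ≤ 1 := pow_le_one₀ (norm_nonneg _) (hz ▸ T_le_Φ z)
      simp only [φ] at q
      have : (3 / 4 : ℝ) ^ 2 < |z (k + 1)| ^ 2 := by
        rw [sq_abs]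
        nlinarith [sq_nonneg (β (Sum.inl k)), sq_nonneg ‖T z‖]
      exact lt_of_pow_lt_pow_left₀ 2 (abs_nonneg _) this
    refine ⟨k, ?_, fin x hx (by linarith), fin y hy (by linarith)⟩
    simp only [β] at b1
    have := lt_of_one_div_lt_one_div (by positivity) b1
    have : (M : ℝ) ≤ mn k := by linarith
    exact_mod_cast this
  · simp only [β] at b1; linarith

lemma wcr (y : ℕ → X) (hy : ∀ n, ‖y n‖ = 1)
    (h : Tendsto (fun p : ℕ × ℕ => ‖y p.1 + y p.2‖) atTop (𝓝 2)) (f : X →L[ℝ] ℝ) :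
    CauchySeq fun n => f (y n) := by
  choose x hx using fun n => ι_surj (y n)
  have h1 : ∀ n, ‖Φ (v (x n))‖ = 1 := fun n => by rw [← ι_norm, hx, hy]
  have hb : ∀ n i, |v (x n) i| ≤ 2 := fun n i => by
    have := coord_le_Φ (v (x n)) i; rwa [h1, mul_one] at this
  have conv : ∀ i, ∃ u, Tendsto (fun n => v (x n) i) atTop (𝓝 u) := by
    intro i
    refine tendsto_of_no_upcrossings (s := Set.univ) dense_univ (fun p _ q _ hpq hfr => ?_)
      (isBoundedUnder_of ⟨2, fun n => (abs_le.1 (hb n i)).2⟩)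
      (isBoundedUnder_of ⟨-2, fun n => (abs_le.1 (hb n i)).1⟩)
    obtain ⟨hA, hB⟩ := hfr
    have S : ∀ M : ℕ, ∃ N, ∀ n ≥ N, ∀ m ≥ N, v (x n) i < p → q < v (x m) i →
        ∃ k, M ≤ mn k ∧ 3 / 4 < |v (x n) (k + 1)| ∧ 3 / 4 < |v (x m) (k + 1)| := by
      intro M
      have hc : 0 < q - p := by linarith
      have ai := a_pos i
      set θ := min (1 / 10) ((a i * (q - p) / (M + 4)) ^ 2 / 8) with hθ
      have θ0 : 0 < θ := by positivity
      obtain ⟨N, hN⟩ := eventually_atTop.1 (h.eventually (lt_mem_nhds (show 2 - θ < 2 by linarith)))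
      refine ⟨max N.1 N.2, fun n hn m hm h2 h3 => step _ _ (h1 n) (h1 m) i M (q - p) θ hc ?_ θ0
        (min_le_left _ _) ?_ ?_⟩
      · rw [abs_sub_comm]; exact le_trans (by linarith) (le_abs_self _)
      · have : θ ≤ _ := min_le_right _ _
        have : 0 < (a i * (q - p) / (M + 4)) ^ 2 := by positivity
        linarith
      · have := hN (n, m) ⟨le_of_max_le_left hn, le_of_max_le_right hm⟩
        simp only [← hx, ← map_add, ι_norm] at this
        rwa [map_add v] at this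
    obtain ⟨N1, hN1⟩ := S 0
    obtain ⟨n1, hn1, a1⟩ := frequently_atTop.1 hA N1
    obtain ⟨K, hK⟩ := Metric.tendsto_atTop.1 (v_tend (x n1)) (3 / 4) (by norm_num)
    obtain ⟨N2, hN2⟩ := S K
    obtain ⟨n2, hn2, a2⟩ := frequently_atTop.1 hA N2
    obtain ⟨m, hm, b1⟩ := frequently_atTop.1 hB (max N1 N2)
    obtain ⟨k1, -, c1, c2⟩ := hN1 n1 hn1 m (le_of_max_le_left hm) a1 b1
    obtain ⟨k2, c3, -, c4⟩ := hN2 n2 hn2 m (le_of_max_le_right hm) a2 b1
    have k1K : k1 < K := by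
      by_contra hk
      have := hK (k1 + 1) (by omega)
      rw [dist_zero_right, Real.norm_eq_abs] at this
      linarith
    have hlt : mx k1 < mn k2 := by
      have := Nat.unpair_left_le k1
      have := Nat.unpair_right_le k1
      unfold mx; omega
    have p1 := φ_le_Φ (v (x m)) (Sum.inr (k1, k2, true))
    have p2 := φ_le_Φ (v (x m)) (Sum.inr (k1, k2, false))
    simp only [φ, if_pos hlt, h1, cond_true, cond_false, abs_le] at p1 p2
    rcases lt_abs.1 c2 with c2 | c2 <;> rcases lt_abs.1 c4 with c4 | c4 <;>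
      linarith [p1.1, p1.2, p2.1, p2.2]
  choose u hu using conv
  have := weak (f ∘L ι) x 2 hb u hu
  simpa only [ContinuousLinearMap.comp_apply, hx] using this

lemma exists_lim {Y : Type} [NormedAddCommGroup Y] [NormedSpace ℝ Y] (y : ℕ → Y)
    (hy : ∀ n, ‖y n‖ ≤ 1) : ∃ F : (Y →L[ℝ] ℝ) →L[ℝ] ℝ, ‖F‖ ≤ 1 ∧
      ∀ (f : Y →L[ℝ] ℝ) (c : ℝ), (∀ᶠ n in atTop, f (y n) = c) → F f = c := by
  have hb : ∀ (f : Y →L[ℝ] ℝ) n, f (y n) ∈ Metric.closedBall (0 : ℝ) ‖f‖ := fun f n => by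
    simpa using (f.le_opNorm _).trans (mul_le_of_le_one_right (norm_nonneg _) (hy n))
  have : ∀ f : Y →L[ℝ] ℝ, ∃ c ∈ Metric.closedBall (0 : ℝ) ‖f‖,
      Tendsto (fun n => f (y n)) (hyperfilter ℕ : Filter ℕ) (𝓝 c) := fun f =>
    (isCompact_closedBall (0 : ℝ) ‖f‖).ultrafilter_le_nhds ((hyperfilter ℕ).map fun n => f (y n))
      (by simp only [Ultrafilter.coe_map, le_principal_iff, mem_map]
          exact Eventually.of_forall (hb f))
  choose c hc1 hc2 using this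
  let F0 : (Y →L[ℝ] ℝ) →ₗ[ℝ] ℝ :=
    { toFun := c
      map_add' := fun f g => tendsto_nhds_unique (hc2 (f + g)) ((hc2 f).add (hc2 g))
      map_smul' := fun r f => tendsto_nhds_unique (hc2 (r • f)) ((hc2 f).const_smul r) }
  have hF : ∀ f, ‖F0 f‖ ≤ 1 * ‖f‖ := fun f => by
    have := hc1 f
    rw [mem_closedBall_zero_iff] at this
    rwa [one_mul]
  refine ⟨F0.mkContinuous 1 hF, LinearMap.mkContinuous_norm_le _ zero_le_one _, fun f d hd => ?_⟩
  refine tendsto_nhds_unique (hc2 f) (tendsto_const_nhds.congr' ?_)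
  have hle : (hyperfilter ℕ : Filter ℕ) ≤ atTop := Nat.hyperfilter_le_atTop
  exact (hd.filter_mono hle).mono fun n hn => hn.symm

noncomputable def ρ (n : ℕ) : ℝ := 1 - (1 / ((n : ℝ) + 1)) ^ 2

lemma ρ_bd (n : ℕ) : 0 ≤ ρ n ∧ ρ n ≤ 1 := by
  have h1 : (0 : ℝ) < 1 / ((n : ℝ) + 1) := by positivity
  have h2 : 1 / ((n : ℝ) + 1) ≤ 1 := by rw [div_le_one (by positivity)]; simp
  unfold ρ; constructor <;> nlinarith

noncomputable def zf (n K : ℕ) : ℕ → ℝ
  | 0 => (-1) ^ n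
  | k + 1 => if ((Nat.unpair k).1 = n ∨ (Nat.unpair k).2 = n) ∧ k < K then ρ (mn k) else 0

lemma zf_le (n K i : ℕ) : |zf n K i| ≤ 1 := by
  cases i with
  | zero => simp [zf]
  | succ k =>
    simp only [zf]
    split_ifs
    · rw [abs_of_nonneg (ρ_bd _).1]; exact (ρ_bd _).2
    · simp

noncomputable def z (n K : ℕ) : C0 :=
  ⟨⟨zf n K, memℓp_infty ⟨1, by rintro _ ⟨i, rfl⟩; exact zf_le n K i⟩⟩, fin_mem _ (K + 1) fun i hi => by
    obtain ⟨k, rfl⟩ : ∃ k, i = k + 1 := ⟨i - 1, by omega⟩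
    show zf n K (k + 1) = 0
    simp only [zf]; rw [if_neg (by omega)]⟩

lemma z_norm (n K : ℕ) : ‖ι (z n K)‖ ≤ 1 := by
  rw [ι_norm]
  refine lp.norm_le_of_forall_le zero_le_one fun j => ?_
  rw [Φ_apply]
  refine (abs_le_of_sq_le_sq' ?_ zero_le_one).2
  rw [Hc_sq]
  have h1 : ‖v (z n K)‖ ≤ 1 := lp.norm_le_of_forall_le zero_le_one (zf_le n K)
  have h2 : ‖T (v (z n K))‖ ^ 2 ≤ 1 / 3 := by
    have := T_norm (v (z n K)); nlinarith [norm_nonneg (v (z n K))]
  have zz : ∀ i, v (z n K) i = zf n K i := fun i => rfl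
  rcases j with k | ⟨k, l, s⟩
  · simp only [φ, β, zz, zf]
    have := ρ_bd (mn k)
    have h3 : ρ (mn k) = 1 - (1 / ((mn k : ℝ) + 1)) ^ 2 := rfl
    have h4 := sq_nonneg (1 / ((mn k : ℝ) + 1))
    split_ifs <;> nlinarith [sq_nonneg ‖T (v (z n K))‖]
  · simp only [φ, β, zz]
    split_ifs with hlt
    · have q1 := abs_le.1 (zf_le n K (k + 1))
      have q2 := abs_le.1 (zf_le n K (l + 1))
      have : zf n K (k + 1) = 0 ∨ zf n K (l + 1) = 0 := by
        by_contra hn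
        push Not at hn
        simp only [zf, ne_eq, ite_eq_right_iff, Classical.not_imp] at hn
        have := hn.1.1.1
        have := hn.2.1.1
        unfold mx mn at hlt
        omega
      rcases this with h | h <;> rw [h] <;> cases s <;> simp only [cond_true, cond_false] <;>
        nlinarith [q1.1, q1.2, q2.1, q2.2]
    · nlinarith

lemma exists_coord (i : ℕ) : ∃ f : X →L[ℝ] ℝ, (∀ x : C0, f (ι x) = v x i) ∧
    (0 < i → ‖f‖ ≤ 1) := by
  cases i with
  | zero =>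
    let f0 : A →L[ℝ] ℝ := (2 : ℝ) • ((lp.evalCLM ℝ (fun _ : ℕ => ℝ) 2 0) ∘L
      (WithLp.sndL 2 ℝ ℝ L2) ∘L (lp.evalCLM ℝ (fun _ : J => E) ⊤ (Sum.inr (0, 0, true))))
    refine ⟨f0 ∘L w, fun x => ?_, by simp⟩
    show (2 : ℝ) * ((1 : ℝ) * (a 0 * v x 0)) = _
    simp only [a]; ring
  | succ k =>
    let f0 : A →L[ℝ] ℝ :=
      (WithLp.fstL 2 ℝ ℝ L2) ∘L (lp.evalCLM ℝ (fun _ : J => E) ⊤ (Sum.inl k))
    refine ⟨f0 ∘L w, fun x => rfl, fun _ => ?_⟩
    refine ContinuousLinearMap.opNorm_le_bound _ zero_le_one fun y => ?_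
    obtain ⟨x, rfl⟩ := ι_surj y
    rw [one_mul]
    exact φ_le_Φ (v x) (Sum.inl k)

lemma npos {Y : Type} [NormedAddCommGroup Y] [NormedSpace ℝ Y] (F : Y →L[ℝ] ℝ) (f : Y)
    (h : F f ≠ 0) : 0 < ‖F‖ := norm_pos_iff.2 fun h0 => h (by rw [h0]; rfl)

lemma nrm {Y : Type} [NormedAddCommGroup Y] [NormedSpace ℝ Y] (F : Y →L[ℝ] ℝ) (h : 0 < ‖F‖) :
    ‖‖F‖⁻¹ • F‖ = 1 := by
  rw [norm_smul, norm_inv, norm_norm, inv_mul_cancel₀ h.ne']

lemma nadd {Y : Type} [NormedAddCommGroup Y] [NormedSpace ℝ Y] (F G : Y →L[ℝ] ℝ) :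
    ‖F + G‖ ≤ ‖F‖ + ‖G‖ := norm_add_le _ _

lemma not_bidual : ∃ F : ℕ → ((X →L[ℝ] ℝ) →L[ℝ] ℝ), (∀ n, ‖F n‖ = 1) ∧
    Tendsto (fun p : ℕ × ℕ => ‖F p.1 + F p.2‖) atTop (𝓝 2) ∧
    ∃ f : X →L[ℝ] ℝ, ¬ CauchySeq (fun n => F n f) := by
  choose F hF1 hF2 using fun n => exists_lim (fun K => ι (z (n + 1) K)) (z_norm (n + 1))
  choose f hf1 hf2 using exists_coord
  have v0 : ∀ n, F n (f 0) = (-1) ^ (n + 1) := fun n =>
    hF2 n _ _ (Eventually.of_forall fun K => hf1 0 _)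
  have v1 : ∀ n k, ((Nat.unpair k).1 = n + 1 ∨ (Nat.unpair k).2 = n + 1) →
      F n (f (k + 1)) = ρ (mn k) := fun n k hk =>
    hF2 n _ _ (eventually_atTop.2 ⟨k + 1, fun K hK => by
      rw [hf1]
      show zf (n + 1) K (k + 1) = _
      simp only [zf]; rw [if_pos ⟨hk, by omega⟩]⟩)
  have Fpos : ∀ n, 0 < ‖F n‖ := fun n => npos (F n) (f 0) (by rw [v0]; simp)
  have inv1 : ∀ n, 1 ≤ ‖F n‖⁻¹ := fun n => (one_le_inv₀ (Fpos n)).2 (hF1 n)
  have G1 : ∀ n, ‖‖F n‖⁻¹ • F n‖ = 1 := fun n => nrm (F n) (Fpos n)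
  refine ⟨fun n => ‖F n‖⁻¹ • F n, G1, ?_, f 0, fun hc => ?_⟩
  · have l1 : Tendsto (fun p : ℕ × ℕ => 2 * ρ (min (p.1 + 1) (p.2 + 1))) atTop (𝓝 2) := by
      have t1 : Tendsto (fun p : ℕ × ℕ => min (p.1 + 1) (p.2 + 1)) atTop atTop :=
        tendsto_atTop.2 fun N => eventually_atTop.2 ⟨(N, N), fun p hp => by
          have := hp.1; have := hp.2; simp only at *; omega⟩
      have t2 : Tendsto ρ atTop (𝓝 (1 - 0 ^ 2)) :=
        (tendsto_one_div_add_atTop_nhds_zero_nat.pow 2).const_sub 1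
      simpa using (t2.comp t1).const_mul 2
    refine tendsto_of_tendsto_of_tendsto_of_le_of_le l1 tendsto_const_nhds (fun p => ?_) fun p => ?_
    · set k := Nat.pair (p.1 + 1) (p.2 + 1) with hk
      have m1 : mn k = min (p.1 + 1) (p.2 + 1) := by simp [mn, hk]
      have w1 := v1 p.1 k (Or.inl (by simp [hk]))
      have w2 := v1 p.2 k (Or.inr (by simp [hk]))
      have w3 := (‖F p.1‖⁻¹ • F p.1 + ‖F p.2‖⁻¹ • F p.2).le_opNorm (f (k + 1))
      have w4 := hf2 (k + 1) (by omega)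
      simp only [add_apply, smul_apply, w1, w2, m1, smul_eq_mul, Real.norm_eq_abs] at w3
      have w5 := (le_abs_self _).trans w3
      have r0 := (ρ_bd (min (p.1 + 1) (p.2 + 1))).1
      have := inv1 p.1; have := inv1 p.2
      show 2 * _ ≤ ‖‖F p.1‖⁻¹ • F p.1 + ‖F p.2‖⁻¹ • F p.2‖
      nlinarith [(‖F p.1‖⁻¹ • F p.1 + ‖F p.2‖⁻¹ • F p.2).opNorm_nonneg]
    · have := nadd (‖F p.1‖⁻¹ • F p.1) (‖F p.2‖⁻¹ • F p.2)
      rw [G1, G1] at this
      show ‖‖F p.1‖⁻¹ • F p.1 + ‖F p.2‖⁻¹ • F p.2‖ ≤ 2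
      linarith
  · obtain ⟨N, hN⟩ := Metric.cauchySeq_iff.1 hc 1 one_pos
    have := hN (2 * N + 1) (by omega) (2 * N) (by omega)
    simp only [smul_apply, v0, smul_eq_mul, Real.dist_eq] at this
    have e1 : (-1 : ℝ) ^ (2 * N + 1 + 1) = 1 := by
      rw [show 2 * N + 1 + 1 = 2 * (N + 1) by ring, pow_mul]; simp
    have e2 : (-1 : ℝ) ^ (2 * N + 1) = -1 := by rw [pow_succ, pow_mul]; simp
    rw [e1, e2] at this
    have := (le_abs_self _).trans_lt this
    linarith [inv1 (2 * N + 1), inv1 (2 * N)]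


/-- The negation of the preceding statement: For every real Banach space X: unit-sphere sequences with norm of x_n+x_m tending to 2 are always weakly Cauchy in X iff the same holds in the bidual X** with w*-Cauchy (tested on X*) in place of weakly Cauchy. -/
theorem result :
    ¬ (∀ (X : Type) [NormedAddCommGroup X] [NormedSpace ℝ X] [CompleteSpace X],
      (∀ x : ℕ → X, (∀ n, ‖x n‖ = 1) →
        Tendsto (fun p : ℕ × ℕ => ‖x p.1 + x p.2‖) atTop (𝓝 2) →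
        ∀ f : X →L[ℝ] ℝ, CauchySeq (fun n => f (x n))) ↔
      (∀ F : ℕ → ((X →L[ℝ] ℝ) →L[ℝ] ℝ), (∀ n, ‖F n‖ = 1) →
        Tendsto (fun p : ℕ × ℕ => ‖F p.1 + F p.2‖) atTop (𝓝 2) →
        ∀ f : X →L[ℝ] ℝ, CauchySeq (fun n => F n f))) := by
  intro h
  obtain ⟨F, h1, h2, f, h3⟩ := not_bidual
  exact h3 ((h X).1 wcr F h1 h2 f)

end Pool.Agent.S06274
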