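import Pool.Statements.S06280

set_option autoImplicit false
open Pool Pool.MP_d4c9a2_an

namespace Pool.Agent.S06280

/-- the space -/
abbrev V : Type := Fin 3 → ℂ

lemma hom_zero (g : V → ℂ) (hg : ContDiff ℂ ⊤ g) (d : ℕ) (h : ∀ (t : ℂ) z, g (t • z) = t ^ d * g z)
    (m : ℕ) (hm : m ≠ d) : iteratedFDeriv ℂ m g 0 = 0 := by
  let L : V →L[ℂ] V := (2 : ℂ) • ContinuousLinearMap.id ℂ V
  have e : g ∘ L = (2 : ℂ) ^ d • g := by
    funext z
    simp only [Function.comp_apply, L, Pi.smul_apply, smul_eq_mul]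
    exact h 2 z
  have h1 := L.iteratedFDeriv_comp_right hg 0 (i := m) le_top
  rw [e, iteratedFDeriv_const_smul_apply (hg.contDiffAt.of_le le_top), map_zero] at h1
  ext v
  have h2 := congrArg (fun F => F v) h1
  simp only [ContinuousMultilinearMap.smul_apply,
    ContinuousMultilinearMap.compContinuousLinearMap_apply] at h2
  have h3 := (iteratedFDeriv ℂ m g 0).map_smul_univ (fun _ => (2 : ℂ)) v
  have h4 : (fun i => L (v i)) = fun i => (2 : ℂ) • v i := rfl
  rw [h4, h3] at h2
  simp only [Finset.prod_const, Finset.card_univ, Fintype.card_fin, smul_eq_mul] at h2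
  have h5 : (2 : ℂ) ^ d ≠ 2 ^ m := by
    intro h
    have : (2 : ℕ) ^ d = 2 ^ m := by exact_mod_cast h
    exact hm (Nat.pow_right_injective le_rfl this).symm
  exact (mul_eq_mul_right_iff.1 h2).resolve_left h5

lemma hom_ne (g : V → ℂ) (hg : ContDiff ℂ ⊤ g) (d : ℕ) (h : ∀ (t : ℂ) z, g (t • z) = t ^ d * g z)
    (h1 : g 1 = 1) : iteratedFDeriv ℂ d g 0 ≠ 0 := by
  intro h0
  let L : ℂ →L[ℂ] V := ContinuousLinearMap.smulRight (1 : ℂ →L[ℂ] ℂ) (1 : V)
  have e : g ∘ L = fun t => t ^ d := by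
    funext t
    have : L t = t • (1 : V) := rfl
    rw [Function.comp_apply, this, h, h1, mul_one]
  have h2 := L.iteratedFDeriv_comp_right hg 0 (i := d) le_top
  rw [e, map_zero, h0] at h2
  have h3 : iteratedDeriv d (fun t : ℂ => t ^ d) 0 = 0 := by
    rw [iteratedDeriv_eq_iteratedFDeriv, h2]; rfl
  rw [iteratedDeriv_fun_pow_zero, if_pos rfl] at h3
  exact Nat.factorial_ne_zero d (by exact_mod_cast h3)

lemma order_set (F : V → V) (hF : ContDiff ℂ ⊤ F) (r : Fin 3 → ℕ)
    (h : ∀ i (t : ℂ) z, F (t • z) i = t ^ r i * F z i) (h1 : F 1 = 1) (m : ℕ) :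
    iteratedFDeriv ℂ m F 0 ≠ 0 ↔ ∃ i, r i = m := by
  have hc : ∀ i, iteratedFDeriv ℂ m (fun z => F z i) 0 =
      (ContinuousLinearMap.proj (R := ℂ) (φ := fun _ : Fin 3 => ℂ) i).compContinuousMultilinearMap
        (iteratedFDeriv ℂ m F 0) := fun i =>
    (ContinuousLinearMap.proj (R := ℂ) (φ := fun _ : Fin 3 => ℂ) i).iteratedFDeriv_comp_left
      hF.contDiffAt le_top
  constructor
  · intro h0
    by_contra hne
    apply h0
    ext v i
    have := hom_zero (fun z => F z i) (contDiff_pi.1 hF i) (r i) (h i) m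
      (fun e => hne ⟨i, e.symm⟩)
    rw [hc] at this
    exact congrArg (fun G => G v) this
  · rintro ⟨i, rfl⟩ h0
    refine hom_ne (fun z => F z i) (contDiff_pi.1 hF i) (r i) (h i) (by simp [h1]) ?_
    rw [hc, h0]
    ext v
    rfl

/-- the monomial map -/
noncomputable def f (z : V) : V := ![z 2 ^ 2, z 0 ^ 2 * z 2, z 1 ^ 2 * z 2 ^ 3]

lemma f_smooth : ContDiff ℂ ⊤ f := by
  rw [contDiff_pi]
  intro i
  fin_cases i <;> simp only [f, Fin.zero_eta, Fin.mk_one, Fin.reduceFinMk, Matrix.cons_val] <;>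
    fun_prop

/-- the degrees of the components of the iterates -/
def r : ℕ → Fin 3 → ℕ
  | 0 => fun _ => 1
  | k + 1 => ![2 * r k 2, 2 * r k 0 + r k 2, 2 * r k 1 + 3 * r k 2]

lemma iter_smooth (k : ℕ) : ContDiff ℂ ⊤ f^[k] := by
  induction k with
  | zero => exact contDiff_id
  | succ k ih => rw [Function.iterate_succ']; exact f_smooth.comp ih

lemma iter_one (k : ℕ) : f^[k] 1 = 1 := by
  refine Function.iterate_fixed ?_ k
  funext i
  fin_cases i <;> simp [f]

lemma iter_hom (k : ℕ) : ∀ i (t : ℂ) z, f^[k] (t • z) i = t ^ r k i * f^[k] z i := by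
  induction k with
  | zero => intro i t z; simp [r]
  | succ k ih =>
    intro i t z
    rw [Function.iterate_succ_apply', Function.iterate_succ_apply']
    fin_cases i <;>
      simp only [f, r, Fin.zero_eta, Fin.mk_one, Fin.reduceFinMk, Matrix.cons_val, ih] <;> ring

lemma order_eq (k : ℕ) :
    sInf {m : ℕ | iteratedFDeriv ℂ m (f^[k + 1]) 0 ≠ 0} = min (r (k + 1) 0) (r (k + 1) 1) := by
  refine IsLeast.csInf_eq ⟨?_, ?_⟩
  · refine (order_set _ (iter_smooth _) _ (iter_hom _) (iter_one _) _).2 ?_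
    rcases min_choice (r (k + 1) 0) (r (k + 1) 1) with h | h
    · exact ⟨0, h.symm⟩
    · exact ⟨1, h.symm⟩
  · intro m hm
    obtain ⟨i, rfl⟩ := (order_set _ (iter_smooth _) _ (iter_hom _) (iter_one _) _).1 hm
    fin_cases i
    · exact min_le_left _ _
    · exact min_le_right _ _
    · refine (min_le_left _ _).trans ?_
      simp only [r, Fin.reduceFinMk, Matrix.cons_val]
      omega

lemma r_odd (k : ℕ) : r k 2 % 2 = 1 := by
  induction k with
  | zero => rfl
  | succ k ih => simp only [r, Matrix.cons_val]; omega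

lemma r_par (k : ℕ) : r (k + 1) 0 % 2 = 0 ∧ r (k + 1) 1 % 2 = 1 := by
  have := r_odd k
  simp only [r, Matrix.cons_val]; omega

/-- the difference of the first two degrees -/
def d (k : ℕ) : ℝ := (r k 0 : ℝ) - r k 1

lemma d_rec (k : ℕ) : d (k + 2) = - d (k + 1) - 2 * d k := by
  simp only [d, r, Matrix.cons_val]
  push_cast
  ring

/-- a root of the characteristic polynomial -/
noncomputable def mu : ℂ := ⟨-1 / 2, Real.sqrt 7 / 2⟩

lemma mu_sq : mu ^ 2 = -mu - 2 := by
  have := Real.mul_self_sqrt (show (0 : ℝ) ≤ 7 by norm_num)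
  apply Complex.ext <;> simp [mu, sq] <;> nlinarith

lemma d_eq (k : ℕ) : Real.sqrt 7 * d k = -2 * (mu ^ k).im := by
  induction k using Nat.twoStepInduction with
  | zero => simp [d, r]
  | one => simp [d, r, mu]; ring
  | more k ih1 ih2 =>
    have : mu ^ (k + 2) = -mu ^ (k + 1) - 2 * mu ^ k := by
      rw [pow_add, mu_sq]; ring
    rw [this, d_rec]
    simp only [Complex.sub_im, Complex.neg_im, Complex.mul_im, Complex.re_ofNat, Complex.im_ofNat]
    linarith

lemma no_pos (u : ℕ → ℝ) (T N : ℝ) (hT : T ^ 2 < 4 * N)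
    (h : ∀ j, u (j + 2) = T * u (j + 1) - N * u j) (hp : ∀ j, 0 < u j) : False := by
  have hN : 0 < N := by nlinarith [sq_nonneg T]
  set s := Real.sqrt N
  have hs : s ^ 2 = N := Real.sq_sqrt hN.le
  have hs0 : 0 < s := Real.sqrt_pos.2 hN
  have hη : 0 < 2 * s - T := by nlinarith
  have step : ∀ j, u (j + 2) / u (j + 1) ≤ u (j + 1) / u j - (2 * s - T) := by
    intro j
    have h0 := hp j
    have h1 := hp (j + 1)
    rw [h, div_le_iff₀ h1, sub_mul, div_mul_eq_mul_div, le_sub_iff_add_le, le_div_iff₀ h0, ← hs]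
    nlinarith [sq_nonneg (u (j + 1) - s * u j)]
  have bound : ∀ j : ℕ, u (j + 1) / u j ≤ u 1 / u 0 - j * (2 * s - T) := by
    intro j
    induction j with
    | zero => simp
    | succ j ih => have := step j; push_cast; linarith
  obtain ⟨j, hj⟩ := exists_nat_gt (u 1 / u 0 / (2 * s - T))
  rw [div_lt_iff₀ hη] at hj
  have := bound j
  have := div_pos (hp (j + 1)) (hp j)
  linarith

lemma d_ne (k : ℕ) : d (k + 1) ≠ 0 := by
  intro h
  have := r_par k
  have h2 : (r (k + 1) 0 : ℝ) = r (k + 1) 1 := by unfold d at h; linarith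
  have : r (k + 1) 0 = r (k + 1) 1 := by exact_mod_cast h2
  omega

lemma not_periodic (k P : ℕ) (s : ℝ) (h : ∀ j, 0 < s * d (k + (P + 1) * j)) : False := by
  have h7 : 0 < Real.sqrt 7 := by positivity
  set w := mu ^ (P + 1) with hw
  have hwi : w.im ≠ 0 := by
    intro h0
    have := d_eq (P + 1)
    rw [← hw, h0, mul_zero] at this
    exact d_ne P ((mul_eq_zero.1 this).resolve_left h7.ne')
  refine no_pos (fun j => s * d (k + (P + 1) * j)) (2 * w.re) (w.re ^ 2 + w.im ^ 2) ?_ ?_ h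
  · nlinarith [sq_pos_of_ne_zero hwi]
  · intro j
    have e : ∀ j, Real.sqrt 7 * d (k + (P + 1) * j) = -2 * (mu ^ k * w ^ j).im := by
      intro j; rw [d_eq, pow_add, pow_mul]
    have e0 := e j
    have e1 := e (j + 1)
    have e2 := e (j + 2)
    have a1 : mu ^ k * w ^ (j + 1) = mu ^ k * w ^ j * w := by ring
    have a2 : mu ^ k * w ^ (j + 2) = mu ^ k * w ^ j * w * w := by ring
    rw [a1] at e1
    rw [a2] at e2
    generalize mu ^ k * w ^ j = a at e0 e1 e2
    simp only [Complex.mul_im, Complex.mul_re] at e1 e2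
    refine mul_left_cancel₀ h7.ne' ?_
    linear_combination s * e2 - 2 * w.re * s * e1 + (w.re ^ 2 + w.im ^ 2) * s * e0

lemma ev_periodic (c : ℕ → ℤ) (D : ℕ) (a : Fin D → ℤ) (K : ℕ)
    (h : ∀ k, K ≤ k → c (k + D) = ∑ i : Fin D, a i * c (k + i)) :
    ∃ k P : ℕ, ∀ j, (c (k + 1 + (P + 1) * j) : ZMod 2) = c (k + 1) := by
  let st : ℕ → Fin D → ZMod 2 := fun k i => (c (K + 1 + k + i) : ZMod 2)
  have hlast : ∀ k, (c (K + 1 + k + D) : ZMod 2) = ∑ i : Fin D, (a i : ZMod 2) * st k i := by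
    intro k
    rw [h _ (by omega)]
    push_cast
    rfl
  have hstep : ∀ k l, st k = st l → st (k + 1) = st (l + 1) := by
    intro k l hkl
    funext i
    by_cases hi : (i : ℕ) + 1 < D
    · have := congrFun hkl ⟨i + 1, hi⟩
      simp only [st] at this ⊢
      rw [show K + 1 + (k + 1) + i = K + 1 + k + (i + 1) by ring,
        show K + 1 + (l + 1) + i = K + 1 + l + (i + 1) by ring]
      exact this
    · have hi2 : (i : ℕ) + 1 = D := by omega
      simp only [st]
      rw [show K + 1 + (k + 1) + i = K + 1 + k + D by omega,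
        show K + 1 + (l + 1) + i = K + 1 + l + D by omega, hlast, hlast, hkl]
  have hmany : ∀ n k l, st k = st l → st (k + n) = st (l + n) := by
    intro n k l hkl
    induction n with
    | zero => exact hkl
    | succ n ih => exact hstep _ _ ih
  obtain ⟨k, l, hkl, he⟩ : ∃ k l, k < l ∧ st k = st l := by
    obtain ⟨x, y, hxy, he⟩ := Finite.exists_ne_map_eq_of_infinite st
    rcases lt_or_gt_of_ne hxy with h | h
    · exact ⟨x, y, h, he⟩
    · exact ⟨y, x, h, he.symm⟩
  obtain ⟨P, rfl⟩ : ∃ P, l = k + (P + 1) := ⟨l - k - 1, by omega⟩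
  have hper : ∀ j, st (k + (P + 1) * j) = st k := by
    intro j
    induction j with
    | zero => rfl
    | succ j ih =>
      rw [← ih, show k + (P + 1) * (j + 1) = k + (P + 1) + (P + 1) * j by ring]
      exact (hmany _ _ _ he).symm
  refine ⟨K + k + D, P, fun j => ?_⟩
  rw [show K + k + D + 1 + (P + 1) * j = K + 1 + (k + (P + 1) * j) + D by ring,
    show K + k + D + 1 = K + 1 + k + D by ring, hlast, hlast, hper]

lemma fderiv_f (z v : V) : fderiv ℂ f z v =
    ![2 * z 2 * v 2, 2 * z 0 * v 0 * z 2 + z 0 ^ 2 * v 2,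
      2 * z 1 * v 1 * z 2 ^ 3 + z 1 ^ 2 * (3 * z 2 ^ 2 * v 2)] := by
  have hp : ∀ i : Fin 3, HasFDerivAt (fun x : V => x i)
      (ContinuousLinearMap.proj (R := ℂ) (φ := fun _ : Fin 3 => ℂ) i) z :=
    fun i => hasFDerivAt_apply i z
  have h0 := (hp 2).pow 2
  have h1 := ((hp 0).pow 2).mul (hp 2)
  have h2 := ((hp 1).pow 2).mul ((hp 2).pow 3)
  have hd : DifferentiableAt ℂ f z := (f_smooth.differentiable (by simp)) z
  funext i
  have e : fderiv ℂ f z v i = fderiv ℂ (fun x => f x i) z v := by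
    rw [fderiv_apply hd]; rfl
  rw [e]
  fin_cases i
  · have : (fun x : V => f x 0) = fun x => x 2 ^ 2 := rfl
    simp only [Fin.zero_eta]
    rw [this, h0.fderiv]; simp
  · have : (fun x : V => f x 1) = (fun x : V => x 0 ^ 2) * fun x => x 2 := rfl
    simp only [Fin.mk_one]
    rw [this, h1.fderiv]; simp; ring
  · have : (fun x : V => f x 2) = (fun x : V => x 1 ^ 2) * fun x => x 2 ^ 3 := rfl
    simp only [Fin.reduceFinMk]
    rw [this, h2.fderiv]; simp; ring

/-- The negation of the preceding statement: For every holomorphic germ f of ℂⁿ fixing 0 that is non-invertible and dominant, the orders of vanishing c(f^k) of its iterates at 0 eventually satisfy a linear recursion with integer coefficients. -/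
theorem result :
    ¬ (∀ (n : ℕ) (f : (Fin n → ℂ) → (Fin n → ℂ)),
      AnalyticAt ℂ f 0 → f 0 = 0 →
      (fderiv ℂ f 0).det = 0 →
      (∀ ε : ℝ, 0 < ε → ∃ z : Fin n → ℂ, ‖z‖ < ε ∧ (fderiv ℂ f z).det ≠ 0) →
      ∃ (d : ℕ) (a : Fin d → ℤ) (K : ℕ), ∀ k : ℕ, K ≤ k →
        ((sInf {m : ℕ | iteratedFDeriv ℂ m (f^[k + d]) 0 ≠ 0} : ℕ) : ℤ) =
          ∑ i : Fin d, a i *
            ((sInf {m : ℕ | iteratedFDeriv ℂ m (f^[k + (i : ℕ)]) 0 ≠ 0} : ℕ) : ℤ)) := by
  intro H
  obtain ⟨D, a, K, h⟩ := H 3 f (f_smooth.contDiffAt.analyticAt) (by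
      funext i; fin_cases i <;> simp [f]) (by
      have : fderiv ℂ f 0 = 0 := by
        ext v i
        rw [fderiv_f]
        fin_cases i <;> simp
      rw [this, ContinuousLinearMap.det]
      exact LinearMap.det_zero'' ) (by
      intro ε hε
      refine ⟨fun _ => ((ε / 2 : ℝ) : ℂ), ?_, ?_⟩
      · rw [pi_norm_const, Complex.norm_real, Real.norm_eq_abs, abs_of_pos (half_pos hε)]
        exact half_lt_self hε
      · rw [ContinuousLinearMap.det, Ne, LinearMap.det_eq_zero_iff_ker_ne_bot, not_not,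
          LinearMap.ker_eq_bot']
        intro v hv
        have ht : ((ε / 2 : ℝ) : ℂ) ≠ 0 := by exact_mod_cast (half_pos hε).ne'
        generalize ((ε / 2 : ℝ) : ℂ) = t at hv ht
        have hv' := (fderiv_f (fun _ => t) v).symm.trans hv
        have a0 := congrFun hv' 0
        have a1 := congrFun hv' 1
        have a2 := congrFun hv' 2
        simp only [Matrix.cons_val, Pi.zero_apply] at a0 a1 a2
        have b2 : v 2 = 0 := by simpa [ht] using a0
        rw [b2] at a1 a2
        have b0 : v 0 = 0 := by simpa [ht] using a1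
        have b1 : v 1 = 0 := by simpa [ht] using a2
        funext i
        fin_cases i <;> simp [b0, b1, b2])
  obtain ⟨k, P, hk⟩ := ev_periodic
    (fun k => ((sInf {m : ℕ | iteratedFDeriv ℂ m (f^[k]) 0 ≠ 0} : ℕ) : ℤ)) D a K h
  have key : ∀ j, min (r (k + (P + 1) * j + 1) 0) (r (k + (P + 1) * j + 1) 1) % 2
      = min (r (k + 1) 0) (r (k + 1) 1) % 2 := by
    intro j
    have := hk j
    rw [show k + 1 + (P + 1) * j = k + (P + 1) * j + 1 by ring, order_eq, order_eq,
      Int.cast_natCast, Int.cast_natCast, ZMod.natCast_eq_natCast_iff'] at this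
    exact this
  have p0 := r_par k
  rcases lt_or_ge (r (k + 1) 0) (r (k + 1) 1) with hlt | hge
  · refine not_periodic (k + 1) P (-1) fun j => ?_
    have h1 := key j
    have h2 := r_par (k + (P + 1) * j)
    rw [show k + 1 + (P + 1) * j = k + (P + 1) * j + 1 by ring]
    have h3 : r (k + (P + 1) * j + 1) 0 < r (k + (P + 1) * j + 1) 1 := by omega
    have h4 : (r (k + (P + 1) * j + 1) 0 : ℝ) < r (k + (P + 1) * j + 1) 1 := by exact_mod_cast h3
    unfold d; linarith
  · refine not_periodic (k + 1) P 1 fun j => ?_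
    have h1 := key j
    have h2 := r_par (k + (P + 1) * j)
    rw [show k + 1 + (P + 1) * j = k + (P + 1) * j + 1 by ring]
    have h3 : r (k + (P + 1) * j + 1) 1 < r (k + (P + 1) * j + 1) 0 := by omega
    have h4 : (r (k + (P + 1) * j + 1) 1 : ℝ) < r (k + (P + 1) * j + 1) 0 := by exact_mod_cast h3
    unfold d; linarith

end Pool.Agent.S06280
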