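import Pool.Statements.S06281

set_option autoImplicit false
open Pool Pool.MP_d4e048_an

namespace Pool.Agent.S06281

section
open Matrix

section
variable {R : Type} [Ring R] [TopologicalSpace R] [IsTopologicalRing R] [Algebra ℂ R]
  [ContinuousSMul ℂ R]

def Rel (u v : Rˣ) : Prop := v ∈ connectedComponent u

omit [IsTopologicalRing R] [Algebra ℂ R] [ContinuousSMul ℂ R] in
theorem Rel.trans {u v w : Rˣ} (h : Rel u v) (h' : Rel v w) : Rel u w := by
  unfold Rel at *; rwa [connectedComponent_eq h]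

omit [IsTopologicalRing R] [Algebra ℂ R] [ContinuousSMul ℂ R] in
theorem Rel.symm {u v : Rˣ} (h : Rel u v) : Rel v u := by
  unfold Rel at *; rw [← connectedComponent_eq h]; exact mem_connectedComponent

omit [IsTopologicalRing R] [Algebra ℂ R] [ContinuousSMul ℂ R] in
theorem Rel.map {S : Type} [Ring S] [TopologicalSpace S] {u v : Rˣ} (h : Rel u v) (f : R →* S)
    (hf : Continuous f) : Rel (Units.map f u) (Units.map f v) :=
  (hf.units_map f).image_connectedComponent_subset u ⟨v, h, rfl⟩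

theorem unip (n : R) (h : n * n = 0) (u : Rˣ) :
    (∃ v : Rˣ, (v : R) = (1 + n) * u ∧ Rel u v) ∧ ∃ v : Rˣ, (v : R) = u * (1 + n) ∧ Rel u v := by
  let g : ℂ → Rˣ := fun t => ⟨1 + t • n, 1 - t • n, by simp [mul_sub, add_mul, h],
    by simp [sub_mul, mul_add, h]⟩
  have hg : Continuous g := Units.continuous_iff.2
    ⟨show Continuous fun t : ℂ => 1 + t • n by fun_prop,
     show Continuous fun t : ℂ => 1 - t • n by fun_prop⟩
  have h0 : g 0 = 1 := Units.ext (by simp [g])
  refine ⟨⟨g 1 * u, by simp [g], ?_⟩, ⟨u * g 1, by simp [g], ?_⟩⟩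
  · exact (isPreconnected_range (hg.mul continuous_const)).subset_connectedComponent
      ⟨0, by simp [h0]⟩ ⟨1, rfl⟩
  · exact (isPreconnected_range (continuous_const.mul hg)).subset_connectedComponent
      ⟨0, by simp [h0]⟩ ⟨1, rfl⟩

theorem conj (c : R) (h : c * c = 0) (u : Rˣ) (w w' : R) (hw : (u : R) = 1 + w)
    (e : (1 + c) * w * (1 - c) = w') : ∃ v : Rˣ, (v : R) = 1 + w' ∧ Rel u v := by
  obtain ⟨v1, e1, r1⟩ := (unip c h u).1
  obtain ⟨v2, e2, r2⟩ := (unip (-c) (by simp [h]) v1).2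
  refine ⟨v2, ?_, r1.trans r2⟩
  rw [e2, e1, hw, ← e]
  linear_combination (norm := noncomm_ring) -h

theorem swap (u : Rˣ) (w a b : R) (hw : (u : R) = 1 + w) (h1 : a * a = 0) (h2 : b * b = 0)
    (h3 : a * w = 0) (h4 : w * b = 0) (h5 : a * b * w = w) (h6 : w * a * b = w) :
    ∃ v : Rˣ, (v : R) = 1 + b * w * a ∧ Rel u v := by
  obtain ⟨v1, e1, r1⟩ := conj b h2 u w (w + b * w) hw
    (by linear_combination (norm := noncomm_ring) -h4 - b * h4)
  obtain ⟨v2, e2, r2⟩ := conj (-a) (by simp [h1]) v1 _ (b * w + b * w * a) e1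
    (by linear_combination (norm := noncomm_ring) -h3 - h5 - h3 * a - h5 * a)
  obtain ⟨v3, e3, r3⟩ := conj b h2 v2 _ (b * w * a) e2
    (by linear_combination (norm := noncomm_ring) h2 * (w + w * a) * (1 - b) - b * h4 - b * h6)
  exact ⟨v3, e3, (r1.trans r2).trans r3⟩

theorem fix (u : Rˣ) (x y l r : R) (h1 : y * x = 0) (h2 : y * (u * x) = 0) (h3 : l * x = 1)
    (h4 : y * r = 1) : ∃ v : Rˣ, v * x = x ∧ l * v = l ∧ Rel u v := by
  obtain ⟨ui, hu⟩ : ∃ ui : R, ui * u = 1 := ⟨_, u.inv_mul⟩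
  obtain ⟨v1, e1, r1⟩ := (unip (r * (l * ui * (1 - r * y)))
    (by linear_combination (norm := noncomm_ring)
          -(r * l * ui * r) * h4 * (l * ui * (1 - r * y))) u).1
  have f1 : v1 * x = u * x + r := by
    rw [e1]
    linear_combination (norm := noncomm_ring) r * l * hu * x + r * h3 - r * l * ui * r * h2
  obtain ⟨v2, e2, r2⟩ := (unip ((x - u * x) * y)
    (by linear_combination (norm := noncomm_ring) (x - (u : R) * x) * (h1 - h2) * y) v1).1
  have f2 : v2 * x = x + r := by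
    rw [e2, mul_assoc, f1]
    linear_combination (norm := noncomm_ring) (x - (u : R) * x) * (h2 + h4)
  obtain ⟨v3, e3, r3⟩ := (unip (-(r * (l * (1 - r * y))))
    (by linear_combination (norm := noncomm_ring) -(r * l * r) * h4 * (l * (1 - r * y))) v2).1
  have f3 : v3 * x = x := by
    rw [e3, mul_assoc, f2]
    linear_combination (norm := noncomm_ring) r * l * r * (h1 + h4) - r * h3
  obtain ⟨vi, hv⟩ : ∃ vi : R, vi * v3 = 1 := ⟨_, v3.inv_mul⟩
  have f4 : (vi - 1 : R) * x = 0 := by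
    linear_combination (norm := noncomm_ring) hv * x - vi * f3
  obtain ⟨v4, e4, r4⟩ := (unip (x * l * (vi - 1))
    (by linear_combination (norm := noncomm_ring) x * l * f4 * (l * (vi - 1))) v3).1
  refine ⟨v4, ?_, ?_, ((r1.trans r2).trans r3).trans r4⟩
  · rw [e4, mul_assoc, f3]
    linear_combination (norm := noncomm_ring) x * l * f4
  · rw [e4]
    linear_combination (norm := noncomm_ring) h3 * l * (vi - 1) * (v3 : R) + l * hv

/-- compression of a matrix ring into a corner -/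
def comp {ι : Type} [Fintype ι] [DecidableEq ι] (s t : ι → R)
    (h : ∀ i j, t i * s j = if i = j then 1 else 0) : Matrix ι ι R →* R where
  toFun M := 1 + s ⬝ᵥ ((M - 1) *ᵥ t)
  map_one' := by simp
  map_mul' M N := by
    have : ∀ X Y : Matrix ι ι R, (s ⬝ᵥ (X *ᵥ t)) * (s ⬝ᵥ (Y *ᵥ t)) = s ⬝ᵥ ((X * Y) *ᵥ t) := by
      intro X Y
      have : ∀ j, t j * (s ⬝ᵥ (Y *ᵥ t)) = (Y *ᵥ t) j := fun j => by
        simp [dotProduct, Finset.mul_sum, ← mul_assoc, h]
      rw [← mulVec_mulVec]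
      generalize s ⬝ᵥ (Y *ᵥ t) = c at this
      simp [dotProduct, mulVec, Finset.sum_mul, mul_assoc, this]
    rw [add_mul, mul_add, mul_add, this, one_mul, one_mul, mul_one,
      show M * N - 1 = (N - 1) + ((M - 1) + (M - 1) * (N - 1)) by noncomm_ring]
    simp only [add_mulVec, dotProduct_add, add_assoc]

theorem comp_cont {ι : Type} [Fintype ι] [DecidableEq ι] (s t : ι → R) (h) :
    Continuous (comp s t h) := by
  show Continuous fun M : Matrix ι ι R => 1 + s ⬝ᵥ ((M - 1) *ᵥ t)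
  fun_prop

def corner (s t : R) (h : t * s = 1) : R →* R where
  toFun a := 1 + s * (a - 1) * t
  map_one' := by simp
  map_mul' a b := by linear_combination (norm := noncomm_ring) -(s * (a - 1)) * h * ((b - 1) * t)

omit [TopologicalSpace R] [IsTopologicalRing R] [Algebra ℂ R] [ContinuousSMul ℂ R] in
theorem cuntz (h0 : ∃ x : R, x ≠ 0 ∧ ¬ IsUnit x) (h : ∀ x : R, x ≠ 0 → ∃ a b : R, a * x * b = 1) :
    ∃ s t : ℕ → R, ∀ i j, t i * s j = if i = j then 1 else 0 := by
  obtain ⟨s, t, h1, h2⟩ : ∃ s t : R, t * s = 1 ∧ s * t ≠ 1 := by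
    obtain ⟨x, hx, hu⟩ := h0
    obtain ⟨a, b, e⟩ := h x hx
    by_contra hc
    push Not at hc
    have e1 := hc (x * b) a (by rw [← mul_assoc, e])
    have e2 := hc b (a * x) e
    exact hu (isUnit_iff_exists_and_exists.2 ⟨⟨b * a, by rw [← mul_assoc, e1]⟩,
      ⟨b * a, by rw [mul_assoc, e2]⟩⟩)
  obtain ⟨c, d, e⟩ := h (1 - s * t) (sub_ne_zero.2 h2.symm)
  have p1 : (1 - s * t) * s = 0 := by linear_combination (norm := noncomm_ring) -s * h1
  have p2 : t * (1 - s * t) = 0 := by linear_combination (norm := noncomm_ring) -h1 * t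
  have p3 : ∀ i j : ℕ, (1 - s * t) * (t ^ i * s ^ j) * (1 - s * t) =
      if i = j then 1 - s * t else 0 := by
    intro i
    induction i with
    | zero =>
      rintro (_ | j)
      · simp only [pow_zero, mul_one, if_true]
        linear_combination (norm := noncomm_ring) -s * p2
      · rw [if_neg (by omega), pow_zero, one_mul, pow_succ', ← mul_assoc, p1]; simp
    | succ i ih =>
      rintro (_ | j)
      · rw [if_neg (by omega), pow_zero, mul_one, pow_succ, mul_assoc, mul_assoc, p2]; simp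
      · rw [pow_succ, pow_succ', mul_assoc (t ^ i), ← mul_assoc t, h1, one_mul, ih]; simp
  refine ⟨fun j => s ^ j * (1 - s * t) * d, fun i => c * (1 - s * t) * t ^ i, fun i j => ?_⟩
  have := congrArg (fun z => c * z * d) (p3 i j)
  simp only [mul_assoc] at this e ⊢
  rw [this]
  split_ifs <;> simp [e]

theorem inj (h0 : ∃ x : R, x ≠ 0 ∧ ¬ IsUnit x) (h : ∀ x : R, x ≠ 0 → ∃ a b : R, a * x * b = 1)
    (m : ℕ) (u : Rˣ) (U : (Matrix (Fin (m+1)) (Fin (m+1)) R)ˣ)
    (hU : (U : Matrix (Fin (m+1)) (Fin (m+1)) R) =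
      Matrix.diagonal (fun i : Fin (m+1) => if i = 0 then (u : R) else 1)) (hr : Rel 1 U) :
    Rel 1 u := by
  obtain ⟨s, t, e⟩ := cuntz h0 h
  have e00 : t 0 * s 0 = 1 := by simp [e]
  have e01 : t 0 * s 1 = 0 := by simp [e]
  have e10 : t 1 * s 0 = 0 := by simp [e]
  have e11 : t 1 * s 1 = 1 := by simp [e]
  obtain ⟨x, y, l, r, h1, h2, h3, h4⟩ : ∃ x y l r : R,
      y * x = 0 ∧ y * (u * x) = 0 ∧ l * x = 1 ∧ y * r = 1 := by
    by_cases hz : t 0 * (u * s 1) = 0
    · exact ⟨s 1, t 0, t 1, s 0, e01, hz, e11, e00⟩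
    · obtain ⟨b, c, f⟩ := h _ hz
      refine ⟨s 1 * c * s 0, t 1 * b * t 0, t 0 * b * t 0 * u, u * s 1 * c * s 1, ?_, ?_, ?_, ?_⟩
      · linear_combination (norm := noncomm_ring) t 1 * b * e01 * (c * s 0)
      · linear_combination (norm := noncomm_ring) t 1 * f * s 0 + e10
      · linear_combination (norm := noncomm_ring) t 0 * f * s 0 + e00
      · linear_combination (norm := noncomm_ring) t 1 * f * s 1 + e11
  obtain ⟨v, f1, f2, r1⟩ := fix u x y l r h1 h2 h3 h4
  have e' : ∀ i j : Fin (m + 1), (t i * l) * (x * s j) = if i = j then 1 else 0 := fun i j => by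
    rw [mul_assoc, ← mul_assoc l, h3, one_mul, e]; simp [Fin.ext_iff]
  have e0 : (t 0 * l) * (x * s 0) = 1 := by simpa using e' 0 0
  have r2 := hr.map _ (comp_cont (fun i : Fin (m + 1) => x * s i) (fun i => t i * l) e')
  have r3 := r1.map (corner _ _ e0)
    (show Continuous fun a : R => 1 + x * s 0 * (a - 1) * (t 0 * l) by fun_prop)
  have g1 : (v - 1 : R) * x = 0 := by rw [sub_mul, f1]; simp
  have g2 : l * (v - 1 : R) = 0 := by rw [mul_sub, f2]; simp
  have g3 : l * (1 - x * l) = 0 := by linear_combination (norm := noncomm_ring) -h3 * l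
  have g4 : (1 - x * l) * x = 0 := by linear_combination (norm := noncomm_ring) -x * h3
  obtain ⟨v', f3, r4⟩ := swap v (v - 1) ((1 - x * l) * (t 0 * l)) (x * s 0 * (1 - x * l)) (by simp)
    (by linear_combination (norm := noncomm_ring) (1 - x * l) * t 0 * g3 * (t 0 * l))
    (by linear_combination (norm := noncomm_ring) x * s 0 * g4 * (s 0 * (1 - x * l)))
    (by linear_combination (norm := noncomm_ring) (1 - x * l) * t 0 * g2)
    (by linear_combination (norm := noncomm_ring) g1 * (s 0 * (1 - x * l)))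
    (by linear_combination (norm := noncomm_ring)
          (1 - x * l) * e0 * ((1 - x * l) * ((v : R) - 1)) - g4 * (l * ((v : R) - 1)) - x * g2)
    (by linear_combination (norm := noncomm_ring)
          ((v : R) - 1) * (1 - x * l) * e0 * (1 - x * l) - ((v : R) - 1) * x * g3 - g1 * l)
  have q1 : v' = Units.map (corner _ _ e0) v := Units.ext <| by
    rw [f3]
    show _ = 1 + x * s 0 * (v - 1) * (t 0 * l)
    linear_combination (norm := noncomm_ring)
      -(x * s 0 * x) * g2 * ((1 - x * l) * (t 0 * l)) - x * s 0 * g1 * (l * (t 0 * l))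
  have q2 : Units.map (comp (fun i : Fin (m + 1) => x * s i) (fun i => t i * l) e') U =
      Units.map (corner _ _ e0) u := Units.ext <| by
    show 1 + _ ⬝ᵥ ((U.1 - 1) *ᵥ _) = 1 + x * s 0 * (u - 1) * (t 0 * l)
    rw [hU, ← diagonal_one, diagonal_sub]
    simp [dotProduct, mulVec_diagonal, Fin.sum_univ_succ, mul_assoc]
  rw [map_one, q2] at r2
  exact ((r2.trans r3).trans (q1 ▸ r4).symm).trans r1.symm

theorem surj (h0 : ∃ x : R, x ≠ 0 ∧ ¬ IsUnit x) (h : ∀ x : R, x ≠ 0 → ∃ a b : R, a * x * b = 1)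
    (n : ℕ) (U : (Matrix (Fin (n+1)) (Fin (n+1)) R)ˣ) :
    ∃ (a : Rˣ) (V W : (Matrix (Fin (n+1) ⊕ Fin 1) (Fin (n+1) ⊕ Fin 1) R)ˣ),
      (V : Matrix (Fin (n+1) ⊕ Fin 1) (Fin (n+1) ⊕ Fin 1) R) =
        Matrix.fromBlocks (U : Matrix (Fin (n+1)) (Fin (n+1)) R) 0 0 1 ∧
      (W : Matrix (Fin (n+1) ⊕ Fin 1) (Fin (n+1) ⊕ Fin 1) R) =
        Matrix.diagonal (fun i : Fin (n+1) ⊕ Fin 1 => if i = Sum.inl 0 then (a : R) else 1) ∧
      Rel V W := by
  obtain ⟨s, t, e⟩ := cuntz h0 h
  have e' : ∀ i j : Fin (n + 1), t i * s j = if i = j then 1 else 0 := fun i j => by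
    rw [e]; simp [Fin.ext_iff]
  let V : (Matrix (Fin (n+1) ⊕ Fin 1) (Fin (n+1) ⊕ Fin 1) R)ˣ :=
    ⟨fromBlocks U.1 0 0 1, fromBlocks U⁻¹.1 0 0 1, by simp [fromBlocks_multiply],
      by simp [fromBlocks_multiply]⟩
  let S : Matrix (Fin 1) (Fin (n + 1)) R := of fun _ j => s j
  let T : Matrix (Fin (n + 1)) (Fin 1) R := of fun i _ => t i
  have hTS : T * S = 1 := by
    ext i j; simp [T, S, mul_apply, e', one_apply]
  obtain ⟨V1, f1, r1⟩ := swap V (fromBlocks (U.1 - 1) 0 0 0) (fromBlocks 0 T 0 0)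
    (fromBlocks 0 0 S 0) (by rw [← fromBlocks_one, fromBlocks_add]; simp [V])
    (by simp [fromBlocks_multiply]) (by simp [fromBlocks_multiply])
    (by simp [fromBlocks_multiply]) (by simp [fromBlocks_multiply])
    (by simp [fromBlocks_multiply, hTS]) (by simp [fromBlocks_multiply, Matrix.mul_assoc, hTS])
  let P : Matrix (Fin 1) (Fin (n + 1)) R := of fun _ j => if j = 0 then 1 else 0
  let Q : Matrix (Fin (n + 1)) (Fin 1) R := of fun j _ => if j = 0 then 1 else 0
  have hPQ : P * Q = 1 := by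
    ext i j; simp [P, Q, mul_apply, one_apply, Subsingleton.elim i j]
  obtain ⟨V2, f2, r2⟩ := swap V1 (fromBlocks 0 0 0 (S * (U.1 - 1) * T)) (fromBlocks 0 0 P 0)
    (fromBlocks 0 Q 0 0) (by rw [f1]; simp [fromBlocks_multiply])
    (by simp [fromBlocks_multiply]) (by simp [fromBlocks_multiply])
    (by simp [fromBlocks_multiply]) (by simp [fromBlocks_multiply])
    (by simp [fromBlocks_multiply, hPQ]) (by simp [fromBlocks_multiply, Matrix.mul_assoc, hPQ])
  refine ⟨Units.map (comp (fun i : Fin (n + 1) => s i) (fun i => t i) e') U, V, V2, rfl, ?_,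
    r1.trans r2⟩
  have : (S * (U.1 - 1) * T : Matrix (Fin 1) (Fin 1) R) 0 0 =
      (fun i : Fin (n + 1) => s i) ⬝ᵥ ((U.1 - 1) *ᵥ fun i : Fin (n + 1) => t i) := by
    rw [Matrix.mul_assoc]; rfl
  rw [f2]
  generalize S * (U.1 - 1) * T = Z at this
  ext (i | i) (j | j)
  · by_cases hi : i = 0 <;> by_cases hj : j = 0 <;>
      simp [fromBlocks_multiply, mul_apply, P, Q, hi, hj, one_apply, diagonal_apply, comp, this,
        eq_comm]
  · simp [fromBlocks_multiply]
  · simp [fromBlocks_multiply]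
  · simp [fromBlocks_multiply, one_apply, diagonal_apply]
end
end

/-- For every purely infinite simple complex Banach algebra A, the map [a] ↦ [diag(a,1,…,1)] from invertibles mod identity component to K₁(A) = components of GL_∞(A) is injective and surjective. -/
theorem result :
  ∀ (A : Type) [NormedRing A] [NormedAlgebra ℂ A] [CompleteSpace A],
    (∃ x : A, x ≠ 0 ∧ ¬ IsUnit x) →
    (∀ x : A, x ≠ 0 → ∃ a b : A, a * x * b = 1) →
    ((∀ (m : ℕ) (a : Aˣ) (U : (Matrix (Fin (m+1)) (Fin (m+1)) A)ˣ),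
        (U : Matrix (Fin (m+1)) (Fin (m+1)) A) =
          Matrix.diagonal (fun i : Fin (m+1) => if i = 0 then (a : A) else 1) →
        U ∈ connectedComponent (1 : (Matrix (Fin (m+1)) (Fin (m+1)) A)ˣ) →
        a ∈ connectedComponent (1 : Aˣ)) ∧
    (∀ (n : ℕ) (U : (Matrix (Fin (n+1)) (Fin (n+1)) A)ˣ),
      ∃ (k : ℕ) (a : Aˣ)
        (V W : (Matrix (Fin (n+1) ⊕ Fin k) (Fin (n+1) ⊕ Fin k) A)ˣ),
        (V : Matrix (Fin (n+1) ⊕ Fin k) (Fin (n+1) ⊕ Fin k) A) =
          Matrix.fromBlocks (U : Matrix (Fin (n+1)) (Fin (n+1)) A) 0 0 1 ∧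
        (W : Matrix (Fin (n+1) ⊕ Fin k) (Fin (n+1) ⊕ Fin k) A) =
          Matrix.diagonal (fun i : Fin (n+1) ⊕ Fin k =>
            if i = Sum.inl 0 then (a : A) else 1) ∧
        W ∈ connectedComponent V)) := by
  intro A _ _ _ h0 h
  exact ⟨inj h0 h, fun n U => ⟨1, surj h0 h n U⟩⟩

end Pool.Agent.S06281
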