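import Pool.Statements.S06302
import Pool.Agent.Lib.helper21.Beck

set_option autoImplicit false
open Pool Pool.MP_d610ab_an

namespace Pool.Agent.S06302

/-- The negation of the preceding statement: For all f, F_n holomorphic and injective on ∣z∣>1 with f(z)-z bounded for ∣z∣>2 (i.e. class Σ), uniform weighted convergence (∣z∣^2-1)^2∣S_{F_n}-S_f∣→0 on ∣z∣>1 implies (∣z∣^2-1)∣F_n''/F_n' - f''/f'∣→0 uniformly on ∣z∣>1. -/
theorem result :
    ¬ (∀ (f : ℂ → ℂ) (F : ℕ → ℂ → ℂ),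
      (DifferentiableOn ℂ f {z : ℂ | 1 < ‖z‖} ∧ Set.InjOn f {z : ℂ | 1 < ‖z‖} ∧
        ∃ C : ℝ, ∀ z : ℂ, 2 < ‖z‖ → ‖f z - z‖ ≤ C) →
      (∀ n : ℕ, DifferentiableOn ℂ (F n) {z : ℂ | 1 < ‖z‖} ∧
        Set.InjOn (F n) {z : ℂ | 1 < ‖z‖} ∧
        ∃ C : ℝ, ∀ z : ℂ, 2 < ‖z‖ → ‖F n z - z‖ ≤ C) →
      (∀ ε : ℝ, 0 < ε → ∃ N : ℕ, ∀ n : ℕ, N ≤ n → ∀ z : ℂ, 1 < ‖z‖ →
        (‖z‖ ^ 2 - 1) ^ 2 *
          ‖(deriv (fun w => deriv (deriv (F n)) w / deriv (F n) w) z
              - (1 / 2 : ℂ) * (deriv (deriv (F n)) z / deriv (F n) z) ^ 2)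
            - (deriv (fun w => deriv (deriv f) w / deriv f w) z
              - (1 / 2 : ℂ) * (deriv (deriv f) z / deriv f z) ^ 2)‖ ≤ ε) →
      (∀ ε : ℝ, 0 < ε → ∃ N : ℕ, ∀ n : ℕ, N ≤ n → ∀ z : ℂ, 1 < ‖z‖ →
        (‖z‖ ^ 2 - 1) *
          ‖deriv (deriv (F n)) z / deriv (F n) z - deriv (deriv f) z / deriv f z‖ ≤ ε)) := by
  open Complex Set Pool.Agent.Lib.Helper21.Beck in
  intro H
  set p : ℕ → ℂ := fun n => (n + 64 : ℝ) + 4 * I with hp
  have np (n : ℕ) : n + 64 ≤ ‖p n‖ := le_trans (by simp [hp]) (re_le_norm _)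
  have p0 (n : ℕ) : p n ≠ 0 := norm_pos_iff.1 (lt_of_lt_of_le (by positivity) (np n))
  set a : ℕ → ℂ := fun n => 2 * Real.pi * I / p n with ha
  have a0 (n : ℕ) : a n ≠ 0 := div_ne_zero two_pi_I_ne_zero (p0 n)
  have na (n : ℕ) : ‖a n‖ ≤ 8 / (n + 64) := by
    simp only [ha, norm_div, norm_mul, norm_I, norm_real, norm_ofNat, Real.norm_of_nonneg Real.pi_pos.le]
    exact div_le_div₀ (by norm_num) (by linarith [Real.pi_lt_four]) (by positivity) (np n)
  have inj (n : ℕ) : InjOn (fun s => (1 - cexp (a n * s)) / (2 * a n)) {s | |s.im| < 2} :=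
    fun s hs t ht e => by
      obtain ⟨k, hk⟩ := exp_eq_exp_iff_exists_int.1
        (sub_right_injective ((div_left_inj' (mul_ne_zero two_ne_zero (a0 n))).1 e))
      have e : s = t + k * p n := mul_left_cancel₀ (a0 n) (by
        have := p0 n
        rw [hk, ha]; field_simp)
      have i := congrArg im e
      simp [hp] at i
      have : |(k : ℝ)| < 1 := by
        rw [mem_ofPred, abs_lt] at hs ht
        rw [abs_lt]; constructor <;> linarith
      simpa [Int.abs_lt_one_iff.1 (by exact_mod_cast this : |k| < 1)] using e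
  have E1 (n : ℕ) (z : ℂ) (hz : 1 < ‖z‖) : 1 - cexp (a n * L z) ≠ 0 := fun k =>
    L0 hz (inj n (im1 hz) (by simp) (by simp [k]))
  have P1 (z : ℂ) := pre (z := z) (g := fun s => (-s / 2)⁻¹) (g1 := fun s => 2 / s ^ 2)
    (q := fun s => -2 / s) (q1 := fun s => 2 / s ^ 2) fun z hz => by
      have := L0 hz
      generalize L z = s at this
      refine ⟨(((hasDerivAt_id s).neg.div_const 2).inv (by simpa)).congr_deriv ?_,
        ((hasDerivAt_const s 2).div (hasDerivAt_pow 2 s) (by simpa)).congr_deriv ?_,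
        ((hasDerivAt_const s (-2)).div (hasDerivAt_id s) this).congr_deriv ?_, by simpa⟩ <;>
      simp <;> field_simp <;> ring
  have P2 (n : ℕ) (z : ℂ) := pre (z := z) (g := fun s => ((1 - cexp (a n * s)) / (2 * a n))⁻¹)
    (g1 := fun s => 2 * a n ^ 2 * cexp (a n * s) / (1 - cexp (a n * s)) ^ 2)
    (q := fun s => a n * (1 + cexp (a n * s)) / (1 - cexp (a n * s)))
    (q1 := fun s => 2 * a n ^ 2 * cexp (a n * s) / (1 - cexp (a n * s)) ^ 2) fun z hz => by
      have := a0 n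
      have := E1 n z hz
      generalize L z = s at *
      have d := ((hasDerivAt_id s).const_mul (a n)).cexp
      refine ⟨(((d.const_sub 1).div_const _).inv (by simp [this, a0 n])).congr_deriv ?_,
        ((d.const_mul _).div ((d.const_sub 1).pow 2) (by simpa)).congr_deriv ?_,
        (((d.const_add 1).const_mul _).div (d.const_sub 1) (by simpa)).congr_deriv ?_,
        by simp [this, a0 n]⟩ <;>
      simp <;> field_simp <;> ring
  obtain ⟨n, hn⟩ := H (fun z => (-L z / 2)⁻¹) (fun n z => ((1 - cexp (a n * L z)) / (2 * a n))⁻¹)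
    (sig (h := fun s => -s / 2) (by fun_prop) (by simp) (by simp)
      fun s _ t _ e => by linear_combination -2 * e)
    (fun n => sig (h := fun s => (1 - cexp (a n * s)) / (2 * a n)) (by fun_prop) (by simp)
      (((((hasDerivAt_id 0).const_mul (a n)).cexp.const_sub 1).div_const _).deriv.trans (by
        have := a0 n
        simp; field_simp)) (inj n))
    (fun ε ε0 => ⟨⌈2 / ε⌉₊, fun n hn z hz => by
      have := L0 hz
      have := E1 n z hz
      have h3 := n3 hz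
      rw [(P1 z hz).1, (P1 z hz).2, (P2 n z hz).1, (P2 n z hz).2,
        show ∀ x y : ℂ, x - y = -2 * (a n / (z ^ 2 - 1)) ^ 2 + (x - y + 2 * (a n / (z ^ 2 - 1)) ^ 2) from
          fun x y => by ring, show ∀ x y : ℂ, y = 0 → x + y = x from fun x y h => by rw [h, add_zero]]
      · have k := norm_sub_norm_le (z ^ 2) 1
        rw [norm_pow, norm_one] at k
        have k0 : 0 < ‖z‖ ^ 2 - 1 := by nlinarith
        have k1 : 2 / ε ≤ n := (Nat.le_ceil _).trans (Nat.cast_le.2 hn)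
        have k2 := (le_div_iff₀ (by positivity)).1 (na n)
        rw [div_le_iff₀ ε0] at k1
        rw [norm_mul, norm_pow, norm_div, div_pow, norm_neg, norm_ofNat, mul_left_comm,
          ← mul_div_assoc, mul_div_right_comm]
        have k3 : (‖z‖ ^ 2 - 1) ^ 2 / ‖z ^ 2 - 1‖ ^ 2 ≤ 1 :=
          div_le_one_of_le₀ (by gcongr) (by positivity)
        have k4 : ‖a n‖ ^ 2 * (64 * n) ≤ 64 := by
          nlinarith [mul_self_le_mul_self (by positivity) k2, mul_nonneg (sq_nonneg ‖a n‖)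
            (show (0 : ℝ) ≤ n ^ 2 + 64 * n + 64 ^ 2 by positivity)]
        have k5 : ‖a n‖ ^ 2 * 2 ≤ ε := by nlinarith [sq_nonneg ‖a n‖]
        nlinarith [sq_nonneg ‖a n‖]
      · field_simp; ring⟩) (1 / 10) (by norm_num)
  set e := Real.exp (-(n + 64)) with he
  have e0 : 0 < e := Real.exp_pos _
  have e1 : e < 1 := Real.exp_lt_one_iff.2 (by linarith [n.cast_nonneg (α := ℝ)])
  set x := (1 + e) / (1 - e) with hx
  have x1 : 1 < x := (one_lt_div (by linarith)).2 (by linarith)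
  have hz : 1 < ‖(x : ℂ)‖ := by rwa [norm_real, Real.norm_of_nonneg (by linarith)]
  have l : L x = -(n + 64 : ℝ) := by
    rw [L, show ((x : ℂ) - 1) / (x + 1) = e by
      have : 1 - e ≠ 0 := by linarith
      exact_mod_cast (by rw [hx]; field_simp; ring : (x - 1) / (x + 1) = e), ← ofReal_log e0.le,
      Real.log_exp, ofReal_neg]
  have := hn n le_rfl x hz
  have h3 : 0 < x ^ 2 - 1 := by nlinarith
  have h4 := E1 n x hz
  have A : ‖a n‖ ≤ 1 / 8 := (na n).trans (by
    rw [div_le_div_iff₀ (by positivity) (by norm_num)]; linarith [n.cast_nonneg (α := ℝ)])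
  have E : cexp (a n * L x) = cexp (4 * I * a n) := by
    rw [l, show a n * -((n + 64 : ℝ) : ℂ) = 4 * I * a n - 2 * Real.pi * I by
      have := p0 n
      rw [ha]; field_simp; rw [hp]; ring, exp_periodic.sub_eq]
  rw [(P1 x hz).1, (P2 n x hz).1, ← sub_mul, sub_sub_sub_cancel_right, norm_mul, norm_real,
    Real.norm_eq_abs, sq_abs, show (x : ℂ) ^ 2 - 1 = (x ^ 2 - 1 : ℝ) by simp, norm_div, norm_real,
    Real.norm_of_nonneg h3.le, norm_ofNat, mul_left_comm, mul_div_cancel₀ _ h3.ne', E, l] at this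
  rw [E] at h4
  have n4 : ‖4 * I * a n‖ = 4 * ‖a n‖ := by simp
  have b1 := norm_exp_sub_one_sub_id_le (x := 4 * I * a n) (by linarith)
  have b2 := norm_sub_norm_le (cexp (4 * I * a n) - 1) (4 * I * a n)
  have b3 := norm_sub_norm_le 2 (1 - cexp (4 * I * a n))
  have b4 := norm_sub_norm_le (a n * (1 + cexp (4 * I * a n)) / (1 - cexp (4 * I * a n)))
    (-2 / -((n + 64 : ℝ) : ℂ))
  have b5 : ‖-2 / -((n + 64 : ℝ) : ℂ)‖ ≤ 1 / 32 := by
    rw [norm_div, norm_neg, norm_neg, norm_real, Real.norm_of_nonneg (by positivity), norm_ofNat,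
      div_le_div_iff₀ (by positivity) (by norm_num)]
    linarith [n.cast_nonneg (α := ℝ)]
  have b6 : ‖a n * (1 + cexp (4 * I * a n)) / (1 - cexp (4 * I * a n))‖ ≤ 1 / 10 := by linarith
  rw [norm_div, div_le_iff₀ (norm_pos_iff.2 h4), norm_mul] at b6
  rw [show 2 - (1 - cexp (4 * I * a n)) = 1 + cexp (4 * I * a n) by ring, norm_ofNat] at b3
  rw [norm_sub_rev (cexp _) 1, n4] at b2
  rw [n4] at b1
  nlinarith [norm_pos_iff.2 (a0 n)]

end Pool.Agent.S06302
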