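import Pool.Statements.S06331
import Pool.Agent.Lib.helper7.LamC
-- import your own Pool.Agent.* helpers here

set_option autoImplicit false
open Filter Topology
open Pool Pool.MP_d75d7a_an

namespace Pool.Agent.S06331

open Finset Pool.Agent.Lib.H7Lam

section

variable {u : ℕ → ℕ}

theorem ex_sg (h0 : u 0 = 0) (hu : StrictMono u) (p : ℕ) : ∃ n, u n ≤ p ∧ p < u (n + 1) := by
  obtain ⟨j, -, h⟩ := q_find (q := u) (p := p) (by omega) (hu.le_apply (x := p + 1))
  exact ⟨j, h⟩

theorem sg_uniq (hu : StrictMono u) {n m p : ℕ} (h1 : u n ≤ p) (h2 : p < u (n + 1)) (h3 : u m ≤ p)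
    (h4 : p < u (m + 1)) : n = m := by
  have a := hu.lt_iff_lt.1 (h1.trans_lt h4)
  have b := hu.lt_iff_lt.1 (h3.trans_lt h2)
  omega

theorem ex_equiv (h0 : u 0 = 0) (hu : StrictMono u) : ∃ e : Bool × ℕ ≃ ℕ, ∀ n p, u n ≤ p →
    p < u (n + 1) → e (true, p) = p + u n ∧ e (false, p) + p + 1 = 2 * u (n + 1) + u n := by
  choose sg s1 s2 using ex_sg h0 hu
  let f : Bool × ℕ → ℕ := fun z => if z.1 then z.2 + u (sg z.2) else
    2 * u (sg z.2 + 1) + u (sg z.2) - (z.2 + 1)
  have key : ∀ z, 2 * u (sg z.2) ≤ f z ∧ f z < 2 * u (sg z.2 + 1) := by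
    rintro ⟨b, p⟩
    have := s1 p
    have := s2 p
    cases b <;> simp only [f, if_true, Bool.false_eq_true, if_false] <;> omega
  refine ⟨Equiv.ofBijective f ⟨?_, fun i => ?_⟩, fun n p a b => ?_⟩
  · rintro ⟨b, p⟩ ⟨b', p'⟩ h
    have a := key (b, p)
    have a' := key (b', p')
    have e : sg p = sg p' := sg_uniq hu (p := f (b, p) / 2) (by simp only at a; omega)
      (by simp only at a; omega) (by simp only at a'; omega) (by simp only at a'; omega)
    have := s1 p
    have := s2 p
    have := s1 p'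
    have := s2 p'
    cases b <;> cases b' <;> simp only [f, if_true, Bool.false_eq_true, if_false, e] at h <;>
      rw [e] at * <;> first | omega | (congr 1; omega)
  · have a := s1 (i / 2)
    have b := s2 (i / 2)
    rcases lt_or_ge i (u (sg (i / 2)) + u (sg (i / 2) + 1)) with c | c
    · refine ⟨(true, i - u (sg (i / 2))), ?_⟩
      have e : sg (i - u (sg (i / 2))) = sg (i / 2) :=
        sg_uniq hu (s1 _) (s2 _) (by omega) (by omega)
      simp only [f, if_true, e]
      omega
    · refine ⟨(false, 2 * u (sg (i / 2) + 1) + u (sg (i / 2)) - (i + 1)), ?_⟩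
      have e : sg (2 * u (sg (i / 2) + 1) + u (sg (i / 2)) - (i + 1)) = sg (i / 2) :=
        sg_uniq hu (s1 _) (s2 _) (by omega) (by omega)
      simp only [f, Bool.false_eq_true, if_false, e]
      omega
  · have e : sg p = n := sg_uniq hu (s1 _) (s2 _) a b
    simp only [Equiv.ofBijective_apply, f, if_true, Bool.false_eq_true, if_false, e, true_and]
    omega

variable {e : Bool × ℕ ≃ ℕ}

theorem pair_sum (h0 : u 0 = 0) (hu : StrictMono u) (he : ∀ n p, u n ≤ p → p < u (n + 1) →
      e (true, p) = p + u n ∧ e (false, p) + p + 1 = 2 * u (n + 1) + u n) (b : ℕ → ℝ) (n : ℕ) :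
    ∀ p, u n ≤ p → p ≤ u (n + 1) → ∑ q ∈ range p, (b (e (false, q)) + b (e (true, q))) =
      ∑ i ∈ range (p + u n), b i + ∑ i ∈ range (2 * u (n + 1)), b i -
        ∑ i ∈ range (2 * u (n + 1) + u n - p), b i := by
  have step : ∀ n, ∑ q ∈ range (u n), (b (e (false, q)) + b (e (true, q))) =
      ∑ i ∈ range (2 * u n), b i → ∀ p, u n ≤ p → p ≤ u (n + 1) →
      ∑ q ∈ range p, (b (e (false, q)) + b (e (true, q))) =
      ∑ i ∈ range (p + u n), b i + ∑ i ∈ range (2 * u (n + 1)), b i -
        ∑ i ∈ range (2 * u (n + 1) + u n - p), b i := by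
    intro n H p hp
    induction hp with
    | refl => intro _; rw [H, Nat.add_sub_cancel, two_mul (u n)]; ring
    | @step p hp ih =>
      intro h2
      obtain ⟨a1, a2⟩ := he n p hp h2
      have h2' : p + 1 ≤ u (n + 1) := h2
      show ∑ q ∈ range (p + 1), _ = ∑ i ∈ range (p + 1 + u n), b i + _ -
        ∑ i ∈ range (2 * u (n + 1) + u n - (p + 1)), b i
      rw [sum_range_succ, ih (by omega), show p + 1 + u n = p + u n + 1 by ring, sum_range_succ,
        show 2 * u (n + 1) + u n - p = 2 * u (n + 1) + u n - (p + 1) + 1 by omega, sum_range_succ,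
        a1, show e (false, p) = 2 * u (n + 1) + u n - (p + 1) by omega]
      ring
  refine step n ?_
  induction n with
  | zero => simp [h0]
  | succ n ih =>
    have := (hu (Nat.lt_succ_self n)).le
    rw [step n ih _ this le_rfl, show 2 * u (n + 1) + u n - u (n + 1) = u (n + 1) + u n by omega]
    ring

theorem half_sum (f : Bool × ℕ → ℝ) (n : ℕ) :
    ∑ i ∈ range n, f (Equiv.boolProdNatEquivNat.symm i) =
      ∑ q ∈ range (n / 2), (f (false, q) + f (true, q)) +
        if n % 2 = 1 then f (false, n / 2) else 0 := by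
  have key : ∀ p, ∑ i ∈ range (2 * p), f (Equiv.boolProdNatEquivNat.symm i) =
      ∑ q ∈ range p, (f (false, q) + f (true, q)) ∧
      Equiv.boolProdNatEquivNat.symm (2 * p) = (false, p) := by
    intro p
    have a : ∀ p, Equiv.boolProdNatEquivNat.symm (2 * p) = (false, p) := fun p =>
      (Equiv.symm_apply_eq _).2 (by simp [Equiv.boolProdNatEquivNat, Nat.bit])
    have b : ∀ p, Equiv.boolProdNatEquivNat.symm (2 * p + 1) = (true, p) := fun p =>
      (Equiv.symm_apply_eq _).2 (by simp [Equiv.boolProdNatEquivNat, Nat.bit])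
    refine ⟨?_, a p⟩
    induction p with
    | zero => simp
    | succ p ih =>
      rw [show 2 * (p + 1) = 2 * p + 1 + 1 by ring, sum_range_succ, sum_range_succ, ih,
        sum_range_succ, a, b, add_assoc]
  obtain ⟨p, rfl | rfl⟩ := Nat.even_or_odd' n
  · rw [(key p).1, show 2 * p / 2 = p by omega, if_neg (by omega), add_zero]
  · rw [sum_range_succ, (key p).1, (key p).2, show (2 * p + 1) / 2 = p by omega,
      if_pos (by omega)]

theorem half_tend (f : Bool × ℕ → ℝ) {M : ℝ}
    (h1 : Tendsto (fun p => ∑ q ∈ range p, (f (false, q) + f (true, q))) atTop (𝓝 M))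
    (h2 : Tendsto (fun p => f (false, p)) atTop (𝓝 0)) :
    Tendsto (fun n => ∑ i ∈ range n, f (Equiv.boolProdNatEquivNat.symm i)) atTop (𝓝 M) := by
  have t : Tendsto (fun n : ℕ => n / 2) atTop atTop := Nat.tendsto_div_const_atTop (by norm_num)
  simp only [half_sum]
  rw [← add_zero M]
  refine (h1.comp t).add (squeeze_zero_norm (fun n => ?_) (tendsto_zero_iff_norm_tendsto_zero.1
    (h2.comp t)))
  split_ifs <;> simp

theorem preserve (h0 : u 0 = 0) (hu : StrictMono u) (he : ∀ n p, u n ≤ p → p < u (n + 1) →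
      e (true, p) = p + u n ∧ e (false, p) + p + 1 = 2 * u (n + 1) + u n) (b : ℕ → ℝ) {M : ℝ}
    (hb : Tendsto (fun n => ∑ i ∈ range n, b i) atTop (𝓝 M)) :
    Tendsto (fun n => ∑ i ∈ range n, b ((Equiv.boolProdNatEquivNat.symm.trans e) i)) atTop
      (𝓝 M) := by
  choose sg s1 s2 using ex_sg h0 hu
  refine half_tend (fun z => b (e z)) ?_ ?_
  · have : M = M + M - M := by ring
    rw [this]
    refine Tendsto.congr (fun p => (pair_sum h0 hu he b (sg p) p (s1 p) (s2 p).le).symm) ?_
    refine ((hb.comp ?_).add (hb.comp ?_)).sub (hb.comp ?_) <;>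
      refine tendsto_atTop_mono (fun p => ?_) tendsto_id <;>
      have := s2 p <;> simp only [id] <;> omega
  · have t0 : Tendsto b atTop (𝓝 0) := by
      have := (hb.comp (tendsto_add_atTop_nat 1)).sub hb
      simpa [sum_range_succ] using this
    refine t0.comp (tendsto_atTop_mono (fun p => ?_) tendsto_id)
    have := he _ p (s1 p) (s2 p)
    have := s1 p
    have := s2 p
    simp only [id]
    omega

end


/-- There is a divergent real series, convergent under some rearrangement, such that some real number is a sum of it under a λ-permutation and some real number is not. -/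
theorem result :
    ∃ a : ℕ → ℝ,
      (¬ ∃ L : ℝ, Tendsto (fun n => ∑ i ∈ Finset.range n, a i) atTop (𝓝 L)) ∧
      (∃ τ : Equiv.Perm ℕ, ∃ L : ℝ,
        Tendsto (fun n => ∑ i ∈ Finset.range n, a (τ i)) atTop (𝓝 L)) ∧
      (∃ L : ℝ, ∃ σ : Equiv.Perm ℕ,
        ((∀ b : ℕ → ℝ,
            (∃ M : ℝ, Tendsto (fun n => ∑ i ∈ Finset.range n, b i) atTop (𝓝 M)) →
            ∃ M : ℝ, Tendsto (fun n => ∑ i ∈ Finset.range n, b (σ i)) atTop (𝓝 M)) ∧
          (∃ b : ℕ → ℝ,
            (¬ ∃ M : ℝ, Tendsto (fun n => ∑ i ∈ Finset.range n, b i) atTop (𝓝 M)) ∧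
            ∃ M : ℝ, Tendsto (fun n => ∑ i ∈ Finset.range n, b (σ i)) atTop (𝓝 M))) ∧
        Tendsto (fun n => ∑ i ∈ Finset.range n, a (σ i)) atTop (𝓝 L)) ∧
      (∃ L : ℝ, ¬ ∃ σ : Equiv.Perm ℕ,
        ((∀ b : ℕ → ℝ,
            (∃ M : ℝ, Tendsto (fun n => ∑ i ∈ Finset.range n, b i) atTop (𝓝 M)) →
            ∃ M : ℝ, Tendsto (fun n => ∑ i ∈ Finset.range n, b (σ i)) atTop (𝓝 M)) ∧
          (∃ b : ℕ → ℝ,
            (¬ ∃ M : ℝ, Tendsto (fun n => ∑ i ∈ Finset.range n, b i) atTop (𝓝 M)) ∧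
            ∃ M : ℝ, Tendsto (fun n => ∑ i ∈ Finset.range n, b (σ i)) atTop (𝓝 M))) ∧
        Tendsto (fun n => ∑ i ∈ Finset.range n, a (σ i)) atTop (𝓝 L)) := by
  classical
  obtain ⟨c, u, h0, hu, hc⟩ := exists_c
  obtain ⟨e, he⟩ := ex_equiv h0 hu
  let a : ℕ → ℝ := fun i => if (e.symm i).1 then c (e.symm i).2 else -c (e.symm i).2
  have at' : ∀ p, a (e (true, p)) = c p := fun p => by simp [a]
  have af : ∀ p, a (e (false, p)) = -c p := fun p => by simp [a]
  have ut : Tendsto u atTop atTop := hu.tendsto_atTop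
  have div : ¬ ∃ L : ℝ, Tendsto (fun n => ∑ i ∈ Finset.range n, a i) atTop (𝓝 L) := by
    rintro ⟨L, hL⟩
    have e1 : ∀ n, ∑ i ∈ range (u n + u (n + 1)), a i - ∑ i ∈ range (u n + u n), a i = h 0 := by
      intro n
      have le : u n ≤ u (n + 1) := (hu (Nat.lt_succ_self n)).le
      rw [← sum_Ico_eq_sub _ (by omega), ← (hc n).2.1, add_comm (u n) (u (n + 1)), ← sum_Ico_add]
      refine sum_congr rfl fun p hp => ?_
      rw [mem_Ico] at hp
      rw [← at', (he n p hp.1 hp.2).1, add_comm]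
    have t1 := (hL.comp (tendsto_atTop_mono (fun n => Nat.le_add_right (u n) (u (n + 1))) ut)).sub
      (hL.comp (tendsto_atTop_mono (fun n => Nat.le_add_right (u n) (u n)) ut))
    simp only [Function.comp, e1, sub_self] at t1
    exact (h_pos 0).ne' (tendsto_nhds_unique tendsto_const_nhds t1)
  have conv : Tendsto (fun n => ∑ i ∈ range n, a ((Equiv.boolProdNatEquivNat.symm.trans e) i))
      atTop (𝓝 0) := by
    refine half_tend (fun z => a (e z)) (by simp [at', af]) ?_
    simp only [af]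
    rw [Metric.tendsto_atTop]
    intro ε hε
    obtain ⟨N, hN⟩ := exists_nat_one_div_lt hε
    refine ⟨u N, fun p hp => ?_⟩
    obtain ⟨n, b1, b2⟩ := ex_sg h0 hu p
    have b3 : N ≤ n := Nat.le_of_lt_succ (hu.lt_iff_lt.1 (lt_of_le_of_lt hp b2))
    rw [dist_zero_right, norm_neg, Real.norm_eq_abs]
    refine (((hc n).2.2 p b1 b2).trans ((h_anti b3).trans (h_le N))).trans_lt (lt_of_le_of_lt ?_ hN)
    gcongr
    norm_num
  refine ⟨a, div, ⟨_, _, conv⟩, ⟨0, _, ⟨fun b ⟨M, hb⟩ => ⟨M, preserve h0 hu he b hb⟩,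
    a, div, _, conv⟩, conv⟩, 1, ?_⟩
  rintro ⟨σ, ⟨H, -⟩, ht⟩
  obtain ⟨B, hB⟩ := bdd_blocks σ H
  choose D D1 D2 using hB
  refine Sys.main
    { c := c
      adj := fun p => ∃ n, u n ≤ p ∧ p + 1 < u (n + 1)
      x := fun t b p => σ.symm (e (b, p)) < t
      tot := fun t => ∑ i ∈ range t, a (σ i)
      D := fun t => (D t).image e.symm ∪ (D t).image fun i => e.symm (i + 1)
      B := B + B
      mono1 := fun t b p h => Nat.lt_succ_of_lt h
      one := fun t b p b' p' h1 h2 h3 h4 => by
        have : σ.symm (e (b, p)) = σ.symm (e (b', p')) := by omega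
        exact congrArg Prod.snd (e.injective (σ.symm.injective this))
      fin := fun t => ?_
      hD := ?_
      hB := fun t => (card_union_le _ _).trans
        (add_le_add (card_image_le.trans (D1 t)) (card_image_le.trans (D1 t))) } ht ?_
    fun b p => ⟨_, Nat.lt_succ_self _⟩
  · refine ⟨(range t).sup (fun i => (e.symm (σ i)).2) + 1, fun v hv => ?_⟩
    have e1 : ∑ i ∈ range t, a (σ i) = ∑ z ∈ (univ ×ˢ range v).filter
        (fun z : Bool × ℕ => σ.symm (e z) < t), a (e z) := by
      refine sum_bij' (fun i _ => e.symm (σ i)) (fun z _ => σ.symm (e z)) (fun i hi => ?_)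
        (fun z hz => mem_range.2 (mem_filter.1 hz).2) (by simp) (by simp) (by simp)
      have := le_sup (f := fun i => (e.symm (σ i)).2) hi
      refine mem_filter.2 ⟨mem_product.2 ⟨mem_univ _, mem_range.2 ?_⟩, by simpa using hi⟩
      exact lt_of_lt_of_le (Nat.lt_succ_of_le this) hv
    rw [e1, sum_filter, sum_product_right]
    refine sum_congr rfl fun p _ => ?_
    rw [Fintype.sum_bool, at', af]
    split_ifs <;> simp
  · rintro t b p ⟨n, h1, h2⟩ h3
    have c1 := he n p h1 (by omega)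
    have c2 := he n (p + 1) (by omega) h2
    cases b
    · refine mem_union_right _ (mem_image.2 ⟨e (false, p + 1), D2 t _ ?_, ?_⟩)
      · rw [show e (false, p + 1) + 1 = e (false, p) by omega]
        exact fun h => h3 h.symm
      · rw [show e (false, p + 1) + 1 = e (false, p) by omega, e.symm_apply_apply]
    · refine mem_union_left _ (mem_image.2 ⟨e (true, p), D2 t _ ?_, e.symm_apply_apply _⟩)
      rw [show e (true, p) + 1 = e (true, p + 1) by omega]
      exact h3
  · intro d M
    refine ⟨u (d + M), (Nat.le_add_left _ _).trans hu.le_apply, fun y => ∃ n, d ≤ n ∧ y = u n,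
      ⟨_, Nat.le_add_right _ _, rfl⟩, ?_⟩
    rintro _ ⟨n, h1, rfl⟩
    exact ⟨u (n + 1), ⟨(hc n).1.le h1, fun p a b => ⟨n, a, b⟩⟩, n + 1, by omega, rfl⟩

end Pool.Agent.S06331
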