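import Pool.Statements.S06344
import Pool.Agent.Lib.helper23.CkB

set_option autoImplicit false
open Pool Pool.MP_d85bbb_an

namespace Pool.Agent.S06344

/-- The negation of the preceding statement: In a real reflexive Banach space with Gâteaux differentiable norm, if every operator from a closed subspace E into any C(K) extends to X with norm at most (1+ε) times its own for every ε>0, then each extends with equal norm. -/
theorem result :
    ¬ (∀ (X : Type) [NormedAddCommGroup X] [NormedSpace ℝ X] [CompleteSpace X],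
      Function.Surjective (NormedSpace.inclusionInDoubleDual ℝ X) →
      (∀ x : X, x ≠ 0 → ∃ f : X →L[ℝ] ℝ,
          ∀ v : X, HasLineDerivAt ℝ (fun y : X => ‖y‖) (f v) x v) →
      ∀ E : Subspace ℝ X, IsClosed (E : Set X) →
        (∀ ε : ℝ, 0 < ε →
          ∀ (K : Type) [TopologicalSpace K] [CompactSpace K] [T2Space K]
            (T : ↥E →L[ℝ] C(K, ℝ)),
            ∃ S : X →L[ℝ] C(K, ℝ), (∀ e : ↥E, S (e : X) = T e) ∧ ‖S‖ ≤ (1 + ε) * ‖T‖) →
        ∀ (K : Type) [TopologicalSpace K] [CompactSpace K] [T2Space K]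
          (T : ↥E →L[ℝ] C(K, ℝ)),
          ∃ S : X →L[ℝ] C(K, ℝ), (∀ e : ↥E, S (e : X) = T e) ∧ ‖S‖ ≤ ‖T‖) := by
  open Pool.Agent.Lib.helper23.CkA Pool.Agent.Lib.helper23.CkB Filter Topology in
  intro Hm
  obtain ⟨ρ, X, i1, i2, J, hJ, h1, h2, h3, h4⟩ := exists_space
  have : CompleteSpace X := J.symm.isUniformEmbedding.isUniformInducing.completeSpace
    (by rw [J.symm.surjective.range_eq]; exact isComplete_univ)
  let ev : ℕ → X →L[ℝ] ℝ := fun n => (innerSL ℝ (e n)).comp (J.symm : X →L[ℝ] H)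
  have hev : ∀ n z, ev n (J z) = z n := fun n z => by simp [ev, inner_e]
  let E : Subspace ℝ X := LinearMap.ker (ev 0).toLinearMap
  let π : X →L[ℝ] E := (ContinuousLinearMap.id ℝ X - (ev 0).smulRight (J (e 0))).codRestrict E
    fun x => by simp [E, hev, e_apply]
  have hπ : ∀ x : E, π x = x := fun x => Subtype.ext (by
    have : ev 0 x = 0 := x.2
    simp [π, this])
  have hE : ∀ z : H, z 0 = 0 → J z ∈ E := fun z hz => (hev 0 z).trans hz
  let s : ℕ → ℝ := fun n => (-1) ^ n * (1 + 2 / 3 * (1 / (n + 1)))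
  have hs : ∀ n, |s n| = 1 + 2 / 3 * (1 / (n + 1)) := fun n => by
    simp only [s]; rw [abs_mul, abs_neg_one_pow, one_mul, abs_of_pos (by positivity)]
  have hT : ∀ x : X, Tendsto (fun n => s n * ev (n + 1) x) atTop (𝓝 0) := fun x => by
    obtain ⟨z, rfl⟩ := J.surjective x
    simp only [hev]
    refine bdd_le_mul_tendsto_zero' 2 (.of_forall fun n => ?_)
      ((tend z).comp (tendsto_add_atTop_nat 1))
    have : (1 : ℝ) / (n + 1) ≤ 1 := Nat.one_div_le_one_div (Nat.zero_le n) |>.trans (by simp)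
    rw [hs]; linarith
  let T0 : E →ₗ[ℝ] C(OnePoint ℕ, ℝ) :=
    { toFun := fun x => OnePoint.continuousMapMkNat _ 0 (hT x)
      map_add' := fun x y => ContinuousMap.ext fun k => by
        induction k with
        | infty => exact (add_zero _).symm
        | coe n => exact (congrArg _ (map_add _ _ _)).trans (mul_add _ _ _)
      map_smul' := fun c x => ContinuousMap.ext fun k => by
        induction k with
        | infty => exact (mul_zero _).symm
        | coe n => exact (congrArg _ (map_smul _ _ _)).trans (mul_left_comm _ _ _) }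
  have hT0 : ∀ x, ‖T0 x‖ ≤ 1 * ‖x‖ := fun x => (ContinuousMap.norm_le _ (by positivity)).2 fun k => by
    induction k with
    | infty => exact (norm_zero (E := ℝ)).trans_le (by positivity)
    | coe n =>
      obtain ⟨x, hx⟩ := x
      obtain ⟨z, rfl⟩ := J.surjective x
      have h0 : z 0 = 0 := (hev 0 z).symm.trans hx
      change |s n * ev (n + 1) (J z)| ≤ 1 * ‖J z‖
      have h5 := h3 z n
      rw [h0, zero_add, abs_mul, abs_of_pos (by positivity)] at h5
      rw [hev, abs_mul, hs, hJ]
      linarith [co_le z (n + 1)]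
  obtain ⟨S, hS, hS'⟩ := Hm X (refl_of J) h2 E (ev 0).isClosed_ker (fun ε hε K _ _ _ T => by
    rcases (norm_nonneg T).eq_or_lt with h0 | h0
    · exact ⟨0, fun x => by simp [T.opNorm_zero_iff.1 h0.symm],
        ContinuousLinearMap.opNorm_zero.trans_le (by positivity)⟩
    let φ : K → H →L[ℝ] ℝ := fun k =>
      (ContinuousMap.evalCLM ℝ k).comp (T.comp (π.comp (J : H →L[ℝ] X)))
    have h5 : ∀ k (z : H), z 0 = 0 → |φ k z| ≤ ‖T‖ * (‖z‖ + ρ z) := fun k z hz => by
      have : φ k z = T ⟨J z, hE z hz⟩ k := by rw [← hπ ⟨J z, hE z hz⟩]; rfl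
      rw [this, ← hJ]
      exact ((T _).norm_coe_le_norm k).trans (T.le_opNorm _)
    obtain ⟨f, hf⟩ := select ρ h1 K φ (fun z => (T (π (J z))).continuous) ‖T‖ h0
      (fun k z hz => (le_abs_self _).trans (h5 k z hz)) ε hε
    refine ⟨T.comp π - (ev 0).smulRight f, fun x => ?_, ContinuousLinearMap.opNorm_le_bound _
      (by positivity) fun x => (ContinuousMap.norm_le _ (by positivity)).2 fun k => ?_⟩
    · have : ev 0 x = 0 := x.2
      simp [hπ, this]
    · obtain ⟨z, rfl⟩ := J.surjective x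
      change |φ k z - ev 0 (J z) * f k| ≤ _
      rw [hev, hJ]
      rcases eq_or_ne (z 0) 0 with h6 | h6
      · rw [h6, zero_mul, sub_zero]
        refine (h5 k z h6).trans (mul_le_mul_of_nonneg_right ?_ (by positivity))
        nlinarith
      · have h7 := mul_le_mul_of_nonneg_left (hf k ((z 0)⁻¹ • z) (by simp [h6])) (abs_nonneg (z 0))
        rw [← abs_mul, map_smul, norm_smul, map_smul_eq_mul, smul_eq_mul, mul_sub,
          mul_inv_cancel_left₀ h6, norm_inv, Real.norm_eq_abs] at h7
        refine h7.trans_eq ?_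
        have := abs_pos.2 h6
        field_simp) (OnePoint ℕ) (T0.mkContinuous 1 hT0)
  have h5 := hS'.trans (T0.mkContinuous_norm_le zero_le_one hT0)
  have h6 : ∀ n : ℕ, 1 / 2 ≤ (-1) ^ n * S (J (e 0)) n := fun n => by
    set ε : ℝ := 1 / (n + 1) with hε
    have hε0 : 0 < ε := by positivity
    have hε1 : ε ≤ 1 := Nat.one_div_le_one_div (Nat.zero_le n) |>.trans (by simp)
    have h7 := ((S (J ((-(ε / 4)) • e 0 + (1 : ℝ) • e (n + 1)))).norm_coe_le_norm n).trans
      ((S.le_opNorm _).trans (mul_le_of_le_one_left (norm_nonneg _) h5))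
    have h8 : S (J (e (n + 1))) n = s n := by
      rw [hS ⟨_, hE _ (by simp [e_apply])⟩]
      change s n * ev (n + 1) (J _) = _
      simp [hev, e_apply]
    have h9 : ‖(-(ε / 4)) • e 0 + (1 : ℝ) • e (n + 1)‖ ≤ 1 + ε ^ 2 / 32 :=
      (sq_le_sq₀ (norm_nonneg _) (by positivity)).1 (by rw [two]; nlinarith [sq_nonneg (ε ^ 2)])
    rw [hJ, map_add, map_add, map_smul, map_smul, map_smul, map_smul] at h7
    simp only [ContinuousMap.add_apply, ContinuousMap.smul_apply, h8, smul_eq_mul, one_mul,
      Real.norm_eq_abs, s] at h7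
    have h10 := h4 n
    rw [← hε] at h7
    rcases neg_one_pow_eq_or ℝ n with h11 | h11 <;> rw [h11] at h7 ⊢ <;>
      nlinarith [abs_le.1 (h7.trans (add_le_add h9 h10))]
  have h7 : Tendsto (fun n : ℕ => S (J (e 0)) n) atTop (𝓝 (S (J (e 0)) OnePoint.infty)) :=
    (OnePoint.continuous_iff_from_nat _).1 (S (J (e 0))).continuous
  have h8 := ge_of_tendsto' (h7.comp (tendsto_id.const_mul_atTop' two_pos)) (b := 1 / 2) fun n => by
    simpa using h6 (2 * n)
  have h9 := le_of_tendsto' (h7.comp ((tendsto_add_atTop_nat 1).comp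
    (tendsto_id.const_mul_atTop' two_pos))) (b := -(1 / 2)) fun n => by
    have := h6 (2 * n + 1)
    rw [pow_succ, pow_mul, neg_one_sq, one_pow] at this
    simp only [Function.comp, id]
    linarith
  linarith

end Pool.Agent.S06344
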