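import Pool.Statements.S06346

set_option autoImplicit false
open Pool Pool.MP_d890fe_an

namespace Pool.Agent.S06346

open Filter Topology

/-- Self-maps of the reals that are constant except at one point at most. -/
structure S : Type where
  f : ℝ → ℝ
  ok : ∃ y z, ∀ x, x ≠ z → f x = y

instance : Semigroup S where
  mul a b := ⟨a.f ∘ b.f, by
    obtain ⟨y, z, h⟩ := b.ok
    exact ⟨a.f y, z, fun x hx => by simp [h x hx]⟩⟩
  mul_assoc _ _ _ := rfl

theorem mul_f (a b : S) (x : ℝ) : (a * b).f x = a.f (b.f x) := rfl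

def cst (x : ℝ) : S := ⟨fun _ => x, x, x, fun _ _ => rfl⟩

theorem mul_cst (a : S) (x : ℝ) : a * cst x = cst (a.f x) := rfl

instance : Nonempty S := ⟨cst 0⟩

open Classical in
noncomputable def two (x u v : ℝ) : S :=
  ⟨fun w => if w = x then u else v, v, x, fun w hw => by simp [hw]⟩

abbrev L : Type := lp (fun _ : S => ℝ) ⊤

open Classical in
/-- Indicator of the maps sending 0 to z. -/
noncomputable def chi (z : ℝ) : L :=
  ⟨fun t => if t.f 0 = z then 1 else 0, by
    apply memℓp_infty
    refine ⟨1, ?_⟩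
    rintro _ ⟨t, rfl⟩
    simp only []
    split_ifs <;> simp⟩

open Classical in
theorem chi_apply (z : ℝ) (t : S) : chi z t = if t.f 0 = z then 1 else 0 := rfl

theorem summ (φ : L →L[ℝ] ℝ) : Summable fun z => |φ (chi z)| := by
  classical
  refine summable_of_sum_le (c := ‖φ‖) (fun n => abs_nonneg _) fun F => ?_
  set c : ℝ → ℝ := fun n => if 0 ≤ φ (chi n) then 1 else -1 with hc
  have h1 : ∑ n ∈ F, |φ (chi n)| = φ (∑ n ∈ F, c n • chi n) := by
    rw [map_sum]
    refine Finset.sum_congr rfl fun n _ => ?_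
    rw [map_smul, hc]
    simp only [smul_eq_mul]
    split_ifs with h
    · rw [abs_of_nonneg h, one_mul]
    · rw [abs_of_neg (not_le.mp h)]; ring
  have h2 : ‖∑ n ∈ F, c n • chi n‖ ≤ 1 := by
    refine lp.norm_le_of_forall_le zero_le_one fun t => ?_
    have : (∑ n ∈ F, c n • chi n : L) t = if t.f 0 ∈ F then c (t.f 0) else 0 := by
      rw [lp.coeFn_sum]
      simp only [Finset.sum_apply, lp.coeFn_smul, Pi.smul_apply, chi_apply, smul_eq_mul, mul_ite,
        mul_one, mul_zero]
      rw [Finset.sum_ite_eq]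
    rw [this, hc]
    simp only []
    split_ifs <;> simp
  rw [h1]
  calc φ _ ≤ ‖φ (∑ n ∈ F, c n • chi n)‖ := le_abs_self _
    _ ≤ ‖φ‖ * ‖∑ n ∈ F, c n • chi n‖ := φ.le_opNorm _
    _ ≤ ‖φ‖ := mul_le_of_le_one_right (ContinuousLinearMap.opNorm_nonneg φ) h2

theorem weak_tendsto {ι : Type} (l : Filter ι) (u : ι → L) (x : L)
    (h : ∀ φ : L →L[ℝ] ℝ, Tendsto (fun i => φ (u i)) l (𝓝 (φ x))) :
    Tendsto (fun i => toWeakSpace ℝ L (u i)) l (𝓝 (toWeakSpace ℝ L x)) := by
  have hi : IsInducing (fun (x : WeakSpace ℝ L) (φ : L →L[ℝ] ℝ) =>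
      (topDualPairing ℝ L).flip x φ) := ⟨rfl⟩
  rw [hi.tendsto_nhds_iff, tendsto_pi_nhds]
  exact h

theorem t0 (φ : L →L[ℝ] ℝ) : Tendsto (fun z => φ (chi z)) cofinite (𝓝 0) := by
  rw [tendsto_zero_iff_abs_tendsto_zero]
  exact (summ φ).tendsto_cofinite_zero

theorem one_apply (t : S) : (1 : L) t = 1 := rfl

/-- The negation of the preceding statement: For every nonempty semigroup S: if every nonexpansive, weak*-continuous action of S on a nonempty norm-separable weak*-compact convex set in a Banach dual has a common fixed point, then the weakly almost periodic functions on S have a left invariant mean. -/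
theorem result :
    ¬ (∀ (S : Type) [Semigroup S] [Nonempty S],
    (∀ (E : Type) [NormedAddCommGroup E] [NormedSpace ℝ E] [CompleteSpace E]
       (C : Set (WeakDual ℝ E)) (T : S → WeakDual ℝ E → WeakDual ℝ E),
       C.Nonempty → Convex ℝ C → IsCompact C →
       (∃ D : Set (WeakDual ℝ E), D.Countable ∧ D ⊆ C ∧
          ∀ x ∈ C, ∀ ε : ℝ, 0 < ε → ∃ d ∈ D, ∀ e : E, |x e - d e| ≤ ε * ‖e‖) →
       (∀ s : S, Set.MapsTo (T s) C C) →
       (∀ s t : S, ∀ x ∈ C, T (s * t) x = T s (T t x)) →
       (∀ s : S, ∀ x ∈ C, ∀ y ∈ C, ∀ r : ℝ,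
          (∀ e : E, |x e - y e| ≤ r * ‖e‖) →
          ∀ e : E, |T s x e - T s y e| ≤ r * ‖e‖) →
       (∀ s : S, ContinuousOn (T s) C) →
       ∃ x ∈ C, ∀ s : S, T s x = x) →
    ∃ m : lp (fun _ : S => ℝ) ⊤ →L[ℝ] ℝ,
      m 1 = 1 ∧
      (∀ g : lp (fun _ : S => ℝ) ⊤, (∀ t : S, 0 ≤ g t) → 0 ≤ m g) ∧
      ∀ f : lp (fun _ : S => ℝ) ⊤,
        (∃ K : Set (WeakSpace ℝ (lp (fun _ : S => ℝ) ⊤)), IsCompact K ∧
          ∀ g : lp (fun _ : S => ℝ) ⊤, (∃ s : S, ∀ t : S, g t = f (s * t)) →
            toWeakSpace ℝ (lp (fun _ : S => ℝ) ⊤) g ∈ K) →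
        ∀ s : S, ∀ g : lp (fun _ : S => ℝ) ⊤, (∀ t : S, g t = f (s * t)) → m g = m f) := by
  classical
  intro H
  obtain ⟨m, hm1, -, hm⟩ := H S (by
    rintro E _ _ _ C T ⟨c, hc⟩ - - ⟨D, hD, -, hDC⟩ hmap hmul hne -
    set ξ : ℝ → WeakDual ℝ E := fun x => T (cst x) c with hξ
    have hξC : ∀ x, ξ x ∈ C := fun x => hmap _ hc
    have hact : ∀ (a : S) (x : ℝ), T a (ξ x) = ξ (a.f x) := by
      intro a x
      simp only [hξ]
      rw [← hmul a _ c hc, mul_cst]
    have hall : ∀ u v : ℝ, ξ u = ξ v := by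
      intro u v
      have key : ∀ ε : ℝ, 0 < ε → ∀ e : E, |ξ u e - ξ v e| ≤ (2 * ε) * ‖e‖ := by
        intro ε hε
        choose d hd hde using fun x => hDC (ξ x) (hξC x) ε hε
        have : ¬ Function.Injective (fun x => (⟨d x, hd x⟩ : D)) := by
          intro hinj
          have := hD.to_subtype
          have : Countable ℝ := hinj.countable
          exact not_countable (α := ℝ) this
        simp only [Function.Injective, not_forall] at this
        obtain ⟨x, y, hxy, hne'⟩ := this
        have hxy' : d x = d y := congrArg Subtype.val hxy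
        have h1 : ∀ e : E, |ξ x e - ξ y e| ≤ (2 * ε) * ‖e‖ := by
          intro e
          have a := hde x e
          have b := hde y e
          rw [hxy'] at a
          have := abs_sub_le (ξ x e) (d y e) (ξ y e)
          rw [abs_sub_comm (d y e)] at this
          linarith
        have h2 := hne (two x u v) _ (hξC x) _ (hξC y) _ h1
        rw [hact, hact] at h2
        have e1 : (two x u v).f x = u := by simp [two]
        have e2 : (two x u v).f y = v := by
          have : y ≠ x := fun h => hne' h.symm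
          simp [two, this]
        rwa [e1, e2] at h2
      refine DFunLike.ext _ _ fun e => ?_
      refine eq_of_forall_dist_le fun ε hε => ?_
      have := key (ε / (2 * (‖e‖ + 1))) (by positivity) e
      rw [Real.dist_eq]
      refine this.trans ?_
      have hp : 0 < ‖e‖ + 1 := by positivity
      have : 2 * (ε / (2 * (‖e‖ + 1))) * ‖e‖ = ε * (‖e‖ / (‖e‖ + 1)) := by field_simp
      rw [this]
      exact mul_le_of_le_one_right hε.le (div_le_one_of_le₀ (by linarith) hp.le)
    exact ⟨ξ 0, hξC 0, fun s => by rw [hact]; exact hall _ _⟩)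
  have k1 := (weak_tendsto cofinite chi 0 (fun φ => by simpa using t0 φ)).isCompact_insert_range_of_cofinite
  have k2 := (weak_tendsto cofinite (fun z => 1 - chi z) 1 (fun φ => by
    simpa using (tendsto_const_nhds (x := φ 1)).sub (t0 φ))).isCompact_insert_range_of_cofinite
  have hw := hm (chi 0) ⟨_, k1.union k2, by
    rintro g ⟨s, hs⟩
    obtain ⟨y, z, hyz⟩ := s.ok
    by_cases h1 : y = 0 <;> by_cases h2 : s.f z = 0
    · refine Or.inr (Or.inl ?_)
      congr 1
      ext t
      rw [hs, chi_apply, mul_f, one_apply]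
      by_cases h : t.f 0 = z
      · simp [h, h2]
      · simp [hyz _ h, h1]
    · refine Or.inr (Or.inr ⟨z, ?_⟩)
      simp only []
      congr 1
      ext t
      rw [hs, lp.coeFn_sub, Pi.sub_apply, chi_apply, chi_apply, mul_f, one_apply]
      by_cases h : t.f 0 = z
      · simp [h, h2]
      · simp [hyz _ h, h1, h]
    · refine Or.inl (Or.inr ⟨z, ?_⟩)
      simp only []
      congr 1
      ext t
      rw [hs, chi_apply, chi_apply, mul_f]
      by_cases h : t.f 0 = z
      · simp [h, h2]
      · simp [hyz _ h, h1, h]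
    · refine Or.inl (Or.inl ?_)
      congr 1
      ext t
      rw [hs, chi_apply, mul_f]
      by_cases h : t.f 0 = z
      · simp [h, h2]
      · simp [hyz _ h, h1]⟩
  have a := hw (cst 0) 1 (fun t => by rw [chi_apply, mul_f, one_apply]; simp [cst])
  have b := hw (cst 1) 0 (fun t => by rw [chi_apply, mul_f]; simp [cst])
  rw [hm1] at a
  rw [map_zero, ← a] at b
  exact zero_ne_one b

end Pool.Agent.S06346
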