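import Pool.Statements.S06389
import Pool.Agent.Lib.helper19.H19Craig

set_option autoImplicit false
open Pool Pool.MP_dd1f31_an

namespace Pool.Agent.S06389
section Aux
open Pool.Agent.H19Craig Set Real Filter Topology Polynomial

lemma sum_two (f : ℕ → ℝ) (M : ℕ) :
    ∑ m ∈ Finset.range (2 * M), f m = ∑ k ∈ Finset.range M, (f (2 * k) + f (2 * k + 1)) := by
  induction M with
  | zero => simp
  | succ M ih =>
    rw [show 2 * (M + 1) = 2 * M + 1 + 1 by ring, Finset.sum_range_succ, Finset.sum_range_succ, ih,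
      Finset.sum_range_succ]; ring

lemma re_pow (N : ℕ) (t : ℝ) : (((t:ℂ) * Complex.I + 1) ^ (2 * N + 1)).re
    = ∑ k ∈ Finset.range (N + 1), ((2 * N + 1).choose (2 * k) : ℝ) * (-t ^ 2) ^ k := by
  rw [add_pow, Complex.re_sum, show 2 * N + 1 + 1 = 2 * (N + 1) by ring, sum_two]
  refine Finset.sum_congr rfl (fun k _ => ?_)
  have h : ((t:ℂ) * Complex.I) ^ (2 * k) = (((-t ^ 2) ^ k : ℝ) : ℂ) := by
    rw [pow_mul, mul_pow, Complex.I_sq]; push_cast; ring
  rw [pow_succ, h]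
  generalize (-t ^ 2) ^ k = A
  simp
  ring

lemma tan_pow (N j : ℕ) (hj : j ≤ N) :
    ((tan (j * π / (2 * N + 1)) : ℝ) * Complex.I + 1 : ℂ) ^ (2 * N + 1)
      = (((-1) ^ j * (1 / cos (j * π / (2 * N + 1))) ^ (2 * N + 1) : ℝ) : ℂ) ∧
      0 < cos (j * π / (2 * N + 1)) := by
  have hN : (0:ℝ) < 2 * N + 1 := by positivity
  have hjN : (j:ℝ) ≤ N := by exact_mod_cast hj
  have hc : 0 < cos (j * π / (2 * N + 1)) := by
    refine cos_pos_of_mem_Ioo ⟨?_, ?_⟩
    · have : 0 ≤ j * π / (2 * N + 1) := by positivity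
      linarith [pi_pos]
    · rw [div_lt_iff₀ hN]; nlinarith [pi_pos]
  refine ⟨?_, hc⟩
  obtain ⟨θ, hθ⟩ : ∃ θ : ℝ, θ = j * π / (2 * N + 1) := ⟨_, rfl⟩
  rw [← hθ] at hc ⊢
  have h1 : ((tan θ : ℝ) * Complex.I + 1 : ℂ) = ((1 / cos θ : ℝ) : ℂ) * Complex.exp (θ * Complex.I) := by
    rw [Complex.exp_mul_I, tan_eq_sin_div_cos, ← Complex.ofReal_cos, ← Complex.ofReal_sin]
    have : ((cos θ : ℝ) : ℂ) ≠ 0 := by exact_mod_cast hc.ne'
    rw [Complex.ofReal_div, Complex.ofReal_div, Complex.ofReal_one]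
    field_simp
    ring
  rw [h1, mul_pow, ← Complex.exp_nat_mul]
  have h2 : ((2 * N + 1 : ℕ) : ℂ) * (θ * Complex.I) = j * (π * Complex.I) := by
    have : ((2 * N + 1 : ℕ) : ℝ) * θ = j * π := by rw [hθ]; push_cast; field_simp
    rw [← mul_assoc, ← mul_assoc]
    congr 1
    exact_mod_cast this
  rw [h2, Complex.exp_nat_mul, Complex.exp_pi_mul_I]
  push_cast; ring

noncomputable def cf (N k : ℕ) : ℝ :=
  (√(k:ℝ) * wal k + 1 / ((N:ℝ) + 1)) * (((2 * N + 1).choose (2 * k) : ℝ) * (2 / (2 * (N:ℝ) + 1)) ^ (2 * k))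

noncomputable def p (N : ℕ) : ℝ[X] := ∑ k ∈ Finset.range (N + 1), monomial k (cf N k)

noncomputable def xx (N j : ℕ) : ℝ := -((2 * (N:ℝ) + 1) / 2 * tan (j * π / (2 * N + 1))) ^ 2

lemma sign (N j : ℕ) (hj : j ≤ N) : 0 < (-1) ^ j * (p N).eval (xx N j) := by
  obtain ⟨h1, hc⟩ := tan_pow N j hj
  have hN : (0:ℝ) < 2 * N + 1 := by positivity
  obtain ⟨τ, hτ⟩ : ∃ τ : ℝ, τ = tan (j * π / (2 * N + 1)) := ⟨_, rfl⟩
  obtain ⟨K, hK⟩ : ∃ K : ℝ, K = (1 / cos (j * π / (2 * N + 1))) ^ (2 * N + 1) := ⟨_, rfl⟩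
  have hK0 : 0 < K := by rw [hK]; positivity
  rw [← hτ, ← hK] at h1
  have hsq : ((-1:ℝ) ^ j) * (-1) ^ j = 1 := by rw [← mul_pow]; simp
  have hs1 : ∑ k ∈ Finset.range (N + 1), (-1) ^ j * (((2 * N + 1).choose (2 * k) : ℝ) * (-τ ^ 2) ^ k) = K := by
    rw [← Finset.mul_sum, ← re_pow, h1, Complex.ofReal_re, ← mul_assoc, hsq, one_mul]
  have hk := key (fun k => (-1) ^ j * (((2 * N + 1).choose (2 * k) : ℝ) * (-τ ^ 2) ^ k)) (N + 1) (by
    intro s hs
    rw [hs1]
    have e : ∑ k ∈ Finset.range (N + 1),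
        (-1) ^ j * (((2 * N + 1).choose (2 * k) : ℝ) * (-τ ^ 2) ^ k) * s ^ k
        = (-1) ^ j * ((((√s * τ : ℝ):ℂ) * Complex.I + 1) ^ (2 * N + 1)).re := by
      rw [re_pow, Finset.mul_sum]
      refine Finset.sum_congr rfl (fun k _ => ?_)
      rw [mul_pow (√s), sq_sqrt hs.1, show -(s * τ ^ 2) = (-τ ^ 2) * s by ring, mul_pow]; ring
    rw [e]
    have hn : ‖(((√s * τ : ℝ):ℂ) * Complex.I + 1)‖ ≤ ‖((τ:ℂ) * Complex.I + 1)‖ := by
      rw [← sq_le_sq₀ (norm_nonneg _) (norm_nonneg _), Complex.sq_norm, Complex.sq_norm,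
        add_comm, add_comm ((τ:ℂ) * Complex.I), ← Complex.ofReal_one, Complex.normSq_add_mul_I,
        Complex.normSq_add_mul_I, mul_pow, sq_sqrt hs.1]
      nlinarith [hs.2, sq_nonneg τ]
    have hn2 : ‖((τ:ℂ) * Complex.I + 1) ^ (2 * N + 1)‖ = K := by
      rw [h1, Complex.norm_real, Real.norm_eq_abs, abs_mul, abs_of_pos hK0]; simp
    calc _ ≤ |(-1) ^ j * ((((√s * τ : ℝ):ℂ) * Complex.I + 1) ^ (2 * N + 1)).re| := le_abs_self _
      _ = |((((√s * τ : ℝ):ℂ) * Complex.I + 1) ^ (2 * N + 1)).re| := by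
        rw [abs_mul, abs_pow, abs_neg, abs_one, one_pow, one_mul]
      _ ≤ ‖(((√s * τ : ℝ):ℂ) * Complex.I + 1) ^ (2 * N + 1)‖ := Complex.abs_re_le_norm _
      _ ≤ K := by
        rw [← hn2, norm_pow, norm_pow]
        exact pow_le_pow_left₀ (norm_nonneg _) hn _)
  have ev : (-1) ^ j * (p N).eval (xx N j) = (∑ k ∈ Finset.range (N + 1),
      (-1) ^ j * (((2 * N + 1).choose (2 * k) : ℝ) * (-τ ^ 2) ^ k) * (√(k:ℝ) * wal k))
      + 1 / ((N:ℝ) + 1) * K := by
    rw [← hs1, Finset.mul_sum, ← Finset.sum_add_distrib]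
    unfold p
    rw [eval_finsetSum, Finset.mul_sum]
    refine Finset.sum_congr rfl (fun k _ => ?_)
    rw [eval_monomial]
    have : (2 / (2 * (N:ℝ) + 1)) ^ (2 * k) * xx N j ^ k = (-τ ^ 2) ^ k := by
      rw [pow_mul, ← mul_pow]; congr 1
      unfold xx; rw [← hτ]; field_simp
    rw [← this]; unfold cf; ring
  rw [ev]
  have : 0 < 1 / ((N:ℝ) + 1) * K := by positivity
  linarith

lemma xx_lt (N j : ℕ) (hj : j < N) : xx N (j + 1) < xx N j := by
  have hN : (0:ℝ) < 2 * N + 1 := by positivity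
  have hjN : (j:ℝ) + 1 ≤ N := by exact_mod_cast hj
  have h0 : 0 ≤ j * π / (2 * N + 1) := by positivity
  have h2 : ((j + 1 : ℕ):ℝ) * π / (2 * N + 1) < π / 2 := by
    rw [div_lt_iff₀ hN]; push_cast; nlinarith [pi_pos]
  have h3 : j * π / (2 * N + 1) < ((j + 1 : ℕ):ℝ) * π / (2 * N + 1) := by
    refine div_lt_div_of_pos_right ?_ hN
    push_cast; nlinarith [pi_pos]
  have h4 := tan_lt_tan_of_nonneg_of_lt_pi_div_two h0 h2 h3
  have h5 := tan_nonneg_of_nonneg_of_le_pi_div_two h0 (h3.trans h2).le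
  unfold xx
  refine neg_lt_neg (pow_lt_pow_left₀ (mul_lt_mul_of_pos_left h4 (by positivity)) (by positivity)
    two_ne_zero)

lemma xx_anti (N : ℕ) {i j : ℕ} (hij : i ≤ j) (hj : j ≤ N) : xx N j ≤ xx N i := by
  induction j, hij using Nat.le_induction with
  | base => exact le_rfl
  | succ j _ ih => exact (xx_lt N j hj).le.trans (ih (by omega))

lemma root (N j : ℕ) : ∃ y : ℝ, j < N → xx N (j + 1) < y ∧ y < xx N j ∧ (p N).eval y = 0 := by
  by_cases hj : j < N
  · have h1 := sign N j hj.le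
    have h2 := sign N (j + 1) hj
    have hc : ContinuousOn (fun x : ℝ => (-1) ^ j * (p N).eval x) (Icc (xx N (j + 1)) (xx N j)) :=
      (continuous_const.mul (p N).continuous).continuousOn
    have := intermediate_value_Ioo (xx_lt N j hj).le hc (show (0:ℝ) ∈ Ioo _ _ from
      ⟨by rw [pow_succ] at h2; beta_reduce; linarith, h1⟩)
    obtain ⟨y, hy, h0⟩ := this
    refine ⟨y, fun _ => ⟨hy.1, hy.2, ?_⟩⟩
    exact (mul_eq_zero.1 h0).resolve_left (pow_ne_zero _ (by norm_num))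
  · exact ⟨0, fun h => absurd h hj⟩

lemma roots_real (N : ℕ) (z : ℂ) (hz : aeval z (p N) = 0) : z.im = 0 ∧ z.re ≤ 0 := by
  classical
  choose y hy using root N
  by_contra hn
  have hnot : z ∉ (Finset.range N).image (fun j => ((y j : ℝ) : ℂ)) := by
    intro h
    obtain ⟨j, hj, rfl⟩ := Finset.mem_image.1 h
    refine hn ⟨Complex.ofReal_im _, ?_⟩
    have h1 := (hy j (Finset.mem_range.1 hj)).2.1
    have h2 : xx N j ≤ 0 := neg_nonpos.2 (sq_nonneg _)
    rw [Complex.ofReal_re]; linarith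
  have hlt : ∀ i j, i < j → j < N → y j < y i := fun i j hij hj =>
    (hy j hj).2.1.trans_le ((xx_anti N hij hj.le).trans (hy i (hij.trans hj)).1.le)
  have hcard : ((Finset.range N).image (fun j => ((y j : ℝ) : ℂ))).card = N := by
    rw [Finset.card_image_of_injOn, Finset.card_range]
    intro i hi j hj hij
    have hij' : y i = y j := Complex.ofReal_injective hij
    have hi := Finset.mem_range.1 hi
    have hj := Finset.mem_range.1 hj
    rcases lt_trichotomy i j with h | h | h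
    · exact absurd hij' (hlt i j h hj).ne'
    · exact h
    · exact absurd hij' (hlt j i h hi).ne
  have hdeg : ((p N).map (algebraMap ℝ ℂ)).natDegree ≤ N := by
    refine natDegree_map_le.trans ?_
    unfold p
    refine natDegree_sum_le_of_forall_le _ _ (fun k hk => ?_)
    exact (natDegree_monomial_le _).trans (Nat.lt_succ_iff.1 (Finset.mem_range.1 hk))
  have h0 := eq_zero_of_natDegree_lt_card_of_eval_eq_zero' ((p N).map (algebraMap ℝ ℂ))
    (insert z ((Finset.range N).image (fun j => ((y j : ℝ) : ℂ)))) (by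
      intro w hw
      rw [eval_map_algebraMap]
      rcases Finset.mem_insert.1 hw with rfl | hw
      · exact hz
      · obtain ⟨j, hj, rfl⟩ := Finset.mem_image.1 hw
        have := (hy j (Finset.mem_range.1 hj)).2.2
        rw [← Complex.coe_algebraMap, aeval_algebraMap_apply, coe_aeval_eq_eval, this, map_zero])
    (by rw [Finset.card_insert_of_notMem hnot, hcard]; omega)
  have h1 : p N = 0 := (Polynomial.map_eq_zero_iff (algebraMap ℝ ℂ).injective).1 h0
  have := sign N 0 (Nat.zero_le _)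
  simp [h1] at this

noncomputable def cc (k : ℕ) : ℝ := √(k:ℝ) / ((k.factorial : ℝ) ^ 2)

lemma wal_eq (k : ℕ) : √(k:ℝ) * wal k * (2 ^ (2 * k) / ((2 * k).factorial : ℝ)) = cc k := by
  unfold wal cc
  rw [pow_mul]
  have : (0:ℝ) < (2 * k).factorial := by positivity
  have : (0:ℝ) < (k).factorial := by positivity
  field_simp
  norm_num

lemma cf_lim (k : ℕ) : Tendsto (fun N => cf N k) atTop (𝓝 (cc k)) := by
  rw [← wal_eq]
  have h1 : Tendsto (fun N : ℕ => √(k:ℝ) * wal k + 1 / ((N:ℝ) + 1)) atTop (𝓝 (√(k:ℝ) * wal k)) := by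
    simpa using (tendsto_one_div_add_atTop_nhds_zero_nat (𝕜 := ℝ)).const_add (√(k:ℝ) * wal k)
  have h2 := ProbabilityTheory.tendsto_choose_mul_pow_atTop (p := fun n => 2 / (n:ℝ)) (r := 2) (2 * k)
    (tendsto_const_nhds.congr' ((eventually_gt_atTop 0).mono fun n hn => by
      have : (n:ℝ) ≠ 0 := by exact_mod_cast hn.ne'
      beta_reduce; field_simp))
  have h3 : Tendsto (fun N : ℕ => 2 * N + 1) atTop atTop :=
    tendsto_atTop_mono (fun N => by simp only [id]; omega) tendsto_id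
  have h4 := h1.mul (h2.comp h3)
  refine h4.congr (fun N => ?_)
  simp only [cf, Function.comp]
  push_cast; ring

lemma cf_bd (N k : ℕ) : 0 ≤ cf N k ∧ cf N k ≤ cc k + 2 ^ (2 * k) / ((2 * k).factorial : ℝ) := by
  have hw : 0 ≤ √(k:ℝ) * wal k := by unfold wal; positivity
  have hN : (0:ℝ) < 2 * N + 1 := by positivity
  constructor
  · unfold cf; positivity
  · rw [← wal_eq]
    have h1 : ((2 * N + 1).choose (2 * k) : ℝ) * (2 / (2 * (N:ℝ) + 1)) ^ (2 * k)
        ≤ 2 ^ (2 * k) / ((2 * k).factorial : ℝ) := by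
      have := Nat.choose_le_pow_div (α := ℝ) (2 * k) (2 * N + 1)
      refine (mul_le_mul_of_nonneg_right this (by positivity)).trans (le_of_eq ?_)
      push_cast
      rw [div_pow]; field_simp
    have h2 : 1 / ((N:ℝ) + 1) ≤ 1 := by
      rw [div_le_one (by positivity)]; linarith [Nat.cast_nonneg (α := ℝ) N]
    unfold cf
    calc _ ≤ (√(k:ℝ) * wal k + 1) * (2 ^ (2 * k) / ((2 * k).factorial : ℝ)) :=
          mul_le_mul (by linarith) h1 (by positivity) (by positivity)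
      _ = _ := by ring

lemma cc_nonneg (k : ℕ) : 0 ≤ cc k := by unfold cc; positivity

lemma cc_sum {R : ℝ} (hR : 0 ≤ R) : Summable (fun k => cc k * R ^ k) := by
  refine Summable.of_nonneg_of_le (fun k => mul_nonneg (cc_nonneg k) (pow_nonneg hR k)) (fun k => ?_)
    (Real.summable_pow_div_factorial R)
  have hf : (0:ℝ) < k.factorial := by positivity
  have h1 : √(k:ℝ) ≤ k.factorial := by
    refine sqrt_le_iff.2 ⟨hf.le, ?_⟩
    have h2 : (k:ℝ) ≤ k.factorial := by exact_mod_cast Nat.self_le_factorial k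
    have h3 : (1:ℝ) ≤ k.factorial := by exact_mod_cast Nat.factorial_pos k
    nlinarith
  have : cc k ≤ 1 / k.factorial := by
    unfold cc
    rw [div_le_div_iff₀ (by positivity) hf]; nlinarith
  calc _ ≤ 1 / k.factorial * R ^ k := mul_le_mul_of_nonneg_right this (pow_nonneg hR k)
    _ = _ := by ring

lemma bd_sum {R : ℝ} (hR : 0 ≤ R) :
    Summable (fun k => (cc k + 2 ^ (2 * k) / ((2 * k).factorial : ℝ)) * R ^ k) := by
  simp_rw [add_mul]
  refine (cc_sum hR).add ((Real.hasSum_cosh (2 * √R)).summable.congr (fun k => ?_))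
  rw [mul_pow, pow_mul (√R), sq_sqrt hR]; ring

lemma diff_bd (N k : ℕ) : |cf N k - cc k| ≤ cc k + 2 ^ (2 * k) / ((2 * k).factorial : ℝ) := by
  obtain ⟨h1, h2⟩ := cf_bd N k
  have h3 := cc_nonneg k
  have : (0:ℝ) ≤ 2 ^ (2 * k) / ((2 * k).factorial : ℝ) := by positivity
  rw [abs_le]; constructor <;> linarith

lemma err_lim {R : ℝ} (hR : 0 ≤ R) :
    Tendsto (fun N => ∑' k, |cf N k - cc k| * R ^ k) atTop (𝓝 0) := by
  have := tendsto_tsum_of_dominated_convergence (𝓕 := atTop)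
    (f := fun N k => |cf N k - cc k| * R ^ k) (g := fun _ => 0) (bd_sum hR) (fun k => by
      have := (((cf_lim k).sub_const (cc k)).abs).mul_const (R ^ k)
      simpa using this) (Eventually.of_forall fun N k => by
      rw [Real.norm_eq_abs, abs_of_nonneg (by positivity)]
      exact mul_le_mul_of_nonneg_right (diff_bd N k) (pow_nonneg hR k))
  simpa using this

lemma aeval_p (N : ℕ) (z : ℂ) : HasSum (fun k => ((cf N k : ℝ) : ℂ) * z ^ k) (aeval z (p N)) := by
  have : aeval z (p N) = ∑ k ∈ Finset.range (N + 1), ((cf N k : ℝ) : ℂ) * z ^ k := by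
    unfold p
    rw [map_sum]
    exact Finset.sum_congr rfl (fun k _ => by rw [aeval_monomial]; rfl)
  rw [this]
  refine hasSum_sum_of_ne_finset_zero (fun k hk => ?_)
  have : (2 * N + 1).choose (2 * k) = 0 := Nat.choose_eq_zero_of_lt (by
    simp only [Finset.mem_range] at hk; omega)
  simp [cf, this]

lemma dist_bd {R : ℝ} (N : ℕ) (z : ℂ) (hz : ‖z‖ ≤ R) :
    dist (∑' k, ((cc k : ℝ) : ℂ) * z ^ k) (aeval z (p N)) ≤ ∑' k, |cf N k - cc k| * R ^ k := by
  have hR : 0 ≤ R := (norm_nonneg _).trans hz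
  have h1 : Summable (fun k => ((cc k : ℝ) : ℂ) * z ^ k) := by
    refine Summable.of_norm ((cc_sum (norm_nonneg z)).congr (fun k => ?_))
    rw [norm_mul, norm_pow, Complex.norm_real, Real.norm_eq_abs, abs_of_nonneg (cc_nonneg k)]
  have h2 := (aeval_p N z).sub h1.hasSum
  rw [dist_comm, dist_eq_norm]
  have h3 : Summable (fun k => |cf N k - cc k| * R ^ k) :=
    Summable.of_nonneg_of_le (fun k => by positivity)
      (fun k => mul_le_mul_of_nonneg_right (diff_bd N k) (pow_nonneg hR k)) (bd_sum hR)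
  refine h2.norm_le_of_bounded h3.hasSum (fun k => ?_)
  rw [← sub_mul, ← Complex.ofReal_sub, norm_mul, norm_pow, Complex.norm_real, Real.norm_eq_abs]
  exact mul_le_mul_of_nonneg_left (pow_le_pow_left₀ (norm_nonneg _) hz k) (abs_nonneg _)

end Aux


/-- There is a sequence of real polynomials, each with all complex roots real and non-positive, converging uniformly on compact subsets of ℂ to the sum over k of sqrt(k)/(k!)^2 times z^k. -/
theorem result :
    ∃ p : ℕ → Polynomial ℝ,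
      (∀ n, ∀ z : ℂ, Polynomial.aeval z (p n) = 0 → z.im = 0 ∧ z.re ≤ 0) ∧
      TendstoLocallyUniformly (fun n (z : ℂ) => Polynomial.aeval z (p n))
        (fun z : ℂ => ∑' k : ℕ,
          ((Real.sqrt (k : ℝ) / ((Nat.factorial k : ℝ) ^ 2) : ℝ) : ℂ) * z ^ k)
        Filter.atTop := by
  refine ⟨p, roots_real, ?_⟩
  rw [tendstoLocallyUniformly_iff_forall_isCompact]
  intro K hK
  obtain ⟨R, hR⟩ := hK.isBounded.exists_norm_le
  rw [Metric.tendstoUniformlyOn_iff]
  intro ε hε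
  have h := (err_lim (abs_nonneg R)).eventually (gt_mem_nhds hε)
  filter_upwards [h] with N hN z hz
  exact (dist_bd N z ((hR z hz).trans (le_abs_self R))).trans_lt hN


end Pool.Agent.S06389
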