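import Pool.Statements.S06401
-- import your own Pool.Agent.* helpers here

set_option autoImplicit false
open Pool Pool.MP_ddde1e_an

namespace Pool.Agent.S06401

open Set Filter Topology

lemma between {u : ℕ → ℕ} (hu : StrictMono u) {i : ℕ} (hi : u 0 ≤ i) :
    ∃ j, u j ≤ i ∧ i < u (j + 1) := by
  induction i, hi using Nat.le_induction with
  | base => exact ⟨0, le_rfl, hu (Nat.lt_succ_self 0)⟩
  | succ i _ ih =>
    obtain ⟨j, h1, h2⟩ := ih
    by_cases h : i + 1 < u (j + 1)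
    · exact ⟨j, by omega, h⟩
    · exact ⟨j + 1, by omega, by have := hu (Nat.lt_add_one (j + 1)); omega⟩

lemma uniq {u : ℕ → ℕ} (hu : StrictMono u) {i j j' : ℕ} (h1 : u j ≤ i) (h2 : i < u (j + 1))
    (h3 : u j' ≤ i) (h4 : i < u (j' + 1)) : j = j' := by
  have a := hu.lt_iff_lt.1 (h1.trans_lt h4)
  have b := hu.lt_iff_lt.1 (h3.trans_lt h2)
  omega

lemma step {n : ℕ → ℕ} (hn : StrictMono n) (θ : ℕ → ℝ) (J G : ℕ) (hG : 0 < G)
    (hJ : ∀ j ≥ J, G ≤ n (j + 1) - n j) (g : ℕ → ℝ) :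
    ∃ a : ℕ → ℝ, (∀ i, |a i| ≤ 1 / G) ∧ (∀ i < n J, a i = 0) ∧
      ∀ j ≥ J, ∃ t : ℤ, ∑ i ∈ Finset.Ico (n j) (n (j + 1)), (g i + a i) = θ (j + 1) - θ j + t := by
  classical
  let c : ℕ → ℝ := fun j =>
    Int.fract (θ (j + 1) - θ j - ∑ i ∈ Finset.Ico (n j) (n (j + 1)), g i) / (n (j + 1) - n j : ℕ)
  have h0 : ∀ i, n J ≤ i → n 0 ≤ i := fun i hi => (hn.monotone (Nat.zero_le J)).trans hi
  refine ⟨fun i => if h : n J ≤ i then c (between hn (h0 i h)).choose else 0, fun i => ?_,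
    fun i hi => dif_neg (by omega), fun j hj => ?_⟩
  · have hG' : (0 : ℝ) < G := by exact_mod_cast hG
    simp only
    split_ifs with h
    · have h1 := (between hn (h0 i h)).choose_spec
      set j := (between hn (h0 i h)).choose
      have h2 : J ≤ j := by have := hn.lt_iff_lt.1 (h.trans_lt h1.2); omega
      have h3 : (G : ℝ) ≤ (n (j + 1) - n j : ℕ) := by exact_mod_cast hJ j h2
      simp only [c]
      rw [abs_of_nonneg (div_nonneg (Int.fract_nonneg _) (by positivity))]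
      exact div_le_div₀ zero_le_one (Int.fract_lt_one _).le hG' h3
    · rw [abs_zero]; positivity
  · refine ⟨-⌊θ (j + 1) - θ j - ∑ i ∈ Finset.Ico (n j) (n (j + 1)), g i⌋, ?_⟩
    have e : ∀ i ∈ Finset.Ico (n j) (n (j + 1)),
        (if h : n J ≤ i then c (between hn (h0 i h)).choose else 0) = c j := by
      intro i hi
      rw [Finset.mem_Ico] at hi
      have h : n J ≤ i := (hn.monotone hj).trans hi.1
      have h1 := (between hn (h0 i h)).choose_spec
      rw [dif_pos h, uniq hn h1.1 h1.2 hi.1 hi.2]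
    have h3 : ((n (j + 1) - n j : ℕ) : ℝ) ≠ 0 := by
      have := hJ j hj
      exact_mod_cast (by omega : n (j + 1) - n j ≠ 0)
    rw [Finset.sum_add_distrib, Finset.sum_congr rfl e, Finset.sum_const, Nat.card_Ico, nsmul_eq_mul]
    simp only [c]
    rw [mul_div_cancel₀ _ h3, Int.fract]
    push_cast; ring

lemma cocycle {n : ℕ → ℕ} (hn : StrictMono n)
    (ht : Tendsto (fun k : ℕ => n (k + 1) - n k) atTop atTop) (θ : ℕ → ℝ) :
    ∃ (l : ℕ → ℕ) (a : ℕ → ℕ → ℝ), (∀ k i, |a k i| ≤ (1 / 2) ^ k) ∧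
      ∀ j, ((∑ i ∈ Finset.range (n j), ∑' k, a k (i % (l k + 1)) : ℝ) : AddCircle (1 : ℝ)) =
        ((θ j - θ 0 : ℝ) : AddCircle (1 : ℝ)) := by
  have hb : ∀ k : ℕ, ∃ N, ∀ j ≥ N, 2 ^ k ≤ n (j + 1) - n j := fun k =>
    eventually_atTop.1 (ht.eventually_ge_atTop _)
  choose N hN using hb
  let J : ℕ → ℕ := fun k => Nat.rec 0 (fun k r => r + 1 + N (k + 1)) k
  have hJ : StrictMono J := strictMono_nat_of_lt_succ fun k => by
    change J k < J k + 1 + N (k + 1); omega
  have hJ2 : ∀ k, ∀ j ≥ J k, 2 ^ k ≤ n (j + 1) - n j := by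
    intro k j hj
    rcases k with _ | k
    · have := hn (Nat.lt_add_one j); omega
    · exact hN _ j (by change J k + 1 + N (k + 1) ≤ j at hj; omega)
  choose A hA1 hA2 hA3 using fun k => step hn θ (J k) (2 ^ k) (by positivity) (hJ2 k)
  let P : ℕ → ℕ → ℝ := fun k =>
    Nat.rec (fun _ => 0) (fun k g i => g i + A k g (i % (n (J (k + 1)) + 1))) k
  have hP : ∀ k i, P k i = ∑ k' ∈ Finset.range k, A k' (P k') (i % (n (J (k' + 1)) + 1)) := by
    intro k i
    induction k with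
    | zero => rfl
    | succ k ih => rw [Finset.sum_range_succ, ← ih]
  have hz : ∀ k i, i < n (J k) → A k (P k) (i % (n (J (k + 1)) + 1)) = 0 := by
    intro k i hi
    have := hn (hJ (Nat.lt_add_one k))
    rw [Nat.mod_eq_of_lt (by omega)]
    exact hA2 k _ i hi
  refine ⟨fun k => n (J (k + 1)), fun k => A k (P k), fun k i => by simpa using hA1 k _ i, fun j => ?_⟩
  induction j with
  | zero =>
    rw [Finset.sum_eq_zero, sub_self]
    intro i hi
    rw [Finset.mem_range] at hi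
    simp only [hz _ i (hi.trans_le (hn.monotone (Nat.zero_le _))), tsum_zero]
  | succ j ih =>
    obtain ⟨k, k1, k2⟩ := between hJ (Nat.zero_le j)
    obtain ⟨t, ht⟩ := hA3 k (P k) j k1
    have e : ∀ i ∈ Finset.Ico (n j) (n (j + 1)),
        ∑' k', A k' (P k') (i % (n (J (k' + 1)) + 1)) = P k i + A k (P k) i := by
      intro i hi
      rw [Finset.mem_Ico] at hi
      have h1 : i < n (J (k + 1)) := hi.2.trans_le (hn.monotone k2)
      rw [tsum_eq_sum (s := Finset.range (k + 1)), Finset.sum_range_succ, ← hP,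
        Nat.mod_eq_of_lt (by omega)]
      intro k' hk'
      rw [Finset.mem_range, not_lt] at hk'
      exact hz _ _ (h1.trans_le (hn.monotone (hJ.monotone hk')))
    rw [← Finset.sum_range_add_sum_Ico _ (hn.monotone (Nat.le_succ j)), Finset.sum_congr rfl e, ht,
      AddCircle.coe_add, ih, AddCircle.coe_add,
      (AddCircle.coe_eq_zero_iff (p := (1 : ℝ)) (x := (t : ℝ))).2 ⟨t, by simp⟩, add_zero,
      ← AddCircle.coe_add]
    congr 1; ring

lemma sepa {X : Type} [MetricSpace X] [CompactSpace X] (T : X ≃ₜ X) (K : Set (X × X))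
    (hK : IsClosed K) (h1 : ∀ p ∈ K, p.1 ≠ p.2) (h2 : ∀ x y, (T x, T y) ∈ K ↔ (x, y) ∈ K)
    {x y : X} (h : (x, y) ∈ K) : ∃ ε : ℝ, 0 < ε ∧ ∀ m : ℕ,
      ε ≤ dist ((⇑T)^[m] x) ((⇑T)^[m] y) ∧ ε ≤ dist ((⇑T.symm)^[m] x) ((⇑T.symm)^[m] y) := by
  obtain ⟨p, hp, hmin⟩ := hK.isCompact.exists_isMinOn ⟨_, h⟩
    (continuous_fst.dist continuous_snd).continuousOn
  have a1 : ∀ m : ℕ, ((⇑T)^[m] x, (⇑T)^[m] y) ∈ K := by
    intro m
    induction m with
    | zero => exact h
    | succ m ih => rw [Function.iterate_succ_apply', Function.iterate_succ_apply', h2]; exact ih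
  have a2 : ∀ m : ℕ, ((⇑T.symm)^[m] x, (⇑T.symm)^[m] y) ∈ K := by
    intro m
    induction m with
    | zero => exact h
    | succ m ih =>
      rw [Function.iterate_succ_apply', Function.iterate_succ_apply', ← h2]; simpa using ih
  exact ⟨dist p.1 p.2, dist_pos.2 (h1 p hp), fun m => ⟨hmin (a1 m), hmin (a2 m)⟩⟩


/-- For every increasing sequence of naturals whose gaps tend to infinity, every bounded real sequence on it equals f(Tⁿx) along it, for some distal homeomorphism T of a compact metric space, some point x and some continuous f. -/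
theorem result :
    ∀ n : ℕ → ℕ, StrictMono n →
      Filter.Tendsto (fun k : ℕ => n (k + 1) - n k) Filter.atTop Filter.atTop →
      ∀ φ : ℕ → ℝ, (∃ C : ℝ, ∀ k : ℕ, |φ k| ≤ C) →
        ∃ (X : Type) (_ : MetricSpace X) (_ : CompactSpace X) (T : X ≃ₜ X),
          (∀ x y : X, x ≠ y → ∃ ε : ℝ, 0 < ε ∧ ∀ m : ℕ,
              ε ≤ dist ((⇑T)^[m] x) ((⇑T)^[m] y) ∧
              ε ≤ dist ((⇑T.symm)^[m] x) ((⇑T.symm)^[m] y)) ∧
          ∃ (x₀ : X) (f : X → ℝ), Continuous f ∧
            ∀ k : ℕ, f ((⇑T)^[n k] x₀) = φ k := by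
  intro n hn ht φ ⟨C, hC⟩
  have C0 : 0 ≤ C := (abs_nonneg _).trans (hC 0)
  obtain ⟨l, a, ha, hsum⟩ := cocycle hn ht fun j => (φ j + C) / (4 * (C + 1))
  let Z := (k : ℕ) → ZMod (l k + 1)
  let ψ : Z → AddCircle (1 : ℝ) := fun z => ((∑' k, a k (z k).val : ℝ) : AddCircle (1 : ℝ))
  have hψ : Continuous ψ := (AddCircle.continuous_mk' 1).comp (continuous_tsum
    (fun k => (continuous_of_discreteTopology (f := fun r : ZMod (l k + 1) => a k r.val)).comp
      (continuous_apply k)) summable_geometric_two fun k z => ha k _)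
  let T : (Z × AddCircle (1 : ℝ)) ≃ₜ (Z × AddCircle (1 : ℝ)) :=
    { toFun := fun x => (x.1 + 1, x.2 + ψ x.1)
      invFun := fun x => (x.1 - 1, x.2 - ψ (x.1 - 1))
      left_inv := fun x => by simp
      right_inv := fun x => by simp
      continuous_toFun := by fun_prop
      continuous_invFun := by fun_prop }
  have hT : ∀ x, T x = (x.1 + 1, x.2 + ψ x.1) := fun _ => rfl
  have c1 : ∀ k, IsClosed {p : (Z × AddCircle (1 : ℝ)) × (Z × AddCircle (1 : ℝ)) |
      p.1.1 k ≠ p.2.1 k} := fun k =>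
    (isClosed_discrete {w : ZMod (l k + 1) × ZMod (l k + 1) | w.1 ≠ w.2}).preimage
      (f := fun p : (Z × AddCircle (1 : ℝ)) × (Z × AddCircle (1 : ℝ)) => (p.1.1 k, p.2.1 k))
      (by fun_prop)
  have c2 : ∀ u, IsClosed {p : (Z × AddCircle (1 : ℝ)) × (Z × AddCircle (1 : ℝ)) |
      p.1.1 = p.2.1 ∧ p.1.2 - p.2.2 = u} := fun u =>
    (isClosed_eq (by fun_prop) (by fun_prop)).inter (isClosed_eq (by fun_prop) (by fun_prop))
  have c3 : Continuous fun x : Z × AddCircle (1 : ℝ) => 4 * (C + 1) * ‖x.2‖ - C := by fun_prop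
  let _ : MetricSpace (Z × AddCircle (1 : ℝ)) := TopologicalSpace.metrizableSpaceMetric _
  refine ⟨Z × AddCircle (1 : ℝ), inferInstance, inferInstance, T, fun x y hxy => ?_,
    (0, (((φ 0 + C) / (4 * (C + 1)) : ℝ) : AddCircle (1 : ℝ))), _, c3, fun j => ?_⟩
  · by_cases e : x.1 = y.1
    · refine sepa T _ (c2 (x.2 - y.2)) (fun p hp h => hxy (Prod.ext e ?_)) (fun x' y' => ?_) ⟨e, rfl⟩
      · rw [← sub_eq_zero, ← hp.2, h, sub_self]
      · simp only [hT, mem_ofPred_eq, add_left_inj]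
        exact and_congr_right fun h => by rw [h, add_sub_add_right_eq_sub]
    · obtain ⟨k, hk⟩ := Function.ne_iff.1 e
      refine sepa T _ (c1 k) (fun p hp h => hp (by rw [h])) (fun x' y' => ?_) hk
      simp only [hT, mem_ofPred_eq, Z, Pi.add_apply, ne_eq, add_left_inj]
  · have hit : ∀ (m : ℕ) (y : AddCircle (1 : ℝ)), (⇑T)^[m] (0, y) = ((m : Z), y +
        ((∑ i ∈ Finset.range m, ∑' k, a k (i % (l k + 1)) : ℝ) : AddCircle (1 : ℝ))) := by
      intro m y
      induction m with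
      | zero => exact Prod.ext (Nat.cast_zero (R := Z)).symm (by simp)
      | succ m ih =>
        rw [Function.iterate_succ_apply', ih, hT, Finset.sum_range_succ, AddCircle.coe_add,
          Nat.cast_succ, add_assoc]
        simp only [ψ, Z, Pi.natCast_apply, ZMod.val_natCast]
    have h1 := abs_le.1 (hC j)
    have h2 : 0 ≤ (φ j + C) / (4 * (C + 1)) := div_nonneg (by linarith) (by positivity)
    have h3 : (φ j + C) / (4 * (C + 1)) ≤ 1 / 2 := by
      rw [div_le_iff₀ (by positivity)]; linarith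
    simp only [hit, hsum, ← AddCircle.coe_add, add_sub_cancel]
    rw [(AddCircle.norm_coe_eq_abs_iff (1 : ℝ) one_ne_zero).2 (by rw [abs_of_nonneg h2]; simpa using h3),
      abs_of_nonneg h2]
    field_simp
    ring

end Pool.Agent.S06401
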