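import Pool.Statements.S06418

set_option autoImplicit false
open Pool Pool.MP_def338_an

namespace Pool.Agent.S06418

open Filter Topology Pointwise

noncomputable def aa (n : ℕ) : ℝ := if n % 2 = 0 then 1 / 9 else 1 / 2

noncomputable def xx (n : ℕ) : ℝ :=
  (∏ i ∈ Finset.range n, (1 - aa i) / 2) * (1 - (1 - aa n) / 2)

noncomputable def ss (ε : ℕ → Bool) : ℝ := ∑' n, if ε n = true then xx n else 0

theorem aa_two (n : ℕ) : aa (n + 2) = aa n := by simp [aa]

theorem aa_bound (n : ℕ) : 0 < aa n ∧ aa n < 1 := by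
  unfold aa; split_ifs <;> norm_num

theorem xx_two (n : ℕ) : xx (n + 2) = xx n / 9 := by
  unfold xx
  rw [Finset.prod_range_succ', Finset.prod_range_succ']
  simp only [add_assoc, show 1 + 1 = 2 from rfl, aa_two]
  simp only [aa]
  norm_num
  ring

theorem xx_zero : xx 0 = 5 / 9 := by simp [xx, aa]; norm_num
theorem xx_one : xx 1 = 3 / 9 := by simp [xx, aa]; norm_num

theorem xx_bound (n : ℕ) : 0 ≤ xx n ∧ xx n ≤ (1 / 3) ^ n := by
  induction n using Nat.twoStepInduction with
  | zero => rw [xx_zero]; norm_num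
  | one => rw [xx_one]; norm_num
  | more n ih _ =>
    rw [xx_two, pow_succ, pow_succ]
    constructor <;> linarith [ih.1, ih.2]

theorem term_bound (ε : ℕ → Bool) (n : ℕ) :
    ‖(if ε n = true then xx n else 0)‖ ≤ (1 / 3) ^ n := by
  split_ifs
  · rw [Real.norm_of_nonneg (xx_bound n).1]; exact (xx_bound n).2
  · simp

theorem geo : Summable (fun n : ℕ => ((1 : ℝ) / 3) ^ n) :=
  summable_geometric_of_lt_one (by norm_num) (by norm_num)

theorem summ (ε : ℕ → Bool) : Summable (fun n => if ε n = true then xx n else 0) :=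
  Summable.of_norm_bounded geo (term_bound ε)

theorem ss_cont : Continuous ss := by
  refine continuous_tsum (fun n => ?_) geo (fun n ε => term_bound ε n)
  exact (continuous_of_discreteTopology (f := fun b : Bool => if b = true then xx n else 0)).comp
    (continuous_apply n)

theorem ss_rec (ε : ℕ → Bool) :
    9 * ss ε = (if ε 0 = true then 5 else 0) + (if ε 1 = true then 3 else 0)
      + ss (fun n => ε (n + 2)) := by
  unfold ss
  rw [← (summ ε).sum_add_tsum_nat_add 2]
  have : (fun n => if ε (n + 2) = true then xx (n + 2) else 0)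
      = fun n => (if ε (n + 2) = true then xx n else 0) / 9 := by
    funext n; rw [xx_two]; split_ifs <;> simp
  rw [this, tsum_div_const, Finset.sum_range_succ, Finset.sum_range_one, xx_zero, xx_one]
  split_ifs <;> ring

theorem ss_bound (ε : ℕ → Bool) : 0 ≤ ss ε ∧ ss ε ≤ 1 := by
  constructor
  · apply tsum_nonneg
    intro n
    split_ifs
    · exact (xx_bound n).1
    · exact le_rfl
  · have h1 := ss_rec (fun _ => true)
    simp only [if_true] at h1
    have h2 : ss ε ≤ ss (fun _ => true) := by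
      apply Summable.tsum_le_tsum _ (summ _) (summ _)
      intro n
      simp only [if_true]
      split_ifs
      · exact le_rfl
      · exact (xx_bound n).1
    linarith

def KK : Set ℝ := {z : ℝ | ∃ u ∈ Set.range ss, ∃ v ∈ Set.range ss, z = u - v}

theorem mem_KK {z : ℝ} : z ∈ KK ↔ ∃ ε δ, z = ss ε - ss δ := by
  simp [KK]

theorem KK_compact : IsCompact KK := by
  have : KK = Set.range (fun p : (ℕ → Bool) × (ℕ → Bool) => ss p.1 - ss p.2) := by
    ext z; rw [mem_KK]; simp [eq_comm]
  rw [this]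
  exact isCompact_range ((ss_cont.comp continuous_fst).sub (ss_cont.comp continuous_snd))

def cons2 (b c : Bool) (ε : ℕ → Bool) : ℕ → Bool
  | 0 => b
  | 1 => c
  | (n + 2) => ε n

theorem ss_cons2 (b c : Bool) (ε : ℕ → Bool) :
    9 * ss (cons2 b c ε) = (if b = true then 5 else 0) + (if c = true then 3 else 0) + ss ε :=
  ss_rec _

theorem digit (m : ℤ) : ∃ (b c b' c' : Bool) (m' : ℤ),
    m = 9 * m' + ((if b = true then 5 else 0) + (if c = true then 3 else 0)
      - (if b' = true then 5 else 0) - (if c' = true then 3 else 0)) := by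
  have h : ∀ r : Fin 9, ∃ (b c b' c' : Bool), (9 : ℤ) ∣ ((r : ℕ) : ℤ) -
      ((if b = true then 5 else 0) + (if c = true then 3 else 0)
      - (if b' = true then 5 else 0) - (if c' = true then 3 else 0)) := by decide
  obtain ⟨b, c, b', c', t, ht⟩ := h ⟨(m % 9).toNat, by omega⟩
  refine ⟨b, c, b', c', m / 9 + t, ?_⟩
  simp only at ht
  omega

theorem grid (n : ℕ) (j : ℤ) : ∃ z ∈ KK, ∃ m : ℤ, (j : ℝ) / 9 ^ n = z + m := by
  induction n with
  | zero =>
    exact ⟨0, mem_KK.2 ⟨fun _ => true, fun _ => true, by simp⟩, j, by simp⟩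
  | succ n ih =>
    obtain ⟨z, hz, m, h⟩ := ih
    obtain ⟨ε, δ, rfl⟩ := mem_KK.1 hz
    obtain ⟨b, c, b', c', m', hm⟩ := digit m
    refine ⟨_, mem_KK.2 ⟨cons2 b c ε, cons2 b' c' δ, rfl⟩, m', ?_⟩
    have h1 := ss_cons2 b c ε
    have h2 := ss_cons2 b' c' δ
    have h3 : (m : ℝ) = 9 * m' + ((if b = true then 5 else 0) + (if c = true then 3 else 0)
      - (if b' = true then 5 else 0) - (if c' = true then 3 else 0)) := by
      rw [hm]; push_cast; rfl
    rw [pow_succ, ← div_div, h]
    linarith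

theorem cover (t : ℝ) : ∃ z ∈ KK, ∃ m : ℤ, t = z + m := by
  have hc : IsClosed (KK + Set.range ((↑) : ℤ → ℝ)) :=
    Int.isClosedEmbedding_coe_real.isClosed_range.add_left_of_isCompact KK_compact
  have hl : Tendsto (fun n : ℕ => (⌊t * 9 ^ n⌋ : ℝ) / 9 ^ n) atTop (𝓝 t) := by
    have h0 : Tendsto (fun n : ℕ => t - ((1 : ℝ) / 9) ^ n) atTop (𝓝 t) := by
      simpa using (tendsto_pow_atTop_nhds_zero_of_lt_one (r := (1 : ℝ) / 9) (by norm_num)
        (by norm_num)).const_sub t
    refine tendsto_of_tendsto_of_tendsto_of_le_of_le h0 tendsto_const_nhds ?_ ?_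
    · intro n
      have hp : (0 : ℝ) < 9 ^ n := by positivity
      simp only
      rw [le_div_iff₀ hp, sub_mul, ← mul_pow]
      have := Int.sub_one_lt_floor (t * 9 ^ n)
      norm_num
      linarith
    · intro n
      have hp : (0 : ℝ) < 9 ^ n := by positivity
      simp only
      rw [div_le_iff₀ hp]
      exact Int.floor_le _
  have := hc.mem_of_tendsto hl (Eventually.of_forall fun n => by
    obtain ⟨z, hz, m, h⟩ := grid n ⌊t * 9 ^ n⌋
    exact ⟨z, hz, m, ⟨m, rfl⟩, h.symm⟩)
  obtain ⟨z, hz, _, ⟨m, rfl⟩, h⟩ := this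
  exact ⟨z, hz, m, h.symm⟩

theorem int_nonempty : (interior KK).Nonempty := by
  have hcl : ∀ m : ℤ, IsClosed ((fun t : ℝ => t - m) ⁻¹' KK) := fun m =>
    KK_compact.isClosed.preimage (continuous_sub_right _)
  obtain ⟨m, t, ht⟩ := nonempty_interior_of_iUnion_of_closed hcl (by
    rw [Set.eq_univ_iff_forall]
    intro t
    obtain ⟨z, hz, m, h⟩ := cover t
    exact Set.mem_iUnion.2 ⟨m, by simpa [h] using hz⟩)
  have := (Homeomorph.subRight (m : ℝ)).preimage_interior KK
  refine ⟨t - m, ?_⟩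
  have h2 : t ∈ (Homeomorph.subRight (m : ℝ)) ⁻¹' interior KK := by rw [this]; exact ht
  exact h2

theorem not_mem (n : ℕ) : (13 / 18 : ℝ) * (1 / 9) ^ n ∉ KK := by
  induction n with
  | zero =>
    intro h
    obtain ⟨ε, δ, h⟩ := mem_KK.1 h
    have h1 := ss_rec ε
    have h2 := ss_rec δ
    have h3 := ss_bound (fun n => ε (n + 2))
    have h4 := ss_bound (fun n => δ (n + 2))
    simp only [pow_zero] at h
    split_ifs at h1 h2 <;> linarith [h3.1, h3.2, h4.1, h4.2]
  | succ n ih =>
    intro h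
    obtain ⟨ε, δ, h⟩ := mem_KK.1 h
    have h1 := ss_rec ε
    have h2 := ss_rec δ
    have h3 := ss_bound (fun n => ε (n + 2))
    have h4 := ss_bound (fun n => δ (n + 2))
    have h5 : (0 : ℝ) < (1 / 9) ^ n := by positivity
    have h6 : ((1 : ℝ) / 9) ^ n ≤ 1 := pow_le_one₀ (by norm_num) (by norm_num)
    apply ih
    refine mem_KK.2 ⟨fun n => ε (n + 2), fun n => δ (n + 2), ?_⟩
    rw [pow_succ] at h
    split_ifs at h1 h2 <;> linarith [h3.1, h3.2, h4.1, h4.2]

/-- The negation of the preceding statement: For every sequence a with 0<a_n<1, if the difference set C−C of the central Cantor set C(a) (the set of sums of subseries of x_n = λ_0⋯λ_{n−1}(1−λ_n), with λ_n=(1−a_n)/2) has nonempty interior, then 0 lies in that interior. -/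
theorem result :
    ¬ (∀ a : ℕ → ℝ, (∀ n, 0 < a n ∧ a n < 1) →
      ∀ C : Set ℝ,
        C = Set.range (fun ε : ℕ → Bool =>
          ∑' n, if ε n = true then
            (∏ i ∈ Finset.range n, (1 - a i) / 2) * (1 - (1 - a n) / 2) else 0) →
        (interior {z : ℝ | ∃ u ∈ C, ∃ v ∈ C, z = u - v}).Nonempty →
        (0 : ℝ) ∈ interior {z : ℝ | ∃ u ∈ C, ∃ v ∈ C, z = u - v}) := by
  intro h
  have h1 : (0 : ℝ) ∈ interior KK := h aa aa_bound (Set.range ss) rfl int_nonempty
  have h2 : Tendsto (fun n : ℕ => (13 / 18 : ℝ) * (1 / 9) ^ n) atTop (𝓝 0) := by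
    simpa using (tendsto_pow_atTop_nhds_zero_of_lt_one (r := (1 : ℝ) / 9) (by norm_num)
        (by norm_num)).const_mul (13 / 18 : ℝ)
  obtain ⟨n, hn⟩ := (h2.eventually (mem_interior_iff_mem_nhds.1 h1)).exists
  exact not_mem n hn

end Pool.Agent.S06418
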