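import Pool.Statements.S06419
import Pool.Agent.Lib.helper21.Gon1

set_option autoImplicit false
open scoped ENNReal MeasureTheory
open Pool Pool.MP_df1243_an

namespace Pool.Agent.S06419

/-- For every compact E in [0,1] on the real axis whose 2-modulus of curves to the circle of radius 2 is positive, the 2-modulus of the family of rectifiable curves joining E to the rest of the real axis is infinite. -/
theorem result :
    ∀ E : Set (EuclideanSpace ℝ (Fin 2)), IsCompact E →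
      E ⊆ {x | x 1 = 0 ∧ 0 ≤ x 0 ∧ x 0 ≤ 1} →
      0 < (⨅ (ρ : EuclideanSpace ℝ (Fin 2) → ℝ≥0∞) (_ : Measurable ρ)
            (_ : ∀ γ : C(unitInterval, EuclideanSpace ℝ (Fin 2)),
              Function.Injective γ → γ 0 ∈ E → γ 1 ∈ Metric.sphere (0 : EuclideanSpace ℝ (Fin 2)) 2 →
              μH[1] (Set.range γ) < ⊤ → 1 ≤ ∫⁻ x in Set.range γ, ρ x ∂μH[1]),
            ∫⁻ x, ρ x ^ 2) →
      (⨅ (ρ : EuclideanSpace ℝ (Fin 2) → ℝ≥0∞) (_ : Measurable ρ)
            (_ : ∀ γ : C(unitInterval, EuclideanSpace ℝ (Fin 2)),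
              Function.Injective γ → γ 0 ∈ E → γ 1 ∈ ({x | x 1 = 0} \ E) →
              μH[1] (Set.range γ) < ⊤ → 1 ≤ ∫⁻ x in Set.range γ, ρ x ∂μH[1]),
            ∫⁻ x, ρ x ^ 2) = ⊤ := by
  open Set Filter Metric Topology MeasureTheory Pool.Agent.Lib.Helper21.Gon in
  intro E hE sE hpos
  by_contra hne
  obtain ⟨ρ, hρ, H, fin⟩ : ∃ ρ : X → ℝ≥0∞, Measurable ρ ∧ Adm E ({x | x 1 = 0} \ E) ρ ∧
      ∫⁻ p, ρ p ^ 2 ≠ ⊤ := by
    by_contra h
    push Not at h
    exact hne (by simp only [iInf_eq_top]; exact h)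
  refine hpos.ne' (zero (K := 272) (by simp) fun ε ε0 => ?_)
  obtain ⟨δ, ⟨δ0, δ1⟩, hδ⟩ := (Eventually.and (Ioo_mem_nhdsGT one_pos)
    (line hρ fin one_ne_zero ε0)).exists
  replace hδ := hδ 0
  have m := (mQ hρ 0 1).lintegral_prod_right' (ν := volume.restrict (Icc (-δ) δ))
  simp only at m
  obtain ⟨d, hd⟩ : ∃ d, d = ENNReal.ofReal δ := ⟨_, rfl⟩
  have d0 : d ≠ 0 := by simpa [hd]
  have d1 : d ≠ ⊤ := by simp [hd]
  obtain ⟨G, mG, vG, G1, G2⟩ : ∃ G : Set ℝ, MeasurableSet G ∧ volume G ≤ 32 * d * ε ∧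
      (∀ x ∉ G, pt x 0 ∉ E) ∧ ∀ x ∉ G, ∫⁻ t in Icc (-δ) δ, ρ (pt (x + 0 * t) (1 * t)) ≤ 2⁻¹ := by
    refine ⟨{x | pt x 0 ∈ E} ∪ {x | 4⁻¹ ≤ 8 * d * ∫⁻ t in Icc (-δ) δ, ρ (pt (x + 0 * t) (1 * t)) ^ 2},
      (hE.isClosed.preimage (by fun_prop)).measurableSet.union
        (measurableSet_le measurable_const (m.const_mul _)), ?_, fun x hx h => hx (.inl h),
      fun x hx => ?_⟩
    · refine (measure_union_le _ _).trans ?_
      have k := mul_meas_ge_le_lintegral (μ := volume) (m.const_mul (8 * d)) 4⁻¹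
      rw [lintegral_const_mul _ m] at k
      rw [nullE sE hρ fin H, zero_add, ← one_mul (volume _), ← ENNReal.mul_inv_cancel (a := 4) (by simp)
        (by simp), mul_assoc]
      calc _ ≤ 4 * (8 * d * ε) := by gcongr 4 * ?_; exact k.trans (by gcongr)
        _ = _ := by ring
    · refine (cs δ0 (hρ.comp (Continuous.measurable (by fun_prop)))).trans ?_
      rw [← hd, show (2⁻¹ : ℝ≥0∞) = 4⁻¹ + 4⁻¹ by
        rw [show (4 : ℝ≥0∞) = 2 * 2 by norm_num, ENNReal.mul_inv (by simp) (by simp), ← mul_add,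
          ENNReal.inv_two_add_inv_two, mul_one]]
      gcongr
      exact (not_le.1 fun h => hx (.inr h)).le
  set S : Set X := {p | p 1 ∈ Icc (-δ) δ} with hS
  set T : Set X := {p | p 0 ∈ G ∧ p 1 ∈ Icc (-δ) δ} with hT
  have mS : MeasurableSet S := measurableSet_Icc.preimage (by fun_prop)
  have mT : MeasurableSet T := (mG.preimage (by fun_prop)).inter mS
  refine iInf_le_of_le (fun p => 2 * S.indicator ρ p + T.indicator (fun _ => d⁻¹) p) (iInf_le_of_le
    (((hρ.indicator mS).const_mul 2).add (measurable_const.indicator mT))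
    (iInf_le_of_le (fun γ iγ h0 h1 hγ => ?_) ?_))
  · obtain ⟨Γ, cΓ, iΓ, r, g0, g1⟩ : ∃ Γ : ℝ → X, Continuous Γ ∧ InjOn Γ (Icc 0 1) ∧
        (∀ s, Γ s ∈ range γ) ∧ Γ 0 ∈ E ∧ ‖Γ 1‖ = 2 :=
      ⟨fun t => γ (projIcc 0 1 zero_le_one t), γ.continuous.comp continuous_projIcc,
        fun s hs t ht h => by
          have := iγ h
          rwa [projIcc_of_mem _ hs, projIcc_of_mem _ ht, Subtype.mk.injEq] at this,
        fun s => mem_range_self _, by simpa using h0, by simpa using h1⟩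
    have first : ∀ C : Set X, IsClosed C → ∀ t, 0 ≤ t → Γ t ∈ C →
        ∃ t0 ∈ Icc 0 t, Γ t0 ∈ C ∧ ∀ s ∈ Icc 0 t0, Γ s ∈ C → s = t0 := fun C hC t t0 ht => by
      obtain ⟨u, hu, hl⟩ := (isCompact_Icc.inter_right (hC.preimage cΓ)).exists_isLeast
        ⟨t, ⟨t0, le_rfl⟩, ht⟩
      exact ⟨u, hu.1, hu.2, fun s hs h => hs.2.antisymm (hl ⟨⟨hs.1, hs.2.trans hu.1.2⟩, h⟩)⟩
    have e0 : Γ 0 = pt (Γ 0 0) 0 := ext rfl (sE g0).1
    obtain ⟨t1, ht1, a1, a2⟩ := first {p | δ ≤ dist p (Γ 0)} (isClosed_le continuous_const (by fun_prop))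
      1 zero_le_one (by
        have : ‖Γ 0‖ ≤ 1 := by
          rw [EuclideanSpace.norm_eq, Fin.sum_univ_two, (sE g0).1, Real.sqrt_le_left zero_le_one]
          have := (sE g0).2
          simp only [Real.norm_eq_abs, sq_abs]; nlinarith [this.1, this.2]
        have := norm_sub_norm_le (Γ 1) (Γ 0)
        rw [mem_ofPred, dist_eq_norm]; linarith)
    have iv : Icc 0 δ ⊆ (fun s => dist (Γ s) (Γ 0)) '' Icc 0 t1 := fun x hx =>
      intermediate_value_Icc ht1.1 (Continuous.continuousOn (by fun_prop))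
        ⟨by simpa using hx.1, hx.2.trans a1⟩
    have st : ∀ s ∈ Icc 0 t1, Γ s ∈ S := fun s hs => by
      have b : dist (Γ s) (Γ 0) ≤ δ := by
        by_contra h
        obtain ⟨u, hu, e⟩ := iv ⟨δ0.le, le_rfl⟩
        rw [a2 u hu e.ge, ← a2 s hs (not_le.1 h).le] at e
        exact h e.le
      have c := (PiLp.norm_apply_le (Γ s - Γ 0) 1).trans ((dist_eq_norm (Γ s) (Γ 0)).ge.trans b)
      rw [PiLp.sub_apply, (sE g0).1, sub_zero] at c
      exact abs_le.1 c
    have mK : ∀ t, MeasurableSet (Γ '' Icc 0 t) := fun t => (isCompact_Icc.image cΓ).measurableSet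
    have rK : ∀ t, Γ '' Icc 0 t ⊆ range γ := fun t => image_subset_iff.2 fun s _ => r s
    by_cases hG : ∀ s ∈ Icc 0 t1, Γ s 0 ∈ G
    · have l : d ≤ μH[1] (Γ '' Icc 0 t1) := by
        have := (LipschitzWith.dist_left (Γ 0)).hausdorffMeasure_image_le zero_le_one (Γ '' Icc 0 t1)
        rw [image_image, hausdorffMeasure_real] at this
        simpa [hd] using (measure_mono iv).trans this
      calc 1 ≤ d⁻¹ * μH[1] (Γ '' Icc 0 t1) := by rw [← ENNReal.inv_mul_cancel d0 d1]; gcongr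
        _ = ∫⁻ _ in Γ '' Icc 0 t1, d⁻¹ ∂μH[1] := (setLIntegral_const _ _).symm
        _ ≤ _ := (setLIntegral_mono' (mK t1) ?_).trans (lintegral_mono_set (rK t1))
      rintro _ ⟨s, hs, rfl⟩
      rw [indicator_of_mem (show Γ s ∈ T from ⟨hG s hs, st s hs⟩)]
      exact le_add_self
    push Not at hG
    obtain ⟨t, ht, hx⟩ := hG
    obtain ⟨t0, ht0, b1, b2⟩ := first {p | p 0 = Γ t 0} (isClosed_eq (by fun_prop) continuous_const)
      t ht.1 rfl
    generalize Γ t 0 = x at hx b1 b2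
    replace b1 : Γ t0 0 = x := b1
    have t01 : t0 ≤ t1 := ht0.2.trans ht.2
    have t0p : 0 < t0 := ht0.1.lt_of_ne fun h => G1 x hx (by rw [← b1, ← h, ← e0]; exact g0)
    obtain ⟨k, k1, k2, k3⟩ : ∃ k : ℝ, 1 ≤ k ∧ k ≤ 2 ∧ ((k = 1 ∧ pt x 0 - Γ t0 = 0) ∨
        (k = 2 ∧ pt x 0 - Γ t0 ≠ 0)) := by
      by_cases h : pt x 0 - Γ t0 = 0
      exacts [⟨1, le_rfl, one_le_two, .inl ⟨rfl, h⟩⟩, ⟨2, one_le_two, le_rfl, .inr ⟨rfl, h⟩⟩]
    have mm : ∀ s ∈ Icc (0 : ℝ) 1, t0 * min (k * s) 1 ∈ Icc 0 t0 := fun s hs =>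
      ⟨mul_nonneg t0p.le (le_min (by nlinarith [hs.1]) zero_le_one),
        mul_le_of_le_one_right t0p.le (min_le_right _ _)⟩
    have s2 := seg x (u := 0) (v := 1) (by norm_num) ρ (Icc (-δ) δ)
    have sub : Icc 0 t0 ⊆ Icc 0 1 := Icc_subset_Icc_right (t01.trans ht1.2)
    have k := adm H (c := fun s => Γ (t0 * min (k * s) 1) + max (k * s - 1) 0 • (pt x 0 - Γ t0))
      (K := Γ '' Icc 0 t0) (by fun_prop) (fun s hs u hu h => ?_)
      (by simpa using g0) (by
        have : Γ (t0 * min (k * 1) 1) + max (k * 1 - 1) 0 • (pt x 0 - Γ t0) = pt x 0 := by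
          rcases k3 with ⟨rfl, h⟩ | ⟨rfl, -⟩
          · simpa using (sub_eq_zero.1 h).symm
          · norm_num
        simp only [this]
        exact ⟨rfl, G1 x hx⟩)
      (fun s hs => ?_) ((measure_mono (rK t0)).trans_lt hγ) (s2.2.trans_lt measure_Icc_lt_top)
    · rw [s2.1, ← ENNReal.inv_two_add_inv_two] at k
      have := ENNReal.le_of_add_le_add_right (by simp) (k.trans (add_le_add le_rfl (G2 x hx)))
      calc 1 ≤ 2 * ∫⁻ p in Γ '' Icc 0 t0, ρ p ∂μH[1] := by
            rw [← ENNReal.mul_inv_cancel (a := 2) (by simp) (by simp)]; gcongr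
        _ = ∫⁻ p in Γ '' Icc 0 t0, 2 * ρ p ∂μH[1] := (lintegral_const_mul _ hρ).symm
        _ ≤ _ := (setLIntegral_mono' (mK t0) ?_).trans (lintegral_mono_set (rK t0))
      rintro _ ⟨s, hs, rfl⟩
      rw [indicator_of_mem (st s ⟨hs.1, hs.2.trans t01⟩)]
      exact le_self_add
    · have c0 := congrArg (fun p : X => p 0) h
      simp only [PiLp.add_apply, PiLp.smul_apply, PiLp.sub_apply, pt0, b1, sub_self, smul_zero,
        add_zero] at c0
      have big : ∀ s ∈ Icc (0 : ℝ) 1, Γ (t0 * min (k * s) 1) 0 = x → 1 ≤ k * s := fun s hs h => by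
        have := b2 _ (mm s hs) h
        rw [mul_eq_left₀ t0p.ne'] at this
        exact min_eq_right_iff.1 this
      by_cases c : Γ (t0 * min (k * s) 1) 0 = x
      · have p1 := big s hs c
        have p2 := big u hu (c0 ▸ c)
        simp only [min_eq_right p1, min_eq_right p2, max_eq_left (sub_nonneg.2 p1),
          max_eq_left (sub_nonneg.2 p2), add_right_inj] at h
        rcases k3 with ⟨rfl, -⟩ | ⟨rfl, n⟩
        · linarith [hs.2, hu.2]
        · linarith [smul_left_injective ℝ n h]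
      · have p1 : k * s ≤ 1 := le_of_not_ge fun p => c (by rw [min_eq_right p, mul_one, b1])
        have p2 : k * u ≤ 1 := le_of_not_ge fun p => c (by rw [c0, min_eq_right p, mul_one, b1])
        simp only [max_eq_right (sub_nonpos.2 p1), max_eq_right (sub_nonpos.2 p2), zero_smul,
          add_zero] at h
        have := iΓ (sub (mm s hs)) (sub (mm u hu)) h
        rw [min_eq_left p1, min_eq_left p2] at this
        exact mul_left_cancel₀ (by linarith) (mul_left_cancel₀ t0p.ne' this)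
    · rcases le_total (k * s) 1 with p | p
      · exact .inl ⟨_, mm s hs, by simp [max_eq_right (sub_nonpos.2 p)]⟩
      · have y := abs_le.2 (st t0 ⟨t0p.le, t01⟩)
        refine .inr ⟨(2 - k * s) * Γ t0 1, abs_le.1 ?_, ext ?_ ?_⟩
        · rw [abs_mul, abs_of_nonneg (by nlinarith [hs.2])]
          nlinarith [abs_nonneg (Γ t0 1)]
        · simp [min_eq_right p, b1]
        · simp [min_eq_right p, max_eq_left (sub_nonneg.2 p)]; ring
  have e1 : ∫⁻ p, S.indicator ρ p ^ 2 ≤ ε := by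
    have n := (hρ.indicator mS).pow_const 2
    rw [← mp.lintegral_comp n, Measure.volume_eq_prod, lintegral_prod
      (fun a : ℝ × ℝ => S.indicator ρ (pt a.1 a.2) ^ 2) (n.comp mp.measurable).aemeasurable]
    refine le_trans (lintegral_mono fun x => ?_) hδ
    rw [← lintegral_indicator measurableSet_Icc]
    refine lintegral_mono fun y => ?_
    by_cases h : y ∈ Icc (-δ) δ
    · rw [indicator_of_mem h, indicator_of_mem (show pt x y ∈ S from h)]; simp
    · rw [indicator_of_notMem (show pt x y ∉ S from h)]; simp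
  have e2 : ∫⁻ p, T.indicator (fun _ => d⁻¹) p ^ 2 ≤ 64 * ε := by
    have v : volume T = volume G * (2 * d) := by
      rw [← mp.measure_preimage mT.nullMeasurableSet, show _ ⁻¹' T = G ×ˢ Icc (-δ) δ from rfl,
        Measure.volume_eq_prod, Measure.prod_prod, Real.volume_Icc, show δ - -δ = 2 * δ by ring,
        ENNReal.ofReal_mul zero_le_two, ENNReal.ofReal_ofNat, hd]
    calc _ = ∫⁻ p, T.indicator (fun _ => d⁻¹ ^ 2) p := lintegral_congr fun p => by
          by_cases h : p ∈ T <;> simp [h]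
      _ ≤ d⁻¹ ^ 2 * (32 * d * ε * (2 * d)) := by rw [lintegral_indicator_const mT, v]; gcongr
      _ = (d⁻¹ * d) ^ 2 * 64 * ε := by ring
      _ = _ := by rw [ENNReal.inv_mul_cancel d0 d1]; ring
  calc _ ≤ ∫⁻ p, (16 * S.indicator ρ p ^ 2 + 4 * T.indicator (fun _ => d⁻¹) p ^ 2) :=
        lintegral_mono fun p => by
          beta_reduce
          generalize S.indicator ρ p = a
          generalize T.indicator (fun _ => d⁻¹) p = b
          rcases le_total (2 * a) b with h | h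
          · calc _ ≤ (b + b) ^ 2 := by gcongr
              _ = 4 * b ^ 2 := by ring
              _ ≤ _ := le_add_self
          · calc _ ≤ (2 * a + 2 * a) ^ 2 := by gcongr
              _ = 16 * a ^ 2 := by ring
              _ ≤ _ := le_self_add
    _ ≤ 16 * ε + 4 * (64 * ε) := by
        rw [lintegral_add_left (((hρ.indicator mS).pow_const 2).const_mul _),
          lintegral_const_mul' _ _ (by simp), lintegral_const_mul' _ _ (by simp)]
        gcongr
    _ = _ := by ring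

end Pool.Agent.S06419
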