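import Pool.Statements.S06442

set_option autoImplicit false
open Pool Pool.MP_e07177_an

namespace Pool.Agent.S06442

section
open Filter Topology Finset

abbrev E := lp (fun _ : ℕ × ℕ => ℝ) 1

noncomputable def R (k : ℕ) : E →L[ℝ] ℝ := (lp.tsumCLM ℝ _ ℝ).comp (lp.mapCLM 1
  (fun m : ℕ × ℕ => if m.1 = k ∧ m.2 ≠ 0 then ContinuousLinearMap.id ℝ ℝ else 0) zero_le_one
  fun m => by split_ifs <;> simp)

theorem R_apply (k : ℕ) (v : E) : R k v = ∑' m, if m.1 = k ∧ m.2 ≠ 0 then v m else 0 :=
  tsum_congr fun m => by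
    show (if m.1 = k ∧ m.2 ≠ 0 then ContinuousLinearMap.id ℝ ℝ else 0) (v m) = _
    split_ifs <;> rfl

noncomputable def X (p : ℕ × ℕ) : E :=
  lp.single 1 p 1 + (if p.2 = 0 then 0 else p.1 : ℝ) • lp.single 1 (p.1, 0) 1

noncomputable def F (p : ℕ × ℕ) : E →L[ℝ] ℝ :=
  lp.evalCLM ℝ _ 1 p - (if p.2 = 0 then p.1 else 0 : ℝ) • R p.1

@[simp] theorem ev (p : ℕ × ℕ) (v : E) : lp.evalCLM ℝ _ 1 p v = v p := rfl

theorem FX (p q : ℕ × ℕ) : F p (X q) = if p = q then 1 else 0 := by
  have : ∀ k q, R k (lp.single 1 q 1) = if q.1 = k ∧ q.2 ≠ 0 then 1 else 0 := fun k q => by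
    rw [R_apply, tsum_eq_single q fun m c => by simp [Pi.single_eq_of_ne c]]
    simp
  obtain ⟨k, j⟩ := p
  obtain ⟨l, i⟩ := q
  simp only [F, X, sub_apply, smul_apply, map_add, map_smul, this, ev,
    lp.single_apply, Pi.single_apply, Prod.mk.injEq, smul_eq_mul]
  grind

theorem bnd (c p : ℕ → ℕ) (e : ℕ ≃ ℕ × ℕ) (hc : StrictMono c) (hp : StrictMono p)
    (h : ∀ v ∈ (Submodule.span ℝ (Set.range fun i => X (e (c i)))).topologicalClosure,
      ∃! t : ℕ → ℝ, Tendsto (fun k => ∑ i ∈ range (p k), t i • X (e (c i))) atTop (𝓝 v)) :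
    ∃ K : ℕ, ∀ k ≥ K, {i | (e (c i)).1 = k ∧ (e (c i)).2 ≠ 0}.Finite := by
  set G := (Submodule.span ℝ (Set.range fun i => X (e (c i)))).topologicalClosure
  have : CompleteSpace G := (Submodule.isClosed_topologicalClosure _).completeSpace_coe
  have a : ∀ i j, F (e (c i)) (X (e (c j))) = if i = j then 1 else 0 := fun i j => by
    simp [FX, hc.injective.eq_iff]
  obtain ⟨C, hC⟩ := banach_steinhaus (g := fun k => (∑ i ∈ range (p k),
      (F (e (c i))).smulRight (X (e (c i)))).comp G.subtypeL) fun v => by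
    obtain ⟨t, ht, -⟩ := h v v.2
    have : ∀ i, F (e (c i)) v = t i := fun i => tendsto_nhds_unique
      (((F (e (c i))).continuous.tendsto _).comp ht) (tendsto_const_nhds.congr'
        ((eventually_gt_atTop i).mono fun k c => by
          simp [a, c.trans_le (hp.le_apply)]))
    obtain ⟨C, b⟩ := ht.norm.bddAbove_range
    exact ⟨C, fun k => by simpa [this] using b ⟨k, rfl⟩⟩
  obtain ⟨K, hK⟩ := exists_nat_gt (2 * C)
  refine ⟨K, fun k hk => by_contra fun s => ?_⟩
  obtain ⟨i, i1, i2⟩ := (Set.not_finite.mp s).nonempty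
  obtain ⟨j, ⟨j1, j2⟩, l⟩ := (Set.not_finite.mp s).exists_gt (p (i + 1))
  have m : ∀ i, X (e (c i)) ∈ G := fun i =>
    Submodule.le_topologicalClosure _ (Submodule.subset_span ⟨i, rfl⟩)
  have := ContinuousLinearMap.le_of_opNorm_le _ (hC (i + 1)) ⟨_, sub_mem (m i) (m j)⟩
  have b : i < p (i + 1) := hp.le_apply
  simp [a, b, l.not_gt, sub_smul] at this
  have d : ‖X (e (c i)) - X (e (c j))‖ ≤ 2 := by
    simp only [X, i1, i2, j1, j2, if_false, add_sub_add_right_eq_sub]
    exact (norm_sub_le _ _).trans (by simp [lp.norm_single]; norm_num)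
  have f := lp.norm_apply_le_norm one_ne_zero (X (e (c i))) (k, 0)
  have g : X (e (c i)) (k, 0) = k := by
    simp only [X, i1, i2, if_false, lp.coeFn_add, lp.coeFn_smul, Pi.add_apply, Pi.smul_apply]
    simp [Pi.single_eq_of_ne fun z : (k, 0) = e (c i) => i2 (z ▸ rfl)]
  have : (K : ℝ) ≤ k := by exact_mod_cast hk
  rw [g, Real.norm_natCast] at f
  nlinarith [(ContinuousLinearMap.opNorm_nonneg _).trans (hC 0)]

end

/-- The negation of the preceding statement: For every real or complex Banach space and every M-basis (x_n) of it, ℕ splits into two infinite complementary increasing index sequences so that each subsequence is a basis with parentheses of its closed linear span. -/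
theorem result :
    ¬ (∀ (𝕜 : Type) [RCLike 𝕜] (E : Type) [NormedAddCommGroup E] [NormedSpace 𝕜 E]
      [CompleteSpace E] (x : ℕ → E),
      ((∃ f : ℕ → (E →L[𝕜] 𝕜),
          (∀ i j : ℕ, f i (x j) = if i = j then (1 : 𝕜) else 0) ∧
          (∀ v : E, (∀ n : ℕ, f n v = 0) → v = 0)) ∧
        Dense ((Submodule.span 𝕜 (Set.range x) : Submodule 𝕜 E) : Set E)) →
      ∃ a b : ℕ → ℕ, StrictMono a ∧ StrictMono b ∧
        (∀ n : ℕ, (∃ k, a k = n) ↔ ¬ ∃ k, b k = n) ∧
        ∀ c : ℕ → ℕ, (c = a ∨ c = b) →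
          ∃ p : ℕ → ℕ, StrictMono p ∧
            ∀ v ∈ (Submodule.span 𝕜 (Set.range (fun i => x (c i)))).topologicalClosure,
              ∃! t : ℕ → 𝕜,
                Filter.Tendsto
                  (fun k => ∑ i ∈ Finset.range (p k), t i • x (c i))
                  Filter.atTop (nhds v)) := by
  intro h
  let e := Nat.pairEquiv.symm
  obtain ⟨a, b, ha, hb, c, d⟩ := h ℝ E (fun n => X (e n)) ⟨⟨fun n => F (e n),
    fun i j => by simp [FX], fun v c => by
      have c := fun p => e.apply_symm_apply p ▸ c (e.symm p)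
      have a : ∀ k j, j ≠ 0 → v (k, j) = 0 := fun k j n => by simpa [F, n] using c (k, j)
      ext ⟨k, j⟩
      by_cases n : j = 0
      · have : R k v = 0 := by
          rw [R_apply]
          exact (tsum_congr fun m => by split_ifs with z; exacts [a _ _ z.2, rfl]).trans tsum_zero
        simpa [F, n, this] using c (k, j)
      · exact a k j n⟩, fun v => by
      have m : ∀ p, X p ∈ Submodule.span ℝ (Set.range fun n => X (e n)) := fun p =>
        Submodule.subset_span ⟨e.symm p, by simp⟩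
      refine mem_closure_of_tendsto (lp.hasSum_single (by simp) v) (.of_forall fun s =>
        sum_mem fun p _ => ?_)
      have := Submodule.smul_mem _ (v p) (sub_mem (m p)
        (Submodule.smul_mem _ (if p.2 = 0 then 0 else p.1 : ℝ) (m (p.1, 0))))
      simpa [X, ← lp.single_smul] using this⟩
  obtain ⟨p, hp, h1⟩ := d a (.inl rfl)
  obtain ⟨q, hq, h2⟩ := d b (.inr rfl)
  obtain ⟨K, hK⟩ := bnd a p e ha hp h1
  obtain ⟨L, hL⟩ := bnd b q e hb hq h2
  refine Set.infinite_of_injective_forall_mem (f := fun j => e.symm (K + L, j + 1))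
    (fun i j c => by simpa using c) (fun j => ?_)
    (((hK (K + L) (by omega)).image a).union ((hL (K + L) (by omega)).image b))
  by_cases z : ∃ k, b k = e.symm (K + L, j + 1)
  · exact .inr (z.imp fun k z => ⟨by simp [z], z⟩)
  · exact .inl (((c _).mpr z).imp fun k z => ⟨by simp [z], z⟩)

end Pool.Agent.S06442
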