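import Pool.Statements.S06444
import Pool.Agent.Lib.helper17.Box

set_option autoImplicit false
open MeasureTheory
open scoped ENNReal
open Pool Pool.MP_e081a1_an

namespace Pool.Agent.S06444

theorem onl {X E : Type} [MeasurableSpace X] [Countable X] [MeasurableSingletonClass X]
    [NormedAddCommGroup E] [NormedSpace ℝ E] (e : E) (he : e ≠ 0) (ν : Measure X) (h0 : ν ≠ 0)
    (hf : ∀ x, ν {x} ≠ ⊤) (T : Lp E 1 ν →L[ℝ] Lp E 1 ν) :
    ∃ ξ : Lp E 1 ν, ξ ≠ 0 ∧ (∃ x, ∀ᵐ z ∂ν, z ∉ ({x} : Set X) → ⇑ξ z = 0) ∧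
      1 / 2 * ‖T‖ * ‖ξ‖ ≤ ‖T ξ‖ := by
  classical
  by_contra hc
  push Not at hc
  have k0 : ∀ ξ : Lp E 1 ν, (∃ x, ∀ᵐ z ∂ν, z ∉ ({x} : Set X) → ⇑ξ z = 0) →
      ‖T ξ‖ ≤ 1 / 2 * ‖T‖ * ‖ξ‖ := by
    intro ξ h
    by_cases h1 : ξ = 0
    · simp [h1]
    · exact (hc ξ h1 h).le
  have k1 : ∀ g : Lp E 1 ν, ‖T g‖ ≤ 1 / 2 * ‖T‖ * ‖g‖ := by
    intro g
    let G : Set X → Lp E 1 ν := fun s => ((Lp.memLp g).indicator (s := s) .of_discrete).toLp _
    have hG : ∀ s, G s =ᵐ[ν] s.indicator g := fun s => MemLp.coeFn_toLp _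
    have hi : Integrable (fun z => ‖g z‖) ν := (L1.integrable_coeFn g).norm
    have n1 : ∀ s, ‖G s‖ = ∫ z in s, ‖g z‖ ∂ν := by
      intro s
      rw [L1.norm_eq_integral_norm, ← integral_indicator .of_discrete]
      refine integral_congr_ae ?_
      filter_upwards [hG s] with z hz
      rw [hz, norm_indicator_eq_indicator_norm]
    have n2 : ∀ s t, Disjoint s t → G (s ∪ t) = G s + G t := by
      intro s t h
      refine Lp.ext ?_
      filter_upwards [hG (s ∪ t), Lp.coeFn_add (G s) (G t), hG s, hG t] with z a b c d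
      rw [a, b, Pi.add_apply, c, d, Set.indicator_union_of_disjoint h]
    have n3 : G Set.univ = g := Lp.ext (by simpa using hG Set.univ)
    have n4 : ∀ s : Finset X, ‖T (G s)‖ ≤ 1 / 2 * ‖T‖ * ∫ z in s, ‖g z‖ ∂ν := by
      intro s
      induction s using Finset.induction_on with
      | empty =>
        have : G ∅ = 0 := by rw [← norm_eq_zero, n1]; simp
        simp [this]
      | insert a s ha ih =>
        have d : Disjoint ({a} : Set X) s := by simpa using ha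
        rw [Finset.coe_insert, Set.insert_eq, n2 _ _ d, map_add,
          setIntegral_union d .of_discrete hi.integrableOn hi.integrableOn, mul_add, ← n1 {a}]
        refine (norm_add_le _ _).trans (add_le_add (k0 _ ⟨a, ?_⟩) ih)
        filter_upwards [hG {a}] with z hz h
        rw [hz, Set.indicator_of_notMem h]
    have n5 : ∀ s : Finset X, ‖T g‖ ≤ 1 / 2 * ‖T‖ * (∫ z in s, ‖g z‖ ∂ν) +
        ‖T‖ * (‖g‖ - ∫ z in s, ‖g z‖ ∂ν) := by
      intro s
      have e1 : T g = T (G s) + T (G (s : Set X)ᶜ) := by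
        rw [← map_add, ← n2 _ _ disjoint_compl_right, Set.union_compl_self, n3]
      have e2 := T.le_opNorm (G (s : Set X)ᶜ)
      rw [n1, setIntegral_compl .of_discrete hi, ← L1.norm_eq_integral_norm] at e2
      rw [e1]
      exact (norm_add_le _ _).trans (add_le_add (n4 s) e2)
    have n6 := tendsto_setIntegral_of_monotone (μ := ν) (f := fun z => ‖g z‖)
      (s := fun s : Finset X => (s : Set X)) (fun _ => .of_discrete) (fun _ _ h => h)
      hi.integrableOn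
    have e3 : (⋃ s : Finset X, (s : Set X)) = Set.univ :=
      Set.eq_univ_of_forall fun x => Set.mem_iUnion.mpr ⟨{x}, by simp⟩
    rw [e3, setIntegral_univ, ← L1.norm_eq_integral_norm] at n6
    have := ge_of_tendsto' ((n6.const_mul (1 / 2 * ‖T‖)).add
      ((n6.const_sub ‖g‖).const_mul ‖T‖)) n5
    simpa using this
  have k2 : ‖T‖ ≤ 1 / 2 * ‖T‖ := T.opNorm_le_bound (by positivity) k1
  have k3 : ‖T‖ = 0 := by linarith [norm_nonneg T]
  obtain ⟨x, hx⟩ : ∃ x, ν {x} ≠ 0 := by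
    by_contra h
    push Not at h
    exact h0 (Measure.ext_of_singleton (by simpa using h))
  have := hc (indicatorConstLp 1 (measurableSet_singleton x) (hf x) e) ?_ ⟨x, ?_⟩
  · rw [k3] at this
    linarith [norm_nonneg (T (indicatorConstLp 1 (measurableSet_singleton x) (hf x) e))]
  · rw [← norm_ne_zero_iff, norm_indicatorConstLp one_ne_zero ENNReal.one_ne_top]
    simp [he, measureReal_def, ENNReal.toReal_eq_zero_iff, hx, hf x]
  · exact indicatorConstLp_coeFn_notMem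

/-- The negation of the preceding statement: For every p in [1,∞) other than 2, every bounded geometry metric space with the p-operator norm localization property (ℓ^p-valued L^p, all nonzero locally finite Borel measures) has Yu's property A. -/
theorem result :
    ¬ (∀ (p : ℝ≥0∞) [Fact (1 ≤ p)], p ≠ ⊤ → p ≠ 2 →
    ∀ (X : Type) [MetricSpace X] [MeasurableSpace X] [BorelSpace X],
      (∀ R : ℝ, 0 < R → ∃ N : ℕ, ∀ x : X,
          (Metric.ball x R).Finite ∧ (Metric.ball x R).ncard ≤ N) →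
      (∃ c : ℝ, 0 < c ∧ c ≤ 1 ∧ ∃ f : ℕ → ℕ, Monotone f ∧
        ∀ (ν : Measure X) [IsLocallyFiniteMeasure ν], ν ≠ 0 → ∀ r : ℕ,
          ∀ T : Lp (lp (fun _ : ℕ => ℝ) p) p ν →L[ℝ] Lp (lp (fun _ : ℕ => ℝ) p) p ν,
            (∀ x y : X, (r : ℝ) < dist x y →
              ∃ U V : Set X, IsOpen U ∧ IsOpen V ∧ x ∈ U ∧ y ∈ V ∧
                ∀ g : Lp (lp (fun _ : ℕ => ℝ) p) p ν,
                  (∀ᵐ z ∂ν, z ∉ U → ⇑g z = 0) → ∀ᵐ z ∂ν, z ∈ V → ⇑(T g) z = 0) →
            ∃ ξ : Lp (lp (fun _ : ℕ => ℝ) p) p ν, ξ ≠ 0 ∧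
              (∃ S : Set X, (∀ a ∈ S, ∀ b ∈ S, dist a b ≤ (f r : ℝ)) ∧
                ∀ᵐ z ∂ν, z ∉ S → ⇑ξ z = 0) ∧
              c * ‖T‖ * ‖ξ‖ ≤ ‖T ξ‖) →
      (∀ R : ℝ, 0 < R → ∀ ε : ℝ, 0 < ε →
        ∃ S : ℝ, ∃ A : X → Set (X × ℕ),
          (∀ x, (A x).Finite) ∧ (∀ x, (x, 0) ∈ A x) ∧
          (∀ x, ∀ w ∈ A x, dist w.1 x ≤ S) ∧
          ∀ x y, dist x y < R →
            ((symmDiff (A x) (A y)).ncard : ℝ) < ε * ((A x ∩ A y).ncard : ℝ))) := by
  intro h
  letI : MeasurableSpace H17Box.X := borel _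
  haveI : BorelSpace H17Box.X := ⟨rfl⟩
  obtain ⟨S, A, h1, h2, h3, h4⟩ := h 1 ENNReal.one_ne_top (by norm_num) H17Box.X
    (fun R _ => H17Box.bdd_geom R) ⟨1 / 2, by norm_num, by norm_num, fun _ => 0, monotone_const,
      fun ν _ h0 r T _ => by
        obtain ⟨ξ, a, ⟨x, b⟩, c⟩ := onl (lp.single 1 0 (1 : ℝ) : lp (fun _ : ℕ => ℝ) 1)
          (by
            intro h
            simpa using congrArg (fun f : lp (fun _ : ℕ => ℝ) 1 => f 0) h) ν h0
          (fun x => isCompact_singleton.measure_lt_top.ne) T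
        exact ⟨ξ, a, ⟨{x}, by simp, b⟩, c⟩⟩ 2 (by norm_num) (1 / 2) (by norm_num)
  exact H17Box.not_A S A h1 (fun x => ⟨_, h2 x⟩) h3 h4

end Pool.Agent.S06444
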