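import Pool.Statements.S06452

set_option autoImplicit false
open Pool Pool.MP_e12d7b_an

namespace Pool.Agent.S06452

open Polynomial in
/-- Coefficients of `p`. -/
def cP : ℕ → ℕ := fun k => [7, 73, 337, 898, 1507, 1639, 1221, 924, 1221, 1639, 1507, 898, 337, 73, 7].getD k 0

/-- Coefficients of `q`. -/
def cQ : ℕ → ℕ := fun k => [100000000000001000001000000000000010000000000000000000000000000000000000000000000000000000000000000000000000000000000000,
    111110020020012222101111300311110122221000000001111100000000000000000000000000000000000000000000000000000000000000000000,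
    11222132244235461656536865977895565598777344213356754210000011222110000000000000000000000000000000000000000000000000000,
    112223346668785558837100632796578934489665177536102174074424591097421000011222110000000000000000000000000000000000000,
    111132466789360343993120801625444315460441686458454078373012790837374322579996421000001111100000000000000000000000,
    10022245361049017061692993742286751926620163684451501220359319567036568054093744001235543210000000010000000000,
    2003116659307447482234272907387073934303992074206450181167442500831039262387648000164410000011111000000,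
    100400545008410755887009099867036382697019137070393145063625930508811176745752184320021122211000,
    20031166593074474622031618738059496241089525184980094753266843044407840874242233222110,
    1002224536104891706137042806781755730239981771718167509132273296654444433111,
    111132466789359232891784910294252911312656621974406673353444221,
    1122233466687844366249559426634600086663342233222,
    1122213224423534943532442231222112,
    111110020020011111,
    1].getD k 0

/-- The sequence. -/
noncomputable def gam (k : ℕ) : ℝ :=
  if k ≤ 14 then (cQ k : ℝ) / cP k else (1 / 7) * (1 / 10 ^ 20) ^ ((k - 14) ^ 2)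

open Polynomial in
/-- The polynomial with given coefficients. -/
noncomputable def pol (c : ℕ → ℕ) : ℝ[X] := ∑ k ∈ Finset.range 15, monomial k (c k : ℝ)

open Polynomial in
theorem pol_coeff (c : ℕ → ℕ) (k : ℕ) : (pol c).coeff k = if k ≤ 14 then (c k : ℝ) else 0 := by
  simp [pol, coeff_monomial, Nat.lt_succ_iff]

open Polynomial in
theorem pol_P : pol cP = (C 7 * X ^ 2 - C 11 * X + C 7) * (X - C (-1)) ^ 12 := by
  refine Polynomial.funext fun x => ?_
  simp [pol, Finset.sum_range_succ, cP]
  ring

open Polynomial in
theorem pol_Q : pol cQ = ((X + C (10 ^ 7)) ^ 2 + 1) * ((X + C (10 ^ 10)) ^ 2 + 1) *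
    (([10 ^ 0, 10 ^ 1, 10 ^ 2, 10 ^ 3, 10 ^ 4, 10 ^ 13, 10 ^ 14, 10 ^ 15, 10 ^ 16, 10 ^ 17] : List ℝ).map fun a => X + C a).prod := by
  refine Polynomial.funext fun x => ?_
  simp [pol, Finset.sum_range_succ, cQ]
  ring

theorem gam_tail (j : ℕ) : gam (j + 14) = (1 / 7) * (1 / 10 ^ 20) ^ (j ^ 2) := by
  rcases j with _ | j
  · simp [gam, cP, cQ]
  · rw [gam, if_neg (by omega), Nat.add_sub_cancel]

/-- The negation of the preceding statement: For every positive real sequence with γ_{k+1}² > 4γ_kγ_{k+2} for all k, multiplying the coefficients of any real polynomial termwise by γ_k never increases the number of nonreal zeros, counted with multiplicity. -/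
theorem result :
    ¬ (∀ γ : ℕ → ℝ, (∀ k, 0 < γ k) →
      (∀ k, 4 * γ k * γ (k + 2) < γ (k + 1) ^ 2) →
      ∀ p q : Polynomial ℝ, (∀ k, q.coeff k = γ k * p.coeff k) →
        q.natDegree - q.roots.card ≤ p.natDegree - p.roots.card) := by
  open Polynomial in
  intro h
  have hpos : ∀ k, 0 < gam k := fun k => by
    rcases le_or_gt k 13 with hk | hk
    · interval_cases k <;> norm_num [gam, cP, cQ]
    · obtain ⟨j, rfl⟩ : ∃ j, k = j + 14 := ⟨k - 14, by omega⟩
      rw [gam_tail]; positivity
  have h1 := h gam hpos (fun k => by
    rcases le_or_gt k 13 with hk | hk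
    · interval_cases k <;> norm_num [gam, cP, cQ]
    · obtain ⟨j, rfl⟩ : ∃ j, k = j + 14 := ⟨k - 14, by omega⟩
      rw [show j + 14 + 2 = (j + 2) + 14 by ring, show j + 14 + 1 = (j + 1) + 14 by ring,
        gam_tail, gam_tail, gam_tail, mul_pow, ← pow_mul]
      have e : (4 : ℝ) * (1 / 7 * (1 / 10 ^ 20) ^ j ^ 2) * (1 / 7 * (1 / 10 ^ 20) ^ (j + 2) ^ 2) =
          (4 * (1 / 10 ^ 20) ^ 2 * (1 / 7) ^ 2) * (1 / 10 ^ 20) ^ ((j + 1) ^ 2 * 2) := by ring
      rw [e]
      exact mul_lt_mul_of_pos_right (by norm_num) (by positivity)) (pol cP) (pol cQ) fun k => by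
    rw [pol_coeff, pol_coeff, gam]
    split_ifs with hk
    · interval_cases k <;> norm_num [cP]
    · simp
  have h2 : 14 ≤ (pol cQ).natDegree := le_natDegree_of_ne_zero (by rw [pol_coeff]; simp [cQ])
  have h3 : (pol cP).natDegree ≤ 14 := natDegree_le_iff_coeff_eq_zero.2 fun k hk => by
    rw [pol_coeff, if_neg (by omega)]
  have hP0 : pol cP ≠ 0 := fun e => by simpa [e, cP] using pol_coeff cP 0
  have hQ0 : pol cQ ≠ 0 := fun e => by simp [e] at h2
  have h4 : 12 ≤ (pol cP).roots.card := by
    have := Multiset.card_le_card (roots.le_of_dvd hP0 (pol_P ▸ dvd_mul_left _ _))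
    rwa [roots_pow, roots_X_sub_C, Multiset.card_nsmul, Multiset.card_singleton] at this
  have h5 : (pol cQ).roots.card ≤ 10 := by
    have hq : ∀ a : ℝ, ((X + C a) ^ 2 + 1 : ℝ[X]).roots = 0 := fun a =>
      Multiset.eq_zero_of_forall_notMem fun x hx => by
        have := (mem_roots'.1 hx).2
        simp only [IsRoot.def, eval_add, eval_pow, eval_X, eval_C, eval_one] at this
        nlinarith [sq_nonneg (x + a)]
    rw [pol_Q] at hQ0 ⊢
    rw [roots_mul hQ0, roots_mul (left_ne_zero_of_mul hQ0), hq, hq, zero_add, zero_add]
    refine (card_roots' _).trans ((natDegree_list_prod_le _).trans ?_)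
    simp only [List.map_cons, List.map_nil, natDegree_X_add_C]
    rfl
  omega

end Pool.Agent.S06452
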