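import Pool.Statements.S06470

set_option autoImplicit false
open Pool Pool.MP_e29dfb_an

namespace Pool.Agent.S06470

open Set

lemma gap_conv {K : Set ℝ} (hK : IsCompact K)
    (h : ∀ α, 0 ≤ α → α ≤ 1 → ∀ x ∈ K, ∃ y ∈ K, |x - y| = α)
    {g g' k : ℝ} (hg : g ∉ K) (hg' : g' ∉ K) (hd : g' - g ≤ 2) (h1 : g ≤ k) (h2 : k ≤ g') :
    k ∉ K := by
  intro hk
  have mid : ∀ a b, a ≤ b → b - a ≤ 2 → a ∉ K → b ∉ K → (a + b) / 2 ∉ K := by
    intro a b hab hd ha hb hm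
    obtain ⟨y, hy, hy'⟩ := h ((b - a) / 2) (by linarith) (by linarith) _ hm
    rcases abs_eq (by linarith : 0 ≤ (b - a) / 2) |>.1 hy' with h | h
    · exact ha (by convert hy using 1; linarith)
    · exact hb (by convert hy using 1; linarith)
  obtain ⟨k1, ⟨hk1, hk1g, hk1g'⟩, hmin⟩ :=
    (hK.inter_right (isClosed_Icc (a := g) (b := g'))).exists_isMinOn ⟨k, hk, h1, h2⟩
      continuousOn_id
  have hlt : g < k1 := lt_of_le_of_ne hk1g (by rintro rfl; exact hg hk1)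
  have hleft : ∀ a, g ≤ a → a < k1 → a ∉ K := by
    intro a ha ha' haK
    have := hmin ⟨haK, ha, by linarith⟩
    simp at this
    linarith
  have key : ∀ n : ℕ, ∀ t, 0 < t → t ≤ n * (k1 - g) → k1 + t ≤ g' → k1 + t ∈ K := by
    intro n
    induction n with
    | zero => intro t h0 h1; simp at h1; linarith
    | succ n ih =>
      intro t h0 h1 h2
      by_contra hc
      by_cases ht : t ≤ k1 - g
      · have := mid (k1 - t) (k1 + t) (by linarith) (by linarith)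
          (hleft _ (by linarith) (by linarith)) hc
        exact this (by convert hk1 using 1; ring)
      · push Not at ht
        have h3 := mid g (k1 + t) (by linarith) (by linarith) hg hc
        push_cast at h1
        have h4 := ih ((t - (k1 - g)) / 2) (by linarith) (by nlinarith) (by linarith)
        exact h3 (by convert h4 using 1; ring)
  have hlt' : k1 < g' := lt_of_le_of_ne hk1g' (by rintro rfl; exact hg' hk1)
  obtain ⟨n, hn⟩ := exists_nat_ge ((g' - k1) / (k1 - g))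
  rw [div_le_iff₀ (by linarith)] at hn
  have := key n (g' - k1) (by linarith) hn (by linarith)
  exact hg' (by convert this using 1; ring)

lemma gap_seg {K : Set ℝ} (hK : IsCompact K)
    (h : ∀ α, 0 ≤ α → α ≤ 1 → ∀ x ∈ K, ∃ y ∈ K, |x - y| = α)
    {g g' l : ℝ} (hg : g ∉ K) (hg' : g' ∉ K) (hd : |g' - g| ≤ 2) (h1 : 0 ≤ l) (h2 : l ≤ 1) :
    g + l * (g' - g) ∉ K := by
  rcases le_total g g' with hle | hle
  · rw [abs_of_nonneg (by linarith)] at hd
    exact gap_conv hK h hg hg' hd (by nlinarith) (by nlinarith)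
  · rw [abs_of_nonpos (by linarith)] at hd
    exact gap_conv hK h hg' hg (by linarith) (by nlinarith) (by nlinarith)

lemma seg_in {K : Set ℝ} (hK : IsCompact K)
    (h : ∀ α, 0 ≤ α → α ≤ 1 → ∀ x ∈ K, ∃ y ∈ K, |x - y| = α)
    {x x' z : ℝ} (hx : x ∈ K) (hf : ⌊x⌋ = ⌊x'⌋)
    (hi : Icc (⌊x⌋ : ℝ) x ⊆ K ↔ Icc (⌊x'⌋ : ℝ) x' ⊆ K) (h1 : x ≤ z) (h2 : z ≤ x') : z ∈ K := by
  by_cases hc : Icc (⌊x⌋ : ℝ) x ⊆ K
  · apply hi.1 hc
    rw [← hf]
    exact ⟨(Int.floor_le x).trans h1, h2⟩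
  · by_contra hz
    rw [not_subset] at hc
    obtain ⟨g, hg, hgK⟩ := hc
    have h3 := Int.lt_floor_add_one x'
    rw [← hf] at h3
    exact gap_conv hK h hgK hz (by linarith [hg.1]) hg.2 h1 hx

noncomputable def C : Set ℝ := Icc 0 1 ∪ insert 2 (range fun n : ℕ => 2 + 1 / ((n : ℝ) + 1))

lemma C_compact : IsCompact C := by
  refine isCompact_Icc.union (Filter.Tendsto.isCompact_insert_range ?_)
  simpa using (tendsto_one_div_add_atTop_nhds_zero_nat (𝕜 := ℝ)).const_add 2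

noncomputable def bt (n : ℕ) : ℝ := 2 + 1 / ((n : ℝ) + 3 / 2)

lemma bt_gt (n : ℕ) : 2 < bt n := by
  unfold bt
  have : (0 : ℝ) < 1 / ((n : ℝ) + 3 / 2) := by positivity
  linarith

lemma bt_lt (n : ℕ) : bt n < 3 := by
  unfold bt
  have : 1 / ((n : ℝ) + 3 / 2) < 1 := by
    rw [div_lt_one (by positivity)]
    have : (0 : ℝ) ≤ n := n.cast_nonneg
    linarith
  linarith

lemma bt_not (n : ℕ) : bt n ∉ C := by
  have := bt_gt n
  rintro (h | h | ⟨m, hm⟩)
  · linarith [h.2]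
  · linarith
  · unfold bt at hm
    simp only [add_right_inj] at hm
    rw [div_eq_div_iff (by positivity) (by positivity)] at hm
    have h2 : ((2 * n + 1 : ℕ) : ℝ) = ((2 * m : ℕ) : ℝ) := by push_cast; linarith
    have h3 := Nat.cast_injective h2
    omega

lemma final {K : Set ℝ} (hK : IsCompact K)
    (hC : {α : ℝ | 0 ≤ α ∧ ∀ x ∈ K, ∃ y ∈ K, |x - y| = α} = C)
    (x : ℕ → ℝ) (hx : ∀ n, x n ∈ K ∧ x n + bt n ∉ K ∧ x n - bt n ∉ K) {n m : ℕ} (hnm : n < m)
    (hf : ⌊x n⌋ = ⌊x m⌋)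
    (hi : Icc (⌊x n⌋ : ℝ) (x n) ⊆ K ↔ Icc (⌊x m⌋ : ℝ) (x m) ⊆ K) : False := by
  have h : ∀ α, 0 ≤ α → α ≤ 1 → ∀ x ∈ K, ∃ y ∈ K, |x - y| = α := by
    intro α h0 h1
    have : α ∈ C := Or.inl ⟨h0, h1⟩
    rw [← hC] at this
    exact this.2
  set c : ℝ := 2 + 1 / (((n + 1 : ℕ) : ℝ) + 1) with hc
  have hcC : c ∈ C := Or.inr (Or.inr ⟨n + 1, rfl⟩)
  have hnm' : (n : ℝ) + 1 ≤ m := by exact_mod_cast hnm
  have h1 : c < bt n := by
    rw [hc]; unfold bt; push_cast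
    have : 1 / ((n : ℝ) + 1 + 1) < 1 / ((n : ℝ) + 3 / 2) :=
      one_div_lt_one_div_of_lt (by positivity) (by linarith)
    linarith
  have h2 : bt m < c := by
    rw [hc]; unfold bt; push_cast
    have : 1 / ((m : ℝ) + 3 / 2) < 1 / ((n : ℝ) + 1 + 1) :=
      one_div_lt_one_div_of_lt (by positivity) (by linarith)
    linarith
  set l : ℝ := (bt n - c) / (bt n - bt m) with hl
  have hl0 : 0 ≤ l := div_nonneg (by linarith) (by linarith)
  have hl1 : l ≤ 1 := by rw [hl, div_le_one (by linarith)]; linarith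
  have hlc : l * (bt n - bt m) = bt n - c := div_mul_cancel₀ _ (by linarith)
  have hd : |x m - x n| < 1 := Int.abs_sub_lt_one_of_floor_eq_floor hf.symm
  rw [abs_lt] at hd
  have b1 := bt_gt m
  have b2 := bt_lt n
  have hz : x n + l * (x m - x n) ∈ K := by
    rcases le_total (x n) (x m) with hle | hle
    · exact seg_in hK h (hx n).1 hf hi (by nlinarith) (by nlinarith)
    · exact seg_in hK h (hx m).1 hf.symm hi.symm (by nlinarith) (by nlinarith)
  have hp := gap_seg hK h (hx n).2.1 (hx m).2.1 (abs_le.2 ⟨by linarith, by linarith⟩) hl0 hl1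
  have hm := gap_seg hK h (hx n).2.2 (hx m).2.2 (abs_le.2 ⟨by linarith, by linarith⟩) hl0 hl1
  rw [← hC] at hcC
  obtain ⟨y, hy, hy'⟩ := hcC.2 _ hz
  rcases (abs_eq hcC.1).1 hy' with h | h
  · exact hm (by convert hy using 1; linarith)
  · exact hp (by convert hy using 1; linarith)

theorem result :
    ¬ (∀ C : Set ℝ, IsCompact C → (0 : ℝ) ∈ C → C ⊆ Set.Ici (0 : ℝ) →
      ∃ K : Set ℝ, IsCompact K ∧
        {α : ℝ | 0 ≤ α ∧ ∀ x ∈ K, ∃ y ∈ K, |x - y| = α} = C) := by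
  intro H
  obtain ⟨K, hK, hC⟩ := H C C_compact (Or.inl ⟨le_rfl, zero_le_one⟩) (by
    rintro a (h | h | ⟨m, rfl⟩)
    · exact h.1
    · rw [h]; exact Set.mem_Ici.2 (by norm_num)
    · exact Set.mem_Ici.2 (by positivity))
  have hx : ∀ n, ∃ x, x ∈ K ∧ x + bt n ∉ K ∧ x - bt n ∉ K := by
    intro n
    have h1 := bt_not n
    have h0 := bt_gt n
    rw [← hC] at h1
    simp only [Set.mem_ofPred_eq, not_and, not_forall] at h1
    obtain ⟨x, hx, h2⟩ := h1 (by linarith)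
    refine ⟨x, hx, fun h => h2 ⟨_, h, ?_⟩, fun h => h2 ⟨_, h, ?_⟩⟩
    · rw [abs_of_nonpos (by linarith)]; ring
    · rw [abs_of_nonneg (by linarith)]; ring
  choose x hx using hx
  obtain ⟨R, hR⟩ := hK.isBounded.exists_norm_le
  have hfin : (Set.Icc ⌊-R⌋ ⌊R⌋ ×ˢ (Set.univ : Set Prop)).Finite :=
    (Set.finite_Icc _ _).prod Set.finite_univ
  obtain ⟨n, -, m, -, hne, h⟩ := Set.infinite_univ.exists_ne_map_eq_of_mapsTo
    (f := fun n => (⌊x n⌋, Set.Icc (⌊x n⌋ : ℝ) (x n) ⊆ K)) (by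
      intro n _
      have := abs_le.1 (hR _ (hx n).1)
      exact ⟨⟨Int.floor_mono this.1, Int.floor_mono this.2⟩, trivial⟩) hfin
  have h1 : ⌊x n⌋ = ⌊x m⌋ := congrArg Prod.fst h
  have h2 := (congrArg Prod.snd h).to_iff
  rcases lt_or_gt_of_ne hne with hlt | hlt
  · exact final hK hC x hx hlt h1 h2
  · exact final hK hC x hx hlt h1.symm h2.symm

end Pool.Agent.S06470
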