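import Pool.Statements.S06483
import Pool.Agent.Lib.helper21.Robin

set_option autoImplicit false
open Pool Pool.MP_e3b298_an

namespace Pool.Agent.S06483

/-- For all integers n≥1, reals β≥1, ∣x∣=1 and ∣z∣<1, the Hadamard product of P_n^β with (1+xz)(1−z)^(−β), written as its finite coefficient sum, is nonzero at z; that is, P_n^β lies in T(1,β). -/
theorem result :
    ∀ n : ℕ, 1 ≤ n → ∀ β : ℝ, 1 ≤ β → ∀ x : ℂ, ‖x‖ = 1 → ∀ z : ℂ, ‖z‖ < 1 →
      (∑ k ∈ Finset.range (n + 1),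
          (((n.descFactorial k : ℝ) / (ascPochhammer ℝ k).eval (β + (n : ℝ)) : ℝ) : ℂ) *
          ((((ascPochhammer ℝ k).eval β / (k.factorial : ℝ)) : ℝ) : ℂ) * z ^ k)
      + x * (∑ k ∈ Finset.range n,
          (((n.descFactorial (k + 1) : ℝ) / (ascPochhammer ℝ (k + 1)).eval (β + (n : ℝ)) : ℝ) : ℂ) *
          ((((ascPochhammer ℝ k).eval β / (k.factorial : ℝ)) : ℝ) : ℂ) * z ^ (k + 1)) ≠ 0 := by
  intro n hn β hβ x hx z hz
  have k := Pool.Agent.Lib.Helper21.Robin.main hn (one_pos.trans_le hβ) hx hz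
  unfold Pool.Agent.Lib.Helper21.Robin.U Pool.Agent.Lib.Helper21.Robin.Y Pool.Agent.Lib.Helper21.Robin.c
    Pool.Agent.Lib.Helper21.Robin.p Pool.Agent.Lib.Helper21.Robin.A at k
  rw [Finset.sum_range_succ _ n, Finset.sum_range_succ _ n, Nat.descFactorial_of_lt (Nat.lt_succ_self n)] at k
  rw [Finset.sum_range_succ _ n]
  simpa [Finset.mul_sum, pow_succ', mul_assoc, mul_left_comm] using k

end Pool.Agent.S06483
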