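import Pool.Statements.S06510
import Pool.Agent.Lib.helper21.Mart

set_option autoImplicit false
open Pool Pool.MP_e6ddea_an

namespace Pool.Agent.S06510

/-- The negation of the preceding statement: For every non-simply-connected plane domain D with Green function g at z₀ and every normalized minimal positive harmonic K on D, some maximal Green line of g leaving z₀ has K equal to the Harnack function at each of its points. -/
theorem result :
    ¬ (∀ (D : Set ℂ), IsOpen D → IsConnected D → ¬ SimplyConnectedSpace D →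
    ∀ z₀ ∈ D, ∀ g : ℂ → ℝ,
      (InnerProductSpace.HarmonicOnNhd g (D \ {z₀}) ∧
        (∀ z ∈ D \ {z₀}, 0 < g z) ∧
        (∃ h : ℂ → ℝ, InnerProductSpace.HarmonicOnNhd h D ∧
          ∀ z ∈ D \ {z₀}, h z = g z + Real.log ‖z - z₀‖) ∧
        (∀ u : ℂ → ℝ,
          (InnerProductSpace.HarmonicOnNhd u (D \ {z₀}) ∧
            (∀ z ∈ D \ {z₀}, 0 < u z) ∧
            (∃ h : ℂ → ℝ, InnerProductSpace.HarmonicOnNhd h D ∧
              ∀ z ∈ D \ {z₀}, h z = u z + Real.log ‖z - z₀‖)) →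
          ∀ z ∈ D \ {z₀}, g z ≤ u z)) →
    ∀ K : ℂ → ℝ,
      (InnerProductSpace.HarmonicOnNhd K D ∧ (∀ z ∈ D, 0 < K z) ∧ K z₀ = 1 ∧
        ∀ u : ℂ → ℝ, InnerProductSpace.HarmonicOnNhd u D →
          (∀ z ∈ D, 0 < u z ∧ u z ≤ K z) →
          ∃ c : ℝ, ∀ z ∈ D, u z = c * K z) →
    ∃ (m : ℝ) (γ : ℝ → ℂ),
      (∀ s : ℝ, m < s →
        γ s ∈ D ∧ γ s ≠ z₀ ∧ gradient g (γ s) ≠ 0 ∧ g (γ s) = s ∧
        HasDerivAt γ ((‖gradient g (γ s)‖ ^ 2)⁻¹ • gradient g (γ s)) s) ∧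
      Filter.Tendsto γ Filter.atTop (nhds z₀) ∧
      (¬ ∃ (m' : ℝ) (γ' : ℝ → ℂ), m' < m ∧ (∀ s : ℝ, m < s → γ' s = γ s) ∧
        ∀ s : ℝ, m' < s →
          γ' s ∈ D ∧ γ' s ≠ z₀ ∧ gradient g (γ' s) ≠ 0 ∧
          HasDerivAt γ' ((‖gradient g (γ' s)‖ ^ 2)⁻¹ • gradient g (γ' s)) s) ∧
      ∀ s : ℝ, m < s →
        ∀ u : ℂ → ℝ, InnerProductSpace.HarmonicOnNhd u D → (∀ z ∈ D, 0 < u z) →
          u z₀ ≤ 1 → u (γ s) ≤ K (γ s)) := by
  open Complex Set Filter Metric Topology InnerProductSpace Pool.Agent.Lib.Helper21.Mart in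
  intro H
  have z0 : (0 : ℂ) ∈ D := mD.2 ⟨by simp, by norm_num⟩
  have hp : ∀ ζ : ℂ, ‖ζ‖ = 1 → HarmonicOnNhd (P ζ) D := fun ζ h => (hP h).mono sdiff_subset
  obtain ⟨m, γ, h1, -, -, h2⟩ := H D oD ⟨⟨0, z0⟩, cD⟩ nsc 0 z0 (fun z => -Real.log ‖z‖)
    ⟨fun z hz => (AnalyticAt.harmonicAt_log_norm (f := fun z => z) (by fun_prop) hz.2).neg,
      fun z hz => neg_pos.2 (Real.log_neg (norm_pos_iff.2 hz.2) (mD.1 hz.1).1),
      ⟨fun _ => 0, harmonicOnNhd_const _, fun z _ => by simp⟩, fun u ⟨_, u0, h, hh, e⟩ z hz => by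
        have := green hh (fun z hz n => by
          have := e z ⟨hz, n⟩
          rw [sub_zero] at this
          linarith [u0 z ⟨hz, n⟩]) hz.1
        rw [e z hz, sub_zero] at this
        linarith⟩ (P 1)
    ⟨hp 1 norm_one, fun z hz => pP norm_one (mD.1 hz).1, by simp [P], fun u hu h => by
      obtain ⟨U, hU, e⟩ := rem hu (M := 16) fun z hz n => ⟨(h z hz).1.le, (h z hz).2.trans (by
        have a := norm_sub_le_norm_sub_add_norm_sub (1 : ℂ) z (1 / 4)
        rw [show (1 : ℂ) - 1 / 4 = (3 / 4 : ℝ) by push_cast; ring, norm_real,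
          Real.norm_of_nonneg (by norm_num)] at a
        rw [P, div_le_iff₀ (pow_pos (by linarith) 2)]
        nlinarith [sq_nonneg ‖z‖])⟩
      exact ⟨U 0, fun z hz => by
        rw [← e z hz]
        exact mini hU (fun z hz => by rw [e z hz]; exact ⟨(h z hz).1.le, (h z hz).2⟩) (mD.1 hz).1⟩⟩
  have hs : m < max m 3 + 1 := by linarith [le_max_left m 3]
  obtain ⟨a1, a2, -, a3, -⟩ := h1 _ hs
  replace h2 := h2 _ hs
  generalize γ (max m 3 + 1) = z at a1 a2 a3 h2
  have p := norm_pos_iff.2 a2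
  have x1 : ‖z‖ ≤ 1 / 16 := by
    have : Real.log ‖z‖ ≤ -4 := by linarith [le_max_right m 3]
    rw [Real.log_le_iff_le_exp p, Real.exp_neg] at this
    have e := Real.pow_div_factorial_le_exp 4 (by norm_num) 3
    have e' := Real.add_one_le_exp 2
    rw [one_div]
    refine this.trans (inv_anti₀ (by norm_num) ?_)
    rw [show (4 : ℝ) = 1 + 1 + 1 + 1 by norm_num, Real.exp_add, Real.exp_add, Real.exp_add]
    have := Real.add_one_le_exp 1
    calc (16 : ℝ) = 2 * 2 * 2 * 2 := by norm_num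
      _ ≤ _ := by gcongr <;> linarith
  have n1 : ‖z / ‖z‖‖ = 1 := by simp [p.ne']
  have k := h2 _ (hp _ n1) (fun z hz => pP n1 (mD.1 hz).1) (by simp [P, p.ne'])
  have e : ‖z / ‖z‖ - z‖ = 1 - ‖z‖ := by
    rw [show z / ‖z‖ - z = z / ‖z‖ * (1 - ‖z‖ : ℝ) by
      push_cast; field_simp [ofReal_ne_zero.2 p.ne'], norm_mul, n1, one_mul, norm_real,
      Real.norm_of_nonneg (by linarith)]
  have q : 0 < ‖1 - z‖ := by linarith [norm_sub_norm_le 1 z, norm_one (α := ℂ)]
  rw [P, P, e, div_le_div_iff_of_pos_left (by nlinarith) (pow_pos (by linarith) 2) (pow_pos q 2),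
    Complex.sq_norm, normSq_sub, normSq_eq_norm_sq z] at k
  have r : z = (‖z‖ : ℝ) := by
    have : ‖z‖ ≤ z.re := by simp at k; nlinarith
    have := (re_le_norm z).antisymm this
    refine Complex.ext (by simpa) ?_
    have s := Complex.sq_norm z
    rw [normSq_apply, ← this] at s
    simpa using (by nlinarith : z.im * z.im = 0)
  generalize ‖z‖ = x at r p x1
  subst r
  have l4 : 0 < Real.log 4 := Real.log_pos (by norm_num)
  have l5 : Real.log 4 < 1.4 := by
    rw [show (4 : ℝ) = 2 ^ 2 by norm_num, Real.log_pow]; norm_num; linarith [Real.log_two_lt_d9]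
  have nz : ∀ z ∈ D, ‖z - 1 / 4‖ < ‖1 - z / 4‖ := fun z hz => by
    have := (sq_lt_one_iff₀ (norm_nonneg z)).2 (mD.1 hz).1
    refine lt_of_pow_lt_pow_left₀ 2 (norm_nonneg _) ?_
    simp only [Complex.sq_norm, normSq_apply] at this ⊢
    simp; nlinarith
  have := h2 ((Real.log 4)⁻¹ • ((fun z : ℂ => Real.log ‖1 - z / 4‖) - fun z => Real.log ‖z - 1 / 4‖))
    (HarmonicOnNhd.const_smul (HarmonicOnNhd.sub (fun z hz => AnalyticAt.harmonicAt_log_norm
      (by fun_prop) (norm_pos_iff.1 ((norm_nonneg _).trans_lt (nz z hz)))) hlog))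
    (fun z hz => mul_pos (inv_pos.2 l4) (sub_pos.2 (Real.log_lt_log
      (norm_pos_iff.2 (sub_ne_zero.2 hz.2)) (nz z hz)))) (by simp [l4.ne'])
  simp only [Pi.smul_apply, Pi.sub_apply, smul_eq_mul, P] at this
  rw [show (1 : ℂ) - x / 4 = (1 - x / 4 : ℝ) by push_cast; ring,
    show (x : ℂ) - 1 / 4 = (x - 1 / 4 : ℝ) by push_cast; ring,
    show (1 : ℂ) - x = (1 - x : ℝ) by push_cast; ring, norm_real, norm_real, norm_real, norm_real,
    Real.norm_of_nonneg p.le, Real.norm_of_nonneg (show 0 ≤ 1 - x / 4 by linarith),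
    Real.norm_of_nonpos (show x - 1 / 4 ≤ 0 by linarith),
    Real.norm_of_nonneg (show 0 ≤ 1 - x by linarith), inv_mul_le_iff₀ l4,
    show -(x - 1 / 4) = (1 - 4 * x) / 4 by ring, Real.log_div (by linarith) (by norm_num),
    show (1 - x ^ 2) / (1 - x) ^ 2 = 1 + 2 * x / (1 - x) by
      have : 1 - x ≠ 0 := by linarith
      field_simp; ring] at this
  have b1 := Real.log_le_sub_one_of_pos (show 0 < 1 - 4 * x by linarith)
  have b2 := Real.one_sub_inv_le_log_of_pos (show 0 < 1 - x / 4 by linarith)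
  have b3 : (1 - x / 4)⁻¹ ≤ 1 + x / 2 := by rw [inv_le_iff_one_le_mul₀ (by linarith)]; nlinarith
  have b4 : 2 * x / (1 - x) ≤ 2.2 * x := by rw [div_le_iff₀ (by linarith)]; nlinarith
  nlinarith [mul_le_mul l5.le b4 (by have : 0 < 1 - x := by linarith
                                     positivity) (by norm_num)]

end Pool.Agent.S06510
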