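import Pool.Statements.S06537
import Pool.Agent.Lib.helper31.HPN2

set_option autoImplicit false
open Pool Pool.MP_e968d9_an

namespace Pool.Agent.S06537

/-- Every analytic selfmap of the right half-plane that induces a bounded composition operator on the Hardy space H² of the half-plane which is normal (tested on reproducing-kernel combinations) is a linear fractional map. -/
theorem result :
    ∀ φ : ℂ → ℂ,
      DifferentiableOn ℂ φ {z : ℂ | 0 < z.re} →
      Set.MapsTo φ {z : ℂ | 0 < z.re} {z : ℂ | 0 < z.re} →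
      (∃ C : NNReal, ∀ f : ℂ → ℂ, DifferentiableOn ℂ f {z : ℂ | 0 < z.re} →
        (⨆ (x : ℝ) (_ : 0 < x), ∫⁻ y : ℝ,
            (‖f ((x : ℂ) + (y : ℂ) * Complex.I)‖₊ : ENNReal) ^ 2) < ⊤ →
        (⨆ (x : ℝ) (_ : 0 < x), ∫⁻ y : ℝ,
            (‖f (φ ((x : ℂ) + (y : ℂ) * Complex.I))‖₊ : ENNReal) ^ 2)
          ≤ (C : ENNReal) * ⨆ (x : ℝ) (_ : 0 < x), ∫⁻ y : ℝ,
            (‖f ((x : ℂ) + (y : ℂ) * Complex.I)‖₊ : ENNReal) ^ 2) →
      (∀ (n : ℕ) (c a : Fin n → ℂ), (∀ i, 0 < (a i).re) →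
        (⨆ (x : ℝ) (_ : 0 < x), ∫⁻ y : ℝ,
            (‖∑ i, c i / (φ ((x : ℂ) + (y : ℂ) * Complex.I) + (starRingEnd ℂ) (a i))‖₊
              : ENNReal) ^ 2)
          = ⨆ (x : ℝ) (_ : 0 < x), ∫⁻ y : ℝ,
            (‖∑ i, c i / ((x : ℂ) + (y : ℂ) * Complex.I + (starRingEnd ℂ) (φ (a i)))‖₊
              : ENNReal) ^ 2) →
      ∃ a b c d : ℂ, a * d - b * c ≠ 0 ∧
        ∀ z : ℂ, 0 < z.re → c * z + d ≠ 0 ∧ φ z = (a * z + b) / (c * z + d) := by
  intro φ hd hm ⟨C, hC⟩ hn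
  have hN : ∀ (n : ℕ) (a e : Fin n → ℂ), (∀ i, 0 < (a i).re) → H31.HPN.N φ a e = ENNReal.ofReal
      (2 * Real.pi * (H31.HPN.G (fun i => φ (a i)) 0 e e).re) := fun n a e ha =>
    (hn n e a ha).trans (H31.HPN.sup_eq (b := fun i => φ (a i)) (fun i => hm (ha i)) e)
  have hb : ∀ x : ℝ, 0 < x → x ≤ C * (φ x).re := by
    intro x hx
    have hx2 : 0 < (φ x).re := hm (by simpa using hx)
    have h1 := H31.HPN.sup_eq (b := fun _ : Fin 1 => (x : ℂ)) (fun _ => hx) fun _ => 1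
    have h2 := hN 1 (fun _ => x) (fun _ => 1) fun _ => hx
    simp only [Fin.sum_univ_one, H31.HPN.N] at h1 h2
    have h3 := hC (fun z => 1 / (z + (starRingEnd ℂ) x)) (DifferentiableOn.div (by fun_prop)
      (by fun_prop) fun z hz => H31.HPN.ne0 (by
        have : 0 < z.re := hz
        simp only [Complex.add_re, Complex.conj_re, Complex.ofReal_re]; linarith))
      (by rw [h1]; exact ENNReal.ofReal_lt_top)
    have e1 : (H31.HPN.G (fun _ : Fin 1 => (x : ℂ)) 0 (fun _ => 1) fun _ => 1).re = 1 / (2 * x) := by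
      rw [show H31.HPN.G (fun _ : Fin 1 => (x : ℂ)) 0 (fun _ => 1) (fun _ => 1)
        = ((1 / (2 * x) : ℝ) : ℂ) by simp [H31.HPN.G, two_mul], Complex.ofReal_re]
    have e2 : (H31.HPN.G (fun _ : Fin 1 => φ x) 0 (fun _ => 1) fun _ => 1).re
        = 1 / (2 * (φ x).re) := by
      rw [show H31.HPN.G (fun _ : Fin 1 => φ x) 0 (fun _ => 1) (fun _ => 1)
        = ((1 / (2 * (φ x).re) : ℝ) : ℂ) by
          simp [H31.HPN.G, add_comm _ (φ x), Complex.add_conj], Complex.ofReal_re]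
    rw [h1, h2, e1, e2, ← ENNReal.ofReal_coe_nnreal, ← ENNReal.ofReal_mul C.coe_nonneg,
      ENNReal.ofReal_le_ofReal_iff (by positivity), mul_left_comm,
      mul_le_mul_iff_right₀ (by positivity), mul_one_div,
      div_le_div_iff₀ (by positivity) (by positivity)] at h3
    linarith
  have h1 : (0 : ℝ) < (1 : ℂ).re := by simp
  obtain ⟨b, hb0, hne⟩ : ∃ b : ℂ, 0 < b.re ∧ φ 1 ≠ φ b := by
    have h2 : 0 < (φ 1).re := hm h1
    refine ⟨(C * (φ 1).re + 1 : ℝ), by rw [Complex.ofReal_re]; positivity, fun h => ?_⟩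
    have := hb (C * (φ 1).re + 1) (by positivity)
    rw [← h] at this
    linarith
  have hs := sub_ne_zero.2 hne
  obtain ⟨A, B, hA, hB⟩ : ∃ A B : ℂ, 1 = A * φ 1 + B ∧ b = A * φ b + B :=
    ⟨(1 - b) / (φ 1 - φ b), 1 - (1 - b) / (φ 1 - φ b) * φ 1, by ring, by field_simp; ring⟩
  have hz : ∀ z : ℂ, 0 < z.re → z = A * φ z + B := fun z hz => by
    refine H31.HPN.affine (hm h1) (hm hb0) (hm hz) hne fun d => ?_
    have := H31.HPN.three hd hm C.coe_nonneg hb (hN 4) (a := ![1, b, z])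
      (fun i => by fin_cases i; exacts [h1, hb0, hz]) d
    have e : (fun i => φ ((![1, b, z] : Fin 3 → ℂ) i)) = ![φ 1, φ b, φ z] := by
      funext i; fin_cases i <;> rfl
    rw [e] at this
    rw [← hA, ← hB]
    exact this
  have hA0 : A ≠ 0 := fun h => by
    rw [h, zero_mul, zero_add] at hA hB
    exact hne (by rw [hB, ← hA])
  refine ⟨1, -B, 0, A, by simpa using hA0, fun z h => ⟨by simpa using hA0, ?_⟩⟩
  rw [zero_mul, zero_add, eq_div_iff hA0]
  linear_combination -hz z h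

end Pool.Agent.S06537
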