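import Pool.Statements.S06546

set_option autoImplicit false
open Pool Pool.MP_e9d911_an

namespace Pool.Agent.S06546

open Polynomial in
lemma avg : (1 / (2 * Real.pi)) * (∫ θ in (0:ℝ)..(2 * Real.pi),
    Real.log ‖16 + 40 * Complex.exp ((θ : ℂ) * Complex.I) + 29 * Complex.exp ((θ : ℂ) * Complex.I) ^ 2
      + 2 * Complex.exp ((θ : ℂ) * Complex.I) ^ 3 - 3 * Complex.exp ((θ : ℂ) * Complex.I) ^ 4‖)
    = Real.log 16 := by
  have h : ((X + C 1) * (X + C 1) * (C 3 * X + C 4) * (C (-1) * X + C 4) : ℂ[X]).mahlerMeasure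
      = 16 := by
    rw [mahlerMeasure_mul, mahlerMeasure_mul, mahlerMeasure_mul, mahlerMeasure_X_add_C,
      mahlerMeasure_C_mul_X_add_C (by norm_num), mahlerMeasure_C_mul_X_add_C (by norm_num)]
    norm_num
  rw [← h, ← logMahlerMeasure_eq_log_MahlerMeasure, logMahlerMeasure_def, Real.circleAverage_def,
    smul_eq_mul, one_div]
  congr 1
  refine intervalIntegral.integral_congr fun θ _ => ?_
  simp only [circleMap]
  congr 2
  simp
  ring

noncomputable def a : ℕ → ℂ
  | 0 => 16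
  | 1 => 40
  | 2 => 29
  | 3 => 2
  | 4 => -3
  | _ => 0

lemma a_zero (j : ℕ) (hj : j ∉ Finset.range 5) : a j = 0 := by
  simp only [Finset.mem_range, not_lt] at hj
  obtain ⟨m, rfl⟩ := Nat.exists_eq_add_of_le' hj
  rfl

lemma tsum_a : ∑' j, ‖a j‖ = 90 := by
  rw [tsum_eq_sum (s := Finset.range 5) (fun j hj => by rw [a_zero j hj, norm_zero])]
  simp [Finset.sum_range_succ, a]
  norm_num

lemma tsum_a' (w : ℂ) : ∑' j, a j * w ^ j = 16 + 40 * w + 29 * w ^ 2 + 2 * w ^ 3 - 3 * w ^ 4 := by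
  rw [tsum_eq_sum (s := Finset.range 5) (fun j hj => by rw [a_zero j hj, zero_mul])]
  simp [Finset.sum_range_succ, a]
  ring


theorem result :
    ¬ (∀ (d : ℝ) (k n : ℕ), 0 < d → d < 1 → 0 < n →
    (∑ j ∈ Finset.range (k+1), (n.choose j : ℝ)) / 2 ^ n ≤ d →
    d < (∑ j ∈ Finset.range (k+1), ((n-1).choose j : ℝ)) / 2 ^ (n-1) →
    IsGLB {x : ℝ | ∃ a : ℕ → ℂ, Summable (fun j => ‖a j‖) ∧ a ≠ 0 ∧
        d * (∑' j, ‖a j‖) ≤ ∑ j ∈ Finset.range (k+1), ‖a j‖ ∧
        x = (1 / (2 * Real.pi)) *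
              (∫ θ in (0:ℝ)..(2 * Real.pi),
                Real.log ‖∑' j, a j * Complex.exp ((θ : ℂ) * Complex.I) ^ j‖)
            - Real.log (∑' j, ‖a j‖)}
      (Real.log
        ((((n-1).choose k : ℝ) /
            ((∑ j ∈ Finset.range (k+1), ((n-1).choose j : ℝ)) - d * 2 ^ (n-1)) - 1) /
          (((((n-1).choose k : ℝ) /
            ((∑ j ∈ Finset.range (k+1), ((n-1).choose j : ℝ)) - d * 2 ^ (n-1)) - 1) + 1)
            * 2 ^ (n-1))))) := by
  intro H
  have h := (H (28 / 45) 1 3 (by norm_num) (by norm_num) (by norm_num)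
    (by simp [Finset.sum_range_succ]; norm_num) (by simp [Finset.sum_range_succ]; norm_num)).1
  have h2 := @h (Real.log 16 - Real.log 90) ⟨a, ?_, ?_, ?_, ?_⟩
  · rw [← Real.log_div (by norm_num) (by norm_num)] at h2
    simp only [Finset.sum_range_succ, Finset.range_zero, Finset.sum_empty] at h2
    norm_num at h2
    rw [Real.log_le_log_iff (by norm_num) (by norm_num)] at h2
    norm_num at h2
  · exact summable_of_ne_finset_zero (s := Finset.range 5)
      (fun j hj => by rw [a_zero j hj, norm_zero])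
  · intro h0
    have := congrFun h0 0
    simp [a] at this
  · rw [tsum_a]
    simp [Finset.sum_range_succ, a]
    norm_num
  · rw [tsum_a, ← avg]
    simp only [tsum_a']

end Pool.Agent.S06546
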