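import Pool.Statements.S06580
-- import your own Pool.Agent.* helpers here

set_option autoImplicit false
open Filter Topology MeasureTheory
open Pool Pool.MP_ec63c8_an

namespace Pool.Agent.S06580

open scoped ZeroAtInfty

lemma norm_le_iff (f : C₀(ℝ, ℂ)) {C : ℝ} (hC : 0 ≤ C) : ‖f‖ ≤ C ↔ ∀ u, ‖f u‖ ≤ C :=
  BoundedContinuousFunction.norm_le (f := f.toBCF) hC

lemma apply_le (f : C₀(ℝ, ℂ)) (u : ℝ) : ‖f u‖ ≤ ‖f‖ := (norm_le_iff f (norm_nonneg f)).1 le_rfl u

/-- translation -/
noncomputable def tr (t : ℝ) : C₀(ℝ, ℂ) →L[ℂ] C₀(ℝ, ℂ) :=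
  (ZeroAtInftyContinuousMap.compLinearMap (R := ℂ)
    (Homeomorph.addRight t).toCocompactMap).mkContinuous 1 fun f => by
      rw [one_mul, norm_le_iff _ (norm_nonneg f)]
      exact fun u => apply_le f _

lemma tr_apply (t : ℝ) (f : C₀(ℝ, ℂ)) (u : ℝ) : tr t f u = f (u + t) := rfl

noncomputable def evl (u : ℝ) : C₀(ℝ, ℂ) →L[ℂ] ℂ :=
  LinearMap.mkContinuous ⟨⟨fun f => f u, fun _ _ => rfl⟩, fun _ _ => rfl⟩ 1 fun f => by
    rw [one_mul]; exact apply_le f u

noncomputable def bump : C₀(ℝ, ℂ) where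
  toFun u := (((1 + u ^ 2)⁻¹ : ℝ) : ℂ)
  continuous_toFun := Complex.continuous_ofReal.comp
    (Continuous.inv₀ (by fun_prop) fun u => by positivity)
  zero_at_infty' := by
    have h : Tendsto (fun u : ℝ => (1 + u ^ 2)⁻¹) (cocompact ℝ) (𝓝 0) := by
      refine tendsto_inv_atTop_zero.comp (tendsto_atTop_add_const_left _ _ ?_)
      have := (tendsto_pow_atTop two_ne_zero).comp (tendsto_norm_cocompact_atTop (E := ℝ))
      simpa only [Function.comp_def, Real.norm_eq_abs, sq_abs] using this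
    exact (Complex.continuous_ofReal.tendsto 0).comp h

lemma scalar (l : ℂ) (hl : 0 < l.re) (u : ℝ) :
    ‖∫ t in Set.Ioi (0 : ℝ), Complex.exp (-(l * t)) * bump (u + t)‖ ≤ 4 ∧
    ‖l‖ * ‖∫ t in Set.Ioi (0 : ℝ), Complex.exp (-(l * t)) * bump (u + t)‖ ≤ 5 := by
  have hw : Integrable fun t : ℝ => (1 + (u + t) ^ 2)⁻¹ := integrable_inv_one_add_sq.comp_add_left u
  have he : ∀ t ∈ Set.Ioi (0 : ℝ), ‖Complex.exp (-(l * t))‖ ≤ 1 := fun t ht => by
    rw [Complex.norm_exp, Real.exp_le_one_iff]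
    simpa using mul_nonneg hl.le (le_of_lt ht)
  have key : ∀ g : ℝ → ℝ, Continuous g → (∀ t, |g t| ≤ (1 + (u + t) ^ 2)⁻¹) →
      IntegrableOn (fun t : ℝ => Complex.exp (-(l * t)) * (g t : ℂ)) (Set.Ioi 0) ∧
      ‖∫ t in Set.Ioi (0 : ℝ), Complex.exp (-(l * t)) * (g t : ℂ)‖ ≤ 4 := fun g hg hb => by
    have h1 : ∀ᵐ t : ℝ ∂(volume.restrict (Set.Ioi (0 : ℝ))),
        ‖Complex.exp (-(l * t)) * (g t : ℂ)‖ ≤ (1 + (u + t) ^ 2)⁻¹ := by
      filter_upwards [ae_restrict_mem measurableSet_Ioi] with t ht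
      rw [norm_mul, Complex.norm_real, Real.norm_eq_abs]
      exact (mul_le_of_le_one_left (abs_nonneg _) (he t ht)).trans (hb t)
    refine ⟨hw.integrableOn.mono' (Continuous.aestronglyMeasurable (by fun_prop)) h1,
      (norm_integral_le_of_norm_le hw.integrableOn h1).trans ?_⟩
    refine (setIntegral_le_integral hw (Eventually.of_forall fun t => by positivity)).trans ?_
    rw [integral_add_left_eq_self (fun t : ℝ => (1 + t ^ 2)⁻¹) u, integral_univ_inv_one_add_sq]
    exact Real.pi_le_four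
  have c1 : Continuous fun t : ℝ => (1 + (u + t) ^ 2)⁻¹ :=
    Continuous.inv₀ (by fun_prop) fun u => by positivity
  obtain ⟨i1, n1⟩ := key _ c1 fun t => (abs_of_pos (by positivity)).le
  obtain ⟨i2, n2⟩ := key (fun t => -(2 * (u + t)) / (1 + (u + t) ^ 2) ^ 2)
    (Continuous.div (by fun_prop) (by fun_prop) fun u => by positivity) fun t => by
      have p : 0 < 1 + (u + t) ^ 2 := by positivity
      rw [abs_div, abs_of_pos (pow_pos p 2), div_le_iff₀ (pow_pos p 2), abs_neg, sq (1 + _),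
        inv_mul_cancel_left₀ p.ne', abs_le]
      constructor <;> nlinarith [sq_nonneg (u + t - 1), sq_nonneg (u + t + 1)]
  refine ⟨n1, ?_⟩
  have ftc := integral_Ioi_of_hasDerivAt_of_tendsto' (a := 0) (m := 0)
    (f := fun t : ℝ => Complex.exp (-(l * t)) * (((1 + (u + t) ^ 2)⁻¹ : ℝ) : ℂ))
    (f' := fun t : ℝ => Complex.exp (-(l * t)) * ((-(2 * (u + t)) / (1 + (u + t) ^ 2) ^ 2 : ℝ) : ℂ) -
      l * (Complex.exp (-(l * t)) * (((1 + (u + t) ^ 2)⁻¹ : ℝ) : ℂ)))
    (fun t _ => by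
      have d1 : HasDerivAt (fun t : ℝ => Complex.exp (-(l * t))) (Complex.exp (-(l * t)) * -(l * 1)) t :=
        (((Complex.ofRealCLM.hasDerivAt (x := t)).const_mul l).neg).cexp
      have d2 : HasDerivAt (fun t : ℝ => (1 + (u + t) ^ 2)⁻¹)
          (-(2 * (u + t)) / (1 + (u + t) ^ 2) ^ 2) t := by
        exact (((((hasDerivAt_id t).const_add u).pow 2).const_add 1).inv
          (by have : 0 < 1 + (u + t) ^ 2 := by positivity
              exact this.ne')).congr_deriv (by simp)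
      exact (d1.mul d2.ofReal_comp).congr_deriv (by ring))
    (i2.sub (i1.const_mul l)) (by
      refine squeeze_zero_norm' (a := fun t => (1 + (u + t) ^ 2)⁻¹) ?_ ?_
      · filter_upwards [eventually_gt_atTop 0] with t ht
        rw [norm_mul, Complex.norm_real, Real.norm_of_nonneg (by positivity)]
        exact mul_le_of_le_one_left (by positivity) (he t ht)
      · exact tendsto_inv_atTop_zero.comp (tendsto_atTop_add_const_left _ _
          ((tendsto_pow_atTop two_ne_zero).comp (tendsto_atTop_add_const_left _ _ tendsto_id))))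
  rw [integral_sub i2 (i1.const_mul l), integral_const_mul, sub_eq_iff_eq_add, ← sub_eq_iff_eq_add']
    at ftc
  rw [← norm_mul]
  refine (congrArg norm ftc).ge.trans ((norm_sub_le _ _).trans ?_)
  have : ‖(0 : ℂ) - Complex.exp (-(l * (0 : ℝ))) * (((1 + (u + 0) ^ 2)⁻¹ : ℝ) : ℂ)‖ ≤ 1 := by
    rw [zero_sub, norm_neg, norm_mul, Complex.norm_real, Real.norm_of_nonneg (by positivity)]
    simpa using inv_le_one_of_one_le₀ (show (1 : ℝ) ≤ 1 + u ^ 2 by nlinarith [sq_nonneg u])
  linarith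

lemma vec (l : ℂ) (hl : 0 < l.re) :
    ‖∫ t in Set.Ioi (0 : ℝ), Complex.exp (-(l * t)) • tr t bump‖ ^ 2 ≤ 41 * (1 + l.im ^ 2)⁻¹ := by
  by_cases hi : Integrable (fun t : ℝ => Complex.exp (-(l * t)) • tr t bump)
    (volume.restrict (Set.Ioi 0))
  swap
  · rw [integral_undef hi, norm_zero, zero_pow two_ne_zero]; positivity
  have p : 0 < 1 + l.im ^ 2 := by positivity
  rw [← Real.le_sqrt (norm_nonneg _) (by positivity), norm_le_iff _ (Real.sqrt_nonneg _)]
  intro u
  have e := (evl u).integral_comp_comm hi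
  refine (congrArg norm e).ge.trans (Real.le_sqrt_of_sq_le ?_)
  obtain ⟨h1, h2⟩ := scalar l hl u
  change ‖∫ t in Set.Ioi (0 : ℝ), Complex.exp (-(l * t)) * bump (u + t)‖ ^ 2 ≤ _
  rw [← div_eq_mul_inv, le_div_iff₀ p]
  generalize ∫ t in Set.Ioi (0 : ℝ), Complex.exp (-(l * t)) * bump (u + t) = I at *
  have h3 : |l.im| * ‖I‖ ≤ 5 :=
    (mul_le_mul_of_nonneg_right (Complex.abs_im_le_norm l) (norm_nonneg _)).trans h2
  have h4 := pow_le_pow_left₀ (by positivity) h3 2
  rw [mul_pow, sq_abs] at h4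
  nlinarith [norm_nonneg I]

/-- The negation of the preceding statement: For every bounded strongly continuous semigroup T on a complex Banach space and every x, T(t)x tends to 0 iff a times the integral over s of the squared norm of the Laplace-transform resolvent at a+is applied to x tends to 0 as a tends to 0 from above. -/
theorem result :
    ¬ (∀ (X : Type) [NormedAddCommGroup X] [NormedSpace ℂ X] [CompleteSpace X]
      (T : ℝ → (X →L[ℂ] X)),
      T 0 = 1 →
      (∀ s t : ℝ, 0 ≤ s → 0 ≤ t → T (s + t) = T s * T t) →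
      (∀ x : X, ContinuousOn (fun t : ℝ => T t x) (Set.Ici (0 : ℝ))) →
      (∃ M : ℝ, ∀ t : ℝ, 0 ≤ t → ‖T t‖ ≤ M) →
      ∀ x : X,
        (Tendsto (fun t : ℝ => T t x) atTop (𝓝 0) ↔
          Tendsto
            (fun a : ℝ => ENNReal.ofReal a *
              ∫⁻ s : ℝ,
                ((‖∫ t in Set.Ioi (0 : ℝ),
                    Complex.exp (-(((a : ℂ) + (s : ℂ) * Complex.I) * (t : ℂ))) • T t x‖₊ : ENNReal)) ^ 2)
            (𝓝[>] (0 : ℝ)) (𝓝 0))) := by
  intro h
  have key := (h C₀(ℝ, ℂ) tr (by ext f u; simp [tr_apply])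
    (fun s t _ _ => by ext f u; simp [tr_apply, add_assoc])
    (fun f => Continuous.continuousOn (by
      rw [Metric.continuous_iff]
      intro t ε hε
      obtain ⟨δ, hδ, h⟩ := Metric.uniformContinuous_iff.1
        (ZeroAtInftyContinuousMap.uniformContinuous f) _ (half_pos hε)
      refine ⟨δ, hδ, fun s hs => lt_of_le_of_lt ?_ (half_lt_self hε)⟩
      rw [dist_eq_norm, norm_le_iff _ (half_pos hε).le]
      intro u
      have := h (a := u + s) (b := u + t) (by simpa using hs)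
      rw [dist_eq_norm] at this
      exact this.le))
    ⟨1, fun t _ => LinearMap.mkContinuous_norm_le _ zero_le_one _⟩ bump).2 ?_
  · have := ge_of_tendsto' key.norm fun t => show 1 ≤ ‖tr t bump‖ by
      simpa [tr_apply, bump] using apply_le (tr t bump) (-t)
    norm_num at this
  have hb : ∫⁻ s : ℝ, ENNReal.ofReal (41 * (1 + s ^ 2)⁻¹) ≠ ⊤ := by
    rw [← ofReal_integral_eq_lintegral_ofReal (integrable_inv_one_add_sq.const_mul 41)
      (Eventually.of_forall fun s => by positivity)]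
    exact ENNReal.ofReal_ne_top
  have h0 : Tendsto (fun a : ℝ => ENNReal.ofReal a * ∫⁻ s : ℝ, ENNReal.ofReal (41 * (1 + s ^ 2)⁻¹))
      (𝓝[>] 0) (𝓝 0) := by
    have := ENNReal.Tendsto.mul_const (ENNReal.tendsto_ofReal (tendsto_id (x := 𝓝 (0 : ℝ))))
      (Or.inr hb)
    simpa using this.mono_left nhdsWithin_le_nhds
  refine tendsto_of_tendsto_of_tendsto_of_le_of_le' tendsto_const_nhds h0
    (Eventually.of_forall fun _ => bot_le) ?_
  filter_upwards [self_mem_nhdsWithin] with a ha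
  refine mul_le_mul_right (lintegral_mono fun s => ?_) _
  have := vec (a + s * Complex.I) (by simpa using ha)
  rw [← ENNReal.coe_pow, ← ENNReal.ofReal_coe_nnreal]
  exact ENNReal.ofReal_le_ofReal (by simpa using this)

end Pool.Agent.S06580
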