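import Pool.Statements.S06599
import Pool.Agent.Lib.helper3.CompEss

set_option autoImplicit false
open Complex Filter Topology Metric
open Pool Pool.MP_ed6c6b_an

namespace Pool.Agent.S06599

open Pool.Agent.Lib.H3CompEss

lemma squeeze (ε I : ℕ → ℝ) (M δ : ℝ) (hM1 : 1 ≤ M) (hδ : 0 < δ) (hδ1 : δ ≤ 1)
    (hε0 : ∀ n, 0 ≤ ε n) (hI0 : ∀ n, 0 ≤ I n) (h : ∀ n, ε n ≤ δ → I n ≤ M * ε n)
    (hlim : Tendsto (fun n : ℕ => ε n ^ ((n : ℝ)⁻¹)) atTop (𝓝 0)) :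
    Tendsto (fun n : ℕ => I n ^ ((n : ℝ)⁻¹)) atTop (𝓝 0) := by
  have h0 := hlim.const_mul M
  rw [mul_zero] at h0
  refine squeeze_zero' (Eventually.of_forall fun n => Real.rpow_nonneg (hI0 n) _) ?_ h0
  filter_upwards [hlim.eventually (gt_mem_nhds hδ), eventually_ge_atTop 1] with n hn hn1
  have hεs : ε n ≤ δ := by
    have h1 : ε n = (ε n ^ ((n : ℝ)⁻¹)) ^ n :=
      (Real.rpow_inv_natCast_pow (hε0 n) (by omega)).symm
    have h2 : 0 ≤ ε n ^ ((n : ℝ)⁻¹) := Real.rpow_nonneg (hε0 n) _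
    have h3 : (ε n ^ ((n : ℝ)⁻¹)) ^ n ≤ ε n ^ ((n : ℝ)⁻¹) :=
      pow_le_of_le_one h2 (by linarith) (by omega)
    linarith
  refine (Real.rpow_le_rpow (hI0 n) (h n hεs) (by positivity)).trans ?_
  rw [Real.mul_rpow (by linarith) (hε0 n)]
  refine mul_le_mul_of_nonneg_right ?_ (Real.rpow_nonneg (hε0 n) _)
  exact Real.rpow_le_self_of_one_le hM1 (inv_le_one_of_one_le₀ (by exact_mod_cast hn1))

lemma near (S : H →L[ℂ] H) (ψ : ℂ → ℂ) (ω : ℂ)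
    (hS : ∀ a z, ‖z‖ < 1 → ev (S a) z = ev a (ψ z)) :
    ‖ψ 0‖ ≤ ‖ω‖ + ‖S (lp.single 2 1 (1 : ℂ)) - ω • one‖ := by
  have h1 := hS (lp.single 2 1 (1 : ℂ)) 0 (by simp)
  rw [ev_single, pow_one, ev_zero] at h1
  have h2 := norm_coord (S (lp.single 2 1 (1 : ℂ)) - ω • one) 0
  rw [lp.coeFn_sub, Pi.sub_apply, h1] at h2
  have e : (ω • one : H) 0 = ω := by simp [one]
  rw [e] at h2
  have h3 := norm_add_le (ψ 0 - ω) ω
  rw [sub_add_cancel] at h3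
  linarith

lemma inf_le (S K : H →L[ℂ] H) (hK : IsCompactOperator K) :
    (⨅ K : {K : H →L[ℂ] H // IsCompactOperator (⇑K)}, ‖S - K.1‖) ≤ ‖S - K‖ :=
  ciInf_le (f := fun K : {K : H →L[ℂ] H // IsCompactOperator (⇑K)} => ‖S - K.1‖)
    ⟨0, by rintro _ ⟨K, rfl⟩; exact norm_nonneg _⟩ ⟨K, hK⟩

/-- For every non-inner holomorphic selfmap φ of the unit disc fixing ω with ‖φ^[n] − ω‖_{H²}^{1/n} → 0, the composition operator C_φ on H² (coefficient model ℓ²) has essential spectral radius zero. -/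
theorem result :
    ∀ (φ : ℂ → ℂ) (ω : ℂ),
      DifferentiableOn ℂ φ (ball (0 : ℂ) 1) →
      Set.MapsTo φ (ball (0 : ℂ) 1) (ball (0 : ℂ) 1) →
      ω ∈ ball (0 : ℂ) 1 →
      φ ω = ω →
      (¬ ∀ᵐ θ : ℝ, Tendsto (fun r : ℝ => ‖φ ((r : ℂ) * exp ((θ : ℂ) * I))‖) (𝓝[<] (1 : ℝ)) (𝓝 1)) →
      ∀ T : lp (fun _ : ℕ => ℂ) 2 →L[ℂ] lp (fun _ : ℕ => ℂ) 2,
        (∀ a : lp (fun _ : ℕ => ℂ) 2, ∀ z ∈ ball (0 : ℂ) 1,
          ∑' n : ℕ, (T a) n * z ^ n = ∑' n : ℕ, a n * (φ z) ^ n) →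
        Tendsto (fun n : ℕ =>
            ‖(T ^ n) (lp.single 2 1 (1 : ℂ) : lp (fun _ : ℕ => ℂ) 2)
              - ω • (lp.single 2 0 (1 : ℂ) : lp (fun _ : ℕ => ℂ) 2)‖ ^ ((n : ℝ)⁻¹))
          atTop (𝓝 0) →
        Tendsto (fun n : ℕ =>
            (⨅ K : {K : lp (fun _ : ℕ => ℂ) 2 →L[ℂ] lp (fun _ : ℕ => ℂ) 2 // IsCompactOperator (⇑K)},
              ‖T ^ n - K.1‖) ^ ((n : ℝ)⁻¹))
          atTop (𝓝 0) := by
  intro φ ω _ hm hω _ _ T hT hlim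
  rw [mem_ball_zero_iff] at hω
  have hm' : ∀ z, ‖z‖ < 1 → ‖φ z‖ < 1 := fun z hz =>
    mem_ball_zero_iff.1 (hm (mem_ball_zero_iff.2 hz))
  have hit : ∀ n : ℕ, ∀ z, ‖z‖ < 1 → ‖φ^[n] z‖ < 1 := by
    intro n
    induction n with
    | zero => intro z hz; exact hz
    | succ n ih => intro z hz; exact ih _ (hm' z hz)
  have hS : ∀ n : ℕ, ∀ a z, ‖z‖ < 1 → ev ((T ^ n) a) z = ev a (φ^[n] z) := by
    intro n
    induction n with
    | zero => intro a z _; rfl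
    | succ n ih =>
      intro a z hz
      rw [pow_succ', mul_apply_eq_comp, Function.iterate_succ_apply, ← ih a _ (hm' z hz)]
      exact hT _ z (mem_ball_zero_iff.2 hz)
  obtain ⟨M, hM1, hM⟩ := key (ρ := (1 + ‖ω‖) / 2) (by positivity) (by linarith)
  refine squeeze _ _ M ((1 - ‖ω‖) / 2) hM1 (by linarith) (by linarith [norm_nonneg ω])
    (fun n => norm_nonneg _) (fun n => Real.iInf_nonneg fun K => norm_nonneg _)
    (fun n hn => ?_) hlim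
  have h1 := near (T ^ n) _ ω (hS n)
  have hn' : ‖(T ^ n) (lp.single 2 1 (1 : ℂ)) - ω • one‖ ≤ (1 - ‖ω‖) / 2 := hn
  obtain ⟨K, hK, hKn⟩ := hM (T ^ n) _ ω (hit n) (hS n) (by linarith)
  exact (inf_le _ K hK).trans hKn

end Pool.Agent.S06599
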