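import Pool.Statements.S06623
import Pool.Agent.Lib.helper12.TieB

set_option autoImplicit false
open Pool Pool.MP_ef2f7d_an

namespace Pool.Agent.S06623
open Pool.Agent.Lib.H12Tie

/-- There is a nonempty compact metric space with two minimal homeomorphisms T, S (all forward orbits dense) such that for no point x does (T^n x, S^n x) come arbitrarily close to (x,x) for some n ≥ 1. -/
theorem result :
    ∃ (X : Type) (_ : MetricSpace X) (_ : CompactSpace X) (_ : Nonempty X) (T S : X ≃ₜ X),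
      (∀ x : X, Dense (Set.range (fun n : ℕ => (⇑T)^[n] x))) ∧
      (∀ x : X, Dense (Set.range (fun n : ℕ => (⇑S)^[n] x))) ∧
      ∀ x : X, ¬ (∀ ε : ℝ, 0 < ε →
        ∃ n : ℕ, 0 < n ∧ dist ((⇑T)^[n] x) x < ε ∧ dist ((⇑S)^[n] x) x < ε) := by
  classical
  let ρ : ℕ → ℕ := fun _ => 0
  let e : X ρ → ℤ → Fin 6 → ZMod 2 := fun x n l => if Rel ρ x.1.1 l n 0 then 0 else 1
  have he : ∀ x l n n', Rel ρ x.1.1 l n n' → e x n l = e x n' l := fun x l n n' h =>
    if_congr ⟨fun h1 => h.symm.trans x.2.1 h1, fun h1 => h.trans x.2.1 h1⟩ rfl rfl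
  obtain ⟨φ, hφ⟩ := conj e he (fun n l => ⟨2 * n.natAbs, fun x y hxy =>
    if_congr (rel_congr x.2.1 y.2.1 (k := 2 * n.natAbs) (by simp) (hxy.1 _ le_rfl)) rfl rfl⟩)
    fun x => rfl
  letI : MetricSpace (X ρ) := TopologicalSpace.metrizableSpaceMetric _
  refine ⟨X ρ, inferInstance, inferInstance, inferInstance, T ρ, φ.trans ((T ρ).trans φ.symm),
    minimal, conj_minimal φ _ minimal, fun x hx => ?_⟩
  obtain ⟨ε, hε, hb⟩ := Metric.eventually_nhds_iff.1 (agree_nhds 0 x)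
  obtain ⟨n, hn, h1, h2⟩ := hx ε hε
  have h3 := (hb h1).2 0 (by simp)
  have h4 := (hb h2).2 0 (by simp)
  rw [T_iter, sh_v] at h3
  rw [conj_iter, T_iter, (hφ _).2, (hφ _).1] at h4
  obtain ⟨l, hl⟩ := not_rel x.2.1 (show (0 : ℤ) + n ≠ 0 by omega)
  have h5 := congrFun h4 l
  change x.1.2 (0 + n) l + e x (0 + n) l + e _ 0 l = _ at h5
  simp only [e, if_neg hl, if_pos (Rel.refl _ _ _), h3] at h5
  simp at h5

end Pool.Agent.S06623
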