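import Pool.Statements.S06629
import Pool.Agent.Lib.helper11.Surj

set_option autoImplicit false
open Pool Pool.MP_efaf6a_an

namespace Pool.Agent.S06629

/-- For every commutative monoid M and finite alphabet A, every cellular automaton on A^M (finite memory set S, local rule μ, x ↦ (m ↦ μ(s ↦ x(m·s)))) that is injective is also surjective. -/
theorem result :
    ∀ (M : Type) [CommMonoid M] (A : Type) [Finite A] (S : Finset M) (μ : (S → A) → A),
      Function.Injective (fun (x : M → A) (m : M) => μ (fun s : S => x (m * s.1))) →
      Function.Surjective (fun (x : M → A) (m : M) => μ (fun s : S => x (m * s.1))) := by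
  intro M _ A _ S μ
  simp only [mul_comm _ (Subtype.val _)]
  exact Surj.main (s := fun i : S => i.1) fun T => ⟨Submonoid.closure T, Submonoid.subset_closure,
    fun κ _ s f ν h => haveI : Monoid.FG (Submonoid.closure (T : Set M)) :=
      (Monoid.fg_iff_submonoid_fg _).2 ⟨T, rfl⟩
      h.comm⟩

end Pool.Agent.S06629
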