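import Pool.Statements.S06672
import Pool.Agent.Lib.helper3.L2W

set_option autoImplicit false
open Pool Pool.MP_f23f32_an

namespace Pool.Agent.S06672

open Filter Topology
open scoped InnerProductSpace

section gen
variable {ι : Type} {H : Type} [NormedAddCommGroup H] [InnerProductSpace ℂ H] [CompleteSpace H]

lemma exists_wlim (U : Ultrafilter ι) (y : ι → H) (C : ℝ) (hy : ∀ k, ‖y k‖ ≤ C) :
    ∃ z : H, ∀ g, Tendsto (fun k => ⟪y k, g⟫_ℂ) U (𝓝 ⟪z, g⟫_ℂ) := by
  have hb : ∀ k g, ‖⟪y k, g⟫_ℂ‖ ≤ C * ‖g‖ := fun k g =>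
    (norm_inner_le_norm _ _).trans (mul_le_mul_of_nonneg_right (hy k) (norm_nonneg _))
  have hex : ∀ g, ∃ c, Tendsto (fun k => ⟪y k, g⟫_ℂ) U (𝓝 c) := by
    intro g
    obtain ⟨c, -, hc⟩ := (isCompact_closedBall (0 : ℂ) (C * ‖g‖)).ultrafilter_le_nhds
      (U.map fun k => ⟪y k, g⟫_ℂ) (by
        rw [le_principal_iff]
        exact Filter.mem_map.2 (Eventually.of_forall fun k => by simpa using hb k g))
    exact ⟨c, hc⟩
  choose c hc using hex
  let L : H →L[ℂ] ℂ := LinearMap.mkContinuous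
    { toFun := c
      map_add' := fun x z => tendsto_nhds_unique (hc (x + z)) (by
        simpa [inner_add_right] using (hc x).add (hc z))
      map_smul' := fun a x => tendsto_nhds_unique (hc (a • x)) (by
        simpa [inner_smul_right] using (hc x).const_mul a) } C
    fun x => le_of_tendsto' (hc x).norm fun k => hb k x
  refine ⟨(InnerProductSpace.toDual ℂ H).symm L, fun g => ?_⟩
  rw [InnerProductSpace.toDual_symm_apply]
  exact hc g

lemma exists_psi (U : Ultrafilter ι) (V W : ι → H →L[ℂ] H) (hV : ∀ k, ‖V k‖ ≤ 1)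
    (hW : ∀ k, ‖W k‖ ≤ 1) :
    ∃ ψ : (H →L[ℂ] H) →ₗ[ℂ] (H →L[ℂ] H), (∀ x, ‖ψ x‖ ≤ ‖x‖) ∧
      ∀ x f g, Tendsto (fun k => ⟪W k (x (V k f)), g⟫_ℂ) U (𝓝 ⟪ψ x f, g⟫_ℂ) := by
  have hb : ∀ (x : H →L[ℂ] H) f k, ‖W k (x (V k f))‖ ≤ ‖x‖ * ‖f‖ := by
    intro x f k
    refine ((W k).le_of_opNorm_le (hW k) _).trans ?_
    rw [one_mul]
    refine (x.le_opNorm _).trans (mul_le_mul_of_nonneg_left ?_ (norm_nonneg _))
    simpa using (V k).le_of_opNorm_le (hV k) f
  choose z hz using fun (x : H →L[ℂ] H) f => exists_wlim U _ _ (hb x f)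
  have hn : ∀ x f, ‖z x f‖ ≤ ‖x‖ * ‖f‖ := by
    intro x f
    have h1 : ‖⟪z x f, z x f⟫_ℂ‖ ≤ ‖x‖ * ‖f‖ * ‖z x f‖ :=
      le_of_tendsto' (hz x f (z x f)).norm fun k =>
        (norm_inner_le_norm _ _).trans (mul_le_mul_of_nonneg_right (hb x f k) (norm_nonneg _))
    rw [inner_self_eq_norm_sq_to_K] at h1
    simp only [norm_pow, Complex.coe_algebraMap, Complex.norm_real, norm_norm] at h1
    by_cases h0 : ‖z x f‖ = 0
    · rw [h0]; positivity
    · have : 0 < ‖z x f‖ := lt_of_le_of_ne (norm_nonneg _) (Ne.symm h0)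
      nlinarith
  let T : (H →L[ℂ] H) → H →L[ℂ] H := fun x => LinearMap.mkContinuous
    { toFun := z x
      map_add' := fun f f' => ext_inner_right ℂ fun g => tendsto_nhds_unique (hz x (f + f') g) (by
        simpa [inner_add_left] using (hz x f g).add (hz x f' g))
      map_smul' := fun a f => ext_inner_right ℂ fun g => tendsto_nhds_unique (hz x (a • f) g) (by
        simpa [inner_smul_left, mul_comm] using (hz x f g).const_mul ((starRingEnd ℂ) a)) } ‖x‖ (hn x)
  refine ⟨{ toFun := T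
            map_add' := fun x x' => ?_
            map_smul' := fun a x => ?_ }, fun x => ?_, hz⟩
  · ext f
    refine ext_inner_right ℂ fun g => tendsto_nhds_unique (hz (x + x') f g) ?_
    simpa [inner_add_left, T] using (hz x f g).add (hz x' f g)
  · ext f
    refine ext_inner_right ℂ fun g => tendsto_nhds_unique (hz (a • x) f g) ?_
    simpa [inner_smul_left, T, mul_comm] using (hz x f g).const_mul ((starRingEnd ℂ) a)
  · exact LinearMap.mkContinuous_norm_le _ (norm_nonneg x) (hn x)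

noncomputable def vn (s : Set (H →L[ℂ] H)) : VonNeumannAlgebra H where
  toStarSubalgebra := StarSubalgebra.centralizer ℂ s
  centralizer_centralizer' := by simp

lemma mem_vn (s : Set (H →L[ℂ] H)) (z : H →L[ℂ] H) :
    z ∈ vn s ↔ ∀ g ∈ s, g * z = z * g ∧ star g * z = z * star g :=
  StarSubalgebra.mem_centralizer_iff ℂ

end gen

lemma exists_U : ∃ U : Ultrafilter ℤ, (∀ p : ℤ → Prop, (∀ᶠ m in U, p m) →
    ∀ᶠ m in U, ∀ᶠ m' in U, p (m + m')) ∧ (∀ᶠ k : ℤ in U, k ≠ 0) ∧
    ∀ N : ℕ, N ≠ 0 → ∀ᶠ k in U, (N : ℤ) ∣ k := by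
  obtain ⟨U, hU, hpos⟩ := Hindman.exists_idempotent_ultrafilter_le_FS (Stream'.const (1 : ℤ))
  have h1 : ∀ p : ℤ → Prop, (∀ᶠ m in U, p m) → ∀ᶠ m in U, ∀ᶠ m' in U, p (m + m') := by
    intro p hp
    rw [← Ultrafilter.eventually_add, hU]
    exact hp
  refine ⟨U, h1, hpos.mono fun m hm => ?_, fun N hN => ?_⟩
  · have key : ∀ (a : Stream' ℤ) (m : ℤ), m ∈ Hindman.FS a → (∀ i, 0 < a.get i) → 0 < m := by
      intro a m hm
      induction hm with
      | head' a => exact fun h => h 0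
      | tail' a m _ ih => exact fun h => ih fun i => h (i + 1)
      | cons' a m _ ih => exact fun h => add_pos (h 0) (ih fun i => h (i + 1))
    exact (key _ m hm fun i => by simp).ne'
  · have : NeZero N := ⟨hN⟩
    obtain ⟨r, hr⟩ := (U.map fun k : ℤ => (k : ZMod N)).eq_pure_of_finite
    have h2 : ∀ᶠ k : ℤ in U, (k : ZMod N) = r := by
      have : {r} ∈ U.map fun k : ℤ => (k : ZMod N) := by rw [hr]; simp
      exact this
    obtain ⟨m, hm1, hm2⟩ := ((h1 _ h2).and h2).exists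
    obtain ⟨m', hm3, hm4⟩ := (hm1.and h2).exists
    have hr0 : r = 0 := by
      push_cast at hm3
      rw [hm2, hm4] at hm3
      simpa using hm3
    filter_upwards [h2] with k hk
    rwa [hr0, ZMod.intCast_zmod_eq_zero_iff_dvd] at hk

def dd (n : ℤ) : ℤ := 2 ^ (padicValInt 2 n + 1)

lemma val_add {j k : ℤ} (hj : j ≠ 0) (hk : dd j ∣ k) : j + k ≠ 0 ∧ dd (j + k) = dd j := by
  have h1 : ¬ dd j ∣ j + k := by
    intro h
    have h2 := (dvd_add_left hk).1 h
    have := (padicValInt_dvd_iff (p := 2) _ j).1 h2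
    omega
  have h0 : j + k ≠ 0 := fun h => h1 (h ▸ dvd_zero _)
  have h2 : ((2 : ℕ) : ℤ) ^ padicValInt 2 j ∣ j + k :=
    dvd_add (padicValInt_dvd j) ((pow_dvd_pow _ (Nat.le_succ _)).trans hk)
  have h3 := (padicValInt_dvd_iff (p := 2) _ _).1 h2
  have h4 : ¬ (j + k = 0 ∨ padicValInt 2 j + 1 ≤ padicValInt 2 (j + k)) := fun h =>
    h1 ((padicValInt_dvd_iff (p := 2) _ _).2 h)
  refine ⟨h0, ?_⟩
  unfold dd
  congr 1
  omega

def sg (n : ℤ) : ℤ := if n = 0 then 0 else n + dd n

lemma sg_ne {n : ℤ} (hn : n ≠ 0) : sg n ≠ 0 := by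
  rw [sg, if_neg hn]; exact (val_add hn dvd_rfl).1

lemma sg_inj : Function.Injective sg := by
  intro a b h
  by_cases ha : a = 0
  · by_contra hab
    have hb : b ≠ 0 := fun e => hab (ha.trans e.symm)
    apply sg_ne hb
    rw [← h, sg, if_pos ha]
  · have hb : b ≠ 0 := by
      rintro rfl
      apply sg_ne ha
      rw [h, sg, if_pos rfl]
    rw [sg, sg, if_neg ha, if_neg hb] at h
    have h1 := (val_add ha dvd_rfl).2
    have h2 := (val_add hb dvd_rfl).2
    rw [h, h2] at h1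
    rw [h1] at h
    exact add_right_cancel h

abbrev L2 : Type := lp (fun _ : ℤ => ℂ) 2

/-- The negation of the preceding statement: For von Neumann algebras A ⊆ M on a Hilbert space with M ∩ A′ ⊆ A, suppose ψ is a contractive linear idempotent on M whose range is an A-bimodule. Then the range is closed under ½(ab*c + cb*a). -/
theorem result :
    ¬ (∀ (H : Type) [NormedAddCommGroup H] [InnerProductSpace ℂ H] [CompleteSpace H]
      (M A : VonNeumannAlgebra H), A ≤ M →
      (∀ x ∈ M, (∀ a ∈ A, a * x = x * a) → x ∈ A) →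
      ∀ ψ : (H →L[ℂ] H) →ₗ[ℂ] (H →L[ℂ] H),
        (∀ x ∈ M, ψ x ∈ M) →
        (∀ x ∈ M, ‖ψ x‖ ≤ ‖x‖) →
        (∀ x ∈ M, ψ (ψ x) = ψ x) →
        (∀ a ∈ A, ∀ x ∈ M,
          a * ψ x ∈ ψ '' (M : Set (H →L[ℂ] H)) ∧ ψ x * a ∈ ψ '' (M : Set (H →L[ℂ] H))) →
        ∀ x ∈ M, ∀ y ∈ M, ∀ z ∈ M,
          (1 / 2 : ℂ) • (ψ x * star (ψ y) * ψ z + ψ z * star (ψ y) * ψ x)
            ∈ ψ '' (M : Set (H →L[ℂ] H))) := by
  intro hall
  obtain ⟨U, hU1, hU2, hU3⟩ := exists_U
  choose S hS hSn using fun k : ℤ => Pool.Agent.Lib.H3L2W.exists_wcomp (fun _ => 1)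
    (fun n => n + k) (add_left_injective k) 1 zero_le_one (by simp)
  simp only [one_mul] at hS
  obtain ⟨D, hD, -⟩ := Pool.Agent.Lib.H3L2W.exists_wcomp (fun n => if n = 0 then 0 else 1) sg
    sg_inj 1 zero_le_one (fun n => by split_ifs <;> simp)
  have hSS : ∀ k l (f : L2), S k (S l f) = S (k + l) f := by
    intro k l f
    ext n
    rw [hS, hS, hS, add_assoc]
  have hS0 : ∀ f : L2, S 0 f = f := by
    intro f
    ext n
    rw [hS, add_zero]
  have hadj : ∀ k (f g : L2), ⟪S k f, g⟫_ℂ = ⟪f, S (-k) g⟫_ℂ := by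
    intro k f g
    rw [lp.inner_eq_tsum, lp.inner_eq_tsum, ← (Equiv.addRight k).tsum_eq fun n => ⟪f n, S (-k) g n⟫_ℂ]
    simp [hS]
  have hstar : ∀ k, star (S k) = S (-k) := by
    intro k
    rw [ContinuousLinearMap.star_eq_adjoint, eq_comm, ContinuousLinearMap.eq_adjoint_iff]
    intro f g
    rw [hadj, neg_neg]
  obtain ⟨ψ, hψn, hψ⟩ := exists_psi U (fun k => S (-k)) S (fun k => hSn _) hSn
  have hM : ∀ x : L2 →L[ℂ] L2, x ∈ vn (∅ : Set (L2 →L[ℂ] L2)) := fun x => (mem_vn _ _).2 (by simp)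
  have hA : ∀ x : L2 →L[ℂ] L2, x ∈ vn (Set.range S) ↔ ∀ k, S k * x = x * S k := by
    intro x
    rw [mem_vn]
    constructor
    · exact fun h k => (h _ ⟨k, rfl⟩).1
    · rintro h _ ⟨k, rfl⟩
      exact ⟨h k, by rw [hstar]; exact h _⟩
  have hidem : ∀ x, ψ (ψ x) = ψ x := by
    intro x
    ext1 f
    refine ext_inner_right ℂ fun g => tendsto_nhds_unique (hψ (ψ x) f g) ?_
    rw [Metric.tendsto_nhds]
    intro ε hε
    have h1 := Metric.tendsto_nhds.1 (hψ x f g) (ε / 2) (half_pos hε)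
    filter_upwards [hU1 _ h1] with k hk
    have h2 := hψ x (S (-k) f) (S (-k) g)
    rw [hadj]
    refine lt_of_le_of_lt (le_of_tendsto (h2.dist tendsto_const_nhds) ?_) (half_lt_self hε)
    filter_upwards [hk] with l hl
    rw [← hadj, hSS, hSS, ← neg_add, add_comm l k]
    exact hl.le
  have hone : ψ 1 = 1 := by
    ext1 f
    refine ext_inner_right ℂ fun g => tendsto_nhds_unique (hψ 1 f g) ?_
    simp [hSS, hS0]
  have hcoord : ∀ x (f : L2) n, Tendsto (fun k => S k (x (S (-k) f)) n) U (𝓝 (ψ x f n)) := by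
    intro x f n
    have := (Complex.continuous_conj.tendsto _).comp (hψ x f (lp.single 2 n 1))
    simpa [Function.comp_def, lp.inner_single_right] using this
  have hψD : ψ D = D := by
    ext f n
    refine tendsto_nhds_unique (hcoord D f n) ?_
    simp only [hS, hD]
    by_cases hn : n = 0
    · subst hn
      have h1 : Tendsto (fun m => f m) cofinite (𝓝 0) := by
        have h2 := ((memℓp_gen_iff (p := 2) (by norm_num)).1 (lp.memℓp f)).tendsto_cofinite_zero
        simp only [ENNReal.toReal_ofNat, Real.rpow_ofNat] at h2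
        rw [tendsto_zero_iff_norm_tendsto_zero]
        simpa using h2.sqrt
      have h2 : Tendsto dd U cofinite := by
        rw [Tendsto, le_cofinite_iff_eventually_ne]
        intro m
        rw [eventually_map]
        filter_upwards [hU3 (2 ^ m.natAbs) (by positivity), hU2] with k hk hk0 e
        push_cast at hk
        have h3 := ((padicValInt_dvd_iff (p := 2) _ k).1 hk).resolve_left hk0
        have h4 : m.natAbs = 2 ^ (padicValInt 2 k + 1) := by rw [← e, dd]; simp [Int.natAbs_pow]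
        have h5 := Nat.lt_two_pow_self (n := padicValInt 2 k + 1)
        omega
      rw [if_pos rfl, zero_mul]
      refine (h1.comp h2).congr' ?_
      filter_upwards [hU2] with k hk
      simp [sg, hk]
    · refine tendsto_const_nhds.congr' ?_
      filter_upwards [hU3 (2 ^ (padicValInt 2 n + 1)) (by positivity)] with k hk
      push_cast at hk
      obtain ⟨h1, h2⟩ := val_add hn hk
      simp only [sg, if_neg hn, if_neg h1, h2]
      congr 2
      ring
  obtain ⟨u, -, hu⟩ := hall L2 (vn ∅) (vn (Set.range S)) (fun x _ => hM x)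
    (fun x _ h => (hA x).2 fun k => h _ ((hA _).2 fun l => by
      ext1 f
      simp [hSS, add_comm])) ψ (fun x _ => hM _) (fun x _ => hψn x) (fun x _ => hidem x)
    (fun a ha x _ => ⟨⟨a * x, hM _, by
      ext1 f
      refine ext_inner_right ℂ fun g => tendsto_nhds_unique (hψ _ f g) ?_
      have h1 := hψ x f (ContinuousLinearMap.adjoint a g)
      simp only [ContinuousLinearMap.adjoint_inner_right] at h1
      refine h1.congr fun k => ?_
      have := congrArg (fun T : L2 →L[ℂ] L2 => T (x (S (-k) f))) ((hA a).1 ha k)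
      exact congrArg (fun v => ⟪v, g⟫_ℂ) this.symm⟩, ⟨x * a, hM _, by
      ext1 f
      refine ext_inner_right ℂ fun g => tendsto_nhds_unique (hψ _ f g) ?_
      refine (hψ x (a f) g).congr fun k => ?_
      have := congrArg (fun T : L2 →L[ℂ] L2 => T f) ((hA a).1 ha (-k))
      exact congrArg (fun v => ⟪S k (x v), g⟫_ℂ) this⟩⟩) 1 (hM _) D (hM _) D (hM _)
  rw [hone, hψD, one_mul, mul_one] at hu
  obtain ⟨T, hT⟩ : ∃ T, T = (1 / 2 : ℂ) • (star D * D + D * star D) := ⟨_, rfl⟩
  rw [← hT] at hu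
  have hTT : ψ T = T := by rw [← hu, hidem]
  have hq : ∀ f : L2, (⟪T f, f⟫_ℂ).re = (‖D f‖ ^ 2 + ‖ContinuousLinearMap.adjoint D f‖ ^ 2) / 2 := by
    intro f
    have e1 : ⟪(star D * D) f, f⟫_ℂ = ((‖D f‖ ^ 2 : ℝ) : ℂ) := by
      rw [ContinuousLinearMap.star_eq_adjoint]
      change ⟪ContinuousLinearMap.adjoint D (D f), f⟫_ℂ = _
      rw [ContinuousLinearMap.adjoint_inner_left, inner_self_eq_norm_sq_to_K]
      simp
    have e2 : ⟪(D * star D) f, f⟫_ℂ = ((‖ContinuousLinearMap.adjoint D f‖ ^ 2 : ℝ) : ℂ) := by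
      rw [ContinuousLinearMap.star_eq_adjoint]
      change ⟪D (ContinuousLinearMap.adjoint D f), f⟫_ℂ = _
      rw [← ContinuousLinearMap.adjoint_inner_right, inner_self_eq_norm_sq_to_K]
      simp
    rw [hT, _root_.smul_apply, inner_smul_left, _root_.add_apply, inner_add_left, e1, e2]
    simp only [← Complex.ofReal_add, map_div₀, map_one, map_ofNat]
    rw [show (1 / 2 : ℂ) = ((1 / 2 : ℝ) : ℂ) by push_cast; rfl, ← Complex.ofReal_mul,
      Complex.ofReal_re]
    ring
  let e0 : L2 := lp.single 2 0 1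
  have h0 : (⟪T e0, e0⟫_ℂ).re = 0 := by
    have a : D e0 = 0 := by
      ext n
      rw [hD]
      by_cases hn : n = 0
      · simp [hn]
      · simp [e0, lp.single_apply, sg_ne hn]
    have b : ContinuousLinearMap.adjoint D e0 = 0 := by
      refine ext_inner_right ℂ fun g => ?_
      rw [ContinuousLinearMap.adjoint_inner_left, lp.inner_single_left, hD]
      simp
    rw [hq, a, b]
    simp
  have h1 := (Complex.continuous_re.tendsto _).comp (hψ T e0 e0)
  rw [hTT, h0] at h1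
  have h2 : (1 / 2 : ℝ) ≤ 0 := by
    refine ge_of_tendsto h1 ?_
    filter_upwards [hU2] with k hk
    simp only [Function.comp_apply]
    rw [hadj, hq]
    have e : S (-k) e0 = lp.single 2 k 1 := by
      ext n
      rw [hS]
      simp [e0, lp.single_apply, Pi.single_apply, add_neg_eq_zero]
    have h3 : ⟪ContinuousLinearMap.adjoint D (lp.single 2 k 1 : L2),
        (lp.single 2 (sg k) 1 : L2)⟫_ℂ = 1 := by
      rw [ContinuousLinearMap.adjoint_inner_left, lp.inner_single_left, hD]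
      simp [hk]
    have h4 := norm_inner_le_norm (𝕜 := ℂ) (ContinuousLinearMap.adjoint D (lp.single 2 k 1 : L2))
      (lp.single 2 (sg k) 1 : L2)
    rw [h3, lp.norm_single (by norm_num)] at h4
    simp only [norm_one, mul_one] at h4
    rw [e]
    nlinarith [sq_nonneg ‖D (lp.single 2 k 1 : L2)‖]
  linarith

end Pool.Agent.S06672
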