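import Pool.Statements.S06673
import Pool.Agent.Lib.helper5.GJ3

set_option autoImplicit false
open Filter Topology
open Pool Pool.MP_f24657_an

namespace Pool.Agent.S06673

/-- The long James space J(ω₁) of continuous functions on [0,ω₁] vanishing at ω₁ with finite square variation admits an equivalent norm having two-sided directional derivatives at every nonzero point in every direction. -/
theorem result :
    ∀ ω : Ordinal.{0}, ω = Cardinal.ord (Cardinal.aleph.{0} 1) →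
    ∀ V : ((↥(Set.Iic ω)) → ℝ) → Set ℝ,
      V = (fun f => {s : ℝ | ∃ n : ℕ, ∃ α : Fin (n + 1) → ↥(Set.Iic ω),
            StrictMono α ∧
            s = ∑ i : Fin n, (f (α i.succ) - f (α i.castSucc)) ^ 2}) →
    ∀ J : Set ((↥(Set.Iic ω)) → ℝ),
      J = {f | Continuous f ∧ f ⟨ω, Set.mem_Iic.mpr (le_refl ω)⟩ = 0 ∧ BddAbove (V f)} →
    ∃ p : ((↥(Set.Iic ω)) → ℝ) → ℝ,
      (∀ f g, f ∈ J → g ∈ J → p (f + g) ≤ p f + p g) ∧
      (∀ (a : ℝ) f, f ∈ J → p (a • f) = |a| * p f) ∧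
      (∃ c C : ℝ, 0 < c ∧ 0 < C ∧ ∀ f, f ∈ J →
          c * Real.sqrt (sSup (V f)) ≤ p f ∧ p f ≤ C * Real.sqrt (sSup (V f))) ∧
      (∀ f, f ∈ J → f ≠ 0 → ∀ h, h ∈ J → ∃ d : ℝ,
          Tendsto (fun t : ℝ => (p (f + t • h) - p f) / t) (𝓝[≠] 0) (𝓝 d)) := by
  rintro ω - _ rfl _ rfl
  obtain ⟨n, hn⟩ := H5G.exNx (W := Set.Iic ω)
  exact ⟨H5G.p n, fun f g h k => H5G.p_add hn (H5G.ctl h.2.2) (H5G.ctl k.2.2),
    fun a f h => H5G.p_smul hn (H5G.ctl h.2.2) a, ⟨1, 32, one_pos, by norm_num, fun f h =>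
      ⟨(one_mul _).trans_le (H5G.low hn h.2.2), H5G.p_up hn (H5G.ctl h.2.2)⟩⟩,
    fun f h f0 g k => H5G.gat hn (H5G.ctl h.2.2) h.1 h.2.1 f0 (H5G.ctl k.2.2) k.1 k.2.1⟩

end Pool.Agent.S06673
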