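import Pool.Statements.S06686
import Pool.Agent.Lib.helper28.WkC

set_option autoImplicit false
open Pool Pool.MP_f33f0c_an

namespace Pool.Agent.S06686

/-- The negation of the preceding statement: For p>2, every Fourier multiplier operator on the circle that satisfies a weak-type (p,p) bound on trigonometric polynomials also satisfies a strong-type (p,p) bound on them. -/
theorem result :
    ¬ (∀ p : ℝ, 2 < p → ∀ m : ℤ → ℂ,
      (∃ C : ℝ, ∀ (S : Finset ℤ) (c : ℤ → ℂ) (t : ℝ), 0 < t →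
        MeasureTheory.volume {x : ℝ | x ∈ Set.Icc (0:ℝ) 1 ∧
            t < ‖∑ n ∈ S, m n * c n *
              Complex.exp (2 * (Real.pi : ℂ) * Complex.I * (n : ℂ) * (x : ℂ))‖}
          ≤ ENNReal.ofReal (C * (∫ x in (0:ℝ)..1,
              ‖∑ n ∈ S, c n *
                Complex.exp (2 * (Real.pi : ℂ) * Complex.I * (n : ℂ) * (x : ℂ))‖ ^ p) / t ^ p)) →
      (∃ C : ℝ, ∀ (S : Finset ℤ) (c : ℤ → ℂ),
        (∫ x in (0:ℝ)..1,
            ‖∑ n ∈ S, m n * c n *
              Complex.exp (2 * (Real.pi : ℂ) * Complex.I * (n : ℂ) * (x : ℂ))‖ ^ p)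
          ≤ C * ∫ x in (0:ℝ)..1,
            ‖∑ n ∈ S, c n *
              Complex.exp (2 * (Real.pi : ℂ) * Complex.I * (n : ℂ) * (x : ℂ))‖ ^ p)) := by
  intro h
  obtain ⟨m, hm, hC⟩ := Pool.Agent.H28Wk.final
  have e4 : ∀ x : ℝ, x ^ (4:ℝ) = x ^ (4:ℕ) := fun x => by
    rw [← Real.rpow_natCast]; norm_num
  obtain ⟨C, hC'⟩ := h 4 (by norm_num) m ⟨1, fun S c t ht => by
    simp only [e4]
    exact hm S c t ht⟩
  obtain ⟨S, c, h1⟩ := hC C
  have h2 := hC' S c
  simp only [e4] at h2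
  exact absurd h1 (not_lt.2 h2)

end Pool.Agent.S06686
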