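import Pool.Statements.S06702
import Pool.Agent.Lib.helper23.DetE

set_option autoImplicit false
open Pool Pool.MP_f44585_an

namespace Pool.Agent.S06702

/-- The negation of the preceding statement: For every base r≥2 there is an irrational b such that whenever the base-r digits of y have zero entropy along every limiting block-frequency distribution (deterministic), so do the digits of b·y. -/
theorem result :
    ¬ (∀ D : ℕ → ℝ → Prop,
    (∀ (r : ℕ) (y : ℝ), D r y ↔
      ∀ ε : ℝ, 0 < ε → ∃ k : ℕ, 1 ≤ k ∧ ∃ N₀ : ℕ, ∀ N : ℕ, N₀ ≤ N →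
        ∑ w : Fin k → Fin r,
          Real.negMulLog
            ((((Finset.range N).filter (fun n => ∀ i : Fin k,
                ⌊y * (r : ℝ) ^ (n + (i : ℕ) + 1)⌋ - (r : ℤ) * ⌊y * (r : ℝ) ^ (n + (i : ℕ))⌋
                  = ((w i : ℕ) : ℤ))).card : ℝ) / (N : ℝ))
          ≤ ε * (k : ℝ)) →
    ∀ r : ℕ, 2 ≤ r → ∃ b : ℝ, Irrational b ∧ ∀ y : ℝ, D r y → D r (b * y)) := by
  intro H
  obtain ⟨b, hb, H2⟩ := H _ (fun r y => Iff.rfl) 2 le_rfl
  obtain ⟨y, _, h1, h2⟩ := Pool.Agent.Lib.helper23.DetE.mul_main 2 le_rfl b hb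
  have H3 := H2 y ?_
  · have hl : 0 < Real.log ((2 : ℕ) : ℝ) := Real.log_pos (by norm_num)
    obtain ⟨k, hk, N0, hN⟩ := H3 (Real.log ((2 : ℕ) : ℝ) / 2) (by positivity)
    have hev := (Pool.Agent.Lib.helper23.DetA.entropy_of_weyl 2 (by norm_num) _ h2 k).eventually
        (lt_mem_nhds (show Real.log ((2 : ℕ) : ℝ) / 2 * k < k * Real.log ((2 : ℕ) : ℝ) by
          have : (1 : ℝ) ≤ k := by exact_mod_cast hk
          have h5 := mul_pos hl (show (0 : ℝ) < k by linarith)
          generalize Real.log ((2 : ℕ) : ℝ) = L at h5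
          linarith))
    obtain ⟨N, hN1, hN2⟩ := (hev.and (Filter.eventually_ge_atTop N0)).exists
    have hk3 := hN N hN2
    simp only [Pool.Agent.Lib.helper23.DetE.digit_sub 2 le_rfl] at hk3
    exact absurd hN1 (not_lt.2 hk3)
  · intro ε hε
    have h3 := Pool.Agent.Lib.helper23.DetA.entropy_of_sparse 2 _ h1
    obtain ⟨N0, hN0⟩ := Filter.eventually_atTop.1 (h3.eventually (gt_mem_nhds hε))
    refine ⟨1, le_rfl, N0, fun N hN => ?_⟩
    simp only [Pool.Agent.Lib.helper23.DetE.digit_sub 2 le_rfl]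
    rw [Nat.cast_one, mul_one]
    exact (hN0 N hN).le

end Pool.Agent.S06702
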