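import Pool.Statements.S06714
import Pool.Agent.Lib.helper15.MS2

set_option autoImplicit false
open Pool Pool.MP_f4a1d1_an

namespace Pool.Agent.S06714



/-- The negation of the preceding statement: For all real Banach spaces X, Y and every bijection U from X to Y that preserves distances on some ball around each point, U preserves all distances (is an isometry). -/
theorem result :
    ¬ (∀ (X Y : Type) [NormedAddCommGroup X] [NormedSpace ℝ X] [CompleteSpace X]
      [NormedAddCommGroup Y] [NormedSpace ℝ Y] [CompleteSpace Y] (U : X → Y),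
      Function.Bijective U →
      (∀ x₀ : X, ∃ r : ℝ, 0 < r ∧ ∀ x ∈ Metric.ball x₀ r, ∀ y ∈ Metric.ball x₀ r,
        dist (U x) (U y) = dist x y) →
      Isometry U) := by
  intro h
  obtain ⟨Y, hY, V, h1, h2, h3⟩ := Pool.Agent.Lib.helper15.MS.main
  have := hY.completeSpace_coe
  refine h3 (h _ Y V h1 fun x₀ => ⟨1 / 4, by norm_num, fun x hx y hy => h2 x y ?_⟩)
  rw [← dist_eq_norm]
  have := dist_triangle_right x y x₀
  rw [Metric.mem_ball] at hx hy
  linarith

end Pool.Agent.S06714
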