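import Pool.Statements.S06742

set_option autoImplicit false
open Pool Pool.MP_f70052_an

namespace Pool.Agent.S06742

open Matrix Polynomial

noncomputable section

section smooth
variable {E : Type} [NormedAddCommGroup E] [NormedSpace ℝ E] {σ : Type} [Fintype σ] [DecidableEq σ]

def Sm (f : E → Matrix σ σ ℂ) : Prop := ∀ a b, ContDiff ℝ 1 fun θ => f θ a b

omit [DecidableEq σ] in
lemma Sm.mul {f g : E → Matrix σ σ ℂ} (hf : Sm f) (hg : Sm g) : Sm fun θ => f θ * g θ :=
  fun a b => by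
    simp only [Matrix.mul_apply]
    exact ContDiff.sum fun c _ => (hf a c).mul (hg c b)

omit [Fintype σ] [DecidableEq σ] in
lemma Sm.add {f g : E → Matrix σ σ ℂ} (hf : Sm f) (hg : Sm g) : Sm fun θ => f θ + g θ :=
  fun a b => (hf a b).add (hg a b)

omit [Fintype σ] [DecidableEq σ] in
lemma Sm.sub {f g : E → Matrix σ σ ℂ} (hf : Sm f) (hg : Sm g) : Sm fun θ => f θ - g θ :=
  fun a b => (hf a b).sub (hg a b)

omit [Fintype σ] [DecidableEq σ] in
lemma Sm.smul {c : E → ℂ} {g : E → Matrix σ σ ℂ} (hc : ContDiff ℝ 1 c) (hg : Sm g) :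
    Sm fun θ => c θ • g θ := fun a b => hc.mul (hg a b)

omit [Fintype σ] [DecidableEq σ] in
lemma Sm.conj {g : E → Matrix σ σ ℂ} (hg : Sm g) : Sm fun θ => (g θ)ᴴ :=
  fun a b => Complex.conjCLE.contDiff.comp (hg b a)

lemma Sm.pow {f : E → Matrix σ σ ℂ} (hf : Sm f) (n : ℕ) : Sm fun θ => f θ ^ n := by
  induction n with
  | zero => exact fun a b => contDiff_const
  | succ n ih => simp only [pow_succ]; exact ih.mul hf

lemma Sm.aeval {f : E → Matrix σ σ ℂ} (hf : Sm f) (p : ℂ[X]) : Sm fun θ => aeval (f θ) p := by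
  induction p using Polynomial.induction_on' with
  | add p q hp hq => simp only [map_add]; exact hp.add hq
  | monomial n c =>
    simp only [aeval_monomial, ← Algebra.smul_def]
    exact Sm.smul contDiff_const (hf.pow n)

lemma Sm.adj {f : E → Matrix σ σ ℂ} (hf : Sm f) : Sm fun θ => adjugate (f θ) := fun a b => by
  simp only [adjugate_apply, det_apply', updateRow_apply]
  refine ContDiff.sum fun s _ => contDiff_const.mul (contDiff_prod fun i _ => ?_)
  split_ifs
  exacts [contDiff_const, hf _ _]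

omit [DecidableEq σ] in
lemma Sm.trace {f : E → Matrix σ σ ℂ} (hf : Sm f) : ContDiff ℝ 1 fun θ => (trace (f θ)).re :=
  Complex.reCLM.contDiff.comp (ContDiff.sum fun c _ => hf c c)

end smooth

def inv {σ : Type} [Fintype σ] [DecidableEq σ] (p q : ℂ[X]) (X Y : Matrix σ σ ℂ) : ℝ :=
  (trace (aeval (X + Y) p * (X - Y) * aeval (X + Y) q * (X - Y))).re

lemma inv_conj {ι σ : Type} [Fintype ι] [DecidableEq ι] [Fintype σ] [DecidableEq σ]
    (R : Matrix σ ι ℂ) (S : Matrix ι σ ℂ) (h1 : R * S = 1) (h2 : S * R = 1) (p q : ℂ[X])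
    (X Y : Matrix ι ι ℂ) : inv p q (R * X * S) (R * Y * S) = inv p q X Y := by
  let φ : Matrix ι ι ℂ →ₐ[ℂ] Matrix σ σ ℂ :=
    { toFun := fun Z => R * Z * S
      map_one' := by rw [Matrix.mul_one, h1]
      map_mul' := fun Z W => by
        simp only [Matrix.mul_assoc]
        rw [← Matrix.mul_assoc S R, h2, Matrix.one_mul]
      map_zero' := by simp
      map_add' := fun Z W => by rw [Matrix.mul_add, Matrix.add_mul]
      commutes' := fun c => by
        simp only [Algebra.algebraMap_eq_smul_one, Matrix.mul_smul, Matrix.smul_mul,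
          Matrix.mul_one, h1] }
  have hφ : ∀ Z, trace (φ Z) = trace Z := fun Z => by
    change trace (R * Z * S) = _
    rw [Matrix.trace_mul_cycle, h2, Matrix.one_mul]
  change inv p q (φ X) (φ Y) = _
  simp only [inv, ← map_add, ← map_sub, aeval_algHom_apply, ← map_mul, hφ]

def toep {r : ℕ} (m : Fin r → ℕ) (u v : (Σ i : Fin r, Fin (m i)) → ℂ) :
    Matrix (Σ i : Fin r, Fin (m i)) (Σ i : Fin r, Fin (m i)) ℂ :=
  blockDiagonal' fun i => of fun j k : Fin (m i) =>
    if j ≤ k then u ⟨i, ⟨k - j, by omega⟩⟩ else v ⟨i, ⟨j - k, by omega⟩⟩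

lemma exists_toep {r : ℕ} (m : Fin r → ℕ) (c : Fin r → ℂ → ℂ) : ∃ u v,
    (blockDiagonal' fun i => of fun j k : Fin (m i) => c i (((k : ℕ) : ℂ) - ((j : ℕ) : ℂ))) =
      toep m u v := by
  refine ⟨fun x => c x.1 (x.2 : ℕ), fun x => c x.1 (-(x.2 : ℕ)), ?_⟩
  unfold toep
  congr 1
  ext i j k
  simp only [of_apply]
  split_ifs with h
  · rw [Nat.cast_sub h]
  · rw [Nat.cast_sub (by omega), neg_sub]

abbrev Par {r : ℕ} (m : Fin r → ℕ) := Option (Fin 4 × Σ i : Fin r, Fin (m i)) → ℂ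

def tp {r : ℕ} (m : Fin r → ℕ) (a b : Fin 4) (θ : Par m) :=
  toep m (fun x => θ (some (a, x))) fun x => θ (some (b, x))

lemma sm_tp {r : ℕ} (m : Fin r → ℕ) (a b : Fin 4) : Sm (tp m a b) := by
  rintro ⟨i, j⟩ ⟨i', k⟩
  by_cases h : i = i'
  · subst h
    simp only [tp, toep, blockDiagonal'_apply_eq, of_apply]
    split_ifs <;> fun_prop
  · simp only [tp, toep, blockDiagonal'_apply_ne _ _ _ h]
    exact contDiff_const

def Phi {r : ℕ} (m : Fin r → ℕ) {κ : Type} (p q : κ → ℂ[X]) (θ : Par m) (k : κ) : ℝ :=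
  inv (p k) (q k) ((θ none • adjugate (tp m 0 1 θ)) * tp m 2 3 θ)
    ((θ none • adjugate (tp m 0 1 θ)) * (tp m 2 3 θ)ᴴ)

lemma sm_Phi {r : ℕ} (m : Fin r → ℕ) {κ : Type} [Fintype κ] (p q : κ → ℂ[X]) :
    ContDiff ℝ 1 (Phi m p q) := by
  rw [contDiff_pi]
  intro k
  have h0 : Sm fun θ : Par m => θ none • adjugate (tp m 0 1 θ) :=
    Sm.smul (by fun_prop) (sm_tp m 0 1).adj
  have h1 := h0.mul (sm_tp m 2 3)
  have h2 := h0.mul (sm_tp m 2 3).conj
  exact (((((h1.add h2).aeval (p k)).mul (h1.sub h2)).mul ((h1.add h2).aeval (q k))).mul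
    (h1.sub h2)).trace

lemma mem_Phi {r : ℕ} (m : Fin r → ℕ) {κ ι : Type} [Fintype ι] [DecidableEq ι] (p q : κ → ℂ[X])
    (T : Matrix ι ι ℂ) (S : Matrix ι (Σ i : Fin r, Fin (m i)) ℂ)
    (hc : Fintype.card ι = Fintype.card (Σ i : Fin r, Fin (m i))) (u v u' v')
    (h1 : Sᴴ * S = toep m u v) (h2 : Sᴴ * T * S = toep m u' v') (hd : (toep m u v).det ≠ 0) :
    (fun k => inv (p k) (q k) T Tᴴ) ∈ Set.range (Phi m p q) := by
  let θ : Par m := fun o => o.elim (toep m u v).det⁻¹ fun x => ![u, v, u', v'] x.1 x.2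
  have e1 : tp m 0 1 θ = toep m u v := rfl
  have e2 : tp m 2 3 θ = toep m u' v' := rfl
  have e3 : θ none = (toep m u v).det⁻¹ := rfl
  set R := (θ none • adjugate (tp m 0 1 θ)) * Sᴴ with hR
  have h3 : R * S = 1 := by
    rw [hR, Matrix.mul_assoc, h1, e1, e3, Matrix.smul_mul, adjugate_mul, smul_smul,
      inv_mul_cancel₀ hd, one_smul]
  have h4 : S * R = 1 := (Matrix.mul_eq_one_comm_of_equiv (Fintype.equivOfCardEq hc).symm).1 h3
  refine ⟨θ, funext fun k => ?_⟩
  rw [← inv_conj R S h3 h4, Phi, e2, ← h2, hR]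
  simp only [Matrix.mul_assoc, conjTranspose_mul, conjTranspose_conjTranspose]

lemma gram_det {m : ℕ} (w : ℝ → ℝ) (hw : Continuous w) (hw0 : ∀ t, 0 < w t) :
    (of fun j k : Fin m => ∫ t in (0:ℝ)..(2 * Real.pi),
      Complex.exp ((((k : ℕ) : ℂ) - ((j : ℕ) : ℂ)) * (t : ℂ) * Complex.I) / (w t : ℂ)).det ≠ 0 := by
  intro h
  obtain ⟨v, hv, h0⟩ := Matrix.exists_mulVec_eq_zero_iff.2 h
  let P : ℂ[X] := ∑ k : Fin m, C (v k) * X ^ (k : ℕ)
  have hP : ∀ t : ℝ, P.eval (Complex.exp (t * Complex.I)) =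
      ∑ k : Fin m, v k * Complex.exp ((k : ℕ) * t * Complex.I) := fun t => by
    simp only [P, eval_finsetSum, eval_mul, eval_C, eval_pow, eval_X, ← Complex.exp_nat_mul,
      mul_assoc]
  have hw1 : ∀ t, (w t : ℂ) ≠ 0 := fun t => by exact_mod_cast (hw0 t).ne'
  have hc : ∀ j k : Fin m, Continuous fun t : ℝ => (starRingEnd ℂ) (v j) *
      (Complex.exp ((((k : ℕ) : ℂ) - ((j : ℕ) : ℂ)) * (t : ℂ) * Complex.I) / (w t : ℂ) * v k) :=
    fun j k => continuous_const.mul ((Continuous.div (by fun_prop) (by fun_prop) hw1).mul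
      continuous_const)
  have h1 : ∫ t in (0:ℝ)..(2 * Real.pi),
      ((Complex.normSq (P.eval (Complex.exp (t * Complex.I))) / w t : ℝ) : ℂ) = 0 := by
    have e : ∀ t : ℝ, ((Complex.normSq (P.eval (Complex.exp (t * Complex.I))) / w t : ℝ) : ℂ) =
        ∑ j : Fin m, ∑ k : Fin m, (starRingEnd ℂ) (v j) *
          (Complex.exp ((((k : ℕ) : ℂ) - ((j : ℕ) : ℂ)) * (t : ℂ) * Complex.I) / (w t : ℂ) * v k) := by
      intro t
      rw [Complex.ofReal_div, Complex.normSq_eq_conj_mul_self, hP, map_sum, Finset.sum_mul_sum,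
        Finset.sum_div]
      refine Finset.sum_congr rfl fun j _ => ?_
      rw [Finset.sum_div]
      refine Finset.sum_congr rfl fun k _ => ?_
      have : Complex.exp ((((k : ℕ) : ℂ) - ((j : ℕ) : ℂ)) * (t : ℂ) * Complex.I) =
          (starRingEnd ℂ) (Complex.exp ((j : ℕ) * t * Complex.I)) *
            Complex.exp ((k : ℕ) * t * Complex.I) := by
        rw [← Complex.exp_conj, ← Complex.exp_add]
        congr 1
        simp only [map_mul, map_natCast, Complex.conj_ofReal, Complex.conj_I]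
        ring
      rw [this, map_mul]
      ring
    simp only [e]
    rw [intervalIntegral.integral_finsetSum fun j _ =>
      (continuous_finsetSum _ fun k _ => hc j k).intervalIntegrable _ _]
    refine Finset.sum_eq_zero fun j _ => ?_
    rw [intervalIntegral.integral_finsetSum fun k _ => (hc j k).intervalIntegrable _ _]
    simp only [intervalIntegral.integral_const_mul, intervalIntegral.integral_mul_const]
    rw [← Finset.mul_sum]
    have := congrFun h0 j
    simp only [mulVec, dotProduct, of_apply, Pi.zero_apply] at this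
    rw [this, mul_zero]
  rw [intervalIntegral.integral_ofReal, Complex.ofReal_eq_zero] at h1
  have h2 : ∀ t ∈ Set.Icc (0 : ℝ) (2 * Real.pi), P.eval (Complex.exp (t * Complex.I)) = 0 := by
    intro t ht
    by_contra h3
    refine (intervalIntegral.integral_pos
      (f := fun x : ℝ => Complex.normSq (P.eval (Complex.exp (x * Complex.I))) / w x)
      (by positivity) (Continuous.continuousOn ?_)
      (fun x _ => div_nonneg (Complex.normSq_nonneg _) (hw0 x).le)
      ⟨t, ht, div_pos (Complex.normSq_pos.2 h3) (hw0 t)⟩).ne' h1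
    exact (Complex.continuous_normSq.comp (P.continuous.comp (by fun_prop))).div hw
      fun x => (hw0 x).ne'
  have h4 : P = 0 := by
    refine Polynomial.eq_zero_of_infinite_isRoot P
      ((Set.infinite_of_injOn_mapsTo (f := fun t : ℝ => Complex.exp (t * Complex.I))
        (s := Set.Icc 0 Real.pi) (fun s hs t ht hst => ?_)
        (fun t ht => h2 t ⟨ht.1, by linarith [ht.2, Real.pi_pos]⟩) (Set.Icc_infinite Real.pi_pos)))
    have := congrArg Complex.re hst
    simp only [Complex.exp_ofReal_mul_I_re] at this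
    exact Real.injOn_cos hs ht this
  refine hv (funext fun j => ?_)
  have := congrArg (fun p : ℂ[X] => p.coeff j) h4
  simpa [P, finsetSum_coeff, Fin.val_inj] using this

lemma block_det {r : ℕ} (m : Fin r → ℕ) (M : ∀ i, Matrix (Fin (m i)) (Fin (m i)) ℂ)
    (h : ∀ i, (M i).det ≠ 0) : (blockDiagonal' M).det ≠ 0 := by
  refine det_ne_zero_of_right_inverse (B := blockDiagonal' fun i => (M i)⁻¹) ?_
  rw [← blockDiagonal'_mul, ← blockDiagonal'_one]
  congr 1
  funext i
  exact Matrix.mul_nonsing_inv _ (Ne.isUnit (h i))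

lemma inv_val {n : ℕ} (K : Fin n → Fin n → ℝ) (hK : ∀ a b, K a b = K b a) (j k : Fin n) :
    let A : Matrix (Fin n) (Fin n) ℂ :=
      diagonal (fun a : Fin _ => ((a : ℕ) : ℂ)) + Complex.I • of fun a b => (K a b : ℂ)
    inv (Lagrange.basis Finset.univ (fun a : Fin n => 2 * ((a : ℕ) : ℂ)) j)
      (Lagrange.basis Finset.univ (fun a : Fin n => 2 * ((a : ℕ) : ℂ)) k)
      (fromBlocks A 0 0 Aᵀ) (fromBlocks A 0 0 Aᵀ)ᴴ = -8 * K j k ^ 2 := by
  intro A
  have hv : Function.Injective fun a : Fin n => 2 * ((a : ℕ) : ℂ) := fun a b h => by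
    simpa [Fin.val_inj] using h
  have h1 : fromBlocks A 0 0 Aᵀ + (fromBlocks A 0 0 Aᵀ)ᴴ =
      diagonal fun x => 2 * ((x.elim id id : Fin n) : ℂ) := by
    ext x y
    rcases x with a | a <;> rcases y with b | b <;> simp [A, diagonal_apply, hK a b] <;>
      by_cases h : a = b <;> simp [h, eq_comm (a := b)] <;> ring
  have h2 : fromBlocks A 0 0 Aᵀ - (fromBlocks A 0 0 Aᵀ)ᴴ =
      fromBlocks (of fun a b => 2 * Complex.I * K a b) 0 0 (of fun a b => 2 * Complex.I * K a b) := by
    ext x y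
    rcases x with a | a <;> rcases y with b | b <;> simp [A, diagonal_apply, hK a b] <;>
      by_cases h : a = b <;> simp [h, eq_comm (a := b)] <;> ring
  have h3 : ∀ j : Fin n, aeval (diagonal fun x : Fin n ⊕ Fin n => 2 * ((x.elim id id : Fin n) : ℂ))
      (Lagrange.basis Finset.univ (fun a : Fin n => 2 * ((a : ℕ) : ℂ)) j) =
      diagonal fun x => if x.elim id id = j then 1 else 0 := by
    intro j
    refine (aeval_algHom_apply (diagonalAlgHom (n := Fin n ⊕ Fin n) (α := ℂ) ℂ) _ _).trans ?_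
    rw [diagonalAlgHom_apply]
    congr 1
    funext x
    rw [aeval_fn_apply, coe_aeval_eq_eval]
    split_ifs with h
    · rw [h]; exact Lagrange.eval_basis_self hv.injOn (Finset.mem_univ j)
    · exact Lagrange.eval_basis_of_ne (v := fun a : Fin n => 2 * ((a : ℕ) : ℂ)) (Ne.symm h)
        (Finset.mem_univ _)
  rw [inv, h1, h2, h3, h3, Matrix.mul_assoc, Matrix.mul_assoc, ← Matrix.mul_assoc _ _ (_ * _)]
  simp only [trace, diag_apply, Matrix.mul_apply (M := diagonal _ * _), diagonal_mul,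
    Fintype.sum_sum_type]
  simp [hK k j]
  ring

end

/-- The negation of the preceding statement: For every complex n×n matrix A, A ⊕ Aᵀ is unitarily equivalent to a direct sum of truncated Toeplitz operators with continuous symbols on model spaces of finite Blaschke products, written in the basis z^j/∏(1−conj(a)z). -/
theorem result :
    ¬ (∀ (n : ℕ) (A : Matrix (Fin n) (Fin n) ℂ),
    ∃ (r : ℕ) (m : Fin r → ℕ) (a : (i : Fin r) → Fin (m i) → ℂ) (φ : Fin r → ℝ → ℂ)
      (S : Matrix (Fin n ⊕ Fin n) (Σ i : Fin r, Fin (m i)) ℂ),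
      ∑ i, m i = 2 * n ∧
      (∀ i j, ‖a i j‖ < 1) ∧
      (∀ i, Continuous (φ i)) ∧
      Matrix.conjTranspose S * S = Matrix.blockDiagonal' (fun i => Matrix.of (fun (j k : Fin (m i)) =>
          ∫ t in (0:ℝ)..(2 * Real.pi),
            Complex.exp ((((k : ℕ) : ℂ) - ((j : ℕ) : ℂ)) * (t : ℂ) * Complex.I) /
              ((Complex.normSq (∏ l : Fin (m i),
                  (1 - starRingEnd ℂ (a i l) * Complex.exp ((t : ℂ) * Complex.I))) : ℝ) : ℂ))) ∧
      Matrix.conjTranspose S * Matrix.fromBlocks A 0 0 (Matrix.transpose A) * S =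
        Matrix.blockDiagonal' (fun i => Matrix.of (fun (j k : Fin (m i)) =>
          ∫ t in (0:ℝ)..(2 * Real.pi),
            φ i t * Complex.exp ((((k : ℕ) : ℂ) - ((j : ℕ) : ℂ)) * (t : ℂ) * Complex.I) /
              ((Complex.normSq (∏ l : Fin (m i),
                  (1 - starRingEnd ℂ (a i l) * Complex.exp ((t : ℂ) * Complex.I))) : ℝ) : ℂ)))) := by
  intro h
  obtain ⟨N, hN⟩ : ∃ N : ℕ, 32 * N + 2 < N * N := ⟨33, by norm_num⟩
  let L := fun j : Fin (N + N) =>
    Lagrange.basis Finset.univ (fun a : Fin (N + N) => 2 * ((a : ℕ) : ℂ)) j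
  let p : Fin N × Fin N → ℂ[X] := fun x => L (finSumFinEquiv (Sum.inl x.1))
  let q : Fin N × Fin N → ℂ[X] := fun x => L (finSumFinEquiv (Sum.inr x.2))
  have hd : dimH (⋃ c ∈ {c : Σ r : ℕ, Fin r → ℕ | ∑ i, c.2 i = 2 * (N + N)},
      Set.range (Phi c.2 p q)) < Module.finrank ℝ (Fin N × Fin N → ℝ) := by
    rw [dimH_bUnion (Set.to_countable _)]
    refine lt_of_le_of_lt (b := ((32 * N + 2 : ℕ) : ENNReal))
      (iSup₂_le fun c hc => (sm_Phi c.2 p q).dimH_range_le.trans (le_of_eq ?_)) ?_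
    · have hc' : ∑ i, c.2 i = 2 * (N + N) := hc
      rw [Module.finrank_pi_fintype]
      simp [Complex.finrank_real_complex, hc']
      ring
    · rw [Module.finrank_fintype_fun_eq_card, Fintype.card_prod, Fintype.card_fin]
      exact_mod_cast hN
  obtain ⟨z, hz, hz0⟩ := (dense_compl_of_dimH_lt_finrank hd).exists_mem_open
    (U := {z | ∀ x, z x < 0}) (by
      rw [Set.ofPred_forall]
      exact isOpen_iInter_of_finite fun x => isOpen_lt (continuous_apply x) continuous_const)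
    ⟨fun _ => -1, fun _ => by norm_num⟩
  let B : Matrix (Fin N) (Fin N) ℝ := of fun j k => √(-z (j, k) / 8)
  let K : Fin (N + N) → Fin (N + N) → ℝ := fun a b =>
    fromBlocks 0 B Bᵀ 0 (finSumFinEquiv.symm a) (finSumFinEquiv.symm b)
  have hK : ∀ a b, K a b = K b a := fun a b => by
    simp only [K]
    rcases finSumFinEquiv.symm a with a | a <;> rcases finSumFinEquiv.symm b with b | b <;> simp
  obtain ⟨r, m, a, φ, S, h1, h2, -, h4, h5⟩ := h (N + N)
    (diagonal (fun a : Fin _ => ((a : ℕ) : ℂ)) + Complex.I • of fun a b => (K a b : ℂ))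
  have hdet := block_det m _ fun i => gram_det (m := m i) (fun t => Complex.normSq (∏ l : Fin (m i),
      (1 - starRingEnd ℂ (a i l) * Complex.exp ((t : ℂ) * Complex.I))))
    (Complex.continuous_normSq.comp (by fun_prop)) fun t => Complex.normSq_pos.2
      (Finset.prod_ne_zero_iff.2 fun l _ => sub_ne_zero.2 fun h => by
        have := congrArg norm h
        rw [norm_mul, Complex.norm_exp_ofReal_mul_I, Complex.norm_conj, norm_one] at this
        linarith [h2 i l])
  obtain ⟨u, v, huv⟩ := exists_toep m fun i c => ∫ t in (0:ℝ)..(2 * Real.pi),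
    Complex.exp (c * (t : ℂ) * Complex.I) / ((Complex.normSq (∏ l : Fin (m i),
      (1 - starRingEnd ℂ (a i l) * Complex.exp ((t : ℂ) * Complex.I))) : ℝ) : ℂ)
  obtain ⟨u', v', huv'⟩ := exists_toep m fun i c => ∫ t in (0:ℝ)..(2 * Real.pi),
    φ i t * Complex.exp (c * (t : ℂ) * Complex.I) / ((Complex.normSq (∏ l : Fin (m i),
      (1 - starRingEnd ℂ (a i l) * Complex.exp ((t : ℂ) * Complex.I))) : ℝ) : ℂ)
  have h6 := mem_Phi m p q _ S (by simp [h1, two_mul]) u v u' v' (h4.trans huv) (h5.trans huv')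
    (huv ▸ hdet)
  refine hz (Set.mem_biUnion (x := ⟨r, m⟩) h1 ?_)
  have e : z = fun x => -8 * K (finSumFinEquiv (Sum.inl x.1)) (finSumFinEquiv (Sum.inr x.2)) ^ 2 := by
    funext x
    have := hz0 x
    simp only [K, B, Equiv.symm_apply_apply, fromBlocks_apply₁₂, of_apply]
    rw [Real.sq_sqrt (by linarith)]
    ring
  rw [e]
  simpa only [p, q, L, inv_val K hK] using h6

end Pool.Agent.S06742
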