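import Pool.Statements.S06827
import Pool.Agent.Lib.helper31.Mycielski

set_option autoImplicit false
open Pool Pool.MP_fd6048_an

namespace Pool.Agent.S06827

open Set Filter Topology Polynomial Pool.Agent.Lib.helper31.Myc

lemma card_le {X : Type} [TopologicalSpace X] [T1Space X] [SecondCountableTopology X] :
    Cardinal.mk X ≤ Cardinal.continuum := by
  have inj : Function.Injective fun (x : X) => {U : TopologicalSpace.countableBasis X | x ∈ U.1} := by
    intro x y h
    refine (TopologicalSpace.isBasis_countableBasis X).eq_iff.2 fun U hU => ?_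
    exact Set.ext_iff.1 h ⟨U, hU⟩
  refine (Cardinal.mk_le_of_injective inj).trans ?_
  rw [Cardinal.mk_set, ← Cardinal.two_power_aleph0]
  exact Cardinal.power_le_power_left two_ne_zero Cardinal.mk_le_aleph0

section
variable {𝕂 X : Type} [RCLike 𝕂] [AddCommGroup X] [Module 𝕂 X] [TopologicalSpace X]
  [IsTopologicalAddGroup X] [ContinuousSMul 𝕂 X] (T : X →L[𝕂] X) (x : X)

def G (k m : ℕ) (U : Set X) : Set (Fin (k + 1) → X) :=
  {y | ∀ q ∈ {q : (Fin (k + 1) → 𝕂) × (Fin m → 𝕂) | ‖q‖ ≤ m ∧ 1 / (m + 1 : ℝ) ≤ ‖q.1 0‖},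
    ∃ n : ℕ, (T ^ n) (∑ i, q.2 i • (T ^ (i : ℕ)) x + ∑ j, q.1 j • y j) ∈ U}

lemma G_open (k m : ℕ) {U : Set X} (hU : IsOpen U) : IsOpen (G T x k m U) := by
  have hK : IsCompact {q : (Fin (k + 1) → 𝕂) × (Fin m → 𝕂) | ‖q‖ ≤ m ∧ 1 / (m + 1 : ℝ) ≤ ‖q.1 0‖} := by
    have hc : Continuous fun q : (Fin (k + 1) → 𝕂) × (Fin m → 𝕂) => ‖q.1 0‖ := by fun_prop
    refine (isCompact_closedBall 0 m).of_isClosed_subset
      ((isClosed_le continuous_norm continuous_const).inter (isClosed_le continuous_const hc))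
      fun q hq => by simpa using hq.1
  rw [isOpen_iff_mem_nhds]
  intro y hy
  refine hK.eventually_forall_of_forall_eventually
    (P := fun (y : Fin (k + 1) → X) q =>
      ∃ n : ℕ, (T ^ n) (∑ i, q.2 i • (T ^ (i : ℕ)) x + ∑ j, q.1 j • y j) ∈ U) fun q hq => ?_
  obtain ⟨n, hn⟩ := hy q hq
  have hc : Continuous fun z : (Fin (k + 1) → X) × (Fin (k + 1) → 𝕂) × (Fin m → 𝕂) =>
      (T ^ n) (∑ i, z.2.2 i • (T ^ (i : ℕ)) x + ∑ j, z.2.1 j • z.1 j) := by fun_prop
  exact (hc.continuousAt.eventually_mem (hU.mem_nhds hn)).mono fun z hz => ⟨n, hz⟩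

lemma G_dense (hx : Dense (range fun n : ℕ => (T ^ n) x)) (k m : ℕ) {U : Set X} (hU : IsOpen U)
    (hne : U.Nonempty) : Dense (G T x k m U) := by
  have hd : Dense (Set.pi univ fun _ : Fin (k + 1) => range fun n : ℕ => (T ^ n) x) :=
    dense_pi univ fun _ _ => hx
  refine dense_closure.1 (hd.mono fun y hy => ?_)
  choose a ha using fun j => hy j (mem_univ j)
  set L := m + ∑ j, a j + 1 with hL
  have haL : ∀ j, a j < L := fun j => by
    have := Finset.single_le_sum (f := a) (fun _ _ => Nat.zero_le _) (Finset.mem_univ j); omega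
  have hc : Continuous fun (δ : 𝕂) (j : Fin (k + 1)) => y j + δ • (T ^ (L + j)) x := by fun_prop
  have h0 : Tendsto (fun (δ : 𝕂) (j : Fin (k + 1)) => y j + δ • (T ^ (L + j)) x) (𝓝[≠] 0) (𝓝 y) := by
    have := (hc.tendsto 0).mono_left (nhdsWithin_le_nhds (s := {0}ᶜ))
    simpa using this
  refine mem_closure_of_tendsto h0 (eventually_mem_nhdsWithin.mono fun δ hδ q hq => ?_)
  let p : 𝕂[X] := ∑ i, q.2 i • Polynomial.X ^ (i : ℕ) +
    ∑ j, q.1 j • (Polynomial.X ^ a j + δ • Polynomial.X ^ (L + j))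
  have hp : p ≠ 0 := by
    intro h
    have h1 : p.coeff L = q.1 0 * δ := by
      simp only [p, coeff_add, finsetSum_coeff, coeff_smul, coeff_X_pow, smul_eq_mul]
      rw [Finset.sum_eq_zero fun i _ => by rw [if_neg (by have := i.2; omega), mul_zero],
        Finset.sum_eq_single 0]
      · rw [if_neg (haL 0).ne']; simp
      · intro j _ hj
        have : (j : ℕ) ≠ 0 := fun h => hj (Fin.ext h)
        rw [if_neg (haL j).ne', if_neg (by omega)]; simp
      · simp
    have h2 : q.1 0 ≠ 0 := norm_pos_iff.1 (lt_of_lt_of_le (by positivity) hq.2)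
    rw [h, coeff_zero] at h1
    exact mul_ne_zero h2 hδ h1.symm
  obtain ⟨_, hb, n, rfl⟩ := (dense_poly T x hx p hp).inter_open_nonempty U hU hne
  refine ⟨n, ?_⟩
  have e : aeval T p x = ∑ i, q.2 i • (T ^ (i : ℕ)) x + ∑ j, q.1 j • (y j + δ • (T ^ (L + j)) x) := by
    simp only [p, map_add, map_sum, map_smul, map_pow, aeval_X, ← ha]
    simp
  rw [← e]; exact hb

end

/-- For every real or complex F-space X and every hypercyclic operator T on X, some dense subspace of X, with the same Hamel dimension as X, has all its nonzero vectors hypercyclic for T. -/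
theorem result :
    ∀ (𝕂 : Type) [RCLike 𝕂] (X : Type) [AddCommGroup X] [Module 𝕂 X] [UniformSpace X]
      [IsUniformAddGroup X] [CompleteSpace X] [ContinuousSMul 𝕂 X]
      [TopologicalSpace.MetrizableSpace X] (T : X →L[𝕂] X),
      (∃ x : X, Dense (Set.range fun n : ℕ => (⇑T)^[n] x)) →
      ∃ M : Submodule 𝕂 X, Dense (M : Set X) ∧
        (∀ x ∈ M, x ≠ 0 → Dense (Set.range fun n : ℕ => (⇑T)^[n] x)) ∧
        Module.rank 𝕂 M = Module.rank 𝕂 X := by
  intro 𝕂 _ X _ _ _ _ _ _ _ T ⟨x, hx⟩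
  simp only [← ContinuousLinearMap.coe_pow'] at hx ⊢
  rcases subsingleton_or_nontrivial X with hX | hX
  · exact ⟨⊤, by simp, fun y _ hy => absurd (Subsingleton.elim _ _) hy, by simp⟩
  have : (uniformity X).IsCountablyGenerated := IsUniformAddGroup.uniformity_countably_generated
  have : TopologicalSpace.SeparableSpace X := ⟨_, countable_range _, hx⟩
  have : SecondCountableTopology X := UniformSpace.secondCountable_of_separable X
  obtain ⟨f, hf⟩ : ∃ f : (ℕ → Bool) → X, ∀ k (a : ℕ × TopologicalSpace.countableBasis X)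
      (s : Fin (k + 1) → ℕ → Bool), Function.Injective s → f ∘ s ∈ G T x k a.1 a.2.1 := by
    let _ := UniformSpace.metricSpace X
    exact mycielski (fun k (a : ℕ × TopologicalSpace.countableBasis X) => G T x k a.1 a.2.1)
      (fun k a => G_open T x k a.1 (TopologicalSpace.isOpen_of_mem_countableBasis a.2.2))
      fun k a => G_dense T x hx k a.1 (TopologicalSpace.isOpen_of_mem_countableBasis a.2.2)
        (TopologicalSpace.nonempty_of_mem_countableBasis a.2.2)
  have key : ∀ (p : 𝕂[X]) (c : (ℕ → Bool) →₀ 𝕂), c ≠ 0 →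
      Dense (range fun n : ℕ => (T ^ n) (aeval T p x + Finsupp.linearCombination 𝕂 f c)) := by
    intro p c hc
    obtain ⟨k, hk⟩ : ∃ k, c.support.card = k + 1 :=
      Nat.exists_eq_succ_of_ne_zero (by simpa using hc)
    let e : Fin (k + 1) ≃ c.support := (Finset.equivFinOfCardEq hk).symm
    have h0 : 0 < ‖c (e 0)‖ := norm_pos_iff.2 (Finsupp.mem_support_iff.1 (e 0).2)
    obtain ⟨B, hB⟩ : ∃ B : ℝ, ∀ i, ‖p.coeff i‖ ≤ B :=
      ⟨∑ i ∈ p.support, ‖p.coeff i‖, fun i => by
        by_cases hi : i ∈ p.support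
        · exact Finset.single_le_sum (f := fun i => ‖p.coeff i‖) (fun _ _ => norm_nonneg _) hi
        · rw [notMem_support_iff.1 hi, norm_zero]; positivity⟩
    obtain ⟨m, hm1, hm2, hm3, hm4⟩ : ∃ m : ℕ, p.natDegree < m ∧ B ≤ m ∧
        ‖fun j => c (e j)‖ ≤ m ∧ 1 / (m + 1 : ℝ) < ‖c (e 0)‖ :=
      ((eventually_gt_atTop _).and ((tendsto_natCast_atTop_atTop.eventually_ge_atTop _).and
        ((tendsto_natCast_atTop_atTop.eventually_ge_atTop _).and
          (tendsto_one_div_add_atTop_nhds_zero_nat.eventually_lt_const h0)))).exists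
    refine (TopologicalSpace.isBasis_countableBasis X).dense_iff.2 fun U hU _ => ?_
    obtain ⟨n, hn⟩ := hf k (m, ⟨U, hU⟩) (fun j => e j) (Subtype.val_injective.comp e.injective)
      (fun j => c (e j), fun i => p.coeff i) ⟨by
        rw [Prod.norm_def]
        exact max_le hm3 ((pi_norm_le_iff_of_nonneg (by positivity)).2 fun i => (hB i).trans hm2), hm4.le⟩
    refine ⟨_, hn, n, ?_⟩
    simp only [Function.comp_apply]
    congr 2
    · rw [aeval_eq_sum_range' hm1, sum_apply, Finset.sum_range]; rfl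
    · rw [Finsupp.linearCombination_apply, Finsupp.sum, ← Finset.sum_coe_sort,
        ← e.sum_comp]
  have li : LinearIndependent 𝕂 f := by
    rw [linearIndependent_iff]
    intro c hc
    by_contra h
    have := key 0 c h
    simp only [hc, map_zero, ContinuousLinearMap.zero_apply, add_zero, range_const] at this
    obtain ⟨y, hy⟩ := exists_ne (0 : X)
    exact hy (by simpa using this y)
  let ev : 𝕂[X] →ₗ[𝕂] X :=
    { toFun := fun p => aeval T p x
      map_add' := fun p q => by simp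
      map_smul' := fun c p => by simp }
  let M := LinearMap.range ev ⊔ LinearMap.range (Finsupp.linearCombination 𝕂 f)
  refine ⟨M, hx.mono ?_, fun y hy hy0 => ?_, le_antisymm M.rank_le ?_⟩
  · rintro _ ⟨n, rfl⟩
    exact Submodule.mem_sup_left ⟨Polynomial.X ^ n, by simp [ev]⟩
  · obtain ⟨_, ⟨p, rfl⟩, _, ⟨c, rfl⟩, rfl⟩ := Submodule.mem_sup.1 hy
    by_cases hc : c = 0
    · subst hc
      simp only [map_zero, add_zero] at hy0 ⊢
      exact dense_poly T x hx p (by rintro rfl; simp at hy0)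
    · exact key p c hc
  · have hM : ∀ t, f t ∈ M := fun t => Submodule.mem_sup_right ⟨Finsupp.single t 1, by simp⟩
    have li' : LinearIndependent 𝕂 fun t => (⟨f t, hM t⟩ : M) :=
      LinearIndependent.of_comp M.subtype li
    refine (rank_le_card 𝕂 X).trans (card_le.trans (le_trans (le_of_eq ?_) li'.cardinal_le_rank))
    simp

end Pool.Agent.S06827
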