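import Pool.Statements.S06830

set_option autoImplicit false
open Pool Pool.MP_fda7e3_an

namespace Pool.Agent.S06830

open Polynomial

noncomputable def TT : ℂ[X] :=
  C ((4886540593/4882812500 : ℝ) : ℂ) * X + C ((21 / 250 : ℝ) : ℂ) * X ^ 2 + C ((2 / 125 : ℝ) : ℂ) * X ^ 3 +
    C ((7 / 20 : ℝ) : ℂ) * X ^ 4 + C ((3 / 25 : ℝ) : ℂ) * X ^ 5

lemma ev0 (z : ℂ) : TT.eval z =
    4886540593/4882812500 * z + 21 / 250 * z ^ 2 + 2 / 125 * z ^ 3 + 7 / 20 * z ^ 4 + 3 / 25 * z ^ 5 := by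
  simp [TT]

lemma ev1 (z : ℂ) : (derivative TT).eval z =
    4886540593/4882812500 + 21 / 125 * z + 6 / 125 * z ^ 2 + 7 / 5 * z ^ 3 + 3 / 5 * z ^ 4 := by
  simp [TT]; ring

lemma ev2 (z : ℂ) : (derivative (derivative TT)).eval z =
    12 / 5 * (z + 7 / 4) * (z - Complex.I / 5) * (z + Complex.I / 5) := by
  simp [TT]
  linear_combination (12 / 5 * (z + 7 / 4) / 25) * Complex.I_sq

lemma nsq (a b : ℝ) : Complex.normSq ((derivative TT).eval ⟨a, b⟩) =
    (4886540593/4882812500 + 21 / 125 * a + 6 / 125 * (a ^ 2 - b ^ 2) + 7 / 5 * (a ^ 3 - 3 * a * b ^ 2) +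
      3 / 5 * (a ^ 4 - 6 * a ^ 2 * b ^ 2 + b ^ 4)) ^ 2 +
    (21 / 125 + 6 / 125 * (2 * a) + 7 / 5 * (3 * a ^ 2 - b ^ 2) +
      3 / 5 * (4 * a ^ 3 - 4 * a * b ^ 2)) ^ 2 * b ^ 2 := by
  rw [ev1, Complex.normSq_apply]
  simp [pow_succ]
  ring

lemma lt_iff (w : ℂ) : ‖w‖ < 1 ↔ Complex.normSq w < 1 := by
  rw [Complex.normSq_eq_norm_sq, sq_lt_one_iff₀ (norm_nonneg w)]

lemma seg (e : ℝ) (he : e ^ 2 = 1) (t : ℝ) (h0 : 0 ≤ t) (h1 : t ≤ 1) :
    ‖(derivative TT).eval ⟨-1 / 2 + t * (62 / 125), e * (t / 10)⟩‖ < 1 := by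
  rw [lt_iff, nsq]
  have e4 : (e * (t / 10)) ^ 4 = (t / 10) ^ 4 := by
    rw [mul_pow, show e ^ 4 = (e ^ 2) ^ 2 by ring, he]; ring
  have e2 : (e * (t / 10)) ^ 2 = (t / 10) ^ 2 := by rw [mul_pow, he]; ring
  rw [e4, e2]
  obtain ⟨s, hs, hs0⟩ : ∃ s : ℝ, s = 1 - t ∧ 0 ≤ s := ⟨_, rfl, by linarith⟩
  have : 0 ≤ (142613240161307817991/381469726562500000000 : ℝ) * t ^ 0 * s ^ 8 + (110050409110207036741/47683715820312500000 : ℝ) * t ^ 1 * s ^ 7 + (141241752437518526953/23841857910156250000 : ℝ) * t ^ 2 * s ^ 6 + (196327672417411525531/23841857910156250000 : ℝ) * t ^ 3 * s ^ 5 + (161347860003371594993/23841857910156250000 : ℝ) * t ^ 4 * s ^ 4 + (19972084750699381087/5960464477539062500 : ℝ) * t ^ 5 * s ^ 3 + (22678275260509439491/23841857910156250000 : ℝ) * t ^ 6 * s ^ 2 + (2382151464429991/19073486328125000 : ℝ) * t ^ 7 * s ^ 1 + (2614008015107/76293945312500000 : ℝ) * t ^ 8 * s ^ 0 := by positivity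
  rw [hs] at this
  nlinarith [this]


/-- The negation of the preceding statement: For every complex polynomial T and every connected component D of the set where ∣T'∣ < 1, each value w is taken by conj(z) + T(z) at most r+1 times in D, where r is the number of zeros of T'' in D counted with multiplicity. -/
theorem result :
    ¬ (∀ (T : Polynomial ℂ) (x : ℂ), ‖(Polynomial.derivative T).eval x‖ < 1 →
      ∀ w : ℂ,
        {z : ℂ | z ∈ connectedComponentIn {u : ℂ | ‖(Polynomial.derivative T).eval u‖ < 1} x ∧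
            starRingEnd ℂ z + T.eval z = w}.encard
          ≤ (((∑ᶠ z ∈ connectedComponentIn {u : ℂ | ‖(Polynomial.derivative T).eval u‖ < 1} x,
                (Polynomial.derivative (Polynomial.derivative T)).rootMultiplicity z) + 1 : ℕ) : ℕ∞)) := by
  intro H
  have hc : ∀ e : ℝ, Continuous fun t : ℝ =>
      (⟨-1 / 2 + t * (62 / 125), e * (t / 10)⟩ : ℂ) := by
    intro e
    have : (fun t : ℝ => (⟨-1 / 2 + t * (62 / 125), e * (t / 10)⟩ : ℂ)) =
        fun t : ℝ => ((-1 / 2 + t * (62 / 125) : ℝ) : ℂ) + ((e * (t / 10) : ℝ) : ℂ) * Complex.I := by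
      funext t; apply Complex.ext <;> simp
    rw [this]; fun_prop
  set U : Set ℂ := {u : ℂ | ‖(derivative TT).eval u‖ < 1} with hU
  have hmem : ∀ e : ℝ, e ^ 2 = 1 →
      (⟨-1 / 250, e / 10⟩ : ℂ) ∈ connectedComponentIn U (⟨-1 / 2, 0⟩ : ℂ) := by
    intro e he
    have h := IsPreconnected.subset_connectedComponentIn (F := U) (x := (⟨-1 / 2, 0⟩ : ℂ))
      ((isPreconnected_Icc (a := (0 : ℝ)) (b := 1)).image _ (hc e).continuousOn)
      ⟨0, ⟨le_rfl, zero_le_one⟩, by simp⟩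
      (by rintro _ ⟨t, ht, rfl⟩; exact seg e he t ht.1 ht.2)
    refine h ⟨1, ⟨zero_le_one, le_rfl⟩, ?_⟩
    apply Complex.ext
    · norm_num
    · simp [div_eq_mul_inv]
  have hx : ‖(derivative TT).eval (⟨-1 / 2, 0⟩ : ℂ)‖ < 1 := by
    simpa using seg 1 (by norm_num) 0 le_rfl zero_le_one
  have key := H TT _ hx (starRingEnd ℂ (⟨-1 / 250, 1 / 10⟩ : ℂ) + TT.eval ⟨-1 / 250, 1 / 10⟩)
  rw [← hU] at key
  have hz : (∑ᶠ z ∈ connectedComponentIn U (⟨-1 / 2, 0⟩ : ℂ),
      (derivative (derivative TT)).rootMultiplicity z) = 0 := by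
    apply finsum_mem_of_eqOn_zero
    intro z hz
    have hzU : ‖(derivative TT).eval z‖ < 1 := connectedComponentIn_subset U _ hz
    apply rootMultiplicity_eq_zero
    rw [IsRoot.def, ev2]
    intro h
    rcases mul_eq_zero.1 h with h | h
    · rcases mul_eq_zero.1 h with h | h
      · have : z = ⟨-7 / 4, 0⟩ := by
          have h' : z = -7 / 4 := by linear_combination 5 / 12 * h
          rw [h']; apply Complex.ext <;> simp
        rw [this, lt_iff, nsq] at hzU
        norm_num at hzU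
      · have : z = ⟨0, 1 / 5⟩ := by
          have h' : z = Complex.I / 5 := by linear_combination h
          rw [h']; apply Complex.ext <;> simp
        rw [this, lt_iff, nsq] at hzU
        norm_num at hzU
    · have : z = ⟨0, -1 / 5⟩ := by
        have h' : z = -Complex.I / 5 := by linear_combination h
        rw [h']; apply Complex.ext <;> simp [neg_div]
      rw [this, lt_iff, nsq] at hzU
      norm_num at hzU
  rw [hz] at key
  rw [zero_add, Nat.cast_one] at key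
  have := Set.encard_le_one_iff.1 key (⟨-1 / 250, 1 / 10⟩ : ℂ) ⟨-1 / 250, -1 / 10⟩
    ⟨hmem 1 (by norm_num), rfl⟩ ⟨hmem (-1) (by norm_num), ?_⟩
  · have := congrArg Complex.im this
    norm_num at this
  · rw [ev0, ev0]
    apply Complex.ext
    · simp [pow_succ]; norm_num
    · simp [pow_succ]; norm_num

end Pool.Agent.S06830
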