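import Pool.Statements.S06856
import Pool.Agent.Lib.helper5.L1Sub

set_option autoImplicit false
open Pool Pool.MP_ff7d48_an

namespace Pool.Agent.S06856

/-- The negation of the preceding statement: For every set Γ, every closed subspace S of real ℓ1(Γ) has a linearly dense set M and a norming subspace N of its dual such that each functional in N is nonzero on only countably many elements of M, i.e. S is Plichko. -/
theorem result :
    ¬ (∀ (Γ : Type) (S : Submodule ℝ (lp (fun _ : Γ => ℝ) 1)),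
      IsClosed (S : Set (lp (fun _ : Γ => ℝ) 1)) →
        ∃ (M : Set ↥S) (N : Submodule ℝ (↥S →L[ℝ] ℝ)),
          Dense (Submodule.span ℝ M : Set ↥S) ∧
          (∃ r : ℝ, 0 < r ∧ ∀ x : ↥S, x ≠ 0 →
              ∃ f ∈ N, ‖f‖ ≤ 1 ∧ r * ‖x‖ < |f x|) ∧
          ∀ f ∈ N, Set.Countable {m : ↥S | m ∈ M ∧ f m ≠ 0}) := by
  intro h
  obtain ⟨Γ, Z, hZ, s, hs, k⟩ := H5E.main
  obtain ⟨M, N, hM, ⟨r, hr, h1⟩, h2⟩ := h Γ Z hZ
  have := hZ.completeSpace_coe
  obtain ⟨P, p1, p2⟩ := H5E.proj hM hr (fun x => by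
    by_cases e : x = 0
    · exact ⟨0, by simp, (norm_zero (E := Z →L[ℝ] ℝ)).trans_le zero_le_one, by simp [e]⟩
    · obtain ⟨f, f1, f2, f3⟩ := h1 x e
      exact ⟨f, h2 f f1, f2, f3.le⟩) hs
  exact k P p1 p2

end Pool.Agent.S06856
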