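import Pool.Statements.S06857
import Pool.Agent.Lib.helper31.WAT

set_option autoImplicit false
open Pool Pool.MP_ffb813_an

namespace Pool.Agent.S06857

/-- For every analytic self-map φ of the unit disc that is not z ↦ cz with ∣c∣=1, and all j, k, the (n+k)-th Taylor coefficient of φ^(n+j) tends to 0 as n→∞. These are the entries of M_z^{*n} C_φ M_z^n, so this says it tends to 0 weakly. -/
theorem result :
    ∀ φ : ℂ → ℂ,
      DifferentiableOn ℂ φ (Metric.ball (0 : ℂ) 1) →
      Set.MapsTo φ (Metric.ball (0 : ℂ) 1) (Metric.ball (0 : ℂ) 1) →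
      (¬ ∃ c : ℂ, ‖c‖ = 1 ∧ ∀ z ∈ Metric.ball (0 : ℂ) 1, φ z = c * z) →
      ∀ j k : ℕ,
        Filter.Tendsto
          (fun n : ℕ =>
            iteratedDeriv (n + k) (fun z => φ z ^ (n + j)) 0 / ((n + k).factorial : ℂ))
          Filter.atTop (nhds 0) := by
  exact Pool.Agent.H31.WAT.main

end Pool.Agent.S06857
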