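import Pool.Statements.S06872
import Pool.Agent.Lib.helper25.Codeg

set_option autoImplicit false
open Pool Pool.MP_00c8a8_co

namespace Pool.Agent.S06872


/-- The negation of the preceding statement: For 2 ≤ k ≤ n, every k-uniform hypergraph on n vertices in which each (k−1)-set lies in at least n/k edges has a tight component (edges linked via sharing k−1 vertices) whose edges cover every vertex. -/
theorem result :
    ¬ (∀ (k n : ℕ), 2 ≤ k → k ≤ n →
      ∀ H : Finset (Finset (Fin n)),
        (∀ e ∈ H, e.card = k) →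
        (∀ S : Finset (Fin n), S.card = k - 1 →
          n ≤ k * (H.filter (fun e => S ⊆ e)).card) →
        ∃ e ∈ H, ∀ v : Fin n, ∃ f ∈ H,
          Relation.ReflTransGen
            (fun a b : Finset (Fin n) => a ∈ H ∧ b ∈ H ∧ k - 1 ≤ (a ∩ b).card) e f
          ∧ v ∈ f) := by
  intro h
  obtain ⟨H, c, h1, h2, h3, h4⟩ := Pool.Agent.H25Codeg.exists_H 32 le_rfl 162 rfl
  obtain ⟨e, he, hv⟩ := h 6 162 (by norm_num) (by norm_num) H h1 h2
  obtain ⟨z, hz⟩ := h4 e he
  obtain ⟨f, hf, hr, hzf⟩ := hv z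
  have inv : ∀ g, Relation.ReflTransGen
      (fun a b : Finset (Fin 162) => a ∈ H ∧ b ∈ H ∧ 6 - 1 ≤ (a ∩ b).card) e g → c g = c e := by
    intro g hg
    induction hg with
    | refl => rfl
    | tail _ hs ih => exact (h3 _ hs.1 _ hs.2.1 hs.2.2).symm.trans ih
  exact hz f hf (inv f hr) hzf

end Pool.Agent.S06872
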