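import Pool.Statements.S06890
import Pool.Agent.Lib.helper18.TwistGeo

set_option autoImplicit false
open Classical
open Pool Pool.MP_019aa5_co

namespace Pool.Agent.S06890

open H18Twist MvPolynomial

noncomputable def th : Fin 3 → MvPolynomial (Fin 6) ℚ :=
  ![X 3 + C 2 * X 0 + X 1 + X 2, X 4 + X 0 + C 2 * X 1 + X 2, X 5 + X 0 + X 1 + C 2 * X 2]

noncomputable def JJ : Ideal (MvPolynomial (Fin 6) ℚ) :=
  Ideal.span ((fun S : Finset (Fin 6) => ∏ i ∈ S, (MvPolynomial.X i : MvPolynomial (Fin 6) ℚ)) ''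
    {S : Finset (Fin 6) | S ∉ Dl}) ⊔ Ideal.span (Set.range th)

def pt : Fin 4 → Fin 6 → ℚ :=
  ![![1, 0, 0, -2, -1, -1], ![0, 1, 0, -1, -2, -1], ![0, 0, 1, -1, -1, -2], ![1, 1, 1, -4, -4, -4]]
def cf : Fin 4 → ℚ := ![4, 4, 4, -1]

noncomputable def ev (j : Fin 4) : MvPolynomial (Fin 6) ℚ →ₐ[ℚ] Polynomial ℚ :=
  aeval (fun v => Polynomial.C (pt j v) * Polynomial.X)

noncomputable def Ph (f : MvPolynomial (Fin 6) ℚ) : ℚ := ∑ j, cf j * (ev j f).coeff 2

lemma Ph_add (f g : MvPolynomial (Fin 6) ℚ) : Ph (f + g) = Ph f + Ph g := by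
  simp [Ph, mul_add, Finset.sum_add_distrib]

lemma Ph_smul (a : ℚ) (f : MvPolynomial (Fin 6) ℚ) : Ph (a • f) = a * Ph f := by
  simp only [Ph, map_smul, Polynomial.coeff_smul, smul_eq_mul, Finset.mul_sum]
  apply Finset.sum_congr rfl
  intro j _; ring

lemma Ph_zero : Ph 0 = 0 := by simp [Ph]

lemma ev_prod (j : Fin 4) (S : Finset (Fin 6)) :
    ev j (∏ i ∈ S, X i) = Polynomial.C (∏ i ∈ S, pt j i) * Polynomial.X ^ S.card := by
  simp [ev, map_prod, Finset.prod_mul_distrib]

lemma ev_c0 (j : Fin 4) (g : MvPolynomial (Fin 6) ℚ) : (ev j g).coeff 0 = constantCoeff g := by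
  induction g using MvPolynomial.induction_on with
  | C a => simp [ev]
  | add f g hf hg => simp [hf, hg]
  | mul_X f i hf => simp [ev]

lemma ev_th (j : Fin 4) (i : Fin 3) : ev j (th i) = 0 := by
  have h2 : (Polynomial.C (2 : ℚ)) = 2 := rfl
  have h4 : (Polynomial.C (4 : ℚ)) = 4 := rfl
  fin_cases j <;> fin_cases i <;> simp [ev, th, pt, h2, h4] <;> ring

lemma Ph_mon (S : Finset (Fin 6)) (g : MvPolynomial (Fin 6) ℚ) (h2 : 2 ≤ S.card)
    (h : S.card = 2 → ∑ j, cf j * ∏ i ∈ S, pt j i = 0) : Ph (g * ∏ i ∈ S, X i) = 0 := by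
  unfold Ph
  simp only [map_mul, ev_prod, ← mul_assoc, Polynomial.coeff_mul_X_pow']
  rcases eq_or_lt_of_le h2 with e | e
  · have h' := h e.symm
    simp only [← e, le_refl, if_true, Nat.sub_self, Polynomial.coeff_mul_C, ev_c0]
    have : ∀ j, cf j * (constantCoeff g * ∏ i ∈ S, pt j i) =
        constantCoeff g * (cf j * ∏ i ∈ S, pt j i) := fun j => by ring
    simp only [this, ← Finset.mul_sum, h', mul_zero]
  · simp [not_le.2 e]

lemma Ph_small (S : Finset (Fin 6)) (h : S.card = 2 → ∑ j, cf j * ∏ i ∈ S, pt j i = 0) :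
    Ph (∏ i ∈ S, X i) = 0 := by
  by_cases h2 : 2 ≤ S.card
  · simpa using Ph_mon S 1 h2 h
  · unfold Ph
    simp only [ev_prod, Polynomial.coeff_C_mul, Polynomial.coeff_X_pow]
    have : ¬ (2 = S.card) := by omega
    simp [this]

lemma good_pair (S : Finset (Fin 6))
    (h : S = {2, 3} ∨ S = {0, 4} ∨ S = {1, 5} ∨ S = {1, 3} ∨ S = {2, 4} ∨ S = {0, 5}) :
    ∑ j, cf j * ∏ i ∈ S, pt j i = 0 := by
  rcases h with rfl | rfl | rfl | rfl | rfl | rfl <;>
    rw [Fin.sum_univ_four] <;> simp [cf, pt, Finset.prod_pair] <;> norm_num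

lemma nonface : ∀ S : Finset (Fin 6), S ∉ Dl →
    2 ≤ S.card ∧ (S.card = 2 → S = {2, 3} ∨ S = {0, 4} ∨ S = {1, 5}) := by
  decide +kernel

lemma Ph_J (f : MvPolynomial (Fin 6) ℚ) (hf : f ∈ JJ) : Ph f = 0 := by
  let K : Ideal (MvPolynomial (Fin 6) ℚ) :=
    { carrier := {f | ∀ g, Ph (g * f) = 0}
      add_mem' := fun {a b} ha hb g => by rw [mul_add, Ph_add, ha g, hb g, add_zero]
      zero_mem' := fun g => by rw [mul_zero, Ph_zero]
      smul_mem' := fun c a ha g => by rw [smul_eq_mul, ← mul_assoc]; exact ha _ }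
  have hK : JJ ≤ K := by
    apply sup_le
    · rw [Ideal.span_le]
      rintro _ ⟨S, hS, rfl⟩ g
      obtain ⟨h1, h2⟩ := nonface S hS
      refine Ph_mon S g h1 (fun h => good_pair S ?_)
      rcases h2 h with h | h | h <;> simp [h]
    · rw [Ideal.span_le]
      rintro _ ⟨i, rfl⟩ g
      simp [Ph, ev_th]
  simpa using hK hf 1

lemma Ph_ab : Ph (X 0 * X 1) = -1 := by
  have : (X 0 * X 1 : MvPolynomial (Fin 6) ℚ) = ∏ i ∈ ({0, 1} : Finset (Fin 6)), X i := by
    rw [Finset.prod_pair (by decide)]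
  rw [this]
  unfold Ph
  simp only [ev_prod, Polynomial.coeff_C_mul, Polynomial.coeff_X_pow]
  rw [Fin.sum_univ_four]
  simp [cf, pt, Finset.prod_pair]

lemma fin_quot : Module.Finite ℚ (MvPolynomial (Fin 6) ℚ ⧸ JJ) := by
  set q := Ideal.Quotient.mk JJ with hq
  have hm : ∀ S : Finset (Fin 6), S ∉ Dl → q (∏ i ∈ S, X i) = 0 := fun S hS =>
    Ideal.Quotient.eq_zero_iff_mem.2 (Ideal.mem_sup_left (Ideal.subset_span ⟨S, hS, rfl⟩))
  have ht : ∀ i, q (th i) = 0 := fun i =>
    Ideal.Quotient.eq_zero_iff_mem.2 (Ideal.mem_sup_right (Ideal.subset_span ⟨i, rfl⟩))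
  have r1 := hm {3, 2} (by decide +kernel)
  have r2 := hm {4, 0} (by decide +kernel)
  have r3 := hm {5, 1} (by decide +kernel)
  have r4 := hm {3, 4, 5} (by decide +kernel)
  rw [Finset.prod_pair (by decide), map_mul] at r1 r2 r3
  rw [Finset.prod_insert (by decide), Finset.prod_pair (by decide), map_mul, map_mul] at r4
  have hC : (C (2 : ℚ) : MvPolynomial (Fin 6) ℚ) = 2 := rfl
  have t0 := ht 0
  have t1 := ht 1
  have t2 := ht 2
  simp only [th, hC, Matrix.cons_val_zero, Matrix.cons_val_one, Matrix.cons_val, map_add, map_mul,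
    map_ofNat] at t0 t1 t2
  set a := q (X 0)
  set b := q (X 1)
  set c := q (X 2)
  have hA : q (X 3) = -(2 * a + b + c) := by linear_combination t0
  have hB : q (X 4) = -(a + 2 * b + c) := by linear_combination t1
  have hCc : q (X 5) = -(a + b + 2 * c) := by linear_combination t2
  rw [hA] at r1 r4
  rw [hB] at r2 r4
  rw [hCc] at r3 r4
  have a3 : 4 * a ^ 3 = 0 := by
    linear_combination (14 * a + 5 * b + 10 * c) * r1 + (6 * a + 2 * b + c) * r2 +
      (21 * a + 10 * b + 10 * c) * r3 - 5 * r4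
  have b3 : 4 * b ^ 3 = 0 := by
    linear_combination (10 * a + 21 * b + 10 * c) * r1 + (10 * a + 14 * b + 5 * c) * r2 +
      (a + 6 * b + 2 * c) * r3 - 5 * r4
  have c3 : 4 * c ^ 3 = 0 := by
    linear_combination (2 * a + b + 6 * c) * r1 + (10 * a + 10 * b + 21 * c) * r2 +
      (5 * a + 10 * b + 14 * c) * r3 - 5 * r4
  have nil : ∀ u : MvPolynomial (Fin 6) ℚ ⧸ JJ, 4 * u ^ 3 = 0 → IsIntegral ℚ u := by
    intro u hu
    have h4 : (algebraMap ℚ (MvPolynomial (Fin 6) ℚ ⧸ JJ)) (1 / 4) * 4 = 1 := by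
      rw [← map_ofNat (algebraMap ℚ (MvPolynomial (Fin 6) ℚ ⧸ JJ)) 4, ← map_mul]
      norm_num
    have : u ^ 3 = 0 := by
      linear_combination (algebraMap ℚ (MvPolynomial (Fin 6) ℚ ⧸ JJ)) (1 / 4) * hu - u ^ 3 * h4
    exact IsIntegral.of_pow (n := 3) (by norm_num) (this ▸ isIntegral_zero)
  have ia := nil a a3
  have ib := nil b b3
  have ic := nil c c3
  have i2 : IsIntegral ℚ (2 : MvPolynomial (Fin 6) ℚ ⧸ JJ) := by
    have : (2 : MvPolynomial (Fin 6) ℚ ⧸ JJ) = 1 + 1 := by norm_num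
    rw [this]; exact isIntegral_one.add isIntegral_one
  have hX : ∀ v, IsIntegral ℚ (q (X v)) := by
    intro v
    fin_cases v
    · exact ia
    · exact ib
    · exact ic
    · show IsIntegral ℚ (q (X 3))
      rw [hA]; exact (((i2.mul ia).add ib).add ic).neg
    · show IsIntegral ℚ (q (X 4))
      rw [hB]; exact ((ia.add (i2.mul ib)).add ic).neg
    · show IsIntegral ℚ (q (X 5))
      rw [hCc]; exact ((ia.add ib).add (i2.mul ic)).neg
  have : Algebra.IsIntegral ℚ (MvPolynomial (Fin 6) ℚ ⧸ JJ) := by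
    constructor
    intro u
    obtain ⟨g, rfl⟩ := Ideal.Quotient.mk_surjective u
    induction g using MvPolynomial.induction_on with
    | C r => exact isIntegral_algebraMap (x := r)
    | add f g hf hg => rw [map_add]; exact hf.add hg
    | mul_X f i hf => rw [map_mul]; exact hf.mul (hX i)
  exact Algebra.IsIntegral.finite

def Vis (F : Finset (Fin 6)) (v : Fin 6) : Prop :=
  (affineSpan ℝ (p '' ((F.erase v : Finset (Fin 6)) : Set (Fin 6)))).SOppSide x0 (p v)

lemma nv (F : Finset (Fin 6)) (v u w : Fin 6) (a b c : ℝ) (he : F.erase v = {u, w})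
    (h1 : a * px u + b * py u + c = 0) (h2 : a * px w + b * py w + c = 0)
    (hx : 0 < a * 2 + b * 3 + c) (hv : 0 < a * px v + b * py v + c) : ¬ Vis F v := by
  unfold Vis
  rw [he]
  refine not_opp _ v a b c ?_ hx hv
  intro t ht
  simp only [Finset.mem_insert, Finset.mem_singleton] at ht
  rcases ht with rfl | rfl <;> assumption

lemma sub_good (G T : Finset (Fin 6)) (h : G ⊆ T)
    (hT : T.card < 2 ∨ T = {1, 3} ∨ T = {2, 4} ∨ T = {0, 5}) : Ph (∏ i ∈ G, X i) = 0 := by
  apply Ph_small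
  intro h2
  have hc := Finset.card_le_card h
  apply good_pair
  rcases hT with hT | hT | hT | hT
  · omega
  all_goals
    have : G = T := Finset.eq_of_subset_of_card_le h (by rw [h2, hT]; decide)
    simp [this, hT]

lemma facet_cases : ∀ F : Finset (Fin 6), F ∈ Dl → F.card = 3 →
    F = {0, 1, 2} ∨ F = {0, 1, 3} ∨ F = {1, 3, 4} ∨ F = {1, 2, 4} ∨ F = {2, 4, 5} ∨
      F = {0, 2, 5} ∨ F = {0, 3, 5} := by
  decide +kernel

lemma edge_cases : ∀ F : Finset (Fin 6), F ∈ Dl → F.card + 1 = 3 →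
    F = {0, 1} ∨ F = {0, 2} ∨ F = {0, 3} ∨ F = {0, 5} ∨ F = {1, 2} ∨ F = {1, 3} ∨ F = {1, 4} ∨
      F = {2, 4} ∨ F = {2, 5} ∨ F = {3, 4} ∨ F = {3, 5} ∨ F = {4, 5} := by
  decide +kernel

lemma vis_sub (F T : Finset (Fin 6)) (h : ∀ v ∈ F, v ∉ T → ¬ Vis F v) :
    F.filter (fun v => Vis F v) ⊆ T := by
  intro v hv
  rw [Finset.mem_filter] at hv
  by_contra hT
  exact h v hv.1 hT hv.2

lemma Ph_vis (F : Finset (Fin 6)) (hF : F ∈ Dl) (h3 : F.card = 3) :
    Ph (∏ v ∈ F.filter (fun v => Vis F v), X v) = 0 := by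
  rcases facet_cases F hF h3 with rfl | rfl | rfl | rfl | rfl | rfl | rfl
  · refine sub_good _ ∅ (vis_sub _ _ ?_) (by decide)
    intro v hv hT
    fin_cases v <;> first | (exfalso; revert hv hT; decide) | skip
    · exact nv _ 0 1 2 (-3) (-4) 23 (by decide) (by simp [px, py] <;> norm_num) (by simp [px, py] <;> norm_num) (by norm_num) (by simp [px, py] <;> norm_num)
    · exact nv _ 1 0 2 4 0 (-4) (by decide) (by simp [px, py] <;> norm_num) (by simp [px, py] <;> norm_num) (by norm_num) (by simp [px, py] <;> norm_num)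
    · exact nv _ 2 0 1 (-1) 4 (-3) (by decide) (by simp [px, py] <;> norm_num) (by simp [px, py] <;> norm_num) (by norm_num) (by simp [px, py] <;> norm_num)
  · refine sub_good _ {1, 3} (vis_sub _ _ ?_) (by decide)
    intro v hv hT
    fin_cases v <;> first | (exfalso; revert hv hT; decide) | skip
    · exact nv _ 0 1 3 (-2) 5 0 (by decide) (by simp [px, py] <;> norm_num) (by simp [px, py] <;> norm_num) (by norm_num) (by simp [px, py] <;> norm_num)
  · refine sub_good _ {4} (vis_sub _ _ ?_) (by decide)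
    intro v hv hT
    fin_cases v <;> first | (exfalso; revert hv hT; decide) | skip
    · exact nv _ 1 3 4 0 8 0 (by decide) (by simp [px, py] <;> norm_num) (by simp [px, py] <;> norm_num) (by norm_num) (by simp [px, py] <;> norm_num)
    · exact nv _ 3 1 4 (-2) (-3) 16 (by decide) (by simp [px, py] <;> norm_num) (by simp [px, py] <;> norm_num) (by norm_num) (by simp [px, py] <;> norm_num)
  · refine sub_good _ {2, 4} (vis_sub _ _ ?_) (by decide)
    intro v hv hT
    fin_cases v <;> first | (exfalso; revert hv hT; decide) | skip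
    · exact nv _ 1 2 4 (-5) (-7) 40 (by decide) (by simp [px, py] <;> norm_num) (by simp [px, py] <;> norm_num) (by norm_num) (by simp [px, py] <;> norm_num)
  · refine sub_good _ {5} (vis_sub _ _ ?_) (by decide)
    intro v hv hT
    fin_cases v <;> first | (exfalso; revert hv hT; decide) | skip
    · exact nv _ 2 4 5 (-8) (-8) 64 (by decide) (by simp [px, py] <;> norm_num) (by simp [px, py] <;> norm_num) (by norm_num) (by simp [px, py] <;> norm_num)
    · exact nv _ 4 2 5 3 1 (-8) (by decide) (by simp [px, py] <;> norm_num) (by simp [px, py] <;> norm_num) (by norm_num) (by simp [px, py] <;> norm_num)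
  · refine sub_good _ {0, 5} (vis_sub _ _ ?_) (by decide)
    intro v hv hT
    fin_cases v <;> first | (exfalso; revert hv hT; decide) | skip
    · exact nv _ 2 0 5 7 1 (-8) (by decide) (by simp [px, py] <;> norm_num) (by simp [px, py] <;> norm_num) (by norm_num) (by simp [px, py] <;> norm_num)
  · refine sub_good _ {3} (vis_sub _ _ ?_) (by decide)
    intro v hv hT
    fin_cases v <;> first | (exfalso; revert hv hT; decide) | skip
    · exact nv _ 0 3 5 8 0 0 (by decide) (by simp [px, py] <;> norm_num) (by simp [px, py] <;> norm_num) (by norm_num) (by simp [px, py] <;> norm_num)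
    · exact nv _ 5 0 3 (-1) 1 0 (by decide) (by simp [px, py] <;> norm_num) (by simp [px, py] <;> norm_num) (by norm_num) (by simp [px, py] <;> norm_num)

lemma ne_edge (u w : Fin 6) (a b c : ℝ) (h1 : a * px u + b * py u + c = 0)
    (h2 : a * px w + b * py w + c = 0) (hx : a * 2 + b * 3 + c ≠ 0) :
    x0 ∉ affineSpan ℝ (p '' (({u, w} : Finset (Fin 6)) : Set (Fin 6))) := by
  intro h
  refine hx (span_zero _ a b c ?_ _ h)
  intro t ht
  simp only [Finset.mem_insert, Finset.mem_singleton] at ht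
  rcases ht with rfl | rfl <;> assumption

lemma generic (H : Finset (Fin 6)) (hH : H ∈ Dl) (h : H.card + 1 = 3) :
    x0 ∉ affineSpan ℝ (p '' (H : Set (Fin 6))) := by
  rcases edge_cases H hH h with rfl | rfl | rfl | rfl | rfl | rfl | rfl | rfl | rfl | rfl | rfl | rfl
  · exact ne_edge _ _ (-1) 4 (-3) (by simp [px, py] <;> norm_num) (by simp [px, py] <;> norm_num) (by norm_num)
  · exact ne_edge _ _ (-4) 0 4 (by simp [px, py] <;> norm_num) (by simp [px, py] <;> norm_num) (by norm_num)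
  · exact ne_edge _ _ 1 (-1) 0 (by simp [px, py] <;> norm_num) (by simp [px, py] <;> norm_num) (by norm_num)
  · exact ne_edge _ _ (-7) (-1) 8 (by simp [px, py] <;> norm_num) (by simp [px, py] <;> norm_num) (by norm_num)
  · exact ne_edge _ _ (-3) (-4) 23 (by simp [px, py] <;> norm_num) (by simp [px, py] <;> norm_num) (by norm_num)
  · exact ne_edge _ _ 2 (-5) 0 (by simp [px, py] <;> norm_num) (by simp [px, py] <;> norm_num) (by norm_num)
  · exact ne_edge _ _ 2 3 (-16) (by simp [px, py] <;> norm_num) (by simp [px, py] <;> norm_num) (by norm_num)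
  · exact ne_edge _ _ 5 7 (-40) (by simp [px, py] <;> norm_num) (by simp [px, py] <;> norm_num) (by norm_num)
  · exact ne_edge _ _ (-3) (-1) 8 (by simp [px, py] <;> norm_num) (by simp [px, py] <;> norm_num) (by norm_num)
  · exact ne_edge _ _ 0 8 0 (by simp [px, py] <;> norm_num) (by simp [px, py] <;> norm_num) (by norm_num)
  · exact ne_edge _ _ (-8) 0 0 (by simp [px, py] <;> norm_num) (by simp [px, py] <;> norm_num) (by norm_num)
  · exact ne_edge _ _ (-8) (-8) 64 (by simp [px, py] <;> norm_num) (by simp [px, py] <;> norm_num) (by norm_num)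

lemma down : ∀ S ∈ Dl, ∀ T : Finset (Fin 6), T ⊆ S → T ∈ Dl := by
  intro S hS T hT
  obtain ⟨F, hF, h⟩ := sub_fac hS
  simp only [Dl, Finset.mem_biUnion, Finset.mem_powerset]
  exact ⟨F, hF, hT.trans h⟩

lemma hom (i : Fin 3) : (th i).IsHomogeneous 1 := by
  have hx : ∀ v : Fin 6, (X v : MvPolynomial (Fin 6) ℚ).IsHomogeneous 1 := fun v => isHomogeneous_X ℚ v
  have hc : ∀ v : Fin 6, (C 2 * X v : MvPolynomial (Fin 6) ℚ).IsHomogeneous 1 := fun v =>
    (hx v).C_mul 2
  fin_cases i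
  · exact (((hx 3).add (hc 0)).add (hx 1)).add (hx 2)
  · exact (((hx 4).add (hx 0)).add (hc 1)).add (hx 2)
  · exact (((hx 5).add (hx 0)).add (hx 1)).add (hc 2)

theorem result :
    ¬ (∀ (k : Type) [Field k] (n d : ℕ) (Δ : Finset (Finset (Fin n)))
      (p : Fin n → EuclideanSpace ℝ (Fin (d - 1))) (x : EuclideanSpace ℝ (Fin (d - 1)))
      (θ : Fin d → MvPolynomial (Fin n) k) (J : Ideal (MvPolynomial (Fin n) k))
      (f : {F : Finset (Fin n) // F ∈ Δ ∧ F.card = d} → MvPolynomial (Fin n) k ⧸ J),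
      1 ≤ d →
      (∀ S ∈ Δ, ∀ T : Finset (Fin n), T ⊆ S → T ∈ Δ) →
      (∀ i : Fin n, ({i} : Finset (Fin n)) ∈ Δ) →
      (∀ S ∈ Δ, S.card ≤ d) →
      (∃ S ∈ Δ, S.card = d) →
      (∀ S ∈ Δ, AffineIndependent ℝ (fun i : (S : Set (Fin n)) => p i)) →
      (∀ S ∈ Δ, ∀ T ∈ Δ,
        convexHull ℝ (p '' (S : Set (Fin n))) ∩ convexHull ℝ (p '' (T : Set (Fin n))) =
          convexHull ℝ (p '' ((S ∩ T : Finset (Fin n)) : Set (Fin n)))) →
      Convex ℝ (⋃ S ∈ Δ, convexHull ℝ (p '' (S : Set (Fin n)))) →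
      x ∈ (⋃ S ∈ Δ, convexHull ℝ (p '' (S : Set (Fin n)))) →
      (∀ H ∈ Δ, H.card + 1 = d → x ∉ affineSpan ℝ (p '' (H : Set (Fin n)))) →
      (∀ i, (θ i).IsHomogeneous 1) →
      J = Ideal.span ((fun S : Finset (Fin n) => ∏ i ∈ S, (MvPolynomial.X i : MvPolynomial (Fin n) k)) ''
              {S : Finset (Fin n) | S ∉ Δ}) ⊔ Ideal.span (Set.range θ) →
      Module.Finite k (MvPolynomial (Fin n) k ⧸ J) →
      (∀ F, f F = Ideal.Quotient.mk J
          (∏ v ∈ F.1.filter (fun v =>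
              (affineSpan ℝ (p '' ((F.1.erase v : Finset (Fin n)) : Set (Fin n)))).SOppSide x (p v)),
            (MvPolynomial.X v : MvPolynomial (Fin n) k))) →
      LinearIndependent k f ∧ Submodule.span k (Set.range f) = ⊤) := by
  intro h
  have key := (h ℚ 6 3 Dl p x0 th JJ
    (fun F => Ideal.Quotient.mk JJ (∏ v ∈ F.1.filter (fun v => Vis F.1 v), X v))
    (by norm_num) down (by decide +kernel) (by decide +kernel) (by decide +kernel) aff_ind inter_prop
    (by rw [union_eq]; exact conv) (by rw [union_eq]; simp; norm_num) generic hom rfl fin_quot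
    (fun F => rfl)).2
  have hP : ∀ u ∈ Submodule.span ℚ (Set.range (fun F : {F : Finset (Fin 6) // F ∈ Dl ∧ F.card = 3} =>
      Ideal.Quotient.mk JJ (∏ v ∈ F.1.filter (fun v => Vis F.1 v), X v))),
      ∃ g, Ideal.Quotient.mk JJ g = u ∧ Ph g = 0 := by
    intro u hu
    induction hu using Submodule.span_induction with
    | mem u hu =>
      obtain ⟨F, rfl⟩ := hu
      exact ⟨_, rfl, Ph_vis F.1 F.2.1 F.2.2⟩
    | zero => exact ⟨0, map_zero _, Ph_zero⟩
    | add u v _ _ hu hv =>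
      obtain ⟨g, rfl, hg⟩ := hu
      obtain ⟨g', rfl, hg'⟩ := hv
      exact ⟨g + g', map_add _ _ _, by rw [Ph_add, hg, hg', add_zero]⟩
    | smul a u _ hu =>
      obtain ⟨g, rfl, hg⟩ := hu
      exact ⟨a • g, rfl, by rw [Ph_smul, hg, mul_zero]⟩
  obtain ⟨g, hg, hg0⟩ := hP (Ideal.Quotient.mk JJ (X 0 * X 1)) (by rw [key]; trivial)
  have hJ := Ph_J _ (Ideal.Quotient.eq.1 hg)
  have : Ph g = Ph (g - X 0 * X 1) + Ph (X 0 * X 1) := by rw [← Ph_add]; simp
  rw [hg0, hJ, Ph_ab] at this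
  norm_num at this

end Pool.Agent.S06890
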