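import Pool.Statements.S06936

set_option autoImplicit false
open Pool Pool.MP_038631_co

namespace Pool.Agent.S06936

/-- Two disjoint copies of the complete graph on 13 vertices. -/
def G : SimpleGraph (Fin 2 × Fin 13) where
  Adj a b := a.1 = b.1 ∧ a.2 ≠ b.2
  symm := ⟨fun _ _ h => ⟨h.1.symm, h.2.symm⟩⟩
  loopless := ⟨fun _ h => h.2 rfl⟩

instance : DecidableRel G.Adj := fun a b =>
  inferInstanceAs (Decidable (a.1 = b.1 ∧ a.2 ≠ b.2))

lemma deg (v : Fin 2 × Fin 13) : G.degree v = 12 := by
  revert v
  decide +kernel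

lemma walk_fst {a b : Fin 2 × Fin 13} (w : G.Walk a b) :
    ∀ x ∈ w.support, x.1 = a.1 := by
  induction w with
  | nil => simp
  | cons h w ih =>
    intro x hx
    rw [SimpleGraph.Walk.support_cons, List.mem_cons] at hx
    rcases hx with rfl | hx
    · rfl
    · rw [ih x hx, h.1]

lemma card_support {a : Fin 2 × Fin 13} (w : G.Walk a a) (hw : w.IsCycle) :
    w.length ≤ w.support.toFinset.card := by
  have h1 : w.support.tail.Nodup := hw.support_nodup
  have h2 : w.support.tail.length = w.length := by
    simp [List.length_tail, SimpleGraph.Walk.length_support]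
  rw [← h2, ← List.toFinset_card_of_nodup h1]
  apply Finset.card_le_card
  intro x hx
  rw [List.mem_toFinset] at hx ⊢
  exact List.mem_of_mem_tail hx

lemma two {a b : Fin 2 × Fin 13} (w : G.Walk a a) (w' : G.Walk b b) (hw : w.IsCycle)
    (hw' : w'.IsCycle) (h7 : 7 ≤ w.length) (h7' : 7 ≤ w'.length)
    (hd : List.Disjoint w.support w'.support) : a.1 ≠ b.1 := by
  intro hab
  have h1 := card_support w hw
  have h2 := card_support w' hw'
  have hdisj : Disjoint w.support.toFinset w'.support.toFinset :=
    List.disjoint_toFinset_iff_disjoint.mpr hd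
  have hsub : w.support.toFinset ∪ w'.support.toFinset ⊆
      Finset.univ.filter (fun x : Fin 2 × Fin 13 => x.1 = a.1) := by
    intro x hx
    rw [Finset.mem_union, List.mem_toFinset, List.mem_toFinset] at hx
    rw [Finset.mem_filter]
    refine ⟨Finset.mem_univ _, ?_⟩
    rcases hx with hx | hx
    · exact walk_fst w x hx
    · rw [walk_fst w' x hx, hab]
  have hc := Finset.card_le_card hsub
  rw [Finset.card_union_of_disjoint hdisj] at hc
  have h13 : ∀ c : Fin 2,
      (Finset.univ.filter (fun x : Fin 2 × Fin 13 => x.1 = c)).card = 13 := by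
    decide +kernel
  rw [h13] at hc
  omega

/-- Counterexample: k = 3, r = 7, two disjoint copies of K13. -/
theorem result :
    ¬ (∀ k r : ℕ, 2 ≤ k → 3 ≤ r → Odd r →
      ∀ (V : Type) [Fintype V] (G : SimpleGraph V) [DecidableRel G.Adj],
        r * k ≤ Fintype.card V →
        (∀ v : V, (r + 1) * k ≤ 2 * G.degree v) →
        ∃ (u : Fin k → V) (c : ∀ i : Fin k, G.Walk (u i) (u i)),
          (∀ i : Fin k, (c i).IsCycle ∧ r ≤ (c i).length) ∧
          ∀ i j : Fin k, i ≠ j → List.Disjoint (c i).support (c j).support) := by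
  intro h
  obtain ⟨u, c, hc, hd⟩ := h 3 7 (by norm_num) (by norm_num) (by decide) (Fin 2 × Fin 13) G
    (by simp) (fun v => by rw [deg v])
  have key : ∀ i j : Fin 3, i ≠ j → (u i).1 ≠ (u j).1 := fun i j hij =>
    two (c i) (c j) (hc i).1 (hc j).1 (hc i).2 (hc j).2 (hd i j hij)
  have h01 := key 0 1 (by decide)
  have h02 := key 0 2 (by decide)
  have h12 := key 1 2 (by decide)
  revert h01 h02 h12
  generalize (u 0).1 = x
  generalize (u 1).1 = y
  generalize (u 2).1 = z
  revert x y z
  decide

end Pool.Agent.S06936
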