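import Pool.Statements.S06973

set_option autoImplicit false
open Pool Pool.MP_058b80_co

namespace Pool.Agent.S06973

open Set

/-- Abstract integer rank functions. -/
structure IsRk {α : Type*} (r : Set α → ℤ) : Prop where
  empty : r ∅ = 0
  mono : ∀ X e, r X ≤ r (insert e X)
  step : ∀ X e, r (insert e X) ≤ r X + 1
  submod : ∀ X Y, r (X ∩ Y) + r (X ∪ Y) ≤ r X + r Y

theorem IsRk.single {α : Type*} {r : Set α → ℤ} (h : IsRk r) {e : α} {Y : Set α} (he : e ∉ Y)
    (hlt : r Y < r (insert e Y)) : r {e} = 1 := by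
  have h1 := h.submod Y {e}
  have h2 : Y ∩ {e} = ∅ := by
    ext x; simp only [mem_inter_iff, mem_singleton_iff, mem_empty_iff_false, iff_false]
    rintro ⟨hx, rfl⟩; exact he hx
  have h3 : Y ∪ {e} = insert e Y := by simp
  have h4 := h.step ∅ e
  rw [h2, h3, h.empty] at h1
  rw [h.empty, insert_empty_eq] at h4
  omega

theorem IsRk.contract {α : Type*} {r : Set α → ℤ} (h : IsRk r) {e : α} (he : r {e} = 1) :
    IsRk (fun X => r (insert e X) - 1) where
  empty := by simp [he]
  mono := fun X f => by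
    have := h.mono (insert e X) f
    rw [insert_comm] at this
    omega
  step := fun X f => by
    have := h.step (insert e X) f
    rw [insert_comm] at this
    omega
  submod := fun X Y => by
    have := h.submod (insert e X) (insert e Y)
    rw [← insert_inter_distrib, ← insert_union_distrib] at this
    omega

/-- Edmonds' matroid intersection theorem, in terms of rank functions. -/
theorem inter_thm {α : Type*} {U : Set α} (hU : U.Finite) :
    ∀ (r1 r2 : Set α → ℤ) (k : ℕ), IsRk r1 → IsRk r2 →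
      (∀ X ⊆ U, (k : ℤ) ≤ r1 X + r2 (U \ X)) →
      ∃ I ⊆ U, I.ncard = k ∧ r1 I = k ∧ r2 I = k := by
  induction U, hU using Set.Finite.induction_on with
  | empty =>
    intro r1 r2 k h1 h2 h
    have := h ∅ subset_rfl
    simp only [h1.empty, h2.empty, sdiff_self] at this
    have hk : k = 0 := by omega
    subst hk
    exact ⟨∅, subset_rfl, by simp, by simp [h1.empty], by simp [h2.empty]⟩
  | @insert e U he hU ih =>
    intro r1 r2 k h1 h2 h
    rcases Nat.eq_zero_or_pos k with rfl | hk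
    · exact ⟨∅, empty_subset _, by simp, by simp [h1.empty], by simp [h2.empty]⟩
    by_cases hdel : ∀ X ⊆ U, (k : ℤ) ≤ r1 X + r2 (U \ X)
    · obtain ⟨I, hI, h'⟩ := ih r1 r2 k h1 h2 hdel
      exact ⟨I, hI.trans (subset_insert _ _), h'⟩
    push Not at hdel
    obtain ⟨A, hA, hAlt⟩ := hdel
    have heA : e ∉ A := fun hh => he (hA hh)
    have ha1 := h A (hA.trans (subset_insert _ _))
    have ha2 := h (insert e A) (insert_subset_insert hA)
    have e1 : insert e U \ A = insert e (U \ A) := by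
      ext x; simp only [mem_sdiff, mem_insert_iff]; constructor
      · rintro ⟨hx | hx, hxa⟩
        · exact Or.inl hx
        · exact Or.inr ⟨hx, hxa⟩
      · rintro (rfl | ⟨hx, hxa⟩)
        · exact ⟨Or.inl rfl, heA⟩
        · exact ⟨Or.inr hx, hxa⟩
    have e2 : insert e U \ insert e A = U \ A := by
      ext x; simp only [mem_sdiff, mem_insert_iff, not_or]; constructor
      · rintro ⟨hx | hx, hxe, hxa⟩
        · exact absurd hx hxe
        · exact ⟨hx, hxa⟩
      · rintro ⟨hx, hxa⟩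
        exact ⟨Or.inr hx, fun hh => he (hh ▸ hx), hxa⟩
    rw [e1] at ha1
    rw [e2] at ha2
    have s1 : r1 {e} = 1 := h1.single heA (by omega)
    have s2 : r2 {e} = 1 := h2.single (Y := U \ A) (fun hh => he hh.1) (by omega)
    obtain ⟨j, rfl⟩ : ∃ j, k = j + 1 := ⟨k - 1, by omega⟩
    by_cases hcon : ∀ X ⊆ U, (j : ℤ) ≤ (r1 (insert e X) - 1) + (r2 (insert e (U \ X)) - 1)
    · obtain ⟨I, hI, hc, hr1, hr2⟩ := ih _ _ j (h1.contract s1) (h2.contract s2) hcon
      refine ⟨insert e I, insert_subset_insert hI, ?_, ?_, ?_⟩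
      · rw [ncard_insert_of_notMem (fun hh => he (hI hh)) (hU.subset hI), hc]
      · push_cast; omega
      · push_cast; omega
    exfalso
    push Not at hcon
    obtain ⟨B, hB, hBlt⟩ := hcon
    have heB : e ∉ B := fun hh => he (hB hh)
    have m1 := h1.submod A (insert e B)
    have m2 := h2.submod (U \ A) (insert e (U \ B))
    have b1 := h (A ∩ insert e B) (inter_subset_left.trans (hA.trans (subset_insert _ _)))
    have b2 := h (A ∪ insert e B)
      (union_subset (hA.trans (subset_insert _ _)) (insert_subset_insert hB))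
    have e3 : insert e U \ (A ∩ insert e B) = U \ A ∪ insert e (U \ B) := by
      ext x
      by_cases hxe : x = e
      · subst hxe; simp [heA]
      · simp only [mem_sdiff, mem_insert_iff, hxe, false_or, mem_inter_iff, mem_union]; tauto
    have e4 : insert e U \ (A ∪ insert e B) = U \ A ∩ insert e (U \ B) := by
      ext x
      by_cases hxe : x = e
      · subst hxe; simp [he]
      · simp only [mem_sdiff, mem_insert_iff, hxe, false_or, mem_inter_iff, mem_union]; tauto
    rw [e3] at b1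
    rw [e4] at b2
    push_cast at *
    omega

variable {n : ℕ}

/-- The integer-valued rank. -/
noncomputable def rk (M : Matroid (Fin n)) (X : Set (Fin n)) : ℕ := (M.eRk X).toNat

theorem rk_coe (M : Matroid (Fin n)) (X : Set (Fin n)) : (rk M X : ℕ∞) = M.eRk X := by
  apply ENat.natCast_toNat
  exact ne_top_of_le_ne_top (toFinite X).encard_lt_top.ne (M.eRk_le_encard X)

theorem rk_mono (M : Matroid (Fin n)) {X Y : Set (Fin n)} (h : X ⊆ Y) : rk M X ≤ rk M Y := by
  have := M.eRk_mono h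
  rw [← rk_coe, ← rk_coe] at this
  exact_mod_cast this

theorem rk_insert (M : Matroid (Fin n)) (X : Set (Fin n)) (e : Fin n) :
    rk M (insert e X) ≤ rk M X + 1 := by
  have := M.eRk_insert_le_add_one e X
  rw [← rk_coe, ← rk_coe] at this
  exact_mod_cast this

theorem rk_submod (M : Matroid (Fin n)) (X Y : Set (Fin n)) :
    rk M (X ∩ Y) + rk M (X ∪ Y) ≤ rk M X + rk M Y := by
  have := M.eRk_inter_add_eRk_union_le X Y
  rw [← rk_coe, ← rk_coe, ← rk_coe, ← rk_coe] at this
  exact_mod_cast this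

theorem rk_indep {M : Matroid (Fin n)} {I : Set (Fin n)} (h : M.Indep I) : rk M I = I.ncard := by
  have := h.eRk_eq_encard
  rw [← rk_coe, ← (toFinite I).cast_ncard_eq] at this
  exact_mod_cast this

theorem indep_of_rk {M : Matroid (Fin n)} {I : Set (Fin n)} (h : rk M I = I.ncard) :
    M.Indep I := by
  rw [Matroid.indep_iff_eRk_eq_encard_of_finite (toFinite I), ← rk_coe,
    ← (toFinite I).cast_ncard_eq, h]

theorem rk_base {M : Matroid (Fin n)} {B : Set (Fin n)} (h : M.IsBase B) :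
    B.ncard = rk M univ := by
  have := h.encard_eq_eRank
  rw [← M.eRk_univ_eq, ← rk_coe, ← (toFinite B).cast_ncard_eq] at this
  exact_mod_cast this

theorem exists_base_of_rk {M : Matroid (Fin n)} {S : Set (Fin n)} (h : rk M S = rk M univ) :
    ∃ B, M.IsBase B ∧ B ⊆ S := by
  obtain ⟨I, hI⟩ := M.exists_isBasis' S
  refine ⟨I, hI.indep.isBase_of_eRk_ge (toFinite I) ?_, hI.subset⟩
  rw [hI.eRk_eq_eRk, ← M.eRk_univ_eq, ← rk_coe, ← rk_coe, h]

theorem isRk1 (M : Matroid (Fin n)) : IsRk (fun X => (rk M X : ℤ)) where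
  empty := by simp [rk]
  mono := fun X e => by exact_mod_cast rk_mono M (subset_insert _ _)
  step := fun X e => by exact_mod_cast rk_insert M X e
  submod := fun X Y => by exact_mod_cast rk_submod M X Y

theorem isRk2 (M : Matroid (Fin n)) :
    IsRk (fun X : Set (Fin n) => (X.ncard : ℤ) + rk M Xᶜ - rk M univ) where
  empty := by simp
  mono := fun X e => by
    by_cases he : e ∈ X
    · rw [insert_eq_of_mem he]
    · have h1 := ncard_insert_of_notMem he (toFinite X)
      have h2 := rk_insert M (insert e X)ᶜ e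
      have h3 : insert e (insert e X)ᶜ = Xᶜ := by
        ext x
        by_cases hx : x = e
        · subst hx; simp [he]
        · simp [hx]
      rw [h3] at h2
      simp only [h1]
      push_cast
      omega
  step := fun X e => by
    have h1 := ncard_insert_le e X
    have h2 : rk M (insert e X)ᶜ ≤ rk M Xᶜ := rk_mono M (compl_subset_compl.2 (subset_insert _ _))
    omega
  submod := fun X Y => by
    have h1 := ncard_union_add_ncard_inter X Y
    have h2 := rk_submod M Xᶜ Yᶜ
    rw [← compl_union, ← compl_inter] at h2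
    omega

/-- The structure of diametral pairs of bases. -/
theorem exists_X (M : Matroid (Fin n)) : ∃ X : Set (Fin n), ∃ C₁ C₂, M.IsBase C₁ ∧ M.IsBase C₂ ∧
    ∀ B₁ B₂, M.IsBase B₁ → M.IsBase B₂ →
      (symmDiff B₁ B₂).ncard < (symmDiff C₁ C₂).ncard ∨
      ((B₁ ∩ X).ncard = rk M X ∧ (B₂ ∩ X).ncard = rk M X ∧ B₁ ∩ B₂ ∩ X = ∅ ∧
        Xᶜ ⊆ B₁ ∪ B₂) := by
  classical
  obtain ⟨X, -, hX⟩ := (toFinite (univ : Set (Set (Fin n)))).exists_minimalFor
    (fun X : Set (Fin n) => 2 * rk M X + Xᶜ.ncard) univ univ_nonempty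
  have hX' : ∀ Y : Set (Fin n), 2 * rk M X + Xᶜ.ncard ≤ 2 * rk M Y + Yᶜ.ncard := fun Y => by
    by_contra hlt
    have := hX (mem_univ Y) (le_of_lt (not_le.1 hlt))
    exact hlt this
  have hge : rk M univ ≤ 2 * rk M X + Xᶜ.ncard := by
    obtain ⟨B, hB⟩ := M.exists_isBase
    have h1 := rk_base hB
    have h2 := ncard_inter_add_ncard_sdiff_eq_ncard B X
    have h3 : (B \ X).ncard ≤ Xᶜ.ncard := ncard_le_ncard (fun x hx => hx.2)
    have h4 := rk_indep (hB.indep.inter_right X)
    have h5 : rk M (B ∩ X) ≤ rk M X := rk_mono M inter_subset_right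
    omega
  obtain ⟨k, hk⟩ := Nat.exists_eq_add_of_le hge
  obtain ⟨I, -, hc, hr1, hr2⟩ := inter_thm (toFinite (univ : Set (Fin n))) _ _ k (isRk1 M)
    (isRk2 M) (fun Y _ => by
      have := hX' Y
      simp only [← compl_eq_univ_sdiff, compl_compl]
      omega)
  have hI : M.Indep I := indep_of_rk (by omega)
  obtain ⟨C₁, hC₁, hIC⟩ := hI.exists_isBase_superset
  obtain ⟨C₂, hC₂, hC₂I⟩ := exists_base_of_rk (M := M) (S := Iᶜ) (by omega)
  have hsd : ∀ B₁ B₂, M.IsBase B₁ → M.IsBase B₂ →
      (symmDiff B₁ B₂).ncard + 2 * rk M univ = 2 * (B₁ ∪ B₂).ncard := fun B₁ B₂ h1 h2 => by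
    have a1 := rk_base h1
    have a2 := rk_base h2
    have a3 := ncard_union_add_ncard_inter B₁ B₂
    have a4 : symmDiff B₁ B₂ = (B₁ ∪ B₂) \ (B₁ ∩ B₂) := symmDiff_eq_sup_sdiff_inf _ _
    have a5 := ncard_sdiff_add_ncard_of_subset
      (show B₁ ∩ B₂ ⊆ B₁ ∪ B₂ from inter_subset_left.trans subset_union_left)
    rw [a4]
    omega
  refine ⟨X, C₁, C₂, hC₁, hC₂, fun B₁ B₂ h1 h2 => ?_⟩
  have c1 := hsd C₁ C₂ hC₁ hC₂
  have c2 := hsd B₁ B₂ h1 h2
  have c3 : (I ∪ C₂).ncard ≤ (C₁ ∪ C₂).ncard := ncard_le_ncard (union_subset_union_left _ hIC)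
  have c4 : (I ∪ C₂).ncard = I.ncard + C₂.ncard :=
    ncard_union_eq (disjoint_left.2 fun x hx hx' => hC₂I hx' hx)
  have c5 := rk_base hC₂
  by_cases hlt : (symmDiff B₁ B₂).ncard < (symmDiff C₁ C₂).ncard
  · exact Or.inl hlt
  right
  have d1 := ncard_inter_add_ncard_sdiff_eq_ncard (B₁ ∪ B₂) X
  have d2 := ncard_union_add_ncard_inter (B₁ ∩ X) (B₂ ∩ X)
  rw [← union_inter_distrib_right, ← inter_inter_distrib_right] at d2
  have d3 : ((B₁ ∪ B₂) \ X).ncard ≤ Xᶜ.ncard := ncard_le_ncard (fun x hx => hx.2)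
  have d4 := rk_indep (h1.indep.inter_right X)
  have d5 : rk M (B₁ ∩ X) ≤ rk M X := rk_mono M inter_subset_right
  have d6 := rk_indep (h2.indep.inter_right X)
  have d7 : rk M (B₂ ∩ X) ≤ rk M X := rk_mono M inter_subset_right
  refine ⟨by omega, by omega, ?_, ?_⟩
  · rw [← ncard_eq_zero]; omega
  · have : (B₁ ∪ B₂) \ X = Xᶜ :=
      eq_of_subset_of_ncard_le (fun x hx => hx.2) (by omega)
    rw [← this]; exact sdiff_subset

theorem colour (Y : Set (Fin n)) (d : ℕ) (hY : Y.ncard ≤ d + 1) (P : Set (Fin n) → Fin n → Prop) :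
    ∃ f : Set (Fin n) → Fin (d + 1), ∀ B₁ B₂, (∃ y ∈ Y, P B₁ y) → (∃ y ∈ Y, P B₂ y) →
      f B₁ = f B₂ → ∃ y ∈ Y, P B₁ y ∧ P B₂ y := by
  classical
  have hcard : Fintype.card Y ≤ Fintype.card (Fin (d + 1)) := by
    rw [← Nat.card_eq_fintype_card, Nat.card_coe_set_eq]; simpa using hY
  obtain ⟨g⟩ := Function.Embedding.nonempty_of_card_le hcard
  refine ⟨fun B => if h : ∃ y ∈ Y, P B y then g ⟨h.choose, h.choose_spec.1⟩ else 0,
    fun B₁ B₂ h1 h2 h => ?_⟩
  simp only [dif_pos h1, dif_pos h2] at h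
  have := congrArg Subtype.val (g.injective h)
  simp only at this
  exact ⟨h1.choose, h1.choose_spec.1, h1.choose_spec.2, this ▸ h2.choose_spec.2⟩

theorem card_le (W : Submodule ℝ (Fin n → ℝ)) (Y : Set (Fin n)) (e : Fin n)
    (h : ∀ y ∈ Y, y ≠ e → (Pi.single y (1 : ℝ) - Pi.single e 1 : Fin n → ℝ) ∈ W) :
    Y.ncard ≤ Module.finrank ℝ W + 1 := by
  classical
  let v : ↥(Y \ {e}) → W := fun y => ⟨Pi.single y.1 1 - Pi.single e 1, h y.1 y.2.1 y.2.2⟩
  have hv : LinearIndependent ℝ v := by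
    apply LinearIndependent.of_comp W.subtype
    rw [Fintype.linearIndependent_iff]
    intro g hg i
    have := congrFun hg i.1
    have hie : i.1 ≠ e := i.2.2
    simp only [Function.comp, v, Submodule.subtype_apply, Finset.sum_apply, Pi.smul_apply,
      Pi.sub_apply, Pi.single_apply, hie, if_false, sub_zero, smul_eq_mul, mul_ite, mul_one,
      mul_zero, Pi.zero_apply, Subtype.val_inj] at this
    simpa using this
  have h1 := hv.fintype_card_le_finrank
  rw [← Nat.card_eq_fintype_card, Nat.card_coe_set_eq] at h1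
  have h2 : Y.ncard ≤ (insert e (Y \ {e})).ncard := ncard_le_ncard (fun x hx => by
    by_cases hxe : x = e
    · exact Or.inl hxe
    · exact Or.inr ⟨hx, hxe⟩)
  have h3 := ncard_insert_le e (Y \ {e})
  omega

theorem ind_sub {B : Set (Fin n)} {a b : Fin n} (ha : a ∉ B) (hb : b ∈ B) :
    (insert a (B \ {b})).indicator (fun _ : Fin n => (1 : ℝ)) -
      B.indicator (fun _ : Fin n => (1 : ℝ)) = Pi.single a (1 : ℝ) - Pi.single b 1 := by
  classical
  have hab : a ≠ b := fun h => ha (h ▸ hb)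
  ext x
  simp only [Pi.sub_apply, indicator_apply, Pi.single_apply, mem_insert_iff, mem_sdiff,
    mem_singleton_iff]
  by_cases h1 : x = a
  · subst h1; simp [ha, hab]
  · by_cases h2 : x = b
    · subst h2; simp [hb, h1]
    · simp [h1, h2]

/-- For every matroid on a finite set with at least two bases, its bases can be split into (dimension of the base polytope + 1) classes so that, within each class, any two bases are strictly closer than the farthest pair of bases. -/
theorem result :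
    ∀ (n : ℕ) (M : Matroid (Fin n)),
      (∃ B₁ B₂ : Set (Fin n), M.IsBase B₁ ∧ M.IsBase B₂ ∧ B₁ ≠ B₂) →
      ∃ f : Set (Fin n) →
          Fin (Module.finrank ℝ
            (affineSpan ℝ
              ((fun B : Set (Fin n) => B.indicator (fun _ : Fin n => (1 : ℝ))) ''
                {B : Set (Fin n) | M.IsBase B})).direction + 1),
        ∀ B₁ B₂ : Set (Fin n), M.IsBase B₁ → M.IsBase B₂ → f B₁ = f B₂ →
          ∃ C₁ C₂ : Set (Fin n), M.IsBase C₁ ∧ M.IsBase C₂ ∧
            (symmDiff B₁ B₂).ncard < (symmDiff C₁ C₂).ncard := by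
  rintro n M ⟨D₁, D₂, hD₁, hD₂, hD⟩
  set W := (affineSpan ℝ
              ((fun B : Set (Fin n) => B.indicator (fun _ : Fin n => (1 : ℝ))) ''
                {B : Set (Fin n) | M.IsBase B})).direction with hW
  have hmem : ∀ B a b, M.IsBase B → a ∉ B → b ∈ B → M.IsBase (insert a (B \ {b})) →
      (Pi.single a (1 : ℝ) - Pi.single b 1 : Fin n → ℝ) ∈ W := fun B a b hB ha hb hB' => by
    rw [← ind_sub ha hb, hW]
    exact AffineSubspace.vsub_mem_direction (subset_affineSpan ℝ _ ⟨_, hB', rfl⟩)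
      (subset_affineSpan ℝ _ ⟨_, hB, rfl⟩)
  obtain ⟨X, C₁, C₂, hC₁, hC₂, hX⟩ := exists_X M
  rcases Nat.eq_zero_or_pos (rk M X) with h0 | hpos
  · obtain ⟨e, he2, he1⟩ : ∃ e, e ∈ D₂ ∧ e ∉ D₁ := by
      by_contra hcon
      push Not at hcon
      exact hD (hD₂.eq_of_subset_isBase hD₁ hcon).symm
    have heE : e ∈ M.E := hD₂.subset_ground he2
    have hcirc := hD₁.fundCircuit_isCircuit heE he1
    have hY : (M.fundCircuit e D₁).ncard ≤ Module.finrank ℝ W + 1 := by
      apply card_le W _ e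
      intro y hy hye
      have hyD : y ∈ D₁ := (M.fundCircuit_subset_insert e D₁ hy).resolve_left hye
      rw [hD₁.indep.mem_fundCircuit_iff (by rwa [hD₁.closure_eq]) he1,
        ← insert_sdiff_singleton_comm (Ne.symm hye)] at hy
      have := hmem D₁ e y hD₁ he1 hyD (hD₁.exchange_isBase_of_indep he1 hy)
      rw [← neg_sub]
      exact W.neg_mem this
    obtain ⟨f, hf⟩ := colour _ _ hY (fun B y => y ∉ B)
    refine ⟨f, fun B₁ B₂ h1 h2 hff => ⟨C₁, C₂, hC₁, hC₂, ?_⟩⟩
    refine (hX B₁ B₂ h1 h2).resolve_right ?_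
    rintro ⟨-, -, -, hsub⟩
    have hmiss : ∀ B, M.IsBase B → ∃ y ∈ M.fundCircuit e D₁, y ∉ B := fun B hB => by
      by_contra hcon
      push Not at hcon
      exact hcirc.not_indep (hB.indep.subset hcon)
    obtain ⟨y, hy, hy1, hy2⟩ := hf B₁ B₂ (hmiss B₁ h1) (hmiss B₂ h2) hff
    have hyX : y ∈ X := by
      by_contra hyX
      rcases hsub hyX with h | h
      · exact hy1 h
      · exact hy2 h
    have hyi : M.Indep {y} := by
      rcases M.fundCircuit_subset_insert e D₁ hy with rfl | h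
      · exact hD₂.indep.subset (singleton_subset_iff.2 he2)
      · exact hD₁.indep.subset (singleton_subset_iff.2 h)
    have a1 := rk_indep hyi
    have a2 : rk M {y} ≤ rk M X := rk_mono M (singleton_subset_iff.2 hyX)
    rw [ncard_singleton] at a1
    omega
  · obtain ⟨I, hI⟩ := M.exists_isBasis' X
    have hIne : I.Nonempty := by
      rw [← ncard_pos, ← rk_indep hI.indep]
      have : rk M I = rk M X := by simp only [rk, hI.eRk_eq_eRk]
      omega
    obtain ⟨e, he⟩ := hIne
    obtain ⟨B₀, hB₀, hIB⟩ := hI.indep.exists_isBase_superset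
    have heB : e ∈ B₀ := hIB he
    have heX : e ∈ X := hI.subset he
    have hecl : e ∉ M.closure (B₀ \ {e}) := hB₀.indep.notMem_closure_sdiff_of_mem heB
    have hY : (M.E \ M.closure (B₀ \ {e})).ncard ≤ Module.finrank ℝ W + 1 := by
      apply card_le W _ e
      intro y hy hye
      have hyB : y ∉ B₀ := fun h => hy.2 (M.mem_closure_of_mem' ⟨h, hye⟩ hy.1)
      exact hmem B₀ y e hB₀ hyB heB (hB₀.exchange_base_of_notMem_closure heB hy.2 hy.1)
    obtain ⟨f, hf⟩ := colour _ _ hY (fun B y => y ∈ B ∩ X)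
    refine ⟨f, fun B₁ B₂ h1 h2 hff => ⟨C₁, C₂, hC₁, hC₂, ?_⟩⟩
    refine (hX B₁ B₂ h1 h2).resolve_right ?_
    rintro ⟨hc1, hc2, hdis, -⟩
    have hmeet : ∀ B, M.IsBase B → (B ∩ X).ncard = rk M X →
        ∃ y ∈ M.E \ M.closure (B₀ \ {e}), y ∈ B ∩ X := fun B hB hc => by
      by_contra hcon
      push Not at hcon
      have hsub : B ∩ X ⊆ M.closure (B₀ \ {e}) := fun y hy => by
        by_contra hy'
        exact hcon y ⟨hB.subset_ground hy.1, hy'⟩ hy
      have he' : e ∉ M.closure (B ∩ X) := fun h =>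
        hecl (M.closure_subset_closure_of_subset_closure hsub h)
      have heBX : e ∉ B ∩ X := fun h => hecl (hsub h)
      have hind : M.Indep (insert e (B ∩ X)) :=
        ((hB.indep.inter_right X).insert_indep_iff_of_notMem heBX).2
          ⟨hB₀.subset_ground heB, he'⟩
      have a1 := rk_indep hind
      rw [ncard_insert_of_notMem heBX] at a1
      have a2 : rk M (insert e (B ∩ X)) ≤ rk M X := rk_mono M (insert_subset heX inter_subset_right)
      omega
    obtain ⟨y, -, hy1, hy2⟩ := hf B₁ B₂ (hmeet B₁ h1 hc1) (hmeet B₂ h2 hc2) hff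
    have : y ∈ B₁ ∩ B₂ ∩ X := ⟨⟨hy1.1, hy2.1⟩, hy1.2⟩
    rw [hdis] at this
    exact this

end Pool.Agent.S06973
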