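import Pool.Statements.S07056

set_option autoImplicit false
open Pool Pool.MP_0959cd_co

namespace Pool.Agent.S07056

/-- Weights (times 20) of the out-heavy digraph on `0..12`: root `0`, children `1, 2`,
leaves `3..7` below `1` and `8..12` below `2`. -/
def w0 (a b : ℕ) : ℕ :=
  if a = 0 then (if b = 1 ∨ b = 2 then 10 else 0)
  else if a = 1 then (if 3 ≤ b ∧ b ≤ 7 then 4 else 0)
  else if a = 2 then (if 8 ≤ b ∧ b ≤ 12 then 4 else 0)
  else if b = 0 then 5
  else if a ≤ 7 then (if b = 1 then 15 else 0)
  else (if b = 2 then 15 else 0)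

/-- Weights (times 20) on 26 vertices: the digraph above on `0..12`, its reverse on `13..25`,
and an arc of full weight from `13 + a` to `a`. -/
def wt (u v : Fin 26) : ℕ :=
  if u.val < 13 then (if v.val < 13 then w0 u.val v.val else 0)
  else if v.val < 13 then (if u.val = v.val + 13 then 20 else 0)
  else w0 (v.val - 13) (u.val - 13)

/-- Exhaustive search over simple paths from `s`: every way of closing up has weight below 20. -/
def ok (s : Fin 26) : ℕ → Fin 26 → List (Fin 26) → ℕ → Bool
  | 0, _, _, _ => false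
  | f + 1, cur, vis, acc =>
    (List.finRange 26).all fun v =>
      if wt cur v = 0 then true
      else if v = s then decide (acc + wt cur v < 20)
      else if v ∈ vis then true
      else ok s f v (v :: vis) (acc + wt cur v)

theorem ok_all : ∀ s : Fin 26, ok s 27 s [s] 0 = true := by decide +kernel

theorem ok_sound (n : ℕ) (d : ℕ → Fin 26) (hadj : ∀ j, wt (d j) (d (j + 1)) ≠ 0)
    (hinj : ∀ i j, i < n → j < n → d i = d j → i = j) (hn : d n = d 0) :
    ∀ (m f j : ℕ) (vis : List (Fin 26)) (acc : ℕ), j + m + 1 = n →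
      (∀ x ∈ vis, ∃ i ≤ j, x = d i) → ok (d 0) f (d j) vis acc = true →
      acc + ∑ i ∈ Finset.range (m + 1), wt (d (j + i)) (d (j + i + 1)) < 20 := by
  intro m
  induction m with
  | zero =>
    intro f j vis acc hj _ hok
    cases f with
    | zero => exact Bool.noConfusion hok
    | succ f =>
      rw [ok, List.all_eq_true] at hok
      have h := hok (d (j + 1)) (List.mem_finRange _)
      have e : d (j + 1) = d 0 := by rw [← hn, ← hj]
      rw [if_neg (hadj j), if_pos e] at h
      have h' := of_decide_eq_true h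
      rw [Finset.sum_range_one]
      exact h'
  | succ m ih =>
    intro f j vis acc hj hvis hok
    cases f with
    | zero => exact Bool.noConfusion hok
    | succ f =>
      rw [ok, List.all_eq_true] at hok
      have h := hok (d (j + 1)) (List.mem_finRange _)
      have e : ¬ d (j + 1) = d 0 := fun e => by
        have := hinj (j + 1) 0 (by omega) (by omega) e
        omega
      have e2 : d (j + 1) ∉ vis := fun hm => by
        obtain ⟨i, hi, hx⟩ := hvis _ hm
        have := hinj (j + 1) i (by omega) (by omega) hx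
        omega
      rw [if_neg (hadj j), if_neg e, if_neg e2] at h
      have h2 := ih f (j + 1) _ _ (by omega) (by
        intro x hx
        rcases List.mem_cons.1 hx with rfl | hx
        · exact ⟨j + 1, le_refl _, rfl⟩
        · obtain ⟨i, hi, hx⟩ := hvis x hx
          exact ⟨i, by omega, hx⟩) h
      rw [Finset.sum_range_succ']
      have e3 : ∑ i ∈ Finset.range (m + 1), wt (d (j + (i + 1))) (d (j + (i + 1) + 1))
          = ∑ i ∈ Finset.range (m + 1), wt (d (j + 1 + i)) (d (j + 1 + i + 1)) :=
        Finset.sum_congr rfl fun i _ => by rw [show j + (i + 1) = j + 1 + i by omega]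
      have e4 : wt (d (j + 0)) (d (j + 0 + 1)) = wt (d j) (d (j + 1)) := rfl
      rw [e3, e4]
      omega

theorem wt_self : ∀ v : Fin 26, wt v v = 0 := by decide +kernel
theorem wt_le : ∀ u v : Fin 26, wt u v ≤ 20 := by decide +kernel
theorem wt_out : ∀ u : Fin 26, 20 ≤ ∑ v, wt u v := by decide +kernel
theorem wt_in : ∀ u : Fin 26, 20 ≤ ∑ v, wt v u := by decide +kernel


/-- The negation of the preceding statement: In every finite nonempty loopless digraph with arc weights in [0,1] where each vertex has total out-weight at least 1 and total in-weight at least 1, some directed cycle has total weight at least 1. -/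
theorem result :
    ¬ (∀ (V : Type) [Fintype V] [Nonempty V] (G : Digraph V) (p : V → V → ℝ),
      (∀ v, ¬ G.Adj v v) →
      (∀ u v, 0 ≤ p u v ∧ p u v ≤ 1) →
      (∀ u v, ¬ G.Adj u v → p u v = 0) →
      (∀ u, 1 ≤ ∑ v, p u v) →
      (∀ u, 1 ≤ ∑ v, p v u) →
      ∃ (k : ℕ) (c : Fin (k + 2) → V),
        Function.Injective c ∧
        (∀ i, G.Adj (c i) (c (i + 1))) ∧
        1 ≤ ∑ i, p (c i) (c (i + 1))) := by
  intro h
  obtain ⟨k, c, hinj, hadj, hsum⟩ := h (Fin 26) ⟨fun u v => wt u v ≠ 0⟩
    (fun u v => (wt u v : ℝ) / 20)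
    (fun v hv => hv (wt_self v))
    (fun u v => ⟨by positivity, by
      have : (wt u v : ℝ) ≤ 20 := by exact_mod_cast wt_le u v
      linarith⟩)
    (fun u v hv => by
      have : wt u v = 0 := by simpa using hv
      simp [this])
    (fun u => by
      have : (20 : ℝ) ≤ ∑ v, (wt u v : ℝ) := by exact_mod_cast wt_out u
      rw [← Finset.sum_div]; linarith)
    (fun u => by
      have : (20 : ℝ) ≤ ∑ v, (wt v u : ℝ) := by exact_mod_cast wt_in u
      rw [← Finset.sum_div]; linarith)
  let d : ℕ → Fin 26 := fun j => c (Fin.ofNat (k + 2) j)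
  have hsucc : ∀ j : ℕ, Fin.ofNat (k + 2) (j + 1) = Fin.ofNat (k + 2) j + 1 := by
    intro j
    ext
    simp [Fin.ofNat, Fin.val_add]
  have hd : ∀ i : Fin (k + 2), d i.val = c i := by
    intro i
    simp only [d]
    congr 1
    ext
    simp [Fin.ofNat, Nat.mod_eq_of_lt i.isLt]
  have key := ok_sound (k + 2) d
    (fun j => by simp only [d]; rw [hsucc]; exact hadj _)
    (fun i j hi hj e => by
      have := hinj e
      have := congrArg Fin.val this
      simpa [Fin.ofNat, Nat.mod_eq_of_lt hi, Nat.mod_eq_of_lt hj] using this)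
    (by simp only [d]; congr 1; ext; simp [Fin.ofNat])
    (k + 1) 27 0 [d 0] 0 (by omega)
    (fun x hx => ⟨0, le_refl _, by simpa using hx⟩) (ok_all _)
  have e : ∑ i ∈ Finset.range (k + 1 + 1), wt (d (0 + i)) (d (0 + i + 1))
      = ∑ i : Fin (k + 2), wt (c i) (c (i + 1)) := by
    rw [Finset.sum_range]
    refine Finset.sum_congr rfl fun i _ => ?_
    simp only [Nat.zero_add]
    have e1 : d (i.val + 1) = c (i + 1) := by
      simp only [d]
      rw [hsucc]
      congr 2
      ext
      simp [Fin.ofNat, Nat.mod_eq_of_lt i.isLt]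
    rw [hd i, e1]
  rw [e] at key
  rw [← Finset.sum_div] at hsum
  have : (∑ i : Fin (k + 2), (wt (c i) (c (i + 1)) : ℝ)) < 20 := by
    have h3 : ∑ i : Fin (k + 2), wt (c i) (c (i + 1)) < 20 := by omega
    exact_mod_cast h3
  linarith

end Pool.Agent.S07056
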