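import Pool.Statements.S07058
-- import your own Pool.Agent.* helpers here

set_option autoImplicit false
open Pool Pool.MP_095a77_co

namespace Pool.Agent.S07058

/-- The negation of the preceding statement: For every integer δ≥1 there are d and n0 so that every d-regular graph on more than n0 vertices splits into two nonempty parts where each vertex has at least d/2+δ neighbours in its own part. -/
theorem result :
    ¬ (∀ δ : ℕ, 1 ≤ δ → ∃ d n₀ : ℕ, ∀ (V : Type) [Fintype V] [DecidableEq V]
      (G : SimpleGraph V) [DecidableRel G.Adj],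
      G.IsRegularOfDegree d → n₀ < Fintype.card V →
      ∃ A : Finset V, A.Nonempty ∧ Aᶜ.Nonempty ∧
        (∀ v ∈ A, (d : ℝ) / 2 + (δ : ℝ) ≤ ((G.neighborFinset v ∩ A).card : ℝ)) ∧
        (∀ v ∈ Aᶜ, (d : ℝ) / 2 + (δ : ℝ) ≤ ((G.neighborFinset v ∩ Aᶜ).card : ℝ))) := by
  intro h
  obtain ⟨d, n₀, h⟩ := h 3 (by norm_num)
  classical
  set k := d / 2 with hk
  set m := k + n₀ + 2 with hm
  have : NeZero (2 * m) := ⟨by omega⟩
  let T : Finset ℤ := (Finset.Icc (-(k : ℤ)) k).erase 0 ∪ (if d % 2 = 1 then {(m : ℤ)} else ∅)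
  have hT : ∀ x, x ∈ T ↔ (x ≠ 0 ∧ -(k : ℤ) ≤ x ∧ x ≤ k) ∨ (d % 2 = 1 ∧ x = m) := by
    intro x
    by_cases hd : d % 2 = 1
    · simp only [T, hd, if_true, Finset.mem_union, Finset.mem_erase, Finset.mem_Icc,
        Finset.mem_singleton, true_and]
    · simp [T, hd]
  have hTc : T.card = d := by
    rw [Finset.card_union_of_disjoint, Finset.card_erase_of_mem (by simp), Int.card_Icc]
    · by_cases hd : d % 2 = 1
      · simp only [hd, if_true, Finset.card_singleton]; omega
      · simp only [hd, if_false, Finset.card_empty]; omega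
    · by_cases hd : d % 2 = 1
      · simp only [hd, if_true, Finset.disjoint_singleton_right, Finset.mem_erase, Finset.mem_Icc]
        omega
      · simp [hd]
  have hinj : ∀ x y : ℤ, -(k : ℤ) ≤ x → x ≤ m → -(k : ℤ) ≤ y → y ≤ m →
      (x : ZMod (2 * m)) = (y : ZMod (2 * m)) → x = y := by
    intro x y h1 h2 h3 h4 hxy
    rw [ZMod.intCast_eq_intCast_iff_dvd_sub] at hxy
    obtain ⟨c, hc⟩ := hxy
    push_cast at hc
    have hc0 : c = 0 := by
      by_contra hne
      rcases lt_or_gt_of_ne hne with h5 | h5 <;> nlinarith [show (k : ℤ) < m by omega]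
    rw [hc0] at hc; omega
  let S : Finset (ZMod (2 * m)) := T.image (fun x : ℤ => (x : ZMod (2 * m)))
  have hSc : S.card = d := by
    rw [Finset.card_image_of_injOn, hTc]
    intro x hx y hy hxy
    have a := (hT x).mp hx
    have b := (hT y).mp hy
    exact hinj x y (by omega) (by omega) (by omega) (by omega) hxy
  have hS0 : (0 : ZMod (2 * m)) ∉ S := by
    intro h0
    obtain ⟨x, hx, hx0⟩ := Finset.mem_image.mp h0
    have a := (hT x).mp hx
    have := hinj x 0 (by omega) (by omega) (by omega) (by omega) (by simpa using hx0)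
    omega
  have hSn : ∀ s ∈ S, -s ∈ S := by
    intro s hs
    obtain ⟨x, hx, rfl⟩ := Finset.mem_image.mp hs
    rcases (hT x).mp hx with a | a
    · exact Finset.mem_image.mpr ⟨-x, (hT _).mpr (Or.inl (by omega)), by push_cast; rfl⟩
    · refine Finset.mem_image.mpr ⟨x, hx, ?_⟩
      rw [a.2, eq_neg_iff_add_eq_zero]
      have := ZMod.natCast_self (2 * m)
      push_cast at this ⊢
      linear_combination this
  let G : SimpleGraph (ZMod (2 * m)) :=
    { Adj := fun u v => v - u ∈ S
      symm := ⟨fun u v huv => by simpa using hSn _ huv⟩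
      loopless := ⟨fun u hu => hS0 (by simpa using hu)⟩ }
  have hN : ∀ u, G.neighborFinset u = S.image (fun s => u + s) := by
    intro u; ext v
    simp only [SimpleGraph.mem_neighborFinset, Finset.mem_image, G]
    constructor
    · intro hv; exact ⟨v - u, hv, by ring⟩
    · rintro ⟨s, hs, rfl⟩; simpa using hs
  have hreg : G.IsRegularOfDegree d := by
    intro u
    rw [← SimpleGraph.card_neighborFinset_eq_degree, hN,
      Finset.card_image_of_injective _ (add_right_injective u), hSc]
  obtain ⟨A, hA, hAc, h1, h2⟩ := h (ZMod (2 * m)) G hreg (by rw [ZMod.card]; omega)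
  have hun : ∀ u, (G.neighborFinset u ∪ G.neighborFinset (u + 1)).card ≤ d + 4 := by
    intro u
    have hsub : G.neighborFinset u ∪ G.neighborFinset (u + 1) ⊆
        (Finset.Icc (-(k : ℤ)) (k + 1) ∪ {(m : ℤ), (m : ℤ) + 1}).image
          (fun x : ℤ => u + (x : ZMod (2 * m))) := by
      intro v hv
      rw [hN, hN] at hv
      rcases Finset.mem_union.mp hv with hv | hv
      · obtain ⟨s, hs, rfl⟩ := Finset.mem_image.mp hv
        obtain ⟨x, hx, rfl⟩ := Finset.mem_image.mp hs
        have a := (hT x).mp hx
        refine Finset.mem_image.mpr ⟨x, ?_, rfl⟩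
        simp only [Finset.mem_union, Finset.mem_Icc, Finset.mem_insert, Finset.mem_singleton]
        omega
      · obtain ⟨s, hs, rfl⟩ := Finset.mem_image.mp hv
        obtain ⟨x, hx, rfl⟩ := Finset.mem_image.mp hs
        have a := (hT x).mp hx
        refine Finset.mem_image.mpr ⟨x + 1, ?_, by push_cast; ring⟩
        simp only [Finset.mem_union, Finset.mem_Icc, Finset.mem_insert, Finset.mem_singleton]
        omega
    refine (Finset.card_le_card hsub).trans (Finset.card_image_le.trans
      ((Finset.card_union_le _ _).trans ?_))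
    have := Finset.card_le_two (a := (m : ℤ)) (b := (m : ℤ) + 1)
    rw [Int.card_Icc]; omega
  have key : ∀ u v, u ∈ A → v ∈ Aᶜ →
      d + 6 ≤ (G.neighborFinset u ∪ G.neighborFinset v).card := by
    intro u v hu hv
    have a := h1 u hu
    have b := h2 v hv
    have hd : Disjoint (G.neighborFinset u ∩ A) (G.neighborFinset v ∩ Aᶜ) := by
      rw [Finset.disjoint_left]; intro x hx hy
      exact Finset.mem_compl.mp (Finset.mem_inter.mp hy).2 (Finset.mem_inter.mp hx).2
    have c := Finset.card_le_card (Finset.union_subset_union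
      (Finset.inter_subset_left (s₁ := G.neighborFinset u) (s₂ := A))
      (Finset.inter_subset_left (s₁ := G.neighborFinset v) (s₂ := Aᶜ)))
    rw [Finset.card_union_of_disjoint hd] at c
    have e : ((d + 6 : ℕ) : ℝ) ≤ ((G.neighborFinset u ∩ A).card + (G.neighborFinset v ∩ Aᶜ).card : ℕ) := by
      push_cast at a b ⊢; linarith
    exact le_trans (by exact_mod_cast e) c
  have step : ∀ u, u ∈ A → u + 1 ∈ A := by
    intro u hu
    by_contra hc
    have := key u (u + 1) hu (Finset.mem_compl.mpr hc)
    have := hun u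
    omega
  obtain ⟨a, ha⟩ := hA
  obtain ⟨b, hb⟩ := hAc
  have hall : ∀ j : ℕ, a + (j : ZMod (2 * m)) ∈ A := by
    intro j
    induction j with
    | zero => simpa using ha
    | succ j ih => push_cast; rw [← add_assoc]; exact step _ ih
  have := hall (b - a).val
  rw [ZMod.natCast_zmod_val] at this
  exact Finset.mem_compl.mp hb (by simpa using this)

end Pool.Agent.S07058
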