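import Pool.Statements.S07079
import Pool.Agent.Lib.helper6.Gamma

set_option autoImplicit false
open Pool Pool.MP_09fd01_co

namespace Pool.Agent.S07079

open Pool.Agent.Lib.helper6.Gamma

def seq (n : ℕ) : SimpleGraph (Fin 15) := if n % 2 = 0 then G0 else G1

theorem result :
    ∃ (k : ℕ → ℕ) (G : ∀ n, SimpleGraph (Fin (k n))),
      (∀ n, ∃ e : Fin (k (n + 1)) ≃
          {S : Finset (Fin (k n)) //
            (∀ v, v ∈ S ∨ ∃ u ∈ S, (G n).Adj u v) ∧
            ∀ T : Finset (Fin (k n)),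
              (∀ v, v ∈ T ∨ ∃ u ∈ T, (G n).Adj u v) → S.card ≤ T.card},
        ∀ a b, (G (n + 1)).Adj a b ↔
          ∃ u v, u ∈ (e a).1 ∧ v ∉ (e a).1 ∧ (G n).Adj u v ∧
            (e b).1 = insert v ((e a).1.erase u)) ∧
      ∃ m p : ℕ, 0 < p ∧ Nonempty (G (m + p) ≃g G m) ∧ IsEmpty (G (m + 1) ≃g G m) := by
  refine ⟨fun _ => 15, seq, ?_, 0, 2, by norm_num, ⟨SimpleGraph.Iso.refl⟩, not_iso⟩
  intro n
  rcases Nat.mod_two_eq_zero_or_one n with h | h
  · have h0 : seq n = G0 := by simp [seq, h]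
    have h1 : seq (n + 1) = G1 := by
      have : (n + 1) % 2 ≠ 0 := by omega
      simp [seq, this]
    rw [h0, h1]
    exact step01
  · have h0 : seq n = G1 := by simp [seq, h]
    have h1 : seq (n + 1) = G0 := by
      have : (n + 1) % 2 = 0 := by omega
      simp [seq, this]
    rw [h0, h1]
    exact step10

end Pool.Agent.S07079
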