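import Pool.Statements.S07094

set_option autoImplicit false
open Pool Pool.MP_0a7691_co

namespace Pool.Agent.S07094

open SimpleGraph

/-- Hubs are the multiples of `M`; they are joined to everything. The other vertices of one block
of `M` consecutive integers form a clique. -/
def HG (N M : ℕ) : SimpleGraph (Fin N) where
  Adj x y := x ≠ y ∧ (x.val % M = 0 ∨ y.val % M = 0 ∨ x.val / M = y.val / M)
  symm := ⟨fun _ _ h => ⟨h.1.symm, by
    rcases h.2 with h | h | h
    · exact Or.inr (Or.inl h)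
    · exact Or.inl h
    · exact Or.inr (Or.inr h.symm)⟩⟩
  loopless := ⟨fun _ h => h.1 rfl⟩

theorem succ_block (a M : ℕ) (hM : 0 < M) : (a + 1) % M = 0 ∨ (a + 1) / M = a / M := by
  by_cases h : M ∣ a + 1
  · left; exact Nat.mod_eq_zero_of_dvd h
  · right; rw [Nat.succ_div, if_neg h]; rfl

theorem cycle_le (n M : ℕ) (hM : 0 < M) : cycleGraph (n + 3) ≤ HG (n + 3) M := by
  have key : ∀ u v : Fin (n + 3), (u - v).val = 1 →
      (u.val % M = 0 ∨ u.val / M = v.val / M) := by
    intro u v h
    by_cases hle : v ≤ u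
    · rw [Fin.sub_val_of_le hle] at h
      have hle' : v.val ≤ u.val := hle
      have : u.val = v.val + 1 := by omega
      rw [this]
      exact succ_block _ _ hM
    · have hlt : u < v := lt_of_not_ge hle
      rw [Fin.coe_sub_iff_lt.mpr hlt] at h
      have h1 := v.isLt
      have : u.val = 0 := by omega
      left
      rw [this]
      simp
  intro u v h
  refine ⟨h.ne, ?_⟩
  rcases cycleGraph_adj'.mp h with h | h
  · rcases key u v h with h | h
    · exact Or.inl h
    · exact Or.inr (Or.inr h)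
  · rcases key v u h with h | h
    · exact Or.inr (Or.inl h)
    · exact Or.inr (Or.inr h.symm)

theorem ham (n M : ℕ) (hM : 0 < M) : (HG (n + 3) M).IsHamiltonian := by
  apply IsHamiltonian.mono (cycle_le n M hM)
  intro _
  refine ⟨0, cycleGraph.cycle n, ?_⟩
  rw [Walk.isHamiltonianCycle_iff_isCycle_and_length_eq]
  exact ⟨cycleGraph.isCycle_cycle, by simp⟩

theorem lt_of_block {K M i j : ℕ} (hi : i < K) (hj : j < M) : i * M + j < K * M := by
  have : (i + 1) * M ≤ K * M := Nat.mul_le_mul_right M hi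
  nlinarith

theorem indep_le (N K M : ℕ) (hN : N = K * M) (hM : 0 < M) : (HG N M).indepNum ≤ K := by
  obtain ⟨s, hs⟩ := (HG N M).exists_isNIndepSet_indepNum
  rw [← hs.card_eq]
  have h1 : s.card ≤ (Finset.range K).card := by
    apply Finset.card_le_card_of_injOn (fun x : Fin N => x.val / M)
    · intro x _
      have := x.isLt
      simp only [Finset.coe_range, Set.mem_Iio]
      rw [Nat.div_lt_iff_lt_mul hM]
      omega
    · intro x hx y hy hxy
      by_contra hne
      exact hs.isIndepSet hx hy hne ⟨hne, Or.inr (Or.inr hxy)⟩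
  simpa using h1

theorem conn (N K M k : ℕ) (hN : N = K * M) (hM : 0 < M) (hk : k ≤ K) (S : Finset (Fin N))
    (hS : S.card < k) : ((HG N M).induce ((↑S : Set (Fin N))ᶜ)).Connected := by
  classical
  have hex : ∃ h : Fin N, h.val % M = 0 ∧ h ∉ S := by
    by_contra hcon
    push Not at hcon
    let g : Fin K → Fin N := fun i => ⟨i.val * M, by
      have := lt_of_block (M := M) (j := 0) i.isLt hM
      omega⟩
    have h1 : (Finset.univ : Finset (Fin K)).card ≤ S.card := by
      apply Finset.card_le_card_of_injOn g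
      · intro i _
        exact hcon (g i) (by simp [g])
      · intro i _ j _ hij
        have : i.val * M = j.val * M := congrArg Fin.val hij
        exact Fin.ext (Nat.eq_of_mul_eq_mul_right hM this)
    simp at h1
    omega
  obtain ⟨h, hh, hS'⟩ := hex
  have hmem : h ∈ ((↑S : Set (Fin N))ᶜ) := by simpa using hS'
  have hr : ∀ x : ((↑S : Set (Fin N))ᶜ : Set (Fin N)),
      ((HG N M).induce ((↑S : Set (Fin N))ᶜ)).Reachable ⟨h, hmem⟩ x := by
    intro x
    by_cases hx : h = x.val
    · have : (⟨h, hmem⟩ : ((↑S : Set (Fin N))ᶜ : Set (Fin N))) = x := Subtype.ext hx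
      rw [this]
    · apply Adj.reachable
      exact ⟨hx, Or.inl hh⟩
  have : Nonempty ((↑S : Set (Fin N))ᶜ : Set (Fin N)) := ⟨⟨h, hmem⟩⟩
  exact ⟨fun x y => (hr x).symm.trans (hr y)⟩

theorem exit_dart {V : Type} [DecidableEq V] {G : SimpleGraph V} {u : V} (p : G.Walk u u)
    (hp : p.IsHamiltonianCycle) (C : Set V) (a b : V) (ha : a ∈ C) (hb : b ∉ C) :
    ∃ d ∈ p.darts, d.fst ∈ C ∧ d.snd ∉ C := by
  have h1 := hp.mem_support a
  have h2 : b ∈ (p.rotate a h1).support := (hp.rotate h1).mem_support b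
  obtain ⟨d, hd, h3, h4⟩ := ((p.rotate a h1).takeUntil b h2).exists_boundary_dart C ha hb
  refine ⟨d, ?_, h3, h4⟩
  have := Walk.darts_takeUntil_subset_darts _ h2 hd
  exact (Walk.rotate_darts p a h1).mem_iff.mp this

theorem no_hub_edge (N K M : ℕ) (hN : N = K * M) (hM : 2 ≤ M) {u : Fin N}
    (p : (HG N M).Walk u u) (hp : p.IsHamiltonianCycle) (x y : Fin N)
    (hx : x.val % M = 0) (hy : y.val % M = 0) : s(x, y) ∉ p.edges := by
  intro hxy
  have hM0 : 0 < M := by omega
  have hinj : ∀ d ∈ p.darts, ∀ d' ∈ p.darts, d.snd = d'.snd → d = d' := by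
    have hnd : (p.darts.map (fun d => d.snd)).Nodup := by
      rw [Walk.map_snd_darts]
      exact hp.isCycle.support_nodup
    intro d hd d' hd' h
    exact List.inj_on_of_nodup_map hnd hd hd' h
  have hex : ∀ i : Fin K, ∃ d ∈ p.darts, (d.fst.val % M ≠ 0 ∧ d.fst.val / M = i.val) ∧
      d.snd.val % M = 0 := by
    intro i
    have hlt : i.val * M + 1 < N := by
      have := lt_of_block (M := M) (j := 1) i.isLt (by omega)
      omega
    obtain ⟨d, hd, h1, h2⟩ := exit_dart p hp {z : Fin N | z.val % M ≠ 0 ∧ z.val / M = i.val}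
      ⟨i.val * M + 1, hlt⟩ x (by
        constructor
        · show (i.val * M + 1) % M ≠ 0
          rw [Nat.add_comm, Nat.add_mul_mod_self_right, Nat.mod_eq_of_lt (by omega)]
          omega
        · show (i.val * M + 1) / M = i.val
          rw [Nat.add_comm, Nat.add_mul_div_right _ _ hM0, Nat.div_eq_of_lt (by omega)]
          omega) (fun h => h.1 hx)
    refine ⟨d, hd, h1, ?_⟩
    by_contra hne
    apply h2
    refine ⟨hne, ?_⟩
    rcases d.adj.2 with h | h | h
    · exact absurd h h1.1
    · exact absurd h hne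
    · rw [← h]; exact h1.2
  choose g hg1 hg2 hg3 using hex
  have hdiv : ∀ z : Fin N, z.val / M < K := by
    intro z
    have := z.isLt
    rw [Nat.div_lt_iff_lt_mul hM0]
    omega
  have hub_ext : ∀ z w : Fin N, z.val % M = 0 → w.val % M = 0 → z.val / M = w.val / M → z = w := by
    intro z w h1 h2 h3
    apply Fin.ext
    rw [← Nat.div_add_mod z.val M, ← Nat.div_add_mod w.val M, h1, h2, h3]
  let h : Fin K → Fin K := fun i => ⟨(g i).snd.val / M, hdiv _⟩
  have hh : Function.Injective h := by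
    intro i j hij
    have h1 : (g i).snd.val / M = (g j).snd.val / M := congrArg Fin.val hij
    have h2 := hinj _ (hg1 i) _ (hg1 j) (hub_ext _ _ (hg3 i) (hg3 j) h1)
    apply Fin.ext
    rw [← (hg2 i).2, ← (hg2 j).2, h2]
  have hs : Function.Surjective h := Finite.surjective_of_injective hh
  rw [Walk.edges_eq_map_darts, List.mem_map] at hxy
  obtain ⟨d, hd, hde⟩ := hxy
  have hd2 : d.fst.val % M = 0 ∧ d.snd.val % M = 0 := by
    have : s(d.fst, d.snd) = s(x, y) := hde
    rcases Sym2.eq_iff.mp this with ⟨h1, h2⟩ | ⟨h1, h2⟩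
    · rw [h1, h2]; exact ⟨hx, hy⟩
    · rw [h1, h2]; exact ⟨hy, hx⟩
  obtain ⟨i, hi⟩ := hs ⟨d.snd.val / M, hdiv _⟩
  have h1 : (g i).snd.val / M = d.snd.val / M := congrArg Fin.val hi
  have h2 := hinj _ (hg1 i) _ hd (hub_ext _ _ (hg3 i) hd2.2 h1)
  exact (hg2 i).1 (by rw [h2]; exact hd2.1)

/-- The negation of the preceding statement: There exist k and f such that every k-connected Hamiltonian graph on an odd number n of vertices with n at least f(independence number) has its Hamilton cycles spanning its whole cycle space over GF(2). -/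
theorem result :
    ¬ (∃ k : ℕ, ∃ f : ℕ → ℕ,
      ∀ (V : Type) [Fintype V] [DecidableEq V] (G : SimpleGraph V),
        Odd (Fintype.card V) →
        (k < Fintype.card V ∧
          ∀ S : Finset V, S.card < k → (G.induce ((↑S : Set V)ᶜ)).Connected) →
        G.IsHamiltonian →
        f G.indepNum ≤ Fintype.card V →
        Submodule.span (ZMod 2)
            {x : Sym2 V → ZMod 2 | ∃ (u : V) (p : G.Walk u u),
              p.IsHamiltonianCycle ∧
                x = Set.indicator {e : Sym2 V | e ∈ p.edges} (fun _ => (1 : ZMod 2))} =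
          Submodule.span (ZMod 2)
            {x : Sym2 V → ZMod 2 | ∃ (u : V) (p : G.Walk u u),
              p.IsCycle ∧
                x = Set.indicator {e : Sym2 V | e ∈ p.edges} (fun _ => (1 : ZMod 2))}) := by
  rintro ⟨k, f, H⟩
  obtain ⟨K, hK⟩ : ∃ K, K = 2 * k + 3 := ⟨_, rfl⟩
  obtain ⟨B, hB⟩ : ∃ B, ∀ j ≤ K, f j ≤ B :=
    ⟨(Finset.range (K + 1)).sup f, fun j hj => Finset.le_sup (f := f) (by simp; omega)⟩
  obtain ⟨M, hM⟩ : ∃ M, M = 2 * B + 3 := ⟨_, rfl⟩
  have hKM : 3 * M ≤ K * M := Nat.mul_le_mul_right M (by omega)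
  have hKM2 : K * 3 ≤ K * M := Nat.mul_le_mul_left K (by omega)
  obtain ⟨n, hn⟩ : ∃ n, n + 3 = K * M := ⟨K * M - 3, by omega⟩
  have hodd : Odd (Fintype.card (Fin (n + 3))) := by
    rw [Fintype.card_fin, hn]
    exact Odd.mul ⟨k + 1, by omega⟩ ⟨B + 1, by omega⟩
  have hspan := H (Fin (n + 3)) (HG (n + 3) M) hodd
    ⟨by rw [Fintype.card_fin]; omega,
      fun S hS => conn (n + 3) K M k hn (by omega) (by omega) S hS⟩
    (ham n M (by omega))
    (by
      rw [Fintype.card_fin]
      have := hB _ (indep_le (n + 3) K M hn (by omega))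
      omega)
  let a : Fin (n + 3) := ⟨0, by omega⟩
  let b : Fin (n + 3) := ⟨M, by omega⟩
  let c : Fin (n + 3) := ⟨1, by omega⟩
  have ha : a.val % M = 0 := by simp [a]
  have hb : b.val % M = 0 := by simp [b]
  have hab : a ≠ b := by
    intro h
    have : (0 : ℕ) = M := congrArg Fin.val h
    omega
  have hbc : b ≠ c := by
    intro h
    have : M = 1 := congrArg Fin.val h
    omega
  have hca : c ≠ a := by
    intro h
    have : (1 : ℕ) = 0 := congrArg Fin.val h
    omega
  have e1 : (HG (n + 3) M).Adj a b := ⟨hab, Or.inl ha⟩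
  have e2 : (HG (n + 3) M).Adj b c := ⟨hbc, Or.inl hb⟩
  have e3 : (HG (n + 3) M).Adj c a := ⟨hca, Or.inr (Or.inl ha)⟩
  let t : (HG (n + 3) M).Walk a a := Walk.cons e1 (Walk.cons e2 (Walk.cons e3 Walk.nil))
  have ht : t.IsCycle := by
    rw [Walk.isCycle_def]
    refine ⟨?_, by simp [t], ?_⟩
    · rw [Walk.isTrail_def]
      simp [t, hab, hbc, hca, hab.symm, hbc.symm, hca.symm]
    · simp [t, hbc, hca, hab.symm]
  have hmem : Set.indicator {e : Sym2 (Fin (n + 3)) | e ∈ t.edges} (fun _ => (1 : ZMod 2)) ∈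
      Submodule.span (ZMod 2)
        {x : Sym2 (Fin (n + 3)) → ZMod 2 | ∃ (u : Fin (n + 3)) (p : (HG (n + 3) M).Walk u u),
          p.IsHamiltonianCycle ∧
            x = Set.indicator {e : Sym2 (Fin (n + 3)) | e ∈ p.edges} (fun _ => (1 : ZMod 2))} := by
    rw [hspan]
    exact Submodule.subset_span ⟨a, t, ht, rfl⟩
  have hle : Submodule.span (ZMod 2)
        {x : Sym2 (Fin (n + 3)) → ZMod 2 | ∃ (u : Fin (n + 3)) (p : (HG (n + 3) M).Walk u u),
          p.IsHamiltonianCycle ∧
            x = Set.indicator {e : Sym2 (Fin (n + 3)) | e ∈ p.edges} (fun _ => (1 : ZMod 2))} ≤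
      LinearMap.ker (LinearMap.proj (R := ZMod 2) (φ := fun _ : Sym2 (Fin (n + 3)) => ZMod 2)
        s(a, b)) := by
    rw [Submodule.span_le]
    rintro x ⟨u, p, hp, rfl⟩
    have := no_hub_edge (n + 3) K M hn (by omega) p hp a b ha hb
    simp only [SetLike.mem_coe, LinearMap.mem_ker, LinearMap.proj_apply]
    exact Set.indicator_of_notMem (s := {e : Sym2 (Fin (n + 3)) | e ∈ p.edges}) this
      (fun _ => (1 : ZMod 2))
  have h0 := hle hmem
  simp only [LinearMap.mem_ker, LinearMap.proj_apply] at h0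
  rw [Set.indicator_of_mem (by simp [t])] at h0
  exact one_ne_zero h0

end Pool.Agent.S07094
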