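import Pool.Statements.S07119
-- import your own Pool.Agent.* helpers here

set_option autoImplicit false
open Pool Pool.MP_0bab21_co

namespace Pool.Agent.S07119

theorem fin_of_factor {A B T : Type} [Finite T] [Nonempty B] (R : A → B) (f : A → T)
    (h : ∀ a a', f a = f a' → R a = R a') : (Set.range R).Finite := by
  have hf : R.FactorsThrough f := fun a a' e => h a a' e
  refine (Set.finite_range (Function.extend f R (fun _ => Classical.arbitrary B))).subset ?_
  rintro _ ⟨a, rfl⟩
  exact ⟨f a, hf.extend_apply _ a⟩

theorem fin_flip {A B : Type} (R : A → B → Prop) (h : (Set.range fun b a => R a b).Finite) :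
    (Set.range R).Finite := by
  have := h.to_subtype
  refine fin_of_factor R (fun a (c : Set.range fun b a => R a b) => c.1 a) ?_
  intro a a' e
  funext b
  exact congrFun e ⟨_, b, rfl⟩

/-- One pass of the game along the tape `w` (token at `s`); `G j w` says that wrapping round to
square `j` wins. -/
def Z (M : Finset ℕ) (G : ℕ → List Bool → Prop) (w : List Bool) (s : ℕ) : Prop :=
  ∃ a ∈ M, if _h : s + a < w.length ∧ 0 < a then
    (w[s + a]? = some false ∧ ¬ Z M G (w.set (s + a) true) (s + a)) else G (s + a - w.length) w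
termination_by w.length - s
decreasing_by simp only [List.length_set]; omega

theorem Z_iff {M : Finset ℕ} (hM : ∀ a ∈ M, 0 < a) (G : ℕ → List Bool → Prop) (w : List Bool)
    (s : ℕ) : Z M G w s ↔ ∃ a ∈ M, if s + a < w.length then
      (w[s + a]? = some false ∧ ¬ Z M G (w.set (s + a) true) (s + a)) else G (s + a - w.length) w := by
  rw [Z]
  refine exists_congr fun a => and_congr_right fun ha => ?_
  simp only [hM a ha, and_true, dite_eq_ite]

theorem claimA {M : Finset ℕ} (hM : ∀ a ∈ M, 0 < a) {m : ℕ} (hm : ∀ a ∈ M, a ≤ m)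
    (G : ℕ → List Bool → Prop) (u u' : List Bool)
    (h : ∀ j < m, ∀ v, G j (u ++ v) ↔ G j (u' ++ v)) :
    ∀ (r : ℕ) (v : List Bool) (t : ℕ), t < v.length → v.length - t ≤ r →
      (Z M G (u ++ v) (u.length + t) ↔ Z M G (u' ++ v) (u'.length + t)) := by
  intro r
  induction r with
  | zero => intro v t h1 h2; omega
  | succ r ih =>
    intro v t h1 h2
    rw [Z_iff hM, Z_iff hM G (u' ++ v)]
    refine exists_congr fun a => and_congr_right fun ha => ?_
    have hp := hM a ha
    have hl := hm a ha
    by_cases hc : t + a < v.length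
    · have key : ∀ x : List Bool, (if x.length + t + a < (x ++ v).length then
          ((x ++ v)[x.length + t + a]? = some false ∧
            ¬ Z M G ((x ++ v).set (x.length + t + a) true) (x.length + t + a))
          else G (x.length + t + a - (x ++ v).length) (x ++ v)) ↔
          (v[t + a]? = some false ∧ ¬ Z M G (x ++ v.set (t + a) true) (x.length + (t + a))) := by
        intro x
        rw [if_pos (by rw [List.length_append]; omega), List.getElem?_append_right (by omega),
          List.set_append_right _ _ (by omega)]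
        have e : x.length + t + a - x.length = t + a := by omega
        rw [e, add_assoc]
      rw [key, key, ih _ (t + a) (by simpa using hc) (by simp only [List.length_set]; omega)]
    · rw [if_neg (by rw [List.length_append]; omega), if_neg (by rw [List.length_append]; omega)]
      have e1 : u.length + t + a - (u ++ v).length = t + a - v.length := by
        rw [List.length_append]; omega
      have e2 : u'.length + t + a - (u' ++ v).length = t + a - v.length := by
        rw [List.length_append]; omega
      rw [e1, e2]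
      exact h _ (by omega) v

theorem claimB {M : Finset ℕ} (hM : ∀ a ∈ M, 0 < a) {m : ℕ} (hm : ∀ a ∈ M, a ≤ m)
    (G : ℕ → List Bool → Prop) (v v' : List Bool)
    (h : ∀ (x : List Bool) (s : ℕ), s < x.length → x.length - s ≤ m →
      (Z M G (x ++ v) s ↔ Z M G (x ++ v') s)) :
    ∀ (r : ℕ) (x : List Bool) (s : ℕ), s < x.length → x.length - s ≤ r →
      (Z M G (x ++ v) s ↔ Z M G (x ++ v') s) := by
  intro r
  induction r with
  | zero => intro x s h1 h2; omega
  | succ r ih =>
    intro x s h1 h2
    by_cases hc : x.length - s ≤ m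
    · exact h x s h1 hc
    rw [Z_iff hM, Z_iff hM G (x ++ v')]
    refine exists_congr fun a => and_congr_right fun ha => ?_
    have hp := hM a ha
    have hl := hm a ha
    have hlt : s + a < x.length := by omega
    rw [if_pos (by rw [List.length_append]; omega), if_pos (by rw [List.length_append]; omega),
      List.getElem?_append_left hlt, List.getElem?_append_left hlt,
      List.set_append_left _ _ hlt, List.set_append_left _ _ hlt,
      ih _ (s + a) (by simpa using hlt) (by simp only [List.length_set]; omega)]

theorem rows_finite {M : Finset ℕ} (hM : ∀ a ∈ M, 0 < a) {m : ℕ} (hm : ∀ a ∈ M, a ≤ m)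
    (G : ℕ → List Bool → Prop)
    (hG : ∀ j < m, (Set.range fun u v : List Bool => G j (u ++ v)).Finite) :
    (Set.range fun (p : {p : List Bool × ℕ // p.2 < p.1.length}) (v : List Bool) =>
      Z M G (p.1.1 ++ v) p.1.2).Finite := by
  apply fin_flip
  have : ∀ j : Fin m, Finite (Set.range fun u v : List Bool => G j (u ++ v)) :=
    fun j => (hG j j.2).to_subtype
  have : Finite {z : List Bool | z.length ≤ m} := (List.finite_length_le Bool m).to_subtype
  let τ : List Bool → (∀ j : Fin m, Set.range fun u v : List Bool => G j (u ++ v)) :=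
    fun u j => ⟨_, u, rfl⟩
  have hτ : ∀ u u', τ u = τ u' → ∀ j < m, ∀ v, G j (u ++ v) ↔ G j (u' ++ v) := by
    intro u u' e j hj v
    have := congrFun (congrArg Subtype.val (congrFun e ⟨j, hj⟩)) v
    exact iff_of_eq this
  refine fin_of_factor _ (fun (v : List Bool)
    (q : (∀ j : Fin m, Set.range fun u v : List Bool => G j (u ++ v)) ×
      {z : List Bool | z.length ≤ m}) => ∃ u, τ u = q.1 ∧ Z M G (u ++ (q.2.1 ++ v)) u.length) ?_
  intro v v' e
  funext p
  apply propext
  refine claimB hM hm G v v' ?_ _ p.1.1 p.1.2 p.2 le_rfl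
  intro x s h1 h2
  have hz : (x.drop s).length ≤ m := by simpa using h2
  have key : ∀ y : List Bool, Z M G (x ++ y) s ↔
      ∃ u, τ u = τ (x.take s) ∧ Z M G (u ++ (x.drop s ++ y)) u.length := by
    intro y
    have e1 : x ++ y = x.take s ++ (x.drop s ++ y) := by
      rw [← List.append_assoc, List.take_append_drop]
    have e2 : (x.take s).length = s := by simp; omega
    constructor
    · intro hZ
      exact ⟨x.take s, rfl, by rw [← e1, e2]; exact hZ⟩
    · rintro ⟨u, hu, hZ⟩
      have := (claimA hM hm G u (x.take s) (hτ _ _ hu) _ (x.drop s ++ y) 0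
        (by simp; omega) le_rfl).1 hZ
      rw [← e1, e2] at this
      exact this
  rw [key, key]
  exact iff_of_eq (congrFun e (τ (x.take s), ⟨x.drop s, hz⟩))

/-- Winning wrap moves when at most `k` further wraps are possible. -/
def GG (M : Finset ℕ) : ℕ → ℕ → List Bool → Prop
  | 0 => fun _ _ => False
  | k + 1 => fun j w => w[j]? = some false ∧ ¬ Z M (GG M k) (w.set j true) j

theorem GG_finite {M : Finset ℕ} (hM : ∀ a ∈ M, 0 < a) {m : ℕ} (hm : ∀ a ∈ M, a ≤ m) :
    ∀ k j, (Set.range fun u v : List Bool => GG M k j (u ++ v)).Finite := by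
  intro k
  induction k with
  | zero =>
    intro j
    refine (Set.finite_singleton (fun _ => False)).subset ?_
    rintro _ ⟨u, rfl⟩
    rfl
  | succ k ih =>
    intro j
    have h1 := rows_finite hM hm (GG M k) (fun j _ => ih j)
    have h2 := (List.finite_length_le Bool j).image
      (fun u v : List Bool => GG M (k + 1) j (u ++ v))
    have h3 := h1.image (fun (f : List Bool → Prop) v => ¬ f v)
    refine ((h2.union h3).insert (fun _ => False)).subset ?_
    rintro _ ⟨u, rfl⟩
    by_cases hu : u.length ≤ j
    · exact Or.inr (Or.inl ⟨u, hu, rfl⟩)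
    · have hlt : j < u.length := by omega
      by_cases hb : u[j]? = some false
      · refine Or.inr (Or.inr ⟨_, ⟨⟨(u.set j true, j), by simpa using hlt⟩, rfl⟩, ?_⟩)
        funext v
        simp only [GG, List.getElem?_append_left hlt, List.set_append_left _ _ hlt, hb, true_and]
      · left
        funext v
        simp only [GG, List.getElem?_append_left hlt, hb, false_and]

theorem periodic {M : Finset ℕ} (hM : ∀ a ∈ M, 0 < a) {m : ℕ} (hm : ∀ a ∈ M, a ≤ m) (k : ℕ) :
    ∃ r p : ℕ, 0 < p ∧ ∀ n, r ≤ n →
      (Z M (GG M k) (true :: List.replicate n false) 0 ↔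
        Z M (GG M k) (true :: List.replicate (n + p) false) 0) := by
  have h1 := rows_finite hM hm (GG M k) (fun j _ => GG_finite hM hm k j)
  obtain ⟨r, r', hlt, e⟩ := Set.Finite.exists_lt_map_eq_of_forall_mem (f := fun (r : ℕ)
    (v : List Bool) => Z M (GG M k) ((true :: List.replicate r false) ++ v) 0) (fun r =>
      Set.mem_range.2 ⟨⟨(true :: List.replicate r false, 0), by simp⟩, rfl⟩) h1
  refine ⟨r, r' - r, by omega, fun n hn => ?_⟩
  have e2 := congrFun e (List.replicate (n - r) false)
  simp only [List.cons_append, List.replicate_append_replicate] at e2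
  have a1 : r + (n - r) = n := by omega
  have a2 : r' + (n - r) = n + (r' - r) := by omega
  rw [a1, a2] at e2
  exact iff_of_eq e2

/-- The tape of a position. -/
def tape (n : ℕ) (S : Finset (ZMod n)) : List Bool :=
  (List.range n).map fun i : ℕ => decide ((i : ZMod n) ∈ S)

theorem tape_len (n : ℕ) (S : Finset (ZMod n)) : (tape n S).length = n := by simp [tape]

theorem tape_get (n : ℕ) (S : Finset (ZMod n)) {i : ℕ} (hi : i < n) :
    (tape n S)[i]? = some false ↔ (i : ZMod n) ∉ S := by
  simp [tape, List.getElem?_range hi]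

theorem cast_inj' {n i j : ℕ} (hi : i < n) (hj : j < n) (h : (i : ZMod n) = j) : i = j := by
  have := congrArg ZMod.val h
  rwa [ZMod.val_cast_of_lt hi, ZMod.val_cast_of_lt hj] at this

theorem tape_set (n : ℕ) (S : Finset (ZMod n)) {i : ℕ} (hi : i < n) :
    tape n (insert (i : ZMod n) S) = (tape n S).set i true := by
  apply List.ext_getElem (by simp [tape])
  intro j h1 h2
  have hj : j < n := by simpa [tape] using h1
  rw [List.getElem_set]
  by_cases e : i = j
  · subst e; simp [tape]
  · have : (j : ZMod n) ≠ i := fun h => e (cast_inj' hj hi h).symm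
    simp [tape, e, this]

theorem correct {M : Finset ℕ} (hM : ∀ a ∈ M, 0 < a) {m : ℕ} (hm : ∀ a ∈ M, a ≤ m) (n : ℕ)
    [NeZero n] (hn : m ≤ n) (W : Finset (ZMod n) → ZMod n → Prop)
    (hW : ∀ (S : Finset (ZMod n)) (x : ZMod n),
      W S x ↔ ∃ m ∈ M, (x + (m : ZMod n)) ∉ S ∧
        ¬ W (insert (x + (m : ZMod n)) S) (x + (m : ZMod n))) :
    ∀ (r : ℕ) (S : Finset (ZMod n)) (k s : ℕ), Sᶜ.card < r → s < n →
      ((Finset.range m).filter fun j : ℕ => (j : ZMod n) ∉ S).card ≤ k →
      (W S s ↔ Z M (GG M k) (tape n S) s) := by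
  intro r
  induction r with
  | zero => intro S k s h; omega
  | succ r ih =>
    intro S k s hr hs hk
    rw [hW, Z_iff hM, tape_len]
    refine exists_congr fun a => and_congr_right fun ha => ?_
    have hp := hM a ha
    have hl := hm a ha
    have hcard : ∀ y : ZMod n, y ∉ S → (insert y S)ᶜ.card < r := by
      intro y hy
      have : (insert y S)ᶜ.card < Sᶜ.card := by
        apply Finset.card_lt_card
        rw [Finset.compl_insert]
        exact Finset.erase_ssubset (Finset.mem_compl.2 hy)
      omega
    have hsub : ∀ y : ZMod n, ((Finset.range m).filter fun j : ℕ => (j : ZMod n) ∉ insert y S) ⊆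
        ((Finset.range m).filter fun j : ℕ => (j : ZMod n) ∉ S) := by
      intro y j hj
      rw [Finset.mem_filter] at hj ⊢
      exact ⟨hj.1, fun h => hj.2 (Finset.mem_insert_of_mem h)⟩
    by_cases hc : s + a < n
    · rw [if_pos hc, ← Nat.cast_add, tape_get n S hc, ← tape_set n S hc]
      refine and_congr_right fun hy => not_congr ?_
      exact ih _ k _ (hcard _ hy) hc (le_trans (Finset.card_le_card (hsub _)) hk)
    · rw [if_neg hc]
      have hj : s + a - n < m := by omega
      have hjn : s + a - n < n := by omega
      have e : (s : ZMod n) + a = ((s + a - n : ℕ) : ZMod n) := by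
        rw [Nat.cast_sub (by omega), ZMod.natCast_self, sub_zero, Nat.cast_add]
      rw [e]
      generalize s + a - n = j at hj hjn
      have hmem : (j : ZMod n) ∉ S → j ∈ ((Finset.range m).filter fun j : ℕ => (j : ZMod n) ∉ S) :=
        fun hy => Finset.mem_filter.2 ⟨Finset.mem_range.2 hj, hy⟩
      cases k with
      | zero =>
        simp only [GG, iff_false, not_and]
        intro hy
        have := Finset.card_pos.2 ⟨_, hmem hy⟩
        omega
      | succ k =>
        simp only [GG]
        rw [tape_get n S hjn, ← tape_set n S hjn]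
        refine and_congr_right fun hy => not_congr ?_
        refine ih _ k _ (hcard _ hy) hjn ?_
        have : ((Finset.range m).filter fun i : ℕ => (i : ZMod n) ∉ insert (j : ZMod n) S).card <
            ((Finset.range m).filter fun j : ℕ => (j : ZMod n) ∉ S).card := by
          apply Finset.card_lt_card
          refine ⟨hsub _, fun h => ?_⟩
          exact (Finset.mem_filter.1 (h (hmem hy))).2 (Finset.mem_insert_self _ _)
        omega

/-- The true game on the circle. -/
def WW (M : Finset ℕ) (n : ℕ) [NeZero n] (S : Finset (ZMod n)) (x : ZMod n) : Prop :=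
  ∃ m ∈ M, ∃ _h : (x + (m : ZMod n)) ∉ S,
    ¬ WW M n (insert (x + (m : ZMod n)) S) (x + (m : ZMod n))
termination_by Sᶜ.card
decreasing_by
  apply Finset.card_lt_card
  rw [Finset.compl_insert]
  exact Finset.erase_ssubset (Finset.mem_compl.2 _h)

theorem outcome {M : Finset ℕ} (hM : ∀ a ∈ M, 0 < a) {m : ℕ} (hm : ∀ a ∈ M, a ≤ m) (n q : ℕ)
    (hq : n = q + 1) (hn : m ≤ n) :
    (∃ W : Finset (ZMod n) → ZMod n → Prop,
      (∀ (S : Finset (ZMod n)) (x : ZMod n),
        W S x ↔ ∃ m ∈ M, (x + (m : ZMod n)) ∉ S ∧
          ¬ W (insert (x + (m : ZMod n)) S) (x + (m : ZMod n))) ∧ W {0} 0) ↔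
      Z M (GG M m) (true :: List.replicate q false) 0 := by
  have : NeZero n := ⟨by omega⟩
  have ht : tape n {0} = true :: List.replicate q false := by
    apply List.ext_getElem (by simp [tape, hq])
    intro j h1 h2
    have hj : j < n := by simpa [tape] using h1
    cases j with
    | zero => simp [tape]
    | succ j =>
      have : ((j + 1 : ℕ) : ZMod n) ≠ ((0 : ℕ) : ZMod n) := fun h => by
        have := cast_inj' hj (by omega) h
        omega
      simp only [tape, List.getElem_map, List.getElem_range, List.getElem_cons_succ,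
        List.getElem_replicate, Finset.mem_singleton, decide_eq_false_iff_not]
      simpa using this
  have hc : ∀ W : Finset (ZMod n) → ZMod n → Prop,
      (∀ (S : Finset (ZMod n)) (x : ZMod n),
        W S x ↔ ∃ m ∈ M, (x + (m : ZMod n)) ∉ S ∧
          ¬ W (insert (x + (m : ZMod n)) S) (x + (m : ZMod n))) →
      (W {0} 0 ↔ Z M (GG M m) (true :: List.replicate q false) 0) := by
    intro W hW
    have := correct hM hm n hn W hW _ {0} m 0 (Nat.lt_succ_self _) (by omega)
      (le_trans (Finset.card_filter_le _ _) (by simp))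
    rw [ht, Nat.cast_zero] at this
    exact this
  constructor
  · rintro ⟨W, hW, h0⟩
    exact (hc W hW).1 h0
  · intro h
    have hW : ∀ (S : Finset (ZMod n)) (x : ZMod n),
        WW M n S x ↔ ∃ m ∈ M, (x + (m : ZMod n)) ∉ S ∧
          ¬ WW M n (insert (x + (m : ZMod n)) S) (x + (m : ZMod n)) := by
      intro S x
      rw [WW]
      simp only [exists_prop]
    exact ⟨WW M n, hW, (hc _ hW).2 h⟩

/-- For every finite set M of positive moves, whether the second player wins Kotzig's Nim (normal play, first coin at 0, each next coin m ∈ M squares clockwise onto an empty square) on a circle of length n is eventually periodic in n. -/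
theorem result :
    ∀ M : Finset ℕ, (∀ m ∈ M, 0 < m) →
      ∃ N p : ℕ, 0 < p ∧ ∀ n : ℕ, N ≤ n →
        ((∃ W : Finset (ZMod n) → ZMod n → Prop,
            (∀ (S : Finset (ZMod n)) (x : ZMod n),
              W S x ↔ ∃ m ∈ M, (x + (m : ZMod n)) ∉ S ∧
                ¬ W (insert (x + (m : ZMod n)) S) (x + (m : ZMod n))) ∧
            W {0} 0) ↔
         (∃ W : Finset (ZMod (n + p)) → ZMod (n + p) → Prop,
            (∀ (S : Finset (ZMod (n + p))) (x : ZMod (n + p)),
              W S x ↔ ∃ m ∈ M, (x + (m : ZMod (n + p))) ∉ S ∧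
                ¬ W (insert (x + (m : ZMod (n + p))) S) (x + (m : ZMod (n + p)))) ∧
            W {0} 0)) := by
  intro M hM
  have hm : ∀ a ∈ M, a ≤ M.sup id := fun a ha => Finset.le_sup (f := id) ha
  obtain ⟨r, p, hp, h⟩ := periodic hM hm (M.sup id)
  refine ⟨r + M.sup id + 1, p, hp, fun n hn => ?_⟩
  rw [outcome hM hm n (n - 1) (by omega) (by omega),
    outcome hM hm (n + p) (n - 1 + p) (by omega) (by omega)]
  exact h _ (by omega)

end Pool.Agent.S07119
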