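import Pool.Statements.S07220
-- import your own Pool.Agent.* helpers here

set_option autoImplicit false
open Pool Pool.MP_0fb6b1_co

namespace Pool.Agent.S07220

def blk (B : Finset ℕ) (m j : ℕ) : Finset ℕ := B ∪ Finset.Ico (5 + j) (5 + j + m)

lemma mem_blk (B : Finset ℕ) (m j x : ℕ) :
    x ∈ blk B m j ↔ x ∈ B ∨ (5 + j ≤ x ∧ x < 5 + j + m) := by
  simp [blk]

lemma blk_card (B : Finset ℕ) (hB : ∀ x ∈ B, x < 5) (m j : ℕ) :
    (blk B m j).card = B.card + m := by
  unfold blk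
  rw [Finset.card_union_of_disjoint]
  · simp
  · rw [Finset.disjoint_left]
    intro x hx hx'
    have := hB x hx
    simp at hx'
    omega

lemma blk_inj (B : Finset ℕ) (hB : ∀ x ∈ B, x < 5) (m : ℕ) (hm : 0 < m) :
    Function.Injective (blk B m) := by
  intro i j h
  have h1 : (5 + i) ∈ blk B m j := by
    rw [← h, mem_blk]; right; omega
  have h2 : (5 + j) ∈ blk B m i := by
    rw [h, mem_blk]; right; omega
  rw [mem_blk] at h1 h2
  rcases h1 with h1 | h1
  · have := hB _ h1; omega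
  rcases h2 with h2 | h2
  · have := hB _ h2; omega
  omega

def fam (B : Finset ℕ) (m N : ℕ) : Finset (Finset ℕ) := (Finset.range N).image (blk B m)

lemma fam_card (B : Finset ℕ) (hB : ∀ x ∈ B, x < 5) (m : ℕ) (hm : 0 < m) (N : ℕ) :
    (fam B m N).card = N := by
  unfold fam
  rw [Finset.card_image_of_injective _ (blk_inj B hB m hm)]
  simp

lemma mem_fam (B : Finset ℕ) (m N : ℕ) (A : Finset ℕ) (h : A ∈ fam B m N) :
    ∃ j, A = blk B m j := by
  unfold fam at h
  rw [Finset.mem_image] at h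
  obtain ⟨j, _, rfl⟩ := h
  exact ⟨j, rfl⟩

/-- The negation of the preceding statement: There is a constant K such that, for every family F of w-element sets with at least K^w members, the fraction of triples (S,S1,S2) from F for which some T in F has T∩S=(S1∩S)∪(S2∩S) tends to 1 as w grows, uniformly in F. -/
theorem result :
    ¬ (∃ K : ℝ, ∀ ε : ℝ, 0 < ε → ∃ W : ℕ, ∀ w : ℕ, W ≤ w →
      ∀ F : Finset (Finset ℕ), (∀ A ∈ F, A.card = w) → K ^ w ≤ (F.card : ℝ) →
        (1 - ε) * (F.card : ℝ) ^ 3 ≤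
          (((F ×ˢ F ×ˢ F).filter
            (fun p : Finset ℕ × Finset ℕ × Finset ℕ =>
              ∃ T ∈ F, T ∩ p.1 = (p.2.1 ∩ p.1) ∪ (p.2.2 ∩ p.1))).card : ℝ)) := by
  rintro ⟨K, hK⟩
  obtain ⟨W, hW⟩ := hK (1 / 54) (by norm_num)
  obtain ⟨N0, hN0⟩ := exists_nat_ge (K ^ (3 + (W + 1)))
  set N := N0 + 1 with hN
  set m := W + 1 with hm
  have hm0 : 0 < m := by omega
  have hB0 : ∀ x ∈ ({0, 1, 2} : Finset ℕ), x < 5 := by decide
  have hB1 : ∀ x ∈ ({0, 3, 4} : Finset ℕ), x < 5 := by decide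
  have hB2 : ∀ x ∈ ({1, 3, 4} : Finset ℕ), x < 5 := by decide
  set F0 := fam {0, 1, 2} m N with hF0
  set F1 := fam {0, 3, 4} m N with hF1
  set F2 := fam {1, 3, 4} m N with hF2
  have c0 : F0.card = N := fam_card _ hB0 m hm0 N
  have c1 : F1.card = N := fam_card _ hB1 m hm0 N
  have c2 : F2.card = N := fam_card _ hB2 m hm0 N
  set F := F0 ∪ F1 ∪ F2 with hF
  have hFle : F.card ≤ 3 * N := by
    have h1 := Finset.card_union_le (F0 ∪ F1) F2
    have h2 := Finset.card_union_le F0 F1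
    rw [← hF] at h1
    omega
  have hFge : N ≤ F.card := by
    rw [← c0]
    exact Finset.card_le_card (fun x hx => by simp [hF, hx])
  have hcard : ∀ A ∈ F, A.card = 3 + m := by
    intro A hA
    simp only [hF, Finset.mem_union] at hA
    rcases hA with (hA | hA) | hA
    · obtain ⟨j, rfl⟩ := mem_fam _ _ _ _ hA
      rw [blk_card _ hB0]; rfl
    · obtain ⟨j, rfl⟩ := mem_fam _ _ _ _ hA
      rw [blk_card _ hB1]; rfl
    · obtain ⟨j, rfl⟩ := mem_fam _ _ _ _ hA
      rw [blk_card _ hB2]; rfl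
  have hKF : K ^ (3 + m) ≤ (F.card : ℝ) := by
    have : (N0 : ℝ) ≤ (F.card : ℝ) := by exact_mod_cast (by omega : N0 ≤ F.card)
    linarith
  have key := hW (3 + m) (by omega) F hcard hKF
  set P : Finset ℕ × Finset ℕ × Finset ℕ → Prop := fun p =>
    ∃ T ∈ F, T ∩ p.1 = (p.2.1 ∩ p.1) ∪ (p.2.2 ∩ p.1) with hP
  have hsplit := Finset.card_filter_add_card_filter_not (s := F ×ˢ F ×ˢ F) P
  have hbad : F0 ×ˢ F1 ×ˢ F2 ⊆ (F ×ˢ F ×ˢ F).filter (fun p => ¬ P p) := by
    rintro ⟨S, S1, S2⟩ hp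
    simp only [Finset.mem_product] at hp
    obtain ⟨h0, h1, h2⟩ := hp
    rw [Finset.mem_filter]
    refine ⟨by simp [hF, h0, h1, h2], ?_⟩
    rintro ⟨T, hT, hTe⟩
    obtain ⟨i, rfl⟩ := mem_fam _ _ _ _ h0
    obtain ⟨j, rfl⟩ := mem_fam _ _ _ _ h1
    obtain ⟨k, rfl⟩ := mem_fam _ _ _ _ h2
    have e0 := Finset.ext_iff.mp hTe 0
    have e1 := Finset.ext_iff.mp hTe 1
    have e2 := Finset.ext_iff.mp hTe 2
    simp only [hF, Finset.mem_union] at hT
    rcases hT with (hT | hT) | hT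
    · obtain ⟨l, rfl⟩ := mem_fam _ _ _ _ hT
      simp [mem_blk] at e2
      omega
    · obtain ⟨l, rfl⟩ := mem_fam _ _ _ _ hT
      simp [mem_blk] at e1
      omega
    · obtain ⟨l, rfl⟩ := mem_fam _ _ _ _ hT
      simp [mem_blk] at e0
  have hb := Finset.card_le_card hbad
  simp only [Finset.card_product, c0, c1, c2] at hb hsplit
  have hNpos : (0 : ℝ) < N := by exact_mod_cast (by omega : 0 < N)
  have hle : (F.card : ℝ) ≤ 3 * N := by exact_mod_cast hFle
  have hge : (N : ℝ) ≤ F.card := by exact_mod_cast hFge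
  have h3 : (F.card : ℝ) ^ 3 ≤ (3 * N) ^ 3 := by gcongr
  have hgood : (((F ×ˢ F ×ˢ F).filter P).card : ℝ) + N * (N * N) ≤ F.card * (F.card * F.card) := by
    exact_mod_cast (by omega : ((F ×ˢ F ×ˢ F).filter P).card + N * (N * N) ≤ F.card * (F.card * F.card))
  have hpos : (0 : ℝ) < (N : ℝ) ^ 3 := by positivity
  nlinarith

end Pool.Agent.S07220
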