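import Pool.Statements.S07275

set_option autoImplicit false
open Pool Pool.MP_12e063_co

namespace Pool.Agent.S07275

open Finset Matrix

section Spectral

variable {W : Type} [Fintype W] [DecidableEq W]

/-- The span of the eigenvectors for the first `d` values of `lam`. -/
def EE (A : Matrix W W ℂ) (lam : ℕ → ℂ) (d : ℕ) : Submodule ℂ (W → ℂ) :=
  Submodule.span ℂ {y | ∃ x < d, A *ᵥ y = lam x • y}

omit [DecidableEq W] in
theorem EE_mono (A : Matrix W W ℂ) (lam : ℕ → ℂ) {d e : ℕ} (h : d ≤ e) :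
    EE A lam d ≤ EE A lam e :=
  Submodule.span_mono fun _ ⟨x, hx, hy⟩ => ⟨x, lt_of_lt_of_le hx h, hy⟩

omit [DecidableEq W] in
theorem EE_solve (A : Matrix W W ℂ) (lam : ℕ → ℂ) (hl : Function.Injective lam) (d : ℕ)
    (y : W → ℂ) (hy : y ∈ EE A lam d) : ∃ z ∈ EE A lam d, A *ᵥ z - lam d • z = y := by
  induction hy using Submodule.span_induction with
  | mem y hy =>
    obtain ⟨x, hx, hy'⟩ := hy
    have hne : lam x - lam d ≠ 0 := sub_ne_zero.2 fun h => absurd (hl h) hx.ne
    refine ⟨(lam x - lam d)⁻¹ • y, Submodule.smul_mem _ _ (Submodule.subset_span ⟨x, hx, hy'⟩), ?_⟩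
    rw [mulVec_smul, hy', smul_comm (lam d), ← smul_sub, ← sub_smul, smul_smul,
      inv_mul_cancel₀ hne, one_smul]
  | zero => exact ⟨0, Submodule.zero_mem _, by simp⟩
  | add y y' _ _ h1 h2 =>
    obtain ⟨z, hz, rfl⟩ := h1
    obtain ⟨z', hz', rfl⟩ := h2
    exact ⟨z + z', Submodule.add_mem _ hz hz', by rw [mulVec_add, smul_add]; abel⟩
  | smul c y _ h1 =>
    obtain ⟨z, hz, rfl⟩ := h1
    exact ⟨c • z, Submodule.smul_mem _ _ hz, by rw [mulVec_smul, smul_sub, smul_comm c]⟩

omit [DecidableEq W] in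
theorem EE_chain (A : Matrix W W ℂ) (lam kap : ℕ → ℂ) (hl : Function.Injective lam)
    (w : ℕ → W → ℂ) (h0 : A *ᵥ w 0 = lam 0 • w 0)
    (h1 : ∀ d, A *ᵥ w (d + 1) = lam (d + 1) • w (d + 1) - kap d • w d) (d : ℕ) :
    w d ∈ EE A lam (d + 1) := by
  induction d with
  | zero => exact Submodule.subset_span ⟨0, by omega, h0⟩
  | succ d ih =>
    obtain ⟨z, hz, hz'⟩ := EE_solve A lam hl (d + 1) _ ih
    have h2 : w (d + 1) + kap d • z ∈ EE A lam (d + 2) := by
      refine Submodule.subset_span ⟨d + 1, by omega, ?_⟩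
      rw [mulVec_add, mulVec_smul, h1, ← hz', smul_sub, smul_add, smul_comm (kap d) (lam (d + 1))]
      abel
    have h3 := Submodule.sub_mem _ h2
      (Submodule.smul_mem _ (kap d) (EE_mono A lam (by omega : d + 1 ≤ d + 2) hz))
    simpa using h3

theorem eig_sum (A : Matrix W W ℂ) (s mu : ℂ) (y : W → ℂ) (hy : A *ᵥ y = mu • y) (u : W) :
    HasSum (fun m : ℕ => (s ^ m / (m.factorial : ℂ)) * ((A ^ m) *ᵥ y) u)
      (Complex.exp (s * mu) * y u) := by
  have h1 : ∀ m : ℕ, (A ^ m) *ᵥ y = mu ^ m • y := by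
    intro m
    induction m with
    | zero => simp
    | succ m ih => rw [pow_succ, ← mulVec_mulVec, hy, mulVec_smul, ih, smul_smul, pow_succ']
  have h2 := (NormedSpace.expSeries_div_hasSum_exp (s * mu)).mul_right (y u)
  rw [← Complex.exp_eq_exp_ℂ] at h2
  convert! h2 using 2 with m
  rw [h1, mul_pow]
  simp only [Pi.smul_apply, smul_eq_mul]
  ring

theorem EE_sum (A : Matrix W W ℂ) (s : ℂ) (lam : ℕ → ℂ)
    (hl : ∀ x, Complex.exp (s * lam x) = -1) (d : ℕ) (y : W → ℂ) (hy : y ∈ EE A lam d) (u : W) :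
    HasSum (fun m : ℕ => (s ^ m / (m.factorial : ℂ)) * ((A ^ m) *ᵥ y) u) (-y u) := by
  induction hy using Submodule.span_induction with
  | mem y hy =>
    obtain ⟨x, -, hy'⟩ := hy
    simpa [hl] using eig_sum A s _ y hy' u
  | zero => simp
  | add y y' _ _ h1 h2 =>
    convert! h1.add h2 using 1
    · funext m; rw [mulVec_add, Pi.add_apply]; ring
    · rw [Pi.add_apply]; ring
  | smul c y _ h1 =>
    convert! h1.mul_left c using 1
    · funext m; rw [mulVec_smul, Pi.smul_apply, smul_eq_mul]; ring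
    · rw [Pi.smul_apply, smul_eq_mul]; ring

theorem pst (A : Matrix W W ℂ) (s : ℂ) (lam : ℕ → ℂ)
    (hl : ∀ x, Complex.exp (s * lam x) = -1) (d : ℕ) (u v : W) (huv : u ≠ v)
    (h1 : Pi.single u 1 + Pi.single v 1 ∈ EE A lam d)
    (h2 : ∀ p, A p u = A p v) :
    ‖∑' m : ℕ, (s ^ m / (m.factorial : ℂ)) * (A ^ m) u v‖ = 1 := by
  have h3 := EE_sum A s lam hl d _ h1 u
  have h4 := eig_sum A s 0 (Pi.single u 1 - Pi.single v 1) (by
    funext p
    simp [mulVec_sub, h2]) u
  have h5 := (h3.sub h4).div_const 2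
  have h6 : HasSum (fun m : ℕ => (s ^ m / (m.factorial : ℂ)) * (A ^ m) u v) (-1) := by
    convert! h5 using 1
    · funext m
      simp [mulVec_sub, mulVec_add]
      ring
    · simp [huv]
      norm_num
  rw [h6.tsum_eq]
  simp

end Spectral

section Graph

variable (N : ℕ)

def JJ (n : ℕ) : ℕ := (n + 1) * (N - n)
def aa (n : ℕ) : ℕ := 4 * n * (N - n)

def KK (i : ℕ) (b : Bool) (i' : ℕ) (b' : Bool) : ℕ :=
  (if i' = i + 1 then JJ N (i + 1) else 0) + (if i = i' + 1 then JJ N (i' + 1) else 0)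
    + (if i = i' ∧ b ≠ b' then aa N (i + 1) else 0)

theorem KK_symm (i : ℕ) (b : Bool) (i' : ℕ) (b' : Bool) : KK N i b i' b' = KK N i' b' i b := by
  unfold KK
  by_cases h : i = i'
  · subst h; simp [ne_comm]
  · simp [h, Ne.symm h, add_comm]

theorem JJ_le (n : ℕ) : JJ N n ≤ N * N := by
  unfold JJ
  rcases lt_or_ge n N with h | h
  · exact Nat.mul_le_mul h (Nat.sub_le _ _)
  · simp [Nat.sub_eq_zero_of_le h]

theorem aa_le (n : ℕ) : aa N n ≤ N * N := by
  unfold aa
  rcases le_or_gt n N with h | h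
  · obtain ⟨k, rfl⟩ := Nat.exists_eq_add_of_le h
    rw [Nat.add_sub_cancel_left]
    nlinarith [sq_nonneg ((n : ℤ) - k)]
  · simp [Nat.sub_eq_zero_of_le h.le]

theorem KK_le (i : ℕ) (b : Bool) (i' : ℕ) (b' : Bool) : KK N i b i' b' ≤ N * N := by
  unfold KK
  have h1 := JJ_le N (i + 1)
  have h2 := JJ_le N (i' + 1)
  have h3 := aa_le N (i + 1)
  split_ifs <;> omega

abbrev VV := Bool ⊕ (Fin N × Bool × ZMod (N * N))

def adj : VV N → VV N → Prop
  | .inl _, .inl _ => False
  | .inl _, .inr q => q.1.val = 0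
  | .inr p, .inl _ => p.1.val = 0
  | .inr p, .inr q => (p.2.2 + q.2.2).val < KK N p.1 p.2.1 q.1 q.2.1

theorem adj_symm (p q : VV N) (h : adj N p q) : adj N q p := by
  rcases p with b | p <;> rcases q with b' | q
  · exact h
  · exact h
  · exact h
  · simp only [adj] at h ⊢
    rwa [add_comm, KK_symm]

theorem adj_irrefl (p : VV N) : ¬ adj N p p := by
  rcases p with b | p
  · exact id
  · simp [adj, KK]

def lay : VV N → ℕ
  | .inl _ => 0
  | .inr p => p.1.val + 1

theorem lay_adj (p q : VV N) (h : adj N p q) : lay N q ≤ lay N p + 1 := by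
  rcases p with b | p <;> rcases q with b' | q
  · exact h.elim
  · simp only [adj] at h; simp [lay, h]
  · simp [lay]
  · simp only [adj, KK] at h
    simp only [lay]
    split_ifs at h <;> omega

def FF (f : ℕ → ℂ) : VV N → ℂ
  | .inl _ => N * f 0
  | .inr p => f (p.1.val + 1)

def TT (f : ℕ → ℂ) : ℕ → ℂ
  | 0 => 2 * N * f 1
  | (n + 1) => 2 * JJ N (n + 1) * f (n + 2) + 2 * JJ N n * f n + aa N (n + 1) * f (n + 1)

theorem count (M : ℕ) [NeZero M] (j : ZMod M) (k : ℕ) (hk : k ≤ M) (c : ℂ) :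
    ∑ j' : ZMod M, (if (j + j').val < k then c else 0) = k * c := by
  refine (Equiv.sum_comp (Equiv.addLeft j) (fun x => if x.val < k then c else 0)).trans ?_
  rw [← Finset.sum_filter, Finset.sum_const, nsmul_eq_mul]
  congr 2
  rw [← Finset.card_range k]
  apply Finset.card_bij (fun x _ => x.val)
  · intro x hx; simpa using hx
  · intro x _ y _ h; exact ZMod.val_injective _ h
  · intro y hy
    have hy' : y < M := lt_of_lt_of_le (Finset.mem_range.1 hy) hk
    exact ⟨(y : ZMod M), by simpa [ZMod.val_cast_of_lt hy'] using hy, ZMod.val_cast_of_lt hy'⟩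

open Classical in
theorem adj_sum [NeZero N] (f : ℕ → ℂ) (p : VV N) :
    ∑ q : VV N, (if adj N p q then FF N f q else 0) = FF N (TT N f) p := by
  have hN : 0 < N := Nat.pos_of_ne_zero (NeZero.ne N)
  rcases p with b | ⟨i, b, j⟩
  · simp only [Fintype.sum_sum_type, adj, if_false, sum_const_zero, zero_add, FF, TT,
      Fintype.sum_prod_type]
    rw [Finset.sum_eq_single ⟨0, hN⟩]
    · simp [ZMod.card]; ring
    · intro i _ hi
      have : i.val ≠ 0 := fun h => hi (Fin.ext h)
      simp [this]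
    · simp
  · simp only [Fintype.sum_sum_type, adj, FF, TT, Fintype.sum_prod_type]
    have h1 : ∀ (i' : Fin N) (b' : Bool), ∑ j' : ZMod (N * N),
        (if (j + j').val < KK N i b i' b' then f (i'.val + 1) else 0)
          = KK N i b i' b' * f (i'.val + 1) := fun i' b' => count _ j _ (KK_le N _ _ _ _) _
    simp only [h1]
    rw [Fin.sum_univ_eq_sum_range (fun i' => ∑ b', (KK N i b i' b' : ℂ) * f (i' + 1))]
    have h2 : ∀ i' : ℕ, ∑ b', (KK N i b i' b' : ℂ) * f (i' + 1)
        = (if i' = i + 1 then 2 * JJ N (i + 1) * f (i + 2) else 0)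
          + (if i = i' + 1 then 2 * JJ N i * f i else 0)
          + (if i' = i then aa N (i + 1) * f (i + 1) else 0) := by
      intro i'
      unfold KK
      by_cases c1 : i' = i + 1
      · subst c1
        have c2 : ¬ (i.val = i + 1 + 1) := by omega
        simp [c2]; ring
      · by_cases c2 : i = i' + 1
        · have c3 : ¬ (i' = i) := by omega
          have c4 : ¬ (i = i') := by omega
          rw [if_neg c1, if_pos c2, if_neg c1, if_pos c2, if_neg c3]
          simp only [c4, false_and, if_false]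
          rw [c2]; simp; ring
        · by_cases c3 : i' = i
          · subst c3; cases b <;> simp
          · have c4 : ¬ (i = i') := by omega
            simp [c1, c2, c3, c4]
    simp only [h2, Finset.sum_add_distrib, Finset.sum_ite_eq', Finset.mem_range, i.2, if_true]
    have h3 : (if i.val + 1 < N then 2 * (JJ N (i + 1) : ℂ) * f (i + 2) else 0)
        = 2 * JJ N (i + 1) * f (i + 2) := by
      split_ifs with h
      · rfl
      · simp [JJ, Nat.sub_eq_zero_of_le (not_lt.1 h)]
    rw [h3]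
    obtain ⟨i, hi⟩ := i
    rcases i with _ | i
    · simp [JJ]; ring
    · have h4 : i < N := by omega
      simp [h4, eq_comm]

noncomputable def ff (d n : ℕ) : ℂ := (-1) ^ n * (n.choose d : ℂ)
def lam (d : ℕ) : ℂ := 2 * (d * (d + 1) - N)
def kap (e : ℕ) : ℂ := 2 * (e + 1) * (N - e)

theorem choose_cast (n e : ℕ) : (n.choose (e + 1) : ℂ) * (e + 1) = n.choose e * (n - e) := by
  rcases le_or_gt e n with h | h
  · have := congrArg (Nat.cast : ℕ → ℂ) (Nat.choose_succ_right_eq n e)
    push_cast [Nat.cast_sub h] at this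
    exact this
  · simp [Nat.choose_eq_zero_of_lt h, Nat.choose_eq_zero_of_lt (Nat.lt_succ_of_lt h)]

theorem TT_zero (n : ℕ) (hn : n ≤ N) : TT N (ff 0) n = lam N 0 * ff 0 n := by
  rcases n with _ | n
  · simp [TT, ff, lam]
  · simp only [TT, ff, lam, JJ, aa, Nat.choose_zero_right]
    push_cast [Nat.cast_sub hn, Nat.cast_sub (by omega : n ≤ N)]
    ring

theorem TT_succ (e n : ℕ) (hn : n ≤ N) :
    TT N (ff (e + 1)) n = lam N (e + 1) * ff (e + 1) n - kap N e * ff e n := by
  rcases n with _ | n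
  · rcases e with _ | e
    · simp [TT, ff, lam, kap]
    · simp [TT, ff, lam, kap, Nat.choose_eq_zero_of_lt]
  · have h1 : ((n + 2).choose (e + 1) : ℂ) = (n + 1).choose e + (n + 1).choose (e + 1) := by
      rw [Nat.choose_succ_succ' (n + 1) e]; push_cast; rfl
    have h2 : (n.choose (e + 1) : ℂ) = (n + 1).choose (e + 1) - n.choose e := by
      rw [Nat.choose_succ_succ' n e]; push_cast; ring
    have h3 : ((n : ℂ) + 1) * n.choose e = (n + 1).choose (e + 1) * (e + 1) := by
      exact_mod_cast Nat.add_one_mul_choose_eq n e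
    have h4 := choose_cast (n + 1) e
    simp only [TT, ff, lam, kap, JJ, aa, h1, h2]
    push_cast [Nat.cast_sub hn, Nat.cast_sub (by omega : n ≤ N)] at h4 ⊢
    linear_combination (-2 * (-1) ^ n * (N - n)) * h3 + (2 * (-1) ^ n * (e + 2 - N + n)) * h4

theorem alt_sum (n : ℕ) (hn : n ≤ N) :
    ∑ d ∈ range (N + 1), (-1) ^ d * (n.choose d : ℂ) = if n = 0 then 1 else 0 := by
  have h1 := congrArg (Int.cast : ℤ → ℂ) (Int.alternating_sum_range_choose (n := n))
  push_cast at h1
  rw [← h1]
  symm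
  apply Finset.sum_subset (Finset.range_mono (by omega))
  intro d _ hd
  rw [Nat.choose_eq_zero_of_lt (by simpa using hd)]
  simp

theorem lam_inj : Function.Injective (lam N) := by
  intro d e h
  unfold lam at h
  have h1 : ((d * (d + 1) : ℕ) : ℂ) = (e * (e + 1) : ℕ) := by
    push_cast; linear_combination h / 2
  have h2 : d * (d + 1) = e * (e + 1) := by exact_mod_cast h1
  nlinarith

theorem lam_exp (hN : Odd N) (x : ℕ) :
    Complex.exp (-((Real.pi / 2 : ℝ) : ℂ) * Complex.I * lam N x) = -1 := by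
  obtain ⟨k, hk⟩ := hN
  obtain ⟨l, hl⟩ := Nat.even_mul_succ_self x
  have h1 : (x : ℂ) * (x + 1) = l + l := by exact_mod_cast hl
  have h2 : -((Real.pi / 2 : ℝ) : ℂ) * Complex.I * lam N x
      = ((k - l : ℤ) : ℂ) * (2 * Real.pi * Complex.I) + Real.pi * Complex.I := by
    rw [lam, h1, hk]; push_cast; ring
  rw [h2, Complex.exp_add, Complex.exp_int_mul_two_pi_mul_I, Complex.exp_pi_mul_I, one_mul]

end Graph

theorem walk_lay {W : Type} (G : SimpleGraph W) (l : W → ℕ)
    (h : ∀ p q, G.Adj p q → l q ≤ l p + 1) {u w : W} (p : G.Walk u w) : l w ≤ l u + p.length := by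
  induction p with
  | nil => simp
  | cons h1 p ih =>
    have := h _ _ h1
    rw [SimpleGraph.Walk.length_cons]; omega

/-- There are constants C,k such that arbitrarily large connected simple graphs exist with at most C·diam^k vertices, each having perfect state transfer: for some distinct u,v and time t, the (u,v) entry of exp(-itA) has modulus 1. -/
theorem result :
    ∃ C k : ℕ, ∀ N : ℕ, ∃ (n : ℕ) (G : SimpleGraph (Fin n)) (_ : DecidableRel G.Adj),
      N < n ∧ G.Connected ∧ n ≤ C * G.diam ^ k ∧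
      ∃ (u v : Fin n) (t : ℝ), u ≠ v ∧
        ‖∑' m : ℕ, ((-(t : ℂ) * Complex.I) ^ m / (m.factorial : ℂ)) *
            ((G.adjMatrix ℂ) ^ m) u v‖ = 1 := by
  classical
  refine ⟨4, 3, fun N0 => ?_⟩
  obtain ⟨N, hN0, hNo⟩ : ∃ N, N0 < N ∧ Odd N := ⟨2 * N0 + 1, by omega, ⟨N0, rfl⟩⟩
  have hN : 0 < N := by omega
  have : NeZero N := ⟨hN.ne'⟩
  have hcard : Fintype.card (VV N) = 2 + N * (2 * (N * N)) := by simp [ZMod.card]
  obtain ⟨E⟩ : Nonempty (Fin (2 + N * (2 * (N * N))) ≃ VV N) :=
    ⟨(Fintype.equivFinOfCardEq hcard).symm⟩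
  let G : SimpleGraph (Fin (2 + N * (2 * (N * N)))) :=
    { Adj := fun a b => adj N (E a) (E b)
      symm := ⟨fun a b h => adj_symm N _ _ h⟩
      loopless := ⟨fun a h => adj_irrefl N _ h⟩ }
  have hadj : ∀ p q, adj N p q → G.Adj (E.symm p) (E.symm q) := by
    intro p q h
    simpa [G] using h
  have hr1 : ∀ (i : ℕ) (hi : i < N) (b : Bool) (j : ZMod (N * N)),
      G.Reachable (E.symm (.inl false)) (E.symm (.inr (⟨i, hi⟩, b, j))) := by
    intro i
    induction i with
    | zero => intro hi b j; exact (hadj _ _ (by simp [adj])).reachable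
    | succ i ih =>
      intro hi b j
      refine (ih (by omega) b (-j)).trans (hadj _ _ ?_).reachable
      simp [adj, KK, JJ, hi]
  have hr : ∀ a, G.Reachable (E.symm (.inl false)) a := by
    intro a
    obtain ⟨p, rfl⟩ := E.symm.surjective a
    rcases p with b | ⟨⟨i, hi⟩, b, j⟩
    · exact (hr1 0 hN false 0).trans (hadj _ _ (by simp [adj])).reachable
    · exact hr1 i hi b j
  have hne : Nonempty (Fin (2 + N * (2 * (N * N)))) := ⟨E.symm (.inl false)⟩
  have hconn : G.Connected := ⟨fun a b => (hr a).symm.trans (hr b)⟩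
  have hdiam : N ≤ G.diam := by
    obtain ⟨p, hp⟩ := (hr (E.symm (.inr (⟨N - 1, by omega⟩, false, 0)))).exists_walk_length_eq_dist
    have h1 := walk_lay G (fun a => lay N (E a)) (fun a b h => lay_adj N _ _ h) p
    have h2 := SimpleGraph.dist_le_diam (SimpleGraph.connected_iff_ediam_ne_top.1 hconn)
      (u := E.symm (.inl false)) (v := E.symm (.inr (⟨N - 1, by omega⟩, false, 0)))
    simp only [Equiv.apply_symm_apply, lay] at h1
    omega
  have hmul : ∀ f : ℕ → ℂ, G.adjMatrix ℂ *ᵥ (fun a => FF N f (E a))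
      = fun a => FF N (TT N f) (E a) := by
    intro f
    funext a
    rw [← adj_sum, ← Equiv.sum_comp E]
    simp only [mulVec, dotProduct, SimpleGraph.adjMatrix_apply, ite_mul, one_mul, zero_mul]
    rfl
  refine ⟨_, G, inferInstance, by nlinarith, hconn, ?_, E.symm (.inl false), E.symm (.inl true),
    Real.pi / 2, by simp, ?_⟩
  · have h1 : N ^ 3 ≤ G.diam ^ 3 := Nat.pow_le_pow_left hdiam 3
    have h2 : 1 ≤ N ^ 3 := Nat.one_le_pow _ _ hN
    nlinarith
  · have hch := EE_chain (G.adjMatrix ℂ) (lam N) (kap N) (lam_inj N)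
      (fun d a => FF N (ff d) (E a)) (by
        rw [hmul]
        funext a
        simp only [Pi.smul_apply, smul_eq_mul]
        rcases E a with b | ⟨i, b, j⟩
        · simp only [FF, TT_zero N 0 (by omega)]; ring
        · simp only [FF, TT_zero N (i + 1) i.2]) (by
        intro d
        rw [hmul]
        funext a
        simp only [Pi.smul_apply, Pi.sub_apply, smul_eq_mul]
        rcases E a with b | ⟨i, b, j⟩
        · simp only [FF, TT_succ N d 0 (by omega)]; ring
        · simp only [FF, TT_succ N d (i + 1) i.2])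
    refine pst (G.adjMatrix ℂ) _ (lam N) (lam_exp N hNo) (N + 1) _ _ (by simp) ?_ ?_
    · have h1 : (Pi.single (E.symm (.inl false)) 1 + Pi.single (E.symm (.inl true)) 1 :
          Fin (2 + N * (2 * (N * N))) → ℂ)
          = ∑ d ∈ range (N + 1), ((-1) ^ d / (N : ℂ)) • fun a => FF N (ff d) (E a) := by
        funext a
        obtain ⟨p, rfl⟩ := E.symm.surjective a
        have hNc : (N : ℂ) ≠ 0 := by exact_mod_cast hN.ne'
        simp only [Finset.sum_apply, Pi.smul_apply, smul_eq_mul, Equiv.apply_symm_apply,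
          Pi.add_apply, Pi.single_apply, Equiv.apply_eq_iff_eq]
        rcases p with b | ⟨i, b, j⟩
        · have h2 := alt_sum N 0 (by omega)
          rw [if_pos rfl] at h2
          have h3 : ∀ d : ℕ, (-1) ^ d / (N : ℂ) * FF N (ff d) (.inl b)
              = (-1) ^ d * (Nat.choose 0 d : ℂ) := by
            intro d; simp only [FF, ff]; field_simp
          simp only [h3, h2]
          cases b <;> simp
        · have h2 := alt_sum N (i + 1) i.2
          rw [if_neg (by omega)] at h2
          have h3 : ∀ d : ℕ, (-1) ^ d / (N : ℂ) * FF N (ff d) (.inr (i, b, j))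
              = ((-1) ^ (i.val + 1) / N) * ((-1) ^ d * (Nat.choose (i + 1) d : ℂ)) := by
            intro d; simp only [FF, ff]; ring
          simp only [h3, ← Finset.mul_sum, h2]
          simp
      rw [h1]
      refine Submodule.sum_mem _ fun d hd => Submodule.smul_mem _ _ ?_
      exact EE_mono _ _ (Finset.mem_range.1 hd) (hch d)
    · intro a
      simp only [SimpleGraph.adjMatrix_apply, G, Equiv.apply_symm_apply]
      rcases E a with b | p <;> rfl

end Pool.Agent.S07275
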