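import Pool.Statements.S07321

set_option autoImplicit false
open Pool Pool.MP_155e99_co

namespace Pool.Agent.S07321
open Matrix Finset Kronecker

/-- An integral similarity of norm `m` in dimension `N`. -/
def Sim (m N : ℕ) : Prop :=
  ∃ W : Matrix (Fin N) (Fin N) ℤ, W * Wᵀ = (m : ℤ) • (1 : Matrix (Fin N) (Fin N) ℤ)

/-- An integral similarity with a zero-one row. -/
def Frame (m N : ℕ) : Prop :=
  ∃ W : Matrix (Fin N) (Fin N) ℤ, W * Wᵀ = (m : ℤ) • (1 : Matrix (Fin N) (Fin N) ℤ) ∧
    ∃ r, ∀ j, W r j = 0 ∨ W r j = 1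

theorem sub_mul {ι κ : Type} [Fintype ι] [DecidableEq ι] [Fintype κ] [DecidableEq κ] {c : ℤ}
    (W : Matrix ι ι ℤ) (h : W * Wᵀ = c • (1 : Matrix ι ι ℤ)) (e f : κ ≃ ι) :
    W.submatrix e f * (W.submatrix e f)ᵀ = c • (1 : Matrix κ κ ℤ) := by
  rw [transpose_submatrix, submatrix_mul_equiv, h]
  ext i j
  simp only [submatrix_apply, Matrix.smul_apply, one_apply, e.injective.eq_iff]

theorem sim_of {ι : Type} [Fintype ι] [DecidableEq ι] {m N : ℕ} (hN : Fintype.card ι = N)
    (W : Matrix ι ι ℤ) (h : W * Wᵀ = (m : ℤ) • (1 : Matrix ι ι ℤ)) : Sim m N :=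
  ⟨W.submatrix (Fintype.equivFinOfCardEq hN).symm (Fintype.equivFinOfCardEq hN).symm,
    sub_mul W h _ _⟩

theorem frame_of {ι : Type} [Fintype ι] [DecidableEq ι] {m N : ℕ} (hN : Fintype.card ι = N)
    (W : Matrix ι ι ℤ) (h : W * Wᵀ = (m : ℤ) • (1 : Matrix ι ι ℤ)) (r : ι)
    (hr : ∀ j, W r j = 0 ∨ W r j = 1) : Frame m N :=
  ⟨W.submatrix (Fintype.equivFinOfCardEq hN).symm (Fintype.equivFinOfCardEq hN).symm,
    sub_mul W h _ _, Fintype.equivFinOfCardEq hN r, fun j => by simpa using hr _⟩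

theorem Frame.sim {m N : ℕ} (h : Frame m N) : Sim m N := ⟨h.choose, h.choose_spec.1⟩

theorem block {a b : ℕ} {c : ℤ} (W : Matrix (Fin a) (Fin a) ℤ) (S : Matrix (Fin b) (Fin b) ℤ)
    (h : W * Wᵀ = c • (1 : Matrix (Fin a) (Fin a) ℤ))
    (h' : S * Sᵀ = c • (1 : Matrix (Fin b) (Fin b) ℤ)) :
    fromBlocks W 0 0 S * (fromBlocks W 0 0 S)ᵀ =
      c • (1 : Matrix (Fin a ⊕ Fin b) (Fin a ⊕ Fin b) ℤ) := by
  rw [fromBlocks_transpose, fromBlocks_multiply, ← fromBlocks_one, fromBlocks_smul]
  simp [h, h']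

theorem Sim.add {m a b : ℕ} (h : Sim m a) (h' : Sim m b) : Sim m (a + b) := by
  obtain ⟨W, hW⟩ := h
  obtain ⟨S, hS⟩ := h'
  exact sim_of (by simp) _ (block W S hW hS)

theorem Sim.mul {m a : ℕ} (h : Sim m a) (k : ℕ) : Sim m (a * k) := by
  induction k with
  | zero => exact ⟨0, by ext i; exact i.elim0⟩
  | succ k ih => exact ih.add h

theorem Frame.pad {m a b : ℕ} (h : Frame m a) (h' : Sim m b) : Frame m (a + b) := by
  obtain ⟨W, hW, r, hr⟩ := h
  obtain ⟨S, hS⟩ := h'
  refine frame_of (by simp) _ (block W S hW hS) (Sum.inl r) ?_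
  rintro (j | j)
  · simpa using hr j
  · simp

theorem Frame.mul {m a : ℕ} (h : Frame m a) (k : ℕ) (hk : 0 < k) : Frame m (a * k) := by
  obtain ⟨k, rfl⟩ : ∃ l, k = l + 1 := ⟨k - 1, by omega⟩
  have := h.pad (h.sim.mul k)
  rwa [show a + a * k = a * (k + 1) by ring] at this

theorem supp_card {ι : Type} [Fintype ι] [DecidableEq ι] {m : ℕ} (W : Matrix ι ι ℤ)
    (h : W * Wᵀ = (m : ℤ) • (1 : Matrix ι ι ℤ)) (r : ι) (hr : ∀ j, W r j = 0 ∨ W r j = 1) :
    (univ.filter (fun j => W r j = 1)).card = m := by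
  have h1 := congrFun (congrFun h r) r
  simp only [mul_apply, transpose_apply, Matrix.smul_apply, one_apply_eq, smul_eq_mul, mul_one] at h1
  have h2 : ((univ.filter (fun j => W r j = 1)).card : ℤ) = ∑ j, W r j * W r j := by
    rw [card_filter]
    push_cast
    refine sum_congr rfl fun j _ => ?_
    rcases hr j with h | h <;> simp [h]
  exact_mod_cast h2.trans h1

theorem step {m1 m2 N : ℕ} (h1 : Frame m1 N) (h2 : Frame m2 (N * m2)) :
    Frame (m1 * m2) (N * m2) := by
  obtain ⟨W1, hW1, r1, hr1⟩ := h1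
  obtain ⟨W0, hW0, r0, hr0⟩ := h2
  let e : Fin N × Fin m2 ≃ Fin (N * m2) := finProdFinEquiv
  let W2 := W0.submatrix e e
  have hW2 : W2 * W2ᵀ = (m2 : ℤ) • (1 : Matrix (Fin N × Fin m2) (Fin N × Fin m2) ℤ) :=
    sub_mul W0 hW0 e e
  have hr2 : ∀ j, W2 (e.symm r0) j = 0 ∨ W2 (e.symm r0) j = 1 := fun j => by
    simpa [W2] using hr0 _
  obtain ⟨σ, hσ⟩ := Equiv.Perm.exists_map_finset_eq
    (({r1} : Finset (Fin N)) ×ˢ (univ : Finset (Fin m2)))
    (univ.filter (fun j => W2 (e.symm r0) j = 1)) (by rw [supp_card W2 hW2 _ hr2]; simp)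
  have hσ' : ∀ q, W2 (e.symm r0) (σ q) = if q.1 = r1 then 1 else 0 := by
    intro q
    have : σ q ∈ univ.filter (fun j => W2 (e.symm r0) j = 1) ↔ q.1 = r1 := by
      rw [← hσ, mem_map_equiv, mem_product]
      simp
    simp only [mem_filter, mem_univ, true_and] at this
    split_ifs with h
    · exact this.mpr h
    · exact (hr2 _).resolve_right (fun h' => h (this.mp h'))
  let W3 := W2.submatrix (Equiv.refl _) σ
  have hW3 : W3 * W3ᵀ = (m2 : ℤ) • (1 : Matrix (Fin N × Fin m2) (Fin N × Fin m2) ℤ) :=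
    sub_mul W2 hW2 _ _
  refine frame_of (by simp) (W3 * (W1 ⊗ₖ (1 : Matrix (Fin m2) (Fin m2) ℤ))) ?_ (e.symm r0) ?_
  · rw [transpose_mul, Matrix.mul_assoc, ← Matrix.mul_assoc (W1 ⊗ₖ _), ← kroneckerMap_transpose,
      ← mul_kronecker_mul, hW1, transpose_one, Matrix.mul_one, smul_kronecker, one_kronecker_one,
      Matrix.smul_mul, Matrix.one_mul, Matrix.mul_smul, hW3, smul_smul]
    push_cast
    rfl
  · rintro ⟨i, k⟩
    have : (W3 * (W1 ⊗ₖ (1 : Matrix (Fin m2) (Fin m2) ℤ))) (e.symm r0) (i, k) = W1 r1 i := by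
      simp only [mul_apply, W3, submatrix_apply, Equiv.refl_apply, hσ', kroneckerMap_apply,
        Fintype.sum_prod_type, one_apply]
      simp
    rw [this]
    exact hr1 i

theorem mult {c m1 m2 : ℕ} (h0 : 0 < m1) (h1 : Frame m1 (c * m1)) (h2 : Frame m2 (c * m2)) :
    Frame (m1 * m2) (c * (m1 * m2)) := by
  have h3 := h2.mul m1 h0
  rw [show c * m2 * m1 = c * m1 * m2 by ring] at h3
  have := step h1 h3
  rwa [mul_assoc] at this

theorem frame_one : Frame 1 1 := ⟨1, by simp, 0, by decide⟩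

theorem frame_two : Frame 2 2 :=
  ⟨!![1, 1; 1, -1], by decide, 0, by decide⟩

theorem frame_four : Frame 4 4 :=
  ⟨!![1, 1, 1, 1; 1, -1, 1, -1; 1, 1, -1, -1; 1, -1, -1, 1], by decide, 0, by decide⟩

theorem sim_sq (a : ℕ) : Sim (a * a) 1 :=
  ⟨!![(a : ℤ)], by ext i j; fin_cases i; fin_cases j; simp [mul_apply]⟩

theorem sim_two (a b : ℕ) : Sim (a ^ 2 + b ^ 2) 2 :=
  ⟨!![(a : ℤ), b; -b, a], by
    ext i j
    fin_cases i <;> fin_cases j <;> simp [mul_apply, Fin.sum_univ_succ] <;> ring⟩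

theorem sim_four (m : ℕ) : Sim m 4 := by
  obtain ⟨a, b, c, d, rfl⟩ := Nat.sum_four_squares m
  exact ⟨!![(a : ℤ), b, c, d; -b, a, -d, c; -c, d, a, -b; -d, -c, b, a], by
    ext i j
    fin_cases i <;> fin_cases j <;> simp [mul_apply, Fin.sum_univ_succ] <;> ring⟩

theorem jacobsthal {F : Type} [Field F] [Fintype F] [DecidableEq F] (hF : ringChar F ≠ 2)
    (c : F) (hc : c ≠ 0) : ∑ x : F, quadraticChar F x * quadraticChar F (x + c) = -1 := by
  have h1 : ∑ x : F, quadraticChar F x * quadraticChar F (x + c) =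
      ∑ x ∈ univ.erase (0 : F), quadraticChar F (1 + c * x⁻¹) := by
    rw [← sum_erase_add _ _ (mem_univ (0 : F))]
    simp only [MulChar.map_zero, zero_mul, add_zero]
    refine sum_congr rfl fun x hx => ?_
    have hx0 : x ≠ 0 := ne_of_mem_erase hx
    have : x + c = x * (1 + c * x⁻¹) := by field_simp
    rw [this, map_mul, ← mul_assoc, ← pow_two, quadraticChar_sq_one hx0, one_mul]
  have h2 : ∑ x : F, quadraticChar F (1 + c * x⁻¹) = 0 := by
    rw [← quadraticChar_sum_zero hF]
    exact Equiv.sum_comp (((Equiv.inv F).trans (Equiv.mulLeft₀ c hc)).trans (Equiv.addLeft 1)) _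
  rw [← sum_erase_add _ _ (mem_univ (0 : F))] at h2
  simp only [_root_.inv_zero, mul_zero, add_zero, map_one] at h2
  rw [h1]
  linarith

theorem paley (p : ℕ) [hp : Fact p.Prime] (h2 : p ≠ 2) : Frame p (p + 1) := by
  have hF : ringChar (ZMod p) ≠ 2 := by rwa [ZMod.ringChar_zmod_n]
  let C : Matrix (Option (ZMod p)) (Option (ZMod p)) ℤ := fun i j =>
    match i, j with
    | none, none => 0
    | none, some _ => 1
    | some _, none => 1
    | some a, some b => quadraticChar (ZMod p) (b - a)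
  have hz : ∀ a : ZMod p, ∑ b, quadraticChar (ZMod p) (b - a) = 0 := by
    intro a
    rw [← quadraticChar_sum_zero hF]
    exact Equiv.sum_comp (Equiv.subRight a) _
  refine frame_of (by simp) C ?_ none ?_
  · ext i j
    simp only [mul_apply, transpose_apply, Fintype.sum_option, Matrix.smul_apply, smul_eq_mul]
    rcases i with _ | a <;> rcases j with _ | b
    · simp [C]
    · simpa [C] using hz b
    · simpa [C] using hz a
    · simp only [C, mul_one]
      by_cases hab : a = b
      · subst hab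
        have h3 : ∑ x, quadraticChar (ZMod p) (x - a) * quadraticChar (ZMod p) (x - a) =
            ∑ x ∈ univ.erase a, 1 := by
          rw [← sum_erase_add _ _ (mem_univ a)]
          simp only [sub_self, MulChar.map_zero, zero_mul, add_zero]
          refine sum_congr rfl fun x hx => ?_
          rw [← pow_two, quadraticChar_sq_one (sub_ne_zero.mpr (ne_of_mem_erase hx))]
        rw [h3, sum_const, card_erase_of_mem (mem_univ _), card_univ, ZMod.card]
        have := hp.out.pos
        simp [Nat.cast_sub this]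
      · have h3 := jacobsthal hF (a - b) (sub_ne_zero.mpr hab)
        rw [← Equiv.sum_comp (Equiv.subRight a)] at h3
        simp only [Equiv.subRight_apply, sub_add_sub_cancel] at h3
        rw [h3, one_apply_ne (by simpa using hab)]
        simp
  · rintro (_ | j) <;> simp [C]

theorem frameA (m : ℕ) : 0 < m → Frame m (4 * m) := by
  induction m using induction_on_primes with
  | zero => intro h; omega
  | one => intro _; exact frame_one.mul 4 (by norm_num)
  | prime_mul p a hp ih =>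
    intro h
    refine mult hp.pos ?_ (ih (Nat.pos_of_mul_pos_left h))
    by_cases h2 : p = 2
    · subst h2
      exact frame_two.mul 4 (by norm_num)
    have : Fact p.Prime := ⟨hp⟩
    have hodd := hp.eq_two_or_odd.resolve_left h2
    by_cases h3 : p % 4 = 3
    · have := (paley p h2).pad ((sim_four p).mul ((3 * p - 1) / 4))
      rwa [show p + 1 + 4 * ((3 * p - 1) / 4) = 4 * p by omega] at this
    · obtain ⟨x, y, hxy⟩ := Nat.Prime.sq_add_sq h3
      have h4 := sim_two x y
      rw [hxy] at h4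
      have := (paley p h2).pad (h4.mul ((3 * p - 1) / 2))
      rwa [show p + 1 + 2 * ((3 * p - 1) / 2) = 4 * p by omega] at this

theorem frameB1 (m : ℕ) : 0 < m → (∀ p, p.Prime → p ∣ m → p % 4 ≠ 3) → Frame m (2 * m) := by
  induction m using induction_on_primes with
  | zero => intro h; omega
  | one => intro _ _; exact frame_one.mul 2 (by norm_num)
  | prime_mul p a hp ih =>
    intro h hd
    refine mult hp.pos ?_ (ih (Nat.pos_of_mul_pos_left h)
      (fun q hq h => hd q hq (Dvd.dvd.mul_left h _)))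
    by_cases h2 : p = 2
    · subst h2
      exact frame_two.mul 2 (by norm_num)
    have : Fact p.Prime := ⟨hp⟩
    have hodd := hp.eq_two_or_odd.resolve_left h2
    obtain ⟨x, y, hxy⟩ := Nat.Prime.sq_add_sq (hd p hp (Dvd.intro _ rfl))
    have h4 := sim_two x y
    rw [hxy] at h4
    have := (paley p h2).pad (h4.mul ((p - 1) / 2))
    rwa [show p + 1 + 2 * ((p - 1) / 2) = 2 * p by omega] at this

theorem frameB2 (m : ℕ) : 0 < m → Frame (m ^ 2) (2 * m ^ 2) := by
  induction m using induction_on_primes with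
  | zero => intro h; omega
  | one => intro _; exact frame_one.mul 2 (by norm_num)
  | prime_mul p a hp ih =>
    intro h
    rw [mul_pow]
    refine mult (pow_pos hp.pos 2) ?_ (ih (Nat.pos_of_mul_pos_left h))
    by_cases h2 : p = 2
    · subst h2
      exact frame_four.mul 2 (by norm_num)
    have : Fact p.Prime := ⟨hp⟩
    have h3 := step (paley p h2) ((paley p h2).mul p hp.pos)
    have h4 := h3.pad ((sim_sq p).mul (p * (p - 1)))
    obtain ⟨q, rfl⟩ : ∃ q, p = q + 1 := ⟨p - 1, by have := hp.pos; omega⟩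
    rw [pow_two]
    rwa [show (q + 1 + 1) * (q + 1) + 1 * ((q + 1) * (q + 1 - 1)) = 2 * ((q + 1) * (q + 1)) by
      rw [Nat.add_sub_cancel]; ring] at h4

theorem frameB (m y u v : ℕ) (hm : 0 < m) (hy : 0 < y) (h : m * y ^ 2 = u ^ 2 + v ^ 2) :
    Frame m (2 * m) := by
  have h1 : ∃ x y, m = x ^ 2 + y ^ 2 := by
    rw [Nat.eq_sq_add_sq_iff]
    intro q hq h3
    have hqp := Nat.prime_of_mem_primeFactors hq
    have : Fact q.Prime := ⟨hqp⟩
    have h4 := Nat.eq_sq_add_sq_iff.mp ⟨u, v, h⟩ q (by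
      rw [Nat.mem_primeFactors]
      exact ⟨hqp, Dvd.dvd.mul_right (Nat.dvd_of_mem_primeFactors hq) _, by positivity⟩) h3
    rw [padicValNat.mul hm.ne' (by positivity), padicValNat.pow] at h4
    exact (Nat.even_add.mp h4).mpr (even_two_mul _)
  obtain ⟨a, b, rfl, hb⟩ := Nat.eq_sq_add_sq_iff_eq_sq_mul.mp h1
  have ha0 : 0 < a := Nat.pos_of_ne_zero (by rintro rfl; simp at hm)
  have hb0 : 0 < b := Nat.pos_of_mul_pos_left hm
  refine mult (by positivity) (frameB2 a ha0) (frameB1 b hb0 fun p hp hpb => ?_)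
  exact Nat.mod_four_ne_three_of_mem_primeFactors_of_isSquare_neg_one
    (Nat.mem_primeFactors.mpr ⟨hp, hpb, hb0.ne'⟩) hb

theorem frame_self (n : ℕ) (he : Even n) (h2 : 2 ≤ n)
    (h : ∃ x y z : ℤ, ¬ (x = 0 ∧ y = 0 ∧ z = 0) ∧
        x ^ 2 = (n : ℤ) * y ^ 2 + (-1 : ℤ) ^ ((n ^ 2 + n) / 2) * z ^ 2) : Frame n n := by
  obtain ⟨m, rfl⟩ := he.two_dvd
  rcases Nat.even_or_odd' m with ⟨k, rfl | rfl⟩
  · have := step frame_four (frameA k (by omega))
    rwa [show 4 * k = 2 * (2 * k) by ring] at this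
  · obtain ⟨x, y, z, h0, h⟩ := h
    have h3 : ((2 * (2 * k + 1)) ^ 2 + 2 * (2 * k + 1)) / 2 = 2 * (4 * k ^ 2 + 5 * k + 1) + 1 := by
      rw [show (2 * (2 * k + 1)) ^ 2 + 2 * (2 * k + 1) = 2 * (2 * (4 * k ^ 2 + 5 * k + 1) + 1) by
        ring]
      omega
    rw [h3, Odd.neg_one_pow ⟨_, rfl⟩] at h
    have hy : y ≠ 0 := by
      rintro rfl
      apply h0
      have hx : x = 0 := by nlinarith [sq_nonneg x, sq_nonneg z]
      have hz : z = 0 := by nlinarith [sq_nonneg x, sq_nonneg z]
      exact ⟨hx, rfl, hz⟩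
    refine step frame_two (frameB (2 * k + 1) (2 * y).natAbs (x + z).natAbs (x - z).natAbs
      (by omega) (by omega) ?_)
    zify
    simp only [sq_abs]
    push_cast at h
    nlinarith

theorem result :
    ∀ n : ℕ, Even n → 2 ≤ n →
      (∃ x y z : ℤ, ¬ (x = 0 ∧ y = 0 ∧ z = 0) ∧
        x ^ 2 = (n : ℤ) * y ^ 2 + (-1 : ℤ) ^ ((n ^ 2 + n) / 2) * z ^ 2) →
      ∃ A : Matrix (Fin (n ^ 2 + n + 1)) (Fin (n ^ 2 + n + 1)) ℤ,
        (∀ j, 0 ≤ ∑ i, A i j) ∧
        A * A.transpose =
          (n : ℤ) • (1 : Matrix (Fin (n ^ 2 + n + 1)) (Fin (n ^ 2 + n + 1)) ℤ)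
            + Matrix.of (fun (_ : Fin (n ^ 2 + n + 1)) (_ : Fin (n ^ 2 + n + 1)) => (1 : ℤ)) ∧
        ∃ j₀ : Fin (n ^ 2 + n + 1), ∃ S : Finset (Fin (n ^ 2 + n + 1)),
          j₀ ∉ S ∧ S.card = n + 1 ∧
          (∀ i, A i j₀ = 0 ∨ A i j₀ = 1) ∧
          (Finset.univ.filter (fun i => A i j₀ = 0)).card = 1 ∧
          (∀ j ∈ S, (∀ i, A i j = 0 ∨ A i j = 1) ∧
            (Finset.univ.filter (fun i => A i j = 1)).card = n + 1) ∧
          (∀ j, j ≠ j₀ → j ∉ S → ∑ i, A i j = 0) := by
  intro n he h2 h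
  obtain ⟨W, hW, r, hr⟩ := frame_self n he h2 h
  have hone : ∀ j, W r j = 1 := by
    have := supp_card W hW r hr
    have h3 := (card_eq_iff_eq_univ _).mp (this.trans (Fintype.card_fin n).symm)
    intro j
    have h4 : j ∈ univ.filter (fun j => W r j = 1) := by rw [h3]; exact mem_univ j
    exact (mem_filter.mp h4).2
  have hW' : Wᵀ * W = (n : ℤ) • (1 : Matrix (Fin n) (Fin n) ℤ) := by
    have hdet : W.det ≠ 0 := by
      intro h0
      have := congrArg det hW
      rw [det_mul, h0, zero_mul, det_smul, det_one, mul_one] at this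
      exact absurd this.symm (by positivity)
    refine (isRegular_of_isLeftRegular_det (IsRegular.of_ne_zero hdet).left).left ?_
    show W * (Wᵀ * W) = W * _
    rw [← Matrix.mul_assoc, hW, Matrix.smul_mul, Matrix.mul_smul, Matrix.one_mul, Matrix.mul_one]
  have hrow : ∀ j, j ≠ r → ∑ i, W j i = 0 := by
    intro j hj
    have := congrFun (congrFun hW j) r
    simpa [mul_apply, hone, one_apply_ne hj] using this
  let B : Matrix (Option (Fin (n + 1) × Fin n)) (Option (Fin (n + 1) × Fin n)) ℤ := fun i j =>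
    match i, j with
    | none, none => 0
    | none, some q => if q.2 = r then 1 else 0
    | some _, none => 1
    | some p, some q => if p.1 = q.1 then W q.2 p.2 else 0
  let e : Fin (n ^ 2 + n + 1) ≃ Option (Fin (n + 1) × Fin n) :=
    (Fintype.equivFinOfCardEq (by simp; ring)).symm
  have hsum : ∀ j, ∑ i, B.submatrix e e i j = ∑ i, B i (e j) := fun j =>
    Equiv.sum_comp e (fun i => B i (e j))
  have hcard : ∀ (j) (c : ℤ), (univ.filter (fun i => B.submatrix e e i j = c)).card =
      (univ.filter (fun i => B i (e j) = c)).card := fun j c =>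
    card_equiv e (by simp)
  have hs2 : ∀ g j, j ≠ r → ∑ i, B i (some (g, j)) = 0 := by
    intro g j hj
    simp [B, Fintype.sum_option, Fintype.sum_prod_type, hj, sum_comm (γ := Fin (n + 1)), hrow j hj]
  have hs1 : ∀ g i, B i (some (g, r)) = 0 ∨ B i (some (g, r)) = 1 := by
    rintro g (_ | i)
    · simp [B]
    · simp only [B, hone]
      split_ifs <;> simp
  refine ⟨B.submatrix e e, ?_, ?_, e.symm none, univ.image (fun g => e.symm (some (g, r))), ?_, ?_,
    ?_, ?_, ?_, ?_⟩
  · intro j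
    rw [hsum]
    rcases e j with _ | ⟨g, j⟩
    · refine sum_nonneg ?_
      rintro (_ | i) _ <;> simp [B]
    · by_cases hj : j = r
      · subst hj
        refine sum_nonneg fun i _ => ?_
        rcases hs1 g i with h | h <;> simp [h]
      · rw [hs2 g j hj]
  · rw [transpose_submatrix, submatrix_mul_equiv]
    ext i j
    simp only [submatrix_apply, Matrix.add_apply, Matrix.smul_apply, of_apply, smul_eq_mul, one_apply,
      ← e.injective.eq_iff, mul_apply, transpose_apply, Fintype.sum_option, Fintype.sum_prod_type]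
    rcases e i with _ | ⟨g, i⟩ <;> rcases e j with _ | ⟨g', j⟩
    · simp [B]
    · simp [B, hone]
    · simp [B, hone]
    · have := congrFun (congrFun hW' i) j
      simp only [mul_apply, transpose_apply, Matrix.smul_apply, smul_eq_mul, one_apply] at this
      by_cases hg : g = g'
      · subst hg
        simp only [B, mul_one, ite_mul, zero_mul, sum_comm (γ := Fin (n + 1))]
        simp [this, add_comm]
      · have h5 : ∀ x : Fin (n + 1), ∀ a b : ℤ,
            (if g = x then a else 0) * (if g' = x then b else 0) = 0 := by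
          intro x a b
          split_ifs with h6 h7
          · exact absurd (h6.trans h7.symm) hg
          all_goals simp
        simp [B, h5, hg]
  · simp
  · rw [card_image_of_injective]
    · simp
    · intro g g' h
      simpa using h
  · intro i
    simp only [submatrix_apply, Equiv.apply_symm_apply]
    rcases e i with _ | i <;> simp [B]
  · rw [hcard, Equiv.apply_symm_apply, card_eq_one]
    refine ⟨none, ?_⟩
    ext (_ | i) <;> simp [B]
  · intro j hj
    obtain ⟨g, -, rfl⟩ := mem_image.mp hj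
    refine ⟨fun i => by simpa using hs1 g (e i), ?_⟩
    rw [hcard, Equiv.apply_symm_apply]
    have : (univ.filter (fun i => B i (some (g, r)) = 1)) =
        insertNone ((univ : Finset (Fin n)).map ⟨fun i => (g, i), fun a b h => by simpa using h⟩) := by
      ext (_ | ⟨g', i⟩)
      · simp [B]
      · simp [B, hone, eq_comm]
    rw [this]
    simp
  · intro j hj hS
    rw [hsum]
    rcases hej : e j with _ | ⟨g, k⟩
    · exact absurd (by rw [← hej]; simp) hj
    · refine hs2 g k ?_
      rintro rfl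
      exact hS (mem_image.mpr ⟨g, mem_univ _, by rw [← hej]; simp⟩)

end Pool.Agent.S07321
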