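import Pool.Statements.S07324

set_option autoImplicit false
open Pool Pool.MP_15691b_co

namespace Pool.Agent.S07324

/-- vertices: a centre and 15 copies of the theta graph with paths of lengths 2,2,3,3. -/
abbrev VV := Option (Fin 15 × Fin 8)

def T (k l : Fin 8) : Bool :=
  (k = 0 && (l = 2 || l = 3 || l = 4 || l = 6)) || (l = 1 && (k = 2 || k = 3 || k = 5 || k = 7)) ||
    (k = 4 && l = 5) || (k = 6 && l = 7)

def gadj : VV → VV → Bool
  | none, none => false
  | none, some p => decide (2 ≤ p.2.val)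
  | some p, none => decide (2 ≤ p.2.val)
  | some p, some q => decide (p.1 = q.1) && (T p.2 q.2 || T q.2 p.2)

theorem T_irr : ∀ k, T k k = false := by decide

def G : SimpleGraph VV where
  Adj x y := gadj x y = true
  symm := ⟨by
    intro x y h
    cases x <;> cases y <;> simp_all [gadj]
    tauto⟩
  loopless := ⟨by
    intro x h
    cases x <;> simp_all [gadj, T_irr]⟩

def P : Fin 6 → Fin 3 → Fin 3 :=
  ![![0, 1, 2], ![0, 2, 1], ![1, 0, 2], ![1, 2, 0], ![2, 0, 1], ![2, 1, 0]]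

theorem ext_perm : ∀ R : Fin 3 → Fin 3 → Bool,
    (∀ i j k, R i j = true → R i k = true → j = k) →
    (∀ i j k, R i k = true → R j k = true → i = j) →
    ∃ s : Fin 6, ∀ i j, R i j = true → j = P s i := by
  decide +kernel

def bad2 (z : Fin 3) (s1 s2 : Fin 6) : Finset (Fin 3 × Fin 3) :=
  Finset.univ.filter (fun p => ∀ k, k = z ∨ k = P s1 p.1 ∨ p.2 = P s2 k)

def bad3 (z w : Fin 3) (s1 s2 s3 : Fin 6) : Finset (Fin 3 × Fin 3) :=
  Finset.univ.filter (fun p => ∀ k l, k = z ∨ l = w ∨ k = P s1 p.1 ∨ l = P s2 k ∨ p.2 = P s3 l)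

theorem bad2_card : ∀ z s1 s2, (bad2 z s1 s2).card ≤ 2 := by decide +kernel

theorem bad3_card : ∀ z w s1 s2 s3, (bad3 z w s1 s2 s3).card ≤ 2 := by decide +kernel

theorem core (z2 z3 z4 z5 z6 z7 : Fin 3) (s02 s21 s03 s31 s04 s45 s51 s06 s67 s71 : Fin 6) :
    ∃ i j a b c d e f : Fin 3,
      (a ≠ z2 ∧ a ≠ P s02 i ∧ j ≠ P s21 a) ∧ (b ≠ z3 ∧ b ≠ P s03 i ∧ j ≠ P s31 b) ∧
      (c ≠ z4 ∧ d ≠ z5 ∧ c ≠ P s04 i ∧ d ≠ P s45 c ∧ j ≠ P s51 d) ∧
      (e ≠ z6 ∧ f ≠ z7 ∧ e ≠ P s06 i ∧ f ≠ P s67 e ∧ j ≠ P s71 f) := by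
  have h1 := bad2_card z2 s02 s21
  have h2 := bad2_card z3 s03 s31
  have h3 := bad3_card z4 z5 s04 s45 s51
  have h4 := bad3_card z6 z7 s06 s67 s71
  have hc : (bad2 z2 s02 s21 ∪ bad2 z3 s03 s31 ∪ bad3 z4 z5 s04 s45 s51 ∪
      bad3 z6 z7 s06 s67 s71).card < (Finset.univ : Finset (Fin 3 × Fin 3)).card := by
    have a1 := Finset.card_union_le (bad2 z2 s02 s21 ∪ bad2 z3 s03 s31 ∪ bad3 z4 z5 s04 s45 s51)
      (bad3 z6 z7 s06 s67 s71)
    have a2 := Finset.card_union_le (bad2 z2 s02 s21 ∪ bad2 z3 s03 s31) (bad3 z4 z5 s04 s45 s51)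
    have a3 := Finset.card_union_le (bad2 z2 s02 s21) (bad2 z3 s03 s31)
    have : (Finset.univ : Finset (Fin 3 × Fin 3)).card = 9 := by simp
    omega
  obtain ⟨p, -, hp⟩ := Finset.exists_mem_notMem_of_card_lt_card hc
  simp only [Finset.mem_union, not_or, bad2, bad3, Finset.mem_filter, Finset.mem_univ, true_and,
    not_forall] at hp
  obtain ⟨⟨⟨⟨a, ha⟩, ⟨b, hb⟩⟩, ⟨c, d, hcd⟩⟩, ⟨e, f, hef⟩⟩ := hp
  exact ⟨p.1, p.2, a, b, c, d, e, f, ha, hb, hcd, hef⟩

theorem permOf (H : SimpleGraph (VV × Fin 3))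
    (h2 : ∀ (x : VV × Fin 3) (v : VV) (j k : Fin 3), H.Adj x (v, j) → H.Adj x (v, k) → j = k)
    (a b : VV) : ∃ s : Fin 6, ∀ i j, H.Adj (a, i) (b, j) → j = P s i := by
  classical
  obtain ⟨s, hs⟩ := ext_perm (fun i j => decide (H.Adj (a, i) (b, j)))
    (by
      intro i j k h h'
      exact h2 _ _ _ _ (of_decide_eq_true h) (of_decide_eq_true h'))
    (by
      intro i j k h h'
      exact h2 _ _ _ _ (of_decide_eq_true h).symm (of_decide_eq_true h').symm)
  exact ⟨s, fun i j h => hs i j (decide_eq_true h)⟩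

theorem copyOK (H : SimpleGraph (VV × Fin 3))
    (h2 : ∀ (x : VV × Fin 3) (v : VV) (j k : Fin 3), H.Adj x (v, j) → H.Adj x (v, k) → j = k)
    (n : Fin 15) : ∃ g : Fin 8 → Fin 3,
      (∀ k : Fin 8, 2 ≤ k.val → ¬ H.Adj (none, 0) (some (n, k), g k)) ∧
      (∀ k l, T k l = true → ¬ H.Adj (some (n, k), g k) (some (n, l), g l)) := by
  choose s hs using permOf H h2
  obtain ⟨i, j, a, b, c, d, e, f, ⟨a1, a2, a3⟩, ⟨b1, b2, b3⟩, ⟨c1, c2, c3, c4, c5⟩,
      ⟨e1, e2, e3, e4, e5⟩⟩ :=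
    core (P (s none (some (n, 2))) 0) (P (s none (some (n, 3))) 0) (P (s none (some (n, 4))) 0)
      (P (s none (some (n, 5))) 0) (P (s none (some (n, 6))) 0) (P (s none (some (n, 7))) 0)
      (s (some (n, 0)) (some (n, 2))) (s (some (n, 2)) (some (n, 1)))
      (s (some (n, 0)) (some (n, 3))) (s (some (n, 3)) (some (n, 1)))
      (s (some (n, 0)) (some (n, 4))) (s (some (n, 4)) (some (n, 5)))
      (s (some (n, 5)) (some (n, 1))) (s (some (n, 0)) (some (n, 6)))
      (s (some (n, 6)) (some (n, 7))) (s (some (n, 7)) (some (n, 1)))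
  refine ⟨![i, j, a, b, c, d, e, f], ?_, ?_⟩
  · intro k hk h
    have := hs _ _ _ _ h
    fin_cases k
    · exact absurd hk (by decide)
    · exact absurd hk (by decide)
    · exact a1 this
    · exact b1 this
    · exact c1 this
    · exact c2 this
    · exact e1 this
    · exact e2 this
  · intro k l hT h
    have := hs _ _ _ _ h
    fin_cases k <;> fin_cases l <;>
      first
        | exact absurd hT (by decide)
        | exact a2 this
        | exact a3 this
        | exact b2 this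
        | exact b3 this
        | exact c3 this
        | exact c4 this
        | exact c5 this
        | exact e3 this
        | exact e4 this
        | exact e5 this

theorem partA (H : SimpleGraph (VV × Fin 3))
    (h1 : ∀ x y : VV × Fin 3, H.Adj x y → G.Adj x.1 y.1)
    (h2 : ∀ (x : VV × Fin 3) (v : VV) (j k : Fin 3), H.Adj x (v, j) → H.Adj x (v, k) → j = k) :
    ∃ f : VV → Finset (Fin 3), (∀ v, (f v).card = 1) ∧
      ∀ (u v : VV), ∀ i ∈ f u, ∀ j ∈ f v, ¬ H.Adj (u, i) (v, j) := by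
  choose g hg1 hg2 using copyOK H h2
  refine ⟨fun v => {match v with | none => 0 | some p => g p.1 p.2}, fun v => by simp, ?_⟩
  intro u v i hi j hj h
  have hG := h1 _ _ h
  rw [Finset.mem_singleton] at hi hj
  subst hi hj
  rcases u with _ | ⟨n, k⟩ <;> rcases v with _ | ⟨m, l⟩
  · exact absurd hG (by simp [G, gadj])
  · exact hg1 m l (by simpa [G, gadj] using hG) h
  · exact hg1 n k (by simpa [G, gadj] using hG) h.symm
  · simp only [G, gadj, Bool.and_eq_true, decide_eq_true_eq, Bool.or_eq_true] at hG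
    obtain ⟨rfl, hT | hT⟩ := hG
    · exact hg2 n k l hT h
    · exact hg2 n l k hT h.symm

def p1 : Fin 15 → Fin 6 := ![0, 0, 0, 0, 0, 1, 1, 1, 1, 2, 2, 2, 3, 3, 4]
def p2 : Fin 15 → Fin 6 := ![1, 2, 3, 4, 5, 2, 3, 4, 5, 3, 4, 5, 4, 5, 5]

theorem pair_ex : ∀ s : Finset (Fin 6), s.card = 2 → ∃ c : Fin 15, p1 c ∈ s ∧ p2 c ∈ s := by
  decide +kernel

def zadj (c : Fin 15) (k : Fin 8) (i j : Fin 6) : Bool :=
  decide (2 ≤ k.val) && ((i = p1 c && j = 4) || (i = p2 c && j = 5))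

def A2 : Fin 6 → Fin 6 := ![0, 4, 1, 5, 3, 2]
def B2 : Fin 6 → Fin 6 := ![2, 4, 0, 5, 1, 3]
def A3 : Fin 6 → Fin 6 := ![5, 0, 2, 1, 3, 4]
def B3 : Fin 6 → Fin 6 := ![4, 1, 5, 0, 3, 2]
def A4 : Fin 6 → Fin 6 := ![0, 2, 4, 1, 5, 3]
def B5 : Fin 6 → Fin 6 := ![3, 1, 0, 2, 5, 4]
def A6 : Fin 6 → Fin 6 := ![2, 0, 1, 4, 5, 3]
def B7 : Fin 6 → Fin 6 := ![2, 5, 0, 3, 1, 4]

def loc (k : Fin 8) (i : Fin 6) (l : Fin 8) (j : Fin 6) : Bool :=
  (k = 0 && ((l = 2 && A2 i = j) || (l = 3 && A3 i = j) || (l = 4 && A4 i = j) ||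
    (l = 6 && A6 i = j))) ||
  (k = 1 && ((l = 2 && B2 i = j) || (l = 3 && B3 i = j) || (l = 5 && B5 i = j) ||
    (l = 7 && B7 i = j))) ||
  (k = 4 && l = 5 && i = j) || (k = 6 && l = 7 && i = j)

def hadj : VV → Fin 6 → VV → Fin 6 → Bool
  | none, _, none, _ => false
  | none, i, some p, j => zadj p.1 p.2 i j
  | some p, j, none, i => zadj p.1 p.2 i j
  | some p, i, some q, j => decide (p.1 = q.1) && (loc p.2 i q.2 j || loc q.2 j p.2 i)

theorem loc_irr : ∀ k i j, loc k i k j = false := by decide +kernel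

def HH : SimpleGraph (VV × Fin 6) where
  Adj x y := hadj x.1 x.2 y.1 y.2 = true
  symm := ⟨by
    rintro ⟨x, i⟩ ⟨y, j⟩ h
    cases x <;> cases y <;> simp_all [hadj]
    tauto⟩
  loopless := ⟨by
    rintro ⟨x, i⟩ h
    cases x <;> simp_all [hadj, loc_irr]⟩

theorem loc_T : ∀ k i l j, (loc k i l j || loc l j k i) = true → (T k l || T l k) = true := by
  decide +kernel

theorem loc_fun : ∀ k i l j j', (loc k i l j || loc l j k i) = true →
    (loc k i l j' || loc l j' k i) = true → j = j' := by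
  decide +kernel

theorem z_fun1 : ∀ c k i j j', zadj c k i j = true → zadj c k i j' = true → j = j' := by
  decide +kernel

theorem z_fun2 : ∀ c k i i' j, zadj c k i j = true → zadj c k i' j = true → i = i' := by
  decide +kernel

theorem HH1 (x y : VV × Fin 6) (h : HH.Adj x y) : G.Adj x.1 y.1 := by
  obtain ⟨x, i⟩ := x
  obtain ⟨y, j⟩ := y
  rcases x with _ | ⟨n, k⟩ <;> rcases y with _ | ⟨m, l⟩
  · exact absurd h (by simp [HH, hadj])
  · simp only [HH, hadj, zadj, Bool.and_eq_true] at h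
    exact h.1
  · simp only [HH, hadj, zadj, Bool.and_eq_true] at h
    exact h.1
  · simp only [HH, hadj, Bool.and_eq_true] at h
    show (decide (n = m) && (T k l || T l k)) = true
    rw [Bool.and_eq_true]
    exact ⟨h.1, loc_T _ _ _ _ h.2⟩

theorem HH2 (x : VV × Fin 6) (v : VV) (j j' : Fin 6) (h : HH.Adj x (v, j))
    (h' : HH.Adj x (v, j')) : j = j' := by
  obtain ⟨x, i⟩ := x
  rcases x with _ | ⟨n, k⟩ <;> rcases v with _ | ⟨m, l⟩
  · exact absurd h (by simp [HH, hadj])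
  · exact z_fun1 _ _ _ _ _ h h'
  · exact z_fun2 _ _ _ _ _ h h'
  · simp only [HH, hadj, Bool.and_eq_true] at h h'
    exact loc_fun _ _ _ _ _ h.2 h'.2

/-- the pair `c` avoids the two colours removed by the centre -/
def low (c : Fin 15) : Bool := p1 c != 4 && p1 c != 5 && p2 c != 4 && p2 c != 5

/-- pairs `c` at `k` and `d` at `l` are compatible -/
def cmp (k : Fin 8) (c : Fin 15) (l : Fin 8) (d : Fin 15) : Bool :=
  !loc k (p1 c) l (p1 d) && !loc k (p1 c) l (p2 d) && !loc k (p2 c) l (p1 d) &&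
    !loc k (p2 c) l (p2 d)

set_option synthInstance.maxSize 100000 in
theorem blocked : ∀ a b : Fin 15,
    (∀ x, low x = true → cmp 0 a 2 x = true → cmp 1 b 2 x = false) ∨
    (∀ x, low x = true → cmp 0 a 3 x = true → cmp 1 b 3 x = false) ∨
    (∀ x, low x = true → cmp 0 a 4 x = true → ∀ y, low y = true → cmp 4 x 5 y = true →
      cmp 1 b 5 y = false) ∨
    (∀ x, low x = true → cmp 0 a 6 x = true → ∀ y, low y = true → cmp 6 x 7 y = true →
      cmp 1 b 7 y = false) := by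
  decide +kernel

theorem partB : ¬ ∃ f : VV → Finset (Fin 6), (∀ v, (f v).card = 2) ∧
      ∀ (u v : VV), ∀ i ∈ f u, ∀ j ∈ f v, ¬ HH.Adj (u, i) (v, j) := by
  rintro ⟨f, hc, hf⟩
  choose q hq1 hq2 using fun v => pair_ex (f v) (hc v)
  have hlow : ∀ k : Fin 8, 2 ≤ k.val → low (q (some (q none, k))) = true := by
    intro k hk
    have e1 := hf none (some (q none, k)) _ (hq1 none) _ (hq1 (some (q none, k)))
    have e2 := hf none (some (q none, k)) _ (hq1 none) _ (hq2 (some (q none, k)))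
    have e3 := hf none (some (q none, k)) _ (hq2 none) _ (hq1 (some (q none, k)))
    have e4 := hf none (some (q none, k)) _ (hq2 none) _ (hq2 (some (q none, k)))
    simp only [HH, hadj, zadj, hk, decide_true, Bool.true_and, Bool.or_eq_true,
      Bool.and_eq_true, decide_eq_true_eq, not_or] at e1 e2 e3 e4
    simp only [low, Bool.and_eq_true, bne_iff_ne, ne_eq]
    exact ⟨⟨⟨e1.1, e3.2⟩, e2.1⟩, e4.2⟩
  have hcmp : ∀ k l : Fin 8, cmp k (q (some (q none, k))) l (q (some (q none, l))) = true := by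
    intro k l
    have e1 := hf (some (q none, k)) (some (q none, l)) _ (hq1 _) _ (hq1 _)
    have e2 := hf (some (q none, k)) (some (q none, l)) _ (hq1 _) _ (hq2 _)
    have e3 := hf (some (q none, k)) (some (q none, l)) _ (hq2 _) _ (hq1 _)
    have e4 := hf (some (q none, k)) (some (q none, l)) _ (hq2 _) _ (hq2 _)
    simp only [HH, hadj, decide_true, Bool.true_and, Bool.or_eq_true, not_or,
      Bool.not_eq_true] at e1 e2 e3 e4
    simp only [cmp, e1.1, e2.1, e3.1, e4.1, Bool.not_false, Bool.and_self]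
  rcases blocked (q (some (q none, 0))) (q (some (q none, 1))) with h | h | h | h
  · have := h _ (hlow 2 (by decide)) (hcmp 0 2)
    rw [hcmp 1 2] at this
    exact absurd this (by decide)
  · have := h _ (hlow 3 (by decide)) (hcmp 0 3)
    rw [hcmp 1 3] at this
    exact absurd this (by decide)
  · have := h _ (hlow 4 (by decide)) (hcmp 0 4) _ (hlow 5 (by decide)) (hcmp 4 5)
    rw [hcmp 1 5] at this
    exact absurd this (by decide)
  · have := h _ (hlow 6 (by decide)) (hcmp 0 6) _ (hlow 7 (by decide)) (hcmp 6 7)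
    rw [hcmp 1 7] at this
    exact absurd this (by decide)

/-- The negation of the preceding statement: For every finite graph G and all a, b and t ≥ 1: if every a-fold DP cover of G has an independent transversal picking b vertices per fibre, then every at-fold DP cover has one picking bt vertices per fibre. -/
theorem result :
    ¬ (∀ (V : Type) [Fintype V] (G : SimpleGraph V) (a b t : ℕ), 1 ≤ t →
      (∀ H : SimpleGraph (V × Fin a),
          (∀ x y : V × Fin a, H.Adj x y → G.Adj x.1 y.1) →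
          (∀ (x : V × Fin a) (v : V) (j k : Fin a), H.Adj x (v, j) → H.Adj x (v, k) → j = k) →
          ∃ f : V → Finset (Fin a), (∀ v, (f v).card = b) ∧
            ∀ (u v : V), ∀ i ∈ f u, ∀ j ∈ f v, ¬ H.Adj (u, i) (v, j)) →
      (∀ H : SimpleGraph (V × Fin (a * t)),
          (∀ x y : V × Fin (a * t), H.Adj x y → G.Adj x.1 y.1) →
          (∀ (x : V × Fin (a * t)) (v : V) (j k : Fin (a * t)), H.Adj x (v, j) → H.Adj x (v, k) → j = k) →
          ∃ f : V → Finset (Fin (a * t)), (∀ v, (f v).card = b * t) ∧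
            ∀ (u v : V), ∀ i ∈ f u, ∀ j ∈ f v, ¬ H.Adj (u, i) (v, j))) := by
  intro h
  exact partB (h VV G 3 1 2 (by decide) partA HH HH1 HH2)

end Pool.Agent.S07324
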