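import Pool.Statements.S07325
import Pool.Agent.Lib.helper19.Free3

set_option autoImplicit false
open Pool Pool.MP_15d78c_co

namespace Pool.Agent.S07325

section Aux

open Finset Filter Pool.Agent.H19Free

/-- decomposition of a given shape on a set of points -/
def Dec {ι : Type} [Fintype ι] [DecidableEq ι] {K : Type} [Field K] {Q : ι → Type}
    (T : (∀ α, Q α) → K) (Z : Set (∀ α, Q α)) {k : ℕ}
    (P : Fin k → Finpartition (univ : Finset ι)) : Prop :=
  ∃ a : Fin k → Finset ι → (∀ α, Q α) → K, (∀ i I, DependsOn (a i I) (I : Set ι)) ∧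
    ∀ z ∈ Z, T z = ∑ i, ∏ I ∈ (P i).parts, a i I z

/-- index set: a level together with a small box -/
abbrev Lam {ι : Type} (Q : ℕ → ι → Type) : Type :=
  Σ N, {X : ∀ α, Finset (Q N α) // ∀ α, (X α).card ≤ N}

theorem core {ι : Type} [Fintype ι] [DecidableEq ι] (F : ℕ → Type) [∀ N, Field (F N)]
    (Q : ℕ → ι → Type) [∀ N α, Nonempty (Q N α)] (T : ∀ N, (∀ α, Q N α) → F N)
    {τ : Type} [Finite τ] (k : τ → ℕ) (P : ∀ t, Fin (k t) → Finpartition (univ : Finset ι))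
    (h : ∀ N (X : ∀ α, Finset (Q N α)), (∀ α, (X α).card ≤ N) →
      ∃ t, Dec (T N) {z | ∀ α, z α ∈ X α} (P t)) :
    ∃ N t, Dec (T N) Set.univ (P t) := by
  classical
  obtain ⟨W, hW⟩ := Ultrafilter.exists_ultrafilter_of_finite_inter_nonempty
    (α := Lam Q)
    (Set.range fun x : ∀ α, ∀ N, Q N α => {l | ∀ α, x α l.1 ∈ l.2.1 α}) (by
      intro S hS
      choose x hx using fun A : S => hS A.2
      refine ⟨⟨S.card, fun α => univ.image fun A : S => x A α S.card, fun α => ?_⟩, ?_⟩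
      · exact card_image_le.trans (by simp)
      · intro A hA
        have := hx ⟨A, hA⟩
        simp only at this
        rw [← this]
        intro α
        exact mem_image_of_mem _ (mem_univ _))
  have hW' : ∀ x : ∀ α, ∀ N, Q N α, ∀ᶠ l in (W : Filter (Lam Q)), ∀ α, x α l.1 ∈ l.2.1 α :=
    fun x => hW ⟨x, rfl⟩
  obtain ⟨K, _, mk, hmk1, hmk2⟩ := exists_ultraproduct (fun l => F l.1) W
  let pull : (∀ N, F N) →+* (∀ l : Lam Q, F l.1) :=
    { toFun := fun c l => c l.1, map_one' := rfl, map_mul' := fun _ _ => rfl,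
      map_zero' := rfl, map_add' := fun _ _ => rfl }
  obtain ⟨j, hjd⟩ : ∃ j : (∀ N, F N) →+* K, ∀ c, j c = mk fun l => c l.1 :=
    ⟨mk.comp pull, fun _ => rfl⟩
  obtain ⟨U, hU⟩ : ∃ U : Ultrafilter ℕ, ∀ p : ℕ → Prop,
      (∀ᶠ N in (U : Filter ℕ), p N) ↔ ∀ᶠ l in (W : Filter (Lam Q)), p l.1 :=
    ⟨W.map Sigma.fst, fun _ => Iff.rfl⟩
  have hj : ∀ c, j c = 0 ↔ ∀ᶠ N in (U : Filter ℕ), c N = 0 := fun c => by rw [hjd, hmk2, hU]
  obtain ⟨t, ht⟩ := Ultrafilter.eventually_exists_iff.1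
    (Eventually.of_forall (f := (W : Filter (Lam Q))) fun l => h l.1 l.2.1 l.2.2)
  have hch : ∀ l : Lam Q,
      ∃ a : Fin (k t) → Finset ι → (∀ α, Q l.1 α) → F l.1,
      (∀ i I, DependsOn (a i I) (I : Set ι)) ∧ (Dec (T l.1) {z | ∀ α, z α ∈ l.2.1 α} (P t) →
      ∀ z, (∀ α, z α ∈ l.2.1 α) → T l.1 z = ∑ i, ∏ I ∈ (P t i).parts, a i I z) := by
    intro l
    by_cases hl : Dec (T l.1) {z | ∀ α, z α ∈ l.2.1 α} (P t)
    · obtain ⟨a, h1, h2⟩ := hl
      exact ⟨a, h1, fun _ => h2⟩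
    · exact ⟨0, fun _ _ _ _ _ => rfl, fun h => absurd h hl⟩
  choose a ha1 ha2 using hch
  obtain ⟨e, he⟩ : ∃ e : Fin (k t) → Finset ι → (∀ α, ∀ N, Q N α) → K,
    ∀ i I x, e i I x = mk fun l => a l i I fun α => x α l.1 := ⟨_, fun _ _ _ => rfl⟩
  have hTe : intH Q j T = ∑ i, ∏ I ∈ (P t i).parts, e i I := by
    funext x
    simp only [Finset.sum_apply, Finset.prod_apply, he]
    rw [intH_apply, hjd]
    simp_rw [← map_prod mk]
    rw [← map_sum mk, ← sub_eq_zero, ← map_sub, hmk2]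
    refine (ht.and (hW' x)).mono fun l hl => ?_
    have := ha2 l hl.1 _ hl.2
    simp [this]
  obtain ⟨a', ha'1, ha'2⟩ := transfer (BB Q j) BB_le BB_one (fun I J u v _ => BB_mul I J u v)
    BB_DD (BB_locGlob hj) (P t) e (by
      intro i I x y hxy
      rw [he, he]
      congr 1
      funext l
      exact ha1 l i I fun α hα => by rw [hxy α hα])
    (hTe ▸ Submodule.subset_span ⟨T, fun N => by simpa using dependsOn_univ (T N), rfl⟩)
  rw [← hTe] at ha'2
  choose n c g hg using fun iI : Fin (k t) × Finset ι => Submodule.mem_span_set'.1 (ha'1 iI.1 iI.2)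
  choose φ hφ1 hφ2 using fun iI m => (g iI m).2
  obtain ⟨p, hp⟩ : ∃ p : (∀ α, ∀ N, Q N α) → MvPolynomial (Σ iI, Fin (n iI)) (sub hj),
      ∀ x (κ : (Σ iI, Fin (n iI)) → K), MvPolynomial.aeval κ (p x) = intH Q j T x -
        ∑ i, ∏ I ∈ (P t i).parts, ∑ m, κ ⟨(i, I), m⟩ * intH Q j (φ (i, I) m) x := by
    refine ⟨fun x => MvPolynomial.C ⟨intH Q j T x, _, rfl⟩ - ∑ i, ∏ I ∈ (P t i).parts,
      ∑ m, MvPolynomial.X ⟨(i, I), m⟩ * MvPolynomial.C ⟨intH Q j (φ (i, I) m) x, _, rfl⟩,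
      fun x κ => ?_⟩
    simp only [map_sub, map_sum, map_prod, map_mul, MvPolynomial.aeval_X, MvPolynomial.aeval_C]
    rfl
  obtain ⟨s, hs1, hs2⟩ := (Submodule.fg_span_iff_fg_span_finset_subset
    (R := MvPolynomial (Σ iI, Fin (n iI)) (sub hj)) (Set.range p)).1
    (IsNoetherian.noetherian _)
  choose xs hxs using fun q : s => hs1 q.2
  choose c' hc' using fun im : Σ iI, Fin (n iI) => hmk1 (c im.1 im.2)
  obtain ⟨Eq', hEq⟩ : ∃ Eq' : ∀ N, ((Σ iI, Fin (n iI)) → F N) → (∀ α, Q N α) → Prop,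
    ∀ N b z, Eq' N b z ↔ T N z = ∑ i, ∏ I ∈ (P t i).parts, ∑ m, b ⟨(i, I), m⟩ * φ (i, I) m N z :=
    ⟨_, fun _ _ _ => Iff.rfl⟩
  have hlos : ∀ (b : (Σ iI, Fin (n iI)) → ∀ l : Lam Q, F l.1) x, MvPolynomial.aeval (fun im => mk (b im)) (p x) = 0 ↔
      ∀ᶠ l in (W : Filter (Lam Q)), Eq' l.1 (fun im => b im l) fun α => x α l.1 := by
    intro b x
    rw [hp]
    simp_rw [intH_apply, hjd, ← map_mul mk, ← map_sum mk, ← map_prod mk]
    rw [← map_sum mk, ← map_sub, hmk2]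
    refine eventually_congr (Eventually.of_forall fun l => ?_)
    rw [hEq]
    simp [sub_eq_zero]
  have h1 : ∀ x : ∀ α, ∀ N, Q N α, ∀ᶠ l in (W : Filter (Lam Q)), Eq' l.1 (fun im => c' im l) fun α => x α l.1 := by
    intro x
    rw [← hlos, hp, ha'2, sub_eq_zero]
    simp only [Finset.sum_apply, Finset.prod_apply]
    refine sum_congr rfl fun i _ => prod_congr rfl fun I _ => ?_
    rw [← hg (i, I), Finset.sum_apply]
    refine sum_congr rfl fun m _ => ?_
    rw [hc', hφ2]; rfl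
  have hch2 : ∀ N, ∃ b : (Σ iI, Fin (n iI)) → F N,
      (∃ b', ∀ q : s, Eq' N b' fun α => xs q α N) → ∀ q : s, Eq' N b fun α => xs q α N := by
    intro N
    by_cases hN : ∃ b', ∀ q : s, Eq' N b' fun α => xs q α N
    · obtain ⟨b, hb⟩ := hN
      exact ⟨b, fun _ => hb⟩
    · exact ⟨0, fun h => absurd h hN⟩
  choose b hb using hch2
  have h2 : ∀ q ∈ s, MvPolynomial.aeval (fun im => mk fun l => b l.1 im) q = 0 := by
    intro q hq
    have := hxs ⟨q, hq⟩
    simp only at this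
    rw [← this, hlos (fun im l => b l.1 im)]
    exact (eventually_all.2 fun q : s => h1 (xs q)).mono fun l hl => hb l.1 ⟨_, hl⟩ ⟨q, hq⟩
  have h3 : ∀ x, MvPolynomial.aeval (fun im => mk fun l => b l.1 im) (p x) = 0 := by
    intro x
    have hx : p x ∈ Submodule.span (MvPolynomial (Σ iI, Fin (n iI)) (sub hj)) (Set.range p) :=
      Submodule.subset_span ⟨x, rfl⟩
    rw [hs2] at hx
    have hle : Submodule.span (MvPolynomial (Σ iI, Fin (n iI)) (sub hj)) (s : Set _) ≤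
        RingHom.ker (MvPolynomial.aeval (R := sub hj) (fun im : Σ iI, Fin (n iI) =>
          mk fun l => b l.1 im)) := Submodule.span_le.2 fun q hq => h2 q hq
    exact hle hx
  have h4 : intH Q j (T - fun N z => ∑ i, ∏ I ∈ (P t i).parts,
      ∑ m, b N ⟨(i, I), m⟩ * φ (i, I) m N z) = 0 := by
    funext x
    rw [intH_apply, Pi.zero_apply, hj, hU]
    refine ((hlos (fun im l => b l.1 im) x).1 (h3 x)).mono fun l hl => ?_
    rw [hEq] at hl
    simp [hl]
  obtain ⟨N, hN⟩ := ((los hj _).1 h4).exists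
  refine ⟨N, t, fun i I z => ∑ m, b N ⟨(i, I), m⟩ * φ (i, I) m N z, fun i I z z' hz => ?_,
    fun z _ => ?_⟩
  · exact sum_congr rfl fun m _ => by rw [hφ1 (i, I) m N hz]
  · have := congrFun hN z
    simpa [sub_eq_zero] using this

end Aux


/-- For every d ≥ 2 and non-empty family R of partitions of [d] there is F such that any tensor over any field with R-rank ≥ l has a restriction to a box with sides of size ≤ F(l) that still has R-rank ≥ l. -/
theorem result :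
  ∀ (d : ℕ), 2 ≤ d →
  ∀ (R : Set (Finpartition (Finset.univ : Finset (Fin d)))), R.Nonempty →
  ∃ F : ℕ → ℕ, ∀ (l : ℕ) (K : Type) [Field K] (Q : Fin d → Type)
    [∀ α, Finite (Q α)] [∀ α, Nonempty (Q α)] (T : (∀ α, Q α) → K),
    (∀ k < l, ¬ ∃ S : Fin k → ((∀ α, Q α) → K),
        (∀ i, ∃ P ∈ R, ∃ a : ∀ I : Finset (Fin d), (∀ β : {γ // γ ∈ I}, Q β.1) → K,
            ∀ x : (∀ α, Q α), S i x = ∏ I ∈ P.parts, a I (fun β => x β.1)) ∧
        T = ∑ i, S i) →
    ∃ X : ∀ α, Finset (Q α), (∀ α, (X α).card ≤ F l) ∧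
      ∀ k < l, ¬ ∃ S : Fin k → ((∀ α, {q // q ∈ X α}) → K),
        (∀ i, ∃ P ∈ R, ∃ a : ∀ I : Finset (Fin d), (∀ β : {γ // γ ∈ I}, {q // q ∈ X β.1}) → K,
            ∀ y : (∀ α, {q // q ∈ X α}), S i y = ∏ I ∈ P.parts, a I (fun β => y β.1)) ∧
        (fun y => T (fun α => (y α).1)) = ∑ i, S i := by
  classical
  intro d _ R _
  suffices h : ∀ l : ℕ, ∃ N : ℕ, ∀ (K : Type) [Field K] (Q : Fin d → Type)
    [∀ α, Finite (Q α)] [∀ α, Nonempty (Q α)] (T : (∀ α, Q α) → K),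
    (∀ k < l, ¬ ∃ S : Fin k → ((∀ α, Q α) → K),
        (∀ i, ∃ P ∈ R, ∃ a : ∀ I : Finset (Fin d), (∀ β : {γ // γ ∈ I}, Q β.1) → K,
            ∀ x : (∀ α, Q α), S i x = ∏ I ∈ P.parts, a I (fun β => x β.1)) ∧
        T = ∑ i, S i) →
    ∃ X : ∀ α, Finset (Q α), (∀ α, (X α).card ≤ N) ∧
      ∀ k < l, ¬ ∃ S : Fin k → ((∀ α, {q // q ∈ X α}) → K),
        (∀ i, ∃ P ∈ R, ∃ a : ∀ I : Finset (Fin d), (∀ β : {γ // γ ∈ I}, {q // q ∈ X β.1}) → K,
            ∀ y : (∀ α, {q // q ∈ X α}), S i y = ∏ I ∈ P.parts, a I (fun β => y β.1)) ∧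
        (fun y => T (fun α => (y α).1)) = ∑ i, S i by
    choose F hF using h
    exact ⟨F, hF⟩
  intro l
  by_contra hcon
  push Not at hcon
  choose F hF Q hfin hne T hT hX using hcon
  obtain ⟨N, ⟨k, P⟩, a, ha1, ha2⟩ := core F Q T (τ := Σ k : Fin l, Fin k → R) (fun t => t.1)
    (fun t i => (t.2 i).1) (by
      intro N X hXN
      obtain ⟨k, hk, S, hS1, hS2⟩ := hX N X hXN
      choose P hP a ha using hS1
      refine ⟨⟨⟨k, hk⟩, fun i => ⟨P i, hP i⟩⟩, fun i I z =>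
        if h : ∀ β ∈ I, z β ∈ X β then a i I (fun β => ⟨z β.1, h β.1 β.2⟩) else 0, ?_, ?_⟩
      · intro i I z z' hz
        have e : (∀ β ∈ I, z β ∈ X β) ↔ ∀ β ∈ I, z' β ∈ X β :=
          forall₂_congr fun β hβ => by rw [hz β hβ]
        by_cases h : ∀ β ∈ I, z β ∈ X β
        · simp only [dif_pos h, dif_pos (e.1 h)]
          congr 1
          funext β
          exact Subtype.ext (hz β.1 β.2)
        · simp only [dif_neg h, dif_neg (mt e.2 h)]
      · intro z hz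
        have := congrFun hS2 fun α => ⟨z α, hz α⟩
        simp only [Finset.sum_apply] at this
        refine this.trans (Finset.sum_congr rfl fun i _ => ?_)
        rw [ha]
        refine Finset.prod_congr rfl fun I _ => ?_
        simp only [dif_pos (fun β (_ : β ∈ I) => hz β)])
  refine hT N k k.2 (fun i z => ∏ I ∈ (P i).1.parts, a i I z) (fun i => ⟨P i, (P i).2,
    fun I w => a i I fun α => if h : α ∈ I then w ⟨α, h⟩ else Classical.arbitrary _,
    fun x => Finset.prod_congr rfl fun I _ => ha1 i I fun α hα => ?_⟩) ?_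
  · simp [show α ∈ I from hα]
  · funext z
    rw [Finset.sum_apply]
    exact ha2 z trivial


end Pool.Agent.S07325
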