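import Pool.Statements.S07338

set_option autoImplicit false
open Pool Pool.MP_163d7b_co

namespace Pool.Agent.S07338

open Finset

lemma lo_nat (s : Finset ℕ) (A : ℕ) (h : ∀ x ∈ s, A < x) :
    2 * s.card * A + s.card * (s.card + 1) ≤ 2 * ∑ x ∈ s, x := by
  induction s using Finset.induction_on_max with
  | empty => simp
  | insert a s ha ih =>
    have hna : a ∉ s := fun hh => lt_irrefl _ (ha a hh)
    rw [card_insert_of_notMem hna, sum_insert hna]
    have ih' := ih (fun x hx => h x (mem_insert_of_mem hx))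
    have hc : s.card ≤ (Finset.Ioo A a).card := by
      apply card_le_card
      intro x hx
      rw [mem_Ioo]
      exact ⟨h x (mem_insert_of_mem hx), ha x hx⟩
    rw [Nat.card_Ioo] at hc
    have ha' : A < a := h a (mem_insert_self _ _)
    have : s.card + A + 1 ≤ a := by omega
    nlinarith

lemma hi_nat (s : Finset ℕ) (A : ℕ) (h : ∀ x ∈ s, x ≤ A) :
    2 * ∑ x ∈ s, x + s.card * s.card ≤ 2 * s.card * A + s.card := by
  induction s using Finset.induction_on_min with
  | empty => simp
  | insert a s ha ih =>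
    have hna : a ∉ s := fun hh => lt_irrefl _ (ha a hh)
    rw [card_insert_of_notMem hna, sum_insert hna]
    have ih' := ih (fun x hx => h x (mem_insert_of_mem hx))
    have hc : s.card ≤ (Finset.Ioc a A).card := by
      apply card_le_card
      intro x hx
      rw [mem_Ioc]
      exact ⟨ha x hx, h x (mem_insert_of_mem hx)⟩
    rw [Nat.card_Ioc] at hc
    have ha' : a ≤ A := h a (mem_insert_self _ _)
    have : s.card + a ≤ A := by omega
    nlinarith

lemma lo {ι : Type} (s : Finset ι) (h : ι → ℕ) (hi : Function.Injective h) (A : ℕ)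
    (hA : ∀ x ∈ s, A < h x) :
    2 * s.card * A + s.card * (s.card + 1) ≤ 2 * ∑ x ∈ s, h x := by
  have := lo_nat (s.image h) A (by
    intro x hx
    obtain ⟨y, hy, rfl⟩ := mem_image.mp hx
    exact hA y hy)
  rwa [card_image_of_injective _ hi, sum_image (fun a _ b _ hab => hi hab)] at this

lemma hi {ι : Type} (s : Finset ι) (h : ι → ℕ) (hi : Function.Injective h) (A : ℕ)
    (hA : ∀ x ∈ s, h x ≤ A) :
    2 * ∑ x ∈ s, h x + s.card * s.card ≤ 2 * s.card * A + s.card := by
  have := hi_nat (s.image h) A (by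
    intro x hx
    obtain ⟨y, hy, rfl⟩ := mem_image.mp hx
    exact hA y hy)
  rwa [card_image_of_injective _ hi, sum_image (fun a _ b _ hab => hi hab)] at this

lemma cnt {ι : Type} (s : Finset ι) (h : ι → ℕ) (hi : Function.Injective h) (A B : ℕ)
    (hA : ∀ x ∈ s, A < h x ∧ h x ≤ B) : s.card ≤ B - A := by
  have : (s.image h).card ≤ (Finset.Ioc A B).card := by
    apply card_le_card
    intro x hx
    obtain ⟨y, hy, rfl⟩ := mem_image.mp hx
    exact mem_Ioc.mpr (hA y hy)
  rwa [card_image_of_injective _ hi, Nat.card_Ioc] at this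

abbrev P : Type := Bool × Fin 24

/-- non-root vertices: the two side centres, the leaves at the root, the middle vertices and
the end vertices of the pendant paths -/
abbrev E : Type := Bool ⊕ Fin 24 ⊕ P ⊕ P

abbrev W : Type := Option E

def ey (j : Bool) : E := Sum.inl j
def el (i : Fin 24) : E := Sum.inr (Sum.inl i)
def em (p : P) : E := Sum.inr (Sum.inr (Sum.inl p))
def eg (p : P) : E := Sum.inr (Sum.inr (Sum.inr p))

def par : E → W
  | Sum.inl _ => none
  | Sum.inr (Sum.inl _) => none
  | Sum.inr (Sum.inr (Sum.inl p)) => some (ey p.1)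
  | Sum.inr (Sum.inr (Sum.inr p)) => some (em p)

lemma par_ne (e : E) : some e ≠ par e := by
  rcases e with j | i | p | p <;> simp [par, ey, em]

def gr : SimpleGraph W where
  Adj u v := (∃ e, u = some e ∧ v = par e) ∨ (∃ e, v = some e ∧ u = par e)
  symm := ⟨fun _ _ h => h.symm⟩
  loopless := ⟨by
    rintro u (⟨e, h1, h2⟩ | ⟨e, h1, h2⟩) <;> exact par_ne e (h1.symm.trans h2)⟩

def ed (e : E) : Sym2 W := s(some e, par e)

lemma ed_inj : Function.Injective ed := by
  intro a b h
  unfold ed at h
  rw [Sym2.eq_iff] at h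
  rcases h with ⟨h, _⟩ | ⟨h1, h2⟩
  · exact Option.some_injective _ h
  · exfalso
    rcases a with j | i | p | p <;> rcases b with j' | i' | p' | p' <;>
      simp [par, ey, em] at h1 h2

lemma edgeSet_eq : gr.edgeSet = Set.range ed := by
  ext z
  induction z using Sym2.ind with
  | h u v =>
    rw [SimpleGraph.mem_edgeSet]
    constructor
    · rintro (⟨e, rfl, rfl⟩ | ⟨e, rfl, rfl⟩)
      · exact ⟨e, rfl⟩
      · exact ⟨e, Sym2.eq_swap⟩
    · rintro ⟨e, he⟩
      unfold ed at he
      rw [Sym2.eq_iff] at he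
      rcases he with ⟨h1, h2⟩ | ⟨h1, h2⟩
      · exact Or.inl ⟨e, h1.symm, h2.symm⟩
      · exact Or.inr ⟨e, h1.symm, h2.symm⟩

noncomputable instance : DecidableRel gr.Adj := Classical.decRel _

lemma card_edge : gr.edgeFinset.card = 122 := by
  classical
  have : gr.edgeFinset = univ.image ed := by
    ext z
    rw [SimpleGraph.mem_edgeFinset, edgeSet_eq]
    simp
  rw [this, card_image_of_injective _ ed_inj]
  simp

lemma n_l (i : Fin 24) : gr.neighborFinset (some (el i)) = {none} := by
  ext w
  rw [SimpleGraph.mem_neighborFinset]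
  simp [gr, el, par, ey, em]

lemma n_g (p : P) : gr.neighborFinset (some (eg p)) = {some (em p)} := by
  ext w
  rw [SimpleGraph.mem_neighborFinset]
  obtain ⟨j, i⟩ := p
  cases j <;> simp [gr, eg, par, ey, em]

lemma n_m (p : P) : gr.neighborFinset (some (em p)) = {some (ey p.1), some (eg p)} := by
  ext w
  rw [SimpleGraph.mem_neighborFinset]
  obtain ⟨j, i⟩ := p
  cases j <;> simp [gr, eg, par, ey, em]

lemma n_y (j : Bool) : gr.neighborFinset (some (ey j))
    = insert none (univ.image (fun i : Fin 24 => some (em (j, i)))) := by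
  ext w
  rw [SimpleGraph.mem_neighborFinset]
  cases j <;> simp [gr, par, ey, em, eq_comm]

lemma n_x : gr.neighborFinset none
    = insert (some (ey false)) (insert (some (ey true))
      (univ.image (fun i : Fin 24 => some (el i)))) := by
  ext w
  rw [SimpleGraph.mem_neighborFinset]
  simp [gr, par, ey, em, el, eq_comm, or_assoc]

noncomputable def wt (f : Sym2 W → ℕ) (v : W) : ℕ := ∑ w ∈ gr.neighborFinset v, f s(v, w)

lemma w_l (f : Sym2 W → ℕ) (i : Fin 24) : wt f (some (el i)) = f (ed (el i)) := by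
  rw [wt, n_l, sum_singleton]
  rfl

lemma w_g (f : Sym2 W → ℕ) (p : P) : wt f (some (eg p)) = f (ed (eg p)) := by
  rw [wt, n_g, sum_singleton]
  rfl

lemma w_m (f : Sym2 W → ℕ) (p : P) : wt f (some (em p)) = f (ed (em p)) + f (ed (eg p)) := by
  rw [wt, n_m, sum_pair (by simp [ey, eg])]
  congr 1
  rw [Sym2.eq_swap]
  rfl

lemma w_y (f : Sym2 W → ℕ) (j : Bool) :
    wt f (some (ey j)) = f (ed (ey j)) + ∑ i : Fin 24, f (ed (em (j, i))) := by
  rw [wt, n_y, sum_insert (by simp), sum_image (by
    intro a _ b _ hab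
    simpa [em] using hab)]
  have h1 : f s(some (ey j), none) = f (ed (ey j)) := rfl
  have h2 : ∀ i : Fin 24, f s(some (ey j), some (em (j, i))) = f (ed (em (j, i))) := by
    intro i
    rw [Sym2.eq_swap]
    rfl
  rw [h1, sum_congr rfl (fun i _ => h2 i)]

lemma w_x (f : Sym2 W → ℕ) :
    wt f none = f (ed (ey false)) + (f (ed (ey true)) + ∑ i : Fin 24, f (ed (el i))) := by
  rw [wt, n_x, sum_insert (by simp [ey, el]), sum_insert (by simp [ey, el]), sum_image (by
    intro a _ b _ hab
    simpa [el] using hab)]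
  have h1 : ∀ j, f s(none, some (ey j)) = f (ed (ey j)) := by
    intro j
    rw [Sym2.eq_swap]
    rfl
  have h2 : ∀ i : Fin 24, f s(none, some (el i)) = f (ed (el i)) := by
    intro i
    rw [Sym2.eq_swap]
    rfl
  rw [h1, h1, sum_congr rfl (fun i _ => h2 i)]

lemma d_l (i : Fin 24) : gr.degree (some (el i)) = 1 := by
  rw [← SimpleGraph.card_neighborFinset_eq_degree, n_l, card_singleton]

lemma d_g (p : P) : gr.degree (some (eg p)) = 1 := by
  rw [← SimpleGraph.card_neighborFinset_eq_degree, n_g, card_singleton]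

lemma d_m (p : P) : gr.degree (some (em p)) = 2 := by
  rw [← SimpleGraph.card_neighborFinset_eq_degree, n_m, card_pair (by simp [ey, eg])]

lemma d_y (j : Bool) : gr.degree (some (ey j)) = 25 := by
  rw [← SimpleGraph.card_neighborFinset_eq_degree, n_y, card_insert_of_notMem (by simp),
    card_image_of_injective _ (by
      intro a b hab
      simpa [em] using hab)]
  simp

lemma d_x : gr.degree none = 26 := by
  rw [← SimpleGraph.card_neighborFinset_eq_degree, n_x,
    card_insert_of_notMem (by simp [ey, el]), card_insert_of_notMem (by simp [ey, el]),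
    card_image_of_injective _ (by
      intro a b hab
      simpa [el] using hab)]
  simp

lemma conn : gr.Connected := by
  have h : ∀ e : E, gr.Adj (some e) (par e) := fun e => Or.inl ⟨e, rfl, rfl⟩
  have h0 : ∀ v : W, gr.Reachable v none := by
    have hy : ∀ j, gr.Reachable (some (ey j)) none := fun j => (h (ey j)).reachable
    have hm : ∀ p, gr.Reachable (some (em p)) none :=
      fun p => (h (em p)).reachable.trans (hy p.1)
    rintro (_ | j | i | p | p)
    · exact SimpleGraph.Reachable.refl _
    · exact hy j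
    · exact (h (el i)).reachable
    · exact hm p
    · exact (h (eg p)).reachable.trans (hm p)
  exact ⟨fun u v => (h0 u).trans (h0 v).symm⟩

def bn (j : Bool) : ℕ := if j then 1 else 0

def lab : E → ℕ
  | Sum.inl j => 121 + bn j
  | Sum.inr (Sum.inl i) => 49 + i
  | Sum.inr (Sum.inr (Sum.inl p)) => 73 + p.2 + 24 * bn p.1
  | Sum.inr (Sum.inr (Sum.inr p)) => 1 + p.2 + 24 * bn p.1

lemma lab_inj : Function.Injective lab := by
  intro a b h
  rcases a with j | i | ⟨j, i⟩ | ⟨j, i⟩ <;> rcases b with j' | i' | ⟨j', i'⟩ | ⟨j', i'⟩ <;>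
    (try cases j) <;> (try cases j') <;> simp [lab, bn] at h ⊢ <;> omega

lemma lab_rng (e : E) : 1 ≤ lab e ∧ lab e ≤ 122 := by
  rcases e with j | i | ⟨j, i⟩ | ⟨j, i⟩ <;> (try cases j) <;> simp [lab, bn] <;> omega

noncomputable def f0 : Sym2 W → ℕ := Function.extend ed lab (fun _ => 0)

lemma f0_ed (e : E) : f0 (ed e) = lab e := ed_inj.extend_apply _ _ _

lemma anti : ∃ f : Sym2 W → ℕ,
    Set.BijOn f gr.edgeSet (Set.Icc 1 gr.edgeFinset.card) ∧ Function.Injective (wt f) := by
  refine ⟨f0, ?_, ?_⟩
  · rw [card_edge, edgeSet_eq]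
    refine ⟨?_, ?_, ?_⟩
    · rintro _ ⟨e, rfl⟩
      rw [f0_ed]
      exact lab_rng e
    · rintro _ ⟨a, rfl⟩ _ ⟨b, rfl⟩ hab
      rw [f0_ed, f0_ed] at hab
      rw [lab_inj hab]
    · intro n hn
      have h1 : univ.image lab = Finset.Icc 1 122 := by
        apply eq_of_subset_of_card_le
        · intro x hx
          obtain ⟨e, _, rfl⟩ := mem_image.mp hx
          exact mem_Icc.mpr (lab_rng e)
        · rw [card_image_of_injective _ lab_inj]
          simp
      have h2 : n ∈ univ.image lab := by
        rw [h1]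
        exact mem_Icc.mpr hn
      obtain ⟨e, _, rfl⟩ := mem_image.mp h2
      exact ⟨ed e, ⟨e, rfl⟩, f0_ed e⟩
  · have hx : wt f0 none = 1695 := by
      rw [w_x]
      simp only [f0_ed]
      decide
    have hy : ∀ j, wt f0 (some (Sum.inl j)) = 2149 + 577 * bn j := by
      intro j
      have := w_y f0 j
      simp only [f0_ed] at this
      rw [ey] at this
      rw [this]
      cases j <;> decide
    have hl : ∀ i, wt f0 (some (Sum.inr (Sum.inl i))) = 49 + i := by
      intro i
      have := w_l f0 i
      rw [f0_ed] at this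
      exact this
    have hm : ∀ p : P, wt f0 (some (Sum.inr (Sum.inr (Sum.inl p))))
        = 73 + p.2 + 24 * bn p.1 + (1 + p.2 + 24 * bn p.1) := by
      intro p
      have := w_m f0 p
      rw [f0_ed, f0_ed] at this
      exact this
    have hg : ∀ p : P, wt f0 (some (Sum.inr (Sum.inr (Sum.inr p)))) = 1 + p.2 + 24 * bn p.1 := by
      intro p
      have := w_g f0 p
      rw [f0_ed] at this
      exact this
    intro a b h
    rcases a with _ | j | i | ⟨j, i⟩ | ⟨j, i⟩ <;>
      rcases b with _ | j' | i' | ⟨j', i'⟩ | ⟨j', i'⟩ <;>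
      simp only [hx, hy, hl, hm, hg] at h <;>
      (try cases j) <;> (try cases j') <;> simp [bn] at h ⊢ <;> omega

lemma arith (A lam t X e F1 F2 G1 G2 : ℕ) (h0 : lam + t = 48) (h1 : 72 + lam ≤ A - 0)
    (h2 : t ≤ 122 - A) (hA : A ≤ 122)
    (i1 : F1 + F2 < 2 * X + e)
    (i2 : 2 * (X + G1) + (24 + lam) * (24 + lam) ≤ 2 * (24 + lam) * A + (24 + lam))
    (i3 : 2 * lam * A + lam * (lam + 1) ≤ 2 * (F1 + G1))
    (i4 : 2 * (e + (X + (F1 + F2 + (G1 + G2)))) + 122 * 122 ≤ 2 * 122 * 122 + 122)
    (i5 : 2 * 48 * A + 48 * (48 + 1) ≤ 2 * (F1 + F2 + (G1 + G2)))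
    (i6 : 2 * t * A + t * (t + 1) ≤ 2 * F2) : False := by
  have hl : lam ≤ 48 := by omega
  obtain rfl : t = 48 - lam := by omega
  have hA' : A = 72 + lam ∨ A = 73 + lam ∨ A = 74 + lam := by omega
  rcases hA' with rfl | rfl | rfl <;> interval_cases lam <;> omega

lemma nostrong (f : Sym2 W → ℕ)
    (hb : Set.BijOn f gr.edgeSet (Set.Icc 1 gr.edgeFinset.card))
    (hw : Function.Injective (wt f))
    (hs : ∀ u v : W, gr.degree u < gr.degree v → wt f u < wt f v) : False := by
  classical
  rw [card_edge, edgeSet_eq] at hb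
  set l : E → ℕ := fun e => f (ed e) with hl
  have linj : Function.Injective l := fun a b hab =>
    ed_inj (hb.injOn ⟨a, rfl⟩ ⟨b, rfl⟩ hab)
  have lr : ∀ e, 1 ≤ l e ∧ l e ≤ 122 := fun e => hb.mapsTo ⟨e, rfl⟩
  let lf : Fin 24 ⊕ P → E := Sum.elim el eg
  obtain ⟨z, -, hz⟩ := exists_max_image (univ : Finset (Fin 24 ⊕ P)) (fun a => l (lf a))
    univ_nonempty
  set A := l (lf z) with hA
  have hAl : ∀ i, l (el i) ≤ A := fun i => hz (Sum.inl i) (mem_univ _)
  have hAg : ∀ p, l (eg p) ≤ A := fun p => hz (Sum.inr p) (mem_univ _)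
  have hAm : ∀ p, A < l (em p) + l (eg p) := by
    intro p
    rcases z with i | q
    · have := hs (some (el i)) (some (em p)) (by rw [d_l, d_m]; norm_num)
      rw [w_l, w_m] at this
      exact this
    · have := hs (some (eg q)) (some (em p)) (by rw [d_g, d_m]; norm_num)
      rw [w_g, w_m] at this
      exact this
  have sinj : Function.Injective (fun p : P => l (em p) + l (eg p)) := by
    intro p q hpq
    have : wt f (some (em p)) = wt f (some (em q)) := by
      rw [w_m, w_m]
      exact hpq
    simpa [em] using hw this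
  let low : Finset P := univ.filter (fun p => l (em p) ≤ A)
  let top : Finset P := univ.filter (fun p => ¬ l (em p) ≤ A)
  have hsplit : ∀ g : P → ℕ, ∑ p, g p = ∑ p ∈ low, g p + ∑ p ∈ top, g p :=
    fun g => (sum_filter_add_sum_filter_not _ _ _).symm
  have h0 : low.card + top.card = 48 := by
    rw [card_filter_add_card_filter_not]
    simp
  have lfinj : Function.Injective lf := by
    rintro (a | a) (b | b) hab <;> simp [lf, el, eg] at hab ⊢ <;> exact hab
  have h1 := cnt ((univ : Finset (Fin 24 ⊕ P)).disjSum low) (fun a => l (Sum.elim lf em a))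
    (linj.comp (by
      rintro ((a | a) | a) ((b | b) | b) hab <;> simp [lf, el, eg, em] at hab ⊢ <;> exact hab))
    0 A (by
      rintro ((a | a) | a) ha
      · exact ⟨(lr _).1, hAl a⟩
      · exact ⟨(lr _).1, hAg a⟩
      · exact ⟨(lr _).1, by simpa [low] using ha⟩)
  rw [card_disjSum] at h1
  have c1 : (univ : Finset (Fin 24 ⊕ P)).card = 72 := by simp
  rw [c1] at h1
  have eminj : Function.Injective (fun p => l (em p)) := linj.comp (by
    intro a b hab
    simpa [em] using hab)
  have htop : ∀ p ∈ top, A < l (em p) := by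
    intro p hp
    simpa [top] using hp
  have h2 := cnt top (fun p => l (em p)) eminj A 122 (fun p hp => ⟨htop p hp, (lr _).2⟩)
  have i6 := lo top (fun p => l (em p)) eminj A htop
  have i5 := lo univ (fun p : P => l (em p) + l (eg p)) sinj A (fun p _ => hAm p)
  have c2 : (univ : Finset P).card = 48 := by simp
  rw [c2, sum_add_distrib, hsplit (fun p => l (em p)), hsplit (fun p => l (eg p))] at i5
  have i3 := lo low (fun p : P => l (em p) + l (eg p)) sinj A (fun p _ => hAm p)
  rw [sum_add_distrib] at i3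
  have i2 := hi ((univ : Finset (Fin 24)).disjSum low) (fun a => l (lf a)) (linj.comp lfinj) A (by
    rintro (a | a) _
    · exact hAl a
    · exact hAg a)
  have c3 : (univ : Finset (Fin 24)).card = 24 := by simp
  rw [card_disjSum, sum_disjSum, c3] at i2
  have i4 := hi univ l linj 122 (fun e _ => (lr e).2)
  have c4 : (univ : Finset E).card = 122 := by simp
  rw [c4, Fintype.sum_sum_type, Fintype.sum_sum_type, Fintype.sum_sum_type] at i4
  have e1 : ∑ p : P, l (Sum.inr (Sum.inr (Sum.inl p))) = _ := hsplit (fun p => l (em p))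
  have e2 : ∑ p : P, l (Sum.inr (Sum.inr (Sum.inr p))) = _ := hsplit (fun p => l (eg p))
  rw [e1, e2] at i4
  have y1 := hs (some (ey false)) none (by rw [d_y, d_x]; norm_num)
  have y2 := hs (some (ey true)) none (by rw [d_y, d_x]; norm_num)
  rw [w_y, w_x] at y1 y2
  have e3 : ∑ p : P, l (em p) = ∑ i : Fin 24, f (ed (em (true, i)))
      + ∑ i : Fin 24, f (ed (em (false, i))) := by
    rw [Fintype.sum_prod_type, Fintype.sum_bool]
  rw [hsplit (fun p => l (em p))] at e3
  have e4 : ∑ j : Bool, l (Sum.inl j) = f (ed (ey true)) + f (ed (ey false)) := by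
    rw [Fintype.sum_bool]
    rfl
  refine arith A low.card top.card (∑ i : Fin 24, f (ed (el i))) (∑ j : Bool, l (Sum.inl j))
    _ _ _ _ h0 h1 h2 (lr _).2 ?_ i2 i3 i4 i5 i6
  omega

/-- The negation of the preceding statement: Every finite connected simple graph that has an edge labeling by 1..m (bijective) with distinct vertex sums also has such a labeling where a vertex of smaller degree always gets a strictly smaller vertex sum. -/
theorem result :
    ¬ (∀ (V : Type) [Fintype V] [DecidableEq V] (G : SimpleGraph V) [DecidableRel G.Adj],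
      G.Connected →
      (∃ f : Sym2 V → ℕ,
          Set.BijOn f G.edgeSet (Set.Icc 1 G.edgeFinset.card) ∧
          Function.Injective (fun v : V => ∑ w ∈ G.neighborFinset v, f s(v, w))) →
      ∃ f : Sym2 V → ℕ,
          Set.BijOn f G.edgeSet (Set.Icc 1 G.edgeFinset.card) ∧
          Function.Injective (fun v : V => ∑ w ∈ G.neighborFinset v, f s(v, w)) ∧
          ∀ u v : V, G.degree u < G.degree v →
            (∑ w ∈ G.neighborFinset u, f s(u, w)) < (∑ w ∈ G.neighborFinset v, f s(v, w))) := by
  intro H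
  obtain ⟨f, hb, hw, hs⟩ := H W gr conn anti
  exact nostrong f hb hw hs

end Pool.Agent.S07338
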