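import Pool.Statements.S07393
import Pool.Agent.Lib.helper16.Sat3

set_option autoImplicit false
open Classical
open Pool Pool.MP_1887ad_co

namespace Pool.Agent.S07393
open Finset Pool.Agent.Lib.H16Sat

theorem first_moment {m n k : ℕ} (hn : 1 ≤ n) (hm : 2 ^ k * n ≤ m) :
    ((univ.filter (fun F : Fin m → (Fin k ↪ Fin n) × (Fin k → Bool) =>
      ∃ a : Fin n → Bool, ∀ i, ∃ j : Fin k, a ((F i).1 j) = (F i).2 j)).card : ℝ) /
      (Fintype.card (Fin m → (Fin k ↪ Fin n) × (Fin k → Bool)) : ℝ) ≤ 3 / 4 := by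
  set E := Fintype.card (Fin k ↪ Fin n) with hE
  let S : (Fin n → Bool) → Finset ((Fin k ↪ Fin n) × (Fin k → Bool)) := fun a =>
    univ.filter (fun c => ∃ j, a (c.1 j) = c.2 j)
  have hS : ∀ a, ((S a).card : ℝ) = E * (2 ^ k - 1) := by
    intro a
    simp only [S]
    rw [card_prod_filter]
    push_cast
    have : ∀ f : Fin k ↪ Fin n, ((univ.filter (fun s : Fin k → Bool => ∃ j, a (f j) = s j)).card : ℝ)
        = 2 ^ k - 1 := by
      intro f
      have : univ.filter (fun s : Fin k → Bool => ∃ j, a (f j) = s j) =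
          univ.erase (fun j => !a (f j)) := by
        ext s
        simp only [mem_filter, mem_univ, true_and, mem_erase, and_true, ne_eq, funext_iff,
          not_forall]
        apply exists_congr
        intro j
        cases a (f j) <;> cases s j <;> simp
      rw [this, card_erase_of_mem (mem_univ _), Nat.cast_sub (card_pos.2 univ_nonempty)]
      simp
    simp only [this, sum_const, card_univ, nsmul_eq_mul, hE]
  have h1 : univ.filter (fun F : Fin m → (Fin k ↪ Fin n) × (Fin k → Bool) =>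
      ∃ a : Fin n → Bool, ∀ i, ∃ j : Fin k, a ((F i).1 j) = (F i).2 j) ⊆
      univ.biUnion (fun a => Fintype.piFinset (fun _ => S a)) := by
    intro F hF
    simp only [mem_filter, mem_univ, true_and] at hF
    obtain ⟨a, ha⟩ := hF
    exact mem_biUnion.2 ⟨a, mem_univ _, by simpa [S] using ha⟩
  have h2 : ((univ.filter (fun F : Fin m → (Fin k ↪ Fin n) × (Fin k → Bool) =>
      ∃ a : Fin n → Bool, ∀ i, ∃ j : Fin k, a ((F i).1 j) = (F i).2 j)).card : ℝ) ≤
      2 ^ n * (E * (2 ^ k - 1)) ^ m := by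
    calc _ ≤ ∑ a : Fin n → Bool, ((Fintype.piFinset (fun _ : Fin m => S a)).card : ℝ) := by
          exact_mod_cast (card_le_card h1).trans card_biUnion_le
      _ = _ := by simp [Fintype.card_piFinset, hS]
  have h3 : (Fintype.card (Fin m → (Fin k ↪ Fin n) × (Fin k → Bool)) : ℝ) = (E * 2 ^ k) ^ m := by
    rw [Fintype.card_fun, Fintype.card_prod, ← hE]; simp
  rw [h3]
  apply div_le_of_le_mul₀ (by positivity) (by norm_num)
  refine h2.trans ?_
  have h2k : (0 : ℝ) < 2 ^ k := by positivity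
  have h1k : (1 : ℝ) ≤ 2 ^ k := one_le_pow₀ (by norm_num)
  have e1 : (E * (2 ^ k - 1) : ℝ) = (1 - 1 / 2 ^ k) * (E * 2 ^ k) := by field_simp
  rw [e1, mul_pow, ← mul_assoc]
  gcongr
  have b0 : (0 : ℝ) ≤ 1 - 1 / 2 ^ k := by
    rw [sub_nonneg, div_le_one h2k]; exact h1k
  have b1 : (1 - 1 / 2 ^ k : ℝ) ^ (2 ^ k) ≤ 3 / 8 := by
    have := Real.one_sub_div_pow_le_exp_neg (n := 2 ^ k) (t := 1) (by exact_mod_cast h1k)
    push_cast at this
    refine this.trans ?_
    rw [Real.exp_neg, inv_le_comm₀ (Real.exp_pos _) (by norm_num)]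
    exact le_trans (by norm_num) Real.exp_one_gt_d9.le
  calc (2 : ℝ) ^ n * (1 - 1 / 2 ^ k) ^ m ≤ 2 ^ n * (1 - 1 / 2 ^ k) ^ (2 ^ k * n) := by
        gcongr ?_ * ?_
        exact pow_le_pow_of_le_one b0 (by simp) hm
    _ ≤ 2 ^ n * (3 / 8) ^ n := by rw [pow_mul]; gcongr
    _ = (3 / 4) ^ n := by rw [← mul_pow]; norm_num
    _ ≤ 3 / 4 := pow_le_of_le_one (by norm_num) (by norm_num) (by omega)

theorem ratio {m n k : ℕ} (hk : 26 ≤ k) (hn : 128 * k ≤ n) (hm : m ≤ 2 ^ (k + 1) * n) :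
    (Fintype.card (Om m n k) : ℝ) ≤ Real.exp (4 * k ^ 2 * 2 ^ (k + 1)) *
      Fintype.card (Fin m → ((Fin k ↪ Fin n) × (Fin k → Bool)) ×
        ((Fin k ↪ Fin n) × (Fin k → Bool))) := by
  have hn' : (0 : ℝ) < n := by exact_mod_cast (by omega : 0 < n)
  have hkn : (128 * k : ℝ) ≤ n := by exact_mod_cast hn
  have hk0 : (0 : ℝ) ≤ k := by positivity
  have h1 : ((n : ℝ) - k) ^ k ≤ n.descFactorial k := by
    have := Nat.pow_sub_le_descFactorial n k
    have h2 : (n - k) ^ k ≤ n.descFactorial k :=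
      (Nat.pow_le_pow_left (by omega) k).trans this
    have h3 : (((n - k) ^ k : ℕ) : ℝ) ≤ n.descFactorial k := by exact_mod_cast h2
    rwa [Nat.cast_pow, Nat.cast_sub (by omega)] at h3
  have h2 : (n : ℝ) ≤ Real.exp (2 * k / n) * (n - k) := by
    have := Real.add_one_le_exp (2 * k / n : ℝ)
    have h3 : (n : ℝ) ≤ (2 * k / n + 1) * (n - k) := by
      have : (2 * k / n + 1 : ℝ) * (n - k) = n + k * (n - 2 * k) / n := by field_simp; ring
      rw [this]
      have : (0 : ℝ) ≤ k * (n - 2 * k) / n := div_nonneg (mul_nonneg hk0 (by linarith)) hn'.le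
      linarith
    refine h3.trans ?_
    gcongr
    linarith
  have h3 : (n : ℝ) ^ k ≤ Real.exp (2 * k / n * k) * n.descFactorial k := by
    calc (n : ℝ) ^ k ≤ (Real.exp (2 * k / n) * (n - k)) ^ k := by gcongr
      _ = Real.exp (2 * k / n * k) * (n - k) ^ k := by
          rw [mul_pow, ← Real.exp_nat_mul, mul_comm (k : ℝ)]
      _ ≤ _ := by gcongr
  rw [card_Om]
  simp only [Fintype.card_prod, Fintype.card_fun, Fintype.card_fin, Fintype.card_bool,
    Fintype.card_embedding_eq]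
  push_cast
  have h4 : Real.exp (2 * k / n * k) ^ (2 * m) ≤ Real.exp (4 * k ^ 2 * 2 ^ (k + 1)) := by
    rw [← Real.exp_nat_mul]
    apply Real.exp_le_exp.2
    push_cast
    have a : (m : ℝ) ≤ 2 ^ (k + 1) * n := by exact_mod_cast hm
    calc (2 * m : ℝ) * (2 * k / n * k) ≤ 2 * (2 ^ (k + 1) * n) * (2 * k / n * k) := by gcongr
      _ = _ := by field_simp; norm_num
  calc ((2 : ℝ) ^ k * 2 ^ k) ^ m * n ^ (m * (2 * k))
      = ((2 : ℝ) ^ k * 2 ^ k) ^ m * (n ^ k) ^ (2 * m) := by rw [← pow_mul]; congr 2; ring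
    _ ≤ ((2 : ℝ) ^ k * 2 ^ k) ^ m * (Real.exp (2 * k / n * k) * n.descFactorial k) ^ (2 * m) := by
        gcongr
    _ = Real.exp (2 * k / n * k) ^ (2 * m) *
        ((n.descFactorial k * 2 ^ k) * (n.descFactorial k * 2 ^ k)) ^ m := by
        rw [mul_pow (Real.exp _), pow_mul (n.descFactorial k : ℝ), mul_left_comm, ← mul_pow]
        congr 2; ring
    _ ≤ _ := by gcongr

theorem lower {m n k : ℕ} (hk : 26 ≤ k) (hn : 128 * k ≤ n) (hm : m ≤ 2 ^ (k + 1) * n) :
    1 - Real.exp (4 * k ^ 2 * 2 ^ (k + 1)) * ((1 / 2) ^ (n / (64 * k)) + 1 / n) ≤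
    ((univ.filter (fun ω : Fin m →
        ((Fin k ↪ Fin n) × (Fin k → Bool)) × ((Fin k ↪ Fin n) × (Fin k → Bool)) =>
      ∃ a : Fin n → Bool, ∀ i, ∃ j : Fin k,
        a ((if selb ((ω i).1.2, (ω i).2.2) then (ω i).2 else (ω i).1).1 j) =
          (if selb ((ω i).1.2, (ω i).2.2) then (ω i).2 else (ω i).1).2 j)).card : ℝ) /
      (Fintype.card (Fin m →
        ((Fin k ↪ Fin n) × (Fin k → Bool)) × ((Fin k ↪ Fin n) × (Fin k → Bool))) : ℝ) := by
  have hne : Nonempty (Fin k ↪ Fin n) := ⟨Fin.castLEEmb (by omega)⟩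
  set C : ℝ := (Fintype.card (Fin m →
        ((Fin k ↪ Fin n) × (Fin k → Bool)) × ((Fin k ↪ Fin n) × (Fin k → Bool))) : ℝ) with hC
  have hCpos : 0 < C := by rw [hC]; exact_mod_cast Fintype.card_pos
  let p : (Fin m → ((Fin k ↪ Fin n) × (Fin k → Bool)) × ((Fin k ↪ Fin n) × (Fin k → Bool))) → Prop :=
    fun ω => ∃ a : Fin n → Bool, ∀ i, ∃ j : Fin k,
        a ((if selb ((ω i).1.2, (ω i).2.2) then (ω i).2 else (ω i).1).1 j) =
          (if selb ((ω i).1.2, (ω i).2.2) then (ω i).2 else (ω i).1).2 j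
  let ι : (Fin m → ((Fin k ↪ Fin n) × (Fin k → Bool)) × ((Fin k ↪ Fin n) × (Fin k → Bool))) →
      Om m n k := fun ω => (fun i => ((ω i).1.2, (ω i).2.2),
        fun x => (if x.2.1 then (ω x.1).2 else (ω x.1).1).1 x.2.2)
  have h1 : (univ.filter (fun ω => ¬ p ω)).card ≤
      (univ.filter (fun ω : Om m n k => ¬ Sat ω)).card := by
    apply card_le_card_of_injOn ι
    · intro ω hω
      simp only [coe_filter, mem_univ, true_and, Set.mem_ofPred_eq] at hω ⊢
      rintro ⟨a, ha⟩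
      apply hω
      refine ⟨a, fun i => ?_⟩
      obtain ⟨j, hj⟩ := ha i
      refine ⟨j, ?_⟩
      simp only [ι, sels] at hj
      split_ifs at hj ⊢ <;> exact hj
    · intro ω _ ω' _ h
      simp only [ι, Prod.mk.injEq, funext_iff] at h
      funext i
      refine Prod.ext (Prod.ext ?_ (funext (h.1 i).1)) (Prod.ext ?_ (funext (h.1 i).2))
      · ext j
        simpa using congrArg Fin.val (h.2 (i, false, j))
      · ext j
        simpa using congrArg Fin.val (h.2 (i, true, j))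
  have h2 : ((univ.filter p).card : ℝ) + (univ.filter (fun ω => ¬ p ω)).card = C := by
    rw [hC]
    exact_mod_cast card_filter_add_card_filter_not (s := univ) p
  have h3 := fail_bound hk hn hm
  have h4 := ratio hk hn hm
  have h1' : ((univ.filter (fun ω => ¬ p ω)).card : ℝ) ≤
      (univ.filter (fun ω : Om m n k => ¬ Sat ω)).card := by exact_mod_cast h1
  rw [le_div_iff₀ hCpos]
  have h5 : (0 : ℝ) ≤ (1 / 2) ^ (n / (64 * k)) + 1 / n := by positivity
  have h6 := mul_le_mul_of_nonneg_left h4 h5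
  change _ ≤ ((univ.filter p).card : ℝ)
  nlinarith

/-- For every k ≥ 26 and every threshold sequence r_k(n) of random k-SAT, some ε>0 and some online rule choosing one of two uniform random k-clauses per step keep the formula after ⌊(r_k(n)+ε)n⌋ steps satisfiable with probability tending to 1. -/
theorem result :
  ∀ k : ℕ, 26 ≤ k →
  ∀ r : ℕ → ℝ,
    (∀ ε : ℝ, 0 < ε →
      Filter.Tendsto (fun n : ℕ =>
        ((Finset.univ.filter (fun F : Fin ⌊(r n + ε) * (n : ℝ)⌋₊ → (Fin k ↪ Fin n) × (Fin k → Bool) =>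
            ∃ a : Fin n → Bool, ∀ i, ∃ j : Fin k, a ((F i).1 j) = (F i).2 j)).card : ℝ) /
          (Fintype.card (Fin ⌊(r n + ε) * (n : ℝ)⌋₊ → (Fin k ↪ Fin n) × (Fin k → Bool)) : ℝ))
        Filter.atTop (nhds 0) ∧
      Filter.Tendsto (fun n : ℕ =>
        ((Finset.univ.filter (fun F : Fin ⌊(r n - ε) * (n : ℝ)⌋₊ → (Fin k ↪ Fin n) × (Fin k → Bool) =>
            ∃ a : Fin n → Bool, ∀ i, ∃ j : Fin k, a ((F i).1 j) = (F i).2 j)).card : ℝ) /
          (Fintype.card (Fin ⌊(r n - ε) * (n : ℝ)⌋₊ → (Fin k ↪ Fin n) × (Fin k → Bool)) : ℝ))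
        Filter.atTop (nhds 1)) →
    ∃ ε : ℝ, 0 < ε ∧
      ∃ R : (n : ℕ) → Fin ⌊(r n + ε) * (n : ℝ)⌋₊ →
          (Fin ⌊(r n + ε) * (n : ℝ)⌋₊ →
            ((Fin k ↪ Fin n) × (Fin k → Bool)) × ((Fin k ↪ Fin n) × (Fin k → Bool))) → Bool,
        (∀ (n : ℕ) (i : Fin ⌊(r n + ε) * (n : ℝ)⌋₊)
            (ω ω' : Fin ⌊(r n + ε) * (n : ℝ)⌋₊ →
              ((Fin k ↪ Fin n) × (Fin k → Bool)) × ((Fin k ↪ Fin n) × (Fin k → Bool))),
            (∀ j : Fin ⌊(r n + ε) * (n : ℝ)⌋₊, j ≤ i → ω j = ω' j) → R n i ω = R n i ω') ∧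
        Filter.Tendsto (fun n : ℕ =>
          ((Finset.univ.filter (fun ω : Fin ⌊(r n + ε) * (n : ℝ)⌋₊ →
                ((Fin k ↪ Fin n) × (Fin k → Bool)) × ((Fin k ↪ Fin n) × (Fin k → Bool)) =>
              ∃ a : Fin n → Bool, ∀ i, ∃ j : Fin k,
                a ((if R n i ω then (ω i).2 else (ω i).1).1 j) =
                  (if R n i ω then (ω i).2 else (ω i).1).2 j)).card : ℝ) /
            (Fintype.card (Fin ⌊(r n + ε) * (n : ℝ)⌋₊ →
                ((Fin k ↪ Fin n) × (Fin k → Bool)) × ((Fin k ↪ Fin n) × (Fin k → Bool))) : ℝ))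
          Filter.atTop (nhds 1) := by
  intro k hk r hr
  refine ⟨1, one_pos, fun n i ω => selb ((ω i).1.2, (ω i).2.2), ?_, ?_⟩
  · intro n i ω ω' h
    simp only [h i le_rfl]
  · have h1 := (hr 1 one_pos).2.eventually (lt_mem_nhds (show (3 / 4 : ℝ) < 1 by norm_num))
    have hev : ∀ᶠ n : ℕ in Filter.atTop, 128 * k ≤ n ∧ ⌊(r n + 1) * (n : ℝ)⌋₊ ≤ 2 ^ (k + 1) * n := by
      filter_upwards [h1, Filter.eventually_ge_atTop (128 * k)] with n h2 h3
      refine ⟨h3, ?_⟩
      have h4 : ⌊(r n - 1) * (n : ℝ)⌋₊ < 2 ^ k * n := by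
        by_contra h5
        push Not at h5
        have := first_moment (k := k) (by omega : 1 ≤ n) h5
        exact absurd h2 (not_lt.2 (by convert this))
      rw [Nat.floor_lt' (by have : 0 < n := by omega
                            positivity)] at h4
      apply Nat.floor_le_of_le
      push_cast at h4 ⊢
      have h5 : (2 : ℝ) ≤ 2 ^ k := by
        calc (2 : ℝ) = 2 ^ 1 := by norm_num
          _ ≤ 2 ^ k := pow_le_pow_right₀ (by norm_num) (by omega)
      have h6 : (0 : ℝ) ≤ n := by positivity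
      rw [pow_succ]
      nlinarith
    have lim : Filter.Tendsto (fun n : ℕ => 1 - Real.exp (4 * k ^ 2 * 2 ^ (k + 1)) *
        ((1 / 2 : ℝ) ^ (n / (64 * k)) + 1 / n)) Filter.atTop (nhds 1) := by
      have a1 : Filter.Tendsto (fun n : ℕ => (1 / 2 : ℝ) ^ (n / (64 * k))) Filter.atTop (nhds 0) :=
        (tendsto_pow_atTop_nhds_zero_of_lt_one (by norm_num) (by norm_num)).comp
          (Nat.tendsto_div_const_atTop (by omega))
      have a2 := ((a1.add tendsto_one_div_atTop_nhds_zero_nat).const_mul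
        (Real.exp (4 * k ^ 2 * 2 ^ (k + 1)))).const_sub 1
      simpa using a2
    refine tendsto_of_tendsto_of_tendsto_of_le_of_le' lim tendsto_const_nhds ?_ ?_
    · filter_upwards [hev] with n hn
      have := lower hk hn.1 hn.2
      exact this
    · filter_upwards with n
      apply div_le_one_of_le₀ _ (by positivity)
      exact_mod_cast card_le_univ _

end Pool.Agent.S07393
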