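import Pool.Statements.S07487
import Pool.Agent.Lib.helper33.TolB

set_option autoImplicit false
open Pool Pool.MP_1cfd87_co

namespace Pool.Agent.S07487

open Finset Pool.Agent.Lib.helper33.Tol

lemma host {n K d L t : ℕ} (G : SimpleGraph (Fin n)) (hn1 : 1 ≤ n)
    (hdeg : ∀ v, (G.neighborSet v).ncard ≤ d) (hK : K = d + d * d + 1)
    (E : Finset ((Fin K × Fin (5 * n)) × (Fin K × Fin (5 * n))))
    (hE : Exp (fun x y => (x, y) ∈ E) d L n) (hL : 1 ≤ L) (hn : L * (K * (d * L) + L) ≤ n) :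
    ∃ (m : ℕ) (F : SimpleGraph (Fin m)), F.edgeSet.ncard ≤ (t / n + 1) * E.card ∧
      ∀ R : SimpleGraph (Fin m), R ≤ F →
        (∃ f : Fin n → Fin m, Function.Injective f ∧ ∀ a b, G.Adj a b → R.Adj (f a) (f b)) ∨
        (∃ g : Fin t ⊕ Fin t → Fin m, Function.Injective g ∧
          ∀ i, F.Adj (g (Sum.inl i)) (g (Sum.inr i)) ∧
            ¬ R.Adj (g (Sum.inl i)) (g (Sum.inr i))) := by
  classical
  subst hK
  have hdeg' : ∀ v, (univ.filter (G.Adj v)).card ≤ d := by
    intro v
    have : G.neighborSet v = ↑(univ.filter (G.Adj v)) := by ext w; simp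
    have h := hdeg v
    rwa [this, Set.ncard_coe_finset] at h
  obtain ⟨col, hc1, hc2⟩ := square_colouring G hdeg'
  set c := t / n + 1 with hc
  obtain ⟨m, ⟨e⟩⟩ : ∃ m : ℕ, Nonempty ((Fin c × (Fin (d + d * d + 1) × Fin (5 * n))) ≃ Fin m) :=
    ⟨_, ⟨Fintype.equivFin _⟩⟩
  let F : SimpleGraph (Fin m) :=
    { Adj := fun x y => x ≠ y ∧ (e.symm x).1 = (e.symm y).1 ∧
        (((e.symm x).2, (e.symm y).2) ∈ E ∨ ((e.symm y).2, (e.symm x).2) ∈ E)
      symm := ⟨fun x y h => ⟨h.1.symm, h.2.1.symm, h.2.2.symm⟩⟩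
      loopless := ⟨fun x h => h.1 rfl⟩ }
  have hF : ∀ x y, F.Adj x y ↔ x ≠ y ∧ (e.symm x).1 = (e.symm y).1 ∧
        (((e.symm x).2, (e.symm y).2) ∈ E ∨ ((e.symm y).2, (e.symm x).2) ∈ E) :=
    fun _ _ => Iff.rfl
  refine ⟨m, F, ?_, ?_⟩
  · have hsub : F.edgeSet ⊆ ↑(((univ : Finset (Fin c)) ×ˢ E).image
        fun p => s(e (p.1, p.2.1), e (p.1, p.2.2))) := by
      intro z hz
      induction z using Sym2.ind with
      | h x y =>
        rw [SimpleGraph.mem_edgeSet, hF] at hz
        obtain ⟨-, h1, h2 | h2⟩ := hz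
        · refine mem_coe.2 (mem_image.2 ⟨((e.symm x).1, ((e.symm x).2, (e.symm y).2)),
            mem_product.2 ⟨mem_univ _, h2⟩, ?_⟩)
          simp only [Prod.mk.eta, Equiv.apply_symm_apply]
          rw [h1]
          simp only [Prod.mk.eta, Equiv.apply_symm_apply]
        · refine mem_coe.2 (mem_image.2 ⟨((e.symm x).1, ((e.symm y).2, (e.symm x).2)),
            mem_product.2 ⟨mem_univ _, h2⟩, ?_⟩)
          simp only [Prod.mk.eta, Equiv.apply_symm_apply]
          rw [h1]
          simp only [Prod.mk.eta, Equiv.apply_symm_apply]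
          exact Sym2.eq_swap
    refine (Set.ncard_le_ncard hsub (Finset.finite_toSet _)).trans ?_
    rw [Set.ncard_coe_finset]
    refine card_image_le.trans ?_
    simp
  · intro R _
    rcases pack_or_cover (fun T : Finset (Fin m) => ∃ u v, T = {u, v} ∧ F.Adj u v ∧ ¬ R.Adj u v) 2
      (by
        rintro T ⟨u, v, rfl, -, -⟩
        exact ⟨insert_nonempty _ _, card_le_two⟩) t with ⟨T, h1, h2⟩ | ⟨B, h1, h2⟩
    · right
      choose u v hT hF' hR using h1
      have hu : ∀ i, u i ∈ T i := fun i => by rw [hT]; simp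
      have hv : ∀ i, v i ∈ T i := fun i => by rw [hT]; simp
      refine ⟨Sum.elim u v, ?_, fun i => ⟨hF' i, hR i⟩⟩
      refine Function.Injective.sumElim ?_ ?_ ?_
      · intro i j h
        by_contra hne
        exact disjoint_left.1 (h2 i j hne) (hu i) (h ▸ hu j)
      · intro i j h
        by_contra hne
        exact disjoint_left.1 (h2 i j hne) (hv i) (h ▸ hv j)
      · intro i j h
        by_cases hij : i = j
        · subst hij; exact (hF' i).ne h
        · exact disjoint_left.1 (h2 i j hij) (hu i) (h ▸ hv j)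
    · left
      have hj : ∃ j : Fin c, (univ.filter fun x => e (j, x) ∈ B).card ≤ 2 * n := by
        by_contra hno
        push Not at hno
        have h3 : ∑ j : Fin c, (univ.filter fun x => e (j, x) ∈ B).card ≤ B.card := by
          rw [← card_sigma]
          refine card_le_card_of_injOn (fun p => e (p.1, p.2)) ?_ ?_
          · intro p hp
            simpa using hp
          · rintro ⟨a, x⟩ _ ⟨a', x'⟩ _ h
            have := e.injective h
            simp only [Prod.mk.injEq] at this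
            obtain ⟨rfl, rfl⟩ := this
            rfl
        have h4 : ∑ _j : Fin c, 2 * n ≤ ∑ j : Fin c, (univ.filter fun x => e (j, x) ∈ B).card :=
          sum_le_sum fun j _ => (hno j).le
        have h5 : ∑ _j : Fin c, 2 * n = c * (2 * n) := by simp
        have h6 : t < n * c := Nat.lt_mul_div_succ t hn1
        nlinarith
      obtain ⟨j, hj⟩ := hj
      obtain ⟨f, f1, f2, f3⟩ := embed G hdeg' col hc1 hc2 _ hE _ hj hL hn
      have finj : Function.Injective fun u => e (j, f u) := fun a b h =>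
        f1 (Prod.mk.inj (e.injective h)).2
      refine ⟨fun u => e (j, f u), finj, fun a b hab => ?_⟩
      by_contra hR
      refine h2 {e (j, f a), e (j, f b)} ⟨_, _, rfl, ?_, hR⟩ ?_
      · rw [hF]
        refine ⟨fun h => hab.ne (finj h), by simp, ?_⟩
        simpa using f3 a b hab
      · rw [disjoint_left]
        intro x hx hxB
        rcases mem_insert.1 hx with rfl | hx
        · exact f2 a (mem_filter.2 ⟨mem_univ _, hxB⟩)
        · rw [mem_singleton] at hx
          subst hx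
          exact f2 b (mem_filter.2 ⟨mem_univ _, hxB⟩)

lemma many_edges {n : ℕ} (G : SimpleGraph (Fin n)) (h : ∀ v, ∃ w, G.Adj v w) :
    n ≤ 2 * G.edgeSet.ncard := by
  classical
  have h1 := G.sum_degrees_eq_twice_card_edges
  have h2 : G.edgeSet.ncard = G.edgeFinset.card := by
    rw [← SimpleGraph.coe_edgeFinset, Set.ncard_coe_finset]
  rw [h2, ← h1]
  calc n = ∑ _v : Fin n, 1 := by simp
    _ ≤ _ := sum_le_sum fun v _ => (G.degree_pos_iff_exists_adj v).2 (h v)

/-- For any sequence of graphs without isolated vertices, with at least one edge, bounded max degree and vertex count tending to infinity, the limsup over t of the size Ramsey number of (G_n, tK_2) divided by t times ∣E(G_n)∣ tends to 0. -/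
theorem result :
  ∀ (k : ℕ → ℕ) (G : ∀ n, SimpleGraph (Fin (k n))),
    Filter.Tendsto k Filter.atTop Filter.atTop →
    (∃ D : ℕ, ∀ n v, ((G n).neighborSet v).ncard ≤ D) →
    (∀ n, ∃ v w, (G n).Adj v w) →
    (∀ n v, ∃ w, (G n).Adj v w) →
    ∀ ε : ℝ, 0 < ε → ∃ N : ℕ, ∀ n ≥ N, ∃ T : ℕ, ∀ t ≥ T,
      ((sInf {e : ℕ | ∃ (m : ℕ) (F : SimpleGraph (Fin m)), F.edgeSet.ncard = e ∧
          ∀ R : SimpleGraph (Fin m), R ≤ F →
            (∃ f : Fin (k n) → Fin m, Function.Injective f ∧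
                ∀ a b, (G n).Adj a b → R.Adj (f a) (f b)) ∨
            (∃ g : Fin t ⊕ Fin t → Fin m, Function.Injective g ∧
                ∀ i, F.Adj (g (Sum.inl i)) (g (Sum.inr i)) ∧
                  ¬ R.Adj (g (Sum.inl i)) (g (Sum.inr i)))} : ℕ) : ℝ)
        / ((t : ℝ) * (((G n).edgeSet.ncard : ℕ) : ℝ)) ≤ ε := by
  intro k G hk ⟨D, hD⟩ _ hiso ε hε
  set K := D + D * D + 1 with hK
  obtain ⟨q, hq⟩ := exists_nat_gt (100 * (K : ℝ) ^ 2 / ε + 1)
  have hq0 : (0 : ℝ) ≤ 100 * (K : ℝ) ^ 2 / ε := by positivity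
  have hq1 : 1 < q := by
    have : (1 : ℝ) < q := by linarith
    exact_mod_cast this
  obtain ⟨L, N, hL, hN⟩ := numerics q D K hq1
  obtain ⟨N', hN'⟩ := Filter.eventually_atTop.1
    (hk.eventually (Filter.eventually_ge_atTop (N + L * (K * (D * L) + L) + 1)))
  refine ⟨N', fun n hn => ⟨k n, fun t ht => ?_⟩⟩
  have hkn := hN' n hn
  have hn1 : 1 ≤ k n := by omega
  have hcard : Fintype.card (Fin K × Fin (5 * k n)) = K * (5 * k n) := by simp
  obtain ⟨E, hE1, hE2⟩ := exists_sparse (V := Fin K × Fin (5 * k n)) q D L (k n) (by omega)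
    (by rw [hcard]; exact Nat.mul_pos (by omega) (by omega))
    (by rw [hcard]; exact hN _ (by omega))
  rw [hcard] at hE1
  obtain ⟨m, F, hF1, hF2⟩ := host (t := t) (G n) hn1 (hD n) hK E hE2 hL (by omega)
  have hinf := Nat.sInf_le (s := {e : ℕ | ∃ (m : ℕ) (F : SimpleGraph (Fin m)),
      F.edgeSet.ncard = e ∧ ∀ R : SimpleGraph (Fin m), R ≤ F →
        (∃ f : Fin (k n) → Fin m, Function.Injective f ∧
            ∀ a b, (G n).Adj a b → R.Adj (f a) (f b)) ∨
        (∃ g : Fin t ⊕ Fin t → Fin m, Function.Injective g ∧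
            ∀ i, F.Adj (g (Sum.inl i)) (g (Sum.inr i)) ∧
              ¬ R.Adj (g (Sum.inl i)) (g (Sum.inr i)))}) ⟨m, F, rfl, hF2⟩
  have he := many_edges (G n) (hiso n)
  generalize (sInf _ : ℕ) = x at hinf ⊢
  generalize (G n).edgeSet.ncard = y at he ⊢
  have hx : x ≤ (t / k n + 1) * E.card := hinf.trans hF1
  have hc : (t / k n + 1) * k n ≤ 2 * t := by
    have := Nat.div_mul_le_self t (k n)
    have ht' : k n ≤ t := ht
    nlinarith
  have hmain : q * x ≤ 100 * K ^ 2 * (t * y) := by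
    calc q * x ≤ q * ((t / k n + 1) * E.card) := Nat.mul_le_mul_left _ hx
      _ = (t / k n + 1) * (q * E.card) := by ring
      _ ≤ (t / k n + 1) * (K * (5 * k n)) ^ 2 := Nat.mul_le_mul_left _ hE1
      _ = 25 * K ^ 2 * (((t / k n + 1) * k n) * k n) := by ring
      _ ≤ 25 * K ^ 2 * ((2 * t) * (2 * y)) :=
          Nat.mul_le_mul_left _ (Nat.mul_le_mul hc he)
      _ = 100 * K ^ 2 * (t * y) := by ring
  have hty : (0 : ℝ) < (t : ℝ) * y := by
    have h1 : 0 < t := lt_of_lt_of_le hn1 ht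
    have h2 : 0 < y := by omega
    positivity
  have hmain' : (q : ℝ) * x ≤ 100 * (K : ℝ) ^ 2 * ((t : ℝ) * y) := by exact_mod_cast hmain
  rw [div_le_iff₀ hty]
  have hqε : 100 * (K : ℝ) ^ 2 ≤ ε * q := by
    have : 100 * (K : ℝ) ^ 2 / ε ≤ q := by linarith
    rw [div_le_iff₀ hε] at this
    linarith
  have hqpos : (0 : ℝ) < q := by linarith
  have : (q : ℝ) * x ≤ q * (ε * ((t : ℝ) * y)) := by
    calc (q : ℝ) * x ≤ 100 * (K : ℝ) ^ 2 * ((t : ℝ) * y) := hmain'
      _ ≤ ε * q * ((t : ℝ) * y) := mul_le_mul_of_nonneg_right hqε hty.le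
      _ = _ := by ring
  exact le_of_mul_le_mul_left this hqpos

end Pool.Agent.S07487
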