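import Pool.Statements.S07499
-- import your own Pool.Agent.* helpers here

set_option autoImplicit false
open Pool Pool.MP_1d4c69_co

namespace Pool.Agent.S07499

/-- distance from 0 in the octahedron on Z/6 (antipode of a is a+3) -/
def nr : Fin 6 → ℕ := ![0, 1, 1, 2, 1, 1]

abbrev V : Type := Fin 6 × Fin 6 × Fin 6

def N (w : V) : ℕ := nr w.1 + nr w.2.1 + nr w.2.2

def D (x y : V) : ℕ := N (x - y)

theorem D_eq (x y : V) : D x y = nr (x.1 - y.1) + nr (x.2.1 - y.2.1) + nr (x.2.2 - y.2.2) := rfl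

theorem nr_symm : ∀ a b : Fin 6, nr (a - b) = nr (b - a) := by decide
theorem nr_self : ∀ a : Fin 6, nr (a - a) = 0 := by decide
theorem nr_zero : ∀ a b : Fin 6, nr (a - b) = 0 → a = b := by decide
theorem nr_tri : ∀ a b c : Fin 6, nr (a - c) ≤ nr (a - b) + nr (b - c) := by decide +kernel
theorem nr_step : ∀ a b : Fin 6, nr (a - b) ≠ 0 →
    ∃ c, nr (a - c) = 1 ∧ nr (c - b) + 1 = nr (a - b) := by decide +kernel
theorem nr_dom : ∀ a b c e : Fin 6, ∃ z, nr (z - a) ≤ 1 ∧ nr (z - b) ≤ 1 ∧ nr (z - c) ≤ 1 ∧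
    nr (z - e) ≤ 1 := by decide +kernel

/-- The Cartesian cube of the octahedron. -/
def G : SimpleGraph V where
  Adj x y := D x y = 1
  symm := ⟨fun x y h => by
    rw [D_eq] at h ⊢
    rw [nr_symm y.1, nr_symm y.2.1, nr_symm y.2.2]; exact h⟩
  loopless := ⟨fun x h => by rw [D_eq, nr_self, nr_self, nr_self] at h; omega⟩

theorem walk_ex : ∀ (k : ℕ) (x y : V), D x y = k → ∃ p : G.Walk x y, p.length = k := by
  intro k
  induction k with
  | zero =>
    rintro ⟨a, b, c⟩ ⟨a', b', c'⟩ h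
    rw [D_eq] at h
    simp only at h
    obtain rfl := nr_zero a a' (by omega)
    obtain rfl := nr_zero b b' (by omega)
    obtain rfl := nr_zero c c' (by omega)
    exact ⟨SimpleGraph.Walk.nil, rfl⟩
  | succ k ih =>
    rintro ⟨a, b, c⟩ ⟨a', b', c'⟩ h
    rw [D_eq] at h
    simp only at h
    have key : ∃ z : V, D (a, b, c) z = 1 ∧ D z (a', b', c') = k := by
      by_cases h1 : nr (a - a') ≠ 0
      · obtain ⟨z, h2, h3⟩ := nr_step a a' h1
        refine ⟨(z, b, c), ?_, ?_⟩ <;> rw [D_eq] <;> simp only [nr_self] <;> omega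
      by_cases h1' : nr (b - b') ≠ 0
      · obtain ⟨z, h2, h3⟩ := nr_step b b' h1'
        refine ⟨(a, z, c), ?_, ?_⟩ <;> rw [D_eq] <;> simp only [nr_self] <;> omega
      · obtain ⟨z, h2, h3⟩ := nr_step c c' (by omega)
        refine ⟨(a, b, z), ?_, ?_⟩ <;> rw [D_eq] <;> simp only [nr_self] <;> omega
    obtain ⟨z, h1, h2⟩ := key
    obtain ⟨p, hp⟩ := ih z _ h2
    exact ⟨SimpleGraph.Walk.cons (show G.Adj (a, b, c) z from h1) p, by simp [hp]⟩

theorem D_le {x y : V} (p : G.Walk x y) : D x y ≤ p.length := by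
  induction p with
  | nil => rw [D_eq, nr_self, nr_self, nr_self]; simp
  | @cons u v w h p ih =>
    have h' : D u v = 1 := h
    rw [D_eq] at h' ih ⊢
    have := nr_tri u.1 v.1 w.1
    have := nr_tri u.2.1 v.2.1 w.2.1
    have := nr_tri u.2.2 v.2.2 w.2.2
    rw [SimpleGraph.Walk.length_cons]
    omega

theorem conn : G.Connected :=
  ⟨fun x y => by obtain ⟨p, -⟩ := walk_ex _ x y rfl; exact ⟨p⟩⟩

theorem dist_eq (x y : V) : G.dist x y = D x y := by
  apply le_antisymm
  · obtain ⟨p, hp⟩ := walk_ex _ x y rfl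
    rw [← hp]; exact SimpleGraph.dist_le p
  · obtain ⟨p, hp⟩ := (conn x y).exists_walk_length_eq_dist
    rw [← hp]; exact D_le p

theorem ball0 : ∀ r : Fin 4, (Finset.univ.filter (fun w : V => N w ≤ r.val + 1)).card ≤
    51 * (r.val + 1) := by decide +kernel

theorem ball (v : V) (r : ℕ) (hr : 1 ≤ r) :
    (Finset.univ.filter (fun u : V => D u v ≤ r)).card ≤ 51 * r := by
  by_cases h : r ≤ 4
  · have h1 := ball0 ⟨r - 1, by omega⟩
    simp only [show r - 1 + 1 = r by omega] at h1
    refine le_trans (le_of_eq ?_) h1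
    exact Finset.card_equiv (Equiv.subRight v) (fun u => by simp [D])
  · refine (Finset.card_le_univ _).trans ?_
    simp only [Fintype.card_prod, Fintype.card_fin]
    omega

def M0 : Finset V := {(0, 0, 0), (3, 3, 3), (1, 1, 1)}

theorem M0_ok : ∀ v : V, (M0.filter (fun u => D v u ≤ 1)).card ≤ 1 ∧
    (M0.filter (fun u => D v u ≤ 2)).card ≤ 2 := by decide +kernel

/-- There is a finite connected graph whose largest multipacking (every radius-r ball holds at most r of its vertices) has exactly 3 vertices, while every dominating broadcast has total cost at least 5. -/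
theorem result :
    ∃ (V : Type) (_ : Fintype V) (G : SimpleGraph V),
      G.Connected ∧
      (∃ M : Finset V, M.card = 3 ∧
        ∀ v : V, ∀ r : ℕ, 1 ≤ r → (M.filter (fun u => G.dist v u ≤ r)).card ≤ r) ∧
      (∀ M : Finset V,
        (∀ v : V, ∀ r : ℕ, 1 ≤ r → (M.filter (fun u => G.dist v u ≤ r)).card ≤ r) →
        M.card ≤ 3) ∧
      (∀ f : V → ℕ, (∀ u : V, ∃ v : V, 1 ≤ f v ∧ G.dist u v ≤ f v) →
        5 ≤ ∑ v, f v) := by
  refine ⟨V, inferInstance, G, conn, ⟨M0, by decide, fun v r hr => ?_⟩, fun M hM => ?_,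
    fun f hf => ?_⟩
  · simp only [dist_eq]
    by_cases h1 : r = 1
    · subst h1; exact (M0_ok v).1
    by_cases h2 : r = 2
    · subst h2; exact (M0_ok v).2
    · exact (Finset.card_filter_le _ _).trans (le_trans (by decide : M0.card ≤ 3) (by omega))
  · by_contra hlt
    obtain ⟨T, hT, hT4⟩ := Finset.exists_subset_card_eq (s := M) (n := 4) (by omega)
    obtain ⟨x, T', hx, rfl, hT3⟩ := Finset.card_eq_succ.1 hT4
    obtain ⟨y, z, w, -, -, -, rfl⟩ := Finset.card_eq_three.1 hT3
    obtain ⟨a, a1, a2, a3, a4⟩ := nr_dom x.1 y.1 z.1 w.1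
    obtain ⟨b, b1, b2, b3, b4⟩ := nr_dom x.2.1 y.2.1 z.2.1 w.2.1
    obtain ⟨c, c1, c2, c3, c4⟩ := nr_dom x.2.2 y.2.2 z.2.2 w.2.2
    have h1 := hM (a, b, c) 3 (by norm_num)
    have h2 : insert x {y, z, w} ⊆ M.filter (fun u => G.dist (a, b, c) u ≤ 3) := by
      intro u hu
      refine Finset.mem_filter.2 ⟨hT hu, ?_⟩
      rw [dist_eq, D_eq]
      simp only [Finset.mem_insert, Finset.mem_singleton] at hu
      rcases hu with rfl | rfl | rfl | rfl <;> simp only <;> omega
    have := Finset.card_le_card h2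
    omega
  · have h1 : (Finset.univ : Finset V) ⊆ Finset.univ.biUnion
        (fun v => if 1 ≤ f v then Finset.univ.filter (fun u : V => D u v ≤ f v) else ∅) := by
      intro u _
      obtain ⟨v, h1, h2⟩ := hf u
      rw [dist_eq] at h2
      exact Finset.mem_biUnion.2 ⟨v, Finset.mem_univ _, by simp [h1, h2]⟩
    have h2 := (Finset.card_le_card h1).trans Finset.card_biUnion_le
    have h3 : ∑ v : V, (if 1 ≤ f v then Finset.univ.filter (fun u : V => D u v ≤ f v)
        else ∅).card ≤ ∑ v : V, 51 * f v := Finset.sum_le_sum fun v _ => by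
      split_ifs with h
      · exact ball v _ h
      · simp
    rw [← Finset.mul_sum] at h3
    have h4 : (Finset.univ : Finset V).card = 216 := by simp
    omega

end Pool.Agent.S07499
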