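import Pool.Statements.S07506

set_option autoImplicit false
open Pool Pool.MP_1d7c98_co Finset

namespace Pool.Agent.S07506

/-- Any 8-colouring of 12 points has at least 8 ordered monochromatic pairs of distinct points. -/
lemma mono12 (f : Fin 12 → Fin 8) :
    8 ≤ #{p : Fin 12 × Fin 12 | p.1 ≠ p.2 ∧ f p.1 = f p.2} := by
  have h1 : #{p : Fin 12 × Fin 12 | f p.1 = f p.2} = ∑ j : Fin 8, #{a | f a = j} * #{a | f a = j} := by
    rw [card_eq_sum_card_fiberwise (f := fun p : Fin 12 × Fin 12 => f p.1) (t := univ)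
      (by intro x _; simp)]
    refine sum_congr rfl fun j _ => ?_
    rw [← card_product]
    congr 1
    ext p
    simp only [mem_filter, mem_univ, true_and, mem_product]
    constructor
    · rintro ⟨h1, h2⟩; exact ⟨h2, h1 ▸ h2⟩
    · rintro ⟨h1, h2⟩; exact ⟨h1.trans h2.symm, h1⟩
  have h2 : ∑ j : Fin 8, #{a | f a = j} = 12 := by
    rw [← card_eq_sum_card_fiberwise (f := f) (s := univ) (t := univ) (by intro x _; simp)]
    simp
  have h3 : ∑ j : Fin 8, 3 * #{a | f a = j} ≤ ∑ j : Fin 8, (#{a | f a = j} * #{a | f a = j} + 2) := by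
    refine sum_le_sum fun j _ => ?_
    generalize #{a | f a = j} = x
    rcases Nat.lt_or_ge x 3 with h | h
    · interval_cases x <;> norm_num
    · nlinarith
  rw [← mul_sum, h2, sum_add_distrib, ← h1] at h3
  have h4 : #{p : Fin 12 × Fin 12 | f p.1 = f p.2} ≤
      #{p : Fin 12 × Fin 12 | p.1 ≠ p.2 ∧ f p.1 = f p.2} + 12 := by
    have h5 : #(univ.diag : Finset (Fin 12 × Fin 12)) = 12 := by rw [diag_card]; simp
    refine le_trans ?_ (Nat.add_le_add_left h5.le _)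
    refine le_trans (card_le_card ?_) (card_union_le _ _)
    intro p hp
    simp only [mem_filter, mem_univ, true_and, mem_union, mem_diag] at hp ⊢
    by_cases h : p.1 = p.2
    · exact Or.inr h
    · exact Or.inl ⟨h, hp⟩
  simp at h3
  omega

/-- Adjacency: `t` layers, each a `K12`; consecutive layers joined by seven rungs. -/
def A {t : ℕ} (x y : Fin t × Fin 12) : Prop :=
  x ≠ y ∧ (x.1 = y.1 ∨ (x.2 = y.2 ∧ x.2.val < 7 ∧
    (x.1.val + 1 = y.1.val ∨ y.1.val + 1 = x.1.val)))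

instance {t : ℕ} : DecidableRel (A (t := t)) := fun x y => by unfold A; infer_instance

lemma A_symm {t : ℕ} {x y : Fin t × Fin 12} (h : A x y) : A y x := by
  obtain ⟨h1, h2⟩ := h
  refine ⟨h1.symm, ?_⟩
  rcases h2 with h2 | ⟨h2, h3, h4⟩
  · exact Or.inl h2.symm
  · exact Or.inr ⟨h2.symm, h2 ▸ h3, h4.symm⟩

/-- Numbering of the vertices. -/
def E (t : ℕ) : Fin t × Fin 12 ≃ Fin (t * 12) := finProdFinEquiv

def G (t : ℕ) : SimpleGraph (Fin (t * 12)) where
  Adj u v := A ((E t).symm u) ((E t).symm v)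
  symm := ⟨fun _ _ h => A_symm h⟩
  loopless := ⟨fun _ h => h.1 rfl⟩

instance (t : ℕ) : DecidableRel (G t).Adj := fun u v =>
  inferInstanceAs (Decidable (A ((E t).symm u) ((E t).symm v)))

lemma G_adj (t : ℕ) (u v : Fin (t * 12)) :
    (G t).Adj u v ↔ A ((E t).symm u) ((E t).symm v) := Iff.rfl

lemma card_A (t : ℕ) :
    #{p : (Fin t × Fin 12) × (Fin t × Fin 12) | A p.1 p.2} ≤ 146 * t := by
  have h1 : #{p : (Fin t × Fin 12) × (Fin t × Fin 12) | p.1 ≠ p.2 ∧ p.1.1 = p.2.1} ≤ 132 * t := by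
    have : #((univ : Finset (Fin t)) ×ˢ (univ.offDiag : Finset (Fin 12 × Fin 12))) = 132 * t := by
      rw [card_product, offDiag_card]; simp [mul_comm]
    rw [← this]
    refine card_le_card_of_injOn (fun p => (p.1.1, (p.1.2, p.2.2))) ?_ ?_
    · rintro ⟨⟨i, a⟩, ⟨j, b⟩⟩ hp
      simp only [coe_filter, mem_univ, true_and, Set.mem_ofPred_eq] at hp
      obtain ⟨hp1, rfl⟩ := hp
      simp only [coe_product, coe_univ, coe_offDiag, Set.mem_prod, Set.mem_univ, true_and,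
        Set.mem_offDiag]
      intro hab
      exact hp1 (by rw [hab])
    · rintro ⟨⟨i, a⟩, ⟨j, b⟩⟩ hp ⟨⟨i', a'⟩, ⟨j', b'⟩⟩ hq h
      simp only [coe_filter, mem_univ, true_and, Set.mem_ofPred_eq] at hp hq
      obtain ⟨-, rfl⟩ := hp
      obtain ⟨-, rfl⟩ := hq
      simp only [Prod.mk.injEq] at h
      obtain ⟨rfl, rfl, rfl⟩ := h
      rfl
  have h7 : #((univ : Finset (Fin t)) ×ˢ ({a : Fin 12 | a.val < 7} : Finset (Fin 12))) = 7 * t := by
    have : #({a : Fin 12 | a.val < 7} : Finset (Fin 12)) = 7 := by decide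
    rw [card_product, this]; simp [mul_comm]
  have h2 : #{p : (Fin t × Fin 12) × (Fin t × Fin 12) |
      p.1.2 = p.2.2 ∧ p.1.2.val < 7 ∧ p.1.1.val + 1 = p.2.1.val} ≤ 7 * t := by
    rw [← h7]
    refine card_le_card_of_injOn (fun p => p.1) ?_ ?_
    · rintro ⟨⟨i, a⟩, ⟨j, b⟩⟩ hp
      simp only [coe_filter, mem_univ, true_and, Set.mem_ofPred_eq] at hp
      simpa using hp.2.1
    · rintro ⟨⟨i, a⟩, ⟨j, b⟩⟩ hp ⟨⟨i', a'⟩, ⟨j', b'⟩⟩ hq h
      simp only [coe_filter, mem_univ, true_and, Set.mem_ofPred_eq] at hp hq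
      obtain ⟨rfl, -, hp⟩ := hp
      obtain ⟨rfl, -, hq⟩ := hq
      simp only [Prod.mk.injEq] at h
      obtain ⟨rfl, rfl⟩ := h
      have : j = j' := Fin.ext (by omega)
      rw [this]
  have h3 : #{p : (Fin t × Fin 12) × (Fin t × Fin 12) |
      p.1.2 = p.2.2 ∧ p.1.2.val < 7 ∧ p.2.1.val + 1 = p.1.1.val} ≤ 7 * t := by
    rw [← h7]
    refine card_le_card_of_injOn (fun p => p.1) ?_ ?_
    · rintro ⟨⟨i, a⟩, ⟨j, b⟩⟩ hp
      simp only [coe_filter, mem_univ, true_and, Set.mem_ofPred_eq] at hp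
      simpa using hp.2.1
    · rintro ⟨⟨i, a⟩, ⟨j, b⟩⟩ hp ⟨⟨i', a'⟩, ⟨j', b'⟩⟩ hq h
      simp only [coe_filter, mem_univ, true_and, Set.mem_ofPred_eq] at hp hq
      obtain ⟨rfl, -, hp⟩ := hp
      obtain ⟨rfl, -, hq⟩ := hq
      simp only [Prod.mk.injEq] at h
      obtain ⟨rfl, rfl⟩ := h
      have : j = j' := Fin.ext (by omega)
      rw [this]
  have h4 := add_le_add (add_le_add h1 h2) h3
  refine le_trans ?_ (le_trans h4 (by omega))
  refine le_trans (card_le_card ?_)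
    (le_trans (card_union_le _ _) (Nat.add_le_add_right (card_union_le _ _) _))
  intro p hp
  simp only [mem_filter, mem_univ, true_and, mem_union, A] at hp ⊢
  tauto

lemma card_mono (t : ℕ) (c : Fin t × Fin 12 → Fin 8) :
    8 * t ≤ #{p : (Fin t × Fin 12) × (Fin t × Fin 12) | A p.1 p.2 ∧ c p.1 = c p.2} := by
  rw [card_eq_sum_card_fiberwise (f := fun p : (Fin t × Fin 12) × (Fin t × Fin 12) => p.1.1)
    (t := univ) (by intro x _; simp)]
  have : 8 * t = ∑ _i : Fin t, 8 := by simp [mul_comm]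
  rw [this]
  refine sum_le_sum fun i _ => le_trans (mono12 (fun a => c (i, a))) ?_
  refine card_le_card_of_injOn (fun p => ((i, p.1), (i, p.2))) ?_ ?_
  · rintro ⟨a, b⟩ hp
    simp only [coe_filter, mem_univ, true_and, Set.mem_ofPred_eq, mem_filter] at hp ⊢
    refine ⟨⟨⟨?_, Or.inl rfl⟩, hp.2⟩, trivial⟩
    intro h
    exact hp.1 (congrArg Prod.snd h)
  · rintro ⟨a, b⟩ _ ⟨a', b'⟩ _ h
    simp only [Prod.mk.injEq, true_and] at h
    obtain ⟨rfl, rfl⟩ := h
    rfl

lemma conn (t : ℕ) (ht : 0 < t) (S : Finset (Fin (t * 12))) (hS : S.card + 1 < 8) :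
    ((G t).induce ((S : Set (Fin (t * 12)))ᶜ)).Connected := by
  obtain ⟨a, ha7, ha⟩ : ∃ a : Fin 12, a.val < 7 ∧
      a ∉ S.image (fun v => ((E t).symm v : Fin t × Fin 12).2) := by
    by_contra hcon
    push Not at hcon
    have h7 : #({a : Fin 12 | a.val < 7} : Finset (Fin 12)) = 7 := by decide
    have h1 : #({a : Fin 12 | a.val < 7} : Finset (Fin 12)) ≤
        #(S.image (fun v => ((E t).symm v : Fin t × Fin 12).2)) :=
      card_le_card (fun a h => hcon a (by simpa using h))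
    have h2 := card_image_le (s := S) (f := fun v => ((E t).symm v : Fin t × Fin 12).2)
    omega
  have hmem : ∀ i : Fin t, (E t) (i, a) ∈ ((S : Set (Fin (t * 12)))ᶜ) := by
    intro i hi
    exact ha (mem_image.mpr ⟨_, hi, by simp⟩)
  have h0 : ∀ (j : ℕ) (hj : j < t),
      ((G t).induce ((S : Set (Fin (t * 12)))ᶜ)).Reachable ⟨_, hmem ⟨j, hj⟩⟩ ⟨_, hmem ⟨0, ht⟩⟩ := by
    intro j
    induction j with
    | zero => intro _; rfl
    | succ j ih =>
      intro hj
      refine SimpleGraph.Reachable.trans (SimpleGraph.Adj.reachable ?_) (ih (by omega))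
      rw [SimpleGraph.induce_adj, G_adj]
      simp only [Equiv.symm_apply_apply]
      refine ⟨?_, Or.inr ⟨rfl, ha7, Or.inr rfl⟩⟩
      intro h
      have := congrArg (fun x : Fin t × Fin 12 => x.1.val) h
      simp at this
  have h1 : ∀ u : ((S : Set (Fin (t * 12)))ᶜ : Set _),
      ((G t).induce ((S : Set (Fin (t * 12)))ᶜ)).Reachable u ⟨_, hmem ⟨0, ht⟩⟩ := by
    intro u
    let i : Fin t := ((E t).symm u.1 : Fin t × Fin 12).1
    refine SimpleGraph.Reachable.trans ?_ (h0 i.val i.isLt)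
    by_cases hu : (E t).symm u.1 = (i, a)
    · have : u = ⟨_, hmem ⟨i.val, i.isLt⟩⟩ := by
        apply Subtype.ext
        show u.1 = (E t) (i, a)
        rw [← hu]; simp
      rw [← this]
    · refine SimpleGraph.Adj.reachable ?_
      rw [SimpleGraph.induce_adj, G_adj]
      simp only [Equiv.symm_apply_apply]
      exact ⟨hu, Or.inl rfl⟩
  have : Nonempty ((S : Set (Fin (t * 12)))ᶜ : Set _) := ⟨⟨_, hmem ⟨0, ht⟩⟩⟩
  exact ⟨fun u v => (h1 u).trans (h1 v).symm⟩

/-- Counterexample with `k = 8`: a path of copies of `K12`, consecutive copies joined by a matching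
of seven edges. -/
theorem result :
    ¬ (∀ k : ℕ, 2 ≤ k → ∃ C : ℝ, ∀ n : ℕ, ∀ G : SimpleGraph (Fin n),
      (∀ S : Finset (Fin n), S.card + 1 < k →
          (G.induce ((S : Set (Fin n))ᶜ)).Connected) →
      ∃ c : Fin n → Fin k,
        ((k : ℝ) - 1) / k * (G.edgeSet.ncard : ℝ) + ((k : ℝ) - 1) / (2 * k) * (n : ℝ) - C
          ≤ ({p : Fin n × Fin n | G.Adj p.1 p.2 ∧ c p.1 ≠ c p.2}.ncard : ℝ) / 2) := by
  intro h
  obtain ⟨C, hC⟩ := h 8 (by norm_num)
  obtain ⟨t, ht⟩ := exists_nat_gt (max (8 * C) 0)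
  have ht0 : 0 < t := by
    have : (0 : ℝ) < t := lt_of_le_of_lt (le_max_right _ _) ht
    exact_mod_cast this
  have htC : 8 * C < t := lt_of_le_of_lt (le_max_left _ _) ht
  obtain ⟨c, hc⟩ := hC (t * 12) (G t) (conn t ht0)
  let e : Fin t × Fin 12 ≃ Fin (t * 12) := (E t)
  have hE : 2 * (G t).edgeSet.ncard =
      #{p : (Fin t × Fin 12) × (Fin t × Fin 12) | A p.1 p.2} := by
    rw [← SimpleGraph.coe_edgeFinset, Set.ncard_coe_finset, SimpleGraph.two_mul_card_edgeFinset]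
    symm
    refine card_equiv (e.prodCongr e) ?_
    rintro ⟨x, y⟩
    simp [G_adj, e]
  have hP : {p : Fin (t * 12) × Fin (t * 12) | (G t).Adj p.1 p.2 ∧ c p.1 ≠ c p.2}.ncard =
      #{p : (Fin t × Fin 12) × (Fin t × Fin 12) | A p.1 p.2 ∧ ¬ c (e p.1) = c (e p.2)} := by
    rw [Set.ncard_eq_toFinset_card']
    symm
    refine card_equiv (e.prodCongr e) ?_
    rintro ⟨x, y⟩
    simp [G_adj, e]
  have hsplit := card_filter_add_card_filter_not
    (s := ({p : (Fin t × Fin 12) × (Fin t × Fin 12) | A p.1 p.2} : Finset _))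
    (fun p => c (e p.1) = c (e p.2))
  rw [filter_filter, filter_filter, ← hP, ← hE] at hsplit
  have hM := card_mono t (fun x => c (e x))
  have hA := card_A t
  rw [← hE] at hA
  have h1 : {p : Fin (t * 12) × Fin (t * 12) | (G t).Adj p.1 p.2 ∧ c p.1 ≠ c p.2}.ncard + 8 * t ≤
      2 * (G t).edgeSet.ncard := by omega
  have h1' : (({p : Fin (t * 12) × Fin (t * 12) | (G t).Adj p.1 p.2 ∧ c p.1 ≠ c p.2}.ncard : ℕ) : ℝ)
      + 8 * t ≤ 2 * ((G t).edgeSet.ncard : ℝ) := by exact_mod_cast h1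
  have hA' : 2 * ((G t).edgeSet.ncard : ℝ) ≤ 146 * t := by exact_mod_cast hA
  push_cast at hc
  linarith

end Pool.Agent.S07506
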