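import Pool.Statements.S07514
import Pool.Agent.Lib.helper24.MisereTab

set_option autoImplicit false
open Pool Pool.MP_1dd9c6_co

namespace Pool.Agent.S07514

open Pool.Agent.Lib.helper24.MisereTab

def M : List (V × V) :=
  [((1, 0, 0, 0, 0), (0, 0, 0, 0, 0)), ((0, 1, 0, 0, 0), (1, 0, 0, 0, 0)),
   ((0, 1, 0, 0, 0), (0, 0, 0, 0, 0)), ((0, 0, 1, 0, 0), (1, 1, 0, 0, 0)),
   ((0, 0, 0, 1, 0), (0, 0, 1, 0, 0)), ((0, 0, 0, 1, 0), (1, 0, 0, 0, 0)),
   ((0, 0, 0, 0, 1), (0, 0, 0, 0, 0)), ((0, 0, 0, 0, 1), (0, 0, 0, 1, 0)),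
   ((0, 0, 0, 0, 1), (0, 0, 1, 0, 0)), ((0, 0, 0, 0, 1), (0, 1, 0, 0, 0))]

def T : ℕ := 782547101076651554459162166933946904438118793994815416462397802401251866067089607760841521587073631062472207271485646495883113202405149340007748991942319610550313546588095655510643719042044143273764772475632013602406813995143257942335925128576426506168901433538000684540883100100629808029806073763576103577915410

def N (c : V) : Prop := outB (0, 2, 1, 1, 1) (2, 2, 2, 2, 2) T c = true

theorem chkM : chkAll M (0, 2, 1, 1, 1) (2, 2, 2, 2, 2) T = true := by decide +kernel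

theorem red2 (t n : ℕ) (h : t ≤ n) : red t 2 (n + 2) = red t 2 n := red_add t 2 n 1 h

theorem N1 (a b c d e : ℕ) (h : 2 ≤ b) : N (a, b + 2, c, d, e) ↔ N (a, b, c, d, e) := by
  simp only [N, outB, outF, red2 _ _ h]

theorem N2 (a b c d e : ℕ) (h : 1 ≤ c) : N (a, b, c + 2, d, e) ↔ N (a, b, c, d, e) := by
  simp only [N, outB, outF, red2 _ _ h]

theorem N3 (a b c d e : ℕ) (h : 1 ≤ d) : N (a, b, c, d + 2, e) ↔ N (a, b, c, d, e) := by
  simp only [N, outB, outF, red2 _ _ h]

theorem N4 (a b c d e : ℕ) (h : 1 ≤ e) : N (a, b, c, d, e + 2) ↔ N (a, b, c, d, e) := by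
  simp only [N, outB, outF, red2 _ _ h]

theorem N5 (a e : ℕ) : N (a, 0, 0, 0, e + 2) := by
  have h1 : red 0 2 a = 0 ∨ red 0 2 a = 1 := by
    have := red_lt 0 2 a (by decide); omega
  have h2 : red 1 2 (e + 2) = 1 ∨ red 1 2 (e + 2) = 2 := by
    rw [red_eq, if_neg (by omega)]; omega
  simp only [N, outB, outF]
  rcases h1 with h1 | h1 <;> rcases h2 with h2 | h2 <;> rw [h1, h2] <;> decide +kernel

/-- The negation of the preceding statement: For any set of finite impartial games closed under sum and options with a game having a move, every maximal subgroup of its misère quotient contains the class of a misère P-position. -/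
theorem result :
    ¬ (∀ (α : Type) (opts : α → Set α) (add : α → α → α) (N : α → Prop),
      (∀ g, (opts g).Finite) →
      WellFounded (fun a b : α => a ∈ opts b) →
      (∀ g h, opts (add g h) = (fun g' => add g' h) '' opts g ∪ (fun h' => add g h') '' opts h) →
      (∀ g, N g ↔ (opts g = ∅ ∨ ∃ g' ∈ opts g, ¬ N g')) →
      (∃ g, (opts g).Nonempty) →
      ∀ E : α, (∀ Z, N (add (add E E) Z) ↔ N (add E Z)) →
        ∃ X : α, (∀ Z, N (add (add X E) Z) ↔ N (add X Z)) ∧
          (∃ Y : α, ∀ Z, N (add (add X Y) Z) ↔ N (add E Z)) ∧ ¬ N X) := by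
  intro H
  have hM : ∀ m ∈ M, sz m.1 = 1 ∧ w m.2 < w m.1 := by decide
  obtain ⟨⟨a, b, c, d, e⟩, hX, ⟨⟨a', b', c', d', e'⟩, hY⟩, hN⟩ :=
    H V (fun c => {c' | opt M c c'}) (· + ·) N (opt_fin M) (opt_wf M hM)
      (fun g h => by
        ext z
        simp only [Set.mem_setOf_eq, opt_add M hM, Set.mem_union, Set.mem_image, eq_comm])
      (fun g => by
        rw [N, out_iff M _ _ T hM (by decide) chkM, Set.eq_empty_iff_forall_notMem]
        rfl)
      ⟨(1, 0, 0, 0, 0), _, ⟨((1, 0, 0, 0, 0), (0, 0, 0, 0, 0)), by decide, le_rfl, rfl⟩⟩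
      (0, 0, 0, 0, 2)
      (by
        rintro ⟨a, b, c, d, e⟩
        simpa [show 4 + e = 2 + e + 2 by omega] using N4 a b c d (2 + e) (by omega))
  have h2 : ∀ Z : V, N ((2 * (a + a'), 2 * (b + b'), 2 * (c + c'), 2 * (d + d'), 2 * (e + e')) + Z)
      ↔ N ((0, 0, 0, 0, 2) + Z) := by
    rintro ⟨x, y, z, u, v⟩
    have e1 := hY ((a, b, c, d, e) + (a', b', c', d', e') + (x, y, z, u, v))
    have e2 := hY ((0, 0, 0, 0, 2) + (x, y, z, u, v))
    have e3 := N4 x y z u (2 + v) (by omega)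
    simp only [Prod.mk_add_mk] at e1 e2 ⊢
    ring_nf at e1 e2 e3 ⊢
    rw [e1, e2, e3]
  have hb : b = 0 := by
    by_contra hb
    have e1 := h2 (0, 2, 0, 1, 1)
    have e2 := h2 (0, 0, 0, 1, 1)
    simp only [Prod.mk_add_mk, add_zero] at e1 e2
    rw [N1 _ _ _ _ _ (by omega), e2] at e1
    revert e1
    unfold N
    decide +kernel
  have hc : c = 0 := by
    by_contra hb
    have e1 := h2 (0, 0, 2, 0, 0)
    have e2 := h2 (0, 0, 0, 0, 0)
    simp only [Prod.mk_add_mk, add_zero] at e1 e2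
    rw [N2 _ _ _ _ _ (by omega), e2] at e1
    revert e1
    unfold N
    decide +kernel
  have hd : d = 0 := by
    by_contra hb
    have e1 := h2 (0, 1, 0, 2, 0)
    have e2 := h2 (0, 1, 0, 0, 0)
    simp only [Prod.mk_add_mk, add_zero] at e1 e2
    rw [N3 _ _ _ _ _ (by omega), e2] at e1
    revert e1
    unfold N
    decide +kernel
  subst hb hc hd
  exact hN ((hX 0).1 (by simpa using N5 a e))

end Pool.Agent.S07514
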