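import Pool.Statements.S07516
-- import your own Pool.Agent.* helpers here

set_option autoImplicit false
open Matrix
open Pool Pool.MP_1debbc_co

namespace Pool.Agent.S07516

/-- The set of Rayleigh quotients of the adjacency matrix. -/
def S (H : SimpleGraph (Fin 10)) [DecidableRel H.Adj] : Set ℝ :=
  {r : ℝ | ∃ x : Fin 10 → ℝ, x ⬝ᵥ x = 1 ∧ r = x ⬝ᵥ (H.adjMatrix ℝ *ᵥ x)}

theorem bound (G : SimpleGraph (Fin 10)) [DecidableRel G.Adj] (w : Fin 10 → ℝ)
    (hw : ∀ i, 0 < w i) (μ : ℝ) (h : ∀ i, ∑ j ∈ G.neighborFinset i, w j ≤ μ * w i) :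
    ∀ r ∈ S G, r ≤ μ := by
  rintro r ⟨x, hx, rfl⟩
  have hA : ∀ i j, G.adjMatrix ℝ i j = G.adjMatrix ℝ j i := fun i j => by
    simp [SimpleGraph.adjMatrix_apply, G.adj_comm]
  have hA0 : ∀ i j, 0 ≤ G.adjMatrix ℝ i j := fun i j => by
    rw [SimpleGraph.adjMatrix_apply]; split_ifs <;> norm_num
  have h1 : x ⬝ᵥ (G.adjMatrix ℝ *ᵥ x) = ∑ i, ∑ j, G.adjMatrix ℝ i j * (x i * x j) := by
    simp only [dotProduct, mulVec, Finset.mul_sum]
    refine Finset.sum_congr rfl fun i _ => Finset.sum_congr rfl fun j _ => by ring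
  have h2 : ∀ i j, G.adjMatrix ℝ i j * (x i * x j) ≤
      G.adjMatrix ℝ i j * (x i ^ 2 / w i * w j) / 2 + G.adjMatrix ℝ j i * (x j ^ 2 / w j * w i) / 2 := by
    intro i j
    rw [← hA i j]
    have hi := hw i
    have hj := hw j
    have : x i * x j ≤ (x i ^ 2 / w i * w j) / 2 + (x j ^ 2 / w j * w i) / 2 := by
      have e : (x i ^ 2 / w i * w j) / 2 + (x j ^ 2 / w j * w i) / 2 - x i * x j
          = (x i * w j - x j * w i) ^ 2 / (2 * w i * w j) := by
        field_simp
        ring
      have : 0 ≤ (x i * w j - x j * w i) ^ 2 / (2 * w i * w j) := by positivity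
      linarith
    have := mul_le_mul_of_nonneg_left this (hA0 i j)
    linarith
  have h3 : ∑ i, ∑ j, G.adjMatrix ℝ i j * (x i * x j) ≤
      ∑ i, ∑ j, G.adjMatrix ℝ i j * (x i ^ 2 / w i * w j) := by
    calc ∑ i, ∑ j, G.adjMatrix ℝ i j * (x i * x j)
        ≤ ∑ i, ∑ j, (G.adjMatrix ℝ i j * (x i ^ 2 / w i * w j) / 2
            + G.adjMatrix ℝ j i * (x j ^ 2 / w j * w i) / 2) :=
          Finset.sum_le_sum fun i _ => Finset.sum_le_sum fun j _ => h2 i j
      _ = ∑ i, ∑ j, G.adjMatrix ℝ i j * (x i ^ 2 / w i * w j) := by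
          simp only [Finset.sum_add_distrib]
          rw [Finset.sum_comm (f := fun i j => G.adjMatrix ℝ j i * (x j ^ 2 / w j * w i) / 2)]
          simp only [← Finset.sum_div]
          ring
  have h4 : ∀ i, ∑ j, G.adjMatrix ℝ i j * (x i ^ 2 / w i * w j) ≤ μ * (x i * x i) := by
    intro i
    have e : ∑ j, G.adjMatrix ℝ i j * (x i ^ 2 / w i * w j)
        = x i ^ 2 / w i * ∑ j ∈ G.neighborFinset i, w j := by
      rw [SimpleGraph.neighborFinset_eq_filter, Finset.sum_filter, Finset.mul_sum]
      refine Finset.sum_congr rfl fun j _ => ?_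
      rw [SimpleGraph.adjMatrix_apply]; split_ifs <;> simp
    rw [e]
    have hi := hw i
    calc x i ^ 2 / w i * ∑ j ∈ G.neighborFinset i, w j ≤ x i ^ 2 / w i * (μ * w i) :=
          mul_le_mul_of_nonneg_left (h i) (by positivity)
      _ = μ * (x i * x i) := by field_simp
  rw [h1]
  refine h3.trans ((Finset.sum_le_sum fun i _ => h4 i).trans ?_)
  rw [← Finset.mul_sum]
  have : ∑ i, x i * x i = 1 := hx
  rw [this, mul_one]

/-- Every graph with degree sequence `(7^9, 5)` has spectral radius at most `6.9`. -/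
theorem upper (G : SimpleGraph (Fin 10)) [DecidableRel G.Adj] (v : Fin 10)
    (hv : G.degree v = 5) (ho : ∀ w, w ≠ v → G.degree w = 7) : ∀ r ∈ S G, r ≤ 69 / 10 := by
  classical
  set R : Finset (Fin 10) := Finset.univ.filter (fun j => j ≠ v ∧ ¬ G.Adj v j) with hR
  have hRc : R.card = 4 := by
    have e : R = Finset.univ \ insert v (G.neighborFinset v) := by
      ext j; simp [hR]
    rw [e, Finset.card_univ_sdiff, Finset.card_insert_of_notMem (by simp),
      SimpleGraph.card_neighborFinset_eq_degree, hv]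
    simp
  let w : Fin 10 → ℝ := fun j => 975 + 25 * (if j ∈ R then 1 else 0) - 250 * (if j = v then 1 else 0)
  have hs : ∀ i, ∑ j ∈ G.neighborFinset i, w j =
      975 * (G.degree i : ℝ) + 25 * (((G.neighborFinset i).filter (· ∈ R)).card : ℝ)
        - 250 * (if G.Adj i v then 1 else 0) := by
    intro i
    have e : ∑ j ∈ G.neighborFinset i, (if j = v then (1 : ℝ) else 0)
        = if G.Adj i v then 1 else 0 := by
      rw [Finset.sum_ite_eq']; simp
    simp only [w, Finset.sum_sub_distrib, Finset.sum_add_distrib, ← Finset.mul_sum, e]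
    simp only [Finset.sum_const, SimpleGraph.card_neighborFinset_eq_degree, Finset.sum_boole,
      nsmul_eq_mul]
    ring
  have h4 : ∀ i, (((G.neighborFinset i).filter (· ∈ R)).card : ℝ) ≤ 4 := by
    intro i
    have : ((G.neighborFinset i).filter (· ∈ R)).card ≤ R.card :=
      Finset.card_le_card fun j hj => (Finset.mem_filter.1 hj).2
    rw [hRc] at this
    exact_mod_cast this
  have h3 : ∀ i ∈ R, (((G.neighborFinset i).filter (· ∈ R)).card : ℝ) ≤ 3 := by
    intro i hi
    have : ((G.neighborFinset i).filter (· ∈ R)).card ≤ (R.erase i).card :=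
      Finset.card_le_card fun j hj => by
        rw [Finset.mem_filter, SimpleGraph.mem_neighborFinset] at hj
        exact Finset.mem_erase.2 ⟨hj.1.ne', hj.2⟩
    rw [Finset.card_erase_of_mem hi, hRc] at this
    exact_mod_cast this
  refine bound G w (fun i => ?_) _ (fun i => ?_)
  · simp only [w]; split_ifs <;> norm_num
  · rw [hs]
    by_cases hi : i = v
    · subst hi
      have hiR : i ∉ R := by simp [hR]
      have := h4 i
      simp only [w, hv, hiR, G.irrefl, if_false, if_true]
      push_cast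
      linarith
    · by_cases ha : G.Adj v i
      · have hiR : i ∉ R := by simp [hR, ha]
        have := h4 i
        simp only [w, ho i hi, hiR, hi, ha.symm, if_false, if_true]
        push_cast
        linarith
      · have hiR : i ∈ R := by simp [hR, ha, hi]
        have := h3 i hiR
        have ha' : ¬ G.Adj i v := fun h => ha h.symm
        simp only [w, ho i hi, hiR, hi, ha', if_false, if_true]
        push_cast
        linarith

/-- Adjacency masks: vertex `0` is pendant at `1`; on `1..9` the complement is `P_3 + 3 K_2`. -/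
def mask : Fin 10 → ℕ := ![2, 1009, 1016, 1012, 974, 974, 830, 830, 254, 254]

/-- The competitor, with degree sequence `(7^9, 1)`. -/
def H : SimpleGraph (Fin 10) := SimpleGraph.fromRel (fun u v => (mask u).testBit v = true)

instance : DecidableRel H.Adj := fun u v =>
  decidable_of_iff (u ≠ v ∧ ((mask u).testBit v = true ∨ (mask v).testBit u = true))
    (SimpleGraph.fromRel_adj (fun u v : Fin 10 => (mask u).testBit v = true) u v).symm

theorem H_conn : H.Connected := by decide +kernel

theorem H_deg : ∀ v, H.degree v ≤ 7 := by decide +kernel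

theorem H_max : H.maxDegree = 7 := by decide +kernel

theorem H_irr : ∀ d : ℕ, ¬ H.IsRegularOfDegree d := by
  intro d h
  have h0 : H.degree 0 = 1 := by decide +kernel
  have h1 : H.degree 1 = 7 := by decide +kernel
  rw [h 0] at h0; rw [h 1] at h1; omega

/-- An integer vector of norm `87`. -/
def y : Fin 10 → ℤ := ![5, 24, 31, 31, 29, 29, 29, 29, 29, 29]

theorem y1 : ∑ i, y i * y i = 7569 := by decide +kernel

theorem y2 : ∑ i, y i * ∑ j ∈ H.neighborFinset i, y j = 52274 := by decide +kernel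

theorem lower : (69 / 10 : ℝ) < sSup (S H) := by
  have hb : BddAbove (S H) := ⟨7, bound H (fun _ => 1) (fun _ => one_pos) 7 (fun i => by
    have := H_deg i
    simp only [Finset.sum_const, SimpleGraph.card_neighborFinset_eq_degree, nsmul_eq_mul, mul_one]
    exact_mod_cast this)⟩
  have hm : (52274 / 7569 : ℝ) ∈ S H := by
    refine ⟨fun i => (y i : ℝ) / 87, ?_, ?_⟩
    · have : ((∑ i, y i * y i : ℤ) : ℝ) = 7569 := by rw [y1]; norm_num
      push_cast at this
      simp only [dotProduct]
      have e : ∑ i, (y i : ℝ) / 87 * ((y i : ℝ) / 87) = (∑ i, (y i : ℝ) * y i) / 7569 := by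
        rw [Finset.sum_div]; refine Finset.sum_congr rfl fun i _ => by ring
      rw [e, this]; norm_num
    · have : ((∑ i, y i * ∑ j ∈ H.neighborFinset i, y j : ℤ) : ℝ) = 52274 := by rw [y2]; norm_num
      push_cast at this
      simp only [dotProduct, SimpleGraph.adjMatrix_mulVec_apply]
      rw [← this, Finset.sum_div]
      refine Finset.sum_congr rfl fun i _ => ?_
      rw [← Finset.sum_div]; ring
  exact lt_of_lt_of_le (by norm_num) (le_csSup hb hm)

open Classical in
/-- The admissible graphs. -/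
def P (G : SimpleGraph (Fin 10)) : Prop :=
  G.Connected ∧ G.maxDegree = 7 ∧ ∀ d : ℕ, ¬ G.IsRegularOfDegree d

open Classical in
/-- The spectral radius. -/
noncomputable def rho (G : SimpleGraph (Fin 10)) : ℝ := sSup (S G)

theorem P_of (K : SimpleGraph (Fin 10)) [inst : DecidableRel K.Adj] (h1 : K.Connected)
    (h2 : K.maxDegree = 7) (h3 : ∀ d : ℕ, ¬ K.IsRegularOfDegree d) : P K := by
  refine ⟨h1, ?_, ?_⟩
  · convert h2
  · intro d; convert h3 d

theorem rho_eq (K : SimpleGraph (Fin 10)) [inst : DecidableRel K.Adj] : rho K = sSup (S K) := by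
  unfold rho; congr

theorem exists_max : ∃ G, P G ∧ ∀ K, P K → rho K ≤ rho G := by
  obtain ⟨G, hG, hmax⟩ := Set.exists_max_image {G | P G} rho (Set.toFinite _)
    ⟨H, P_of H H_conn H_max H_irr⟩
  exact ⟨G, hG, hmax⟩

/-- The negation of the preceding statement: For 3 ≤ Δ ≤ n−2, every connected nonregular n-vertex graph of max degree Δ with the largest adjacency spectral radius among such graphs has one vertex of degree δ and all others of degree Δ. Here δ = Δ−1 if nΔ is odd, else Δ−2. -/
theorem result :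
    ¬ (∀ (n Δ : ℕ), 3 ≤ Δ → Δ ≤ n - 2 →
      ∀ (G : SimpleGraph (Fin n)) [DecidableRel G.Adj],
        G.Connected → G.maxDegree = Δ → (∀ d : ℕ, ¬ G.IsRegularOfDegree d) →
        (∀ (H : SimpleGraph (Fin n)) [DecidableRel H.Adj],
            H.Connected → H.maxDegree = Δ → (∀ d : ℕ, ¬ H.IsRegularOfDegree d) →
            sSup {r : ℝ | ∃ x : Fin n → ℝ, x ⬝ᵥ x = 1 ∧ r = x ⬝ᵥ (H.adjMatrix ℝ *ᵥ x)} ≤
              sSup {r : ℝ | ∃ x : Fin n → ℝ, x ⬝ᵥ x = 1 ∧ r = x ⬝ᵥ (G.adjMatrix ℝ *ᵥ x)}) →
        ∃ v : Fin n, G.degree v = (if Odd (n * Δ) then Δ - 1 else Δ - 2) ∧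
          ∀ w : Fin n, w ≠ v → G.degree w = Δ) := by
  intro h
  obtain ⟨G, hG, hmax⟩ := exists_max
  letI : DecidableRel G.Adj := fun _ _ => Classical.propDecidable _
  have key : ∀ (K : SimpleGraph (Fin 10)) [DecidableRel K.Adj], K.Connected → K.maxDegree = 7 →
      (∀ d : ℕ, ¬ K.IsRegularOfDegree d) → sSup (S K) ≤ sSup (S G) := by
    intro K inst h1 h2 h3
    have := hmax K (P_of K h1 h2 h3)
    rwa [rho_eq K, rho_eq G] at this
  have g2 : G.maxDegree = 7 := by convert hG.2.1
  have g3 : ∀ d : ℕ, ¬ G.IsRegularOfDegree d := by intro d; convert hG.2.2 d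
  obtain ⟨v, hv, ho⟩ := h 10 7 (by norm_num) (by norm_num) G hG.1 g2 g3 key
  have hv' : G.degree v = 5 := by rw [hv]; decide
  have h1 : sSup (S G) ≤ 69 / 10 := Real.sSup_le (upper G v hv' ho) (by norm_num)
  have h2 := key H H_conn H_max H_irr
  have h3 := lower
  linarith

end Pool.Agent.S07516
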