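import Pool.Statements.S07518
-- import your own Pool.Agent.* helpers here

set_option autoImplicit false
universe u
open Pool Pool.MP_1df3f9_co

namespace Pool.Agent.S07518

open Cardinal Set

/-- The well order of size `aleph (n+1)`. -/
abbrev Y (n : ℕ) : Type u := (aleph.{u} ((n : Ordinal.{u}) + 1)).ord.ToType

/-- Level `n` is a copy of `ℕ × Y n`. -/
def PP : Type u := Σ n : ℕ, ℕ × Y.{u} n

/-- The ordinal height of a point inside its level. -/
noncomputable def oo (p : PP.{u}) : Ordinal.{u} := Ordinal.typein (α := Y.{u} p.1) (· < ·) p.2.2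

def ple (p q : PP.{u}) : Prop :=
  q.1 + 2 ≤ p.1 ∨ (p.1 = q.1 + 1 ∧ p.2.1 < q.2.1) ∨ (p.1 = q.1 ∧ p.2.1 ≤ q.2.1 ∧ oo p ≤ oo q)

instance : PartialOrder PP.{u} where
  le := ple
  le_refl p := Or.inr (Or.inr ⟨rfl, le_rfl, le_rfl⟩)
  le_trans p q r h1 h2 := by
    rcases h1 with h1 | ⟨h1, h1'⟩ | ⟨h1, h1', h1''⟩ <;>
      rcases h2 with h2 | ⟨h2, h2'⟩ | ⟨h2, h2', h2''⟩
    · exact Or.inl (by omega)
    · exact Or.inl (by omega)
    · exact Or.inl (by omega)
    · exact Or.inl (by omega)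
    · exact Or.inl (by omega)
    · exact Or.inr (Or.inl ⟨by omega, by omega⟩)
    · exact Or.inl (by omega)
    · exact Or.inr (Or.inl ⟨by omega, by omega⟩)
    · exact Or.inr (Or.inr ⟨by omega, by omega, h1''.trans h2''⟩)
  le_antisymm p q h1 h2 := by
    rcases h1 with h1 | ⟨h1, h1'⟩ | ⟨h1, h1', h1''⟩ <;>
      rcases h2 with h2 | ⟨h2, h2'⟩ | ⟨h2, h2', h2''⟩ <;> try omega
    obtain ⟨n, a, y⟩ := p
    obtain ⟨m, b, z⟩ := q
    dsimp only at h1 h1' h2'
    subst h1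
    have e1 : a = b := le_antisymm h1' h2'
    have e2 : y = z := Ordinal.typein_injective (α := Y.{u} n) (· < ·) (le_antisymm h1'' h2'')
    subst e1 e2
    rfl

theorem le_def (p q : PP.{u}) : p ≤ q ↔
    (q.1 + 2 ≤ p.1 ∨ (p.1 = q.1 + 1 ∧ p.2.1 < q.2.1) ∨
      (p.1 = q.1 ∧ p.2.1 ≤ q.2.1 ∧ oo p ≤ oo q)) := Iff.rfl

theorem fac (A : Set PP.{u}) (hA : IsAntichain (· ≤ ·) A) : A.Finite := by
  by_contra hinf
  have hinf' : A.Infinite := hinf
  let f := hinf'.natEmbedding A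
  have hb : ∀ i, (f i).1.1 ≤ (f 0).1.1 + 1 := by
    intro i
    by_contra h
    have hne : (f i).1 ≠ (f 0).1 := by
      intro e
      rw [e] at h
      omega
    exact hA (f i).2 (f 0).2 hne (Or.inl (by omega))
  obtain ⟨i, j, hij, hle⟩ := wellQuasiOrdered_le (α := ℕ × ℕ × ℕ × Ordinal.{u})
    (fun i => ((f i).1.1, (f 0).1.1 + 1 - (f i).1.1, (f i).1.2.1, oo (f i).1))
  obtain ⟨h1, h2, h3, h4⟩ := hle
  dsimp only at h1 h2 h3 h4
  have hne : (f i).1 ≠ (f j).1 := by
    intro e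
    have := f.injective (Subtype.ext e)
    omega
  have hi := hb i
  have hj := hb j
  exact hA (f i).2 (f j).2 hne (Or.inr (Or.inr ⟨by omega, h3, h4⟩))

def col (n a : ℕ) (y : Y.{u} n) : PP.{u} := ⟨n, a, y⟩

theorem col_inj (n a : ℕ) : Function.Injective (col.{u} n a) := by
  intro y z h
  have : oo (col n a y) = oo (col n a z) := by rw [h]
  exact Ordinal.typein_injective (α := Y.{u} n) (· < ·) this

theorem mkY (n : ℕ) : #(Y.{u} n) = Order.succ (aleph.{u} n) := by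
  rw [mk_ord_toType, aleph_add_one]

theorem level_le (n : ℕ) : #{p : PP.{u} | p.1 = n} ≤ aleph.{u} ((n : Ordinal.{u}) + 1) := by
  have hsub : {p : PP.{u} | p.1 = n} ⊆ range (fun q : ℕ × Y.{u} n => col n q.1 q.2) := by
    rintro ⟨m, a, y⟩ h
    have h' : m = n := h
    subst h'
    exact ⟨(a, y), rfl⟩
  refine (mk_le_mk_of_subset hsub).trans (mk_range_le.trans ?_)
  rw [mk_prod, mk_ord_toType, lift_uzero, mk_nat, lift_aleph0,
    aleph0_mul_eq (aleph0_le_aleph _)]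

theorem claimA (C : Set PP.{u}) (hC : IsChain (· ≤ ·) C)
    (hmax : ∀ D : Set PP.{u}, IsChain (· ≤ ·) D → #↥(D \ C) ≤ #↥(C \ D)) (n a : ℕ)
    (ha : ∀ p ∈ C, p.1 = n + 1 → p.2.1 < a) :
    ¬ #{p : PP.{u} | p ∈ C ∧ p.1 = n} ≤ aleph.{u} n := by
  intro hK
  let D : Set PP.{u} := {p | p ∈ C ∧ p.1 ≠ n ∧ p.1 + 1 ≠ n} ∪ range (col n a)
  have hcmp : ∀ p ∈ C, p.1 ≠ n → p.1 + 1 ≠ n → ∀ y, p ≤ col n a y ∨ col n a y ≤ p := by
    intro p hp h1 h2 y
    by_cases h3 : p.1 = n + 1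
    · exact Or.inl (Or.inr (Or.inl ⟨h3, ha p hp h3⟩))
    · by_cases h4 : n + 2 ≤ p.1
      · exact Or.inl (Or.inl h4)
      · refine Or.inr (Or.inl ?_)
        show p.1 + 2 ≤ n
        omega
  have hD : IsChain (· ≤ ·) D := by
    rintro p (⟨hp, hp1, hp2⟩ | ⟨y, rfl⟩) q (⟨hq, hq1, hq2⟩ | ⟨z, rfl⟩) hne
    · exact hC hp hq hne
    · exact hcmp p hp hp1 hp2 z
    · exact (hcmp q hq hq1 hq2 y).symm
    · rcases le_total (oo (col n a y)) (oo (col n a z)) with h | h
      · exact Or.inl (Or.inr (Or.inr ⟨rfl, le_rfl, h⟩))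
      · exact Or.inr (Or.inr (Or.inr ⟨rfl, le_rfl, h⟩))
  have hprev : #{p : PP.{u} | p.1 + 1 = n} ≤ aleph.{u} n := by
    cases n with
    | zero =>
      have : {p : PP.{u} | p.1 + 1 = 0} = ∅ := by
        ext p
        simp
      rw [this, mk_emptyCollection]
      exact zero_le
    | succ m =>
      have : {p : PP.{u} | p.1 + 1 = m + 1} = {p : PP.{u} | p.1 = m} := by
        ext p
        simp
      rw [this]
      have := level_le.{u} m
      rwa [← Nat.cast_succ] at this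
  have h1 : C \ D ⊆ {p : PP.{u} | p ∈ C ∧ p.1 = n} ∪ {p : PP.{u} | p.1 + 1 = n} := by
    rintro p ⟨hp, hpD⟩
    by_contra h
    apply hpD
    left
    refine ⟨hp, fun e => h (Or.inl ⟨hp, e⟩), fun e => h (Or.inr e)⟩
  have h2 : #↥(C \ D) ≤ aleph.{u} n := by
    refine (mk_le_mk_of_subset h1).trans ((mk_union_le _ _).trans ?_)
    refine (add_le_add hK hprev).trans ?_
    rw [add_eq_self (aleph0_le_aleph _)]
  have h3 : range (col n a) ⊆ (D \ C) ∪ {p : PP.{u} | p ∈ C ∧ p.1 = n} := by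
    rintro p ⟨y, rfl⟩
    by_cases h : col n a y ∈ C
    · exact Or.inr ⟨h, rfl⟩
    · exact Or.inl ⟨Or.inr ⟨y, rfl⟩, h⟩
  have h4 : #(range (col.{u} n a)) ≤ aleph.{u} n := by
    refine (mk_le_mk_of_subset h3).trans ((mk_union_le _ _).trans ?_)
    refine (add_le_add ((hmax D hD).trans h2) hK).trans ?_
    rw [add_eq_self (aleph0_le_aleph _)]
  rw [mk_range_eq _ (col_inj n a), mkY] at h4
  exact absurd h4 (not_le.2 (Order.lt_succ _))

theorem claimB (C : Set PP.{u}) (hC : IsChain (· ≤ ·) C) (n : ℕ)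
    (hK : ¬ #{p : PP.{u} | p ∈ C ∧ p.1 = n} ≤ aleph.{u} n) :
    ∃ a, ∀ p ∈ C, p.1 = n → p.2.1 < a := by
  by_contra h
  push Not at h
  apply hK
  choose f hf hf1 hf2 using h
  have hy : ∀ a, ∃ y : Y.{u} n, Ordinal.typein (α := Y.{u} n) (· < ·) y = oo (f a) := by
    intro a
    have := hf1 a
    generalize f a = q at this
    obtain ⟨m, b, z⟩ := q
    dsimp only at this
    subst this
    exact ⟨z, rfl⟩
  choose g hg using hy
  have hsub : {p : PP.{u} | p ∈ C ∧ p.1 = n} ⊆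
      ⋃ a : ULift.{u} ℕ, col n a.down '' Iic (g (a.down + 1)) := by
    rintro ⟨m, a, y⟩ ⟨hp, hm⟩
    have hm' : m = n := hm
    subst hm'
    refine mem_iUnion.2 ⟨⟨a⟩, y, ?_, rfl⟩
    have e1 := hf1 (a + 1)
    have e2 := hf2 (a + 1)
    have hne : (⟨m, a, y⟩ : PP.{u}) ≠ f (a + 1) := by
      intro e
      rw [← e] at e2
      dsimp only at e2
      omega
    have hle : oo (⟨m, a, y⟩ : PP.{u}) ≤ oo (f (a + 1)) := by
      rcases hC hp (hf (a + 1)) hne with h | h
      · rcases h with h | ⟨h, _⟩ | ⟨_, _, h⟩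
        · dsimp only at h
          omega
        · dsimp only at h
          omega
        · exact h
      · rcases h with h | ⟨h, _⟩ | ⟨_, h, _⟩ <;> dsimp only at h <;> omega
    rw [← hg] at hle
    exact (Ordinal.typein_le_typein' _).1 hle
  refine (mk_le_mk_of_subset hsub).trans ((mk_iUnion_le_sum_mk).trans ?_)
  refine (sum_le_sum _ (fun _ => aleph.{u} n) ?_).trans ?_
  · intro a
    refine mk_image_le.trans ?_
    rw [← Iio_insert, ← Order.lt_succ_iff, ← aleph_add_one]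
    refine (mk_insert_le).trans_lt ?_
    exact add_lt_of_lt (aleph0_le_aleph _) (mk_Iio_ord_toType _)
      (one_lt_aleph0.trans_le (aleph0_le_aleph _))
  · rw [sum_const', mk_uLift, mk_nat, lift_aleph0, aleph0_mul_eq (aleph0_le_aleph _)]

/-- The negation of the preceding statement: Every partially ordered set with no infinite antichain has a chain C such that every chain D satisfies: the cardinality of D minus C is at most the cardinality of C minus D. -/
theorem result :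
    ¬ (∀ (P : Type u) [PartialOrder P],
      (∀ A : Set P, IsAntichain (· ≤ ·) A → A.Finite) →
      ∃ C : Set P, IsChain (· ≤ ·) C ∧
        ∀ D : Set P, IsChain (· ≤ ·) D →
          Cardinal.mk ↥(D \ C) ≤ Cardinal.mk ↥(C \ D)) := by
  intro H
  obtain ⟨C, hC, hmax⟩ := H PP.{u} fac
  have hstep : ∀ p ∈ C, ∀ q ∈ C, q.1 = p.1 + 1 → q.2.1 < p.2.1 := by
    intro p hp q hq e
    have hne : p ≠ q := by
      intro h
      rw [h] at e
      omega
    rcases hC hp hq hne with h | h <;> rcases h with h | ⟨h, h'⟩ | ⟨h, _⟩ <;> omega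
  have hbd : ∀ n, ∃ a, ∀ p ∈ C, p.1 = n → p.2.1 < a := by
    intro n
    by_cases h : ∃ p ∈ C, p.1 = n
    · obtain ⟨p, hp, rfl⟩ := h
      exact claimB C hC _ (claimA C hC hmax _ p.2.1 (fun q hq e => hstep p hp q hq e))
    · exact ⟨0, fun p hp e => absurd ⟨p, hp, e⟩ h⟩
  have hne : ∀ n, ∃ p ∈ C, p.1 = n := by
    intro n
    obtain ⟨a, ha⟩ := hbd (n + 1)
    by_contra h
    apply claimA C hC hmax n a ha
    have : {p : PP.{u} | p ∈ C ∧ p.1 = n} = ∅ := by
      ext p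
      exact ⟨fun hp => h ⟨p, hp.1, hp.2⟩, fun hp => hp.elim⟩
    rw [this, Cardinal.mk_emptyCollection]
    exact zero_le
  choose f hf hf1 using hne
  have hdec : ∀ n, (f n).2.1 + n ≤ (f 0).2.1 := by
    intro n
    induction n with
    | zero => simp
    | succ k ih =>
      have := hstep (f k) (hf k) (f (k + 1)) (hf (k + 1)) (by rw [hf1, hf1])
      omega
  have := hdec ((f 0).2.1 + 1)
  omega

end Pool.Agent.S07518
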