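import Pool.Statements.S07547

set_option autoImplicit false
open Pool Pool.MP_1ea79a_co

namespace Pool.Agent.S07547

/-- simultaneous approximation, unbounded case -/
lemma tasksA {P R : Type} [Fintype P] [Fintype R] [DecidableEq P] (u : ℕ → ℝ)
    (hu : ∀ B : ℝ, ∃ k, B < |u k|) (lam β : P → R → ℝ) (η : ℝ) (hη : 0 < η) :
    ∃ (κ : P → ℕ) (θ : R → ℝ), ∀ p ρ, lam p ρ ≠ 0 →
      ∃ z : ℤ, |θ ρ * lam p ρ * u (κ p) - β p ρ - z| < η := by
  have key : ∀ s : Finset P, ∃ (κ : P → ℕ) (θ : R → ℝ) (δ : ℝ), 0 < δ ∧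
      ∀ θ' : R → ℝ, (∀ ρ, |θ' ρ - θ ρ| < δ) → ∀ p ∈ s, ∀ ρ, lam p ρ ≠ 0 →
      ∃ z : ℤ, |θ' ρ * lam p ρ * u (κ p) - β p ρ - z| < η := by
    intro s
    induction s using Finset.induction_on with
    | empty => exact ⟨fun _ => 0, fun _ => 0, 1, one_pos, by simp⟩
    | insert p0 s hp0 ih =>
      obtain ⟨κ, θ, δ, hδ, h⟩ := ih
      obtain ⟨k, hk⟩ := hu (∑ ρ, 2 / (δ * |lam p0 ρ|))
      have hk0 : 0 < |u k| := lt_of_le_of_lt (Finset.sum_nonneg (fun ρ _ => by positivity)) hk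
      set S : ℝ := ∑ ρ, |lam p0 ρ| * |u k| + 1 with hS
      have hSpos : 0 < S := by
        have : 0 ≤ ∑ ρ, |lam p0 ρ| * |u k| := Finset.sum_nonneg (fun ρ _ => by positivity)
        linarith
      refine ⟨Function.update κ p0 k,
        fun ρ => θ ρ - Int.fract (θ ρ * lam p0 ρ * u k - β p0 ρ) / (lam p0 ρ * u k),
        min (δ / 2) (η / S), lt_min (by linarith) (by positivity), ?_⟩
      intro θ' hθ' p hp ρ hρ
      rcases Finset.mem_insert.1 hp with rfl | hp
      · refine ⟨⌊θ ρ * lam p ρ * u k - β p ρ⌋, ?_⟩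
        rw [Function.update_self]
        have h1 := (hθ' ρ).trans_le (min_le_right _ _)
        have hu0 : u k ≠ 0 := abs_pos.1 hk0
        have e : θ' ρ * lam p ρ * u k - β p ρ - (⌊θ ρ * lam p ρ * u k - β p ρ⌋ : ℤ)
            = (θ' ρ - (θ ρ - Int.fract (θ ρ * lam p ρ * u k - β p ρ) / (lam p ρ * u k))) *
              (lam p ρ * u k) := by
          rw [Int.fract]
          field_simp
          ring
        rw [e, abs_mul, abs_mul]
        have h2 : |lam p ρ| * |u k| ≤ S := by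
          have := Finset.single_le_sum (f := fun ρ => |lam p ρ| * |u k|)
            (fun ρ _ => by positivity) (Finset.mem_univ ρ)
          linarith
        have h3 : 0 < |lam p ρ| * |u k| := mul_pos (abs_pos.2 hρ) hk0
        calc _ < η / S * (|lam p ρ| * |u k|) := mul_lt_mul_of_pos_right h1 h3
          _ ≤ η / S * S := mul_le_mul_of_nonneg_left h2 (by positivity)
          _ = η := by field_simp
      · have hne : p ≠ p0 := fun e => hp0 (e ▸ hp)
        rw [Function.update_of_ne hne]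
        refine h θ' (fun σ => ?_) p hp ρ hρ
        have h1 := (hθ' σ).trans_le (min_le_left _ _)
        have h2 : |Int.fract (θ σ * lam p0 σ * u k - β p0 σ) / (lam p0 σ * u k)| ≤ δ / 2 := by
          by_cases hl : lam p0 σ = 0
          · simp [hl]; linarith
          · have hl' : 0 < |lam p0 σ| := abs_pos.2 hl
            rw [abs_div, abs_mul, abs_of_nonneg (Int.fract_nonneg _), div_le_iff₀ (by positivity)]
            have h3 := Finset.single_le_sum (f := fun ρ => 2 / (δ * |lam p0 ρ|))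
              (fun ρ _ => by positivity) (Finset.mem_univ σ)
            have h4 : 2 / (δ * |lam p0 σ|) < |u k| := h3.trans_lt hk
            rw [div_lt_iff₀ (by positivity)] at h4
            have h5 := Int.fract_lt_one (θ σ * lam p0 σ * u k - β p0 σ)
            nlinarith
        have h3 := abs_sub_le (θ' σ)
          (θ σ - Int.fract (θ σ * lam p0 σ * u k - β p0 σ) / (lam p0 σ * u k)) (θ σ)
        have h4 : θ σ - Int.fract (θ σ * lam p0 σ * u k - β p0 σ) / (lam p0 σ * u k) - θ σ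
            = -(Int.fract (θ σ * lam p0 σ * u k - β p0 σ) / (lam p0 σ * u k)) := by ring
        rw [h4, abs_neg] at h3
        linarith
  obtain ⟨κ, θ, δ, hδ, h⟩ := key Finset.univ
  exact ⟨κ, θ, fun p ρ hρ => h θ (fun _ => by simpa using hδ) p (Finset.mem_univ _) ρ hρ⟩

/-- simultaneous approximation, accumulating case -/
lemma tasksB {P R : Type} [Fintype P] [Fintype R] [DecidableEq P] (u : ℕ → ℝ)
    (hu : ∀ ε : ℝ, 0 < ε → ∃ k, u k ≠ 0 ∧ |u k| < ε) (lam β : P → R → ℝ) (η : ℝ) (hη : 0 < η) :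
    ∃ (κ : P → ℕ) (θ : R → ℝ), ∀ p ρ, lam p ρ ≠ 0 →
      ∃ z : ℤ, |θ ρ * lam p ρ * u (κ p) - β p ρ - z| < η := by
  have key : ∀ s : Finset P, ∃ (κ : P → ℕ) (D : ℝ), 0 < D ∧
      ∀ θ0 : R → ℝ, ∃ θ : R → ℝ, (∀ ρ, |θ ρ - θ0 ρ| ≤ D) ∧ ∀ p ∈ s, ∀ ρ, lam p ρ ≠ 0 →
      ∃ z : ℤ, |θ ρ * lam p ρ * u (κ p) - β p ρ - z| < η := by
    intro s
    induction s using Finset.induction_on with
    | empty => exact ⟨fun _ => 0, 1, one_pos, fun θ0 => ⟨θ0, by simp, by simp⟩⟩
    | insert p0 s hp0 ih =>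
      obtain ⟨κ, D, hD, h⟩ := ih
      set S : ℝ := ∑ ρ, |lam p0 ρ| + 1 with hS
      have hSpos : 0 < S := by
        have : 0 ≤ ∑ ρ, |lam p0 ρ| := Finset.sum_nonneg (fun ρ _ => by positivity)
        linarith
      obtain ⟨k, hu0, hk⟩ := hu (η / (D * S)) (by positivity)
      have hk0 : 0 < |u k| := abs_pos.2 hu0
      have hT : 0 ≤ ∑ ρ, 1 / (|lam p0 ρ| * |u k|) := Finset.sum_nonneg (fun ρ _ => by positivity)
      refine ⟨Function.update κ p0 k, D + ∑ ρ, 1 / (|lam p0 ρ| * |u k|), by linarith, ?_⟩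
      intro θ0
      obtain ⟨θ, hθ, hθ2⟩ := h
        (fun ρ => θ0 ρ - Int.fract (θ0 ρ * lam p0 ρ * u k - β p0 ρ) / (lam p0 ρ * u k))
      refine ⟨θ, fun σ => ?_, ?_⟩
      · have h1 := hθ σ
        have h2 : |Int.fract (θ0 σ * lam p0 σ * u k - β p0 σ) / (lam p0 σ * u k)|
            ≤ 1 / (|lam p0 σ| * |u k|) := by
          rw [abs_div, abs_mul, abs_of_nonneg (Int.fract_nonneg _)]
          exact div_le_div_of_nonneg_right (Int.fract_lt_one _).le (by positivity)
        have h5 := Finset.single_le_sum (f := fun ρ => 1 / (|lam p0 ρ| * |u k|))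
              (fun ρ _ => by positivity) (Finset.mem_univ σ)
        have h3 := abs_sub_le (θ σ)
          (θ0 σ - Int.fract (θ0 σ * lam p0 σ * u k - β p0 σ) / (lam p0 σ * u k)) (θ0 σ)
        have h4 : θ0 σ - Int.fract (θ0 σ * lam p0 σ * u k - β p0 σ) / (lam p0 σ * u k) - θ0 σ
            = -(Int.fract (θ0 σ * lam p0 σ * u k - β p0 σ) / (lam p0 σ * u k)) := by ring
        rw [h4, abs_neg] at h3
        linarith
      · intro p hp ρ hρ
        rcases Finset.mem_insert.1 hp with rfl | hp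
        · refine ⟨⌊θ0 ρ * lam p ρ * u k - β p ρ⌋, ?_⟩
          rw [Function.update_self]
          have h1 := hθ ρ
          have e : θ ρ * lam p ρ * u k - β p ρ - (⌊θ0 ρ * lam p ρ * u k - β p ρ⌋ : ℤ)
              = (θ ρ - (θ0 ρ - Int.fract (θ0 ρ * lam p ρ * u k - β p ρ) / (lam p ρ * u k))) *
                (lam p ρ * u k) := by
            rw [Int.fract]
            field_simp
            ring
          rw [e, abs_mul, abs_mul]
          have h2 : |lam p ρ| ≤ S := by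
            have := Finset.single_le_sum (f := fun ρ => |lam p ρ|)
              (fun ρ _ => by positivity) (Finset.mem_univ ρ)
            linarith
          rw [lt_div_iff₀ (by positivity)] at hk
          calc _ ≤ D * (|lam p ρ| * |u k|) := mul_le_mul_of_nonneg_right h1 (by positivity)
            _ ≤ D * (S * |u k|) := by gcongr
            _ < η := by linarith
        · have hne : p ≠ p0 := fun e => hp0 (e ▸ hp)
          rw [Function.update_of_ne hne]
          exact hθ2 p hp ρ hρ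
  obtain ⟨κ, D, hD, h⟩ := key Finset.univ
  obtain ⟨θ, -, hθ⟩ := h 0
  exact ⟨κ, θ, fun p ρ hρ => hθ p (Finset.mem_univ _) ρ hρ⟩

/-- both cases, for a strictly increasing sequence -/
lemma tasks {P R : Type} [Fintype P] [Fintype R] [DecidableEq P] (t : ℕ → ℝ)
    (ht : StrictMono t) (lam β : P → R → ℝ) (η : ℝ) (hη : 0 < η) :
    ∃ (s : ℝ) (κ : P → ℕ) (θ : R → ℝ), ∀ p ρ, lam p ρ ≠ 0 →
      ∃ z : ℤ, |θ ρ * lam p ρ * (t (κ p) - s) - β p ρ - z| < η := by
  by_cases hb : BddAbove (Set.range t)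
  · refine ⟨⨆ i, t i, tasksB (fun k => t k - ⨆ i, t i) ?_ lam β η hη⟩
    intro ε hε
    obtain ⟨k, hk⟩ := exists_lt_of_lt_ciSup (f := t) (b := (⨆ i, t i) - ε) (by linarith)
    have h1 : t (k + 1) ≤ ⨆ i, t i := le_ciSup hb _
    have h2 : t k < t (k + 1) := ht (Nat.lt_succ_self k)
    refine ⟨k, by linarith, ?_⟩
    rw [abs_lt]; constructor <;> linarith
  · refine ⟨0, tasksA (fun k => t k - 0) ?_ lam β η hη⟩
    intro B
    rw [not_bddAbove_iff] at hb
    obtain ⟨_, ⟨k, rfl⟩, hk⟩ := hb B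
    exact ⟨k, by simpa using hk.trans_le (le_abs_self _)⟩

/-- infinite Ramsey for finitely many transitive relations -/
lemma ramsey {α ι : Type} [DecidableEq ι] (r : ι → α → α → Prop)
    (hr : ∀ i a b c, r i a b → r i b c → r i a c) (s : Finset ι) :
    ∀ x : ℕ → α, (∀ p q, p < q → ∃ i ∈ s, r i (x p) (x q)) →
      ∃ (i : ι) (g : ℕ → ℕ), StrictMono g ∧ ∀ p q, p < q → r i (x (g p)) (x (g q)) := by
  induction s using Finset.induction_on with
  | empty =>
    intro x h
    simpa using h 0 1 one_pos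
  | insert i s hi ih =>
    intro x h
    have : IsTrans α (r i) := ⟨hr i⟩
    obtain ⟨g, hg | hg⟩ := exists_increasing_or_nonincreasing_subseq (r i) x
    · exact ⟨i, g, g.strictMono, hg⟩
    · obtain ⟨j, g', hg', h'⟩ := ih (fun k => x (g k)) (fun p q hpq => by
        obtain ⟨j, hj, hj'⟩ := h (g p) (g q) (g.strictMono hpq)
        rcases Finset.mem_insert.1 hj with rfl | hj
        · exact absurd hj' (hg p q hpq)
        · exact ⟨j, hj, hj'⟩)
      exact ⟨j, fun k => g (g' k), g.strictMono.comp hg', h'⟩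

lemma colouring (n m : ℕ) (a : Fin m → Fin n → ℝ) (t : ℕ → ℝ) (ht : StrictMono t) :
    ∃ (c : (Fin n → ℝ) → Fin (n + 1)) (K : ℕ), ∀ (y : ℕ → Fin n → ℝ) (i : Fin m) (c0 σ : ℝ),
      (σ = 1 ∨ σ = -1) → (∀ k ≤ K, ∑ j, a i j * y k j = c0 + σ * t k) →
      ¬ ∃ col, ∀ k, c (y k) = col := by
  classical
  have hdep : ∀ ρ : Fin (n + 1) → Fin m, ∃ g : Fin (n + 1) → ℝ,
      ∑ j, g j • a (ρ j) = 0 ∧ ∃ j, g j ≠ 0 := by
    intro ρ
    rw [← Fintype.not_linearIndependent_iff]
    intro h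
    have := h.fintype_card_le_finrank
    simp at this
  choose lam hlam j0 hj0 using hdep
  have hn : (0 : ℝ) < (n : ℝ) + 1 := by positivity
  obtain ⟨s, κ, θ, hθ⟩ := tasks (P := Fin (n + 1) × ((Fin (n + 1) → Fin m) → Fin (4 * (n + 1))))
    (R := Fin (n + 1) → Fin m) t ht (fun p ρ => lam ρ p.1)
    (fun p ρ => ((p.2 ρ : ℕ) : ℝ) / (4 * (n + 1))) (1 / (4 * (n + 1))) (by positivity)
  let E : Fin (n + 1) → ℝ → Prop := fun j e => ∀ ρ, lam ρ j ≠ 0 →
    ∃ z : ℤ, |θ ρ * lam ρ j * e - (if j = j0 ρ then 1 / 2 else 0) - z| < 1 / (2 * (n + 1))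
  have hA : ∀ x : Fin n → ℝ, ∃ j, ∀ i, ¬ E j (∑ l, a i l * x l) := by
    intro x
    by_contra hcon
    push Not at hcon
    choose ρ hρ using hcon
    have h1 : ∀ j, ∃ z : ℤ, |θ ρ * lam ρ j * (∑ l, a (ρ j) l * x l)
        - (if j = j0 ρ then 1 / 2 else 0) - z| < 1 / (2 * (n + 1)) := by
      intro j
      by_cases hl : lam ρ j = 0
      · have : j ≠ j0 ρ := fun e => hj0 ρ (e ▸ hl)
        exact ⟨0, by simp [hl, this]; positivity⟩
      · exact hρ j ρ hl
    choose z hz using h1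
    have h2 : ∑ j, θ ρ * lam ρ j * (∑ l, a (ρ j) l * x l) = 0 := by
      have h3 : ∀ l, ∑ j, lam ρ j * a (ρ j) l = 0 := by
        intro l
        have := congrFun (hlam ρ) l
        simpa [Finset.sum_apply] using this
      calc ∑ j, θ ρ * lam ρ j * (∑ l, a (ρ j) l * x l)
          = ∑ j, ∑ l, θ ρ * x l * (lam ρ j * a (ρ j) l) := by
            refine Finset.sum_congr rfl fun j _ => ?_
            rw [Finset.mul_sum]
            exact Finset.sum_congr rfl fun l _ => by ring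
        _ = ∑ l, θ ρ * x l * ∑ j, lam ρ j * a (ρ j) l := by
            rw [Finset.sum_comm]
            exact Finset.sum_congr rfl fun l _ => by rw [Finset.mul_sum]
        _ = 0 := by simp [h3]
    have h4 : |∑ j, (θ ρ * lam ρ j * (∑ l, a (ρ j) l * x l)
        - (if j = j0 ρ then 1 / 2 else 0) - z j)| < 1 / 2 := by
      refine (Finset.abs_sum_le_sum_abs _ _).trans_lt ?_
      refine (Finset.sum_lt_sum_of_nonempty Finset.univ_nonempty (fun j _ => hz j)).trans_le ?_
      simp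
      field_simp
      exact le_refl _
    rw [Finset.sum_sub_distrib, Finset.sum_sub_distrib, h2] at h4
    simp only [Finset.sum_ite_eq', Finset.mem_univ, if_true] at h4
    rw [← Int.cast_sum, abs_lt] at h4
    have h5 : (-1 : ℤ) < ∑ j, z j := by
      have : (-1 : ℝ) < ((∑ j, z j : ℤ) : ℝ) := by linarith [h4.2]
      exact_mod_cast this
    have h6 : ∑ j, z j < 0 := by
      have : ((∑ j, z j : ℤ) : ℝ) < 0 := by linarith [h4.1]
      exact_mod_cast this
    omega
  choose c hc using hA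
  refine ⟨c, Finset.univ.sup κ, ?_⟩
  rintro y i c0 σ hσ hy ⟨col, hcol⟩
  let γ : (Fin (n + 1) → Fin m) → ℝ := fun ρ =>
    σ * ((if col = j0 ρ then 1 / 2 else 0) - θ ρ * lam ρ col * (c0 + σ * s))
  have hb : ∀ ρ, ⌊(4 * (n + 1) : ℝ) * Int.fract (γ ρ)⌋₊ < 4 * (n + 1) := by
    intro ρ
    rw [Nat.floor_lt (mul_nonneg (by positivity) (Int.fract_nonneg _))]
    push_cast
    have := Int.fract_lt_one (γ ρ)
    nlinarith
  let b : (Fin (n + 1) → Fin m) → Fin (4 * (n + 1)) := fun ρ => ⟨_, hb ρ⟩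
  have hk : κ (col, b) ≤ Finset.univ.sup κ := Finset.le_sup (f := κ) (Finset.mem_univ _)
  refine hc (y (κ (col, b))) i ?_
  rw [hcol, hy _ hk]
  intro ρ hρ
  obtain ⟨z, hz⟩ := hθ (col, b) ρ hρ
  change |θ ρ * lam ρ col * (t (κ (col, b)) - s) -
    (⌊(4 * (n + 1) : ℝ) * Int.fract (γ ρ)⌋₊ : ℝ) / (4 * (n + 1)) - z| < _ at hz
  have h1 : |(⌊(4 * (n + 1) : ℝ) * Int.fract (γ ρ)⌋₊ : ℝ) / (4 * (n + 1)) - Int.fract (γ ρ)|
      < 1 / (4 * (n + 1)) := by
    have h2 := Nat.floor_le (a := (4 * (n + 1) : ℝ) * Int.fract (γ ρ))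
      (mul_nonneg (by positivity) (Int.fract_nonneg _))
    have h3 := Nat.lt_floor_add_one ((4 * (n + 1) : ℝ) * Int.fract (γ ρ))
    have e : (⌊(4 * (n + 1) : ℝ) * Int.fract (γ ρ)⌋₊ : ℝ) / (4 * (n + 1)) - Int.fract (γ ρ)
        = ((⌊(4 * (n + 1) : ℝ) * Int.fract (γ ρ)⌋₊ : ℝ) - (4 * (n + 1) : ℝ) * Int.fract (γ ρ))
          / (4 * (n + 1)) := by
      field_simp
    rw [e, abs_div, abs_of_pos (a := (4 * (n + 1) : ℝ)) (by positivity)]
    refine div_lt_div_of_pos_right ?_ (by positivity)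
    rw [abs_lt]; constructor <;> linarith
  have h4 := (abs_add_le _ _).trans_lt (add_lt_add hz h1)
  have h5 : (1 : ℝ) / (4 * (n + 1)) + 1 / (4 * (n + 1)) = 1 / (2 * (n + 1)) := by
    field_simp; ring
  rw [h5, Int.fract] at h4
  have hγ : γ ρ = σ * ((if col = j0 ρ then 1 / 2 else 0) - θ ρ * lam ρ col * (c0 + σ * s)) := rfl
  rcases hσ with rfl | rfl
  · refine ⟨z - ⌊γ ρ⌋, ?_⟩
    refine lt_of_eq_of_lt (congrArg _ ?_) h4
    push_cast
    linarith [hγ]
  · refine ⟨⌊γ ρ⌋ - z, ?_⟩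
    rw [← abs_neg]
    refine lt_of_eq_of_lt (congrArg _ ?_) h4
    push_cast
    linarith [hγ]

/-- For every polyhedral norm on R^n and every infinite set M in R^n, R^n can be coloured with n+1
colours so that no N-distance-preserving image of M is monochromatic. -/
theorem result :
    ∀ (n m : ℕ) (a : Fin m → Fin n → ℝ),
      (∀ x : Fin n → ℝ, x ≠ 0 → 0 < ⨆ i, |∑ j, a i j * x j|) →
      ∀ M : Set (Fin n → ℝ), M.Infinite →
        ∃ c : (Fin n → ℝ) → Fin (n + 1),
          ∀ f : (Fin n → ℝ) → (Fin n → ℝ),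
            (∀ x ∈ M, ∀ y ∈ M,
              (⨆ i, |∑ j, a i j * (f x j - f y j)|) =
                ⨆ i, |∑ j, a i j * (x j - y j)|) →
            ¬ ∃ k : Fin (n + 1), ∀ x ∈ M, c (f x) = k := by
  intro n m a hpos M hM
  classical
  let A : Fin m → (Fin n → ℝ) → ℝ := fun i x => ∑ j, a i j * x j
  let N : (Fin n → ℝ) → (Fin n → ℝ) → ℝ := fun x y => ⨆ i, |∑ j, a i j * (x j - y j)|
  have hAN : ∀ i x y, ∑ j, a i j * (x j - y j) = A i x - A i y := by
    intro i x y
    simp [A, mul_sub, Finset.sum_sub_distrib]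
  have hle : ∀ i x y, |A i x - A i y| ≤ N x y := by
    intro i x y
    rw [← hAN]
    exact le_ciSup (f := fun i => |∑ j, a i j * (x j - y j)|) (Finite.bddAbove_range _) i
  let e := hM.natEmbedding M
  let x : ℕ → Fin n → ℝ := fun k => (e k : Fin n → ℝ)
  have hxM : ∀ k, x k ∈ M := fun k => (e k).2
  have hxinj : Function.Injective x := fun p q h => e.injective (Subtype.ext h)
  have hNpos : ∀ u v, u ≠ v → 0 < N u v := fun u v h => hpos (u - v) (sub_ne_zero.2 h)
  have hne : Nonempty (Fin m) := by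
    by_contra h
    rw [not_nonempty_iff] at h
    have := hNpos (x 0) (x 1) (fun h => by simpa using hxinj h)
    simp [N] at this
  have hex : ∀ u v, ∃ (i : Fin m) (σ : ℝ), (σ = 1 ∨ σ = -1) ∧ σ * (A i u - A i v) = N u v := by
    intro u v
    obtain ⟨i, hi⟩ := exists_eq_ciSup_of_finite (f := fun i => |∑ j, a i j * (u j - v j)|)
    have hi' : |A i u - A i v| = N u v := by rw [← hAN]; exact hi
    rcases abs_cases (A i u - A i v) with h | h
    · exact ⟨i, 1, Or.inl rfl, by linarith [h.1]⟩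
    · exact ⟨i, -1, Or.inr rfl, by linarith [h.1]⟩
  have hle' : ∀ i (σ : ℝ), (σ = 1 ∨ σ = -1) → ∀ u v, σ * (A i u - A i v) ≤ N u v := by
    rintro i σ (rfl | rfl) u v
    · linarith [hle i u v, le_abs_self (A i u - A i v)]
    · linarith [hle i u v, neg_abs_le (A i u - A i v)]
  have htri : ∀ u v w, N u w ≤ N u v + N v w := by
    intro u v w
    obtain ⟨i, σ, hσ, h⟩ := hex u w
    have h1 := hle' i σ hσ u v
    have h2 := hle' i σ hσ v w
    linarith
  let sg : Bool → ℝ := fun b => if b then 1 else -1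
  have hsg : ∀ b, sg b = 1 ∨ sg b = -1 := by intro b; cases b <;> simp [sg]
  obtain ⟨⟨i0, b0⟩, g, hg, hr⟩ := ramsey (ι := Fin m × Bool)
    (fun i u v => sg i.2 * (A i.1 v - A i.1 u) = N v u)
    (fun i u v w h1 h2 => by
      have h3 := htri w v u
      have h4 := hle' i.1 (sg i.2) (hsg _) w u
      linarith) Finset.univ x (fun p q _ => by
      obtain ⟨i, σ, hσ, h⟩ := hex (x q) (x p)
      rcases hσ with rfl | rfl
      · exact ⟨(i, true), Finset.mem_univ _, by simpa [sg] using h⟩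
      · exact ⟨(i, false), Finset.mem_univ _, by simpa [sg] using h⟩)
  let t : ℕ → ℝ := fun k => sg b0 * A i0 (x (g k))
  have hNt : ∀ p q, p ≤ q → N (x (g q)) (x (g p)) = t q - t p := by
    intro p q hpq
    rcases hpq.eq_or_lt with rfl | hpq
    · simp [N]
    · have := hr p q hpq
      simp only [t]
      linarith
  have ht : StrictMono t := by
    intro p q hpq
    have h1 := hNt p q hpq.le
    have h2 := hNpos (x (g q)) (x (g p)) (fun h => (hg hpq).ne' (hxinj h))
    linarith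
  obtain ⟨c, K, hc⟩ := colouring n m a t ht
  refine ⟨c, ?_⟩
  rintro f hf ⟨col, hcol⟩
  have hf' : ∀ p q, p ≤ q → N (f (x (g q))) (f (x (g p))) = t q - t p := by
    intro p q hpq
    rw [← hNt p q hpq]
    exact hf _ (hxM _) _ (hxM _)
  obtain ⟨i, σ, hσ, h⟩ := hex (f (x (g K))) (f (x (g 0)))
  refine hc (fun k => f (x (g k))) i (A i (f (x (g 0))) - σ * t 0) σ hσ ?_
    ⟨col, fun k => hcol _ (hxM _)⟩
  intro k hk
  have h1 := hle' i σ hσ (f (x (g K))) (f (x (g k)))
  have h2 := hle' i σ hσ (f (x (g k))) (f (x (g 0)))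
  rw [hf' _ _ hk] at h1
  rw [hf' _ _ (Nat.zero_le _)] at h2 h
  change A i (f (x (g k))) = _
  rcases hσ with rfl | rfl <;> linarith

end Pool.Agent.S07547
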