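import Pool.Statements.S07556
import Pool.Agent.Lib.helper22.AntC

set_option autoImplicit false
open Pool Pool.MP_1f0029_co

namespace Pool.Agent.S07556

/-- The negation of the preceding statement: For all n and k: if some graph on n vertices has exactly k vertex subsets that are cliques (empty set included), then some poset on n points has exactly k subsets that are antichains (empty set included). -/
theorem result :
    ¬ (∀ n k : ℕ,
      (∃ G : SimpleGraph (Fin n),
          {s : Finset (Fin n) | G.IsClique (s : Set (Fin n))}.ncard = k) →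
      ∃ (P : Type) (_ : Fintype P) (_ : PartialOrder P),
          Fintype.card P = n ∧
          {s : Finset P | IsAntichain (· ≤ ·) (s : Set P)}.ncard = k) := by
  classical
  intro h
  obtain ⟨u, hu⟩ : ∃ u : ℕ, 2000 ≤ u := ⟨2000, le_rfl⟩
  obtain ⟨r, hs, hi, hr⟩ := Pool.Agent.Lib.helper22.AntC.graph u
  obtain ⟨P, _, _, h1, h2⟩ := h (17 * u + 3) (Pool.Agent.Lib.helper22.AntB.K u)
    ⟨⟨fun x y => x ≠ y ∧ ¬ r x y, ⟨fun x y h => ⟨h.1.symm, fun e => h.2 (hs _ _ e)⟩⟩,
      ⟨fun x h => h.1 rfl⟩⟩, by
      rw [← hr, ← Set.ncard_coe_finset]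
      congr 1
      ext S
      simp only [Set.mem_setOf_eq, Finset.mem_coe, Pool.Agent.Lib.helper22.AntA.mem_ind,
        Finset.subset_univ, true_and]
      refine ⟨fun h x hx y hy e => ?_, fun h x hx y hy hne => ⟨hne, h x hx y hy⟩⟩
      by_cases hxy : x = y
      · exact hi x (by rwa [← hxy] at e)
      · exact (h hx hy hxy).2 e⟩
  refine Pool.Agent.Lib.helper22.AntC.noposet (r := fun x y : P => x < y ∨ y < x)
    (fun _ _ => Iff.rfl) hu h1 ?_
  rw [← h2, ← Set.ncard_coe_finset]
  congr 1
  ext S
  simp only [Set.mem_setOf_eq, Finset.mem_coe, Pool.Agent.Lib.helper22.AntA.mem_ind,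
    Finset.subset_univ, true_and]
  refine ⟨fun h x hx y hy hne e => h x hx y hy (Or.inl (lt_of_le_of_ne e hne)),
    fun h x hx y hy e => ?_⟩
  rcases e with e | e
  · exact h hx hy e.ne e.le
  · exact h hy hx e.ne e.le

end Pool.Agent.S07556
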