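import Pool.Statements.S07574
-- import your own Pool.Agent.* helpers here

set_option autoImplicit false
open Pool Pool.MP_1f8616_co

namespace Pool.Agent.S07574

lemma chain_finite (C : Set (Σ n : ℕ, Fin n)) (hC : IsChain (· ≤ ·) C) : C.Finite := by
  rcases C.eq_empty_or_nonempty with rfl | ⟨x, hx⟩
  · exact Set.finite_empty
  · refine (Set.finite_range (fun i : Fin x.1 => (⟨x.1, i⟩ : Σ n : ℕ, Fin n))).subset ?_
    intro y hy
    have hfst : y.1 = x.1 := by
      by_cases hxy : x = y
      · rw [hxy]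
      · rcases hC hx hy hxy with h | h
        · exact (Sigma.le_def.1 h).1.symm
        · exact (Sigma.le_def.1 h).1
    obtain ⟨m, j⟩ := y
    simp only at hfst
    subst hfst
    exact ⟨j, rfl⟩

/-- The negation of the preceding statement: Every countable poset with no saturated chain (or its reverse) that is an ω-indexed linear sum of infinite co-wellfounded chains has, for each k≥2, k disjoint chains and a partition into antichains where each antichain A meets at least min(∣A∣,k) chains. -/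
theorem result :
    ¬ (∀ (α : Type) [PartialOrder α] [Countable α],
    (¬ ∃ C : Set α, IsChain (· ≤ ·) C ∧
        (∀ x, x ∉ C → ∀ y ∈ C, ∀ z ∈ C, y < x → x < z → ¬ IsChain (· ≤ ·) (insert x C)) ∧
        ∃ f : α → ℕ,
          ((∀ x ∈ C, ∀ y ∈ C, x ≤ y → f x ≤ f y) ∧
            ∀ i : ℕ, Set.Infinite {x | x ∈ C ∧ f x = i} ∧
              ¬ ∃ s : ℕ → α, StrictMono s ∧ ∀ n, s n ∈ C ∧ f (s n) = i) ∨
          ((∀ x ∈ C, ∀ y ∈ C, x ≤ y → f y ≤ f x) ∧
            ∀ i : ℕ, Set.Infinite {x | x ∈ C ∧ f x = i} ∧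
              ¬ ∃ s : ℕ → α, StrictAnti s ∧ ∀ n, s n ∈ C ∧ f (s n) = i)) →
    ∀ k : ℕ, 2 ≤ k →
      ∃ C : Fin k → Set α, (∀ j, IsChain (· ≤ ·) (C j)) ∧
        Pairwise (fun i j => Disjoint (C i) (C j)) ∧
        ∃ g : α → ℕ, ∀ i : ℕ, IsAntichain (· ≤ ·) {x | g x = i} ∧
          min (Set.encard {x | g x = i}) (k : ℕ∞) ≤
            Set.encard {j : Fin k | (C j ∩ {x | g x = i}).Nonempty}) := by
  intro H
  have hvac := H (Σ n : ℕ, Fin n) (by
    rintro ⟨C, hC, -, f, h | h⟩
    · exact (h.2 0).1 ((chain_finite C hC).subset (fun x hx => hx.1))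
    · exact (h.2 0).1 ((chain_finite C hC).subset (fun x hx => hx.1))) 2 le_rfl
  obtain ⟨C, hC, -, g, hg⟩ := hvac
  have hU : (⋃ j, C j).Finite := Set.finite_iUnion (fun j => chain_finite _ (hC j))
  have hrange : Set.range g ⊆ g '' (⋃ j, C j) := by
    rintro _ ⟨x, rfl⟩
    have h1 := (hg (g x)).2
    have hne : {j : Fin 2 | (C j ∩ {y | g y = g x}).Nonempty}.Nonempty := by
      by_contra hemp
      rw [Set.not_nonempty_iff_eq_empty] at hemp
      rw [hemp, Set.encard_empty, nonpos_iff_eq_zero, min_eq_zero] at h1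
      rcases h1 with h1 | h1
      · rw [Set.encard_eq_zero] at h1
        have : x ∈ {y | g y = g x} := rfl
        rw [h1] at this
        exact this
      · norm_num at h1
    obtain ⟨j, y, hy1, hy2⟩ := hne
    exact ⟨y, Set.mem_iUnion.2 ⟨j, hy1⟩, hy2⟩
  have hfin : (Set.range g).Finite := (hU.image g).subset hrange
  set N := hfin.toFinset.card with hN
  have hinj : Function.Injective (fun i : Fin (N + 1) => g ⟨N + 1, i⟩) := by
    intro a b hab
    by_contra hne
    have hanti := (hg (g ⟨N + 1, a⟩)).1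
    have hne' : (⟨N + 1, a⟩ : Σ n : ℕ, Fin n) ≠ ⟨N + 1, b⟩ := by
      intro h
      exact hne (by simpa using h)
    rcases le_total a b with h | h
    · exact hanti (show g ⟨N + 1, a⟩ = g ⟨N + 1, a⟩ from rfl) (show g ⟨N + 1, b⟩ = _ from hab.symm)
        hne' (Sigma.mk_le_mk_iff.2 h)
    · exact hanti (show g ⟨N + 1, b⟩ = _ from hab.symm) (show g ⟨N + 1, a⟩ = g ⟨N + 1, a⟩ from rfl)
        hne'.symm (Sigma.mk_le_mk_iff.2 h)
  have hcard : (Finset.univ.image (fun i : Fin (N + 1) => g ⟨N + 1, i⟩)).card ≤ N := by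
    apply Finset.card_le_card
    intro v hv
    obtain ⟨i, -, rfl⟩ := Finset.mem_image.1 hv
    simp
  rw [Finset.card_image_of_injective _ hinj] at hcard
  simp at hcard

end Pool.Agent.S07574
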