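import Pool.Statements.S07600
-- import your own Pool.Agent.* helpers here

set_option autoImplicit false
open Pool Pool.MP_2076c8_co

namespace Pool.Agent.S07600

theorem ex_lim {K : ℕ} (g : ℕ → Fin K) : ∃ y, ∀ᶠ n in (Filter.hyperfilter ℕ : Filter ℕ), g n = y := by
  obtain ⟨y, hy⟩ := Ultrafilter.eq_pure_of_finite ((Filter.hyperfilter ℕ).map g)
  refine ⟨y, ?_⟩
  have : {y} ∈ (Filter.hyperfilter ℕ).map g := by rw [hy]; simp
  exact this

theorem ev_gt (i : ℕ) : ∀ᶠ n in (Filter.hyperfilter ℕ : Filter ℕ), i < n := by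
  apply Nat.hyperfilter_le_atTop
  exact Filter.eventually_gt_atTop i

def X (s a b c d : ℕ) : ZMod (2 ^ (2 * s)) :=
  ((c : ZMod (2 ^ (2 * s))) - (b : ZMod (2 ^ (2 * s)))) +
    2 ^ s * ((d : ZMod (2 ^ (2 * s))) - (a : ZMod (2 ^ (2 * s))))

theorem two_pow_zero (s : ℕ) : (2 : ZMod (2 ^ (2 * s))) ^ s * 2 ^ s = 0 := by
  have := ZMod.natCast_self (2 ^ (2 * s))
  push_cast at this
  rw [← this]; ring

theorem dvd_int (s e : ℕ) (he : e ≤ 2 * s) (z : ℤ)
    (h : (2 : ZMod (2 ^ (2 * s))) ^ e ∣ (z : ZMod (2 ^ (2 * s)))) : (2 : ℤ) ^ e ∣ z := by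
  have h1 := map_dvd (ZMod.castHom (pow_dvd_pow 2 he) (ZMod (2 ^ e))) h
  rw [map_pow, map_intCast, map_ofNat] at h1
  have h2 : (2 : ZMod (2 ^ e)) ^ e = 0 := by
    have := ZMod.natCast_self (2 ^ e)
    push_cast at this
    exact this
  rw [h2, zero_dvd_iff, ZMod.intCast_zmod_eq_zero_iff_dvd] at h1
  exact_mod_cast h1

def av (s : ℕ) : Fin 3 → ℤ := ![1, -(1 + 2 ^ s), 1]

theorem not_dvd (s : ℕ) (hs : 2 ≤ s) (I : Finset (Fin 3)) (hI : I.Nonempty) :
    ¬ (2 : ℤ) ^ (s + 1) ∣ ∑ i ∈ I, av s i := by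
  obtain ⟨t, rfl⟩ : ∃ t, s = t + 2 := ⟨s - 2, by omega⟩
  intro h
  have h4 : (4 : ℤ) ∣ ∑ i ∈ I, av (t + 2) i := Dvd.dvd.trans ⟨2 ^ (t + 1), by ring⟩ h
  have hp : (0 : ℤ) < 2 ^ t := by positivity
  have e : (2 : ℤ) ^ (t + 2) = 4 * 2 ^ t := by ring
  have key : ¬ (2 : ℤ) ^ (t + 2 + 1) ∣ -2 ^ (t + 2) := by
    rw [dvd_neg]
    intro h
    have := Int.le_of_dvd (by positivity) h
    rw [pow_succ, e] at this
    omega
  have hI' : I = {0} ∨ I = {1} ∨ I = {2} ∨ I = {0, 1} ∨ I = {0, 2} ∨ I = {1, 2} ∨ I = {0, 1, 2} := by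
    clear h h4; revert I; decide
  rcases hI' with rfl | rfl | rfl | rfl | rfl | rfl | rfl
  · simp [av] at h4
  · simp [av, e] at h4; omega
  · simp [av] at h4
  · apply key; convert h using 1; simp [av]
  · simp [av] at h4
  · apply key; convert h using 1; simp [av]
  · simp [av, e] at h4; omega

/-- The negation of the preceding statement: For each k there is K such that, for all r and a_1..a_k in Z/2^r, with d ≤ r the largest exponent where 2^d divides some nonempty subset sum of the a_i, some K-colouring of Z/2^r makes every monochromatic solution of Σ a_i x_i = 0 have all x_i divisible by 2^(r−d). -/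
theorem result :
    ¬ (∀ k : ℕ, ∃ K : ℕ, ∀ r : ℕ, ∀ a : Fin k → ZMod (2 ^ r), ∀ d : ℕ, d ≤ r →
      (∃ I : Finset (Fin k), I.Nonempty ∧ (2 : ZMod (2 ^ r)) ^ d ∣ ∑ i ∈ I, a i) →
      (∀ d' : ℕ, d < d' → d' ≤ r → ∀ I : Finset (Fin k), I.Nonempty →
          ¬ (2 : ZMod (2 ^ r)) ^ d' ∣ ∑ i ∈ I, a i) →
      ∃ c : ZMod (2 ^ r) → Fin K, ∀ x : Fin k → ZMod (2 ^ r),
        (∀ i j, c (x i) = c (x j)) → ∑ i, a i * x i = 0 →
          ∀ i, (2 : ZMod (2 ^ r)) ^ (r - d) ∣ x i) := by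
  intro H
  obtain ⟨K, hK⟩ := H 3
  have h1 : ∀ s : ℕ, ∃ c : ZMod (2 ^ (2 * (s + 2))) → Fin K,
      ∀ x : Fin 3 → ZMod (2 ^ (2 * (s + 2))), (∀ i j, c (x i) = c (x j)) →
        ∑ i, (av (s + 2) i : ZMod (2 ^ (2 * (s + 2)))) * x i = 0 →
        ∀ i, (2 : ZMod (2 ^ (2 * (s + 2)))) ^ (2 * (s + 2) - (s + 2)) ∣ x i := by
    intro s
    apply hK (2 * (s + 2)) (fun i => (av (s + 2) i : ZMod _)) (s + 2) (by omega)
    · exact ⟨{0, 1}, by simp, ⟨-1, by simp [av]⟩⟩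
    · intro d' h1 h2 I hI h
      rw [← Int.cast_sum] at h
      exact not_dvd (s + 2) (by omega) I hI ((pow_dvd_pow 2 h1).trans (dvd_int _ _ h2 _ h))
  choose c hc using h1
  choose c4 h4 using fun a b e d : ℕ => ex_lim (fun s => c s (X (s + 2) a b e d))
  choose c3 h3 using fun a b e : ℕ => ex_lim (fun d => c4 a b e d)
  choose c2 h2 using fun a b : ℕ => ex_lim (fun e => c3 a b e)
  choose c1 h1 using fun a : ℕ => ex_lim (fun b => c2 a b)
  obtain ⟨c0, h0⟩ := ex_lim c1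
  obtain ⟨u, hu⟩ := h0.exists
  obtain ⟨i, hi1, hi2⟩ := (h0.and (h1 u)).exists
  obtain ⟨j, hj1, hj2⟩ := ((h1 i).and (h2 u i)).exists
  obtain ⟨k, hk0, hk1, hk2, hk3⟩ := ((ev_gt i).and ((h3 u i j).and ((h2 i j).and (h2 u i)))).exists
  obtain ⟨v, hv1, hv2⟩ := ((h3 i j k).and (h3 u i k)).exists
  obtain ⟨s, hs0, hs1, hs2, hs3⟩ :=
    ((ev_gt k).and ((h4 u i j k).and ((h4 u i k v).and (h4 i j k v)))).exists
  have e1 : c s (X (s + 2) u i j k) = c0 := by rw [hs1, hk1, hj2, hi2, hu]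
  have e2 : c s (X (s + 2) u i k v) = c0 := by rw [hs2, hv2, hk3, hi2, hu]
  have e3 : c s (X (s + 2) i j k v) = c0 := by rw [hs3, hv1, hk2, hj1, hi1]
  have h := hc s ![X (s + 2) u i j k, X (s + 2) u i k v, X (s + 2) i j k v]
    (by
      have : ∀ a, c s (![X (s + 2) u i j k, X (s + 2) u i k v, X (s + 2) i j k v] a) = c0 := by
        intro a; fin_cases a
        · exact e1
        · exact e2
        · exact e3
      intro a b; rw [this, this])
    (by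
      simp only [Fin.sum_univ_three, av, X]
      simp
      linear_combination (-((v : ZMod (2 ^ (2 * (s + 2)))) - u)) * two_pow_zero (s + 2)) 1
  rw [show 2 * (s + 2) - (s + 2) = s + 2 by omega] at h
  have h' : (2 : ZMod (2 ^ (2 * (s + 2)))) ^ (s + 2) ∣ (((k : ℤ) - i : ℤ) : ZMod _) := by
    have h2 : (2 : ZMod (2 ^ (2 * (s + 2)))) ^ (s + 2) ∣ X (s + 2) u i k v := h
    unfold X at h2
    push_cast
    exact (dvd_add_left (dvd_mul_right _ _)).1 h2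
  have h5 := Int.le_of_dvd (by omega) (dvd_int _ _ (by omega) _ h')
  have h6 : s + 2 < 2 ^ (s + 2) := Nat.lt_two_pow_self
  have h7 : ((s + 2 : ℕ) : ℤ) < 2 ^ (s + 2) := by exact_mod_cast h6
  omega

end Pool.Agent.S07600
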