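import Pool.Statements.S07614
-- import your own Pool.Agent.* helpers here

set_option autoImplicit false
open Pool Pool.MP_2117ab_co

namespace Pool.Agent.S07614

def col : Fin 6 → Fin 6 → Fin 3 := fun u v =>
  (![![0, 0, 0, 0, 1, 2], ![0, 0, 1, 1, 0, 2], ![0, 1, 0, 2, 1, 2], ![0, 1, 2, 0, 2, 1], ![1, 0, 1, 2, 0, 0], ![2, 2, 2, 1, 0, 0]] : Fin 6 → Fin 6 → Fin 3) u v

def T (i : Fin 3) : SimpleGraph (Fin 6) := SimpleGraph.fromRel (fun u v => col u v = i)

instance (i : Fin 3) : DecidableRel (T i).Adj := fun x y => by unfold T; infer_instance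

lemma sp {a b c : ℝ} (h1 : |a| < |c|) (h2 : |b| < |c|) :
    (a < c ∧ -a < c ∧ b < c ∧ -b < c) ∨ (a < -c ∧ -a < -c ∧ b < -c ∧ -b < -c) := by
  have := le_abs_self a; have := neg_le_abs a; have := le_abs_self b; have := neg_le_abs b
  rcases abs_cases c with h | h
  · left; refine ⟨?_, ?_, ?_, ?_⟩ <;> linarith [h.1]
  · right; refine ⟨?_, ?_, ?_, ?_⟩ <;> linarith [h.1]

lemma core (p : Fin 6 → Fin 3 → ℝ)
    (h : ∀ (i : Fin 3) (u v : Fin 6), (T i).Adj u v → ∀ j, j ≠ i → |p u j - p v j| < |p u i - p v i|) :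
    False := by
  have h0 := sp (h 0 0 1 (by decide) 1 (by decide)) (h 0 0 1 (by decide) 2 (by decide))
  have h1 := sp (h 0 0 2 (by decide) 1 (by decide)) (h 0 0 2 (by decide) 2 (by decide))
  have h2 := sp (h 0 0 3 (by decide) 1 (by decide)) (h 0 0 3 (by decide) 2 (by decide))
  have h3 := sp (h 1 0 4 (by decide) 0 (by decide)) (h 1 0 4 (by decide) 2 (by decide))
  have h4 := sp (h 2 0 5 (by decide) 0 (by decide)) (h 2 0 5 (by decide) 1 (by decide))
  have h5 := sp (h 1 1 2 (by decide) 0 (by decide)) (h 1 1 2 (by decide) 2 (by decide))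
  have h6 := sp (h 1 1 3 (by decide) 0 (by decide)) (h 1 1 3 (by decide) 2 (by decide))
  have h7 := sp (h 0 1 4 (by decide) 1 (by decide)) (h 0 1 4 (by decide) 2 (by decide))
  have h8 := sp (h 2 1 5 (by decide) 0 (by decide)) (h 2 1 5 (by decide) 1 (by decide))
  have h9 := sp (h 2 2 3 (by decide) 0 (by decide)) (h 2 2 3 (by decide) 1 (by decide))
  have h10 := sp (h 1 2 4 (by decide) 0 (by decide)) (h 1 2 4 (by decide) 2 (by decide))
  have h11 := sp (h 2 2 5 (by decide) 0 (by decide)) (h 2 2 5 (by decide) 1 (by decide))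
  have h12 := sp (h 2 3 4 (by decide) 0 (by decide)) (h 2 3 4 (by decide) 1 (by decide))
  have h13 := sp (h 1 3 5 (by decide) 0 (by decide)) (h 1 3 5 (by decide) 2 (by decide))
  have h14 := sp (h 0 4 5 (by decide) 1 (by decide)) (h 0 4 5 (by decide) 2 (by decide))
  clear h
  rcases h14 with ⟨_, _, _, _⟩ | ⟨_, _, _, _⟩
  · rcases h13 with ⟨_, _, _, _⟩ | ⟨_, _, _, _⟩
    · rcases h4 with ⟨_, _, _, _⟩ | ⟨_, _, _, _⟩
      · rcases h12 with ⟨_, _, _, _⟩ | ⟨_, _, _, _⟩
        · rcases h3 with ⟨_, _, _, _⟩ | ⟨_, _, _, _⟩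
          · linarith
          · rcases h2 with ⟨_, _, _, _⟩ | ⟨_, _, _, _⟩
            · linarith
            · linarith
        · rcases h2 with ⟨_, _, _, _⟩ | ⟨_, _, _, _⟩
          · linarith
          · rcases h3 with ⟨_, _, _, _⟩ | ⟨_, _, _, _⟩
            · linarith
            · linarith
      · rcases h12 with ⟨_, _, _, _⟩ | ⟨_, _, _, _⟩
        · rcases h2 with ⟨_, _, _, _⟩ | ⟨_, _, _, _⟩
          · linarith
          · rcases h3 with ⟨_, _, _, _⟩ | ⟨_, _, _, _⟩
            · linarith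
            · linarith
        · rcases h3 with ⟨_, _, _, _⟩ | ⟨_, _, _, _⟩
          · linarith
          · rcases h2 with ⟨_, _, _, _⟩ | ⟨_, _, _, _⟩
            · linarith
            · linarith
    · rcases h4 with ⟨_, _, _, _⟩ | ⟨_, _, _, _⟩
      · rcases h12 with ⟨_, _, _, _⟩ | ⟨_, _, _, _⟩
        · rcases h3 with ⟨_, _, _, _⟩ | ⟨_, _, _, _⟩
          · rcases h2 with ⟨_, _, _, _⟩ | ⟨_, _, _, _⟩
            · linarith
            · linarith
          · linarith
        · rcases h2 with ⟨_, _, _, _⟩ | ⟨_, _, _, _⟩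
          · linarith
          · rcases h3 with ⟨_, _, _, _⟩ | ⟨_, _, _, _⟩
            · linarith
            · linarith
      · rcases h12 with ⟨_, _, _, _⟩ | ⟨_, _, _, _⟩
        · rcases h2 with ⟨_, _, _, _⟩ | ⟨_, _, _, _⟩
          · linarith
          · rcases h3 with ⟨_, _, _, _⟩ | ⟨_, _, _, _⟩
            · linarith
            · linarith
        · rcases h3 with ⟨_, _, _, _⟩ | ⟨_, _, _, _⟩
          · rcases h2 with ⟨_, _, _, _⟩ | ⟨_, _, _, _⟩
            · linarith
            · linarith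
          · linarith
  · rcases h13 with ⟨_, _, _, _⟩ | ⟨_, _, _, _⟩
    · rcases h4 with ⟨_, _, _, _⟩ | ⟨_, _, _, _⟩
      · rcases h12 with ⟨_, _, _, _⟩ | ⟨_, _, _, _⟩
        · rcases h3 with ⟨_, _, _, _⟩ | ⟨_, _, _, _⟩
          · linarith
          · rcases h2 with ⟨_, _, _, _⟩ | ⟨_, _, _, _⟩
            · linarith
            · linarith
        · rcases h2 with ⟨_, _, _, _⟩ | ⟨_, _, _, _⟩
          · rcases h3 with ⟨_, _, _, _⟩ | ⟨_, _, _, _⟩
            · linarith
            · linarith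
          · linarith
      · rcases h12 with ⟨_, _, _, _⟩ | ⟨_, _, _, _⟩
        · rcases h2 with ⟨_, _, _, _⟩ | ⟨_, _, _, _⟩
          · rcases h3 with ⟨_, _, _, _⟩ | ⟨_, _, _, _⟩
            · linarith
            · linarith
          · linarith
        · rcases h3 with ⟨_, _, _, _⟩ | ⟨_, _, _, _⟩
          · linarith
          · rcases h2 with ⟨_, _, _, _⟩ | ⟨_, _, _, _⟩
            · linarith
            · linarith
    · rcases h4 with ⟨_, _, _, _⟩ | ⟨_, _, _, _⟩
      · rcases h12 with ⟨_, _, _, _⟩ | ⟨_, _, _, _⟩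
        · rcases h3 with ⟨_, _, _, _⟩ | ⟨_, _, _, _⟩
          · rcases h2 with ⟨_, _, _, _⟩ | ⟨_, _, _, _⟩
            · linarith
            · linarith
          · linarith
        · rcases h2 with ⟨_, _, _, _⟩ | ⟨_, _, _, _⟩
          · rcases h3 with ⟨_, _, _, _⟩ | ⟨_, _, _, _⟩
            · linarith
            · linarith
          · linarith
      · rcases h12 with ⟨_, _, _, _⟩ | ⟨_, _, _, _⟩
        · rcases h2 with ⟨_, _, _, _⟩ | ⟨_, _, _, _⟩
          · rcases h3 with ⟨_, _, _, _⟩ | ⟨_, _, _, _⟩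
            · linarith
            · linarith
          · linarith
        · rcases h3 with ⟨_, _, _, _⟩ | ⟨_, _, _, _⟩
          · rcases h2 with ⟨_, _, _, _⟩ | ⟨_, _, _, _⟩
            · linarith
            · linarith
          · linarith

lemma tree (i : Fin 3) : (T i).IsTree := by
  rw [SimpleGraph.isTree_iff_connected_and_card]
  refine ⟨by revert i; decide +kernel, ?_⟩
  have := (T i).sum_degrees_eq_twice_card_edges
  have h2 : ∑ v, (T i).degree v = 10 := by revert i; decide +kernel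
  rw [Nat.card_eq_fintype_card, Nat.card_eq_fintype_card, ← SimpleGraph.edgeFinset_card]
  simp only [Fintype.card_fin]
  omega

/-- The negation of the preceding statement: For d ≥ 3, if a finite graph is the edge-disjoint union of d spanning trees, there is a placement in R^d where each edge of tree i has coordinate i as its unique largest coordinate difference (ℓ^∞ colour i). -/
theorem result :
    ¬ (∀ (d : ℕ), 3 ≤ d →
    ∀ (V : Type) [Fintype V] (G : SimpleGraph V) (T : Fin d → SimpleGraph V),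
      (∀ i, (T i).IsTree) →
      (∀ i j, i ≠ j → Disjoint (T i) (T j)) →
      G = ⨆ i, T i →
      ∃ p : V → Fin d → ℝ, ∀ i : Fin d, ∀ u v : V, G.Adj u v →
        ((T i).Adj u v ↔ ∀ j : Fin d, j ≠ i → |p u j - p v j| < |p u i - p v i|)) := by
  intro h
  obtain ⟨p, hp⟩ := h 3 le_rfl (Fin 6) _ T tree (fun i j hij => by
    rw [SimpleGraph.disjoint_left]
    revert i j; decide +kernel) rfl
  exact core p fun i u v huv => (hp i u v (SimpleGraph.iSup_adj.2 ⟨i, huv⟩)).1 huv

end Pool.Agent.S07614
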