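import Pool.Statements.S07641
-- import your own Pool.Agent.* helpers here

set_option autoImplicit false
open Pool Pool.MP_229fa6_co

namespace Pool.Agent.S07641

def E1 (i j a a' : ℕ) : Prop :=
  a ≠ i ∧ a' ≠ j ∧ (if i < a then a - 1 else a) = (if j < a' then a' - 1 else a')

def Ed {n : ℕ} (π : Equiv.Perm (Fin n)) (u v : ℕ × ℕ) : Prop :=
  ∃ z : Fin n, E1 z (π z) u.1 v.1 ∧ E1 z (π z) u.2 v.2

def St {n : ℕ} (π : Equiv.Perm (Fin n)) (s t : Bool × ℕ × ℕ) : Prop :=
  (s.1 = false ∧ t.1 = true ∧ Ed π s.2 t.2) ∨ (s.1 = true ∧ t.1 = false ∧ Ed π t.2 s.2)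

def Cn {n : ℕ} (π : Equiv.Perm (Fin n)) (s t : Bool × ℕ × ℕ) : Prop := Relation.ReflTransGen (St π) s t

lemma Cn.symm {n : ℕ} {π : Equiv.Perm (Fin n)} {s t : Bool × ℕ × ℕ} (h : Cn π s t) : Cn π t s := by
  induction h with
  | refl => exact Relation.ReflTransGen.refl
  | tail _ h2 ih => exact Relation.ReflTransGen.head (by unfold St at *; tauto) ih

lemma Cn.tr {n : ℕ} {π : Equiv.Perm (Fin n)} {s t u : Bool × ℕ × ℕ} (h : Cn π s t) (h' : Cn π t u) :
    Cn π s u := Relation.ReflTransGen.trans h h'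

lemma ed {n : ℕ} {π : Equiv.Perm (Fin n)} (z : Fin n) (a b a' b' : ℕ)
    (h1 : E1 z (π z) a a') (h2 : E1 z (π z) b b') : Cn π (false, a, b) (true, a', b') :=
  Relation.ReflTransGen.single (Or.inl ⟨rfl, rfl, z, h1, h2⟩)

lemma flow {n : ℕ} (π : Equiv.Perm (Fin n)) (S : Fin n → Prop) (z : Fin n) (h1 : ¬ S z)
    (h2 : S (π z)) : ∃ w, S w ∧ ¬ S (π w) := by
  classical
  by_contra hh
  push Not at hh
  have := Finset.surjOn_of_injOn_of_card_le (s := Finset.univ.filter S) (t := Finset.univ.filter S) π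
    (fun x hx => by simpa using hh x (by simpa using hx)) π.injective.injOn le_rfl
  obtain ⟨w, hw, e⟩ := this (show π z ∈ ((Finset.univ.filter S : Finset _) : Set _) by simpa using h2)
  rw [π.injective e] at hw
  exact h1 (by simpa using hw)

lemma base {n : ℕ} (hn : 7 ≤ n) (π : Equiv.Perm (Fin n)) :
    ∀ b, 1 ≤ b → b < n → Cn π (false, 0, b) (true, 0, b) := by
  have two : ∀ (f : Equiv.Perm (Fin n)) (i : ℕ) (hi : i + 1 < n), ∃ z : Fin n,
      (z.val = i ∨ z.val = i + 1) ∧ (f z).val ≠ 0 := by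
    intro f i hi
    by_contra hh
    push Not at hh
    have a := hh ⟨i, by omega⟩ (Or.inl rfl)
    have b := hh ⟨i + 1, hi⟩ (Or.inr rfl)
    have := congrArg Fin.val (f.injective (Fin.ext (a.trans b.symm)))
    simp at this
  have up : ∀ b, 2 ≤ b → b + 1 < n → Cn π (false, 0, b) (true, 0, b) →
      Cn π (false, 0, b + 1) (true, 0, b + 1) := by
    intro b h1 h2 h
    obtain ⟨z, z1, z2⟩ := two π 1 (by omega)
    obtain ⟨w, w1, w2⟩ := two π.symm 1 (by omega)
    obtain ⟨w, rfl⟩ := π.surjective w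
    rw [Equiv.symm_apply_apply] at w2
    by_cases c1 : (π z).val ≤ b
    · exact ed z _ _ _ _ (by unfold E1; split_ifs <;> omega) (by unfold E1; split_ifs <;> omega)
    by_cases c2 : w.val ≤ b
    · exact ed w _ _ _ _ (by unfold E1; split_ifs <;> omega) (by unfold E1; split_ifs <;> omega)
    exact ((ed z 0 (b + 1) 0 b (by unfold E1; split_ifs <;> omega)
      (by unfold E1; split_ifs <;> omega)).tr h.symm).tr
      (ed w _ _ _ _ (by unfold E1; split_ifs <;> omega) (by unfold E1; split_ifs <;> omega))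
  have dn : ∀ b, 1 ≤ b → b + 2 < n → Cn π (false, 0, b + 1) (true, 0, b + 1) →
      Cn π (false, 0, b) (true, 0, b) := by
    intro b h1 h2 h
    obtain ⟨z, z1, z2⟩ := two π (n - 2) (by omega)
    obtain ⟨w, w1, w2⟩ := two π.symm (n - 2) (by omega)
    obtain ⟨w, rfl⟩ := π.surjective w
    rw [Equiv.symm_apply_apply] at w2
    by_cases c1 : b < (π z).val
    · exact ed z _ _ _ _ (by unfold E1; split_ifs <;> omega) (by unfold E1; split_ifs <;> omega)
    by_cases c2 : b < w.val
    · exact ed w _ _ _ _ (by unfold E1; split_ifs <;> omega) (by unfold E1; split_ifs <;> omega)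
    exact ((ed z 0 b 0 (b + 1) (by unfold E1; split_ifs <;> omega)
      (by unfold E1; split_ifs <;> omega)).tr h.symm).tr
      (ed w _ _ _ _ (by unfold E1; split_ifs <;> omega) (by unfold E1; split_ifs <;> omega))
  obtain ⟨b0, h1, h2, h3⟩ : ∃ b0, 2 ≤ b0 ∧ b0 + 2 ≤ n ∧ Cn π (false, 0, b0) (true, 0, b0) := by
    obtain ⟨z, z1, z2⟩ := two π 3 (by omega)
    by_cases c : z.val ≤ (π z).val
    · exact ⟨2, le_rfl, by omega, ed z _ _ _ _ (by unfold E1; split_ifs <;> omega)
        (by unfold E1; split_ifs <;> omega)⟩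
    · exact ⟨n - 2, by omega, by omega, ed z _ _ _ _ (by unfold E1; split_ifs <;> omega)
        (by unfold E1; split_ifs <;> omega)⟩
  intro b hb hbn
  rcases le_total b0 b with h | h
  · induction b, h using Nat.le_induction with
    | base => exact h3
    | succ b hb' ih => exact up b (by omega) hbn (ih (by omega) (by omega))
  · induction h using Nat.decreasingInduction with
    | self => exact h3
    | of_succ b hb' ih => exact dn b hb (by omega) (ih (by omega) (by omega))

lemma good {n : ℕ} (hn : 7 ≤ n) (π : Equiv.Perm (Fin n)) (a : ℕ) :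
    ∀ b, a < b → b < n → Cn π (false, a, b) (true, a, b) := by
  induction a with
  | zero => exact fun b h1 h2 => base hn π b h1 h2
  | succ a ih =>
    intro b h1 h2
    obtain ⟨b, rfl⟩ : ∃ c, b = c + 1 := ⟨b - 1, by omega⟩
    have g1 := ih b (by omega) (by omega)
    have g2 := ih (b + 1) (by omega) h2
    by_cases c : ∃ z : Fin n, z.val ≤ a ∧ a < (π z).val
    swap
    · push Not at c
      obtain ⟨z, hz⟩ : ∃ z : Fin n, z.val = 0 := ⟨⟨0, by omega⟩, rfl⟩
      have := c z (by omega)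
      exact ed z _ _ _ _ (by unfold E1; split_ifs <;> omega)
        (by unfold E1; split_ifs <;> omega)
    obtain ⟨z, z1, z2⟩ := c
    have m1 : ∀ z : Fin n, z.val ≤ a → a < (π z).val → (π z).val ≤ b →
        Cn π (false, a + 1, b + 1) (true, a, b + 1) := fun z _ _ _ =>
      ed z _ _ _ _ (by unfold E1; split_ifs <;> omega) (by unfold E1; split_ifs <;> omega)
    have m2 : ∀ z : Fin n, z.val ≤ a → b < (π z).val →
        Cn π (false, a + 1, b + 1) (true, a, b) := fun z _ _ =>
      ed z _ _ _ _ (by unfold E1; split_ifs <;> omega) (by unfold E1; split_ifs <;> omega)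
    have m3 : ∀ z : Fin n, (π z).val ≤ a → a < z.val → z.val ≤ b →
        Cn π (false, a, b + 1) (true, a + 1, b + 1) := fun z _ _ _ =>
      ed z _ _ _ _ (by unfold E1; split_ifs <;> omega) (by unfold E1; split_ifs <;> omega)
    have m4 : ∀ z : Fin n, (π z).val ≤ a → b < z.val →
        Cn π (false, a, b) (true, a + 1, b + 1) := fun z _ _ =>
      ed z _ _ _ _ (by unfold E1; split_ifs <;> omega) (by unfold E1; split_ifs <;> omega)
    by_cases d : Cn π (false, a, b) (true, a, b + 1)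
    · obtain ⟨w, w1, w2⟩ := flow π (fun x => a < x.val) z (by omega) z2
      have t1 : Cn π (false, a + 1, b + 1) (false, a, b) := by
        by_cases e : (π z).val ≤ b
        · exact (m1 z z1 z2 e).tr d.symm
        · exact (m2 z z1 (by omega)).tr g1.symm
      refine t1.tr ?_
      by_cases e : w.val ≤ b
      · exact (d.tr g2.symm).tr (m3 w (by omega) w1 e)
      · exact m4 w (by omega) (by omega)
    have n1 : ∀ w : Fin n, a < w.val → w.val ≤ b → b < (π w).val → False := fun w _ _ _ =>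
      d ((g1.tr (ed w a (b + 1) a b (by unfold E1; split_ifs <;> omega)
        (by unfold E1; split_ifs <;> omega)).symm).tr g2)
    have n2 : ∀ w : Fin n, b < w.val → a < (π w).val → (π w).val ≤ b → False := fun w _ _ _ =>
      d (ed w _ _ _ _ (by unfold E1; split_ifs <;> omega) (by unfold E1; split_ifs <;> omega))
    by_cases e : (π z).val ≤ b
    · obtain ⟨w, w1, w2⟩ := flow π (fun x => a < x.val ∧ x.val ≤ b) z (by omega) ⟨z2, e⟩
      have : ¬ b < (π w).val := n1 w w1.1 w1.2
      exact ((m1 z z1 z2 e).tr g2.symm).tr (m3 w (by omega) w1.1 w1.2)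
    · obtain ⟨w, w1, w2⟩ := flow π (fun x => b < x.val) z (by omega) (by omega)
      have : ¬ a < (π w).val := fun h => n2 w w1 h (by omega)
      exact ((m2 z z1 (by omega)).tr g1.symm).tr (m4 w (by omega) w1)

lemma walk {n : ℕ} (π : Equiv.Perm (Fin n)) (u : ℕ × ℕ) (t : Bool × ℕ × ℕ)
    (h : Cn π (false, u) t) : ∃ (m : ℕ) (P : ℕ → ℕ × ℕ), P 0 = u ∧ P m = t.2 ∧
      (t.1 = true ↔ Odd m) ∧ ∀ i < m, (Even i → Ed π (P i) (P (i + 1))) ∧
        (Odd i → Ed π (P (i + 1)) (P i)) := by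
  induction h with
  | refl => exact ⟨0, fun _ => u, rfl, rfl, by simp, fun i hi => absurd hi (by omega)⟩
  | @tail s t _ h2 ih =>
    obtain ⟨m, P, p0, pm, par, hP⟩ := ih
    refine ⟨m + 1, fun i => if i ≤ m then P i else t.2, by simp [p0], by simp, ?_, fun i hi => ?_⟩
    · rw [Nat.odd_add_one, ← par]
      rcases h2 with h | h <;> simp [h.1, h.2.1]
    · rcases Nat.lt_succ_iff_lt_or_eq.1 hi with h | rfl
      · simp only [if_pos h.le, if_pos (Nat.succ_le_of_lt h)]
        exact hP i h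
      · simp only [le_refl, if_true, if_neg (Nat.not_succ_le_self i), pm]
        rw [← Nat.not_odd_iff_even, ← par]
        rcases h2 with h | h <;> simp [h.1, h.2.2]

lemma rank {n : ℕ} (σ : Equiv.Perm (Fin n)) (z a : Fin n) :
    (Finset.univ.filter (fun e : Fin n => e ≠ z ∧ σ e < σ a)).card =
      if (σ z).val < (σ a).val then (σ a).val - 1 else (σ a).val := by
  have : (Finset.univ.filter (fun e : Fin n => e ≠ z ∧ σ e < σ a)).card =
      ((Finset.Iio (σ a)).erase (σ z)).card := by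
    apply Finset.card_bijective σ σ.bijective
    intro e; simp
  rw [this, Finset.card_erase_eq_ite, Fin.card_Iio]
  simp only [Finset.mem_Iio, Fin.lt_def]

lemma E1_lt {n i j a a' : ℕ} (hi : i < n) (hj : j < n) (h : E1 i j a a') : a < n ↔ a' < n := by
  unfold E1 at h; split_ifs at h <;> omega


/-- For all large n, any two linear orders on an n-set, and any two distinct points x,y: some alternating composite φ_{z1}, φ_{z2}⁻¹, φ_{z3}, … (odd length) of the point-deleted order isomorphisms is defined at x and y and agrees there with the full isomorphism. -/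
theorem result :
  ∃ N : ℕ, ∀ n : ℕ, N ≤ n → ∀ σ τ : Equiv.Perm (Fin n),
    ∀ R : Fin n → Fin n → Fin n → Prop,
    (∀ z a b : Fin n, R z a b ↔
      (a ≠ z ∧ b ≠ z ∧
        (Finset.univ.filter (fun e : Fin n => e ≠ z ∧ σ e < σ a)).card =
        (Finset.univ.filter (fun e : Fin n => e ≠ z ∧ τ e < τ b)).card)) →
    ∀ x y : Fin n, x ≠ y →
    ∃ k : ℕ, ∃ s : Fin (2 * k + 1) → Fin n, ∃ p q : Fin (2 * k + 1 + 1) → Fin n,
      p 0 = x ∧ q 0 = y ∧
      p (Fin.last (2 * k + 1)) = τ.symm (σ x) ∧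
      q (Fin.last (2 * k + 1)) = τ.symm (σ y) ∧
      ∀ i : Fin (2 * k + 1),
        (Even i.val →
          R (s i) (p i.castSucc) (p i.succ) ∧ R (s i) (q i.castSucc) (q i.succ)) ∧
        (Odd i.val →
          R (s i) (p i.succ) (p i.castSucc) ∧ R (s i) (q i.succ) (q i.castSucc)) := by
  refine ⟨7, fun n hn σ τ R hR => ?_⟩
  have main : ∀ x y : Fin n, σ x < σ y →
    ∃ k : ℕ, ∃ s : Fin (2 * k + 1) → Fin n, ∃ p q : Fin (2 * k + 1 + 1) → Fin n,
      p 0 = x ∧ q 0 = y ∧
      p (Fin.last (2 * k + 1)) = τ.symm (σ x) ∧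
      q (Fin.last (2 * k + 1)) = τ.symm (σ y) ∧
      ∀ i : Fin (2 * k + 1),
        (Even i.val →
          R (s i) (p i.castSucc) (p i.succ) ∧ R (s i) (q i.castSucc) (q i.succ)) ∧
        (Odd i.val →
          R (s i) (p i.succ) (p i.castSucc) ∧ R (s i) (q i.succ) (q i.castSucc)) := by
    intro x y hxy
    obtain ⟨m, P, p0, pm, par, hP⟩ := walk (σ.symm.trans τ) _ _
      (good hn (σ.symm.trans τ) (σ x) (σ y) hxy (σ y).2)
    obtain ⟨k, rfl⟩ := par.1 rfl
    have bd : ∀ i ≤ 2 * k + 1, (P i).1 < n ∧ (P i).2 < n := by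
      intro i
      induction i with
      | zero => intro _; rw [p0]; exact ⟨(σ x).2, (σ y).2⟩
      | succ i ih =>
        intro hi
        have := ih (by omega)
        rcases Nat.even_or_odd i with e | e
        · obtain ⟨z, a1, a2⟩ := (hP i hi).1 e
          exact ⟨(E1_lt (Fin.is_lt _) (Fin.is_lt _) a1).1 this.1,
            (E1_lt (Fin.is_lt _) (Fin.is_lt _) a2).1 this.2⟩
        · obtain ⟨z, a1, a2⟩ := (hP i hi).2 e
          exact ⟨(E1_lt (Fin.is_lt _) (Fin.is_lt _) a1).2 this.1,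
            (E1_lt (Fin.is_lt _) (Fin.is_lt _) a2).2 this.2⟩
    have conv : ∀ (z a b : Fin n), E1 z ((σ.symm.trans τ) z) a b →
        R (σ.symm z) (σ.symm a) (τ.symm b) := by
      intro z a b h
      rw [hR, rank, rank]
      simp only [Equiv.apply_symm_apply]
      refine ⟨fun e => h.1 (by rw [σ.symm.injective e]), fun e => h.2.1 ?_, h.2.2⟩
      rw [Equiv.trans_apply, ← e, Equiv.apply_symm_apply]
    have ex : ∀ i : Fin (2 * k + 1), ∃ z : Fin n,
        (Even i.val → E1 z ((σ.symm.trans τ) z) (P i).1 (P (i + 1)).1 ∧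
          E1 z ((σ.symm.trans τ) z) (P i).2 (P (i + 1)).2) ∧
        (Odd i.val → E1 z ((σ.symm.trans τ) z) (P (i + 1)).1 (P i).1 ∧
          E1 z ((σ.symm.trans τ) z) (P (i + 1)).2 (P i).2) := by
      intro i
      rcases Nat.even_or_odd i.val with e | e
      · obtain ⟨z, a⟩ := (hP i i.2).1 e
        exact ⟨z, fun _ => a, fun o => absurd o (Nat.not_odd_iff_even.2 e)⟩
      · obtain ⟨z, a⟩ := (hP i i.2).2 e
        exact ⟨z, fun o => absurd o (Nat.not_even_iff_odd.2 e), fun _ => a⟩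
    choose s hs using ex
    let ρ : ℕ → Equiv.Perm (Fin n) := fun i => if Even i then σ.symm else τ.symm
    refine ⟨k, fun i => σ.symm (s i), fun i => ρ i ⟨(P i).1, (bd i (by omega)).1⟩,
      fun i => ρ i ⟨(P i).2, (bd i (by omega)).2⟩, ?_, ?_, ?_, ?_, fun i => ⟨fun e => ?_, fun e => ?_⟩⟩
    · simp [ρ, p0]
    · simp [ρ, p0]
    · simp [ρ, pm]
    · simp [ρ, pm]
    · have e' : ¬ Even (i.val + 1) := by rw [Nat.even_add_one]; exact not_not.2 e
      simp only [ρ, Fin.val_castSucc, Fin.val_succ, if_pos e, if_neg e']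
      exact ⟨conv _ _ _ ((hs i).1 e).1, conv _ _ _ ((hs i).1 e).2⟩
    · have e1 : ¬ Even i.val := Nat.not_even_iff_odd.2 e
      have e' : Even (i.val + 1) := by rw [Nat.even_add_one]; exact e1
      simp only [ρ, Fin.val_castSucc, Fin.val_succ, if_pos e', if_neg e1]
      exact ⟨conv _ _ _ ((hs i).2 e).1, conv _ _ _ ((hs i).2 e).2⟩
  intro x y hxy
  rcases lt_or_gt_of_ne (σ.injective.ne hxy) with h | h
  · exact main x y h
  · obtain ⟨k, s, p, q, a1, a2, a3, a4, a5⟩ := main y x h
    exact ⟨k, s, q, p, a2, a1, a4, a3, fun i => ⟨fun e => ((a5 i).1 e).symm, fun e => ((a5 i).2 e).symm⟩⟩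

end Pool.Agent.S07641
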