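import Pool.Statements.S07661
-- import your own Pool.Agent.* helpers here

set_option autoImplicit false
open Pool Pool.MP_238aad_co

namespace Pool.Agent.S07661

theorem un {U : Ultrafilter ℕ} {A B : Set ℕ} (hA : A ∉ U) (hB : B ∉ U) : A ∪ B ∉ U := by
  rw [Ultrafilter.union_mem_iff]; tauto

theorem sub {U : Ultrafilter ℕ} {A B : Set ℕ} (h : A ⊆ B) (hB : B ∉ U) : A ∉ U :=
  fun hA => hB (Filter.mem_of_superset hA h)

theorem seq (U : Ultrafilter ℕ) (P : ℕ → Set ℕ → Set ℕ → Prop)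
    (h : ∀ t W, W ∉ U → ∃ X, X ∉ U ∧ P t W X) :
    ∃ X : ℕ → Set ℕ, ∀ t, X t ∉ U ∧ ∃ W, W ∉ U ∧ (∀ s < t, X s ⊆ W) ∧ P t W (X t) := by
  choose ch h1 h2 using h
  let W : ℕ → {A : Set ℕ // A ∉ U} := fun n =>
    Nat.rec ⟨∅, U.empty_notMem⟩ (fun t A => ⟨A.1 ∪ ch t A.1 A.2, un A.2 (h1 _ _ _)⟩) n
  have hW : ∀ t, (W (t + 1)).1 = (W t).1 ∪ ch t (W t).1 (W t).2 := fun t => rfl
  have hm : Monotone fun t => (W t).1 :=
    monotone_nat_of_le_succ fun t => by rw [hW]; exact Set.subset_union_left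
  refine ⟨fun t => ch t (W t).1 (W t).2, fun t => ⟨h1 _ _ _, (W t).1, (W t).2, fun s hs => ?_, h2 _ _ _⟩⟩
  refine subset_trans ?_ (hm (Nat.succ_le_of_lt hs))
  show _ ⊆ (W (s + 1)).1
  rw [hW]; exact Set.subset_union_right

open Classical in
noncomputable def col (Y : ℕ → Set ℕ) (n : ℕ) : Bool :=
  if h : ∃ t, t < n ∧ n ∈ Y t then !(col Y h.choose) else false
termination_by n
decreasing_by exact h.choose_spec.1

theorem col_eq (Y : ℕ → Set ℕ) (hY : ∀ s t n, n ∈ Y s → n ∈ Y t → s = t) (t n : ℕ) (h : t < n)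
    (hn : n ∈ Y t) : col Y n = !(col Y t) := by
  have h' : ∃ t, t < n ∧ n ∈ Y t := ⟨t, h, hn⟩
  rw [col, dif_pos h', hY _ _ _ h'.choose_spec.2 hn]

theorem blocker (U : Ultrafilter ℕ) (hU : ∀ n : ℕ, ({n} : Set ℕ) ∉ U) (φ : Set ℕ → Set ℕ)
    (hm : ∀ X Y, X ⊆ Y → Y ∉ U → φ X ⊆ φ Y) (hs : ∀ X, X ∉ U → φ X ∉ U) (E : Set ℕ) (hE : E ∉ U) :
    ∃ K, K ∉ U ∧ Disjoint K E ∧ ∃ t ∈ K, ∀ X, X ∉ U → Disjoint X K → t ∉ φ X := by
  by_contra hn
  push Not at hn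
  have hI : ∀ t : ℕ, Set.Iic t ∉ U := by
    intro t
    induction t with
    | zero => exact sub (fun x hx => by simpa using hx) (hU 0)
    | succ t ih =>
      refine sub (fun x hx => ?_) (un ih (hU (t + 1)))
      simp only [Set.mem_Iic, Set.mem_union, Set.mem_singleton_iff] at hx ⊢
      omega
  obtain ⟨X, hX⟩ := seq U (fun t W X => Disjoint X ((W ∪ Set.Iic t) \ E) ∧ (t ∉ E → t ∈ φ X)) (by
    intro t W hW
    by_cases ht : t ∈ E
    · exact ⟨∅, U.empty_notMem, by simp, fun h => absurd ht h⟩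
    obtain ⟨X, h1, h2, h3⟩ := hn ((W ∪ Set.Iic t) \ E) (sub Set.sdiff_subset (un hW (hI t)))
      Set.disjoint_sdiff_left t ⟨Or.inr (le_refl t), ht⟩
    exact ⟨X, h1, h2, fun _ => h3⟩)
  let Y : ℕ → Set ℕ := fun t => X t \ E
  have hY0 : ∀ s t n, s < t → n ∈ Y s → n ∈ Y t → False := by
    intro s t n hst h1 h2
    obtain ⟨-, W, -, hW, hd, -⟩ := hX t
    exact Set.disjoint_left.1 hd h2.1 ⟨Or.inl (hW s hst h1.1), h1.2⟩
  have hY : ∀ s t n, n ∈ Y s → n ∈ Y t → s = t := by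
    intro s t n h1 h2
    rcases lt_trichotomy s t with h | h | h
    · exact (hY0 s t n h h1 h2).elim
    · exact h
    · exact (hY0 t s n h h2 h1).elim
  have hlt : ∀ t n, n ∈ Y t → t < n := by
    intro t n h
    obtain ⟨-, W, -, -, hd, -⟩ := hX t
    by_contra hc
    exact Set.disjoint_left.1 hd h.1 ⟨Or.inr (not_lt.1 hc), h.2⟩
  obtain ⟨b, hb⟩ : ∃ b : Bool, {n | col Y n = !b} ∉ U ∧ {n | col Y n = b} ∈ U := by
    by_cases h : {n | col Y n = true} ∈ U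
    · refine ⟨true, ?_, h⟩
      rw [← Ultrafilter.compl_mem_iff_notMem]
      convert h using 1; ext n; simp
    · refine ⟨false, h, ?_⟩
      rw [← Ultrafilter.compl_mem_iff_notMem] at h
      convert h using 1; ext n; simp
  have hZ : (E ∪ ⋃ t ∈ {n | col Y n = b}, X t) ∉ U := by
    refine sub ?_ (un hE hb.1)
    rintro n (h | h)
    · exact Or.inl h
    by_cases hnE : n ∈ E
    · exact Or.inl hnE
    simp only [Set.mem_iUnion, Set.mem_ofPred_eq] at h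
    obtain ⟨t, ht, hnt⟩ := h
    right
    show col Y n = !b
    rw [col_eq Y hY t n (hlt t n ⟨hnt, hnE⟩) ⟨hnt, hnE⟩, ht]
  apply un hE (hs _ hZ)
  refine Filter.mem_of_superset hb.2 fun t ht => ?_
  by_cases htE : t ∈ E
  · exact Or.inl htE
  right
  obtain ⟨-, W, -, -, -, h⟩ := hX t
  refine hm _ _ ?_ hZ (h htE)
  exact fun n hn => Or.inr (Set.mem_biUnion ht hn)

theorem blocks (U : Ultrafilter ℕ) (hU : ∀ n : ℕ, ({n} : Set ℕ) ∉ U) (φ : Set ℕ → Set ℕ)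
    (hm : ∀ X Y, X ⊆ Y → Y ∉ U → φ X ⊆ φ Y) (hs : ∀ X, X ∉ U → φ X ∉ U) :
    ∃ (d : ℕ → ℕ) (E : Set ℕ), E ∉ U ∧ (∀ s, d s ∈ E) ∧
      ∀ s X, X ∉ U → s ∉ X → d s ∉ φ ((X \ E) ∪ d '' X) := by
  obtain ⟨K, hK⟩ := seq U
    (fun _ W K => Disjoint K W ∧ ∃ t ∈ K, ∀ X, X ∉ U → Disjoint X K → t ∉ φ X)
    (fun _ W hW => blocker U hU φ hm hs W hW)
  have hd0 : ∀ s t n, s < t → n ∈ K s → n ∈ K t → False := by
    intro s t n hst h1 h2
    obtain ⟨-, W, -, hW, hd, -⟩ := hK t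
    exact Set.disjoint_left.1 hd h2 (hW s hst h1)
  have hd : ∀ s t n, n ∈ K s → n ∈ K t → s = t := by
    intro s t n h1 h2
    rcases lt_trichotomy s t with h | h | h
    · exact (hd0 s t n h h1 h2).elim
    · exact h
    · exact (hd0 t s n h h2 h1).elim
  have ht : ∀ j, ∃ t ∈ K j, ∀ X, X ∉ U → Disjoint X (K j) → t ∉ φ X := fun j =>
    let ⟨_, _, _, _, _, h⟩ := hK j; h
  choose t ht1 ht2 using ht
  obtain ⟨i, hi⟩ : ∃ i, (⋃ s, K (2 * s + i)) ∉ U := by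
    by_contra hn
    push Not at hn
    obtain ⟨n, h0, h1⟩ := U.nonempty_of_mem (Filter.inter_mem (hn 0) (hn 1))
    simp only [Set.mem_iUnion] at h0 h1
    obtain ⟨a, ha⟩ := h0
    obtain ⟨b, hb⟩ := h1
    have := hd _ _ _ ha hb
    omega
  have hin : ∀ s, t (2 * s + i) ∈ ⋃ s, K (2 * s + i) := fun s => Set.mem_iUnion.2 ⟨s, ht1 _⟩
  refine ⟨fun s => t (2 * s + i), _, hi, hin, fun s X hX hsX => ht2 _ _ ?_ ?_⟩
  · refine un (sub Set.sdiff_subset hX) (sub ?_ hi)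
    rintro _ ⟨r, -, rfl⟩
    exact hin r
  · rw [Set.disjoint_left]
    rintro n (h | ⟨r, hr, rfl⟩) hn
    · exact h.2 (Set.mem_iUnion.2 ⟨s, hn⟩)
    · have := hd _ _ _ (ht1 _) hn
      have : r = s := by omega
      exact hsX (this ▸ hr)

/-- For every nonprincipal ultrafilter U on ℕ (ordered by inclusion) and monotone f:U→U whose images of coatoms have no common lower bound in f(U), U is a retract of f(U) via monotone maps g, h with g∘h = id. -/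
theorem result :
    ∀ U : Ultrafilter ℕ, (∀ n : ℕ, U ≠ pure n) →
      ∀ f : {s : Set ℕ // s ∈ U} → {s : Set ℕ // s ∈ U}, Monotone f →
        (¬ ∃ y : {s : Set ℕ // s ∈ U}, y ∈ Set.range f ∧
            ∀ c : {s : Set ℕ // s ∈ U},
              (c.1 ≠ Set.univ ∧ ∀ t : {s : Set ℕ // s ∈ U}, c.1 ⊆ t.1 → t.1 = c.1 ∨ t.1 = Set.univ) →
              y ≤ f c) →
        ∃ g : ↥(Set.range f) → {s : Set ℕ // s ∈ U},
          ∃ h : {s : Set ℕ // s ∈ U} → ↥(Set.range f),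
            Monotone g ∧ Monotone h ∧ ∀ x, g (h x) = x := by
  intro U hU f hf hno
  have hU' : ∀ n : ℕ, ({n} : Set ℕ) ∉ U := fun n h =>
    hU n (Ultrafilter.eq_pure_of_finite_mem (Set.finite_singleton n) h |>.elim fun x hx => by
      rw [hx.2, hx.1])
  have cm : ∀ {X : Set ℕ}, X ∉ U → Xᶜ ∈ U := fun h => Ultrafilter.compl_mem_iff_notMem.2 h
  have cm' : ∀ {X : Set ℕ}, X ∈ U → Xᶜ ∉ U := fun h => Ultrafilter.compl_notMem_iff.2 h
  let c : ℕ → {s : Set ℕ // s ∈ U} := fun n => ⟨{n}ᶜ, cm (hU' n)⟩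
  let g0 : {s : Set ℕ // s ∈ U} → Set ℕ := fun q => {n | q ≤ f (c n)}
  have hg0 : ∀ A, g0 (f A) ∉ U := by
    intro A hA
    apply hno
    refine ⟨f ⟨A.1 ∩ g0 (f A), Filter.inter_mem A.2 hA⟩, ⟨_, rfl⟩, ?_⟩
    rintro a ⟨ha1, ha2⟩
    obtain ⟨n, hn⟩ := (Set.ne_univ_iff_exists_notMem _).1 ha1
    have hc : c n = a := by
      rcases ha2 (c n) (Set.subset_compl_singleton_iff.2 hn) with h | h
      · exact Subtype.ext h
      · exact absurd (h ▸ Set.mem_univ n : n ∈ (c n).1) (by simp [c])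
    rw [← hc]
    by_cases h : n ∈ g0 (f A)
    · exact le_trans (hf (show (⟨A.1 ∩ g0 (f A), _⟩ : {s : Set ℕ // s ∈ U}) ≤ A from
        Set.inter_subset_left)) h
    · exact hf (Set.subset_compl_singleton_iff.2 fun h' => h h'.2)
  let φ : Set ℕ → Set ℕ := fun X => {n | ∃ h : Xᶜ ∈ U, n ∈ g0 (f ⟨Xᶜ, h⟩)}
  obtain ⟨d, E, hE, hdE, hd⟩ := blocks U hU' φ (by
      rintro X Y hXY hY n ⟨h, hn⟩
      exact ⟨cm hY, le_trans (hf (Set.compl_subset_compl.2 hXY)) hn⟩)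
    (fun X hX => sub (fun n hn => hn.2) (hg0 ⟨Xᶜ, cm hX⟩))
  have hα : ∀ X : Set ℕ, X ∉ U → (X \ E) ∪ d '' X ∉ U := by
    intro X hX
    refine un (sub Set.sdiff_subset hX) (sub ?_ hE)
    rintro _ ⟨r, -, rfl⟩
    exact hdE r
  refine ⟨fun q => ⟨({s | d s ∈ g0 q.1} ∩ (g0 q.1 ∪ E))ᶜ, cm (sub Set.inter_subset_right (un ?_ hE))⟩,
    fun A => ⟨f ⟨((A.1ᶜ \ E) ∪ d '' A.1ᶜ)ᶜ, cm (hα _ (cm' A.2))⟩, ⟨_, rfl⟩⟩, ?_, ?_, ?_⟩
  · obtain ⟨A, hA⟩ := q.2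
    rw [← hA]; exact hg0 A
  · intro q q' hq
    have h : g0 q'.1 ⊆ g0 q.1 := fun n hn => le_trans (show q.1 ≤ q'.1 from hq) hn
    exact Set.compl_subset_compl.2
      (Set.inter_subset_inter (fun s hs => h hs) (Set.union_subset_union_left _ h))
  · intro A B hAB
    have h : B.1ᶜ ⊆ A.1ᶜ := Set.compl_subset_compl.2 hAB
    exact hf (Set.compl_subset_compl.2
      (Set.union_subset_union (Set.sdiff_subset_sdiff_left h) (Set.image_mono h)))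
  · intro A
    apply Subtype.ext
    have key : ∀ n ∈ (A.1ᶜ \ E) ∪ d '' A.1ᶜ,
        n ∈ g0 (f ⟨((A.1ᶜ \ E) ∪ d '' A.1ᶜ)ᶜ, cm (hα _ (cm' A.2))⟩) := fun n hn =>
      hf (Set.compl_subset_compl.2 (Set.singleton_subset_iff.2 hn))
    ext s
    constructor
    · intro h
      by_contra hs
      apply h
      refine ⟨key _ (Or.inr ⟨s, hs, rfl⟩), ?_⟩
      by_cases hsE : s ∈ E
      · exact Or.inr hsE
      · exact Or.inl (key _ (Or.inl ⟨hs, hsE⟩))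
    · intro hs h
      exact hd s A.1ᶜ (cm' A.2) (fun h => h hs) ⟨_, h.1⟩

end Pool.Agent.S07661
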