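import Pool.Statements.S07685
import Pool.Agent.Lib.helper22.BjB

set_option autoImplicit false
open Pool Pool.MP_246c79_co

namespace Pool.Agent.S07685

/-- Every infinite geometric lattice of finite rank r has a family of pairwise disjoint maximal chains of L minus its bottom and top such that every atom lies in one of these chains. -/
theorem result :
    ∀ (L : Type) [CompleteLattice L] [IsAtomistic L] [IsUpperModularLattice L] [Infinite L]
      (r : ℕ), Order.height (⊤ : L) = (r : ℕ∞) →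
      ∃ M : Set (Set L),
        (∀ m ∈ M,
          (∀ x ∈ m, x ≠ ⊥ ∧ x ≠ ⊤) ∧ IsChain (· ≤ ·) m ∧
          ∀ m' : Set L, (∀ x ∈ m', x ≠ ⊥ ∧ x ≠ ⊤) → IsChain (· ≤ ·) m' → m ⊆ m' → m' = m) ∧
        M.PairwiseDisjoint id ∧
        ∀ x : L, IsAtom x → ∃ m ∈ M, x ∈ m := by
  intro L _ _ _ _ r hr
  have hfin : ∀ x : L, Order.height x < ⊤ := fun x =>
    (Order.height_mono le_top).trans_lt (hr ▸ ENat.coe_lt_top r)
  let ρ : L → ℕ := fun x => (Order.height x).toNat
  have hρ : StrictMono ρ := fun x y h => by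
    have h1 := Order.height_strictMono h (hfin x)
    rw [← ENat.coe_toNat (hfin x).ne, ← ENat.coe_toNat (hfin y).ne] at h1
    exact_mod_cast h1
  haveI : WellFoundedGT L := by
    refine StrictAnti.wellFoundedGT (f := fun x => ρ ⊤ - ρ x) fun x y h => ?_
    have h1 := hρ h
    have h2 := hρ.monotone (le_top (a := y))
    show ρ ⊤ - ρ y < ρ ⊤ - ρ x
    omega
  have ht : (⊥ : L) ⊔ sSup {x | IsAtom x} = ⊤ := by rw [bot_sup_eq, sSup_atoms_eq_top]
  have hne : ∀ p : L, IsAtom p → p ≠ ⊤ := by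
    rintro p hp rfl
    refine Set.infinite_univ ((Set.toFinite ({⊥, ⊤} : Set L)).subset fun x _ => ?_)
    exact hp.le_iff.1 le_top
  obtain ⟨ch, h1, h2⟩ := Pool.Agent.Lib.helper22.Bj.main ρ hρ (⊥ : L) _ {x | IsAtom x} rfl
    (fun p hp => hp.bot_covBy) fun p hp => ht ▸ hne p hp
  rw [ht] at h1
  refine ⟨ch '' {x | IsAtom x}, ?_, ?_, fun x hx => ⟨ch x, ⟨x, hx, rfl⟩, (h1 x hx).1.mem⟩⟩
  · rintro _ ⟨p, hp, rfl⟩
    have hF := (h1 p hp).1
    refine ⟨fun x hx => ⟨(hp.bot_lt.trans_le (hF.bd x hx).1).ne', (hF.bd x hx).2.ne⟩, hF.chain,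
      fun m' g1 g2 g3 => Set.Subset.antisymm (fun y hy => ?_) g3⟩
    refine hF.max y ?_ (lt_top_iff_ne_top.2 (g1 y hy).2) fun z hz => g2.total hy (g3 hz)
    rcases g2.total hy (g3 hF.mem) with h | h
    · rcases hp.le_iff.1 h with h | h
      · exact absurd h (g1 y hy).1
      · exact h.ge
    · exact h
  · rintro _ ⟨p, hp, rfl⟩ _ ⟨q, hq, rfl⟩ hne
    exact h2 p hp q hq fun e => hne (congrArg ch e)

end Pool.Agent.S07685
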