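import Pool.Statements.S07719
import Pool.Agent.Lib.helper26.OneTwoOne

set_option autoImplicit false
open Pool Pool.MP_25e1d2_co

namespace Pool.Agent.S07719

/-- For every finite colouring of the naturals there is a sequence of positive integers y_0, y_1, ... such that all nonempty finite sums of distinct terms, and all sums y_n + 2y_{n+1} + y_{n+2}, get one and the same colour. -/
theorem result :
    ∀ (k : ℕ) (c : ℕ → Fin k), ∃ y : ℕ → ℕ, (∀ n, 0 < y n) ∧
      ∃ col : Fin k,
        (∀ s : Finset ℕ, s.Nonempty → c (∑ i ∈ s, y i) = col) ∧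
        (∀ n : ℕ, c (y n + 2 * y (n + 1) + y (n + 2)) = col) := by
  intro r c
  obtain ⟨col, y, C, D, F, h0, h1, h2, h3, h4, h5, h6⟩ :=
    Pool.Agent.Lib.helper26.OneTwoOne.main (fun z : ℤ => c z.toNat)
  have hy : ∀ n, ((y n).toNat : ℤ) = y n := fun n => Int.toNat_of_nonneg (h0 n).le
  have anti : ∀ m n, m ≤ n → C n ⊆ C m := by
    intro m n hmn
    induction n, hmn using Nat.le_induction with
    | base => exact subset_rfl
    | succ n _ ih => exact fun x hx => ih (h4 n x hx).1
  have key : ∀ s : Finset ℕ, ∀ n, (∀ i ∈ s, i < n) → ∀ x ∈ C n, (∑ i ∈ s, y i) + x ∈ C 0 := by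
    intro s
    induction s using Finset.induction_on_max with
    | empty => intro n _ x hx; simpa using anti 0 n (Nat.zero_le n) hx
    | insert m s hm ih =>
      intro n hn x hx
      rw [Finset.sum_insert (fun h => lt_irrefl _ (hm m h)), add_comm (y m), add_assoc]
      exact ih m hm _ (h4 m x (anti _ _ (hn m (Finset.mem_insert_self _ _)) hx)).2
  refine ⟨fun n => (y n).toNat, fun n => by have := h0 n; simp only; omega, col, ?_, ?_⟩
  · intro s hs
    have e : ((∑ i ∈ s, (y i).toNat : ℕ) : ℤ) = ∑ i ∈ s, y i := by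
      push_cast
      exact Finset.sum_congr rfl fun i _ => hy i
    have := key (s.erase (s.max' hs)) (s.max' hs)
      (fun i hi => Finset.lt_max'_of_mem_erase_max' s hs hi) _ (h2 _)
    rw [Finset.sum_erase_add _ _ (s.max'_mem hs), ← e] at this
    simpa only [Int.toNat_natCast] using h1 _ this
  · intro n
    have := anti 0 n (Nat.zero_le n) (h6 n _ (h5 (n + 1) _ (h3 (n + 2))))
    have e : y n + (2 * y (n + 1) + y (n + 2)) =
        (((y n).toNat + 2 * (y (n + 1)).toNat + (y (n + 2)).toNat : ℕ) : ℤ) := by
      push_cast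
      simp only [hy]; ring
    rw [e] at this
    simpa only [Int.toNat_natCast] using h1 _ this

end Pool.Agent.S07719
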