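import Pool.Statements.S07755

set_option autoImplicit false
open Matrix
open Pool Pool.MP_284e51_co

namespace Pool.Agent.S07755

variable {n : ℕ}

def sg (v : Fin n) (s : Finset (Fin n)) : ℝ := (-1) ^ (s.filter (fun w => w < v)).card

lemma sg_sq (v : Fin n) (s : Finset (Fin n)) : sg v s * sg v s = 1 := by
  unfold sg; rw [← mul_pow]; simp

lemma sg_insert {v w : Fin n} {t : Finset (Fin n)} (h : w ∉ t) :
    sg v (insert w t) = if w < v then -sg v t else sg v t := by
  unfold sg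
  rw [Finset.filter_insert]
  split_ifs
  · rw [Finset.card_insert_of_notMem (by simp [h]), pow_succ]; ring
  · rfl

def an (v : Fin n) (f : Finset (Fin n) → ℝ) (t : Finset (Fin n)) : ℝ :=
  if v ∈ t then 0 else sg v t * f (insert v t)

def cr (v : Fin n) (f : Finset (Fin n) → ℝ) (s : Finset (Fin n)) : ℝ :=
  if v ∈ s then sg v s * f (s.erase v) else 0

lemma sg_erase (v : Fin n) (s : Finset (Fin n)) : sg v (s.erase v) = sg v s := by
  by_cases h : v ∈ s
  · conv_rhs => rw [← Finset.insert_erase h, sg_insert (Finset.notMem_erase _ _), if_neg (lt_irrefl _)]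
  · rw [Finset.erase_eq_of_notMem h]

lemma adj (v : Fin n) (f h : Finset (Fin n) → ℝ) : an v f ⬝ᵥ h = f ⬝ᵥ cr v h := by
  simp only [dotProduct, an, cr, ite_mul, mul_ite, zero_mul, mul_zero]
  rw [← Finset.sum_filter, Finset.sum_ite, Finset.sum_const_zero, zero_add]
  refine Finset.sum_bij' (fun t _ => insert v t) (fun s _ => s.erase v) (by simp) (by simp)
    (fun t ht => Finset.erase_insert (by simpa using ht))
    (fun s hs => Finset.insert_erase (by simpa using hs)) fun t ht => ?_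
  have h1 : v ∉ t := by simpa using ht
  rw [Finset.erase_insert h1, sg_insert h1, if_neg (lt_irrefl _)]
  ring

lemma cr_an (w : Fin n) (χ g : Finset (Fin n) → ℝ) (s : Finset (Fin n)) :
    cr w (fun t => χ t * an w g t) s = if w ∈ s then χ (s.erase w) * g s else 0 := by
  unfold cr an
  split_ifs with h
  · simp only
    rw [if_neg (Finset.notMem_erase _ _), Finset.insert_erase h, sg_erase]
    linear_combination χ (s.erase w) * g s * sg_sq w s
  · rfl

lemma car (v w : Fin n) (f : Finset (Fin n) → ℝ) (t : Finset (Fin n)) :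
    cr v (an w f) t + an w (cr v f) t = if v = w then f t else 0 := by
  by_cases h : v = w
  · subst h
    rw [if_pos rfl]
    unfold cr an
    by_cases h1 : v ∈ t
    · simp only [h1, if_true, Finset.notMem_erase, if_false, Finset.insert_erase h1, sg_erase]
      linear_combination f t * sg_sq v t
    · simp only [h1, if_false, Finset.mem_insert_self, if_true, Finset.erase_insert h1,
        sg_insert h1, lt_irrefl]
      linear_combination f t * sg_sq v t
  · rw [if_neg h]
    unfold cr an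
    by_cases h1 : v ∈ t <;> by_cases h2 : w ∈ t
    · simp [h1, h2, Ne.symm h]
    · have e := sg_insert (v := w) (Finset.notMem_erase v t)
      rw [Finset.insert_erase h1] at e
      simp only [h1, h2, if_true, if_false, Finset.mem_erase, and_false, Finset.mem_insert,
        or_true, sg_insert h2, e, Finset.erase_insert_of_ne (Ne.symm h)]
      rcases lt_or_gt_of_ne h with h3 | h3
      · rw [if_pos h3, if_neg (not_lt.2 h3.le)]; ring
      · rw [if_pos h3, if_neg (not_lt.2 h3.le)]; ring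
    · simp [h1, h2]
    · simp [h1, h2, h]

def dl (f : Finset (Fin n) → ℝ) : Finset (Fin n) → ℝ := ∑ v, cr v f

lemma an_sum (w : Fin n) (F : Fin n → Finset (Fin n) → ℝ) (t : Finset (Fin n)) :
    an w (∑ v, F v) t = ∑ v, an w (F v) t := by
  unfold an
  split_ifs <;> simp [Finset.mul_sum]

lemma dl_an (w : Fin n) (f : Finset (Fin n) → ℝ) : dl (an w f) = f - an w (dl f) := by
  ext t
  rw [Pi.sub_apply, eq_sub_iff_add_eq, dl, dl, an_sum, Finset.sum_apply, ← Finset.sum_add_distrib]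
  simp [car]

lemma sum_adj (f g : Finset (Fin n) → ℝ) : ∑ w, an w g ⬝ᵥ f = g ⬝ᵥ dl f := by
  simp only [adj, dl, dotProduct_sum]

lemma dl_le (f : Finset (Fin n) → ℝ) : dl f ⬝ᵥ dl f ≤ n * (f ⬝ᵥ f) := by
  have h1 : ∀ w, f ⬝ᵥ dl (an w f) = f ⬝ᵥ f - an w (dl f) ⬝ᵥ f := fun w => by
    rw [dl_an, dotProduct_sub, dotProduct_comm f (an w _)]
  have h2 : ∑ w, f ⬝ᵥ dl (an w f) = (∑ w, an w f) ⬝ᵥ (∑ w, an w f) := by
    rw [sum_dotProduct]
    refine Finset.sum_congr rfl fun w _ => ?_
    rw [dotProduct_comm f, dotProduct_comm (dl _), ← sum_adj, dotProduct_sum]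
    exact Finset.sum_congr rfl fun v _ => dotProduct_comm _ _
  have h3 : 0 ≤ (∑ w, an w f) ⬝ᵥ (∑ w, an w f) :=
    Finset.sum_nonneg fun _ _ => mul_self_nonneg _
  simp only [h1, Finset.sum_sub_distrib, sum_adj] at h2
  simp at h2
  linarith

lemma chi_an (χ g : Finset (Fin n) → ℝ) :
    ∑ w, ∑ t, χ t * an w g t ^ 2 = ∑ s, (∑ w ∈ s, χ (s.erase w)) * g s ^ 2 := by
  have h : ∀ w, ∑ t, χ t * an w g t ^ 2 = ∑ s, if w ∈ s then χ (s.erase w) * g s ^ 2 else 0 := by
    intro w
    have := adj w g (fun t => χ t * an w g t)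
    simp only [dotProduct, cr_an] at this
    rw [Finset.sum_congr rfl fun t _ => show χ t * an w g t ^ 2 =
      an w g t * (χ t * an w g t) by ring, this]
    exact Finset.sum_congr rfl fun s _ => by split_ifs <;> ring
  simp only [h]
  rw [Finset.sum_comm]
  exact Finset.sum_congr rfl fun s _ => by simp [Finset.sum_mul]

lemma core (χ ψ f : Finset (Fin n) → ℝ) (k : ℕ) (c : ℝ) (h0 : ∀ t, χ t * f t = f t)
    (hk : ∀ s, f s ≠ 0 → s.card = k + 1)
    (hm : ∀ s, dl f s ≠ 0 → 1 + (k + 1) * ψ s ≤ ∑ w ∈ s, χ (s.erase w))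
    (hc : ∀ z, ∑ t, χ t * dl z t ^ 2 ≤ c * (z ⬝ᵥ z)) :
    ∑ s, ψ s * dl f s ^ 2 ≤ c * (f ⬝ᵥ f) := by
  have h1 : ∑ w, an w f ⬝ᵥ an w f = (k + 1) * (f ⬝ᵥ f) := by
    have := chi_an (fun _ => 1) f
    simp only [one_mul, pow_two] at this
    simp only [dotProduct, this, Finset.mul_sum]
    refine Finset.sum_congr rfl fun s _ => ?_
    by_cases h : f s = 0
    · simp [h]
    · simp [hk s h]
  have h2 : ∀ w, ∑ t, χ t * dl (an w f) t ^ 2 =
      f ⬝ᵥ f - 2 * (an w (dl f) ⬝ᵥ f) + ∑ t, χ t * an w (dl f) t ^ 2 := by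
    intro w
    simp only [dl_an, dotProduct, Finset.mul_sum, ← Finset.sum_sub_distrib,
      ← Finset.sum_add_distrib, Pi.sub_apply]
    exact Finset.sum_congr rfl fun t _ => by
      linear_combination (f t - 2 * an w (dl f) t) * h0 t
  have h3 := Finset.sum_le_sum fun w (_ : w ∈ Finset.univ) => hc (an w f)
  simp only [h2, Finset.sum_add_distrib, Finset.sum_sub_distrib, ← Finset.mul_sum, sum_adj,
    chi_an, h1] at h3
  have h4 : dl f ⬝ᵥ dl f + (k + 1) * ∑ s, ψ s * dl f s ^ 2 ≤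
      ∑ s, (∑ w ∈ s, χ (s.erase w)) * dl f s ^ 2 := by
    simp only [dotProduct, Finset.mul_sum, ← Finset.sum_add_distrib]
    refine Finset.sum_le_sum fun s _ => ?_
    by_cases h : dl f s = 0
    · simp [h]
    · nlinarith [mul_le_mul_of_nonneg_right (hm s h) (sq_nonneg (dl f s))]
  have h5 := dl_le f
  simp at h3
  have h6 : (0 : ℝ) < k + 1 := by positivity
  refine le_of_mul_le_mul_left ?_ h6
  nlinarith

lemma transp {ι : Type} [Fintype ι] (M : Matrix ι ι ℝ) {c : ℝ} (hc : 0 ≤ c)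
    (h : ∀ y, (M *ᵥ y) ⬝ᵥ (M *ᵥ y) ≤ c * (y ⬝ᵥ y)) (z : ι → ℝ) :
    (Mᵀ *ᵥ z) ⬝ᵥ (Mᵀ *ᵥ z) ≤ c * (z ⬝ᵥ z) := by
  set y := Mᵀ *ᵥ z with hy
  have e : y ⬝ᵥ y = z ⬝ᵥ (M *ᵥ y) := by
    rw [dotProduct_mulVec z, ← mulVec_transpose]
  have cs : (z ⬝ᵥ (M *ᵥ y)) ^ 2 ≤ (z ⬝ᵥ z) * ((M *ᵥ y) ⬝ᵥ (M *ᵥ y)) := by
    simpa only [dotProduct, pow_two] using Finset.sum_mul_sq_le_sq_mul_sq Finset.univ z (M *ᵥ y)
  have z0 : 0 ≤ z ⬝ᵥ z := Finset.sum_nonneg fun _ _ => mul_self_nonneg _
  have y0 : 0 ≤ y ⬝ᵥ y := Finset.sum_nonneg fun _ _ => mul_self_nonneg _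
  rw [← e] at cs
  rcases y0.eq_or_lt with h1 | h1
  · rw [← h1]; positivity
  · refine le_of_mul_le_mul_right ?_ h1
    nlinarith [mul_le_mul_of_nonneg_left (h y) z0]

lemma dl_apply (z : Finset (Fin n) → ℝ) (s : Finset (Fin n)) :
    dl z s = ∑ v ∈ s, sg v s * z (s.erase v) := by
  simp [dl, cr]


theorem result :
    ∀ (n : ℕ) (K : Finset (Finset (Fin n))),
      (∀ s ∈ K, ∀ t : Finset (Fin n), t ⊆ s → t.Nonempty → t ∈ K) →
      ∀ D : ℕ → Matrix (Finset (Fin n)) (Finset (Fin n)) ℝ,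
        (∀ (m : ℕ) (t s : Finset (Fin n)),
          D m t s =
            if s ∈ K ∧ s.card = m then
              ∑ v ∈ s, (if t = s.erase v then
                (-1 : ℝ) ^ (Finset.filter (fun w => w < v) s).card else 0)
            else 0) →
        ∀ k : ℕ, 1 ≤ k →
          ∀ c : ℝ,
            (∀ y : Finset (Fin n) → ℝ,
              (D (k + 1) *ᵥ y) ⬝ᵥ (D (k + 1) *ᵥ y) ≤ c * (y ⬝ᵥ y)) →
            ∀ x : Finset (Fin n) → ℝ,
              (D (k + 2) *ᵥ x) ⬝ᵥ (D (k + 2) *ᵥ x) ≤ c * (x ⬝ᵥ x) := by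
  intro n K hK D hD k hk c hc
  have c0 : 0 ≤ c := by
    have h1 := hc (Pi.single ∅ 1)
    have h2 : 0 ≤ (D (k + 1) *ᵥ Pi.single ∅ 1) ⬝ᵥ (D (k + 1) *ᵥ Pi.single ∅ 1) :=
      Finset.sum_nonneg fun _ _ => mul_self_nonneg _
    simpa using h2.trans h1
  have hT : ∀ m z, ((D m)ᵀ *ᵥ z) ⬝ᵥ ((D m)ᵀ *ᵥ z) =
      ∑ s, (if s ∈ K ∧ s.card = m then 1 else 0) * dl z s ^ 2 := by
    intro m z
    refine Finset.sum_congr rfl fun s _ => ?_
    have : ((D m)ᵀ *ᵥ z) s = if s ∈ K ∧ s.card = m then dl z s else 0 := by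
      simp only [mulVec, dotProduct, transpose_apply, hD, dl_apply]
      split_ifs
      · simp only [Finset.sum_mul]
        rw [Finset.sum_comm]
        simp [sg]
      · simp
    rw [this]
    split_ifs <;> ring
  intro x
  rw [← transpose_transpose (D (k + 2))]
  refine transp _ c0 (fun z => ?_) x
  have h1 := core (fun s => if s ∈ K ∧ s.card = k + 1 then 1 else 0)
    (fun s => if s ∈ K ∧ s.card = k + 2 then 1 else 0)
    (fun s => if s ∈ K ∧ s.card = k + 1 then z s else 0) k c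
    (fun t => by split_ifs <;> simp) (fun s hs => by
      by_contra h; exact hs (if_neg fun h' => h h'.2)) (fun s hs => ?_)
    (fun y => by rw [← hT]; exact transp _ c0 hc y)
  · have e : ∀ s ∈ K, s.card = k + 2 → ∀ v ∈ s, s.erase v ∈ K ∧ (s.erase v).card = k + 1 := by
      intro s hs h v hv
      have : (s.erase v).card = k + 1 := by rw [Finset.card_erase_of_mem hv, h]; rfl
      exact ⟨hK s hs _ (Finset.erase_subset _ _) (Finset.card_pos.1 (by omega)), this⟩
    rw [hT]
    refine le_trans (le_of_eq (Finset.sum_congr rfl fun s _ => ?_)) (h1.trans ?_)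
    · split_ifs with h
      · rw [dl_apply, dl_apply]
        congr 2
        exact Finset.sum_congr rfl fun v hv => by rw [if_pos (e s h.1 h.2 v hv)]
      · simp
    · refine mul_le_mul_of_nonneg_left (Finset.sum_le_sum fun s _ => ?_) c0
      simp only
      split_ifs
      · exact le_rfl
      · simpa using mul_self_nonneg _
  · split_ifs with h
    · have e : ∀ v ∈ s, s.erase v ∈ K ∧ (s.erase v).card = k + 1 := by
        intro v hv
        have : (s.erase v).card = k + 1 := by rw [Finset.card_erase_of_mem hv, h.2]; rfl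
        exact ⟨hK s h.1 _ (Finset.erase_subset _ _) (Finset.card_pos.1 (by omega)), this⟩
      rw [Finset.sum_congr rfl fun v hv => if_pos (e v hv)]
      simp [h.2]
      linarith
    · rw [dl_apply] at hs
      obtain ⟨v, hv, h2⟩ := Finset.exists_ne_zero_of_sum_ne_zero hs
      have h3 : s.erase v ∈ K ∧ (s.erase v).card = k + 1 := by
        by_contra h4
        exact h2 (by rw [if_neg h4, mul_zero])
      have := Finset.single_le_sum (f := fun w => if s.erase w ∈ K ∧ (s.erase w).card = k + 1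
        then (1 : ℝ) else 0) (fun w _ => by positivity) hv
      simp only [h3, and_self, if_true] at this
      simpa using this

end Pool.Agent.S07755
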