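import Pool.Statements.S07782
import Pool.Agent.Lib.helper26.AbCx

set_option autoImplicit false
open Pool Pool.MP_293fea_co

namespace Pool.Agent.S07782

open Pool.Agent.Lib.H26AbCx

theorem fin_mod (M : Submodule ℤ (ℕ → ℤ)) (hM : M.FG) :
    ((fun g : ℕ → ℤ => fun n => (g n : ZMod 3)) '' M).Finite := by
  obtain ⟨S, rfl⟩ := hM
  let φ : (ℕ → ℤ) → (ℕ → ZMod 3) := fun g n => (g n : ZMod 3)
  have h1 : Module.Finite (ZMod 3) (Submodule.span (ZMod 3) (φ '' (S : Set (ℕ → ℤ)))) :=
    Module.Finite.span_of_finite _ (S.finite_toSet.image φ)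
  have h2 : Finite (Submodule.span (ZMod 3) (φ '' (S : Set (ℕ → ℤ)))) :=
    Module.finite_of_finite (ZMod 3)
  refine (Set.toFinite (Submodule.span (ZMod 3) (φ '' (S : Set (ℕ → ℤ))) : Set _)).subset ?_
  rintro _ ⟨g, hg, rfl⟩
  show φ g ∈ Submodule.span (ZMod 3) (φ '' (S : Set (ℕ → ℤ)))
  induction hg using Submodule.span_induction with
  | mem g hg => exact Submodule.subset_span ⟨g, hg, rfl⟩
  | zero =>
    have : φ 0 = 0 := by funext n; simp [φ]
    rw [this]; exact zero_mem _
  | add a b _ _ ha hb =>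
    have : φ (a + b) = φ a + φ b := by funext n; simp [φ]
    rw [this]; exact add_mem ha hb
  | smul c a _ ha =>
    have : φ (c • a) = (c : ZMod 3) • φ a := by funext n; simp [φ]
    rw [this]; exact Submodule.smul_mem _ _ ha

theorem no_rep (a b : ℕ) (hab : a < b)
    (h : ∀ n, ((T (10 ^ (2 * a + 3) * n)).ncard : ZMod 3) = (T (10 ^ (2 * b + 3) * n)).ncard) :
    False := by
  have h1 := h (10 ^ (2 * a + 4) + 1)
  have h2 := h (10 ^ (2 * a + 4) + 10)
  rw [mul_add, mul_add, ← pow_add, ← pow_add, mul_one, mul_one] at h1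
  rw [mul_add, mul_add, ← pow_add, ← pow_add, ← pow_succ, ← pow_succ] at h2
  rw [T_same _ _ (by omega) (by omega), show 2 * b + 3 + (2 * a + 4) = 2 * b + 2 * a + 6 + 1 by ring,
    T_diff _ _ (by omega) (by omega)] at h2
  rw [show 2 * b + 3 + (2 * a + 4) = 2 * b + 2 * a + 6 + 1 by ring, h2] at h1
  push_cast at h1
  have : (2 : ZMod 3) = 0 := by linear_combination h1
  exact absurd this (by decide)

/-- The negation of the preceding statement: For every k ≥ 2 and every sequence over a finite alphabet with finite k-kernel (k-automatic), the abelian complexity (number of Parikh vectors of length-n factors) has a k-kernel spanning a finitely generated ℤ-module (is k-regular). -/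
theorem result :
    ¬ (∀ k : ℕ, 2 ≤ k → ∀ m : ℕ, ∀ x : ℕ → Fin m,
      {f : ℕ → Fin m | ∃ e r : ℕ, r < k ^ e ∧ f = fun n => x (k ^ e * n + r)}.Finite →
      (Submodule.span ℤ
        {g : ℕ → ℤ | ∃ e r : ℕ, r < k ^ e ∧
          g = fun n =>
            ((Set.ncard {v : Fin m → ℕ | ∃ i : ℕ,
              v = fun c => ((Finset.range (k ^ e * n + r)).filter
                (fun j => x (i + j) = c)).card} : ℕ) : ℤ)}).FG) := by
  intro h
  have h1 := fin_mod _ (h 10 (by norm_num) 3 x kernel_finite)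
  simp only [parikh] at h1
  obtain ⟨a, b, hab, e⟩ := Set.Finite.exists_lt_map_eq_of_forall_mem
    (f := fun (a : ℕ) (n : ℕ) => (((T (10 ^ (2 * a + 3) * n + 0)).ncard : ℤ) : ZMod 3))
    (fun a => by exact ⟨_, Submodule.subset_span ⟨2 * a + 3, 0, p_pos _, rfl⟩, rfl⟩) h1
  refine no_rep a b hab fun n => ?_
  simpa using congrFun e n

end Pool.Agent.S07782
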