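import Pool.Statements.S07792
-- import your own Pool.Agent.* helpers here

set_option autoImplicit false
open Pool Pool.MP_29e5d4_co

namespace Pool.Agent.S07792

def chk {n : ℕ} (N : Fin n → Fin n → Bool) : ℕ → List (Fin n) → Bool
  | _, [] => false
  | 0, _ :: _ => true
  | k + 1, v :: L => (List.finRange n).all fun u => !N v u || chk N k (L.filter fun w => !N w u)

lemma chk_ok {n : ℕ} (N : Fin n → Fin n → Bool) (k : ℕ) : ∀ (L : List (Fin n)) (S : Finset (Fin n)),
    chk N k L = true → S.card ≤ k → ¬ ∀ v ∈ L, ∃ u ∈ S, N v u = true := by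
  induction k with
  | zero =>
    rintro (_ | ⟨v, L⟩) S h hS hh
    · simp [chk] at h
    · obtain ⟨u, hu, -⟩ := hh v (by simp)
      simp [Finset.card_eq_zero.1 (Nat.le_zero.1 hS)] at hu
  | succ k ih =>
    rintro (_ | ⟨v, L⟩) S h hS hh
    · simp [chk] at h
    · obtain ⟨u, hu, h1⟩ := hh v (by simp)
      simp only [chk, List.all_eq_true, List.mem_finRange, true_imp_iff] at h
      have h2 := h u
      simp only [h1, Bool.not_true, Bool.false_or] at h2
      refine ih _ (S.erase u) h2 (by rw [Finset.card_erase_of_mem hu]; omega) fun w hw => ?_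
      obtain ⟨hw1, hw2⟩ := List.mem_filter.1 hw
      obtain ⟨x, hx, h3⟩ := hh w (by simp [hw1])
      refine ⟨x, Finset.mem_erase.2 ⟨?_, hx⟩, h3⟩
      rintro rfl
      simp [h3] at hw2

lemma low {n : ℕ} (N : Fin n → Fin n → Bool) (k : ℕ) (H : SimpleGraph (Fin n))
    (h : chk N k (List.finRange n) = true) (h1 : ∀ v, N v v = true)
    (h2 : ∀ u v, H.Adj u v → N v u = true) :
    k < sInf {m : ℕ | ∃ D : Finset (Fin n), (↑D : Set (Fin n)) ⊆ Set.univ ∧ D.card = m ∧
      ∀ w ∈ (Set.univ : Set (Fin n)), w ∈ D ∨ ∃ u ∈ D, H.Adj u w} := by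
  obtain ⟨D, -, hD, hd⟩ := Nat.sInf_mem (s := {m : ℕ | ∃ D : Finset (Fin n),
    (↑D : Set (Fin n)) ⊆ Set.univ ∧ D.card = m ∧
      ∀ w ∈ (Set.univ : Set (Fin n)), w ∈ D ∨ ∃ u ∈ D, H.Adj u w}) ⟨_, Finset.univ, by simp, rfl, by simp⟩
  by_contra hlt
  refine chk_ok N k _ D h (by omega) fun v _ => ?_
  rcases hd v trivial with a | ⟨u, a, b⟩
  · exact ⟨v, a, h1 v⟩
  · exact ⟨u, a, h2 u v b⟩

def N (v u : Fin 18) : Bool := Nat.testBit 135235 ((u.val + 18 - v.val) % 18)

def N' (v u : Fin 18) : Bool := N v u && !(u.val + v.val == 2 * u.val + 1 && Nat.testBit 9234 u.val) &&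
  !(u.val + v.val == 2 * v.val + 1 && Nat.testBit 9234 v.val)

def C : SimpleGraph (Fin 18) := SimpleGraph.fromRel (fun u v => N u v = true)

instance : DecidableRel C.Adj := fun x y => by unfold C; infer_instance

def F : Finset (Sym2 (Fin 18)) := {s(1, 2), s(4, 5), s(10, 11), s(13, 14)}

/-- The negation of the preceding statement: For every finite graph G in which deleting any single vertex lowers the domination number, deleting any set of at most δ(G) edges never raises the domination number; that is, the bondage number is at least δ(G)+1. -/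
theorem result :
    ¬ (∀ (V : Type) [Fintype V] [DecidableEq V] (G : SimpleGraph V) [DecidableRel G.Adj]
      (γ : SimpleGraph V → Set V → ℕ),
      (∀ (H : SimpleGraph V) (S : Set V),
        γ H S = sInf {n : ℕ | ∃ D : Finset V, (↑D : Set V) ⊆ S ∧ D.card = n ∧
          ∀ w ∈ S, w ∈ D ∨ ∃ u ∈ D, H.Adj u w}) →
      (∀ v : V, γ G {w | w ≠ v} < γ G Set.univ) →
      ∀ E' : Finset (Sym2 V), (↑E' : Set (Sym2 V)) ⊆ G.edgeSet →
        E'.card ≤ G.minDegree →
        γ (G.deleteEdges (↑E' : Set (Sym2 V))) Set.univ ≤ γ G Set.univ) := by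
  intro h
  have a4 := low N 4 C (by decide +kernel) (by decide +kernel) (by decide +kernel)
  have a5 := low N' 5 (C.deleteEdges (↑F : Set (Sym2 (Fin 18)))) (by decide +kernel) (by decide +kernel)
    (by simp only [SimpleGraph.deleteEdges_adj, Finset.mem_coe]; decide +kernel)
  have := h (Fin 18) C _ (fun _ _ => rfl) (fun v => lt_of_le_of_lt (Nat.sInf_le
      ⟨{v + 3, v + 7, v + 11, v + 15}, ?_, ?_, ?_⟩) a4) F ?_ ?_
  · have b : sInf {m : ℕ | ∃ D : Finset (Fin 18), (↑D : Set (Fin 18)) ⊆ Set.univ ∧ D.card = m ∧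
        ∀ w ∈ (Set.univ : Set (Fin 18)), w ∈ D ∨ ∃ u ∈ D, C.Adj u w} ≤ 5 :=
      Nat.sInf_le ⟨{0, 3, 7, 11, 15}, by simp, by decide, by
        simp only [Set.mem_univ, true_imp_iff]; decide +kernel⟩
    omega
  · intro x hx
    simp only [Finset.mem_coe] at hx
    show x ≠ v
    revert v x; decide +kernel
  · revert v; decide +kernel
  · simp only [Set.mem_setOf_eq]
    revert v; decide +kernel
  · intro x hx
    simp only [F, Finset.coe_insert, Finset.coe_singleton, Set.mem_insert_iff,
      Set.mem_singleton_iff] at hx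
    rcases hx with rfl | rfl | rfl | rfl <;> simp only [SimpleGraph.mem_edgeSet] <;> decide
  · decide +kernel

end Pool.Agent.S07792
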