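import Pool.Statements.S07865
import Pool.Agent.Lib.helper30.RigC

set_option autoImplicit false
open Set
open Pool Pool.MP_2d2dfa_co

namespace Pool.Agent.S07865

/-- There is a finite nonempty family of smooth convex bodies in 3-space with disjoint interiors such that no body can be moved by a continuous rigid motion, keeping its interior off the others, to a different position. -/
theorem result :
    ∃ n : ℕ, 0 < n ∧ ∃ K : Fin n → Set (EuclideanSpace ℝ (Fin 3)),
      (∀ i, IsCompact (K i) ∧ Convex ℝ (K i) ∧ (interior (K i)).Nonempty ∧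
        (∀ x ∈ frontier (K i), ∀ u v : EuclideanSpace ℝ (Fin 3),
          u ≠ 0 → v ≠ 0 →
          (∀ y ∈ K i, inner ℝ u (y - x) ≤ 0) →
          (∀ y ∈ K i, inner ℝ v (y - x) ≤ 0) →
          ∃ c : ℝ, 0 < c ∧ v = c • u)) ∧
      (∀ i j, i ≠ j → Disjoint (interior (K i)) (interior (K j))) ∧
      (∀ i, ∀ γ : ℝ → EuclideanSpace ℝ (Fin 3) → EuclideanSpace ℝ (Fin 3),
        Continuous (fun p : ℝ × EuclideanSpace ℝ (Fin 3) => γ p.1 p.2) →
        (∀ x, γ 0 x = x) →
        (∀ t ∈ Icc (0 : ℝ) 1, Isometry (γ t)) →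
        (∀ t ∈ Icc (0 : ℝ) 1, ∀ j, j ≠ i →
          Disjoint (interior (γ t '' K i)) (interior (K j))) →
        γ 1 '' K i = K i) := by
  obtain ⟨K, h1, h2, h3⟩ := Pool.Agent.Lib.Helper30.Rig.nine
  refine ⟨9, by norm_num, K, h1, h2, fun i γ g1 g2 g3 g4 => ?_⟩
  have := h3 i (fun t => γ t.1) (fun t => g3 t.1 t.2)
    (g1.comp ((continuous_subtype_val.comp continuous_fst).prodMk continuous_snd)) g2
    (fun t => g4 t.1 t.2) 1
  rw [show γ 1 = id from funext this, Set.image_id]

end Pool.Agent.S07865
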