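import Pool.Statements.S07874

set_option autoImplicit false
open Pool Pool.MP_2d87f2_co

namespace Pool.Agent.S07874

/-- parent map of the 3-regular tree with a fixed end, on `ℤ × ℕ` -/
def par (x : ℤ × ℕ) : ℤ × ℕ := (x.1 - 1, x.2 / 2)

/-- the two children -/
def ch (c : Bool) (x : ℤ × ℕ) : ℤ × ℕ := (x.1 + 1, 2 * x.2 + (if c then 1 else 0))

theorem par_ch (c : Bool) (x : ℤ × ℕ) : par (ch c x) = x := by
  obtain ⟨n, a⟩ := x
  cases c <;> simp [par, ch] <;> omega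

theorem ch_inj {c d : Bool} {x y : ℤ × ℕ} (h : ch c x = ch d y) : c = d ∧ x = y := by
  have h1 : x = y := by rw [← par_ch c x, h, par_ch]
  subst h1
  refine ⟨?_, rfl⟩
  cases c <;> cases d <;> simp [ch] at h ⊢

theorem eq_ch {x y : ℤ × ℕ} (h : par y = x) : y = ch false x ∨ y = ch true x := by
  obtain ⟨n, a⟩ := y
  subst h
  simp only [par, ch, Prod.mk.injEq]
  simp only [Bool.false_eq_true, if_false, if_true]
  omega

/-- the vertex set -/
abbrev V : Type := (ℤ × ℕ) × Fin 257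

/-- strong product of the tree with a complete graph -/
def G : SimpleGraph V where
  Adj u v := u ≠ v ∧ (u.1 = v.1 ∨ par u.1 = v.1 ∨ par v.1 = u.1)
  symm := ⟨fun u v h => ⟨h.1.symm, by
    rcases h.2 with h | h | h
    · exact Or.inl h.symm
    · exact Or.inr (Or.inr h)
    · exact Or.inr (Or.inl h)⟩⟩
  loopless := ⟨fun u h => h.1 rfl⟩

theorem adj_par (x : ℤ × ℕ) (i j : Fin 257) : G.Adj (x, i) (par x, j) := by
  refine ⟨?_, Or.inr (Or.inl rfl)⟩
  intro h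
  have := congrArg (fun u : V => u.1.1) h
  simp only [par] at this
  omega

theorem reach_same (x : ℤ × ℕ) (i j : Fin 257) : G.Reachable (x, i) (x, j) :=
  (adj_par x i 0).reachable.trans (adj_par x j 0).reachable.symm

theorem reach_zero (n : ℤ) : G.Reachable ((n, 0), 0) ((0, 0), 0) := by
  induction n using Int.induction_on with
  | zero => rfl
  | succ k ih =>
    refine SimpleGraph.Reachable.trans ?_ ih
    have := (adj_par ((k : ℤ) + 1, 0) 0 0).reachable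
    simpa [par] using this
  | pred k ih =>
    refine SimpleGraph.Reachable.trans ?_ ih
    have := (adj_par (-(k : ℤ), 0) 0 0).reachable.symm
    simpa [par] using this

theorem reach_all (a : ℕ) : ∀ (n : ℤ) (i : Fin 257), G.Reachable ((n, a), i) ((0, 0), 0) := by
  induction a using Nat.strong_induction_on with
  | _ a ih =>
    intro n i
    rcases Nat.eq_zero_or_pos a with rfl | h
    · exact (reach_same _ _ _).trans (reach_zero n)
    · exact (adj_par (n, a) i 0).reachable.trans (ih (a / 2) (by omega) _ _)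

theorem conn : G.Connected where
  preconnected := fun u v => (reach_all u.1.2 u.1.1 u.2).trans (reach_all v.1.2 v.1.1 v.2).symm

/-- closed neighbourhood in the tree -/
def N (x : ℤ × ℕ) : Finset (ℤ × ℕ) := {x, par x, ch false x, ch true x}

theorem mem_N {u v : V} (h : G.Adj u v) : v.1 ∈ N u.1 := by
  simp only [N, Finset.mem_insert, Finset.mem_singleton]
  rcases h.2 with h | h | h
  · exact Or.inl h.symm
  · exact Or.inr (Or.inl h.symm)
  · exact Or.inr (Or.inr (eq_ch h))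

theorem locfin (v : V) : (G.neighborSet v).Finite := by
  apply (N v.1 ×ˢ (Finset.univ : Finset (Fin 257))).finite_toSet.subset
  intro w hw
  simp only [Finset.coe_product, Set.mem_prod, Finset.mem_coe, Finset.mem_univ, and_true]
  exact mem_N hw

/-- a coherent sequence of shifts -/
def s (a : ℕ) (n : ℤ) : ℕ := if 0 ≤ n then a * 2 ^ n.toNat else a / 2 ^ (-n).toNat

theorem s_zero (a : ℕ) : s a 0 = a := by simp [s]

theorem s_pred (a : ℕ) (n : ℤ) : s a (n - 1) = s a n / 2 := by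
  unfold s
  by_cases h : 0 ≤ n - 1
  · have h' : 0 ≤ n := by omega
    have e : n.toNat = (n - 1).toNat + 1 := by omega
    rw [if_pos h, if_pos h', e, pow_succ, ← mul_assoc]
    omega
  · by_cases h' : 0 ≤ n
    · have e : n = 0 := by omega
      subst e
      simp
    · have e : (-(n - 1)).toNat = (-n).toNat + 1 := by omega
      rw [if_neg h, if_neg h', e, pow_succ, Nat.div_div_eq_div_mul]

/-- automorphisms of the tree -/
def aut (a : ℕ) (n₁ n₂ : ℤ) : (ℤ × ℕ) ≃ (ℤ × ℕ) where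
  toFun x := (x.1 + (n₂ - n₁), x.2 ^^^ s a (x.1 - n₁))
  invFun x := (x.1 - (n₂ - n₁), x.2 ^^^ s a (x.1 - n₂))
  left_inv x := by
    obtain ⟨n, b⟩ := x
    simp only [Prod.mk.injEq]
    refine ⟨by ring, ?_⟩
    rw [show n + (n₂ - n₁) - n₂ = n - n₁ by ring, Nat.xor_xor_cancel_right]
  right_inv x := by
    obtain ⟨n, b⟩ := x
    simp only [Prod.mk.injEq]
    refine ⟨by ring, ?_⟩
    rw [show n - (n₂ - n₁) - n₁ = n - n₂ by ring, Nat.xor_xor_cancel_right]

theorem aut_par (a : ℕ) (n₁ n₂ : ℤ) (x : ℤ × ℕ) :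
    par (aut a n₁ n₂ x) = aut a n₁ n₂ (par x) := by
  obtain ⟨n, b⟩ := x
  simp only [par, aut, Equiv.coe_fn_mk, Prod.mk.injEq]
  refine ⟨by ring, ?_⟩
  rw [Nat.xor_div_two, ← s_pred, show n - n₁ - 1 = n - 1 - n₁ by ring]

theorem trans (u v : V) : ∃ φ : G ≃g G, φ u = v := by
  obtain ⟨⟨n₁, a₁⟩, i⟩ := u
  obtain ⟨⟨n₂, a₂⟩, j⟩ := v
  refine ⟨⟨Equiv.prodCongr (aut (a₁ ^^^ a₂) n₁ n₂) (Equiv.swap i j), ?_⟩, ?_⟩
  · intro x y
    change ((Equiv.prodCongr (aut (a₁ ^^^ a₂) n₁ n₂) (Equiv.swap i j)) x ≠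
      (Equiv.prodCongr (aut (a₁ ^^^ a₂) n₁ n₂) (Equiv.swap i j)) y ∧
      (aut (a₁ ^^^ a₂) n₁ n₂ x.1 = aut (a₁ ^^^ a₂) n₁ n₂ y.1 ∨
        par (aut (a₁ ^^^ a₂) n₁ n₂ x.1) = aut (a₁ ^^^ a₂) n₁ n₂ y.1 ∨
        par (aut (a₁ ^^^ a₂) n₁ n₂ y.1) = aut (a₁ ^^^ a₂) n₁ n₂ x.1)) ↔
      (x ≠ y ∧ (x.1 = y.1 ∨ par x.1 = y.1 ∨ par y.1 = x.1))
    rw [aut_par, aut_par]
    simp only [ne_eq, EmbeddingLike.apply_eq_iff_eq]
  · change ((n₁ + (n₂ - n₁), a₁ ^^^ s (a₁ ^^^ a₂) (n₁ - n₁)), Equiv.swap i j i) = _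
    simp [s_zero]

/-- the net -/
def S : Set V := {u | u.1.1 % 2 = 0 ∧ u.2 = 0}

theorem sep (u : V) (hu : u ∈ S) (v : V) (hv : v ∈ S) (h : u ≠ v) : 2 ≤ G.dist u v := by
  apply conn.one_lt_dist_of_ne_of_not_adj h
  rintro ⟨_, h1 | h1 | h1⟩
  · exact h (Prod.ext h1 (hu.2.trans hv.2.symm))
  · have := congrArg Prod.fst h1
    have h2 := hu.1
    have h3 := hv.1
    simp only [par] at this
    omega
  · have := congrArg Prod.fst h1
    have h2 := hu.1
    have h3 := hv.1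
    simp only [par] at this
    omega

theorem maxl (w : V) (hw : w ∉ S) : ∃ u ∈ S, G.dist w u < 2 := by
  by_cases h : w.1.1 % 2 = 0
  · refine ⟨(w.1, 0), ⟨h, rfl⟩, ?_⟩
    have : G.Adj w (w.1, 0) := ⟨fun e => hw ⟨h, by rw [e]⟩, Or.inl rfl⟩
    rw [SimpleGraph.dist_eq_one_iff_adj.mpr this]
    norm_num
  · refine ⟨(par w.1, 0), ⟨by simp only [par]; omega, rfl⟩, ?_⟩
    rw [SimpleGraph.dist_eq_one_iff_adj.mpr (adj_par w.1 w.2 0)]
    norm_num

/-- balls in the tree -/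
def B : ℕ → ℤ × ℕ → Finset (ℤ × ℕ)
  | 0, x => {x}
  | n + 1, x => (N x).biUnion (B n)

theorem self_mem_B : ∀ (n : ℕ) (x : ℤ × ℕ), x ∈ B n x
  | 0, x => by simp [B]
  | n + 1, x => by
      simp only [B, Finset.mem_biUnion]
      exact ⟨x, by simp [N], self_mem_B n x⟩

theorem card_B : ∀ (n : ℕ) (x : ℤ × ℕ), (B n x).card ≤ 4 ^ n
  | 0, x => by simp [B]
  | n + 1, x => by
      refine Finset.card_biUnion_le.trans ?_
      refine (Finset.sum_le_card_nsmul _ _ (4 ^ n) (fun y _ => card_B n y)).trans ?_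
      have : (N x).card ≤ 4 := Finset.card_le_four
      rw [smul_eq_mul, pow_succ, mul_comm]
      exact Nat.mul_le_mul_left _ this

theorem walk_mem {u v : V} (w : G.Walk u v) : ∀ n, w.length ≤ n → v.1 ∈ B n u.1 := by
  induction w with
  | nil => intro n _; exact self_mem_B n _
  | cons h p ih =>
    intro n hn
    rcases n with _ | n
    · simp at hn
    · simp only [B, Finset.mem_biUnion]
      exact ⟨_, mem_N h, ih n (by simpa using hn)⟩

theorem lower (A : Finset V) :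
    257 * A.card ≤ Set.ncard {p : V × V | p.1 ∈ A ∧ p.2 ∉ A ∧ G.Adj p.1 p.2} := by
  classical
  have hfin : {p : V × V | p.1 ∈ A ∧ p.2 ∉ A ∧ G.Adj p.1 p.2}.Finite := by
    have h1 : (⋃ u ∈ (A : Set V), (fun v => (u, v)) '' G.neighborSet u).Finite :=
      A.finite_toSet.biUnion (fun u _ => (locfin u).image _)
    apply h1.subset
    rintro ⟨u, v⟩ ⟨h1, _, h3⟩
    simp only [Set.mem_iUnion]
    exact ⟨u, h1, v, h3, rfl⟩
  set D : Finset (V × Bool × Fin 257) := A ×ˢ Finset.univ with hD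
  have hcD : D.card = A.card * 514 := by
    rw [hD, Finset.card_product]
    simp
  have h1 := Finset.card_filter_add_card_filter_not (s := D)
    (fun q => (ch q.2.1 q.1.1, q.2.2) ∈ A)
  have h2 : (D.filter (fun q => (ch q.2.1 q.1.1, q.2.2) ∈ A)).card
      ≤ (A ×ˢ (Finset.univ : Finset (Fin 257))).card := by
    apply Finset.card_le_card_of_injOn (fun q => ((ch q.2.1 q.1.1, q.2.2), q.1.2))
    · intro q hq
      simp only [Finset.coe_filter, Set.mem_ofPred_eq] at hq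
      simp [hq.2]
    · rintro ⟨⟨x, i⟩, c, j⟩ _ ⟨⟨y, i'⟩, d, j'⟩ _ h
      simp only [Prod.mk.injEq] at h ⊢
      obtain ⟨e1, e2⟩ := ch_inj h.1.1
      exact ⟨⟨e2, h.2⟩, e1, h.1.2⟩
  have h3 : (D.filter (fun q => ¬ (ch q.2.1 q.1.1, q.2.2) ∈ A)).card ≤ hfin.toFinset.card := by
    apply Finset.card_le_card_of_injOn (fun q => (q.1, (ch q.2.1 q.1.1, q.2.2)))
    · rintro ⟨⟨x, i⟩, c, j⟩ hq
      simp only [Finset.coe_filter, Set.mem_ofPred_eq, hD, Finset.mem_product] at hq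
      simp only [Finset.mem_coe, Set.Finite.mem_toFinset, Set.mem_ofPred_eq]
      refine ⟨hq.1.1, hq.2, ?_⟩
      have := (adj_par (ch c x) j i).symm
      rwa [par_ch] at this
    · rintro ⟨⟨x, i⟩, c, j⟩ _ ⟨⟨y, i'⟩, d, j'⟩ _ h
      simp only [Prod.mk.injEq] at h ⊢
      exact ⟨h.1, (ch_inj h.2.1).1, h.2.2⟩
  rw [Set.ncard_eq_toFinset_card _ hfin]
  rw [Finset.card_product] at h2
  simp only [Finset.card_univ, Fintype.card_fin] at h2
  omega

theorem upper (u : V) :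
    Set.ncard {p : V × V | p.1 ∈ ({u} : Finset V) ∧ p.2 ∈ S ∧ p.2 ∉ ({u} : Finset V) ∧
      G.dist p.1 p.2 ≤ 2 * 2} ≤ 256 := by
  have h1 : {p : V × V | p.1 ∈ ({u} : Finset V) ∧ p.2 ∈ S ∧ p.2 ∉ ({u} : Finset V) ∧
      G.dist p.1 p.2 ≤ 2 * 2} ⊆ (fun x => (u, (x, (0 : Fin 257)))) '' (B 4 u.1 : Set (ℤ × ℕ)) := by
    rintro ⟨a, b⟩ ⟨h1, h2, _, h4⟩
    simp only [Finset.mem_singleton] at h1
    subst h1
    obtain ⟨w, hw⟩ := conn.exists_walk_length_eq_dist a b
    refine ⟨b.1, walk_mem w 4 (by rw [hw]; exact h4), ?_⟩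
    have : b.2 = 0 := h2.2
    simp only [Prod.mk.injEq, true_and]
    rw [← this]
  refine (Set.ncard_le_ncard h1 ((Finset.finite_toSet _).image _)).trans ?_
  refine (Set.ncard_image_le (Finset.finite_toSet _)).trans ?_
  rw [Set.ncard_coe_finset]
  exact card_B 4 u.1

theorem result :
    ¬ (∀ (V : Type) (G : SimpleGraph V), Infinite V → G.Connected →
      (∀ v : V, (G.neighborSet v).Finite) →
      (∀ u v : V, ∃ φ : G ≃g G, φ u = v) →
      ∀ k : ℕ, 1 ≤ k →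
      ∀ S : Set V,
        (∀ u ∈ S, ∀ v ∈ S, u ≠ v → k ≤ G.dist u v) →
        (∀ w : V, w ∉ S → ∃ u ∈ S, G.dist w u < k) →
        sInf {r : ℝ | ∃ A : Finset V, A.Nonempty ∧
            r = (Set.ncard {p : V × V | p.1 ∈ A ∧ p.2 ∉ A ∧ G.Adj p.1 p.2} : ℝ)
              / (A.card : ℝ)}
          ≤
        sInf {r : ℝ | ∃ A : Finset V, A.Nonempty ∧ (↑A : Set V) ⊆ S ∧
            r = (Set.ncard {p : V × V | p.1 ∈ A ∧ p.2 ∈ S ∧ p.2 ∉ A ∧
                  G.dist p.1 p.2 ≤ 2 * k} : ℝ)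
              / (A.card : ℝ)}) := by
  intro h
  have h1 := h V G inferInstance conn locfin trans 2 (by norm_num) S sep maxl
  have hlow : (257 : ℝ) ≤ sInf {r : ℝ | ∃ A : Finset V, A.Nonempty ∧
      r = (Set.ncard {p : V × V | p.1 ∈ A ∧ p.2 ∉ A ∧ G.Adj p.1 p.2} : ℝ) / (A.card : ℝ)} := by
    apply le_csInf
    · exact ⟨_, {((0, 0), 0)}, by simp, rfl⟩
    · rintro r ⟨A, hA, rfl⟩
      have hpos : (0 : ℝ) < A.card := by exact_mod_cast hA.card_pos
      rw [le_div_iff₀ hpos]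
      exact_mod_cast lower A
  have hup : sInf {r : ℝ | ∃ A : Finset V, A.Nonempty ∧ (↑A : Set V) ⊆ S ∧
      r = (Set.ncard {p : V × V | p.1 ∈ A ∧ p.2 ∈ S ∧ p.2 ∉ A ∧
        G.dist p.1 p.2 ≤ 2 * 2} : ℝ) / (A.card : ℝ)} ≤ 256 := by
    refine csInf_le_of_le ⟨0, ?_⟩ (b := _) ⟨{((0, 0), 0)}, by simp, ?_, rfl⟩ ?_
    · rintro r ⟨A, _, _, rfl⟩
      positivity
    · intro x hx
      simp only [Finset.coe_singleton, Set.mem_singleton_iff] at hx
      subst hx
      exact ⟨rfl, rfl⟩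
    · rw [Finset.card_singleton, Nat.cast_one, div_one]
      exact_mod_cast upper _
  linarith

end Pool.Agent.S07874
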