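import Pool.Statements.S07886
-- import your own Pool.Agent.* helpers here

set_option autoImplicit false
open Pool Pool.MP_2dea4c_co

namespace Pool.Agent.S07886

def tl : Fin 18 → Fin 9 := ![2, 3, 3, 1, 0, 4, 5, 0, 5, 5, 4, 1, 1, 2, 3, 3, 8, 8]

def hd : Fin 18 → Fin 9 := ![5, 5, 4, 4, 2, 2, 1, 1, 6, 6, 6, 7, 7, 7, 8, 8, 3, 3]

set_option synthInstance.maxSize 100000 in
lemma key : ∀ b0 : Fin 2, 
    ∀ b1 : Fin 2, (0 : Fin 2) ∈ [b0, b1] → (1 : Fin 2) ∈ [b0, b1] → 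
    ∀ b2 : Fin 2, (0 : Fin 2) ∈ [b1, b2] → (1 : Fin 2) ∈ [b1, b2] → 
    ∀ b3 : Fin 2, (0 : Fin 2) ∈ [b2, b3] → (1 : Fin 2) ∈ [b2, b3] → 
    ∀ b4 : Fin 2, 
    ∀ b5 : Fin 2, (0 : Fin 2) ∈ [b4, b5] → (1 : Fin 2) ∈ [b4, b5] → 
    ∀ b6 : Fin 2, 
    ∀ b7 : Fin 2, (0 : Fin 2) ∈ [b6, b7] → (1 : Fin 2) ∈ [b6, b7] → (0 : Fin 2) ∈ [b4, b7] → (1 : Fin 2) ∈ [b4, b7] → 
    ∀ b8 : Fin 2, 
    ∀ b9 : Fin 2, 
    ∀ b10 : Fin 2, (0 : Fin 2) ∈ [b8, b9, b10] → (1 : Fin 2) ∈ [b8, b9, b10] → (0 : Fin 2) ∈ [b0, b2, b6, b10] → (1 : Fin 2) ∈ [b0, b2, b6, b10] → (0 : Fin 2) ∈ [b1, b3, b5, b10] → (1 : Fin 2) ∈ [b1, b3, b5, b10] → 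
    ∀ b11 : Fin 2, 
    ∀ b12 : Fin 2, 
    ∀ b13 : Fin 2, (0 : Fin 2) ∈ [b11, b12, b13] → (1 : Fin 2) ∈ [b11, b12, b13] → (0 : Fin 2) ∈ [b0, b5, b7, b13] → (1 : Fin 2) ∈ [b0, b5, b7, b13] → (0 : Fin 2) ∈ [b3, b4, b6, b13] → (1 : Fin 2) ∈ [b3, b4, b6, b13] → 
    ∀ b14 : Fin 2, 
    ∀ b15 : Fin 2, (0 : Fin 2) ∈ [b14, b15] → (1 : Fin 2) ∈ [b14, b15] → 
    ∀ b16 : Fin 2, 
    ∀ b17 : Fin 2, (0 : Fin 2) ∈ [b16, b17] → (1 : Fin 2) ∈ [b16, b17] → 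
    False := by
  decide +kernel

def cr (p : Fin 9 → ℕ) (a : Fin 18) : ℕ := if p (tl a) ≠ p (hd a) then 1 else 0

lemma grow (p : Fin 9 → ℕ) (S : Finset (Fin 9)) (u v : Fin 9) (a : Fin 18) (hu : u ∈ S)
    (h : (tl a = u ∧ hd a = v) ∨ (tl a = v ∧ hd a = u)) :
    ((insert v S).image p).card ≤ (S.image p).card + cr p a := by
  rw [Finset.image_insert]
  by_cases he : p u = p v
  · rw [Finset.insert_eq_of_mem (he ▸ Finset.mem_image_of_mem p hu)]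
    exact Nat.le_add_right _ _
  · have : cr p a = 1 := by
      unfold cr
      rcases h with ⟨h1, h2⟩ | ⟨h1, h2⟩
      · rw [h1, h2, if_pos he]
      · rw [h1, h2, if_pos (Ne.symm he)]
    rw [this]
    exact Finset.card_insert_le _ _

lemma pc (p : Fin 9 → ℕ) : 2 * ((Finset.univ.image p).card - 1) ≤
    Fintype.card {a : Fin 18 // p (tl a) ≠ p (hd a)} := by
  have hs : Fintype.card {a : Fin 18 // p (tl a) ≠ p (hd a)} = ∑ a : Fin 18, cr p a := by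
    rw [Fintype.card_subtype, Finset.card_filter]; rfl
  rw [hs]
  simp only [Fin.sum_univ_succ, Fin.sum_univ_zero]
  have h0 : ((({0} : Finset (Fin 9))).image p).card = 1 := by simp
  have s0 := grow p ({0} : Finset (Fin 9)) 0 2 4 (by decide) (by decide)
  have s1 := grow p ({2, 0} : Finset (Fin 9)) 2 4 5 (by decide) (by decide)
  have s2 := grow p ({4, 2, 0} : Finset (Fin 9)) 2 5 0 (by decide) (by decide)
  have s3 := grow p ({5, 4, 2, 0} : Finset (Fin 9)) 5 3 1 (by decide) (by decide)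
  have s4 := grow p ({3, 5, 4, 2, 0} : Finset (Fin 9)) 4 1 3 (by decide) (by decide)
  have s5 := grow p ({1, 3, 5, 4, 2, 0} : Finset (Fin 9)) 5 6 8 (by decide) (by decide)
  have s6 := grow p ({6, 1, 3, 5, 4, 2, 0} : Finset (Fin 9)) 1 7 11 (by decide) (by decide)
  have s7 := grow p ({7, 6, 1, 3, 5, 4, 2, 0} : Finset (Fin 9)) 3 8 14 (by decide) (by decide)
  have su : ({8, 7, 6, 1, 3, 5, 4, 2, 0} : Finset (Fin 9)) = Finset.univ := by decide
  rw [su] at s7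
  have t0 := grow p ({0} : Finset (Fin 9)) 0 1 7 (by decide) (by decide)
  have t1 := grow p ({1, 0} : Finset (Fin 9)) 1 7 12 (by decide) (by decide)
  have t2 := grow p ({7, 1, 0} : Finset (Fin 9)) 7 2 13 (by decide) (by decide)
  have t3 := grow p ({2, 7, 1, 0} : Finset (Fin 9)) 1 5 6 (by decide) (by decide)
  have t4 := grow p ({5, 2, 7, 1, 0} : Finset (Fin 9)) 5 6 9 (by decide) (by decide)
  have t5 := grow p ({6, 5, 2, 7, 1, 0} : Finset (Fin 9)) 6 4 10 (by decide) (by decide)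
  have t6 := grow p ({4, 6, 5, 2, 7, 1, 0} : Finset (Fin 9)) 4 3 2 (by decide) (by decide)
  have t7 := grow p ({3, 4, 6, 5, 2, 7, 1, 0} : Finset (Fin 9)) 3 8 15 (by decide) (by decide)
  have tu : ({8, 3, 4, 6, 5, 2, 7, 1, 0} : Finset (Fin 9)) = Finset.univ := by decide
  rw [tu] at t7
  change _ ≤ cr p 0 + (cr p 1 + (cr p 2 + (cr p 3 + (cr p 4 + (cr p 5 + (cr p 6 + (cr p 7 + (cr p 8 + (cr p 9 + (cr p 10 + (cr p 11 + (cr p 12 + (cr p 13 + (cr p 14 + (cr p 15 + (cr p 16 + (cr p 17 + 0)))))))))))))))))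
  omega

lemma cut {V : Type} (G : SimpleGraph V) (S : V → Prop) {u w : V} (h : G.Reachable u w)
    (hu : S u) (hw : ¬ S w) : ∃ x y, G.Adj x y ∧ S x ∧ ¬ S y := by
  obtain ⟨P⟩ := h
  induction P with
  | nil => exact absurd hu hw
  | @cons x y z hxy P ih =>
    by_cases hy : S y
    · exact ih hy hw
    · exact ⟨x, y, hxy, hu, hy⟩

theorem result :
    ¬ (∀ (V : Type) [Fintype V] [DecidableEq V] (A : Type) [Fintype A]
      (tail head : A → V) (k : ℕ) (r₀ : V),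
      0 < k →
      (∀ a : A, tail a ≠ head a) →
      (∀ p : V → ℕ,
        k * ((Finset.univ.image p).card - 1) ≤
          Fintype.card {a : A // p (tail a) ≠ p (head a)}) →
      (∀ a : A, head a ≠ r₀) →
      (∀ v : V, v ≠ r₀ → k ≤ Fintype.card {a : A // head a = v}) →
      ∃ f : A → Fin k,
        (∀ i : Fin k,
          (SimpleGraph.fromRel
            (fun u v : V => ∃ a : A, f a = i ∧ tail a = u ∧ head a = v)).Connected) ∧
        (∀ i : Fin k, ∀ v : V, v ≠ r₀ → ∃ a : A, f a = i ∧ head a = v)) := by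
  intro h
  obtain ⟨f, hc, hi⟩ := h (Fin 9) (Fin 18) tl hd 2 0 (by norm_num) (by decide) pc (by decide)
    (by decide +kernel)
  have hin : ∀ (i : Fin 2) (v : Fin 9) (L : List (Fin 18)), v ≠ 0 →
      (∀ a, hd a = v → a ∈ L) → i ∈ L.map f := by
    intro i v L hv hL
    obtain ⟨a, h1, h2⟩ := hi i v hv
    exact List.mem_map.mpr ⟨a, hL a h2, h1⟩
  have hcut : ∀ (i : Fin 2) (S : List (Fin 9)) (L : List (Fin 18)) (w : Fin 9), 0 ∈ S → w ∉ S →
      (∀ a, (tl a ∈ S ↔ hd a ∈ S) ∨ a ∈ L) → i ∈ L.map f := by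
    intro i S L w h0 hw hL
    obtain ⟨x, y, hxy, hx, hy⟩ := cut _ (fun v => v ∈ S) ((hc i).preconnected 0 w) h0 hw
    rw [SimpleGraph.fromRel_adj] at hxy
    obtain ⟨-, ⟨a, h1, h2, h3⟩ | ⟨a, h1, h2, h3⟩⟩ := hxy
    · rcases hL a with h4 | h4
      · rw [h2, h3] at h4; exact absurd (h4.mp hx) hy
      · exact List.mem_map.mpr ⟨a, h4, h1⟩
    · rcases hL a with h4 | h4
      · rw [h2, h3] at h4; exact absurd (h4.mpr hx) hy
      · exact List.mem_map.mpr ⟨a, h4, h1⟩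
  exact key (f 0) 
    (f 1) (hin 0 5 [0, 1] (by decide) (by decide)) (hin 1 5 [0, 1] (by decide) (by decide)) 
    (f 2) (hcut 0 [0, 1, 2, 4, 5, 6, 7] [1, 2] 3 (by decide) (by decide) (by decide)) (hcut 1 [0, 1, 2, 4, 5, 6, 7] [1, 2] 3 (by decide) (by decide) (by decide)) 
    (f 3) (hin 0 4 [2, 3] (by decide) (by decide)) (hin 1 4 [2, 3] (by decide) (by decide)) 
    (f 4) 
    (f 5) (hin 0 2 [4, 5] (by decide) (by decide)) (hin 1 2 [4, 5] (by decide) (by decide)) 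
    (f 6) 
    (f 7) (hin 0 1 [6, 7] (by decide) (by decide)) (hin 1 1 [6, 7] (by decide) (by decide)) (hcut 0 [0] [4, 7] 1 (by decide) (by decide) (by decide)) (hcut 1 [0] [4, 7] 1 (by decide) (by decide) (by decide)) 
    (f 8) 
    (f 9) 
    (f 10) (hin 0 6 [8, 9, 10] (by decide) (by decide)) (hin 1 6 [8, 9, 10] (by decide) (by decide)) (hcut 0 [0, 1, 2, 4, 7] [0, 2, 6, 10] 3 (by decide) (by decide) (by decide)) (hcut 1 [0, 1, 2, 4, 7] [0, 2, 6, 10] 3 (by decide) (by decide) (by decide)) (hcut 0 [0, 1, 2, 5, 6, 7] [1, 3, 5, 10] 3 (by decide) (by decide) (by decide)) (hcut 1 [0, 1, 2, 5, 6, 7] [1, 3, 5, 10] 3 (by decide) (by decide) (by decide)) 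
    (f 11) 
    (f 12) 
    (f 13) (hin 0 7 [11, 12, 13] (by decide) (by decide)) (hin 1 7 [11, 12, 13] (by decide) (by decide)) (hcut 0 [0, 2] [0, 5, 7, 13] 1 (by decide) (by decide) (by decide)) (hcut 1 [0, 2] [0, 5, 7, 13] 1 (by decide) (by decide) (by decide)) (hcut 0 [0, 1, 7] [3, 4, 6, 13] 2 (by decide) (by decide) (by decide)) (hcut 1 [0, 1, 7] [3, 4, 6, 13] 2 (by decide) (by decide) (by decide)) 
    (f 14) 
    (f 15) (hin 0 8 [14, 15] (by decide) (by decide)) (hin 1 8 [14, 15] (by decide) (by decide)) 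
    (f 16) 
    (f 17) (hin 0 3 [16, 17] (by decide) (by decide)) (hin 1 3 [16, 17] (by decide) (by decide)) 
    
end Pool.Agent.S07886
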