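import Pool.Statements.S07942

set_option autoImplicit false
open Pool Pool.MP_30ed83_co

namespace Pool.Agent.S07942

/-- The claw with centre `0`. -/
def claw : SimpleGraph (Fin 4) where
  Adj a b := (a = 0 ∧ b ≠ 0) ∨ (b = 0 ∧ a ≠ 0)
  symm := ⟨fun _ _ h => h.symm⟩
  loopless := ⟨fun a h => by rcases h with h | h <;> exact h.2 h.1⟩

/-- Closed walks of length `L`, as functions on the naturals. -/
def CW {V : Type} (G : SimpleGraph V) (L : ℕ) (f : ℕ → V) : Prop :=
  (∀ i, i < L → G.Adj (f i) (f (i + 1))) ∧ f L = f 0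

theorem chord {V : Type} (G : SimpleGraph V) (L : ℕ) (f : ℕ → V) (hf : CW G L f) (hL : Odd L)
    (hmin : ∀ L', L' < L → Odd L' → ∀ g, ¬ CW G L' g) (i j : ℕ) (hij : i < j) (hj : j < L)
    (h : G.Adj (f i) (f j)) : j = i + 1 ∨ (i = 0 ∧ j + 1 = L) := by
  by_contra hne
  have h1 : CW G (j - i + 1) (fun t => if t ≤ j - i then f (i + t) else f i) := by
    refine ⟨?_, ?_⟩
    · intro t ht
      by_cases h2 : t + 1 ≤ j - i
      · have h3 : t ≤ j - i := by omega
        simp only [h2, h3, if_true]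
        exact hf.1 (i + t) (by omega)
      · have h3 : t ≤ j - i := by omega
        have h4 : i + t = j := by omega
        simp only [h2, h3, if_true, if_false, h4]
        exact h.symm
    · simp
  have h2 : CW G (L - (j - i) + 1) (fun t => if t ≤ i then f t else f (t + (j - i - 1))) := by
    refine ⟨?_, ?_⟩
    · intro t ht
      by_cases h2 : t + 1 ≤ i
      · have h3 : t ≤ i := by omega
        simp only [h2, h3, if_true]
        exact hf.1 t (by omega)
      · by_cases h3 : t ≤ i
        · have h4 : t + 1 + (j - i - 1) = j := by omega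
          have h5 : t = i := by omega
          simp only [h2, h3, if_true, if_false, h4]
          rw [h5]; exact h
        · simp only [h2, h3, if_false]
          have h4 : t + 1 + (j - i - 1) = t + (j - i - 1) + 1 := by omega
          rw [h4]
          exact hf.1 _ (by omega)
    · have h3 : ¬ (L - (j - i) + 1 ≤ i) := by omega
      have h4 : L - (j - i) + 1 + (j - i - 1) = L := by omega
      simp only [h3, if_false, h4, Nat.zero_le, if_true]
      exact hf.2
  obtain ⟨k, hk⟩ := hL
  rcases Nat.even_or_odd (j - i) with ⟨m, hm⟩ | ⟨m, hm⟩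
  · exact hmin (j - i + 1) (by omega) ⟨m, by omega⟩ _ h1
  · exact hmin (L - (j - i) + 1) (by omega) ⟨k - m, by omega⟩ _ h2

theorem claw_col : claw.Colorable 2 := by
  refine ⟨SimpleGraph.Coloring.mk (fun a => if a = 0 then 0 else 1) ?_⟩
  intro a b h
  rcases h with ⟨h1, h2⟩ | ⟨h1, h2⟩ <;> simp [h1, h2]

/-- Counterexample: F is the claw and r = 2. A shortest odd closed walk of a non-bipartite graph
induces a claw-free subgraph that is not 2-colourable. -/
theorem result :
    ¬ (∀ (n : ℕ) (F : SimpleGraph (Fin n)), F ≠ ⊥ →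
      ∀ r : ℕ, ∃ (m : ℕ) (G : SimpleGraph (Fin m)),
        (r : ℕ∞) < G.chromaticNumber ∧
        G.cliqueNum = F.cliqueNum ∧
        ∀ s : Set (Fin m), ¬ F.IsIndContained (G.induce s) →
          (G.induce s).chromaticNumber ≤ F.chromaticNumber) := by
  classical
  intro H
  obtain ⟨m, G, hχ, -, hs⟩ := H 4 claw (by
    intro h
    have : claw.Adj 0 1 := Or.inl ⟨rfl, by decide⟩
    rw [h] at this
    exact this) 2
  have hnc : ¬ G.Colorable 2 := by
    intro hc
    exact absurd hc.chromaticNumber_le (not_le.mpr hχ)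
  rw [SimpleGraph.two_colorable_iff_forall_loop_even] at hnc
  push Not at hnc
  obtain ⟨u, w, hw⟩ := hnc
  have hex : ∃ L, Odd L ∧ ∃ f, CW G L f :=
    ⟨w.length, Nat.not_even_iff_odd.mp hw, w.getVert,
      fun i hi => w.adj_getVert_succ hi, by simp⟩
  obtain ⟨hodd, f, hf⟩ := Nat.find_spec hex
  set L := Nat.find hex with hLdef
  have hmin : ∀ L', L' < L → Odd L' → ∀ g, ¬ CW G L' g := by
    intro L' hL' ho g hg
    exact Nat.find_min hex hL' ⟨ho, g, hg⟩
  have hL0 : 0 < L := hodd.pos
  have key : ∀ i j, i < L → j < L → G.Adj (f i) (f j) →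
      (j = i + 1 ∨ (i + 1 = L ∧ j = 0)) ∨ (i = j + 1 ∨ (i = 0 ∧ j + 1 = L)) := by
    intro i j hi hj h
    rcases lt_trichotomy i j with h1 | h1 | h1
    · rcases chord G L f hf hodd hmin i j h1 hj h with h2 | h2 <;> omega
    · subst h1; exact absurd h (G.irrefl)
    · rcases chord G L f hf hodd hmin j i h1 hi h.symm with h2 | h2 <;> omega
  let s : Set (Fin m) := {x | ∃ i, i < L ∧ f i = x}
  have hfree : ¬ claw.IsIndContained (G.induce s) := by
    rintro ⟨e⟩
    obtain ⟨i0, hi0, h0⟩ := (e 0).2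
    obtain ⟨i1, hi1, h1⟩ := (e 1).2
    obtain ⟨i2, hi2, h2⟩ := (e 2).2
    obtain ⟨i3, hi3, h3⟩ := (e 3).2
    have a1 : (G.induce s).Adj (e 0) (e 1) := e.map_adj_iff.mpr (Or.inl ⟨rfl, by decide⟩)
    have a2 : (G.induce s).Adj (e 0) (e 2) := e.map_adj_iff.mpr (Or.inl ⟨rfl, by decide⟩)
    have a3 : (G.induce s).Adj (e 0) (e 3) := e.map_adj_iff.mpr (Or.inl ⟨rfl, by decide⟩)
    have b1 : G.Adj (f i0) (f i1) := by rw [h0, h1]; exact a1
    have b2 : G.Adj (f i0) (f i2) := by rw [h0, h2]; exact a2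
    have b3 : G.Adj (f i0) (f i3) := by rw [h0, h3]; exact a3
    have n12 : i1 ≠ i2 := by
      intro h
      have : e 1 = e 2 := Subtype.ext (by rw [← h1, ← h2, h])
      exact absurd (e.injective this) (by decide)
    have n13 : i1 ≠ i3 := by
      intro h
      have : e 1 = e 3 := Subtype.ext (by rw [← h1, ← h3, h])
      exact absurd (e.injective this) (by decide)
    have n23 : i2 ≠ i3 := by
      intro h
      have : e 2 = e 3 := Subtype.ext (by rw [← h2, ← h3, h])
      exact absurd (e.injective this) (by decide)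
    have k1 := key _ _ hi0 hi1 b1
    have k2 := key _ _ hi0 hi2 b2
    have k3 := key _ _ hi0 hi3 b3
    omega
  have hle := (hs s hfree).trans claw_col.chromaticNumber_le
  obtain ⟨c⟩ := SimpleGraph.chromaticNumber_le_iff_colorable.mp hle
  have hmem : ∀ i, i ≤ L → f i ∈ s := by
    intro i hi
    rcases Nat.lt_or_ge i L with h | h
    · exact ⟨i, h, rfl⟩
    · have : i = L := by omega
      rw [this, hf.2]
      exact ⟨0, hL0, rfl⟩
  have hpar : ∀ i (hi : i ≤ L),
      ((c ⟨f i, hmem i hi⟩).val + i) % 2 = (c ⟨f 0, hmem 0 (Nat.zero_le _)⟩).val % 2 := by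
    intro i
    induction i with
    | zero => intro _; simp
    | succ i ih =>
      intro hi
      have h1 := ih (by omega)
      have h2 : (G.induce s).Adj ⟨f i, hmem i (by omega)⟩ ⟨f (i + 1), hmem _ hi⟩ :=
        hf.1 i (by omega)
      have h3 := c.valid h2
      have h4 : (c ⟨f i, hmem i (by omega)⟩).val ≠ (c ⟨f (i + 1), hmem _ hi⟩).val :=
        fun h => h3 (Fin.ext h)
      have h5 := (c ⟨f i, hmem i (by omega)⟩).isLt
      have h6 := (c ⟨f (i + 1), hmem _ hi⟩).isLt
      omega
  have h1 := hpar L le_rfl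
  have h2 : (⟨f L, hmem L le_rfl⟩ : s) = ⟨f 0, hmem 0 (Nat.zero_le _)⟩ := Subtype.ext hf.2
  rw [h2] at h1
  obtain ⟨k, hk⟩ := hodd
  omega

end Pool.Agent.S07942
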