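import Pool.Statements.S07947

set_option autoImplicit false
open Classical
open Pool Pool.MP_31464c_co

namespace Pool.Agent.S07947

open SimpleGraph

/-- A path has at most two edges at any vertex. -/
theorem path_not_three {V : Type} {H : SimpleGraph V} {u w : V} (p : H.Walk u w) (hp : p.IsPath)
    (v x y z : V) (hxy : x ≠ y) (hxz : x ≠ z) (hyz : y ≠ z)
    (hx : s(v, x) ∈ p.edges) (hy : s(v, y) ∈ p.edges) (hz : s(v, z) ∈ p.edges) : False := by
  induction p with
  | nil => simp at hx
  | @cons a b c h q ih =>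
    rw [Walk.cons_isPath_iff] at hp
    obtain ⟨hq, ha⟩ := hp
    by_cases hva : v = a
    · subst hva
      have key : ∀ t, s(v, t) ∈ (Walk.cons h q).edges → t = b := by
        intro t ht
        rw [Walk.edges_cons, List.mem_cons] at ht
        rcases ht with ht | ht
        · rcases Sym2.eq_iff.mp ht with ⟨_, h2⟩ | ⟨h1, _⟩
          · exact h2
          · exact absurd h1 h.ne
        · exact absurd (q.fst_mem_support_of_mem_edges ht) ha
      exact hxy ((key x hx).trans (key y hy).symm)
    · by_cases hvb : v = b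
      · subst hvb
        have key : ∀ t, s(v, t) ∈ (Walk.cons h q).edges → t = a ∨ t = q.snd := by
          intro t ht
          rw [Walk.edges_cons, List.mem_cons] at ht
          rcases ht with ht | ht
          · rcases Sym2.eq_iff.mp ht with ⟨h1, _⟩ | ⟨_, h2⟩
            · exact absurd h1 hva
            · exact Or.inl h2
          · exact Or.inr (hq.eq_snd_of_mem_edges ht)
        rcases key x hx with h1 | h1 <;> rcases key y hy with h2 | h2 <;>
          rcases key z hz with h3 | h3 <;> simp_all
      · have key : ∀ t, s(v, t) ∈ (Walk.cons h q).edges → s(v, t) ∈ q.edges := by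
          intro t ht
          rw [Walk.edges_cons, List.mem_cons] at ht
          rcases ht with ht | ht
          · rcases Sym2.eq_iff.mp ht with ⟨h1, _⟩ | ⟨h1, _⟩
            · exact absurd h1 hva
            · exact absurd h1 hvb
          · exact ht
        exact ih hq (key x hx) (key y hy) (key z hz)

/-- A walk none of whose edges changes side stays on the side of its start. -/
theorem walk_side {V : Type} {H : SimpleGraph V} (S : V → Prop) {u w : V} (p : H.Walk u w)
    (h : ∀ a b, s(a, b) ∈ p.edges → (S a ↔ S b)) : ∀ x ∈ p.support, (S x ↔ S u) := by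
  induction p with
  | nil => intro x hx; simp at hx; rw [hx]
  | @cons a b c hab q ih =>
    intro x hx
    rw [Walk.support_cons, List.mem_cons] at hx
    rcases hx with hx | hx
    · rw [hx]
    · have h1 := ih (fun s t hst => h s t (by rw [Walk.edges_cons]; exact List.mem_cons_of_mem _ hst)) x hx
      have h2 := h a b (by rw [Walk.edges_cons]; exact List.mem_cons_self)
      exact h1.trans h2.symm

/-- The disjoint union of a complete graph on four vertices and a triangle. -/
def G7 : SimpleGraph (Fin 7) where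
  Adj a b := a ≠ b ∧ (a.val < 4 ↔ b.val < 4)
  symm := ⟨fun _ _ h => ⟨h.1.symm, h.2.symm⟩⟩
  loopless := ⟨fun _ h => h.1 rfl⟩

theorem G7_adj (a b : Fin 7) : G7.Adj a b ↔ (a ≠ b ∧ (a.val < 4 ↔ b.val < 4)) := Iff.rfl

theorem G7_degree (v : Fin 7) [inst : Fintype (G7.neighborSet v)] :
    G7.degree v = if v.val < 4 then 3 else 2 := by
  have h : G7.neighborFinset v =
      Finset.univ.filter (fun b : Fin 7 => v ≠ b ∧ (v.val < 4 ↔ b.val < 4)) := by
    ext b
    simp [G7_adj]
  rw [← card_neighborFinset_eq_degree, h]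
  fin_cases v <;> decide

theorem three_nbrs (a : Fin 7) (ha : a.val < 4) : ∃ x y z : Fin 7, x ≠ y ∧ x ≠ z ∧ y ≠ z ∧
    G7.Adj a x ∧ G7.Adj a y ∧ G7.Adj a z := by
  fin_cases a
  · exact ⟨1, 2, 3, by simp [G7_adj]⟩
  · exact ⟨0, 2, 3, by simp [G7_adj]⟩
  · exact ⟨0, 1, 3, by simp [G7_adj]⟩
  · exact ⟨0, 1, 2, by simp [G7_adj]⟩
  all_goals simp at ha

theorem two_paths {u w u' w' : Fin 7} (p : (⊤ : SimpleGraph (Fin 7)).Walk u w)
    (q : (⊤ : SimpleGraph (Fin 7)).Walk u' w') (hp : p.IsPath) (hq : q.IsPath)
    (h : ∀ a b : Fin 7, G7.Adj a b ↔ ¬ (s(a, b) ∈ p.edges ↔ s(a, b) ∈ q.edges))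
    (h45 : s((4 : Fin 7), (5 : Fin 7)) ∈ p.edges) : False := by
  have nocross : ∀ a b : Fin 7, a.val < 4 → ¬ b.val < 4 → s(a, b) ∉ p.edges := by
    intro a b ha hb hab
    have hq' : s(a, b) ∈ q.edges := by
      by_contra hn
      have : G7.Adj a b := (h a b).mpr (by tauto)
      exact hb (this.2.mp ha)
    obtain ⟨x, y, z, hxy, hxz, hyz, hx, hy, hz⟩ := three_nbrs a ha
    have hxb : x ≠ b := fun e => hb (e ▸ hx.2.mp ha)
    have hyb : y ≠ b := fun e => hb (e ▸ hy.2.mp ha)
    have hzb : z ≠ b := fun e => hb (e ▸ hz.2.mp ha)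
    have ex := (h a x).mp hx
    have ey := (h a y).mp hy
    have ez := (h a z).mp hz
    have P := fun s t (h1 : s ≠ t) (h2 : s ≠ b) (h3 : t ≠ b) h4 h5 =>
      path_not_three p hp a s t b h1 h2 h3 h4 h5 hab
    have Q := fun s t (h1 : s ≠ t) (h2 : s ≠ b) (h3 : t ≠ b) h4 h5 =>
      path_not_three q hq a s t b h1 h2 h3 h4 h5 hq'
    have P1 := P x y hxy hxb hyb
    have P2 := P x z hxz hxb hzb
    have P3 := P y z hyz hyb hzb
    have Q1 := Q x y hxy hxb hyb
    have Q2 := Q x z hxz hxb hzb
    have Q3 := Q y z hyz hyb hzb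
    clear P Q h hq' hab
    generalize (s(a, x) ∈ p.edges) = A1 at *
    generalize (s(a, y) ∈ p.edges) = A2 at *
    generalize (s(a, z) ∈ p.edges) = A3 at *
    generalize (s(a, x) ∈ q.edges) = B1 at *
    generalize (s(a, y) ∈ q.edges) = B2 at *
    generalize (s(a, z) ∈ q.edges) = B3 at *
    by_cases a1 : A1 <;> by_cases a2 : A2 <;> by_cases a3 : A3 <;> simp_all
  have side := walk_side (fun a : Fin 7 => a.val < 4) p (by
    intro a b hab
    constructor
    · intro ha
      by_contra hb
      exact nocross a b ha hb hab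
    · intro hb
      by_contra ha
      exact nocross b a hb ha (by rwa [Sym2.eq_swap]))
  have h4 := side 4 (p.fst_mem_support_of_mem_edges h45)
  have h0 : ∀ t : Fin 7, s((0 : Fin 7), t) ∉ p.edges := by
    intro t ht
    have := side 0 (p.fst_mem_support_of_mem_edges ht)
    have h5 := this.trans h4.symm
    simp at h5
  have e1 := (h 0 1).mp (by simp [G7_adj])
  have e2 := (h 0 2).mp (by simp [G7_adj])
  have e3 := (h 0 3).mp (by simp [G7_adj])
  have n1 := h0 1
  have n2 := h0 2
  have n3 := h0 3
  exact path_not_three q hq 0 1 2 3 (by decide) (by decide) (by decide)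
    (by tauto) (by tauto) (by tauto)

/-- There is a finite simple graph G such that no family of k paths in the complete graph on its vertices, with k at most max(number of odd-degree vertices / 2, ceil((max degree + 1)/2)), has symmetric difference of edge sets equal to E(G). -/
theorem result :
    ∃ (n : ℕ) (G : SimpleGraph (Fin n)),
      ∀ k : ℕ,
        k ≤ max ((Finset.univ.filter (fun x : Fin n => Odd (G.degree x))).card / 2)
                ((G.maxDegree + 2) / 2) →
        ¬ ∃ (u w : Fin k → Fin n)
            (P : ∀ i : Fin k, (⊤ : SimpleGraph (Fin n)).Walk (u i) (w i)),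
            (∀ i, (P i).IsPath) ∧
            ∀ e : Sym2 (Fin n),
              (Odd ((Finset.univ.filter (fun i : Fin k => e ∈ (P i).edges)).card)
                ↔ e ∈ G.edgeSet) := by
  refine ⟨7, G7, ?_⟩
  intro k hk
  have h1 : (Finset.univ.filter (fun x : Fin 7 => Odd (G7.degree x))).card ≤ 4 := by
    have : (Finset.univ.filter (fun x : Fin 7 => Odd (G7.degree x))) ⊆
        Finset.univ.filter (fun x : Fin 7 => x.val < 4) := by
      intro x hx
      simp only [Finset.mem_filter, Finset.mem_univ, true_and] at hx ⊢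
      by_contra hn
      rw [G7_degree, if_neg hn] at hx
      exact absurd hx (by decide)
    refine (Finset.card_le_card this).trans ?_
    decide
  have h2 : G7.maxDegree ≤ 3 := by
    apply maxDegree_le_of_forall_degree_le
    intro v
    rw [G7_degree]
    split_ifs <;> omega
  have hk2 : k ≤ 2 := by
    refine hk.trans (max_le ?_ ?_) <;> omega
  rintro ⟨u, w, P, hP, hE⟩
  have hadj : ∀ a b : Fin 7, G7.Adj a b ↔
      Odd ((Finset.univ.filter (fun i : Fin k => s(a, b) ∈ (P i).edges)).card) := by
    intro a b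
    rw [hE, mem_edgeSet]
  interval_cases k
  · have := (hadj 0 1).mp (by simp [G7_adj])
    simp at this
  · have key : ∀ a b : Fin 7, G7.Adj a b → s(a, b) ∈ (P 0).edges := by
      intro a b hab
      have := (hadj a b).mp hab
      by_contra hn
      have he : (Finset.univ.filter (fun i : Fin 1 => s(a, b) ∈ (P i).edges)) = ∅ := by
        ext i
        fin_cases i
        simpa using hn
      rw [he] at this
      simp at this
    exact path_not_three (P 0) (hP 0) 0 1 2 3 (by decide) (by decide) (by decide)
      (key 0 1 (by simp [G7_adj])) (key 0 2 (by simp [G7_adj])) (key 0 3 (by simp [G7_adj]))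
  · have key : ∀ a b : Fin 7, G7.Adj a b ↔
        ¬ (s(a, b) ∈ (P 0).edges ↔ s(a, b) ∈ (P 1).edges) := by
      intro a b
      rw [hadj, Finset.card_filter, Fin.sum_univ_two]
      by_cases h0 : s(a, b) ∈ (P 0).edges <;> by_cases h1 : s(a, b) ∈ (P 1).edges <;>
        simp [h0, h1]
    have h45 := (key 4 5).mp (by simp [G7_adj])
    by_cases h0 : s((4 : Fin 7), (5 : Fin 7)) ∈ (P 0).edges
    · exact two_paths (P 0) (P 1) (hP 0) (hP 1) key h0
    · refine two_paths (P 1) (P 0) (hP 1) (hP 0) (fun a b => ?_) (by tauto)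
      rw [key]
      tauto

end Pool.Agent.S07947
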