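import Pool.Statements.S07958

set_option autoImplicit false
open Pool Pool.MP_31b721_co

namespace Pool.Agent.S07958

open SimpleGraph

/-- The graph induced by a hypercube on the image of `f`. -/
def cubeG {V : Type} {n : ℕ} (f : V → Fin n → Bool) : SimpleGraph V where
  Adj u v := hammingDist (f u) (f v) = 1
  symm := ⟨fun _ _ h => by rwa [hammingDist_comm]⟩
  loopless := ⟨fun _ h => by simp at h⟩

instance {V : Type} {n : ℕ} (f : V → Fin n → Bool) : DecidableRel (cubeG f).Adj :=
  fun u v => inferInstanceAs (Decidable (hammingDist (f u) (f v) = 1))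

theorem ham_le_length {V : Type} {n : ℕ} (f : V → Fin n → Bool) {u v : V}
    (p : (cubeG f).Walk u v) : hammingDist (f u) (f v) ≤ p.length := by
  induction p with
  | nil => simp
  | @cons a b c h q ih =>
    have h1 : hammingDist (f a) (f b) = 1 := h
    have := hammingDist_triangle (f a) (f b) (f c)
    rw [Walk.length_cons]
    omega

theorem flip_one {n : ℕ} (x : Fin n → Bool) (i : Fin n) (hx : x i = true) :
    hammingDist x (Function.update x i false) = 1 := by
  unfold hammingDist
  rw [Finset.card_eq_one]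
  refine ⟨i, ?_⟩
  ext j
  by_cases hj : j = i
  · subst hj; simp [hx]
  · simp [hj]

theorem flip_dec {n : ℕ} (x y : Fin n → Bool) (i : Fin n) (hx : x i = true) (hy : y i = false) :
    hammingDist (Function.update x i false) y + 1 = hammingDist x y := by
  unfold hammingDist
  have : (Finset.univ.filter (fun j => x j ≠ y j)) =
      insert i (Finset.univ.filter (fun j => Function.update x i false j ≠ y j)) := by
    ext j
    by_cases hj : j = i
    · subst hj; simp [hx, hy]
    · simp [hj]
  rw [this, Finset.card_insert_of_notMem]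
  simp [hy]

theorem exists_walk {V : Type} {n : ℕ} (f : V → Fin n → Bool) (hf : Function.Injective f)
    (hd : ∀ u i, f u i = true → ∃ v, f v = Function.update (f u) i false) (k : ℕ) :
    ∀ u v : V, hammingDist (f u) (f v) = k → ∃ p : (cubeG f).Walk u v, p.length = k := by
  induction k with
  | zero =>
    intro u v h
    have : u = v := hf (hammingDist_eq_zero.mp h)
    subst this
    exact ⟨Walk.nil, rfl⟩
  | succ k ih =>
    intro u v h
    have hne : f u ≠ f v := by
      intro e
      rw [e] at h
      simp at h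
    obtain ⟨i, hi⟩ := Function.ne_iff.mp hne
    cases hu : f u i <;> cases hv : f v i
    · exact absurd (hu.trans hv.symm) hi
    · obtain ⟨w, hw⟩ := hd v i hv
      have h1 := flip_dec (f v) (f u) i hv hu
      rw [← hw, hammingDist_comm (f v), h, hammingDist_comm] at h1
      obtain ⟨p, hp⟩ := ih u w (by omega)
      have hadj : (cubeG f).Adj w v := by
        show hammingDist (f w) (f v) = 1
        rw [hammingDist_comm, hw]
        exact flip_one _ _ hv
      exact ⟨p.concat hadj, by rw [Walk.length_concat, hp]⟩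
    · obtain ⟨w, hw⟩ := hd u i hu
      have h1 := flip_dec (f u) (f v) i hu hv
      rw [← hw, h] at h1
      obtain ⟨p, hp⟩ := ih w v (by omega)
      have hadj : (cubeG f).Adj u w := by
        show hammingDist (f u) (f w) = 1
        rw [hw]
        exact flip_one _ _ hu
      exact ⟨Walk.cons hadj p, by rw [Walk.length_cons, hp]⟩
    · exact absurd (hu.trans hv.symm) hi

theorem iso {V : Type} {n : ℕ} (f : V → Fin n → Bool) (hf : Function.Injective f)
    (hd : ∀ u i, f u i = true → ∃ v, f v = Function.update (f u) i false) (u v : V) :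
    hammingDist (f u) (f v) = (cubeG f).dist u v := by
  obtain ⟨p, hp⟩ := exists_walk f hf hd _ u v rfl
  apply le_antisymm
  · obtain ⟨q, hq⟩ := p.reachable.exists_walk_length_eq_dist
    rw [← hq]
    exact ham_le_length f q
  · rw [← hp]
    exact dist_le p

/-- Parent in the tree with root 0, five children 1..5, each with three leaves. -/
def par (j : ℕ) : ℕ := if j ≤ 5 then 0 else (j - 6) / 3 + 1

/-- The empty set, the 21 singletons, and the 20 edges of the tree. -/
def F (v : Fin 42) (i : Fin 21) : Bool :=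
  if v.val = 0 then false
  else if v.val ≤ 21 then decide (i.val + 1 = v.val)
  else decide (i.val + 21 = v.val) || decide (i.val = par (v.val - 21))

def sv (j : Fin 21) : Fin 42 := ⟨j.val + 1, by omega⟩
def ev (j : Fin 21) : Fin 42 := ⟨j.val + 21, by omega⟩
def pv (j : Fin 21) : Fin 21 := ⟨par j.val % 21, Nat.mod_lt _ (by decide)⟩

theorem F_inj : Function.Injective F := by
  have : ∀ u v : Fin 42, (∀ i, F u i = F v i) → u = v := by decide +kernel
  intro u v h
  exact this u v (fun i => congrFun h i)

theorem F_down : ∀ u i, F u i = true → ∃ v, F v = Function.update (F u) i false := by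
  have : ∀ (u : Fin 42) (i : Fin 21), F u i = true →
      ∃ v : Fin 42, ∀ j, F v j = (if j = i then false else F u j) := by decide +kernel
  intro u i h
  obtain ⟨v, hv⟩ := this u i h
  refine ⟨v, funext fun j => ?_⟩
  rw [hv j, Function.update_apply]

theorem facts1 : ∀ j : Fin 21, (cubeG F).Adj (sv j) 0 := by decide +kernel

theorem facts2 : ∀ j : Fin 21, j ≠ 0 → (cubeG F).Adj (ev j) (sv j) ∧
    (cubeG F).Adj (ev j) (sv (pv j)) ∧ (cubeG F).degree (ev j) ≤ 2 := by decide +kernel

theorem facts3 : ∀ j : Fin 21, (cubeG F).degree (sv j) ≤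
    (if j = 0 then 6 else if j.val ≤ 5 then 5 else 2) := by decide +kernel

theorem facts4 : ∀ j : Fin 21, (j.val ≤ 5 → pv j = 0) ∧
    (¬ j.val ≤ 5 → pv j ≠ 0 ∧ (pv j).val ≤ 5) := by decide +kernel

/-- The negation of the preceding statement: Every finite graph with an edge that embeds isometrically into a hypercube has a proper edge-coloring using exactly colors 1..t for some t ≥ 1, with each vertex's incident edge colors forming a consecutive integer interval. -/
theorem result :
    ¬ (∀ (V : Type) [Fintype V] (G : SimpleGraph V),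
      (∃ u v : V, G.Adj u v) →
      (∃ (n : ℕ) (f : V → (Fin n → Bool)),
          Function.Injective f ∧ ∀ u v : V, hammingDist (f u) (f v) = G.dist u v) →
      ∃ (t : ℕ) (c : Sym2 V → ℕ),
        1 ≤ t ∧
        (∀ u v : V, G.Adj u v → 1 ≤ c s(u, v) ∧ c s(u, v) ≤ t) ∧
        (∀ k : ℕ, 1 ≤ k → k ≤ t → ∃ u v : V, G.Adj u v ∧ c s(u, v) = k) ∧
        (∀ u v w : V, G.Adj u v → G.Adj u w → v ≠ w → c s(u, v) ≠ c s(u, w)) ∧
        (∀ (u v w : V) (k : ℕ), G.Adj u v → G.Adj u w →
            c s(u, v) ≤ k → k ≤ c s(u, w) → ∃ x : V, G.Adj u x ∧ c s(u, x) = k)) := by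
  intro H
  obtain ⟨t, c, -, -, -, hprop, hint⟩ := H (Fin 42) (cubeG F) ⟨_, _, facts1 0⟩
    ⟨21, F, F_inj, iso F F_inj F_down⟩
  have span : ∀ v a b : Fin 42, (cubeG F).Adj v a → (cubeG F).Adj v b →
      c s(v, a) + 1 ≤ c s(v, b) + (cubeG F).degree v := by
    intro v a b ha hb
    have hsub : Finset.Icc (c s(v, b)) (c s(v, a)) ⊆
        ((cubeG F).neighborFinset v).image (fun x => c s(v, x)) := by
      intro k hk
      rw [Finset.mem_Icc] at hk
      obtain ⟨x, hx, hxk⟩ := hint v b a k hb ha hk.1 hk.2
      exact Finset.mem_image.mpr ⟨x, by simpa using hx, hxk⟩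
    have h1 := (Finset.card_le_card hsub).trans Finset.card_image_le
    rw [Nat.card_Icc, card_neighborFinset_eq_degree] at h1
    omega
  obtain ⟨m, hm⟩ : ∃ m : ℕ, ∀ a, (cubeG F).Adj (sv 0) a →
      m ≤ c s(sv 0, a) ∧ c s(sv 0, a) ≤ m + 5 := by
    obtain ⟨b, hb, hmin⟩ := Finset.exists_min_image ((cubeG F).neighborFinset (sv 0))
      (fun x => c s(sv 0, x)) ⟨0, by simpa using facts1 0⟩
    refine ⟨c s(sv 0, b), fun a ha => ⟨hmin a (by simpa using ha), ?_⟩⟩
    have h1 := span (sv 0) a b ha (by simpa using hb)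
    have h2 := facts3 0
    rw [if_pos rfl] at h2
    omega
  have step : ∀ (j : Fin 21) (lo hi d : ℕ), j ≠ 0 → (cubeG F).degree (sv j) ≤ d →
      (∀ a, (cubeG F).Adj (sv (pv j)) a →
        m ≤ c s(sv (pv j), a) + lo ∧ c s(sv (pv j), a) ≤ m + hi) →
      ∀ a, (cubeG F).Adj (sv j) a →
        m ≤ c s(sv j, a) + (lo + d) ∧ c s(sv j, a) ≤ m + (hi + d) := by
    intro j lo hi d hj hd hp a ha
    obtain ⟨e1, e2, e3⟩ := facts2 j hj
    have h1 := hp (ev j) e2.symm
    have h2 := span (ev j) _ _ e1 e2
    have h3 := span (ev j) _ _ e2 e1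
    have h4 := span (sv j) _ _ ha e1.symm
    have h5 := span (sv j) _ _ e1.symm ha
    have s1 : s(ev j, sv j) = s(sv j, ev j) := Sym2.eq_swap
    have s2 : s(ev j, sv (pv j)) = s(sv (pv j), ev j) := Sym2.eq_swap
    rw [s1, s2] at h2 h3
    omega
  have lvl1 : ∀ j : Fin 21, j ≠ 0 → j.val ≤ 5 → ∀ a, (cubeG F).Adj (sv j) a →
      m ≤ c s(sv j, a) + 5 ∧ c s(sv j, a) ≤ m + 10 := by
    intro j hj h5
    have hd := facts3 j
    rw [if_neg hj, if_pos h5] at hd
    have hp := (facts4 j).1 h5
    exact step j 0 5 5 hj hd (by rw [hp]; exact hm)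
  have all : ∀ j : Fin 21, m ≤ c s(sv j, 0) + 7 ∧ c s(sv j, 0) ≤ m + 12 := by
    intro j
    by_cases hj : j = 0
    · subst hj
      have := hm 0 (facts1 0)
      omega
    · by_cases h5 : j.val ≤ 5
      · have := lvl1 j hj h5 0 (facts1 j)
        omega
      · have hd := facts3 j
        rw [if_neg hj, if_neg h5] at hd
        obtain ⟨hp1, hp2⟩ := (facts4 j).2 h5
        exact step j 5 10 2 hj hd (lvl1 (pv j) hp1 hp2) 0 (facts1 j)
  have hcard : (Finset.univ : Finset (Fin 21)).card ≤ (Finset.Icc m (m + 19)).card := by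
    apply Finset.card_le_card_of_injOn (fun j => c s(sv j, 0) + 7)
    · intro j _
      have := all j
      simp only [Finset.coe_Icc, Set.mem_Icc]
      omega
    · intro i _ j _ hij
      by_contra hne
      have hne' : sv i ≠ sv j := by
        intro e
        apply hne
        have : i.val + 1 = j.val + 1 := congrArg Fin.val e
        exact Fin.ext (by omega)
      have := hprop 0 (sv i) (sv j) (facts1 i).symm (facts1 j).symm hne'
      rw [Sym2.eq_swap, show s((0 : Fin 42), sv j) = s(sv j, 0) from Sym2.eq_swap] at this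
      simp only at hij
      omega
  simp at hcard
  omega

end Pool.Agent.S07958
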