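import Pool.Statements.S07966
-- import your own Pool.Agent.* helpers here

set_option autoImplicit false
open Pool Pool.MP_31d2fb_co

namespace Pool.Agent.S07966

def s : Fin 45 → Fin 30 := ![0, 4, 7, 10, 13, 2, 5, 8, 11, 14, 16, 19, 23, 26, 29, 1, 0, 0, 4, 3, 3, 7, 6, 6, 10, 9, 9, 13, 12, 12, 16, 15, 15, 19, 18, 18, 22, 21, 21, 25, 24, 24, 28, 27, 27]
def t : Fin 45 → Fin 30 := ![3, 6, 9, 12, 1, 15, 18, 21, 24, 27, 22, 25, 28, 17, 20, 2, 2, 1, 5, 5, 4, 8, 8, 7, 11, 11, 10, 14, 14, 13, 17, 17, 16, 20, 20, 19, 23, 23, 22, 26, 26, 25, 29, 29, 28]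
def f : Fin 45 → Fin 3 → ZMod 2 := ![![0,0,1],![1,1,0],![0,1,1],![1,0,0],![1,1,1],![1,1,0],![1,1,1],![1,0,1],![1,1,1],![0,1,1],![0,1,1],![0,1,0],![1,1,0],![1,0,1],![1,0,1],![0,0,1],![1,1,1],![1,1,0],![0,0,1],![1,1,0],![1,1,1],![1,1,0],![0,1,1],![1,0,1],![0,1,1],![1,0,0],![1,1,1],![1,0,0],![1,1,1],![0,1,1],![1,1,0],![0,1,1],![1,0,1],![1,1,1],![0,1,0],![1,0,1],![1,0,1],![0,1,1],![1,1,0],![1,1,1],![0,1,0],![1,0,1],![0,1,1],![1,1,0],![1,0,1]]
def i0 : Fin 30 → Fin 45 := ![0, 4, 5, 0, 1, 6, 1, 2, 7, 2, 3, 8, 3, 4, 9, 5, 10, 13, 6, 11, 14, 7, 10, 12, 8, 11, 13, 9, 12, 14]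
def i1 : Fin 30 → Fin 45 := ![16, 15, 15, 19, 18, 18, 22, 21, 21, 25, 24, 24, 28, 27, 27, 31, 30, 30, 34, 33, 33, 37, 36, 36, 40, 39, 39, 43, 42, 42]
def i2 : Fin 30 → Fin 45 := ![17, 17, 16, 20, 20, 19, 23, 23, 22, 26, 26, 25, 29, 29, 28, 32, 32, 31, 35, 35, 34, 38, 38, 37, 41, 41, 40, 44, 44, 43]

theorem hinc : ∀ v e, (s e = v ∨ t e = v) ↔ (e = i0 v ∨ e = i1 v ∨ e = i2 v) := by
  decide +kernel
theorem hne : ∀ v, i0 v ≠ i1 v ∧ i0 v ≠ i2 v ∧ i1 v ≠ i2 v := by decide +kernel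

theorem ev (C : Finset (Fin 45))
    (h : ∀ v : Fin 30, Even (C.filter (fun e : Fin 45 => s e = v ∨ t e = v)).card) (v : Fin 30) :
    decide (i0 v ∈ C) = xor (decide (i1 v ∈ C)) (decide (i2 v ∈ C)) := by
  have h1 := h v
  have h2 : C.filter (fun e : Fin 45 => s e = v ∨ t e = v) =
      ({i0 v, i1 v, i2 v} : Finset (Fin 45)).filter (fun e => e ∈ C) := by
    ext e
    simp only [Finset.mem_filter, hinc, Finset.mem_insert, Finset.mem_singleton]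
    exact and_comm
  obtain ⟨n1, n2, n3⟩ := hne v
  rw [h2, Finset.card_filter, Finset.sum_insert (by simp [n1, n2]),
    Finset.sum_insert (by simp [n3]), Finset.sum_singleton] at h1
  by_cases a : i0 v ∈ C <;> by_cases b : i1 v ∈ C <;> by_cases c : i2 v ∈ C <;>
    simp [a, b, c] at h1 ⊢ <;> exact absurd h1 (by decide)

theorem tri : ∀ a b c x y z : Bool, a = xor y z → b = xor x z → c = xor x y → c = xor a b := by
  decide

theorem ev2 (p : Fin 45 → Bool) (h : ∀ v, p (i0 v) = xor (p (i1 v)) (p (i2 v))) :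
    p 5 = xor (p 0) (p 4) ∧ p 6 = xor (p 0) (p 1) ∧ p 7 = xor (p 1) (p 2) ∧
    p 8 = xor (p 2) (p 3) ∧ p 9 = xor (p 3) (p 4) ∧ p 13 = xor (p 5) (p 10) ∧
    p 14 = xor (p 6) (p 11) ∧ p 12 = xor (p 7) (p 10) ∧ p 13 = xor (p 8) (p 11) :=
  ⟨tri _ _ _ _ _ _ (h 0) (h 1) (h 2), tri _ _ _ _ _ _ (h 3) (h 4) (h 5),
   tri _ _ _ _ _ _ (h 6) (h 7) (h 8), tri _ _ _ _ _ _ (h 9) (h 10) (h 11),
   tri _ _ _ _ _ _ (h 12) (h 13) (h 14), tri _ _ _ _ _ _ (h 15) (h 16) (h 17),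
   tri _ _ _ _ _ _ (h 18) (h 19) (h 20), tri _ _ _ _ _ _ (h 21) (h 22) (h 23),
   tri _ _ _ _ _ _ (h 24) (h 25) (h 26)⟩

def ext (a0 a1 a2 a3 a4 a10 : Bool) : Fin 15 → Bool :=
  ![a0, a1, a2, a3, a4, xor a0 a4, xor a0 a1, xor a1 a2, xor a2 a3, xor a3 a4, a10,
    xor (xor a2 a3) (xor (xor a0 a4) a10), xor (xor a1 a2) a10, xor (xor a0 a4) a10,
    xor (xor a0 a1) (xor (xor a2 a3) (xor (xor a0 a4) a10))]

theorem pet : ∀ a0 a1 a2 a3 a4 a10 b0 b1 b2 b3 b4 b10 : Bool,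
    ¬ ∀ e, ext a0 a1 a2 a3 a4 a10 e = true ∨ ext b0 b1 b2 b3 b4 b10 e = true := by
  decide +kernel

theorem ev3 (p : Fin 45 → Bool) (h : ∀ v, p (i0 v) = xor (p (i1 v)) (p (i2 v))) (e : Fin 15) :
    ext (p 0) (p 1) (p 2) (p 3) (p 4) (p 10) e = p (e.castLE (by norm_num)) := by
  obtain ⟨h5, h6, h7, h8, h9, h13, h14, h12, h11⟩ := ev2 p h
  have h11' : p 11 = xor (p 8) (p 13) := by rw [h11]; simp
  fin_cases e
  · rfl
  · rfl
  · rfl
  · rfl
  · rfl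
  · exact h5.symm
  · exact h6.symm
  · exact h7.symm
  · exact h8.symm
  · exact h9.symm
  · rfl
  · change _ = p 11
    rw [h11', h13, h8, h5]; rfl
  · change _ = p 12
    rw [h12, h7]; rfl
  · change _ = p 13
    rw [h13, h5]; rfl
  · change _ = p 14
    rw [h14, h11', h13, h8, h5, h6]; rfl

/-- The negation of the preceding statement: For every finite loopless cubic multigraph with a nowhere-zero Z2^3 flow using at most 5 distinct vertex lines, every 2-factor C0 extends by a second 2-factor C1 and an even subgraph C2 so that C0, C1, C2 together cover all edges. -/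
theorem result :
    ¬ (∀ (n m : ℕ) (s t : Fin m → Fin n), (∀ e, s e ≠ t e) →
      (∀ v : Fin n, (Finset.univ.filter (fun e : Fin m => s e = v ∨ t e = v)).card = 3) →
      (∃ f : Fin m → (Fin 3 → ZMod 2), (∀ e, f e ≠ 0) ∧
        (∀ v : Fin n, ∑ e ∈ Finset.univ.filter (fun e : Fin m => s e = v ∨ t e = v), f e = 0) ∧
        ((Finset.univ : Finset (Fin n)).image
          (fun v : Fin n => (Finset.univ.filter (fun e : Fin m => s e = v ∨ t e = v)).image f)).card ≤ 5) →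
      ∀ C0 : Finset (Fin m),
        (∀ v : Fin n, (C0.filter (fun e : Fin m => s e = v ∨ t e = v)).card = 2) →
        ∃ C1 C2 : Finset (Fin m),
          (∀ v : Fin n, (C1.filter (fun e : Fin m => s e = v ∨ t e = v)).card = 2) ∧
          (∀ v : Fin n, Even (C2.filter (fun e : Fin m => s e = v ∨ t e = v)).card) ∧
          C0 ∪ C1 ∪ C2 = Finset.univ) := by
  intro h
  obtain ⟨C1, C2, h1, h2, h3⟩ := h 30 45 s t (by decide +kernel) (by decide +kernel)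
    ⟨f, by decide +kernel, by decide +kernel, by decide +kernel⟩
    (Finset.univ.filter (fun e => 15 ≤ e.val)) (by decide +kernel)
  have e1 := ev3 (fun e => decide (e ∈ C1)) (ev C1 (fun v => by rw [h1 v]; decide))
  have e2 := ev3 (fun e => decide (e ∈ C2)) (ev C2 h2)
  refine pet (decide (0 ∈ C1)) (decide (1 ∈ C1)) (decide (2 ∈ C1)) (decide (3 ∈ C1))
    (decide (4 ∈ C1)) (decide (10 ∈ C1)) (decide (0 ∈ C2)) (decide (1 ∈ C2)) (decide (2 ∈ C2))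
    (decide (3 ∈ C2)) (decide (4 ∈ C2)) (decide (10 ∈ C2)) (fun e => ?_)
  rw [e1 e, e2 e]
  have h4 : e.castLE (by norm_num : 15 ≤ 45) ∈
      Finset.univ.filter (fun e : Fin 45 => 15 ≤ e.val) ∪ C1 ∪ C2 := by
    rw [h3]; exact Finset.mem_univ _
  have := e.2
  simp only [Finset.mem_union, Finset.mem_filter, Finset.mem_univ, true_and, Fin.val_castLE] at h4
  rcases h4 with (h4 | h4) | h4
  · omega
  · exact Or.inl (decide_eq_true h4)
  · exact Or.inr (decide_eq_true h4)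

end Pool.Agent.S07966
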