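import Pool.Statements.S07998

set_option autoImplicit false
open Pool Pool.MP_32d4a3_co

namespace Pool.Agent.S07998

/-- digit `i` of the word coded by `w` in base four -/
def dg (w : ℕ) (i : Fin 7) : ℕ := w / 4 ^ i.val % 4

/-- the 22 edges, as base-four codes -/
def LL : List ℕ := [6992, 11680, 7428, 15636, 10788, 8996, 11628, 11793, 5409, 2337, 12081, 8533, 10645, 7269, 16229, 8165, 10613, 12057, 6441, 11618, 7447, 11047]

/-- branching test: no cover with at most `k` vertices -/
def nocov : ℕ → List ℕ → Bool
  | 0, L => !L.isEmpty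
  | k + 1, L =>
    match L with
    | [] => false
    | e :: R => (List.finRange 7).all fun i => nocov k ((e :: R).filter fun f => dg f i != dg e i)

theorem nocov_sound : ∀ (k : ℕ) (L : List ℕ) (C : Finset (Fin 7 × ℕ)), nocov k L = true →
    C.card ≤ k → (∀ w ∈ L, ∃ i : Fin 7, (i, dg w i) ∈ C) → False := by
  intro k
  induction k with
  | zero =>
    intro L C h hc hcov
    have hC : C = ∅ := Finset.card_eq_zero.mp (Nat.le_zero.mp hc)
    cases L with
    | nil => simp [nocov] at h
    | cons e R =>
      obtain ⟨i, hi⟩ := hcov e (by simp)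
      simp [hC] at hi
  | succ k ih =>
    intro L C h hc hcov
    cases L with
    | nil => simp [nocov] at h
    | cons e R =>
      obtain ⟨i, hi⟩ := hcov e (by simp)
      simp only [nocov, List.all_eq_true] at h
      have h1 := h i (List.mem_finRange i)
      refine ih _ (C.erase (i, dg e i)) h1 ?_ ?_
      · rw [Finset.card_erase_of_mem hi]; omega
      · intro w hw
        rw [List.mem_filter] at hw
        obtain ⟨j, hj⟩ := hcov w hw.1
        refine ⟨j, Finset.mem_erase.mpr ⟨?_, hj⟩⟩
        intro he
        have h2 := hw.2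
        simp only [Prod.mk.injEq] at he
        obtain ⟨rfl, he⟩ := he
        simp [he] at h2

theorem nocov_LL : nocov 3 LL = true := by decide +kernel

theorem inter_LL : ∀ a ∈ LL, ∀ b ∈ LL,
    2 ≤ (Finset.univ.filter (fun i : Fin 7 => dg a i = dg b i)).card := by decide +kernel


/-- The negation of the preceding statement: For 2 ≤ t ≤ r, every finite r-partite r-uniform hypergraph whose edges pairwise share at least t vertices has a vertex cover of size at most floor((r−t)/2)+1, and some such hypergraph needs exactly that many. -/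
theorem result :
    ¬ (∀ r t : ℕ, 2 ≤ t → t ≤ r →
      (∀ H : Finset (Fin r → ℕ),
          (∀ e ∈ H, ∀ f ∈ H, t ≤ (Finset.univ.filter (fun i => e i = f i)).card) →
          ∃ C : Finset (Fin r × ℕ), C.card ≤ (r - t) / 2 + 1 ∧
            ∀ e ∈ H, ∃ i : Fin r, (i, e i) ∈ C) ∧
      (∃ H : Finset (Fin r → ℕ),
          (∀ e ∈ H, ∀ f ∈ H, t ≤ (Finset.univ.filter (fun i => e i = f i)).card) ∧
          ∀ C : Finset (Fin r × ℕ), (∀ e ∈ H, ∃ i : Fin r, (i, e i) ∈ C) →
            (r - t) / 2 + 1 ≤ C.card)) := by
  intro h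
  obtain ⟨h1, -⟩ := h 7 2 (by norm_num) (by norm_num)
  obtain ⟨C, hc, hcov⟩ := h1 (LL.map dg).toFinset (by
    intro e he f hf
    rw [List.mem_toFinset, List.mem_map] at he hf
    obtain ⟨a, ha, rfl⟩ := he
    obtain ⟨b, hb, rfl⟩ := hf
    exact inter_LL a ha b hb)
  refine nocov_sound 3 LL C nocov_LL (by simpa using hc) ?_
  intro w hw
  exact hcov (dg w) (by rw [List.mem_toFinset]; exact List.mem_map_of_mem hw)

end Pool.Agent.S07998
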