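import Pool.Statements.S08046

set_option autoImplicit false
open Classical
open Pool Pool.MP_34e2ea_co

namespace Pool.Agent.S08046

noncomputable def pa (t : ℝ) : EuclideanSpace ℝ (Fin 4) := !₂[Real.cos t, Real.sin t, 0, 0]

noncomputable def pb (t : ℝ) : EuclideanSpace ℝ (Fin 4) := !₂[0, 0, Real.cos t, Real.sin t]

lemma norm_pa (t : ℝ) : ‖pa t‖ = 1 := by
  rw [EuclideanSpace.norm_eq, Fin.sum_univ_four]
  simp [pa]

lemma norm_pb (t : ℝ) : ‖pb t‖ = 1 := by
  rw [EuclideanSpace.norm_eq, Fin.sum_univ_four]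
  simp [pb]

lemma dist_ab (s t : ℝ) : dist (pa s) (pb t) = Real.sqrt 2 := by
  rw [EuclideanSpace.dist_eq, Fin.sum_univ_four]
  congr 1
  simp [pa, pb, Real.dist_eq]
  nlinarith [Real.cos_sq_add_sin_sq s, Real.cos_sq_add_sin_sq t]

lemma dist_bb (s t η : ℝ) (hη : 0 ≤ η) (h : |s - t| ≤ η) : dist (pb s) (pb t) ≤ 2 * η := by
  rw [EuclideanSpace.dist_eq, Fin.sum_univ_four]
  apply Real.sqrt_le_iff.mpr
  refine ⟨by linarith, ?_⟩
  have h1 := (Real.abs_cos_sub_cos_le s t).trans h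
  have h2 := (Real.abs_sin_sub_sin_le s t).trans h
  have h3 := pow_le_pow_left₀ (abs_nonneg _) h1 2
  have h4 := pow_le_pow_left₀ (abs_nonneg _) h2 2
  rw [sq_abs] at h3 h4
  simp [pb, Real.dist_eq]
  nlinarith

lemma cos_inj {s t : ℝ} (hs : 0 ≤ s ∧ s ≤ 1) (ht : 0 ≤ t ∧ t ≤ 1) (h : Real.cos s = Real.cos t) :
    s = t := by
  have := Real.pi_gt_three
  exact Real.injOn_cos ⟨hs.1, by linarith [hs.2]⟩ ⟨ht.1, by linarith [ht.2]⟩ h

lemma param (η : ℝ) (h0 : 0 < η) (M j : ℕ) (hj : j < M) :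
    0 ≤ η * j / M ∧ η * j / M ≤ η := by
  have hM : (0 : ℝ) < M := by exact_mod_cast (by omega : 0 < M)
  have hj' : (j : ℝ) ≤ M := by exact_mod_cast hj.le
  refine ⟨by positivity, ?_⟩
  rw [div_le_iff₀ hM]
  exact mul_le_mul_of_nonneg_left hj' h0.le

lemma card_img (η : ℝ) (h0 : 0 < η) (h1 : η ≤ 1) (M : ℕ) (g : ℝ → EuclideanSpace ℝ (Fin 4))
    (hg : ∀ s t, g s = g t → Real.cos s = Real.cos t) :
    ((Finset.range M).image (fun j : ℕ => g (η * j / M))).card = M := by
  rw [Finset.card_image_of_injOn, Finset.card_range]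
  intro i hi j hj h
  have hi' : i < M := by simpa using hi
  have hj' : j < M := by simpa using hj
  have a := param η h0 M i hi'
  have b := param η h0 M j hj'
  have c := cos_inj ⟨a.1, a.2.trans h1⟩ ⟨b.1, b.2.trans h1⟩ (hg _ _ h)
  have hM : (0 : ℝ) < M := by exact_mod_cast (by omega : 0 < M)
  have d : (i : ℝ) = j := by
    field_simp at c
    exact c
  exact_mod_cast d

lemma borsuk (K : Set (EuclideanSpace ℝ (Fin 4))) (hK : IsCompact K) (hd : Metric.diam K = 1) :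
    ∃ f : EuclideanSpace ℝ (Fin 4) → Fin (Fintype.card (Fin 4 → ZMod 7)),
      ∀ i, Metric.diam (K ∩ f ⁻¹' {i}) < 1 := by
  obtain ⟨x0, hx0⟩ : K.Nonempty := by
    rcases K.eq_empty_or_nonempty with h | h
    · rw [h] at hd
      simp at hd
    · exact h
  refine ⟨fun x => Fintype.equivFin _ (fun i => ((⌊3 * (x i - x0 i)⌋ : ℤ) : ZMod 7)), fun c => ?_⟩
  have hb : ∀ x ∈ K, ∀ i, -3 ≤ ⌊3 * (x i - x0 i)⌋ ∧ ⌊3 * (x i - x0 i)⌋ ≤ 3 := by
    intro x hx i
    have h1 : dist x x0 ≤ 1 := hd ▸ Metric.dist_le_diam_of_mem hK.isBounded hx hx0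
    have h2 : dist (x i) (x0 i) ≤ dist x x0 := PiLp.dist_apply_le x x0 i
    rw [Real.dist_eq] at h2
    have h3 := abs_le.mp (h2.trans h1)
    constructor
    · rw [Int.le_floor]
      push_cast
      linarith [h3.1]
    · have : ⌊3 * (x i - x0 i)⌋ < 4 := by
        rw [Int.floor_lt]
        push_cast
        linarith [h3.2]
      omega
  have : Metric.diam (K ∩ (fun x : EuclideanSpace ℝ (Fin 4) => Fintype.equivFin _
      (fun i => ((⌊3 * (x i - x0 i)⌋ : ℤ) : ZMod 7))) ⁻¹' {c}) ≤ 2 / 3 := by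
    apply Metric.diam_le_of_forall_dist_le (by norm_num)
    rintro x ⟨hx, hxc⟩ y ⟨hy, hyc⟩
    have h1 := (Fintype.equivFin _).injective (hxc.trans hyc.symm)
    have h2 : ∀ i, dist (x i) (y i) ^ 2 ≤ 1 / 9 := by
      intro i
      have h3 := (ZMod.intCast_eq_intCast_iff_dvd_sub _ _ 7).mp (congrFun h1 i)
      have h4 := hb x hx i
      have h5 := hb y hy i
      have h6 : ⌊3 * (x i - x0 i)⌋ = ⌊3 * (y i - x0 i)⌋ := by
        push_cast at h3
        omega
      have h7 := abs_lt.mp (Int.abs_sub_lt_one_of_floor_eq_floor h6)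
      rw [Real.dist_eq, sq_abs]
      nlinarith [h7.1, h7.2]
    rw [EuclideanSpace.dist_eq, Fin.sum_univ_four]
    apply Real.sqrt_le_iff.mpr
    refine ⟨by norm_num, ?_⟩
    linarith [h2 0, h2 1, h2 2, h2 3]
  linarith

/-- A Lenz type configuration in dimension four refutes the statement. -/
theorem result :
    ¬ (∀ d k : ℕ, ∃ N : ℕ, ∀ S : Finset (EuclideanSpace ℝ (Fin d)),
      N ≤ S.card →
      (∀ x ∈ S, x ∉ convexHull ℝ ((↑S : Set (EuclideanSpace ℝ (Fin d))) \ {x})) →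
      ∀ m : ℕ,
        (∀ K : Set (EuclideanSpace ℝ (Fin d)), IsCompact K → Metric.diam K = 1 →
          ∃ f : EuclideanSpace ℝ (Fin d) → Fin m,
            ∀ i : Fin m, Metric.diam (K ∩ f ⁻¹' {i}) < 1) →
        (SimpleGraph.fromRel (fun x y : S =>
          ((S.offDiag.image (fun p => dist p.1 p.2)).filter
            (fun r => dist (x : EuclideanSpace ℝ (Fin d)) (y : EuclideanSpace ℝ (Fin d)) < r)).card
              < k)).Colorable m) := by
  intro h
  obtain ⟨m, hm⟩ : ∃ m, m = Fintype.card (Fin 4 → ZMod 7) := ⟨_, rfl⟩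
  have hm1 : 1 ≤ m := by
    rw [hm]
    exact Fintype.card_pos
  obtain ⟨N, hN⟩ := h 4 ((m + 1) * (m + 1) + 2)
  let T : Finset (EuclideanSpace ℝ (Fin 4)) :=
    (Finset.range (m + 1)).image (fun j : ℕ => pa (1 * j / (m + 1 : ℕ)))
  have hT : T.card = m + 1 := card_img 1 one_pos le_rfl (m + 1) pa (fun s t h => by
    have := congrArg (fun v : EuclideanSpace ℝ (Fin 4) => v 0) h
    simpa [pa] using this)
  have hTa : ∀ x ∈ T, ∃ t, pa t = x := by
    intro x hx
    obtain ⟨j, _, rfl⟩ := Finset.mem_image.mp hx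
    exact ⟨_, rfl⟩
  obtain ⟨δ, hδ, hδT⟩ : ∃ δ : ℝ, 0 < δ ∧ ∀ x ∈ T, ∀ y ∈ T, x ≠ y → δ ≤ dist x y := by
    have hne : T.offDiag.Nonempty := by
      obtain ⟨x, hx, y, hy, hxy⟩ := Finset.one_lt_card.mp (show 1 < T.card by omega)
      exact ⟨(x, y), Finset.mem_offDiag.mpr ⟨hx, hy, hxy⟩⟩
    obtain ⟨p, hp, hmin⟩ := Finset.exists_min_image T.offDiag (fun p => dist p.1 p.2) hne
    refine ⟨dist p.1 p.2, dist_pos.mpr (Finset.mem_offDiag.mp hp).2.2, fun x hx y hy hxy => ?_⟩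
    exact hmin (x, y) (Finset.mem_offDiag.mpr ⟨hx, hy, hxy⟩)
  set η := min (δ / 2) 1 with hη
  have hη0 : 0 < η := lt_min (by linarith) one_pos
  have hη1 : η ≤ 1 := min_le_right _ _
  have hη2 : η ≤ δ / 2 := min_le_left _ _
  let C : Finset (EuclideanSpace ℝ (Fin 4)) :=
    (Finset.range N).image (fun j : ℕ => pb (η * j / N))
  have hC : C.card = N := card_img η hη0 hη1 N pb (fun s t h => by
    have := congrArg (fun v : EuclideanSpace ℝ (Fin 4) => v 2) h
    simpa [pb] using this)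
  have hCb : ∀ x ∈ C, ∃ t, (0 ≤ t ∧ t ≤ η) ∧ pb t = x := by
    intro x hx
    obtain ⟨j, hj, rfl⟩ := Finset.mem_image.mp hx
    exact ⟨_, param η hη0 N j (Finset.mem_range.mp hj), rfl⟩
  have hnorm : ∀ x ∈ T ∪ C, ‖x‖ = 1 := by
    intro x hx
    rcases Finset.mem_union.mp hx with h | h
    · obtain ⟨t, rfl⟩ := hTa x h
      exact norm_pa t
    · obtain ⟨t, _, rfl⟩ := hCb x h
      exact norm_pb t
  have hcol := hN (T ∪ C) (hC ▸ Finset.card_le_card Finset.subset_union_right) (by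
    intro x hx hmem
    have hconv : Convex ℝ {y : EuclideanSpace ℝ (Fin 4) | inner ℝ x y < 1} :=
      convex_halfSpace_lt (innerSL ℝ x).toLinearMap.isLinear 1
    have hsub : ((↑(T ∪ C) : Set (EuclideanSpace ℝ (Fin 4))) \ {x}) ⊆
        {y : EuclideanSpace ℝ (Fin 4) | inner ℝ x y < 1} := by
      rintro y ⟨hy, hyx⟩
      exact (inner_lt_one_iff_real_of_norm_eq_one (hnorm x hx) (hnorm y hy)).mpr
        (fun h => hyx h.symm)
    have h1 : inner ℝ x x < (1 : ℝ) := convexHull_min hsub hconv hmem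
    rw [real_inner_self_eq_norm_sq, hnorm x hx] at h1
    norm_num at h1) m (hm ▸ borsuk)
  obtain ⟨c⟩ := hcol
  let g : T → Fin m := fun x => c ⟨x.1, Finset.mem_union_left _ x.2⟩
  have hg : Function.Injective g := by
    intro x y hxy
    by_contra hne
    have hne' : x.1 ≠ y.1 := fun h => hne (Subtype.ext h)
    refine c.valid ?_ hxy
    rw [SimpleGraph.fromRel_adj]
    refine ⟨fun h => hne' (Subtype.mk.inj h), Or.inl ?_⟩
    have hsub : ((T ∪ C).offDiag.image (fun p => dist p.1 p.2)).filter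
        (fun r => dist x.1 y.1 < r) ⊆
        insert (Real.sqrt 2) ((T ×ˢ T).image (fun p => dist p.1 p.2)) := by
      intro r hr
      obtain ⟨hr1, hr2⟩ := Finset.mem_filter.mp hr
      obtain ⟨⟨u, v⟩, huv, rfl⟩ := Finset.mem_image.mp hr1
      obtain ⟨hu, hv, _⟩ := Finset.mem_offDiag.mp huv
      rw [Finset.mem_insert]
      rcases Finset.mem_union.mp hu with hu | hu <;> rcases Finset.mem_union.mp hv with hv | hv
      · right
        exact Finset.mem_image.mpr ⟨(u, v), Finset.mem_product.mpr ⟨hu, hv⟩, rfl⟩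
      · left
        obtain ⟨s, hs⟩ := hTa u hu
        obtain ⟨t, _, ht⟩ := hCb v hv
        simp only [← hs, ← ht, dist_ab]
      · left
        obtain ⟨s, hs⟩ := hTa v hv
        obtain ⟨t, _, ht⟩ := hCb u hu
        simp only [← hs, ← ht]
        rw [dist_comm, dist_ab]
      · exfalso
        obtain ⟨s, hs0, hs⟩ := hCb u hu
        obtain ⟨t, ht0, ht⟩ := hCb v hv
        have a1 := dist_bb s t η hη0.le (abs_le.mpr ⟨by linarith [hs0.1, ht0.2], by
          linarith [hs0.2, ht0.1]⟩)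
        have a2 := hδT x.1 x.2 y.1 y.2 hne'
        rw [hs, ht] at a1
        simp only at hr2
        linarith
    have a1 := Finset.card_le_card hsub
    have a2 := Finset.card_insert_le (Real.sqrt 2) ((T ×ˢ T).image (fun p => dist p.1 p.2))
    have a3 : ((T ×ˢ T).image (fun p => dist p.1 p.2)).card ≤ (T ×ˢ T).card := Finset.card_image_le
    rw [Finset.card_product, hT] at a3
    exact lt_of_le_of_lt a1 (by omega)
  have := Fintype.card_le_of_injective g hg
  rw [Fintype.card_coe, hT, Fintype.card_fin] at this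
  omega

end Pool.Agent.S08046
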