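import Pool.Statements.S08075
import Pool.Agent.Lib.helper14.Count

set_option autoImplicit false
open Pool Pool.MP_35c2eb_co

namespace Pool.Agent.S08075

section
variable {V W : Type} (G : SimpleGraph V) (B : W → Set V) (v : W → V)

def Rch (w : W) (u : V) (k : ℕ) : Prop :=
  ∃ p : G.Walk u (v w), p.length = k ∧ ∀ x ∈ p.support, x ∈ B w

noncomputable def dep (w : W) (u : V) : ℕ := sInf {k | Rch G B v w u k}

theorem step (w : W) (u : V) (k : ℕ) (h : Rch G B v w u k) (hne : u ≠ v w) :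
    ∃ u', G.Adj u u' ∧ u' ∈ B w ∧ dep G B v w u' < dep G B v w u ∧ ∃ k', Rch G B v w u' k' := by
  have hm : Rch G B v w u (dep G B v w u) := Nat.sInf_mem (s := {k | Rch G B v w u k}) ⟨k, h⟩
  obtain ⟨p, hp, hp'⟩ := hm
  generalize hz : v w = z at p hp hp'
  cases p with
  | nil => exact absurd hz.symm hne
  | @cons _ u' _ hadj q =>
    subst hz
    have hq : Rch G B v w u' q.length := ⟨q, rfl, fun x hx => hp' x (by simp [hx])⟩
    refine ⟨u', hadj, hp' u' (by simp), ?_, _, hq⟩
    have : dep G B v w u' ≤ q.length := Nat.sInf_le hq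
    simp at hp
    omega

variable (c : W → Bool) (S : Set (W × W))

def Arc (u u' : V) : Prop :=
  G.Adj u u' ∧ ((∃ w, c w = false ∧ u ∈ B w ∧ u' ∈ B w ∧ dep G B v w u < dep G B v w u') ∨
    (∃ w, c w = true ∧ u ∈ B w ∧ u' ∈ B w ∧ dep G B v w u' < dep G B v w u) ∨
    (∃ p ∈ S, c p.1 = false ∧ c p.2 = true ∧ u ∈ B p.1 ∧ u' ∈ B p.2))

theorem up (w : W) (hc : c w = false) : ∀ (n : ℕ) (u : V), dep G B v w u = n → u ∈ B w →
    (∃ k, Rch G B v w u k) → Relation.ReflTransGen (Arc G B v c S) (v w) u := by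
  intro n
  induction n using Nat.strong_induction_on with
  | _ n ih =>
    rintro u hu hB ⟨k, hk⟩
    by_cases hne : u = v w
    · rw [hne]
    obtain ⟨u', h1, h2, h3, h4⟩ := step G B v w u k hk hne
    exact (ih _ (hu ▸ h3) u' rfl h2 h4).tail ⟨h1.symm, Or.inl ⟨w, hc, h2, hB, h3⟩⟩

theorem down (w : W) (hc : c w = true) : ∀ (n : ℕ) (u : V), dep G B v w u = n → u ∈ B w →
    (∃ k, Rch G B v w u k) → Relation.ReflTransGen (Arc G B v c S) u (v w) := by
  intro n
  induction n using Nat.strong_induction_on with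
  | _ n ih =>
    rintro u hu hB ⟨k, hk⟩
    by_cases hne : u = v w
    · rw [hne]
    obtain ⟨u', h1, h2, h3, h4⟩ := step G B v w u k hk hne
    exact (ih _ (hu ▸ h3) u' rfl h2 h4).head ⟨h1, Or.inr (Or.inl ⟨w, hc, hB, h2, h3⟩)⟩

theorem inv (hu : ∀ w w' x, x ∈ B w → x ∈ B w' → w = w') (a : W) (ha : c a = false) (x y : V)
    (hx : x ∈ B a) (h : Relation.ReflTransGen (Arc G B v c S) x y) :
    y ∈ B a ∨ ∃ b, (a, b) ∈ S ∧ c b = true ∧ y ∈ B b := by
  induction h with
  | refl => exact Or.inl hx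
  | @tail y z _ hyz ih =>
    rcases hyz.2 with ⟨w, -, h1, h2, -⟩ | ⟨w, -, h1, h2, -⟩ | ⟨p, hp, h0, h1, h2, h3⟩
    · rcases ih with h | ⟨b, hb, hb', h⟩
      · exact Or.inl (hu _ _ _ h1 h ▸ h2)
      · exact Or.inr ⟨b, hb, hb', hu _ _ _ h1 h ▸ h2⟩
    · rcases ih with h | ⟨b, hb, hb', h⟩
      · exact Or.inl (hu _ _ _ h1 h ▸ h2)
      · exact Or.inr ⟨b, hb, hb', hu _ _ _ h1 h ▸ h2⟩
    · rcases ih with h | ⟨b, hb, hb', h⟩
      · exact Or.inr ⟨p.2, hu _ _ _ h2 h ▸ hp, h1, h3⟩
      · rw [hu _ _ _ h2 h, hb'] at h0; cases h0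

open Classical in
noncomputable def lev (r : ℕ) (u : V) : ℕ :=
  if h : ∃ w, u ∈ B w then
    (if c h.choose = true then 2 * r + 1 - dep G B v h.choose u else dep G B v h.choose u) else 0

theorem lev_eq (hu : ∀ w w' x, x ∈ B w → x ∈ B w' → w = w') (r : ℕ) (w : W) (u : V)
    (h : u ∈ B w) :
    lev G B v c r u = if c w = true then 2 * r + 1 - dep G B v w u else dep G B v w u := by
  have h' : ∃ w, u ∈ B w := ⟨w, h⟩
  unfold lev
  rw [dif_pos h', hu _ _ _ h'.choose_spec h]

theorem lev_le (r : ℕ) (hr : ∀ w, ∀ u ∈ B w, dep G B v w u ≤ r) (u : V) :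
    lev G B v c r u < 2 * r + 2 := by
  unfold lev
  split_ifs with h h'
  · omega
  · have := hr _ _ h.choose_spec; omega
  · omega

theorem arc_lt (hu : ∀ w w' x, x ∈ B w → x ∈ B w' → w = w') (r : ℕ)
    (hr : ∀ w, ∀ u ∈ B w, dep G B v w u ≤ r) (x y : V) (h : Arc G B v c S x y) :
    lev G B v c r x < lev G B v c r y := by
  rcases h.2 with ⟨w, h0, h1, h2, h3⟩ | ⟨w, h0, h1, h2, h3⟩ | ⟨p, hp, h0, h1, h2, h3⟩
  · rw [lev_eq G B v c hu r w x h1, lev_eq G B v c hu r w y h2]; simpa [h0] using h3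
  · rw [lev_eq G B v c hu r w x h1, lev_eq G B v c hu r w y h2]
    have := hr _ _ h1
    simp only [h0, if_true]; omega
  · rw [lev_eq G B v c hu r _ x h2, lev_eq G B v c hu r _ y h3]
    have := hr _ _ h2
    have := hr _ _ h3
    simp only [h0, h1, if_true, Bool.false_eq_true, if_false]; omega

theorem rt_lt (hu : ∀ w w' x, x ∈ B w → x ∈ B w' → w = w') (r : ℕ)
    (hr : ∀ w, ∀ u ∈ B w, dep G B v w u ≤ r) (x y : V)
    (h : Relation.ReflTransGen (Arc G B v c S) x y) :
    x = y ∨ lev G B v c r x < lev G B v c r y := by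
  induction h with
  | refl => exact Or.inl rfl
  | @tail y z _ hyz ih =>
    have := arc_lt G B v c S hu r hr _ _ hyz
    rcases ih with rfl | h
    · exact Or.inr this
    · exact Or.inr (h.trans this)

@[reducible] def ord (hu : ∀ w w' x, x ∈ B w → x ∈ B w' → w = w') (r : ℕ)
    (hr : ∀ w, ∀ u ∈ B w, dep G B v w u ≤ r) : PartialOrder V where
  le := Relation.ReflTransGen (Arc G B v c S)
  le_refl _ := Relation.ReflTransGen.refl
  le_trans _ _ _ := Relation.ReflTransGen.trans
  le_antisymm x y h1 h2 := by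
    rcases rt_lt G B v c S hu r hr _ _ h1 with h | h
    · exact h
    rcases rt_lt G B v c S hu r hr _ _ h2 with h' | h'
    · exact h'.symm
    omega

end

/-- If a subgraph-closed graph class has, for each h≥1, a uniform dimension bound for finite posets of height ≤h whose cover graphs lie in it, then for every r its r-shallow minors have edge count at most a constant times vertex count. -/
theorem result :
  ∀ C : ∀ V : Type, SimpleGraph V → Prop,
    (∀ (V W : Type) (G : SimpleGraph V) (H : SimpleGraph W) (f : H →g G),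
        Function.Injective f → C V G → C W H) →
    (∀ h : ℕ, 1 ≤ h → ∃ d : ℕ, ∀ (P : Type) [Fintype P] [PartialOrder P],
        (∀ s : Finset P, IsChain (· ≤ ·) (s : Set P) → s.card ≤ h) →
        C P (SimpleGraph.fromRel (fun x y : P => x ⋖ y)) →
        ∃ f : Fin d → P → ℕ, (∀ i, Function.Injective (f i)) ∧
          ∀ x y : P, x ≤ y ↔ ∀ i, f i x ≤ f i y) →
    ∀ r : ℕ, ∃ c : ℕ, ∀ (V W : Type) [Fintype V] [Fintype W]
        (G : SimpleGraph V) (H : SimpleGraph W),
      C V G →
      (∃ B : W → Set V, (∀ w w', w ≠ w' → Disjoint (B w) (B w')) ∧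
        (∀ w, ∃ v ∈ B w, ∀ u ∈ B w, ∃ p : G.Walk v u,
            p.length ≤ r ∧ ∀ x ∈ p.support, x ∈ B w) ∧
        (∀ w w', H.Adj w w' → ∃ u ∈ B w, ∃ u' ∈ B w', G.Adj u u')) →
      Nat.card H.edgeSet ≤ c * Fintype.card W := by
  classical
  intro C hC hd r
  obtain ⟨d, hd⟩ := hd (2 * r + 2) (by omega)
  refine ⟨4 * ((4 * d).factorial + 4 * d), ?_⟩
  rintro V W _ _ G H hG ⟨B, hB1, hB2, hB3⟩
  choose v hv hv' using hB2
  have hu : ∀ w w' x, x ∈ B w → x ∈ B w' → w = w' := by
    intro w w' x h1 h2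
    by_contra hne
    exact Set.disjoint_left.1 (hB1 w w' hne) h1 h2
  have hR : ∀ w, ∀ u ∈ B w, ∃ k ≤ r, Rch G B v w u k := by
    intro w u hu
    obtain ⟨p, hp, hp'⟩ := hv' w u hu
    exact ⟨p.length, hp, p.reverse, by simp, by simpa using hp'⟩
  have hR' : ∀ w, ∀ u ∈ B w, ∃ k, Rch G B v w u k := fun w u hu =>
    let ⟨k, _, hk⟩ := hR w u hu; ⟨k, hk⟩
  have hr : ∀ w, ∀ u ∈ B w, dep G B v w u ≤ r := by
    intro w u hu
    obtain ⟨k, hk, hk'⟩ := hR w u hu
    exact (Nat.sInf_le hk').trans hk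
  let D : Finset (W × W) := Finset.univ.filter fun p => H.Adj p.1 p.2
  obtain ⟨c, hc⟩ := Pool.Agent.H14Count.cut D (by
    intro p hp
    exact H.ne_of_adj (by simpa [D] using hp))
  have h2 := Pool.Agent.H14Count.count d (D.filter fun p => c p.1 = false ∧ c p.2 = true) (by
    intro S hS
    letI inst : PartialOrder V := ord G B v c (S : Set (W × W)) hu r hr
    have hle : ∀ x y : V, x ≤ y ↔ Relation.ReflTransGen (Arc G B v c (S : Set (W × W))) x y :=
      fun _ _ => Iff.rfl
    obtain ⟨f, hf, hf'⟩ := hd V (by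
        intro s hs
        have := Finset.card_le_card_of_injOn (s := s) (t := Finset.range (2 * r + 2))
          (lev G B v c r) (fun x _ => by simpa using lev_le G B v c r hr x) (by
            intro x hx y hy hxy
            by_contra hne
            rcases hs hx hy hne with h | h
            · rcases rt_lt G B v c _ hu r hr _ _ h with h | h
              · exact hne h
              · omega
            · rcases rt_lt G B v c _ hu r hr _ _ h with h | h
              · exact hne h.symm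
              · omega)
        simpa using this)
      (hC V V G _ ⟨id, by
        have key : ∀ x y : V, x ⋖ y → G.Adj x y := by
          intro x y hxy
          rcases Relation.ReflTransGen.cases_head ((hle _ _).1 hxy.le) with h | ⟨z, h1, h2⟩
          · exact absurd h hxy.ne
          rcases hxy.eq_or_eq ((hle _ _).2 (Relation.ReflTransGen.single h1)) ((hle _ _).2 h2)
            with h | h
          · exact absurd h.symm h1.1.ne
          · exact h ▸ h1.1
        intro x y hxy
        rcases ((SimpleGraph.fromRel_adj _ _ _).1 hxy).2 with h | h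
        · exact key _ _ h
        · exact (key _ _ h).symm⟩ Function.injective_id hG)
    have hvi : Function.Injective v := fun a b hab => hu _ _ _ (hv a) (hab ▸ hv b)
    refine ⟨fun i w => f i (v w), fun i => (hf i).comp hvi, fun p hp => ?_⟩
    simp only [D, Finset.mem_filter, Finset.mem_univ, true_and] at hp
    have hne : v p.1 ≠ v p.2 := fun h => hp.1.ne (hvi h)
    have e1 : (∀ i, f i (v p.1) < f i (v p.2)) ↔ v p.1 ≤ v p.2 := by
      rw [hf']
      exact forall_congr' fun i => ⟨le_of_lt, fun h => lt_of_le_of_ne h fun h' => hne (hf i h')⟩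
    rw [e1, hle]
    constructor
    · intro hpS
      obtain ⟨x, hx, y, hy, hxy⟩ := hB3 _ _ hp.1
      exact ((up G B v c _ p.1 hp.2.1 _ x rfl hx (hR' _ _ hx)).tail
        ⟨hxy, Or.inr (Or.inr ⟨p, hpS, hp.2.1, hp.2.2, hx, hy⟩)⟩).trans
        (down G B v c _ p.2 hp.2.2 _ y rfl hy (hR' _ _ hy))
    · intro h
      rcases inv G B v c _ hu p.1 hp.2.1 _ _ (hv _) h with h | ⟨b, hb, -, h⟩
      · exact absurd (hu _ _ _ h (hv _)) hp.1.ne
      · rw [hu _ _ _ h (hv _)] at hb
        exact hb)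
  have h3 : Nat.card H.edgeSet ≤ D.card := by
    rw [Nat.card_coe_set_eq, ← Set.ncard_coe_finset]
    refine le_trans (Set.ncard_le_ncard (t := (fun p : W × W => s(p.1, p.2)) '' (D : Set (W × W))) ?_)
      (Set.ncard_image_le)
    intro e he
    induction e using Sym2.ind with
    | _ a b => exact ⟨(a, b), by simpa [D] using he, rfl⟩
  rw [mul_assoc]
  omega

end Pool.Agent.S08075
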