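import Pool.Statements.S08110
-- import your own Pool.Agent.* helpers here

set_option autoImplicit false
universe u
open Pool Pool.MP_375da3_co

namespace Pool.Agent.S08110

open Classical in
noncomputable def emb : Finset (ULift.{u} ℝ) ↪o ((_ : ULift.{u} (ℚ × ℚ)) → ULift.{u} Prop) :=
  OrderEmbedding.ofMapLEIff
    (fun F i => ULift.up (∃ x ∈ F, (i.down.1 : ℝ) < x.down ∧ x.down < (i.down.2 : ℝ)))
    (by
      intro F G
      constructor
      · intro h x hx
        by_contra hxG
        have hc : IsClosed ((fun z : ULift.{u} ℝ => z.down) '' (G : Set (ULift.{u} ℝ))) :=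
          (G.finite_toSet.image _).isClosed
        have hm : x.down ∈ ((fun z : ULift.{u} ℝ => z.down) '' (G : Set (ULift.{u} ℝ)))ᶜ := by
          rintro ⟨z, hz, hzx⟩
          apply hxG
          have : z = x := ULift.ext _ _ hzx
          exact this ▸ hz
        obtain ⟨l, r, hlr, hsub⟩ := mem_nhds_iff_exists_Ioo_subset.1 (hc.isOpen_compl.mem_nhds hm)
        obtain ⟨p, hp1, hp2⟩ := exists_rat_btwn hlr.1
        obtain ⟨q, hq1, hq2⟩ := exists_rat_btwn hlr.2
        have h1 := h ⟨(p, q)⟩
        have h2 : ∃ y ∈ G, (p : ℝ) < y.down ∧ y.down < (q : ℝ) := h1 ⟨x, hx, hp2, hq1⟩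
        obtain ⟨y, hy, hy1, hy2⟩ := h2
        exact hsub ⟨hp1.trans hy1, hy2.trans hq2⟩ ⟨y, hy, rfl⟩
      · intro h i
        rintro ⟨x, hx, hx'⟩
        exact ⟨x, h hx, hx'⟩)

/-- The negation of the preceding statement: For every distributive lattice T: if T order-embeds into a product of chains indexed by ι, then T embeds as a sublattice into some product of chains indexed by ι; that is, algebraic dimension equals order dimension. -/
theorem result :
    ¬ (∀ (T : Type u) [DistribLattice T] (ι : Type u) (C : ι → Type u)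
      [∀ i, LinearOrder (C i)],
      Nonempty (T ↪o ((i : ι) → C i)) →
        ∃ (D : ι → Type u) (_ : ∀ i, LinearOrder (D i)),
          ∃ f : LatticeHom T ((i : ι) → D i), Function.Injective f) := by
  classical
  intro H
  obtain ⟨D, inst, f, hf⟩ := H (Finset (ULift.{u} ℝ)) (ULift.{u} (ℚ × ℚ))
    (fun _ => ULift.{u} Prop) ⟨emb⟩
  have h1 : ∀ x : ULift.{u} ℝ, ∃ i, f {x} i ≠ f ∅ i := by
    intro x
    by_contra hn
    push Not at hn
    exact Finset.singleton_ne_empty x (hf (funext hn))
  choose g hg using h1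
  have hinj : Function.Injective g := by
    intro x y hxy
    by_contra hne
    have h2 : ({x} : Finset (ULift.{u} ℝ)) ⊓ {y} = ∅ := by
      ext z; simp; rintro rfl; exact hne
    have h3 : f ∅ = f {x} ⊓ f {y} := by rw [← h2, map_inf]
    have h4 : f ∅ (g x) = f {x} (g x) ⊓ f {y} (g x) := by rw [h3]; rfl
    rcases le_total (f {x} (g x)) (f {y} (g x)) with h | h
    · rw [inf_eq_left.2 h] at h4; exact hg x h4.symm
    · rw [inf_eq_right.2 h] at h4; apply hg y; rw [← hxy]; exact h4.symm
  have hc : Countable (ULift.{u} ℝ) := hinj.countable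
  have hc' : Countable ℝ := (ULift.up_injective (α := ℝ)).countable
  exact not_countable hc'

end Pool.Agent.S08110
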