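import Pool.Statements.S08141
import Pool.Agent.Lib.helper16.QMatL

set_option autoImplicit false
open Pool Pool.MP_389e9c_co

namespace Pool.Agent.S08141

section
open Pool.Agent.Lib.helper16.Gf2 Pool.Agent.Lib.helper16.QMat Module Polynomial

lemma ev_odd {S : Type} [CommRing S] (x : S) (n : ℕ) : ev x (2 * n + 1) = 1 + x * ev x n := by
  have := ev_bit x true n
  simpa [Nat.bit] using this

lemma ev_F {S : Type} [CommRing S] (x : S) : ev x 16192235 =
    x ^ 23 + x ^ 22 + x ^ 21 + x ^ 20 + x ^ 18 + x ^ 17 + x ^ 16 + x ^ 12 + x ^ 9 + x ^ 7 + x ^ 6 + x ^ 5 + x ^ 3 + x + 1 := by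
  rw [show (16192235 : ℕ) = 2 * (2 * (2 * (2 * (2 * (2 * (2 * (2 * (2 * (2 * (2 * (2 * (2 * (2 * (2 * (2 * (2 * (2 * (2 * (2 * (2 * (2 * (2 * (1) + 1) + 1) + 1)) + 1) + 1) + 1)))) + 1))) + 1)) + 1) + 1) + 1)) + 1)) + 1) + 1 by norm_num]
  simp only [ev_odd, ev_two_mul, ev_one]
  ring

noncomputable def fp : (ZMod 2)[X] :=
  X ^ 23 + X ^ 22 + X ^ 21 + X ^ 20 + X ^ 18 + X ^ 17 + X ^ 16 + X ^ 12 + X ^ 9 + X ^ 7 + X ^ 6 + X ^ 5 + X ^ 3 + X + 1

lemma fp_monic : fp.Monic := by unfold fp; monicity!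

lemma fp_deg : fp.natDegree = 23 := by unfold fp; compute_degree!

abbrev R : Type := AdjoinRoot fp

noncomputable def bR : Basis (Fin 23) (ZMod 2) R :=
  (AdjoinRoot.powerBasis' fp_monic).basis.reindex (finCongr ((AdjoinRoot.powerBasis'_dim fp_monic).trans fp_deg))

lemma finR : finrank (ZMod 2) R = 23 := by simpa using finrank_eq_card_basis bR

lemma two_alg (S : Type) [CommRing S] [Algebra (ZMod 2) S] : (2 : S) = 0 := by
  rw [← map_ofNat (algebraMap (ZMod 2) S) 2, show (OfNat.ofNat 2 : ZMod 2) = 0 from rfl, map_zero]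

noncomputable def x0 : R := AdjoinRoot.root fp

lemma hF : ev x0 16192235 = 0 := by
  have h : AdjoinRoot.mk fp fp = 0 := AdjoinRoot.mk_self
  rw [ev_F, ← h]
  conv_rhs => enter [2]; unfold fp
  simp only [map_add, map_pow, map_one, AdjoinRoot.mk_X, x0]

noncomputable def gN (i : ℕ) : R × R := (ev x0 (PP i), ev x0 (QQ i))

noncomputable def gR (i : Fin 8) : R × R := gN i

def vec (s : ℕ → Bool) : Fin 8 → ZMod 2 := fun i => if s i then 1 else 0

lemma vec_surj (t : Fin 8 → ZMod 2) : ∃ s, vec s = t := by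
  refine ⟨fun i => if h : i < 8 then decide (t ⟨i, h⟩ = 1) else false, ?_⟩
  funext i
  have : ∀ a : ZMod 2, (if a = 1 then 1 else 0) = a := by decide
  simpa [vec] using this (t i)

lemma vec_sum {M : Type} [AddCommGroup M] [Module (ZMod 2) M] (c : ℕ → M) (s : ℕ → Bool) :
    ∑ i : Fin 8, vec s i • c i = sel c s := by
  rw [sel, ← Fin.sum_univ_eq_sum_range (fun i => if s i then c i else 0)]
  apply Finset.sum_congr rfl
  intro i _
  unfold vec
  cases s i <;> simp

noncomputable def GR : (Fin 8 → ZMod 2) →ₗ[ZMod 2] R × R := Fintype.linearCombination (ZMod 2) gR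

lemma GR_apply (t : Fin 8 → ZMod 2) : GR t = ∑ i, t i • gR i := rfl

lemma sel_fst {M N : Type} [AddCommMonoid M] [AddCommMonoid N] (c : ℕ → M × N) (s : ℕ → Bool) :
    (sel c s).1 = sel (fun i => (c i).1) s := by
  unfold sel
  rw [Prod.fst_sum]
  apply Finset.sum_congr rfl
  intro i _
  cases s i <;> simp

lemma sel_snd {M N : Type} [AddCommMonoid M] [AddCommMonoid N] (c : ℕ → M × N) (s : ℕ → Bool) :
    (sel c s).2 = sel (fun i => (c i).2) s := by
  unfold sel
  rw [Prod.snd_sum]
  apply Finset.sum_congr rfl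
  intro i _
  cases s i <;> simp

lemma dt_vec (s t : ℕ → Bool) :
    dt (GR (vec s)) (GR (vec t)) = ev x0 (xl (slot (xl PR s 8 0)) t 8 0) := by
  rw [det_eq (two_alg R) x0 hF, GR_apply, GR_apply]
  unfold gR
  rw [vec_sum, vec_sum, dt, sel_fst, sel_fst, sel_snd, sel_snd]
  rfl

lemma zu (a b : Fin 8 → ZMod 2) : dt (GR a) (GR b) = 0 ∨ IsUnit (dt (GR a) (GR b)) := by
  obtain ⟨s, rfl⟩ := vec_surj a
  obtain ⟨t, rfl⟩ := vec_surj b
  rw [dt_vec]
  exact allQ (two_alg R) x0 hF s t

lemma g0 : gR 0 = (1, 0) := by simp [gR, gN, PP, QQ, ev_one, ev_zero]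

lemma g1 : gR 1 = (0, 1) := by simp [gR, gN, PP, QQ, ev_one, ev_zero]

lemma GR0 : GR (Pi.single 0 1) = (1, 0) := by simp [GR, g0]

lemma GR1 : GR (Pi.single 1 1) = (0, 1) := by simp [GR, g1]

lemma enc_inj : Function.Injective (enc bR gR) := by
  rw [injective_iff_map_eq_zero]
  intro y hy
  have h0 := congrFun hy 0
  have h1 := congrFun hy 1
  rw [enc_apply, Pi.zero_apply, bR.equivFun.map_eq_zero_iff] at h0 h1
  rw [g0] at h0
  rw [g1] at h1
  ext
  · simpa using h0
  · simpa using h1

lemma finRR : finrank (ZMod 2) (R × R) = 46 := by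
  have := Module.Finite.of_basis bR
  have := Module.Free.of_basis bR
  rw [finrank_prod, finR]

lemma finC : finrank (ZMod 2) (LinearMap.range (enc bR gR)) = 46 := by
  rw [LinearMap.finrank_range_of_inj enc_inj, finRR]

lemma tri (T : Set (Fin 8 → ZMod 2)) :
    (finrank (ZMod 2) (Ann (ZMod 2) (GR '' T)) = 46 ∨
      finrank (ZMod 2) (Ann (ZMod 2) (GR '' T)) = 23) ∨
    (finrank (ZMod 2) (Ann (ZMod 2) (GR '' T)) = 0 ∧
      ∃ a ∈ T, ∃ b ∈ T, IsUnit (dt (GR a) (GR b))) := by
  by_cases h : ∃ a ∈ T, ∃ b ∈ T, IsUnit (dt (GR a) (GR b))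
  · right
    refine ⟨?_, h⟩
    obtain ⟨a, ha, b, hb, h⟩ := h
    rw [Ann_bot (Set.mem_image_of_mem GR ha) (Set.mem_image_of_mem GR hb) h, finrank_bot]
  · left
    by_cases h0 : ∀ z ∈ GR '' T, z = 0
    · left
      rw [Ann_top h0, finrank_top, finRR]
    · right
      push Not at h0 h
      obtain ⟨_, ⟨a, ha, rfl⟩, hne⟩ := h0
      rw [Ann_line (Set.mem_image_of_mem GR ha) ?_ ?_, finR]
      · have e0 := zu a (Pi.single 0 1)
        have e1 := zu a (Pi.single 1 1)
        rw [GR0] at e0
        rw [GR1] at e1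
        simp only [dt, mul_zero, mul_one, zero_sub, sub_zero, neg_eq_zero, IsUnit.neg_iff] at e0 e1
        rcases e1 with e1 | e1
        · rcases e0 with e0 | e0
          · exact absurd (Prod.ext e1 e0) hne
          · exact Or.inr e0
        · exact Or.inl e1
      · rintro _ ⟨b, hb, rfl⟩
        exact (zu a b).resolve_right (h a ha b hb)

lemma dt_span {a b z w : Fin 8 → ZMod 2} (h : dt (GR a) (GR b) = 0)
    (hz : z ∈ Submodule.span (ZMod 2) {a, b}) (hw : w ∈ Submodule.span (ZMod 2) {a, b}) :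
    dt (GR z) (GR w) = 0 := by
  obtain ⟨p, q, rfl⟩ := Submodule.mem_span_pair.1 hz
  obtain ⟨r, s, rfl⟩ := Submodule.mem_span_pair.1 hw
  simp only [dt, map_add, map_smul, Prod.fst_add, Prod.snd_add, Prod.smul_fst, Prod.smul_snd] at h ⊢
  simp only [Algebra.smul_def]
  linear_combination (algebraMap (ZMod 2) R p * algebraMap (ZMod 2) R s -
    algebraMap (ZMod 2) R q * algebraMap (ZMod 2) R r) * h

lemma nontrivR : Nontrivial R := Module.nontrivial_of_finrank_pos (R := ZMod 2) (by rw [finR]; norm_num)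

theorem noK {K : Type} [Field K] [Algebra (ZMod 2) K] (hK : ∀ y : K, y ^ 2 ^ 23 = y) {k : ℕ}
    (G : Matrix (Fin k) (Fin 8) K)
    (H : ∀ V : Submodule (ZMod 2) (Fin 8 → ZMod 2),
      23 * finrank K (Submodule.span K ((fun v : Fin 8 → ZMod 2 =>
        Matrix.mulVec G (fun i => algebraMap (ZMod 2) K (v i))) '' (V : Set (Fin 8 → ZMod 2))))
      = 46 - finrank (ZMod 2) (Ann (ZMod 2) (GR '' (V : Set (Fin 8 → ZMod 2))))) : False := by
  let col : Fin 8 → Fin k → K := fun i r => G r i
  let ψ : (Fin 8 → ZMod 2) →ₗ[ZMod 2] (Fin k → K) := Fintype.linearCombination (ZMod 2) col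
  have hψ : (fun v : Fin 8 → ZMod 2 =>
      Matrix.mulVec G (fun i => algebraMap (ZMod 2) K (v i))) = ψ := by
    funext v r
    simp [ψ, col, Fintype.linearCombination_apply, Matrix.mulVec, dotProduct, Finset.sum_apply,
      Algebra.smul_def, mul_comm]
  rw [hψ] at H
  have hs : ∀ a b, Submodule.span K (ψ '' (Submodule.span (ZMod 2) {a, b} :
      Submodule (ZMod 2) (Fin 8 → ZMod 2))) = Submodule.span K {ψ a, ψ b} := by
    intro a b
    rw [← Submodule.map_coe, Submodule.map_span, Submodule.span_span_of_tower, Set.image_pair]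
  have hU : ∀ (V : Submodule (ZMod 2) (Fin 8 → ZMod 2)) a b, a ∈ V → b ∈ V →
      IsUnit (dt (GR a) (GR b)) → finrank K (Submodule.span K (ψ '' V)) = 2 := by
    intro V a b ha hb hu
    have := H V
    rw [Ann_bot (Set.mem_image_of_mem GR ha) (Set.mem_image_of_mem GR hb) hu, finrank_bot] at this
    omega
  have hU' : ∀ a b, IsUnit (dt (GR a) (GR b)) → finrank K (Submodule.span K {ψ a, ψ b}) = 2 := by
    intro a b hu
    rw [← hs]
    exact hU _ a b (Submodule.subset_span (by simp)) (Submodule.subset_span (by simp)) hu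
  have hZ : ∀ a b, dt (GR a) (GR b) = 0 → finrank K (Submodule.span K {ψ a, ψ b}) ≠ 2 := by
    intro a b hz
    have h1 := H (Submodule.span (ZMod 2) {a, b})
    rw [hs] at h1
    rcases tri (Submodule.span (ZMod 2) {a, b} : Submodule (ZMod 2) (Fin 8 → ZMod 2)) with
      (h2 | h2) | ⟨_, z, hz', w, hw', hu⟩
    · omega
    · omega
    · rw [dt_span hz hz' hw'] at hu
      have := nontrivR
      exact absurd hu not_isUnit_zero
  have u01 : IsUnit (dt (GR (Pi.single 0 1)) (GR (Pi.single 1 1))) := by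
    rw [GR0, GR1]; simp [dt]
  have ψs : ∀ i, ψ (Pi.single i 1) = col i := by intro i; simp [ψ]
  have h01 := hU' _ _ u01
  have htop := hU ⊤ _ _ trivial trivial u01
  rw [ψs, ψs] at h01
  have hle : Submodule.span K {col 0, col 1} ≤
      Submodule.span K (ψ '' (⊤ : Submodule (ZMod 2) (Fin 8 → ZMod 2))) := by
    apply Submodule.span_mono
    rintro z (rfl | rfl)
    · exact ⟨_, trivial, ψs 0⟩
    · exact ⟨_, trivial, ψs 1⟩
  have heq := Submodule.eq_of_le_of_finrank_eq hle (h01.trans htop.symm)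
  have hli : LinearIndependent K ![col 0, col 1] := by
    rw [linearIndependent_iff_card_eq_finrank_span, Set.finrank, Matrix.range_cons_cons_empty, h01]
    simp
  have hc : ∀ i : ℕ, ∃ z : K × K, (i = 0 → z = (1, 0)) ∧ (i = 1 → z = (0, 1)) ∧
      ∀ h : i < 8, col ⟨i, h⟩ = z.1 • col 0 + z.2 • col 1 := by
    intro i
    by_cases h0 : i = 0
    · subst h0
      exact ⟨(1, 0), by simp, by simp, by simp⟩
    by_cases h1 : i = 1
    · subst h1
      exact ⟨(0, 1), by simp, by simp, by simp⟩
    by_cases h8 : i < 8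
    · have : col ⟨i, h8⟩ ∈ Submodule.span K {col 0, col 1} := by
        rw [heq]
        exact Submodule.subset_span ⟨_, trivial, ψs _⟩
      obtain ⟨p, q, hpq⟩ := Submodule.mem_span_pair.1 this
      exact ⟨(p, q), by simp [h0], by simp [h1], fun _ => hpq.symm⟩
    · exact ⟨0, by simp [h0], by simp [h1], fun h => absurd h h8⟩
  choose c c0 c1 hc using hc
  have hv : ∀ s, ψ (vec s) = (sel c s).1 • col 0 + (sel c s).2 • col 1 := by
    intro s
    have e : ψ (vec s) = ∑ i : Fin 8, vec s i • ((c i).1 • col 0 + (c i).2 • col 1) := by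
      rw [Fintype.linearCombination_apply]
      exact Finset.sum_congr rfl (fun i _ => by rw [← hc i i.2])
    rw [e, vec_sum (fun i => (c i).1 • col 0 + (c i).2 • col 1), sel_fst, sel_snd, sel, sel, sel,
      Finset.sum_smul, Finset.sum_smul, ← Finset.sum_add_distrib]
    apply Finset.sum_congr rfl
    intro i _
    cases s i <;> simp
  apply no_rep (two_alg K) hK c (c0 0 rfl) (c1 1 rfl)
  · intro s t h
    have h1 := hZ (vec s.testBit) (vec t.testBit) (by
      rw [dt_vec]; change ev x0 (detN s t) = 0; rw [h, ev_zero])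
    rw [hv, hv, Ne, pair_two hli, not_not] at h1
    exact h1
  · intro s t i hi h
    have h0 := mF_spec (two_alg R) x0 hF (detN s t) i hi
    rw [h, ev_one] at h0
    have h1 := hU' (vec s.testBit) (vec t.testBit) (by
      rw [dt_vec]; exact IsUnit.of_mul_eq_one _ h0.symm)
    rw [hv, hv, pair_two hli] at h1
    exact h1

end

/-- There is a finite field F, an extension K of degree m>1, and an F-linear code of n×m matrices whose shortened-code dimensions are all divisible by m, such that no matrix over K represents the q-matroid with rank (dim C − dim C(V^⊥))/m. -/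
theorem result :
    ∃ (F K : Type) (_ : Field F) (_ : Fintype F) (_ : Field K) (_ : Algebra F K) (m n : ℕ),
      1 < m ∧ Module.finrank F K = m ∧
      ∃ C : Submodule F (Fin n → Fin m → F),
        (∀ W : Submodule F (Fin n → F),
          m ∣ Module.finrank F ↥(C ⊓ ⨅ j : Fin m, Submodule.comap
            (LinearMap.pi (fun i : Fin n =>
              LinearMap.comp (LinearMap.proj j : (Fin m → F) →ₗ[F] F)
                (LinearMap.proj i : (Fin n → Fin m → F) →ₗ[F] (Fin m → F)))) W)) ∧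
        ¬ ∃ (k : ℕ) (G : Matrix (Fin k) (Fin n) K),
          ∀ V : Submodule F (Fin n → F),
            m * Module.finrank K (Submodule.span K
              ((fun v : Fin n → F => Matrix.mulVec G (fun i => algebraMap F K (v i))) ''
                (V : Set (Fin n → F))))
            = Module.finrank F C - Module.finrank F ↥(C ⊓ ⨅ j : Fin m, Submodule.comap
              (LinearMap.pi (fun i : Fin n =>
                LinearMap.comp (LinearMap.proj j : (Fin m → F) →ₗ[F] F)
                  (LinearMap.proj i : (Fin n → Fin m → F) →ₗ[F] (Fin m → F))))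
              (⨅ (v : Fin n → F) (_ : v ∈ V), LinearMap.ker
                (∑ i : Fin n, v i • (LinearMap.proj i : (Fin n → F) →ₗ[F] F)))) := by
  refine ⟨ZMod 2, GaloisField 2 23, inferInstance, inferInstance, inferInstance, inferInstance,
    23, 8, by norm_num, GaloisField.finrank 2 (by norm_num),
    LinearMap.range (Pool.Agent.Lib.helper16.QMat.enc bR gR), ?_, ?_⟩
  · intro W
    have h := Pool.Agent.Lib.helper16.QMat.short bR gR enc_inj W _
      (Pool.Agent.Lib.helper16.QMat.perp_perp W)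
    rw [h]
    rcases tri {t : Fin 8 → ZMod 2 | ∀ w ∈ W, ∑ i, t i * w i = 0} with (h2 | h2) | ⟨h2, _⟩
    · exact ⟨2, h2⟩
    · exact ⟨1, h2⟩
    · exact ⟨0, h2⟩
  · rintro ⟨k, G, H⟩
    refine noK (K := GaloisField 2 23) ?_ G ?_
    · intro y
      have := Fintype.ofFinite (GaloisField 2 23)
      have h := FiniteField.pow_card y
      rwa [← Nat.card_eq_fintype_card, GaloisField.card 2 23 (by norm_num)] at h
    · intro V
      have h := Pool.Agent.Lib.helper16.QMat.short bR gR enc_inj _ _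
        (Pool.Agent.Lib.helper16.QMat.mem_perp V)
      have h2 := H V
      rw [h, finC] at h2
      exact h2

end Pool.Agent.S08141
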