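import Pool.Statements.S08206
import Pool.Agent.Lib.helper30.OctaSausage

set_option autoImplicit false
open Pool Pool.MP_3b2b47_co

namespace Pool.Agent.S08206

open Pool.Agent.Lib.Helper30.OctaSausage MeasureTheory

abbrev E := EuclideanSpace ℝ (Fin 3)

def O : Set E := {v | |v 0| + |v 1| + |v 2| ≤ 1}

lemma ball_convex (ρ : ℝ) : Convex ℝ {v : E | |v 0| + |v 1| + |v 2| ≤ ρ} := by
  intro x hx y hy a b ha hb hab
  simp only [Set.mem_setOf_eq, PiLp.add_apply, PiLp.smul_apply, smul_eq_mul] at *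
  have h : ∀ i, |a * x i + b * y i| ≤ a * |x i| + b * |y i| := by
    intro i
    refine (abs_add_le _ _).trans ?_
    rw [abs_mul, abs_mul, abs_of_nonneg ha, abs_of_nonneg hb]
  have h1 := mul_le_mul_of_nonneg_left hx ha
  have h2 := mul_le_mul_of_nonneg_left hy hb
  have h3 : a * ρ + b * ρ = ρ := by rw [← add_mul, hab, one_mul]
  linarith [h 0, h 1, h 2]

lemma O_compact : IsCompact O := by
  apply Metric.isCompact_of_isClosed_isBounded
  · exact isClosed_le (by fun_prop) continuous_const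
  · rw [Metric.isBounded_iff_subset_closedBall 0]
    refine ⟨1, fun v hv => ?_⟩
    rw [mem_closedBall_zero_iff, EuclideanSpace.norm_eq, Real.sqrt_le_left zero_le_one]
    simp only [Fin.sum_univ_three, Real.norm_eq_abs]
    have : |v 0| + |v 1| + |v 2| ≤ 1 := hv
    nlinarith [abs_nonneg (v 0), abs_nonneg (v 1), abs_nonneg (v 2),
      mul_nonneg (abs_nonneg (v 0)) (abs_nonneg (v 1)),
      mul_nonneg (abs_nonneg (v 0)) (abs_nonneg (v 2)),
      mul_nonneg (abs_nonneg (v 1)) (abs_nonneg (v 2))]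

lemma O_int : (interior O).Nonempty := by
  refine ⟨0, ?_⟩
  have ho : IsOpen {v : E | |v 0| + |v 1| + |v 2| < 1} := isOpen_lt (by fun_prop) continuous_const
  refine interior_maximal (fun v hv => ?_) ho (by simp)
  exact le_of_lt (show |v 0| + |v 1| + |v 2| < 1 from hv)

def cen : Fin 44 → ℤ × ℤ × ℤ := ![(-3, 0, 0), (-2, -1, 0), (-2, 0, -1), (-2, 0, 1), (-2, 1, 0), (-1, -2, 0), (-1, -1, -1), (-1, -1, 1), (-1, 0, -2), (-1, 0, 0), (-1, 0, 2), (-1, 1, -1), (-1, 1, 1), (-1, 2, 0), (0, -3, 0), (0, -2, -1), (0, -2, 1), (0, -1, -2), (0, -1, 0), (0, -1, 2), (0, 0, -3), (0, 0, -1), (0, 0, 1), (0, 0, 3), (0, 1, -2), (0, 1, 0), (0, 1, 2), (0, 2, -1), (0, 2, 1), (0, 3, 0), (1, -2, 0), (1, -1, -1), (1, -1, 1), (1, 0, -2), (1, 0, 0), (1, 0, 2), (1, 1, -1), (1, 1, 1), (1, 2, 0), (2, -1, 0), (2, 0, -1), (2, 0, 1), (2, 1, 0), (3, 0, 0)]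

def sg : Fin 8 → ℤ × ℤ × ℤ :=
  ![(1, 1, 1), (1, 1, -1), (1, -1, 1), (1, -1, -1), (-1, 1, 1), (-1, 1, -1), (-1, -1, 1),
    (-1, -1, -1)]

def dt (e c : ℤ × ℤ × ℤ) : ℤ := e.1 * c.1 + e.2.1 * c.2.1 + e.2.2 * c.2.2

lemma cen_norm : ∀ i, |(cen i).1| + |(cen i).2.1| + |(cen i).2.2| ≤ 3 := by decide +kernel
lemma cen_odd : ∀ e i, dt (sg e) (cen i) % 2 = 1 := by decide +kernel
lemma cen_sep : ∀ i j, i ≠ j → ∃ e, dt (sg e) (cen i) < dt (sg e) (cen j) := by decide +kernel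
lemma sg_abs : ∀ e, |(sg e).1| = 1 ∧ |(sg e).2.1| = 1 ∧ |(sg e).2.2| = 1 := by decide

noncomputable def X (i : Fin 44) : E :=
  WithLp.toLp 2 ![((cen i).1 : ℝ), ((cen i).2.1 : ℝ), ((cen i).2.2 : ℝ)]

noncomputable def F (e : Fin 8) : E →L[ℝ] ℝ :=
  ((sg e).1 : ℝ) • EuclideanSpace.proj 0 + ((sg e).2.1 : ℝ) • EuclideanSpace.proj 1 +
    ((sg e).2.2 : ℝ) • EuclideanSpace.proj 2

lemma F_apply (e : Fin 8) (v : E) :
    F e v = (sg e).1 * v 0 + (sg e).2.1 * v 1 + (sg e).2.2 * v 2 := by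
  simp [F]

lemma F_X (e : Fin 8) (i : Fin 44) : F e (X i) = (dt (sg e) (cen i) : ℤ) := by
  rw [F_apply]; simp [X, dt]

lemma F_O (e : Fin 8) (v : E) (hv : v ∈ O) : |F e v| ≤ 1 := by
  rw [F_apply]
  obtain ⟨h1, h2, h3⟩ := sg_abs e
  have h1' : |((sg e).1 : ℝ)| = 1 := by exact_mod_cast h1
  have h2' : |((sg e).2.1 : ℝ)| = 1 := by exact_mod_cast h2
  have h3' : |((sg e).2.2 : ℝ)| = 1 := by exact_mod_cast h3
  have := abs_add_three (((sg e).1 : ℝ) * v 0) (((sg e).2.1 : ℝ) * v 1) (((sg e).2.2 : ℝ) * v 2)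
  rw [abs_mul, abs_mul, abs_mul, h1', h2', h3'] at this
  have hv' : |v 0| + |v 1| + |v 2| ≤ 1 := hv
  linarith

lemma X_sep (i j : Fin 44) (hij : i ≠ j) : ∃ f : E →L[ℝ] ℝ, ∃ c : ℝ, f ≠ 0 ∧
    (∀ v ∈ O, f (X i + v) ≤ c) ∧ (∀ v ∈ O, c ≤ f (X j + v)) ∧
    ∀ k : Fin 44, (∀ v ∈ O, f (X k + v) ≤ c) ∨ (∀ v ∈ O, c ≤ f (X k + v)) := by
  obtain ⟨e, he⟩ := cen_sep i j hij
  have lo : ∀ k, dt (sg e) (cen k) ≤ dt (sg e) (cen i) →
      ∀ v ∈ O, F e (X k + v) ≤ (dt (sg e) (cen i) : ℤ) + 1 := by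
    intro k hk v hv
    rw [map_add, F_X]
    have : ((dt (sg e) (cen k) : ℤ) : ℝ) ≤ (dt (sg e) (cen i) : ℤ) := by exact_mod_cast hk
    linarith [(abs_le.1 (F_O e v hv)).2]
  have hi : ∀ k, dt (sg e) (cen i) < dt (sg e) (cen k) →
      ∀ v ∈ O, ((dt (sg e) (cen i) : ℤ) : ℝ) + 1 ≤ F e (X k + v) := by
    intro k hk v hv
    rw [map_add, F_X]
    have h2 : dt (sg e) (cen i) + 2 ≤ dt (sg e) (cen k) := by
      have := cen_odd e i
      have := cen_odd e k
      omega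
    have : ((dt (sg e) (cen i) : ℤ) : ℝ) + 2 ≤ (dt (sg e) (cen k) : ℤ) := by exact_mod_cast h2
    linarith [(abs_le.1 (F_O e v hv)).1]
  refine ⟨F e, (dt (sg e) (cen i) : ℤ) + 1, ?_, lo i le_rfl, hi j he, fun k => ?_⟩
  · intro h0
    have h1 := F_X e i
    have h2 := F_X e j
    rw [h0] at h1 h2
    have : ((dt (sg e) (cen i) : ℤ) : ℝ) = (dt (sg e) (cen j) : ℤ) := by
      rw [← h1, ← h2]; rfl
    have : dt (sg e) (cen i) = dt (sg e) (cen j) := by exact_mod_cast this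
    omega
  · rcases le_or_gt (dt (sg e) (cen k)) (dt (sg e) (cen i)) with h | h
    · exact Or.inl (lo k h)
    · exact Or.inr (hi k h)

lemma vol_transfer (K : Set E) :
    volume K = volume ((fun x : V => (WithLp.toLp 2 x : E)) ⁻¹' K) := by
  exact (MeasurePreserving.measure_preimage_equiv
    (EuclideanSpace.volume_preserving_symm_measurableEquiv_toLp (Fin 3)).symm K).symm

lemma upper : volume (convexHull ℝ (⋃ i, (fun v => X i + v) '' O)) ≤ ENNReal.ofReal (256 / 3) := by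
  have hsub : convexHull ℝ (⋃ i, (fun v => X i + v) '' O) ⊆
      {v : E | |v 0| + |v 1| + |v 2| ≤ 4} := by
    apply convexHull_min _ (ball_convex 4)
    rintro _ ⟨_, ⟨i, rfl⟩, v, hv, rfl⟩
    have hv' : |v 0| + |v 1| + |v 2| ≤ 1 := hv
    have h3 : |((cen i).1 : ℝ)| + |((cen i).2.1 : ℝ)| + |((cen i).2.2 : ℝ)| ≤ 3 := by
      exact_mod_cast cen_norm i
    show |((cen i).1 : ℝ) + v 0| + |((cen i).2.1 : ℝ) + v 1| + |((cen i).2.2 : ℝ) + v 2| ≤ 4
    linarith [abs_add_le ((cen i).1 : ℝ) (v 0), abs_add_le ((cen i).2.1 : ℝ) (v 1),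
      abs_add_le ((cen i).2.2 : ℝ) (v 2)]
  refine (measure_mono hsub).trans (le_of_eq ?_)
  rw [vol_transfer, ← vol_octa]
  rfl

lemma far {p q : E} {f : E →L[ℝ] ℝ} {c : ℝ} (hf : f ≠ 0) (h1 : ∀ v ∈ O, f (p + v) ≤ c)
    (h2 : ∀ v ∈ O, c ≤ f (q + v)) : 2 ≤ |(q - p) 0| + |(q - p) 1| + |(q - p) 2| := by
  have hb : ∀ i : Fin 3, EuclideanSpace.single i (1 : ℝ) ∈ O ∧
      - EuclideanSpace.single i (1 : ℝ) ∈ O := by
    intro i
    constructor <;> fin_cases i <;> simp [O]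
  set a : Fin 3 → ℝ := fun i => f (EuclideanSpace.single i (1 : ℝ)) with ha
  have hexp : ∀ v : E, f v = v 0 * a 0 + v 1 * a 1 + v 2 * a 2 := by
    intro v
    have : v = v 0 • EuclideanSpace.single 0 (1 : ℝ) + v 1 • EuclideanSpace.single 1 (1 : ℝ) +
        v 2 • EuclideanSpace.single 2 (1 : ℝ) := by
      ext i; fin_cases i <;> simp
    conv_lhs => rw [this]
    simp only [map_add, map_smul, smul_eq_mul, ha]
  have hD : ∀ i, 2 * |a i| ≤ f (q - p) := by
    intro i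
    have a1 := h1 _ (hb i).1
    have a2 := h1 _ (hb i).2
    have a3 := h2 _ (hb i).1
    have a4 := h2 _ (hb i).2
    rw [map_add] at a1 a2 a3 a4
    rw [map_neg] at a2 a4
    rw [map_sub]
    have : f (EuclideanSpace.single i (1 : ℝ)) = a i := rfl
    rw [this] at a1 a2 a3 a4
    rcases abs_cases (a i) with h | h <;> linarith [h.1]
  have hpos : 0 < f (q - p) := by
    by_contra hn
    apply hf
    have z : ∀ i, a i = 0 := by
      intro i
      have := hD i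
      have h0 := abs_nonneg (a i)
      exact abs_eq_zero.1 (by linarith)
    ext v
    rw [hexp, z, z, z]; simp
  set D := f (q - p) with hDdef
  have hle : D ≤ |(q - p) 0| * |a 0| + |(q - p) 1| * |a 1| + |(q - p) 2| * |a 2| := by
    rw [hDdef, hexp, ← abs_mul, ← abs_mul, ← abs_mul]
    linarith [le_abs_self ((q - p) 0 * a 0), le_abs_self ((q - p) 1 * a 1),
      le_abs_self ((q - p) 2 * a 2)]
  have m0 := mul_le_mul_of_nonneg_left (hD 0) (abs_nonneg ((q - p) 0))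
  have m1 := mul_le_mul_of_nonneg_left (hD 1) (abs_nonneg ((q - p) 1))
  have m2 := mul_le_mul_of_nonneg_left (hD 2) (abs_nonneg ((q - p) 2))
  by_contra hn
  push Not at hn
  nlinarith


/-- The negation of the preceding statement: For d≥3, any o-symmetric convex body C in R^d and n>1, some totally separable packing of n translates of C with collinear centers has convex hull volume no larger than that of any totally separable packing of n translates of C. -/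
theorem result :
    ¬ (∀ d : ℕ, 3 ≤ d → ∀ C : Set (EuclideanSpace ℝ (Fin d)),
    Convex ℝ C → IsCompact C → (interior C).Nonempty → (∀ v ∈ C, -v ∈ C) →
    ∀ n : ℕ, 1 < n →
    ∃ y : Fin n → EuclideanSpace ℝ (Fin d),
      Collinear ℝ (Set.range y) ∧
      (∀ i j : Fin n, i ≠ j → ∃ f : EuclideanSpace ℝ (Fin d) →L[ℝ] ℝ, ∃ c : ℝ, f ≠ 0 ∧
         (∀ v ∈ C, f (y i + v) ≤ c) ∧ (∀ v ∈ C, c ≤ f (y j + v)) ∧
         ∀ k : Fin n, (∀ v ∈ C, f (y k + v) ≤ c) ∨ (∀ v ∈ C, c ≤ f (y k + v))) ∧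
      ∀ x : Fin n → EuclideanSpace ℝ (Fin d),
        (∀ i j : Fin n, i ≠ j → ∃ f : EuclideanSpace ℝ (Fin d) →L[ℝ] ℝ, ∃ c : ℝ, f ≠ 0 ∧
           (∀ v ∈ C, f (x i + v) ≤ c) ∧ (∀ v ∈ C, c ≤ f (x j + v)) ∧
           ∀ k : Fin n, (∀ v ∈ C, f (x k + v) ≤ c) ∨ (∀ v ∈ C, c ≤ f (x k + v))) →
        MeasureTheory.volume (convexHull ℝ (⋃ i, (fun v => y i + v) '' C)) ≤
          MeasureTheory.volume (convexHull ℝ (⋃ i, (fun v => x i + v) '' C))) := by
  intro h
  obtain ⟨y, hcol, hsep, hmin⟩ := h 3 le_rfl O (ball_convex 1) O_compact O_int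
    (fun v hv => by simpa [O] using hv) 44 (by norm_num)
  have hup := (hmin X X_sep).trans upper
  obtain ⟨p, u, hpu⟩ := (collinear_iff_exists_forall_eq_smul_vadd _).1 hcol
  choose r hr using fun i => hpu (y i) ⟨i, rfl⟩
  set N := |u 0| + |u 1| + |u 2| with hN
  have hN0 : 0 ≤ N := by positivity
  have hdiff : ∀ i j, |(y j - y i) 0| + |(y j - y i) 1| + |(y j - y i) 2| = |r j - r i| * N := by
    intro i j
    have : y j - y i = (r j - r i) • u := by
      rw [hr i, hr j]; simp [sub_smul]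
    rw [this]
    simp only [PiLp.smul_apply, smul_eq_mul, abs_mul, hN]; ring
  obtain ⟨i, j, hij⟩ := spread (n := 43) (fun i => r i * N / 2) (by
    intro i j hij
    obtain ⟨f, c, hf, h1, h2, -⟩ := hsep j i hij.symm
    have := far hf h1 h2
    rw [hdiff] at this
    rw [show r i * N / 2 - r j * N / 2 = (r i - r j) * (N / 2) by ring, abs_mul,
      abs_of_nonneg (show 0 ≤ N / 2 by positivity)]
    linarith)
  have h86 : 86 ≤ |(y j - y i) 0| + |(y j - y i) 1| + |(y j - y i) 2| := by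
    rw [hdiff]
    have := mul_le_mul_of_nonneg_right (le_abs_self (r j - r i)) hN0
    push_cast at hij
    linarith
  set K := convexHull ℝ (⋃ i, (fun v => y i + v) '' O) with hK
  have hlow : ENNReal.ofReal (|(y j - y i) 0| + |(y j - y i) 1| + |(y j - y i) 2|) ≤ volume K := by
    rw [← measure_preimage_add volume (y i) K, vol_transfer]
    apply sausage_vol _ (fun k => (y j - y i) k)
    intro v hv t ht0 ht1
    have hvO : (WithLp.toLp 2 v : E) ∈ O := hv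
    have m1 : y i + WithLp.toLp 2 v ∈ K :=
      subset_convexHull ℝ _ (Set.mem_iUnion.2 ⟨i, _, hvO, rfl⟩)
    have m2 : y j + WithLp.toLp 2 v ∈ K :=
      subset_convexHull ℝ _ (Set.mem_iUnion.2 ⟨j, _, hvO, rfl⟩)
    have m3 := convex_convexHull ℝ _ m1 m2 (show 0 ≤ 1 - t by linarith) ht0 (by ring)
    simp only [Set.mem_preimage]
    convert m3 using 1
    ext k
    simp
    ring
  have := (ENNReal.ofReal_le_ofReal_iff (by norm_num)).1 (hlow.trans hup)
  linarith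

end Pool.Agent.S08206
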