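import Pool.Statements.S08224
-- import your own Pool.Agent.* helpers here

set_option autoImplicit false
open Pool Pool.MP_3c1ca0_co

namespace Pool.Agent.S08224

/-- Second coordinates of the moves `(0, c)`. -/
def C0 : List ℕ := [1, 4, 6, 7, 8, 9, 14, 15, 18, 24, 27, 28, 32, 34, 35, 36]

/-- Second coordinates of the moves `(1, c)`. -/
def C1 : List ℕ := [32, 33]

/-- The value carried by the residue class `r` modulo 42 when the two inputs are `a`, `b`. -/
def val (r : ℕ) (a b : Bool) : Bool :=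
  if r = 0 ∨ r = 2 ∨ r = 5 then true
  else if r = 21 then !(a || b)
  else if r = 25 then (!a && b)
  else if r = 22 then (a && !b)
  else if r = 31 then (a == b)
  else false

/-- The cellular automaton: parity of binomial coefficients. -/
def H (X T : ℕ) : Bool := decide (T ≠ 0 ∧ Even ((T - 1).choose X))

theorem H_zero_left (T : ℕ) : H 0 T = false := by simp [H]

theorem H_zero_right (X : ℕ) : H X 0 = false := by simp [H]

theorem H_succ (X T : ℕ) : H (X + 1) (T + 1) = (H (X + 1) T == H X T) := by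
  cases T with
  | zero => simp [H]
  | succ T =>
    simp only [H, ne_eq, Nat.add_eq_zero_iff, one_ne_zero, and_false, not_false_eq_true,
      Nat.add_sub_cancel, true_and, Nat.choose_succ_succ', Nat.even_add]
    by_cases h1 : Even (T.choose X) <;> by_cases h2 : Even (T.choose (X + 1)) <;> simp [h1, h2]

/-- The P-positions. -/
def Q (x z : ℕ) : Bool := val (z % 42) (H (x + 1) (z / 42)) (H x (z / 42))

theorem chk00 : ∀ r < 42, val r false false = true ↔
    ∀ c ∈ C0, c ≤ r → val (r - c) false false = false := by decide +kernel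

theorem chk10 : ∀ r < 42, val r false false = true →
    ∀ c ∈ C1, c ≤ r → val (r - c) false false = false := by decide +kernel

theorem chk01 : ∀ r < 42, ∀ p : Bool, val r (p == false) false = true ↔
    ∀ c ∈ C0, (if c ≤ r then val (r - c) (p == false) false else val (r + 42 - c) p false) = false := by
  decide +kernel

theorem chk11 : ∀ r < 42, ∀ p q w u : Bool, val r (p == q) (q == w) = true ↔
    (∀ c ∈ C0, (if c ≤ r then val (r - c) (p == q) (q == w) else val (r + 42 - c) p q) = false) ∧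
    (∀ c ∈ C1, (if c ≤ r then val (r - c) (q == w) u else val (r + 42 - c) q w) = false) := by
  decide +kernel

theorem C0_bd : ∀ c ∈ C0, 0 < c ∧ c < 42 := by decide
theorem C1_bd : ∀ c ∈ C1, 0 < c ∧ c < 42 := by decide

theorem Q_eq (x t r : ℕ) (hr : r < 42) : Q x (42 * t + r) = val r (H (x + 1) t) (H x t) := by
  have h1 : (42 * t + r) % 42 = r := by omega
  have h2 : (42 * t + r) / 42 = t := by omega
  rw [Q, h1, h2]

theorem Q_sub (x t r c : ℕ) (hr : r < 42) (hc : c < 42) :
    Q x (42 * (t + 1) + r - c) = if c ≤ r then val (r - c) (H (x + 1) (t + 1)) (H x (t + 1))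
      else val (r + 42 - c) (H (x + 1) t) (H x t) := by
  split_ifs with h
  · rw [← Q_eq x (t + 1) (r - c) (by omega)]
    congr 1; omega
  · rw [← Q_eq x t (r + 42 - c) (by omega)]
    congr 1; omega

theorem Q_rec (x z : ℕ) : Q x z = true ↔
    (∀ c ∈ C0, c ≤ z → Q x (z - c) = false) ∧
    (∀ c ∈ C1, 1 ≤ x → c ≤ z → Q (x - 1) (z - c) = false) := by
  obtain ⟨t, r, hr, rfl⟩ : ∃ t r, r < 42 ∧ z = 42 * t + r :=
    ⟨z / 42, z % 42, Nat.mod_lt _ (by norm_num), (Nat.div_add_mod z 42).symm⟩
  cases t with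
  | zero =>
    have h0 : ∀ y s, s < 42 → Q y s = val s false false := by
      intro y s hs
      have := Q_eq y 0 s hs
      simpa [H_zero_right] using this
    simp only [mul_zero, zero_add]
    rw [h0 x r hr, chk00 r hr]
    constructor
    · intro h
      refine ⟨fun c hc hle => ?_, fun c hc _ hle => ?_⟩
      · rw [h0 _ _ (by omega)]; exact h c hc hle
      · rw [h0 _ _ (by omega)]; exact chk10 r hr ((chk00 r hr).2 h) c hc hle
    · intro h c hc hle
      rw [← h0 x _ (by omega)]; exact h.1 c hc hle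
  | succ t =>
    rw [Q_eq x (t + 1) r hr]
    cases x with
    | zero =>
      rw [H_succ, H_zero_left, H_zero_left, chk01 r hr]
      constructor
      · intro h
        refine ⟨fun c hc _ => ?_, fun c _ h1 => by omega⟩
        rw [Q_sub _ _ _ _ hr (C0_bd c hc).2, H_succ, H_zero_left, H_zero_left]
        exact h c hc
      · intro h c hc
        have := h.1 c hc (by have := (C0_bd c hc).2; omega)
        rwa [Q_sub _ _ _ _ hr (C0_bd c hc).2, H_succ, H_zero_left, H_zero_left] at this
    | succ y =>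
      rw [H_succ, H_succ, chk11 r hr _ _ _ (H y (t + 1))]
      refine and_congr (forall₂_congr fun c hc => ?_) (forall₂_congr fun c hc => ?_)
      · have := (C0_bd c hc).2
        rw [Q_sub _ _ _ _ hr this, H_succ, H_succ]
        exact ⟨fun h _ => h, fun h => h (by omega)⟩
      · have := (C1_bd c hc).2
        rw [Nat.add_sub_cancel, Q_sub _ _ _ _ hr this, H_succ]
        exact ⟨fun h _ _ => h, fun h => h (by omega) (by omega)⟩

/-- The difference set. -/
def D : Finset (Fin 2 → ℤ) :=
  (C0.map fun c : ℕ => (![0, (c : ℤ)] : Fin 2 → ℤ)).toFinset ∪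
    (C1.map fun c : ℕ => (![1, (c : ℤ)] : Fin 2 → ℤ)).toFinset

theorem mem_D (a : Fin 2 → ℤ) : a ∈ D ↔
    (∃ c ∈ C0, a 0 = 0 ∧ a 1 = (c : ℤ)) ∨ (∃ c ∈ C1, a 0 = 1 ∧ a 1 = (c : ℤ)) := by
  have e : ∀ u v : ℤ, (![u, v] : Fin 2 → ℤ) = a ↔ a 0 = u ∧ a 1 = v := by
    intro u v
    constructor
    · rintro rfl; simp
    · rintro ⟨rfl, rfl⟩
      funext i; fin_cases i <;> rfl
  simp only [D, Finset.mem_union, List.mem_toFinset, List.mem_map, e]

theorem odd_choose (n : ℕ) : Odd ((2 * n + 1).choose n) ↔ ∃ a, n + 1 = 2 ^ a := by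
  induction n using Nat.strong_induction_on with
  | _ n ih =>
    have : Fact (Nat.Prime 2) := ⟨Nat.prime_two⟩
    have hl := @Choose.choose_modEq_choose_mod_mul_choose_div_nat (2 * n + 1) n 2 _
    have e1 : (2 * n + 1) % 2 = 1 := by omega
    have e2 : (2 * n + 1) / 2 = n := by omega
    rw [e1, e2] at hl
    have e3 : Nat.choose 1 (n % 2) = 1 := by
      rcases Nat.mod_two_eq_zero_or_one n with h | h <;> rw [h] <;> rfl
    rw [e3, one_mul] at hl
    have hodd : Odd ((2 * n + 1).choose n) ↔ Odd (n.choose (n / 2)) := by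
      rw [Nat.odd_iff, Nat.odd_iff, hl]
    rw [hodd]
    rcases Nat.even_or_odd' n with ⟨m, rfl | rfl⟩
    · have e4 : 2 * m / 2 = m := by omega
      rw [e4]
      rcases Nat.eq_zero_or_pos m with rfl | hm
      · simp only [mul_zero, Nat.choose_self, odd_one, zero_add, true_iff]
        exact ⟨0, rfl⟩
      · have h2 := Nat.two_dvd_centralBinom_of_one_le hm
        rw [Nat.centralBinom_eq_two_mul_choose] at h2
        constructor
        · intro h
          rw [Nat.odd_iff] at h
          omega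
        · rintro ⟨a, ha⟩
          cases a with
          | zero => omega
          | succ a => rw [pow_succ] at ha; omega
    · have e4 : (2 * m + 1) / 2 = m := by omega
      rw [e4, ih m (by omega)]
      constructor
      · rintro ⟨a, ha⟩
        exact ⟨a + 1, by rw [pow_succ]; omega⟩
      · rintro ⟨a, ha⟩
        cases a with
        | zero => omega
        | succ a => exact ⟨a, by rw [pow_succ] at ha; omega⟩

theorem Q_line (m : ℕ) : Q m (84 * m + 157) = true ↔ ¬ ∃ a, m + 2 = 2 ^ a := by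
  have e : 84 * m + 157 = 42 * (2 * m + 3) + 31 := by ring
  rw [e, Q_eq _ _ _ (by norm_num), ← odd_choose (m + 1), Nat.not_odd_iff_even]
  have : val 31 (H (m + 1) (2 * m + 3)) (H m (2 * m + 3)) = H (m + 1) (2 * m + 3 + 1) := by
    rw [H_succ m (2 * m + 3)]; rfl
  rw [this]
  simp only [H, ne_eq, Nat.add_eq_zero_iff, one_ne_zero, and_false, not_false_eq_true,
    Nat.add_sub_cancel, true_and, decide_eq_true_eq]
  rfl

theorem not_semi : ¬ IsSemilinearSet {x : Fin 2 → ℕ | Q (x 0) (x 1) = true} := by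
  intro h
  have h1 := isSemilinearSet_setOfPred_eq (M := Fin 2 → ℕ) (157 : ℕ) 0
    ((84 : ℕ) • Pi.evalAddMonoidHom (fun _ : Fin 2 => ℕ) 0) (Pi.evalAddMonoidHom (fun _ : Fin 2 => ℕ) 1)
  have h2 := (h.inter h1).image (Pi.evalAddMonoidHom (fun _ : Fin 2 => ℕ) 0)
  obtain ⟨k, p, hp, hk⟩ := Nat.isSemilinearSet_iff_ultimately_periodic.1 h2
  have key : ∀ m : ℕ, m ∈ (Pi.evalAddMonoidHom (fun _ : Fin 2 => ℕ) 0) ''
      ({x : Fin 2 → ℕ | Q (x 0) (x 1) = true} ∩ {x | 157 +
        ((84 : ℕ) • Pi.evalAddMonoidHom (fun _ : Fin 2 => ℕ) 0) x =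
          0 + (Pi.evalAddMonoidHom (fun _ : Fin 2 => ℕ) 1) x}) ↔ ¬ ∃ a, m + 2 = 2 ^ a := by
    intro m
    rw [← Q_line]
    constructor
    · rintro ⟨x, ⟨hx1, hx2⟩, rfl⟩
      have hx3 : 157 + 84 * x 0 = 0 + x 1 := hx2
      have hx4 : 84 * x 0 + 157 = x 1 := by omega
      change Q (x 0) (84 * x 0 + 157) = true
      rw [hx4]; exact hx1
    · intro hm
      refine ⟨![m, 84 * m + 157], ⟨hm, ?_⟩, rfl⟩
      change 157 + 84 * m = 0 + (84 * m + 157)
      omega
  have hb : k + p + 2 < 2 ^ (k + p + 2) := Nat.lt_two_pow_self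
  have h3 := hk (2 ^ (k + p + 2) - 2) (by omega)
  rw [key, key] at h3
  have h4 : ∃ a, 2 ^ (k + p + 2) - 2 + 2 = 2 ^ a := ⟨k + p + 2, by omega⟩
  obtain ⟨a, ha⟩ := not_not.1 (fun hh => h3.2 hh h4)
  have h5 : 2 ^ (k + p + 2) < 2 ^ a := by omega
  have h6 : 2 ^ a < 2 ^ (k + p + 2 + 1) := by rw [pow_succ]; omega
  rw [Nat.pow_lt_pow_iff_right (by norm_num)] at h5 h6
  omega

/-- The negation of the preceding statement: For every finite set D of integer vectors with positive sums and nonnegative entries, the normal-play losing positions of the subtraction game on ℕ^d with moves x→y, x−y∈D, form a finite union of sets b+ℕp₁+…+ℕpₘ. -/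
theorem result :
    ¬ (∀ (d : ℕ) (D : Finset (Fin d → ℤ)),
      (∀ a ∈ D, 0 < ∑ i, a i) →
      (∀ a ∈ D, ∀ i, 0 ≤ a i) →
      ∀ P : Set (Fin d → ℕ),
        (∀ x : Fin d → ℕ, x ∈ P ↔
          ∀ y : Fin d → ℕ, (fun i => (x i : ℤ) - (y i : ℤ)) ∈ D → y ∉ P) →
        ∃ (k : ℕ) (b : Fin k → Fin d → ℕ) (m : Fin k → ℕ)
          (p : ∀ i : Fin k, Fin (m i) → Fin d → ℕ),
          P = {x | ∃ i : Fin k, ∃ c : Fin (m i) → ℕ, x = b i + ∑ j, c j • p i j}) := by
  intro h
  obtain ⟨k, b, m, p, hP⟩ := h 2 D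
    (by
      intro a ha
      rw [Fin.sum_univ_two]
      rcases (mem_D a).1 ha with ⟨c, hc, h0, h1⟩ | ⟨c, hc, h0, h1⟩
      · have := (C0_bd c hc).1; omega
      · omega)
    (by
      intro a ha i
      rcases (mem_D a).1 ha with ⟨c, hc, h0, h1⟩ | ⟨c, hc, h0, h1⟩ <;> fin_cases i <;>
        simp [h0, h1])
    {x : Fin 2 → ℕ | Q (x 0) (x 1) = true}
    (by
      intro x
      simp only [Set.mem_ofPred_eq, mem_D]
      rw [Q_rec]
      constructor
      · rintro ⟨h0, h1⟩ y (⟨c, hc, e0, e1⟩ | ⟨c, hc, e0, e1⟩)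
        · have a0 : y 0 = x 0 := by omega
          have a1 : y 1 = x 1 - c := by omega
          rw [a0, a1, h0 c hc (by omega)]; simp
        · have a0 : y 0 = x 0 - 1 := by omega
          have a1 : y 1 = x 1 - c := by omega
          rw [a0, a1, h1 c hc (by omega) (by omega)]; simp
      · intro hy
        refine ⟨fun c hc hle => ?_, fun c hc h1 hle => ?_⟩
        · have := hy ![x 0, x 1 - c] (Or.inl ⟨c, hc, by simp, by simp; omega⟩)
          simpa using this
        · have := hy ![x 0 - 1, x 1 - c] (Or.inr ⟨c, hc, by simp; omega, by simp; omega⟩)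
          simpa using this)
  apply not_semi
  have e : {x : Fin 2 → ℕ | ∃ i : Fin k, ∃ c : Fin (m i) → ℕ, x = b i + ∑ j, c j • p i j} =
      ⋃ i : Fin k, {x | ∃ c : Fin (m i) → ℕ, x = b i + ∑ j, c j • p i j} := by
    ext x; simp
  rw [hP, e]
  refine IsSemilinearSet.iUnion fun i => IsLinearSet.isSemilinearSet ?_
  refine isLinearSet_iff_exists_fin_addMonoidHom.2 ⟨b i, m i,
    (Fintype.linearCombination ℕ (p i)).toAddMonoidHom, ?_⟩
  ext x
  simp only [Set.mem_ofPred_eq, Set.mem_vadd_set, Set.mem_range, vadd_eq_add,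
    exists_exists_eq_and, LinearMap.toAddMonoidHom_coe, Fintype.linearCombination_apply]
  exact exists_congr fun c => eq_comm

end Pool.Agent.S08224
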