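import Pool.Statements.S08232

set_option autoImplicit false
open Pool Pool.MP_3c7c52_co

namespace Pool.Agent.S08232

open Set MeasureTheory

def X : Fin 4 → ℤ := ![0, 1, 2, 3]

def Y : Fin 4 → ℤ := ![3, 1, 2, 0]

def Q (i : Fin 4) : Set (ℝ × ℝ) := Ioo (X i : ℝ) (X i + 1) ×ˢ Ioo (Y i : ℝ) (Y i + 1)

lemma vq (i : Fin 4) : volume (Q i) = 1 := by
  simp [Q, Measure.volume_eq_prod]

lemma cmp {a b : ℝ} {m n : ℤ} (ha : a ∈ Ioo (m : ℝ) (m + 1)) (hb : b ∈ Ioo (n : ℝ) (n + 1)) (h : a ≤ b) :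
    m ≤ n := by
  have : (m : ℝ) < n + 1 := by linarith [ha.1, hb.2]
  exact Int.lt_add_one_iff.1 (by exact_mod_cast this)

lemma piece {u v : ℝ → ℝ} (hv : Continuous v) (hi : ∀ a b, u a = u b → v a = v b → a = b) {a b t : ℝ}
    (h1 : a < t) (h2 : t < b) (h : ∀ x ∈ Icc a b, ∀ y ∈ Icc a b, u x = u y ∨ v x = v y) (e : u a = u b) :
    u t = u a ∧ (v a ≤ v t ∧ v t ≤ v b ∨ v b ≤ v t ∧ v t ≤ v a) := by
  have ab := h1.trans h2
  have k : ∀ x ∈ Icc a b, u x = u a := fun x hx => by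
    by_contra hn
    have p := (h x hx a ⟨le_rfl, ab.le⟩).resolve_left hn
    have q := (h x hx b ⟨ab.le, le_rfl⟩).resolve_left (e ▸ hn)
    exact ab.ne (hi a b e (p.symm.trans q))
  refine ⟨k t ⟨h1.le, h2.le⟩, ?_⟩
  rcases hv.continuousOn.strictMonoOn_of_injOn_Icc' ab.le
    fun x hx y hy h => hi x y ((k x hx).trans (k y hy).symm) h with m | m
  · exact .inl ⟨(m ⟨le_rfl, ab.le⟩ ⟨h1.le, h2.le⟩ h1).le, (m ⟨h1.le, h2.le⟩ ⟨ab.le, le_rfl⟩ h2).le⟩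
  · exact .inr ⟨(m ⟨h1.le, h2.le⟩ ⟨ab.le, le_rfl⟩ h2).le, (m ⟨le_rfl, ab.le⟩ ⟨h1.le, h2.le⟩ h1).le⟩

lemma core {u v : ℝ → ℝ} (hu : Continuous u) (hv : Continuous v)
    (hi : ∀ a b, u a = u b → v a = v b → a = b) {t : Fin 4 → ℝ} {a b c : ℝ} {A B : Fin 4 → ℤ}
    (hA : Function.Injective A) (hB : Function.Injective B)
    (hx : ∀ i, u (t i) ∈ Ioo (A i : ℝ) (A i + 1)) (hy : ∀ i, v (t i) ∈ Ioo (B i : ℝ) (B i + 1))
    (h1 : a < t 1) (h2 : t 1 < b) (h3 : b < t 2) (h4 : t 2 < c)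
    (p0 : u (t 0) = u a ∨ v (t 0) = v a) (p3 : u (t 3) = u c ∨ v (t 3) = v c)
    (p1 : ∀ x ∈ Icc a b, ∀ y ∈ Icc a b, u x = u y ∨ v x = v y)
    (p2 : ∀ x ∈ Icc b c, ∀ y ∈ Icc b c, u x = u y ∨ v x = v y) (e : u a = u b) :
    (B 0 ≤ B 1 ∧ B 1 ≤ B 2 ∨ B 2 ≤ B 1 ∧ B 1 ≤ B 0) ∧ (A 1 ≤ A 2 ∧ A 2 ≤ A 3 ∨ A 3 ≤ A 2 ∧ A 2 ≤ A 1) := by
  have nx : ∀ i j, u (t i) = u (t j) → i = j := fun i j h =>
    hA (le_antisymm (cmp (hx i) (hx j) h.le) (cmp (hx j) (hx i) h.ge))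
  have ny : ∀ i j, v (t i) = v (t j) → i = j := fun i j h =>
    hB (le_antisymm (cmp (hy i) (hy j) h.le) (cmp (hy j) (hy i) h.ge))
  obtain ⟨q1, q2⟩ := piece hv hi h1 h2 p1 e
  have e2 : v b = v c := (p2 b ⟨le_rfl, (h3.trans h4).le⟩ c ⟨(h3.trans h4).le, le_rfl⟩).resolve_left
    fun h => absurd (nx 2 1 ((piece hv hi h3 h4 p2 h).1.trans (e.symm.trans q1.symm))) (by decide)
  obtain ⟨r1, r2⟩ := piece hu (fun a b h k => hi a b k h) h3 h4
    (fun x hx y hy => (p2 x hx y hy).symm) e2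
  have s0 := p0.resolve_left fun h => absurd (nx 0 1 (h.trans q1.symm)) (by decide)
  have s3 := p3.resolve_right fun h => absurd (ny 3 2 (h.trans (e2.symm.trans r1.symm))) (by decide)
  rw [← s0, ← r1] at q2
  rw [← s3, ← e, ← q1] at r2
  exact ⟨q2.imp (fun h => ⟨cmp (hy _) (hy _) h.1, cmp (hy _) (hy _) h.2⟩)
    fun h => ⟨cmp (hy _) (hy _) h.1, cmp (hy _) (hy _) h.2⟩,
    r2.imp (fun h => ⟨cmp (hx _) (hx _) h.1, cmp (hx _) (hx _) h.2⟩)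
    fun h => ⟨cmp (hx _) (hx _) h.1, cmp (hx _) (hx _) h.2⟩⟩

lemma fin (σ : Equiv.Perm (Fin 4)) (A B : Fin 4 → ℤ) (h : A = X ∘ σ ∧ B = Y ∘ σ ∨ A = Y ∘ σ ∧ B = X ∘ σ) :
    ¬((B 0 ≤ B 1 ∧ B 1 ≤ B 2 ∨ B 2 ≤ B 1 ∧ B 1 ≤ B 0) ∧
      (A 1 ≤ A 2 ∧ A 2 ≤ A 3 ∨ A 3 ≤ A 2 ∧ A 2 ≤ A 1)) := by
  rcases h with ⟨rfl, rfl⟩ | ⟨rfl, rfl⟩ <;> revert σ <;> decide

theorem result :
    ¬ (∀ (n : ℕ) (μ : Fin n → MeasureTheory.Measure (ℝ × ℝ)),
    (∀ i, MeasureTheory.IsFiniteMeasure (μ i)) →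
    (∀ i, MeasureTheory.Measure.AbsolutelyContinuous (μ i)
        (MeasureTheory.volume : MeasureTheory.Measure (ℝ × ℝ))) →
    ∃ (f : ℝ → ℝ × ℝ) (s : Finset ℝ),
      Continuous f ∧ Function.Injective f ∧
      Filter.Tendsto (fun x => ‖f x‖) Filter.atTop Filter.atTop ∧
      Filter.Tendsto (fun x => ‖f x‖) Filter.atBot Filter.atTop ∧
      s.card ≤ n - 1 ∧
      (∀ x y : ℝ, (∀ z ∈ s, z ∉ Set.Ioo (min x y) (max x y)) →
          (f x).1 = (f y).1 ∨ (f x).2 = (f y).2) ∧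
      ∃ U : Set (ℝ × ℝ), IsOpen U ∧ frontier U = Set.range f ∧
        ∀ i, μ i U = μ i Set.univ / 2) := by
  intro h
  obtain ⟨f, s, hf, hi, -, -, hs, hp, U, hU, hfr, hμ⟩ := h 4 (fun i => volume.restrict (Q i))
    (fun i => ⟨by simp [vq]⟩) fun i => Measure.absolutelyContinuous_of_le Measure.restrict_le_self
  have hX : Function.Injective X := by decide
  have hY : Function.Injective Y := by decide
  choose t ht using fun i => show ∃ t, f t ∈ Q i by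
    by_contra! hn
    have m := hμ i
    rw [Measure.restrict_apply hU.measurableSet, Measure.restrict_apply_univ, vq] at m
    rcases (isPreconnected_Ioo.prod isPreconnected_Ioo : IsPreconnected (Q i)).subset_or_subset hU
      isClosed_closure.isOpen_compl (disjoint_compl_right.mono_left subset_closure) (fun x hx => by
        by_contra k
        simp only [mem_union, mem_compl_iff, not_or, not_not] at k
        obtain ⟨t, rfl⟩ : x ∈ range f := hfr ▸ hU.frontier_eq ▸ ⟨k.2, k.1⟩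
        exact hn t hx) with k | k
    · rw [show U ∩ Q i = Q i from inter_eq_right.2 k, vq] at m
      exact (ENNReal.half_lt_self one_ne_zero ENNReal.one_ne_top).ne m.symm
    · rw [show U ∩ Q i = ∅ from eq_empty_of_forall_notMem fun x hx => k hx.2 (subset_closure hx.1),
        measure_empty] at m
      exact (ENNReal.half_pos one_ne_zero).ne m
  let σ := Tuple.sort t
  have ex : ∀ i j : Fin 4, i < j → ∃ z ∈ s, t (σ i) < z ∧ z < t (σ j) := fun i j hij => by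
    have le : t (σ i) ≤ t (σ j) := Tuple.monotone_sort t hij.le
    by_contra! hn
    rcases hp (t (σ i)) (t (σ j)) fun z hz k => by
      rw [min_eq_left le, max_eq_right le] at k
      exact (hn z hz k.1).not_gt k.2 with k | k
    · exact hij.ne (σ.injective (hX (le_antisymm (cmp (ht _).1 (ht _).1 k.le) (cmp (ht _).1 (ht _).1 k.ge))))
    · exact hij.ne (σ.injective (hY (le_antisymm (cmp (ht _).2 (ht _).2 k.le) (cmp (ht _).2 (ht _).2 k.ge))))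
  obtain ⟨a, ha, a1, a2⟩ := ex 0 1 (by decide)
  obtain ⟨b, hb, b1, b2⟩ := ex 1 2 (by decide)
  obtain ⟨c, hc, c1, c2⟩ := ex 2 3 (by decide)
  have ab := a2.trans b1
  have bc := b2.trans c1
  have e : ({a, b, c} : Finset ℝ) = s := Finset.eq_of_subset_of_card_le (by
    simp [Finset.insert_subset_iff, ha, hb, hc]) (by
    rwa [Finset.card_eq_three.2 ⟨a, b, c, ab.ne, (ab.trans bc).ne, bc.ne, rfl⟩])
  have k : ∀ x y, (x ≤ a ∧ y ≤ a ∨ x ∈ Icc a b ∧ y ∈ Icc a b ∨ x ∈ Icc b c ∧ y ∈ Icc b c ∨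
      c ≤ x ∧ c ≤ y) → (f x).1 = (f y).1 ∨ (f x).2 = (f y).2 := fun x y h => hp x y fun z hz k => by
    simp only [← e, Finset.mem_insert, Finset.mem_singleton, mem_Ioo, min_lt_iff, lt_max_iff,
      mem_Icc] at hz k h
    grind
  have p0 := k (t (σ 0)) a (.inl ⟨a1.le, le_rfl⟩)
  have p3 := k (t (σ 3)) c (.inr (.inr (.inr ⟨c2.le, le_rfl⟩)))
  have p1 := fun x hx y hy => k x y (.inr (.inl ⟨hx, hy⟩))
  have p2 := fun x hx y hy => k x y (.inr (.inr (.inl ⟨hx, hy⟩)))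
  rcases p1 a ⟨le_rfl, ab.le⟩ b ⟨ab.le, le_rfl⟩ with q | q
  · exact fin σ _ _ (.inl ⟨rfl, rfl⟩) (core (t := t ∘ σ) hf.fst hf.snd (fun a b h k => hi (Prod.ext h k))
      (hX.comp σ.injective) (hY.comp σ.injective) (fun i => (ht _).1) (fun i => (ht _).2)
      a2 b1 b2 c1 p0 p3 p1 p2 q)
  · exact fin σ _ _ (.inr ⟨rfl, rfl⟩) (core (t := t ∘ σ) hf.snd hf.fst (fun a b h k => hi (Prod.ext k h))
      (hY.comp σ.injective) (hX.comp σ.injective) (fun i => (ht _).2) (fun i => (ht _).1)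
      a2 b1 b2 c1 p0.symm p3.symm (fun x hx y hy => (p1 x hx y hy).symm)
      (fun x hx y hy => (p2 x hx y hy).symm) q)

end Pool.Agent.S08232
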