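import Pool.Statements.S08258
-- import your own Pool.Agent.* helpers here

set_option autoImplicit false
open Pool Pool.MP_3d7919_co

namespace Pool.Agent.S08258

/-- Integer coordinates of the seven points (labels 1..7). -/
def X : Fin 7 → ℤ := ![7, 2, 6, 0, 5, 4, 5]
/-- Second coordinates. -/
def Y : Fin 7 → ℤ := ![1, 2, 3, 2, 7, 5, 6]

/-- The points in the plane. -/
noncomputable def P (i : Fin 7) : EuclideanSpace ℝ (Fin 2) := !₂[(X i : ℝ), (Y i : ℝ)]

/-- Twice the signed area. -/
def D (i j k : Fin 7) : ℤ := (X j - X i) * (Y k - Y i) - (Y j - Y i) * (X k - X i)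

theorem P0 (i : Fin 7) : P i 0 = X i := by simp [P]
theorem P1 (i : Fin 7) : P i 1 = Y i := by simp [P]

theorem D_ne : ∀ i j k : Fin 7, i ≠ j → j ≠ k → i ≠ k → D i j k ≠ 0 := by decide +kernel

theorem XY_inj : ∀ i j : Fin 7, X i = X j → Y i = Y j → i = j := by decide +kernel

theorem key : ∀ s : Finset (Fin 7), ∑ i ∈ s, (i.val + 1) = 2 * 7 →
    ∃ a ∈ s, ∃ b ∈ s, ∃ c ∈ s, ∃ q, q ∉ s ∧ 0 < D q b c ∧ 0 < D a q c ∧ 0 < D a b q := by
  decide +kernel

theorem mem_of (S : Set (EuclideanSpace ℝ (Fin 2))) (hS : Convex ℝ S) (a b c q : Fin 7)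
    (ha : P a ∈ S) (hb : P b ∈ S) (hc : P c ∈ S)
    (h1 : 0 < D q b c) (h2 : 0 < D a q c) (h3 : 0 < D a b q) : P q ∈ S := by
  have h1' : (0 : ℝ) < D q b c := by exact_mod_cast h1
  have h2' : (0 : ℝ) < D a q c := by exact_mod_cast h2
  have h3' : (0 : ℝ) < D a b q := by exact_mod_cast h3
  set u : ℝ := ((D q b c : ℤ) : ℝ) with hu
  set v : ℝ := ((D a q c : ℤ) : ℝ) with hv
  set w : ℝ := ((D a b q : ℤ) : ℝ) with hw
  have hab : (u / (u + v)) • P a + (v / (u + v)) • P b ∈ S :=
    hS ha hb (by positivity) (by positivity) (by field_simp)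
  have h := hS hab hc (a := (u + v) / (u + v + w)) (b := w / (u + v + w))
    (by positivity) (by positivity) (by field_simp)
  have huv : u + v ≠ 0 := by positivity
  have huvw : u + v + w ≠ 0 := by positivity
  convert h using 1
  ext i
  fin_cases i
  · simp only [Fin.zero_eta, PiLp.add_apply, PiLp.smul_apply, smul_eq_mul, P0]
    field_simp
    simp only [hu, hv, hw, D]
    push_cast
    ring
  · simp only [Fin.mk_one, PiLp.add_apply, PiLp.smul_apply, smul_eq_mul, P1]
    field_simp
    simp only [hu, hv, hw, D]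
    push_cast
    ring

/-- The negation of the preceding statement: For every n ≥ 5 and n distinct plane points with no three collinear, labelled 1..n, some subset cut out by a convex set has label sum exactly 2n. -/
theorem result :
    ¬ (∀ n : ℕ, 5 ≤ n →
      ∀ p : Fin n → EuclideanSpace ℝ (Fin 2),
        Function.Injective p →
        (∀ i j k : Fin n, i ≠ j → j ≠ k → i ≠ k →
          ¬ Collinear ℝ ({p i, p j, p k} : Set (EuclideanSpace ℝ (Fin 2)))) →
        ∃ s : Finset (Fin n),
          (∃ S : Set (EuclideanSpace ℝ (Fin 2)), Convex ℝ S ∧ ∀ i : Fin n, p i ∈ S ↔ i ∈ s) ∧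
          ∑ i ∈ s, (i.val + 1) = 2 * n) := by
  intro h
  obtain ⟨s, ⟨S, hS, hmem⟩, hsum⟩ := h 7 (by norm_num) P
    (by
      intro i j hij
      apply XY_inj
      · have := congrArg (fun z => z 0) hij
        simp only [P0] at this
        exact_mod_cast this
      · have := congrArg (fun z => z 1) hij
        simp only [P1] at this
        exact_mod_cast this)
    (by
      intro i j k hij hjk hik hcol
      rw [collinear_iff_of_mem (p₀ := P i) (by simp)] at hcol
      obtain ⟨v, hv⟩ := hcol
      obtain ⟨r, hr⟩ := hv (P j) (by simp)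
      obtain ⟨t, ht⟩ := hv (P k) (by simp)
      have r0 := congrArg (fun z => z 0) hr
      have r1 := congrArg (fun z => z 1) hr
      have t0 := congrArg (fun z => z 0) ht
      have t1 := congrArg (fun z => z 1) ht
      simp only [vadd_eq_add, PiLp.add_apply, PiLp.smul_apply, smul_eq_mul, P0, P1] at r0 r1 t0 t1
      apply D_ne i j k hij hjk hik
      have : (D i j k : ℝ) = 0 := by
        simp only [D]
        push_cast
        rw [r0, r1, t0, t1]
        ring
      exact_mod_cast this)
  obtain ⟨a, ha, b, hb, c, hc, q, hq, h1, h2, h3⟩ := key s hsum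
  exact hq ((hmem q).1 (mem_of S hS a b c q ((hmem a).2 ha) ((hmem b).2 hb) ((hmem c).2 hc)
    h1 h2 h3))

end Pool.Agent.S08258
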