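import Pool.Statements.S08283
-- import your own Pool.Agent.* helpers here

set_option autoImplicit false
open Pool Pool.MP_3e8e5c_co

namespace Pool.Agent.S08283

def N (v w : Fin 18) : Bool := Nat.testBit 31894959669264343365965052644750216674571943926557090586910349997647042953050574182920686813054657 (18 * v.val + w.val)

def G : SimpleGraph (Fin 18) := SimpleGraph.fromRel (fun u v => N u v = true)

instance : DecidableRel G.Adj := fun x y => by unfold G; infer_instance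

def N' (a b v w : Fin 18) : Bool := N v w && !(v == a && w == b) && !(v == b && w == a)

def irrL (M : Fin 18 → Fin 18 → Bool) (L : List (Fin 18)) : Bool :=
  L.all fun v => (List.finRange 18).any fun w => M v w && L.all fun u => u == v || !M u w

def P (H : SimpleGraph (Fin 18)) (T : Finset (Fin 18)) : Prop :=
  ∀ v ∈ T, ∃ w : Fin 18, (w = v ∨ H.Adj v w) ∧ ∀ u ∈ T, u ≠ v → ¬ (w = u ∨ H.Adj u w)

lemma P_mono (H : SimpleGraph (Fin 18)) {S T : Finset (Fin 18)} (h : S ⊆ T) (hT : P H T) : P H S :=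
  fun v hv => (hT v (h hv)).imp fun _ hw => ⟨hw.1, fun u hu => hw.2 u (h hu)⟩

lemma irr_iff (H : SimpleGraph (Fin 18)) (M : Fin 18 → Fin 18 → Bool)
    (h : ∀ v w, (w = v ∨ H.Adj v w) ↔ M v w = true) (L : List (Fin 18)) :
    P H L.toFinset ↔ irrL M L = true := by
  simp only [P, irrL, h, List.mem_toFinset, List.all_eq_true, List.any_eq_true, List.mem_finRange,
    true_and, Bool.and_eq_true, Bool.or_eq_true, beq_iff_eq, Bool.not_eq_true', ne_eq,
    Bool.not_eq_true, ← or_iff_not_imp_left]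

def tab : List (Fin 18 × Fin 18 × List (Fin 18)) :=
  [(0, 6, [6, 8, 10]), (0, 7, [7, 8, 9]), (0, 9, [7, 9, 11]), (0, 10, [6, 10, 11]), (1, 7, [6, 7, 11]), (1, 8, [6, 8, 10]), (1, 10, [8, 9, 10]), (1, 11, [7, 9, 11]), (2, 6, [6, 7, 11]), (2, 8, [7, 8, 9]), (2, 9, [8, 9, 10]), (2, 11, [6, 10, 11]), (3, 13, [12, 13, 15]), (3, 14, [12, 14, 17]), (3, 15, [13, 15, 16]), (3, 17, [14, 16, 17]), (4, 12, [12, 13, 15]), (4, 14, [13, 14, 16]), (4, 15, [12, 15, 17]), (4, 16, [14, 16, 17]), (5, 12, [12, 14, 17]), (5, 13, [13, 14, 16]), (5, 16, [13, 15, 16]), (5, 17, [12, 15, 17]), (6, 7, [6, 9, 13]), (6, 8, [8, 11, 12]), (6, 9, [6, 8, 10]), (6, 11, [6, 7, 11]), (6, 13, [6, 7, 11]), (6, 14, [6, 8, 9]), (6, 15, [6, 7, 9]), (6, 16, [6, 8, 10]), (7, 8, [7, 10, 14]), (7, 9, [7, 8, 9]), (7, 10, [6, 7, 11]), (7, 12, [6, 7, 9]), (7, 14, [7, 8, 9]), (7, 16, [7, 8, 10]), (7, 17, [6, 7, 11]), (8, 10, [6, 8, 10]), (8, 11, [7, 8, 9]), (8,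 12, [6, 8, 10]), (8, 13, [7, 8, 10]), (8, 15, [6, 9, 15]), (8, 17, [6, 8, 9]), (9, 10, [7, 10, 16]), (9, 11, [6, 9, 15]), (9, 12, [7, 9, 11]), (9, 14, [6, 9, 10]), (9, 15, [6, 9, 11]), (9, 17, [8, 9, 10]), (10, 11, [8, 11, 17]), (10, 12, [7, 10, 11]), (10, 13, [6, 9, 13]), (10, 15, [6, 10, 11]), (10, 16, [6, 9, 10]), (11, 13, [6, 9, 11]), (11, 14, [6, 10, 11]), (11, 16, [7, 9, 11]), (11, 17, [7, 10, 11]), (12, 13, [6, 13, 17]), (12, 14, [8, 12, 16]), (12, 16, [12, 13, 15]), (12, 17, [12, 14, 17]), (13, 14, [7, 14, 15]), (13, 15, [12, 13, 15]), (13, 17, [13, 14, 16]), (14, 15, [12, 14, 17]), (14, 16, [13, 14, 16]), (15, 16, [8, 11, 16]), (15, 17, [7, 10, 15]), (16, 17, [6, 9, 17])]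

lemma c0 : ∀ v w, (w = v ∨ G.Adj v w) ↔ N v w = true := by decide +kernel

lemma c1 : ∀ a b c : Fin 18, irrL N [a, b, c] = true →
    ∃ d, d ∉ [a, b, c] ∧ irrL N [d, a, b, c] = true := by decide +kernel

lemma c2 : ∀ t ∈ tab, t.1 ≠ t.2.1 ∧ t.2.2.length = 3 ∧ irrL (N' t.1 t.2.1) t.2.2 = true ∧
    ∀ d, d ∉ t.2.2 → irrL (N' t.1 t.2.1) (d :: t.2.2) = false := by decide +kernel

lemma c3 : ∀ a b, G.Adj a b → ∃ t ∈ tab, s(a, b) = s(t.1, t.2.1) := by decide +kernel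

lemma c4 (a b : Fin 18) (hab : a ≠ b) (v w : Fin 18) :
    (w = v ∨ (G.deleteEdges {s(a, b)}).Adj v w) ↔ N' a b v w = true := by
  have := c0 v w
  simp only [N', SimpleGraph.deleteEdges_adj, Set.mem_singleton_iff, Sym2.eq_iff, Bool.and_eq_true,
    Bool.not_eq_true', Bool.and_eq_false_imp, beq_iff_eq, beq_eq_false_iff_ne, ← this]
  constructor
  · rintro (rfl | ⟨h1, h2⟩)
    · exact ⟨⟨Or.inl rfl, fun h1 h2 => hab (h1.symm.trans h2)⟩, fun h1 h2 => hab (h2.symm.trans h1)⟩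
    · exact ⟨⟨Or.inr h1, fun x y => h2 (Or.inl ⟨x, y⟩)⟩, fun x y => h2 (Or.inr ⟨x, y⟩)⟩
  · rintro ⟨⟨h | h, h1⟩, h2⟩
    · exact Or.inl h
    · exact Or.inr ⟨h, fun x => x.elim (fun y => h1 y.1 y.2) (fun y => h2 y.1 y.2)⟩

lemma low : 3 < sInf {k : ℕ | ∃ S : Finset (Fin 18), Maximal (P G) S ∧ S.card = k} := by
  obtain ⟨S0, -, h0⟩ := Finite.exists_le_maximal (p := P G) (a := ∅) (fun v hv => by simp at hv)
  obtain ⟨S, hS, hc⟩ := Nat.sInf_mem
    (s := {k : ℕ | ∃ S : Finset (Fin 18), Maximal (P G) S ∧ S.card = k}) ⟨_, S0, h0, rfl⟩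
  by_contra hlt
  have : S = ∅ ∨ ∃ a b c, S = [a, b, c].toFinset := by
    have : S.card = 0 ∨ S.card = 1 ∨ S.card = 2 ∨ S.card = 3 := by omega
    rcases this with h | h | h | h
    · exact Or.inl (Finset.card_eq_zero.1 h)
    · obtain ⟨a, rfl⟩ := Finset.card_eq_one.1 h
      exact Or.inr ⟨a, a, a, by simp⟩
    · obtain ⟨a, b, -, rfl⟩ := Finset.card_eq_two.1 h
      exact Or.inr ⟨a, b, b, by simp⟩
    · obtain ⟨a, b, c, -, -, -, rfl⟩ := Finset.card_eq_three.1 h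
      exact Or.inr ⟨a, b, c, by simp⟩
  rcases this with rfl | ⟨a, b, c, rfl⟩
  · have := hS.2 (y := [0].toFinset) ((irr_iff G N c0 _).2 (by decide +kernel)) (by simp)
    simp at this
  · obtain ⟨d, h1, h2⟩ := c1 a b c ((irr_iff G N c0 _).1 hS.1)
    have := hS.2 ((irr_iff G N c0 _).2 h2) (by rw [List.toFinset_cons (a := d)]; exact Finset.subset_insert _ _)
    exact h1 (List.mem_toFinset.1 (this (by simp)))

/-- There is a finite simple graph with at least one edge such that deleting any single edge strictly lowers the lower irredundance number (the least size of a maximal irredundant vertex set). -/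
theorem result :
    ∃ n : ℕ, ∃ G : SimpleGraph (Fin n), G.edgeSet.Nonempty ∧
      ∀ e ∈ G.edgeSet,
        sInf {k : ℕ | ∃ S : Finset (Fin n),
            Maximal (fun T : Finset (Fin n) => ∀ v ∈ T, ∃ w : Fin n,
                (w = v ∨ (G.deleteEdges {e}).Adj v w) ∧
                ∀ u ∈ T, u ≠ v → ¬ (w = u ∨ (G.deleteEdges {e}).Adj u w)) S ∧
            S.card = k}
          <
        sInf {k : ℕ | ∃ S : Finset (Fin n),
            Maximal (fun T : Finset (Fin n) => ∀ v ∈ T, ∃ w : Fin n,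
                (w = v ∨ G.Adj v w) ∧
                ∀ u ∈ T, u ≠ v → ¬ (w = u ∨ G.Adj u w)) S ∧
            S.card = k} := by
  refine ⟨18, G, ⟨s(0, 6), by simp only [SimpleGraph.mem_edgeSet]; decide⟩, fun e => ?_⟩
  induction e using Sym2.ind with
  | h a b =>
    intro he
    obtain ⟨t, ht, e⟩ := c3 a b he
    obtain ⟨h0, h1, h2, h3⟩ := c2 t ht
    rw [e]
    refine lt_of_le_of_lt (le_trans (Nat.sInf_le ⟨t.2.2.toFinset, ⟨(irr_iff _ _ (c4 _ _ h0) _).2 h2,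
      fun T hT hle d hd => ?_⟩, rfl⟩) (h1 ▸ List.toFinset_card_le _)) low
    by_contra hn
    have := (irr_iff _ _ (c4 _ _ h0) (d :: t.2.2)).1 (P_mono _ (by
      rw [List.toFinset_cons]; exact Finset.insert_subset hd hle) hT)
    rw [h3 d (by simpa using hn)] at this
    exact Bool.false_ne_true this

end Pool.Agent.S08283
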