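import Pool.Statements.S08294
-- import your own Pool.Agent.* helpers here

set_option autoImplicit false
open Pool Pool.MP_3ee535_co

namespace Pool.Agent.S08294

open Finset

/-- Number of earlier neighbours. -/
def dg {m : ℕ} (R : Fin m → Fin m → Prop) [DecidableRel R] (j : Fin m) : ℕ :=
  ∑ i : Fin m, if i < j ∧ R i j then 1 else 0

theorem peo_count (k : ℕ) : ∀ (m : ℕ) (R : Fin m → Fin m → Prop) [DecidableRel R],
    (∀ i i' j, i < i' → i' < j → R i j → R i' j → R i i') →
    Nat.card {c : Fin m → Fin k // ∀ i j, i < j → R i j → c i ≠ c j} = ∏ j, (k - dg R j) := by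
  intro m
  induction m with
  | zero =>
    intro R _ _
    simp
  | succ m ih =>
    intro R _ hR
    let R0 : Fin m → Fin m → Prop := fun i j => R i.castSucc j.castSucc
    have h0 := ih R0 (fun i i' j h1 h2 => hR _ _ _ (Fin.castSucc_lt_castSucc_iff.2 h1)
      (Fin.castSucc_lt_castSucc_iff.2 h2))
    let e : {c : Fin (m + 1) → Fin k // ∀ i j, i < j → R i j → c i ≠ c j} ≃
        Σ c : {c : Fin m → Fin k // ∀ i j, i < j → R0 i j → c i ≠ c j},
          {a : Fin k // ∀ i : Fin m, R i.castSucc (Fin.last m) → c.1 i ≠ a} :=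
      { toFun := fun c => ⟨⟨fun i => c.1 i.castSucc, fun i j h hr =>
            c.2 _ _ (Fin.castSucc_lt_castSucc_iff.2 h) hr⟩,
          ⟨c.1 (Fin.last m), fun i hr => c.2 _ _ (Fin.castSucc_lt_last i) hr⟩⟩
        invFun := fun p => ⟨Fin.snoc (α := fun _ => Fin k) p.1.1 p.2.1, by
          intro i j h hr
          obtain ⟨i, rfl⟩ := Fin.exists_castSucc_eq.2 (Fin.ne_last_of_lt h)
          induction j using Fin.lastCases with
          | last => simpa using p.2.2 i hr
          | cast j => simpa using p.1.2 i j (Fin.castSucc_lt_castSucc_iff.1 h) hr⟩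
        left_inv := by
          intro c
          apply Subtype.ext
          exact Fin.snoc_init_self c.1
        right_inv := by
          rintro ⟨⟨c, hc⟩, ⟨a, ha⟩⟩
          refine Sigma.subtype_ext (Subtype.ext ?_) ?_
          · funext i
            simp
          · simp }
    rw [Nat.card_congr e, Nat.card_sigma, Fin.prod_univ_castSucc]
    have hd : ∀ j : Fin m, dg R j.castSucc = dg R0 j := by
      intro j
      unfold dg
      rw [Fin.sum_univ_castSucc]
      simp [R0, not_lt.2 (Fin.le_last _)]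
    have hl : ∀ c : {c : Fin m → Fin k // ∀ i j, i < j → R0 i j → c i ≠ c j},
        Nat.card {a : Fin k // ∀ i : Fin m, R i.castSucc (Fin.last m) → c.1 i ≠ a} =
          k - dg R (Fin.last m) := by
      intro c
      have e1 : dg R (Fin.last m) = #{i : Fin m | R i.castSucc (Fin.last m)} := by
        unfold dg
        rw [Fin.sum_univ_castSucc, Finset.card_filter]
        simp
      have e2 : #(image c.1 {i : Fin m | R i.castSucc (Fin.last m)}) =
          #{i : Fin m | R i.castSucc (Fin.last m)} := by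
        apply Finset.card_image_of_injOn
        intro i hi j hj hij
        simp only [coe_filter, mem_univ, true_and, Set.mem_ofPred_eq] at hi hj
        by_contra hne
        rcases lt_or_gt_of_ne hne with h | h
        · exact c.2 i j h (hR _ _ _ (Fin.castSucc_lt_castSucc_iff.2 h) (Fin.castSucc_lt_last _) hi hj) hij
        · exact c.2 j i h (hR _ _ _ (Fin.castSucc_lt_castSucc_iff.2 h) (Fin.castSucc_lt_last _) hj hi) hij.symm
      rw [e1, ← e2, Nat.card_eq_fintype_card, Fintype.card_subtype]
      have e3 : ({a : Fin k | ∀ i : Fin m, R i.castSucc (Fin.last m) → c.1 i ≠ a} : Finset (Fin k)) =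
          (image c.1 {i : Fin m | R i.castSucc (Fin.last m)})ᶜ := by
        ext a
        simp
      rw [e3, Finset.card_compl, Fintype.card_fin]
    simp only [hl, hd, sum_const, card_univ, smul_eq_mul]
    rw [← h0, Nat.card_eq_fintype_card]

theorem col_count (k m : ℕ) (G : SimpleGraph (Fin m)) [DecidableRel G.Adj]
    (h : ∀ i i' j, i < i' → i' < j → G.Adj i j → G.Adj i' j → G.Adj i i') :
    Nat.card (G.Coloring (Fin k)) = ∏ j, (k - dg G.Adj j) := by
  rw [← peo_count k m G.Adj h]
  refine Nat.card_congr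
    { toFun := fun c => ⟨c, fun i j _ hr => c.valid hr⟩
      invFun := fun c => SimpleGraph.Coloring.mk c.1 (fun {i j} hr => ?_)
      left_inv := fun c => rfl
      right_inv := fun c => rfl }
  rcases lt_or_gt_of_ne hr.ne with h | h
  · exact c.2 i j h hr
  · exact (c.2 j i h hr.symm).symm

/-- Projection collapsing the twin (placed right after `v`) onto `v`. -/
def pr {m : ℕ} (v : Fin m) (x : Fin (m + 1)) : Fin m := (finSuccEquiv' v.succ x).getD v

/-- The graph with an adjacent twin of `v` inserted right after `v`. -/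
def tw {m : ℕ} (G : SimpleGraph (Fin m)) (v : Fin m) : SimpleGraph (Fin (m + 1)) where
  Adj x y := G.Adj (pr v x) (pr v y) ∨ (x ≠ y ∧ pr v x = pr v y)
  symm := ⟨fun _ _ h => h.elim (fun h => Or.inl h.symm) (fun h => Or.inr ⟨h.1.symm, h.2.symm⟩)⟩
  loopless := ⟨fun _ h => h.elim (fun h => h.ne rfl) (fun h => h.1 rfl)⟩

instance {m : ℕ} (G : SimpleGraph (Fin m)) [DecidableRel G.Adj] (v : Fin m) :
    DecidableRel (tw G v).Adj := fun x y =>
  inferInstanceAs (Decidable (G.Adj (pr v x) (pr v y) ∨ (x ≠ y ∧ pr v x = pr v y)))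

theorem pr_self {m : ℕ} (v : Fin m) : pr v v.succ = v := by simp [pr]

theorem pr_above {m : ℕ} (v i : Fin m) : pr v (v.succ.succAbove i) = i := by simp [pr]

theorem card_one_iff {m k : ℕ} (c c' : Fin m → Fin k) :
    Nat.card {v : Fin m // c v ≠ c' v} = 1 ↔ ∃ v, c v ≠ c' v ∧ ∀ w, w ≠ v → c w = c' w := by
  rw [Nat.card_eq_one_iff_exists]
  constructor
  · rintro ⟨⟨v, hv⟩, h⟩
    refine ⟨v, hv, fun w hw => ?_⟩
    by_contra hne
    exact hw (congrArg Subtype.val (h ⟨w, hne⟩))
  · rintro ⟨v, hv, h⟩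
    refine ⟨⟨v, hv⟩, fun w => Subtype.ext ?_⟩
    by_contra hne
    exact w.2 (h w.1 hne)

theorem pair_count (k m : ℕ) (G : SimpleGraph (Fin m)) :
    Nat.card {p : G.Coloring (Fin k) × G.Coloring (Fin k) //
      Nat.card {v : Fin m // p.1 v ≠ p.2 v} = 1} =
    ∑ v : Fin m, Nat.card ((tw G v).Coloring (Fin k)) := by
  rw [← Nat.card_sigma]
  symm
  let f1 : ∀ v : Fin m, (tw G v).Coloring (Fin k) → G.Coloring (Fin k) := fun v d =>
    SimpleGraph.Coloring.mk (fun i => d (v.succ.succAbove i)) (fun {i j} hr =>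
      d.valid (Or.inl (by rw [pr_above, pr_above]; exact hr)))
  let g2 : Fin m → Fin m → Fin (m + 1) := fun v i => if i = v then v.succ else v.succ.succAbove i
  have hg2 : ∀ v i, pr v (g2 v i) = i := by
    intro v i
    by_cases h : i = v
    · simp only [g2, h, if_true, pr_self]
    · simp only [g2, h, if_false, pr_above]
  let f2 : ∀ v : Fin m, (tw G v).Coloring (Fin k) → G.Coloring (Fin k) := fun v d =>
    SimpleGraph.Coloring.mk (fun i => d (g2 v i)) (fun {i j} hr =>
      d.valid (Or.inl (by rw [hg2, hg2]; exact hr)))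
  have hne : ∀ v d, f1 v d v ≠ f2 v d v := by
    intro v d
    change d (v.succ.succAbove v) ≠ d (g2 v v)
    refine d.valid (Or.inr ⟨?_, by rw [hg2, pr_above]⟩)
    simp only [g2, if_true]
    exact Fin.succAbove_ne _ _
  have heq : ∀ v d w, w ≠ v → f1 v d w = f2 v d w := by
    intro v d w hw
    change d (v.succ.succAbove w) = d (g2 v w)
    simp only [g2, hw, if_false]
  refine Nat.card_eq_of_bijective (fun x => ⟨(f1 x.1 x.2, f2 x.1 x.2),
    (card_one_iff _ _).2 ⟨x.1, hne _ _, heq _ _⟩⟩) ⟨?_, ?_⟩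
  · rintro ⟨v, d⟩ ⟨v', d'⟩ h
    have h1 : f1 v d = f1 v' d' := congrArg (fun z => z.1.1) h
    have h2 : f2 v d = f2 v' d' := congrArg (fun z => z.1.2) h
    have hv : v = v' := by
      by_contra hvv
      apply hne v d
      rw [h1, h2]
      exact heq v' d' v hvv
    subst hv
    congr 1
    ext x
    congr 1
    by_cases hx : x = v.succ
    · have h3 : f2 v d v = f2 v d' v := by rw [h2]
      change d (g2 v v) = d' (g2 v v) at h3
      simpa only [g2, if_true, hx] using h3
    · obtain ⟨i, rfl⟩ := Fin.exists_succAbove_eq hx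
      have h3 : f1 v d i = f1 v d' i := by rw [h1]
      exact h3
  · rintro ⟨⟨c, c'⟩, hp⟩
    obtain ⟨v, hv, hw⟩ := (card_one_iff _ _).1 hp
    have hv' : c v ≠ c' v := hv
    have hw' : ∀ w, w ≠ v → c w = c' w := hw
    let D : Fin (m + 1) → Fin k := fun x => if x = v.succ then c' v else c (pr v x)
    have hD1 : ∀ i, D (v.succ.succAbove i) = c i := by
      intro i
      simp only [D, Fin.succAbove_ne, if_false, pr_above]
    have hD2 : D v.succ = c' v := by simp only [D, if_true]
    refine ⟨⟨v, SimpleGraph.Coloring.mk D (fun {x y} hr => ?_)⟩, ?_⟩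
    · by_cases hx : x = v.succ
      · by_cases hy : y = v.succ
        · exact absurd (hx.trans hy.symm) hr.ne
        · obtain ⟨j, rfl⟩ := Fin.exists_succAbove_eq hy
          subst hx
          rw [hD1, hD2]
          rcases hr with hr | hr
          · rw [pr_self, pr_above] at hr
            rw [hw' j hr.ne.symm]
            exact c'.valid hr
          · rw [pr_self, pr_above] at hr
            rw [← hr.2]
            exact hv'.symm
      · obtain ⟨i, rfl⟩ := Fin.exists_succAbove_eq hx
        by_cases hy : y = v.succ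
        · subst hy
          rw [hD1, hD2]
          rcases hr with hr | hr
          · rw [pr_self, pr_above] at hr
            rw [hw' i hr.ne]
            exact c'.valid hr
          · rw [pr_self, pr_above] at hr
            rw [hr.2]
            exact hv'
        · obtain ⟨j, rfl⟩ := Fin.exists_succAbove_eq hy
          rw [hD1, hD1]
          rcases hr with hr | hr
          · rw [pr_above, pr_above] at hr
            exact c.valid hr
          · rw [pr_above, pr_above] at hr
            exact absurd (congrArg _ hr.2) hr.1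
    · apply Subtype.ext
      apply Prod.ext
      · ext i
        congr 1
        exact hD1 i
      · ext i
        congr 1
        change D (g2 v i) = c' i
        by_cases hi : i = v
        · simp only [g2, hi, if_true, hD2]
        · simp only [g2, hi, if_false, hD1, hw' i hi]

/-- Three disjoint triangles. -/
def G1 : SimpleGraph (Fin 9) := SimpleGraph.fromRel fun i j => i.val / 3 = j.val / 3

/-- A `K4` on `0..3` with pendant edges `0-4`, `1-5`, `2-6`, and two isolated vertices. -/
def G2 : SimpleGraph (Fin 9) :=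
  SimpleGraph.fromRel fun i j => (i.val < 4 ∧ j.val < 4) ∨ (i.val < 3 ∧ j.val = i.val + 4)

instance : DecidableRel G1.Adj := fun i j =>
  decidable_of_iff _ (SimpleGraph.fromRel_adj _ i j).symm

instance : DecidableRel G2.Adj := fun i j =>
  decidable_of_iff _ (SimpleGraph.fromRel_adj _ i j).symm

/-- Back degrees of the twinned graphs of `G1`. -/
def T1 : Fin 9 → Fin 10 → ℕ :=
  ![![0, 1, 2, 3, 0, 1, 2, 0, 1, 2],
    ![0, 1, 2, 3, 0, 1, 2, 0, 1, 2],
    ![0, 1, 2, 3, 0, 1, 2, 0, 1, 2],
    ![0, 1, 2, 0, 1, 2, 3, 0, 1, 2],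
    ![0, 1, 2, 0, 1, 2, 3, 0, 1, 2],
    ![0, 1, 2, 0, 1, 2, 3, 0, 1, 2],
    ![0, 1, 2, 0, 1, 2, 0, 1, 2, 3],
    ![0, 1, 2, 0, 1, 2, 0, 1, 2, 3],
    ![0, 1, 2, 0, 1, 2, 0, 1, 2, 3]]

/-- Back degrees of the twinned graphs of `G2`. -/
def T2 : Fin 9 → Fin 10 → ℕ :=
  ![![0, 1, 2, 3, 4, 2, 1, 1, 0, 0],
    ![0, 1, 2, 3, 4, 1, 2, 1, 0, 0],
    ![0, 1, 2, 3, 4, 1, 1, 2, 0, 0],
    ![0, 1, 2, 3, 4, 1, 1, 1, 0, 0],
    ![0, 1, 2, 3, 1, 2, 1, 1, 0, 0],
    ![0, 1, 2, 3, 1, 1, 2, 1, 0, 0],
    ![0, 1, 2, 3, 1, 1, 1, 2, 0, 0],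
    ![0, 1, 2, 3, 1, 1, 1, 0, 1, 0],
    ![0, 1, 2, 3, 1, 1, 1, 0, 0, 1]]

theorem d1 : ∀ v j, dg (tw G1 v).Adj j = T1 v j := by decide +kernel
theorem d2 : ∀ v j, dg (tw G2 v).Adj j = T2 v j := by decide +kernel
theorem p1 : ∀ v i i' j, i < i' → i' < j → (tw G1 v).Adj i j → (tw G1 v).Adj i' j →
    (tw G1 v).Adj i i' := by decide +kernel
theorem p2 : ∀ v i i' j, i < i' → i' < j → (tw G2 v).Adj i j → (tw G2 v).Adj i' j →
    (tw G2 v).Adj i i' := by decide +kernel

theorem sums (k : ℕ) : ∑ v, ∏ j, (k - T1 v j) = ∑ v, ∏ j, (k - T2 v j) := by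
  by_cases hk : k < 4
  · interval_cases k <;> decide +kernel
  · obtain ⟨a, rfl⟩ : ∃ a, k = a + 4 := ⟨k - 4, by omega⟩
    have h1 : a + 4 - 1 = a + 3 := by omega
    have h2 : a + 4 - 2 = a + 2 := by omega
    have h3 : a + 4 - 3 = a + 1 := by omega
    have h4 : a + 4 - 4 = a := by omega
    simp only [T1, T2, Fin.sum_univ_succ, Fin.prod_univ_succ, Matrix.cons_val_zero,
      Matrix.cons_val_succ, Finset.univ_eq_empty, Finset.sum_empty, Finset.prod_empty,
      Nat.sub_zero, h1, h2, h3, h4]
    ring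

/-- The negation of the preceding statement: For finite graphs G1, G2: if for every k their k-colouring graphs have equally many edges (counted as ordered pairs of proper colourings differing at exactly one vertex), then for every k they have equally many proper k-colourings. -/
theorem result :
    ¬ (∀ (n m : ℕ) (G₁ : SimpleGraph (Fin n)) (G₂ : SimpleGraph (Fin m)),
      (∀ k : ℕ,
        Nat.card {p : G₁.Coloring (Fin k) × G₁.Coloring (Fin k) //
            Nat.card {v : Fin n // p.1 v ≠ p.2 v} = 1} =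
          Nat.card {p : G₂.Coloring (Fin k) × G₂.Coloring (Fin k) //
            Nat.card {v : Fin m // p.1 v ≠ p.2 v} = 1}) →
      ∀ k : ℕ, Nat.card (G₁.Coloring (Fin k)) = Nat.card (G₂.Coloring (Fin k))) := by
  intro h
  have h1 := h 9 9 G1 G2 (by
    intro k
    rw [pair_count, pair_count]
    simp only [col_count k 10 _ (p1 _), col_count k 10 _ (p2 _), d1, d2]
    exact sums k) 3
  rw [col_count 3 9 G1 (by decide +kernel), col_count 3 9 G2 (by decide +kernel)] at h1
  revert h1
  decide +kernel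

end Pool.Agent.S08294
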