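import Pool.Statements.S08353

set_option autoImplicit false
open Pool Pool.MP_4150d6_co

namespace Pool.Agent.S08353

def pt : Fin 7 → ℕ := ![0, 0, 1, 1, 2, 2, 2]

/-- The complete tripartite graph with parts of sizes 2, 2, 3. -/
def G : SimpleGraph (Fin 7) where
  Adj u v := pt u ≠ pt v
  symm := ⟨fun _ _ h => h.symm⟩
  loopless := ⟨fun _ h => h rfl⟩

instance : DecidableRel G.Adj := fun u v => inferInstanceAs (Decidable (pt u ≠ pt v))

theorem card_edges : Nat.card G.edgeSet = 16 := by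
  have h := G.sum_degrees_eq_twice_card_edges
  have h2 : ∑ v, G.degree v = 32 := by decide
  rw [Nat.card_eq_fintype_card, ← SimpleGraph.edgeFinset_card]
  omega

def force (x : ℕ) (k : ℕ → Bool) : Bool := Nat.rec (k 0) (fun n _ => k (Nat.succ n)) x

theorem force_eq (x : ℕ) (k : ℕ → Bool) : force x k = k x := by cases x <;> rfl

def D (s W : ℕ) : ℕ := Nat.xor W (Nat.pow 2 s)

theorem testBit_D (s W t : ℕ) (h : t ≠ s) : (D s W).testBit t = W.testBit t := by
  have : D s W = W ^^^ 2 ^ s := rfl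
  rw [this, Nat.testBit_xor, Nat.testBit_two_pow_of_ne (Ne.symm h)]
  simp

def allBits (p : ℕ → Bool) (fuel : ℕ) : ℕ → Bool :=
  Nat.rec (fun c => Nat.beq c 0)
    (fun _ r c => cond (Nat.beq c 0) true
      (force (Nat.log2 c) fun d => p d && force (D d c) r)) fuel

theorem allBits_spec {p : ℕ → Bool} {fuel : ℕ} : ∀ {c : ℕ}, allBits p fuel c = true →
    ∀ d, c.testBit d = true → p d = true := by
  induction fuel with
  | zero =>
    intro c h d hd
    have h' : Nat.beq c 0 = true := h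
    rw [Nat.eq_of_beq_eq_true h'] at hd
    simp at hd
  | succ n ih =>
    intro c h d hd
    have h' : cond (Nat.beq c 0) true
      (force (Nat.log2 c) fun d => p d && force (D d c) (allBits p n)) = true := h
    cases hc : Nat.beq c 0
    · rw [hc, cond_false, force_eq, force_eq, Bool.and_eq_true] at h'
      by_cases hd2 : d = Nat.log2 c
      · rw [hd2]; exact h'.1
      · exact ih h'.2 d (by rw [testBit_D _ _ _ hd2]; exact hd)
    · rw [Nat.eq_of_beq_eq_true hc] at hd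
      simp at hd

def All (c : ℕ) (p : ℕ → Bool) : Bool := force c (allBits p 40)

theorem All_spec {p : ℕ → Bool} {c : ℕ} (h : All c p = true) (d : ℕ) (hd : c.testBit d = true) :
    p d = true := by
  unfold All at h
  rw [force_eq] at h
  exact allBits_spec h d hd

theorem T_rem (W t : ℕ) (l : List ℕ) (h : t ∉ l) : (l.foldr D W).testBit t = W.testBit t := by
  induction l with
  | nil => rfl
  | cons s l ih =>
    simp only [List.mem_cons, not_or] at h
    rw [List.foldr_cons, testBit_D _ _ _ h.1, ih h.2]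

def W0 (m : ℕ) : ℕ := Nat.shiftLeft 65535 m

theorem T_W0 (m s : ℕ) (h : m ≤ s ∧ s < m + 16) : (W0 m).testBit s = true := by
  have : W0 m = (2 ^ 16 - 1) <<< m := rfl
  rw [this, Nat.testBit_shiftLeft, Nat.testBit_two_pow_sub_one]
  simp only [ge_iff_le, Bool.and_eq_true, decide_eq_true_eq]
  omega

def Gt (y : ℕ) : ℕ := Nat.shiftLeft (Nat.shiftRight 131071 (y + 1)) (y + 1)

theorem T_Gt {y z : ℕ} (h : y < z) (hz : z < 17) : (Gt y).testBit z = true := by
  have : Gt y = ((2 ^ 17 - 1) >>> (y + 1)) <<< (y + 1) := rfl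
  rw [this, Nat.testBit_shiftLeft, Nat.testBit_shiftRight, Nat.testBit_two_pow_sub_one]
  simp only [ge_iff_le, Bool.and_eq_true, decide_eq_true_eq]
  omega

theorem T_all {z : ℕ} (hz : z < 17) : Nat.testBit 131071 z = true := by
  have : 131071 = 2 ^ 17 - 1 := rfl
  rw [this, Nat.testBit_two_pow_sub_one]
  simpa using hz

def C (W a c : ℕ) : ℕ := Nat.land (Nat.shiftRight W a) c

theorem T_C {W a c z : ℕ} (h1 : W.testBit (a + z) = true) (h2 : c.testBit z = true) :
    (C W a c).testBit z = true := by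
  have : C W a c = (W >>> a) &&& c := rfl
  rw [this, Nat.testBit_and, Nat.testBit_shiftRight, h1, h2]
  rfl

def L5 (W a b c d y : ℕ) : Bool := All (C W a (C W b (C W c (C W d (Gt y))))) fun _ => false

def L4 (W a b c d x : ℕ) : Bool := All (C W a (C W b (C W c (C W d (Gt x))))) fun y =>
  force (D (a + y) (D (b + y) (D (c + y) (D (d + y) W)))) fun W' => L5 W' a b c d y

def L3 (W a b c x : ℕ) : Bool := All (C W a (C W b (C W x (Gt c)))) fun d =>
  force (D (a + d) (D (b + d) (D (x + d) W))) fun W' => L4 W' a b c d x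

def L2 (W a c x : ℕ) : Bool := All (C W c (C W x (Gt a))) fun b =>
  force (D (c + b) (D (x + b) W)) fun W' => L3 W' a b c x

def L1 (W a c : ℕ) : Bool := All (C W a (C W c 131071)) fun x =>
  force (D (a + x) (D (c + x) W)) fun W' => L2 W' a c x

def L0 (W : ℕ) : Bool := All 131071 fun a => All (C W a (Gt a)) fun c =>
  force (D (a + c) W) fun W' => L1 W' a c

theorem core : All 8589934591 (fun m => force (W0 m) L0) = true := by decide +kernel

theorem core' {m a b c d x y z : ℕ} (hm : m < 33) (ha : a < 17) (hb : b < 17) (hc : c < 17)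
    (hd : d < 17) (hx : x < 17) (hy : y < 17) (hz : z < 17) (hac : a < c) (hab : a < b)
    (hcd : c < d) (hxy : x < y) (hyz : y < z)
    (hr : ∀ s ∈ [a + z, b + z, c + z, d + z, a + y, b + y, c + y, d + y, a + d, b + d, x + d,
      c + b, x + b, a + x, c + x, a + c], m ≤ s ∧ s < m + 16)
    (hn : [a + z, b + z, c + z, d + z, a + y, b + y, c + y, d + y, a + d, b + d, x + d,
      c + b, x + b, a + x, c + x, a + c].Nodup) : False := by
  have key : ∀ (l1 l2 : List ℕ), l1 ++ l2 = [a + z, b + z, c + z, d + z, a + y, b + y, c + y,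
      d + y, a + d, b + d, x + d, c + b, x + b, a + x, c + x, a + c] → ∀ t ∈ l1,
      (l2.foldr D (W0 m)).testBit t = true := by
    intro l1 l2 h t ht
    rw [← h] at hr hn
    rw [T_rem _ _ _ (fun h2 => (List.nodup_append.mp hn).2.2 t ht t h2 rfl)]
    exact T_W0 m t (hr t (List.mem_append_left _ ht))
  have k0 := key _ [] (List.append_nil _)
  have k1 := key [a + z, b + z, c + z, d + z, a + y, b + y, c + y,
      d + y, a + d, b + d, x + d, c + b, x + b, a + x, c + x] [a + c] rfl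
  have k2 := key [a + z, b + z, c + z, d + z, a + y, b + y, c + y,
      d + y, a + d, b + d, x + d, c + b, x + b] [a + x, c + x, a + c] rfl
  have k3 := key [a + z, b + z, c + z, d + z, a + y, b + y, c + y,
      d + y, a + d, b + d, x + d] [c + b, x + b, a + x, c + x, a + c] rfl
  have k4 := key [a + z, b + z, c + z, d + z, a + y, b + y, c + y,
      d + y] [a + d, b + d, x + d, c + b, x + b, a + x, c + x, a + c] rfl
  have k5 := key [a + z, b + z, c + z, d + z] [a + y, b + y, c + y,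
      d + y, a + d, b + d, x + d, c + b, x + b, a + x, c + x, a + c] rfl
  simp only [List.foldr_cons, List.foldr_nil, List.mem_cons, List.not_mem_nil, or_false,
    forall_eq_or_imp, forall_eq] at k0 k1 k2 k3 k4 k5
  have hm' : Nat.testBit 8589934591 m = true := by
    have : 8589934591 = 2 ^ 33 - 1 := rfl
    rw [this, Nat.testBit_two_pow_sub_one]
    simpa using hm
  have h0 := All_spec core m hm'
  rw [force_eq] at h0
  have h1 := All_spec (All_spec h0 a (T_all ha)) c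
    (T_C k0.2.2.2.2.2.2.2.2.2.2.2.2.2.2.2 (T_Gt hac hc))
  rw [force_eq] at h1
  have h2 := All_spec h1 x (T_C k1.2.2.2.2.2.2.2.2.2.2.2.2.2.1
    (T_C k1.2.2.2.2.2.2.2.2.2.2.2.2.2.2 (T_all hx)))
  rw [force_eq] at h2
  have h3 := All_spec h2 b (T_C k2.2.2.2.2.2.2.2.2.2.2.2.1
    (T_C k2.2.2.2.2.2.2.2.2.2.2.2.2 (T_Gt hab hb)))
  rw [force_eq] at h3
  have h4 := All_spec h3 d (T_C k3.2.2.2.2.2.2.2.2.1 (T_C k3.2.2.2.2.2.2.2.2.2.1
    (T_C k3.2.2.2.2.2.2.2.2.2.2 (T_Gt hcd hd))))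
  rw [force_eq] at h4
  have h5 := All_spec h4 y (T_C k4.2.2.2.2.1 (T_C k4.2.2.2.2.2.1 (T_C k4.2.2.2.2.2.2.1
    (T_C k4.2.2.2.2.2.2.2 (T_Gt hxy hy)))))
  rw [force_eq] at h5
  have h6 := All_spec h5 z (T_C k5.1 (T_C k5.2.1 (T_C k5.2.2.1 (T_C k5.2.2.2 (T_Gt hyz hz)))))
  exact absurd h6 (by decide)

def Valid (f : Fin 7 → ℕ) (m : ℕ) : Prop :=
  Function.Injective f ∧ (∀ v, f v < 17) ∧
    (∀ a b : Fin 7, G.Adj a b → m ≤ f a + f b ∧ f a + f b < m + 16) ∧
    ∀ a b c d : Fin 7, G.Adj a b → G.Adj c d → f a + f b = f c + f d → s(a, b) = s(c, d)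

theorem Valid.comp {f : Fin 7 → ℕ} {m : ℕ} (h : Valid f m) (σ : Fin 7 → Fin 7)
    (hσ : Function.Injective σ ∧ ∀ a b, pt a ≠ pt b → pt (σ a) ≠ pt (σ b)) : Valid (f ∘ σ) m := by
  obtain ⟨h1, h2, h3, h4⟩ := h
  have hadj : ∀ a b, G.Adj a b → G.Adj (σ a) (σ b) := hσ.2
  refine ⟨h1.comp hσ.1, fun v => h2 _, fun a b hab => h3 _ _ (hadj a b hab), ?_⟩
  intro a b c d hab hcd he
  have := h4 _ _ _ _ (hadj a b hab) (hadj c d hcd) he
  apply Sym2.map.injective hσ.1
  simpa using this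

def edges : List (Fin 7 × Fin 7) :=
  [(0, 6), (1, 6), (2, 6), (3, 6), (0, 5), (1, 5), (2, 5), (3, 5), (0, 3), (1, 3), (4, 3), (2, 1),
   (4, 1), (0, 4), (2, 4), (0, 2)]

theorem sorted_false' {f : Fin 7 → ℕ} {m : ℕ} (h : Valid f m) (h02 : f 0 < f 2)
    (h01 : f 0 < f 1) (h23 : f 2 < f 3)
    (h45 : f 4 < f 5) (h56 : f 5 < f 6) : False := by
  obtain ⟨-, h2, h3, h4⟩ := h
  have hn : (edges.map (fun p => f p.1 + f p.2)).Nodup := by
    apply List.Nodup.map_on _ (by decide)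
    intro p hp q hq he
    have e1 : ∀ p ∈ edges, G.Adj p.1 p.2 := by decide
    have e2 : ∀ p ∈ edges, ∀ q ∈ edges, s(p.1, p.2) = s(q.1, q.2) → p = q := by decide
    exact e2 p hp q hq (h4 _ _ _ _ (e1 p hp) (e1 q hq) he)
  have hr : ∀ s ∈ edges.map (fun p => f p.1 + f p.2), m ≤ s ∧ s < m + 16 := by
    intro s hs
    obtain ⟨p, hp, rfl⟩ := List.mem_map.mp hs
    have e1 : ∀ p ∈ edges, G.Adj p.1 p.2 := by decide
    exact h3 _ _ (e1 p hp)
  have hm : m < 33 := by
    have := (h3 0 2 (by decide)).1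
    have := h2 0
    have := h2 2
    omega
  exact core' hm (h2 0) (h2 1) (h2 2) (h2 3) (h2 4) (h2 5) (h2 6) h02 h01 h23 h45 h56 hr hn

theorem sorted_false {f : Fin 7 → ℕ} {m : ℕ} (h : Valid f m)
    (h01 : f 0 < f 1) (h23 : f 2 < f 3) (h45 : f 4 < f 5) (h56 : f 5 < f 6) : False := by
  have n02 : f 0 ≠ f 2 := fun e => absurd (h.1 e) (by decide)
  rcases Nat.lt_or_gt_of_ne n02 with a | a
  · exact sorted_false' h a h01 h23 h45 h56
  · exact sorted_false' (h.comp ![2, 3, 0, 1, 4, 5, 6] (by decide)) a h23 h01 h45 h56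

theorem s2 {f : Fin 7 → ℕ} {m : ℕ} (h : Valid f m) (h01 : f 0 < f 1) (h23 : f 2 < f 3) :
    False := by
  have n45 : f 4 ≠ f 5 := fun e => absurd (h.1 e) (by decide)
  have n46 : f 4 ≠ f 6 := fun e => absurd (h.1 e) (by decide)
  have n56 : f 5 ≠ f 6 := fun e => absurd (h.1 e) (by decide)
  have hc : (f 4 < f 5 ∧ f 5 < f 6) ∨ (f 4 < f 6 ∧ f 6 < f 5) ∨ (f 5 < f 4 ∧ f 4 < f 6) ∨
      (f 5 < f 6 ∧ f 6 < f 4) ∨ (f 6 < f 4 ∧ f 4 < f 5) ∨ (f 6 < f 5 ∧ f 5 < f 4) := by omega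
  rcases hc with ⟨a, b⟩ | ⟨a, b⟩ | ⟨a, b⟩ | ⟨a, b⟩ | ⟨a, b⟩ | ⟨a, b⟩
  · exact sorted_false h h01 h23 a b
  · exact sorted_false (h.comp ![0, 1, 2, 3, 4, 6, 5] (by decide)) h01 h23 a b
  · exact sorted_false (h.comp ![0, 1, 2, 3, 5, 4, 6] (by decide)) h01 h23 a b
  · exact sorted_false (h.comp ![0, 1, 2, 3, 5, 6, 4] (by decide)) h01 h23 a b
  · exact sorted_false (h.comp ![0, 1, 2, 3, 6, 4, 5] (by decide)) h01 h23 a b
  · exact sorted_false (h.comp ![0, 1, 2, 3, 6, 5, 4] (by decide)) h01 h23 a b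

theorem s1 {f : Fin 7 → ℕ} {m : ℕ} (h : Valid f m) (h01 : f 0 < f 1) : False := by
  have n23 : f 2 ≠ f 3 := fun e => absurd (h.1 e) (by decide)
  rcases Nat.lt_or_gt_of_ne n23 with a | a
  · exact s2 h h01 a
  · exact s2 (h.comp ![0, 1, 3, 2, 4, 5, 6] (by decide)) h01 a

theorem s0 {f : Fin 7 → ℕ} {m : ℕ} (h : Valid f m) : False := by
  have n01 : f 0 ≠ f 1 := fun e => absurd (h.1 e) (by decide)
  rcases Nat.lt_or_gt_of_ne n01 with a | a
  · exact s1 h a
  · exact s1 (h.comp ![1, 0, 2, 3, 4, 5, 6] (by decide)) a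

theorem result :
    ∃ (n : ℕ) (G : SimpleGraph (Fin n)) (q : ℕ),
      Nat.card G.edgeSet = q ∧ 1 ≤ q ∧
      (∃ f : Fin n → ZMod q,
        (Function.Injective f ∨ (G.IsTree ∧ Function.Surjective f)) ∧
        ∀ a b c d : Fin n, G.Adj a b → G.Adj c d →
          f a + f b = f c + f d → s(a, b) = s(c, d)) ∧
      ¬ (∃ (f : Fin n → ℕ) (m : ℕ),
          Function.Injective f ∧
          ((∀ v, f v < q) ∨ (G.IsTree ∧ ∀ v, f v ≤ q)) ∧
          (∀ a b : Fin n, G.Adj a b → m ≤ f a + f b ∧ f a + f b < m + q) ∧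
          ∀ a b c d : Fin n, G.Adj a b → G.Adj c d →
            f a + f b = f c + f d → s(a, b) = s(c, d)) := by
  refine ⟨7, G, 16, card_edges, by norm_num, ⟨![0, 9, 1, 2, 3, 7, 13], Or.inl (by decide), ?_⟩, ?_⟩
  · decide +kernel
  · rintro ⟨f, m, h1, h2, h3, h4⟩
    refine s0 (f := f) (m := m) ⟨h1, ?_, h3, h4⟩
    intro v
    rcases h2 with h2 | h2
    · have := h2 v; omega
    · have := h2.2 v; omega

end Pool.Agent.S08353
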