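import Pool.Statements.S08374
import Pool.Agent.Lib.helper28.Mono

set_option autoImplicit false
open Pool Pool.MP_41ddaf_co

namespace Pool.Agent.S08374

open scoped BigOperators
open Pool.Agent.H28Mono

abbrev E3 := EuclideanSpace ℝ (Fin 3)

def detr (u v a : E3) : ℝ :=
  u 0 * v 1 * a 2 - u 0 * v 2 * a 1 - u 1 * v 0 * a 2 + u 1 * v 2 * a 0 + u 2 * v 0 * a 1
    - u 2 * v 1 * a 0

lemma lin_eq (l : E3 →L[ℝ] ℝ) (x : E3) : l x = x 0 * l (EuclideanSpace.single 0 1) +
    x 1 * l (EuclideanSpace.single 1 1) + x 2 * l (EuclideanSpace.single 2 1) := by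
  have : x = x 0 • EuclideanSpace.single 0 (1 : ℝ) + x 1 • EuclideanSpace.single 1 (1 : ℝ) +
      x 2 • EuclideanSpace.single 2 (1 : ℝ) := by
    ext i
    fin_cases i <;> simp
  conv_lhs => rw [this]
  simp only [map_add, map_smul, smul_eq_mul]

lemma l_zero (l : E3 →L[ℝ] ℝ) (u v a : E3) (hd : detr u v a ≠ 0) (hu : l u = 0) (hv : l v = 0)
    (ha : l a = 0) (x : E3) : l x = 0 := by
  rw [lin_eq] at hu hv ha
  have h0 : l (EuclideanSpace.single 0 1) * detr u v a = 0 := by
    simp only [detr]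
    linear_combination (v 1 * a 2 - v 2 * a 1) * hu - (u 1 * a 2 - u 2 * a 1) * hv +
      (u 1 * v 2 - u 2 * v 1) * ha
  have h1 : l (EuclideanSpace.single 1 1) * detr u v a = 0 := by
    simp only [detr]
    linear_combination -(v 0 * a 2 - v 2 * a 0) * hu + (u 0 * a 2 - u 2 * a 0) * hv -
      (u 0 * v 2 - u 2 * v 0) * ha
  have h2 : l (EuclideanSpace.single 2 1) * detr u v a = 0 := by
    simp only [detr]
    linear_combination (v 0 * a 1 - v 1 * a 0) * hu - (u 0 * a 1 - u 1 * a 0) * hv +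
      (u 0 * v 1 - u 1 * v 0) * ha
  rw [lin_eq, (mul_eq_zero.mp h0).resolve_right hd, (mul_eq_zero.mp h1).resolve_right hd,
    (mul_eq_zero.mp h2).resolve_right hd]
  ring

lemma cramer (l : E3 →L[ℝ] ℝ) (u v a b : E3) (hu : l u = 0) (hv : l v = 0) :
    l a * detr u v b = l b * detr u v a := by
  rw [lin_eq] at hu hv
  rw [lin_eq l a, lin_eq l b]
  simp only [detr]
  linear_combination (-(v 0 * a 1 * b 2 - v 0 * a 2 * b 1 - v 1 * a 0 * b 2 +
    v 1 * a 2 * b 0 + v 2 * a 0 * b 1 - v 2 * a 1 * b 0)) * hu +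
    (u 0 * a 1 * b 2 - u 0 * a 2 * b 1 - u 1 * a 0 * b 2 + u 1 * a 2 * b 0 + u 2 * a 0 * b 1
      - u 2 * a 1 * b 0) * hv

lemma weights (p : Fin 9 → E3) {x : E3} (hx : x ∈ convexHull ℝ (Set.range p)) :
    ∃ w : Fin 9 → ℝ, (∀ i, 0 ≤ w i) ∧ ∑ i, w i = 1 ∧ ∑ i, w i • p i = x := by
  rw [convexHull_range_eq_exists_affineCombination] at hx
  obtain ⟨s, w, hw0, hw1, rfl⟩ := hx
  classical
  refine ⟨fun i => if i ∈ s then w i else 0, ?_, ?_, ?_⟩
  · intro i
    by_cases h : i ∈ s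
    · simp [h, hw0 i h]
    · simp [h]
  · rw [Finset.sum_ite_mem, Finset.univ_inter, hw1]
  · rw [Finset.affineCombination_eq_linear_combination s p w hw1]
    simp only [ite_smul, zero_smul]
    rw [Finset.sum_ite_mem, Finset.univ_inter]

lemma face (p : Fin 9 → E3) (l : E3 →L[ℝ] ℝ) :
    {x | x ∈ convexHull ℝ (Set.range p) ∧ ∀ y ∈ convexHull ℝ (Set.range p), l y ≤ l x}
      = convexHull ℝ (p '' {i | ∀ j, l (p j) ≤ l (p i)}) := by
  classical
  apply Set.Subset.antisymm
  · rintro x ⟨hx, hmax⟩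
    obtain ⟨w, hw0, hw1, hwx⟩ := weights p hx
    have h1 : ∀ j, l (p j) ≤ l x := fun j => hmax _ (subset_convexHull ℝ _ ⟨j, rfl⟩)
    have h2 : ∑ i, w i * (l x - l (p i)) = 0 := by
      have : l x = ∑ i, w i * l (p i) := by
        rw [← hwx, map_sum]
        simp only [map_smul, smul_eq_mul]
      simp only [mul_sub, Finset.sum_sub_distrib, ← Finset.sum_mul, hw1, ← this]
      ring
    have h3 := (Finset.sum_eq_zero_iff_of_nonneg
      (fun i _ => mul_nonneg (hw0 i) (sub_nonneg.mpr (h1 i)))).mp h2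
    have e1 : ∑ i ∈ Finset.univ.filter (fun i => w i ≠ 0), w i • p i = x := by
      rw [← hwx]
      exact Finset.sum_filter_of_ne fun i _ h h0 => h (by rw [h0, zero_smul])
    have e2 : ∑ i ∈ Finset.univ.filter (fun i => w i ≠ 0), w i = 1 := by
      rw [← hw1]
      exact Finset.sum_filter_of_ne fun i _ h => h
    rw [← e1]
    refine (convex_convexHull ℝ _).sum_mem (fun i _ => hw0 i) e2 (fun i hi => ?_)
    refine subset_convexHull ℝ _ ⟨i, fun j => ?_, rfl⟩
    have h4 := (mul_eq_zero.mp (h3 i (Finset.mem_univ i))).resolve_left (Finset.mem_filter.mp hi).2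
    linarith [h1 j]
  · apply convexHull_min
    · rintro _ ⟨i, hi, rfl⟩
      refine ⟨subset_convexHull ℝ _ ⟨i, rfl⟩, fun y hy => ?_⟩
      refine convexHull_min ?_ (convex_halfSpace_le l.toLinearMap.isLinear (l (p i))) hy
      rintro _ ⟨j, rfl⟩
      exact hi j
    · rintro x ⟨hx, hx2⟩ z ⟨hz, hz2⟩ a b ha hb hab
      refine ⟨convex_convexHull ℝ _ hx hz ha hb hab, fun y hy => ?_⟩
      rw [map_add, map_smul, map_smul, smul_eq_mul, smul_eq_mul]
      have h1 := mul_le_mul_of_nonneg_left (hx2 y hy) ha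
      have h2 := mul_le_mul_of_nonneg_left (hz2 y hy) hb
      have h3 : l y = a * l y + b * l y := by rw [← add_mul, hab, one_mul]
      linarith

lemma iso_hull (φ : E3 ≃ᵢ E3) (s : Set E3) : φ '' convexHull ℝ s = convexHull ℝ (φ '' s) :=
  AffineMap.image_convexHull φ.toRealAffineIsometryEquiv.toAffineEquiv.toAffineMap s

lemma congr_tri (a b c a' b' c' : E3) (h1 : ‖b - a‖ = ‖b' - a'‖) (h2 : ‖c - a‖ = ‖c' - a'‖)
    (h3 : ‖b - c‖ = ‖b' - c'‖) :
    ∃ φ : E3 ≃ᵢ E3, φ '' convexHull ℝ {a, b, c} = convexHull ℝ {a', b', c'} := by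
  let R1 : E3 ≃ₗᵢ[ℝ] E3 := Submodule.reflection (ℝ ∙ ((b - a) - (b' - a')))ᗮ
  have r1 : R1 (b - a) = b' - a' := Submodule.reflection_sub h1
  let R2 : E3 ≃ₗᵢ[ℝ] E3 := Submodule.reflection (ℝ ∙ (R1 (c - a) - (c' - a')))ᗮ
  have n1 : ‖R1 (c - a)‖ = ‖c' - a'‖ := by rw [R1.norm_map, h2]
  have r2 : R2 (R1 (c - a)) = c' - a' := Submodule.reflection_sub n1
  have n2 : ‖(b' - a') - R1 (c - a)‖ = ‖(b' - a') - (c' - a')‖ := by
    rw [← r1, ← map_sub, R1.norm_map, r1]
    simp only [sub_sub_sub_cancel_right, h3]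
  have r3 : R2 (b' - a') = b' - a' := by
    apply Submodule.reflection_mem_subspace_eq_self
    rw [Submodule.mem_orthogonal_singleton_iff_inner_left, inner_sub_right]
    have e1 := norm_sub_sq_real (b' - a') (R1 (c - a))
    have e2 := norm_sub_sq_real (b' - a') (c' - a')
    rw [n2, n1] at e1
    linarith
  refine ⟨(IsometryEquiv.subRight a).trans ((R1.trans R2).toIsometryEquiv.trans
    (IsometryEquiv.addRight a')), ?_⟩
  rw [iso_hull]
  congr 1
  simp only [Set.image_insert_eq, Set.image_singleton]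
  have f1 : ∀ x, ((IsometryEquiv.subRight a).trans ((R1.trans R2).toIsometryEquiv.trans
    (IsometryEquiv.addRight a'))) x = R2 (R1 (x - a)) + a' := fun x => rfl
  rw [f1, f1, f1, r1, r3, r2]
  simp

lemma prod3 {x y z x0 y0 z0 : ℝ} (hx : |x - x0| ≤ 20) (hy : |y - y0| ≤ 20) (hz : |z - z0| ≤ 20)
    (h1 : |x0| ≤ 13600000) (h2 : |y0| ≤ 13600000) (h3 : |z0| ≤ 13600000) :
    |x * y * z - x0 * y0 * z0| ≤ 12000000000000000 := by
  have a1 : |y| ≤ 13600020 := by
    have := abs_add_le (y - y0) y0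
    rw [sub_add_cancel] at this
    linarith
  have a2 : |z| ≤ 13600020 := by
    have := abs_add_le (z - z0) z0
    rw [sub_add_cancel] at this
    linarith
  have e : x * y * z - x0 * y0 * z0 = (x - x0) * y * z + x0 * (y - y0) * z + x0 * y0 * (z - z0) := by
    ring
  have b : ∀ {u v w A B C : ℝ}, |u| ≤ A → |v| ≤ B → |w| ≤ C → |u * v * w| ≤ A * B * C := by
    intro u v w A B C hu hv hw
    rw [abs_mul, abs_mul]
    exact mul_le_mul (mul_le_mul hu hv (abs_nonneg _) ((abs_nonneg _).trans hu)) hw (abs_nonneg _)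
      (mul_nonneg ((abs_nonneg _).trans hu) ((abs_nonneg _).trans hv))
  have b1 := b hx a1 a2
  have b2 := b h1 hy a2
  have b3 := b h1 h2 hz
  rw [e]
  refine (abs_add_three _ _ _).trans ?_
  linarith

section pts
variable (p : Fin 9 → E3)
  (hp : ∀ i j c, |(p i c - p j c) - ((P0 i c : ℝ) - P0 j c)| ≤ 20)
include hp

lemma det_close (i j k m : Fin 9) :
    |detr (p j - p i) (p k - p i) (p m - p i) - (det0 i j k m : ℝ)| ≤ 72000000000000000 := by
  have hD' : ∀ a b c, |(P0 a c : ℝ) - P0 b c| ≤ 13600000 := fun a b c => by exact_mod_cast hD a b c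
  have t : ∀ c1 c2 c3 : Fin 3, |(p j c1 - p i c1) * (p k c2 - p i c2) * (p m c3 - p i c3) -
      ((P0 j c1 : ℝ) - P0 i c1) * ((P0 k c2 : ℝ) - P0 i c2) * ((P0 m c3 : ℝ) - P0 i c3)|
      ≤ 12000000000000000 := fun c1 c2 c3 =>
    prod3 (hp j i c1) (hp k i c2) (hp m i c3) (hD' _ _ _) (hD' _ _ _) (hD' _ _ _)
  have t1 := abs_le.mp (t 0 1 2)
  have t2 := abs_le.mp (t 0 2 1)
  have t3 := abs_le.mp (t 1 0 2)
  have t4 := abs_le.mp (t 1 2 0)
  have t5 := abs_le.mp (t 2 0 1)
  have t6 := abs_le.mp (t 2 1 0)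
  simp only [detr, det0, PiLp.sub_apply]
  push_cast
  rw [abs_le]
  constructor <;> linarith [t1.1, t1.2, t2.1, t2.2, t3.1, t3.2, t4.1, t4.2, t5.1, t5.2, t6.1, t6.2]

lemma det_ne {i j k m : Fin 9} (h : 100000000000000000 < |det0 i j k m|) :
    detr (p j - p i) (p k - p i) (p m - p i) ≠ 0 := by
  intro h0
  have h1 := det_close p hp i j k m
  rw [h0, zero_sub, abs_neg] at h1
  have h2 : (100000000000000000 : ℝ) < |(det0 i j k m : ℝ)| := by exact_mod_cast h
  linarith

lemma vspan : vectorSpan ℝ (Set.range p) = ⊤ := by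
  by_contra hne
  obtain ⟨φ, hφ0, hφ⟩ := Submodule.exists_le_ker_of_lt_top _ (lt_top_iff_ne_top.mpr hne)
  apply hφ0
  apply LinearMap.ext
  intro x
  have hv : ∀ a, LinearMap.toContinuousLinearMap φ (p a - p 0) = 0 := fun a =>
    hφ (vsub_mem_vectorSpan ℝ ⟨a, rfl⟩ ⟨0, rfl⟩)
  exact l_zero (LinearMap.toContinuousLinearMap φ) _ _ _ (det_ne p hp hdet) (hv 1) (hv 2) (hv 3) x

lemma aspan : affineSpan ℝ (Set.range p) = ⊤ :=
  (AffineSubspace.affineSpan_eq_top_iff_vectorSpan_eq_top_of_nonempty ℝ E3 E3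
    (Set.range_nonempty p)).mpr (vspan p hp)

lemma facet (l : E3 →L[ℝ] ℝ)
    (h2 : Module.finrank ℝ (vectorSpan ℝ (convexHull ℝ (p '' {i | ∀ j, l (p j) ≤ l (p i)}))) = 2) :
    ∃ i j k : Fin 9, tg i j = 90250000000000 ∧ tg i k = 79258100000000 ∧
      tg j k = 49048100000000 ∧ p '' {i | ∀ j, l (p j) ≤ l (p i)} = {p i, p j, p k} := by
  classical
  rw [← direction_affineSpan, affineSpan_convexHull, direction_affineSpan] at h2
  have hl : ¬ ∀ x, l x = 0 := by
    intro h0
    have : {i | ∀ j, l (p j) ≤ l (p i)} = Set.univ := by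
      ext i
      simp [h0]
    rw [this, Set.image_univ, vspan p hp] at h2
    simp at h2
  let T : Finset (Fin 9) := Finset.univ.filter (fun i => ∀ j, l (p j) ≤ l (p i))
  have hT : p '' {i | ∀ j, l (p j) ≤ l (p i)} = ((T.image p : Finset E3) : Set E3) := by
    simp [T]
  have hcard : 2 < T.card := by
    by_contra hc
    rw [hT] at h2
    rcases Nat.eq_zero_or_pos T.card with h | h
    · rw [Finset.card_eq_zero.mp h, Finset.image_empty, Finset.coe_empty, vectorSpan_empty,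
        finrank_bot] at h2
      omega
    · have := finrank_vectorSpan_image_finset_le ℝ p T (n := T.card - 1) (by omega)
      omega
  obtain ⟨i, j, k, hi, hj, hk, hij, hik, hjk⟩ := Finset.two_lt_card_iff.mp hcard
  have hi' := (Finset.mem_filter.mp hi).2
  have hj' := (Finset.mem_filter.mp hj).2
  have hk' := (Finset.mem_filter.mp hk).2
  have lj : l (p j - p i) = 0 := by
    rw [map_sub]
    linarith [hi' j, hj' i]
  have lk : l (p k - p i) = 0 := by
    rw [map_sub]
    linarith [hi' k, hk' i]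
  have lm : ∀ m, l (p m - p i) ≤ 0 := fun m => by
    rw [map_sub]
    linarith [hi' m]
  rcases htri i j k hij hik hjk with ⟨⟨m, hm⟩, ⟨m', hm'⟩⟩ | ⟨hm, i', j', k', t1, t2, t3, hs⟩
  · exfalso
    have d1 := abs_le.mp (det_close p hp i j k m)
    have d2 := abs_le.mp (det_close p hp i j k m')
    have e1 : (100000000000000000 : ℝ) < det0 i j k m := by exact_mod_cast hm
    have e2 : (det0 i j k m' : ℝ) < -100000000000000000 := by exact_mod_cast hm'
    have f1 : 0 < detr (p j - p i) (p k - p i) (p m - p i) := by linarith [d1.1]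
    have f2 : detr (p j - p i) (p k - p i) (p m' - p i) < 0 := by linarith [d2.2]
    have c := cramer l _ _ (p m - p i) (p m' - p i) lj lk
    have g1 := mul_nonneg_of_nonpos_of_nonpos (lm m) f2.le
    have g2 := mul_nonpos_of_nonpos_of_nonneg (lm m') f1.le
    have g3 : l (p m - p i) * detr (p j - p i) (p k - p i) (p m' - p i) = 0 := by linarith
    exact hl (l_zero l _ _ _ f1.ne' lj lk ((mul_eq_zero.mp g3).resolve_right f2.ne))
  · refine ⟨i', j', k', t1, t2, t3, ?_⟩
    have hset : {i | ∀ j, l (p j) ≤ l (p i)} = {i', j', k'} := by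
      ext m
      simp only [Set.mem_insert_iff, Set.mem_singleton_iff]
      rw [← hs m]
      constructor
      · intro h
        by_contra hno
        push Not at hno
        have lm0 : l (p m - p i) = 0 := by
          rw [map_sub]
          linarith [hi' m, h i]
        exact hl (l_zero l _ _ _ (det_ne p hp (hm m hno.1 hno.2.1 hno.2.2)) lj lk lm0)
      · rintro (rfl | rfl | rfl)
        · exact hi'
        · exact hj'
        · exact hk'
    rw [hset]
    simp only [Set.image_insert_eq, Set.image_singleton]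

lemma exposed (i : Fin 9) : ∃ l : E3 →L[ℝ] ℝ, ∀ j, j ≠ i → l (p j) < l (p i) := by
  refine ⟨innerSL ℝ (WithLp.toLp 2 (fun c => (nv i c : ℝ)) : E3), fun j hj => ?_⟩
  have h1 : (100000 : ℝ) < ∑ c : Fin 3, (nv i c : ℝ) * ((P0 i c : ℝ) - P0 j c) := by
    exact_mod_cast hnv i j hj.symm
  have h2 : ∀ c, |(nv i c : ℝ) * ((p i c - p j c) - ((P0 i c : ℝ) - P0 j c))| ≤ 100 * 20 := by
    intro c
    rw [abs_mul]
    exact mul_le_mul (by exact_mod_cast hnv2 i c) (hp i j c) (abs_nonneg _) (by norm_num)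
  have a0 := abs_le.mp (h2 0)
  have a1 := abs_le.mp (h2 1)
  have a2 := abs_le.mp (h2 2)
  simp only [innerSL_apply_apply, PiLp.inner_apply, Fin.sum_univ_three, RCLike.inner_apply,
    conj_trivial] at h1 ⊢
  linarith [a0.1, a1.1, a2.1]

lemma sq_close (i j : Fin 9) : |dist (p i) (p j) ^ 2 - (sq0 i j : ℝ)| ≤ 1650000000 := by
  have hD' : ∀ c, |(P0 i c : ℝ) - P0 j c| ≤ 13600000 := fun c => by exact_mod_cast hD i j c
  have t : ∀ c, |(p i c - p j c) ^ 2 - ((P0 i c : ℝ) - P0 j c) ^ 2| ≤ 550000000 := by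
    intro c
    rw [sq_sub_sq, abs_mul]
    have a1 : |p i c - p j c + ((P0 i c : ℝ) - P0 j c)| ≤ 27200020 := by
      have e : p i c - p j c + ((P0 i c : ℝ) - P0 j c) = (p i c - p j c - ((P0 i c : ℝ) - P0 j c))
          + ((P0 i c : ℝ) - P0 j c) + ((P0 i c : ℝ) - P0 j c) := by ring
      rw [e]
      refine (abs_add_three _ _ _).trans ?_
      linarith [hp i j c, hD' c]
    have := mul_le_mul a1 (hp i j c) (abs_nonneg _) (by norm_num)
    linarith
  have t0 := abs_le.mp (t 0)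
  have t1 := abs_le.mp (t 1)
  have t2 := abs_le.mp (t 2)
  rw [EuclideanSpace.dist_eq, Real.sq_sqrt (by positivity)]
  simp only [sq0, Fin.sum_univ_three, Real.dist_eq, sq_abs]
  push_cast
  rw [abs_le]
  constructor <;> linarith [t0.1, t0.2, t1.1, t1.2, t2.1, t2.2]

lemma rigid (φ : E3 ≃ᵢ E3)
    (hφ : φ '' convexHull ℝ (Set.range p) = convexHull ℝ (Set.range p)) :
    φ = IsometryEquiv.refl E3 := by
  classical
  have hinj : Function.Injective p := by
    intro i j h
    by_contra hne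
    obtain ⟨l, hl⟩ := exposed p hp j
    have := hl i hne
    rw [h] at this
    exact lt_irrefl _ this
  have step : ∀ i, ∃ j, φ (p i) = p j := by
    intro i
    obtain ⟨l, hl⟩ := exposed p hp i
    have hmem : ∀ j, φ.symm (p j) ∈ convexHull ℝ (Set.range p) := by
      intro j
      obtain ⟨x, hx, hxj⟩ : p j ∈ φ '' convexHull ℝ (Set.range p) :=
        hφ.symm ▸ subset_convexHull ℝ _ ⟨j, rfl⟩
      rw [← hxj, φ.symm_apply_apply]
      exact hx
    have hset : {a | ∀ j, l (p j) ≤ l (p a)} = {i} := by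
      ext a
      constructor
      · intro h
        by_contra hne
        exact absurd (h i) (not_le.mpr (hl a hne))
      · rintro rfl j
        by_cases h : j = a
        · rw [h]
        · exact (hl j h).le
    have hf := face p l
    rw [hset, Set.image_singleton, convexHull_singleton] at hf
    have hi : p i ∈ {x | x ∈ convexHull ℝ (Set.range p) ∧
        ∀ y ∈ convexHull ℝ (Set.range p), l y ≤ l x} := hf.symm ▸ rfl
    by_contra hno
    push Not at hno
    have h1 : φ (p i) ∈ convexHull ℝ (Set.range p) := hφ ▸ ⟨_, hi.1, rfl⟩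
    have h2 : p i ∈ φ.symm '' convexHull ℝ (Set.range p) := ⟨_, h1, φ.symm_apply_apply _⟩
    rw [iso_hull] at h2
    have h3 : l (p i) < l (p i) := by
      refine convexHull_min ?_ (convex_halfSpace_lt l.toLinearMap.isLinear (l (p i))) h2
      rintro _ ⟨_, ⟨j, rfl⟩, rfl⟩
      by_contra hge
      have hge' : l (p i) ≤ l (φ.symm (p j)) := not_lt.mp hge
      have h4 : φ.symm (p j) ∈ ({p i} : Set E3) :=
        hf ▸ ⟨hmem j, fun y hy => (hi.2 y hy).trans hge'⟩
      apply hno j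
      rw [← Set.mem_singleton_iff.mp h4, φ.apply_symm_apply]
    exact lt_irrefl _ h3
  choose π hπ using step
  have hπinj : Function.Injective π := fun a b h =>
    hinj (φ.injective (by rw [hπ a, hπ b, h]))
  have hid : ∀ i, π i = i := by
    intro i
    by_contra hne
    have h1 : (30000000000 : ℝ) < |∑ m, (sq0 (π i) m : ℝ) - ∑ m, (sq0 i m : ℝ)| := by
      exact_mod_cast hsep (π i) i hne
    have h2 : ∑ m, dist (p (π i)) (p m) ^ 2 = ∑ m, dist (p i) (p m) ^ 2 := by
      rw [← Equiv.sum_comp (Equiv.ofBijective π (Finite.injective_iff_bijective.mp hπinj))]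
      refine Finset.sum_congr rfl fun m _ => ?_
      rw [Equiv.ofBijective_apply, ← hπ, ← hπ, φ.dist_eq]
    have h3 : ∀ a, |∑ m, dist (p a) (p m) ^ 2 - ∑ m, (sq0 a m : ℝ)| ≤ 9 * 1650000000 := by
      intro a
      rw [← Finset.sum_sub_distrib]
      refine (Finset.abs_sum_le_sum_abs _ _).trans ?_
      refine (Finset.sum_le_sum fun m _ => sq_close p hp a m).trans ?_
      simp
    have h4 := abs_le.mp (h3 (π i))
    have h5 := abs_le.mp (h3 i)
    rcases lt_abs.mp h1 with h | h <;> linarith [h4.1, h4.2, h5.1, h5.2]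
  have hext : φ.toRealAffineIsometryEquiv.toAffineEquiv.toAffineMap = AffineMap.id ℝ E3 := by
    apply AffineMap.ext_on (aspan p hp)
    rintro _ ⟨i, rfl⟩
    change φ (p i) = p i
    rw [hπ, hid]
  ext1 x
  exact DFunLike.congr_fun hext x

end pts

/-- A convex polytope with 9 vertices, 14 congruent scalene facets and no symmetry. -/
theorem result :
    ¬ (∀ S : Finset (EuclideanSpace ℝ (Fin 3)),
      (interior (convexHull ℝ (S : Set (EuclideanSpace ℝ (Fin 3))))).Nonempty →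
      (∀ F G : Set (EuclideanSpace ℝ (Fin 3)),
        (∃ l : EuclideanSpace ℝ (Fin 3) →L[ℝ] ℝ,
          F = {x | x ∈ convexHull ℝ (S : Set (EuclideanSpace ℝ (Fin 3))) ∧
            ∀ y ∈ convexHull ℝ (S : Set (EuclideanSpace ℝ (Fin 3))), l y ≤ l x}) →
        Module.finrank ℝ (vectorSpan ℝ F) = 2 →
        (∃ l : EuclideanSpace ℝ (Fin 3) →L[ℝ] ℝ,
          G = {x | x ∈ convexHull ℝ (S : Set (EuclideanSpace ℝ (Fin 3))) ∧
            ∀ y ∈ convexHull ℝ (S : Set (EuclideanSpace ℝ (Fin 3))), l y ≤ l x}) →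
        Module.finrank ℝ (vectorSpan ℝ G) = 2 →
        ∃ φ : EuclideanSpace ℝ (Fin 3) ≃ᵢ EuclideanSpace ℝ (Fin 3), φ '' F = G) →
      ∃ φ : EuclideanSpace ℝ (Fin 3) ≃ᵢ EuclideanSpace ℝ (Fin 3),
        φ '' convexHull ℝ (S : Set (EuclideanSpace ℝ (Fin 3))) =
          convexHull ℝ (S : Set (EuclideanSpace ℝ (Fin 3))) ∧
        φ ≠ IsometryEquiv.refl (EuclideanSpace ℝ (Fin 3))) := by
  intro h
  classical
  obtain ⟨q, hq1, hq2⟩ := exists_points
  let p : Fin 9 → E3 := fun i => WithLp.toLp 2 (q i)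
  have hp : ∀ i j c, |(p i c - p j c) - ((P0 i c : ℝ) - P0 j c)| ≤ 20 := hq1
  have hn : ∀ i j, tg i j ≠ 0 → ‖p j - p i‖ = Real.sqrt (tg i j) := by
    intro i j hij
    rw [norm_sub_rev, EuclideanSpace.norm_eq, ← hq2 i j hij]
    congr 1
    refine Finset.sum_congr rfl fun c _ => ?_
    rw [Real.norm_eq_abs, sq_abs]
    rfl
  have hS : ((Finset.univ.image p : Finset E3) : Set E3) = Set.range p := by simp
  have h1 := h (Finset.univ.image p)
  rw [hS] at h1
  obtain ⟨φ, hφ, hne⟩ := h1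
    (interior_convexHull_nonempty_iff_affineSpan_eq_top.mpr (aspan p hp)) (by
      rintro F G ⟨l, rfl⟩ hF ⟨l', rfl⟩ hG
      rw [face] at hF hG ⊢
      rw [face]
      obtain ⟨i, j, k, a1, a2, a3, a4⟩ := facet p hp l hF
      obtain ⟨i', j', k', b1, b2, b3, b4⟩ := facet p hp l' hG
      rw [a4, b4]
      apply congr_tri
      · rw [hn i j (by rw [a1]; norm_num), hn i' j' (by rw [b1]; norm_num), a1, b1]
      · rw [hn i k (by rw [a2]; norm_num), hn i' k' (by rw [b2]; norm_num), a2, b2]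
      · rw [norm_sub_rev, norm_sub_rev (p j'), hn j k (by rw [a3]; norm_num),
          hn j' k' (by rw [b3]; norm_num), a3, b3])
  exact hne (rigid p hp φ hφ)

end Pool.Agent.S08374
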