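import Pool.Statements.S08412
-- import your own Pool.Agent.* helpers here

set_option autoImplicit false
open MeasureTheory
open Pool Pool.MP_436c60_co

namespace Pool.Agent.S08412

def w : Fin 3 → Fin 12 → ℕ :=
  ![![10071, 10099, 10047, 10003, 10008, 10088, 10012, 10112, 10044, 10000, 10084, 10092],
    ![10071, 10099, 10048, 10004, 10007, 10088, 10012, 10112, 10043, 10000, 10084, 10092],
    ![10071, 10100, 10047, 10004, 10008, 10088, 10011, 10112, 10044, 10000, 10084, 10091]]

def part : Fin 3 → Fin 3 → Fin 4 → Fin 12 :=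
  ![![![0, 1, 2, 3], ![4, 5, 6, 7], ![8, 9, 10, 11]],
    ![![0, 1, 4, 8], ![2, 5, 9, 10], ![3, 6, 7, 11]],
    ![![0, 2, 6, 11], ![1, 4, 7, 9], ![3, 5, 8, 10]]]

def chk : List (ℕ × ℕ × ℕ) → ℕ → ℕ → ℕ → ℕ → Bool
  | [], _, r0, r1, r2 => Nat.blt 0 (r0 + r1 + r2)
  | x :: xs, n, r0, r1, r2 => Nat.blt n (r0 + r1 + r2) ||
      (chk xs (n - 10112) (r0 - x.1) r1 r2 && chk xs (n - 10112) r0 (r1 - x.2.1) r2 &&
        chk xs (n - 10112) r0 r1 (r2 - x.2.2))

lemma bnd (g : Fin 12 → Fin 3) (L : List (Fin 12)) :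
    (L.map fun j => if g j = 0 then w 0 j else 0).sum + (L.map fun j => if g j = 1 then w 1 j else 0).sum +
      (L.map fun j => if g j = 2 then w 2 j else 0).sum ≤ 10112 * L.length := by
  induction L with
  | nil => simp
  | cons j L ih =>
    have h : ∀ i j, w i j ≤ 10112 := by decide
    have h0 := h 0 j
    have h1 := h 1 j
    have h2 := h 2 j
    simp only [List.map_cons, List.sum_cons, List.length_cons]
    split_ifs <;> omega

lemma sound (g : Fin 12 → Fin 3) (L : List (Fin 12)) : ∀ r0 r1 r2,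
    chk (L.map fun j => (w 0 j, w 1 j, w 2 j)) (10112 * L.length) r0 r1 r2 = true →
    ¬ (r0 ≤ (L.map fun j => if g j = 0 then w 0 j else 0).sum ∧
      r1 ≤ (L.map fun j => if g j = 1 then w 1 j else 0).sum ∧
      r2 ≤ (L.map fun j => if g j = 2 then w 2 j else 0).sum) := by
  induction L with
  | nil => intro r0 r1 r2 h; simp [chk, Nat.blt_eq] at h ⊢; omega
  | cons j L ih =>
    intro r0 r1 r2 h
    have b := bnd g (j :: L)
    simp only [List.map_cons, chk, Bool.or_eq_true, Bool.and_eq_true, Nat.blt_eq,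
      List.length_cons, Nat.mul_succ, Nat.add_sub_cancel] at h
    rcases h with h | ⟨⟨h0, h1⟩, h2⟩
    · simp only [List.length_cons] at b; omega
    · have a0 := ih _ _ _ h0
      have a1 := ih _ _ _ h1
      have a2 := ih _ _ _ h2
      simp only [List.map_cons, List.sum_cons]
      split_ifs <;> omega

lemma fin_chk (g : Fin 12 → Fin 3) : ¬ ∀ i, 40220 ≤ ∑ j, if g j = i then w i j else 0 := by
  intro h
  have h0 := h 0
  have h1 := h 1
  have h2 := h 2
  rw [Fin.sum_univ_def] at h0 h1 h2
  refine sound g (List.finRange 12) _ _ _ ?_ ⟨h0, h1, h2⟩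
  have : (List.finRange 12).map (fun j => (w 0 j, w 1 j, w 2 j)) =
      [(10071, 10071, 10071), (10099, 10099, 10100), (10047, 10048, 10047), (10003, 10004, 10004),
       (10008, 10007, 10008), (10088, 10088, 10088), (10012, 10012, 10011), (10112, 10112, 10112),
       (10044, 10043, 10044), (10000, 10000, 10000), (10084, 10084, 10084), (10092, 10092, 10091)] := by
    decide
  rw [this, List.length_finRange]
  decide +kernel

def isl (j : ℕ) : Set ℝ := Set.Icc (2 * (j : ℝ)) (2 * (j : ℝ) + 1)

lemma isl_vol (j : ℕ) : volume (isl j) = 1 := by simp [isl]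

lemma isl_disj {j j' : ℕ} (h : j ≠ j') : Disjoint (isl j) (isl j') := by
  rw [Set.disjoint_left]
  rintro x ⟨h1, h2⟩ ⟨h3, h4⟩
  have a : (2 * j : ℝ) ≤ 2 * j' + 1 := by linarith
  have b : (2 * j' : ℝ) ≤ 2 * j + 1 := by linarith
  have a' : 2 * j ≤ 2 * j' + 1 := by exact_mod_cast a
  have b' : 2 * j' ≤ 2 * j + 1 := by exact_mod_cast b
  omega

noncomputable def mu (i : Fin 3) : Measure ℝ :=
  ∑ j : Fin 12, (w i j : ENNReal) • volume.restrict (isl j)

lemma mu_apply (i : Fin 3) (X : Set ℝ) (hX : MeasurableSet X) :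
    mu i X = ∑ j : Fin 12, (w i j : ENNReal) * volume (X ∩ isl j) := by
  simp [mu, Measure.restrict_apply hX]


/-- The negation of the preceding statement: For m,n,k ≥ 2 and any n finite measures with densities on a cake of m separated islands, there is an allocation giving each agent at most k intervals, each within one island, worth at least that agent's k-interval maximin share. -/
theorem result :
    ¬ (∀ m n k : ℕ, 2 ≤ m → 2 ≤ n → 2 ≤ k →
    ∀ μ : Fin n → Measure ℝ, (∀ i, IsFiniteMeasure (μ i)) → (∀ i, μ i ≪ volume) →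
    ∃ a b : Fin n → Fin k → ℝ,
      (∀ i l, ∃ j : ℕ, j < m ∧
        Set.Ioo (a i l) (b i l) ⊆ Set.Icc (2 * (j : ℝ)) (2 * (j : ℝ) + 1)) ∧
      (∀ i i', i ≠ i' →
        Disjoint (⋃ l, Set.Ioo (a i l) (b i l)) (⋃ l, Set.Ioo (a i' l) (b i' l))) ∧
      ∀ i, ∀ c d : Fin n → Fin k → ℝ,
        (∀ p l, ∃ j : ℕ, j < m ∧
          Set.Ioo (c p l) (d p l) ⊆ Set.Icc (2 * (j : ℝ)) (2 * (j : ℝ) + 1)) →
        (∀ p p', p ≠ p' →
          Disjoint (⋃ l, Set.Ioo (c p l) (d p l)) (⋃ l, Set.Ioo (c p' l) (d p' l))) →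
        ∃ p, μ i (⋃ l, Set.Ioo (c p l) (d p l)) ≤ μ i (⋃ l, Set.Ioo (a i l) (b i l))) := by
  intro H
  obtain ⟨a, b, h1, h2, h3⟩ := H 12 3 4 (by norm_num) (by norm_num) (by norm_num) mu
    (fun i => ⟨by
      rw [mu_apply i _ MeasurableSet.univ]
      simp only [Set.univ_inter, isl_vol, mul_one]
      exact ENNReal.sum_lt_top.2 fun j _ => ENNReal.natCast_lt_top _⟩)
    (fun i => Measure.AbsolutelyContinuous.mk fun X hX h0 => by
      rw [mu_apply i _ hX]
      refine Finset.sum_eq_zero fun j _ => ?_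
      rw [measure_mono_null Set.inter_subset_left h0, mul_zero])
  choose J hJ hsub using h1
  have meas : ∀ c d : Fin 4 → ℝ, MeasurableSet (⋃ l, Set.Ioo (c l) (d l)) :=
    fun c d => MeasurableSet.iUnion fun l => measurableSet_Ioo
  have low : ∀ i, (40220 : ENNReal) ≤ mu i (⋃ l, Set.Ioo (a i l) (b i l)) := by
    intro i
    obtain ⟨p, hp⟩ := h3 i (fun p l => 2 * ((part i p l : ℕ) : ℝ))
      (fun p l => 2 * ((part i p l : ℕ) : ℝ) + 1)
      (fun p l => ⟨part i p l, (part i p l).2, Set.Ioo_subset_Icc_self⟩) (by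
        intro p p' hpp
        simp only [Set.disjoint_iUnion_left, Set.disjoint_iUnion_right]
        intro l l'
        have : ∀ i p p' l l', p ≠ p' → (part i p l).val ≠ (part i p' l').val := by decide
        exact (isl_disj (this i p p' _ _ hpp)).mono Set.Ioo_subset_Icc_self Set.Ioo_subset_Icc_self)
    refine le_trans ?_ hp
    rw [mu_apply i _ (meas _ _)]
    have : ∀ i p, 40220 ≤ ∑ j : Fin 12, if ∃ l, part i p l = j then w i j else 0 := by decide
    have t : (40220 : ENNReal) ≤ ((∑ j : Fin 12, if ∃ l, part i p l = j then w i j else 0 : ℕ) :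
        ENNReal) := by exact_mod_cast this i p
    refine t.trans ?_
    push_cast
    refine Finset.sum_le_sum fun j _ => ?_
    split_ifs with h
    · obtain ⟨l, rfl⟩ := h
      refine le_mul_of_one_le_right' (le_trans ?_ (measure_mono (Set.subset_inter
        (Set.subset_iUnion _ l) Set.Ioo_subset_Icc_self)))
      simp
    · exact zero_le
  let e : Fin 3 × Fin 4 → Fin 12 := fun q => ⟨J q.1 q.2, hJ _ _⟩
  have emp : ∀ i (j : Fin 12), (∀ l, e (i, l) ≠ j) →
      volume ((⋃ l, Set.Ioo (a i l) (b i l)) ∩ isl j) = 0 := by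
    intro i j h
    rw [Set.disjoint_iff_inter_eq_empty.1, measure_empty]
    rw [Set.disjoint_iUnion_left]
    exact fun l => (isl_disj (fun hh => h l (Fin.ext hh))).mono_left (hsub i l)
  have surj : Function.Surjective e := by
    intro j0
    by_contra hj
    push Not at hj
    have s1 : ∑ i : Fin 3, (40220 : ENNReal) ≤ ∑ i : Fin 3, ∑ j : Fin 12,
        10112 * volume ((⋃ l, Set.Ioo (a i l) (b i l)) ∩ isl j) := by
      refine Finset.sum_le_sum fun i _ => (low i).trans ?_
      rw [mu_apply i _ (meas _ _)]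
      refine Finset.sum_le_sum fun j _ => mul_le_mul_left ?_ _
      have h : ∀ i j, w i j ≤ 10112 := by decide
      exact_mod_cast h i j
    rw [Finset.sum_comm] at s1
    have s2 : ∀ j : Fin 12, ∑ i : Fin 3, 10112 * volume ((⋃ l, Set.Ioo (a i l) (b i l)) ∩ isl j) ≤
        ((if j = j0 then 0 else 10112 : ℕ) : ENNReal) := by
      intro j
      split_ifs with h
      · subst h
        simp [emp _ j (fun l => hj _)]
      · rw [← Finset.mul_sum, ← tsum_fintype (L := SummationFilter.unconditional _), ← measure_iUnion]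
        · refine le_trans (mul_le_mul_right (measure_mono (Set.iUnion_subset fun i =>
            Set.inter_subset_right)) _) ?_
          simp [isl_vol]
        · exact fun i i' hi => (h2 i i' hi).mono Set.inter_subset_left Set.inter_subset_left
        · exact fun i => (meas _ _).inter measurableSet_Icc
    have s3 := s1.trans (Finset.sum_le_sum fun j _ => s2 j)
    have s4 : ∀ j0 : Fin 12, ∑ j : Fin 12, (if j = j0 then 0 else 10112 : ℕ) = 111232 := by decide
    rw [← Nat.cast_sum, s4] at s3
    norm_num at s3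
  have inj : Function.Injective e :=
    ((Fintype.bijective_iff_surjective_and_card e).2 ⟨surj, by simp⟩).1
  choose g hg using surj
  refine fin_chk (fun j => (g j).1) fun i => ?_
  have t := low i
  rw [mu_apply i _ (meas _ _)] at t
  have : (40220 : ENNReal) ≤ ((∑ j : Fin 12, if (g j).1 = i then w i j else 0 : ℕ) : ENNReal) := by
    refine t.trans ?_
    push_cast
    refine Finset.sum_le_sum fun j _ => ?_
    split_ifs with h
    · exact mul_le_of_le_one_right' ((measure_mono Set.inter_subset_right).trans (isl_vol j).le)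
    · rw [emp i j (fun l hl => h ?_), mul_zero]
      rw [inj ((hg j).trans hl.symm)]
  exact_mod_cast this

end Pool.Agent.S08412
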