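import Pool.Statements.S08564
import Pool.Agent.Lib.helper13.Aper

set_option autoImplicit false
open Pool Pool.MP_495f0d_co

namespace Pool.Agent.S08564

open Classical in
noncomputable def aa (S : Set ℕ) (k : ℕ) : ℕ :=
  if k ≤ 40000 then (if k + 1 ∈ S then 0 else 1)
  else sInf {v | ∀ i, i ≤ k - 1 → aa S i + aa S (k - 1 - i) ≠ v}
termination_by k
decreasing_by all_goals omega

theorem aa_zero {S : Set ℕ} (h : H13Ap.Good False S) (k : ℕ) : aa S k = 0 ↔ k + 1 ∈ S := by
  induction k using Nat.strong_induction_on with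
  | _ k ih =>
    rw [aa]
    split_ifs with h1 h2
    · simp [h2]
    · simp [h2]
    have hne : {v | ∀ i, i ≤ k - 1 → aa S i + aa S (k - 1 - i) ≠ v}.Nonempty := by
      obtain ⟨v, hv⟩ := ((Set.finite_le_nat (k - 1)).image
        fun i => aa S i + aa S (k - 1 - i)).infinite_compl.nonempty
      exact ⟨v, fun i hi e => hv ⟨i, hi, e⟩⟩
    rw [Nat.sInf_eq_zero, or_iff_left hne.ne_empty]
    refine ⟨fun h0 => (h.2.2.1 _ (by omega)).resolve_right fun ⟨s, hs, t, ht, _, e⟩ => ?_,
      fun hk i hi e => ?_⟩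
    · have := h.1 s hs
      have := h.1 t ht
      refine h0 (s - 1) (by omega) ?_
      rw [(ih (s - 1) (by omega)).2 (by rwa [show s - 1 + 1 = s by omega]),
        (ih _ (by omega)).2 (by rwa [show k - 1 - (s - 1) + 1 = t by omega])]
    · refine h.2.1 _ ((ih i (by omega)).1 (by omega)) _ ((ih (k - 1 - i) (by omega)).1 (by omega))
        False.elim ?_
      rwa [show i + 1 + (k - 1 - i + 1) = k + 1 by omega]

/-- The negation of the preceding statement: Take any sequence of naturals that, from some index n on, satisfies a(m+1) = least natural not of the form a(i)+a(m−i) with 0≤i≤m. Then it is eventually periodic: for some p>0 and N, a(m+p)=a(m) for all m≥N. -/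
theorem result :
    ¬ (∀ (a : ℕ → ℕ) (n : ℕ),
      (∀ m : ℕ, n ≤ m →
        a (m + 1) = sInf {k : ℕ | ∀ i : ℕ, i ≤ m → a i + a (m - i) ≠ k}) →
      ∃ p : ℕ, 0 < p ∧ ∃ N : ℕ, ∀ m : ℕ, N ≤ m → a (m + p) = a m) := by
  intro H
  obtain ⟨S, hS⟩ := H13Ap.dickson
  obtain ⟨p, hp, N, hN⟩ := H (aa S) 40000 fun m hm => by
    rw [aa, if_neg (by omega)]; rfl
  obtain ⟨n, b1, b2, b3⟩ := hS.2.2.2 p (N + 1) hp
  have key : ∀ k, aa S (n - 1 + k * p) = aa S (n - 1) := fun k => by
    induction k with
    | zero => simp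
    | succ k ih => rw [add_mul, one_mul, ← add_assoc, hN _ (by omega), ih]
  have := (aa_zero hS _).1 ((key 301).trans
    ((aa_zero hS (n - 1)).2 (by rwa [show n - 1 + 1 = n by omega])))
  exact b3 (by rwa [show n - 1 + 301 * p + 1 = n + 301 * p by omega] at this)

end Pool.Agent.S08564
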