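import Pool.Statements.S08586
import Pool.Agent.Lib.helper33.SPBifan

set_option autoImplicit false
open Classical
open Pool Pool.MP_4a5947_co

namespace Pool.Agent.S08586

open Pool.Agent.Lib.SPBifan

/-- The negation of the preceding statement: For every nonempty finite N-free poset with 2-colourable covering graph and every edge sharing its series cut with another edge, and every weighting c, some k equals both the max over linear extensions of the weight of consecutive covering pairs and the minimum size of a multiset of series cuts/para -/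
theorem result :
    ¬ (∀ (α : Type) [Fintype α] [PartialOrder α], Nonempty α →
    (¬ ∃ a b c d : α, a < b ∧ c < b ∧ c < d ∧ ¬ a ≤ c ∧ ¬ c ≤ a ∧
        ¬ a ≤ d ∧ ¬ d ≤ a ∧ ¬ b ≤ d ∧ ¬ d ≤ b) →
    (∃ col : α → Bool, ∀ x y : α, x ⋖ y → col x ≠ col y) →
    (∀ x y : α, x ⋖ y → ∃ x' y' : α, x' ⋖ y' ∧ x' ⋖ y ∧ x ⋖ y' ∧ (x' ≠ x ∨ y' ≠ y)) →
    ∀ c : α → α → ℕ,
    ∃ k : ℕ,
      (∃ L : α ≃ Fin (Fintype.card α), (∀ x y : α, x < y → L x < L y) ∧
         (∑ p ∈ Finset.univ.filter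
            (fun p : α × α => p.1 ⋖ p.2 ∧ (L p.2 : ℕ) = (L p.1 : ℕ) + 1), c p.1 p.2) = k) ∧
      (∀ L : α ≃ Fin (Fintype.card α), (∀ x y : α, x < y → L x < L y) →
         (∑ p ∈ Finset.univ.filter
            (fun p : α × α => p.1 ⋖ p.2 ∧ (L p.2 : ℕ) = (L p.1 : ℕ) + 1), c p.1 p.2) ≤ k) ∧
      (∃ F : Fin k → Set (α × α),
         (∀ i : Fin k,
           (∃ x y : α, x ⋖ y ∧ F i = {p : α × α | p.1 ⋖ p.2 ∧ p.1 ⋖ y ∧ x ⋖ p.2}) ∨
           (∃ v u w z : α, u ⋖ v ∧ v ⋖ w ∧ z ≠ v ∧ (u ⋖ z ∨ z ⋖ u) ∧ (w ⋖ z ∨ z ⋖ w) ∧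
              F i = {p : α × α | p.1 ⋖ p.2 ∧ (p.1 = v ∨ p.2 = v)})) ∧
         (∀ x y : α, x ⋖ y →
            c x y ≤ (Finset.univ.filter (fun i : Fin k => (x, y) ∈ F i)).card)) ∧
      (∀ (m : ℕ) (F : Fin m → Set (α × α)),
         (∀ i : Fin m,
           (∃ x y : α, x ⋖ y ∧ F i = {p : α × α | p.1 ⋖ p.2 ∧ p.1 ⋖ y ∧ x ⋖ p.2}) ∨
           (∃ v u w z : α, u ⋖ v ∧ v ⋖ w ∧ z ≠ v ∧ (u ⋖ z ∨ z ⋖ u) ∧ (w ⋖ z ∨ z ⋖ w) ∧
              F i = {p : α × α | p.1 ⋖ p.2 ∧ (p.1 = v ∨ p.2 = v)})) →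
         (∀ x y : α, x ⋖ y →
            c x y ≤ (Finset.univ.filter (fun i : Fin m => (x, y) ∈ F i)).card) →
         k ≤ m)) := by
  intro h
  obtain ⟨k, ⟨L, hL, hk⟩, -, ⟨F, hF, hcov⟩, -⟩ := h P7 ⟨0⟩ nfree bip cut2 wt
  have hk1 : k ≤ 1 := by
    rw [← hk]
    have h02 : (L 0 : ℕ) < L 2 := hL 0 2 l02
    have h26 : (L 2 : ℕ) < L 6 := hL 2 6 l26
    have h12 : (L 1 : ℕ) ≠ L 2 := fun h => absurd (L.injective (Fin.ext h)) n12
    by_cases h01 : (L 1 : ℕ) = L 0 + 1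
    · refine le_trans (Finset.sum_le_sum (g := fun p => if p = ((0, 1) : P7 × P7) then 1 else 0)
        (fun p hp => ?_)) ?_
      · obtain ⟨-, -, hp⟩ := Finset.mem_filter.1 hp
        obtain ⟨x, y⟩ := p
        unfold wt
        split_ifs with h1 h2
        · exact le_rfl
        · rcases h1 with ⟨rfl, rfl⟩ | ⟨rfl, rfl⟩
          · exact absurd rfl h2
          · simp only at hp
            omega
        · exact Nat.zero_le _
        · exact le_rfl
      · rw [Finset.sum_ite_eq']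
        split_ifs <;> omega
    · refine le_trans (Finset.sum_le_sum (g := fun p => if p = ((1, 6) : P7 × P7) then 1 else 0)
        (fun p hp => ?_)) ?_
      · obtain ⟨-, -, hp⟩ := Finset.mem_filter.1 hp
        obtain ⟨x, y⟩ := p
        unfold wt
        split_ifs with h1 h2
        · exact le_rfl
        · rcases h1 with ⟨rfl, rfl⟩ | ⟨rfl, rfl⟩
          · exact absurd hp h01
          · exact absurd rfl h2
        · exact Nat.zero_le _
        · exact le_rfl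
      · rw [Finset.sum_ite_eq']
        split_ifs <;> omega
  have c1 := hcov 0 1 c01
  have c2 := hcov 1 6 c16
  rw [w1] at c1
  rw [w2] at c2
  obtain ⟨i, hi⟩ := Finset.card_pos.1 c1
  obtain ⟨j, hj⟩ := Finset.card_pos.1 c2
  have hij : i = j := Fin.ext (by omega)
  subst hij
  have hi' := (Finset.mem_filter.1 hi).2
  have hj' := (Finset.mem_filter.1 hj).2
  rcases hF i with ⟨x, y, hxy, hFi⟩ | ⟨v, u, w, z, h1, h2, h3, h4, h5, hFi⟩
  · rw [hFi] at hi' hj'
    exact nocut y hi'.2.1 hj'.2.1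
  · rw [hFi] at hi' hj'
    exact nofan v u w z h1 h2 h3 h4 h5 hi'.2 hj'.2

end Pool.Agent.S08586
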