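import Pool.Statements.S08639

set_option autoImplicit false
open Pool Pool.MP_4cf4e3_co

namespace Pool.Agent.S08639

open Filter

attribute [local instance] Ultrafilter.add

/-- A nonprincipal ultrafilter on the naturals that is idempotent for addition. -/
theorem exists_idem :
    ∃ U : Ultrafilter ℕ, (∀ p : ℕ → Prop, (∀ᶠ m in (U : Filter ℕ), p m) →
      ∀ᶠ m in (U : Filter ℕ), ∀ᶠ m' in (U : Filter ℕ), p (m + m')) ∧
      ∀ N : ℕ, ∀ᶠ m in (U : Filter ℕ), N < m := by
  obtain ⟨U, hU, hF⟩ := Hindman.exists_idempotent_ultrafilter_le_FS (Stream'.const (1 : ℕ))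
  have hpos : ∀ (a : Stream' ℕ) (m : ℕ), m ∈ Hindman.FS a → (∀ i, 0 < a.get i) → 0 < m := by
    intro a m hm
    induction hm with
    | head' a => intro h; exact h 0
    | tail' a m _ ih => intro h; exact ih (fun i => h (i + 1))
    | cons' a m _ ih => intro h; have := ih (fun i => h (i + 1)); omega
  have h1 : ∀ p : ℕ → Prop, (∀ᶠ m in (U : Filter ℕ), p m) →
      ∀ᶠ m in (U : Filter ℕ), ∀ᶠ m' in (U : Filter ℕ), p (m + m') := by
    intro p hp
    rw [← Ultrafilter.eventually_add, hU]
    exact hp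
  refine ⟨U, h1, ?_⟩
  have h0 : ∀ᶠ m in (U : Filter ℕ), 0 < m := by
    filter_upwards [hF] with m hm
    exact hpos _ m hm (fun i => by simp)
  rcases U.le_cofinite_or_eq_pure with h | ⟨a, ha⟩
  · intro N
    apply h
    rw [Nat.cofinite_eq_atTop]
    exact eventually_gt_atTop N
  · exfalso
    have h2 := h1 (fun m => m = a) (by rw [ha]; simp)
    rw [ha] at h2 h0
    simp at h2 h0
    omega

/-- For every colouring of the natural numbers with finitely many colours, there is a strictly increasing sequence a and one colour such that for all n<m, both a_n+a_m and a_m−a_n have that colour. -/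
theorem result :
    ∀ (k : ℕ) (c : ℕ → Fin k), ∃ a : ℕ → ℕ, StrictMono a ∧
      ∃ i : Fin k, ∀ n m : ℕ, n < m → c (a n + a m) = i ∧ c (a m - a n) = i := by
  intro k c
  obtain ⟨U, hU, hN⟩ := exists_idem
  have h1 : ∀ᶠ x in (U : Filter ℕ), ∃ i : Fin k, ∀ᶠ y in (U : Filter ℕ), c (2 * (y - x)) = i := by
    refine Eventually.of_forall fun x => ?_
    rw [← Ultrafilter.eventually_exists_iff]
    exact Eventually.of_forall fun y => ⟨_, rfl⟩
  obtain ⟨i, hi⟩ := Ultrafilter.eventually_exists_iff.1 h1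
  obtain ⟨x0, hx0⟩ := hi.exists
  have h2 := hU _ hx0
  let P : ℕ → Prop := fun x => x0 < x ∧ (∀ᶠ y in (U : Filter ℕ), c (2 * (y - x)) = i) ∧
    (∀ᶠ y in (U : Filter ℕ), c (2 * (x + y - x0)) = i)
  have hP : ∀ᶠ x in (U : Filter ℕ), P x := (hN x0).and (hi.and h2)
  let r : ℕ → ℕ → Prop := fun x y => x < y ∧ c (2 * (y - x)) = i ∧ c (2 * (x + y - x0)) = i
  obtain ⟨f, hf, hr⟩ := exists_seq_of_forall_finset_exists P r (by
    intro s hs
    have h3 : ∀ᶠ y in (U : Filter ℕ), ∀ x ∈ s, r x y := by
      rw [eventually_all_finset]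
      intro x hx
      exact (hN x).and ((hs x hx).2.1.and (hs x hx).2.2)
    exact (hP.and h3).exists)
  refine ⟨fun n => 2 * f n - x0, ?_, i, ?_⟩
  · intro n m hnm
    have h4 := (hr n m hnm).1
    have h5 := (hf n).1
    simp only
    omega
  · intro n m hnm
    obtain ⟨h4, h6, h7⟩ := hr n m hnm
    have h5 := (hf n).1
    constructor
    · rw [← h7]; congr 1; simp only; omega
    · rw [← h6]; congr 1; simp only; omega

end Pool.Agent.S08639
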