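import Pool.Statements.S08674

set_option autoImplicit false
open Classical
open Pool Pool.MP_4e0707_co

namespace Pool.Agent.S08674

open Filter Topology Finset

lemma exists_zero (f : ℂ → ℂ) (hf : Differentiable ℂ f) (c : ℂ) (δ : ℝ) (hδ : 0 < δ)
    (h : ∀ w ∈ Metric.sphere c δ, ‖f c‖ < ‖f w‖) : ∃ w ∈ Metric.closedBall c δ, f w = 0 := by
  by_contra hne
  push Not at hne
  have hc : f c ≠ 0 := hne c (Metric.mem_closedBall_self hδ.le)
  have hcomp : IsCompact (Metric.sphere c δ) := isCompact_sphere c δ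
  have hnonempty : (Metric.sphere c δ).Nonempty := NormedSpace.sphere_nonempty.mpr hδ.le
  obtain ⟨w0, hw0, hmin⟩ := hcomp.exists_isMinOn hnonempty (hf.continuous.norm.continuousOn)
  have hd : DiffContOnCl ℂ (fun w => (f w)⁻¹) (Metric.ball c δ) := by
    apply DifferentiableOn.diffContOnCl
    rw [closure_ball c hδ.ne']
    exact hf.differentiableOn.inv hne
  have hpos : 0 < ‖f c‖ := norm_pos_iff.mpr hc
  have h0 := h w0 hw0
  have key := Complex.norm_le_of_forall_mem_frontier_norm_le (Metric.isBounded_ball) hd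
    (C := ‖f w0‖⁻¹) (z := c) (by
      intro w hw
      rw [frontier_ball c hδ.ne'] at hw
      rw [norm_inv]
      exact inv_anti₀ (hpos.trans h0) (hmin hw)) (subset_closure (Metric.mem_ball_self hδ))
  rw [norm_inv] at key
  have := inv_strictAnti₀ hpos h0
  linarith

lemma open_cond {J : Type} (s : Finset J) (φ : J → ℂ → ℂ) (hφ : ∀ j, Continuous (φ j))
    (a : ℕ → J → ℂ) (b : J → ℂ) (hab : ∀ j ∈ s, Tendsto (fun N => a N j) atTop (𝓝 (b j)))
    (c : ℂ) (δ : ℝ)
    (h : ∀ w ∈ Metric.sphere c δ, ‖∑ j ∈ s, b j * φ j c‖ < ‖∑ j ∈ s, b j * φ j w‖) :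
    ∀ᶠ N in atTop, ∀ w ∈ Metric.sphere c δ,
      ‖∑ j ∈ s, a N j * φ j c‖ < ‖∑ j ∈ s, a N j * φ j w‖ := by
  have ht : Tendsto (fun N => fun j => if j ∈ s then a N j else b j) atTop (𝓝 b) := by
    rw [tendsto_pi_nhds]
    intro j
    by_cases hj : j ∈ s
    · simpa [hj] using hab j hj
    · simp [hj]
  have hev : ∀ᶠ x in 𝓝 b, ∀ w ∈ Metric.sphere c δ,
      ‖∑ j ∈ s, x j * φ j c‖ < ‖∑ j ∈ s, x j * φ j w‖ := by
    apply (isCompact_sphere c δ).eventually_forall_of_forall_eventually
      (P := fun (x : J → ℂ) (w : ℂ) => ‖∑ j ∈ s, x j * φ j c‖ < ‖∑ j ∈ s, x j * φ j w‖)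
    intro w hw
    have h1 : Continuous (fun z : (J → ℂ) × ℂ => ‖∑ j ∈ s, z.1 j * φ j c‖) := by
      apply Continuous.norm
      apply continuous_finset_sum
      intro j _
      exact ((continuous_apply j).comp continuous_fst).mul continuous_const
    have h2 : Continuous (fun z : (J → ℂ) × ℂ => ‖∑ j ∈ s, z.1 j * φ j z.2‖) := by
      apply Continuous.norm
      apply continuous_finset_sum
      intro j _
      exact ((continuous_apply j).comp continuous_fst).mul ((hφ j).comp continuous_snd)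
    exact (isOpen_lt h1 h2).mem_nhds (h w hw)
  filter_upwards [ht.eventually hev] with N hN w hw
  have e : ∀ y : ℂ, ∑ j ∈ s, (if j ∈ s then a N j else b j) * φ j y = ∑ j ∈ s, a N j * φ j y :=
    fun y => Finset.sum_congr rfl (fun j hj => by simp [hj])
  have := hN w hw
  rwa [e, e] at this

lemma lim_fact (k : ℕ) : Tendsto (fun p : ℕ => (((p + k).factorial : ℂ) / (p.factorial * (p : ℂ) ^ k)))
    atTop (𝓝 1) := by
  induction k with
  | zero =>
    have : (fun p : ℕ => (((p + 0).factorial : ℂ) / (p.factorial * (p : ℂ) ^ 0))) = fun _ => 1 := by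
      funext p
      have : (p.factorial : ℂ) ≠ 0 := by exact_mod_cast p.factorial_ne_zero
      simp [this]
    rw [this]; exact tendsto_const_nhds
  | succ k ih =>
    have h1 : Tendsto (fun p : ℕ => (1 : ℂ) + ((k : ℂ) + 1) / (p : ℂ)) atTop (𝓝 (1 + 0)) :=
      tendsto_const_nhds.add (tendsto_const_div_atTop_nhds_zero_nat _)
    have h2 := ih.mul h1
    simp only [add_zero, mul_one] at h2
    refine h2.congr' ?_
    filter_upwards [eventually_gt_atTop 0] with p hp
    have h3 : (p.factorial : ℂ) ≠ 0 := by exact_mod_cast p.factorial_ne_zero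
    have h4 : (p : ℂ) ≠ 0 := by exact_mod_cast hp.ne'
    rw [← add_assoc, Nat.factorial_succ]
    push_cast
    field_simp
    ring

lemma lim_ratio (u v : ℕ) : Tendsto (fun p : ℕ => ((p.factorial : ℂ) * (p + (u + v)).factorial /
    ((p + u).factorial * (p + v).factorial))) atTop (𝓝 1) := by
  have h := (lim_fact (u + v)).div ((lim_fact u).mul (lim_fact v)) (by simp)
  simp only [mul_one, div_one] at h
  refine h.congr' ?_
  filter_upwards [eventually_gt_atTop 0] with p hp
  have h3 : (p.factorial : ℂ) ≠ 0 := by exact_mod_cast p.factorial_ne_zero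
  have h4 : (p : ℂ) ≠ 0 := by exact_mod_cast hp.ne'
  have h5 : ((p + u).factorial : ℂ) ≠ 0 := by exact_mod_cast (p + u).factorial_ne_zero
  have h6 : ((p + v).factorial : ℂ) ≠ 0 := by exact_mod_cast (p + v).factorial_ne_zero
  simp only [Pi.div_apply]
  field_simp
  ring

lemma lim_choose (i : ℕ) : Tendsto (fun n : ℕ => ((n.choose i : ℂ) / (n : ℂ) ^ i))
    atTop (𝓝 (1 / (i.factorial : ℂ))) := by
  induction i with
  | zero => simp
  | succ i ih =>
    have h1 : Tendsto (fun n : ℕ => ((1 : ℂ) - (i : ℂ) / (n : ℂ)) / ((i : ℂ) + 1)) atTop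
        (𝓝 ((1 - 0) / ((i : ℂ) + 1))) :=
      (tendsto_const_nhds.sub (tendsto_const_div_atTop_nhds_zero_nat _)).div_const _
    have h2 := ih.mul h1
    have h5 : ((i : ℂ) + 1) ≠ 0 := by exact_mod_cast Nat.succ_ne_zero i
    have h3 : (i.factorial : ℂ) ≠ 0 := by exact_mod_cast i.factorial_ne_zero
    have e : 1 / (i.factorial : ℂ) * ((1 - 0) / ((i : ℂ) + 1)) = 1 / ((i + 1).factorial : ℂ) := by
      rw [Nat.factorial_succ]; push_cast; field_simp; ring
    rw [e] at h2
    refine h2.congr' ?_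
    filter_upwards [eventually_gt_atTop i] with n hn
    have h4 : (n : ℂ) ≠ 0 := by exact_mod_cast (by omega : n ≠ 0)
    have h6 : ((n.choose (i + 1) : ℕ) : ℂ) * ((i : ℂ) + 1) = (n.choose i : ℂ) * ((n : ℂ) - i) := by
      have := Nat.choose_succ_right_eq n i
      have h7 : ((n - i : ℕ) : ℂ) = (n : ℂ) - i := by push_cast [Nat.cast_sub hn.le]; ring
      rw [← h7]; exact_mod_cast this
    have h8 : ((n.choose (i + 1) : ℕ) : ℂ) = (n.choose i : ℂ) * ((n : ℂ) - i) / ((i : ℂ) + 1) := by
      rw [← h6]; field_simp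
    rw [h8]
    field_simp
    ring

/-- The limiting polynomial in `w` (a normalised form of the reliability polynomial). -/
noncomputable def H (n p d : ℕ) (w : ℂ) : ℂ :=
  ∑ j ∈ range (p + d + 1) ×ˢ range (p + d + 1),
    (if j.1 + j.2 ≤ 2 * p + d then (n.choose j.1 : ℂ) * (n.choose j.2 : ℂ) else 0) *
      ((w - 2) ^ (p + d - j.1) * (w * (w - 2)) ^ (p + d - j.2))

lemma top_sum (p d : ℕ) (w : ℂ) :
    ∑ j ∈ range (p + d + 1) ×ˢ range (p + d + 1),
      (if j.1 + j.2 = 2 * p + d then ((p.factorial : ℂ) * (p + d).factorial) /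
          (j.1.factorial * j.2.factorial) else 0) *
      ((w - 2) ^ (p + d - j.1) * (w * (w - 2)) ^ (p + d - j.2)) =
    ∑ u ∈ range (d + 1), ((p.factorial : ℂ) * (p + (u + (d - u))).factorial /
      ((p + u).factorial * (p + (d - u)).factorial)) * ((w - 2) ^ d * w ^ u) := by
  simp only [ite_mul, zero_mul]
  rw [← Finset.sum_filter]
  symm
  apply Finset.sum_bij (fun u _ => (p + u, p + (d - u)))
  · intro u hu
    simp only [mem_range, mem_filter, mem_product] at hu ⊢
    omega
  · intro u _ v _ h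
    simp only [Prod.mk.injEq] at h
    omega
  · rintro ⟨i, l⟩ h
    simp only [mem_range, mem_filter, mem_product] at h
    refine ⟨i - p, by simp only [mem_range]; omega, ?_⟩
    simp only [Prod.mk.injEq]
    omega
  · intro u hu
    simp only [mem_range] at hu
    obtain ⟨v, rfl⟩ : ∃ v, d = u + v := ⟨d - u, by omega⟩
    have e1 : u + v - u = v := by omega
    have e2 : p + (u + v) - (p + u) = v := by omega
    have e3 : p + (u + v) - (p + v) = u := by omega
    simp only [e1, e2, e3]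
    rw [mul_pow, pow_add]
    ring

lemma exists_root (d : ℕ) (c : ℂ) (δ : ℝ) (hδ : 0 < δ)
    (hc : ∑ u ∈ range (d + 1), c ^ u = 0)
    (h : ∀ w ∈ Metric.sphere c δ, w ≠ 2 ∧ ∑ u ∈ range (d + 1), w ^ u ≠ 0) :
    ∃ n p : ℕ, p + d ≤ n ∧ ∃ w ∈ Metric.closedBall c δ, H n p d w = 0 := by
  have s1 := open_cond (range (d + 1)) (fun u w => (w - 2) ^ d * w ^ u) (fun u => by fun_prop)
    (fun p u => ((p.factorial : ℂ) * (p + (u + (d - u))).factorial /
      ((p + u).factorial * (p + (d - u)).factorial))) (fun _ => 1)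
    (fun u _ => lim_ratio u (d - u)) c δ (by
      intro w hw
      simp only [one_mul, ← Finset.mul_sum, hc, mul_zero, norm_zero, norm_pos_iff]
      exact mul_ne_zero (pow_ne_zero _ (sub_ne_zero.mpr (h w hw).1)) (h w hw).2)
  obtain ⟨p, hp⟩ := s1.exists
  simp only [← top_sum] at hp
  have s2 := open_cond (range (p + d + 1) ×ˢ range (p + d + 1))
    (fun j w => (w - 2) ^ (p + d - j.1) * (w * (w - 2)) ^ (p + d - j.2)) (fun j => by fun_prop)
    (fun n j => ((p.factorial : ℂ) * (p + d).factorial / (n : ℂ) ^ (2 * p + d)) *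
      (if j.1 + j.2 ≤ 2 * p + d then (n.choose j.1 : ℂ) * (n.choose j.2 : ℂ) else 0))
    (fun j => if j.1 + j.2 = 2 * p + d then ((p.factorial : ℂ) * (p + d).factorial) /
          (j.1.factorial * j.2.factorial) else 0) (by
      rintro ⟨i, l⟩ _
      by_cases hle : i + l ≤ 2 * p + d
      · obtain ⟨k, hk⟩ : ∃ k, 2 * p + d = i + l + k := ⟨2 * p + d - (i + l), by omega⟩
        have h0 : Tendsto (fun n : ℕ => ((1 : ℂ) / (n : ℂ)) ^ k) atTop (𝓝 (0 ^ k)) :=
          (tendsto_const_div_atTop_nhds_zero_nat _).pow k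
        have h1 := (((lim_choose i).mul (lim_choose l)).mul h0).const_mul
          ((p.factorial : ℂ) * (p + d).factorial)
        have e : (p.factorial : ℂ) * (p + d).factorial *
            (1 / (i.factorial : ℂ) * (1 / (l.factorial : ℂ)) * 0 ^ k) =
            if i + l = 2 * p + d then ((p.factorial : ℂ) * (p + d).factorial) /
              (i.factorial * l.factorial) else 0 := by
          by_cases hk0 : k = 0
          · have : i + l = 2 * p + d := by omega
            simp only [this, hk0, if_true, pow_zero]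
            ring
          · have : ¬ (i + l = 2 * p + d) := by omega
            simp [this, hk0]
        rw [e] at h1
        refine h1.congr' ?_
        filter_upwards [eventually_gt_atTop 0] with n hn
        have h4 : (n : ℂ) ≠ 0 := by exact_mod_cast hn.ne'
        simp only [hle, if_true]
        rw [hk, pow_add, pow_add, one_div, inv_pow]
        field_simp
      · have : ¬ (i + l = 2 * p + d) := by omega
        simp [hle, this]) c δ hp
  obtain ⟨n, hn1, hn2, hn3⟩ := (s2.and ((eventually_ge_atTop (p + d)).and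
    (eventually_gt_atTop 0))).exists
  refine ⟨n, p, hn2, ?_⟩
  apply exists_zero _ _ c δ hδ
  · intro w hw
    have := hn1 w hw
    simp only [mul_assoc _ (ite _ _ _), ← Finset.mul_sum, norm_mul] at this
    exact lt_of_mul_lt_mul_left this (norm_nonneg _)
  · unfold H
    fun_prop

lemma exists_small (ε : ℝ) (hε : 0 < ε) :
    ∃ n p d : ℕ, p + d ≤ n ∧ ∃ w : ℂ, w ≠ 1 ∧ ‖w - 1‖ < ε ∧ H n p d w = 0 := by
  obtain ⟨d, hd⟩ := exists_nat_gt (4 * Real.pi / ε)
  have hdpos : 0 < d := by
    have : (0 : ℝ) < 4 * Real.pi / ε := by positivity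
    exact_mod_cast this.trans hd
  have hprim := Complex.isPrimitiveRoot_exp (d + 1) (Nat.succ_ne_zero d)
  set c := Complex.exp (2 * Real.pi * Complex.I / ((d + 1 : ℕ) : ℂ)) with hcdef
  have hc1 : c ≠ 1 := hprim.ne_one (by omega)
  have hc : ∑ u ∈ range (d + 1), c ^ u = 0 := hprim.geom_sum_eq_zero (by omega)
  have hnorm : ‖c - 1‖ ≤ 2 * Real.pi / (d + 1) := by
    have := Real.norm_exp_I_mul_ofReal_sub_one_le (x := 2 * Real.pi / (d + 1))
    have e : Complex.I * ((2 * Real.pi / (d + 1) : ℝ) : ℂ) =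
        2 * Real.pi * Complex.I / ((d + 1 : ℕ) : ℂ) := by push_cast; ring
    rw [e, Real.norm_of_nonneg (by positivity)] at this
    exact this
  have hfin : ({w : ℂ | w = 2 ∨ w ^ (d + 1) = 1}).Finite := by
    have : ({w : ℂ | w = 2 ∨ w ^ (d + 1) = 1}) = {2} ∪ {w : ℂ | w ^ (d + 1) = 1} := by
      ext w; simp
    rw [this]
    apply (Set.finite_singleton _).union
    apply Set.Finite.subset (Polynomial.nthRoots (d + 1) (1 : ℂ)).toFinset.finite_toSet
    intro w hw
    simp only [Finset.mem_coe, Multiset.mem_toFinset, Polynomial.mem_nthRoots (Nat.succ_pos d)]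
    exact hw
  have hpos : 0 < ‖c - 1‖ := norm_pos_iff.mpr (sub_ne_zero.mpr hc1)
  obtain ⟨δ, hδ1, hδ2⟩ := (Set.Ioo_infinite hpos).exists_notMem_finite
    (hfin.image (fun w => dist w c))
  obtain ⟨n, p, hnp, w, hw, hH⟩ := exists_root d c δ hδ1.1 hc (by
    intro w hw
    have hw' : ¬ (w = 2 ∨ w ^ (d + 1) = 1) := fun h => hδ2 ⟨w, h, hw⟩
    push Not at hw'
    refine ⟨hw'.1, fun h => hw'.2 ?_⟩
    have := mul_geom_sum w (d + 1)
    rw [h, mul_zero] at this
    exact (sub_eq_zero.mp this.symm))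
  rw [Metric.mem_closedBall, dist_eq_norm] at hw
  refine ⟨n, p, d, hnp, w, ?_, ?_, hH⟩
  · rintro rfl
    rw [norm_sub_rev] at hw
    linarith [hδ1.2]
  · have h1 : ‖w - 1‖ ≤ ‖w - c‖ + ‖c - 1‖ := by
      have := norm_add_le (w - c) (c - 1)
      simpa using this
    have h2 : 4 * Real.pi < d * ε := by rwa [div_lt_iff₀ hε] at hd
    have h3 : 2 * Real.pi / (d + 1) < ε / 2 := by
      rw [div_lt_iff₀ (by positivity)]
      nlinarith
    linarith [hδ1.2]


lemma pair_sum {β : Type} [DecidableEq β] (t : ℂ) (U : Finset β) : ∀ ψ : ℕ → ℂ,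
    ∑ B ∈ U.powerset, ∑ C ∈ U.powerset, ψ (B ∩ C).card * (t ^ B.card * t ^ C.card) =
    ∑ D ∈ U.powerset, ψ D.card * ((t ^ 2) ^ D.card * (1 + 2 * t) ^ (U.card - D.card)) := by
  induction U using Finset.induction_on with
  | empty => intro ψ; simp
  | insert a U ha ih =>
    intro ψ
    have hna : ∀ B ∈ U.powerset, a ∉ B := fun B hB h => ha (mem_powerset.mp hB h)
    rw [Finset.sum_powerset_insert ha, Finset.sum_powerset_insert ha]
    have e1 : ∑ B ∈ U.powerset, ∑ C ∈ (insert a U).powerset,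
        ψ (B ∩ C).card * (t ^ B.card * t ^ C.card) =
        (1 + t) * ∑ B ∈ U.powerset, ∑ C ∈ U.powerset, ψ (B ∩ C).card * (t ^ B.card * t ^ C.card) := by
      rw [Finset.mul_sum]
      refine Finset.sum_congr rfl (fun B hB => ?_)
      rw [Finset.sum_powerset_insert ha, Finset.mul_sum, ← Finset.sum_add_distrib]
      refine Finset.sum_congr rfl (fun C hC => ?_)
      rw [Finset.inter_insert_of_notMem (hna B hB), card_insert_of_notMem (hna C hC)]
      ring
    have e2 : ∑ B ∈ U.powerset, ∑ C ∈ (insert a U).powerset,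
        ψ (insert a B ∩ C).card * (t ^ (insert a B).card * t ^ C.card) =
        t * (∑ B ∈ U.powerset, ∑ C ∈ U.powerset, ψ (B ∩ C).card * (t ^ B.card * t ^ C.card)) +
        t ^ 2 * ∑ B ∈ U.powerset, ∑ C ∈ U.powerset,
          ψ ((B ∩ C).card + 1) * (t ^ B.card * t ^ C.card) := by
      rw [Finset.mul_sum, Finset.mul_sum, ← Finset.sum_add_distrib]
      refine Finset.sum_congr rfl (fun B hB => ?_)
      rw [Finset.sum_powerset_insert ha, Finset.mul_sum, Finset.mul_sum, ← Finset.sum_add_distrib,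
        ← Finset.sum_add_distrib]
      refine Finset.sum_congr rfl (fun C hC => ?_)
      have hBC : a ∉ B ∩ C := fun h => hna B hB (mem_inter.mp h).1
      rw [Finset.insert_inter_of_notMem (hna C hC), card_insert_of_notMem (hna C hC),
        card_insert_of_notMem (hna B hB), ← Finset.insert_inter_distrib, card_insert_of_notMem hBC]
      ring
    rw [e1, e2, ih ψ, ih (fun l => ψ (l + 1)), card_insert_of_notMem ha]
    have e3 : ∑ D ∈ U.powerset, ψ D.card * ((t ^ 2) ^ D.card * (1 + 2 * t) ^ (U.card + 1 - D.card)) =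
        (1 + 2 * t) * ∑ D ∈ U.powerset,
          ψ D.card * ((t ^ 2) ^ D.card * (1 + 2 * t) ^ (U.card - D.card)) := by
      rw [Finset.mul_sum]
      refine Finset.sum_congr rfl (fun D hD => ?_)
      have := card_le_card (mem_powerset.mp hD)
      rw [show U.card + 1 - D.card = U.card - D.card + 1 by omega]
      ring
    have e4 : ∑ D ∈ U.powerset, ψ (insert a D).card * ((t ^ 2) ^ (insert a D).card *
        (1 + 2 * t) ^ (U.card + 1 - (insert a D).card)) =
        t ^ 2 * ∑ D ∈ U.powerset,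
          ψ (D.card + 1) * ((t ^ 2) ^ D.card * (1 + 2 * t) ^ (U.card - D.card)) := by
      rw [Finset.mul_sum]
      refine Finset.sum_congr rfl (fun D hD => ?_)
      rw [card_insert_of_notMem (hna D hD), show U.card + 1 - (D.card + 1) = U.card - D.card by omega]
      ring
    rw [e3, e4]
    ring

lemma transfer {α : Type} [Fintype α] [DecidableEq α] (P : Finset α → Prop) (h0 : P ∅)
    (h1 : ∀ ⦃I J⦄, P J → I ⊆ J → P I)
    (h2 : ∀ ⦃I J⦄, P I → P J → I.card < J.card → ∃ e ∈ J, e ∉ I ∧ P (insert e I)) :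
    ∃ (N : ℕ) (M : Matroid (Fin N)), M.E = Set.univ ∧ ∀ z : ℂ, z ≠ 0 →
      (∑ S : Finset (Fin N), (if M.Spanning (↑S : Set (Fin N)) then
            z ^ (Finset.card S) * (1 - z) ^ (N - Finset.card S) else 0)) =
      z ^ N * ∑ I : Finset α, if P I then ((1 - z) / z) ^ I.card else 0 := by
  let e := Fintype.equivFin α
  let M0 : Matroid α := (IndepMatroid.ofFinset Set.univ P h0 h1 h2 (fun _ _ => Set.subset_univ _)).matroid
  have hE : (M0.mapEquiv e)✶.E = Set.univ := by
    simp [M0]
  refine ⟨Fintype.card α, (M0.mapEquiv e)✶, hE, fun z hz => ?_⟩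
  rw [Finset.mul_sum]
  let g : Finset (Fin (Fintype.card α)) ≃ Finset α :=
    (Function.Involutive.toPerm (fun S : Finset (Fin (Fintype.card α)) => Sᶜ) compl_compl).trans
      e.symm.finsetCongr
  refine Fintype.sum_equiv g _ _ (fun S => ?_)
  have hg : g S = (Sᶜ).map e.symm.toEmbedding := rfl
  have hs : (M0.mapEquiv e)✶.Spanning (↑S : Set _) ↔ P (g S) := by
    rw [Matroid.spanning_iff_compl_coindep (by rw [hE]; exact Set.subset_univ _), Matroid.coindep_def,
      Matroid.dual_dual, hE, Matroid.mapEquiv_indep_iff]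
    have : e.symm '' (Set.univ \ (S : Set _)) = ((g S : Finset α) : Set α) := by
      rw [hg, Finset.coe_map, Finset.coe_compl, Set.compl_eq_univ_diff]
      rfl
    rw [this]
    simp only [M0, IndepMatroid.matroid_Indep]
    exact IndepMatroid.ofFinset_indep _ _ _ _ _ _
  have hc : (g S).card = Fintype.card α - S.card := by
    rw [hg, card_map, card_compl, Fintype.card_fin]
  by_cases hP : P (g S)
  · rw [if_pos (hs.mpr hP), if_pos hP, hc]
    have hle : S.card ≤ Fintype.card α := by simpa using S.card_le_univ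
    obtain ⟨k, hk⟩ : ∃ k, Fintype.card α = S.card + k := ⟨_, (Nat.add_sub_cancel' hle).symm⟩
    have hk' : Fintype.card α - S.card = k := by omega
    rw [hk']
    generalize S.card = m at hk
    rw [hk, pow_add, div_pow]
    field_simp
  · rw [if_neg (fun h => hP (hs.mp h)), if_neg hP, mul_zero]

/-- Independent sets: at most `q` single elements, at most `q` full pairs, at most `r` in total. -/
def Ind (n q r : ℕ) (I : Finset (Fin n ⊕ (Fin n ⊕ Fin n))) : Prop :=
  I.toLeft.card ≤ q ∧ (I.toRight.toLeft ∩ I.toRight.toRight).card ≤ q ∧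
    I.toLeft.card + (I.toRight.toLeft ∩ I.toRight.toRight).card ≤ r

lemma ind_sub (n q r : ℕ) ⦃I J : Finset (Fin n ⊕ (Fin n ⊕ Fin n))⦄ (hJ : Ind n q r J) (h : I ⊆ J) :
    Ind n q r I := by
  have h1 := card_le_card (toLeft_subset_toLeft h)
  have h2 := card_le_card (inter_subset_inter (toLeft_subset_toLeft (toRight_subset_toRight h))
    (toRight_subset_toRight (toRight_subset_toRight h)))
  unfold Ind at *
  omega

lemma ind_aug (n q r : ℕ) ⦃I J : Finset (Fin n ⊕ (Fin n ⊕ Fin n))⦄ (hI : Ind n q r I)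
    (hJ : Ind n q r J) (h : I.card < J.card) : ∃ e ∈ J, e ∉ I ∧ Ind n q r (insert e I) := by
  unfold Ind at *
  by_cases hU : J.toRight.toLeft ∪ J.toRight.toRight ⊆ I.toRight.toLeft ∪ I.toRight.toRight
  · have c1 := card_le_card hU
    have c2 := card_union_add_card_inter I.toRight.toLeft I.toRight.toRight
    have c3 := card_union_add_card_inter J.toRight.toLeft J.toRight.toRight
    have c4 := card_toLeft_add_card_toRight (u := I)
    have c5 := card_toLeft_add_card_toRight (u := J)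
    have c6 := card_toLeft_add_card_toRight (u := I.toRight)
    have c7 := card_toLeft_add_card_toRight (u := J.toRight)
    by_cases hA : I.toLeft.card < J.toLeft.card
    · obtain ⟨a, ha1, ha2⟩ := exists_mem_notMem_of_card_lt_card hA
      refine ⟨Sum.inl a, mem_toLeft.mp ha1, fun h' => ha2 (mem_toLeft.mpr h'), ?_⟩
      rw [toLeft_insert_inl, toRight_insert_inl, card_insert_of_notMem ha2]
      omega
    · have hB : (I.toRight.toLeft ∩ I.toRight.toRight).card <
          (J.toRight.toLeft ∩ J.toRight.toRight).card := by omega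
      obtain ⟨a, ha1, ha2⟩ := exists_mem_notMem_of_card_lt_card hB
      rw [mem_inter] at ha1 ha2
      by_cases hl : a ∈ I.toRight.toLeft
      · have hr : a ∉ I.toRight.toRight := fun h' => ha2 ⟨hl, h'⟩
        refine ⟨Sum.inr (Sum.inr a), by simpa using ha1.2, by simpa using hr, ?_⟩
        rw [toLeft_insert_inr, toRight_insert_inr, toLeft_insert_inr, toRight_insert_inr,
          inter_insert_of_mem hl]
        have := card_insert_le a (I.toRight.toLeft ∩ I.toRight.toRight)
        omega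
      · refine ⟨Sum.inr (Sum.inl a), by simpa using ha1.1, by simpa using hl, ?_⟩
        rw [toLeft_insert_inr, toRight_insert_inr, toLeft_insert_inl, toRight_insert_inl]
        have h3 : insert a I.toRight.toLeft ∩ I.toRight.toRight ⊆
            insert a (I.toRight.toLeft ∩ I.toRight.toRight) := by
          intro x hx
          simp only [mem_inter, mem_insert] at hx ⊢
          tauto
        have h4 := card_le_card h3
        have := card_insert_le a (I.toRight.toLeft ∩ I.toRight.toRight)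
        omega
  · obtain ⟨a, ha1, ha2⟩ := not_subset.mp hU
    rw [mem_union] at ha1 ha2
    push Not at ha2
    rcases ha1 with ha1 | ha1
    · refine ⟨Sum.inr (Sum.inl a), by simpa using ha1, by simpa using ha2.1, ?_⟩
      rw [toLeft_insert_inr, toRight_insert_inr, toLeft_insert_inl, toRight_insert_inl,
        insert_inter_of_notMem ha2.2]
      exact hI
    · refine ⟨Sum.inr (Sum.inr a), by simpa using ha1, by simpa using ha2.2, ?_⟩
      rw [toLeft_insert_inr, toRight_insert_inr, toLeft_insert_inr, toRight_insert_inr,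
        inter_insert_of_notMem ha2.1]
      exact hI

lemma ind_sum (n q r : ℕ) (t : ℂ) :
    ∑ I : Finset (Fin n ⊕ (Fin n ⊕ Fin n)), (if Ind n q r I then t ^ I.card else 0) =
    ∑ i ∈ range (n + 1), ∑ l ∈ range (n + 1), (n.choose i : ℂ) * (n.choose l : ℂ) *
      (if i ≤ q ∧ l ≤ q ∧ i + l ≤ r then t ^ i * ((t ^ 2) ^ l * (1 + 2 * t) ^ (n - l)) else 0) := by
  let g : Finset (Fin n ⊕ (Fin n ⊕ Fin n)) ≃ Finset (Fin n) × (Finset (Fin n) × Finset (Fin n)) :=
    Finset.sumEquiv.toEquiv.trans (Equiv.prodCongr (Equiv.refl _) Finset.sumEquiv.toEquiv)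
  have e1 : ∑ I : Finset (Fin n ⊕ (Fin n ⊕ Fin n)), (if Ind n q r I then t ^ I.card else 0) =
      ∑ x : Finset (Fin n) × (Finset (Fin n) × Finset (Fin n)),
        (if x.1.card ≤ q ∧ (x.2.1 ∩ x.2.2).card ≤ q ∧ x.1.card + (x.2.1 ∩ x.2.2).card ≤ r
          then t ^ x.1.card else 0) * (t ^ x.2.1.card * t ^ x.2.2.card) := by
    refine Fintype.sum_equiv g _ _ (fun I => ?_)
    have hg : g I = (I.toLeft, (I.toRight.toLeft, I.toRight.toRight)) := rfl
    rw [hg]
    dsimp only
    by_cases hI : Ind n q r I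
    · rw [if_pos hI]
      unfold Ind at hI
      rw [if_pos hI, ← pow_add, ← pow_add, card_toLeft_add_card_toRight,
        card_toLeft_add_card_toRight]
    · rw [if_neg hI]
      unfold Ind at hI
      rw [if_neg hI, zero_mul]
  rw [e1, Fintype.sum_prod_type]
  have e2 : ∀ A : Finset (Fin n), ∑ y : Finset (Fin n) × Finset (Fin n),
      (if A.card ≤ q ∧ (y.1 ∩ y.2).card ≤ q ∧ A.card + (y.1 ∩ y.2).card ≤ r
          then t ^ A.card else 0) * (t ^ y.1.card * t ^ y.2.card) =
      ∑ l ∈ range (n + 1), (n.choose l : ℂ) *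
      (if A.card ≤ q ∧ l ≤ q ∧ A.card + l ≤ r then
        t ^ A.card * ((t ^ 2) ^ l * (1 + 2 * t) ^ (n - l)) else 0) := by
    intro A
    rw [Fintype.sum_prod_type]
    have := pair_sum t (univ : Finset (Fin n))
      (fun l => if A.card ≤ q ∧ l ≤ q ∧ A.card + l ≤ r then t ^ A.card else 0)
    rw [powerset_univ] at this
    rw [this, ← powerset_univ, Finset.sum_powerset_apply_card
      (fun l => (if A.card ≤ q ∧ l ≤ q ∧ A.card + l ≤ r then t ^ A.card else 0) *
        ((t ^ 2) ^ l * (1 + 2 * t) ^ ((univ : Finset (Fin n)).card - l)))]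
    simp only [card_univ, Fintype.card_fin, nsmul_eq_mul, ite_mul, zero_mul]
  simp only [e2]
  rw [← powerset_univ, Finset.sum_powerset_apply_card
    (fun i => ∑ l ∈ range (n + 1), (n.choose l : ℂ) *
      (if i ≤ q ∧ l ≤ q ∧ i + l ≤ r then t ^ i * ((t ^ 2) ^ l * (1 + 2 * t) ^ (n - l)) else 0))]
  simp only [card_univ, Fintype.card_fin, nsmul_eq_mul, Finset.mul_sum, mul_assoc]

lemma rel_H (n p d : ℕ) (hn : p + d ≤ n) (w : ℂ) (hw : w - 2 ≠ 0) :
    (∑ i ∈ range (n + 1), ∑ l ∈ range (n + 1), (n.choose i : ℂ) * (n.choose l : ℂ) *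
      (if i ≤ p + d ∧ l ≤ p + d ∧ i + l ≤ 2 * p + d then (w - 2)⁻¹ ^ i * (((w - 2)⁻¹ ^ 2) ^ l *
        (1 + 2 * (w - 2)⁻¹) ^ (n - l)) else 0)) * ((w - 2) ^ (p + d) * (w * (w - 2)) ^ (p + d)) =
      (w * (w - 2)⁻¹) ^ n * H n p d w := by
  have e0 : 1 + 2 * (w - 2)⁻¹ = w * (w - 2)⁻¹ := by field_simp; ring
  rw [e0, ← Finset.sum_product', H, Finset.sum_mul, Finset.mul_sum]
  symm
  have hsub : range (p + d + 1) ×ˢ range (p + d + 1) ⊆ range (n + 1) ×ˢ range (n + 1) := by
    intro j hj
    simp only [mem_product, mem_range] at hj ⊢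
    omega
  rw [← Finset.sum_subset hsub]
  · refine Finset.sum_congr rfl ?_
    rintro ⟨i, l⟩ hj
    simp only [mem_product, mem_range] at hj
    by_cases hle : i + l ≤ 2 * p + d
    · have h3 : i ≤ p + d ∧ l ≤ p + d ∧ i + l ≤ 2 * p + d := by omega
      simp only [h3, and_self, if_true]
      obtain ⟨a, ha⟩ : ∃ a, p + d = i + a := ⟨p + d - i, by omega⟩
      obtain ⟨b, hb⟩ : ∃ b, p + d = l + b := ⟨p + d - l, by omega⟩
      obtain ⟨c, hc⟩ : ∃ c, n = l + c := ⟨n - l, by omega⟩
      have f1 : (w - 2) ^ (p + d) = (w - 2) ^ i * (w - 2) ^ a := by rw [ha, pow_add]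
      have f2 : (w * (w - 2)) ^ (p + d) = (w ^ l * (w - 2) ^ l) * (w * (w - 2)) ^ b := by
        rw [hb, pow_add, mul_pow]
      have f3 : (w * (w - 2)⁻¹) ^ n = (w ^ l * ((w - 2) ^ l)⁻¹) * (w * (w - 2)⁻¹) ^ c := by
        rw [hc, pow_add, mul_pow, inv_pow]
      have f4 : ((w - 2)⁻¹ ^ 2) ^ l = ((w - 2) ^ l)⁻¹ * ((w - 2) ^ l)⁻¹ := by
        rw [← pow_mul, mul_comm, pow_mul, inv_pow, sq]
      rw [f1, f2, f3, f4, inv_pow, show p + d - i = a by omega, show p + d - l = b by omega,
        show n - l = c by omega]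
      have g1 : (w - 2) ^ i ≠ 0 := pow_ne_zero _ hw
      have g2 : (w - 2) ^ l ≠ 0 := pow_ne_zero _ hw
      generalize (w - 2) ^ i = x1 at *
      generalize (w - 2) ^ l = x2 at *
      generalize (w * (w - 2)⁻¹) ^ c = x3
      field_simp
    · have h3 : ¬ (i ≤ p + d ∧ l ≤ p + d ∧ i + l ≤ 2 * p + d) := by omega
      simp [hle]
  · rintro ⟨i, l⟩ _ hj
    simp only [mem_product, mem_range] at hj
    have h3 : ¬ (i ≤ p + d ∧ l ≤ p + d ∧ i + l ≤ 2 * p + d) := by omega
    simp [h3]

lemma ind_empty (n q r : ℕ) : Ind n q r ∅ := by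
  have e1 : (∅ : Finset (Fin n ⊕ (Fin n ⊕ Fin n))).toLeft = ∅ := by ext; simp
  have e2 : (∅ : Finset (Fin n ⊕ (Fin n ⊕ Fin n))).toRight.toLeft = ∅ := by ext; simp
  unfold Ind
  rw [e1, e2]
  simp


/-- The negation of the preceding statement: There is a real constant C such that, for every finite matroid, every complex root z of its reliability polynomial (sum over spanning sets S of z^∣S∣ (1−z)^(∣E∣−∣S∣)) satisfies ∣z∣ ≤ C. -/
theorem result :
    ¬ (∃ C : ℝ, ∀ (n : ℕ) (M : Matroid (Fin n)), M.E = Set.univ →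
      ∀ z : ℂ,
        (∑ S : Finset (Fin n),
          (if M.Spanning (↑S : Set (Fin n)) then
            z ^ (Finset.card S) * (1 - z) ^ (n - Finset.card S) else 0)) = 0 →
        ‖z‖ ≤ C) := by
  rintro ⟨C, hC⟩
  obtain ⟨n, p, d, hn, w, hw1, hw2, hH⟩ := exists_small (1 / (|C| + 2)) (by positivity)
  obtain ⟨N, M, hE, hM⟩ := transfer (Ind n (p + d) (2 * p + d)) (ind_empty n _ _)
    (ind_sub n _ _) (ind_aug n _ _)
  have hlt : 1 / (|C| + 2) < 1 := by
    rw [div_lt_one (by positivity)]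
    linarith [abs_nonneg C]
  have h1 : w - 1 ≠ 0 := sub_ne_zero.mpr hw1
  have h2 : w - 2 ≠ 0 := by
    intro h
    rw [show w - 1 = 1 by linear_combination h, norm_one] at hw2
    linarith
  have h0 : w ≠ 0 := by
    intro h
    rw [h, zero_sub, norm_neg, norm_one] at hw2
    linarith
  have hz : (w - 2) / (w - 1) ≠ 0 := div_ne_zero h2 h1
  have ht : (1 - (w - 2) / (w - 1)) / ((w - 2) / (w - 1)) = (w - 2)⁻¹ := by
    field_simp
    ring
  have hR := rel_H n p d hn w h2
  rw [hH, mul_zero, ← ind_sum] at hR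
  have hS := (mul_eq_zero.mp hR).resolve_right
    (mul_ne_zero (pow_ne_zero _ h2) (pow_ne_zero _ (mul_ne_zero h0 h2)))
  have hb := hC N M hE ((w - 2) / (w - 1)) (by
    rw [hM _ hz, ht]
    convert mul_zero _)
  have hpos : 0 < ‖w - 1‖ := norm_pos_iff.mpr h1
  have e : (w - 1)⁻¹ = 1 - (w - 2) / (w - 1) := by
    field_simp
    ring
  have h5 : ‖(w - 1)⁻¹‖ ≤ 1 + C := by
    rw [e]
    have := norm_sub_le (1 : ℂ) ((w - 2) / (w - 1))
    rw [norm_one] at this
    linarith
  rw [norm_inv] at h5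
  have h6 : |C| + 2 < ‖w - 1‖⁻¹ := by
    rw [lt_inv_comm₀ (by positivity) hpos, ← one_div]
    exact hw2
  linarith [le_abs_self C]

end Pool.Agent.S08674
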