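import Pool.Statements.S08682
-- import your own Pool.Agent.* helpers here

set_option autoImplicit false
open Pool Pool.MP_4e5a55_co

namespace Pool.Agent.S08682

def A : Fin 6 → Fin 5 → ℤ := ![![0, -3, -6, -9, -12], ![-3, 0, -6, -12, -9], ![0, -9, 7, -3, -12], ![-9, 7, 13, 0, -3], ![-9, -12, 1, 7, -3], ![-12, 10, -6, 4, 0]]
def U : Fin 6 → Fin 5 → ℤ := ![![1, 1, 1, 1, 1], ![1, 1, 1, 1, 1], ![1, 1, -1, 1, 1], ![1, -1, -1, 1, 1], ![1, 1, -1, -1, 1], ![1, -1, 1, -1, 1]]

lemma cover : ∀ w : Fin 5 → Bool, ∃ i : Fin 6, ∃ k : Fin 6, ∀ j : Fin 5,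
    (w j = true → 1 < A i j + (3 * (k.val : ℤ) - 1) * U i j) ∧
    (w j = false → A i j + (3 * (k.val : ℤ) - 1) * U i j < 0) := by
  decide +kernel

lemma illum {d : ℕ} (x y : Fin d → ℝ) (hx : ∀ j, 0 ≤ x j ∧ x j ≤ 1)
    (h : ∀ j, (x j = 1 → 1 < y j) ∧ (x j ≠ 1 → y j < 0)) :
    ∃ t : ℝ, 0 < t ∧ ∀ j, 0 < (x + t • (x - y)) j ∧ (x + t • (x - y)) j < 1 := by
  have key : ∀ j, ∀ᶠ t in nhdsWithin (0 : ℝ) (Set.Ioi 0),
      0 < (x + t • (x - y)) j ∧ (x + t • (x - y)) j < 1 := by
    intro j
    have hc : ContinuousAt (fun t : ℝ => x j + t * (x j - y j)) 0 := by fun_prop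
    simp only [Pi.add_apply, Pi.smul_apply, Pi.sub_apply, smul_eq_mul]
    by_cases hj : x j = 1
    · have h1 := (h j).1 hj
      have e : ∀ᶠ t in nhds (0 : ℝ), 0 < x j + t * (x j - y j) :=
        hc.eventually (lt_mem_nhds (by simp [hj]))
      filter_upwards [e.filter_mono nhdsWithin_le_nhds, self_mem_nhdsWithin] with t h2 h3
      refine ⟨h2, ?_⟩
      have : (0 : ℝ) < t := h3
      nlinarith
    · have h1 := (h j).2 hj
      have hlt : x j < 1 := lt_of_le_of_ne (hx j).2 hj
      have e : ∀ᶠ t in nhds (0 : ℝ), x j + t * (x j - y j) < 1 :=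
        hc.eventually (gt_mem_nhds (by simpa using hlt))
      filter_upwards [e.filter_mono nhdsWithin_le_nhds, self_mem_nhdsWithin] with t h2 h3
      refine ⟨?_, h2⟩
      have : (0 : ℝ) < t := h3
      have := (hx j).1
      nlinarith
  have := (Filter.eventually_all.2 key).and self_mem_nhdsWithin
  obtain ⟨t, h1, h2⟩ := this.exists
  exact ⟨t, h2, h1⟩

noncomputable def L (i : Fin 6) : AffineSubspace ℝ (Fin 5 → ℝ) :=
  AffineSubspace.mk' (fun j => (A i j : ℝ)) (Submodule.span ℝ {fun j => (U i j : ℝ)})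

lemma mem_L (i : Fin 6) (y : Fin 5 → ℝ) :
    y ∈ L i ↔ ∃ s : ℝ, ∀ j, y j = A i j + s * U i j := by
  rw [L, AffineSubspace.mem_mk', Submodule.mem_span_singleton]
  constructor
  · rintro ⟨s, hs⟩
    refine ⟨s, fun j => ?_⟩
    have := congrFun hs j
    simp at this
    linarith
  · rintro ⟨s, hs⟩
    refine ⟨s, ?_⟩
    funext j
    simp [hs j]

lemma upper : 6 ∈ {n : ℕ | ∃ L : Fin n → AffineSubspace ℝ (Fin 5 → ℝ),
          (∀ i, Module.finrank ℝ (L i).direction = 1 ∧
              ∀ y ∈ L i, ¬ (∀ j, 0 ≤ y j ∧ y j ≤ 1)) ∧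
          ∀ x : Fin 5 → ℝ, (∀ j, 0 ≤ x j ∧ x j ≤ 1) → ¬ (∀ j, 0 < x j ∧ x j < 1) →
            ∃ i, ∃ y ∈ L i, ∃ t : ℝ, 0 < t ∧
              ∀ j, 0 < (x + t • (x - y)) j ∧ (x + t • (x - y)) j < 1} := by
  classical
  refine ⟨L, fun i => ⟨?_, ?_⟩, ?_⟩
  · rw [L, AffineSubspace.direction_mk']
    apply finrank_span_singleton
    intro h
    have := congrFun h 0
    fin_cases i <;> simp [U] at this
  · intro y hy h
    obtain ⟨s, hs⟩ := (mem_L i y).1 hy
    have h0 := h 0
    have h1 := h 1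
    rw [hs] at h0 h1
    fin_cases i <;> simp [A, U] at h0 h1 <;> linarith [h0.1, h0.2, h1.1, h1.2]
  · intro x hx _
    obtain ⟨i, k, hik⟩ := cover (fun j => decide (x j = 1))
    refine ⟨i, fun j => ((A i j + (3 * (k.val : ℤ) - 1) * U i j : ℤ) : ℝ), ?_, ?_⟩
    · rw [mem_L]
      exact ⟨((3 * (k.val : ℤ) - 1 : ℤ) : ℝ), fun j => by push_cast; ring⟩
    · apply illum x _ hx
      intro j
      constructor
      · intro hj
        have := (hik j).1 (by simp [hj])
        exact_mod_cast this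
      · intro hj
        have := (hik j).2 (by simp [hj])
        exact_mod_cast this

def nb (w : ℕ) : List ℕ := [w, w ^^^ 1, w ^^^ 2, w ^^^ 4, w ^^^ 8, w ^^^ 16]

def B (c : ℕ) : ℕ :=
  2 ^ c ||| 2 ^ (c ^^^ 1) ||| 2 ^ (c ^^^ 2) ||| 2 ^ (c ^^^ 4) ||| 2 ^ (c ^^^ 8) ||| 2 ^ (c ^^^ 16)

def force (n : ℕ) (f : ℕ → Bool) : Bool := Nat.casesOn n (f 0) (fun k => f k.succ)

lemma force_eq (n : ℕ) (f : ℕ → Bool) : force n f = f n := by cases n <;> rfl

def low (m : ℕ) : ℕ := Nat.log2 (m ^^^ (m + 1))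

def search (k : ℕ) : ℕ → Bool :=
  Nat.rec (fun m => force (low m) (fun w => Nat.blt w 32 && !m.testBit w))
    (fun _ ih m => force (low m) (fun w => (Nat.blt w 32 && !m.testBit w) &&
      (nb w).all (fun c => force (m ||| B c) ih))) k

lemma search_zero (m : ℕ) : search 0 m = (Nat.blt (low m) 32 && !m.testBit (low m)) :=
  force_eq (low m) (fun w => Nat.blt w 32 && !m.testBit w)

lemma search_succ (k m : ℕ) : search (k + 1) m = ((Nat.blt (low m) 32 && !m.testBit (low m)) &&
      (nb (low m)).all (fun c => search k (m ||| B c))) := by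
  have h := force_eq (low m) (fun w => (Nat.blt w 32 && !m.testBit w) &&
      (nb w).all (fun c => force (m ||| B c) (search k)))
  refine Eq.trans h ?_
  simp only [force_eq]

lemma search_six : search 6 0 = true := by decide +kernel

def dec (n : Fin 32) : Fin 5 → Bool := fun j => n.val.testBit j.val

lemma dec_surj : ∀ w : Fin 5 → Bool, ∃ n, dec n = w := by decide +kernel

lemma dec_near : ∀ a b : Fin 32, hammingDist (dec a) (dec b) ≤ 1 →
    b.val ∈ nb a.val ∧ (B b.val).testBit a.val = true := by decide +kernel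

lemma search_false (k : ℕ) : ∀ (m : ℕ) (C : Finset (Fin 5 → Bool)), C.card ≤ k →
    (∀ w : Fin 32, m.testBit w.val = true ∨ ∃ c ∈ C, hammingDist (dec w) c ≤ 1) →
    search k m = false := by
  induction k with
  | zero =>
    intro m C hC h
    have hC' : C = ∅ := Finset.card_eq_zero.1 (by omega)
    subst hC'
    rw [search_zero]
    by_cases h1 : low m < 32
    · have := h ⟨low m, h1⟩
      simp at this
      simp [this]
    · have : Nat.blt (low m) 32 = false := by
        rw [← Bool.not_eq_true, Nat.blt_eq]; exact h1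
      simp [this]
  | succ k ih =>
    intro m C hC h
    rw [search_succ]
    by_cases h1 : low m < 32
    swap
    · have : Nat.blt (low m) 32 = false := by
        rw [← Bool.not_eq_true, Nat.blt_eq]; exact h1
      simp [this]
    rcases h ⟨low m, h1⟩ with h3 | ⟨c, hc, h3⟩
    · simp at h3
      simp [h3]
    · obtain ⟨b, rfl⟩ := dec_surj c
      have h4 := (dec_near _ _ h3).1
      have h5 : search k (m ||| B b.val) = false := by
        apply ih _ (C.erase (dec b))
        · rw [Finset.card_erase_of_mem hc]; omega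
        · intro v
          rcases h v with h6 | ⟨c, hc', h6⟩
          · left; simp [h6]
          · by_cases hcb : c = dec b
            · subst hcb
              left
              simp [(dec_near _ _ h6).2]
            · right; exact ⟨c, Finset.mem_erase.2 ⟨hcb, hc'⟩, h6⟩
      have h7 : (nb (low m)).all (fun c => search k (m ||| B c)) = false := by
        rw [List.all_eq_false]
        exact ⟨b.val, h4, by simp [h5]⟩
      rw [h7]; simp

/-- The negation of the preceding statement: For all d and l<d: the least number of l-dimensional affine subspaces missing the unit d-cube that illuminate all its boundary points equals the least size of a binary length-d code in which every word is within Hamming distance l of a codeword. -/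
theorem result :
    ¬ (∀ d l : ℕ, l < d →
      sInf {n : ℕ | ∃ L : Fin n → AffineSubspace ℝ (Fin d → ℝ),
          (∀ i, Module.finrank ℝ (L i).direction = l ∧
              ∀ y ∈ L i, ¬ (∀ j, 0 ≤ y j ∧ y j ≤ 1)) ∧
          ∀ x : Fin d → ℝ, (∀ j, 0 ≤ x j ∧ x j ≤ 1) → ¬ (∀ j, 0 < x j ∧ x j < 1) →
            ∃ i, ∃ y ∈ L i, ∃ t : ℝ, 0 < t ∧
              ∀ j, 0 < (x + t • (x - y)) j ∧ (x + t • (x - y)) j < 1}
        =
      sInf {n : ℕ | ∃ C : Finset (Fin d → Bool), C.card = n ∧
          ∀ w : Fin d → Bool, ∃ c ∈ C, hammingDist w c ≤ l}) := by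
  intro h
  have h1 := h 5 1 (by norm_num)
  have h2 := Nat.sInf_le upper
  rw [h1] at h2
  have hne : {n : ℕ | ∃ C : Finset (Fin 5 → Bool), C.card = n ∧
          ∀ w : Fin 5 → Bool, ∃ c ∈ C, hammingDist w c ≤ 1}.Nonempty :=
    ⟨_, Finset.univ, rfl, fun w => ⟨w, Finset.mem_univ _, by simp⟩⟩
  obtain ⟨C, hC, hcov⟩ := Nat.sInf_mem hne
  have h3 := search_false 6 0 C (by omega) (fun w => Or.inr (hcov _))
  rw [search_six] at h3
  exact absurd h3 (by simp)

end Pool.Agent.S08682
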