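import Pool.Statements.S08686
-- import your own Pool.Agent.* helpers here

set_option autoImplicit false
open Pool Pool.MP_4e7ec3_co

namespace Pool.Agent.S08686

noncomputable def T (p : ℝ) : ℝ :=
  if p < 1 / 2 then (if p = 1 / 10 then 2 / 10 else 1 / 10) else (if p = 9 / 10 then 8 / 10 else 9 / 10)

noncomputable def F : Finset ℝ := by
  classical exact {0, 1 / 10, 2 / 10, 3 / 10, 7 / 10, 8 / 10, 9 / 10, 1}

lemma mem (p : ℝ) : p ∈ F ↔ p = 0 ∨ p = 1 / 10 ∨ p = 2 / 10 ∨ p = 3 / 10 ∨ p = 7 / 10 ∨ p = 8 / 10 ∨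
    p = 9 / 10 ∨ p = 1 := by simp only [F, Finset.mem_insert, Finset.mem_singleton]

lemma gap (p : ℝ) (h : p ∈ F) : (0 ≤ p ∧ p ≤ 3 / 10) ∨ (7 / 10 ≤ p ∧ p ≤ 1) := by
  rcases (mem p).1 h with rfl | rfl | rfl | rfl | rfl | rfl | rfl | rfl <;> norm_num

lemma hT : ∀ p ∈ F, T p ∈ F ∧ 1 / 20 < |p - T p| := by
  intro p h
  rcases (mem p).1 h with rfl | rfl | rfl | rfl | rfl | rfl | rfl | rfl <;>
    norm_num [T, mem, abs_of_pos, abs_of_neg]

lemma lo (p : ℝ) (h : p < 1 / 2) : T p < 3 / 10 := by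
  unfold T; rw [if_pos h]; split_ifs <;> norm_num

lemma hi (p : ℝ) (h : ¬ p < 1 / 2) : 7 / 10 < T p := by
  unfold T; rw [if_neg h]; split_ifs <;> norm_num

/-- The negation of the preceding statement: There is a constant k such that for every finite F in [0,1] containing 0 and 1, every ε>0, and every T:F→F moving each point by more than ε, some p₀ in F reaches a point at distance at least 1/3 in at most k/ε steps, each step going to T(p) or a neighbour of T(p) in F. -/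
theorem result :
    ¬ (∃ k : ℝ, ∀ (F : Finset ℝ) (ε : ℝ) (T : ℝ → ℝ),
      (∀ p ∈ F, 0 ≤ p ∧ p ≤ 1) → (0 : ℝ) ∈ F → (1 : ℝ) ∈ F → 0 < ε →
      (∀ p ∈ F, T p ∈ F ∧ ε < |p - T p|) →
      ∃ p₀ ∈ F, ∃ n : ℕ, (n : ℝ) ≤ k / ε ∧
        ∃ x : ℕ → ℝ, x 0 = p₀ ∧
          (∀ i < n,
            x (i + 1) = T (x i) ∨
            (x (i + 1) ∈ F ∧ x (i + 1) < T (x i) ∧
              ∀ r ∈ F, r < T (x i) → r ≤ x (i + 1)) ∨
            (x (i + 1) ∈ F ∧ T (x i) < x (i + 1) ∧
              ∀ r ∈ F, T (x i) < r → x (i + 1) ≤ r)) ∧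
          1 / 3 ≤ |x n - p₀|) := by
  rintro ⟨k, h⟩
  obtain ⟨p, hp, n, -, x, x0, hx, hn⟩ := h F (1 / 20) T
    (fun p hp => by rcases gap p hp with h | h <;> constructor <;> linarith [h.1, h.2])
    (by simp [mem]) (by simp [mem]) (by norm_num) hT
  have key : ∀ i ≤ n, x i ∈ F ∧ (x i < 1 / 2 ↔ p < 1 / 2) := by
    intro i
    induction i with
    | zero => intro _; rw [x0]; exact ⟨hp, Iff.rfl⟩
    | succ i ih =>
      intro hi'
      obtain ⟨h1, h2⟩ := ih (by omega)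
      rw [← h2]
      by_cases c : x i < 1 / 2
      · have := lo _ c
        rcases hx i (by omega) with a | ⟨a, b, d⟩ | ⟨a, b, d⟩
        · exact ⟨a ▸ (hT _ h1).1, iff_of_true (by linarith) c⟩
        · exact ⟨a, iff_of_true (by linarith) c⟩
        · exact ⟨a, iff_of_true (by linarith [d (3 / 10) (by simp [mem]) this]) c⟩
      · have := hi _ c
        rcases hx i (by omega) with a | ⟨a, b, d⟩ | ⟨a, b, d⟩
        · exact ⟨a ▸ (hT _ h1).1, iff_of_false (by linarith) c⟩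
        · exact ⟨a, iff_of_false (by linarith [d (7 / 10) (by simp [mem]) this]) c⟩
        · exact ⟨a, iff_of_false (by linarith) c⟩
  obtain ⟨h1, h2⟩ := key n le_rfl
  rcases gap _ h1 with a | a <;> rcases gap _ hp with b | b
  · rcases le_abs.1 hn with c | c <;> linarith [a.1, a.2, b.1, b.2]
  · linarith [h2.1 (by linarith [a.2]), b.1]
  · linarith [h2.2 (by linarith [b.2]), a.1]
  · rcases le_abs.1 hn with c | c <;> linarith [a.1, a.2, b.1, b.2]

end Pool.Agent.S08686
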