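import Pool.Statements.S08767
import Pool.Agent.Lib.helper17.Ramsey

set_option autoImplicit false
open Pool Pool.MP_52f1b6_co

namespace Pool.Agent.S08767

section
open Finset H17Ramsey

def Hom {β : Type} (t N : ℕ) (φ : Finset ℕ → β) : Prop :=
  ∀ s < t, ∀ g g' : Fin s → ℕ, StrictMono g → StrictMono g' → (∀ i, g i < N) → (∀ i, g' i < N) →
    ∀ A B : Finset (Fin s), φ (A.image g) = φ (B.image g) → φ (A.image g') = φ (B.image g')

theorem hom (k t N : ℕ) : ∃ n0, ∀ n, n0 + k ≤ n → ∀ K : Finset (Fin n), #K = k →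
    ∀ (β : Type) (c : Finset (Fin n) → β), Nonempty (Fin n) → ∃ Z : ℕ → Fin n,
      Set.InjOn Z (range N) ∧ (∀ i < N, Z i ∉ K) ∧
      ∀ J ⊆ K, Hom t N fun A => c (J ∪ A.image Z) := by
  classical
  obtain ⟨n0, h⟩ := ramsey_le ((s : Fin t) → Finset (Fin k) → Finset (Fin s) → Finset (Fin s) → Prop)
    t N
  refine ⟨n0, fun n hn K hK β c ⟨d⟩ => ?_⟩
  obtain ⟨Y, a1, a2, a3⟩ := h (Fin n) Kᶜ (fun S s J A B => ∃ e : #S = s,
    c (J.image (K.orderEmbOfFin hK) ∪ A.image (S.orderEmbOfFin e)) =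
      c (J.image (K.orderEmbOfFin hK) ∪ B.image (S.orderEmbOfFin e)))
    (by rw [card_compl, Fintype.card_fin]; omega)
  let Z : ℕ → Fin n := fun i => if e : i < N then Y.orderEmbOfFin a2 ⟨i, e⟩ else d
  have z1 : ∀ i < N, Z i ∈ Y := fun i e => by simp [Z, e]
  have z2 : ∀ i j, i < j → j < N → Z i < Z j := fun i j e f => by simp [Z, e, f, e.trans f]
  refine ⟨Z, StrictMonoOn.injOn fun i _ j f e => z2 i j e (by simpa using f),
    fun i e => mem_compl.mp (a1 (z1 i e)), fun J hJ s hs g g' m m' b b' A B e => ?_⟩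
  obtain ⟨J, rfl⟩ : ∃ J0 : Finset (Fin k), J0.image (K.orderEmbOfFin hK) = J := by
    rw [← image_orderEmbOfFin_univ K hK] at hJ
    exact (subset_image_iff.mp hJ).imp fun _ h => h.2
  have w : ∀ g : Fin s → ℕ, StrictMono g → (∀ i, g i < N) → ∃ S ⊆ Y, ∃ e : #S = s,
      Z ∘ g = S.orderEmbOfFin e := fun g m b => by
    have m2 : StrictMono (Z ∘ g) := fun i j e => z2 _ _ (m e) (b j)
    exact ⟨univ.image (Z ∘ g), image_subset_iff.mpr fun i _ => z1 _ (b i),
      by rw [card_image_of_injective _ m2.injective, card_fin],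
      orderEmbOfFin_unique _ (fun i => mem_image_of_mem _ (mem_univ i)) m2⟩
  obtain ⟨S, c1, c2, c3⟩ := w g m b
  obtain ⟨S', d1, d2, d3⟩ := w g' m' b'
  simp only [image_image, c3, d3] at e ⊢
  exact ((congrFun (congrFun (congrFun (congrFun (a3 S c1 S' d1 (c2.trans d2.symm) (c2 ▸ hs))
    ⟨s, hs⟩) J) A) B).mp ⟨c2, e⟩).2

def rk (S : Finset ℕ) (x : ℕ) : ℕ := #{y ∈ S | y < x}

theorem rk_emb (S : Finset ℕ) {s : ℕ} (h : #S = s) (j : Fin s) : rk S (S.orderEmbOfFin h j) = j := by
  have e := image_orderEmbOfFin_univ S h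
  generalize S.orderEmbOfFin h = g at *
  rw [rk, ← e, filter_image, card_image_of_injective _ g.injective, ← Fin.card_Iio]
  congr 1
  ext; simp

theorem rk_split (S : Finset ℕ) (x : ℕ) (h : x ∈ S) : rk S x + 1 + #{y ∈ S | x < y} = #S := by
  rw [← card_filter_add_card_filter_not (s := S) (· < x), rk, add_assoc, add_comm 1,
    ← card_insert_of_notMem (a := x) (by simp)]
  congr 2
  ext; grind

theorem er (S : Finset ℕ) {s : ℕ} (h : #S = s) (j : Fin s) :
    S.erase (S.orderEmbOfFin h j) = (univ.erase j).image (S.orderEmbOfFin h) := by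
  rw [image_erase (RelEmbedding.injective _), image_orderEmbOfFin_univ]

theorem pre (S : Finset ℕ) {s : ℕ} (h : #S = s) (x : ℕ) (hx : x ∈ S) :
    ∃ j, S.orderEmbOfFin h j = x := by
  have e := image_orderEmbOfFin_univ S h
  generalize S.orderEmbOfFin h = g at *
  rw [← e] at hx
  simpa using hx

theorem const {β : Type} (φ : Finset ℕ → β) (k l t N : ℕ) (hl : k < l) (ht : 2 * k + 1 < t)
    (hN : l + 2 * k + 2 ≤ N) (H : Hom t N φ)
    (cube : ∀ (L D : Finset ℕ) (b : ℕ → ℕ), L ⊆ range N → #L = l → D ⊆ L → #D = k + 1 →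
      Set.InjOn b D → (∀ d ∈ D, b d ∉ L ∧ b d < N) → ∃ E ⊆ D, E.Nonempty ∧
        ∀ T ⊆ (L \ E) ∪ E.image b, #T = k → ∃ T' ⊆ L, #T' = k ∧ φ T = φ T') :
    ∀ A ⊆ range N, #A = k → φ A = φ (range k) := by
  intro A a1 a2
  refine johnson (range N) k φ (fun T0 t1 t2 x hx y hy nx ny => by_contra fun hne => ?_) _
    (range_subset_range.mpr (by omega)) (card_range k) _ A a1 a2 rfl
  have xy : x ≠ y := by rintro rfl; exact hne rfl
  have s1 : #(insert x (insert y T0)) = k + 1 := by
    rw [card_insert_of_notMem (by simp [xy, nx]), card_insert_of_notMem ny, t2]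
  have s2 : insert x (insert y T0) ⊆ range N := insert_subset hx (insert_subset hy t1)
  rw [← erase_insert (s := insert y T0) (a := x) (by simp [xy, nx]),
    ← erase_insert (s := insert x T0) (a := y) (by simp [xy.symm, ny]), insert_comm y] at hne
  have mx := mem_insert_self x (insert y T0)
  have my : y ∈ insert x (insert y T0) := by simp
  generalize insert x (insert y T0) = S at *
  obtain ⟨i, hi⟩ : ∃ i : Fin k, φ (S.erase (S.orderEmbOfFin s1 i.succ)) ≠
      φ (S.erase (S.orderEmbOfFin s1 i.castSucc)) := by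
    by_contra h
    push Not at h
    have : ∀ j, φ (S.erase (S.orderEmbOfFin s1 j)) = φ (S.erase (S.orderEmbOfFin s1 0)) :=
      fun j => Fin.induction rfl (fun i ih => (h i).trans ih) j
    obtain ⟨j, rfl⟩ := pre S s1 x mx
    obtain ⟨j', rfl⟩ := pre S s1 y my
    exact hne ((this _).trans (this _).symm)
  obtain ⟨i, ik⟩ := i
  clear hne mx my xy nx ny hx hy t1 t2 a1 a2
  obtain ⟨Lf, Lm, Lc⟩ : ∃ Lf : ℕ → Finset ℕ, (∀ m x, x ∈ Lf m ↔
      x ≤ i ∨ i + 1 + (2 * k + 2) ≤ x ∧ x < m + (2 * k + 2)) ∧ ∀ m, i + 1 ≤ m → #(Lf m) = m := by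
    refine ⟨fun m => range (i + 1) ∪ Ico (i + 1 + (2 * k + 2)) (m + (2 * k + 2)), by simp,
      fun m h => ?_⟩
    rw [card_union_of_disjoint (disjoint_left.mpr (by simp; omega)), card_range, Nat.card_Ico]
    omega
  obtain ⟨b, b1, b2⟩ : ∃ b : ℕ → ℕ, Set.InjOn b (Lf (k + 1)) ∧
      ∀ x ∈ Lf (k + 1), ∃ j ≤ k, b x = i + 1 + 2 * j := by
    refine ⟨fun x => i + 1 + 2 * if x ≤ i then x else x - (2 * k + 2), fun x hx y hy => ?_,
      fun x hx => ⟨_, ?_, rfl⟩⟩
    · rw [mem_coe, Lm] at hx hy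
      dsimp only
      split_ifs <;> omega
    · rw [Lm] at hx
      split_ifs <;> omega
  have b3 : ∀ x ∈ Lf (k + 1), b x ∉ Lf l ∧ b x < N := fun x hx => by
    obtain ⟨j, c, e⟩ := b2 x hx
    rw [Lm]; omega
  have b4 : Lf (k + 1) ⊆ Lf l := fun x => by rw [Lm, Lm]; omega
  obtain ⟨E, e1, ⟨d, e2⟩, e3⟩ := cube (Lf l) (Lf (k + 1)) b
    (fun x => by rw [Lm, mem_range]; omega) (Lc _ (by omega)) b4 (Lc _ (by omega)) b1 b3
  have e4 : #(Lf l \ E ∪ E.image b) = l := by
    rw [card_union_of_disjoint (disjoint_left.mpr fun x hx h => by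
      obtain ⟨y, hy, rfl⟩ := mem_image.mp h
      exact (b3 y (e1 hy)).1 (mem_sdiff.mp hx).1), card_image_of_injOn
      (b1.mono e1), card_sdiff_add_card_eq_card (e1.trans b4), Lc _ (by omega)]
  have e5 : ∀ x ∈ Lf l \ E ∪ E.image b, (x ≤ i ∨ i + 1 + (2 * k + 2) ≤ x ∧ x < l + (2 * k + 2)) ∨
      ∃ j ≤ k, x = i + 1 + 2 * j := fun x hx => by
    rcases mem_union.mp hx with h | h
    · exact Or.inl ((Lm _ _).mp (mem_sdiff.mp h).1)
    · obtain ⟨y, hy, rfl⟩ := mem_image.mp h
      exact Or.inr (b2 y (e1 hy))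
  have e6 : b d ∈ Lf l \ E ∪ E.image b := mem_union_right _ (mem_image_of_mem _ e2)
  obtain ⟨j0, e7, e8⟩ := b2 d (e1 e2)
  generalize Lf l \ E ∪ E.image b = L at *
  clear cube b1 b2 b3 b4 Lc e1 e2
  have e9 : ∀ x ∈ L, x < l + (2 * k + 2) := fun x hx => by
    rcases e5 x hx with h | ⟨j, h, h'⟩ <;> omega
  obtain ⟨z, z1, ⟨j, z2, z3⟩, z4, z5⟩ : ∃ z ∈ L, (∃ j ≤ k, z = i + 1 + 2 * j) ∧ i ≤ rk L z ∧
      rk L z ≤ i + 1 := by
    obtain ⟨ρ, hρ⟩ := pre L e4 _ e6
    have w1 := L.orderEmbOfFin_mem e4 ⟨i, by omega⟩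
    have w2 := L.orderEmbOfFin_mem e4 ⟨i + 1, by omega⟩
    have r1 : _ = i := rk_emb L e4 ⟨i, by omega⟩
    have r2 : _ = i + 1 := rk_emb L e4 ⟨i + 1, by omega⟩
    rcases e5 _ w1 with c1 | c1
    swap
    · exact ⟨_, w1, c1, r1.ge, r1.le.trans (Nat.le_succ _)⟩
    rcases e5 _ w2 with c2 | c2
    swap
    · exact ⟨_, w2, c2, (Nat.le_succ _).trans r2.ge, r2.le⟩
    exfalso
    by_cases h : ρ.1 ≤ i
    · have m := (L.orderEmbOfFin e4).monotone (show ρ ≤ ⟨i, by omega⟩ from h)
      have a := rk_split L _ w1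
      have := card_le_card (show {y ∈ L | L.orderEmbOfFin e4 ⟨i, by omega⟩ < y} ⊆
        Ioo (L.orderEmbOfFin e4 ⟨i, by omega⟩) (l + (2 * k + 2)) from fun x hx =>
          mem_Ioo.mpr ⟨(mem_filter.mp hx).2, e9 x (mem_filter.mp hx).1⟩)
      rw [Nat.card_Ioo] at this
      rw [hρ] at m
      omega
    · have m := (L.orderEmbOfFin e4).monotone (show ⟨i + 1, by omega⟩ ≤ ρ from not_le.mp h)
      have := card_le_card (show {y ∈ L | y < L.orderEmbOfFin e4 ⟨i + 1, by omega⟩} ⊆
        range (L.orderEmbOfFin e4 ⟨i + 1, by omega⟩) from fun x hx =>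
          mem_range.mpr (mem_filter.mp hx).2)
      rw [card_range] at this
      unfold rk at r2
      rw [hρ] at m
      omega
  obtain ⟨P, p1, p2⟩ := exists_subset_card_eq z4
  obtain ⟨Q, q1, q2⟩ := exists_subset_card_eq (s := {y ∈ L | z < y}) (n := k - 1 - i)
    (by have := rk_split L z z1; omega)
  have nz : z + 1 ∉ L := fun h => by rcases e5 _ h with h | ⟨j, h, h'⟩ <;> omega
  replace p1 := fun x hx => mem_filter.mp (@p1 x hx)
  replace q1 := fun x hx => mem_filter.mp (@q1 x hx)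
  have c0 : #(insert z (P ∪ Q)) = k := by
    rw [card_insert_of_notMem (fun h => (mem_union.mp h).elim (fun h => (p1 _ h).2.false)
      fun h => (q1 _ h).2.false), card_union_of_disjoint (disjoint_left.mpr fun x a b =>
        ((p1 _ a).2.trans (q1 _ b).2).false)]
    omega
  have c1 : insert z (P ∪ Q) ⊆ L :=
    insert_subset z1 (union_subset (fun x h => (p1 x h).1) fun x h => (q1 x h).1)
  obtain ⟨T', c2, c3, c4⟩ := e3 _ c1 c0
  have c5 : #(insert (z + 1) (insert z (P ∪ Q))) = k + 1 := by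
    rw [card_insert_of_notMem fun h => nz (c1 h), c0]
  clear e3
  have c6 : rk (insert (z + 1) (insert z (P ∪ Q))) z = i := by
    rw [← p2]
    refine congrArg card (Finset.ext fun x => ?_)
    have := p1 x; have := q1 x
    simp only [mem_filter, mem_insert, mem_union]
    by_cases a : x ∈ P <;> by_cases b : x ∈ Q <;> simp only [a, b] at * <;> simp at * <;> omega
  have c7 : rk (insert (z + 1) (insert z (P ∪ Q))) (z + 1) = i + 1 := by
    rw [← p2, ← card_insert_of_notMem (a := z) (fun h => (p1 _ h).2.false)]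
    refine congrArg card (Finset.ext fun x => ?_)
    have := p1 x; have := q1 x
    simp only [mem_filter, mem_insert, mem_union]
    by_cases a : x ∈ P <;> by_cases b : x ∈ Q <;> simp only [a, b] at * <;> simp at * <;> omega
  have c8 : ∀ x ∈ insert z (P ∪ Q) ∪ T', x < N ∧ x ≠ z + 1 := fun x h => by
    rcases mem_union.mp h with h | h
    · exact ⟨by have := e9 x (c1 h); omega, fun e => nz (e ▸ c1 h)⟩
    · have := (Lm _ _).mp (c2 h); omega
  have c9 : z ∉ T' := fun h => by have := (Lm _ _).mp (c2 h); omega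
  have c10 : z ∈ insert z (P ∪ Q) := mem_insert_self _ _
  generalize insert z (P ∪ Q) = T at *
  have zN : z + 1 < N := by omega
  clear Lm e5 e9 p1 q1 c1 c2 e6 z1 z4 z5 nz e4 z3 e8
  let g := (T ∪ T').orderEmbOfFin rfl
  let u : ℕ → ℕ := fun x => if x = z then z + 1 else x
  have g1 := fun j => c8 (g j) (orderEmbOfFin_mem _ _ _)
  have g2 : ∀ X ⊆ T ∪ T', ({j | g j ∈ X} : Finset _).image g = X := fun X h => by
    rw [← filter_image (p := (· ∈ X)), image_orderEmbOfFin_univ, filter_mem_eq_inter,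
      inter_eq_right.mpr h]
  have k1 := H _ ((card_union_le _ _).trans_lt (by omega)) g (u ∘ g) g.strictMono
    (fun p q h => by
      have := g.strictMono h; have := g1 q; simp only [u, Function.comp]; split_ifs <;> omega)
    (fun j => (g1 j).1) (fun p => by
      have := g1 p; simp only [u, Function.comp]; split_ifs <;> omega) {j | g j ∈ T} {j | g j ∈ T'}
    (by rwa [g2 _ subset_union_left, g2 _ subset_union_right])
  have nz : z + 1 ∉ T := fun h => (c8 _ (mem_union_left _ h)).2 rfl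
  rw [← image_image, ← image_image, g2 _ subset_union_left, g2 _ subset_union_right,
    show T'.image u = T' by
      exact (image_congr (g := id) fun x h => if_neg fun (e : x = z) => c9 (e ▸ h)).trans image_id, ← c4,
    show T.image u = (insert (z + 1) T).erase z by
      clear k1 g1 g2 c8 H hi; ext; grind] at k1
  obtain ⟨j1, f1⟩ := pre _ c5 z (mem_insert_of_mem c10)
  obtain ⟨j2, f2⟩ := pre _ c5 (z + 1) (mem_insert_self _ _)
  obtain rfl : j1 = Fin.castSucc ⟨i, ik⟩ :=
    Fin.ext ((rk_emb _ c5 j1).symm.trans (by rw [f1]; exact c6))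
  obtain rfl : j2 = Fin.succ ⟨i, ik⟩ :=
    Fin.ext ((rk_emb _ c5 j2).symm.trans (by rw [f2]; exact c7))
  rw [er, er] at hi
  refine hi (H _ (by omega) _ _ (orderEmbOfFin _ c5).strictMono (orderEmbOfFin _ s1).strictMono
    (fun j => ?_) (fun j => mem_range.mp (s2 (orderEmbOfFin_mem _ _ _))) _ _ ?_)
  · rcases mem_insert.mp (orderEmbOfFin_mem _ c5 j) with h | h
    · exact h.trans_lt zN
    · exact (c8 _ (mem_union_left _ h)).1
  · rw [← er, ← er, f1, f2, k1, erase_insert nz]

theorem alt (k : ℕ) (L D : Finset ℕ) (b : ℕ → ℕ) (h1 : D ⊆ L) (h2 : #D = k + 1)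
    (h3 : Set.InjOn b D) (h4 : ∀ d ∈ D, b d ∉ L) (f : Finset ℕ → ℚ) :
    ∑ E ∈ D.powerset, (-1) ^ #E * ∑ T ∈ powersetCard k (L \ E ∪ E.image b), f T = 0 := by
  have : ∀ E ∈ D.powerset, (-1) ^ #E * ∑ T ∈ powersetCard k (L \ E ∪ E.image b), f T =
      ∑ T ∈ powersetCard k (L ∪ D.image b), (-1) ^ #E *
        if T ⊆ L \ E ∪ E.image b then f T else 0 := by
    intro E hE
    rw [← mul_sum, ← sum_filter]
    congr 2
    have : L \ E ∪ E.image b ⊆ L ∪ D.image b :=
      union_subset_union sdiff_subset (image_subset_image (mem_powerset.mp hE))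
    ext T
    simp only [mem_powersetCard, mem_filter]
    exact ⟨fun h => ⟨⟨h.1.trans this, h.2⟩, h.1⟩, fun h => ⟨h.2, h.1.2⟩⟩
  rw [sum_congr rfl this, sum_comm]
  refine sum_eq_zero fun T hT => ?_
  obtain ⟨d, d1, d2⟩ : ∃ d ∈ D, d ∉ T ∧ b d ∉ T := by
    by_contra h
    have := card_le_card_of_injOn (s := D) (t := T) (fun d => if d ∈ T then d else b d)
      (by intro x; grind) (by intro x hx y hy; have := @h3 x hx y hy; grind)
    have := (mem_powersetCard.mp hT).2
    omega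
  rw [← insert_erase d1, sum_powerset_insert (notMem_erase _ _), ← sum_add_distrib]
  refine sum_eq_zero fun E hE => ?_
  have : d ∉ E := fun h => notMem_erase _ _ (mem_powerset.mp hE h)
  rw [card_insert_of_notMem this, if_congr (show T ⊆ L \ insert d E ∪ (insert d E).image b ↔
    T ⊆ L \ E ∪ E.image b by simp only [subset_iff]; grind) rfl rfl]
  ring

theorem cu {α : Type} [DecidableEq α] {N : ℕ} {Z : ℕ → α} {K J : Finset α} {T : Finset ℕ}
    (h1 : Set.InjOn Z (range N)) (h2 : ∀ i < N, Z i ∉ K) (hJ : J ⊆ K) (hT : T ⊆ range N) :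
    #(J ∪ T.image Z) = #J + #T := by
  rw [card_union_of_disjoint (disjoint_left.mpr (by grind)), card_image_of_injOn (h1.mono hT)]

theorem dec {α : Type} [DecidableEq α] {N : ℕ} {Z : ℕ → α} {K J : Finset α} {A : Finset ℕ} {k : ℕ}
    (h1 : Set.InjOn Z (range N)) (h2 : ∀ i < N, Z i ∉ K) (hJ : J ⊆ K) (hk : #K = k)
    (hA : A ⊆ range N) (f : Finset α → ℚ) : ∑ K' ∈ powersetCard k (J ∪ A.image Z), f K' =
      ∑ J' ∈ J.powerset, ∑ T ∈ powersetCard (k - #J') A, f (J' ∪ T.image Z) := by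
  rw [sum_sigma']
  symm
  refine sum_nbij' (fun p => p.1 ∪ p.2.image Z) (fun K' => ⟨K' ∩ J, {i ∈ A | Z i ∈ K'}⟩) ?_ ?_ ?_ ?_
    fun _ _ => rfl
  · simp only [mem_sigma, mem_powerset, mem_powersetCard]
    rintro ⟨J', T⟩ ⟨a, b, c⟩
    refine ⟨union_subset_union a (image_subset_image b), ?_⟩
    have := card_le_card (a.trans hJ)
    rw [cu h1 h2 (a.trans hJ) (b.trans hA), c]
    dsimp only at *
    omega
  · simp only [mem_sigma, mem_powerset, mem_powersetCard]
    rintro K' ⟨a, b⟩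
    refine ⟨inter_subset_right, filter_subset _ _, ?_⟩
    have := cu h1 h2 ((inter_subset_right (s₁ := K')).trans hJ)
      ((filter_subset (fun i => Z i ∈ K') A).trans hA)
    rw [show K' ∩ J ∪ image Z {i ∈ A | Z i ∈ K'} = K' by ext; grind] at this
    omega
  · simp only [mem_sigma, mem_powerset, mem_powersetCard]
    rintro ⟨J', T⟩ ⟨a, b, c⟩
    dsimp only at *
    congr 1
    · ext; grind
    · ext x
      simp only [mem_filter, mem_union, mem_image]
      refine ⟨fun ⟨d, e⟩ => ?_, fun d => ⟨b d, Or.inr ⟨x, d, rfl⟩⟩⟩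
      rcases e with e | ⟨y, e, f⟩
      · exact absurd (hJ (a e)) (h2 x (mem_range.mp (hA d)))
      · exact h1 (hA (b e)) (hA d) f ▸ e
  · simp only [mem_powersetCard]
    rintro K' ⟨a, b⟩
    ext; grind

def sch {n r : ℕ} (c : Finset (Fin n) → Fin r) (k : ℕ) (L : Finset (Fin n)) (i : Fin r) : ℕ :=
  ((L.powersetCard k).filter (fun K => c K = i)).card

theorem sch_sum {n r : ℕ} (c : Finset (Fin n) → Fin r) (k : ℕ) (L : Finset (Fin n)) (f : Fin r → ℚ) :
    ∑ K ∈ L.powersetCard k, f (c K) = ∑ i, f i * sch c k L i := by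
  rw [← sum_fiberwise _ c]
  refine sum_congr rfl fun i _ => ?_
  rw [sum_congr rfl fun K hK => by rw [(mem_filter.mp hK).2], sum_const, nsmul_eq_mul, mul_comm, sch]

theorem ind {n r k l : ℕ} (hl : k ≤ l) (hn : k + l ≤ n) (c : Finset (Fin n) → Fin r)
    (h1 : ∀ i : Fin r, ∃ K : Finset (Fin n), K.card = k ∧ c K = i)
    (h2 : #(({L | #L = l} : Finset _).image (sch c k)) = r) (L0 : Finset (Fin n)) (h0 : #L0 = l) :
    ∃ f : Fin r → ℚ, ∀ L, #L = l →
      ∑ K ∈ L.powersetCard k, f (c K) = if sch c k L = sch c k L0 then 1 else 0 := by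
  let Φ : (Fin r → ℚ) →ₗ[ℚ] (({L | #L = l} : Finset _).image (sch c k) → ℚ) :=
    { toFun := fun f σ => ∑ i, f i * σ.1 i
      map_add' := fun f g => by ext; simp [add_mul, sum_add_distrib]
      map_smul' := fun a f => by ext; simp [mul_sum, mul_assoc] }
  have inj : Function.Injective Φ := (injective_iff_map_eq_zero _).mpr fun f hf => funext fun i => by
    obtain ⟨K, a, rfl⟩ := h1 i
    exact incl k l univ (fun K => f (c K)) hl (by simpa using hn) (fun L _ b => (sch_sum c k L f).trans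
      (congrFun hf ⟨_, mem_image_of_mem _ (by simpa using b)⟩)) K (subset_univ _) a
  obtain ⟨f, hf⟩ := (LinearMap.injective_iff_surjective_of_finrank_eq_finrank (by
    rw [Module.finrank_pi, Module.finrank_pi, Fintype.card_coe, h2, Fintype.card_fin])).mp inj
    fun σ => if σ.1 = sch c k L0 then 1 else 0
  exact ⟨f, fun L b => (sch_sum c k L f).trans
    (congrFun hf ⟨_, mem_image_of_mem _ (by simpa using b)⟩)⟩

theorem allconst {n r k l N : ℕ} (hl : k < l) (hn : k + l ≤ n) (hN : l + 2 * k + 2 ≤ N)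
    (c : Finset (Fin n) → Fin r) (h1 : ∀ i : Fin r, ∃ K : Finset (Fin n), K.card = k ∧ c K = i)
    (h2 : #(({L | #L = l} : Finset _).image (sch c k)) = r) {Z : ℕ → Fin n} {K : Finset (Fin n)}
    (hK : #K = k) (z1 : Set.InjOn Z (range N)) (z2 : ∀ i < N, Z i ∉ K)
    (H : ∀ J ⊆ K, Hom (2 * k + 2) N fun A => c (J ∪ A.image Z)) (J : Finset (Fin n)) :
    J ⊆ K → ∀ A ⊆ range N, #A = k - #J → c (J ∪ A.image Z) = c (J ∪ (range (k - #J)).image Z) := by
  induction J using Finset.strongInduction with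
  | H J ih =>
  intro hJ
  have jk := card_le_card hJ
  refine const _ _ (l - #J) _ N (by omega) (by omega) (by omega) (H J hJ)
    fun L D b a1 a2 a3 a4 a5 a6 => ?_
  have S : ∀ f : Fin r → ℚ, ∃ C, ∀ A ⊆ range N, #A = l - #J →
      ∑ K' ∈ powersetCard k (J ∪ A.image Z), f (c K') =
        ∑ T ∈ powersetCard (k - #J) A, f (c (J ∪ T.image Z)) + C := fun f => by
    refine ⟨∑ J' ∈ J.powerset.erase J, ((l - #J).choose (k - #J') : ℚ) *
      f (c (J' ∪ (range (k - #J')).image Z)), fun A b1 b2 => ?_⟩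
    rw [dec z1 z2 hJ hK b1, ← add_sum_erase _ _ (mem_powerset_self J)]
    congr 1
    refine sum_congr rfl fun J' h => ?_
    have h' : J' ⊂ J := Finset.ssubset_iff_subset_ne.mpr
      ⟨mem_powerset.mp (mem_of_mem_erase h), ne_of_mem_erase h⟩
    rw [sum_congr rfl fun T hT => by rw [ih J' h' (h'.subset.trans hJ) T
      ((mem_powersetCard.mp hT).1.trans b1) (mem_powersetCard.mp hT).2], sum_const,
      card_powersetCard, b2, nsmul_eq_mul]
  have e1 : ∀ E ⊆ D, L \ E ∪ E.image b ⊆ range N ∧ #(L \ E ∪ E.image b) = l - #J := fun E hE =>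
    ⟨by intro x; grind, by
      rw [card_union_of_disjoint (disjoint_left.mpr (by grind)), card_image_of_injOn
        (a5.mono hE), card_sdiff_add_card_eq_card (hE.trans a3), a2]⟩
  have e2 : ∀ A ⊆ range N, #A = l - #J → #(J ∪ A.image Z) = l := fun A b1 b2 => by
    rw [cu z1 z2 hJ b1]; omega
  obtain ⟨E, b1, b2, b3⟩ : ∃ E ⊆ D, E.Nonempty ∧
      sch c k (J ∪ (L \ E ∪ E.image b).image Z) = sch c k (J ∪ L.image Z) := by
    by_contra h
    push Not at h
    obtain ⟨f, hf⟩ := ind hl.le hn c h1 h2 _ (e2 L a1 a2)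
    obtain ⟨C, hC⟩ := S f
    have := alt _ L D b a3 a4 a5 (fun d h => (a6 d h).1) fun T => f (c (J ∪ T.image Z))
    rw [sum_congr rfl fun E hE => by
      rw [← sub_eq_iff_eq_add.mpr (hC _ (e1 E (mem_powerset.mp hE)).1 (e1 E (mem_powerset.mp hE)).2),
        hf _ (e2 _ (e1 E (mem_powerset.mp hE)).1 (e1 E (mem_powerset.mp hE)).2), mul_sub],
      sum_sub_distrib, ← sum_mul, sum_eq_single ∅] at this
    · have d : ∑ E ∈ D.powerset, (-1 : ℚ) ^ #E = 0 := by
        exact_mod_cast sum_powerset_neg_one_pow_card_of_nonempty (card_pos.mp (by omega : 0 < #D))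
      simp [d] at this
    · intro E hE h0
      rw [if_neg (h E (mem_powerset.mp hE) (nonempty_iff_ne_empty.mpr h0)), mul_zero]
    · simp
  refine ⟨E, b1, b2, fun T t1 t2 => by_contra fun h => ?_⟩
  obtain ⟨C, hC⟩ := S fun i => if c (J ∪ T.image Z) = i then 1 else 0
  have p := hC _ (e1 E b1).1 (e1 E b1).2
  have q := hC L a1 a2
  rw [sch_sum c k _ fun i => if c (J ∪ T.image Z) = i then 1 else 0] at p q
  rw [b3, q, add_left_inj, sum_boole, sum_boole, Nat.cast_inj, filter_eq_empty_iff.mpr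
    fun T' hT e => h ⟨T', (mem_powersetCard.mp hT).1, (mem_powersetCard.mp hT).2, e⟩] at p
  exact filter_eq_empty_iff.mp (card_eq_zero.mp p.symm) (mem_powersetCard.mpr ⟨t1, t2⟩) rfl

end

/-- There is g(k,l) so that for k<l, n≥g(k,l), any colouring of k-subsets of an n-set using all r colours with exactly r distinct count-vectors on l-sets admits orderings making the colour-by-scheme count matrix upper triangular with nonzero diagonal. -/
theorem result :
    ∃ g : ℕ → ℕ → ℕ, ∀ k l : ℕ, k < l → ∀ n r : ℕ, g k l ≤ n →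
      ∀ c : Finset (Fin n) → Fin r,
        (∀ i : Fin r, ∃ K : Finset (Fin n), K.card = k ∧ c K = i) →
        (((Finset.univ : Finset (Finset (Fin n))).filter (fun L => L.card = l)).image
            (fun L => fun i : Fin r => ((L.powersetCard k).filter (fun K => c K = i)).card)).card = r →
        ∃ e : Fin r ≃ Fin r, ∃ σ : Fin r → Finset (Fin n),
          (∀ j, (σ j).card = l) ∧
          Function.Injective
            (fun j => fun i : Fin r => (((σ j).powersetCard k).filter (fun K => c K = i)).card) ∧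
          (∀ i j : Fin r, j < i →
            (((σ j).powersetCard k).filter (fun K => c K = e i)).card = 0) ∧
          (∀ j : Fin r,
            (((σ j).powersetCard k).filter (fun K => c K = e j)).card ≠ 0) := by
  choose n0 h0 using hom
  refine ⟨fun k l => n0 k (2 * k + 2) (l + 2 * k + 2) + k + l, fun k l hl n r hn c h1 h2 => ?_⟩
  replace hn : n0 k (2 * k + 2) (l + 2 * k + 2) + k + l ≤ n := hn
  have step : ∀ A : Finset (Fin r), ∃ j : Fin r → Fin r, ∃ L : Finset (Fin n), ∀ x ∉ A,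
      j x ∉ A ∧ L.card = l ∧ sch c k L (j x) ≠ 0 ∧ ∀ i ∉ insert (j x) A, sch c k L i = 0 := by
    intro A
    by_cases hA : ∃ x, x ∉ A
    swap
    · exact ⟨id, ∅, fun x h => absurd ⟨x, h⟩ hA⟩
    obtain ⟨x, hx⟩ := hA
    obtain ⟨K, hK, rfl⟩ := h1 x
    obtain ⟨Z, z1, z2, H⟩ := h0 k (2 * k + 2) (l + 2 * k + 2) n (by omega) K hK _ c ⟨⟨0, by omega⟩⟩
    have a := allconst hl (by omega) le_rfl c h1 h2 hK z1 z2 H
    obtain ⟨J, j1, j2⟩ := Finset.exists_min_image (K.powerset.filter fun J =>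
      c (J ∪ (Finset.range (k - J.card)).image Z) ∉ A) Finset.card ⟨K, by simpa [hK] using hx⟩
    simp only [Finset.mem_filter, Finset.mem_powerset] at j1 j2
    have jk := Finset.card_le_card j1.1
    have s1 : Finset.range (l - J.card) ⊆ Finset.range (l + 2 * k + 2) :=
      Finset.range_subset_range.mpr (by omega)
    have s2 : Finset.range (k - J.card) ⊆ Finset.range (l - J.card) :=
      Finset.range_subset_range.mpr (by omega)
    refine ⟨fun _ => c (J ∪ (Finset.range (k - J.card)).image Z),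
      J ∪ (Finset.range (l - J.card)).image Z, fun _ _ => ⟨j1.2, ?_, ?_, fun i hi => ?_⟩⟩
    · rw [cu z1 z2 j1.1 s1, Finset.card_range]; omega
    · refine Finset.card_ne_zero_of_mem (a := J ∪ (Finset.range (k - J.card)).image Z) ?_
      refine Finset.mem_filter.mpr ⟨Finset.mem_powersetCard.mpr
        ⟨Finset.union_subset_union_right (Finset.image_subset_image s2), ?_⟩, rfl⟩
      rw [cu z1 z2 j1.1 (s2.trans s1), Finset.card_range]; omega
    · have := dec z1 z2 j1.1 hK s1 fun K' => if c K' = i then 1 else 0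
      rw [Finset.sum_boole, Finset.sum_eq_zero] at this
      · exact_mod_cast this
      refine fun J' hJ => Finset.sum_eq_zero fun T hT => if_neg fun e => hi ?_
      rw [Finset.mem_powerset] at hJ
      rw [Finset.mem_powersetCard] at hT
      rw [← e, a J' (hJ.trans j1.1) T (hT.1.trans s1) hT.2, Finset.mem_insert]
      by_contra f
      rw [Finset.eq_of_subset_of_card_le hJ (j2 J' ⟨hJ.trans j1.1, fun g => f (Or.inr g)⟩)] at f
      exact f (Or.inl rfl)
  choose j L hj using step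
  rcases Nat.eq_zero_or_pos r with rfl | hr
  · exact ⟨.refl _, fun _ => ∅, by simp, fun i => i.elim0, by simp, by simp⟩
  have ex : ∀ A : Finset (Fin r), ∃ x, A.card < r → x ∉ A := fun A => by
    by_cases h : A.card < r
    · obtain ⟨x, _, hx⟩ := Finset.exists_mem_notMem_of_card_lt_card (s := A) (t := Finset.univ)
        (by simpa using h)
      exact ⟨x, fun _ => hx⟩
    · exact ⟨⟨0, hr⟩, fun g => absurd g h⟩
  choose x hx using ex
  let A : ℕ → Finset (Fin r) := fun m => Nat.rec ∅ (fun _ B => insert (j B (x B)) B) m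
  have a1 : ∀ m, (A m).card ≤ m := fun m => by
    induction m with
    | zero => rfl
    | succ m ih => exact (Finset.card_insert_le _ _).trans (Nat.succ_le_succ ih)
  have a2 : Monotone A := monotone_nat_of_le_succ fun m => Finset.subset_insert _ _
  have a3 := fun i : Fin r => hj (A i) _ (hx _ ((a1 i).trans_lt i.2))
  have a4 : ∀ i i' : Fin r, i' < i → j (A i) (x (A i)) ∉ insert (j (A i') (x (A i'))) (A i') :=
    fun i i' h g => (a3 i).1 (a2 (show i'.1 + 1 ≤ i from h) g)
  refine ⟨Equiv.ofBijective (fun i => j (A i) (x (A i))) (Finite.injective_iff_bijective.mp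
    fun i i' e => by_contra fun h => ?_), fun i => L (A i), fun i => (a3 i).2.1,
    fun i i' e => by_contra fun h => ?_, fun i i' h => (a3 i').2.2.2 _ (a4 i i' h),
    fun i => (a3 i).2.2.1⟩
  · rcases lt_or_gt_of_ne h with h | h
    · exact a4 _ _ h (Finset.mem_insert.mpr (Or.inl e.symm))
    · exact a4 _ _ h (Finset.mem_insert.mpr (Or.inl e))
  · rcases lt_or_gt_of_ne h with h | h
    · exact (a3 i').2.2.1 ((congrFun e _).symm.trans ((a3 i).2.2.2 _ (a4 _ _ h)))
    · exact (a3 i).2.2.1 ((congrFun e _).trans ((a3 i').2.2.2 _ (a4 _ _ h)))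

end Pool.Agent.S08767
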