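-- Proof of the frozen statement S08772 (negation of the problem MP_537007_co).
import Pool.Statements.S08772

set_option autoImplicit false
open Pool Pool.MP_537007_co

namespace Pool.Agent.S08772

open Finset

/-- Subgraphs of a `K_{2,2}`-free point-box incidence graph have bounded separation dimension. -/
theorem sepdim {P B T : Type} [Finite P] (inc : P → B → Prop)
    (hK : ∀ p p' b b', inc p b → inc p b' → inc p' b → inc p' b' → p = p' ∨ b = b')
    (key : T → P → ℝ)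
    (hkey : ∀ p b, ¬ inc p b → ∃ t, ∀ q, inc q b → key t p < key t q)
    (H : SimpleGraph (P ⊕ B))
    (hH : ∀ e ∈ H.edgeSet, ∃ p b, inc p b ∧ e = s(Sum.inl p, Sum.inr b)) :
    ∃ l r : H.edgeSet → T → ℝ, (∀ e i, l e i ≤ r e i) ∧
      ∀ e₁ e₂ : H.edgeSet, e₁ ≠ e₂ →
        (H.lineGraph.Adj e₁ e₂ ↔ ∀ i, max (l e₁ i) (l e₂ i) ≤ min (r e₁ i) (r e₂ i)) := by
  choose pe be hinc he using hH
  let lo : T → B → ℝ := fun t b => sInf (key t '' {q | inc q b})
  have hfin : ∀ t b, (key t '' {q | inc q b}).Finite := fun t b => (Set.toFinite _).image _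
  have hlo : ∀ t b q, inc q b → lo t b ≤ key t q := fun t b q h =>
    csInf_le (hfin t b).bddBelow ⟨q, h, rfl⟩
  have hlo2 : ∀ t b q, inc q b → ∃ q', inc q' b ∧ key t q' = lo t b := fun t b q h =>
    Set.Nonempty.csInf_mem (s := key t '' {q | inc q b}) ⟨_, q, h, rfl⟩ (hfin t b)
  refine ⟨fun e t => lo t (be e.1 e.2), fun e t => key t (pe e.1 e.2),
    fun e t => hlo _ _ _ (hinc _ _), ?_⟩
  intro e₁ e₂ hne
  have h1 := hinc e₁.1 e₁.2
  have h2 := hinc e₂.1 e₂.2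
  have k1 := he e₁.1 e₁.2
  have k2 := he e₂.1 e₂.2
  rw [SimpleGraph.lineGraph_adj_iff_exists]
  simp only [max_le_iff, le_min_iff]
  generalize pe e₁.1 e₁.2 = p₁ at *
  generalize pe e₂.1 e₂.2 = p₂ at *
  generalize be e₁.1 e₁.2 = b₁ at *
  generalize be e₂.1 e₂.2 = b₂ at *
  constructor
  · rintro ⟨-, v, hv1, hv2⟩ t
    rw [k1] at hv1
    rw [k2] at hv2
    simp only [Sym2.mem_iff] at hv1 hv2
    rcases hv1 with rfl | rfl <;> rcases hv2 with h | h
    · cases h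
      exact ⟨⟨hlo _ _ _ h1, hlo _ _ _ h2⟩, hlo _ _ _ h1, hlo _ _ _ h2⟩
    · cases h
    · cases h
    · cases h
      exact ⟨⟨hlo _ _ _ h1, hlo _ _ _ h1⟩, hlo _ _ _ h2, hlo _ _ _ h2⟩
  · intro h
    refine ⟨hne, ?_⟩
    have key2 : ∀ p b q, inc q b → (∀ t, lo t b ≤ key t p) → inc p b := by
      intro p b q hq hl
      by_contra hn
      obtain ⟨t, ht⟩ := hkey p b hn
      obtain ⟨q', hq', e⟩ := hlo2 t b q hq
      have := ht q' hq'
      have := hl t
      linarith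
    have a1 : inc p₁ b₂ := key2 _ _ _ h2 (fun t => (h t).1.2)
    have a2 : inc p₂ b₁ := key2 _ _ _ h1 (fun t => (h t).2.1)
    rcases hK p₁ p₂ b₁ b₂ h1 a1 a2 h2 with rfl | rfl
    · exact ⟨Sum.inl p₁, by rw [k1]; simp, by rw [k2]; simp⟩
    · exact ⟨Sum.inr b₁, by rw [k1]; simp, by rw [k2]; simp⟩

/-- A graph of boxicity at most `t` is coded by small integer boxes. -/
theorem code {V : Type} [Fintype V] (t : ℕ) (G : SimpleGraph V)
    (h : ∃ l r : V → Fin t → ℝ, (∀ v i, l v i ≤ r v i) ∧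
      ∀ u v : V, u ≠ v → (G.Adj u v ↔ ∀ i, max (l u i) (l v i) ≤ min (r u i) (r v i))) :
    ∃ c : V → Fin t → Fin (Fintype.card V + 1) × Fin (Fintype.card V + 1),
      ∀ u v : V, u ≠ v → (G.Adj u v ↔ ∀ i, (c u i).1 ≤ (c v i).2 ∧ (c v i).1 ≤ (c u i).2) := by
  classical
  obtain ⟨l, r, hlr, h⟩ := h
  let cnt : Fin t → ℝ → Fin (Fintype.card V + 1) := fun i x =>
    ⟨(univ.filter fun w => l w i ≤ x).card, Nat.lt_succ_of_le (card_le_univ _)⟩
  have hc : ∀ i u x, cnt i (l u i) ≤ cnt i x ↔ l u i ≤ x := by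
    intro i u x
    simp only [cnt, Fin.mk_le_mk]
    constructor
    · intro h
      by_contra hn
      have hss : (univ.filter fun w => l w i ≤ x) ⊂ (univ.filter fun w => l w i ≤ l u i) := by
        rw [ssubset_iff_of_subset]
        · exact ⟨u, by simp, by simpa using hn⟩
        · intro w hw
          simp only [mem_filter, mem_univ, true_and] at hw ⊢
          linarith
      have := card_lt_card hss
      omega
    · intro h
      apply card_le_card
      intro w hw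
      simp only [mem_filter, mem_univ, true_and] at hw ⊢
      linarith
  refine ⟨fun v i => (cnt i (l v i), cnt i (r v i)), fun u v huv => ?_⟩
  rw [h u v huv]
  refine forall_congr' fun i => ?_
  simp only [hc, max_le_iff, le_min_iff]
  have := hlr u i
  have := hlr v i
  tauto

theorem lexkey (K m : ℕ) : ∃ κ : (Fin K → Fin m) → ℝ, ∀ (x y : Fin K → Fin m) (s : Fin K),
    (∀ j, j < s → x j = y j) → x s < y s → κ x < κ y := by
  obtain ⟨f⟩ := Order.embedding_from_countable_to_dense (Lex (Fin K → Fin m)) ℝ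
  refine ⟨fun x => f (toLex x), fun x y s h1 h2 => f.strictMono ?_⟩
  exact ⟨s, h1, h2⟩

theorem linekey (K m : ℕ) : ∃ κ : Fin 4 → (Fin K → Fin m) → ℝ,
    ∀ (x a : Fin K → Fin m) (i s : Fin K), s ≠ i → x s ≠ a s →
      ∃ t, ∀ q : Fin K → Fin m, (∀ j, j ≠ i → q j = a j) → κ t x < κ t q := by
  obtain ⟨κ, hκ⟩ := lexkey K m
  have one : ∀ (x a : Fin K → Fin m) (i s : Fin K), s < i → x s ≠ a s →
      (∀ q : Fin K → Fin m, (∀ j, j ≠ i → q j = a j) → κ x < κ q) ∨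
      (∀ q : Fin K → Fin m, (∀ j, j ≠ i → q j = a j) → - κ x < - κ q) := by
    intro x a i s hs hx
    obtain ⟨s0, hs0, hmin⟩ := wellFounded_lt.has_min {j | x j ≠ a j} ⟨s, hx⟩
    have hle : s0 ≤ s := not_lt.1 (hmin s hx)
    have hagree : ∀ j, j < s0 → x j = a j := by
      intro j hj
      by_contra hne
      exact hmin j hne hj
    have hs0i : s0 < i := lt_of_le_of_lt hle hs
    rcases lt_or_gt_of_ne hs0 with h | h
    · left
      intro q hq
      apply hκ x q s0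
      · intro j hj
        rw [hagree j hj, hq j (hj.trans hs0i).ne]
      · rw [hq s0 hs0i.ne]
        exact h
    · right
      intro q hq
      rw [neg_lt_neg_iff]
      apply hκ q x s0
      · intro j hj
        rw [hagree j hj, hq j (hj.trans hs0i).ne]
      · rw [hq s0 hs0i.ne]
        exact h
  refine ⟨![κ, fun x => - κ x, fun x => κ (x ∘ Fin.rev), fun x => - κ (x ∘ Fin.rev)], ?_⟩
  intro x a i s hs hx
  rcases lt_or_gt_of_ne hs with h | h
  · rcases one x a i s h hx with h1 | h1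
    · exact ⟨0, h1⟩
    · exact ⟨1, h1⟩
  · have hq : ∀ q : Fin K → Fin m, (∀ j, j ≠ i → q j = a j) →
        ∀ j, j ≠ i.rev → (q ∘ Fin.rev) j = (a ∘ Fin.rev) j := by
      intro q hq j hj
      apply hq
      intro e
      apply hj
      rw [← e, Fin.rev_rev]
    rcases one (x ∘ Fin.rev) (a ∘ Fin.rev) i.rev s.rev (Fin.rev_lt_rev.2 h)
      (by simpa using hx) with h1 | h1
    · exact ⟨2, fun q h => h1 _ (hq q h)⟩
    · exact ⟨3, fun q h => h1 _ (hq q h)⟩

abbrev Pt (k m : ℕ) := (Fin (k + 1) → Fin m) × (Fin (k + 1) → Fin m)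
abbrev Pl (k m : ℕ) := Fin (k + 1) × Fin (k + 1) × (Fin k → Fin m) × (Fin k → Fin m) × Fin m

def plane {k m : ℕ} [NeZero m] (p : Pt k m) (i j : Fin (k + 1)) : Pl k m :=
  (i, j, fun s => p.1 (i.succAbove s), fun s => p.2 (j.succAbove s), ∑ s, p.1 s + ∑ s, p.2 s)

theorem off_iff {k m : ℕ} (x y : Fin (k + 1) → Fin m) (i : Fin (k + 1)) :
    (fun s => x (i.succAbove s)) = (fun s => y (i.succAbove s)) ↔ ∀ j, j ≠ i → x j = y j := by
  constructor
  · intro h j hj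
    obtain ⟨s, rfl⟩ := Fin.exists_succAbove_eq hj
    exact congrFun h s
  · intro h
    funext s
    exact h _ (Fin.succAbove_ne i s)

theorem plane_eq {k m : ℕ} [NeZero m] (p q : Pt k m) (i j i' j' : Fin (k + 1)) :
    plane p i j = plane q i' j' ↔ i = i' ∧ j = j' ∧ (∀ s, s ≠ i → p.1 s = q.1 s) ∧
      (∀ s, s ≠ j → p.2 s = q.2 s) ∧ ∑ s, p.1 s + ∑ s, p.2 s = ∑ s, q.1 s + ∑ s, q.2 s := by
  simp only [plane, Prod.mk.injEq]
  constructor
  · rintro ⟨rfl, rfl, h1, h2, h3⟩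
    exact ⟨rfl, rfl, (off_iff _ _ _).1 h1, (off_iff _ _ _).1 h2, h3⟩
  · rintro ⟨rfl, rfl, h1, h2, h3⟩
    exact ⟨rfl, rfl, (off_iff _ _ _).2 h1, (off_iff _ _ _).2 h2, h3⟩

theorem eq_of_off {k m : ℕ} [NeZero m] (x y : Fin (k + 1) → Fin m) (i : Fin (k + 1))
    (h : ∀ j, j ≠ i → x j = y j) (hs : ∑ s, x s = ∑ s, y s) : x = y := by
  rw [Fin.sum_univ_succAbove _ i, Fin.sum_univ_succAbove y i] at hs
  have e : ∑ s : Fin k, x (i.succAbove s) = ∑ s : Fin k, y (i.succAbove s) :=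
    sum_congr rfl fun s _ => h _ (Fin.succAbove_ne i s)
  rw [e] at hs
  have := add_right_cancel hs
  funext j
  by_cases hj : j = i
  · rw [hj, this]
  · exact h j hj

def inc {k m : ℕ} [NeZero m] (p : Pt k m) (b : Pl k m) : Prop := ∃ i j, b = plane p i j

theorem inc_K22 {k m : ℕ} [NeZero m] (p p' : Pt k m) (b b' : Pl k m) :
    inc p b → inc p b' → inc p' b → inc p' b' → p = p' ∨ b = b' := by
  rintro ⟨i, j, rfl⟩ ⟨i', j', rfl⟩ ⟨a, b, h1⟩ ⟨a', b', h2⟩
  rw [plane_eq] at h1 h2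
  obtain ⟨-, -, h1, h1', h3⟩ := h1
  obtain ⟨-, -, h2, h2', -⟩ := h2
  by_cases hi : i = i'
  · by_cases hj : j = j'
    · right
      rw [hi, hj]
    · left
      have e2 : p.2 = p'.2 := by
        funext s
        by_cases hs : s = j
        · exact h2' s (by rw [hs]; exact hj)
        · exact h1' s hs
      rw [e2] at h3
      exact Prod.ext (eq_of_off _ _ i h1 (add_right_cancel h3)) e2
  · left
    have e1 : p.1 = p'.1 := by
      funext s
      by_cases hs : s = i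
      · exact h2 s (by rw [hs]; exact hi)
      · exact h1 s hs
    rw [e1] at h3
    exact Prod.ext e1 (eq_of_off _ _ j h1' (add_left_cancel h3))

abbrev Ix := Fin 4 ⊕ Fin 4 ⊕ Bool

theorem inc_key (k m : ℕ) [NeZero m] : ∃ key : Ix → Pt k m → ℝ,
    ∀ p b, ¬ inc p b → ∃ t, ∀ q, inc q b → key t p < key t q := by
  obtain ⟨κ, hκ⟩ := linekey (k + 1) m
  refine ⟨Sum.elim (fun t p => κ t p.1) (Sum.elim (fun t p => κ t p.2)
    (fun t p => (if t then 1 else -1) * ((∑ s, p.1 s + ∑ s, p.2 s).val : ℝ))), ?_⟩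
  intro p b hn
  by_cases hb : ∃ q, inc q b
  swap
  · exact ⟨Sum.inl 0, fun q hq => absurd ⟨q, hq⟩ hb⟩
  obtain ⟨a, i, j, rfl⟩ := hb
  have hq : ∀ q, inc q (plane a i j) → (∀ s, s ≠ i → q.1 s = a.1 s) ∧
      (∀ s, s ≠ j → q.2 s = a.2 s) ∧ ∑ s, q.1 s + ∑ s, q.2 s = ∑ s, a.1 s + ∑ s, a.2 s := by
    rintro q ⟨i', j', h⟩
    obtain ⟨rfl, rfl, h'⟩ := (plane_eq _ _ _ _ _ _).1 h.symm
    exact h'
  by_cases h1 : ∀ s, s ≠ i → p.1 s = a.1 s
  · by_cases h2 : ∀ s, s ≠ j → p.2 s = a.2 s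
    · have h3 : ∑ s, p.1 s + ∑ s, p.2 s ≠ ∑ s, a.1 s + ∑ s, a.2 s := fun h3 =>
        hn ⟨i, j, ((plane_eq _ _ _ _ _ _).2 ⟨rfl, rfl, h1, h2, h3⟩).symm⟩
      rcases lt_or_gt_of_ne h3 with h | h
      · refine ⟨Sum.inr (Sum.inr true), fun q hq' => ?_⟩
        simp only [Sum.elim_inr, if_true, one_mul, (hq q hq').2.2]
        exact_mod_cast h
      · refine ⟨Sum.inr (Sum.inr false), fun q hq' => ?_⟩
        simp only [Sum.elim_inr, Bool.false_eq_true, if_false, neg_mul, one_mul, neg_lt_neg_iff,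
          (hq q hq').2.2]
        exact_mod_cast h
    · push Not at h2
      obtain ⟨s, hs, hx⟩ := h2
      obtain ⟨t, ht⟩ := hκ p.2 a.2 j s hs hx
      exact ⟨Sum.inr (Sum.inl t), fun q hq' => ht q.2 (hq q hq').2.1⟩
  · push Not at h1
    obtain ⟨s, hs, hx⟩ := h1
    obtain ⟨t, ht⟩ := hκ p.1 a.1 i s hs hx
    exact ⟨Sum.inl t, fun q hq' => ht q.1 (hq q hq').1⟩

def HS {k m : ℕ} [NeZero m] (S : Finset (Pt k m × Fin (k + 1) × Fin (k + 1))) :
    SimpleGraph (Pt k m ⊕ Pl k m) :=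
  SimpleGraph.fromRel fun u v => ∃ e ∈ S, u = Sum.inl e.1 ∧ v = Sum.inr (plane e.1 e.2.1 e.2.2)

theorem HS_adj {k m : ℕ} [NeZero m] (S : Finset (Pt k m × Fin (k + 1) × Fin (k + 1)))
    (e : Pt k m × Fin (k + 1) × Fin (k + 1)) :
    (HS S).Adj (Sum.inl e.1) (Sum.inr (plane e.1 e.2.1 e.2.2)) ↔ e ∈ S := by
  simp only [HS, SimpleGraph.fromRel_adj]
  constructor
  · rintro ⟨-, ⟨f, hf, h1, h2⟩ | ⟨f, hf, h1, h2⟩⟩
    · have a1 : e.1 = f.1 := Sum.inl_injective h1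
      obtain ⟨a2, a3, -⟩ := (plane_eq _ _ _ _ _ _).1 (Sum.inr_injective h2)
      have : e = f := Prod.ext a1 (Prod.ext a2 a3)
      rwa [this]
    · cases h1
  · intro h
    exact ⟨by simp, Or.inl ⟨e, h, rfl, rfl⟩⟩

theorem HS_edge {k m : ℕ} [NeZero m] (S : Finset (Pt k m × Fin (k + 1) × Fin (k + 1))) :
    ∀ e ∈ (HS S).edgeSet, ∃ p b, inc p b ∧ e = s(Sum.inl p, Sum.inr b) := by
  intro e
  induction e using Sym2.ind with
  | _ u v =>
    intro h
    simp only [HS, SimpleGraph.mem_edgeSet, SimpleGraph.fromRel_adj] at h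
    rcases h with ⟨-, ⟨f, hf, rfl, rfl⟩ | ⟨f, hf, rfl, rfl⟩⟩
    · exact ⟨_, _, ⟨_, _, rfl⟩, rfl⟩
    · exact ⟨_, _, ⟨_, _, rfl⟩, Sym2.eq_swap⟩

theorem arith (t : ℕ) : ∃ k : ℕ, ∀ N : ℕ, N = ((k + 1) ^ 2) ^ (2 * (k + 1)) →
    ((2 * N + 1) ^ (4 * t)) ^ N < (2 ^ ((k + 1) ^ 2)) ^ N := by
  obtain ⟨j, hj⟩ : ∃ j, j = 2 * t + 10 := ⟨_, rfl⟩
  obtain ⟨k, hk⟩ : ∃ k, k + 1 = 2 ^ j := ⟨2 ^ j - 1, by have := Nat.one_le_two_pow (n := j); omega⟩
  refine ⟨k, fun N hN => ?_⟩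
  have hN0 : 0 < N := by rw [hN]; positivity
  apply Nat.pow_lt_pow_left _ hN0.ne'
  generalize k + 1 = K at *
  have hK : 0 < K := by rw [hk]; positivity
  have h1 : N = 2 ^ (4 * j * K) := by
    rw [hN]
    conv_lhs => rw [← pow_mul]; enter [1]; rw [hk]
    rw [← pow_mul]
    congr 1
    ring
  have h2 : 2 * N + 1 ≤ 2 ^ (2 + 4 * j * K) := by
    rw [pow_add, ← h1]
    omega
  have h3 : 24 * t * j < K := by
    have a1 : t + 1 ≤ 2 ^ t := Nat.lt_two_pow_self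
    have a2 : K = 1024 * (2 ^ t * 2 ^ t) := by rw [hk, hj]; ring
    have a3 : (t + 1) * (t + 1) ≤ 2 ^ t * 2 ^ t := Nat.mul_le_mul a1 a1
    rw [a2, hj]
    nlinarith
  have h4 : (2 + 4 * j * K) * (4 * t) < K ^ 2 := by
    have a1 : 1 ≤ j * K := Nat.mul_pos (by omega) hK
    have a2 : (2 + 4 * j * K) * (4 * t) ≤ (6 * (j * K)) * (4 * t) :=
      Nat.mul_le_mul_right _ (by nlinarith)
    have a3 : (24 * t * j) * K < K * K := Nat.mul_lt_mul_of_pos_right h3 hK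
    nlinarith
  calc (2 * N + 1) ^ (4 * t) ≤ (2 ^ (2 + 4 * j * K)) ^ (4 * t) := Nat.pow_le_pow_left h2 _
    _ = 2 ^ ((2 + 4 * j * K) * (4 * t)) := by rw [← pow_mul]
    _ < _ := Nat.pow_lt_pow_right (by norm_num) h4

/-- The negation of the preceding statement: There is f : ℕ → ℕ such that every finite graph whose line graph has boxicity at most k (separation dimension at most k) itself has boxicity at most f(k). -/
theorem result :
    ¬ (∃ f : ℕ → ℕ, ∀ (V : Type) [Fintype V] (G : SimpleGraph V) (k : ℕ),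
      (∃ l r : G.edgeSet → Fin k → ℝ, (∀ e i, l e i ≤ r e i) ∧
        ∀ e₁ e₂ : G.edgeSet, e₁ ≠ e₂ →
          (G.lineGraph.Adj e₁ e₂ ↔ ∀ i, max (l e₁ i) (l e₂ i) ≤ min (r e₁ i) (r e₂ i))) →
      ∃ l r : V → Fin (f k) → ℝ, (∀ v i, l v i ≤ r v i) ∧
        ∀ u v : V, u ≠ v →
          (G.Adj u v ↔ ∀ i, max (l u i) (l v i) ≤ min (r u i) (r v i))) := by
  rintro ⟨f, hf⟩
  obtain ⟨k, hk⟩ := arith (f (Fintype.card Ix))
  obtain ⟨m, hm⟩ : ∃ m, m = (k + 1) ^ 2 := ⟨_, rfl⟩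
  have : NeZero m := ⟨by rw [hm]; positivity⟩
  obtain ⟨key, hkey⟩ := inc_key k m
  have hbox : ∀ S : Finset (Pt k m × Fin (k + 1) × Fin (k + 1)), ∃ c : (Pt k m ⊕ Pl k m) →
      Fin (f (Fintype.card Ix)) → Fin (Fintype.card (Pt k m ⊕ Pl k m) + 1) ×
        Fin (Fintype.card (Pt k m ⊕ Pl k m) + 1),
      ∀ u v, u ≠ v → ((HS S).Adj u v ↔ ∀ i, (c u i).1 ≤ (c v i).2 ∧ (c v i).1 ≤ (c u i).2) := by
    intro S
    apply code
    apply hf
    obtain ⟨l, r, h1, h2⟩ := sepdim inc inc_K22 key hkey (HS S) (HS_edge S)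
    let e := (Fintype.equivFin Ix).symm
    refine ⟨fun a i => l a (e i), fun a i => r a (e i), fun a i => h1 _ _, fun a b hab => ?_⟩
    rw [h2 a b hab]
    exact (e.forall_congr_right (q := fun i => max (l a i) (l b i) ≤ min (r a i) (r b i))).symm
  choose c hc using hbox
  have hinj : Function.Injective c := by
    intro S S' h
    ext e
    rw [← HS_adj, ← HS_adj, hc S _ _ (by simp), hc S' _ _ (by simp), h]
  have hcard := Fintype.card_le_of_injective c hinj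
  obtain ⟨N, hN⟩ : ∃ N, N = m ^ (2 * (k + 1)) := ⟨_, rfl⟩
  have hP : Fintype.card (Pt k m) = N := by
    simp only [Fintype.card_prod, Fintype.card_fun, Fintype.card_fin, hN]
    ring
  have hB : Fintype.card (Pl k m) = N := by
    simp only [Fintype.card_prod, Fintype.card_fun, Fintype.card_fin, hN]
    rw [← mul_assoc, ← pow_two, ← hm]
    ring
  have hV : Fintype.card (Pt k m ⊕ Pl k m) = 2 * N := by
    rw [Fintype.card_sum, hP, hB]
    ring
  have hk' := hk N (by rw [hN, hm])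
  rw [Fintype.card_finset, Fintype.card_prod, hP, Fintype.card_fun, Fintype.card_fun,
    Fintype.card_prod, Fintype.card_prod, Fintype.card_fin, Fintype.card_fin, Fintype.card_fin,
    hV] at hcard
  have e1 : (2 ^ ((k + 1) ^ 2)) ^ N = 2 ^ (N * ((k + 1) * (k + 1))) := by
    rw [← pow_mul]
    congr 1
    ring
  have e2 : ((2 * N + 1) ^ (4 * f (Fintype.card Ix))) ^ N =
      (((2 * N + 1) * (2 * N + 1)) ^ f (Fintype.card Ix)) ^ (2 * N) := by
    rw [← pow_two, ← pow_mul, ← pow_mul, ← pow_mul]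
    congr 1
    ring
  omega

end Pool.Agent.S08772
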