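import Pool.Statements.S08825
import Pool.Agent.Lib.helper9.WcolA

set_option autoImplicit false
open Pool Pool.MP_5651c1_co

namespace Pool.Agent.S08825

open Finset Function Pool.Agent.H9W

lemma pairs {V : Type} [Fintype V] (X : V → Finset V) {Q : ℕ} (h : ∀ v, (X v).card ≤ Q) (k : ℕ)
    (hk : 2 * k + Q ≤ Fintype.card V) :
    ∃ s r : Fin k → V, Injective (Sum.elim s r) ∧ ∀ i, r i ∉ X (s i) := by
  classical
  induction k with
  | zero => exact ⟨Fin.elim0, Fin.elim0, injective_of_subsingleton _, by simp⟩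
  | succ k ih =>
    obtain ⟨s, r, a, b⟩ := ih (by omega)
    have c : (univ.image (Sum.elim s r)).card ≤ 2 * k := card_image_le.trans (by simp; omega)
    obtain ⟨x, -, hx⟩ := exists_mem_notMem_of_card_lt_card (t := univ) (c.trans_lt (by simp; omega))
    have := h x
    obtain ⟨y, -, hy⟩ := exists_mem_notMem_of_card_lt_card (s := insert x (univ.image (Sum.elim s r) ∪ X x))
      (t := univ) ((card_insert_le _ _).trans_lt (by have := card_union_le (univ.image (Sum.elim s r)) (X x); simp at *; omega))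
    simp only [mem_insert, mem_union, mem_image, mem_univ, true_and, Sum.exists, Sum.elim_inl, Sum.elim_inr,
      not_or, not_exists] at hx hy
    rw [Sum.elim_injective] at a
    refine ⟨Fin.cons x s, Fin.cons y r, Sum.elim_injective.2 ⟨Fin.cons_injective_iff.2 ⟨by simpa using hx.1, a.1⟩,
      Fin.cons_injective_iff.2 ⟨by simpa using hy.2.1.2, a.2.1⟩, fun i j => ?_⟩, fun i => ?_⟩
    · refine Fin.cases ?_ (fun i => ?_) i <;> refine Fin.cases ?_ (fun j => ?_) j
      exacts [Ne.symm hy.1, Ne.symm (hx.2 j), hy.2.1.1 i, a.2.2 i j]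
    · exact Fin.cases hy.2.2 b i

/-- For every t there is c>0 such that every finite path-pairable graph on n≥2 vertices with no K_t minor has a vertex of degree at least c·n. -/
theorem result :
    ∀ t : ℕ, ∃ c : ℝ, 0 < c ∧
      ∀ (V : Type) [Fintype V] (G : SimpleGraph V) [DecidableRel G.Adj],
        2 ≤ Fintype.card V →
        (∀ (k : ℕ) (s r : Fin k → V), Function.Injective (Sum.elim s r) →
          ∃ p : (i : Fin k) → G.Walk (s i) (r i),
            (∀ i, (p i).IsPath) ∧
            ∀ i j, i ≠ j → ∀ e ∈ (p i).edges, e ∉ (p j).edges) →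
        (¬ ∃ f : Fin t → Set V,
            (∀ i, (G.induce (f i)).Connected) ∧
            (∀ i j, i ≠ j → Disjoint (f i) (f j)) ∧
            (∀ i j, i ≠ j → ∃ u ∈ f i, ∃ v ∈ f j, G.Adj u v)) →
        ∃ v : V, c * (Fintype.card V : ℝ) ≤ (G.degree v : ℝ) := by
  classical
  intro t
  obtain ⟨d, hd⟩ : ∃ d, d = (t + 1) ^ 1 * ((t + 1) * (2 * 1 + 1)) := ⟨_, rfl⟩
  obtain ⟨C, hC⟩ : ∃ C, C = (t + 1) ^ (16 * d) * ((t + 1) * (2 * (16 * d) + 1)) := ⟨_, rfl⟩
  have d0 : 0 < d := by rw [hd]; positivity
  have C0 : 0 < C := by rw [hC]; positivity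
  refine ⟨1 / (64 * C ^ 2), by positivity, fun V _ G _ hn hp hm => ?_⟩
  obtain ⟨W, w1, w2⟩ := wcol (G := G) hm
  have w3 := hd ▸ w1 1
  have w4 := hC ▸ w1 (16 * d)
  set n := Fintype.card V
  have he : G.edgeFinset.card ≤ n * d := by
    refine (card_le_card (t := univ.biUnion fun v => (W 1 v).image fun u => s(v, u)) fun e => ?_).trans
      (card_biUnion_le_card_mul _ _ _ fun v _ => card_image_le.trans (w3 v))
    induction e using Sym2.ind with
    | _ a b =>
      intro h
      obtain ⟨m, c, p, q⟩ := w2 1 a b (G.mem_edgeFinset.1 h).toWalk le_rfl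
      simp only [mem_biUnion, mem_image, mem_univ, true_and]
      simp at c
      rcases c with rfl | rfl
      exacts [⟨b, m, q, Sym2.eq_swap⟩, ⟨a, m, p, rfl⟩]
  let X := fun w => univ.filter fun v => w ∈ W (16 * d) v
  let U := univ.filter fun w => n < 4 * C * (X w).card
  have hU : U.card ≤ 4 * C ^ 2 := by
    have a : ∑ w, (X w).card ≤ n * C := by
      simp only [X, card_filter]
      rw [sum_comm]
      exact sum_le_card_nsmul _ _ _ fun v _ => by simpa using w4 v
    have b := card_nsmul_le_sum U (fun w => 4 * C * (X w).card) n fun w hw => (mem_filter.1 hw).2.le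
    rw [← mul_sum] at b
    have c := sum_le_sum_of_subset (f := fun w => (X w).card) (subset_univ U)
    refine Nat.le_of_mul_le_mul_right ?_ (show 0 < n by omega)
    calc _ ≤ 4 * C * (n * C) := b.trans (Nat.mul_le_mul_left _ (c.trans a))
      _ = _ := by ring
  obtain ⟨s, r, inj, nc⟩ := pairs (fun v => (W (16 * d) v \ U).biUnion X) (Q := n / 4) (fun v => by
    have a := card_biUnion_le_card_mul (W (16 * d) v \ U) X (n / (4 * C)) fun w hw => by
      rw [Nat.le_div_iff_mul_le (by omega), mul_comm]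
      simpa [U] using (mem_sdiff.1 hw).2
    have b := (card_le_card (sdiff_subset (t := U))).trans (w4 v)
    refine a.trans ((Nat.mul_le_mul_right _ b).trans ?_)
    rw [← Nat.div_div_eq_div_mul]
    exact Nat.mul_div_le _ _) ((n + 2) / 4) (by omega)
  obtain ⟨p, p1, p2⟩ := hp _ s r inj
  have tot : ∑ i, (p i).length ≤ n * d := by
    refine le_trans ?_ ((card_le_card (s := univ.biUnion fun i => (p i).edges.toFinset) fun e h => ?_).trans he)
    · rw [card_biUnion fun i _ j _ c => disjoint_left.2 fun e a b => p2 i j c e (by simpa using a) (by simpa using b)]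
      exact sum_le_sum fun i _ => by rw [List.toFinset_card_of_nodup (p1 i).edges_nodup, (p i).length_edges]
    · obtain ⟨i, -, h⟩ := mem_biUnion.1 h
      exact G.mem_edgeFinset.2 ((p i).edges_subset_edgeSet (by simpa using h))
  let S := univ.filter fun i => (p i).length ≤ 16 * d
  have hS : n ≤ 16 * S.card := by
    have a := card_filter_add_card_filter_not (s := univ) fun i => (p i).length ≤ 16 * d
    have b := (card_nsmul_le_sum (univ.filter fun i => ¬ (p i).length ≤ 16 * d) (fun i => (p i).length) (16 * d)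
      fun i hi => (not_le.1 (mem_filter.1 hi).2).le).trans ((sum_le_sum_of_subset (subset_univ _)).trans tot)
    rw [smul_eq_mul, ← mul_assoc] at b
    have := Nat.le_of_mul_le_mul_right b d0
    simp only [card_univ, Fintype.card_fin, S] at *
    omega
  have : ∀ i, ∃ e ∈ (p i).edges, i ∈ S → e ∈ U.biUnion fun w => G.incidenceFinset w := fun i => by
    have nn : ¬ (p i).Nil := SimpleGraph.Walk.not_nil_of_ne ((Sum.elim_injective.1 inj).2.2 i i)
    obtain ⟨m, a, b⟩ : ∃ m ∈ (p i).support, i ∈ S → m ∈ U := by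
      by_cases c : i ∈ S
      · obtain ⟨m, a, b, d⟩ := w2 _ _ _ (p i) (mem_filter.1 c).2
        exact ⟨m, a, fun _ => by_contra fun g => nc i (mem_biUnion.2 ⟨m, mem_sdiff.2 ⟨b, g⟩, by simpa [X]⟩)⟩
      · exact ⟨s i, by simp, by simp [c]⟩
    obtain ⟨e, c, d⟩ := (SimpleGraph.Walk.mem_support_iff_exists_mem_edges_of_not_nil nn).1 a
    exact ⟨e, c, fun h => mem_biUnion.2 ⟨m, b h, by
      simpa [SimpleGraph.incidenceSet] using ⟨(p i).edges_subset_edgeSet c, d⟩⟩⟩
  choose e e1 e2 using this
  have : Nonempty V := Fintype.card_pos_iff.1 (by omega)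
  obtain ⟨v, hv⟩ := G.exists_maximal_degree_vertex
  have a := (card_le_card_of_injOn e (fun i hi => e2 i hi) fun i _ j _ c =>
    by_contra fun g => p2 i j g _ (e1 i) (c ▸ e1 j)).trans (card_biUnion_le_card_mul _ _ (G.degree v) fun w _ => by
      rw [SimpleGraph.card_incidenceFinset_eq_degree, ← hv]; exact G.degree_le_maxDegree w)
  refine ⟨v, ?_⟩
  rw [one_div, inv_mul_le_iff₀ (by positivity)]
  exact_mod_cast hS.trans (by nlinarith [Nat.mul_le_mul_right (G.degree v) hU])

end Pool.Agent.S08825
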