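import Pool.Statements.S08874
-- import your own Pool.Agent.* helpers here

set_option autoImplicit false
open Pool Pool.MP_5833ce_co

namespace Pool.Agent.S08874

/-- Fourteen vectors of `(ZMod 3)^7`, of norm one for the form `diag(1,1,1,1,1,1,2)`, with all
pairwise products in `{0,1}`, whose orthogonal hyperplanes cover the whole space. -/
def b : Fin 14 → Fin 7 → ZMod 3 :=
  ![![0, 0, 0, 0, 0, 1, 0],
    ![1, 0, 2, 2, 0, 1, 0],
    ![1, 0, 2, 2, 2, 1, 1],
    ![1, 1, 1, 2, 0, 0, 0],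
    ![1, 1, 1, 2, 2, 0, 1],
    ![1, 2, 2, 1, 1, 0, 2],
    ![2, 0, 1, 2, 0, 1, 0],
    ![2, 0, 2, 1, 2, 1, 1],
    ![2, 1, 0, 2, 2, 1, 2],
    ![2, 2, 1, 1, 1, 0, 2],
    ![2, 2, 2, 0, 0, 1, 0],
    ![2, 2, 2, 0, 2, 0, 0],
    ![2, 2, 2, 2, 0, 0, 0],
    ![2, 2, 2, 2, 2, 0, 2]]

/-- The diagonal of the form. -/
def d : Fin 7 → ZMod 3 := ![1, 1, 1, 1, 1, 1, 2]

/-- The Gram matrix. -/
def M (u v : Fin 14) : ZMod 3 := ∑ i, d i * b u i * b v i

/-- The graph whose matrix `A + I` is the Gram matrix. -/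
def G : SimpleGraph (Fin 14) := SimpleGraph.fromRel (fun u v => M u v = 1)

instance : DecidableRel G.Adj := fun u v =>
  decidable_of_iff (u ≠ v ∧ (M u v = 1 ∨ M v u = 1)) (SimpleGraph.fromRel_adj (fun u v => M u v = 1) u v).symm

theorem hM : ∀ v w : Fin 14,
    M v w = (if w = v then 1 else 0) + (if G.Adj v w then 1 else 0) := by decide +kernel

theorem key : ∀ x0 x1 x2 x3 x4 x5 x6 : ZMod 3, ∃ v : Fin 14,
    d 0 * b v 0 * x0 + d 1 * b v 1 * x1 + d 2 * b v 2 * x2 + d 3 * b v 3 * x3 + d 4 * b v 4 * x4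
      + d 5 * b v 5 * x5 + d 6 * b v 6 * x6 = 0 := by decide +kernel

theorem expand (f : Fin 14 → ZMod 3) (v : Fin 14) :
    f v + ∑ w ∈ G.neighborFinset v, f w = ∑ i, d i * b v i * ∑ w, b w i * f w := by
  have h1 : f v + ∑ w ∈ G.neighborFinset v, f w = ∑ w, M v w * f w := by
    simp only [hM, add_mul, Finset.sum_add_distrib, ite_mul, one_mul, zero_mul,
      Finset.sum_ite_eq', Finset.mem_univ, if_true]
    congr 1
    rw [SimpleGraph.neighborFinset_eq_filter, Finset.sum_filter]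
  rw [h1]
  simp only [M, Finset.sum_mul, Finset.mul_sum]
  rw [Finset.sum_comm]
  refine Finset.sum_congr rfl fun i _ => Finset.sum_congr rfl fun w _ => by ring

/-- The negation of the preceding statement: For every k ≥ 2 and every finite simple graph, some labeling of the vertices by integers mod k makes the sum of labels over each vertex's closed neighbourhood nonzero mod k. -/
theorem result :
    ¬ (∀ k : ℕ, 2 ≤ k →
      ∀ (V : Type) [Fintype V] (G : SimpleGraph V) [DecidableRel G.Adj],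
        ∃ f : V → ZMod k, ∀ v : V, f v + ∑ w ∈ G.neighborFinset v, f w ≠ 0) := by
  intro h
  obtain ⟨f, hf⟩ := h 3 (by norm_num) (Fin 14) G
  obtain ⟨v, hv⟩ := key (∑ w, b w 0 * f w) (∑ w, b w 1 * f w) (∑ w, b w 2 * f w)
    (∑ w, b w 3 * f w) (∑ w, b w 4 * f w) (∑ w, b w 5 * f w) (∑ w, b w 6 * f w)
  apply hf v
  rw [expand, Fin.sum_univ_seven]
  exact hv

end Pool.Agent.S08874
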