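import Pool.Statements.S08910
-- import your own Pool.Agent.* helpers here

set_option autoImplicit false
open Pool Pool.MP_598d99_co

namespace Pool.Agent.S08910

/-- The vertex set of the `K4`. -/
def K : Finset (Fin 14) := {0, 1, 2, 3}

/-- Colour 1 is given to the edges of a `K4` on `0..3` and of a star with centre `4` and leaves `5..13`. -/
def col (S : Finset (Fin 14)) : Fin 2 :=
  if S ⊆ K ∨ (({4} : Finset (Fin 14)) ⊆ S ∧ Disjoint S K) then 1 else 0

/-- The colour scheme of a set. -/
def sch (T : Finset (Fin 14)) : Fin 2 → ℕ := fun i : Fin 2 =>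
  ((T.powersetCard 2).filter (fun S => col S = i)).card

theorem col_one (S : Finset (Fin 14)) :
    col S = 1 ↔ (S ⊆ K ∨ (({4} : Finset (Fin 14)) ⊆ S ∧ Disjoint S K)) := by
  unfold col
  split_ifs with h
  · simp only [h]
  · simp only [h, iff_false]; decide

theorem sch_sum (T : Finset (Fin 14)) : sch T 0 + sch T 1 = T.card.choose 2 := by
  have h : ∀ S, (col S = 0) ↔ ¬ (col S = 1) := by
    intro S
    generalize col S = c
    revert c; decide
  unfold sch
  rw [← Finset.card_powersetCard, ← Finset.card_filter_add_card_filter_not (s := T.powersetCard 2) (fun S => col S = 1), add_comm]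
  congr 2
  exact Finset.filter_congr (fun S _ => h S)

theorem sch_one (T : Finset (Fin 14)) :
    sch T 1 = (T ∩ K).card.choose 2 + (if (4 : Fin 14) ∈ T then (T \ K).card - 1 else 0) := by
  unfold sch
  have e1 : (T.powersetCard 2).filter (fun S => col S = 1) =
      (T ∩ K).powersetCard 2 ∪ ((T \ K).powersetCard 2).filter (fun S => ({4} : Finset (Fin 14)) ⊆ S) := by
    ext S
    simp only [Finset.mem_filter, Finset.mem_powersetCard, Finset.mem_union, col_one,
      Finset.subset_inter_iff, Finset.subset_sdiff]
    tauto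
  have e2 : Disjoint ((T ∩ K).powersetCard 2)
      (((T \ K).powersetCard 2).filter (fun S => ({4} : Finset (Fin 14)) ⊆ S)) := by
    rw [Finset.disjoint_left]
    intro S h1 h2
    simp only [Finset.mem_filter, Finset.mem_powersetCard, Finset.subset_inter_iff,
      Finset.singleton_subset_iff] at h1 h2
    have := h1.1.2 h2.2
    revert this; decide
  rw [e1, Finset.card_union_of_disjoint e2, Finset.card_powersetCard]
  congr 1
  split_ifs with h4
  · have hs : ({4} : Finset (Fin 14)) ⊆ T \ K := by
      rw [Finset.singleton_subset_iff, Finset.mem_sdiff]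
      exact ⟨h4, by decide⟩
    rw [Finset.card_filter_powersetCard_subset _ _ _ hs (by simp)]
    simp
  · rw [Finset.card_eq_zero, Finset.filter_eq_empty_iff]
    intro S hS h
    rw [Finset.mem_powersetCard] at hS
    rw [Finset.singleton_subset_iff] at h
    exact h4 (Finset.mem_sdiff.1 (hS.1 h)).1

theorem up : ∀ T ∈ (Finset.univ : Finset (Fin 14)).powersetCard 7,
    sch T ∈ ({![21, 0], ![20, 1], ![18, 3], ![16, 5], ![15, 6], ![13, 8]} : Finset (Fin 2 → ℕ)) := by
  intro T hT
  have hc : T.card = 7 := (Finset.mem_powersetCard.1 hT).2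
  have h1 := sch_one T
  have h0 := sch_sum T
  have hs : (T \ K).card + (T ∩ K).card = T.card := Finset.card_sdiff_add_card_inter T K
  have hk : (T ∩ K).card ≤ 4 := le_trans (Finset.card_le_card Finset.inter_subset_right) (by decide)
  have hv : sch T = ![sch T 0, sch T 1] := by
    funext i; fin_cases i <;> rfl
  rw [hc] at h0 hs
  have h21 : Nat.choose 7 2 = 21 := by decide
  rw [h21] at h0
  have hb : (T \ K).card = 7 - (T ∩ K).card := by omega
  rw [hb] at h1
  have h00 : sch T 0 = 21 - sch T 1 := by omega
  rw [hv, h00, h1]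
  generalize (T ∩ K).card = a at hk
  split_ifs <;> interval_cases a <;> decide

theorem low : ∀ v ∈ ({![15, 0], ![14, 1], ![12, 3], ![11, 4], ![10, 5], ![9, 6], ![8, 7]} : Finset (Fin 2 → ℕ)),
    ∃ T ∈ ({{5,6,7,8,9,10}, {0,1,5,6,7,8}, {0,1,2,5,6,7}, {0,4,5,6,7,8}, {4,5,6,7,8,9}, {0,1,2,3,5,6}, {0,1,2,3,4,5}} : Finset (Finset (Fin 14))),
      T.card = 6 ∧ sch T = v := by
  decide +kernel

/-- The negation of the preceding statement: For any colouring of the s-subsets of an N-set with m colours, when s ≤ t and t+1 ≤ N/2, the number of distinct colour-count vectors of t-subsets is at most that of (t+1)-subsets. -/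
theorem result :
    ¬ (∀ (N s m : ℕ) (c : Finset (Fin N) → Fin m) (t : ℕ),
      s ≤ t → 2 * (t + 1) ≤ N →
        (((Finset.univ : Finset (Fin N)).powersetCard t).image
            (fun T : Finset (Fin N) => fun i : Fin m =>
              ((T.powersetCard s).filter (fun S => c S = i)).card)).card
        ≤
        (((Finset.univ : Finset (Fin N)).powersetCard (t + 1)).image
            (fun T : Finset (Fin N) => fun i : Fin m =>
              ((T.powersetCard s).filter (fun S => c S = i)).card)).card) := by
  intro h
  have h1 := h 14 2 2 col 6 (by norm_num) (by norm_num)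
  have hU : (((Finset.univ : Finset (Fin 14)).powersetCard 7).image sch).card ≤ 6 := by
    refine le_trans (Finset.card_le_card (t := ({![21, 0], ![20, 1], ![18, 3], ![16, 5], ![15, 6], ![13, 8]} : Finset (Fin 2 → ℕ))) ?_) (by decide +kernel)
    intro v hv
    obtain ⟨T, hT, rfl⟩ := Finset.mem_image.1 hv
    exact up T hT
  have hL : 7 ≤ (((Finset.univ : Finset (Fin 14)).powersetCard 6).image sch).card := by
    refine le_trans (by decide +kernel) (Finset.card_le_card (s := ({![15, 0], ![14, 1], ![12, 3], ![11, 4], ![10, 5], ![9, 6], ![8, 7]} : Finset (Fin 2 → ℕ))) ?_)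
    intro v hv
    obtain ⟨T, _, hc, rfl⟩ := low v hv
    exact Finset.mem_image.2 ⟨T, Finset.mem_powersetCard.2 ⟨Finset.subset_univ _, hc⟩, rfl⟩
  have h2 : (((Finset.univ : Finset (Fin 14)).powersetCard 6).image sch).card ≤ (((Finset.univ : Finset (Fin 14)).powersetCard 7).image sch).card := h1
  omega

end Pool.Agent.S08910
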