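import Pool.Statements.S08925
import Pool.Agent.Lib.helper25.DetMany

set_option autoImplicit false
open Pool Pool.MP_5a23e6_co

namespace Pool.Agent.S08925

/-- There is c>0 such that for every n≥1, the number of distinct values det(M)/2^(n-1), over n×n matrices M with all entries ±1, is at least c·2^n. -/
theorem result :
    ∃ c : ℝ, 0 < c ∧ ∀ n : ℕ, 1 ≤ n →
      c * (2 : ℝ) ^ n ≤
        ((Set.ncard {d : ℤ | ∃ M : Matrix (Fin n) (Fin n) ℤ,
            (∀ i j, M i j = 1 ∨ M i j = -1) ∧ M.det = 2 ^ (n - 1) * d}) : ℝ) := by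
  refine ⟨1 / 2 ^ 15, by positivity, fun n hn => ?_⟩
  obtain ⟨n, rfl⟩ : ∃ m, n = m + 1 := ⟨n - 1, by omega⟩
  simp only [Nat.add_sub_cancel]
  have hfin : Set.Finite {d : ℤ | ∃ M : Matrix (Fin (n + 1)) (Fin (n + 1)) ℤ,
            (∀ i j, M i j = 1 ∨ M i j = -1) ∧ M.det = 2 ^ n * d} := by
    apply Set.Finite.subset (Set.finite_range (fun f : Fin (n + 1) → Fin (n + 1) → Bool =>
      (Matrix.of fun i j => if f i j then (1 : ℤ) else -1).det / 2 ^ n))
    rintro d ⟨M, h1, h2⟩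
    refine ⟨fun i j => decide (M i j = 1), ?_⟩
    have : (Matrix.of fun i j => if (decide (M i j = 1)) = true then (1 : ℤ) else -1) = M := by
      ext i j
      rcases h1 i j with h | h <;> simp [h]
    simp only [this, h2]
    rw [Int.mul_ediv_cancel_left _ (by positivity)]
  rcases Nat.eq_zero_or_pos n with rfl | hpos
  · have : 0 < Set.ncard {d : ℤ | ∃ M : Matrix (Fin (0 + 1)) (Fin (0 + 1)) ℤ,
            (∀ i j, M i j = 1 ∨ M i j = -1) ∧ M.det = 2 ^ 0 * d} := by
      rw [Set.ncard_pos hfin]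
      exact ⟨1, Matrix.of fun _ _ => 1, by simp, by simp⟩
    have h2 : (1 : ℝ) ≤ _ := Nat.one_le_cast.mpr this
    refine le_trans (by norm_num) h2
  · obtain ⟨P, hP, H⟩ := Pool.Agent.Lib.H25Det.many ((n - 1) / 14)
    have H2 := fun p hp => Pool.Agent.Lib.H25Det.to_sign (H p hp) n (by omega)
    choose! d hd1 hd2 using H2
    have h3 : P.card ≤ Set.ncard {d : ℤ | ∃ M : Matrix (Fin (n + 1)) (Fin (n + 1)) ℤ,
            (∀ i j, M i j = 1 ∨ M i j = -1) ∧ M.det = 2 ^ n * d} := by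
      rw [← Set.ncard_coe_finset]
      apply Set.ncard_le_ncard_of_injOn d (fun p hp => hd2 p hp) _ hfin
      intro p hp q hq e
      have e1 := hd1 p hp
      have e2 := hd1 q hq
      rw [e, e2] at e1
      have hl : (Pool.Agent.Lib.H25Det.Bq.det / 17636) ^ ((n - 1) / 14) ≠ 0 :=
        pow_ne_zero _ (div_ne_zero Pool.Agent.Lib.H25Det.detB_ne (by norm_num))
      have := mul_left_cancel₀ hl (mul_left_cancel₀ (pow_ne_zero _ (by norm_num)) e1)
      exact_mod_cast this.symm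
    have h4 : 2 ^ (n + 1) ≤ 2 ^ 15 * P.card := by
      rw [hP]
      calc 2 ^ (n + 1) ≤ 2 ^ (15 + 14 * ((n - 1) / 14)) := Nat.pow_le_pow_right (by norm_num) (by omega)
        _ = 2 ^ 15 * (2 ^ 14) ^ ((n - 1) / 14) := by rw [pow_add, pow_mul]
        _ ≤ _ := Nat.mul_le_mul_left _ (Nat.pow_le_pow_left (by norm_num) _)
    have h5 : ((2 ^ (n + 1) : ℕ) : ℝ) ≤ (2 ^ 15 * P.card : ℕ) := by exact_mod_cast h4
    have h6 : (P.card : ℝ) ≤ _ := Nat.cast_le.mpr h3
    push_cast at h5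
    linarith

end Pool.Agent.S08925
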