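import Pool.Statements.S08929
-- import your own Pool.Agent.* helpers here

set_option autoImplicit false
open Pool Pool.MP_5a7c5b_co

namespace Pool.Agent.S08929

abbrev Lt := Fin 2 × Bool

def iv (a : Lt) : Lt := (a.1, !a.2)

lemma iv_ne (a : Lt) : iv a ≠ a := by revert a; decide

lemma iv_iv (a : Lt) : iv (iv a) = a := by revert a; decide

lemma invRev_get (L : List Lt) (t : ℕ) (h : t < L.length) :
    (FreeGroup.invRev L)[t]? = (L[L.length - 1 - t]?).map iv := by
  unfold FreeGroup.invRev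
  rw [List.getElem?_reverse (by simpa using h), List.length_map, List.getElem?_map]
  rfl

def sub (ω : ℤ → Lt) (a b : ℤ) : List Lt := List.ofFn fun t : Fin (b - a).toNat => ω (a + t)

lemma sub_length (ω : ℤ → Lt) (a b : ℤ) : (sub ω a b).length = (b - a).toNat := by simp [sub]

lemma sub_get (ω : ℤ → Lt) (a b : ℤ) (t : ℕ) (h : t < (b - a).toNat) :
    (sub ω a b)[t]? = some (ω (a + t)) := by
  simp [sub, h]

lemma sub_refl {ω ω' : ℤ → Lt} {a b d a' b' : ℤ} (ha : a' = d - b) (hb : b' = d - a)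
    (h : ∀ s, a ≤ s → s < b → ω' (d - 1 - s) = iv (ω s)) :
    sub ω' a' b' = FreeGroup.invRev (sub ω a b) := by
  subst ha hb
  refine List.ext_getElem? fun t => ?_
  by_cases ht : t < (b - a).toNat
  · rw [sub_get _ _ _ _ (by omega), invRev_get _ _ (by rwa [sub_length]), sub_length,
      sub_get _ _ _ _ (by omega), Option.map_some, ← h _ (by omega) (by omega)]
    congr 2
    omega
  · rw [List.getElem?_eq_none (by rw [sub_length]; omega),
      List.getElem?_eq_none (by rw [FreeGroup.invRev_length, sub_length]; omega)]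

def Red (ω : ℤ → Lt) (ρ : ℤ) : Prop := ∀ s, -ρ ≤ s → s + 1 < ρ → ω (s + 1) ≠ iv (ω s)

lemma sub_ne {ω : ℤ → Lt} {ρ a b a' b' : ℤ} (hr : Red ω ρ) (h1 : -ρ ≤ a) (h2 : b ≤ ρ)
    (h3 : b - a = b' - a') (h4 : a ≤ b' - 1) (h5 : a' < b) :
    sub ω a b ≠ FreeGroup.invRev (sub ω a' b') := by
  intro e
  have key : ∀ s, a ≤ s → s < b → ω s = iv (ω (a + b' - 1 - s)) := by
    intro s hs1 hs2
    have : (sub ω a b)[(s - a).toNat]? = (FreeGroup.invRev (sub ω a' b'))[(s - a).toNat]? := by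
      rw [e]
    rw [sub_get _ _ _ _ (by omega), invRev_get _ _ (by rw [sub_length]; omega), sub_length,
      sub_get _ _ _ _ (by omega), Option.map_some, Option.some.injEq] at this
    convert this using 3 <;> omega
  rcases Int.emod_two_eq_zero_or_one (a + b' - 1) with h | h
  · have := key ((a + b' - 1) / 2) (by omega) (by omega)
    rw [show a + b' - 1 - (a + b' - 1) / 2 = (a + b' - 1) / 2 by omega] at this
    exact iv_ne _ this.symm
  · have := key ((a + b' - 1) / 2 + 1) (by omega) (by omega)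
    rw [show a + b' - 1 - ((a + b' - 1) / 2 + 1) = (a + b' - 1) / 2 by omega] at this
    exact hr _ (by omega) (by omega) this

def ky (L : List Lt) : ℕ := min (Encodable.encode L) (Encodable.encode (FreeGroup.invRev L))

def ori (L : List Lt) : Bool := decide (Encodable.encode L < Encodable.encode (FreeGroup.invRev L))

lemma ky_inv (L : List Lt) : ky (FreeGroup.invRev L) = ky L := by
  simp [ky, min_comm]

lemma ori_inv {L : List Lt} (h : L ≠ FreeGroup.invRev L) : ori (FreeGroup.invRev L) ≠ ori L := by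
  have : Encodable.encode L ≠ Encodable.encode (FreeGroup.invRev L) :=
    fun e => h (Encodable.encode_injective e)
  simp only [ori, FreeGroup.invRev_invRev, ne_eq, decide_eq_decide]
  omega

lemma ky_eq {L L' : List Lt} (h : ky L = ky L') : L = L' ∨ L = FreeGroup.invRev L' := by
  unfold ky at h
  rcases min_choice (Encodable.encode L) (Encodable.encode (FreeGroup.invRev L)) with h1 | h1 <;>
  rcases min_choice (Encodable.encode L') (Encodable.encode (FreeGroup.invRev L')) with h2 | h2 <;>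
  rw [h1, h2] at h
  · exact Or.inl (Encodable.encode_injective h)
  · exact Or.inr (Encodable.encode_injective h)
  · exact Or.inr (by rw [← Encodable.encode_injective h, FreeGroup.invRev_invRev])
  · exact Or.inl (FreeGroup.invRev_injective (Encodable.encode_injective h))

lemma descend (κ : ℤ → ℕ) (M : ℕ) (v : ℕ) : ∀ i, κ i ≤ v →
    ∃ p, |p - i| ≤ M * v ∧ ∀ j, |j - p| ≤ M → κ p ≤ κ j := by
  induction v with
  | zero => exact fun i hi => ⟨i, by simp, fun j _ => by omega⟩
  | succ v ih =>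
    intro i hi
    by_cases h : ∀ j, |j - i| ≤ M → κ i ≤ κ j
    · exact ⟨i, by rw [sub_self, abs_zero]; positivity, h⟩
    · push Not at h
      obtain ⟨j, h1, h2⟩ := h
      obtain ⟨p, h3, h4⟩ := ih j (by omega)
      refine ⟨p, ?_, h4⟩
      have := abs_sub_le p j i
      push_cast
      linarith

lemma exists_gap (P : ℤ → Prop) (D : ℤ) (h0 : ¬ P 0) (h1 : ∃ p, -D ≤ p ∧ p < 0 ∧ P p)
    (h2 : ∃ p, 0 < p ∧ p ≤ D ∧ P p) :
    ∃ lr : ℤ × ℤ, -D ≤ lr.1 ∧ lr.1 < 0 ∧ 0 < lr.2 ∧ lr.2 ≤ D ∧ P lr.1 ∧ P lr.2 ∧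
      ∀ j, lr.1 < j → j < lr.2 → ¬ P j := by
  obtain ⟨l, hl, hl'⟩ := Int.exists_greatest_of_bdd (P := fun p => -D ≤ p ∧ p < 0 ∧ P p)
    ⟨0, fun z hz => hz.2.1.le⟩ h1
  obtain ⟨r, hr, hr'⟩ := Int.exists_least_of_bdd (P := fun p => 0 < p ∧ p ≤ D ∧ P p)
    ⟨0, fun z hz => hz.1.le⟩ h2
  refine ⟨(l, r), hl.1, hl.2.1, hr.1, hr.2.1, hl.2.2, hr.2.2, fun j j1 j2 hj => ?_⟩
  rcases lt_trichotomy j 0 with h | h | h
  · have := hl' j ⟨by have := hl.1; simp only at j1; omega, h, hj⟩
    simp only at j1; omega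
  · exact h0 (h ▸ hj)
  · have := hr' j ⟨h, by have := hr.2.1; simp only at j2; omega, hj⟩
    simp only at j2; omega

lemma exists_col (T : ℕ) : ∃ (ρ : ℕ) (col : (ℤ → Lt) → Bool × Bool), ∀ (ω ω' : ℤ → Lt) (d : ℤ),
    |d| ≤ T → Red ω ρ → (∀ s : ℤ, -ρ ≤ s → s < ρ → ω' (d - 1 - s) = iv (ω s)) →
      col ω ≠ col ω' := by
  classical
  obtain ⟨M, hM⟩ : ∃ M : ℕ, M = 3 * T := ⟨_, rfl⟩
  obtain ⟨n, hn⟩ : ∃ n : ℕ, n = M + 1 := ⟨_, rfl⟩
  obtain ⟨B, hB⟩ := ((List.finite_length_eq Lt (2 * n)).image ky).bddAbove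
  let κ : (ℤ → Lt) → ℤ → ℕ := fun ω i => ky (sub ω (i - n) (i + n))
  have hκB : ∀ ω i, κ ω i ≤ B := fun ω i =>
    hB ⟨_, show (sub ω (i - n) (i + n)).length = 2 * n by rw [sub_length]; omega, rfl⟩
  let P : (ℤ → Lt) → ℤ → Prop := fun ω p => ∀ j, |j - p| ≤ M → κ ω p ≤ κ ω j
  obtain ⟨E, hE⟩ : ∃ E : ℕ, E = M * B := ⟨_, rfl⟩
  have hE' : (M : ℤ) * B = E := by rw [hE]; push_cast; ring
  have hgap : ∀ ω, ∃ lr : ℤ × ℤ, ¬ P ω 0 → -(2 * E + 1 : ℤ) ≤ lr.1 ∧ lr.1 < 0 ∧ 0 < lr.2 ∧
      lr.2 ≤ 2 * E + 1 ∧ P ω lr.1 ∧ P ω lr.2 ∧ ∀ j, lr.1 < j → j < lr.2 → ¬ P ω j := by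
    intro ω
    by_cases h0 : P ω 0
    · exact ⟨0, fun h => absurd h0 h⟩
    · obtain ⟨p, p1, p2⟩ := descend (κ ω) M B (-(E + 1)) (hκB _ _)
      obtain ⟨q, q1, q2⟩ := descend (κ ω) M B (E + 1) (hκB _ _)
      rw [hE', abs_le] at p1 q1
      obtain ⟨lr, h⟩ := exists_gap (P ω) (2 * E + 1) h0 ⟨p, by omega, by omega, p2⟩
        ⟨q, by omega, by omega, q2⟩
      exact ⟨lr, fun _ => h⟩
  choose gap hgap using hgap
  refine ⟨2 * E + 1 + 2 * T + n + M, fun ω => if h : ∃ p, |p| ≤ (T : ℤ) ∧ P ω p then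
    (true, ori (sub ω (h.choose - n) (h.choose + n))) else (false, ori (sub ω (gap ω).1 (gap ω).2)),
    fun ω ω' d hd hr h => ?_⟩
  push_cast at hr h
  rw [abs_le] at hd
  have hw : ∀ i : ℤ, -(2 * E + 1 + 2 * T + M : ℤ) ≤ i → i ≤ 2 * E + 1 + 2 * T + M →
      sub ω' (d - i - n) (d - i + n) = FreeGroup.invRev (sub ω (i - n) (i + n)) := fun i i1 i2 =>
    sub_refl (d := d) (by ring) (by ring) fun s s1 s2 => h s (by omega) (by omega)
  have hκ : ∀ i : ℤ, -(2 * E + 1 + 2 * T + M : ℤ) ≤ i → i ≤ 2 * E + 1 + 2 * T + M →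
      κ ω' (d - i) = κ ω i := fun i i1 i2 => by
    simp only [κ, hw i i1 i2, ky_inv]
  have hP : ∀ i : ℤ, -(2 * E + 1 + 2 * T : ℤ) ≤ i → i ≤ 2 * E + 1 + 2 * T → (P ω' (d - i) ↔ P ω i) := by
    intro i i1 i2
    constructor
    · intro h1 j hj
      rw [abs_le] at hj
      rw [← hκ i (by omega) (by omega), ← hκ j (by omega) (by omega)]
      exact h1 _ (abs_le.2 ⟨by omega, by omega⟩)
    · intro h1 j hj
      rw [abs_le] at hj
      have := hκ (d - j) (by omega) (by omega)
      rw [sub_sub_cancel] at this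
      rw [hκ i (by omega) (by omega), this]
      exact h1 _ (abs_le.2 ⟨by omega, by omega⟩)
  by_cases h1 : ∃ p, |p| ≤ (T : ℤ) ∧ P ω p <;> by_cases h2 : ∃ p, |p| ≤ (T : ℤ) ∧ P ω' p <;>
    simp only [h1, h2, dif_pos, dif_neg, not_false_eq_true, ne_eq, Prod.mk.injEq, true_and]
  · obtain ⟨p1, p2⟩ := h1.choose_spec
    obtain ⟨q1, q2⟩ := h2.choose_spec
    set p := h1.choose
    set q := h2.choose
    rw [abs_le] at p1 q1
    have a1 := hw (d - q) (by omega) (by omega)
    have a2 := (hP (d - q) (by omega) (by omega)).1 (by rwa [sub_sub_cancel])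
    rw [sub_sub_cancel] at a1
    have a3 : κ ω p = κ ω (d - q) :=
      le_antisymm (p2 _ (abs_le.2 ⟨by omega, by omega⟩)) (a2 _ (abs_le.2 ⟨by omega, by omega⟩))
    rcases ky_eq a3 with e | e
    · rw [a1, ← e]
      exact (ori_inv (sub_ne hr (by omega) (by omega) rfl (by omega) (by omega))).symm
    · exact absurd e (sub_ne hr (by omega) (by omega) (by ring) (by omega) (by omega))
  · simp
  · simp
  · push Not at h1 h2
    obtain ⟨l1, l2, r1, r2, l3, r3, g1⟩ := hgap ω (h1 0 (by simp))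
    obtain ⟨l1', l2', r1', r2', l3', r3', g1'⟩ := hgap ω' (h2 0 (by simp))
    generalize (gap ω).1 = l at *
    generalize (gap ω).2 = r at *
    generalize (gap ω').1 = l' at *
    generalize (gap ω').2 = r' at *
    have b1 : l' < -T := by
      by_contra hc
      exact h2 l' (abs_le.2 ⟨by omega, by omega⟩) l3'
    have b2 : T < r' := by
      by_contra hc
      exact h2 r' (abs_le.2 ⟨by omega, by omega⟩) r3'
    have b3 : l < -T := by
      by_contra hc
      exact h1 l (abs_le.2 ⟨by omega, by omega⟩) l3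
    have b4 : T < r := by
      by_contra hc
      exact h1 r (abs_le.2 ⟨by omega, by omega⟩) r3
    have c1 := (hP (d - l') (by omega) (by omega)).1 (by rwa [sub_sub_cancel])
    have c2 := (hP (d - r') (by omega) (by omega)).1 (by rwa [sub_sub_cancel])
    have c3 := (hP l (by omega) (by omega)).2 l3
    have c4 := (hP r (by omega) (by omega)).2 r3
    have e1 : l' = d - r := by
      have d1 : ¬ (d - l' < r) := fun hc => g1 _ (by omega) hc c1
      have d2 : ¬ (l' < d - r) := fun hc => g1' _ hc (by omega) c4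
      omega
    have e2 : r' = d - l := by
      have d1 : ¬ (l < d - r') := fun hc => g1 _ hc (by omega) c2
      have d2 : ¬ (d - l < r') := fun hc => g1' _ (by omega) hc c3
      omega
    rw [sub_refl (ω := ω) (ω' := ω') (d := d) e1 e2 fun s s1 s2 => h s (by omega) (by omega)]
    exact (ori_inv (sub_ne hr (by omega) (by omega) rfl (by omega) (by omega))).symm

lemma left_mul (w : List Lt) (z : FreeGroup (Fin 2)) : ∃ (p : List Lt) (j : ℕ),
    p.length ≤ w.length ∧ j ≤ w.length ∧ (FreeGroup.mk w * z).toWord = p ++ z.toWord.drop j := by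
  induction w with
  | nil => exact ⟨[], 0, le_rfl, le_rfl, by simp [← FreeGroup.one_eq_mk]⟩
  | cons a w ih =>
    obtain ⟨p, j, h1, h2, h3⟩ := ih
    have e : (FreeGroup.mk (a :: w) * z).toWord
        = FreeGroup.reduce (a :: (FreeGroup.mk w * z).toWord) := by
      conv_lhs => rw [← List.singleton_append, ← FreeGroup.mul_mk, mul_assoc, FreeGroup.toWord_mul,
        FreeGroup.toWord_mk, FreeGroup.reduce_singleton, List.singleton_append]
    have e2 : (FreeGroup.mk (a :: w) * z).toWord = a :: (FreeGroup.mk w * z).toWord ∨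
        (FreeGroup.mk (a :: w) * z).toWord = (FreeGroup.mk w * z).toWord.tail := by
      rw [e, FreeGroup.reduce.cons, FreeGroup.reduce_toWord]
      cases (FreeGroup.mk w * z).toWord with
      | nil => simp
      | cons b t =>
        simp only [List.tail_cons]
        split_ifs <;> simp
    rcases e2 with e2 | e2
    · exact ⟨a :: p, j, by simpa using h1, by simp; omega, by rw [e2, h3]; rfl⟩
    · cases p with
      | nil => exact ⟨[], j + 1, by simp, by simpa using h2, by rw [e2, h3]; simp⟩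
      | cons b p => exact ⟨p, j, by simp at h1 ⊢; omega, by simp; omega, by rw [e2, h3]; simp⟩

def om (x : FreeGroup (Fin 2)) (s : ℤ) : Lt :=
  (x.toWord[((x.toWord.length / 2 : ℕ) + s : ℤ).toNat]?).getD (0, true)

lemma om_red (x : FreeGroup (Fin 2)) (ρ : ℕ) (h : 2 * ρ ≤ x.toWord.length) : Red (om x) ρ := by
  intro s s1 s2 e
  have h1 := List.isChain_iff_getElem.1 (FreeGroup.isReduced_toWord (x := x))
    ((x.toWord.length / 2 : ℕ) + s : ℤ).toNat (by omega)
  unfold om at e
  rw [show ((x.toWord.length / 2 : ℕ) + (s + 1) : ℤ).toNat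
    = ((x.toWord.length / 2 : ℕ) + s : ℤ).toNat + 1 by omega,
    List.getElem?_eq_getElem (by omega), List.getElem?_eq_getElem (by omega)] at e
  simp only [Option.getD_some] at e
  rw [e] at h1
  simp [iv] at h1

lemma om_rel (g x : FreeGroup (Fin 2)) (ρ : ℕ)
    (h : 2 * ρ + 4 * g.toWord.length ≤ x.toWord.length) :
    (g * x⁻¹ * g).toWord.length ≤ x.toWord.length + 2 * g.toWord.length ∧
    x.toWord.length ≤ (g * x⁻¹ * g).toWord.length + 2 * g.toWord.length ∧
    ∃ d : ℤ, |d| ≤ 2 * g.toWord.length + 1 ∧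
      ∀ s : ℤ, -ρ ≤ s → s < ρ → om (g * x⁻¹ * g) (d - 1 - s) = iv (om x s) := by
  obtain ⟨p, j, h1, h2, h3⟩ := left_mul g⁻¹.toWord x
  obtain ⟨p', j', h1', h2', h3'⟩ := left_mul g.toWord (g⁻¹ * x)⁻¹
  rw [FreeGroup.mk_toWord] at h3 h3'
  rw [FreeGroup.toWord_inv, FreeGroup.invRev_length] at h1 h2
  rw [FreeGroup.toWord_inv, h3, mul_inv_rev, inv_inv, ← mul_assoc] at h3'
  have hl : (g * x⁻¹ * g).toWord.length = p'.length + (p.length + (x.toWord.length - j) - j') := by
    rw [h3']; simp; omega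
  refine ⟨by omega, by omega, (x.toWord.length : ℤ) - (x.toWord.length / 2 : ℕ)
    - ((g * x⁻¹ * g).toWord.length / 2 : ℕ) + p'.length - j', abs_le.2 ⟨by omega, by omega⟩,
    fun s s1 s2 => ?_⟩
  unfold om
  generalize (g * x⁻¹ * g).toWord.length / 2 = m
  rw [h3', List.getElem?_append_right (by omega), List.getElem?_drop,
    invRev_get _ _ (by simp; omega), List.getElem?_append_right (by simp; omega),
    List.getElem?_drop, List.getElem?_eq_getElem (l := x.toWord)
      (i := ((x.toWord.length / 2 : ℕ) + s : ℤ).toNat) (by omega)]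
  rw [List.getElem?_eq_getElem (by simp; omega)]
  simp only [Option.map_some, Option.getD_some]
  congr 2
  simp
  omega

/-- The free group on two generators can be colored with finitely many colors so that no infinite set A with A = g A⁻¹ g (for some g) is monochromatic. -/
theorem result :
    ∃ k : ℕ, ∃ c : FreeGroup (Fin 2) → Fin k,
      ∀ A : Set (FreeGroup (Fin 2)), A.Infinite →
        (∃ g : FreeGroup (Fin 2), A = (fun a => g * a⁻¹ * g) '' A) →
          ¬ ∃ i : Fin k, ∀ a ∈ A, c a = i := by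
  choose ρ col hcol using exists_col
  let t : ℕ → ℕ := fun j => ∑ i ∈ Finset.range (j + 1), (2 * ρ i + 10 * i + 10)
  have t1 : ∀ j, t (j + 1) = t j + (2 * ρ (j + 1) + 10 * (j + 1) + 10) := fun j =>
    Finset.sum_range_succ _ _
  have t2 : Monotone t := monotone_nat_of_le_succ fun j => by rw [t1]; omega
  have t3 : ∀ m j, m ≤ j → 2 * ρ m + 10 * m + 10 ≤ t j := fun m j h =>
    Finset.single_le_sum (f := fun i => 2 * ρ i + 10 * i + 10) (fun _ _ => Nat.zero_le _)
      (Finset.mem_range.2 (by omega))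
  let J : ℕ → ℕ := fun L => Nat.findGreatest (fun j => t j ≤ L) L
  have J1 : ∀ L j, t j ≤ L → j ≤ J L ∧ t (J L) ≤ L := by
    intro L j h
    have : j ≤ L := by have := t3 j j le_rfl; omega
    exact ⟨Nat.le_findGreatest this h, Nat.findGreatest_spec (P := fun j => t j ≤ L) this h⟩
  have J2 : ∀ L L' k, t k ≤ L → L ≤ L' + 2 * k → t k ≤ L' → J L ≤ J L' + 1 := by
    intro L L' k h1 h2 h3
    by_contra hn
    have a1 := (J1 L k h1).2
    have a2 := (J1 L' k h3).1
    have a3 : t (J L' + 1 + 1) ≤ t (J L) := t2 (by omega)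
    have a4 : ¬ t (J L' + 1) ≤ L' := fun h => by have := (J1 L' _ h).1; omega
    rw [t1] at a3
    omega
  let c : FreeGroup (Fin 2) → (Bool × Bool) × (Bool × Bool) := fun x =>
    (col (J x.toWord.length / 2) (om x), col ((J x.toWord.length + 1) / 2) (om x))
  refine ⟨_, fun x => Fintype.equivFin _ (c x), ?_⟩
  rintro A hA ⟨g, hg⟩ ⟨i, hi⟩
  obtain ⟨x, hx, hx'⟩ := hA.exists_notMem_finite
    ((List.finite_length_lt Lt (t (4 * g.toWord.length + 4) + 2 * g.toWord.length)).preimage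
      FreeGroup.toWord_injective.injOn)
  have hy : g * x⁻¹ * g ∈ A := hg ▸ ⟨x, hx, rfl⟩
  have e : c x = c (g * x⁻¹ * g) := (Fintype.equivFin _).injective ((hi _ hx).trans (hi _ hy).symm)
  simp only [Set.mem_preimage, Set.mem_ofPred_eq, not_lt] at hx'
  have b0 := t3 _ _ (le_refl (4 * g.toWord.length + 4))
  obtain ⟨b1, b2, -⟩ := om_rel g x 0 (by omega)
  have b3 := J1 x.toWord.length (4 * g.toWord.length + 4) (by omega)
  have b4 := J2 x.toWord.length (g * x⁻¹ * g).toWord.length (4 * g.toWord.length + 4)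
    (by omega) (by omega) (by omega)
  have b5 := J2 (g * x⁻¹ * g).toWord.length x.toWord.length (4 * g.toWord.length + 4)
    (by omega) (by omega) (by omega)
  have key : ∀ m, 2 * g.toWord.length + 1 ≤ m → m ≤ J x.toWord.length →
      col m (om x) ≠ col m (om (g * x⁻¹ * g)) := by
    intro m m1 m2
    have d1 := t3 _ _ m2
    obtain ⟨-, -, d, d2, d3⟩ := om_rel g x (ρ m) (by omega)
    exact hcol m _ _ d (d2.trans (by exact_mod_cast m1)) (om_red x _ (by omega)) d3
  simp only [c, Prod.mk.injEq] at e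
  by_cases h : J x.toWord.length / 2 = J (g * x⁻¹ * g).toWord.length / 2
  · exact key _ (by omega) (by omega) (h ▸ e.1)
  · have h' : (J x.toWord.length + 1) / 2 = (J (g * x⁻¹ * g).toWord.length + 1) / 2 := by omega
    exact key _ (by omega) (by omega) (h' ▸ e.2)

end Pool.Agent.S08929
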