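import Pool.Statements.S08938

set_option autoImplicit false
open Pool Pool.MP_5ac6d8_co

namespace Pool.Agent.S08938

open Finset

def sg {n : ℕ} (R : Type) [Ring R] (A : Finset (Fin n)) (i : Fin n) : R := if i ∈ A then -1 else 1

lemma sg2 {n : ℕ} (R : Type) [Ring R] (A : Finset (Fin n)) (i : Fin n) : sg R A i * sg R A i = 1 := by
  unfold sg
  split_ifs <;> simp

lemma ip {n : ℕ} (R : Type) [Ring R] (A B : Finset (Fin n)) :
    ∑ i, sg R A i * sg R B i = n - 2 * (symmDiff A B).card := by
  have : ∀ i, sg R A i * sg R B i = 1 - 2 * if i ∈ symmDiff A B then 1 else 0 := fun i => by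
    by_cases h : i ∈ A <;> by_cases k : i ∈ B <;> simp [sg, mem_symmDiff, h, k] <;> norm_num
  simp only [this, sum_sub_distrib, ← mul_sum, sum_boole]
  simp

lemma fw {n p : ℕ} [Fact p.Prime] (hn : (n : ZMod p) = 0) (F : Finset (Finset (Fin n)))
    (hF : ∀ A ∈ F, ∀ B ∈ F, A ≠ B → (2 * (symmDiff A B).card : ZMod p) ≠ 0) :
    F.card ≤ (univ.filter fun T : Finset (Fin n) => T.card ≤ p - 1).card := by
  classical
  let χ : Finset (Fin n) → Finset (Fin n) → ZMod p := fun T B => ∏ i ∈ T, sg _ B i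
  let V := fun k => Submodule.span (ZMod p) (((univ.filter fun T : Finset (Fin n) => T.card ≤ k).image χ :
    Finset _) : Set (Finset (Fin n) → ZMod p))
  have mv : ∀ k T, T.card ≤ k → χ T ∈ V k := fun k T h =>
    Submodule.subset_span (mem_coe.2 (mem_image_of_mem _ (by simpa using h)))
  have st : ∀ k i, ∀ f ∈ V k, (fun B => f B * sg _ B i) ∈ V (k + 1) := fun k i f hf => by
    induction hf using Submodule.span_induction with
    | mem f hf =>
      obtain ⟨T, hT, rfl⟩ := mem_image.1 hf
      have hT := (mem_filter.1 hT).2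
      by_cases h : i ∈ T
      · convert mv (k + 1) (T.erase i) (by grw [card_erase_le, hT]; simp) using 2 with B
        simp only [χ]
        rw [← prod_erase_mul _ _ h, mul_assoc, sg2, mul_one]
      · convert mv (k + 1) (insert i T) (by rw [card_insert_of_notMem h]; omega) using 2 with B
        simp only [χ]
        rw [prod_insert h, mul_comm]
    | zero => convert (V (k + 1)).zero_mem using 2; simp
    | add f g _ _ a b => convert (V _).add_mem a b using 2; simp [add_mul]
    | smul c f _ a => convert (V _).smul_mem c a using 2; simp [mul_assoc]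
  have pw : ∀ A k, (fun B => (∑ i, sg (ZMod p) A i * sg _ B i) ^ k) ∈ V k := fun A k => by
    induction k with
    | zero => simpa [χ] using mv 0 ∅ (by simp)
    | succ k ih =>
      convert (V _).sum_mem fun i (_ : i ∈ univ) => (V _).smul_mem (sg _ A i) (st k i _ ih) using 2 with B
      simp only [pow_succ, Finset.sum_apply, Pi.smul_apply, smul_eq_mul, mul_sum]
      exact sum_congr rfl fun i _ => by ring
  let f : F → V (p - 1) := fun A => ⟨fun B => 1 - (∑ i, sg (ZMod p) A.1 i * sg _ B i) ^ (p - 1),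
    (V _).sub_mem (by simpa [χ] using mv _ ∅ (by simp)) (pw A _)⟩
  have li : LinearIndependent (ZMod p) f := by
    refine Fintype.linearIndependent_iff.2 fun g hg A => ?_
    have := congrFun (congrArg Subtype.val hg) A.1
    simp only [AddSubmonoidClass.coe_finset_sum, Finset.sum_apply, SetLike.val_smul, Pi.smul_apply, f,
      smul_eq_mul, ip, hn, zero_sub, ZeroMemClass.coe_zero, Pi.zero_apply] at this
    rw [sum_eq_single A (fun B _ h => by
      rw [ZMod.pow_card_sub_one_eq_one (neg_ne_zero.2 (hF _ B.2 _ A.2 fun e => h (Subtype.ext e))),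
        sub_self, mul_zero]) (by simp)] at this
    simpa [Nat.sub_ne_zero_of_lt (Fact.out : p.Prime).one_lt] using this
  simpa using li.fintype_card_le_finrank.trans ((finrank_span_finset_le_card _).trans card_image_le)

lemma num (n k : ℕ) : ((univ.filter fun T : Finset (Fin n) => T.card ≤ k).card : ℝ) ≤
    3 ^ k * (1 + 1 / 3) ^ n := by
  have := prod_one_add (s := (univ : Finset (Fin n))) (f := fun _ => (1 / 3 : ℝ))
  rw [prod_const, card_univ, Fintype.card_fin] at this
  rw [this, powerset_univ, mul_sum, card_filter]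
  push_cast
  refine sum_le_sum fun T _ => ?_
  split_ifs with h
  · rw [prod_const, one_div, inv_pow, ← div_eq_mul_inv, one_le_div (by positivity)]
    exact pow_le_pow_right₀ (by norm_num) h
  · positivity

abbrev I (n : ℕ) := {p : Fin n × Fin n // p.1 < p.2}

abbrev E (n : ℕ) := EuclideanSpace ℝ (Fin (Fintype.card (I n)))

noncomputable def D {n : ℕ} (i j : Fin n) : E n →L[ℝ] ℝ :=
  if h : i < j then EuclideanSpace.proj (Fintype.equivFin (I n) ⟨(i, j), h⟩)
  else if h : j < i then EuclideanSpace.proj (Fintype.equivFin (I n) ⟨(j, i), h⟩) else 0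

lemma Dc {n : ℕ} (i j : Fin n) : D i j = D j i := by
  rcases lt_trichotomy i j with h | rfl | h
  · simp [D, h, h.not_gt]
  · rfl
  · simp [D, h, h.not_gt]

lemma D0 {n : ℕ} (i : Fin n) : D i i = 0 := by simp [D]

lemma Dn {n : ℕ} (z : E n) : ∑ i, ∑ j, D i j z ^ 2 = 2 * ‖z‖ ^ 2 := by
  have a : ∑ i, ∑ j, (if i < j then D i j z ^ 2 else 0) = ‖z‖ ^ 2 := by
    rw [← Fintype.sum_prod_type', ← sum_filter, sum_subtype (p := fun p : Fin n × Fin n => p.1 < p.2) _
      (by simp), EuclideanSpace.real_norm_sq_eq, ← (Fintype.equivFin (I n)).sum_comp]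
    exact sum_congr rfl fun p _ => by simp [D, p.2]
  have b : ∑ i, ∑ j, (if j < i then D i j z ^ 2 else 0) = ‖z‖ ^ 2 := by
    rw [sum_comm, ← a]
    simp only [Dc]
  rw [two_mul]
  nth_rw 1 [← a, ← b]
  simp only [← sum_add_distrib]
  refine sum_congr rfl fun i _ => sum_congr rfl fun j _ => ?_
  rcases lt_trichotomy i j with h | rfl | h
  · simp [h, h.not_gt]
  · simp [D0]
  · simp [h, h.not_gt]

def P (n : ℕ) : Set (E n) := {z | ∀ i j k, D i j z + D j k z + D i k z ≤ 2 ∧ D i j z ≤ D j k z + D i k z}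

lemma dm {n : ℕ} (hn : 0 < n) {z w : E n} (hz : z ∈ P n) (hw : w ∈ P n) : dist z w ≤ n / 2 := by
  have u : ∀ z ∈ P n, ∀ i j, 0 ≤ D i j z ∧ D i j z ≤ 1 := fun z hz i j => by
    have := hz i i j
    rw [D0] at this
    simp only [ContinuousLinearMap.zero_apply] at this
    constructor <;> linarith [this.1, this.2]
  let e := fun i j => |D i j (z - w)|
  have t : ∀ i j k, e i j + e j k + e i k ≤ 2 := fun i j k => by
    have v : ∀ z ∈ P n, D j k z ≤ D i j z + D i k z ∧ D i k z ≤ D i j z + D j k z := fun z hz =>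
      ⟨by simpa only [Dc k i, Dc j i, add_comm] using (hz j k i).2,
        by simpa only [Dc k j, add_comm] using (hz i k j).2⟩
    simp only [e, map_sub]
    rcases abs_cases (D i j z - D i j w) with ⟨a, -⟩ | ⟨a, -⟩ <;>
      rcases abs_cases (D j k z - D j k w) with ⟨b, -⟩ | ⟨b, -⟩ <;>
      rcases abs_cases (D i k z - D i k w) with ⟨c, -⟩ | ⟨c, -⟩ <;> rw [a, b, c] <;>
      linarith [u z hz i j, u z hz j k, u z hz i k, u w hw i j, u w hw j k, u w hw i k, hz i j k,
        hw i j k, v z hz, v w hw]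
  have s : ∀ i j, n * e i j ^ 2 ≤ e i j * (2 * n) - e i j * ∑ k, e i k - e j i * ∑ k, e j k := fun i j => by
    have := sum_le_sum fun k (_ : k ∈ univ) => t i j k
    simp only [sum_add_distrib, sum_const, card_univ, Fintype.card_fin, nsmul_eq_mul] at this
    rw [show e j i = e i j by simp only [e, Dc]]
    nlinarith [mul_le_mul_of_nonneg_left this (abs_nonneg _ : 0 ≤ e i j)]
  have := sum_le_sum fun i (_ : i ∈ univ) => sum_le_sum fun j (_ : j ∈ univ) => s i j
  simp only [sum_sub_distrib, ← mul_sum] at this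
  rw [sum_comm (f := fun i j => e j i * ∑ k, e j k)] at this
  simp only [← sum_mul, e, sq_abs, Dn] at this
  have b := sum_le_sum fun i (_ : i ∈ univ) => show (∑ k, e i k) * (2 * n) - (∑ k, e i k) * (∑ k, e i k) -
    (∑ k, e i k) * (∑ k, e i k) ≤ n ^ 2 / 2 by nlinarith [sq_nonneg (2 * ∑ k, e i k - n)]
  simp only [sum_sub_distrib, sum_const, card_univ, Fintype.card_fin, nsmul_eq_mul, ← sum_mul, e] at b
  have n0 : (0 : ℝ) < n := by exact_mod_cast hn
  have := le_of_mul_le_mul_left (this.trans b) n0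
  rw [dist_eq_norm]
  nlinarith [norm_nonneg (z - w)]

noncomputable def ct {n : ℕ} (g : Fin n → Fin n → ℝ) : E n :=
  WithLp.toLp 2 fun k => g ((Fintype.equivFin (I n)).symm k).1.1 ((Fintype.equivFin (I n)).symm k).1.2

noncomputable def cut {n : ℕ} (A : Finset (Fin n)) : E n := ct fun i j => (1 - sg ℝ A i * sg ℝ A j) / 2

lemma Dcut {n : ℕ} (A : Finset (Fin n)) (i j : Fin n) : D i j (cut A) = (1 - sg ℝ A i * sg ℝ A j) / 2 := by
  rcases lt_trichotomy i j with h | rfl | h
  · simp [D, h, cut, ct]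
  · simp [D0, sg2]
  · simp [D, h, h.not_gt, cut, ct, mul_comm]

lemma cutP {n : ℕ} (A : Finset (Fin n)) : cut A ∈ P n := fun i j k => by
  simp only [Dcut, sg]
  split_ifs <;> norm_num

lemma cutd {n : ℕ} {A B : Finset (Fin n)} (h : 2 * (symmDiff A B).card = n) :
    (n : ℝ) / 2 ≤ dist (cut A) (cut B) := by
  have := Dn (cut A - cut B)
  have e : ∀ i j, D i j (cut A - cut B) ^ 2 =
      1 / 2 - 1 / 2 * (sg ℝ A i * sg ℝ B i * (sg ℝ A j * sg ℝ B j)) := fun i j => by
    simp only [map_sub, Dcut, sg]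
    split_ifs <;> norm_num
  have h : (n - 2 * (symmDiff A B).card : ℝ) = 0 := by rw [sub_eq_zero]; exact_mod_cast h.symm
  simp only [e, sum_sub_distrib, ← mul_sum, ip, h, sum_const, card_univ, Fintype.card_fin,
    nsmul_eq_mul, mul_zero, sum_const_zero] at this
  rw [dist_eq_norm]
  exact abs_le_of_sq_le_sq' (by nlinarith) (norm_nonneg _) |>.2

lemma mn (n : ℕ) [Fact (Nat.Prime 37)] (hn : n = 148) (hz : (n : ZMod 37) = 0)
    (h : ∀ (d m : ℕ) (a : Fin m → EuclideanSpace ℝ (Fin d)) (b : Fin m → ℝ)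
      (P : Set (EuclideanSpace ℝ (Fin d))), 1 ≤ d →
      P = ⋂ i, {x : EuclideanSpace ℝ (Fin d) | @inner ℝ _ _ (a i) x ≤ b i} →
      Bornology.IsBounded P → (interior P).Nonempty →
      ∃ S : Fin m → Set (EuclideanSpace ℝ (Fin d)),
        (∀ i, S i ⊆ P ∧ Metric.diam (S i) < Metric.diam P) ∧ P ⊆ ⋃ i, S i) :
    ((2 ^ n : ℕ) : ℝ) ≤ 3 ^ (37 - 1) * (1 + 1 / 3) ^ n * (2 * n ^ 3 * (2 * 2)) := by
  classical
  have n0 : 0 < n := by omega
  haveI : NeZero n := ⟨n0.ne'⟩
  let κ := Bool × Fin n × Fin n × Fin n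
  let q := (Fintype.equivFinOfCardEq (show Fintype.card κ = 2 * n ^ 3 by simp [κ]; ring)).symm
  let L : κ → E n →L[ℝ] ℝ := fun c => if c.1 then D c.2.1 c.2.2.1 + D c.2.2.1 c.2.2.2 + D c.2.1 c.2.2.2
    else D c.2.1 c.2.2.1 - D c.2.2.1 c.2.2.2 - D c.2.1 c.2.2.2
  have bd : Bornology.IsBounded (P n) :=
    Metric.isBounded_iff.2 ⟨_, fun z hz w hw => dm n0 hz hw⟩
  obtain ⟨S, h1, h2⟩ := h _ (2 * n ^ 3) (fun i => (InnerProductSpace.toDual ℝ _).symm (L (q i)))
    (fun i => if (q i).1 then 2 else 0) (P n) (Fintype.card_pos_iff.2 ⟨⟨(⟨0, n0⟩, ⟨1, by omega⟩), by simp [Fin.lt_def]⟩⟩) (by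
      ext z
      simp only [P, Set.mem_setOf_eq, Set.mem_iInter, InnerProductSpace.toDual_symm_apply]
      rw [q.forall_congr_right (q := fun c => L c z ≤ if c.1 then 2 else 0)]
      refine ⟨fun h ⟨b, i, j, k⟩ => ?_, fun h i j k => ⟨h (true, i, j, k), ?_⟩⟩
      · cases b
        · exact show D i j z - D j k z - D i k z ≤ 0 by linarith [(h i j k).2]
        · exact (h i j k).1
      · linarith [show D i j z - D j k z - D i k z ≤ 0 from h (false, i, j, k)]) bd ⟨ct fun _ _ => 1 / 2, mem_interior_iff_mem_nhds.2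
      (Filter.mem_of_superset (Metric.ball_mem_nhds _ (show (0 : ℝ) < 1 / 10 by norm_num)) fun z hz => by
      have c : ∀ k, |z k - 1 / 2| < 1 / 10 := fun k => (PiLp.dist_apply_le z _ k).trans_lt hz
      have u : ∀ i j, i ≠ j → |D i j z - 1 / 2| < 1 / 10 := fun i j h => by
        rcases h.lt_or_gt with h | h
        · simpa [D, h] using c _
        · simpa [D, h, h.not_gt] using c _
      have v : ∀ i j, 0 ≤ D i j z ∧ D i j z ≤ 6 / 10 := fun i j => by
        by_cases x : i = j
        · simp only [x, D0, ContinuousLinearMap.zero_apply]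
          norm_num
        · constructor <;> linarith [abs_lt.1 (u i j x)]
      refine fun i j k => ⟨by linarith [v i j, v j k, v i k], ?_⟩
      by_cases y : j = k
      · simp [y, D0]
      by_cases w : i = k
      · simp [w, D0, Dc j k]
      linarith [v i j, abs_lt.1 (u j k y), abs_lt.1 (u i k w)])⟩
  choose c hc using fun A => Set.mem_iUnion.1 (h2 (cutP A))
  have := card_le_mul_card_image_of_maps_to (s := univ) (t := univ)
    (f := fun A => (c A, decide (Even A.card), decide (0 ∈ A))) (by simp) _ fun y _ =>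
    fw (p := 37) hz _ fun A hA B hB ne e => by
      simp only [mem_filter, mem_univ, true_and] at hA hB
      have := hA.trans hB.symm
      simp only [Prod.mk.injEq, decide_eq_decide] at this
      obtain ⟨a, b, d⟩ := this
      have e : 37 ∣ 2 * (symmDiff A B).card := (ZMod.natCast_eq_zero_iff _ _).1 (by exact_mod_cast e)
      have f : 0 < (symmDiff A B).card := card_pos.2 (symmDiff_nonempty.2 ne)
      have g : (symmDiff A B).card < n := ((card_lt_iff_ne_univ _).2 fun h => by
        have : (0 : Fin n) ∈ symmDiff A B := h ▸ mem_univ _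
        simp [mem_symmDiff, d] at this).trans_eq (Fintype.card_fin n)
      have k : (symmDiff A B).card + 2 * (A ∩ B).card = A.card + B.card := by
        rw [symmDiff_def, sup_eq_union, card_union_of_disjoint disjoint_sdiff_sdiff]
        have := card_sdiff_add_card_inter A B
        have := card_sdiff_add_card_inter B A
        rw [inter_comm] at this
        omega
      refine ((cutd (A := A) (B := B) (by simp only [Nat.even_iff] at b; omega)).trans
        (Metric.dist_le_diam_of_mem (bd.subset (h1 _).1) (hc A) (a ▸ hc B))).not_gt ((h1 _).2.trans_le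
        (Metric.diam_le_of_forall_dist_le (by positivity) fun z hz w hw => dm n0 hz hw))
  simp only [card_univ, Fintype.card_finset, Fintype.card_fin, Fintype.card_prod, Fintype.card_bool] at this
  exact (Nat.cast_le.2 this).trans (by
    push_cast
    nlinarith [mul_le_mul_of_nonneg_right (num n (37 - 1)) (show (0 : ℝ) ≤ n ^ 3 by positivity)])

theorem result :
    ¬ (∀ (d m : ℕ) (a : Fin m → EuclideanSpace ℝ (Fin d)) (b : Fin m → ℝ)
      (P : Set (EuclideanSpace ℝ (Fin d))),
      1 ≤ d →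
      P = ⋂ i, {x : EuclideanSpace ℝ (Fin d) | @inner ℝ _ _ (a i) x ≤ b i} →
      Bornology.IsBounded P →
      (interior P).Nonempty →
      ∃ S : Fin m → Set (EuclideanSpace ℝ (Fin d)),
        (∀ i, S i ⊆ P ∧ Metric.diam (S i) < Metric.diam P) ∧ P ⊆ ⋃ i, S i) := by
  intro h
  haveI : Fact (Nat.Prime 37) := ⟨by norm_num⟩
  have := mn 148 rfl ((ZMod.natCast_eq_zero_iff _ _).2 (by norm_num)) h
  norm_num at this

end Pool.Agent.S08938
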