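import Pool.Statements.S08958
-- import your own Pool.Agent.* helpers here

set_option autoImplicit false
open Pool Pool.MP_5b9ab2_co

namespace Pool.Agent.S08958

/-! Counterexample with `d = 6` on ten vertices: the join of three triangle boundaries with two
PS-balls attached has `h = (1, 4, 9, 11, 10, 6, 3)`, which is not a pure O-sequence. -/

def A (j : ℕ) : Finset (Fin 10) := if j = 0 then ∅ else if j = 1 then {9} else {2, 9}

def P (j : ℕ) : Finset (Finset (Fin 10)) :=
  if j = 0 then {{0, 1, 2}, {3, 4, 5}, {6, 7, 8}}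
  else if j = 1 then {{0, 1, 6, 7}, {3, 4, 5}} else {{1, 3, 4, 6, 7}}

def E (j : ℕ) : Finset (Finset (Fin 10)) :=
  (A j ∪ (P j).sup id).powerset.filter (fun F => ∀ B ∈ P j, ¬ B ⊆ F)

def toF (n : ℕ) : Finset (Fin 10) := Finset.univ.filter (fun i => n.testBit i)

def pop : ℕ → ℕ → ℕ
  | 0, _ => 0
  | f + 1, n => n % 2 + pop f (n / 2)

def sb (a n : ℕ) : Bool := a &&& n == a

def q0 (n : ℕ) : Bool := sb n 511 && !sb 7 n && !sb 56 n && !sb 448 n
def q1 (n : ℕ) : Bool := sb n 763 && !sb 195 n && !sb 56 n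
def q2 (n : ℕ) : Bool := sb n 734 && !sb 218 n

lemma sub_iff (a b : ℕ) (ha : a < 1024) : toF a ⊆ toF b ↔ sb a b = true := by
  have ha' : a < 2 ^ 10 := ha
  simp only [sb, beq_iff_eq]
  constructor
  · intro h
    apply Nat.eq_of_testBit_eq
    intro i
    rw [Nat.testBit_and]
    by_cases hi : i < 10
    · cases hb : a.testBit i
      · simp
      · have : (⟨i, hi⟩ : Fin 10) ∈ toF a := by simp [toF, hb]
        have := h this
        simpa [toF] using this
    · have h2 : 2 ^ 10 ≤ 2 ^ i := Nat.pow_le_pow_right (by norm_num) (by omega)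
      rw [Nat.testBit_lt_two_pow (lt_of_lt_of_le ha' h2)]
      simp
  · intro h i hi
    simp only [toF, Finset.mem_filter, Finset.mem_univ, true_and] at hi ⊢
    rw [← h, Nat.testBit_and] at hi
    simpa using (Bool.and_eq_true_iff.1 hi).2

lemma eU : A 0 ∪ (P 0).sup id = toF 511 ∧ A 1 ∪ (P 1).sup id = toF 763 ∧
    A 2 ∪ (P 2).sup id = toF 734 := by decide +kernel

lemma eP : P 0 = {toF 7, toF 56, toF 448} ∧ P 1 = {toF 195, toF 56} ∧ P 2 = {toF 218} := by
  decide +kernel

lemma eA : A 1 = toF 512 ∧ A 2 = toF 516 := by decide +kernel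

lemma d3 : ((List.range 1024).all fun n => (toF n).card == pop 10 n) = true := by
  decide +kernel

lemma d4 : ((List.range 1024).all fun n => ((q0 n && q1 n) == (q1 n && !sb 512 n)) &&
    (((q0 n || q1 n) && q2 n) == (q2 n && !sb 516 n))) = true := by
  decide +kernel

lemma mem0 (n : ℕ) (hn : n < 1024) : toF n ∈ E 0 ↔ q0 n = true := by
  rw [E, Finset.mem_filter, Finset.mem_powerset, eU.1, eP.1]
  simp only [Finset.mem_insert, Finset.mem_singleton, forall_eq_or_imp, forall_eq, sub_iff n _ hn,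
    sub_iff 7 n (by norm_num), sub_iff 56 n (by norm_num), sub_iff 448 n (by norm_num), q0]
  simp [and_assoc]

lemma mem1 (n : ℕ) (hn : n < 1024) : toF n ∈ E 1 ↔ q1 n = true := by
  rw [E, Finset.mem_filter, Finset.mem_powerset, eU.2.1, eP.2.1]
  simp only [Finset.mem_insert, Finset.mem_singleton, forall_eq_or_imp, forall_eq, sub_iff n _ hn,
    sub_iff 195 n (by norm_num), sub_iff 56 n (by norm_num), q1]
  simp [and_assoc]

lemma mem2 (n : ℕ) (hn : n < 1024) : toF n ∈ E 2 ↔ q2 n = true := by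
  rw [E, Finset.mem_filter, Finset.mem_powerset, eU.2.2, eP.2.2]
  simp only [Finset.mem_singleton, forall_eq, sub_iff n _ hn, sub_iff 218 n (by norm_num), q2]
  simp

lemma toF_inj : Set.InjOn toF (Finset.range 1024 : Set ℕ) := by
  intro a ha b hb h
  have ha' : a < 2 ^ 10 := by simpa using ha
  have hb' : b < 2 ^ 10 := by simpa using hb
  apply Nat.eq_of_testBit_eq
  intro i
  by_cases hi : i < 10
  · have := Finset.ext_iff.1 h ⟨i, hi⟩
    simp only [toF, Finset.mem_filter, Finset.mem_univ, true_and] at this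
    exact Bool.eq_iff_iff.2 this
  · have h2 : 2 ^ 10 ≤ 2 ^ i := Nat.pow_le_pow_right (by norm_num) (by omega)
    rw [Nat.testBit_lt_two_pow (lt_of_lt_of_le ha' h2),
      Nat.testBit_lt_two_pow (lt_of_lt_of_le hb' h2)]

lemma toF_im : (Finset.range 1024).image toF = Finset.univ := by
  apply Finset.eq_univ_of_card
  rw [Finset.card_image_of_injOn toF_inj]
  simp

lemma toF_surj (F : Finset (Fin 10)) : ∃ n < 1024, toF n = F := by
  have : F ∈ (Finset.range 1024).image toF := by rw [toF_im]; exact Finset.mem_univ _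
  obtain ⟨n, hn, rfl⟩ := Finset.mem_image.1 this
  exact ⟨n, Finset.mem_range.1 hn, rfl⟩

def D : Finset (Finset (Fin 10)) := (Finset.range (2 + 1)).biUnion E

lemma fcount (i : ℕ) : (D.filter (fun F => F.card = i)).card =
    ((Finset.range 1024).filter (fun n => ((q0 n || q1 n || q2 n) && pop 10 n == i) = true)).card := by
  rw [← Finset.card_image_of_injOn (toF_inj.mono (Finset.coe_subset.2 (Finset.filter_subset _ _)))]
  refine congrArg Finset.card ?_
  ext F
  obtain ⟨n, hn, rfl⟩ := toF_surj F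
  have h3 := List.all_eq_true.1 d3 n (List.mem_range.2 hn)
  rw [beq_iff_eq] at h3
  have hD : toF n ∈ D ↔ (q0 n || q1 n || q2 n) = true := by
    simp only [D, Finset.mem_biUnion, Finset.mem_range, Bool.or_eq_true, ← mem0 n hn,
      ← mem1 n hn, ← mem2 n hn]
    constructor
    · rintro ⟨j, hj, h⟩
      interval_cases j
      · exact Or.inl (Or.inl h)
      · exact Or.inl (Or.inr h)
      · exact Or.inr h
    · rintro ((h | h) | h)
      · exact ⟨0, by norm_num, h⟩
      · exact ⟨1, by norm_num, h⟩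
      · exact ⟨2, by norm_num, h⟩
  rw [Finset.mem_filter, hD, h3, Finset.mem_image]
  constructor
  · rintro ⟨h1, h2⟩
    exact ⟨n, Finset.mem_filter.2 ⟨Finset.mem_range.2 hn, by simp [h1, h2]⟩, rfl⟩
  · rintro ⟨m, hm, hmn⟩
    obtain ⟨hm1, hm2⟩ := Finset.mem_filter.1 hm
    have : m = n := toF_inj (Finset.mem_coe.2 hm1) (Finset.mem_coe.2 (Finset.mem_range.2 hn)) hmn
    subst this
    simpa using hm2

lemma fvals : ∀ i < 7, ((Finset.range 1024).filter
    (fun n => ((q0 n || q1 n || q2 n) && pop 10 n == i) = true)).card =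
      [1, 10, 44, 107, 152, 121, 44].getD i 0 := by
  decide +kernel

lemma glue (j : ℕ) (h1 : 1 ≤ j) (h2 : j ≤ 2) : (A j).Nonempty ∧
    ((Finset.range j).biUnion E) ∩ E j = (E j).filter (fun F => ¬ A j ⊆ F) := by
  refine ⟨by interval_cases j <;> decide, ?_⟩
  ext F
  obtain ⟨n, hn, rfl⟩ := toF_surj F
  have h4 := List.all_eq_true.1 d4 n (List.mem_range.2 hn)
  simp only [Bool.and_eq_true, beq_iff_eq] at h4
  have a1 : A 1 ⊆ toF n ↔ sb 512 n = true := by rw [eA.1, sub_iff 512 n (by norm_num)]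
  have a2 : A 2 ⊆ toF n ↔ sb 516 n = true := by rw [eA.2, sub_iff 516 n (by norm_num)]
  interval_cases j
  · simp only [Finset.range_one, Finset.singleton_biUnion, Finset.mem_inter, Finset.mem_filter,
      mem0 n hn, mem1 n hn, a1]
    have := h4.1
    revert this
    cases q0 n <;> cases q1 n <;> cases sb 512 n <;> simp
  · have hr : Finset.range 2 = {0, 1} := by decide
    simp only [hr, Finset.biUnion_insert, Finset.singleton_biUnion, Finset.mem_inter,
      Finset.mem_union, Finset.mem_filter, mem0 n hn, mem1 n hn, mem2 n hn, a2]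
    have := h4.2
    revert this
    cases q0 n <;> cases q1 n <;> cases q2 n <;> cases sb 516 n <;> simp

/-! ### The sequence is not a pure O-sequence -/

abbrev Q := ℕ × ℕ × ℕ × ℕ

def le (x a : Q) : Bool :=
  Nat.ble x.1 a.1 && Nat.ble x.2.1 a.2.1 && Nat.ble x.2.2.1 a.2.2.1 && Nat.ble x.2.2.2 a.2.2.2

def LL (k : ℕ) : List Q :=
  (List.range (k + 1)).flatMap fun a => (List.range (k + 1 - a)).flatMap fun b =>
    (List.range (k + 1 - a - b)).map fun c => (a, b, c, k - a - b - c)

lemma mem_LL (k : ℕ) (x : Q) : x ∈ LL k ↔ x.1 + x.2.1 + x.2.2.1 + x.2.2.2 = k := by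
  obtain ⟨a, b, c, d⟩ := x
  simp only [LL, List.mem_flatMap, List.mem_range, List.mem_map, Prod.mk.injEq]
  constructor
  · rintro ⟨a', ha, b', hb, c', hc, rfl, rfl, rfl, rfl⟩
    omega
  · intro h
    exact ⟨a, by omega, b, by omega, c, by omega, rfl, rfl, rfl, by omega⟩

def mk (p : Q → Bool) : List Q → ℕ
  | [] => 0
  | x :: t => Nat.bit (p x) (mk p t)

lemma mk_or (p q : Q → Bool) (L : List Q) :
    mk p L ||| mk q L = mk (fun x => p x || q x) L := by
  induction L with
  | nil => simp [mk]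
  | cons x t ih => simp only [mk, Nat.lor_bit, ih]

lemma pop_mk (p : Q → Bool) (L : List Q) : pop L.length (mk p L) = L.countP p := by
  induction L with
  | nil => simp [pop]
  | cons x t ih =>
    simp only [mk, List.length_cons, pop, Nat.bit_div_two, ih, List.countP_cons, Nat.bit_mod_two]
    cases p x <;> simp [add_comm]

def msk (a : Q) : ℕ × ℕ × ℕ :=
  (mk (fun x => le x a) (LL 2), mk (fun x => le x a) (LL 3), mk (fun x => le x a) (LL 5))

def T5 : ℕ := 112004398439102515831086157106144944400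

def p5 (n : ℕ) : ℕ := Nat.land (Nat.shiftRight T5 (Nat.mul 4 (Nat.mod n 32))) 15

def p10 (n : ℕ) : ℕ := Nat.add (p5 n) (p5 (Nat.div n 32))

def p20 (n : ℕ) : ℕ := Nat.add (p10 n) (p10 (Nat.div n 1024))

lemma pop_add (a b n : ℕ) : pop (a + b) n = pop a n + pop b (n / 2 ^ a) := by
  induction a generalizing n with
  | zero => simp [pop]
  | succ a ih =>
    rw [Nat.add_right_comm, pop, pop, ih, Nat.div_div_eq_div_mul, add_assoc, pow_succ']

lemma p5_eq (n : ℕ) : p5 n = pop 5 n := by
  have h : ∀ m < 32, p5 m = pop 5 m := by decide +kernel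
  have h1 : p5 n = p5 (n % 32) := by
    unfold p5
    congr 3
    exact (Nat.mod_mod n 32).symm
  rw [h1, h _ (Nat.mod_lt _ (by norm_num))]
  simp only [pop]
  omega

lemma p10_eq (n : ℕ) : p10 n = pop 10 n := by
  rw [pop_add 5 5, ← p5_eq, ← p5_eq]; rfl

lemma p20_eq (n : ℕ) : p20 n = pop 20 n := by
  rw [pop_add 10 10, ← p10_eq, ← p10_eq]; rfl

def ok (x y z : ℕ × ℕ × ℕ) : Bool :=
  !(Nat.beq (p10 (Nat.lor (Nat.lor x.1 y.1) z.1)) 9 &&
    (Nat.beq (p20 (Nat.lor (Nat.lor x.2.1 y.2.1) z.2.1)) 11 &&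
    Nat.beq (pop 56 (Nat.lor (Nat.lor x.2.2 y.2.2) z.2.2)) 6))

lemma ok_eq (x y z : ℕ × ℕ × ℕ) : ok x y z =
    !(Nat.beq (pop 10 (x.1 ||| y.1 ||| z.1)) 9 && (Nat.beq (pop 20 (x.2.1 ||| y.2.1 ||| z.2.1)) 11 &&
    Nat.beq (pop 56 (x.2.2 ||| y.2.2 ||| z.2.2)) 6)) := by
  rw [ok, p10_eq, p20_eq]; rfl

def chk2 (x : ℕ × ℕ × ℕ) : List (ℕ × ℕ × ℕ) → Bool
  | [] => true
  | y :: t => t.all (ok x y) && chk2 x t

def chk3 : List (ℕ × ℕ × ℕ) → Bool
  | [] => true
  | x :: t => chk2 x t && chk3 t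

lemma chk2_sound (x : ℕ × ℕ × ℕ) (L : List (ℕ × ℕ × ℕ)) (h : chk2 x L = true) :
    L.Pairwise (fun y z => ok x y z = true) := by
  induction L with
  | nil => exact List.Pairwise.nil
  | cons y t ih =>
    simp only [chk2, Bool.and_eq_true, List.all_eq_true] at h
    exact List.Pairwise.cons h.1 (ih h.2)

lemma chk3_sound (L : List (ℕ × ℕ × ℕ)) (h : chk3 L = true) :
    L.Triplewise (fun x y z => ok x y z = true) := by
  induction L with
  | nil => exact List.Triplewise.nil
  | cons x t ih =>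
    simp only [chk3, Bool.and_eq_true] at h
    exact List.Triplewise.cons (chk2_sound x t h.1) (ih h.2)

def DL : List (ℕ × ℕ × ℕ) :=
  [(1, 1, 1), (3, 3, 3), (7, 7, 6), (7, 15, 12), (7, 14, 24), (6, 12, 48), (4, 8, 32),
    (9, 17, 65), (27, 51, 194), (31, 119, 388), (31, 126, 776), (30, 108, 1552), (20, 72, 1056),
    (41, 145, 2112), (59, 435, 6272), (63, 502, 12544), (62, 492, 25088), (52, 328, 17408),
    (41, 657, 34816), (59, 946, 102400), (62, 996, 204800), (52, 840, 147456),
    (41, 656, 294912), (58, 928, 851968), (52, 832, 655360), (40, 640, 1310720),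
    (48, 768, 1572864), (32, 512, 1048576), (65, 1025, 2097153), (195, 3075, 6291458),
    (199, 7175, 12582916), (199, 7182, 25165832), (198, 6156, 50331664), (132, 4104, 33554464),
    (329, 9233, 69206080), (475, 27699, 205521024), (479, 31862, 411042048),
    (478, 30828, 822084096), (404, 20552, 570426368), (361, 42129, 1140852736),
    (507, 60850, 3355447296), (510, 63972, 6710894592), (436, 53576, 4831854592),
    (361, 42640, 9663709184), (506, 60320, 27917352960), (436, 54080, 21474967552),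
    (360, 41600, 42949935104), (432, 49920, 51540131840), (288, 33280, 34360786944),
    (577, 66561, 68721573888), (707, 199683, 206162624512), (711, 203782, 412325249024),
    (710, 202764, 824650498048), (644, 135176, 549789368320), (841, 336913, 1168298213376),
    (987, 486450, 3436108054528), (990, 489572, 6872216109056), (916, 413768, 4948339195904),
    (873, 369808, 9896678391808), (1018, 518560, 28589449805824), (948, 446784, 21994527522816),
    (872, 369280, 43989055045632), (944, 443136, 52793738002432), (800, 295424, 35218731827200),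
    (577, 590849, 70437463654400), (707, 723970, 211243671486464),
    (710, 727044, 422487342972928), (644, 659464, 282024732524544),
    (841, 861200, 634418209226752), (986, 1009696, 1831786371874816),
    (916, 938048, 1411772930064384), (872, 893056, 2823545860128768),
    (944, 966912, 3395291906572288), (800, 819712, 2286984185774080),
    (577, 590848, 4573968371548160), (706, 722944, 13651536370466816),
    (644, 659456, 9288674231451648), (840, 860160, 23080948090273792),
    (912, 933888, 28147497671065600), (800, 819200, 20266198323167232),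
    (576, 589824, 40532396646334464), (640, 655360, 45035996273704960),
    (768, 786432, 54043195528445952), (512, 524288, 36028797018963968)]

lemma DL_eq : (LL 6).map msk = DL := by decide +kernel

def chkN : ℕ → List (ℕ × ℕ × ℕ) → Bool
  | 0, _ => true
  | _ + 1, [] => true
  | n + 1, x :: t => chk2 x t && chkN n t

lemma chkN_step (n : ℕ) (L : List (ℕ × ℕ × ℕ)) (h1 : chkN n L = true)
    (h2 : chk3 (L.drop n) = true) : chk3 L = true := by
  induction n generalizing L with
  | zero => simpa using h2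
  | succ n ih =>
    cases L with
    | nil => rfl
    | cons x t =>
      simp only [chkN, Bool.and_eq_true] at h1
      simp only [chk3, Bool.and_eq_true]
      exact ⟨h1.1, ih t h1.2 (by simpa using h2)⟩

lemma step (a n : ℕ) (h1 : chkN n (DL.drop a) = true) (h2 : chk3 (DL.drop (a + n)) = true) :
    chk3 (DL.drop a) = true :=
  chkN_step n _ h1 (by rw [List.drop_drop]; exact h2)

lemma c0 : chkN 3 (DL.drop 0) = true := by decide +kernel

lemma c3 : chkN 3 (DL.drop 3) = true := by decide +kernel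

lemma c6 : chkN 4 (DL.drop 6) = true := by decide +kernel

lemma c10 : chkN 4 (DL.drop 10) = true := by decide +kernel

lemma c14 : chkN 5 (DL.drop 14) = true := by decide +kernel

lemma c19 : chkN 5 (DL.drop 19) = true := by decide +kernel

lemma c24 : chkN 6 (DL.drop 24) = true := by decide +kernel

lemma c30 : chkN 8 (DL.drop 30) = true := by decide +kernel

lemma c38 : chkN 12 (DL.drop 38) = true := by decide +kernel

lemma c50 : chk3 (DL.drop 50) = true := by decide +kernel

lemma DL_ok : chk3 DL = true :=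
  step 0 3 c0
    (step 3 3 c3
    (step 6 4 c6
    (step 10 4 c10
    (step 14 5 c14
    (step 19 5 c19
    (step 24 6 c24
    (step 30 8 c30
    (step 38 12 c38
    c50))))))))

lemma ok_swap1 (x y z : ℕ × ℕ × ℕ) : ok x y z = ok y x z := by
  simp only [ok_eq, Nat.lor_comm x.1 y.1, Nat.lor_comm x.2.1 y.2.1, Nat.lor_comm x.2.2 y.2.2]

lemma ok_swap2 (x y z : ℕ × ℕ × ℕ) : ok x y z = ok x z y := by
  simp only [ok_eq, Nat.lor_assoc, Nat.lor_comm y.1 z.1, Nat.lor_comm y.2.1 z.2.1,
    Nat.lor_comm y.2.2 z.2.2]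

lemma ok_all (a b c : Q) (ha : a ∈ LL 6) (hb : b ∈ LL 6) (hc : c ∈ LL 6) (hab : a ≠ b)
    (hac : a ≠ c) (hbc : b ≠ c) : ok (msk a) (msk b) (msk c) = true := by
  have h := chk3_sound _ DL_ok
  rw [← DL_eq, List.triplewise_map, List.triplewise_iff_getElem] at h
  obtain ⟨i, hi, rfl⟩ := List.getElem_of_mem ha
  obtain ⟨j, hj, rfl⟩ := List.getElem_of_mem hb
  obtain ⟨k, hk, rfl⟩ := List.getElem_of_mem hc
  have hij : i ≠ j := by rintro rfl; exact hab rfl
  have hik : i ≠ k := by rintro rfl; exact hac rfl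
  have hjk : j ≠ k := by rintro rfl; exact hbc rfl
  rcases lt_or_gt_of_ne hij with h1 | h1 <;> rcases lt_or_gt_of_ne hik with h2 | h2 <;>
    rcases lt_or_gt_of_ne hjk with h3 | h3
  · exact h i j k h1 h3 hk
  · rw [ok_swap2]; exact h i k j h2 h3 hj
  · omega
  · rw [ok_swap2, ok_swap1]; exact h k i j h2 h1 hj
  · rw [ok_swap1]; exact h j i k h1 h2 hk
  · omega
  · rw [ok_swap1, ok_swap2]; exact h j k i h3 h2 hi
  · rw [ok_swap1, ok_swap2, ok_swap1]; exact h k j i h3 h1 hi

lemma LL_nodup : (LL 2).Nodup ∧ (LL 3).Nodup ∧ (LL 5).Nodup := by decide +kernel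

lemma LL_len : (LL 2).length = 10 ∧ (LL 3).length = 20 ∧ (LL 5).length = 56 := by decide +kernel

lemma not_pure (r : ℕ) (M : Finset (Fin r → ℕ))
    (hdown : ∀ μ ∈ M, ∀ ν : Fin r → ℕ, ν ≤ μ → ν ∈ M)
    (hpure : ∀ μ ∈ M, ∀ ν ∈ M, (∀ κ ∈ M, μ ≤ κ → κ = μ) → (∀ κ ∈ M, ν ≤ κ → κ = ν) →
        ∑ i, μ i = ∑ i, ν i)
    (h1 : (M.filter (fun μ => ∑ i, μ i = 1)).card = 4)
    (h2 : (M.filter (fun μ => ∑ i, μ i = 2)).card = 9)
    (h3 : (M.filter (fun μ => ∑ i, μ i = 3)).card = 11)
    (h5 : (M.filter (fun μ => ∑ i, μ i = 5)).card = 6)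
    (h6 : (M.filter (fun μ => ∑ i, μ i = 6)).card = 3)
    (h7 : ∀ μ ∈ M, ∑ i, μ i ≤ 6) : False := by
  classical
  obtain ⟨m1, m2, m3, h12, h13, h23, hT⟩ := Finset.card_eq_three.1 h6
  have hm : ∀ μ, (μ ∈ M ∧ ∑ i, μ i = 6) ↔ (μ = m1 ∨ μ = m2 ∨ μ = m3) := by
    intro μ
    have := Finset.ext_iff.1 hT μ
    simpa using this
  have hm1 := (hm m1).2 (Or.inl rfl)
  have hm2 := (hm m2).2 (Or.inr (Or.inl rfl))
  have hm3 := (hm m3).2 (Or.inr (Or.inr rfl))
  have hmax1 : ∀ κ ∈ M, m1 ≤ κ → κ = m1 := by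
    intro κ hκ hle
    have h6' := h7 κ hκ
    have := (Finset.sum_eq_sum_iff_of_le (s := Finset.univ) (fun i _ => hle i)).1
      (le_antisymm (Finset.sum_le_sum (fun i _ => hle i)) (by rw [hm1.2]; exact h6'))
    funext i
    exact (this i (Finset.mem_univ i)).symm
  have hbelow : ∀ μ ∈ M, μ ≤ m1 ∨ μ ≤ m2 ∨ μ ≤ m3 := by
    intro μ hμ
    obtain ⟨κ, hle, hκ⟩ := M.exists_le_maximal hμ
    have hs := hpure κ hκ.1 m1 hm1.1 (fun τ hτ h => le_antisymm (hκ.2 hτ h) h) hmax1
    rcases (hm κ).1 ⟨hκ.1, hs.trans hm1.2⟩ with rfl | rfl | rfl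
    · exact Or.inl hle
    · exact Or.inr (Or.inl hle)
    · exact Or.inr (Or.inr hle)
  let S : Finset (Fin r) := Finset.univ.filter (fun i => (Pi.single i 1 : Fin r → ℕ) ∈ M)
  have hS : S.card = 4 := by
    rw [← h1]
    refine Finset.card_bij (fun i _ => (Pi.single i 1 : Fin r → ℕ)) ?_ ?_ ?_
    · intro i hi
      exact Finset.mem_filter.2 ⟨(Finset.mem_filter.1 hi).2, by simp⟩
    · intro i _ j _ hij
      by_contra hne
      have := congrFun hij i
      simp [hne] at this
    · intro μ hμ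
      obtain ⟨hμ1, hμ2⟩ := Finset.mem_filter.1 hμ
      obtain ⟨i, -, hi⟩ := Finset.exists_ne_zero_of_sum_ne_zero (s := Finset.univ) (f := μ)
        (by omega)
      have hle : (Pi.single i 1 : Fin r → ℕ) ≤ μ := by
        intro j
        by_cases hj : j = i
        · subst hj; simp; omega
        · simp [hj]
      have heq : (Pi.single i 1 : Fin r → ℕ) = μ := by
        have := (Finset.sum_eq_sum_iff_of_le (s := Finset.univ) (fun j _ => hle j)).1
          (by rw [hμ2]; simp)
        funext j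
        exact this j (Finset.mem_univ j)
      exact ⟨i, Finset.mem_filter.2 ⟨Finset.mem_univ _, heq ▸ hμ1⟩, heq⟩
  let e : Fin 4 → Fin r := fun i => S.orderEmbOfFin hS i
  have he : Function.Injective e := (S.orderEmbOfFin hS).injective
  have hrange : Finset.univ.image e = S := by
    apply Finset.coe_injective
    rw [Finset.coe_image, Finset.coe_univ, Set.image_univ]
    exact S.range_orderEmbOfFin hS
  have hsupp : ∀ μ ∈ M, ∀ i, i ∉ S → μ i = 0 := by
    intro μ hμ i hi
    by_contra hne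
    apply hi
    refine Finset.mem_filter.2 ⟨Finset.mem_univ _, hdown μ hμ _ (fun j => ?_)⟩
    by_cases hj : j = i
    · subst hj; simp; omega
    · simp [hj]
  let res : (Fin r → ℕ) → Q := fun μ => (μ (e 0), μ (e 1), μ (e 2), μ (e 3))
  have hsum : ∀ μ : Fin r → ℕ, (∀ i, i ∉ S → μ i = 0) →
      ∑ i, μ i = μ (e 0) + μ (e 1) + μ (e 2) + μ (e 3) := by
    intro μ hμ
    rw [← Finset.sum_subset (Finset.subset_univ S) (fun i _ hi => hμ i hi), ← hrange,
      Finset.sum_image (fun a _ b _ hab => he hab), Fin.sum_univ_four]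
  have hinj : ∀ μ ∈ M, ∀ ν ∈ M, res μ = res ν → μ = ν := by
    intro μ hμ ν hν h
    funext i
    by_cases hi : i ∈ S
    · rw [← hrange] at hi
      obtain ⟨j, -, rfl⟩ := Finset.mem_image.1 hi
      simp only [res, Prod.mk.injEq] at h
      fin_cases j
      · exact h.1
      · exact h.2.1
      · exact h.2.2.1
      · exact h.2.2.2
    · rw [hsupp μ hμ i hi, hsupp ν hν i hi]
  have hle : ∀ μ ν : Fin r → ℕ, μ ≤ ν → le (res μ) (res ν) = true := by
    intro μ ν h
    simp only [le, res, Bool.and_eq_true, Nat.ble_eq]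
    exact ⟨⟨⟨h _, h _⟩, h _⟩, h _⟩
  have hext : ∀ x : Q, ∃ μ : Fin r → ℕ, res μ = x ∧ (∀ i, i ∉ S → μ i = 0) ∧
      ∀ ν : Fin r → ℕ, le x (res ν) = true → μ ≤ ν := by
    rintro ⟨a, b, c, d⟩
    let g : Fin 4 → ℕ := ![a, b, c, d]
    have hg : ∀ j, Function.extend e g 0 (e j) = g j := fun j => he.extend_apply g 0 j
    have hz : ∀ i, i ∉ S → Function.extend e g (0 : Fin r → ℕ) i = 0 := by
      intro i hi
      rw [Function.extend_apply' g (0 : Fin r → ℕ) i]
      · rfl
      · rintro ⟨j, rfl⟩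
        exact hi (hrange ▸ Finset.mem_image_of_mem e (Finset.mem_univ j))
    refine ⟨Function.extend e g 0, by simp only [res, hg]; rfl, hz, fun ν hν i => ?_⟩
    by_cases hi : i ∈ S
    · rw [← hrange] at hi
      obtain ⟨j, -, rfl⟩ := Finset.mem_image.1 hi
      rw [hg]
      simp only [le, res, Bool.and_eq_true, Nat.ble_eq] at hν
      fin_cases j
      · exact hν.1.1.1
      · exact hν.1.1.2
      · exact hν.1.2
      · exact hν.2
    · rw [hz i hi]; exact Nat.zero_le _
  have hcount : ∀ k, (LL k).Nodup → (M.filter (fun μ => ∑ i, μ i = k)).card =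
      (LL k).countP (fun x => (le x (res m1) || le x (res m2)) || le x (res m3)) := by
    intro k hk
    rw [List.countP_eq_length_filter, ← List.toFinset_card_of_nodup (hk.filter _)]
    refine Finset.card_bij (fun μ _ => res μ) ?_ ?_ ?_
    · intro μ hμ
      obtain ⟨hμ1, hμ2⟩ := Finset.mem_filter.1 hμ
      rw [List.mem_toFinset, List.mem_filter, mem_LL]
      refine ⟨by rw [← hμ2, hsum μ (hsupp μ hμ1)], ?_⟩
      rcases hbelow μ hμ1 with h | h | h <;> simp [hle _ _ h]
    · intro μ hμ ν hν h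
      exact hinj μ (Finset.mem_filter.1 hμ).1 ν (Finset.mem_filter.1 hν).1 h
    · intro x hx
      rw [List.mem_toFinset, List.mem_filter, mem_LL] at hx
      obtain ⟨μ, hμ1, hμ2, hμ3⟩ := hext x
      refine ⟨μ, Finset.mem_filter.2 ⟨?_, ?_⟩, hμ1⟩
      · have := hx.2
        simp only [Bool.or_eq_true] at this
        rcases this with (h | h) | h
        · exact hdown _ hm1.1 _ (hμ3 _ h)
        · exact hdown _ hm2.1 _ (hμ3 _ h)
        · exact hdown _ hm3.1 _ (hμ3 _ h)
      · rw [hsum μ hμ2, ← hx.1, ← hμ1]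
  have hin : ∀ μ, μ ∈ M ∧ ∑ i, μ i = 6 → res μ ∈ LL 6 := by
    intro μ hμ
    rw [mem_LL, ← hμ.2, hsum μ (hsupp μ hμ.1)]
  have hok := ok_all (res m1) (res m2) (res m3) (hin _ hm1) (hin _ hm2) (hin _ hm3)
    (fun h => h12 (hinj _ hm1.1 _ hm2.1 h)) (fun h => h13 (hinj _ hm1.1 _ hm3.1 h))
    (fun h => h23 (hinj _ hm2.1 _ hm3.1 h))
  rw [hcount 2 LL_nodup.1, ← pop_mk, LL_len.1] at h2
  rw [hcount 3 LL_nodup.2.1, ← pop_mk, LL_len.2.1] at h3
  rw [hcount 5 LL_nodup.2.2, ← pop_mk, LL_len.2.2] at h5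
  simp only [ok_eq, msk, mk_or, h2, h3, h5] at hok
  simp at hok

/-- The negation of the preceding statement: For every complex with a PS ear decomposition (a PS-sphere with PS-balls of the same dimension attached along their boundaries), its h-vector is the degree-count vector of a finite pure multicomplex of monomials. -/
theorem result :
    ¬ (∀ (n d : ℕ) (Δ : Finset (Finset (Fin n))),
    (∃ (m : ℕ) (A : ℕ → Finset (Fin n)) (P : ℕ → Finset (Finset (Fin n)))
        (E : ℕ → Finset (Finset (Fin n))),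
      (∀ j, E j = (A j ∪ (P j).sup id).powerset.filter (fun F => ∀ B ∈ P j, ¬ B ⊆ F)) ∧
      A 0 = ∅ ∧
      (∀ j ≤ m, (∀ B ∈ P j, 2 ≤ B.card ∧ Disjoint (A j) B) ∧
        (∀ B ∈ P j, ∀ C ∈ P j, B ≠ C → Disjoint B C) ∧
        (A j).card + ∑ B ∈ P j, (B.card - 1) = d) ∧
      (∀ j, 1 ≤ j → j ≤ m → (A j).Nonempty ∧
        ((Finset.range j).biUnion E) ∩ E j = (E j).filter (fun F => ¬ A j ⊆ F)) ∧
      Δ = (Finset.range (m + 1)).biUnion E) →
    ∃ (r : ℕ) (M : Finset (Fin r → ℕ)),
      (∀ μ ∈ M, ∀ ν : Fin r → ℕ, ν ≤ μ → ν ∈ M) ∧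
      (∀ μ ∈ M, ∀ ν ∈ M, (∀ κ ∈ M, μ ≤ κ → κ = μ) → (∀ κ ∈ M, ν ≤ κ → κ = ν) →
        ∑ i, μ i = ∑ i, ν i) ∧
      ∀ k : ℕ, (((M.filter (fun μ => ∑ i, μ i = k)).card : ℤ) =
        if k ≤ d then
          ∑ i ∈ Finset.range (k + 1), (-1 : ℤ) ^ (k - i) * (((d - i).choose (k - i) : ℕ) : ℤ) *
            ((Δ.filter (fun F => F.card = i)).card : ℤ)
        else 0)) := by
  intro h
  obtain ⟨r, M, hdown, hpure, hk⟩ := h 10 6 D ⟨2, A, P, E, fun _ => rfl, rfl,
    fun j hj => by interval_cases j <;> decide +kernel, glue, rfl⟩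
  have f0 := (fcount 0).trans (fvals 0 (by norm_num))
  have f1 := (fcount 1).trans (fvals 1 (by norm_num))
  have f2 := (fcount 2).trans (fvals 2 (by norm_num))
  have f3 := (fcount 3).trans (fvals 3 (by norm_num))
  have f4 := (fcount 4).trans (fvals 4 (by norm_num))
  have f5 := (fcount 5).trans (fvals 5 (by norm_num))
  have f6 := (fcount 6).trans (fvals 6 (by norm_num))
  have h1 := hk 1
  have h2 := hk 2
  have h3 := hk 3
  have h5 := hk 5
  have h6 := hk 6
  simp only [Finset.sum_range_succ, Finset.sum_range_zero, f0, f1, f2, f3, f4, f5, f6] at h1 h2 h3 h5 h6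
  norm_num [Nat.choose] at h1 h2 h3 h5 h6
  refine not_pure r M hdown hpure (by exact_mod_cast h1) (by exact_mod_cast h2)
    (by exact_mod_cast h3) (by exact_mod_cast h5) (by exact_mod_cast h6) (fun μ hμ => ?_)
  by_contra hlt
  have h0 := hk (∑ i, μ i)
  rw [if_neg hlt, Nat.cast_eq_zero, Finset.card_eq_zero] at h0
  have : μ ∈ M.filter (fun ν => ∑ i, ν i = ∑ i, μ i) := Finset.mem_filter.2 ⟨hμ, rfl⟩
  rw [h0] at this
  simp at this

end Pool.Agent.S08958
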