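import Pool.Statements.S08974

set_option autoImplicit false
open Pool Pool.MP_5beb4b_co

namespace Pool.Agent.S08974

def nn : Fin 3 → ℕ := ![3, 6, 6]

abbrev GG := (i : Fin 3) → ZMod (nn i)

def mkG (a : ZMod 3) (b c : ZMod 6) : GG := fun i => match i with
  | 0 => a
  | 1 => b
  | 2 => c

def X : Fin 6 → GG := ![mkG 1 3 3, mkG 2 3 3, mkG 0 0 1, mkG 0 0 5, mkG 0 1 0, mkG 0 5 0]

lemma X_inj : Function.Injective X := by decide +kernel

def U1 : Multiset GG := {X 0, X 0, X 0, X 2, X 2, X 2, X 4, X 4, X 4}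
def U2 : Multiset GG := {X 1, X 1, X 1, X 3, X 3, X 3, X 5, X 5, X 5}
def AA : Multiset GG := U1 + U2

lemma AA_count : ∀ i, Multiset.count (X i) AA = 3 := by decide +kernel
lemma AA_mem : ∀ a ∈ AA, a ∈ Finset.univ.image X := by decide +kernel

def rel (c0 c1 c2 c3 c4 c5 : ℕ) : Bool :=
  decide (c0 • X 0 + c1 • X 1 + c2 • X 2 + c3 • X 3 + c4 • X 4 + c5 • X 5 = 0)

def con (c0 c1 c2 c3 c4 c5 : ℕ) : Bool :=
  decide ((1 ≤ c0 ∧ 1 ≤ c1) ∨ (1 ≤ c2 ∧ 1 ≤ c3) ∨ (1 ≤ c4 ∧ 1 ≤ c5) ∨
      c0 + c1 + c2 + c3 + c4 + c5 = 0 ∨ c0 + c1 + c2 + c3 + c4 + c5 = 9)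

lemma arith0 : ((List.range 4).all fun c0 => (List.range 4).all fun c1 =>
    (List.range 4).all fun c2 => (List.range 4).all fun c3 => (List.range 4).all fun c4 =>
    (List.range 4).all fun c5 => con c0 c1 c2 c3 c4 c5 || !rel c0 c1 c2 c3 c4 c5) = true := by
  decide +kernel

lemma arith : ∀ c0 < 4, ∀ c1 < 4, ∀ c2 < 4, ∀ c3 < 4, ∀ c4 < 4, ∀ c5 < 4,
    c0 • X 0 + c1 • X 1 + c2 • X 2 + c3 • X 3 + c4 • X 4 + c5 • X 5 = 0 →
    (1 ≤ c0 ∧ 1 ≤ c1) ∨ (1 ≤ c2 ∧ 1 ≤ c3) ∨ (1 ≤ c4 ∧ 1 ≤ c5) ∨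
      c0 + c1 + c2 + c3 + c4 + c5 = 0 ∨ c0 + c1 + c2 + c3 + c4 + c5 = 9 := by
  intro c0 h0 c1 h1 c2 h2 c3 h3 c4 h4 c5 h5 h
  have := arith0
  simp only [List.all_eq_true, List.mem_range] at this
  have := this c0 h0 c1 h1 c2 h2 c3 h3 c4 h4 c5 h5
  simp only [con, rel, h, decide_true, Bool.not_true, Bool.or_false, decide_eq_true_eq] at this
  exact this

lemma pair_le (W : Multiset GG) (i j : Fin 6) (hij : i ≠ j) (hi : 1 ≤ Multiset.count (X i) W)
    (hj : 1 ≤ Multiset.count (X j) W) : ({X i, X j} : Multiset GG) ≤ W := by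
  have hne : X i ≠ X j := fun h => hij (X_inj h)
  rw [Multiset.le_iff_count]
  intro a
  by_cases h1 : a = X i
  · subst h1; simpa [hne] using hi
  · by_cases h2 : a = X j
    · subst h2; simpa [h1] using hj
    · simp [h1, h2]

lemma zs_cases (W : Multiset GG) (hW : W ≤ AA) (hs : W.sum = 0) :
    ({X 0, X 1} : Multiset GG) ≤ W ∨ ({X 2, X 3} : Multiset GG) ≤ W ∨
      ({X 4, X 5} : Multiset GG) ≤ W ∨ Multiset.card W = 0 ∨ Multiset.card W = 9 := by
  have hmem : ∀ a ∈ W, a ∈ Finset.univ.image X := fun a ha => AA_mem a (Multiset.mem_of_le hW ha)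
  have h1 := Finset.sum_multiset_count_of_subset W (Finset.univ.image X)
    (fun a ha => hmem a (Multiset.mem_toFinset.1 ha))
  have h2 := Multiset.sum_count_eq_card hmem
  rw [Finset.sum_image (fun a _ b _ h => X_inj h), Fin.sum_univ_six] at h1 h2
  have hc : ∀ i, Multiset.count (X i) W < 4 := fun i => by
    have := Multiset.count_le_of_le (X i) hW
    rw [AA_count] at this; omega
  rcases arith _ (hc 0) _ (hc 1) _ (hc 2) _ (hc 3) _ (hc 4) _ (hc 5) (h1.symm.trans hs) with
    h | h | h | h | h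
  · exact Or.inl (pair_le W 0 1 (by decide) h.1 h.2)
  · exact Or.inr (Or.inl (pair_le W 2 3 (by decide) h.1 h.2))
  · exact Or.inr (Or.inr (Or.inl (pair_le W 4 5 (by decide) h.1 h.2)))
  · exact Or.inr (Or.inr (Or.inr (Or.inl (h2.symm.trans h))))
  · exact Or.inr (Or.inr (Or.inr (Or.inr (h2.symm.trans h))))

def Atom (U : Multiset GG) : Prop := U ≠ 0 ∧ U.sum = 0 ∧ ∀ V ≤ U, V.sum = 0 → V = 0 ∨ V = U

lemma atom_card (W : Multiset GG) (hW : W ≤ AA) (h : Atom W) :
    Multiset.card W = 2 ∨ Multiset.card W = 9 := by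
  rcases zs_cases W hW h.2.1 with h1 | h1 | h1 | h1 | h1
  · rcases h.2.2 _ h1 (by decide +kernel) with h2 | h2
    · simp at h2
    · left; rw [← h2]; rfl
  · rcases h.2.2 _ h1 (by decide +kernel) with h2 | h2
    · simp at h2
    · left; rw [← h2]; rfl
  · rcases h.2.2 _ h1 (by decide +kernel) with h2 | h2
    · simp at h2
    · left; rw [← h2]; rfl
  · exact absurd (Multiset.card_eq_zero.1 h1) h.1
  · exact Or.inr h1

lemma atom_big (U : Multiset GG) (hU : U ≤ AA) (hc : Multiset.card U = 9) (hs : U.sum = 0)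
    (h0 : ¬ ({X 0, X 1} : Multiset GG) ≤ U) (h1 : ¬ ({X 2, X 3} : Multiset GG) ≤ U)
    (h2 : ¬ ({X 4, X 5} : Multiset GG) ≤ U) : Atom U := by
  refine ⟨by rintro rfl; simp at hc, hs, fun V hV hVs => ?_⟩
  rcases zs_cases V (hV.trans hU) hVs with h | h | h | h | h
  · exact absurd (h.trans hV) h0
  · exact absurd (h.trans hV) h1
  · exact absurd (h.trans hV) h2
  · exact Or.inl (Multiset.card_eq_zero.1 h)
  · exact Or.inr (Multiset.eq_of_le_of_card_le hV (by omega))

lemma atom_pair (a b : GG) (ha : a ≠ 0) (hb : b ≠ 0) (h : a + b = 0) :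
    Atom ({a, b} : Multiset GG) := by
  refine ⟨by simp, by simpa using h, fun V hV hVs => ?_⟩
  have hc := Multiset.card_le_card hV
  simp only [Multiset.insert_eq_cons, Multiset.card_cons, Multiset.card_singleton] at hc
  rcases (by omega : Multiset.card V = 0 ∨ Multiset.card V = 1 ∨ Multiset.card V = 2) with
    h1 | h1 | h1
  · exact Or.inl (Multiset.card_eq_zero.1 h1)
  · obtain ⟨x, rfl⟩ := Multiset.card_eq_one.1 h1
    have := Multiset.mem_of_le hV (Multiset.mem_singleton_self x)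
    simp only [Multiset.sum_singleton] at hVs
    subst hVs
    simp only [Multiset.insert_eq_cons, Multiset.mem_cons, Multiset.mem_singleton] at this
    rcases this with h2 | h2
    · exact absurd h2.symm ha
    · exact absurd h2.symm hb
  · exact Or.inr (Multiset.eq_of_le_of_card_le hV (by simp [h1]))

lemma count_lens : ∀ F : Multiset (Multiset GG),
    (∀ U ∈ F, Multiset.card U = 2 ∨ Multiset.card U = 9) →
    ∃ b, Multiset.card F.sum = 2 * Multiset.card F + 7 * b ∧ b ≤ Multiset.card F := by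
  intro F
  induction F using Multiset.induction_on with
  | empty => intro _; exact ⟨0, by simp, by simp⟩
  | cons U F ih =>
    intro h
    obtain ⟨b, hb, hb'⟩ := ih (fun V hV => h V (Multiset.mem_cons_of_mem hV))
    rcases h U (Multiset.mem_cons_self _ _) with h1 | h1
    · exact ⟨b, by simp [hb, h1]; ring, by simp; omega⟩
    · exact ⟨b + 1, by simp [hb, h1]; ring, by simp; omega⟩

/-- The negation of the preceding statement: For every group C_{n_1}⊕…⊕C_{n_r} with 1<n_1∣…∣n_r and order ≥3, the largest gap between consecutive factorization lengths of zero-sum sequences is exactly max(n_r−2, Σ⌊n_i/2⌋−1). -/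
theorem result :
    ¬ (∀ (r : ℕ) (n : Fin r → ℕ),
      (∀ i, 1 < n i) → (∀ i j, i ≤ j → n i ∣ n j) → 3 ≤ ∏ i, n i →
      ((∃ A : Multiset ((i : Fin r) → ZMod (n i)), A.sum = 0 ∧
          ∃ k : ℕ,
            (∃ F : Multiset (Multiset ((i : Fin r) → ZMod (n i))),
                Multiset.card F = k ∧
                (∀ U ∈ F, U ≠ 0 ∧ U.sum = 0 ∧ ∀ V ≤ U, V.sum = 0 → V = 0 ∨ V = U) ∧
                F.sum = A) ∧
            (∃ F : Multiset (Multiset ((i : Fin r) → ZMod (n i))),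
                Multiset.card F = k + max (Finset.univ.sup n - 2) ((∑ i, n i / 2) - 1) ∧
                (∀ U ∈ F, U ≠ 0 ∧ U.sum = 0 ∧ ∀ V ≤ U, V.sum = 0 → V = 0 ∨ V = U) ∧
                F.sum = A) ∧
            (∀ m : ℕ, k < m → m < k + max (Finset.univ.sup n - 2) ((∑ i, n i / 2) - 1) →
              ¬ ∃ F : Multiset (Multiset ((i : Fin r) → ZMod (n i))),
                Multiset.card F = m ∧
                (∀ U ∈ F, U ≠ 0 ∧ U.sum = 0 ∧ ∀ V ≤ U, V.sum = 0 → V = 0 ∨ V = U) ∧
                F.sum = A)) ∧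
       (∀ A : Multiset ((i : Fin r) → ZMod (n i)), A.sum = 0 →
          ∀ k l : ℕ, k < l →
            (∃ F : Multiset (Multiset ((i : Fin r) → ZMod (n i))),
                Multiset.card F = k ∧
                (∀ U ∈ F, U ≠ 0 ∧ U.sum = 0 ∧ ∀ V ≤ U, V.sum = 0 → V = 0 ∨ V = U) ∧
                F.sum = A) →
            (∃ F : Multiset (Multiset ((i : Fin r) → ZMod (n i))),
                Multiset.card F = l ∧
                (∀ U ∈ F, U ≠ 0 ∧ U.sum = 0 ∧ ∀ V ≤ U, V.sum = 0 → V = 0 ∨ V = U) ∧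
                F.sum = A) →
            (∀ m : ℕ, k < m → m < l →
              ¬ ∃ F : Multiset (Multiset ((i : Fin r) → ZMod (n i))),
                Multiset.card F = m ∧
                (∀ U ∈ F, U ≠ 0 ∧ U.sum = 0 ∧ ∀ V ≤ U, V.sum = 0 → V = 0 ∨ V = U) ∧
                F.sum = A) →
            l - k ≤ max (Finset.univ.sup n - 2) ((∑ i, n i / 2) - 1)))) := by
  intro h
  have key := (h 3 nn (by decide) (by decide) (by decide)).2 AA (by decide +kernel) 2 9
    (by norm_num) ⟨{U1, U2}, rfl, ?_, by simp [AA]⟩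
    ⟨{{X 0, X 1}, {X 0, X 1}, {X 0, X 1}, {X 2, X 3}, {X 2, X 3}, {X 2, X 3}, {X 4, X 5},
      {X 4, X 5}, {X 4, X 5}}, rfl, ?_, by decide +kernel⟩ ?_
  · revert key
    decide
  · intro U hU
    simp only [Multiset.insert_eq_cons, Multiset.mem_cons, Multiset.mem_singleton] at hU
    rcases hU with rfl | rfl
    · exact atom_big _ (Multiset.le_add_right _ _) rfl (by decide +kernel) (by decide +kernel)
        (by decide +kernel) (by decide +kernel)
    · exact atom_big _ (Multiset.le_add_left _ _) rfl (by decide +kernel) (by decide +kernel)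
        (by decide +kernel) (by decide +kernel)
  · intro U hU
    have h01 := atom_pair (X 0) (X 1) (by decide +kernel) (by decide +kernel) (by decide +kernel)
    have h23 := atom_pair (X 2) (X 3) (by decide +kernel) (by decide +kernel) (by decide +kernel)
    have h45 := atom_pair (X 4) (X 5) (by decide +kernel) (by decide +kernel) (by decide +kernel)
    simp only [Multiset.insert_eq_cons, Multiset.mem_cons, Multiset.mem_singleton] at hU
    rcases hU with rfl | rfl | rfl | rfl | rfl | rfl | rfl | rfl | rfl <;> assumption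
  · rintro m h2 h9 ⟨F, hF, hat, hsum⟩
    obtain ⟨b, hb, hb'⟩ := count_lens F (fun U hU => atom_card U (by
      rw [← hsum]; exact Multiset.single_le_sum (fun _ _ => Multiset.zero_le _) U hU) (hat U hU))
    have : Multiset.card AA = 18 := rfl
    rw [hsum, this, hF] at hb
    omega

end Pool.Agent.S08974
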