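import Pool.Statements.S09017
import Pool.Agent.Lib.helper28.Poisson

set_option autoImplicit false
open Classical
open Pool Pool.MP_5d5585_co

namespace Pool.Agent.S09017

open Finset Real

lemma term {s b β : ℝ} (hs : 0 < s) (hb : 0 < b) (hβ : 0 < β) (h : β * b ≤ s) :
    1 / 2 * ‖(s : ℂ) + b * Complex.I‖ ^ (-β) ≤
      (Complex.exp (-(π * β : ℝ) * Complex.I) * (-((s : ℂ) + b * Complex.I)) ^ ((-β : ℝ) : ℂ)).re := by
  set w : ℂ := s + b * Complex.I with hw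
  have re : w.re = s := by simp [hw]
  have im : w.im = b := by simp [hw]
  have w0 : w ≠ 0 := fun e => by rw [e] at re; simp at re; linarith
  have a0 : 0 ≤ w.arg := Complex.arg_nonneg_iff.2 (by rw [im]; exact hb.le)
  have a1 : w.arg < π / 2 := Complex.arg_lt_pi_div_two_iff.2 (Or.inl (by rw [re]; exact hs))
  have a2 := le_tan a0 a1
  rw [Complex.tan_arg, re, im, le_div_iff₀ hs] at a2
  have a3 : β * w.arg ≤ 1 := by
    by_contra c
    nlinarith
  have a4 : 1 / 2 ≤ cos (β * w.arg) := by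
    have := one_sub_sq_div_two_le_cos (x := β * w.arg)
    nlinarith [mul_nonneg hβ.le a0]
  rw [Complex.cpow_def_of_ne_zero (neg_ne_zero.2 w0), ← Complex.exp_add, Complex.exp_re,
    rpow_def_of_pos (norm_pos_iff.2 w0)]
  simp only [Complex.add_re, Complex.mul_re, Complex.neg_re, Complex.ofReal_re, Complex.I_re,
    Complex.neg_im, Complex.ofReal_im, Complex.I_im, Complex.log_re, Complex.log_im, Complex.add_im,
    Complex.mul_im, norm_neg, Complex.arg_neg_eq_arg_sub_pi_of_im_pos (im ▸ hb : 0 < w.im)]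
  rw [show -(π * β) * 1 + -0 * 0 + (Real.log ‖w‖ * 0 + (w.arg - π) * -β) = -(β * w.arg) by ring,
    cos_neg, show -(π * β) * 0 - -0 * 1 + (Real.log ‖w‖ * -β - (w.arg - π) * 0) =
      Real.log ‖w‖ * -β by ring]
  nlinarith [exp_pos (Real.log ‖w‖ * -β)]

lemma lower {V : Type} [NormedAddCommGroup V] (X : Finset V) {β δ η : ℝ} (hβ : 1 ≤ β) (hδ : 0 < δ)
    (hδ1 : δ < 1) (hη : η ≤ δ) (hX : ∀ x ∈ X, ∀ y ∈ X, dist x y ≤ 1) :
    ∃ z : ℂ, z.re = δ / (4 * β) ∧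
      1 / 2 * (7 * δ) ^ (-β) * ((X.offDiag.filter (fun p => 1 - η ≤ dist p.1 p.2)).card : ℝ) ≤
      ‖∑ x ∈ X, ∑ y ∈ X, z * (z ^ 2 + (‖x - y‖ : ℂ) ^ 2) ^ ((-β : ℝ) : ℂ)‖ := by
  set ε := δ / (4 * β) with hε
  have e0 : 0 < ε := by positivity
  have e1 : 4 * β * ε = δ := by rw [hε]; field_simp
  have e2 : 4 * ε ≤ δ := by nlinarith
  set R := √(1 + ε ^ 2 + δ) with hR
  have R2 : R ^ 2 = 1 + ε ^ 2 + δ := sq_sqrt (by positivity)
  have R0 : 0 < R := sqrt_pos.2 (by positivity)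
  have R1 : 1 ≤ R := by nlinarith
  have R3 : R ≤ 2 := by nlinarith
  refine ⟨ε - R * Complex.I, by simp, ?_⟩
  have ew : ∀ r : ℝ, ((ε : ℂ) - R * Complex.I) ^ 2 + (r : ℂ) ^ 2 =
      -(((1 + δ - r ^ 2 : ℝ) : ℂ) + ((2 * ε * R : ℝ) : ℂ) * Complex.I) := by
    intro r
    have : (R : ℂ) ^ 2 = 1 + ε ^ 2 + δ := by exact_mod_cast R2
    push_cast
    linear_combination (R : ℂ) ^ 2 * Complex.I_sq - this
  simp only [ew, ← mul_sum]
  rw [norm_mul]
  have n1 : 1 ≤ ‖(ε : ℂ) - R * Complex.I‖ := by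
    have := Complex.abs_im_le_norm ((ε : ℂ) - R * Complex.I)
    simp [abs_of_pos R0] at this
    linarith
  refine le_trans ?_ (le_mul_of_one_le_left (norm_nonneg _) n1)
  have n2 : ∀ u : ℂ, (Complex.exp ((-(π * β) : ℝ) * Complex.I) * u).re ≤ ‖u‖ := fun u => by
    refine (Complex.re_le_norm _).trans ?_
    rw [norm_mul, Complex.norm_exp_ofReal_mul_I, one_mul]
  refine le_trans ?_ (n2 _)
  simp only [mul_sum, Complex.re_sum, Complex.ofReal_neg (π * β)]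
  have ht : ∀ x ∈ X, ∀ y ∈ X, _ := fun x hx y hy => term (s := 1 + δ - ‖x - y‖ ^ 2)
    (b := 2 * ε * R) (β := β) (by
      have := hX x hx y hy
      rw [dist_eq_norm] at this
      nlinarith [norm_nonneg (x - y)]) (by positivity) (by linarith) (by
      have := hX x hx y hy
      rw [dist_eq_norm] at this
      nlinarith [norm_nonneg (x - y), mul_pos e0 (by linarith : 0 < β)])
  refine le_trans ?_ (sum_le_sum fun x hx => sum_le_sum fun y hy => ht x hx y hy)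
  rw [← sum_product', mul_comm, ← nsmul_eq_mul, ← sum_const]
  refine le_trans (sum_le_sum fun p hp => ?_) (sum_le_sum_of_subset_of_nonneg
    (s := X.offDiag.filter (fun p => 1 - η ≤ dist p.1 p.2))
    (fun p hp => ?_) fun p _ _ => by positivity)
  · obtain ⟨h1, h2⟩ := mem_filter.1 hp
    rw [mem_offDiag] at h1
    have h3 := hX _ h1.1 _ h1.2.1
    rw [dist_eq_norm] at h2 h3
    have s0 : 0 < 1 + δ - ‖p.1 - p.2‖ ^ 2 := by nlinarith [norm_nonneg (p.1 - p.2)]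
    refine mul_le_mul_of_nonneg_left (rpow_le_rpow_of_nonpos ?_ ?_ (by linarith)) (by norm_num)
    · refine lt_of_lt_of_le ?_ (Complex.re_le_norm _)
      simpa [← Complex.ofReal_pow] using s0
    · refine (norm_add_le _ _).trans ?_
      rw [norm_mul, Complex.norm_I, Complex.norm_real, Complex.norm_real, norm_of_nonneg s0.le,
        norm_of_nonneg (by positivity)]
      nlinarith [norm_nonneg (p.1 - p.2)]
  · have := mem_offDiag.1 (mem_filter.1 hp).1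
    exact mem_product.2 ⟨this.1, this.2.1⟩

lemma tele {a h τ : ℝ} (ha : 0 < a) (hh : 0 < h) (hτ : 0 < τ) :
    h * τ * (a + h) ^ (-(1 + τ)) ≤ a ^ (-τ) - (a + h) ^ (-τ) := by
  have hb : 0 < a + h := by positivity
  have e1 : a ^ (-τ) = (a + h) ^ (-τ) * exp (τ * Real.log ((a + h) / a)) := by
    rw [rpow_def_of_pos ha, rpow_def_of_pos hb, ← exp_add, Real.log_div hb.ne' ha.ne']
    congr 1
    ring
  have e2 := add_one_le_exp (τ * Real.log ((a + h) / a))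
  have e3 := one_sub_inv_le_log_of_pos (div_pos hb ha)
  have e4 : 1 - ((a + h) / a)⁻¹ = h * (a + h)⁻¹ := by field_simp; ring
  rw [e4] at e3
  rw [e1, neg_add, rpow_add hb, rpow_neg_one]
  have := rpow_pos_of_pos hb (-τ)
  nlinarith [mul_le_mul_of_nonneg_left e3 hτ.le]

lemma sum1 {ε h τ : ℝ} (hh : 0 < h) (hε : h ≤ ε) (hτ : 0 < τ) (K : ℕ) :
    ∑ k ∈ range K, (ε + h * k) ^ (-(1 + τ)) ≤ (1 + 1 / τ) / h * ε ^ (-τ) := by
  have e0 : 0 < ε := by linarith
  have key : ∀ K : ℕ, h * τ * ∑ k ∈ range (K + 1), (ε + h * k) ^ (-(1 + τ)) ≤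
      (τ + 1) * ε ^ (-τ) - (ε + h * K) ^ (-τ) := by
    intro K
    induction K with
    | zero =>
      simp only [zero_add, range_one, sum_singleton, Nat.cast_zero, mul_zero, add_zero]
      rw [neg_add, rpow_add e0, rpow_neg_one]
      have := rpow_pos_of_pos e0 (-τ)
      have : h * ε⁻¹ ≤ 1 := by rw [← div_eq_mul_inv, div_le_one e0]; exact hε
      nlinarith [mul_pos hτ (rpow_pos_of_pos e0 (-τ))]
    | succ K ih =>
      rw [sum_range_succ]
      have := tele (a := ε + h * K) (by positivity) hh hτ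
      push_cast
      rw [show ε + h * (K + 1) = ε + h * K + h by ring]
      linarith
  have h1 := key K
  have h2 : 0 ≤ (ε + h * K) ^ (-τ) := by positivity
  have h3 : 0 ≤ (ε + h * K) ^ (-(1 + τ)) := by positivity
  rw [sum_range_succ] at h1
  refine le_of_mul_le_mul_left ?_ (mul_pos hh hτ)
  rw [show h * τ * ((1 + 1 / τ) / h * ε ^ (-τ)) = (τ + 1) * ε ^ (-τ) by field_simp]
  nlinarith [mul_pos hh hτ]

lemma sumZ {P : ℕ → ℝ} {B : ℝ} (hP : ∀ k, 0 ≤ P k) (hB : ∀ K, ∑ k ∈ range K, P k ≤ B) (a : ℤ)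
    (F : Finset ℤ) : ∑ j ∈ F, P (a - j).natAbs ≤ 2 * B := by
  rw [sum_comp P fun j => (a - j).natAbs]
  obtain ⟨K, hK⟩ := exists_nat_subset_range (F.image fun j => (a - j).natAbs)
  refine le_trans (sum_le_sum (g := fun k => 2 * P k) fun k _ => ?_) ?_
  · rw [nsmul_eq_mul]
    refine mul_le_mul_of_nonneg_right ?_ (hP k)
    have : #{j ∈ F | (a - j).natAbs = k} ≤ 2 := by
      refine le_trans (card_le_card (t := {a - k, a + k}) fun j hj => ?_) card_le_two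
      have := (mem_filter.1 hj).2
      simp only [mem_insert, mem_singleton]
      omega
    exact_mod_cast this
  · rw [← mul_sum]
    linarith [sum_le_sum_of_subset_of_nonneg hK fun k _ _ => hP k, hB K]

lemma sumD {d : ℕ} {P : ℕ → ℝ} {B : ℝ} (hP : ∀ k, 0 ≤ P k) (hB : ∀ K, ∑ k ∈ range K, P k ≤ B)
    (a : Fin d → ℤ) (T : Finset (Fin d → ℤ)) :
    ∑ j ∈ T, ∏ i, P (a i - j i).natAbs ≤ (2 * B) ^ d := by
  refine le_trans (sum_le_sum_of_subset_of_nonneg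
    (t := Fintype.piFinset fun i => T.image (· i)) (fun j hj => ?_)
    fun j _ _ => prod_nonneg fun i _ => hP _) ?_
  · exact Fintype.mem_piFinset.2 fun i => mem_image_of_mem _ hj
  · rw [← prod_univ_sum (fun i => T.image (· i)) fun i k => P (a i - k).natAbs]
    refine le_trans (prod_le_prod (g := fun _ => 2 * B)
      (fun i _ => sum_nonneg fun _ _ => hP _) fun i _ => sumZ hP hB _ _) (by simp)

lemma schur {α ι : Type} [DecidableEq ι] (X : Finset α) (c : α → ι) (W : ι → ι → ℝ) (B : ℝ)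
    (h0 : ∀ j k, 0 ≤ W j k) (hs : ∀ j k, W j k = W k j) (hB : ∀ j, ∑ k ∈ X.image c, W j k ≤ B) :
    ∑ x ∈ X, ∑ y ∈ X, W (c x) (c y) ≤ B * ∑ j ∈ X.image c, (#{x ∈ X | c x = j} : ℝ) ^ 2 := by
  set m : ι → ℝ := fun j => #{x ∈ X | c x = j}
  have e : ∑ x ∈ X, ∑ y ∈ X, W (c x) (c y) =
      ∑ j ∈ X.image c, ∑ k ∈ X.image c, m j * m k * W j k := by
    rw [sum_comp (fun j => ∑ y ∈ X, W j (c y)) c]
    refine sum_congr rfl fun j _ => ?_
    rw [sum_comp (W j) c, nsmul_eq_mul, mul_sum]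
    exact sum_congr rfl fun k _ => by rw [nsmul_eq_mul, mul_assoc]
  have e1 : ∑ j ∈ X.image c, ∑ k ∈ X.image c, m j ^ 2 * W j k ≤ B * ∑ j ∈ X.image c, m j ^ 2 := by
    rw [mul_sum]
    refine sum_le_sum fun j _ => ?_
    rw [← mul_sum, mul_comm B]
    exact mul_le_mul_of_nonneg_left (hB j) (sq_nonneg _)
  have e2 : ∑ j ∈ X.image c, ∑ k ∈ X.image c, m k ^ 2 * W j k =
      ∑ j ∈ X.image c, ∑ k ∈ X.image c, m j ^ 2 * W j k := by
    rw [sum_comm]
    simp only [hs]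
  have e3 : 2 * ∑ j ∈ X.image c, ∑ k ∈ X.image c, m j * m k * W j k ≤
      ∑ j ∈ X.image c, ∑ k ∈ X.image c, m j ^ 2 * W j k +
      ∑ j ∈ X.image c, ∑ k ∈ X.image c, m k ^ 2 * W j k := by
    simp only [mul_sum, ← sum_add_distrib]
    exact sum_le_sum fun j _ => sum_le_sum fun k _ => by
      nlinarith [mul_nonneg (h0 j k) (sq_nonneg (m j - m k))]
  rw [e]
  linarith

lemma cells {α ι : Type} [DecidableEq ι] (X : Finset α) (c : α → ι) (p : α × α → Prop)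
    (hp : ∀ x y, c x = c y → p (x, y)) (hT : 2 * #(X.image c) ≤ #X) :
    ∑ j ∈ X.image c, (#{x ∈ X | c x = j} : ℝ) ^ 2 ≤ 2 * #(X.offDiag.filter p) := by
  have e1 : ∑ j ∈ X.image c, #{x ∈ X | c x = j} ^ 2 = #{q ∈ X ×ˢ X | c q.2 = c q.1} := by
    rw [card_filter, sum_product]
    simp only [← card_filter]
    rw [sum_comp (fun j => #{x ∈ X | c x = j}) c]
    simp [sq]
  have e2 : #{q ∈ X ×ˢ X | c q.2 = c q.1} ≤ #X + #(X.offDiag.filter p) := by
    rw [← diag_card X]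
    refine le_trans (card_le_card fun q hq => ?_) (card_union_le _ _)
    simp only [mem_filter, mem_product, mem_union, mem_diag, mem_offDiag] at hq ⊢
    have := hp _ _ hq.2.symm
    tauto
  have e3 := sq_sum_le_card_mul_sum_sq (s := X.image c) (f := fun j => #{x ∈ X | c x = j})
  rw [← card_eq_sum_card_image, e1] at e3
  have e4 : 2 * #X ≤ #{q ∈ X ×ˢ X | c q.2 = c q.1} := by
    by_contra h
    nlinarith
  have : ∑ j ∈ X.image c, #{x ∈ X | c x = j} ^ 2 ≤ 2 * #(X.offDiag.filter p) := by omega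
  exact_mod_cast this

lemma pointwise {d : ℕ} (hd : 0 < d) {ε h : ℝ} (hh : 0 < h) (hε : h ≤ ε)
    (x y : EuclideanSpace ℝ (Fin d)) : (ε ^ 2 + ‖x - y‖ ^ 2) ^ (-(((d : ℝ) + 1) / 2)) ≤
      8 ^ (((d : ℝ) + 1) / 2) *
        ∏ i, (ε + h * ((⌊x i / h⌋ - ⌊y i / h⌋).natAbs : ℕ)) ^ (-(1 + 1 / (d : ℝ))) := by
  have e0 : 0 < ε := by linarith
  have d0 : (0 : ℝ) < d := by exact_mod_cast hd
  have e : ∀ u : ℝ, 0 ≤ u → ∀ t : ℝ, u ^ t = ∏ _i : Fin d, u ^ (t / d) := by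
    intro u hu t
    rw [prod_const, card_univ, Fintype.card_fin, ← rpow_natCast, ← rpow_mul hu,
      div_mul_cancel₀ _ d0.ne']
  rw [e _ (by positivity), e 8 (by norm_num), ← prod_mul_distrib]
  refine prod_le_prod (fun i _ => by positivity) fun i _ => ?_
  set k : ℝ := (((⌊x i / h⌋ - ⌊y i / h⌋).natAbs : ℕ) : ℝ) with hk
  have k0 : 0 ≤ k := by positivity
  have h1 : |x i - y i| ≤ ‖x - y‖ := PiLp.norm_apply_le (x - y) i
  have h2 : h * k ≤ h + |x i - y i| := by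
    have a1 := Int.floor_le (x i / h)
    have a2 := Int.lt_floor_add_one (x i / h)
    have a3 := Int.floor_le (y i / h)
    have a4 := Int.lt_floor_add_one (y i / h)
    rw [le_div_iff₀ hh] at a1 a3
    rw [div_lt_iff₀ hh] at a2 a4
    rw [hk, Nat.cast_natAbs, Int.cast_abs, ← abs_of_pos hh, ← abs_mul, abs_of_pos hh, abs_le]
    push_cast
    constructor <;> nlinarith [le_abs_self (x i - y i), neg_abs_le (x i - y i)]
  have h3 : (ε + h * k) ^ 2 / 8 ≤ ε ^ 2 + ‖x - y‖ ^ 2 := by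
    have : ε + h * k ≤ 2 * ε + 2 * ‖x - y‖ := by linarith [norm_nonneg (x - y)]
    have := pow_le_pow_left₀ (by positivity) this 2
    nlinarith [sq_nonneg (ε - ‖x - y‖)]
  refine le_trans (rpow_le_rpow_of_nonpos (by positivity) h3 ?_) (le_of_eq ?_)
  · exact div_nonpos_of_nonpos_of_nonneg (by linarith) d0.le
  · rw [div_rpow (by positivity) (by norm_num), neg_div, rpow_neg (by norm_num : (0 : ℝ) ≤ 8),
      div_inv_eq_mul, mul_comm, ← rpow_two, ← rpow_mul (by positivity)]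
    congr 2
    field_simp

lemma core (d : ℕ) (hd : 0 < d) : ∃ C : ℝ, 0 < C ∧ ∀ ε₁ ε₂ δ : ℝ, 0 < ε₁ → ε₁ ≤ δ → ε₂ ≤ δ → δ < 1 →
    ∀ X : Finset (EuclideanSpace ℝ (Fin d)), (∀ x ∈ X, ∀ y ∈ X, dist x y ≤ 1) →
      2 * (10 * (d + 1)) ^ d * ε₁ ^ (-(d : ℝ)) ≤ (X.card : ℝ) →
      C * (ε₁ ^ (d : ℝ) * δ ^ (-(((d : ℝ) + 1) / 2))) *
        ((X.offDiag.filter (fun p => 1 - ε₂ ≤ dist p.1 p.2)).card : ℝ) ≤
        ((X.offDiag.filter (fun p => dist p.1 p.2 ≤ ε₁)).card : ℝ) := by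
  have d0 : (1 : ℝ) ≤ d := by exact_mod_cast hd
  refine ⟨7 ^ (-(((d : ℝ) + 1) / 2)) / (4 * 8 ^ (((d : ℝ) + 1) / 2) * (4 * (d + 1) ^ 2) ^ d),
    by positivity, fun ε₁ ε₂ δ h1 h2 h3 h4 X hX hn => ?_⟩
  haveI : Nonempty (Fin d) := ⟨⟨0, hd⟩⟩
  obtain ⟨z, hz, l1⟩ := lower X (β := ((d : ℝ) + 1) / 2) (by linarith) (by linarith) h4 h3 hX
  have δ0 : 0 < δ := by linarith
  have l2 := H28Poisson.key X (z := z) (by rw [hz]; positivity)
  rw [finrank_euclideanSpace, Fintype.card_fin, hz] at l2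
  set ε := δ / (4 * ((d + 1) / 2)) with hε
  set h := ε₁ / (2 * (d + 1)) with hh
  have h0 : 0 < h := by positivity
  have he : h ≤ ε := by
    rw [hε, hh, show 4 * (((d : ℝ) + 1) / 2) = 2 * (d + 1) by ring]
    gcongr
  have e0 : 0 < ε := by linarith
  have hh1 : h * (2 * (d + 1)) = ε₁ := by rw [hh]; field_simp
  set c : EuclideanSpace ℝ (Fin d) → Fin d → ℤ := fun x i => ⌊x i / h⌋ with hc
  have l3 := schur X c (fun j k => ∏ i, (ε + h * ((j i - k i).natAbs : ℕ)) ^ (-(1 + 1 / (d : ℝ))))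
    _ (fun j k => by positivity)
    (fun j k => by simp only [← Int.natAbs_neg (j _ - k _), neg_sub])
    (fun j => sumD (P := fun k : ℕ => (ε + h * k) ^ (-(1 + 1 / (d : ℝ)))) (fun k => by positivity)
      (sum1 h0 he (by positivity)) j _)
  have l4 := cells X c (fun p => dist p.1 p.2 ≤ ε₁) (fun x y hxy => by
    rw [EuclideanSpace.dist_eq]
    apply sqrt_le_iff.2 ⟨h1.le, ?_⟩
    refine le_trans (sum_le_sum (g := fun _ => h ^ 2) fun i _ => ?_) ?_
    · have := Int.abs_sub_lt_one_of_floor_eq_floor (congrFun hxy i)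
      rw [← sub_div, abs_div, abs_of_pos h0, div_lt_one h0] at this
      rw [Real.dist_eq]
      exact pow_le_pow_left₀ (abs_nonneg _) this.le 2
    · rw [sum_const, card_univ, Fintype.card_fin, nsmul_eq_mul, ← hh1, mul_pow, mul_comm]
      exact mul_le_mul_of_nonneg_left (by nlinarith) (sq_nonneg _)) (by
    rcases X.eq_empty_or_nonempty with rfl | ⟨x0, hx0⟩
    · simp
    have c1 : #(X.image c) ≤ (2 * ⌈1 / h⌉₊ + 1) ^ d := by
      refine le_trans (card_le_card (t := Fintype.piFinset fun i =>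
        Icc (c x0 i - ⌈1 / h⌉₊) (c x0 i + ⌈1 / h⌉₊)) fun j hj => ?_) (le_of_eq ?_)
      · obtain ⟨x, hx, rfl⟩ := mem_image.1 hj
        refine Fintype.mem_piFinset.2 fun i => mem_Icc.2 ?_
        have a1 := abs_le.1 ((PiLp.dist_apply_le x x0 i).trans (hX x hx x0 hx0))
        have a2 := Nat.le_ceil (1 / h)
        simp only [hc]
        rw [← Int.floor_sub_natCast, ← Int.floor_add_natCast]
        have b1 : x0 i / h - 1 / h ≤ x i / h := by rw [← sub_div]; gcongr; linarith [a1.1]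
        have b2 : x i / h ≤ x0 i / h + 1 / h := by rw [← add_div]; gcongr; linarith [a1.2]
        exact ⟨Int.floor_mono (by linarith), Int.floor_mono (by linarith)⟩
      · rw [Fintype.card_piFinset, prod_congr rfl (g := fun _ => 2 * ⌈1 / h⌉₊ + 1)]
        · simp
        · intro i _
          rw [Int.card_Icc]
          omega
    have c2 : ((2 * ⌈1 / h⌉₊ + 1 : ℕ) : ℝ) ≤ 10 * (d + 1) * ε₁⁻¹ := by
      have a1 := Nat.ceil_lt_add_one (show 0 ≤ 1 / h by positivity)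
      have a2 : 10 * (d + 1) * ε₁⁻¹ = 5 * (1 / h) := by rw [hh]; field_simp; ring
      have a3 : 1 ≤ 1 / h := by rw [le_div_iff₀ h0]; nlinarith
      push_cast
      linarith
    have c3 := pow_le_pow_left₀ (by positivity) c2 d
    rw [rpow_neg h1.le, rpow_natCast, ← inv_pow, mul_assoc, ← mul_pow] at hn
    have c4 : ((#(X.image c) : ℕ) : ℝ) ≤ ((2 * ⌈1 / h⌉₊ + 1 : ℕ) : ℝ) ^ d := by exact_mod_cast c1
    have : ((2 * #(X.image c) : ℕ) : ℝ) ≤ #X := by
      rw [Nat.cast_mul, Nat.cast_ofNat]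
      linarith
    exact_mod_cast this)
  have l5 : ∑ x ∈ X, ∑ y ∈ X, ε * (ε ^ 2 + ‖x - y‖ ^ 2) ^ (-(((d : ℝ) + 1) / 2)) ≤
      ε * 8 ^ (((d : ℝ) + 1) / 2) * ∑ x ∈ X, ∑ y ∈ X,
        ∏ i, (ε + h * ((c x i - c y i).natAbs : ℕ)) ^ (-(1 + 1 / (d : ℝ))) := by
    simp only [mul_sum]
    refine sum_le_sum fun x _ => sum_le_sum fun y _ => ?_
    rw [mul_assoc]
    exact mul_le_mul_of_nonneg_left (pointwise hd h0 he x y) e0.le
  have l6 : ε * (2 * ((1 + 1 / (1 / (d : ℝ))) / h * ε ^ (-(1 / (d : ℝ))))) ^ d * ε₁ ^ (d : ℝ) =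
      (4 * (d + 1) ^ 2) ^ d := by
    have : (ε ^ (-(1 / (d : ℝ)))) ^ d = ε⁻¹ := by
      rw [← rpow_natCast, ← rpow_mul e0.le, ← rpow_neg_one]
      congr 1
      field_simp
    rw [← mul_assoc 2, mul_pow, this, rpow_natCast, mul_comm ε, mul_assoc _ _ ε,
      inv_mul_cancel₀ e0.ne', mul_one, ← mul_pow, ← hh1]
    congr 1
    field_simp
    ring
  have l7 := l1.trans (l2.trans (l5.trans (mul_le_mul_of_nonneg_left
    (l3.trans (mul_le_mul_of_nonneg_left l4 (by positivity))) (by positivity))))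
  have l8 := mul_le_mul_of_nonneg_left l7 (rpow_pos_of_pos h1 d).le
  rw [mul_rpow (by norm_num) δ0.le] at l8
  rw [div_mul_eq_mul_div, div_mul_eq_mul_div, div_le_iff₀ (by positivity), ← l6]
  linarith

/-- For d≥3 there are c1,c2>0 such that for any finite X in R^d of diameter ≤1 with ∣X∣≥c1·ε1^(-d), the pairs at distance ≤ε1 number at least c2·ε1^d·ε2^(-(d+1)/2) (if ε1≤ε2), else c2·ε1^((d-1)/2), times the pairs at distance ≥1−ε2. -/
theorem result :
    ∀ d : ℕ, 3 ≤ d →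
      ∃ c₁ c₂ : ℝ, 0 < c₁ ∧ 0 < c₂ ∧
        ∀ ε₁ ε₂ : ℝ, 0 < ε₁ → ε₁ < 1 → 0 < ε₂ → ε₂ < 1 →
          ∀ X : Finset (EuclideanSpace ℝ (Fin d)),
            (∀ x ∈ X, ∀ y ∈ X, dist x y ≤ 1) →
            c₁ * ε₁ ^ (-(d : ℝ)) ≤ (X.card : ℝ) →
            (ε₁ ≤ ε₂ →
              c₂ * ε₁ ^ (d : ℝ) * ε₂ ^ (-(((d : ℝ) + 1) / 2)) *
                  ((X.offDiag.filter (fun p => 1 - ε₂ ≤ dist p.1 p.2)).card : ℝ)
                ≤ ((X.offDiag.filter (fun p => dist p.1 p.2 ≤ ε₁)).card : ℝ)) ∧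
            (ε₂ < ε₁ →
              c₂ * ε₁ ^ (((d : ℝ) - 1) / 2) *
                  ((X.offDiag.filter (fun p => 1 - ε₂ ≤ dist p.1 p.2)).card : ℝ)
                ≤ ((X.offDiag.filter (fun p => dist p.1 p.2 ≤ ε₁)).card : ℝ)) := by
  intro d hd
  obtain ⟨C, hC, h⟩ := core d (by omega)
  refine ⟨2 * (10 * (d + 1)) ^ d, C, by positivity, hC, fun ε₁ ε₂ h1 h2 h3 h4 X hX hn =>
    ⟨fun h5 => ?_, fun h5 => ?_⟩⟩
  · rw [mul_assoc C]
    exact h ε₁ ε₂ ε₂ h1 h5 le_rfl h4 X hX hn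
  · have := h ε₁ ε₂ ε₁ h1 le_rfl h5.le h2 X hX hn
    rwa [← Real.rpow_add h1, show (d : ℝ) + -((d + 1) / 2) = (d - 1) / 2 by ring] at this

end Pool.Agent.S09017
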