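import Pool.Statements.S09026
import Pool.Agent.Lib.H8.PetParity

set_option autoImplicit false
open scoped Classical
open Pool Pool.MP_5dc923_co

namespace Pool.Agent.S09026

/-- Adjacency of the Petersen graph: outer cycle on 0..4, spokes j, j+5, inner pentagram on 5..9. -/
def adjB (a b : Fin 10) : Bool :=
  (a.val < 5 && b.val < 5 && ((a.val + 1) % 5 == b.val || (b.val + 1) % 5 == a.val)) ||
  (a.val + 5 == b.val || b.val + 5 == a.val) ||
  (5 ≤ a.val && 5 ≤ b.val && ((a.val + 2) % 5 == b.val % 5 || (b.val + 2) % 5 == a.val % 5))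

def Pet : SimpleGraph (Fin 10) where
  Adj a b := adjB a b = true
  symm := ⟨by decide⟩
  loopless := ⟨by decide⟩

def wt (a b : Fin 10) : ℕ := if a.val + 5 = b.val ∨ b.val + 5 = a.val then 6 else 3

/-- Weight 6 on the spokes and 3 on all other edges. -/
def w : Sym2 (Fin 10) → ℕ := Sym2.lift ⟨wt, by decide⟩

theorem w_eq (a b : Fin 10) : w s(a, b) = wt a b := rfl

theorem paths : ∀ a b : Fin 10, adjB a b = true → ∃ x y z : Fin 10,
    (adjB a x = true ∧ adjB x y = true ∧ adjB y z = true ∧ adjB z b = true) ∧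
    x ≠ a ∧ x ≠ b ∧ y ≠ a ∧ y ≠ b ∧ z ≠ a ∧ z ≠ b := by decide +kernel

def cut (f : Fin 10 → Bool) : ℕ :=
  ∑ u : Fin 10, ∑ v : Fin 10, if (f u = true ∧ f v = false ∧ adjB u v = true) then wt u v else 0

theorem cut_ok' : ∀ b0 b1 b2 b3 b4 b5 b6 b7 b8 b9 : Bool,
    12 ≤ cut ![b0, b1, b2, b3, b4, b5, b6, b7, b8, b9] ∨ ∀ a b : Fin 10,
    ![b0, b1, b2, b3, b4, b5, b6, b7, b8, b9] a = true →
    ![b0, b1, b2, b3, b4, b5, b6, b7, b8, b9] b = false → adjB a b = true →
    2 * wt a b ≤ cut ![b0, b1, b2, b3, b4, b5, b6, b7, b8, b9] := by decide +kernel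

theorem cut_ok : ∀ b0 b1 b2 b3 b4 b5 b6 b7 b8 b9 : Bool, ∀ a b : Fin 10,
    ![b0, b1, b2, b3, b4, b5, b6, b7, b8, b9] a = true →
    ![b0, b1, b2, b3, b4, b5, b6, b7, b8, b9] b = false → adjB a b = true →
    2 * wt a b ≤ cut ![b0, b1, b2, b3, b4, b5, b6, b7, b8, b9] := by
  intro b0 b1 b2 b3 b4 b5 b6 b7 b8 b9 a b h1 h2 h3
  rcases cut_ok' b0 b1 b2 b3 b4 b5 b6 b7 b8 b9 with h | h
  · refine le_trans ?_ h
    unfold wt
    split_ifs <;> omega
  · exact h a b h1 h2 h3

theorem ev : ∀ v : Fin 10, Even (∑ u : Fin 10, if adjB v u = true then wt v u else 0) := by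
  decide +kernel

theorem even_deg {V : Type} [Fintype V] {G : SimpleGraph V} {x : V} (p : G.Walk x x)
    (hp : p.IsTrail) (v : V) : Even (∑ u : V, if s(v, u) ∈ p.edges then 1 else 0) := by
  have h := (hp.even_countP_edges_iff v).2 (fun h => absurd rfl h)
  rw [List.countP_eq_length_filter] at h
  rw [Finset.sum_boole]
  have hnd : (p.edges.filter (fun e => decide (v ∈ e))).Nodup := hp.edges_nodup.filter _
  rw [← List.toFinset_card_of_nodup hnd] at h
  have : (Finset.univ.filter (fun u => s(v, u) ∈ p.edges)).card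
      = (p.edges.filter (fun e => decide (v ∈ e))).toFinset.card := by
    apply Finset.card_bij (fun u _ => s(v, u))
    · intro u hu
      simp only [Finset.mem_filter, Finset.mem_univ, true_and] at hu
      simp [hu]
    · intro u _ u' _ h
      exact Sym2.congr_right.1 h
    · intro e he
      simp only [List.mem_toFinset, List.mem_filter, decide_eq_true_eq] at he
      obtain ⟨u, rfl⟩ := Sym2.mem_iff_exists.1 he.2
      exact ⟨u, by simp [he.1], rfl⟩
  simpa [this] using h

theorem three (p : List (Sym2 (Fin 10))) (hp : ∀ e ∈ p, e ∈ Pet.edgeSet) (v a b c : Fin 10)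
    (hn : ∀ u, adjB v u = true → u = a ∨ u = b ∨ u = c) (hab : a ≠ b) (hac : a ≠ c) (hbc : b ≠ c)
    (h : Even (∑ u : Fin 10, if s(v, u) ∈ p then 1 else 0)) :
    ((if s(v, a) ∈ p then 1 else 0) + (if s(v, b) ∈ p then 1 else 0) +
      (if s(v, c) ∈ p then 1 else 0)) % 2 = 0 := by
  have : (∑ u : Fin 10, if s(v, u) ∈ p then 1 else 0)
      = ∑ u ∈ ({a, b, c} : Finset (Fin 10)), if s(v, u) ∈ p then 1 else 0 := by
    symm
    apply Finset.sum_subset (Finset.subset_univ _)
    intro u _ hu
    rw [if_neg]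
    intro hm
    have := hn u (hp _ hm)
    simp only [Finset.mem_insert, Finset.mem_singleton] at hu
    exact hu this
  rw [this, Finset.sum_insert (by simp [hab, hac]), Finset.sum_insert (by simp [hbc]),
    Finset.sum_singleton, ← add_assoc] at h
  exact Nat.even_iff.1 h

/-- The Petersen graph with weight 6 on a perfect matching complementary to two pentagons and
weight 3 on the pentagon edges has no faithful circuit cover. -/
theorem result :
    ¬ (∀ (V : Type) [Fintype V] (G : SimpleGraph V) (w : Sym2 V → ℕ),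
    (∀ a b : V, G.Adj a b → (G \ SimpleGraph.fromEdgeSet {s(a, b)}).Reachable a b) →
    (∀ a b : V, G.Adj a b → 2 ≤ w s(a, b)) →
    (∀ v : V, Even (∑ u : V, if G.Adj v u then w s(v, u) else 0)) →
    (∀ S : Finset V, ∀ a b : V, a ∈ S → b ∉ S → G.Adj a b →
      2 * w s(a, b) ≤
        ∑ u : V, ∑ v : V, if (u ∈ S ∧ v ∉ S ∧ G.Adj u v) then w s(u, v) else 0) →
    ∃ (n : ℕ) (x : Fin n → V) (p : ∀ i, G.Walk (x i) (x i)),
      (∀ i, (p i).IsCycle) ∧
      ∀ a b : V, G.Adj a b →
        (∑ i : Fin n, if s(a, b) ∈ (p i).edges then 1 else 0) = w s(a, b)) := by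
  intro H
  have step : ∀ a b u v : Fin 10, adjB u v = true → (u ≠ a ∧ u ≠ b) ∨ (v ≠ a ∧ v ≠ b) →
      (Pet \ SimpleGraph.fromEdgeSet {s(a, b)}).Adj u v := by
    intro a b u v huv hne
    simp only [SimpleGraph.sdiff_adj, SimpleGraph.fromEdgeSet_adj, Set.mem_singleton_iff,
      Sym2.eq_iff]
    refine ⟨huv, ?_⟩
    tauto
  obtain ⟨n, x, p, hc, hcov⟩ := H (Fin 10) Pet w
    (by
      intro a b hab
      obtain ⟨x, y, z, ⟨h1, h2, h3, h4⟩, xa, xb, ya, yb, za, zb⟩ := paths a b hab
      exact (((step a b a x h1 (Or.inr ⟨xa, xb⟩)).reachable.trans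
        (step a b x y h2 (Or.inl ⟨xa, xb⟩)).reachable).trans
        (step a b y z h3 (Or.inl ⟨ya, yb⟩)).reachable).trans
        (step a b z b h4 (Or.inl ⟨za, zb⟩)).reachable)
    (by
      intro a b _
      rw [w_eq]; unfold wt; split_ifs <;> omega)
    (by
      intro v
      have : (∑ u : Fin 10, if Pet.Adj v u then w s(v, u) else 0)
          = ∑ u : Fin 10, if adjB v u = true then wt v u else 0 :=
        Finset.sum_congr rfl (fun u _ => by rw [w_eq]; congr)
      rw [this]
      exact ev v)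
    (by
      intro S a b ha hb hab
      let f : Fin 10 → Bool := fun u => decide (u ∈ S)
      have hf : f = ![f 0, f 1, f 2, f 3, f 4, f 5, f 6, f 7, f 8, f 9] := by
        funext u; fin_cases u <;> rfl
      have h := cut_ok (f 0) (f 1) (f 2) (f 3) (f 4) (f 5) (f 6) (f 7) (f 8) (f 9) a b
      rw [← hf] at h
      have h2 := h (by simp [f, ha]) (by simp [f, hb]) hab
      rw [w_eq]
      refine h2.trans (le_of_eq ?_)
      unfold cut
      refine Finset.sum_congr rfl (fun u _ => Finset.sum_congr rfl (fun v _ => ?_))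
      rw [w_eq]
      have : (f u = true ∧ f v = false ∧ adjB u v = true) ↔ (u ∈ S ∧ v ∉ S ∧ Pet.Adj u v) := by
        simp [f, Pet]
      simp only [this]
      congr)
  let y : Fin 10 → Fin 10 → Fin n → ℕ := fun a b i => if s(a, b) ∈ (p i).edges then 1 else 0
  have ysym : ∀ a b, y a b = y b a := by
    intro a b; funext i; simp only [y, Sym2.eq_swap]
  have yle : ∀ a b i, y a b i ≤ 1 := by
    intro a b i; simp only [y]; split_ifs <;> omega
  have ysum : ∀ a b, adjB a b = true → ∑ i, y a b i = wt a b := by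
    intro a b hab
    rw [← w_eq, ← hcov a b hab]
    exact Finset.sum_congr rfl (fun i _ => by simp only [y]; congr)
  have yev : ∀ v a b c : Fin 10, (∀ u, adjB v u = true → u = a ∨ u = b ∨ u = c) → a ≠ b → a ≠ c →
      b ≠ c → ∀ i, (y v a i + y v b i + y v c i) % 2 = 0 := by
    intro v a b c hn hab hac hbc i
    have := three (p i).edges (fun e he => (p i).edges_subset_edgeSet he) v a b c hn hab hac hbc
      (by convert even_deg (p i) (hc i).isTrail v)
    convert this
  have key := Pool.Agent.Lib.H8.PetParity.par (y 0 1) (y 1 2) (y 2 3) (y 3 4) (y 4 0)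
    (y 0 5) (y 1 6) (y 2 7) (y 3 8) (y 4 9) (y 5 7) (y 6 8) (y 7 9) (y 8 5) (y 9 6)
    (yle _ _) (yle _ _) (yle _ _) (yle _ _) (yle _ _)
    (by rw [ysym 4 0]; exact yev 0 1 4 5 (by decide) (by decide) (by decide) (by decide))
    (by rw [ysym 0 1]; exact yev 1 2 0 6 (by decide) (by decide) (by decide) (by decide))
    (by rw [ysym 1 2]; exact yev 2 3 1 7 (by decide) (by decide) (by decide) (by decide))
    (by rw [ysym 2 3]; exact yev 3 4 2 8 (by decide) (by decide) (by decide) (by decide))
    (by rw [ysym 3 4]; exact yev 4 0 3 9 (by decide) (by decide) (by decide) (by decide))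
    (by rw [ysym 8 5, ysym 0 5]; exact yev 5 7 8 0 (by decide) (by decide) (by decide) (by decide))
    (by rw [ysym 9 6, ysym 1 6]; exact yev 6 8 9 1 (by decide) (by decide) (by decide) (by decide))
    (by rw [ysym 5 7, ysym 2 7]; exact yev 7 9 5 2 (by decide) (by decide) (by decide) (by decide))
    (by rw [ysym 6 8, ysym 3 8]; exact yev 8 5 6 3 (by decide) (by decide) (by decide) (by decide))
    (by rw [ysym 7 9, ysym 4 9]; exact yev 9 6 7 4 (by decide) (by decide) (by decide) (by decide))
    (by rw [ysum _ _ (by decide), ysum _ _ (by decide), ysum _ _ (by decide)]; decide)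
    (by rw [ysum _ _ (by decide), ysum _ _ (by decide), ysum _ _ (by decide)]; decide)
    (by rw [ysum _ _ (by decide), ysum _ _ (by decide), ysum _ _ (by decide)]; decide)
    (by rw [ysum _ _ (by decide), ysum _ _ (by decide), ysum _ _ (by decide)]; decide)
    (by rw [ysum _ _ (by decide), ysum _ _ (by decide), ysum _ _ (by decide)]; decide)
    (by rw [ysum _ _ (by decide), ysum _ _ (by decide), ysum _ _ (by decide)]; decide)
    (by rw [ysum _ _ (by decide), ysum _ _ (by decide), ysum _ _ (by decide)]; decide)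
    (by rw [ysum _ _ (by decide), ysum _ _ (by decide), ysum _ _ (by decide)]; decide)
    (by rw [ysum _ _ (by decide), ysum _ _ (by decide), ysum _ _ (by decide)]; decide)
    (by rw [ysum _ _ (by decide), ysum _ _ (by decide), ysum _ _ (by decide)]; decide)
  rw [ysum _ _ (by decide), ysum _ _ (by decide), ysum _ _ (by decide), ysum _ _ (by decide),
    ysum _ _ (by decide)] at key
  revert key
  decide

end Pool.Agent.S09026
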