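import Pool.Statements.S09056
import Pool.Agent.Lib.helper2.IntJ
import Pool.Agent.Lib.helper2.IntComp

set_option autoImplicit false
open Pool Pool.MP_5f100a_co

namespace Pool.Agent.S09056

open Pool.Agent.Lib.Helper2.IntCount Finset

/-- Subsets of the seven points. -/
abbrev W := Finset (Fin 7)

/-- Two sets meet. -/
def R (X Y : W) : Prop := ¬ Disjoint X Y

instance : DecidableRel R := fun X Y => inferInstanceAs (Decidable (¬ Disjoint X Y))

/-- Two sets are disjoint. -/
def D (X Y : W) : Prop := Disjoint X Y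

instance : DecidableRel D := fun X Y => inferInstanceAs (Decidable (Disjoint X Y))

theorem R_symm (a b : W) (h : R a b) : R b a := fun h' => h h'.symm

theorem D_symm (a b : W) (h : D a b) : D b a := Disjoint.symm h

/-- The set coded by a mask. -/
def dec (m : ℕ) : W := univ.filter (fun i : Fin 7 => m.testBit i = true)

theorem dec_D (a b : ℕ) (ha : a < 128) : D (dec a) (dec b) ↔ Dm a b := by
  unfold D Dm dec
  rw [Finset.disjoint_left]
  constructor
  · intro h
    apply Nat.eq_of_testBit_eq
    intro i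
    rw [Nat.testBit_and, Nat.zero_testBit]
    by_cases hi : i < 7
    · have := @h ⟨i, hi⟩
      simp only [mem_filter, mem_univ, true_and] at this
      cases h1 : a.testBit i
      · rfl
      · simpa using this h1
    · have : a.testBit i = false := Nat.testBit_lt_two_pow
        (lt_of_lt_of_le ha (Nat.pow_le_pow_right (by norm_num) (not_lt.1 hi) : 2 ^ 7 ≤ 2 ^ i))
      simp [this]
  · intro h i h1 h2
    simp only [mem_filter, mem_univ, true_and] at h1 h2
    have : (a &&& b).testBit i = true := by rw [Nat.testBit_and, h1, h2]; rfl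
    rw [h] at this
    simp at this

theorem dec_inj (a b : ℕ) (ha : a < 128) (hb : b < 128) (h : dec a = dec b) : a = b := by
  apply Nat.eq_of_testBit_eq
  intro i
  by_cases hi : i < 7
  · have := Finset.ext_iff.1 h ⟨i, hi⟩
    simp only [dec, mem_filter, mem_univ, true_and] at this
    exact Bool.eq_iff_iff.2 this
  · have h7 : 2 ^ 7 ≤ 2 ^ i := Nat.pow_le_pow_right (by norm_num) (not_lt.1 hi)
    rw [Nat.testBit_lt_two_pow (lt_of_lt_of_le ha h7), Nat.testBit_lt_two_pow (lt_of_lt_of_le hb h7)]

/-- The set coded by an index. -/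
def dp (p : ℕ) : W := dec (pos p)

theorem pos_lt (p : ℕ) (h : p < 128) : pos p < 128 := by unfold pos; split_ifs <;> omega

theorem dp_R (a b : ℕ) (ha : a < 128) : R (dp a) (dp b) ↔ Rp a b :=
  not_congr (dec_D _ _ (pos_lt a ha))

theorem dp_inj (A : Finset ℕ) (hA : ∀ p ∈ A, p < 128) : Set.InjOn dp A := by
  intro a ha b hb h
  have h1 := hA a ha
  have h2 := hA b hb
  have := dec_inj _ _ (pos_lt a h1) (pos_lt b h2) h
  unfold pos at this
  split_ifs at this <;> omega

theorem I_dp (A : Finset ℕ) (hA : ∀ p ∈ A, p < 128) (s : ℕ) : I R (A.image dp) s = I Rp A s :=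
  I_image Rp R dp A (dp_inj A hA) (fun a ha b _ => dp_R a b (hA a ha)) s

/-- The sets with at least three elements. -/
def Ta : Finset W := univ.filter (fun X => 3 ≤ X.card)

/-- The pairs. -/
def Pa : Finset W := univ.filter (fun X => X.card = 2)

/-- The sets with at most one element. -/
def Sa : Finset W := univ.filter (fun X => X.card ≤ 1)

/-- The base pair. -/
def e0 : W := {0, 1}

theorem card_D (X : W) : (univ.filter (D X)).card = 2 ^ (7 - X.card) := by
  have : univ.filter (D X) = Xᶜ.powerset := by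
    ext Y
    simp only [mem_filter, mem_univ, true_and, mem_powerset, D]
    rw [disjoint_comm, ← Finset.subset_compl_iff_disjoint_right]
  rw [this, card_powerset, card_compl, Fintype.card_fin]
theorem F1 : ∀ X : W, X.card ≤ 1 → 64 ≤ (univ.filter (D X)).card := fun X h => by
  rw [card_D]; exact Nat.pow_le_pow_right (n := 2) (i := 6) (by norm_num) (by omega)
theorem F2 : ∀ X : W, 2 ≤ X.card → (univ.filter (D X)).card ≤ 32 := fun X h => by
  rw [card_D]; exact Nat.pow_le_pow_right (n := 2) (j := 5) (by norm_num) (by omega)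
theorem F3 : ∀ X : W, 3 ≤ X.card → (univ.filter (fun Y => D X Y ∧ 2 ≤ Y.card)).card ≤ 11 := by
  decide +kernel
theorem F4 : ∀ X : W, X.card = 2 → (univ.filter (fun Y => D X Y ∧ 2 ≤ Y.card)).card = 26 ∧
    (Ta.filter (R X)).card = 83 ∧ (Pa.filter (D X)).card = 10 := by
  decide +kernel
theorem card_Sa : Sa.card = 8 := by decide +kernel
theorem card_Pa : Pa.card = 21 := by decide +kernel
theorem card_Ta : Ta.card = 99 := by decide +kernel
theorem I_K5 : I R (Pa.filter (D e0)) 2 = 30 := by decide +kernel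
theorem pair_cases : ∀ X : W, X.card = 2 → X = e0 ∨ ∃ m ∈ Lc, dec m = X := by decide +kernel
theorem dec_three : dec 3 = e0 := by decide +kernel
theorem Lc_facts : (∀ m ∈ Lc, m < 128) ∧ 3 ∉ Lc ∧ (Lc ++ [3]).Nodup ∧ 20 = Lc.length ∧
    ∀ p ∈ Pm, p < 128 ∧ (dec p).card = 2 := by decide +kernel
theorem img_T : (fam Tk).image dp = Ta := by decide +kernel
theorem img_S1 : (fam S1).image dp = Pa.filter (D e0) ∪ Ta := by decide +kernel
theorem S_facts : (fam S2).card = 109 ∧ 0 ∉ fam S1 ∧ 0 ∉ fam S2 ∧ G1.Nodup ∧ G2.Nodup ∧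
    Disjoint G1.toFinset (fam Tk) ∧ Disjoint G2.toFinset (fam Tk) ∧
    fam S1 = G1.toFinset ∪ fam Tk ∧ fam S2 = G2.toFinset ∪ fam Tk ∧
    (∀ x ∈ G1, x < 128 ∧ (dp x).card = 2) ∧ (∀ x ∈ G2, x < 128 ∧ (dp x).card = 2) ∧
    G1.length = 10 ∧ G2.length = 10 := by decide +kernel

/-- Action of a permutation of the points. -/
def act (σ : Equiv.Perm (Fin 7)) (X : W) : W := X.map σ.toEmbedding

theorem act_inj (σ : Equiv.Perm (Fin 7)) : Function.Injective (act σ) := Finset.map_injective _

theorem act_surj (σ : Equiv.Perm (Fin 7)) : Function.Surjective (act σ) :=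
  Finite.surjective_of_injective (act_inj σ)

theorem act_card (σ : Equiv.Perm (Fin 7)) (X : W) : (act σ X).card = X.card := Finset.card_map _

theorem act_D (σ : Equiv.Perm (Fin 7)) (X Y : W) : D (act σ X) (act σ Y) ↔ D X Y :=
  Finset.disjoint_map _

theorem I_act (σ : Equiv.Perm (Fin 7)) (A : Finset W) (s : ℕ) :
    I R (A.image (act σ)) s = I R A s :=
  I_image R R (act σ) A (act_inj σ).injOn (fun a _ b _ => not_congr (act_D σ a b)) s

theorem exists_perm (X : W) (h : X.card = 2) : ∃ σ : Equiv.Perm (Fin 7), act σ X = e0 :=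
  Equiv.Perm.exists_map_finset_eq X e0 (by rw [h]; decide)

theorem image_filter (σ : Equiv.Perm (Fin 7)) (P Q : W → Prop) [DecidablePred P] [DecidablePred Q]
    (h : ∀ X, Q (act σ X) ↔ P X) : (univ.filter P).image (act σ) = univ.filter Q := by
  ext Y
  obtain ⟨X, rfl⟩ := act_surj σ Y
  simp only [mem_image, mem_filter, mem_univ, true_and, h]
  constructor
  · rintro ⟨Z, hZ, e⟩; rwa [← act_inj σ e]
  · exact fun hX => ⟨X, hX, rfl⟩

theorem image_Ta (σ : Equiv.Perm (Fin 7)) : Ta.image (act σ) = Ta :=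
  image_filter σ _ _ (fun X => by rw [act_card])

/-- A simultaneous maximiser for `N = 109`. -/
def Mx (A : Finset W) : Prop := A.card = 109 ∧ ∀ s, ∀ B : Finset W, B.card = 109 → I R B s ≤ I R A s

theorem Mx_act (σ : Equiv.Perm (Fin 7)) (A : Finset W) (h : Mx A) : Mx (A.image (act σ)) := by
  refine ⟨by rw [card_image_of_injective _ (act_inj σ), h.1], fun s B hB => ?_⟩
  rw [I_act]; exact h.2 s B hB

theorem swap_le (A : Finset W) (h : Mx A) (X Y : W) (hX : X ∈ A) (hY : Y ∉ A) :
    ((A.erase X).filter (D X)).card ≤ ((A.erase X).filter (D Y)).card := by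
  have hY' : Y ∉ A.erase X := fun hh => hY (mem_of_mem_erase hh)
  have h1 := h.2 2 (insert Y (A.erase X)) (by
    rw [card_insert_of_notMem hY', card_erase_of_mem hX, h.1])
  have h2 := I_insert R R_symm (notMem_erase X A) 1
  rw [insert_erase hX, I_one] at h2
  rw [I_insert R R_symm hY' 1, I_one] at h1
  have h3 := Finset.card_filter_add_card_filter_not (s := A.erase X) (D X)
  have h4 := Finset.card_filter_add_card_filter_not (s := A.erase X) (D Y)
  have e1 : (A.erase X).filter (R X) = (A.erase X).filter (fun Z => ¬ D X Z) := rfl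
  have e2 : (A.erase X).filter (R Y) = (A.erase X).filter (fun Z => ¬ D Y Z) := rfl
  rw [e1] at h2
  rw [e2] at h1
  have h2' : I R A 2 = I R (A.erase X) 2 + ((A.erase X).filter (fun Z => ¬ D X Z)).card := h2
  have h1' : I R (A.erase X) 2 + ((A.erase X).filter (fun Z => ¬ D Y Z)).card ≤ I R A 2 := h1
  omega

theorem shape (A : Finset W) (h : Mx A) :
    (A.filter (fun X => X.card = 2)).card = 10 ∧ A = A.filter (fun X => X.card = 2) ∪ Ta := by
  have hc : Aᶜ.card = 19 := by
    rw [card_compl, h.1, Fintype.card_finset]; rfl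
  have a1 : ∀ X ∈ A, 2 ≤ X.card := by
    intro X hX
    by_contra hlt
    have : ¬ Aᶜ ⊆ Sa := fun hs => by
      have := card_le_card hs
      rw [hc, card_Sa] at this; omega
    obtain ⟨Y, hY, hY2⟩ := not_subset.1 this
    have hY3 : 2 ≤ Y.card := by
      by_contra hh
      exact hY2 (mem_filter.2 ⟨mem_univ _, by omega⟩)
    have k := swap_le A h X Y hX (mem_compl.1 hY)
    have k1 : ((A.erase X).filter (D Y)).card ≤ 32 :=
      (card_le_card (filter_subset_filter _ (subset_univ _))).trans (F2 Y hY3)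
    have k2 : univ.filter (D X) ⊆ (A.erase X).filter (D X) ∪ insert X Aᶜ := by
      intro Z hZ
      simp only [mem_union, mem_filter, mem_erase, mem_insert, mem_compl, mem_univ, true_and] at hZ ⊢
      tauto
    have k3 := (card_le_card k2).trans (card_union_le _ _)
    have k4 := card_insert_le X Aᶜ
    have k5 := F1 X (by omega)
    omega
  have a2 : ∀ Y : W, 3 ≤ Y.card → Y ∈ A := by
    intro Y hY3
    by_contra hY
    have hs : Sa ⊆ Aᶜ := by
      intro Z hZ
      rw [mem_compl]
      intro hZA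
      have := a1 Z hZA
      have := (mem_filter.1 hZ).2
      omega
    have hc2 : (Aᶜ \ Sa).card = 11 := by rw [card_sdiff_of_subset hs, hc, card_Sa]
    have : ¬ Pa ⊆ Aᶜ \ Sa := fun hs => by
      have := card_le_card hs
      rw [hc2, card_Pa] at this; omega
    obtain ⟨X, hX, hX2⟩ := not_subset.1 this
    have hX3 : X.card = 2 := (mem_filter.1 hX).2
    have hXA : X ∈ A := by
      by_contra hh
      exact hX2 (mem_sdiff.2 ⟨mem_compl.2 hh, by simp [Sa, hX3]⟩)
    have k := swap_le A h X Y hXA hY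
    have k1 : ((A.erase X).filter (D Y)).card ≤ 11 := by
      refine (card_le_card ?_).trans (F3 Y hY3)
      intro Z hZ
      rw [mem_filter] at hZ ⊢
      exact ⟨mem_univ _, hZ.2, a1 Z (mem_of_mem_erase hZ.1)⟩
    have k2 : univ.filter (fun Z => D X Z ∧ 2 ≤ Z.card) ⊆ (A.erase X).filter (D X) ∪ (Aᶜ \ Sa) := by
      intro Z hZ
      simp only [mem_union, mem_filter, mem_erase, mem_sdiff, mem_compl, mem_univ, true_and, Sa]
        at hZ ⊢
      by_cases hZA : Z ∈ A
      · refine Or.inl ⟨⟨?_, hZA⟩, hZ.1⟩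
        rintro rfl
        have := (Finset.disjoint_self_iff_empty _).1 hZ.1
        rw [this] at hX3
        simp at hX3
      · exact Or.inr ⟨hZA, by omega⟩
    have k3 := (card_le_card k2).trans (card_union_le _ _)
    have k5 := (F4 X hX3).1
    omega
  have e : A = A.filter (fun X => X.card = 2) ∪ Ta := by
    ext Z
    simp only [mem_union, mem_filter, Ta, mem_univ, true_and]
    constructor
    · intro hZ
      have := a1 Z hZ
      by_cases h2 : Z.card = 2
      · exact Or.inl ⟨hZ, h2⟩
      · exact Or.inr (by omega)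
    · rintro (hZ | hZ)
      · exact hZ.1
      · exact a2 Z hZ
  refine ⟨?_, e⟩
  have hd : Disjoint (A.filter (fun X => X.card = 2)) Ta := by
    rw [Finset.disjoint_left]
    intro Z h1 h2
    have := (mem_filter.1 h1).2
    have := (mem_filter.1 h2).2
    omega
  have := card_union_of_disjoint hd
  rw [← e, h.1, card_Ta] at this
  omega

theorem two_eq (G : Finset W) (hG : ∀ X ∈ G, X.card = 2) (hc : G.card = 10) :
    (G ∪ Ta).card = 109 ∧ I R (G ∪ Ta) 2 = I R Ta 2 + 830 + I R G 2 := by
  have hd : Disjoint G Ta := by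
    rw [Finset.disjoint_left]
    intro Z h1 h2
    have := hG Z h1
    have := (mem_filter.1 h2).2
    omega
  refine ⟨by rw [card_union_of_disjoint hd, hc, card_Ta], ?_⟩
  rw [I_two_union R R_symm Ta G hd, Finset.sum_congr rfl (fun X hX => (F4 X (hG X hX)).2.1),
    Finset.sum_const, hc, smul_eq_mul]

theorem few (A : Finset W) (h : Mx A) : I D (A.filter (fun X => X.card = 2)) 2 ≤ 15 := by
  obtain ⟨h1, h2⟩ := shape A h
  have k1 := two_eq _ (fun X hX => (mem_filter.1 hX).2) h1
  have k2 := two_eq (Pa.filter (D e0)) (fun X hX => (mem_filter.1 (mem_filter.1 hX).1).2)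
    (F4 e0 (by decide)).2.2
  have k3 := h.2 2 _ k2.1
  rw [← h2] at k1
  have k4 := I_two_compl R R_symm D D_symm (fun a b => not_not.symm)
    (A.filter (fun X => X.card = 2))
  rw [h1] at k4
  rw [k2.2, k1.2, I_K5] at k3
  have : Nat.choose 10 2 = 45 := by decide
  omega

theorem exists_edge (A : Finset W) (h : Mx A) : ∃ X ∈ A, X.card = 2 ∧
    (A.filter (fun Z => Z.card = 2 ∧ D X Z)).card ≤ 3 := by
  by_contra hcon
  push Not at hcon
  have k := I_handshake D D_symm (A.filter (fun X => X.card = 2)) (fun a ha hd => by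
    have h2 := (mem_filter.1 ha).2
    rw [(Finset.disjoint_self_iff_empty _).1 hd] at h2
    simp at h2)
  have k2 := Finset.card_nsmul_le_sum (A.filter (fun X => X.card = 2))
    (fun X => ((A.filter (fun X => X.card = 2)).filter (D X)).card) 4 (fun X hX => by
      rw [Finset.filter_filter]
      exact hcon X (mem_filter.1 hX).1 (mem_filter.1 hX).2)
  rw [k, (shape A h).1] at k2
  have := few A h
  simp only [smul_eq_mul] at k2
  omega

theorem classify (A : Finset W) (h : Mx A) (h0 : e0 ∈ A)
    (h3 : (A.filter (fun Z => Z.card = 2 ∧ D e0 Z)).card ≤ 3) :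
    ∃ p : W, p.card = 2 ∧ A = Pa.filter (D p) ∪ Ta := by
  obtain ⟨l1, l2, l3, l4, l5⟩ := Lc_facts
  set G := A.filter (fun X => X.card = 2) with hG
  set S := Lc.toFinset.filter (fun m => dec m ∈ G) with hS
  have hlt : ∀ m ∈ S ∪ [3].toFinset, m < 128 := by
    intro m hm
    rcases mem_union.1 hm with hm | hm
    · exact l1 m (List.mem_toFinset.1 (mem_filter.1 hm).1)
    · have : m = 3 := by simpa using hm
      omega
  have hinj : Set.InjOn dec ↑(S ∪ [3].toFinset) :=
    fun a ha b hb e => dec_inj a b (hlt a ha) (hlt b hb) e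
  have he0 : e0 ∈ G := mem_filter.2 ⟨h0, by decide⟩
  have himg : (S ∪ [3].toFinset).image dec = G := by
    ext Z
    rw [mem_image]
    constructor
    · rintro ⟨m, hm, rfl⟩
      rcases mem_union.1 hm with hm | hm
      · exact (mem_filter.1 hm).2
      · have : m = 3 := by simpa using hm
        rw [this, dec_three]; exact he0
    · intro hZ
      rcases pair_cases Z (mem_filter.1 hZ).2 with rfl | ⟨m, hm, rfl⟩
      · exact ⟨3, by simp, dec_three⟩
      · exact ⟨m, mem_union_left _ (mem_filter.2 ⟨List.mem_toFinset.2 hm, hZ⟩), rfl⟩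
  have hcard : S.card = 9 := by
    have k := card_image_of_injOn hinj
    rw [himg, (shape A h).1, card_union_of_disjoint (by
      rw [Finset.disjoint_right]
      intro m hm hm'
      have : m = 3 := by simpa using hm
      exact l2 (this ▸ List.mem_toFinset.1 (mem_filter.1 hm').1))] at k
    simp at k
    omega
  have hI : I Dm (S ∪ [3].toFinset) 2 ≤ 15 := by
    rw [← I_image Dm D dec _ hinj (fun a ha b _ => dec_D a b (hlt a ha)), himg]
    exact few A h
  have hb : (S.filter (Dm 3)).card ≤ 3 := by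
    refine le_trans (Finset.card_le_card_of_injOn dec ?_ ?_) h3
    · intro m hm
      have hm' := mem_filter.1 (mem_coe.1 hm)
      have k := mem_filter.1 (mem_filter.1 hm'.1).2
      refine mem_coe.2 (mem_filter.2 ⟨k.1, k.2, ?_⟩)
      rw [← dec_three, dec_D 3 m (by norm_num)]
      exact hm'.2
    · exact hinj.mono (fun m hm => mem_coe.2 (mem_union_left _ (mem_filter.1 (mem_coe.1 hm)).1))
  obtain ⟨p, hp, hp2⟩ := chk_sound Lc 20 [3] 9 0 3 l4 l3 (I_small _ _ _ (by simp)).symm chk_true
    S (filter_subset _ _) hcard hb hI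
  refine ⟨dec p, (l5 p hp).2, ?_⟩
  have hsub : G ⊆ Pa.filter (D (dec p)) := by
    intro Z hZ
    have hZ2 := (mem_filter.1 hZ).2
    rw [← himg] at hZ
    obtain ⟨m, hm, rfl⟩ := mem_image.1 hZ
    exact mem_filter.2 ⟨mem_filter.2 ⟨mem_univ _, hZ2⟩, (dec_D p m (l5 p hp).1).2 (hp2 m hm)⟩
  rw [← eq_of_subset_of_card_le hsub (by rw [(F4 _ (l5 p hp).2).2.2, (shape A h).1])]
  exact (shape A h).2

theorem one_pair (X : W) (hX : X.card = 2) :
    I R (insert X (Ta.filter (R X))) 64 = I R (insert e0 (Ta.filter (R e0))) 64 := by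
  obtain ⟨σ, hab⟩ := exists_perm X hX
  rw [← I_act σ, image_insert, hab]
  congr 2
  unfold Ta
  rw [filter_filter, filter_filter]
  refine image_filter _ _ _ (fun Z => ?_)
  rw [act_card, ← hab]
  exact and_congr Iff.rfl (not_congr (act_D _ _ _))

theorem one_idx (x : ℕ) (hx : x < 128) (h2 : (dp x).card = 2) :
    I Rp (insert x ((fam Tk).filter (Rp x))) 64 = I R (insert e0 (Ta.filter (R e0))) 64 := by
  rw [← one_pair _ h2, ← I_dp, image_insert, ← img_T, filter_image]
  · congr 3
    exact filter_congr (fun y _ => (dp_R x y hx).symm)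
  · intro p hp
    rcases mem_insert.1 hp with rfl | hp
    · exact hx
    · exact fam_lt _ p (mem_filter.1 hp).1

theorem final : ¬ Mx (Pa.filter (D e0) ∪ Ta) := by
  intro h
  obtain ⟨s1, s2, s3, s4, s5, s6, s7, s8, s9, s10, s11, s12, s13⟩ := S_facts
  have k := h.2 64 ((fam S2).image dp) (by rw [card_image_of_injOn (dp_inj _ (fam_lt _)), s1])
  rw [← img_S1, I_dp _ (fam_lt _), I_dp _ (fam_lt _), r0_eq _ G1 S1 s2 s4 s6 s8,
    r0_eq _ G2 S2 s3 s5 s7 s9, r0_G1, r0_G2,
    List.map_congr_left (fun x hx => one_idx x (s10 x hx).1 (s10 x hx).2),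
    List.map_congr_left (fun x hx => one_idx x (s11 x hx).1 (s11 x hx).2),
    List.map_const', List.map_const', s12, s13] at k
  omega

theorem no_max (A : Finset W) : ¬ Mx A := by
  intro h
  obtain ⟨X, hX, hX2, h3⟩ := exists_edge A h
  obtain ⟨σ, hab⟩ := exists_perm X hX2
  have h' := Mx_act σ A h
  obtain ⟨p, hp, e⟩ := classify _ h' (hab ▸ mem_image_of_mem _ hX) (by
    rw [filter_image, card_image_of_injective _ (act_inj _)]
    refine le_trans (le_of_eq ?_) h3
    congr 1
    refine filter_congr (fun Z _ => ?_)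
    rw [act_card, ← hab, act_D])
  obtain ⟨τ, hcd⟩ := exists_perm p hp
  have h'' := Mx_act τ _ h'
  rw [e, image_union, image_Ta] at h''
  apply final
  convert h'' using 2
  unfold Pa
  rw [filter_filter, filter_filter]
  refine (image_filter _ _ _ (fun Z => ?_)).symm
  rw [act_card, ← hcd, act_D]

/-- The negation of the preceding statement: For all n and N with 2^(n-1) < N ≤ 2^n, some family of N subsets of an n-set has, for every s, at least as many s-element pairwise-intersecting subfamilies as any other family of N subsets. -/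
theorem result :
    ¬ (∀ n N : ℕ, 2 ^ (n - 1) < N → N ≤ 2 ^ n →
      ∃ A : Finset (Finset (Fin n)), A.card = N ∧
        ∀ s : ℕ, ∀ B : Finset (Finset (Fin n)), B.card = N →
          ((B.powersetCard s).filter
              (fun F => ∀ X ∈ F, ∀ Y ∈ F, X ≠ Y → ¬ Disjoint X Y)).card ≤
          ((A.powersetCard s).filter
              (fun F => ∀ X ∈ F, ∀ Y ∈ F, X ≠ Y → ¬ Disjoint X Y)).card) := by
  intro h
  obtain ⟨A, hA, hmax⟩ := h 7 109 (by norm_num) (by norm_num)
  refine no_max A ⟨hA, fun s B hB => ?_⟩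
  have := hmax s B hB
  unfold I
  convert this using 3 <;> rfl

end Pool.Agent.S09056
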