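import Pool.Statements.S09060
-- import your own Pool.Agent.* helpers here

set_option autoImplicit false
open Pool Pool.MP_5f1df6_co

namespace Pool.Agent.S09060

abbrev F : Type := ZMod 5
abbrev V : Type := Fin 4 → F

noncomputable def ψ : AddChar F ℂ := ZMod.stdAddChar

theorem ψ_eq (s : F) :
    Complex.exp (2 * (Real.pi : ℂ) * Complex.I * ((s.val : ℕ) : ℂ) / ((5 : ℕ) : ℂ)) = ψ s := by
  rw [ψ, ZMod.stdAddChar_apply, ZMod.toCircle_apply]

theorem ψ_prim : ψ.IsPrimitive := ZMod.isPrimitive_stdAddChar 5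

theorem ψ_norm (s : F) : ‖ψ s‖ = 1 := by
  rw [ψ, ZMod.stdAddChar_apply]; exact Circle.norm_coe _

def dot (c y : V) : F := ∑ j, c j * y j

theorem dot_eq (c y : V) : dot c y = c 0 * y 0 + c 1 * y 1 + c 2 * y 2 + c 3 * y 3 := by
  simp [dot, Fin.sum_univ_four]

def pts : List V :=
  ![1, 4, 0, 0] :: ![0, 0, 1, 4] ::
  ([((1 : F), (3 : F)), (2, 2), (2, 3), (3, 1), (3, 2), (3, 3)].flatMap fun p =>
    [![1, p.1, 1, p.2], ![1, p.1, 2, 2 * p.2], ![1, p.1, 3, 3 * p.2], ![1, p.1, 4, 4 * p.2]])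

def sm (a : F) (v : V) : V := fun j => a * v j

def line (P : V) : List V := [sm 1 P, sm 2 P, sm 3 P, sm 4 P]

def L : List V := ![0, 1, 0, 0] :: ![0, 4, 0, 0] :: pts.flatMap line

def enc (v : V) : ℕ := (v 0).val + 5 * (v 1).val + 25 * (v 2).val + 125 * (v 3).val

theorem L_nodup : L.Nodup := List.Nodup.of_map enc (by decide +kernel)

theorem L_zero : (0 : V) ∉ L := fun h => by
  have : enc 0 ∈ L.map enc := List.mem_map_of_mem h
  revert this
  decide +kernel

theorem L_neg : ∀ c ∈ L, -c ∈ L := by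
  intro c hc
  simp only [L, List.mem_cons, List.mem_flatMap, line, List.not_mem_nil, or_false] at hc ⊢
  have e : ∀ (a b : F) (P : V), b = -a → -sm a P = sm b P := by
    rintro a b P rfl; funext j; simp [sm]
  rcases hc with rfl | rfl | ⟨P, hP, rfl | rfl | rfl | rfl⟩
  · exact Or.inr (Or.inl (by decide))
  · exact Or.inl (by decide)
  · exact Or.inr (Or.inr ⟨P, hP, Or.inr (Or.inr (Or.inr (e _ _ _ (by decide))))⟩)
  · exact Or.inr (Or.inr ⟨P, hP, Or.inr (Or.inr (Or.inl (e _ _ _ (by decide))))⟩)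
  · exact Or.inr (Or.inr ⟨P, hP, Or.inr (Or.inl (e _ _ _ (by decide)))⟩)
  · exact Or.inr (Or.inr ⟨P, hP, Or.inl (e _ _ _ (by decide))⟩)

theorem sum5 (f : F → ℂ) : ∑ x, f x = f 0 + f 1 + f 2 + f 3 + f 4 := Fin.sum_univ_five f

theorem line_sum (P y : V) : ((line P).map fun c => ψ (dot c y)).sum =
    (if dot P y = 0 then 5 else 0) - 1 := by
  have h := AddChar.sum_mulShift (dot P y) ψ_prim
  rw [sum5] at h
  have e : ∀ a : F, dot (sm a P) y = a * dot P y := fun a => by
    simp only [dot_eq, sm]; ring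
  simp only [line, List.map_cons, List.map_nil, List.sum_cons, List.sum_nil, e]
  rw [zero_mul, AddChar.map_zero_eq_one, ZMod.card] at h
  split_ifs at h ⊢
  · push_cast at h; linear_combination h
  · push_cast at h; linear_combination h

theorem lines_sum (l : List V) (y : V) : ((l.flatMap line).map fun c => ψ (dot c y)).sum =
    5 * (l.countP fun P => decide (dot P y = 0) : ℕ) - (l.length : ℕ) := by
  induction l with
  | nil => simp
  | cons P l ih =>
    rw [List.flatMap_cons, List.map_append, List.sum_append, ih, line_sum, List.countP_cons,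
      List.length_cons]
    by_cases h : dot P y = 0 <;> simp [h] <;> ring

def N (y : V) : ℕ := pts.countP fun P => decide (dot P y = 0)

theorem N_eq : ∀ a b c d : F, ((N ![a, b, c, d] : ℕ) : F) = 1 + a * b ^ 3 + c * d ^ 3 := by
  simp only [N, dot_eq]
  decide +kernel

noncomputable def g (b : F) : ℝ := (ψ b + ψ (-b)).re

theorem g_eq (b : F) : ψ b + ψ (-b) = (g b : ℂ) := by
  have : ψ (-b) = (starRingEnd ℂ) (ψ b) := by
    rw [AddChar.map_neg_eq_inv, Complex.inv_def, Complex.normSq_eq_norm_sq, ψ_norm]; simp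
  rw [g, this, Complex.add_conj]; simp

theorem eig (y : V) : ∑ c ∈ L.toFinset, ψ (dot c y) = 5 * (N y : ℕ) - 26 + (g (y 1) : ℂ) := by
  rw [List.sum_toFinset _ L_nodup, L, List.map_cons, List.map_cons, List.sum_cons, List.sum_cons,
    lines_sum, ← g_eq]
  have h1 : dot ![0, 1, 0, 0] y = y 1 := by simp [dot_eq]
  have h2 : dot ![0, 4, 0, 0] y = -y 1 := by
    have : (4 : F) = -1 := by decide
    simp [dot_eq, this]
  have h3 : pts.length = 26 := by decide
  rw [h1, h2, h3, N]
  push_cast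
  ring

noncomputable def t : ℝ := -(2 * Real.pi / 25)

noncomputable def H (b : F) : ℂ := Complex.exp (((-t * (g b - 26) : ℝ) : ℂ) * Complex.I)

theorem H_norm (b : F) : ‖H b‖ = 1 := Complex.norm_exp_ofReal_mul_I _

theorem expo (y : V) : Complex.exp (-(Complex.I * (t : ℂ) * ∑ c ∈ L.toFinset, ψ (dot c y))) =
    ψ (N y : ℕ) * H (y 1) := by
  rw [eig, ψ, ZMod.stdAddChar_apply, ZMod.toCircle_natCast, H, ← Complex.exp_add]
  congr 1
  simp only [t]
  push_cast
  ring

def eqv : F × F × F × F ≃ V where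
  toFun p := ![p.2.2.1, p.1, p.2.2.2, p.2.1]
  invFun v := (v 1, v 3, v 0, v 2)
  left_inv p := rfl
  right_inv v := by funext j; fin_cases j <;> rfl

theorem cube : ∀ a b : F, b ^ 3 + a = 0 ↔ b = -a ^ 3 := by decide

theorem main (a : V) : ‖∑ y : V, ψ (N y : ℕ) * H (y 1) * ψ (dot a y)‖ = 25 := by
  rw [← eqv.sum_comp, Fintype.sum_prod_type]
  have h : ∀ b : F, ∑ p : F × F × F, ψ (N (eqv (b, p)) : ℕ) * H (eqv (b, p) 1) *
      ψ (dot a (eqv (b, p))) =
      ∑ d : F, (ψ (1 + a 1 * b + a 3 * d) * H b) * ((if b = -(a 0) ^ 3 then 5 else 0) *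
        (if d = -(a 2) ^ 3 then 5 else 0)) := by
    intro b
    rw [Fintype.sum_prod_type]
    refine Finset.sum_congr rfl fun d _ => ?_
    have h1 := AddChar.sum_mulShift (b ^ 3 + a 0) ψ_prim
    have h2 := AddChar.sum_mulShift (d ^ 3 + a 2) ψ_prim
    simp only [cube, ZMod.card] at h1 h2
    push_cast at h1 h2
    rw [← h1, ← h2, Finset.sum_mul_sum, Fintype.sum_prod_type, Finset.mul_sum]
    refine Finset.sum_congr rfl fun x _ => ?_
    rw [Finset.mul_sum]
    refine Finset.sum_congr rfl fun z _ => ?_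
    have e1 : eqv (b, d, x, z) = ![x, b, z, d] := rfl
    rw [e1, N_eq, dot_eq]
    simp only [Matrix.cons_val_zero, Matrix.cons_val_one, Matrix.cons_val]
    rw [mul_right_comm, mul_right_comm _ (H b), ← AddChar.map_add_eq_mul,
      ← AddChar.map_add_eq_mul, ← AddChar.map_add_eq_mul]
    congr 2
    ring
  rw [Finset.sum_congr rfl fun b _ => h b]
  rw [Finset.sum_eq_single (-(a 0) ^ 3), Finset.sum_eq_single (-(a 2) ^ 3)]
  · simp only [if_true, norm_mul, ψ_norm, H_norm]
    norm_num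
  · intro d _ hd; simp [hd]
  · simp
  · intro b _ hb; simp [hb]
  · simp

theorem irr (k : ℤ) : ψ 1 + ψ (-1) ≠ k := by
  intro h
  have h0 := AddChar.sum_mulShift (1 : F) ψ_prim
  rw [sum5, if_neg (by decide)] at h0
  simp only [mul_one, AddChar.map_zero_eq_one] at h0
  have e2 : ψ 2 = ψ 1 * ψ 1 := by rw [← AddChar.map_add_eq_mul]; rfl
  have e3 : ψ 3 = ψ (-1) * ψ (-1) := by rw [← AddChar.map_add_eq_mul]; rfl
  have e4 : ψ 4 = ψ (-1) := rfl
  have e5 : ψ 1 * ψ (-1) = 1 := by rw [← AddChar.map_add_eq_mul]; simp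
  have : (k : ℂ) ^ 2 + k - 1 = 0 := by
    rw [← h]
    rw [e2, e3, e4] at h0
    push_cast at h0
    linear_combination h0 + 2 * e5
  have h2 : k ^ 2 + k - 1 = 0 := by exact_mod_cast this
  have h3 : Even (k * (k + 1)) := Int.even_mul_succ_self k
  have h4 : k * (k + 1) = 1 := by linarith
  rw [h4] at h3
  exact absurd h3 (by decide)

/-- The negation of the preceding statement: For any Cayley graph on (Z/qZ)^d with symmetric connection set avoiding 0, if at some time all entries of exp(-itA) (written via characters) have equal modulus, then every eigenvalue (sum of a character over the connection set) is an integer. -/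
theorem result :
    ¬ (∀ (q d : ℕ) [NeZero q] (C : Finset (Fin d → ZMod q)),
      (0 : Fin d → ZMod q) ∉ C →
      (∀ c ∈ C, -c ∈ C) →
      (∃ t : ℝ, ∀ a b : Fin d → ZMod q,
        ‖∑ y : Fin d → ZMod q,
            Complex.exp (-(Complex.I * (t : ℂ) *
              ∑ c ∈ C, Complex.exp (2 * (Real.pi : ℂ) * Complex.I *
                (((∑ j, c j * y j : ZMod q).val : ℕ) : ℂ) / (q : ℂ)))) *
            Complex.exp (2 * (Real.pi : ℂ) * Complex.I *
              (((∑ j, (a - b) j * y j : ZMod q).val : ℕ) : ℂ) / (q : ℂ))‖ =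
        ‖∑ y : Fin d → ZMod q,
            Complex.exp (-(Complex.I * (t : ℂ) *
              ∑ c ∈ C, Complex.exp (2 * (Real.pi : ℂ) * Complex.I *
                (((∑ j, c j * y j : ZMod q).val : ℕ) : ℂ) / (q : ℂ))))‖) →
      ∀ y : Fin d → ZMod q, ∃ k : ℤ,
        ∑ c ∈ C, Complex.exp (2 * (Real.pi : ℂ) * Complex.I *
          (((∑ j, c j * y j : ZMod q).val : ℕ) : ℂ) / (q : ℂ)) = (k : ℂ)) := by
  intro h
  have h1 := h 5 4 L.toFinset (by simpa using L_zero) (by simpa using L_neg)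
  simp only [ψ_eq] at h1
  obtain ⟨k, hk⟩ := h1 ⟨t, fun a b => by
    have m1 := main (a - b)
    have m0 := main 0
    simp only [← expo] at m1 m0
    have : ∀ y : V, dot 0 y = 0 := fun y => by simp [dot]
    simp only [this, AddChar.map_zero_eq_one, mul_one] at m0
    exact m1.trans m0.symm⟩ ![0, 1, 0, 0]
  have h2 := eig ![0, 1, 0, 0]
  rw [← g_eq] at h2
  have h3 : (k : ℂ) = _ := hk.symm.trans h2
  refine irr (k - 5 * (N ![0, 1, 0, 0] : ℕ) + 26) ?_
  push_cast
  rw [h3]
  simp only [Matrix.cons_val_one, Matrix.cons_val_zero]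
  ring

end Pool.Agent.S09060
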