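import Pool.Statements.S09078
import Pool.Agent.Lib.helper13.TangA

set_option autoImplicit false
open scoped Classical
open Pool Pool.MP_5f9c07_co

namespace Pool.Agent.S09078

open Pool.Agent.Lib.H13Tang in
theorem charPoly_eq {α : Type} [Fintype α] (N : Matroid α) (t : ℤ) :
    (∑ X ∈ Finset.univ.filter (fun X : Finset α => (↑X : Set α) ⊆ N.E),
      (-1 : ℤ) ^ X.card * t ^ ((N.eRk N.E).toNat - (N.eRk (↑X : Set α)).toNat)) =
      charPoly N t := by
  refine Finset.sum_congr ?_ fun _ _ => rfl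
  ext X
  simp only [Finset.mem_filter, Finset.mem_univ, true_and, Finset.mem_powerset,
    Set.Finite.subset_toFinset]

/-- The negation of the preceding statement: For every finite field of order q and k ≥ 1, every simple GF(q)-representable tangential k-block isomorphic to the simplification of a quotient of the cycle matroid of K_{q^k+1} has a modular hyperplane. -/
theorem result :
    ¬ (∀ (F : Type) [Field F] [Fintype F] (k : ℕ), 1 ≤ k →
  ∀ (α : Type) [Fintype α] (M : Matroid α),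
    (∃ (n : ℕ) (v : α → Fin n → F),
      ∀ I ⊆ M.E, (M.Indep I ↔ LinearIndependent F (fun x : I => v x))) →
    (∀ e ∈ M.E, ∀ f ∈ M.E, M.Indep {e, f}) →
    (∀ j ≤ k,
      (∑ X ∈ Finset.univ.filter (fun X : Finset α => (↑X : Set α) ⊆ M.E),
        (-1 : ℤ) ^ X.card * ((Fintype.card F : ℤ) ^ j) ^
          ((M.eRk M.E).toNat - (M.eRk (↑X : Set α)).toNat)) ≤ 0) →
    (∀ N : Matroid α,
      (∃ C D : Set α, C ⊆ M.E ∧ D ⊆ M.E ∧ Disjoint C D ∧ (C ∪ D).Nonempty ∧
        N = (M.contract C).delete D) →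
      (∀ e ∈ N.E, ∀ f ∈ N.E, N.Indep {e, f}) →
      ∃ j ≤ k, 0 <
        (∑ X ∈ Finset.univ.filter (fun X : Finset α => (↑X : Set α) ⊆ N.E),
          (-1 : ℤ) ^ X.card * ((Fintype.card F : ℤ) ^ j) ^
            ((N.eRk N.E).toNat - (N.eRk (↑X : Set α)).toNat))) →
    (∃ K Q : Matroid (Sym2 (Fin (Fintype.card F ^ k + 1))),
      K.E = {e | ¬ e.IsDiag} ∧
      (∀ I ⊆ K.E, (K.Indep I ↔ (SimpleGraph.fromEdgeSet I).IsAcyclic)) ∧
      Q.E = K.E ∧ (∀ X, Q.IsFlat X → K.IsFlat X) ∧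
      ∃ S ⊆ Q.E, (∀ e ∈ S, ∀ f ∈ S, Q.Indep {e, f}) ∧
        (∀ e ∈ Q.E, Q.Indep {e} → ∃ f ∈ S, e = f ∨ ¬ Q.Indep {e, f}) ∧
        ∃ g : α → Sym2 (Fin (Fintype.card F ^ k + 1)),
          Set.InjOn g M.E ∧ g '' M.E = S ∧
          ∀ I ⊆ M.E, (M.Indep I ↔ Q.Indep (g '' I))) →
    ∃ H : Set α, M.IsFlat H ∧ M.eRk H + 1 = M.eRk M.E ∧
      ∀ X : Set α, M.IsFlat X →
        M.eRk H + M.eRk X = M.eRk (H ∪ X) + M.eRk (H ∩ X)) := by
  open Pool.Agent.Lib.H13Tang in
  intro h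
  have hs := (heavy_pA.mono (show 4 ≤ 6 by norm_num)).simple
  have hc : Fintype.card (ZMod 7) ^ 1 + 1 = 8 := by rw [ZMod.card]; rfl
  obtain ⟨H, hH, hr, hm⟩ := h (ZMod 7) 1 le_rfl (Sym2 (Fin 8))
    (EM (Submodule.span (ZMod 7) {fun i => (pA i : ZMod 7)})) EM_rep.representable hs
    (fun j hj => by
      rw [charPoly_eq]
      exact not_lt.1 fun h' => EM_block (k := 1) (by rw [ZMod.card]; norm_num) ⟨j, hj, h'⟩)
    (by
      rintro N ⟨C, D, hC, hD, -, hne, rfl⟩ hN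
      refine ⟨1, le_rfl, ?_⟩
      rw [charPoly_eq]
      exact tangent_pA.minor_pos (heavy_pA.mono (by norm_num)) hC hD hne fun e he => by
        simpa using hN e he e he)
    (by
      rw [hc]
      refine ⟨cyc 8, EM (Submodule.span (ZMod 7) {fun i => (pA i : ZMod 7)}), ?_, (cyc_spec 8).2,
        rfl, (isQuotient_cyc _ _).2, _, subset_rfl, hs, fun e he _ => ⟨e, he, Or.inl rfl⟩, id,
        Set.injOn_id _, Set.image_id _, fun I _ => by rw [Set.image_id]⟩
      rw [(cyc_spec 8).1, SimpleGraph.edgeSet_top]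
      rfl)
  refine no_modular_pA H ⟨hH, fun G hG => ?_⟩ ?_
  · have := hm G hG
    rw [← rk_coe, ← rk_coe, ← rk_coe, ← rk_coe] at this
    exact_mod_cast this
  · rw [← rk_coe, ← rk_coe] at hr
    exact_mod_cast hr

end Pool.Agent.S09078
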