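import Pool.Statements.S09124
import Pool.Agent.Lib.helper9.SepDim

set_option autoImplicit false
open Pool Pool.MP_6142e4_co

namespace Pool.Agent.S09124

/-- The negation of the preceding statement: There is a constant c such that for every finite graph G, any d vertex orderings separating every pair of disjoint edges satisfy d ≥ log₂ χ(G) − c, i.e. separation dimension ≥ log₂ χ(G) − c. -/
theorem result :
    ¬ (∃ c : ℝ, ∀ (n : ℕ) (G : SimpleGraph (Fin n)) (d : ℕ),
      (∃ f : Fin d → Fin n → ℝ,
        ∀ a b x y : Fin n, G.Adj a b → G.Adj x y →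
          a ≠ x → a ≠ y → b ≠ x → b ≠ y →
          ∃ i : Fin d,
            max (f i a) (f i b) < min (f i x) (f i y) ∨
            max (f i x) (f i y) < min (f i a) (f i b)) →
      Real.logb 2 (G.chromaticNumber.toNat : ℝ) - c ≤ (d : ℝ)) := by
  rintro ⟨c, H⟩
  obtain ⟨m, hm⟩ := exists_nat_ge c
  obtain ⟨n, G, f, hcol, hsep⟩ := Pool.Agent.Lib.helper9.SepDim.exists_graph (2 ^ (m + 5))
  have h := H n G 4 ⟨fun i a => (f i a : ℝ), by
    intro a b x y hab hxy n1 n2 n3 n4
    obtain ⟨i, hi⟩ := hsep a b x y hab hxy n1 n2 n3 n4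
    refine ⟨i, ?_⟩
    simp only []
    exact_mod_cast hi⟩
  have hfin : G.chromaticNumber ≠ ⊤ := by
    have := G.colorable_of_fintype
    exact SimpleGraph.chromaticNumber_ne_top_iff_exists.mpr ⟨_, this⟩
  obtain ⟨k, hk⟩ := ENat.ne_top_iff_exists.mp hfin
  have hlt : 2 ^ (m + 5) < k := by
    by_contra hle
    apply hcol
    rw [← SimpleGraph.chromaticNumber_le_iff_colorable, ← hk]
    exact_mod_cast not_lt.mp hle
  rw [← hk] at h
  simp only [ENat.toNat_natCast] at h
  have h1 : Real.logb 2 ((2 : ℝ) ^ (m + 5)) ≤ Real.logb 2 (k : ℝ) := by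
    apply Real.logb_le_logb_of_le (by norm_num) (by positivity)
    exact_mod_cast hlt.le
  rw [Real.logb_pow, Real.logb_self_eq_one (by norm_num)] at h1
  push_cast at h h1
  linarith

end Pool.Agent.S09124
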