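import Pool.Statements.S09184
-- import your own Pool.Agent.* helpers here

set_option autoImplicit false
open Pool Pool.MP_633b85_co

namespace Pool.Agent.S09184

/-! Counterexample: the direct sum of two binary matroids of rank 6 on an 11-element set.
Matchings are the common independent sets. Eleven common bases cover every element six times
(fractional cover of weight `11/6`), but two common independent sets never cover the ground set,
so the covering number is at least `3 > 11/6 + 1`. -/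

abbrev W := Fin 6 → ZMod 2
abbrev V := W × W

/-- The vector matroid of `V`. -/
noncomputable def linM : Matroid V :=
  (IndepMatroid.ofFinite (E := Set.univ) Set.finite_univ
    (fun I => LinearIndepOn (ZMod 2) id I)
    (linearIndepOn_empty _ _)
    (fun _ _ hJ hIJ => hJ.mono hIJ)
    (by
      intro I J hI hJ hlt
      by_contra hcon
      push Not at hcon
      have hsub : J ⊆ Submodule.span (ZMod 2) I := by
        intro e he
        by_cases heI : e ∈ I
        · exact Submodule.subset_span heI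
        · by_contra hs
          exact hcon e he heI (hI.id_insert hs)
      have h1 : Submodule.span (ZMod 2) J ≤ Submodule.span (ZMod 2) I := Submodule.span_le.2 hsub
      have h2 := Submodule.finrank_mono h1
      classical
      have : Fintype I := Fintype.ofFinite I
      have : Fintype J := Fintype.ofFinite J
      rw [finrank_span_set_eq_card hI, finrank_span_set_eq_card hJ] at h2
      rw [Set.ncard_eq_toFinset_card', Set.ncard_eq_toFinset_card'] at hlt
      omega)
    (fun _ _ => Set.subset_univ _)).matroid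

lemma linM_indep (I : Set V) : linM.Indep I ↔ LinearIndepOn (ZMod 2) id I := by
  simp [linM]

lemma linM_E : linM.E = Set.univ := by simp [linM]

def vec (n : ℕ) : W := fun i => if n.testBit i then 1 else 0

def a (e : Fin 11) : W := vec (![63, 33, 22, 41, 24, 4, 23, 1, 55, 48, 44] e)
def b (e : Fin 11) : W := vec (![36, 2, 12, 19, 15, 3, 17, 38, 21, 35, 47] e)

def v (p : Fin 11 × Fin 2) : V := if p.2 = 0 then (a p.1, 0) else (0, b p.1)

noncomputable def M : Matroid (Fin 11 × Fin 2) := linM.comap v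

lemma M_E : M.E = Set.univ := by simp [M, linM_E]

lemma M_indep (I : Set (Fin 11 × Fin 2)) : M.Indep I ↔ LinearIndepOn (ZMod 2) v I := by
  rw [M, Matroid.comap_indep_iff, linM_indep]
  constructor
  · rintro ⟨h1, h2⟩
    exact (linearIndepOn_iff_image h2).2 h1
  · intro h
    exact ⟨h.id_image, h.injOn⟩

lemma M_indep' (I : Finset (Fin 11 × Fin 2)) :
    M.Indep (↑I : Set (Fin 11 × Fin 2)) ↔ ∀ T ⊆ I, ∑ p ∈ T, v p = 0 → T = ∅ := by
  rw [M_indep, linearIndepOn_finset_iff]
  constructor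
  · intro h T hT hs
    by_contra hne
    obtain ⟨p, hp⟩ := Finset.nonempty_iff_ne_empty.2 hne
    have := h (fun q => if q ∈ T then 1 else 0) (by
      rw [← hs, ← Finset.sum_subset hT (fun x _ hx => by simp [hx])]
      exact Finset.sum_congr rfl (fun x hx => by simp [hx])) p (hT hp)
    simp [hp] at this
  · intro h g hg p hp
    have h01 : ∀ t : ZMod 2, t = 0 ∨ t = 1 := by decide
    have := h (I.filter fun q => g q = 1) (Finset.filter_subset _ _) (by
      rw [← hg, Finset.sum_filter]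
      refine Finset.sum_congr rfl (fun x _ => ?_)
      rcases h01 (g x) with h0 | h0 <;> simp [h0])
    rcases h01 (g p) with h0 | h0
    · exact h0
    · have hm : p ∈ I.filter fun q => g q = 1 := Finset.mem_filter.2 ⟨hp, h0⟩
      rw [this] at hm
      simp at hm

lemma split (T : Finset (Fin 11 × Fin 2)) (hs : ∑ p ∈ T, v p = 0) :
    ∑ p ∈ T.filter (fun p => p.2 = 0), v p = 0 ∧ ∑ p ∈ T.filter (fun p => ¬ p.2 = 0), v p = 0 := by
  have h0 : (∑ p ∈ T.filter (fun p => p.2 = 0), v p).2 = 0 := by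
    rw [Prod.snd_sum]
    exact Finset.sum_eq_zero (fun p hp => by simp [v, (Finset.mem_filter.1 hp).2])
  have h1 : (∑ p ∈ T.filter (fun p => ¬ p.2 = 0), v p).1 = 0 := by
    rw [Prod.fst_sum]
    exact Finset.sum_eq_zero (fun p hp => by simp [v, (Finset.mem_filter.1 hp).2])
  rw [← Finset.sum_filter_add_sum_filter_not T (fun p => p.2 = 0)] at hs
  have e1 := congrArg Prod.fst hs
  have e2 := congrArg Prod.snd hs
  rw [Prod.fst_add, h1, add_zero] at e1
  rw [Prod.snd_add, h0, zero_add] at e2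
  exact ⟨Prod.ext e1 h0, Prod.ext h1 e2⟩

lemma circ (C : Set (Fin 11 × Fin 2)) (hC : M.IsCircuit C) (e : Fin 11) :
    ¬ ((e, 0) ∈ C ∧ (e, 1) ∈ C) := by
  rintro ⟨h0, h1⟩
  obtain ⟨C, rfl⟩ := (Set.toFinite C).exists_finset_coe
  apply hC.not_indep
  rw [M_indep']
  intro T hT hs
  obtain ⟨s0, s1⟩ := split T hs
  have i1 : M.Indep (↑(C.erase (e, 1)) : Set (Fin 11 × Fin 2)) := by
    rw [Finset.coe_erase]; exact hC.sdiff_singleton_indep h1
  have i0 : M.Indep (↑(C.erase (e, 0)) : Set (Fin 11 × Fin 2)) := by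
    rw [Finset.coe_erase]; exact hC.sdiff_singleton_indep h0
  have t0 := (M_indep' _).1 i1 _ (fun p hp => by
    obtain ⟨hp1, hp2⟩ := Finset.mem_filter.1 hp
    refine Finset.mem_erase.2 ⟨?_, hT hp1⟩
    rintro rfl
    simp at hp2) s0
  have t1 := (M_indep' _).1 i0 _ (fun p hp => by
    obtain ⟨hp1, hp2⟩ := Finset.mem_filter.1 hp
    refine Finset.mem_erase.2 ⟨?_, hT hp1⟩
    rintro rfl
    simp at hp2) s1
  rw [← Finset.filter_union_filter_not_eq (fun p : Fin 11 × Fin 2 => p.2 = 0) T, t0, t1]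
  simp

/-- No nonempty subset of `X` has zero sum. -/
def ZF (u : Fin 11 → W) (X : Finset (Fin 11)) : Prop := ∀ T ∈ X.powerset, ∑ e ∈ T, u e = 0 → T = ∅

lemma rk_iff (X : Finset (Fin 11)) :
    M.eRk ((↑X : Set (Fin 11)) ×ˢ (Set.univ : Set (Fin 2))) = ((2 * X.card : ℕ) : ℕ∞) ↔
      ZF a X ∧ ZF b X := by
  have hco : ((↑X : Set (Fin 11)) ×ˢ (Set.univ : Set (Fin 2))) =
      (↑(X ×ˢ (Finset.univ : Finset (Fin 2))) : Set (Fin 11 × Fin 2)) := by simp
  have hcard : ((2 * X.card : ℕ) : ℕ∞) =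
      (↑(X ×ˢ (Finset.univ : Finset (Fin 2))) : Set (Fin 11 × Fin 2)).encard := by
    rw [Set.encard_coe_eq_coe_finsetCard, Finset.card_product]
    simp [mul_comm]
  rw [hco, hcard, ← Matroid.indep_iff_eRk_eq_encard_of_finite (Set.toFinite _), M_indep']
  constructor
  · intro h
    constructor
    · intro T hT hs
      have := h (T ×ˢ {0}) (Finset.product_subset_product (Finset.mem_powerset.1 hT) (by simp)) (by
        rw [Finset.sum_product]
        simp only [Finset.sum_singleton, v, if_true]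
        ext1
        · rw [Prod.fst_sum]; exact hs
        · rw [Prod.snd_sum]; simp)
      simpa using this
    · intro T hT hs
      have := h (T ×ˢ {1}) (Finset.product_subset_product (Finset.mem_powerset.1 hT) (by simp)) (by
        rw [Finset.sum_product]
        simp only [Finset.sum_singleton, v, one_ne_zero, if_false]
        ext1
        · rw [Prod.fst_sum]; simp
        · rw [Prod.snd_sum]; exact hs)
      simpa using this
  · rintro ⟨ha, hb⟩ T hT hs
    obtain ⟨s0, s1⟩ := split T hs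
    have hsub : ∀ q : Fin 11 × Fin 2 → Prop, ∀ [DecidablePred q],
        (T.filter q).image Prod.fst ∈ X.powerset := by
      intro q _
      rw [Finset.mem_powerset]
      intro e he
      obtain ⟨p, hp, rfl⟩ := Finset.mem_image.1 he
      exact (Finset.mem_product.1 (hT (Finset.mem_filter.1 hp).1)).1
    have t0 := ha _ (hsub (fun p => p.2 = 0)) (by
      rw [Finset.sum_image (fun p hp q hq hpq => Prod.ext hpq (by
        rw [(Finset.mem_filter.1 hp).2, (Finset.mem_filter.1 hq).2]))]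
      have := congrArg Prod.fst s0
      rw [Prod.fst_sum] at this
      rw [← Prod.fst_zero (M := W) (N := W), ← this]
      exact Finset.sum_congr rfl (fun p hp => by simp [v, (Finset.mem_filter.1 hp).2]))
    have t1 := hb _ (hsub (fun p => ¬ p.2 = 0)) (by
      rw [Finset.sum_image (fun p hp q hq hpq => Prod.ext hpq (by
        have h1 := (Finset.mem_filter.1 hp).2
        have h2 := (Finset.mem_filter.1 hq).2
        omega))]
      have := congrArg Prod.snd s1
      rw [Prod.snd_sum] at this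
      rw [← Prod.snd_zero (M := W) (N := W), ← this]
      exact Finset.sum_congr rfl (fun p hp => by simp [v, (Finset.mem_filter.1 hp).2]))
    rw [Finset.image_eq_empty] at t0 t1
    rw [← Finset.filter_union_filter_not_eq (fun p : Fin 11 × Fin 2 => p.2 = 0) T, t0, t1]
    simp

def cov : Fin 11 → Finset (Fin 11) :=
  ![{1, 2, 3, 4, 7, 10}, {5, 6, 7, 8, 9, 10}, {0, 1, 2, 4, 6, 10}, {1, 2, 3, 5, 7, 9},
    {3, 4, 5, 6, 7, 8}, {0, 1, 2, 4, 6, 10}, {2, 3, 5, 6, 8, 9}, {0, 2, 5, 7, 8, 9},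
    {0, 1, 4, 5, 6, 8}, {0, 1, 3, 4, 9, 10}, {0, 3, 7, 8, 9, 10}]

lemma zf_of_dual (u : Fin 11 → W) (X : Finset (Fin 11)) (d : Fin 11 → W)
    (h : ∀ j ∈ X, ∀ i ∈ X, d j ⬝ᵥ u i = if i = j then 1 else 0) : ZF u X := by
  intro T hT hs
  by_contra hne
  obtain ⟨j, hj⟩ := Finset.nonempty_iff_ne_empty.2 hne
  have hTX := Finset.mem_powerset.1 hT
  have h1 : d j ⬝ᵥ ∑ e ∈ T, u e = 1 := by
    rw [dotProduct_sum, Finset.sum_congr rfl (fun i hi => h j (hTX hj) i (hTX hi))]
    simp [hj]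
  rw [hs] at h1
  simp at h1

def dA : Fin 11 → Fin 11 → ℕ :=
  ![![0, 58, 2, 28, 18, 0, 0, 39, 0, 0, 6],
    ![0, 0, 0, 0, 0, 14, 56, 3, 58, 18, 8],
    ![28, 58, 57, 0, 18, 0, 39, 0, 0, 0, 6],
    ![0, 58, 2, 8, 0, 6, 0, 51, 0, 18, 0],
    ![0, 0, 0, 26, 18, 6, 56, 25, 58, 0, 0],
    ![28, 58, 57, 0, 18, 0, 39, 0, 0, 0, 6],
    ![0, 0, 11, 8, 0, 6, 51, 0, 58, 18, 0],
    ![8, 0, 48, 0, 0, 6, 0, 51, 58, 18, 0],
    ![26, 3, 0, 0, 18, 6, 33, 0, 57, 0, 0],
    ![2, 58, 0, 57, 53, 0, 0, 0, 0, 39, 6],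
    ![56, 0, 0, 54, 0, 0, 0, 53, 58, 18, 6]]

def dB : Fin 11 → Fin 11 → ℕ :=
  ![![0, 15, 25, 16, 61, 0, 0, 12, 0, 0, 44],
    ![0, 0, 0, 0, 0, 34, 15, 19, 31, 59, 8],
    ![12, 19, 25, 0, 61, 0, 16, 0, 0, 0, 44],
    ![0, 15, 8, 16, 0, 61, 0, 12, 0, 44, 0],
    ![0, 0, 0, 51, 8, 25, 15, 32, 44, 0, 0],
    ![12, 19, 25, 0, 61, 0, 16, 0, 0, 0, 44],
    ![0, 0, 8, 19, 0, 49, 15, 0, 12, 32, 0],
    ![15, 0, 8, 0, 0, 45, 0, 19, 16, 60, 0],
    ![32, 19, 0, 0, 8, 25, 60, 0, 44, 0, 0],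
    ![12, 3, 0, 16, 61, 0, 0, 0, 0, 25, 53],
    ![15, 0, 0, 45, 0, 0, 0, 62, 61, 25, 8]]

lemma dA_ok : ∀ k, ∀ j ∈ cov k, ∀ i ∈ cov k, vec (dA k j) ⬝ᵥ a i = if i = j then 1 else 0 := by
  decide +kernel

lemma dB_ok : ∀ k, ∀ j ∈ cov k, ∀ i ∈ cov k, vec (dB k j) ⬝ᵥ b i = if i = j then 1 else 0 := by
  decide +kernel

lemma cov_zf (k : Fin 11) : ZF a (cov k) ∧ ZF b (cov k) :=
  ⟨zf_of_dual a _ (fun j => vec (dA k j)) (dA_ok k), zf_of_dual b _ (fun j => vec (dB k j)) (dB_ok k)⟩

lemma cov_six : ∀ e : Fin 11, (Finset.univ.filter fun i => e ∈ cov i).card = 6 := by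
  decide +kernel

def cyc : List (List ℕ) :=
  [[0, 2, 3], [2, 6, 7], [1, 3, 6], [1, 2, 8], [0, 1, 7], [2, 4, 5], [2, 9, 10], [0, 4, 6, 9], [3, 4, 7, 9], [0, 5, 6, 10], [3, 5, 7, 10], [0, 5, 6, 8, 9], [0, 4, 6, 8, 10], [3, 5, 7, 8, 9], [3, 4, 7, 8, 10]]

def toF (z : List ℕ) : Finset (Fin 11) := Finset.univ.filter fun e => e.val ∈ z

lemma cyc_zero : ∀ z ∈ cyc, toF z ≠ ∅ ∧ (∑ e ∈ toF z, a e = 0 ∨ ∑ e ∈ toF z, b e = 0) := by
  decide +kernel

lemma mono_aux : ∀ x0 x1 x2 x3 x4 x5 x6 x7 x8 x9 x10 : Bool, (cyc.any fun z =>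
    (z.all fun e => [x0, x1, x2, x3, x4, x5, x6, x7, x8, x9, x10].getD e false) ||
    (z.all fun e => ! ([x0, x1, x2, x3, x4, x5, x6, x7, x8, x9, x10].getD e false))) = true := by
  decide +kernel

lemma no_two (X Y : Finset (Fin 11)) (hX : ZF a X ∧ ZF b X) (hY : ZF a Y ∧ ZF b Y)
    (h : ∀ e, e ∈ X ∨ e ∈ Y) : False := by
  let f : Fin 11 → Bool := fun e => decide (e ∈ X)
  have hf : ∀ e : Fin 11,
      [f 0, f 1, f 2, f 3, f 4, f 5, f 6, f 7, f 8, f 9, f 10].getD e.val false = f e := by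
    intro e; fin_cases e <;> rfl
  have hm := mono_aux (f 0) (f 1) (f 2) (f 3) (f 4) (f 5) (f 6) (f 7) (f 8) (f 9) (f 10)
  rw [List.any_eq_true] at hm
  obtain ⟨z, hz, hm⟩ := hm
  obtain ⟨hne, hs⟩ := cyc_zero z hz
  rw [Bool.or_eq_true, List.all_eq_true, List.all_eq_true] at hm
  rcases hm with hm | hm
  · have hsub : toF z ∈ X.powerset := Finset.mem_powerset.2 (fun e he => by
      have := hm e.val (Finset.mem_filter.1 he).2
      rw [hf] at this
      simpa [f] using this)
    rcases hs with hs | hs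
    · exact hne (hX.1 _ hsub hs)
    · exact hne (hX.2 _ hsub hs)
  · have hsub : toF z ∈ Y.powerset := Finset.mem_powerset.2 (fun e he => by
      have := hm e.val (Finset.mem_filter.1 he).2
      rw [hf] at this
      have h1 : e ∉ X := by simpa [f] using this
      exact (h e).resolve_left h1)
    rcases hs with hs | hs
    · exact hne (hY.1 _ hsub hs)
    · exact hne (hY.2 _ hsub hs)

noncomputable def w (X : Finset (Fin 11)) : ℝ := ∑ i, if cov i = X then (1 / 6 : ℝ) else 0

/-- The negation of the preceding statement: For a matroid on S×{1,2} where no circuit contains both copies of an element, with f(X)=rank(X×{1,2}) and matchings meaning f(X)=2∣X∣, S can be covered by at most (fractional matching cover number)+1 matchings. -/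
theorem result :
    ¬ (∀ (S : Type) [Fintype S] [DecidableEq S] (M : Matroid (S × Fin 2)),
    M.E = Set.univ →
    (∀ C : Set (S × Fin 2), M.IsCircuit C → ∀ e : S, ¬ ((e, 0) ∈ C ∧ (e, 1) ∈ C)) →
    ∀ w : Finset S → ℝ,
      (∀ X, 0 ≤ w X) →
      (∀ X, w X ≠ 0 →
        M.eRk ((↑X : Set S) ×ˢ (Set.univ : Set (Fin 2))) = ((2 * X.card : ℕ) : ℕ∞)) →
      (∀ e : S, 1 ≤ ∑ X ∈ Finset.univ.filter (fun X : Finset S => e ∈ X), w X) →
      ∃ (k : ℕ) (c : Fin k → Finset S),
        (∀ i, M.eRk ((↑(c i) : Set S) ×ˢ (Set.univ : Set (Fin 2)))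
              = ((2 * (c i).card : ℕ) : ℕ∞)) ∧
        (∀ e : S, ∃ i, e ∈ c i) ∧
        (k : ℝ) ≤ (∑ X, w X) + 1) := by
  intro h
  obtain ⟨k, c, hc, hcov, hk⟩ := h (Fin 11) M M_E circ w
    (fun X => Finset.sum_nonneg (fun i _ => by split_ifs <;> norm_num))
    (fun X hX => by
      obtain ⟨i, -, hi⟩ := Finset.exists_ne_zero_of_sum_ne_zero hX
      have : cov i = X := by
        by_contra hne
        simp [hne] at hi
      rw [rk_iff, ← this]
      exact cov_zf i)
    (fun e => by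
      unfold w
      rw [Finset.sum_comm]
      simp only [Finset.sum_ite_eq, Finset.mem_filter, Finset.mem_univ, true_and]
      rw [← Finset.sum_filter, Finset.sum_const, cov_six e]
      norm_num)
  have hw : ∑ X, w X = 11 / 6 := by
    unfold w
    rw [Finset.sum_comm]
    simp only [Finset.sum_ite_eq, Finset.mem_univ, if_true]
    norm_num
  rw [hw] at hk
  have hk2 : k ≤ 2 := by
    have : (k : ℝ) < 3 := by linarith
    have : k < 3 := by exact_mod_cast this
    omega
  have hz : ZF a ∅ ∧ ZF b ∅ := by constructor <;> simp [ZF]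
  simp only [rk_iff] at hc
  interval_cases k
  · obtain ⟨i, -⟩ := hcov 0
    exact i.elim0
  · refine no_two (c 0) ∅ (hc 0) hz (fun e => ?_)
    obtain ⟨i, hi⟩ := hcov e
    rw [Subsingleton.elim i 0] at hi
    exact Or.inl hi
  · refine no_two (c 0) (c 1) (hc 0) (hc 1) (fun e => ?_)
    obtain ⟨i, hi⟩ := hcov e
    fin_cases i
    · exact Or.inl hi
    · exact Or.inr hi

end Pool.Agent.S09184
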