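import Pool.Statements.S09202
-- import your own Pool.Agent.* helpers here

set_option autoImplicit false
open Classical
open Pool Pool.MP_640286_co

namespace Pool.Agent.S09202

open Finset

section
variable {N : ℕ}

abbrev E (S T : Finset (Fin (N + 1))) : Prop := ∃ m, m ∉ S ∧ (∀ a ∈ S, a < m) ∧ T = insert m S

lemma E.sup {S T : Finset (Fin (N + 1))} (h : E S T) :
    T.sup id ∉ S ∧ (∀ a ∈ S, a < T.sup id) ∧ T = insert (T.sup id) S := by
  obtain ⟨m, h1, h2, h3⟩ := h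
  have : T.sup id = m := by
    rw [h3, sup_insert, id, sup_eq_left]
    exact Finset.sup_le fun a ha => (h2 a ha).le
  rw [this]
  exact ⟨h1, h2, h3⟩

lemma quad (A : Fin (N + 1) → Fin (N + 1) → Prop) (g : Fin (N + 1) → ℝ) (L : ℝ) (hg : ∀ i, 0 < g i)
    (hL : ∀ i, g i + ∑ j, (if A i j ∧ i < j then (g j)⁻¹ else 0) ≤ L)
    (P : Finset (Finset (Fin (N + 1))))
    (hP : ∀ S ∈ P, 0 ∈ S ∧ ∀ a ∈ S, ∀ b ∈ S, a < b → (∀ c ∈ S, ¬ (a < c ∧ c < b)) → A a b)
    (x : Finset (Fin (N + 1)) → ℝ) :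
    ∑ S ∈ P, ∑ T ∈ P, (if E S T ∨ E T S then x S * x T else 0) ≤ L * ∑ S ∈ P, x S ^ 2 := by
  set F := fun S T => if E S T then
    (x S ^ 2 * (g (T.sup id))⁻¹ + g (T.sup id) * x T ^ 2) / 2 else 0 with hF
  have h0 : ∀ S T, 0 ≤ F S T := fun S T => by
    have := hg (T.sup id)
    simp only [hF]
    split_ifs <;> positivity
  have h1 : ∀ S T, E S T → x S * x T ≤ F S T := fun S T h => by
    have := hg (T.sup id)
    simp only [hF, if_pos h]
    have e : (x S ^ 2 * (g (T.sup id))⁻¹ + g (T.sup id) * x T ^ 2) / 2 - x S * x T =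
        (x S - g (T.sup id) * x T) ^ 2 * (g (T.sup id))⁻¹ / 2 := by
      field_simp
      ring
    rw [← sub_nonneg, e]
    positivity
  have h2 : ∑ S ∈ P, ∑ T ∈ P, (if E S T ∨ E T S then x S * x T else 0) ≤
      ∑ S ∈ P, ∑ T ∈ P, (F S T + F T S) := by
    refine sum_le_sum fun S _ => sum_le_sum fun T _ => ?_
    split_ifs with h
    · rcases h with h | h
      · linarith [h1 S T h, h0 T S]
      · linarith [h1 T S h, h0 S T, mul_comm (x S) (x T)]
    · linarith [h0 S T, h0 T S]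
  refine h2.trans ?_
  have h3 : ∑ S ∈ P, ∑ T ∈ P, (F S T + F T S) = ∑ S ∈ P, x S ^ 2 *
      (∑ T ∈ P, (if E S T then (g (T.sup id))⁻¹ else 0) +
        ∑ T ∈ P, if E T S then g (S.sup id) else 0) := by
    simp only [sum_add_distrib, mul_add, mul_sum]
    rw [sum_comm (f := fun S T => F T S),
      sum_comm (f := fun S T => x S ^ 2 * if E T S then _ else _)]
    simp only [← sum_add_distrib, hF]
    refine sum_congr rfl fun S _ => sum_congr rfl fun T _ => ?_
    split_ifs <;> ring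
  rw [h3, mul_sum]
  refine sum_le_sum fun S hS => ?_
  rw [mul_comm L]
  refine mul_le_mul_of_nonneg_left (le_trans ?_ (hL (S.sup id))) (sq_nonneg _)
  rw [add_comm]
  refine add_le_add ?_ ?_
  · rw [← sum_filter, sum_const, nsmul_eq_mul]
    refine mul_le_of_le_one_left (hg _).le ?_
    norm_cast
    refine card_le_one.mpr fun a ha b hb => ?_
    have ha := (mem_filter.mp ha).2.sup
    have hb := (mem_filter.mp hb).2.sup
    rw [← erase_insert ha.1, ← ha.2.2, ← erase_insert hb.1, ← hb.2.2]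
  · rw [← sum_filter, ← sum_filter, ← sum_image (f := fun j => (g j)⁻¹) fun a ha b hb h => by
      rw [(mem_filter.mp ha).2.sup.2.2, (mem_filter.mp hb).2.sup.2.2]
      exact congrArg (insert · S) h]
    refine sum_le_sum_of_subset_of_nonneg (fun j hj => ?_) fun j _ _ => (inv_pos.mpr (hg j)).le
    obtain ⟨T, hT, rfl⟩ := mem_image.mp hj
    obtain ⟨hT, h⟩ := mem_filter.mp hT
    obtain ⟨h4, h5, h6⟩ := h.sup
    obtain ⟨a, ha, h7⟩ := exists_mem_eq_sup S ⟨0, (hP S hS).1⟩ id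
    have h8 : ∀ c ∈ S, c ≤ a := fun c hc => (le_sup (f := id) hc).trans_eq h7
    rw [h7]
    refine mem_filter.mpr ⟨mem_univ _, (hP T hT).2 a (h6 ▸ mem_insert_of_mem ha) _
      (h6.symm.subset (mem_insert_self _ _)) (h5 a ha) fun c hc h9 => ?_, h5 a ha⟩
    rw [h6] at hc
    rcases mem_insert.mp hc with rfl | hc
    · exact lt_irrefl _ h9.2
    · exact h9.1.not_ge (h8 c hc)

end

lemma bound {n : ℕ} (H : SimpleGraph (Fin (n + 2))) (f : Equiv.Perm (Fin (n + 2)))
    (hf : (H.induce {v | f.symm v ≤ 1}).Connected) (P : Finset (Finset (Fin (n + 2))))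
    (hP : P = Finset.univ.filter (fun S : Finset (Fin (n+2)) => (0 : Fin (n+2)) ∈ S ∧
      ∀ a ∈ S, ∀ b ∈ S, a < b → (∀ c ∈ S, ¬ (a < c ∧ c < b)) → H.Adj (f a) (f b))) (L : ℝ)
    (hL : 0 ≤ L) (g : Fin (n + 2) → ℝ) (hg : ∀ v, 0 < g v ∧
      g v + ∑ u, (if H.Adj v u ∧ f.symm v < f.symm u then (g u)⁻¹ else 0) ≤ L) :
    0 < sSup {q : ℝ | ∃ x : Finset (Fin (n + 2)) → ℝ, (∑ S ∈ P, x S ^ 2) = 1 ∧
      q = ∑ S ∈ P, ∑ T ∈ P, (if E S T ∨ E T S then x S * x T else 0)} ∧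
    sSup {q : ℝ | ∃ x : Finset (Fin (n + 2)) → ℝ, (∑ S ∈ P, x S ^ 2) = 1 ∧
      q = ∑ S ∈ P, ∑ T ∈ P, (if E S T ∨ E T S then x S * x T else 0)} ≤ L := by
  have hq := quad (fun a b => H.Adj (f a) (f b)) (g ∘ f) L (fun i => (hg _).1)
    (fun i => by
      have := (hg (f i)).2
      rw [← Equiv.sum_comp f] at this
      simpa using this) P (fun S hS => by rw [hP] at hS; exact (mem_filter.mp hS).2)
  have h01 : H.Adj (f 0) (f 1) := by
    obtain ⟨p⟩ := hf.preconnected ⟨f 0, by simp⟩ ⟨f 1, by simp⟩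
    obtain ⟨⟨w, hw⟩, a⟩ : ∃ w, (H.induce {v | f.symm v ≤ 1}).Adj ⟨f 0, by simp⟩ w :=
      ⟨_, p.adj_snd (SimpleGraph.Walk.not_nil_of_ne (by simp))⟩
    obtain ⟨w, rfl⟩ := f.surjective w
    have a : H.Adj (f 0) (f w) := a
    have b : w ≠ 0 := fun b => a.ne (by rw [b])
    have c : w ≤ 1 := by simpa using hw
    rwa [show w = 1 from le_antisymm c (Fin.one_le_of_ne_zero b)] at a
  set Q := {q : ℝ | ∃ x : Finset (Fin (n + 2)) → ℝ, (∑ S ∈ P, x S ^ 2) = 1 ∧
    q = ∑ S ∈ P, ∑ T ∈ P, (if E S T ∨ E T S then x S * x T else 0)} with hQ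
  have u : ∀ q ∈ Q, q ≤ L := by
    rintro q ⟨x, hx, rfl⟩
    simpa [hx] using hq x
  have m0 : {0} ∈ P := by simp [hP]
  have m1 : {0, 1} ∈ P := by simp [hP, h01]
  have l : 0 < sSup Q := by
    set x := fun S : Finset (Fin (n + 2)) => if S = {0} ∨ S = {0, 1} then √(1 / 2) else 0 with hx
    have x0 : ∀ S, 0 ≤ x S := fun S => by simp only [hx]; split_ifs <;> positivity
    refine lt_of_lt_of_le ?_ (le_csSup ⟨_, u⟩ ⟨x, ?_, rfl⟩)
    · refine sum_pos' (fun S _ => sum_nonneg fun T _ => ?_) ⟨_, m0, sum_pos' (fun T _ => ?_)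
        ⟨_, m1, ?_⟩⟩
      · split_ifs
        exacts [mul_nonneg (x0 _) (x0 _), le_rfl]
      · split_ifs
        exacts [mul_nonneg (x0 _) (x0 _), le_rfl]
      · rw [if_pos (Or.inl (show E {0} {0, 1} from ⟨1, by simp, by simp, pair_comm _ _⟩))]
        simp [hx]
    · rw [← sum_subset (s₁ := {{0}, {0, 1}}) (by simp [insert_subset_iff, m0, m1])
        (fun S _ a => by simp only [hx]; rw [if_neg (by simpa using a)]; simp),
        sum_pair (fun a => by simpa using congrArg (1 ∈ ·) a)]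
      simp only [hx, true_or, or_true, if_true]
      rw [Real.sq_sqrt (by norm_num)]
      norm_num
  exact ⟨l, Real.sSup_le u hL⟩

def par (v : Fin 45) : Fin 45 := ⟨v.1 % 4 + 1, by omega⟩

def hA (u v : Fin 45) : Prop := u ≠ v ∧ (u.1 < 5 ∧ v.1 < 5 ∧ (u = 0 ∨ v = 0 ∨ u.1 + v.1 = 3 ∨
  u.1 + v.1 = 7) ∨ 5 ≤ v.1 ∧ u = par v ∨ 5 ≤ u.1 ∧ v = par u)

instance : DecidableRel hA := fun u v => by unfold hA; infer_instance

def H : SimpleGraph (Fin 45) where
  Adj := hA
  symm := ⟨by decide +kernel⟩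
  loopless := ⟨fun _ h => h.1 rfl⟩

instance : DecidableRel H.Adj := inferInstanceAs (DecidableRel hA)


def bs (v : Fin 5) : ℚ := 399 / 100 - if v = 0 then 0 else 1000 / 399

def R (a b c d e f : Bool) : Fin 5 → Fin 5 → Bool :=
  ![![false, a, b, c, d], ![!a, false, e, false, false], ![!b, !e, false, false, false],
    ![!c, false, false, false, f], ![!d, false, false, !f, false]]

def sol (R : Fin 5 → Fin 5 → Bool) : ℕ → Fin 5 → ℚ
  | 0, v => bs v
  | k + 1, v => bs v - ∑ u, if R v u then (sol R k u)⁻¹ else 0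

lemma core : ∀ a b c d e f : Bool, (a = e → a = b) → (c = f → c = d) → ∀ v,
    0 < sol (R a b c d e f) 4 v ∧ sol (R a b c d e f) 4 v ≤ sol (R a b c d e f) 5 v := by
  decide +kernel

lemma core2 (o : Fin 45 → Fin 45) (ho : Function.Injective o) : ∃ G : Fin 5 → ℝ, ∀ v, 0 < G v ∧
    G v + ∑ u : Fin 5, (if H.Adj (v.castAdd 40) (u.castAdd 40) ∧ o (v.castAdd 40) < o (u.castAdd 40)
      then (G u)⁻¹ else 0) ≤ bs v := by
  have k : ∀ u v, u ≠ v → o u < o v ∨ o v < o u := fun u v h => lt_or_gt_of_ne (ho.ne h)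
  have h := core (o 0 < o 1) (o 0 < o 2) (o 0 < o 3) (o 0 < o 4) (o 1 < o 2) (o 3 < o 4)
    (by have := k 0 1 (by decide); have := k 1 2 (by decide); simp only [decide_eq_decide]; omega)
    (by have := k 0 3 (by decide); have := k 3 4 (by decide); simp only [decide_eq_decide]; omega)
  set r := R (o 0 < o 1) (o 0 < o 2) (o 0 < o 3) (o 0 < o 4) (o 1 < o 2) (o 3 < o 4) with hr
  refine ⟨fun v => sol r 4 v, fun v => ⟨(Rat.cast_pos (K := ℝ)).mpr (h v).1, ?_⟩⟩
  have h1 : (sol r 4 v : ℝ) ≤ bs v - ∑ u, if r v u then ((sol r 4 u : ℚ) : ℝ)⁻¹ else 0 := by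
    have := (Rat.cast_le (K := ℝ)).mpr (h v).2
    rw [show sol r 5 v = bs v - ∑ u, if r v u then (sol r 4 u)⁻¹ else 0 from rfl] at this
    push_cast [apply_ite (Rat.cast (K := ℝ))] at this
    exact this
  refine le_trans (add_le_add_right (sum_le_sum fun u _ => ?_) _) (le_sub_iff_add_le.mp h1)
  by_cases a : H.Adj (v.castAdd 40) (u.castAdd 40) ∧ o (v.castAdd 40) < o (u.castAdd 40)
  · rw [if_pos a, if_pos]
    obtain ⟨a, b⟩ := a
    fin_cases v <;> fin_cases u <;> first | exact absurd a (by decide) |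
      (simp only [hr, R]; simp; first | exact b | exact b.le)
  · rw [if_neg a]
    have := (Rat.cast_pos (K := ℝ)).mpr (h u).1
    split_ifs <;> positivity

lemma wts (o : Fin 45 → Fin 45) (ho : Function.Injective o) : ∃ g : Fin 45 → ℝ, ∀ v, 0 < g v ∧
    g v + ∑ u, (if H.Adj v u ∧ o v < o u then (g u)⁻¹ else 0) ≤ 399 / 100 := by
  obtain ⟨G, hG⟩ := core2 o ho
  set c := fun v : Fin 45 => (univ.filter fun u : Fin 40 =>
    H.Adj v (u.natAdd 5) ∧ ¬ o v < o (u.natAdd 5)).card with hc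
  set g0 := fun v : Fin 45 => if h : v.1 < 5 then G ⟨v, h⟩ + c v * (100 / 399) else 1 with hg0
  have p0 : ∀ v, 0 < g0 v := fun v => by
    simp only [hg0]
    split_ifs with h
    · have := (hG ⟨v, h⟩).1
      positivity
    · exact one_pos
  set g := fun v : Fin 45 => if v.1 < 5 then g0 v else if o (par v) < o v then 399 / 100 else
    399 / 100 - (g0 (par v))⁻¹ with hg
  have e1 : ∀ v : Fin 5, g (v.castAdd 40) = G v + c (v.castAdd 40) * (100 / 399) := fun v => by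
    simp [hg, hg0]
  have k1 : ∀ u : Fin 40, (par (u.natAdd 5)).1 < 5 ∧ H.Adj (par (u.natAdd 5)) (u.natAdd 5) ∧
    ∀ v, (H.Adj (u.natAdd 5) v → v = par (u.natAdd 5)) ∧
      (H.Adj v (u.natAdd 5) → v = par (u.natAdd 5)) := by decide +kernel
  have k2 : ∀ v : Fin 5, ((univ.filter fun u : Fin 40 => H.Adj (v.castAdd 40) (u.natAdd 5)).card : ℚ)
    * (100 / 399) + bs v = 399 / 100 := by decide +kernel
  refine ⟨g, fun v => ?_⟩
  induction v using Fin.addCases (m := 5) (n := 40) with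
  | left v =>
    have := (hG v).1
    refine ⟨by rw [e1]; positivity, ?_⟩
    rw [Fin.sum_univ_add (a := 5) (b := 40), e1]
    have a1 : ∑ u : Fin 5, (if H.Adj (v.castAdd 40) (u.castAdd 40) ∧
        o (v.castAdd 40) < o (u.castAdd 40) then (g (u.castAdd 40))⁻¹ else 0) ≤ _ :=
      sum_le_sum fun u _ => show _ ≤ if H.Adj (v.castAdd 40) (u.castAdd 40) ∧
        o (v.castAdd 40) < o (u.castAdd 40) then (G u)⁻¹ else 0 by
      split_ifs
      · rw [e1]
        exact inv_anti₀ (hG u).1 (le_add_of_nonneg_right (by positivity))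
      · rfl
    have a2 : ∑ u : Fin 40, (if H.Adj (v.castAdd 40) (u.natAdd 5) ∧
        o (v.castAdd 40) < o (u.natAdd 5) then (g (u.natAdd 5))⁻¹ else 0) =
        (univ.filter fun u : Fin 40 => H.Adj (v.castAdd 40) (u.natAdd 5) ∧
          o (v.castAdd 40) < o (u.natAdd 5)).card * (100 / 399) := by
      rw [← sum_filter, ← nsmul_eq_mul, ← sum_const]
      refine sum_congr rfl fun u hu => ?_
      obtain ⟨b1, b2⟩ := (mem_filter.mp hu).2
      rw [((k1 u).2.2 _).2 b1] at b2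
      simp only [hg]
      rw [if_neg (by simp), if_pos b2]
      norm_num
    have a3 := (Rat.cast_inj (α := ℝ)).mpr (k2 v)
    rw [← card_filter_add_card_filter_not fun u : Fin 40 => o (v.castAdd 40) < o (u.natAdd 5),
      filter_filter, filter_filter] at a3
    push_cast at a3
    have a4 := (hG v).2
    simp only [hc]
    linarith
  | right u =>
    obtain ⟨b1, b2, b3⟩ := k1 u
    have a2 : ∑ v, (if H.Adj (u.natAdd 5) v ∧ o (u.natAdd 5) < o v then (g v)⁻¹ else 0) =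
        if o (u.natAdd 5) < o (par (u.natAdd 5)) then (g0 (par (u.natAdd 5)))⁻¹ else 0 := by
      rw [sum_eq_single (par (u.natAdd 5)) (fun v _ a => if_neg fun b => a ((b3 v).1 b.1)) (by simp)]
      simp only [b2.symm, true_and, hg, if_pos b1]
    rw [a2]
    simp only [hg]
    rw [if_neg (by simp)]
    by_cases a : o (par (u.natAdd 5)) < o (u.natAdd 5)
    · rw [if_pos a, if_neg a.not_gt]
      norm_num
    · rw [if_neg a]
      refine ⟨?_, by split_ifs <;> linarith [inv_pos.mpr (p0 (par (u.natAdd 5)))]⟩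
      rw [sub_pos, inv_lt_comm₀ (p0 _) (by norm_num)]
      simp only [hg0, dif_pos b1]
      have : (1 : ℝ) ≤ c (par (u.natAdd 5)) := by
        exact Nat.one_le_cast.mpr (card_pos.mpr ⟨u, mem_filter.mpr ⟨mem_univ _, b2, a⟩⟩)
      have := (hG ⟨_, b1⟩).1
      norm_num
      linarith

def pr (x : Fin 106) : Fin 45 :=
  if x.1 < 2 then 0 else if h : x.1 < 66 then ⟨(x.1 - 2) / 16 + 1, by omega⟩ else ⟨x.1 - 61, by omega⟩

def bad (x y : ℕ) : Bool :=
  if x < 2 then y < 66 && (y - 2) / 32 == x && ((y - 2) % 16) / 2 == 5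
  else if y < 66 then 12 ≤ (x - 2) % 16 && 12 ≤ (y - 2) % 16 else (x - 2) % 16 == (y - 66) / 4

def gA (x y : Fin 106) : Prop := H.Adj (pr x) (pr y) ∧ bad (min x.1 y.1) (max x.1 y.1) = false

instance : DecidableRel gA := fun u v => by unfold gA; infer_instance

def G : SimpleGraph (Fin 106) where
  Adj := gA
  symm := ⟨fun x y h => ⟨h.1.symm, by rw [min_comm, max_comm]; exact h.2⟩⟩
  loopless := ⟨fun _ h => h.1.ne rfl⟩

instance : DecidableRel G.Adj := inferInstanceAs (DecidableRel gA)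

lemma dens (i j : Fin 45) (h : H.Adj i j) :
    (Nat.card {p : Fin 106 × Fin 106 // pr p.1 = i ∧ pr p.2 = j ∧ G.Adj p.1 p.2} : ℝ) /
      ((Nat.card {x // pr x = i} : ℝ) * (Nat.card {x // pr x = j} : ℝ)) = 15 / 16 := by
  have k : ∀ i j, H.Adj i j → 16 * ∑ x with pr x = i, #{y | pr y = j ∧ G.Adj x y} =
      15 * (#{x | pr x = i} * #{x | pr x = j}) ∧ 0 < #{x | pr x = i} * #{x | pr x = j} := by
    decide +kernel
  obtain ⟨h1, h2⟩ := k i j h
  have e : #{p : Fin 106 × Fin 106 | pr p.1 = i ∧ pr p.2 = j ∧ G.Adj p.1 p.2} =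
      ∑ x with pr x = i, #{y | pr y = j ∧ G.Adj x y} := by
    simp only [card_filter, sum_filter, Fintype.sum_prod_type]
    refine sum_congr rfl fun x _ => ?_
    by_cases a : pr x = i <;> simp only [a, true_and, false_and, if_true, if_false, sum_const_zero]
  simp only [Nat.card_eq_fintype_card, Fintype.card_subtype]
  rw [e, ← Nat.cast_mul, div_eq_div_iff (by exact_mod_cast h2.ne') (by norm_num)]
  exact_mod_cast (mul_comm _ _).trans h1

lemma none (a : Fin 45 → Fin 106) (h1 : ∀ i, pr (a i) = i)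
    (h2 : ∀ i j, H.Adj i j → G.Adj (a i) (a j)) : False := by
  have k1 : ∀ x : Fin 106, 2 ≤ x.1 → x.1 < 66 → (x.1 - 2) % 16 < 10 →
      ∃ v, H.Adj (pr x) v ∧ ∀ y, pr y = v → ¬ G.Adj x y := by decide +kernel
  have k2 : ∀ z, pr z = 0 → ∃ i j, H.Adj 0 i ∧ H.Adj 0 j ∧ H.Adj i j ∧ ∀ x, pr x = i → ∀ y, pr y = j →
      (2 ≤ x.1 ∧ x.1 < 66 ∧ (x.1 - 2) % 16 < 10) ∨ (2 ≤ y.1 ∧ y.1 < 66 ∧ (y.1 - 2) % 16 < 10) ∨
        ¬ G.Adj z x ∨ ¬ G.Adj z y ∨ ¬ G.Adj x y := by
    set_option synthInstance.maxSize 4096 in decide +kernel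
  have k : ∀ i, ¬ (2 ≤ (a i).1 ∧ (a i).1 < 66 ∧ ((a i).1 - 2) % 16 < 10) := fun i h => by
    obtain ⟨v, b, c⟩ := k1 _ h.1 h.2.1 h.2.2
    exact c _ (h1 v) (h2 _ _ (h1 i ▸ b))
  obtain ⟨i, j, b1, b2, b3, b⟩ := k2 _ (h1 0)
  rcases b _ (h1 i) _ (h1 j) with c | c | c | c | c
  exacts [k _ c, k _ c, c (h2 _ _ b1), c (h2 _ _ b2), c (h2 _ _ b3)]

lemma conn : H.Connected := by
  have k : ∀ v, v = 0 ∨ H.Adj 0 v ∨ H.Adj 0 (par v) ∧ H.Adj (par v) v := by decide +kernel
  have h : ∀ v, H.Reachable 0 v := fun v => by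
    rcases k v with rfl | a | a
    exacts [.refl _, a.reachable, a.1.reachable.trans a.2.reachable]
  exact ⟨fun u v => (h u).symm.trans (h v)⟩

/-- The negation of the preceding statement: For every connected graph H with at least two vertices, the maximum over proper labelings f of 1-1/λ(T_f)^2 is exactly the critical edge density: blow-ups with all densities above it contain H transversally, and below it some blow-up avoids H. -/
theorem result :
    ¬ (∀ n : ℕ, ∀ H : SimpleGraph (Fin (n+2)), H.Connected →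
    ∃ B : ℝ,
      B = sSup {β : ℝ | ∃ f : Equiv.Perm (Fin (n+2)),
        (∀ k : Fin (n+2), (H.induce {v | f.symm v ≤ k}).Connected) ∧
        ∃ P : Finset (Finset (Fin (n+2))),
          P = Finset.univ.filter (fun S : Finset (Fin (n+2)) => (0 : Fin (n+2)) ∈ S ∧
                ∀ a ∈ S, ∀ b ∈ S, a < b → (∀ c ∈ S, ¬ (a < c ∧ c < b)) → H.Adj (f a) (f b)) ∧
          β = 1 - ((sSup {q : ℝ | ∃ x : Finset (Fin (n+2)) → ℝ,
                (∑ S ∈ P, x S ^ 2) = 1 ∧
                q = ∑ S ∈ P, ∑ T ∈ P,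
                  (if ((∃ m : Fin (n+2), m ∉ S ∧ (∀ a ∈ S, a < m) ∧ T = insert m S) ∨
                       (∃ m : Fin (n+2), m ∉ T ∧ (∀ a ∈ T, a < m) ∧ S = insert m T))
                   then x S * x T else 0)}) ^ 2)⁻¹} ∧
      (∀ m : ℕ, ∀ π : Fin m → Fin (n+2), ∀ G : SimpleGraph (Fin m),
        Function.Surjective π →
        (∀ x y, G.Adj x y → H.Adj (π x) (π y)) →
        (∀ i j, H.Adj i j →
          B < (Nat.card {p : Fin m × Fin m // π p.1 = i ∧ π p.2 = j ∧ G.Adj p.1 p.2} : ℝ) /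
            ((Nat.card {x : Fin m // π x = i} : ℝ) * (Nat.card {x : Fin m // π x = j} : ℝ))) →
        ∃ a : Fin (n+2) → Fin m, (∀ i, π (a i) = i) ∧ ∀ i j, H.Adj i j → G.Adj (a i) (a j)) ∧
      (∀ d : ℝ, d < B →
        ∃ m : ℕ, ∃ π : Fin m → Fin (n+2), ∃ G : SimpleGraph (Fin m),
          Function.Surjective π ∧
          (∀ x y, G.Adj x y → H.Adj (π x) (π y)) ∧
          (∀ i j, H.Adj i j →
            d < (Nat.card {p : Fin m × Fin m // π p.1 = i ∧ π p.2 = j ∧ G.Adj p.1 p.2} : ℝ) /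
              ((Nat.card {x : Fin m // π x = i} : ℝ) * (Nat.card {x : Fin m // π x = j} : ℝ))) ∧
          ¬ ∃ a : Fin (n+2) → Fin m, (∀ i, π (a i) = i) ∧ ∀ i j, H.Adj i j → G.Adj (a i) (a j))) := by
  intro h
  obtain ⟨B, hB, h1, -⟩ := h 43 H conn
  have hb : B ≤ 1 - ((399 / 100) ^ 2)⁻¹ := by
    rw [hB]
    refine Real.sSup_le ?_ (by norm_num)
    rintro β ⟨f, hf, P, hP, rfl⟩
    obtain ⟨g, hg⟩ := wts f.symm f.symm.injective
    obtain ⟨l, u⟩ := bound H f (hf 1) P hP (399 / 100) (by norm_num) g (by convert hg)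
    refine sub_le_sub_left (inv_anti₀ (pow_pos l 2) (pow_le_pow_left₀ l.le u 2)) 1
  obtain ⟨a, h2, h3⟩ := h1 106 pr G (by decide +kernel) (fun _ _ a => a.1) fun i j a => by
    rw [dens i j a]
    exact hb.trans_lt (by norm_num)
  exact none a h2 h3

end Pool.Agent.S09202
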