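import Pool.Statements.S09234
-- import your own Pool.Agent.* helpers here

set_option autoImplicit false
open Pool Pool.MP_65fa9f_co

namespace Pool.Agent.S09234

def rook : SimpleGraph (Fin 9) :=
  SimpleGraph.fromRel (fun x y => x.val / 3 = y.val / 3 ∨ x.val % 3 = y.val % 3)

instance : DecidableRel rook.Adj := fun x y => by unfold rook; infer_instance

def col (p : Fin 9 × Fin 9) : Fin 9 :=
  ⟨3 * ((p.1.val / 3 + p.2.val / 3 + p.2.val % 3) % 3) +
    (p.1.val % 3 + p.2.val / 3 + 2 * (p.2.val % 3)) % 3, by omega⟩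

lemma dom3 : ∀ S : Fin 9 → Bool, (∀ v, S v = true ∨ ∃ u, rook.Adj v u ∧ S u = true) →
    3 ≤ (Finset.univ.filter (fun v => S v = true)).card := by decide +kernel

lemma small (j : ℕ) (g : Fin 9 → Fin j)
    (hg : ∀ (i : Fin j) (v : Fin 9), g v = i ∨ ∃ u, rook.Adj v u ∧ g u = i) : j ≤ 3 := by
  have h1 := Finset.card_eq_sum_card_fiberwise (f := g) (s := Finset.univ) (t := Finset.univ)
    (fun _ _ => Finset.mem_univ _)
  have h2 : ∑ _i : Fin j, 3 ≤ ∑ i : Fin j, (Finset.univ.filter (fun v => g v = i)).card :=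
    Finset.sum_le_sum fun i _ => by
      simpa using dom3 (fun v => decide (g v = i)) (by simpa using hg i)
  rw [← h1] at h2
  simp at h2
  omega

lemma big : ∀ (i : Fin 9) (a b : Fin 9), col (a, b) = i ∨ (∃ c, rook.Adj a c ∧ col (c, b) = i) ∨
    (∃ c, rook.Adj b c ∧ col (a, c) = i) := by decide +kernel

/-- The negation of the preceding statement: For finite graphs G, H without isolated vertices: if G□H splits into k dominating sets, then for some j, G or H splits into j dominating sets and k ≤ 2j+1; i.e. d(G□H) ≤ 2max(d(G),d(H))+1. -/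
theorem result :
    ¬ (∀ (V W : Type) [Fintype V] [Fintype W] (G : SimpleGraph V) (H : SimpleGraph W),
      (∀ v, ∃ u, G.Adj v u) → (∀ w, ∃ x, H.Adj w x) →
      ∀ k : ℕ,
        (∃ f : V × W → Fin k, ∀ (i : Fin k) (p : V × W),
            f p = i ∨ ∃ q, (G.boxProd H).Adj p q ∧ f q = i) →
        ∃ j : ℕ,
          ((∃ g : V → Fin j, ∀ (i : Fin j) (v : V), g v = i ∨ ∃ u, G.Adj v u ∧ g u = i) ∨
           (∃ h : W → Fin j, ∀ (i : Fin j) (w : W), h w = i ∨ ∃ x, H.Adj w x ∧ h x = i)) ∧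
          k ≤ 2 * j + 1) := by
  intro h
  obtain ⟨j, hj, hk⟩ := h (Fin 9) (Fin 9) rook rook (by decide) (by decide) 9 ⟨col, by
    rintro i ⟨a, b⟩
    rcases big i a b with h | ⟨c, h1, h2⟩ | ⟨c, h1, h2⟩
    · exact Or.inl h
    · exact Or.inr ⟨(c, b), by simp [h1], h2⟩
    · exact Or.inr ⟨(a, c), by simp [h1], h2⟩⟩
  rcases hj with ⟨g, hg⟩ | ⟨g, hg⟩ <;> have := small j g hg <;> omega

end Pool.Agent.S09234
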