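import Pool.Statements.S09237
import Pool.Agent.Lib.helper26.OneTwo

set_option autoImplicit false
open Pool Pool.MP_661cb5_co

namespace Pool.Agent.S09237

/-- For every finite colouring of ℕ there is a sequence of positive integers y₀,y₁,… with every sum a₀y₀+…+a_{k−1}y_{k−1} the same colour, for any k≥1, all aᵢ∈{1,2} and first and last coefficient equal to 1. -/
theorem result :
    ∀ (r : ℕ) (c : ℕ → Fin r), ∃ y : ℕ → ℕ, (∀ n, 0 < y n) ∧ ∃ col : Fin r,
      ∀ k : ℕ, 1 ≤ k → ∀ a : ℕ → ℕ, (∀ i, a i = 1 ∨ a i = 2) → a 0 = 1 → a (k - 1) = 1 →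
        c (∑ i ∈ Finset.range k, a i * y i) = col := by
  intro r c
  obtain ⟨col, y, C, h0, h1, h2, h3, h4⟩ :=
    Pool.Agent.Lib.helper26.OneTwo.main (fun z : ℤ => c z.toNat)
  have hy : ∀ n, ((y n).toNat : ℤ) = y n := fun n => Int.toNat_of_nonneg (h0 n).le
  refine ⟨fun n => (y n).toNat, fun n => by have := h0 n; simp only; omega, col, ?_⟩
  intro k hk a ha ha0 hak
  have key : ∀ n, ∀ x ∈ C n,
      c ((∑ i ∈ Finset.range (n + 1), (a i : ℤ) * y i) + x).toNat = col := by
    intro n
    induction n with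
    | zero =>
      intro x hx
      simpa [ha0] using h2 x hx
    | succ n ih =>
      intro x hx
      rw [Finset.sum_range_succ, add_assoc]
      apply ih
      rcases ha (n + 1) with h | h
      · simpa [h] using (h4 n x hx).1
      · simpa [h] using (h4 n x hx).2
  have e : ∑ i ∈ Finset.range k, a i * (y i).toNat =
      (∑ i ∈ Finset.range k, (a i : ℤ) * y i).toNat := by
    have : ((∑ i ∈ Finset.range k, a i * (y i).toNat : ℕ) : ℤ) =
        ∑ i ∈ Finset.range k, (a i : ℤ) * y i := by
      push_cast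
      exact Finset.sum_congr rfl fun i _ => by rw [hy]
    rw [← this, Int.toNat_natCast]
  rw [e]
  obtain _ | _ | k := k
  · omega
  · simpa [ha0] using h1
  · rw [Finset.sum_range_succ]
    have hk1 : a (k + 1) = 1 := hak
    simpa [hk1] using key k _ (h3 k)

end Pool.Agent.S09237
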