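import Pool.Statements.S09302
import Pool.Agent.Lib.helper13.ICMat

set_option autoImplicit false
open Pool Pool.MP_6a070e_co

namespace Pool.Agent.S09302

/-- The negation of the preceding statement: Every nonempty finite connected binary matroid (circuits meet cocircuits evenly) whose cocircuits all have at least 5 elements has a circuit D whose deletion leaves a matroid where any two distinct elements share a circuit. -/
theorem result :
    ¬ (∀ (α : Type) [Fintype α] (M : Matroid α),
      M.E.Nonempty →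
      (∀ C K : Set α, M.IsCircuit C → M.IsCocircuit K → Even (C ∩ K).ncard) →
      (∀ e ∈ M.E, ∀ f ∈ M.E, e ≠ f → ∃ C : Set α, M.IsCircuit C ∧ e ∈ C ∧ f ∈ C) →
      (∀ K : Set α, M.IsCocircuit K → 5 ≤ K.ncard) →
      ∃ D : Set α, M.IsCircuit D ∧
        ∀ e ∈ (M.delete D).E, ∀ f ∈ (M.delete D).E, e ≠ f →
          ∃ C : Set α, (M.delete D).IsCircuit C ∧ e ∈ C ∧ f ∈ C) := by
  intro H
  obtain ⟨n, M, v, hE, hne, -, hev, hconn, hco, hout, hint⟩ := H13IC.exists_matroid 5
  obtain ⟨D, hD, h⟩ := H (Fin n) M hne hev (fun e _ f _ _ => hconn e f) hco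
  obtain ⟨e, f, he, hf, hef⟩ := hout D hD
  obtain ⟨C, hC, -⟩ := h e ⟨hE ▸ Set.mem_univ e, he⟩ f ⟨hE ▸ Set.mem_univ f, hf⟩ hef
  rw [Matroid.delete_isCircuit_iff] at hC
  exact hint C D hC.1 hD hC.2

end Pool.Agent.S09302
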