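import Pool.Statements.S09318

set_option autoImplicit false
open Pool Pool.MP_6b5009_co

namespace Pool.Agent.S09318

/-- Edges of the Groetzsch graph. -/
def grot : List (ℕ × ℕ) :=
  [(0, 1), (0, 4), (0, 6), (0, 9), (1, 2), (1, 5), (1, 7), (2, 3), (2, 6), (2, 8), (3, 4), (3, 7),
   (3, 9), (4, 5), (4, 8), (5, 10), (6, 10), (7, 10), (8, 10), (9, 10)]

/-- Boolean adjacency: eleven triangles whose first vertices span a Groetzsch graph. -/
def adjB (u v : ℕ) : Bool :=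
  (u / 3 == v / 3 && u != v) ||
    (u % 3 == 0 && v % 3 == 0 && (grot.contains (u / 3, v / 3) || grot.contains (v / 3, u / 3)))

/-- The Groetzsch graph with a triangle attached at every vertex. -/
def G : SimpleGraph (Fin 33) where
  Adj u v := adjB u.val v.val = true
  symm := ⟨by decide +kernel⟩
  loopless := ⟨by decide +kernel⟩

instance : DecidableRel G.Adj := fun u v => inferInstanceAs (Decidable (adjB u.val v.val = true))

def f2 : Fin 33 → Finset (Fin 6) :=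
  ![{1, 4}, {0, 2}, {3, 5}, {3, 5}, {0, 1}, {2, 4}, {0, 4}, {1, 2}, {3, 5}, {1, 3}, {0, 2}, {4, 5},
    {2, 5}, {0, 1}, {3, 4}, {0, 1}, {2, 3}, {4, 5}, {2, 3}, {0, 1}, {4, 5}, {0, 2}, {1, 3}, {4, 5},
    {1, 3}, {0, 2}, {4, 5}, {0, 2}, {1, 3}, {4, 5}, {4, 5}, {0, 1}, {2, 3}]

def f3 : Fin 33 → Finset (Fin 9) :=
  ![{0, 1, 8}, {2, 3, 4}, {5, 6, 7}, {2, 5, 6}, {0, 1, 3}, {4, 7, 8}, {4, 7, 8}, {0, 1, 2},
    {3, 5, 6}, {0, 1, 5}, {2, 3, 4}, {6, 7, 8}, {2, 4, 7}, {0, 1, 3}, {5, 6, 8}, {0, 3, 8},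
    {1, 2, 4}, {5, 6, 7}, {3, 5, 6}, {0, 1, 2}, {4, 7, 8}, {3, 7, 8}, {0, 1, 2}, {4, 5, 6},
    {0, 5, 6}, {1, 2, 3}, {4, 7, 8}, {3, 6, 7}, {0, 1, 2}, {4, 5, 8}, {1, 2, 4}, {0, 3, 5},
    {6, 7, 8}]

theorem f2_ok : (∀ v, (f2 v).card = 2) ∧ ∀ u v, G.Adj u v → Disjoint (f2 u) (f2 v) := by
  decide +kernel

theorem f3_ok : (∀ v, (f3 v).card = 2 + 1) ∧ ∀ u v, G.Adj u v → Disjoint (f3 u) (f3 v) := by
  decide +kernel

theorem inf2 : sInf {m : ℕ | ∃ g : Fin 33 → Finset (Fin m),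
    (∀ v, (g v).card = 2) ∧ ∀ u v, G.Adj u v → Disjoint (g u) (g v)} = 6 := by
  apply le_antisymm
  · exact Nat.sInf_le ⟨f2, f2_ok⟩
  · refine le_csInf ⟨6, ?_⟩ ?_
    · exact ⟨f2, f2_ok⟩
    rintro m ⟨g, h1, h2⟩
    have d01 := h2 0 1 (by decide)
    have d02 := h2 0 2 (by decide)
    have d12 := h2 1 2 (by decide)
    have hc : ((g 0 ∪ g 1) ∪ g 2).card = 6 := by
      rw [Finset.card_union_of_disjoint (Finset.disjoint_union_left.mpr ⟨d02, d12⟩),
        Finset.card_union_of_disjoint d01, h1, h1, h1]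
    have := Finset.card_le_univ ((g 0 ∪ g 1) ∪ g 2)
    rw [hc, Fintype.card_fin] at this
    exact this

theorem same_tri : ∀ u v : Fin 33, u.val / 3 = v.val / 3 → u ≠ v → G.Adj u v := by
  decide +kernel

theorem indep_le : G.indepNum ≤ 11 := by
  obtain ⟨s, hs⟩ := G.exists_isNIndepSet_indepNum
  rw [← hs.card_eq]
  have : s.card ≤ (Finset.range 11).card := by
    apply Finset.card_le_card_of_injOn (fun v => v.val / 3)
    · intro v _
      have := v.isLt
      simp only [Finset.coe_range, Set.mem_Iio]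
      omega
    · intro u hu v hv h
      by_contra hne
      exact hs.isIndepSet hu hv hne (same_tri u v h hne)
  simpa using this

theorem no3 : ∀ c0 c1 : Fin 3, c0 ≠ c1 → ∀ c2 : Fin 3, c1 ≠ c2 → ∀ c3 : Fin 3, c2 ≠ c3 →
    ∀ c4 : Fin 3, c3 ≠ c4 → c0 ≠ c4 → ∀ c10 c5 : Fin 3, c1 ≠ c5 → c4 ≠ c5 → c5 ≠ c10 →
    ∀ c6 : Fin 3, c0 ≠ c6 → c2 ≠ c6 → c6 ≠ c10 → ∀ c7 : Fin 3, c1 ≠ c7 → c3 ≠ c7 → c7 ≠ c10 →
    ∀ c8 : Fin 3, c2 ≠ c8 → c4 ≠ c8 → c8 ≠ c10 → ∀ c9 : Fin 3, c0 ≠ c9 → c3 ≠ c9 → c9 ≠ c10 →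
    False := by
  decide +kernel

theorem not_col : ¬ G.Colorable 3 := by
  rintro ⟨c⟩
  exact no3 (c 0) (c 3) (c.valid (by decide)) (c 6) (c.valid (by decide)) (c 9)
    (c.valid (by decide)) (c 12) (c.valid (by decide)) (c.valid (by decide)) (c 30) (c 15)
    (c.valid (by decide)) (c.valid (by decide)) (c.valid (by decide)) (c 18)
    (c.valid (by decide)) (c.valid (by decide)) (c.valid (by decide)) (c 21)
    (c.valid (by decide)) (c.valid (by decide)) (c.valid (by decide)) (c 24)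
    (c.valid (by decide)) (c.valid (by decide)) (c.valid (by decide)) (c 27)
    (c.valid (by decide)) (c.valid (by decide)) (c.valid (by decide))

theorem sat (m : ℕ) (hm : m = 6) (f : Fin 33 → Finset (Fin m)) (h1 : ∀ v, (f v).card = 2)
    (h2 : ∀ u v, G.Adj u v → Disjoint (f u) (f v)) (c : Fin m) :
    (Finset.univ.filter (fun v => c ∈ f v)).card = G.indepNum := by
  subst hm
  have hle : ∀ c, (Finset.univ.filter (fun v => c ∈ f v)).card ≤ G.indepNum := by
    intro c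
    apply SimpleGraph.IsIndepSet.card_le_indepNum
    intro u hu v hv _ hadj
    simp only [Finset.coe_filter, Finset.mem_univ, true_and, Set.mem_ofPred_eq] at hu hv
    exact Finset.disjoint_left.mp (h2 u v hadj) hu hv
  have hsum : ∑ c : Fin 6, (Finset.univ.filter (fun v => c ∈ f v)).card = 66 := by
    have : ∑ c : Fin 6, (Finset.univ.filter (fun v => c ∈ f v)).card
        = ∑ v : Fin 33, (f v).card := by
      simp only [Finset.card_filter]
      rw [Finset.sum_comm]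
      apply Finset.sum_congr rfl
      intro v _
      simp
    rw [this]
    simp [h1]
  have hi := indep_le
  rw [Fin.sum_univ_six] at hsum
  have a0 := hle 0
  have a1 := hle 1
  have a2 := hle 2
  have a3 := hle 3
  have a4 := hle 4
  have a5 := hle 5
  fin_cases c <;> simp only [Fin.zero_eta, Fin.mk_one, Fin.reduceFinMk] <;> omega

/-- Counterexample with k = 2: the Groetzsch graph with a triangle attached at each vertex has
2-fold number 6 (all such colourings saturated), 3-fold number at most 9 and chromatic number 4. -/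
theorem result :
    ¬ (∀ (n : ℕ) (G : SimpleGraph (Fin n)) (k : ℕ), 1 ≤ k →
      (∀ f : Fin n → Finset (Fin (sInf {m : ℕ | ∃ g : Fin n → Finset (Fin m),
            (∀ v, (g v).card = k) ∧ ∀ u v, G.Adj u v → Disjoint (g u) (g v)})),
          (∀ v, (f v).card = k) →
          (∀ u v, G.Adj u v → Disjoint (f u) (f v)) →
          ∀ c, (Finset.univ.filter (fun v => c ∈ f v)).card = G.indepNum) →
      ((sInf {m : ℕ | ∃ g : Fin n → Finset (Fin m),
            (∀ v, (g v).card = k + 1) ∧ ∀ u v, G.Adj u v → Disjoint (g u) (g v)} : ℕ) : ℕ∞)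
        = ((sInf {m : ℕ | ∃ g : Fin n → Finset (Fin m),
            (∀ v, (g v).card = k) ∧ ∀ u v, G.Adj u v → Disjoint (g u) (g v)} : ℕ) : ℕ∞)
          + G.chromaticNumber) := by
  intro H
  have h := H 33 G 2 (by norm_num) (fun f h1 h2 c => sat _ inf2 f h1 h2 c)
  rw [inf2] at h
  have h9 : sInf {m : ℕ | ∃ g : Fin 33 → Finset (Fin m),
      (∀ v, (g v).card = 2 + 1) ∧ ∀ u v, G.Adj u v → Disjoint (g u) (g v)} ≤ 9 :=
    Nat.sInf_le ⟨f3, f3_ok⟩
  apply not_col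
  rw [← SimpleGraph.chromaticNumber_le_iff_colorable]
  have h9' : ((6 : ℕ) : ℕ∞) + G.chromaticNumber ≤ ((6 : ℕ) : ℕ∞) + ((3 : ℕ) : ℕ∞) := by
    rw [← h, ← Nat.cast_add]
    exact_mod_cast h9
  exact (ENat.add_le_add_iff_left (by simp)).mp h9'

end Pool.Agent.S09318
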