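import Pool.Statements.S09377
import Pool.Agent.Lib.helper17.GridKey

set_option autoImplicit false
open Asymptotics
open Pool Pool.MP_6e13ab_co

namespace Pool.Agent.S09377

section
open Finset BigOperators H17Grid

theorem ninj (a n : ℕ) (hn : 0 < n) (h : a ≤ n) :
    𝔼 x : Fin a → Fin n, (if Function.Injective x then 0 else 1 : ℝ) ≤ a ^ 2 / n := by
  classical
  have n0 : (0 : ℝ) < n := by exact_mod_cast hn
  have : Nonempty (Fin n) := ⟨⟨0, hn⟩⟩
  have e : ∀ x : Fin a → Fin n, (if Function.Injective x then 0 else 1 : ℝ) =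
      1 - if Function.Injective x then 1 else 0 := fun x => by split_ifs <;> simp
  have h1 : #{x : Fin a → Fin n | Function.Injective x} = n.descFactorial a := by
    rw [← Fintype.card_subtype, Fintype.card_congr (Equiv.subtypeInjectiveEquivEmbedding _ _),
      Fintype.card_embedding_eq, Fintype.card_fin, Fintype.card_fin]
  have h2 : ((n : ℝ) - a) ^ a ≤ n.descFactorial a := by
    rw [← Nat.cast_sub h]
    exact_mod_cast (Nat.pow_le_pow_left (by omega) a).trans (Nat.pow_sub_le_descFactorial n a)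
  have h3 := one_add_mul_le_pow (a := -(a / n : ℝ)) (by
    have : (a / n : ℝ) ≤ 1 := div_le_one_of_le₀ (by exact_mod_cast h) n0.le
    linarith) a
  simp only [e, expect_sub_distrib, Fintype.expect_const]
  rw [Fintype.expect_eq_sum_div_card, sum_boole, h1]
  simp only [Fintype.card_fun, Fintype.card_fin, Nat.cast_pow]
  have h4 : (1 + -(a / n : ℝ)) ^ a ≤ n.descFactorial a / n ^ a := by
    rw [le_div_iff₀ (by positivity), ← mul_pow]
    rwa [show (1 + -(a / n : ℝ)) * n = n - a by field_simp; ring]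
  have : (a : ℝ) * -(a / n) = -(a ^ 2 / n) := by ring
  linarith

theorem coll {n r : ℕ} (hn : 0 < n) (hr : 0 < r) (f : Fin n → Fin r) :
    1 / (r : ℝ) ≤ 𝔼 p : Fin n × Fin n, if f p.1 = f p.2 then 1 else 0 := by
  have : Nonempty (Fin n) := ⟨⟨0, hn⟩⟩
  have e : ∀ x y, (if f x = f y then 1 else 0 : ℝ) =
      ∑ c, (if f x = c then 1 else 0) * (if f y = c then 1 else 0) := fun x y => by
    simp [eq_comm]
  have h := sq_sum_le_card_mul_sum_sq (s := univ) (f := fun c => 𝔼 x, (if f x = c then 1 else 0 : ℝ))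
  rw [← expect_sum_comm] at h
  simp only [sum_ite_eq, mem_univ, if_true, Fintype.expect_const, card_univ, Fintype.card_fin] at h
  rw [← univ_product_univ, expect_product, div_le_iff₀' (by exact_mod_cast hr)]
  simp only [e, expect_sum_comm, ← expect_mul_expect, ← sq]
  linarith

theorem diag {n : ℕ} (hn : 0 < n) :
    𝔼 x : Fin n, 𝔼 y : Fin n, (if x = y then 1 else 0 : ℝ) = 1 / n := by
  have : Nonempty (Fin n) := ⟨⟨0, hn⟩⟩
  simp

theorem main {n r : ℕ} (hn : 0 < n) (hr : 0 < r) (h v : Fin n → Fin n → Fin n → Fin r)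
    (H : ∀ i i' j j', i < i' → j < j' → h i j j' = h i' j j' → v j i i' ≠ v j' i i')
    (m k : ℕ) (hk : 2 * k + m = r) (hrn : 2 * r ≤ n)
    (ε δ : ℝ) (e0 : 0 ≤ ε) (e1 : ε ≤ 1 / 3) (d0 : 0 ≤ δ) (d1 : δ ≤ 1 / 3)
    (d2 : (1 + 3 * δ) ^ m ≤ 1 + (m + 1) * m / 2 * (ε / r) ^ 2) :
    (1 / r - 2 / n : ℝ) ^ ((m + 1) * (2 * k)) * (1 + δ) ^ (m * (2 * k)) ≤
      Real.exp (18 * (m + 1) ^ 2 * ε ^ 4 / r) *
        ((r ^ ((2 * k).choose 2 + (m + 1).choose 2) + (2 * k : ℕ) ^ 2 + (m + 1 : ℕ) ^ 2) / n) := by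
  classical
  have : Nonempty (Fin n) := ⟨⟨0, hn⟩⟩
  have n0 : (0 : ℝ) < n := by exact_mod_cast hn
  have r0 : (0 : ℝ) < r := by exact_mod_cast hr
  let V : Fin n → Sym2 (Fin n) → Fin r := fun j =>
    Sym2.lift ⟨fun x y => v j (min x y) (max x y), by simp [min_comm, max_comm]⟩
  let κ : Fin n × Fin n → Fin n → Fin r := fun p x => h x (min p.1 p.2) (max p.1 p.2)
  have pr : ∀ (p : Fin n × Fin n) x y, p.1 ≠ p.2 → x ≠ y → V p.1 s(x, y) = V p.2 s(x, y) →
      κ p x ≠ κ p y := by
    rintro ⟨j, j'⟩ x y a b c d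
    simp only [V, κ, Sym2.lift_mk] at a c d
    rcases lt_or_gt_of_ne a with a | a <;> rcases lt_or_gt_of_ne b with b | b <;>
      simp only [min_eq_left a.le, max_eq_right a.le, min_eq_left b.le, max_eq_right b.le,
        min_eq_right a.le, max_eq_left a.le, min_eq_right b.le, max_eq_left b.le] at c d
    exacts [H _ _ _ _ b a d c, H _ _ _ _ b a d.symm c, H _ _ _ _ b a d c.symm,
      H _ _ _ _ b a d.symm c.symm]
  let W : Fin n × Fin n → Fin n → Fin n → ℝ := fun p x y =>
    if p.1 ≠ p.2 ∧ x ≠ y ∧ V p.1 s(x, y) = V p.2 s(x, y) then 1 else 0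
  have W0 : ∀ p x y, 0 ≤ W p x y := fun p x y => by simp only [W]; positivity
  have k1 := expect_le_expect (s := univ) fun p _ => key hr (κ p) (W p) (W0 p)
    (fun x y a => if_neg fun b => pr p x y b.1 b.2.1 b.2.2 a) m k ε δ e0 e1 d0 d1 d2
  rw [← expect_mul, ← mul_expect] at k1
  refine le_trans (mul_le_mul_of_nonneg_right ?_ (by positivity))
    (k1.trans (mul_le_mul_of_nonneg_left ?_ (by positivity)))
  · have := jens (fun _ => 1) (fun p => 𝔼 x, 𝔼 y, W p x y) (by simp) (fun p =>
      expect_nonneg fun x _ => expect_nonneg fun y _ => W0 p x y) (by simp) ((m + 1) * (2 * k))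
    simp only [one_mul] at this
    refine le_trans (pow_le_pow_left₀ ?_ ?_ _) this
    · rw [sub_nonneg, div_le_div_iff₀ n0 r0, one_mul]; exact_mod_cast hrn
    refine le_trans ?_ (expect_le_expect fun p _ => expect_le_expect fun x _ =>
      expect_le_expect (f := fun y => (if V p.1 s(x, y) = V p.2 s(x, y) then 1 else 0) -
        (if p.1 = p.2 then 1 else 0) - (if x = y then 1 else 0)) fun y _ => ?_)
    · simp only [expect_sub_distrib, Fintype.expect_const, diag hn]
      have a : 𝔼 p : Fin n × Fin n, (if p.1 = p.2 then 1 else 0 : ℝ) = 1 / n := by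
        rw [← univ_product_univ, expect_product, diag hn]
      have b : 1 / (r : ℝ) ≤ 𝔼 p : Fin n × Fin n, 𝔼 x, 𝔼 y,
          if V p.1 s(x, y) = V p.2 s(x, y) then 1 else 0 := by
        rw [expect_comm]
        refine le_expect univ_nonempty fun x _ => ?_
        rw [expect_comm]
        exact le_expect univ_nonempty fun y _ => coll hn hr fun j => V j s(x, y)
      rw [a, show (2 / n : ℝ) = 1 / n + 1 / n by ring]
      linarith
    · simp only [W]
      split_ifs <;> first | tauto | norm_num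
  · have W1 : ∀ p (x : Fin (2 * k) → Fin n) (y : Fin (m + 1) → Fin n),
        ∏ s, ∏ i, W p (x s) (y i) ≤ 1 := fun p x y => prod_le_one (fun s _ => prod_nonneg
      fun i _ => W0 _ _ _) fun s _ => prod_le_one (fun i _ => W0 _ _ _) fun i _ => by
        simp only [W]; split_ifs <;> norm_num
    rw [expect_comm]
    refine le_trans (expect_le_expect (g := fun y => 𝔼 x : Fin (2 * k) → Fin n,
      ((r : ℝ) ^ ((2 * k).choose 2 + (m + 1).choose 2) / n + (if Function.Injective x then 0 else 1) +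
        (if Function.Injective y then 0 else 1))) fun y _ => ?_) ?_
    swap
    · simp only [expect_add_distrib, Fintype.expect_const, add_div]
      exact add_le_add (add_le_add le_rfl (ninj _ _ hn (by omega))) (ninj _ _ hn (by omega))
    simp only [← epow]
    rw [expect_comm]
    refine expect_le_expect fun x _ => ?_
    by_cases hi : Function.Injective x ∧ Function.Injective y
    swap
    · refine (expect_le univ_nonempty fun p _ => W1 p x y).trans ?_
      have : 0 ≤ (r : ℝ) ^ ((2 * k).choose 2 + (m + 1).choose 2) / n := by positivity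
      split_ifs <;> first | tauto | linarith
    rw [if_pos hi.1, if_pos hi.2, add_zero, add_zero, ← univ_product_univ, expect_product]
    refine expect_le univ_nonempty fun j _ => ?_
    rw [Fintype.expect_eq_sum_div_card, Fintype.card_fin]
    refine div_le_div_of_nonneg_right (le_trans (sum_le_sum (g := fun j' => if ∀ s i, x s ≠ y i ∧
      V j s(x s, y i) = V j' s(x s, y i) then 1 else 0) fun j' _ => ?_) ?_) n0.le
    · split_ifs with a
      · exact W1 _ x y
      · simp only [not_forall] at a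
        obtain ⟨s, i, a⟩ := a
        exact (prod_eq_zero (mem_univ s) (prod_eq_zero (mem_univ i) (if_neg fun b => a b.2))).le
    rw [sum_boole]
    norm_cast
    refine (card_le_card_of_injOn (t := univ) (fun j' =>
      (fun e : {e : Sym2 (Fin (2 * k)) // ¬e.IsDiag} => V j' (e.1.map x),
        fun e : {e : Sym2 (Fin (m + 1)) // ¬e.IsDiag} => V j' (e.1.map y))) (by simp)
      fun j1 a j2 b c => by_contra fun d => ?_).trans_eq (by
        simp only [card_univ, Fintype.card_prod, Fintype.card_fun, Fintype.card_fin,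
          Sym2.card_subtype_not_diag, pow_add])
    simp only [coe_filter, mem_univ, true_and, Set.mem_ofPred_eq, Prod.mk.injEq] at a b c
    have : Function.Injective (κ (j1, j2) ∘ Sum.elim x y) := by
      intro u u' e
      by_contra f
      refine pr (j1, j2) _ _ d ?_ ?_ e <;> rcases u with s | s <;> rcases u' with t | t
      · exact hi.1.ne (by simpa using f)
      · exact (a s t).1
      · exact Ne.symm (a t s).1
      · exact hi.2.ne (by simpa using f)
      · exact congrFun c.1 ⟨s(s, t), by simpa using f⟩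
      · exact (a s t).2.symm.trans (b s t).2
      · rw [Sym2.eq_swap]; exact (a t s).2.symm.trans (b t s).2
      · exact congrFun c.2 ⟨s(s, t), by simpa using f⟩
    have := Fintype.card_le_of_injective _ this
    simp at this
    omega

theorem ch (a b : ℕ) : (a + b).choose 2 = a.choose 2 + b.choose 2 + b * a := by
  induction b with
  | zero => simp
  | succ b ih =>
    rw [← add_assoc, Nat.choose_succ_succ' (a + b), Nat.choose_succ_succ' b, ih]
    simp; ring

end

/-- Let G(r) be the least n such that every r-colouring of the n-by-n grid graph's edges has a rectangle whose opposite sides share colours; then G(r) is little-o of r to the power (r+1 choose 2). -/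
theorem result :
    (fun r : ℕ => ((sInf {n : ℕ | ∀ (h v : Fin n → Fin n → Fin n → Fin r),
        ∃ i i' j j' : Fin n, i < i' ∧ j < j' ∧
          h i j j' = h i' j j' ∧ v j i i' = v j' i i'} : ℕ) : ℝ))
      =o[Filter.atTop] (fun r : ℕ => (r : ℝ) ^ ((r + 1).choose 2)) := by
  refine Asymptotics.isLittleO_iff.mpr fun c hc => ?_
  obtain ⟨Λ, hΛ⟩ : ∃ Λ, Λ = 5000 * Real.exp 18 / c := ⟨_, rfl⟩
  have Λ0 : 0 < Λ := by rw [hΛ]; positivity
  filter_upwards [Filter.eventually_ge_atTop 8, Filter.eventually_ge_atTop ⌈9 * Λ⌉₊,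
    Filter.eventually_ge_atTop ⌈Λ ^ 2⌉₊, Filter.eventually_ge_atTop ⌈8 / c⌉₊] with r h1 h2 h3 h4
  rw [Nat.ceil_le] at h2 h3 h4
  have r8 : (8 : ℝ) ≤ r := by exact_mod_cast h1
  have r0 : (0 : ℝ) < r := by linarith
  rw [Real.norm_natCast, Real.norm_of_nonneg (by positivity)]
  refine le_trans (Nat.cast_le.mpr (Nat.sInf_le fun h v => by_contra fun H => ?_))
    (Nat.floor_le (by positivity))
  push Not at H
  obtain ⟨k, m, hk, k1, k2⟩ : ∃ k m, 2 * k + m = r ∧ r ≤ 2 * m ∧ r ≤ 8 * k :=
    ⟨r / 4, r - 2 * (r / 4), by omega, by omega, by omega⟩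
  have e := ch (2 * k) (m + 1)
  rw [← add_assoc, hk] at e
  have c1 : 2 ≤ (2 * k).choose 2 + (m + 1).choose 2 :=
    le_add_left ((by decide : 2 ≤ Nat.choose 3 2).trans (Nat.choose_le_choose 2 (by omega)))
  have c2 : 4 ≤ (r + 1).choose 2 :=
    (by decide : 4 ≤ Nat.choose 4 2).trans (Nat.choose_le_choose 2 (by omega))
  have c3 := pow_le_pow_right₀ (show (1 : ℝ) ≤ r by linarith) c1
  have c4 := pow_le_pow_right₀ (show (1 : ℝ) ≤ r by linarith) c2
  have c5 : 8 * (r : ℝ) ^ 3 ≤ c * r ^ (r + 1).choose 2 := by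
    rw [div_le_iff₀ hc] at h4
    nlinarith [mul_le_mul_of_nonneg_right h4 (pow_pos r0 3).le, mul_le_mul_of_nonneg_left c4 hc.le]
  have c6 := Nat.lt_floor_add_one (c * (r : ℝ) ^ (r + 1).choose 2)
  generalize ⌊c * (r : ℝ) ^ (r + 1).choose 2⌋₊ = n at *
  have c7 : (r : ℝ) ≤ r ^ 3 := le_self_pow₀ (by linarith) (by norm_num)
  have n0 : (0 : ℝ) < n := by linarith
  have m1 : (m : ℝ) + 1 ≤ r := by exact_mod_cast (by omega : m + 1 ≤ r)
  have m2 : (r : ℝ) ≤ 2 * m := by exact_mod_cast k1
  have m3 : (r : ℝ) ≤ 8 * k := by exact_mod_cast k2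
  have m4 : ((2 * k : ℕ) : ℝ) ≤ r := by exact_mod_cast (by omega : 2 * k ≤ r)
  have s1 : √(Λ / r) ^ 2 = Λ / r := Real.sq_sqrt (by positivity)
  have s2 : Λ / r ≤ 1 / 9 := by rw [div_le_iff₀ r0]; linarith
  have s3 : Λ / r / (48 * r) * m ≤ Λ / r / 48 := by
    rw [div_mul_eq_mul_div, div_le_div_iff₀ (by positivity) (by positivity), mul_assoc]
    exact mul_le_mul_of_nonneg_left (by linarith) (by positivity)
  have := main (by exact_mod_cast n0) (by omega) h v H m k hk
    (by exact_mod_cast (by linarith : 2 * (r : ℝ) ≤ n)) √(Λ / r) (Λ / r / (48 * r))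
    (by positivity) (Real.sqrt_le_iff.mpr ⟨by norm_num, by linarith⟩) (by positivity)
    ((div_le_self (by positivity) (by linarith)).trans (by linarith)) (by
      have a1 := pow_le_pow_left₀ (by positivity) (Real.add_one_le_exp (3 * (Λ / r / (48 * r)))) m
      rw [← Real.exp_nat_mul, add_comm] at a1
      have a0 : 0 ≤ Λ / r / (48 * r) * m := by positivity
      refine a1.trans ((Real.exp_bound_div_one_sub_of_interval (by positivity)
        (by linarith)).trans ?_)
      have a2 : Λ / r / 8 ≤ (m + 1) * m / 2 * (√(Λ / r) / r) ^ 2 := by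
        rw [div_pow, s1, mul_div_assoc', le_div_iff₀ (by positivity), mul_comm (_ / 2 : ℝ),
          div_mul_eq_mul_div, mul_div_assoc]
        exact mul_le_mul_of_nonneg_left (by nlinarith) (by positivity)
      rw [div_le_iff₀ (by linarith)]
      nlinarith)
  have b1 : Real.exp (18 * (m + 1) ^ 2 * √(Λ / r) ^ 4 / r) ≤ Real.exp 18 := by
    refine Real.exp_le_exp.mpr ?_
    rw [show √(Λ / r) ^ 4 = (Λ / r) ^ 2 by rw [← s1, Real.sqrt_sq (by positivity)]; ring,
      div_le_iff₀ r0, div_pow, mul_assoc, mul_div_assoc']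
    refine mul_le_mul_of_nonneg_left (div_le_of_le_mul₀ (by positivity) r0.le ?_) (by norm_num)
    rw [mul_comm]
    gcongr
  have b2 : Λ / 384 ≤ (1 + Λ / r / (48 * r)) ^ (m * (2 * k)) := by
    refine le_trans ?_ (one_add_mul_le_pow (le_trans (by norm_num)
      (show 0 ≤ Λ / r / (48 * r) by positivity)) _)
    push_cast
    refine le_trans ?_ (le_add_of_nonneg_left zero_le_one)
    rw [div_div, mul_div_assoc', div_le_div_iff₀ (by norm_num) (by positivity), mul_comm _ Λ,
      mul_assoc Λ]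
    exact mul_le_mul_of_nonneg_left (by nlinarith) Λ0.le
  have b3 : (1 / r : ℝ) ^ ((m + 1) * (2 * k)) / 2 ≤ (1 / r - 2 / n : ℝ) ^ ((m + 1) * (2 * k)) := by
    have a1 : 2 * (r : ℝ) / n ≤ 1 := div_le_one_of_le₀ (by linarith) n0.le
    have a2 := one_add_mul_le_pow (a := -(2 * (r : ℝ) / n)) (by linarith) ((m + 1) * (2 * k))
    rw [show (1 / r - 2 / n : ℝ) = 1 / r * (1 + -(2 * r / n)) by field_simp; ring, mul_pow,
      div_eq_mul_one_div]
    refine mul_le_mul_of_nonneg_left (le_trans ?_ a2) (by positivity)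
    have a3 : (((m + 1) * (2 * k) : ℕ) : ℝ) ≤ r * r := by
      rw [Nat.cast_mul, Nat.cast_succ]; gcongr
    have a4 : (r : ℝ) * r * (2 * r / n) ≤ 1 / 2 := by
      rw [mul_div_assoc', div_le_iff₀ n0]; nlinarith
    nlinarith [mul_le_mul_of_nonneg_right a3 (show 0 ≤ 2 * (r : ℝ) / n by positivity)]
  have b4 : (r : ℝ) ^ ((2 * k).choose 2 + (m + 1).choose 2) + (2 * k : ℕ) ^ 2 + (m + 1 : ℕ) ^ 2 ≤
      3 * r ^ ((2 * k).choose 2 + (m + 1).choose 2) := by
    have a1 := pow_le_pow_left₀ (by positivity) m4 2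
    have a2 := pow_le_pow_left₀ (by positivity) m1 2
    rw [Nat.cast_succ]
    linarith
  have b5 := (mul_le_mul b3 b2 (by positivity) (le_trans (by positivity) b3)).trans (this.trans
    (mul_le_mul b1 (div_le_div_of_nonneg_right b4 n0.le) (by positivity) (by positivity)))
  rw [e, pow_add _ _ ((m + 1) * (2 * k))] at c5 c6
  rw [hΛ, one_div, inv_pow] at b5
  field_simp at b5
  nlinarith

end Pool.Agent.S09377
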