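import Pool.Statements.S09513
import Pool.Agent.Lib.helper16.SimCheck

set_option autoImplicit false
open Pool Pool.MP_743f82_co

namespace Pool.Agent.S09513

open Pool.Agent.Lib.H16Sim

/-- first player to move wins (certificate form) -/
def P (R B : ℕ) : Prop := ∃ S f k, go S f R B k ≠ 0

/-- second player to move, first player wins (certificate form) -/
def Q (R B : ℕ) : Prop := (R ||| B) ≠ 32767 ∧
  ∀ j < 15, (R ||| B).testBit j = true ∨ look (B ||| 2 ^ j) = true ∨ P R (B ||| 2 ^ j)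

theorem shl (j : ℕ) : Nat.shiftLeft 1 j = 2 ^ j := by
  show 1 <<< j = 2 ^ j
  rw [Nat.shiftLeft_eq, one_mul]

theorem step_zero (g : ℕ → ℕ → ℕ) (U B j : ℕ) : step g U B j 0 = 0 := rfl

theorem step_ne (g : ℕ → ℕ → ℕ) (U B j k : ℕ) (h : step g U B j k ≠ 0) :
    k ≠ 0 ∧ (U.testBit j = true ∨ look (B ||| 2 ^ j) = true ∨ ∃ k, g (B ||| 2 ^ j) k ≠ 0) := by
  cases k with
  | zero => exact absurd rfl h
  | succ k =>
    refine ⟨by omega, ?_⟩
    unfold step at h
    simp only [force_eq, tb_eq, shl] at h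
    by_cases h1 : U.testBit j = true
    · exact Or.inl h1
    · right
      by_cases h2 : look (B ||| 2 ^ j) = true
      · exact Or.inl h2
      · right
        have h1' : U.testBit j = false := by simpa using h1
        have h2' : tabT.testBit (Nat.lor B (2 ^ j)) = false := by simpa [look] using h2
        rw [h1', h2'] at h
        exact ⟨_, h⟩

theorem loop_ne (h : ℕ → ℕ → ℕ) (p : ℕ → Prop) (hp : ∀ j k, h j k ≠ 0 → k ≠ 0 ∧ p j) (k : ℕ)
    (hk : loop h k ≠ 0) : ∀ j < 15, p j := by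
  unfold loop at hk
  obtain ⟨hk, h14⟩ := hp _ _ hk
  obtain ⟨hk, h13⟩ := hp _ _ hk
  obtain ⟨hk, h12⟩ := hp _ _ hk
  obtain ⟨hk, h11⟩ := hp _ _ hk
  obtain ⟨hk, h10⟩ := hp _ _ hk
  obtain ⟨hk, h9⟩ := hp _ _ hk
  obtain ⟨hk, h8⟩ := hp _ _ hk
  obtain ⟨hk, h7⟩ := hp _ _ hk
  obtain ⟨hk, h6⟩ := hp _ _ hk
  obtain ⟨hk, h5⟩ := hp _ _ hk
  obtain ⟨hk, h4⟩ := hp _ _ hk
  obtain ⟨hk, h3⟩ := hp _ _ hk
  obtain ⟨hk, h2⟩ := hp _ _ hk
  obtain ⟨hk, h1⟩ := hp _ _ hk
  obtain ⟨hk, h0⟩ := hp _ _ hk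
  intro j hj
  interval_cases j <;> assumption

theorem P_spec (R B : ℕ) (h : P R B) : ∃ e < 15, (R ||| B).testBit e = false ∧
    look (R ||| 2 ^ e) = false ∧ Q (R ||| 2 ^ e) B := by
  obtain ⟨S, f, k, h⟩ := h
  cases f with
  | zero => exact absurd rfl h
  | succ f =>
    have h' : body S (go S f) R B k ≠ 0 := h
    unfold body at h'
    simp only [force_eq, tb_eq, shl] at h'
    generalize Nat.land (Nat.shiftRight S (Nat.mul 4 k)) 15 = e at h'
    by_cases hc : (Nat.ble e 14 && (!(Nat.lor R B).testBit e && (!tabT.testBit (Nat.lor R (2 ^ e)) &&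
        !Nat.beq (Nat.lor (Nat.lor R (2 ^ e)) B) 32767))) = true
    · rw [hc] at h'
      simp only [Bool.and_eq_true, Nat.ble_eq, Bool.not_eq_true'] at hc
      obtain ⟨h1, h2, h3, h4⟩ := hc
      refine ⟨e, by omega, h2, h3, ?_, ?_⟩
      · intro h5
        have : Nat.lor (Nat.lor R (2 ^ e)) B = 32767 := h5
        rw [this] at h4
        exact absurd h4 (by decide)
      · refine loop_ne _ (fun j => (R ||| 2 ^ e ||| B).testBit j = true ∨
          look (B ||| 2 ^ j) = true ∨ P (R ||| 2 ^ e) (B ||| 2 ^ j)) ?_ _ h'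
        intro j k hjk
        obtain ⟨a, b⟩ := step_ne _ _ _ _ _ hjk
        refine ⟨a, ?_⟩
        rcases b with b | b | ⟨k, b⟩
        · exact Or.inl b
        · exact Or.inr (Or.inl b)
        · exact Or.inr (Or.inr ⟨S, f, k, b⟩)
    · have hc' := Bool.eq_false_iff.2 hc
      rw [hc'] at h'
      exact absurd rfl h'

theorem Q_one : Q 1 0 := by
  refine ⟨by decide, ?_⟩
  intro j hj
  interval_cases j
  · left; decide
  all_goals right; right; rw [Nat.zero_or]
  · exact ⟨_, _, _, by rw [go_check1]; decide⟩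
  · exact ⟨_, _, _, by rw [go_check2]; decide⟩
  · exact ⟨_, _, _, by rw [go_check3]; decide⟩
  · exact ⟨_, _, _, by rw [go_check4]; decide⟩
  · exact ⟨_, _, _, by rw [go_check5]; decide⟩
  · exact ⟨_, _, _, by rw [go_check6]; decide⟩
  · exact ⟨_, _, _, by rw [go_check7]; decide⟩
  · exact ⟨_, _, _, by rw [go_check8]; decide⟩
  · exact ⟨_, _, _, by rw [go_check9]; decide⟩
  · exact ⟨_, _, _, by rw [go_check10]; decide⟩
  · exact ⟨_, _, _, by rw [go_check11]; decide⟩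
  · exact ⟨_, _, _, by rw [go_check12]; decide⟩
  · exact ⟨_, _, _, by rw [go_check13]; decide⟩
  · exact ⟨_, _, _, by rw [go_check14]; decide⟩

def eidx : Sym2 (Fin 6) → ℕ := Sym2.lift ⟨idx, by decide⟩

theorem eidx_mk (a b : Fin 6) : eidx s(a, b) = idx a b := rfl

def Rep (S : Finset (Sym2 (Fin 6))) (x : ℕ) : Prop :=
  x < 2 ^ 15 ∧ ∀ e, e ∈ S ↔ (¬ e.IsDiag ∧ x.testBit (eidx e) = true)

theorem eidx_lt : ∀ e : Sym2 (Fin 6), ¬ e.IsDiag → eidx e < 15 := by
  intro e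
  induction e using Sym2.ind with
  | _ a b => rw [Sym2.mk_isDiag_iff, eidx_mk]; revert a b; decide

theorem eidx_inj : ∀ e e' : Sym2 (Fin 6), ¬ e.IsDiag → ¬ e'.IsDiag → eidx e = eidx e' → e = e' := by
  intro e e'
  induction e using Sym2.ind with
  | _ a b =>
  induction e' using Sym2.ind with
  | _ c d =>
    rw [Sym2.mk_isDiag_iff, Sym2.mk_isDiag_iff, eidx_mk, eidx_mk, Sym2.eq_iff]
    revert a b c d; decide +kernel

theorem eidx_surj : ∀ j < 15, ∃ e : Sym2 (Fin 6), ¬ e.IsDiag ∧ eidx e = j := by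
  have : ∀ j < 15, ∃ a b : Fin 6, a ≠ b ∧ idx a b = j := by decide +kernel
  intro j hj
  obtain ⟨a, b, h1, h2⟩ := this j hj
  exact ⟨s(a, b), by rwa [Sym2.mk_isDiag_iff], h2⟩

theorem rep_insert {S : Finset (Sym2 (Fin 6))} {x : ℕ} (h : Rep S x) {e : Sym2 (Fin 6)}
    (he : ¬ e.IsDiag) : Rep (insert e S) (x ||| 2 ^ eidx e) := by
  refine ⟨Nat.or_lt_two_pow h.1 (Nat.pow_lt_pow_right (by norm_num) (eidx_lt e he)), ?_⟩
  intro e'
  rw [Finset.mem_insert, h.2, Nat.testBit_or, Nat.testBit_two_pow]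
  constructor
  · rintro (rfl | ⟨h1, h2⟩)
    · simp [he]
    · simp [h1, h2]
  · rintro ⟨h1, h2⟩
    simp only [Bool.or_eq_true, decide_eq_true_eq] at h2
    rcases h2 with h2 | h2
    · exact Or.inr ⟨h1, h2⟩
    · exact Or.inl (eidx_inj _ _ he h1 h2).symm

/-- the lines: triangles, and a 3-star together with the edge on the two remaining vertices -/
def L : Set (Finset (Sym2 (Fin 6))) :=
  {l | (∃ a b c : Fin 6, a ≠ b ∧ b ≠ c ∧ a ≠ c ∧ l = {s(a, b), s(b, c), s(a, c)}) ∨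
    (∃ a b c d e f : Fin 6, [a, b, c, d, e, f].Nodup ∧ l = {s(a, b), s(a, c), s(a, d), s(e, f)})}

set_option synthInstance.maxSize 1000 in
theorem key6 : ∀ a b : Fin 6, a ≠ b → ∀ c : Fin 6, (a ≠ c ∧ b ≠ c) → ∀ d : Fin 6, (a ≠ d ∧ b ≠ d ∧
    c ≠ d) → ∀ e : Fin 6, (a ≠ e ∧ b ≠ e ∧ c ≠ e ∧ d ≠ e) → ∀ f : Fin 6, (a ≠ f ∧ b ≠ f ∧
    c ≠ f ∧ d ≠ f ∧ e ≠ f) →
    (2 ^ idx a b ||| 2 ^ idx a c ||| 2 ^ idx a d ||| 2 ^ idx e f) < 2 ^ 15 ∧
    look (2 ^ idx a b ||| 2 ^ idx a c ||| 2 ^ idx a d ||| 2 ^ idx e f) = true := by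
  decide +kernel

theorem badB_mono {m x : ℕ} (h : ∀ i, m.testBit i = true → x.testBit i = true)
    (hm : badB m = true) : badB x = true := by
  unfold badB at hm ⊢
  simp only [Bool.or_eq_true, List.any_eq_true, Bool.and_eq_true] at hm ⊢
  rcases hm with ⟨t, ht, k1, k2, k3⟩ | ⟨t, ht, k1, k2, k3, k4⟩
  · exact Or.inl ⟨t, ht, h _ k1, h _ k2, h _ k3⟩
  · exact Or.inr ⟨t, ht, h _ k1, h _ k2, h _ k3, h _ k4⟩

theorem key7 : six.all (fun u =>
    decide ([u.1, u.2.1, u.2.2.1, u.2.2.2.1, u.2.2.2.2.1, u.2.2.2.2.2].Nodup)) = true := by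
  decide +kernel

theorem line_iff {S : Finset (Sym2 (Fin 6))} {x : ℕ} (h : Rep S x) :
    (∃ l ∈ L, l ⊆ S) ↔ look x = true := by
  rw [look_eq x h.1]
  unfold badB
  simp only [Bool.or_eq_true, List.any_eq_true, Bool.and_eq_true]
  constructor
  · rintro ⟨l, ⟨a, b, c, h1, h2, h3, rfl⟩ | ⟨a, b, c, d, e, f, h1, rfl⟩, hl⟩
    · left
      have key : ∀ a b c : Fin 6, a ≠ b → b ≠ c → a ≠ c → ∃ t ∈ triN,
          t.1 ∈ [idx a b, idx b c, idx a c] ∧ t.2.1 ∈ [idx a b, idx b c, idx a c] ∧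
            t.2.2 ∈ [idx a b, idx b c, idx a c] := by decide +kernel
      obtain ⟨t, ht, k1, k2, k3⟩ := key a b c h1 h2 h3
      have all : ∀ i ∈ [idx a b, idx b c, idx a c], x.testBit i = true := by
        intro i hi
        simp only [List.mem_cons, List.not_mem_nil, or_false] at hi
        rcases hi with rfl | rfl | rfl
        · exact ((h.2 s(a, b)).1 (hl (by simp))).2
        · exact ((h.2 s(b, c)).1 (hl (by simp))).2
        · exact ((h.2 s(a, c)).1 (hl (by simp))).2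
      exact ⟨t, ht, all _ k1, all _ k2, all _ k3⟩
    · simp only [List.nodup_cons, List.mem_cons, List.not_mem_nil, or_false, not_or] at h1
      obtain ⟨⟨g1, g2, g3, g4, g5⟩, ⟨g6, g7, g8, g9⟩, ⟨g10, g11, g12⟩, ⟨g13, g14⟩, g15, -⟩ := h1
      obtain ⟨k1, k2⟩ :=
        key6 a b g1 c ⟨g2, g6⟩ d ⟨g3, g7, g10⟩ e ⟨g4, g8, g11, g13⟩ f ⟨g5, g9, g12, g14, g15⟩
      rw [look_eq _ k1] at k2
      have := badB_mono (x := x) (by
        intro i hi
        simp only [Nat.testBit_or, Nat.testBit_two_pow, Bool.or_eq_true, decide_eq_true_eq] at hi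
        rcases hi with ((rfl | rfl) | rfl) | rfl
        · exact ((h.2 s(a, b)).1 (hl (by simp))).2
        · exact ((h.2 s(a, c)).1 (hl (by simp))).2
        · exact ((h.2 s(a, d)).1 (hl (by simp))).2
        · exact ((h.2 s(e, f)).1 (hl (by simp))).2) k2
      unfold badB at this
      simpa only [Bool.or_eq_true, List.any_eq_true, Bool.and_eq_true] using this
  · rintro (⟨t, ht, k1, k2, k3⟩ | ⟨t, ht, k1, k2, k3, k4⟩)
    · obtain ⟨⟨a, b, c⟩, hu, rfl⟩ := List.mem_map.1 ht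
      have key : ∀ u ∈ tri, u.1 ≠ u.2.1 ∧ u.2.1 ≠ u.2.2 ∧ u.1 ≠ u.2.2 := by decide +kernel
      obtain ⟨g1, g2, g3⟩ := key _ hu
      refine ⟨_, Or.inl ⟨a, b, c, g1, g2, g3, rfl⟩, ?_⟩
      intro e he
      simp only [Finset.mem_insert, Finset.mem_singleton] at he
      rcases he with rfl | rfl | rfl
      · exact (h.2 _).2 ⟨by rwa [Sym2.mk_isDiag_iff], k1⟩
      · exact (h.2 _).2 ⟨by rwa [Sym2.mk_isDiag_iff], k2⟩
      · exact (h.2 _).2 ⟨by rwa [Sym2.mk_isDiag_iff], k3⟩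
    · obtain ⟨⟨a, b, c, d, e, f⟩, hu, rfl⟩ := List.mem_map.1 ht
      have h1 : [a, b, c, d, e, f].Nodup := of_decide_eq_true (List.all_eq_true.1 key7 _ hu)
      refine ⟨_, Or.inr ⟨a, b, c, d, e, f, h1, rfl⟩, ?_⟩
      simp only [List.nodup_cons, List.mem_cons, List.not_mem_nil, or_false, not_or] at h1
      obtain ⟨⟨g1, g2, g3, g4, g5⟩, ⟨g6, g7, g8, g9⟩, ⟨g10, g11, g12⟩, ⟨g13, g14⟩, g15, -⟩ := h1
      intro e he
      simp only [Finset.mem_insert, Finset.mem_singleton] at he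
      rcases he with rfl | rfl | rfl | rfl
      · exact (h.2 _).2 ⟨by rwa [Sym2.mk_isDiag_iff], k1⟩
      · exact (h.2 _).2 ⟨by rwa [Sym2.mk_isDiag_iff], k2⟩
      · exact (h.2 _).2 ⟨by rwa [Sym2.mk_isDiag_iff], k3⟩
      · exact (h.2 _).2 ⟨by rwa [Sym2.mk_isDiag_iff], k4⟩

/-- Some n and some isomorphism-closed family of nonempty edge sets of K_n give an avoidance game (alternately claim edges, owning a whole line loses, full board is a draw) in which the first player can force the second player to lose. -/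
theorem result :
  ∃ (n : ℕ) (L : Set (Finset (Sym2 (Fin n)))),
    (∀ ℓ ∈ L, ℓ.Nonempty ∧ ∀ x ∈ ℓ, ¬ x.IsDiag) ∧
    (∀ σ : Equiv.Perm (Fin n), ∀ ℓ ∈ L, ℓ.image (Sym2.map ⇑σ) ∈ L) ∧
    ∃ W : Set (Finset (Sym2 (Fin n)) × Finset (Sym2 (Fin n))),
      ((∅ : Finset (Sym2 (Fin n))), (∅ : Finset (Sym2 (Fin n)))) ∈ W ∧
      ∀ p ∈ W,
        (p.1.card = p.2.card →
          ∃ e : Sym2 (Fin n), ¬ e.IsDiag ∧ e ∉ p.1 ∧ e ∉ p.2 ∧
            (∀ ℓ ∈ L, ¬ ℓ ⊆ insert e p.1) ∧ (insert e p.1, p.2) ∈ W) ∧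
        (p.1.card = p.2.card + 1 →
          (∃ e : Sym2 (Fin n), ¬ e.IsDiag ∧ e ∉ p.1 ∧ e ∉ p.2) ∧
          ∀ e : Sym2 (Fin n), ¬ e.IsDiag → e ∉ p.1 → e ∉ p.2 →
            (∃ ℓ ∈ L, ℓ ⊆ insert e p.2) ∨ (p.1, insert e p.2) ∈ W) := by
  refine ⟨6, L, ?_, ?_, ?_⟩
  · rintro l (⟨a, b, c, h1, h2, h3, rfl⟩ | ⟨a, b, c, d, e, f, h1, rfl⟩)
    · refine ⟨by simp, ?_⟩
      simp [h1, h2, h3]
    · simp only [List.nodup_cons, List.mem_cons, List.not_mem_nil, or_false, not_or] at h1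
      obtain ⟨⟨g1, g2, g3, g4, g5⟩, ⟨g6, g7, g8, g9⟩, ⟨g10, g11, g12⟩, ⟨g13, g14⟩, g15, -⟩ := h1
      refine ⟨by simp, ?_⟩
      simp [g1, g2, g3, g15]
  · rintro σ l (⟨a, b, c, h1, h2, h3, rfl⟩ | ⟨a, b, c, d, e, f, h1, rfl⟩)
    · left
      exact ⟨σ a, σ b, σ c, by simpa using h1, by simpa using h2, by simpa using h3, by simp⟩
    · right
      refine ⟨σ a, σ b, σ c, σ d, σ e, σ f, ?_, by simp⟩
      exact (List.nodup_map_iff σ.injective (l := [a, b, c, d, e, f])).2 h1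
  · refine ⟨{p | ∃ R B, Rep p.1 R ∧ Rep p.2 B ∧
      ((p.1.card = p.2.card ∧ ∃ e < 15, (R ||| B).testBit e = false ∧
        look (R ||| 2 ^ e) = false ∧ Q (R ||| 2 ^ e) B) ∨
        (p.1.card = p.2.card + 1 ∧ Q R B))}, ?_, ?_⟩
    · have h0 : Rep ∅ 0 := ⟨by norm_num, by simp⟩
      exact ⟨0, 0, h0, h0, Or.inl ⟨rfl, 0, by norm_num, by decide, by decide +kernel, Q_one⟩⟩
    · rintro ⟨S1, S2⟩ ⟨R, B, hR, hB, hp⟩
      simp only at hR hB hp ⊢
      have free : ∀ e : Sym2 (Fin 6), ¬ e.IsDiag →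
          ((e ∉ S1 ∧ e ∉ S2) ↔ (R ||| B).testBit (eidx e) = false) := by
        intro e he
        rw [hR.2, hB.2, Nat.testBit_or]
        simp [he]
      constructor
      · intro hc
        rcases hp with ⟨-, j, hj, h1, h2, h3⟩ | ⟨h, -⟩
        · obtain ⟨e, he, rfl⟩ := eidx_surj j hj
          obtain ⟨f1, f2⟩ := (free e he).2 h1
          refine ⟨e, he, f1, f2, ?_, ?_⟩
          · intro l hl hs
            have := (line_iff (rep_insert hR he)).1 ⟨l, hl, hs⟩
            rw [h2] at this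
            exact absurd this (by decide)
          · refine ⟨_, _, rep_insert hR he, hB, Or.inr ⟨?_, h3⟩⟩
            simp only
            rw [Finset.card_insert_of_notMem f1, hc]
        · omega
      · intro hc
        rcases hp with ⟨h, -⟩ | ⟨-, h1, h2⟩
        · omega
        · constructor
          · by_contra hne
            apply h1
            apply Nat.eq_of_testBit_eq
            intro i
            have e : (32767 : ℕ) = 2 ^ 15 - 1 := by norm_num
            rw [e, Nat.testBit_two_pow_sub_one]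
            by_cases hi : i < 15
            · obtain ⟨e, he, rfl⟩ := eidx_surj i hi
              simp only [hi, decide_true]
              by_contra hb
              obtain ⟨f1, f2⟩ := (free e he).2 (by simpa using hb)
              exact hne ⟨e, he, f1, f2⟩
            · simp only [hi, decide_false]
              apply Nat.testBit_lt_two_pow
              exact lt_of_lt_of_le (Nat.or_lt_two_pow hR.1 hB.1)
                (Nat.pow_le_pow_right (by norm_num) (by omega))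
          · intro e he f1 f2
            have h3 := (free e he).1 ⟨f1, f2⟩
            rcases h2 _ (eidx_lt e he) with h | h | h
            · rw [h3] at h; exact absurd h (by decide)
            · exact Or.inl ((line_iff (rep_insert hB he)).2 h)
            · right
              refine ⟨_, _, hR, rep_insert hB he, Or.inl ⟨?_, P_spec _ _ h⟩⟩
              simp only
              rw [Finset.card_insert_of_notMem f2, hc]

end Pool.Agent.S09513
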