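import Pool.Statements.S09522
import Pool.Agent.Lib.helper7.Pebble

set_option autoImplicit false
open Pool Pool.MP_74a576_co

namespace Pool.Agent.S09522

open Pool.Agent.Lib.Helper7Pebble

abbrev TT (m N : ℕ) := (Fin m ↪ Fin (2 * m)) × Fin N
abbrev VV (m N L : ℕ) := Fin (2 * m) ⊕ TT m N ⊕ (TT m N × Fin m × Fin L)

variable {m N L : ℕ}

noncomputable instance instDecVV : DecidableEq (VV m N L) := Classical.decEq _
noncomputable instance instDecTT : DecidableEq (TT m N) := Classical.decEq _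

def P (L : ℕ) (r : TT m N) (i : Fin m) (j : ℕ) : VV m N L :=
  if j = 0 then .inl (r.1 i) else
    if h : j - 1 < L then .inr (.inr (r, i, ⟨j - 1, h⟩)) else .inr (.inl r)

def GG (m N L : ℕ) : SimpleGraph (VV m N L) :=
  SimpleGraph.fromRel fun u v => ∃ r i j, j ≤ L ∧ u = P L r i j ∧ v = P L r i (j + 1)

theorem P_zero (r : TT m N) (i : Fin m) : P L r i 0 = .inl (r.1 i) := by simp [P]
theorem P_last (r : TT m N) (i : Fin m) : P L r i (L + 1) = .inr (.inl r) := by simp [P]
theorem P_mid (r : TT m N) (i : Fin m) (j : Fin L) :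
    P L r i (j.val + 1) = .inr (.inr (r, i, j)) := by simp [P]

theorem P_adj (r : TT m N) (i : Fin m) (j : ℕ) (hj : j ≤ L) :
    (GG m N L).Adj (P L r i j) (P L r i (j + 1)) := by
  rw [GG, SimpleGraph.fromRel_adj]
  refine ⟨?_, Or.inl ⟨r, i, j, hj, rfl, rfl⟩⟩
  unfold P
  by_cases h0 : j = 0
  · subst h0
    simp only [if_true, zero_add, one_ne_zero, if_false]
    split_ifs <;> simp
  · have h1 : j - 1 < L := by omega
    simp only [h0, if_false, h1, dif_pos, Nat.add_eq_zero_iff, one_ne_zero, and_false]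
    split_ifs
    · simp
      omega
    · simp

theorem adj_cases {u v : VV m N L} (h : (GG m N L).Adj u v) :
    ∃ r i j, j ≤ L ∧ ((u = P L r i j ∧ v = P L r i (j + 1)) ∨
      (v = P L r i j ∧ u = P L r i (j + 1))) := by
  rw [GG, SimpleGraph.fromRel_adj] at h
  rcases h.2 with ⟨r, i, j, hj, h1, h2⟩ | ⟨r, i, j, hj, h1, h2⟩
  · exact ⟨r, i, j, hj, Or.inl ⟨h1, h2⟩⟩
  · exact ⟨r, i, j, hj, Or.inr ⟨h1, h2⟩⟩

theorem exists_emb (B : Finset (Fin (2 * m))) (hB : B.card = m) :
    ∃ a : Fin m ↪ Fin (2 * m), ∀ s, s ∈ B ↔ ∃ i, a i = s := by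
  refine ⟨(B.orderEmbOfFin hB).toEmbedding, fun s => ?_⟩
  have := B.range_orderEmbOfFin hB
  rw [← Finset.mem_coe, ← this]
  rfl

theorem reach_P (r : TT m N) (i : Fin m) (j : ℕ) (hj : j ≤ L + 1) :
    (GG m N L).Reachable (.inl (r.1 i)) (P L r i j) := by
  induction j with
  | zero => rw [P_zero]
  | succ j ih => exact (ih (by omega)).trans (P_adj r i j (by omega)).reachable

theorem conn (hm : 2 ≤ m) (hN : 0 < N) : (GG m N L).Connected := by
  have h1 : ∀ s s' : Fin (2 * m), (GG m N L).Reachable (.inl s) (.inl s') := by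
    intro s s'
    obtain ⟨B, hB1, -, hB3⟩ := Finset.exists_subsuperset_card_eq
      (Finset.subset_univ ({s, s'} : Finset (Fin (2 * m)))) (n := m)
      (Finset.card_le_two.trans hm) (by simp; omega)
    obtain ⟨a, ha⟩ := exists_emb B hB3
    obtain ⟨i, rfl⟩ := (ha s).1 (hB1 (by simp))
    obtain ⟨i', rfl⟩ := (ha s').1 (hB1 (by simp))
    have e1 := reach_P (L := L) (a, ⟨0, hN⟩) i (L + 1) le_rfl
    have e2 := reach_P (L := L) (a, ⟨0, hN⟩) i' (L + 1) le_rfl
    rw [P_last] at e1 e2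
    exact e1.trans e2.symm
  have h2 : ∀ v : VV m N L, ∃ s, (GG m N L).Reachable (.inl s) v := by
    rintro (s | r | ⟨r, i, j⟩)
    · exact ⟨s, SimpleGraph.Reachable.refl _⟩
    · refine ⟨r.1 ⟨0, by omega⟩, ?_⟩
      rw [← P_last r ⟨0, by omega⟩]
      exact reach_P _ _ _ le_rfl
    · refine ⟨r.1 i, ?_⟩
      rw [← P_mid]
      exact reach_P _ _ _ (by omega)
  have : Nonempty (VV m N L) := ⟨.inl ⟨0, by omega⟩⟩
  refine ⟨fun u v => ?_⟩
  obtain ⟨s, hs⟩ := h2 u
  obtain ⟨s', hs'⟩ := h2 v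
  exact hs.symm.trans ((h1 s s').trans hs')

def DD (m N L x : ℕ) : VV m N L → ℕ
  | .inl _ => x
  | .inr _ => 0

theorem sum_DD (x : ℕ) : ∑ v, DD m N L x v = 2 * m * x := by
  simp [Fintype.sum_sum_type, DD]

theorem reach_target (r : TT m N) (k : ℕ) :
    ∃ D', Reach (GG m N L) (DD m N L (2 ^ (L + 1) * k)) D' ∧ Pi.single (.inr (.inl r)) (m * k) ≤ D' := by
  have h1 := Reach.sum (G := GG m N L) Finset.univ
    (fun i : Fin m => Pi.single (P L r i 0) (2 ^ (L + 1) * k))
    (fun i : Fin m => Pi.single (P L r i (L + 1)) k)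
    (fun i _ => reach_path (P L r i) (L + 1) (fun j hj => P_adj r i j (by omega)) k)
  have e : (∑ i : Fin m, (Pi.single (P L r i (L + 1)) k : VV m N L → ℕ)) =
      Pi.single (.inr (.inl r)) (m * k) := by
    simp only [P_last, Finset.sum_const, Finset.card_univ, Fintype.card_fin]
    rw [← Pi.single_smul, smul_eq_mul]
  rw [e] at h1
  refine h1.of_le ?_
  intro v
  simp only [P_zero, Finset.sum_apply]
  rcases v with s | v
  · simp only [DD]
    by_cases hs : ∃ i, r.1 i = s
    · obtain ⟨i, rfl⟩ := hs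
      rw [Finset.sum_eq_single i]
      · simp
      · intro b _ hb
        have : r.1 i ≠ r.1 b := fun e => hb (r.1.injective e).symm
        simp [this]
      · simp
    · push Not at hs
      rw [Finset.sum_eq_zero]
      · exact Nat.zero_le _
      · intro i _
        simp [(hs i).symm]
  · simp [DD]

theorem solvable (h : ℕ) (hm : m = 4 ^ h) (hL : h ≤ L) (v : VV m N L) :
    ∃ D', Reach (GG m N L) (DD m N L (2 ^ (L + 1) * 2 ^ h)) D' ∧ m ≤ D' v := by
  have h4 : m = 2 ^ h * 2 ^ h := by rw [hm, ← mul_pow]; norm_num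
  rcases v with s | r | ⟨r, i, j⟩
  · refine ⟨_, Reach.rfl' _ _, ?_⟩
    simp only [DD]
    rw [h4]
    exact Nat.mul_le_mul_right _ (Nat.pow_le_pow_right (by norm_num) (by omega))
  · obtain ⟨D', h1, h2⟩ := reach_target (L := L) r (2 ^ h)
    refine ⟨D', h1, le_trans ?_ (h2 _)⟩
    simp only [Pi.single_eq_same]
    exact Nat.le_mul_of_pos_right _ (by positivity)
  · by_cases hj : L - j.val ≤ h
    · obtain ⟨D', h1, h2⟩ := reach_target (L := L) r (2 ^ h)
      have h3 := reach_path (G := GG m N L) (fun t => P L r i (L + 1 - t)) (L - j.val)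
        (fun t ht => by
          have := P_adj (L := L) r i (L - t) (by omega)
          have e1 : L + 1 - t = L - t + 1 := by omega
          have e2 : L + 1 - (t + 1) = L - t := by omega
          simp only [e1, e2]
          exact this.symm) m
      have e3 : L + 1 - (L - j.val) = j.val + 1 := by omega
      simp only [Nat.sub_zero, P_last, e3, P_mid] at h3
      obtain ⟨D'', h5, h6⟩ := h3.of_le (D := D') (le_trans (by
        apply Pi.single_mono
        rw [mul_comm]
        exact Nat.mul_le_mul_left _ (Nat.pow_le_pow_right (by norm_num) hj)) h2)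
      refine ⟨D'', Relation.ReflTransGen.trans h1 h5, le_trans ?_ (h6 _)⟩
      simp
    · have h3 := reach_path (G := GG m N L) (P L r i) (j.val + 1)
        (fun t ht => P_adj r i t (by omega)) m
      rw [P_zero, P_mid] at h3
      obtain ⟨D'', h5, h6⟩ := h3.of_le (D := DD m N L (2 ^ (L + 1) * 2 ^ h)) (by
        intro v
        by_cases hv : v = .inl (r.1 i)
        · subst hv
          simp only [Pi.single_eq_same, DD]
          calc 2 ^ (j.val + 1) * m = 2 ^ (j.val + 1 + h) * 2 ^ h := by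
                rw [pow_add 2 (j.val + 1) h, mul_assoc, ← h4]
            _ ≤ _ := Nat.mul_le_mul_right _ (Nat.pow_le_pow_right (by norm_num) (by omega))
        · simp [hv])
      refine ⟨D'', h5, le_trans ?_ (h6 _)⟩
      simp

def gg (L : ℕ) (s : Fin (2 * m)) : VV m N L → ℕ
  | .inl s' => if s' = s then L + 1 else 0
  | .inr (.inl _) => 0
  | .inr (.inr (r, i, j)) => if r.1 i = s then L - j.val else 0

theorem gg_P (s : Fin (2 * m)) (r : TT m N) (i : Fin m) (j : ℕ) (hj : j ≤ L + 1) :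
    gg L s (P L r i j) = if r.1 i = s then L + 1 - j else 0 := by
  unfold P
  by_cases h0 : j = 0
  · subst h0; simp [gg]
  · by_cases h1 : j - 1 < L
    · simp only [h0, if_false, h1, dif_pos, gg]
      split_ifs
      · omega
      · rfl
    · simp only [h0, if_false, h1, dif_neg, not_false_iff, gg]
      split_ifs
      · omega
      · rfl

noncomputable def ee (L : ℕ) (r0 : TT m N) (i0 : Fin m) : VV m N L → ℕ
  | .inl s' => gg (N := N) L (r0.1 i0) (.inl s')
  | .inr (.inl _) => 0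
  | .inr (.inr (r, i, j)) => if r = r0 ∧ i = i0 then L + 2 + j.val else
      gg L (r0.1 i0) (.inr (.inr (r, i, j)))

theorem ee_P (r0 : TT m N) (i0 : Fin m) (r : TT m N) (i : Fin m) (j : ℕ) (hj : j ≤ L + 1)
    (hne : P L r i j ≠ .inr (.inl r0)) :
    ee L r0 i0 (P L r i j) = if r = r0 ∧ i = i0 then L + 1 + j else
      if r.1 i = r0.1 i0 then L + 1 - j else 0 := by
  rw [← gg_P _ _ _ _ hj]
  unfold P at hne ⊢
  by_cases h0 : j = 0
  · subst h0
    simp only [if_true, ee, gg]
    split_ifs with h1 h2 h2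
    · rfl
    · rfl
    · exact absurd (by rw [h2.1, h2.2]) h1
    · rfl
  · by_cases h1 : j - 1 < L
    · simp only [h0, if_false, h1, dif_pos, ee]
      split_ifs
      · omega
      · rfl
    · simp only [h0, if_false, h1, dif_neg, not_false_iff, ee] at hne ⊢
      split_ifs with h2
      · exact absurd (by rw [h2.1]) hne
      · rfl

theorem rich (r0 : TT m N) (E E' : VV m N L → ℕ) (h : Reach (GG m N L) E E')
    (h1 : 1 ≤ E' (.inr (.inl r0))) (h2 : E (.inr (.inl r0)) = 0)
    (h3 : ∀ i j, E (.inr (.inr (r0, i, j))) = 0) :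
    ∃ i, 2 ^ (2 * L + 2) ≤ ∑ v, E v * 2 ^ gg L (r0.1 i) v := by
  have := weight_lemma (G := GG m N L) (fun i v => 2 ^ ee L r0 i v) (.inr (.inl r0))
    (2 ^ (2 * L + 2)) ?_ ?_ h h1
  · rcases this with h4 | ⟨i, hi⟩
    · omega
    · refine ⟨i, hi.trans (le_of_eq (Finset.sum_congr rfl ?_))⟩
      rintro (s | r | ⟨r, i', j⟩) _
      · rfl
      · rfl
      · simp only [ee]
        split_ifs with h5
        · rw [h5.1, h3]; simp
        · rfl
  · intro u v huv hu hv i0
    rw [← pow_succ']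
    apply Nat.pow_le_pow_right (by norm_num)
    obtain ⟨r, i, j, hj, ⟨rfl, rfl⟩ | ⟨rfl, rfl⟩⟩ := adj_cases huv
    · rw [ee_P _ _ _ _ _ (by omega) hu, ee_P _ _ _ _ _ (by omega) hv]
      split_ifs <;> omega
    · rw [ee_P _ _ _ _ _ (by omega) hu, ee_P _ _ _ _ _ (by omega) hv]
      split_ifs <;> omega
  · intro u hu
    have hne := hu.ne
    obtain ⟨r, i, j, hj, ⟨rfl, h5⟩ | ⟨h5, rfl⟩⟩ := adj_cases hu
    · have : j = L ∧ r = r0 := by
        unfold P at h5
        simp only [Nat.add_eq_zero_iff, one_ne_zero, and_false, if_false] at h5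
        split_ifs at h5 with h6
        · simp at h5
        · simp at h5 h6
          exact ⟨by omega, h5.symm⟩
      obtain ⟨rfl, rfl⟩ := this
      refine ⟨i, ?_⟩
      rw [ee_P _ _ _ _ _ (by omega) hne, ← pow_succ']
      simp only [and_self, if_true]
      apply Nat.pow_le_pow_right (by norm_num)
      omega
    · exfalso
      unfold P at h5
      split_ifs at h5 with h6 h7
      · simp at h5
      · omega

theorem sum_gg (v : VV m N L) : ∑ s : Fin (2 * m), 2 ^ gg L s v ≤ 2 ^ (L + 1) + 2 * m := by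
  have key : ∀ (s0 : Fin (2 * m)) (f : Fin (2 * m) → ℕ), (∀ s, s ≠ s0 → f s = 0) →
      f s0 ≤ L + 1 → ∑ s, 2 ^ f s ≤ 2 ^ (L + 1) + 2 * m := by
    intro s0 f h1 h2
    calc ∑ s, 2 ^ f s ≤ ∑ s, ((if s = s0 then 2 ^ (L + 1) else 0) + 1) := by
          refine Finset.sum_le_sum fun s _ => ?_
          split_ifs with h3
          · subst h3
            exact (Nat.pow_le_pow_right (by norm_num) h2).trans (Nat.le_succ _)
          · simp [h1 s h3]
      _ = _ := by simp [Finset.sum_add_distrib]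
  rcases v with s | r | ⟨r, i, j⟩
  · exact key s _ (fun s' hs => by simp [gg, hs.symm]) (by simp [gg])
  · simp [gg]
  · exact key (r.1 i) _ (fun s' hs => by simp [gg, hs.symm]) (by simp [gg]; omega)

theorem lower (E : VV m N L → ℕ) (hE : ∀ v, ∃ E', Reach (GG m N L) E E' ∧ 1 ≤ E' v)
    (hN : ∑ v, E v < N) : m * 2 ^ (2 * L + 2) ≤ (∑ v, E v) * (2 ^ (L + 1) + 2 * m) := by
  classical
  let R : Finset (Fin (2 * m)) :=
    Finset.univ.filter fun s => 2 ^ (2 * L + 2) ≤ ∑ v, E v * 2 ^ gg L s v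
  have hR : m ≤ R.card := by
    by_contra hc
    have h1 : m ≤ Rᶜ.card := by
      rw [Finset.card_compl]
      simp only [Fintype.card_fin]
      omega
    obtain ⟨B, hB1, hB2⟩ := Finset.exists_subset_card_eq h1
    obtain ⟨a, ha⟩ := exists_emb B hB2
    have h2 : ∃ c : Fin N, E (.inr (.inl (a, c))) = 0 ∧
        ∀ i j, E (.inr (.inr ((a, c), i, j))) = 0 := by
      by_contra h3
      push Not at h3
      have h4 : ∀ c : Fin N, ∃ v : VV m N L, 1 ≤ E v ∧
          (v = .inr (.inl (a, c)) ∨ ∃ i j, v = .inr (.inr ((a, c), i, j))) := by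
        intro c
        by_cases h5 : E (.inr (.inl (a, c))) = 0
        · obtain ⟨i, j, h6⟩ := h3 c h5
          exact ⟨_, Nat.pos_of_ne_zero h6, Or.inr ⟨i, j, rfl⟩⟩
        · exact ⟨_, Nat.pos_of_ne_zero h5, Or.inl rfl⟩
      choose f hf1 hf2 using h4
      have hinj : Function.Injective f := by
        intro c c' hcc
        rcases hf2 c with h5 | ⟨i, j, h5⟩ <;> rcases hf2 c' with h6 | ⟨i', j', h6⟩ <;>
          rw [h5, h6] at hcc <;> simp at hcc
        · exact hcc
        · exact hcc.1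
      have h7 : N ≤ ∑ v, E v := by
        calc N = ∑ _c : Fin N, 1 := by simp
          _ ≤ ∑ c : Fin N, E (f c) := Finset.sum_le_sum fun c _ => hf1 c
          _ = ∑ v ∈ Finset.univ.image f, E v := by
            rw [Finset.sum_image (fun x _ y _ h => hinj h)]
          _ ≤ _ := Finset.sum_le_sum_of_subset (Finset.subset_univ _)
      omega
    obtain ⟨c, h3, h4⟩ := h2
    obtain ⟨E', h5, h6⟩ := hE (.inr (.inl (a, c)))
    obtain ⟨i, hi⟩ := rich (a, c) E E' h5 h6 h3 h4
    have h7 : a i ∈ Rᶜ := hB1 ((ha _).2 ⟨i, rfl⟩)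
    rw [Finset.mem_compl] at h7
    exact h7 (Finset.mem_filter.2 ⟨Finset.mem_univ _, hi⟩)
  calc m * 2 ^ (2 * L + 2) ≤ R.card * 2 ^ (2 * L + 2) := Nat.mul_le_mul_right _ hR
    _ = ∑ _s ∈ R, 2 ^ (2 * L + 2) := by simp
    _ ≤ ∑ s ∈ R, ∑ v, E v * 2 ^ gg L s v :=
      Finset.sum_le_sum fun s hs => (Finset.mem_filter.1 hs).2
    _ ≤ ∑ s, ∑ v, E v * 2 ^ gg L s v := Finset.sum_le_sum_of_subset (Finset.subset_univ _)
    _ = ∑ v, E v * ∑ s, 2 ^ gg L s v := by
      rw [Finset.sum_comm]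
      simp only [Finset.mul_sum]
    _ ≤ ∑ v, E v * (2 ^ (L + 1) + 2 * m) :=
      Finset.sum_le_sum fun v _ => Nat.mul_le_mul_left _ (sum_gg v)
    _ = _ := by rw [Finset.sum_mul]

theorem result :
    ¬ (∃ c : ℕ, ∀ (V : Type) [Fintype V] [DecidableEq V] (G : SimpleGraph V), G.Connected →
      ∀ t : ℕ, 1 ≤ t → ∀ D : V → ℕ,
        (∀ r : V, ∃ D' : V → ℕ,
            Relation.ReflTransGen
              (fun A B : V → ℕ => ∃ u v : V, G.Adj u v ∧ 2 ≤ A u ∧
                B = Function.update (Function.update A u (A u - 2)) v (A v + 1)) D D' ∧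
            t ≤ D' r) →
        ∃ E : V → ℕ,
          (∀ r : V, ∃ E' : V → ℕ,
              Relation.ReflTransGen
                (fun A B : V → ℕ => ∃ u v : V, G.Adj u v ∧ 2 ≤ A u ∧
                  B = Function.update (Function.update A u (A u - 2)) v (A v + 1)) E E' ∧
              1 ≤ E' r) ∧
          t * ∑ v, E v ≤ c * ∑ v, D v) := by
  rintro ⟨c, hc⟩
  obtain ⟨h, hh⟩ : ∃ h, h = 4 * c + 1 := ⟨_, rfl⟩
  obtain ⟨q, hq⟩ : ∃ q, q = 2 ^ h := ⟨_, rfl⟩
  have hq1 : 4 * c + 1 < q := by rw [hq, ← hh]; exact Nat.lt_two_pow_self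
  obtain ⟨m, hm⟩ : ∃ m, m = 4 ^ h := ⟨_, rfl⟩
  have h4 : m = q * q := by rw [hm, hq, ← mul_pow]; norm_num
  have hm2 : 2 ≤ m := by rw [h4]; nlinarith
  have hL : 2 ^ (2 * h + 1) = 2 * m := by rw [hm, pow_succ, pow_mul]; ring
  have hL2 : 2 ^ (2 * (2 * h) + 2) = 4 * (m * m) := by
    have : 2 * (2 * h) + 2 = (2 * h + 1) + (2 * h + 1) := by ring
    rw [this, pow_add, hL]; ring
  obtain ⟨E, hE1, hE2⟩ := hc (VV m (m * m) (2 * h)) (GG m (m * m) (2 * h))
    (conn hm2 (by positivity)) m (by omega) (DD m (m * m) (2 * h) (2 ^ (2 * h + 1) * 2 ^ h))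
    (fun v => solvable h hm (by omega) v)
  rw [sum_DD, hL, ← hq] at hE2
  have h5 : m * m ≤ ∑ v, E v := by
    by_contra h6
    push Not at h6
    have := lower E hE1 h6
    rw [hL, hL2] at this
    have h7 : (∑ v, E v) * (2 * m + 2 * m) < m * m * (2 * m + 2 * m) :=
      Nat.mul_lt_mul_of_pos_right h6 (by omega)
    nlinarith
  have h8 : m * (m * m) ≤ c * (2 * m * (2 * m * q)) := (Nat.mul_le_mul_left _ h5).trans hE2
  have h9 : m * m * m ≤ m * m * (4 * c * q) := by nlinarith
  have h10 : m ≤ 4 * c * q := Nat.le_of_mul_le_mul_left h9 (by positivity)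
  rw [h4] at h10
  nlinarith

end Pool.Agent.S09522
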