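import Pool.Statements.S09534
import Pool.Agent.Lib.helper18.Spec

set_option autoImplicit false
open Classical
open Pool Pool.MP_7523ff_co

namespace Pool.Agent.S09534

open SimpleGraph Matrix

/-- The box product of a clique on `2t+1` vertices with a triangle. -/
def G0 (t : ℕ) : SimpleGraph (Fin (2 * t + 1) × Fin 3) := (⊤ : SimpleGraph _) □ (⊤ : SimpleGraph _)

theorem hcard (t : ℕ) : Fintype.card (Fin (2 * t + 1) × Fin 3) = 6 * t + 3 := by
  simp; ring

noncomputable def G1 (t : ℕ) : SimpleGraph (Fin (6 * t + 3)) := (G0 t).overFin (hcard t)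

theorem G0_deg (t : ℕ) (v : Fin (2 * t + 1) × Fin 3) : (G0 t).degree v = 2 * t + 2 := by
  have h := SimpleGraph.degree_boxProd (G := (⊤ : SimpleGraph (Fin (2 * t + 1))))
    (H := (⊤ : SimpleGraph (Fin 3))) v
  have h1 := (SimpleGraph.IsRegularOfDegree.top (V := Fin (2 * t + 1))).degree_eq v.1
  have h2 := (SimpleGraph.IsRegularOfDegree.top (V := Fin 3)).degree_eq v.2
  simp only [Fintype.card_fin] at h1 h2
  have h3 : (G0 t).degree v = 2 * t + 1 - 1 + (3 - 1) := by
    rw [← h1, ← h2]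
    convert h
    rfl
  omega

theorem G1_deg (t : ℕ) (v : Fin (6 * t + 3)) : (G1 t).degree v = 2 * t + 2 := by
  have e : G0 t ≃g G1 t := (G0 t).overFinIso (hcard t)
  obtain ⟨w, rfl⟩ := e.surjective v
  have := e.degree_eq w
  rw [G0_deg] at this
  exact this

theorem G1_conn (t : ℕ) : (G1 t).Connected := by
  have e := (G0 t).overFinIso (hcard t)
  refine e.connected_iff.mp ?_
  exact SimpleGraph.Connected.boxProd (SimpleGraph.connected_top) (SimpleGraph.connected_top)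

theorem G1_not_col (t : ℕ) : ¬ (G1 t).Colorable 2 := by
  intro h
  have e := (G0 t).overFinIso (hcard t)
  have h0 : (G0 t).Colorable 2 := h.of_hom e.toHom
  obtain ⟨c⟩ := h0
  have a1 : (G0 t).Adj (0, 0) (0, 1) := by simp [G0]
  have a2 : (G0 t).Adj (0, 0) (0, 2) := by simp [G0]
  have a3 : (G0 t).Adj (0, 1) (0, 2) := by simp [G0]
  have b1 := c.valid a1
  have b2 := c.valid a2
  have b3 := c.valid a3
  omega

theorem twice_edges {n : ℕ} (H : SimpleGraph (Fin n)) :
    ∑ v, H.degree v = 2 * H.edgeSet.ncard := by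
  rw [SimpleGraph.sum_degrees_eq_twice_card_edges, ← SimpleGraph.coe_edgeFinset,
    Set.ncard_coe_finset]

theorem G1_edges (t : ℕ) : (G1 t).edgeSet.ncard = (6 * t + 3) * (t + 1) := by
  have := twice_edges (G1 t)
  simp only [G1_deg, Finset.sum_const, Finset.card_univ, Fintype.card_fin, smul_eq_mul] at this
  nlinarith

theorem avg_le {n : ℕ} (H : SimpleGraph (Fin n)) :
    2 * (H.edgeSet.ncard : ℝ) ≤ sSup (spectrum ℝ (H.adjMatrix ℝ)) * n := by
  have hA : (H.adjMatrix ℝ).IsHermitian := by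
    simp
  have h := H18Spec.rayleigh_le_sSup hA (fun _ => 1)
  have h1 : (fun _ : Fin n => (1 : ℝ)) ⬝ᵥ (H.adjMatrix ℝ *ᵥ fun _ => 1) = ∑ v, (H.degree v : ℝ) := by
    simp [dotProduct]
  have h2 : (fun _ : Fin n => (1 : ℝ)) ⬝ᵥ (fun _ => 1) = n := by simp [dotProduct]
  rw [h1, h2] at h
  have h3 : ∑ v, (H.degree v : ℝ) = 2 * (H.edgeSet.ncard : ℝ) := by exact_mod_cast twice_edges H
  linarith

theorem G1_spec (t : ℕ) : sSup (spectrum ℝ ((G1 t).adjMatrix ℝ)) ≤ 2 * t + 2 := by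
  refine Real.sSup_le (fun μ hμ => ?_) (by positivity)
  refine (le_abs_self μ).trans (H18Spec.spec_le_of_pos_vec (w := fun _ => 1) ?_
    (fun _ => one_pos) ?_ hμ)
  · intro i j
    simp only [SimpleGraph.adjMatrix_apply]
    split_ifs <;> norm_num
  · intro i
    simp [G1_deg]

theorem turan_ncard (n r : ℕ) : (SimpleGraph.turanGraph n r).edgeSet.ncard =
    (n ^ 2 - (n % r) ^ 2) * (r - 1) / (2 * r) + (n % r).choose 2 := by
  rw [← SimpleGraph.card_edgeFinset_turanGraph, ← SimpleGraph.coe_edgeFinset,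
    Set.ncard_coe_finset]

/-- With `n = 6t+3` odd and `m = n(t+1)` we have `r = 2`, while the minimizers are the connected
`(2t+2)`-regular graphs on an odd number of vertices, none of which is bipartite. -/
theorem result :
    ¬ (∃ α : ℝ, 0 < α ∧ α < 2 ∧ ∃ c : ℝ, 0 < c ∧ ∃ n₀ : ℕ, ∀ n : ℕ, n₀ ≤ n →
      ∀ m : ℕ, c * (n : ℝ) ^ α ≤ (m : ℝ) → m ≤ n.choose 2 →
      ∀ G : SimpleGraph (Fin n), G.Connected → G.edgeSet.ncard = m →
        (∀ H : SimpleGraph (Fin n), H.Connected → H.edgeSet.ncard = m →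
          sSup (spectrum ℝ (G.adjMatrix ℝ)) ≤ sSup (spectrum ℝ (H.adjMatrix ℝ))) →
        ∀ r : ℕ, 2 ≤ r →
          (SimpleGraph.turanGraph n (r - 1)).edgeSet.ncard < m →
          m ≤ (SimpleGraph.turanGraph n r).edgeSet.ncard →
          G.Colorable r) := by
  rintro ⟨α, h0, h2, c, hc, n₀, H⟩
  have ht : Filter.Tendsto (fun t : ℕ => ((6 * t + 3 : ℕ) : ℝ) ^ (2 - α)) Filter.atTop
      Filter.atTop := by
    refine (tendsto_rpow_atTop (by linarith)).comp (tendsto_natCast_atTop_atTop.comp ?_)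
    exact Filter.tendsto_atTop_mono (fun t => by simp only [id]; omega) Filter.tendsto_id
  obtain ⟨t, ht1, ht2⟩ := ((ht.eventually_ge_atTop (6 * c)).and
    (Filter.eventually_ge_atTop (n₀ + 1))).exists
  have hN : (0 : ℝ) < ((6 * t + 3 : ℕ) : ℝ) := by positivity
  refine G1_not_col t (H (6 * t + 3) (by omega) ((6 * t + 3) * (t + 1)) ?_ ?_ (G1 t) (G1_conn t)
    (G1_edges t) ?_ 2 le_rfl ?_ ?_)
  · have e : ((6 * t + 3 : ℕ) : ℝ) ^ (2 - α) * ((6 * t + 3 : ℕ) : ℝ) ^ α
        = ((6 * t + 3 : ℕ) : ℝ) ^ 2 := by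
      rw [← Real.rpow_add hN, sub_add_cancel, Real.rpow_two]
    have hp : 0 < ((6 * t + 3 : ℕ) : ℝ) ^ α := Real.rpow_pos_of_pos hN α
    have h3 := mul_le_mul_of_nonneg_right ht1 hp.le
    rw [e] at h3
    have ht0 : (0 : ℝ) ≤ t := by positivity
    push_cast at h3 ⊢
    nlinarith
  · rw [Nat.choose_two_right, Nat.le_div_iff_mul_le (by norm_num)]
    have : 6 * t + 3 - 1 = 6 * t + 2 := by omega
    rw [this]
    nlinarith
  · intro K _ hK
    have h1 := avg_le K
    rw [hK] at h1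
    refine (G1_spec t).trans ?_
    refine le_of_mul_le_mul_right ?_ hN
    refine le_trans (le_of_eq ?_) h1
    push_cast
    ring
  · rw [turan_ncard]
    simp [Nat.mod_one]
  · rw [turan_ncard]
    have h1 : (6 * t + 3) % 2 = 1 := by omega
    rw [h1]
    have h3 : (6 * t + 3) ^ 2 - 1 ^ 2 = (9 * t ^ 2 + 9 * t + 2) * 4 := by
      have : (6 * t + 3) ^ 2 = (9 * t ^ 2 + 9 * t + 2) * 4 + 1 ^ 2 := by ring
      omega
    rw [h3]
    have h4 : 1 ≤ t := by omega
    simp
    nlinarith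

end Pool.Agent.S09534
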