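import Pool.Statements.S09566
import Pool.Agent.Lib.helper11.Higgs

set_option autoImplicit false
open Pool Pool.MP_766cb7_co

namespace Pool.Agent.S09566

/-- The negation of the preceding statement: Let f on subsets of S be increasing, monotone, idempotent and have the exchange property, and satisfy (C) and (H) with independent and spanning defined via f. Then some matroid (B-matroid) on S has closure equal to f. -/
theorem result :
    ¬ (∀ (α : Type) (S : Set α) (f : Set α → Set α),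
      (∀ X, X ⊆ S → f X ⊆ S) →
      (∀ X, X ⊆ S → X ⊆ f X) →
      (∀ X Y, X ⊆ Y → Y ⊆ S → f X ⊆ f Y) →
      (∀ X, X ⊆ S → f (f X) = f X) →
      (∀ X, X ⊆ S → ∀ p ∈ S, ∀ q, q ∈ f (insert p X) → q ∉ f X → p ∈ f (insert q X)) →
      (∀ Y, Y ⊆ S → ∀ p ∈ f Y, ∃ U : Set α,
          Minimal (fun W : Set α => W ⊆ Y ∧ p ∈ f W) U ∧
          ∀ x ∈ U, x ∉ f (U \ {x})) →
      (∀ Y, Y ⊆ S → ∀ p ∈ S, p ∉ f Y → ∃ V : Set α,
          Maximal (fun W : Set α => Y ⊆ W ∧ W ⊆ S ∧ p ∉ f W) V ∧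
          f (insert p V) = S) →
      ∃ M : Matroid α, M.E = S ∧ ∀ X, X ⊆ S → M.closure X = f X) := by
  intro H
  obtain ⟨f, h1, h2, h3, h4, hC, hH, hfin, hinf⟩ := Pool.Agent.Lib.H11Higgs.exists_op
  obtain ⟨M, hE, hcl⟩ := H Pool.Agent.Lib.H11Higgs.S Set.univ f (fun _ _ => Set.subset_univ _)
    (fun X _ => h1 X) (fun X Y h _ => h2 X Y h) (fun X _ => h3 X)
    (by
      intro X _ p _ q hq hq'
      obtain ⟨a, ha, ha'⟩ := h4 {p} (insert p X) q hq (fun h => hq' (h2 _ _ (by simp) h))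
      rw [Set.mem_singleton_iff] at ha
      subst ha
      exact h2 _ _ (Set.insert_subset_insert (by simp)) ha')
    (fun Y _ p hp => hC Y p hp)
    (by
      intro Y _ p _ hp
      obtain ⟨V, hV, hV'⟩ := hH Y p hp
      refine ⟨V, ⟨⟨hV.1.1, Set.subset_univ _, hV.1.2⟩, ?_⟩, hV'⟩
      intro W hW hVW
      exact hV.2 ⟨hW.1, hW.2.2⟩ hVW)
  have hcl' : ∀ X, M.closure X = f X := fun X => hcl X (Set.subset_univ _)
  have hPPQ : Pool.Agent.Lib.H11Higgs.P ⊆ Pool.Agent.Lib.H11Higgs.PQ := fun x hx => Or.inl hx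
  have hP : M.Indep Pool.Agent.Lib.H11Higgs.P := by
    rw [Matroid.indep_iff_forall_notMem_closure_diff (by rw [hE]; exact Set.subset_univ _)]
    intro x hx hx'
    rw [hcl', hfin _ subset_rfl hPPQ (by
      convert Set.finite_empty
      ext n
      simp [Pool.Agent.Lib.H11Higgs.P]) _ Set.diff_subset] at hx'
    exact hx'.2 rfl
  obtain ⟨I, hI, hPI⟩ := hP.subset_isBasis_of_subset hPPQ (by rw [hE]; exact Set.subset_univ _)
  by_cases hf : {n : ℕ | ((n, 1) : Pool.Agent.Lib.H11Higgs.S) ∈ I}.Finite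
  · obtain ⟨n, hn⟩ := hf.infinite_compl.nonempty
    have h5 : ((n, 1) : Pool.Agent.Lib.H11Higgs.S) ∈ M.closure I :=
      hI.subset_closure (Or.inr rfl)
    rw [hcl', hfin I hPI hI.subset hf I subset_rfl] at h5
    exact hn h5
  · obtain ⟨x, hx, hx'⟩ := hinf I hPI hf
    have h6 := hI.indep.notMem_closure_diff_of_mem (hPI hx)
    rw [hcl', hx'] at h6
    exact h6 (Set.mem_univ _)

end Pool.Agent.S09566
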