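import Pool.Statements.S09583
import Pool.Agent.Lib.helper13.CharRoot
import Pool.Agent.Lib.helper13.EMenger
import Pool.Agent.Lib.helper13.TangRep

set_option autoImplicit false
open Pool Pool.MP_770436_co

namespace Pool.Agent.S09583

open Module Submodule Finset Classical

/-- incidence vector of an edge over GF(2) -/
noncomputable def col {V : Type} : Sym2 V → (V → ZMod 2) :=
  Sym2.lift ⟨fun a b => Pi.single a 1 + Pi.single b 1, fun _ _ => add_comm _ _⟩

theorem col_mk {V : Type} (a b : V) : col s(a, b) = Pi.single a 1 + Pi.single b 1 := rfl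

theorem add_eq_zero_iff {j : ℕ} (x y : Fin j → ZMod 2) : x + y = 0 ↔ x = y := by
  have h : ∀ a b : ZMod 2, a + b = 0 ↔ a = b := by decide
  simp only [funext_iff, Pi.add_apply, Pi.zero_apply, h]

theorem whitney {V : Type} [Fintype V] (G : SimpleGraph V) (j : ℕ) :
    (Nat.card (G.Coloring (Fin (2 ^ j))) : ℤ) = ∑ X ∈ G.edgeFinset.powerset, (-1 : ℤ) ^ X.card *
      ((2 : ℤ) ^ j) ^ (Fintype.card V -
        finrank (ZMod 2) ↥(span (ZMod 2) (col '' (X : Set (Sym2 V))))) := by
  have : Finite ((V → ZMod 2) →ₗ[ZMod 2] (Fin j → ZMod 2)) := Module.finite_of_finite (ZMod 2)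
  have := Fintype.ofFinite ((V → ZMod 2) →ₗ[ZMod 2] (Fin j → ZMod 2))
  let S : Sym2 V → Finset ((V → ZMod 2) →ₗ[ZMod 2] (Fin j → ZMod 2)) :=
    fun e => Finset.univ.filter fun L => L (col e) = 0
  have key := Finset.inclusion_exclusion_card_inf_compl G.edgeFinset S
  have h1 : Nat.card (G.Coloring (Fin (2 ^ j))) = (G.edgeFinset.inf fun e => (S e)ᶜ).card := by
    have e1 : Fin (2 ^ j) ≃ (Fin j → ZMod 2) :=
      Fintype.equivOfCardEq (by simp [ZMod.card])
    rw [Nat.card_congr (G.recolorOfEquiv e1), ← Fintype.card_coe, ← Nat.card_eq_fintype_card]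
    have hmem : ∀ L, L ∈ (G.edgeFinset.inf fun e => (S e)ᶜ) ↔
        ∀ a b, G.Adj a b → L (Pi.single a 1) ≠ L (Pi.single b 1) := by
      intro L
      simp only [Finset.mem_inf, SimpleGraph.mem_edgeFinset, S, mem_compl, mem_filter, mem_univ,
        true_and]
      constructor
      · intro h a b hab h0
        apply h s(a, b) hab
        rw [col_mk, map_add, add_eq_zero_iff, h0]
      · intro h e he
        induction e using Sym2.ind with
        | h a b =>
          rw [col_mk, map_add, add_eq_zero_iff]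
          exact h a b he
    have hb : ∀ (σ : V → Fin j → ZMod 2) (a : V),
        (Pi.basisFun (ZMod 2) V).constr (ZMod 2) σ (Pi.single a 1) = σ a := fun σ a => by
      rw [← Pi.basisFun_apply, Basis.constr_basis]
    refine Nat.card_congr
      { toFun := fun C => ⟨(Pi.basisFun (ZMod 2) V).constr (ZMod 2) C, (hmem _).2 fun a b hab => by
          rw [hb, hb]; exact C.valid hab⟩
        invFun := fun L => SimpleGraph.Coloring.mk (fun a => L.1 (Pi.single a 1))
          (fun {a b} hab => (hmem _).1 L.2 a b hab)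
        left_inv := fun C => by
          ext a : 1
          exact hb C a
        right_inv := fun L => by
          apply Subtype.ext
          apply (Pi.basisFun (ZMod 2) V).ext
          intro a
          rw [Basis.constr_basis, Pi.basisFun_apply]
          rfl }
  rw [h1, key]
  refine Finset.sum_congr rfl fun t _ => ?_
  have h3 : (t.inf S).card = Nat.card {L : (V → ZMod 2) →ₗ[ZMod 2] (Fin j → ZMod 2) //
      span (ZMod 2) (col '' (t : Set (Sym2 V))) ≤ LinearMap.ker L} := by
    rw [Nat.card_eq_fintype_card, Fintype.card_subtype]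
    congr 1
    ext L
    simp [S, Finset.mem_inf, span_le, Set.subset_def]
  rw [h3, Pool.Agent.Lib.H13Tang.card_vanish]
  simp [ZMod.card]

theorem small_functional {V : Type} [Fintype V] (G : SimpleGraph V) (k : ℕ)
    (hk : ∀ u v : V, u ≠ v → ∃ S : Finset V, u ∈ S ∧ v ∉ S ∧ H13EM.cut G S ≤ k)
    (w : V → ZMod 2) (hw : w ≠ 0) : ∃ φ : (V → ZMod 2) →ₗ[ZMod 2] ZMod 2, φ w ≠ 0 ∧
      ∀ T ⊆ G.edgeFinset, (∀ e ∈ T, φ (col e) ≠ 0) → T.card ≤ k := by
  have h2 : ∀ z : ZMod 2, z = 0 ∨ z = 1 := by decide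
  obtain ⟨S, hS1, hS2⟩ := H13EM.odd_cut k hk _ (univ.filter (fun x => w x = 1)) rfl (by
    obtain ⟨x, hx⟩ := Function.ne_iff.mp hw
    exact ⟨x, mem_filter.mpr ⟨mem_univ _, (h2 _).resolve_left hx⟩⟩)
  have hφ : ∀ a : V, (∑ x ∈ S, LinearMap.proj x : (V → ZMod 2) →ₗ[ZMod 2] ZMod 2)
      (Pi.single a 1) = if a ∈ S then 1 else 0 := by
    intro a
    simp [Pi.single_apply]
  refine ⟨∑ x ∈ S, LinearMap.proj x, ?_, fun T hT h => ?_⟩
  · have : (∑ x ∈ S, LinearMap.proj x : (V → ZMod 2) →ₗ[ZMod 2] ZMod 2) w =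
        ((S ∩ univ.filter (fun x => w x = 1)).card : ZMod 2) := by
      rw [← Finset.filter_mem_eq_inter, Finset.card_filter]
      push_cast
      rw [Finset.sum_apply]
      apply Finset.sum_congr rfl
      intro x _
      rcases h2 (w x) with h | h <;> simp [h]
    rw [this, (ZMod.natCast_eq_one_iff_odd).2 hS1]
    exact one_ne_zero
  · refine le_trans ?_ hS2
    refine le_trans (Finset.card_le_card ?_) (Finset.card_image_le (f := fun p : V × V => s(p.1, p.2)))
    intro e he
    have h3 := h e he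
    have h4 := hT he
    induction e using Sym2.ind with
    | h a b =>
      rw [col_mk, map_add, hφ, hφ] at h3
      have hab : G.Adj a b := by simpa using h4
      by_cases ha : a ∈ S <;> by_cases hb : b ∈ S
      · rw [if_pos ha, if_pos hb] at h3; exact absurd (by decide) h3
      · exact mem_image.mpr ⟨(a, b), mem_filter.mpr ⟨mem_univ _, ha, hb, hab⟩, rfl⟩
      · exact mem_image.mpr ⟨(b, a), mem_filter.mpr ⟨mem_univ _, hb, ha, hab.symm⟩, Sym2.eq_swap⟩
      · rw [if_neg ha, if_neg hb] at h3; exact absurd (by decide) h3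

/-- For each k ≥ 1 there is C such that, for every finite graph whose maximum over distinct vertex pairs of the number of edge-disjoint connecting paths is exactly k, every complex root z of its chromatic polynomial satisfies ∣z − 1∣ ≤ C. -/
theorem result :
    ∀ k : ℕ, 0 < k → ∃ C : ℝ, ∀ (V : Type) [Fintype V] (G : SimpleGraph V),
      ((∃ u v : V, u ≠ v ∧ ∃ p : Fin k → G.Walk u v,
          (∀ i, (p i).IsPath) ∧ Pairwise (fun i j => List.Disjoint (p i).edges (p j).edges)) ∧
       (∀ u v : V, u ≠ v → ¬ ∃ p : Fin (k + 1) → G.Walk u v,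
          (∀ i, (p i).IsPath) ∧ Pairwise (fun i j => List.Disjoint (p i).edges (p j).edges))) →
      ∀ P : Polynomial ℂ,
        (∀ n : ℕ, P.eval (n : ℂ) = ((Nat.card (G.Coloring (Fin n)) : ℕ) : ℂ)) →
        ∀ z : ℂ, P.IsRoot z → ‖z - 1‖ ≤ C := by
  intro k _
  refine ⟨2 ^ (k + 1) + 1, ?_⟩
  rintro V _ G ⟨-, hG⟩ P hP z hz
  let Q : Polynomial ℂ := ∑ X ∈ G.edgeFinset.powerset, (-1) ^ X.card *
    Polynomial.X ^ (Fintype.card V -
      finrank (ZMod 2) ↥(span (ZMod 2) (col '' (X : Set (Sym2 V)))))
  have hQ : ∀ q : ℂ, Q.eval q = ∑ X ∈ G.edgeFinset.powerset, (-1) ^ X.card *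
      q ^ (Fintype.card V - finrank (ZMod 2) ↥(span (ZMod 2) (col '' (X : Set (Sym2 V))))) := by
    intro q
    simp [Q, Polynomial.eval_finsetSum]
  have hPQ : P = Q := by
    apply Polynomial.eq_of_infinite_eval_eq
    refine Set.infinite_of_injective_forall_mem (f := fun j : ℕ => (((2 ^ j : ℕ)) : ℂ)) ?_ ?_
    · intro a b h
      exact Nat.pow_right_injective le_rfl (Nat.cast_injective (R := ℂ) h)
    · intro j
      show P.eval _ = Q.eval _
      rw [hP, hQ]
      have := congrArg (Int.cast : ℤ → ℂ) (whitney G j)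
      push_cast at this ⊢
      exact this
  have h1 : ‖z‖ ≤ 2 ^ (k + 1) := by
    refine H13CR.root_bound (F := ZMod 2) col k G.edgeFinset ?_
      (small_functional G k (fun u v huv => H13EM.menger k (hG u v huv))) (Fintype.card V) ?_ z ?_
    · intro e he
      induction e using Sym2.ind with
      | h a b =>
        have hab : G.Adj a b := by simpa using he
        intro h0
        have := congrFun h0 a
        simp [col_mk, hab.ne] at this
    · intro X _
      exact (Submodule.finrank_le _).trans (by simp)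
    · rw [← hQ, ← hPQ]; exact hz
  have := norm_sub_le z 1
  rw [norm_one] at this
  linarith

end Pool.Agent.S09583
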