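import Pool.Statements.S09613

set_option autoImplicit false
open Pool Pool.MP_78b1ee_co

namespace Pool.Agent.S09613

def Sq {α : Type} [LT α] (f : ℕ → α) (i l : ℕ) : Prop :=
  ∀ a < l, ∀ b < l, (f (i + a) < f (i + b) ↔ f (i + l + a) < f (i + l + b))

instance (f : ℕ → ℕ) (i l : ℕ) : Decidable (Sq f i l) := by unfold Sq; infer_instance

def ins {α : Type} (f : ℕ → α) (p : ℕ) (x : α) : ℕ → α :=
  fun j => if j < p then f j else if j = p then x else f (j - 1)

def Band : ℕ → ℕ → ℚ → Prop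
  | 0, _, _ => True
  | K + 1, u, y => if u % 2 = 1 then (if u % 4 = 1 then y ≤ -2 ^ (K + 1) else 2 ^ (K + 1) ≤ y)
      else (-2 ^ (K + 1) < y ∧ y < 2 ^ (K + 1) ∧ Band K (u / 2) y)

lemma band_lo {K u : ℕ} {y : ℚ} (h : Band (K + 1) u y) (hu : u % 4 = 1) : y ≤ -2 ^ (K + 1) := by
  unfold Band at h; rwa [if_pos (by omega), if_pos hu] at h

lemma band_hi {K u : ℕ} {y : ℚ} (h : Band (K + 1) u y) (hu : u % 4 = 3) : 2 ^ (K + 1) ≤ y := by
  unfold Band at h; rwa [if_pos (by omega), if_neg (by omega)] at h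

lemma band_md {K u : ℕ} {y : ℚ} (h : Band (K + 1) u y) (hu : u % 2 = 0) :
    -2 ^ (K + 1) < y ∧ y < 2 ^ (K + 1) ∧ Band K (u / 2) y := by
  unfold Band at h; rwa [if_neg (by omega)] at h

lemma band_ud {K u : ℕ} {y z : ℚ} (h : Band (K + 1) u y) (h' : Band (K + 1) (u + 1) z) :
    y < z ↔ (u % 4 = 1 ∨ u % 4 = 2) := by
  have : u % 4 = 0 ∨ u % 4 = 1 ∨ u % 4 = 2 ∨ u % 4 = 3 := by omega
  rcases this with q | q | q | q
  · have := band_md h (by omega); have := band_lo h' (by omega)
    constructor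
    · intro; linarith
    · omega
  · have := band_lo h q; have := band_md h' (by omega)
    constructor
    · omega
    · intro; linarith
  · have := band_md h (by omega); have := band_hi h' (by omega)
    constructor
    · omega
    · intro; linarith
  · have := band_hi h q; have := band_md h' (by omega)
    constructor
    · intro; linarith
    · omega

lemma mod4 (f : ℕ → ℚ) (c i l : ℕ) (hl : 2 ≤ l)
    (ud : ∀ j, j + 1 < 2 * l → (f (i + j) < f (i + j + 1) ↔ ((i + j + c) % 4 = 1 ∨ (i + j + c) % 4 = 2)))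
    (h : Sq f i l) : l % 4 = 0 := by
  have a1 := h 0 (by omega) 1 (by omega)
  have b1 := ud 0 (by omega)
  have c1 := ud l (by omega)
  simp only [add_zero] at a1 b1
  rw [b1, c1] at a1
  by_cases h2 : l = 2
  · omega
  · have a2 := h 1 (by omega) 2 (by omega)
    have b2 := ud 1 (by omega)
    have c2 := ud (l + 1) (by omega)
    rw [show i + 1 + 1 = i + 2 by ring] at b2
    rw [show i + (l + 1) + 1 = i + l + 2 by ring, show i + (l + 1) = i + l + 1 by ring] at c2
    rw [b2, c2] at a2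
    omega

lemma noSq : ∀ (K : ℕ) (f : ℕ → ℚ) (u l : ℕ), 2 ≤ l → u + 2 * l ≤ 2 ^ K →
    (∀ j < 2 * l, Band K (u + j) (f (u + j))) → ¬ Sq f u l := by
  intro K
  induction K with
  | zero => intro f u l h1 h2; omega
  | succ K ih =>
    intro f u l h1 h2 hb h
    have m4 := mod4 f 0 u l h1 (fun j hj => by
      have := band_ud (hb j (by omega)) (hb (j + 1) hj)
      simpa [add_assoc] using this) h
    rw [pow_succ] at h2
    refine ih (fun j => f (2 * j)) ((u + 1) / 2) (l / 2) (by omega) (by omega) (fun j hj => ?_) ?_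
    · have e : 2 * ((u + 1) / 2 + j) = u + (2 * j + u % 2) := by omega
      have := (band_md (hb (2 * j + u % 2) (by omega)) (by omega)).2.2
      rw [← e, Nat.mul_div_cancel_left _ two_pos] at this
      exact this
    · intro a ha b hb'
      have := h (2 * a + u % 2) (by omega) (2 * b + u % 2) (by omega)
      rw [show u + (2 * a + u % 2) = 2 * ((u + 1) / 2 + a) by omega,
        show u + (2 * b + u % 2) = 2 * ((u + 1) / 2 + b) by omega,
        show u + l + (2 * a + u % 2) = 2 * ((u + 1) / 2 + l / 2 + a) by omega,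
        show u + l + (2 * b + u % 2) = 2 * ((u + 1) / 2 + l / 2 + b) by omega] at this
      exact this

def mid : ℕ → ℕ → ℤ
  | 0, _ => 0
  | K + 1, u => if u % 2 = 1 then (if u % 4 = 1 then -3 * 2 ^ K else 3 * 2 ^ K) else mid K (u / 2)

lemma band_mid : ∀ (K u : ℕ) (t : ℚ), 0 ≤ t → t < 1 →
    Band K u (mid K u + t) ∧ -2 ^ (K + 1) < (mid K u : ℚ) + t ∧ (mid K u : ℚ) + t < 2 ^ (K + 1) := by
  intro K
  induction K with
  | zero => intro u t h0 h1; refine ⟨trivial, ?_, ?_⟩ <;> simp [mid] <;> linarith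
  | succ K ih =>
    intro u t h0 h1
    have p : (1 : ℚ) ≤ 2 ^ K := one_le_pow₀ (by norm_num)
    unfold Band mid
    obtain ⟨i1, i2, i3⟩ := ih (u / 2) t h0 h1
    split_ifs
    · push_cast; simp only [pow_succ]; refine ⟨?_, ?_, ?_⟩ <;> linarith
    · push_cast; simp only [pow_succ]; refine ⟨?_, ?_, ?_⟩ <;> linarith
    · refine ⟨⟨i2, i3, i1⟩, ?_, ?_⟩ <;> simp only [pow_succ] at i2 i3 ⊢ <;> linarith

def bandB : ℕ → ℕ → ℤ → Bool
  | 0, _, _ => false
  | a + 1, u, c => if u % 2 = 1 then (if u % 4 = 1 then decide (c + 1 ≤ -2 ^ (a + 1))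
      else decide (2 ^ (a + 1) ≤ c))
      else (decide (-2 ^ (a + 1) < c) && decide (c + 1 ≤ 2 ^ (a + 1)) && bandB a (u / 2) c)

lemma band_of (k : ℕ) : ∀ (a u v : ℕ) (c : ℤ) (t : ℚ), 0 ≤ t → t < 1 → bandB a u c = true →
    v % 2 ^ (a + 1) = u % 2 ^ (a + 1) → Band (k + a) v ((c * 2 ^ k : ℤ) + t) := by
  intro a
  induction a with
  | zero => intro u v c t _ _ h; simp [bandB] at h
  | succ a ih =>
    intro u v c t h0 h1 h hm
    have p : (1 : ℚ) ≤ 2 ^ k := one_le_pow₀ (by norm_num)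
    have m4 : v % 4 = u % 4 := by
      have d : 4 ∣ 2 ^ (a + 1 + 1) := ⟨2 ^ a, by ring⟩
      rw [← Nat.mod_mod_of_dvd v d, hm, Nat.mod_mod_of_dvd u d]
    have m2 : v / 2 % 2 ^ (a + 1) = u / 2 % 2 ^ (a + 1) := by
      rw [pow_succ' 2 (a + 1)] at hm
      rw [← Nat.mod_mul_right_div_self, hm, Nat.mod_mul_right_div_self]
    rw [← add_assoc]
    unfold Band
    unfold bandB at h
    have e : (2 : ℚ) ^ (k + a + 1) = 2 ^ (a + 1) * 2 ^ k := by ring
    by_cases q : u % 2 = 1
    · rw [if_pos q] at h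
      rw [if_pos (by omega)]
      by_cases q' : u % 4 = 1
      · rw [if_pos q', decide_eq_true_iff] at h
        rw [if_pos (by omega), e]
        have : (c : ℚ) + 1 ≤ -2 ^ (a + 1) := by exact_mod_cast h
        push_cast; nlinarith
      · rw [if_neg q', decide_eq_true_iff] at h
        rw [if_neg (by omega), e]
        have : 2 ^ (a + 1) ≤ (c : ℚ) := by exact_mod_cast h
        push_cast; nlinarith
    · rw [if_neg q] at h
      simp only [Bool.and_eq_true, decide_eq_true_iff] at h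
      rw [if_neg (by omega), e]
      have g1 : -2 ^ (a + 1) < (c : ℚ) := by exact_mod_cast h.1.1
      have g2 : (c : ℚ) + 1 ≤ 2 ^ (a + 1) := by exact_mod_cast h.1.2
      refine ⟨?_, ?_, ih _ _ c t h0 h1 h.2 m2⟩
      · push_cast; nlinarith
      · push_cast; nlinarith

def be (i : ℕ) : ℕ :=
  [19, 27, 26, 20, 21, 25, 22, 0, 23, 24, 15, 1, 7, 14, 8, 5, 12, 16, 10, 4, 6, 18, 11, 3, 13, 17,
    9, 2].getD i 0

def ga (i : ℕ) : ℤ :=
  [-140, -139, -138, -137, -136, -135, -70, -69, -40, -6, 20, 40, 70, 71, 134, 135, 136, 137, 138,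
    139, 140, 141, 142, 143, 144, 145, 146, 147].getD (be i) 0

lemma ga_be : ∀ i < 28, ∀ j < 28, (be i < be j → ga i + 1 ≤ ga j) ∧ (i ≠ j → be i ≠ be j) := by
  decide +kernel

lemma be_lt : ∀ i < 28, be i < 28 := by decide +kernel

lemma gaL : ∀ i < 28, 11 ≤ i → bandB 7 (i + 6) (ga i) = true ∧ bandB 7 (250 - i) (-ga i) = true := by
  decide +kernel

lemma be_ud : ∀ i < 27, (be i < be (i + 1) ↔ ((i + 6) % 4 = 1 ∨ (i + 6) % 4 = 2)) := by
  decide +kernel

lemma be_sq : ∀ i < 11, ∀ l < 15, 2 ≤ l → i + 2 * l ≤ 28 → ¬ Sq be i l := by decide +kernel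

lemma be_blk : ∀ p < 3, ∀ r < 29, ∃ s < 5, ∃ l < 15, 2 ≤ l ∧ s + 2 * l ≤ 29 ∧
    Sq (ins (fun j => 2 * be j + 1) p (2 * r)) s l := by decide +kernel

structure Nice (n : ℕ) (f : ℕ → ℚ) : Prop where
  ord : ∀ i < 28, ∀ j < 28, (f i < f j ↔ be i < be j)
  ud : ∀ i, i + 1 < n → (f i < f (i + 1) ↔ ((i + 6) % 4 = 1 ∨ (i + 6) % 4 = 2))
  mh : ∀ j, 11 ≤ j → j + 15 ≤ n → (j + 6) % 4 = 0 → f j < f (j + 3)

lemma left_sq {n : ℕ} {f : ℕ → ℚ} (hn : 60 ≤ n) (h : Nice n f) (i l : ℕ) (hi : i < 11) (hl : 2 ≤ l)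
    (hil : i + 2 * l ≤ n) : ¬ Sq f i l := by
  intro hs
  by_cases c : i + 2 * l ≤ 28
  · refine be_sq i hi l (by omega) hl c fun a ha b hb => ?_
    rw [← h.ord _ (by omega) _ (by omega), ← h.ord _ (by omega) _ (by omega)]
    exact hs a ha b hb
  · have m4 := mod4 f 6 i l hl (fun j hj => h.ud (i + j) (by omega)) hs
    have a := hs (10 - i) (by omega) (13 - i) (by omega)
    rw [show i + (10 - i) = 10 by omega, show i + (13 - i) = 13 by omega,
      show i + l + (10 - i) = 10 + l by omega, show i + l + (13 - i) = 10 + l + 3 by omega,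
      h.ord 10 (by omega) 13 (by omega)] at a
    exact absurd (a.mpr (h.mh (10 + l) (by omega) (by omega) (by omega))) (by decide)

lemma left_blk {n : ℕ} {f : ℕ → ℚ} (hn : 60 ≤ n) (h : Nice n f) (p : ℕ) (hp : p < 3) (x : ℚ)
    (hx : ∀ j < n, f j ≠ x) : ∃ s l, 2 ≤ l ∧ s + 2 * l ≤ n + 1 ∧ Sq (ins f p x) s l := by
  classical
  have ex : ∃ r, r = 28 ∨ ∃ i < 28, ¬ f i < x ∧ be i = r := ⟨28, Or.inl rfl⟩
  set r := Nat.find ex with hr
  have r28 : r ≤ 28 := Nat.find_min' ex (Or.inl rfl)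
  have key : ∀ j < 28, (f j < x ↔ be j < r) := by
    intro j hj
    constructor
    · intro hjx
      rcases Nat.find_spec ex with q | ⟨i, hi, q1, q2⟩
      · have := be_lt j hj; omega
      · rw [hr, ← q2, ← h.ord j hj i hi]
        exact lt_of_lt_of_le hjx (not_lt.mp q1)
    · intro hb
      by_contra hc
      exact Nat.find_min ex hb (Or.inr ⟨j, hj, hc, rfl⟩)
  have key' : ∀ j < 28, (x < f j ↔ r ≤ be j) := by
    intro j hj
    rw [← not_lt (a := be j), ← key j hj, not_lt]
    exact ⟨le_of_lt, fun q => lt_of_le_of_ne q (hx j (by omega)).symm⟩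
  obtain ⟨s, -, l, -, h1, h2, h3⟩ := be_blk p hp r (by omega)
  have tr : ∀ a < 29, ∀ b < 29, (ins f p x a < ins f p x b ↔
      ins (fun j => 2 * be j + 1) p (2 * r) a < ins (fun j => 2 * be j + 1) p (2 * r) b) := by
    intro a ha b hb
    unfold ins
    split_ifs <;>
      first
        | (rw [h.ord] <;> (try dsimp only) <;> omega)
        | (rw [key] <;> (try dsimp only) <;> omega)
        | (rw [key'] <;> (try dsimp only) <;> omega)
        | simp
  refine ⟨s, l, h1, by omega, fun a ha b hb => ?_⟩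
  rw [tr _ (by omega) _ (by omega), tr _ (by omega) _ (by omega)]
  exact h3 a ha b hb

lemma sq_two (g : ℕ → ℚ) (i : ℕ) (h1 : g i ≠ g (i + 1)) (h2 : g (i + 2) ≠ g (i + 3))
    (h : g i < g (i + 1) ↔ g (i + 2) < g (i + 3)) : Sq g i 2 := by
  intro a ha b hb
  interval_cases a <;> interval_cases b
  · simp
  · simpa using h
  · simp only [add_zero]
    rw [← not_le, ← not_le, h1.le_iff_lt, h2.le_iff_lt, h]
  · simp

lemma mid_blk {n : ℕ} {f : ℕ → ℚ} (h : Nice n f) (inj : ∀ i < n, ∀ j < n, f i = f j → i = j)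
    (q : ℕ) (hq : q + 6 ≤ n) (x : ℚ) (hx : ∀ j < n, f j ≠ x) :
    ∃ s l, 2 ≤ l ∧ s + 2 * l ≤ n + 1 ∧ Sq (ins f (q + 3) x) s l := by
  have e0 : ins f (q + 3) x q = f q := by simp [ins]
  have e1 : ins f (q + 3) x (q + 1) = f (q + 1) := by simp [ins]
  have e2 : ins f (q + 3) x (q + 2) = f (q + 2) := by simp [ins]
  have e3 : ins f (q + 3) x (q + 3) = x := by simp [ins]
  have e4 : ins f (q + 3) x (q + 4) = f (q + 3) := by simp [ins]
  have e5 : ins f (q + 3) x (q + 5) = f (q + 4) := by simp [ins]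
  have e6 : ins f (q + 3) x (q + 6) = f (q + 5) := by simp [ins]
  have ne : ∀ i, i + 1 < n → f i ≠ f (i + 1) := fun i hi e => by
    have := inj i (by omega) _ hi e; omega
  have u0 := h.ud q (by omega)
  have u1 := h.ud (q + 1) (by omega)
  have u3 := h.ud (q + 3) (by omega)
  have u4 := h.ud (q + 4) (by omega)
  by_contra hc
  push Not at hc
  have s0 : ¬ (f q < f (q + 1) ↔ f (q + 2) < x) := fun z => hc q 2 le_rfl (by omega)
    (sq_two _ q (by rw [e0, e1]; exact ne q (by omega)) (by rw [e2, e3]; exact hx _ (by omega))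
      (by rw [e0, e1, e2, e3]; exact z))
  have s1 : ¬ (f (q + 1) < f (q + 2) ↔ x < f (q + 3)) := fun z => hc (q + 1) 2 le_rfl (by omega)
    (sq_two _ (q + 1) (by rw [e1, e2]; exact ne _ (by omega))
      (by rw [e3, e4]; exact (hx _ (by omega)).symm) (by rw [e1, e2, e3, e4]; exact z))
  have s2 : ¬ (f (q + 2) < x ↔ f (q + 3) < f (q + 4)) := fun z => hc (q + 2) 2 le_rfl (by omega)
    (sq_two _ (q + 2) (by rw [e2, e3]; exact hx _ (by omega))
      (by rw [e4, e5]; exact ne _ (by omega)) (by rw [e2, e3, e4, e5]; exact z))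
  have s3 : ¬ (x < f (q + 3) ↔ f (q + 4) < f (q + 5)) := fun z => hc (q + 3) 2 le_rfl (by omega)
    (sq_two _ (q + 3) (by rw [e3, e4]; exact (hx _ (by omega)).symm)
      (by rw [e5, e6]; exact ne _ (by omega)) (by rw [e3, e4, e5, e6]; exact z))
  rw [u0] at s0; rw [u1] at s1; rw [u3] at s2; rw [u4] at s3
  by_cases z1 : f (q + 2) < x <;> by_cases z2 : x < f (q + 3) <;>
    simp only [z1, z2, iff_true, true_iff, iff_false, false_iff] at s0 s1 s2 s3 <;> omega

lemma sq_mir (f g : ℕ → ℚ) (n i l : ℕ) (hil : i + 2 * l ≤ n) (hg : ∀ j < n, g j = -f (n - 1 - j))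
    (h : Sq f i l) : Sq g (n - i - 2 * l) l := by
  intro a ha b hb
  rw [hg _ (by omega), hg _ (by omega), hg _ (by omega), hg _ (by omega)]
  simp only [neg_lt_neg_iff]
  have := h (l - 1 - b) (by omega) (l - 1 - a) (by omega)
  rw [show n - 1 - (n - i - 2 * l + b) = i + l + (l - 1 - b) by omega,
    show n - 1 - (n - i - 2 * l + a) = i + l + (l - 1 - a) by omega,
    show n - 1 - (n - i - 2 * l + l + b) = i + (l - 1 - b) by omega,
    show n - 1 - (n - i - 2 * l + l + a) = i + (l - 1 - a) by omega]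
  exact this.symm

def ky (k n i : ℕ) : ℤ :=
  if i < 28 then ga i * 2 ^ k else if n - 1 - i < 28 then -ga (n - 1 - i) * 2 ^ k
  else mid (k + 7) (i + 6)

def F (k n i : ℕ) : ℚ := ky k n i + (i : ℚ) / n

lemma fr {n i : ℕ} (h : i < n) : 0 ≤ (i : ℚ) / n ∧ (i : ℚ) / n < 1 :=
  ⟨by positivity, by
    rw [div_lt_one (by exact_mod_cast (by omega : 0 < n))]; exact_mod_cast h⟩

lemma F_lt {k n i j : ℕ} (hi : i < n) (hj : j < n) (h : ky k n i + 1 ≤ ky k n j) :
    F k n i < F k n j := by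
  have : (ky k n i : ℚ) + 1 ≤ ky k n j := by exact_mod_cast h
  have := fr hi; have := fr hj
  unfold F; linarith

lemma F_inj {k n : ℕ} : ∀ i < n, ∀ j < n, F k n i = F k n j → i = j := by
  intro i hi j hj h
  have e : ky k n i = ky k n j := by
    rcases lt_trichotomy (ky k n i) (ky k n j) with q | q | q
    · exact absurd h (F_lt hi hj q).ne
    · exact q
    · exact absurd h (F_lt hj hi q).ne'
  unfold F at h
  rw [e, add_right_inj, div_left_inj' (by exact_mod_cast (by omega : n ≠ 0))] at h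
  exact_mod_cast h

lemma ord_of (f : ℕ → ℚ) (h : ∀ i < 28, ∀ j < 28, ga i + 1 ≤ ga j → f i < f j) :
    ∀ i < 28, ∀ j < 28, (f i < f j ↔ be i < be j) := by
  intro i hi j hj
  refine ⟨fun q => ?_, fun q => h i hi j hj ((ga_be i hi j hj).1 q)⟩
  by_contra c
  have ne : i ≠ j := by rintro rfl; exact lt_irrefl _ q
  have := (ga_be i hi j hj).2 ne
  exact lt_asymm q (h j hj i hi ((ga_be j hj i hi).1 (by omega)))

lemma main (k n m : ℕ) (hm : 2 ^ (k + 7) = 256 * m) (hn : n + 11 = 256 * m) :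
    (∀ i l, 2 ≤ l → i + 2 * l ≤ n → ¬ Sq (F k n) i l) ∧
    ∀ p ≤ n, ∀ x, (∀ j < n, F k n j ≠ x) →
      ∃ s l, 2 ≤ l ∧ s + 2 * l ≤ n + 1 ∧ Sq (ins (F k n) p x) s l := by
  have n60 : 60 ≤ n := by omega
  have p1 : (1 : ℤ) ≤ 2 ^ k := one_le_pow₀ (by norm_num)
  have zone : ∀ i, 11 ≤ i → i + 12 ≤ n → Band (k + 7) (i + 6) (F k n i) := by
    intro i h1 h2
    have hf := fr (show i < n by omega)
    unfold F ky
    split_ifs with c1 c2
    · exact band_of k 7 (i + 6) _ _ _ hf.1 hf.2 (gaL i c1 h1).1 rfl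
    · exact band_of k 7 (250 - (n - 1 - i)) _ _ _ hf.1 hf.2 (gaL _ c2 (by omega)).2 (by
        norm_num; omega)
    · exact (band_mid _ _ _ hf.1 hf.2).1
  have oL : ∀ i < 28, ∀ j < 28, (F k n i < F k n j ↔ be i < be j) :=
    ord_of _ fun i hi j hj h => F_lt (by omega) (by omega) (by
      unfold ky; rw [if_pos hi, if_pos hj]; nlinarith)
  have oR : ∀ i < 28, ∀ j < 28, (-F k n (n - 1 - i) < -F k n (n - 1 - j) ↔ be i < be j) :=
    ord_of (fun i => -F k n (n - 1 - i)) fun i hi j hj h => by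
      rw [neg_lt_neg_iff]
      refine F_lt (by omega) (by omega) ?_
      unfold ky
      rw [if_neg (by omega), if_pos (by omega), if_neg (by omega), if_pos (by omega),
        show n - 1 - (n - 1 - j) = j by omega, show n - 1 - (n - 1 - i) = i by omega]
      nlinarith
  have ud : ∀ i, i + 1 < n → (F k n i < F k n (i + 1) ↔ ((i + 6) % 4 = 1 ∨ (i + 6) % 4 = 2)) := by
    intro i hi
    by_cases c1 : i < 27
    · rw [oL i (by omega) _ (by omega)]; exact be_ud i c1
    · by_cases c2 : n - 2 - i < 27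
      · have := oR (n - 2 - i) (by omega) (n - 2 - i + 1) (by omega)
        rw [be_ud _ c2, show n - 1 - (n - 2 - i) = i + 1 by omega,
          show n - 1 - (n - 2 - i + 1) = i by omega, neg_lt_neg_iff] at this
        rw [this]; omega
      · exact band_ud (zone i (by omega) (by omega)) (zone (i + 1) (by omega) (by omega))
  have N1 : Nice n (F k n) := ⟨oL, ud, fun j h1 h2 h3 =>
    lt_of_lt_of_le (band_md (zone j h1 (by omega)) (by omega)).2.1
      (band_hi (zone (j + 3) (by omega) (by omega)) (by omega))⟩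
  have N2 : Nice n (fun i => -F k n (n - 1 - i)) := ⟨oR, fun i hi => by
      have := ud (n - 2 - i) (by omega)
      rw [show n - 2 - i + 1 = n - 1 - i by omega] at this
      rw [neg_lt_neg_iff, show n - 1 - (i + 1) = n - 2 - i by omega, this]; omega,
    fun j h1 h2 h3 => by
      rw [neg_lt_neg_iff]
      exact lt_of_le_of_lt (band_lo (zone (n - 1 - (j + 3)) (by omega) (by omega)) (by omega))
        (band_md (zone (n - 1 - j) (by omega) (by omega)) (by omega)).1⟩
  constructor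
  · intro i l hl hil hs
    by_cases c1 : i < 11
    · exact left_sq n60 N1 i l c1 hl hil hs
    · by_cases c2 : n - i - 2 * l < 11
      · exact left_sq n60 N2 _ l c2 hl (by omega) (sq_mir _ _ n i l hil (fun _ _ => rfl) hs)
      · refine noSq (k + 7) (fun u => F k n (u - 6)) (i + 6) l hl (by omega) (fun j hj => ?_) ?_
        · have := zone (i + j) (by omega) (by omega)
          rw [show i + 6 + j - 6 = i + j by omega, show i + 6 + j = i + j + 6 by omega]
          exact this
        · intro a ha b hb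
          dsimp only
          rw [show i + 6 + a - 6 = i + a by omega, show i + 6 + b - 6 = i + b by omega,
            show i + 6 + l + a - 6 = i + l + a by omega, show i + 6 + l + b - 6 = i + l + b by omega]
          exact hs a ha b hb
  · intro p hp x hx
    by_cases c1 : p < 3
    · exact left_blk n60 N1 p c1 x hx
    · by_cases c2 : n - p < 3
      · obtain ⟨s, l, h1, h2, h3⟩ := left_blk n60 N2 (n - p) c2 (-x) fun j hj e =>
          hx (n - 1 - j) (by omega) (neg_inj.mp e)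
        refine ⟨n + 1 - s - 2 * l, l, h1, by omega, sq_mir _ _ (n + 1) s l h2 (fun j hj => ?_) h3⟩
        unfold ins
        split_ifs <;> first | omega | (rw [neg_neg]; done) | (rw [neg_neg]; congr 1; omega)
      · obtain ⟨q, rfl⟩ : ∃ q, p = q + 3 := ⟨p - 3, by omega⟩
        exact mid_blk N1 F_inj q (by omega) x hx

lemma getD_w (f : ℕ → ℚ) (n i : ℕ) (hi : i < n) : ((List.range n).map f).getD i 0 = f i := by
  simp [List.getD_eq_getElem?_getD, hi]

lemma getD_ins (f : ℕ → ℚ) (n p : ℕ) (hp : p ≤ n) (x : ℚ) (i : ℕ) (hi : i < n + 1) :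
    (((List.range n).map f).take p ++ x :: ((List.range n).map f).drop p).getD i 0 = ins f p x i := by
  have hl : (((List.range n).map f).take p).length = p := by simp [hp]
  unfold ins
  rw [List.getD_eq_getElem?_getD]
  split_ifs with c1 c2
  · rw [List.getElem?_append_left (by omega), List.getElem?_take_of_lt c1]
    simp [show i < n by omega]
  · rw [List.getElem?_append_right (by omega), hl, c2]; simp
  · rw [List.getElem?_append_right (by omega), hl]
    obtain ⟨d, rfl⟩ : ∃ d, i = p + d + 1 := ⟨i - p - 1, by omega⟩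
    rw [show p + d + 1 - p = d + 1 by omega, List.getElem?_cons_succ, List.getElem?_drop]
    simp [show p + d < n by omega]


/-- For every N there is a list of distinct rationals of length at least N with no two adjacent order-isomorphic blocks of length at least 2, such that inserting any new value at any position creates such a pair. -/
theorem result :
    ∀ N : ℕ, ∃ w : List ℚ, N ≤ w.length ∧ w.Nodup ∧
      (¬ ∃ i ℓ : ℕ, 2 ≤ ℓ ∧ i + 2 * ℓ ≤ w.length ∧
          ∀ a < ℓ, ∀ b < ℓ,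
            (w.getD (i + a) 0 < w.getD (i + b) 0 ↔
              w.getD (i + ℓ + a) 0 < w.getD (i + ℓ + b) 0)) ∧
      ∀ p : ℕ, p ≤ w.length → ∀ x : ℚ, x ∉ w →
        ∃ i ℓ : ℕ, 2 ≤ ℓ ∧ i + 2 * ℓ ≤ w.length + 1 ∧
          ∀ a < ℓ, ∀ b < ℓ,
            ((w.take p ++ x :: w.drop p).getD (i + a) 0 <
                (w.take p ++ x :: w.drop p).getD (i + b) 0 ↔
              (w.take p ++ x :: w.drop p).getD (i + ℓ + a) 0 <
                (w.take p ++ x :: w.drop p).getD (i + ℓ + b) 0) := by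
  intro N
  have hm : 2 ^ (N + 1 + 7) = 256 * 2 ^ N := by ring
  have hN : N < 2 ^ N := Nat.lt_two_pow_self
  obtain ⟨n, hn⟩ : ∃ n, n + 11 = 256 * 2 ^ N := ⟨256 * 2 ^ N - 11, by omega⟩
  obtain ⟨h1, h2⟩ := main (N + 1) n (2 ^ N) hm hn
  have hl : ((List.range n).map (F (N + 1) n)).length = n := by simp
  refine ⟨(List.range n).map (F (N + 1) n), by omega, ?_, ?_, ?_⟩
  · exact (List.nodup_range).map_on fun i hi j hj e =>
      F_inj i (List.mem_range.mp hi) j (List.mem_range.mp hj) e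
  · rintro ⟨i, l, a1, a2, a3⟩
    rw [hl] at a2
    refine h1 i l a1 a2 fun a ha b hb => ?_
    have := a3 a ha b hb
    rwa [getD_w _ _ _ (by omega), getD_w _ _ _ (by omega), getD_w _ _ _ (by omega),
      getD_w _ _ _ (by omega)] at this
  · intro p hp x hx
    rw [hl] at hp ⊢
    obtain ⟨s, l, a1, a2, a3⟩ := h2 p hp x fun j hj e =>
      hx (List.mem_map.mpr ⟨j, List.mem_range.mpr hj, e⟩)
    refine ⟨s, l, a1, a2, fun a ha b hb => ?_⟩
    rw [getD_ins _ _ _ hp _ _ (by omega), getD_ins _ _ _ hp _ _ (by omega),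
      getD_ins _ _ _ hp _ _ (by omega), getD_ins _ _ _ hp _ _ (by omega)]
    exact a3 a ha b hb

end Pool.Agent.S09613
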