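import Pool.Statements.S09684

set_option autoImplicit false
open Pool Pool.MP_7c785d_co

namespace Pool.Agent.S09684

/-- `K_6` on `0..5` with the edges between `{0,1}` and `{2,3,4,5}` kept and the other seven edges
subdivided once. -/
def nb : Fin 13 → List (Fin 13) :=
  ![[2, 3, 4, 5, 6], [2, 3, 4, 5, 6], [0, 1, 7, 8, 9], [0, 1, 7, 10, 11], [0, 1, 8, 10, 12],
    [0, 1, 9, 11, 12], [0, 1], [2, 3], [2, 4], [2, 5], [3, 4], [3, 5], [4, 5]]

def adj (u v : Fin 13) : Bool := (nb u).contains v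

theorem adj_symm : ∀ u v, adj u v = true → adj v u = true := by decide +kernel

theorem adj_irr : ∀ u, adj u u = false := by decide +kernel

def G : SimpleGraph (Fin 13) where
  Adj u v := adj u v = true
  symm := ⟨fun u v h => adj_symm u v h⟩
  loopless := ⟨fun u h => by simp [adj_irr] at h⟩

def part : Fin 13 → Fin 6 := ![0, 1, 2, 3, 4, 5, 0, 2, 2, 2, 3, 3, 4]

def ctr : Fin 6 → Fin 13 := ![0, 1, 2, 3, 4, 5]

theorem part_ctr : ∀ x, part (ctr x) = x := by decide

theorem ctr_adj : ∀ v, v = ctr (part v) ∨ adj (ctr (part v)) v = true := by decide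

theorem minor_adj : ∀ x y : Fin 6, x ≠ y →
    ∃ u, part u = x ∧ ∃ v, part v = y ∧ adj u v = true := by
  decide +kernel

theorem no_tri : ∀ a b, adj a b = true → ∀ c, adj b c = true → adj a c = false := by
  decide +kernel

theorem sub_indep : ∀ a b : Fin 13, ¬ a.val < 6 → ¬ b.val < 6 → adj a b = false := by
  decide +kernel

theorem sub_deg : ∀ s : Fin 13, ¬ s.val < 6 → ∀ a, adj s a = true → ∀ b, adj s b = true →
    ∀ c, adj s c = true → a = b ∨ a = c ∨ b = c := by
  decide +kernel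

theorem triple : ∀ a : Fin 13, a.val < 6 → ∀ b : Fin 13, b.val < 6 → ∀ c : Fin 13, c.val < 6 →
    a ≠ b → a ≠ c → b ≠ c → adj a b = false → adj a c = false → adj b c = false → 2 ≤ a.val := by
  decide +kernel

theorem others : ∀ i : Fin 6, ∃ j k l : Fin 6, i ≠ j ∧ i ≠ k ∧ i ≠ l ∧ j ≠ k ∧ j ≠ l ∧ k ≠ l ∧
    ¬ (i.val < 3 ↔ j.val < 3) ∧ ¬ (i.val < 3 ↔ k.val < 3) ∧ ¬ (i.val < 3 ↔ l.val < 3) := by
  decide +kernel

theorem mates : ∀ i : Fin 6, ∃ j k : Fin 6, i ≠ j ∧ i ≠ k ∧ j ≠ k ∧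
    (i.val < 3 ↔ j.val < 3) ∧ (i.val < 3 ↔ k.val < 3) ∧ (j.val < 3 ↔ k.val < 3) := by
  decide +kernel

theorem noMinor : ¬ ∃ B : Fin 6 → Set (Fin 13),
          (∀ i, (G.induce (B i)).Connected) ∧
          (∀ i j, i ≠ j → Disjoint (B i) (B j)) ∧
          (∀ i j, i ≠ j →
            ((∃ u ∈ B i, ∃ v ∈ B j, G.Adj u v) ↔ ¬ (i.val < 3 ↔ j.val < 3))) := by
  rintro ⟨B, h1, h2, h3⟩
  have hne : ∀ i j, i ≠ j → ∀ u ∈ B i, ∀ v ∈ B j, u ≠ v := by
    intro i j hij u hu v hv e
    subst e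
    exact Set.disjoint_left.1 (h2 i j hij) hu hv
  have hmain : ∀ i, ∃ v ∈ B i, v.val < 6 := by
    intro i
    by_contra hn
    have hn' : ∀ v ∈ B i, ¬ v.val < 6 := fun v hv h => hn ⟨v, hv, h⟩
    have heq : ∀ u ∈ B i, ∀ v ∈ B i, u = v := by
      intro u hu v hv
      obtain ⟨w⟩ := (h1 i).preconnected ⟨u, hu⟩ ⟨v, hv⟩
      cases w with
      | nil => rfl
      | @cons _ x _ h _ =>
        have h' : adj u x.1 = true := h
        rw [sub_indep u x.1 (hn' u hu) (hn' _ x.2)] at h'
        exact absurd h' (by decide)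
    obtain ⟨j, k, l, hj, hk, hl, hjk, hjl, hkl, a1, a2, a3⟩ := others i
    obtain ⟨s, hs, a, ha, e1⟩ := (h3 i j hj).2 a1
    obtain ⟨s2, hs2, b, hb, e2⟩ := (h3 i k hk).2 a2
    obtain ⟨s3, hs3, c, hc, e3⟩ := (h3 i l hl).2 a3
    rw [heq s2 hs2 s hs] at e2
    rw [heq s3 hs3 s hs] at e3
    rcases sub_deg s (hn' s hs) a e1 b e2 c e3 with e | e | e
    · exact hne j k hjk a ha b hb e
    · exact hne j l hjl a ha c hc e
    · exact hne k l hkl b hb c hc e
  choose m hm hm6 using hmain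
  have hna : ∀ i j, i ≠ j → (i.val < 3 ↔ j.val < 3) → adj (m i) (m j) = false := by
    intro i j hij hs
    rw [← Bool.not_eq_true]
    intro h
    exact (h3 i j hij).1 ⟨m i, hm i, m j, hm j, h⟩ hs
  have h2le : ∀ i, 2 ≤ (m i).val := by
    intro i
    obtain ⟨j, k, hj, hk, hjk, a1, a2, a3⟩ := mates i
    exact triple _ (hm6 i) _ (hm6 j) _ (hm6 k) (hne i j hj _ (hm i) _ (hm j))
      (hne i k hk _ (hm i) _ (hm k)) (hne j k hjk _ (hm j) _ (hm k)) (hna i j hj a1)
      (hna i k hk a2) (hna j k hjk a3)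
  have hinj : Function.Injective
      (fun i : Fin 6 => (⟨(m i).val - 2, by have := hm6 i; omega⟩ : Fin 4)) := by
    intro i j hij
    by_contra hc
    have e : (m i).val - 2 = (m j).val - 2 := congrArg Fin.val hij
    have := h2le i
    have := h2le j
    exact hne i j hc _ (hm i) _ (hm j) (Fin.ext (by omega))
  have := Fintype.card_le_of_injective _ hinj
  simp at this

/-- The negation of the preceding statement: Every finite graph with a K_6 minor (six disjoint connected vertex sets, pairwise joined by edges) has a triangle, or has K_{3,3} as an induced minor (six disjoint connected sets, joined by an edge exactly across the two sides of size three). -/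
theorem result :
    ¬ (∀ (V : Type) [Fintype V] (G : SimpleGraph V),
      (∃ B : Fin 6 → Set V,
          (∀ i, (G.induce (B i)).Connected) ∧
          (∀ i j, i ≠ j → Disjoint (B i) (B j)) ∧
          (∀ i j, i ≠ j → ∃ u ∈ B i, ∃ v ∈ B j, G.Adj u v)) →
      (∃ a b c : V, G.Adj a b ∧ G.Adj b c ∧ G.Adj a c) ∨
      (∃ B : Fin 6 → Set V,
          (∀ i, (G.induce (B i)).Connected) ∧
          (∀ i j, i ≠ j → Disjoint (B i) (B j)) ∧
          (∀ i j, i ≠ j →
            ((∃ u ∈ B i, ∃ v ∈ B j, G.Adj u v) ↔ ¬ (i.val < 3 ↔ j.val < 3))))) := by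
  intro h
  have hK : ∃ B : Fin 6 → Set (Fin 13),
          (∀ i, (G.induce (B i)).Connected) ∧
          (∀ i j, i ≠ j → Disjoint (B i) (B j)) ∧
          (∀ i j, i ≠ j → ∃ u ∈ B i, ∃ v ∈ B j, G.Adj u v) := by
    refine ⟨fun x => {v | part v = x}, ?_, ?_, ?_⟩
    · intro x
      rw [SimpleGraph.connected_iff_exists_forall_reachable]
      refine ⟨⟨ctr x, part_ctr x⟩, ?_⟩
      rintro ⟨v, hv⟩
      have hv' : part v = x := hv
      subst hv'
      rcases ctr_adj v with e | e
      · have : (⟨ctr (part v), part_ctr _⟩ : {w | part w = part v}) = ⟨v, hv⟩ :=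
          Subtype.ext e.symm
        rw [this]
      · exact SimpleGraph.Adj.reachable e
    · intro x y hxy
      rw [Set.disjoint_left]
      intro v h1 h2
      exact hxy ((show part v = x from h1).symm.trans h2)
    · intro x y hxy
      exact minor_adj x y hxy
  rcases h (Fin 13) G hK with ⟨a, b, c, h1, h2, h3⟩ | h
  · have h4 : adj a c = true := h3
    rw [no_tri a b h1 c h2] at h4
    exact absurd h4 (by decide)
  · exact noMinor h

end Pool.Agent.S09684
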