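import Pool.Statements.S09686
import Pool.Agent.Lib.helper13.ICMat

set_option autoImplicit false
open Pool Pool.MP_7c85f7_co

namespace Pool.Agent.S09686

/-- The negation of the preceding statement: There is a number t such that every finite nonempty binary matroid in which any two elements share a circuit and every cocircuit has at least t elements has a circuit D whose deletion leaves a matroid where any two elements share a circuit. -/
theorem result :
    ¬ (∃ t : ℕ, ∀ (α : Type) (M : Matroid α),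
      M.E.Finite → M.E.Nonempty →
      (∃ (n : ℕ) (v : α → (Fin n → ZMod 2)),
        ∀ I : Set α, M.Indep I ↔ (I ⊆ M.E ∧ LinearIndepOn (ZMod 2) v I)) →
      (∀ e ∈ M.E, ∀ f ∈ M.E, e ≠ f → ∃ C : Set α, M.IsCircuit C ∧ e ∈ C ∧ f ∈ C) →
      (∀ K : Set α, M.IsCocircuit K → t ≤ K.ncard) →
      ∃ D : Set α, M.IsCircuit D ∧
        ∀ e ∈ (M.restrict (M.E \ D)).E, ∀ f ∈ (M.restrict (M.E \ D)).E, e ≠ f →
          ∃ C : Set α, (M.restrict (M.E \ D)).IsCircuit C ∧ e ∈ C ∧ f ∈ C) := by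
  rintro ⟨t, H⟩
  obtain ⟨n, M, v, hE, hne, hrep, -, hconn, hco, hout, hint⟩ := H13IC.exists_matroid t
  obtain ⟨D, hD, h⟩ := H (Fin n) M (Set.toFinite _) hne ⟨n, v, hrep⟩
    (fun e _ f _ _ => hconn e f) hco
  obtain ⟨e, f, he, hf, hef⟩ := hout D hD
  obtain ⟨C, hC, -⟩ := h e ⟨hE ▸ Set.mem_univ e, he⟩ f ⟨hE ▸ Set.mem_univ f, hf⟩ hef
  rw [Matroid.restrict_isCircuit_iff Set.sdiff_subset] at hC
  exact hint C D hC.1 hD (Set.disjoint_left.2 fun x hx hx' => (hC.2 hx).2 hx')

end Pool.Agent.S09686
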