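import Pool.Statements.S09704
import Pool.Agent.Lib.helper32.Calib

set_option autoImplicit false
open Pool Pool.MP_7de4e5_co

namespace Pool.Agent.S09704

open Finset

/-- the interface lines of the zigzag triangulation (height rescaled to one) -/
noncomputable def g (k : ℕ) (Y : ℝ) : ℝ := if k % 2 = 0 then k + Y else k + 1 - Y

/-- ramp functions -/
noncomputable def r (k : ℕ) (P : ℝ × ℝ) : ℝ := max 0 (P.1 - g k P.2) / 2

/-- the calibration -/
noncomputable def U : ℕ → ℝ × ℝ → ℝ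
  | 0, P => max 0 (2 + P.2 - P.1) / 15 + 43 / 120 * max 0 (2 - 2 * P.2 - P.1)
  | 1, P => 2 / 5 * max 0 (2 + P.2 - P.1) - 11 / 40 * max 0 (2 - 2 * P.2 - P.1)
  | 2, _ => 0
  | 3, P => P.2 - max 0 (2 + P.2 - P.1) / 2 + max 0 (2 - 2 * P.2 - P.1) / 4 - r 3 P + r 4 P
  | k + 4, P => r (k + 2) P - r (k + 3) P - r (k + 4) P + r (k + 5) P

/-- the rescaled metric -/
noncomputable def N (P Q : ℝ × ℝ) : ℝ := Real.sqrt ((P.1 - Q.1) ^ 2 / 3 + (P.2 - Q.2) ^ 2)

/-- Lipschitz property on a set -/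
def Lip (f : ℝ × ℝ → ℝ) (A : Set (ℝ × ℝ)) : Prop := ∀ P ∈ A, ∀ Q ∈ A, f P - f Q ≤ N P Q

lemma N_scale (P Q Z W : ℝ × ℝ) (t : ℝ) (ht : 0 ≤ t) (h1 : Z.1 - W.1 = t * (P.1 - Q.1))
    (h2 : Z.2 - W.2 = t * (P.2 - Q.2)) : N Z W = t * N P Q := by
  rw [N, N, h1, h2, ← Real.sqrt_sq ht, ← Real.sqrt_mul (sq_nonneg t), Real.sqrt_sq ht]
  congr 1; ring

lemma glue (f : ℝ × ℝ → ℝ) (a b c d : ℝ)
    (h1 : Lip f {P | (0 ≤ P.2 ∧ P.2 ≤ 1) ∧ P.1 ≤ a + b * P.2})
    (h2 : Lip f {P | (0 ≤ P.2 ∧ P.2 ≤ 1) ∧ a + b * P.2 ≤ P.1 ∧ P.1 ≤ c + d * P.2}) :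
    Lip f {P | (0 ≤ P.2 ∧ P.2 ≤ 1) ∧ P.1 ≤ c + d * P.2} := by
  have key : ∀ P Q : ℝ × ℝ, ((0 ≤ P.2 ∧ P.2 ≤ 1) ∧ P.1 ≤ c + d * P.2) →
      ((0 ≤ Q.2 ∧ Q.2 ≤ 1) ∧ Q.1 ≤ c + d * Q.2) → P.1 < a + b * P.2 → a + b * Q.2 < Q.1 →
      f P - f Q ≤ N P Q ∧ f Q - f P ≤ N Q P := by
    intro P Q hP hQ hP' hQ'
    obtain ⟨t, ht0, ht1, ht⟩ : ∃ t : ℝ, 0 ≤ t ∧ t ≤ 1 ∧
        (1 - t) * (P.1 - a - b * P.2) + t * (Q.1 - a - b * Q.2) = 0 := by
      have hpos : 0 < (a + b * P.2 - P.1) + (Q.1 - a - b * Q.2) := by linarith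
      refine ⟨(a + b * P.2 - P.1) / ((a + b * P.2 - P.1) + (Q.1 - a - b * Q.2)),
        div_nonneg (by linarith) hpos.le, (div_le_one hpos).2 (by linarith), ?_⟩
      field_simp
      ring
    set Z : ℝ × ℝ := ((1 - t) * P.1 + t * Q.1, (1 - t) * P.2 + t * Q.2) with hZ
    have ht2 : 0 ≤ 1 - t := by linarith
    have z0 : 0 ≤ Z.2 := by
      have := mul_nonneg ht2 hP.1.1
      have := mul_nonneg ht0 hQ.1.1
      simp only [hZ]; linarith
    have z1 : Z.2 ≤ 1 := by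
      have := mul_le_mul_of_nonneg_left hP.1.2 ht2
      have := mul_le_mul_of_nonneg_left hQ.1.2 ht0
      simp only [hZ]; linarith
    have z2 : Z.1 = a + b * Z.2 := by simp only [hZ]; linarith
    have z3 : Z.1 ≤ c + d * Z.2 := by
      have := mul_le_mul_of_nonneg_left hP.2 ht2
      have := mul_le_mul_of_nonneg_left hQ.2 ht0
      simp only [hZ]; linarith
    have a1 := h1 P ⟨hP.1, hP'.le⟩ Z ⟨⟨z0, z1⟩, z2.le⟩
    have a2 := h1 Z ⟨⟨z0, z1⟩, z2.le⟩ P ⟨hP.1, hP'.le⟩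
    have a3 := h2 Z ⟨⟨z0, z1⟩, z2.ge, z3⟩ Q ⟨hQ.1, hQ'.le, hQ.2⟩
    have a4 := h2 Q ⟨hQ.1, hQ'.le, hQ.2⟩ Z ⟨⟨z0, z1⟩, z2.ge, z3⟩
    rw [N_scale P Q P Z t ht0 (by simp only [hZ]; ring) (by simp only [hZ]; ring)] at a1
    rw [N_scale Q P Z P t ht0 (by simp only [hZ]; ring) (by simp only [hZ]; ring)] at a2
    rw [N_scale P Q Z Q (1 - t) ht2 (by simp only [hZ]; ring) (by simp only [hZ]; ring)] at a3
    rw [N_scale Q P Q Z (1 - t) ht2 (by simp only [hZ]; ring) (by simp only [hZ]; ring)] at a4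
    constructor <;> linarith
  intro P hP Q hQ
  rcases lt_trichotomy P.1 (a + b * P.2) with p | p | p <;>
    rcases lt_trichotomy Q.1 (a + b * Q.2) with q | q | q
  · exact h1 P ⟨hP.1, p.le⟩ Q ⟨hQ.1, q.le⟩
  · exact h1 P ⟨hP.1, p.le⟩ Q ⟨hQ.1, q.le⟩
  · exact (key P Q hP hQ p q).1
  · exact h1 P ⟨hP.1, p.le⟩ Q ⟨hQ.1, q.le⟩
  · exact h1 P ⟨hP.1, p.le⟩ Q ⟨hQ.1, q.le⟩
  · exact h2 P ⟨hP.1, p.ge, hP.2⟩ Q ⟨hQ.1, q.le, hQ.2⟩
  · exact (key Q P hQ hP q p).2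
  · exact h2 P ⟨hP.1, p.le, hP.2⟩ Q ⟨hQ.1, q.ge, hQ.2⟩
  · exact h2 P ⟨hP.1, p.le, hP.2⟩ Q ⟨hQ.1, q.le, hQ.2⟩

lemma lin_le (α β : ℝ) (h : 3 * α ^ 2 + β ^ 2 ≤ 1) (P Q : ℝ × ℝ) :
    α * (P.1 - Q.1) + β * (P.2 - Q.2) ≤ N P Q := by
  refine Real.le_sqrt_of_sq_le ?_
  generalize P.1 - Q.1 = x
  generalize P.2 - Q.2 = y
  have h1 : 0 ≤ x ^ 2 / 3 + y ^ 2 := by positivity
  nlinarith [sq_nonneg (β * x - 3 * α * y), mul_le_mul_of_nonneg_right h h1]

lemma three (A : Set (ℝ × ℝ)) (a b c : ℕ) (hab : a ≠ b) (hac : a ≠ c) (hbc : b ≠ c)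
    (a1 a2 b1 b2 c1 c2 : ℝ)
    (h0 : ∀ k, k ≠ a → k ≠ b → k ≠ c → ∀ P ∈ A, U k P = 0)
    (ha : ∀ P ∈ A, ∀ Q ∈ A, U a P - U a Q = a1 * (P.1 - Q.1) + a2 * (P.2 - Q.2))
    (hb : ∀ P ∈ A, ∀ Q ∈ A, U b P - U b Q = b1 * (P.1 - Q.1) + b2 * (P.2 - Q.2))
    (hc : ∀ P ∈ A, ∀ Q ∈ A, U c P - U c Q = c1 * (P.1 - Q.1) + c2 * (P.2 - Q.2))
    (hn : ∀ x y z : Bool,
      3 * ((if x then a1 else 0) + (if y then b1 else 0) + (if z then c1 else 0)) ^ 2
      + ((if x then a2 else 0) + (if y then b2 else 0) + (if z then c2 else 0)) ^ 2 ≤ 1)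
    (S : Finset ℕ) : Lip (fun P => ∑ k ∈ S, U k P) A := by
  intro P hP Q hQ
  refine le_trans (le_of_eq ?_) (lin_le _ _ (hn (a ∈ S) (b ∈ S) (c ∈ S)) P Q)
  have : ∀ k, U k P - U k Q = (if k = a then U a P - U a Q else 0)
      + (if k = b then U b P - U b Q else 0) + (if k = c then U c P - U c Q else 0) := by
    intro k
    by_cases ka : k = a
    · subst ka; simp [hab, hac]
    by_cases kb : k = b
    · subst kb; simp [ka, hbc]
    by_cases kc : k = c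
    · subst kc; simp [ka, kb]
    simp [ka, kb, kc, h0 k ka kb kc P hP, h0 k ka kb kc Q hQ]
  simp only [← sum_sub_distrib]
  rw [sum_congr rfl (fun k _ => this k), sum_add_distrib, sum_add_distrib, sum_ite_eq', sum_ite_eq',
    sum_ite_eq', ha P hP Q hQ, hb P hP Q hQ, hc P hP Q hQ]
  by_cases x : a ∈ S <;> by_cases y : b ∈ S <;> by_cases z : c ∈ S <;> simp [x, y, z] <;> ring

lemma g_mono {Y : ℝ} (h : 0 ≤ Y ∧ Y ≤ 1) {j k : ℕ} (hjk : j ≤ k) : g j Y ≤ g k Y := by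
  rcases hjk.eq_or_lt with rfl | hjk
  · exact le_rfl
  · have : (j : ℝ) + 1 ≤ k := by exact_mod_cast hjk
    unfold g
    split_ifs <;> linarith [h.1, h.2]

lemma g_add_two (k : ℕ) (Y : ℝ) : g (k + 2) Y = g k Y + 2 := by
  unfold g
  rw [Nat.add_mod_right]
  split_ifs <;> push_cast <;> ring

lemma g_even {k : ℕ} (h : k % 2 = 0) (Y : ℝ) : g k Y = k + Y := by simp [g, h]

lemma g_odd {k : ℕ} (h : k % 2 = 1) (Y : ℝ) : g k Y = k + 1 - Y := by simp [g, h]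

/-- the triangle with index `m` -/
def T (m : ℕ) : Set (ℝ × ℝ) := {P | (0 ≤ P.2 ∧ P.2 ≤ 1) ∧ g m P.2 ≤ P.1 ∧ P.1 ≤ g (m + 1) P.2}

lemma r_left {m j : ℕ} {P : ℝ × ℝ} (hP : P ∈ T m) (h : j ≤ m) : r j P = (P.1 - g j P.2) / 2 := by
  rw [r, max_eq_right]
  linarith [g_mono hP.1 h, hP.2.1]

lemma r_zero {m j : ℕ} {P : ℝ × ℝ} (hY : 0 ≤ P.2 ∧ P.2 ≤ 1) (hP : P.1 ≤ g m P.2) (h : m ≤ j) :
    r j P = 0 := by
  rw [r, max_eq_left, zero_div]
  linarith [g_mono hY h]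

lemma r_right {m j : ℕ} {P : ℝ × ℝ} (hP : P ∈ T m) (h : m + 1 ≤ j) : r j P = 0 :=
  r_zero hP.1 hP.2.2 h

lemma s_zero {m : ℕ} {P : ℝ × ℝ} (hP : P ∈ T m) (h : 2 ≤ m) :
    max 0 (2 + P.2 - P.1) = 0 ∧ max 0 (2 - 2 * P.2 - P.1) = 0 := by
  have h1 := g_mono hP.1 h
  rw [g_even (by norm_num)] at h1
  push_cast at h1
  constructor <;> apply max_eq_left <;> linarith [hP.2.1, hP.1.1]

lemma U_zero (m : ℕ) (hm : 2 ≤ m) :
    ∀ k, k ≠ m → k ≠ m + 1 → k ≠ m + 2 → ∀ P ∈ T m, U k P = 0 := by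
  intro k h1 h2 h3 P hP
  obtain ⟨s1, s2⟩ := s_zero hP hm
  match k, h1, h2, h3 with
  | 0, _, _, _ => simp [U, s1, s2]
  | 1, _, _, _ => simp [U, s1, s2]
  | 2, _, _, _ => simp [U]
  | 3, _, _, _ =>
    simp only [U, s1, s2]
    rw [r_left hP (by omega), r_left hP (by omega), g_odd (by norm_num), g_even (by norm_num)]
    push_cast; ring
  | k + 4, _, _, _ =>
    simp only [U]
    rcases le_or_gt (k + 5) m with h | h
    · rw [r_left hP (by omega), r_left hP (by omega), r_left hP (by omega), r_left hP h,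
        g_add_two (k + 2), g_add_two (k + 3)]
      ring
    · rw [r_right hP (by omega), r_right hP (by omega), r_right hP (by omega),
        r_right hP (by omega)]
      ring

lemma U_third (m : ℕ) {P : ℝ × ℝ} (hP : P ∈ T (m + 2)) :
    U (m + 2 + 2) P = (P.1 - g (m + 2) P.2) / 2 := by
  change U (m + 4) P = _
  simp only [U]
  rw [r_left hP (by omega), r_right hP (by omega), r_right hP (by omega), r_right hP (by omega)]
  ring

lemma U_second (m : ℕ) {P : ℝ × ℝ} (hP : P ∈ T (m + 3)) :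
    U (m + 3 + 1) P = (g (m + 3) P.2 - g (m + 2) P.2) / 2 := by
  change U (m + 4) P = _
  simp only [U]
  rw [r_left hP (by omega), r_left hP (by omega), r_right hP (by omega), r_right hP (by omega)]
  ring

lemma U_first (m : ℕ) {P : ℝ × ℝ} (hP : P ∈ T (m + 4)) :
    U (m + 4) P = (g (m + 3) P.2 + 2 - P.1) / 2 := by
  simp only [U]
  rw [r_left hP (by omega), r_left hP (by omega), r_left hP (by omega), r_right hP (by omega),
    g_add_two (m + 2)]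
  ring

lemma lipT (m : ℕ) (S : Finset ℕ) : Lip (fun P => ∑ k ∈ S, U k P) (T (m + 2)) := by
  match m with
  | 0 =>
    refine three _ 2 3 4 (by omega) (by omega) (by omega) 0 0 0 1 (1 / 2) (-1 / 2)
      (U_zero 2 le_rfl) ?_ ?_ ?_ ?_ S
    · intro P _ Q _; simp [U]
    · intro P hP Q hQ
      simp only [U, (s_zero hP le_rfl).1, (s_zero hP le_rfl).2, (s_zero hQ le_rfl).1,
        (s_zero hQ le_rfl).2]
      rw [r_right hP (by omega), r_right hP (by omega), r_right hQ (by omega),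
        r_right hQ (by omega)]
      ring
    · intro P hP Q hQ
      rw [U_third 0 hP, U_third 0 hQ, g_even (by norm_num), g_even (by norm_num)]; ring
    · intro x y z; cases x <;> cases y <;> cases z <;> norm_num
  | 1 =>
    refine three _ 3 4 5 (by omega) (by omega) (by omega) (-1 / 2) (1 / 2) 0 (-1) (1 / 2) (1 / 2)
      (U_zero 3 (by omega)) ?_ ?_ ?_ ?_ S
    · intro P hP Q hQ
      simp only [U, (s_zero hP (by omega)).1, (s_zero hP (by omega)).2, (s_zero hQ (by omega)).1,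
        (s_zero hQ (by omega)).2]
      rw [r_left hP (by omega), r_right hP (by omega), r_left hQ (by omega),
        r_right hQ (by omega), g_odd (by norm_num), g_odd (by norm_num)]
      ring
    · intro P hP Q hQ
      rw [U_second 0 hP, U_second 0 hQ, g_odd (by norm_num), g_even (by norm_num),
        g_odd (by norm_num), g_even (by norm_num)]; ring
    · intro P hP Q hQ
      rw [U_third 1 hP, U_third 1 hQ, g_odd (by norm_num), g_odd (by norm_num)]; ring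
    · intro x y z; cases x <;> cases y <;> cases z <;> norm_num
  | m + 2 =>
    rcases Nat.mod_two_eq_zero_or_one m with h | h
    · refine three _ (m + 4) (m + 4 + 1) (m + 4 + 2) (by omega) (by omega) (by omega)
        (-1 / 2) (-1 / 2) 0 1 (1 / 2) (-1 / 2) (U_zero (m + 4) (by omega)) ?_ ?_ ?_ ?_ S
      · intro P hP Q hQ
        rw [U_first m hP, U_first m hQ, g_odd (by omega), g_odd (by omega)]; ring
      · intro P hP Q hQ
        rw [U_second (m + 1) hP, U_second (m + 1) hQ, g_even (by omega), g_odd (by omega),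
          g_even (by omega), g_odd (by omega)]; ring
      · intro P hP Q hQ
        rw [U_third (m + 2) hP, U_third (m + 2) hQ, g_even (by omega), g_even (by omega)]; ring
      · intro x y z; cases x <;> cases y <;> cases z <;> norm_num
    · refine three _ (m + 4) (m + 4 + 1) (m + 4 + 2) (by omega) (by omega) (by omega)
        (-1 / 2) (1 / 2) 0 (-1) (1 / 2) (1 / 2) (U_zero (m + 4) (by omega)) ?_ ?_ ?_ ?_ S
      · intro P hP Q hQ
        rw [U_first m hP, U_first m hQ, g_even (by omega), g_even (by omega)]; ring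
      · intro P hP Q hQ
        rw [U_second (m + 1) hP, U_second (m + 1) hQ, g_odd (by omega), g_even (by omega),
          g_odd (by omega), g_even (by omega)]; ring
      · intro P hP Q hQ
        rw [U_third (m + 2) hP, U_third (m + 2) hQ, g_odd (by omega), g_odd (by omega)]; ring
      · intro x y z; cases x <;> cases y <;> cases z <;> norm_num

lemma U_zero_left {P : ℝ × ℝ} (hY : 0 ≤ P.2 ∧ P.2 ≤ 1) (hP : P.1 ≤ 2 + 1 * P.2) :
    (∀ j, 2 ≤ j → r j P = 0) ∧ ∀ k, k ≠ 0 → k ≠ 1 → k ≠ 3 → U k P = 0 := by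
  have h1 : ∀ j, 2 ≤ j → r j P = 0 := fun j hj =>
    r_zero (m := 2) hY (by rw [g_even (by norm_num)]; push_cast; linarith) hj
  refine ⟨h1, fun k h0 h1' h3 => ?_⟩
  match k, h0, h1', h3 with
  | 2, _, _, _ => simp [U]
  | k + 4, _, _, _ =>
    simp only [U]
    rw [h1 _ (by omega), h1 _ (by omega), h1 _ (by omega), h1 _ (by omega)]; ring

lemma lip_start (S : Finset ℕ) :
    Lip (fun P => ∑ k ∈ S, U k P) {P | (0 ≤ P.2 ∧ P.2 ≤ 1) ∧ P.1 ≤ 2 + 1 * P.2} := by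
  refine glue _ 2 (-2) 2 1 ?_ ?_
  · have hm : ∀ P ∈ {P : ℝ × ℝ | (0 ≤ P.2 ∧ P.2 ≤ 1) ∧ P.1 ≤ 2 + -2 * P.2},
        P.1 ≤ 2 + 1 * P.2 ∧ max 0 (2 + P.2 - P.1) = 2 + P.2 - P.1 ∧
          max 0 (2 - 2 * P.2 - P.1) = 2 - 2 * P.2 - P.1 := by
      intro P hP
      refine ⟨?_, max_eq_right ?_, max_eq_right ?_⟩ <;> linarith [hP.1.1, hP.2]
    refine three _ 0 1 3 (by omega) (by omega) (by omega) (-17 / 40) (-13 / 20) (-1 / 8) (19 / 20)
      (1 / 4) 0 (fun k h0 h1 h3 P hP => (U_zero_left hP.1 (hm P hP).1).2 k h0 h1 h3) ?_ ?_ ?_ ?_ S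
    · intro P hP Q hQ
      simp only [U, (hm P hP).2.1, (hm P hP).2.2, (hm Q hQ).2.1, (hm Q hQ).2.2]; ring
    · intro P hP Q hQ
      simp only [U, (hm P hP).2.1, (hm P hP).2.2, (hm Q hQ).2.1, (hm Q hQ).2.2]; ring
    · intro P hP Q hQ
      simp only [U, (hm P hP).2.1, (hm P hP).2.2, (hm Q hQ).2.1, (hm Q hQ).2.2]
      rw [(U_zero_left hP.1 (hm P hP).1).1 3 (by omega), (U_zero_left hP.1 (hm P hP).1).1 4 (by omega),
        (U_zero_left hQ.1 (hm Q hQ).1).1 3 (by omega), (U_zero_left hQ.1 (hm Q hQ).1).1 4 (by omega)]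
      ring
    · intro x y z; cases x <;> cases y <;> cases z <;> norm_num
  · have hm : ∀ P ∈ {P : ℝ × ℝ | (0 ≤ P.2 ∧ P.2 ≤ 1) ∧ 2 + -2 * P.2 ≤ P.1 ∧ P.1 ≤ 2 + 1 * P.2},
        max 0 (2 + P.2 - P.1) = 2 + P.2 - P.1 ∧ max 0 (2 - 2 * P.2 - P.1) = 0 := by
      intro P hP
      refine ⟨max_eq_right ?_, max_eq_left ?_⟩ <;> linarith [hP.2.1, hP.2.2]
    refine three _ 0 1 3 (by omega) (by omega) (by omega) (-1 / 15) (1 / 15) (-2 / 5) (2 / 5)
      (1 / 2) (1 / 2) (fun k h0 h1 h3 P hP => (U_zero_left hP.1 hP.2.2).2 k h0 h1 h3) ?_ ?_ ?_ ?_ S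
    · intro P hP Q hQ
      simp only [U, (hm P hP).1, (hm P hP).2, (hm Q hQ).1, (hm Q hQ).2]; ring
    · intro P hP Q hQ
      simp only [U, (hm P hP).1, (hm P hP).2, (hm Q hQ).1, (hm Q hQ).2]; ring
    · intro P hP Q hQ
      simp only [U, (hm P hP).1, (hm P hP).2, (hm Q hQ).1, (hm Q hQ).2]
      rw [(U_zero_left hP.1 hP.2.2).1 3 (by omega), (U_zero_left hP.1 hP.2.2).1 4 (by omega),
        (U_zero_left hQ.1 hQ.2.2).1 3 (by omega), (U_zero_left hQ.1 hQ.2.2).1 4 (by omega)]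
      ring
    · intro x y z; cases x <;> cases y <;> cases z <;> norm_num

lemma g_affine (k : ℕ) : ∃ a b : ℝ, ∀ Y, g k Y = a + b * Y := by
  unfold g
  split_ifs
  · exact ⟨k, 1, fun Y => by ring⟩
  · exact ⟨k + 1, -1, fun Y => by ring⟩

lemma lip_left (S : Finset ℕ) (m : ℕ) :
    Lip (fun P => ∑ k ∈ S, U k P) {P | (0 ≤ P.2 ∧ P.2 ≤ 1) ∧ P.1 ≤ g (m + 2) P.2} := by
  induction m with
  | zero =>
    have := lip_start S
    simpa [g] using this
  | succ m ih =>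
    obtain ⟨a, b, hab⟩ := g_affine (m + 2)
    obtain ⟨c, d, hcd⟩ := g_affine (m + 2 + 1)
    have h := lipT m S
    simp only [T, hab, hcd] at ih h
    have := glue _ a b c d ih h
    simpa only [← hcd] using this

lemma lip_strip (S : Finset ℕ) (P Q : ℝ × ℝ) (hP : 0 ≤ P.2 ∧ P.2 ≤ 1) (hQ : 0 ≤ Q.2 ∧ Q.2 ≤ 1) :
    ∑ k ∈ S, (U k P - U k Q) ≤ N P Q := by
  obtain ⟨m, hm⟩ := exists_nat_ge (max P.1 Q.1)
  have h : ∀ Y : ℝ, 0 ≤ Y ∧ Y ≤ 1 → (m : ℝ) ≤ g (m + 2) Y := by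
    intro Y hY
    unfold g
    split_ifs <;> push_cast <;> linarith [hY.1, hY.2]
  rw [sum_sub_distrib]
  exact lip_left S m P ⟨hP, ((le_max_left _ _).trans hm).trans (h _ hP)⟩ Q
    ⟨hQ, ((le_max_right _ _).trans hm).trans (h _ hQ)⟩

/-- the terminals in rescaled coordinates -/
noncomputable def pt (k : ℕ) : ℝ × ℝ := (if k = 1 then 0 else k, if k % 2 = 0 then 0 else 1)

lemma pt_mem (k : ℕ) (hk : 2 ≤ k) : pt k ∈ T k := by
  have h1 : k ≠ 1 := by omega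
  rcases Nat.mod_two_eq_zero_or_one k with h | h
  · have h' : (k + 1) % 2 = 1 := by omega
    simp [T, pt, h, h1, g_even h, g_odd h']; linarith
  · have h' : (k + 1) % 2 = 0 := by omega
    simp [T, pt, h, h1, g_odd h, g_even h']; linarith

lemma U_root (k : ℕ) : U k (pt 2) = 0 := by
  have h := U_zero_left (P := pt 2) (by simp [pt]) (by simp [pt])
  by_cases h0 : k = 0
  · subst h0; simp [U, pt]
  by_cases h1 : k = 1
  · subst h1; simp [U, pt]
  by_cases h3 : k = 3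
  · subst h3
    simp only [U, h.1 3 (by omega), h.1 4 (by omega)]
    simp [pt]
  exact h.2 k h0 h1 h3

lemma U_pt (k : ℕ) : U (k + 3) (pt (k + 3)) = 1 := by
  have hP := pt_mem (k + 3) (by omega)
  match k, hP with
  | 0, hP =>
    simp only [zero_add] at hP ⊢
    simp only [U, (s_zero hP (by omega)).1, (s_zero hP (by omega)).2]
    rw [r_left hP (by omega), r_right hP (by omega), g_odd (by norm_num)]
    simp [pt]
  | k + 1, hP =>
    change U (k + 4) (pt (k + 4)) = 1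
    rw [U_first k hP]
    rcases Nat.mod_two_eq_zero_or_one k with h | h
    · have h' : (k + 4) % 2 = 0 := by omega
      rw [g_odd (by omega)]
      simp [pt, h']; ring
    · have h' : (k + 4) % 2 = 1 := by omega
      rw [g_even (by omega)]
      simp [pt, h']; ring

lemma total (n : ℕ) : ∑ k ∈ range (n + 3), U k (pt k) = 41 / 20 + n := by
  induction n with
  | zero => simp [sum_range_succ, U, pt]; norm_num
  | succ n ih => rw [show n + 1 + 3 = (n + 3) + 1 from rfl, sum_range_succ, ih, U_pt]; push_cast; ring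

/-- passage to rescaled coordinates, clamped to the strip -/
noncomputable def proj (z : EuclideanSpace ℝ (Fin 2)) : ℝ × ℝ :=
  (z 1, max 0 (min 1 (z 0 / Real.sqrt 3)))

lemma proj_lip (x y : EuclideanSpace ℝ (Fin 2)) : Real.sqrt 3 * N (proj x) (proj y) ≤ dist x y := by
  rw [N, ← Real.sqrt_mul (by norm_num), EuclideanSpace.dist_eq]
  refine Real.sqrt_le_sqrt ?_
  rw [Fin.sum_univ_two, Real.dist_eq, Real.dist_eq, sq_abs, sq_abs]
  have h1 : |(proj x).2 - (proj y).2| ≤ |x 0 / Real.sqrt 3 - y 0 / Real.sqrt 3| := by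
    simp only [proj]
    refine (abs_max_sub_max_le_max _ _ _ _).trans ?_
    simp only [sub_self, abs_zero]
    refine max_le (abs_nonneg _) ((abs_min_sub_min_le_max _ _ _ _).trans ?_)
    simp
  have h2 := sq_le_sq.2 h1
  rw [← sub_div, div_pow, Real.sq_sqrt (by norm_num)] at h2
  have h3 : (proj x).1 - (proj y).1 = x 1 - y 1 := rfl
  rw [h3]
  linarith


/-- The negation of the preceding statement: For every ε>0, for all large n, any n points in a √3 by (n−1) rectangle lie in a connected plane set of 1-dimensional Hausdorff measure at most √3(n−1)+ε. -/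
theorem result :
    ¬ (∀ ε : ℝ, 0 < ε → ∃ N : ℕ, ∀ n : ℕ, N ≤ n →
      ∀ P : Fin n → EuclideanSpace ℝ (Fin 2),
        (∀ i, 0 ≤ P i 0 ∧ P i 0 ≤ Real.sqrt 3 ∧ 0 ≤ P i 1 ∧ P i 1 ≤ (n : ℝ) - 1) →
        ∃ S : Set (EuclideanSpace ℝ (Fin 2)), IsConnected S ∧ (∀ i, P i ∈ S) ∧
          MeasureTheory.Measure.hausdorffMeasure 1 S ≤
            ENNReal.ofReal (Real.sqrt 3 * ((n : ℝ) - 1) + ε)) := by
  intro h
  obtain ⟨N0, hN⟩ := h (1 / 20) (by norm_num)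
  have hs : (0 : ℝ) < Real.sqrt 3 := by positivity
  have hs1 : (1 : ℝ) < Real.sqrt 3 := Real.lt_sqrt_of_sq_lt (by norm_num)
  let p : Fin (N0 + 3) → EuclideanSpace ℝ (Fin 2) := fun i =>
    !₂[Real.sqrt 3 * (pt i).2, (pt i).1]
  have hpt : ∀ k : ℕ, 0 ≤ (pt k).2 ∧ (pt k).2 ≤ 1 := by
    intro k; unfold pt; split_ifs <;> simp
  have hproj : ∀ i, proj (p i) = pt i := by
    intro i
    have : Real.sqrt 3 * (pt i).2 / Real.sqrt 3 = (pt i).2 := by field_simp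
    simp [proj, p, this, (hpt i).1, (hpt i).2]
  obtain ⟨K, hK, hpK, hμ⟩ := hN (N0 + 3) (by omega) p (by
    intro i
    have h1 := hpt i
    have h2 : ((i : ℕ) : ℝ) + 1 ≤ ((N0 + 3 : ℕ) : ℝ) := by exact_mod_cast i.2
    have h3 : (0 : ℝ) ≤ ((i : ℕ) : ℝ) := by positivity
    have h4 : 0 ≤ (pt i).1 ∧ (pt i).1 ≤ ((i : ℕ) : ℝ) := by
      unfold pt; split_ifs <;> simp
    refine ⟨?_, ?_, ?_, ?_⟩
    · simpa [p] using mul_nonneg hs.le h1.1
    · simpa [p] using mul_le_of_le_one_right hs.le h1.2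
    · simpa [p] using h4.1
    · have : (pt i).1 ≤ ((N0 + 3 : ℕ) : ℝ) - 1 := by linarith [h4.2]
      simpa [p] using this)
  have hc := Pool.Agent.Lib.helper32.Calib.calib
    (fun (i : Fin (N0 + 3)) (z : EuclideanSpace ℝ (Fin 2)) => Real.sqrt 3 * U i (proj z))
    (by
      intro S x y
      refine le_trans ?_ (proj_lip x y)
      have h1 : ∀ z, 0 ≤ (proj z).2 ∧ (proj z).2 ≤ 1 := fun z =>
        ⟨le_max_left _ _, max_le zero_le_one (min_le_left _ _)⟩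
      have h2 := lip_strip (S.map Fin.valEmbedding) _ _ (h1 x) (h1 y)
      rw [sum_map] at h2
      simp only [← mul_sub, ← mul_sum]
      exact mul_le_mul_of_nonneg_left h2 hs.le)
    K hK.isPreconnected (p ⟨2, by omega⟩) (hpK _) p hpK _
    (by
      have : (0 : ℝ) ≤ ((N0 + 3 : ℕ) : ℝ) - 1 := by push_cast; linarith [Nat.cast_nonneg (α := ℝ) N0]
      positivity) hμ
  simp only [hproj, U_root, mul_zero, sub_zero, ← mul_sum] at hc
  rw [Fin.sum_univ_eq_sum_range (fun k => U k (pt k)), total] at hc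
  push_cast at hc
  nlinarith

end Pool.Agent.S09704
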