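import Pool.Statements.S09708
-- import your own Pool.Agent.* helpers here

set_option autoImplicit false
open Pool Pool.MP_7e478a_co

namespace Pool.Agent.S09708

def Att {n : ℕ} (x y : Fin 3 → Fin n) : Prop :=
  ∃ t : ℤ, t ≠ 0 ∧ ∃ v : Fin 3 → ℤ, v ≠ 0 ∧ (∀ i, v i = -1 ∨ v i = 0 ∨ v i = 1) ∧
    ∀ i, ((y i : ℕ) : ℤ) - ((x i : ℕ) : ℤ) = t * v i

lemma Att.symm {n : ℕ} {x y : Fin 3 → Fin n} (h : Att x y) : Att y x := by
  obtain ⟨t, ht, v, hv, h1, h2⟩ := h
  exact ⟨-t, by omega, v, hv, h1, fun i => by linarith [h2 i]⟩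

def pt {n : ℕ} (hn : 0 < n) (a b : Fin n) : Fin 3 → Fin n :=
  ![a, b, ⟨(2 * a + 4 * b) % n, Nat.mod_lt _ hn⟩]

lemma pt_dvd {n : ℕ} (hn : 0 < n) (a b : Fin n) :
    (n : ℤ) ∣ ((pt hn a b 2 : ℕ) : ℤ) - 2 * ((pt hn a b 0 : ℕ) : ℤ) - 4 * ((pt hn a b 1 : ℕ) : ℤ) := by
  show (n : ℤ) ∣ (((2 * a + 4 * b) % n : ℕ) : ℤ) - 2 * ((a : ℕ) : ℤ) - 4 * ((b : ℕ) : ℤ)
  have h := Nat.mod_add_div (2 * a + 4 * b) n
  refine ⟨-(((2 * a + 4 * b) / n : ℕ) : ℤ), ?_⟩
  have h' := congrArg (Nat.cast : ℕ → ℤ) h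
  push_cast [Nat.cast_add, Nat.cast_mul] at h' ⊢
  linarith

lemma pt_not {n : ℕ} (hp : n.Prime) (h8 : 8 ≤ n) (hn : 0 < n) (a b c d : Fin n) :
    ¬ Att (pt hn a b) (pt hn c d) := by
  rintro ⟨t, ht, v, hv, h1, h2⟩
  have e : (n : ℤ) ∣ t * (v 2 - 2 * v 0 - 4 * v 1) := by
    obtain ⟨k1, e1⟩ := pt_dvd hn c d
    obtain ⟨k2, e2⟩ := pt_dvd hn a b
    exact ⟨k1 - k2, by linear_combination e1 - e2 - h2 2 + 2 * h2 0 + 4 * h2 1⟩
  have hv' : ¬ (v 0 = 0 ∧ v 1 = 0 ∧ v 2 = 0) := by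
    rintro ⟨a0, a1, a2⟩
    apply hv
    funext i
    fin_cases i <;> assumption
  rcases (Nat.prime_iff_prime_int.1 hp).dvd_or_dvd e with h | h
  · have hb : ∀ i, v i ≠ 0 → False := by
      intro i hi
      have k1 := (pt hn a b i).2
      have k2 := (pt hn c d i).2
      have k3 := h2 i
      have k4 := Int.le_of_dvd (abs_pos.2 ht) ((dvd_abs _ _).2 h)
      rcases h1 i with h | h | h
      · rw [h] at k3
        rcases abs_cases t with k | k <;> omega
      · exact hi h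
      · rw [h] at k3
        rcases abs_cases t with k | k <;> omega
    by_contra
    exact hv' ⟨by_contra (hb 0), by_contra (hb 1), by_contra (hb 2)⟩
  · have w0 : v 2 - 2 * v 0 - 4 * v 1 ≠ 0 := by
      have := h1 0; have := h1 1; have := h1 2
      omega
    have k4 := Int.le_of_dvd (abs_pos.2 w0) ((dvd_abs _ _).2 h)
    have := h1 0; have := h1 1; have := h1 2
    rcases abs_cases (v 2 - 2 * v 0 - 4 * v 1) with k | k <;> omega

lemma axis {n : ℕ} {x y : Fin 3 → Fin n} (j : Fin 3) (hj : x j ≠ y j)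
    (h : ∀ i, i ≠ j → x i = y i) : Att x y := by
  refine ⟨((y j : ℕ) : ℤ) - ((x j : ℕ) : ℤ), ?_, Pi.single j 1, ?_, ?_, ?_⟩
  · intro h0
    apply hj
    ext
    omega
  · intro h0
    have := congrFun h0 j
    simp at this
  · intro i
    by_cases hi : i = j <;> simp [hi]
  · intro i
    by_cases hi : i = j
    · simp [hi]
    · simp [hi, h i hi]

theorem key {n : ℕ} (hp : n.Prime) (h8 : 8 ≤ n) : ∃ Q : Finset (Fin 3 → Fin n),
    (∀ x ∈ Q, ∀ y ∈ Q, ¬ Att x y) ∧ Q.card ≤ n ∧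
    ∀ P : Finset (Fin 3 → Fin n), Q ⊆ P → (∀ x ∈ P, ∀ y ∈ P, ¬ Att x y) →
      ∃ R : Finset (Fin 3 → Fin n), (∀ x ∈ R, ∀ y ∈ R, ¬ Att x y) ∧ P.card < R.card := by
  have hn : 0 < n := by omega
  let z : Fin n := ⟨0, hn⟩
  let o : Fin n := ⟨1, by omega⟩
  let q : Fin 3 → Fin n := ![z, o, z]
  have hq : ∀ a : Fin n, a ≠ z → ¬ Att q (pt hn a z) := by
    rintro a ha ⟨t, ht, v, hv, h1, h2⟩
    have e0 : ((a : ℕ) : ℤ) - ((0 : ℕ) : ℤ) = t * v 0 := h2 0
    have e1 : ((0 : ℕ) : ℤ) - ((1 : ℕ) : ℤ) = t * v 1 := h2 1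
    have e2 : (((2 * a + 4 * 0) % n : ℕ) : ℤ) - ((0 : ℕ) : ℤ) = t * v 2 := h2 2
    have ha' : (a : ℕ) ≠ 0 := fun h => ha (Fin.ext h)
    have t1 : t = 1 ∨ t = -1 := by
      rcases h1 1 with h | h | h <;> rw [h] at e1 <;> omega
    have a1 : (a : ℕ) = 1 := by
      rcases h1 0 with h | h | h <;> rw [h] at e0 <;> omega
    rw [a1, Nat.mod_eq_of_lt (by omega)] at e2
    rcases h1 2 with h | h | h <;> rw [h] at e2 <;> omega
  refine ⟨insert q ((Finset.univ.erase z).image (fun a => pt hn a z)), ?_, ?_, ?_⟩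
  · intro x hx y hy
    simp only [Finset.mem_insert, Finset.mem_image, Finset.mem_erase, Finset.mem_univ,
      and_true] at hx hy
    rcases hx with rfl | ⟨a, ha, rfl⟩ <;> rcases hy with rfl | ⟨b, hb, rfl⟩
    · rintro ⟨t, ht, v, hv, h1, h2⟩
      apply hv
      funext i
      have := h2 i
      rw [sub_self] at this
      exact (mul_eq_zero.1 this.symm).resolve_left ht
    · exact hq b hb
    · exact fun h => hq a ha h.symm
    · exact pt_not hp h8 hn _ _ _ _
  · refine (Finset.card_insert_le _ _).trans ?_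
    have := Finset.card_image_le (s := Finset.univ.erase z) (f := fun a => pt hn a z)
    rw [Finset.card_erase_of_mem (Finset.mem_univ _), Finset.card_univ, Fintype.card_fin] at this
    omega
  · intro P hQ hP
    refine ⟨Finset.univ.image (fun ab : Fin n × Fin n => pt hn ab.1 ab.2), ?_, ?_⟩
    · intro x hx y hy
      obtain ⟨a, _, rfl⟩ := Finset.mem_image.1 hx
      obtain ⟨b, _, rfl⟩ := Finset.mem_image.1 hy
      exact pt_not hp h8 hn _ _ _ _
    · rw [Finset.card_image_of_injective _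
        (fun a b h => Prod.ext (congrFun h 0) (congrFun h 1))]
      refine lt_of_le_of_lt (Finset.card_le_card_of_injOn (t := Finset.univ.erase (z, z))
        (fun x => (x 0, x 1)) ?_ ?_) (Finset.card_erase_lt_of_mem (Finset.mem_univ _))
      · intro x hx
        simp only [Finset.coe_erase, Finset.coe_univ, Set.mem_sdiff, Set.mem_univ, true_and,
          Set.mem_singleton_iff, Prod.mk.injEq]
        rintro ⟨x0, x1⟩
        by_cases x2 : x 2 = z
        · refine hP x hx q (hQ (Finset.mem_insert_self _ _)) (axis 1 ?_ ?_)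
          · rw [x1]
            intro h
            have := congrArg Fin.val h
            simp [z, q, o] at this
          · intro i hi
            fin_cases i
            · exact x0
            · exact absurd rfl hi
            · exact x2
        · have hodd := hp.eq_two_or_odd.resolve_left (by omega)
          have k2 := (x 2).2
          have k3 : (x 2 : ℕ) ≠ 0 := fun h => x2 (Fin.ext h)
          obtain ⟨a, a0, a1, a2⟩ : ∃ a, a ≠ 0 ∧ a < n ∧ (2 * a + 4 * 0) % n = x 2 := by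
            rcases Nat.mod_two_eq_zero_or_one (x 2) with h | h
            · refine ⟨x 2 / 2, by omega, by omega, ?_⟩
              rw [show 2 * ((x 2 : ℕ) / 2) + 4 * 0 = x 2 by omega, Nat.mod_eq_of_lt k2]
            · refine ⟨(x 2 + n) / 2, by omega, by omega, ?_⟩
              rw [show 2 * (((x 2 : ℕ) + n) / 2) + 4 * 0 = x 2 + n by omega, Nat.add_mod_right,
                Nat.mod_eq_of_lt k2]
          have az : (⟨a, a1⟩ : Fin n) ≠ z := fun h => a0 (congrArg Fin.val h)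
          refine hP x hx (pt hn ⟨a, a1⟩ z) (hQ (Finset.mem_insert_of_mem
            (Finset.mem_image.2 ⟨⟨a, a1⟩, by simp [az], rfl⟩))) (axis 0 ?_ ?_)
          · rw [x0]
            exact az.symm
          · intro i hi
            fin_cases i
            · exact absurd rfl hi
            · exact x1
            · exact Fin.ext a2.symm
      · intro x hx y hy hxy
        simp only [Prod.mk.injEq] at hxy
        by_contra hne
        refine hP x hx y hy (axis 2 ?_ ?_)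
        · intro h2
          apply hne
          funext i
          fin_cases i
          · exact hxy.1
          · exact hxy.2
          · exact h2
        · intro i hi
          fin_cases i
          · exact hxy.1
          · exact hxy.2
          · exact absurd rfl hi


/-- The negation of the preceding statement: For every d ≥ 3 there is c > 0 such that, for all large n, every set of non-attacking queens on the n^d board of size at most n^(d-1)/c extends to a non-attacking set of maximum possible size. -/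
theorem result :
    ¬ (∀ d : ℕ, 3 ≤ d → ∃ c : ℝ, 0 < c ∧ ∃ N : ℕ, ∀ n : ℕ, N ≤ n →
      ∀ Q : Finset (Fin d → Fin n),
        (∀ x ∈ Q, ∀ y ∈ Q, ¬ ∃ t : ℤ, t ≠ 0 ∧ ∃ v : Fin d → ℤ, v ≠ 0 ∧
            (∀ i, v i = -1 ∨ v i = 0 ∨ v i = 1) ∧
            ∀ i, ((y i : ℕ) : ℤ) - ((x i : ℕ) : ℤ) = t * v i) →
        (Q.card : ℝ) ≤ (n : ℝ) ^ (d - 1) / c →
        ∃ P : Finset (Fin d → Fin n), Q ⊆ P ∧
          (∀ x ∈ P, ∀ y ∈ P, ¬ ∃ t : ℤ, t ≠ 0 ∧ ∃ v : Fin d → ℤ, v ≠ 0 ∧
            (∀ i, v i = -1 ∨ v i = 0 ∨ v i = 1) ∧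
            ∀ i, ((y i : ℕ) : ℤ) - ((x i : ℕ) : ℤ) = t * v i) ∧
          ∀ R : Finset (Fin d → Fin n),
            (∀ x ∈ R, ∀ y ∈ R, ¬ ∃ t : ℤ, t ≠ 0 ∧ ∃ v : Fin d → ℤ, v ≠ 0 ∧
              (∀ i, v i = -1 ∨ v i = 0 ∨ v i = 1) ∧
              ∀ i, ((y i : ℕ) : ℤ) - ((x i : ℕ) : ℤ) = t * v i) →
            R.card ≤ P.card) := by
  intro H
  obtain ⟨c, hc, N, H⟩ := H 3 le_rfl
  obtain ⟨n, hn, hp⟩ := Nat.exists_infinite_primes (N + 8 + ⌈c⌉₊)
  obtain ⟨Q, h1, h2, h3⟩ := key hp (by omega)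
  have hcn : c ≤ n := (Nat.le_ceil c).trans (by exact_mod_cast (by omega : ⌈c⌉₊ ≤ n))
  obtain ⟨P, p1, p2, p3⟩ := H n (by omega) Q h1 (by
    rw [le_div_iff₀ hc]
    have : (Q.card : ℝ) ≤ n := by exact_mod_cast h2
    have h0 : (0 : ℝ) ≤ n := Nat.cast_nonneg n
    norm_num
    nlinarith)
  obtain ⟨R, r1, r2⟩ := h3 P p1 p2
  exact absurd (p3 R r1) (not_le.2 r2)

end Pool.Agent.S09708
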