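import Pool.Statements.S09798

set_option autoImplicit false
open Pool Pool.MP_82152b_co

namespace Pool.Agent.S09798

open Finset

def adjB (i j : Fin 5) : Bool :=
  (i.val, j.val) ∈ [(0,1),(1,0),(0,2),(2,0),(1,3),(3,1),(1,4),(4,1),(2,3),(3,2),(2,4),(4,2),(3,4),(4,3)]

def H : SimpleGraph (Fin 5) where
  Adj i j := adjB i j = true
  symm := ⟨by decide⟩
  loopless := ⟨by decide⟩

instance : DecidableRel H.Adj := fun i j => inferInstanceAs (Decidable (adjB i j = true))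

theorem three_le {α : Type} [Finite α] {T : Set α} {x y z : α} (hx : x ∈ T) (hy : y ∈ T) (hz : z ∈ T)
    (h1 : x ≠ y) (h2 : x ≠ z) (h3 : y ≠ z) : ¬ T.ncard ≤ 2 := by
  have : 2 < T.ncard := (Set.two_lt_ncard (Set.toFinite T)).2 ⟨x, hx, y, hy, z, hz, h1, h2, h3⟩
  omega

open Classical in
noncomputable def P {n : ℕ} (G : SimpleGraph (Fin n)) (a b : Fin n) : Finset (Fin n) :=
  univ.filter (fun x => ∃ y, G.Adj a x ∧ G.Adj b x ∧ G.Adj a y ∧ G.Adj b y ∧ G.Adj x y)

theorem P_card {n : ℕ} (G : SimpleGraph (Fin n))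
    (hG : ∀ S : Finset (Fin n), S.Nonempty → ∃ v ∈ S, {w : Fin n | w ∈ S ∧ G.Adj v w}.ncard ≤ 2)
    (a b : Fin n) (hab : a ≠ b) : (P G a b).card ≤ 2 := by
  by_contra hc
  push Not at hc
  obtain ⟨x, hx, y, hy, z, hz, h1, h2, h3⟩ := two_lt_card.1 hc
  have mem : ∀ w, w ∈ P G a b ↔ ∃ y, G.Adj a w ∧ G.Adj b w ∧ G.Adj a y ∧ G.Adj b y ∧ G.Adj w y := by
    intro w
    simp [P]
  obtain ⟨v, hv, hle⟩ := hG (insert a (insert b (P G a b))) (insert_nonempty _ _)
  have sub : ∀ w, w ∈ P G a b → w ∈ insert a (insert b (P G a b)) :=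
    fun w hw => mem_insert_of_mem (mem_insert_of_mem hw)
  rcases mem_insert.1 hv with rfl | hv
  · obtain ⟨_, p1, _⟩ := (mem x).1 hx
    obtain ⟨_, p2, _⟩ := (mem y).1 hy
    obtain ⟨_, p3, _⟩ := (mem z).1 hz
    exact three_le (T := {w | w ∈ insert v (insert b (P G v b)) ∧ G.Adj v w})
      ⟨sub x hx, p1⟩ ⟨sub y hy, p2⟩ ⟨sub z hz, p3⟩ h1 h2 h3 hle
  rcases mem_insert.1 hv with rfl | hv
  · obtain ⟨_, _, p1, _⟩ := (mem x).1 hx
    obtain ⟨_, _, p2, _⟩ := (mem y).1 hy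
    obtain ⟨_, _, p3, _⟩ := (mem z).1 hz
    exact three_le (T := {w | w ∈ insert a (insert v (P G a v)) ∧ G.Adj v w})
      ⟨sub x hx, p1⟩ ⟨sub y hy, p2⟩ ⟨sub z hz, p3⟩ h1 h2 h3 hle
  · obtain ⟨t, p1, p2, p3, p4, p5⟩ := (mem v).1 hv
    exact three_le (T := {w | w ∈ insert a (insert b (P G a b)) ∧ G.Adj v w})
      ⟨mem_insert_self _ _, p1.symm⟩ ⟨mem_insert_of_mem (mem_insert_self _ _), p2.symm⟩
      ⟨sub t ((mem t).2 ⟨v, p3, p4, p1, p2, p5.symm⟩), p5⟩ hab p3.ne p4.ne hle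

open Classical in
noncomputable def E {n : ℕ} (G : SimpleGraph (Fin n)) (S : Finset (Fin n)) : Finset (Fin 5 ↪ Fin n) :=
  univ.filter (fun φ => (∀ u v, H.Adj u v → G.Adj (φ u) (φ v)) ∧ ∀ x, φ x ∈ S)

theorem E_card {n : ℕ} (G : SimpleGraph (Fin n))
    (hG : ∀ S : Finset (Fin n), S.Nonempty → ∃ v ∈ S, {w : Fin n | w ∈ S ∧ G.Adj v w}.ncard ≤ 2)
    (S : Finset (Fin n)) : (E G S).card ≤ 16 * S.card := by
  classical
  have mem : ∀ (S : Finset (Fin n)) (φ : Fin 5 ↪ Fin n), φ ∈ E G S ↔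
      (∀ u v, H.Adj u v → G.Adj (φ u) (φ v)) ∧ ∀ x, φ x ∈ S := by
    intro S φ
    simp [E]
  induction S using Finset.strongInduction with
  | H S ih =>
    rcases S.eq_empty_or_nonempty with rfl | hne
    · have : E G ∅ = ∅ := by
        rw [eq_empty_iff_forall_notMem]
        intro φ hφ
        exact absurd (((mem _ _).1 hφ).2 0) (by simp)
      simp [this]
    obtain ⟨v, hv, hle⟩ := hG S hne
    have h1 := ih (S.erase v) (erase_ssubset hv)
    set N := S.filter (fun w => G.Adj v w) with hN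
    have hNc : N.card ≤ 2 := by
      have : {w : Fin n | w ∈ S ∧ G.Adj v w} = (N : Set (Fin n)) := by
        ext w
        simp [hN]
      rwa [this, Set.ncard_coe_finset] at hle
    have h2 : ((E G S).filter (fun φ => φ 0 = v)).card ≤ 4 * (N ×ˢ N).card := by
      refine card_le_mul_card_image_of_maps_to (f := fun φ : Fin 5 ↪ Fin n => (φ 1, φ 2)) ?_ 4 ?_
      · intro φ hφ
        obtain ⟨hφ, h0⟩ := mem_filter.1 hφ
        obtain ⟨p, q⟩ := (mem _ _).1 hφ
        simp only [mem_product, hN, mem_filter]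
        exact ⟨⟨q 1, h0 ▸ p 0 1 (by decide)⟩, ⟨q 2, h0 ▸ p 0 2 (by decide)⟩⟩
      · rintro ⟨a, b⟩ _
        by_cases hab : a = b
        · have : ((E G S).filter (fun φ => φ 0 = v)).filter (fun φ => (φ 1, φ 2) = (a, b)) = ∅ := by
            rw [eq_empty_iff_forall_notMem]
            intro φ hφ
            have e := (mem_filter.1 hφ).2
            simp only [Prod.mk.injEq] at e
            have : φ 1 = φ 2 := by rw [e.1, e.2, hab]
            exact absurd (φ.injective this) (by decide)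
          rw [this]
          simp
        have hP := P_card G hG a b hab
        have : (((E G S).filter (fun φ => φ 0 = v)).filter (fun φ => (φ 1, φ 2) = (a, b))).card
            ≤ (P G a b ×ˢ P G a b).card := by
          refine card_le_card_of_injOn (fun φ => (φ 3, φ 4)) ?_ ?_
          · intro φ hφ
            obtain ⟨hφ, e⟩ := mem_filter.1 (mem_coe.1 hφ)
            obtain ⟨hφ, _⟩ := mem_filter.1 hφ
            obtain ⟨p, _⟩ := (mem _ _).1 hφ
            simp only [Prod.mk.injEq] at e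
            obtain ⟨rfl, rfl⟩ := e
            simp only [coe_product, Set.mem_prod, mem_coe, P, mem_filter, mem_univ, true_and]
            exact ⟨⟨φ 4, p 1 3 (by decide), p 2 3 (by decide), p 1 4 (by decide), p 2 4 (by decide),
              p 3 4 (by decide)⟩, ⟨φ 3, p 1 4 (by decide), p 2 4 (by decide), p 1 3 (by decide),
              p 2 3 (by decide), p 4 3 (by decide)⟩⟩
          · intro φ hφ ψ hψ e
            obtain ⟨hφ, e1⟩ := mem_filter.1 (mem_coe.1 hφ)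
            obtain ⟨hψ, e2⟩ := mem_filter.1 (mem_coe.1 hψ)
            have e3 := (mem_filter.1 hφ).2
            have e4 := (mem_filter.1 hψ).2
            simp only [Prod.mk.injEq] at e e1 e2
            ext x
            congr 1
            fin_cases x
            · exact e3.trans e4.symm
            · exact e1.1.trans e2.1.symm
            · exact e1.2.trans e2.2.symm
            · exact e.1
            · exact e.2
        rw [card_product] at this
        nlinarith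
    have h3 : E G S ⊆ E G (S.erase v) ∪ (E G S).filter (fun φ => φ 0 = v) := by
      intro φ hφ
      by_cases h0 : φ 0 = v
      · exact mem_union_right _ (mem_filter.2 ⟨hφ, h0⟩)
      obtain ⟨p, q⟩ := (mem _ _).1 hφ
      refine mem_union_left _ ((mem _ _).2 ⟨p, fun x => mem_erase.2 ⟨?_, q x⟩⟩)
      intro hx
      have key : ∀ x : Fin 5, x ≠ 0 → ∃ i j k : Fin 5, H.Adj x i ∧ H.Adj x j ∧ H.Adj x k ∧
          i ≠ j ∧ i ≠ k ∧ j ≠ k := by decide
      obtain ⟨i, j, k, a1, a2, a3, b1, b2, b3⟩ := key x (fun e => h0 (e ▸ hx))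
      exact three_le (T := {w | w ∈ S ∧ G.Adj v w}) ⟨q i, hx ▸ p _ _ a1⟩ ⟨q j, hx ▸ p _ _ a2⟩
        ⟨q k, hx ▸ p _ _ a3⟩ (φ.injective.ne b1) (φ.injective.ne b2) (φ.injective.ne b3) hle
    have h4 := (card_le_card h3).trans (card_union_le _ _)
    rw [card_product] at h2
    rw [card_erase_of_mem hv] at h1
    have h5 : 0 < S.card := card_pos.2 hne
    have h6 : N.card * N.card ≤ 4 := by nlinarith
    omega

def A1 : H.Subgraph := (⊤ : H.Subgraph).induce {x | x = 0 ∨ x = 1 ∨ x = 2}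

def A2 : H.Subgraph := (⊤ : H.Subgraph).induce {x | x ≠ 0}

theorem sup12 : A1 ⊔ A2 = ⊤ := by
  ext x y
  · simp only [A1, A2, SimpleGraph.Subgraph.verts_sup, SimpleGraph.Subgraph.induce_verts,
      SimpleGraph.Subgraph.verts_top, Set.mem_union, Set.mem_ofPred_eq, Set.mem_univ]
    revert x
    decide
  · simp only [A1, A2, SimpleGraph.Subgraph.sup_adj, SimpleGraph.Subgraph.induce_adj,
      SimpleGraph.Subgraph.top_adj, Set.mem_ofPred_eq]
    revert x y
    decide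

theorem dis12 : ∀ u v, A1.Adj u v → ¬ A2.Adj u v := by
  simp only [A1, A2, SimpleGraph.Subgraph.induce_adj, SimpleGraph.Subgraph.top_adj, Set.mem_ofPred_eq]
  decide

theorem int12 : (A1.verts ∩ A2.verts).ncard ≤ 2 := by
  have : A1.verts ∩ A2.verts = {1, 2} := by
    ext x
    simp only [A1, A2, SimpleGraph.Subgraph.induce_verts, Set.mem_inter_iff, Set.mem_ofPred_eq,
      Set.mem_insert_iff, Set.mem_singleton_iff]
    revert x
    decide
  rw [this, Set.ncard_pair (by decide)]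

theorem m0 : (0 : Fin 5) ∈ A1.verts ∧ (0 : Fin 5) ∉ A2.verts := by simp [A1, A2]

theorem m3 : (3 : Fin 5) ∈ A2.verts ∧ (3 : Fin 5) ∉ A1.verts := by
  simp only [A1, A2, SimpleGraph.Subgraph.induce_verts, Set.mem_ofPred_eq]
  decide


/-- The negation of the preceding statement: For every k and every nonempty k-degenerate graph H with flap number f (1 if H has no (≤k)-separation, else the max number of pairwise independent ones), the max number of copies of H in an n-vertex k-degenerate graph is Θ(n^f). -/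
theorem result :
    ¬ (∀ (k : ℕ) (V : Type) [Fintype V] [Nonempty V] (H : SimpleGraph V),
    (∀ S : Finset V, S.Nonempty → ∃ v ∈ S, {w : V | w ∈ S ∧ H.Adj v w}.ncard ≤ k) →
    ∀ f : ℕ,
      (((¬ ∃ A B : H.Subgraph, A ⊔ B = ⊤ ∧ (∀ u v, A.Adj u v → ¬ B.Adj u v) ∧
            (∃ v, v ∈ A.verts ∧ v ∉ B.verts) ∧ (∃ v, v ∈ B.verts ∧ v ∉ A.verts) ∧
            (A.verts ∩ B.verts).ncard ≤ k) ∧ f = 1) ∨
       ((∃ A B : H.Subgraph, A ⊔ B = ⊤ ∧ (∀ u v, A.Adj u v → ¬ B.Adj u v) ∧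
            (∃ v, v ∈ A.verts ∧ v ∉ B.verts) ∧ (∃ v, v ∈ B.verts ∧ v ∉ A.verts) ∧
            (A.verts ∩ B.verts).ncard ≤ k) ∧
         IsGreatest {m : ℕ | ∃ A B : Fin m → H.Subgraph,
            (∀ i, A i ⊔ B i = ⊤ ∧ (∀ u v, (A i).Adj u v → ¬ (B i).Adj u v) ∧
              (∃ v, v ∈ (A i).verts ∧ v ∉ (B i).verts) ∧
              (∃ v, v ∈ (B i).verts ∧ v ∉ (A i).verts) ∧
              ((A i).verts ∩ (B i).verts).ncard ≤ k) ∧
            ∀ i j, i ≠ j →
              (∀ u v, (A i).Adj u v → ¬ (A j).Adj u v) ∧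
              ∀ v, v ∈ (A i).verts → v ∉ (B i).verts → ¬ (v ∈ (A j).verts ∧ v ∉ (B j).verts)} f)) →
      ∃ c₁ c₂ : ℝ, 0 < c₁ ∧ 0 < c₂ ∧ ∃ N : ℕ, ∀ n : ℕ, N ≤ n →
        (∃ G : SimpleGraph (Fin n),
            (∀ S : Finset (Fin n), S.Nonempty → ∃ v ∈ S, {w : Fin n | w ∈ S ∧ G.Adj v w}.ncard ≤ k) ∧
            c₁ * (n : ℝ) ^ f ≤
              (({φ : V ↪ Fin n | ∀ u v, H.Adj u v → G.Adj (φ u) (φ v)}.ncard : ℕ) : ℝ)) ∧
        ∀ G : SimpleGraph (Fin n),
            (∀ S : Finset (Fin n), S.Nonempty → ∃ v ∈ S, {w : Fin n | w ∈ S ∧ G.Adj v w}.ncard ≤ k) →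
            (({φ : V ↪ Fin n | ∀ u v, H.Adj u v → G.Adj (φ u) (φ v)}.ncard : ℕ) : ℝ) ≤ c₂ * (n : ℝ) ^ f) := by
  intro h
  set M : Set ℕ := {m : ℕ | ∃ A B : Fin m → H.Subgraph,
            (∀ i, A i ⊔ B i = ⊤ ∧ (∀ u v, (A i).Adj u v → ¬ (B i).Adj u v) ∧
              (∃ v, v ∈ (A i).verts ∧ v ∉ (B i).verts) ∧
              (∃ v, v ∈ (B i).verts ∧ v ∉ (A i).verts) ∧
              ((A i).verts ∩ (B i).verts).ncard ≤ 2) ∧
            ∀ i j, i ≠ j →
              (∀ u v, (A i).Adj u v → ¬ (A j).Adj u v) ∧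
              ∀ v, v ∈ (A i).verts → v ∉ (B i).verts → ¬ (v ∈ (A j).verts ∧ v ∉ (B j).verts)} with hM
  have h2 : 2 ∈ M := by
    refine ⟨![A1, A2], ![A2, A1], ?_, ?_⟩
    · intro i
      fin_cases i
      · exact ⟨sup12, dis12, ⟨0, m0⟩, ⟨3, m3⟩, int12⟩
      · exact ⟨(sup_comm _ _).trans sup12, fun u v a b => dis12 u v b a, ⟨3, m3⟩, ⟨0, m0⟩,
          (Set.inter_comm _ _) ▸ int12⟩
    · intro i j hij
      fin_cases i <;> fin_cases j
      · exact absurd rfl hij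
      · exact ⟨dis12, fun v _ b c => b c.1⟩
      · exact ⟨fun u v a b => dis12 u v b a, fun v _ b c => b c.1⟩
      · exact absurd rfl hij
  have hb : BddAbove M := by
    refine ⟨5, fun m hm => ?_⟩
    obtain ⟨A, B, p, q⟩ := hm
    choose v hv using fun i => (p i).2.2.1
    have : Function.Injective v := by
      intro i j e
      by_contra hij
      exact (q i j hij).2 (v i) (hv i).1 (hv i).2 (e ▸ hv j)
    simpa using Fintype.card_le_of_injective v this
  have hf : 2 ≤ sSup M := le_csSup hb h2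
  obtain ⟨c₁, c₂, hc, -, N, hN⟩ := h 2 (Fin 5) H (by
      intro S hS
      have key : ∀ S : Finset (Fin 5), S.Nonempty → ∃ v ∈ S, (S.filter (fun w => H.Adj v w)).card ≤ 2 := by
        decide
      obtain ⟨v, hv, hle⟩ := key S hS
      refine ⟨v, hv, ?_⟩
      have : {w : Fin 5 | w ∈ S ∧ H.Adj v w} = (S.filter (fun w => H.Adj v w) : Set (Fin 5)) := by
        ext w
        simp
      rwa [this, Set.ncard_coe_finset]) (sSup M)
    (Or.inr ⟨⟨A1, A2, sup12, dis12, ⟨0, m0⟩, ⟨3, m3⟩, int12⟩,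
      Nat.sSup_mem ⟨2, h2⟩ hb, fun m hm => le_csSup hb hm⟩)
  obtain ⟨K, hK⟩ := exists_nat_gt (16 / c₁)
  obtain ⟨⟨G, hG, hle⟩, -⟩ := hN (N + K + 1) (by omega)
  have h1 := E_card G hG Finset.univ
  have e : {φ : Fin 5 ↪ Fin (N + K + 1) | ∀ u v, H.Adj u v → G.Adj (φ u) (φ v)} =
      (E G Finset.univ : Set _) := by
    ext φ
    simp [E]
  rw [e, Set.ncard_coe_finset] at hle
  rw [Finset.card_univ, Fintype.card_fin] at h1
  have h3 : ((E G Finset.univ).card : ℝ) ≤ 16 * ((N + K + 1 : ℕ) : ℝ) := by exact_mod_cast h1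
  have hn : (1 : ℝ) ≤ ((N + K + 1 : ℕ) : ℝ) := by exact_mod_cast (by omega)
  have hn2 : (K : ℝ) ≤ ((N + K + 1 : ℕ) : ℝ) := by exact_mod_cast (by omega)
  set x : ℝ := ((N + K + 1 : ℕ) : ℝ)
  have h4 : x ^ 2 ≤ x ^ sSup M := pow_le_pow_right₀ hn hf
  rw [div_lt_iff₀ hc] at hK
  have h5 : c₁ * x ^ 2 ≤ 16 * x := (mul_le_mul_of_nonneg_left h4 hc.le).trans (hle.trans h3)
  nlinarith [mul_le_mul_of_nonneg_left hn2 hc.le]

end Pool.Agent.S09798
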