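import Pool.Statements.S09801
import Pool.Agent.Lib.helper13.SPRoot

set_option autoImplicit false
open Pool Pool.MP_8269f7_co

namespace Pool.Agent.S09801

open Finset Classical H13K4 H13SP in
theorem Zc_col {n : ℕ} (G : SimpleGraph (Fin n)) (q : ℕ) :
    Zc (fun e => if e ∈ G.edgeSet then (0 : ℂ) else 1) q = (Nat.card (G.Coloring (Fin q)) : ℂ) := by
  have e : G.Coloring (Fin q) ≃ {σ : Fin n → Fin q // ∀ a b, G.Adj a b → σ a ≠ σ b} :=
    { toFun := fun c => ⟨c, fun a b h => c.valid h⟩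
      invFun := fun σ => SimpleGraph.Coloring.mk σ.1 (fun h => σ.2 _ _ h)
      left_inv := fun c => by ext; rfl
      right_inv := fun σ => by ext; rfl }
  rw [Nat.card_congr e, Nat.card_eq_fintype_card, Fintype.card_subtype, Finset.card_filter,
    Nat.cast_sum, Zc]
  refine Finset.sum_congr (by ext; simp) ?_
  intro σ _
  unfold Wt
  by_cases h : ∀ a b, G.Adj a b → σ a ≠ σ b
  · rw [if_pos h, Nat.cast_one]
    apply Finset.prod_eq_one
    intro e _
    induction e using Sym2.ind with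
    | h a b =>
      by_cases hm : mono σ s(a, b)
      · rw [if_pos hm]
        exact if_neg (fun hab => h a b hab ((mono_mk σ a b).1 hm))
      · rw [if_neg hm]
  · rw [if_neg h, Nat.cast_zero]
    push Not at h
    obtain ⟨a, b, hab, hσ⟩ := h
    apply Finset.prod_eq_zero (mem_univ s(a, b))
    rw [if_pos ((mono_mk σ a b).2 hσ)]
    exact if_pos hab

theorem numerics (k : ℕ) (hk : 2 ≤ k) (Q : ℝ) (hQ : 576 * k / Real.log k < Q) :
    ∃ (k' : ℕ) (M : ℝ), k ≤ k' ∧ (0 : ℝ) < k' ∧ 1 ≤ M ∧ 12 * M ≤ Q ∧ 6 * M ^ 2 ≤ k' ∧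
      Real.exp (4 * k' / Q) ≤ M := by
  have hk2 : (2 : ℝ) ≤ k := by exact_mod_cast hk
  have hl : 0 < Real.log k := Real.log_pos (by linarith)
  have hl2 : Real.log k ≤ k := (Real.log_le_sub_one_of_pos (by linarith)).trans (by linarith)
  obtain ⟨k', h1, h2, h3⟩ : ∃ k' : ℕ, k ≤ k' ∧ 36 ≤ k' ∧ 16 * (k' : ℝ) ≤ Q * Real.log k' := by
    rw [div_lt_iff₀ hl] at hQ
    by_cases h : 36 ≤ k
    · exact ⟨k, le_rfl, h, by linarith⟩
    · refine ⟨36, by omega, le_rfl, ?_⟩
      have h4 : 1 ≤ Real.log ((36 : ℕ) : ℝ) := by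
        rw [Real.le_log_iff_exp_le (by norm_num)]
        have := Real.exp_one_lt_three
        push_cast
        linarith
      have h5 : 576 ≤ Q := by
        by_contra h6
        push Not at h6
        nlinarith
      push_cast at h4 ⊢
      nlinarith
  have h36 : (36 : ℝ) ≤ k' := by exact_mod_cast h2
  have hL : 0 < Real.log k' := Real.log_pos (by linarith)
  set L := Real.log k' with hLdef
  have hQ0 : 0 < Q := by
    by_contra h
    push Not at h
    nlinarith
  set M := Real.exp (L / 4) with hM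
  have hM4 : M ^ 4 = k' := by
    rw [hM, ← Real.exp_nat_mul]
    have : ((4 : ℕ) : ℝ) * (L / 4) = L := by push_cast; ring
    rw [this, hLdef, Real.exp_log (by linarith)]
  have hM1 : L / 4 + 1 ≤ M := Real.add_one_le_exp _
  have hM0 : 1 ≤ M := by linarith
  have hM2 : 6 ≤ M ^ 2 := by
    by_contra h
    push Not at h
    nlinarith [sq_nonneg M]
  refine ⟨k', M, h1, by linarith, hM0, ?_, by nlinarith, ?_⟩
  · by_contra h
    push Not at h
    have h4 : Q * L ≤ 12 * M * (4 * M) := by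
      apply mul_le_mul h.le (by linarith) hL.le (by linarith)
    nlinarith
  · rw [hM, Real.exp_le_exp, div_le_div_iff₀ hQ0 (by norm_num)]
    linarith

/-- There is a constant C such that for every k ≥ 2, every complex chromatic root of every finite simple graph with no K4 minor and maximum degree at most k has modulus at most C·k/log k. -/
theorem result :
    ∃ C : ℝ, ∀ k : ℕ, 2 ≤ k → ∀ n : ℕ, ∀ G : SimpleGraph (Fin n),
      (¬ ∃ f : Fin 4 → Set (Fin n),
          (∀ i, (G.induce (f i)).Connected) ∧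
          (∀ i j, i ≠ j → Disjoint (f i) (f j)) ∧
          (∀ i j, i ≠ j → ∃ x ∈ f i, ∃ y ∈ f j, G.Adj x y)) →
      (∀ v, (G.neighborSet v).ncard ≤ k) →
      ∀ P : Polynomial ℂ,
        (∀ q : ℕ, 0 < q → P.eval (q : ℂ) = (Nat.card (G.Coloring (Fin q)) : ℂ)) →
        ∀ z : ℂ, P.eval z = 0 → ‖z‖ ≤ C * k / Real.log k := by
  classical
  refine ⟨576, fun k hk n G hG hdeg P hP z hz => ?_⟩
  by_contra hcon
  obtain ⟨k', M, h1, h2, h3, h4, h5, h6⟩ := numerics k hk ‖z‖ (not_le.mp hcon)
  have hK : ¬ H13K4.HasK4 G := by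
    rintro ⟨f, hc, hd, ha⟩
    refine hG ⟨f, fun i => (hc i).connected ?_, hd, ha⟩
    obtain ⟨j, hj⟩ := exists_ne i
    obtain ⟨x, hx, _⟩ := ha i j hj.symm
    exact ⟨x, hx⟩
  obtain ⟨P', hP', hne⟩ := H13SP.main k' M z h2 h3 h4 h5 h6 n 0 Finset.univ G
    (fun e => if e ∈ G.edgeSet then (0 : ℂ) else 1) (by simp) (by simp) (by simp) hK
    (fun p r h => if_neg h)
  have hPP : P = P' := H13SP.poly_ext 0 (fun q hq => by rw [← hP' q hq, Zc_col, hP q hq]; simp)
  refine hne (fun p r => if G.Adj p r then 1 else 0) ⟨fun p => ?_, fun p r h => by simp [h],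
    fun p r => ?_⟩ (hPP ▸ hz)
  · refine le_trans (le_of_eq ?_) ((hdeg p).trans h1)
    rw [← Finset.card_filter, ← Set.ncard_coe_finset]
    congr 1
    ext r
    simp
  · by_cases h : G.Adj p r
    · left; exact if_pos h
    · right
      have : (if s(p, r) ∈ G.edgeSet then (0 : ℂ) else 1) = 1 := if_neg h
      rw [this, sub_self, norm_zero, add_zero]
      apply Real.one_le_exp
      have : 0 ≤ M := by linarith
      positivity

end Pool.Agent.S09801
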