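import Pool.Statements.S09850
import Pool.Agent.H33.Lucky

set_option autoImplicit false
open Pool Pool.MP_84c3f1_co

namespace Pool.Agent.S09850

/-- The negation of the preceding statement: There is a constant C such that every finite bipartite graph has a labeling of its vertices by integers 1..C where any two adjacent vertices have different sums of labels over their neighbourhoods. -/
theorem result :
    ¬ (∃ C : ℕ, ∀ (V : Type) [Fintype V] (G : SimpleGraph V) [DecidableRel G.Adj],
      G.Colorable 2 →
        ∃ f : V → ℕ, (∀ v, 1 ≤ f v ∧ f v ≤ C) ∧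
          ∀ u v, G.Adj u v →
            ∑ w ∈ G.neighborFinset u, f w ≠ ∑ w ∈ G.neighborFinset v, f w) := by
  rintro ⟨C, hC⟩
  obtain ⟨V, iV, G, hcol, h⟩ := Pool.Agent.H33.Lucky.graph C
  classical
  obtain ⟨f, hf, hne⟩ := hC V G hcol
  obtain ⟨u, v, huv, he⟩ := h f hf
  apply hne u v huv
  have key : ∀ z, ∑ w ∈ G.neighborFinset z, f w =
      ∑ w, @ite ℕ (G.Adj z w) (Classical.propDecidable _) (f w) 0 := by
    intro z
    rw [← Finset.sum_filter]
    refine Finset.sum_congr ?_ fun _ _ => rfl
    ext w; simp
  rw [key, key]
  exact he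

end Pool.Agent.S09850
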