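import Pool.Statements.S09866
import Pool.Agent.Lib.helper19.Clique

set_option autoImplicit false
open SimpleGraph
open Pool Pool.MP_85b484_co

namespace Pool.Agent.S09866
open Pool.Agent.H19Clique

/-- Necklace of four diamonds closed by an edge. -/
def adjN (u v : ℕ) : Bool :=
  (u != v) && ((u / 3 == v / 3) || (v % 3 == 0 && u < v && v ≤ u + 2) ||
    (u % 3 == 0 && v < u && u ≤ v + 2) || (u == 0 && v == 12) || (u == 12 && v == 0))

def G : SimpleGraph (Fin 13) where
  Adj u v := adjN u.val v.val = true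
  symm := ⟨by
    intro u v
    revert u v
    decide⟩
  loopless := ⟨by
    intro u
    revert u
    decide⟩

instance : DecidableRel G.Adj := fun u v => inferInstanceAs (Decidable (adjN u.val v.val = true))

def star (s : ℕ × ℕ × ℕ) : Bool :=
  (s.2.1 == s.1 || adjN s.1 s.2.1) && (s.2.2 == s.1 || adjN s.1 s.2.2) && s.2.1 ≤ s.2.2

def L : List (ℕ × ℕ × ℕ) :=
  ((List.range 13).flatMap fun x => (List.range 13).flatMap fun y =>
    (List.range 13).map fun z => (x, y, z)).filter star

def els (s : ℕ × ℕ × ℕ) : List ℕ := [s.1, s.2.1, s.2.2]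

def compat (s t : ℕ × ℕ × ℕ) : Bool :=
  ((els s).all fun u => (els t).all fun v => u != v) &&
    ((els s).any fun u => (els t).any fun v => adjN u v)

set_option maxRecDepth 100000 in
theorem check_true : force L (noClique compat 4) = true := by decide +kernel

theorem centre' (B : Finset (Fin 13)) (hc : B.card ≤ 3)
    (hB : (G.induce (B : Set (Fin 13))).Connected) :
    ∃ x y z : Fin 13, B = {x, y, z} ∧ (x.val, y.val, z.val) ∈ L := by
  obtain ⟨x, y, z, hB, hy, hz⟩ := centre G B hc hB
  have main : ∀ x y z : Fin 13, (y = x ∨ G.Adj x y) → (z = x ∨ G.Adj x z) → y ≤ z →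
      (x.val, y.val, z.val) ∈ L := by
    intro x y z hy hz hyz
    unfold L
    rw [List.mem_filter]
    constructor
    · simp only [List.mem_flatMap, List.mem_map, List.mem_range]
      exact ⟨x.val, x.isLt, y.val, y.isLt, z.val, z.isLt, rfl⟩
    · simp only [star, Bool.and_eq_true, Bool.or_eq_true, beq_iff_eq, decide_eq_true_eq]
      refine ⟨⟨?_, ?_⟩, hyz⟩
      · rcases hy with h | h
        · left; rw [h]
        · right; exact h
      · rcases hz with h | h
        · left; rw [h]
        · right; exact h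
  rcases le_total y z with h | h
  · exact ⟨x, y, z, hB, main x y z hy hz h⟩
  · exact ⟨x, z, y, by rw [hB, Finset.pair_comm], main x z y hz hy h⟩

theorem not_col3 (c : Fin 13 → Fin 3) (hc : ∀ u v, G.Adj u v → c u ≠ c v) : False := by
  have dia : ∀ a b c' d : Fin 3, a ≠ b → a ≠ c' → b ≠ c' → b ≠ d → c' ≠ d → a = d := by decide
  have h1 := dia _ _ _ _ (hc 0 1 (by decide)) (hc 0 2 (by decide)) (hc 1 2 (by decide))
    (hc 1 3 (by decide)) (hc 2 3 (by decide))
  have h2 := dia _ _ _ _ (hc 3 4 (by decide)) (hc 3 5 (by decide)) (hc 4 5 (by decide))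
    (hc 4 6 (by decide)) (hc 5 6 (by decide))
  have h3 := dia _ _ _ _ (hc 6 7 (by decide)) (hc 6 8 (by decide)) (hc 7 8 (by decide))
    (hc 7 9 (by decide)) (hc 8 9 (by decide))
  have h4 := dia _ _ _ _ (hc 9 10 (by decide)) (hc 9 11 (by decide)) (hc 10 11 (by decide))
    (hc 10 12 (by decide)) (hc 11 12 (by decide))
  exact hc 0 12 (by decide) (h1.trans (h2.trans (h3.trans h4)))

theorem no_hole (k : ℕ) (hk : 9 ≤ 2 * k) : IsEmpty (SimpleGraph.cycleGraph (2 * k + 1) ↪g G) := by
  refine ⟨fun f => ?_⟩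
  have hle : 2 * k + 1 ≤ 13 := by
    simpa using Fintype.card_le_of_injective f f.injective
  let cls : Fin 13 → Fin 5 := fun v => ⟨v.val / 3, by omega⟩
  obtain ⟨y, hy⟩ := Fintype.exists_lt_card_fiber_of_mul_lt_card (fun i => cls (f i)) (n := 2)
    (by simp; omega)
  obtain ⟨a, b, c, ha, hb, hc, hab, hac, hbc⟩ := Finset.two_lt_card_iff.mp hy
  simp only [Finset.mem_filter, Finset.mem_univ, true_and] at ha hb hc
  have same0 : ∀ u v : Fin 13, u ≠ v → u.val / 3 = v.val / 3 → G.Adj u v := by decide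
  have same : ∀ u v : Fin 13, u ≠ v → cls u = cls v → G.Adj u v :=
    fun u v h1 h2 => same0 u v h1 (congrArg Fin.val h2)
  have e1 := f.map_adj_iff.mp (same _ _ (f.injective.ne hab) (ha.trans hb.symm))
  have e2 := f.map_adj_iff.mp (same _ _ (f.injective.ne hac) (ha.trans hc.symm))
  have e3 := f.map_adj_iff.mp (same _ _ (f.injective.ne hbc) (hb.trans hc.symm))
  obtain rfl | rfl : k = 5 ∨ k = 6 := by omega
  · have : ∀ a b c : Fin (2 * 5 + 1), (cycleGraph (2 * 5 + 1)).Adj a b →
      (cycleGraph (2 * 5 + 1)).Adj a c → (cycleGraph (2 * 5 + 1)).Adj b c → False := by decide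
    exact this a b c e1 e2 e3
  · have : ∀ a b c : Fin (2 * 6 + 1), (cycleGraph (2 * 6 + 1)).Adj a b →
      (cycleGraph (2 * 6 + 1)).Adj a c → (cycleGraph (2 * 6 + 1)).Adj b c → False := by decide
    exact this a b c e1 e2 e3

theorem result :
    ¬ (∀ m : ℕ, 2 ≤ m → ∀ (V : Type) [Fintype V] (G : SimpleGraph V),
    (∀ S : Finset V, ∃ t : ℕ, (G.induce (S : Set V)).Colorable t ∧
      ∃ f : Fin t → Finset V,
        (∀ i, f i ⊆ S ∧ (f i).card ≤ m ∧ (G.induce ((f i : Finset V) : Set V)).Connected) ∧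
        ∀ i j, i ≠ j → Disjoint (f i) (f j) ∧ ∃ u ∈ f i, ∃ v ∈ f j, G.Adj u v)
    ↔ (∀ k : ℕ, 3 * m ≤ 2 * k → IsEmpty (SimpleGraph.cycleGraph (2 * k + 1) ↪g G))) := by
  intro h
  obtain ⟨t, hcol, f, hf, hff⟩ := (h 3 (by norm_num) (Fin 13) G).mpr
    (fun k hk => no_hole k hk) Finset.univ
  have ht : 4 ≤ t := by
    by_contra hlt
    obtain ⟨c⟩ := hcol.mono (show t ≤ 3 by omega)
    exact not_col3 (fun v => c ⟨v, by simp⟩) (fun u v huv => c.valid (by simpa using huv))
  choose x y z hxyz hL using fun i => centre' (f i) (hf i).2.1 (hf i).2.2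
  let s : Fin t → ℕ × ℕ × ℕ := fun i => ((x i).val, (y i).val, (z i).val)
  have hcomp : ∀ i j, i ≠ j → compat (s i) (s j) = true := by
    intro i j hij
    obtain ⟨hd, u, hu, v, hv, huv⟩ := hff i j hij
    have hels : ∀ i (n : ℕ), n ∈ els (s i) ↔ ∃ w ∈ f i, w.val = n := by
      intro i n
      rw [hxyz i]
      simp only [els, s, List.mem_cons, List.not_mem_nil, or_false, Finset.mem_insert,
        Finset.mem_singleton, exists_eq_or_imp, exists_eq_left, eq_comm]
    simp only [compat, Bool.and_eq_true, List.all_eq_true, List.any_eq_true, bne_iff_ne]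
    constructor
    · intro a ha b hb hab
      obtain ⟨w, hw, rfl⟩ := (hels i a).mp ha
      obtain ⟨w', hw', h'⟩ := (hels j b).mp hb
      have : w' = w := Fin.ext (h'.trans hab.symm)
      exact Finset.disjoint_left.mp hd hw (this ▸ hw')
    · exact ⟨u.val, (hels i _).mpr ⟨u, hu, rfl⟩, v.val, (hels j _).mpr ⟨v, hv, rfl⟩, huv⟩
  have hinj : Function.Injective s := by
    intro i j hij
    by_contra hne
    have := hcomp i j hne
    rw [hij] at this
    simp [compat, els] at this
  have hc := check_true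
  rw [force_eq] at hc
  let e : Fin 4 → Fin t := fun i => ⟨i.val, by omega⟩
  have he : Function.Injective e := by
    intro i j hij
    exact Fin.ext (by simpa [e] using hij)
  refine noClique_spec compat 4 L hc (Finset.univ.image (s ∘ e)) ?_ ?_ ?_
  · rw [Finset.card_image_of_injective _ (hinj.comp he)]; simp
  · intro a ha
    obtain ⟨i, _, rfl⟩ := Finset.mem_image.mp ha
    exact hL _
  · intro a ha b hb hab
    obtain ⟨i, _, rfl⟩ := Finset.mem_image.mp ha
    obtain ⟨j, _, rfl⟩ := Finset.mem_image.mp hb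
    exact hcomp _ _ (fun h => hab (by simp [h]))

end Pool.Agent.S09866
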