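import Pool.Statements.S09896

set_option autoImplicit false
open Pool Pool.MP_86c288_co

namespace Pool.Agent.S09896

section aux

variable {V : Type}

/-- a complete colouring with five colours for the relation `A` -/
def Comp5 (A : V → V → Prop) : Prop :=
  ∃ f : V → Fin 5, ∀ i j : Fin 5, i ≠ j → ∃ u v, A u v ∧ f u = i ∧ f v = j

def col (n i : ℕ) : ℕ := n / 5 ^ i % 5

def pairOK (E : List (ℕ × ℕ)) (n s t : ℕ) : Bool :=
  E.any (fun e => (col n e.1 == s && col n e.2 == t) || (col n e.1 == t && col n e.2 == s))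

def prs : List (ℕ × ℕ) :=
  [(0, 1), (0, 2), (0, 3), (0, 4), (1, 2), (1, 3), (1, 4), (2, 3), (2, 4), (3, 4)]

def good (E : List (ℕ × ℕ)) (n : ℕ) : Bool := prs.all (fun p => pairOK E n p.1 p.2)

theorem comp_of_good (A : V → V → Prop) (hs : ∀ x y, A x y → A y x) (φ : ℕ → V)
    (E : List (ℕ × ℕ)) (N : Set ℕ) (hinj : Set.InjOn φ N)
    (hE : ∀ e ∈ E, e.1 ∈ N ∧ e.2 ∈ N ∧ A (φ e.1) (φ e.2)) (n : ℕ) (hg : good E n = true) :
    Comp5 A := by
  classical
  let f : V → Fin 5 := fun x =>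
    if h : ∃ i ∈ N, φ i = x then ⟨col n h.choose, Nat.mod_lt _ (by norm_num)⟩ else 0
  have hf : ∀ i ∈ N, (f (φ i)).1 = col n i := by
    intro i hi
    have h : ∃ j ∈ N, φ j = φ i := ⟨i, hi, rfl⟩
    have := hinj h.choose_spec.1 hi h.choose_spec.2
    simp only [f, dif_pos h, this]
  have key : ∀ s t : Fin 5, s < t → ∃ u v, A u v ∧ f u = s ∧ f v = t := by
    intro s t hst
    have hmem : (s.1, t.1) ∈ prs := by
      revert s t
      decide
    have := List.all_eq_true.1 hg _ hmem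
    obtain ⟨e, he, h⟩ := List.any_eq_true.1 this
    obtain ⟨h1, h2, h3⟩ := hE e he
    simp only [Bool.or_eq_true, Bool.and_eq_true, beq_iff_eq] at h
    rcases h with h | h
    · exact ⟨_, _, h3, Fin.ext (by rw [hf _ h1, h.1]), Fin.ext (by rw [hf _ h2, h.2])⟩
    · exact ⟨_, _, hs _ _ h3, Fin.ext (by rw [hf _ h2, h.2]), Fin.ext (by rw [hf _ h1, h.1])⟩
  refine ⟨f, fun i j hij => ?_⟩
  rcases lt_or_gt_of_ne hij with h | h
  · exact key i j h
  · obtain ⟨u, v, h1, h2, h3⟩ := key j i h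
    exact ⟨v, u, hs _ _ h1, h3, h2⟩

theorem exists_rep (φ : ℕ → V) : ∃ r : ℕ → ℕ, (∀ i, φ (r i) = φ i) ∧ (∀ i, r i ≤ i) ∧
    (∀ i j, φ i = φ j → r i = r j) := by
  classical
  refine ⟨fun i => Nat.find (⟨i, rfl⟩ : ∃ j, φ j = φ i), fun i => Nat.find_spec
    (⟨i, rfl⟩ : ∃ j, φ j = φ i), fun i => Nat.find_min' _ rfl, fun i j h => ?_⟩
  simp only [h]

/-- closed walks of length `L` -/
def CW (B : V → V → Prop) (L : ℕ) : Prop :=
  ∃ f : ℕ → V, f L = f 0 ∧ ∀ i < L, B (f i) (f (i + 1))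

theorem short1 (B : V → V → Prop) (f : ℕ → V) (L : ℕ) (h0 : f L = f 0)
    (hf : ∀ i < L, B (f i) (f (i + 1))) (i d : ℕ) (hj : i + d ≤ L) (h : f i = f (i + d)) :
    CW B d ∧ CW B (L - d) := by
  constructor
  · exact ⟨fun t => f (i + t), h.symm, fun t ht => hf (i + t) (by omega)⟩
  · refine ⟨fun t => if t ≤ i then f t else f (t + d), ?_, fun t ht => ?_⟩
    · by_cases h1 : L - d ≤ i
      · have e : L - d = i := by omega
        have e2 : i + d = L := by omega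
        simp only [e, le_refl, if_true, Nat.zero_le]
        rw [h, e2, h0]
      · simp only [h1, if_false, Nat.zero_le, if_true]
        rw [show L - d + d = L by omega, h0]
    · by_cases h1 : t + 1 ≤ i
      · simp only [h1, show t ≤ i by omega, if_true]
        exact hf t (by omega)
      · by_cases h2 : t ≤ i
        · have e : t = i := by omega
          subst e
          simp only [h1, le_refl, if_true, if_false]
          rw [h, show t + 1 + d = t + d + 1 by omega]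
          exact hf _ (by omega)
        · simp only [h1, h2, if_false]
          rw [show t + 1 + d = t + d + 1 by omega]
          exact hf _ (by omega)

theorem short2 (B : V → V → Prop) (hs : ∀ x y, B x y → B y x) (f : ℕ → V) (L : ℕ)
    (h0 : f L = f 0) (hf : ∀ i < L, B (f i) (f (i + 1))) (i d : ℕ) (hj : i + (d + 1) ≤ L)
    (h : B (f i) (f (i + (d + 1)))) : CW B (d + 2) ∧ CW B (L - d) := by
  constructor
  · refine ⟨fun t => if t ≤ d + 1 then f (i + t) else f i, by simp, fun t ht => ?_⟩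
    by_cases h1 : t + 1 ≤ d + 1
    · simp only [h1, show t ≤ d + 1 by omega, if_true]
      exact hf (i + t) (by omega)
    · have e : t = d + 1 := by omega
      subst e
      simp only [h1, le_refl, if_true, if_false]
      exact hs _ _ h
  · refine ⟨fun t => if t ≤ i then f t else f (t + d), ?_, fun t ht => ?_⟩
    · simp only [show ¬ L - d ≤ i by omega, if_false, Nat.zero_le, if_true]
      rw [show L - d + d = L by omega, h0]
    · by_cases h1 : t + 1 ≤ i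
      · simp only [h1, show t ≤ i by omega, if_true]
        exact hf t (by omega)
      · by_cases h2 : t ≤ i
        · have e : t = i := by omega
          subst e
          simp only [h1, le_refl, if_true, if_false]
          rw [show t + 1 + d = t + (d + 1) by omega]
          exact h
        · simp only [h1, h2, if_false]
          rw [show t + 1 + d = t + d + 1 by omega]
          exact hf _ (by omega)

def E5 (p0 p1 p2 p3 p4 : ℕ) : List (ℕ × ℕ) :=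
  [(0, 1), (1, 2), (2, 3), (3, 4), (4, 0), (0, p0), (1, p1), (2, p2), (3, p3), (4, p4),
    (5, 6), (5, 7), (5, 8)]

def tbl1 : List ℕ :=
  [4456667320, 1415420900, 1903389650, 6074099005, 3550069771, 3838699570, 6097099005,
    1884108400, 6060114630, 1699403466, 6031224025, 6102183400, 4637590551, 4086969289,
    6101292775, 6003474025, 3465777150, 1877885022, 4061708400, 1211683400, 6050599025,
    5999192775, 1301861289, 5943239650, 5915458400, 4783083380, 4068317775, 3167104525,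
    1805855275, 1509108400, 1503870900]

def tbl2 : List ℕ :=
  [9351400, 7788900, 9663900, 1867555, 777130, 6627160, 5174304, 8227613, 1555055, 1902130,
    1790658, 1438246, 643460, 3618813, 7726910, 5376801, 1930055, 1714630, 5336902, 1405275,
    1842780, 1092775, 1780280]

def cond1 (p0 p1 p2 p3 p4 : ℕ) : Prop :=
  p0 ≠ p1 ∧ (p1 = 9 → p0 = 9) ∧ p1 ≠ p2 ∧ (p2 = 9 → p0 = 9) ∧ (p2 = 10 → p1 = 10) ∧
    p2 ≠ p3 ∧ (p3 = 9 → p0 = 9) ∧ (p3 = 10 → p1 = 10) ∧ (p3 = 11 → p2 = 11) ∧ p3 ≠ p4 ∧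
    p4 ≠ p0 ∧ (p4 = 9 → p0 = 9) ∧ (p4 = 10 → p1 = 10) ∧ (p4 = 11 → p2 = 11) ∧
    (p4 = 12 → p3 = 12) ∧ ¬ (p0 ≤ 8 ∧ p1 ≤ 8 ∧ p2 ≤ 8 ∧ p3 ≤ 8 ∧ p4 ≤ 8)

set_option synthInstance.maxSize 100000 in
instance (p0 p1 p2 p3 p4 : ℕ) : Decidable (cond1 p0 p1 p2 p3 p4) := by
  unfold cond1; infer_instance

theorem check1b : ((List.range 4).all fun t0 => (List.range 5).all fun t1 =>
    (List.range 6).all fun t2 => (List.range 7).all fun t3 => (List.range 8).all fun t4 =>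
      !(decide (cond1 (t0 + 6) (t1 + 6) (t2 + 6) (t3 + 6) (t4 + 6))) ||
        tbl1.any (good (E5 (t0 + 6) (t1 + 6) (t2 + 6) (t3 + 6) (t4 + 6)))) = true := by
  decide +kernel

theorem check2b : ((List.range 3).all fun t0 => (List.range 3).all fun t1 =>
    (List.range 3).all fun t2 => (List.range 3).all fun t3 => (List.range 3).all fun t4 =>
      (t0 == t1 || t1 == t2 || t2 == t3 || t3 == t4 || t4 == t0) ||
        (List.range 3).any fun x => (List.range 5).any fun j => (List.range 10).all fun q =>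
          (q == 5 || q == j || q == x + 6) ||
            tbl2.any (good ((x + 6, q) :: E5 (t0 + 6) (t1 + 6) (t2 + 6) (t3 + 6) (t4 + 6)))) =
    true := by
  decide +kernel

theorem check1 : ∀ p0 < 10, 6 ≤ p0 → ∀ p1 < 11, 6 ≤ p1 → p0 ≠ p1 → (p1 = 9 → p0 = 9) →
    ∀ p2 < 12, 6 ≤ p2 → p1 ≠ p2 → (p2 = 9 → p0 = 9) → (p2 = 10 → p1 = 10) →
    ∀ p3 < 13, 6 ≤ p3 → p2 ≠ p3 → (p3 = 9 → p0 = 9) → (p3 = 10 → p1 = 10) →
      (p3 = 11 → p2 = 11) →
    ∀ p4 < 14, 6 ≤ p4 → p3 ≠ p4 → p4 ≠ p0 → (p4 = 9 → p0 = 9) → (p4 = 10 → p1 = 10) →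
      (p4 = 11 → p2 = 11) → (p4 = 12 → p3 = 12) →
    (p0 ≤ 8 ∧ p1 ≤ 8 ∧ p2 ≤ 8 ∧ p3 ≤ 8 ∧ p4 ≤ 8) ∨
      tbl1.any (good (E5 p0 p1 p2 p3 p4)) = true := by
  intro p0 a0 b0 p1 a1 b1 c1 c2 p2 a2 b2 c3 c4 c5 p3 a3 b3 c6 c7 c8 c9 p4 a4 b4 d1 d2 d3 d4 d5 d6
  obtain ⟨t0, rfl⟩ := Nat.exists_eq_add_of_le' b0
  obtain ⟨t1, rfl⟩ := Nat.exists_eq_add_of_le' b1
  obtain ⟨t2, rfl⟩ := Nat.exists_eq_add_of_le' b2
  obtain ⟨t3, rfl⟩ := Nat.exists_eq_add_of_le' b3
  obtain ⟨t4, rfl⟩ := Nat.exists_eq_add_of_le' b4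
  have h := check1b
  simp only [List.all_eq_true, List.mem_range, Bool.or_eq_true, Bool.not_eq_true',
    decide_eq_false_iff_not] at h
  rcases h t0 (by omega) t1 (by omega) t2 (by omega) t3 (by omega) t4 (by omega) with h | h
  · left
    by_contra h'
    exact h ⟨c1, c2, c3, c4, c5, c6, c7, c8, c9, d1, d2, d3, d4, d5, d6, h'⟩
  · exact Or.inr h

theorem check2 : ∀ p0 < 9, 6 ≤ p0 → ∀ p1 < 9, 6 ≤ p1 → p0 ≠ p1 →
    ∀ p2 < 9, 6 ≤ p2 → p1 ≠ p2 → ∀ p3 < 9, 6 ≤ p3 → p2 ≠ p3 →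
    ∀ p4 < 9, 6 ≤ p4 → p3 ≠ p4 → p4 ≠ p0 →
    ∃ x < 9, 6 ≤ x ∧ ∃ j < 5, ∀ q < 10, q ≠ 5 → q ≠ j → q ≠ x →
      tbl2.any (good ((x, q) :: E5 p0 p1 p2 p3 p4)) = true := by
  intro p0 a0 b0 p1 a1 b1 _ p2 a2 b2 _ p3 a3 b3 _ p4 a4 b4 _ _
  obtain ⟨t0, rfl⟩ := Nat.exists_eq_add_of_le' b0
  obtain ⟨t1, rfl⟩ := Nat.exists_eq_add_of_le' b1
  obtain ⟨t2, rfl⟩ := Nat.exists_eq_add_of_le' b2
  obtain ⟨t3, rfl⟩ := Nat.exists_eq_add_of_le' b3
  obtain ⟨t4, rfl⟩ := Nat.exists_eq_add_of_le' b4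
  have h := check2b
  simp only [List.all_eq_true, List.mem_range, Bool.or_eq_true, beq_iff_eq] at h
  rcases h t0 (by omega) t1 (by omega) t2 (by omega) t3 (by omega) t4 (by omega) with h | h
  · omega
  · obtain ⟨x, hx, h⟩ := List.any_eq_true.1 h
    obtain ⟨j, hj, h⟩ := List.any_eq_true.1 h
    rw [List.mem_range] at hx hj
    refine ⟨x + 6, by omega, by omega, j, hj, fun q hq _ _ _ => ?_⟩
    have := List.all_eq_true.1 h q (List.mem_range.2 hq)
    simp only [Bool.or_eq_true, beq_iff_eq] at this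
    rcases this with h | h
    · omega
    · exact h

def E7 (q : ℕ) : List (ℕ × ℕ) :=
  [(0, 1), (1, 2), (2, 3), (3, 4), (4, 5), (5, 6), (7, 8), (7, 9), (7, 10), (1, q)]

set_option synthInstance.maxSize 100000 in
theorem check3 : ∀ q < 12, q ≠ 0 → q ≠ 1 → q ≠ 2 → q ≠ 5 → q ≠ 6 → q ≠ 7 →
    [31631680, 31633180, 11320680, 16008180, 178117555].any (good (E7 q)) = true := by
  decide +kernel

theorem case5 (A : V → V → Prop) (hs : ∀ x y, A x y → A y x) (hi : ∀ x, ¬ A x x)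
    (hT : ∀ x y z, A x y → A y z → ¬ A z x)
    (hD : ∀ x y, A x y → ∀ p q, ∃ z, A x z ∧ z ≠ p ∧ z ≠ q)
    (c0 c1 c2 c3 c4 v a b c : V) (h01 : A c0 c1) (h12 : A c1 c2) (h23 : A c2 c3) (h34 : A c3 c4)
    (h40 : A c4 c0) (ha : A v a) (hb : A v b) (hc : A v c)
    (n0 : ¬ A v c0) (n1 : ¬ A v c1) (n2 : ¬ A v c2) (n3 : ¬ A v c3) (n4 : ¬ A v c4)
    (hnd : [c0, c1, c2, c3, c4, v, a, b, c].Nodup) : Comp5 A := by
  obtain ⟨y0, k0, l0, m0⟩ := hD c0 c1 h01 c4 c1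
  obtain ⟨y1, k1, l1, m1⟩ := hD c1 c2 h12 c0 c2
  obtain ⟨y2, k2, l2, m2⟩ := hD c2 c3 h23 c1 c3
  obtain ⟨y3, k3, l3, m3⟩ := hD c3 c4 h34 c2 c4
  obtain ⟨y4, k4, l4, m4⟩ := hD c4 c0 h40 c3 c0
  have hinj : ∀ (l : List V) (i j : ℕ), i < 9 → j < 9 →
      ([c0, c1, c2, c3, c4, v, a, b, c] ++ l).getD i v =
        ([c0, c1, c2, c3, c4, v, a, b, c] ++ l).getD j v → i = j := by
    intro l i j hi hj h
    rw [List.getD_append _ _ _ _ (by simpa using hi), List.getD_append _ _ _ _ (by simpa using hj),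
      List.getD_eq_getElem _ _ (by simpa using hi), List.getD_eq_getElem _ _ (by simpa using hj)]
      at h
    exact (List.Nodup.getElem_inj_iff hnd).1 h
  have out : ∀ (y x0 x1 x2 x3 x4 : V), A x0 x1 → A x1 x2 → A x3 x4 → A x4 x0 → ¬ A v x0 →
      A x0 y → y ≠ x4 → y ≠ x1 → y ≠ x0 ∧ y ≠ x1 ∧ y ≠ x2 ∧ y ≠ x3 ∧ y ≠ x4 ∧ y ≠ v := by
    intro y x0 x1 x2 x3 x4 a01 a12 a34 a40 nv hy e4 e1
    refine ⟨?_, e1, ?_, ?_, e4, ?_⟩
    · rintro rfl; exact hi _ hy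
    · rintro rfl; exact hT _ _ _ a01 a12 (hs _ _ hy)
    · rintro rfl; exact hT _ _ _ hy a34 a40
    · rintro rfl; exact nv (hs _ _ hy)
  have o0 := out y0 c0 c1 c2 c3 c4 h01 h12 h34 h40 n0 k0 l0 m0
  have o1 := out y1 c1 c2 c3 c4 c0 h12 h23 h40 h01 n1 k1 l1 m1
  have o2 := out y2 c2 c3 c4 c0 c1 h23 h34 h01 h12 n2 k2 l2 m2
  have o3 := out y3 c3 c4 c0 c1 c2 h34 h40 h12 h23 n3 k3 l3 m3
  have o4 := out y4 c4 c0 c1 c2 c3 h40 h01 h23 h34 n4 k4 l4 m4
  have d01 : y0 ≠ y1 := by rintro rfl; exact hT _ _ _ h01 k1 (hs _ _ k0)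
  have d12 : y1 ≠ y2 := by rintro rfl; exact hT _ _ _ h12 k2 (hs _ _ k1)
  have d23 : y2 ≠ y3 := by rintro rfl; exact hT _ _ _ h23 k3 (hs _ _ k2)
  have d34 : y3 ≠ y4 := by rintro rfl; exact hT _ _ _ h34 k4 (hs _ _ k3)
  have d40 : y4 ≠ y0 := by rintro rfl; exact hT _ _ _ h40 k0 (hs _ _ k4)
  set φ : ℕ → V := fun i =>
    ([c0, c1, c2, c3, c4, v, a, b, c] ++ [y0, y1, y2, y3, y4]).getD i v with hφ
  obtain ⟨r, r1, r2, r3⟩ := exists_rep φ
  have rid : ∀ i, r (r i) = r i := fun i => r3 _ _ (r1 i)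
  have rlow : ∀ i < 9, r i = i := fun i hi =>
    hinj _ _ _ (lt_of_le_of_lt (r2 i) hi) hi (r1 i)
  have rge : ∀ i, (φ i ≠ c0 ∧ φ i ≠ c1 ∧ φ i ≠ c2 ∧ φ i ≠ c3 ∧ φ i ≠ c4 ∧ φ i ≠ v) → 6 ≤ r i := by
    intro i h
    by_contra hlt
    have e := r1 i
    have : r i = 0 ∨ r i = 1 ∨ r i = 2 ∨ r i = 3 ∨ r i = 4 ∨ r i = 5 := by omega
    rcases this with h' | h' | h' | h' | h' | h' <;> rw [h'] at e
    · exact h.1 e.symm
    · exact h.2.1 e.symm
    · exact h.2.2.1 e.symm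
    · exact h.2.2.2.1 e.symm
    · exact h.2.2.2.2.1 e.symm
    · exact h.2.2.2.2.2 e.symm
  have rne : ∀ i j, φ i ≠ φ j → r i ≠ r j := fun i j h e => h (by rw [← r1 i, e, r1 j])
  have ridem : ∀ i j, r i = j → r j = j := fun i j h => by rw [← h, rid]
  have g0 : 6 ≤ r 9 := rge 9 (by change y0 ≠ _ ∧ y0 ≠ _ ∧ y0 ≠ _ ∧ y0 ≠ _ ∧ y0 ≠ _ ∧ y0 ≠ _; tauto)
  have g1 : 6 ≤ r 10 :=
    rge 10 (by change y1 ≠ _ ∧ y1 ≠ _ ∧ y1 ≠ _ ∧ y1 ≠ _ ∧ y1 ≠ _ ∧ y1 ≠ _; tauto)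
  have g2 : 6 ≤ r 11 :=
    rge 11 (by change y2 ≠ _ ∧ y2 ≠ _ ∧ y2 ≠ _ ∧ y2 ≠ _ ∧ y2 ≠ _ ∧ y2 ≠ _; tauto)
  have g3 : 6 ≤ r 12 :=
    rge 12 (by change y3 ≠ _ ∧ y3 ≠ _ ∧ y3 ≠ _ ∧ y3 ≠ _ ∧ y3 ≠ _ ∧ y3 ≠ _; tauto)
  have g4 : 6 ≤ r 13 :=
    rge 13 (by change y4 ≠ _ ∧ y4 ≠ _ ∧ y4 ≠ _ ∧ y4 ≠ _ ∧ y4 ≠ _ ∧ y4 ≠ _; tauto)
  have e01 : r 9 ≠ r 10 := rne 9 10 d01
  have e12 : r 10 ≠ r 11 := rne 10 11 d12
  have e23 : r 11 ≠ r 12 := rne 11 12 d23
  have e34 : r 12 ≠ r 13 := rne 12 13 d34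
  have e40 : r 13 ≠ r 9 := rne 13 9 d40
  have a0 : A c0 (φ (r 9)) := by rw [r1]; exact k0
  have a1 : A c1 (φ (r 10)) := by rw [r1]; exact k1
  have a2 : A c2 (φ (r 11)) := by rw [r1]; exact k2
  have a3 : A c3 (φ (r 12)) := by rw [r1]; exact k3
  have a4 : A c4 (φ (r 13)) := by rw [r1]; exact k4
  rcases check1 (r 9) (Nat.lt_succ_of_le (r2 9)) g0 (r 10) (Nat.lt_succ_of_le (r2 10)) g1 e01
    (ridem _ _) (r 11) (Nat.lt_succ_of_le (r2 11)) g2 e12 (ridem _ _) (ridem _ _)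
    (r 12) (Nat.lt_succ_of_le (r2 12)) g3 e23 (ridem _ _) (ridem _ _) (ridem _ _)
    (r 13) (Nat.lt_succ_of_le (r2 13)) g4 e34 e40 (ridem _ _) (ridem _ _) (ridem _ _)
    (ridem _ _) with h | h
  · obtain ⟨x, hx9, hx6, j, hj, hq⟩ := check2 (r 9) (by omega) g0 (r 10) (by omega) g1 e01
      (r 11) (by omega) g2 e12 (r 12) (by omega) g3 e23 (r 13) (by omega) g4 e34 e40
    have hvx : A v (φ x) := by
      have : x = 6 ∨ x = 7 ∨ x = 8 := by omega
      rcases this with rfl | rfl | rfl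
      · exact ha
      · exact hb
      · exact hc
    obtain ⟨w, hw, w1, w2⟩ := hD (φ x) v (hs _ _ hvx) v (φ j)
    set ψ : ℕ → V := fun i => ([c0, c1, c2, c3, c4, v, a, b, c] ++ [w]).getD i v with hψ
    have hφψ : ∀ i < 9, ψ i = φ i := by
      intro i hi
      simp only [hφ, hψ]
      rw [List.getD_append _ _ _ _ (by simpa using hi), List.getD_append _ _ _ _ (by simpa using hi)]
    obtain ⟨s, s1, s2, s3⟩ := exists_rep ψ
    have slow : ∀ i < 9, s i = i := fun i hi =>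
      hinj _ _ _ (lt_of_le_of_lt (s2 i) hi) hi (s1 i)
    have hw9 : ψ (s 9) = w := s1 9
    have q5 : s 9 ≠ 5 := fun e => w1 (by rw [← hw9, e]; rfl)
    have qj : s 9 ≠ j := fun e => w2 (by rw [← hw9, e, hφψ j (by omega)])
    have qx : s 9 ≠ x := fun e => hi w (by
      have : φ x = w := by rw [← hw9, e, hφψ x hx9]
      rwa [this] at hw)
    obtain ⟨n, -, hn⟩ := List.any_eq_true.1 (hq (s 9) (Nat.lt_succ_of_le (s2 9)) q5 qj qx)
    refine comp_of_good A hs ψ _ {i | s i = i} ?_ ?_ n hn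
    · intro i hi j hj e
      have := s3 _ _ e
      rw [hi, hj] at this
      exact this
    · intro e he
      simp only [E5, List.mem_cons, List.not_mem_nil, or_false] at he
      simp only [Set.mem_ofPred_eq]
      rcases he with rfl | rfl | rfl | rfl | rfl | rfl | rfl | rfl | rfl | rfl | rfl | rfl | rfl | rfl
      · exact ⟨slow _ hx9, s3 _ _ (s1 9), by rw [hw9, hφψ x hx9]; exact hw⟩
      · exact ⟨slow _ (by norm_num), slow _ (by norm_num), h01⟩
      · exact ⟨slow _ (by norm_num), slow _ (by norm_num), h12⟩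
      · exact ⟨slow _ (by norm_num), slow _ (by norm_num), h23⟩
      · exact ⟨slow _ (by norm_num), slow _ (by norm_num), h34⟩
      · exact ⟨slow _ (by norm_num), slow _ (by norm_num), h40⟩
      · exact ⟨slow _ (by norm_num), slow _ (by omega), by rw [hφψ (r 9) (by omega)]; exact a0⟩
      · exact ⟨slow _ (by norm_num), slow _ (by omega), by rw [hφψ (r 10) (by omega)]; exact a1⟩
      · exact ⟨slow _ (by norm_num), slow _ (by omega), by rw [hφψ (r 11) (by omega)]; exact a2⟩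
      · exact ⟨slow _ (by norm_num), slow _ (by omega), by rw [hφψ (r 12) (by omega)]; exact a3⟩
      · exact ⟨slow _ (by norm_num), slow _ (by omega), by rw [hφψ (r 13) (by omega)]; exact a4⟩
      · exact ⟨slow _ (by norm_num), slow _ (by norm_num), ha⟩
      · exact ⟨slow _ (by norm_num), slow _ (by norm_num), hb⟩
      · exact ⟨slow _ (by norm_num), slow _ (by norm_num), hc⟩
  · obtain ⟨n, -, hn⟩ := List.any_eq_true.1 h
    refine comp_of_good A hs φ _ {i | r i = i} ?_ ?_ n hn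
    · intro i hi j hj e
      have := r3 _ _ e
      rw [hi, hj] at this
      exact this
    · intro e he
      simp only [E5, List.mem_cons, List.not_mem_nil, or_false] at he
      simp only [Set.mem_ofPred_eq]
      rcases he with rfl | rfl | rfl | rfl | rfl | rfl | rfl | rfl | rfl | rfl | rfl | rfl | rfl
      · exact ⟨rlow _ (by norm_num), rlow _ (by norm_num), h01⟩
      · exact ⟨rlow _ (by norm_num), rlow _ (by norm_num), h12⟩
      · exact ⟨rlow _ (by norm_num), rlow _ (by norm_num), h23⟩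
      · exact ⟨rlow _ (by norm_num), rlow _ (by norm_num), h34⟩
      · exact ⟨rlow _ (by norm_num), rlow _ (by norm_num), h40⟩
      · exact ⟨rlow _ (by norm_num), rid _, a0⟩
      · exact ⟨rlow _ (by norm_num), rid _, a1⟩
      · exact ⟨rlow _ (by norm_num), rid _, a2⟩
      · exact ⟨rlow _ (by norm_num), rid _, a3⟩
      · exact ⟨rlow _ (by norm_num), rid _, a4⟩
      · exact ⟨rlow _ (by norm_num), rlow _ (by norm_num), ha⟩
      · exact ⟨rlow _ (by norm_num), rlow _ (by norm_num), hb⟩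
      · exact ⟨rlow _ (by norm_num), rlow _ (by norm_num), hc⟩

theorem case7 (A : V → V → Prop) (hs : ∀ x y, A x y → A y x) (hi : ∀ x, ¬ A x x)
    (hD : ∀ x y, A x y → ∀ p q, ∃ z, A x z ∧ z ≠ p ∧ z ≠ q)
    (c0 c1 c2 c3 c4 c5 c6 v a b c : V) (h01 : A c0 c1) (h12 : A c1 c2) (h23 : A c2 c3)
    (h34 : A c3 c4) (h45 : A c4 c5) (h56 : A c5 c6) (ha : A v a) (hb : A v b) (hc : A v c)
    (n1 : ¬ A v c1) (n5 : ¬ A c1 c5) (n6 : ¬ A c1 c6)
    (hnd : [c0, c1, c2, c3, c4, c5, c6, v, a, b, c].Nodup) : Comp5 A := by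
  obtain ⟨y, k, l, m⟩ := hD c1 c2 h12 c0 c2
  have hinj : ∀ (l : List V) (i j : ℕ), i < 11 → j < 11 →
      ([c0, c1, c2, c3, c4, c5, c6, v, a, b, c] ++ l).getD i v =
        ([c0, c1, c2, c3, c4, c5, c6, v, a, b, c] ++ l).getD j v → i = j := by
    intro l i j hi hj h
    rw [List.getD_append _ _ _ _ (by simpa using hi), List.getD_append _ _ _ _ (by simpa using hj),
      List.getD_eq_getElem _ _ (by simpa using hi), List.getD_eq_getElem _ _ (by simpa using hj)]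
      at h
    exact (List.Nodup.getElem_inj_iff hnd).1 h
  set φ : ℕ → V := fun i => ([c0, c1, c2, c3, c4, c5, c6, v, a, b, c] ++ [y]).getD i v with hφ
  obtain ⟨r, r1, r2, r3⟩ := exists_rep φ
  have rlow : ∀ i < 11, r i = i := fun i hi =>
    hinj _ _ _ (lt_of_le_of_lt (r2 i) hi) hi (r1 i)
  have hy : φ (r 11) = y := r1 11
  have q0 : r 11 ≠ 0 := fun e => l (by rw [← hy, e]; rfl)
  have q1 : r 11 ≠ 1 := fun e => hi c1 (by
    have : y = c1 := by rw [← hy, e]; rfl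
    rwa [this] at k)
  have q2 : r 11 ≠ 2 := fun e => m (by rw [← hy, e]; rfl)
  have q5 : r 11 ≠ 5 := fun e => n5 (by
    have : y = c5 := by rw [← hy, e]; rfl
    rwa [this] at k)
  have q6 : r 11 ≠ 6 := fun e => n6 (by
    have : y = c6 := by rw [← hy, e]; rfl
    rwa [this] at k)
  have q7 : r 11 ≠ 7 := fun e => n1 (by
    have : y = v := by rw [← hy, e]; rfl
    rw [this] at k
    exact hs _ _ k)
  obtain ⟨n, -, hn⟩ := List.any_eq_true.1
    (check3 (r 11) (Nat.lt_succ_of_le (r2 11)) q0 q1 q2 q5 q6 q7)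
  refine comp_of_good A hs φ _ {i | r i = i} ?_ ?_ n hn
  · intro i hi j hj e
    have := r3 _ _ e
    rw [hi, hj] at this
    exact this
  · intro e he
    simp only [E7, List.mem_cons, List.not_mem_nil, or_false] at he
    simp only [Set.mem_ofPred_eq]
    rcases he with rfl | rfl | rfl | rfl | rfl | rfl | rfl | rfl | rfl | rfl
    · exact ⟨rlow _ (by norm_num), rlow _ (by norm_num), h01⟩
    · exact ⟨rlow _ (by norm_num), rlow _ (by norm_num), h12⟩
    · exact ⟨rlow _ (by norm_num), rlow _ (by norm_num), h23⟩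
    · exact ⟨rlow _ (by norm_num), rlow _ (by norm_num), h34⟩
    · exact ⟨rlow _ (by norm_num), rlow _ (by norm_num), h45⟩
    · exact ⟨rlow _ (by norm_num), rlow _ (by norm_num), h56⟩
    · exact ⟨rlow _ (by norm_num), rlow _ (by norm_num), ha⟩
    · exact ⟨rlow _ (by norm_num), rlow _ (by norm_num), hb⟩
    · exact ⟨rlow _ (by norm_num), rlow _ (by norm_num), hc⟩
    · exact ⟨rlow _ (by norm_num), r3 _ _ (r1 11), by rw [hy]; exact k⟩

theorem core (A : V → V → Prop) (hs : ∀ x y, A x y → A y x) (hi : ∀ x, ¬ A x x)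
    (hT : ∀ x y z, A x y → A y z → ¬ A z x)
    (hD : ∀ x y, A x y → ∀ p q, ∃ z, A x z ∧ z ≠ p ∧ z ≠ q)
    (v a : V) (ha : A v a)
    (hO : ∃ L, Odd L ∧ CW (fun x y => A x y ∧ (x ≠ v ∧ ¬ A v x) ∧ (y ≠ v ∧ ¬ A v y)) L) :
    Comp5 A := by
  classical
  set B : V → V → Prop := fun x y => A x y ∧ (x ≠ v ∧ ¬ A v x) ∧ (y ≠ v ∧ ¬ A v y) with hB
  have hBs : ∀ x y, B x y → B y x := fun x y h => ⟨hs _ _ h.1, h.2.2, h.2.1⟩
  obtain ⟨b, hb, hba, -⟩ := hD v a ha a a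
  obtain ⟨c, hc, hca, hcb⟩ := hD v a ha a b
  obtain ⟨hodd, f, h0, hf⟩ := Nat.find_spec hO
  have hmin : ∀ m, m < Nat.find hO → Odd m → ¬ CW B m := fun m hm ho hc =>
    Nat.find_min hO hm ⟨ho, hc⟩
  generalize Nat.find hO = L at hodd h0 hf hmin
  have hdist : ∀ i d, 0 < d → i + d < L → f i ≠ f (i + d) := by
    intro i d hd hL e
    obtain ⟨w1, w2⟩ := short1 B f L h0 hf i d hL.le e
    rcases Nat.even_or_odd d with h | h
    · exact hmin (L - d) (by omega) (by rw [Nat.odd_iff] at *; rw [Nat.even_iff] at h; omega) w2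
    · exact hmin d (by omega) h w1
  have hL1 : L ≠ 1 := by
    rintro rfl
    have := (hf 0 (by norm_num)).1
    rw [show 0 + 1 = 1 from rfl, h0] at this
    exact hi _ this
  have hL3 : L ≠ 3 := by
    rintro rfl
    have h2 := (hf 2 (by norm_num)).1
    rw [show 2 + 1 = 3 from rfl, h0] at h2
    exact hT _ _ _ (hf 0 (by norm_num)).1 (hf 1 (by norm_num)).1 h2
  have hva := fun e : v = a => hi v (e ▸ ha)
  have hvb := fun e : v = b => hi v (e ▸ hb)
  have hvc := fun e : v = c => hi v (e ▸ hc)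
  have hout : ∀ i < L, f i ≠ v ∧ f i ≠ a ∧ f i ≠ b ∧ f i ≠ c := by
    intro i hi
    have := (hf i hi).2.1
    exact ⟨this.1, fun e => this.2 (e ▸ ha), fun e => this.2 (e ▸ hb), fun e => this.2 (e ▸ hc)⟩
  have hdist' : ∀ i j, i < j → j < L → f i ≠ f j := by
    intro i j hij hj
    have := hdist i (j - i) (by omega) (by omega)
    rwa [show i + (j - i) = j by omega] at this
  by_cases hL5 : L = 5
  · subst hL5
    have h4 := (hf 4 (by norm_num)).1
    rw [show 4 + 1 = 5 from rfl, h0] at h4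
    refine case5 A hs hi hT hD (f 0) (f 1) (f 2) (f 3) (f 4) v a b c (hf 0 (by norm_num)).1
      (hf 1 (by norm_num)).1 (hf 2 (by norm_num)).1 (hf 3 (by norm_num)).1 h4 ha hb hc
      (hf 0 (by norm_num)).2.1.2 (hf 1 (by norm_num)).2.1.2 (hf 2 (by norm_num)).2.1.2
      (hf 3 (by norm_num)).2.1.2 (hf 4 (by norm_num)).2.1.2 ?_
    have := hout 0; have := hout 1; have := hout 2; have := hout 3; have := hout 4
    simp only [List.nodup_cons, List.mem_cons, List.not_mem_nil, or_false, not_or,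
      List.nodup_nil, and_true, not_false_eq_true]
    refine ⟨⟨?_, ?_, ?_, ?_, ?_⟩, ⟨?_, ?_, ?_, ?_⟩, ⟨?_, ?_, ?_⟩, ⟨?_, ?_⟩, ?_, ⟨hva, hvb, hvc⟩,
      ⟨hba.symm, hca.symm⟩, hcb.symm⟩ <;>
      first | exact hdist' _ _ (by norm_num) (by norm_num) | exact hout _ (by norm_num)
  · have hL7 : 7 ≤ L := by rw [Nat.odd_iff] at hodd; omega
    have n5 : ¬ A (f 1) (f 5) := fun h => by
      have := (short2 B hBs f L h0 hf 1 3 (by omega)
        ⟨h, (hf 1 (by omega)).2.1, (hf 5 (by omega)).2.1⟩).1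
      exact hmin 5 (by omega) (by decide) this
    have n6 : ¬ A (f 1) (f 6) := fun h => by
      have := (short2 B hBs f L h0 hf 1 4 (by omega)
        ⟨h, (hf 1 (by omega)).2.1, (hf 6 (by omega)).2.1⟩).2
      exact hmin (L - 4) (by omega) (by rw [Nat.odd_iff] at *; omega) this
    refine case7 A hs hi hD (f 0) (f 1) (f 2) (f 3) (f 4) (f 5) (f 6) v a b c
      (hf 0 (by omega)).1 (hf 1 (by omega)).1 (hf 2 (by omega)).1 (hf 3 (by omega)).1
      (hf 4 (by omega)).1 (hf 5 (by omega)).1 ha hb hc (hf 1 (by omega)).2.1.2 n5 n6 ?_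
    simp only [List.nodup_cons, List.mem_cons, List.not_mem_nil, or_false, not_or,
      List.nodup_nil, and_true, not_false_eq_true]
    refine ⟨⟨?_, ?_, ?_, ?_, ?_, ?_, ?_⟩, ⟨?_, ?_, ?_, ?_, ?_, ?_⟩, ⟨?_, ?_, ?_, ?_, ?_⟩,
      ⟨?_, ?_, ?_, ?_⟩, ⟨?_, ?_, ?_⟩, ⟨?_, ?_⟩, ?_, ⟨hva, hvb, hvc⟩,
      ⟨hba.symm, hca.symm⟩, hcb.symm⟩ <;>
      first | exact hdist' _ _ (by norm_num) (by omega) | exact hout _ (by omega)

theorem main [Fintype V] (G : SimpleGraph V) (hT : ∀ x y z, G.Adj x y → G.Adj y z → ¬ G.Adj z x)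
    (h3 : ¬ G.Colorable 3) : Comp5 G.Adj := by
  classical
  let C : Finset V → Prop := fun S =>
    ∃ f : V → Fin 3, ∀ x ∈ S, ∀ y ∈ S, G.Adj x y → f x ≠ f y
  have hex : ∃ S, ¬ C S := ⟨Finset.univ, fun ⟨f, hf⟩ =>
    h3 ⟨SimpleGraph.Coloring.mk f (fun h => hf _ (Finset.mem_univ _) _ (Finset.mem_univ _) h)⟩⟩
  obtain ⟨S, hS, hmin⟩ := WellFounded.has_min (measure Finset.card).wf {S | ¬ C S} hex
  have hmin' : ∀ T : Finset V, T.card < S.card → C T := by
    intro T hT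
    by_contra h
    exact hmin T h hT
  let A : V → V → Prop := fun x y => G.Adj x y ∧ x ∈ S ∧ y ∈ S
  have hD0 : ∀ x ∈ S, ∀ p q, ∃ z, A x z ∧ z ≠ p ∧ z ≠ q := by
    intro x hx p q
    by_contra hno
    push Not at hno
    obtain ⟨f, hf⟩ := hmin' (S.erase x) (Finset.card_erase_lt_of_mem hx)
    obtain ⟨t, ht1, ht2⟩ : ∃ t : Fin 3, t ≠ f p ∧ t ≠ f q := by
      generalize f p = s1
      generalize f q = s2
      revert s1 s2
      decide
    apply hS
    have hz : ∀ z ∈ S, G.Adj x z → t ≠ f z := by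
      intro z hz h
      by_cases e : z = p
      · rw [e]; exact ht1
      · rw [hno z ⟨h, hx, hz⟩ e]; exact ht2
    refine ⟨Function.update f x t, fun y hy z hz' h => ?_⟩
    by_cases e1 : y = x
    · subst e1
      rw [Function.update_self, Function.update_of_ne h.ne.symm]
      exact hz z hz' h
    · by_cases e2 : z = x
      · subst e2
        rw [Function.update_self, Function.update_of_ne e1]
        exact (hz y hy h.symm).symm
      · rw [Function.update_of_ne e1, Function.update_of_ne e2]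
        exact hf y (Finset.mem_erase.2 ⟨e1, hy⟩) z (Finset.mem_erase.2 ⟨e2, hz'⟩) h
  have hne : S.Nonempty := by
    rw [Finset.nonempty_iff_ne_empty]
    rintro rfl
    exact hS ⟨fun _ => 0, by simp⟩
  obtain ⟨v, hv⟩ := hne
  obtain ⟨a, ha, -⟩ := hD0 v hv v v
  have hAs : ∀ x y, A x y → A y x := fun x y h => ⟨h.1.symm, h.2.2, h.2.1⟩
  have hcore := core A hAs (fun x h => h.1.ne rfl)
    (fun x y z h1 h2 h3 => hT x y z h1.1 h2.1 h3.1) (fun x y h => hD0 x h.2.1) v a ha ?_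
  · obtain ⟨f, hf⟩ := hcore
    refine ⟨f, fun i j hij => ?_⟩
    obtain ⟨u, w, h1, h2⟩ := hf i j hij
    exact ⟨u, w, h1.1, h2⟩
  · let K : SimpleGraph V :=
      { Adj := fun x y => A x y ∧ (x ≠ v ∧ ¬ A v x) ∧ (y ≠ v ∧ ¬ A v y)
        symm := ⟨fun x y h => ⟨hAs _ _ h.1, h.2.2, h.2.1⟩⟩
        loopless := ⟨fun x h => h.1.1.ne rfl⟩ }
    have hK : ¬ K.Colorable 2 := by
      rintro ⟨g⟩
      apply hS
      refine ⟨fun x => if A v x then 2 else (g x).castSucc, fun x hx y hy h => ?_⟩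
      by_cases e1 : A v x <;> by_cases e2 : A v y
      · exact absurd e2.1.symm (hT _ _ _ e1.1 h)
      · simp only [e1, e2, if_true, if_false]
        generalize g y = t
        revert t
        decide
      · simp only [e1, e2, if_true, if_false]
        generalize g x = t
        revert t
        decide
      · simp only [e1, e2, if_false]
        have hxv : x ≠ v := by rintro rfl; exact e2 ⟨h, hx, hy⟩
        have hyv : y ≠ v := by rintro rfl; exact e1 ⟨h.symm, hy, hx⟩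
        have := g.valid (show K.Adj x y from ⟨⟨h, hx, hy⟩, ⟨hxv, e1⟩, ⟨hyv, e2⟩⟩)
        exact fun e => this (Fin.castSucc_injective _ e)
    rw [SimpleGraph.two_colorable_iff_forall_loop_even] at hK
    push Not at hK
    obtain ⟨u, w, hw⟩ := hK
    exact ⟨w.length, Nat.not_even_iff_odd.1 hw, fun i => w.getVert i, by simp,
      fun i hi => w.adj_getVert_succ hi⟩

end aux

/-- The negation: no triangle-free graph has chromatic number 4 and pseudoachromatic number 4. -/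
theorem result :
    ¬ (∀ a b c d e : ℕ, 2 ≤ a → a ≤ b → b ≤ c → c ≤ d → d ≤ e →
  ∃ n : ℕ, ∃ G : SimpleGraph (Fin n),
    ((∃ s : Finset (Fin n), G.IsNClique a s) ∧ ∀ s : Finset (Fin n), ¬ G.IsNClique (a + 1) s) ∧
    G.chromaticNumber = (b : ℕ∞) ∧
    ((∃ f : Fin n → Fin c, Function.Surjective f ∧ (∀ u v, G.Adj u v → f u ≠ f v) ∧
        ∀ v, ∀ j : Fin c, j < f v → ∃ u, G.Adj v u ∧ f u = j) ∧
      ∀ k : ℕ, c < k → ¬ ∃ f : Fin n → Fin k, Function.Surjective f ∧ (∀ u v, G.Adj u v → f u ≠ f v) ∧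
        ∀ v, ∀ j : Fin k, j < f v → ∃ u, G.Adj v u ∧ f u = j) ∧
    ((∃ f : Fin n → Fin d, Function.Surjective f ∧ (∀ u v, G.Adj u v → f u ≠ f v) ∧
        ∀ i j : Fin d, i ≠ j → ∃ u v, G.Adj u v ∧ f u = i ∧ f v = j) ∧
      ∀ k : ℕ, d < k → ¬ ∃ f : Fin n → Fin k, Function.Surjective f ∧ (∀ u v, G.Adj u v → f u ≠ f v) ∧
        ∀ i j : Fin k, i ≠ j → ∃ u v, G.Adj u v ∧ f u = i ∧ f v = j) ∧
    ((∃ f : Fin n → Fin e, Function.Surjective f ∧
        ∀ i j : Fin e, i ≠ j → ∃ u v, G.Adj u v ∧ f u = i ∧ f v = j) ∧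
      ∀ k : ℕ, e < k → ¬ ∃ f : Fin n → Fin k, Function.Surjective f ∧
        ∀ i j : Fin k, i ≠ j → ∃ u v, G.Adj u v ∧ f u = i ∧ f v = j)) := by
  intro h
  obtain ⟨n, G, ⟨-, h1⟩, h2, -, -, -, h5⟩ := h 2 4 4 4 4 le_rfl (by norm_num) le_rfl le_rfl le_rfl
  have hT : ∀ x y z, G.Adj x y → G.Adj y z → ¬ G.Adj z x := fun x y z a b c =>
    h1 {x, y, z} (SimpleGraph.is3Clique_triple_iff.2 ⟨a, c.symm, b⟩)
  have h3 : ¬ G.Colorable 3 := fun hc => by
    have := hc.chromaticNumber_le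
    rw [h2] at this
    norm_cast at this
  obtain ⟨f, hf⟩ := main G hT h3
  refine h5 5 (by norm_num) ⟨f, fun i => ?_, hf⟩
  obtain ⟨j, hj⟩ := exists_ne i
  obtain ⟨u, -, -, hu, -⟩ := hf i j hj.symm
  exact ⟨u, hu⟩

end Pool.Agent.S09896
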