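import Pool.Statements.S09946
import Pool.Agent.Lib.lead.Girth

set_option autoImplicit false
open Pool Pool.MP_8888ff_co

namespace Pool.Agent.S09946

open Pool.Agent.Lib.LeadGirth

lemma leaf {m : ℕ} (hm : 2 ≤ m) (H : SimpleGraph (Fin m)) (h : ∀ v, 2 ≤ (H.neighborSet v).ncard) :
    ¬ H.IsAcyclic := by
  classical
  intro ha
  haveI : Nontrivial (Fin m) := Fin.nontrivial_iff_two_le.2 hm
  obtain ⟨T, h1, -, h3⟩ := (SimpleGraph.connected_top (V := Fin m)).exists_isTree_le_of_le_of_isAcyclic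
    le_top ha
  obtain ⟨v, hv⟩ := h3.exists_vert_degree_one_of_nontrivial
  have h4 : (H.neighborSet v).ncard ≤ (T.neighborSet v).ncard :=
    Set.ncard_le_ncard (fun w hw => h1 hw) (Set.toFinite _)
  have h5 : (T.neighborSet v).ncard = T.degree v := by
    rw [← SimpleGraph.card_neighborFinset_eq_degree, SimpleGraph.neighborFinset_def,
      Set.ncard_eq_toFinset_card']
  have := h v
  omega

noncomputable def N : ℕ → ℕ
  | 0 => 4
  | k + 1 => (exists_dense (N k) (k + 1)).choose + 1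

lemma N_lt (k : ℕ) : N k + 1 < N (k + 1) := by
  have := (exists_dense (N k) (k + 1)).choose_spec.1
  rw [N]
  omega

lemma N_mono : StrictMono N := strictMono_nat_of_lt_succ fun k => by have := N_lt k; omega

lemma N_ge (k : ℕ) : 4 ≤ N k := N_mono.monotone (Nat.zero_le k)

def FF : Set (Σ k : ℕ, SimpleGraph (Fin k)) :=
  {p | (∃ k, p.1 = N k) ∧ ∀ v, 2 ≤ (p.2.neighborSet v).ncard}

lemma free {n g : ℕ} (T : SimpleGraph (Fin n)) (hT : Sparse g T) {m : ℕ} (hm : 2 ≤ m) (hmg : m ≤ g)
    (H : SimpleGraph (Fin m)) (h : ∀ v, 2 ≤ (H.neighborSet v).ncard) : ¬ H.IsContained T := by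
  classical
  rintro ⟨f⟩
  have hf : Function.Injective f := f.injective
  obtain ⟨x, hx, -, hx1⟩ := hT (Finset.univ.image f)
    (by rw [Finset.card_image_of_injective _ hf]; simpa using hmg) (f ⟨0, by omega⟩)
    ⟨f ⟨1, by omega⟩, by simp, fun e => by simpa using hf e⟩
  obtain ⟨a, -, rfl⟩ := Finset.mem_image.1 hx
  have h1 : f '' (H.neighborSet a) ⊆ (nb T (Finset.univ.image f) (f a) : Set (Fin n)) := by
    rintro _ ⟨b, hb, rfl⟩
    exact Finset.mem_coe.2 (mem_nb.2 ⟨by simp, f.toHom.map_adj hb⟩)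
  have h2 := Set.ncard_le_ncard h1 (Set.toFinite _)
  rw [Set.ncard_image_of_injective _ hf, Set.ncard_coe_finset] at h2
  have := h a
  omega

/-- The negation of the preceding statement: For every graph family whose members all contain a cycle and one is bipartite, some c>0 ensures every graph with min degree δ≥1 and max degree Δ has a spanning F-free subgraph of min degree at least c·ex(K_Δ,F)·δ/Δ².
Counterexample: the (infinite) family of all graphs of minimum degree at least 2 whose order lies in a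
very sparse sequence N_0 = 4 < N_1 < ..., tested on the complete graphs of order N_k. -/
theorem result :
    ¬ (∀ F : Set (Σ k : ℕ, SimpleGraph (Fin k)),
      (∀ p ∈ F, ¬ p.2.IsAcyclic) →
      (∃ p ∈ F, p.2.Colorable 2) →
      ∃ c : ℝ, 0 < c ∧
        ∀ δ Δ : ℕ, 1 ≤ δ → δ ≤ Δ →
          ∀ n : ℕ, ∀ G : SimpleGraph (Fin n),
            (∀ v, δ ≤ (G.neighborSet v).ncard) →
            (∃ v, (G.neighborSet v).ncard = δ) →
            (∀ v, (G.neighborSet v).ncard ≤ Δ) →
            (∃ v, (G.neighborSet v).ncard = Δ) →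
            ∀ T : SimpleGraph (Fin Δ),
              (∀ p ∈ F, ¬ p.2.IsContained T) →
              ∃ H : SimpleGraph (Fin n), H ≤ G ∧
                (∀ p ∈ F, ¬ p.2.IsContained H) ∧
                ∀ v, c * (T.edgeSet.ncard : ℝ) * (δ : ℝ) / (Δ : ℝ) ^ 2
                  ≤ ((H.neighborSet v).ncard : ℝ)) := by
  intro h
  obtain ⟨c, hc, h⟩ := h FF (fun p hp => by
      obtain ⟨⟨k, hk⟩, h2⟩ := hp
      exact leaf (by have := N_ge k; omega) _ h2)
    ⟨⟨4, SimpleGraph.cycleGraph 4⟩, ⟨⟨0, rfl⟩, fun v => by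
      have e : (SimpleGraph.cycleGraph 4).degree v = 2 := SimpleGraph.cycleGraph_degree_three_le
      rw [← SimpleGraph.card_neighborFinset_eq_degree, SimpleGraph.neighborFinset_def,
        ← Set.ncard_eq_toFinset_card'] at e
      exact e.ge⟩, (SimpleGraph.cycleGraph.bicoloring_of_even 4 (by decide)).colorable⟩
  obtain ⟨k, hk⟩ := exists_nat_gt (1 / c)
  obtain ⟨h1, T, h2, h3⟩ := (exists_dense (N k) (k + 1)).choose_spec
  have hN : N (k + 1) = (exists_dense (N k) (k + 1)).choose + 1 := rfl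
  generalize (exists_dense (N k) (k + 1)).choose = D at h1 T h2 h3 hN
  have hD : 4 < D := lt_of_le_of_lt (N_ge k) h1
  have deg : ∀ v : Fin (D + 1), ((⊤ : SimpleGraph (Fin (D + 1))).neighborSet v).ncard = D := by
    intro v
    have e : (⊤ : SimpleGraph (Fin (D + 1))).degree v = Fintype.card (Fin (D + 1)) - 1 :=
      SimpleGraph.complete_graph_degree v
    rw [← SimpleGraph.card_neighborFinset_eq_degree, SimpleGraph.neighborFinset_def,
        ← Set.ncard_eq_toFinset_card'] at e
    simpa using e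
  obtain ⟨H, -, h5, h6⟩ := h D D (by omega) le_rfl (D + 1) ⊤ (fun v => (deg v).ge) ⟨0, deg 0⟩
    (fun v => (deg v).le) ⟨0, deg 0⟩ T (by
      rintro ⟨m, H⟩ ⟨⟨j, hj⟩, hH⟩ hc
      simp only at hj hH hc
      have hm : m ≤ D := by
        obtain ⟨f⟩ := hc
        simpa using Fintype.card_le_of_injective _ f.injective
      have hjk : j < k + 1 := N_mono.lt_iff_lt.1 (by omega)
      have := N_mono.monotone (Nat.lt_succ_iff.1 hjk)
      exact free T h2 (by have := N_ge j; omega) (by omega) H hH hc)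
  have h7 : ¬ ∀ v, 2 ≤ (H.neighborSet v).ncard := fun h7 =>
    h5 ⟨D + 1, H⟩ ⟨⟨k + 1, hN.symm⟩, h7⟩ SimpleGraph.IsContained.rfl
  push Not at h7
  obtain ⟨v, hv⟩ := h7
  have h8 := h6 v
  have h9 : ((H.neighborSet v).ncard : ℝ) ≤ 1 := by exact_mod_cast Nat.lt_succ_iff.1 hv
  have hD' : (0 : ℝ) < D := by exact_mod_cast (by omega : 0 < D)
  have h10 : ((k : ℝ) + 1) * D ≤ T.edgeSet.ncard := by exact_mod_cast h3
  rw [div_lt_iff₀ hc] at hk
  rw [div_le_iff₀ (by positivity)] at h8
  have h11 : c * (((k : ℝ) + 1) * D) * D ≤ c * T.edgeSet.ncard * D := by gcongr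
  have h12 : (0 : ℝ) < D ^ 2 := by positivity
  nlinarith

end Pool.Agent.S09946
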