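import Pool.Statements.S10106

set_option autoImplicit false
open Pool Pool.MP_8f9b2f_co

namespace Pool.Agent.S10106

open Finset

theorem ball_bound (n k : ℕ) :
    (univ.filter (fun x : Fin n → Bool => hammingDist x (fun _ => false) < k)).card * 2 ^ (n - k)
      ≤ 3 ^ n := by
  have h1 : ∑ x : Fin n → Bool, ∏ i, (if x i = true then 1 else 2 : ℕ) = 3 ^ n := by
    have := Finset.prod_univ_sum (fun _ : Fin n => (univ : Finset Bool))
      (fun _ (b : Bool) => (if b = true then 1 else 2 : ℕ))
    rw [Fintype.piFinset_univ] at this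
    rw [← this]
    simp
  rw [← h1, ← smul_eq_mul, ← Finset.sum_const]
  refine le_trans (Finset.sum_le_sum ?_) (Finset.sum_le_sum_of_subset (filter_subset _ _))
  intro x hx
  rw [mem_filter] at hx
  rw [Finset.prod_ite]
  simp only [prod_const_one, prod_const, one_mul]
  apply Nat.pow_le_pow_right (by norm_num)
  have h2 := Finset.card_filter_add_card_filter_not (s := (univ : Finset (Fin n)))
    (fun i => x i = true)
  have h3 : hammingDist x (fun _ => false) = (univ.filter (fun i => x i = true)).card := by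
    unfold hammingDist
    congr 1
    ext i
    simp
  simp only [card_univ, Fintype.card_fin] at h2
  omega

theorem pow_bound (k : ℕ) (hk : 4 ≤ k) : 4 * 81 ^ k ≤ 128 ^ k := by
  induction k, hk using Nat.le_induction with
  | base => norm_num
  | succ k _ ih => rw [pow_succ, pow_succ]; omega

theorem ball_bound' (k : ℕ) (hk : 4 ≤ k) (n : ℕ) (hn : n = 4 * k) :
    4 * (univ.filter (fun x : Fin n → Bool => hammingDist x (fun _ => false) < k)).card
      ≤ 2 ^ n := by
  have h1 := ball_bound n k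
  have h2 := pow_bound k hk
  have h3 : n - k = 3 * k := by omega
  rw [h3] at h1
  set B := (univ.filter (fun x : Fin n → Bool => hammingDist x (fun _ => false) < k)).card
  have h4 : (3 : ℕ) ^ n = 81 ^ k := by rw [hn, pow_mul]; norm_num
  have h5 : (128 : ℕ) ^ k = 2 ^ n * 2 ^ (3 * k) := by
    rw [← pow_add, hn, show 4 * k + 3 * k = 7 * k by ring, pow_mul]; norm_num
  have h6 : 4 * B * 2 ^ (3 * k) ≤ 2 ^ n * 2 ^ (3 * k) := by
    rw [← h5, mul_assoc]; omega
  exact Nat.le_of_mul_le_mul_right h6 (by positivity)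

/-- A balanced function with a deep one-point and no deep zero-point. -/
theorem exists_fun (k : ℕ) (hk : 4 ≤ k) (m : ℕ) (hm : m + 2 = 4 * k) :
    ∃ f : (Fin (m + 2) → Bool) → Bool,
      2 * (univ.filter (fun x => f x = true)).card = 2 ^ (m + 2) ∧
      (∀ x, hammingDist x (fun _ => false) < k → f x = true) ∧
      (∀ x, ∃ y, f y = true ∧ hammingDist x y ≤ 2) := by
  classical
  set B := univ.filter (fun x : Fin (m + 2) → Bool => hammingDist x (fun _ => false) < k)
  let e : (Fin m → Bool) → (Fin (m + 2) → Bool) := fun y => Fin.cons true (Fin.cons true y)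
  set Q := (univ : Finset (Fin m → Bool)).image e
  have hB : 4 * B.card ≤ 2 ^ (m + 2) := ball_bound' k hk _ hm
  have hQ : Q.card ≤ 2 ^ m := le_trans card_image_le (by simp)
  have hU : (B ∪ Q).card ≤ 2 ^ (m + 1) := by
    have := card_union_le B Q
    rw [pow_succ, pow_succ] at hB
    rw [pow_succ]
    omega
  have hU' : 2 ^ (m + 1) ≤ (univ : Finset (Fin (m + 2) → Bool)).card := by
    simp only [card_univ, Fintype.card_pi, Fintype.card_bool, prod_const, Fintype.card_fin]
    exact Nat.pow_le_pow_right (by norm_num) (by omega)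
  obtain ⟨T, hT1, -, hT3⟩ := Finset.exists_subsuperset_card_eq (subset_univ (B ∪ Q)) hU hU'
  refine ⟨fun x => decide (x ∈ T), ?_, ?_, ?_⟩
  · have : univ.filter (fun x => decide (x ∈ T) = true) = T := by ext x; simp
    rw [this, hT3]; ring
  · intro x hx
    simp only [decide_eq_true_eq]
    apply hT1
    exact mem_union_left _ (by simp [B, hx])
  · intro x
    refine ⟨e (fun i => x i.succ.succ), ?_, ?_⟩
    · simp only [decide_eq_true_eq]
      apply hT1
      exact mem_union_right _ (mem_image_of_mem _ (mem_univ _))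
    · unfold hammingDist
      refine le_trans (card_le_card (t := {0, 1}) ?_) card_le_two
      intro i hi
      simp only [mem_filter, mem_univ, true_and] at hi
      rcases Fin.eq_zero_or_eq_succ i with rfl | ⟨j, rfl⟩
      · simp
      · rcases Fin.eq_zero_or_eq_succ j with rfl | ⟨l, rfl⟩
        · simp
        · exfalso; apply hi; simp [e]

theorem lip_lower {n k : ℕ} (f : (Fin n → Bool) → Bool) (hk : 0 < k)
    (h1 : ∀ x, hammingDist x (fun _ => false) < k → f x = true)
    (h2 : ∀ x, ∃ y, f y = true ∧ hammingDist x y ≤ 2)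
    (φ : (Fin n → Bool) ≃ (Fin n → Bool)) (hφ : ∀ x, f x = true → f (φ x) = false)
    (C : ℝ) (hC : 0 ≤ C)
    (hL : ∀ x y, (hammingDist (φ x) (φ y) : ℝ) ≤ C * (hammingDist x y : ℝ)) :
    (k : ℝ) ≤ 2 * C := by
  obtain ⟨y, hy1, hy2⟩ := h2 (φ.symm (fun _ => false))
  have h3 := hφ y hy1
  have h4 : k ≤ hammingDist (φ y) (fun _ => false) := by
    by_contra h
    rw [h1 _ (not_le.1 h)] at h3
    exact absurd h3 (by simp)
  have h5 := hL y (φ.symm (fun _ => false))
  rw [Equiv.apply_symm_apply, hammingDist_comm y] at h5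
  have h6 : (hammingDist (φ.symm (fun _ => false)) y : ℝ) ≤ 2 := by exact_mod_cast hy2
  have h7 : (k : ℝ) ≤ hammingDist (φ y) (fun _ => false) := by exact_mod_cast h4
  nlinarith

/-- The negation of the preceding statement: There exist α<2 and K such that for every n≥1 and all balanced f,g on {0,1}^n, some bijection φ with g∘φ=f has Hamming-Lipschitz constants of φ and φ⁻¹ whose product is at most K·n^α. -/
theorem result :
    ¬ (∃ α : ℝ, α < 2 ∧ ∃ K : ℝ, ∀ n : ℕ, 1 ≤ n → ∀ f g : (Fin n → Bool) → Bool,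
      2 * (Finset.univ.filter (fun x => f x = true)).card = 2 ^ n →
      2 * (Finset.univ.filter (fun x => g x = true)).card = 2 ^ n →
      ∃ φ : (Fin n → Bool) ≃ (Fin n → Bool), (∀ x, g (φ x) = f x) ∧
        ∃ C₁ C₂ : ℝ, 0 ≤ C₁ ∧ 0 ≤ C₂ ∧
          (∀ x y, (hammingDist (φ x) (φ y) : ℝ) ≤ C₁ * (hammingDist x y : ℝ)) ∧
          (∀ x y, (hammingDist (φ.symm x) (φ.symm y) : ℝ) ≤ C₂ * (hammingDist x y : ℝ)) ∧
          C₁ * C₂ ≤ K * (n : ℝ) ^ α) := by
  rintro ⟨α, hα, K, h⟩
  have key : ∀ k : ℕ, 4 ≤ k → ((4 * k : ℕ) : ℝ) ^ (2 - α) ≤ 64 * K := by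
    intro k hk
    obtain ⟨m, hm⟩ : ∃ m, m + 2 = 4 * k := ⟨4 * k - 2, by omega⟩
    obtain ⟨f, hf1, hf2, hf3⟩ := exists_fun k hk m hm
    have hg : 2 * (univ.filter (fun x => (!f x) = true)).card = 2 ^ (m + 2) := by
      have h2 := Finset.card_filter_add_card_filter_not (s := (univ : Finset (Fin (m + 2) → Bool)))
        (fun x => f x = true)
      simp only [card_univ, Fintype.card_pi, Fintype.card_bool, prod_const, Fintype.card_fin] at h2
      have h3 : univ.filter (fun x => (!f x) = true) = univ.filter (fun x => ¬ f x = true) := by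
        ext x; simp
      rw [h3]; omega
    obtain ⟨φ, hφ, C₁, C₂, hC₁, hC₂, hL₁, hL₂, hK⟩ := h (m + 2) (by omega) f (fun x => !f x) hf1 hg
    have a1 := lip_lower f (by omega) hf2 hf3 φ (by
      intro x hx
      have := hφ x
      rw [hx] at this
      simpa using this) C₁ hC₁ hL₁
    have a2 := lip_lower f (by omega) hf2 hf3 φ.symm (by
      intro x hx
      have := hφ (φ.symm x)
      rw [Equiv.apply_symm_apply, hx] at this
      simpa using this.symm) C₂ hC₂ hL₂
    rw [hm] at hK
    have hk0 : (0 : ℝ) < k := by exact_mod_cast (by omega : 0 < k)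
    have hn0 : (0 : ℝ) < ((4 * k : ℕ) : ℝ) := by positivity
    have a3 : (k : ℝ) * k ≤ 4 * (C₁ * C₂) := by nlinarith
    rw [Real.rpow_sub hn0, div_le_iff₀ (Real.rpow_pos_of_pos hn0 α)]
    have a4 : ((4 * k : ℕ) : ℝ) ^ (2 : ℝ) = 16 * ((k : ℝ) * k) := by
      rw [Real.rpow_two]; push_cast; ring
    rw [a4]
    nlinarith
  have ht : Filter.Tendsto (fun k : ℕ => ((4 * k : ℕ) : ℝ) ^ (2 - α)) Filter.atTop Filter.atTop := by
    apply (tendsto_rpow_atTop (by linarith)).comp
    apply tendsto_natCast_atTop_atTop.comp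
    exact Filter.tendsto_id.const_mul_atTop' (by norm_num)
  obtain ⟨k, hk1, hk2⟩ := ((ht.eventually_gt_atTop (64 * K)).and (Filter.eventually_ge_atTop 4)).exists
  exact absurd (key k hk2) (not_le.2 hk1)

end Pool.Agent.S10106
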