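import Pool.Statements.S10122
-- import your own Pool.Agent.* helpers here

set_option autoImplicit false
open Pool Pool.MP_908e85_co

namespace Pool.Agent.S10122

/-! Counterexample for `k = 6` in the (simple) binary vector matroid of `GF(2)^6`.
Rows 0,1,2 lie in the subspace `V0` (coordinates 0,1,2); modulo `V0` the rows 3,4,5 lie in the
three legs `{a, a + e}` of the rank 3 binary spike. A column is a basis only if its `e`-coordinates
have odd sum, but the total of all `e`-coordinates is `9`, which is not `6` modulo 2. -/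

abbrev V := Fin 6 → ZMod 2

/-- The vector matroid of `GF(2)^6`. -/
noncomputable def linM : Matroid V :=
  (IndepMatroid.ofFinite (E := Set.univ) Set.finite_univ
    (fun I => LinearIndepOn (ZMod 2) id I)
    (linearIndepOn_empty _ _)
    (fun _ _ hJ hIJ => hJ.mono hIJ)
    (by
      intro I J hI hJ hlt
      by_contra hcon
      push Not at hcon
      have hsub : J ⊆ Submodule.span (ZMod 2) I := by
        intro e he
        by_cases heI : e ∈ I
        · exact Submodule.subset_span heI
        · by_contra hs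
          exact hcon e he heI (hI.id_insert hs)
      have h1 : Submodule.span (ZMod 2) J ≤ Submodule.span (ZMod 2) I := Submodule.span_le.2 hsub
      have h2 := Submodule.finrank_mono h1
      classical
      have : Fintype I := Fintype.ofFinite I
      have : Fintype J := Fintype.ofFinite J
      rw [finrank_span_set_eq_card hI, finrank_span_set_eq_card hJ] at h2
      rw [Set.ncard_eq_toFinset_card', Set.ncard_eq_toFinset_card'] at hlt
      omega)
    (fun _ _ => Set.subset_univ _)).matroid

lemma linM_indep (I : Set V) : linM.Indep I ↔ LinearIndepOn (ZMod 2) id I := by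
  simp [linM]

def vec (n : ℕ) : V := fun i => if n.testBit i then 1 else 0

def fT : Fin 6 → Fin 6 → ℕ :=
  ![![1, 2, 3, 4, 5, 6], ![1, 2, 3, 4, 5, 6], ![1, 2, 3, 4, 5, 6],
    ![8, 9, 10, 40, 41, 42], ![16, 17, 18, 48, 49, 50], ![24, 25, 26, 56, 57, 58]]

def bT : Fin 6 → Fin 6 → ℕ :=
  ![![1, 2, 5, 8, 40, 24], ![3, 4, 6, 16, 48, 56], ![1, 2, 5, 41, 17, 25],
    ![3, 4, 6, 9, 49, 26], ![1, 2, 5, 10, 18, 57], ![3, 4, 6, 42, 50, 58]]

def F (i : Fin 6) : Finset V := Finset.univ.image fun j => vec (fT i j)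
def B (i : Fin 6) : Finset V := Finset.univ.image fun j => vec (bT i j)

lemma F_card : ∀ i, (F i).card = 6 := by decide +kernel
lemma B_card : ∀ i, (B i).card = 6 := by decide +kernel
lemma FB : ∑ i, (F i).val = ∑ i, (B i).val := by decide +kernel

lemma B_li : ∀ i, ∀ g : Fin 6 → ZMod 2, ∑ j, g j • vec (bT i j) = 0 → ∀ j, g j = 0 := by
  decide +kernel

lemma B_base (i : Fin 6) : linM.IsBase (↑(B i) : Set V) := by
  have hli : LinearIndependent (ZMod 2) (fun j => vec (bT i j)) :=
    Fintype.linearIndependent_iff.2 (B_li i)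
  have hrange : (↑(B i) : Set V) = Set.range (fun j => vec (bT i j)) := by
    simp [B]
  have hind : linM.Indep (↑(B i) : Set V) := by
    rw [linM_indep, hrange]
    exact hli.linearIndepOn_id
  have hspan : Submodule.span (ZMod 2) (Set.range (fun j => vec (bT i j))) = ⊤ :=
    hli.span_eq_top_of_card_eq_finrank' (by simp)
  refine hind.isBase_of_forall_insert ?_
  intro e he hins
  rw [linM_indep] at hins
  have := (linearIndepOn_id_insert he.2).1 hins
  apply this.2
  rw [hrange, hspan]
  trivial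

lemma F_co : (∀ x ∈ F 0, x 3 = 0 ∧ x 4 = 0 ∧ x 5 = 0) ∧ (∀ x ∈ F 1, x 3 = 0 ∧ x 4 = 0 ∧ x 5 = 0) ∧
    (∀ x ∈ F 2, x 3 = 0 ∧ x 4 = 0 ∧ x 5 = 0) ∧ (∀ x ∈ F 3, x 3 = 1 ∧ x 4 = 0) ∧
    (∀ x ∈ F 4, x 3 = 0 ∧ x 4 = 1) ∧ (∀ x ∈ F 5, x 3 = 1 ∧ x 4 = 1) := by
  refine ⟨?_, ?_, ?_, ?_, ?_, ?_⟩ <;> decide +kernel

lemma F_sum : ∑ x ∈ F 3, x 5 + ∑ x ∈ F 4, x 5 + ∑ x ∈ F 5, x 5 = 1 := by decide +kernel

lemma col (c : Fin 6 → V) (hc : ∀ i, c i ∈ F i) (hb : linM.IsBase (Set.range c)) :
    c 3 5 + c 4 5 + c 5 5 = 1 := by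
  by_contra hne
  have h0 : c 3 5 + c 4 5 + c 5 5 = 0 := by
    revert hne
    generalize c 3 5 + c 4 5 + c 5 5 = t
    revert t
    decide
  obtain ⟨h0', h1, h2, h3, h4, h5⟩ := F_co
  let φ : V →ₗ[ZMod 2] ZMod 2 :=
    LinearMap.proj 5 + c 3 5 • LinearMap.proj 3 + c 4 5 • LinearMap.proj 4
  have hφ : ∀ x : V, φ x = x 5 + c 3 5 * x 3 + c 4 5 * x 4 := fun x => by simp [φ]
  have two : ∀ t : ZMod 2, t + t = 0 := by decide
  have hker : Submodule.span (ZMod 2) (Set.range c) ≤ LinearMap.ker φ := by
    rw [Submodule.span_le]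
    rintro _ ⟨i, rfl⟩
    simp only [SetLike.mem_coe, LinearMap.mem_ker, hφ]
    fin_cases i
    · obtain ⟨a, b, d⟩ := h0' _ (hc 0); simp [a, b, d]
    · obtain ⟨a, b, d⟩ := h1 _ (hc 1); simp [a, b, d]
    · obtain ⟨a, b, d⟩ := h2 _ (hc 2); simp [a, b, d]
    · obtain ⟨a, b⟩ := h3 _ (hc 3); simp [a, b, two]
    · obtain ⟨a, b⟩ := h4 _ (hc 4); simp [a, b, two]
    · obtain ⟨a, b⟩ := h5 _ (hc 5)
      simp only [Fin.reduceFinMk, a, b, mul_one]
      rw [← h0]; ring
  have he : (Pi.single 5 1 : V) ∉ Submodule.span (ZMod 2) (Set.range c) := by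
    intro h
    have := hker h
    rw [LinearMap.mem_ker, hφ] at this
    simp at this
  have hind : linM.Indep (insert (Pi.single 5 1 : V) (Set.range c)) := by
    rw [linM_indep]
    exact ((linM_indep _).1 hb.indep).id_insert he
  have heq := hb.eq_of_subset_indep hind (Set.subset_insert _ _)
  apply he
  apply Submodule.subset_span
  rw [heq]
  exact Set.mem_insert _ _

/-- The negation of the preceding statement: For even k and a rank-k matroid, if k sets of size k have multiset union equal to that of k bases, then each set's elements can be spread over k columns so every column takes one element per set and forms a basis. -/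
theorem result :
    ¬ (∀ (α : Type) (M : Matroid α) (k : ℕ), Even k →
      ∀ (F B : Fin k → Finset α),
        (∀ i, M.IsBase (↑(B i) : Set α)) →
        (∀ i, (B i).card = k) →
        (∀ i, (F i).card = k) →
        (∑ i, (F i).val = ∑ i, (B i).val) →
        ∃ σ : Fin k → Fin k → α,
          (∀ i, Function.Injective (σ i) ∧ ∀ j, σ i j ∈ F i) ∧
          (∀ j, Function.Injective (fun i => σ i j) ∧
            M.IsBase (Set.range (fun i => σ i j)))) := by
  intro h
  obtain ⟨σ, hrow, hcol⟩ := h V linM 6 (by decide) F B B_base B_card F_card FB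
  have hs : ∀ i, ∑ j, σ i j 5 = ∑ x ∈ F i, x 5 := by
    intro i
    have him : Finset.univ.image (σ i) = F i := by
      apply Finset.eq_of_subset_of_card_le
      · intro x hx
        obtain ⟨j, -, rfl⟩ := Finset.mem_image.1 hx
        exact (hrow i).2 j
      · rw [Finset.card_image_of_injective _ (hrow i).1, F_card]; simp
    rw [← him, Finset.sum_image (fun a _ b _ hab => (hrow i).1 hab)]
  have hc : ∀ j, σ 3 j 5 + σ 4 j 5 + σ 5 j 5 = 1 := fun j =>
    col (fun i => σ i j) (fun i => (hrow i).2 j) (hcol j).2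
  have h1 := F_sum
  rw [← hs 3, ← hs 4, ← hs 5, ← Finset.sum_add_distrib, ← Finset.sum_add_distrib] at h1
  simp only [hc] at h1
  revert h1
  decide

end Pool.Agent.S10122
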