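import Pool.Statements.S10153

set_option autoImplicit false
open Pool Pool.MP_91f506_co

namespace Pool.Agent.S10153

open Finset

variable {V : Type} [Fintype V] [DecidableEq V]

theorem kernel_vec (N : V → Finset V) (F : Finset V) (h : F.card < (F.biUnion N).card) :
    ∃ y : V → ℚ, (∃ x ∈ F.biUnion N, y x ≠ 0) ∧ ∀ w ∈ F, ∑ x ∈ N w, y x = 0 := by
  set U := F.biUnion N with hU
  let L : (U → ℚ) →ₗ[ℚ] (F → ℚ) :=
    LinearMap.pi (fun w => ∑ x : U, if x.1 ∈ N w.1 then LinearMap.proj x else 0)
  have hker : LinearMap.ker L ≠ ⊥ := by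
    apply LinearMap.ker_ne_bot_of_finrank_lt
    simpa using h
  obtain ⟨y0, hy0, hne⟩ := (Submodule.ne_bot_iff _).mp hker
  refine ⟨fun x => if hx : x ∈ U then y0 ⟨x, hx⟩ else 0, ?_, ?_⟩
  · by_contra hh
    push Not at hh
    apply hne
    funext x
    have := hh x.1 x.2
    simpa using this
  · intro w hw
    have h1 := congrFun (LinearMap.mem_ker.mp hy0) ⟨w, hw⟩
    simp only [L, LinearMap.pi_apply, LinearMap.coe_sum, Finset.sum_apply, Pi.zero_apply] at h1
    have h2 : ∑ x ∈ N w, (if hx : x ∈ U then y0 ⟨x, hx⟩ else 0) =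
        ∑ x ∈ U, if x ∈ N w then (if hx : x ∈ U then y0 ⟨x, hx⟩ else 0) else 0 := by
      rw [← Finset.sum_filter]
      apply Finset.sum_congr _ (fun _ _ => rfl)
      ext x
      simp only [mem_filter]
      exact ⟨fun hx => ⟨mem_biUnion.mpr ⟨w, hw, hx⟩, hx⟩, fun hx => hx.2⟩
    rw [h2, ← Finset.sum_coe_sort U]
    refine Eq.trans ?_ h1
    apply Finset.sum_congr rfl
    intro x _
    by_cases h3 : x.1 ∈ N w
    · simp [h3]
    · simp [h3]

theorem seymour (N : V → Finset V) (F : Finset V)
    (h : ∀ F' ⊆ F, F'.Nonempty → F'.card < (F'.biUnion N).card) :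
    ∃ A : Finset V, ∀ w ∈ F, (∃ x ∈ N w, x ∈ A) ∧ (∃ x ∈ N w, x ∉ A) := by
  induction F using Finset.strongInduction with
  | H F ih =>
    rcases F.eq_empty_or_nonempty with rfl | hF
    · exact ⟨∅, by simp⟩
    obtain ⟨y, ⟨x0, hx0, hy0⟩, hy⟩ := kernel_vec N F (h F subset_rfl hF)
    set F' := F.filter (fun w => ∀ x ∈ N w, y x = 0) with hF'
    have hss : F' ⊂ F := by
      refine ⟨filter_subset _ _, fun hsub => ?_⟩
      obtain ⟨w, hw, hxw⟩ := mem_biUnion.mp hx0
      exact hy0 ((mem_filter.mp (hsub hw)).2 x0 hxw)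
    obtain ⟨A, hA⟩ := ih F' hss (fun F'' h1 h2 => h F'' (h1.trans hss.1) h2)
    refine ⟨univ.filter (fun x => 0 < y x ∨ (y x = 0 ∧ x ∈ A)), fun w hw => ?_⟩
    by_cases hw' : w ∈ F'
    · obtain ⟨⟨a, ha, haA⟩, ⟨b, hb, hbA⟩⟩ := hA w hw'
      have hz := (mem_filter.mp hw').2
      refine ⟨⟨a, ha, ?_⟩, ⟨b, hb, ?_⟩⟩
      · simp [hz a ha, haA]
      · simp [hz b hb, hbA]
    · have hnz : ∃ x ∈ N w, y x ≠ 0 := by
        by_contra hh
        push Not at hh
        exact hw' (mem_filter.mpr ⟨hw, hh⟩)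
      obtain ⟨x, hx, hxy⟩ := hnz
      have hs := hy w hw
      constructor
      · by_contra hh
        push Not at hh
        have hle : ∀ z ∈ N w, y z ≤ 0 := by
          intro z hz
          have := hh z hz
          simp only [mem_filter, mem_univ, true_and, not_or, not_lt] at this
          exact this.1
        exact hxy ((Finset.sum_eq_zero_iff_of_nonpos hle).mp hs x hx)
      · by_contra hh
        push Not at hh
        have hle : ∀ z ∈ N w, 0 ≤ y z := by
          intro z hz
          have := hh z hz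
          simp only [mem_filter, mem_univ, true_and] at this
          rcases this with h1 | h1
          · exact h1.le
          · exact h1.1.ge
        exact hxy ((Finset.sum_eq_zero_iff_of_nonneg hle).mp hs x hx)

theorem tight_closed (N : V → Finset V) (h3 : ∀ w, (N w).card = 3)
    (hd : ∀ x, (univ.filter (fun w => x ∈ N w)).card = 3) (F : Finset V)
    (h : (F.biUnion N).card ≤ F.card) :
    (F.biUnion N).card = F.card ∧ ∀ x ∈ F.biUnion N, ∀ w, x ∈ N w → w ∈ F := by
  set U := F.biUnion N with hU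
  have h1 : ∑ w ∈ F, (N w).card = ∑ x ∈ U, (F.filter (fun w => x ∈ N w)).card := by
    simp only [card_filter]
    rw [Finset.sum_comm]
    apply Finset.sum_congr rfl
    intro w hw
    rw [← card_filter]
    congr 1
    ext x
    simp only [mem_filter]
    exact ⟨fun hx => ⟨mem_biUnion.mpr ⟨w, hw, hx⟩, hx⟩, fun hx => hx.2⟩
  have hle : ∀ x ∈ U, (F.filter (fun w => x ∈ N w)).card ≤ 3 := by
    intro x _
    rw [← hd x]
    exact card_le_card (filter_subset_filter _ (subset_univ _))
  have h2 : ∑ x ∈ U, (F.filter (fun w => x ∈ N w)).card ≤ ∑ x ∈ U, 3 := sum_le_sum hle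
  simp only [h3, sum_const, smul_eq_mul] at h1 h2
  have heq : U.card = F.card := by omega
  refine ⟨heq, fun x hx w hw => ?_⟩
  have h4 : ∑ x ∈ U, (F.filter (fun w => x ∈ N w)).card = ∑ x ∈ U, 3 := by
    simp only [sum_const, smul_eq_mul]; omega
  have h5 := (Finset.sum_eq_sum_iff_of_le hle).mp h4 x hx
  have h6 : F.filter (fun w => x ∈ N w) = univ.filter (fun w => x ∈ N w) := by
    apply eq_of_subset_of_card_le (filter_subset_filter _ (subset_univ _))
    rw [hd x, h5]
  have : w ∈ F.filter (fun w => x ∈ N w) := by rw [h6]; simpa using hw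
  exact (mem_filter.mp this).1

theorem swap_lemma (N : V → Finset V) (h3 : ∀ w, (N w).card = 3)
    (hd : ∀ x, (univ.filter (fun w => x ∈ N w)).card = 3) (F : Finset V)
    (ht : (F.biUnion N).card ≤ F.card)
    (hmin : ∀ F' ⊂ F, F'.Nonempty → F'.card < (F'.biUnion N).card)
    (v : V) (hv : v ∈ F.biUnion N) :
    ∃ u ∈ F.biUnion N, ∃ T : Bool → Finset V, (∀ b, ∀ w ∈ F, ∃ x ∈ N w, x ∈ T b) ∧
      ∀ x, ((if x ∈ T true then 1 else 0) + (if x ∈ T false then 1 else 0) +
        (if u = x then 1 else 0) : ℕ) ≤ 1 + if v = x then 1 else 0 := by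
  obtain ⟨hcard, hcl⟩ := tight_closed N h3 hd F ht
  set U := F.biUnion N with hU
  set Fv := F.filter (fun w => v ∉ N w) with hFv
  have hFvcard : Fv.card + 3 = F.card := by
    have h6 : F.filter (fun w => v ∈ N w) = univ.filter (fun w => v ∈ N w) := by
      ext w
      simp only [mem_filter, mem_univ, true_and]
      exact ⟨fun h => h.2, fun h => ⟨hcl v hv w h, h⟩⟩
    have := card_filter_add_card_filter_not (s := F) (fun w => v ∈ N w)
    rw [h6, hd v, ← hFv] at this
    omega
  have hss : Fv ⊂ F := by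
    refine ⟨filter_subset _ _, fun hsub => ?_⟩
    have := card_le_card hsub
    omega
  obtain ⟨A, hA⟩ := seymour N Fv (fun F' h1 h2 => hmin F' (lt_of_le_of_lt h1 hss) h2)
  let crit : V → Finset V := fun w =>
    (N w).filter (fun u => ∀ x ∈ N w, (x ∈ A ↔ u ∈ A) → x = u)
  have hcrit : ∀ w ∈ Fv, (crit w).card ≤ 1 := by
    intro w _
    rw [card_le_one]
    intro a ha b hb
    by_contra hab
    obtain ⟨ha1, ha2⟩ := mem_filter.mp ha
    obtain ⟨hb1, hb2⟩ := mem_filter.mp hb
    have hsub : N w ⊆ {a, b} := by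
      intro x hx
      simp only [mem_insert, mem_singleton]
      by_cases h1 : (x ∈ A ↔ a ∈ A)
      · exact Or.inl (ha2 x hx h1)
      · by_cases h2 : (x ∈ A ↔ b ∈ A)
        · exact Or.inr (hb2 x hx h2)
        · exfalso
          apply hab
          apply hb2 a ha1
          tauto
    have := card_le_card hsub
    have h2 := card_le_two (a := a) (b := b)
    rw [h3] at this
    omega
  have hbad : (insert v (Fv.biUnion crit)).card < U.card := by
    have h1 := card_biUnion_le_card_mul Fv crit 1 hcrit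
    have h2 := card_insert_le v (Fv.biUnion crit)
    omega
  obtain ⟨u, huU, hu⟩ := exists_mem_notMem_of_card_lt_card hbad
  have huv : u ≠ v := fun h => hu (by rw [h]; exact mem_insert_self _ _)
  have hunc : ∀ w ∈ Fv, u ∉ crit w := fun w hw h =>
    hu (mem_insert_of_mem (mem_biUnion.mpr ⟨w, hw, h⟩))
  refine ⟨u, huU, fun b => univ.filter (fun x => x = v ∨ (x ≠ u ∧ (x ∈ A ↔ b = true))), ?_, ?_⟩
  · intro b w hw
    by_cases hvw : v ∈ N w
    · exact ⟨v, hvw, by simp⟩
    · have hw' : w ∈ Fv := mem_filter.mpr ⟨hw, hvw⟩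
      have hex : ∃ x ∈ N w, (x ∈ A ↔ b = true) := by
        cases b
        · obtain ⟨x, hx, hxA⟩ := (hA w hw').2
          exact ⟨x, hx, by simpa using hxA⟩
        · obtain ⟨x, hx, hxA⟩ := (hA w hw').1
          exact ⟨x, hx, by simpa using hxA⟩
      obtain ⟨x, hx, hxA⟩ := hex
      by_cases hxu : x = u
      · have := hunc w hw'
        simp only [crit, mem_filter, not_and, not_forall] at this
        obtain ⟨z, hz, hz1, hz2⟩ := this (hxu ▸ hx)
        refine ⟨z, hz, ?_⟩
        simp only [mem_filter, mem_univ, true_and]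
        right
        refine ⟨hz2, ?_⟩
        rw [hz1, ← hxu]; exact hxA
      · refine ⟨x, hx, ?_⟩
        simp only [mem_filter, mem_univ, true_and]
        exact Or.inr ⟨hxu, hxA⟩
  · intro x
    simp only [mem_filter, mem_univ, true_and]
    by_cases h1 : x = v
    · subst h1
      simp [huv]
    · by_cases h2 : x = u
      · subst h2
        simp [h1]
      · have h1' : ¬ v = x := fun h => h1 h.symm
        have h2' : ¬ u = x := fun h => h2 h.symm
        by_cases h4 : x ∈ A <;> simp [h1, h2, h1', h2', h4]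

theorem exists_core (U : Finset V) (hU : U.Nonempty) (φ : V → V) (hφ : ∀ v ∈ U, φ v ∈ U) :
    ∃ C : Finset V, C.Nonempty ∧ C ⊆ U ∧ C ⊆ C.image φ := by
  obtain ⟨C, hC, hmin⟩ := exists_min_image
    (univ.filter (fun C : Finset V => C.Nonempty ∧ C ⊆ U ∧ C.image φ ⊆ C)) card
    ⟨U, by
      simp only [mem_filter, mem_univ, true_and]
      exact ⟨hU, subset_rfl, image_subset_iff.mpr hφ⟩⟩
  simp only [mem_filter, mem_univ, true_and] at hC hmin
  refine ⟨C, hC.1, hC.2.1, ?_⟩
  have := hmin (C.image φ) ⟨hC.1.image _, hC.2.2.trans hC.2.1, image_subset_image hC.2.2⟩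
  exact (eq_of_subset_of_card_le hC.2.2 this).ge

def Good (N : V → Finset V) (F : Finset V) : Prop :=
  ∃ (I : Type) (_ : Fintype I) (T : I → Finset V), 0 < Fintype.card I ∧
    (∀ i, ∀ w ∈ F, ∃ x ∈ N w, x ∈ T i) ∧
    ∀ x, 2 * (∑ i, if x ∈ T i then 1 else 0) ≤ Fintype.card I

theorem good_tight (N : V → Finset V) (h3 : ∀ w, (N w).card = 3)
    (hd : ∀ x, (univ.filter (fun w => x ∈ N w)).card = 3) (F : Finset V) (hF : F.Nonempty)
    (ht : (F.biUnion N).card ≤ F.card)
    (hmin : ∀ F' ⊂ F, F'.Nonempty → F'.card < (F'.biUnion N).card) : Good N F := by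
  have key := swap_lemma N h3 hd F ht hmin
  choose! φ hφ T hT1 hT2 using key
  have hU : (F.biUnion N).Nonempty := by
    obtain ⟨w, hw⟩ := hF
    have : (N w).Nonempty := by rw [← card_pos, h3]; norm_num
    obtain ⟨x, hx⟩ := this
    exact ⟨x, mem_biUnion.mpr ⟨w, hw, hx⟩⟩
  obtain ⟨C, hC, hCU, hCφ⟩ := exists_core _ hU φ hφ
  refine ⟨C × Bool, inferInstance, fun p => T p.1.1 p.2, ?_, ?_, ?_⟩
  · simpa using hC
  · intro p w hw
    exact hT1 p.1.1 (hCU p.1.2) p.2 w hw
  · intro x
    rw [Fintype.sum_prod_type]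
    simp only [Fintype.sum_bool, Fintype.card_prod, Fintype.card_coe, Fintype.card_bool]
    rw [Finset.sum_coe_sort C
      (fun v => (if x ∈ T v true then 1 else 0) + (if x ∈ T v false then 1 else 0))]
    have h1 := Finset.sum_le_sum (s := C) (fun v hv => hT2 v (hCU hv) x)
    rw [sum_add_distrib, sum_add_distrib (f := fun _ => 1)] at h1
    have h2 : (∑ v ∈ C, if v = x then 1 else 0) ≤ ∑ v ∈ C, if φ v = x then 1 else 0 := by
      rw [Finset.sum_ite_eq' C x]
      split_ifs with hx
      · obtain ⟨v, hv, hvx⟩ := mem_image.mp (hCφ hx)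
        calc 1 = if φ v = x then 1 else 0 := by simp [hvx]
          _ ≤ _ := Finset.single_le_sum (f := fun v => if φ v = x then 1 else 0)
              (fun _ _ => Nat.zero_le _) hv
      · exact Nat.zero_le _
    simp only [sum_const, smul_eq_mul, mul_one] at h1
    omega

theorem good_all (N : V → Finset V) (h3 : ∀ w, (N w).card = 3)
    (hd : ∀ x, (univ.filter (fun w => x ∈ N w)).card = 3) (F : Finset V) : Good N F := by
  induction F using Finset.strongInduction with
  | H F ih =>
    by_cases hex : ∃ F' ⊆ F, F'.Nonempty ∧ (F'.biUnion N).card ≤ F'.card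
    · obtain ⟨F0, hF0, hmin⟩ := exists_min_image
        (univ.filter (fun F' : Finset V => F' ⊆ F ∧ F'.Nonempty ∧ (F'.biUnion N).card ≤ F'.card))
        card (by
          obtain ⟨F', h⟩ := hex
          exact ⟨F', by simpa using h⟩)
      simp only [mem_filter, mem_univ, true_and] at hF0 hmin
      obtain ⟨I, _, T, hI, hT1, hT2⟩ := good_tight N h3 hd F0 hF0.2.1 hF0.2.2 (by
        intro F' h1 h2
        by_contra hh
        have := hmin F' ⟨h1.1.trans hF0.1, h2, not_lt.mp hh⟩
        have := card_lt_card h1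
        omega)
      obtain ⟨J, _, S, hJ, hS1, hS2⟩ := ih (F \ F0) (sdiff_ssubset hF0.1 hF0.2.1)
      have hcl := (tight_closed N h3 hd F0 hF0.2.2).2
      refine ⟨I × J, inferInstance, fun p => univ.filter (fun x =>
        if x ∈ F0.biUnion N then x ∈ T p.1 else x ∈ S p.2), ?_, ?_, ?_⟩
      · rw [Fintype.card_prod]; exact Nat.mul_pos hI hJ
      · intro p w hw
        by_cases hw0 : w ∈ F0
        · obtain ⟨x, hx, hxT⟩ := hT1 p.1 w hw0
          refine ⟨x, hx, ?_⟩
          have : x ∈ F0.biUnion N := mem_biUnion.mpr ⟨w, hw0, hx⟩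
          simp only [mem_filter, mem_univ, true_and, this, if_true]
          exact hxT
        · obtain ⟨x, hx, hxT⟩ := hS1 p.2 w (mem_sdiff.mpr ⟨hw, hw0⟩)
          refine ⟨x, hx, ?_⟩
          have : x ∉ F0.biUnion N := fun h => hw0 (hcl x h w hx)
          simp only [mem_filter, mem_univ, true_and, this, if_false]
          exact hxT
      · intro x
        rw [Fintype.card_prod]
        by_cases hx : x ∈ F0.biUnion N
        · simp only [mem_filter, mem_univ, true_and, hx, if_true]
          rw [Fintype.sum_prod_type_right]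
          show 2 * ∑ _j : J, (∑ i : I, if x ∈ T i then 1 else 0) ≤ _
          rw [sum_const, card_univ, smul_eq_mul]
          have := hT2 x
          nlinarith
        · simp only [mem_filter, mem_univ, true_and, hx, if_false]
          rw [Fintype.sum_prod_type]
          show 2 * ∑ _i : I, (∑ j : J, if x ∈ S j then 1 else 0) ≤ _
          rw [sum_const, card_univ, smul_eq_mul]
          have := hS2 x
          nlinarith
    · push Not at hex
      obtain ⟨A, hA⟩ := seymour N F hex
      refine ⟨Bool, inferInstance, fun b => if b then A else Aᶜ, by simp, ?_, ?_⟩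
      · intro b w hw
        cases b
        · simpa using (hA w hw).2
        · simpa using (hA w hw).1
      · intro x
        rw [Fintype.sum_bool]
        by_cases hx : x ∈ A <;> simp [hx]

theorem result :
    ∀ (V : Type) [Fintype V] [DecidableEq V] (G : SimpleGraph V) [DecidableRel G.Adj],
      G.IsRegularOfDegree 3 →
      ∃ w : Finset V → ℝ,
        (∀ S, 0 ≤ w S) ∧
        (∀ S, w S ≠ 0 → ∀ v : V, ∃ u ∈ S, G.Adj v u) ∧
        (∀ v : V, ∑ S ∈ Finset.univ.filter (fun S : Finset V => v ∈ S), w S ≤ 1) ∧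
        2 ≤ ∑ S, w S := by
  intro V _ _ G _ hG
  obtain ⟨I, _, T, hI, hT1, hT2⟩ := good_all (fun w => G.neighborFinset w) (fun w => hG.degree_eq w)
    (fun x => by
      rw [← hG.degree_eq x, ← G.card_neighborFinset_eq_degree]
      congr 1
      ext w
      simp [G.adj_comm]) univ
  have hI' : (0 : ℝ) < Fintype.card I := by exact_mod_cast hI
  refine ⟨fun S => 2 / Fintype.card I * ∑ i, if T i = S then 1 else 0, ?_, ?_, ?_, ?_⟩
  · intro S
    apply mul_nonneg (by positivity)
    exact sum_nonneg (fun i _ => by split_ifs <;> norm_num)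
  · intro S hS v
    have h1 := right_ne_zero_of_mul hS
    obtain ⟨i, _, hi⟩ := exists_ne_zero_of_sum_ne_zero h1
    have hiS : T i = S := by
      by_contra h
      simp [h] at hi
    obtain ⟨x, hx, hxT⟩ := hT1 i v (mem_univ _)
    exact ⟨x, hiS ▸ hxT, by simpa using hx⟩
  · intro v
    rw [← mul_sum, sum_comm]
    have h1 : ∀ i, (∑ S ∈ univ.filter (fun S : Finset V => v ∈ S), if T i = S then (1 : ℝ) else 0)
        = if v ∈ T i then 1 else 0 := by
      intro i
      rw [Finset.sum_ite_eq]
      simp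
    simp only [h1]
    have h2 : (2 : ℝ) * (∑ i, if v ∈ T i then 1 else 0) ≤ Fintype.card I := by
      exact_mod_cast hT2 v
    rw [div_mul_eq_mul_div, div_le_one hI']
    exact h2
  · rw [← mul_sum, sum_comm]
    simp only [Finset.sum_ite_eq, mem_univ, if_true, sum_const, card_univ, nsmul_eq_mul, mul_one]
    rw [div_mul_cancel₀ _ hI'.ne']

end Pool.Agent.S10153
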