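import Pool.Statements.S10161
import Pool.Agent.Lib.helper14.Count

set_option autoImplicit false
open Pool Pool.MP_9219e0_co

namespace Pool.Agent.S10161

/-- For every subgraph-closed class of bipartite graphs whose associated height-2 posets (lower side below adjacent upper vertices) all have dimension at most some d, there is D with every member having at most D times its vertex count edges. -/
theorem result :
    ∀ C : (m : ℕ) → (n : ℕ) → (Fin m → Fin n → Prop) → Prop,
      (∀ (m n : ℕ) (R : Fin m → Fin n → Prop) (m' n' : ℕ) (R' : Fin m' → Fin n' → Prop)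
          (e : Fin m' ↪ Fin m) (g : Fin n' ↪ Fin n),
          C m n R → (∀ a b, R' a b → R (e a) (g b)) → C m' n' R') →
      (∃ d : ℕ, ∀ (m n : ℕ) (R : Fin m → Fin n → Prop), C m n R →
          ∃ f : Fin d → (Fin m ⊕ Fin n) → ℕ,
            (∀ i, Function.Injective (f i)) ∧
            ∀ x y : Fin m ⊕ Fin n, x ≠ y →
              ((∃ a b, x = Sum.inl a ∧ y = Sum.inr b ∧ R a b) ↔ ∀ i, f i x < f i y)) →
      ∃ D : ℕ, ∀ (m n : ℕ) (R : Fin m → Fin n → Prop), C m n R →
        Set.ncard {p : Fin m × Fin n | R p.1 p.2} ≤ D * (m + n) := by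
  classical
  rintro C hC ⟨d, hd⟩
  refine ⟨(4 * d).factorial + 4 * d, fun m n R hR => ?_⟩
  let e : Fin m × Fin n → (Fin m ⊕ Fin n) × (Fin m ⊕ Fin n) := fun p => (Sum.inl p.1, Sum.inr p.2)
  have he : Function.Injective e := by
    intro p q h
    simp only [e, Prod.mk.injEq, Sum.inl.injEq, Sum.inr.injEq] at h
    exact Prod.ext h.1 h.2
  let E0 : Finset (Fin m × Fin n) := Finset.univ.filter fun p => R p.1 p.2
  have h1 : Set.ncard {p : Fin m × Fin n | R p.1 p.2} = (E0.image e).card := by
    rw [Finset.card_image_of_injective _ he, ← Set.ncard_coe_finset]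
    congr 1; ext p; simp [E0]
  have h2 := Pool.Agent.H14Count.count d (E0.image e) (by
    intro S hS
    obtain ⟨f, hf, hf'⟩ := hd m n (fun a b => e (a, b) ∈ S)
      (hC m n R m n _ (Function.Embedding.refl _) (Function.Embedding.refl _) hR (by
        intro a b hab
        obtain ⟨p, hp, hpe⟩ := Finset.mem_image.1 (hS hab)
        rw [he hpe] at hp
        simpa [E0] using hp))
    refine ⟨f, hf, fun p hp => ?_⟩
    obtain ⟨q, hq, rfl⟩ := Finset.mem_image.1 hp
    rw [← hf' _ _ (by simp [e])]
    simp [e])
  rw [h1]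
  simpa using h2

end Pool.Agent.S10161
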