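import Pool.Statements.S10173
import Pool.Agent.Lib.helper29.Isoclinic

set_option autoImplicit false
open Pool Pool.MP_932050_co

namespace Pool.Agent.S10173

open Pool.Agent.Lib.H29.Isoclinic

/-- For every k ≥ 1 and α in [0,1] there is C such that, for all d ≥ k, any finite set of distinct k-dimensional subspaces of ℝ^d, pairwise equi-isoclinic with angle α, has at most C·d members. -/
theorem result :
    ∀ k : ℕ, 1 ≤ k → ∀ α : ℝ, 0 ≤ α → α ≤ 1 →
      ∃ C : ℝ, ∀ d : ℕ, k ≤ d →
        ∀ S : Finset (Submodule ℝ (EuclideanSpace ℝ (Fin d))),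
          (∀ U ∈ S, Module.finrank ℝ U = k) →
          (∀ U ∈ S, ∀ V ∈ S, U ≠ V →
            ∀ u ∈ U, ‖u‖ = 1 → ‖V.orthogonalProjection u‖ = α) →
          (S.card : ℝ) ≤ C * d := by
  classical
  intro k hk α hα0 hα1
  rcases hα0.eq_or_lt with rfl | hpos
  · refine ⟨1, fun d _ S hS hT => ?_⟩
    have := zero_case S (fun U hU => by rw [hS U hU]; exact hk) hT
    rw [finrank_euclideanSpace_fin] at this
    rw [one_mul]
    exact_mod_cast this
  rcases hα1.eq_or_lt with rfl | hlt
  · refine ⟨1, fun d hd S hS hT => ?_⟩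
    have := one_case S k hS hT
    rw [one_mul]
    exact_mod_cast this.trans (hk.trans hd)
  have hp : 0 < α ^ 2 * (1 - α) := mul_pos (by positivity) (by linarith)
  refine ⟨(k + 1) / (α ^ 2 * (1 - α)) + 1, fun d hd S hS hT => ?_⟩
  have hd1 : (1 : ℝ) ≤ d := by exact_mod_cast hk.trans hd
  rcases S.eq_empty_or_nonempty with rfl | ⟨U0, hU0⟩
  · simp only [Finset.card_empty, Nat.cast_zero]
    positivity
  obtain ⟨u, hu, hu1⟩ := exists_unit U0 (by rw [hS U0 hU0]; exact hk)
  have key := main_bound (EuclideanSpace.basisFun (Fin d) ℝ) k α hα0 hα1 (S.erase U0)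
    (fun U hU => hS U (Finset.mem_of_mem_erase hU))
    (fun U hU V hV => hT U (Finset.mem_of_mem_erase hU) V (Finset.mem_of_mem_erase hV))
    u hu1 (fun V hV => hT U0 hU0 V (Finset.mem_of_mem_erase hV)
      (Finset.ne_of_mem_erase hV).symm u hu hu1)
  have hc : (S.card : ℝ) = (S.erase U0).card + 1 := by
    exact_mod_cast (Finset.card_erase_add_one hU0).symm
  have h2 : ((S.erase U0).card : ℝ) ≤ (k + 1) / (α ^ 2 * (1 - α)) * d := by
    rw [div_mul_eq_mul_div, le_div_iff₀ hp]
    nlinarith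
  rw [hc, add_mul]
  linarith

end Pool.Agent.S10173
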