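import Pool.Statements.S10196
import Pool.Agent.Lib.Helper33.Chk

set_option autoImplicit false
open Pool Pool.MP_93ee52_co Pool.Agent.Lib.Helper33

namespace Pool.Agent.S10196

/-- Oriented edges: vertices 0..7 are the a_i, 8..15 the b_i (a_i b_i a perfect matching),
16, 17 are joined to every a_i and 18, 19 are joined to every b_i. -/
def rel (u v : ℕ) : Bool :=
  (Nat.blt u 8 && Nat.beq v (u + 8)) ||
  (Nat.blt u 8 && (Nat.beq v 16 || Nat.beq v 17)) ||
  (Nat.ble 8 u && Nat.blt u 16 && (Nat.beq v 18 || Nat.beq v 19))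

def adj (u v : ℕ) : Bool := rel u v || rel v u

def G : SimpleGraph (Fin 20) where
  Adj u v := adj u.val v.val = true
  symm := ⟨fun u v h => by simpa [adj, or_comm] using h⟩
  loopless := ⟨by decide⟩

instance : DecidableRel G.Adj := fun u v =>
  inferInstanceAs (Decidable (adj u.val v.val = true))

lemma deg : ∀ v : Fin 20, 3 ≤ G.degree v := by decide +kernel

lemma tri' : allLt 20 (fun a => allLt 20 (fun b => allLt 20 (fun c =>
    !(adj a b && adj a c && adj b c)))) = true := by decide +kernel

lemma cf : G.CliqueFree 3 := by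
  intro s hs
  rw [SimpleGraph.is3Clique_iff] at hs
  obtain ⟨a, b, c, hab, hac, hbc, -⟩ := hs
  have h := tri'
  simp only [allLt_iff] at h
  have h' := h a.val a.isLt b.val b.isLt c.val c.isLt
  have hab' : adj a.val b.val = true := hab
  have hac' : adj a.val c.val = true := hac
  have hbc' : adj b.val c.val = true := hbc
  simp [hab', hac', hbc'] at h'

/-- The set coded by m: a_i if bit i of m is set, b_i otherwise. -/
def mem (m : ℕ) (v : ℕ) : Bool :=
  (Nat.blt v 8 && m.testBit v) || (Nat.ble 8 v && Nat.blt v 16 && !(m.testBit (v - 8)))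

def F (m : Fin 254) : Set (Fin 20) := {v | mem (m.val + 1) v.val = true}

lemma indep : allLt 254 (fun m => allLt 20 (fun u => !(mem (m + 1) u) ||
    allLt 20 (fun v => !(mem (m + 1) v && adj u v)))) = true := by decide +kernel

lemma dom : allLt 254 (fun m => allLt 20 (fun v => mem (m + 1) v ||
    anyLt 20 (fun u => mem (m + 1) u && adj u v))) = true := by decide +kernel

lemma inj : Function.Injective F := by
  intro m m' h
  have key : ∀ i, (m.val + 1).testBit i = (m'.val + 1).testBit i := by
    intro i
    by_cases hi : i < 8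
    · have : (⟨i, by omega⟩ : Fin 20) ∈ F m ↔ (⟨i, by omega⟩ : Fin 20) ∈ F m' := by rw [h]
      have h1 : Nat.blt i 8 = true := by simpa [Nat.blt_eq] using hi
      have h2 : Nat.ble 8 i = false := by
        rw [Bool.eq_false_iff]; intro h3; rw [Nat.ble_eq] at h3; omega
      simp only [F, Set.mem_ofPred_eq, mem, h1, h2, Bool.true_and, Bool.false_and,
        Bool.or_false] at this
      exact Bool.eq_iff_iff.mpr this
    · have h8 : 2 ^ 8 ≤ 2 ^ i := Nat.pow_le_pow_right (by norm_num) (by omega)
      rw [Nat.testBit_lt_two_pow (by have := m.isLt; omega),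
        Nat.testBit_lt_two_pow (by have := m'.isLt; omega)]
  have := Nat.eq_of_testBit_eq key
  exact Fin.ext (by omega)

lemma maxF (m : Fin 254) : Maximal G.IsIndepSet (F m) := by
  refine ⟨?_, ?_⟩
  · intro u hu v hv _ huv
    have h := indep
    simp only [allLt_iff] at h
    have h' := h m.val m.isLt u.val u.isLt
    have hu' : mem (m.val + 1) u.val = true := hu
    have hv' : mem (m.val + 1) v.val = true := hv
    have huv' : adj u.val v.val = true := huv
    simp only [hu', Bool.not_true, Bool.false_or, allLt_iff] at h'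
    have h'' := h' v.val v.isLt
    simp [hv', huv'] at h''
  · intro t ht hle v hv
    have h := dom
    simp only [allLt_iff] at h
    have h' := h m.val m.isLt v.val v.isLt
    rw [Bool.or_eq_true, anyLt_iff] at h'
    rcases h' with h' | ⟨u, hu, h'⟩
    · exact h'
    · rw [Bool.and_eq_true] at h'
      have huv : G.Adj ⟨u, hu⟩ v := h'.2
      have hu2 : (⟨u, hu⟩ : Fin 20) ∈ F m := h'.1
      exact absurd huv (ht (hle hu2) hv huv.ne)

/-- Counterexample with n = 2: at least 254 > 225 maximal independent sets. -/
theorem result :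
    ¬ (∀ (n : ℕ) (G : SimpleGraph (Fin (10 * n))) [DecidableRel G.Adj],
      G.CliqueFree 3 →
      (∀ v : Fin (10 * n), 3 ≤ G.degree v) →
      {s : Set (Fin (10 * n)) | Maximal G.IsIndepSet s}.ncard ≤ 15 ^ n) := by
  intro h
  have h2 := h 2 G cf deg
  have hsub : Set.range F ⊆ {s : Set (Fin 20) | Maximal G.IsIndepSet s} := by
    rintro _ ⟨m, rfl⟩
    exact maxF m
  have hle := Set.ncard_le_ncard hsub (Set.toFinite _)
  rw [Set.ncard_range_of_injective inj] at hle
  have : (254 : ℕ) ≤ 15 ^ 2 := by
    refine le_trans ?_ h2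
    simpa using hle
  omega

end Pool.Agent.S10196
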