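import Pool.Statements.S10198
-- import your own Pool.Agent.* helpers here

set_option autoImplicit false
open Pool Pool.MP_94225f_co

namespace Pool.Agent.S10198

def N (n M : ℕ) (v u : Fin n) : Bool := M.testBit ((u.val + n - v.val) % n)

def C (n M : ℕ) : SimpleGraph (Fin n) := SimpleGraph.fromRel (fun u v => N n M u v = true)

instance (n M : ℕ) : DecidableRel (C n M).Adj := fun x y => by unfold C; infer_instance

def chk (n M : ℕ) : ℕ → List (Fin n) → Bool
  | _, [] => false
  | 0, _ :: _ => true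
  | k + 1, v :: L => (List.finRange n).all fun u => !N n M v u || chk n M k (L.filter fun w => !N n M w u)

lemma chk_ok (n M k : ℕ) : ∀ (L : List (Fin n)) (S : Finset (Fin n)), chk n M k L = true →
    S.card ≤ k → ¬ ∀ v ∈ L, ∃ u ∈ S, N n M v u = true := by
  induction k with
  | zero =>
    rintro (_ | ⟨v, L⟩) S h hS hh
    · simp [chk] at h
    · obtain ⟨u, hu, -⟩ := hh v (by simp)
      simp [Finset.card_eq_zero.1 (Nat.le_zero.1 hS)] at hu
  | succ k ih =>
    rintro (_ | ⟨v, L⟩) S h hS hh
    · simp [chk] at h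
    · obtain ⟨u, hu, h1⟩ := hh v (by simp)
      simp only [chk, List.all_eq_true, List.mem_finRange, true_imp_iff] at h
      have h2 := h u
      simp only [h1, Bool.not_true, Bool.false_or] at h2
      refine ih _ (S.erase u) h2 (by rw [Finset.card_erase_of_mem hu]; omega) fun w hw => ?_
      obtain ⟨hw1, hw2⟩ := List.mem_filter.1 hw
      obtain ⟨x, hx, h3⟩ := hh w (by simp [hw1])
      refine ⟨x, Finset.mem_erase.2 ⟨?_, hx⟩, h3⟩
      rintro rfl
      simp [h3] at hw2

lemma small (n M k m : ℕ) (h : chk n M k (List.finRange n) = true)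
    (hs : ∀ u v, (u = v ∨ (C n M).Adj v u) → N n M v u = true) (c : Fin n → Fin m)
    (hc : ∀ v i, ∃ u, (u = v ∨ (C n M).Adj v u) ∧ c u = i) : m * (k + 1) ≤ n := by
  have h1 := Finset.card_eq_sum_card_fiberwise (f := c) (s := Finset.univ) (t := Finset.univ)
    (fun _ _ => Finset.mem_univ _)
  have h2 : ∑ _i : Fin m, (k + 1) ≤ ∑ i : Fin m, (Finset.univ.filter (fun v => c v = i)).card :=
    Finset.sum_le_sum fun i _ => by
      by_contra hlt
      refine chk_ok n M k _ (Finset.univ.filter (fun v => c v = i)) h (by omega) fun v _ => ?_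
      obtain ⟨u, a, b⟩ := hc v i
      exact ⟨u, by simp [b], hs u v a⟩
  rw [← h1] at h2
  simpa using h2

def col (a : Fin 24) (b : Fin 12) : Fin 12 := ⟨(a.val + b.val) % 12, Nat.mod_lt _ (by norm_num)⟩

lemma big : ∀ (a : Fin 24) (b i : Fin 12), (∃ c, (C 24 12718215).Adj a c ∧ col c b = i) ∨
    (∃ c, (C 12 857).Adj b c ∧ col a c = i) := by decide +kernel

/-- The negation of the preceding statement: For finite nonempty graphs G, H without isolated vertices, if the Cartesian product splits into k total dominating sets, then for some m with k ≤ 2m+1, G or H splits into m dominating sets; that is, d_t(G□H) ≤ 2max(d(G),d(H))+1. -/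
theorem result :
    ¬ (∀ (V W : Type) [Fintype V] [Fintype W] [Nonempty V] [Nonempty W]
      (G : SimpleGraph V) (H : SimpleGraph W),
      (∀ v : V, ∃ u : V, G.Adj v u) →
      (∀ w : W, ∃ u : W, H.Adj w u) →
      ∀ k : ℕ,
        (∃ f : V × W → Fin k, ∀ x : V × W, ∀ i : Fin k,
            ∃ y : V × W, (SimpleGraph.boxProd G H).Adj x y ∧ f y = i) →
        ∃ m : ℕ, k ≤ 2 * m + 1 ∧
          ((∃ c : V → Fin m, ∀ v : V, ∀ i : Fin m,
              ∃ u : V, (u = v ∨ G.Adj v u) ∧ c u = i) ∨
           (∃ c : W → Fin m, ∀ w : W, ∀ i : Fin m,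
              ∃ u : W, (u = w ∨ H.Adj w u) ∧ c u = i))) := by
  intro h
  obtain ⟨m, hk, hm⟩ := h (Fin 24) (Fin 12) (C 24 12718215) (C 12 857) (by decide +kernel)
    (by decide +kernel) 12 ⟨fun p => col p.1 p.2, by
    rintro ⟨a, b⟩ i
    rcases big a b i with ⟨c, h1, h2⟩ | ⟨c, h1, h2⟩
    · exact ⟨(c, b), by simp [h1], h2⟩
    · exact ⟨(a, c), by simp [h1], h2⟩⟩
  rcases hm with ⟨c, hc⟩ | ⟨c, hc⟩
  · have := small 24 12718215 4 m (by decide +kernel) (by decide +kernel) c hc
    omega
  · have := small 12 857 2 m (by decide +kernel) (by decide +kernel) c hc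
    omega

end Pool.Agent.S10198
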