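import Pool.Statements.S10226
import Pool.Agent.Lib.helper19.TreeDec
import Pool.Agent.Lib.helper19.Draw

set_option autoImplicit false
open Pool Pool.MP_951455_co

namespace Pool.Agent.S10226
open Finset

theorem geom (M D : ℕ) : (∑ d ∈ range D, if 2 ^ d ≤ M then 2 ^ d else 0) ≤ 2 ^ D ∧
    (∑ d ∈ range D, if 2 ^ d ≤ M then 2 ^ d else 0) ≤ 2 * M := by
  induction D with
  | zero => simp
  | succ D ih =>
    rw [sum_range_succ, pow_succ]
    split_ifs <;> omega

theorem deg_sum {m r : ℕ} (H : SimpleGraph (Fin m)) [DecidableRel H.Adj]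
    (T : SimpleGraph (Fin r)) (hT : T.IsTree) (B : Fin r → Finset (Fin m))
    (h2 : ∀ u v, H.Adj u v → ∃ i, u ∈ B i ∧ v ∈ B i)
    (h3 : ∀ v, (T.induce {i | v ∈ B i}).Connected) (h4 : ∀ i, (B i).card ≤ 3 + 1) :
    ∑ v, H.degree v ≤ 8 * m := by
  obtain ⟨top, d, -, ht⟩ := H19Tree.exists_top hT (fun v => {i | v ∈ B i}) h3
  have e1 : ∀ v, H.degree v ≤ (B (top v)).card + (univ.filter (fun u => v ∈ B (top u))).card := by
    intro v
    refine le_trans (card_le_card ?_) (card_union_le _ _)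
    intro u hu
    rw [SimpleGraph.mem_neighborFinset] at hu
    obtain ⟨i, hi1, hi2⟩ := h2 v u hu
    rcases le_total (d u) (d v) with h | h
    · exact mem_union_left _ (ht u v h ⟨i, hi2, hi1⟩)
    · exact mem_union_right _ (mem_filter.mpr ⟨mem_univ _, ht v u h ⟨i, hi1, hi2⟩⟩)
  have e2 : ∑ v, (univ.filter (fun u => v ∈ B (top u))).card = ∑ u, (B (top u)).card := by
    simp only [card_filter]
    rw [sum_comm]
    refine sum_congr rfl fun u _ => ?_
    rw [← card_filter]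
    simp
  have e3 : ∑ u, (B (top u)).card ≤ 4 * m := by
    refine le_trans (sum_le_sum (g := fun _ => 4) fun u _ => h4 _) ?_
    simp [mul_comm]
  refine le_trans (sum_le_sum fun v _ => e1 v) ?_
  rw [sum_add_distrib, e2]
  omega

theorem fibre {α : Type} {m k c : ℕ} (φ : α → Fin m × Fin k × Fin c) (hφ : Function.Injective φ)
    (A : Finset α) (S : Finset (Fin m)) (q : ℕ)
    (h : ∀ a ∈ A, (φ a).1 ∈ S ∧ (φ a).2.1.val ≤ q + 1 ∧ q ≤ (φ a).2.1.val + 1) :
    A.card ≤ S.card * (3 * c) := by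
  have h3 : (univ.filter (fun j : Fin k => j.val ≤ q + 1 ∧ q ≤ j.val + 1)).card ≤ 3 := by
    have : (univ.filter (fun j : Fin k => j.val ≤ q + 1 ∧ q ≤ j.val + 1)).card ≤
        (range 3).card := by
      refine card_le_card_of_injOn (fun j => j.val + 1 - q) ?_ ?_
      · intro j hj
        simp only [coe_filter, mem_univ, true_and, Set.mem_ofPred_eq] at hj
        simp only [coe_range, Set.mem_Iio]
        omega
      · intro j hj j' hj' hjj
        simp only [coe_filter, mem_univ, true_and, Set.mem_ofPred_eq] at hj hj' hjj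
        exact Fin.ext (by omega)
    simpa using this
  have h4 : A.card ≤ (S ×ˢ ((univ.filter (fun j : Fin k => j.val ≤ q + 1 ∧ q ≤ j.val + 1)) ×ˢ
      (univ : Finset (Fin c)))).card := by
    refine card_le_card_of_injOn φ ?_ hφ.injOn
    intro a ha
    have := h a ha
    simp [this]
  rw [card_product, card_product, card_univ, Fintype.card_fin] at h4
  exact h4.trans (Nat.mul_le_mul_left _ (Nat.mul_le_mul_right _ h3))

abbrev W (D : ℕ) : Type := Fin D × Fin 3 × Fin (2 ^ D)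

/-- `u` is the parent of `v`. -/
def R {D : ℕ} (u v : W D) : Prop :=
  u.1 = v.1 ∧ v.2.1.val = u.2.1.val + 1 ∧
    u.2.2.val = if u.2.1.val = 0 then 0 else v.2.2.val / 2 ^ u.1.val

def Γ (D : ℕ) : SimpleGraph (W D) where
  Adj u v := R u v ∨ R v u
  symm := ⟨fun _ _ h => h.symm⟩
  loopless := ⟨fun u h => by rcases h with h | h <;> exact absurd h.2.1 (by omega)⟩

def lev {D : ℕ} (u : W D) : ℕ := 3 * u.1.val + u.2.1.val

theorem lev_inj {D : ℕ} (u v : W D) (h : lev u = lev v) (h2 : u.2.2.val = v.2.2.val) : u = v := by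
  unfold lev at h
  have := u.2.1.isLt
  have := v.2.1.isLt
  exact Prod.ext (Fin.ext (by omega)) (Prod.ext (Fin.ext (by omega)) (Fin.ext h2))

theorem lev_adj {D : ℕ} (u v : W D) (h : (Γ D).Adj u v) :
    lev v = lev u + 1 ∨ lev u = lev v + 1 := by
  unfold lev
  rcases h with h | h
  · left; rw [h.1, h.2.1]; omega
  · right; rw [h.1, h.2.1]; omega

theorem R_of {D : ℕ} (u v : W D) (h : (Γ D).Adj u v) (hl : lev v = lev u + 1) : R u v := by
  rcases h with h | h
  · exact h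
  · unfold lev at hl
    rw [h.1, h.2.1] at hl
    omega

theorem lev_mono {D : ℕ} (u v u' v' : W D) (h : (Γ D).Adj u v) (h' : (Γ D).Adj u' v')
    (hl : lev v = lev u + 1) (hl' : lev v' = lev u' + 1) (he : lev u = lev u')
    (hx : v.2.2.val ≤ v'.2.2.val) : u.2.2.val ≤ u'.2.2.val := by
  obtain ⟨-, -, a⟩ := R_of u v h hl
  obtain ⟨-, -, a'⟩ := R_of u' v' h' hl'
  unfold lev at he
  have := u.2.1.isLt
  have := u'.2.1.isLt
  have e1 : u.1.val = u'.1.val := by omega
  have e2 : u.2.1.val = u'.2.1.val := by omega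
  rw [a, a', e1, e2]
  split_ifs
  · exact le_rfl
  · exact Nat.div_le_div_right hx

theorem count {D m k c : ℕ} (H : SimpleGraph (Fin m)) [DecidableRel H.Adj]
    (φ : W D → Fin m × Fin k × Fin c) (hφ : Function.Injective φ)
    (h : ∀ u v, (Γ D).Adj u v → ((φ u).1 = (φ v).1 ∨ H.Adj (φ u).1 (φ v).1) ∧
      ((φ u).2.1 = (φ v).2.1 ∨ (SimpleGraph.pathGraph k).Adj (φ u).2.1 (φ v).2.1))
    (d : Fin D) :
    2 ^ D ≤ 2 ^ d.val * ((univ.filter
      (fun v => 2 ^ d.val ≤ (H.degree v + 1) * (3 * c))).card * (3 * c)) := by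
  have hq : ∀ u v, (Γ D).Adj u v → (φ v).2.1.val ≤ (φ u).2.1.val + 1 ∧
      (φ u).2.1.val ≤ (φ v).2.1.val + 1 := by
    intro u v huv
    rcases (h u v huv).2 with h1 | h1
    · rw [h1]; omega
    · rw [SimpleGraph.pathGraph_adj] at h1; omega
  have hpow : 2 ^ D = 2 ^ d.val * 2 ^ (D - d.val) := by
    rw [← pow_add]; congr 1; have := d.isLt; omega
  have hpos : 0 < 2 ^ d.val := by positivity
  have hpos' : 0 < 2 ^ D := by positivity
  have hle : 2 ^ (D - d.val) ≤ 2 ^ D := Nat.pow_le_pow_right (by norm_num) (by omega)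
  let cen : Fin (2 ^ (D - d.val)) → W D := fun x => (d, 1, ⟨x.val, lt_of_lt_of_le x.isLt hle⟩)
  have hcen : Function.Injective cen := by
    intro x y hxy
    simp only [cen, Prod.mk.injEq, Fin.mk.injEq, true_and] at hxy
    exact Fin.ext hxy
  have hdeg : ∀ x, 2 ^ d.val ≤ (H.degree (φ (cen x)).1 + 1) * (3 * c) := by
    intro x
    have hlt : ∀ y : Fin (2 ^ d.val), 2 ^ d.val * x.val + y.val < 2 ^ D := by
      intro y
      rw [hpow]
      calc 2 ^ d.val * x.val + y.val < 2 ^ d.val * x.val + 2 ^ d.val := by have := y.isLt; omega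
        _ = 2 ^ d.val * (x.val + 1) := by ring
        _ ≤ _ := Nat.mul_le_mul_left _ x.isLt
    let leaf : Fin (2 ^ d.val) → W D := fun y => (d, 2, ⟨2 ^ d.val * x.val + y.val, hlt y⟩)
    have hleaf : Function.Injective leaf := by
      intro y z hyz
      simp only [leaf, Prod.mk.injEq, Fin.mk.injEq, true_and] at hyz
      exact Fin.ext (by omega)
    have hadj : ∀ y, (Γ D).Adj (cen x) (leaf y) := by
      intro y
      left
      refine ⟨rfl, rfl, ?_⟩
      show x.val = if (1 : ℕ) = 0 then 0 else (2 ^ d.val * x.val + y.val) / 2 ^ d.val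
      rw [if_neg (by norm_num), Nat.mul_add_div hpos, Nat.div_eq_of_lt y.isLt, add_zero]
    have := fibre (φ ∘ leaf) (hφ.comp hleaf) univ
      (insert (φ (cen x)).1 (H.neighborFinset (φ (cen x)).1)) (φ (cen x)).2.1.val (by
        intro y _
        refine ⟨?_, hq _ _ (hadj y)⟩
        rcases (h _ _ (hadj y)).1 with h1 | h1
        · exact mem_insert.mpr (Or.inl h1.symm)
        · exact mem_insert.mpr (Or.inr ((H.mem_neighborFinset _ _).mpr h1)))
    rw [card_univ, Fintype.card_fin] at this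
    exact this.trans (Nat.mul_le_mul_right _ (card_insert_le _ _))
  let root : W D := (d, 0, ⟨0, hpos'⟩)
  have := fibre (φ ∘ cen) (hφ.comp hcen) univ
    (univ.filter (fun v => 2 ^ d.val ≤ (H.degree v + 1) * (3 * c))) (φ root).2.1.val (by
      intro x _
      refine ⟨mem_filter.mpr ⟨mem_univ _, hdeg x⟩, hq root (cen x) ?_⟩
      left
      exact ⟨rfl, rfl, rfl⟩)
  rw [card_univ, Fintype.card_fin] at this
  rw [hpow]
  exact Nat.mul_le_mul_left _ this

theorem bound {D m k c : ℕ} (H : SimpleGraph (Fin m)) [DecidableRel H.Adj]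
    (φ : W D → Fin m × Fin k × Fin c) (hφ : Function.Injective φ)
    (h : ∀ u v, (Γ D).Adj u v → ((φ u).1 = (φ v).1 ∨ H.Adj (φ u).1 (φ v).1) ∧
      ((φ u).2.1 = (φ v).2.1 ∨ (SimpleGraph.pathGraph k).Adj (φ u).2.1 (φ v).2.1))
    (hdeg : ∑ v, H.degree v ≤ 8 * m) (hm : m ≤ 2 ^ D) : D ≤ 162 * c ^ 2 := by
  have e1 : D * 2 ^ D ≤ ∑ d ∈ range D, 2 ^ d * ((univ.filter
      (fun v => 2 ^ d ≤ (H.degree v + 1) * (3 * c))).card * (3 * c)) := by
    have : D * 2 ^ D = ∑ d ∈ range D, 2 ^ D := by simp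
    rw [this]
    exact sum_le_sum fun d hd => count H φ hφ h ⟨d, mem_range.mp hd⟩
  have e2 : ∑ d ∈ range D, 2 ^ d * ((univ.filter
      (fun v => 2 ^ d ≤ (H.degree v + 1) * (3 * c))).card * (3 * c)) =
      (∑ v, ∑ d ∈ range D, if 2 ^ d ≤ (H.degree v + 1) * (3 * c) then 2 ^ d else 0) * (3 * c) := by
    rw [sum_comm, sum_mul]
    refine sum_congr rfl fun d _ => ?_
    rw [← sum_filter, sum_const, smul_eq_mul]
    ring
  have e3 : (∑ v, ∑ d ∈ range D, if 2 ^ d ≤ (H.degree v + 1) * (3 * c) then 2 ^ d else 0) ≤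
      ∑ v, 2 * ((H.degree v + 1) * (3 * c)) := sum_le_sum fun v _ => (geom _ D).2
  have e4 : ∑ v, 2 * ((H.degree v + 1) * (3 * c)) = 6 * c * (∑ v, H.degree v + m) := by
    rw [← mul_sum, ← sum_mul, sum_add_distrib]
    simp
    ring
  have e5 : D * 2 ^ D ≤ 162 * c ^ 2 * 2 ^ D := by
    calc D * 2 ^ D ≤ 6 * c * (∑ v, H.degree v + m) * (3 * c) := by
          rw [← e4]
          exact e1.trans (e2.le.trans (Nat.mul_le_mul_right _ e3))
      _ ≤ 6 * c * (9 * 2 ^ D) * (3 * c) :=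
          Nat.mul_le_mul_right _ (Nat.mul_le_mul_left _ (by omega))
      _ = _ := by ring
  exact Nat.le_of_mul_le_mul_right e5 (by positivity)

theorem result :
    ¬ (∃ c : ℕ, 1 ≤ c ∧
  ∀ n k b : ℕ, 1 ≤ n → 1 ≤ k → 1 ≤ b → n ≤ k * b →
  ∀ G : SimpleGraph (Fin n),
    (∃ p : Fin n → ℝ × ℝ, Function.Injective p ∧
      ∃ γ : Fin n → Fin n → unitInterval → ℝ × ℝ,
        (∀ u v, G.Adj u v → Continuous (γ u v) ∧ Function.Injective (γ u v) ∧
            γ u v 0 = p u ∧ γ u v 1 = p v) ∧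
        (∀ u v w x, G.Adj u v → γ u v x = p w → (w = u ∧ x = 0) ∨ (w = v ∧ x = 1)) ∧
        (∀ u v u' v' x y, G.Adj u v → G.Adj u' v' → Sym2.mk (u, v) ≠ Sym2.mk (u', v') →
            γ u v x = γ u' v' y → ∃ w, γ u v x = p w)) →
    (∃ m : ℕ, ∃ T : SimpleGraph (Fin m), T.IsTree ∧
      ∃ B : Fin m → Finset (Fin n),
        (∀ v, ∃ i, v ∈ B i) ∧
        (∀ u v, G.Adj u v → ∃ i, u ∈ B i ∧ v ∈ B i) ∧
        (∀ v, (T.induce {i | v ∈ B i}).Connected) ∧
        (∀ i, (B i).card ≤ k + 1)) →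
    (∃ f : Fin n → ℕ,
      (∀ u v, G.Adj u v → f u ≤ f v + 1 ∧ f v ≤ f u + 1) ∧
      (∀ i : ℕ, (Finset.univ.filter (fun v => f v = i)).card ≤ b)) →
    ∃ m : ℕ, m ≤ b ∧ ∃ H : SimpleGraph (Fin m),
      (∃ p : Fin m → ℝ × ℝ, Function.Injective p ∧
        ∃ γ : Fin m → Fin m → unitInterval → ℝ × ℝ,
          (∀ u v, H.Adj u v → Continuous (γ u v) ∧ Function.Injective (γ u v) ∧
              γ u v 0 = p u ∧ γ u v 1 = p v) ∧
          (∀ u v w x, H.Adj u v → γ u v x = p w → (w = u ∧ x = 0) ∨ (w = v ∧ x = 1)) ∧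
          (∀ u v u' v' x y, H.Adj u v → H.Adj u' v' → Sym2.mk (u, v) ≠ Sym2.mk (u', v') →
              γ u v x = γ u' v' y → ∃ w, γ u v x = p w)) ∧
      (∃ r : ℕ, ∃ T : SimpleGraph (Fin r), T.IsTree ∧
        ∃ B : Fin r → Finset (Fin m),
          (∀ v, ∃ i, v ∈ B i) ∧
          (∀ u v, H.Adj u v → ∃ i, u ∈ B i ∧ v ∈ B i) ∧
          (∀ v, (T.induce {i | v ∈ B i}).Connected) ∧
          (∀ i, (B i).card ≤ 3 + 1)) ∧
      ∃ φ : Fin n → Fin m × Fin k × Fin c, Function.Injective φ ∧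
        ∀ u v, G.Adj u v →
          ((φ u).1 = (φ v).1 ∨ H.Adj (φ u).1 (φ v).1) ∧
          ((φ u).2.1 = (φ v).2.1 ∨ (SimpleGraph.pathGraph k).Adj (φ u).2.1 (φ v).2.1)) := by
  classical
  rintro ⟨c, hc, h⟩
  let D := 162 * c ^ 2 + 1
  let n := Fintype.card (W D)
  let e : Fin n ≃ W D := (Fintype.equivFin _).symm
  have hn : 1 ≤ n := Fintype.card_pos_iff.mpr ⟨(⟨0, Nat.succ_pos _⟩, 0, ⟨0, by positivity⟩)⟩
  have hb : 1 ≤ 2 ^ D := Nat.one_le_two_pow
  obtain ⟨m, hm, H, -, ⟨r, T, hT, B, -, h2, h3, h4⟩, φ, hφ, hh⟩ :=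
    h n n (2 ^ D) hn hn hb (Nat.le_mul_of_pos_right _ hb) ((Γ D).comap e) (by
      obtain ⟨p, hp, γ, g1, g2, g3⟩ := H19Draw.draw ((Γ D).comap e) (fun v => lev (e v))
        (fun v => (e v).2.2.val) (fun u v h1 h2 => e.injective (lev_inj _ _ h1 h2))
        (fun u v h => lev_adj _ _ h) (fun u v u' v' h h' => lev_mono _ _ _ _ h h')
      exact ⟨p, hp, γ, g1, g2, fun u v u' v' x y a b hne =>
        g3 u v u' v' x y a b (fun h => hne (by rw [h]))⟩)
      ⟨1, ⊥, SimpleGraph.IsTree.of_subsingleton, fun _ => univ, fun v => ⟨0, mem_univ _⟩,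
        fun u v _ => ⟨0, mem_univ _, mem_univ _⟩, fun v => by
          haveI : Nonempty {i : Fin 1 | v ∈ (univ : Finset (Fin n))} := ⟨⟨0, mem_univ v⟩⟩
          exact SimpleGraph.IsTree.of_subsingleton.connected, fun _ => by simp⟩
      ⟨fun v => lev (e v), fun u v huv => by
          have := lev_adj _ _ huv
          show lev (e u) ≤ lev (e v) + 1 ∧ lev (e v) ≤ lev (e u) + 1
          omega, fun i => by
          have := card_le_card_of_injOn (s := univ.filter (fun v => lev (e v) = i))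
            (t := (univ : Finset (Fin (2 ^ D)))) (fun v => (e v).2.2) (fun _ _ => by simp) (by
              intro u hu v hv huv
              simp only [coe_filter, mem_univ, true_and, Set.mem_ofPred_eq] at hu hv
              exact e.injective (lev_inj _ _ (hu.trans hv.symm) (congrArg Fin.val huv)))
          simpa using this⟩
  have := bound H (φ ∘ e.symm) (hφ.comp e.symm.injective)
    (fun u v huv => hh _ _ (by simpa using huv)) (deg_sum H T hT B h2 h3 h4) hm
  simp only [D] at this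
  omega

end Pool.Agent.S10226
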