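import Pool.Statements.S10323

set_option autoImplicit false
open Pool Pool.MP_993692_co

namespace Pool.Agent.S10323

open Finset

noncomputable section

lemma rooted {ι : Type} {T : SimpleGraph ι} (hT : T.IsTree) : ∃ (r : ι) (par : ι → ι) (d : ι → ℕ),
    (∀ a b, T.Adj a b → par a = b ∨ par b = a) ∧ (∀ s, par s ≠ s → d (par s) < d s) ∧
    ∀ s, par s = s → s = r := by
  classical
  obtain ⟨r⟩ := hT.connected.nonempty
  have key : ∀ v a (h : T.Adj v a), T.dist r a < T.dist r v →
      ∃ p : T.Walk r a, (p.concat h.symm).IsPath := by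
    intro v a h hl
    obtain ⟨p, hp⟩ := hT.connected.exists_walk_length_eq_dist r a
    refine ⟨p, SimpleGraph.Walk.isPath_of_length_eq_dist _ ?_⟩
    have := hT.dist_eq_dist_add_one_of_adj r h
    rw [SimpleGraph.Walk.length_concat, hp]; omega
  have uniq : ∀ v a b, T.Adj v a → T.Adj v b → T.dist r a < T.dist r v →
      T.dist r b < T.dist r v → a = b := by
    intro v a b h1 h2 h3 h4
    obtain ⟨p, hp⟩ := key v a h1 h3
    obtain ⟨q, hq⟩ := key v b h2 h4
    have := congrArg (fun w : T.Path r v => w.1.penultimate)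
      ((hT.isAcyclic.subsingleton_path r v).elim ⟨_, hp⟩ ⟨_, hq⟩)
    simpa using this
  have ex : ∀ s, ∃ a, (s = r ∧ a = s) ∨ (T.Adj s a ∧ T.dist r a < T.dist r s) := by
    intro s
    obtain ⟨p, hp⟩ := hT.connected.exists_walk_length_eq_dist s r
    cases p with
    | nil => exact ⟨_, Or.inl ⟨rfl, rfl⟩⟩
    | cons h q =>
      refine ⟨_, Or.inr ⟨h, ?_⟩⟩
      have := SimpleGraph.dist_le q
      rw [SimpleGraph.Walk.length_cons] at hp
      rw [SimpleGraph.dist_comm, SimpleGraph.dist_comm (u := r)]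
      omega
  choose par hp using ex
  refine ⟨r, par, T.dist r, fun a b h => ?_, fun s h => ((hp s).resolve_left fun h' => h h'.2).2,
    fun s h => ((hp s).resolve_right fun h' => h'.1.ne h.symm).1⟩
  have k : ∀ a b, T.Adj a b → T.dist r b < T.dist r a → par a = b := fun a b h h' => by
    rcases hp a with ⟨rfl, -⟩ | ⟨h1, h2⟩
    · simp at h'
    · exact uniq a _ _ h1 h h2 h'
  rcases hT.dist_eq_dist_add_one_of_adj r h with e | e
  · exact Or.inl (k a b h (by omega))
  · exact Or.inr (k b a h.symm (by omega))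

def Conn {V : Type} (G : SimpleGraph V) (X : Set V) : V → V → Prop :=
  Relation.ReflTransGen fun a b => G.Adj a b ∧ a ∉ X ∧ b ∉ X

lemma Conn.symm {V : Type} {G : SimpleGraph V} {X : Set V} {a b : V} (h : Conn G X a b) :
    Conn G X b a := by
  induction h with
  | refl => exact .refl
  | tail _ h ih => exact .head ⟨h.1.symm, h.2.2, h.2.1⟩ ih

lemma Conn.mono {V : Type} {G : SimpleGraph V} {X Y : Set V} {a b : V} (h : Conn G X a b)
    (hY : Y ⊆ X) : Conn G Y a b := by
  induction h with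
  | refl => exact .refl
  | tail _ h ih => exact .tail ih ⟨h.1, fun e => h.2.1 (hY e), fun e => h.2.2 (hY e)⟩

lemma Conn.notMem {V : Type} {G : SimpleGraph V} {X : Set V} {a b : V} (h : Conn G X a b)
    (ha : a ∉ X) : b ∉ X := by
  cases h with
  | refl => exact ha
  | tail _ h => exact h.2.2

lemma sep {V ι : Type} [Fintype ι] {G : SimpleGraph V} {T : SimpleGraph ι} {B : ι → Finset V}
    {k : ℕ} (hT : T.IsTree) (h1 : ∀ i, (B i).card ≤ k + 1) (h2 : ∀ v, ∃ i, v ∈ B i)
    (h3 : ∀ u v, G.Adj u v → ∃ i, u ∈ B i ∧ v ∈ B i)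
    (h4 : ∀ v i j, v ∈ B i → v ∈ B j → ∃ q : T.Walk i j, ∀ x ∈ q.support, v ∈ B x) (m : ℕ)
    (A : Finset V) : ∃ X : Finset V, X.card * (m + 1) ≤ (k + 1) * A.card ∧
      ∀ v ∉ X, ∀ C ⊆ A, (∀ w ∈ C, Conn G X v w) → C.card ≤ m := by
  classical
  obtain ⟨r, par, d, p1, p2, p3⟩ := rooted hT
  let anc : ι → ι → Prop := fun t s => ∃ n, par^[n] s = t
  have a0 : ∀ n s, d s = n → anc r s := by
    intro n
    induction n using Nat.strong_induction_on with
    | _ n ih =>
    intro s hs
    by_cases h : par s = s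
    · exact ⟨0, p3 s h⟩
    · obtain ⟨j, hj⟩ := ih _ (hs ▸ p2 s h) _ rfl
      exact ⟨j + 1, hj⟩
  have a1 : ∀ t s, anc t s → s ≠ t → ∃ t', par t' = t ∧ d t < d t' ∧ anc t' s := by
    rintro t s ⟨n, hn⟩
    induction n generalizing s with
    | zero => exact fun h => absurd hn h
    | succ n ih =>
      intro hs
      by_cases h : par s = t
      · exact ⟨s, h, h ▸ p2 s (h ▸ hs.symm), 0, rfl⟩
      · obtain ⟨t', b1, b2, j, hj⟩ := ih (par s) hn h
        exact ⟨t', b1, b2, j + 1, hj⟩
  have a2 : ∀ t a b, T.Adj a b → b ≠ par t → anc t a → anc t b := by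
    rintro t a b h hb ⟨n, hn⟩
    rcases p1 a b h with e | e
    · cases n with
      | zero => exact absurd (e.symm.trans (congrArg par hn)) hb
      | succ n => exact ⟨n, e ▸ hn⟩
    · exact ⟨n + 1, by rw [Function.iterate_succ_apply, e, hn]⟩
  have a3 : ∀ t a b (q : T.Walk a b), (∀ x ∈ q.support, x ≠ par t) → anc t a → anc t b := by
    intro t a b q
    induction q with
    | nil => exact fun _ h => h
    | cons h q ih =>
      exact fun hx ha => ih (fun x h => hx x (by simp [h])) (a2 t _ _ h (hx _ (by simp)) ha)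
  let U : ι → V → Prop := fun t v => ∃ s, anc t s ∧ v ∈ B s
  have a4 : ∀ t u v, Conn G (B (par t)) u v → U t u → U t v := by
    intro t u v h hu
    induction h with
    | refl => exact hu
    | tail _ h ih =>
      obtain ⟨s, b1, b2⟩ := ih
      obtain ⟨i, c1, c2⟩ := h3 _ _ h.1
      obtain ⟨q, hq⟩ := h4 _ s i b2 c1
      exact ⟨i, a3 t s i q (fun x hx e => h.2.1 (e ▸ hq x hx)) b1, c2⟩
  induction A using Finset.strongInduction with
  | H A ih =>
  by_cases hA : A.card ≤ m
  · exact ⟨∅, by simp, fun v _ C hC _ => (card_le_card hC).trans hA⟩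
  obtain ⟨t, ht, hm⟩ := (univ.filter fun t => m < (A.filter (U t)).card).exists_max_image d
    ⟨r, by
      rw [mem_filter, filter_true_of_mem fun v _ => (h2 v).imp fun s hs => ⟨a0 _ s rfl, hs⟩]
      exact ⟨mem_univ _, by omega⟩⟩
  simp only [mem_filter, mem_univ, true_and] at ht hm
  have hc := card_filter_add_card_filter_not (s := A) (U t)
  obtain ⟨X, x1, x2⟩ := ih (A.filter fun v => ¬ U t v)
    ((filter_subset _ _).ssubset_of_ne fun e => by rw [e] at hc; omega)
  refine ⟨B t ∪ X, ?_, fun v hv C hC hv' => ?_⟩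
  · have := Nat.mul_le_mul_right (m + 1) ((card_union_le (B t) X).trans (add_le_add_left (h1 t) _))
    have := Nat.mul_le_mul_left (k + 1) (Nat.succ_le_of_lt ht)
    rw [← hc]
    nlinarith
  by_cases h : ∃ w ∈ C, U t w
  · obtain ⟨w, hw, s, b1, b2⟩ := h
    have hw' := (hv' w hw).notMem hv
    obtain ⟨t', rfl, c2, c3⟩ := a1 t s b1 (by rintro rfl; exact hw' (by simp [b2]))
    refine le_of_not_gt fun h => (hm t' (h.trans_le (card_le_card fun u hu => ?_))).not_gt c2
    exact mem_filter.2 ⟨hC hu, a4 t' w u (Conn.mono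
      (Relation.ReflTransGen.trans (hv' w hw).symm (hv' u hu)) (by simp)) ⟨s, c3, b2⟩⟩
  · exact x2 v (fun e => hv (mem_union_right _ e)) C
      (fun w hw => mem_filter.2 ⟨hC hw, fun e => h ⟨w, hw, e⟩⟩)
      fun w hw => (hv' w hw).mono (by simp)

open Classical in
def nb {V : Type} [Fintype V] (G : SimpleGraph V) (S : Finset V) : Finset V :=
  univ.filter fun v => ∃ s ∈ S, G.Adj s v

lemma nb_card {V : Type} [Fintype V] {G : SimpleGraph V} {l : ℕ}
    (h : ∀ v, (G.neighborSet v).ncard ≤ l) (S : Finset V) : (nb G S).card ≤ S.card * l := by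
  classical
  refine (card_le_card (t := S.biUnion fun s => (G.neighborSet s).toFinset) fun v hv => ?_).trans
    (card_biUnion_le_card_mul _ _ _ fun s _ => ?_)
  · simpa [nb] using hv
  · rw [← Set.ncard_eq_toFinset_card']; exact h s

lemma inj_fin {α : Type} (s : Finset α) {n : ℕ} (h : s.card ≤ n + 1) :
    ∃ e : α → Fin (n + 1), Set.InjOn e s := by
  obtain ⟨f, -, hf⟩ := s.finite_toSet.exists_injOn_of_encard_le (t := (Set.univ : Set (Fin (n + 1))))
    (by rw [Set.encard_coe_eq_coe_finsetCard, Set.encard_univ]; simpa using by exact_mod_cast h)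
  exact ⟨f, hf⟩

lemma part {V : Type} [Fintype V] {G : SimpleGraph V} {l m x M N : ℕ}
    (hl : ∀ v, (G.neighborSet v).ncard ≤ l)
    (hs : ∀ A : Finset V, A.card ≤ M * l → ∃ X : Finset V, X.card ≤ x ∧
      ∀ v ∉ X, ∀ C ⊆ A, (∀ w ∈ C, Conn G X v w) → C.card ≤ m)
    (hM : m + (x + 1) * l ≤ M) (hN : 2 ^ ((M + (x + 1)) * l) ≤ N + 1) (W : Finset V) :
    ∀ S ⊆ W, S.card ≤ M → ∃ f : V → List (Fin (N + 1)), (∀ v ∈ S, f v = []) ∧
      (∀ a, ∀ C ⊆ W, (∀ v ∈ C, f v = a) → C.card ≤ M + (x + 1)) ∧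
      ∀ u ∈ W, ∀ v ∈ W, G.Adj u v → f u = f v ∨ ∃ c, f u = f v ++ [c] ∨ f v = f u ++ [c] := by
  classical
  induction W using Finset.strongInduction with
  | H W ih =>
  intro S hS hSM
  rcases W.eq_empty_or_nonempty with rfl | ⟨v0, hv0⟩
  · exact ⟨fun _ => [], by simp, by simp, by simp⟩
  obtain ⟨X, x1, x2⟩ := hs (nb G S) ((nb_card hl S).trans (Nat.mul_le_mul_right _ hSM))
  have x3 : (insert v0 X).card ≤ x + 1 := (card_insert_le _ _).trans (by omega)
  let R := S ∪ insert v0 X
  have r1 : R.card ≤ M + (x + 1) := (card_union_le _ _).trans (by omega)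
  let key : V → Finset V := fun v => (nb G R).filter (Conn G (R : Set V) v)
  obtain ⟨e, he⟩ := inj_fin (nb G R).powerset (n := N) (by
    rw [card_powerset]
    exact (Nat.pow_le_pow_right two_pos ((nb_card hl R).trans (Nat.mul_le_mul_right _ r1))).trans hN)
  have kc : ∀ v ∉ R, (key v).card ≤ M := by
    intro v hv
    have h1 := x2 v (fun e => hv (by simp [R, e])) ((nb G S).filter (Conn G (R : Set V) v))
      (filter_subset _ _) fun w hw => (mem_filter.1 hw).2.mono (fun a ha => by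
        simp only [R, coe_union, coe_insert, Set.mem_union, Set.mem_insert_iff]
        exact Or.inr (Or.inr ha))
    have h2 := (nb_card hl (insert v0 X)).trans (Nat.mul_le_mul_right _ x3)
    refine (card_le_card (t := (nb G S).filter (Conn G (R : Set V) v) ∪ nb G (insert v0 X))
      fun w hw => ?_).trans ((card_union_le _ _).trans (by omega))
    obtain ⟨h3, h4⟩ := mem_filter.1 hw
    obtain ⟨s, h5, h6⟩ := (mem_filter.1 h3).2
    rcases mem_union.1 h5 with h | h
    · exact mem_union_left _ (mem_filter.2 ⟨mem_filter.2 ⟨mem_univ _, s, h, h6⟩, h4⟩)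
    · exact mem_union_right _ (mem_filter.2 ⟨mem_univ _, s, h, h6⟩)
  have H : ∀ K : Finset V, ∃ f : V → List (Fin (N + 1)),
      (∀ v ∈ (W.filter fun v => v ∉ R ∧ key v = K).filter (· ∈ nb G R), f v = []) ∧
      (∀ a, ∀ C ⊆ W.filter fun v => v ∉ R ∧ key v = K, (∀ v ∈ C, f v = a) →
        C.card ≤ M + (x + 1)) ∧
      ∀ u ∈ W.filter fun v => v ∉ R ∧ key v = K, ∀ v ∈ W.filter fun v => v ∉ R ∧ key v = K,
        G.Adj u v → f u = f v ∨ ∃ c, f u = f v ++ [c] ∨ f v = f u ++ [c] := by
    intro K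
    refine ih _ (filter_ssubset.2 ⟨v0, hv0, fun h => h.1 (by simp [R])⟩) _ (filter_subset _ _) ?_
    rcases ((W.filter fun v => v ∉ R ∧ key v = K).filter (· ∈ nb G R)).eq_empty_or_nonempty with
      h | ⟨u, hu⟩
    · simp [h]
    simp only [mem_filter] at hu
    refine (card_le_card fun w hw => ?_).trans (kc u hu.1.2.1)
    simp only [mem_filter] at hw
    rw [hu.1.2.2, ← hw.1.2.2]
    exact mem_filter.2 ⟨hw.2, .refl⟩
  choose F f1 f2 f3 using H
  have k1 : ∀ u ∈ W, u ∉ R → ∀ v ∈ R, G.Adj v u → F (key u) u = [] := fun u hu hu' v hv h =>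
    f1 _ u (mem_filter.2 ⟨mem_filter.2 ⟨hu, hu', rfl⟩, mem_filter.2 ⟨mem_univ _, v, hv, h⟩⟩)
  refine ⟨fun v => if v ∈ R then [] else e (key v) :: F (key v) v, fun v hv => by simp [R, hv],
    fun a C hC h => ?_, fun u hu v hv h => ?_⟩
  · rcases C.eq_empty_or_nonempty with rfl | ⟨u, hu⟩
    · simp
    by_cases hR : u ∈ R
    · refine (card_le_card fun v hv => ?_).trans r1
      by_contra hv'
      have := (h u hu).trans (h v hv).symm
      simp [hR, hv'] at this
    · have k2 : ∀ v ∈ C, v ∉ R ∧ key v = key u ∧ F (key v) v = F (key u) u := fun v hv => by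
        have := (h v hv).trans (h u hu).symm
        by_cases hv' : v ∈ R
        · simp [hR, hv'] at this
        · simp only [hR, hv', if_false, List.cons.injEq] at this
          exact ⟨hv', he (mem_coe.2 (mem_powerset.2 (filter_subset _ _)))
            (mem_coe.2 (mem_powerset.2 (filter_subset _ _))) this.1, this.2⟩
      exact f2 (key u) (F (key u) u) C (fun v hv => mem_filter.2 ⟨hC hv, (k2 v hv).1, (k2 v hv).2.1⟩)
        fun v hv => by rw [← (k2 v hv).2.2, (k2 v hv).2.1]
  · by_cases h1 : u ∈ R <;> by_cases h2 : v ∈ R <;> simp only [h1, h2, if_true, if_false]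
    · simp
    · simp [k1 v hv h2 u h1 h]
    · simp [k1 u hu h1 v h2 h.symm]
    · have k3 : key u = key v := by
        ext w
        simp only [key, mem_filter, and_congr_right_iff]
        exact fun _ => ⟨fun h' => .head ⟨h.symm, h2, h1⟩ h', fun h' => .head ⟨h, h1, h2⟩ h'⟩
      rw [k3]
      rcases f3 (key v) u (mem_filter.2 ⟨hu, h1, k3⟩) v (mem_filter.2 ⟨hv, h2, rfl⟩) h with
        h' | ⟨c, h' | h'⟩
      · simp [h']
      · exact Or.inr ⟨c, Or.inl (by rw [h']; rfl)⟩
      · exact Or.inr ⟨c, Or.inr (by rw [h']; rfl)⟩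

lemma exlam : ∃ z : ℂ, ‖z‖ = 1 ∧ Transcendental ℤ z := by
  by_contra H
  push Not at H
  have h1 : (Set.Icc (0 : ℝ) 1).Countable := by
    refine ((Algebraic.countable ℤ ℂ).image Complex.re).mono fun x hx => ?_
    refine ⟨⟨x, Real.sqrt (1 - x ^ 2)⟩, not_not.1 (H _ ?_), rfl⟩
    rw [Complex.norm_eq_sqrt_sq_add_sq, Real.sq_sqrt (by nlinarith [hx.1, hx.2])]
    simp
  have := h1.measure_zero MeasureTheory.volume
  simp at this

def gm {n : ℕ} (z : ℂ) : List (Fin n) → ℂ → ℂ
  | [] => fun w => w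
  | c :: a => fun w => z * gm z a w + (c.val + 2)

def pl {n : ℕ} : List (Fin n) → Polynomial ℤ
  | [] => 1
  | c :: a => Polynomial.X * pl a + Polynomial.C ((c.val : ℤ) + 2)

lemma gm_pl {n : ℕ} (z : ℂ) (a : List (Fin n)) : gm z a 1 = Polynomial.aeval z (pl a) := by
  induction a with
  | nil => simp [gm, pl]
  | cons c a ih => simp [gm, pl, ih, map_ofNat]

lemma pl_inj {n : ℕ} (a b : List (Fin n)) (h : pl a = pl b) : a = b := by
  induction a generalizing b with
  | nil =>
    cases b with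
    | nil => rfl
    | cons d b => have := congrArg (Polynomial.coeff · 0) h; simp [pl] at this; omega
  | cons c a ih =>
    have := congrArg (Polynomial.coeff · 0) h
    cases b with
    | nil => simp [pl] at this; omega
    | cons d b =>
      have e : c = d := by simpa [pl, Fin.ext_iff] using this
      subst e
      simp only [pl, add_left_inj] at h
      rw [ih b (mul_left_cancel₀ Polynomial.X_ne_zero h)]

lemma gm_aff {n : ℕ} (z : ℂ) (a : List (Fin n)) (w : ℂ) :
    gm z a w = z ^ a.length * w + gm z a 0 := by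
  induction a with
  | nil => simp [gm]
  | cons c a ih => simp only [gm, List.length_cons]; rw [ih]; ring

lemma gm_snoc {n : ℕ} (z : ℂ) (a : List (Fin n)) (c : Fin n) (w : ℂ) :
    gm z (a ++ [c]) w = gm z a (z * w + (c.val + 2)) := by
  induction a with
  | nil => rfl
  | cons d a ih => simp only [List.cons_append, gm, ih]

lemma dense_of {E : Type} [NormedAddCommGroup E] [NormedSpace ℝ E] {D U : Set E} (hD : Dense D)
    (h : ∀ p ∈ D, ∃ (q : E) (t0 : ℝ), ∀ t : ℝ, t ≠ t0 → p + t • q ∈ U) : Dense U := by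
  refine dense_closure.1 (hD.mono fun p hp => ?_)
  obtain ⟨q, t0, hq⟩ := h p hp
  have h1 : Continuous fun t : ℝ => p + t • q := by fun_prop
  have := map_mem_closure h1 ((dense_compl_singleton t0) 0) hq
  simpa using this

lemma generic {V I : Type} [Fintype V] [Fintype I] (G : SimpleGraph V) (i : V → I) (m t : V → ℂ)
    (hm : ∀ v, m v ≠ 0) (h1 : ∀ u v, i u = i v → m u = m v → t u = t v → u = v)
    (h2 : ∀ u v, G.Adj u v → i u ≠ i v) : ∃ p : I → ℂ,
      Function.Injective (fun v => m v * p (i v) + t v) ∧ ∀ u v w, G.Adj u v → w ≠ u → w ≠ v →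
        m w * p (i w) + t w ∉ segment ℝ (m u * p (i u) + t u) (m v * p (i v) + t v) := by
  classical
  let P : V → (I → ℂ) → ℂ := fun v p => m v * p (i v) + t v
  have d1 : ∀ u v, u ≠ v → Dense {p | P u p ≠ P v p} := by
    intro u v huv
    refine dense_of dense_univ fun p _ => ?_
    by_cases hc : m u - (if i v = i u then m v else 0) = 0
    · have e1 : i v = i u := by
        by_contra h; exact hm u (by simpa [h] using hc)
      have e2 : m u = m v := by simpa [e1, sub_eq_zero] using hc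
      exact ⟨0, 0, fun s _ h => huv (h1 u v e1.symm e2 (by simpa [P, e1, e2] using h))⟩
    · refine ⟨Pi.single (i u) 1, ((P v p - P u p) / (m u - if i v = i u then m v else 0)).re,
        fun s hs h => hs ?_⟩
      rw [← Complex.ofReal_re s]
      congr 1
      rw [eq_div_iff hc]
      simp only [P, Pi.add_apply, Pi.smul_apply, Pi.single_apply, if_true] at h ⊢
      split_ifs at h ⊢ <;> simp only [Complex.real_smul] at h <;> linear_combination h
  let U : V → V → V → Set (I → ℂ) := fun a b x =>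
    {p | ((P x p - P a p) * (starRingEnd ℂ) (P b p - P a p)).im ≠ 0}
  have d2 : ∀ a b x, x ≠ a → i a ≠ i b → i x ≠ i b → Dense (U a b x) := by
    intro a b x hx k1 k2
    refine dense_of (d1 x a hx) fun p hp => ?_
    have hn : 0 < Complex.normSq (P x p - P a p) := Complex.normSq_pos.2 (sub_ne_zero.2 hp)
    refine ⟨Pi.single (i b) (Complex.I * (P x p - P a p) / m b),
      ((P x p - P a p) * (starRingEnd ℂ) (P b p - P a p)).im / Complex.normSq (P x p - P a p),
      fun s hs h => hs ?_⟩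
    have e1 : ∀ v, i v ≠ i b →
        P v (p + s • (Pi.single (i b) (Complex.I * (P x p - P a p) / m b) : I → ℂ)) = P v p :=
      fun v hv => by
      simp [P, hv]
    have e2 : P b (p + s • (Pi.single (i b) (Complex.I * (P x p - P a p) / m b) : I → ℂ)) =
        P b p + s * (Complex.I * (P x p - P a p)) := by
      have := hm b
      generalize Complex.I * (P x p - P a p) = y
      simp only [P, Pi.add_apply, Pi.smul_apply, Pi.single_eq_same, Complex.real_smul]
      field_simp
      ring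
    rw [e1 x k2, e1 a k1, e2] at h
    rw [eq_div_iff hn.ne', Complex.normSq_apply]
    generalize P x p = y1, P a p = y2, P b p = y3 at h ⊢
    simp at h ⊢
    linear_combination -h
  have o1 : ∀ u v, IsOpen {p | P u p ≠ P v p} := fun u v => isOpen_ne_fun (by fun_prop) (by fun_prop)
  have o2 : ∀ a b x, IsOpen (U a b x) := fun a b x => isOpen_ne_fun
    (Complex.continuous_im.comp (Continuous.mul (by fun_prop)
      (Complex.continuous_conj.comp (by fun_prop)))) continuous_const
  obtain ⟨p, p1, p2⟩ := ((dense_iInter_of_isOpen (f := fun y : {y : V × V // y.1 ≠ y.2} =>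
    {p | P y.1.1 p ≠ P y.1.2 p}) (fun y => o1 _ _) fun y => d1 _ _ y.2).inter_of_isOpen_left
    (dense_iInter_of_isOpen
      (f := fun y : {y : V × V × V // y.2.2 ≠ y.1 ∧ i y.1 ≠ i y.2.1 ∧ i y.2.2 ≠ i y.2.1} =>
        U y.1.1 y.1.2.1 y.1.2.2) (fun y => o2 _ _ _) fun y => d2 _ _ _ y.2.1 y.2.2.1 y.2.2.2)
    (isOpen_iInter_of_finite fun y => o1 _ _)).nonempty
  rw [Set.mem_iInter] at p1 p2
  have key : ∀ u v w, w ≠ u → i u ≠ i v → i w ≠ i v → P w p ∉ segment ℝ (P u p) (P v p) := by
    rintro u v w k1 k2 k3 ⟨a, b, -, -, hab, h⟩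
    refine p2 ⟨(u, v, w), k1, k2, k3⟩ ?_
    show ((P w p - P u p) * (starRingEnd ℂ) (P v p - P u p)).im = 0
    rw [← h, show a = 1 - b by linarith]
    generalize P u p = y1, P v p = y2
    simp
    ring
  refine ⟨p, fun u v h => ?_, fun u v w h k1 k2 => ?_⟩
  · by_contra hne
    exact p1 ⟨(u, v), hne⟩ h
  · by_cases e : i w = i v
    · rw [segment_symm]
      exact key v u w k2 (h2 u v h).symm (e ▸ (h2 u v h).symm)
    · exact key u v w k1 (h2 u v h) e

end

theorem result :
    ∀ k ℓ : ℕ, ∃ D : ℕ, ∀ (V : Type) [Fintype V] (G : SimpleGraph V),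
      (∃ (ι : Type) (_ : Fintype ι) (T : SimpleGraph ι) (B : ι → Finset V),
        T.IsTree ∧ (∀ i, (B i).card ≤ k + 1) ∧ (∀ v, ∃ i, v ∈ B i) ∧
        (∀ u v, G.Adj u v → ∃ i, u ∈ B i ∧ v ∈ B i) ∧
        (∀ v i j, v ∈ B i → v ∈ B j → ∃ q : T.Walk i j, ∀ x ∈ q.support, v ∈ B x)) →
      (∀ v, (G.neighborSet v).ncard ≤ ℓ) →
      ∃ p : V → EuclideanSpace ℝ (Fin 2), Function.Injective p ∧
        (∀ u v w, G.Adj u v → w ≠ u → w ≠ v → p w ∉ segment ℝ (p u) (p v)) ∧
        {d : ℝ | ∃ u v, G.Adj u v ∧ dist (p u) (p v) = d}.ncard ≤ D := by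
  intro k l
  classical
  obtain ⟨x, hx⟩ : ∃ x, x = 2 * (k + 1) * l := ⟨_, rfl⟩
  obtain ⟨m, hm⟩ : ∃ m, m = (x + 1) * l := ⟨_, rfl⟩
  obtain ⟨w, hw⟩ : ∃ w, w = 2 * m + (x + 1) := ⟨_, rfl⟩
  obtain ⟨N, hN⟩ : ∃ N, N = 2 ^ (w * l) := ⟨_, rfl⟩
  refine ⟨Nat.card ((Fin (w + 1) × Bool) × (Fin (w + 1) × Bool) × Option (Fin (N + 1))), ?_⟩
  rintro V _ G ⟨ι, _, T, B, hT, h1, h2, h3, h4⟩ hl
  obtain ⟨f, -, f2, f3⟩ := part (G := G) (m := m) (x := x) (M := 2 * m) (N := N) hl (fun A hA => by
    obtain ⟨X, x1, x2⟩ := sep hT h1 h2 h3 h4 m A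
    refine ⟨X, Nat.le_of_mul_le_mul_right (x1.trans ?_) (Nat.succ_pos m), x2⟩
    have := Nat.mul_le_mul_left (k + 1) hA
    rw [hx]; nlinarith [Nat.zero_le ((k + 1) * l)]) (by omega) (by rw [hN, hw]; omega)
    Finset.univ ∅ (by simp) (by simp)
  have hj : ∀ a, ∃ e : V → Fin (w + 1), Set.InjOn e (Finset.univ.filter fun v => f v = a) :=
    fun a => inj_fin _ ((f2 a _ (Finset.subset_univ _) (by simp)).trans (by omega))
  choose e he using hj
  obtain ⟨z, z1, z2⟩ := exlam
  have z0 : z ≠ 0 := by rintro rfl; simp at z1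
  have ej : ∀ u v, f u = f v → e (f u) u = e (f v) v → u = v := fun u v h h' =>
    he (f v) (by simp [h]) (by simp) (h ▸ h')
  obtain ⟨p, p1, p2⟩ := generic G (fun v => (e (f v) v, decide (Even (f v).length)))
    (fun v => z ^ (f v).length) (fun v => gm z (f v) 0) (fun v => pow_ne_zero _ z0)
    (fun u v a b c => ej u v (pl_inj _ _ (transcendental_iff_injective.1 z2 (by
      rw [← gm_pl, ← gm_pl, gm_aff, gm_aff z (f v), b, c]))) (congrArg Prod.fst a))
    (fun u v h a => by
      have a2 := congrArg Prod.snd a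
      rcases f3 u (by simp) v (by simp) h with h' | ⟨c, h' | h'⟩
      · exact h.ne (ej u v h' (congrArg Prod.fst a))
      · simp [h', Nat.even_iff] at a2; omega
      · simp [h', Nat.even_iff] at a2; omega)
  simp only [← gm_aff] at p1 p2
  let L := Complex.orthonormalBasisOneI.repr
  refine ⟨fun v => L (gm z (f v) (p (e (f v) v, decide (Even (f v).length)))),
    L.injective.comp p1, fun u v y h k1 k2 hs => p2 u v y h k1 k2 ?_, ?_⟩
  · obtain ⟨a, b, ha, hb, hab, h⟩ := hs
    exact ⟨a, b, ha, hb, hab, L.injective (by rw [map_add, map_smul, map_smul]; exact h)⟩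
  · have iso : ∀ (a : List (Fin (N + 1))) y y', dist (gm z a y) (gm z a y') = dist y y' := by
      intro a y y'
      rw [gm_aff, gm_aff z a y', dist_add_right, dist_eq_norm, ← mul_sub, norm_mul, norm_pow, z1,
        one_pow, one_mul, dist_eq_norm]
    refine (Set.ncard_le_ncard (t := (fun y : (Fin (w + 1) × Bool) × (Fin (w + 1) × Bool) ×
      Option (Fin (N + 1)) => dist (p y.1) (y.2.2.elim (p y.2.1) fun c => z * p y.2.1 + (c.val + 2)))
      '' Set.univ) ?_ (Set.finite_univ.image _)).trans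
      ((Set.ncard_image_le Set.finite_univ).trans (Set.ncard_le_card _))
    rintro _ ⟨u, v, h, rfl⟩
    simp only [LinearIsometryEquiv.dist_map]
    generalize (e (f u) u, decide (Even (f u).length)) = i
    generalize (e (f v) v, decide (Even (f v).length)) = j
    rcases f3 u (by simp) v (by simp) h with h' | ⟨c, h' | h'⟩
    · exact ⟨(i, j, none), trivial, by rw [h', iso]; rfl⟩
    · exact ⟨(j, i, some c), trivial, by rw [h', gm_snoc, iso, dist_comm]; rfl⟩
    · exact ⟨(i, j, some c), trivial, by rw [h', gm_snoc, iso]; rfl⟩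

end Pool.Agent.S10323
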