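import Pool.Statements.S10340
import Pool.Agent.Lib.helper30.SphMotion

set_option autoImplicit false
open Pool Pool.MP_9a0e7c_co

namespace Pool.Agent.S10340

/-- The negation of the preceding statement: For any two N-point configurations on the 2-sphere, placed in the 4-sphere, there is a continuous piecewise-analytic motion in the 4-sphere from one to the other along which every pairwise distance changes monotonically. -/
theorem result :
    ¬ (∀ (N : ℕ) (p q : Fin N → EuclideanSpace ℝ (Fin 3)),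
    (∀ i, ‖p i‖ = 1) → (∀ i, ‖q i‖ = 1) →
    ∀ ι : EuclideanSpace ℝ (Fin 3) →ₗᵢ[ℝ] EuclideanSpace ℝ (Fin 5),
    ∃ m : ℝ → Fin N → EuclideanSpace ℝ (Fin 5),
      m 0 = (fun i => ι (p i)) ∧ m 1 = (fun i => ι (q i)) ∧
      ContinuousOn m (Set.Icc 0 1) ∧
      (∀ t ∈ Set.Icc (0:ℝ) 1, ∀ i, ‖m t i‖ = 1) ∧
      (∃ (K : ℕ) (s : ℕ → ℝ), s 0 = 0 ∧ s K = 1 ∧ (∀ k < K, s k < s (k+1)) ∧
         ∀ k < K, AnalyticOn ℝ m (Set.Icc (s k) (s (k+1)))) ∧
      ∀ i j, MonotoneOn (fun t => dist (m t i) (m t j)) (Set.Icc 0 1) ∨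
             AntitoneOn (fun t => dist (m t i) (m t j)) (Set.Icc 0 1)) := by
  intro h
  open Pool.Agent.Lib.Helper30.SphMotion in
  obtain ⟨m, h0, h1, hc, hn, -, hm⟩ := h 8 P Q norm_P norm_Q iota
  refine Pool.Agent.Lib.Helper30.SphMotion.key _ m h0 h1 hc ?_
  intro i j hij t ht
  have z : (0 : ℝ) ∈ Set.Icc (0 : ℝ) 1 := ⟨le_rfl, zero_le_one⟩
  have o : (1 : ℝ) ∈ Set.Icc (0 : ℝ) 1 := ⟨zero_le_one, le_rfl⟩
  have hd : ∀ s ∈ Set.Icc (0 : ℝ) 1,
      dist (m s i) (m s j) ^ 2 = 2 - 2 * inner ℝ (m s i) (m s j) := by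
    intro s hs
    rw [dist_eq_norm, norm_sub_sq_real, hn s hs i, hn s hs j]; ring
  have e : dist (m 0 i) (m 0 j) = dist (m 1 i) (m 1 j) := by
    have h2 : dist (m 0 i) (m 0 j) ^ 2 = dist (m 1 i) (m 1 j) ^ 2 := by
      rw [hd 0 z, hd 1 o, hij]
    exact (pow_left_inj₀ dist_nonneg dist_nonneg two_ne_zero).1 h2
  have e2 := Pool.Agent.Lib.Helper30.SphMotion.const_of_mono (hm i j) e ht
  have h3 := hd t ht
  have h4 := hd 0 z
  rw [e2] at h3
  linarith

end Pool.Agent.S10340
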