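import Pool.Statements.S10346

set_option autoImplicit false
open Pool Pool.MP_9a52ae_co

namespace Pool.Agent.S10346

open Finset

/-- The pattern 254163. -/
def sg : Equiv.Perm (Fin 6) :=
  ⟨![1, 4, 3, 0, 5, 2], ![3, 0, 5, 2, 1, 4], by decide, by decide⟩

/-- shift of a word -/
def sh (s : ℕ) (x : ℕ → ℕ) : ℕ → ℕ := fun t => x (s + t)

lemma sh_sh (s r : ℕ) (x : ℕ → ℕ) : sh r (sh s x) = sh (s + r) x := by
  funext t; simp [sh, add_assoc]

lemma sh_zero (x : ℕ → ℕ) : sh 0 x = x := by
  funext t; simp [sh]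

/-- occurrence at the start of the word -/
def occ (x : ℕ → ℕ) : Prop := ∀ a b : Fin 6, sg a < sg b ↔ x a < x b

lemma occ_chain {x : ℕ → ℕ} (h : occ x) :
    x 3 < x 0 ∧ x 0 < x 5 ∧ x 5 < x 2 ∧ x 2 < x 1 ∧ x 1 < x 4 :=
  ⟨(h 3 0).1 (by decide), (h 0 5).1 (by decide), (h 5 2).1 (by decide), (h 2 1).1 (by decide),
    (h 1 4).1 (by decide)⟩

lemma not_occ1 {x : ℕ → ℕ} (h : occ x) : ¬ occ (sh 1 x) := by
  intro h'
  have a := occ_chain h
  have b := occ_chain h'
  simp only [sh] at b
  norm_num at b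
  omega

lemma not_occ2 {x : ℕ → ℕ} (h : occ x) : ¬ occ (sh 2 x) := by
  intro h'
  have a := occ_chain h
  have b := occ_chain h'
  simp only [sh] at b
  norm_num at b
  omega

lemma not_occ4 {x : ℕ → ℕ} (h : occ x) : ¬ occ (sh 4 x) := by
  intro h'
  have a := occ_chain h
  have b := occ_chain h'
  simp only [sh] at b
  norm_num at b
  omega

open Classical in
/-- number of clusters filling the first `j` letters -/
noncomputable def N (x : ℕ → ℕ) (j : ℕ) : ℕ :=
  if h : occ x ∧ 6 ≤ j then (if j = 6 then 1 else 0) + N (sh 3 x) (j - 3) + N (sh 5 x) (j - 5)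
  else 0
termination_by j
decreasing_by all_goals omega

lemma N_small (x : ℕ → ℕ) {j : ℕ} (hj : j < 6) : N x j = 0 := by
  rw [N, dif_neg]; omega

lemma N_not {x : ℕ → ℕ} (h : ¬ occ x) (j : ℕ) : N x j = 0 := by
  rw [N, dif_neg]; tauto

lemma N_occ {x : ℕ → ℕ} (h : occ x) (j : ℕ) :
    N x j = (if j = 6 then 1 else 0) + N (sh 3 x) (j - 3) + N (sh 5 x) (j - 5) := by
  by_cases hj : 6 ≤ j
  · rw [N, dif_pos ⟨h, hj⟩]
  · rw [N_small x (by omega), N_small _ (by omega), N_small _ (by omega), if_neg (by omega)]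

open Classical in
/-- indicator of avoidance in the first `n` letters -/
noncomputable def av (x : ℕ → ℕ) (n : ℕ) : ℚ := if ∃ i, i + 6 ≤ n ∧ occ (sh i x) then 0 else 1

lemma av_step {x : ℕ → ℕ} {n : ℕ} (h : ¬ (occ x ∧ 6 ≤ n + 1)) : av x (n + 1) = av (sh 1 x) n := by
  unfold av
  congr 1
  apply propext
  constructor
  · rintro ⟨i, hi, ho⟩
    rcases i with _ | i
    · exact absurd ⟨by simpa [sh_zero] using ho, by omega⟩ h
    · exact ⟨i, by omega, by rw [sh_sh, add_comm]; exact ho⟩
  · rintro ⟨i, hi, ho⟩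
    exact ⟨1 + i, by omega, by rw [← sh_sh]; exact ho⟩

lemma av_occ {x : ℕ → ℕ} {n : ℕ} (h : occ x) (hn : 6 ≤ n) : av x n = 0 := by
  unfold av
  rw [if_pos ⟨0, by omega, by rw [sh_zero]; exact h⟩]

lemma av_zero (x : ℕ → ℕ) : av x 0 = 1 := by
  unfold av
  rw [if_neg]; rintro ⟨i, hi, -⟩; omega

/-- cluster sum -/
noncomputable def T (x : ℕ → ℕ) (n : ℕ) : ℚ :=
  ∑ j ∈ range (n + 1), (-1) ^ (j + 1) * (N x j : ℚ) * av (sh j x) (n - j)

lemma T_shift (x : ℕ → ℕ) (s n : ℕ) :
    ∑ j ∈ range (s + n + 1), (-1) ^ (j + 1) * (N (sh s x) (j - s) : ℚ) * av (sh j x) (s + n - j)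
      = (-1) ^ s * T (sh s x) n := by
  rw [add_assoc, sum_range_add, T, mul_sum]
  have h0 : ∑ j ∈ range s, (-1) ^ (j + 1) * (N (sh s x) (j - s) : ℚ) *
      av (sh j x) (s + n - j) = 0 := by
    refine sum_eq_zero fun j hj => ?_
    rw [mem_range] at hj
    rw [N_small _ (by omega)]; simp
  rw [h0, zero_add]
  refine sum_congr rfl fun j _ => ?_
  rw [sh_sh, Nat.add_sub_cancel_left, show s + n - (s + j) = n - j by omega]
  ring

lemma key (n : ℕ) : ∀ x : ℕ → ℕ, av x (n + 1) = av (sh 1 x) n + T x (n + 1) := by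
  induction n using Nat.strong_induction_on with
  | _ n ih =>
    intro x
    by_cases h : occ x ∧ 6 ≤ n + 1
    · obtain ⟨ho, hn⟩ := h
      obtain ⟨m, rfl⟩ : ∃ m, n = m + 5 := ⟨n - 5, by omega⟩
      have e1 : av (sh 1 x) (m + 5) = av (sh 2 x) (m + 4) := by
        rw [av_step (n := m + 4) (fun h => not_occ1 ho h.1), sh_sh]
      have e2 : av (sh 2 x) (m + 4) = av (sh 3 x) (m + 3) := by
        rw [av_step (n := m + 3) (fun h => not_occ2 ho h.1), sh_sh]
      have e4 : av (sh 4 x) (m + 2) = av (sh 5 x) (m + 1) := by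
        rw [av_step (n := m + 1) (fun h => not_occ4 ho h.1), sh_sh]
      have i3 := ih (m + 2) (by omega) (sh 3 x)
      have i5 := ih m (by omega) (sh 5 x)
      rw [sh_sh] at i3 i5
      have t3 := T_shift x 3 (m + 3)
      have t5 := T_shift x 5 (m + 1)
      have hT : T x (m + 5 + 1) = - av (sh 6 x) m - T (sh 3 x) (m + 3) - T (sh 5 x) (m + 1) := by
        unfold T at *
        simp only [N_occ ho, Nat.cast_add, mul_add, add_mul, sum_add_distrib]
        rw [show 3 + (m + 3) = m + 5 + 1 by omega] at t3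
        rw [show 5 + (m + 1) = m + 5 + 1 by omega] at t5
        rw [t3, t5, sum_eq_single 6]
        · rw [show m + 5 + 1 - 6 = m by omega]
          norm_num
          ring
        · intro b _ hb
          simp [hb]
        · intro hb
          exact absurd (mem_range.2 (by omega)) hb
      rw [av_occ ho hn, hT]
      norm_num at i3 i5
      linarith
    · rw [av_step h]
      have : T x (n + 1) = 0 := by
        refine sum_eq_zero fun j hj => ?_
        rw [mem_range] at hj
        by_cases ho : occ x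
        · rw [N_small _ (by have : ¬ 6 ≤ n + 1 := fun h' => h ⟨ho, h'⟩; omega)]; simp
        · rw [N_not ho]; simp
      rw [this, add_zero]

/-- the weight whose average gives the coefficients of the reciprocal series -/
noncomputable def d (x : ℕ → ℕ) (j : ℕ) : ℚ :=
  (if j = 0 then 1 else 0) - (if j = 1 then 1 else 0) - (-1) ^ (j + 1) * (N x j : ℚ)

lemma pointwise (x : ℕ → ℕ) (n : ℕ) :
    ∑ j ∈ range (n + 1), d x j * av (sh j x) (n - j) = if n = 0 then 1 else 0 := by
  rcases n with _ | n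
  · simp [d, N_small, av_zero]
  · have hk := key n x
    unfold T at hk
    simp only [d, sub_mul, sum_sub_distrib]
    rw [sum_eq_single 0, sum_eq_single 1]
    · simp only [if_true, one_mul, sh_zero, Nat.sub_zero, Nat.add_sub_cancel]
      rw [if_neg (by omega)]
      linarith
    · intro b _ hb; simp [hb]
    · intro hb; exact absurd (mem_range.2 (by omega)) hb
    · intro b _ hb; simp [hb]
    · intro hb; exact absurd (mem_range.2 (by omega)) hb

/-- same relative order on the first `l` letters -/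
def Same (l : ℕ) (x y : ℕ → ℕ) : Prop := ∀ a < l, ∀ b < l, (x a < x b ↔ y a < y b)

lemma Same.sh {l : ℕ} {x y : ℕ → ℕ} (h : Same l x y) (s : ℕ) : Same (l - s) (sh s x) (sh s y) :=
  fun a ha b hb => h (s + a) (by omega) (s + b) (by omega)

lemma Same.occ {l : ℕ} {x y : ℕ → ℕ} (h : Same l x y) (hl : 6 ≤ l) : occ x ↔ occ y := by
  unfold S10346.occ
  refine forall_congr' fun a => forall_congr' fun b => ?_
  rw [h a (by omega) b (by omega)]

lemma N_inv (l : ℕ) : ∀ x y : ℕ → ℕ, Same l x y → N x l = N y l := by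
  induction l using Nat.strong_induction_on with
  | _ l ih =>
    intro x y h
    by_cases hl : 6 ≤ l
    · by_cases ho : occ x
      · rw [N_occ ho, N_occ ((h.occ hl).1 ho), ih _ (by omega) _ _ (h.sh 3),
          ih _ (by omega) _ _ (h.sh 5)]
      · rw [N_not ho, N_not (fun h' => ho ((h.occ hl).2 h'))]
    · rw [N_small _ (by omega), N_small _ (by omega)]

lemma d_inv (l : ℕ) (x y : ℕ → ℕ) (h : Same l x y) : d x l = d y l := by
  unfold d; rw [N_inv l x y h]

lemma av_inv (l : ℕ) (x y : ℕ → ℕ) (h : Same l x y) : av x l = av y l := by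
  unfold av
  congr 1
  apply propext
  refine exists_congr fun i => and_congr_right fun hi => ?_
  exact (h.sh i).occ (by omega)

/-- extension of a finite word by zeros -/
def ext {n : ℕ} (w : Fin n → ℕ) : ℕ → ℕ := fun t => if h : t < n then w ⟨t, h⟩ else 0

/-- the word of a permutation -/
def wd {n : ℕ} (π : Equiv.Perm (Fin n)) : ℕ → ℕ := ext fun i => (π i : ℕ)

lemma standardize {l : ℕ} (F : (ℕ → ℕ) → ℚ) (hF : ∀ x y, Same l x y → F x = F y)
    (w : Fin l → ℕ) (hw : Function.Injective w) :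
    ∑ τ : Equiv.Perm (Fin l), F (ext (w ∘ τ)) = ∑ τ : Equiv.Perm (Fin l), F (wd τ) := by
  have hs : StrictMono (w ∘ Tuple.sort w) :=
    (Tuple.monotone_sort w).strictMono_of_injective (hw.comp (Tuple.sort w).injective)
  rw [← Equiv.sum_comp (Equiv.mulLeft (Tuple.sort w))]
  refine sum_congr rfl fun τ _ => hF _ _ ?_
  intro a ha b hb
  simp only [ext, wd, dif_pos ha, dif_pos hb, Equiv.coe_mulLeft, Function.comp_apply,
    Equiv.Perm.coe_mul]
  exact (hs.lt_iff_lt (a := τ ⟨a, ha⟩) (b := τ ⟨b, hb⟩)).trans Fin.lt_def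

lemma averaging {l m : ℕ} (F G : (ℕ → ℕ) → ℚ) (hF : ∀ x y, Same l x y → F x = F y)
    (hG : ∀ x y, Same m x y → G x = G y) :
    (l.factorial : ℚ) * m.factorial * ∑ π : Equiv.Perm (Fin (l + m)), F (wd π) * G (sh l (wd π))
      = (l + m).factorial * ((∑ τ : Equiv.Perm (Fin l), F (wd τ)) *
          ∑ ρ : Equiv.Perm (Fin m), G (wd ρ)) := by
  let h : Equiv.Perm (Fin l) → Equiv.Perm (Fin m) → Equiv.Perm (Fin (l + m)) :=
    fun τ ρ => finSumFinEquiv.permCongr (Equiv.sumCongr τ ρ)
  have h1 : ∀ (τ : Equiv.Perm (Fin l)) (ρ : Equiv.Perm (Fin m)), ∑ π : Equiv.Perm (Fin (l + m)), F (wd π) * G (sh l (wd π))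
      = ∑ π : Equiv.Perm (Fin (l + m)),
          F (ext ((fun i => (π (Fin.castAdd m i) : ℕ)) ∘ τ)) *
          G (ext ((fun i => (π (Fin.natAdd l i) : ℕ)) ∘ ρ)) := by
    intro τ ρ
    rw [← Equiv.sum_comp (Equiv.mulRight (h τ ρ))]
    refine sum_congr rfl fun π _ => ?_
    have ea : ∀ a (ha : a < l), wd (Equiv.mulRight (h τ ρ) π) a
        = ext ((fun i => (π (Fin.castAdd m i) : ℕ)) ∘ τ) a := by
      intro a ha
      have ha' : a < l + m := by omega
      simp only [wd, ext, dif_pos ha, dif_pos ha', Equiv.coe_mulRight, Equiv.Perm.coe_mul,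
        Function.comp_apply, h, Equiv.permCongr_apply]
      have : (⟨a, ha'⟩ : Fin (l + m)) = Fin.castAdd m ⟨a, ha⟩ := rfl
      rw [this, finSumFinEquiv_symm_apply_castAdd]
      simp
    have eb : ∀ a (ha : a < m), sh l (wd (Equiv.mulRight (h τ ρ) π)) a
        = ext ((fun i => (π (Fin.natAdd l i) : ℕ)) ∘ ρ) a := by
      intro a ha
      have ha' : l + a < l + m := by omega
      simp only [sh, wd, ext, dif_pos ha, dif_pos ha', Equiv.coe_mulRight, Equiv.Perm.coe_mul,
        Function.comp_apply, h, Equiv.permCongr_apply]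
      have : (⟨l + a, ha'⟩ : Fin (l + m)) = Fin.natAdd l ⟨a, ha⟩ := rfl
      rw [this, finSumFinEquiv_symm_apply_natAdd]
      simp
    congr 1
    · exact hF _ _ fun a ha b hb => by rw [ea a ha, ea b hb]
    · exact hG _ _ fun a ha b hb => by rw [eb a ha, eb b hb]
  have h2 : ∑ τ : Equiv.Perm (Fin l), ∑ ρ : Equiv.Perm (Fin m),
      ∑ π : Equiv.Perm (Fin (l + m)), F (wd π) * G (sh l (wd π))
      = (l.factorial : ℚ) * m.factorial *
        ∑ π : Equiv.Perm (Fin (l + m)), F (wd π) * G (sh l (wd π)) := by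
    simp only [sum_const, card_univ, Fintype.card_perm, Fintype.card_fin, nsmul_eq_mul]
    ring
  rw [← h2, sum_congr rfl fun τ _ => sum_congr rfl fun ρ _ => h1 τ ρ]
  have h3 : ∀ π : Equiv.Perm (Fin (l + m)), ∑ τ : Equiv.Perm (Fin l), ∑ ρ : Equiv.Perm (Fin m),
      F (ext ((fun i => (π (Fin.castAdd m i) : ℕ)) ∘ τ)) *
          G (ext ((fun i => (π (Fin.natAdd l i) : ℕ)) ∘ ρ))
      = (∑ τ : Equiv.Perm (Fin l), F (wd τ)) * ∑ ρ : Equiv.Perm (Fin m), G (wd ρ) := by
    intro π
    rw [← sum_mul_sum, standardize F hF, standardize G hG]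
    · intro a b hab
      have := π.injective (Fin.ext hab)
      exact Fin.natAdd_injective _ _ this
    · intro a b hab
      have := π.injective (Fin.ext hab)
      exact Fin.castAdd_injective _ _ this
  rw [sum_congr rfl fun τ _ => sum_comm, sum_comm]
  simp only [h3, sum_const, card_univ, Fintype.card_perm, Fintype.card_fin, nsmul_eq_mul]

/-- coefficients of the reciprocal series -/
noncomputable def g (j : ℕ) : ℚ := (∑ τ : Equiv.Perm (Fin j), d (wd τ) j) / j.factorial

/-- avoidance probabilities -/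
noncomputable def p (j : ℕ) : ℚ := (∑ τ : Equiv.Perm (Fin j), av (wd τ) j) / j.factorial

lemma conv (n : ℕ) : ∑ j ∈ range (n + 1), g j * p (n - j) = if n = 0 then 1 else 0 := by
  have h1 : ∀ j ∈ range (n + 1), g j * p (n - j) =
      (∑ π : Equiv.Perm (Fin n), d (wd π) j * av (sh j (wd π)) (n - j)) / n.factorial := by
    intro j hj
    rw [mem_range] at hj
    obtain ⟨m, rfl⟩ : ∃ m, n = j + m := ⟨n - j, by omega⟩
    rw [Nat.add_sub_cancel_left]
    have := averaging (l := j) (m := m) (fun x => d x j) (fun x => av x m) (d_inv j) (av_inv m)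
    have f1 : (j.factorial : ℚ) ≠ 0 := by positivity
    have f2 : (m.factorial : ℚ) ≠ 0 := by positivity
    have f3 : ((j + m).factorial : ℚ) ≠ 0 := by positivity
    unfold g p
    field_simp
    linarith
  rw [sum_congr rfl h1, ← sum_div, sum_comm]
  simp only [pointwise, sum_const, card_univ, Fintype.card_perm, Fintype.card_fin, nsmul_eq_mul]
  have f3 : (n.factorial : ℚ) ≠ 0 := by positivity
  field_simp

/-- rank of a position -/
def rk (t : ℕ) : Fin 8 := ![2, 5, 4, 1, 6, 3, 0, 7] ⟨t % 8, Nat.mod_lt _ (by norm_num)⟩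

lemma rk_add (t : ℕ) : rk (8 + t) = rk t := by
  unfold rk; simp

/-- words ordered by rank -/
def Good (l : ℕ) (x : ℕ → ℕ) : Prop := ∀ a < l, ∀ b < l, rk a < rk b → x a < x b

lemma occ_of {x : ℕ → ℕ} (h : ∀ a b : Fin 6, sg a < sg b → x a < x b) : occ x := by
  intro a b
  refine ⟨h a b, fun hab => ?_⟩
  rcases lt_trichotomy (sg a) (sg b) with h1 | h1 | h1
  · exact h1
  · rw [sg.injective h1] at hab; exact absurd hab (lt_irrefl _)
  · exact absurd (h b a h1) (by omega)

lemma Good.occ0 {l : ℕ} {x : ℕ → ℕ} (h : Good l x) (hl : 6 ≤ l) : occ x := by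
  have : ∀ a b : Fin 6, sg a < sg b → rk a < rk b := by decide
  exact occ_of fun a b hab => h a (by omega) b (by omega) (this a b hab)

lemma Good.occ3 {l : ℕ} {x : ℕ → ℕ} (h : Good l x) (hl : 9 ≤ l) : occ (sh 3 x) := by
  have : ∀ a b : Fin 6, sg a < sg b → rk (3 + a) < rk (3 + b) := by decide
  exact occ_of fun a b hab => h (3 + a) (by omega) (3 + b) (by omega) (this a b hab)

lemma N_good (q : ℕ) : ∀ x, Good (8 * q + 6) x → 1 ≤ N x (8 * q + 6) := by
  induction q with
  | zero =>
    intro x h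
    rw [N_occ (h.occ0 (by omega))]
    simp only [mul_zero, zero_add, if_true]
    omega
  | succ q ih =>
    intro x h
    have h8 : Good (8 * q + 6) (sh 8 x) := by
      intro a ha b hb hab
      exact h (8 + a) (by omega) (8 + b) (by omega) (by rwa [rk_add, rk_add])
    have := ih _ h8
    rw [N_occ (h.occ0 (by omega)), N_occ (h.occ3 (by omega)), sh_sh, sh_sh,
      show 8 * (q + 1) + 6 - 3 - 5 = 8 * q + 6 by omega]
    norm_num
    omega

open Classical in
lemma count_good (n : ℕ) :
    n.factorial ≤ (univ.filter fun π : Equiv.Perm (Fin n) => Good n (wd π)).card * 8 ^ n := by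
  let k : Equiv.Perm (Fin n) → Fin n → Fin 8 ×ₗ Fin n := fun π i => toLex (rk i, π i)
  have hk : ∀ π, Function.Injective (k π) := by
    intro π a b hab
    have := congrArg (fun z => (ofLex z).2) hab
    exact π.injective this
  let Φ : Equiv.Perm (Fin n) → Equiv.Perm (Fin n) × (Fin n → Fin 8) :=
    fun π => ((Tuple.sort (k π))⁻¹, fun v => rk (π⁻¹ v))
  have hmaps : ∀ π ∈ (univ : Finset (Equiv.Perm (Fin n))), Φ π ∈
      (univ.filter fun π : Equiv.Perm (Fin n) => Good n (wd π)) ×ˢ (univ : Finset (Fin n → Fin 8)) := by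
    intro π _
    simp only [mem_product, mem_filter, mem_univ, true_and, and_true, Φ]
    intro a ha b hb hab
    have hs : StrictMono (k π ∘ Tuple.sort (k π)) :=
      (Tuple.monotone_sort _).strictMono_of_injective ((hk π).comp (Tuple.sort _).injective)
    simp only [wd, ext, dif_pos ha, dif_pos hb]
    rw [← Fin.lt_def, ← hs.lt_iff_lt]
    simp only [Function.comp_apply, Equiv.Perm.coe_inv, Equiv.apply_symm_apply]
    exact Prod.Lex.toLex_lt_toLex.2 (Or.inl hab)
  have hinj : Set.InjOn Φ (univ : Finset (Equiv.Perm (Fin n))) := by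
    intro π₁ _ π₂ _ h
    have h1 : Tuple.sort (k π₁) = Tuple.sort (k π₂) := inv_injective (congrArg Prod.fst h)
    have h2 : (fun v => rk (π₁⁻¹ v)) = fun v => rk (π₂⁻¹ v) := congrArg Prod.snd h
    let f : Fin n → Fin 8 ×ₗ Fin n := fun v => toLex (rk (π₁⁻¹ v), v)
    have e1 : k π₁ = f ∘ π₁ := by funext i; simp [k, f]
    have e2 : k π₂ = f ∘ π₂ := by
      funext i
      have := congrFun h2 (π₂ i)
      simp only [Equiv.Perm.coe_inv, Equiv.symm_apply_apply] at this
      simp [k, f, this]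
    have m1 : Monotone (f ∘ ⇑(π₁ * Tuple.sort (k π₁))) := by
      have := Tuple.monotone_sort (k π₁)
      rw [Equiv.Perm.coe_mul, ← Function.comp_assoc, ← e1]; exact this
    have m2 : Monotone (f ∘ ⇑(π₂ * Tuple.sort (k π₁))) := by
      have := Tuple.monotone_sort (k π₂)
      rw [Equiv.Perm.coe_mul, ← Function.comp_assoc, ← e2, h1]; exact this
    have hu := Tuple.unique_monotone m1 m2
    have : π₁ * Tuple.sort (k π₁) = π₂ * Tuple.sort (k π₁) := by
      ext i
      have := congrArg (fun z => (ofLex z).2) (congrFun hu i)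
      exact congrArg Fin.val this
    exact mul_right_cancel this
  have := card_le_card_of_injOn Φ hmaps hinj
  simpa [Fintype.card_perm] using this

lemma g_big (q : ℕ) : 1 ≤ g (8 * q + 6) * 8 ^ (8 * q + 6) := by
  classical
  set n := 8 * q + 6 with hn
  have hd : ∀ x, d x n = N x n := by
    intro x
    unfold d
    rw [if_neg (by omega), if_neg (by omega), Odd.neg_one_pow ⟨4 * q + 3, by omega⟩]
    ring
  have h1 : ((univ.filter fun π : Equiv.Perm (Fin n) => Good n (wd π)).card : ℚ)
      ≤ ∑ τ : Equiv.Perm (Fin n), d (wd τ) n := by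
    simp only [hd]
    rw [card_eq_sum_ones, Nat.cast_sum, sum_filter]
    refine sum_le_sum fun π _ => ?_
    split_ifs with h
    · exact_mod_cast N_good q _ h
    · positivity
  have h2 : (n.factorial : ℚ) ≤
      ((univ.filter fun π : Equiv.Perm (Fin n) => Good n (wd π)).card : ℚ) * 8 ^ n := by
    exact_mod_cast count_good n
  unfold g
  have f3 : (0 : ℚ) < n.factorial := by positivity
  rw [div_mul_eq_mul_div, le_div_iff₀ f3, one_mul]
  refine h2.trans ?_
  gcongr

lemma p_bound (n : ℕ) : 0 ≤ p n ∧ p n ≤ 1 := by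
  have f3 : (0 : ℚ) < n.factorial := by positivity
  have h : ∀ x, 0 ≤ av x n ∧ av x n ≤ 1 := by
    intro x; unfold av; split_ifs <;> norm_num
  unfold p
  constructor
  · exact div_nonneg (sum_nonneg fun τ _ => (h _).1) f3.le
  · rw [div_le_one f3]
    refine (sum_le_sum fun τ _ => (h _).2).trans ?_
    simp [Fintype.card_perm]

lemma card_eq (n : ℕ) :
    ((Nat.card {π : Equiv.Perm (Fin n) //
                ¬ ∃ i : ℕ, i + 6 ≤ n ∧
                  ∀ a b : Fin 6,
                    (sg a < sg b ↔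
                      (if h : i + (a : ℕ) < n then ((π ⟨i + (a : ℕ), h⟩ : Fin n) : ℕ) else 0) <
                      (if h : i + (b : ℕ) < n then ((π ⟨i + (b : ℕ), h⟩ : Fin n) : ℕ) else 0))} : ℕ) : ℚ)
      = p n * n.factorial := by
  classical
  have f3 : (n.factorial : ℚ) ≠ 0 := by positivity
  unfold p
  rw [div_mul_cancel₀ _ f3, Nat.card_eq_fintype_card, Fintype.card_subtype, card_eq_sum_ones,
    Nat.cast_sum, sum_filter]
  refine sum_congr rfl fun π _ => ?_
  unfold av
  by_cases h : ∃ i, i + 6 ≤ n ∧ occ (sh i (wd π))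
  · rw [if_pos h]; exact if_neg (not_not.2 h)
  · rw [if_neg h, Nat.cast_one]; exact if_pos h

lemma analytic (f : ℂ → ℂ) (hf : Differentiable ℂ f) (P G : ℕ → ℂ) (hP : ∀ n, ‖P n‖ ≤ 1)
    (hG : ∀ n, ∑ j ∈ range (n + 1), G j * P (n - j) = if n = 0 then 1 else 0)
    (h : ∀ᶠ z in nhds (0 : ℂ), f z * (∑' n : ℕ, P n * z ^ n) = 1) :
    Summable fun n => G n * 8 ^ n := by
  let a : ℕ → ℂ := fun n => (n.factorial : ℂ)⁻¹ * iteratedDeriv n f 0
  have ha : ∀ z : ℂ, HasSum (fun n => a n * z ^ n) (f z) := by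
    intro z
    have := Complex.hasSum_taylorSeries_of_entire hf 0 z
    have e : (fun n => a n * z ^ n) =
        fun n => (n.factorial : ℂ)⁻¹ • (z - 0) ^ n • iteratedDeriv n f 0 := by
      funext n
      simp only [a, smul_eq_mul, sub_zero]; ring
    rw [e]; exact this
  let u : ℕ → ℂ := fun n => ∑ kl ∈ antidiagonal n, a kl.1 * P kl.2
  have h1 : HasFPowerSeriesAt (fun _ : ℂ => (1 : ℂ)) (FormalMultilinearSeries.ofScalars ℂ u) 0 := by
    rw [hasFPowerSeriesAt_iff]
    have hb : ∀ᶠ z in nhds (0 : ℂ), ‖z‖ < 1 := by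
      have := Metric.ball_mem_nhds (0 : ℂ) one_pos
      filter_upwards [this] with z hz
      simpa using hz
    filter_upwards [h, hb] with z hz hz1
    have s1 : Summable fun n => ‖a n * z ^ n‖ := (ha z).summable.norm
    have s2 : Summable fun n => ‖P n * z ^ n‖ := by
      refine Summable.of_nonneg_of_le (fun n => norm_nonneg _) (fun n => ?_)
        (summable_geometric_of_lt_one (norm_nonneg z) hz1)
      rw [norm_mul, norm_pow]
      exact mul_le_of_le_one_left (by positivity) (hP n)
    have s3 := tsum_mul_tsum_eq_tsum_sum_antidiagonal_of_summable_norm s1 s2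
    have s4 := (summable_norm_sum_mul_antidiagonal_of_summable_norm s1 s2).of_norm
    rw [(ha z).tsum_eq, hz] at s3
    have s5 := s4.hasSum
    rw [← s3] at s5
    convert s5 using 2 with n
    simp only [FormalMultilinearSeries.coeff_ofScalars, u, smul_eq_mul, mul_sum]
    refine sum_congr rfl fun kl hkl => ?_
    rw [← mem_antidiagonal.1 hkl]; ring
  have h2 : HasFPowerSeriesAt (fun _ : ℂ => (1 : ℂ))
      (FormalMultilinearSeries.ofScalars ℂ fun n => if n = 0 then (1 : ℂ) else 0) 0 := by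
    rw [hasFPowerSeriesAt_iff]
    refine Filter.Eventually.of_forall fun z => ?_
    have := hasSum_single (f := fun n => z ^ n • (FormalMultilinearSeries.ofScalars ℂ
      fun n => if n = 0 then (1 : ℂ) else 0).coeff n) 0 (by
        intro b hb; simp [hb])
    simpa using this
  have h3 := h1.eq_formalMultilinearSeries h2
  have h4 : ∀ n, u n = if n = 0 then (1 : ℂ) else 0 := by
    intro n
    have := congrArg (fun s => FormalMultilinearSeries.coeff s n) h3
    simpa using this
  have e1 : PowerSeries.mk a * PowerSeries.mk P = 1 := by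
    ext n
    rw [PowerSeries.coeff_mul, PowerSeries.coeff_one]
    simpa [u] using h4 n
  have e2 : PowerSeries.mk P * PowerSeries.mk G = 1 := by
    rw [mul_comm]
    ext n
    rw [PowerSeries.coeff_mul, PowerSeries.coeff_one,
      Finset.Nat.sum_antidiagonal_eq_sum_range_succ
        (fun i j => PowerSeries.coeff i (PowerSeries.mk G) * PowerSeries.coeff j (PowerSeries.mk P))]
    simpa using hG n
  have e3 := left_inv_eq_right_inv e1 e2
  have e4 : a = G := by
    funext n
    have := congrArg (PowerSeries.coeff n) e3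
    simpa using this
  rw [← e4]
  exact (ha 8).summable

/-- The negation of the preceding statement: For every permutation pattern σ of length at least 2, the reciprocal of the exponential generating function of permutations avoiding σ as a consecutive pattern extends to an entire function on ℂ. -/
theorem result :
    ¬ (∀ k : ℕ, 2 ≤ k → ∀ σ : Equiv.Perm (Fin k),
      ∃ f : ℂ → ℂ, Differentiable ℂ f ∧
        ∀ᶠ z in nhds (0 : ℂ),
          f z * (∑' n : ℕ,
            ((Nat.card {π : Equiv.Perm (Fin n) //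
                ¬ ∃ i : ℕ, i + k ≤ n ∧
                  ∀ a b : Fin k,
                    (σ a < σ b ↔
                      (if h : i + (a : ℕ) < n then ((π ⟨i + (a : ℕ), h⟩ : Fin n) : ℕ) else 0) <
                      (if h : i + (b : ℕ) < n then ((π ⟨i + (b : ℕ), h⟩ : Fin n) : ℕ) else 0))} : ℕ) : ℂ)
              * z ^ n / ((Nat.factorial n : ℕ) : ℂ)) = 1) := by
  intro H
  obtain ⟨f, hf, h⟩ := H 6 (by norm_num) sg
  have hs := analytic f hf (fun n => (p n : ℂ)) (fun n => (g n : ℂ)) ?_ ?_ ?_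
  · have ht := hs.tendsto_atTop_zero
    have ht2 : Filter.Tendsto (fun q : ℕ => 8 * q + 6) Filter.atTop Filter.atTop :=
      Filter.tendsto_atTop_mono (f := fun q => q) (fun q => by omega) Filter.tendsto_id
    have ht3 := (ht.comp ht2).norm
    rw [norm_zero] at ht3
    obtain ⟨q, hq⟩ := (ht3.eventually_lt_const one_pos).exists
    have hb := g_big q
    have : ((g (8 * q + 6) : ℂ) * 8 ^ (8 * q + 6)) =
        (((g (8 * q + 6) * 8 ^ (8 * q + 6) : ℚ) : ℝ) : ℂ) := by push_cast; rfl
    simp only [Function.comp_apply] at hq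
    rw [this, Complex.norm_real, Real.norm_eq_abs] at hq
    have hb' : (1 : ℝ) ≤ ((g (8 * q + 6) * 8 ^ (8 * q + 6) : ℚ) : ℝ) := by exact_mod_cast hb
    linarith [le_abs_self ((g (8 * q + 6) * 8 ^ (8 * q + 6) : ℚ) : ℝ)]
  · intro n
    obtain ⟨h0, h1⟩ := p_bound n
    have : (p n : ℂ) = ((p n : ℝ) : ℂ) := by push_cast; rfl
    rw [this, Complex.norm_real, Real.norm_eq_abs, abs_of_nonneg (by exact_mod_cast h0)]
    exact_mod_cast h1
  · intro n
    have := congrArg (fun r : ℚ => (r : ℂ)) (conv n)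
    simp only [Rat.cast_sum, Rat.cast_mul] at this
    rw [this]; split_ifs <;> simp
  · filter_upwards [h] with z hz
    rw [← hz]
    congr 2
    funext n
    have := congrArg (fun r : ℚ => (r : ℂ)) (card_eq n)
    simp only [Rat.cast_natCast, Rat.cast_mul] at this
    rw [this]
    have f3 : (n.factorial : ℂ) ≠ 0 := by exact_mod_cast n.factorial_ne_zero
    field_simp

end Pool.Agent.S10346
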