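import Pool.Statements.S10356
import Pool.Agent.Lib.helper2.FPP

set_option autoImplicit false
open Pool Pool.MP_9adbbf_co

namespace Pool.Agent.S10356

open Pool.Agent.Lib.helper2.FPP

def up (x : ℕ) : ℕ := [86209, 58114, 28996, 109576, 103568, 43552, 20544, 69760, 24832, 41472,
  99328, 43008, 4096, 8192, 16384, 32768, 65536].getD x 0

def dn (x : ℕ) : ℕ := [1, 2, 4, 8, 16, 32, 69, 145, 262, 546, 1048, 2088, 4309, 11054, 16711,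
  36410, 66713].getD x 0

def dom : List ℕ := [44862, 72957, 102075, 21495, 27503, 87519, 110522, 61294, 106233, 89565,
  31719, 88023, 126762, 120017, 114360, 94661, 64358]

open Tr in
def tr : Tr :=
  (B 13 0 (B 1 0 (B 2 0 (B 3 0 (B 5 0 (B 8 0 (B 9 0 (B 11 0 (B 12 14 L (B 12 16 (B 4 0 L (B 4 3 L
  L)) L)) L) L) L) L) L) L) L) (B 13 4 (B 1 4 (B 2 4 (B 3 4 (B 5 4 (B 8 4 (B 9 4 (B 11 4 (B 16 12
  (B 0 2 L (B 0 4 L L)) (B 16 15 L L)) L) L) L) L) L) L) L) (B 13 6 (B 2 0 (B 12 14 L (B 12 16 (B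
  4 0 L (B 4 3 (B 15 13 (B 1 2 (B 3 2 (B 14 12 (B 0 4 L L) L) L) L) (B 15 16 L L)) L)) L)) L) (B
  13 7 (B 1 0 (B 8 0 (B 2 0 (B 12 14 L (B 12 16 (B 4 0 L (B 4 3 (B 15 16 L L) L)) L)) L) (B 8 7 (B
  9 0 (B 5 0 (B 11 0 (B 3 0 (B 2 0 (B 12 14 L (B 12 16 (B 4 0 L (B 4 3 L L)) L)) (B 2 4 (B 12 10
  (B 4 3 L L) (B 12 15 (B 14 7 (B 0 4 (B 16 12 L L) L) (B 14 12 (B 0 4 (B 16 12 L L) L) (B 14 16
  (B 6 4 (B 0 4 (B 16 12 L L) L) (B 6 10 (B 0 3 L (B 0 4 (B 16 12 L L) (B 0 10 L L))) L)) L))) (B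
  12 16 (B 4 0 L (B 4 3 L L)) L))) (B 2 7 (B 12 16 (B 4 0 L (B 4 3 L L)) L) L))) L) (B 11 7 (B 15
  7 (B 4 0 (B 12 14 (B 2 0 L L) (B 12 16 L L)) L) (B 15 12 (B 2 0 (B 12 14 L (B 12 16 (B 4 0 L L)
  L)) (B 2 4 (B 3 0 (B 4 0 (B 12 16 L L) (B 4 2 L (B 4 6 L L))) (B 3 4 (B 16 12 (B 0 2 L (B 0 4 L
  L)) (B 16 15 L L)) (B 3 7 (B 16 12 (B 0 2 L (B 0 4 L L)) L) L))) (B 2 7 (B 12 16 (B 4 0 L L) L)
  L))) (B 15 16 (B 4 0 (B 12 14 (B 2 0 L L) (B 12 16 L L)) (B 4 3 L L)) L))) L)) L) (B 9 7 (B 15 7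
  (B 4 0 (B 12 14 (B 2 0 L L) (B 12 16 L L)) L) (B 15 12 (B 2 0 (B 12 14 L (B 12 16 (B 4 0 L L)
  L)) (B 2 4 (B 3 0 (B 11 0 (B 5 0 (B 4 0 (B 12 16 L L) (B 4 2 L (B 4 6 L L))) L) (B 11 7 (B 4 0
  (B 12 16 L L) (B 4 2 L (B 4 6 L L))) L)) (B 3 4 (B 16 12 (B 0 2 L (B 0 4 L L)) (B 16 15 L L)) (B
  3 7 (B 16 12 (B 11 7 (B 0 2 L (B 0 4 L L)) L) L) L))) (B 2 7 (B 12 16 (B 4 0 L L) L) L))) (B 15
  16 (B 4 0 (B 12 14 (B 2 0 L L) (B 12 16 L L)) (B 4 3 L L)) L))) L)) L)) (B 1 4 (B 8 4 (B 2 4 (B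
  9 4 (B 5 4 (B 11 4 (B 3 4 (B 16 12 (B 0 2 L (B 0 4 L L)) (B 16 15 L L)) L) (B 11 7 (B 15 7 (B 4
  0 (B 12 16 L L) L) (B 15 12 (B 3 0 (B 4 0 (B 12 16 L L) (B 4 2 L (B 4 6 L L))) (B 3 4 (B 16 12
  (B 0 2 L (B 0 4 L L)) (B 16 15 L L)) (B 3 7 (B 16 12 (B 0 2 L (B 0 4 L L)) L) L))) (B 15 16 (B 4
  0 (B 12 16 L L) (B 4 3 L L)) L))) L)) L) (B 9 7 (B 15 7 (B 4 0 (B 12 16 L L) L) (B 15 12 (B 3 0
  (B 11 0 (B 5 0 (B 4 0 (B 12 16 L L) (B 4 2 L (B 4 6 L L))) L) (B 11 7 (B 4 0 (B 12 16 L L) (B 4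
  2 L (B 4 6 L L))) L)) (B 3 4 (B 16 12 (B 0 2 L (B 0 4 L L)) (B 16 15 L L)) (B 3 7 (B 16 12 (B 11
  7 (B 0 2 L (B 0 4 L L)) L) L) L))) (B 15 16 (B 4 0 (B 12 16 L L) (B 4 3 L L)) L))) L)) L) (B 8 7
  (B 9 4 (B 5 4 (B 11 4 (B 3 4 (B 16 12 (B 0 2 (B 14 12 L L) (B 0 4 L L)) (B 16 15 L L)) L) (B 11
  7 (B 15 7 (B 4 0 (B 12 14 (B 2 0 L L) (B 12 16 L L)) L) (B 15 12 (B 2 0 (B 12 14 L (B 12 16 (B 4
  0 L L) L)) (B 2 4 (B 3 0 (B 4 0 (B 12 16 L L) (B 4 2 L (B 4 6 L L))) (B 3 4 (B 16 12 (B 0 2 L (B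
  0 4 L L)) (B 16 15 L L)) (B 3 7 (B 16 12 (B 0 2 L (B 0 4 L L)) L) L))) (B 2 7 (B 12 16 (B 4 0 L
  L) L) L))) (B 15 16 (B 4 0 (B 12 14 (B 2 0 L L) (B 12 16 L L)) (B 4 3 L L)) L))) L)) L) (B 9 7
  (B 15 7 (B 4 0 (B 12 14 (B 2 0 L L) (B 12 16 L L)) L) (B 15 12 (B 2 0 (B 12 14 L (B 12 16 (B 4 0
  L L) L)) (B 2 4 (B 3 0 (B 11 0 (B 5 0 (B 4 0 (B 12 16 L L) (B 4 2 L (B 4 6 L L))) L) (B 11 7 (B
  4 0 (B 12 16 L L) (B 4 2 L (B 4 6 L L))) L)) (B 3 4 (B 16 12 (B 0 2 L (B 0 4 L L)) (B 16 15 L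
  L)) (B 3 7 (B 16 12 (B 11 7 (B 0 2 L (B 0 4 L L)) L) L) L))) (B 2 7 (B 12 16 (B 4 0 L L) L) L)))
  (B 15 16 (B 4 0 (B 12 14 (B 2 0 L L) (B 12 16 L L)) (B 4 3 L L)) L))) L)) L)) (B 1 7 (B 8 7 (B 9
  7 (B 15 7 (B 4 0 (B 12 14 (B 2 0 L L) (B 12 16 L L)) L) (B 15 12 (B 2 0 (B 12 14 L (B 12 16 (B 4
  0 L L) L)) (B 2 4 (B 3 0 (B 11 0 (B 5 0 (B 4 0 (B 12 16 L L) (B 4 2 L (B 4 6 L L))) L) (B 11 7
  (B 4 0 (B 12 16 L L) (B 4 2 L (B 4 6 L L))) L)) (B 3 4 (B 16 12 (B 0 2 L (B 0 4 L L)) (B 16 15 L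
  L)) (B 3 7 (B 16 12 (B 11 7 (B 0 2 L (B 0 4 L L)) L) L) L))) (B 2 7 (B 12 16 (B 4 0 L L) L) L)))
  (B 15 16 (B 4 0 (B 12 14 (B 2 0 L L) (B 12 16 L L)) (B 4 3 L L)) L))) L) L) L))) (B 13 10 (B 3 4
  (B 16 12 (B 0 2 (B 14 12 L (B 14 13 (B 1 3 (B 15 16 (B 2 3 (B 4 0 L L) L) L) L) L)) (B 0 4 L L))
  (B 16 15 L L)) L) (B 13 12 (B 2 0 (B 12 14 L (B 12 16 (B 4 0 L (B 4 3 (B 15 13 (B 1 2 (B 3 2 (B
  14 12 (B 0 4 L L) L) L) L) (B 15 16 L L)) L)) L)) (B 2 4 (B 12 10 (B 4 3 (B 15 13 (B 1 2 (B 3 2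
  (B 14 12 (B 0 4 L L) L) L) L) (B 15 16 L L)) L) (B 12 15 (B 6 4 (B 0 4 (B 16 12 L (B 16 15 (B 3
  4 L L) L)) L) (B 6 10 (B 0 3 (B 14 10 (B 1 4 (B 8 4 (B 15 7 L (B 15 12 L (B 15 16 (B 4 3 L L)
  L))) L) L) (B 14 15 (B 1 4 (B 8 4 (B 15 7 L (B 15 12 L (B 15 16 (B 4 3 L L) L))) L) L) (B 14 16
  (B 8 4 (B 1 4 (B 15 7 L (B 15 12 L (B 15 16 (B 4 3 L L) L))) L) (B 8 7 (B 1 0 (B 16 11 L (B 16
  13 (B 3 2 (B 7 3 (B 4 3 L L) (B 7 11 (B 15 6 L (B 15 12 L (B 15 14 L L))) L)) L) (B 16 15 (B 3 4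
  L L) L))) (B 1 4 (B 15 7 L (B 15 12 L (B 15 16 (B 4 3 L L) L))) (B 1 7 (B 9 7 (B 15 7 L (B 15 12
  L (B 15 16 (B 4 3 L L) L))) (B 9 12 (B 15 12 L L) L)) L))) L)) L))) (B 0 4 (B 16 12 L (B 16 15
  (B 3 4 L L) L)) (B 0 10 (B 16 15 (B 3 4 L L) L) L))) (B 6 15 (B 14 15 (B 1 4 (B 8 4 (B 15 7 L (B
  15 12 L (B 15 16 (B 4 3 L L) L))) L) L) L) L))) (B 12 16 (B 4 0 L (B 4 3 (B 15 13 (B 1 2 (B 3 2
  (B 14 12 (B 0 4 L L) L) L) L) (B 15 16 L L)) L)) L))) (B 2 7 (B 12 16 (B 4 0 L (B 4 3 (B 15 13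
  (B 1 2 (B 3 2 (B 14 12 (B 0 4 L L) L) L) L) (B 15 16 L L)) L)) L) L))) (B 13 14 (B 2 0 (B 12 14
  L (B 12 16 (B 4 0 L (B 4 3 (B 15 13 (B 1 2 (B 14 12 (B 0 4 (B 16 15 (B 3 1 L L) L) L) L) L) (B
  15 16 L L)) L)) L)) (B 2 1 L L)) (B 13 15 (B 3 1 (B 11 1 (B 5 1 L L) (B 11 9 (B 15 13 (B 5 1 L
  L) L) L)) (B 3 4 (B 16 12 (B 0 2 (B 14 12 L (B 14 13 (B 6 8 (B 2 1 (B 8 9 (B 1 5 L L) L) L) (B 6
  13 (B 12 13 (B 4 2 (B 15 12 L L) L) L) L)) L)) (B 0 4 L L)) (B 16 15 L L)) (B 3 5 (B 15 13 (B 11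
  9 (B 5 1 L L) L) L) (B 3 9 (B 15 13 (B 11 9 (B 5 1 L L) L) L) L)))) (B 13 16 (B 3 0 (B 16 6 (B 0
  2 (B 14 12 L (B 14 13 (B 1 3 (B 15 16 (B 2 3 (B 4 0 L L) L) L) L) L)) L) (B 16 12 (B 0 2 (B 14
  12 L (B 14 13 (B 1 3 (B 15 16 (B 2 3 (B 4 0 L L) L) L) L) L)) (B 0 4 L L)) (B 16 14 (B 0 1 (B 14
  9 L (B 14 13 (B 1 3 (B 15 16 (B 2 3 (B 4 0 L L) L) L) L) (B 14 15 (B 1 3 (B 15 16 (B 4 0 (B 12
  14 L L) L) L) (B 1 4 (B 8 4 (B 2 4 (B 12 15 (B 4 1 L L) L) L) (B 8 10 (B 15 7 (B 4 0 (B 12 14 L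
  L) L) (B 15 12 (B 9 4 (B 5 4 (B 11 7 (B 10 0 (B 4 0 (B 12 14 L L) L) (B 10 6 (B 2 3 (B 6 15 (B
  12 15 L L) L) (B 2 4 (B 12 15 L L) (B 2 10 (B 12 15 L L) L))) L)) L) L) (B 9 7 (B 10 0 (B 4 0 (B
  12 14 L L) L) (B 10 6 (B 11 0 (B 5 0 (B 2 3 (B 6 15 (B 12 15 L L) L) (B 2 4 (B 12 15 L L) (B 2
  10 (B 12 15 L L) L))) L) (B 11 7 (B 2 3 (B 6 15 (B 12 15 L L) L) (B 2 4 (B 12 15 L L) (B 2 10 (B
  12 15 L L) L))) L)) L)) L)) (B 15 16 (B 4 0 (B 12 14 L L) L) L))) L)) (B 1 10 (B 15 16 (B 4 0 (B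
  12 14 L L) L) L) L))) L))) (B 0 2 (B 14 12 L (B 14 13 (B 1 3 (B 15 16 (B 2 3 (B 4 0 L L) L) L)
  L) L)) (B 0 8 (B 14 13 (B 1 3 (B 15 16 (B 2 3 (B 4 0 L L) L) L) L) L) L))) L))) (B 3 4 (B 16 12
  (B 0 2 (B 14 12 L (B 14 13 (B 1 3 (B 15 16 (B 2 3 (B 4 0 L L) L) L) L) L)) (B 0 4 L L)) (B 16 15
  L L)) (B 3 7 (B 16 12 (B 0 2 (B 14 12 L (B 14 13 (B 1 3 (B 15 16 (B 2 3 (B 4 0 L L) L) L) L) L))
  (B 0 4 L L)) L) L))) L)))))))))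

def X : Type := Fin 17

instance : DecidableEq X := inferInstanceAs (DecidableEq (Fin 17))
instance : Fintype X := inferInstanceAs (Fintype (Fin 17))

def pt (i : Fin 17) : X := i
def val (x : X) : ℕ := Fin.val (n := 17) x

instance : PartialOrder X where
  le a b := (up (val a)).testBit (val b) = true
  le_refl := by decide +kernel
  le_trans := by decide +kernel
  le_antisymm := by decide +kernel

instance (a b : X) : Decidable (a ≤ b) :=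
  inferInstanceAs (Decidable ((up (val a)).testBit (val b) = true))

lemma hup (x y : ℕ) (h : (up x).testBit y = true) : x < 17 ∧ y < 17 := by
  have hx : x < 17 := by
    by_contra hx
    rw [up, List.getD_eq_default _ _ (by simpa using hx)] at h
    simp at h
  refine ⟨hx, ?_⟩
  by_contra hy
  have : ∀ x < 17, up x < 2 ^ 17 := by decide
  rw [Nat.testBit_lt_two_pow ((this x hx).trans_le (Nat.pow_le_pow_right (by norm_num) (by omega)))] at h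
  simp at h

lemma fppX (f : X → X) (hf : Monotone f) : ∃ x, f x = x :=
  fpp (X := X) 17 (Equiv.refl (Fin 17)) up dn dom tr (by norm_num) (fun _ _ => Iff.rfl) hup (by decide +kernel) rfl
    (by decide +kernel) (by decide +kernel) f hf


/-- The negation of the preceding statement: For every finite poset with the up-set (Alexandrov) topology in which every order-preserving self-map has a fixed point, the space is connected and any two closed connected sets covering it have connected intersection. -/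
theorem result :
    ¬ (∀ (X : Type) [PartialOrder X] [Fintype X] [TopologicalSpace X] [Topology.IsUpperSet X],
      (∀ f : X →o X, ∃ x, f x = x) →
        (ConnectedSpace X ∧
          ∀ A B : Set X, IsClosed A → IsClosed B → IsConnected A → IsConnected B →
            A ∪ B = Set.univ → IsConnected (A ∩ B))) := by
  intro H
  let _ : TopologicalSpace X := Topology.upperSet X
  have : Topology.IsUpperSet X := ⟨rfl⟩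
  have c : ∀ a : X, IsConnected (Set.Iic a) := fun a => by
    rw [← Topology.IsUpperSet.closure_singleton]; exact isConnected_singleton.closure
  have cl : ∀ a : X, IsClosed (Set.Iic a) := fun a =>
    Topology.IsUpperSet.isClosed_iff_isLower.2 (isLowerSet_Iic a)
  have h := (H X (fun f => fppX f f.monotone)).2 (Set.Iic (pt 12) ∪ Set.Iic (pt 14))
    (Set.Iic (pt 13) ∪ Set.Iic (pt 15) ∪ Set.Iic (pt 16)) ((cl _).union (cl _))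
    (((cl _).union (cl _)).union (cl _))
    (IsConnected.union ⟨pt 0, by decide, by decide⟩ (c _) (c _))
    (IsConnected.union ⟨pt 3, Or.inr (by decide), by decide⟩
      (IsConnected.union ⟨pt 1, by decide, by decide⟩ (c _) (c _)) (c _)) (by
      ext x
      simp only [Set.mem_union, Set.mem_Iic, Set.mem_univ, iff_true]
      revert x; decide)
  obtain ⟨x, hx⟩ := isPreconnected_closed_iff.1 h.2 (Set.Iic (pt 7)) (Set.Iic (pt 8)) (cl _) (cl _) (by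
      intro x
      simp only [Set.mem_union, Set.mem_Iic, Set.mem_inter_iff]
      revert x; decide)
    ⟨pt 7, ⟨Or.inl (by decide), Or.inr (by decide)⟩, by decide⟩
    ⟨pt 8, ⟨Or.inr (by decide), Or.inl (Or.inl (by decide))⟩, by decide⟩
  have := hx.2
  simp only [Set.mem_Iic, Set.mem_inter_iff] at this
  revert this; clear hx; revert x; decide

end Pool.Agent.S10356
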