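import Pool.Statements.S10425

set_option autoImplicit false
open Pool Pool.MP_9e1b23_co

namespace Pool.Agent.S10425

open Finset

noncomputable section

open Classical in
/-- number of independent subsets of `s` -/
def I {V : Type} (G : SimpleGraph V) (s : Finset V) : ℕ :=
  (s.powerset.filter fun t => ∀ a ∈ t, ∀ b ∈ t, ¬ G.Adj a b).card

open Classical in
lemma I_rec {V : Type} (G : SimpleGraph V) (s : Finset V) {v : V} (hv : v ∈ s) :
    I G s = I G (s.erase v) + I G ((s.erase v).filter fun w => ¬ G.Adj v w) := by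
  unfold I
  rw [← card_filter_add_card_filter_not (fun t => v ∉ t)]
  congr 1
  · congr 1
    ext t
    simp only [mem_filter, mem_powerset, subset_erase]
    tauto
  · symm
    refine card_bij (fun t _ => insert v t) ?_ ?_ ?_
    · intro t ht
      simp only [mem_filter, mem_powerset] at ht ⊢
      have h1 : ∀ a ∈ t, a ∈ s ∧ ¬ G.Adj v a := fun a ha => by
        have := ht.1 ha
        simp only [mem_filter, mem_erase] at this
        exact ⟨this.1.2, this.2⟩
      refine ⟨⟨insert_subset hv fun a ha => (h1 a ha).1, ?_⟩, by simp⟩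
      intro a ha b hb
      rcases mem_insert.1 ha with e | ha' <;> rcases mem_insert.1 hb with e' | hb'
      · rw [e, e']; exact G.irrefl
      · rw [e]; exact (h1 b hb').2
      · rw [e']; exact fun h => (h1 a ha').2 h.symm
      · exact ht.2 a ha' b hb'
    · intro t ht t' ht' h
      simp only [mem_filter, mem_powerset] at ht ht'
      have a1 : v ∉ t := fun h => by simpa using ht.1 h
      have a2 : v ∉ t' := fun h => by simpa using ht'.1 h
      rw [← erase_insert a1, ← erase_insert a2]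
      exact congrArg (erase · v) h
    · intro t ht
      simp only [mem_filter, mem_powerset, not_not] at ht
      refine ⟨t.erase v, ?_, insert_erase ht.2⟩
      simp only [mem_filter, mem_powerset]
      refine ⟨fun a ha => ?_, fun a ha b hb => ht.1.2 a (mem_of_mem_erase ha) b (mem_of_mem_erase hb)⟩
      simp only [mem_filter, mem_erase] at ha ⊢
      exact ⟨⟨ha.1, ht.1.1 ha.2⟩, ht.1.2 v ht.2 a ha.2⟩

lemma I_rec' {V : Type} (G : SimpleGraph V) {s s1 s2 : Finset V} {v : V} (hv : v ∈ s)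
    (h1 : ∀ w, w ∈ s1 ↔ w ≠ v ∧ w ∈ s) (h2 : ∀ w, w ∈ s2 ↔ (w ≠ v ∧ w ∈ s) ∧ ¬ G.Adj v w) :
    I G s = I G s1 + I G s2 := by
  rw [I_rec G s hv]
  congr 2 <;> ext w <;> simp [h1, h2]

lemma I_empty {V : Type} (G : SimpleGraph V) : I G ∅ = 1 := by
  simp [I, filter_singleton]

def PathOn {V : Type} (G : SimpleGraph V) (s : Finset V) : Prop :=
  ∃ x : V → ℕ, (∀ a ∈ s, x a < s.card) ∧ Set.InjOn x s ∧
    ∀ a ∈ s, ∀ b ∈ s, (G.Adj a b ↔ x a + 1 = x b ∨ x b + 1 = x a)

lemma surj {V : Type} {s : Finset V} {x : V → ℕ} (h1 : ∀ a ∈ s, x a < s.card)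
    (h2 : Set.InjOn x s) {j : ℕ} (hj : j < s.card) : ∃ a ∈ s, x a = j := by
  have := surjOn_of_injOn_of_card_le (t := range s.card) x
    (fun a ha => by simpa using h1 a ha) h2 (by simp)
  exact this (by simpa using hj)

lemma leaf {V : Type} {G : SimpleGraph V} (hG : G.IsTree) (s : Finset V) (hs : s.Nonempty) :
    ∃ v ∈ s, ∀ a ∈ s, ∀ b ∈ s, G.Adj v a → G.Adj v b → a = b := by
  obtain ⟨r, -⟩ := id hs
  obtain ⟨v, hv, hm⟩ := s.exists_max_image (G.dist r) hs
  refine ⟨v, hv, fun a ha b hb h1 h2 => ?_⟩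
  have key : ∀ a ∈ s, ∀ h : G.Adj v a, ∃ p : G.Walk r a, (p.concat h.symm).IsPath := by
    intro a ha h
    obtain ⟨p, hp⟩ := hG.connected.exists_walk_length_eq_dist r a
    refine ⟨p, SimpleGraph.Walk.isPath_of_length_eq_dist _ ?_⟩
    have := hG.dist_eq_dist_add_one_of_adj r h
    have := hm a ha
    rw [SimpleGraph.Walk.length_concat, hp]; omega
  obtain ⟨p, hp⟩ := key a ha h1
  obtain ⟨q, hq⟩ := key b hb h2
  have := congrArg (fun w : G.Path r v => w.1.penultimate) 
    ((hG.isAcyclic.subsingleton_path r v).elim ⟨_, hp⟩ ⟨_, hq⟩)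
  simpa using this

lemma main {V : Type} {G : SimpleGraph V} (hG : G.IsTree) (n : ℕ) : ∀ s : Finset V, s.card = n →
    Nat.fib (n + 2) ≤ I G s ∧ (I G s = Nat.fib (n + 2) → PathOn G s) := by
  classical
  induction n using Nat.strong_induction_on with
  | _ n ih =>
  intro s hn
  rcases n with _ | n
  · rw [card_eq_zero.1 hn, I_empty]
    exact ⟨by simp, fun _ => ⟨fun _ => 0, by simp, by simp, by simp⟩⟩
  obtain ⟨v, hv, hl⟩ := leaf hG s (card_pos.1 (by omega))
  have c1 : (s.erase v).card = n := by rw [card_erase_of_mem hv]; omega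
  obtain ⟨a1, a2⟩ := ih n (by omega) _ c1
  have hr := I_rec G s hv
  have f1 : Nat.fib (n + 1 + 2) = Nat.fib (n + 1) + Nat.fib (n + 2) := Nat.fib_add_two
  by_cases hu : ∃ u ∈ s, G.Adj v u
  · obtain ⟨u, hu, huv⟩ := hu
    have hu' : u ∈ s.erase v := mem_erase.2 ⟨huv.ne', hu⟩
    have e : ((s.erase v).filter fun w => ¬ G.Adj v w) = (s.erase v).erase u := by
      ext w
      simp only [mem_filter, mem_erase]
      constructor
      · rintro ⟨h1, h2⟩
        exact ⟨fun h => h2 (h ▸ huv), h1⟩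
      · rintro ⟨h1, h2⟩
        exact ⟨h2, fun h => h1 (hl w h2.2 u hu h huv)⟩
    rw [e] at hr
    obtain ⟨m, rfl⟩ : ∃ m, n = m + 1 := ⟨n - 1, by have := card_pos.2 ⟨u, hu'⟩; omega⟩
    have c2 : ((s.erase v).erase u).card = m := by rw [card_erase_of_mem hu']; omega
    obtain ⟨b1, b2⟩ := ih m (by omega) _ c2
    have f3 : Nat.fib (m + 1 + 1) = Nat.fib (m + 2) := rfl
    refine ⟨by omega, fun h => ?_⟩
    obtain ⟨x, x1, x2, x3⟩ := a2 (by omega)
    obtain ⟨y, y1, y2, y3⟩ := b2 (by omega)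
    have hend : x u = 0 ∨ x u = m := by
      by_contra H
      push Not at H
      have hum := x1 u hu'
      obtain ⟨z, hz, z0⟩ := surj y1 y2 (j := 0) (by omega)
      have key : ∀ j, ∀ a ∈ (s.erase v).erase u, y a = j → (x a < x u ↔ x z < x u) := by
        intro j
        induction j with
        | zero => intro a ha h0; rw [y2 ha hz (h0.trans z0.symm)]
        | succ j ihj =>
          intro a ha h0
          obtain ⟨b, hb, b0⟩ := surj y1 y2 (j := j) (by have := y1 a ha; omega)
          rw [← ihj b hb b0]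
          have k1 := (x3 a (mem_of_mem_erase ha) b (mem_of_mem_erase hb)).1
            ((y3 a ha b hb).2 (by omega))
          have k2 : x a ≠ x u := fun h => (mem_erase.1 ha).1 (x2 (mem_of_mem_erase ha) hu' h)
          have k3 : x b ≠ x u := fun h => (mem_erase.1 hb).1 (x2 (mem_of_mem_erase hb) hu' h)
          omega
      obtain ⟨a, ha, a0⟩ := surj x1 x2 (j := 0) (by omega)
      obtain ⟨b, hb, b0⟩ := surj x1 x2 (j := m) (by omega)
      have k1 := key _ a (mem_erase.2 ⟨by rintro rfl; omega, ha⟩) rfl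
      have k2 := key _ b (mem_erase.2 ⟨by rintro rfl; omega, hb⟩) rfl
      omega
    have adjv : ∀ a ∈ s.erase v, (G.Adj v a ↔ x a = x u) := fun a ha =>
      ⟨fun h => by rw [hl a (mem_of_mem_erase ha) u hu h huv], fun h => x2 ha hu' h ▸ huv⟩
    obtain ⟨c, d, hc, hd⟩ : ∃ c d : ℕ, c < m + 2 ∧ ∀ j < m + 1, j + d < m + 2 ∧ j + d ≠ c ∧
        (j = x u ↔ c + 1 = j + d ∨ j + d + 1 = c) := by
      rcases hend with h0 | h0
      · exact ⟨0, 1, by omega, fun j hj => by omega⟩
      · exact ⟨m + 1, 0, by omega, fun j hj => by omega⟩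
    have xl : ∀ a ∈ s, a ≠ v → x a < m + 1 := fun a ha h => c1 ▸ x1 a (mem_erase.2 ⟨h, ha⟩)
    refine ⟨fun a => if a = v then c else x a + d, fun a ha => ?_, fun a ha b hb hab => ?_,
      fun a ha b hb => ?_⟩
    · dsimp only
      split_ifs with h1
      · omega
      · have := hd _ (xl a ha h1); omega
    · by_cases h1 : a = v <;> by_cases h2 : b = v <;> simp only [h1, h2, if_true, if_false] at hab
      · rw [h1, h2]
      · exact absurd hab.symm (hd _ (xl b hb h2)).2.1
      · exact absurd hab (hd _ (xl a ha h1)).2.1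
      · exact x2 (mem_erase.2 ⟨h1, ha⟩) (mem_erase.2 ⟨h2, hb⟩) (by omega)
    · by_cases h1 : a = v <;> by_cases h2 : b = v <;> simp only [h1, h2, if_true, if_false]
      · simp
      · rw [adjv b (mem_erase.2 ⟨h2, hb⟩)]; exact (hd _ (xl b hb h2)).2.2
      · rw [G.adj_comm, adjv a (mem_erase.2 ⟨h1, ha⟩), or_comm]; exact (hd _ (xl a ha h1)).2.2
      · rw [x3 a (mem_erase.2 ⟨h1, ha⟩) b (mem_erase.2 ⟨h2, hb⟩)]; omega
  · have e : ((s.erase v).filter fun w => ¬ G.Adj v w) = s.erase v :=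
      filter_true_of_mem fun w hw h => hu ⟨w, mem_of_mem_erase hw, h⟩
    rw [e] at hr
    have f2 : Nat.fib (n + 1) ≤ Nat.fib (n + 2) := Nat.fib_le_fib_succ
    refine ⟨by omega, fun h => ?_⟩
    rcases n with _ | n
    · obtain ⟨a, rfl⟩ := card_eq_one.1 hn
      exact ⟨fun _ => 0, by simp, by simp, by simp⟩
    · have : Nat.fib (n + 2) < Nat.fib (n + 2 + 1) := Nat.fib_lt_fib_succ (by omega)
      simp only [add_assoc, Nat.reduceAdd] at *
      omega

lemma I_path (n k : ℕ) (hk : k ≤ n) :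
    I (SimpleGraph.pathGraph n) (univ.filter fun i : Fin n => i.val < k) = Nat.fib (k + 2) := by
  classical
  induction k using Nat.strong_induction_on with
  | _ k ih =>
  rcases k with _ | k
  · simp [I_empty]
  rw [I_rec' _ (v := ⟨k, by omega⟩) (s1 := univ.filter fun i : Fin n => i.val < k)
    (s2 := univ.filter fun i : Fin n => i.val < k - 1) (by simp)
    (fun i => by simp [Fin.ext_iff]; omega)
    (fun i => by simp [Fin.ext_iff, SimpleGraph.pathGraph_adj]; omega),
    ih k (by omega) (by omega), ih (k - 1) (by omega) (by omega)]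
  rcases k with _ | k
  · decide
  · exact (add_comm _ _).trans (Nat.fib_add_two (n := k + 2)).symm

/-- number of homomorphisms -/
def hc {n : ℕ} {V : Type} (T : SimpleGraph (Fin n)) (R : V → V → Prop) : ℕ :=
  Nat.card {f : Fin n → V // ∀ u v, T.Adj u v → R (f u) (f v)}

def hard (a b : Bool) : Prop := ¬ (a = true ∧ b = true)

lemma hc_hard {n : ℕ} (T : SimpleGraph (Fin n)) : hc T hard = I T univ := by
  classical
  unfold hc I
  rw [← Fintype.card_coe, ← Nat.card_eq_fintype_card]
  refine Nat.card_congr ⟨fun f => ⟨univ.filter fun u => f.1 u = true, ?_⟩,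
    fun t => ⟨fun u => decide (u ∈ t.1), ?_⟩, fun f => ?_, fun t => ?_⟩
  · simp only [mem_filter, mem_powerset, subset_univ, mem_univ, true_and]
    exact fun a ha b hb h => f.2 a b h ⟨ha, hb⟩
  · intro u v h h'
    have := t.2
    simp only [mem_filter] at this
    exact this.2 u (by simpa using h'.1) v (by simpa using h'.2) h
  · ext u; simp
  · ext u; simp

open Classical in
lemma hc_blow {n : ℕ} {K : Type} [Fintype K] (T : SimpleGraph (Fin n)) (R : K → K → Prop)
    (w : K → ℕ) : hc T (fun x y : (Σ k, Fin (w k)) => R x.1 y.1) =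
      ∑ f : Fin n → K, if ∀ u v, T.Adj u v → R (f u) (f v) then ∏ u, w (f u) else 0 := by
  unfold hc
  rw [Nat.card_congr (β := Σ f : {f : Fin n → K // ∀ u v, T.Adj u v → R (f u) (f v)},
    ∀ u, Fin (w (f.1 u))) ⟨fun f => ⟨⟨fun u => (f.1 u).1, f.2⟩, fun u => (f.1 u).2⟩,
      fun p => ⟨fun u => ⟨p.1.1 u, p.2 u⟩, p.1.2⟩, fun _ => rfl, fun _ => rfl⟩]
  rw [Nat.card_eq_fintype_card, Fintype.card_sigma, ← sum_filter]
  simp only [Fintype.card_pi, Fintype.card_fin]
  exact (sum_subtype _ (by simp) fun f : Fin n → K => ∏ u, w (f u)).symm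

lemma const_of_conn {n : ℕ} {T : SimpleGraph (Fin n)} (hT : T.Connected) {C : Type}
    (g : Fin n → C) (h : ∀ u v, T.Adj u v → g u = g v) (u v : Fin n) : g u = g v := by
  obtain ⟨p⟩ := hT.preconnected u v
  induction p with
  | nil => rfl
  | cons a _ ih => exact (h _ _ a).trans ih

def RR {A B : Type} (m : ℕ) (R : A → A → Prop) (S : B → B → Prop) :
    A ⊕ (Fin m × B) → A ⊕ (Fin m × B) → Prop
  | .inl a, .inl b => R a b
  | .inr a, .inr b => a.1 = b.1 ∧ S a.2 b.2
  | _, _ => False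

lemma hc_sum {n : ℕ} {T : SimpleGraph (Fin n)} (hT : T.Connected) {A B : Type} [Finite A]
    [Finite B] (m : ℕ) (R : A → A → Prop) (S : B → B → Prop) :
    hc T (RR m R S) = hc T R + m * hc T S := by
  obtain ⟨r⟩ := hT.nonempty
  unfold hc
  rw [← Nat.card_fin m, ← Nat.card_prod, ← Nat.card_sum, Nat.card_fin]
  symm
  refine Nat.card_eq_of_bijective (Sum.elim (fun f => ⟨fun u => .inl (f.1 u), f.2⟩)
    (fun p => ⟨fun u => .inr (p.1, p.2.1 u), fun u v h => ⟨rfl, p.2.2 u v h⟩⟩)) ⟨?_, ?_⟩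
  · rintro (f | ⟨c, f⟩) (g | ⟨d, g⟩) h <;> have h1 := congrFun (congrArg Subtype.val h) <;>
      simp only [Sum.elim_inl, Sum.elim_inr, Sum.inl.injEq, Sum.inr.injEq, Prod.mk.injEq,
        reduceCtorEq] at h1
    · exact congrArg _ (Subtype.ext (funext h1))
    · exact (h1 r).elim
    · exact (h1 r).elim
    · rw [(h1 r).1, Subtype.ext (funext fun u => (h1 u).2)]
  · rintro ⟨f, hf⟩
    have key := const_of_conn hT (fun u => (f u).elim (fun _ => none) fun p => some p.1)
      (fun u v h => by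
        have := hf u v h
        rcases hu : f u with a | a <;> rcases hv : f v with b | b <;> simp_all [RR]) r
    rcases hr : f r with a | a
    · have h1 : ∀ u, ∃ b, f u = .inl b := fun u => by
        have := key u
        rcases hu : f u with b | b <;> simp_all
      choose g hg using h1
      exact ⟨.inl ⟨g, fun u v h => by simpa [hg, RR] using hf u v h⟩,
        Subtype.ext (funext fun u => (hg u).symm)⟩
    · have h1 : ∀ u, ∃ b, f u = .inr (a.1, b) := fun u => by
        have := key u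
        rcases hu : f u with b | ⟨c, b⟩ <;> simp_all
      choose g hg using h1
      exact ⟨.inr ⟨a.1, g, fun u v h => by simpa [hg, RR] using hf u v h⟩,
        Subtype.ext (funext fun u => (hg u).symm)⟩

lemma hc_le {n : ℕ} {V : Type} [Finite V] (T : SimpleGraph (Fin n)) (R : V → V → Prop) :
    hc T R ≤ Nat.card V ^ n := by
  have := Nat.card_le_card_of_injective
    (Subtype.val : {f : Fin n → V // ∀ u v, T.Adj u v → R (f u) (f v)} → _) Subtype.val_injective
  simpa [Nat.card_fun, hc] using this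

lemma hc_path {n : ℕ} {V : Type} {T : SimpleGraph (Fin n)} (h : PathOn T univ)
    (R : V → V → Prop) : hc (SimpleGraph.pathGraph n) R = hc T R := by
  obtain ⟨x, x1, x2, x3⟩ := h
  let e : Fin n → Fin n := fun a => ⟨x a, by simpa using x1 a (mem_univ _)⟩
  have he : Function.Bijective e := Finite.injective_iff_bijective.1 fun a b h =>
    x2 (by simp) (by simp) (congrArg Fin.val h)
  let E := Equiv.ofBijective e he
  have hadj : ∀ a b, T.Adj a b ↔ (SimpleGraph.pathGraph n).Adj (E a) (E b) := fun a b => by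
    rw [x3 a (mem_univ _) b (mem_univ _), SimpleGraph.pathGraph_adj]; rfl
  refine Nat.card_congr ((E.arrowCongr (Equiv.refl V)).symm.subtypeEquiv fun f => ⟨?_, ?_⟩)
  · exact fun h u v huv => h _ _ ((hadj u v).1 huv)
  · intro h u v huv
    have := h (E.symm u) (E.symm v) ((hadj _ _).2 (by simpa using huv))
    simpa using this

def w : Fin 5 → ℕ := ![43, 1, 2, 4, 30]

def A (a b : Fin 5) : Prop := a.val + 1 = b.val ∨ b.val + 1 = a.val

instance : DecidableRel A := fun a b => by unfold A; infer_instance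

def E7 : SimpleGraph (Fin 7) := SimpleGraph.fromRel fun a b =>
  (a.val + 1 = b.val ∧ b.val < 6) ∨ (a.val = 2 ∧ b.val = 6)

instance : DecidableRel E7.Adj := fun a b => by unfold E7; infer_instance

lemma E7_tree : E7.IsTree := by
  rw [SimpleGraph.isTree_iff_connected_and_card, Nat.card_eq_fintype_card,
    Nat.card_eq_fintype_card]
  exact ⟨by decide, by decide⟩

lemma sum_cons {n : ℕ} (g : (Fin (n + 1) → Fin 5) → ℕ) :
    ∑ f, g f = ∑ a, ∑ f : Fin n → Fin 5, g (Matrix.vecCons a f) := by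
  rw [← (Fin.consEquiv fun _ => Fin 5).sum_comp, Fintype.sum_prod_type]; rfl

lemma sum7 (g : (Fin 7 → Fin 5) → ℕ) : ∑ f, g f =
    ∑ a, ∑ b, ∑ c, ∑ d, ∑ e, ∑ h, ∑ k, g ![a, b, c, d, e, h, k] := by
  simp only [sum_cons, univ_unique, sum_singleton]
  rfl

lemma A_symm {a b : Fin 5} (h : A a b) : A b a := Or.symm h

open Classical in
lemma cP : hc (SimpleGraph.pathGraph 7) (fun x y : (Σ k, Fin (w k)) => A x.1 y.1) = 84182790 := by
  rw [hc_blow]
  have : ∀ f : Fin 7 → Fin 5, (∀ u v, (SimpleGraph.pathGraph 7).Adj u v → A (f u) (f v)) ↔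
      A (f 0) (f 1) ∧ A (f 1) (f 2) ∧ A (f 2) (f 3) ∧ A (f 3) (f 4) ∧ A (f 4) (f 5) ∧
      A (f 5) (f 6) := fun f => by
    simp only [SimpleGraph.pathGraph_adj]
    refine ⟨fun h => ⟨h 0 1 (by decide), h 1 2 (by decide), h 2 3 (by decide), h 3 4 (by decide),
      h 4 5 (by decide), h 5 6 (by decide)⟩, ?_⟩
    rintro ⟨h1, h2, h3, h4, h5, h6⟩ u v huv
    fin_cases u <;> fin_cases v <;>
      first | exact absurd huv (by decide) | assumption | (apply A_symm; assumption)
  have e : ∀ a b c d e h k : Fin 5, (if ∀ u v, (SimpleGraph.pathGraph 7).Adj u v →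
      A (![a, b, c, d, e, h, k] u) (![a, b, c, d, e, h, k] v) then
      ∏ u, w (![a, b, c, d, e, h, k] u) else 0) = if A a b ∧ A b c ∧ A c d ∧ A d e ∧ A e h ∧ A h k
      then w a * w b * w c * w d * w e * w h * w k else 0 := fun a b c d e h k =>
    if_congr (this _) (Fin.prod_univ_seven _) rfl
  rw [sum7]
  refine Eq.trans (sum_congr rfl fun a _ => sum_congr rfl fun b _ => sum_congr rfl fun c _ =>
    sum_congr rfl fun d _ => sum_congr rfl fun e' _ => sum_congr rfl fun h _ =>
    sum_congr rfl fun k _ => by convert e a b c d e' h k) ?_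
  decide +kernel

open Classical in
lemma cE : hc E7 (fun x y : (Σ k, Fin (w k)) => A x.1 y.1) = 84176270 := by
  rw [hc_blow]
  have : ∀ f : Fin 7 → Fin 5, (∀ u v, E7.Adj u v → A (f u) (f v)) ↔
      A (f 0) (f 1) ∧ A (f 1) (f 2) ∧ A (f 2) (f 3) ∧ A (f 3) (f 4) ∧ A (f 4) (f 5) ∧
      A (f 2) (f 6) := fun f => by
    refine ⟨fun h => ⟨h 0 1 (by decide), h 1 2 (by decide), h 2 3 (by decide), h 3 4 (by decide),
      h 4 5 (by decide), h 2 6 (by decide)⟩, ?_⟩
    rintro ⟨h1, h2, h3, h4, h5, h6⟩ u v huv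
    fin_cases u <;> fin_cases v <;>
      first | exact absurd huv (by decide) | assumption | (apply A_symm; assumption)
  have e : ∀ a b c d e h k : Fin 5, (if ∀ u v, E7.Adj u v →
      A (![a, b, c, d, e, h, k] u) (![a, b, c, d, e, h, k] v) then
      ∏ u, w (![a, b, c, d, e, h, k] u) else 0) = if A a b ∧ A b c ∧ A c d ∧ A d e ∧ A e h ∧ A c k
      then w a * w b * w c * w d * w e * w h * w k else 0 := fun a b c d e h k =>
    if_congr (this _) (Fin.prod_univ_seven _) rfl
  rw [sum7]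
  refine Eq.trans (sum_congr rfl fun a _ => sum_congr rfl fun b _ => sum_congr rfl fun c _ =>
    sum_congr rfl fun d _ => sum_congr rfl fun e' _ => sum_congr rfl fun h _ =>
    sum_congr rfl fun k _ => by convert e a b c d e' h k) ?_
  decide +kernel

lemma hc_hardN {n : ℕ} (T : SimpleGraph (Fin n)) (N : ℕ) :
    hc T (fun x y : (Σ _ : Bool, Fin N) => hard x.1 y.1) = I T univ * N ^ n := by
  classical
  rw [hc_blow T hard fun _ => N, ← hc_hard, hc, Nat.card_eq_fintype_card, Fintype.card_subtype,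
    ← sum_filter]
  simp

end

theorem result :
    ∃ (V : Type) (_ : Finite V) (R : V → V → Prop),
      (∀ a b, R a b → R b a) ∧
      ∃ α β : ℕ, α < β ∧
        (∃ T : SimpleGraph (Fin α), T.IsTree ∧
          Nat.card {f : Fin α → V // ∀ u v, T.Adj u v → R (f u) (f v)} <
            Nat.card {f : Fin α → V //
              ∀ u v, (SimpleGraph.pathGraph α).Adj u v → R (f u) (f v)}) ∧
        ∀ n : ℕ, β ≤ n → ∀ T : SimpleGraph (Fin n), T.IsTree →
          Nat.card {f : Fin n → V //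
              ∀ u v, (SimpleGraph.pathGraph n).Adj u v → R (f u) (f v)} ≤
            Nat.card {f : Fin n → V // ∀ u v, T.Adj u v → R (f u) (f v)} := by
  obtain ⟨N, hN⟩ : ∃ N : ℕ, N = 2 * Nat.card (Σ k, Fin (w k)) := ⟨_, rfl⟩
  obtain ⟨m, hm⟩ : ∃ m : ℕ, m = 2 ^ 7 * N ^ 7 + 8 := ⟨_, rfl⟩
  refine ⟨(Σ _ : Bool, Fin N) ⊕ (Fin m × (Σ k, Fin (w k))), inferInstance,
    RR m (fun x y => hard x.1 y.1) (fun x y => A x.1 y.1), ?_, 7, m, by omega,
    ⟨E7, E7_tree, ?_⟩, fun n hn T hT => ?_⟩
  · rintro (a | a) (b | b) h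
    · exact fun h' => h h'.symm
    · exact h
    · exact h
    · exact ⟨h.1.symm, h.2.symm⟩
  · show hc _ _ < hc _ _
    rw [hc_sum E7_tree.connected, hc_sum (SimpleGraph.pathGraph_connected 6), cP, cE, hc_hardN]
    have h1 := hc_le E7 hard
    rw [hc_hard] at h1
    have h2 : I E7 Finset.univ * N ^ 7 ≤ 2 ^ 7 * N ^ 7 :=
      Nat.mul_le_mul_right _ (by simpa using h1)
    omega
  · show hc _ _ ≤ hc _ _
    obtain ⟨h1, h2⟩ := main hT n Finset.univ (by simp)
    rcases h1.eq_or_lt with h | h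
    · exact (hc_path (h2 h.symm) _).le
    obtain ⟨k, rfl⟩ : ∃ k, n = k + 1 := ⟨n - 1, by omega⟩
    have h3 := I_path (k + 1) (k + 1) le_rfl
    rw [Finset.filter_true_of_mem fun i _ => i.2] at h3
    rw [hc_sum hT.connected, hc_sum (SimpleGraph.pathGraph_connected k), hc_hardN, hc_hardN, h3]
    have h4 := hc_le (SimpleGraph.pathGraph (k + 1)) (fun x y : (Σ k, Fin (w k)) => A x.1 y.1)
    have h5 : m ≤ 2 ^ (k + 1) := hn.trans Nat.lt_two_pow_self.le
    have h6 := Nat.mul_le_mul h5 h4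
    rw [← mul_pow, ← hN] at h6
    have h7 := Nat.mul_le_mul_right (N ^ (k + 1)) (Nat.succ_le_of_lt h)
    rw [Nat.succ_mul] at h7
    omega

end Pool.Agent.S10425
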