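import Pool.Statements.S10543

set_option autoImplicit false
open Pool Pool.MP_a3e24b_co

namespace Pool.Agent.S10543

open Finset

/-- one padded layer -/
lemma layer {G : Type} [AddCommGroup G] [Fintype G] [DecidableEq G] (ν : G → ℕ)
    (h0 : ν 0 = 0) (hneg : ∀ x, ν (-x) = ν x) (hadd : ∀ x y, ν (x + y) ≤ ν x + ν y) (a s : ℕ)
    (U : Finset G) :
    ∃ (A : Finset G) (l : G → G), A ⊆ U ∧
      (univ.filter (fun z => ν z ≤ a)).card * U.card
        ≤ (univ.filter (fun z => ν z ≤ a + s)).card * A.card ∧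
      (∀ z ∈ A, ν (z - l z) ≤ a) ∧ (∀ z ∈ A, ∀ w ∈ A, ν (z - w) ≤ s → l z = l w) := by
  induction U using Finset.strongInduction with
  | H U ih =>
  rcases U.eq_empty_or_nonempty with rfl | hU
  · exact ⟨∅, id, by simp⟩
  have hsum : ∀ r, ∑ c : G, (U.filter (fun z => ν (z - c) ≤ r)).card
      = (univ.filter (fun z => ν z ≤ r)).card * U.card := by
    intro r
    simp only [card_filter]
    rw [sum_comm, mul_comm, ← smul_eq_mul, ← sum_const]
    refine sum_congr rfl fun z _ => ?_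
    exact Fintype.sum_equiv (Equiv.subLeft z) _ _ (fun c => by simp)
  set Va := (univ.filter (fun z => ν z ≤ a)).card with hVa
  set Vb := (univ.filter (fun z => ν z ≤ a + s)).card with hVb
  have hc : ∃ c : G, (U.filter (fun z => ν (z - c) ≤ a + s)).Nonempty ∧
      Va * (U.filter (fun z => ν (z - c) ≤ a + s)).card
        ≤ Vb * (U.filter (fun z => ν (z - c) ≤ a)).card := by
    by_contra hcon
    push Not at hcon
    have h1 : ∑ c : G, Vb * (U.filter (fun z => ν (z - c) ≤ a)).card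
        < ∑ c : G, Va * (U.filter (fun z => ν (z - c) ≤ a + s)).card := by
      refine sum_lt_sum (fun c _ => ?_) ?_
      · rcases (U.filter (fun z => ν (z - c) ≤ a + s)).eq_empty_or_nonempty with h | h
        · have : U.filter (fun z => ν (z - c) ≤ a) = ∅ := by
            rw [filter_eq_empty_iff] at h ⊢
            intro z hz hz'
            exact h hz (by omega)
          simp [this]
        · exact (hcon c h).le
      · obtain ⟨c, hc⟩ := hU
        exact ⟨c, mem_univ _, hcon c ⟨c, by simp [hc, h0]⟩⟩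
    rw [← mul_sum, ← mul_sum, hsum, hsum, ← hVa, ← hVb, mul_left_comm] at h1
    exact lt_irrefl _ h1
  obtain ⟨c, hne, hc⟩ := hc
  obtain ⟨A, l, hAU, hcard, hl1, hl2⟩ := ih (U.filter (fun z => ¬ ν (z - c) ≤ a + s)) (by
    refine filter_ssubset.2 ?_
    obtain ⟨z, hz⟩ := hne
    rw [mem_filter] at hz
    exact ⟨z, hz.1, by simpa using hz.2⟩)
  have hA : ∀ z ∈ A, z ∈ U ∧ ¬ ν (z - c) ≤ a + s := fun z hz => mem_filter.1 (hAU hz)
  refine ⟨A ∪ U.filter (fun z => ν (z - c) ≤ a),
    fun z => if ν (z - c) ≤ a + s then c else l z, ?_, ?_, ?_, ?_⟩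
  · intro z hz
    rcases mem_union.1 hz with h | h
    · exact (hA z h).1
    · exact (mem_filter.1 h).1
  · rw [card_union_of_disjoint]
    · have := card_filter_add_card_filter_not (s := U) (fun z => ν (z - c) ≤ a + s)
      rw [← this]
      nlinarith
    · rw [disjoint_left]
      intro z hz hz'
      have h1 := (hA z hz).2
      have h2 := (mem_filter.1 hz').2
      omega
  · intro z hz
    rcases mem_union.1 hz with h | h
    · simp only [(hA z h).2, if_false]
      exact hl1 z h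
    · have h2 := (mem_filter.1 h).2
      have h3 : ν (z - c) ≤ a + s := by omega
      simp only [h3, if_true]
      exact h2
  · have key : ∀ z w, ν (z - c) ≤ a → ν (z - w) ≤ s → ν (w - c) ≤ a + s := by
      intro z w h1 h2
      have h3 := hadd (z - c) (-(z - w))
      rw [hneg] at h3
      have e : z - c + -(z - w) = w - c := by abel
      rw [e] at h3
      omega
    intro z hz w hw hzw
    rcases mem_union.1 hz with h | h <;> rcases mem_union.1 hw with h' | h'
    · simp only [(hA z h).2, (hA w h').2, if_false]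
      exact hl2 z h w h' hzw
    · exfalso
      refine (hA z h).2 (key w z (mem_filter.1 h').2 ?_)
      rw [← hneg, neg_sub]; exact hzw
    · exact absurd (key z w (mem_filter.1 h).2 hzw) (hA w h').2
    · have h2 : ν (z - c) ≤ a + s := by have := (mem_filter.1 h).2; omega
      have h3 : ν (w - c) ≤ a + s := by have := (mem_filter.1 h').2; omega
      simp only [h2, h3, if_true]

/-- iterating the layers -/
lemma cover {G : Type} [AddCommGroup G] [Fintype G] [DecidableEq G] (ν : G → ℕ)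
    (h0 : ν 0 = 0) (hneg : ∀ x, ν (-x) = ν x) (hadd : ∀ x y, ν (x + y) ≤ ν x + ν y) (a s : ℕ)
    (p : ℝ) (hp1 : p ≤ 1)
    (hp : p * (univ.filter (fun z => ν z ≤ a + s)).card ≤ (univ.filter (fun z => ν z ≤ a)).card)
    (N : ℕ) :
    ∃ (R : Finset G) (col : G → ℕ) (l : G → G), (R.card : ℝ) ≤ (1 - p) ^ N * Fintype.card G ∧
      (∀ z, z ∉ R → col z < N ∧ ν (z - l z) ≤ a) ∧
      (∀ z, z ∉ R → ∀ w, w ∉ R → col z = col w → ν (z - w) ≤ s → l z = l w) := by
  induction N with
  | zero => exact ⟨univ, fun _ => 0, id, by simp, by simp, by simp⟩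
  | succ N ih =>
    obtain ⟨R, col, l, hR, h1, h2⟩ := ih
    obtain ⟨A, l', hAR, hcard, h3, h4⟩ := layer ν h0 hneg hadd a s R
    refine ⟨R \ A, fun z => if z ∈ R then N else col z, fun z => if z ∈ R then l' z else l z,
      ?_, ?_, ?_⟩
    · have hVb : (0 : ℝ) < (univ.filter (fun z => ν z ≤ a + s)).card := by
        have : (univ.filter (fun z => ν z ≤ a + s)).Nonempty := ⟨0, by simp [h0]⟩
        exact_mod_cast this.card_pos
      have hcard' : ((univ.filter (fun z => ν z ≤ a)).card : ℝ) * R.card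
        ≤ (univ.filter (fun z => ν z ≤ a + s)).card * A.card := by exact_mod_cast hcard
      have h5 : p * R.card ≤ A.card := by
        have h6 : (0 : ℝ) ≤ R.card := by positivity
        have h7 := mul_le_mul_of_nonneg_right hp h6
        refine le_of_mul_le_mul_left ?_ hVb
        nlinarith
      rw [card_sdiff_of_subset hAR, Nat.cast_sub (card_le_card hAR), pow_succ]
      have h8 := mul_le_mul_of_nonneg_left hR (sub_nonneg.2 hp1)
      nlinarith
    · intro z hz
      by_cases hzR : z ∈ R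
      · have hzA : z ∈ A := by
          by_contra h
          exact hz (mem_sdiff.2 ⟨hzR, h⟩)
        simp only [hzR, if_true]
        exact ⟨Nat.lt_succ_self _, h3 z hzA⟩
      · simp only [hzR, if_false]
        exact ⟨(h1 z hzR).1.trans (Nat.lt_succ_self _), (h1 z hzR).2⟩
    · intro z hz w hw hc hzw
      have hA : ∀ z, z ∉ R \ A → z ∈ R → z ∈ A := by
        intro z hz hzR
        by_contra h
        exact hz (mem_sdiff.2 ⟨hzR, h⟩)
      by_cases hzR : z ∈ R <;> by_cases hwR : w ∈ R <;>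
        simp only [hzR, hwR, if_true, if_false] at hc ⊢
      · exact h4 z (hA z hz hzR) w (hA w hw hwR) hzw
      · have := (h1 w hwR).1; omega
      · have := (h1 z hzR).1; omega
      · exact h2 z hzR w hwR hc hzw

/-- the l1 norm on the discrete torus -/
def nu (n M : ℕ) (z : Fin n → ZMod M) : ℕ := ∑ i, (z i).valMinAbs.natAbs

lemma nu_zero (n M : ℕ) : nu n M 0 = 0 := by simp [nu]

lemma nu_neg (n M : ℕ) (z : Fin n → ZMod M) : nu n M (-z) = nu n M z := by
  simp [nu, ZMod.natAbs_valMinAbs_neg]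

lemma nu_add (n M : ℕ) (z w : Fin n → ZMod M) : nu n M (z + w) ≤ nu n M z + nu n M w := by
  simp only [nu, ← sum_add_distrib]
  exact sum_le_sum fun i _ => (ZMod.natAbs_valMinAbs_add_le _ _).trans (Int.natAbs_add_le _ _)

lemma ball_bound (n M : ℕ) [NeZero M] (q : ℝ) (hq0 : 0 < q) (hq1 : q < 1) (r : ℕ) :
    ((univ.filter (fun z : Fin n → ZMod M => nu n M z ≤ r)).card : ℝ) * q ^ r
      ≤ (2 / (1 - q)) ^ n := by
  have h1 : ∑ u : ZMod M, q ^ u.val ≤ 1 / (1 - q) := by
    have e : ∑ u : ZMod M, q ^ u.val = ∑ j ∈ range M, q ^ j := by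
      refine sum_bij (fun u _ => u.val) (fun u _ => mem_range.2 (ZMod.val_lt u))
        (fun u _ v _ h => ZMod.val_injective M h) (fun j hj => ?_) (fun _ _ => rfl)
      exact ⟨j, mem_univ _, ZMod.val_cast_of_lt (mem_range.1 hj)⟩
    rw [e, le_div_iff₀ (by linarith), mul_comm, mul_neg_geom_sum]
    have : 0 ≤ q ^ M := by positivity
    linarith
  have h2 : ∑ u : ZMod M, q ^ u.valMinAbs.natAbs ≤ 2 / (1 - q) := by
    have h3 : ∀ u : ZMod M, q ^ u.valMinAbs.natAbs ≤ q ^ u.val + q ^ (-u).val := by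
      intro u
      by_cases hu : u = 0
      · simp [hu]
      · rw [ZMod.valMinAbs_natAbs_eq_min, ZMod.neg_val, if_neg hu]
        have a1 : 0 ≤ q ^ u.val := by positivity
        have a2 : 0 ≤ q ^ (M - u.val) := by positivity
        rcases min_choice u.val (M - u.val) with h | h <;> rw [h] <;> linarith
    have h4 : ∑ u : ZMod M, q ^ (-u).val = ∑ u : ZMod M, q ^ u.val :=
      Fintype.sum_equiv (Equiv.neg _) _ _ (fun _ => rfl)
    calc _ ≤ ∑ u : ZMod M, (q ^ u.val + q ^ (-u).val) := sum_le_sum fun u _ => h3 u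
      _ ≤ 1 / (1 - q) + 1 / (1 - q) := by rw [sum_add_distrib, h4]; linarith
      _ = _ := by ring
  calc _ = ∑ z ∈ univ.filter (fun z : Fin n → ZMod M => nu n M z ≤ r), q ^ r := by simp
    _ ≤ ∑ z ∈ univ.filter (fun z : Fin n → ZMod M => nu n M z ≤ r), q ^ nu n M z :=
        sum_le_sum fun z hz => pow_le_pow_of_le_one hq0.le hq1.le (mem_filter.1 hz).2
    _ ≤ ∑ z : Fin n → ZMod M, q ^ nu n M z :=
        sum_le_sum_of_subset_of_nonneg (filter_subset _ _) (fun _ _ _ => by positivity)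
    _ = (∑ u : ZMod M, q ^ u.valMinAbs.natAbs) ^ n := by
        rw [Fintype.sum_pow]
        exact sum_congr rfl fun z _ => by simp [nu, prod_pow_eq_pow_sum]
    _ ≤ _ := pow_le_pow_left₀ (sum_nonneg fun _ _ => by positivity) h2 n

lemma good_radius (ε : ℝ) (hε : 0 < ε) : ∃ T : ℕ, ∀ (n M : ℕ) [NeZero M], 1 ≤ n → ∃ t < T,
    ((univ.filter (fun z : Fin n → ZMod M => nu n M z ≤ 2 * n * t + 2 * n)).card : ℝ)
      ≤ (1 + ε) ^ n * (univ.filter (fun z : Fin n → ZMod M => nu n M z ≤ 2 * n * t)).card := by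
  obtain ⟨q, hq0, hq1, hq⟩ : ∃ q : ℝ, 0 < q ∧ q < 1 ∧ 1 < q ^ 2 * (1 + ε) := by
    set e := min ε 1 / 4 with he
    have he0 : 0 < e := by positivity
    have he1 : e ≤ 1 / 4 := by have := min_le_right ε 1; linarith
    have he2 : 4 * e ≤ ε := by have := min_le_left ε 1; linarith
    refine ⟨1 / (1 + e), by positivity, ?_, ?_⟩
    · rw [div_lt_one (by positivity)]; linarith
    · rw [div_pow, one_pow, div_mul_eq_mul_div, lt_div_iff₀ (by positivity)]
      nlinarith
  obtain ⟨T, hT⟩ := pow_unbounded_of_one_lt (2 / (1 - q)) hq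
  refine ⟨T, fun n M _ hn => ?_⟩
  by_contra hcon
  push Not at hcon
  have h1 : ∀ t ≤ T, ((1 + ε) ^ n) ^ t
      ≤ ((univ.filter (fun z : Fin n → ZMod M => nu n M z ≤ 2 * n * t)).card : ℝ) := by
    intro t
    induction t with
    | zero =>
      intro _
      have : (univ.filter (fun z : Fin n → ZMod M => nu n M z ≤ 2 * n * 0)).Nonempty :=
        ⟨0, by simp [nu_zero]⟩
      rw [pow_zero]
      exact_mod_cast this.card_pos
    | succ t ih =>
      intro ht
      have h2 := hcon t ht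
      have h3 := ih (by omega)
      rw [pow_succ, mul_add, mul_one]
      have h4 : (0 : ℝ) < (1 + ε) ^ n := by positivity
      nlinarith
  have h2 := ball_bound n M q hq0 hq1 (2 * n * T)
  have h3 := mul_le_mul_of_nonneg_right (h1 T le_rfl) (pow_pos hq0 (2 * n * T)).le
  have h4 : (2 / (1 - q)) ^ n < ((q ^ 2 * (1 + ε)) ^ T) ^ n :=
    pow_lt_pow_left₀ hT (by have := sub_pos.2 hq1; positivity) (by omega)
  have e : ((q ^ 2 * (1 + ε)) ^ T) ^ n = ((1 + ε) ^ n) ^ T * q ^ (2 * n * T) := by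
    rw [mul_pow, mul_pow, ← pow_mul, ← pow_mul, ← pow_mul, ← pow_mul, mul_comm]
    congr 2 <;> ring
  linarith

lemma floor_close (x y : ℝ) : |((⌊x⌋ - ⌊y⌋ : ℤ) : ℝ) - (x - y)| ≤ 1 := by
  have := Int.floor_le x
  have := Int.floor_le y
  have := Int.lt_floor_add_one x
  have := Int.lt_floor_add_one y
  push_cast
  rw [abs_le]; constructor <;> linarith

/-- For every ε>0 there is k such that, for all η>0 and all large n, R^n can be coloured with at
most (1+ε+η)^n colours so that no unit baton of length k is monochromatic. -/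
theorem result :
    ∀ ε : ℝ, 0 < ε → ∃ k : ℕ, ∀ η : ℝ, 0 < η → ∃ N : ℕ, ∀ n : ℕ, N ≤ n →
      ∃ m : ℕ, (m : ℝ) ≤ (1 + ε + η) ^ n ∧
        ∃ c : (Fin n → ℝ) → Fin m,
          ∀ f : Fin (k + 1) → (Fin n → ℝ),
            (∀ i j : Fin (k + 1),
              ∑ t : Fin n, |f i t - f j t| = |((i : ℕ) : ℝ) - ((j : ℕ) : ℝ)|) →
            ∃ i j : Fin (k + 1), c (f i) ≠ c (f j) := by
  intro ε hε
  obtain ⟨T, hT⟩ := good_radius ε hε
  refine ⟨4 * T + 2, fun η hη => ?_⟩
  set k := 4 * T + 2 with hk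
  have hr : 1 < (1 + ε + η) / (1 + ε) := by
    rw [lt_div_iff₀ (by positivity)]; linarith
  have hlim := tendsto_pow_const_div_const_pow_of_one_lt 2 hr
  obtain ⟨N0, hN0⟩ := Filter.eventually_atTop.1
    (hlim.eventually (gt_mem_nhds (show (0 : ℝ) < 1 / (2 * (2 * k + 3)) by positivity)))
  refine ⟨max N0 1, fun n hn => ?_⟩
  have hn1 : 1 ≤ n := le_of_max_le_right hn
  have hn1' : (1 : ℝ) ≤ n := by exact_mod_cast hn1
  have hN := hN0 n (le_of_max_le_left hn)
  set M := 2 * n * k + 3 with hM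
  have : NeZero M := ⟨by omega⟩
  obtain ⟨t, htT, ht⟩ := hT n M hn1
  have hE : (1 : ℝ) ≤ (1 + ε) ^ n := one_le_pow₀ (by linarith)
  set E : ℝ := (1 + ε) ^ n with hEdef
  obtain ⟨R, col, l, hR, h1, h2⟩ := cover (nu n M) (nu_zero n M) (nu_neg n M) (nu_add n M)
    (2 * n * t) (2 * n) (1 / E) (by rw [div_le_one (by linarith)]; exact hE)
    (by rw [div_mul_eq_mul_div, div_le_iff₀ (by linarith)]; linarith) (⌈E⌉₊ * n * M)
  have hRe : R = ∅ := by
    rw [← card_eq_zero]
    have h3 : (1 - 1 / E) ^ (⌈E⌉₊ * n * M) ≤ Real.exp (-(1 / E)) ^ (⌈E⌉₊ * n * M) := by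
      refine pow_le_pow_left₀ ?_ ?_ _
      · rw [sub_nonneg, div_le_one (by linarith)]; exact hE
      · have := Real.add_one_le_exp (-(1 / E)); linarith
    have h4 : Real.exp (-(1 / E)) ^ (⌈E⌉₊ * n * M) ≤ Real.exp (-(M : ℝ)) ^ n := by
      rw [← Real.exp_nat_mul, ← Real.exp_nat_mul, Real.exp_le_exp]
      push_cast
      have h5 : 1 ≤ (⌈E⌉₊ : ℝ) * (1 / E) := by
        rw [mul_one_div, le_div_iff₀ (by linarith), one_mul]; exact Nat.le_ceil E
      have h6 : (0 : ℝ) ≤ n * M := by positivity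
      nlinarith
    have h5 : Real.exp (-(M : ℝ)) ^ n * (M : ℝ) ^ n < 1 := by
      rw [← mul_pow]
      refine pow_lt_one₀ (by positivity) ?_ (by omega)
      rw [Real.exp_neg, inv_mul_lt_iff₀ (Real.exp_pos _)]
      have := Real.add_one_le_exp (M : ℝ); linarith
    have h6 : (Fintype.card (Fin n → ZMod M) : ℝ) = (M : ℝ) ^ n := by simp [ZMod.card]
    rw [h6] at hR
    have h7 : (R.card : ℝ) < 1 := by
      have := mul_le_mul_of_nonneg_right (h3.trans h4) (show (0 : ℝ) ≤ (M : ℝ) ^ n by positivity)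
      linarith
    have : R.card < 1 := by exact_mod_cast h7
    omega
  subst hRe
  simp only [notMem_empty, not_false_eq_true, forall_const] at h1 h2
  let π : (Fin n → ℝ) → (Fin n → ZMod M) := fun x i => ((⌊(n : ℝ) * x i⌋ : ℤ) : ZMod M)
  refine ⟨⌈E⌉₊ * n * M, ?_, fun x => ⟨col (π x), (h1 _).1⟩, ?_⟩
  · rw [div_pow, div_div_eq_mul_div, div_lt_div_iff₀ (by positivity) (by positivity), ← hEdef] at hN
    have h3 : (⌈E⌉₊ : ℝ) ≤ 2 * E := by have := Nat.ceil_lt_add_one (show 0 ≤ E by linarith); linarith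
    have h4 : (M : ℝ) ≤ n * (2 * k + 3) := by rw [hM]; push_cast; nlinarith
    push_cast
    calc (⌈E⌉₊ : ℝ) * n * M ≤ (2 * E) * n * (n * (2 * k + 3)) := by gcongr
      _ = n ^ 2 * E * (2 * (2 * k + 3)) := by ring
      _ ≤ _ := by linarith
  · intro f hf
    by_contra hcon
    push Not at hcon
    have hcol : ∀ i j, col (π (f i)) = col (π (f j)) := fun i j => congrArg Fin.val (hcon i j)
    have hπ : ∀ x y i, (π x - π y) i = ((⌊(n : ℝ) * x i⌋ - ⌊(n : ℝ) * y i⌋ : ℤ) : ZMod M) := by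
      intro x y i; simp [π]
    have hfl : ∀ (x y : Fin n → ℝ) i, |((⌊(n : ℝ) * x i⌋ - ⌊(n : ℝ) * y i⌋ : ℤ) : ℝ)|
        ≤ n * |x i - y i| + 1 ∧ n * |x i - y i| - 1
          ≤ |((⌊(n : ℝ) * x i⌋ - ⌊(n : ℝ) * y i⌋ : ℤ) : ℝ)| := by
      intro x y i
      have h3 := floor_close (n * x i) (n * y i)
      have h4 := abs_abs_sub_abs_le_abs_sub ((⌊(n : ℝ) * x i⌋ - ⌊(n : ℝ) * y i⌋ : ℤ) : ℝ)
        (n * x i - n * y i)
      have h5 : |(n : ℝ) * x i - n * y i| = n * |x i - y i| := by
        rw [← mul_sub, abs_mul, Nat.abs_cast]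
      rw [h5] at h4
      have h6 := abs_le.1 (h4.trans h3)
      constructor <;> linarith [h6.1, h6.2]
    have hstep : ∀ x y : Fin n → ℝ, ∑ i, |x i - y i| = 1 → nu n M (π x - π y) ≤ 2 * n := by
      intro x y hxy
      have h3 : ∀ i, ((((π x - π y) i).valMinAbs.natAbs : ℕ) : ℝ) ≤ n * |x i - y i| + 1 := by
        intro i
        refine le_trans ?_ (hfl x y i).1
        rw [← Int.cast_abs, Int.abs_eq_natAbs, Int.cast_natCast, Nat.cast_le]
        refine ZMod.natAbs_min_of_le_div_two M _ _ ?_ (ZMod.natAbs_valMinAbs_le _)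
        rw [ZMod.coe_valMinAbs, hπ]
      have h4 : (nu n M (π x - π y) : ℝ) ≤ 2 * n := by
        rw [nu, Nat.cast_sum]
        refine (sum_le_sum fun i _ => h3 i).trans ?_
        rw [sum_add_distrib, ← mul_sum, hxy]
        simp; linarith
      exact_mod_cast h4
    have hl : ∀ i : Fin (k + 1), l (π (f i)) = l (π (f 0)) := by
      intro i
      induction i using Fin.induction with
      | zero => rfl
      | succ i ih =>
        rw [← ih]
        refine h2 _ _ (hcol _ _) (hstep _ _ ?_)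
        rw [hf]; simp
    have hfar : nu n M (π (f (Fin.last k)) - π (f 0)) ≤ 2 * n * t + 2 * n * t := by
      have h3 := nu_add n M (π (f (Fin.last k)) - l (π (f (Fin.last k)))) (-(π (f 0) - l (π (f 0))))
      rw [nu_neg] at h3
      have h4 := (h1 (π (f (Fin.last k)))).2
      have h5 := (h1 (π (f 0))).2
      have e : π (f (Fin.last k)) - l (π (f (Fin.last k))) + -(π (f 0) - l (π (f 0)))
          = π (f (Fin.last k)) - π (f 0) := by rw [hl (Fin.last k)]; abel
      rw [e] at h3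
      omega
    have hk' : ∑ i, |f (Fin.last k) i - f 0 i| = k := by rw [hf]; simp
    have h3 : ∀ i, n * |f (Fin.last k) i - f 0 i| - 1
        ≤ ((((π (f (Fin.last k)) - π (f 0)) i).valMinAbs.natAbs : ℕ) : ℝ) := by
      intro i
      refine (hfl _ _ i).2.trans (le_of_eq ?_)
      rw [← Int.cast_abs, Int.abs_eq_natAbs, Int.cast_natCast, Nat.cast_inj]
      congr 1
      symm
      rw [ZMod.valMinAbs_spec]
      refine ⟨hπ _ _ _, ?_⟩
      have h4 := (hfl (f (Fin.last k)) (f 0) i).1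
      have h5 : |f (Fin.last k) i - f 0 i| ≤ k := by
        rw [← hk']
        exact single_le_sum (f := fun i => |f (Fin.last k) i - f 0 i|) (fun _ _ => abs_nonneg _)
          (mem_univ i)
      have h6 : |((⌊(n : ℝ) * f (Fin.last k) i⌋ - ⌊(n : ℝ) * f 0 i⌋ : ℤ) : ℝ)| ≤ n * k + 1 := by
        nlinarith
      have h7 : |(⌊(n : ℝ) * f (Fin.last k) i⌋ - ⌊(n : ℝ) * f 0 i⌋ : ℤ)| ≤ n * k + 1 := by
        exact_mod_cast h6
      rw [abs_le] at h7
      rw [hM]
      push_cast
      constructor <;> nlinarith [h7.1, h7.2]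
    have h4 : (n : ℝ) * k - n ≤ (nu n M (π (f (Fin.last k)) - π (f 0)) : ℝ) := by
      rw [nu, Nat.cast_sum]
      refine le_trans (le_of_eq ?_) (sum_le_sum fun i _ => h3 i)
      rw [sum_sub_distrib, ← mul_sum, hk']
      simp
    have h5 : (nu n M (π (f (Fin.last k)) - π (f 0)) : ℝ) ≤ 2 * n * t + 2 * n * t := by
      exact_mod_cast hfar
    have h6 : (t : ℝ) + 1 ≤ T := by exact_mod_cast htT
    have h7 : (k : ℝ) = 4 * T + 2 := by rw [hk]; push_cast; ring
    rw [h7] at h4
    nlinarith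

end Pool.Agent.S10543
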