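import Pool.Statements.S10582

set_option autoImplicit false
open Pool Pool.MP_a55b46_co

namespace Pool.Agent.S10582

/-- Adjacency of the split graph on 40 vertices: `0..14` is a clique, `15..39` is independent,
and an independent vertex of type `t` (mod 5) is joined to the clique vertices of types `t`, `t+1`. -/
def adjB (x y : Fin 40) : Bool :=
  if x.val < 15 then
    (if y.val < 15 then x.val != y.val else (x.val % 5 == y.val % 5 || x.val % 5 == (y.val + 1) % 5))
  else
    (if y.val < 15 then (y.val % 5 == x.val % 5 || y.val % 5 == (x.val + 1) % 5) else false)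

theorem adjB_symm : ∀ x y : Fin 40, adjB x y = adjB y x := by decide +kernel

theorem adjB_irrefl : ∀ x : Fin 40, adjB x x = false := by decide +kernel

/-- The counterexample graph. -/
def G : SimpleGraph (Fin 40) where
  Adj x y := adjB x y = true
  symm := ⟨fun x y h => by rw [adjB_symm]; exact h⟩
  loopless := ⟨fun x h => by rw [adjB_irrefl] at h; exact Bool.noConfusion h⟩

/-- closed neighbourhood -/
def cN (w : Fin 40) : Finset (Fin 40) := Finset.univ.filter (fun y => y = w ∨ adjB w y = true)
/-- closed non-neighbourhood -/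
def cM (w : Fin 40) : Finset (Fin 40) := Finset.univ.filter (fun y => adjB w y = false)
/-- the clique side -/
def sV : Finset (Fin 40) := Finset.univ.filter (fun y => y.val < 15)
/-- the independent side -/
def sW : Finset (Fin 40) := Finset.univ.filter (fun y => ¬ y.val < 15)

theorem cN_card : ∀ w : Fin 40, ¬ w.val < 15 → (cN w).card = 7 := by decide +kernel
theorem cM_card : ∀ w : Fin 40, w.val < 15 → (cM w).card = 16 := by decide +kernel
theorem sV_card : sV.card = 15 := by decide +kernel
theorem sW_card : sW.card = 25 := by decide +kernel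
theorem cN_cl : ∀ w : Fin 40, ¬ w.val < 15 → ∀ a b : Fin 40, (a = w ∨ adjB w a = true) →
    (b = w ∨ adjB w b = true) → a ≠ b → adjB a b = true := by decide +kernel
theorem cM_in : ∀ w : Fin 40, w.val < 15 → ∀ a b : Fin 40, adjB w a = false →
    adjB w b = false → adjB a b = false := by decide +kernel
theorem sV_cl : ∀ a b : Fin 40, a.val < 15 → b.val < 15 → a ≠ b → adjB a b = true := by
  decide +kernel
theorem sW_in : ∀ a b : Fin 40, ¬ a.val < 15 → ¬ b.val < 15 → adjB a b = false := by
  decide +kernel

theorem cl_big (s : Finset (Fin 40))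
    (hs : Maximal (fun t : Finset (Fin 40) => G.IsClique (t : Set (Fin 40))) s) : 6 < s.card := by
  by_cases h : ∃ w ∈ s, ¬ w.val < 15
  · obtain ⟨w, hw, hw15⟩ := h
    have hsub : s ≤ cN w := by
      intro y hy
      simp only [cN, Finset.mem_filter, Finset.mem_univ, true_and]
      by_cases hyw : y = w
      · exact Or.inl hyw
      · exact Or.inr (hs.1 (Finset.mem_coe.2 hw) (Finset.mem_coe.2 hy) (Ne.symm hyw))
    have hcl : G.IsClique ((cN w : Finset (Fin 40)) : Set (Fin 40)) := by
      intro a ha b hb hab
      simp only [cN, Finset.coe_filter, Finset.mem_univ, true_and, Set.mem_ofPred_eq] at ha hb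
      exact cN_cl w hw15 a b ha hb hab
    have h2 := Finset.card_le_card (hs.2 hcl hsub)
    rw [cN_card w hw15] at h2
    omega
  · have hsub : s ≤ sV := by
      intro y hy
      simp only [sV, Finset.mem_filter, Finset.mem_univ, true_and]
      by_contra hc
      exact h ⟨y, hy, hc⟩
    have hcl : G.IsClique ((sV : Finset (Fin 40)) : Set (Fin 40)) := by
      intro a ha b hb hab
      simp only [sV, Finset.coe_filter, Finset.mem_univ, true_and, Set.mem_ofPred_eq] at ha hb
      exact sV_cl a b ha hb hab
    have h2 := Finset.card_le_card (hs.2 hcl hsub)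
    rw [sV_card] at h2
    omega

theorem in_big (s : Finset (Fin 40))
    (hs : Maximal (fun t : Finset (Fin 40) => G.IsIndepSet (t : Set (Fin 40))) s) :
    15 < s.card := by
  by_cases h : ∃ w ∈ s, w.val < 15
  · obtain ⟨w, hw, hw15⟩ := h
    have hsub : s ≤ cM w := by
      intro y hy
      simp only [cM, Finset.mem_filter, Finset.mem_univ, true_and]
      by_cases hyw : y = w
      · rw [hyw]; exact adjB_irrefl w
      · have := hs.1 (Finset.mem_coe.2 hw) (Finset.mem_coe.2 hy) (Ne.symm hyw)
        simpa [G] using this
    have hcl : G.IsIndepSet ((cM w : Finset (Fin 40)) : Set (Fin 40)) := by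
      intro a ha b hb _
      simp only [cM, Finset.coe_filter, Finset.mem_univ, true_and, Set.mem_ofPred_eq] at ha hb
      have := cM_in w hw15 a b ha hb
      simp [G, this]
    have h2 := Finset.card_le_card (hs.2 hcl hsub)
    rw [cM_card w hw15] at h2
    omega
  · have hsub : s ≤ sW := by
      intro y hy
      simp only [sW, Finset.mem_filter, Finset.mem_univ, true_and]
      intro hc
      exact h ⟨y, hy, hc⟩
    have hcl : G.IsIndepSet ((sW : Finset (Fin 40)) : Set (Fin 40)) := by
      intro a ha b hb _
      simp only [sW, Finset.coe_filter, Finset.mem_univ, true_and, Set.mem_ofPred_eq] at ha hb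
      have := sW_in a b ha hb
      simp [G, this]
    have h2 := Finset.card_le_card (hs.2 hcl hsub)
    rw [sW_card] at h2
    omega


/-- The negation of the preceding statement: For 2 ≤ ℓ < ⌊m/2⌋ and any (α,β) in N_m minimizing the gap between αℓ and β, the least order of a graph whose maximal cliques all exceed ℓ vertices and maximal independent sets all exceed m vertices is ℓ+m+β+αℓ, plus 1 if m≠αβ. -/
theorem result :
    ¬ (∀ ℓ m : ℕ, 2 ≤ ℓ → ℓ < m / 2 →
      ∀ α β : ℕ, (0 < α ∧ α ≤ β ∧ α * β ≤ m ∧ m ≤ α * (β + 1)) →
        (∀ a b : ℕ, 0 < a → a ≤ b → a * b ≤ m → m ≤ a * (b + 1) →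
          |((α * ℓ : ℕ) : ℤ) - (β : ℤ)| ≤ |((a * ℓ : ℕ) : ℤ) - (b : ℤ)|) →
        IsLeast
          {n : ℕ | ∃ G : SimpleGraph (Fin n),
            (∀ s : Finset (Fin n),
              Maximal (fun t : Finset (Fin n) => G.IsClique (t : Set (Fin n))) s → ℓ < s.card) ∧
            (∀ s : Finset (Fin n),
              Maximal (fun t : Finset (Fin n) => G.IsIndepSet (t : Set (Fin n))) s → m < s.card)}
          (ℓ + m + β + α * ℓ + (if m = α * β then 0 else 1))) := by
  intro h
  have h1 := h 6 15 (by norm_num) (by norm_num) 2 7 (by norm_num) (by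
    intro a b ha hab h1 h2
    have ha3 : a ≤ 3 := by nlinarith
    have hb : b ≤ 15 := by nlinarith
    interval_cases a <;> interval_cases b <;> first | omega | norm_num)
  have h2 := @h1.2 40 ⟨G, cl_big, in_big⟩
  norm_num at h2

end Pool.Agent.S10582
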