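-- Proof of the frozen statement S10590 (negation of the problem MP_a59ce0_co).
import Pool.Statements.S10590

set_option autoImplicit false
set_option linter.unusedSectionVars false
set_option linter.unusedVariables false
open Pool Pool.MP_a59ce0_co

namespace Pool.Agent.S10590

open Finset Equiv

section Alg
variable {α : Type} [Fintype α] [DecidableEq α]

/-- Permutation matrix entry. -/
def I (P : Perm α) (a b : α) : ℤ := if b = P a then 1 else 0

theorem I_nonneg (P : Perm α) (a b : α) : 0 ≤ I P a b := by unfold I; split_ifs <;> norm_num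
theorem I_le (P : Perm α) (a b : α) : I P a b ≤ 1 := by unfold I; split_ifs <;> norm_num

theorem sum_I_mul (P : Perm α) (a : α) (h : α → ℤ) : ∑ b, I P a b * h b = h (P a) := by
  simp [I]

theorem sum_I_row (P : Perm α) (a : α) : ∑ b, I P a b = 1 := by simp [I]

theorem sum_I_col (P : Perm α) (b : α) : ∑ a, I P a b = 1 := by
  have : ∀ a, I P a b = if a = P.symm b then 1 else 0 := by
    intro a
    simp only [I, eq_symm_apply, eq_comm]
  simp [this]

theorem path3 (p q r : Perm α) (a b : α) :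
    ∑ z : α × α, (1 - I p a z.1) * (1 - I q z.1 z.2) * (1 - I r z.2 b) =
      ((Fintype.card α : ℤ) ^ 2 - 3 * Fintype.card α + 3) - I (r * q * p) a b := by
  rw [Fintype.sum_prod_type]
  have h1 : ∀ x, ∑ y, (1 - I p a x) * (1 - I q x y) * (1 - I r y b) =
      (1 - I p a x) * ((Fintype.card α : ℤ) - 2 + I r (q x) b) := by
    intro x
    have e : ∀ y, (1 - I p a x) * (1 - I q x y) * (1 - I r y b) =
        (1 - I p a x) * (1 - I q x y - I r y b + I q x y * I r y b) := fun y => by ring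
    simp only [e, ← mul_sum, sum_add_distrib, sum_sub_distrib, sum_I_row, sum_I_col,
      sum_I_mul q x (fun y => I r y b), sum_const, card_univ, nsmul_eq_mul, mul_one]
    ring
  simp only [h1]
  have e : ∀ x, (1 - I p a x) * ((Fintype.card α : ℤ) - 2 + I r (q x) b) =
      ((Fintype.card α : ℤ) - 2) + I (r * q) x b - ((Fintype.card α : ℤ) - 2) * I p a x
        - I p a x * I (r * q) x b := fun x => by
    have : I r (q x) b = I (r * q) x b := rfl
    rw [this]; ring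
  simp only [e, ← mul_sum, sum_add_distrib, sum_sub_distrib, sum_I_row, sum_I_col,
    sum_I_mul p a (fun x => I (r * q) x b), sum_const, card_univ, nsmul_eq_mul, mul_one]
  have : I (r * q) (p a) b = I (r * q * p) a b := rfl
  rw [this]
  ring

theorem main_sum (t : ℤ) (u v w : α → α → ℤ)
    (hu1 : ∀ a, ∑ b, u a b = 2) (hu2 : ∀ b, ∑ a, u a b = 2)
    (hv1 : ∀ a, ∑ b, v a b = 2) (hv2 : ∀ b, ∑ a, v a b = 2)
    (hw1 : ∀ a, ∑ b, w a b = 2) (hw2 : ∀ b, ∑ a, w a b = 2) :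
    ∑ a, ∑ b, ∑ c, (t ^ 2 - t * u a b) * (t ^ 2 - t * v b c) * (t ^ 2 - t * w c a) =
      t ^ 6 * (Fintype.card α : ℤ) ^ 3 - 6 * t ^ 5 * (Fintype.card α : ℤ) ^ 2 +
        12 * t ^ 4 * (Fintype.card α : ℤ) - t ^ 3 * ∑ a, ∑ b, ∑ c, u a b * v b c * w c a := by
  have h1 : ∀ a b, ∑ c, (t ^ 2 - t * u a b) * (t ^ 2 - t * v b c) * (t ^ 2 - t * w c a) =
      (t ^ 6 * (Fintype.card α : ℤ) - 4 * t ^ 5) - (t ^ 5 * (Fintype.card α : ℤ) - 4 * t ^ 4) * u a b
        + t ^ 4 * (∑ c, v b c * w c a) - t ^ 3 * ∑ c, u a b * v b c * w c a := by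
    intro a b
    have e : ∀ c, (t ^ 2 - t * u a b) * (t ^ 2 - t * v b c) * (t ^ 2 - t * w c a) =
        (t ^ 6 - t ^ 5 * u a b) - (t ^ 5 - t ^ 4 * u a b) * v b c - (t ^ 5 - t ^ 4 * u a b) * w c a
          + t ^ 4 * (v b c * w c a) - t ^ 3 * (u a b * v b c * w c a) := fun c => by ring
    simp only [e, ← mul_sum, sum_add_distrib, sum_sub_distrib, hv1, hw2, sum_const, card_univ,
      nsmul_eq_mul]
    ring
  have h2 : ∀ a, ∑ b, ∑ c, v b c * w c a = 4 := by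
    intro a
    rw [sum_comm]
    simp only [← sum_mul, hv2, ← mul_sum, hw2]
    norm_num
  simp only [h1, ← mul_sum, sum_add_distrib, sum_sub_distrib, hu1, h2, sum_const, card_univ,
    nsmul_eq_mul]
  ring

/-- The transfer-matrix count for the doubled triangle with every edge replaced by a path of length three. -/
def F (t : ℤ) (P0 P1 Q0 Q1 R0 R1 : Perm α) : ℤ :=
  ∑ a, ∑ b, ∑ c, ((t - I P0 a b) * (t - I P1 a b)) * ((t - I Q0 b c) * (t - I Q1 b c)) *
    ((t - I R0 c a) * (t - I R1 c a))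

def g (P0 P1 Q0 Q1 R0 R1 : Perm α) (a : α) : ℤ :=
  (I R0 (Q0 (P0 a)) a + I R1 (Q0 (P0 a)) a) + (I R0 (Q1 (P0 a)) a + I R1 (Q1 (P0 a)) a) +
  ((I R0 (Q0 (P1 a)) a + I R1 (Q0 (P1 a)) a) + (I R0 (Q1 (P1 a)) a + I R1 (Q1 (P1 a)) a))

def C0 (t m : ℤ) : ℤ := t ^ 6 * m ^ 3 - 6 * t ^ 5 * m ^ 2 + 12 * t ^ 4 * m

theorem base_sum (t : ℤ) (P0 P1 Q0 Q1 R0 R1 : Perm α) :
    ∑ a, ∑ b, ∑ c, (t ^ 2 - t * (I P0 a b + I P1 a b)) * (t ^ 2 - t * (I Q0 b c + I Q1 b c)) *
      (t ^ 2 - t * (I R0 c a + I R1 c a)) =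
      C0 t (Fintype.card α) - t ^ 3 * ∑ a, g P0 P1 Q0 Q1 R0 R1 a := by
  have hr : ∀ (P P' : Perm α) a, ∑ b, (I P a b + I P' a b) = 2 := fun P P' a => by
    simp only [sum_add_distrib, sum_I_row]; norm_num
  have hc : ∀ (P P' : Perm α) b, ∑ a, (I P a b + I P' a b) = 2 := fun P P' a => by
    simp only [sum_add_distrib, sum_I_col]; norm_num
  rw [main_sum t (fun a b => I P0 a b + I P1 a b) (fun a b => I Q0 a b + I Q1 a b)
    (fun a b => I R0 a b + I R1 a b) (hr _ _) (hc _ _) (hr _ _) (hc _ _) (hr _ _) (hc _ _), C0]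
  congr 2
  refine sum_congr rfl fun a _ => ?_
  have e : ∀ b, ∑ c, (I P0 a b + I P1 a b) * (I Q0 b c + I Q1 b c) * (I R0 c a + I R1 c a) =
      I P0 a b * ((I R0 (Q0 b) a + I R1 (Q0 b) a) + (I R0 (Q1 b) a + I R1 (Q1 b) a)) +
      I P1 a b * ((I R0 (Q0 b) a + I R1 (Q0 b) a) + (I R0 (Q1 b) a + I R1 (Q1 b) a)) := by
    intro b
    rw [← add_mul, ← sum_I_mul Q0 b (fun c => I R0 c a + I R1 c a),
      ← sum_I_mul Q1 b (fun c => I R0 c a + I R1 c a), ← sum_add_distrib, mul_sum]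
    exact sum_congr rfl fun c _ => by ring
  simp only [e, sum_add_distrib]
  rw [sum_I_mul P0 a (fun b => (I R0 (Q0 b) a + I R1 (Q0 b) a) + (I R0 (Q1 b) a + I R1 (Q1 b) a)),
    sum_I_mul P1 a (fun b => (I R0 (Q0 b) a + I R1 (Q0 b) a) + (I R0 (Q1 b) a + I R1 (Q1 b) a))]
  rfl

theorem II_zero {P P' : Perm α} (h : ∀ a, P a ≠ P' a) (a b : α) : I P a b * I P' a b = 0 := by
  unfold I
  split_ifs with h1 h2
  · exact absurd (h1.symm.trans h2) (h a)
  all_goals norm_num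

theorem F_free (t : ℤ) (P0 P1 Q0 Q1 R0 R1 : Perm α) (hP : ∀ a, P0 a ≠ P1 a)
    (hQ : ∀ a, Q0 a ≠ Q1 a) (hR : ∀ a, R0 a ≠ R1 a) :
    F t P0 P1 Q0 Q1 R0 R1 = C0 t (Fintype.card α) - t ^ 3 * ∑ a, g P0 P1 Q0 Q1 R0 R1 a := by
  rw [← base_sum, F]
  have e : ∀ (P P' : Perm α), (∀ a, P a ≠ P' a) → ∀ a b, (t - I P a b) * (t - I P' a b) =
      t ^ 2 - t * (I P a b + I P' a b) := by
    intro P P' h a b
    have := II_zero h a b
    linear_combination this
  simp only [e _ _ hP, e _ _ hQ, e _ _ hR]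

theorem F_even (t : ℤ) (σ : Perm α) (h1 : ∀ a, σ (σ a) = a) (h2 : ∀ a, a ≠ σ a) :
    F t 1 σ 1 σ 1 σ = C0 t (Fintype.card α) - t ^ 3 * (4 * Fintype.card α) := by
  rw [F_free t 1 σ 1 σ 1 σ h2 h2 h2]
  have : ∀ a, g 1 σ 1 σ 1 σ a = 4 := by
    intro a
    simp [g, I, h1, h2]
  simp [this, mul_comm]

theorem pair_le {R0 R1 : Perm α} (hR : ∀ a, R0 a ≠ R1 a) (c a : α) : I R0 c a + I R1 c a ≤ 1 := by
  unfold I
  split_ifs with h1 h2
  · exact absurd (h1.symm.trans h2) (hR c)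
  all_goals norm_num

theorem pair_eq {R0 R1 : Perm α} (c a : α) (h : 1 ≤ I R0 c a + I R1 c a) :
    c = R0.symm a ∨ c = R1.symm a := by
  unfold I at h
  split_ifs at h with h1 h2 h2
  · left; rw [h1]; simp
  · left; rw [h1]; simp
  · right; rw [h2]; simp
  · norm_num at h

theorem even_of_invol (θ : α → α) (h1 : ∀ a, θ (θ a) = a) (h2 : ∀ a, θ a ≠ a) :
    Even (Fintype.card α) := by
  have h := Finset.sum_involution (s := (univ : Finset α)) (f := fun _ => (1 : ZMod 2))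
    (fun a _ => θ a) (fun _ _ => by decide) (fun a _ _ => h2 a) (fun _ _ => mem_univ _)
    (fun a _ => h1 a)
  simp only [sum_const, card_univ, nsmul_eq_mul, mul_one] at h
  exact (ZMod.natCast_eq_zero_iff_even).1 h

theorem F_odd_free (P0 P1 Q0 Q1 R0 R1 : Perm α) (hP : ∀ a, P0 a ≠ P1 a)
    (hQ : ∀ a, Q0 a ≠ Q1 a) (hR : ∀ a, R0 a ≠ R1 a) (hodd : ¬ Even (Fintype.card α)) :
    ∑ a, g P0 P1 Q0 Q1 R0 R1 a < 4 * Fintype.card α := by
  have hle : ∀ a, g P0 P1 Q0 Q1 R0 R1 a ≤ 4 := by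
    intro a
    have := pair_le hR (Q0 (P0 a)) a
    have := pair_le hR (Q1 (P0 a)) a
    have := pair_le hR (Q0 (P1 a)) a
    have := pair_le hR (Q1 (P1 a)) a
    unfold g
    omega
  have hex : ∃ a, g P0 P1 Q0 Q1 R0 R1 a < 4 := by
    by_contra hno
    push Not at hno
    apply hodd
    have key : ∀ a, Q0 (P1 a) = Q1 (P0 a) ∧ Q1 (P1 a) = Q0 (P0 a) := by
      intro a
      have a1 := pair_le hR (Q0 (P0 a)) a
      have a2 := pair_le hR (Q1 (P0 a)) a
      have a3 := pair_le hR (Q0 (P1 a)) a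
      have a4 := pair_le hR (Q1 (P1 a)) a
      have a5 := hno a
      unfold g at a5
      have b1 := pair_eq (R0 := R0) (R1 := R1) (Q0 (P0 a)) a (by omega)
      have b2 := pair_eq (R0 := R0) (R1 := R1) (Q1 (P0 a)) a (by omega)
      have b3 := pair_eq (R0 := R0) (R1 := R1) (Q0 (P1 a)) a (by omega)
      have b4 := pair_eq (R0 := R0) (R1 := R1) (Q1 (P1 a)) a (by omega)
      have c1 := hQ (P0 a)
      have c2 : Q0 (P0 a) ≠ Q0 (P1 a) := fun h => hP a (Q0.injective h)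
      have c3 : Q1 (P0 a) ≠ Q1 (P1 a) := fun h => hP a (Q1.injective h)
      grind
    apply even_of_invol (fun b => Q0.symm (Q1 b))
    · intro b
      obtain ⟨a, rfl⟩ := P0.surjective b
      simp only [← (key a).1, symm_apply_apply, (key a).2]
    · intro b h
      apply hQ b
      rw [symm_apply_eq] at h
      exact h.symm
  obtain ⟨a, ha⟩ := hex
  have := sum_lt_sum (s := (univ : Finset α)) (fun a _ => hle a) ⟨a, mem_univ a, ha⟩
  simpa [mul_comm] using this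

theorem pt_ineq (L x y z d e f : ℤ) (hL : 0 ≤ L) (hx : L ≤ x) (hy : L ≤ y) (hz : L ≤ z)
    (hd : 0 ≤ d) (he : 0 ≤ e) (hf : 0 ≤ f) :
    x * y * z + L ^ 2 * (d + e + f) ≤ (x + d) * (y + e) * (z + f) := by
  have x0 : 0 ≤ x := hL.trans hx
  have y0 : 0 ≤ y := hL.trans hy
  have z0 : 0 ≤ z := hL.trans hz
  have h1 : L ^ 2 ≤ y * z := by rw [pow_two]; exact mul_le_mul hy hz hL y0
  have h2 : L ^ 2 ≤ x * z := by rw [pow_two]; exact mul_le_mul hx hz hL x0
  have h3 : L ^ 2 ≤ x * y := by rw [pow_two]; exact mul_le_mul hx hy hL x0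
  have k1 := mul_le_mul_of_nonneg_left h1 hd
  have k2 := mul_le_mul_of_nonneg_left h2 he
  have k3 := mul_le_mul_of_nonneg_left h3 hf
  have k4 : 0 ≤ d * e * z + d * y * f + x * e * f + d * e * f := by positivity
  nlinarith

theorem sum_II (P P' : Perm α) : 0 ≤ ∑ a, ∑ b, I P a b * I P' a b ∧
    ((∃ a, P a = P' a) → 1 ≤ ∑ a, ∑ b, I P a b * I P' a b) := by
  simp only [sum_I_mul]
  refine ⟨sum_nonneg fun a _ => I_nonneg _ _ _, ?_⟩
  rintro ⟨a, ha⟩
  have := single_le_sum (s := (univ : Finset α)) (f := fun a => I P' a (P a))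
    (fun a _ => I_nonneg _ _ _) (mem_univ a)
  simpa [I, ha] using this

theorem F_odd (t : ℤ) (ht : 8 ≤ t) (P0 P1 Q0 Q1 R0 R1 : Perm α) (hodd : ¬ Even (Fintype.card α)) :
    C0 t (Fintype.card α) - t ^ 3 * (4 * Fintype.card α) < F t P0 P1 Q0 Q1 R0 R1 := by
  have ht3 : 0 < t ^ 3 := by positivity
  by_cases hfree : (∀ a, P0 a ≠ P1 a) ∧ (∀ a, Q0 a ≠ Q1 a) ∧ (∀ a, R0 a ≠ R1 a)
  · obtain ⟨hP, hQ, hR⟩ := hfree
    rw [F_free t _ _ _ _ _ _ hP hQ hR]
    have := mul_lt_mul_of_pos_left (F_odd_free P0 P1 Q0 Q1 R0 R1 hP hQ hR hodd) ht3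
    linarith
  · have hm : (0 : ℤ) < Fintype.card α := by
      have : Fintype.card α ≠ 0 := fun h => hodd (h ▸ Even.zero)
      positivity
    have hL : ∀ (P P' : Perm α) a b, t ^ 2 - 2 * t ≤ t ^ 2 - t * (I P a b + I P' a b) := by
      intro P P' a b
      have := I_le P a b
      have := I_le P' a b
      nlinarith
    have e : ∀ (P P' : Perm α) a b, (t - I P a b) * (t - I P' a b) =
        (t ^ 2 - t * (I P a b + I P' a b)) + I P a b * I P' a b := fun _ _ _ _ => by ring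
    have hII : ∀ (P P' : Perm α) a b, 0 ≤ I P a b * I P' a b := fun _ _ _ _ =>
      mul_nonneg (I_nonneg _ _ _) (I_nonneg _ _ _)
    have h1 : ∑ a, ∑ b, ∑ c, ((t ^ 2 - t * (I P0 a b + I P1 a b)) *
        (t ^ 2 - t * (I Q0 b c + I Q1 b c)) * (t ^ 2 - t * (I R0 c a + I R1 c a)) +
        (t ^ 2 - 2 * t) ^ 2 * (I P0 a b * I P1 a b + I Q0 b c * I Q1 b c + I R0 c a * I R1 c a))
          ≤ F t P0 P1 Q0 Q1 R0 R1 := by
      unfold F
      refine sum_le_sum fun a _ => sum_le_sum fun b _ => sum_le_sum fun c _ => ?_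
      rw [e, e, e]
      exact pt_ineq _ _ _ _ _ _ _ (by nlinarith) (hL _ _ _ _) (hL _ _ _ _) (hL _ _ _ _)
        (hII _ _ _ _) (hII _ _ _ _) (hII _ _ _ _)
    simp only [sum_add_distrib, ← mul_sum] at h1
    rw [base_sum] at h1
    have s3 : ∑ a, ∑ _b : α, ∑ c, I R0 c a * I R1 c a =
        (Fintype.card α : ℤ) * ∑ a, ∑ b, I R0 a b * I R1 a b := by
      simp only [sum_const, card_univ, nsmul_eq_mul, ← mul_sum]
      rw [sum_comm]
    rw [s3] at h1
    simp only [sum_const, card_univ, nsmul_eq_mul] at h1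
    have s1 : ∑ a, ∑ b, I P0 a b * ((Fintype.card α : ℤ) * I P1 a b) =
        (Fintype.card α : ℤ) * ∑ a, ∑ b, I P0 a b * I P1 a b := by
      simp only [mul_sum, mul_left_comm]
    rw [s1] at h1
    obtain ⟨p1, p2⟩ := sum_II P0 P1
    obtain ⟨q1, q2⟩ := sum_II Q0 Q1
    obtain ⟨r1, r2⟩ := sum_II R0 R1
    have hsum : 1 ≤ (∑ a, ∑ b, I P0 a b * I P1 a b) + (∑ a, ∑ b, I Q0 a b * I Q1 a b) +
        ∑ a, ∑ b, I R0 a b * I R1 a b := by
      by_contra hlt
      apply hfree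
      refine ⟨fun a h => ?_, fun a h => ?_, fun a h => ?_⟩
      · have := p2 ⟨a, h⟩; omega
      · have := q2 ⟨a, h⟩; omega
      · have := r2 ⟨a, h⟩; omega
    have hg : ∑ a, g P0 P1 Q0 Q1 R0 R1 a ≤ 8 * Fintype.card α := by
      have : ∀ a, g P0 P1 Q0 Q1 R0 R1 a ≤ 8 := by
        intro a
        unfold g
        have := I_le R0 (Q0 (P0 a)) a
        have := I_le R0 (Q1 (P0 a)) a
        have := I_le R0 (Q0 (P1 a)) a
        have := I_le R0 (Q1 (P1 a)) a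
        have := I_le R1 (Q0 (P0 a)) a
        have := I_le R1 (Q1 (P0 a)) a
        have := I_le R1 (Q0 (P1 a)) a
        have := I_le R1 (Q1 (P1 a)) a
        omega
      have := sum_le_sum (s := (univ : Finset α)) (fun a _ => this a)
      simpa [mul_comm] using this
    generalize (∑ a, ∑ b, I P0 a b * I P1 a b) = dP at *
    generalize (∑ a, ∑ b, I Q0 a b * I Q1 a b) = dQ at *
    generalize (∑ a, ∑ b, I R0 a b * I R1 a b) = dR at *
    generalize (∑ a, g P0 P1 Q0 Q1 R0 R1 a) = G at *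
    generalize (Fintype.card α : ℤ) = m at *
    have k1 : 4 * t ^ 3 < (t ^ 2 - 2 * t) ^ 2 := by
      have : 0 < t ^ 2 * ((t - 2) ^ 2 - 4 * t) := by
        apply mul_pos (by positivity)
        nlinarith
      nlinarith
    have k2 : m ≤ m * dP + m * dQ + m * dR := by nlinarith
    have k3 := mul_le_mul_of_nonneg_left k2 (sq_nonneg (t ^ 2 - 2 * t))
    have k4 := mul_le_mul_of_nonneg_left hg ht3.le
    have k5 := mul_lt_mul_of_pos_right k1 hm
    nlinarith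

end Alg

def src : Fin 6 → Fin 15 := ![0, 0, 1, 1, 2, 2]
def dst : Fin 6 → Fin 15 := ![1, 1, 2, 2, 0, 0]
def in1 : Fin 6 → Fin 15 := ![3, 5, 7, 9, 11, 13]
def in2 : Fin 6 → Fin 15 := ![4, 6, 8, 10, 12, 14]

/-- The three edges of path number `e`. -/
def hd (e : Fin 6) : Fin 3 → Fin 15 := ![src e, in1 e, in2 e]
def tl (e : Fin 6) : Fin 3 → Fin 15 := ![in1 e, in2 e, dst e]

def G : SimpleGraph (Fin 15) := SimpleGraph.fromRel fun u v => ∃ e k, u = hd e k ∧ v = tl e k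

theorem G_adj (u v : Fin 15) : G.Adj u v ↔
    u ≠ v ∧ ((∃ e k, u = hd e k ∧ v = tl e k) ∨ (∃ e k, v = hd e k ∧ u = tl e k)) :=
  SimpleGraph.fromRel_adj (fun u v => ∃ e k, u = hd e k ∧ v = tl e k) u v

instance : DecidableRel G.Adj := fun u v => decidable_of_iff _ (G_adj u v).symm

section Cnt
variable {α : Type} [Fintype α] [DecidableEq α]

def glue : (α × α × α) × (Fin 6 → α × α) ≃ (Fin 15 → α) where
  toFun x := ![x.1.1, x.1.2.1, x.1.2.2, (x.2 0).1, (x.2 0).2, (x.2 1).1, (x.2 1).2, (x.2 2).1,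
    (x.2 2).2, (x.2 3).1, (x.2 3).2, (x.2 4).1, (x.2 4).2, (x.2 5).1, (x.2 5).2]
  invFun f := ((f 0, f 1, f 2), fun e => (f (in1 e), f (in2 e)))
  left_inv x := by
    refine Prod.ext rfl ?_
    funext e
    fin_cases e <;> rfl
  right_inv f := by
    funext v
    fin_cases v <;> rfl

def cnt (π : Fin 6 → Fin 3 → Perm α) : ℕ :=
  (univ.filter fun f : Fin 15 → α => ∀ e k, f (tl e k) ≠ π e k (f (hd e k))).card

def hol (π : Fin 6 → Fin 3 → Perm α) (e : Fin 6) : Perm α := π e 2 * π e 1 * π e 0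

theorem cnt_eq (π : Fin 6 → Fin 3 → Perm α) :
    (cnt π : ℤ) = F ((Fintype.card α : ℤ) ^ 2 - 3 * Fintype.card α + 3)
      (hol π 0) (hol π 1) (hol π 2) (hol π 3) (hol π 4) (hol π 5) := by
  have h1 : (cnt π : ℤ) = ∑ f : Fin 15 → α, ∏ e : Fin 6,
      ((1 - I (π e 0) (f (src e)) (f (in1 e))) * (1 - I (π e 1) (f (in1 e)) (f (in2 e))) *
        (1 - I (π e 2) (f (in2 e)) (f (dst e)))) := by
    rw [cnt, card_filter]
    push_cast
    refine sum_congr rfl fun f _ => ?_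
    split_ifs with h
    · symm
      refine prod_eq_one fun e _ => ?_
      have a0 : f (in1 e) ≠ π e 0 (f (src e)) := h e 0
      have a1 : f (in2 e) ≠ π e 1 (f (in1 e)) := h e 1
      have a2 : f (dst e) ≠ π e 2 (f (in2 e)) := h e 2
      simp [I, a0, a1, a2]
    · symm
      push Not at h
      obtain ⟨e, k, h⟩ := h
      refine prod_eq_zero (mem_univ e) ?_
      fin_cases k
      · have a0 : f (in1 e) = π e 0 (f (src e)) := h
        simp [I, a0]
      · have a0 : f (in2 e) = π e 1 (f (in1 e)) := h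
        simp [I, a0]
      · have a0 : f (dst e) = π e 2 (f (in2 e)) := h
        simp [I, a0]
  rw [h1, ← glue.sum_comp, Fintype.sum_prod_type, Fintype.sum_prod_type, F]
  refine sum_congr rfl fun a _ => ?_
  rw [Fintype.sum_prod_type]
  refine sum_congr rfl fun b _ => sum_congr rfl fun c _ => ?_
  let s : Fin 6 → α := ![a, a, b, b, c, c]
  let d : Fin 6 → α := ![b, b, c, c, a, a]
  have h2 := prod_univ_sum (fun _ : Fin 6 => (univ : Finset (α × α)))
    (fun e z => (1 - I (π e 0) (s e) z.1) * (1 - I (π e 1) z.1 z.2) * (1 - I (π e 2) z.2 (d e)))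
  rw [Fintype.piFinset_univ] at h2
  have h3 : ∀ (x : Fin 6 → α × α) (e : Fin 6), glue ((a, b, c), x) (src e) = s e ∧
      glue ((a, b, c), x) (dst e) = d e ∧ glue ((a, b, c), x) (in1 e) = (x e).1 ∧
      glue ((a, b, c), x) (in2 e) = (x e).2 := by
    intro x e
    fin_cases e <;> exact ⟨rfl, rfl, rfl, rfl⟩
  simp only [(h3 _ _).1, (h3 _ _).2.1, (h3 _ _).2.2.1, (h3 _ _).2.2.2]
  rw [← h2]
  simp only [path3, Fin.prod_univ_six]
  simp only [hol]
  have e0 : s 0 = a ∧ s 1 = a ∧ s 2 = b ∧ s 3 = b ∧ s 4 = c ∧ s 5 = c :=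
    ⟨rfl, rfl, rfl, rfl, rfl, rfl⟩
  have e1 : d 0 = b ∧ d 1 = b ∧ d 2 = c ∧ d 3 = c ∧ d 4 = a ∧ d 5 = a :=
    ⟨rfl, rfl, rfl, rfl, rfl, rfl⟩
  obtain ⟨x0, x1, x2, x3, x4, x5⟩ := e0
  obtain ⟨y0, y1, y2, y3, y4, y5⟩ := e1
  rw [x0, x1, x2, x3, x4, x5, y0, y1, y2, y3, y4, y5]
  ring

end Cnt

def S (m : ℕ) : Set ℕ := {k : ℕ | ∃ M : Fin 15 → Fin 15 → Fin m → Fin m → Prop,
  (∀ u v i j, M u v i j → G.Adj u v) ∧
  (∀ u v i j, M u v i j → M v u j i) ∧
  (∀ u v i j j', M u v i j → M u v i j' → j = j') ∧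
  (∀ u v i i' j, M u v i j → M u v i' j → i = i') ∧
  k = Set.ncard {f : Fin 15 → Fin m | ∀ u v, ¬ M u v (f u) (f v)}}

def q0 (m : ℤ) : ℤ := C0 (m ^ 2 - 3 * m + 3) m - (m ^ 2 - 3 * m + 3) ^ 3 * (4 * m)

theorem hd_tl_inj : ∀ e k e' k', hd e k = hd e' k' → tl e k = tl e' k' → e = e' ∧ k = k' := by
  decide +kernel

theorem hd_tl_anti : ∀ e k e' k', hd e k = tl e' k' → tl e k = hd e' k' → False := by
  decide +kernel

theorem S_lower (m : ℕ) (hm : 5 ≤ m) (hodd : ¬ Even m) (k : ℕ) (hk : k ∈ S m) : q0 m < k := by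
  classical
  obtain ⟨M, h1, h2, h3, h4, rfl⟩ := hk
  have hext : ∀ u v, ∃ π : Perm (Fin m), ∀ i j, M u v i j → π i = j := by
    intro u v
    obtain ⟨σ, hσ⟩ := Perm.exists_extending_pair (α := {p : Fin m × Fin m // M u v p.1 p.2})
      (fun p => p.1.1) (fun p => p.1.2)
      (by
        rintro ⟨⟨i, j⟩, a⟩ ⟨⟨i', j'⟩, b⟩ h
        simp only at h
        subst h
        have := h3 _ _ _ _ _ a b
        simp only at this
        subst this
        rfl)
      (by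
        rintro ⟨⟨i, j⟩, a⟩ ⟨⟨i', j'⟩, b⟩ h
        simp only at h
        subst h
        have := h4 _ _ _ _ _ a b
        simp only at this
        subst this
        rfl)
    exact ⟨σ, fun i j h => hσ ⟨(i, j), h⟩⟩
  choose π hπ using hext
  have hle : cnt (fun e k => π (hd e k) (tl e k)) ≤
      Set.ncard {f : Fin 15 → Fin m | ∀ u v, ¬ M u v (f u) (f v)} := by
    rw [cnt, ← Set.ncard_coe_finset]
    apply Set.ncard_le_ncard _ (Set.toFinite _)
    intro f hf u v hM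
    simp only [coe_filter, mem_univ, true_and, Set.mem_ofPred_eq] at hf
    rcases ((G_adj u v).1 (h1 _ _ _ _ hM)).2 with ⟨e, k, rfl, rfl⟩ | ⟨e, k, rfl, rfl⟩
    · exact hf e k (hπ _ _ _ _ hM).symm
    · exact hf e k (hπ _ _ _ _ (h2 _ _ _ _ hM)).symm
  have h5 := cnt_eq (fun e k => π (hd e k) (tl e k))
  have hm' : (5 : ℤ) ≤ m := by exact_mod_cast hm
  have h6 := F_odd (α := Fin m) ((Fintype.card (Fin m) : ℤ) ^ 2 - 3 * Fintype.card (Fin m) + 3)
    (by rw [Fintype.card_fin]; nlinarith) (hol (fun e k => π (hd e k) (tl e k)) 0)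
    (hol (fun e k => π (hd e k) (tl e k)) 1) (hol (fun e k => π (hd e k) (tl e k)) 2)
    (hol (fun e k => π (hd e k) (tl e k)) 3) (hol (fun e k => π (hd e k) (tl e k)) 4)
    (hol (fun e k => π (hd e k) (tl e k)) 5) (by rwa [Fintype.card_fin])
  rw [← h5, Fintype.card_fin] at h6
  unfold q0
  omega

theorem S_mem (m : ℕ) (π : Fin 6 → Fin 3 → Perm (Fin m)) : cnt π ∈ S m := by
  have hadj : ∀ e k, G.Adj (hd e k) (tl e k) := by decide +kernel
  refine ⟨fun u v i j => (∃ e k, u = hd e k ∧ v = tl e k ∧ j = π e k i) ∨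
    (∃ e k, v = hd e k ∧ u = tl e k ∧ i = π e k j), ?_, ?_, ?_, ?_, ?_⟩
  · rintro u v i j (⟨e, k, rfl, rfl, -⟩ | ⟨e, k, rfl, rfl, -⟩)
    · exact hadj e k
    · exact (hadj e k).symm
  · rintro u v i j (h | h)
    · exact Or.inr h
    · exact Or.inl h
  · rintro u v i j j' (⟨e, k, rfl, rfl, a⟩ | ⟨e, k, rfl, rfl, a⟩) (⟨e', k', b, c, d⟩ | ⟨e', k', b, c, d⟩)
    · obtain ⟨rfl, rfl⟩ := hd_tl_inj _ _ _ _ b c
      rw [a, d]
    · exact (hd_tl_anti _ _ _ _ c b).elim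
    · exact (hd_tl_anti _ _ _ _ c b).elim
    · obtain ⟨rfl, rfl⟩ := hd_tl_inj _ _ _ _ b c
      exact (π e k).injective (a.symm.trans d)
  · rintro u v i i' j (⟨e, k, rfl, rfl, a⟩ | ⟨e, k, rfl, rfl, a⟩) (⟨e', k', b, c, d⟩ | ⟨e', k', b, c, d⟩)
    · obtain ⟨rfl, rfl⟩ := hd_tl_inj _ _ _ _ b c
      exact (π e k).injective (a.symm.trans d)
    · exact (hd_tl_anti _ _ _ _ c b).elim
    · exact (hd_tl_anti _ _ _ _ c b).elim
    · obtain ⟨rfl, rfl⟩ := hd_tl_inj _ _ _ _ b c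
      rw [a, d]
  · rw [cnt, ← Set.ncard_coe_finset]
    congr 1
    ext f
    simp only [coe_filter, mem_univ, true_and, Set.mem_ofPred_eq]
    constructor
    · rintro h u v (⟨e, k, rfl, rfl, a⟩ | ⟨e, k, rfl, rfl, a⟩)
      · exact h e k a
      · exact h e k a
    · intro h e k a
      exact h _ _ (Or.inl ⟨e, k, rfl, rfl, a⟩)

theorem S_upper (m : ℕ) (hev : Even m) : ∃ k ∈ S m, (k : ℤ) = q0 m := by
  let σ : Perm (Fin m) := Fin.revPerm
  have h1 : ∀ a, σ (σ a) = a := fun a => Fin.rev_rev a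
  have h2 : ∀ a, a ≠ σ a := by
    intro a h
    have h' := congrArg Fin.val h
    simp only [σ, Fin.revPerm_apply, Fin.val_rev] at h'
    obtain ⟨r, hr⟩ := hev
    have := a.2
    omega
  let π : Fin 6 → Fin 3 → Perm (Fin m) :=
    ![![1, 1, 1], ![σ, 1, 1], ![1, 1, 1], ![σ, 1, 1], ![1, 1, 1], ![σ, 1, 1]]
  refine ⟨cnt π, S_mem m π, ?_⟩
  have e0 : hol π 0 = 1 := by simp [hol, π]
  have e1 : hol π 1 = σ := by simp [hol, π]
  have e2 : hol π 2 = 1 := by simp [hol, π]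
  have e3 : hol π 3 = σ := by simp [hol, π]
  have e4 : hol π 4 = 1 := by simp [hol, π]
  have e5 : hol π 5 = σ := by simp [hol, π]
  rw [cnt_eq, e0, e1, e2, e3, e4, e5, F_even _ σ h1 h2, Fintype.card_fin, q0]

open Polynomial in
noncomputable def Q : ℝ[X] :=
  (X ^ 2 - 3 * X + 3) ^ 6 * X ^ 3 - 6 * (X ^ 2 - 3 * X + 3) ^ 5 * X ^ 2 +
    12 * (X ^ 2 - 3 * X + 3) ^ 4 * X - (X ^ 2 - 3 * X + 3) ^ 3 * (4 * X)

theorem Q_eval (m : ℕ) : Q.eval (m : ℝ) = (q0 m : ℝ) := by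
  simp [Q, q0, C0]

/-- The negation of the preceding statement: For every finite graph G, the DP color function (minimum over all m-fold correspondence covers of the number of independent transversals) agrees with some real polynomial in m for all sufficiently large m. -/
theorem result :
    ¬ (∀ (n : ℕ) (G : SimpleGraph (Fin n)), ∃ N : ℕ, ∃ p : Polynomial ℝ, ∀ m : ℕ, N ≤ m →
      (((sInf {k : ℕ | ∃ M : Fin n → Fin n → Fin m → Fin m → Prop,
          (∀ u v i j, M u v i j → G.Adj u v) ∧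
          (∀ u v i j, M u v i j → M v u j i) ∧
          (∀ u v i j j', M u v i j → M u v i j' → j = j') ∧
          (∀ u v i i' j, M u v i j → M u v i' j → i = i') ∧
          k = Set.ncard {f : Fin n → Fin m | ∀ u v, ¬ M u v (f u) (f v)}} : ℕ) : ℝ)
        = p.eval (m : ℝ))) := by
  intro hall
  obtain ⟨N, p, hp⟩ := hall 15 G
  have hp' : ∀ m : ℕ, N ≤ m → ((sInf (S m) : ℕ) : ℝ) = p.eval (m : ℝ) := hp
  have hev : ∀ m : ℕ, N ≤ m → Even m → (p - Q).eval (m : ℝ) ≤ 0 := by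
    intro m hm he
    obtain ⟨k, hk, hq⟩ := S_upper m he
    have h1 : sInf (S m) ≤ k := Nat.sInf_le hk
    have h2 : ((sInf (S m) : ℕ) : ℤ) ≤ q0 m := by omega
    rw [Polynomial.eval_sub, Q_eval, ← hp' m hm, sub_nonpos]
    exact_mod_cast h2
  have hod : ∀ m : ℕ, N ≤ m → 5 ≤ m → ¬ Even m → 0 < (p - Q).eval (m : ℝ) := by
    intro m hm h5 he
    have h1 := S_lower m h5 he _ (Nat.sInf_mem ⟨_, S_mem m (fun _ _ => 1)⟩)
    rw [Polynomial.eval_sub, Q_eval, ← hp' m hm, sub_pos]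
    exact_mod_cast h1
  have hne : p - Q ≠ 0 := by
    intro h
    have := hod (2 * (N + 5) + 1) (by omega) (by omega) (by simp [parity_simps])
    rw [h] at this
    simp at this
  obtain ⟨x0, hx0⟩ := Polynomial.exists_max_root (p - Q) hne
  obtain ⟨n, hn⟩ := exists_nat_gt x0
  have a1 := hev (2 * (N + 5 + n)) (by omega) (by simp)
  have a2 := hod (2 * (N + 5 + n) + 1) (by omega) (by omega) (by simp [parity_simps])
  have hle : ((2 * (N + 5 + n) : ℕ) : ℝ) ≤ ((2 * (N + 5 + n) + 1 : ℕ) : ℝ) := by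
    exact_mod_cast Nat.le_succ _
  obtain ⟨x, hx, hx2⟩ := intermediate_value_Icc hle (p - Q).continuous.continuousOn ⟨a1, a2.le⟩
  have b1 := hx0 x hx2
  have b2 : (n : ℝ) ≤ ((2 * (N + 5 + n) : ℕ) : ℝ) := by exact_mod_cast (by omega)
  linarith [hx.1]

end Pool.Agent.S10590
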