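import Pool.Statements.S10592

set_option autoImplicit false
open Pool Pool.MP_a5a405_co

namespace Pool.Agent.S10592

open Combinatorics in
theorem vdw_fin (κ : Type) [Finite κ] (L : ℕ) : ∃ N : ℕ, ∀ χ : ℕ → κ, ∃ a s : ℕ,
    0 < a ∧ 0 < s ∧ a + L * s ≤ N ∧ ∀ t ≤ L, χ (a + t * s) = χ a := by
  classical
  obtain ⟨ι, _, hι⟩ := Line.exists_mono_in_high_dimension (Fin (L + 1)) κ
  refine ⟨1 + Fintype.card ι * L, fun χ => ?_⟩
  obtain ⟨l, c, hl⟩ := hι fun v => χ (1 + ∑ i, (v i : ℕ))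
  let s : ℕ := ∑ i, if l.idxFun i = none then 1 else 0
  have key : ∀ t : Fin (L + 1), ∑ i, (l t i : ℕ) = ∑ i, (l 0 i : ℕ) + t * s := by
    intro t
    simp only [s, Finset.mul_sum, ← Finset.sum_add_distrib]
    refine Finset.sum_congr rfl fun i _ => ?_
    cases h : l.idxFun i <;> simp [h]
  refine ⟨1 + ∑ i, (l 0 i : ℕ), s, by omega, ?_, ?_, fun t ht => ?_⟩
  · obtain ⟨i, hi⟩ := l.proper
    exact Finset.sum_pos' (fun _ _ => Nat.zero_le _) ⟨i, Finset.mem_univ _, by simp [hi]⟩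
  · have h1 := key (Fin.last L)
    have h2 : ∑ i, (l (Fin.last L) i : ℕ) ≤ Fintype.card ι * L := by
      have := Finset.sum_le_card_nsmul Finset.univ (fun i => (l (Fin.last L) i : ℕ)) L
        fun i _ => Nat.lt_succ_iff.mp (l (Fin.last L) i).2
      simpa using this
    simp only [Fin.val_last] at h1
    omega
  · have h1 := hl ⟨t, Nat.lt_succ_of_le ht⟩
    have h2 := hl 0
    beta_reduce at h1 h2
    rw [key] at h1
    rw [h2, add_assoc]
    exact h1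

theorem brauer_fin (κ : Type) [Finite κ] (n : ℕ) : ∃ N : ℕ, ∀ K : Finset κ, K.card ≤ n →
    ∀ χ : ℕ → κ, (∀ j, 1 ≤ j → j ≤ N → χ j ∈ K) →
      ∃ a d : ℕ, 0 < a ∧ 0 < d ∧ χ d = χ a ∧ χ (a + 2 * d) = χ a := by
  classical
  induction n with
  | zero =>
    refine ⟨1, fun K hK χ h => ?_⟩
    have := h 1 le_rfl le_rfl
    rw [Finset.card_eq_zero.mp (Nat.le_zero.mp hK)] at this
    simp at this
  | succ n ih =>
    obtain ⟨N, hN⟩ := ih
    obtain ⟨N', hN'⟩ := vdw_fin κ (2 * N)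
    refine ⟨N', fun K hK χ h => ?_⟩
    obtain ⟨a, s, ha, hs, hb, hm⟩ := hN' χ
    by_cases hj : ∃ j, 1 ≤ j ∧ j ≤ N ∧ χ (j * s) = χ a
    · obtain ⟨j, h1, h2, h3⟩ := hj
      refine ⟨a, j * s, ha, Nat.mul_pos h1 hs, h3, ?_⟩
      rw [← mul_assoc]
      exact hm _ (by omega)
    · push Not at hj
      have haK : χ a ∈ K := h a ha (by omega)
      obtain ⟨a', d', h1, h2, h3, h4⟩ := hN (K.erase (χ a))
        (by rw [Finset.card_erase_of_mem haK]; omega) (fun j => χ (j * s)) fun j h1 h2 =>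
          Finset.mem_erase.mpr ⟨hj j h1 h2, h _ (Nat.mul_pos h1 hs) (by nlinarith)⟩
      refine ⟨a' * s, d' * s, Nat.mul_pos h1 hs, Nat.mul_pos h2 hs, h3, ?_⟩
      rw [← h4]
      congr 1
      ring

theorem brauer (κ : Type) [Finite κ] (χ : ℕ+ → κ) :
    ∃ a d : ℕ+, χ d = χ a ∧ χ (a + (d + d)) = χ a := by
  classical
  have := Fintype.ofFinite κ
  obtain ⟨N, hN⟩ := brauer_fin κ (Fintype.card κ)
  obtain ⟨a, d, ha, hd, h1, h2⟩ := hN Finset.univ (by simp) (fun j => χ (Nat.toPNat' j))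
    (by simp)
  refine ⟨Nat.toPNat' a, Nat.toPNat' d, h1, ?_⟩
  rw [← h2]
  congr 1
  apply PNat.eq
  simp [Nat.toPNat'_coe, ha, hd, two_mul]

attribute [local instance] Ultrafilter.mul Ultrafilter.semigroup in
theorem joint (κ : Type) [Finite κ] (χ : ℕ+ → κ) : ∃ z a d : ℕ+,
    χ d = χ z ∧ χ (a + (d + d)) = χ z ∧ χ (z * a) = χ z ∧ χ (z * d) = χ z ∧
      χ (z * (a + (d + d))) = χ z := by
  classical
  let F : Set (Set ℕ+) := {A | ¬ ∃ a d : ℕ+, a ∈ Aᶜ ∧ d ∈ Aᶜ ∧ a + (d + d) ∈ Aᶜ}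
  let S : Set (Ultrafilter ℕ+) := ⋂ A ∈ F, {U | A ∈ U}
  have hS : ∀ U, U ∈ S ↔ ∀ A ∈ U, ∃ a d : ℕ+, a ∈ A ∧ d ∈ A ∧ a + (d + d) ∈ A := by
    intro U
    simp only [S, Set.mem_iInter, Set.mem_ofPred_eq]
    constructor
    · intro h A hA
      by_contra hn
      have := h Aᶜ (by simpa [F] using hn)
      exact Ultrafilter.compl_mem_iff_notMem.mp this hA
    · intro h A hA
      by_contra hn
      exact hA (h _ (Ultrafilter.compl_mem_iff_notMem.mpr hn))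
  obtain ⟨U, hU, hUU⟩ := exists_idempotent_in_compact_subsemigroup
    Ultrafilter.continuous_mul_left S (by
      obtain ⟨U, hU⟩ := Ultrafilter.exists_ultrafilter_of_finite_inter_nonempty F (by
        intro T hT
        by_contra hne
        have : ∀ m : ℕ+, ∃ A : T, m ∉ (A : Set ℕ+) := by
          intro m
          by_contra h
          push Not at h
          exact hne ⟨m, fun A hA => h ⟨A, hA⟩⟩
        choose f hf using this
        obtain ⟨a, d, h1, h2⟩ := brauer T f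
        exact hT (f a).2 ⟨a, d, hf a, h1 ▸ hf d, h2 ▸ hf _⟩)
      exact ⟨U, Set.mem_iInter₂.mpr fun A hA => hU hA⟩)
    (IsClosed.isCompact (isClosed_biInter fun A _ => ultrafilter_isClosed_basic A))
    (by
      intro U _ V hV
      rw [hS] at hV ⊢
      intro A hA
      have : ∀ᶠ m in ↑(U * V), m ∈ A := hA
      rw [Ultrafilter.eventually_mul] at this
      obtain ⟨m, hm⟩ := this.exists
      obtain ⟨a, d, h1, h2, h3⟩ := hV _ hm
      exact ⟨m * a, m * d, h1, h2, by rw [← mul_add, ← mul_add]; exact h3⟩)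
  obtain ⟨c, hc⟩ : ∃ c, χ ⁻¹' {c} ∈ U := by
    have := (Ultrafilter.finite_biUnion_mem_iff (f := U) (s := fun c => χ ⁻¹' {c})
      Set.finite_univ).mp (by
        have : ⋃ c ∈ (Set.univ : Set κ), χ ⁻¹' {c} = Set.univ := by
          ext m; simp
        rw [this]; exact Filter.univ_mem)
    obtain ⟨c, _, hc⟩ := this
    exact ⟨c, hc⟩
  have h1 : ∀ᶠ m in ↑(U * U), m ∈ χ ⁻¹' {c} := by rw [hUU]; exact hc
  rw [Ultrafilter.eventually_mul] at h1
  obtain ⟨z, hz1, hz2⟩ := (h1.and hc).exists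
  obtain ⟨a, d, ha, hd, he⟩ := (hS U).mp hU _ (Filter.inter_mem hz1 hc)
  have e : χ z = c := hz2
  refine ⟨z, a, d, ?_⟩
  rw [e]
  exact ⟨hd.2, he.2, ha.1, hd.1, he.1⟩

/-- The negation of the preceding statement: Fix nonzero integers a_i, b_i, c_i and n ≥ 1. Every finite colouring gives nonzero one-colour x_i, y_i, w_i, z_i with a_i x_i + b_i y_i = c_i w_i z_i^n for all i iff some rational n-th power lies in every set {a_i/c_i, b_i/c_i, (a_i+b_i)/c_i}. -/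
theorem result :
    ¬ (∀ (k : ℕ) (a b c : Fin k → ℤ) (n : ℕ),
      (∀ i, a i ≠ 0 ∧ b i ≠ 0 ∧ c i ≠ 0) → 1 ≤ n →
      ((∀ (r : ℕ) (χ : ℤ → Fin r), ∃ (x y w z : Fin k → ℤ) (col : Fin r),
          ∀ i, x i ≠ 0 ∧ y i ≠ 0 ∧ w i ≠ 0 ∧ z i ≠ 0 ∧
            a i * x i + b i * y i = c i * w i * z i ^ n ∧
            χ (x i) = col ∧ χ (y i) = col ∧ χ (w i) = col ∧ χ (z i) = col) ↔
        ∃ q : ℚ, ∀ i, q ^ n = (a i : ℚ) / (c i : ℚ) ∨ q ^ n = (b i : ℚ) / (c i : ℚ) ∨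
          q ^ n = ((a i : ℚ) + (b i : ℚ)) / (c i : ℚ))) := by
  intro h
  obtain ⟨q, hq⟩ := (h 2 ![1, 1] ![-1, 2] ![2, 1] 1 (by
    intro i; fin_cases i <;> simp) le_rfl).mp (by
    intro r χ
    obtain ⟨z, a, d, h1, h2, h3, h4, h5⟩ := joint (Fin r) (fun m => χ ((m : ℕ) : ℤ))
    refine ⟨![((z * (a + (d + d)) : ℕ+) : ℕ), ((z * a : ℕ+) : ℕ)],
      ![((z * a : ℕ+) : ℕ), ((z * d : ℕ+) : ℕ)], ![((d : ℕ+) : ℕ), ((a + (d + d) : ℕ+) : ℕ)],
      ![(z : ℕ), (z : ℕ)], χ ((z : ℕ) : ℤ), fun i => ?_⟩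
    have nz : ∀ m : ℕ+, ((m : ℕ) : ℤ) ≠ 0 := fun m => by exact_mod_cast m.ne_zero
    fin_cases i
    · refine ⟨nz _, nz _, nz _, nz _, ?_, h5, h3, h1, rfl⟩
      simp; ring
    · refine ⟨nz _, nz _, nz _, nz _, ?_, h3, h4, h2, rfl⟩
      simp; ring)
  have h0 := hq 0
  have h1 := hq 1
  simp at h0 h1
  rcases h0 with h0 | h0 | h0 <;> rcases h1 with h1 | h1 | h1 <;> rw [h0] at h1 <;> norm_num at h1

end Pool.Agent.S10592
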