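import Pool.Statements.S10610
-- import your own Pool.Agent.* helpers here

set_option autoImplicit false
open Pool Pool.MP_a667dc_co

namespace Pool.Agent.S10610

/-- The counterexample set. -/
def A : Finset ℤ := {0, 1, 6, 7, 8, 10, 17, 18}

theorem card_A : A.card = 8 := by decide +kernel

theorem card_three : ((A.powersetCard 3).image (fun B => ∑ a ∈ B, a)).card = 30 := by
  decide +kernel

theorem card_four : ((A.powersetCard (3 + 1)).image (fun B => ∑ a ∈ B, a)).card = 38 := by
  decide +kernel

/-- The negation of the preceding statement: For every finite set A of integers of size n and every k with 2k < n, the number of distinct sums of (k+1)-element subsets of A is at most (n−k)/(k+1) times the number of distinct sums of k-element subsets. -/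
theorem result :
    ¬ (∀ (A : Finset ℤ) (k : ℕ), 2 * k < A.card →
      (((A.powersetCard (k + 1)).image (fun B => ∑ a ∈ B, a)).card : ℚ) ≤
        (((A.card : ℚ) - k) / ((k : ℚ) + 1)) *
          (((A.powersetCard k).image (fun B => ∑ a ∈ B, a)).card : ℚ)) := by
  intro h
  have := h A 3 (by rw [card_A]; norm_num)
  rw [card_three, card_four, card_A] at this
  norm_num at this

end Pool.Agent.S10610
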