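import Pool.Statements.S10628

set_option autoImplicit false
open Pool Pool.MP_a76d3a_co

namespace Pool.Agent.S10628

open Finset

theorem prod_edges {V ι : Type} [Fintype V] [DecidableEq V] [Fintype ι] (G : SimpleGraph V)
    [DecidableRel G.Adj] (ep : ι → V × V)
    (h1 : ∀ u v, G.Adj u v ↔ ∃ i, s(u, v) = s((ep i).1, (ep i).2))
    (h2 : ∀ i j, s((ep i).1, (ep i).2) = s((ep j).1, (ep j).2) → i = j) (F : Sym2 V → ℕ) :
    ∏ e ∈ G.edgeFinset, F e = ∏ i, F s((ep i).1, (ep i).2) := by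
  have : G.edgeFinset = univ.image (fun i => s((ep i).1, (ep i).2)) := by
    ext e
    induction e using Sym2.ind with
    | _ u v =>
      simp only [SimpleGraph.mem_edgeFinset, SimpleGraph.mem_edgeSet, mem_image, mem_univ,
        true_and, h1]
      exact ⟨fun ⟨i, hi⟩ => ⟨i, hi.symm⟩, fun ⟨i, hi⟩ => ⟨i, hi.symm⟩⟩
  rw [this, prod_image (fun i _ j _ h => h2 i j h)]

theorem leaf {C L X : Type} [Fintype C] [DecidableEq C] [Fintype L] [DecidableEq L] [Fintype X]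
    (F : (C → X) → ℕ) (a : X → X → ℕ) (p : L → C) :
    ∑ φ : C ⊕ L → X, F (fun c => φ (Sum.inl c)) * ∏ l, a (φ (Sum.inl (p l))) (φ (Sum.inr l)) =
      ∑ ψ : C → X, F ψ * ∏ l, ∑ y, a (ψ (p l)) y := by
  rw [← (Equiv.sumArrowEquivProdArrow C L X).symm.sum_comp, Fintype.sum_prod_type]
  apply sum_congr rfl
  intro ψ _
  rw [Finset.prod_univ_sum, mul_sum]
  simp only [Fintype.piFinset_univ]
  rfl

theorem sum4 {X : Type} [Fintype X] (F : (Fin 4 → X) → ℕ) :
    ∑ ψ, F ψ = ∑ a, ∑ b, ∑ c, ∑ d, F ![a, b, c, d] := by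
  let e : (X × X × X × X) ≃ (Fin 4 → X) :=
    { toFun := fun p => ![p.1, p.2.1, p.2.2.1, p.2.2.2]
      invFun := fun f => (f 0, f 1, f 2, f 3)
      left_inv := fun p => rfl
      right_inv := fun f => by funext i; fin_cases i <;> rfl }
  rw [← e.sum_comp]
  simp only [Fintype.sum_prod_type]
  rfl

theorem sumB {C X : Type} [Fintype C] [DecidableEq C] [Fintype X] (F : (C × Bool → X) → ℕ) :
    ∑ ψ, F ψ = ∑ f : C → X, ∑ g : C → X, F (fun p => cond p.2 (g p.1) (f p.1)) := by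
  let e : ((C → X) × (C → X)) ≃ (C × Bool → X) :=
    { toFun := fun q p => cond p.2 (q.2 p.1) (q.1 p.1)
      invFun := fun f => (fun c => f (c, false), fun c => f (c, true))
      left_inv := fun p => rfl
      right_inv := fun f => by funext ⟨c, b⟩; cases b <;> rfl }
  rw [← e.sum_comp]
  simp only [Fintype.sum_prod_type]
  rfl

abbrev V := Fin 4 ⊕ Fin 6

def par : Fin 6 → Fin 4 := ![0, 0, 0, 1, 1, 1]

def adjB : V → V → Bool
  | Sum.inl a, Sum.inl b => decide (b = a + 1) || decide (a = b + 1)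
  | Sum.inl a, Sum.inr l => decide (a = par l)
  | Sum.inr l, Sum.inl a => decide (a = par l)
  | Sum.inr _, Sum.inr _ => false

def G : SimpleGraph V where
  Adj u v := adjB u v = true
  symm := ⟨by decide⟩
  loopless := ⟨by decide⟩

instance : DecidableRel G.Adj := fun u v => inferInstanceAs (Decidable (adjB u v = true))

def sg : V → V → Bool
  | Sum.inl a, Sum.inl b => (decide (a = 3) && decide (b = 0)) || (decide (a = 0) && decide (b = 3))
  | _, _ => false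

def H : SimpleGraph (V × Bool) where
  Adj p q := adjB p.1 q.1 = true ∧ q.2 = xor p.2 (sg p.1 q.1)
  symm := ⟨by decide +kernel⟩
  loopless := ⟨by decide +kernel⟩

instance : DecidableRel H.Adj := fun p q =>
  inferInstanceAs (Decidable (adjB p.1 q.1 = true ∧ q.2 = xor p.2 (sg p.1 q.1)))

def a : Fin 3 → Fin 3 → ℕ := ![![1, 0, 1], ![0, 4, 3], ![1, 3, 2]]

def A : Sym2 (Fin 3) → ℕ := Sym2.lift ⟨a, by decide⟩

def epG : V → V × V
  | Sum.inl k => (Sum.inl k, Sum.inl (k + 1))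
  | Sum.inr l => (Sum.inl (par l), Sum.inr l)

def epH : (Fin 4 × Bool) ⊕ (Fin 6 × Bool) → (V × Bool) × (V × Bool)
  | Sum.inl k => ((Sum.inl k.1, k.2), (Sum.inl (k.1 + 1), xor k.2 (decide (k.1 = 3))))
  | Sum.inr l => ((Sum.inl (par l.1), l.2), (Sum.inr l.1, l.2))

theorem ZG : ∑ φ : V → Fin 3, ∏ e ∈ G.edgeFinset, A (Sym2.map φ e) =
    ∑ ψ : Fin 4 → Fin 3, (∏ k, a (ψ k) (ψ (k + 1))) * ∏ l, ∑ y, a (ψ (par l)) y := by
  rw [← leaf]
  apply sum_congr rfl
  intro φ _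
  rw [prod_edges G epG (by decide +kernel) (by decide +kernel), Fintype.prod_sum_type]
  rfl

theorem ZH : ∑ φ : V × Bool → Fin 3, ∏ e ∈ H.edgeFinset, A (Sym2.map φ e) =
    ∑ ψ : Fin 4 × Bool → Fin 3,
      (∏ k : Fin 4 × Bool, a (ψ k) (ψ (k.1 + 1, xor k.2 (decide (k.1 = 3))))) *
        ∏ l : Fin 6 × Bool, ∑ y, a (ψ (par l.1, l.2)) y := by
  rw [← leaf (p := fun l : Fin 6 × Bool => (par l.1, l.2)),
    ← (Equiv.arrowCongr (Equiv.sumProdDistrib (Fin 4) (Fin 6) Bool) (Equiv.refl (Fin 3))).sum_comp]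
  apply sum_congr rfl
  intro φ _
  rw [prod_edges H epH (by decide +kernel) (by decide +kernel), Fintype.prod_sum_type]
  rfl

def w : Fin 3 → ℕ := ![2, 7, 6]

theorem w_eq : ∀ x, ∑ y, a x y = w x := by decide

def g (x b c d y : Fin 3) : ℕ := w x ^ 3 * w b ^ 3 * a x b * a b c * a c d * a d y

def tab : Fin 3 → Fin 3 → ℕ := ![![29696, 198336, 147968], ![13661004, 97809880, 72540384], ![6262488, 44902512, 33298992]]

theorem tab_eq : ∀ x y, ∑ b, ∑ c, ∑ d, g x b c d y = tab x y := by decide +kernel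

theorem ZG' : ∑ φ : V → Fin 3, ∏ e ∈ G.edgeFinset, A (Sym2.map φ e) = 131138568 := by
  rw [ZG, sum4]
  have h : ∀ x b c d : Fin 3, (∏ k : Fin 4, a (![x, b, c, d] k) (![x, b, c, d] (k + 1))) *
      ∏ l, ∑ y, a (![x, b, c, d] (par l)) y = g x b c d x := by
    intro x b c d
    simp only [w_eq, Fin.prod_univ_succ, Fin.prod_univ_zero]
    show a x b * (a b c * (a c d * (a d x * 1))) *
      (w x * (w x * (w x * (w b * (w b * (w b * 1)))))) = _
    unfold g
    ring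
  simp only [h, tab_eq]
  decide +kernel

theorem ZH' : ∑ φ : V × Bool → Fin 3, ∏ e ∈ H.edgeFinset, A (Sym2.map φ e) = 17197359535199552 := by
  rw [ZH, sumB]
  have h : ∀ f f' : Fin 4 → Fin 3,
      (∏ k : Fin 4 × Bool, a (cond k.2 (f' k.1) (f k.1))
        (cond (xor k.2 (decide (k.1 = 3))) (f' (k.1 + 1)) (f (k.1 + 1)))) *
        ∏ l : Fin 6 × Bool, ∑ y, a (cond l.2 (f' (par l.1)) (f (par l.1))) y =
      g (f 0) (f 1) (f 2) (f 3) (f' 0) * g (f' 0) (f' 1) (f' 2) (f' 3) (f 0) := by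
    intro f f'
    simp only [w_eq, Fintype.prod_prod_type, Fin.prod_univ_succ, Fin.prod_univ_zero,
      Fintype.prod_bool]
    show a (f' 0) (f' 1) * a (f 0) (f 1) * (a (f' 1) (f' 2) * a (f 1) (f 2) *
      (a (f' 2) (f' 3) * a (f 2) (f 3) * (a (f' 3) (f 0) * a (f 3) (f' 0) * 1))) *
      (w (f' 0) * w (f 0) * (w (f' 0) * w (f 0) * (w (f' 0) * w (f 0) * (w (f' 1) * w (f 1) *
        (w (f' 1) * w (f 1) * (w (f' 1) * w (f 1) * 1)))))) = _
    unfold g
    ring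
  refine Eq.trans (sum_congr rfl fun f _ => sum_congr rfl fun f' _ => h f f') ?_
  have h2 : ∀ f : Fin 4 → Fin 3, ∑ f' : Fin 4 → Fin 3,
      g (f 0) (f 1) (f 2) (f 3) (f' 0) * g (f' 0) (f' 1) (f' 2) (f' 3) (f 0) =
      ∑ y, g (f 0) (f 1) (f 2) (f 3) y * tab y (f 0) := by
    intro f
    rw [sum4]
    apply sum_congr rfl
    intro y _
    rw [← tab_eq]
    simp only [mul_sum]
    rfl
  refine Eq.trans (sum_congr rfl fun f _ => h2 f) ?_
  rw [sum4]
  show ∑ x, ∑ b, ∑ c, ∑ d, ∑ y, g x b c d y * tab y x = _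
  decide +kernel

theorem cmp : (∑ φ : V → Fin 3, ∏ e ∈ G.edgeFinset, A (Sym2.map φ e)) ^ 2 <
    ∑ φ : V × Bool → Fin 3, ∏ e ∈ H.edgeFinset, A (Sym2.map φ e) := by
  rw [ZG', ZH']
  norm_num

theorem result :
    ¬ (∀ (V : Type) [Fintype V] [DecidableEq V] (G : SimpleGraph V) [DecidableRel G.Adj],
      G.Colorable 2 →
      ∀ (H : SimpleGraph (V × Bool)) [DecidableRel H.Adj],
        (∃ s : V → V → Bool, (∀ u v, s u v = s v u) ∧
          ∀ u v : V, ∀ i j : Bool,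
            H.Adj (u, i) (v, j) ↔ (G.Adj u v ∧ j = xor i (s u v))) →
        ∀ (n : ℕ) (A : Sym2 (Fin n) → ℝ), (∀ z, 0 ≤ A z) →
          (∑ φ : V × Bool → Fin n, ∏ e ∈ H.edgeFinset, A (Sym2.map φ e)) ≤
            (∑ φ : V → Fin n, ∏ e ∈ G.edgeFinset, A (Sym2.map φ e)) ^ 2) := by
  intro h
  have hc : G.Colorable 2 := by
    refine ⟨SimpleGraph.Coloring.mk
      (Sum.elim ![0, 1, 0, 1] ![1, 1, 1, 0, 0, 0] : V → Fin 2) ?_⟩
    decide
  have := h V G hc H ⟨sg, by decide, fun u v i j => Iff.rfl⟩ 3 (fun z => (A z : ℝ))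
    (fun z => Nat.cast_nonneg _)
  have h2 := cmp
  apply absurd h2
  rw [not_lt]
  exact_mod_cast this

end Pool.Agent.S10628
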