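import Pool.Statements.S10632
import Pool.Agent.Lib.Helper33.Cyc

set_option autoImplicit false
open Pool Pool.MP_a78613_co Pool.Agent.Lib.Helper33

namespace Pool.Agent.S10632

/-- Neighbour lists: three copies of K44 minus an edge (vertices 8b..8b+7, parts 8b..8b+3 and
8b+4..8b+7, the pair 8b, 8b+4 not joined), and the ring edges from 8b+4 to 8(b+1) mod 24. -/
def tbl : List (List ℕ) := [[5, 6, 7, 20], [4, 5, 6, 7], [4, 5, 6, 7], [4, 5, 6, 7], [1, 2, 3, 8], [0, 1, 2, 3], [0, 1, 2, 3], [0, 1, 2, 3], [4, 13, 14, 15], [12, 13, 14, 15], [12, 13, 14, 15], [12, 13, 14, 15], [9, 10, 11, 16], [8, 9, 10, 11], [8, 9, 10, 11], [8, 9, 10, 11], [12, 21, 22, 23], [20, 21, 22, 23], [20, 21, 22, 23], [20, 21, 22, 23], [17, 18, 19, 0], [16, 17, 18, 19], [16, 17, 18, 19], [16, 17, 18, 19]]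

def nb (u : ℕ) : List ℕ := tbl.getD u []

def G : SimpleGraph (Fin 24) where
  Adj u v := v.val ∈ nb u.val
  symm := ⟨by decide +kernel⟩
  loopless := ⟨by decide +kernel⟩

instance : DecidableRel G.Adj := fun u v => inferInstanceAs (Decidable (v.val ∈ nb u.val))

lemma deg : ∀ v : Fin 24, G.degree v = 4 := by decide +kernel

lemma mindeg : G.minDegree = 4 := by
  obtain ⟨v, hv⟩ := G.exists_minimal_degree_vertex
  rw [hv, deg]

lemma col : G.Colorable 2 := by
  refine ⟨SimpleGraph.Coloring.mk (fun v : Fin 24 => (⟨v.val / 4 % 2, Nat.mod_lt _ (by norm_num)⟩ :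
    Fin 2)) ?_⟩
  intro u v
  revert u v
  decide +kernel

lemma ham : G.IsHamiltonian := by
  intro _
  obtain ⟨c, hc, hl, -⟩ := exists_cycle_of_list G 0
    [5, 1, 6, 2, 7, 3, 4, 8, 13, 9, 14, 10, 15, 11, 12, 16, 21, 17, 22, 18, 23, 19, 20]
    (by decide +kernel) (by decide +kernel) (by decide)
  exact ⟨0, c, SimpleGraph.Walk.isHamiltonianCycle_iff_isCycle_and_length_eq.mpr
    ⟨hc, by rw [hl]; simp⟩⟩

lemma chk0 : extP nb 0 10 0 (2 ^ 0 - 1) = false := by decide +kernel
lemma chk1 : extP nb 1 10 1 (2 ^ 1 - 1) = false := by decide +kernel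
lemma chk2 : extP nb 2 10 2 (2 ^ 2 - 1) = false := by decide +kernel
lemma chk3 : extP nb 3 10 3 (2 ^ 3 - 1) = false := by decide +kernel
lemma chk4 : extP nb 4 10 4 (2 ^ 4 - 1) = false := by decide +kernel
lemma chk5 : allLt 19 (fun s => !(extP nb (s + 5) 10 (s + 5) (2 ^ (s + 5) - 1))) = true := by
  decide +kernel

lemma chk : ∀ s, s < 24 → extP nb s 10 s (2 ^ s - 1) = false := by
  intro s hs
  by_cases h5 : s < 5
  · interval_cases s
    · exact chk0
    · exact chk1
    · exact chk2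
    · exact chk3
    · exact chk4
  · have := (allLt_iff _ _).mp chk5 (s - 5) (by omega)
    rw [show s - 5 + 5 = s by omega] at this
    simpa using this

/-- Counterexample: a 4-regular hamiltonian bipartite graph on 24 vertices with no 10-cycle. -/
theorem result :
    ¬ (∀ (V : Type) [Fintype V] [DecidableEq V] (G : SimpleGraph V) [DecidableRel G.Adj] (n : ℕ),
      Fintype.card V = 2 * n →
      G.Colorable 2 →
      G.IsHamiltonian →
      G.minDegree ^ 2 - G.minDegree ≥ n →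
      ∀ ℓ : ℕ, 2 ≤ ℓ → ℓ ≤ n →
        ∃ (v : V) (c : G.Walk v v), c.IsCycle ∧ c.length = 2 * ℓ) := by
  intro h
  exact no_cycle_of_chk_min G nb (fun _ _ h => h) 10 chk
    (h (Fin 24) G 12 (by simp) col ham (by rw [mindeg]; norm_num) 5 (by norm_num) (by norm_num))

end Pool.Agent.S10632
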