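import Pool.Statements.S10644
import Pool.Agent.Lib.helper18.Acn2

set_option autoImplicit false
open Pool Pool.MP_a813b7_co

namespace Pool.Agent.S10644

open Finset H18Acn

abbrev Dat (N q : ℕ) := Finset (Fin N) × (Fin N → Fin q) × Finset (Fin N × Fin N) ×
  (Fin N × Fin N → Fin N × Fin q)

open Classical in
noncomputable def W {N q : ℕ} [NeZero N] [NeZero q] (n : ℕ) (L : ℝ) (d : Dat N q) : ℝ :=
  if d.1.card = n ∧ (∀ i ∈ d.1, d.2.1 i = 0) ∧ d.2.2.1.card = n ∧
    d.2.2.1 ∈ NC (xx N) (fun i => YY i (d.2.1 i)) (univ.filter fun e => e.1 < e.2) then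
    ∏ e, if e ∈ d.2.2.1 then wt L d.2.1 e (d.2.2.2 e) else if d.2.2.2 e = 0 then 1 else 0
  else 0

lemma W0 {N q : ℕ} [NeZero N] [NeZero q] (n : ℕ) (L : ℝ) (d : Dat N q) : 0 ≤ W n L d := by
  unfold W wt
  split_ifs
  · exact prod_nonneg fun e _ => by split_ifs <;> positivity
  · rfl

lemma tot {N q : ℕ} [NeZero N] [NeZero q] (n : ℕ) {L : ℝ} (hL : 0 < L) :
    ∑ d : Dat N q, W n L d ≤ 2 ^ N * (q ^ (N - n) * (Real.exp (450 * N) *
      (2 * N + 4 * N * q / L) ^ n)) := by
  classical
  simp only [Fintype.sum_prod_type]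
  refine (sum_le_card_nsmul _ _ _ fun J _ => ?_).trans_eq (by simp; rfl)
  by_cases hJ : J.card = n
  swap
  · simp only [W, hJ, false_and, ↓reduceIte, sum_const_zero]
    positivity
  calc _ ≤ ∑ z : Fin N → Fin q, if z ∈ Fintype.piFinset fun i => if i ∈ J then {0} else univ then
        Real.exp (450 * N) * (2 * N + 4 * N * q / L) ^ n else 0 := sum_le_sum fun z _ => by
        split_ifs with hz
        swap
        · refine (sum_eq_zero fun M _ => sum_eq_zero fun g _ => if_neg fun h => hz ?_).le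
          exact Fintype.mem_piFinset.2 fun i => by
            split_ifs with k
            exacts [mem_singleton.2 (h.2.1 i k), mem_univ _]
        calc _ ≤ ∑ M, if M ∈ NC (xx N) (fun i => YY i (z i)) (univ.filter fun e => e.1 < e.2) then
              (2 * N + 4 * N * q / L) ^ n else 0 := sum_le_sum fun M _ => by
              simp only [W]
              rw [sum_ite_irrel, sum_const_zero]
              split_ifs with h1 h2 h2
              · rw [← Fintype.piFinset_univ, ← prod_univ_sum (fun _ => univ) fun e g =>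
                  if e ∈ M then wt L z e g else if g = 0 then 1 else 0, ← h1.2.2.1, ← prod_const,
                  ← Fintype.prod_ite_mem M]
                refine prod_le_prod (fun e _ => sum_nonneg fun g _ => by
                  unfold wt
                  split_ifs <;> positivity) fun e _ => ?_
                split_ifs
                · exact wsum hL z e
                · simp
              · exact (h2 h1.2.2.2).elim
              · positivity
              · rfl
          _ ≤ _ := by
            rw [sum_ite_mem, univ_inter, sum_const, nsmul_eq_mul]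
            gcongr
            simpa using cnt' (xinj N) (gp z) (univ.filter fun e => e.1 < e.2)
              fun e he => xlt.2 (mem_filter.1 he).2
    _ = _ := by
      rw [sum_ite_mem, univ_inter, sum_const, nsmul_eq_mul, Fintype.card_piFinset]
      simp only [apply_ite card, card_singleton, card_univ, Fintype.card_fin, prod_ite, prod_const_one,
        one_mul, prod_const, ← mem_compl, filter_mem_eq_inter, univ_inter, card_compl, hJ]
      push_cast
      rfl

lemma wit {n q : ℕ} [NeZero (3 * n)] [NeZero q] {L ε : ℝ} (hL : 0 < L) (c : Fin (3 * n) → Fin q)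
    (p : Fin (3 * n) → ℝ × ℝ) (hp : ∀ i, p i = (xx _ i, YY i (c i))) (σ : Fin (3 * n) ≃ Fin n × Fin 3)
    (h1 : ∀ i j : Fin n, i ≠ j → Disjoint (interior (convexHull ℝ
      ({p (σ.symm (i, 0)), p (σ.symm (i, 1)), p (σ.symm (i, 2))} : Set (ℝ × ℝ))))
      (interior (convexHull ℝ
        ({p (σ.symm (j, 0)), p (σ.symm (j, 1)), p (σ.symm (j, 2))} : Set (ℝ × ℝ)))))
    (h2 : ∑ i, |dt (p (σ.symm (i, 0))) (p (σ.symm (i, 1))) (p (σ.symm (i, 2)))| / 2 < ε) :
    ∃ d : Dat (3 * n) q, Real.exp (-(L * ε)) ≤ W n L d ∧ (∀ i ∉ d.1, d.2.1 i = c i) ∧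
      (∀ e ∈ d.2.2.1, (d.2.2.2 e).2 = c (d.2.2.2 e).1) ∧ ∀ i ∈ d.1, ∃ e ∈ d.2.2.1, (d.2.2.2 e).1 = i := by
  classical
  choose l m r lm mr hs ha using fun i : Fin n => srt p (a := σ.symm (i, 0)) (b := σ.symm (i, 1))
    (c := σ.symm (i, 2)) (by simp) (by simp) (by simp)
  have ow : ∀ i, ∀ k ∈ ({l i, m i, r i} : Set _), (σ k).1 = i := fun i k hk => by
    rw [hs] at hk
    rcases hk with rfl | rfl | rfl <;> simp
  have ol := fun i => ow i (l i) (by simp)
  have om := fun i => ow i (m i) (by simp)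
  have or := fun i => ow i (r i) (by simp)
  have inj : Function.Injective fun i => (l i, r i) := fun i j h => by
    rw [← ol i, (Prod.mk.inj h).1, ol]
  let z : Fin (3 * n) → Fin q := fun i => if i ∈ univ.image m then 0 else c i
  have zl : ∀ i, z (l i) = c (l i) := fun i => if_neg fun h => by
    obtain ⟨k, -, h⟩ := mem_image.1 h
    obtain rfl : k = i := by rw [← om k, h, ol]
    exact (lm k).ne' h
  have zr : ∀ i, z (r i) = c (r i) := fun i => if_neg fun h => by
    obtain ⟨k, -, h⟩ := mem_image.1 h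
    obtain rfl : k = i := by rw [← om k, h, or]
    exact (mr k).ne h
  refine ⟨(univ.image m, z, univ.image fun i => (l i, r i), fun e =>
    if e ∈ univ.image fun i => (l i, r i) then (m (σ e.1).1, c (m (σ e.1).1)) else 0), ?_,
    fun i hi => if_neg hi, fun e he => by simp only [if_pos he], fun i hi => ?_⟩
  swap
  · obtain ⟨k, -, rfl⟩ := mem_image.1 hi
    have := mem_image_of_mem (fun i => (l i, r i)) (mem_univ k)
    exact ⟨_, this, by simp only [if_pos this, ol]⟩
  rw [W, if_pos]
  · dsimp only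
    rw [prod_congr rfl fun e _ => show _ = if e ∈ univ.image fun i => (l i, r i) then
      wt L z e (m (σ e.1).1, c (m (σ e.1).1)) else 1 by
        by_cases h : e ∈ univ.image fun i => (l i, r i) <;> simp only [h, ↓reduceIte],
      Fintype.prod_ite_mem, prod_image fun i _ j _ h => inj h]
    simp only [wt, ol, lm, mr, and_self, ↓reduceIte, zl, zr, ← hp, ← ha, ← Real.exp_sum,
      sum_neg_distrib, ← mul_sum, Real.exp_le_exp, neg_le_neg_iff]
    exact mul_le_mul_of_nonneg_left h2.le hL.le
  refine ⟨by rw [card_image_of_injective _ fun i j h => by rw [← om i, h, om]]; simp,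
    fun i hi => if_pos hi, by rw [card_image_of_injective _ inj]; simp, ?_⟩
  simp only [NC, mem_filter, mem_powerset, forall_mem_image, mem_univ, forall_const]
  refine ⟨fun e he => ?_, fun i j h => ?_⟩
  · obtain ⟨k, -, rfl⟩ := mem_image.1 he
    simpa using (lm k).trans (mr k)
  have h : Cr (xx _) (fun i => YY i (c i)) (l i, r i) (l j, r j) := by
    simpa only [Cr, ln, sl, zl, zr] using h
  have im : ∀ i, ({p (σ.symm (i, 0)), p (σ.symm (i, 1)), p (σ.symm (i, 2))} : Set _) =
      {p (l i), p (m i), p (r i)} := fun i => by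
    simpa only [Set.image_insert_eq, Set.image_singleton] using (congrArg (p '' ·) (hs i)).symm
  refine meet (nd c (lm i) (mr i)) (nd c (lm j) (mr j)) h ?_
  simp only [← hp, ← im]
  exact h1 i j fun e => (h.ne (xlt.2 ((lm i).trans (mr i)))
    (xlt.2 ((lm j).trans (mr j)))).1 (by rw [e])

theorem result :
    ¬ (∀ ε : ℝ, 0 < ε → ∃ N : ℕ, ∀ n : ℕ, N ≤ n → 2 ≤ n →
      ∀ p : Fin (3 * n) → ℝ × ℝ, Function.Injective p →
        (∀ k, 0 ≤ (p k).1 ∧ (p k).1 ≤ 1 ∧ 0 ≤ (p k).2 ∧ (p k).2 ≤ 1) →
        ∃ σ : Fin (3 * n) ≃ Fin n × Fin 3,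
          (∀ i j : Fin n, i ≠ j →
            Disjoint
              (interior (convexHull ℝ
                ({p (σ.symm (i, 0)), p (σ.symm (i, 1)), p (σ.symm (i, 2))} : Set (ℝ × ℝ))))
              (interior (convexHull ℝ
                ({p (σ.symm (j, 0)), p (σ.symm (j, 1)), p (σ.symm (j, 2))} : Set (ℝ × ℝ))))) ∧
          (∑ i : Fin n,
            |((p (σ.symm (i, 1))).1 - (p (σ.symm (i, 0))).1) *
                ((p (σ.symm (i, 2))).2 - (p (σ.symm (i, 0))).2) -
              ((p (σ.symm (i, 2))).1 - (p (σ.symm (i, 0))).1) *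
                ((p (σ.symm (i, 1))).2 - (p (σ.symm (i, 0))).2)| / 2) < ε) := by
  intro h
  classical
  set ε : ℝ := Real.exp (-1351) / 208 with hε
  have ε0 : 0 < ε := by positivity
  obtain ⟨N, hN⟩ := h ε ε0
  obtain ⟨n, h1, h2⟩ : ∃ n, N ≤ n ∧ 2 ≤ n := ⟨N + 2, by omega, by omega⟩
  obtain ⟨q, hq⟩ := exists_nat_ge (6 * n / ε)
  have n0 : (0 : ℝ) < n := by positivity
  have q0 : (0 : ℝ) < q := lt_of_lt_of_le (by positivity) hq
  haveI : NeZero q := ⟨by exact_mod_cast q0.ne'⟩
  haveI : NeZero (3 * n) := ⟨by omega⟩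
  have L0 : 0 < n / ε := by positivity
  choose F f1 f2 f3 f4 using fun c : Fin (3 * n) → Fin q => (hN n h1 h2 (fun i => (xx _ i, YY i (c i)))
    (fun i j h => xinj _ (Prod.mk.inj h).1) fun k => by
      have a : (k : ℝ) + 1 ≤ (3 * n : ℕ) := by exact_mod_cast k.2
      have b : (c k : ℝ) + 1 ≤ q := by exact_mod_cast (c k).2
      have k0 : (0 : ℝ) ≤ k := by positivity
      have d : (k : ℝ) ^ 2 / ((3 * n : ℕ) : ℝ) ^ 3 ≤ 1 := (div_le_one (by positivity)).2
        ((pow_le_pow_left₀ k0 (by linarith) 2).trans (pow_le_pow_right₀ (by linarith) (by norm_num)))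
      simp only [xx, YY]
      exact ⟨by positivity, (div_le_one (by positivity)).2 (by linarith), by positivity,
        (div_le_one q0).2 (by linarith)⟩).elim fun σ hσ => wit L0 c _ (fun _ => rfl) σ hσ.1 hσ.2
  have inj : Function.Injective F := fun c c' h => funext fun i => by
    by_cases hi : i ∈ (F c).1
    · obtain ⟨e, he, rfl⟩ := f4 c i hi
      rw [← f3 c e he, h, f3 c' e (h ▸ he)]
    · rw [← f2 c i hi, h, f2 c' i (h ▸ hi)]
  have := (card_nsmul_le_sum univ _ _ fun c _ => f1 c).trans ((sum_image (f := W n (n / ε))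
    fun c _ c' _ h => inj h).symm.trans_le ((sum_le_sum_of_subset_of_nonneg (subset_univ _)
      fun d _ _ => W0 _ _ d).trans (tot n L0)))
  have b : (2 * (3 * n : ℕ) + 4 * (3 * n : ℕ) * q / (n / ε) : ℝ) ≤ 13 * ε * q := by
    rw [div_le_iff₀ ε0] at hq
    push_cast
    field_simp
    linarith
  have := this.trans (mul_le_mul_of_nonneg_left (mul_le_mul_of_nonneg_left (mul_le_mul_of_nonneg_left
    (pow_le_pow_left₀ (by positivity) b n) (by positivity)) (by positivity)) (by positivity))
  have e : (2 : ℝ) ^ (3 * n) * (q ^ (3 * n - n) * (Real.exp (450 * (3 * n : ℕ)) * (13 * ε * q) ^ n)) =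
      q ^ (3 * n) * Real.exp (-n) * (1 / 2) ^ n := by
    rw [show 3 * n - n = 2 * n by omega, show (450 * (3 * n : ℕ) : ℝ) = n * 1350 by push_cast; ring,
      show (-n : ℝ) = n * (-1) by ring, Real.exp_nat_mul, Real.exp_nat_mul]
    simp only [pow_mul, ← mul_pow]
    congr 1
    rw [hε, show Real.exp (-1) = Real.exp 1350 * Real.exp (-1351) by rw [← Real.exp_add]; norm_num]
    ring
  rw [e, div_mul_cancel₀ _ ε0.ne'] at this
  simp only [card_univ, Fintype.card_pi, Fintype.card_fin, prod_const, nsmul_eq_mul, Nat.cast_pow] at this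
  exact (this.trans_lt (mul_lt_of_lt_one_right (by positivity)
    (pow_lt_one₀ (by norm_num) (by norm_num) (by omega)))).false

end Pool.Agent.S10644
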