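import Pool.Statements.S10658

set_option autoImplicit false
open Pool Pool.MP_a8adbc_co

namespace Pool.Agent.S10658

/-- Vertices `0..34` are the triangles of `K_7`, vertices `35..55` its edges; the mask of a vertex
lists the triangles containing it.  Two vertices are adjacent when their masks are disjoint. -/
def MASK : List ℕ :=
  [1, 2, 4, 8, 16, 32, 64, 128, 256, 512, 1024, 2048, 4096, 8192, 16384, 32768, 65536, 131072,
   262144, 524288, 1048576, 2097152, 4194304, 8388608, 16777216, 33554432, 67108864, 134217728,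
   268435456, 536870912, 1073741824, 2147483648, 4294967296, 8589934592, 17179869184, 31, 481,
   3618, 12868, 21640, 26896, 491521, 3702786, 13172740, 22151176, 27525136, 234913824,
   838926400, 1409417344, 1745092864, 6476530176, 10805576704, 13021218816, 19599986688,
   22020104192, 26860339200]

def WT : List ℕ :=
  [298901431, 299732201, 299716174, 301611480, 300132419, 300297264, 298202371, 300773191,
   299934309, 301920961, 299281905, 300433002, 299883911, 299264734, 299914647, 299019160,
   298693028, 301507832, 300380571, 300871210, 298476138, 299338856, 300846905, 299939349,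
   300833246, 301245896, 299526338, 301029235, 299818239, 299550862, 301120273, 299674365,
   301396967, 297756502, 298975028, 99968765, 100630478, 99444889, 100337283, 99511622,
   100106963, 100499326, 100854145, 99977778, 98908133, 99791853, 99627369, 100829868, 99084709,
   99328250, 98296867, 101761584, 100015146, 100267184, 100291020, 100466768]

def mask (v : Fin 56) : ℕ := MASK.getD v.val 0
def wt (v : Fin 56) : ℕ := WT.getD v.val 0

def adj (u v : Fin 56) : Bool := u != v && (mask u &&& mask v == 0)

def G : SimpleGraph (Fin 56) where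
  Adj u v := adj u v = true
  symm := ⟨fun u v h => by
    simp only [adj, Bool.and_eq_true, bne_iff_ne, ne_eq, beq_iff_eq] at h ⊢
    exact ⟨fun e => h.1 e.symm, by rw [Nat.and_comm]; exact h.2⟩⟩
  loopless := ⟨fun u h => by simp [adj] at h⟩

theorem max_iff (H : SimpleGraph (Fin 56)) (S : Finset (Fin 56)) :
    Maximal (fun s : Finset (Fin 56) => H.IsIndepSet (s : Set (Fin 56))) S ↔
      (∀ u ∈ S, ∀ v ∈ S, ¬ H.Adj u v) ∧ ∀ v, v ∉ S → ∃ u ∈ S, H.Adj v u := by
  have ind : ∀ T : Finset (Fin 56), H.IsIndepSet (T : Set (Fin 56)) ↔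
      ∀ u ∈ T, ∀ v ∈ T, ¬ H.Adj u v := by
    intro T
    constructor
    · intro h u hu v hv ha
      exact h hu hv ha.ne ha
    · intro h u hu v hv _
      exact h u hu v hv
  constructor
  · rintro ⟨h1, h2⟩
    have h1' := (ind S).1 h1
    refine ⟨h1', fun v hv => ?_⟩
    by_contra hn
    have hn' : ∀ u ∈ S, ¬ H.Adj v u := fun u hu ha => hn ⟨u, hu, ha⟩
    have := h2 (y := insert v S) ((ind _).2 (by
      intro a ha b hb
      rw [Finset.mem_insert] at ha hb
      rcases ha with rfl | ha <;> rcases hb with rfl | hb
      · exact H.irrefl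
      · exact hn' b hb
      · exact fun h => hn' a ha h.symm
      · exact h1' a ha b hb)) (Finset.subset_insert v S)
    exact hv (this (Finset.mem_insert_self v S))
  · rintro ⟨h1, h2⟩
    refine ⟨(ind S).2 h1, fun T hT hST v hv => ?_⟩
    by_contra hn
    obtain ⟨u, hu, ha⟩ := h2 v hn
    exact (ind T).1 hT v hv u (hST hu) ha

def good (L : List (Fin 56)) : Bool :=
  (L.all fun u => L.all fun v => !adj u v) &&
    (List.finRange 56).all fun v => L.contains v || L.any fun u => adj v u

theorem good_iff (L : List (Fin 56)) : good L = true ↔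
    Maximal (fun s : Finset (Fin 56) => G.IsIndepSet (s : Set (Fin 56))) L.toFinset := by
  rw [max_iff]
  simp only [good, Bool.and_eq_true, List.all_eq_true, Bool.not_eq_true', List.mem_finRange,
    forall_true_left, Bool.or_eq_true, List.contains_iff_mem, List.any_eq_true,
    List.mem_toFinset, G, Bool.not_eq_true]
  constructor
  · rintro ⟨h1, h2⟩
    exact ⟨h1, fun v hv => (h2 v).resolve_left hv⟩
  · rintro ⟨h1, h2⟩
    refine ⟨h1, fun v => ?_⟩
    by_cases hv : v ∈ L
    · exact Or.inl hv
    · exact Or.inr (h2 v hv)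

def go : List (Fin 56) → ℕ → List (Fin 56) → Bool
  | [], r, acc => r != 0 || good acc
  | v :: l, r, acc =>
    if r < 98296867 then r != 0 || good acc
    else go l r acc && (decide (r < wt v) || go l (r - wt v) (v :: acc))

theorem wt_min : ∀ v, 98296867 ≤ wt v := by decide +kernel

theorem go_spec : ∀ (l : List (Fin 56)) (r : ℕ) (acc : List (Fin 56)), l.Nodup →
    go l r acc = true → ∀ S : Finset (Fin 56), (∀ v ∈ S, v ∈ l) → ∑ v ∈ S, wt v = r →
    Maximal (fun s : Finset (Fin 56) => G.IsIndepSet (s : Set (Fin 56))) (acc.toFinset ∪ S) := by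
  intro l
  induction l with
  | nil =>
    intro r acc _ h S hS hr
    have : S = ∅ := Finset.eq_empty_of_forall_notMem fun v hv => by simpa using hS v hv
    subst this
    rw [Finset.sum_empty] at hr
    subst hr
    rw [Finset.union_empty, ← good_iff]
    simpa [go] using h
  | cons v l ih =>
    intro r acc hnd h S hS hr
    rw [List.nodup_cons] at hnd
    unfold go at h
    split_ifs at h with hlt
    · have : S = ∅ := by
        refine Finset.eq_empty_of_forall_notMem fun u hu => ?_
        have h1 := Finset.single_le_sum (f := wt) (fun _ _ => Nat.zero_le _) hu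
        have h2 := wt_min u
        omega
      subst this
      rw [Finset.sum_empty] at hr
      subst hr
      rw [Finset.union_empty, ← good_iff]
      simpa using h
    · rw [Bool.and_eq_true, Bool.or_eq_true, decide_eq_true_eq] at h
      by_cases hv : v ∈ S
      · have hs := Finset.add_sum_erase S wt hv
        have h2 : go l (r - wt v) (v :: acc) = true := h.2.resolve_left (by omega)
        have := ih _ _ hnd.2 h2 (S.erase v) (fun u hu => by
          rw [Finset.mem_erase] at hu
          exact (List.mem_cons.1 (hS u hu.2)).resolve_left hu.1) (by omega)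
        have e : (v :: acc).toFinset ∪ S.erase v = acc.toFinset ∪ S := by
          ext u
          simp only [List.toFinset_cons, Finset.mem_union, Finset.mem_insert, List.mem_toFinset,
            Finset.mem_erase]
          by_cases hu : u = v
          · subst hu
            simp [hv]
          · simp [hu]
        rwa [e] at this
      · refine ih _ _ hnd.2 h.1 S (fun u hu => ?_) hr
        exact (List.mem_cons.1 (hS u hu)).resolve_left fun e => hv (e ▸ hu)

theorem go_run : go (List.finRange 56) 600000000 [] = true := by decide +kernel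

def go2 : List (Fin 56) → List (Fin 56) → Bool
  | [], acc => !good acc || (acc.map wt).sum == 600000000
  | v :: l, acc => go2 l acc && ((acc.any fun u => adj v u) || go2 l (v :: acc))

theorem go2_spec : ∀ (l acc : List (Fin 56)), (l ++ acc).Nodup → go2 l acc = true →
    ∀ S : Finset (Fin 56), (∀ v ∈ S, v ∈ l) →
    Maximal (fun s : Finset (Fin 56) => G.IsIndepSet (s : Set (Fin 56))) (acc.toFinset ∪ S) →
    ∑ v ∈ acc.toFinset ∪ S, wt v = 600000000 := by
  intro l
  induction l with
  | nil =>
    intro acc hnd h S hS hm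
    have : S = ∅ := Finset.eq_empty_of_forall_notMem fun v hv => by simpa using hS v hv
    subst this
    rw [Finset.union_empty] at hm ⊢
    rw [← good_iff] at hm
    rw [List.sum_toFinset _ (by simpa using hnd)]
    simpa [go2, hm] using h
  | cons v l ih =>
    intro acc hnd h S hS hm
    unfold go2 at h
    rw [Bool.and_eq_true, Bool.or_eq_true] at h
    have hnd2 : (l ++ v :: acc).Nodup := List.nodup_middle.2 hnd
    have hnd3 : (l ++ acc).Nodup := (List.nodup_cons.1 hnd).2
    by_cases hv : v ∈ S
    · have e : (v :: acc).toFinset ∪ S.erase v = acc.toFinset ∪ S := by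
        ext u
        simp only [List.toFinset_cons, Finset.mem_union, Finset.mem_insert, List.mem_toFinset,
          Finset.mem_erase]
        by_cases hu : u = v
        · subst hu
          simp [hv]
        · simp [hu]
      have h2 : go2 l (v :: acc) = true := by
        refine h.2.resolve_left fun h3 => ?_
        rw [List.any_eq_true] at h3
        obtain ⟨u, hu, ha⟩ := h3
        exact ((max_iff G _).1 hm).1 v (Finset.mem_union_right _ hv) u
          (Finset.mem_union_left _ (List.mem_toFinset.2 hu)) ha
      have := ih _ hnd2 h2 (S.erase v) (fun u hu => by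
          rw [Finset.mem_erase] at hu
          exact (List.mem_cons.1 (hS u hu.2)).resolve_left hu.1) (by rw [e]; exact hm)
      rwa [e] at this
    · refine ih _ hnd3 h.1 S (fun u hu => ?_) hm
      exact (List.mem_cons.1 (hS u hu)).resolve_left fun e => hv (e ▸ hu)

theorem go2_run : go2 (List.finRange 56) [] = true := by decide +kernel

theorem of_nat (H : SimpleGraph (Fin 56)) (a : Fin 56 → ℕ) (N : ℕ) (hN : 0 < N)
    (ha : ∀ v, 0 < a v)
    (h : ∀ S : Finset (Fin 56),
      (Maximal (fun s : Finset (Fin 56) => H.IsIndepSet (s : Set (Fin 56))) S ↔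
        ∑ v ∈ S, a v = N)) :
    ∃ φ : Fin 56 → ℝ, (∀ v, 0 < φ v) ∧ ∀ S : Finset (Fin 56),
      (Maximal (fun s : Finset (Fin 56) => H.IsIndepSet (s : Set (Fin 56))) S ↔
        ∑ v ∈ S, φ v = 1) := by
  have hN' : (0 : ℝ) < N := by exact_mod_cast hN
  refine ⟨fun v => (a v : ℝ) / N, fun v => div_pos (by exact_mod_cast ha v) hN', fun S => ?_⟩
  rw [h S, ← Finset.sum_div, div_eq_one_iff_eq hN'.ne', ← Nat.cast_sum, Nat.cast_inj]

theorem equiG : ∃ φ : Fin 56 → ℝ, (∀ v, 0 < φ v) ∧ ∀ S : Finset (Fin 56),
      (Maximal (fun s : Finset (Fin 56) => G.IsIndepSet (s : Set (Fin 56))) S ↔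
        ∑ v ∈ S, φ v = 1) := by
  refine of_nat G wt 600000000 (by norm_num) (fun v => lt_of_lt_of_le (by norm_num) (wt_min v))
    fun S => ⟨fun h => ?_, fun h => ?_⟩
  · have := go2_spec _ [] (by simpa using List.nodup_finRange 56) go2_run S
      (fun v _ => List.mem_finRange v) (by simpa using h)
    simpa using this
  · have := go_spec _ _ [] (List.nodup_finRange 56) go_run S (fun v _ => List.mem_finRange v) h
    simpa using this

theorem digits (B : ℕ) (hB : 1 < B) : ∀ (k : ℕ) (c : ℕ → ℕ), (∀ i, c i < B) →
    ∑ i ∈ Finset.range k, c i * B ^ i = ∑ i ∈ Finset.range k, B ^ i → ∀ i, i < k → c i = 1 := by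
  intro k
  induction k with
  | zero => intro c _ _ i hi; omega
  | succ k ih =>
    intro c hc h
    rw [Finset.sum_range_succ', Finset.sum_range_succ'] at h
    have e1 : ∑ i ∈ Finset.range k, c (i + 1) * B ^ (i + 1) =
        B * ∑ i ∈ Finset.range k, c (i + 1) * B ^ i := by
      rw [Finset.mul_sum]
      exact Finset.sum_congr rfl fun i _ => by ring
    have e2 : ∑ i ∈ Finset.range k, B ^ (i + 1) = B * ∑ i ∈ Finset.range k, B ^ i := by
      rw [Finset.mul_sum]
      exact Finset.sum_congr rfl fun i _ => by ring
    rw [e1, e2, pow_zero, mul_one] at h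
    have h0 : c 0 = 1 := by
      have := congrArg (· % B) h
      simp only [Nat.mul_add_mod] at this
      rwa [Nat.mod_eq_of_lt (hc 0), Nat.mod_eq_of_lt hB] at this
    rw [h0] at h
    have h1 := Nat.eq_of_mul_eq_mul_left (by omega : 0 < B) (Nat.add_right_cancel h)
    intro i hi
    cases i with
    | zero => exact h0
    | succ i => exact ih (fun j => c (j + 1)) (fun j => hc _) h1 i (by omega)

def wc (v : Fin 56) : ℕ :=
  ∑ i ∈ Finset.range 35, (if (mask v).testBit i = true then 1 else 0) * 57 ^ i

theorem mask_lt : ∀ v, mask v < 2 ^ 35 := by decide +kernel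

theorem mask_bit : ∀ v, ∃ i, i < 35 ∧ (mask v).testBit i = true := by decide +kernel

theorem mask_tri : ∀ i : Fin 56, i.val < 35 → mask i = 2 ^ i.val := by decide +kernel

theorem and_ne (u v : Fin 56) : mask u &&& mask v ≠ 0 ↔
    ∃ i, i < 35 ∧ (mask u).testBit i = true ∧ (mask v).testBit i = true := by
  constructor
  · intro h
    by_contra hn
    refine h (Nat.eq_of_testBit_eq fun i => ?_)
    rw [Nat.testBit_and, Nat.zero_testBit, ← Bool.not_eq_true, Bool.and_eq_true]
    rintro ⟨h1, h2⟩
    refine hn ⟨i, ?_, h1, h2⟩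
    by_contra hi
    have : mask u < 2 ^ i := lt_of_lt_of_le (mask_lt u) (Nat.pow_le_pow_right (by norm_num) (by omega))
    rw [Nat.testBit_lt_two_pow this] at h1
    exact absurd h1 (by decide)
  · rintro ⟨i, _, h1, h2⟩ h
    have := Nat.testBit_and (mask u) (mask v) i
    rw [h, Nat.zero_testBit, h1, h2] at this
    exact absurd this (by decide)

theorem cadj (u v : Fin 56) : Gᶜ.Adj u v ↔ u ≠ v ∧
    ∃ i, i < 35 ∧ (mask u).testBit i = true ∧ (mask v).testBit i = true := by
  rw [SimpleGraph.compl_adj, ← and_ne]
  simp only [G, adj, Bool.and_eq_true, bne_iff_ne, ne_eq, beq_iff_eq]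
  tauto

theorem equiC : ∃ φ : Fin 56 → ℝ, (∀ v, 0 < φ v) ∧ ∀ S : Finset (Fin 56),
      (Maximal (fun s : Finset (Fin 56) => Gᶜ.IsIndepSet (s : Set (Fin 56))) S ↔
        ∑ v ∈ S, φ v = 1) := by
  refine of_nat Gᶜ wc (∑ i ∈ Finset.range 35, 57 ^ i) (by decide +kernel) (by decide +kernel)
    fun S => ?_
  have e : ∑ v ∈ S, wc v = ∑ i ∈ Finset.range 35,
      (S.filter fun v => (mask v).testBit i = true).card * 57 ^ i := by
    unfold wc
    rw [Finset.sum_comm]
    refine Finset.sum_congr rfl fun i _ => ?_
    rw [← Finset.sum_mul, Finset.card_filter]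
  rw [e, max_iff]
  constructor
  · rintro ⟨h1, h2⟩
    refine Finset.sum_congr rfl fun i hi => ?_
    rw [Finset.mem_range] at hi
    have : (S.filter fun v => (mask v).testBit i = true).card = 1 := by
      have hw : (mask ⟨i, by omega⟩).testBit i = true := by
        rw [mask_tri ⟨i, by omega⟩ hi]
        exact Nat.testBit_two_pow_self
      have hex : ∃ u ∈ S, (mask u).testBit i = true := by
        by_cases hs : (⟨i, by omega⟩ : Fin 56) ∈ S
        · exact ⟨_, hs, hw⟩
        · obtain ⟨u, hu, ha⟩ := h2 _ hs
          obtain ⟨_, j, _, hj1, hj2⟩ := (cadj _ _).1 ha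
          rw [mask_tri ⟨i, by omega⟩ hi, Nat.testBit_two_pow, decide_eq_true_eq] at hj1
          exact ⟨u, hu, by rw [show i = j from hj1]; exact hj2⟩
      obtain ⟨u, hu, hb⟩ := hex
      rw [Finset.card_eq_one]
      refine ⟨u, Finset.eq_singleton_iff_unique_mem.2 ⟨Finset.mem_filter.2 ⟨hu, hb⟩, ?_⟩⟩
      intro v hv
      rw [Finset.mem_filter] at hv
      by_contra hne
      exact h1 v hv.1 u hu ((cadj _ _).2 ⟨hne, i, hi, hv.2, hb⟩)
    rw [this, one_mul]
  · intro h
    have hd := digits 57 (by norm_num) 35
      (fun i => (S.filter fun v => (mask v).testBit i = true).card)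
      (fun i => lt_of_le_of_lt (Finset.card_le_univ _) (by simp)) h
    constructor
    · intro u hu v hv ha
      obtain ⟨hne, i, hi, h1, h2⟩ := (cadj _ _).1 ha
      have := Finset.card_le_one.1 (hd i hi).le u (Finset.mem_filter.2 ⟨hu, h1⟩) v
        (Finset.mem_filter.2 ⟨hv, h2⟩)
      exact hne this
    · intro v hv
      obtain ⟨i, hi, h1⟩ := mask_bit v
      obtain ⟨u, hu⟩ := Finset.card_pos.1 (lt_of_lt_of_eq Nat.one_pos (hd i hi).symm)
      rw [Finset.mem_filter] at hu
      exact ⟨u, hu.1, (cadj _ _).2 ⟨fun e => hv (e ▸ hu.1), i, hi, h1, hu.2⟩⟩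

def star : Fin 7 → List (Fin 56) :=
  ![[35, 36, 37, 38, 39, 40], [35, 41, 42, 43, 44, 45], [36, 41, 46, 47, 48, 49],
    [37, 42, 46, 50, 51, 52], [38, 43, 47, 50, 53, 54], [39, 44, 48, 51, 53, 55],
    [40, 45, 49, 52, 54, 55]]

theorem star_good : ∀ i, good (star i) = true := by decide +kernel

def cp (u v : Fin 56) : Bool := u == v || adj u v

theorem noMatch : ((star 0).all fun a => (star 1).all fun b => !cp a b ||
    (star 2).all fun c => !(cp a c && cp b c) ||
    (star 3).all fun d => !(cp a d && cp b d && cp c d) ||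
    (star 4).all fun e => !(cp a e && cp b e && cp c e && cp d e) ||
    (star 5).all fun f => !(cp a f && cp b f && cp c f && cp d f && cp e f) ||
    (star 6).all fun g => !(cp a g && cp b g && cp c g && cp d g && cp e g && cp f g)) = true := by
  decide +kernel

theorem notGP : ¬ ∃ n : ℕ, ∃ U : Fin 56 → Finset (Fin n),
          (∀ v, (U v).Nonempty) ∧
          (∀ u v, u ≠ v → (G.Adj u v ↔ ¬ Disjoint (U u) (U v))) ∧
          ∀ S : Finset (Fin 56),
            Maximal (fun s : Finset (Fin 56) => G.IsIndepSet (s : Set (Fin 56))) S →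
            (∀ u ∈ S, ∀ v ∈ S, u ≠ v → Disjoint (U u) (U v)) ∧
            S.biUnion U = Finset.univ := by
  rintro ⟨n, U, h1, h2, h3⟩
  obtain ⟨x, -⟩ := h1 0
  have hex : ∀ i, ∃ v ∈ star i, x ∈ U v := by
    intro i
    have := (h3 _ ((good_iff _).1 (star_good i))).2
    have hx : x ∈ (star i).toFinset.biUnion U := by
      rw [this]
      exact Finset.mem_univ x
    obtain ⟨v, hv, hxv⟩ := Finset.mem_biUnion.1 hx
    exact ⟨v, List.mem_toFinset.1 hv, hxv⟩
  choose e he hx using hex
  have hc : ∀ i j, cp (e i) (e j) = true := by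
    intro i j
    unfold cp
    rw [Bool.or_eq_true, beq_iff_eq]
    by_cases h : e i = e j
    · exact Or.inl h
    · exact Or.inr ((h2 _ _ h).2 fun hd => Finset.disjoint_left.1 hd (hx i) (hx j))
  have h := noMatch
  rw [List.all_eq_true] at h
  have h := h _ (he 0)
  rw [List.all_eq_true] at h
  have h := h _ (he 1)
  rw [hc, Bool.not_true, Bool.false_or, List.all_eq_true] at h
  have h := h _ (he 2)
  simp only [hc, Bool.and_self, Bool.not_true, Bool.false_or] at h
  rw [List.all_eq_true] at h
  have h := h _ (he 3)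
  simp only [hc, Bool.and_self, Bool.not_true, Bool.false_or] at h
  rw [List.all_eq_true] at h
  have h := h _ (he 4)
  simp only [hc, Bool.and_self, Bool.not_true, Bool.false_or] at h
  rw [List.all_eq_true] at h
  have h := h _ (he 5)
  simp only [hc, Bool.and_self, Bool.not_true, Bool.false_or] at h
  rw [List.all_eq_true] at h
  have h := h _ (he 6)
  simp only [hc, Bool.and_self, Bool.not_true] at h
  exact absurd h (by decide)

/-- The negation of the preceding statement: For every finite simple graph G: if G and its complement are both equistable, then G and its complement are both general partition graphs. -/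
theorem result :
    ¬ (∀ (V : Type) [Fintype V] (G : SimpleGraph V),
      (∀ H : SimpleGraph V, (H = G ∨ H = Gᶜ) →
        ∃ φ : V → ℝ, (∀ v, 0 < φ v) ∧
          ∀ S : Finset V,
            (Maximal (fun s : Finset V => H.IsIndepSet (s : Set V)) S ↔ ∑ v ∈ S, φ v = 1)) →
      (∀ H : SimpleGraph V, (H = G ∨ H = Gᶜ) →
        ∃ n : ℕ, ∃ U : V → Finset (Fin n),
          (∀ v, (U v).Nonempty) ∧
          (∀ u v, u ≠ v → (H.Adj u v ↔ ¬ Disjoint (U u) (U v))) ∧
          ∀ S : Finset V, Maximal (fun s : Finset V => H.IsIndepSet (s : Set V)) S →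
            (∀ u ∈ S, ∀ v ∈ S, u ≠ v → Disjoint (U u) (U v)) ∧
            S.biUnion U = Finset.univ)) := by
  intro h
  refine notGP (h (Fin 56) G ?_ G (Or.inl rfl))
  rintro H (rfl | rfl)
  · exact equiG
  · exact equiC

end Pool.Agent.S10658
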