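import Pool.Statements.S10670

set_option autoImplicit false
open Pool Pool.MP_a94970_co

namespace Pool.Agent.S10670

def masks : List ℕ := [255, 252, 250, 249, 246, 245, 243, 238, 237, 235, 231, 222, 221, 219, 215, 207, 192, 190, 189, 187, 183, 175, 160, 159, 144, 136, 132, 130, 129, 128, 128, 128, 128, 128, 126, 125, 123, 119, 111, 96, 95, 80, 72, 68, 66, 65, 64, 64, 64, 64, 64, 63, 48, 40, 36, 34, 33, 32, 32, 32, 32, 32, 24, 20, 18, 17, 16, 16, 16, 16, 16, 12, 10, 9, 8, 8, 8, 8, 8, 6, 5, 4, 4, 4, 4, 4, 3, 2, 2, 2, 2, 2, 1, 1, 1, 1, 1]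

def A (i : Fin 97) (l : Fin 8) : Bool := (masks.getD i.val 0).testBit l.val

abbrev V := Fin 8 ⊕ (Fin 97 × Bool)

def adj : V → V → Prop
  | Sum.inl _, Sum.inl _ => False
  | Sum.inl l, Sum.inr p => p.2 = false ∧ A p.1 l = true
  | Sum.inr p, Sum.inl l => p.2 = false ∧ A p.1 l = true
  | Sum.inr p, Sum.inr q => p.1 = q.1 ∧ p.2 ≠ q.2

def G : SimpleGraph V where
  Adj := adj
  symm := ⟨by
    rintro (a | a) (b | b) h
    · exact h
    · exact h
    · exact h
    · exact ⟨h.1.symm, h.2.symm⟩⟩
  loopless := ⟨by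
    rintro (a | a) h
    · exact h
    · exact h.2 rfl⟩

theorem A_zero : ∀ l, A 0 l = true := by decide +kernel

theorem A_ne : ∀ i, ∃ l, A i l = true := by decide +kernel

theorem conn : G.Connected := by
  have h0 : ∀ l, G.Reachable (Sum.inr (0, false)) (Sum.inl l) := fun l =>
    SimpleGraph.Adj.reachable (show adj (Sum.inr (0, false)) (Sum.inl l) from ⟨rfl, A_zero l⟩)
  have h1 : ∀ i, G.Reachable (Sum.inr (0, false)) (Sum.inr (i, false)) := by
    intro i
    obtain ⟨l, hl⟩ := A_ne i
    exact (h0 l).trans (SimpleGraph.Adj.reachable (show adj (Sum.inl l) (Sum.inr (i, false)) from ⟨rfl, hl⟩))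
  have h2 : ∀ v, G.Reachable (Sum.inr (0, false)) v := by
    rintro (l | ⟨i, b⟩)
    · exact h0 l
    · cases b
      · exact h1 i
      · exact (h1 i).trans (SimpleGraph.Adj.reachable 
        (show adj (Sum.inr (i, false)) (Sum.inr (i, true)) from ⟨rfl, by simp⟩))
  exact ⟨fun u v => (h2 u).symm.trans (h2 v)⟩

def cnt (s : Fin 8 → Bool) (i : Fin 97) : ℕ := ∑ l, if A i l = true ∧ s l = true then 1 else 0

theorem check : ∀ s0 s1 s2 s3 s4 s5 s6 s7 : Bool,
    4 * 202 < 5 * ((∑ l, if ![s0, s1, s2, s3, s4, s5, s6, s7] l = true then 2 else 0) +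
      ∑ i, if cnt ![s0, s1, s2, s3, s4, s5, s6, s7] i = 1 then 1 else 2) := by
  decide +kernel

theorem check' (s : Fin 8 → Bool) :
    4 * 202 < 5 * ((∑ l, if s l = true then 2 else 0) + ∑ i, if cnt s i = 1 then 1 else 2) := by
  have : s = ![s 0, s 1, s 2, s 3, s 4, s 5, s 6, s 7] := by
    funext l; fin_cases l <;> rfl
  rw [this]
  exact check _ _ _ _ _ _ _ _

theorem result :
    ¬ (∀ (V : Type) [Fintype V] (G : SimpleGraph V),
      G.Connected → 3 ≤ Fintype.card V →
      ∃ f : V → ℕ, (∀ v, f v ≤ 2) ∧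
        (∀ v, f v = 0 → ∃! u, G.Adj v u ∧ f u = 2) ∧
        5 * (∑ v, f v) ≤ 4 * Fintype.card V) := by
  intro h
  have hc : Fintype.card V = 202 := by simp
  obtain ⟨f, hf2, hf0, hsum⟩ := h V G conn (by rw [hc]; norm_num)
  rw [hc, Fintype.sum_sum_type, Fintype.sum_prod_type] at hsum
  have key := check' (fun l => decide (f (Sum.inl l) = 2))
  have h1 : (∑ l, if decide (f (Sum.inl l) = 2) = true then 2 else 0) ≤ ∑ l, f (Sum.inl l) := by
    apply Finset.sum_le_sum
    intro l _
    split_ifs with hl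
    · simp at hl; omega
    · omega
  have h2 : (∑ i, if cnt (fun l => decide (f (Sum.inl l) = 2)) i = 1 then 1 else 2) ≤
      ∑ i, ∑ b, f (Sum.inr (i, b)) := by
    apply Finset.sum_le_sum
    intro i _
    rw [Fintype.sum_bool]
    have hy : f (Sum.inr (i, true)) = 0 → f (Sum.inr (i, false)) = 2 := by
      intro h0
      obtain ⟨u, ⟨hu, hu2⟩, -⟩ := hf0 _ h0
      rcases u with l | ⟨j, b⟩
      · exact absurd hu.1 (by simp)
      · obtain ⟨h1, h2⟩ := hu
        simp only at h1 h2
        subst h1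
        cases b
        · exact hu2
        · exact absurd rfl h2
    have hx : f (Sum.inr (i, false)) = 0 → f (Sum.inr (i, true)) ≠ 2 →
        cnt (fun l => decide (f (Sum.inl l) = 2)) i = 1 := by
      intro h0 hne
      obtain ⟨u, ⟨hu, hu2⟩, huniq⟩ := hf0 _ h0
      rcases u with l | ⟨j, b⟩
      · unfold cnt
        rw [Finset.sum_eq_single l]
        · simp [hu.2, hu2]
        · intro l' _ hl'
          rw [if_neg]
          rintro ⟨h1, h2⟩
          have := huniq (Sum.inl l') ⟨⟨rfl, h1⟩, by simpa using h2⟩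
          exact hl' (Sum.inl_injective this)
        · simp
      · obtain ⟨h1, h2⟩ := hu
        simp only at h1 h2
        subst h1
        cases b
        · exact absurd rfl h2
        · exact absurd hu2 hne
    split_ifs with hcnt
    · by_contra hh
      have := hy (by omega)
      omega
    · by_contra hh
      by_cases h0 : f (Sum.inr (i, true)) = 0
      · have := hy h0
        omega
      · exact hcnt (hx (by omega) (by omega))
  omega

end Pool.Agent.S10670
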