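import Pool.Statements.S10693

set_option autoImplicit false
open Pool Pool.MP_aa6e80_co

namespace Pool.Agent.S10693

/-- number of descents of a list -/
def des {α : Type} [LinearOrder α] : List α → ℕ
  | [] => 0
  | [_] => 0
  | a :: b :: l => (if b < a then 1 else 0) + des (b :: l)

/-- the one-step operator -/
def T (m : ℕ) (x : ℕ → ℝ) (k : ℕ) : ℝ := ((k : ℝ) + 1) * x k + ((m : ℝ) - k) * x (k + 1)

theorem des_le {α : Type} [LinearOrder α] : ∀ l : List α, des l ≤ l.length
  | [] => by simp [des]
  | [_] => by simp [des]
  | a :: b :: l => by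
      have := des_le (b :: l)
      simp only [des, List.length_cons] at this ⊢
      split_ifs <;> omega

theorem aux1 {α : Type} [LinearOrder α] (t : α) :
    ∀ (l : List α) (a : α) (x : ℕ → ℝ), t < a → (∀ b ∈ l, t < b) →
      ((List.permutations'Aux t l).map (fun p => x (des (a :: p)))).sum
        = (des (a :: l) : ℝ) * x (des (a :: l))
          + ((l.length : ℝ) + 1 - des (a :: l)) * x (des (a :: l) + 1)
  | [], a, x, ha, _ => by simp [List.permutations'Aux, des, ha]
  | b :: l, a, x, ha, hl => by
      have hb : t < b := hl b (by simp)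
      have hb' : ¬ b < t := not_lt.mpr hb.le
      have ih := aux1 t l b (fun k => x ((if b < a then 1 else 0) + k)) hb
        (fun c hc => hl c (by simp [hc]))
      simp only [List.permutations'Aux, List.map_cons, List.sum_cons, List.map_map]
      have e : ((fun p => x (des (a :: p))) ∘ List.cons b)
          = fun p => x ((if b < a then 1 else 0) + des (b :: p)) := by
        funext p; simp [des]
      rw [e, ih]
      by_cases h : b < a
      · simp only [des, ha, hb', h, if_true, if_false, List.length_cons, zero_add]
        push_cast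
        rw [show 1 + (des (b :: l) + 1) = 1 + des (b :: l) + 1 by ring]
        ring
      · simp only [des, ha, hb', h, if_true, if_false, List.length_cons, zero_add]
        push_cast
        rw [add_comm 1 (des (b :: l))]
        ring

theorem aux2 {α : Type} [LinearOrder α] (t : α) (l : List α) (x : ℕ → ℝ)
    (hl : ∀ b ∈ l, t < b) :
    ((List.permutations'Aux t l).map (fun p => x (des p))).sum = T l.length x (des l) := by
  cases l with
  | nil => simp [List.permutations'Aux, des, T]
  | cons a l =>
    have ha : t < a := hl a (by simp)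
    have h1 := aux1 t l a x ha (fun c hc => hl c (by simp [hc]))
    simp only [List.permutations'Aux, List.map_cons, List.sum_cons, List.map_map]
    have e : ((fun p => x (des p)) ∘ List.cons a) = fun p => x (des (a :: p)) := by
      funext p; simp
    rw [e, h1]
    have ha' : ¬ a < t := not_lt.mpr ha.le
    simp only [des, ha', if_false, zero_add, T, List.length_cons]
    push_cast
    ring

/-- the recursively defined value -/
def E : ℕ → (ℕ → ℝ) → ℝ
  | 0, x => x 0
  | n + 1, x => E n (T n x)

theorem sum_flatMap {α β : Type} (L : List α) (f : α → List β) (g : β → ℝ) :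
    ((L.flatMap f).map g).sum = (L.map (fun a => ((f a).map g).sum)).sum := by
  induction L with
  | nil => simp
  | cons a L ih => simp [List.flatMap_cons, ih]

theorem aux3 {α : Type} [LinearOrder α] :
    ∀ (l : List α) (x : ℕ → ℝ), l.Pairwise (· < ·) →
      ((List.permutations' l).map (fun p => x (des p))).sum = E l.length x
  | [], x, _ => by simp [des, E]
  | t :: l, x, h => by
      rw [List.pairwise_cons] at h
      have ih := aux3 l (T l.length x) h.2
      simp only [List.permutations', List.length_cons, E]
      rw [sum_flatMap, ← ih]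
      congr 1
      apply List.map_congr_left
      intro p hp
      have hp' : p.Perm l := List.mem_permutations'.mp hp
      rw [aux2 t p x (fun b hb => h.1 b (hp'.mem_iff.mp hb)), hp'.length_eq]

theorem card_eq_des {α : Type} [LinearOrder α] : ∀ (n : ℕ) (f : Fin n → α),
    ((Finset.univ : Finset (Fin n × Fin n)).filter
      (fun p => p.2.val = p.1.val + 1 ∧ f p.2 < f p.1)).card = des (List.ofFn f)
  | 0, f => by simp [des]
  | 1, f => by
      simp only [List.ofFn_succ, List.ofFn_zero, des, Finset.card_eq_zero]
      apply Finset.filter_eq_empty_iff.mpr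
      rintro ⟨a, b⟩ _ h
      have := b.2
      omega
  | n + 2, f => by
      have ih := card_eq_des (n + 1) (fun i => f i.succ)
      rw [Finset.card_filter, Fintype.sum_prod_type] at ih ⊢
      rw [List.ofFn_succ, List.ofFn_succ, des, ← List.ofFn_succ (f := fun i => f i.succ), ← ih]
      rw [Fin.sum_univ_succ]
      congr 1
      · rw [Fin.sum_univ_succ, Fin.sum_univ_succ]
        simp
      · apply Finset.sum_congr rfl
        intro i _
        rw [Fin.sum_univ_succ]
        simp

theorem sum_perm (n : ℕ) (x : ℕ → ℝ) :
    ∑ σ : Equiv.Perm (Fin n), x (des (List.ofFn σ)) = E n x := by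
  have h1 := aux3 (List.finRange n) x (List.pairwise_lt_finRange n)
  rw [List.length_finRange] at h1
  have hnd : (List.permutations' (List.finRange n)).Nodup :=
    (List.permutations_perm_permutations' _).nodup_iff.mp
      (List.nodup_permutations _ (List.nodup_finRange n))
  rw [← h1, ← List.sum_toFinset _ hnd]
  apply Finset.sum_bij (fun (σ : Equiv.Perm (Fin n)) _ => List.ofFn (σ : Fin n → Fin n))
  · intro σ _
    rw [List.mem_toFinset, List.mem_permutations']
    have := Equiv.Perm.ofFn_comp_perm σ (fun i : Fin n => i)
    simpa [List.ofFn_id, List.finRange, Function.comp_def] using this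
  · intro σ _ τ _ h
    ext i
    have := List.ofFn_injective h
    rw [congrFun this i]
  · intro p hp
    rw [List.mem_toFinset, List.mem_permutations'] at hp
    have hlen : p.length = n := by rw [hp.length_eq, List.length_finRange]
    have hnd' : p.Nodup := hp.nodup_iff.mpr (List.nodup_finRange n)
    let f : Fin n → Fin n := fun i => p.get (Fin.cast hlen.symm i)
    have hf : Function.Injective f := by
      intro i j hij
      have := (List.nodup_iff_injective_get.mp hnd') hij
      simpa using this
    refine ⟨Equiv.ofBijective f (Finite.injective_iff_bijective.mp hf), Finset.mem_univ _, ?_⟩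
    apply List.ext_get
    · simp [hlen]
    · intro i h1 h2
      simp [f]
  · intro σ _
    rfl

theorem result :
    ∀ x : ℕ → ℝ, (∀ n, 0 ≤ x n) → (∀ k, x (k + 1) ^ 2 ≤ x k * x (k + 2)) →
      ∀ z : ℕ → ℝ,
        (∀ n, z n = ∑ k ∈ Finset.range (n + 1),
          (((Finset.univ : Finset (Equiv.Perm (Fin n))).filter
            (fun σ => ((Finset.univ : Finset (Fin n × Fin n)).filter
              (fun p => p.2.val = p.1.val + 1 ∧ σ p.2 < σ p.1)).card = k)).card : ℝ) * x k) →
        ∀ n, z (n + 1) ^ 2 ≤ z n * z (n + 2) := by
  intro x hx hlc z hz n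
  have hzE : ∀ m, z m = E m x := by
    intro m
    rw [hz m, ← sum_perm]
    simp only [card_eq_des]
    rw [← Finset.sum_fiberwise_of_maps_to (s := Finset.univ) (t := Finset.range (m + 1))
      (g := fun σ : Equiv.Perm (Fin m) => des (List.ofFn σ))]
    · apply Finset.sum_congr rfl
      intro k _
      rw [Finset.sum_congr rfl (g := fun _ => x k)]
      · simp
      · intro σ hσ
        rw [(Finset.mem_filter.mp hσ).2]
    · intro σ _
      have := des_le (List.ofFn σ)
      simp only [List.length_ofFn] at this
      simp only [Finset.mem_range]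
      omega
  rw [hzE, hzE, hzE]
  simp only [E]
  rw [← sum_perm, ← sum_perm, ← sum_perm]
  have key : ∀ k : ℕ, k ≤ n → 0 ≤ T n (T (n + 1) x) k ∧
      (T n x k) ^ 2 ≤ x k * T n (T (n + 1) x) k := by
    intro k hk
    have hk' : (0 : ℝ) ≤ (n : ℝ) - k := by
      have : (k : ℝ) ≤ n := by exact_mod_cast hk
      linarith
    have h0 := hx k
    have h1 := hx (k + 1)
    have h2 := hx (k + 2)
    have h3 := hlc k
    have hk0 : (0 : ℝ) ≤ k := Nat.cast_nonneg k
    have hn0 : (0 : ℝ) ≤ n := Nat.cast_nonneg n
    simp only [T]
    push_cast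
    rw [show k + 1 + 1 = k + 2 from rfl]
    constructor
    · have e1 : (0 : ℝ) ≤ (n : ℝ) + 1 - k := by linarith
      have e2 : (0 : ℝ) ≤ (n : ℝ) + 1 - (k + 1) := by linarith
      positivity
    · have e : x k * (((k : ℝ) + 1) * (((k : ℝ) + 1) * x k + ((n : ℝ) + 1 - k) * x (k + 1)) +
          ((n : ℝ) - k) * (((k : ℝ) + 1 + 1) * x (k + 1) + ((n : ℝ) + 1 - (k + 1)) * x (k + 2)))
          - (((k : ℝ) + 1) * x k + ((n : ℝ) - k) * x (k + 1)) ^ 2
          = ((n : ℝ) + 1) * (x k * x (k + 1))
            + ((n : ℝ) - k) ^ 2 * (x k * x (k + 2) - x (k + 1) ^ 2) := by ring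
      have e3 : 0 ≤ x k * x (k + 2) - x (k + 1) ^ 2 := by linarith
      have e4 : 0 ≤ ((n : ℝ) + 1) * (x k * x (k + 1))
            + ((n : ℝ) - k) ^ 2 * (x k * x (k + 2) - x (k + 1) ^ 2) := by positivity
      linarith
  have hd : ∀ σ : Equiv.Perm (Fin n), des (List.ofFn σ) ≤ n := by
    intro σ
    have := des_le (List.ofFn σ)
    simpa using this
  exact Finset.sum_sq_le_sum_mul_sum_of_sq_le_mul _ (fun σ _ => hx _)
    (fun σ _ => (key _ (hd σ)).1) (fun σ _ => (key _ (hd σ)).2)

end Pool.Agent.S10693
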