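import Pool.Statements.S10726

set_option autoImplicit false
open Pool Pool.MP_abcac9_co

namespace Pool.Agent.S10726

def A : List ℕ := [258, 20481, 8960, 17920, 3328, 6656, 13312, 26624, 21, 44, 88, 176, 98, 196, 138]
def had (a b : Fin 15) : Bool := (A.getD a.val 0).testBit b.val
def n1 : Fin 15 → Fin 15 := ![1, 0, 8, 9, 8, 9, 10, 11, 0, 2, 3, 4, 1, 2, 1]
def n2 : Fin 15 → Fin 15 := ![8, 12, 9, 10, 10, 11, 12, 13, 2, 3, 4, 5, 5, 6, 3]
def n3 : Fin 15 → Fin 15 := ![8, 14, 13, 14, 11, 12, 13, 14, 4, 5, 6, 7, 6, 7, 7]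
def par : Fin 15 → Fin 15 := ![0, 0, 8, 14, 8, 12, 12, 14, 0, 2, 4, 4, 1, 2, 1]
def rk : Fin 15 → ℕ := ![0, 1, 2, 3, 2, 3, 3, 3, 1, 3, 3, 3, 2, 3, 2]

theorem had_symm : ∀ a b, had a b = true → had b a = true := by decide +kernel
theorem had_irr : ∀ a, ¬ had a a = true := by decide +kernel
theorem had_n : ∀ a b, had a b = true → b = n1 a ∨ b = n2 a ∨ b = n3 a := by decide +kernel
theorem had_0 : ∀ b, had 0 b = true → b = 1 ∨ b = 8 := by decide +kernel
theorem had_d : ∀ a, a ≠ 0 → had a (n1 a) = true ∧ had a (n2 a) = true ∧ had a (n3 a) = true ∧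
    n1 a ≠ n2 a ∧ n1 a ≠ n3 a ∧ n2 a ≠ n3 a := by decide +kernel
theorem had_p : ∀ a, a ≠ 0 → had (par a) a = true ∧ rk (par a) < rk a := by decide +kernel

def maj (x y z : Bool) : Bool := (x && y) || (x && z) || (y && z)

theorem loc : ∀ e s0 s1 s2 s3 s4 s5 s6 s7 s8 s9 s10 s11 s12 s13 s14 : Bool,
    maj e s1 s8 = true → maj s0 s12 s14 = true → maj s8 s9 s13 = true → maj s9 s10 s14 = true → maj s8 s10 s11 = true → maj s9 s11 s12 = true → maj s10 s12 s13 = true → maj s11 s13 s14 = true → maj s0 s2 s4 = true → maj s2 s3 s5 = true → maj s3 s4 s6 = true → maj s4 s5 s7 = true → maj s1 s5 s6 = true → maj s2 s6 s7 = true → maj s1 s3 s7 = true →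
    12 ≤ s0.toNat + s1.toNat + s2.toNat + s3.toNat + s4.toNat + s5.toNat + s6.toNat + s7.toNat + s8.toNat + s9.toNat + s10.toNat + s11.toNat + s12.toNat + s13.toNat + s14.toNat ∧
    (e = false → s0 = true → 13 ≤ s0.toNat + s1.toNat + s2.toNat + s3.toNat + s4.toNat + s5.toNat + s6.toNat + s7.toNat + s8.toNat + s9.toNat + s10.toNat + s11.toNat + s12.toNat + s13.toNat + s14.toNat) := by
  decide +kernel

/-- A centre joined to the subdividing vertex of each of `r` copies of the Heawood graph with one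
edge subdivided. -/
def adj (r : ℕ) : Option (Fin r × Fin 15) → Option (Fin r × Fin 15) → Prop
  | none, none => False
  | none, some p => p.2 = 0
  | some p, none => p.2 = 0
  | some p, some q => p.1 = q.1 ∧ had p.2 q.2 = true

def G (r : ℕ) : SimpleGraph (Option (Fin r × Fin 15)) where
  Adj := adj r
  symm := ⟨by
    rintro (_ | p) (_ | q) h
    · exact h
    · exact h
    · exact h
    · exact ⟨h.1.symm, had_symm _ _ h.2⟩⟩
  loopless := ⟨by
    rintro (_ | p) h
    · exact h
    · exact had_irr _ h.2⟩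

theorem conn (r : ℕ) : (G r).Connected := by
  have key : ∀ (i : Fin r) (k : ℕ) (a : Fin 15), rk a < k → (G r).Reachable none (some (i, a)) := by
    intro i k
    induction k with
    | zero => intro a h; omega
    | succ k ih =>
      intro a h
      by_cases h0 : a = 0
      · exact SimpleGraph.Adj.reachable (G := G r) (show adj r none (some (i, a)) from h0)
      · obtain ⟨h1, h2⟩ := had_p a h0
        exact (ih (par a) (by omega)).trans
          (SimpleGraph.Adj.reachable (G := G r)
            (show adj r (some (i, par a)) (some (i, a)) from ⟨rfl, h1⟩))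
  have key2 : ∀ v, (G r).Reachable none v := by
    rintro (_ | ⟨i, a⟩)
    · rfl
    · exact key i _ a (Nat.lt_succ_self _)
  exact ⟨fun u v => (key2 u).symm.trans (key2 v)⟩

theorem two {V : Type} [DecidableEq V] (S : Finset V) (P : V → Prop) [DecidablePred P] (x y z : V)
    (h : ∀ u, P u → u = x ∨ u = y ∨ u = z) (h2 : 2 ≤ (S.filter P).card) :
    maj (decide (x ∈ S)) (decide (y ∈ S)) (decide (z ∈ S)) = true := by
  obtain ⟨a, ha, b, hb, hab⟩ := Finset.one_lt_card.mp h2
  rw [Finset.mem_filter] at ha hb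
  rcases h a ha.2 with rfl | rfl | rfl <;> rcases h b hb.2 with rfl | rfl | rfl <;>
    first | exact absurd rfl hab | simp [maj, ha.1, hb.1]

/-- The negation of the preceding statement: For some N, every connected finite graph on n ≥ N vertices with minimum degree at least 3 has a vertex set S of size at most 4n/5 such that every vertex has at least two neighbours in S. -/
theorem result :
    ¬ (∃ N : ℕ, ∀ (V : Type) [Fintype V] [DecidableEq V] (G : SimpleGraph V) [DecidableRel G.Adj],
      N ≤ Fintype.card V → G.Connected → (∀ v : V, 3 ≤ G.degree v) →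
        ∃ S : Finset V, (∀ v : V, 2 ≤ (S.filter (fun u => G.Adj v u)).card) ∧
          5 * S.card ≤ 4 * Fintype.card V) := by
  classical
  rintro ⟨N, hN⟩
  set r := N + 3 with hr
  have hc : Fintype.card (Option (Fin r × Fin 15)) = 15 * r + 1 := by
    simp [Fintype.card_option, mul_comm]
  have hdeg : ∀ v, 3 ≤ (G r).degree v := by
    intro v
    rw [← SimpleGraph.card_neighborFinset_eq_degree]
    refine Finset.two_lt_card_iff.mpr ?_
    simp only [SimpleGraph.mem_neighborFinset]
    rcases v with _ | ⟨i, a⟩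
    · refine ⟨some (⟨0, by omega⟩, 0), some (⟨1, by omega⟩, 0), some (⟨2, by omega⟩, 0),
        rfl, rfl, rfl, by simp, by simp, by simp⟩
    · by_cases h0 : a = 0
      · subst h0
        exact ⟨none, some (i, 1), some (i, 8), rfl,
          ⟨rfl, (by decide : had 0 1 = true)⟩, ⟨rfl, (by decide : had 0 8 = true)⟩, by simp,
          by simp, by simp⟩
      · obtain ⟨h1, h2, h3, h4, h5, h6⟩ := had_d a h0
        exact ⟨some (i, n1 a), some (i, n2 a), some (i, n3 a), ⟨rfl, h1⟩, ⟨rfl, h2⟩, ⟨rfl, h3⟩,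
          by simpa using h4, by simpa using h5, by simpa using h6⟩
  obtain ⟨S, hS, hcard⟩ := hN (Option (Fin r × Fin 15)) (G r) (by omega) (conn r) hdeg
  let c : Fin r → ℕ := fun i => ∑ a : Fin 15, (decide (some (i, a) ∈ S)).toNat
  have hsum : S.card = (decide (none ∈ S)).toNat + ∑ i, c i := by
    have : S.card = ∑ v : Option (Fin r × Fin 15), (decide (v ∈ S)).toNat := by
      rw [Finset.card_eq_sum_ite (Finset.subset_univ S)]
      exact Finset.sum_congr rfl fun v _ => by by_cases h : v ∈ S <;> simp [h]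
    rw [this, Fintype.sum_option, Fintype.sum_prod_type]
  have hloc : ∀ i, 12 ≤ c i ∧ (none ∉ S → some (i, 0) ∈ S → 13 ≤ c i) := by
    intro i
    have h0 := two S _ none (some (i, 1)) (some (i, 8)) (by
      rintro (_ | ⟨j, b⟩) h
      · exact Or.inl rfl
      · obtain ⟨rfl, h⟩ : i = j ∧ had 0 b = true := h
        rcases had_0 b h with rfl | rfl <;> simp) (hS (some (i, 0)))
    have hh : ∀ a : Fin 15, a ≠ 0 → maj (decide (some (i, n1 a) ∈ S)) (decide (some (i, n2 a) ∈ S))
        (decide (some (i, n3 a) ∈ S)) = true := by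
      intro a ha
      refine two S _ _ _ _ ?_ (hS (some (i, a)))
      rintro (_ | ⟨j, b⟩) h
      · exact absurd h ha
      · obtain ⟨rfl, h⟩ : i = j ∧ had a b = true := h
        rcases had_n a b h with rfl | rfl | rfl <;> simp
    have := loc (decide (none ∈ S)) (decide (some (i, 0) ∈ S)) (decide (some (i, 1) ∈ S)) (decide (some (i, 2) ∈ S)) (decide (some (i, 3) ∈ S)) (decide (some (i, 4) ∈ S)) (decide (some (i, 5) ∈ S)) (decide (some (i, 6) ∈ S)) (decide (some (i, 7) ∈ S)) (decide (some (i, 8) ∈ S)) (decide (some (i, 9) ∈ S)) (decide (some (i, 10) ∈ S)) (decide (some (i, 11) ∈ S)) (decide (some (i, 12) ∈ S)) (decide (some (i, 13) ∈ S)) (decide (some (i, 14) ∈ S)) h0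
      (hh 1 (by decide)) (hh 2 (by decide)) (hh 3 (by decide)) (hh 4 (by decide)) (hh 5 (by decide)) (hh 6 (by decide)) (hh 7 (by decide)) (hh 8 (by decide)) (hh 9 (by decide)) (hh 10 (by decide)) (hh 11 (by decide)) (hh 12 (by decide)) (hh 13 (by decide)) (hh 14 (by decide))
    have hce : c i = (decide (some (i, 0) ∈ S)).toNat + (decide (some (i, 1) ∈ S)).toNat + (decide (some (i, 2) ∈ S)).toNat + (decide (some (i, 3) ∈ S)).toNat + (decide (some (i, 4) ∈ S)).toNat + (decide (some (i, 5) ∈ S)).toNat + (decide (some (i, 6) ∈ S)).toNat + (decide (some (i, 7) ∈ S)).toNat + (decide (some (i, 8) ∈ S)).toNat + (decide (some (i, 9) ∈ S)).toNat + (decide (some (i, 10) ∈ S)).toNat + (decide (some (i, 11) ∈ S)).toNat + (decide (some (i, 12) ∈ S)).toNat + (decide (some (i, 13) ∈ S)).toNat + (decide (some (i, 14) ∈ S)).toNat := by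
      simp only [c, Fin.sum_univ_succ, Fin.sum_univ_zero, ← add_assoc, add_zero]
      rfl
    rw [hce]
    refine ⟨this.1, fun h1 h2 => this.2 (by simpa using h1) (by simpa using h2)⟩
  have base : ∑ _i : Fin r, 12 = 12 * r := by simp [mul_comm]
  by_cases hn : none ∈ S
  · have : ∑ _i : Fin r, 12 ≤ ∑ i, c i := Finset.sum_le_sum fun i _ => (hloc i).1
    simp only [hn, decide_true, Bool.toNat_true] at hsum
    omega
  · obtain ⟨a, ha, -⟩ := Finset.one_lt_card.mp (hS none)
    rw [Finset.mem_filter] at ha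
    rcases a with _ | ⟨i, b⟩
    · exact hn ha.1
    · obtain rfl : b = 0 := ha.2
      have : ∑ _i : Fin r, 12 < ∑ i, c i :=
        Finset.sum_lt_sum (fun i _ => (hloc i).1) ⟨i, Finset.mem_univ _, (hloc i).2 hn ha.1⟩
      omega

end Pool.Agent.S10726
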