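import Pool.Statements.S10752
import Pool.Agent.Lib.helper11.BackForth

set_option autoImplicit false
open MeasureTheory
open Pool Pool.MP_ac9a20_co

namespace Pool.Agent.S10752

open Pool.Agent.Lib.H11BackForth

lemma null_event {I : Type} (f : ℕ × Bool → I) (hf : Function.Injective f) :
    Measure.infinitePi (fun _ : I => (PMF.uniformOfFintype Bool).toMeasure)
      {c | ∀ n, c (f (n, true)) ≠ c (f (n, false))} = 0 := by
  set μ₀ : Measure Bool := (PMF.uniformOfFintype Bool).toMeasure with hμ₀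
  set ν : Measure (Bool → Bool) := Measure.infinitePi (fun _ : Bool => μ₀) with hν
  set D : Set (Bool → Bool) := {w | w true ≠ w false} with hD
  have hDm : MeasurableSet D := (Set.toFinite D).measurableSet
  have hmap : (Measure.infinitePi (fun _ : I => μ₀)).map
      (fun (c : I → Bool) (n : ℕ) (b : Bool) => c (f (n, b))) =
      Measure.infinitePi (fun _ : ℕ => ν) := by
    have h1 := Measure.map_infinitePi_infinitePi_of_inj (P := fun _ : I => μ₀) hf
    have h2 := Measure.infinitePi_map_curry (fun (_ : ℕ) (_ : Bool) => μ₀)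
    rw [← h2, ← h1, Measure.map_map (by fun_prop) (by fun_prop)]
    rfl
  have hν1 : ν D < 1 := by
    have h1 : ν {fun _ => true} ≠ 0 := by
      rw [hν, Measure.infinitePi_singleton_of_fintype]
      refine Finset.prod_ne_zero_iff.2 fun i _ => ?_
      rw [hμ₀, PMF.toMeasure_apply_singleton _ _ (measurableSet_singleton _)]
      simp
    have h2 : ν Dᶜ ≠ 0 := by
      intro h
      apply h1
      refine measure_mono_null ?_ h
      rintro w rfl
      simp [hD]
    have h3 := prob_le_one (μ := ν) (s := D)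
    refine lt_of_le_of_ne h3 fun h => h2 ?_
    exact (prob_compl_eq_zero_iff hDm).2 h
  have hle : ∀ N : ℕ, Measure.infinitePi (fun _ : I => μ₀)
      {c | ∀ n, c (f (n, true)) ≠ c (f (n, false))} ≤ (ν D) ^ N := by
    intro N
    have hm : MeasurableSet (Set.pi (Finset.range N : Set ℕ) (fun _ => D)) :=
      MeasurableSet.pi (Finset.countable_toSet _) fun _ _ => hDm
    have h1 : Measure.infinitePi (fun _ : ℕ => ν) (Set.pi (Finset.range N : Set ℕ) (fun _ => D))
        = (ν D) ^ N := by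
      rw [Measure.infinitePi_pi _ (fun _ _ => hDm)]
      simp
    rw [← h1, ← hmap, Measure.map_apply (by fun_prop) hm]
    refine measure_mono ?_
    intro c hc n _
    exact hc n
  have ht := ENNReal.tendsto_pow_atTop_nhds_zero_of_lt_one hν1
  exact nonpos_iff_eq_zero.1 (ge_of_tendsto' ht hle)

def lab (x : ℕ) : ℕ := (Nat.unpair x).2

def G0 : SimpleGraph ℕ := SimpleGraph.fromRel
  (fun x y => x < y ∧ Nat.testBit (Nat.unpair y).1 x = true ∧ (lab x = 0 ∨ lab y = 0))

lemma ext_G0 : Ext (fun m n : ℕ => m = 0 ∨ n = 0) G0 lab := by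
  constructor
  · intro x y h
    rw [G0, SimpleGraph.fromRel_adj] at h
    rcases h.2 with h | h
    · exact h.2.2
    · exact h.2.2.symm
  · intro T U m hm
    obtain ⟨a, ha, ha'⟩ := exists_bits T U
    have hlt : ∀ t ∈ T, t < Nat.pair a m := fun t ht => (ha t ht).trans_le (Nat.left_le_pair a m)
    have hl : lab (Nat.pair a m) = m := by simp [lab]
    refine ⟨Nat.pair a m, fun h => lt_irrefl _ (hlt _ h), hl, ?_⟩
    intro t ht
    rw [G0, SimpleGraph.fromRel_adj]
    constructor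
    · rintro ⟨-, h | h⟩
      · rw [Nat.unpair_pair] at h
        exact (ha' t ht).1 h.2.1
      · exact absurd h.1 (not_lt.2 (hlt t ht).le)
    · intro h
      refine ⟨(hlt t ht).ne, Or.inl ⟨hlt t ht, ?_, ?_⟩⟩
      · rw [Nat.unpair_pair]
        exact (ha' t ht).2 h
      · rw [hl]
        exact hm t h

lemma ext_G0' : Ext (fun _ _ : Unit => True) G0 (fun _ => ()) := by
  refine ⟨fun _ _ _ => trivial, ?_⟩
  intro T U m _
  obtain ⟨z, h1, -, h3⟩ := ext_G0.2 T U 0 (fun _ _ => Or.inr rfl)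
  exact ⟨z, h1, rfl, h3⟩

def GG : Subgroup (Equiv.Perm ℕ) where
  carrier := {g | (∀ x, lab (g x) = lab x) ∧ ∀ x y, G0.Adj (g x) (g y) ↔ G0.Adj x y}
  mul_mem' := by
    rintro a b ⟨ha, ha'⟩ ⟨hb, hb'⟩
    refine ⟨fun x => ?_, fun x y => ?_⟩
    · rw [Equiv.Perm.mul_apply, ha, hb]
    · rw [Equiv.Perm.mul_apply, Equiv.Perm.mul_apply, ha', hb']
  one_mem' := ⟨fun _ => rfl, fun _ _ => Iff.rfl⟩
  inv_mem' := by
    rintro a ⟨ha, ha'⟩
    refine ⟨fun x => ?_, fun x y => ?_⟩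
    · rw [← ha]; simp
    · rw [← ha']; simp

/-- homogeneity on pairs -/
lemma homog {x z x' z' : ℕ} (h : x ≠ z) (h' : x' ≠ z') (hx : lab x = lab x') (hz : lab z = lab z')
    (hadj : G0.Adj x z ↔ G0.Adj x' z') : ∃ g ∈ GG, g x = x' ∧ g z = z' := by
  obtain ⟨e, he, he1, he2⟩ := exists_iso ext_G0 ext_G0 {(x, x'), (z, z')} (by
    intro u hu v hv
    simp only [Finset.mem_insert, Finset.mem_singleton] at hu hv
    rcases hu with rfl | rfl <;> rcases hv with rfl | rfl
    · exact ⟨by simp, hx, hx, by simp⟩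
    · exact ⟨by simp [h, h'], hx, hz, hadj⟩
    · exact ⟨by simp [h.symm, h'.symm], hz, hx, by rw [G0.adj_comm, hadj, G0.adj_comm]⟩
    · exact ⟨by simp, hz, hz, by simp⟩)
  exact ⟨e, ⟨he1, he2⟩, he (x, x') (by simp), he (z, z') (by simp)⟩

abbrev Orb : Type := {S : Set (Sym2 ℕ) // ∃ e : Sym2 ℕ, ¬ e.IsDiag ∧
  S = {e' : Sym2 ℕ | ∃ g ∈ GG, Sym2.map (⇑g) e = e'}}

def orb (x z : ℕ) (h : x ≠ z) : Orb :=
  ⟨{e' : Sym2 ℕ | ∃ g ∈ GG, Sym2.map (⇑g) s(x, z) = e'}, s(x, z), by simpa using h, rfl⟩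

lemma eq_orb {S : Orb} {x z : ℕ} (h : x ≠ z) (hS : s(x, z) ∈ S.1) : S = orb x z h := by
  obtain ⟨S, e, he, rfl⟩ := S
  obtain ⟨g, hg, hge⟩ := hS
  apply Subtype.ext
  ext e'
  simp only [orb, Set.mem_setOf_eq]
  constructor
  · rintro ⟨k, hk, rfl⟩
    refine ⟨k * g⁻¹, GG.mul_mem hk (GG.inv_mem hg), ?_⟩
    rw [← hge, Sym2.map_map]
    congr 1
    ext y
    simp
  · rintro ⟨k, hk, rfl⟩
    refine ⟨k * g, GG.mul_mem hk hg, ?_⟩
    rw [← hge, Sym2.map_map]
    rfl

lemma mem_orb (x z : ℕ) (h : x ≠ z) : s(x, z) ∈ (orb x z h).1 := ⟨1, GG.one_mem, by simp⟩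

lemma orb_eq {x z x' z' : ℕ} (h : x ≠ z) (h' : x' ≠ z') (hx : lab x = lab x') (hz : lab z = lab z')
    (hadj : G0.Adj x z ↔ G0.Adj x' z') : orb x z h = orb x' z' h' := by
  obtain ⟨g, hg, h1, h2⟩ := homog h h' hx hz hadj
  exact eq_orb h' ⟨g, hg, by simp [h1, h2]⟩

lemma adj_iff (c : Orb → Bool) {x z : ℕ} (h : x ≠ z) :
    (SimpleGraph.fromRel (fun x y : ℕ => ∃ S : Orb, s(x, y) ∈ S.1 ∧ c S = true)).Adj x z ↔
      c (orb x z h) = true := by
  rw [SimpleGraph.fromRel_adj]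
  constructor
  · rintro ⟨-, ⟨S, hS, hc⟩ | ⟨S, hS, hc⟩⟩
    · rwa [← eq_orb h hS]
    · rw [Sym2.eq_swap] at hS
      rwa [← eq_orb h hS]
  · intro hc
    exact ⟨h, Or.inl ⟨_, mem_orb x z h, hc⟩⟩

lemma exists_wit (n : ℕ) (b : Bool) : ∃ z, lab z = 0 ∧ (G0.Adj (Nat.pair 0 (n + 1)) z ↔ b = true) := by
  obtain ⟨z, -, h2, h3⟩ := ext_G0.2 {Nat.pair 0 (n + 1)}
    (if b = true then {Nat.pair 0 (n + 1)} else ∅) 0 (fun _ _ => Or.inr rfl)
  refine ⟨z, h2, ?_⟩
  rw [h3 _ (Finset.mem_singleton_self _)]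
  cases b <;> simp

lemma lab_pair (a m : ℕ) : lab (Nat.pair a m) = m := by simp [lab]

/-- The negation of the preceding statement: For every permutation group G on a countable set: some G-invariant graph is isomorphic to the Rado graph iff flipping an independent fair coin per G-orbit on 2-subsets gives a graph isomorphic to the Rado graph with positive probability. -/
theorem result :
    ¬ (∀ (Ω : Type) [Countable Ω] (G : Subgroup (Equiv.Perm Ω)),
    (∃ Γ : SimpleGraph Ω, (∀ g ∈ G, ∀ x y : Ω, Γ.Adj (g x) (g y) ↔ Γ.Adj x y) ∧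
        Nonempty (Γ ≃g SimpleGraph.fromRel (fun i j : ℕ => Nat.testBit j i = true))) ↔
    (Measure.infinitePi
        (fun _ : {S : Set (Sym2 Ω) // ∃ e : Sym2 Ω, ¬ e.IsDiag ∧
            S = {e' : Sym2 Ω | ∃ g ∈ G, Sym2.map (⇑g) e = e'}} =>
          (PMF.uniformOfFintype Bool).toMeasure))
      {c : {S : Set (Sym2 Ω) // ∃ e : Sym2 Ω, ¬ e.IsDiag ∧
            S = {e' : Sym2 Ω | ∃ g ∈ G, Sym2.map (⇑g) e = e'}} → Bool |
        Nonempty (SimpleGraph.fromRel
            (fun x y : Ω => ∃ S : {S : Set (Sym2 Ω) // ∃ e : Sym2 Ω, ¬ e.IsDiag ∧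
                S = {e' : Sym2 Ω | ∃ g ∈ G, Sym2.map (⇑g) e = e'}},
              s(x, y) ∈ S.1 ∧ c S = true)
          ≃g SimpleGraph.fromRel (fun i j : ℕ => Nat.testBit j i = true))} > 0) := by
  intro H
  have h1 := (H ℕ GG).1 ⟨G0, fun g hg => hg.2, by
    obtain ⟨e, -, -, he⟩ := exists_iso ext_G0' ext_bit ∅ (by simp)
    exact ⟨⟨e, fun {a b} => he a b⟩⟩⟩
  choose w hw0 hw using exists_wit
  have hne : ∀ n b, Nat.pair 0 (n + 1) ≠ w n b := by
    intro n b h
    have := hw0 n b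
    rw [← h, lab_pair] at this
    omega
  let f : ℕ × Bool → Orb := fun u => orb _ _ (hne u.1 u.2)
  have hf : Function.Injective f := by
    rintro ⟨n, b⟩ ⟨n', b'⟩ h
    have h2 : s(Nat.pair 0 (n' + 1), w n' b') ∈ (f (n, b)).1 := by
      rw [h]; exact mem_orb _ _ _
    obtain ⟨g, hg, hge⟩ := h2
    simp only [Sym2.map_mk, Sym2.eq_iff] at hge
    rcases hge with ⟨h3, h4⟩ | ⟨h3, h4⟩
    · have h5 := hg.1 (Nat.pair 0 (n + 1))
      rw [h3, lab_pair, lab_pair] at h5
      have h6 := hg.2 (Nat.pair 0 (n + 1)) (w n b)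
      rw [h3, h4, hw, hw] at h6
      have h7 : n = n' := by omega
      have h8 : b = b' := by
        cases b <;> cases b' <;> simp_all
      rw [h7, h8]
    · have h5 := hg.1 (Nat.pair 0 (n + 1))
      rw [h3, lab_pair, hw0] at h5
      omega
  refine (ne_of_gt h1) (measure_mono_null ?_ (null_event f hf))
  rintro c ⟨φ⟩ n hc
  set x := Nat.pair 0 (n + 1) with hx
  set y := Nat.pair 1 (n + 1) with hy
  have hxy : x ≠ y := by
    intro h
    have := (Nat.pair_eq_pair.1 h).1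
    omega
  obtain ⟨z', hz'T, -, hz'⟩ := ext_bit.2 {φ x, φ y} {φ x} () (fun _ _ => trivial)
  obtain ⟨z, rfl⟩ := φ.surjective z'
  have hxz : x ≠ z := by
    rintro rfl
    exact hz'T (by simp)
  have hyz : y ≠ z := by
    rintro rfl
    exact hz'T (by simp)
  have hadj1 := φ.map_adj_iff.1 ((hz' (φ x) (by simp)).2 (by simp))
  have hadj2 : ¬ _ := fun h => by
    have h3 := (hz' (φ y) (by simp)).1 (φ.map_adj_iff.2 h)
    rw [Finset.mem_singleton] at h3
    exact hxy (φ.injective h3).symm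
  apply hadj2
  rw [adj_iff c hxz] at hadj1
  rw [adj_iff c hyz, ← hadj1]
  have hlx : lab x = n + 1 := lab_pair _ _
  have hly : lab y = n + 1 := lab_pair _ _
  by_cases hz0 : lab z = 0
  · have key : ∀ (u : ℕ) (hu : u ≠ z), lab u = n + 1 → c (orb u z hu) = c (f (n, true)) := by
      intro u hu hlu
      by_cases ha : G0.Adj u z
      · rw [orb_eq hu (hne n true) (by rw [hlu, lab_pair]) (by rw [hz0, hw0])
          (by rw [hw]; simp [ha])]
      · rw [hc, orb_eq hu (hne n false) (by rw [hlu, lab_pair]) (by rw [hz0, hw0])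
          (by rw [hw]; simp [ha])]
    rw [key x hxz hlx, key y hyz hly]
  · have hn : ∀ u, lab u = n + 1 → ¬ G0.Adj u z := by
      intro u hu ha
      rcases ext_G0.1 _ _ ha with h | h
      · omega
      · exact hz0 h
    rw [orb_eq hyz hxz (by rw [hlx, hly]) rfl (by simp [hn x hlx, hn y hly])]

end Pool.Agent.S10752
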