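import Pool.Statements.S10758
-- import your own Pool.Agent.* helpers here

set_option autoImplicit false
open Pool Pool.MP_acdd82_co

namespace Pool.Agent.S10758

/-! Counterexample: the cycle matroid of `K4` with every edge tripled (rank 3, 18 elements, six
disjoint bases), and `G` the union of three copies of `K_{3,3}` joining the copies of opposite
edges (`Δ = 3`). A basis that is independent in `G` is a star, and six stars cannot cover every
edge exactly three times (a parity count). -/

abbrev W := Fin 3 → ZMod 2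

/-- The vector matroid of `W`. -/
noncomputable def linM : Matroid W :=
  (IndepMatroid.ofFinite (E := Set.univ) Set.finite_univ
    (fun I => LinearIndepOn (ZMod 2) id I)
    (linearIndepOn_empty _ _)
    (fun _ _ hJ hIJ => hJ.mono hIJ)
    (by
      intro I J hI hJ hlt
      by_contra hcon
      push Not at hcon
      have hsub : J ⊆ Submodule.span (ZMod 2) I := by
        intro e he
        by_cases heI : e ∈ I
        · exact Submodule.subset_span heI
        · by_contra hs
          exact hcon e he heI (hI.id_insert hs)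
      have h1 : Submodule.span (ZMod 2) J ≤ Submodule.span (ZMod 2) I := Submodule.span_le.2 hsub
      have h2 := Submodule.finrank_mono h1
      classical
      have : Fintype I := Fintype.ofFinite I
      have : Fintype J := Fintype.ofFinite J
      rw [finrank_span_set_eq_card hI, finrank_span_set_eq_card hJ] at h2
      rw [Set.ncard_eq_toFinset_card', Set.ncard_eq_toFinset_card'] at hlt
      omega)
    (fun _ _ => Set.subset_univ _)).matroid

lemma linM_indep (I : Set W) : linM.Indep I ↔ LinearIndepOn (ZMod 2) id I := by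
  simp [linM]

lemma linM_E : linM.E = Set.univ := by simp [linM]

/-- (perfect matching of `K4`, which edge of it, which copy). -/
abbrev V := Fin 3 × ZMod 2 × Fin 3

def u (l : Fin 3) (e : ZMod 2) : W := ![![1, 0, e], ![0, 1, e], ![1, 1, e]] l

def v (p : V) : W := u p.1 p.2.1

noncomputable def M : Matroid V := linM.comap v

lemma M_E : M.E = Set.univ := by simp [M, linM_E]

lemma M_indep (I : Set V) : M.Indep I ↔ LinearIndepOn (ZMod 2) v I := by
  rw [M, Matroid.comap_indep_iff, linM_indep]
  constructor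
  · rintro ⟨h1, h2⟩
    exact (linearIndepOn_iff_image h2).2 h1
  · intro h
    exact ⟨h.id_image, h.injOn⟩

lemma M_indep' (I : Finset V) :
    M.Indep (↑I : Set V) ↔ ∀ T ∈ I.powerset, ∑ p ∈ T, v p = 0 → T = ∅ := by
  rw [M_indep, linearIndepOn_finset_iff]
  simp only [Finset.mem_powerset]
  constructor
  · intro h T hT hs
    by_contra hne
    obtain ⟨p, hp⟩ := Finset.nonempty_iff_ne_empty.2 hne
    have := h (fun q => if q ∈ T then 1 else 0) (by
      rw [← hs, ← Finset.sum_subset hT (fun x _ hx => by simp [hx])]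
      exact Finset.sum_congr rfl (fun x hx => by simp [hx])) p (hT hp)
    simp [hp] at this
  · intro h g hg p hp
    have h01 : ∀ t : ZMod 2, t = 0 ∨ t = 1 := by decide
    have := h (I.filter fun q => g q = 1) (Finset.filter_subset _ _) (by
      rw [← hg, Finset.sum_filter]
      refine Finset.sum_congr rfl (fun x _ => ?_)
      rcases h01 (g x) with h0 | h0 <;> simp [h0])
    rcases h01 (g p) with h0 | h0
    · exact h0
    · have hm : p ∈ I.filter fun q => g q = 1 := Finset.mem_filter.2 ⟨hp, h0⟩
      rw [this] at hm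
      simp at hm

def G : SimpleGraph V where
  Adj p q := p.1 = q.1 ∧ p.2.1 ≠ q.2.1
  symm := ⟨fun _ _ h => ⟨h.1.symm, h.2.symm⟩⟩
  loopless := ⟨fun _ h => h.2 rfl⟩

instance : DecidableRel G.Adj := fun p q => inferInstanceAs (Decidable (p.1 = q.1 ∧ p.2.1 ≠ q.2.1))

lemma G_deg : ∀ p, G.degree p = 3 := by decide +kernel

lemma G_max : G.maxDegree = 3 :=
  le_antisymm (G.maxDegree_le_of_forall_degree_le 3 (fun p => (G_deg p).le))
    ((G_deg (0, 0, 0)).ge.trans (G.degree_le_maxDegree _))

def B0 : Fin 6 → Finset V :=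
  ![{(0, 0, 0), (0, 1, 0), (2, 0, 0)}, {(1, 0, 0), (1, 1, 0), (2, 1, 0)},
    {(0, 1, 1), (1, 0, 1), (2, 0, 1)}, {(0, 0, 1), (1, 1, 1), (2, 0, 2)},
    {(0, 0, 2), (1, 0, 2), (2, 1, 1)}, {(0, 1, 2), (1, 1, 2), (2, 1, 2)}]

lemma B0_dual : ∀ i, ∀ p ∈ B0 i, ∃ d : W, ∀ q ∈ B0 i, d ⬝ᵥ v q = if q = p then 1 else 0 := by
  decide +kernel

lemma B0_ind (i : Fin 6) : ∀ T ∈ (B0 i).powerset, ∑ p ∈ T, v p = 0 → T = ∅ := by
  intro T hT hs
  by_contra hne
  obtain ⟨j, hj⟩ := Finset.nonempty_iff_ne_empty.2 hne
  have hTX := Finset.mem_powerset.1 hT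
  obtain ⟨d, hd⟩ := B0_dual i j (hTX hj)
  have h1 : d ⬝ᵥ ∑ e ∈ T, v e = 1 := by
    rw [dotProduct_sum, Finset.sum_congr rfl (fun q hq => hd q (hTX hq))]
    simp [hj]
  rw [hs] at h1
  simp at h1

lemma B0_card : ∀ i, (B0 i).card = 3 := by decide +kernel

lemma card_le (T : Finset V) (h : M.Indep (↑T : Set V)) : T.card ≤ 3 := by
  rw [M_indep] at h
  have := LinearIndependent.fintype_card_le_finrank h
  simpa using this

lemma B0_disj : ∀ i j, i ≠ j → Disjoint (B0 i) (B0 j) := by decide +kernel

lemma B0_base (i : Fin 6) : M.IsBase (↑(B0 i) : Set V) := by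
  refine ((M_indep' _).2 (B0_ind i)).isBase_of_forall_insert ?_
  intro e he hins
  rw [← Finset.coe_insert] at hins
  have := card_le _ hins
  rw [Finset.card_insert_of_notMem (by simpa using he.2), B0_card] at this
  omega

lemma key : ∀ l1 l2 l3 : Fin 3, ∀ e1 e2 e3 : ZMod 2, l1 ≠ l2 → l1 ≠ l3 → l2 ≠ l3 →
    u l1 e1 + (u l2 e2 + u l3 e3) ≠ 0 → e1 + (e2 + e3) = 1 := by decide +kernel

lemma two (w : W) : w + w = 0 := by
  funext i
  have : ∀ t : ZMod 2, t + t = 0 := by decide
  exact this _

lemma par (T : Finset V) (hb : M.IsBase (↑T : Set V)) (hi : G.IsIndepSet (↑T : Set V)) :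
    T.card = 3 ∧ ∑ p ∈ T, p.2.1 = 1 := by
  have hc : T.card = 3 := by
    have := hb.ncard_eq_ncard_of_isBase (B0_base 0)
    rw [Set.ncard_coe_finset, Set.ncard_coe_finset] at this
    rw [this, B0_card]
  refine ⟨hc, ?_⟩
  have hind := (M_indep' T).1 hb.indep
  have hleg : ∀ p ∈ T, ∀ q ∈ T, p ≠ q → p.1 ≠ q.1 := by
    intro p hp q hq hpq h1
    by_cases h2 : p.2.1 = q.2.1
    · have := hind {p, q} (Finset.mem_powerset.2 (by
        intro x hx
        rcases Finset.mem_insert.1 hx with rfl | hx
        · exact hp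
        · rw [Finset.mem_singleton.1 hx]; exact hq)) (by
          rw [Finset.sum_pair hpq, v, v, h1, h2, two])
      simp at this
    · exact hi (Finset.mem_coe.2 hp) (Finset.mem_coe.2 hq) hpq ⟨h1, h2⟩
  obtain ⟨x, y, z, hxy, hxz, hyz, rfl⟩ := Finset.card_eq_three.1 hc
  have hs : ∀ {β : Type} [AddCommMonoid β] (f : V → β),
      ∑ p ∈ ({x, y, z} : Finset V), f p = f x + (f y + f z) := by
    intro β _ f
    rw [Finset.sum_insert (by simp [hxy, hxz]), Finset.sum_pair hyz]
  rw [hs]
  refine key x.1 y.1 z.1 _ _ _ (hleg x (by simp) y (by simp) hxy) (hleg x (by simp) z (by simp) hxz)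
    (hleg y (by simp) z (by simp) hyz) (fun h0 => ?_)
  have := hind {x, y, z} (Finset.mem_powerset_self _) (by rw [hs]; exact h0)
  simp at this

/-- The negation of the preceding statement: For a finite graph G of maximum degree Δ ≥ 2 and a matroid on its vertices, if the matroid has k ≥ 2Δ pairwise disjoint bases, then it has k pairwise disjoint bases each of which is an independent set of G. -/
theorem result :
    ¬ (∀ (V : Type) [Fintype V] [DecidableEq V] (G : SimpleGraph V) [DecidableRel G.Adj]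
      (M : Matroid V), M.E = Set.univ → 2 ≤ G.maxDegree →
      ∀ k : ℕ, 2 * G.maxDegree ≤ k →
        (∃ B : Fin k → Set V, (∀ i, M.IsBase (B i)) ∧
            Pairwise (fun i j => Disjoint (B i) (B j))) →
        ∃ B : Fin k → Set V, (∀ i, M.IsBase (B i) ∧ G.IsIndepSet (B i)) ∧
            Pairwise (fun i j => Disjoint (B i) (B j))) := by
  intro h
  obtain ⟨B, hB, hd⟩ := h V G M M_E (by rw [G_max]; norm_num) 6 (by rw [G_max])
    ⟨fun i => ↑(B0 i), B0_base, fun i j hij => Finset.disjoint_coe.2 (B0_disj i j hij)⟩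
  choose T hT using fun i => (Set.toFinite (B i)).exists_finset_coe
  have hp : ∀ i, (T i).card = 3 ∧ ∑ p ∈ T i, p.2.1 = 1 := fun i =>
    par (T i) (by rw [hT]; exact (hB i).1) (by rw [hT]; exact (hB i).2)
  have hdT : ((Finset.univ : Finset (Fin 6)) : Set (Fin 6)).PairwiseDisjoint T := by
    intro i _ j _ hij
    have : Disjoint (B i) (B j) := hd hij
    rw [← hT, ← hT] at this
    exact Finset.disjoint_coe.1 this
  have hU : Finset.univ.biUnion T = Finset.univ := by
    apply Finset.eq_univ_of_card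
    rw [Finset.card_biUnion hdT]
    simp [fun i => (hp i).1]
  have h1 : ∑ p ∈ Finset.univ.biUnion T, p.2.1 = ∑ i, ∑ p ∈ T i, p.2.1 :=
    Finset.sum_biUnion hdT
  rw [hU] at h1
  simp only [fun i => (hp i).2] at h1
  revert h1
  decide +kernel

end Pool.Agent.S10758
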