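import Pool.Statements.S10760

set_option autoImplicit false
open Pool Pool.MP_ace675_co

namespace Pool.Agent.S10760

def eL : List (ℕ × ℕ) := [(0,1),(1,2),(2,3),(3,4),(4,0),(5,1),(5,4),(6,0),(6,2),(7,1),(7,3),
  (8,2),(8,4),(9,3),(9,0),(10,5),(10,6),(10,7),(10,8),(10,9)]

def adjF (u v : ℕ) : Bool := eL.contains (u, v) || eL.contains (v, u)

def adjH (u v : ℕ) : Bool := adjF u v || (u == 11 && v == 12) || (u == 12 && v == 11)

def HH : SimpleGraph (Fin 13) where
  Adj u v := adjH u.val v.val = true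
  symm := ⟨by decide⟩
  loopless := ⟨by decide⟩

instance : DecidableRel HH.Adj := fun u v => inferInstanceAs (Decidable (adjH u.val v.val = true))

def CopyF {m : ℕ} (R : Fin m → Fin m → Prop) (f : Fin 11 → Fin m) : Prop :=
  Function.Injective f ∧ ∀ u v : Fin 11, adjF u.val v.val = true → R (f u) (f v)

set_option synthInstance.maxSize 100000 in
theorem not3 : ∀ a0 a1 : Fin 3, a0 ≠ a1 → ∀ a2 : Fin 3, a1 ≠ a2 → ∀ a3 : Fin 3, a2 ≠ a3 →
    ∀ a4 : Fin 3, a3 ≠ a4 → a4 ≠ a0 → ∀ a5 : Fin 3, a5 ≠ a1 → a5 ≠ a4 → ∀ a6 : Fin 3,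
    a6 ≠ a0 → a6 ≠ a2 → ∀ a7 : Fin 3, a7 ≠ a1 → a7 ≠ a3 → ∀ a8 : Fin 3, a8 ≠ a2 → a8 ≠ a4 →
    ∀ a9 : Fin 3, a9 ≠ a3 → a9 ≠ a0 → ∀ a10 : Fin 3, a10 ≠ a5 → a10 ≠ a6 → a10 ≠ a7 →
    a10 ≠ a8 → a10 ≠ a9 → False := by decide +kernel

theorem no_col (p : Fin 11 → Fin 3) (h : ∀ u v : Fin 11, adjF u.val v.val = true → p u ≠ p v) :
    False :=
  not3 (p 0) (p 1) (h 0 1 rfl) (p 2) (h 1 2 rfl) (p 3) (h 2 3 rfl) (p 4) (h 3 4 rfl) (h 4 0 rfl)
    (p 5) (h 5 1 rfl) (h 5 4 rfl) (p 6) (h 6 0 rfl) (h 6 2 rfl) (p 7) (h 7 1 rfl) (h 7 3 rfl)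
    (p 8) (h 8 2 rfl) (h 8 4 rfl) (p 9) (h 9 3 rfl) (h 9 0 rfl) (p 10) (h 10 5 rfl) (h 10 6 rfl)
    (h 10 7 rfl) (h 10 8 rfl) (h 10 9 rfl)

theorem const_of {α : Type} (p : Fin 11 → α)
    (h : ∀ u v : Fin 11, adjF u.val v.val = true → p u = p v) : ∀ u, p u = p 0 := by
  have h1 := (h 0 1 rfl).symm
  have h2 := (h 1 2 rfl).symm.trans h1
  have h3 := (h 2 3 rfl).symm.trans h2
  have h4 := h 4 0 rfl
  have h5 := (h 5 1 rfl).trans h1
  have h6 := h 6 0 rfl
  have h7 := (h 7 1 rfl).trans h1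
  have h8 := (h 8 2 rfl).trans h2
  have h9 := h 9 0 rfl
  have h10 := (h 10 5 rfl).trans h5
  intro u
  fin_cases u <;> first | rfl | assumption

/-- A partition into three parts none of which holds a copy gives a good colouring. -/
theorem part3 {m : ℕ} (G : SimpleGraph (Fin m)) (p : Fin m → Fin 3)
    (hp : ∀ f, CopyF G.Adj f → ¬ ∀ u, p (f u) = p (f 0)) :
    ∃ c : Fin m → Fin m → Bool, (∀ x y, c x y = c y x) ∧
      ∀ b f, ¬ CopyF (fun x y => G.Adj x y ∧ c x y = b) f := by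
  refine ⟨fun x y => decide (p x = p y), fun x y => by simp [eq_comm], ?_⟩
  rintro b f ⟨hf, h⟩
  cases b
  · exact no_col (fun u => p (f u)) (fun u v huv => by simpa using (h u v huv).2)
  · exact hp f ⟨hf, fun u v huv => (h u v huv).1⟩
      (const_of (fun u => p (f u)) (fun u v huv => by simpa using (h u v huv).2))

theorem build {m : ℕ} (R : Fin m → Fin m → Prop) (hR : ∀ x y, R x y → R y x)
    (f : Fin 11 → Fin m) (hf : CopyF R f) (x y : Fin m) (hxy : R x y) (hne : x ≠ y)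
    (hx : ∀ u, f u ≠ x) (hy : ∀ u, f u ≠ y) :
    ∃ g : Fin 13 → Fin m, Function.Injective g ∧ ∀ u v, HH.Adj u v → R (g u) (g v) := by
  refine ⟨fun u => if h : u.val < 11 then f ⟨u.val, h⟩ else if u.val = 11 then x else y, ?_, ?_⟩
  · intro u v huv
    simp only at huv
    split_ifs at huv with h1 h2 h3 h4 h5 h6 h7 h8
    · have := hf.1 huv
      exact Fin.ext (by simpa using this)
    · exact absurd huv (hx _)
    · exact absurd huv (hy _)
    · exact absurd huv.symm (hx _)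
    · exact Fin.ext (by omega)
    · exact absurd huv hne
    · exact absurd huv.symm (hy _)
    · exact absurd huv.symm hne
    · exact Fin.ext (by omega)
  · intro u v huv
    have : ∀ u v : Fin 13, HH.Adj u v → (u.val < 11 ∧ v.val < 11 ∧ adjF u.val v.val = true) ∨
        (u = 11 ∧ v = 12) ∨ (u = 12 ∧ v = 11) := by decide
    rcases this u v huv with ⟨h1, h2, h3⟩ | ⟨rfl, rfl⟩ | ⟨rfl, rfl⟩
    · simp only [h1, h2, dif_pos]
      exact hf.2 ⟨u.val, h1⟩ ⟨v.val, h2⟩ h3
    · exact hxy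
    · exact hR _ _ hxy

theorem not_in_erase {m : ℕ} (f g : Fin 11 → Fin m) (hf : Function.Injective f)
    (h : ∀ u, (∃ w, g w = f u) ∧ f u ≠ g 0) : False := by
  classical
  have h1 : Finset.univ.image f ⊆ (Finset.univ.erase (0 : Fin 11)).image g := by
    intro z hz
    obtain ⟨u, -, rfl⟩ := Finset.mem_image.1 hz
    obtain ⟨⟨w, hw⟩, h2⟩ := h u
    refine Finset.mem_image.2 ⟨w, Finset.mem_erase.2 ⟨?_, Finset.mem_univ _⟩, hw⟩
    rintro rfl
    exact h2 hw.symm
  have h2 := Finset.card_le_card h1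
  rw [Finset.card_image_of_injective _ hf] at h2
  have h3 := h2.trans Finset.card_image_le
  simp at h3

theorem equiv {m : ℕ} (G : SimpleGraph (Fin m))
    (hG : ∀ c : Fin m → Fin m → Bool, (∀ x y, c x y = c y x) →
      ∃ b f, CopyF (fun x y => G.Adj x y ∧ c x y = b) f) :
    ∀ c : Fin m → Fin m → Bool, (∀ x y : Fin m, c x y = c y x) →
      ∃ b : Bool, ∃ f : Fin 13 → Fin m, Function.Injective f ∧
        ∀ u v : Fin 13, HH.Adj u v → G.Adj (f u) (f v) ∧ c (f u) (f v) = b := by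
  classical
  intro c hc
  by_contra hno
  have ext : ∀ b f, CopyF (fun x y => G.Adj x y ∧ c x y = b) f → ∀ x y, G.Adj x y →
      (∀ u, f u ≠ x) → (∀ u, f u ≠ y) → c x y = !b := by
    intro b f hf x y hxy hx hy
    by_contra h
    apply hno
    refine ⟨b, build (fun x y => G.Adj x y ∧ c x y = b)
      (fun x y h => ⟨h.1.symm, by rw [hc, h.2]⟩) f hf x y ⟨hxy, by simpa using h⟩ hxy.ne hx hy⟩
  have fin : ∀ p : Fin m → Fin 3, (∀ f, CopyF G.Adj f → ¬ ∀ u, p (f u) = p (f 0)) → False := by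
    intro p hp
    obtain ⟨c', h1, h2⟩ := part3 G p hp
    obtain ⟨b, f, hf⟩ := hG c' h1
    exact h2 b f hf
  obtain ⟨b, f, hf⟩ := hG c hc
  by_cases hB : ∃ g, CopyF G.Adj g ∧ ∀ u w, f w ≠ g u
  · obtain ⟨g, hg, hfg⟩ := hB
    have hg' : CopyF (fun x y => G.Adj x y ∧ c x y = !b) g := ⟨hg.1, fun u v huv =>
      ⟨hg.2 u v huv, ext b f hf _ _ (hg.2 u v huv) (hfg u) (hfg v)⟩⟩
    apply fin (fun x => if (∃ w, f w = x) ∧ x ≠ f 0 then 0 else
      if (∃ w, g w = x) ∧ x ≠ g 0 then 1 else 2)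
    intro k hk hall
    by_cases h0 : (∃ w, f w = k 0) ∧ k 0 ≠ f 0
    · refine not_in_erase k f hk.1 fun u => ?_
      have := hall u
      simp only [h0, ne_eq, not_false_iff, and_self, if_true] at this
      by_contra h1
      rw [if_neg h1] at this
      split_ifs at this <;> simp at this
    by_cases h1 : (∃ w, g w = k 0) ∧ k 0 ≠ g 0
    · refine not_in_erase k g hk.1 fun u => ?_
      have := hall u
      rw [if_neg h0, if_pos h1] at this
      by_contra h2
      rw [if_neg h2] at this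
      split_ifs at this <;> simp at this
    have h2 : ∀ u, (k u = f 0 ∨ k u = g 0) ∨ ((∀ w, f w ≠ k u) ∧ ∀ w, g w ≠ k u) := by
      intro u
      have := hall u
      rw [if_neg h0, if_neg h1] at this
      split_ifs at this with h3 h4
      · simp at this
      · simp at this
      · by_contra h5
        push Not at h3 h4 h5
        by_cases h6 : ∃ w, f w = k u
        · exact h5.1.1 (h3 h6)
        · push Not at h6
          exact h5.1.2 (h4 (h5.2 h6))
    apply no_col (fun u => if k u = f 0 then 0 else if k u = g 0 then 1 else 2)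
    intro u v huv
    have hadj := hk.2 u v huv
    have hne := hadj.ne
    split_ifs with a1 a2 a3 a4 a5 a6 a7 a8 <;> try simp
    · exact hne (a1.trans a2.symm)
    · exact hne (by simp_all)
    · have e1 := (h2 u).resolve_left (by tauto)
      have e2 := (h2 v).resolve_left (by tauto)
      have e3 := ext b f hf _ _ hadj e1.1 e2.1
      have e4 := ext (!b) g hg' _ _ hadj e1.2 e2.2
      rw [e3] at e4
      simp at e4
  · apply fin (fun x => if (∃ w, f w = x) ∧ x ≠ f 0 then 0 else if x = f 0 then 1 else 2)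
    intro k hk hall
    by_cases h0 : (∃ w, f w = k 0) ∧ k 0 ≠ f 0
    · refine not_in_erase k f hk.1 fun u => ?_
      have := hall u
      simp only [h0, ne_eq, not_false_iff, and_self, if_true] at this
      by_contra h1
      rw [if_neg h1] at this
      split_ifs at this <;> simp at this
    by_cases h1 : k 0 = f 0
    · have := hall 1
      rw [if_neg h0, if_pos h1] at this
      split_ifs at this with h3 h4
      · simp at this
      · exact absurd (hk.1 (h4.trans h1.symm)) (by decide)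
      · simp at this
    · apply hB
      refine ⟨k, hk, fun u w hw => ?_⟩
      have := hall u
      rw [if_neg h0, if_neg h1] at this
      split_ifs at this with h3 h4
      · simp at this
      · simp at this
      · exact h3 ⟨⟨w, hw⟩, h4⟩

theorem result :
    ¬ (∀ (n : ℕ) (H : SimpleGraph (Fin n)) (d : ℕ), H.CliqueFree 3 → 1 ≤ d →
      (∀ v : Fin n, d ≤ (H.neighborSet v).ncard) →
      (∃ v : Fin n, (H.neighborSet v).ncard = d) →
      (∃ (m : ℕ) (G : SimpleGraph (Fin m)),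
          ((∀ c : Fin m → Fin m → Bool, (∀ x y : Fin m, c x y = c y x) →
              ∃ b : Bool, ∃ f : Fin n → Fin m, Function.Injective f ∧
                ∀ u v : Fin n, H.Adj u v → G.Adj (f u) (f v) ∧ c (f u) (f v) = b) ∧
           (∀ v : Fin m, ∃ w : Fin m, G.Adj v w) ∧
           (∀ G' : SimpleGraph (Fin m), G' < G →
              ¬ (∀ c : Fin m → Fin m → Bool, (∀ x y : Fin m, c x y = c y x) →
                  ∃ b : Bool, ∃ f : Fin n → Fin m, Function.Injective f ∧
                    ∀ u v : Fin n, H.Adj u v → G'.Adj (f u) (f v) ∧ c (f u) (f v) = b))) ∧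
          (∀ v : Fin m, 2 * d - 1 ≤ (G.neighborSet v).ncard) ∧
          (∃ v : Fin m, (G.neighborSet v).ncard = 2 * d - 1)) ∧
      (∀ (m : ℕ) (G : SimpleGraph (Fin m)),
          ((∀ c : Fin m → Fin m → Bool, (∀ x y : Fin m, c x y = c y x) →
              ∃ b : Bool, ∃ f : Fin n → Fin m, Function.Injective f ∧
                ∀ u v : Fin n, H.Adj u v → G.Adj (f u) (f v) ∧ c (f u) (f v) = b) ∧
           (∀ v : Fin m, ∃ w : Fin m, G.Adj v w) ∧
           (∀ G' : SimpleGraph (Fin m), G' < G →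
              ¬ (∀ c : Fin m → Fin m → Bool, (∀ x y : Fin m, c x y = c y x) →
                  ∃ b : Bool, ∃ f : Fin n → Fin m, Function.Injective f ∧
                    ∀ u v : Fin n, H.Adj u v → G'.Adj (f u) (f v) ∧ c (f u) (f v) = b))) →
          ∀ v : Fin m, 2 * d - 1 ≤ (G.neighborSet v).ncard)) := by
  intro h
  have hcf : HH.CliqueFree 3 := by
    intro s hs
    obtain ⟨a, b, c, h1, h2, h3, -⟩ := SimpleGraph.is3Clique_iff.1 hs
    have : ∀ a b : Fin 13, HH.Adj a b → ∀ c, HH.Adj a c → ¬ HH.Adj b c := by decide +kernel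
    exact this a b h1 c h2 h3
  have hmin : ∀ v : Fin 13, 1 ≤ (HH.neighborSet v).ncard := by
    intro v
    have : ∀ v : Fin 13, ∃ w, HH.Adj v w := by decide +kernel
    obtain ⟨w, hw⟩ := this v
    exact (Set.ncard_pos (Set.toFinite _)).2 ⟨w, hw⟩
  have hex : ∃ v : Fin 13, (HH.neighborSet v).ncard = 1 := by
    refine ⟨11, Set.ncard_eq_one.2 ⟨12, ?_⟩⟩
    ext w
    simp only [SimpleGraph.mem_neighborSet, Set.mem_singleton_iff]
    revert w
    decide
  obtain ⟨⟨m, G, ⟨h1, -, h3⟩, -, v, hv⟩, -⟩ := h 13 HH 1 hcf le_rfl hmin hex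
  obtain ⟨w, hw⟩ := Set.ncard_eq_one.1 hv
  have hw' : ∀ x, G.Adj v x ↔ x = w := fun x => by
    rw [← SimpleGraph.mem_neighborSet, hw, Set.mem_singleton_iff]
  apply h3 (G.deleteEdges {s(v, w)})
  · refine lt_of_le_of_ne (G.deleteEdges_le _) fun e => ?_
    have : (G.deleteEdges {s(v, w)}).Adj v w := by rw [e]; exact (hw' w).2 rfl
    simp at this
  · apply equiv
    intro c hc
    obtain ⟨b, f, hf, hf2⟩ := h1 c hc
    have hadj : ∀ u u' : Fin 11, adjF u.val u'.val = true →
        HH.Adj (u.castLE (by norm_num)) (u'.castLE (by norm_num)) := by decide +kernel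
    have hnv : ∀ u : Fin 11, f (u.castLE (by norm_num)) ≠ v := by
      intro u hu
      have : ∀ u : Fin 11, ∃ a a' : Fin 11, a ≠ a' ∧ adjF u.val a.val = true ∧
          adjF u.val a'.val = true := by decide +kernel
      obtain ⟨a, a', h4, h5, h6⟩ := this u
      have e1 := (hf2 _ _ (hadj _ _ h5)).1
      have e2 := (hf2 _ _ (hadj _ _ h6)).1
      rw [hu, hw'] at e1 e2
      exact h4 (Fin.castLE_injective _ (hf (e1.trans e2.symm)))
    refine ⟨b, fun u => f (u.castLE (by norm_num)),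
      fun u u' e => Fin.castLE_injective _ (hf e), fun u u' huu => ?_⟩
    have := hf2 _ _ (hadj _ _ huu)
    refine ⟨?_, this.2⟩
    rw [SimpleGraph.deleteEdges_adj]
    refine ⟨this.1, ?_⟩
    simp only [Set.mem_singleton_iff, Sym2.eq_iff]
    rintro (⟨h7, -⟩ | ⟨-, h7⟩)
    · exact hnv _ h7
    · exact hnv _ h7

end Pool.Agent.S10760
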