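import Pool.Statements.S10770

set_option autoImplicit false
open Pool Pool.MP_ad5ca6_co

namespace Pool.Agent.S10770

/-- Six blocks of two vertices arranged cyclically; all arcs from a block to the next one,
and one arc inside each block. -/
def R (i j : Fin 12) : Bool :=
  (j.val / 2 == (i.val / 2 + 1) % 6) || (i.val % 2 == 0 && j.val == i.val + 1)

noncomputable def A : Matrix (Fin 12) (Fin 12) ℂ := fun i j => if R i j then 1 else 0

theorem A_eq_one {i j : Fin 12} (h : A i j = 1) : R i j = true := by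
  unfold A at h
  by_contra hc
  simp [hc] at h

theorem no2 : ∀ a b : Fin 12, R a b = true → R b a = true → False := by decide
theorem no3 : ∀ a b : Fin 12, R a b = true → ∀ c, R b c = true → R c a = true → False := by decide
theorem no4 : ∀ a b : Fin 12, R a b = true → ∀ c, R b c = true → ∀ d, R c d = true →
    R d a = true → False := by decide
theorem no5 : ∀ a b : Fin 12, R a b = true → ∀ c, R b c = true → ∀ d, R c d = true →
    ∀ e, R d e = true → R e a = true → False := by decide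

noncomputable def x : Fin 12 → ℂ := fun i => if i.val % 2 = 0 then ((Real.sqrt 2 : ℝ) : ℂ) else 1

theorem sq2 : ((Real.sqrt 2 : ℝ) : ℂ) * ((Real.sqrt 2 : ℝ) : ℂ) = 2 := by
  rw [← Complex.ofReal_mul, Real.mul_self_sqrt (by norm_num)]
  norm_num

theorem eig : A.mulVec x = (1 + ((Real.sqrt 2 : ℝ) : ℂ)) • x := by
  have h := sq2
  funext i
  fin_cases i <;>
    simp [Matrix.mulVec, dotProduct, Fin.sum_univ_succ, A, R, x] <;>
    first
      | linear_combination (-1 : ℂ) * h
      | ring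

theorem mem_spec : (1 + ((Real.sqrt 2 : ℝ) : ℂ)) ∈ spectrum ℂ A := by
  rw [spectrum.mem_iff, Matrix.isUnit_iff_isUnit_det, isUnit_iff_ne_zero, not_not,
    ← Matrix.exists_mulVec_eq_zero_iff]
  refine ⟨x, ?_, ?_⟩
  · intro h
    have := congrFun h 1
    simp [x] at this
  · rw [Matrix.sub_mulVec, eig, Algebra.algebraMap_eq_smul_one, Matrix.smul_mulVec,
      Matrix.one_mulVec, sub_self]

/-- Charbit's spectral strengthening of the Caccetta-Haggkvist conjecture fails for n = 12, k = 5. -/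
theorem result :
    ¬ (∀ (n k : ℕ), 0 < k →
      ∀ (A : Matrix (Fin n) (Fin n) ℂ),
        (∀ i j, A i j = 0 ∨ A i j = 1) →
        (∀ i, A i i = 0) →
        (∃ μ ∈ spectrum ℂ A, (n : ℝ) / (k : ℝ) ≤ ‖μ‖) →
        ∃ m : ℕ, 2 ≤ m ∧ m ≤ k ∧
          ∃ v : Fin m → Fin n, Function.Injective v ∧
            ∀ i : Fin m, A (v i) (v (finRotate m i)) = 1) := by
  intro H
  have h01 : ∀ i j, A i j = 0 ∨ A i j = 1 := by
    intro i j
    unfold A
    split_ifs <;> simp
  have hd : ∀ i, A i i = 0 := by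
    intro i
    have : R i i = false := by revert i; decide
    simp [A, this]
  have hs : ∃ μ ∈ spectrum ℂ A, ((12 : ℕ) : ℝ) / ((5 : ℕ) : ℝ) ≤ ‖μ‖ := by
    refine ⟨_, mem_spec, ?_⟩
    have h1 : (1 + ((Real.sqrt 2 : ℝ) : ℂ)) = ((1 + Real.sqrt 2 : ℝ) : ℂ) := by push_cast; ring
    have h2 : (7 / 5 : ℝ) ≤ Real.sqrt 2 := Real.le_sqrt_of_sq_le (by norm_num)
    rw [h1, Complex.norm_real, Real.norm_eq_abs, abs_of_nonneg (by positivity)]
    push_cast
    linarith
  obtain ⟨m, h2, h5, v, -, hv⟩ := H 12 5 (by norm_num) A h01 hd hs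
  have hv' : ∀ i, R (v i) (v (finRotate m i)) = true := fun i => A_eq_one (hv i)
  interval_cases m
  · exact no2 (v 0) (v 1) (hv' 0) (hv' 1)
  · exact no3 (v 0) (v 1) (hv' 0) (v 2) (hv' 1) (hv' 2)
  · exact no4 (v 0) (v 1) (hv' 0) (v 2) (hv' 1) (v 3) (hv' 2) (hv' 3)
  · exact no5 (v 0) (v 1) (hv' 0) (v 2) (hv' 1) (v 3) (hv' 2) (v 4) (hv' 3) (hv' 4)

end Pool.Agent.S10770
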