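import Pool.Statements.S10784
import Pool.Agent.Lib.helper26.OwB

set_option autoImplicit false
open Pool Pool.MP_ae2f77_co

namespace Pool.Agent.S10784

/-- The negation of the preceding statement: There is a 2-colouring of the natural numbers such that for every infinite set X, the sums x+y with x, y in X (x = y allowed) do not all receive the same colour. -/
theorem result :
    ¬ (∃ c : ℕ → Bool, ∀ X : Set ℕ, X.Infinite →
      ∃ x ∈ X, ∃ y ∈ X, ∃ z ∈ X, ∃ w ∈ X, c (x + y) ≠ c (z + w)) := by
  rintro ⟨c, hc⟩
  obtain ⟨t, χ, a, ha, hb⟩ := Pool.Agent.Lib.helper26.Owings.main fun n => c (2 * n).toNat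
  have hle : ∀ i : ℕ, a 0 + i ≤ a i := by
    intro i
    induction i with
    | zero => simp
    | succ i ih =>
      have := ha (Nat.lt_succ_self i)
      push_cast
      simp only [Nat.succ_eq_add_one] at this
      omega
  obtain ⟨N, hN⟩ : ∃ N : ℕ, |t| - a 0 ≤ N := ⟨(|t| - a 0).toNat, Int.self_le_toNat _⟩
  have pos : ∀ i, 0 ≤ 2 * a (N + i) + t := fun i => by
    have h1 := hle (N + i)
    have h2 := neg_abs_le t
    have h3 := abs_nonneg t
    omega
  have key : ∀ i j, c ((2 * a (N + i) + t).toNat + (2 * a (N + j) + t).toNat) = χ := by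
    intro i j
    have h1 := pos i
    have h2 := pos j
    rcases le_total i j with h | h
    · rw [← hb (N + i) (N + j) (by omega)]
      congr 1
      omega
    · rw [← hb (N + j) (N + i) (by omega)]
      congr 1
      omega
  obtain ⟨_, ⟨i, rfl⟩, _, ⟨j, rfl⟩, _, ⟨k, rfl⟩, _, ⟨l, rfl⟩, hne⟩ :=
    hc (Set.range fun i => (2 * a (N + i) + t).toNat) (Set.infinite_range_of_injective (by
      intro i j hij
      have h1 := pos i
      have h2 := pos j
      have h3 : a (N + i) = a (N + j) := by
        simp only at hij
        omega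
      have := ha.injective h3
      omega))
  exact hne ((key i j).trans (key k l).symm)

end Pool.Agent.S10784
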