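import Pool.Statements.S10818
import Pool.Agent.Lib.helper30.TouchAll

set_option autoImplicit false
open Pool Pool.MP_afcf11_co

namespace Pool.Agent.S10818

open Pool.Agent.Lib.Helper30.Touch

lemma avg (L : ℕ) (I : Finset (ℕ × ℕ)) (hI : I ⊆ Finset.range L ×ˢ Finset.range L)
    (h : ∀ p ∈ I, ∀ q ∈ I, ¬ inS ((p.1 : ℤ) - q.1) ((p.2 : ℤ) - q.2)) :
    4024 * I.card ≤ 1005 * (L + 11) ^ 2 := by
  classical
  let R : ℕ → ℕ × ℕ → Prop := fun i t => ∃ p ∈ I, p.1 + 11 = px i + t.1 ∧ p.2 + 11 = py i + t.2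
  let B := Finset.range (L + 11) ×ˢ Finset.range (L + 11)
  have h1 : ∀ t ∈ B, ∑ i ∈ Finset.range 120, (if R i t then w i else 0) ≤ 1005 := by
    intro t _
    rw [← Finset.sum_filter]
    apply indep_bound _ (Finset.filter_subset _ _)
    intro u hu v hv
    obtain ⟨p, hp, p1, p2⟩ := (Finset.mem_filter.1 hu).2
    obtain ⟨q, hq, q1, q2⟩ := (Finset.mem_filter.1 hv).2
    have := h p hp q hq
    rwa [show (p.1 : ℤ) - q.1 = (px u : ℤ) - px v by omega,
      show (p.2 : ℤ) - q.2 = (py u : ℤ) - py v by omega] at this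
  have h2 : ∀ i ∈ Finset.range 120, w i * I.card ≤ ∑ t ∈ B, (if R i t then w i else 0) := by
    intro i hi
    obtain ⟨a1, a2⟩ := p_le i (Finset.mem_range.1 hi)
    rw [← Finset.sum_filter, Finset.sum_const, smul_eq_mul, mul_comm]
    apply Nat.mul_le_mul_right
    apply Finset.card_le_card_of_injOn (fun p => (p.1 + 11 - px i, p.2 + 11 - py i))
    · intro p hp
      have hp' := hI hp
      simp only [Finset.mem_product, Finset.mem_range] at hp'
      simp only [B, R, Finset.coe_filter, Finset.mem_product, Finset.mem_range, Set.mem_setOf_eq]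
      exact ⟨⟨by omega, by omega⟩, p, hp, by omega, by omega⟩
    · intro p _ q _ hpq
      simp only [Prod.mk.injEq] at hpq
      exact Prod.ext (by omega) (by omega)
  have h3 := Finset.sum_le_sum h2
  rw [← Finset.sum_mul, total_w, Finset.sum_comm] at h3
  have h4 := Finset.sum_le_sum h1
  rw [Finset.sum_const, smul_eq_mul] at h4
  have h5 : B.card = (L + 11) ^ 2 := by simp [B, sq]
  rw [h5] at h4
  linarith

abbrev E := EuclideanSpace ℝ (Fin 2)

def K : Set E := {z | |z 0| ≤ 2 ∧ |z 1| ≤ 2 ∧ |z 0| + |z 1| ≤ 3}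

lemma K_convex : Convex ℝ K := by
  intro x hx y hy a b ha hb hab
  obtain ⟨x0, x1, x2⟩ := hx
  obtain ⟨y0, y1, y2⟩ := hy
  have h : ∀ i, |(a • x + b • y) i| ≤ a * |x i| + b * |y i| := by
    intro i
    simp only [PiLp.add_apply, PiLp.smul_apply, smul_eq_mul]
    refine (abs_add_le _ _).trans ?_
    rw [abs_mul, abs_mul, abs_of_nonneg ha, abs_of_nonneg hb]
  refine ⟨?_, ?_, ?_⟩
  · nlinarith [h 0]
  · nlinarith [h 1]
  · nlinarith [h 0, h 1]

lemma K_compact : IsCompact K := by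
  apply Metric.isCompact_of_isClosed_isBounded
  · have h1 : IsClosed {z : E | |z 0| ≤ 2} := isClosed_le (by fun_prop) continuous_const
    have h2 : IsClosed {z : E | |z 1| ≤ 2} := isClosed_le (by fun_prop) continuous_const
    have h3 : IsClosed {z : E | |z 0| + |z 1| ≤ 3} := isClosed_le (by fun_prop) continuous_const
    exact h1.inter (h2.inter h3)
  · rw [Metric.isBounded_iff_subset_closedBall 0]
    refine ⟨3, fun v hv => ?_⟩
    rw [mem_closedBall_zero_iff, EuclideanSpace.norm_eq, Real.sqrt_le_left (by norm_num)]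
    simp only [Fin.sum_univ_two, Real.norm_eq_abs]
    have := hv.2.2
    nlinarith [abs_nonneg (v 0), abs_nonneg (v 1), mul_nonneg (abs_nonneg (v 0)) (abs_nonneg (v 1))]

lemma K_int : (interior K).Nonempty := by
  refine ⟨0, ?_⟩
  have ho : IsOpen {v : E | |v 0| + |v 1| < 2} := isOpen_lt (by fun_prop) continuous_const
  refine interior_maximal (fun v hv => ?_) ho (by simp)
  have hv' : |v 0| + |v 1| < 2 := hv
  refine ⟨?_, ?_, ?_⟩ <;> linarith [abs_nonneg (v 0), abs_nonneg (v 1)]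

lemma int_lt {A : Set E} {a b c : ℝ} (hab : 0 < a ^ 2 + b ^ 2)
    (h : ∀ z ∈ A, a * z 0 + b * z 1 ≤ c) {p : E} (hp : p ∈ interior A) :
    a * p 0 + b * p 1 < c := by
  let v : E := WithLp.toLp 2 ![a, b]
  have hc : Continuous (fun t : ℝ => p + t • v) := by fun_prop
  have h1 : ∀ᶠ t in nhds (0 : ℝ), p + t • v ∈ A := by
    apply hc.continuousAt.eventually_mem
    simpa using mem_interior_iff_mem_nhds.1 hp
  obtain ⟨t, h2, h3⟩ := ((h1.filter_mono nhdsWithin_le_nhds).and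
    (self_mem_nhdsWithin (s := Set.Ioi (0 : ℝ)))).exists
  have h4 := h _ h2
  have h5 : (0 : ℝ) < t := h3
  simp [v] at h4
  nlinarith [mul_pos h5 hab]

lemma K_strict (x p : E) (hp : p ∈ interior ((fun z => x + z) '' K)) :
    |p 0 - x 0| < 2 ∧ |p 1 - x 1| < 2 ∧ |p 0 - x 0| + |p 1 - x 1| < 3 := by
  have key : ∀ a b c : ℝ, 0 < a ^ 2 + b ^ 2 → (∀ z ∈ K, a * z 0 + b * z 1 ≤ c) →
      a * (p 0 - x 0) + b * (p 1 - x 1) < c := by
    intro a b c hab h
    have := int_lt (c := c + (a * x 0 + b * x 1)) hab (by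
      rintro _ ⟨z, hz, rfl⟩
      have := h z hz
      simp only [PiLp.add_apply]
      linarith) hp
    linarith
  have k1 := key 1 0 2 (by norm_num) (fun z hz => by linarith [le_abs_self (z 0), hz.1])
  have k2 := key (-1) 0 2 (by norm_num) (fun z hz => by linarith [neg_abs_le (z 0), hz.1])
  have k3 := key 0 1 2 (by norm_num) (fun z hz => by linarith [le_abs_self (z 1), hz.2.1])
  have k4 := key 0 (-1) 2 (by norm_num) (fun z hz => by linarith [neg_abs_le (z 1), hz.2.1])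
  have k5 := key 1 1 3 (by norm_num)
    (fun z hz => by linarith [le_abs_self (z 0), le_abs_self (z 1), hz.2.2])
  have k6 := key 1 (-1) 3 (by norm_num)
    (fun z hz => by linarith [le_abs_self (z 0), neg_abs_le (z 1), hz.2.2])
  have k7 := key (-1) 1 3 (by norm_num)
    (fun z hz => by linarith [neg_abs_le (z 0), le_abs_self (z 1), hz.2.2])
  have k8 := key (-1) (-1) 3 (by norm_num)
    (fun z hz => by linarith [neg_abs_le (z 0), neg_abs_le (z 1), hz.2.2])
  refine ⟨abs_lt.2 ⟨by linarith, by linarith⟩, abs_lt.2 ⟨by linarith, by linarith⟩, ?_⟩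
  rcases abs_cases (p 0 - x 0) with h | h <;> rcases abs_cases (p 1 - x 1) with h' | h' <;>
    linarith [h.1, h'.1]

noncomputable def emb (p : ℕ × ℕ) : E := WithLp.toLp 2 ![(p.1 : ℝ), (p.2 : ℝ)]

lemma emb_inj : Function.Injective emb := by
  intro p q h
  have h0 := congrArg (fun z : E => z 0) h
  have h1 := congrArg (fun z : E => z 1) h
  simp [emb] at h0 h1
  exact Prod.ext h0 h1

lemma touch (p q : ℕ × ℕ) (h : inS ((p.1 : ℤ) - q.1) ((p.2 : ℤ) - q.2)) :
    emb p ≠ emb q ∧ ((fun z => emb p + z) '' K ∩ (fun z => emb q + z) '' K).Nonempty ∧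
      interior ((fun z => emb p + z) '' K) ∩ interior ((fun z => emb q + z) '' K) = ∅ := by
  obtain ⟨h1, h2, h3, h4⟩ := h
  have h1' : |(p.1 : ℝ) - q.1| ≤ 4 := by exact_mod_cast h1
  have h2' : |(p.2 : ℝ) - q.2| ≤ 4 := by exact_mod_cast h2
  have h3' : |(p.1 : ℝ) - q.1| + |(p.2 : ℝ) - q.2| ≤ 6 := by exact_mod_cast h3
  have h4' : |(p.1 : ℝ) - q.1| = 4 ∨ |(p.2 : ℝ) - q.2| = 4 ∨
      |(p.1 : ℝ) - q.1| + |(p.2 : ℝ) - q.2| = 6 := by exact_mod_cast h4
  refine ⟨?_, ?_, ?_⟩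
  · intro he
    have := emb_inj he
    subst this
    simp at h4
  · have e : ∀ s a : ℝ, |s| = 1 / 2 → |s * a| = |a| / 2 := by
      intro s a hs; rw [abs_mul, hs]; ring
    refine ⟨(1 / 2 : ℝ) • (emb p + emb q), ⟨(-1 / 2 : ℝ) • (emb p - emb q), ?_, ?_⟩,
      ⟨(1 / 2 : ℝ) • (emb p - emb q), ?_, ?_⟩⟩
    · have a0 := e (-1 / 2) ((p.1 : ℝ) - q.1) (by norm_num [abs_of_neg])
      have a1 := e (-1 / 2) ((p.2 : ℝ) - q.2) (by norm_num [abs_of_neg])
      change |(-1 / 2 : ℝ) * ((p.1 : ℝ) - q.1)| ≤ 2 ∧ |(-1 / 2 : ℝ) * ((p.2 : ℝ) - q.2)| ≤ 2 ∧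
        |(-1 / 2 : ℝ) * ((p.1 : ℝ) - q.1)| + |(-1 / 2 : ℝ) * ((p.2 : ℝ) - q.2)| ≤ 3
      rw [a0, a1]
      refine ⟨?_, ?_, ?_⟩ <;> linarith
    · simp only; module
    · have a0 := e (1 / 2) ((p.1 : ℝ) - q.1) (by norm_num [abs_of_pos])
      have a1 := e (1 / 2) ((p.2 : ℝ) - q.2) (by norm_num [abs_of_pos])
      change |(1 / 2 : ℝ) * ((p.1 : ℝ) - q.1)| ≤ 2 ∧ |(1 / 2 : ℝ) * ((p.2 : ℝ) - q.2)| ≤ 2 ∧
        |(1 / 2 : ℝ) * ((p.1 : ℝ) - q.1)| + |(1 / 2 : ℝ) * ((p.2 : ℝ) - q.2)| ≤ 3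
      rw [a0, a1]
      refine ⟨?_, ?_, ?_⟩ <;> linarith
    · simp only; module
  · rw [Set.eq_empty_iff_forall_notMem]
    rintro z ⟨z1, z2⟩
    obtain ⟨a1, a2, a3⟩ := K_strict _ _ z1
    obtain ⟨b1, b2, b3⟩ := K_strict _ _ z2
    change |z 0 - p.1| < 2 at a1
    change |z 1 - p.2| < 2 at a2
    change |z 0 - p.1| + |z 1 - p.2| < 3 at a3
    change |z 0 - q.1| < 2 at b1
    change |z 1 - q.2| < 2 at b2
    change |z 0 - q.1| + |z 1 - q.2| < 3 at b3
    have t0 := abs_sub_le (p.1 : ℝ) (z 0) q.1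
    have t1 := abs_sub_le (p.2 : ℝ) (z 1) q.2
    rw [abs_sub_comm (p.1 : ℝ) (z 0)] at t0
    rw [abs_sub_comm (p.2 : ℝ) (z 1)] at t1
    rcases h4' with h | h | h <;> linarith

lemma main (L m : ℕ) (hm : 1005 * (L + 11) ^ 2 < 4024 * m) :
    ∃ T : Finset E, T.card = L * L ∧ ∀ S ⊆ T, S.card = m → ∃ x ∈ S, ∃ y ∈ S, x ≠ y ∧
      ((fun z => x + z) '' K ∩ (fun z => y + z) '' K).Nonempty ∧
      interior ((fun z => x + z) '' K) ∩ interior ((fun z => y + z) '' K) = ∅ := by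
  classical
  refine ⟨(Finset.range L ×ˢ Finset.range L).image emb, by
    rw [Finset.card_image_of_injective _ emb_inj]; simp, ?_⟩
  intro S hS hcard
  obtain ⟨I, hI, rfl⟩ := Finset.subset_image_iff.1 hS
  rw [Finset.card_image_of_injective _ emb_inj] at hcard
  by_contra hn
  have := avg L I hI (fun p hp q hq hpq => hn
    ⟨_, Finset.mem_image_of_mem _ hp, _, Finset.mem_image_of_mem _ hq, touch p q hpq⟩)
  rw [hcard] at this
  omega


/-- The negation of the preceding statement: For d ≥ 2, m > 2 and every convex body K in R^d: some set of at least (m−1)(d+1) translates has two touching members among any m, and every such set has at most (m−1)2^d translates. -/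
theorem result :
    ¬ (∀ (d m : ℕ), 2 ≤ d → 2 < m →
      ∀ K : Set (EuclideanSpace ℝ (Fin d)), Convex ℝ K → IsCompact K → (interior K).Nonempty →
        (∃ T : Finset (EuclideanSpace ℝ (Fin d)), (m - 1) * (d + 1) ≤ T.card ∧
          ∀ S ⊆ T, S.card = m → ∃ x ∈ S, ∃ y ∈ S, x ≠ y ∧
            ((fun z => x + z) '' K ∩ (fun z => y + z) '' K).Nonempty ∧
            interior ((fun z => x + z) '' K) ∩ interior ((fun z => y + z) '' K) = ∅) ∧
        (∀ T : Finset (EuclideanSpace ℝ (Fin d)),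
          (∀ S ⊆ T, S.card = m → ∃ x ∈ S, ∃ y ∈ S, x ≠ y ∧
            ((fun z => x + z) '' K ∩ (fun z => y + z) '' K).Nonempty ∧
            interior ((fun z => x + z) '' K) ∩ interior ((fun z => y + z) '' K) = ∅) →
          T.card ≤ (m - 1) * 2 ^ d)) := by
  intro h
  obtain ⟨T, hT, hS⟩ := main 30000 224941209 (by norm_num)
  have := (h 2 224941209 le_rfl (by norm_num) K K_convex K_compact K_int).2 T hS
  rw [hT] at this
  norm_num at this

end Pool.Agent.S10818
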