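import Pool.Statements.S10849

set_option autoImplicit false
open Pool Pool.MP_b0e7a9_co

namespace Pool.Agent.S10849

open scoped BigOperators

section aux
variable {E : Type} [NormedAddCommGroup E] [InnerProductSpace ℝ E] [FiniteDimensional ℝ E]
variable {ι : Type} [Fintype ι] [DecidableEq ι]

lemma riesz_sub (V : Submodule ℝ E) (ψ : E →ₗ[ℝ] ℝ) :
    ∃ g ∈ V, ∀ u ∈ V, inner ℝ g u = ψ u := by
  let f : V →L[ℝ] ℝ := LinearMap.toContinuousLinearMap (ψ.comp V.subtype)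
  refine ⟨((InnerProductSpace.toDual ℝ V).symm f : V), Submodule.coe_mem _, ?_⟩
  intro u hu
  have := InnerProductSpace.toDual_symm_apply (𝕜 := ℝ) (E := V) (x := ⟨u, hu⟩) (y := f)
  exact this

omit [FiniteDimensional ℝ E] [DecidableEq ι] in
lemma var_eq (v : ι → E) (l : ι → ℝ) (hl : ∑ i, l i = 1) :
    ∑ i, l i * ‖v i - ∑ j, l j • v j‖ ^ 2 = ∑ i, l i * ‖v i‖ ^ 2 - ‖∑ j, l j • v j‖ ^ 2 := by
  set x := ∑ j, l j • v j with hx
  have h1 : ∀ i, l i * ‖v i - x‖ ^ 2 = l i * ‖v i‖ ^ 2 - 2 * inner ℝ (l i • v i) x + l i * ‖x‖ ^ 2 := by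
    intro i
    rw [norm_sub_sq_real, inner_smul_left]
    simp only [conj_trivial]
    ring
  simp only [h1, Finset.sum_add_distrib, Finset.sum_sub_distrib, ← Finset.mul_sum, ← sum_inner,
    ← Finset.sum_mul, hl, ← hx, real_inner_self_eq_norm_sq]
  ring

omit [Fintype ι] in
lemma crossing (s : Finset ι) (l δ : ι → ℝ) (hl : ∀ i, 0 ≤ l i) (hδ : ∀ i, i ∉ s → δ i = 0)
    (j : ι) (hj : j ∈ s) (hle : l j + δ j ≤ 0) :
    ∃ σ : ℝ, 0 ≤ σ ∧ σ ≤ 1 ∧ (∀ i, 0 ≤ l i + σ * δ i) ∧ ∃ i ∈ s, l i + σ * δ i = 0 := by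
  by_cases h0 : 0 ≤ δ j
  · refine ⟨0, le_refl _, zero_le_one, fun i => by simpa using hl i, j, hj, ?_⟩
    have := hl j
    simp only [zero_mul, add_zero]
    linarith
  · push Not at h0
    obtain ⟨i0, hi0, hmin⟩ := Finset.exists_min_image (s.filter (fun i => δ i < 0))
      (fun i => l i / (-δ i)) ⟨j, Finset.mem_filter.mpr ⟨hj, h0⟩⟩
    obtain ⟨hi0s, hi0n⟩ := Finset.mem_filter.mp hi0
    refine ⟨l i0 / (-δ i0), div_nonneg (hl i0) (by linarith), ?_, ?_, i0, hi0s, ?_⟩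
    · refine le_trans (hmin j (Finset.mem_filter.mpr ⟨hj, h0⟩)) ?_
      rw [div_le_one (by linarith)]
      linarith
    · intro i
      by_cases hi : δ i < 0
      · have his : i ∈ s := by
          by_contra hn
          rw [hδ i hn] at hi
          exact lt_irrefl _ hi
        have h1 := hmin i (Finset.mem_filter.mpr ⟨his, hi⟩)
        rw [le_div_iff₀ (by linarith)] at h1
        linarith
      · push Not at hi
        have := mul_nonneg (div_nonneg (hl i0) (by linarith : 0 ≤ -δ i0)) hi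
        have := hl i
        linarith
    · have : δ i0 ≠ 0 := ne_of_lt hi0n
      field_simp
      ring

omit [FiniteDimensional ℝ E] in
lemma ball_ineq (g e : E) (lam r : ℝ) (hlam : 0 < lam) (hr : 0 ≤ r)
    (h : ∀ a : ℝ, ‖a • g‖ ^ 2 ≤ r + ‖e‖ ^ 2 → 0 < lam - inner ℝ g e - a * ‖g‖ ^ 2) :
    r * (‖g‖ ^ 2 / lam) < lam - 2 * inner ℝ g e := by
  by_cases hg : g = 0
  · subst hg
    simpa using hlam
  · have hgn : 0 < ‖g‖ := norm_pos_iff.mpr hg
    set R := r + ‖e‖ ^ 2 with hR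
    have hR0 : 0 ≤ R := by positivity
    have h1 := h (Real.sqrt R / ‖g‖) (by
      rw [norm_smul, Real.norm_eq_abs, abs_of_nonneg (by positivity), div_mul_cancel₀ _ hgn.ne',
        Real.sq_sqrt hR0])
    have h2 : Real.sqrt R / ‖g‖ * ‖g‖ ^ 2 = Real.sqrt R * ‖g‖ := by
      field_simp
    rw [h2] at h1
    have h3 : (Real.sqrt R * ‖g‖) ^ 2 < (lam - inner ℝ g e) ^ 2 := by
      apply pow_lt_pow_left₀ (by linarith) (by positivity) (by norm_num)
    rw [mul_pow, Real.sq_sqrt hR0] at h3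
    have h4 : (inner ℝ g e) ^ 2 ≤ ‖g‖ ^ 2 * ‖e‖ ^ 2 := by
      have := abs_real_inner_le_norm g e
      rw [← mul_pow, ← sq_abs]
      exact pow_le_pow_left₀ (abs_nonneg _) this 2
    rw [← mul_div_assoc, div_lt_iff₀ hlam]
    nlinarith

lemma one_step (v : ι → E) (φ : E →ₗ[ℝ] (ι → ℝ))
    (hφ : ∀ δ : ι → ℝ, ∑ i, δ i = 0 → φ (∑ i, δ i • v i) = δ)
    (s : Finset ι) (d : ℕ) (hd : 1 ≤ d) (hs : s.card = d + 1)
    (l : ι → ℝ) (hl : ∀ i, 0 ≤ l i) (hls : ∀ i, i ∉ s → l i = 0) (hl1 : ∑ i, l i = 1)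
    (τ : ι → ℝ) :
    ∃ ν : ι → ℝ, (∀ i, 0 ≤ ν i) ∧ (∀ i, i ∉ s → ν i = 0) ∧ ∑ i, ν i = 1 ∧ (∃ j ∈ s, ν j = 0) ∧
      ‖∑ i, ν i • v i - ∑ i, l i • v i‖ ^ 2 + (∑ i, τ i * ν i - ∑ i, τ i * l i)
        ≤ (∑ i, l i * ‖v i‖ ^ 2 - ‖∑ j, l j • v j‖ ^ 2) / (d : ℝ) ^ 2 := by
  by_contra hcon
  set x := ∑ j, l j • v j with hx
  set q := ∑ i, l i * ‖v i‖ ^ 2 - ‖x‖ ^ 2 with hq
  have hq' : q = ∑ i, l i * ‖v i - x‖ ^ 2 := (var_eq v l hl1).symm
  have hq0 : 0 ≤ q := by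
    rw [hq']
    exact Finset.sum_nonneg fun i _ => mul_nonneg (hl i) (by positivity)
  have hdpos : (0 : ℝ) < d := by exact_mod_cast hd
  set r := q / (d : ℝ) ^ 2 with hr
  have hr0 : 0 ≤ r := by positivity
  have H : ∀ δ : ι → ℝ, ∑ i, δ i = 0 → (∀ i, i ∉ s → δ i = 0) →
      ‖∑ i, δ i • v i‖ ^ 2 + ∑ i, τ i * δ i ≤ r → ∀ j ∈ s, 0 < l j + δ j := by
    intro δ hδ0 hδs hF j hj
    by_contra hle
    push Not at hle
    obtain ⟨σ, hσ0, hσ1, hpos, hz⟩ := crossing s l δ hl hδs j hj hle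
    apply hcon
    refine ⟨fun i => l i + σ * δ i, hpos, fun i hi => by simp [hls i hi, hδs i hi], ?_, hz, ?_⟩
    · rw [Finset.sum_add_distrib, ← Finset.mul_sum, hδ0, hl1]
      ring
    · have e1 : ∑ i, (l i + σ * δ i) • v i - x = σ • ∑ i, δ i • v i := by
        simp only [add_smul, Finset.sum_add_distrib, hx, Finset.smul_sum, mul_smul]
        abel
      have e2 : ∑ i, τ i * (l i + σ * δ i) - ∑ i, τ i * l i = σ * ∑ i, τ i * δ i := by
        rw [← Finset.sum_sub_distrib, Finset.mul_sum]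
        exact Finset.sum_congr rfl fun i _ => by ring
      rw [e1, e2, norm_smul, mul_pow, Real.norm_eq_abs, sq_abs]
      have hn : 0 ≤ ‖∑ i, δ i • v i‖ ^ 2 := by positivity
      have h1 : σ ^ 2 * ‖∑ i, δ i • v i‖ ^ 2 ≤ σ * ‖∑ i, δ i • v i‖ ^ 2 := by
        apply mul_le_mul_of_nonneg_right _ hn
        nlinarith
      have h2 := mul_le_mul_of_nonneg_left hF hσ0
      have h3 : σ * r ≤ r := by nlinarith
      nlinarith
  have hlpos : ∀ j ∈ s, 0 < l j := by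
    intro j hj
    have := H (fun _ => 0) (by simp) (by simp) (by simpa using hr0) j hj
    simpa using this
  let V : Submodule ℝ E :=
    { carrier := {u | ∃ δ : ι → ℝ, ∑ i, δ i = 0 ∧ (∀ i, i ∉ s → δ i = 0) ∧ u = ∑ i, δ i • v i}
      add_mem' := by
        rintro _ _ ⟨a, ha0, has, rfl⟩ ⟨b, hb0, hbs, rfl⟩
        refine ⟨fun i => a i + b i, ?_, fun i hi => by simp [has i hi, hbs i hi], ?_⟩
        · rw [Finset.sum_add_distrib, ha0, hb0, add_zero]
        · simp only [add_smul, Finset.sum_add_distrib]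
      zero_mem' := ⟨fun _ => 0, by simp, by simp, by simp⟩
      smul_mem' := by
        rintro c _ ⟨a, ha0, has, rfl⟩
        refine ⟨fun i => c * a i, ?_, fun i hi => by simp [has i hi], ?_⟩
        · rw [← Finset.mul_sum, ha0, mul_zero]
        · simp only [mul_smul, Finset.smul_sum] }
  have hg : ∀ i : ι, ∃ g ∈ V, ∀ u ∈ V, inner ℝ g u = φ u i := fun i =>
    riesz_sub V ((LinearMap.proj i).comp φ)
  choose g hgV hg using hg
  obtain ⟨t, htV, ht⟩ := riesz_sub V (∑ i, τ i • (LinearMap.proj i).comp φ)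
  have ht' : ∀ u ∈ V, inner ℝ t u = ∑ i, τ i * φ u i := by
    intro u hu
    rw [ht u hu]
    simp [LinearMap.sum_apply]
  obtain ⟨e, he⟩ : ∃ e : E, e = (1 / 2 : ℝ) • t := ⟨_, rfl⟩
  have heV : e ∈ V := he ▸ V.smul_mem _ htV
  have hte : t = (2 : ℝ) • e := by
    rw [he, smul_smul]
    norm_num
  have H2 : ∀ u ∈ V, ‖u‖ ^ 2 + inner ℝ t u ≤ r → ∀ j ∈ s, 0 < l j + inner ℝ (g j) u := by
    intro u hu hF j hj
    have hu' := hu
    obtain ⟨δ, hδ0, hδs, rfl⟩ := hu'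
    rw [hg j _ hu, hφ δ hδ0]
    rw [ht' _ hu, hφ δ hδ0] at hF
    exact H δ hδ0 hδs hF j hj
  have H3 : ∀ j ∈ s, r * (‖g j‖ ^ 2 / l j) < l j - 2 * inner ℝ (g j) e := by
    intro j hj
    apply ball_ineq _ _ _ _ (hlpos j hj) hr0
    intro a ha
    have hmem : -e - a • g j ∈ V := V.sub_mem (V.neg_mem heV) (V.smul_mem _ (hgV j))
    have := H2 _ hmem (by
      rw [hte, norm_sub_sq_real, norm_neg, inner_neg_left, inner_smul_left, inner_sub_right,
        inner_neg_right, real_inner_self_eq_norm_sq]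
      simp only [conj_trivial]
      linarith) j hj
    rw [inner_sub_right, inner_neg_right, inner_smul_right, real_inner_self_eq_norm_sq] at this
    linarith
  have hsne : s.Nonempty := Finset.card_pos.mp (by omega)
  have hsum := Finset.sum_lt_sum_of_nonempty hsne H3
  have hls1 : ∑ j ∈ s, l j = 1 := by
    rw [← hl1]
    exact Finset.sum_subset (Finset.subset_univ s) fun i _ hi => hls i hi
  have hge : ∑ j ∈ s, inner ℝ (g j) e = 0 := by
    have hu' := heV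
    obtain ⟨δ, hδ0, hδs, hδ⟩ := hu'
    have : ∀ j, inner ℝ (g j) e = δ j := by
      intro j
      rw [hg j e heV, hδ, hφ δ hδ0]
    simp only [this]
    rw [← hδ0]
    exact Finset.sum_subset (Finset.subset_univ s) fun i _ hi => hδs i hi
  rw [Finset.sum_sub_distrib, ← Finset.mul_sum, ← Finset.mul_sum, hls1, hge] at hsum
  set G := ∑ j ∈ s, ‖g j‖ ^ 2 / l j with hG
  have hgw : ∀ j ∈ s, inner ℝ (g j) (v j - x) = 1 - l j := by
    intro j hj
    have hδ0 : ∑ i, ((Pi.single j (1 : ℝ) : ι → ℝ) i - l i) = 0 := by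
      rw [Finset.sum_sub_distrib, hl1]
      simp
    have hrep : v j - x = ∑ i, ((Pi.single j (1 : ℝ) : ι → ℝ) i - l i) • v i := by
      simp only [sub_smul, Finset.sum_sub_distrib, hx]
      congr 1
      rw [Finset.sum_eq_single j]
      · simp
      · intro i _ hi
        simp [hi]
      · simp
    have hmem : v j - x ∈ V := by
      refine ⟨_, hδ0, ?_, hrep⟩
      intro i hi
      have : i ≠ j := fun h => hi (h ▸ hj)
      simp [this, hls i hi]
    rw [hg j _ hmem, hrep, hφ _ hδ0]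
    simp
  have hd1 : ∑ j ∈ s, inner ℝ (g j) (v j - x) = d := by
    rw [Finset.sum_congr rfl hgw, Finset.sum_sub_distrib, hls1]
    simp [hs]
  have hqs : q = ∑ j ∈ s, l j * ‖v j - x‖ ^ 2 := by
    rw [hq']
    exact (Finset.sum_subset (Finset.subset_univ s) fun i _ hi => by simp [hls i hi]).symm
  have hcs : (d : ℝ) ^ 2 ≤ G * q := by
    have h1 : (d : ℝ) ≤ ∑ j ∈ s, (‖g j‖ / Real.sqrt (l j)) * (Real.sqrt (l j) * ‖v j - x‖) := by
      rw [← hd1]
      apply Finset.sum_le_sum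
      intro j hj
      have hsq : 0 < Real.sqrt (l j) := Real.sqrt_pos.mpr (hlpos j hj)
      have : (‖g j‖ / Real.sqrt (l j)) * (Real.sqrt (l j) * ‖v j - x‖) = ‖g j‖ * ‖v j - x‖ := by
        field_simp
      rw [this]
      exact real_inner_le_norm _ _
    have h2 := Finset.sum_mul_sq_le_sq_mul_sq s (fun j => ‖g j‖ / Real.sqrt (l j))
      (fun j => Real.sqrt (l j) * ‖v j - x‖)
    have h3 : ∑ j ∈ s, (‖g j‖ / Real.sqrt (l j)) ^ 2 = G := by
      apply Finset.sum_congr rfl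
      intro j hj
      rw [div_pow, Real.sq_sqrt (hl j)]
    have h4 : ∑ j ∈ s, (Real.sqrt (l j) * ‖v j - x‖) ^ 2 = q := by
      rw [hqs]
      apply Finset.sum_congr rfl
      intro j hj
      rw [mul_pow, Real.sq_sqrt (hl j)]
    rw [h3, h4] at h2
    exact le_trans (pow_le_pow_left₀ hdpos.le h1 2) h2
  have hlt : q * G < (d : ℝ) ^ 2 := by
    have : r * G < 1 := by linarith
    rw [hr, div_mul_eq_mul_div, div_lt_one (by positivity)] at this
    exact this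
  linarith [mul_comm G q]

lemma main_ind (v : ι → E) (φ : E →ₗ[ℝ] (ι → ℝ))
    (hφ : ∀ δ : ι → ℝ, ∑ i, δ i = 0 → φ (∑ i, δ i • v i) = δ) (n : ℕ) (hn : 2 ≤ n) :
    ∀ N : ℕ, n ≤ N → ∀ s : Finset ι, s.card = N →
    ∀ l : ι → ℝ, (∀ i, 0 ≤ l i) → (∀ i, i ∉ s → l i = 0) → ∑ i, l i = 1 → ∀ τ : ι → ℝ,
    ∃ μ : ι → ℝ, (∀ i, 0 ≤ μ i) ∧ ∑ i, μ i = 1 ∧
      (∃ s' : Finset ι, s'.card = n ∧ ∀ i, i ∉ s' → μ i = 0) ∧
      ‖∑ i, μ i • v i - ∑ i, l i • v i‖ ^ 2 + (∑ i, τ i * μ i - ∑ i, τ i * l i)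
        ≤ (((N : ℝ) - n) / (n * ((N : ℝ) - 1))) *
          (∑ i, l i * ‖v i‖ ^ 2 - ‖∑ j, l j • v j‖ ^ 2) := by
  intro N hN
  induction N, hN using Nat.le_induction with
  | base =>
    intro s hs l hl hls hl1 τ
    exact ⟨l, hl, hl1, ⟨s, hs, hls⟩, by simp⟩
  | succ N hN ih =>
    intro s hs l hl hls hl1 τ
    have hn' : (2 : ℝ) ≤ n := by exact_mod_cast hn
    have hN' : (n : ℝ) ≤ N := by exact_mod_cast hN
    set α : ℝ := ((N : ℝ) - n) / (n * ((N : ℝ) - 1)) with hα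
    have hN1 : (0 : ℝ) < (N : ℝ) - 1 := by linarith
    have hn0 : (0 : ℝ) < n := by linarith
    have hN0 : (0 : ℝ) < N := by linarith
    have hα1 : 0 < 1 - α := by
      rw [hα, sub_pos, div_lt_one (by positivity)]
      nlinarith
    set x := ∑ j, l j • v j with hx
    obtain ⟨ν, hν, hνs, hν1, ⟨j, hj, hνj⟩, hF⟩ := one_step v φ hφ s N (by omega) hs l hl hls hl1
      (fun i => (τ i + α * (‖v i‖ ^ 2 - 2 * inner ℝ x (v i))) / (1 - α))
    set y := ∑ j, ν j • v j with hy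
    obtain ⟨μ, hμ, hμ1, hμs, hG⟩ := ih (s.erase j) (by rw [Finset.card_erase_of_mem hj]; omega)
      ν hν (by
        intro i hi
        by_cases hij : i = j
        · rw [hij, hνj]
        · exact hνs i (fun h => hi (Finset.mem_erase.mpr ⟨hij, h⟩))) hν1
      (fun i => τ i + 2 * inner ℝ (y - x) (v i))
    refine ⟨μ, hμ, hμ1, hμs, ?_⟩
    set z := ∑ j, μ j • v j with hz
    rw [← hy] at hG
    rw [← hx] at hF
    have lin : ∀ (w : E) (c : ι → ℝ), ∑ i, inner ℝ w (v i) * c i = inner ℝ w (∑ i, c i • v i) := by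
      intro w c
      rw [inner_sum]
      exact Finset.sum_congr rfl fun i _ => by rw [inner_smul_right]; ring
    have e1 : ∀ c : ι → ℝ, ∑ i, (τ i + 2 * inner ℝ (y - x) (v i)) * c i
        = ∑ i, τ i * c i + 2 * inner ℝ (y - x) (∑ i, c i • v i) := by
      intro c
      rw [← lin, Finset.mul_sum, ← Finset.sum_add_distrib]
      exact Finset.sum_congr rfl fun i _ => by ring
    have e2 : ∀ c : ι → ℝ,
        ∑ i, (τ i + α * (‖v i‖ ^ 2 - 2 * inner ℝ x (v i))) / (1 - α) * c i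
        = (∑ i, τ i * c i + α * (∑ i, c i * ‖v i‖ ^ 2 - 2 * inner ℝ x (∑ i, c i • v i))) / (1 - α) := by
      intro c
      rw [← lin, Finset.mul_sum, ← Finset.sum_sub_distrib, Finset.mul_sum, ← Finset.sum_add_distrib,
        Finset.sum_div]
      exact Finset.sum_congr rfl fun i _ => by ring
    rw [e1, e1, ← hy, ← hz] at hG
    rw [e2, e2, ← hy, ← hx] at hF
    set A := ∑ i, τ i * l i
    set B := ∑ i, τ i * ν i
    set C := ∑ i, τ i * μ i
    set P := ∑ i, l i * ‖v i‖ ^ 2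
    set Q := ∑ i, ν i * ‖v i‖ ^ 2
    have f1 : ‖z - x‖ ^ 2 = ‖z - y‖ ^ 2 + 2 * (inner ℝ (y - x) z - inner ℝ (y - x) y) + ‖y - x‖ ^ 2 := by
      have : z - x = (z - y) + (y - x) := by abel
      rw [this, norm_add_sq_real, real_inner_comm, inner_sub_right]
    have f2 : ‖y‖ ^ 2 = ‖x‖ ^ 2 + 2 * (inner ℝ x y - inner ℝ x x) + ‖y - x‖ ^ 2 := by
      have : y = x + (y - x) := by abel
      conv_lhs => rw [this, norm_add_sq_real, inner_sub_right]
    have hF2 := mul_le_mul_of_nonneg_left hF hα1.le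
    have f3 : (1 - α) * (‖y - x‖ ^ 2 + ((B + α * (Q - 2 * inner ℝ x y)) / (1 - α)
        - (A + α * (P - 2 * inner ℝ x x)) / (1 - α)))
        = (1 - α) * ‖y - x‖ ^ 2 + (B + α * (Q - 2 * inner ℝ x y)) - (A + α * (P - 2 * inner ℝ x x)) := by
      field_simp
      ring
    rw [f3] at hF2
    have f4 : (((N + 1 : ℕ) : ℝ) - n) / (n * (((N + 1 : ℕ) : ℝ) - 1)) = α + (1 - α) / (N : ℝ) ^ 2 := by
      rw [hα]
      push_cast
      have : (N : ℝ) + 1 - 1 = N := by ring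
      rw [this]
      field_simp
      ring
    rw [f4]
    have f5 : (α + (1 - α) / (N : ℝ) ^ 2) * (P - ‖x‖ ^ 2)
        = α * (P - ‖x‖ ^ 2) + (1 - α) * ((P - ‖x‖ ^ 2) / (N : ℝ) ^ 2) := by ring
    rw [f5, f1]
    rw [f2] at hG
    nlinarith

end aux

/-- The regular simplex is extremal for balls missing the k-skeleton. -/
theorem result :
    ∀ (d k : ℕ), 0 < d → k < d →
    ∀ (p : Fin (d + 1) → EuclideanSpace ℝ (Fin d)), AffineIndependent ℝ p →
    (∀ i, ‖p i‖ ≤ 1) →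
    ∀ (x : EuclideanSpace ℝ (Fin d)), x ∈ convexHull ℝ (Set.range p) →
    ∀ ρ : ℝ,
      Disjoint (Metric.ball x ρ)
        (⋃ (s : Finset (Fin (d + 1))) (_ : s.card = k + 1), convexHull ℝ (p '' (s : Set (Fin (d + 1))))) →
      ρ ≤ Real.sqrt (((d : ℝ) - (k : ℝ)) / ((d : ℝ) * ((k : ℝ) + 1))) := by
  intro d k hd hk p hp hn x hx ρ hdis
  have hdpos : (0 : ℝ) < d := by exact_mod_cast hd
  have hkd : (k : ℝ) < d := by exact_mod_cast hk
  obtain ⟨l, hl, hl1, hlx⟩ : ∃ l : Fin (d + 1) → ℝ, (∀ i, 0 ≤ l i) ∧ ∑ i, l i = 1 ∧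
      ∑ i, l i • p i = x := by
    rw [convexHull_range_eq_exists_affineCombination] at hx
    obtain ⟨s, w, hw0, hw1, rfl⟩ := hx
    classical
    refine ⟨fun i => if i ∈ s then w i else 0, ?_, ?_, ?_⟩
    · intro i
      by_cases h : i ∈ s
      · simp [h, hw0 i h]
      · simp [h]
    · rw [Finset.sum_ite_mem, Finset.univ_inter, hw1]
    · rw [Finset.affineCombination_eq_linear_combination s p w hw1]
      simp only [ite_smul, zero_smul]
      rw [Finset.sum_ite_mem, Finset.univ_inter]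
  have hq1 : ∑ i, l i * ‖p i‖ ^ 2 - ‖∑ j, l j • p j‖ ^ 2 ≤ 1 := by
    have h1 : ∑ i, l i * ‖p i‖ ^ 2 ≤ ∑ i, l i := by
      apply Finset.sum_le_sum
      intro i _
      have h2 : ‖p i‖ ^ 2 ≤ 1 := by
        have := hn i
        have := norm_nonneg (p i)
        nlinarith
      have := hl i
      nlinarith
    have : 0 ≤ ‖∑ j, l j • p j‖ ^ 2 := by positivity
    linarith
  have fin : ∀ z, z ∈ (⋃ (s : Finset (Fin (d + 1))) (_ : s.card = k + 1),
      convexHull ℝ (p '' (s : Set (Fin (d + 1))))) →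
      ‖z - x‖ ^ 2 ≤ ((d : ℝ) - (k : ℝ)) / ((d : ℝ) * ((k : ℝ) + 1)) →
      ρ ≤ Real.sqrt (((d : ℝ) - (k : ℝ)) / ((d : ℝ) * ((k : ℝ) + 1))) := by
    intro z hz hle
    have h1 : z ∉ Metric.ball x ρ := fun h => (Set.disjoint_left.mp hdis) h hz
    rw [Metric.mem_ball, dist_eq_norm, not_lt] at h1
    exact le_trans h1 (Real.le_sqrt_of_sq_le hle)
  rcases Nat.eq_zero_or_pos k with hk0 | hk0
  · subst hk0
    obtain ⟨j, _, hj⟩ := Finset.exists_min_image Finset.univ (fun i => ‖p i - x‖ ^ 2)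
      (Finset.univ_nonempty (α := Fin (d + 1)))
    apply fin (p j)
    · simp only [Set.mem_iUnion]
      exact ⟨{j}, by simp, subset_convexHull ℝ _ ⟨j, by simp, rfl⟩⟩
    · have h1 := var_eq p l hl1
      rw [← h1, hlx] at hq1
      have h2 : ∑ i, l i * ‖p j - x‖ ^ 2 ≤ ∑ i, l i * ‖p i - x‖ ^ 2 :=
        Finset.sum_le_sum fun i _ => mul_le_mul_of_nonneg_left (hj i (Finset.mem_univ i)) (hl i)
      rw [← Finset.sum_mul, hl1, one_mul] at h2
      have h3 : ((d : ℝ) - ((0 : ℕ) : ℝ)) / ((d : ℝ) * (((0 : ℕ) : ℝ) + 1)) = 1 := by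
        simp [hdpos.ne']
      rw [h3]
      linarith
  · let L : (Fin (d + 1) → ℝ) →ₗ[ℝ] (EuclideanSpace ℝ (Fin d) × ℝ) :=
      LinearMap.prod (Fintype.linearCombination ℝ p) (Fintype.linearCombination ℝ (fun _ => (1 : ℝ)))
    have hL : ∀ δ, L δ = (∑ i, δ i • p i, ∑ i, δ i) := by
      intro δ
      simp [L, Fintype.linearCombination_apply]
    have hker : LinearMap.ker L = ⊥ := by
      rw [LinearMap.ker_eq_bot']
      intro δ hδ
      rw [hL, Prod.mk_eq_zero] at hδ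
      funext i
      exact (affineIndependent_iff.mp hp) Finset.univ δ hδ.2 hδ.1 i (Finset.mem_univ i)
    obtain ⟨K, hK⟩ := LinearMap.exists_leftInverse_of_injective L hker
    have hφ : ∀ δ : Fin (d + 1) → ℝ, ∑ i, δ i = 0 →
        (K.comp (LinearMap.inl ℝ _ ℝ)) (∑ i, δ i • p i) = δ := by
      intro δ hδ
      have h1 : K (L δ) = δ := LinearMap.congr_fun hK δ
      rw [hL, hδ] at h1
      exact h1
    obtain ⟨μ, hμ, hμ1, ⟨s, hs, hμs⟩, hle⟩ := main_ind p _ hφ (k + 1) (by omega) (d + 1) (by omega)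
      Finset.univ (by simp) l hl (by simp) hl1 (fun _ => 0)
    apply fin (∑ i, μ i • p i)
    · simp only [Set.mem_iUnion]
      refine ⟨s, hs, ?_⟩
      have e1 : ∑ i, μ i • p i = ∑ i ∈ s, μ i • p i :=
        (Finset.sum_subset (Finset.subset_univ s) fun i _ hi => by simp [hμs i hi]).symm
      have e2 : ∑ i ∈ s, μ i = 1 := by
        rw [← hμ1]
        exact Finset.sum_subset (Finset.subset_univ s) fun i _ hi => hμs i hi
      rw [e1]
      exact (convex_convexHull ℝ _).sum_mem (fun i _ => hμ i) e2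
        (fun i hi => subset_convexHull ℝ _ ⟨i, hi, rfl⟩)
    · simp only [zero_mul, Finset.sum_const_zero, sub_self, add_zero] at hle
      have h3 : (((d + 1 : ℕ) : ℝ) - ((k + 1 : ℕ) : ℝ)) / (((k + 1 : ℕ) : ℝ) * (((d + 1 : ℕ) : ℝ) - 1))
          = ((d : ℝ) - (k : ℝ)) / ((d : ℝ) * ((k : ℝ) + 1)) := by
        push_cast
        congr 1 <;> ring
      rw [h3] at hle
      have h4 : 0 ≤ ((d : ℝ) - (k : ℝ)) / ((d : ℝ) * ((k : ℝ) + 1)) :=
        div_nonneg (by linarith) (by positivity)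
      have h5 := mul_le_mul_of_nonneg_left hq1 h4
      rw [← hlx]
      linarith

end Pool.Agent.S10849
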