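import Pool.Statements.S10880

set_option autoImplicit false
open Pool Pool.MP_b23e6d_co

namespace Pool.Agent.S10880

/-- Vertices: rows `w a`, chain `u i`, and grid points `p a j`. -/
inductive V : Type
  | w : ℕ → V
  | u : ℕ → V
  | p : ℕ → ℕ → V

def rel : V → V → Prop
  | V.w _, V.w _ => False
  | V.w _, V.u _ => True
  | V.w a, V.p b _ => a = b
  | V.u _, V.w _ => True
  | V.u i, V.u j => i ≠ j
  | V.u i, V.p _ j => i ≤ j
  | V.p a _, V.w b => a = b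
  | V.p _ j, V.u i => i ≤ j
  | V.p _ _, V.p _ _ => False

def Γ : SimpleGraph V where
  Adj := rel
  symm := ⟨by
    intro x y h
    cases x <;> cases y <;> simp_all [rel] <;> omega⟩
  loopless := ⟨by
    intro x
    cases x <;> simp [rel]⟩

theorem two_nbrs {n : ℕ} (G : SimpleGraph (Fin n)) (hn : 3 ≤ n) (hc : G.Connected)
    (h2 : ∀ v : Fin n, (G.induce {w | w ≠ v}).Connected) (x : Fin n) :
    ∃ y z, y ≠ z ∧ G.Adj x y ∧ G.Adj x z := by
  have ex : ∀ a b : Fin n, ∃ c : Fin n, c ≠ a ∧ c ≠ b := by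
    intro a b
    by_contra hcon
    push Not at hcon
    have : (Finset.univ : Finset (Fin n)) ⊆ {a, b} := by
      intro c _
      by_cases h : c = a
      · simp [h]
      · simp [hcon c h]
    have h1 := Finset.card_le_card this
    have h3 : ({a, b} : Finset (Fin n)).card ≤ 2 := Finset.card_le_two
    simp at h1
    omega
  obtain ⟨c, hc1, -⟩ := ex x x
  obtain ⟨q⟩ := hc.preconnected x c
  cases q with
  | nil => exact absurd rfl hc1
  | @cons _ y _ hxy _ =>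
    obtain ⟨d, hd1, hd2⟩ := ex x y
    obtain ⟨q⟩ := (h2 y).preconnected ⟨x, hxy.ne⟩ ⟨d, hd2⟩
    have hne : (⟨x, hxy.ne⟩ : {w | w ≠ y}) ≠ ⟨d, hd2⟩ := fun h => hd1 (congrArg Subtype.val h).symm
    obtain ⟨z, hz⟩ : ∃ z : {w | w ≠ y}, (G.induce {w | w ≠ y}).Adj ⟨x, hxy.ne⟩ z := by
      generalize (⟨x, hxy.ne⟩ : {w | w ≠ y}) = a at q hne
      generalize (⟨d, hd2⟩ : {w | w ≠ y}) = b at q hne
      cases q with
      | nil => exact absurd rfl hne
      | cons h _ => exact ⟨_, h⟩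
    exact ⟨y, z.1, fun h => z.2 h.symm, hxy, hz⟩

theorem not_prime {n : ℕ} (G : SimpleGraph (Fin n)) (f : G ↪g Γ) (hn : 3 ≤ n) (hc : G.Connected)
    (h2 : ∀ v : Fin n, (G.induce {w | w ≠ v}).Connected)
    (hp : ∀ M : Set (Fin n), (∀ x, x ∉ M → ∀ y ∈ M, ∀ z ∈ M, (G.Adj x y ↔ G.Adj x z)) →
      M.Subsingleton ∨ M = Set.univ) : False := by
  classical
  have nb := two_nbrs G hn hc h2
  have adj : ∀ x y, G.Adj x y ↔ rel (f x) (f y) := fun x y => f.map_adj_iff.symm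
  -- a grid point has a chain neighbour
  have hpu : ∀ x a j, f x = V.p a j → ∃ y i, f y = V.u i ∧ i ≤ j := by
    intro x a j hx
    obtain ⟨y, z, hyz, hy, hz⟩ := nb x
    rw [adj, hx] at hy hz
    have hne : f y ≠ f z := f.injective.ne hyz
    cases hy' : f y with
    | u i => rw [hy'] at hy; exact ⟨y, i, hy', hy⟩
    | p b l => rw [hy'] at hy; exact hy.elim
    | w b =>
      cases hz' : f z with
      | u i => rw [hz'] at hz; exact ⟨z, i, hz', hz⟩
      | p c l => rw [hz'] at hz; exact hz.elim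
      | w c =>
        rw [hy'] at hy hne; rw [hz'] at hz hne
        simp only [rel] at hy hz
        exact absurd (by rw [← hy, ← hz]) hne
  have hex : ∃ i, ∃ y, f y = V.u i := by
    let x : Fin n := ⟨0, by omega⟩
    cases hx : f x with
    | u i => exact ⟨i, x, hx⟩
    | p a j => obtain ⟨y, i, h, -⟩ := hpu x a j hx; exact ⟨i, y, h⟩
    | w a =>
      obtain ⟨y, z, -, hy, -⟩ := nb x
      rw [adj, hx] at hy
      cases hy' : f y with
      | u i => exact ⟨i, y, hy'⟩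
      | p b j => obtain ⟨y, i, h, -⟩ := hpu y b j hy'; exact ⟨i, y, h⟩
      | w b => rw [hy'] at hy; exact hy.elim
  obtain ⟨y, hy⟩ := Nat.find_spec hex
  have huniv : ∀ z, z ≠ y → G.Adj y z := by
    intro z hz
    rw [adj, hy]
    have hne : f z ≠ f y := f.injective.ne hz
    cases hz' : f z with
    | w a => trivial
    | u i =>
      rw [hz', hy] at hne
      intro h
      exact hne (by rw [h])
    | p a j =>
      obtain ⟨y', i, h, hij⟩ := hpu z a j hz'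
      exact le_trans (Nat.find_min' hex ⟨y', h⟩) hij
  rcases hp {z | z ≠ y} (by
    intro x hx a ha b hb
    have : x = y := by simpa using hx
    subst this
    exact ⟨fun _ => huniv b hb, fun _ => huniv a ha⟩) with h | h
  · obtain ⟨a, b, hab, ha, hb⟩ := nb y
    exact hab (h ha.ne.symm hb.ne.symm)
  · have : y ∈ {z | z ≠ y} := h ▸ Set.mem_univ y
    exact this rfl

theorem cw_lower (k t : ℕ) (ht : 1 ≤ t) (W : Finset ℕ) (S : Finset ℕ) (H : SimpleGraph ℕ)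
    (ℓ : ℕ → Fin k)
    (h : ∀ P : Finset ℕ → SimpleGraph ℕ → (ℕ → Fin k) → Prop,
            ((∀ ℓ₀ : ℕ → Fin k, P ∅ ⊥ ℓ₀) ∧
             (∀ (i : ℕ) (ℓ₀ : ℕ → Fin k), P {i} ⊥ ℓ₀) ∧
             (∀ (S₁ S₂ : Finset ℕ) (H₁ H₂ : SimpleGraph ℕ) (ℓ₁ ℓ₂ : ℕ → Fin k),
                P S₁ H₁ ℓ₁ → P S₂ H₂ ℓ₂ → Disjoint S₁ S₂ →
                P (S₁ ∪ S₂) (H₁ ⊔ H₂) (fun v => if v ∈ S₁ then ℓ₁ v else ℓ₂ v)) ∧
             (∀ (S : Finset ℕ) (H : SimpleGraph ℕ) (ℓ₀ : ℕ → Fin k) (a b : Fin k),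
                a ≠ b → P S H ℓ₀ →
                P S (H ⊔ SimpleGraph.fromRel
                  (fun u v => u ∈ S ∧ v ∈ S ∧ ℓ₀ u = a ∧ ℓ₀ v = b)) ℓ₀) ∧
             (∀ (S : Finset ℕ) (H : SimpleGraph ℕ) (ℓ₀ : ℕ → Fin k) (a b : Fin k),
                P S H ℓ₀ → P S H (fun v => if ℓ₀ v = a then b else ℓ₀ v))) → P S H ℓ)
    (hW : t < (S ∩ W).card) :
    ∃ X ⊆ S, t < (X ∩ W).card ∧ (X ∩ W).card ≤ 2 * t ∧ ∃ c : ℕ → Fin k, ∀ x ∈ X, ∀ y ∈ X,
      c x = c y → ∀ z ∈ S, z ∉ X → (H.Adj x z ↔ H.Adj y z) := by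
  have key := h (fun S H ℓ => (∀ u v, H.Adj u v → u ∈ S ∧ v ∈ S) ∧ (t < (S ∩ W).card →
    ∃ X ⊆ S, t < (X ∩ W).card ∧ (X ∩ W).card ≤ 2 * t ∧ ∃ c : ℕ → Fin k, ∀ x ∈ X, ∀ y ∈ X,
      c x = c y → ℓ x = ℓ y ∧ ∀ z ∈ S, z ∉ X → (H.Adj x z ↔ H.Adj y z))) ?_
  · obtain ⟨X, h1, h2, h3, c, h4⟩ := key.2 hW
    exact ⟨X, h1, h2, h3, c, fun x hx y hy hc => (h4 x hx y hy hc).2⟩
  refine ⟨?_, ?_, ?_, ?_, ?_⟩
  · intro ℓ₀
    simp
  · intro i ℓ₀
    refine ⟨by simp, fun h => ?_⟩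
    have : (({i} : Finset ℕ) ∩ W).card ≤ ({i} : Finset ℕ).card :=
      Finset.card_le_card Finset.inter_subset_left
    simp only [Finset.card_singleton] at this
    omega
  · rintro S₁ S₂ H₁ H₂ ℓ₁ ℓ₂ ⟨a1, b1⟩ ⟨a2, b2⟩ hd
    rw [Finset.disjoint_left] at hd
    refine ⟨?_, fun hc => ?_⟩
    · intro u v huv
      rcases huv with h | h
      · exact ⟨Finset.mem_union_left _ (a1 u v h).1, Finset.mem_union_left _ (a1 u v h).2⟩
      · exact ⟨Finset.mem_union_right _ (a2 u v h).1, Finset.mem_union_right _ (a2 u v h).2⟩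
    by_cases c1 : t < (S₁ ∩ W).card
    · obtain ⟨X, h1, h2, h3, c, h4⟩ := b1 c1
      refine ⟨X, h1.trans Finset.subset_union_left, h2, h3, c, fun x hx y hy hc => ?_⟩
      obtain ⟨h5, h6⟩ := h4 x hx y hy hc
      refine ⟨by simp [h1 hx, h1 hy, h5], fun z hz hzX => ?_⟩
      have n1 : ¬ H₂.Adj x z := fun h => hd (h1 hx) (a2 _ _ h).1
      have n2 : ¬ H₂.Adj y z := fun h => hd (h1 hy) (a2 _ _ h).1
      simp only [SimpleGraph.sup_adj, n1, n2, or_false]
      by_cases hz1 : z ∈ S₁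
      · exact h6 z hz1 hzX
      · exact ⟨fun h => absurd (a1 _ _ h).2 hz1, fun h => absurd (a1 _ _ h).2 hz1⟩
    by_cases c2 : t < (S₂ ∩ W).card
    · obtain ⟨X, h1, h2, h3, c, h4⟩ := b2 c2
      refine ⟨X, h1.trans Finset.subset_union_right, h2, h3, c, fun x hx y hy hc => ?_⟩
      obtain ⟨h5, h6⟩ := h4 x hx y hy hc
      have hx1 : x ∉ S₁ := fun h => hd h (h1 hx)
      have hy1 : y ∉ S₁ := fun h => hd h (h1 hy)
      refine ⟨by simp [hx1, hy1, h5], fun z hz hzX => ?_⟩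
      have n1 : ¬ H₁.Adj x z := fun h => hx1 (a1 _ _ h).1
      have n2 : ¬ H₁.Adj y z := fun h => hy1 (a1 _ _ h).1
      simp only [SimpleGraph.sup_adj, n1, n2, false_or]
      by_cases hz1 : z ∈ S₂
      · exact h6 z hz1 hzX
      · exact ⟨fun h => absurd (a2 _ _ h).2 hz1, fun h => absurd (a2 _ _ h).2 hz1⟩
    refine ⟨S₁ ∪ S₂, Finset.Subset.refl _, hc, ?_, fun v => if v ∈ S₁ then ℓ₁ v else ℓ₂ v,
      fun x _ y _ hc => ⟨hc, fun z hz hzX => absurd hz hzX⟩⟩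
    rw [Finset.union_inter_distrib_right]
    have := Finset.card_union_le (S₁ ∩ W) (S₂ ∩ W)
    omega
  · rintro S H ℓ₀ a b hab ⟨a1, b1⟩
    refine ⟨?_, fun hc => ?_⟩
    · intro u v huv
      rcases huv with h | h
      · exact a1 u v h
      · rw [SimpleGraph.fromRel_adj] at h
        rcases h.2 with h | h
        · exact ⟨h.1, h.2.1⟩
        · exact ⟨h.2.1, h.1⟩
    obtain ⟨X, h1, h2, h3, c, h4⟩ := b1 hc
    refine ⟨X, h1, h2, h3, c, fun x hx y hy hc => ?_⟩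
    obtain ⟨h5, h6⟩ := h4 x hx y hy hc
    refine ⟨h5, fun z hz hzX => ?_⟩
    have n1 : x ≠ z := fun h => hzX (h ▸ hx)
    have n2 : y ≠ z := fun h => hzX (h ▸ hy)
    simp only [SimpleGraph.sup_adj, SimpleGraph.fromRel_adj, h6 z hz hzX, h1 hx, h1 hy, h5, ne_eq,
      n1, n2]
  · rintro S H ℓ₀ a b ⟨a1, b1⟩
    refine ⟨a1, fun hc => ?_⟩
    obtain ⟨X, h1, h2, h3, c, h4⟩ := b1 hc
    refine ⟨X, h1, h2, h3, c, fun x hx y hy hc => ?_⟩
    obtain ⟨h5, h6⟩ := h4 x hx y hy hc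
    exact ⟨by simp [h5], h6⟩

/-- The finite pieces. -/
abbrev F (m N : ℕ) : Type := Fin m ⊕ Fin N ⊕ Fin m × Fin N

def emb {m N : ℕ} : F m N → V
  | Sum.inl a => V.w a
  | Sum.inr (Sum.inl i) => V.u i
  | Sum.inr (Sum.inr q) => V.p q.1 q.2

theorem emb_inj {m N : ℕ} : Function.Injective (emb : F m N → V) := by
  rintro (a | i | ⟨a, j⟩) (b | i' | ⟨b, j'⟩) h <;> simp_all [emb, Fin.ext_iff]

theorem final (k : ℕ) (X : Finset (F (3 * k + 1) (2 * k + 1)))
    (h1 : k < (Finset.univ.filter (fun a => Sum.inl a ∈ X)).card)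
    (h2 : (Finset.univ.filter (fun a => Sum.inl a ∈ X)).card ≤ 2 * k)
    (c : F (3 * k + 1) (2 * k + 1) → Fin k)
    (hc : ∀ x ∈ X, ∀ y ∈ X, c x = c y → ∀ z, z ∉ X → (rel (emb x) (emb z) ↔ rel (emb y) (emb z))) :
    False := by
  classical
  -- a row all of whose points lie in X
  obtain ⟨a, ha, a', ha', haa, hcc⟩ := Finset.exists_ne_map_eq_of_card_lt_of_maps_to
    (s := Finset.univ.filter (fun a => Sum.inl a ∈ X)) (t := (Finset.univ : Finset (Fin k)))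
    (by simpa using h1) (f := fun a => c (Sum.inl a)) (fun _ _ => by simp)
  simp only [Finset.mem_filter, Finset.mem_univ, true_and] at ha ha'
  have rowin : ∀ j, Sum.inr (Sum.inr (a, j)) ∈ X := by
    intro j
    by_contra hn
    have := (hc _ ha _ ha' hcc _ hn).mp (by simp [emb, rel])
    simp only [emb, rel] at this
    exact haa (Fin.ext this.symm)
  -- a row none of whose points lie in X
  obtain ⟨b, rowout⟩ : ∃ b : Fin (3 * k + 1), ∀ j, Sum.inr (Sum.inr (b, j)) ∉ X := by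
    by_contra hcon
    push Not at hcon
    choose g hg using hcon
    have h3 : k < (Finset.univ.filter (fun a => ¬ Sum.inl a ∈ X)).card := by
      have := Finset.card_filter_add_card_filter_not (s := (Finset.univ : Finset (Fin (3 * k + 1))))
        (fun a => Sum.inl a ∈ X)
      simp only [Finset.card_univ, Fintype.card_fin] at this
      omega
    obtain ⟨b, hb, b', hb', hbb, hcc⟩ := Finset.exists_ne_map_eq_of_card_lt_of_maps_to
      (s := Finset.univ.filter (fun a => ¬ Sum.inl a ∈ X)) (t := (Finset.univ : Finset (Fin k)))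
      (by simpa using h3) (f := fun b => c (Sum.inr (Sum.inr (b, g b)))) (fun _ _ => by simp)
    simp only [Finset.mem_filter, Finset.mem_univ, true_and] at hb hb'
    have := (hc _ (hg b) _ (hg b') hcc _ hb).mp (by simp [emb, rel])
    simp only [emb, rel] at this
    exact hbb (Fin.ext this.symm)
  have hsum := Finset.card_filter_add_card_filter_not (s := (Finset.univ : Finset (Fin (2 * k + 1))))
    (fun i => Sum.inr (Sum.inl i) ∈ X)
  simp only [Finset.card_univ, Fintype.card_fin] at hsum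
  by_cases h4 : k < (Finset.univ.filter (fun i => Sum.inr (Sum.inl i) ∈ X)).card
  · obtain ⟨i, hi, i', hi', hii, hcc⟩ := Finset.exists_ne_map_eq_of_card_lt_of_maps_to
      (s := Finset.univ.filter (fun i => Sum.inr (Sum.inl i) ∈ X))
      (t := (Finset.univ : Finset (Fin k)))
      (by simpa using h4) (f := fun i => c (Sum.inr (Sum.inl i))) (fun _ _ => by simp)
    simp only [Finset.mem_filter, Finset.mem_univ, true_and] at hi hi'
    have e1 := (hc _ hi _ hi' hcc _ (rowout i)).mp (by simp [emb, rel])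
    have e2 := (hc _ hi _ hi' hcc _ (rowout i')).mpr (by simp [emb, rel])
    simp only [emb, rel] at e1 e2
    exact hii (Fin.ext (by omega))
  · have h5 : k < (Finset.univ.filter (fun i => ¬ Sum.inr (Sum.inl i) ∈ X)).card := by omega
    obtain ⟨i, hi, i', hi', hii, hcc⟩ := Finset.exists_ne_map_eq_of_card_lt_of_maps_to
      (s := Finset.univ.filter (fun i => ¬ Sum.inr (Sum.inl i) ∈ X))
      (t := (Finset.univ : Finset (Fin k)))
      (by simpa using h5) (f := fun i => c (Sum.inr (Sum.inr (a, i)))) (fun _ _ => by simp)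
    simp only [Finset.mem_filter, Finset.mem_univ, true_and] at hi hi'
    have e1 := (hc _ (rowin i) _ (rowin i') hcc _ hi).mp (by simp [emb, rel])
    have e2 := (hc _ (rowin i) _ (rowin i') hcc _ hi').mpr (by simp [emb, rel])
    simp only [emb, rel] at e1 e2
    exact hii (Fin.ext (by omega))

theorem result :
    ¬ (∀ 𝒢 : (n : ℕ) → SimpleGraph (Fin n) → Prop,
      (∀ (n m : ℕ) (G : SimpleGraph (Fin n)) (H : SimpleGraph (Fin m)),
          Nonempty (SimpleGraph.Embedding H G) → 𝒢 n G → 𝒢 m H) →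
      (∃ k : ℕ, ∀ (n : ℕ) (G : SimpleGraph (Fin n)), 𝒢 n G →
          (3 ≤ n ∧ G.Connected ∧ ∀ v : Fin n, (G.induce {w | w ≠ v}).Connected) →
          (3 ≤ n ∧ ∀ M : Set (Fin n),
              (∀ x, x ∉ M → ∀ y ∈ M, ∀ z ∈ M, (G.Adj x y ↔ G.Adj x z)) →
              M.Subsingleton ∨ M = Set.univ) →
          ∃ ℓ : ℕ → Fin k, ∀ P : Finset ℕ → SimpleGraph ℕ → (ℕ → Fin k) → Prop,
            ((∀ ℓ₀ : ℕ → Fin k, P ∅ ⊥ ℓ₀) ∧
             (∀ (i : ℕ) (ℓ₀ : ℕ → Fin k), P {i} ⊥ ℓ₀) ∧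
             (∀ (S₁ S₂ : Finset ℕ) (H₁ H₂ : SimpleGraph ℕ) (ℓ₁ ℓ₂ : ℕ → Fin k),
                P S₁ H₁ ℓ₁ → P S₂ H₂ ℓ₂ → Disjoint S₁ S₂ →
                P (S₁ ∪ S₂) (H₁ ⊔ H₂) (fun v => if v ∈ S₁ then ℓ₁ v else ℓ₂ v)) ∧
             (∀ (S : Finset ℕ) (H : SimpleGraph ℕ) (ℓ₀ : ℕ → Fin k) (a b : Fin k),
                a ≠ b → P S H ℓ₀ →
                P S (H ⊔ SimpleGraph.fromRel
                  (fun u v => u ∈ S ∧ v ∈ S ∧ ℓ₀ u = a ∧ ℓ₀ v = b)) ℓ₀) ∧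
             (∀ (S : Finset ℕ) (H : SimpleGraph ℕ) (ℓ₀ : ℕ → Fin k) (a b : Fin k),
                P S H ℓ₀ → P S H (fun v => if ℓ₀ v = a then b else ℓ₀ v))) →
            P (Finset.range n) (G.map Fin.valEmbedding) ℓ) →
      (∃ k : ℕ, ∀ (n : ℕ) (G : SimpleGraph (Fin n)), 𝒢 n G →
          ∃ ℓ : ℕ → Fin k, ∀ P : Finset ℕ → SimpleGraph ℕ → (ℕ → Fin k) → Prop,
            ((∀ ℓ₀ : ℕ → Fin k, P ∅ ⊥ ℓ₀) ∧
             (∀ (i : ℕ) (ℓ₀ : ℕ → Fin k), P {i} ⊥ ℓ₀) ∧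
             (∀ (S₁ S₂ : Finset ℕ) (H₁ H₂ : SimpleGraph ℕ) (ℓ₁ ℓ₂ : ℕ → Fin k),
                P S₁ H₁ ℓ₁ → P S₂ H₂ ℓ₂ → Disjoint S₁ S₂ →
                P (S₁ ∪ S₂) (H₁ ⊔ H₂) (fun v => if v ∈ S₁ then ℓ₁ v else ℓ₂ v)) ∧
             (∀ (S : Finset ℕ) (H : SimpleGraph ℕ) (ℓ₀ : ℕ → Fin k) (a b : Fin k),
                a ≠ b → P S H ℓ₀ →
                P S (H ⊔ SimpleGraph.fromRel
                  (fun u v => u ∈ S ∧ v ∈ S ∧ ℓ₀ u = a ∧ ℓ₀ v = b)) ℓ₀) ∧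
             (∀ (S : Finset ℕ) (H : SimpleGraph ℕ) (ℓ₀ : ℕ → Fin k) (a b : Fin k),
                P S H ℓ₀ → P S H (fun v => if ℓ₀ v = a then b else ℓ₀ v))) →
            P (Finset.range n) (G.map Fin.valEmbedding) ℓ)) := by
  classical
  intro h
  obtain ⟨k, hk⟩ := h (fun n G => Nonempty (G ↪g Γ))
    (fun n m G H ⟨f⟩ ⟨g⟩ => ⟨g.comp f⟩)
    ⟨1, fun n G ⟨f⟩ h2 hp => (not_prime G f h2.1 h2.2.1 h2.2.2 hp.2).elim⟩
  let n := Fintype.card (F (3 * k + 1) (2 * k + 1))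
  let e : F (3 * k + 1) (2 * k + 1) ≃ Fin n := Fintype.equivFin _
  let ι : Fin n ↪ V := ⟨fun x => emb (e.symm x), emb_inj.comp e.symm.injective⟩
  obtain ⟨ℓ, hℓ⟩ := hk n (Γ.comap ι) ⟨SimpleGraph.Embedding.comap ι Γ⟩
  have hk1 : 1 ≤ k := Nat.succ_le_of_lt (Fin.pos (ℓ 0))
  let φ : F (3 * k + 1) (2 * k + 1) → ℕ := fun x => (e x).val
  have φinj : Function.Injective φ := fun x y hxy => e.injective (Fin.ext hxy)
  have φmem : ∀ x, φ x ∈ Finset.range n := fun x => Finset.mem_range.mpr (e x).isLt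
  have φadj : ∀ x y, ((Γ.comap ι).map Fin.valEmbedding).Adj (φ x) (φ y) ↔ rel (emb x) (emb y) := by
    intro x y
    have := SimpleGraph.map_adj_apply (G := Γ.comap ι) (f := Fin.valEmbedding) (a := e x) (b := e y)
    refine this.trans ?_
    simp [ι, Γ]
  let W : Finset ℕ := Finset.univ.image (fun a : Fin (3 * k + 1) => φ (Sum.inl a))
  have hWc : ∀ X : Finset ℕ, (X ∩ W).card =
      (Finset.univ.filter (fun a : Fin (3 * k + 1) => φ (Sum.inl a) ∈ X)).card := by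
    intro X
    rw [← Finset.card_image_of_injective _ (φinj.comp Sum.inl_injective)]
    congr 1
    ext z
    simp only [W, Finset.mem_inter, Finset.mem_image, Finset.mem_univ, true_and, Finset.mem_filter,
      Function.comp]
    constructor
    · rintro ⟨h1, a, rfl⟩
      exact ⟨a, h1, rfl⟩
    · rintro ⟨a, h1, rfl⟩
      exact ⟨h1, a, rfl⟩
  obtain ⟨X, -, h1, h2, c, hc⟩ := cw_lower k k hk1 W _ _ ℓ hℓ (by
    rw [hWc]
    simp only [φmem, Finset.filter_true, Finset.card_univ, Fintype.card_fin]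
    omega)
  rw [hWc] at h1 h2
  refine final k (Finset.univ.filter (fun x => φ x ∈ X)) (by simpa using h1) (by simpa using h2)
    (fun x => c (φ x)) ?_
  intro x hx y hy hxy z hz
  simp only [Finset.mem_filter, Finset.mem_univ, true_and] at hx hy hz
  rw [← φadj, ← φadj]
  exact hc _ hx _ hy hxy _ (φmem z) hz

end Pool.Agent.S10880
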