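import Pool.Statements.S10902
-- import your own Pool.Agent.* helpers here

set_option autoImplicit false
open Pool Pool.MP_b33253_co

namespace Pool.Agent.S10902

/-- The negation of the preceding statement: For every colouring of the rationals with finitely many colours there are rationals x and d, with d nonzero, such that x, x+d, x+1/d and x+d+1/d all have the same colour. -/
theorem result :
    ¬ (∀ (r : ℕ) (c : ℚ → Fin r), ∃ x d : ℚ, d ≠ 0 ∧
      c (x + d) = c x ∧ c (x + 1 / d) = c x ∧ c (x + d + 1 / d) = c x) := by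
  intro h
  obtain ⟨x, d, hd, h1, h2, h3⟩ :=
    h 4 (fun x => ⟨(⌊x ^ 2⌋ % 4).toNat, by omega⟩)
  simp only [Fin.mk.injEq] at h1 h2 h3
  have key : x ^ 2 - (x + d) ^ 2 - (x + 1 / d) ^ 2 + (x + d + 1 / d) ^ 2 = 2 := by
    field_simp
    ring
  set a := ⌊x ^ 2⌋ with ha
  set b := ⌊(x + d) ^ 2⌋ with hb
  set c := ⌊(x + 1 / d) ^ 2⌋ with hc
  set e := ⌊(x + d + 1 / d) ^ 2⌋ with he
  have a1 : (a : ℚ) ≤ x ^ 2 := Int.floor_le _
  have a2 : x ^ 2 < a + 1 := Int.lt_floor_add_one _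
  have b1 : (b : ℚ) ≤ (x + d) ^ 2 := Int.floor_le _
  have b2 : (x + d) ^ 2 < b + 1 := Int.lt_floor_add_one _
  have c1 : (c : ℚ) ≤ (x + 1 / d) ^ 2 := Int.floor_le _
  have c2 : (x + 1 / d) ^ 2 < c + 1 := Int.lt_floor_add_one _
  have e1 : (e : ℚ) ≤ (x + d + 1 / d) ^ 2 := Int.floor_le _
  have e2 : (x + d + 1 / d) ^ 2 < e + 1 := Int.lt_floor_add_one _
  have l1 : ((a - b - c + e : ℤ) : ℚ) < (4 : ℤ) := by push_cast; linarith
  have l2 : ((0 : ℤ) : ℚ) < ((a - b - c + e : ℤ) : ℚ) := by push_cast; linarith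
  have l1' : a - b - c + e < 4 := by exact_mod_cast l1
  have l2' : 0 < a - b - c + e := by exact_mod_cast l2
  omega

end Pool.Agent.S10902
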