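import Pool.Statements.S10936

set_option autoImplicit false
open Pool Pool.MP_b4c394_co

namespace Pool.Agent.S10936

open Finset

/-- Independent sets of a sparse paving matroid of rank 4 with circuit-hyperplanes `C`. -/
def Ind (C : Finset (Finset (Fin 8))) (I : Finset (Fin 8)) : Prop := I.card ≤ 4 ∧ I ∉ C

instance (C : Finset (Finset (Fin 8))) : DecidablePred (Ind C) := fun I => by
  unfold Ind; infer_instance

/-- The family consists of 4-sets pairwise meeting in at most two points. -/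
def Good (C : Finset (Finset (Fin 8))) : Prop :=
  (∀ X ∈ C, X.card = 4) ∧ ∀ X ∈ C, ∀ Y ∈ C, X ≠ Y → (X ∩ Y).card ≤ 2

lemma ind_sub (C : Finset (Finset (Fin 8))) (hC : Good C) ⦃I J : Finset (Fin 8)⦄ (hJ : Ind C J)
    (h : I ⊆ J) : Ind C I := by
  have h1 := card_le_card h
  refine ⟨h1.trans hJ.1, fun hI => ?_⟩
  have h2 := hC.1 I hI
  have : I = J := eq_of_subset_of_card_le h (by have := hJ.1; omega)
  exact hJ.2 (this ▸ hI)

lemma ind_aug (C : Finset (Finset (Fin 8))) (hC : Good C) ⦃I J : Finset (Fin 8)⦄ (_hI : Ind C I)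
    (hJ : Ind C J) (h : I.card < J.card) : ∃ e ∈ J, e ∉ I ∧ Ind C (insert e I) := by
  by_contra hne
  push Not at hne
  have hJ4 := hJ.1
  have key : ∀ e ∈ J, e ∉ I → insert e I ∈ C := by
    intro e he heI
    by_contra h'
    exact hne e he heI ⟨by rw [card_insert_of_notMem heI]; omega, h'⟩
  obtain ⟨e, he, heI⟩ := exists_mem_notMem_of_card_lt_card h
  have h1 := key e he heI
  have h2 := hC.1 _ h1
  by_cases hsub : J ⊆ insert e I
  · have : J = insert e I := eq_of_subset_of_card_le hsub (by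
      rw [card_insert_of_notMem heI] at h2 ⊢; omega)
    exact hJ.2 (this ▸ h1)
  · obtain ⟨x, hx, hxI⟩ := not_subset.mp hsub
    have hxI' : x ∉ I := fun h' => hxI (mem_insert_of_mem h')
    have h3 := key x hx hxI'
    have h4 := hC.2 _ h1 _ h3 (fun h' => hxI (h' ▸ mem_insert_self x I))
    have h5 : I ⊆ insert e I ∩ insert x I := subset_inter (subset_insert _ _) (subset_insert _ _)
    have h6 := card_le_card h5
    rw [card_insert_of_notMem heI] at h2
    omega

/-- The sparse paving matroid. -/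
noncomputable def mat (C : Finset (Finset (Fin 8))) (hC : Good C) : Matroid (Fin 8) :=
  (IndepMatroid.ofFinset Set.univ (Ind C) ⟨by simp, fun h => by simpa using hC.1 _ h⟩
    (ind_sub C hC) (ind_aug C hC) (fun _ _ => Set.subset_univ _)).matroid

lemma mat_E (C : Finset (Finset (Fin 8))) (hC : Good C) : (mat C hC).E = Set.univ := rfl

lemma mat_indep (C : Finset (Finset (Fin 8))) (hC : Good C) (I : Finset (Fin 8)) :
    (mat C hC).Indep (I : Set (Fin 8)) ↔ Ind C I := by
  simp only [mat, IndepMatroid.matroid_Indep]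
  exact IndepMatroid.ofFinset_indep _ _ _ _ _ _

lemma mat_nonloop (C : Finset (Finset (Fin 8))) (hC : Good C) (e : Fin 8) :
    (mat C hC).IsNonloop e := by
  rw [← Matroid.indep_singleton, ← Finset.coe_singleton, mat_indep]
  exact ⟨by simp, fun h => by simpa using hC.1 _ h⟩

/-- Circuit-hyperplanes of the first matroid. -/
def CA : Finset (Finset (Fin 8)) :=
  {{2,3,4,6}, {1,3,5,6}, {0,4,5,6}, {0,2,3,7}, {0,1,4,7}, {1,2,5,7}, {3,4,5,7}}

/-- Circuit-hyperplanes of the second matroid. -/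
def CB : Finset (Finset (Fin 8)) :=
  {{2,3,4,6}, {1,3,5,6}, {0,4,5,6}, {0,1,2,7}, {1,3,4,7}, {0,3,5,7}, {2,4,5,7}}

lemma goodA : Good CA := by unfold Good; decide +kernel
lemma goodB : Good CB := by unfold Good; decide +kernel

/-- Isomorphisms between the deletions. -/
def fD : Fin 8 → Fin 8 → Fin 8 :=
  ![![0,1,5,4,2,3,7,6], ![3,1,0,5,4,2,6,7], ![0,4,2,1,5,3,7,6], ![2,4,6,3,7,0,1,5],
    ![2,3,0,1,4,5,6,7], ![1,0,3,4,2,5,6,7], ![0,1,3,5,2,4,6,7], ![0,1,2,3,4,5,6,7]]

/-- Isomorphisms between the contractions. -/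
def fC : Fin 8 → Fin 8 → Fin 8 :=
  ![![0,3,1,2,5,4,6,7], ![0,1,4,5,2,3,6,7], ![5,0,2,4,3,1,6,7], ![0,2,5,3,1,4,6,7],
    ![3,1,0,5,4,2,6,7], ![1,4,2,0,3,5,6,7], ![0,1,2,3,4,5,6,7], ![0,1,3,5,2,4,6,7]]

lemma bij_of (f : Fin 8 → Fin 8) (e : Fin 8) (hf : Function.Injective f) (he : f e = e) :
    Set.BijOn f (Set.univ \ {e}) (Set.univ \ {e}) := by
  have hs : Function.Surjective f := Finite.surjective_of_injective hf
  refine ⟨?_, hf.injOn, ?_⟩
  · intro x hx
    simp only [Set.mem_diff, Set.mem_univ, Set.mem_singleton_iff, true_and] at hx ⊢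
    intro h
    exact hx (hf (h.trans he.symm))
  · intro y hy
    obtain ⟨x, rfl⟩ := hs y
    simp only [Set.mem_diff, Set.mem_univ, Set.mem_singleton_iff, true_and] at hy
    refine ⟨x, ?_, rfl⟩
    simp only [Set.mem_diff, Set.mem_univ, Set.mem_singleton_iff, true_and]
    rintro rfl
    exact hy he

lemma injD : ∀ e, Function.Injective (fD e) ∧ fD e e = e := by decide +kernel
lemma injC : ∀ e, Function.Injective (fC e) ∧ fC e e = e := by decide +kernel

lemma chkD : ∀ (e : Fin 8) (I : Finset (Fin 8)), e ∉ I →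
    (Ind CA I ↔ Ind CB (I.image (fD e))) ∧ e ∉ I.image (fD e) := by decide +kernel

lemma chkC : ∀ (e : Fin 8) (I : Finset (Fin 8)), e ∉ I →
    (Ind CA (insert e I) ↔ Ind CB (insert e (I.image (fC e)))) ∧ e ∉ I.image (fC e) := by
  decide +kernel

set_option synthInstance.maxSize 4000 in
lemma noiso : ∀ a2 a3 a4 a6 : Fin 8, ({a2, a3, a4, a6} : Finset (Fin 8)) ∈ CB →
    ∀ a1 a5 : Fin 8, ({a1, a3, a5, a6} : Finset (Fin 8)) ∈ CB →
    ∀ a0 : Fin 8, ({a0, a4, a5, a6} : Finset (Fin 8)) ∈ CB →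
    ∀ a7 : Fin 8, ({a0, a2, a3, a7} : Finset (Fin 8)) ∈ CB →
    ({a0, a1, a4, a7} : Finset (Fin 8)) ∈ CB → ({a1, a2, a5, a7} : Finset (Fin 8)) ∈ CB →
    ({a3, a4, a5, a7} : Finset (Fin 8)) ∈ CB → a6 = a7 ∨ a2 = a5 ∨ a1 = a4 ∨ a0 = a3 := by
  decide +kernel


/-- The negation of the preceding statement: Every finite matroid M with at least two elements is minor reconstructible: any matroid N on the same ground set with N\e isomorphic to M\e and N/e isomorphic to M/e for every element e is isomorphic to M. -/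
theorem result :
    ¬ (∀ (α : Type) (M N : Matroid α), M.Finite → N.E = M.E → 2 ≤ M.E.ncard →
      (∀ e ∈ M.E,
        (∃ f : α → α, Set.BijOn f (M.delete {e}).E (N.delete {e}).E ∧
          ∀ I ⊆ (M.delete {e}).E, ((M.delete {e}).Indep I ↔ (N.delete {e}).Indep (f '' I))) ∧
        (∃ f : α → α, Set.BijOn f (M.contract {e}).E (N.contract {e}).E ∧
          ∀ I ⊆ (M.contract {e}).E, ((M.contract {e}).Indep I ↔ (N.contract {e}).Indep (f '' I)))) →
      ∃ f : α → α, Set.BijOn f M.E N.E ∧ ∀ I ⊆ M.E, (M.Indep I ↔ N.Indep (f '' I))) := by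
  intro h
  obtain ⟨f, hf, hI⟩ := h (Fin 8) (mat CA goodA) (mat CB goodB) ⟨Set.toFinite _⟩ rfl
    (by rw [mat_E, Set.ncard_univ]; simp) (by
      intro e _
      constructor
      · refine ⟨fD e, bij_of _ e (injD e).1 (injD e).2, fun I hI => ?_⟩
        lift I to Finset (Fin 8) using Set.toFinite I
        have he : e ∉ I := fun h' => (hI h').2 rfl
        rw [Matroid.delete_indep_iff, Matroid.delete_indep_iff, ← Finset.coe_image, mat_indep,
          mat_indep, Set.disjoint_singleton_right, Set.disjoint_singleton_right, Finset.mem_coe,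
          Finset.mem_coe, (chkD e I he).1]
        simp only [he, (chkD e I he).2]
      · refine ⟨fC e, bij_of _ e (injC e).1 (injC e).2, fun I hI => ?_⟩
        lift I to Finset (Fin 8) using Set.toFinite I
        have he : e ∉ I := fun h' => (hI h').2 rfl
        rw [(mat_nonloop _ _ e).contractElem_indep_iff, (mat_nonloop _ _ e).contractElem_indep_iff,
          ← Finset.coe_image, ← Finset.coe_insert, ← Finset.coe_insert, mat_indep,
          mat_indep, Finset.mem_coe, Finset.mem_coe, (chkC e I he).1]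
        simp only [he, (chkC e I he).2])
  have hinj : Function.Injective f := Set.injOn_univ.mp hf.injOn
  have key : ∀ X ∈ CA, X.image f ∈ CB := by
    intro X hX
    have h1 := hI X (Set.subset_univ _)
    rw [← Finset.coe_image, mat_indep, mat_indep] at h1
    by_contra h2
    have h3 : (X.image f).card ≤ 4 := by
      rw [Finset.card_image_of_injective _ hinj, goodA.1 X hX]
    exact (h1.mpr ⟨h3, h2⟩).2 hX
  have k : ∀ a b c d : Fin 8, ({a, b, c, d} : Finset (Fin 8)) ∈ CA →
      ({f a, f b, f c, f d} : Finset (Fin 8)) ∈ CB := by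
    intro a b c d hX
    have := key _ hX
    simpa only [Finset.image_insert, Finset.image_singleton] using this
  have := noiso (f 2) (f 3) (f 4) (f 6) (k _ _ _ _ (by decide)) (f 1) (f 5) (k _ _ _ _ (by decide))
    (f 0) (k _ _ _ _ (by decide)) (f 7) (k _ _ _ _ (by decide)) (k _ _ _ _ (by decide))
    (k _ _ _ _ (by decide)) (k _ _ _ _ (by decide))
  simp only [hinj.eq_iff] at this
  revert this
  decide

end Pool.Agent.S10936
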