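import Pool.Statements.S10980
import Pool.Agent.Lib.H8.VWC

set_option autoImplicit false
open Pool Pool.MP_b6d645_co

namespace Pool.Agent.S10980

/-- The negation of the preceding statement: Take any graph on n vertices with no isolated vertex in which every maximal independent set has exactly n/2 vertices. Then the counts of independent sets of size k, for k = 0, 1, 2, ..., first weakly increase and then weakly decrease. -/
theorem result :
    ¬ (∀ (n : ℕ) (G : SimpleGraph (Fin n)),
      (∀ v : Fin n, ∃ w : Fin n, G.Adj v w) →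
      (∀ s : Finset (Fin n),
        Maximal (fun t : Finset (Fin n) => G.IsIndepSet (t : Set (Fin n))) s →
          2 * s.card = n) →
      ∃ m : ℕ,
        (∀ i : ℕ, i < m →
          {s : Finset (Fin n) | G.IsIndepSet (s : Set (Fin n)) ∧ s.card = i}.ncard ≤
          {s : Finset (Fin n) | G.IsIndepSet (s : Set (Fin n)) ∧ s.card = i + 1}.ncard) ∧
        (∀ i : ℕ, m ≤ i →
          {s : Finset (Fin n) | G.IsIndepSet (s : Set (Fin n)) ∧ s.card = i + 1}.ncard ≤
          {s : Finset (Fin n) | G.IsIndepSet (s : Set (Fin n)) ∧ s.card = i}.ncard)) := by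
  intro h
  classical
  obtain ⟨a, r, k, h1, h2⟩ := Pool.Agent.Lib.H8.VWC.valley
  set n := Fintype.card (Pool.Agent.Lib.H8.VWC.V a r) with hn
  let e : Fin n ≃ Pool.Agent.Lib.H8.VWC.V a r := (Fintype.equivFin _).symm
  let G : SimpleGraph (Fin n) := (Pool.Agent.Lib.H8.VWC.H a r).comap e
  have hind : ∀ s : Finset (Fin n), G.IsIndepSet (s : Set (Fin n)) ↔
      (Pool.Agent.Lib.H8.VWC.H a r).IsIndepSet
        ((s.map e.toEmbedding : Finset _) : Set (Pool.Agent.Lib.H8.VWC.V a r)) := by
    intro s
    constructor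
    · intro hs p hp q hq hne ha
      rw [Finset.mem_coe, Finset.mem_map] at hp hq
      obtain ⟨p, hp, rfl⟩ := hp
      obtain ⟨q, hq, rfl⟩ := hq
      exact hs hp hq (fun h => hne (by rw [h])) ha
    · intro hs p hp q hq hne ha
      exact hs (Finset.mem_coe.2 (Finset.mem_map_of_mem e.toEmbedding hp))
        (Finset.mem_coe.2 (Finset.mem_map_of_mem e.toEmbedding hq))
        (fun h => hne (e.injective h)) ha
  have hcnt : ∀ i : ℕ,
      {s : Finset (Fin n) | G.IsIndepSet (s : Set (Fin n)) ∧ s.card = i}.ncard =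
        Pool.Agent.Lib.H8.VWC.cnt a r i := by
    intro i
    unfold Pool.Agent.Lib.H8.VWC.cnt
    refine Set.ncard_congr (fun s _ => s.map e.toEmbedding) ?_ ?_ ?_
    · rintro s ⟨hs1, hs2⟩
      exact ⟨(hind s).1 hs1, by rw [Finset.card_map]; exact hs2⟩
    · intro s t _ _ hst
      exact Finset.map_injective _ hst
    · rintro t ⟨ht1, ht2⟩
      have ht : (t.map e.symm.toEmbedding).map e.toEmbedding = t := by
        rw [Finset.map_map]; simp
      refine ⟨t.map e.symm.toEmbedding, ⟨(hind _).2 (by rw [ht]; exact ht1), ?_⟩, ht⟩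
      rw [Finset.card_map]; exact ht2
  obtain ⟨m, hm1, hm2⟩ := h n G
    (fun v => by
      obtain ⟨w, hw⟩ := Pool.Agent.Lib.H8.VWC.no_isolated (e v)
      exact ⟨e.symm w, by simpa [G] using hw⟩)
    (fun s hs => by
      have := Pool.Agent.Lib.H8.VWC.max_card (s.map e.toEmbedding) ((hind s).1 hs.1)
        (fun v hv hi => by
          have h3 : G.IsIndepSet ((insert (e.symm v) s : Finset (Fin n)) : Set (Fin n)) := by
            rw [hind, Finset.map_insert, Finset.coe_insert]
            simpa using hi
          have h4 := hs.2 h3 (Finset.subset_insert _ _) (Finset.mem_insert_self _ _)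
          exact hv (Finset.mem_map.2 ⟨e.symm v, h4, by simp⟩))
      rw [Finset.card_map] at this
      rw [this, hn, Pool.Agent.Lib.H8.VWC.cardV]; ring)
  by_cases hk : k < m
  · have := hm1 k hk
    rw [hcnt, hcnt] at this
    omega
  · have := hm2 (k + 1) (by omega)
    rw [hcnt, hcnt] at this
    change Pool.Agent.Lib.H8.VWC.cnt a r (k + 2) ≤ _ at this
    omega

end Pool.Agent.S10980
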