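import Pool.Statements.S10986
import Pool.Agent.Lib.helper28.GenPos

set_option autoImplicit false
open Pool Pool.MP_b71966_co

namespace Pool.Agent.S10986

open Finset Pool.Agent.H28GenPos

lemma exists_box {σ : Type} {Q : (σ → ℝ) → Prop} (hQ : Gen Q) {η : ℝ} (hη : 0 < η) :
    ∃ a : σ → ℝ, (∀ i, 0 < a i ∧ a i < η) ∧ Q a := by
  obtain ⟨P, hP, h⟩ := hQ
  by_contra hne
  push Not at hne
  apply hP
  apply MvPolynomial.funext_set (fun _ => Set.Ioo 0 η) (fun _ => Set.Ioo_infinite hη)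
  intro x hx
  rw [map_zero]
  by_contra h1
  exact hne x (fun i => hx i (Set.mem_univ i)) (h _ h1)

noncomputable def emb (p : ℝ × ℝ) : EuclideanSpace ℝ (Fin 2) := !₂[p.1, p.2]

lemma dist_sq (x y : EuclideanSpace ℝ (Fin 2)) :
    dist x y ^ 2 = (x 0 - y 0) ^ 2 + (x 1 - y 1) ^ 2 := by
  rw [EuclideanSpace.dist_eq, Real.sq_sqrt (by positivity), Fin.sum_univ_two, Real.dist_eq,
    Real.dist_eq, sq_abs, sq_abs]

lemma col_zero {p q r : ℝ × ℝ} (h : Collinear ℝ {emb p, emb q, emb r}) : col p q r = 0 := by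
  obtain ⟨v, hv⟩ := (collinear_iff_of_mem (p₀ := emb p) (by simp)).mp h
  obtain ⟨a, ha⟩ := hv (emb q) (by simp)
  obtain ⟨b, hb⟩ := hv (emb r) (by simp)
  have a0 := congrArg (fun v : EuclideanSpace ℝ (Fin 2) => v 0) ha
  have a1 := congrArg (fun v : EuclideanSpace ℝ (Fin 2) => v 1) ha
  have b0 := congrArg (fun v : EuclideanSpace ℝ (Fin 2) => v 0) hb
  have b1 := congrArg (fun v : EuclideanSpace ℝ (Fin 2) => v 1) hb
  simp [emb] at a0 a1 b0 b1
  rw [col, a0, a1, b0, b1]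
  ring

lemma cyc_zero {p q r s : ℝ × ℝ}
    (h : EuclideanGeometry.Cospherical ({emb p, emb q, emb r, emb s} : Set _)) :
    cyc p q r s = 0 := by
  obtain ⟨c, R, hc⟩ := h
  have e : ∀ t : ℝ × ℝ, dist (emb t) c = R → (t.1 - c 0) ^ 2 + (t.2 - c 1) ^ 2 = R ^ 2 := by
    intro t ht
    rw [← ht, dist_sq]
    simp [emb]
  have hp := e p (hc _ (by simp))
  have hq := e q (hc _ (by simp))
  have hr := e r (hc _ (by simp))
  have hs := e s (hc _ (by simp))
  simp only [cyc, nsq]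
  have e1 : col p r s * ((q.1 - p.1) * (p.1 - c 0) + (q.2 - p.2) * (p.2 - c 1))
      - col p q s * ((r.1 - p.1) * (p.1 - c 0) + (r.2 - p.2) * (p.2 - c 1))
      + col p q r * ((s.1 - p.1) * (p.1 - c 0) + (s.2 - p.2) * (p.2 - c 1)) = 0 := by
    simp only [col]
    ring
  linear_combination (col p r s) * (hq - hp) - (col p q s) * (hr - hp) + (col p q r) * (hs - hp)
    - 2 * e1

variable {k : ℕ}

def T (b : Fin k → ℝ) (x : Fin k → ℕ) : ℝ := ∑ i, b i * x i

lemma surj {x y z : Fin k → ℕ} (h1 : ∑ i, y i ^ 2 = ∑ i, x i ^ 2) (h2 : ∑ i, z i ^ 2 = ∑ i, x i ^ 2)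
    (hxy : x ≠ y) (hxz : x ≠ z) (hyz : y ≠ z) (s t : ℝ) :
    ∃ b, T b y - T b x = s ∧ T b z - T b x = t := by
  have key : ∃ i j, ((y i : ℝ) - x i) * (z j - x j) - (y j - x j) * (z i - x i) ≠ 0 := by
    by_contra h
    push Not at h
    have n : ∀ w : Fin k → ℕ, ∑ i, w i ^ 2 = ∑ i, x i ^ 2 →
        ∑ i, ((w i : ℝ) - x i) ^ 2 = -2 * ∑ i, (x i : ℝ) * (w i - x i) := by
      intro w hw
      have : ∑ i, (w i : ℝ) ^ 2 = ∑ i, (x i : ℝ) ^ 2 := by exact_mod_cast hw
      rw [← sub_eq_zero, ← sum_sub_distrib] at this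
      rw [mul_sum, ← sub_eq_zero, ← sum_sub_distrib, ← this]
      exact sum_congr rfl fun i _ => by ring
    have pos : ∀ w : Fin k → ℕ, x ≠ w → 0 < ∑ i, ((w i : ℝ) - x i) ^ 2 := by
      intro w hw
      obtain ⟨i, hi⟩ := Function.ne_iff.1 hw
      refine sum_pos' (fun i _ => sq_nonneg _) ⟨i, mem_univ _, ?_⟩
      have : (w i : ℝ) - x i ≠ 0 := sub_ne_zero.2 (by exact_mod_cast hi.symm)
      positivity
    have e1 : ∀ i, ((y i : ℝ) - x i) * ∑ j, ((z j : ℝ) - x j) ^ 2 =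
        ((z i : ℝ) - x i) * ∑ j, ((y j : ℝ) - x j) ^ 2 := by
      intro i
      rw [n z h2, n y h1, ← mul_assoc, ← mul_assoc, mul_sum, mul_sum]
      exact sum_congr rfl fun j _ => by linear_combination (-2 * x j) * h i j
    have py := pos y hxy
    have pz := pos z hxz
    generalize hA : ∑ j, ((y j : ℝ) - x j) ^ 2 = A at e1 py
    generalize hB : ∑ j, ((z j : ℝ) - x j) ^ 2 = B at e1 pz
    have e2 : A * B ^ 2 = B * A ^ 2 := by
      conv_lhs => rw [← hA]
      conv_rhs => rw [← hB]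
      rw [sum_mul, sum_mul]
      exact sum_congr rfl fun i _ => by rw [← mul_pow, ← mul_pow, e1]
    have e3 : A = B := by
      have : A * B * (B - A) = 0 := by linear_combination e2
      have := (mul_eq_zero.1 this).resolve_left (by positivity)
      linarith
    apply hyz
    funext i
    have := mul_right_cancel₀ pz.ne' (e3 ▸ e1 i)
    exact_mod_cast sub_left_injective this
  obtain ⟨i, j, h⟩ := key
  generalize hD : ((y i : ℝ) - x i) * (z j - x j) - (y j - x j) * (z i - x i) = D at h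
  refine ⟨Pi.single i ((s * (z j - x j) - t * (y j - x j)) / D) +
    Pi.single j ((t * (y i - x i) - s * (z i - x i)) / D), ?_, ?_⟩ <;>
  · simp only [T, Pi.add_apply, add_mul, sum_add_distrib, Pi.single_apply, ite_mul, zero_mul,
      sum_ite_eq', mem_univ, if_true]
    field_simp
    rw [← hD]
    ring

lemma T_two (b : Fin k → ℝ) (x : Fin k → ℕ) : T (fun i => 2 * b i) x = 2 * T b x := by
  simp only [T, mul_sum, mul_assoc]

lemma nz4 {x y z : Fin k → ℕ} (w : Fin k → ℕ) (h1 : ∑ i, y i ^ 2 = ∑ i, x i ^ 2)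
    (h2 : ∑ i, z i ^ 2 = ∑ i, x i ^ 2) (hxy : x ≠ y) (hxz : x ≠ z) (hyz : y ≠ z) {p q r s : ℝ}
    (a1 : p ≠ q) (a2 : p ≠ r) (a3 : p ≠ s) (a4 : q ≠ r) (a5 : q ≠ s) (a6 : r ≠ s) :
    ∃ b, cyc (p, T b x) (q, T b y) (r, T b z) (s, T b w) ≠ 0 := by
  by_contra h
  push Not at h
  have key : ∀ u : ℝ, 2 * u + (q - p) + (r - p) + (s - p) = 0 := by
    intro u
    obtain ⟨b, e1, e2⟩ := surj h1 h2 hxy hxz hyz (u * (q - p) + (q - p) ^ 2)
      (u * (r - p) + (r - p) ^ 2)
    have c1 := h b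
    have c2 := h fun i => 2 * b i
    simp only [T_two, cyc, col, nsq, ← mul_sub, e1, e2] at c1 c2
    generalize T b w - T b x = t at c1 c2
    have b1 := sub_ne_zero.2 a1.symm
    have b2 := sub_ne_zero.2 a2.symm
    have b3 := sub_ne_zero.2 a3.symm
    have b4 : (q - p) - (r - p) ≠ 0 := fun e => a4 (by linarith)
    have b5 : (q - p) - (s - p) ≠ 0 := fun e => a5 (by linarith)
    have b6 : (r - p) - (s - p) ≠ 0 := fun e => a6 (by linarith)
    generalize q - p = α at *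
    generalize r - p = β at *
    generalize s - p = γ at *
    have e3 : α * β * (α - β) * (t - (u * γ + γ ^ 2)) = 0 := by
      linear_combination (4 / 3) * c1 - (1 / 6) * c2
    have e4 : t = u * γ + γ ^ 2 :=
      sub_eq_zero.1 ((mul_eq_zero.1 e3).resolve_left (by positivity))
    rw [e4] at c1
    have e5 : α * β * γ * (α - β) * (α - γ) * (β - γ) * (2 * u + α + β + γ) = 0 := by
      linear_combination -c1
    exact (mul_eq_zero.1 e5).resolve_left (by positivity)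
  linarith [key 0, key 1]

lemma poly_T (s : ℝ) (x : Fin k → ℕ) : IsPoly2 fun b : Fin k → ℝ => (s, T b x) :=
  ⟨H28GenPos.IsPoly.const _, H28GenPos.IsPoly.sum fun i =>
    (H28GenPos.IsPoly.var i).mul (H28GenPos.IsPoly.const _)⟩

lemma dist_bounds {m : ℤ} {s s' t t' : ℝ} (h : s - s' = 2 * m) (ht : |t - t'| ≤ 1) :
    2 * |(m : ℝ)| ≤ dist (emb (s, t)) (emb (s', t')) ∧
      dist (emb (s, t)) (emb (s', t')) ≤ 2 * |(m : ℝ)| + 1 := by
  have e := dist_sq (emb (s, t)) (emb (s', t'))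
  simp only [emb, Matrix.cons_val_zero, Matrix.cons_val_one, h] at e
  have := sq_abs (m : ℝ)
  have := sq_abs (t - t')
  constructor
  · apply le_of_sq_le_sq _ dist_nonneg
    simp only [emb]
    nlinarith [sq_nonneg (t - t')]
  · apply le_of_sq_le_sq _ (by positivity)
    simp only [emb]
    nlinarith [abs_nonneg (t - t'), abs_nonneg (m : ℝ)]

/-- The negation of the preceding statement: There is c>0 such that, for all large n, any n plane points with no three collinear, no four concyclic, all distances at least 1 and distinct distances differing by at least 1, have two points farther apart than n^(1+c). -/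
theorem result :
    ¬ (∃ c : ℝ, 0 < c ∧ ∃ N : ℕ, ∀ n : ℕ, N ≤ n →
      ∀ p : Fin n → EuclideanSpace ℝ (Fin 2),
        (∀ i j k : Fin n, i ≠ j → i ≠ k → j ≠ k →
          ¬ Collinear ℝ ({p i, p j, p k} : Set (EuclideanSpace ℝ (Fin 2)))) →
        (∀ i j k l : Fin n, i ≠ j → i ≠ k → i ≠ l → j ≠ k → j ≠ l → k ≠ l →
          ¬ EuclideanGeometry.Concyclic
              ({p i, p j, p k, p l} : Set (EuclideanSpace ℝ (Fin 2)))) →
        (∀ i j : Fin n, i ≠ j → 1 ≤ dist (p i) (p j)) →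
        (∀ i j k l : Fin n, i ≠ j → k ≠ l →
          dist (p i) (p j) ≠ dist (p k) (p l) →
          1 ≤ |dist (p i) (p j) - dist (p k) (p l)|) →
        ∃ i j : Fin n, (n : ℝ) ^ (1 + c) < dist (p i) (p j)) := by
  rintro ⟨c, hc, N, h⟩
  obtain ⟨j, hj⟩ := exists_nat_ge (3 / c)
  rw [div_le_iff₀ hc] at hj
  have j0 : j ≠ 0 := by rintro rfl; norm_num at hj
  obtain ⟨M, hM⟩ := exists_nat_ge (max (3 * 2 ^ (j + 2) * ((j + 2 : ℕ) : ℝ) ^ (1 + c))
    (((j + 2 : ℕ) : ℝ) * (N + 1)))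
  obtain ⟨hM1, hM2⟩ := max_le_iff.1 hM
  have k0 : (1 : ℝ) ≤ (j + 2 : ℕ) := by push_cast; linarith [(Nat.cast_nonneg j : (0 : ℝ) ≤ j)]
  have M1 : (1 : ℝ) ≤ M := by nlinarith [(Nat.cast_nonneg N : (0 : ℝ) ≤ N)]
  obtain ⟨R, hR⟩ := Behrend.exists_large_sphere (j + 2) M
  set S := Behrend.sphere (j + 2) M R with hS
  have hR' : (M : ℝ) ^ j / (j + 2 : ℕ) ≤ #S := by
    refine le_trans (le_of_eq ?_) hR
    push_cast
    field_simp
    ring
  have hN : N ≤ #S := by
    have : (N : ℝ) ≤ (M : ℝ) ^ j / (j + 2 : ℕ) := by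
      rw [le_div_iff₀ (by linarith)]
      nlinarith [le_self_pow₀ M1 j0]
    exact_mod_cast this.trans hR'
  let x : Fin #S → Fin (j + 2) → ℕ := fun i => (S.equivFin.symm i).1
  have xi : Function.Injective x := fun a b e => S.equivFin.symm.injective (Subtype.ext e)
  have xs : ∀ i, (∀ l, x i l < M) ∧ ∑ l, x i l ^ 2 = R := fun i => by
    have := mem_filter.1 (S.equivFin.symm i).2
    exact ⟨Behrend.mem_box.1 this.1, this.2⟩
  let m : Fin #S → ℕ := fun i => Behrend.map (2 * M) (x i)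
  have mi : Function.Injective m := fun a b e => xi (Behrend.map_injOn
    (fun l => by have := (xs a).1 l; omega) (fun l => by have := (xs b).1 l; omega) e)
  have si : ∀ a b, a ≠ b → 2 * (m a : ℝ) ≠ 2 * (m b : ℝ) := fun a b hab e =>
    hab (mi (by exact_mod_cast mul_left_cancel₀ two_ne_zero e))
  have g3 : Gen fun b => ∀ a1 a2 a3, a1 ≠ a2 → a1 ≠ a3 → a2 ≠ a3 →
      col (2 * (m a1 : ℝ), T b (x a1)) (2 * (m a2 : ℝ), T b (x a2)) (2 * (m a3 : ℝ), T b (x a3)) ≠ 0 := by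
    refine Gen.all fun a1 => Gen.all fun a2 => Gen.all fun a3 => Gen.imp fun h1 => Gen.imp fun h2 =>
      Gen.imp fun h3 => Gen.of_poly (poly_col (poly_T _ _) (poly_T _ _) (poly_T _ _)) ?_
    obtain ⟨b, e1, e2⟩ := surj ((xs a2).2.trans (xs a1).2.symm) ((xs a3).2.trans (xs a1).2.symm)
      (xi.ne h1) (xi.ne h2) (xi.ne h3) 0 1
    refine ⟨b, ?_⟩
    simp only [col, e1, e2, mul_one, zero_mul, sub_zero]
    exact sub_ne_zero.2 (si _ _ h1).symm
  have g4 : Gen fun b => ∀ a1 a2 a3 a4, a1 ≠ a2 → a1 ≠ a3 → a1 ≠ a4 → a2 ≠ a3 → a2 ≠ a4 → a3 ≠ a4 →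
      cyc (2 * (m a1 : ℝ), T b (x a1)) (2 * (m a2 : ℝ), T b (x a2)) (2 * (m a3 : ℝ), T b (x a3))
        (2 * (m a4 : ℝ), T b (x a4)) ≠ 0 :=
    Gen.all fun a1 => Gen.all fun a2 => Gen.all fun a3 => Gen.all fun a4 => Gen.imp fun h1 =>
      Gen.imp fun h2 => Gen.imp fun h3 => Gen.imp fun h4 => Gen.imp fun h5 => Gen.imp fun h6 =>
      Gen.of_poly (poly_cyc (poly_T _ _) (poly_T _ _) (poly_T _ _) (poly_T _ _))
        (nz4 _ ((xs a2).2.trans (xs a1).2.symm) ((xs a3).2.trans (xs a1).2.symm) (xi.ne h1)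
          (xi.ne h2) (xi.ne h4) (si _ _ h1) (si _ _ h2) (si _ _ h3) (si _ _ h4) (si _ _ h5)
          (si _ _ h6))
  obtain ⟨b, hb, b3, b4⟩ := exists_box (g3.and g4) (η := 1 / ((j + 2 : ℕ) * M)) (by positivity)
  have tb : ∀ i, 0 ≤ T b (x i) ∧ T b (x i) ≤ 1 := fun i => by
    refine ⟨sum_nonneg fun l _ => mul_nonneg (hb l).1.le (by positivity), ?_⟩
    refine le_trans (sum_le_sum (f := fun l => b l * (x i l : ℝ))
      (g := fun _ => (1 / ((j + 2 : ℕ) * M) * M : ℝ)) fun l _ =>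
      mul_le_mul (hb l).2.le (by exact_mod_cast ((xs i).1 l).le) (by positivity) (by positivity)) ?_
    rw [sum_const, card_univ, Fintype.card_fin, nsmul_eq_mul]
    field_simp
    rfl
  have db : ∀ a1 a2, _ := fun a1 a2 => dist_bounds (m := (m a1 : ℤ) - m a2)
    (s := 2 * (m a1 : ℝ)) (s' := 2 * (m a2 : ℝ)) (t := T b (x a1)) (t' := T b (x a2))
    (by push_cast; ring) (abs_le.2 ⟨by linarith [tb a1, tb a2], by linarith [tb a1, tb a2]⟩)
  have fr : ∀ a1 a2 a3 a4, m a1 + m a4 = m a3 + m a2 →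
      T b (x a1) - T b (x a2) = T b (x a3) - T b (x a4) := by
    intro a1 a2 a3 a4 e
    have e' : x a1 + x a4 = x a3 + x a2 := Behrend.map_injOn (d := 2 * M)
      (fun l => by have := (xs a1).1 l; have := (xs a4).1 l; simp only [Pi.add_apply]; omega)
      (fun l => by have := (xs a3).1 l; have := (xs a2).1 l; simp only [Pi.add_apply]; omega)
      (by rw [map_add, map_add]; exact e)
    simp only [T, ← sum_sub_distrib]
    refine sum_congr rfl fun l _ => ?_
    have : (x a1 l : ℝ) + x a4 l = x a3 l + x a2 l := by exact_mod_cast congrFun e' l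
    linear_combination b l * this
  obtain ⟨a1, a2, hd⟩ := h #S hN (fun i => emb (2 * (m i : ℝ), T b (x i)))
    (fun a1 a2 a3 h1 h2 h3 hcol => b3 a1 a2 a3 h1 h2 h3 (col_zero hcol))
    (fun a1 a2 a3 a4 h1 h2 h3 h4 h5 h6 hcy => b4 a1 a2 a3 a4 h1 h2 h3 h4 h5 h6 (cyc_zero hcy.1))
    (fun a1 a2 h1 => by
      have : (1 : ℝ) ≤ |(((m a1 : ℤ) - m a2 : ℤ) : ℝ)| := by
        rw [← Int.cast_abs, ← Int.cast_one, Int.cast_le]
        exact Int.one_le_abs (sub_ne_zero.2 (Nat.cast_injective.ne (mi.ne h1)))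
      linarith [(db a1 a2).1])
    (fun a1 a2 a3 a4 _ _ hne => by
      have d1 := db a1 a2
      have d2 := db a3 a4
      rw [← Int.cast_abs] at d1 d2
      rcases lt_trichotomy |(m a1 : ℤ) - m a2| |(m a3 : ℤ) - m a4| with l | l | l
      · have : ((|(m a1 : ℤ) - m a2| : ℤ) : ℝ) + 1 ≤ (|(m a3 : ℤ) - m a4| : ℤ) := by exact_mod_cast l
        exact le_abs.2 (Or.inr (by linarith [d1.2, d2.1]))
      · exfalso
        apply hne
        rw [← sq_eq_sq₀ dist_nonneg dist_nonneg, dist_sq, dist_sq]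
        simp only [emb, Matrix.cons_val_zero, Matrix.cons_val_one]
        rcases abs_eq_abs.1 l with l | l
        · have l' : (m a1 : ℝ) - m a2 = m a3 - m a4 := by exact_mod_cast l
          rw [fr a1 a2 a3 a4 (by omega), ← mul_sub, ← mul_sub, l']
        · have l' : (m a1 : ℝ) - m a2 = -(m a3 - m a4) := by exact_mod_cast l
          rw [fr a1 a2 a4 a3 (by omega), ← mul_sub, ← mul_sub, l']
          ring
      · have : ((|(m a3 : ℤ) - m a4| : ℤ) : ℝ) + 1 ≤ (|(m a1 : ℤ) - m a2| : ℤ) := by exact_mod_cast l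
        exact le_abs.2 (Or.inl (by linarith [d1.1, d2.2])))
  have mb : ∀ i, (m i : ℝ) ≤ (2 * M) ^ (j + 2) := fun i => by
    have : m i < (2 * M) ^ (j + 2) := by
      have := finFunctionFinEquiv (fun l => (⟨x i l, by have := (xs i).1 l; omega⟩ : Fin (2 * M)))
      have e := (finFunctionFinEquiv fun l =>
        (⟨x i l, by have := (xs i).1 l; omega⟩ : Fin (2 * M))).2
      rwa [finFunctionFinEquiv_apply] at e
    exact_mod_cast this.le
  have d1 := (db a1 a2).2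
  have d2 : |(((m a1 : ℤ) - m a2 : ℤ) : ℝ)| ≤ (2 * M) ^ (j + 2) := by
    push_cast
    exact abs_le.2 ⟨by linarith [mb a2, (Nat.cast_nonneg (m a1) : (0 : ℝ) ≤ _)],
      by linarith [mb a1, (Nat.cast_nonneg (m a2) : (0 : ℝ) ≤ _)]⟩
  have d3 : (1 : ℝ) ≤ (2 * M) ^ (j + 2) := one_le_pow₀ (by linarith)
  have d4 := Real.rpow_le_rpow (by positivity) hR' (by linarith : 0 ≤ 1 + c)
  have d5 : (M : ℝ) ^ (j + 3) ≤ ((M : ℝ) ^ j) ^ (1 + c) := by
    rw [← Real.rpow_natCast, ← Real.rpow_natCast, ← Real.rpow_mul (by linarith)]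
    apply Real.rpow_le_rpow_of_exponent_le M1
    push_cast
    linarith
  rw [Real.div_rpow (by positivity) (by positivity), div_le_iff₀ (by positivity)] at d4
  have d6 : ((#S : ℕ) : ℝ) ^ (1 + c) < 3 * (2 * M) ^ (j + 2) := by linarith
  have d7 := mul_lt_mul_of_pos_right d6 (Real.rpow_pos_of_pos (by linarith : (0 : ℝ) < (j + 2 : ℕ))
    (1 + c))
  have d8 := mul_le_mul_of_nonneg_left hM1 (by positivity : (0 : ℝ) ≤ M ^ (j + 2))
  rw [mul_pow] at d7
  rw [← pow_succ] at d8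
  nlinarith

end Pool.Agent.S10986
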