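import Pool.Statements.S11006
import Pool.Agent.Lib.helper13.Stap

set_option autoImplicit false
open scoped Pointwise
open Pool Pool.MP_b7cbb2_co

namespace Pool.Agent.S11006

def σ (g : ℤˣ) : Matrix (Fin 8) (Fin 8) ℤ := (H13Stap.ρ g).submatrix Fin.castSucc Fin.castSucc

def ι : (Fin 8 → ℤ) →ₗ[ℤ] (Fin 9 → ℤ) where
  toFun y := ![y 0, y 1, y 2, y 3, y 4, y 5, y 6, y 7, 0]
  map_add' x y := by ext i; fin_cases i <;> simp
  map_smul' c x := by ext i; fin_cases i <;> simp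

open H13Stap in
theorem cp (g : ℤˣ) : ((Matrix.det (1 - (Polynomial.X : Polynomial ℤ) •
    (σ g).map Polynomial.C) : Polynomial ℤ) : PowerSeries ℤ) =
    (1 - ((g : ℤ) : PowerSeries ℤ) * PowerSeries.X) * (1 - PowerSeries.X) ^ 7 := by
  rw [Matrix.det_of_isUpperTriangular]
  · rcases Int.units_eq_one_or g with rfl | rfl <;>
    simp [Fin.prod_univ_succ, σ, ρ_neg, A] <;> ring
  · intro i j h
    have h1 : i ≠ j := (id h : j < i).ne'
    have h2 : i ≠ 0 := (Fin.pos_iff_ne_zero.1 (lt_of_le_of_lt (Fin.zero_le j) h))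
    rcases Int.units_eq_one_or g with rfl | rfl <;>
    simp [σ, ρ_neg, A, h1, h2, Matrix.one_apply_ne]

open H13Stap in
theorem span (z : Fin 9 → ℝ) : z ∈ vectorSpan ℝ P ↔ z 8 = 0 := by
  have hv : ∀ i, (fun k => (v i k : ℝ)) ∈ P := fun i => P_eq ▸ subset_convexHull _ _ ⟨i, rfl⟩
  constructor
  · intro h
    refine (Submodule.span_le (p := LinearMap.ker (LinearMap.proj 8))).2 ?_ h
    rintro _ ⟨x, hx, y, hy, rfl⟩
    have h1 := ((mem_P 1 zero_le_one x).1 (by rwa [one_smul])).2.2.2.2.2.2.2.2.2.2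
    have h2 := ((mem_P 1 zero_le_one y).1 (by rwa [one_smul])).2.2.2.2.2.2.2.2.2.2
    simp [h1, h2]
  · intro h
    obtain ⟨w, hw⟩ : ∃ w : Fin 10 → ℝ, z = ∑ i, w i •
        ((fun k => (v i k : ℝ)) -ᵥ fun k => (v 0 k : ℝ)) := by
      refine ⟨![0, z 0, z 7 / 2, 0, z 7 / 2 + z 1, z 7 / 2 + z 2, z 7 / 2 + z 3, z 7 / 2 + z 4,
        z 7 / 2 + z 5, z 7 / 2 + z 6], funext fun k => ?_⟩
      fin_cases k <;> simp [Fin.sum_univ_succ, v, h] <;> ring
    rw [hw]
    exact Submodule.sum_mem _ fun i _ => Submodule.smul_mem _ _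
      (vsub_mem_vectorSpan ℝ (hv i) (hv 0))

/-- The negation of the preceding statement: For any finite group acting linearly on Z^n and invariant lattice polytope P whose equivariant h*-series is a polynomial, every coefficient with positive h*_i has nonzero sum over the group, i.e. contains the trivial representation. -/
theorem result :
    ¬ (∀ (G : Type) [Group G] [Fintype G] (n : ℕ)
      (ρ : G →* Matrix.GeneralLinearGroup (Fin n) ℤ)
      (V : Finset (Fin n → ℤ)) (P : Set (Fin n → ℝ)),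
      V.Nonempty →
      (∀ g : G, ∀ v ∈ V,
        Matrix.mulVec (ρ g : Matrix (Fin n) (Fin n) ℤ) v ∈ V) →
      P = convexHull ℝ
        ((fun v : Fin n → ℤ => fun j => ((v j : ℤ) : ℝ)) '' (V : Set (Fin n → ℤ))) →
      ∀ (d : ℕ) (ι : (Fin d → ℤ) →ₗ[ℤ] (Fin n → ℤ))
        (σ : G → Matrix (Fin d) (Fin d) ℤ) (Φ : G → PowerSeries ℤ),
      Function.Injective ι →
      (∀ x : Fin n → ℤ,
        (∃ y : Fin d → ℤ, ι y = x) ↔
          (fun j => ((x j : ℤ) : ℝ)) ∈ vectorSpan ℝ P) →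
      (∀ (g : G) (y : Fin d → ℤ),
        ι (Matrix.mulVec (σ g) y) =
          Matrix.mulVec (ρ g : Matrix (Fin n) (Fin n) ℤ) (ι y)) →
      (∀ g : G, Φ g =
        PowerSeries.mk (fun m : ℕ =>
          ((Set.ncard {x : Fin n → ℤ |
              (fun j => ((x j : ℤ) : ℝ)) ∈ (m : ℝ) • P ∧
              Matrix.mulVec (ρ g : Matrix (Fin n) (Fin n) ℤ) x = x} : ℕ) : ℤ))
        * (1 - PowerSeries.X)
        * ((Matrix.det (1 - (Polynomial.X : Polynomial ℤ) •
              (σ g).map Polynomial.C) : Polynomial ℤ) : PowerSeries ℤ)) →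
      (∃ N : ℕ, ∀ g : G, ∀ i : ℕ, N ≤ i →
        PowerSeries.coeff (R := ℤ) i (Φ g) = 0) →
      ∀ i : ℕ, 0 < PowerSeries.coeff (R := ℤ) i (Φ 1) →
        (∑ g : G, PowerSeries.coeff (R := ℤ) i (Φ g)) ≠ 0) := by
  intro h
  have e : ∀ k : ℕ, (2 * PowerSeries.X ^ k : PowerSeries ℤ) =
      PowerSeries.X ^ k + PowerSeries.X ^ k := fun k => two_mul _
  refine h ℤˣ 9 H13Stap.ρ.toHomUnits H13Stap.S H13Stap.P (by decide +kernel) ?_ rfl 8 ι σ
    (fun g => if g = 1 then 1 + PowerSeries.X + 2 * PowerSeries.X ^ 4 else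
      1 - PowerSeries.X + 2 * PowerSeries.X ^ 2 - 2 * PowerSeries.X ^ 3 + 2 * PowerSeries.X ^ 4)
    ?_ ?_ ?_ ?_ ⟨5, ?_⟩ 1 ?_ ?_
  · change ∀ g : ℤˣ, ∀ v ∈ H13Stap.S, (H13Stap.ρ g).mulVec v ∈ H13Stap.S
    decide +kernel
  · intro x y hxy
    ext i
    have := congrFun hxy i.castSucc
    fin_cases i <;> exact this
  · intro x
    rw [span, Int.cast_eq_zero]
    refine ⟨by rintro ⟨y, rfl⟩; rfl, fun h => ⟨fun i => x i.castSucc, funext fun i => ?_⟩⟩
    fin_cases i
    all_goals first | rfl | exact h.symm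
  · intro g y
    change _ = (H13Stap.ρ g).mulVec _
    ext i
    rcases Int.units_eq_one_or g with rfl | rfl <;> fin_cases i <;>
    simp [ι, σ, H13Stap.ρ_neg, H13Stap.A, Matrix.mulVec, dotProduct, Fin.sum_univ_succ,
      Matrix.one_apply]
  · intro g
    rw [cp]
    simp only [MonoidHom.coe_toHomUnits]
    rcases Int.units_eq_one_or g with rfl | rfl
    · rw [if_pos rfl, ← H13Stap.gf_one, map_one]
      simp only [Units.val_one, Int.cast_one]
      ring
    · rw [if_neg (by decide), ← H13Stap.gf_A, H13Stap.ρ_neg]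
      simp only [Units.val_neg, Units.val_one, Int.cast_neg, Int.cast_one]
      ring
  · intro g i hi
    obtain ⟨k, rfl⟩ := Nat.exists_eq_add_of_le' hi
    split_ifs <;> simp [e, PowerSeries.coeff_X_pow, PowerSeries.coeff_X, PowerSeries.coeff_one]
  · simp [e, PowerSeries.coeff_X_pow, PowerSeries.coeff_one]
  · rw [UnitsInt.univ, Finset.sum_pair (by decide), if_pos rfl, if_neg (by decide)]
    simp [e, PowerSeries.coeff_X_pow, PowerSeries.coeff_one]

end Pool.Agent.S11006
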