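import Pool.Statements.S11060
import Pool.Agent.Lib.H8.PetParity
import Pool.Agent.Lib.H8.Cyc

set_option autoImplicit false
open Classical
open Pool Pool.MP_ba3dea_co

namespace Pool.Agent.S11060

open Pool.Agent.Lib.H8

theorem pm (w0 w1 w2 w3 w4 w5 w6 w7 w8 w9 w10 w11 w12 w13 w14 : ℕ)
    (p0 : 1 ≤ w0)
    (p1 : 1 ≤ w1)
    (p2 : 1 ≤ w2)
    (p3 : 1 ≤ w3)
    (p4 : 1 ≤ w4)
    (p5 : 1 ≤ w5)
    (p6 : 1 ≤ w6)
    (p7 : 1 ≤ w7)
    (p8 : 1 ≤ w8)
    (p9 : 1 ≤ w9)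
    (p10 : 1 ≤ w10)
    (p11 : 1 ≤ w11)
    (p12 : 1 ≤ w12)
    (p13 : 1 ≤ w13)
    (p14 : 1 ≤ w14)
    (t0 : w0 + w4 + w5 = 4)
    (t1 : w0 + w1 + w6 = 4)
    (t2 : w1 + w2 + w7 = 4)
    (t3 : w2 + w3 + w8 = 4)
    (t4 : w3 + w4 + w9 = 4)
    (t5 : w5 + w10 + w13 = 4)
    (t6 : w6 + w11 + w14 = 4)
    (t7 : w7 + w10 + w12 = 4)
    (t8 : w8 + w11 + w13 = 4)
    (t9 : w9 + w12 + w14 = 4)
    : (w0 = 2 ∧ w1 = 1 ∧ w2 = 2 ∧ w3 = 1 ∧ w4 = 1 ∧ w5 = 1 ∧ w6 = 1 ∧ w7 = 1 ∧ w8 = 1 ∧ w9 = 2 ∧ w10 = 2 ∧ w11 = 2 ∧ w12 = 1 ∧ w13 = 1 ∧ w14 = 1) ∨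
      (w0 = 2 ∧ w1 = 1 ∧ w2 = 1 ∧ w3 = 2 ∧ w4 = 1 ∧ w5 = 1 ∧ w6 = 1 ∧ w7 = 2 ∧ w8 = 1 ∧ w9 = 1 ∧ w10 = 1 ∧ w11 = 1 ∧ w12 = 1 ∧ w13 = 2 ∧ w14 = 2) ∨
      (w0 = 1 ∧ w1 = 2 ∧ w2 = 1 ∧ w3 = 1 ∧ w4 = 2 ∧ w5 = 1 ∧ w6 = 1 ∧ w7 = 1 ∧ w8 = 2 ∧ w9 = 1 ∧ w10 = 2 ∧ w11 = 1 ∧ w12 = 1 ∧ w13 = 1 ∧ w14 = 2) ∨
      (w0 = 1 ∧ w1 = 1 ∧ w2 = 2 ∧ w3 = 1 ∧ w4 = 2 ∧ w5 = 1 ∧ w6 = 2 ∧ w7 = 1 ∧ w8 = 1 ∧ w9 = 1 ∧ w10 = 1 ∧ w11 = 1 ∧ w12 = 2 ∧ w13 = 2 ∧ w14 = 1) ∨
      (w0 = 1 ∧ w1 = 2 ∧ w2 = 1 ∧ w3 = 2 ∧ w4 = 1 ∧ w5 = 2 ∧ w6 = 1 ∧ w7 = 1 ∧ w8 = 1 ∧ w9 = 1 ∧ w10 = 1 ∧ w11 = 2 ∧ w12 = 2 ∧ w13 = 1 ∧ w14 = 1) ∨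
      (w0 = 1 ∧ w1 = 1 ∧ w2 = 1 ∧ w3 = 1 ∧ w4 = 1 ∧ w5 = 2 ∧ w6 = 2 ∧ w7 = 2 ∧ w8 = 2 ∧ w9 = 2 ∧ w10 = 1 ∧ w11 = 1 ∧ w12 = 1 ∧ w13 = 1 ∧ w14 = 1) := by
  have h0 : w0 = 2 ∨ w4 = 2 ∨ w5 = 2 := by clear * - t0 p0 p4 p5; omega
  rcases h0 with c0 | c4 | c5
  · have c4 : w4 = 1 := by clear * - t0 p0 p4 p5 c0; omega
    have c5 : w5 = 1 := by clear * - t0 p0 p4 p5 c0; omega
    have c1 : w1 = 1 := by clear * - t1 p0 p1 p6 c0; omega
    have c6 : w6 = 1 := by clear * - t1 p0 p1 p6 c0; omega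
    have h1 : w2 = 2 ∨ w7 = 2 := by clear * - t2 p2 p7 c1; omega
    rcases h1 with c2 | c7
    · have c7 : w7 = 1 := by clear * - t2 p1 p2 p7 c1 c2; omega
      have c3 : w3 = 1 := by clear * - t3 p2 p3 p8 c2; omega
      have c8 : w8 = 1 := by clear * - t3 p2 p3 p8 c2; omega
      have c9 : w9 = 2 := by clear * - t4 c3 c4; omega
      have c12 : w12 = 1 := by clear * - t9 p9 p12 p14 c9; omega
      have c14 : w14 = 1 := by clear * - t9 p9 p12 p14 c9; omega
      have c11 : w11 = 2 := by clear * - t6 c6 c14; omega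
      have c10 : w10 = 2 := by clear * - t7 c7 c12; omega
      have c13 : w13 = 1 := by clear * - t8 p8 p11 p13 c8 c11; omega
      exact Or.inl ⟨c0, c1, c2, c3, c4, c5, c6, c7, c8, c9, c10, c11, c12, c13, c14⟩
    · have c2 : w2 = 1 := by clear * - t2 p1 p2 p7 c1 c7; omega
      have c10 : w10 = 1 := by clear * - t7 p7 p10 p12 c7; omega
      have c12 : w12 = 1 := by clear * - t7 p7 p10 p12 c7; omega
      have c13 : w13 = 2 := by clear * - t5 c5 c10; omega
      have c8 : w8 = 1 := by clear * - t8 p8 p11 p13 c13; omega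
      have c11 : w11 = 1 := by clear * - t8 p8 p11 p13 c13; omega
      have c3 : w3 = 2 := by clear * - t3 c2 c8; omega
      have c9 : w9 = 1 := by clear * - t4 p3 p4 p9 c3 c4; omega
      have c14 : w14 = 2 := by clear * - t6 c6 c11; omega
      exact Or.inr (Or.inl ⟨c0, c1, c2, c3, c4, c5, c6, c7, c8, c9, c10, c11, c12, c13, c14⟩)
  · have c0 : w0 = 1 := by clear * - t0 p0 p4 p5 c4; omega
    have c5 : w5 = 1 := by clear * - t0 p0 p4 p5 c4; omega
    have c3 : w3 = 1 := by clear * - t4 p3 p4 p9 c4; omega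
    have c9 : w9 = 1 := by clear * - t4 p3 p4 p9 c4; omega
    have h1 : w1 = 2 ∨ w6 = 2 := by clear * - t1 p1 p6 c0; omega
    rcases h1 with c1 | c6
    · have c6 : w6 = 1 := by clear * - t1 p0 p1 p6 c0 c1; omega
      have c2 : w2 = 1 := by clear * - t2 p1 p2 p7 c1; omega
      have c7 : w7 = 1 := by clear * - t2 p1 p2 p7 c1; omega
      have c8 : w8 = 2 := by clear * - t3 c2 c3; omega
      have c11 : w11 = 1 := by clear * - t8 p8 p11 p13 c8; omega
      have c13 : w13 = 1 := by clear * - t8 p8 p11 p13 c8; omega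
      have c10 : w10 = 2 := by clear * - t5 c5 c13; omega
      have c14 : w14 = 2 := by clear * - t6 c6 c11; omega
      have c12 : w12 = 1 := by clear * - t7 p7 p10 p12 c7 c10; omega
      exact Or.inr (Or.inr (Or.inl ⟨c0, c1, c2, c3, c4, c5, c6, c7, c8, c9, c10, c11, c12, c13, c14⟩))
    · have c1 : w1 = 1 := by clear * - t1 p0 p1 p6 c0 c6; omega
      have c11 : w11 = 1 := by clear * - t6 p6 p11 p14 c6; omega
      have c14 : w14 = 1 := by clear * - t6 p6 p11 p14 c6; omega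
      have c12 : w12 = 2 := by clear * - t9 c9 c14; omega
      have c7 : w7 = 1 := by clear * - t7 p7 p10 p12 c12; omega
      have c10 : w10 = 1 := by clear * - t7 p7 p10 p12 c12; omega
      have c2 : w2 = 2 := by clear * - t2 c1 c7; omega
      have c8 : w8 = 1 := by clear * - t3 p2 p3 p8 c2 c3; omega
      have c13 : w13 = 2 := by clear * - t5 c5 c10; omega
      exact Or.inr (Or.inr (Or.inr (Or.inl ⟨c0, c1, c2, c3, c4, c5, c6, c7, c8, c9, c10, c11, c12, c13, c14⟩)))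
  · have c0 : w0 = 1 := by clear * - t0 p0 p4 p5 c5; omega
    have c4 : w4 = 1 := by clear * - t0 p0 p4 p5 c5; omega
    have c10 : w10 = 1 := by clear * - t5 p5 p10 p13 c5; omega
    have c13 : w13 = 1 := by clear * - t5 p5 p10 p13 c5; omega
    have h1 : w1 = 2 ∨ w6 = 2 := by clear * - t1 p1 p6 c0; omega
    rcases h1 with c1 | c6
    · have c6 : w6 = 1 := by clear * - t1 p0 p1 p6 c0 c1; omega
      have c2 : w2 = 1 := by clear * - t2 p1 p2 p7 c1; omega
      have c7 : w7 = 1 := by clear * - t2 p1 p2 p7 c1; omega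
      have c12 : w12 = 2 := by clear * - t7 c7 c10; omega
      have c9 : w9 = 1 := by clear * - t9 p9 p12 p14 c12; omega
      have c14 : w14 = 1 := by clear * - t9 p9 p12 p14 c12; omega
      have c3 : w3 = 2 := by clear * - t4 c4 c9; omega
      have c11 : w11 = 2 := by clear * - t6 c6 c14; omega
      have c8 : w8 = 1 := by clear * - t8 p8 p11 p13 c11 c13; omega
      exact Or.inr (Or.inr (Or.inr (Or.inr (Or.inl ⟨c0, c1, c2, c3, c4, c5, c6, c7, c8, c9, c10, c11, c12, c13, c14⟩))))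
    · have c1 : w1 = 1 := by clear * - t1 p0 p1 p6 c0 c6; omega
      have c11 : w11 = 1 := by clear * - t6 p6 p11 p14 c6; omega
      have c14 : w14 = 1 := by clear * - t6 p6 p11 p14 c6; omega
      have c8 : w8 = 2 := by clear * - t8 c11 c13; omega
      have c2 : w2 = 1 := by clear * - t3 p2 p3 p8 c8; omega
      have c3 : w3 = 1 := by clear * - t3 p2 p3 p8 c8; omega
      have c9 : w9 = 2 := by clear * - t4 c3 c4; omega
      have c12 : w12 = 1 := by clear * - t9 p9 p12 p14 c9 c14; omega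
      have c7 : w7 = 2 := by clear * - t2 c1 c2; omega
      exact Or.inr (Or.inr (Or.inr (Or.inr (Or.inr (⟨c0, c1, c2, c3, c4, c5, c6, c7, c8, c9, c10, c11, c12, c13, c14⟩)))))

/-- The Petersen graph has no family of even subgraphs covering every edge with total weight 4
at each vertex. -/
theorem pet_no {m : ℕ} (y : ℕ → Fin m → ℕ) (hb : ∀ e j, y e j ≤ 1)
    (v0 : ∀ j, (y 0 j + y 4 j + y 5 j) % 2 = 0)
    (v1 : ∀ j, (y 0 j + y 1 j + y 6 j) % 2 = 0)
    (v2 : ∀ j, (y 1 j + y 2 j + y 7 j) % 2 = 0)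
    (v3 : ∀ j, (y 2 j + y 3 j + y 8 j) % 2 = 0)
    (v4 : ∀ j, (y 3 j + y 4 j + y 9 j) % 2 = 0)
    (v5 : ∀ j, (y 5 j + y 10 j + y 13 j) % 2 = 0)
    (v6 : ∀ j, (y 6 j + y 11 j + y 14 j) % 2 = 0)
    (v7 : ∀ j, (y 7 j + y 10 j + y 12 j) % 2 = 0)
    (v8 : ∀ j, (y 8 j + y 11 j + y 13 j) % 2 = 0)
    (v9 : ∀ j, (y 9 j + y 12 j + y 14 j) % 2 = 0)
    (p0 : 1 ≤ ∑ j, y 0 j)
    (p1 : 1 ≤ ∑ j, y 1 j)
    (p2 : 1 ≤ ∑ j, y 2 j)
    (p3 : 1 ≤ ∑ j, y 3 j)
    (p4 : 1 ≤ ∑ j, y 4 j)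
    (p5 : 1 ≤ ∑ j, y 5 j)
    (p6 : 1 ≤ ∑ j, y 6 j)
    (p7 : 1 ≤ ∑ j, y 7 j)
    (p8 : 1 ≤ ∑ j, y 8 j)
    (p9 : 1 ≤ ∑ j, y 9 j)
    (p10 : 1 ≤ ∑ j, y 10 j)
    (p11 : 1 ≤ ∑ j, y 11 j)
    (p12 : 1 ≤ ∑ j, y 12 j)
    (p13 : 1 ≤ ∑ j, y 13 j)
    (p14 : 1 ≤ ∑ j, y 14 j)
    (t0 : ∑ j, y 0 j + ∑ j, y 4 j + ∑ j, y 5 j = 4)
    (t1 : ∑ j, y 0 j + ∑ j, y 1 j + ∑ j, y 6 j = 4)
    (t2 : ∑ j, y 1 j + ∑ j, y 2 j + ∑ j, y 7 j = 4)
    (t3 : ∑ j, y 2 j + ∑ j, y 3 j + ∑ j, y 8 j = 4)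
    (t4 : ∑ j, y 3 j + ∑ j, y 4 j + ∑ j, y 9 j = 4)
    (t5 : ∑ j, y 5 j + ∑ j, y 10 j + ∑ j, y 13 j = 4)
    (t6 : ∑ j, y 6 j + ∑ j, y 11 j + ∑ j, y 14 j = 4)
    (t7 : ∑ j, y 7 j + ∑ j, y 10 j + ∑ j, y 12 j = 4)
    (t8 : ∑ j, y 8 j + ∑ j, y 11 j + ∑ j, y 13 j = 4)
    (t9 : ∑ j, y 9 j + ∑ j, y 12 j + ∑ j, y 14 j = 4)
    : False := by
  have hpm := pm _ _ _ _ _ _ _ _ _ _ _ _ _ _ _ p0 p1 p2 p3 p4 p5 p6 p7 p8 p9 p10 p11 p12 p13 p14 t0 t1 t2 t3 t4 t5 t6 t7 t8 t9
  clear p0 p1 p2 p3 p4 p5 p6 p7 p8 p9 p10 p11 p12 p13 p14 t0 t1 t2 t3 t4 t5 t6 t7 t8 t9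
  rcases hpm with h | h | h | h | h | h
  · have key := PetParity.par (y 4) (y 3) (y 8) (y 13) (y 5) (y 0) (y 9) (y 2) (y 11) (y 10) (y 1) (y 14) (y 7) (y 6) (y 12)
      (hb 0) (hb 9) (hb 2) (hb 11) (hb 10)
      (fun j => by have := v0 j; clear h; omega) (fun j => by have := v4 j; clear h; omega) (fun j => by have := v3 j; clear h; omega) (fun j => by have := v8 j; clear h; omega) (fun j => by have := v5 j; clear h; omega) (fun j => by have := v1 j; clear h; omega) (fun j => by have := v9 j; clear h; omega) (fun j => by have := v2 j; clear h; omega) (fun j => by have := v6 j; clear h; omega) (fun j => by have := v7 j; clear h; omega)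
    obtain ⟨c0, c1, c2, c3, c4, c5, c6, c7, c8, c9, c10, c11, c12, c13, c14⟩ := h
    simp only [c0, c1, c2, c3, c4, c5, c6, c7, c8, c9, c10, c11, c12, c13, c14, forall_const] at key
    omega
  · have key := PetParity.par (y 4) (y 9) (y 12) (y 10) (y 5) (y 0) (y 3) (y 14) (y 7) (y 13) (y 6) (y 2) (y 11) (y 1) (y 8)
      (hb 0) (hb 3) (hb 14) (hb 7) (hb 13)
      (fun j => by have := v0 j; clear h; omega) (fun j => by have := v4 j; clear h; omega) (fun j => by have := v9 j; clear h; omega) (fun j => by have := v7 j; clear h; omega) (fun j => by have := v5 j; clear h; omega) (fun j => by have := v1 j; clear h; omega) (fun j => by have := v3 j; clear h; omega) (fun j => by have := v6 j; clear h; omega) (fun j => by have := v2 j; clear h; omega) (fun j => by have := v8 j; clear h; omega)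
    obtain ⟨c0, c1, c2, c3, c4, c5, c6, c7, c8, c9, c10, c11, c12, c13, c14⟩ := h
    simp only [c0, c1, c2, c3, c4, c5, c6, c7, c8, c9, c10, c11, c12, c13, c14, forall_const] at key
    omega
  · have key := PetParity.par (y 0) (y 6) (y 11) (y 13) (y 5) (y 4) (y 1) (y 14) (y 8) (y 10) (y 9) (y 2) (y 12) (y 3) (y 7)
      (hb 4) (hb 1) (hb 14) (hb 8) (hb 10)
      (fun j => by have := v0 j; clear h; omega) (fun j => by have := v1 j; clear h; omega) (fun j => by have := v6 j; clear h; omega) (fun j => by have := v8 j; clear h; omega) (fun j => by have := v5 j; clear h; omega) (fun j => by have := v4 j; clear h; omega) (fun j => by have := v2 j; clear h; omega) (fun j => by have := v9 j; clear h; omega) (fun j => by have := v3 j; clear h; omega) (fun j => by have := v7 j; clear h; omega)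
    obtain ⟨c0, c1, c2, c3, c4, c5, c6, c7, c8, c9, c10, c11, c12, c13, c14⟩ := h
    simp only [c0, c1, c2, c3, c4, c5, c6, c7, c8, c9, c10, c11, c12, c13, c14, forall_const] at key
    omega
  · have key := PetParity.par (y 0) (y 1) (y 7) (y 10) (y 5) (y 4) (y 6) (y 2) (y 12) (y 13) (y 3) (y 14) (y 8) (y 9) (y 11)
      (hb 4) (hb 6) (hb 2) (hb 12) (hb 13)
      (fun j => by have := v0 j; clear h; omega) (fun j => by have := v1 j; clear h; omega) (fun j => by have := v2 j; clear h; omega) (fun j => by have := v7 j; clear h; omega) (fun j => by have := v5 j; clear h; omega) (fun j => by have := v4 j; clear h; omega) (fun j => by have := v6 j; clear h; omega) (fun j => by have := v3 j; clear h; omega) (fun j => by have := v9 j; clear h; omega) (fun j => by have := v8 j; clear h; omega)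
    obtain ⟨c0, c1, c2, c3, c4, c5, c6, c7, c8, c9, c10, c11, c12, c13, c14⟩ := h
    simp only [c0, c1, c2, c3, c4, c5, c6, c7, c8, c9, c10, c11, c12, c13, c14, forall_const] at key
    omega
  · have key := PetParity.par (y 0) (y 6) (y 14) (y 9) (y 4) (y 5) (y 1) (y 11) (y 12) (y 3) (y 13) (y 7) (y 8) (y 10) (y 2)
      (hb 5) (hb 1) (hb 11) (hb 12) (hb 3)
      (fun j => by have := v0 j; clear h; omega) (fun j => by have := v1 j; clear h; omega) (fun j => by have := v6 j; clear h; omega) (fun j => by have := v9 j; clear h; omega) (fun j => by have := v4 j; clear h; omega) (fun j => by have := v5 j; clear h; omega) (fun j => by have := v2 j; clear h; omega) (fun j => by have := v8 j; clear h; omega) (fun j => by have := v7 j; clear h; omega) (fun j => by have := v3 j; clear h; omega)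
    obtain ⟨c0, c1, c2, c3, c4, c5, c6, c7, c8, c9, c10, c11, c12, c13, c14⟩ := h
    simp only [c0, c1, c2, c3, c4, c5, c6, c7, c8, c9, c10, c11, c12, c13, c14, forall_const] at key
    omega
  · have key := PetParity.par (y 0) (y 1) (y 2) (y 3) (y 4) (y 5) (y 6) (y 7) (y 8) (y 9) (y 10) (y 11) (y 12) (y 13) (y 14)
      (hb 5) (hb 6) (hb 7) (hb 8) (hb 9)
      (fun j => by have := v0 j; clear h; omega) (fun j => by have := v1 j; clear h; omega) (fun j => by have := v2 j; clear h; omega) (fun j => by have := v3 j; clear h; omega) (fun j => by have := v4 j; clear h; omega) (fun j => by have := v5 j; clear h; omega) (fun j => by have := v6 j; clear h; omega) (fun j => by have := v7 j; clear h; omega) (fun j => by have := v8 j; clear h; omega) (fun j => by have := v9 j; clear h; omega)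
    obtain ⟨c0, c1, c2, c3, c4, c5, c6, c7, c8, c9, c10, c11, c12, c13, c14⟩ := h
    simp only [c0, c1, c2, c3, c4, c5, c6, c7, c8, c9, c10, c11, c12, c13, c14, forall_const] at key
    omega

def nbL : List ℕ := [120, 33554488, 1073741880, 7, 39, 23, 3585, 7680, 68719480320, 448, 2496, 1472, 229504, 491520, 4398046740480, 28672, 159744, 94208, 14688256, 31457280, 281474991390720, 1835008, 10223616, 6029312, 940048384, 939524098, 18014399449006080, 117440512, 654311424, 385875968, 60129542148, 8856222564352, 1125960036384768, 7516192768, 41875931136, 24696061952, 3848290697472, 566798244118528, 72061442328625152, 481036337152, 2680059592704, 1580547964928, 246290604638208, 246292752105472, 36275087623585792, 30786325577728, 171523813933056, 101155069755392, 15762598696845312, 15762736134750208, 15762602990764032, 1970324836974592, 10977524091715584, 6473924464345088, 1008806316598099968, 1008823908717035520, 1008806591408898048,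 126100789566373888, 702561541869797376, 414331165718085632]
def srcL : List (Fin 60) := [0, 7, 13, 19, 25, 2, 8, 14, 20, 26, 31, 37, 44, 50, 56, 0, 0, 0, 1, 1, 1, 2, 2, 2, 4, 6, 6, 6, 7, 7, 7, 8, 8, 8, 10, 12, 12, 12, 13, 13, 13, 14, 14, 14, 16, 18, 18, 18, 19, 19, 19, 20, 20, 20, 22, 24, 24, 24, 25, 25, 25, 26, 26, 26, 28, 30, 30, 30, 31, 31, 31, 32, 32, 32, 34, 36, 36, 36, 37, 37, 37, 38, 38, 38, 40, 42, 42, 42, 43, 43, 43, 44, 44, 44, 46, 48, 48, 48, 49, 49, 49, 50, 50, 50, 52, 54, 54, 54, 55, 55, 55, 56, 56, 56, 58]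
def dstL : List (Fin 60) := [6, 12, 18, 24, 1, 30, 36, 42, 48, 54, 43, 49, 55, 32, 38, 3, 4, 5, 3, 4, 5, 3, 4, 5, 5, 9, 10, 11, 9, 10, 11, 9, 10, 11, 11, 15, 16, 17, 15, 16, 17, 15, 16, 17, 17, 21, 22, 23, 21, 22, 23, 21, 22, 23, 23, 27, 28, 29, 27, 28, 29, 27, 28, 29, 29, 33, 34, 35, 33, 34, 35, 33, 34, 35, 35, 39, 40, 41, 39, 40, 41, 39, 40, 41, 41, 45, 46, 47, 45, 46, 47, 45, 46, 47, 47, 51, 52, 53, 51, 52, 53, 51, 52, 53, 53, 57, 58, 59, 57, 58, 59, 57, 58, 59, 59]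
def incT : List (List (Fin 115)) := [[0, 15, 16, 17], [4, 18, 19, 20], [5, 21, 22, 23], [15, 18, 21], [16, 19, 22, 24], [17, 20, 23, 24], [0, 25, 26, 27], [1, 28, 29, 30], [6, 31, 32, 33], [25, 28, 31], [26, 29, 32, 34], [27, 30, 33, 34], [1, 35, 36, 37], [2, 38, 39, 40], [7, 41, 42, 43], [35, 38, 41], [36, 39, 42, 44], [37, 40, 43, 44], [2, 45, 46, 47], [3, 48, 49, 50], [8, 51, 52, 53], [45, 48, 51], [46, 49, 52, 54], [47, 50, 53, 54], [3, 55, 56, 57], [4, 58, 59, 60], [9, 61, 62, 63], [55, 58, 61], [56, 59, 62, 64], [57, 60, 63, 64], [5, 65, 66, 67], [10, 68, 69, 70], [13, 71, 72, 73], [65, 68, 71], [66, 69, 72, 74], [67, 70, 73, 74], [6, 75, 76, 77], [11, 78, 79, 80], [14, 81, 82, 83], [75, 78, 81], [76, 79, 82, 84], [77, 80, 83, 84], [7, 85, 86, 87], [10, 88, 89, 90], [12, 91, 92, 93], [85, 88, 91], [86, 89, 92, 94], [87, 90, 93, 94], [8, 95, 96, 97], [11, 98, 99, 100], [13, 101, 102, 103], [95, 98, 101], [96, 99, 102,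 104], [97, 100, 103, 104], [9, 105, 106, 107], [12, 108, 109, 110], [14, 111, 112, 113], [105, 108, 111], [106, 109, 112, 114], [107, 110, 113, 114]]
def dT : List (List (Fin 115)) := [[0, 4, 5], [0, 1, 6], [1, 2, 7], [2, 3, 8], [3, 4, 9], [5, 10, 13], [6, 11, 14], [7, 10, 12], [8, 11, 13], [9, 12, 14]]
def cycT : List (Fin 60 × List (Fin 60)) := [(2, [3, 0, 6, 11, 7, 12, 15, 14, 42, 45, 43, 31, 33, 30]), (1, [5, 0, 6, 9, 8, 36, 39, 37, 49, 51, 48, 20, 21, 18, 13, 15, 14, 42, 45, 44, 55, 57, 54, 26, 27, 25]), (2, [4, 0, 6, 10, 8, 36, 39, 38, 56, 57, 54, 26, 27, 24, 19, 21, 20, 48, 51, 50, 32, 33, 30]), (3, [2, 5, 4, 1]), (9, [8, 11, 10, 7]), (14, [16, 12, 17]), (13, [16, 17]), (20, [22, 18, 23]), (19, [22, 23]), (26, [28, 24, 29]), (25, [28, 29]), (30, [34, 31, 35]), (32, [34, 35]), (36, [40, 37, 41]), (38, [40, 41]), (42, [46, 43, 47]), (44, [46, 47]), (48, [52, 49, 53]), (50, [52, 53]), (54, [58, 55, 59]), (56, [58, 59])]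
def nb (v : Fin 60) : ℕ := nbL.getD v.val 0
def src (e : Fin 115) : Fin 60 := srcL.getD e.val 0
def dst (e : Fin 115) : Fin 60 := dstL.getD e.val 0
def inc (v : Fin 60) : List (Fin 115) := incT.getD v.val []
def ends (e : Fin 115) : Sym2 (Fin 60) := s(src e, dst e)
def dg (g : Fin 10) (k : ℕ) : Fin 115 := (dT.getD g.val []).getD k 0
def ie (g : Fin 10) (k : Fin 10) : Fin 115 := ⟨15 + 10 * g.val + k.val, by omega⟩
def vv (g : Fin 10) (k : Fin 6) : Fin 60 := ⟨6 * g.val + k.val, by omega⟩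

/-- The Petersen graph with every vertex replaced by K33 plus an edge. -/
def G : SimpleGraph (Fin 60) where
  Adj x y := (nb x).testBit y.val = true
  symm := ⟨by decide +kernel⟩
  loopless := ⟨by decide +kernel⟩

instance : DecidableRel G.Adj := fun x y => inferInstanceAs (Decidable ((nb x).testBit y.val = true))

theorem adj_inc : ∀ x y : Fin 60, (nb x).testBit y.val = true →
    ∃ e ∈ inc x, (src e = x ∧ dst e = y) ∨ (src e = y ∧ dst e = x) := by decide +kernel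
theorem adj_ends : ∀ e : Fin 115, (nb (src e)).testBit (dst e).val = true := by decide +kernel
theorem inc_iff : ∀ (v : Fin 60) (e : Fin 115), (v = src e ∨ v = dst e) ↔ e ∈ inc v := by
  decide +kernel
theorem inc_nodup : ∀ v : Fin 60, (inc v).Nodup := by decide +kernel
theorem inj' : ∀ e : Fin 115, ∀ e' ∈ inc (src e),
    (src e = src e' ∧ dst e = dst e') ∨ (src e = dst e' ∧ dst e = src e') → e = e' := by
  decide +kernel

theorem ends_inj : Function.Injective ends := by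
  intro e e' h
  unfold ends at h
  rw [Sym2.eq_iff] at h
  refine inj' e e' ((inc_iff _ _).1 ?_) h
  tauto

theorem ends_sur (e : Sym2 (Fin 60)) (he : e ∈ G.edgeSet) : ∃ i, ends i = e := by
  induction e using Sym2.ind with
  | _ x y =>
    obtain ⟨i, -, hi⟩ := adj_inc x y he
    exact ⟨i, by unfold ends; rw [Sym2.eq_iff]; exact hi⟩

theorem inc_g : ∀ g : Fin 10,
    inc (vv g 0) = [dg g 0, ie g 0, ie g 1, ie g 2] ∧
    inc (vv g 1) = [dg g 1, ie g 3, ie g 4, ie g 5] ∧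
    inc (vv g 2) = [dg g 2, ie g 6, ie g 7, ie g 8] ∧
    inc (vv g 3) = [ie g 0, ie g 3, ie g 6] ∧
    inc (vv g 4) = [ie g 1, ie g 4, ie g 7, ie g 9] ∧
    inc (vv g 5) = [ie g 2, ie g 5, ie g 8, ie g 9] := by decide +kernel

theorem gad_eqs (x : Fin 115 → ℕ) (h : ∀ v, ((inc v).map x).sum % 2 = 0) (g : Fin 10) :
    (x (dg g 0) + x (ie g 0) + x (ie g 1) + x (ie g 2)) % 2 = 0 ∧
    (x (dg g 1) + x (ie g 3) + x (ie g 4) + x (ie g 5)) % 2 = 0 ∧
    (x (dg g 2) + x (ie g 6) + x (ie g 7) + x (ie g 8)) % 2 = 0 ∧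
    (x (ie g 0) + x (ie g 3) + x (ie g 6)) % 2 = 0 ∧
    (x (ie g 1) + x (ie g 4) + x (ie g 7) + x (ie g 9)) % 2 = 0 ∧
    (x (ie g 2) + x (ie g 5) + x (ie g 8) + x (ie g 9)) % 2 = 0 := by
  obtain ⟨e0, e1, e2, e3, e4, e5⟩ := inc_g g
  have h0 := h (vv g 0)
  have h1 := h (vv g 1)
  have h2 := h (vv g 2)
  have h3 := h (vv g 3)
  have h4 := h (vv g 4)
  have h5 := h (vv g 5)
  rw [e0] at h0
  rw [e1] at h1
  rw [e2] at h2
  rw [e3] at h3
  rw [e4] at h4
  rw [e5] at h5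
  simp only [List.map_cons, List.map_nil, List.sum_cons, List.sum_nil] at h0 h1 h2 h3 h4 h5
  refine ⟨?_, ?_, ?_, ?_, ?_, ?_⟩ <;> omega

theorem gad_par (x : Fin 115 → ℕ) (h : ∀ v, ((inc v).map x).sum % 2 = 0) (g : Fin 10) :
    (x (dg g 0) + x (dg g 1) + x (dg g 2)) % 2 = 0 := by
  obtain ⟨h0, h1, h2, h3, h4, h5⟩ := gad_eqs x h g
  omega

def blk (g : Fin 10) : List (Fin 115) := [dg g 0, dg g 1, dg g 2,
  ie g 0, ie g 1, ie g 2, ie g 3, ie g 4, ie g 5, ie g 6, ie g 7, ie g 8, ie g 9,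
  ie g 0, ie g 1, ie g 2, ie g 3, ie g 4, ie g 5, ie g 6, ie g 7, ie g 8, ie g 9]

theorem gad_lb (x : Fin 115 → ℕ) (h : ∀ v, ((inc v).map x).sum % 2 = 0)
    (hx : ∀ e, 1 ≤ x e ∧ x e ≤ 2) (g : Fin 10) :
    26 ≤ ((blk g).map x).sum ∧
      (x (dg g 0) + x (dg g 1) + x (dg g 2) = 4 ∨ 32 ≤ ((blk g).map x).sum) := by
  have hp := gad_par x h g
  obtain ⟨h0, h1, h2, h3, -, -⟩ := gad_eqs x h g
  have a0 := hx (dg g 0)
  have a1 := hx (dg g 1)
  have a2 := hx (dg g 2)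
  have b0 := hx (ie g 0)
  have b1 := hx (ie g 1)
  have b2 := hx (ie g 2)
  have b3 := hx (ie g 3)
  have b4 := hx (ie g 4)
  have b5 := hx (ie g 5)
  have b6 := hx (ie g 6)
  have b7 := hx (ie g 7)
  have b8 := hx (ie g 8)
  have b9 := hx (ie g 9)
  simp only [blk, List.map_cons, List.map_nil, List.sum_cons, List.sum_nil]
  have c3 : 4 ≤ x (ie g 0) + x (ie g 3) + x (ie g 6) := by clear hp h0 h1 h2; omega
  have d : 4 ≤ x (dg g 0) + x (dg g 1) + x (dg g 2) := by clear h0 h1 h2 h3; omega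
  refine ⟨by clear hp h0 h1 h2 h3; omega, ?_⟩
  by_cases hD : x (dg g 0) + x (dg g 1) + x (dg g 2) = 4
  · exact Or.inl hD
  · right
    have dd : x (dg g 0) + x (dg g 1) + x (dg g 2) = 6 := by clear h0 h1 h2 h3; omega
    clear hp hD h3
    have d0 : x (dg g 0) = 2 := by clear h0 h1 h2; omega
    have d1 : x (dg g 1) = 2 := by clear h0 h1 h2; omega
    have d2 : x (dg g 2) = 2 := by clear h0 h1 h2; omega
    have c0 : 4 ≤ x (ie g 0) + x (ie g 1) + x (ie g 2) := by clear h1 h2; omega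
    have c1 : 4 ≤ x (ie g 3) + x (ie g 4) + x (ie g 5) := by clear h0 h2; omega
    have c2 : 4 ≤ x (ie g 6) + x (ie g 7) + x (ie g 8) := by clear h0 h1; omega
    clear h0 h1 h2
    omega

theorem blk_perm : (List.finRange 115 ++ List.finRange 115).Perm
    (blk 0 ++ blk 1 ++ blk 2 ++ blk 3 ++ blk 4 ++ blk 5 ++ blk 6 ++ blk 7 ++ blk 8 ++ blk 9) := by
  decide +kernel

theorem lower {m : ℕ} (x : Fin 115 → Fin m → ℕ) (hb : ∀ e j, x e j ≤ 1)
    (hev : ∀ (j : Fin m) (v : Fin 60), ((inc v).map (fun e => x e j)).sum % 2 = 0)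
    (hw : ∀ e, 1 ≤ ∑ j, x e j ∧ ∑ j, x e j ≤ 2) : 133 ≤ ∑ e, ∑ j, x e j := by
  have hev' : ∀ v : Fin 60, ((inc v).map (fun e => ∑ j, x e j)).sum % 2 = 0 := by
    intro v
    have : ((inc v).map (fun e => ∑ j, x e j)).sum = ∑ j, ((inc v).map (fun e => x e j)).sum := by
      induction inc v with
      | nil => simp
      | cons a l ih => simp [ih, Finset.sum_add_distrib]
    rw [this]
    exact Nat.mod_eq_zero_of_dvd (Finset.dvd_sum fun j _ => Nat.dvd_of_mod_eq_zero (hev j v))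
  have hs := (blk_perm.map (fun e => ∑ j, x e j)).sum_eq
  simp only [List.map_append, List.sum_append] at hs
  rw [← Fin.sum_univ_def] at hs
  by_contra hlt
  have g := gad_lb (fun e => ∑ j, x e j) hev' hw
  have a0 := (g 0).1
  have a1 := (g 1).1
  have a2 := (g 2).1
  have a3 := (g 3).1
  have a4 := (g 4).1
  have a5 := (g 5).1
  have a6 := (g 6).1
  have a7 := (g 7).1
  have a8 := (g 8).1
  have a9 := (g 9).1
  have n0 : ¬ 32 ≤ ((blk 0).map (fun e => ∑ j, x e j)).sum := by omega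
  have n1 : ¬ 32 ≤ ((blk 1).map (fun e => ∑ j, x e j)).sum := by omega
  have n2 : ¬ 32 ≤ ((blk 2).map (fun e => ∑ j, x e j)).sum := by omega
  have n3 : ¬ 32 ≤ ((blk 3).map (fun e => ∑ j, x e j)).sum := by omega
  have n4 : ¬ 32 ≤ ((blk 4).map (fun e => ∑ j, x e j)).sum := by omega
  have n5 : ¬ 32 ≤ ((blk 5).map (fun e => ∑ j, x e j)).sum := by omega
  have n6 : ¬ 32 ≤ ((blk 6).map (fun e => ∑ j, x e j)).sum := by omega
  have n7 : ¬ 32 ≤ ((blk 7).map (fun e => ∑ j, x e j)).sum := by omega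
  have n8 : ¬ 32 ≤ ((blk 8).map (fun e => ∑ j, x e j)).sum := by omega
  have n9 : ¬ 32 ≤ ((blk 9).map (fun e => ∑ j, x e j)).sum := by omega
  have t0 : ∑ j, x 0 j + ∑ j, x 4 j + ∑ j, x 5 j = 4 := (g 0).2.resolve_right n0
  have t1 : ∑ j, x 0 j + ∑ j, x 1 j + ∑ j, x 6 j = 4 := (g 1).2.resolve_right n1
  have t2 : ∑ j, x 1 j + ∑ j, x 2 j + ∑ j, x 7 j = 4 := (g 2).2.resolve_right n2
  have t3 : ∑ j, x 2 j + ∑ j, x 3 j + ∑ j, x 8 j = 4 := (g 3).2.resolve_right n3
  have t4 : ∑ j, x 3 j + ∑ j, x 4 j + ∑ j, x 9 j = 4 := (g 4).2.resolve_right n4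
  have t5 : ∑ j, x 5 j + ∑ j, x 10 j + ∑ j, x 13 j = 4 := (g 5).2.resolve_right n5
  have t6 : ∑ j, x 6 j + ∑ j, x 11 j + ∑ j, x 14 j = 4 := (g 6).2.resolve_right n6
  have t7 : ∑ j, x 7 j + ∑ j, x 10 j + ∑ j, x 12 j = 4 := (g 7).2.resolve_right n7
  have t8 : ∑ j, x 8 j + ∑ j, x 11 j + ∑ j, x 13 j = 4 := (g 8).2.resolve_right n8
  have t9 : ∑ j, x 9 j + ∑ j, x 12 j + ∑ j, x 14 j = 4 := (g 9).2.resolve_right n9
  exact pet_no (fun e => x (Fin.ofNat 115 e)) (fun e j => hb _ j)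
    (fun j => gad_par (fun e => x e j) (hev j) 0) (fun j => gad_par (fun e => x e j) (hev j) 1) (fun j => gad_par (fun e => x e j) (hev j) 2) (fun j => gad_par (fun e => x e j) (hev j) 3) (fun j => gad_par (fun e => x e j) (hev j) 4) (fun j => gad_par (fun e => x e j) (hev j) 5) (fun j => gad_par (fun e => x e j) (hev j) 6) (fun j => gad_par (fun e => x e j) (hev j) 7) (fun j => gad_par (fun e => x e j) (hev j) 8) (fun j => gad_par (fun e => x e j) (hev j) 9)
    (hw 0).1 (hw 1).1 (hw 2).1 (hw 3).1 (hw 4).1 (hw 5).1 (hw 6).1 (hw 7).1 (hw 8).1 (hw 9).1 (hw 10).1 (hw 11).1 (hw 12).1 (hw 13).1 (hw 14).1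
    t0 t1 t2 t3 t4 t5 t6 t7 t8 t9


def sweeps : List (ℕ × ℕ) := [(0, 120), (6, 3585), (3, 7), (9, 448), (1, 33554488), (25, 939524098), (27, 117440512), (2, 1073741880), (30, 60129542148), (33, 7516192768), (7, 7680), (12, 229504), (15, 28672), (8, 68719480320), (36, 3848290697472), (39, 481036337152), (24, 940048384), (19, 31457280), (21, 1835008), (26, 18014399449006080), (54, 1008806316598099968), (57, 126100789566373888), (31, 8856222564352), (43, 246292752105472), (45, 30786325577728), (32, 1125960036384768), (50, 15762602990764032), (51, 1970324836974592), (13, 491520), (18, 14688256), (13, 491520), (22, 10223616), (16, 159744), (14, 4398046740480), (42, 246290604638208), (46, 171523813933056), (20, 281474991390720), (48, 15762598696845312), (52, 10977524091715584), (44, 36275087623585792), (55, 1008823908717035520), (58, 702561541869797376), (56, 1008806591408898048), (38, 72061442328625152), (40, 2680059592704), (43,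 246292752105472), (31, 8856222564352), (34, 41875931136), (54, 1008806316598099968), (26, 18014399449006080), (28, 654311424), (4, 39), (36, 3848290697472), (8, 68719480320), (10, 2496), (20, 281474991390720), (14, 4398046740480), (21, 1835008), (15, 28672), (44, 36275087623585792), (56, 1008806591408898048), (45, 30786325577728), (57, 126100789566373888), (37, 566798244118528), (49, 15762736134750208), (51, 1970324836974592), (50, 15762602990764032), (32, 1125960036384768), (33, 7516192768), (37, 566798244118528), (19, 31457280), (24, 940048384), (27, 117440512), (39, 481036337152), (12, 229504), (7, 7680), (12, 229504), (9, 448), (19, 31457280), (15, 28672), (21, 1835008), (1, 33554488), (25, 939524098), (27, 117440512), (2, 1073741880), (30, 60129542148), (33, 7516192768), (31, 8856222564352), (43, 246292752105472), (45, 30786325577728), (42, 246290604638208), (14, 4398046740480), (15, 28672), (13, 491520), (18, 14688256),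 (21, 1835008), (20, 281474991390720), (48, 15762598696845312), (51, 1970324836974592), (44, 36275087623585792), (55, 1008823908717035520), (57, 126100789566373888), (49, 15762736134750208), (37, 566798244118528), (39, 481036337152), (12, 229504), (7, 7680), (9, 448), (19, 31457280), (24, 940048384), (27, 117440512)]

theorem sweep_ok : ∀ p ∈ sweeps, ∀ x : Fin 60, x.val = p.1 → p.2 = nb x := by decide +kernel

theorem chk1 : ∀ u, u < 35 → Cyc.check3 60 sweeps u = true := by decide +kernel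
theorem chk2 : ∀ u, u < 15 → Cyc.check3 60 sweeps (35 + u) = true := by decide +kernel
theorem chk3 : ∀ u, u < 11 → Cyc.check3 60 sweeps (50 + u) = true := by decide +kernel

theorem chk : ∀ u, u < 60 + 1 → Cyc.check3 60 sweeps u = true := by
  intro u hu
  by_cases h1 : u < 35
  · exact chk1 u h1
  by_cases h2 : u < 50
  · have := chk2 (u - 35) (by omega)
    rwa [show 35 + (u - 35) = u by omega] at this
  · have := chk3 (u - 50) (by omega)
    rwa [show 50 + (u - 50) = u by omega] at this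

theorem cyc_ok : ∀ c ∈ cycT, List.IsChain G.Adj (c.1 :: (c.2 ++ [c.1])) ∧ (c.2 ++ [c.1]).Nodup ∧
    2 ≤ c.2.length := by decide +kernel

def pairs (c : Fin 60 × List (Fin 60)) : List (Fin 60 × Fin 60) :=
  List.zip (c.1 :: (c.2 ++ [c.1])) (c.2 ++ [c.1])

theorem cyc_cov : ∀ e : Fin 115, ∃ c ∈ cycT, (src e, dst e) ∈ pairs c ∨ (dst e, src e) ∈ pairs c := by
  decide +kernel

theorem cyc_len : (cycT.map (fun c => c.2.length + 1)).sum = 132 := by decide +kernel

theorem upper : ∃ F' : List (Σ u : Fin 60, G.Walk u u),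
    ((∀ c ∈ F', c.2.IsCycle) ∧ ∀ e ∈ G.edgeSet, ∃ c ∈ F', e ∈ c.2.edges) ∧
    (F'.map (fun c => c.2.length)).sum = 132 := by
  have h : ∀ c : {c // c ∈ cycT}, ∃ p : G.Walk c.1.1 c.1.1, p.IsCycle ∧
      p.support = c.1.1 :: (c.1.2 ++ [c.1.1]) := fun c =>
    Cyc.cyc_of_list G _ _ (cyc_ok c.1 c.2).1 (cyc_ok c.1 c.2).2.1 (cyc_ok c.1 c.2).2.2
  choose p hp1 hp2 using h
  refine ⟨cycT.attach.map (fun c => ⟨c.1.1, p c⟩), ⟨?_, ?_⟩, ?_⟩
  · intro c hc
    obtain ⟨c', -, rfl⟩ := List.mem_map.1 hc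
    exact hp1 c'
  · intro e he
    obtain ⟨i, rfl⟩ := ends_sur e he
    obtain ⟨c, hc, hi⟩ := cyc_cov i
    refine ⟨⟨c.1, p ⟨c, hc⟩⟩, List.mem_map.2 ⟨⟨c, hc⟩, List.mem_attach _ _, rfl⟩, ?_⟩
    change ends i ∈ (p ⟨c, hc⟩).edges
    rw [SimpleGraph.Walk.edges_eq_zipWith_support, hp2, ← List.map_uncurry_zip_eq_zipWith]
    rcases hi with hi | hi
    · exact List.mem_map.2 ⟨_, hi, rfl⟩
    · exact List.mem_map.2 ⟨_, hi, Sym2.eq_swap⟩
  · rw [List.map_map, ← cyc_len]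
    have : ∀ c : {c // c ∈ cycT}, (p c).length = c.1.2.length + 1 := fun c => by
      have := (p c).length_support
      rw [hp2] at this
      simp at this
      omega
    have h2 : ((fun c : (Σ u : Fin 60, G.Walk u u) => c.2.length) ∘
        fun c : {c // c ∈ cycT} => ⟨c.1.1, p c⟩) = (fun c => c.2.length + 1) ∘ Subtype.val :=
      funext this
    rw [h2, ← List.map_map, List.attach_map_subtype_val]

/-- The negation of the preceding statement: Every finite 3-vertex-connected simple graph has a cycle cover of minimum total length in which each edge lies in at most two of the cycles. -/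
theorem result :
    ¬ (∀ (V : Type) [Fintype V] (G : SimpleGraph V),
      (3 < Fintype.card V ∧
        ∀ S : Finset V, S.card < 3 → (G.induce ((↑S : Set V)ᶜ)).Connected) →
      ∃ F : List (Σ u : V, G.Walk u u),
        ((∀ c ∈ F, c.2.IsCycle) ∧
          ∀ e ∈ G.edgeSet, ∃ c ∈ F, e ∈ c.2.edges) ∧
        (∀ F' : List (Σ u : V, G.Walk u u),
          ((∀ c ∈ F', c.2.IsCycle) ∧
            ∀ e ∈ G.edgeSet, ∃ c ∈ F', e ∈ c.2.edges) →
          (F.map (fun c => c.2.length)).sum ≤ (F'.map (fun c => c.2.length)).sum) ∧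
        ∀ e ∈ G.edgeSet, F.countP (fun c => decide (e ∈ c.2.edges)) ≤ 2) := by
  intro H
  obtain ⟨F, ⟨hc, hcov⟩, hmin, hdep⟩ := H (Fin 60) G ⟨by simp, fun S hS =>
    Cyc.three_conn (by norm_num) G sweeps (fun p hp x y hx hy => by
      rw [sweep_ok p hp x hx] at hy
      exact hy) chk S hS⟩
  obtain ⟨F', hF', hlen⟩ := upper
  have h1 := hmin F' hF'
  rw [hlen] at h1
  let x : Fin 115 → Fin F.length → ℕ := fun e j => if ends e ∈ (F[j.val]).2.edges then 1 else 0
  have hcj : ∀ j : Fin F.length, (F[j.val]).2.IsCycle := fun j => hc _ (List.getElem_mem _)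
  have hce : ∀ (j : Fin F.length) (Q : Sym2 (Fin 60) → Bool), (F[j.val]).2.edges.countP Q =
      ∑ i : Fin 115, if Q (ends i) = true then x i j else 0 := fun j Q =>
    Cyc.countP_edges ends ends_inj _ (hcj j).isTrail.edges_nodup
      (fun e he => ends_sur e ((F[j.val]).2.edges_subset_edgeSet he)) Q
  have hcnt : ∀ e, F.countP (fun c => decide (ends e ∈ c.2.edges)) = ∑ j, x e j := fun e => by
    rw [Cyc.countP_eq_sum]
    simp only [x, decide_eq_true_eq]
  have h2 := lower x (fun e j => by simp only [x]; split_ifs <;> omega)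
    (fun j v => by
      have h3 := ((hcj j).isTrail.even_countP_edges_iff v).2 (fun h => absurd rfl h)
      rw [hce] at h3
      rw [← Cyc.sum_ite_eq_list (fun e => decide (v ∈ ends e) = true) (inc v) (inc_nodup v)
        (fun e => by rw [decide_eq_true_eq, ← inc_iff]; exact Sym2.mem_iff) (fun e => x e j)]
      exact Nat.even_iff.1 h3)
    (fun e => by
      rw [← hcnt]
      refine ⟨?_, ?_⟩
      · obtain ⟨c, hc1, hc2⟩ := hcov (ends e) (adj_ends e)
        exact List.countP_pos_iff.2 ⟨c, hc1, decide_eq_true hc2⟩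
      · convert hdep (ends e) (adj_ends e))
  rw [Finset.sum_comm] at h2
  rw [← Fin.sum_univ_fun_getElem F (fun c => c.2.length)] at h1
  have h4 : ∀ j : Fin F.length, (F[j.val]).2.length = ∑ e, x e j := fun j => by
    have := hce j (fun _ => true)
    simpa using this
  simp only [h4] at h1
  omega

end Pool.Agent.S11060
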