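import Pool.Statements.S11061

set_option autoImplicit false
open Pool Pool.MP_ba45ff_co

namespace Pool.Agent.S11061

section
variable {V : Type} (G : SimpleGraph V)

def R (S : Set V) : V → V → Prop :=
  Relation.ReflTransGen fun x y => x ∈ S ∧ y ∈ S ∧ G.Adj x y

def dom (D : Finset V) (z : V) : Prop := z ∈ D ∨ ∃ u ∈ D, G.Adj z u

def Crit (k : ℕ) (v : V) : Prop := ∃ D : Finset V, D.card < k ∧ ∀ z, z ≠ v → dom G D z

variable {G}

theorem R.refl' (S : Set V) (a : V) : R G S a a := Relation.ReflTransGen.refl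

theorem R.step {S : Set V} {a b c : V} (h : R G S a b) (hb : b ∈ S) (hc : c ∈ S)
    (e : G.Adj b c) : R G S a c := Relation.ReflTransGen.tail h ⟨hb, hc, e⟩

theorem R.trans' {S : Set V} {a b c : V} (h : R G S a b) (h' : R G S b c) : R G S a c :=
  Relation.ReflTransGen.trans h h'

theorem R.symm' {S : Set V} {a b : V} (h : R G S a b) : R G S b a := by
  induction h with
  | refl => exact R.refl' _ _
  | tail _ e ih => exact R.trans' (R.step (R.refl' _ _) e.2.1 e.1 e.2.2.symm) ih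

theorem R.mono' {S U : Set V} {a b : V} (h : R G S a b) (hs : S ⊆ U) : R G U a b := by
  induction h with
  | refl => exact R.refl' _ _
  | tail _ e ih => exact R.step ih (hs e.1) (hs e.2.1) e.2.2

theorem R.mem' {S : Set V} {a b : V} (h : R G S a b) (ha : a ∈ S) : b ∈ S := by
  induction h with
  | refl => exact ha
  | tail _ e _ => exact e.2.1

theorem R.exit {S U : Set V} {a b : V} (h : R G S a b) (ha : a ∈ U) (hb : b ∉ U) :
    ∃ p q, R G (S ∩ U) a p ∧ p ∈ S ∧ p ∈ U ∧ q ∈ S ∧ q ∉ U ∧ G.Adj p q := by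
  have key : ∀ c, R G S a c → R G (S ∩ U) a c ∨
      ∃ p q, R G (S ∩ U) a p ∧ p ∈ S ∧ p ∈ U ∧ q ∈ S ∧ q ∉ U ∧ G.Adj p q := by
    intro c hc
    induction hc with
    | refl => exact Or.inl (R.refl' _ _)
    | @tail x y _ e ih =>
      rcases ih with ih | ih
      · have hx : x ∈ U := (ih.mono' Set.inter_subset_right).mem' ha
        by_cases hy : y ∈ U
        · exact Or.inl (ih.step ⟨e.1, hx⟩ ⟨e.2.1, hy⟩ e.2.2)
        · exact Or.inr ⟨x, y, ih, e.1, hx, e.2.1, hy, e.2.2⟩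
      · exact Or.inr ih
  rcases key b h with h | h
  · exact absurd ((h.mono' Set.inter_subset_right).mem' ha) hb
  · exact h

theorem R.stay {S O : Set V} {o a b : V} (h : R G S a b) (hs : S ⊆ O) (ha : R G O o a) :
    R G (S ∩ {y | R G O o y}) a b := by
  induction h with
  | refl => exact R.refl' _ _
  | @tail x y h' e ih =>
    have hx : R G O o x := ha.trans' (R.mono' h' hs)
    exact ih.step ⟨e.1, hx⟩ ⟨e.2.1, hx.step (hs e.1) (hs e.2.1) e.2.2⟩ e.2.2

theorem pre_iff (S : Set V) :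
    (G.induce S).Preconnected ↔ ∀ a ∈ S, ∀ b ∈ S, R G S a b := by
  constructor
  · intro h a ha b hb
    obtain ⟨w⟩ := h ⟨a, ha⟩ ⟨b, hb⟩
    have : ∀ (x y : S) (_ : (G.induce S).Walk x y), R G S x y := by
      intro x y w
      induction w with
      | nil => exact R.refl' _ _
      | @cons x y z e _ ih => exact R.trans' (R.step (R.refl' _ _) x.2 y.2 e) ih
    exact this _ _ w
  · rintro h ⟨a, ha⟩ ⟨b, hb⟩
    have : ∀ c, R G S a c → ∀ hc : c ∈ S, (G.induce S).Reachable ⟨a, ha⟩ ⟨c, hc⟩ := by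
      intro c hc
      induction hc with
      | refl => intro _; rfl
      | @tail x y _ e ih =>
        intro hy
        exact (ih e.1).trans (SimpleGraph.Adj.reachable (G := G.induce S) (u := ⟨x, e.1⟩)
          (v := ⟨y, hy⟩) e.2.2)
    exact this b (h a ha b hb) hb

theorem conn_R (h : G.Connected) (a b : V) : R G Set.univ a b := by
  obtain ⟨w⟩ := h.preconnected a b
  induction w with
  | nil => exact R.refl' _ _
  | cons e _ ih => exact R.trans' (R.step (R.refl' _ _) trivial trivial e) ih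

theorem dom.mono {D E : Finset V} {z : V} (h : dom G D z) (hs : D ⊆ E) : dom G E z := by
  rcases h with h | ⟨u, hu, e⟩
  · exact Or.inl (hs h)
  · exact Or.inr ⟨u, hs hu, e⟩

theorem undom {k : ℕ} (hk : ∀ D : Finset V, (∀ z, dom G D z) → k ≤ D.card) {D : Finset V} {v : V}
    (h : D.card < k) (hd : ∀ z, z ≠ v → dom G D z) : v ∉ D ∧ ∀ u, G.Adj v u → u ∉ D := by
  have : ¬ dom G D v := fun hv => by
    have := hk D fun z => by
      by_cases e : z = v
      · rw [e]; exact hv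
      · exact hd z e
    omega
  exact ⟨fun h => this (Or.inl h), fun u e hu => this (Or.inr ⟨u, hu, e⟩)⟩

theorem cut1 {k : ℕ} (hk : ∀ D : Finset V, (∀ z, dom G D z) → k ≤ D.card) (c x y : V) (A : Set V)
    (hc : c ∉ A) (hA : ∀ a ∈ A, ∀ b, G.Adj a b → b ∈ A ∨ b = c) (hx : x ∈ A) (hy : y ∉ A)
    (ex : G.Adj c x) (ey : G.Adj c y) (D : Finset V) (hD : D.card < k) (hxD : x ∈ D)
    (hd : ∀ z, z ≠ y → dom G D z) : ¬ Crit G k c := by
  classical
  rintro ⟨M, hM, hm⟩
  have cD : c ∉ D := (undom hk hD hd).2 c ey.symm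
  have cM : c ∉ M := (undom hk hM hm).1
  have inA : ∀ E : Finset V, c ∉ E → ∀ z ∈ A, dom G E z → dom G (E.filter (· ∈ A)) z := by
    rintro E hE z hz (h | ⟨u, hu, e⟩)
    · exact Or.inl (Finset.mem_filter.mpr ⟨h, hz⟩)
    · rcases hA z hz u e with h | rfl
      · exact Or.inr ⟨u, Finset.mem_filter.mpr ⟨hu, h⟩, e⟩
      · exact absurd hu hE
  have outA : ∀ E : Finset V, ∀ z, z ∉ A → z ≠ c → dom G E z →
      dom G (E.filter (¬ · ∈ A)) z := by
    rintro E z hz hzc (h | ⟨u, hu, e⟩)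
    · exact Or.inl (Finset.mem_filter.mpr ⟨h, hz⟩)
    · refine Or.inr ⟨u, Finset.mem_filter.mpr ⟨hu, fun h => ?_⟩, e⟩
      rcases hA u h z e.symm with h | h
      · exact hz h
      · exact hzc h
  have h1 := hk (D.filter (· ∈ A) ∪ M.filter (¬ · ∈ A)) fun z => by
    by_cases hz : z ∈ A
    · exact (inA D cD z hz (hd z fun e => hy (e ▸ hz))).mono Finset.subset_union_left
    · by_cases hzc : z = c
      · exact Or.inr ⟨x, Finset.mem_union_left _ (Finset.mem_filter.mpr ⟨hxD, hx⟩), hzc ▸ ex⟩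
      · exact (outA M z hz hzc (hm z hzc)).mono Finset.subset_union_right
  have h2 := hk (insert c (M.filter (· ∈ A) ∪ D.filter (¬ · ∈ A))) fun z => by
    by_cases hzc : z = c
    · exact Or.inl (by simp [hzc])
    by_cases hz : z ∈ A
    · exact (inA M cM z hz (hm z hzc)).mono
        (Finset.subset_union_left.trans (Finset.subset_insert _ _))
    · by_cases hzy : z = y
      · exact Or.inr ⟨c, by simp, hzy ▸ ey.symm⟩
      · exact (outA D z hz hzc (hd z hzy)).mono
          (Finset.subset_union_right.trans (Finset.subset_insert _ _))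
  have a1 := Finset.card_union_le (D.filter (· ∈ A)) (M.filter (¬ · ∈ A))
  have a2 := Finset.card_union_le (M.filter (· ∈ A)) (D.filter (¬ · ∈ A))
  have a3 := Finset.card_insert_le c (M.filter (· ∈ A) ∪ D.filter (¬ · ∈ A))
  have a4 := Finset.card_filter_add_card_filter_not (s := D) (· ∈ A)
  have a5 := Finset.card_filter_add_card_filter_not (s := M) (· ∈ A)
  omega

def FA (G : SimpleGraph V) (k : ℕ) : Prop :=
  ∀ u v, u ≠ v → ¬ G.Adj u v → ∃ D : Finset V, D.card < k ∧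
    ((u ∈ D ∧ ∀ z, z ≠ v → dom G D z) ∨ (v ∈ D ∧ ∀ z, z ≠ u → dom G D z))

theorem cut2 {k : ℕ} (hk : ∀ D : Finset V, (∀ z, dom G D z) → k ≤ D.card) (fa : FA G k)
    (c x y : V) (A : Set V)
    (hc : c ∉ A) (hA : ∀ a ∈ A, ∀ b, G.Adj a b → b ∈ A ∨ b = c) (hx : x ∈ A) (hy : y ∉ A)
    (ex : G.Adj c x) (ey : G.Adj c y) : ¬ Crit G k c := by
  have hxy : ¬ G.Adj x y := fun e => by
    rcases hA x hx y e with h | h
    · exact hy h
    · exact ey.ne h.symm
  obtain ⟨D, hD, ⟨h1, h2⟩ | ⟨h1, h2⟩⟩ := fa x y (fun e => hy (e ▸ hx)) hxy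
  · exact cut1 hk c x y A hc hA hx hy ex ey D hD h1 h2
  · refine cut1 hk c y x {z | z ∉ A ∧ z ≠ c} (fun h => h.2 rfl) ?_ ⟨hy, ey.ne.symm⟩
      (fun h => h.1 hx) ey ex D hD h1 h2
    intro a ha b e
    by_cases hb : b = c
    · exact Or.inr hb
    · refine Or.inl ⟨fun h => ?_, hb⟩
      rcases hA b h a e.symm with h | h
      · exact ha.1 h
      · exact ha.2 h

theorem clique {k : ℕ} (fa : FA G k) {u v : V} (hu : ¬ Crit G k u) (hv : ¬ Crit G k v)
    (h : u ≠ v) : G.Adj u v := by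
  by_contra e
  obtain ⟨D, hD, ⟨_, h2⟩ | ⟨_, h2⟩⟩ := fa u v h e
  · exact hv ⟨D, hD, h2⟩
  · exact hu ⟨D, hD, h2⟩

theorem cut3 {k : ℕ} (hk : ∀ D : Finset V, (∀ z, dom G D z) → k ≤ D.card) (fa : FA G k)
    (hG : G.Connected) (c : V) (hc : Crit G k c) (a b : V) (ha : a ≠ c) (hb : b ≠ c) :
    R G {c}ᶜ a b := by
  by_contra hn
  obtain ⟨p, q, h1, -, h2, -, h3, h4⟩ := (conn_R hG a c).exit (U := {c}ᶜ) ha (by simp)
  obtain ⟨p', q', h1', -, h2', -, h3', h4'⟩ := (conn_R hG b c).exit (U := {c}ᶜ) hb (by simp)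
  rw [Set.univ_inter] at h1 h1'
  obtain rfl : q = c := by simpa using h3
  obtain rfl : q' = q := by simpa using h3'
  refine cut2 hk fa q' p p' {y | R G {q'}ᶜ a y} (fun h => ?_) ?_ h1
    (fun h => hn (R.trans' h h1'.symm')) h4.symm h4'.symm hc
  · exact R.mem' h ha rfl
  · intro x hx y e
    by_cases hy : y = q'
    · exact Or.inr hy
    · exact Or.inl (R.step hx (R.mem' hx ha) hy e)

theorem small [DecidableEq V] {k : ℕ} (hk : ∀ D : Finset V, (∀ z, dom G D z) → k ≤ D.card)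
    (fa : FA G k) (D0 : Finset V) (h0 : D0.card = k) (hd0 : ∀ z, dom G D0 z) (v w : V)
    (e : G.Adj v w) : ∃ D : Finset V, v ∉ D ∧ D.card ≤ k ∧ ∀ z, z ≠ v → dom G D z := by
  by_cases h : ∃ w, G.Adj v w ∧ Crit G k w
  · obtain ⟨w, e, D, hD, hd⟩ := h
    refine ⟨insert w D, ?_, (Finset.card_insert_le _ _).trans hD, fun z _ => ?_⟩
    · simp only [Finset.mem_insert, not_or]
      exact ⟨e.ne, (undom hk hD hd).2 v e.symm⟩
    · by_cases hz : z = w
      · exact Or.inl (by simp [hz])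
      · exact (hd z hz).mono (Finset.subset_insert _ _)
  · push Not at h
    by_cases hv : v ∈ D0
    · refine ⟨insert w (D0.erase v), by simp [e.ne], ?_, fun z hz => ?_⟩
      · have := Finset.card_insert_le w (D0.erase v)
        have := Finset.card_erase_add_one hv
        omega
      · rcases hd0 z with h' | ⟨u, hu, e'⟩
        · exact Or.inl (by simp [hz, h'])
        · by_cases huv : u = v
          · subst huv
            by_cases hzw : z = w
            · exact Or.inl (by simp [hzw])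
            · exact Or.inr ⟨w, by simp, clique fa (h z e'.symm) (h w e) hzw⟩
          · exact Or.inr ⟨u, by simp [huv, hu], e'⟩
    · exact ⟨D0, hv, h0.le, fun z _ => hd0 z⟩

theorem uniq (B : Set V) (hB : ∀ a ∈ B, ∀ b ∈ B, R G B a b)
    (hB1 : ∀ v ∈ B, ∀ a ∈ B \ {v}, ∀ b ∈ B \ {v}, R G (B \ {v}) a b)
    (hmax : ∀ B' : Set V, B ⊆ B' → (G.induce B').Connected →
      (∀ v ∈ B', (G.induce (B' \ {v})).Preconnected) → B' = B)
    (hcut : ∀ v, v ∉ B → ∀ a b, a ≠ v → b ≠ v → R G {v}ᶜ a b)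
    (o p1 p2 b1 b2 : V) (ho : o ∉ B) (h1 : R G Bᶜ o p1) (h2 : R G Bᶜ o p2) (hb1 : b1 ∈ B)
    (hb2 : b2 ∈ B) (e1 : G.Adj p1 b1) (e2 : G.Adj p2 b2) : b1 = b2 := by
  by_contra hne
  set K : Set V := {y | R G Bᶜ o y} with hK
  have KO : K ⊆ Bᶜ := fun y hy => R.mem' hy ho
  have KK : ∀ a ∈ K, ∀ b ∈ K, R G K a b := fun a ha b hb =>
    (R.stay (R.trans' (R.symm' ha) hb) subset_rfl ha).mono' Set.inter_subset_right
  have : B ∪ K = B := by
    refine hmax _ Set.subset_union_left ?_ ?_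
    · have : Nonempty ↥(B ∪ K) := ⟨⟨b1, Or.inl hb1⟩⟩
      refine ⟨(pre_iff _).mpr ?_⟩
      have key : ∀ y ∈ B ∪ K, R G (B ∪ K) y b1 := by
        rintro y (hy | hy)
        · exact (hB y hy b1 hb1).mono' Set.subset_union_left
        · exact ((KK y hy p1 h1).mono' Set.subset_union_right).step (Or.inr h1) (Or.inl hb1) e1
      exact fun a ha b hb => (key a ha).trans' (key b hb).symm'
    · intro v _
      refine (pre_iff _).mpr ?_
      have hBv : ∀ a ∈ B \ {v}, ∀ b ∈ B \ {v}, R G ((B ∪ K) \ {v}) a b := by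
        intro a ha b hb
        by_cases hv : v ∈ B
        · exact (hB1 v hv a ha b hb).mono' fun z hz => ⟨Or.inl hz.1, hz.2⟩
        · exact (hB a ha.1 b hb.1).mono' fun z hz => ⟨Or.inl hz, fun e => hv (e ▸ hz)⟩
      have key : ∀ y ∈ (B ∪ K) \ {v}, ∃ b ∈ B \ {v}, R G ((B ∪ K) \ {v}) y b := by
        rintro y ⟨hy | hy, hyv⟩
        · exact ⟨y, ⟨hy, hyv⟩, R.refl' _ _⟩
        · by_cases hv : v ∈ B
          · have sub : K ⊆ (B ∪ K) \ {v} := fun z hz => ⟨Or.inr hz, fun e => KO hz (e ▸ hv)⟩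
            by_cases hb : b1 = v
            · have hb' : b2 ≠ v := fun e => hne (hb.trans e.symm)
              exact ⟨b2, ⟨hb2, hb'⟩, ((KK y hy p2 h2).mono' sub).step (sub h2) ⟨Or.inl hb2, hb'⟩ e2⟩
            · exact ⟨b1, ⟨hb1, hb⟩, ((KK y hy p1 h1).mono' sub).step (sub h1) ⟨Or.inl hb1, hb⟩ e1⟩
          · obtain ⟨p, q, a1, a2, a3, a4, a5, a6⟩ :=
              (hcut v hv y b1 hyv fun e => hv (e ▸ hb1)).exit (U := Bᶜ) (KO hy) (fun h => h hb1)
            have a7 := R.stay a1 Set.inter_subset_right hy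
            have hq : q ∈ B := not_not.mp a5
            have hp : p ∈ K := R.trans' hy (a1.mono' Set.inter_subset_right)
            exact ⟨q, ⟨hq, a4⟩, R.step (S := (B ∪ K) \ {v})
              (a7.mono' fun z hz => ⟨Or.inr hz.2, hz.1.1⟩) ⟨Or.inr hp, a2⟩ ⟨Or.inl hq, a4⟩ a6⟩
      intro a ha b hb
      obtain ⟨a', ha', r1⟩ := key a ha
      obtain ⟨b', hb', r2⟩ := key b hb
      exact (r1.trans' (hBv a' ha' b' hb')).trans' r2.symm'
  exact ho (this ▸ Or.inr (R.refl' _ _))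

theorem core [Fintype V] [DecidableEq V] {k : ℕ}
    (hk : ∀ D : Finset V, (∀ z, dom G D z) → k ≤ D.card) (fa : FA G k) (B : Set V)
    (hB : ∀ a ∈ B, ∀ b ∈ B, R G B a b) (hcr : ∀ v, v ∉ B → Crit G k v) (f : V → V)
    (f1 : ∀ b ∈ B, f b = b) (f2 : ∀ o, f o ∈ B) (f3 : ∀ o, o ∉ B → ∀ z, G.Adj o z → f z = f o)
    (f4 : ∀ o, o ∉ B → ∃ x, x ∉ B ∧ f x = f o ∧ G.Adj (f o) x) (o : V) (ho : o ∉ B) (g : ℕ)
    (hg : ∀ F : Finset V, (↑F : Set V) ⊆ B → (∀ z ∈ B, dom G F z) → g ≤ F.card)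
    (hg' : ∀ u ∈ B, ∀ v ∈ B, u ≠ v → ¬ G.Adj u v → ∃ D : Finset V, D.card < g ∧
      ∀ z ∈ B, dom (G ⊔ SimpleGraph.edge u v) D z) :
    ∀ u ∈ B, ∀ v ∈ B, u ≠ v → G.Adj u v := by
  classical
  intro u hu v hv huv
  by_contra hn
  set T : Finset V := Finset.univ.filter fun c => ∃ o, o ∉ B ∧ f o = c with hT
  have memT : ∀ c, c ∈ T ↔ ∃ o, o ∉ B ∧ f o = c := fun c => by simp [hT]
  have TB : ∀ c ∈ T, c ∈ B := fun c hc => by
    obtain ⟨o, _, rfl⟩ := (memT c).mp hc
    exact f2 o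
  have hx : ∀ c, ∃ x, ∃ D : Finset V, c ∈ T → x ∉ B ∧ f x = c ∧ G.Adj c x ∧ D.card < k ∧
      ∀ z, z ≠ x → dom G D z := by
    intro c
    by_cases hc : c ∈ T
    · obtain ⟨o, ho, rfl⟩ := (memT c).mp hc
      obtain ⟨x, h1, h2, h3⟩ := f4 o ho
      obtain ⟨D, h4, h5⟩ := hcr x h1
      exact ⟨x, D, fun _ => ⟨h1, h2, h3, h4, h5⟩⟩
    · exact ⟨c, ∅, fun h => absurd h hc⟩
  choose x DX hx using hx
  have ncr : ∀ c ∈ T, ¬ Crit G k c := by
    intro c hc
    obtain ⟨h1, h2, h3, -⟩ := hx c hc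
    obtain ⟨b, hb, hbc⟩ : ∃ b ∈ B, b ≠ c := by
      by_cases e : u = c
      · exact ⟨v, hv, fun e' => huv (e.trans e'.symm)⟩
      · exact ⟨u, hu, e⟩
    obtain ⟨p, q, -, -, a2, a3, a4, a5⟩ := (hB c (TB c hc) b hb).exit (U := {c}) rfl hbc
    obtain rfl : p = c := a2
    refine cut2 hk fa p (x p) q {z | z ∉ B ∧ f z = p} (fun h => h.1 (TB p hc)) ?_ ⟨h1, h2⟩
      (fun h => h.1 a3) h3 a5
    intro a ha b e
    have := f3 a ha.1 b e
    by_cases hb : b ∈ B
    · exact Or.inr ((f1 b hb).symm.trans (this.trans ha.2))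
    · exact Or.inl ⟨hb, this.trans ha.2⟩
  have fib : ∀ (D : Finset V) (z : V), z ∉ B → dom G D z →
      dom G (D.filter (f · = f z)) z := by
    rintro D z hz (h | ⟨w, hw, e⟩)
    · exact Or.inl (Finset.mem_filter.mpr ⟨h, rfl⟩)
    · exact Or.inr ⟨w, Finset.mem_filter.mpr ⟨hw, f3 z hz w e⟩, e⟩
  let a : V → ℕ := fun c => ((DX c).filter (f · = c)).card + 1
  have low : ∀ c ∈ T, ∀ D : Finset V, (∀ z, z ∉ B → dom G D z) →
      a c ≤ (D.filter (f · = c)).card := by
    intro c hc D hD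
    by_contra hlt
    obtain ⟨h1, h2, h3, h4, h5⟩ := hx c hc
    have cD : c ∉ DX c := (undom hk h4 h5).2 c h3.symm
    refine ncr c hc ⟨(DX c).filter (¬ f · = c) ∪ D.filter (f · = c), ?_, fun z hz => ?_⟩
    · have a1 := Finset.card_union_le ((DX c).filter (¬ f · = c)) (D.filter (f · = c))
      have a2 := Finset.card_filter_add_card_filter_not (s := DX c) (f · = c)
      simp only [a] at hlt
      omega
    · by_cases hf : f z = c
      · have hzB : z ∉ B := fun h => hz ((f1 z h).symm.trans hf)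
        have := fib D z hzB (hD z hzB)
        rw [hf] at this
        exact this.mono Finset.subset_union_right
      · refine dom.mono ?_ Finset.subset_union_left
        rcases h5 z (fun e => hf (e ▸ h2)) with h | ⟨w, hw, e⟩
        · exact Or.inl (Finset.mem_filter.mpr ⟨h, hf⟩)
        · refine Or.inr ⟨w, Finset.mem_filter.mpr ⟨hw, fun h => ?_⟩, e⟩
          by_cases hwB : w ∈ B
          · exact cD (((f1 w hwB).symm.trans h) ▸ hw)
          · exact hf ((f3 w hwB z e.symm).trans h)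
  have factL : ∀ D : Finset V, (∀ z, z ∉ B → dom G D z) →
      (D.filter (¬ f · ∈ T)).card + ∑ c ∈ T, a c ≤ D.card := by
    intro D hD
    have a1 := Finset.card_filter_add_card_filter_not (s := D) (f · ∈ T)
    have a2 : (D.filter (f · ∈ T)).card = ∑ c ∈ T, ((D.filter (f · ∈ T)).filter (f · = c)).card :=
      Finset.card_eq_sum_card_fiberwise fun z hz => (Finset.mem_filter.mp hz).2
    have a3 : ∑ c ∈ T, a c ≤ ∑ c ∈ T, ((D.filter (f · ∈ T)).filter (f · = c)).card := by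
      refine Finset.sum_le_sum fun c hc => (low c hc D hD).trans (Finset.card_le_card ?_)
      intro z hz
      simp only [Finset.mem_filter] at hz ⊢
      exact ⟨⟨hz.1, hz.2 ▸ hc⟩, hz.2⟩
    omega
  let R0 : V → Prop := fun z => z ∈ B ∧ ¬ dom G T z
  have factU : ∀ F : Finset V, (∀ z, R0 z → dom G F z) → k ≤ F.card + ∑ c ∈ T, a c := by
    intro F hF
    have a1 := hk (F ∪ T.biUnion fun c => insert c ((DX c).filter (f · = c))) fun z => by
      by_cases hz : z ∈ B
      · by_cases hd : dom G T z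
        · refine hd.mono fun c hc => Finset.mem_union_right _ ?_
          exact Finset.mem_biUnion.mpr ⟨c, hc, by simp⟩
        · exact (hF z ⟨hz, hd⟩).mono Finset.subset_union_left
      · have hc : f z ∈ T := (memT _).mpr ⟨z, hz, rfl⟩
        obtain ⟨h1, h2, h3, h4, h5⟩ := hx _ hc
        refine dom.mono (D := insert (f z) ((DX (f z)).filter (f · = f z))) ?_
          fun w hw => Finset.mem_union_right _ (Finset.mem_biUnion.mpr ⟨f z, hc, hw⟩)
        by_cases e : z = x (f z)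
        · exact Or.inr ⟨f z, by simp, by rw [← e] at h3; exact h3.symm⟩
        · exact (fib _ z hz (h5 z e)).mono (Finset.subset_insert _ _)
    have a2 := Finset.card_union_le F (T.biUnion fun c => insert c ((DX c).filter (f · = c)))
    have a3 : (T.biUnion fun c => insert c ((DX c).filter (f · = c))).card ≤ ∑ c ∈ T, a c :=
      Finset.card_biUnion_le.trans (Finset.sum_le_sum fun c _ => Finset.card_insert_le _ _)
    omega
  have rest : ∀ (D : Finset V) (z : V), R0 z → dom G D z → dom G (D.filter (¬ f · ∈ T)) z := by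
    rintro D z hz (h | ⟨w, hw, e⟩)
    · exact Or.inl (Finset.mem_filter.mpr ⟨h, fun h' => hz.2 (Or.inl (f1 z hz.1 ▸ h'))⟩)
    · refine Or.inr ⟨w, Finset.mem_filter.mpr ⟨hw, fun h' => hz.2 ?_⟩, e⟩
      by_cases hwB : w ∈ B
      · exact Or.inr ⟨w, f1 w hwB ▸ h', e⟩
      · exact Or.inl ((memT z).mpr ⟨w, hwB, (f3 w hwB z e.symm).symm.trans (f1 z hz.1)⟩)
  have s1 : ∀ y ∈ B, dom G T y → ¬ Crit G k y := by
    rintro y hy hd ⟨D, hD, h⟩
    have a1 := factL D fun z hz => h z fun e => hz (e ▸ hy)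
    have a2 := factU _ fun z hz => rest D z hz (h z fun e => hz.2 (e ▸ hd))
    omega
  have hc : f o ∈ T := (memT _).mpr ⟨o, ho, rfl⟩
  set c := f o with hcdef
  obtain ⟨r0, hr0⟩ : ∃ r, R0 r := by
    by_contra h
    push Not at h
    exact hn (clique fa (s1 u hu (by_contra fun e => h u ⟨hu, e⟩))
      (s1 v hv (by_contra fun e => h v ⟨hv, e⟩)) huv)
  obtain ⟨w, r, -, wB, wd, rB, rd, e⟩ :=
    (hB c (TB c hc) r0 hr0.1).exit (U := {z | dom G T z}) (Or.inl hc) hr0.2
  have wT : w ∉ T := fun h => rd (Or.inr ⟨w, h, e.symm⟩)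
  obtain ⟨h1, h2, h3, -⟩ := hx c hc
  have up : g + ∑ c ∈ T, a c ≤ k := by
    obtain ⟨D, hD, ⟨-, h⟩ | ⟨hw, h⟩⟩ := fa (x c) w (fun e => h1 (e ▸ wB)) fun e' =>
      wT ((f1 w wB).symm.trans ((f3 _ h1 w e').trans h2) ▸ hc)
    · exact absurd ⟨D, hD, h⟩ (s1 w wB wd)
    · have a1 := factL (insert c D) fun z _ => by
        by_cases e' : z = x c
        · exact Or.inr ⟨c, by simp, e' ▸ h3.symm⟩
        · exact (h z e').mono (Finset.subset_insert _ _)
      have a2 := Finset.card_insert_le c D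
      have wF : w ∈ (insert c D).filter (¬ f · ∈ T) :=
        Finset.mem_filter.mpr ⟨by simp [hw], by rw [f1 w wB]; exact wT⟩
      have a3 := hg ((insert c D).filter (¬ f · ∈ T))
        (fun z hz => by_contra fun hzB =>
          (Finset.mem_filter.mp hz).2 ((memT _).mpr ⟨z, hzB, rfl⟩))
        fun z hz => by
          by_cases hd : dom G T z
          · by_cases e' : z = w
            · exact Or.inl (e' ▸ wF)
            · exact Or.inr ⟨w, wF, clique fa (s1 z hz hd) (s1 w wB wd) e'⟩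
          · exact rest _ z ⟨hz, hd⟩
              ((h z fun e' => h1 (e' ▸ hz)).mono (Finset.subset_insert _ _))
      omega
  obtain ⟨D, hD, h⟩ := hg' c (TB c hc) r rB (fun e' => rd (Or.inl (e' ▸ hc)))
    fun e' => rd (Or.inr ⟨c, hc, e'.symm⟩)
  have ed : ∀ z y, R0 z → (G ⊔ SimpleGraph.edge c r).Adj z y → G.Adj z y ∨ (z = r ∧ y = c) := by
    rintro z y hz (h | h)
    · exact Or.inl h
    · rcases ((SimpleGraph.edge_adj _ _ _ _).mp h).1 with h | h
      · exact absurd (Or.inl (h.1 ▸ hc)) hz.2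
      · exact Or.inr h
  by_cases cD : c ∈ D
  · have a1 := factU (insert r (D.erase c)) fun z hz => by
      have zc : z ≠ c := fun e' => hz.2 (Or.inl (e' ▸ hc))
      rcases h z hz.1 with h' | ⟨y, hy, e'⟩
      · exact Or.inl (by simp [zc, h'])
      · rcases ed z y hz e' with e' | e'
        · have : y ≠ c := fun e'' => hz.2 (Or.inr ⟨c, hc, e'' ▸ e'⟩)
          exact Or.inr ⟨y, by simp [this, hy], e'⟩
        · exact Or.inl (by simp [e'.1])
    have a2 := Finset.card_insert_le r (D.erase c)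
    have a3 := Finset.card_erase_add_one cD
    omega
  · have a1 := factU D fun z hz => by
      rcases h z hz.1 with h' | ⟨y, hy, e'⟩
      · exact Or.inl h'
      · rcases ed z y hz e' with e' | e'
        · exact Or.inr ⟨y, hy, e'⟩
        · exact absurd (e'.2 ▸ hy) cD
    omega

end

/-- Let G be a connected edge-critical graph with a cutvertex, and take the block containing all vertices whose deletion keeps the domination number. If that block is edge-critical as a graph in its own right, then it is complete. -/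
theorem result :
    ∀ (V : Type) [Fintype V] [DecidableEq V] (G : SimpleGraph V)
      (γ : SimpleGraph V → Set V → ℕ),
      (∀ (H : SimpleGraph V) (S : Set V),
        γ H S = sInf {n : ℕ | ∃ D : Finset V, (↑D : Set V) ⊆ S ∧ D.card = n ∧
          ∀ v ∈ S, v ∈ D ∨ ∃ u ∈ D, H.Adj v u}) →
      G.Connected →
      (∀ u v : V, u ≠ v → ¬ G.Adj u v →
        γ (G ⊔ SimpleGraph.edge u v) Set.univ = γ G Set.univ - 1) →
      (∃ c : V, ¬ (G.induce ({c}ᶜ : Set V)).Preconnected) →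
      ∀ B : Set V,
        ((G.induce B).Connected ∧
          (∀ v ∈ B, (G.induce (B \ {v})).Preconnected) ∧
          ∀ B' : Set V, B ⊆ B' → (G.induce B').Connected →
            (∀ v ∈ B', (G.induce (B' \ {v})).Preconnected) → B' = B) →
        {v : V | γ G ({v}ᶜ : Set V) = γ G Set.univ} ⊆ B →
        (∀ u ∈ B, ∀ v ∈ B, u ≠ v → ¬ G.Adj u v →
          γ (G ⊔ SimpleGraph.edge u v) B = γ G B - 1) →
        ∀ u ∈ B, ∀ v ∈ B, u ≠ v → G.Adj u v := by
  classical
  intro V _ _ G γ hγ hG hcrit hcut B hblock hnuc hBc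
  obtain ⟨hB0, hB1, hmax⟩ := hblock
  have gle : ∀ (H : SimpleGraph V) (S : Set V) (D : Finset V), (↑D : Set V) ⊆ S →
      (∀ z ∈ S, dom H D z) → γ H S ≤ D.card := fun H S D h1 h2 => by
    rw [hγ]
    exact Nat.sInf_le ⟨D, h1, rfl, h2⟩
  have gex : ∀ (H : SimpleGraph V) (S : Set V), ∃ D : Finset V, (↑D : Set V) ⊆ S ∧
      D.card = γ H S ∧ ∀ z ∈ S, dom H D z := fun H S => by
    rw [hγ]
    exact Nat.sInf_mem (s := {n : ℕ | ∃ D : Finset V, (↑D : Set V) ⊆ S ∧ D.card = n ∧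
          ∀ v ∈ S, v ∈ D ∨ ∃ u ∈ D, H.Adj v u})
      ⟨_, S.toFinset, by simp, rfl, fun v hv => Or.inl (by simpa using hv)⟩
  have gpos : ∀ (S : Set V) (z : V), z ∈ S → 0 < γ G S := fun S z hz => by
    obtain ⟨D, -, h1, h2⟩ := gex G S
    rw [← h1, Finset.card_pos]
    rcases h2 z hz with h | ⟨u, h, -⟩
    · exact ⟨_, h⟩
    · exact ⟨_, h⟩
  have hk : ∀ D : Finset V, (∀ z, dom G D z) → γ G Set.univ ≤ D.card := fun D h =>
    gle G _ D (Set.subset_univ _) fun z _ => h z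
  have fa : FA G (γ G Set.univ) := by
    intro u v huv hn
    obtain ⟨D, -, h1, h2⟩ := gex (G ⊔ SimpleGraph.edge u v) Set.univ
    have h3 := hcrit u v huv hn
    have h4 := gpos Set.univ u trivial
    have hD : D.card < γ G Set.univ := by omega
    have ed : ∀ z, dom G D z ∨ (z = u ∧ v ∈ D) ∨ (z = v ∧ u ∈ D) := fun z => by
      rcases h2 z trivial with h | ⟨y, hy, h | h⟩
      · exact Or.inl (Or.inl h)
      · exact Or.inl (Or.inr ⟨y, hy, h⟩)
      · rcases ((SimpleGraph.edge_adj _ _ _ _).mp h).1 with h | h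
        · exact Or.inr (Or.inl ⟨h.1, h.2 ▸ hy⟩)
        · exact Or.inr (Or.inr ⟨h.1, h.2 ▸ hy⟩)
    refine ⟨D, hD, ?_⟩
    by_cases hu : u ∈ D
    · refine Or.inl ⟨hu, fun z hz => ?_⟩
      rcases ed z with h | h | h
      · exact h
      · exact Or.inl (h.1 ▸ hu)
      · exact absurd h.1 hz
    · by_cases hv : v ∈ D
      · refine Or.inr ⟨hv, fun z hz => ?_⟩
        rcases ed z with h | h | h
        · exact h
        · exact absurd h.1 hz
        · exact absurd h.2 hu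
      · have := hk D fun z => by
          rcases ed z with h | h | h
          · exact h
          · exact absurd h.2 hv
          · exact absurd h.2 hu
        omega
  obtain ⟨⟨b0, hb0⟩⟩ := hB0.nonempty
  have hB := (pre_iff B).mp hB0.preconnected
  have att : ∀ o, o ∉ B → ∃ p q, R G Bᶜ o p ∧ q ∈ B ∧ G.Adj p q := fun o ho => by
    obtain ⟨p, q, h1, -, -, -, h2, h3⟩ := (conn_R hG o b0).exit (U := Bᶜ) ho fun h => h hb0
    exact ⟨p, q, h1.mono' Set.inter_subset_right, not_not.mp h2, h3⟩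
  have hcr : ∀ v, v ∉ B → Crit G (γ G Set.univ) v := by
    intro v hv
    obtain ⟨p, q, -, -, a2, -, -, a5⟩ :=
      (conn_R hG v b0).exit (U := {v}) rfl fun e => hv (e ▸ hb0)
    obtain rfl : p = v := a2
    obtain ⟨D0, -, h1, h2⟩ := gex G Set.univ
    obtain ⟨D, h3, h4, h5⟩ := small hk fa D0 h1 (fun z => h2 z trivial) p q a5
    have h6 := gle G {p}ᶜ D (fun z hz e => h3 (e ▸ hz)) h5
    have h7 : γ G {p}ᶜ ≠ γ G Set.univ := fun e => hv (hnuc e)
    obtain ⟨E, -, h8, h9⟩ := gex G {p}ᶜ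
    exact ⟨E, by omega, h9⟩
  have un := uniq B hB (fun v hv => (pre_iff _).mp (hB1 v hv)) hmax
    fun v hv a b => cut3 hk fa hG v (hcr v hv) a b
  have hf : ∀ o, ∃ c ∈ B, (o ∈ B → c = o) ∧ (o ∉ B → ∃ p, R G Bᶜ o p ∧ G.Adj p c) := fun o => by
    by_cases ho : o ∈ B
    · exact ⟨o, ho, fun _ => rfl, fun h => absurd ho h⟩
    · obtain ⟨p, q, h1, h2, h3⟩ := att o ho
      exact ⟨q, h2, fun h => absurd h ho, fun _ => ⟨p, h1, h3⟩⟩
  choose f f2 f1 f5 using hf
  have f3 : ∀ o, o ∉ B → ∀ z, G.Adj o z → f z = f o := by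
    intro o ho z e
    obtain ⟨p, h1, h2⟩ := f5 o ho
    by_cases hz : z ∈ B
    · rw [f1 z hz]
      exact un o o p z (f o) ho (R.refl' _ _) h1 hz (f2 o) e h2
    · obtain ⟨p', h1', h2'⟩ := f5 z hz
      exact un o p' p _ _ ho (((R.refl' _ _).step ho hz e).trans' h1') h1 (f2 z) (f2 o) h2' h2
  have f4 : ∀ o, o ∉ B → ∃ x, x ∉ B ∧ f x = f o ∧ G.Adj (f o) x := by
    intro o ho
    obtain ⟨p, h1, h2⟩ := f5 o ho
    have hp : p ∉ B := h1.mem' ho
    exact ⟨p, hp, ((f3 p hp _ h2).symm.trans (f1 _ (f2 o))), h2.symm⟩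
  obtain ⟨o, ho⟩ : ∃ o, o ∉ B := by
    by_contra h
    push Not at h
    obtain ⟨c, hc⟩ := hcut
    have : B \ {c} = {c}ᶜ := by
      ext z
      simp [h z]
    exact hc (this ▸ hB1 c (h c))
  refine core hk fa B hB hcr f f1 f2 f3 f4 o ho (γ G B) (fun F h1 h2 => gle G B F h1 h2) ?_
  intro u hu v hv huv hn
  obtain ⟨D, -, h1, h2⟩ := gex (G ⊔ SimpleGraph.edge u v) B
  have := hBc u hu v hv huv hn
  have := gpos B u hu
  exact ⟨D, by omega, h2⟩

end Pool.Agent.S11061
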