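import Pool.Statements.S11077

set_option autoImplicit false
open Pool Pool.MP_bae42e_co

namespace Pool.Agent.S11077

open SimpleGraph List

variable {V W K : Type} {G : SimpleGraph V} {H : SimpleGraph W} {c : V → K} {q : V → W} {e : W → W → V}

def NR (G : SimpleGraph V) (c : V → K) : Prop := ∀ l : List V, l.IsChain G.Adj → l.Nodup → ∀ s ≠ [], l.map c ≠ s ++ s

lemma NR.ne (h : NR G c) {u v : V} (a : G.Adj u v) : c u ≠ c v := fun e =>
  h [u, v] (by simpa) (by simpa using a.ne) [c u] (by simp) (by simp [e])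

lemma lift (h : NR G c) {t : ℕ} (ht : 0 < t) (en ex : ℕ → V) (h1 : ∀ i < t + t, en i = ex i ∨ G.Adj (en i) (ex i))
    (h2 : ∀ i, i + 1 < t + t → G.Adj (ex i) (en (i + 1)))
    (h3 : ∀ j < t + t, ∀ i < j, en i ≠ en j ∧ en i ≠ ex j ∧ ex i ≠ en j ∧ ex i ≠ ex j)
    (h4 : ∀ i < t, c (en i) = c (en (t + i)) ∧ c (ex i) = c (ex (t + i))) : False := by
  classical
  let g := fun i => if c (en i) = c (ex i) then [en i] else [en i, ex i]
  have a : ∀ n, n < t + t → ((range (n + 1)).flatMap g).IsChain G.Adj ∧
      ((range (n + 1)).flatMap g).getLast? = some (ex n) := fun n => by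
    have b : ∀ i < t + t, (g i).IsChain G.Adj ∧ (g i).getLast? = some (ex i) ∧ (g i).head? = some (en i) :=
      fun i hi => by rcases h1 i hi with b | b <;> simp [g, b, h.ne]
    induction n with
    | zero => intro d; simpa using ⟨(b 0 d).1, (b 0 d).2.1⟩
    | succ n ih =>
      intro d
      rw [range_succ, flatMap_append, isChain_append, getLast?_append]
      simp [ih (by omega), b _ d, h2 n d]
  refine h ((range (t + t)).flatMap g) (by
    have := (a (t + t - 1) (by omega)).1; rwa [Nat.sub_add_cancel (by omega)] at this) (nodup_flatMap.2 ⟨fun i _ => ?_,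
    pairwise_lt_range.imp_of_mem fun {i j} _ hj l => ?_⟩) (((range t).flatMap g).map c) ?_ ?_
  · simp only [g]; split_ifs with b <;> simp; grind
  · have := h3 j (mem_range.1 hj) i l
    simp only [Function.onFun, g]; split_ifs <;> simp <;> grind
  · obtain ⟨t, rfl⟩ := Nat.exists_eq_succ_of_ne_zero ht.ne'
    simp only [range_succ_eq_map, flatMap_cons, g]; split_ifs <;> simp
  · rw [range_add, flatMap_append, map_append, flatMap_map, map_flatMap, map_flatMap]
    congr 1
    refine flatMap_congr fun i hi => ?_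
    have := h4 i (mem_range.1 hi)
    simp only [g, ← this.1, ← this.2]; split_ifs <;> simp [this]

def pal (c : V → K) (q : V → W) (x : W) : Set K := c '' {u | q u = x}

def ty (c : V → K) (e : W → W → V) (x y : W) : K × K := (c (e x y), c (e y x))

def be (H : SimpleGraph W) (c : V → K) (q : V → W) (e : W → W → V) (x : W) : Set K × Set (Set K × (K × K) × K × K) :=
  (pal c q x, {r | ∃ y z, pal c q z = pal c q x ∧ H.Adj x y ∧ H.Adj z y ∧ (pal c q y, ty c e x y, ty c e z y) = r})

section
variable (h : NR G c) (hq : ∀ u v, q u = q v → u = v ∨ G.Adj u v)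
  (he : ∀ x y, H.Adj x y → q (e x y) = x ∧ G.Adj (e x y) (e y x))
include h hq he

lemma prop {x y : W} (a : H.Adj x y) : pal c q x ≠ pal c q y := fun b => by
  have a1 := he x y a; have a2 := he y x a.symm; have := a.ne
  obtain ⟨u, u1, u2⟩ : c (e y x) ∈ pal c q x := b ▸ ⟨_, a2.1, rfl⟩
  obtain ⟨v, v1, v2⟩ : c (e x y) ∈ pal c q y := b ▸ ⟨_, a1.1, rfl⟩
  simp only [Set.mem_ofPred_eq] at u1 v1
  refine lift h one_pos ([u, e y x].getD · u) ([e x y, v].getD · u) (fun i _ => hq _ _ ?_) (fun i _ => ?_)
    (fun j _ i _ => ?_) fun i _ => ?_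
  · interval_cases i <;> simp [*]
  · obtain rfl : i = 0 := by omega
    exact a1.2
  · interval_cases j <;> interval_cases i; simp; grind
  · interval_cases i; exact ⟨u2, v2.symm⟩

lemma tyA {x y z : W} (a : H.Adj x y) (b : H.Adj z y) (d : be H c q e x = be H c q e z) :
    ty c e x y = ty c e z y := by
  by_contra n
  obtain ⟨d1, d2⟩ := Prod.ext_iff.1 d
  obtain ⟨y', w, p, r, s, t⟩ : (pal c q y, ty c e x y, ty c e z y) ∈ (be H c q e z).2 :=
    d2 ▸ ⟨y, z, d1.symm, a, b, rfl⟩
  simp only [be, ty, Prod.mk.injEq] at d1 t n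
  have := prop h hq he a; have := prop h hq he b; have := prop h hq he r; have := prop h hq he s
  have a1 := he _ _ a; have a2 := he _ _ a.symm; have b1 := he _ _ b; have b2 := he _ _ b.symm
  have r1 := he _ _ r; have r2 := he _ _ r.symm; have s1 := he _ _ s; have s2 := he _ _ s.symm
  have : x ≠ z := by grind
  have : y ≠ y' := by grind
  have : z ≠ w := by grind
  have m := hq (e z y) (e z y') (b1.1.trans r1.1.symm)
  by_cases g : c (e x y) = c (e z y)
  · have m : e z y = e z y' := m.resolve_right fun m => h.ne m (by grind)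
    refine lift h two_pos ([e x y, e y x, e z y, e y' z].getD · (e x y)) ([e x y, e y z, e z y, e y' w].getD · (e x y))
      (fun i _ => hq _ _ ?_) (fun i _ => ?_) (fun j _ i _ => ?_) fun i _ => ?_
    · interval_cases i <;> simp [*]
    · have : i < 3 := by omega
      interval_cases i
      exacts [a1.2, b2.2, m ▸ r1.2]
    · interval_cases j <;> interval_cases i <;> simp <;> grind
    · interval_cases i
      exacts [⟨g, g⟩, ⟨t.2.1.2.symm, t.2.2.2.symm⟩]
  · refine lift h three_pos ([e x y, e y x, e z y, e z y', e y' z, e w y'].getD · (e x y))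
      ([e x y, e y z, e z y, e z y', e y' w, e w y'].getD · (e x y))
      (fun i _ => hq _ _ ?_) (fun i _ => ?_) (fun j _ i _ => ?_) fun i _ => ?_
    · interval_cases i <;> simp [*]
    · have : i < 5 := by omega
      interval_cases i
      exacts [a1.2, b2.2, m.resolve_left (by grind), r1.2, s2.2]
    · interval_cases j <;> interval_cases i <;> simp <;> grind
    · interval_cases i
      exacts [⟨t.2.1.1.symm, t.2.1.1.symm⟩, ⟨t.2.1.2.symm, t.2.2.2.symm⟩, ⟨t.2.2.1.symm, t.2.2.1.symm⟩]

lemma main {t : ℕ} (ht : 0 < t) (x : ℕ → W) (h1 : ∀ i, i + 1 < t + t → H.Adj (x i) (x (i + 1)))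
    (h2 : ∀ j < t + t, ∀ i < j, x i ≠ x j) (h3 : ∀ i < t, be H c q e (x i) = be H c q e (x (t + i)) ∧
      {r | ∃ z, H.Adj z (x i) ∧ (be H c q e z, ty c e z (x i)) = r} =
      {r | ∃ z, H.Adj z (x (t + i)) ∧ (be H c q e z, ty c e z (x (t + i))) = r}) : False := by
  have a : ∀ i, i + 1 < t → ty c e (x i) (x (i + 1)) = ty c e (x (t + i)) (x (t + i + 1)) := fun i hi => by
    obtain ⟨z, b, d⟩ := (Set.ext_iff.1 (h3 _ hi).2 _).1 ⟨_, h1 i (by omega), rfl⟩
    rw [Prod.mk.injEq] at d
    exact d.2.symm.trans (tyA h hq he b (h1 (t + i) (by omega)) (d.1.trans (h3 i (by omega)).1))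
  obtain ⟨t, rfl⟩ := Nat.exists_eq_add_one_of_ne_zero ht.ne'
  have m := h1 t (by omega)
  obtain ⟨u, u1, u2⟩ : c (e (x (t + 1)) (x t)) ∈ pal c q (x 0) :=
    (congrArg Prod.fst (h3 0 ht).1).ge ⟨_, (he _ _ m.symm).1, rfl⟩
  obtain ⟨v, v1, v2⟩ : c (e (x t) (x (t + 1))) ∈ pal c q (x (t + 1 + t)) :=
    (congrArg Prod.fst (h3 t (by omega)).1).le ⟨_, (he _ _ m).1, rfl⟩
  let en := fun i => if i = 0 then u else e (x i) (x (i - 1))
  let ex := fun i => if i = t + 1 + t then v else e (x i) (x (i + 1))
  have b : ∀ i < t + 1 + (t + 1), q (en i) = x i ∧ q (ex i) = x i := fun i hi => by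
    constructor
    · cases i with
      | zero => exact u1
      | succ i => exact (he _ _ (h1 i hi).symm).1
    · simp only [ex]; split_ifs with d
      exacts [d ▸ v1, (he _ _ (h1 i (by omega))).1]
  refine lift h ht en ex (fun i hi => hq _ _ (by simp [b i hi])) (fun i hi => ?_) (fun j hj i l => ?_) fun i hi => ⟨?_, ?_⟩
  · simpa [en, ex, show i ≠ t + 1 + t by omega] using (he _ _ (h1 i hi)).2
  · have := b i (by omega); have := b j hj; have := h2 j hj i l; grind
  · cases i with
    | zero => simpa [en] using u2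
    | succ i => exact congrArg Prod.snd (a i hi)
  · by_cases d : i = t
    · simp [ex, d, v2]
    · simpa [ex, ty, d, show i ≠ t + 1 + t by omega] using congrArg Prod.fst (a i (by omega))

end

/-- There is f such that for every finite graph G with a nonrepetitive k-colouring and every matching M of G, the graph G/M obtained by contracting the edges of M has a nonrepetitive f(k)-colouring. -/
theorem result :
    ∃ f : ℕ → ℕ, ∀ (V : Type) [Fintype V] (G : SimpleGraph V) (M : G.Subgraph),
      M.IsMatching → ∀ k : ℕ,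
        (∃ c : V → Fin k, ∀ (u v : V) (p : G.Walk u v), p.IsPath →
          Even p.support.length →
          (p.support.map c).take (p.support.length / 2) ≠
            (p.support.map c).drop (p.support.length / 2)) →
        ∃ c : Quot M.Adj → Fin (f k),
          ∀ (a b : Quot M.Adj)
            (p : (SimpleGraph.fromRel (fun x y : Quot M.Adj =>
                ∃ u v : V, Quot.mk M.Adj u = x ∧ Quot.mk M.Adj v = y ∧ G.Adj u v)).Walk a b),
            p.IsPath → Even p.support.length →
            (p.support.map c).take (p.support.length / 2) ≠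
              (p.support.map c).drop (p.support.length / 2) := by
  classical
  let B := fun k => Set (Fin k) × Set (Set (Fin k) × (Fin k × Fin k) × Fin k × Fin k)
  refine ⟨fun k => Nat.card (B k × Set (B k × Fin k × Fin k)), ?_⟩
  rintro V _ G M hM k ⟨c, hc⟩
  have h : NR G c := fun l a b s d e => by
    have n : l ≠ [] := by rintro rfl; simp [d] at e
    have g : l.length = s.length + s.length := by simpa using congrArg length e
    have := hc _ _ (.ofSupport l n a) (by simpa [Walk.isPath_def])
    rw [Walk.support_ofSupport, e, show l.length / 2 = s.length by omega] at this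
    exact this ⟨_, g⟩ (by simp)
  have hq : ∀ u v, Quot.mk M.Adj u = Quot.mk M.Adj v → u = v ∨ G.Adj u v := fun u v e => by
    have : u = v ∨ M.Adj u v := by
      induction Quot.eqvGen_exact e with
      | rel _ _ a => exact .inr a
      | refl => exact .inl rfl
      | symm _ _ a ih => exact (ih (Quot.eqvGen_sound a)).imp .symm .symm
      | trans x y z a b i j =>
        rcases i (Quot.eqvGen_sound a) with rfl | i
        · exact j (Quot.eqvGen_sound b)
        rcases j (Quot.eqvGen_sound b) with rfl | j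
        exacts [.inr i, .inl (hM.eq_of_adj_left i.symm j)]
    exact this.imp id M.adj_sub
  set H := SimpleGraph.fromRel fun x y : Quot M.Adj =>
    ∃ u v : V, Quot.mk M.Adj u = x ∧ Quot.mk M.Adj v = y ∧ G.Adj u v
  have : ∀ x y, ∃ p : V × V, H.Adj x y → Quot.mk _ p.1 = x ∧ Quot.mk _ p.2 = y ∧ G.Adj p.1 p.2 := fun x y => by
    by_cases a : H.Adj x y
    · obtain ⟨-, ⟨u, v, b⟩ | ⟨u, v, b, d, g⟩⟩ := a
      exacts [⟨(u, v), fun _ => b⟩, ⟨(v, u), fun _ => ⟨d, b, g.symm⟩⟩]
    · exact ⟨(x.out, x.out), fun b => absurd b a⟩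
  choose p hp using this
  obtain ⟨_, -⟩ := exists_wellFoundedLT (Quot M.Adj)
  let e := fun x y => if x < y then (p x y).1 else (p y x).2
  have he : ∀ x y, H.Adj x y → Quot.mk _ (e x y) = x ∧ G.Adj (e x y) (e y x) := fun x y a => by
    have b := hp x y a; have d := hp y x a.symm
    rcases a.ne.lt_or_gt with l | l <;> simp [e, l, l.not_gt, b, d, d.2.2.symm]
  let γ : _ → B k × Set (B k × Fin k × Fin k) := fun x => (be H c (Quot.mk _) e x,
    {r | ∃ z, H.Adj z x ∧ (be H c (Quot.mk _) e z, ty c e z x) = r})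
  refine ⟨Finite.equivFin _ ∘ γ, fun a b w hw ⟨t, ht⟩ g => ?_⟩
  rw [ht, show (t + t) / 2 = t by omega] at g
  rw [Walk.length_support] at ht
  refine main h hq he (t := t) (by omega) w.getVert (fun i hi => w.adj_getVert_succ (by omega))
    (fun j hj i l d => l.ne (hw.getVert_injOn (by simp; omega) (by simp; omega) d)) fun i hi => ?_
  have := congrArg (·[i]?) g
  simp only [getElem?_take, getElem?_drop, hi, if_true, getElem?_map,
    ← Walk.getVert_eq_support_getElem? _ (show i ≤ w.length by omega),
    ← Walk.getVert_eq_support_getElem? _ (show t + i ≤ w.length by omega)] at this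
  exact Prod.ext_iff.1 ((Finite.equivFin _).injective (Option.some.inj this) : γ _ = γ _)

end Pool.Agent.S11077
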