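import Pool.Statements.S11108

set_option autoImplicit false
open Pool Pool.MP_bc6ab1_co

namespace Pool.Agent.S11108

/-- The uniform matroid of rank three on six points. -/
noncomputable def U : Matroid (Fin 6) :=
  (IndepMatroid.ofFinite (E := Set.univ) Set.finite_univ (fun I => I.ncard ≤ 3)
    (by simp)
    (fun I J hJ hIJ => le_trans (Set.ncard_le_ncard hIJ (Set.toFinite _)) hJ)
    (fun I J hI hJ hlt => by
      obtain ⟨e, heJ, heI⟩ := Set.exists_mem_notMem_of_ncard_lt_ncard hlt (Set.toFinite _)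
      refine ⟨e, heJ, heI, ?_⟩
      rw [Set.ncard_insert_of_notMem heI (Set.toFinite _)]
      omega)
    (fun I _ => Set.subset_univ _)).matroid

theorem U_indep (I : Set (Fin 6)) : U.Indep I ↔ I.ncard ≤ 3 := by
  simp [U]

theorem U_E : U.E = Set.univ := rfl

instance fact7 : Fact (Nat.Prime 7) := ⟨by norm_num⟩

def det3 (u v w : Fin 3 → ZMod 7) : ZMod 7 :=
  u 0 * v 1 * w 2 - u 0 * v 2 * w 1 - u 1 * v 0 * w 2 + u 1 * v 2 * w 0 + u 2 * v 0 * w 1
    - u 2 * v 1 * w 0

theorem rep (φ : Fin 6 → Fin 3 → ZMod 7)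
    (h : ∀ a b c : Fin 6, a ≠ b → a ≠ c → b ≠ c → det3 (φ a) (φ b) (φ c) ≠ 0) (I : Set (Fin 6)) :
    U.Indep I ↔ LinearIndepOn (ZMod 7) φ I := by
  rw [U_indep]
  constructor
  · intro hI
    obtain ⟨J, hIJ, -, hJ⟩ := Set.exists_subsuperset_card_eq (n := 3) (Set.subset_univ I) hI
      (by simp [Set.ncard_univ])
    obtain ⟨a, b, c, hab, hac, hbc, rfl⟩ := Set.ncard_eq_three.1 hJ
    refine LinearIndepOn.mono ?_ hIJ
    have hinj : Function.Injective ![a, b, c] := by
      intro i j hij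
      fin_cases i <;> fin_cases j <;> simp_all [eq_comm]
    have hr : Set.range ![a, b, c] = {a, b, c} := by
      ext x; simp [or_comm, or_left_comm]
    rw [← hr, linearIndepOn_range_iff hinj]
    have hd : (Matrix.of (φ ∘ ![a, b, c])).det ≠ 0 := by
      rw [Matrix.det_fin_three]
      simpa [det3] using h a b c hab hac hbc
    exact Matrix.linearIndependent_rows_of_det_ne_zero hd
  · intro hI
    classical
    have := LinearIndependent.fintype_card_le_finrank (ι := I) hI
    rw [← Nat.card_coe_set_eq, Nat.card_eq_fintype_card]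
    simpa using this

def p1 : Fin 6 → Fin 3 → ZMod 7 := ![![1,0,0], ![0,1,0], ![0,0,1], ![1,1,1], ![1,2,3], ![1,3,2]]
def p2 : Fin 6 → Fin 3 → ZMod 7 := ![![1,0,0], ![0,1,0], ![0,0,1], ![1,1,1], ![1,2,3], ![1,3,4]]

theorem h1 : ∀ a b c : Fin 6, a ≠ b → a ≠ c → b ≠ c → det3 (p1 a) (p1 b) (p1 c) ≠ 0 := by
  decide +kernel
theorem h2 : ∀ a b c : Fin 6, a ≠ b → a ≠ c → b ≠ c → det3 (p2 a) (p2 b) (p2 c) ≠ 0 := by
  decide +kernel
theorem h3 : ∀ a b : Fin 6, a ≠ b → det3 (p1 a) (p1 b) ![1,5,6] ≠ 0 := by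
  decide +kernel
theorem h4 : ∀ x y z : ZMod 7, ∃ a b : Fin 6, a ≠ b ∧ det3 (p2 a) (p2 b) ![x,y,z] = 0 := by
  decide +kernel

theorem expand (L : (Fin 3 → ZMod 7) [⋀^Fin 2]→ₗ[ZMod 7] ZMod 7) :
    ∃ x y z : ZMod 7, ∀ u v : Fin 3 → ZMod 7, L ![u, v] = det3 u v ![x, y, z] := by
  let e0 : Fin 3 → ZMod 7 := ![1, 0, 0]
  let e1 : Fin 3 → ZMod 7 := ![0, 1, 0]
  let e2 : Fin 3 → ZMod 7 := ![0, 0, 1]
  have hadd1 : ∀ a b v, L ![a + b, v] = L ![a, v] + L ![b, v] := fun a b v =>
    L.map_vecCons_add ![v] a b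
  have hsm1 : ∀ (c : ZMod 7) a v, L ![c • a, v] = c * L ![a, v] := fun c a v =>
    L.map_vecCons_smul ![v] c a
  have hsw : ∀ a b, L ![a, b] = - L ![b, a] := fun a b => by
    have := L.map_swap ![b, a] (i := 0) (j := 1) (by decide)
    rw [← this]
    congr 1
    ext i : 1
    fin_cases i <;> simp
  have hz : ∀ a, L ![a, a] = 0 := fun a =>
    L.map_eq_zero_of_eq ![a, a] (i := 0) (j := 1) rfl (by decide)
  have hdec : ∀ u : Fin 3 → ZMod 7, u = u 0 • e0 + u 1 • e1 + u 2 • e2 := fun u => by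
    ext i
    fin_cases i <;> simp [e0, e1, e2]
  have hex : ∀ u v, L ![u, v] = u 0 * L ![e0, v] + u 1 * L ![e1, v] + u 2 * L ![e2, v] :=
    fun u v => by
      conv_lhs => rw [hdec u]
      rw [hadd1, hadd1, hsm1, hsm1, hsm1]
  refine ⟨L ![e1, e2], L ![e2, e0], L ![e0, e1], fun u v => ?_⟩
  rw [hex u v, hsw e0 v, hsw e1 v, hsw e2 v, hex v e0, hex v e1, hex v e2, hz, hz, hz,
    hsw e1 e0, hsw e2 e1, hsw e0 e2]
  simp [det3]
  ring

theorem curry_det (u v w : Fin 3 → ZMod 7) :
    (Matrix.detRowAlternating (n := Fin 3) (R := ZMod 7)).curryLeft w ![u, v] = det3 u v w := by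
  rw [AlternatingMap.curryLeft_apply_apply]
  have : Matrix.detRowAlternating (n := Fin 3) (R := ZMod 7) (Matrix.vecCons w ![u, v])
      = Matrix.det (Matrix.of ![w, u, v]) := rfl
  rw [this, Matrix.det_fin_three]
  simp [det3]
  ring

theorem inj2 {a b : Fin 6} (hab : a ≠ b) : Function.Injective ![a, b] := by
  intro i j hij
  fin_cases i <;> fin_cases j
  · rfl
  · exact absurd hij hab
  · exact absurd hij hab.symm
  · rfl

/-- The negation of the preceding statement: For any loopless matroid with two linear representations over the same finite field and any k ≥ 2, for every c, c alternating k-forms separating all rank-k flats exist for one representation iff they exist for the other. -/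
theorem result :
    ¬ (∀ (F : Type) [Field F] [Fintype F] (n : ℕ) (M : Matroid (Fin n)),
      M.E = Set.univ → M.Loopless →
      ∀ (k : ℕ), 2 ≤ k →
      ∀ (d₁ d₂ : ℕ) (φ₁ : Fin n → (Fin d₁ → F)) (φ₂ : Fin n → (Fin d₂ → F)),
        (∀ I : Set (Fin n), M.Indep I ↔ LinearIndepOn F φ₁ I) →
        (∀ I : Set (Fin n), M.Indep I ↔ LinearIndepOn F φ₂ I) →
        ∀ c : ℕ,
          (∃ L : Fin c → ((Fin d₁ → F) [⋀^Fin k]→ₗ[F] F),
              ∀ X : Set (Fin n), M.IsFlat X → M.eRk X = (k : ℕ∞) →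
                ∃ i : Fin c, ∃ e : Fin k → Fin n,
                  Function.Injective e ∧ M.IsBasis (Set.range e) X ∧ L i (φ₁ ∘ e) ≠ 0) ↔
          (∃ L : Fin c → ((Fin d₂ → F) [⋀^Fin k]→ₗ[F] F),
              ∀ X : Set (Fin n), M.IsFlat X → M.eRk X = (k : ℕ∞) →
                ∃ i : Fin c, ∃ e : Fin k → Fin n,
                  Function.Injective e ∧ M.IsBasis (Set.range e) X ∧ L i (φ₂ ∘ e) ≠ 0)) := by
  intro H
  have hl : U.Loopless := by
    rw [Matroid.loopless_iff_forall_isNonloop]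
    intro e _
    rw [← Matroid.indep_singleton, U_indep]
    simp
  have key := (H (ZMod 7) 6 U U_E hl 2 le_rfl 3 3 p1 p2 (rep p1 h1) (rep p2 h2) 1).1 ?_
  · obtain ⟨L, hL⟩ := key
    obtain ⟨x, y, z, hxyz⟩ := expand (L 0)
    obtain ⟨a, b, hab, h0⟩ := h4 x y z
    have hind : U.Indep {a, b} := by
      rw [U_indep, Set.ncard_pair hab]; omega
    have hflat : U.IsFlat {a, b} := by
      refine ⟨fun I X hI hX => ?_, Set.subset_univ _⟩
      have hIe : I = {a, b} := hI.eq_of_subset_indep hind hI.subset subset_rfl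
      subst hIe
      intro t ht
      by_contra hne
      have : U.Indep (insert t {a, b}) := by
        rw [U_indep, Set.ncard_insert_of_notMem hne (Set.toFinite _), Set.ncard_pair hab]
      exact hne (hX.mem_of_insert_indep ht this)
    obtain ⟨i, e, he, hb, hne⟩ := hL {a, b} hflat (by
      rw [hind.eRk_eq_encard, Set.encard_pair hab]; rfl)
    have hi : i = 0 := Subsingleton.elim _ _
    subst hi
    have h00 : e 0 ∈ ({a, b} : Set (Fin 6)) := hb.subset ⟨0, rfl⟩
    have h01 : e 1 ∈ ({a, b} : Set (Fin 6)) := hb.subset ⟨1, rfl⟩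
    have hne01 : e 0 ≠ e 1 := fun h => absurd (he h) (by decide)
    have hc : p2 ∘ e = ![p2 (e 0), p2 (e 1)] := by
      ext i : 1
      fin_cases i <;> simp
    apply hne
    rw [hc, hxyz]
    rcases h00 with h00 | h00 <;> rcases h01 with h01 | h01
    · exact absurd (h00.trans h01.symm) hne01
    · rw [h00, h01]; exact h0
    · rw [h00, h01]
      have : det3 (p2 b) (p2 a) ![x, y, z] = - det3 (p2 a) (p2 b) ![x, y, z] := by
        simp only [det3]; ring
      rw [this, h0, neg_zero]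
    · exact absurd (h00.trans h01.symm) hne01
  · refine ⟨fun _ => (Matrix.detRowAlternating (n := Fin 3) (R := ZMod 7)).curryLeft ![1, 5, 6],
      fun X hX hr => ?_⟩
    obtain ⟨I, hI⟩ := U.exists_isBasis X (Set.subset_univ _)
    have h2' : I.encard = 2 := by rw [hI.encard_eq_eRk, hr]; rfl
    obtain ⟨a, b, hab, rfl⟩ := Set.encard_eq_two.1 h2'
    refine ⟨0, ![a, b], inj2 hab, ?_, ?_⟩
    · have hr : Set.range ![a, b] = {a, b} := by
        ext x; simp [or_comm]
      rw [hr]; exact hI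
    · have h := h3 a b hab
      intro h0
      apply h
      have hc : p1 ∘ ![a, b] = ![p1 a, p1 b] := by
        ext i : 1
        fin_cases i <;> rfl
      rw [hc, curry_det] at h0
      exact h0

end Pool.Agent.S11108
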