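import Pool.Statements.S11139

set_option autoImplicit false
open Pool Pool.MP_bdfe62_co

namespace Pool.Agent.S11139

open SimpleGraph Finset Relation

variable {V W : Type}

def Nr (G : SimpleGraph V) (r : ℕ) (u v : V) : Prop := ∃ p : G.Walk u v, p.length ≤ r

lemma nr_iff {G : SimpleGraph V} {r : ℕ} {u v : V} : G.edist u v ≤ r ↔ Nr G r u v :=
  ⟨fun h => let ⟨p, e⟩ := exists_walk_of_edist_ne_top (h.trans_lt (ENat.natCast_lt_top r)).ne
    ⟨p, by exact_mod_cast e.trans_le h⟩, fun ⟨p, h⟩ => p.edist_le.trans (by exact_mod_cast h)⟩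

lemma Nr.trans {G : SimpleGraph V} {r s : ℕ} {u v w : V} : Nr G r u v → Nr G s v w → Nr G (r + s) u w :=
  fun ⟨p, a⟩ ⟨q, b⟩ => ⟨p.append q, by simp; omega⟩

lemma Nr.symm {G : SimpleGraph V} {r : ℕ} {u v : V} : Nr G r u v → Nr G r v u :=
  fun ⟨p, a⟩ => ⟨p.reverse, by simpa⟩

lemma Nr.mono {G : SimpleGraph V} {r s : ℕ} {u v : V} : Nr G r u v → r ≤ s → Nr G s u v :=
  fun ⟨p, a⟩ b => ⟨p, a.trans b⟩

lemma Nr.refl (G : SimpleGraph V) (r : ℕ) (u : V) : Nr G r u u := ⟨.nil, by simp⟩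

lemma nr_adj {G : SimpleGraph V} {u v : V} (h : G.Adj u v) : Nr G 1 u v := ⟨h.toWalk, le_rfl⟩

lemma Nr.map {G : SimpleGraph V} {H : SimpleGraph W} (φ : V → W) {L : ℕ}
    (h : ∀ a b, G.Adj a b → Nr H L (φ a) (φ b)) {r : ℕ} {u v : V} (a : Nr G r u v) : Nr H (r * L) (φ u) (φ v) := by
  obtain ⟨p, a⟩ := a
  refine Nr.mono (r := p.length * L) ?_ (by gcongr)
  clear a
  induction p with
  | nil => exact .refl _ _ _
  | cons a p ih => exact ((h _ _ a).trans ih).mono (by simp [add_mul, add_comm])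

def Ch {d : ℕ} (G : SimpleGraph V) (r : ℕ) (c : V → Fin (d + 1)) : V → V → Prop :=
  ReflTransGen fun a b => c a = c b ∧ Nr G r a b

def Good (d : ℕ) (f : ℕ → ℕ) (G : SimpleGraph V) : Prop :=
  ∀ K ≤ G, ∀ r, ∃ c : V → Fin (d + 1), ∀ u v, Ch K r c u v → Nr K (f r) u v

def Rad (G : SimpleGraph V) (r : ℕ) (B : Set V) (z : V) : Prop :=
  z ∈ B ∧ ∀ x ∈ B, ∃ p : G.Walk z x, p.length ≤ r ∧ ∀ y ∈ p.support, y ∈ B

lemma minor {d r : ℕ} {f : ℕ → ℕ} {G : SimpleGraph V} (h : Good d f G) {H : SimpleGraph W} (B : W → Set V)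
    (z : W → V) (h1 : ∀ i j, i ≠ j → Disjoint (B i) (B j)) (h2 : ∀ i, Rad G r (B i) (z i))
    (h3 : ∀ i j, H.Adj i j → ∃ x ∈ B i, ∃ y ∈ B j, G.Adj x y) : Good d (fun s => f (s * (2 * r + 1))) H := by
  classical
  intro K hK s
  let G' : SimpleGraph V := ⟨fun x y => G.Adj x y ∧ ∃ i j, x ∈ B i ∧ y ∈ B j ∧ (i = j ∨ K.Adj i j),
    ⟨fun _ _ ⟨a, i, j, b, c, e⟩ => ⟨a.symm, j, i, c, b, e.imp .symm .symm⟩⟩, ⟨fun _ a => a.1.ne rfl⟩⟩
  obtain ⟨c, hc⟩ := h G' (fun _ _ a => a.1) (s * (2 * r + 1))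
  have a : ∀ i, ∀ x ∈ B i, Nr G' r (z i) x := fun i x hx => by
    obtain ⟨p, b, e⟩ := (h2 i).2 x hx
    refine Nr.mono (r := p.length) ?_ b
    clear b hx
    generalize z i = w at p e
    induction p with
    | nil => exact .refl _ _ _
    | cons a p ih =>
      exact ((nr_adj (G := G') ⟨a, i, i, e _ (by simp), e _ (by simp), .inl rfl⟩).trans
        (ih fun y hy => e y (by simp [hy]))).mono (by simp [add_comm])
  refine ⟨c ∘ z, fun u v e => ?_⟩
  let π := fun x => if g : ∃ i, x ∈ B i then g.choose else u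
  have b : ∀ i, ∀ x ∈ B i, π x = i := fun i x hx => by
    have g : ∃ i, x ∈ B i := ⟨i, hx⟩
    simp only [π, dif_pos g]
    exact by_contra fun n => Set.disjoint_left.1 (h1 _ _ n) g.choose_spec hx
  have := (hc _ _ (ReflTransGen.lift z (fun i j e => ⟨e.1, e.2.map z fun i j e => ?_⟩) _ _ e)).map (H := K) (L := 1) π ?_
  · obtain ⟨x, p, y, q, g⟩ := h3 i j (hK e)
    exact (((a i x p).trans (nr_adj ⟨g, i, j, p, q, .inr e⟩)).trans (a j y q).symm).mono (by omega)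
  · rintro x y ⟨-, i, j, p, q, rfl | e⟩ <;> rw [b _ _ p, b _ _ q]
    exacts [.refl _ _ _, nr_adj e]
  · simpa only [b _ _ (h2 _).1, mul_one] using this

lemma top (d N : ℕ) : ∃ (W : Type) (_ : Fintype W), ∀ f : ℕ → ℕ, f 1 = N → ¬ Good d f (⊤ : SimpleGraph W) := by
  classical
  obtain ⟨ι, _, h⟩ := Combinatorics.Line.exists_mono_in_high_dimension (Fin (N + 2)) (Fin (d + 1))
  refine ⟨ι → Fin (N + 2), inferInstance, fun f e g => ?_⟩
  let K : SimpleGraph (ι → Fin (N + 2)) := ⟨fun x y => x ≠ y ∧ ∀ i, (x i).1 ≤ y i + 1 ∧ (y i).1 ≤ x i + 1,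
    ⟨fun _ _ a => ⟨a.1.symm, fun i => (a.2 i).symm⟩⟩, ⟨fun _ a => a.1 rfl⟩⟩
  obtain ⟨c, hc⟩ := g K le_top 1
  obtain ⟨l, k, hl⟩ := h c
  obtain ⟨i, hi⟩ := l.proper
  have a : ∀ j, Ch K 1 c (l 0) (l j) := fun j => by
    induction j using Fin.induction with
    | zero => exact .refl
    | succ j ih =>
      refine ih.tail ⟨by rw [hl, hl], nr_adj ⟨fun e => ?_, fun i => ?_⟩⟩
      · simpa [hi, Fin.ext_iff] using congrFun e i
      · cases e : l.idxFun i <;> simp [e]; omega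
  have b : ∀ {x y} (p : K.Walk x y), (y i).1 ≤ x i + p.length := fun p => by
    induction p with
    | nil => simp
    | cons a p ih => have := (a.2 i).2; simp; omega
  obtain ⟨p, hp⟩ := hc _ _ (a (Fin.last _))
  have := b p
  simp [hi] at this; omega

def Dense (D : ℕ) (K : SimpleGraph V) : Prop := D * K.support.ncard < K.edgeSet.ncard

open Classical in
lemma pig [Fintype V] {I : Type} (s : Finset I) (F : I → SimpleGraph V) {K : SimpleGraph V} {q D : ℕ}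
    (h1 : ∀ a b, K.Adj a b → ∃ i ∈ s, (F i).Adj a b) (h2 : ∀ i, F i ≤ K)
    (h3 : ∀ v, (s.filter fun i => v ∈ (F i).support).card ≤ q) (h : Dense (q * D) K) : ∃ i ∈ s, Dense D (F i) := by
  by_contra! c
  simp only [Dense, not_lt, Set.ncard_eq_toFinset_card'] at h c
  refine h.not_ge ((card_le_card (t := s.biUnion fun i => (F i).edgeSet.toFinset) fun e => ?_).trans
    (card_biUnion_le.trans ((sum_le_sum c).trans ?_)))
  · induction e using Sym2.ind with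
    | _ a b => simpa using h1 a b
  · rw [← mul_sum, mul_comm q, mul_assoc]
    gcongr
    calc _ = ∑ i ∈ s, ∑ v ∈ K.support.toFinset, if v ∈ (F i).support then 1 else 0 := sum_congr rfl fun i _ => by
          rw [← card_filter]; congr 1; ext v; simpa using fun h => support_mono (h2 i) h
      _ ≤ _ := by
          rw [sum_comm, mul_comm]
          exact sum_le_card_nsmul _ _ _ fun v _ => by rw [← card_filter]; exact h3 v

lemma step [Fintype V] {d D : ℕ} {f : ℕ → ℕ} {G K : SimpleGraph V} (h : Good d f G) (hK : K ≤ G) (hD : 2 ≤ D)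
    (a : Dense ((d + 1) * ((f 2 + 1) * D)) K) : ∃ K' ≤ K, Dense D K' ∧ ∃ B z, Rad G (f 2 + 1) B z ∧
      B ⊆ K.support ∧ (∃ x ∈ B, ∃ y ∈ B, K.Adj x y) ∧ Disjoint B K'.support ∧
      ∀ x y, K'.Adj x y → ∃ u ∈ B, G.Adj u x ∨ G.Adj u y := by
  classical
  obtain ⟨c, hc⟩ := h K hK 2
  have sy : ∀ {u v}, Ch K 2 c u v → Ch K 2 c v u := fun e => by
    induction e with
    | refl => exact .refl
    | tail _ e ih => exact .head ⟨e.1.symm, e.2.symm⟩ ih
  let F : Set V → SimpleGraph V := fun U => ⟨fun x y => K.Adj x y ∧ (x ∈ U ∨ y ∈ U),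
    ⟨fun _ _ a => ⟨a.1.symm, a.2.symm⟩⟩, ⟨fun _ a => a.1.ne rfl⟩⟩
  obtain ⟨U, hU, b⟩ := pig (univ.image fun u => {v | Ch K 2 c u v}) F
    (fun x y e => ⟨_, mem_image_of_mem _ (mem_univ x), e, .inl .refl⟩) (fun _ _ _ e => e.1) (fun v => by
      have : ∀ U : Set V, ∃ w, v ∈ (F U).support → w ∈ U ∧ Nr K 1 v w := fun U => by
        by_cases g : v ∈ (F U).support
        · obtain ⟨y, e, g | g⟩ := g
          exacts [⟨v, fun _ => ⟨g, .refl _ _ _⟩⟩, ⟨y, fun _ => ⟨g, nr_adj e⟩⟩]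
        · exact ⟨v, fun e => absurd e g⟩
      choose w hw using this
      refine (card_le_card_of_injOn (t := univ) (c ∘ w) (by simp) fun U p U' q e => ?_).trans (by simp)
      simp only [coe_filter, mem_image, mem_univ, true_and, Set.mem_ofPred_eq] at p q
      obtain ⟨⟨u, rfl⟩, p⟩ := p; obtain ⟨⟨u', rfl⟩, q⟩ := q
      have g : Ch K 2 c u u' := ((hw _ p).1.tail ⟨e, (hw _ p).2.symm.trans (hw _ q).2⟩).trans (sy (hw _ q).1)
      exact Set.ext fun x => ⟨(sy g).trans, g.trans⟩) a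
  obtain ⟨u, -, rfl⟩ := mem_image.1 hU
  obtain ⟨z, z', e, g⟩ : ∃ z z', K.Adj z z' ∧ Ch K 2 c u z := by
    obtain ⟨e, he⟩ := Set.nonempty_of_ncard_ne_zero (Nat.ne_zero_of_lt b)
    induction e using Sym2.ind with
    | _ x y => obtain ⟨e, g | g⟩ := he; exacts [⟨x, y, e, g⟩, ⟨y, x, e.symm, g⟩]
  let L := fun t x => Nr K t z x ∨ Nr K t z' x
  let F' : ℕ → SimpleGraph V := fun t => ⟨fun x y => K.Adj x y ∧ (∀ s < t, ¬ L s x ∧ ¬ L s y) ∧ (L t x ∨ L t y),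
    ⟨fun _ _ a => ⟨a.1.symm, fun s p => (a.2.1 s p).symm, a.2.2.symm⟩⟩, ⟨fun _ a => a.1.ne rfl⟩⟩
  obtain ⟨t, ht, b⟩ := pig (range (f 2 + 1)) (fun t => F' t ⊓ F _) (fun x y p => by
    have q : L (f 2) x ∨ L (f 2) y := p.2.imp (fun q => .inl (hc _ _ ((sy g).trans q)))
      fun q => .inl (hc _ _ ((sy g).trans q))
    exact ⟨Nat.find ⟨_, q⟩, by simpa [Nat.lt_succ_iff] using ⟨_, le_rfl, q⟩,
      ⟨p.1, fun s hs => not_or.1 (Nat.find_min _ hs), Nat.find_spec (p := fun t => L t x ∨ L t y) _⟩, p⟩)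
    (fun _ => inf_le_right) (fun v => (card_le_card (t := range (f 2 + 1)) fun _ h => by
      simp only [mem_filter] at h; exact h.1).trans (by simp)) b
  set K' := F' t ⊓ F {v | Ch K 2 c u v}
  cases t with
  | zero =>
    refine absurd b (not_lt.2 ((Set.ncard_le_ncard (t := (fun p : V × V => s(p.1, p.2)) ''
      (({z, z'} : Set V) ×ˢ K'.support)) fun e => ?_).trans ((Set.ncard_image_le (s := _ ×ˢ _)).trans ?_)))
    · have : ∀ x, L 0 x → x ∈ ({z, z'} : Set V) := by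
        rintro x (⟨p, q⟩ | ⟨p, q⟩) <;> simp [p.eq_of_length_eq_zero (by omega)]
      induction e using Sym2.ind with
      | _ x y =>
        intro p
        rcases p.1.2.2 with q | q
        exacts [⟨(x, y), ⟨this x q, x, K'.adj_symm p⟩, rfl⟩, ⟨(y, x), ⟨this y q, y, p⟩, Sym2.eq_swap⟩]
    · rw [Set.ncard_prod]
      gcongr
      exact (Set.ncard_insert_le _ _).trans (by simpa)
  | succ t =>
    have in1 : ∀ {w x} (p : K.Walk w x), p.length ≤ t → ∀ y ∈ p.support, Nr K t w y := fun p q y hy =>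
      ⟨p.takeUntil y hy, (p.length_takeUntil_le_length hy).trans q⟩
    have la : ∀ w x, Nr K (t + 1) w x → ¬ Nr K t w x → ∃ u, Nr K t w u ∧ G.Adj u x := fun w x p q => by
      obtain ⟨_ | ⟨r, p⟩, s⟩ := p.symm
      · exact absurd (.refl _ _ _) q
      · exact ⟨_, Nr.symm ⟨p, by simpa using s⟩, hK r.symm⟩
    have lb : ∀ x, L (t + 1) x → ¬ L t x → ∃ u, L t u ∧ G.Adj u x := fun x p q =>
      p.elim (fun p => (la _ _ p fun r => q (.inl r)).imp fun _ r => ⟨.inl r.1, r.2⟩)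
        fun p => (la _ _ p fun r => q (.inr r)).imp fun _ r => ⟨.inr r.1, r.2⟩
    have := mem_range.1 ht
    refine ⟨K', fun _ _ p => p.1.1, b, {x | L t x}, z, ⟨.inl (.refl _ _ _), ?_⟩, ?_,
      ⟨z, .inl (.refl _ _ _), z', .inr (.refl _ _ _), e⟩,
      Set.disjoint_left.2 fun x p ⟨y, q⟩ => (q.1.2.1 t (by omega)).1 p, fun x y p => ?_⟩
    · rintro x (⟨p, q⟩ | ⟨p, q⟩)
      · exact ⟨p.mapLe hK, by simp; omega, fun y hy => .inl (in1 p q y (by simpa using hy))⟩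
      · refine ⟨(Walk.cons e p).mapLe hK, by simp; omega, fun y hy => ?_⟩
        rcases (by simpa using hy : y = z ∨ y ∈ p.support) with rfl | hy
        exacts [.inl (.refl _ _ _), .inr (in1 p q y hy)]
    · rintro x (p | p) <;> obtain ⟨_ | ⟨r, -⟩, -⟩ := p.symm
      exacts [⟨_, e⟩, ⟨_, r⟩, ⟨_, e.symm⟩, ⟨_, r⟩]
    · have q := p.1.2.1 t (by omega)
      exact p.1.2.2.elim (fun r => (lb x r q.1).imp fun _ s => ⟨s.1, .inl s.2⟩)
        fun r => (lb y r q.2).imp fun _ s => ⟨s.1, .inr s.2⟩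

lemma clique [Fintype V] {d : ℕ} {f : ℕ → ℕ} {G : SimpleGraph V} (h : Good d f G) (m : ℕ) :
    ∀ K ≤ G, Dense (((d + 1) * (f 2 + 1)) ^ m * 2) K → ∃ (B : Fin m → Set V) (z : Fin m → V),
      (∀ i, Rad G (f 2 + 1) (B i) (z i) ∧ B i ⊆ K.support ∧ ∃ x ∈ B i, ∃ y ∈ B i, K.Adj x y) ∧
      ∀ i j, i ≠ j → Disjoint (B i) (B j) ∧ ∃ x ∈ B i, ∃ y ∈ B j, G.Adj x y := by
  induction m with
  | zero => exact fun _ _ _ => ⟨Fin.elim0, Fin.elim0, by simp, by simp⟩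
  | succ m ih =>
    intro K hK a
    obtain ⟨K', b, c, B0, z0, d1, d2, d3, d4, d5⟩ := step (D := ((d + 1) * (f 2 + 1)) ^ m * 2) h hK
      (Nat.le_mul_of_pos_left _ (by positivity)) (by convert a using 1; ring)
    obtain ⟨B, z, e1, e2⟩ := ih K' (b.trans hK) c
    have g : ∀ i, Disjoint B0 (B i) ∧ ∃ x ∈ B0, ∃ y ∈ B i, G.Adj x y := fun i => ⟨d4.mono_right (e1 i).2.1, by
      obtain ⟨x, p, y, q, r⟩ := (e1 i).2.2
      obtain ⟨u, s, t | t⟩ := d5 x y r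
      exacts [⟨u, s, x, p, t⟩, ⟨u, s, y, q, t⟩]⟩
    refine ⟨Fin.cons B0 B, Fin.cons z0 z, Fin.cases ⟨d1, d2, d3⟩ fun i => ⟨(e1 i).1,
      (e1 i).2.1.trans (support_mono b), let ⟨x, p, y, q, r⟩ := (e1 i).2.2; ⟨x, p, y, q, b r⟩⟩, fun i j => ?_⟩
    refine Fin.cases ?_ (fun i => ?_) i <;> refine Fin.cases ?_ (fun j => ?_) j
    exacts [by simp, fun _ => g j, fun _ => ⟨(g i).1.symm, let ⟨x, p, y, q, r⟩ := (g i).2; ⟨y, q, x, p, r.symm⟩⟩,
      fun n => e2 i j fun e => n (by rw [e])]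

lemma sparse (d : ℕ) (f : ℕ → ℕ) : ∃ D, ∀ (V : Type) [Fintype V] (G : SimpleGraph V), Good d f G → ¬ Dense D G := by
  obtain ⟨W, _, h⟩ := top d (f (1 * (2 * (f 2 + 1) + 1)))
  refine ⟨((d + 1) * (f 2 + 1)) ^ Fintype.card W * 2, fun V _ G a b => ?_⟩
  · obtain ⟨B, z, c, e⟩ := clique a (Fintype.card W) G le_rfl b
    have q := Fintype.equivFin W
    exact h _ rfl (minor a (B ∘ q) (z ∘ q) (fun i j n => (e _ _ (q.injective.ne n)).1) (fun i => (c _).1)
      fun i j n => (e _ _ (q.injective.ne n)).2)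

/-- Every subgraph-closed class of finite graphs with bounded asymptotic dimension has bounded expansion: for some g, every r-shallow minor H of a graph in the class has at most g(r) times as many edges as vertices. -/
theorem result :
  ∀ C : ∀ n : ℕ, SimpleGraph (Fin n) → Prop,
    (∀ (n m : ℕ) (H : SimpleGraph (Fin n)) (G : SimpleGraph (Fin m)) (φ : H →g G),
        Function.Injective φ → C m G → C n H) →
    (∃ d : ℕ, ∃ f : ℕ → ℕ, ∀ (m : ℕ) (G : SimpleGraph (Fin m)), C m G → ∀ r : ℕ,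
        ∃ c : Fin m → Fin (d + 1), ∀ u v : Fin m,
          Relation.ReflTransGen (fun a b => c a = c b ∧ G.edist a b ≤ (r : ℕ∞)) u v →
          G.edist u v ≤ (f r : ℕ∞)) →
    ∃ g : ℕ → ℕ, ∀ (m : ℕ) (G : SimpleGraph (Fin m)), C m G →
      ∀ (r k : ℕ) (H : SimpleGraph (Fin k)),
      (∃ B : Fin k → Finset (Fin m), ∃ ctr : Fin k → Fin m,
        (∀ i j, i ≠ j → Disjoint (B i) (B j)) ∧
        (∀ i, ctr i ∈ B i) ∧
        (∀ i, ∀ x ∈ B i, ∃ p : G.Walk (ctr i) x, p.length ≤ r ∧ ∀ y ∈ p.support, y ∈ B i) ∧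
        (∀ i j, H.Adj i j → ∃ x ∈ B i, ∃ y ∈ B j, G.Adj x y)) →
      H.edgeSet.ncard ≤ g r * k := by
  rintro C h1 ⟨d, f, h2⟩
  choose g hg using fun r => sparse d fun s => f (s * (2 * r + 1))
  refine ⟨g, fun m G hG r k H ⟨B, z, a, b, c, e⟩ => (not_lt.1 (hg r _ H (minor (G := G) (fun K hK s => ?_)
    (fun i => B i) z (by simpa using a) (fun i => ⟨b i, c i⟩) e))).trans ?_⟩
  · simpa only [nr_iff, Ch] using h2 m K (h1 m m K G (.ofLE hK) (fun _ _ h => h) hG) s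
  · gcongr
    simpa using H.support.ncard_le_card

end Pool.Agent.S11139
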