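import Pool.Statements.S11210
import Pool.Agent.Lib.helper24.MisereTab

set_option autoImplicit false
open Pool Pool.MP_c0cbcd_co

namespace Pool.Agent.S11210

open Pool.Agent.Lib.helper24.MisereTab

/-- Component types: `*`, `*2`, `C = {0, *2, *2 + *2}`, `D = {0, *2 + C}`, `E = {D, C + D}`. -/
def M : List (V × V) :=
  [((1, 0, 0, 0, 0), (0, 0, 0, 0, 0)), ((0, 1, 0, 0, 0), (1, 0, 0, 0, 0)),
   ((0, 1, 0, 0, 0), (0, 0, 0, 0, 0)), ((0, 0, 1, 0, 0), (0, 0, 0, 0, 0)),
   ((0, 0, 1, 0, 0), (0, 1, 0, 0, 0)), ((0, 0, 1, 0, 0), (0, 2, 0, 0, 0)),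
   ((0, 0, 0, 1, 0), (0, 0, 0, 0, 0)), ((0, 0, 0, 1, 0), (0, 1, 1, 0, 0)),
   ((0, 0, 0, 0, 1), (0, 0, 0, 1, 0)), ((0, 0, 0, 0, 1), (0, 0, 1, 1, 0))]

def T : ℕ := 60215158272409693408910848268393229727615775215374603137695167794495943093936137066895029783022769198419779203124255599751335867081339183856267949756372592099212125870597259714883175922135240235180924725873827232999018135025493635357756503292427528654810289908675654116015089070079849841381818316678458735778408815401518715474703236125564920425899699330798845880307269081668625537863205996494457556190022804425848582687981586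

def N (c : V) : Prop := outB (0, 2, 2, 0, 1) (2, 2, 2, 2, 3) T c = true

theorem chkM : chkAll M (0, 2, 2, 0, 1) (2, 2, 2, 2, 3) T = true := by decide +kernel

def gr (c : V) : ℕ := (c.1 + c.2.2.1 + c.2.2.2.1) % 2 + 2 * ((c.2.1 + c.2.2.2.2) % 2)

theorem opM (a b c d e : ℕ) (z : V) : opt M (a, b, c, d, e) z ↔
    (1 ≤ a ∧ z = (a - 1, b, c, d, e)) ∨ (1 ≤ b ∧ z = (a + 1, b - 1, c, d, e)) ∨
    (1 ≤ b ∧ z = (a, b - 1, c, d, e)) ∨ (1 ≤ c ∧ z = (a, b, c - 1, d, e)) ∨
    (1 ≤ c ∧ z = (a, b + 1, c - 1, d, e)) ∨ (1 ≤ c ∧ z = (a, b + 2, c - 1, d, e)) ∨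
    (1 ≤ d ∧ z = (a, b, c, d - 1, e)) ∨ (1 ≤ d ∧ z = (a, b + 1, c + 1, d - 1, e)) ∨
    (1 ≤ e ∧ z = (a, b, c, d + 1, e - 1)) ∨ (1 ≤ e ∧ z = (a, b, c + 1, d + 1, e - 1)) := by
  simp [opt, M]

/-- The negation of the preceding statement: For every closed set of finite impartial games (closed under options and sums), any two games in it that are misère-indistinguishable modulo the set (same misère outcome when added to every member) have the same normal-play Grundy value. -/
theorem result :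
    ¬ (∀ (A : Type) (add : A → A → A) (mv : A → A → Prop),
      (∀ G : A, Set.Finite {K : A | mv K G}) →
      WellFounded mv →
      (∀ G H K : A, mv K (add G H) ↔
          ((∃ G' : A, mv G' G ∧ K = add G' H) ∨ (∃ H' : A, mv H' H ∧ K = add G H'))) →
      ∀ (N : A → Prop),
        (∀ G : A, N G ↔ ((∀ K : A, ¬ mv K G) ∨ ∃ K : A, mv K G ∧ ¬ N K)) →
      ∀ (g : A → ℕ),
        (∀ G : A, (∀ K : A, mv K G → g K ≠ g G) ∧
          (∀ m : ℕ, m < g G → ∃ K : A, mv K G ∧ g K = m)) →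
      ∀ G H : A, (∀ X : A, (N (add G X) ↔ N (add H X))) → g G = g H) := by
  intro H
  have hM : ∀ m ∈ M, sz m.1 = 1 ∧ w m.2 < w m.1 := by decide
  have := H V (· + ·) (fun K G => opt M G K) (opt_fin M) (opt_wf M hM) (opt_add M hM) N
    (out_iff M _ _ T hM (by decide) chkM) gr
    (by
      rintro ⟨a, b, c, d, e⟩
      refine ⟨fun K hK => ?_, fun m hm => ?_⟩
      · rcases (opM _ _ _ _ _ _).1 hK with ⟨_, rfl⟩ | ⟨_, rfl⟩ | ⟨_, rfl⟩ | ⟨_, rfl⟩ | ⟨_, rfl⟩ |
          ⟨_, rfl⟩ | ⟨_, rfl⟩ | ⟨_, rfl⟩ | ⟨_, rfl⟩ | ⟨_, rfl⟩ <;>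
        · simp only [gr]
          omega
      · simp only [gr] at hm
        by_cases h1 : (b + e) % 2 = 1 ∧ m ≤ 1
        · by_cases hb : 1 ≤ b <;> by_cases h2 : m = (a + c + d) % 2
          · exact ⟨(a, b - 1, c, d, e), (opM _ _ _ _ _ _).2 (by simp [hb]), by
              simp only [gr]; omega⟩
          · exact ⟨(a + 1, b - 1, c, d, e), (opM _ _ _ _ _ _).2 (by simp [hb]), by
              simp only [gr]; omega⟩
          · exact ⟨(a, b, c + 1, d + 1, e - 1), (opM _ _ _ _ _ _).2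
              (by simp [show 1 ≤ e by omega]), by simp only [gr]; omega⟩
          · exact ⟨(a, b, c, d + 1, e - 1), (opM _ _ _ _ _ _).2
              (by simp [show 1 ≤ e by omega]), by simp only [gr]; omega⟩
        · by_cases ha : 1 ≤ a
          · exact ⟨(a - 1, b, c, d, e), (opM _ _ _ _ _ _).2 (by simp [ha]), by
              simp only [gr]; omega⟩
          by_cases hc : 1 ≤ c
          · exact ⟨(a, b, c - 1, d, e), (opM _ _ _ _ _ _).2 (by simp [hc]), by
              simp only [gr]; omega⟩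
          · exact ⟨(a, b, c, d - 1, e), (opM _ _ _ _ _ _).2 (by simp [show 1 ≤ d by omega]), by
              simp only [gr]; omega⟩)
    (0, 0, 0, 0, 1) (0, 0, 0, 0, 4)
    (by
      rintro ⟨a, b, c, d, e⟩
      have := red_add 1 3 (1 + e) 1 (by omega)
      simp only [N, outB, outF, Prod.mk_add_mk, show 4 + e = 1 + e + 3 * 1 by omega, this])
  revert this
  decide

end Pool.Agent.S11210
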