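import Pool.Statements.S11230

set_option autoImplicit false
open Pool Pool.MP_c16527_co

namespace Pool.Agent.S11230

def nb : Fin 10 → List (Fin 10) :=
  ![[4, 5, 8], [3, 6, 7, 9], [3, 4, 9], [1, 2, 6], [0, 2, 7, 8], [0, 7, 9], [1, 3, 8], [1, 4, 5, 9], [0, 4, 6], [1, 2, 5, 7]]

def adj (u v : Fin 10) : Bool := (nb u).contains v

theorem adj_symm : ∀ u v, adj u v = true → adj v u = true := by decide

theorem adj_irr : ∀ u, adj u u = false := by decide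

def G : SimpleGraph (Fin 10) where
  Adj u v := adj u v = true
  symm := ⟨fun u v h => adj_symm u v h⟩
  loopless := ⟨fun u h => by simp [adj_irr] at h⟩

/-- all induced paths of `G` -/
def PATHS : List (List (Fin 10)) :=
  [[0], [1], [2], [3], [4], [5], [6], [7], [8], [9], [4, 0], [5, 0], [8, 0], [3, 1], [6, 1],
   [7, 1], [9, 1], [3, 2], [4, 2], [9, 2], [1, 3], [2, 3], [6, 3], [0, 4], [2, 4], [7, 4],
   [8, 4], [0, 5], [7, 5], [9, 5], [1, 6], [3, 6], [8, 6], [1, 7], [4, 7], [5, 7], [9, 7],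
   [0, 8], [4, 8], [6, 8], [1, 9], [2, 9], [5, 9], [7, 9], [2, 4, 0], [7, 4, 0], [7, 5, 0],
   [9, 5, 0], [6, 8, 0], [2, 3, 1], [8, 6, 1], [4, 7, 1], [5, 7, 1], [2, 9, 1], [5, 9, 1],
   [1, 3, 2], [6, 3, 2], [0, 4, 2], [7, 4, 2], [8, 4, 2], [1, 9, 2], [5, 9, 2], [7, 9, 2],
   [7, 1, 3], [9, 1, 3], [4, 2, 3], [9, 2, 3], [8, 6, 3], [5, 0, 4], [3, 2, 4], [9, 2, 4],
   [1, 7, 4], [5, 7, 4], [9, 7, 4], [6, 8, 4], [4, 0, 5], [8, 0, 5], [1, 7, 5], [4, 7, 5],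
   [1, 9, 5], [2, 9, 5], [7, 1, 6], [9, 1, 6], [2, 3, 6], [0, 8, 6], [4, 8, 6], [3, 1, 7],
   [6, 1, 7], [0, 4, 7], [2, 4, 7], [8, 4, 7], [0, 5, 7], [2, 9, 7], [5, 0, 8], [2, 4, 8],
   [7, 4, 8], [1, 6, 8], [3, 6, 8], [3, 1, 9], [6, 1, 9], [3, 2, 9], [4, 2, 9], [0, 5, 9],
   [4, 7, 9], [3, 2, 4, 0], [9, 2, 4, 0], [1, 7, 4, 0], [9, 7, 4, 0], [1, 7, 5, 0], [1, 9, 5, 0],
   [2, 9, 5, 0], [1, 6, 8, 0], [3, 6, 8, 0], [4, 2, 3, 1], [0, 8, 6, 1], [4, 8, 6, 1],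
   [0, 4, 7, 1], [2, 4, 7, 1], [8, 4, 7, 1], [0, 5, 7, 1], [4, 2, 9, 1], [0, 5, 9, 1],
   [7, 1, 3, 2], [8, 6, 3, 2], [5, 0, 4, 2], [1, 7, 4, 2], [5, 7, 4, 2], [6, 8, 4, 2],
   [6, 1, 9, 2], [0, 5, 9, 2], [4, 7, 1, 3], [5, 7, 1, 3], [5, 9, 1, 3], [0, 4, 2, 3],
   [7, 4, 2, 3], [8, 4, 2, 3], [5, 9, 2, 3], [7, 9, 2, 3], [0, 8, 6, 3], [4, 8, 6, 3],
   [9, 5, 0, 4], [1, 3, 2, 4], [6, 3, 2, 4], [1, 9, 2, 4], [5, 9, 2, 4], [3, 1, 7, 4],
   [6, 1, 7, 4], [1, 6, 8, 4], [3, 6, 8, 4], [2, 4, 0, 5], [6, 8, 0, 5], [3, 1, 7, 5],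
   [6, 1, 7, 5], [2, 4, 7, 5], [8, 4, 7, 5], [3, 1, 9, 5], [6, 1, 9, 5], [3, 2, 9, 5],
   [4, 2, 9, 5], [4, 7, 1, 6], [5, 7, 1, 6], [2, 9, 1, 6], [5, 9, 1, 6], [4, 2, 3, 6],
   [9, 2, 3, 6], [5, 0, 8, 6], [2, 4, 8, 6], [7, 4, 8, 6], [2, 3, 1, 7], [8, 6, 1, 7],
   [3, 2, 4, 7], [6, 8, 4, 7], [8, 0, 5, 7], [3, 2, 9, 7], [7, 5, 0, 8], [9, 5, 0, 8],
   [3, 2, 4, 8], [9, 2, 4, 8], [1, 7, 4, 8], [5, 7, 4, 8], [9, 7, 4, 8], [7, 1, 6, 8],
   [9, 1, 6, 8], [2, 3, 6, 8], [8, 6, 1, 9], [6, 3, 2, 9], [0, 4, 2, 9], [8, 4, 2, 9],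
   [4, 0, 5, 9], [8, 0, 5, 9], [0, 4, 7, 9], [8, 4, 7, 9], [1, 3, 2, 4, 0], [6, 3, 2, 4, 0],
   [1, 9, 2, 4, 0], [3, 1, 7, 4, 0], [6, 1, 7, 4, 0], [3, 1, 7, 5, 0], [6, 1, 7, 5, 0],
   [3, 1, 9, 5, 0], [6, 1, 9, 5, 0], [3, 2, 9, 5, 0], [7, 1, 6, 8, 0], [9, 1, 6, 8, 0],
   [2, 3, 6, 8, 0], [0, 4, 2, 3, 1], [8, 4, 2, 3, 1], [5, 0, 8, 6, 1], [2, 4, 8, 6, 1],
   [8, 0, 5, 7, 1], [0, 4, 2, 9, 1], [8, 4, 2, 9, 1], [4, 0, 5, 9, 1], [8, 0, 5, 9, 1],
   [5, 7, 1, 3, 2], [0, 8, 6, 3, 2], [6, 1, 7, 4, 2], [1, 6, 8, 4, 2], [8, 6, 1, 9, 2],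
   [8, 0, 5, 9, 2], [0, 4, 7, 1, 3], [8, 4, 7, 1, 3], [0, 5, 7, 1, 3], [0, 5, 9, 1, 3],
   [5, 0, 4, 2, 3], [5, 7, 4, 2, 3], [0, 5, 9, 2, 3], [5, 0, 8, 6, 3], [7, 4, 8, 6, 3],
   [1, 9, 5, 0, 4], [6, 1, 9, 2, 4], [9, 1, 6, 8, 4], [3, 2, 4, 0, 5], [1, 6, 8, 0, 5],
   [3, 6, 8, 0, 5], [2, 3, 1, 7, 5], [8, 6, 1, 7, 5], [3, 2, 4, 7, 5], [6, 8, 4, 7, 5],
   [8, 6, 1, 9, 5], [6, 3, 2, 9, 5], [8, 4, 2, 9, 5], [0, 4, 7, 1, 6], [2, 4, 7, 1, 6],
   [0, 5, 7, 1, 6], [4, 2, 9, 1, 6], [0, 5, 9, 1, 6], [0, 4, 2, 3, 6], [7, 4, 2, 3, 6],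
   [5, 9, 2, 3, 6], [7, 9, 2, 3, 6], [7, 5, 0, 8, 6], [9, 5, 0, 8, 6], [9, 2, 4, 8, 6],
   [5, 7, 4, 8, 6], [9, 7, 4, 8, 6], [0, 8, 6, 1, 7], [6, 3, 2, 4, 7], [3, 6, 8, 4, 7],
   [6, 8, 0, 5, 7], [6, 3, 2, 9, 7], [1, 7, 5, 0, 8], [1, 9, 5, 0, 8], [2, 9, 5, 0, 8],
   [1, 3, 2, 4, 8], [1, 9, 2, 4, 8], [5, 9, 2, 4, 8], [3, 1, 7, 4, 8], [5, 7, 1, 6, 8],
   [2, 9, 1, 6, 8], [5, 9, 1, 6, 8], [9, 2, 3, 6, 8], [0, 8, 6, 1, 9], [4, 8, 6, 1, 9],
   [8, 6, 3, 2, 9], [6, 8, 4, 2, 9], [6, 8, 0, 5, 9], [6, 8, 4, 7, 9], [6, 1, 9, 2, 4, 0],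
   [2, 3, 1, 7, 5, 0], [6, 3, 2, 9, 5, 0], [2, 9, 1, 6, 8, 0], [9, 2, 3, 6, 8, 0],
   [5, 0, 4, 2, 3, 1], [0, 5, 7, 1, 3, 2], [5, 0, 8, 6, 3, 2], [0, 8, 6, 1, 9, 2],
   [6, 8, 0, 5, 9, 2], [8, 0, 5, 7, 1, 3], [4, 0, 5, 9, 1, 3], [8, 0, 5, 9, 1, 3],
   [8, 0, 5, 9, 2, 3], [7, 5, 0, 8, 6, 3], [9, 5, 0, 8, 6, 3], [5, 7, 4, 8, 6, 3],
   [9, 7, 4, 8, 6, 3], [3, 1, 9, 5, 0, 4], [6, 1, 9, 5, 0, 4], [5, 9, 1, 6, 8, 4],
   [1, 3, 2, 4, 0, 5], [6, 3, 2, 4, 0, 5], [2, 3, 6, 8, 0, 5], [6, 3, 2, 4, 7, 5],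
   [3, 6, 8, 4, 7, 5], [4, 8, 6, 1, 9, 5], [8, 6, 3, 2, 9, 5], [6, 8, 4, 2, 9, 5],
   [0, 4, 2, 9, 1, 6], [4, 0, 5, 9, 1, 6], [5, 0, 4, 2, 3, 6], [5, 7, 4, 2, 3, 6],
   [0, 5, 9, 2, 3, 6], [2, 9, 5, 0, 8, 6], [5, 9, 2, 4, 8, 6], [3, 6, 8, 0, 5, 7],
   [8, 6, 3, 2, 9, 7], [3, 1, 7, 5, 0, 8], [3, 1, 9, 5, 0, 8], [3, 2, 9, 5, 0, 8],
   [5, 9, 2, 3, 6, 8], [7, 9, 2, 3, 6, 8], [0, 8, 6, 3, 2, 9], [3, 6, 8, 0, 5, 9],
   [3, 6, 8, 4, 7, 9], [7, 9, 2, 3, 6, 8, 0], [8, 0, 5, 7, 1, 3, 2], [7, 5, 0, 8, 6, 3, 2],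
   [2, 3, 6, 8, 0, 5, 7], [0, 8, 6, 3, 2, 9, 7], [2, 3, 1, 7, 5, 0, 8]]

def rev (p : ℕ → Fin 10) : ℕ → List (Fin 10)
  | 0 => [p 0]
  | l + 1 => p (l + 1) :: rev p l

def hd (L : List (Fin 10)) : Fin 10 := L.headD 0
def lt (L : List (Fin 10)) : Fin 10 := L.getLastD 0

theorem hd_rev (p : ℕ → Fin 10) (l : ℕ) : hd (rev p l) = p l := by
  cases l <;> rfl

theorem lt_rev (p : ℕ → Fin 10) (l : ℕ) : lt (rev p l) = p 0 := by
  induction l with
  | zero => rfl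
  | succ l ih =>
    cases l with
    | zero => rfl
    | succ l => exact ih

theorem len_rev (p : ℕ → Fin 10) (l : ℕ) : (rev p l).length = l + 1 := by
  induction l with
  | zero => rfl
  | succ l ih => simp [rev, ih]

theorem mem_rev (p : ℕ → Fin 10) (l : ℕ) (v : Fin 10) : v ∈ rev p l ↔ ∃ s, s ≤ l ∧ p s = v := by
  induction l with
  | zero =>
    simp only [rev, List.mem_singleton, Nat.le_zero]
    constructor
    · rintro rfl
      exact ⟨0, rfl, rfl⟩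
    · rintro ⟨s, rfl, rfl⟩
      rfl
  | succ l ih =>
    simp only [rev, List.mem_cons, ih]
    constructor
    · rintro (rfl | ⟨s, hs, rfl⟩)
      · exact ⟨l + 1, le_rfl, rfl⟩
      · exact ⟨s, by omega, rfl⟩
    · rintro ⟨s, hs, rfl⟩
      by_cases h : s = l + 1
      · left
        rw [h]
      · right
        exact ⟨s, by omega, rfl⟩

def ext (L : List (Fin 10)) (v : Fin 10) : Bool :=
  L.all (fun u => u != v && (adj v u == (u == hd L)))

theorem closed : (PATHS.all fun L => (List.finRange 10).all fun v =>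
    !ext L v || PATHS.contains (v :: L)) = true := by
  decide +kernel

theorem single : ∀ v, [v] ∈ PATHS := by decide +kernel

theorem rev_mem (p : ℕ → Fin 10) (l : ℕ)
    (h1 : ∀ s t, s ≤ l → t ≤ l → p s = p t → s = t)
    (h2 : ∀ s t, s ≤ l → t ≤ l → (G.Adj (p s) (p t) ↔ (s + 1 = t ∨ t + 1 = s))) :
    rev p l ∈ PATHS := by
  induction l with
  | zero => exact single _
  | succ l ih =>
    have hm := ih (fun s t hs ht => h1 s t (by omega) (by omega))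
      (fun s t hs ht => h2 s t (by omega) (by omega))
    have hc := closed
    rw [List.all_eq_true] at hc
    have hc2 := hc _ hm
    rw [List.all_eq_true] at hc2
    have hc3 := hc2 (p (l + 1)) (List.mem_finRange _)
    have he : ext (rev p l) (p (l + 1)) = true := by
      unfold ext
      rw [List.all_eq_true]
      intro u hu
      obtain ⟨s, hs, rfl⟩ := (mem_rev p l u).1 hu
      have e1 : p s ≠ p (l + 1) := fun h => by
        have := h1 s (l + 1) (by omega) le_rfl h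
        omega
      have e2 := h2 (l + 1) s le_rfl (by omega)
      have e3 : p s = p l ↔ s = l :=
        ⟨fun h => h1 s l (by omega) (by omega) h, fun h => by rw [h]⟩
      rw [hd_rev]
      simp only [Bool.and_eq_true, bne_iff_ne, ne_eq, beq_iff_eq]
      refine ⟨e1, ?_⟩
      rw [Bool.eq_iff_iff, beq_iff_eq, e3]
      refine Iff.trans e2 ?_
      omega
    rw [he] at hc3
    simpa [rev] using hc3

def compat (a b : Fin 10) (L M : List (Fin 10)) : Bool :=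
  L.all fun u => M.all fun v => u == a || u == b || v == a || v == b || (u != v && !adj u v)

def ends (a b : Fin 10) (L : List (Fin 10)) : Bool :=
  lt L == a && hd L == b && decide (3 ≤ L.length)

theorem noTheta0 : ((List.finRange 10).all fun a => (List.finRange 10).all fun b =>
    (PATHS.filter (ends a b)).all fun L => (PATHS.filter (ends a b)).all fun M =>
      !compat a b L M || (PATHS.filter (ends a b)).all fun N =>
        !(compat a b L N && compat a b M N)) = true := by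
  decide +kernel

theorem noTheta : ¬ ∃ (P : Fin 3 → ℕ → Fin 10) (l : Fin 3 → ℕ),
          (∀ i, 2 ≤ l i) ∧
          (∀ i j, P i 0 = P j 0 ∧ P i (l i) = P j (l j)) ∧
          (∀ i s t, s ≤ l i → t ≤ l i → P i s = P i t → s = t) ∧
          (∀ i s t, s ≤ l i → t ≤ l i →
            (G.Adj (P i s) (P i t) ↔ (s + 1 = t ∨ t + 1 = s))) ∧
          (∀ i j s t, i ≠ j → 0 < s → s < l i → 0 < t → t < l j →
            P i s ≠ P j t ∧ ¬ G.Adj (P i s) (P j t)) := by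
  rintro ⟨P, l, h1, h2, h3, h4, h5⟩
  have hm : ∀ i, rev (P i) (l i) ∈ PATHS.filter (ends (P 0 0) (P 0 (l 0))) := by
    intro i
    rw [List.mem_filter]
    refine ⟨rev_mem _ _ (h3 i) (h4 i), ?_⟩
    have := h1 i
    simp only [ends, lt_rev, hd_rev, len_rev, Bool.and_eq_true, beq_iff_eq, decide_eq_true_eq]
    exact ⟨⟨(h2 i 0).1, (h2 i 0).2⟩, by omega⟩
  have hc : ∀ i j, i ≠ j →
      compat (P 0 0) (P 0 (l 0)) (rev (P i) (l i)) (rev (P j) (l j)) = true := by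
    intro i j hij
    unfold compat
    rw [List.all_eq_true]
    intro u hu
    rw [List.all_eq_true]
    intro v hv
    obtain ⟨s, hs, rfl⟩ := (mem_rev _ _ u).1 hu
    obtain ⟨t, ht, rfl⟩ := (mem_rev _ _ v).1 hv
    simp only [Bool.or_eq_true, beq_iff_eq, Bool.and_eq_true, bne_iff_ne, ne_eq,
      Bool.not_eq_true']
    by_cases a1 : s = 0
    · subst a1
      exact Or.inl (Or.inl (Or.inl (Or.inl (h2 i 0).1)))
    by_cases a2 : s = l i
    · subst a2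
      exact Or.inl (Or.inl (Or.inl (Or.inr (h2 i 0).2)))
    by_cases a3 : t = 0
    · subst a3
      exact Or.inl (Or.inl (Or.inr (h2 j 0).1))
    by_cases a4 : t = l j
    · subst a4
      exact Or.inl (Or.inr (h2 j 0).2)
    have := h5 i j s t hij (by omega) (by omega) (by omega) (by omega)
    refine Or.inr ⟨this.1, ?_⟩
    have h6 := this.2
    simpa [G] using h6
  have h := noTheta0
  rw [List.all_eq_true] at h
  have h := h (P 0 0) (List.mem_finRange _)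
  rw [List.all_eq_true] at h
  have h := h (P 0 (l 0)) (List.mem_finRange _)
  rw [List.all_eq_true] at h
  have h := h _ (hm 0)
  rw [List.all_eq_true] at h
  have h := h _ (hm 1)
  rw [hc 0 1 (by decide), Bool.not_true, Bool.false_or, List.all_eq_true] at h
  have h := h _ (hm 2)
  rw [hc 0 2 (by decide), hc 1 2 (by decide)] at h
  exact absurd h (by decide)

def pc (L M : List (Fin 10)) : Bool :=
  L.all fun u => M.all fun v =>
    u != v && (adj u v == ((u == lt L && v == lt M) || (u == hd L && v == hd M)))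

def long (L : List (Fin 10)) : Bool := decide (2 ≤ L.length)

theorem noPrism0 : ((PATHS.filter long).all fun L => (PATHS.filter long).all fun M =>
      !pc L M || (PATHS.filter long).all fun N => !(pc L N && pc M N)) = true := by
  decide +kernel

theorem noPrism : ¬ ∃ (P : Fin 3 → ℕ → Fin 10) (l : Fin 3 → ℕ),
          (∀ i, 1 ≤ l i) ∧
          (∀ i j s t, s ≤ l i → t ≤ l j → P i s = P j t → (i = j ∧ s = t)) ∧
          (∀ i j s t, s ≤ l i → t ≤ l j →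
            (G.Adj (P i s) (P j t) ↔
              ((i = j ∧ (s + 1 = t ∨ t + 1 = s)) ∨
               (i ≠ j ∧ ((s = 0 ∧ t = 0) ∨ (s = l i ∧ t = l j)))))) := by
  rintro ⟨P, l, h1, h2, h3⟩
  have hm : ∀ i, rev (P i) (l i) ∈ PATHS.filter long := by
    intro i
    rw [List.mem_filter]
    refine ⟨rev_mem _ _ (fun s t hs ht h => (h2 i i s t hs ht h).2) ?_, ?_⟩
    · intro s t hs ht
      rw [h3 i i s t hs ht]
      simp
    · have := h1 i
      simp only [long, len_rev, decide_eq_true_eq]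
      omega
  have hc : ∀ i j, i ≠ j → pc (rev (P i) (l i)) (rev (P j) (l j)) = true := by
    intro i j hij
    unfold pc
    rw [List.all_eq_true]
    intro u hu
    rw [List.all_eq_true]
    intro v hv
    obtain ⟨s, hs, rfl⟩ := (mem_rev _ _ u).1 hu
    obtain ⟨t, ht, rfl⟩ := (mem_rev _ _ v).1 hv
    have e : ∀ k a b, a ≤ l k → b ≤ l k → (P k a = P k b ↔ a = b) := fun k a b ha hb =>
      ⟨fun h => (h2 k k a b ha hb h).2, fun h => by rw [h]⟩
    have e2 := h3 i j s t hs ht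
    rw [lt_rev, lt_rev, hd_rev, hd_rev]
    simp only [Bool.and_eq_true, bne_iff_ne, ne_eq, beq_iff_eq]
    refine ⟨fun h => hij (h2 i j s t hs ht h).1, ?_⟩
    rw [Bool.eq_iff_iff]
    simp only [Bool.or_eq_true, Bool.and_eq_true, beq_iff_eq]
    rw [e i s 0 hs (Nat.zero_le _), e j t 0 ht (Nat.zero_le _), e i s _ hs le_rfl,
      e j t _ ht le_rfl]
    refine Iff.trans e2 ?_
    simp [hij]
  have h := noPrism0
  rw [List.all_eq_true] at h
  have h := h _ (hm 0)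
  rw [List.all_eq_true] at h
  have h := h _ (hm 1)
  rw [hc 0 1 (by decide), Bool.not_true, Bool.false_or, List.all_eq_true] at h
  have h := h _ (hm 2)
  rw [hc 0 2 (by decide), hc 1 2 (by decide)] at h
  exact absurd h (by decide)

def closes (L : List (Fin 10)) (z : Fin 10) : Bool :=
  decide (3 ≤ L.length) && L.all fun u => u != z && (adj z u == (u == lt L || u == hd L))

def cnt (L : List (Fin 10)) (c : Fin 10) : ℕ :=
  (Finset.univ.filter fun v => adj c v = true ∧ v ∈ L).card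

theorem noWheel0 : (PATHS.all fun L => (List.finRange 10).all fun z =>
    !closes L z || (List.finRange 10).all fun c =>
      (z :: L).contains c || decide (cnt (z :: L) c ≤ 3)) = true := by
  decide +kernel

theorem noWheel : ¬ ∃ (m : ℕ) (f : Fin m → Fin 10) (c : Fin 10),
          4 ≤ m ∧ Function.Injective f ∧
          (∀ i j : Fin m, G.Adj (f i) (f j) ↔
            (((i : ℕ) + 1) % m = (j : ℕ) ∨ ((j : ℕ) + 1) % m = (i : ℕ))) ∧
          (∀ i, f i ≠ c) ∧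
          3 ≤ Nat.card {i : Fin m // G.Adj c (f i)} ∧
          Even (Nat.card {i : Fin m // G.Adj c (f i)}) := by
  rintro ⟨m, f, c, hm, hf, hadj, hc, h3, hev⟩
  obtain ⟨k, rfl⟩ : ∃ k, m = k + 2 := ⟨m - 2, by omega⟩
  let p : ℕ → Fin 10 := fun s => if h : s < k + 2 then f ⟨s, h⟩ else 0
  have hp : ∀ s (h : s < k + 2), p s = f ⟨s, h⟩ := fun s h => dif_pos h
  have inj : ∀ s t, s ≤ k + 1 → t ≤ k + 1 → p s = p t → s = t := by
    intro s t hs ht h
    rw [hp s (by omega), hp t (by omega)] at h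
    exact congrArg Fin.val (hf h)
  have hmem : rev p k ∈ PATHS := by
    refine rev_mem p k (fun s t hs ht => inj s t (by omega) (by omega)) ?_
    intro s t hs ht
    rw [hp s (by omega), hp t (by omega), hadj]
    simp only
    rw [Nat.mod_eq_of_lt (by omega : s + 1 < k + 2), Nat.mod_eq_of_lt (by omega : t + 1 < k + 2)]
  have hcl : closes (rev p k) (p (k + 1)) = true := by
    unfold closes
    rw [Bool.and_eq_true, List.all_eq_true, len_rev]
    refine ⟨decide_eq_true (by omega), ?_⟩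
    intro u hu
    obtain ⟨s, hs, rfl⟩ := (mem_rev _ _ u).1 hu
    have e : ∀ a b, a ≤ k + 1 → b ≤ k + 1 → (p a = p b ↔ a = b) := fun a b ha hb =>
      ⟨inj a b ha hb, fun h => by rw [h]⟩
    have e2 : G.Adj (p (k + 1)) (p s) ↔ (s = 0 ∨ s = k) := by
      rw [hp s (by omega), hp (k + 1) (by omega), hadj]
      simp only
      rw [Nat.mod_eq_of_lt (by omega : s + 1 < k + 2), Nat.mod_self]
      omega
    rw [lt_rev, hd_rev]
    simp only [Bool.and_eq_true, bne_iff_ne, ne_eq, beq_iff_eq]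
    refine ⟨fun h => ?_, ?_⟩
    · have := inj s (k + 1) (by omega) le_rfl h
      omega
    · rw [Bool.eq_iff_iff]
      simp only [Bool.or_eq_true, beq_iff_eq]
      rw [e s 0 (by omega) (by omega), e s k (by omega) (by omega)]
      exact e2
  have hall : ∀ v, v ∈ p (k + 1) :: rev p k ↔ ∃ i, f i = v := by
    intro v
    refine Iff.trans (mem_rev p (k + 1) v) ?_
    constructor
    · rintro ⟨s, hs, rfl⟩
      exact ⟨⟨s, by omega⟩, (hp s _).symm⟩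
    · rintro ⟨i, rfl⟩
      exact ⟨i.1, by omega, hp i.1 i.2⟩
  have hcard : Nat.card {i : Fin (k + 2) // G.Adj c (f i)} = cnt (p (k + 1) :: rev p k) c := by
    classical
    rw [Nat.card_eq_fintype_card, Fintype.card_subtype, cnt,
      ← Finset.card_image_of_injective _ hf]
    refine congrArg Finset.card ?_
    ext v
    simp only [Finset.mem_image, Finset.mem_filter, Finset.mem_univ, true_and, hall]
    constructor
    · rintro ⟨i, hi, rfl⟩
      exact ⟨hi, i, rfl⟩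
    · rintro ⟨hv, i, rfl⟩
      exact ⟨i, hv, rfl⟩
  have h := noWheel0
  rw [List.all_eq_true] at h
  have h := h _ hmem
  rw [List.all_eq_true] at h
  have h := h (p (k + 1)) (List.mem_finRange _)
  rw [hcl, Bool.not_true, Bool.false_or, List.all_eq_true] at h
  have h := h c (List.mem_finRange _)
  rw [Bool.or_eq_true, List.contains_iff_mem, hall, decide_eq_true_eq, ← hcard] at h
  rcases h with ⟨i, hi⟩ | h
  · exact hc i hi
  · obtain ⟨r, hr⟩ := hev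
    omega

def part : Fin 10 → Fin 3 ⊕ Fin 3 :=
  ![.inl 0, .inl 1, .inl 2, .inr 0, .inr 1, .inr 2, .inr 0, .inl 1, .inl 0, .inr 2]

def ctr : Fin 3 ⊕ Fin 3 → Fin 10
  | .inl i => ![0, 1, 2] i
  | .inr i => ![3, 4, 5] i

theorem part_ctr : ∀ x, part (ctr x) = x := by decide

theorem ctr_adj : ∀ v, v = ctr (part v) ∨ adj (ctr (part v)) v = true := by decide

theorem minor_adj : ∀ x y : Fin 3 ⊕ Fin 3, x ≠ y →
    ((∃ u, part u = x ∧ ∃ v, part v = y ∧ adj u v = true) ↔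
      (x.isLeft = true ∧ y.isRight = true ∨ x.isRight = true ∧ y.isLeft = true)) := by
  decide +kernel

/-- The negation of the preceding statement: Every finite graph with no induced theta, no induced prism and no induced wheel whose centre has an even number (at least 3) of rim neighbours does not contain K_{3,3} as an induced minor. -/
theorem result :
    ¬ (∀ (V : Type) [Fintype V] (G : SimpleGraph V),
      (¬ ∃ (P : Fin 3 → ℕ → V) (l : Fin 3 → ℕ),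
          (∀ i, 2 ≤ l i) ∧
          (∀ i j, P i 0 = P j 0 ∧ P i (l i) = P j (l j)) ∧
          (∀ i s t, s ≤ l i → t ≤ l i → P i s = P i t → s = t) ∧
          (∀ i s t, s ≤ l i → t ≤ l i →
            (G.Adj (P i s) (P i t) ↔ (s + 1 = t ∨ t + 1 = s))) ∧
          (∀ i j s t, i ≠ j → 0 < s → s < l i → 0 < t → t < l j →
            P i s ≠ P j t ∧ ¬ G.Adj (P i s) (P j t))) →
      (¬ ∃ (P : Fin 3 → ℕ → V) (l : Fin 3 → ℕ),
          (∀ i, 1 ≤ l i) ∧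
          (∀ i j s t, s ≤ l i → t ≤ l j → P i s = P j t → (i = j ∧ s = t)) ∧
          (∀ i j s t, s ≤ l i → t ≤ l j →
            (G.Adj (P i s) (P j t) ↔
              ((i = j ∧ (s + 1 = t ∨ t + 1 = s)) ∨
               (i ≠ j ∧ ((s = 0 ∧ t = 0) ∨ (s = l i ∧ t = l j))))))) →
      (¬ ∃ (m : ℕ) (f : Fin m → V) (c : V),
          4 ≤ m ∧ Function.Injective f ∧
          (∀ i j : Fin m, G.Adj (f i) (f j) ↔
            (((i : ℕ) + 1) % m = (j : ℕ) ∨ ((j : ℕ) + 1) % m = (i : ℕ))) ∧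
          (∀ i, f i ≠ c) ∧
          3 ≤ Nat.card {i : Fin m // G.Adj c (f i)} ∧
          Even (Nat.card {i : Fin m // G.Adj c (f i)})) →
      ¬ ∃ B : Fin 3 ⊕ Fin 3 → Set V,
          (∀ x, (G.induce (B x)).Connected) ∧
          (∀ x y, x ≠ y → Disjoint (B x) (B y)) ∧
          (∀ x y, x ≠ y →
            ((∃ u ∈ B x, ∃ v ∈ B y, G.Adj u v) ↔
              (completeBipartiteGraph (Fin 3) (Fin 3)).Adj x y))) := by
  intro h
  refine h (Fin 10) G noTheta noPrism noWheel ⟨fun x => {v | part v = x}, ?_, ?_, ?_⟩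
  · intro x
    rw [SimpleGraph.connected_iff_exists_forall_reachable]
    refine ⟨⟨ctr x, part_ctr x⟩, ?_⟩
    rintro ⟨v, hv⟩
    have hv' : part v = x := hv
    subst hv'
    rcases ctr_adj v with e | e
    · have : (⟨ctr (part v), part_ctr _⟩ : {w | part w = part v}) = ⟨v, hv⟩ :=
        Subtype.ext e.symm
      rw [this]
    · exact SimpleGraph.Adj.reachable e
  · intro x y hxy
    rw [Set.disjoint_left]
    intro v h1 h2
    exact hxy ((show part v = x from h1).symm.trans h2)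
  · intro x y hxy
    exact minor_adj x y hxy

end Pool.Agent.S11230
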