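import Pool.Statements.S11236
-- import your own Pool.Agent.* helpers here

set_option autoImplicit false
open Pool Pool.MP_c19f90_co

namespace Pool.Agent.S11236

/-- the 41 elements of the example in (Z_18)^3, by representatives -/
def L : List (ℕ × ℕ × ℕ) := [(0, 0, 1), (0, 0, 2), (0, 0, 9), (0, 0, 10), (0, 0, 11), (1, 0, 1), (1, 0, 2), (1, 0, 3), (1, 0, 4), (1, 0, 5), (1, 0, 6), (1, 0, 7), (1, 0, 9), (1, 0, 10), (1, 0, 11), (1, 0, 12), (1, 0, 13), (1, 0, 14), (1, 0, 15), (1, 0, 16), (1, 0, 17), (0, 1, 0), (0, 1, 2), (0, 1, 3), (0, 1, 4), (0, 1, 5), (0, 1, 6), (0, 1, 7), (0, 1, 8), (0, 1, 9), (0, 1, 10), (0, 1, 11), (0, 1, 12), (0, 1, 13), (0, 1, 14), (0, 1, 15), (0, 1, 16), (1, 1, 9), (1, 17, 0), (1, 1, 0), (17, 1, 1)]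

def code (t : ℕ × ℕ × ℕ) : ℕ := t.2.2 + 512 * t.1 + 32768 * t.2.1

def vec (t : ℕ × ℕ × ℕ) : Fin 3 → ZMod 18 := ![(t.1 : ZMod 18), (t.2.1 : ZMod 18), (t.2.2 : ZMod 18)]

/-- bit set of all subset sums of the codes -/
def reach2 (l : List (ℕ × ℕ × ℕ)) : ℕ := l.foldr (fun a R => R ||| (R <<< code a)) 1

theorem reach2_spec (l : List (ℕ × ℕ × ℕ)) (B : Finset (ℕ × ℕ × ℕ)) (hB : B ⊆ l.toFinset) :
    (reach2 l).testBit (∑ t ∈ B, code t) = true := by
  induction l generalizing B with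
  | nil =>
    have : B = ∅ := by simpa using hB
    subst this
    simp [reach2]
  | cons a l ih =>
    have hr : reach2 (a :: l) = reach2 l ||| (reach2 l <<< code a) := rfl
    rw [hr, Nat.testBit_or]
    by_cases ha : a ∈ B
    · have h1 : B.erase a ⊆ l.toFinset := by
        intro x hx
        have hx2 := hB (Finset.mem_of_mem_erase hx)
        have hne := Finset.ne_of_mem_erase hx
        simp only [List.toFinset_cons, Finset.mem_insert] at hx2
        rcases hx2 with h | h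
        · exact absurd h hne
        · exact h
      have h2 := ih _ h1
      rw [← Finset.add_sum_erase B code ha, Nat.testBit_shiftLeft]
      simp [h2]
    · have h1 : B ⊆ l.toFinset := by
        intro x hx
        have hx2 := hB hx
        simp only [List.toFinset_cons, Finset.mem_insert] at hx2
        rcases hx2 with h | h
        · exact absurd (h ▸ hx) ha
        · exact h
      simp [ih _ h1]

def chk (R : ℕ) : Bool :=
  (List.range 3).all fun a => (List.range 3).all fun b => (List.range 20).all fun c =>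
    !(R.testBit (18 * c + 512 * (18 * a) + 32768 * (18 * b))) || (a == 0 && b == 0 && c == 0)

theorem chk_ok : chk (reach2 L) = true := by decide +kernel

theorem nodup_vec : (L.map vec).Nodup := by decide +kernel

theorem pos_L : ∀ t ∈ L, 0 < t.1 + t.2.1 + t.2.2 := by decide +kernel

theorem sum1 : ∑ t ∈ L.toFinset, t.1 < 54 := by decide +kernel
theorem sum2 : ∑ t ∈ L.toFinset, t.2.1 < 54 := by decide +kernel
theorem sum3 : ∑ t ∈ L.toFinset, t.2.2 < 360 := by decide +kernel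

theorem zsf (B : Finset (Fin 3 → ZMod 18)) (hB : B ⊆ L.toFinset.image vec) (hne : B.Nonempty) :
    ∑ x ∈ B, x ≠ 0 := by
  obtain ⟨C, hC, rfl⟩ := Finset.subset_image_iff.1 hB
  have hC2 : C ⊆ L.toFinset := by exact_mod_cast hC
  have hinj : Set.InjOn vec (C : Set (ℕ × ℕ × ℕ)) := by
    intro x hx y hy hxy
    exact List.inj_on_of_nodup_map nodup_vec (by simpa using hC2 hx) (by simpa using hC2 hy) hxy
  rw [Finset.sum_image hinj]
  intro h0
  have e0 := congrFun h0 0
  have e1 := congrFun h0 1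
  have e2 := congrFun h0 2
  simp only [Finset.sum_apply, vec, Matrix.cons_val_zero, Matrix.cons_val_one, Matrix.cons_val_two,
    Matrix.head_cons, Matrix.tail_cons, Pi.zero_apply] at e0 e1 e2
  rw [← Nat.cast_sum, ZMod.natCast_eq_zero_iff] at e0 e1 e2
  obtain ⟨a, ha⟩ := e0
  obtain ⟨b, hb⟩ := e1
  obtain ⟨c, hc⟩ := e2
  have b1 : ∑ t ∈ C, t.1 < 54 := lt_of_le_of_lt (Finset.sum_le_sum_of_subset hC2) sum1
  have b2 : ∑ t ∈ C, t.2.1 < 54 := lt_of_le_of_lt (Finset.sum_le_sum_of_subset hC2) sum2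
  have b3 : ∑ t ∈ C, t.2.2 < 360 := lt_of_le_of_lt (Finset.sum_le_sum_of_subset hC2) sum3
  have hs := reach2_spec L C hC2
  have hcode : ∑ t ∈ C, code t = 18 * c + 512 * (18 * a) + 32768 * (18 * b) := by
    simp only [code, Finset.sum_add_distrib, ← Finset.mul_sum, ha, hb, hc]
  rw [hcode] at hs
  have hk := chk_ok
  simp only [chk, List.all_eq_true, List.mem_range] at hk
  have hk2 := hk a (by omega) b (by omega) c (by omega)
  rw [hs] at hk2
  simp only [Bool.not_true, Bool.false_or, Bool.and_eq_true, beq_iff_eq] at hk2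
  obtain ⟨⟨rfl, rfl⟩, rfl⟩ := hk2
  obtain ⟨x, hx⟩ := hne
  obtain ⟨t, ht, rfl⟩ := Finset.mem_image.1 hx
  have p := pos_L t (by simpa using hC2 ht)
  have q1 : t.1 ≤ ∑ t ∈ C, t.1 := Finset.single_le_sum (f := fun t : ℕ × ℕ × ℕ => t.1) (fun _ _ => Nat.zero_le _) ht
  have q2 : t.2.1 ≤ ∑ t ∈ C, t.2.1 := Finset.single_le_sum (f := fun t : ℕ × ℕ × ℕ => t.2.1) (fun _ _ => Nat.zero_le _) ht
  have q3 : t.2.2 ≤ ∑ t ∈ C, t.2.2 := Finset.single_le_sum (f := fun t : ℕ × ℕ × ℕ => t.2.2) (fun _ _ => Nat.zero_le _) ht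
  omega

theorem cardA : (L.toFinset.image vec).card = 41 := by
  have h : L.toFinset.image vec = (L.map vec).toFinset := by
    ext x; simp
  rw [h, List.toFinset_card_of_nodup nodup_vec]
  rfl

theorem floor_eq : ⌊(Real.sqrt (8 * ((18 : ℕ) : ℝ) - 31) - 1) / 2⌋₊ ≤ 4 := by
  have h : Real.sqrt (8 * ((18 : ℕ) : ℝ) - 31) < 11 := by
    rw [Real.sqrt_lt' (by norm_num)]
    norm_num
  have h2 : (Real.sqrt (8 * ((18 : ℕ) : ℝ) - 31) - 1) / 2 < (5 : ℕ) := by
    generalize Real.sqrt (8 * ((18 : ℕ) : ℝ) - 31) = s at h ⊢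
    have e : ((5 : ℕ) : ℝ) = 5 := by norm_num
    rw [e]
    linarith
  have := (Nat.floor_lt' (by norm_num : (5 : ℕ) ≠ 0)).2 h2
  omega


/-- The negation of the preceding statement: For all r ≥ 3 and k ≥ 2, the largest subset of (Z_k)^r with no nonempty subset summing to zero has exactly the size given by the stated lower-bound formula (separate cases for r = 3 and r ≥ 4). -/
theorem result :
    ¬ (∀ r k : ℕ, 3 ≤ r → 2 ≤ k → ∀ n : ℕ,
      n = (if r = 3 then
              (if k ≤ 3 then 3 * (k - 1)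
               else 2 * k + ⌊(Real.sqrt (8 * (k : ℝ) - 31) - 1) / 2⌋₊)
           else
              (if k ≤ r + 1 then r * (k - 1)
               else (r - 1) * k + ⌊(Real.sqrt (8 * ((k : ℝ) - (r : ℝ)) + 1) - 1) / 2⌋₊)) →
      (∃ A : Finset (Fin r → ZMod k), A.card = n ∧
          ∀ B : Finset (Fin r → ZMod k), B ⊆ A → B.Nonempty → ∑ x ∈ B, x ≠ 0) ∧
      (∀ A : Finset (Fin r → ZMod k),
          (∀ B : Finset (Fin r → ZMod k), B ⊆ A → B.Nonempty → ∑ x ∈ B, x ≠ 0) →
          A.card ≤ n)) := by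
  intro H
  have h := (H 3 18 (by norm_num) (by norm_num) _ rfl).2 _ zsf
  rw [cardA] at h
  have h2 := floor_eq
  simp only [if_true] at h
  rw [if_neg (by norm_num)] at h
  omega

end Pool.Agent.S11236
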