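import Pool.Statements.S11238

set_option autoImplicit false
open Pool Pool.MP_c1e4cd_co

namespace Pool.Agent.S11238

open Finset

/-- The negation of the preceding statement: Some C₀>0 works for all n≥1: if A⊆S_n, c=∣A∣/(n-1)!, and 1_A is within mean-square εc/n of the span of 1-coset indicators, then 1_A is within C₀εc/n of a union of round(c) distinct 1-cosets, and ∣c−round(c)∣≤C₀ε. -/
theorem result :
    ¬ (∃ C₀ : ℝ, 0 < C₀ ∧ ∀ n : ℕ, 1 ≤ n → ∀ A : Finset (Equiv.Perm (Fin n)), ∀ ε : ℝ, 0 ≤ ε →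
    (∃ a : Fin n → Fin n → ℝ,
      (1 / (n.factorial : ℝ)) * ∑ σ : Equiv.Perm (Fin n),
          ((if σ ∈ A then (1:ℝ) else 0) - ∑ i : Fin n, a i (σ i)) ^ 2
        ≤ ε * ((A.card : ℝ) / ((n - 1).factorial : ℝ)) / n) →
    ∃ S : Finset (Fin n × Fin n),
      (S.card : ℤ) = round ((A.card : ℝ) / ((n - 1).factorial : ℝ)) ∧
      (1 / (n.factorial : ℝ)) * ∑ σ : Equiv.Perm (Fin n),
          ((if σ ∈ A then (1:ℝ) else 0) - (if ∃ p ∈ S, σ p.1 = p.2 then (1:ℝ) else 0)) ^ 2
        ≤ C₀ * ε * ((A.card : ℝ) / ((n - 1).factorial : ℝ)) / n ∧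
      |(A.card : ℝ) / ((n - 1).factorial : ℝ)
          - ((round ((A.card : ℝ) / ((n - 1).factorial : ℝ)) : ℤ) : ℝ)| ≤ C₀ * ε) := by
  rintro ⟨C, hC, h⟩
  obtain ⟨m, hm⟩ := exists_nat_gt C
  obtain ⟨t, ht⟩ : 2 ∣ (m + 2).factorial := Nat.dvd_factorial (by norm_num) (by omega)
  have ht0 : 0 < t := by
    have := Nat.factorial_pos (m + 2)
    omega
  have hfac : (m + 3).factorial = (m + 3) * (2 * t) := by rw [Nat.factorial_succ, ht]
  have hcard : (univ : Finset (Equiv.Perm (Fin (m + 3)))).card = (m + 3) * (2 * t) := by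
    rw [card_univ, Fintype.card_perm, Fintype.card_fin, hfac]
  obtain ⟨A, -, hA⟩ := Finset.exists_subset_card_eq
    (s := (univ : Finset (Equiv.Perm (Fin (m + 3))))) (n := (2 * m + 5) * t)
    (by rw [hcard]; nlinarith)
  have htr : (0 : ℝ) < t := by exact_mod_cast ht0
  have hc : (A.card : ℝ) / ((m + 3 - 1).factorial : ℝ) = (m + 2 : ℤ) + 1 / 2 := by
    rw [hA, show m + 3 - 1 = m + 2 from rfl, ht]
    push_cast
    field_simp
    ring
  have hm0 : (0 : ℝ) ≤ m := by positivity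
  obtain ⟨S, -, -, h3⟩ := h (m + 3) (by omega) A (1 / (2 * m + 5)) (by positivity)
    ⟨fun _ _ => 1 / (m + 3), by
      have h1 : ∑ _i : Fin (m + 3), (1 : ℝ) / (m + 3) = 1 := by
        simp only [sum_const, card_univ, Fintype.card_fin, nsmul_eq_mul]
        push_cast
        field_simp
      have h2 : ∀ σ : Equiv.Perm (Fin (m + 3)), ((if σ ∈ A then (1 : ℝ) else 0) - 1) ^ 2
          = 1 - (if σ ∈ A then (1 : ℝ) else 0) := by
        intro σ; split_ifs <;> norm_num
      simp only [h1, h2, sum_sub_distrib, sum_const, hcard, sum_boole, filter_mem_eq_inter,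
        univ_inter, hc, hfac]
      rw [hA]
      simp only [nsmul_eq_mul]
      push_cast
      apply le_of_eq
      field_simp
      ring⟩
  rw [hc, round_intCast_add] at h3
  have h4 : round ((1 : ℝ) / 2) = 1 := by
    rw [round_eq]; norm_num
  rw [h4] at h3
  push_cast at h3
  have h5 : (m : ℝ) + 2 + 1 / 2 - (m + 2 + 1) = -(1 / 2) := by ring
  rw [h5, abs_neg, abs_of_pos (by norm_num), mul_one_div, le_div_iff₀ (by positivity)] at h3
  linarith

end Pool.Agent.S11238
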