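import Pool.Statements.S11248

set_option autoImplicit false
open Pool Pool.MP_c220a4_co

namespace Pool.Agent.S11248

/-- out-neighbourhoods as bit masks -/
def mk (v : Fin 6) : ℕ := [20, 48, 57, 55, 36, 30].getD v.val 0

/-- the six-vertex digraph -/
def AA (u v : Fin 6) : Bool := (mk u).testBit v.val

theorem step3 : ∀ u v : Fin 6, ∃ a b : Fin 6,
    (u = a ∨ AA u a = true) ∧ (a = b ∨ AA a b = true) ∧ (b = v ∨ AA b v = true) := by
  decide +kernel

theorem strong (u v : Fin 6) : Relation.ReflTransGen (fun a b => AA a b = true) u v := by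
  obtain ⟨a, b, h1, h2, h3⟩ := step3 u v
  have k : ∀ x y : Fin 6, (x = y ∨ AA x y = true) →
      Relation.ReflTransGen (fun a b => AA a b = true) x y := by
    intro x y h
    rcases h with rfl | h
    · exact Relation.ReflTransGen.refl
    · exact Relation.ReflTransGen.single h
  exact ((k _ _ h1).trans (k _ _ h2)).trans (k _ _ h3)

/-- no injective closed walk of length `k` through both `0` and `1` -/
def NoCyc (k : ℕ) : Prop := ∀ f : Fin k → Fin 6,
    (∀ j : Fin k, AA (f j) (f (finRotate k j)) = true) → (∃ a, f a = 0) → (∃ a, f a = 1) →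
      ∃ a b : Fin k, a ≠ b ∧ f a = f b

theorem n2 : ∀ a b : Fin 6, AA a b = true → AA b a = true → (a = 0 ∨ b = 0) → (a = 1 ∨ b = 1) →
    False := by decide +kernel

theorem n3 : ∀ a b : Fin 6, AA a b = true → ∀ c : Fin 6, AA b c = true → AA c a = true →
    0 ∈ [a, b, c] → 1 ∈ [a, b, c] → ¬ [a, b, c].Nodup := by decide +kernel

theorem n4 : ∀ a b : Fin 6, AA a b = true → ∀ c : Fin 6, AA b c = true → ∀ d : Fin 6,
    AA c d = true → AA d a = true →
    0 ∈ [a, b, c, d] → 1 ∈ [a, b, c, d] → ¬ [a, b, c, d].Nodup := by decide +kernel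

theorem n5 : ∀ a b : Fin 6, AA a b = true → ∀ c : Fin 6, AA b c = true → ∀ d : Fin 6,
    AA c d = true → ∀ e : Fin 6, AA d e = true → AA e a = true →
    0 ∈ [a, b, c, d, e] → 1 ∈ [a, b, c, d, e] → ¬ [a, b, c, d, e].Nodup := by decide +kernel

theorem n6 : ∀ a b : Fin 6, AA a b = true → ∀ c : Fin 6, AA b c = true → ∀ d : Fin 6,
    AA c d = true → ∀ e : Fin 6, AA d e = true → ∀ g : Fin 6, AA e g = true → AA g a = true →
    ¬ [a, b, c, d, e, g].Nodup := by decide +kernel


/-- The negation of the preceding statement: Every strongly connected loopless digraph on n≥3 vertices satisfying both Nash-Williams conditions on its sorted in/out-degree sequences for all 1≤i<n/2 has, for any two distinct vertices, a directed cycle containing both. -/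
theorem result :
    ¬ (∀ (n : ℕ) (A : Fin n → Fin n → Bool),
      3 ≤ n →
      (∀ v, A v v = false) →
      (∀ u v, Relation.ReflTransGen (fun a b => A a b = true) u v) →
      (∀ i : ℕ, 1 ≤ i → 2 * i < n →
        ((Finset.univ.filter
            (fun v => (Finset.univ.filter (fun w => A v w = true)).card ≤ i)).card < i ∨
         (Finset.univ.filter
            (fun v => (Finset.univ.filter (fun w => A w v = true)).card < n - i)).card < n - i)) →
      (∀ i : ℕ, 1 ≤ i → 2 * i < n →
        ((Finset.univ.filter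
            (fun v => (Finset.univ.filter (fun w => A w v = true)).card ≤ i)).card < i ∨
         (Finset.univ.filter
            (fun v => (Finset.univ.filter (fun w => A v w = true)).card < n - i)).card < n - i)) →
      ∀ u v : Fin n, u ≠ v →
        ∃ (k : ℕ) (f : Fin k → Fin n),
          Function.Injective f ∧
          (∀ j : Fin k, A (f j) (f (finRotate k j)) = true) ∧
          u ∈ Set.range f ∧ v ∈ Set.range f) := by
  intro H
  have hc : ∀ i : ℕ, 1 ≤ i → 2 * i < 6 → i = 1 ∨ i = 2 := by intro i h1 h2; omega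
  obtain ⟨k, f, hinj, hadj, h0, h1⟩ := H 6 AA (by norm_num) (by decide +kernel) strong
    (by
      intro i a b
      rcases hc i a b with rfl | rfl <;> decide +kernel)
    (by
      intro i a b
      rcases hc i a b with rfl | rfl <;> decide +kernel)
    0 1 (by decide)
  have hk : k ≤ 6 := by simpa using Fintype.card_le_of_injective f hinj
  have hnd : (List.ofFn f).Nodup := List.nodup_ofFn.mpr hinj
  have m0 : (0 : Fin 6) ∈ List.ofFn f := (List.mem_ofFn' _ _).mpr h0
  have m1 : (1 : Fin 6) ∈ List.ofFn f := (List.mem_ofFn' _ _).mpr h1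
  interval_cases k
  · simp at m0
  · simp [List.ofFn_succ] at m0 m1
    exact absurd (m0.trans m1.symm) (by decide)
  · refine n2 (f 0) (f 1) (hadj 0) (hadj 1) ?_ ?_
    · simp [List.ofFn_succ] at m0
      rcases m0 with h | h
      · exact Or.inl h.symm
      · exact Or.inr h.symm
    · simp [List.ofFn_succ] at m1
      rcases m1 with h | h
      · exact Or.inl h.symm
      · exact Or.inr h.symm
  · exact n3 (f 0) (f 1) (hadj 0) (f 2) (hadj 1) (hadj 2) m0 m1 hnd
  · exact n4 (f 0) (f 1) (hadj 0) (f 2) (hadj 1) (f 3) (hadj 2) (hadj 3) m0 m1 hnd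
  · exact n5 (f 0) (f 1) (hadj 0) (f 2) (hadj 1) (f 3) (hadj 2) (f 4) (hadj 3) (hadj 4) m0 m1 hnd
  · exact n6 (f 0) (f 1) (hadj 0) (f 2) (hadj 1) (f 3) (hadj 2) (f 4) (hadj 3) (f 5) (hadj 4)
      (hadj 5) hnd

end Pool.Agent.S11248
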