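import Pool.Statements.S11254
import Pool.Agent.Lib.helper27.InvJoin

set_option autoImplicit false
open Pool Pool.MP_c24a34_co

namespace Pool.Agent.S11254

open Pool.Agent.Lib.H27InvJoin Matrix

/-- Counterexample with k = 2: two oriented graphs on 127 vertices, each of inversion number 64,
whose dijoin has inversion number at most 127. -/
theorem result :
    ¬ (∀ (k : ℕ) (n : Fin k → ℕ) (D : (i : Fin k) → Digraph (Fin (n i))),
    (∀ (i : Fin k) (a b : Fin (n i)), (D i).Adj a b → ¬ (D i).Adj b a) →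
    (∀ i : Fin k,
      sInf {m : ℕ | ∃ X : Fin m → Set (Fin (n i)), ∃ f : Fin (n i) → ℕ, ∀ u v : Fin (n i),
        ((D i).Adj u v ∧ Even (Nat.card {j : Fin m // u ∈ X j ∧ v ∈ X j})) ∨
        ((D i).Adj v u ∧ Odd (Nat.card {j : Fin m // u ∈ X j ∧ v ∈ X j})) → f u < f v} = 1 ∨
      Even (sInf {m : ℕ | ∃ X : Fin m → Set (Fin (n i)), ∃ f : Fin (n i) → ℕ, ∀ u v : Fin (n i),
        ((D i).Adj u v ∧ Even (Nat.card {j : Fin m // u ∈ X j ∧ v ∈ X j})) ∨
        ((D i).Adj v u ∧ Odd (Nat.card {j : Fin m // u ∈ X j ∧ v ∈ X j})) → f u < f v})) →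
    sInf {m : ℕ | ∃ X : Fin m → Set (Σ i : Fin k, Fin (n i)),
        ∃ f : (Σ i : Fin k, Fin (n i)) → ℕ, ∀ u v : (Σ i : Fin k, Fin (n i)),
        ((u.1 < v.1 ∨ ∃ (i : Fin k) (a b : Fin (n i)),
            u = ⟨i, a⟩ ∧ v = ⟨i, b⟩ ∧ (D i).Adj a b) ∧
          Even (Nat.card {j : Fin m // u ∈ X j ∧ v ∈ X j})) ∨
        ((v.1 < u.1 ∨ ∃ (i : Fin k) (a b : Fin (n i)),
            v = ⟨i, a⟩ ∧ u = ⟨i, b⟩ ∧ (D i).Adj a b) ∧
          Odd (Nat.card {j : Fin m // u ∈ X j ∧ v ∈ X j})) → f u < f v}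
    = ∑ i : Fin k,
      sInf {m : ℕ | ∃ X : Fin m → Set (Fin (n i)), ∃ f : Fin (n i) → ℕ, ∀ u v : Fin (n i),
        ((D i).Adj u v ∧ Even (Nat.card {j : Fin m // u ∈ X j ∧ v ∈ X j})) ∨
        ((D i).Adj v u ∧ Odd (Nat.card {j : Fin m // u ∈ X j ∧ v ∈ X j})) → f u < f v}) := by
  intro H
  obtain ⟨φ, h1, h2⟩ := exists_good
  obtain ⟨B1, hB1, hq1, hq1'⟩ := exists_sub _ _ (Tour_asymm (LM φ)) le_rfl h1
  obtain ⟨B2, hB2, hq2, hq2'⟩ := exists_sub _ _ (Tour_asymm (YM φ)ᵀ) le_rfl h2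
  have e1 := sInf_eq hq1 hq1'
  have e2 := sInf_eq hq2 hq2'
  let D : (i : Fin 2) → Digraph (Fin (63 + 64)) := ![⟨B1⟩, ⟨B2⟩]
  have hs : ∀ i : Fin 2, sInf {k : ℕ | P (D i).Adj k} = 64 := by
    intro i
    fin_cases i
    · exact e1
    · exact e2
  have H2 := H 2 (fun _ => 63 + 64) D ?_ ?_
  · change sInf {m : ℕ | P (fun u v : (Σ _ : Fin 2, Fin (63 + 64)) => u.1 < v.1 ∨
      ∃ (i : Fin 2) (a b : Fin (63 + 64)), u = ⟨i, a⟩ ∧ v = ⟨i, b⟩ ∧ (D i).Adj a b) m} =
      ∑ i : Fin 2, sInf {k : ℕ | P (D i).Adj k} at H2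
    simp only [hs] at H2
    have hle : sInf {m : ℕ | P (fun u v : (Σ _ : Fin 2, Fin (63 + 64)) => u.1 < v.1 ∨
      ∃ (i : Fin 2) (a b : Fin (63 + 64)), u = ⟨i, a⟩ ∧ v = ⟨i, b⟩ ∧ (D i).Adj a b) m} ≤
        63 + 64 := by
      apply Nat.sInf_le
      refine (P_iff_Q _ _).2 ⟨fun u => (![LM φ, (YM φ)ᵀ] u.1) u.2,
        fun u => 2 * u.2.val + 1 - u.1.val, ?_⟩
      have hC : ∀ a b : Fin (63 + 64), LM φ a ⬝ᵥ (YM φ)ᵀ b = if b ≤ a then 1 else 0 := by
        intro a b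
        exact congrFun (congrFun (LY φ) a) b
      have hD : ∀ (i j : Fin 2) (a b : Fin (63 + 64)),
          (∃ (l : Fin 2) (c d : Fin (63 + 64)), (⟨i, a⟩ : Σ _ : Fin 2, Fin (63 + 64)) = ⟨l, c⟩ ∧
            (⟨j, b⟩ : Σ _ : Fin 2, Fin (63 + 64)) = ⟨l, d⟩ ∧ (D l).Adj c d) →
            i = j ∧ (D i).Adj a b := by
        rintro i j a b ⟨l, c, d, hc, hd, h⟩
        cases hc
        cases hd
        exact ⟨rfl, h⟩
      rintro ⟨i, a⟩ ⟨j, b⟩ huv
      have huv' : ((i < j ∨ (i = j ∧ (D i).Adj a b)) ∧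
          (![LM φ, (YM φ)ᵀ] i) a ⬝ᵥ (![LM φ, (YM φ)ᵀ] j) b = 0) ∨
          ((j < i ∨ (j = i ∧ (D j).Adj b a)) ∧
          (![LM φ, (YM φ)ᵀ] i) a ⬝ᵥ (![LM φ, (YM φ)ᵀ] j) b = 1) := by
        rcases huv with ⟨h | h, h'⟩ | ⟨h | h, h'⟩
        · exact Or.inl ⟨Or.inl h, h'⟩
        · exact Or.inl ⟨Or.inr (hD _ _ _ _ h), h'⟩
        · exact Or.inr ⟨Or.inl h, h'⟩
        · exact Or.inr ⟨Or.inr (hD _ _ _ _ h), h'⟩
      clear huv
      show 2 * a.val + 1 - i.val < 2 * b.val + 1 - j.val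
      fin_cases i <;> fin_cases j
      · have : a < b := by
          apply Tour_fin (LM φ)
          rcases huv' with ⟨h | h, h'⟩ | ⟨h | h, h'⟩
          · exact absurd h (lt_irrefl _)
          · exact Or.inl ⟨hB1 _ _ h.2, h'⟩
          · exact absurd h (lt_irrefl _)
          · exact Or.inr ⟨hB1 _ _ h.2, h'⟩
        have : a.val < b.val := this
        show 2 * a.val + 1 - 0 < 2 * b.val + 1 - 0
        omega
      · show 2 * a.val + 1 - 0 < 2 * b.val + 1 - 1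
        rcases huv' with ⟨_, h'⟩ | ⟨h | h, h'⟩
        · change LM φ a ⬝ᵥ (YM φ)ᵀ b = 0 at h'
          rw [hC] at h'
          have : ¬ b ≤ a := by
            intro hba
            rw [if_pos hba] at h'
            exact absurd h' (by decide)
          have : a.val < b.val := not_le.1 this
          omega
        · exact absurd h (by decide)
        · exact absurd h.1 (by decide)
      · show 2 * a.val + 1 - 1 < 2 * b.val + 1 - 0
        rcases huv' with ⟨h | h, h'⟩ | ⟨_, h'⟩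
        · exact absurd h (by decide)
        · exact absurd h.1 (by decide)
        · change (YM φ)ᵀ a ⬝ᵥ LM φ b = 1 at h'
          rw [dotProduct_comm, hC] at h'
          have : a ≤ b := by
            by_contra hba
            rw [if_neg hba] at h'
            exact absurd h' (by decide)
          have : a.val ≤ b.val := this
          omega
      · have : a < b := by
          apply Tour_fin (YM φ)ᵀ
          rcases huv' with ⟨h | h, h'⟩ | ⟨h | h, h'⟩
          · exact absurd h (lt_irrefl _)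
          · exact Or.inl ⟨hB2 _ _ h.2, h'⟩
          · exact absurd h (lt_irrefl _)
          · exact Or.inr ⟨hB2 _ _ h.2, h'⟩
        have : a.val < b.val := this
        show 2 * a.val + 1 - 1 < 2 * b.val + 1 - 1
        omega
    rw [H2] at hle
    revert hle
    decide
  · intro i a b h h'
    fin_cases i
    · exact Tour_asymm _ _ _ (hB1 _ _ h) (hB1 _ _ h')
    · exact Tour_asymm _ _ _ (hB2 _ _ h) (hB2 _ _ h')
  · intro i
    right
    have := hs i
    change Even (sInf {k : ℕ | P (D i).Adj k})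
    rw [this]
    decide

end Pool.Agent.S11254
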