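import Pool.Statements.S11268
-- import your own Pool.Agent.* helpers here

set_option autoImplicit false
open Pool Pool.MP_c32a86_co

namespace Pool.Agent.S11268

lemma count_step {G : Type} [Group G] [Fintype G] [DecidableEq G] (χ : G → Fin 2)
    (e : G × G × G × G ≃ G × G × G × G) :
    (Finset.univ.filter fun p : G × G × G × G =>
      χ (e p).1 = χ ((e p).1 * (e p).2.1 * (e p).2.1)).card
      = (Finset.univ.filter fun q : G × G => χ q.1 = χ (q.1 * q.2 * q.2)).card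
        * Fintype.card G ^ 2 := by
  have h1 : (Finset.univ.filter fun p : G × G × G × G =>
      χ (e p).1 = χ ((e p).1 * (e p).2.1 * (e p).2.1)).card
      = (Finset.univ.filter fun p : G × G × G × G =>
      χ p.1 = χ (p.1 * p.2.1 * p.2.1)).card := by
    refine Finset.card_bijective e e.bijective fun p => by simp
  rw [h1]
  have h2 : (Finset.univ.filter fun p : G × G × G × G => χ p.1 = χ (p.1 * p.2.1 * p.2.1)).card
      = ((Finset.univ.filter fun q : G × G => χ q.1 = χ (q.1 * q.2 * q.2)) ×ˢ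
        (Finset.univ : Finset (G × G))).card :=
    Finset.card_bijective (Equiv.prodAssoc G G (G × G)).symm
      (Equiv.prodAssoc G G (G × G)).symm.bijective fun p => by simp
  rw [h2]
  simp [sq]

/-- The negation of the preceding statement: For every ε>0 and every r>1 there is a finite group G and an r-coloring of G such that, for every center c and color i, fewer than ε·∣G∣ elements x have both x and c x⁻¹ c of color i. -/
theorem result :
    ¬ (∀ ε : ℝ, 0 < ε → ∀ r : ℕ, 1 < r →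
      ∃ (G : Type) (_ : Group G) (_ : Fintype G), ∃ χ : G → Fin r,
        ∀ c : G, ∀ i : Fin r,
          ((Finset.univ.filter (fun x : G => χ x = i ∧ χ (c * x⁻¹ * c) = i)).card : ℝ)
            < ε * (Fintype.card G : ℝ)) := by
  intro h
  obtain ⟨G, _, _, χ, hχ⟩ := h (1 / 18) (by norm_num) 2 (by norm_num)
  classical
  set M := (Finset.univ.filter fun q : G × G => χ q.1 = χ (q.1 * q.2 * q.2)).card with hM
  have hpos : (0 : ℝ) < Fintype.card G := by exact_mod_cast Fintype.card_pos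
  have h1 : (M : ℝ) < (Fintype.card G : ℝ) ^ 2 / 9 := by
    have e1 : M = ∑ c : G, ∑ i : Fin 2,
        (Finset.univ.filter (fun x : G => χ x = i ∧ χ (c * x⁻¹ * c) = i)).card := by
      have e2 : ∀ c : G, ∑ i : Fin 2,
          (Finset.univ.filter (fun x : G => χ x = i ∧ χ (c * x⁻¹ * c) = i)).card
          = (Finset.univ.filter (fun x : G => χ x = χ (c * x⁻¹ * c))).card := by
        intro c
        simp only [Finset.card_filter]
        rw [Finset.sum_comm]
        refine Finset.sum_congr rfl fun x _ => ?_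
        rw [Fin.sum_univ_two]
        generalize χ x = a
        generalize χ (c * x⁻¹ * c) = b
        revert a b
        decide
      simp only [e2]
      simp only [hM, Finset.card_filter]
      rw [Finset.sum_comm, Fintype.sum_prod_type]
      refine Finset.sum_congr rfl fun x _ => ?_
      refine Fintype.sum_equiv (Equiv.mulLeft x) _ _ fun u => ?_
      simp
    rw [e1]
    push_cast
    calc _ < ∑ c : G, ∑ i : Fin 2, 1 / 18 * (Fintype.card G : ℝ) :=
          Finset.sum_lt_sum_of_nonempty Finset.univ_nonempty fun c _ =>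
            Finset.sum_lt_sum_of_nonempty Finset.univ_nonempty fun i _ => hχ c i
      _ = _ := by simp; ring
  let mk : (f g : G × G × G × G → G × G × G × G) → (∀ p, g (f p) = p) →
      G × G × G × G ≃ G × G × G × G := fun f g hg =>
    Equiv.ofBijective f (Finite.injective_iff_bijective.1 (Function.LeftInverse.injective hg))
  let E : Fin 9 → G × G × G × G ≃ G × G × G × G := ![
    mk (fun p => (p.1, p.2.1, p.2.2.1, p.2.2.2)) (fun p => p) (fun p => rfl),
    mk (fun p => (p.1 * p.2.1 * p.2.1, p.2.1⁻¹ * p.2.2.1, p.2.1, p.2.2.2))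
      (fun q => (q.1 * q.2.2.1⁻¹ * q.2.2.1⁻¹, q.2.2.1, q.2.2.1 * q.2.1, q.2.2.2))
      (fun p => by simp [mul_assoc]),
    mk (fun p => (p.1 * p.2.1 * p.2.2.1 * p.2.1⁻¹ * p.2.2.1, p.2.2.1⁻¹, p.2.1, p.2.2.2))
      (fun q => (q.1 * q.2.1 * q.2.2.1 * q.2.1 * q.2.2.1⁻¹, q.2.2.1, q.2.1⁻¹, q.2.2.2))
      (fun p => by simp [mul_assoc]),
    mk (fun p => (p.1 * p.2.1 * p.2.2.1 * p.2.1⁻¹ * p.2.2.1⁻¹, p.2.2.1 * p.2.1 * p.2.2.1⁻¹,
        p.2.2.1, p.2.2.2))
      (fun q => (q.1 * q.2.1 * q.2.2.1⁻¹ * q.2.1⁻¹ * q.2.2.1, q.2.2.1⁻¹ * q.2.1 * q.2.2.1,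
        q.2.2.1, q.2.2.2))
      (fun p => by simp [mul_assoc]),
    mk (fun p => (p.1 * p.2.1 * p.2.2.1 * p.2.1 * p.2.2.1⁻¹,
        p.2.2.1 * p.2.1⁻¹ * p.2.2.2 * p.2.2.1⁻¹, p.2.1, p.2.2.1))
      (fun q => (q.1 * q.2.2.2 * q.2.2.1⁻¹ * q.2.2.2⁻¹ * q.2.2.1⁻¹, q.2.2.1, q.2.2.2,
        q.2.2.1 * q.2.2.2⁻¹ * q.2.1 * q.2.2.2))
      (fun p => by simp [mul_assoc]),
    mk (fun p => (p.1 * p.2.1 * p.2.2.1 * p.2.2.2 * p.2.1⁻¹ * p.2.2.2 * p.2.2.1⁻¹,
        p.2.2.1 * p.2.2.2⁻¹ * p.2.2.1⁻¹, p.2.1, p.2.2.1))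
      (fun q => (q.1 * q.2.1 * q.2.2.2 * q.2.2.1 * q.2.2.2⁻¹ * q.2.1 * q.2.2.1⁻¹, q.2.2.1,
        q.2.2.2, q.2.2.2⁻¹ * q.2.1⁻¹ * q.2.2.2))
      (fun p => by simp [mul_assoc]),
    mk (fun p => (p.1 * p.2.1 * p.2.2.1 * p.2.2.2 * p.2.1⁻¹ * p.2.2.2⁻¹ * p.2.2.1⁻¹,
        p.2.2.1 * p.2.2.2, p.2.1, p.2.2.1))
      (fun q => (q.1 * q.2.1 * q.2.2.1 * q.2.1⁻¹ * q.2.2.1⁻¹, q.2.2.1, q.2.2.2,
        q.2.2.2⁻¹ * q.2.1))
      (fun p => by simp [mul_assoc]),
    mk (fun p => (p.1 * p.2.1 * p.2.2.1 * p.2.2.2 * p.2.1⁻¹ * p.2.2.1 * p.2.2.2,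
        p.2.2.2⁻¹ * p.2.2.1⁻¹ * p.2.1, p.2.2.1, p.2.2.2))
      (fun q => (q.1 * q.2.1 * q.2.2.2⁻¹ * q.2.2.1⁻¹ * q.2.1⁻¹ * q.2.2.2⁻¹ * q.2.2.1⁻¹,
        q.2.2.1 * q.2.2.2 * q.2.1, q.2.2.1, q.2.2.2))
      (fun p => by simp [mul_assoc]),
    mk (fun p => (p.1 * p.2.1 * p.2.1, p.2.1⁻¹, p.2.2.1, p.2.2.2))
      (fun q => (q.1 * q.2.1 * q.2.1, q.2.1⁻¹, q.2.2.1, q.2.2.2))
      (fun p => by simp [mul_assoc])]
  have h2 : (Finset.univ : Finset (G × G × G × G)) ⊆ Finset.univ.biUnion fun j : Fin 9 =>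
      Finset.univ.filter fun p : G × G × G × G =>
        χ (E j p).1 = χ ((E j p).1 * (E j p).2.1 * (E j p).2.1) := by
    rintro ⟨x, a, b, c⟩ -
    by_contra hn
    simp only [Finset.mem_biUnion, Finset.mem_univ, true_and, Finset.mem_filter, not_exists] at hn
    have a0 := hn 0
    have a1 := hn 1
    have a2 := hn 2
    have a3 := hn 3
    have a4 := hn 4
    have a5 := hn 5
    have a6 := hn 6
    have a7 := hn 7
    have a8 := hn 8
    simp only [E, mk, Matrix.cons_val, Equiv.ofBijective_apply, mul_assoc, mul_inv_cancel_left,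
      inv_mul_cancel_left, mul_inv_cancel, mul_one] at a0 a1 a2 a3 a4 a5 a6 a7 a8
    omega
  have h3 := (Finset.card_le_card h2).trans Finset.card_biUnion_le
  simp only [count_step, ← hM, Finset.card_univ, Fintype.card_prod, Finset.sum_const,
    Fintype.card_fin, smul_eq_mul] at h3
  have h4 : (Fintype.card G : ℝ) * (Fintype.card G * (Fintype.card G * Fintype.card G))
      ≤ 9 * (M * (Fintype.card G : ℝ) ^ 2) := by exact_mod_cast h3
  nlinarith [pow_pos hpos 2]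

end Pool.Agent.S11268
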