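import Pool.Statements.S11286
-- import your own Pool.Agent.* helpers here

set_option autoImplicit false
open Pool Pool.MP_c40d78_co

namespace Pool.Agent.S11286

/-- Three points on a circle about the origin and three points on the axis of the circle. -/
def C : Fin 6 → Fin 3 → ℤ :=
  ![![220, 0, 0], ![-132, 176, 0], ![-132, -176, 0], ![0, 0, 0], ![0, 0, 21], ![0, 0, -21]]

/-- Dual potentials certifying optimality of the matching. -/
def W : Fin 6 → ℤ := ![197, 197, 197, 23, 24, 24]

/-- The points. -/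
noncomputable def P (i : Fin 6) : EuclideanSpace ℝ (Fin 3) := WithLp.toLp 2 (fun k => (C i k : ℝ))

/-- The matching. -/
def s : Equiv.Perm (Fin 6) := Equiv.addRight 3

theorem hle : ∀ i j : Fin 6, i ≠ j → ∑ k, (C i k - C j k) ^ 2 ≤ (W i + W j) ^ 2 := by
  decide +kernel

theorem heq : ∀ i : Fin 6, ∑ k, (C i k - C (s i) k) ^ 2 = (W i + W (s i)) ^ 2 := by
  decide +kernel

theorem hpos : ∀ i : Fin 6, 0 ≤ W i := by decide +kernel

theorem hinj : Function.Injective C := by decide +kernel

theorem dist_P (i j : Fin 6) :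
    dist (P i) (P j) = Real.sqrt ((∑ k, (C i k - C j k) ^ 2 : ℤ) : ℝ) := by
  rw [EuclideanSpace.dist_eq]
  congr 1
  push_cast
  simp [P, Real.dist_eq, sq_abs]

theorem hW (i j : Fin 6) : (0 : ℝ) ≤ W i + W j := by
  have := add_nonneg (hpos i) (hpos j)
  exact_mod_cast this

theorem dist_le (i j : Fin 6) (h : i ≠ j) : dist (P i) (P j) ≤ W i + W j := by
  rw [dist_P, Real.sqrt_le_left (hW i j)]
  exact_mod_cast hle i j h

theorem dist_s (i : Fin 6) : dist (P i) (P (s i)) = W i + W (s i) := by
  rw [dist_P, heq]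
  push_cast
  exact Real.sqrt_sq (hW _ _)

/-- The negation of the preceding statement: For any dimension d and any 2n distinct points in R^d, every perfect matching maximizing the total Euclidean length of its edges has a point lying in all open balls whose diameters are the matched edges. -/
theorem result :
    ¬ (∀ (d n : ℕ) (p : Fin (2 * n) → EuclideanSpace ℝ (Fin d)), Function.Injective p →
      ∀ σ : Equiv.Perm (Fin (2 * n)), (∀ i, σ (σ i) = i) → (∀ i, σ i ≠ i) →
        (∀ τ : Equiv.Perm (Fin (2 * n)), (∀ i, τ (τ i) = i) → (∀ i, τ i ≠ i) →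
          ∑ i, dist (p i) (p (τ i)) ≤ ∑ i, dist (p i) (p (σ i))) →
        ∃ x : EuclideanSpace ℝ (Fin d), ∀ i,
          dist x (midpoint ℝ (p i) (p (σ i))) < dist (p i) (p (σ i)) / 2) := by
  intro h
  obtain ⟨x, hx⟩ := h 3 3 P
    (by
      intro i j hij
      apply hinj
      funext k
      have := congrArg (fun z => z k) hij
      simp only [P] at this
      exact_mod_cast this) s (by decide +kernel) (by decide +kernel)
    (by
      intro τ _ h2
      have e : ∀ ρ : Equiv.Perm (Fin 6), ∑ i, ((W i : ℝ) + W (ρ i)) = 2 * ∑ i, (W i : ℝ) := by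
        intro ρ
        rw [Finset.sum_add_distrib, Equiv.sum_comp ρ (fun i => (W i : ℝ))]
        ring
      calc ∑ i, dist (P i) (P (τ i)) ≤ ∑ i : Fin 6, ((W i : ℝ) + W (τ i)) :=
            Finset.sum_le_sum (fun i _ => dist_le i (τ i) (h2 i).symm)
        _ = ∑ i : Fin 6, ((W i : ℝ) + W (s i)) := by rw [e, e]
        _ = _ := Finset.sum_congr rfl (fun i _ => (dist_s i).symm))
  have key : ∀ i : Fin 6, ∑ k, (x k - ((C i k : ℝ) + C (s i) k) / 2) ^ 2 <
      (((W i : ℝ) + W (s i)) / 2) ^ 2 := by
    intro i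
    have := hx i
    rw [dist_s, EuclideanSpace.dist_eq] at this
    rw [Real.sqrt_lt' (lt_of_le_of_lt (Real.sqrt_nonneg _) this)] at this
    convert this using 2 with k
    simp [P, Real.dist_eq, sq_abs, midpoint_eq_smul_add]
    ring
  have k0 := key 0
  have k1 := key 1
  have k2 := key 2
  have s0 : s 0 = 3 := by decide
  have s1 : s 1 = 4 := by decide
  have s2 : s 2 = 5 := by decide
  rw [s0] at k0
  rw [s1] at k1
  rw [s2] at k2
  simp [Fin.sum_univ_three, C, W] at k0 k1 k2
  nlinarith [sq_nonneg (x 0), sq_nonneg (x 1), sq_nonneg (x 2)]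

end Pool.Agent.S11286
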