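import Pool.Statements.S11298
import Pool.Agent.Lib.helper33.ThetaC

set_option autoImplicit false
open Pool Pool.MP_c4704f_co

namespace Pool.Agent.S11298

open Finset Pool.Agent.Lib.helper33.Theta

/-- Complete multipartite hosts: the upper bound of Burr, Erdos and Lovasz. -/
lemma upper_host {n N : ℕ} (R : Fin n → Fin n → Prop) (hR : ∀ x y, R x y → R y x)
    (hU : ∀ σ : Fin N → Fin N → Bool, (∀ i j, σ i j = σ j i) →
      ∃ (b : Bool) (φ : Fin n → Fin N), ∀ x y, R x y → φ x ≠ φ y ∧ σ (φ x) (φ y) = b) :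
    ∃ (m : ℕ) (H : SimpleGraph (Fin m)), H.Colorable N ∧
      ∀ col : Fin m → Fin m → Bool, (∀ a b, col a b = col b a) →
        ∃ (f : Fin n → Fin m) (b : Bool), Function.Injective f ∧
          ∀ x y, R x y → H.Adj (f x) (f y) ∧ col (f x) (f y) = b := by
  obtain ⟨M, hM⟩ := ramsey2 (Fin N → Fin N → Bool) (N * n)
  let e : Fin M × Fin N ≃ Fin (M * N) := finProdFinEquiv
  let H : SimpleGraph (Fin (M * N)) :=
    { Adj := fun x y => (e.symm x).2 ≠ (e.symm y).2
      symm := ⟨fun x y h => h.symm⟩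
      loopless := ⟨fun x h => h rfl⟩ }
  refine ⟨M * N, H, ⟨SimpleGraph.Coloring.mk (fun x => (e.symm x).2) fun h => h⟩, ?_⟩
  intro col hcol
  obtain ⟨g, hg, ψ, hψ⟩ := hM fun a a' i j => col (e (a, i)) (e (a', j))
  obtain ⟨b, φ, hφ⟩ := hU (fun i j => ψ (min i j) (max i j))
    (fun i j => by rw [min_comm, max_comm])
  let pos : Fin n → Fin (N * n) := fun x => finProdFinEquiv (φ x, x)
  have hpos : ∀ x y, φ x < φ y → pos x < pos y := by
    intro x y h
    have h1 : (φ x).val + 1 ≤ (φ y).val := h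
    have h2 := x.2
    have h3 := Nat.mul_le_mul_left n h1
    change x.val + n * (φ x).val < y.val + n * (φ y).val
    rw [mul_add, mul_one] at h3
    omega
  have key : ∀ x y, φ x < φ y → R x y →
      col (e (g (pos x), φ x)) (e (g (pos y), φ y)) = b := by
    intro x y h hr
    have h1 := congrFun (congrFun (hψ _ _ (hpos x y h)) (φ x)) (φ y)
    have h2 := (hφ x y hr).2
    simp only [min_eq_left h.le, max_eq_right h.le] at h2
    exact h1.trans h2
  refine ⟨fun x => e (g (pos x), φ x), b, ?_, fun x y hr => ⟨?_, ?_⟩⟩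
  · intro x y h
    have h1 := hg.injective (Prod.mk.inj (e.injective h)).1
    exact (Prod.mk.inj (finProdFinEquiv.injective h1)).2
  · change (e.symm (e _)).2 ≠ (e.symm (e _)).2
    simp only [Equiv.symm_apply_apply]
    exact (hφ x y hr).1
  · rcases lt_or_gt_of_ne (hφ x y hr).1 with h | h
    · exact key x y h hr
    · rw [hcol]; exact key y x h (hR x y hr)

lemma ramsey_hom (n : ℕ) : ∃ N : ℕ, ∀ σ : Fin N → Fin N → Bool, (∀ i j, σ i j = σ j i) →
    ∃ (b : Bool) (φ : Fin n → Fin N), ∀ x y, x ≠ y → φ x ≠ φ y ∧ σ (φ x) (φ y) = b := by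
  obtain ⟨M, hM⟩ := ramsey2 Bool n
  refine ⟨M, fun σ hσ => ?_⟩
  obtain ⟨g, hg, b, hb⟩ := hM σ
  refine ⟨b, g, fun x y h => ⟨fun e => h (hg.injective e), ?_⟩⟩
  rcases lt_or_gt_of_ne h with h | h
  · exact hb x y h
  · rw [hσ]; exact hb y x h

/-- The cone over a graph with a large certificate maps to neither colour class of the blown-up
triangle-free graph. -/
lemma no_hom {V U : Type} [Fintype V] [DecidableEq V] [Fintype U] [DecidableEq U] {s : ℕ}
    {r : V → V → Prop} (hi : ∀ x, ¬ r x x) (hc : Cert r ((2 * s : ℕ) : ℝ))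
    {A : U → U → Prop} (htri : ∀ x y z, A x y → A x z → ¬ A y z)
    (hup : Up (fun x y => x ≠ y ∧ ¬ A x y) (2 * (s : ℕ)))
    (o : U × Fin s) (ψ : V → U × Fin s) (P : Prop)
    (h0 : ∀ x, (o.1 = (ψ x).1 ∨ A o.1 (ψ x).1) ↔ P)
    (h1 : ∀ x y, r x y → ψ x ≠ ψ y ∧ (((ψ x).1 = (ψ y).1 ∨ A (ψ x).1 (ψ y).1) ↔ P)) : False := by
  by_cases hP : P
  · have := hc.le_of_hom hi (up_complete (Fin s × Bool))
      (fun x => ((ψ x).2, decide (o.1 = (ψ x).1))) (by
        intro x y hr e
        obtain ⟨h2, h3⟩ := h1 x y hr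
        simp only [Prod.mk.injEq, decide_eq_decide] at e
        rcases h3.2 hP with h4 | h4
        · exact h2 (Prod.ext h4 e.1)
        · by_cases h5 : o.1 = (ψ x).1
          · have h6 := e.2.1 h5
            rw [← h5, ← h6] at h4
            exact htri _ _ _ h4 h4 h4
          · exact htri _ _ _ (((h0 x).2 hP).resolve_left h5)
              (((h0 y).2 hP).resolve_left fun h6 => h5 (e.2.2 h6)) h4)
    simp only [Fintype.card_prod, Fintype.card_fin, Fintype.card_bool] at this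
    push_cast at this
    linarith
  · have := hc.le_of_hom hi hup (fun x => (ψ x).1) (by
      intro x y hr
      have h3 := (h1 x y hr).2
      exact ⟨fun h => hP (h3.1 (Or.inl h)), fun h => hP (h3.1 (Or.inr h))⟩)
    push_cast at this
    linarith

/-- The negation of the preceding statement: There is c>0 such that for every finite graph G with an edge and every vertex v, the chromatic Ramsey number of G minus v is at least c times the chromatic Ramsey number of G. -/
theorem result :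
    ¬ (∃ c : ℝ, 0 < c ∧
      ∀ (n : ℕ) (G : SimpleGraph (Fin (n + 1))) (v : Fin (n + 1)),
        G.edgeSet.Nonempty →
          c * ((sInf {N : ℕ | ∃ (m : ℕ) (H : SimpleGraph (Fin m)), H.Colorable N ∧
                ∀ col : Fin m → Fin m → Bool, (∀ a b, col a b = col b a) →
                  ∃ (f : Fin (n + 1) → Fin m) (b : Bool),
                  Function.Injective f ∧
                  ∀ x y : Fin (n + 1), G.Adj x y →
                    H.Adj (f x) (f y) ∧ col (f x) (f y) = b} : ℕ) : ℝ)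
            ≤ ((sInf {N : ℕ | ∃ (m : ℕ) (H : SimpleGraph (Fin m)), H.Colorable N ∧
                ∀ col : Fin m → Fin m → Bool, (∀ a b, col a b = col b a) →
                  ∃ (f : Fin n → Fin m) (b : Bool),
                  Function.Injective f ∧
                  ∀ x y : Fin n, G.Adj (v.succAbove x) (v.succAbove y) →
                    H.Adj (f x) (f y) ∧ col (f x) (f y) = b} : ℕ) : ℝ)) := by
  classical
  rintro ⟨c, hc, H⟩
  obtain ⟨j, hj⟩ := exists_nat_gt (25 / c)
  have hj0 : 0 < j := by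
    have : (0 : ℝ) < j := lt_trans (by positivity) hj
    exact_mod_cast this
  obtain ⟨p, hp, hp1, hp2⟩ := Nat.exists_prime_lt_and_le_two_mul (2 * j ^ 2) (by positivity)
  have hj2 : 1 ≤ j ^ 2 := Nat.one_le_pow _ _ hj0
  obtain ⟨U, iU, dU, A, hU, hAs, htri, hup⟩ := exists_tf p (2 * j) hp (by omega) (by nlinarith)
  set s := p * (2 * j) with hs
  have hs0 : 1 ≤ s := Nat.mul_pos hp.pos (by omega)
  obtain ⟨V, iV, dV, r, hrs, hri, hcert, huniv⟩ := exists_universal (2 * s) (by omega)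
  have hV : Nonempty V := by
    obtain ⟨d, _, -, -, -, -, h⟩ := hcert
    by_contra hV
    rw [not_nonempty_iff] at hV
    simp at h
  obtain ⟨n, ⟨e⟩⟩ : ∃ n : ℕ, Nonempty (Fin n ≃ V) := ⟨_, ⟨(Fintype.equivFin V).symm⟩⟩
  let G : SimpleGraph (Fin (n + 1)) :=
    { Adj := fun x y => x ≠ y ∧ (x = 0 ∨ y = 0 ∨
        ∃ x' y' : Fin n, x = x'.succ ∧ y = y'.succ ∧ r (e x') (e y'))
      symm := ⟨fun x y h => ⟨h.1.symm, by
        rcases h.2 with h | h | ⟨x', y', a, b, h⟩
        · exact Or.inr (Or.inl h)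
        · exact Or.inl h
        · exact Or.inr (Or.inr ⟨y', x', b, a, hrs _ _ h⟩)⟩⟩
      loopless := ⟨fun x h => h.1 rfl⟩ }
  have hG0 : ∀ x : Fin n, G.Adj 0 x.succ := fun x => ⟨(Fin.succ_ne_zero x).symm, Or.inl rfl⟩
  have hG1 : ∀ x y : Fin n, r (e x) (e y) → G.Adj x.succ y.succ := fun x y h =>
    ⟨fun h' => hri (e x) (by rwa [← Fin.succ_injective _ h'] at h),
      Or.inr (Or.inr ⟨x, y, rfl, rfl, h⟩)⟩
  have hG2 : ∀ x y : Fin n, G.Adj x.succ y.succ → r (e x) (e y) := by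
    rintro x y ⟨-, h | h | ⟨x', y', a, b, h⟩⟩
    · exact absurd h (Fin.succ_ne_zero _)
    · exact absurd h (Fin.succ_ne_zero _)
    · rw [Fin.succ_injective _ a, Fin.succ_injective _ b]; exact h
  obtain ⟨v0⟩ := hV
  have hmain := H n G 0 ⟨s(0, (e.symm v0).succ), hG0 _⟩
  have hupper := Nat.sInf_le (s := {N : ℕ | ∃ (m : ℕ) (H : SimpleGraph (Fin m)), H.Colorable N ∧
      ∀ col : Fin m → Fin m → Bool, (∀ a b, col a b = col b a) →
        ∃ (f : Fin n → Fin m) (b : Bool), Function.Injective f ∧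
          ∀ x y : Fin n, G.Adj ((0 : Fin (n + 1)).succAbove x) ((0 : Fin (n + 1)).succAbove y) →
            H.Adj (f x) (f y) ∧ col (f x) (f y) = b}) (m := (2 * (2 * s) + 1) ^ 2)
    (upper_host _ (fun x y h => h.symm) (by
      intro σ hσ
      obtain ⟨b, φ, hφ⟩ := huniv σ hσ
      refine ⟨b, fun x => φ (e x), fun x y h => hφ _ _ (hG2 x y ?_)⟩
      simpa using h))
  have hne : Set.Nonempty {N : ℕ | ∃ (m : ℕ) (H : SimpleGraph (Fin m)), H.Colorable N ∧
      ∀ col : Fin m → Fin m → Bool, (∀ a b, col a b = col b a) →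
        ∃ (f : Fin (n + 1) → Fin m) (b : Bool), Function.Injective f ∧
          ∀ x y : Fin (n + 1), G.Adj x y → H.Adj (f x) (f y) ∧ col (f x) (f y) = b} := by
    obtain ⟨N, hN⟩ := ramsey_hom (n + 1)
    refine ⟨N, upper_host _ (fun x y h => h.symm) fun σ hσ => ?_⟩
    obtain ⟨b, φ, hφ⟩ := hN σ hσ
    exact ⟨b, φ, fun x y h => hφ x y h.ne⟩
  have hmem := Nat.sInf_mem hne
  generalize (sInf _ : ℕ) = X at hmem hmain
  generalize (sInf _ : ℕ) = Y at hupper hmain
  obtain ⟨m, K, ⟨C⟩, hK⟩ := hmem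
  have hlower : p * (p - 1) * s ≤ X := by
    by_contra hlt
    obtain ⟨ι⟩ : Nonempty (Fin X ↪ U × Fin s) :=
      Function.Embedding.nonempty_of_card_le (by simp [hU]; omega)
    obtain ⟨f, b, -, hf⟩ := hK
      (fun a a' => decide ((ι (C a)).1 = (ι (C a')).1 ∨ A (ι (C a)).1 (ι (C a')).1)) (by
        intro a a'
        rw [decide_eq_decide]
        exact ⟨fun h => h.imp Eq.symm (hAs _ _), fun h => h.imp Eq.symm (hAs _ _)⟩)
    refine no_hom hri hcert htri hup (ι (C (f 0))) (fun x => ι (C (f (e.symm x).succ)))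
      (b = true) (fun x => ?_) (fun x y hr => ?_)
    · rw [← (hf _ _ (hG0 (e.symm x))).2, decide_eq_true_iff]
    · obtain ⟨h1, h2⟩ := hf _ _ (hG1 (e.symm x) (e.symm y) (by simpa using hr))
      refine ⟨fun h => C.valid h1 (ι.injective h), ?_⟩
      rw [← h2, decide_eq_true_iff]
  have h1 : 2 * j ^ 2 * (p * s) ≤ X := by
    refine le_trans ?_ hlower
    calc 2 * j ^ 2 * (p * s) ≤ (p - 1) * (p * s) := Nat.mul_le_mul_right _ (by omega)
      _ = _ := by ring
  have h2 : Y ≤ 50 * j * (p * s) := by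
    calc Y ≤ (2 * (2 * s) + 1) ^ 2 := hupper
      _ ≤ (5 * s) ^ 2 := Nat.pow_le_pow_left (by omega) _
      _ = 50 * j * (p * s) := by rw [hs]; ring
  have h1' : 2 * (j : ℝ) ^ 2 * ((p * s : ℕ) : ℝ) ≤ X := by exact_mod_cast h1
  have h2' : (Y : ℝ) ≤ 50 * j * ((p * s : ℕ) : ℝ) := by exact_mod_cast h2
  have hps : (0 : ℝ) < ((p * s : ℕ) : ℝ) := by exact_mod_cast Nat.mul_pos hp.pos hs0
  have hjr : (0 : ℝ) < j := by exact_mod_cast hj0
  rw [div_lt_iff₀ hc] at hj
  have h3 : c * (2 * (j : ℝ) ^ 2 * ((p * s : ℕ) : ℝ)) ≤ 50 * j * ((p * s : ℕ) : ℝ) :=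
    (mul_le_mul_of_nonneg_left h1' hc.le).trans (hmain.trans h2')
  have h4 : 0 < (j * c - 25) * (2 * j * ((p * s : ℕ) : ℝ)) :=
    mul_pos (by linarith) (by positivity)
  nlinarith

end Pool.Agent.S11298
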