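import Pool.Statements.S11381
import Pool.Agent.Lib.helper25.EqE
import Pool.Agent.Lib.helper25.EqD

set_option autoImplicit false
open scoped Pointwise
open Pool Pool.MP_c81765_co

namespace Pool.Agent.S11381

open Pool.Agent.Lib.helper25 Pool.Agent.Lib.helper25.EqC Matrix in
lemma fin_step {n s r : ℕ} (A : Matrix (Fin n) (Fin n) ℤ) (τ : Fin n → ℤ) (v : Fin s → Fin n → ℤ)
    (hs : 0 < s) (hv : affineSpan ℝ (Set.range fun i => cst ℝ (v i)) = ⊤) (hr : 0 < r)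
    (hA : A ^ r = 1) (hτ : ∑ j ∈ Finset.range r, (A ^ j) *ᵥ τ = 0)
    (hP : ∀ i, ph A τ (cst ℝ (v i), 1) ∈ Cone v) (Pg : Set (Fin n → ℝ))
    (hg : ∀ (h : ℝ) x, 0 < h → (x ∈ h • Pg ↔ (x, h) ∈ Cone v ∧ ph A τ (x, h) = (x, h))) (k : ℕ)
    (hk : 0 < k) (z : Fin n → ℤ) : cst ℝ z ∈ affineSpan ℝ ((k : ℝ) • Pg) ↔ A *ᵥ z + k • τ = z := by
  have hk' : (0 : ℝ) < k := by exact_mod_cast hk
  have hr' : (0 : ℝ) < r := by exact_mod_cast hr
  constructor
  · intro h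
    rw [← ph_cst]
    refine affineSpan_induction (p := fun x => ph A τ (x, k) = (x, (k : ℝ))) h
      (fun x hx => ((hg _ _ hk').1 hx).2) fun c a b w ha hb hw => ?_
    have : (c • (a -ᵥ b) +ᵥ w, (k : ℝ)) = c • ((a, (k : ℝ)) - (b, (k : ℝ))) + (w, (k : ℝ)) := by simp
    rw [this, map_add, map_smul, map_sub, ha, hb, hw]
  intro hz
  have key : ∀ (x : Fin n → ℤ) (h : ℕ), 0 < h → (cst ℝ x, (h : ℝ)) ∈ Cone v →
      ((k : ℝ) / (r * h)) • cst ℝ (sz A τ r (x, h)) ∈ affineSpan ℝ ((k : ℝ) • Pg) := fun x h hh hx => by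
    have e : (((k : ℝ) / (r * h)) • cst ℝ (sz A τ r (x, h)), (k : ℝ)) =
        ((k : ℝ) / (r * h)) • sg A τ r (cst ℝ x, h) := by
      rw [sg_cst', Prod.smul_mk, smul_eq_mul]; congr 1; push_cast; field_simp
    refine subset_affineSpan ℝ _ ((hg _ _ hk').2 ?_)
    rw [e, map_smul, ph_sg A τ r hA hτ]
    exact ⟨Cone.smul (by positivity) (Cone.sg hP hx), rfl⟩
  obtain ⟨w, c, hc, hw, hu⟩ := exists_w hs hv fun _ : Unit => z - k • v ⟨0, hs⟩
  have := (affineSpan ℝ _).smul_vsub_vadd_mem ((c : ℝ) / k) (key _ c hc (hu ()).1) (key _ c hc hw)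
    (key (k • v ⟨0, hs⟩) k hk (by
      simpa only [map_nsmul, Prod.smul_mk, smul_eq_mul, mul_one, Nat.cast_smul_eq_nsmul ℝ k (cst ℝ _)] using
        Cone.smul hk'.le (Cone.gen (v := v) ⟨0, hs⟩)))
  convert this using 1
  have e : r • z = sz A τ r (w + (z - k • v ⟨0, hs⟩), c) - sz A τ r (w, c) + sz A τ r (k • v ⟨0, hs⟩, k) := by
    rw [← sz_fix hz, ← map_sub, ← map_add]; congr 1; simp
  have e' := congrArg (fun x => (r : ℝ)⁻¹ • cst ℝ x) e
  simp only [map_nsmul, ← Nat.cast_smul_eq_nsmul ℝ, inv_smul_smul₀ hr'.ne', map_add, map_sub] at e'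
  have hc' : (0 : ℝ) < c := by exact_mod_cast hc
  rw [e', vsub_eq_sub, vadd_eq_add, ← smul_sub, smul_smul, smul_add]
  congr 2 <;> field_simp

/-- For a finite group acting by affine lattice maps on Z^n and a full-dimensional invariant lattice polytope P, each g gives (dim P^g)! times the lattice-normalized volume of P^g, times det(I−ρ(g)) off the fixed space, divided by ind(P^g): a natural number. -/
theorem result :
    ∀ (n : ℕ) (G : Type) [Group G] [Fintype G]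
      (ρ : G →* Matrix.GeneralLinearGroup (Fin n) ℤ) (t : G → (Fin n → ℤ)),
      (∀ g h : G, t (g * h) = (ρ g).val.mulVec (t h) + t g) →
      ∀ (S : Finset (Fin n → ℤ)) (P : Set (Fin n → ℝ)),
      P = convexHull ℝ ((fun (z : Fin n → ℤ) (i : Fin n) => (z i : ℝ)) '' (S : Set (Fin n → ℤ))) →
      affineSpan ℝ P = ⊤ →
      (∀ g : G, (fun x : Fin n → ℝ =>
          ((ρ g).val.map (Int.cast : ℤ → ℝ)).mulVec x + (fun i => (t g i : ℝ))) '' P = P) →
      ∀ g : G,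
      ∀ Pg : Set (Fin n → ℝ),
      Pg = {x : Fin n → ℝ | x ∈ P ∧
        ((ρ g).val.map (Int.cast : ℤ → ℝ)).mulVec x + (fun i => (t g i : ℝ)) = x} →
      ∀ ind : ℕ,
      ind = sInf {k : ℕ | 0 < k ∧ ∃ z : Fin n → ℤ,
        (fun i => (z i : ℝ)) ∈ affineSpan ℝ ((k : ℝ) • Pg)} →
      ∀ d : ℕ, d = Module.finrank ℝ (affineSpan ℝ Pg).direction →
      ∀ D : ℤ,
      D = Polynomial.eval 1 (Polynomial.divByMonic (ρ g).val.charpoly
            ((Polynomial.X - Polynomial.C (1 : ℤ)) ^ ((ρ g).val.charpoly.rootMultiplicity 1))) →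
      ∃ N : ℕ, Filter.Tendsto
        (fun m : ℕ => (d.factorial : ℝ) *
          ((Set.ncard {z : Fin n → ℤ |
              (fun i => (z i : ℝ)) ∈ (((m * ind : ℕ) : ℝ)) • Pg} : ℝ) /
            (((m * ind : ℕ) : ℝ)) ^ d) * (D : ℝ) / (ind : ℝ))
        Filter.atTop (nhds (N : ℝ)) := by
  open Pool.Agent.Lib.helper25 Pool.Agent.Lib.helper25.EqC Matrix in
  intro n G _ _ ρ t ht S P hP hspan hinv g Pg hPg ind hind d hd D hD
  have hr : 0 < Fintype.card G := Fintype.card_pos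
  have hA : (ρ g).val ^ Fintype.card G = 1 := by
    rw [← Units.val_pow_eq_pow_val, ← map_pow, pow_card_eq_one, map_one, Units.val_one]
  have h1 : t 1 = 0 := by simpa using ht 1 1
  have hτ : ∑ j ∈ Finset.range (Fintype.card G), ((ρ g).val ^ j) *ᵥ t g = 0 := by
    have : ∀ k, t (g ^ k) = ∑ j ∈ Finset.range k, ((ρ g).val ^ j) *ᵥ t g := fun k => by
      induction k with
      | zero => simpa using h1
      | succ k ih => rw [pow_succ, ht, ih, Finset.sum_range_succ, map_pow, Units.val_pow_eq_pow_val, add_comm]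
    rw [← this, pow_card_eq_one, h1]
  let v : Fin S.card → Fin n → ℤ := fun i => (S.equivFin.symm i).1
  have hP' : P = convexHull ℝ (Set.range fun i => cst ℝ (v i)) := by
    rw [hP]; congr 1; ext x
    exact ⟨fun ⟨z, hz, e⟩ => ⟨S.equivFin ⟨z, hz⟩, by simp only [v, Equiv.symm_apply_apply]; exact e⟩,
      fun ⟨i, e⟩ => ⟨_, (S.equivFin.symm i).2, e⟩⟩
  have hv : affineSpan ℝ (Set.range fun i => cst ℝ (v i)) = ⊤ := by rw [← affineSpan_convexHull, ← hP', hspan]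
  have hs : 0 < S.card := by
    obtain ⟨_, i, -⟩ := AffineSubspace.nonempty_of_affineSpan_eq_top ℝ _ _ hv
    exact i.pos
  have hC : ∀ i, ph (ρ g).val (t g) (cst ℝ (v i), 1) ∈ Cone v := fun i => by
    rw [ph_apply, mem_cone one_pos, one_smul, one_smul, ← hP', ← hinv g]
    exact ⟨_, hP' ▸ subset_convexHull ℝ _ ⟨i, rfl⟩, rfl⟩
  have hg : ∀ (h : ℝ) x, 0 < h → (x ∈ h • Pg ↔ (x, h) ∈ Cone v ∧ ph (ρ g).val (t g) (x, h) = (x, h)) := by
    intro h x hh
    rw [mem_cone hh, ← hP', ph_apply, Prod.mk_left_inj, hPg]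
    constructor
    · rintro ⟨y, ⟨h1, h2⟩, rfl⟩
      exact ⟨⟨y, h1, rfl⟩, by rw [mulVec_smul, ← smul_add]; exact congrArg _ h2⟩
    · rintro ⟨⟨y, h1, rfl⟩, h2⟩
      rw [mulVec_smul, ← smul_add] at h2
      exact ⟨y, ⟨h1, smul_right_injective _ hh.ne' h2⟩, rfl⟩
  have hf := fin_step _ _ v hs hv hr hA hτ hC Pg hg
  have hmem : 0 < ind ∧ ∃ z : Fin n → ℤ, (fun i => (z i : ℝ)) ∈ affineSpan ℝ ((ind : ℝ) • Pg) := by
    rw [hind]
    exact Nat.sInf_mem (s := {k : ℕ | 0 < k ∧ ∃ z : Fin n → ℤ,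
      (fun i => (z i : ℝ)) ∈ affineSpan ℝ ((k : ℝ) • Pg)}) ⟨_, mul_pos hr one_pos, _,
        (hf _ (mul_pos hr one_pos) _).2 (fix_sz hA hτ 0 1)⟩
  obtain ⟨h0, z, hz⟩ := hmem
  replace hz := (hf _ h0 z).1 hz
  have hσ : ∀ x, (∑ k ∈ Finset.range (Fintype.card G), toLin' (ρ g).val ^ k) x =
      sz (ρ g).val (t g) (Fintype.card G) (x, 0) := fun x => by simp [sz, ← toLin'_pow]
  obtain ⟨he, D', hD'⟩ := EqD.dvdD _ hr hA _ _ rfl rfl (t g) (by rw [hσ]; simpa [sz] using hτ) ind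
    ⟨z, by simpa [sub_eq_iff_eq_add'] using hz.symm⟩ h0 fun k hk ⟨y, hy⟩ => hind ▸ Nat.sInf_le
      ⟨hk, y, (hf k hk y).2 (by rw [← hy]; simp)⟩
  obtain ⟨c, c1, c2⟩ := compare hs hv hr hA hτ hC _ (fun x => by
    simp only [Submodule.mem_toAddSubgroup, Submodule.mem_sup, LinearMap.mem_ker, hσ]
    simp [sub_eq_zero, eq_comm]) he
  have hY := goodY hr hA hτ hC (affineSpan ℝ Pg).direction fun h x y a1 a2 a3 a4 => by
    rcases h.eq_zero_or_pos with rfl | hh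
    · simp only [Nat.cast_zero] at a1 a3
      simp [Cone.zero a1, Cone.zero a3]
    have hh' : (0 : ℝ) < h := by exact_mod_cast hh
    obtain ⟨p, hp, rfl⟩ := (hg _ _ hh').2 ⟨a1, a2⟩
    obtain ⟨q, hq, rfl⟩ := (hg _ _ hh').2 ⟨a3, a4⟩
    rw [← smul_sub]
    exact Submodule.smul_mem _ _ (AffineSubspace.vsub_mem_direction (subset_affineSpan ℝ _ hp)
      (subset_affineSpan ℝ _ hq))
  obtain ⟨N, hN⟩ := squeeze hY h0 c1 fun h m e => c2 h (m • z) (by
    rw [e, mulVec_smul, mul_smul, ← smul_add, hz])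
  refine ⟨N * D', ?_⟩
  rw [Nat.cast_mul]
  refine (hN.mul_const (D' : ℝ)).congr' ?_
  filter_upwards [Filter.eventually_gt_atTop 0] with m hm
  have : {z : Fin n → ℤ | (fun i => (z i : ℝ)) ∈ (((m * ind : ℕ) : ℝ)) • Pg} = XX (ρ g).val (t g) v (m * ind) := by
    ext y
    exact (hg _ _ (by positivity)).trans (and_congr_right fun _ => ph_cst)
  rw [this, hD, hD', hd]
  push_cast
  field_simp

end Pool.Agent.S11381
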