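import Pool.Statements.S11450

set_option autoImplicit false
open Pool Pool.MP_cb399b_co

namespace Pool.Agent.S11450

open Finset

/-- Binary code of a subset. -/
def enc (S : Finset (Fin 9)) : ℕ := ∑ i ∈ S, 2 ^ (i : ℕ)

/-- Table of the 76 bases of the binary matroid with vectors
`a+d, a+e, a+c, a, c+d+e, c+d+e, c, d, e`. -/
def T : ℕ := 202061165401225464790215749021499159773517020277100659862955389938244764704967364803590337172980030438689241444380880710129522346391797760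

lemma enc_lt : ∀ S : Finset (Fin 9), enc S < 512 := by decide +kernel

lemma enc_bit : ∀ (S : Finset (Fin 9)) (e : Fin 9), (enc S).testBit e = true ↔ e ∈ S := by
  decide +kernel

lemma enc_ex : ∀ (S : Finset (Fin 9)) (a b : Fin 9), a ∈ S → b ∉ S →
    enc (insert b (S.erase a)) = enc S - 2 ^ (a : ℕ) + 2 ^ (b : ℕ) := by
  intro S a b ha hb
  have hb' : b ∉ S.erase a := fun h => hb (mem_of_mem_erase h)
  have := Finset.add_sum_erase S (fun i : Fin 9 => 2 ^ (i : ℕ)) ha
  unfold enc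
  rw [Finset.sum_insert hb', ← this]
  omega

set_option synthInstance.maxSize 1000 in
lemma exch : ∀ x < 512, T.testBit x = true → ∀ y < 512, T.testBit y = true → ∀ a : Fin 9,
    x.testBit a = true → ¬ y.testBit a = true → ∃ b : Fin 9, y.testBit b = true ∧
      ¬ x.testBit b = true ∧ T.testBit (x - 2 ^ (a : ℕ) + 2 ^ (b : ℕ)) = true := by
  decide +kernel

/-- The bases. -/
def IsB (X : Set (Fin 9)) : Prop := ∃ S : Finset (Fin 9), T.testBit (enc S) = true ∧ X = S

lemma exchange : Matroid.ExchangeProperty IsB := by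
  rintro X Y ⟨S, hS, rfl⟩ ⟨R, hR, rfl⟩ a ⟨ha1, ha2⟩
  obtain ⟨b, hb1, hb2, hb3⟩ := exch _ (enc_lt S) hS _ (enc_lt R) hR a ((enc_bit S a).mpr ha1)
    (fun h => ha2 ((enc_bit R a).mp h))
  rw [enc_bit] at hb1 hb2
  refine ⟨b, ⟨hb1, hb2⟩, insert b (S.erase a), ?_, by simp⟩
  rw [enc_ex S a b ha1 hb2]
  exact hb3

/-- The matroid. -/
noncomputable def MM : Matroid (Fin 9) :=
  Matroid.ofIsBaseOfFinite (E := Set.univ) (Set.toFinite _) IsB
    ⟨_, {0, 2, 4, 6}, by decide +kernel, rfl⟩ exchange (fun _ _ => Set.subset_univ _)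

lemma MM_base (X : Set (Fin 9)) : MM.IsBase X ↔ IsB X := Iff.rfl

lemma part (x : Fin 9) (S R : Finset (Fin 9)) (hS : T.testBit (enc S) = true)
    (hR : T.testBit (enc R) = true) (hd : Disjoint S R) (hu : S ∪ R = univ.erase x) :
    ∃ B : Fin 2 → Set (Fin 9), (∀ i, MM.IsBase (B i)) ∧
      (∀ i j, i ≠ j → Disjoint (B i) (B j)) ∧ (⋃ i, B i) = MM.E \ {x} := by
  refine ⟨![S, R], ?_, ?_, ?_⟩
  · intro i
    fin_cases i
    · exact ⟨S, hS, rfl⟩
    · exact ⟨R, hR, rfl⟩
  · intro i j hij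
    fin_cases i <;> fin_cases j
    · exact absurd rfl hij
    · exact Finset.disjoint_coe.mpr hd
    · exact Finset.disjoint_coe.mpr hd.symm
    · exact absurd rfl hij
  · ext e
    have : e ∈ S ∪ R ↔ e ∈ univ.erase x := by rw [hu]
    simp only [mem_union, mem_erase, mem_univ, and_true] at this
    simp only [Set.mem_iUnion, Fin.exists_fin_two]
    show (e ∈ (S : Set (Fin 9)) ∨ e ∈ (R : Set (Fin 9))) ↔ e ∈ Set.univ \ {x}
    simpa using this

lemma unpart (x : Fin 9) (B : Fin 2 → Set (Fin 9)) (h1 : ∀ i, MM.IsBase (B i))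
    (h2 : ∀ i j, i ≠ j → Disjoint (B i) (B j)) (h3 : (⋃ i, B i) = MM.E \ {x}) (i : Fin 2)
    (S : Finset (Fin 9)) (hS : B i = S) :
    x ∉ S ∧ T.testBit (enc ((univ.erase x) \ S)) = true := by
  obtain ⟨j, hij, hall⟩ := (by decide : ∀ i : Fin 2, ∃ j : Fin 2, i ≠ j ∧ ∀ k, k = i ∨ k = j) i
  obtain ⟨R, hR, hRe⟩ := h1 j
  have hmem : ∀ e, (e ∈ S ∨ e ∈ R) ↔ e ≠ x := by
    intro e
    have : e ∈ (⋃ i, B i) ↔ e ∈ Set.univ \ {x} := by rw [h3]; rfl
    simp only [Set.mem_iUnion, Set.mem_sdiff, Set.mem_univ, Set.mem_singleton_iff, true_and] at this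
    rw [ne_eq, ← this]
    constructor
    · rintro (h | h)
      · exact ⟨i, by rw [hS]; exact h⟩
      · exact ⟨j, by rw [hRe]; exact h⟩
    · rintro ⟨k, hk⟩
      rcases hall k with rfl | rfl
      · left; rw [hS] at hk; exact hk
      · right; rw [hRe] at hk; exact hk
  have hd := h2 i j hij
  rw [hS, hRe, Finset.disjoint_coe, Finset.disjoint_left] at hd
  refine ⟨fun h => (hmem x).mp (Or.inl h) rfl, ?_⟩
  have : (univ.erase x) \ S = R := by
    ext e
    have := hmem e
    have := @hd e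
    simp only [mem_sdiff, mem_erase, mem_univ, and_true]
    tauto
  rw [this]
  exact hR

lemma final : ∀ S : Finset (Fin 9), T.testBit (enc S) = true → (3 : Fin 9) ∉ S →
    T.testBit (enc ((univ.erase 3) \ S)) = true → (4 : Fin 9) ∉ S →
    ¬ T.testBit (enc ((univ.erase 4) \ S)) = true := by
  decide +kernel


/-- The negation of the preceding statement: For a finite matroid of rank r on E with ∣E∣ = kr+1, k ≥ 2, if E minus x and E minus y each split into k disjoint bases, then there are such splittings of both that have a basis in common. -/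
theorem result :
    ¬ (∀ (α : Type) (M : Matroid α) (k : ℕ), 2 ≤ k → M.E.Finite →
      M.E.encard = (k : ℕ∞) * M.eRank + 1 →
      ∀ x y : α, x ∈ M.E → y ∈ M.E →
      (∃ B : Fin k → Set α, (∀ i, M.IsBase (B i)) ∧
          (∀ i j, i ≠ j → Disjoint (B i) (B j)) ∧
          (⋃ i, B i) = M.E \ {x}) →
      (∃ B : Fin k → Set α, (∀ i, M.IsBase (B i)) ∧
          (∀ i j, i ≠ j → Disjoint (B i) (B j)) ∧
          (⋃ i, B i) = M.E \ {y}) →
      ∃ P Q : Fin k → Set α,
        (∀ i, M.IsBase (P i)) ∧ (∀ i j, i ≠ j → Disjoint (P i) (P j)) ∧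
          (⋃ i, P i) = M.E \ {x} ∧
        (∀ i, M.IsBase (Q i)) ∧ (∀ i j, i ≠ j → Disjoint (Q i) (Q j)) ∧
          (⋃ i, Q i) = M.E \ {y} ∧
        ∃ i j, P i = Q j) := by
  intro h
  have hb : MM.IsBase (({0, 2, 4, 6} : Finset (Fin 9)) : Set (Fin 9)) :=
    ⟨{0, 2, 4, 6}, by decide +kernel, rfl⟩
  have hr : MM.eRank = 4 := by
    rw [← hb.encard_eq_eRank, Set.encard_coe_eq_coe_finsetCard]
    rfl
  obtain ⟨P, Q, p1, p2, p3, q1, q2, q3, i, j, hij⟩ := h (Fin 9) MM 2 le_rfl (Set.toFinite _)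
    (by
      rw [hr]
      show (Set.univ : Set (Fin 9)).encard = _
      rw [Set.encard_univ]
      simp only [ENat.card_eq_coe_fintype_card, Fintype.card_fin]
      rfl) 3 4 (Set.mem_univ _) (Set.mem_univ _)
    (part 3 {0, 2, 4, 6} {1, 5, 7, 8} (by decide +kernel) (by decide +kernel) (by decide) (by decide))
    (part 4 {0, 1, 2, 5} {3, 6, 7, 8} (by decide +kernel) (by decide +kernel) (by decide) (by decide))
  obtain ⟨S, hS, hSe⟩ := p1 i
  have a := unpart 3 P p1 p2 p3 i S hSe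
  have b := unpart 4 Q q1 q2 q3 j S (hij ▸ hSe)
  exact final S hS a.1 a.2 b.1 b.2

end Pool.Agent.S11450
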