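import Pool.Statements.S11510
-- import your own Pool.Agent.* helpers here

set_option autoImplicit false
open Pool Pool.MP_cde6cd_co

namespace Pool.Agent.S11510

open Finset ComplexConjugate

/-- Fraction-free Schur complement test for positive definiteness. -/
def psd : (n : ℕ) → (Fin n → Fin n → GaussianInt) → Bool
  | 0, _ => true
  | n+1, H => decide (0 < (H 0 0).re) && decide ((H 0 0).im = 0) &&
      decide (∀ i : Fin n, H i.succ 0 = star (H 0 i.succ)) &&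
      psd n (fun i j => H 0 0 * H i.succ j.succ - H i.succ 0 * H 0 j.succ)

lemma psd_sound : ∀ (n : ℕ) (H : Fin n → Fin n → GaussianInt), psd n H = true →
    ∀ h : Fin n → ℂ, 0 ≤ (∑ i, ∑ j, conj (h i) * (H i j : ℂ) * h j).re
  | 0, _, _, h => by simp
  | n+1, H, hH, h => by
    simp only [psd, Bool.and_eq_true, decide_eq_true_eq] at hH
    obtain ⟨⟨⟨h1, h2⟩, h3⟩, h4⟩ := hH
    have ih := psd_sound n _ h4 (fun i => h i.succ)
    set d : ℝ := ((H 0 0).re : ℝ) with hd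
    have hdpos : 0 < d := by rw [hd]; exact_mod_cast h1
    have hd0 : (H 0 0 : ℂ) = (d : ℂ) := by
      rw [GaussianInt.toComplex_def, h2, hd, Int.cast_zero, zero_mul, add_zero,
        Complex.ofReal_intCast]
    set s : ℂ := ∑ j : Fin n, (H 0 j.succ : ℂ) * h j.succ with hs
    have hs' : ∑ i : Fin n, conj (h i.succ) * (H i.succ 0 : ℂ) = conj s := by
      rw [hs, map_sum]
      refine Finset.sum_congr rfl fun i _ => ?_
      rw [h3 i, GaussianInt.toComplex_star, map_mul, mul_comm]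
    set Q : ℂ := ∑ i : Fin n, ∑ j : Fin n, conj (h i.succ) * (H i.succ j.succ : ℂ) * h j.succ with hQ
    have e1 : (∑ i, ∑ j, conj (h i) * (H i j : ℂ) * h j)
        = conj (h 0) * d * h 0 + conj (h 0) * s + conj s * h 0 + Q := by
      rw [Fin.sum_univ_succ, Fin.sum_univ_succ, hd0]
      simp only [Fin.sum_univ_succ (f := fun j => conj (h (Fin.succ _)) * (H (Fin.succ _) j : ℂ) * h j)]
      rw [Finset.sum_add_distrib, ← hs', Finset.sum_mul, hs, Finset.mul_sum, hQ]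
      simp only [mul_assoc]
      ring
    have e2 : (∑ i : Fin n, ∑ j : Fin n, conj (h i.succ) *
        ((H 0 0 * H i.succ j.succ - H i.succ 0 * H 0 j.succ : GaussianInt) : ℂ) * h j.succ)
        = d * Q - conj s * s := by
      rw [← hs', hs, hQ, Finset.sum_mul_sum, Finset.mul_sum, ← Finset.sum_sub_distrib]
      refine Finset.sum_congr rfl fun i _ => ?_
      rw [Finset.mul_sum, ← Finset.sum_sub_distrib]
      refine Finset.sum_congr rfl fun j _ => ?_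
      rw [map_sub, map_mul, map_mul, hd0]
      ring
    rw [e2] at ih
    rw [e1]
    have key : d * (conj (h 0) * d * h 0 + conj (h 0) * s + conj s * h 0 + Q).re
        = Complex.normSq (d * h 0 + s) + (d * Q - conj s * s).re := by
      simp [Complex.normSq_apply]
      ring
    have : 0 ≤ d * (conj (h 0) * d * h 0 + conj (h 0) * s + conj s * h 0 + Q).re := by
      rw [key]; exact add_nonneg (Complex.normSq_nonneg _) ih
    exact (mul_nonneg_iff_of_pos_left hdpos).1 this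

def iw (j : Fin 4) : GaussianInt := ![⟨1, 0⟩, ⟨0, 1⟩, ⟨-1, 0⟩, ⟨0, -1⟩] j

def F (j : Fin 4) : GaussianInt := ![⟨3, 6⟩, ⟨5, 9⟩, ⟨-7, 9⟩, ⟨-3, 2⟩] j

def tab : List (List ℕ) := [[38, 38, 38, 38, 26103, 26103, 26103, 26103],
  [40, 34, 46, 37, 29918, 31084, 20089, 21987],
  [36, 35, 45, 61, 21303, 22337, 23509, 27914],
  [43, 33, 38, 40, 25804, 24013, 26860, 28268],
  [34, 46, 37, 40, 21987, 29918, 31084, 20089],
  [40, 43, 37, 32, 29662, 28731, 30771, 17001],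
  [35, 43, 43, 49, 25622, 29557, 21080, 19144],
  [37, 37, 46, 44, 27416, 20906, 31523, 19047],
  [35, 45, 61, 36, 27914, 21303, 22337, 23509],
  [43, 41, 51, 35, 17868, 28805, 27799, 21325],
  [47, 39, 47, 39, 21143, 26918, 21143, 26918],
  [43, 33, 67, 39, 25530, 21067, 18821, 28685],
  [33, 38, 40, 43, 28268, 25804, 24013, 26860],
  [40, 33, 40, 39, 30314, 25903, 29697, 20719],
  [36, 38, 35, 44, 26026, 24706, 27573, 28397],
  [37, 32, 40, 43, 30771, 17001, 29662, 28731],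
  [46, 37, 40, 34, 20089, 21987, 29918, 31084],
  [49, 38, 49, 38, 20860, 25513, 20860, 25513],
  [58, 32, 42, 41, 17721, 22337, 28767, 27851],
  [56, 36, 40, 49, 18378, 15167, 27952, 29928],
  [43, 37, 32, 40, 17001, 29662, 28731, 30771],
  [40, 43, 33, 38, 24013, 26860, 28268, 25804],
  [44, 37, 37, 46, 20906, 31523, 19047, 27416],
  [39, 43, 33, 67, 21067, 18821, 28685, 25530],
  [43, 43, 49, 35, 19144, 25622, 29557, 21080],
  [49, 56, 36, 40, 15167, 27952, 29928, 18378],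
  [67, 39, 43, 33, 18821, 28685, 25530, 21067],
  [47, 47, 47, 47, 21793, 21793, 21793, 21793],
  [37, 46, 44, 37, 19047, 27416, 20906, 31523],
  [43, 50, 46, 41, 21986, 22921, 25109, 19340],
  [43, 47, 35, 43, 14501, 26599, 25805, 29325],
  [43, 49, 35, 43, 21080, 19144, 25622, 29557],
  [45, 61, 36, 35, 23509, 27914, 21303, 22337],
  [42, 41, 58, 32, 28767, 27851, 17721, 22337],
  [44, 44, 44, 44, 22695, 22695, 22695, 22695],
  [50, 46, 41, 43, 19340, 21986, 22921, 25109],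
  [41, 51, 35, 43, 21325, 17868, 28805, 27799],
  [40, 39, 40, 33, 29697, 20719, 30314, 25903],
  [46, 41, 43, 50, 25109, 19340, 21986, 22921],
  [47, 35, 43, 43, 29325, 14501, 26599, 25805],
  [39, 47, 39, 47, 26918, 21143, 26918, 21143],
  [44, 36, 38, 35, 24706, 27573, 28397, 26026],
  [61, 36, 35, 45, 22337, 23509, 27914, 21303],
  [49, 35, 43, 43, 29557, 21080, 19144, 25622],
  [33, 67, 39, 43, 28685, 25530, 21067, 18821],
  [43, 43, 47, 35, 26599, 25805, 29325, 14501],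
  [41, 58, 32, 42, 22337, 28767, 27851, 17721],
  [46, 44, 37, 37, 31523, 19047, 27416, 20906],
  [38, 40, 43, 33, 26860, 28268, 25804, 24013],
  [40, 49, 56, 36, 27952, 29928, 18378, 15167],
  [41, 43, 50, 46, 22921, 25109, 19340, 21986],
  [38, 49, 38, 49, 25513, 20860, 25513, 20860],
  [33, 40, 39, 40, 20719, 30314, 25903, 29697],
  [35, 44, 36, 38, 27573, 28397, 26026, 24706],
  [35, 43, 43, 47, 25805, 29325, 14501, 26599],
  [32, 42, 41, 58, 27851, 17721, 22337, 28767],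
  [38, 35, 44, 36, 28397, 26026, 24706, 27573],
  [39, 39, 39, 39, 26024, 26024, 26024, 26024],
  [51, 35, 43, 41, 27799, 21325, 17868, 28805],
  [36, 40, 49, 56, 29928, 18378, 15167, 27952],
  [32, 40, 43, 37, 28731, 30771, 17001, 29662],
  [35, 43, 41, 51, 28805, 27799, 21325, 17868],
  [39, 40, 33, 40, 25903, 29697, 20719, 30314],
  [37, 40, 34, 46, 31084, 20089, 21987, 29918]]

def row (k : Fin 4 → Fin 4) : List ℕ :=
  tab.getD (16 * (k 1 - k 0).val + 4 * (k 2 - k 0).val + (k 3 - k 0).val) []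

def rr (k : Fin 4 → Fin 4) (t : Fin 4) : ℕ := (row k).getD t.val 0
def vv (k : Fin 4 → Fin 4) (t : Fin 4) : ℕ := (row k).getD (4 + t.val) 0

def AA (k : Fin 4 → Fin 4) (t y : Fin 4) : GaussianInt := F (y + t) * iw (k t * y)

def HH (k : Fin 4 → Fin 4) (y z : Fin 4) : GaussianInt :=
  (if y = z then (vv k y : GaussianInt) else 0) -
    ((rr k 0 : GaussianInt) * (star (AA k 0 y) * AA k 0 z) +
     (rr k 1 : GaussianInt) * (star (AA k 1 y) * AA k 1 z) +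
     (rr k 2 : GaussianInt) * (star (AA k 2 y) * AA k 2 z) +
     (rr k 3 : GaussianInt) * (star (AA k 3 y) * AA k 3 z))

def chk (k : Fin 4 → Fin 4) : Bool :=
  psd 4 (HH k) && decide (0 < rr k 0) && decide (0 < rr k 1) && decide (0 < rr k 2) &&
    decide (0 < rr k 3) &&
    decide ((1000000 / rr k 0 + 1) + (1000000 / rr k 1 + 1) + (1000000 / rr k 2 + 1) +
      (1000000 / rr k 3 + 1) + (vv k 0 + vv k 1 + vv k 2 + vv k 3) ≤ 212701)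

lemma chk_all' : ∀ a b c d : Fin 4, chk ![a, b, c, d] = true := by decide +kernel

lemma chk_all (k : Fin 4 → Fin 4) : chk k = true := by
  have : k = ![k 0, k 1, k 2, k 3] := by
    funext i; fin_cases i <;> rfl
  rw [this]; exact chk_all' _ _ _ _

lemma amgm (r : ℕ) (hr : 0 < r) (x : ℝ) :
    2000 * x ≤ ((1000000 / r + 1 : ℕ) : ℝ) + r * x ^ 2 := by
  have h1 : 1000000 ≤ r * (1000000 / r + 1) := (Nat.lt_mul_div_succ _ hr).le
  have h2 : (1000000 : ℝ) ≤ r * ((1000000 / r + 1 : ℕ) : ℝ) := by exact_mod_cast h1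
  have hr' : (0 : ℝ) < r := by exact_mod_cast hr
  by_contra hc
  push Not at hc
  have := mul_lt_mul_of_pos_left hc hr'
  nlinarith [sq_nonneg ((r : ℝ) * x - 1000)]

lemma sdp_bound (k : Fin 4 → Fin 4) (h : Fin 4 → ℂ) (hh : ∀ y, ‖h y‖ ≤ 1) :
    2000 * ∑ t, ‖∑ y, (AA k t y : ℂ) * h y‖ ≤ 212701 := by
  have hc := chk_all k
  simp only [chk, Bool.and_eq_true, decide_eq_true_eq] at hc
  obtain ⟨⟨⟨⟨⟨hp, r0⟩, r1⟩, r2⟩, r3⟩, hC⟩ := hc
  have hq := psd_sound 4 _ hp h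
  have e : (∑ i, ∑ j, conj (h i) * (HH k i j : ℂ) * h j)
      = ∑ y, (vv k y : ℂ) * (conj (h y) * h y) -
        ∑ t, (rr k t : ℂ) * (conj (∑ y, (AA k t y : ℂ) * h y) * ∑ y, (AA k t y : ℂ) * h y) := by
    simp only [Fin.sum_univ_four, HH, map_sub, map_add, map_mul, GaussianInt.toComplex_star,
      map_natCast]
    simp
    ring
  rw [e] at hq
  simp only [Complex.conj_mul'] at hq
  have hq' : ∑ t, (rr k t : ℝ) * ‖∑ y, (AA k t y : ℂ) * h y‖ ^ 2 ≤ ∑ y, (vv k y : ℝ) * ‖h y‖ ^ 2 := by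
    have e2 : (∑ y, (vv k y : ℂ) * ((‖h y‖ : ℂ) ^ 2) -
        ∑ t, (rr k t : ℂ) * ((‖∑ y, (AA k t y : ℂ) * h y‖ : ℂ) ^ 2))
        = ((∑ y, (vv k y : ℝ) * ‖h y‖ ^ 2 -
          ∑ t, (rr k t : ℝ) * ‖∑ y, (AA k t y : ℂ) * h y‖ ^ 2 : ℝ) : ℂ) := by
      push_cast; rfl
    rw [e2, Complex.ofReal_re] at hq
    linarith
  have hv : ∑ y, (vv k y : ℝ) * ‖h y‖ ^ 2 ≤ ∑ y, (vv k y : ℝ) := by
    refine Finset.sum_le_sum fun y _ => ?_
    have : ‖h y‖ ^ 2 ≤ 1 := pow_le_one₀ (norm_nonneg _) (hh y)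
    exact mul_le_of_le_one_right (Nat.cast_nonneg _) this
  have hC' : (((1000000 / rr k 0 + 1 : ℕ) : ℝ) + ((1000000 / rr k 1 + 1 : ℕ) : ℝ) +
      ((1000000 / rr k 2 + 1 : ℕ) : ℝ) + ((1000000 / rr k 3 + 1 : ℕ) : ℝ) +
      ((vv k 0 : ℝ) + vv k 1 + vv k 2 + vv k 3)) ≤ 212701 := by exact_mod_cast hC
  have a0 := amgm _ r0 ‖∑ y, (AA k 0 y : ℂ) * h y‖
  have a1 := amgm _ r1 ‖∑ y, (AA k 1 y : ℂ) * h y‖
  have a2 := amgm _ r2 ‖∑ y, (AA k 2 y : ℂ) * h y‖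
  have a3 := amgm _ r3 ‖∑ y, (AA k 3 y : ℂ) * h y‖
  have hq2 := hq'.trans hv
  rw [Fin.sum_univ_four (fun t => (rr k t : ℝ) * ‖∑ y, (AA k t y : ℂ) * h y‖ ^ 2),
    Fin.sum_univ_four (fun y => (vv k y : ℝ))] at hq2
  rw [Fin.sum_univ_four (fun t => ‖∑ y, (AA k t y : ℂ) * h y‖)]
  linarith

lemma iw0 : (iw 0 : ℂ) = 1 := by simp [iw, GaussianInt.toComplex_def]
lemma iw1 : (iw 1 : ℂ) = Complex.I := by simp [iw, GaussianInt.toComplex_def]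
lemma iw2 : (iw 2 : ℂ) = -1 := by simp [iw, GaussianInt.toComplex_def]
lemma iw3 : (iw 3 : ℂ) = -Complex.I := by simp [iw, GaussianInt.toComplex_def]

/-- Fourier transform on the cyclic group of order four. -/
noncomputable def ft (m : Fin 4 → ℂ) (k : Fin 4) : ℂ := ∑ y, (iw (k * y) : ℂ) * m y

lemma ft0 (m : Fin 4 → ℂ) : ft m 0 = m 0 + m 1 + m 2 + m 3 := by
  simp only [ft, Fin.sum_univ_four, zero_mul, iw0, one_mul]
lemma ft1 (m : Fin 4 → ℂ) :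
    ft m 1 = m 0 + Complex.I * m 1 - m 2 - Complex.I * m 3 := by
  simp only [ft, Fin.sum_univ_four, one_mul, iw0, iw1, iw2, iw3]; ring
lemma ft2 (m : Fin 4 → ℂ) : ft m 2 = m 0 - m 1 + m 2 - m 3 := by
  have e0 : (2 : Fin 4) * 0 = 0 := rfl
  have e1 : (2 : Fin 4) * 1 = 2 := rfl
  have e2 : (2 : Fin 4) * 2 = 0 := rfl
  have e3 : (2 : Fin 4) * 3 = 2 := rfl
  simp only [ft, Fin.sum_univ_four, e0, e1, e2, e3, iw0, iw2]; ring
lemma ft3 (m : Fin 4 → ℂ) :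
    ft m 3 = m 0 - Complex.I * m 1 - m 2 + Complex.I * m 3 := by
  have e0 : (3 : Fin 4) * 0 = 0 := rfl
  have e1 : (3 : Fin 4) * 1 = 3 := rfl
  have e2 : (3 : Fin 4) * 2 = 2 := rfl
  have e3 : (3 : Fin 4) * 3 = 1 := rfl
  simp only [ft, Fin.sum_univ_four, e0, e1, e2, e3, iw0, iw1, iw2, iw3]; ring

lemma parseval (a : Fin 4 → ℂ) (ha : ∀ x, ‖a x‖ ≤ 1) :
    ‖ft a 0‖ ^ 2 + ‖ft a 1‖ ^ 2 + ‖ft a 2‖ ^ 2 + ‖ft a 3‖ ^ 2 ≤ 16 := by
  have e : ‖ft a 0‖ ^ 2 + ‖ft a 1‖ ^ 2 + ‖ft a 2‖ ^ 2 + ‖ft a 3‖ ^ 2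
      = 4 * (‖a 0‖ ^ 2 + ‖a 1‖ ^ 2 + ‖a 2‖ ^ 2 + ‖a 3‖ ^ 2) := by
    simp only [Complex.sq_norm, ft0, ft1, ft2, ft3, Complex.normSq_apply]
    simp
    ring
  have h : ∀ x, ‖a x‖ ^ 2 ≤ 1 := fun x => pow_le_one₀ (norm_nonneg _) (ha x)
  rw [e]; linarith [h 0, h 1, h 2, h 3]

lemma conv_id (m a b : Fin 4 → ℂ) :
    4 * ∑ x, ∑ y, m (x + y) * a x * b y =
      ft m 0 * ft a 0 * ft b 0 + ft m 1 * ft a 3 * ft b 3 + ft m 2 * ft a 2 * ft b 2 +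
        ft m 3 * ft a 1 * ft b 1 := by
  have e11 : (1 : Fin 4) + 1 = 2 := rfl
  have e12 : (1 : Fin 4) + 2 = 3 := rfl
  have e13 : (1 : Fin 4) + 3 = 0 := rfl
  have e21 : (2 : Fin 4) + 1 = 3 := rfl
  have e22 : (2 : Fin 4) + 2 = 0 := rfl
  have e23 : (2 : Fin 4) + 3 = 1 := rfl
  have e31 : (3 : Fin 4) + 1 = 0 := rfl
  have e32 : (3 : Fin 4) + 2 = 1 := rfl
  have e33 : (3 : Fin 4) + 3 = 2 := rfl
  simp only [Fin.sum_univ_four, ft0, ft1, ft2, ft3, zero_add, add_zero, e11, e12, e13, e21, e22,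
    e23, e31, e32, e33]
  have hI : Complex.I ^ 2 = -1 := Complex.I_sq
  ring_nf
  simp only [hI]
  ring

lemma conv_bound (m a b : Fin 4 → ℂ) (ha : ∀ x, ‖a x‖ ≤ 1) (hb : ∀ x, ‖b x‖ ≤ 1) :
    ∃ k, ‖∑ x, ∑ y, m (x + y) * a x * b y‖ ≤ 4 * ‖ft m k‖ := by
  obtain ⟨k, -, hk⟩ := Finset.exists_max_image Finset.univ (fun k => ‖ft m k‖)
    Finset.univ_nonempty
  refine ⟨k, ?_⟩
  have pa := parseval a ha
  have pb := parseval b hb
  have t : ∀ i j : Fin 4, ‖ft m i * ft a j * ft b j‖ ≤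
      ‖ft m k‖ * ((‖ft a j‖ ^ 2 + ‖ft b j‖ ^ 2) / 2) := by
    intro i j
    rw [norm_mul, norm_mul, mul_assoc]
    refine mul_le_mul (hk i (Finset.mem_univ _)) ?_ (by positivity) (norm_nonneg _)
    nlinarith [sq_nonneg (‖ft a j‖ - ‖ft b j‖)]
  have e := congrArg norm (conv_id m a b)
  rw [norm_mul] at e
  have n4 : ‖(4 : ℂ)‖ = 4 := by simp
  rw [n4] at e
  have tri : ‖ft m 0 * ft a 0 * ft b 0 + ft m 1 * ft a 3 * ft b 3 + ft m 2 * ft a 2 * ft b 2 +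
        ft m 3 * ft a 1 * ft b 1‖ ≤ ‖ft m 0 * ft a 0 * ft b 0‖ + ‖ft m 1 * ft a 3 * ft b 3‖ +
        ‖ft m 2 * ft a 2 * ft b 2‖ + ‖ft m 3 * ft a 1 * ft b 1‖ :=
    (norm_add_le _ _).trans (add_le_add_left ((norm_add_le _ _).trans
      (add_le_add_left (norm_add_le _ _) _)) _)
  have t0 := t 0 0
  have t1 := t 1 3
  have t2 := t 2 2
  have t3 := t 3 1
  have hk0 := norm_nonneg (ft m k)
  nlinarith

/-- The separating functional. -/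
noncomputable def LL (φ : Fin 4 → ℂ) : ℝ := (∑ g, (F g : ℂ) * φ g).re

lemma restricted_bound (f₁ f₂ : Fin 4 → Fin 4 → ℂ) (h : Fin 4 → ℂ)
    (h1 : ∀ a b, ‖f₁ a b‖ ≤ 1) (h2 : ∀ a b, ‖f₂ a b‖ ≤ 1) (h3 : ∀ a, ‖h a‖ ≤ 1) :
    (∑ g, (F g : ℂ) * ∑ x₁, ∑ x₂, f₁ x₂ (g - x₁ - x₂) * f₂ x₁ (g - x₁ - x₂) * h (x₁ + x₂)).re
      ≤ 212701 / 500 := by
  have e : (∑ g, (F g : ℂ) * ∑ x₁, ∑ x₂, f₁ x₂ (g - x₁ - x₂) * f₂ x₁ (g - x₁ - x₂) * h (x₁ + x₂))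
      = ∑ t, ∑ x₁, ∑ x₂, ((F (x₁ + x₂ + t) : ℂ) * h (x₁ + x₂)) * f₂ x₁ t * f₁ x₂ t := by
    simp only [Finset.mul_sum]
    rw [Finset.sum_comm]
    conv_rhs => rw [Finset.sum_comm]
    refine Finset.sum_congr rfl fun x₁ _ => ?_
    rw [Finset.sum_comm]
    conv_rhs => rw [Finset.sum_comm]
    refine Finset.sum_congr rfl fun x₂ _ => ?_
    refine (Fintype.sum_equiv (Equiv.addLeft (x₁ + x₂)) _ _ fun t => ?_).symm
    have : x₁ + x₂ + t - x₁ - x₂ = t := by abel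
    simp only [Equiv.coe_addLeft, this]
    ring
  rw [e]
  choose k hk using fun t => conv_bound (fun y => (F (y + t) : ℂ) * h y) (fun x => f₂ x t)
    (fun x => f₁ x t) (fun x => h2 x t) (fun x => h1 x t)
  have hs := sdp_bound k h h3
  have e2 : ∀ t, ft (fun y => (F (y + t) : ℂ) * h y) (k t) = ∑ y, (AA k t y : ℂ) * h y := by
    intro t
    refine Finset.sum_congr rfl fun y _ => ?_
    simp only [AA, map_mul]; ring
  calc _ ≤ ‖∑ t, ∑ x₁, ∑ x₂, ((F (x₁ + x₂ + t) : ℂ) * h (x₁ + x₂)) * f₂ x₁ t * f₁ x₂ t‖ :=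
        Complex.re_le_norm _
    _ ≤ ∑ t, ‖∑ x₁, ∑ x₂, ((F (x₁ + x₂ + t) : ℂ) * h (x₁ + x₂)) * f₂ x₁ t * f₁ x₂ t‖ :=
        norm_sum_le _ _
    _ ≤ ∑ t, 4 * ‖∑ y, (AA k t y : ℂ) * h y‖ := by
        refine Finset.sum_le_sum fun t _ => ?_
        rw [← e2]; exact hk t
    _ ≤ 212701 / 500 := by
        rw [← Finset.mul_sum]; linarith

def g0 : Fin 4 → Fin 4 → GaussianInt := ![![⟨-997, -68⟩, ⟨630, 776⟩, ⟨-626, -779⟩, ⟨-944, -327⟩],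
    ![⟨987, -155⟩, ⟨-577, -816⟩, ⟨997, -77⟩, ⟨-737, 675⟩],
    ![⟨955, -293⟩, ⟨-785, -619⟩, ⟨-977, -211⟩, ⟨-920, -389⟩],
    ![⟨-889, 456⟩, ⟨597, 801⟩, ⟨994, -107⟩, ⟨932, 361⟩]]
def g1 : Fin 4 → Fin 4 → GaussianInt := ![![⟨693, -720⟩, ⟨492, 870⟩, ⟨-983, -178⟩, ⟨-857, 515⟩],
    ![⟨999, -28⟩, ⟨316, 948⟩, ⟨154, 987⟩, ⟨941, -336⟩],
    ![⟨999, -34⟩, ⟨38, 999⟩, ⟨789, 614⟩, ⟨-361, 932⟩],
    ![⟨-183, 983⟩, ⟨-999, -34⟩, ⟨966, -255⟩, ⟨297, -954⟩]]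
def g2 : Fin 4 → Fin 4 → GaussianInt := ![![⟨-999, 11⟩, ⟨948, -315⟩, ⟨417, -908⟩, ⟨-286, 958⟩],
    ![⟨-475, 879⟩, ⟨-752, -658⟩, ⟨888, 459⟩, ⟨-969, 243⟩],
    ![⟨876, 481⟩, ⟨582, -812⟩, ⟨943, -332⟩, ⟨-716, 697⟩],
    ![⟨100, 994⟩, ⟨-644, -764⟩, ⟨-980, -195⟩, ⟨927, -372⟩]]

lemma g_norm : ∀ a b : Fin 4, (g0 a b).norm ≤ 1000000 ∧ (g1 a b).norm ≤ 1000000 ∧
    (g2 a b).norm ≤ 1000000 := by decide +kernel

lemma norm_div_le (z : GaussianInt) (hz : z.norm ≤ 1000000) : ‖(z : ℂ) / 1000‖ ≤ 1 := by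
  rw [norm_div]
  have n : ‖(1000 : ℂ)‖ = 1000 := by simp
  rw [n, div_le_one (by norm_num)]
  have h1 : ‖(z : ℂ)‖ ^ 2 = (z.norm : ℝ) := by
    rw [Complex.sq_norm, GaussianInt.intCast_real_norm]
  have h2 : (z.norm : ℝ) ≤ 1000000 := by exact_mod_cast hz
  nlinarith [norm_nonneg (z : ℂ)]

lemma tot_val : (∑ g : Fin 4, ∑ x₁ : Fin 4, ∑ x₂ : Fin 4,
    F g * (g0 x₂ (g - x₁ - x₂) * g1 x₁ (g - x₁ - x₂) * g2 x₁ x₂)).re = 429069606043 := by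
  decide +kernel

/-- The negation of the preceding statement: For every finite abelian group G, the convex hull of the averages E over x1+x2+x3=g of f1(x2,x3)f2(x1,x3)f3(x1,x2), with complex f_i bounded by 1, equals the convex hull obtained when f3(x1,x2) is replaced by h(x1+x2). -/
theorem result :
    ¬ (∀ (G : Type) [AddCommGroup G] [Fintype G],
      convexHull ℝ {φ : G → ℂ | ∃ f₁ f₂ f₃ : G → G → ℂ,
          (∀ a b, ‖f₁ a b‖ ≤ 1) ∧ (∀ a b, ‖f₂ a b‖ ≤ 1) ∧ (∀ a b, ‖f₃ a b‖ ≤ 1) ∧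
          φ = fun g => ((Fintype.card G : ℂ) ^ 2)⁻¹ *
            ∑ x₁ : G, ∑ x₂ : G, f₁ x₂ (g - x₁ - x₂) * f₂ x₁ (g - x₁ - x₂) * f₃ x₁ x₂}
      = convexHull ℝ {φ : G → ℂ | ∃ f₁ f₂ : G → G → ℂ, ∃ h : G → ℂ,
          (∀ a b, ‖f₁ a b‖ ≤ 1) ∧ (∀ a b, ‖f₂ a b‖ ≤ 1) ∧ (∀ a, ‖h a‖ ≤ 1) ∧
          φ = fun g => ((Fintype.card G : ℂ) ^ 2)⁻¹ *
            ∑ x₁ : G, ∑ x₂ : G, f₁ x₂ (g - x₁ - x₂) * f₂ x₁ (g - x₁ - x₂) * h (x₁ + x₂)}) := by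
  intro H
  have hE := H (Fin 4)
  have hconv : Convex ℝ {φ : Fin 4 → ℂ | LL φ ≤ 212701 / 8000} := by
    refine convex_halfSpace_le (f := LL) ⟨?_, ?_⟩ _
    · intro x y
      simp only [LL, Pi.add_apply, mul_add, Finset.sum_add_distrib, Complex.add_re]
    · intro c x
      simp only [LL, Pi.smul_apply, Complex.real_smul, smul_eq_mul]
      rw [← Complex.re_ofReal_mul, Finset.mul_sum]
      congr 1
      refine Finset.sum_congr rfl fun g _ => ?_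
      ring
  have hsub := convexHull_min (𝕜 := ℝ) (s := {φ : Fin 4 → ℂ | ∃ f₁ f₂ : Fin 4 → Fin 4 → ℂ,
      ∃ h : Fin 4 → ℂ,
          (∀ a b, ‖f₁ a b‖ ≤ 1) ∧ (∀ a b, ‖f₂ a b‖ ≤ 1) ∧ (∀ a, ‖h a‖ ≤ 1) ∧
          φ = fun g => ((Fintype.card (Fin 4) : ℂ) ^ 2)⁻¹ *
            ∑ x₁ : Fin 4, ∑ x₂ : Fin 4,
              f₁ x₂ (g - x₁ - x₂) * f₂ x₁ (g - x₁ - x₂) * h (x₁ + x₂)}) (by
    rintro φ ⟨f₁, f₂, h, h1, h2, h3, rfl⟩
    have hb := restricted_bound f₁ f₂ h h1 h2 h3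
    simp only [Set.mem_ofPred_eq, LL, Fintype.card_fin]
    have e : (∑ g, (F g : ℂ) * ((((4 : ℕ) : ℂ) ^ 2)⁻¹ * ∑ x₁ : Fin 4, ∑ x₂ : Fin 4,
        f₁ x₂ (g - x₁ - x₂) * f₂ x₁ (g - x₁ - x₂) * h (x₁ + x₂)))
        = ((1 / 16 : ℝ) : ℂ) * ∑ g, (F g : ℂ) * ∑ x₁ : Fin 4, ∑ x₂ : Fin 4,
        f₁ x₂ (g - x₁ - x₂) * f₂ x₁ (g - x₁ - x₂) * h (x₁ + x₂) := by
      rw [Finset.mul_sum]
      refine Finset.sum_congr rfl fun g _ => ?_
      push_cast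
      ring
    rw [e, Complex.re_ofReal_mul]
    linarith) hconv
  rw [← hE] at hsub
  have hmem := hsub (subset_convexHull ℝ _ ⟨fun a b => (g0 a b : ℂ) / 1000,
    fun a b => (g1 a b : ℂ) / 1000, fun a b => (g2 a b : ℂ) / 1000,
    fun a b => norm_div_le _ (g_norm a b).1, fun a b => norm_div_le _ (g_norm a b).2.1,
    fun a b => norm_div_le _ (g_norm a b).2.2, rfl⟩)
  simp only [Set.mem_ofPred_eq, LL, Fintype.card_fin] at hmem
  have e : (∑ g, (F g : ℂ) * ((((4 : ℕ) : ℂ) ^ 2)⁻¹ * ∑ x₁ : Fin 4, ∑ x₂ : Fin 4,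
        (g0 x₂ (g - x₁ - x₂) : ℂ) / 1000 * ((g1 x₁ (g - x₁ - x₂) : ℂ) / 1000) *
          ((g2 x₁ x₂ : ℂ) / 1000)))
      = ((1 / 16000000000 : ℝ) : ℂ) * ((∑ g : Fin 4, ∑ x₁ : Fin 4, ∑ x₂ : Fin 4,
        F g * (g0 x₂ (g - x₁ - x₂) * g1 x₁ (g - x₁ - x₂) * g2 x₁ x₂) : GaussianInt) : ℂ) := by
    simp only [map_sum, map_mul, Finset.mul_sum]
    refine Finset.sum_congr rfl fun g _ => Finset.sum_congr rfl fun x₁ _ =>
      Finset.sum_congr rfl fun x₂ _ => ?_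
    push_cast
    ring
  rw [e, Complex.re_ofReal_mul, ← GaussianInt.intCast_re, tot_val] at hmem
  norm_num at hmem

end Pool.Agent.S11510
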