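import Pool.Statements.S11520

set_option autoImplicit false
open MeasureTheory
open Pool Pool.MP_ced1be_co

namespace Pool.Agent.S11520

section alg
variable {R : Type*} [CommRing R]

def d3 (a1 a2 a3 b1 b2 b3 c1 c2 c3 : R) : R :=
  a1 * (b2 * c3 - b3 * c2) - a2 * (b1 * c3 - b3 * c1) + a3 * (b1 * c2 - b2 * c1)

def cr (a b c : R × R × R × R) : R × R × R × R :=
  (d3 a.2.1 a.2.2.1 a.2.2.2 b.2.1 b.2.2.1 b.2.2.2 c.2.1 c.2.2.1 c.2.2.2,
   - d3 a.1 a.2.2.1 a.2.2.2 b.1 b.2.2.1 b.2.2.2 c.1 c.2.2.1 c.2.2.2,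
   d3 a.1 a.2.1 a.2.2.2 b.1 b.2.1 b.2.2.2 c.1 c.2.1 c.2.2.2,
   - d3 a.1 a.2.1 a.2.2.1 b.1 b.2.1 b.2.2.1 c.1 c.2.1 c.2.2.1)

def dot (a b : R × R × R × R) : R := a.1 * b.1 + a.2.1 * b.2.1 + a.2.2.1 * b.2.2.1 + a.2.2.2 * b.2.2.2

end alg

def px (i : ℕ) : ℤ :=
  [1, 202, 128, -42, -178, -183, -45, 123, 55, 33, -13, -54, -51, -12, 33, 72, 17, -48, -82, -48, 15, 75].getD i 0
def py (i : ℕ) : ℤ :=
  [-1, -1, 158, 197, 88, -84, -192, -154, -2, 44, 60, 25, -28, -59, -43, 36, 78, 67, -2, -61, -82, -35].getD i 0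

def uZ (l : Fin 23) : ℤ × ℤ × ℤ × ℤ :=
  if l.val = 22 then (1, 0, 0, 0) else (px l ^ 2 + py l ^ 2, px l, py l, 1)

def wb (l : Fin 23) : ℕ := if l.val = 0 then 9 else if l.val ≤ 7 then 4 else 0
def wr (l : Fin 23) : ℕ := if 8 ≤ l.val ∧ l.val ≤ 21 then 1 else 0

def Good (v : Fin 23 → ℤ) : Prop :=
  v 22 < 0 ∨ 3 * (∑ l, if v l ≤ 0 then wb l else 0) < 37 ∨ 5 ≤ ∑ l, if v l < 0 then wr l else 0

instance (v : Fin 23 → ℤ) : Decidable (Good v) := by unfold Good; infer_instance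

def DZ (i j k l : Fin 23) : ℤ := dot (cr (uZ i) (uZ j) (uZ k)) (uZ l)

def T (i j k : Fin 23) : Prop :=
  (∀ l, l = i ∨ l = j ∨ l = k ∨ DZ i j k l ≠ 0) ∧ Good (DZ i j k) ∧ Good (fun l => - DZ i j k l)

instance (i j k : Fin 23) : Decidable (T i j k) := by unfold T; infer_instance

lemma tall : ∀ i j k : Fin 23, i < j → j < k → T i j k := by decide +kernel

abbrev W := ℝ × ℝ × ℝ × ℝ

lemma step (u : Fin 23 → W) (gp : ∀ i j k l, i ≠ j → i ≠ k → j ≠ k → l ≠ i → l ≠ j → l ≠ k →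
      dot (cr (u i) (u j) (u k)) (u l) ≠ 0) (w : W) (p q j : Fin 23) (hpq : p ≠ q) (hpj : p ≠ j)
    (hqj : q ≠ j) : ∃ (w' : W) (k : Fin 23), k ≠ p ∧ k ≠ q ∧ k ≠ j ∧ dot w' (u k) = 0 ∧
      dot w' (u p) = dot w (u p) ∧ dot w' (u q) = dot w (u q) ∧ dot w' (u j) = dot w (u j) ∧
      (∀ l, dot w (u l) ≤ 0 → dot w' (u l) ≤ 0) ∧ (∀ l, 0 ≤ dot w (u l) → 0 ≤ dot w' (u l)) := by
  set d := cr (u p) (u q) (u j) with hd
  have hne : (Finset.univ \ {p, q, j} : Finset (Fin 23)).Nonempty := by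
    apply Finset.card_pos.mp
    have h1 := Finset.le_card_sdiff ({p, q, j} : Finset (Fin 23)) Finset.univ
    have h2 : ({p, q, j} : Finset (Fin 23)).card ≤ 3 := Finset.card_le_three
    simp only [Finset.card_univ, Fintype.card_fin] at h1
    omega
  obtain ⟨k, hk, hmin⟩ := Finset.exists_min_image _ (fun l => |dot w (u l)| / |dot d (u l)|) hne
  simp only [Finset.mem_sdiff, Finset.mem_univ, Finset.mem_insert, Finset.mem_singleton, not_or,
    true_and] at hk hmin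
  have hdk : dot d (u k) ≠ 0 := gp p q j k hpq hpj hqj hk.1 hk.2.1 hk.2.2
  set t := dot w (u k) / dot d (u k) with ht
  have lin : ∀ l, dot (w - t • d) (u l) = dot w (u l) - t * dot d (u l) := by
    intro l
    simp only [dot, Prod.fst_sub, Prod.snd_sub, Prod.smul_fst, Prod.smul_snd, smul_eq_mul]
    ring
  have dp : dot d (u p) = 0 := by simp only [hd, dot, cr, d3]; ring
  have dq : dot d (u q) = 0 := by simp only [hd, dot, cr, d3]; ring
  have dj : dot d (u j) = 0 := by simp only [hd, dot, cr, d3]; ring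
  have bd : ∀ l, |t * dot d (u l)| ≤ |dot w (u l)| := by
    intro l
    by_cases h1 : l = p
    · rw [h1, dp]; simp
    by_cases h2 : l = q
    · rw [h2, dq]; simp
    by_cases h3 : l = j
    · rw [h3, dj]; simp
    have h4 := hmin l ⟨h1, h2, h3⟩
    have h5 : 0 < |dot d (u l)| := abs_pos.mpr (gp p q j l hpq hpj hqj h1 h2 h3)
    rw [le_div_iff₀ h5] at h4
    rw [abs_mul, ht, abs_div]
    exact h4
  refine ⟨w - t • d, k, hk.1, hk.2.1, hk.2.2, ?_, ?_, ?_, ?_, ?_, ?_⟩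
  · rw [lin, ht]; field_simp; ring
  · rw [lin, dp]; ring
  · rw [lin, dq]; ring
  · rw [lin, dj]; ring
  · intro l hl
    have := bd l
    rw [abs_of_nonpos hl] at this
    rw [lin]
    linarith [neg_abs_le (t * dot d (u l))]
  · intro l hl
    have := bd l
    rw [abs_of_nonneg hl] at this
    rw [lin]
    linarith [le_abs_self (t * dot d (u l))]

lemma other2 (a b : Fin 23) : ∃ c, c ≠ a ∧ c ≠ b := by
  revert a b
  decide +kernel

/-- `u` has the same orientation signs as the integer configuration. -/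
def Same (u : Fin 23 → W) : Prop :=
  ∀ i j k l, DZ i j k l ≠ 0 → 0 < (DZ i j k l : ℝ) * dot (cr (u i) (u j) (u k)) (u l)

lemma gp_sorted (u : Fin 23 → W) (hu : Same u) (i j k l : Fin 23) (h1 : i < j) (h2 : j < k)
    (a : l ≠ i) (b : l ≠ j) (c : l ≠ k) : dot (cr (u i) (u j) (u k)) (u l) ≠ 0 := by
  have h := (tall i j k h1 h2).1 l
  have h' : DZ i j k l ≠ 0 := by tauto
  intro e
  have := hu i j k l h'
  rw [e] at this
  simp at this

lemma cr12 (a b c d : W) : dot (cr a b c) d = - dot (cr b a c) d := by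
  simp only [dot, cr, d3]; ring

lemma cr23 (a b c d : W) : dot (cr a b c) d = - dot (cr a c b) d := by
  simp only [dot, cr, d3]; ring

lemma gp_all (u : Fin 23 → W) (hu : Same u) : ∀ i j k l, i ≠ j → i ≠ k → j ≠ k → l ≠ i → l ≠ j →
    l ≠ k → dot (cr (u i) (u j) (u k)) (u l) ≠ 0 := by
  intro i j k l hij hik hjk a b c
  rcases lt_or_gt_of_ne hij with h1 | h1 <;> rcases lt_or_gt_of_ne hik with h2 | h2 <;>
    rcases lt_or_gt_of_ne hjk with h3 | h3
  · exact gp_sorted u hu i j k l h1 h3 a b c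
  · rw [cr23]; exact neg_ne_zero.mpr (gp_sorted u hu i k j l h2 h3 a c b)
  · exact absurd (h1.trans h3) (not_lt.mpr h2.le)
  · rw [cr23, cr12, neg_neg]; exact gp_sorted u hu k i j l h2 h1 c a b
  · rw [cr12]; exact neg_ne_zero.mpr (gp_sorted u hu j i k l h1 h2 b a c)
  · exact absurd (h2.trans h3) (not_lt.mpr h1.le)
  · rw [cr12, cr23, neg_neg]; exact gp_sorted u hu j k i l h3 h2 b c a
  · rw [cr12, cr23, cr12, neg_neg]; exact neg_ne_zero.mpr (gp_sorted u hu k j i l h3 h1 c b a)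

set_option maxRecDepth 20000 in
lemma five (a b c m l w : W) : dot (cr a b c) m * dot w l = dot (cr a b c) l * dot w m
    + dot (cr a b l) m * dot w c - dot (cr a c l) m * dot w b + dot (cr b c l) m * dot w a := by
  obtain ⟨a1, a2, a3, a4⟩ := a
  obtain ⟨b1, b2, b3, b4⟩ := b
  obtain ⟨c1, c2, c3, c4⟩ := c
  obtain ⟨m1, m2, m3, m4⟩ := m
  obtain ⟨l1, l2, l3, l4⟩ := l
  obtain ⟨w1, w2, w3, w4⟩ := w
  unfold dot cr d3
  dsimp only
  ring

lemma good_use (z : Fin 23 → ℤ) (hz : Good z) (v : Fin 23 → ℝ)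
    (h1 : ∀ l, z l < 0 → v l < 0) (h2 : ∀ l, v l ≤ 0 → z l ≤ 0) (h0 : 0 ≤ v 22)
    (hb : 37 ≤ 3 * ∑ l, if v l ≤ 0 then wb l else 0) : 5 ≤ ∑ l, if v l < 0 then wr l else 0 := by
  rcases hz with h | h | h
  · exact absurd (h1 _ h) (not_lt.mpr h0)
  · have : (∑ l, if v l ≤ 0 then wb l else 0) ≤ ∑ l, if z l ≤ 0 then wb l else 0 := by
      apply Finset.sum_le_sum
      intro l _
      by_cases h : v l ≤ 0
      · rw [if_pos h, if_pos (h2 l h)]
      · rw [if_neg h]; exact Nat.zero_le _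
    omega
  · refine h.trans (Finset.sum_le_sum ?_)
    intro l _
    by_cases h : z l < 0
    · rw [if_pos h, if_pos (h1 l h)]
    · rw [if_neg h]; exact Nat.zero_le _

lemma final_sorted (u : Fin 23 → W) (hu : Same u) (w : W) (i j k m : Fin 23) (h1 : i < j) (h2 : j < k)
    (zi : dot w (u i) = 0) (zj : dot w (u j) = 0) (zk : dot w (u k) = 0) (hm : dot w (u m) ≠ 0)
    (h0 : 0 ≤ dot w (u 22)) (hb : 37 ≤ 3 * ∑ l, if dot w (u l) ≤ 0 then wb l else 0) :
    5 ≤ ∑ l, if dot w (u l) < 0 then wr l else 0 := by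
  have mi : m ≠ i := by rintro rfl; exact hm zi
  have mj : m ≠ j := by rintro rfl; exact hm zj
  have mk : m ≠ k := by rintro rfl; exact hm zk
  have hD := gp_sorted u hu i j k m h1 h2 mi mj mk
  obtain ⟨T1, T2, T3⟩ := tall i j k h1 h2
  set s := dot w (u m) / dot (cr (u i) (u j) (u k)) (u m) with hs
  have s0 : s ≠ 0 := div_ne_zero hm hD
  have key : ∀ l, dot w (u l) = s * dot (cr (u i) (u j) (u k)) (u l) := by
    intro l
    have id5 : dot (cr (u i) (u j) (u k)) (u m) * dot w (u l)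
        = dot (cr (u i) (u j) (u k)) (u l) * dot w (u m)
          + dot (cr (u i) (u j) (u l)) (u m) * dot w (u k)
          - dot (cr (u i) (u k) (u l)) (u m) * dot w (u j)
          + dot (cr (u j) (u k) (u l)) (u m) * dot w (u i) := five _ _ _ _ _ _
    rw [zi, zj, zk] at id5
    rw [hs]
    field_simp
    linarith
  have zero : ∀ l, DZ i j k l = 0 → dot w (u l) = 0 := by
    intro l hl
    rcases T1 l with rfl | rfl | rfl | h
    · exact zi
    · exact zj
    · exact zk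
    · exact absurd hl h
  rcases lt_or_gt_of_ne s0 with hs0 | hs0
  · refine good_use _ T3 (fun l => dot w (u l)) ?_ ?_ h0 hb
    · intro l hl
      have hl' : (0 : ℝ) < DZ i j k l := by exact_mod_cast (by omega : 0 < DZ i j k l)
      have := hu i j k l (by omega)
      rw [key l]
      have h3 : 0 < dot (cr (u i) (u j) (u k)) (u l) := by nlinarith
      nlinarith
    · intro l hl
      by_contra hc
      have hl' : (DZ i j k l : ℝ) < 0 := by exact_mod_cast (by omega : DZ i j k l < 0)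
      have := hu i j k l (by omega)
      have h3 : dot (cr (u i) (u j) (u k)) (u l) < 0 := by nlinarith
      rw [key l] at hl
      nlinarith
  · refine good_use _ T2 (fun l => dot w (u l)) ?_ ?_ h0 hb
    · intro l hl
      have hl' : (DZ i j k l : ℝ) < 0 := by exact_mod_cast hl
      have := hu i j k l (by omega)
      have h3 : dot (cr (u i) (u j) (u k)) (u l) < 0 := by nlinarith
      rw [key l]
      nlinarith
    · intro l hl
      by_contra hc
      have hl' : (0 : ℝ) < DZ i j k l := by exact_mod_cast (by omega : 0 < DZ i j k l)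
      have := hu i j k l (by omega)
      have h3 : 0 < dot (cr (u i) (u j) (u k)) (u l) := by nlinarith
      rw [key l] at hl
      nlinarith

lemma discrete (u : Fin 23 → W) (hu : Same u) (w : W) (m : Fin 23) (hm : dot w (u m) ≠ 0)
    (h0 : 0 ≤ dot w (u 22)) (hb : 37 ≤ 3 * ∑ l, if dot w (u l) ≤ 0 then wb l else 0) :
    5 ≤ ∑ l, if dot w (u l) < 0 then wr l else 0 := by
  have gp := gp_all u hu
  obtain ⟨p, hp, -⟩ := other2 m m
  obtain ⟨q, hq1, hq2⟩ := other2 p m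
  obtain ⟨w1, k1, -, -, a1, a2, -, -, a3, a4, a5⟩ := step u gp w p q m hq1.symm hp hq2
  obtain ⟨q', hq3, hq4⟩ := other2 k1 m
  obtain ⟨w2, k2, b0, -, b1, b2, b6, -, b3, b4, b5⟩ := step u gp w1 k1 q' m hq3.symm a1 hq4
  obtain ⟨w3, k3, c0, c7, c1, c2, c6, c8, c3, c4, c5⟩ := step u gp w2 k1 k2 m b0.symm a1 b1
  have z1 : dot w3 (u k1) = 0 := by rw [c6, b6, a2]
  have z2 : dot w3 (u k2) = 0 := by rw [c8, b2]
  have hm3 : dot w3 (u m) ≠ 0 := by rw [c3, b3, a3]; exact hm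
  have h03 : 0 ≤ dot w3 (u 22) := c5 _ (b5 _ (a5 _ h0))
  have hb3 : 37 ≤ 3 * ∑ l, if dot w3 (u l) ≤ 0 then wb l else 0 := by
    refine hb.trans (Nat.mul_le_mul_left _ (Finset.sum_le_sum ?_))
    intro l _
    by_cases h : dot w (u l) ≤ 0
    · rw [if_pos h, if_pos (c4 _ (b4 _ (a4 _ h)))]
    · rw [if_neg h]; exact Nat.zero_le _
  have main : 5 ≤ ∑ l, if dot w3 (u l) < 0 then wr l else 0 := by
    rcases lt_or_gt_of_ne b0 with h1 | h1 <;> rcases lt_or_gt_of_ne c0 with h2 | h2 <;>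
      rcases lt_or_gt_of_ne c7 with h3 | h3
    · exact final_sorted u hu w3 k3 k2 k1 m h3 h1 c2 z2 z1 hm3 h03 hb3
    · exact final_sorted u hu w3 k2 k3 k1 m h3 h2 z2 c2 z1 hm3 h03 hb3
    · exact absurd (h3.trans h1) (not_lt.mpr h2.le)
    · exact final_sorted u hu w3 k2 k1 k3 m h1 h2 z2 z1 c2 hm3 h03 hb3
    · exact final_sorted u hu w3 k3 k1 k2 m h2 h1 c2 z1 z2 hm3 h03 hb3
    · exact absurd (h1.trans h3) (not_lt.mpr h2.le)
    · exact final_sorted u hu w3 k1 k3 k2 m h2 h3 z1 c2 z2 hm3 h03 hb3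
    · exact final_sorted u hu w3 k1 k2 k3 m h1 h3 z1 z2 c2 hm3 h03 hb3
  refine main.trans (Finset.sum_le_sum ?_)
  intro l _
  by_cases h : dot w3 (u l) < 0
  · have : dot w (u l) < 0 := by
      by_contra hc
      exact absurd (c5 _ (b5 _ (a5 _ (not_lt.mp hc)))) (not_le.mpr h)
    rw [if_pos h, if_pos this]
  · rw [if_neg h]; exact Nat.zero_le _

abbrev E := EuclideanSpace ℝ (Fin 2)

noncomputable def lift (x : E) : W := (x 0 ^ 2 + x 1 ^ 2, x 0, x 1, 1)

noncomputable def uR (X : Fin 23 → E) (l : Fin 23) : W := if l.val = 22 then (1, 0, 0, 0) else lift (X l)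

noncomputable def ctr (l : Fin 23) : E := WithLp.toLp 2 ![(px l : ℝ), (py l : ℝ)]

lemma uR_cont (l : Fin 23) : Continuous fun X => uR X l := by
  unfold uR lift
  split_ifs
  · exact continuous_const
  · fun_prop

lemma cast_dot (a b c d : ℤ × ℤ × ℤ × ℤ) : ((dot (cr a b c) d : ℤ) : ℝ) =
    dot (cr ((a.1 : ℝ), (a.2.1 : ℝ), (a.2.2.1 : ℝ), (a.2.2.2 : ℝ))
      ((b.1 : ℝ), (b.2.1 : ℝ), (b.2.2.1 : ℝ), (b.2.2.2 : ℝ))
      ((c.1 : ℝ), (c.2.1 : ℝ), (c.2.2.1 : ℝ), (c.2.2.2 : ℝ)))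
      ((d.1 : ℝ), (d.2.1 : ℝ), (d.2.2.1 : ℝ), (d.2.2.2 : ℝ)) := by
  simp only [dot, cr, d3]
  push_cast
  ring

lemma uR_ctr (l : Fin 23) : uR ctr l =
    (((uZ l).1 : ℝ), ((uZ l).2.1 : ℝ), ((uZ l).2.2.1 : ℝ), ((uZ l).2.2.2 : ℝ)) := by
  unfold uR uZ lift ctr
  split_ifs <;> simp

lemma exists_rad : ∃ h : ℝ, 0 < h ∧ ∀ X : Fin 23 → E, (∀ l, dist (X l) (ctr l) < h) → Same (uR X) := by
  have ev : ∀ᶠ X in nhds ctr, Same (uR X) := by
    unfold Same
    simp only [Filter.eventually_all]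
    intro i j k l hD
    have hc : Continuous fun X : Fin 23 → E =>
        (DZ i j k l : ℝ) * dot (cr (uR X i) (uR X j) (uR X k)) (uR X l) := by
      have h1 := uR_cont i
      have h2 := uR_cont j
      have h3 := uR_cont k
      have h4 := uR_cont l
      unfold dot cr d3
      fun_prop
    refine hc.continuousAt.eventually (lt_mem_nhds ?_)
    have : dot (cr (uR ctr i) (uR ctr j) (uR ctr k)) (uR ctr l) = (DZ i j k l : ℝ) := by
      rw [uR_ctr, uR_ctr, uR_ctr, uR_ctr, DZ, cast_dot]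
    show 0 < (DZ i j k l : ℝ) * dot (cr (uR ctr i) (uR ctr j) (uR ctr k)) (uR ctr l)
    rw [this]
    exact mul_self_pos.mpr (by exact_mod_cast hD)
  obtain ⟨h, h0, hh⟩ := Metric.eventually_nhds_iff.mp ev
  exact ⟨h, h0, fun X hX => hh ((dist_pi_lt_iff h0).mpr hX)⟩

def rd (l : Fin 23) : ℕ := if l.val = 0 then 3 else 2

lemma region (S : Set E) (hS : (∃ (p : E) (r : ℝ), 0 < r ∧ S = Metric.ball p r) ∨
    (∃ (v : E) (c : ℝ), v ≠ 0 ∧ S = {x : E | inner ℝ v x < c})) :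
    MeasurableSet S ∧ ∃ w : W, 0 ≤ w.1 ∧ ∀ x, x ∈ S ↔ dot w (lift x) < 0 := by
  rcases hS with ⟨p, r, hr, rfl⟩ | ⟨v, c, -, rfl⟩
  · refine ⟨measurableSet_ball, (1, -2 * p 0, -2 * p 1, p 0 ^ 2 + p 1 ^ 2 - r ^ 2), zero_le_one, fun x => ?_⟩
    rw [Metric.mem_ball, EuclideanSpace.dist_eq, Real.sqrt_lt' hr, Fin.sum_univ_two, Real.dist_eq,
      Real.dist_eq, sq_abs, sq_abs]
    simp only [dot, lift]
    constructor <;> intro h <;> nlinarith
  · refine ⟨(isOpen_lt (continuous_const.inner continuous_id) continuous_const).measurableSet,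
      (0, v 0, v 1, -c), le_rfl, fun x => ?_⟩
    have : inner ℝ v x = v 0 * x 0 + v 1 * x 1 := by
      simp [PiLp.inner_apply, Fin.sum_univ_two]; ring
    simp only [Set.mem_setOf_eq, this, dot, lift]
    constructor <;> intro h <;> linarith

theorem result :
    ¬ (∀ A₁ A₂ : Set (EuclideanSpace ℝ (Fin 2)),
      MeasurableSet A₁ → MeasurableSet A₂ →
      volume A₁ < ⊤ → volume A₂ < ⊤ →
      ∃ S : Set (EuclideanSpace ℝ (Fin 2)),
        ((∃ (p : EuclideanSpace ℝ (Fin 2)) (r : ℝ), 0 < r ∧ S = Metric.ball p r) ∨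
         (∃ (v : EuclideanSpace ℝ (Fin 2)) (c : ℝ), v ≠ 0 ∧
            S = {x : EuclideanSpace ℝ (Fin 2) | inner ℝ v x < c})) ∧
        volume (A₁ ∩ S) = volume A₁ / 3 ∧
        volume (A₂ ∩ S) = volume A₂ / 3) := by
  classical
  intro H
  obtain ⟨h, h0, hh⟩ := exists_rad
  set B : Fin 23 → Set E := fun l => Metric.ball (ctr l) (rd l * (h / 3)) with hB
  have Bsub : ∀ l, ∀ x ∈ B l, dist x (ctr l) < h := by
    intro l x hx
    have h1 : dist x (ctr l) < rd l * (h / 3) := hx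
    have h2 : (rd l : ℝ) ≤ 3 := by unfold rd; split_ifs <;> norm_num
    nlinarith
  have rpos : ∀ l, (0 : ℝ) < rd l := by intro l; unfold rd; split_ifs <;> norm_num
  have Bc : ∀ l, ctr l ∈ B l := fun l => Metric.mem_ball_self (mul_pos (rpos l) (by linarith))
  set V : ℝ := (volume (Metric.ball (0 : E) (h / 3))).toReal with hV
  have Vpos : 0 < V := ENNReal.toReal_pos (Metric.measure_ball_pos _ _ (by linarith)).ne' measure_ball_lt_top.ne
  have Bvol : ∀ l, volume.real (B l) = (rd l : ℝ) ^ 2 * V := by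
    intro l
    simp only [hB, Measure.real, hV]
    rw [Measure.addHaar_ball_mul_of_pos volume _ (rpos l), ENNReal.toReal_mul,
      ENNReal.toReal_ofReal (by positivity)]
    simp
  have Bdis : ∀ i j : Fin 23, i.val ≠ 22 → j.val ≠ 22 → i ≠ j → Disjoint (B i) (B j) := by
    intro i j hi hj hij
    rw [Set.disjoint_left]
    intro x hxi hxj
    have hX := hh (fun l => if l = i ∨ l = j then x else ctr l) (by
      intro l
      split_ifs with hl
      · rcases hl with rfl | rfl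
        · exact Bsub _ _ hxi
        · exact Bsub _ _ hxj
      · simpa using h0)
    obtain ⟨k, hk1, hk2⟩ := other2 i j
    have : ∃ l : Fin 23, l ≠ i ∧ l ≠ j ∧ l ≠ k := by
      have hne : (Finset.univ \ {i, j, k} : Finset (Fin 23)).Nonempty := by
        apply Finset.card_pos.mp
        have h1 := Finset.le_card_sdiff ({i, j, k} : Finset (Fin 23)) Finset.univ
        have h2 : ({i, j, k} : Finset (Fin 23)).card ≤ 3 := Finset.card_le_three
        simp only [Finset.card_univ, Fintype.card_fin] at h1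
        omega
      obtain ⟨l, hl⟩ := hne
      simp only [Finset.mem_sdiff, Finset.mem_univ, Finset.mem_insert, Finset.mem_singleton, not_or,
        true_and] at hl
      exact ⟨l, hl⟩
    obtain ⟨l, l1, l2, l3⟩ := this
    apply gp_all _ hX i j k l hij hk1.symm hk2.symm l1 l2 l3
    have e : uR (fun l => if l = i ∨ l = j then x else ctr l) i
        = uR (fun l => if l = i ∨ l = j then x else ctr l) j := by
      simp [uR, hi, hj]
    rw [e]
    simp only [dot, cr, d3]; ring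
  have Bfin : ∀ l, volume (B l) ≠ ⊤ := fun l => measure_ball_lt_top.ne
  have Uvol : ∀ s : Finset (Fin 23), (∀ l ∈ s, l.val ≠ 22) →
      volume.real (⋃ l ∈ s, B l) = (∑ l ∈ s, (rd l : ℝ) ^ 2) * V := by
    intro s hs
    rw [measureReal_biUnion_finset (fun i hi j hj hij => Bdis i j (hs i hi) (hs j hj) hij)
      (fun l _ => measurableSet_ball) (fun l _ => Bfin l), Finset.sum_mul]
    exact Finset.sum_congr rfl fun l _ => Bvol l
  have Ufin : ∀ s : Finset (Fin 23), volume (⋃ l ∈ s, B l) < ⊤ := fun s =>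
    (measure_biUnion_lt_top s.finite_toSet fun l _ => (Bfin l).lt_top)
  set s1 : Finset (Fin 23) := Finset.univ.filter (fun l => l.val ≤ 7) with hs1
  set s2 : Finset (Fin 23) := Finset.univ.filter (fun l => 8 ≤ l.val ∧ l.val ≤ 21) with hs2
  obtain ⟨S, hS, e1, e2⟩ := H (⋃ l ∈ s1, B l) (⋃ l ∈ s2, B l)
    (Finset.measurableSet_biUnion _ fun l _ => measurableSet_ball)
    (Finset.measurableSet_biUnion _ fun l _ => measurableSet_ball) (Ufin _) (Ufin _)
  obtain ⟨-, w, w0, hw⟩ := region S hS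
  have r1 : volume.real ((⋃ l ∈ s1, B l) ∩ S) = 37 * V / 3 := by
    have := Uvol s1 (fun l hl => by simp only [hs1, Finset.mem_filter] at hl; omega)
    have c : (∑ l ∈ s1, (rd l : ℝ) ^ 2) = 37 := by
      have : (∑ l ∈ s1, rd l ^ 2) = 37 := by rw [hs1]; decide +kernel
      exact_mod_cast this
    rw [c] at this
    rw [← this]
    simp only [Measure.real]
    rw [e1, ENNReal.toReal_div]
    simp
  have r2 : volume.real ((⋃ l ∈ s2, B l) ∩ S) = 56 * V / 3 := by
    have := Uvol s2 (fun l hl => by simp only [hs2, Finset.mem_filter] at hl; omega)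
    have c : (∑ l ∈ s2, (rd l : ℝ) ^ 2) = 56 := by
      have : (∑ l ∈ s2, rd l ^ 2) = 56 := by rw [hs2]; decide +kernel
      exact_mod_cast this
    rw [c] at this
    rw [← this]
    simp only [Measure.real]
    rw [e2, ENNReal.toReal_div]
    simp
  have pick : ∀ l : Fin 23, ∃ x ∈ B l, (l.val ≤ 7 → (B l ∩ S).Nonempty → x ∈ S) ∧
      (8 ≤ l.val → x ∈ S → B l ⊆ S) := by
    intro l
    by_cases hl : l.val ≤ 7
    · by_cases hn : (B l ∩ S).Nonempty
      · obtain ⟨x, hx1, hx2⟩ := hn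
        exact ⟨x, hx1, fun _ _ => hx2, fun h => by omega⟩
      · exact ⟨ctr l, Bc l, fun _ h => absurd h hn, fun h => by omega⟩
    · by_cases hn : B l ⊆ S
      · exact ⟨ctr l, Bc l, fun h => absurd h hl, fun _ _ => hn⟩
      · obtain ⟨x, hx1, hx2⟩ := Set.not_subset.mp hn
        exact ⟨x, hx1, fun h => absurd h hl, fun _ h => absurd h hx2⟩
  choose X hX1 hX2 hX3 using pick
  have hsame := hh X fun l => Bsub l _ (hX1 l)
  have val : ∀ l : Fin 23, l.val ≠ 22 → (X l ∈ S ↔ dot w (uR X l) < 0) := by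
    intro l hl
    rw [hw, uR, if_neg hl]
  set t1 : Finset (Fin 23) := s1.filter (fun l => dot w (uR X l) < 0) with ht1
  have up : 37 * V / 3 ≤ (∑ l ∈ t1, (rd l : ℝ) ^ 2) * V := by
    rw [← r1, ← Uvol t1 (fun l hl => by simp only [ht1, hs1, Finset.mem_filter] at hl; omega)]
    refine measureReal_mono ?_ (Ufin _).ne
    rintro x ⟨hx, hxS⟩
    simp only [Set.mem_iUnion] at hx ⊢
    obtain ⟨l, hl, hxl⟩ := hx
    have hl7 : l.val ≤ 7 := by simpa [hs1] using hl
    exact ⟨l, Finset.mem_filter.mpr ⟨hl, (val l (by omega)).mp (hX2 l hl7 ⟨x, hxl, hxS⟩)⟩, hxl⟩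
  have up2 : 37 ≤ 3 * ∑ l ∈ t1, rd l ^ 2 := by
    have : (37 : ℝ) ≤ 3 * ∑ l ∈ t1, (rd l : ℝ) ^ 2 := by nlinarith
    exact_mod_cast this
  have hne : t1.Nonempty := by
    by_contra hc
    rw [Finset.not_nonempty_iff_eq_empty.mp hc] at up2
    simp at up2
  obtain ⟨m, hm⟩ := hne
  have hb : 37 ≤ 3 * ∑ l, if dot w (uR X l) ≤ 0 then wb l else 0 := by
    refine up2.trans (Nat.mul_le_mul_left _ ?_)
    rw [ht1, hs1, Finset.filter_filter, Finset.sum_filter]
    apply Finset.sum_le_sum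
    intro l _
    by_cases hc : l.val ≤ 7 ∧ dot w (uR X l) < 0
    · rw [if_pos hc, if_pos hc.2.le]
      unfold rd wb
      have := hc.1
      split_ifs <;> omega
    · rw [if_neg hc]; exact Nat.zero_le _
  have h22 : 0 ≤ dot w (uR X 22) := by simpa [uR, dot] using w0
  have fin := discrete _ hsame w m (Finset.mem_filter.mp hm).2.ne h22 hb
  set t2 : Finset (Fin 23) := s2.filter (fun l => dot w (uR X l) < 0) with ht2
  have low : (∑ l ∈ t2, (rd l : ℝ) ^ 2) * V ≤ 56 * V / 3 := by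
    rw [← r2, ← Uvol t2 (fun l hl => by simp only [ht2, hs2, Finset.mem_filter] at hl; omega)]
    refine measureReal_mono ?_ ((measure_mono Set.inter_subset_left).trans_lt (Ufin _)).ne
    intro x hx
    simp only [Set.mem_iUnion] at hx
    obtain ⟨l, hl, hxl⟩ := hx
    obtain ⟨hl1, hl2⟩ := Finset.mem_filter.mp hl
    have hl8 : 8 ≤ l.val ∧ l.val ≤ 21 := by simpa [hs2] using hl1
    exact ⟨Set.mem_biUnion hl1 hxl, hX3 l hl8.1 ((val l (by omega)).mpr hl2) hxl⟩
  have low2 : 3 * ∑ l ∈ t2, rd l ^ 2 ≤ 56 := by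
    have : 3 * ∑ l ∈ t2, (rd l : ℝ) ^ 2 ≤ 56 := by nlinarith
    exact_mod_cast this
  have e : (∑ l ∈ t2, rd l ^ 2) = 4 * ∑ l, if dot w (uR X l) < 0 then wr l else 0 := by
    rw [ht2, hs2, Finset.filter_filter, Finset.sum_filter, Finset.mul_sum]
    apply Finset.sum_congr rfl
    intro l _
    by_cases c1 : dot w (uR X l) < 0
    · by_cases c2 : 8 ≤ l.val ∧ l.val ≤ 21
      · rw [if_pos ⟨c2, c1⟩, if_pos c1, wr, if_pos c2, rd, if_neg (by omega)]
        rfl
      · rw [if_neg (fun hc => c2 hc.1), if_pos c1, wr, if_neg c2]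
        rfl
    · rw [if_neg (fun hc => c1 hc.2), if_neg c1]
      rfl
  omega

end Pool.Agent.S11520
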