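import Pool.Statements.S11547

set_option autoImplicit false
open Pool Pool.MP_cfb0df_co

namespace Pool.Agent.S11547

open Finset

lemma holder4 {ι : Type*} [Fintype ι] (s a b c e : ι → ℝ) (_hs : ∀ i, 0 ≤ s i)
    (ha : ∀ i, 0 ≤ a i) (hb : ∀ i, 0 ≤ b i) (hc : ∀ i, 0 ≤ c i) (he : ∀ i, 0 ≤ e i)
    (h : ∀ i, s i ^ 4 ≤ a i * b i * (c i * e i)) :
    (∑ i, s i) ^ 4 ≤ (∑ i, a i) * (∑ i, b i) * ((∑ i, c i) * (∑ i, e i)) := by
  have h1 : (∑ i, Real.sqrt (a i * b i)) ^ 2 ≤ (∑ i, a i) * (∑ i, b i) :=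
    sum_sq_le_sum_mul_sum_of_sq_le_mul _ (fun i _ => ha i) (fun i _ => hb i)
      (fun i _ => (Real.sq_sqrt (mul_nonneg (ha i) (hb i))).le)
  have h2 : (∑ i, Real.sqrt (c i * e i)) ^ 2 ≤ (∑ i, c i) * (∑ i, e i) :=
    sum_sq_le_sum_mul_sum_of_sq_le_mul _ (fun i _ => hc i) (fun i _ => he i)
      (fun i _ => (Real.sq_sqrt (mul_nonneg (hc i) (he i))).le)
  have h3 : (∑ i, s i) ^ 2 ≤ (∑ i, Real.sqrt (a i * b i)) * (∑ i, Real.sqrt (c i * e i)) := by
    refine sum_sq_le_sum_mul_sum_of_sq_le_mul _ (fun i _ => Real.sqrt_nonneg _)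
      (fun i _ => Real.sqrt_nonneg _) (fun i _ => ?_)
    rw [← Real.sqrt_mul (mul_nonneg (ha i) (hb i))]
    apply Real.le_sqrt_of_sq_le
    calc (s i ^ 2) ^ 2 = s i ^ 4 := by ring
      _ ≤ _ := h i
  have hA : 0 ≤ ∑ i, Real.sqrt (a i * b i) := sum_nonneg fun i _ => Real.sqrt_nonneg _
  have hB : 0 ≤ ∑ i, Real.sqrt (c i * e i) := sum_nonneg fun i _ => Real.sqrt_nonneg _
  calc (∑ i, s i) ^ 4 = ((∑ i, s i) ^ 2) ^ 2 := by ring
    _ ≤ ((∑ i, Real.sqrt (a i * b i)) * (∑ i, Real.sqrt (c i * e i))) ^ 2 :=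
        pow_le_pow_left₀ (sq_nonneg _) h3 2
    _ = (∑ i, Real.sqrt (a i * b i)) ^ 2 * (∑ i, Real.sqrt (c i * e i)) ^ 2 := by ring
    _ ≤ _ := mul_le_mul h1 h2 (sq_nonneg _)
        (mul_nonneg (sum_nonneg fun i _ => ha i) (sum_nonneg fun i _ => hb i))

lemma sum_div_self_le {V : Type*} [Fintype V] (h : V → ℝ) :
    ∑ y, h y / h y ≤ (Fintype.card V : ℝ) := by
  calc ∑ y, h y / h y ≤ ∑ _y : V, (1 : ℝ) := sum_le_sum fun y _ => div_self_le_one _
    _ = _ := by simp

section main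
variable {V : Type*} [Fintype V]

/-- the key inequality for a symmetric weight on triples -/
lemma key (g : V → V → V → ℝ) (hg : ∀ x y z, 0 ≤ g x y z)
    (s1 : ∀ x y z, g x y z = g y x z) (s2 : ∀ x y z, g x y z = g x z y)
    (W : V → V → ℝ) (hW : ∀ x y, W x y = ∑ z, g x y z)
    (S : V → ℝ) (hS : ∀ x, 0 ≤ S x) (h : V → ℝ) (hh : ∀ y, h y = ∑ x, S x * W x y) :
    (∑ x, S x * ∑ y, W x y) ^ 4 ≤
      (∑ y, ∑ z, W y z * h y * h z) * (∑ x, S x ^ 2 * ∑ y, W x y) *
        ((Fintype.card V : ℝ) * (Fintype.card V : ℝ)) := by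
  have hW0 : ∀ x y, 0 ≤ W x y := fun x y => by rw [hW]; exact sum_nonneg fun z _ => hg _ _ _
  have hh0 : ∀ y, 0 ≤ h y := fun y => by
    rw [hh]; exact sum_nonneg fun x _ => mul_nonneg (hS x) (hW0 _ _)
  have hz : ∀ x y z, h y = 0 → g x y z * S x = 0 := by
    intro x y z hy
    rw [hh] at hy
    have h1 : S x * W x y = 0 :=
      (sum_eq_zero_iff_of_nonneg (fun x _ => mul_nonneg (hS x) (hW0 _ _))).1 hy x (mem_univ _)
    rw [hW, mul_sum] at h1
    have h2 := (sum_eq_zero_iff_of_nonneg (fun z _ => mul_nonneg (hS x) (hg _ _ z))).1 h1 z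
      (mem_univ _)
    linarith [mul_comm (S x) (g x y z)]
  have H := holder4 (ι := V × V × V) (fun p => g p.1 p.2.1 p.2.2 * S p.1)
    (fun p => g p.1 p.2.1 p.2.2 * h p.2.1 * h p.2.2)
    (fun p => g p.1 p.2.1 p.2.2 * S p.1 ^ 2)
    (fun p => g p.1 p.2.1 p.2.2 * S p.1 / h p.2.1)
    (fun p => g p.1 p.2.1 p.2.2 * S p.1 / h p.2.2)
    (fun p => mul_nonneg (hg _ _ _) (hS _))
    (fun p => mul_nonneg (mul_nonneg (hg _ _ _) (hh0 _)) (hh0 _))
    (fun p => mul_nonneg (hg _ _ _) (sq_nonneg _))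
    (fun p => div_nonneg (mul_nonneg (hg _ _ _) (hS _)) (hh0 _))
    (fun p => div_nonneg (mul_nonneg (hg _ _ _) (hS _)) (hh0 _))
    (by
      rintro ⟨x, y, z⟩
      dsimp only
      by_cases hy : h y = 0
      · rw [hz x y z hy]; simp
      by_cases hz' : h z = 0
      · have := hz x z y hz'
        rw [← s2] at this
        rw [this]; simp
      apply le_of_eq
      field_simp)
  simp only [Fintype.sum_prod_type] at H
  have e0 : ∑ x, ∑ y, ∑ z, g x y z * S x = ∑ x, S x * ∑ y, W x y := by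
    refine sum_congr rfl fun x _ => ?_
    simp only [hW, mul_sum]
    exact sum_congr rfl fun y _ => sum_congr rfl fun z _ => mul_comm _ _
  have e1 : ∑ x, ∑ y, ∑ z, g x y z * h y * h z = ∑ y, ∑ z, W y z * h y * h z := by
    rw [sum_comm]
    refine sum_congr rfl fun y _ => ?_
    rw [sum_comm]
    refine sum_congr rfl fun z _ => ?_
    rw [hW, sum_mul, sum_mul]
    refine sum_congr rfl fun x _ => ?_
    rw [s1 x y z, s2 y x z]
  have e2 : ∑ x, ∑ y, ∑ z, g x y z * S x ^ 2 = ∑ x, S x ^ 2 * ∑ y, W x y := by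
    refine sum_congr rfl fun x _ => ?_
    simp only [hW, mul_sum]
    exact sum_congr rfl fun y _ => sum_congr rfl fun z _ => mul_comm _ _
  have e3 : ∑ x, ∑ y, ∑ z, g x y z * S x / h y ≤ (Fintype.card V : ℝ) := by
    refine le_trans (le_of_eq ?_) (sum_div_self_le h)
    rw [sum_comm]
    refine sum_congr rfl fun y _ => ?_
    conv_rhs => rw [hh y, sum_div, ← hh y]
    refine sum_congr rfl fun x _ => ?_
    rw [hW, mul_sum, sum_div]
    exact sum_congr rfl fun z _ => by rw [mul_comm]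
  have e4 : ∑ x, ∑ y, ∑ z, g x y z * S x / h z ≤ (Fintype.card V : ℝ) := by
    refine le_trans (le_of_eq ?_) e3
    refine sum_congr rfl fun x _ => ?_
    rw [sum_comm]
    exact sum_congr rfl fun y _ => sum_congr rfl fun z _ => by rw [s2]
  rw [e0, e1, e2] at H
  refine H.trans (mul_le_mul_of_nonneg_left (mul_le_mul e3 e4 ?_ (Nat.cast_nonneg _)) ?_)
  · exact sum_nonneg fun x _ => sum_nonneg fun y _ => sum_nonneg fun z _ =>
      div_nonneg (mul_nonneg (hg _ _ _) (hS _)) (hh0 _)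
  · exact mul_nonneg (sum_nonneg fun y _ => sum_nonneg fun z _ =>
      mul_nonneg (mul_nonneg (hW0 _ _) (hh0 _)) (hh0 _))
      (sum_nonneg fun x _ => mul_nonneg (sq_nonneg _) (sum_nonneg fun y _ => hW0 _ _))

/-- the three-edge path is Sidorenko (weighted form) -/
lemma path3 (W : V → V → ℝ) (hW0 : ∀ x y, 0 ≤ W x y) (hs : ∀ x y, W x y = W y x)
    (d : V → ℝ) (hd : ∀ x, d x = ∑ y, W x y) :
    (∑ x, d x) ^ 3 ≤ (∑ x, ∑ y, W x y * d x * d y) *
      ((Fintype.card V : ℝ) * (Fintype.card V : ℝ)) := by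
  have hd0 : ∀ x, 0 ≤ d x := fun x => by rw [hd]; exact sum_nonneg fun y _ => hW0 _ _
  have hz : ∀ x y, d x = 0 → W x y = 0 := by
    intro x y hx
    rw [hd] at hx
    exact (sum_eq_zero_iff_of_nonneg (fun y _ => hW0 x y)).1 hx y (mem_univ _)
  have H := holder4 (ι := V × V) (fun p => W p.1 p.2) (fun p => W p.1 p.2 * d p.1 * d p.2)
    (fun p => W p.1 p.2) (fun p => W p.1 p.2 / d p.1) (fun p => W p.1 p.2 / d p.2)
    (fun p => hW0 _ _) (fun p => mul_nonneg (mul_nonneg (hW0 _ _) (hd0 _)) (hd0 _))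
    (fun p => hW0 _ _) (fun p => div_nonneg (hW0 _ _) (hd0 _))
    (fun p => div_nonneg (hW0 _ _) (hd0 _))
    (by
      rintro ⟨x, y⟩
      dsimp only
      by_cases hx : d x = 0
      · rw [hz x y hx]; simp
      by_cases hy : d y = 0
      · rw [hs, hz y x hy]; simp
      apply le_of_eq
      field_simp)
  simp only [Fintype.sum_prod_type] at H
  have e0 : ∑ x, ∑ y, W x y = ∑ x, d x := sum_congr rfl fun x _ => (hd x).symm
  have e3 : ∑ x, ∑ y, W x y / d x ≤ (Fintype.card V : ℝ) := by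
    refine le_trans (le_of_eq ?_) (sum_div_self_le d)
    refine sum_congr rfl fun x _ => ?_
    rw [← sum_div, ← hd]
  have e4 : ∑ x, ∑ y, W x y / d y ≤ (Fintype.card V : ℝ) := by
    refine le_trans (le_of_eq ?_) e3
    rw [sum_comm]
    exact sum_congr rfl fun y _ => sum_congr rfl fun x _ => by rw [hs]
  rw [e0] at H
  have hT : 0 ≤ ∑ x, d x := sum_nonneg fun x _ => hd0 x
  have hP : 0 ≤ ∑ x, ∑ y, W x y * d x * d y := sum_nonneg fun x _ => sum_nonneg fun y _ =>
    mul_nonneg (mul_nonneg (hW0 _ _) (hd0 _)) (hd0 _)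
  have H2 : (∑ x, d x) ^ 4 ≤ (∑ x, ∑ y, W x y * d x * d y) * (∑ x, d x) *
      ((Fintype.card V : ℝ) * (Fintype.card V : ℝ)) :=
    H.trans (mul_le_mul_of_nonneg_left (mul_le_mul e3 e4
      (sum_nonneg fun x _ => sum_nonneg fun y _ => div_nonneg (hW0 _ _) (hd0 _))
      (Nat.cast_nonneg _)) (mul_nonneg hP hT))
  rcases hT.eq_or_lt with h0 | h0
  · rw [← h0]
    have : (0 : ℝ) ^ 3 = 0 := by norm_num
    rw [this]
    positivity
  · refine le_of_mul_le_mul_right ?_ h0
    calc (∑ x, d x) ^ 3 * ∑ x, d x = (∑ x, d x) ^ 4 := by ring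
      _ ≤ _ := H2
      _ = _ := by ring

/-- weighted homomorphism count of the graph -/
noncomputable def homW (W : V → V → ℝ) : ℝ :=
  ∑ v, (∑ y, ∑ z, W y z * (∑ x, (∑ u, W v u * W u x) * W x y) *
      (∑ x, (∑ u, W v u * W u x) * W x z)) * (∑ x, (∑ u, W v u * W u x) ^ 2 * ∑ c, W x c)

lemma main_ineq (g : V → V → V → ℝ) (hg : ∀ x y z, 0 ≤ g x y z)
    (s1 : ∀ x y z, g x y z = g y x z) (s2 : ∀ x y z, g x y z = g x z y)
    (W : V → V → ℝ) (hW : ∀ x y, W x y = ∑ z, g x y z) :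
    (∑ x, ∑ y, W x y) ^ 12 ≤ homW W * (Fintype.card V : ℝ) ^ 13 := by
  have hW0 : ∀ x y, 0 ≤ W x y := fun x y => by rw [hW]; exact sum_nonneg fun z _ => hg _ _ _
  have hs : ∀ x y, W x y = W y x := fun x y => by
    rw [hW, hW]; exact sum_congr rfl fun z _ => s1 _ _ _
  set N : ℝ := (Fintype.card V : ℝ) with hN
  have hN0 : 0 ≤ N := Nat.cast_nonneg _
  let m : V → ℝ := fun v => ∑ x, (∑ u, W v u * W u x) * ∑ y, W x y
  have hm0 : ∀ v, 0 ≤ m v := fun v => sum_nonneg fun x _ =>
    mul_nonneg (sum_nonneg fun u _ => mul_nonneg (hW0 _ _) (hW0 _ _))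
      (sum_nonneg fun y _ => hW0 _ _)
  have h1 : ∑ v, m v ^ 4 ≤ homW W * (N * N) := by
    unfold homW
    rw [sum_mul]
    refine sum_le_sum fun v _ => ?_
    exact key g hg s1 s2 W hW (fun x => ∑ u, W v u * W u x)
      (fun x => sum_nonneg fun u _ => mul_nonneg (hW0 _ _) (hW0 _ _))
      (fun y => ∑ x, (∑ u, W v u * W u x) * W x y) (fun y => rfl)
  have h2 : (∑ v, m v) ^ 4 ≤ N ^ 3 * ∑ v, m v ^ 4 := by
    have := pow_sum_le_card_mul_sum_pow (s := (univ : Finset V)) (f := m) (fun v _ => hm0 v) 3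
    simpa [hN] using this
  have h3 := path3 W hW0 hs (fun x => ∑ y, W x y) (fun x => rfl)
  have h4 : ∑ x, ∑ y, W x y * (∑ z, W x z) * (∑ z, W y z) = ∑ v, m v := by
    simp only [m]
    have : ∀ v, ∑ x, (∑ u, W v u * W u x) * ∑ y, W x y =
        ∑ u, ∑ x, W v u * (W u x * ∑ y, W x y) := by
      intro v
      rw [sum_comm]
      refine sum_congr rfl fun x _ => ?_
      rw [sum_mul]
      exact sum_congr rfl fun u _ => by ring
    simp only [this]
    rw [sum_comm (f := fun v u => ∑ x, W v u * (W u x * ∑ y, W x y))]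
    refine sum_congr rfl fun u _ => ?_
    rw [sum_comm]
    refine sum_congr rfl fun x _ => ?_
    rw [← sum_mul]
    have : ∑ v, W v u = ∑ z, W u z := sum_congr rfl fun v _ => hs _ _
    rw [this]; ring
  rw [h4, ← hN] at h3
  have hT : 0 ≤ ∑ x, ∑ y, W x y := sum_nonneg fun x _ => sum_nonneg fun y _ => hW0 _ _
  calc (∑ x, ∑ y, W x y) ^ 12 = ((∑ x, ∑ y, W x y) ^ 3) ^ 4 := by ring
    _ ≤ ((∑ v, m v) * (N * N)) ^ 4 := pow_le_pow_left₀ (pow_nonneg hT 3) h3 4
    _ = (∑ v, m v) ^ 4 * N ^ 8 := by ring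
    _ ≤ (N ^ 3 * (homW W * (N * N))) * N ^ 8 :=
        mul_le_mul_of_nonneg_right (h2.trans (mul_le_mul_of_nonneg_left h1 (pow_nonneg hN0 3)))
          (pow_nonneg hN0 8)
    _ = _ := by ring

lemma sum_succ_fun (k : ℕ) (F : (Fin (k + 1) → V) → ℝ) :
    ∑ f, F f = ∑ a, ∑ f : Fin k → V, F (Matrix.vecCons a f) := by
  rw [← Fintype.sum_prod_type']
  exact (Fintype.sum_equiv (Fin.consEquiv (fun _ => V)) _ _ (fun p => rfl)).symm

def src : Fin 12 → Fin 11 := ![0, 1, 2, 3, 5, 6, 0, 0, 7, 0, 9, 8]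
def tgt : Fin 12 → Fin 11 := ![1, 2, 3, 4, 4, 5, 6, 7, 8, 9, 8, 10]

lemma hom_eq (W : V → V → ℝ) :
    ∑ φ : Fin 11 → V, ∏ i : Fin 12, W (φ (src i)) (φ (tgt i)) = homW W := by
  have hsum : ∀ F : (Fin 11 → V) → ℝ, ∑ φ, F φ =
      ∑ v, ∑ u1, ∑ x1, ∑ y, ∑ z, ∑ x2, ∑ u2, ∑ a, ∑ x, ∑ b, ∑ c,
        F ![v, u1, x1, y, z, x2, u2, a, x, b, c] := by
    intro F
    rw [sum_succ_fun 10]; refine sum_congr rfl fun _ _ => ?_
    rw [sum_succ_fun 9]; refine sum_congr rfl fun _ _ => ?_
    rw [sum_succ_fun 8]; refine sum_congr rfl fun _ _ => ?_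
    rw [sum_succ_fun 7]; refine sum_congr rfl fun _ _ => ?_
    rw [sum_succ_fun 6]; refine sum_congr rfl fun _ _ => ?_
    rw [sum_succ_fun 5]; refine sum_congr rfl fun _ _ => ?_
    rw [sum_succ_fun 4]; refine sum_congr rfl fun _ _ => ?_
    rw [sum_succ_fun 3]; refine sum_congr rfl fun _ _ => ?_
    rw [sum_succ_fun 2]; refine sum_congr rfl fun _ _ => ?_
    rw [sum_succ_fun 1]; refine sum_congr rfl fun _ _ => ?_
    rw [sum_succ_fun 0]; refine sum_congr rfl fun _ _ => ?_
    rw [Fintype.sum_unique]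
    congr 12
  have hprod : ∀ v u1 x1 y z x2 u2 a x b c : V,
      ∏ i : Fin 12, W (![v, u1, x1, y, z, x2, u2, a, x, b, c] (src i))
        (![v, u1, x1, y, z, x2, u2, a, x, b, c] (tgt i)) =
      W v u1 * (W u1 x1 * (W x1 y * (W y z * (W x2 z * (W u2 x2 * (W v u2 *
        (W v a * (W a x * (W v b * (W b x * W x c)))))))))) := by
    intro v u1 x1 y z x2 u2 a x b c
    simp only [Fin.prod_univ_succ, Fin.prod_univ_zero, mul_one]
    rfl
  rw [hsum]
  simp only [hprod]
  unfold homW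
  refine sum_congr rfl fun v _ => ?_
  have hL : ∀ u1 x1 y z x2 u2 : V, ∑ a, ∑ x, ∑ b, ∑ c,
      W v u1 * (W u1 x1 * (W x1 y * (W y z * (W x2 z * (W u2 x2 * (W v u2 *
        (W v a * (W a x * (W v b * (W b x * W x c)))))))))) =
      (W v u1 * W u1 x1 * W x1 y * W y z * W x2 z * W u2 x2 * W v u2) *
        (∑ x, (∑ u, W v u * W u x) ^ 2 * ∑ c, W x c) := by
    intro u1 x1 y z x2 u2
    rw [sum_comm, mul_sum]
    refine sum_congr rfl fun x _ => ?_
    rw [sq, sum_mul_sum, sum_mul, mul_sum]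
    refine sum_congr rfl fun a _ => ?_
    rw [sum_mul, mul_sum]
    refine sum_congr rfl fun b _ => ?_
    rw [mul_sum, mul_sum]
    exact sum_congr rfl fun c _ => by ring
  simp only [hL, ← sum_mul]
  congr 1
  have hR : ∀ y z : V, W y z * (∑ x, (∑ u, W v u * W u x) * W x y) *
      (∑ x, (∑ u, W v u * W u x) * W x z) =
      ∑ u1, ∑ x1, ∑ x2, ∑ u2, W v u1 * W u1 x1 * W x1 y * W y z * W x2 z * W u2 x2 * W v u2 := by
    intro y z
    rw [sum_comm, mul_assoc, sum_mul_sum, mul_sum]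
    refine sum_congr rfl fun x1 _ => ?_
    rw [sum_comm, mul_sum]
    refine sum_congr rfl fun x2 _ => ?_
    rw [sum_mul, sum_mul, mul_sum]
    refine sum_congr rfl fun u1 _ => ?_
    rw [sum_mul, mul_sum, mul_sum]
    exact sum_congr rfl fun u2 _ => by ring
  simp only [hR]
  symm
  calc ∑ y, ∑ z, ∑ u1, ∑ x1, ∑ x2, ∑ u2,
        W v u1 * W u1 x1 * W x1 y * W y z * W x2 z * W u2 x2 * W v u2
      = ∑ y, ∑ u1, ∑ x1, ∑ z, ∑ x2, ∑ u2,
        W v u1 * W u1 x1 * W x1 y * W y z * W x2 z * W u2 x2 * W v u2 := by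
        refine sum_congr rfl fun y _ => ?_
        rw [sum_comm]
        refine sum_congr rfl fun u1 _ => ?_
        rw [sum_comm]
    _ = _ := by
        rw [sum_comm]
        refine sum_congr rfl fun u1 _ => ?_
        rw [sum_comm]

end main

lemma six_le {n : ℕ} (G : Finset (Finset (Fin n))) (hG : ∀ g ∈ G, g.card = 3) :
    ((6 * G.card : ℕ) : ℝ) ≤
      ∑ x : Fin n, ∑ y : Fin n, ∑ z : Fin n, (if ({x, y, z} : Finset (Fin n)) ∈ G then (1 : ℝ) else 0) := by
  have h1 : ∑ x : Fin n, ∑ y : Fin n, ∑ z : Fin n,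
      (if ({x, y, z} : Finset (Fin n)) ∈ G then (1 : ℝ) else 0) =
      ((univ.filter (fun p : Fin n × Fin n × Fin n =>
        ({p.1, p.2.1, p.2.2} : Finset (Fin n)) ∈ G)).card : ℝ) := by
    rw [← sum_boole]
    simp only [Fintype.sum_prod_type]
  rw [h1]
  norm_cast
  have h2 := card_eq_sum_card_fiberwise
    (f := fun p : Fin n × Fin n × Fin n => ({p.1, p.2.1, p.2.2} : Finset (Fin n)))
    (s := univ.filter (fun p : Fin n × Fin n × Fin n =>
        ({p.1, p.2.1, p.2.2} : Finset (Fin n)) ∈ G)) (t := G)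
    (by intro p hp; simpa using hp)
  rw [h2, mul_comm, ← smul_eq_mul, ← sum_const]
  refine sum_le_sum fun S hS => ?_
  obtain ⟨a, b, c, hab, hac, hbc, rfl⟩ := card_eq_three.1 (hG S hS)
  have hsub : ({(a, b, c), (a, c, b), (b, a, c), (b, c, a), (c, a, b), (c, b, a)} :
      Finset (Fin n × Fin n × Fin n)) ⊆
      (univ.filter (fun p : Fin n × Fin n × Fin n =>
        ({p.1, p.2.1, p.2.2} : Finset (Fin n)) ∈ G)).filter
        (fun p => ({p.1, p.2.1, p.2.2} : Finset (Fin n)) = {a, b, c}) := by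
    intro p hp
    simp only [mem_insert, mem_singleton] at hp
    have key : ({p.1, p.2.1, p.2.2} : Finset (Fin n)) = {a, b, c} := by
      rcases hp with rfl | rfl | rfl | rfl | rfl | rfl <;> ext t <;> simp <;> tauto
    exact mem_filter.2 ⟨mem_filter.2 ⟨mem_univ _, by rw [key]; exact hS⟩, key⟩
  refine le_trans (le_of_eq ?_) (card_le_card hsub)
  have hba := hab.symm
  have hca := hac.symm
  have hcb := hbc.symm
  rw [card_insert_of_notMem, card_insert_of_notMem, card_insert_of_notMem, card_insert_of_notMem,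
    card_insert_of_notMem, card_singleton] <;> simp [*]

theorem result :
    ∃ (k r a m : ℕ) (e : Fin m → Finset (Fin a)),
      2 ≤ k ∧ k < r ∧ Function.Injective e ∧ (∀ i, (e i).card = k) ∧
      (¬ ∀ n : ℕ, 0 < n → ∀ G : Finset (Finset (Fin n)), (∀ g ∈ G, g.card = k) →
        (((k.factorial * G.card : ℕ) : ℝ) / (n : ℝ) ^ k) ^ m ≤
          ((Finset.univ.filter
              (fun f : Fin a → Fin n => ∀ i : Fin m, (e i).image f ∈ G)).card : ℝ)
            / (n : ℝ) ^ a) ∧
      (∀ n : ℕ, 0 < n → ∀ G : Finset (Finset (Fin n)), (∀ g ∈ G, g.card = r) →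
        (((r.factorial * G.card : ℕ) : ℝ) / (n : ℝ) ^ r) ^ m ≤
          ((Finset.univ.filter
              (fun f : Fin a ⊕ (Fin m × Fin (r - k)) → Fin n =>
                ∀ i : Fin m,
                  ((e i).image (Sum.inl : Fin a → Fin a ⊕ (Fin m × Fin (r - k))) ∪
                    (Finset.univ : Finset (Fin (r - k))).image
                      (fun j : Fin (r - k) =>
                        (Sum.inr (i, j) : Fin a ⊕ (Fin m × Fin (r - k))))).image f ∈ G)).card : ℝ)
            / (n : ℝ) ^ (a + m * (r - k))) := by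
  refine ⟨2, 3, 11, 12, fun i => {src i, tgt i}, le_rfl, by norm_num, by decide, by decide, ?_, ?_⟩
  · intro h
    have h1 := h 2 (by norm_num) {univ} (by simp)
    have h2 : (Finset.univ.filter (fun f : Fin 11 → Fin 2 => ∀ i : Fin 12,
        (({src i, tgt i} : Finset (Fin 11))).image f ∈ ({univ} : Finset (Finset (Fin 2))))) = ∅ := by
      rw [filter_eq_empty_iff]
      intro f _ hf
      have hne : ∀ i, (f (src i)).val ≠ (f (tgt i)).val := by
        intro i hi
        have h3 := hf i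
        rw [mem_singleton, image_insert, image_singleton, Fin.ext hi] at h3
        have h4 := congrArg card h3
        simp at h4
      have a0 := hne 0
      have a1 := hne 1
      have a2 := hne 2
      have a3 := hne 3
      have a4 := hne 4
      have a5 := hne 5
      have a6 := hne 6
      change (f 0).val ≠ (f 1).val at a0
      change (f 1).val ≠ (f 2).val at a1
      change (f 2).val ≠ (f 3).val at a2
      change (f 3).val ≠ (f 4).val at a3
      change (f 5).val ≠ (f 4).val at a4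
      change (f 6).val ≠ (f 5).val at a5
      change (f 0).val ≠ (f 6).val at a6
      have := (f 0).isLt
      have := (f 1).isLt
      have := (f 2).isLt
      have := (f 3).isLt
      have := (f 4).isLt
      have := (f 5).isLt
      have := (f 6).isLt
      omega
    rw [h2] at h1
    norm_num [Nat.factorial] at h1
  · intro n hn G hG
    let g : Fin n → Fin n → Fin n → ℝ := fun x y z =>
      if ({x, y, z} : Finset (Fin n)) ∈ G then (1 : ℝ) else 0
    have hg : ∀ x y z, 0 ≤ g x y z := fun x y z => by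
      simp only [g]; split_ifs <;> norm_num
    have s1 : ∀ x y z, g x y z = g y x z := fun x y z => by
      simp only [g]; rw [insert_comm]
    have s2 : ∀ x y z, g x y z = g x z y := fun x y z => by
      simp only [g]; rw [pair_comm y z]
    have M := main_ineq g hg s1 s2 (fun x y => ∑ z, g x y z) (fun x y => rfl)
    have T6 := six_le G hG
    change _ ≤ ((Finset.univ.filter
              (fun f : Fin 11 ⊕ (Fin 12 × Fin 1) → Fin n =>
                ∀ i : Fin 12,
                  (({src i, tgt i} : Finset (Fin 11)).image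
                    (Sum.inl : Fin 11 → Fin 11 ⊕ (Fin 12 × Fin 1)) ∪
                    (Finset.univ : Finset (Fin 1)).image
                      (fun j : Fin 1 =>
                        (Sum.inr (i, j) : Fin 11 ⊕ (Fin 12 × Fin 1)))).image f ∈ G)).card : ℝ)
            / (n : ℝ) ^ 23
    have hcard : ((Finset.univ.filter
              (fun f : Fin 11 ⊕ (Fin 12 × Fin 1) → Fin n =>
                ∀ i : Fin 12,
                  (({src i, tgt i} : Finset (Fin 11)).image
                    (Sum.inl : Fin 11 → Fin 11 ⊕ (Fin 12 × Fin 1)) ∪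
                    (Finset.univ : Finset (Fin 1)).image
                      (fun j : Fin 1 =>
                        (Sum.inr (i, j) : Fin 11 ⊕ (Fin 12 × Fin 1)))).image f ∈ G)).card : ℝ) =
        homW (fun x y => ∑ z, g x y z) := by
      rw [← hom_eq, ← sum_boole]
      have e1 : ∀ f : Fin 11 ⊕ (Fin 12 × Fin 1) → Fin n,
          (if (∀ i : Fin 12,
                  (({src i, tgt i} : Finset (Fin 11)).image
                    (Sum.inl : Fin 11 → Fin 11 ⊕ (Fin 12 × Fin 1)) ∪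
                    (Finset.univ : Finset (Fin 1)).image
                      (fun j : Fin 1 =>
                        (Sum.inr (i, j) : Fin 11 ⊕ (Fin 12 × Fin 1)))).image f ∈ G)
            then (1 : ℝ) else 0) =
          ∏ i : Fin 12, g (f (Sum.inl (src i))) (f (Sum.inl (tgt i))) (f (Sum.inr (i, 0))) := by
        intro f
        simp only [g]
        rw [Fintype.prod_boole]
        congr 1
        refine propext (forall_congr' fun i => ?_)
        have : ((({src i, tgt i} : Finset (Fin 11)).image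
                    (Sum.inl : Fin 11 → Fin 11 ⊕ (Fin 12 × Fin 1)) ∪
                    (Finset.univ : Finset (Fin 1)).image
                      (fun j : Fin 1 =>
                        (Sum.inr (i, j) : Fin 11 ⊕ (Fin 12 × Fin 1)))).image f) =
            {f (Sum.inl (src i)), f (Sum.inl (tgt i)), f (Sum.inr (i, 0))} := by
          rw [univ_unique, image_singleton, image_insert, image_singleton, image_union,
            image_insert, image_singleton, image_singleton, insert_union, ← insert_eq]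
          rfl
        rw [this]
      simp only [e1]
      rw [← (Equiv.sumArrowEquivProdArrow (Fin 11) (Fin 12 × Fin 1) (Fin n)).symm.sum_comp,
        Fintype.sum_prod_type]
      refine sum_congr rfl fun φ _ => ?_
      rw [prod_univ_sum, Fintype.piFinset_univ]
      refine Fintype.sum_equiv
        (Equiv.arrowCongr (Equiv.prodUnique (Fin 12) (Fin 1)) (Equiv.refl (Fin n))) _ _ ?_
      intro ψ
      rfl
    rw [hcard]
    have hnR : (0 : ℝ) < n := by exact_mod_cast hn
    rw [Fintype.card_fin] at M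
    have f3 : Nat.factorial 3 = 6 := rfl
    rw [f3, div_pow, div_le_div_iff₀ (by positivity) (by positivity)]
    have h6 : ((6 * G.card : ℕ) : ℝ) ^ 12 ≤ (∑ x, ∑ y, ∑ z, g x y z) ^ 12 :=
      pow_le_pow_left₀ (Nat.cast_nonneg _) T6 12
    calc ((6 * G.card : ℕ) : ℝ) ^ 12 * (n : ℝ) ^ 23
        ≤ (homW (fun x y => ∑ z, g x y z) * (n : ℝ) ^ 13) * (n : ℝ) ^ 23 :=
          mul_le_mul_of_nonneg_right (h6.trans M) (by positivity)
      _ = _ := by ring

end Pool.Agent.S11547
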