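import Pool.Statements.S11646
import Pool.Agent.Lib.helper15.PermMob

set_option autoImplicit false
open Classical
open Pool Pool.MP_d308b2_co

namespace Pool.Agent.S11646

open Pool.Agent.Lib.helper15.PermMob

def tl : List ℕ := [16, 7, 6, 5, 4, 3, 2, 1, 9, 11, 8, 13, 15, 12, 0, 10, 14]

def tv (i : ℕ) : ℕ := tl.getD i 0

def occ : List ℕ := [0, 1, 2, 3, 4, 5, 6, 7, 14]

def full : List ℕ := [0, 1, 2, 3, 4, 5, 6, 7, 8, 9, 10, 11, 12, 13, 14, 15, 16]

def qv (Q : List ℕ) (i : ℕ) : ℕ := tv (Q.getD i 0)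

noncomputable def pat (Q : List ℕ) : P := mk Q.length (qv Q)

def Valid (Q : List ℕ) : Prop := Q.Pairwise (· < ·) ∧ ∀ x ∈ Q, x < 17

theorem Valid.sub {Q Q' : List ℕ} (h : Valid Q) (hs : Q'.Sublist Q) : Valid Q' :=
  ⟨h.1.sublist hs, fun x hx => h.2 x (hs.subset hx)⟩

theorem valid_full : Valid full := by
  constructor <;> decide

theorem valid_occ : Valid occ := by
  constructor <;> decide

theorem getD_eq (Q : List ℕ) (i : ℕ) (h : i < Q.length) : Q.getD i 0 = Q[i] := by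
  simp [List.getD, h]

theorem Valid.mono {Q : List ℕ} (h : Valid Q) {i j : ℕ} (hij : i < j) (hj : j < Q.length) :
    Q.getD i 0 < Q.getD j 0 := by
  rw [getD_eq Q i (by omega), getD_eq Q j hj]
  exact List.pairwise_iff_getElem.mp h.1 i j (by omega) hj hij

theorem getD_mem (Q : List ℕ) {i : ℕ} (hi : i < Q.length) : Q.getD i 0 ∈ Q := by
  rw [getD_eq Q i hi]
  exact List.getElem_mem hi

theorem Valid.bd {Q : List ℕ} (h : Valid Q) {i : ℕ} (hi : i < Q.length) : Q.getD i 0 < 17 :=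
  h.2 _ (getD_mem Q hi)

theorem tv_inj : ∀ x, x < 17 → ∀ y, y < 17 → tv x = tv y → x = y := by decide

theorem rep_pat {Q : List ℕ} (h : Valid Q) : Rep (pat Q) Q.length (qv Q) := by
  apply rep_mk
  intro i j hi hj hv
  have := tv_inj _ (h.bd hi) _ (h.bd hj) hv
  rcases Nat.lt_trichotomy i j with h1 | h1 | h1
  · have := h.mono h1 hj
    omega
  · exact h1
  · have := h.mono h1 hi
    omega

theorem le_pat {Q Q' : List ℕ} (h : Valid Q) (hs : Q'.Sublist Q) : Le (pat Q') (pat Q) := by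
  obtain ⟨f, hf⟩ := List.sublist_iff_exists_orderEmbedding_getElem?_eq.mp hs
  have hb : ∀ i, i < Q'.length → f i < Q.length := by
    intro i hi
    have := hf i
    by_contra hc
    rw [List.getElem?_eq_none (by omega : Q.length ≤ f i), List.getElem?_eq_getElem hi] at this
    simp at this
  have hq : ∀ i, qv Q' i = qv Q (f i) := by
    intro i
    simp only [qv, List.getD_eq_getElem?_getD, hf i]
  rw [le_iff]
  refine ⟨f, ?_⟩
  rw [emb_iff (rep_pat (h.sub hs)) (rep_pat h)]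
  refine ⟨fun i j hij _ => f.strictMono hij, hb, ?_⟩
  intro i j _ _
  rw [hq i, hq j]

theorem exists_sub {Q : List ℕ} (h : Valid Q) {z : P} (hz : Le z (pat Q)) :
    ∃ Q', Q'.Sublist Q ∧ z = pat Q' := by
  rw [le_iff] at hz
  obtain ⟨e, he⟩ := hz
  rw [emb_iff (rep_self z) (rep_pat h)] at he
  let Q' := (List.range z.1).map (fun i => Q.getD (e i) 0)
  have hlen : Q'.length = z.1 := by simp [Q']
  have hget : ∀ i, i < z.1 → Q'.getD i 0 = Q.getD (e i) 0 := by
    intro i hi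
    rw [getD_eq Q' i (by omega)]
    simp [Q']
  have hp : Q'.Pairwise (· < ·) := by
    rw [List.pairwise_iff_getElem]
    intro i j hi hj hij
    rw [← getD_eq Q' i hi, ← getD_eq Q' j hj, hget i (by omega), hget j (by omega)]
    exact h.mono (he.mono i j hij (by omega)) (he.bd j (by omega))
  have hsub : Q' ⊆ Q := by
    intro x hx
    simp only [Q', List.mem_map, List.mem_range] at hx
    obtain ⟨i, hi, rfl⟩ := hx
    exact getD_mem Q (he.bd i hi)
  have hs : Q'.Sublist Q :=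
    List.sublist_of_subperm_of_pairwise (r := (· < ·))
      (List.subperm_of_subset hp.nodup hsub) hp h.1
  refine ⟨Q', hs, ?_⟩
  apply rep_unique _ (rep_pat (h.sub hs))
  refine ⟨hlen.symm, ?_⟩
  intro i j hi hj
  rw [he.ord i j (by omega) (by omega)]
  simp only [qv]
  rw [hget i (by omega), hget j (by omega)]

def ca (i : ℕ) : ℕ := [1, 2, 3, 4, 5, 6, 7, 8, 2, 2, 3, 2, 2, 3, 9, 4, 3].getD i 0

def cb (i : ℕ) : ℕ := [9, 8, 7, 6, 5, 4, 3, 2, 3, 3, 2, 3, 3, 2, 1, 1, 1].getD i 0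

theorem cert_step : ∀ j, j < 17 → ∀ i, i < j → tv j < tv i → ca i + 1 ≤ ca j ∧ cb j + 1 ≤ cb i := by
  decide

theorem cert_pos : ∀ j, j < 17 → 1 ≤ ca j ∧ 1 ≤ cb j := by decide

theorem cert_fin : ∀ i, i < 9 → ∀ x, x < 17 → i + 1 ≤ ca x → 9 ≤ cb x + i → x = occ.getD i 0 := by
  decide

theorem occ_dec : ∀ i, i < 8 → qv occ (i + 1) < qv occ i := by decide

theorem uniq0 {Q : List ℕ} (h : Valid Q) {e : ℕ → ℕ} (he : Emb (pat occ) (pat Q) e) :
    ∀ i, i < 9 → e i < Q.length ∧ Q.getD (e i) 0 = occ.getD i 0 := by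
  rw [emb_iff (rep_pat valid_occ) (rep_pat h)] at he
  have hl : occ.length = 9 := rfl
  rw [hl] at he
  have hb : ∀ i, i < 9 → Q.getD (e i) 0 < 17 := fun i hi => h.bd (he.bd i hi)
  have hs : ∀ i, i < 8 → ca (Q.getD (e i) 0) + 1 ≤ ca (Q.getD (e (i + 1)) 0) ∧
      cb (Q.getD (e (i + 1)) 0) + 1 ≤ cb (Q.getD (e i) 0) := by
    intro i hi
    apply cert_step _ (hb _ (by omega)) _
      (h.mono (he.mono i (i + 1) (by omega) (by omega)) (he.bd _ (by omega)))
    exact (he.ord (i + 1) i (by omega) (by omega)).mp (occ_dec i hi)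
  have h0 := cert_pos _ (hb 0 (by omega))
  have h8 := cert_pos _ (hb 8 (by omega))
  have s0 := hs 0 (by omega)
  have s1 := hs 1 (by omega)
  have s2 := hs 2 (by omega)
  have s3 := hs 3 (by omega)
  have s4 := hs 4 (by omega)
  have s5 := hs 5 (by omega)
  have s6 := hs 6 (by omega)
  have s7 := hs 7 (by omega)
  norm_num only at s0 s1 s2 s3 s4 s5 s6 s7
  intro i hi
  refine ⟨he.bd i hi, ?_⟩
  apply cert_fin i hi _ (hb i hi) <;> interval_cases i <;> omega

def subs : List ℕ → List (List ℕ)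
  | [] => [[]]
  | x :: r => if x ∈ occ then (subs r).map (x :: ·) else subs r ++ (subs r).map (x :: ·)

theorem mem_subs {Q : List ℕ} (hQ : Q.Nodup) {Q' : List ℕ} :
    Q' ∈ subs Q ↔ Q'.Sublist Q ∧ ∀ x ∈ Q, x ∈ occ → x ∈ Q' := by
  induction Q generalizing Q' with
  | nil => simp [subs]
  | cons x r ih =>
    rw [List.nodup_cons] at hQ
    have ih := fun Q' => ih hQ.2 (Q' := Q')
    by_cases hx : x ∈ occ
    · simp only [subs, hx, if_true, List.mem_map, ih]
      constructor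
      · rintro ⟨a, ⟨h1, h2⟩, rfl⟩
        refine ⟨h1.cons_cons x, ?_⟩
        intro y hy hyo
        rcases List.mem_cons.mp hy with rfl | hy
        · exact List.mem_cons_self
        · exact List.mem_cons_of_mem _ (h2 y hy hyo)
      · rintro ⟨h1, h2⟩
        rcases List.sublist_cons_iff.mp h1 with h3 | ⟨a, rfl, h3⟩
        · exact absurd (h3.subset (h2 x List.mem_cons_self hx)) hQ.1
        · refine ⟨a, ⟨h3, ?_⟩, rfl⟩
          intro y hy hyo
          rcases List.mem_cons.mp (h2 y (List.mem_cons_of_mem _ hy) hyo) with rfl | h4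
          · exact absurd hy hQ.1
          · exact h4
    · simp only [subs, hx, if_false, List.mem_append, List.mem_map, ih]
      constructor
      · rintro (⟨h1, h2⟩ | ⟨a, ⟨h1, h2⟩, rfl⟩)
        · refine ⟨h1.cons x, ?_⟩
          intro y hy hyo
          rcases List.mem_cons.mp hy with rfl | hy
          · exact absurd hyo hx
          · exact h2 y hy hyo
        · refine ⟨h1.cons_cons x, ?_⟩
          intro y hy hyo
          rcases List.mem_cons.mp hy with rfl | hy
          · exact List.mem_cons_self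
          · exact List.mem_cons_of_mem _ (h2 y hy hyo)
      · rintro ⟨h1, h2⟩
        rcases List.sublist_cons_iff.mp h1 with h3 | ⟨a, rfl, h3⟩
        · left
          exact ⟨h3, fun y hy hyo => h2 y (List.mem_cons_of_mem _ hy) hyo⟩
        · right
          refine ⟨a, ⟨h3, ?_⟩, rfl⟩
          intro y hy hyo
          rcases List.mem_cons.mp (h2 y (List.mem_cons_of_mem _ hy) hyo) with rfl | h4
          · exact absurd hy hQ.1
          · exact h4

theorem occ_le_iff {Q : List ℕ} (h : Valid Q) : Le (pat occ) (pat Q) ↔ ∀ x ∈ occ, x ∈ Q := by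
  constructor
  · intro hl x hx
    rw [le_iff] at hl
    obtain ⟨e, he⟩ := hl
    obtain ⟨i, hi, rfl⟩ := List.getElem_of_mem hx
    have := uniq0 h he i hi
    rw [← getD_eq occ i hi, ← this.2]
    exact getD_mem Q this.1
  · intro hx
    exact le_pat h (List.sublist_of_subperm_of_pairwise (r := (· < ·))
      (List.subperm_of_subset valid_occ.1.nodup hx) valid_occ.1 h.1)

theorem mem_Icc_pat {Q : List ℕ} (h : Valid Q) (ho : ∀ x ∈ occ, x ∈ Q) {z : P} :
    z ∈ Icc (pat occ) (pat Q) ↔ ∃ Q' ∈ subs Q, z = pat Q' := by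
  rw [mem_Icc]
  constructor
  · rintro ⟨h1, h2⟩
    obtain ⟨Q', hs, rfl⟩ := exists_sub h h2
    refine ⟨Q', (mem_subs h.1.nodup).mpr ⟨hs, fun x _ hx => ?_⟩, rfl⟩
    exact (occ_le_iff (h.sub hs)).mp h1 x hx
  · rintro ⟨Q', hQ', rfl⟩
    rw [mem_subs h.1.nodup] at hQ'
    exact ⟨(occ_le_iff (h.sub hQ'.1)).mpr (fun x hx => hQ'.2 x (ho x hx) hx), le_pat h hQ'.1⟩

def keyP (z : P) : List ℕ := (List.range z.1).map (val z)

def rank (l : List ℕ) : List ℕ := l.map (fun x => l.countP (fun y => decide (y < x)))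

def key (Q : List ℕ) : List ℕ := rank (Q.map tv)

theorem keyP_inj : Function.Injective keyP := by
  intro x y h
  have h1 : x.1 = y.1 := by simpa [keyP] using congrArg List.length h
  have h2 : ∀ i, i < x.1 → val x i = val y i := by
    intro i hi
    have := congrArg (fun l => l[i]?) h
    simpa [keyP, hi, h1 ▸ hi] using this
  apply rep_unique (rep_self x)
  refine ⟨h1.symm, ?_⟩
  intro i j hi hj
  rw [h2 i hi, h2 j hj]

theorem val_count (x : P) (i : ℕ) (hi : i < x.1) :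
    val x i = (List.range x.1).countP (fun j => decide (val x j < val x i)) := by
  have h1 : (List.range x.1).countP (fun j => decide (val x j < val x i)) =
      ((Finset.range x.1).filter (fun j => val x j < val x i)).card := by
    rw [List.countP_eq_length_filter, ← List.toFinset_card_of_nodup (List.nodup_range.filter _)]
    congr 1
    ext j
    simp
  rw [h1]
  symm
  apply Finset.card_eq_of_equiv_fin
  refine Equiv.ofBijective (fun j => ⟨val x j.1, (Finset.mem_filter.mp j.2).2⟩) ⟨?_, ?_⟩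
  · intro a b hab
    have ha := Finset.mem_range.mp (Finset.mem_filter.mp a.2).1
    have hb := Finset.mem_range.mp (Finset.mem_filter.mp b.2).1
    exact Subtype.ext (val_inj x _ _ ha hb (by simpa using hab))
  · intro c
    have hc : c.1 < x.1 := lt_trans c.2 (val_lt x i hi)
    have hv : val x (x.2.symm ⟨c.1, hc⟩) = c.1 := by
      rw [val_fin]
      simp
    refine ⟨⟨(x.2.symm ⟨c.1, hc⟩ : Fin x.1), ?_⟩, Fin.ext hv⟩
    rw [Finset.mem_filter, Finset.mem_range, hv]
    exact ⟨Fin.is_lt _, c.2⟩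

theorem keyP_pat {Q : List ℕ} (h : Valid Q) : keyP (pat Q) = key Q := by
  obtain ⟨h1, h2⟩ := rep_pat h
  have h3 : Q.map tv = (List.range Q.length).map (qv Q) := by
    apply List.ext_getElem
    · simp
    · intro i hi _
      simp only [List.length_map] at hi
      simp only [List.getElem_map, List.getElem_range, qv]
      rw [getD_eq Q i hi]
  simp only [keyP, key, rank]
  rw [h3, List.map_map, h1]
  apply List.map_congr_left
  intro i hi
  rw [List.mem_range] at hi
  rw [val_count _ i (by omega), h1]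
  simp only [Function.comp, List.countP_map]
  apply List.countP_congr
  intro j hj
  rw [List.mem_range] at hj
  simp only [Function.comp, decide_eq_true_eq]
  exact h2 j i hj hi

def table : List (List ℕ × ℤ) :=
  [([8, 7, 6, 5, 4, 3, 2, 1, 0], 1),
   ([9, 7, 6, 5, 4, 3, 2, 1, 0, 8], -1),
   ([9, 7, 6, 5, 4, 3, 2, 1, 8, 0], -1),
   ([10, 7, 6, 5, 4, 3, 2, 1, 8, 0, 9], 1),
   ([10, 7, 6, 5, 4, 3, 2, 1, 9, 0, 8], 1),
   ([11, 7, 6, 5, 4, 3, 2, 1, 9, 0, 8, 10], -1),
   ([11, 7, 6, 5, 4, 3, 2, 1, 10, 8, 0, 9], -1),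
   ([11, 7, 6, 5, 4, 3, 2, 1, 8, 10, 0, 9], -1),
   ([12, 7, 6, 5, 4, 3, 2, 1, 11, 9, 0, 8, 10], 1),
   ([12, 7, 6, 5, 4, 3, 2, 1, 9, 11, 0, 8, 10], 1),
   ([12, 7, 6, 5, 4, 3, 2, 1, 9, 11, 8, 0, 10], 1),
   ([12, 7, 6, 5, 4, 3, 2, 1, 8, 10, 0, 9, 11], 1),
   ([12, 7, 6, 5, 4, 3, 2, 1, 8, 11, 9, 0, 10], 1),
   ([12, 7, 6, 5, 4, 3, 2, 1, 10, 8, 0, 9, 11], 1),
   ([12, 7, 6, 5, 4, 3, 2, 1, 10, 8, 11, 0, 9], 1),
   ([13, 7, 6, 5, 4, 3, 2, 1, 10, 12, 9, 0, 8, 11], -1),
   ([13, 7, 6, 5, 4, 3, 2, 1, 8, 12, 10, 0, 9, 11], -1),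
   ([13, 7, 6, 5, 4, 3, 2, 1, 8, 10, 12, 0, 9, 11], -1),
   ([13, 7, 6, 5, 4, 3, 2, 1, 8, 10, 12, 9, 0, 11], -1),
   ([13, 7, 6, 5, 4, 3, 2, 1, 9, 12, 10, 0, 8, 11], -1),
   ([13, 7, 6, 5, 4, 3, 2, 1, 10, 8, 11, 0, 9, 12], -1),
   ([13, 7, 6, 5, 4, 3, 2, 1, 10, 8, 12, 0, 9, 11], -1),
   ([13, 7, 6, 5, 4, 3, 2, 1, 9, 11, 8, 0, 10, 12], -1),
   ([13, 7, 6, 5, 4, 3, 2, 1, 9, 11, 8, 12, 0, 10], -1),
   ([14, 7, 6, 5, 4, 3, 2, 1, 8, 11, 13, 10, 0, 9, 12], 1),
   ([14, 7, 6, 5, 4, 3, 2, 1, 9, 11, 13, 10, 0, 8, 12], 1),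
   ([14, 7, 6, 5, 4, 3, 2, 1, 10, 8, 11, 13, 0, 9, 12], 1),
   ([14, 7, 6, 5, 4, 3, 2, 1, 8, 10, 13, 11, 0, 9, 12], 1),
   ([14, 7, 6, 5, 4, 3, 2, 1, 9, 11, 8, 12, 0, 10, 13], 1),
   ([14, 7, 6, 5, 4, 3, 2, 1, 9, 11, 8, 13, 0, 10, 12], 1),
   ([15, 7, 6, 5, 4, 3, 2, 1, 10, 8, 12, 14, 11, 0, 9, 13], -1),
   ([15, 7, 6, 5, 4, 3, 2, 1, 8, 10, 12, 14, 11, 0, 9, 13], -1),
   ([15, 7, 6, 5, 4, 3, 2, 1, 9, 11, 8, 14, 12, 0, 10, 13], -1),
   ([15, 7, 6, 5, 4, 3, 2, 1, 9, 11, 8, 12, 14, 0, 10, 13], -1),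
   ([16, 7, 6, 5, 4, 3, 2, 1, 9, 11, 8, 13, 15, 12, 0, 10, 14], 2)]

def look (k : List ℕ) : ℤ := (table.lookup k).getD 0

def ded : List (List ℕ) → ℤ
  | [] => 0
  | k :: l => (if l.contains k then 0 else look k) + ded l

theorem sum_ded (l : List (List ℕ)) : ∑ k ∈ l.toFinset, look k = ded l := by
  induction l with
  | nil => simp [ded]
  | cons k l ih =>
    rw [List.toFinset_cons]
    by_cases h : k ∈ l
    · rw [Finset.insert_eq_of_mem (List.mem_toFinset.mpr h), ih]
      simp [ded, h]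
    · rw [Finset.sum_insert (by simpa using h), ih]
      simp [ded, h]

theorem check_all : (subs full).all
    (fun Q => decide (ded ((subs Q).map key) = if Q = occ then 1 else 0)) = true := by
  decide +kernel

theorem check_indec : (subs full).all
    (fun Q => (List.range Q.length).all (fun j => decide (0 < j → qv Q j < qv Q 0))) = true := by
  decide +kernel

theorem occ_full : ∀ x ∈ occ, x ∈ full := by decide

theorem mem_interval {y : P} (h1 : Le (pat occ) y) (h2 : Le y (pat full)) :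
    ∃ Q ∈ subs full, Valid Q ∧ (∀ x ∈ occ, x ∈ Q) ∧ y = pat Q := by
  obtain ⟨Q, hQ, rfl⟩ := (mem_Icc_pat valid_full occ_full).mp (mem_Icc.mpr ⟨h1, h2⟩)
  have h3 := (mem_subs valid_full.1.nodup).mp hQ
  exact ⟨Q, hQ, valid_full.sub h3.1, fun x hx => h3.2 x (occ_full x hx) hx, rfl⟩

theorem mob_base : mob (pat occ) (pat full) = 2 := by
  have hle : Le (pat occ) (pat full) := (occ_le_iff valid_full).mpr occ_full
  rw [mob_eq (pat occ) (pat full) (fun z => look (keyP z)) ?_ _ _ rfl hle (Le.refl _)]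
  · rw [keyP_pat valid_full]
    decide +kernel
  · intro y h1 h2
    obtain ⟨Q, hQ, hv, ho, rfl⟩ := mem_interval h1 h2
    have h3 := List.all_eq_true.mp check_all Q hQ
    rw [decide_eq_true_eq, ← sum_ded] at h3
    have h4 : ((subs Q).map key).toFinset = (Icc (pat occ) (pat Q)).image keyP := by
      ext k
      simp only [List.mem_toFinset, List.mem_map, Finset.mem_image, mem_Icc_pat hv ho]
      constructor
      · rintro ⟨Q', hQ', rfl⟩
        exact ⟨pat Q', ⟨Q', hQ', rfl⟩, keyP_pat (hv.sub ((mem_subs hv.1.nodup).mp hQ').1)⟩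
      · rintro ⟨z, ⟨Q', hQ', rfl⟩, rfl⟩
        exact ⟨Q', hQ', (keyP_pat (hv.sub ((mem_subs hv.1.nodup).mp hQ').1)).symm⟩
    rw [h4, Finset.sum_image (fun a _ b _ hab => keyP_inj hab)] at h3
    rw [h3]
    by_cases h5 : Q = occ
    · rw [if_pos h5, if_pos (by rw [h5])]
    · rw [if_neg h5, if_neg]
      intro h6
      apply h5
      have h7 : occ.length = Q.length := by
        rw [← (rep_pat valid_occ).1, ← (rep_pat hv).1, h6]
      have h8 : occ.Sublist Q := List.sublist_of_subperm_of_pairwise (r := (· < ·))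
        (List.subperm_of_subset valid_occ.1.nodup ho) valid_occ.1 hv.1
      exact (h8.eq_of_length h7).symm

theorem base : Base (pat occ) (pat full) := by
  have s1 : (pat occ).1 = 9 := (rep_pat valid_occ).1
  have s2 : (pat full).1 = 17 := (rep_pat valid_full).1
  refine ⟨(occ_le_iff valid_full).mpr occ_full, by omega, by omega, ?_, ?_⟩
  · intro a h1 h2
    obtain ⟨Q, hQ, hv, ho, rfl⟩ := mem_interval h1 h2
    have h3 := List.all_eq_true.mp check_indec Q hQ
    obtain ⟨r1, r2⟩ := rep_pat hv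
    intro j hj hjl
    have h4 := List.all_eq_true.mp h3 j (List.mem_range.mpr (by omega))
    rw [decide_eq_true_eq] at h4
    exact (r2 j 0 (by omega) (by omega)).mpr (h4 hj)
  · intro e e' he he' i hi
    have h1 := uniq0 valid_full he i (by omega)
    have h2 := uniq0 valid_full he' i (by omega)
    rcases Nat.lt_trichotomy (e i) (e' i) with h | h | h
    · have := valid_full.mono h h2.1
      omega
    · exact h
    · have := valid_full.mono h h1.1
      omega

/-- The negation of the preceding statement: There is a function f on naturals such that for all permutations σ, τ, the absolute value of the Möbius function μ(σ,τ) of the pattern-containment poset is at most f of the number of occurrences of σ in τ. -/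
theorem result :
    ¬ (∃ f : ℕ → ℕ, ∀ m : (Σ n : ℕ, Equiv.Perm (Fin n)) → (Σ n : ℕ, Equiv.Perm (Fin n)) → ℤ,
      (∀ x, m x x = 1) →
      (∀ x y, (¬ ∃ e : Fin x.1 → Fin y.1, StrictMono e ∧
          ∀ i j, x.2 i < x.2 j ↔ y.2 (e i) < y.2 (e j)) → m x y = 0) →
      (∀ x y, x ≠ y →
        (∃ e : Fin x.1 → Fin y.1, StrictMono e ∧
          ∀ i j, x.2 i < x.2 j ↔ y.2 (e i) < y.2 (e j)) →
        ∑ k ∈ Finset.range (y.1 + 1), ∑ ρ : Equiv.Perm (Fin k),
          (if (∃ e : Fin x.1 → Fin k, StrictMono e ∧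
                ∀ i j, x.2 i < x.2 j ↔ ρ (e i) < ρ (e j)) ∧
              (∃ e : Fin k → Fin y.1, StrictMono e ∧
                ∀ i j, ρ i < ρ j ↔ y.2 (e i) < y.2 (e j))
            then m x ⟨k, ρ⟩ else 0) = 0) →
      ∀ x y, |m x y| ≤
        ((f {e : Fin x.1 → Fin y.1 | StrictMono e ∧
            ∀ i j, x.2 i < x.2 j ↔ y.2 (e i) < y.2 (e j)}.ncard : ℕ) : ℤ)) := by
  rintro ⟨f, hf⟩
  have h := hf mob mob_self (fun x y hxy => mob_not_le x y hxy) (by
    intro x y hne hle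
    have := sum_mob x y hle
    rw [if_neg hne, Icc, Finset.sum_filter, Finset.sum_sigma] at this
    refine Eq.trans ?_ this
    refine Finset.sum_congr rfl (fun k _ => Finset.sum_congr rfl (fun ρ _ => ?_))
    exact if_congr Iff.rfl rfl rfl)
    (pw (pat occ) (f 0 + f 1)) (pw (pat full) (f 0 + f 1))
  rw [base.mob_pw, mob_base] at h
  have hu := base.uniq_pw (f 0 + f 1)
  generalize pw (pat occ) (f 0 + f 1) = x at h hu
  generalize pw (pat full) (f 0 + f 1) = y at h hu
  have hc : {e : Fin x.1 → Fin y.1 | StrictMono e ∧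
      ∀ i j, x.2 i < x.2 j ↔ y.2 (e i) < y.2 (e j)}.ncard ≤ 1 := by
    rw [Set.ncard_le_one (Set.toFinite _)]
    intro e he e' he'
    funext i
    have := hu _ _ (emb_toN x y e he.1 he.2) (emb_toN x y e' he'.1 he'.2) i i.2
    simp only [toN, i.2, dif_pos] at this
    exact Fin.ext this
  generalize {e : Fin x.1 → Fin y.1 | StrictMono e ∧
      ∀ i j, x.2 i < x.2 j ↔ y.2 (e i) < y.2 (e j)}.ncard = c at h hc
  have h2 : f 0 + f 1 < 2 ^ (f 0 + f 1) := Nat.lt_two_pow_self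
  have h3 : ((f 0 + f 1 : ℕ) : ℤ) < (2 : ℤ) ^ (f 0 + f 1) := by exact_mod_cast h2
  rw [abs_of_nonneg (by positivity)] at h
  have h4 : f c ≤ f 0 + f 1 := by
    interval_cases c <;> omega
  have h5 : ((f c : ℕ) : ℤ) ≤ ((f 0 + f 1 : ℕ) : ℤ) := by exact_mod_cast h4
  linarith

end Pool.Agent.S11646
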