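import Pool.Statements.S11695
import Pool.Agent.Lib.helper25.InscE

set_option autoImplicit false
open Pool Pool.MP_d56329_co

namespace Pool.Agent.S11695


/-- For every full-dimensional polytope in R^d with at most d+3 facets, there is a polytope whose generating points all lie on one sphere and whose vertices correspond bijectively to the first's, with vertex sets of faces matching exactly. -/
theorem result :
    ∀ d : ℕ, ∀ S : Finset (EuclideanSpace ℝ (Fin d)),
      (interior (convexHull ℝ (S : Set (EuclideanSpace ℝ (Fin d))))).Nonempty →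
      {F : Set (EuclideanSpace ℝ (Fin d)) |
          IsExposed ℝ (convexHull ℝ (S : Set (EuclideanSpace ℝ (Fin d)))) F ∧ F.Nonempty ∧
            Module.finrank ℝ (vectorSpan ℝ F) + 1 = d}.ncard ≤ d + 3 →
      ∃ T : Finset (EuclideanSpace ℝ (Fin d)), ∃ c : EuclideanSpace ℝ (Fin d), ∃ r : ℝ,
        (T : Set (EuclideanSpace ℝ (Fin d))) ⊆ Metric.sphere c r ∧
        ∃ e : EuclideanSpace ℝ (Fin d) → EuclideanSpace ℝ (Fin d),
          Set.BijOn e
            ((convexHull ℝ (S : Set (EuclideanSpace ℝ (Fin d)))).extremePoints ℝ)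
            ((convexHull ℝ (T : Set (EuclideanSpace ℝ (Fin d)))).extremePoints ℝ) ∧
          ∀ A ⊆ (convexHull ℝ (S : Set (EuclideanSpace ℝ (Fin d)))).extremePoints ℝ,
            (IsExposed ℝ (convexHull ℝ (S : Set (EuclideanSpace ℝ (Fin d)))) (convexHull ℝ A) ↔
              IsExposed ℝ (convexHull ℝ (T : Set (EuclideanSpace ℝ (Fin d))))
                (convexHull ℝ (e '' A))) := by
  intro d S hint hcard
  rcases Nat.eq_zero_or_pos d with rfl | hd
  · refine ⟨S, 0, 0, fun x _ => ?_, id, Set.bijOn_id _, fun A _ => by simp⟩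
    rw [Subsingleton.elim x 0]
    simp
  have hfin : ((convexHull ℝ (S : Set (EuclideanSpace ℝ (Fin d)))).extremePoints ℝ).Finite :=
    S.finite_toSet.subset extremePoints_convexHull_subset
  obtain ⟨V, hV⟩ := hfin.exists_finset_coe
  have hc : convexHull ℝ (V : Set (EuclideanSpace ℝ (Fin d))) =
      convexHull ℝ (S : Set (EuclideanSpace ℝ (Fin d))) := by
    have h1 := closure_convexHull_extremePoints
      (S.finite_toSet.isCompact_convexHull (𝕜 := ℝ)) (convex_convexHull ℝ _)
    rw [← hV, (V.finite_toSet.isCompact_convexHull (𝕜 := ℝ)).isClosed.closure_eq] at h1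
    exact h1
  rw [← hV]
  rw [← hc] at hint hcard hV ⊢
  obtain ⟨T, c, r, e, h1, h2, h3⟩ := Pool.Agent.Lib.helper25.Insc.main hd V
    (fun v hv => by rw [← hV]; exact hv) hint hcard
  have hT : (convexHull ℝ (T : Set (EuclideanSpace ℝ (Fin d)))).extremePoints ℝ = T :=
    Set.Subset.antisymm extremePoints_convexHull_subset
      (fun x hx => Pool.Agent.Lib.helper25.Insc.sphere_ext T c r h1 x hx)
  refine ⟨T, c, r, fun x hx => h1 x hx, e, ?_, h3⟩
  rw [hT]
  exact h2

end Pool.Agent.S11695
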