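import Pool.Statements.S11698
import Pool.Agent.Lib.helper26.OwB

set_option autoImplicit false
open Pool Pool.MP_d5cc4e_co

namespace Pool.Agent.S11698

/-- The negation of the preceding statement: There is a colouring of the rationals with two colours such that for every infinite set X of rationals, the sums x+y with x, y in X (x = y allowed) do not all receive the same colour. -/
theorem result :
    ¬ (∃ c : ℚ → Fin 2, ∀ X : Set ℚ, X.Infinite →
      ¬ ∃ i : Fin 2, ∀ x ∈ X, ∀ y ∈ X, c (x + y) = i) := by
  rintro ⟨c, hc⟩
  obtain ⟨t, χ, a, ha, hb⟩ := Pool.Agent.Lib.helper26.Owings.main fun n => finTwoEquiv (c n)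
  refine hc (Set.range fun i => (a i : ℚ) + t / 2) (Set.infinite_range_of_injective ?_)
    ⟨finTwoEquiv.symm χ, ?_⟩
  · intro i j hij
    have h : (a i : ℚ) = a j := add_right_cancel hij
    exact ha.injective (by exact_mod_cast h)
  · rintro _ ⟨i, rfl⟩ _ ⟨j, rfl⟩
    rw [Equiv.eq_symm_apply]
    rcases le_total i j with h | h
    · rw [← hb i j h]
      congr 2
      push_cast
      ring
    · rw [← hb j i h]
      congr 2
      push_cast
      ring

end Pool.Agent.S11698
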