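import Pool.Statements.S11730

set_option autoImplicit false
open MeasureTheory
open Pool Pool.MP_d7a99c_co

namespace Pool.Agent.S11730

open Set

abbrev E2 := EuclideanSpace ℝ (Fin 2)

def H : Set E2 := {x | |x 0 - 4 * x 1| ≤ 102 / 100 ∧ |4 * x 0 - x 1| ≤ 102 / 100 ∧ |x 0 + x 1| ≤ 51 / 100}

lemma seg (a b c d r : ℝ) (hr : 0 ≤ r) (h : (a - c) ^ 2 + (b - d) ^ 2 ≤ r ^ 2) :
    Measure.hausdorffMeasure 1 (segment ℝ (!₂[a, b] : E2) !₂[c, d]) ≤ ENNReal.ofReal r := by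
  rw [hausdorffMeasure_segment, edist_dist]
  refine ENNReal.ofReal_le_ofReal ?_
  rw [EuclideanSpace.dist_eq, Real.sqrt_le_left hr]
  simpa [Real.dist_eq] using h

lemma ms (a b c d t : ℝ) (x : E2) (h0 : 0 ≤ t) (h1 : t ≤ 1) (e0 : x 0 = a + t * (c - a))
    (e1 : x 1 = b + t * (d - b)) : x ∈ segment ℝ (!₂[a, b] : E2) !₂[c, d] :=
  ⟨1 - t, t, by linarith, h0, by ring, by
    ext i
    fin_cases i <;> simp <;> linarith⟩

lemma cl : IsClosed H := by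
  simp only [H, setOf_and]
  exact (isClosed_le (by fun_prop) (by fun_prop)).inter ((isClosed_le (by fun_prop) (by fun_prop)).inter
    (isClosed_le (by fun_prop) (by fun_prop)))

lemma it {x : E2} (h1 : |x 0 - 4 * x 1| < 102 / 100) (h2 : |4 * x 0 - x 1| < 102 / 100)
    (h3 : |x 0 + x 1| < 51 / 100) : x ∈ interior H :=
  interior_maximal (t := {x : E2 | |x 0 - 4 * x 1| < 102 / 100 ∧ |4 * x 0 - x 1| < 102 / 100 ∧
    |x 0 + x 1| < 51 / 100}) (fun _ h => And.intro h.1.le ⟨h.2.1.le, h.2.2.le⟩) (by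
    simp only [setOf_and]
    exact (isOpen_lt (by fun_prop) (by fun_prop)).inter ((isOpen_lt (by fun_prop) (by fun_prop)).inter
      (isOpen_lt (by fun_prop) (by fun_prop)))) ⟨h1, h2, h3⟩

lemma per : Measure.hausdorffMeasure 1 (frontier H) ≤ 2 := by
  have : frontier H ⊆ segment ℝ (!₂[-0.204, -0.306] : E2) !₂[0.204, -0.204] ∪
      segment ℝ !₂[0.204, -0.204] !₂[0.306, 0.204] ∪ segment ℝ !₂[0.306, 0.204] !₂[0.204, 0.306] ∪
      segment ℝ !₂[0.204, 0.306] !₂[-0.204, 0.204] ∪ segment ℝ !₂[-0.204, 0.204] !₂[-0.306, -0.204] ∪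
      segment ℝ !₂[-0.306, -0.204] !₂[-0.204, -0.306] := fun x hx => by
    obtain ⟨h1, h2, h3⟩ := cl.frontier_subset hx
    have a1 := abs_le.1 h1
    have a2 := abs_le.1 h2
    have a3 := abs_le.1 h3
    by_contra hn
    simp only [mem_union, not_or] at hn
    obtain ⟨⟨⟨⟨⟨n1, n2⟩, n3⟩, n4⟩, n5⟩, n6⟩ := hn
    refine hx.2 (it (abs_lt.2 ⟨not_le.1 fun h => n4 (ms _ _ _ _ ((0.204 - x 0) / 0.408) x ?_ ?_ ?_ ?_),
      not_le.1 fun h => n1 (ms _ _ _ _ ((0.204 + x 0) / 0.408) x ?_ ?_ ?_ ?_)⟩)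
      (abs_lt.2 ⟨not_le.1 fun h => n5 (ms _ _ _ _ ((0.204 - x 1) / 0.408) x ?_ ?_ ?_ ?_),
      not_le.1 fun h => n2 (ms _ _ _ _ ((0.204 + x 1) / 0.408) x ?_ ?_ ?_ ?_)⟩)
      (abs_lt.2 ⟨not_le.1 fun h => n6 (ms _ _ _ _ ((0.306 + x 0) / 0.102) x ?_ ?_ ?_ ?_),
      not_le.1 fun h => n3 (ms _ _ _ _ ((0.306 - x 0) / 0.102) x ?_ ?_ ?_ ?_)⟩)) <;>
    norm_num <;> linarith [a1.1, a1.2, a2.1, a2.2, a3.1, a3.2]
  refine (measure_mono this).trans ((measure_union_le _ _).trans ((add_le_add ((measure_union_le _ _).trans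
    (add_le_add ((measure_union_le _ _).trans (add_le_add ((measure_union_le _ _).trans (add_le_add
    ((measure_union_le _ _).trans (add_le_add (seg _ _ _ _ 0.421 ?_ ?_) (seg _ _ _ _ 0.421 ?_ ?_)))
    (seg _ _ _ _ 0.145 ?_ ?_))) (seg _ _ _ _ 0.421 ?_ ?_))) (seg _ _ _ _ 0.421 ?_ ?_)))
    (seg _ _ _ _ 0.145 ?_ ?_)).trans ?_))
  any_goals norm_num
  rw [← ENNReal.ofReal_add, ← ENNReal.ofReal_add, ← ENNReal.ofReal_add, ← ENNReal.ofReal_add,
    ← ENNReal.ofReal_add, ENNReal.ofReal_le_ofNat] <;> norm_num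

theorem result :
    ¬ (∀ (n : ℕ) (u : Fin n → EuclideanSpace ℝ (Fin 2)) (w : Fin n → ℝ),
      (∀ i, ‖u i‖ = 1) → (∀ i, 0 < w i) → (∑ i, w i) = 1 →
      ∀ B : Set (EuclideanSpace ℝ (Fin 2)),
        IsCompact B → Convex ℝ B → (interior B).Nonempty →
        MeasureTheory.Measure.hausdorffMeasure 1 (frontier B) ≤ 2 →
        ∃ c : Fin n → ℝ,
          B ⊆ ⋃ i, {x : EuclideanSpace ℝ (Fin 2) |
            c i ≤ inner ℝ x (u i) ∧ inner ℝ x (u i) ≤ c i + w i}) := by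
  intro h
  obtain ⟨c, hc⟩ := h 2 (fun i => EuclideanSpace.single i 1) (fun _ => 1 / 2) (by simp) (by simp)
    (by simp) H (Metric.isCompact_of_isClosed_isBounded cl (isBounded_iff_forall_norm_le.2 ⟨1, by
      rintro x ⟨h1, h2, h3⟩
      rw [abs_le] at h1 h2 h3
      rw [EuclideanSpace.norm_eq, Real.sqrt_le_left zero_le_one, Fin.sum_univ_two, Real.norm_eq_abs,
        Real.norm_eq_abs, sq_abs, sq_abs]
      have a : |x 0| ≤ 1 / 2 := abs_le.2 ⟨by linarith, by linarith⟩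
      have b : |x 1| ≤ 1 / 2 := abs_le.2 ⟨by linarith, by linarith⟩
      nlinarith [abs_nonneg (x 0), abs_nonneg (x 1), sq_abs (x 0), sq_abs (x 1)]⟩)) (by
      rintro x ⟨h1, h2, h3⟩ y ⟨k1, k2, k3⟩ s t hs ht hst
      simp only [H, mem_setOf_eq, PiLp.add_apply, PiLp.smul_apply, smul_eq_mul, abs_le] at *
      refine ⟨⟨?_, ?_⟩, ⟨?_, ?_⟩, ?_, ?_⟩ <;> nlinarith) ⟨0, it (by norm_num) (by norm_num) (by norm_num)⟩ per
  have k : ∀ a b : ℝ, (!₂[a, b] : E2) ∈ H → a < c 0 ∨ c 0 + 1 / 2 < a → c 1 ≤ b ∧ b ≤ c 1 + 1 / 2 :=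
    fun a b hab ho => by
      obtain ⟨i, h1, h2⟩ := mem_iUnion.1 (hc hab)
      fin_cases i <;> simp [EuclideanSpace.inner_single_right] at h1 h2
      · rcases ho with h | h <;> norm_num at h h2 <;> linarith
      · exact ⟨h1, by norm_num at h2 ⊢; linarith⟩
  have m : ∀ a b : ℝ, |a - 4 * b| ≤ 102 / 100 → |4 * a - b| ≤ 102 / 100 → |a + b| ≤ 51 / 100 →
    (!₂[a, b] : E2) ∈ H := fun a b h1 h2 h3 => ⟨h1, h2, h3⟩
  by_cases h1 : c 0 + 1 / 2 < 0.204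
  · have a := k 0.204 (-0.204) (m _ _ (by norm_num) (by norm_num) (by norm_num)) (.inr h1)
    have b := k 0.204 0.306 (m _ _ (by norm_num [abs_le]) (by norm_num [abs_le]) (by norm_num [abs_le]))
      (.inr h1)
    norm_num at a b
    linarith [a.1, b.2]
  by_cases h2 : -0.204 < c 0
  · have a := k (-0.204) (-0.306) (m _ _ (by norm_num [abs_le]) (by norm_num [abs_le])
      (by norm_num [abs_le])) (.inl h2)
    have b := k (-0.204) 0.204 (m _ _ (by norm_num [abs_le]) (by norm_num [abs_le])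
      (by norm_num [abs_le])) (.inl h2)
    norm_num at a b
    linarith [a.1, b.2]
  norm_num at h1 h2
  have a := k (c 0 - 1 / 200) (-101 / 200 - c 0) (m _ _ (abs_le.2 ⟨by linarith, by linarith⟩)
    (abs_le.2 ⟨by linarith, by linarith⟩) (abs_le.2 ⟨by linarith, by linarith⟩)) (.inl (by linarith))
  have b := k (c 0 + 101 / 200) (1 / 200 - c 0) (m _ _ (abs_le.2 ⟨by linarith, by linarith⟩)
    (abs_le.2 ⟨by linarith, by linarith⟩) (abs_le.2 ⟨by linarith, by linarith⟩)) (.inr (by linarith))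
  linarith [a.1, b.2]

end Pool.Agent.S11730
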