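import Pool.Statements.S11735
import Pool.Agent.Lib.helper9.DoigC

set_option autoImplicit false
open Pool Pool.MP_d7b81d_co

namespace Pool.Agent.S11735

/-- For every d ≥ 1, any 2d+1 distinct points in R^d split into two nonempty parts whose convex hulls meet, with the intersection's affine dimension at least the smaller of the two hulls' dimensions. -/
theorem result :
    ∀ d : ℕ, 1 ≤ d →
      ∀ S : Finset (EuclideanSpace ℝ (Fin d)), S.card = 2 * d + 1 →
        ∃ S₁ S₂ : Finset (EuclideanSpace ℝ (Fin d)),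
          S₁ ∪ S₂ = S ∧ Disjoint S₁ S₂ ∧ S₁.Nonempty ∧ S₂.Nonempty ∧
          (convexHull ℝ (S₁ : Set (EuclideanSpace ℝ (Fin d))) ∩
            convexHull ℝ (S₂ : Set (EuclideanSpace ℝ (Fin d)))).Nonempty ∧
          min (Module.finrank ℝ
                (vectorSpan ℝ (convexHull ℝ (S₁ : Set (EuclideanSpace ℝ (Fin d))))))
              (Module.finrank ℝ
                (vectorSpan ℝ (convexHull ℝ (S₂ : Set (EuclideanSpace ℝ (Fin d))))))
            ≤ Module.finrank ℝ
                (vectorSpan ℝ (convexHull ℝ (S₁ : Set (EuclideanSpace ℝ (Fin d))) ∩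
                  convexHull ℝ (S₂ : Set (EuclideanSpace ℝ (Fin d))))) := by
  intro d hd S hS
  classical
  obtain ⟨A, B, h1, h2, h3, h4, h5, h6⟩ := Pool.Agent.Lib.helper9.Doig.split S (by omega)
    (by rw [finrank_euclideanSpace_fin]; omega)
  refine ⟨A, B, ?_, h2, h3, h4, h5, (min_le_left _ _).trans (Submodule.finrank_mono h6)⟩
  convert h1

end Pool.Agent.S11735
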