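import Pool.Statements.S11770
import Pool.Agent.H33.Lucky

set_option autoImplicit false
open Classical
open Pool Pool.MP_d93746_co

namespace Pool.Agent.S11770

/-- The negation of the preceding statement: Every finite simple graph has a vertex labeling with integers from 1 to its chromatic number in which any two adjacent vertices have different sums of labels over their neighbourhoods. -/
theorem result :
    ¬ (∀ (V : Type) [Fintype V] (G : SimpleGraph V),
      ∃ f : V → ℕ,
        (∀ v, 1 ≤ f v ∧ ((f v : ℕ) : ℕ∞) ≤ G.chromaticNumber) ∧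
        ∀ u v, G.Adj u v →
          ∑ w ∈ G.neighborFinset u, f w ≠ ∑ w ∈ G.neighborFinset v, f w) := by
  intro hC
  obtain ⟨V, iV, G, hcol, h⟩ := Pool.Agent.H33.Lucky.graph 2
  obtain ⟨f, hf, hne⟩ := hC V G
  have hχ : G.chromaticNumber ≤ (2 : ℕ) := hcol.chromaticNumber_le
  obtain ⟨u, v, huv, he⟩ := h f fun v => ⟨(hf v).1, by
    have := le_trans (hf v).2 hχ
    exact_mod_cast this⟩
  apply hne u v huv
  have key : ∀ z, ∑ w ∈ G.neighborFinset z, f w =
      ∑ w, @ite ℕ (G.Adj z w) (Classical.propDecidable _) (f w) 0 := by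
    intro z
    rw [← Finset.sum_filter]
    refine Finset.sum_congr ?_ fun _ _ => rfl
    ext w; simp
  rw [key, key]
  exact he

end Pool.Agent.S11770
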