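import Pool.Statements.S11816

set_option autoImplicit false
open Pool Pool.MP_daf6f7_co

namespace Pool.Agent.S11816

/-- The stars of the six vertices of the wheel W5 (hub 0, rim 1..5); the ten points are the
edges of the wheel. -/
def star : Fin 6 → Finset (Fin 10) :=
  ![{0, 1, 2, 3, 4}, {0, 5, 9}, {1, 5, 6}, {2, 6, 7}, {3, 7, 8}, {4, 8, 9}]

theorem h1 : ∀ i, (star i).Nonempty := by decide +kernel

theorem h2 : ∀ S : Finset (Fin 6), ∃ M ⊆ S,
        (∀ i ∈ M, ∀ j ∈ M, i ≠ j → Disjoint (star i) (star j)) ∧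
        S.card ≤ M.card *
          (Finset.univ.sup (fun v : Fin 10 => (S.filter (fun i => v ∈ star i)).card) + 1) := by
  have h : ∀ S : Finset (Fin 6), ∃ M : Finset (Fin 6), M ⊆ S ∧
        (∀ i ∈ M, ∀ j ∈ M, i ≠ j → Disjoint (star i) (star j)) ∧
        S.card ≤ M.card *
          (Finset.univ.sup (fun v : Fin 10 => (S.filter (fun i => v ∈ star i)).card) + 1) := by
    decide +kernel
  exact h

theorem h3 : Finset.univ.sup
    (fun v : Fin 10 => (Finset.univ.filter (fun i : Fin 6 => v ∈ star i)).card) = 2 := by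
  decide +kernel

theorem h4 : ¬ ∃ c : Fin 6 → Fin (2 + 1),
      ∀ i j, i ≠ j → c i = c j → Disjoint (star i) (star j) := by
  decide +kernel

theorem result :
    ¬ (∀ (V : Type) [Fintype V] [DecidableEq V] (m : ℕ) (e : Fin m → Finset V),
    (∀ i, (e i).Nonempty) →
    (∀ S : Finset (Fin m), ∃ M ⊆ S,
        (∀ i ∈ M, ∀ j ∈ M, i ≠ j → Disjoint (e i) (e j)) ∧
        S.card ≤ M.card *
          (Finset.univ.sup (fun v : V => (S.filter (fun i => v ∈ e i)).card) + 1)) →
    ∃ c : Fin m → Fin (Finset.univ.sup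
        (fun v : V => (Finset.univ.filter (fun i : Fin m => v ∈ e i)).card) + 1),
      ∀ i j, i ≠ j → c i = c j → Disjoint (e i) (e j)) := by
  intro h
  have h5 := h (Fin 10) 6 star h1 h2
  rw [h3] at h5
  exact h4 h5

end Pool.Agent.S11816
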