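import Pool.Statements.S11842

set_option autoImplicit false
open Pool Pool.MP_dc0d0a_co

namespace Pool.Agent.S11842

open Matrix

/-- adjacency table: vertices are e1, e2, w, f1, f2, w', m -/
def adjB : Fin 7 → Fin 7 → Bool :=
  ![![false, true, true, false, true, false, false],
    ![true, false, true, true, false, false, false],
    ![true, true, false, false, false, true, true],
    ![false, true, false, false, true, true, true],
    ![true, false, false, true, false, true, false],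
    ![false, false, true, true, true, false, false],
    ![false, false, true, true, false, false, false]]

/-- the graph -/
def G : SimpleGraph (Fin 7) where
  Adj i j := adjB i j = true
  symm := ⟨by decide⟩
  loopless := ⟨by decide⟩

/-- the edge values -/
def xv : Fin 7 → Fin 7 → ℚ :=
  ![![1, 0, 3 / 5, 0, 11 / 12, 0, 0],
    ![0, 1, 4 / 5, -11 / 12, 0, 0, 0],
    ![3 / 5, 4 / 5, 1, 0, 0, -3 / 25, 2 / 3],
    ![0, -11 / 12, 0, 1, 0, 3 / 5, 0],
    ![11 / 12, 0, 0, 0, 1, 4 / 5, 0],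
    ![0, 0, -3 / 25, 3 / 5, 4 / 5, 1, 0],
    ![0, 0, 2 / 3, 0, 0, 0, 1]]

/-- first coordinates -/
noncomputable def A (s : ℝ) : Fin 7 → ℝ :=
  ![1, 0, 3 / 5, (11 - 5 * s) / 9, 11 / 12, 3 / 5 * ((11 - 5 * s) / 9) + 4 / 5 * (11 / 12),
    3 / 2 * (3 / 5) + s / 2 * ((11 - 5 * s) / 9)]

/-- second coordinates -/
noncomputable def B (s : ℝ) : Fin 7 → ℝ :=
  ![0, 1, 4 / 5, -11 / 12, (-14 + 5 * s) / 16, 3 / 5 * (-11 / 12) + 4 / 5 * ((-14 + 5 * s) / 16),
    3 / 2 * (4 / 5) + s / 2 * (-11 / 12)]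

/-- third coordinates, up to a common factor -/
noncomputable def C (s : ℝ) : Fin 7 → ℝ :=
  ![0, 0, 0, 1, -3 / 22 - 15 / 44 * s, 3 / 5 + 4 / 5 * (-3 / 22 - 15 / 44 * s), s / 2]

/-- the real completion -/
noncomputable def X (s : ℝ) : Matrix (Fin 7) (Fin 7) ℝ :=
  vecMulVec (A s) (star (A s)) + vecMulVec (B s) (star (B s)) +
    (-1243 / 432 + 110 / 81 * s) • vecMulVec (C s) (star (C s))

theorem X_apply (s : ℝ) (i j : Fin 7) :
    X s i j = A s i * A s j + B s i * B s j + (-1243 / 432 + 110 / 81 * s) * (C s i * C s j) := by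
  simp [X, vecMulVec_apply]

theorem sqrt5_gt : (2.2 : ℝ) < √5 := Real.lt_sqrt_of_sq_lt (by norm_num)

theorem X_psd : (X √5).PosSemidef := by
  refine ((posSemidef_vecMulVec_self_star _).add (posSemidef_vecMulVec_self_star _)).add
    ((posSemidef_vecMulVec_self_star _).smul ?_)
  have := sqrt5_gt
  linarith

theorem X_entry (s : ℝ) (hs : s ^ 2 = 5) (i j : Fin 7) (h : i = j ∨ adjB i j = true) :
    X s i j = (xv i j : ℝ) := by
  have h3 : s ^ 3 = 5 * s := by rw [pow_succ, hs]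
  have h4 : s ^ 4 = 25 := by rw [show s ^ 4 = (s ^ 2) ^ 2 by ring, hs]; norm_num
  rw [X_apply]
  fin_cases i <;> fin_cases j <;>
    first
    | exact absurd h (by decide)
    | (simp [A, B, C, xv]; done)
    | (simp [A, B, C, xv]; ring_nf; done)
    | (simp [A, B, C, xv]; ring_nf; simp only [hs, h3, h4]; ring)

theorem no_rat (Z : Matrix (Fin 7) (Fin 7) ℝ) (hZ : Z.PosSemidef)
    (hd : ∀ i, Z i i = 1) (he : ∀ i j, adjB i j = true → Z i j = (xv i j : ℝ)) :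
    Z 0 3 = (11 - 5 * √5) / 9 := by
  have hs : (√5 : ℝ) ^ 2 = 5 := Real.sq_sqrt (by norm_num)
  have hs0 := sqrt5_gt
  set s : ℝ := √5
  have sym : ∀ i j, Z i j = Z j i := fun i j => by
    have := hZ.1.apply j i
    simpa using this
  have e01 : Z 0 1 = 0 := by rw [he 0 1 rfl]; simp [xv]
  have e02 : Z 0 2 = 3 / 5 := by rw [he 0 2 rfl]; simp [xv]
  have e04 : Z 0 4 = 11 / 12 := by rw [he 0 4 rfl]; simp [xv]
  have e12 : Z 1 2 = 4 / 5 := by rw [he 1 2 rfl]; simp [xv]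
  have e13 : Z 1 3 = -11 / 12 := by rw [he 1 3 rfl]; simp [xv]
  have e25 : Z 2 5 = -3 / 25 := by rw [he 2 5 rfl]; simp [xv]
  have e26 : Z 2 6 = 2 / 3 := by rw [he 2 6 rfl]; simp [xv]
  have e34 : Z 3 4 = 0 := by rw [he 3 4 rfl]; simp [xv]
  have e35 : Z 3 5 = 3 / 5 := by rw [he 3 5 rfl]; simp [xv]
  have e36 : Z 3 6 = 0 := by rw [he 3 6 rfl]; simp [xv]
  have e45 : Z 4 5 = 4 / 5 := by rw [he 4 5 rfl]; simp [xv]
  have k1 : Z *ᵥ ![3 / 5, 4 / 5, -1, 0, 0, 0, 0] = 0 := by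
    rw [← hZ.dotProduct_mulVec_zero_iff]
    simp [dotProduct, mulVec, Fin.sum_univ_succ, hd, sym 1 0, sym 2 0, sym 2 1, e01, e02, e12]
    norm_num
  have k2 : Z *ᵥ ![0, 0, 0, 3 / 5, 4 / 5, -1, 0] = 0 := by
    rw [← hZ.dotProduct_mulVec_zero_iff]
    simp [dotProduct, mulVec, Fin.sum_univ_succ, hd, sym 4 3, sym 5 3, sym 5 4, e34, e35, e45]
    norm_num
  have r1 := congrFun k1 3
  have r2 := congrFun k1 5
  have r3 := congrFun k2 0
  have r4 := congrFun k2 1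
  simp [dotProduct, mulVec, Fin.sum_univ_succ] at r1 r2 r3 r4
  rw [sym 3 0, sym 3 1, sym 3 2, e13] at r1
  rw [sym 5 0, sym 5 1, sym 5 2, e25] at r2
  rw [e04] at r3
  rw [e13] at r4
  have t1 := hZ.dotProduct_mulVec_nonneg
    ![-3 / 44 * (5 * s + 2), 1, 0, 3 / 44 * (5 * s + 2), 1, 0, 0]
  have t2 := hZ.dotProduct_mulVec_nonneg ![0, 0, -3 / 2, -s / 2, 0, 0, 1]
  simp [dotProduct, mulVec, Fin.sum_univ_succ, hd, sym 1 0, sym 3 0, sym 4 0, sym 3 1, sym 4 1,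
    sym 4 3, e01, e04, e13, e34] at t1
  simp [dotProduct, mulVec, Fin.sum_univ_succ, hd, sym 3 2, sym 6 2, sym 6 3, e26, e36] at t2
  have hr : Z 1 4 = (-3 - 9 * Z 0 3) / 16 := by linarith
  have hq : Z 2 3 = 3 / 5 * Z 0 3 - 11 / 15 := by linarith
  rw [hr] at t1
  rw [hq] at t2
  obtain ⟨y, hy⟩ : ∃ y, Z 0 3 = (11 - 5 * s) / 9 + y := ⟨Z 0 3 - (11 - 5 * s) / 9, by ring⟩
  rw [hy] at t1 t2 ⊢
  have h3 : s ^ 3 = 5 * s := by rw [pow_succ, hs]
  ring_nf at t1 t2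
  rw [hs] at t1 t2
  rw [h3] at t1
  have y1 : y ≤ 0 := by nlinarith
  have y2 : 0 ≤ y := by nlinarith
  linarith

theorem result :
    ¬ (∀ (n : ℕ) (G : SimpleGraph (Fin n)) (x : Fin n → Fin n → ℚ),
      (∃ X : Matrix (Fin n) (Fin n) ℝ, X.PosSemidef ∧ (∀ i, X i i = 1) ∧
          ∀ i j, G.Adj i j → X i j = (x i j : ℝ)) →
      ∃ Y : Matrix (Fin n) (Fin n) ℚ,
        (Y.map (fun q : ℚ => (q : ℝ))).PosSemidef ∧ (∀ i, Y i i = 1) ∧
          ∀ i j, G.Adj i j → Y i j = x i j) := by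
  intro h
  have hs : (√5 : ℝ) ^ 2 = 5 := Real.sq_sqrt (by norm_num)
  obtain ⟨Y, h1, h2, h3⟩ := h 7 G xv ⟨X √5, X_psd, fun i => by
    rw [X_entry _ hs i i (Or.inl rfl)]
    fin_cases i <;> simp [xv], fun i j hij => X_entry _ hs i j (Or.inr hij)⟩
  have h4 := no_rat _ h1 (fun i => by simp [h2]) (fun i j hij => by
    rw [map_apply, h3 i j hij])
  rw [map_apply] at h4
  have hirr : Irrational (√5 : ℝ) := by
    have := Nat.Prime.irrational_sqrt (p := 5) (by norm_num)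
    simpa using this
  exact hirr ⟨(11 - 9 * Y 0 3) / 5, by push_cast; rw [h4]; ring⟩

end Pool.Agent.S11842
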