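import Pool.Statements.S11866
import Pool.Agent.Lib.Helper33.Chk

set_option autoImplicit false
open Classical
open Pool Pool.MP_dcf9ac_co Pool.Agent.Lib.Helper33

namespace Pool.Agent.S11866

/-- Adjacency table of a triangle-free graph with 12 vertices, 20 edges and independence
number 4. Edges: 01 03 04 08 12 15 19 23 26 2a 37 3b 49 4a 5a 5b 68 6b 78 79. -/
def adj (u v : ℕ) : Bool := Nat.testBit 566299025807237309249744163411000427696410 (12 * u + v)

lemma adj_symm : ∀ u v : Fin 12, adj u.val v.val = true → adj v.val u.val = true := by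
  decide +kernel

def G : SimpleGraph (Fin 12) where
  Adj u v := adj u.val v.val = true
  symm := ⟨adj_symm⟩
  loopless := ⟨by decide +kernel⟩

def cardM (m : ℕ) : ℕ := sumLt 12 (fun u => if m.testBit u then 1 else 0)

def pairsM (m : ℕ) : ℕ := sumLt 12 (fun u => if m.testBit u then
  sumLt 12 (fun v => if m.testBit v && adj u v then 1 else 0) else 0)

lemma chk : allLt 4096 (fun m =>
    (Nat.blt (cardM m) 3 || Nat.ble (pairsM m + 7) (4 * cardM m)) &&
    (!(Nat.beq (cardM m) 5) || Nat.blt 0 (pairsM m))) = true := by decide +kernel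

lemma bridge (S : Finset (Fin 12)) : ∃ m, m < 4096 ∧ cardM m = S.card ∧
    pairsM m = (Finset.univ.filter (fun p : Fin 12 × Fin 12 =>
      p.1 ∈ S ∧ p.2 ∈ S ∧ G.Adj p.1 p.2)).card := by
  refine ⟨Nat.ofBits (fun i : Fin 12 => decide (i ∈ S)), Nat.ofBits_lt_two_pow _, ?_, ?_⟩
  · rw [cardM, sumLt_eq, ← Fin.sum_univ_eq_sum_range
      (fun u => if (Nat.ofBits (fun i : Fin 12 => decide (i ∈ S))).testBit u then 1 else 0)]
    simp only [Nat.testBit_ofBits_lt _ _ (Fin.isLt _), Fin.eta, decide_eq_true_eq]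
    rw [Finset.sum_boole]
    simp
  · rw [pairsM, sumLt_eq, ← Fin.sum_univ_eq_sum_range
      (fun u => if (Nat.ofBits (fun i : Fin 12 => decide (i ∈ S))).testBit u then
        sumLt 12 (fun v => if (Nat.ofBits (fun i : Fin 12 => decide (i ∈ S))).testBit v &&
          adj u v then 1 else 0) else 0)]
    rw [Finset.card_filter, Fintype.sum_prod_type]
    refine Finset.sum_congr rfl (fun u _ => ?_)
    rw [sumLt_eq, ← Fin.sum_univ_eq_sum_range
      (fun v => if (Nat.ofBits (fun i : Fin 12 => decide (i ∈ S))).testBit v &&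
          adj u v then 1 else 0)]
    simp only [Nat.testBit_ofBits_lt _ _ (Fin.isLt _), Fin.eta, decide_eq_true_eq,
      Bool.and_eq_true]
    by_cases hu : u ∈ S
    · simp only [hu, if_true, true_and]
      refine Finset.sum_congr rfl (fun v _ => ?_)
      have : G.Adj u v ↔ adj u.val v.val = true := Iff.rfl
      simp only [this]
    · simp [hu]

lemma key (S : Finset (Fin 12)) :
    (3 ≤ S.card → (Finset.univ.filter (fun p : Fin 12 × Fin 12 =>
      p.1 ∈ S ∧ p.2 ∈ S ∧ G.Adj p.1 p.2)).card + 7 ≤ 4 * S.card) ∧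
    (S.card = 5 → 0 < (Finset.univ.filter (fun p : Fin 12 × Fin 12 =>
      p.1 ∈ S ∧ p.2 ∈ S ∧ G.Adj p.1 p.2)).card) := by
  obtain ⟨m, hm, h1, h2⟩ := bridge S
  have h := (allLt_iff _ _).mp chk m hm
  rw [← h1, ← h2]
  simp only [Bool.and_eq_true, Bool.or_eq_true, Nat.blt_eq, Nat.ble_eq, Bool.not_eq_true'] at h
  constructor
  · intro h3
    rcases h.1 with h' | h'
    · omega
    · exact h'
  · intro h5
    rcases h.2 with h' | h'
    · rw [h5] at h'
      exact absurd h' (by decide)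
    · exact h'

lemma cf : Gᶜ.CliqueFree 5 := by
  intro S hS
  have h := (key S).2 hS.card_eq
  obtain ⟨p, hp⟩ := Finset.card_pos.mp h
  rw [Finset.mem_filter] at hp
  obtain ⟨-, h1, h2, h3⟩ := hp
  have := hS.isClique (Finset.mem_coe.mpr h1) (Finset.mem_coe.mpr h2) h3.ne
  exact ((SimpleGraph.compl_adj _ _ _).mp this).2 h3

/-- Counterexample with k = 3, r = 5: a graph on 12 vertices with no independent 5-set and
2-density 19/10 < 2. -/
theorem result :
    ¬ (∀ r k : ℕ, 2 ≤ r → 3 ≤ k →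
      (∀ G : SimpleGraph (Fin (k * (r - 1))), Gᶜ.CliqueFree r →
        ∃ S : Finset (Fin (k * (r - 1))), 3 ≤ S.card ∧
          ((k : ℝ) + 1) / 2 ≤
            ((((Finset.univ.filter (fun p : Fin (k * (r - 1)) × Fin (k * (r - 1)) =>
                p.1 ∈ S ∧ p.2 ∈ S ∧ G.Adj p.1 p.2)).card : ℝ) / 2 - 1) /
              ((S.card : ℝ) - 2))) ∧
      (∃ G : SimpleGraph (Fin (k * (r - 1))), Gᶜ.CliqueFree r ∧
        ∀ S : Finset (Fin (k * (r - 1))), 3 ≤ S.card →
          ((((Finset.univ.filter (fun p : Fin (k * (r - 1)) × Fin (k * (r - 1)) =>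
                p.1 ∈ S ∧ p.2 ∈ S ∧ G.Adj p.1 p.2)).card : ℝ) / 2 - 1) /
              ((S.card : ℝ) - 2)) ≤ ((k : ℝ) + 1) / 2)) := by
  intro h
  obtain ⟨S, hS, hle⟩ := (h 5 3 (by norm_num) (by norm_num)).1 G cf
  have hk := (key S).1 hS
  have hS' : (3 : ℝ) ≤ S.card := by exact_mod_cast hS
  have hk' : (((Finset.univ.filter (fun p : Fin 12 × Fin 12 =>
      p.1 ∈ S ∧ p.2 ∈ S ∧ G.Adj p.1 p.2)).card : ℕ) : ℝ) + 7 ≤ 4 * (S.card : ℝ) := by
    exact_mod_cast hk
  rw [le_div_iff₀ (by linarith)] at hle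
  have hle' : ((3 : ℝ) + 1) / 2 * ((S.card : ℝ) - 2) ≤
      (((Finset.univ.filter (fun p : Fin 12 × Fin 12 =>
      p.1 ∈ S ∧ p.2 ∈ S ∧ G.Adj p.1 p.2)).card : ℕ) : ℝ) / 2 - 1 := by
    have e : ((3 : ℕ) : ℝ) = 3 := by norm_num
    rw [e] at hle
    exact hle
  linarith

end Pool.Agent.S11866
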