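import Pool.Statements.S11885

set_option autoImplicit false
open Classical
open Pool Pool.MP_dd5ef2_co

namespace Pool.Agent.S11885

open Finset

theorem var {α : Type} [Fintype α] (h : α → ℝ) (h0 : ∑ a, h a = 0) (h1 : ∀ a, h a ^ 2 ≤ 1) (m : ℕ) :
    ∑ K : Fin m → α, (∑ t, h (K t)) ^ 2 ≤ m * (Fintype.card α : ℝ) ^ m := by
  induction m with
  | zero => simp
  | succ m ih =>
    rw [← (Fin.consEquiv (fun _ : Fin (m + 1) => α)).sum_comp, Fintype.sum_prod_type_right]
    have e : ∀ K : Fin m → α, ∑ a : α, (∑ t, h ((Fin.consEquiv (fun _ : Fin (m + 1) => α)) (a, K) t)) ^ 2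
        ≤ Fintype.card α + Fintype.card α * (∑ t, h (K t)) ^ 2 := by
      intro K
      have : ∀ a : α, (∑ t, h ((Fin.consEquiv (fun _ : Fin (m + 1) => α)) (a, K) t)) ^ 2
          = h a ^ 2 + 2 * (∑ t, h (K t)) * h a + (∑ t, h (K t)) ^ 2 := by
        intro a
        rw [Fin.sum_univ_succ]
        simp only [Fin.consEquiv_apply, Fin.cons_zero, Fin.cons_succ]
        ring
      simp only [this, sum_add_distrib, ← mul_sum, h0, sum_const, card_univ, nsmul_eq_mul]
      have : ∑ a, h a ^ 2 ≤ ∑ _a : α, (1 : ℝ) := sum_le_sum fun a _ => h1 a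
      simp at this
      linarith
    refine (sum_le_sum fun K _ => e K).trans ?_
    rw [sum_add_distrib, ← mul_sum]
    simp only [sum_const, card_univ, nsmul_eq_mul, Fintype.card_fun, Fintype.card_fin]
    have hc : (0 : ℝ) ≤ Fintype.card α := by positivity
    have := mul_le_mul_of_nonneg_left ih hc
    push_cast
    rw [pow_succ]
    nlinarith

theorem exists_K {α ι : Type} [Fintype α] [Fintype ι] [Nonempty α] (g : ι → α → ℝ)
    (g0 : ∀ p a, 0 ≤ g p a) (g1 : ∀ p a, g p a ≤ 1) (m : ℕ) (hm : 0 < m) :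
    ∃ K : Fin m → α, ∑ p, ((∑ a, g p a) / Fintype.card α - (∑ t, g p (K t)) / m) ^ 2 ≤ Fintype.card ι / m := by
  have hc : (0 : ℝ) < Fintype.card α := by exact_mod_cast Fintype.card_pos
  have hm' : (0 : ℝ) < m := by exact_mod_cast hm
  have key : ∀ p, ∑ K : Fin m → α, ((∑ a, g p a) / Fintype.card α - (∑ t, g p (K t)) / m) ^ 2
      ≤ (Fintype.card α : ℝ) ^ m / m := by
    intro p
    set μ := (∑ a, g p a) / Fintype.card α with hμ
    have μ0 : 0 ≤ μ := div_nonneg (sum_nonneg fun a _ => g0 p a) hc.le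
    have μ1 : μ ≤ 1 := by
      rw [hμ, div_le_one hc]
      have : ∑ a, g p a ≤ ∑ _a : α, (1 : ℝ) := sum_le_sum fun a _ => g1 p a
      simpa using this
    have := var (fun a => g p a - μ) (by
      rw [sum_sub_distrib]
      simp only [sum_const, card_univ, nsmul_eq_mul]
      rw [hμ]
      field_simp
      ring) (fun a => by nlinarith [g0 p a, g1 p a]) m
    have e : ∀ K : Fin m → α, (μ - (∑ t, g p (K t)) / m) ^ 2 = (∑ t, (g p (K t) - μ)) ^ 2 / m ^ 2 := by
      intro K
      rw [sum_sub_distrib]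
      simp only [sum_const, card_univ, nsmul_eq_mul, Fintype.card_fin]
      field_simp
      ring
    simp only [e]
    rw [← sum_div, div_le_div_iff₀ (by positivity) hm']
    nlinarith
  have tot : ∑ K : Fin m → α, ∑ p, ((∑ a, g p a) / Fintype.card α - (∑ t, g p (K t)) / m) ^ 2
      ≤ ∑ _K : Fin m → α, (Fintype.card ι : ℝ) / m := by
    rw [sum_comm]
    refine (sum_le_sum fun p _ => key p).trans (le_of_eq ?_)
    simp only [sum_const, card_univ, nsmul_eq_mul, Fintype.card_fun, Fintype.card_fin]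
    push_cast
    ring
  obtain ⟨K, _, hK⟩ := exists_le_of_sum_le univ_nonempty tot
  exact ⟨K, hK⟩

theorem pt (x y η : ℝ) (hy : 0 ≤ y) (hη : 0 < η) :
    x ≤ Real.exp ((x - y) ^ 2 / η ^ 2) * (y + η) := by
  have h1 := Real.add_one_le_exp ((x - y) ^ 2 / η ^ 2)
  have h0 : 0 ≤ (x - y) ^ 2 / η ^ 2 := by positivity
  by_cases h : x - y ≤ η
  · nlinarith
  · push Not at h
    set u := (x - y) / η with hu
    have hu1 : 1 < u := by rw [hu, lt_div_iff₀ hη]; linarith
    have e1 : (x - y) ^ 2 / η ^ 2 = u ^ 2 := by rw [hu, div_pow]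
    have e2 : x = y + u * η := by rw [hu]; field_simp; ring
    rw [e1] at h1 ⊢
    have : u ≤ Real.exp (u ^ 2) := by nlinarith
    nlinarith [mul_le_mul_of_nonneg_right this (by linarith : 0 ≤ y + η)]

noncomputable def ev (a b c : Bool) : ℝ :=
  if Even ((if a then 1 else 0) + (if b then 1 else 0) + (if c then 1 else 0) : ℕ) then 1 else 0

theorem ev0 (a b c : Bool) : 0 ≤ ev a b c := by unfold ev; split_ifs <;> norm_num

theorem ev1 (a b c : Bool) : ev a b c ≤ 1 := by unfold ev; split_ifs <;> norm_num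

theorem ev_sum (b c : Bool) : ev true b c + ev false b c = 1 := by
  cases b <;> cases c <;> simp +decide [ev]

noncomputable def W {n m : ℕ} (η : ℝ) (R : Fin m → Fin n → Bool) (p : Fin n × Fin n) (b : Bool) : ℝ :=
  if p.1 < p.2 then (∑ t, ev b (R t p.1) (R t p.2)) / m + η else if b then 0 else 1

theorem W0 {n m : ℕ} (η : ℝ) (hη : 0 < η) (R : Fin m → Fin n → Bool) (p : Fin n × Fin n) (b : Bool) :
    0 ≤ W η R p b := by
  unfold W
  have : 0 ≤ ∑ t, ev b (R t p.1) (R t p.2) := sum_nonneg fun t _ => ev0 _ _ _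
  split_ifs <;> positivity

theorem W_sum {n m : ℕ} (hm : 0 < m) (η : ℝ) (hη : 0 < η) (R : Fin m → Fin n → Bool) (p : Fin n × Fin n) :
    ∑ b, W η R p b ≤ Real.exp (2 * η) := by
  have h1 := Real.add_one_le_exp (2 * η)
  have hm' : (0 : ℝ) < m := by exact_mod_cast hm
  rw [Fintype.sum_bool]
  unfold W
  by_cases h : p.1 < p.2
  · simp only [h, if_true]
    have : (∑ t, ev true (R t p.1) (R t p.2)) / m + (∑ t, ev false (R t p.1) (R t p.2)) / m = 1 := by
      rw [← add_div, ← sum_add_distrib]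
      simp only [ev_sum, sum_const, card_univ, nsmul_eq_mul, Fintype.card_fin]
      field_simp
    linarith
  · simp [h]
    linarith

noncomputable def enc {n : ℕ} (G : SimpleGraph (Fin n)) (p : Fin n × Fin n) : Bool :=
  decide (p.1 < p.2 ∧ G.Adj p.1 p.2)

theorem enc_inj {n : ℕ} : Function.Injective (enc (n := n)) := by
  intro G H e
  have : ∀ i j : Fin n, i < j → (G.Adj i j ↔ H.Adj i j) := by
    intro i j hij
    have := congrFun e (i, j)
    simpa [enc, hij] using this
  ext i j
  rcases lt_trichotomy i j with h | h | h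
  · exact this i j h
  · subst h
    simp
  · rw [G.adj_comm, H.adj_comm]
    exact this j i h

theorem sumW {n m : ℕ} (hm : 0 < m) (η : ℝ) (hη : 0 < η) (R : Fin m → Fin n → Bool) :
    ∑ G : SimpleGraph (Fin n), ∏ p, W η R p (enc G p) ≤ Real.exp (2 * η * n ^ 2) := by
  have h1 : ∑ G : SimpleGraph (Fin n), ∏ p, W η R p (enc G p)
      ≤ ∑ x : Fin n × Fin n → Bool, ∏ p, W η R p (x p) := by
    rw [← sum_image (s := univ) (g := enc) (f := fun x => ∏ p, W η R p (x p))
      (fun a _ b _ e => enc_inj e)]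
    exact sum_le_sum_of_subset_of_nonneg (subset_univ _)
      (fun x _ _ => prod_nonneg fun p _ => W0 η hη R p _)
  refine h1.trans ?_
  rw [← Fintype.piFinset_univ, ← prod_univ_sum]
  refine (prod_le_prod (fun p _ => sum_nonneg fun b _ => W0 η hη R p b)
    (fun p _ => W_sum hm η hη R p)).trans (le_of_eq ?_)
  rw [prod_const, card_univ, ← Real.exp_nat_mul]
  congr 1
  simp
  ring

theorem single {n m : ℕ} (hn : 3 ≤ n) (hm : 0 < m) (η : ℝ) (hη : 0 < η) (G : SimpleGraph (Fin n)) :
    ∃ R : Fin m → Fin n → Bool,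
      (∏ i : Fin n, ∏ j : Fin n,
          (if i < j then
            (((Finset.univ.filter (fun k : Fin n => k ≠ i ∧ k ≠ j ∧
                Even ((if G.Adj i j then 1 else 0) + (if G.Adj i k then 1 else 0)
                  + (if G.Adj j k then 1 else 0) : ℕ))).card : ℝ) / ((n : ℝ) - 2))
          else 1)) ≤ Real.exp ((2 / ((n : ℝ) - 2) + 1 / (m * η ^ 2)) * n ^ 2) * ∏ p, W η R p (enc G p) := by
  haveI : Nonempty (Fin n) := ⟨⟨0, by omega⟩⟩
  have hn' : (3 : ℝ) ≤ n := by exact_mod_cast hn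
  have hm' : (0 : ℝ) < m := by exact_mod_cast hm
  let g : Fin n × Fin n → Fin n → ℝ := fun p k =>
    ev (decide (G.Adj p.1 p.2)) (decide (G.Adj p.1 k)) (decide (G.Adj p.2 k))
  obtain ⟨K, hK⟩ := exists_K g (fun _ _ => ev0 _ _ _) (fun _ _ => ev1 _ _ _) m hm
  refine ⟨fun t v => decide (G.Adj v (K t)), ?_⟩
  set d : Fin n × Fin n → ℝ := fun p =>
    ((∑ a, g p a) / Fintype.card (Fin n) - (∑ t, g p (K t)) / m) ^ 2 with hd
  rw [← Fintype.prod_prod_type']
  have hpt : ∀ p : Fin n × Fin n,
      (if p.1 < p.2 then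
            (((Finset.univ.filter (fun k : Fin n => k ≠ p.1 ∧ k ≠ p.2 ∧
                Even ((if G.Adj p.1 p.2 then 1 else 0) + (if G.Adj p.1 k then 1 else 0)
                  + (if G.Adj p.2 k then 1 else 0) : ℕ))).card : ℝ) / ((n : ℝ) - 2))
          else 1) ≤ Real.exp (2 / ((n : ℝ) - 2) + d p / η ^ 2) *
            W η (fun t v => decide (G.Adj v (K t))) p (enc G p) := by
    intro p
    have hpos : 0 ≤ 2 / ((n : ℝ) - 2) := div_nonneg (by norm_num) (by linarith)
    by_cases h : p.1 < p.2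
    · have e1 : W η (fun t v => decide (G.Adj v (K t))) p (enc G p) = (∑ t, g p (K t)) / m + η := by
        simp [W, enc, h, g]
      rw [if_pos h, e1, Real.exp_add, mul_assoc]
      have hy : 0 ≤ (∑ t, g p (K t)) / m := div_nonneg (sum_nonneg fun t _ => ev0 _ _ _) hm'.le
      have h2 := pt ((∑ a, g p a) / Fintype.card (Fin n)) _ η hy hη
      have h3 : (((Finset.univ.filter (fun k : Fin n => k ≠ p.1 ∧ k ≠ p.2 ∧
                Even ((if G.Adj p.1 p.2 then 1 else 0) + (if G.Adj p.1 k then 1 else 0)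
                  + (if G.Adj p.2 k then 1 else 0) : ℕ))).card : ℝ)) ≤ ∑ a, g p a := by
        rw [card_filter]
        push_cast
        refine sum_le_sum fun k _ => ?_
        by_cases hk : k ≠ p.1 ∧ k ≠ p.2 ∧
                Even ((if G.Adj p.1 p.2 then 1 else 0) + (if G.Adj p.1 k then 1 else 0)
                  + (if G.Adj p.2 k then 1 else 0) : ℕ)
        · rw [if_pos hk]
          simp only [g, ev, decide_eq_true_eq]
          rw [if_pos hk.2.2]
        · rw [if_neg hk]
          exact ev0 _ _ _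
      have h4 := Real.add_one_le_exp (2 / ((n : ℝ) - 2))
      have hs : 0 ≤ (∑ a, g p a) / Fintype.card (Fin n) :=
        div_nonneg (sum_nonneg fun t _ => ev0 _ _ _) (by positivity)
      have h5 : (∑ a, g p a) / ((n : ℝ) - 2) =
          (2 / ((n : ℝ) - 2) + 1) * ((∑ a, g p a) / Fintype.card (Fin n)) := by
        rw [Fintype.card_fin]
        have : (n : ℝ) - 2 ≠ 0 := by linarith
        have : (n : ℝ) ≠ 0 := by linarith
        field_simp
        ring
      calc _ ≤ (∑ a, g p a) / ((n : ℝ) - 2) := div_le_div_of_nonneg_right h3 (by linarith)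
        _ = _ := h5
        _ ≤ _ := mul_le_mul h4 h2 hs (Real.exp_pos _).le
    · have e1 : W η (fun t v => decide (G.Adj v (K t))) p (enc G p) = 1 := by
        simp [W, enc, h]
      rw [if_neg h, e1, mul_one]
      apply Real.one_le_exp
      have : 0 ≤ d p := sq_nonneg _
      positivity
  refine (prod_le_prod (fun p _ => ?_) (fun p _ => hpt p)).trans ?_
  · by_cases h : p.1 < p.2
    · rw [if_pos h]
      exact div_nonneg (by positivity) (by linarith)
    · rw [if_neg h]
      norm_num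
  rw [prod_mul_distrib, ← Real.exp_sum]
  refine mul_le_mul_of_nonneg_right (Real.exp_le_exp.2 ?_) (prod_nonneg fun p _ => W0 η hη _ p _)
  rw [sum_add_distrib, ← sum_div univ d]
  simp only [sum_const, card_univ, nsmul_eq_mul, Fintype.card_prod, Fintype.card_fin] at hK ⊢
  have : (∑ p, d p) / η ^ 2 ≤ ((n * n : ℕ) : ℝ) / m / η ^ 2 := by
    refine div_le_div_of_nonneg_right ?_ (by positivity)
    simpa [hd] using hK
  push_cast at this ⊢
  have e : (n : ℝ) * n / m / η ^ 2 = 1 / (m * η ^ 2) * n ^ 2 := by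
    field_simp
  rw [e] at this
  nlinarith


/-- For every ε>0 and all large n, summing over all graphs on n vertices the product over pairs i<j of the fraction of other vertices k with an even number of edges in triangle ijk gives at most 2^(εn²). -/
theorem result :
    ∀ ε : ℝ, 0 < ε → ∃ N : ℕ, ∀ n : ℕ, N ≤ n →
      (∑ G : SimpleGraph (Fin n),
        ∏ i : Fin n, ∏ j : Fin n,
          (if i < j then
            (((Finset.univ.filter (fun k : Fin n => k ≠ i ∧ k ≠ j ∧
                Even ((if G.Adj i j then 1 else 0) + (if G.Adj i k then 1 else 0)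
                  + (if G.Adj j k then 1 else 0) : ℕ))).card : ℝ) / ((n : ℝ) - 2))
          else 1)) ≤ (2 : ℝ) ^ (ε * (n : ℝ) ^ 2) := by
  intro ε hε
  have hl : 0 < Real.log 2 := Real.log_pos (by norm_num)
  set δ := ε * Real.log 2 / 4 with hδ
  have hδ0 : 0 < δ := by positivity
  set η := δ / 2 with hη
  have hη0 : 0 < η := by positivity
  obtain ⟨m, hm⟩ := exists_nat_gt (1 / (δ * η ^ 2))
  have hm0 : (0 : ℝ) < m := lt_trans (by positivity) hm
  have hm1 : 0 < m := by exact_mod_cast hm0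
  obtain ⟨N, hN⟩ := exists_nat_gt (3 + 2 / δ + m * Real.log 2 / δ)
  refine ⟨N, fun n hn => ?_⟩
  have hn' : (N : ℝ) ≤ n := by exact_mod_cast hn
  have p1 : 0 < 2 / δ := by positivity
  have p2 : 0 < m * Real.log 2 / δ := by positivity
  have hn3 : 3 ≤ n := by
    have : (3 : ℝ) ≤ n := by linarith
    exact_mod_cast this
  choose R hR using single hn3 hm1 η hη0
  refine (Finset.sum_le_sum fun G _ => hR G).trans ?_
  rw [← Finset.mul_sum]
  have h1 : ∑ G : SimpleGraph (Fin n), ∏ p, W η (R G) p (enc G p)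
      ≤ ∑ G : SimpleGraph (Fin n), ∑ Q : Fin m → Fin n → Bool, ∏ p, W η Q p (enc G p) :=
    Finset.sum_le_sum fun G _ => Finset.single_le_sum
      (f := fun Q : Fin m → Fin n → Bool => ∏ p, W η Q p (enc G p))
      (fun Q _ => Finset.prod_nonneg fun p _ => W0 η hη0 Q p _) (Finset.mem_univ _)
  rw [Finset.sum_comm] at h1
  have h2 := h1.trans (Finset.sum_le_sum fun Q _ => sumW hm1 η hη0 Q)
  simp only [Finset.sum_const, Finset.card_univ, nsmul_eq_mul, Fintype.card_fun, Fintype.card_fin,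
    Fintype.card_bool] at h2
  have e2 : (((2 ^ n) ^ m : ℕ) : ℝ) = Real.exp (m * Real.log 2 * n) := by
    push_cast
    rw [← pow_mul, show (m : ℝ) * Real.log 2 * n = ((n * m : ℕ) : ℝ) * Real.log 2 by push_cast; ring,
      Real.exp_nat_mul, Real.exp_log (by norm_num)]
  rw [e2, ← Real.exp_add] at h2
  refine (mul_le_mul_of_nonneg_left h2 (Real.exp_pos _).le).trans ?_
  rw [← Real.exp_add, Real.rpow_def_of_pos (by norm_num)]
  apply Real.exp_le_exp.2
  have a1 : 2 / ((n : ℝ) - 2) ≤ δ := by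
    rw [div_le_iff₀ (by linarith)]
    have : 2 / δ ≤ (n : ℝ) - 2 := by linarith
    rw [div_le_iff₀ hδ0] at this
    linarith
  have a2 : 1 / (m * η ^ 2) ≤ δ := by
    rw [div_le_iff₀ (by positivity)]
    rw [div_lt_iff₀ (by positivity)] at hm
    linarith
  have a3 : m * Real.log 2 ≤ δ * n := by
    have : m * Real.log 2 / δ ≤ n := by linarith
    rw [div_le_iff₀ hδ0] at this
    linarith
  have n0 : (0 : ℝ) ≤ n := by positivity
  have b1 := mul_le_mul_of_nonneg_right (add_le_add a1 a2) (sq_nonneg (n : ℝ))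
  have b2 := mul_le_mul_of_nonneg_right a3 n0
  have b3 : Real.log 2 * (ε * (n : ℝ) ^ 2) = 4 * δ * n ^ 2 := by rw [hδ]; ring
  have b4 : 2 * η = δ := by rw [hη]; ring
  rw [b3, b4]
  nlinarith

end Pool.Agent.S11885
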