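import Pool.Statements.S11888
-- import your own Pool.Agent.* helpers here

set_option autoImplicit false
open Pool Pool.MP_dd77b8_co

namespace Pool.Agent.S11888

theorem cap_diam {ι : Type} [Fintype ι] (X : Set (EuclideanSpace ℝ ι)) (hX : ∀ f ∈ X, ‖f‖ = 1)
    (T : ι) (e c : ℝ) (he : e ^ 2 = 1) (hc : 0 < c) (hc1 : c ≤ 1) :
    Metric.diam {f ∈ X | c ≤ e * f T} < 2 := by
  have h1 : Real.sqrt (4 - 4 * c ^ 2) < 2 := by
    rw [Real.sqrt_lt' (by norm_num)]
    nlinarith
  refine lt_of_le_of_lt (Metric.diam_le_of_forall_dist_le (Real.sqrt_nonneg _) ?_) h1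
  rintro f ⟨hf, hf2⟩ g ⟨hg, hg2⟩
  rw [dist_eq_norm]
  apply Real.le_sqrt_of_sq_le
  have p := parallelogram_law_with_norm ℝ f g
  rw [hX f hf, hX g hg] at p
  have q : ‖(f + g) T‖ ≤ ‖f + g‖ := PiLp.norm_apply_le (f + g) T
  have q2 : ‖(f + g) T‖ ^ 2 ≤ ‖f + g‖ ^ 2 := by gcongr
  rw [Real.norm_eq_abs, sq_abs, PiLp.add_apply] at q2
  have q3 : (2 * c) ^ 2 ≤ (e * f T + e * g T) ^ 2 := by gcongr; linarith
  have q4 : (e * f T + e * g T) ^ 2 = (f T + g T) ^ 2 := by linear_combination (f T + g T) ^ 2 * he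
  nlinarith

theorem big_coord {ι : Type} [Fintype ι] (f : EuclideanSpace ℝ ι) (hf : ‖f‖ = 1) :
    ∃ T, 1 / (Fintype.card ι : ℝ) ≤ |f T| := by
  by_contra hc
  push Not at hc
  have h1 := EuclideanSpace.real_norm_sq_eq f
  rw [hf] at h1
  have hne : Nonempty ι := by
    by_contra h
    rw [not_nonempty_iff] at h
    simp at h1
  have hd : (1 : ℝ) ≤ Fintype.card ι := by exact_mod_cast Fintype.card_pos
  have h2 : ∑ i, f i ^ 2 < ∑ _i : ι, 1 / (Fintype.card ι : ℝ) := by
    apply Finset.sum_lt_sum_of_nonempty Finset.univ_nonempty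
    intro i _
    have := hc i
    have h3 : 1 / (Fintype.card ι : ℝ) ≤ 1 := by rw [div_le_one (by linarith)]; exact hd
    rw [← sq_abs]
    nlinarith [abs_nonneg (f i)]
  rw [← h1] at h2
  simp only [Finset.sum_const, Finset.card_univ, nsmul_eq_mul] at h2
  rw [mul_one_div_cancel (by linarith)] at h2
  norm_num at h2

theorem grow (d : ℝ) (hd : 32 ≤ d) : 2 * d < Real.exp (d ^ ((4 : ℝ) / 5)) := by
  have d0 : 0 ≤ d := by linarith
  obtain ⟨y, hy0, hy⟩ : ∃ y : ℝ, 0 ≤ y ∧ y ^ 5 = d :=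
    ⟨d ^ ((1 : ℝ) / 5), by positivity, by
      rw [← Real.rpow_natCast, ← Real.rpow_mul d0]; norm_num⟩
  have e : d ^ ((4 : ℝ) / 5) = y ^ 4 := by
    rw [← hy, ← Real.rpow_natCast, ← Real.rpow_mul hy0, ← Real.rpow_natCast]
    norm_num
  have y2 : 2 ≤ y := by
    by_contra h
    have : y ^ 5 < 2 ^ 5 := by gcongr; linarith
    linarith
  have h := Real.pow_div_factorial_le_exp (y ^ 4) (by positivity) 2
  rw [e, ← hy]
  have h3 : 2 ^ 3 ≤ y ^ 3 := by gcongr
  have h5 : 0 < y ^ 5 := by positivity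
  norm_num [Nat.factorial] at h
  nlinarith

theorem prod_single {n : ℕ} (T0 S0 : Finset (Fin n)) (h0 : T0.card = 4)
    (hS : S0 ∈ T0.powersetCard 3) (e : ℝ) (T : Finset (Fin n)) (hT : T.card = 4) :
    ∏ S ∈ T.powersetCard 3, (if S = S0 then e else if S ⊆ T0 then 1 else 0) =
      if T = T0 then e else 0 := by
  split_ifs with h
  · subst h
    rw [Finset.prod_eq_single S0]
    · simp
    · intro S hS2 hne
      rw [if_neg hne, if_pos (Finset.mem_powersetCard.1 hS2).1]
    · intro h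
      exact absurd hS h
  · have : ¬ T ⊆ T0 := fun hs => h (Finset.eq_of_subset_of_card_le hs (by omega))
    obtain ⟨x, hx, hx0⟩ := Finset.not_subset.1 this
    obtain ⟨S, hS1, hS2, hS3⟩ := Finset.exists_subsuperset_card_eq (n := 3)
      (Finset.singleton_subset_iff.2 hx) (by simp) (by omega)
    have hn : ¬ S ⊆ T0 := fun hs => hx0 (hs (hS1 (Finset.mem_singleton_self x)))
    apply Finset.prod_eq_zero (Finset.mem_powersetCard.2 ⟨hS2, hS3⟩)
    rw [if_neg, if_neg hn]
    rintro rfl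
    exact hn (Finset.mem_powersetCard.1 hS).1

/-- The negation of the preceding statement: For all large n, any way of writing the unit-norm vectors f_g of U_{4,n} in R^{C(n,4)} as a union of m sets, each of diameter below that of the whole set, needs m ≥ exp(C(n,4)^{4/5}). -/
theorem result :
    ¬ (∃ N : ℕ, ∀ n : ℕ, N ≤ n →
      ∀ X : Set (EuclideanSpace ℝ {T : Finset (Fin n) // T.card = 4}),
        X = {f | ∃ g : Finset (Fin n) → ℝ,
              f = WithLp.toLp 2 (fun T : {T : Finset (Fin n) // T.card = 4} =>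
                    ∏ S ∈ T.1.powersetCard 3, g S) ∧ ‖f‖ = 1} →
        ∀ m : ℕ, ∀ A : Fin m → Set (EuclideanSpace ℝ {T : Finset (Fin n) // T.card = 4}),
          (⋃ i, A i) = X →
          (∀ i, Metric.diam (A i) < Metric.diam X) →
          Real.exp (((n.choose 4 : ℕ) : ℝ) ^ ((4 : ℝ) / 5)) ≤ (m : ℝ)) := by
  rintro ⟨N, h⟩
  obtain ⟨n, hN, h7⟩ : ∃ n, N ≤ n ∧ 7 ≤ n := ⟨max N 7, le_max_left _ _, le_max_right _ _⟩
  have h := h n hN _ rfl
  set X : Set (EuclideanSpace ℝ {T : Finset (Fin n) // T.card = 4}) :=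
    {f | ∃ g : Finset (Fin n) → ℝ,
      f = WithLp.toLp 2 (fun T : {T : Finset (Fin n) // T.card = 4} =>
        ∏ S ∈ T.1.powersetCard 3, g S) ∧ ‖f‖ = 1} with hXdef
  have hX : ∀ f ∈ X, ‖f‖ = 1 := fun f ⟨_, _, hf⟩ => hf
  have hcard : Fintype.card {T : Finset (Fin n) // T.card = 4} = n.choose 4 := by simp
  have h35 : 35 ≤ n.choose 4 := Nat.choose_le_choose 4 h7
  have hd : (35 : ℝ) ≤ n.choose 4 := by exact_mod_cast h35
  obtain ⟨T0⟩ : Nonempty {T : Finset (Fin n) // T.card = 4} :=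
    Fintype.card_pos_iff.1 (by omega)
  obtain ⟨S0, hS0⟩ : (T0.1.powersetCard 3).Nonempty := by
    rw [Finset.powersetCard_nonempty, T0.2]
    norm_num
  have hmem : ∀ e : ℝ, |e| = 1 → EuclideanSpace.single T0 e ∈ X := by
    intro e he
    refine ⟨fun S => if S = S0 then e else if S ⊆ T0.1 then 1 else 0, ?_, by simp [he]⟩
    ext T
    simp only [prod_single T0.1 S0 T0.2 hS0 e T.1 T.2, PiLp.single_apply, Subtype.ext_iff]
  have hdiam : 2 ≤ Metric.diam X := by
    have hb : Bornology.IsBounded X :=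
      (Metric.isBounded_closedBall (x := 0) (r := 1)).subset (fun f hf => by simp [hX f hf])
    have := Metric.dist_le_diam_of_mem hb (hmem 1 (by simp)) (hmem (-1) (by simp))
    rw [EuclideanSpace.dist_single_same] at this
    norm_num [Real.dist_eq] at this
    exact this
  let q := (Fintype.equivFin ({T : Finset (Fin n) // T.card = 4} × Bool)).symm
  have key := h _ (fun i => {f ∈ X | 1 / (n.choose 4 : ℝ) ≤
      (if (q i).2 then 1 else -1) * f (q i).1})
    (by
      apply Set.Subset.antisymm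
      · exact Set.iUnion_subset (fun i f hf => hf.1)
      · intro f hf
        obtain ⟨T, hT⟩ := big_coord f (hX f hf)
        rw [hcard] at hT
        rcases le_abs.1 hT with h1 | h1
        · exact Set.mem_iUnion.2 ⟨q.symm (T, true), hf, by simpa using h1⟩
        · exact Set.mem_iUnion.2 ⟨q.symm (T, false), hf, by simpa using h1⟩)
    (by
      intro i
      refine lt_of_lt_of_le (cap_diam X hX _ _ _ (by split_ifs <;> norm_num) (by positivity) ?_)
        hdiam
      rw [div_le_one (by linarith)]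
      linarith)
  rw [Fintype.card_prod, hcard, Fintype.card_bool] at key
  push_cast at key
  linarith [grow (n.choose 4 : ℝ) (by linarith)]

end Pool.Agent.S11888
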