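import Pool.Statements.S11898
-- import your own Pool.Agent.* helpers here

set_option autoImplicit false
open Pool Pool.MP_ddc6c3_co

namespace Pool.Agent.S11898

/-- The six affine functions cutting out a product of two triangles in `ℝ⁴`. -/
noncomputable def f (j : Fin 6) (x : EuclideanSpace ℝ (Fin 4)) : ℝ :=
  ![x 0, x 1, 3 - x 0 - x 1, x 2, x 3, 3 - x 2 - x 3] j

/-- `KK i` drops the `i`-th inequality. -/
def KK (i : Fin 6) : Set (EuclideanSpace ℝ (Fin 4)) := {x | ∀ j, j ≠ i → 0 ≤ f j x}

/-- Six points, the `i`-th violating only the `i`-th inequality. -/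
noncomputable def p (i : Fin 6) : EuclideanSpace ℝ (Fin 4) :=
  ![!₂[-5, 4, 1, 1], !₂[4, -5, 1, 1], !₂[4, 4, 1, 1], !₂[1, 1, -5, 4], !₂[1, 1, 4, -5], !₂[1, 1, 4, 4]] i

theorem f_cont (j : Fin 6) : Continuous (f j) := by
  unfold f
  fin_cases j <;> simp <;> fun_prop

theorem f_aff (j : Fin 6) (x y : EuclideanSpace ℝ (Fin 4)) (a b : ℝ) (h : a + b = 1) :
    f j (a • x + b • y) = a * f j x + b * f j y := by
  have hb : b = 1 - a := by linarith
  subst hb
  unfold f
  fin_cases j <;> simp <;> ring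

theorem f_p_self (i : Fin 6) : f i (p i) = -5 := by
  unfold f p
  fin_cases i <;> simp <;> norm_num

theorem f_p_other (i j : Fin 6) (h : j ≠ i) : 0 ≤ f j (p i) ∧ f j (p i) ≤ 4 := by
  unfold f p
  fin_cases i <;> fin_cases j <;> simp at h ⊢ <;> norm_num

theorem KK_closed (i : Fin 6) : IsClosed (KK i) := by
  have : KK i = ⋂ j, ⋂ (_ : j ≠ i), {x | 0 ≤ f j x} := by
    ext x; simp [KK]
  rw [this]
  exact isClosed_iInter fun j => isClosed_iInter fun _ => isClosed_le continuous_const (f_cont j)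

theorem KK_convex (i : Fin 6) : Convex ℝ (KK i) := by
  intro x hx y hy a b ha hb hab j hj
  rw [f_aff j x y a b hab]
  exact add_nonneg (mul_nonneg ha (hx j hj)) (mul_nonneg hb (hy j hj))

theorem mem_inter (x : EuclideanSpace ℝ (Fin 4)) : x ∈ (⋂ β, KK β) ↔ ∀ j, 0 ≤ f j x := by
  rw [Set.mem_iInter]
  constructor
  · intro h j
    obtain ⟨i, hi⟩ := exists_ne j
    exact h i j hi.symm
  · intro h i j _
    exact h j

theorem p_mem (i : Fin 6) : p i ∈ KK i := fun j hj => (f_p_other i j hj).1

theorem p_not_mem (i : Fin 6) : p i ∉ (⋂ β, KK β) := by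
  rw [mem_inter]
  intro h
  have := h i
  rw [f_p_self] at this
  norm_num at this

theorem inter_compact : IsCompact (⋂ β, KK β) := by
  refine Metric.isCompact_of_isClosed_isBounded (isClosed_iInter KK_closed) ?_
  rw [isBounded_iff_forall_norm_le]
  refine ⟨6, fun x hx => ?_⟩
  rw [mem_inter] at hx
  have h0 := hx 0
  have h1 := hx 1
  have h2 := hx 2
  have h3 := hx 3
  have h4 := hx 4
  have h5 := hx 5
  simp [f] at h0 h1 h2 h3 h4 h5
  rw [EuclideanSpace.norm_eq, Real.sqrt_le_left (by norm_num), Fin.sum_univ_four]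
  simp only [Real.norm_eq_abs, sq_abs]
  nlinarith

theorem inter_int : (interior (⋂ β, KK β)).Nonempty := by
  have ho : IsOpen (⋂ j, {x | 0 < f j x}) :=
    isOpen_iInter_of_finite fun j => isOpen_lt continuous_const (f_cont j)
  have hs : (⋂ j, {x | 0 < f j x}) ⊆ ⋂ β, KK β := by
    intro x hx
    rw [mem_inter]
    intro j
    exact le_of_lt (Set.mem_iInter.1 hx j)
  refine ⟨!₂[1, 1, 1, 1], interior_maximal hs ho ?_⟩
  rw [Set.mem_iInter]
  intro j
  unfold f
  fin_cases j <;> simp <;> norm_num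

/-- The negation of the preceding statement: Consider closed convex sets in R^d whose common intersection is a convex body strictly inside each one, and let n ≥ 2 be least such that any n of them intersect in that body. Then their union is a union of at most (d+1)(n-1) closed convex sets. -/
theorem result :
    ¬ (∀ (d n : ℕ) (I : Type) (K : I → Set (EuclideanSpace ℝ (Fin d))),
      (∀ α, IsClosed (K α) ∧ Convex ℝ (K α)) →
      IsCompact (⋂ β, K β) →
      Convex ℝ (⋂ β, K β) →
      (interior (⋂ β, K β)).Nonempty →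
      (∀ α, (⋂ β, K β) ⊂ K α) →
      2 ≤ n →
      (∀ S : Finset I, S.card = n → (⋂ α ∈ S, K α) = ⋂ β, K β) →
      (∀ m : ℕ, (∀ S : Finset I, S.card = m → (⋂ α ∈ S, K α) = ⋂ β, K β) → n ≤ m) →
      ∃ C : Fin ((d + 1) * (n - 1)) → Set (EuclideanSpace ℝ (Fin d)),
        (∀ i, IsClosed (C i) ∧ Convex ℝ (C i)) ∧ (⋃ i, C i) = ⋃ α, K α) := by
  intro h
  have hss : ∀ α, (⋂ β, KK β) ⊂ KK α := fun α =>
    ⟨Set.iInter_subset _ α, fun hh => p_not_mem α (hh (p_mem α))⟩
  obtain ⟨C, hC, hU⟩ := h 4 2 (Fin 6) KK (fun i => ⟨KK_closed i, KK_convex i⟩) inter_compact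
    (convex_iInter KK_convex) inter_int hss le_rfl
    (by
      intro S hS
      obtain ⟨a, b, hab, rfl⟩ := Finset.card_eq_two.1 hS
      ext x
      rw [mem_inter]
      simp only [Finset.mem_insert, Finset.mem_singleton, Set.mem_iInter, forall_eq_or_imp, forall_eq]
      constructor
      · rintro ⟨ha, hb⟩ j
        by_cases hj : j = a
        · exact hb j (hj ▸ hab)
        · exact ha j hj
      · intro hx
        exact ⟨fun j _ => hx j, fun j _ => hx j⟩)
    (by
      intro m hm
      by_contra hlt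
      have hm' : m = 0 ∨ m = 1 := by omega
      rcases hm' with rfl | rfl
      · have := hm ∅ rfl
        apply p_not_mem 0
        rw [← this]
        simp
      · have := hm {0} rfl
        apply p_not_mem 0
        rw [← this]
        simpa using p_mem 0)
  have hc : ∀ i : Fin 6, ∃ k, p i ∈ C k := by
    intro i
    rw [← Set.mem_iUnion, hU]
    exact Set.mem_iUnion.2 ⟨i, p_mem i⟩
  choose c hc using hc
  obtain ⟨i, j, hij, hcij⟩ := Fintype.exists_ne_map_eq_of_card_lt c (by simp)
  have hm : (1 / 2 : ℝ) • p i + (1 / 2 : ℝ) • p j ∈ C (c i) :=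
    (hC (c i)).2 (hc i) (hcij ▸ hc j) (by norm_num) (by norm_num) (by norm_num)
  have hm2 : (1 / 2 : ℝ) • p i + (1 / 2 : ℝ) • p j ∈ ⋃ α, KK α := by
    rw [← hU]; exact Set.mem_iUnion.2 ⟨_, hm⟩
  obtain ⟨k, hk⟩ := Set.mem_iUnion.1 hm2
  by_cases hik : i = k
  · have h1 := hk j (fun e => hij (hik.trans e.symm))
    rw [f_aff j _ _ _ _ (by norm_num), f_p_self] at h1
    have := (f_p_other i j hij.symm).2
    linarith
  · have h1 := hk i hik
    rw [f_aff i _ _ _ _ (by norm_num), f_p_self] at h1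
    have := (f_p_other j i hij).2
    linarith

end Pool.Agent.S11898
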