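import Pool.Statements.S11991
import Pool.Agent.Lib.helper13.CharRoot

set_option autoImplicit false
open Pool Pool.MP_e19463_co

namespace Pool.Agent.S11991

open Module Submodule

theorem rank_le {F ι ι' κ : Type} [Field F] [Fintype ι] (a : ι → κ → F) (b : ι' → κ → F)
    (h : ∀ i', b i' ∈ span F (Set.range a)) (X : Set κ) :
    finrank F ↥(span F ((fun j i' => b i' j) '' X)) ≤
      finrank F ↥(span F ((fun j i => a i j) '' X)) := by
  choose p hp using fun i' => (Submodule.mem_span_range_iff_exists_fun F).mp (h i')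
  let P : (ι → F) →ₗ[F] (ι' → F) :=
    { toFun := fun x i' => ∑ i, p i' i * x i
      map_add' := fun x y => by funext i'; simp [mul_add, Finset.sum_add_distrib]
      map_smul' := fun r x => by
        funext i'; simp [Finset.mul_sum, mul_left_comm] }
  have h1 : (fun j i' => b i' j) = P ∘ (fun j i => a i j) := by
    funext j i'
    rw [← hp i']
    simp [P, Finset.sum_apply]
  rw [h1, Set.image_comp, ← Submodule.map_span]
  exact Submodule.finrank_map_le _ _

/-- There is a function C such that for every loopless binary matroid M whose cocycle space has a basis of vectors of weight at most k, every complex root of the characteristic polynomial of M has modulus at most C(k). -/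
theorem result :
  ∃ C : ℕ → ℝ, ∀ (m n : ℕ) (A : Matrix (Fin m) (Fin n) (ZMod 2)),
    (∀ j : Fin n, ∃ i : Fin m, A i j ≠ 0) →
    ∀ k : ℕ,
    (∃ s : Finset (Fin n → ZMod 2),
        LinearIndependent (ZMod 2)
          (fun v : (s : Set (Fin n → ZMod 2)) => (v : Fin n → ZMod 2)) ∧
        Submodule.span (ZMod 2) (s : Set (Fin n → ZMod 2)) =
          Submodule.span (ZMod 2) (Set.range A) ∧
        ∀ v ∈ s, (Finset.univ.filter (fun j : Fin n => v j ≠ 0)).card ≤ k) →
    ∀ q : ℂ,
      (∑ X : Finset (Fin n), (-1 : ℂ) ^ X.card *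
        q ^ (Module.finrank (ZMod 2)
                (Submodule.span (ZMod 2)
                  (Set.range (fun j : Fin n => fun i : Fin m => A i j))) -
             Module.finrank (ZMod 2)
                (Submodule.span (ZMod 2)
                  ((fun j : Fin n => fun i : Fin m => A i j) '' (X : Set (Fin n)))))) = 0 →
      ‖q‖ ≤ C k := by
  refine ⟨fun k => 2 ^ (k + 1), ?_⟩
  rintro m n A hA k ⟨s, -, hs, hk⟩ q hq
  let b : s → Fin n → ZMod 2 := fun v => v.1
  have hb : Set.range b = (s : Set (Fin n → ZMod 2)) := by ext v; simp [b]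
  have e : ∀ X : Set (Fin n),
      finrank (ZMod 2) ↥(span (ZMod 2) ((fun j : Fin n => fun i : Fin m => A i j) '' X)) =
      finrank (ZMod 2) ↥(span (ZMod 2) ((fun j : Fin n => fun v : s => b v j) '' X)) := fun X =>
    le_antisymm
      (rank_le b A (fun i => by rw [hb, hs]; exact subset_span ⟨i, rfl⟩) X)
      (rank_le A b (fun v => by rw [← hs]; exact subset_span v.2) X)
  refine H13CR.root_bound (F := ZMod 2) (fun j : Fin n => fun v : s => b v j) k Finset.univ
    ?_ ?_ (finrank (ZMod 2) (span (ZMod 2)
      (Set.range (fun j : Fin n => fun i : Fin m => A i j)))) ?_ q ?_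
  · intro j _ h0
    obtain ⟨i, hi⟩ := hA j
    have h1 : A i ∈ span (ZMod 2) (s : Set (Fin n → ZMod 2)) := by
      rw [hs]; exact subset_span ⟨i, rfl⟩
    have h2 : span (ZMod 2) (s : Set (Fin n → ZMod 2)) ≤
        LinearMap.ker (LinearMap.proj j : (Fin n → ZMod 2) →ₗ[ZMod 2] ZMod 2) := by
      rw [span_le]
      intro v hv
      exact congrFun h0 ⟨v, hv⟩
    exact hi (h2 h1)
  · intro w hw
    obtain ⟨v, hv⟩ := Function.ne_iff.mp hw
    refine ⟨LinearMap.proj v, hv, fun T _ hT => le_trans (Finset.card_le_card ?_) (hk v.1 v.2)⟩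
    intro j hj
    exact Finset.mem_filter.mpr ⟨Finset.mem_univ _, hT j hj⟩
  · intro X _
    rw [← e]
    exact Submodule.finrank_mono (span_mono (Set.image_subset_range _ _))
  · rw [Finset.powerset_univ, ← hq]
    exact Finset.sum_congr rfl (fun X _ => by rw [e])

end Pool.Agent.S11991
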