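import Pool.Statements.S11998

set_option autoImplicit false
open Pool Pool.MP_e1ba52_co

namespace Pool.Agent.S11998

/-- the critical set, as a list of cells -/
def cells : List (Fin 6 × Fin 6) := [(0, 0), (0, 3), (0, 5), (2, 1), (2, 3), (3, 0), (3, 1), (3, 2), (3, 3), (4, 0), (4, 1), (4, 2), (4, 3), (4, 5), (5, 0), (5, 5)]

/-- the remaining cells, in the order in which they are filled -/
def rest : List (Fin 6 × Fin 6) := [(4, 4), (3, 4), (0, 4), (2, 4), (3, 5), (2, 5), (1, 5), (2, 0), (1, 0), (1, 1), (0, 1), (0, 2), (1, 3), (1, 2), (1, 4), (2, 2), (5, 1), (5, 2), (5, 3), (5, 4)]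

/-- exhaustive completion search: every completion agrees with the cyclic square -/
def check : List (Fin 6 × Fin 6) → List (Fin 6 × Fin 6 × Fin 6) → Bool
  | [], asg => asg.all (fun t => t.2.2 == t.1 + t.2.1)
  | (r, c) :: l, asg => (List.finRange 6).all (fun s =>
      asg.any (fun t => t.2.2 == s && ((t.1 == r && t.2.1 != c) || (t.2.1 == c && t.1 != r))) ||
        check l ((r, c, s) :: asg))

theorem check_ok : check rest (cells.map (fun x => (x.1, x.2, x.1 + x.2))) = true := by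
  decide +kernel

theorem check_spec (M : Fin 6 → Fin 6 → Fin 6) (h1 : ∀ i, Function.Injective (M i))
    (h2 : ∀ j, Function.Injective (fun i => M i j)) :
    ∀ (l : List (Fin 6 × Fin 6)) (asg : List (Fin 6 × Fin 6 × Fin 6)),
      (∀ t ∈ asg, M t.1 t.2.1 = t.2.2) → check l asg = true →
      (∀ t ∈ asg, t.2.2 = t.1 + t.2.1) ∧ ∀ x ∈ l, M x.1 x.2 = x.1 + x.2
  | [], asg, _, h => by
      simpa [check] using h
  | (r, c) :: l, asg, ha, h => by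
      simp only [check, List.all_eq_true, Bool.or_eq_true, List.any_eq_true] at h
      rcases h (M r c) (List.mem_finRange _) with ⟨t, ht, hc⟩ | hc
      · exfalso
        have e := ha t ht
        simp only [Bool.and_eq_true, beq_iff_eq, Bool.or_eq_true, bne_iff_ne] at hc
        rcases hc with ⟨e1, ⟨e2, e3⟩ | ⟨e2, e3⟩⟩
        · rw [e1, e2] at e
          exact e3 (h1 r e)
        · rw [e1, e2] at e
          exact e3 (h2 c e)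
      · have ih := check_spec M h1 h2 l ((r, c, M r c) :: asg) (by
          intro t ht
          rcases List.mem_cons.mp ht with rfl | ht
          · rfl
          · exact ha t ht) hc
        refine ⟨fun t ht => ih.1 t (List.mem_cons_of_mem _ ht), ?_⟩
        intro x hx
        rcases List.mem_cons.mp hx with rfl | hx
        · exact ih.1 _ List.mem_cons_self
        · exact ih.2 x hx

theorem cover : ∀ x : Fin 6 × Fin 6, x ∈ cells ∨ x ∈ rest := by decide +kernel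

/-- second completions after deleting one cell -/
def alt : List ((Fin 6 × Fin 6) × (Fin 6 → Fin 6 → Fin 6)) :=
  [((0, 0), ![![2, 1, 4, 3, 0, 5], ![1, 2, 3, 4, 5, 0], ![0, 3, 2, 5, 4, 1], ![3, 4, 5, 0, 1, 2], ![4, 5, 0, 1, 2, 3], ![5, 0, 1, 2, 3, 4]]),
   ((0, 3), ![![0, 2, 1, 4, 3, 5], ![2, 0, 4, 3, 5, 1], ![1, 3, 2, 5, 4, 0], ![3, 4, 5, 0, 1, 2], ![4, 5, 0, 1, 2, 3], ![5, 1, 3, 2, 0, 4]]),
   ((0, 5), ![![0, 2, 4, 3, 5, 1], ![2, 1, 3, 4, 0, 5], ![1, 3, 2, 5, 4, 0], ![3, 4, 5, 0, 1, 2], ![4, 5, 0, 1, 2, 3], ![5, 0, 1, 2, 3, 4]]),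
   ((2, 1), ![![0, 1, 2, 3, 4, 5], ![1, 2, 3, 4, 5, 0], ![2, 0, 4, 5, 3, 1], ![3, 4, 5, 0, 1, 2], ![4, 5, 0, 1, 2, 3], ![5, 3, 1, 2, 0, 4]]),
   ((2, 3), ![![0, 2, 1, 3, 4, 5], ![2, 0, 4, 5, 3, 1], ![1, 3, 2, 4, 5, 0], ![3, 4, 5, 0, 1, 2], ![4, 5, 0, 1, 2, 3], ![5, 1, 3, 2, 0, 4]]),
   ((3, 0), ![![0, 2, 4, 3, 1, 5], ![3, 0, 2, 4, 5, 1], ![2, 3, 1, 5, 4, 0], ![1, 4, 5, 0, 3, 2], ![4, 5, 0, 1, 2, 3], ![5, 1, 3, 2, 0, 4]]),
   ((3, 1), ![![0, 4, 2, 3, 1, 5], ![2, 1, 3, 4, 5, 0], ![1, 3, 4, 5, 0, 2], ![3, 2, 5, 0, 4, 1], ![4, 5, 0, 1, 2, 3], ![5, 0, 1, 2, 3, 4]]),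
   ((3, 2), ![![0, 2, 4, 3, 1, 5], ![2, 0, 5, 4, 3, 1], ![1, 3, 2, 5, 4, 0], ![3, 4, 1, 0, 5, 2], ![4, 5, 0, 1, 2, 3], ![5, 1, 3, 2, 0, 4]]),
   ((3, 3), ![![0, 1, 2, 3, 4, 5], ![1, 0, 3, 4, 5, 2], ![2, 3, 4, 5, 0, 1], ![3, 4, 5, 2, 1, 0], ![4, 5, 0, 1, 2, 3], ![5, 2, 1, 0, 3, 4]]),
   ((4, 0), ![![0, 1, 4, 3, 2, 5], ![1, 2, 3, 4, 5, 0], ![4, 3, 2, 5, 0, 1], ![3, 4, 5, 0, 1, 2], ![2, 5, 0, 1, 4, 3], ![5, 0, 1, 2, 3, 4]]),
   ((4, 1), ![![0, 1, 2, 3, 4, 5], ![2, 5, 1, 4, 3, 0], ![1, 3, 4, 5, 0, 2], ![3, 4, 5, 0, 2, 1], ![4, 2, 0, 1, 5, 3], ![5, 0, 3, 2, 1, 4]]),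
   ((4, 2), ![![0, 2, 4, 3, 1, 5], ![2, 1, 3, 4, 5, 0], ![1, 3, 0, 5, 4, 2], ![3, 4, 5, 0, 2, 1], ![4, 5, 2, 1, 0, 3], ![5, 0, 1, 2, 3, 4]]),
   ((4, 3), ![![0, 2, 1, 3, 4, 5], ![2, 1, 3, 4, 5, 0], ![1, 3, 4, 5, 0, 2], ![3, 4, 5, 0, 2, 1], ![4, 5, 0, 2, 1, 3], ![5, 0, 2, 1, 3, 4]]),
   ((4, 5), ![![0, 2, 4, 3, 1, 5], ![2, 0, 1, 4, 5, 3], ![1, 3, 2, 5, 4, 0], ![3, 4, 5, 0, 2, 1], ![4, 5, 0, 1, 3, 2], ![5, 1, 3, 2, 0, 4]]),
   ((5, 0), ![![0, 2, 1, 3, 4, 5], ![5, 1, 2, 4, 3, 0], ![2, 3, 4, 5, 0, 1], ![3, 4, 5, 0, 1, 2], ![4, 5, 0, 1, 2, 3], ![1, 0, 3, 2, 5, 4]]),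
   ((5, 5), ![![0, 1, 2, 3, 4, 5], ![1, 0, 3, 2, 5, 4], ![2, 3, 4, 5, 0, 1], ![3, 4, 5, 0, 1, 2], ![4, 5, 0, 1, 2, 3], ![5, 2, 1, 4, 3, 0]])]

theorem alt_ok : ∀ c ∈ cells.toFinset, ∃ p ∈ alt,
    (∀ i, Function.Injective (p.2 i)) ∧ (∀ j, Function.Injective (fun i => p.2 i j)) ∧
    (∀ d ∈ cells.toFinset.erase c, p.2 d.1 d.2 = d.1 + d.2) ∧ p.2 c.1 c.2 ≠ c.1 + c.2 := by
  decide +kernel

theorem result :
    ¬ (∀ n : ℕ, 1 ≤ n →
      IsGreatest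
        {k : ℕ | ∃ S : Finset (Fin n × Fin n),
          (∀ M : Fin n → Fin n → Fin n,
              (∀ i, Function.Injective (M i)) →
              (∀ j, Function.Injective (fun i => M i j)) →
              (∀ c ∈ S, M c.1 c.2 = c.1 + c.2) →
              M = fun i j => i + j) ∧
          (∀ c ∈ S, ∃ M : Fin n → Fin n → Fin n,
              (∀ i, Function.Injective (M i)) ∧
              (∀ j, Function.Injective (fun i => M i j)) ∧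
              (∀ d ∈ S.erase c, M d.1 d.2 = d.1 + d.2) ∧
              M ≠ fun i j => i + j) ∧
          S.card = k}
        (n * (n - 1) / 2)) := by
  intro h
  refine absurd (mem_upperBounds.mp (h 6 (by norm_num)).2 16
    ⟨cells.toFinset, ?_, ?_, by decide +kernel⟩) (by norm_num)
  · intro M h1 h2 h3
    have hs := check_spec M h1 h2 rest _ (by
      intro t ht
      obtain ⟨x, hx, rfl⟩ := List.mem_map.mp ht
      exact h3 x (List.mem_toFinset.mpr hx)) check_ok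
    funext i j
    rcases cover (i, j) with hx | hx
    · exact h3 _ (List.mem_toFinset.mpr hx)
    · exact hs.2 _ hx
  · intro c hc
    obtain ⟨p, _, p1, p2, p3, p4⟩ := alt_ok c hc
    exact ⟨p.2, p1, p2, p3, fun e => p4 (by rw [e])⟩

end Pool.Agent.S11998
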