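import Pool.Statements.S12030

set_option autoImplicit false
open Pool Pool.MP_e2957e_co

namespace Pool.Agent.S12030

open Finset

theorem fiber_eq {n : ℕ} (S : Finset (Equiv.Perm (Fin n))) (k : Fin n) (J : Finset (Fin n))
    (h1 : ∀ σ ∈ S, σ k ∈ J) (h2 : ∀ l ∈ J, ∀ l' ∈ J, ∀ σ ∈ S, Equiv.swap l l' * σ ∈ S)
    (l : Fin n) (hl : l ∈ J) : J.card * (S.filter (fun σ => σ k = l)).card = S.card := by
  rw [card_eq_sum_card_fiberwise (f := fun σ : Equiv.Perm (Fin n) => σ k) (s := S) (t := J) h1]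
  rw [← smul_eq_mul, ← sum_const]
  apply sum_congr rfl
  intro l' hl'
  apply card_bij (fun σ _ => Equiv.swap l l' * σ)
  · intro σ hσ
    rw [mem_filter] at hσ ⊢
    refine ⟨h2 l hl l' hl' σ hσ.1, ?_⟩
    simp [hσ.2]
  · intro σ _ τ _ h
    exact mul_left_cancel h
  · intro τ hτ
    rw [mem_filter] at hτ
    refine ⟨Equiv.swap l l' * τ, ?_, ?_⟩
    · rw [mem_filter]
      refine ⟨h2 l hl l' hl' τ hτ.1, ?_⟩
      simp [hτ.2]
    · rw [← mul_assoc]; simp

/-- a 1-coset -/
def T {n : ℕ} (i j : Fin n) : Finset (Equiv.Perm (Fin n)) := univ.filter (fun σ => σ i = j)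

theorem mem_T {n : ℕ} {i j : Fin n} {σ : Equiv.Perm (Fin n)} : σ ∈ T i j ↔ σ i = j := by
  simp [T]

theorem card_T (N : ℕ) (i j : Fin (N + 2)) : (T i j).card = (N + 1) * N.factorial := by
  have := fiber_eq (univ : Finset (Equiv.Perm (Fin (N + 2)))) i univ (by simp) (by simp) j
    (by simp)
  rw [card_univ, card_univ, Fintype.card_perm, Fintype.card_fin, Nat.factorial_succ,
    Nat.factorial_succ] at this
  exact Nat.eq_of_mul_eq_mul_left (by omega) this

theorem card_TT (N : ℕ) (i j k l : Fin (N + 2)) (hik : i ≠ k) (hjl : j ≠ l) :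
    (T i j ∩ T k l).card = N.factorial := by
  have := fiber_eq (T i j) k (univ.erase j) ?_ ?_ l (by simp [hjl.symm])
  · rw [card_T, card_erase_of_mem (mem_univ _), card_univ, Fintype.card_fin] at this
    have e : (T i j).filter (fun σ => σ k = l) = T i j ∩ T k l := by
      ext σ; simp [mem_T]
    rw [e] at this
    exact Nat.eq_of_mul_eq_mul_left (by omega) this
  · intro σ hσ
    rw [mem_T] at hσ
    simp only [mem_erase, mem_univ, and_true]
    rw [← hσ]
    exact fun h => hik (σ.injective h).symm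
  · intro a ha b hb σ hσ
    rw [mem_T] at hσ ⊢
    simp only [mem_erase, mem_univ, and_true] at ha hb
    rw [Equiv.Perm.mul_apply, hσ, Equiv.swap_apply_of_ne_of_ne ha.symm hb.symm]

/-- the complement of the example -/
def X (N : ℕ) : Finset (Equiv.Perm (Fin (N + 2))) := (T 0 0 ∪ T 1 1) ∪ (T 0 1 ∩ T 1 0)

theorem z1 (N : ℕ) : (0 : Fin (N + 2)) ≠ 1 := zero_ne_one

theorem card_X (N : ℕ) : (X N).card = 2 * ((N + 1) * N.factorial) := by
  have hd : Disjoint (T (0 : Fin (N + 2)) 0 ∪ T 1 1) (T 0 1 ∩ T 1 0) := by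
    rw [disjoint_left]
    intro σ h1 h2
    simp only [mem_union, mem_inter, mem_T] at h1 h2
    rcases h1 with h | h
    · exact z1 N (h.symm.trans h2.1)
    · exact z1 N (h2.2.symm.trans h)
  have h1 := card_union_add_card_inter (T (0 : Fin (N + 2)) 0) (T 1 1)
  rw [card_TT N _ _ _ _ (z1 N) (z1 N), card_T, card_T] at h1
  rw [X, card_union_of_disjoint hd, card_TT N _ _ _ _ (z1 N) (z1 N).symm]
  omega

theorem inter_X (N : ℕ) (i j : Fin (N + 2)) : N.factorial ≤ (T i j ∩ X N).card := by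
  have key : ∀ k l : Fin (N + 2), i ≠ k → j ≠ l → T i j ∩ T k l ⊆ X N →
      N.factorial ≤ (T i j ∩ X N).card := by
    intro k l h1 h2 h3
    rw [← card_TT N i j k l h1 h2]
    exact card_le_card (subset_inter inter_subset_left h3)
  have s0 : ∀ σ, σ ∈ T (0 : Fin (N + 2)) 0 → σ ∈ X N := fun σ h => by simp [X, h]
  have s1 : ∀ σ, σ ∈ T (1 : Fin (N + 2)) 1 → σ ∈ X N := fun σ h => by simp [X, h]
  by_cases hi : i = 0
  · by_cases hj : j = 1
    · subst hi hj
      exact key 1 0 (z1 N) (z1 N).symm (fun σ h => by simp only [X, mem_union]; exact Or.inr h)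
    · subst hi
      exact key 1 1 (z1 N) hj (fun σ h => s1 σ (mem_inter.mp h).2)
  · by_cases hj : j = 0
    · by_cases hi1 : i = 1
      · subst hi1 hj
        exact key 0 1 (z1 N).symm (z1 N)
          (fun σ h => by simp only [X, mem_union]; rw [inter_comm] at h; exact Or.inr h)
      · subst hj
        exact key 1 1 hi1 (z1 N) (fun σ h => s1 σ (mem_inter.mp h).2)
    · exact key 0 0 hi hj (fun σ h => s0 σ (mem_inter.mp h).2)

/-- transpositions moving `i` -/
def Pr {n : ℕ} (i : Fin n) : Finset (Fin n × Fin n) :=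
  univ.filter (fun p => p.1 < p.2 ∧ (p.1 = i ∨ p.2 = i))

theorem card_Pr {n : ℕ} (i : Fin n) : (Pr i).card ≤ n := by
  have : (Pr i).card ≤ (univ : Finset (Fin n)).card := by
    apply card_le_card_of_injOn (fun p => if p.1 = i then p.2 else p.1) (by simp)
    rintro ⟨a, b⟩ h1 ⟨c, d⟩ h2 h
    simp only [Pr, coe_filter, mem_univ, true_and, Set.mem_ofPred_eq] at h1 h2
    simp only [Prod.mk.injEq] at h ⊢
    split_ifs at h <;> omega
  simpa using this

theorem boundary_le (N : ℕ) :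
    ((((X N)ᶜ ×ˢ (Finset.univ.filter (fun p : Fin (N + 2) × Fin (N + 2) => p.1 < p.2))).filter
      (fun x => x.1 * Equiv.swap x.2.1 x.2.2 ∉ (X N)ᶜ)).card : ℕ)
      ≤ 2 * ((N + 1) * N.factorial) * (N + 2) + N.factorial * (2 * (N + 2)) := by
  have h1 : ((((X N)ᶜ ×ˢ (Finset.univ.filter
      (fun p : Fin (N + 2) × Fin (N + 2) => p.1 < p.2))).filter
      (fun x => x.1 * Equiv.swap x.2.1 x.2.2 ∉ (X N)ᶜ)).card : ℕ) ≤
      ((T 0 0 ×ˢ Pr (0 : Fin (N + 2))) ∪ (T 1 1 ×ˢ Pr 1) ∪
        ((T (0 : Fin (N + 2)) 1 ∩ T 1 0) ×ˢ (Pr 0 ∪ Pr 1))).card := by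
    apply card_le_card_of_injOn (fun x => (x.1 * Equiv.swap x.2.1 x.2.2, x.2))
    · rintro ⟨σ, a, b⟩ h
      simp only [coe_filter, mem_product, mem_compl, mem_filter, mem_univ, true_and, not_not,
        Set.mem_ofPred_eq] at h
      obtain ⟨⟨hσ, hab⟩, hτ⟩ := h
      have fix : ∀ i : Fin (N + 2), (a, b) ∉ Pr i → (σ * Equiv.swap a b) i = σ i := by
        intro i hi
        simp only [Pr, mem_filter, mem_univ, true_and, hab, not_or] at hi
        rw [Equiv.Perm.mul_apply, Equiv.swap_apply_of_ne_of_ne (Ne.symm hi.1) (Ne.symm hi.2)]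
      simp only [X, mem_union, mem_inter, mem_T, not_or, not_and] at hσ hτ
      simp only [mem_coe, mem_union, mem_product, mem_inter, mem_T]
      rcases hτ with (h | h) | h
      · left; left
        refine ⟨h, ?_⟩
        by_contra hc
        rw [fix _ hc] at h
        exact hσ.1.1 h
      · left; right
        refine ⟨h, ?_⟩
        by_contra hc
        rw [fix _ hc] at h
        exact hσ.1.2 h
      · right
        refine ⟨h, ?_⟩
        by_contra hc
        rw [not_or] at hc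
        rw [fix _ hc.1, fix _ hc.2] at h
        exact hσ.2 h.1 h.2
    · rintro ⟨σ, p⟩ _ ⟨τ, q⟩ _ h
      simp only [Prod.mk.injEq] at h ⊢
      obtain ⟨h1, rfl⟩ := h
      exact ⟨mul_right_cancel h1, rfl⟩
  refine h1.trans ?_
  refine (card_union_le _ _).trans ?_
  have h2 := card_union_le (T 0 0 ×ˢ Pr (0 : Fin (N + 2))) (T (1 : Fin (N + 2)) 1 ×ˢ Pr 1)
  rw [card_product, card_product, card_T, card_T] at h2
  rw [card_product, card_TT N _ _ _ _ (z1 N) (z1 N).symm]
  have h3 := card_Pr (0 : Fin (N + 2))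
  have h4 := card_Pr (1 : Fin (N + 2))
  have h5 := card_union_le (Pr (0 : Fin (N + 2))) (Pr 1)
  have h6 : N.factorial * (Pr (0 : Fin (N + 2)) ∪ Pr 1).card ≤ N.factorial * (2 * (N + 2)) :=
    Nat.mul_le_mul_left _ (by omega)
  have h7 := Nat.mul_le_mul_left ((N + 1) * N.factorial) h3
  have h8 := Nat.mul_le_mul_left ((N + 1) * N.factorial) h4
  have h9 : 2 * ((N + 1) * N.factorial) * (N + 2) =
      (N + 1) * N.factorial * (N + 2) + (N + 1) * N.factorial * (N + 2) := by ring
  omega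

theorem card_A (N : ℕ) : ((X N)ᶜ).card = N * ((N + 1) * N.factorial) := by
  have h := card_add_card_compl (X N)
  rw [card_X, Fintype.card_perm, Fintype.card_fin, Nat.factorial_succ, Nat.factorial_succ] at h
  have : (N + 1 + 1) * ((N + 1) * N.factorial) =
    2 * ((N + 1) * N.factorial) + N * ((N + 1) * N.factorial) := by ring
  omega

theorem far (N : ℕ) (P : Finset (Fin (N + 2) × Fin (N + 2))) (hP : P.card = N) :
    N * N.factorial ≤ (symmDiff (X N)ᶜ (Finset.univ.filter
      (fun σ : Equiv.Perm (Fin (N + 2)) => ∃ p ∈ P, σ p.1 = p.2))).card := by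
  set B := Finset.univ.filter
      (fun σ : Equiv.Perm (Fin (N + 2)) => ∃ p ∈ P, σ p.1 = p.2) with hB
  have h1 : (X N)ᶜ ⊆ symmDiff (X N)ᶜ B ∪ P.biUnion (fun p => T p.1 p.2 \ X N) := by
    intro σ hσ
    rw [mem_union]
    by_cases h : σ ∈ B
    · right
      rw [hB, mem_filter] at h
      obtain ⟨_, p, hp, h⟩ := h
      rw [mem_biUnion]
      exact ⟨p, hp, mem_sdiff.mpr ⟨mem_T.mpr h, mem_compl.mp hσ⟩⟩
    · left
      rw [mem_symmDiff]
      exact Or.inl ⟨hσ, h⟩
  have h2 := (card_le_card h1).trans (card_union_le _ _)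
  have h3 : (P.biUnion (fun p => T p.1 p.2 \ X N)).card ≤ N * (N * N.factorial) := by
    refine card_biUnion_le.trans ?_
    have e0 : N * (N * N.factorial) = P.card • (N * N.factorial) := by rw [hP, smul_eq_mul]
    rw [e0]
    apply sum_le_card_nsmul
    intro p _
    have e1 := card_sdiff_add_card_inter (T p.1 p.2) (X N)
    have e2 := inter_X N p.1 p.2
    rw [card_T] at e1
    have : (N + 1) * N.factorial = N * N.factorial + N.factorial := by ring
    omega
  rw [card_A] at h2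
  have : N * ((N + 1) * N.factorial) = N * (N * N.factorial) + N * N.factorial := by ring
  omega

theorem result :
    ¬ (∃ C₁ : ℝ, 0 < C₁ ∧
      ∀ (n : ℕ), 1 ≤ n →
      ∀ (c : ℕ) (δ : ℝ), 0 ≤ δ →
      ∀ A : Finset (Equiv.Perm (Fin n)),
        A.card = c * Nat.factorial (n - 1) →
        ((((A ×ˢ (Finset.univ.filter (fun p : Fin n × Fin n => p.1 < p.2))).filter
            (fun x => x.1 * Equiv.swap x.2.1 x.2.2 ∉ A)).card : ℕ) : ℝ)
          ≤ (A.card : ℝ) * ((Nat.factorial n : ℝ) - (A.card : ℝ)) / (Nat.factorial (n - 1) : ℝ)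
            + δ * (n : ℝ) * (A.card : ℝ) →
        ∃ P : Finset (Fin n × Fin n), P.card = c ∧
          ((symmDiff A (Finset.univ.filter (fun σ : Equiv.Perm (Fin n) => ∃ p ∈ P, σ p.1 = p.2))).card : ℝ)
            ≤ C₁ * (c : ℝ) * δ * (Nat.factorial (n - 1) : ℝ)) := by
  rintro ⟨C, hC, h⟩
  obtain ⟨N, hN⟩ := exists_nat_gt (6 * C)
  have hN0 : (0 : ℝ) < N := by linarith
  have hf : (0 : ℝ) < (N.factorial : ℝ) := by exact_mod_cast N.factorial_pos
  have e1 : (N + 2 - 1).factorial = (N + 1) * N.factorial := Nat.factorial_succ N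
  have e2 : (N + 2).factorial = (N + 2) * ((N + 1) * N.factorial) := by
    rw [Nat.factorial_succ, Nat.factorial_succ]
  obtain ⟨P, hP, hle⟩ := h (N + 2) (by omega) N (6 / ((N : ℝ) * (N + 1))) (by positivity)
    (X N)ᶜ (by rw [card_A, e1]) (by
      have hb : (((((X N)ᶜ ×ˢ (Finset.univ.filter
          (fun p : Fin (N + 2) × Fin (N + 2) => p.1 < p.2))).filter
          (fun x => x.1 * Equiv.swap x.2.1 x.2.2 ∉ (X N)ᶜ)).card : ℕ) : ℝ) ≤
          ((2 * ((N + 1) * N.factorial) * (N + 2) + N.factorial * (2 * (N + 2)) : ℕ) : ℝ) := by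
        exact_mod_cast boundary_le N
      refine hb.trans ?_
      rw [card_A, e1, e2]
      push_cast
      have : (N : ℝ) * (((N : ℝ) + 1) * N.factorial) *
          (((N : ℝ) + 2) * (((N : ℝ) + 1) * N.factorial) - N * (((N : ℝ) + 1) * N.factorial)) /
            (((N : ℝ) + 1) * N.factorial) +
          6 / ((N : ℝ) * (N + 1)) * ((N : ℝ) + 2) * ((N : ℝ) * (((N : ℝ) + 1) * N.factorial))
          = 2 * N * (N + 1) * N.factorial + 6 * (N + 2) * N.factorial := by
        field_simp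
        ring
      rw [this]
      nlinarith)
  have h1 : ((N * N.factorial : ℕ) : ℝ) ≤ _ := Nat.cast_le.mpr (far N P hP)
  have h2 := h1.trans hle
  rw [e1] at h2
  push_cast at h2
  have : C * N * (6 / ((N : ℝ) * (N + 1))) * (((N : ℝ) + 1) * N.factorial)
      = 6 * C * N.factorial := by
    field_simp
  rw [this] at h2
  nlinarith

end Pool.Agent.S12030
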