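import Pool.Statements.S12060
import Mathlib

set_option autoImplicit false
open Pool Pool.MP_e3c312_co

namespace Pool.Agent.S12060

set_option autoImplicit false

namespace H17S12060

abbrev E := EuclideanSpace ℝ (Fin 2)

theorem d2 (x y : E) : dist x y ^ 2 = (x 0 - y 0) ^ 2 + (x 1 - y 1) ^ 2 := by
  rw [EuclideanSpace.dist_eq, Real.sq_sqrt (by positivity), Fin.sum_univ_two, Real.dist_eq,
    Real.dist_eq, sq_abs, sq_abs]

theorem dist_of_sq {x y x' y' : E} (h : (x 0 - y 0) ^ 2 + (x 1 - y 1) ^ 2 =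
    (x' 0 - y' 0) ^ 2 + (x' 1 - y' 1) ^ 2) : dist x y = dist x' y' := by
  rw [← d2, ← d2] at h
  exact (pow_left_inj₀ dist_nonneg dist_nonneg two_ne_zero).mp h

noncomputable def iso (a b e c d : ℝ) (h : a ^ 2 + b ^ 2 = 1) (he : e ^ 2 = 1) : E ≃ᵢ E where
  toFun x := !₂[a * (x 0 - c) + b * (x 1 - d), e * (a * (x 1 - d) - b * (x 0 - c))]
  invFun y := !₂[c + a * y 0 - e * b * y 1, d + b * y 0 + e * a * y 1]
  left_inv x := by
    ext i
    fin_cases i
    · simp
      linear_combination (x 0 - c) * h - b * (a * (x 1 - d) - b * (x 0 - c)) * he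
    · simp
      linear_combination (x 1 - d) * h + a * (a * (x 1 - d) - b * (x 0 - c)) * he
  right_inv y := by
    ext i
    fin_cases i
    · simp
      linear_combination (y 0) * h
    · simp
      linear_combination (e ^ 2 * y 1) * h + y 1 * he
  isometry_toFun := Isometry.of_dist_eq fun x y => dist_of_sq (by
    simp
    linear_combination ((x 0 - y 0) ^ 2 + (x 1 - y 1) ^ 2) * h +
      (a * (x 1 - y 1) - b * (x 0 - y 0)) ^ 2 * he)

theorem iso0 (a b e c d : ℝ) (h : a ^ 2 + b ^ 2 = 1) (he : e ^ 2 = 1) (x : E) :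
    iso a b e c d h he x 0 = a * (x 0 - c) + b * (x 1 - d) := rfl

theorem iso1 (a b e c d : ℝ) (h : a ^ 2 + b ^ 2 = 1) (he : e ^ 2 = 1) (x : E) :
    iso a b e c d h he x 1 = e * (a * (x 1 - d) - b * (x 0 - c)) := rfl

noncomputable def g (s : ℝ) : ℝ := √((6 - 3 * min s 1) / (8 - 3 * min s 1))

theorem g_cont : Continuous g := by
  refine Continuous.sqrt (Continuous.div (by fun_prop) (by fun_prop) fun s => ?_)
  have := min_le_right s 1
  linarith

theorem g_pos (s : ℝ) : 0 < g s := by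
  have := min_le_right s 1
  exact Real.sqrt_pos.mpr (div_pos (by linarith) (by linarith))

theorem g_sq {s : ℝ} (h : s ≤ 1) : g s ^ 2 * (8 - 3 * s) = 6 - 3 * s := by
  unfold g
  rw [min_eq_left h, Real.sq_sqrt (div_pos (by linarith) (by linarith)).le]
  exact div_mul_cancel₀ _ (by linarith)

theorem g_lt {s : ℝ} (h : s ≤ 1) : g s < 1 := by
  have h1 := g_sq h
  have h2 := g_pos s
  by_contra hn
  push Not at hn
  have h3 : 1 ≤ g s ^ 2 := by nlinarith
  nlinarith [mul_le_mul_of_nonneg_right h3 (show 0 ≤ 8 - 3 * s by linarith)]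

noncomputable def uu (t : ℝ) : ℝ := (|t| + t * g |t|) / 2
noncomputable def vv (t : ℝ) : ℝ := (|t| - t * g |t|) / 2

theorem uv {t : ℝ} (h : |t| ≤ 1) : 0 ≤ uu t ∧ 0 ≤ vv t ∧ uu t + vv t = |t| ∧
    uu t * vv t * (16 - 6 * |t|) = |t| ^ 2 := by
  have h1 := g_sq h
  have h2 := g_pos |t|
  have h3 := g_lt h
  have h4 := le_abs_self t
  have h5 := neg_abs_le t
  have h6 := sq_abs t
  have h7 := abs_nonneg t
  unfold uu vv
  refine ⟨by nlinarith, by nlinarith, by ring, ?_⟩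
  linear_combination (-(1 / 2) * t ^ 2) * h1 + (3 - 3 / 2 * |t|) * h6

noncomputable def q (t : ℝ) : Fin 4 → E :=
  ![!₂[0, 0], !₂[3, 0], !₂[1 + vv t, √(vv t * (4 - vv t))], !₂[2 - uu t, √(uu t * (4 - uu t))]]

theorem q_cont : Continuous q := by
  have := g_cont
  have hu : Continuous uu := by unfold uu; fun_prop
  have hv : Continuous vv := by unfold vv; fun_prop
  refine continuous_pi fun i => ?_
  fin_cases i <;> simp [q] <;> fun_prop

def Ed (r : Fin 4 → E) : Prop :=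
  dist (r 0) (r 1) ^ 2 = 9 ∧ dist (r 1) (r 2) ^ 2 = 4 ∧ dist (r 2) (r 3) ^ 2 = 1 ∧
    dist (r 3) (r 0) ^ 2 = 4

noncomputable def U (r : Fin 4 → E) : ℝ := (dist (r 1) (r 3) ^ 2 - 1) / 6
noncomputable def V (r : Fin 4 → E) : ℝ := (dist (r 0) (r 2) ^ 2 - 1) / 6

theorem q_fact {t : ℝ} (h : |t| ≤ 1) : Ed (q t) ∧ U (q t) = uu t ∧ V (q t) = vv t := by
  obtain ⟨h1, h2, h3, h4⟩ := uv h
  have h5 : √(uu t * (4 - uu t)) ^ 2 = uu t * (4 - uu t) := Real.sq_sqrt (by nlinarith)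
  have h6 : √(vv t * (4 - vv t)) ^ 2 = vv t * (4 - vv t) := Real.sq_sqrt (by nlinarith)
  have h7 : √(vv t * (4 - vv t)) * √(uu t * (4 - uu t)) = uu t * vv t + uu t + vv t := by
    refine (pow_left_inj₀ (by positivity) (by positivity) two_ne_zero).mp ?_
    rw [mul_pow, h5, h6]
    rw [← h3] at h4
    linear_combination h4
  simp only [Ed, U, V, d2, q]
  simp only [Matrix.cons_val, PiLp.toLp_apply]
  refine ⟨⟨by norm_num, ?_, ?_, ?_⟩, ?_, ?_⟩
  · linear_combination h6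
  · linear_combination h5 + h6 - 2 * h7
  · linear_combination h5
  · linear_combination h5 / 6
  · linear_combination h6 / 6

noncomputable def H (r : Fin 4 → E) : ℝ := (U r - V r) / g (U r + V r)

theorem H_q {t : ℝ} (h : |t| ≤ 1) : H (q t) = t := by
  obtain ⟨_, h1, h2⟩ := q_fact h
  rw [H, h1, h2, (uv h).2.2.1, div_eq_iff (g_pos _).ne', uu, vv]
  ring

set_option maxHeartbeats 2000000 in
theorem norm_form (r : Fin 4 → E) (h : Ed r) (hs : U r + V r < 1) :
    |H r| = U r + V r ∧ ∃ T : E ≃ᵢ E, ∀ i, T (r i) = q (H r) i := by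
  obtain ⟨e1, e2, e3, e4⟩ := h
  have hU : 6 * U r + 1 = dist (r 1) (r 3) ^ 2 := by unfold U; ring
  have hV : 6 * V r + 1 = dist (r 0) (r 2) ^ 2 := by unfold V; ring
  have hg := g_sq hs.le
  have hg0 := g_pos (U r + V r)
  have hH : H r * g (U r + V r) = U r - V r := div_mul_cancel₀ _ hg0.ne'
  rw [d2] at e1 e2 e3 e4 hU hV
  set a := (r 1 0 - r 0 0) / 3
  set b := (r 1 1 - r 0 1) / 3
  have hab : a ^ 2 + b ^ 2 = 1 := by unfold a b; linear_combination e1 / 9
  set c2 := a * (r 2 1 - r 0 1) - b * (r 2 0 - r 0 0) with hc2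
  set d2 := a * (r 3 1 - r 0 1) - b * (r 3 0 - r 0 0) with hd2
  have c1 : a * (r 2 0 - r 0 0) + b * (r 2 1 - r 0 1) = 1 + V r := by
    unfold a b; linear_combination (e1 - e2 - hV) / 6
  have d1 : a * (r 3 0 - r 0 0) + b * (r 3 1 - r 0 1) = 2 - U r := by
    unfold a b; linear_combination (e1 + e4 + hU) / 6
  have c3 : c2 ^ 2 = V r * (4 - V r) := by
    have : c2 ^ 2 + (a * (r 2 0 - r 0 0) + b * (r 2 1 - r 0 1)) ^ 2 = 6 * V r + 1 := by
      rw [hV, hc2]; linear_combination ((r 0 0 - r 2 0) ^ 2 + (r 0 1 - r 2 1) ^ 2) * hab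
    rw [c1] at this
    linear_combination this
  have d3 : d2 ^ 2 = U r * (4 - U r) := by
    have : d2 ^ 2 + (a * (r 3 0 - r 0 0) + b * (r 3 1 - r 0 1)) ^ 2 = 4 := by
      rw [← e4, hd2]; linear_combination ((r 0 0 - r 3 0) ^ 2 + (r 0 1 - r 3 1) ^ 2) * hab
    rw [d1] at this
    linear_combination this
  have cd : c2 * d2 = U r * V r + U r + V r := by
    have : (c2 - d2) ^ 2 + ((a * (r 2 0 - r 0 0) + b * (r 2 1 - r 0 1)) -
        (a * (r 3 0 - r 0 0) + b * (r 3 1 - r 0 1))) ^ 2 = 1 := by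
      rw [← e3, hd2, hc2]; linear_combination ((r 2 0 - r 3 0) ^ 2 + (r 2 1 - r 3 1) ^ 2) * hab
    rw [c1, d1] at this
    linear_combination (c3 + d3 - this) / 2
  have key : ∀ x y : ℝ, y ^ 2 = x * (4 - x) → 0 ≤ x := fun x y h => by
    nlinarith [sq_nonneg x, sq_nonneg y]
  have u0 : 0 ≤ U r := key _ _ d3
  have v0 : 0 ≤ V r := key _ _ c3
  have rel : U r * V r * (16 - 6 * (U r + V r)) = (U r + V r) ^ 2 := by
    have : (c2 * d2) ^ 2 = V r * (4 - V r) * (U r * (4 - U r)) := by rw [mul_pow, c3, d3]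
    rw [cd] at this
    linear_combination -this
  have habs : |H r| = U r + V r := by
    refine (pow_left_inj₀ (abs_nonneg _) (by positivity) two_ne_zero).mp ?_
    rw [sq_abs]
    refine mul_right_cancel₀ (b := 6 - 3 * (U r + V r)) (by linarith) ?_
    have : (H r * g (U r + V r)) ^ 2 = (U r - V r) ^ 2 := by rw [hH]
    linear_combination (8 - 3 * (U r + V r)) * this - H r ^ 2 * hg - 2 * rel
  have hu : uu (H r) = U r := by rw [uu, habs, hH]; ring
  have hv : vv (H r) = V r := by rw [vv, habs, hH]; ring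
  obtain ⟨e, he, h1, h2⟩ : ∃ e : ℝ, e ^ 2 = 1 ∧ 0 ≤ e * c2 ∧ 0 ≤ e * d2 := by
    have : 0 ≤ c2 * d2 := by rw [cd]; positivity
    rcases mul_nonneg_iff.mp this with h | h
    · exact ⟨1, by norm_num, by linarith, by linarith⟩
    · exact ⟨-1, by norm_num, by linarith, by linarith⟩
  refine ⟨habs, iso a b e (r 0 0) (r 0 1) hab he, fun i => ?_⟩
  ext j
  fin_cases i <;> fin_cases j <;> simp [iso0, iso1, q, hu, hv]
  · unfold a b; linear_combination e1 / 3
  · right; unfold a b; ring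
  · exact c1
  · rw [← c3, ← hc2]
    refine ((Real.sqrt_eq_iff_mul_self_eq (sq_nonneg _) h1).mpr ?_).symm
    linear_combination -c2 ^ 2 * he
  · exact d1
  · rw [← d3, ← hd2]
    refine ((Real.sqrt_eq_iff_mul_self_eq (sq_nonneg _) h2).mpr ?_).symm
    linear_combination -d2 ^ 2 * he

noncomputable def sg : E ≃ᵢ E := iso (-1) 0 (-1) 3 0 (by norm_num) (by norm_num)

theorem sg_sq : sg * sg = 1 := by
  ext x i
  fin_cases i <;> simp [sg, iso0, iso1]

theorem sg_ne : sg ≠ 1 := fun h => by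
  have : sg 0 0 = (0 : E) 0 := by rw [h]; rfl
  simp [sg, iso0] at this

def Gam : Subgroup (E ≃ᵢ E) where
  carrier := {1, sg}
  one_mem' := Or.inl rfl
  mul_mem' := by
    rintro _ _ (rfl | rfl) (rfl | rfl) <;> simp [sg_sq]
  inv_mem' := by
    rintro _ (rfl | rfl)
    · simp
    · exact Or.inr (inv_eq_of_mul_eq_one_right sg_sq)

instance : Finite Gam := (Set.toFinite ({1, sg} : Set (E ≃ᵢ E))).to_subtype

def pp : Equiv.Perm (Fin 4) := Equiv.swap 0 1 * Equiv.swap 2 3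

open Classical in
noncomputable def th : Gam →* Equiv.Perm (Fin 4) :=
  MonoidHom.mk' (fun γ => if γ.1 = 1 then 1 else pp) (by
    have : pp * pp = 1 := by decide
    rintro ⟨_, rfl | rfl⟩ ⟨_, rfl | rfl⟩ <;> simp [sg_sq, sg_ne, this])

theorem th_cases (γ : Gam) : (γ.1 = 1 ∧ th γ = 1) ∨ (γ.1 = sg ∧ th γ = pp) := by
  obtain ⟨_, rfl | rfl⟩ := γ
  · exact Or.inl ⟨rfl, by simp [th]⟩
  · exact Or.inr ⟨rfl, by simp [th, sg_ne]⟩

theorem adj_iff {t : ℝ} (h : |t| ≤ 1) (r : Fin 4 → E) :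
    (∀ i j, (SimpleGraph.cycleGraph 4).Adj i j → dist (r i) (r j) = dist (q t i) (q t j)) ↔
      Ed r := by
  obtain ⟨h1, h2, h3, h4⟩ := (q_fact h).1
  constructor
  · intro h
    exact ⟨by rw [h 0 1 (by decide), h1], by rw [h 1 2 (by decide), h2],
      by rw [h 2 3 (by decide), h3], by rw [h 3 0 (by decide), h4]⟩
  · rintro ⟨g1, g2, g3, g4⟩
    have k : ∀ i j, dist (r i) (r j) ^ 2 = dist (q t i) (q t j) ^ 2 →
        dist (r i) (r j) = dist (q t i) (q t j) ∧ dist (r j) (r i) = dist (q t j) (q t i) := by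
      intro i j h
      have := (pow_left_inj₀ dist_nonneg dist_nonneg two_ne_zero).mp h
      exact ⟨this, by rw [dist_comm, this, dist_comm]⟩
    have k1 := k 0 1 (g1.trans h1.symm)
    have k2 := k 1 2 (g2.trans h2.symm)
    have k3 := k 2 3 (g3.trans h3.symm)
    have k4 := k 3 0 (g4.trans h4.symm)
    intro i j hij
    fin_cases i <;> fin_cases j <;>
      first
        | exact absurd hij (by decide)
        | exact k1.1 | exact k1.2 | exact k2.1 | exact k2.2
        | exact k3.1 | exact k3.2 | exact k4.1 | exact k4.2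

theorem uv_mono {s t : ℝ} (h0 : 0 ≤ s) (h : s ≤ t) (h1 : t ≤ 1 / 2) :
    uu s ≤ uu t ∧ vv s ≤ vv t := by
  have a1 := g_sq (s := s) (by linarith)
  have a2 := g_sq (s := t) (by linarith)
  have b1 := g_pos s
  have b2 := g_pos t
  have c1 := g_lt (s := s) (by linarith)
  have c2 := g_lt (s := t) (by linarith)
  have h3 : g t ≤ g s := by
    refine (pow_le_pow_iff_left₀ b2.le b1.le two_ne_zero).mp ?_
    refine le_of_mul_le_mul_right ?_ (show 0 < (8 - 3 * s) * (8 - 3 * t) by nlinarith)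
    have : g s ^ 2 * ((8 - 3 * s) * (8 - 3 * t)) - g t ^ 2 * ((8 - 3 * s) * (8 - 3 * t)) =
      6 * (t - s) := by linear_combination (8 - 3 * t) * a1 - (8 - 3 * s) * a2
    linarith
  have h4 : s * g s ≤ t * g t := by
    refine (pow_le_pow_iff_left₀ (by positivity) (by nlinarith) two_ne_zero).mp ?_
    refine le_of_mul_le_mul_right ?_ (show 0 < (8 - 3 * s) * (8 - 3 * t) by nlinarith)
    have : (t * g t) ^ 2 * ((8 - 3 * s) * (8 - 3 * t)) - (s * g s) ^ 2 * ((8 - 3 * s) * (8 - 3 * t)) =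
      (t - s) * (48 * (s + t) - 24 * (s ^ 2 + s * t + t ^ 2) - 18 * s * t + 9 * s * t * (s + t)) := by
      linear_combination t ^ 2 * (8 - 3 * s) * a2 - s ^ 2 * (8 - 3 * t) * a1
    have h5 : 0 ≤ 48 * (s + t) - 24 * (s ^ 2 + s * t + t ^ 2) - 18 * s * t + 9 * s * t * (s + t) := by
      have : 0 ≤ s * t := mul_nonneg h0 (h0.trans h)
      have : 0 ≤ s * t * (s + t) := mul_nonneg this (by linarith)
      nlinarith
    nlinarith [mul_nonneg (sub_nonneg.mpr h) h5]
  unfold uu vv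
  rw [abs_of_nonneg h0, abs_of_nonneg (h0.trans h)]
  constructor
  · linarith
  · nlinarith

abbrev Rl (q q' : Fin 4 → E) : Prop := ∃ T : E ≃ᵢ E, ∀ i, T (q i) = q' i

theorem inv_U {r r' : Fin 4 → E} (h : Rl r r') : U r = U r' := by
  obtain ⟨T, h⟩ := h
  simp only [U, ← h, T.dist_eq]

theorem inv_V {r r' : Fin 4 → E} (h : Rl r r') : V r = V r' := by
  obtain ⟨T, h⟩ := h
  simp only [V, ← h, T.dist_eq]

noncomputable def U' : Quot Rl → ℝ := Quot.lift U fun _ _ => inv_U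
noncomputable def V' : Quot Rl → ℝ := Quot.lift V fun _ _ => inv_V
noncomputable def H' (x : Quot Rl) : ℝ := (U' x - V' x) / g (U' x + V' x)

theorem U'_cont : Continuous U' := continuous_quot_lift _ (by unfold U; fun_prop)
theorem V'_cont : Continuous V' := continuous_quot_lift _ (by unfold V; fun_prop)
theorem H'_cont : Continuous H' :=
  (U'_cont.sub V'_cont).div (g_cont.comp (U'_cont.add V'_cont)) fun _ => (g_pos _).ne'

noncomputable def hom : ↥({x | U' x + V' x < 1} ∩ {x : Quot Rl | ∃ r, Quot.mk Rl r = x ∧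
    ∀ i j, (SimpleGraph.cycleGraph 4).Adj i j → dist (r i) (r j) = dist (q 0 i) (q 0 j)}) ≃ₜ
    ↥(Set.Ioo (0 : ℝ) 1) where
  toFun x := ⟨(H' x.1 + 1) / 2, by
    obtain ⟨_, h1, r, rfl, h2⟩ := x
    have := (norm_form r ((adj_iff (by simp) r).mp h2) h1).1
    have h3 : |H r| < 1 := this ▸ h1
    have h4 := abs_lt.mp h3
    change 0 < (H r + 1) / 2 ∧ (H r + 1) / 2 < 1
    constructor <;> linarith⟩
  invFun s := ⟨Quot.mk Rl (q (2 * s.1 - 1)), by
    have h : |2 * s.1 - 1| < 1 := abs_lt.mpr ⟨by linarith [s.2.1], by linarith [s.2.2]⟩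
    refine ⟨?_, _, rfl, (adj_iff (by simp) _).mpr (q_fact h.le).1⟩
    change U _ + V _ < 1
    rw [(q_fact h.le).2.1, (q_fact h.le).2.2, (uv h.le).2.2.1]
    exact h⟩
  left_inv := by
    rintro ⟨_, h1, r, rfl, h2⟩
    apply Subtype.ext
    change Quot.mk Rl (q (2 * ((H r + 1) / 2) - 1)) = Quot.mk Rl r
    rw [show 2 * ((H r + 1) / 2) - 1 = H r by ring]
    exact (Quot.sound (norm_form r ((adj_iff (by simp) r).mp h2) h1).2).symm
  right_inv s := by
    have h : |2 * s.1 - 1| < 1 := abs_lt.mpr ⟨by linarith [s.2.1], by linarith [s.2.2]⟩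
    apply Subtype.ext
    change (H (q (2 * s.1 - 1)) + 1) / 2 = s.1
    rw [H_q h.le]
    ring
  continuous_toFun := by
    have := H'_cont
    fun_prop
  continuous_invFun := by
    refine Continuous.subtype_mk ?_ _
    exact continuous_quot_mk.comp (q_cont.comp (by fun_prop))

end H17S12060

open H17S12060 in

/-- The negation of the preceding statement: For any Γ-symmetric framework in ℝ^d, every expansive motion tracing one half-branch of a neighbourhood of [p] homeomorphic to an interval in the configuration space mod isometries can be moved by continuous isometries so it stays Γ-symmetric. -/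
theorem result :
    ¬ (∀ (d : ℕ) (V : Type) [Fintype V] (G : SimpleGraph V) (p : V → EuclideanSpace ℝ (Fin d))
    (Γ : Subgroup (EuclideanSpace ℝ (Fin d) ≃ᵢ EuclideanSpace ℝ (Fin d))) [Finite Γ]
    (θ : Γ →* Equiv.Perm V),
    (∀ γ : Γ, ∀ u v : V, G.Adj u v ↔ G.Adj (θ γ u) (θ γ v)) →
    (∀ γ : Γ, ∀ i : V,
      (γ : EuclideanSpace ℝ (Fin d) ≃ᵢ EuclideanSpace ℝ (Fin d)) (p i) = p (θ γ i)) →
    ∀ m : ℝ → V → EuclideanSpace ℝ (Fin d),
      ContinuousOn m (Set.Icc 0 1) → m 0 = p →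
      (∀ t ∈ Set.Icc (0:ℝ) 1, ∀ i j : V, G.Adj i j → dist (m t i) (m t j) = dist (p i) (p j)) →
      (∀ i j : V, MonotoneOn (fun t => dist (m t i) (m t j)) (Set.Icc (0:ℝ) 1)) →
      (∃ t ∈ Set.Icc (0:ℝ) 1, ∃ i j : V, dist (m t i) (m t j) ≠ dist (p i) (p j)) →
      Set.InjOn (fun t => Quot.mk (fun q q' : V → EuclideanSpace ℝ (Fin d) =>
          ∃ T : EuclideanSpace ℝ (Fin d) ≃ᵢ EuclideanSpace ℝ (Fin d), ∀ i, T (q i) = q' i) (m t))
        (Set.Icc (0:ℝ) 1) →
      (∃ O : Set (Quot (fun q q' : V → EuclideanSpace ℝ (Fin d) =>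
          ∃ T : EuclideanSpace ℝ (Fin d) ≃ᵢ EuclideanSpace ℝ (Fin d), ∀ i, T (q i) = q' i)),
        IsOpen O ∧
        ∃ h : ↥(O ∩ {x : Quot (fun q q' : V → EuclideanSpace ℝ (Fin d) =>
              ∃ T : EuclideanSpace ℝ (Fin d) ≃ᵢ EuclideanSpace ℝ (Fin d), ∀ i, T (q i) = q' i) |
              ∃ q : V → EuclideanSpace ℝ (Fin d),
                Quot.mk (fun q q' : V → EuclideanSpace ℝ (Fin d) =>
                  ∃ T : EuclideanSpace ℝ (Fin d) ≃ᵢ EuclideanSpace ℝ (Fin d), ∀ i, T (q i) = q' i) q = x ∧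
                ∀ i j : V, G.Adj i j → dist (q i) (q j) = dist (p i) (p j)}) ≃ₜ ↥(Set.Ioo (0:ℝ) 1),
        ∃ a : Set.Ioo (0:ℝ) 1,
          (h.symm a).1 = Quot.mk (fun q q' : V → EuclideanSpace ℝ (Fin d) =>
            ∃ T : EuclideanSpace ℝ (Fin d) ≃ᵢ EuclideanSpace ℝ (Fin d), ∀ i, T (q i) = q' i) p ∧
          ((∀ t ∈ Set.Ioc (0:ℝ) 1, ∃ b : Set.Ioo (0:ℝ) 1,
              (h.symm b).1 = Quot.mk (fun q q' : V → EuclideanSpace ℝ (Fin d) =>
                ∃ T : EuclideanSpace ℝ (Fin d) ≃ᵢ EuclideanSpace ℝ (Fin d), ∀ i, T (q i) = q' i) (m t) ∧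
              (a : ℝ) < (b : ℝ)) ∨
           (∀ t ∈ Set.Ioc (0:ℝ) 1, ∃ b : Set.Ioo (0:ℝ) 1,
              (h.symm b).1 = Quot.mk (fun q q' : V → EuclideanSpace ℝ (Fin d) =>
                ∃ T : EuclideanSpace ℝ (Fin d) ≃ᵢ EuclideanSpace ℝ (Fin d), ∀ i, T (q i) = q' i) (m t) ∧
              (b : ℝ) < (a : ℝ)))) →
      ∃ T : ℝ → (EuclideanSpace ℝ (Fin d) ≃ᵢ EuclideanSpace ℝ (Fin d)),
        (∀ x, T 0 x = x) ∧
        (∀ x, ContinuousOn (fun t => T t x) (Set.Icc (0:ℝ) 1)) ∧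
        ∀ t ∈ Set.Icc (0:ℝ) 1, ∀ γ : Γ, ∀ i : V,
          (γ : EuclideanSpace ℝ (Fin d) ≃ᵢ EuclideanSpace ℝ (Fin d)) (T t (m t i))
            = T t (m t (θ γ i))) := by
  intro h
  have hb : ∀ t ∈ Set.Icc (0 : ℝ) 1, |t / 2| ≤ 1 := fun t ht =>
    abs_le.mpr ⟨by linarith [ht.1], by linarith [ht.2]⟩
  have h00 : |(0 : ℝ)| ≤ 1 := by simp
  have hne : ∀ t : ℝ, |t| ≤ 1 → dist (q t 0) (q t 2) = dist (q t 1) (q t 3) → t = 0 := by
    intro t ht h
    rw [← H_q ht, H, U, V, h, sub_self, zero_div]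
  obtain ⟨T, _, _, hT⟩ := h 2 (Fin 4) (SimpleGraph.cycleGraph 4) (q 0) Gam th
    (by
      intro γ
      rcases th_cases γ with ⟨_, h⟩ | ⟨_, h⟩ <;> rw [h] <;> decide)
    (by
      intro γ i
      rcases th_cases γ with ⟨h1, h⟩ | ⟨h1, h⟩ <;> rw [h, h1]
      · rfl
      · ext j
        fin_cases i <;> fin_cases j <;>
          simp [sg, iso0, iso1, q, uu, vv, pp, Equiv.swap_apply_def] <;> norm_num)
    (fun t => q (t / 2)) (q_cont.comp (by fun_prop)).continuousOn (by simp)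
    (fun t ht => (adj_iff h00 _).mpr (q_fact (hb t ht)).1)
    (by
      intro i j s hs t ht hst
      obtain ⟨a1, a2⟩ := uv_mono (s := s / 2) (t := t / 2) (by linarith [hs.1]) (by linarith)
        (by linarith [ht.2])
      obtain ⟨b1, b2, b3⟩ := q_fact (hb s hs)
      obtain ⟨c1, c2, c3⟩ := q_fact (hb t ht)
      have k1 : dist (q (s / 2) 1) (q (s / 2) 3) ≤ dist (q (t / 2) 1) (q (t / 2) 3) := by
        refine (pow_le_pow_iff_left₀ dist_nonneg dist_nonneg two_ne_zero).mp ?_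
        unfold U at b2 c2
        linarith
      have k2 : dist (q (s / 2) 0) (q (s / 2) 2) ≤ dist (q (t / 2) 0) (q (t / 2) 2) := by
        refine (pow_le_pow_iff_left₀ dist_nonneg dist_nonneg two_ne_zero).mp ?_
        unfold V at b3 c3
        linarith
      have k3 := k1
      have k4 := k2
      rw [dist_comm (q (s / 2) _), dist_comm (q (t / 2) _)] at k3 k4
      by_cases hij : (SimpleGraph.cycleGraph 4).Adj i j
      · exact ((adj_iff (hb t ht) _).mpr b1 i j hij).le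
      · fin_cases i <;> fin_cases j <;>
          first
            | exact absurd (by decide) hij
            | exact k1 | exact k2 | exact k3 | exact k4
            | simp)
    (by
      by_contra hn
      push Not at hn
      have h1 := hn 1 (by simp) 0 2
      have h2 := hn 1 (by simp) 1 3
      have h3 : dist (q 0 0) (q 0 2) = dist (q 0 1) (q 0 3) :=
        dist_of_sq (by simp [q, uu, vv]; norm_num)
      have := hne (1 / 2) (hb 1 (by simp)) (h1.trans (h3.trans h2.symm))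
      norm_num at this)
    (by
      intro s hs t ht hst
      have : H (q (s / 2)) = H (q (t / 2)) := congrArg H' hst
      rw [H_q (hb s hs), H_q (hb t ht)] at this
      linarith)
    ⟨{x | U' x + V' x < 1}, isOpen_lt (U'_cont.add V'_cont) continuous_const, hom,
      ⟨1 / 2, by norm_num, by norm_num⟩, by
        change Quot.mk Rl (q (2 * (1 / 2) - 1)) = _
        norm_num, Or.inl fun t ht => ⟨⟨(t / 2 + 1) / 2, by linarith [ht.1], by linarith [ht.2]⟩, by
        change Quot.mk Rl (q (2 * ((t / 2 + 1) / 2) - 1)) = _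
        rw [show 2 * ((t / 2 + 1) / 2) - 1 = t / 2 by ring], by
        change 1 / 2 < (t / 2 + 1) / 2
        linarith [ht.1]⟩⟩
  have e : th ⟨sg, Or.inr rfl⟩ = pp := by simp [th, sg_ne]
  have h1 := hT 1 (by simp) ⟨sg, Or.inr rfl⟩ 0
  have h2 := hT 1 (by simp) ⟨sg, Or.inr rfl⟩ 2
  rw [e, show pp 0 = 1 by decide] at h1
  rw [e, show pp 2 = 3 by decide] at h2
  have := hne (1 / 2) (hb 1 (by simp)) (by
    rw [← (T 1).dist_eq, ← (T 1).dist_eq (q _ 1), ← h1, ← h2, IsometryEquiv.dist_eq sg])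
  norm_num at this

end Pool.Agent.S12060
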