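import Pool.Statements.S12088
import Pool.Agent.Lib.H8.VWC

set_option autoImplicit false
open Pool Pool.MP_e4c5f9_co

namespace Pool.Agent.S12088

/-- The negation of the preceding statement: For every finite graph with no isolated vertices whose maximal independent sets all have size n/2, the counts s_k of independent sets of size k satisfy s_{k-1}·s_{k+1} ≤ s_k² for all k ≥ 1. -/
theorem result :
    ¬ (∀ (V : Type) [Fintype V] (G : SimpleGraph V),
      (∀ v : V, ∃ w : V, G.Adj v w) →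
      (∀ s t : Finset V,
        (G.IsIndepSet (s : Set V) ∧ ∀ v : V, v ∉ s → ¬ G.IsIndepSet (insert v (s : Set V))) →
        (G.IsIndepSet (t : Set V) ∧ ∀ v : V, v ∉ t → ¬ G.IsIndepSet (insert v (t : Set V))) →
        s.card = t.card) →
      (∃ s : Finset V, G.IsIndepSet (s : Set V) ∧
        (∀ v : V, v ∉ s → ¬ G.IsIndepSet (insert v (s : Set V))) ∧
        2 * s.card = Fintype.card V) →
      ∀ k : ℕ, 1 ≤ k →
        {s : Finset V | G.IsIndepSet (s : Set V) ∧ s.card = k - 1}.ncard *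
          {s : Finset V | G.IsIndepSet (s : Set V) ∧ s.card = k + 1}.ncard ≤
          {s : Finset V | G.IsIndepSet (s : Set V) ∧ s.card = k}.ncard ^ 2) := by
  intro h
  obtain ⟨a, r, k, h1, h2⟩ := Pool.Agent.Lib.H8.VWC.valley
  have hex : ∃ s : Finset (Pool.Agent.Lib.H8.VWC.V a r),
      (Pool.Agent.Lib.H8.VWC.H a r).IsIndepSet (s : Set _) ∧
      ∀ v, v ∉ s → ¬ (Pool.Agent.Lib.H8.VWC.H a r).IsIndepSet (insert v (s : Set _)) := by
    classical
    obtain ⟨s, hs, hmax⟩ := Finset.exists_max_image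
      (Finset.univ.filter (fun s : Finset (Pool.Agent.Lib.H8.VWC.V a r) =>
        (Pool.Agent.Lib.H8.VWC.H a r).IsIndepSet (s : Set _))) Finset.card
      ⟨∅, by simp [SimpleGraph.IsIndepSet]⟩
    refine ⟨s, (Finset.mem_filter.1 hs).2, fun v hv hi => ?_⟩
    have := hmax (insert v s) (Finset.mem_filter.2 ⟨Finset.mem_univ _, by
      rw [Finset.coe_insert]; exact hi⟩)
    rw [Finset.card_insert_of_notMem hv] at this
    omega
  obtain ⟨s, hs1, hs2⟩ := hex
  have key := h (Pool.Agent.Lib.H8.VWC.V a r) (Pool.Agent.Lib.H8.VWC.H a r)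
    Pool.Agent.Lib.H8.VWC.no_isolated
    (fun s t hs ht => by
      rw [Pool.Agent.Lib.H8.VWC.max_card s hs.1 hs.2, Pool.Agent.Lib.H8.VWC.max_card t ht.1 ht.2])
    ⟨s, hs1, hs2, by
      rw [Pool.Agent.Lib.H8.VWC.max_card s hs1 hs2, Pool.Agent.Lib.H8.VWC.cardV]; ring⟩
    (k + 1) (by omega)
  change Pool.Agent.Lib.H8.VWC.cnt a r k * Pool.Agent.Lib.H8.VWC.cnt a r (k + 2) ≤
    Pool.Agent.Lib.H8.VWC.cnt a r (k + 1) ^ 2 at key
  have := Nat.mul_lt_mul'' h1 h2
  rw [sq] at key
  omega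

end Pool.Agent.S12088
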