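import Pool.Statements.S12093

set_option autoImplicit false
open Pool Pool.MP_e5126b_co

namespace Pool.Agent.S12093

open Finset

theorem sq_inj {G : Type} [Group G] [Fintype G] (h : Odd (Fintype.card G)) :
    Function.Injective (fun x : G => x ^ 2) := by
  have hc : (Nat.card G).Coprime 2 := by
    rw [Nat.card_eq_fintype_card]
    exact (Nat.coprime_two_right).2 h
  exact (powCoprime hc).injective

theorem conj_bij {G : Type} [Group G] [Fintype G] (h : Odd (Fintype.card G)) (x : G) :
    Function.Bijective (fun g : G => g * x⁻¹ * g) := by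
  apply Finite.injective_iff_bijective.1
  intro a b hab
  have : (a * x⁻¹) ^ 2 = (b * x⁻¹) ^ 2 := by
    simp only at hab
    calc (a * x⁻¹) ^ 2 = (a * x⁻¹ * a) * x⁻¹ := by rw [sq]; group
      _ = (b * x⁻¹ * b) * x⁻¹ := by rw [hab]
      _ = (b * x⁻¹) ^ 2 := by rw [sq]; group
  have := sq_inj h this
  simpa using this

/-- For every finite group of odd order, every r > 1 and every r-coloring, some one-colored set A with A = gA⁻¹g for some g has more than ∣G∣/r² elements. -/
theorem result :
    ∀ (G : Type) [Group G] [Fintype G], Odd (Fintype.card G) →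
      ∀ r : ℕ, 1 < r → ∀ χ : G → Fin r,
        ∃ (A : Finset G) (g : G) (c : Fin r),
          (∀ a ∈ A, χ a = c) ∧
          (∀ x : G, x ∈ A ↔ g * x⁻¹ * g ∈ A) ∧
          (1 : ℝ) / ((r : ℝ) ^ 2) < (A.card : ℝ) / (Fintype.card G : ℝ) := by
  intro G _ _ hodd r hr χ
  classical
  by_contra hcon
  push Not at hcon
  set n := Fintype.card G with hn
  have hnpos : 0 < n := Fintype.card_pos
  let S : G → Fin r → Finset G := fun g c => univ.filter (fun x => χ x = c ∧ χ (g * x⁻¹ * g) = c)
  let A : Fin r → Finset G := fun c => univ.filter (fun x => χ x = c)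
  have hinv : ∀ g x : G, g * (g * x⁻¹ * g)⁻¹ * g = x := by intro g x; group
  have hS : ∀ g c, (S g c).card * r ^ 2 ≤ n := by
    intro g c
    have h1 := hcon (S g c) g c (by intro a ha; exact (mem_filter.1 ha).2.1) (by
      intro x
      simp only [S, mem_filter, mem_univ, true_and, hinv]
      tauto)
    have hr0 : (0 : ℝ) < (r : ℝ) ^ 2 := by positivity
    have hn0 : (0 : ℝ) < (n : ℝ) := by exact_mod_cast hnpos
    rw [div_le_div_iff₀ hn0 hr0] at h1
    have : (((S g c).card * r ^ 2 : ℕ) : ℝ) ≤ (n : ℝ) := by push_cast; linarith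
    exact_mod_cast this
  have hsum : ∀ c, ∑ g, (S g c).card = (A c).card ^ 2 := by
    intro c
    have h1 : ∀ g, (S g c).card = ∑ x ∈ A c, if χ (g * x⁻¹ * g) = c then 1 else 0 := by
      intro g
      rw [← card_filter]
      congr 1
      ext x
      simp [S, A]
    simp_rw [h1]
    rw [sum_comm]
    have h2 : ∀ x : G, (∑ g : G, if χ (g * x⁻¹ * g) = c then 1 else 0) = (A c).card := by
      intro x
      rw [(conj_bij hodd x).sum_comp (fun y => if χ y = c then 1 else 0)]
      rw [← card_filter]
    simp_rw [h2]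
    simp [sq]
  have hA : ∀ c, (A c).card * r ≤ n := by
    intro c
    have h1 : (∑ g, (S g c).card) * r ^ 2 ≤ n * n := by
      rw [sum_mul]
      calc ∑ g, (S g c).card * r ^ 2 ≤ ∑ _g : G, n := sum_le_sum (fun g _ => hS g c)
        _ = n * n := by simp [hn]
    rw [hsum] at h1
    have h2 : ((A c).card * r) ^ 2 ≤ n ^ 2 := by nlinarith
    exact (Nat.pow_le_pow_iff_left (by norm_num)).1 h2
  have hAsum : ∑ c, (A c).card = n := by
    rw [hn, ← card_univ]
    exact (card_eq_sum_card_fiberwise (f := χ) (s := univ) (t := univ) (by simp)).symm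
  have hAeq : ∀ c, (A c).card * r = n := by
    have h1 : ∑ c, (A c).card * r = ∑ _c : Fin r, n := by
      rw [← sum_mul, hAsum]; simp [mul_comm]
    intro c
    exact (sum_eq_sum_iff_of_le (fun c _ => hA c)).1 h1 c (mem_univ _)
  have hSeq : ∀ c g, (S g c).card * r ^ 2 = n := by
    intro c
    have h1 : ∑ g, (S g c).card * r ^ 2 = ∑ _g : G, n := by
      rw [← sum_mul, hsum]
      have : ∑ _g : G, n = n * n := by simp [hn]
      rw [this, ← hAeq c]; ring
    intro g
    exact (sum_eq_sum_iff_of_le (fun g _ => hS g c)).1 h1 g (mem_univ _)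
  obtain ⟨c, hc⟩ : ∃ c : Fin r, c ≠ χ 1 := by
    have : Nontrivial (Fin r) := Fin.nontrivial_iff_two_le.2 hr
    exact exists_ne _
  have heven : Even (S 1 c).card := by
    have h0 : ∑ _x ∈ S 1 c, (1 : ZMod 2) = 0 := by
      apply Finset.sum_involution (fun x _ => x⁻¹)
      · intro a _; decide
      · intro a ha _ hh
        have h2 : a ^ 2 = (1 : G) ^ 2 := by
          rw [sq]; nth_rewrite 1 [← hh]; simp
        have h3 : a = 1 := sq_inj hodd h2
        have := (mem_filter.1 ha).2.1
        rw [h3] at this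
        exact hc this.symm
      · intro a ha
        simp
      · intro a ha
        have := (mem_filter.1 ha).2
        simp only [S, mem_filter, mem_univ, true_and, inv_inv, one_mul, mul_one] at this ⊢
        exact ⟨this.2, this.1⟩
    rw [sum_const, nsmul_eq_mul, mul_one] at h0
    exact (ZMod.natCast_eq_zero_iff_even).1 h0
  have := hSeq c 1
  rw [← this] at hodd
  exact (Nat.not_even_iff_odd.2 hodd) (heven.mul_right _)

end Pool.Agent.S12093
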