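import Pool.Statements.S12102
import Pool.Agent.Lib.helper33.DomPoly

set_option autoImplicit false
open Pool Pool.MP_e5f8e2_co

namespace Pool.Agent.S12102

/-- The negation of the preceding statement: For every finite simple graph, the numbers d_i of dominating vertex sets of size i form a unimodal sequence: for some k they are non-decreasing for i ≤ k and non-increasing for i ≥ k. -/
theorem result :
    ¬ (∀ (V : Type) [Fintype V] (G : SimpleGraph V),
      ∃ k : ℕ,
        (∀ i j : ℕ, i ≤ j → j ≤ k →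
          {S : Finset V | S.card = i ∧ ∀ v : V, v ∈ S ∨ ∃ u ∈ S, G.Adj v u}.ncard ≤
          {S : Finset V | S.card = j ∧ ∀ v : V, v ∈ S ∨ ∃ u ∈ S, G.Adj v u}.ncard) ∧
        (∀ i j : ℕ, k ≤ i → i ≤ j →
          {S : Finset V | S.card = j ∧ ∀ v : V, v ∈ S ∨ ∃ u ∈ S, G.Adj v u}.ncard ≤
          {S : Finset V | S.card = i ∧ ∀ v : V, v ∈ S ∨ ∃ u ∈ S, G.Adj v u}.ncard)) := by
  intro h
  obtain ⟨n, φ, U, W, hn, h1, h2, h3, h4⟩ := Pool.Agent.Lib.helper33.DomPoly.main 500000
  obtain ⟨k, k1, k2⟩ := h _ (Pool.Agent.Lib.helper33.DomPoly.G φ)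
  have hU : 0 ≤ U := (Pool.Agent.Lib.helper33.DomPoly.d_nonneg φ _).trans h2
  have hn' : (0 : ℝ) ≤ n := Nat.cast_nonneg n
  rcases le_total (205272 * n) k with hk | hk
  · have := Finset.sum_le_card_nsmul (Finset.range (205272 * n))
      (Pool.Agent.Lib.helper33.DomPoly.d φ) U (fun i hi => by
        refine le_trans ?_ h2
        rw [← Pool.Agent.Lib.helper33.DomPoly.d_eq, ← Pool.Agent.Lib.helper33.DomPoly.d_eq]
        exact_mod_cast k1 i _ (Finset.mem_range.1 hi).le hk)
    rw [Finset.card_range, nsmul_eq_mul] at this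
    push_cast at this h1
    nlinarith [mul_nonneg hn' hU]
  · have := Finset.sum_le_card_nsmul (Finset.Ioc (205272 * n)
      (Fintype.card (Pool.Agent.Lib.helper33.DomPoly.V (643 * n) (207 * n) (407662 * n))))
      (Pool.Agent.Lib.helper33.DomPoly.d φ) U (fun i hi => by
        refine le_trans ?_ h2
        rw [← Pool.Agent.Lib.helper33.DomPoly.d_eq, ← Pool.Agent.Lib.helper33.DomPoly.d_eq]
        exact_mod_cast k2 _ i hk (Finset.mem_Ioc.1 hi).1.le)
    rw [Nat.card_Ioc, nsmul_eq_mul] at this
    have hc : ((Fintype.card (Pool.Agent.Lib.helper33.DomPoly.V (643 * n) (207 * n) (407662 * n)) -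
        205272 * n : ℕ) : ℝ) ≤ 500000 * n := by
      have : Fintype.card (Pool.Agent.Lib.helper33.DomPoly.V (643 * n) (207 * n) (407662 * n)) -
          205272 * n ≤ 500000 * n := by
        simp only [Fintype.card_sum, Fintype.card_prod, Fintype.card_fin]
        omega
      exact_mod_cast this
    have := mul_le_mul_of_nonneg_right hc hU
    push_cast at h1
    linarith

end Pool.Agent.S12102
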