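import Pool.Statements.S12106
-- import your own Pool.Agent.* helpers here

set_option autoImplicit false
open Pool Pool.MP_e67bad_co

namespace Pool.Agent.S12106

/-- Integer coefficients of the hyperplane. -/
def b : Fin 4 → ℤ := ![5, 24, 21, 15]

theorem cast_iff (x : Fin 4 → ℤ) :
    ∑ i, ((b i : ℤ) : ℝ) * (x i : ℝ) = 0 ↔ ∑ i, b i * x i = 0 := by
  rw [← Int.cast_eq_zero (α := ℝ)]
  push_cast
  rfl

theorem count : ((Fintype.piFinset fun _ : Fin 4 => Finset.Icc (-3 : ℤ) 3).filter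
    (fun x => ∑ i, b i * x i = 0)).card = 19 := by decide +kernel

theorem small : ∀ x ∈ (Fintype.piFinset fun _ : Fin 4 => Finset.Icc (-2 : ℤ) 2),
    ∑ i, b i * x i = 0 → x = 0 := by decide +kernel

/-- The negation of the preceding statement: For k≥2 and n≥1, over nonzero real a where no nonzero integer vector with entries in [-k,k] satisfies a·x=0, the max number of integer x with entries in [-(k+1),k+1] and a·x=0 is ((1+√2)^n+(1-√2)^n)/2. -/
theorem result :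
    ¬ (∀ k : ℕ, 2 ≤ k → ∀ n : ℕ, 1 ≤ n →
      (∃ a : Fin n → ℝ, a ≠ 0 ∧
          (∀ x : Fin n → ℤ, (∀ i, |x i| ≤ (k : ℤ)) →
              ∑ i, a i * (x i : ℝ) = 0 → x = 0) ∧
          (((Fintype.piFinset fun _ : Fin n => Finset.Icc (-((k : ℤ) + 1)) ((k : ℤ) + 1)).filter
              (fun x => ∑ i, a i * (x i : ℝ) = 0)).card : ℝ)
            = ((1 + Real.sqrt 2) ^ n + (1 - Real.sqrt 2) ^ n) / 2) ∧
      (∀ a : Fin n → ℝ, a ≠ 0 →
          (∀ x : Fin n → ℤ, (∀ i, |x i| ≤ (k : ℤ)) →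
              ∑ i, a i * (x i : ℝ) = 0 → x = 0) →
          (((Fintype.piFinset fun _ : Fin n => Finset.Icc (-((k : ℤ) + 1)) ((k : ℤ) + 1)).filter
              (fun x => ∑ i, a i * (x i : ℝ) = 0)).card : ℝ)
            ≤ ((1 + Real.sqrt 2) ^ n + (1 - Real.sqrt 2) ^ n) / 2)) := by
  intro h
  have h1 := (h 2 le_rfl 4 (by norm_num)).2 (fun i => ((b i : ℤ) : ℝ))
    (fun h0 => by
      have := congrFun h0 0
      simp [b] at this)
    (fun x hx hs => small x (Fintype.mem_piFinset.2 fun i => Finset.mem_Icc.2 (abs_le.1 (hx i)))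
      ((cast_iff x).1 hs))
  have h2 : ((Fintype.piFinset fun _ : Fin 4 =>
      Finset.Icc (-(((2 : ℕ) : ℤ) + 1)) (((2 : ℕ) : ℤ) + 1)).filter
      (fun x => ∑ i, ((b i : ℤ) : ℝ) * (x i : ℝ) = 0)).card = 19 := by
    rw [← count]
    congr 1
    exact Finset.filter_congr fun x _ => cast_iff x
  have hs : Real.sqrt 2 ^ 2 = 2 := Real.sq_sqrt (by norm_num)
  have h3 : ((1 + Real.sqrt 2) ^ 4 + (1 - Real.sqrt 2) ^ 4) / 2 = 17 := by
    have : (1 + Real.sqrt 2) ^ 4 + (1 - Real.sqrt 2) ^ 4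
        = 2 + 12 * Real.sqrt 2 ^ 2 + 2 * (Real.sqrt 2 ^ 2) ^ 2 := by ring
    rw [this, hs]; norm_num
  rw [h3] at h1
  have h4 : ((19 : ℕ) : ℝ) ≤ 17 := by
    rw [← h2]
    convert h1
  norm_num at h4

end Pool.Agent.S12106
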