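import Pool.Statements.S12180
import Pool.Agent.Lib.helper13.BinChi

set_option autoImplicit false
open Pool Pool.MP_e962e1_co

namespace Pool.Agent.S12180

open H13Bin Polynomial

/-- 21 nonzero vectors of GF(2)^6, coded in binary -/
def cs : List ℕ :=
  [1, 2, 3, 4, 11, 15, 16, 17, 18, 19, 32, 33, 34, 35, 43, 47, 48, 49, 50, 56, 60]

def L : List (V 6) := cs.map (dec 6)

theorem g_val : g 6 30 cs 6 = some [720, -1764, 1624, -735, 175, -21, 1] := by decide +kernel

theorem L_nodup : L.Nodup := by decide +kernel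

theorem L_zero : (0 : V 6) ∉ L := by decide +kernel

theorem L_nomod : ∀ c : V 6, c ≠ 0 → ∃ a ∈ L, ∃ b ∈ L,
    a ≠ b ∧ c ⬝ᵥ a = 1 ∧ c ⬝ᵥ b = 1 ∧ a + b ∉ L := by decide +kernel

theorem span_top : Submodule.span (ZMod 2) ((L.toFinset : Finset (V 6)) : Set (V 6)) = ⊤ := by
  rw [eq_top_iff, ← (Pi.basisFun (ZMod 2) (Fin 6)).span_eq, Submodule.span_le]
  rintro _ ⟨i, rfl⟩
  have hm : ∀ x ∈ L, x ∈ Submodule.span (ZMod 2) ((L.toFinset : Finset (V 6)) : Set (V 6)) :=
    fun x hx => Submodule.subset_span (by simpa using hx)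
  have key : ∀ i : Fin 6, ∃ a ∈ L, ∃ b ∈ L, ∃ c ∈ L, (Pi.single i 1 : V 6) = a + b + c := by
    decide +kernel
  obtain ⟨a, ha, b, hb, c, hc, h⟩ := key i
  rw [Pi.basisFun_apply, SetLike.mem_coe, h]
  exact add_mem (add_mem (hm a ha) (hm b hb)) (hm c hc)

theorem fr_top : Module.finrank (ZMod 2) (V 6) = 6 := by simp

/-- The negation of the preceding statement: For any finite set S of nonzero vectors over GF(2), if its matroid's characteristic polynomial equals (x−1)(x−2)⋯(x−n), then there is a maximal chain of flats of ranks 0,1,…,n, each modular, ending at span S; that is, the matroid is supersolvable. -/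
theorem result :
    ¬ (∀ (m : ℕ) (S : Finset (Fin m → ZMod 2)), (0 : Fin m → ZMod 2) ∉ S →
    ∀ n : ℕ,
      (∑ X ∈ S.powerset, (-1 : Polynomial ℤ) ^ X.card *
          Polynomial.X ^ (Module.finrank (ZMod 2)
              ↥(Submodule.span (ZMod 2) (S : Set (Fin m → ZMod 2))) -
            Module.finrank (ZMod 2)
              ↥(Submodule.span (ZMod 2) (X : Set (Fin m → ZMod 2)))))
        = ∏ i ∈ Finset.range n, (Polynomial.X - Polynomial.C ((i : ℤ) + 1)) →
      ∃ W : ℕ → Submodule (ZMod 2) (Fin m → ZMod 2),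
        (∀ i, i ≤ n → Module.finrank (ZMod 2) ↥(W i) = i) ∧
        (∀ i, i < n → W i ≤ W (i + 1)) ∧
        W n = Submodule.span (ZMod 2) (S : Set (Fin m → ZMod 2)) ∧
        (∀ i, i ≤ n →
          Submodule.span (ZMod 2)
            ((S : Set (Fin m → ZMod 2)) ∩ (W i : Set (Fin m → ZMod 2))) = W i) ∧
        (∀ i, i ≤ n → ∀ U : Submodule (ZMod 2) (Fin m → ZMod 2),
          Submodule.span (ZMod 2)
            ((S : Set (Fin m → ZMod 2)) ∩ (U : Set (Fin m → ZMod 2))) = U →
          Module.finrank (ZMod 2) ↥(W i) + Module.finrank (ZMod 2) ↥U =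
            Module.finrank (ZMod 2) ↥(W i ⊔ U) +
            Module.finrank (ZMod 2)
              ↥(Submodule.span (ZMod 2)
                ((S : Set (Fin m → ZMod 2)) ∩ (W i : Set (Fin m → ZMod 2)) ∩
                  (U : Set (Fin m → ZMod 2)))))) := by
  intro H
  have hfr : Module.finrank (ZMod 2)
      ↥(Submodule.span (ZMod 2) ((L.toFinset : Finset (V 6)) : Set (V 6))) = 6 := by
    rw [span_top, finrank_top, fr_top]
  obtain ⟨W, h1, -, -, -, h5⟩ := H 6 L.toFinset (by simpa using L_zero) 6 (by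
    rw [hfr, chi_eq L L_nodup 6]
    rw [L, g_spec 6 30 cs 6 _ g_val]
    simp only [toP, Finset.prod_range_succ, Finset.prod_range_zero]
    norm_num
    ring)
  have hW : Module.finrank (ZMod 2) ↥(W 5) = 5 := h1 5 (by norm_num)
  have hlt : W 5 < ⊤ := by
    rw [lt_top_iff_ne_top]; intro h; rw [h, finrank_top, fr_top] at hW; omega
  obtain ⟨f, hf0, hf⟩ := Submodule.exists_le_ker_of_lt_top _ hlt
  have hker : Module.finrank (ZMod 2) ↥(LinearMap.ker f) = 5 := by
    have e1 := LinearMap.finrank_range_add_finrank_ker f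
    have e2 : LinearMap.range f = ⊤ := by
      obtain ⟨x, hx⟩ : ∃ x, f x ≠ 0 := by
        by_contra hc; push Not at hc; exact hf0 (LinearMap.ext hc)
      rw [eq_top_iff]; intro y _
      refine ⟨(y * (f x)⁻¹) • x, ?_⟩
      rw [map_smul, smul_eq_mul, mul_assoc, inv_mul_cancel₀ hx, mul_one]
    rw [e2, finrank_top, Module.finrank_self, fr_top] at e1
    omega
  have hWk : W 5 = LinearMap.ker f := Submodule.eq_of_le_of_finrank_eq hf (by rw [hW, hker])
  set c : V 6 := fun i => f (Pi.single i 1) with hc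
  have hfc : ∀ x : V 6, f x = c ⬝ᵥ x := by
    intro x
    conv_lhs => rw [pi_eq_sum_univ' x]
    rw [map_sum]
    simp only [map_smul, smul_eq_mul, dotProduct, hc]
    exact Finset.sum_congr rfl (fun i _ => mul_comm _ _)
  have hc0 : c ≠ 0 := by
    intro h0; apply hf0; apply LinearMap.ext; intro x; rw [hfc, h0]; simp
  obtain ⟨a, ha, b, hb, hab, hca, hcb, hn⟩ := L_nomod c hc0
  set U := Submodule.span (ZMod 2) ({a, b} : Set (V 6)) with hU
  have haU : a ∈ U := Submodule.subset_span (by simp)
  have hbU : b ∈ U := Submodule.subset_span (by simp)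
  have h6 := h5 5 (by norm_num) U (by
    apply le_antisymm
    · rw [Submodule.span_le]; exact Set.inter_subset_right
    · rw [hU]; apply Submodule.span_mono
      rintro x (rfl | rfl)
      · exact ⟨by simpa using ha, haU⟩
      · exact ⟨by simpa using hb, hbU⟩)
  have hemp : ((L.toFinset : Finset (V 6)) : Set (V 6)) ∩ (W 5 : Set (V 6)) ∩ (U : Set (V 6)) = ∅ := by
    rw [Set.eq_empty_iff_forall_notMem]
    rintro x ⟨⟨hxL, hxW⟩, hxU⟩
    have hxL' : x ∈ L := by simpa using hxL
    obtain ⟨r, s, rfl⟩ := Submodule.mem_span_pair.mp hxU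
    have hz : f (r • a + s • b) = 0 := by rw [hWk] at hxW; exact hxW
    rw [map_add, map_smul, map_smul, hfc, hfc, hca, hcb] at hz
    rcases two_cases r with rfl | rfl <;> rcases two_cases s with rfl | rfl
    · apply L_zero; simpa using hxL'
    · revert hz; decide
    · revert hz; decide
    · apply hn; simpa using hxL'
  rw [hemp, Submodule.span_empty, finrank_bot] at h6
  have h7 := Submodule.finrank_sup_add_finrank_inf_eq (W 5) U
  have h8 : W 5 ⊓ U = ⊥ := Submodule.finrank_eq_zero.mp (by omega)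
  have h9 : a + b ∈ W 5 ⊓ U := by
    refine ⟨?_, add_mem haU hbU⟩
    rw [hWk]
    show f (a + b) = 0
    rw [map_add, hfc, hfc, hca, hcb]; decide
  rw [h8, Submodule.mem_bot] at h9
  apply hab
  calc a = a + (b + b) := by rw [add_self', add_zero]
    _ = (a + b) + b := by abel
    _ = b := by rw [h9, zero_add]

end Pool.Agent.S12180
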