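import Pool.Statements.S12226

set_option autoImplicit false
open Classical
open Pool Pool.MP_eb5675_co

namespace Pool.Agent.S12226

/-- Weights on the complete graph with six vertices: 1 on the four edges 0w with w not 1,
and 5 on every other edge. -/
noncomputable def xw (e : Sym2 (Fin 6)) : ℝ := if (0 ∈ e ∧ 1 ∉ e) then 1 else 5

theorem sum_edges {inst : Fintype (⊤ : SimpleGraph (Fin 6)).edgeSet} (f : Sym2 (Fin 6) → ℝ) :
    ∑ e ∈ (⊤ : SimpleGraph (Fin 6)).edgeFinset, f e =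
      f s(0,1) + f s(0,2) + f s(0,3) + f s(0,4) + f s(0,5) + f s(1,2) + f s(1,3) + f s(1,4)
       + f s(1,5) + f s(2,3) + f s(2,4) + f s(2,5) + f s(3,4) + f s(3,5) + f s(4,5) := by
  have h : (⊤ : SimpleGraph (Fin 6)).edgeFinset =
      ([s(0,1), s(0,2), s(0,3), s(0,4), s(0,5), s(1,2), s(1,3), s(1,4), s(1,5), s(2,3), s(2,4),
        s(2,5), s(3,4), s(3,5), s(4,5)] : List (Sym2 (Fin 6))).toFinset := by
    ext e
    induction e using Sym2.ind with
    | h a b =>
      simp only [SimpleGraph.mem_edgeFinset, SimpleGraph.mem_edgeSet, SimpleGraph.top_adj,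
        List.mem_toFinset]
      revert a b
      decide
  rw [h, List.sum_toFinset _ (by decide)]
  simp only [List.map_cons, List.map_nil, List.sum_cons, List.sum_nil]
  ring

theorem term_eq (V' : Finset (Fin 6)) (H : SimpleGraph (Fin 6))
    (hV : ∀ u v, H.Adj u v → u ∈ V' ∧ v ∈ V') (i j : Fin 6)
    [Decidable (s(i,j) ∈ H.edgeSet)] [Decidable (∀ v ∈ s(i,j), v ∈ V')]
    [Decidable (∃ v ∈ s(i,j), v ∈ V')] :
    (if s(i,j) ∈ H.edgeSet then (-1 : ℝ)
              else if (∀ v ∈ s(i,j), v ∈ V') then 2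
              else if (∃ v ∈ s(i,j), v ∈ V') then 1 / 2
              else 0) =
      ((if i ∈ V' then (1:ℝ) else 0) + (if j ∈ V' then (1:ℝ) else 0)) / 2
        + (if i ∈ V' then (1:ℝ) else 0) * (if j ∈ V' then (1:ℝ) else 0)
        - 3 * (((if H.Adj i j then 1 else 0 : ℕ)) : ℝ) := by
  by_cases h : H.Adj i j
  · obtain ⟨hi, hj⟩ := hV i j h
    simp [h, hi, hj]
    norm_num
  · by_cases hi : i ∈ V' <;> by_cases hj : j ∈ V' <;> simp [h, hi, hj] <;> norm_num

theorem tri (H : SimpleGraph (Fin 6)) (hH : H.CliqueFree 3) (i j k : Fin 6) :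
    (if H.Adj i j then 1 else 0 : ℕ) + (if H.Adj i k then 1 else 0 : ℕ)
      + (if H.Adj j k then 1 else 0 : ℕ) ≤ 2 := by
  by_cases h1 : H.Adj i j <;> by_cases h2 : H.Adj i k <;> by_cases h3 : H.Adj j k <;>
    simp [h1, h2, h3]
  exact hH {i, j, k} (SimpleGraph.is3Clique_triple_iff.mpr ⟨h1, h2, h3⟩)

theorem edge_le (V' : Finset (Fin 6)) (H : SimpleGraph (Fin 6))
    (hV : ∀ u v, H.Adj u v → u ∈ V' ∧ v ∈ V') (i j : Fin 6) :
    (((if H.Adj i j then 1 else 0 : ℕ)) : ℝ) ≤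
      (if i ∈ V' then (1:ℝ) else 0) * (if j ∈ V' then (1:ℝ) else 0) := by
  by_cases h : H.Adj i j
  · obtain ⟨hi, hj⟩ := hV i j h
    simp [h, hi, hj]
  · by_cases hi : i ∈ V' <;> by_cases hj : j ∈ V' <;> simp [h, hi, hj]

theorem key (b0 b1 b2 b3 b4 b5 : ℝ) (a01 a02 a03 a04 a05 a12 a13 a14 a15 a23 a24 a25 a34 a35 a45 : ℝ)
    (h0 : b0 = 0 ∨ b0 = 1)
    (h1 : b1 = 0 ∨ b1 = 1)
    (h2 : b2 = 0 ∨ b2 = 1)
    (h3 : b3 = 0 ∨ b3 = 1)
    (h4 : b4 = 0 ∨ b4 = 1)
    (h5 : b5 = 0 ∨ b5 = 1)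
    (e01 : a01 ≤ b0 * b1)
    (e02 : a02 ≤ b0 * b2)
    (e03 : a03 ≤ b0 * b3)
    (e04 : a04 ≤ b0 * b4)
    (e05 : a05 ≤ b0 * b5)
    (e12 : a12 ≤ b1 * b2)
    (e13 : a13 ≤ b1 * b3)
    (e14 : a14 ≤ b1 * b4)
    (e15 : a15 ≤ b1 * b5)
    (e23 : a23 ≤ b2 * b3)
    (e24 : a24 ≤ b2 * b4)
    (e25 : a25 ≤ b2 * b5)
    (e34 : a34 ≤ b3 * b4)
    (e35 : a35 ≤ b3 * b5)
    (e45 : a45 ≤ b4 * b5)
    (r123 : a12 + a13 + a23 ≤ 2)
    (r124 : a12 + a14 + a24 ≤ 2)
    (r125 : a12 + a15 + a25 ≤ 2)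
    (r134 : a13 + a14 + a34 ≤ 2)
    (r135 : a13 + a15 + a35 ≤ 2)
    (r145 : a14 + a15 + a45 ≤ 2)
    (r234 : a23 + a24 + a34 ≤ 2)
    (r235 : a23 + a25 + a35 ≤ 2)
    (r245 : a24 + a25 + a45 ≤ 2)
    (r345 : a34 + a35 + a45 ≤ 2)
    (h6 : a12 + a13 + a14 + a15 + a23 + a24 + a25 + a34 + a35 + a45 ≤ 6) :
    0 ≤ ((b0 + b1) / 2 + b0 * b1 - 3 * a01) * 5 +
      ((b0 + b2) / 2 + b0 * b2 - 3 * a02) * 1 +
      ((b0 + b3) / 2 + b0 * b3 - 3 * a03) * 1 +
      ((b0 + b4) / 2 + b0 * b4 - 3 * a04) * 1 +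
      ((b0 + b5) / 2 + b0 * b5 - 3 * a05) * 1 +
      ((b1 + b2) / 2 + b1 * b2 - 3 * a12) * 5 +
      ((b1 + b3) / 2 + b1 * b3 - 3 * a13) * 5 +
      ((b1 + b4) / 2 + b1 * b4 - 3 * a14) * 5 +
      ((b1 + b5) / 2 + b1 * b5 - 3 * a15) * 5 +
      ((b2 + b3) / 2 + b2 * b3 - 3 * a23) * 5 +
      ((b2 + b4) / 2 + b2 * b4 - 3 * a24) * 5 +
      ((b2 + b5) / 2 + b2 * b5 - 3 * a25) * 5 +
      ((b3 + b4) / 2 + b3 * b4 - 3 * a34) * 5 +
      ((b3 + b5) / 2 + b3 * b5 - 3 * a35) * 5 +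
      ((b4 + b5) / 2 + b4 * b5 - 3 * a45) * 5 := by
  rcases h0 with rfl | rfl <;> rcases h1 with rfl | rfl <;> rcases h2 with rfl | rfl <;>
    rcases h3 with rfl | rfl <;> rcases h4 with rfl | rfl <;> rcases h5 with rfl | rfl <;>
    linarith

theorem ind01 (p : Prop) [Decidable p] : (if p then (1:ℝ) else 0) = 0 ∨ (if p then (1:ℝ) else 0) = 1 := by
  by_cases h : p <;> simp [h]

/-- The negation of the preceding statement: For every finite graph G and real edge vector x: x is a nonnegative combination of triangle edge-indicator vectors iff the sum of v_H(e)·x(e) is at least 0 for every triangle-free subgraph H, with v_H equal to -1 on H-edges, 2 inside V', 1/2 on edges with exactly one end in V', 0 otherwise. -/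
theorem result :
    ¬ (∀ (V : Type) [Fintype V] (G : SimpleGraph V) (x : Sym2 V → ℝ),
      (∃ c : Finset V → ℝ, (∀ t, 0 ≤ c t) ∧
          ∀ e ∈ G.edgeFinset,
            x e = ∑ t ∈ G.cliqueFinset 3, (if (∀ v ∈ e, v ∈ t) then c t else 0)) ↔
      (∀ (V' : Finset V) (H : SimpleGraph V), H ≤ G →
          (∀ u v, H.Adj u v → u ∈ V' ∧ v ∈ V') → H.CliqueFree 3 →
          0 ≤ ∑ e ∈ G.edgeFinset,
            (if e ∈ H.edgeSet then (-1 : ℝ)
              else if (∀ v ∈ e, v ∈ V') then 2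
              else if (∃ v ∈ e, v ∈ V') then 1 / 2
              else 0) * x e)) := by
  intro h
  obtain ⟨c, hc, hx⟩ := (h (Fin 6) ⊤ xw).mpr (by
    intro V' H _ hV hH
    rw [sum_edges]
    simp only [term_eq V' H hV]
    have x01 : xw s(0,1) = 5 := by simp [xw]
    have x02 : xw s(0,2) = 1 := by simp [xw]
    have x03 : xw s(0,3) = 1 := by simp [xw]
    have x04 : xw s(0,4) = 1 := by simp [xw]
    have x05 : xw s(0,5) = 1 := by simp [xw]
    have x12 : xw s(1,2) = 5 := by simp [xw]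
    have x13 : xw s(1,3) = 5 := by simp [xw]
    have x14 : xw s(1,4) = 5 := by simp [xw]
    have x15 : xw s(1,5) = 5 := by simp [xw]
    have x23 : xw s(2,3) = 5 := by simp [xw]
    have x24 : xw s(2,4) = 5 := by simp [xw]
    have x25 : xw s(2,5) = 5 := by simp [xw]
    have x34 : xw s(3,4) = 5 := by simp [xw]
    have x35 : xw s(3,5) = 5 := by simp [xw]
    have x45 : xw s(4,5) = 5 := by simp [xw]
    rw [x01, x02, x03, x04, x05, x12, x13, x14, x15, x23, x24, x25, x34, x35, x45]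
    have t123 := tri H hH 1 2 3
    have t124 := tri H hH 1 2 4
    have t125 := tri H hH 1 2 5
    have t134 := tri H hH 1 3 4
    have t135 := tri H hH 1 3 5
    have t145 := tri H hH 1 4 5
    have t234 := tri H hH 2 3 4
    have t235 := tri H hH 2 3 5
    have t245 := tri H hH 2 4 5
    have t345 := tri H hH 3 4 5
    have e01 := edge_le V' H hV 0 1
    have e02 := edge_le V' H hV 0 2
    have e03 := edge_le V' H hV 0 3
    have e04 := edge_le V' H hV 0 4
    have e05 := edge_le V' H hV 0 5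
    have e12 := edge_le V' H hV 1 2
    have e13 := edge_le V' H hV 1 3
    have e14 := edge_le V' H hV 1 4
    have e15 := edge_le V' H hV 1 5
    have e23 := edge_le V' H hV 2 3
    have e24 := edge_le V' H hV 2 4
    have e25 := edge_le V' H hV 2 5
    have e34 := edge_le V' H hV 3 4
    have e35 := edge_le V' H hV 3 5
    have e45 := edge_le V' H hV 4 5
    generalize (if H.Adj 0 1 then 1 else 0 : ℕ) = a01 at *
    generalize (if H.Adj 0 2 then 1 else 0 : ℕ) = a02 at *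
    generalize (if H.Adj 0 3 then 1 else 0 : ℕ) = a03 at *
    generalize (if H.Adj 0 4 then 1 else 0 : ℕ) = a04 at *
    generalize (if H.Adj 0 5 then 1 else 0 : ℕ) = a05 at *
    generalize (if H.Adj 1 2 then 1 else 0 : ℕ) = a12 at *
    generalize (if H.Adj 1 3 then 1 else 0 : ℕ) = a13 at *
    generalize (if H.Adj 1 4 then 1 else 0 : ℕ) = a14 at *
    generalize (if H.Adj 1 5 then 1 else 0 : ℕ) = a15 at *
    generalize (if H.Adj 2 3 then 1 else 0 : ℕ) = a23 at *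
    generalize (if H.Adj 2 4 then 1 else 0 : ℕ) = a24 at *
    generalize (if H.Adj 2 5 then 1 else 0 : ℕ) = a25 at *
    generalize (if H.Adj 3 4 then 1 else 0 : ℕ) = a34 at *
    generalize (if H.Adj 3 5 then 1 else 0 : ℕ) = a35 at *
    generalize (if H.Adj 4 5 then 1 else 0 : ℕ) = a45 at *
    have h20 : 3 * (a12 + a13 + a14 + a15 + a23 + a24 + a25 + a34 + a35 + a45) ≤ 20 := by
      linarith
    have h6 : a12 + a13 + a14 + a15 + a23 + a24 + a25 + a34 + a35 + a45 ≤ 6 := by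
      generalize a12 + a13 + a14 + a15 + a23 + a24 + a25 + a34 + a35 + a45 = s at h20
      omega
    have h6' : (a12 : ℝ) + a13 + a14 + a15 + a23 + a24 + a25 + a34 + a35 + a45 ≤ 6 := by
      exact_mod_cast h6
    have r123 : (a12 : ℝ) + a13 + a23 ≤ 2 := by exact_mod_cast t123
    have r124 : (a12 : ℝ) + a14 + a24 ≤ 2 := by exact_mod_cast t124
    have r125 : (a12 : ℝ) + a15 + a25 ≤ 2 := by exact_mod_cast t125
    have r134 : (a13 : ℝ) + a14 + a34 ≤ 2 := by exact_mod_cast t134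
    have r135 : (a13 : ℝ) + a15 + a35 ≤ 2 := by exact_mod_cast t135
    have r145 : (a14 : ℝ) + a15 + a45 ≤ 2 := by exact_mod_cast t145
    have r234 : (a23 : ℝ) + a24 + a34 ≤ 2 := by exact_mod_cast t234
    have r235 : (a23 : ℝ) + a25 + a35 ≤ 2 := by exact_mod_cast t235
    have r245 : (a24 : ℝ) + a25 + a45 ≤ 2 := by exact_mod_cast t245
    have r345 : (a34 : ℝ) + a35 + a45 ≤ 2 := by exact_mod_cast t345
    exact key _ _ _ _ _ _ _ _ _ _ _ _ _ _ _ _ _ _ _ _ _ (ind01 _) (ind01 _) (ind01 _) (ind01 _) (ind01 _) (ind01 _)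
      e01 e02 e03 e04 e05 e12 e13 e14 e15 e23 e24 e25 e34 e35 e45
      r123 r124 r125 r134 r135 r145 r234 r235 r245 r345 h6')
  obtain ⟨S, hcard, hm⟩ : ∃ S : Finset (Finset (Fin 6)), (∀ t ∈ S, t.card = 3) ∧
      ∀ a b : Fin 6, a ≠ b → xw s(a, b) = ∑ t ∈ S, (if (a ∈ t ∧ b ∈ t) then c t else 0) := by
    refine ⟨_, ?_, fun a b hab => (hx s(a, b) (by simpa using hab)).trans
      (Finset.sum_congr rfl ?_)⟩
    · intro t ht
      exact ((@SimpleGraph.mem_cliqueFinset_iff _ _ _ (_) (_) _ _).mp ht).card_eq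
    · intro t _
      simp
  have h01 := hm 0 1 (by decide)
  have h02 := hm 0 2 (by decide)
  have h03 := hm 0 3 (by decide)
  have h04 := hm 0 4 (by decide)
  have h05 := hm 0 5 (by decide)
  have hle : ∑ t ∈ S, (if (0 ∈ t ∧ 1 ∈ t) then c t else 0) ≤
      ∑ t ∈ S, ((if (0 ∈ t ∧ 2 ∈ t) then c t else 0) +
        (if (0 ∈ t ∧ 3 ∈ t) then c t else 0) + (if (0 ∈ t ∧ 4 ∈ t) then c t else 0) +
        (if (0 ∈ t ∧ 5 ∈ t) then c t else 0)) := by
    apply Finset.sum_le_sum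
    intro t ht
    have hct := hc t
    by_cases h0 : (0 : Fin 6) ∈ t <;> by_cases h1 : (1 : Fin 6) ∈ t <;>
      by_cases h2 : (2 : Fin 6) ∈ t <;> by_cases h3 : (3 : Fin 6) ∈ t <;>
      by_cases h4 : (4 : Fin 6) ∈ t <;> by_cases h5 : (5 : Fin 6) ∈ t <;>
      simp only [h0, h1, h2, h3, h4, h5, and_true, and_false, if_true, if_false] <;>
      first
        | linarith
        | (exfalso
           have hsub : t ⊆ {0, 1} := by
             intro v hv
             fin_cases v <;> simp_all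
           have := Finset.card_le_card hsub
           rw [hcard t ht] at this
           revert this
           decide)
  rw [Finset.sum_add_distrib, Finset.sum_add_distrib, Finset.sum_add_distrib,
    ← h01, ← h02, ← h03, ← h04, ← h05] at hle
  simp [xw] at hle
  norm_num at hle

end Pool.Agent.S12226
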