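import Pool.Statements.S12266
import Pool.Agent.Lib.helper2.IRPath

set_option autoImplicit false
open Pool Pool.MP_ed2cb0_co

namespace Pool.Agent.S12266

open Pool.Agent.Lib.helper2.IRPath


/-- The negation of the preceding statement: Every finite connected claw-free graph isomorphic to the slide IR-graph of some finite graph G is isomorphic to a complete graph or to K_m □ K_k with m, k ≥ 2. -/
theorem result :
    ¬ (∀ (n : ℕ) (H : SimpleGraph (Fin n)), H.Connected →
    (∀ a b c d : Fin n, H.Adj a b → H.Adj a c → H.Adj a d → b ≠ c → b ≠ d → c ≠ d →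
        H.Adj b c ∨ H.Adj b d ∨ H.Adj c d) →
    (∃ (p : ℕ) (G : SimpleGraph (Fin p)),
      Nonempty (H ≃g SimpleGraph.fromRel
        (fun (D E : {D : Finset (Fin p) //
            (∀ v ∈ D, ∃ w : Fin p, (w = v ∨ G.Adj v w) ∧
                ∀ u ∈ D, u ≠ v → ¬ (w = u ∨ G.Adj u w)) ∧
            ∀ F : Finset (Fin p),
              (∀ v ∈ F, ∃ w : Fin p, (w = v ∨ G.Adj v w) ∧
                  ∀ u ∈ F, u ≠ v → ¬ (w = u ∨ G.Adj u w)) →
              F.card ≤ D.card}) =>
          ∃ u v : Fin p, D.1 \ E.1 = {u} ∧ E.1 \ D.1 = {v} ∧ G.Adj u v))) →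
    (∃ k : ℕ, Nonempty (H ≃g (⊤ : SimpleGraph (Fin k)))) ∨
    (∃ m k : ℕ, 2 ≤ m ∧ 2 ≤ k ∧
      Nonempty (H ≃g SimpleGraph.boxProd (⊤ : SimpleGraph (Fin m)) (⊤ : SimpleGraph (Fin k))))) := by
  intro h
  have := h 7 (SimpleGraph.pathGraph 7) (SimpleGraph.pathGraph_connected 6)
    (by simp only [SimpleGraph.pathGraph_adj]; decide +kernel)
    ⟨9, G, iso_of (SimpleGraph.pathGraph 7) (fun S => P S ∧ ∀ T, P T → T.card ≤ S.card)
      (fun D E => ∃ u v, D \ E = {u} ∧ E \ D = {v} ∧ G.Adj u v) f hf hQ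
      (fun i j => by rw [SimpleGraph.pathGraph_adj]; exact r2 i j)⟩
  rcases this with ⟨k, ⟨e⟩⟩ | ⟨m, k, hm, hk, ⟨e⟩⟩
  · have := (e.map_rel_iff (a := 0) (b := 2)).1 (e.injective.ne (by decide))
    simp [SimpleGraph.pathGraph_adj] at this
  · have := Fintype.card_congr e.toEquiv
    simp only [Fintype.card_fin, Fintype.card_prod] at this
    have h7 : Nat.Prime (m * k) := this ▸ (by norm_num)
    exact Nat.not_prime_mul (by omega) (by omega) h7

end Pool.Agent.S12266
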