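import Pool.Statements.S12278
import Pool.Agent.Lib.helper30.Sig

set_option autoImplicit false
open Pool Pool.MP_ee26cf_co

namespace Pool.Agent.S12278

/-- The negation of the preceding statement: For every finite graph, let b_j count partitions of the vertex set into j nonempty independent sets (its coefficients in the complete-graph basis); then b_j·b_{j+2} < b_{j+1}^2 whenever b_{j+1} > 0. -/
theorem result :
    ¬ (∀ (V : Type) [Fintype V] [DecidableEq V] (G : SimpleGraph V) (b : ℕ → ℕ),
      (∀ j : ℕ, b j =
        {P : Finpartition (Finset.univ : Finset V) |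
          P.parts.card = j ∧ ∀ s ∈ P.parts, G.IsIndepSet (↑s : Set V)}.ncard) →
      ∀ j : ℕ, 0 < b (j + 1) → b j * b (j + 2) < b (j + 1) ^ 2) := by
  intro h
  have := h (Pool.Agent.Lib.Helper30.Sig.V 37) (Pool.Agent.Lib.Helper30.Sig.G 37)
    (fun j => (Pool.Agent.Lib.Helper30.Sig.B 37 j).ncard) (fun _ => rfl) 112
    Pool.Agent.Lib.Helper30.Sig.main.1
  exact Pool.Agent.Lib.Helper30.Sig.main.2 this

end Pool.Agent.S12278
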