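import Pool.Statements.S12318

set_option autoImplicit false
open MeasureTheory
open Pool Pool.MP_f0067e_co

namespace Pool.Agent.S12318

/-- Longest alternating sign runs stay at most 6. -/
def OK (a b : ℕ → ℝ) : ℕ → ℕ → ℕ → ℕ → Prop
  | 0, _, _, _ => True
  | n + 1, j, p, q =>
      (0 < a j → q + 1 ≤ 6) ∧ (0 < b j → p + 1 ≤ 6) ∧
      OK a b n (j + 1) (if 0 < a j then max p (q + 1) else p) (if 0 < b j then max q (p + 1) else q)

def ty (i : ℕ) : ℕ := [3, 4, 1, 4, 3, 2, 1, 0, 1, 2, 3].getD i 0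
def ms (i : ℕ) : ℕ := [19, 26, 32, 34, 27, 22, 12, 60, 16, 38, 14].getD i 0
def bad (i : ℕ) : ℕ := [0, 0, 18, 30, 16, 22, 12, 30, 0, 8, 14].getD i 0

def Pat (a b : ℕ → ℝ) : List ℕ → Prop
  | [] => True
  | s :: l => (s = 0 → b l.length = 0) ∧ (s = 1 → a l.length = 0) ∧ Pat a b l

def upd (r : ℕ → ℕ) (t m : ℕ) : ℕ → ℕ := fun k => if k = t then r k - m else r k

def chk (x : ℕ → ℕ) (leaf : List ℕ → Bool) :
    ℕ → ℕ → ℕ → ℕ → (ℕ → ℕ) → (ℕ → ℕ) → List ℕ → Bool
  | 0, _, _, _, _, _, acc => leaf acc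
  | n + 1, j, p, q, ra, rb, acc =>
      if x j = 0 then chk x leaf n (j + 1) p q ra rb (2 :: acc) else
      (if q + 1 ≤ 6 ∧ x j ≤ ra (ty j) then
          chk x leaf n (j + 1) (max p (q + 1)) q (upd ra (ty j) (x j)) rb (0 :: acc) else true) &&
      (if p + 1 ≤ 6 ∧ x j ≤ rb (ty j) then
          chk x leaf n (j + 1) p (max q (p + 1)) ra (upd rb (ty j) (x j)) (1 :: acc) else true) &&
      (if q + 1 ≤ 6 ∧ p + 1 ≤ 6 then
          chk x leaf n (j + 1) (max p (q + 1)) (max q (p + 1)) ra rb (2 :: acc) else true)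

noncomputable def suf (a : ℕ → ℝ) (k : ℕ) : ℕ → ℕ → ℝ
  | 0, _ => 0
  | n + 1, j => (if ty j = k then a j else 0) + suf a k n (j + 1)

lemma suf_nonneg (a : ℕ → ℝ) (ha : ∀ i, 0 ≤ a i) (k : ℕ) : ∀ n j, 0 ≤ suf a k n j := by
  intro n
  induction n with
  | zero => intro j; simp [suf]
  | succ n ih =>
    intro j
    have := ih (j + 1)
    have h2 := ha j
    simp only [suf]
    split_ifs <;> linarith

lemma suf_tail (a : ℕ → ℝ) (ha : ∀ i, 0 ≤ a i) (r : ℕ → ℕ) (n j : ℕ)
    (h : ∀ k, suf a k (n + 1) j ≤ r k) : ∀ k, suf a k n (j + 1) ≤ r k := by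
  intro k
  have h1 := h k
  have h2 := ha j
  simp only [suf] at h1
  split_ifs at h1 <;> linarith

lemma suf_upd (a : ℕ → ℝ) (ha : ∀ i, 0 ≤ a i) (r : ℕ → ℕ) (n j m : ℕ) (hm : a j = m)
    (h : ∀ k, suf a k (n + 1) j ≤ r k) :
    m ≤ r (ty j) ∧ ∀ k, suf a k n (j + 1) ≤ upd r (ty j) m k := by
  have h0 : m ≤ r (ty j) := by
    have h1 := h (ty j)
    have h2 := suf_nonneg a ha (ty j) n (j + 1)
    simp only [suf, if_true] at h1
    have : (m : ℝ) ≤ r (ty j) := by linarith
    exact_mod_cast this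
  refine ⟨h0, fun k => ?_⟩
  have h1 := h k
  simp only [suf] at h1
  unfold upd
  by_cases hk : k = ty j
  · subst hk
    rw [if_pos rfl] at h1
    rw [if_pos rfl, Nat.cast_sub h0]
    linarith
  · rw [if_neg (fun e => hk e.symm)] at h1
    rw [if_neg hk]
    linarith

lemma chk_sound (x : ℕ → ℕ) (leaf : List ℕ → Bool) (a b : ℕ → ℝ) (ha : ∀ i, 0 ≤ a i)
    (hb : ∀ i, 0 ≤ b i) (N : ℕ) (hab : ∀ i < N, a i + b i = x i) :
    ∀ n j p q ra rb acc, j + n ≤ N → acc.length = j → Pat a b acc → OK a b n j p q →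
      (∀ k, suf a k n j ≤ ra k) → (∀ k, suf b k n j ≤ rb k) →
      chk x leaf n j p q ra rb acc = true → ∃ σ, leaf σ = true ∧ Pat a b σ := by
  intro n
  induction n with
  | zero => intro j p q ra rb acc _ _ hP _ _ _ h; exact ⟨acc, h, hP⟩
  | succ n ih =>
    intro j p q ra rb acc hN hl hP hOK hA hB h
    obtain ⟨o1, o2, o3⟩ := hOK
    have e := hab j (by omega)
    have haj := ha j
    have hbj := hb j
    simp only [chk] at h
    by_cases hx : x j = 0
    · rw [if_pos hx] at h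
      rw [hx] at e
      have a0 : ¬ 0 < a j := by intro h'; push_cast at e; linarith
      have b0 : ¬ 0 < b j := by intro h'; push_cast at e; linarith
      rw [if_neg a0, if_neg b0] at o3
      exact ih (j + 1) p q ra rb (2 :: acc) (by omega) (by simp [hl]) ⟨by simp, by simp, hP⟩ o3
        (suf_tail a ha ra n j hA) (suf_tail b hb rb n j hB) h
    · rw [if_neg hx] at h
      simp only [Bool.and_eq_true] at h
      obtain ⟨⟨h1, h2⟩, h3⟩ := h
      have xpos : (0 : ℝ) < x j := by exact_mod_cast Nat.pos_of_ne_zero hx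
      by_cases b0 : 0 < b j
      · by_cases a0 : 0 < a j
        · rw [if_pos ⟨o1 a0, o2 b0⟩] at h3
          rw [if_pos a0, if_pos b0] at o3
          exact ih (j + 1) _ _ ra rb (2 :: acc) (by omega) (by simp [hl]) ⟨by simp, by simp, hP⟩ o3
            (suf_tail a ha ra n j hA) (suf_tail b hb rb n j hB) h3
        · have a1 : a j = 0 := le_antisymm (not_lt.mp a0) haj
          obtain ⟨u1, u2⟩ := suf_upd b hb rb n j (x j) (by linarith) hB
          rw [if_pos ⟨o2 b0, u1⟩] at h2
          rw [if_neg a0, if_pos b0] at o3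
          exact ih (j + 1) _ _ ra _ (1 :: acc) (by omega) (by simp [hl])
            ⟨by simp, fun _ => by rw [hl]; exact a1, hP⟩ o3 (suf_tail a ha ra n j hA) u2 h2
      · have b1 : b j = 0 := le_antisymm (not_lt.mp b0) hbj
        have a0 : 0 < a j := by linarith
        obtain ⟨u1, u2⟩ := suf_upd a ha ra n j (x j) (by linarith) hA
        rw [if_pos ⟨o1 a0, u1⟩] at h1
        rw [if_pos a0, if_neg b0] at o3
        exact ih (j + 1) _ _ _ rb (0 :: acc) (by omega) (by simp [hl])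
          ⟨fun _ => by rw [hl]; exact b1, by simp, hP⟩ o3 u2 (suf_tail b hb rb n j hB) h1

noncomputable def tot (a : ℕ → ℝ) (k : ℕ) : ℝ := suf a k 11 0

lemma tot_big (a : ℕ → ℝ) (k : ℕ) (hk : 5 ≤ k) : tot a k = 0 := by
  have h : ∀ j : ℕ, j < 5 → j ≠ k := fun j hj => by omega
  simp [tot, suf, ty, h]

def P1 (x : ℕ → ℝ) (r : ℕ) : Prop :=
  1 ≤ r ∧ (∀ i, 0 ≤ x i) ∧ ∀ k < 5, tot x k = 10 * r

def Step (Q : (ℕ → ℝ) → ℕ → Prop) (x : ℕ → ℝ) (r : ℕ) : Prop :=
  r ≠ 1 → ∃ a b s t, s + t = r ∧ (∀ i, a i + b i = x i) ∧ OK a b 11 0 0 0 ∧ Q a s ∧ Q b t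

def P2 (x : ℕ → ℝ) (r : ℕ) : Prop := P1 x r ∧ Step P1 x r
def P3 (x : ℕ → ℝ) (r : ℕ) : Prop := P2 x r ∧ Step P2 x r

lemma use_chk (x : ℕ → ℕ) (leaf : List ℕ → Bool) (a b : ℕ → ℝ) (s t : ℕ) (h1 : P1 a s) (h2 : P1 b t)
    (hab : ∀ i < 11, a i + b i = x i) (hOK : OK a b 11 0 0 0)
    (h : chk x leaf 11 0 0 0 (fun _ => 10 * s) (fun _ => 10 * t) [] = true) :
    ∃ σ, leaf σ = true ∧ Pat a b σ := by
  refine chk_sound x leaf a b h1.2.1 h2.2.1 11 hab 11 0 0 0 _ _ [] (by omega) rfl trivial hOK ?_ ?_ h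
  · intro k
    by_cases hk : k < 5
    · have := h1.2.2 k hk
      unfold tot at this
      rw [this]; push_cast; rfl
    · have := tot_big a k (by omega)
      unfold tot at this
      rw [this]; positivity
  · intro k
    by_cases hk : k < 5
    · have := h2.2.2 k hk
      unfold tot at this
      rw [this]; push_cast; rfl
    · have := tot_big b k (by omega)
      unfold tot at this
      rw [this]; positivity

lemma not_bad (x : ℕ → ℝ) (hx : ∀ i < 11, x i = bad i) : ¬ P2 x 3 := by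
  rintro ⟨_, h⟩
  obtain ⟨a, b, s, t, hst, hab, hOK, h1, h2⟩ := h (by norm_num)
  have hab' : ∀ i < 11, a i + b i = bad i := fun i hi => by rw [hab i, hx i hi]
  have s1 := h1.1
  have t1 := h2.1
  have : (s = 1 ∧ t = 2) ∨ (s = 2 ∧ t = 1) := by omega
  rcases this with ⟨rfl, rfl⟩ | ⟨rfl, rfl⟩
  · obtain ⟨σ, h, _⟩ := use_chk bad (fun _ => false) a b 1 2 h1 h2 hab' hOK (by decide +kernel)
    simp at h
  · obtain ⟨σ, h, _⟩ := use_chk bad (fun _ => false) a b 2 1 h1 h2 hab' hOK (by decide +kernel)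
    simp at h

lemma not_P3 (x : ℕ → ℝ) (hx : ∀ i < 11, x i = ms i) : ¬ P3 x 6 := by
  rintro ⟨_, h⟩
  obtain ⟨a, b, s, t, hst, hab, hOK, h1, h2⟩ := h (by norm_num)
  have hab' : ∀ i < 11, a i + b i = ms i := fun i hi => by rw [hab i, hx i hi]
  have s1 := h1.1.1
  have t1 := h2.1.1
  have : (s = 1 ∧ t = 5) ∨ (s = 2 ∧ t = 4) ∨ (s = 4 ∧ t = 2) ∨ (s = 5 ∧ t = 1) ∨ (s = 3 ∧ t = 3) := by
    omega
  rcases this with ⟨rfl, rfl⟩ | ⟨rfl, rfl⟩ | ⟨rfl, rfl⟩ | ⟨rfl, rfl⟩ | ⟨rfl, rfl⟩
  · obtain ⟨σ, h, _⟩ := use_chk ms (fun _ => false) a b 1 5 h1.1 h2.1 hab' hOK (by decide +kernel)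
    simp at h
  · obtain ⟨σ, h, _⟩ := use_chk ms (fun _ => false) a b 2 4 h1.1 h2.1 hab' hOK (by decide +kernel)
    simp at h
  · obtain ⟨σ, h, _⟩ := use_chk ms (fun _ => false) a b 4 2 h1.1 h2.1 hab' hOK (by decide +kernel)
    simp at h
  · obtain ⟨σ, h, _⟩ := use_chk ms (fun _ => false) a b 5 1 h1.1 h2.1 hab' hOK (by decide +kernel)
    simp at h
  · obtain ⟨σ, h, hP⟩ := use_chk ms
      (fun l => decide (l = [1, 2, 0, 2, 1, 1, 2, 2, 2, 0, 0] ∨ l = [0, 2, 1, 2, 0, 0, 2, 2, 2, 1, 1]))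
      a b 3 3 h1.1 h2.1 hab' hOK (by decide +kernel)
    have e0 := hab' 0 (by norm_num)
    have e1 := hab' 1 (by norm_num)
    have e2 := hab' 2 (by norm_num)
    have e3 := hab' 3 (by norm_num)
    have e4 := hab' 4 (by norm_num)
    have e5 := hab' 5 (by norm_num)
    have e6 := hab' 6 (by norm_num)
    have e7 := hab' 7 (by norm_num)
    have e8 := hab' 8 (by norm_num)
    have e9 := hab' 9 (by norm_num)
    have e10 := hab' 10 (by norm_num)
    have f0 := h1.1.2.2 0 (by norm_num)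
    have f1 := h1.1.2.2 1 (by norm_num)
    have f2 := h1.1.2.2 2 (by norm_num)
    have f3 := h1.1.2.2 3 (by norm_num)
    have f4 := h1.1.2.2 4 (by norm_num)
    simp [ms] at e0 e1 e2 e3 e4 e5 e6 e7 e8 e9 e10
    simp [tot, suf, ty] at f0 f1 f2 f3 f4
    rcases of_decide_eq_true h with rfl | rfl
    · simp [Pat] at hP
      obtain ⟨g1, g2, g3, g4, g5, g6⟩ := hP
      refine not_bad b ?_ h2
      intro i hi
      interval_cases i <;> simp [bad] <;> linarith
    · simp [Pat] at hP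
      obtain ⟨g1, g2, g3, g4, g5, g6⟩ := hP
      refine not_bad a ?_ h1
      intro i hi
      interval_cases i <;> simp [bad] <;> linarith

lemma ok_of_roots (f : ℝ → ℝ) (hf : Continuous f) (R : Finset ℝ) (hR : R.card ≤ 5)
    (hz : ∀ t, f t = 0 → t ∈ R) (a b : ℕ → ℝ)
    (ha : ∀ i, 0 < a i → ∃ t, (2 * i : ℝ) ≤ t ∧ t ≤ 2 * i + 1 ∧ f t < 0)
    (hb : ∀ i, 0 < b i → ∃ t, (2 * i : ℝ) ≤ t ∧ t ≤ 2 * i + 1 ∧ 0 < f t) :
    ∀ n j p q : ℕ,
      (p = 0 ∨ ∃ t, t < (2 * j : ℝ) ∧ f t < 0 ∧ p ≤ (R.filter (· < t)).card + 1) →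
      (q = 0 ∨ ∃ t, t < (2 * j : ℝ) ∧ 0 < f t ∧ q ≤ (R.filter (· < t)).card + 1) →
      OK a b n j p q := by
  have key : ∀ s t : ℝ, s < t → f s * f t < 0 →
      (R.filter (· < s)).card + 1 ≤ (R.filter (· < t)).card := by
    intro s t hst h
    have hz' : ∃ u, s ≤ u ∧ u < t ∧ f u = 0 := by
      have hc : ContinuousOn f (Set.Icc s t) := hf.continuousOn
      rcases lt_or_gt_of_ne (show f s ≠ 0 by intro e; rw [e] at h; simp at h) with h1 | h1
      · have h2 : 0 < f t := by nlinarith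
        obtain ⟨u, hu, e⟩ := intermediate_value_Icc hst.le hc ⟨h1.le, h2.le⟩
        refine ⟨u, hu.1, lt_of_le_of_ne hu.2 ?_, e⟩
        rintro rfl; linarith
      · have h2 : f t < 0 := by nlinarith
        obtain ⟨u, hu, e⟩ := intermediate_value_Icc' hst.le hc ⟨h2.le, h1.le⟩
        refine ⟨u, hu.1, lt_of_le_of_ne hu.2 ?_, e⟩
        rintro rfl; linarith
    obtain ⟨u, hu1, hu2, hu3⟩ := hz'
    apply Finset.card_lt_card
    refine ⟨fun x hx => ?_, fun hsub => ?_⟩
    · simp only [Finset.mem_filter] at hx ⊢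
      exact ⟨hx.1, hx.2.trans hst⟩
    · have := hsub (Finset.mem_filter.mpr ⟨hz u hu3, hu2⟩)
      simp only [Finset.mem_filter] at this
      linarith [this.2]
  have bd : ∀ t : ℝ, (R.filter (· < t)).card ≤ 5 := fun t => (Finset.card_filter_le _ _).trans hR
  intro n
  induction n with
  | zero => intro j p q _ _; trivial
  | succ n ih =>
    intro j p q hp hq
    have A : 0 < a j → ∃ t, t < (2 * ((j + 1 : ℕ) : ℝ)) ∧ f t < 0 ∧
        q + 1 ≤ (R.filter (· < t)).card + 1 := by
      intro h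
      obtain ⟨t, t1, t2, t3⟩ := ha j h
      refine ⟨t, by push_cast; linarith, t3, ?_⟩
      rcases hq with rfl | ⟨s, s1, s2, s3⟩
      · omega
      · have := key s t (by linarith) (by nlinarith)
        omega
    have B : 0 < b j → ∃ t, t < (2 * ((j + 1 : ℕ) : ℝ)) ∧ 0 < f t ∧
        p + 1 ≤ (R.filter (· < t)).card + 1 := by
      intro h
      obtain ⟨t, t1, t2, t3⟩ := hb j h
      refine ⟨t, by push_cast; linarith, t3, ?_⟩
      rcases hp with rfl | ⟨s, s1, s2, s3⟩
      · omega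
      · have := key s t (by linarith) (by nlinarith)
        omega
    have hp' : p = 0 ∨ ∃ t, t < (2 * ((j + 1 : ℕ) : ℝ)) ∧ f t < 0 ∧
        p ≤ (R.filter (· < t)).card + 1 := by
      rcases hp with h | ⟨s, s1, s2, s3⟩
      · exact Or.inl h
      · exact Or.inr ⟨s, by push_cast; linarith, s2, s3⟩
    have hq' : q = 0 ∨ ∃ t, t < (2 * ((j + 1 : ℕ) : ℝ)) ∧ 0 < f t ∧
        q ≤ (R.filter (· < t)).card + 1 := by
      rcases hq with h | ⟨s, s1, s2, s3⟩
      · exact Or.inl h
      · exact Or.inr ⟨s, by push_cast; linarith, s2, s3⟩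
    refine ⟨fun h => ?_, fun h => ?_, ih (j + 1) _ _ ?_ ?_⟩
    · obtain ⟨t, _, _, h3⟩ := A h
      have := bd t
      omega
    · obtain ⟨t, _, _, h3⟩ := B h
      have := bd t
      omega
    · split_ifs with h
      · rcases le_total p (q + 1) with h1 | h1
        · rw [max_eq_right h1]; exact Or.inr (A h)
        · rw [max_eq_left h1]; exact hp'
      · exact hp'
    · split_ifs with h
      · rcases le_total q (p + 1) with h1 | h1
        · rw [max_eq_right h1]; exact Or.inr (B h)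
        · rw [max_eq_left h1]; exact hq'
      · exact hq'

abbrev E := EuclideanSpace ℝ (Fin 5)

noncomputable def cv (t : ℝ) : E := WithLp.toLp 2 (fun k : Fin 5 => t ^ (k.val + 1))

lemma cv_cont : Continuous cv := by
  unfold cv
  fun_prop

lemma roots (v : E) (hv : v ≠ 0) (c : ℝ) :
    ∃ R : Finset ℝ, R.card ≤ 5 ∧ ∀ t, inner ℝ v (cv t) - c = 0 → t ∈ R := by
  classical
  set g : Polynomial ℝ := Polynomial.C (v 0) * Polynomial.X ^ 1 + Polynomial.C (v 1) * Polynomial.X ^ 2
    + Polynomial.C (v 2) * Polynomial.X ^ 3 + Polynomial.C (v 3) * Polynomial.X ^ 4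
    + Polynomial.C (v 4) * Polynomial.X ^ 5 - Polynomial.C c with hg
  have hd : g.natDegree ≤ 5 := by rw [hg]; compute_degree
  have hne : g ≠ 0 := by
    intro e
    apply hv
    have c1 := congrArg (fun p => Polynomial.coeff p 1) e
    have c2 := congrArg (fun p => Polynomial.coeff p 2) e
    have c3 := congrArg (fun p => Polynomial.coeff p 3) e
    have c4 := congrArg (fun p => Polynomial.coeff p 4) e
    have c5 := congrArg (fun p => Polynomial.coeff p 5) e
    simp [hg, Polynomial.coeff_X_pow, Polynomial.coeff_X, Polynomial.coeff_C] at c1 c2 c3 c4 c5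
    ext k
    fin_cases k <;> simp [*]
  refine ⟨g.roots.toFinset, (Multiset.toFinset_card_le _).trans ((Polynomial.card_roots' g).trans hd), ?_⟩
  intro t ht
  rw [Multiset.mem_toFinset, Polynomial.mem_roots hne, Polynomial.IsRoot.def, ← ht]
  simp [hg, cv, PiLp.inner_apply, Fin.sum_univ_five]
  ring

def blob (i : ℕ) : Set E := closure (convexHull ℝ (cv '' Set.Icc (2 * i : ℝ) (2 * i + 1)))

lemma blob_compact (i : ℕ) : IsCompact (blob i) :=
  (isBounded_convexHull.mpr (isCompact_Icc.image cv_cont).isBounded).isCompact_closure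

lemma blob_pos (i : ℕ) : volume (blob i) ≠ 0 := by
  have h : affineSpan ℝ (cv '' Set.Icc (2 * i : ℝ) (2 * i + 1)) = ⊤ := by
    have hne : (cv '' Set.Icc (2 * i : ℝ) (2 * i + 1)).Nonempty :=
      ⟨cv (2 * i), 2 * i, ⟨le_rfl, by linarith⟩, rfl⟩
    rw [AffineSubspace.affineSpan_eq_top_iff_vectorSpan_eq_top_of_nonempty ℝ E E hne]
    rw [← Submodule.orthogonal_eq_bot_iff, Submodule.eq_bot_iff]
    intro v hv
    by_contra hv0
    obtain ⟨R, _, hR⟩ := roots v hv0 (inner ℝ v (cv (2 * i)))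
    have hsub : Set.Icc (2 * i : ℝ) (2 * i + 1) ⊆ (R : Set ℝ) := by
      intro t ht
      apply hR
      rw [← inner_sub_right]
      have hm : cv t - cv (2 * i) ∈ vectorSpan ℝ (cv '' Set.Icc (2 * i : ℝ) (2 * i + 1)) :=
        vsub_mem_vectorSpan ℝ ⟨t, ht, rfl⟩ ⟨2 * i, ⟨le_rfl, by linarith⟩, rfl⟩
      exact Submodule.inner_left_of_mem_orthogonal hm hv
    exact Set.Icc_infinite (by linarith) (R.finite_toSet.subset hsub)
  have h2 := interior_convexHull_nonempty_iff_affineSpan_eq_top.mpr h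
  exact (Measure.measure_pos_of_nonempty_interior volume (h2.mono (interior_mono subset_closure))).ne'

lemma plane_null (v : E) (hv : v ≠ 0) (c : ℝ) : volume {x : E | inner ℝ v x = c} = 0 := by
  have hn : inner ℝ v v ≠ 0 := fun e => hv (inner_self_eq_zero.mp e)
  set p : E := (c / inner ℝ v v) • v with hp
  have hpc : inner ℝ v p = c := by rw [hp, inner_smul_right]; field_simp
  have hs : AffineSubspace.mk' p (ℝ ∙ v)ᗮ ≠ ⊤ := by
    intro e
    have : v + p ∈ AffineSubspace.mk' p (ℝ ∙ v)ᗮ := by rw [e]; trivial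
    rw [AffineSubspace.mem_mk', Submodule.mem_orthogonal_singleton_iff_inner_right] at this
    simp at this
    exact hv this
  refine measure_mono_null ?_ (Measure.addHaar_affineSubspace volume _ hs)
  intro x hx
  rw [SetLike.mem_coe, AffineSubspace.mem_mk', Submodule.mem_orthogonal_singleton_iff_inner_right,
    vsub_eq_sub, inner_sub_right, hpc]
  exact sub_eq_zero.mpr hx

noncomputable def nu (i : ℕ) : Measure E := ProbabilityTheory.cond volume (blob i)

instance (i : ℕ) : IsProbabilityMeasure (nu i) :=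
  ProbabilityTheory.cond_isProbabilityMeasure_of_finite (blob_pos i) (blob_compact i).measure_lt_top.ne

lemma nu_zero (i : ℕ) (A : Set E) (h : volume (blob i ∩ A) = 0) : nu i A = 0 := by
  unfold nu
  rw [ProbabilityTheory.cond_apply (blob_compact i).measurableSet, h, mul_zero]

noncomputable def vec (A : Set E) (i : ℕ) : ℝ := ms i * (nu i).real A

lemma cut_ok (A : Set E) (v : E) (hv : v ≠ 0) (c : ℝ) :
    OK (vec (A ∩ {x | inner ℝ v x ≤ c})) (vec (A ∩ {x | c < inner ℝ v x})) 11 0 0 0 := by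
  obtain ⟨R, hR, hz⟩ := roots v hv c
  refine ok_of_roots (fun t => inner ℝ v (cv t) - c)
    ((continuous_const.inner cv_cont).sub continuous_const) R hR hz _ _ ?_ ?_ 11 0 0 0
    (Or.inl rfl) (Or.inl rfl)
  · intro i hi
    by_contra hc
    push Not at hc
    have hsub : blob i ⊆ {x | c ≤ inner ℝ v x} := by
      refine closure_minimal (convexHull_min ?_ (convex_halfSpace_ge (innerₗ E v).isLinear c))
        (isClosed_le continuous_const (continuous_const.inner continuous_id))
      rintro _ ⟨t, ht, rfl⟩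
      have := hc t ht.1 ht.2
      show c ≤ inner ℝ v (cv t)
      linarith
    have : nu i (A ∩ {x | inner ℝ v x ≤ c}) = 0 := by
      apply nu_zero
      refine measure_mono_null ?_ (plane_null v hv c)
      intro x hx
      exact le_antisymm hx.2.2 (hsub hx.1)
    simp [vec, Measure.real, this] at hi
  · intro i hi
    by_contra hc
    push Not at hc
    have hsub : blob i ⊆ {x | inner ℝ v x ≤ c} := by
      refine closure_minimal (convexHull_min ?_ (convex_halfSpace_le (innerₗ E v).isLinear c))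
        (isClosed_le (continuous_const.inner continuous_id) continuous_const)
      rintro _ ⟨t, ht, rfl⟩
      have := hc t ht.1 ht.2
      show inner ℝ v (cv t) ≤ c
      linarith
    have : nu i (A ∩ {x | c < inner ℝ v x}) = 0 := by
      apply nu_zero
      have : blob i ∩ (A ∩ {x | c < inner ℝ v x}) = ∅ := by
        ext x
        simp only [Set.mem_inter_iff, Set.mem_empty_iff_false, iff_false]
        rintro ⟨h1, _, h2⟩
        have h3 : inner ℝ v x ≤ c := hsub h1
        have h4 : c < inner ℝ v x := h2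
        linarith
      rw [this, measure_empty]
    simp [vec, Measure.real, this] at hi

lemma half_meas (v : E) (c : ℝ) : MeasurableSet {x : E | inner ℝ v x ≤ c} :=
  (isClosed_le (continuous_const.inner continuous_id) continuous_const).measurableSet

lemma half_meas' (v : E) (c : ℝ) : MeasurableSet {x : E | c < inner ℝ v x} :=
  (isOpen_lt continuous_const (continuous_const.inner continuous_id)).measurableSet

lemma vec_add (A : Set E) (v : E) (c : ℝ) (i : ℕ) :
    vec (A ∩ {x | inner ℝ v x ≤ c}) i + vec (A ∩ {x | c < inner ℝ v x}) i = vec A i := by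
  unfold vec
  rw [← mul_add, ← measureReal_inter_add_sdiff (μ := nu i) (s := A) (half_meas v c)]
  congr 3
  ext x
  simp

lemma suf_add (a b x : ℕ → ℝ) (h : ∀ i, a i + b i = x i) (k : ℕ) :
    ∀ n j, suf a k n j + suf b k n j = suf x k n j := by
  intro n
  induction n with
  | zero => intro j; simp [suf]
  | succ n ih =>
    intro j
    have h1 := ih (j + 1)
    have h2 := h j
    simp only [suf]
    split_ifs <;> linarith

noncomputable def mus (k : ℕ) : ℕ → ℕ → Measure E
  | 0, _ => 0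
  | n + 1, j => (if ty j = k then (ms j : NNReal) • nu j else 0) + mus k n (j + 1)

lemma mus_spec (k : ℕ) : ∀ n j, IsFiniteMeasure (mus k n j) ∧ mus k n j ≪ volume ∧
    ∀ A, (mus k n j).real A = suf (vec A) k n j := by
  intro n
  induction n with
  | zero =>
    intro j
    exact ⟨by simp only [mus]; infer_instance, by simp [mus], fun A => by simp [mus, suf]⟩
  | succ n ih =>
    intro j
    obtain ⟨h1, h2, h3⟩ := ih (j + 1)
    simp only [mus, suf]
    split_ifs with h
    · refine ⟨inferInstance, ?_, fun A => ?_⟩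
      · refine Measure.AbsolutelyContinuous.add_left ?_ h2
        exact (ProbabilityTheory.cond_absolutelyContinuous).smul_left _
      · rw [measureReal_add_apply, h3, measureReal_nnreal_smul_apply]
        simp [vec]
    · simp only [zero_add]
      exact ⟨h1, h2, h3⟩

theorem result :
    ¬ (∀ d : ℕ, 1 ≤ d → ∀ r : ℕ, Even r → 0 < r →
      ∀ μ : Fin d → Measure (EuclideanSpace ℝ (Fin d)),
        (∀ k, IsFiniteMeasure (μ k)) →
        (∀ k, μ k ≪ (volume : Measure (EuclideanSpace ℝ (Fin d)))) →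
        ∃ L : List (Set (EuclideanSpace ℝ (Fin d))),
          L.length = r ∧
          (∀ S : Set (EuclideanSpace ℝ (Fin d)) → List (Set (EuclideanSpace ℝ (Fin d))) → Prop,
              (∀ A, S A [A]) →
              (∀ (A : Set (EuclideanSpace ℝ (Fin d))) (l₁ l₂ : List (Set (EuclideanSpace ℝ (Fin d))))
                  (v : EuclideanSpace ℝ (Fin d)) (c : ℝ), v ≠ 0 →
                  S (A ∩ {x | inner ℝ v x ≤ c}) l₁ →
                  S (A ∩ {x | c < inner ℝ v x}) l₂ →
                  S A (l₁ ++ l₂)) →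
              S Set.univ L) ∧
          ∀ k, ∀ P ∈ L, ∀ Q ∈ L, μ k P = μ k Q) := by
  intro H
  obtain ⟨L, hL, hS, hF⟩ := H 5 (by norm_num) 6 (by decide) (by norm_num) (fun k => mus k.val 11 0)
    (fun k => (mus_spec k.val 11 0).1) (fun k => (mus_spec k.val 11 0).2.1)
  have hF' : ∀ k < 5, ∀ P ∈ L, ∀ Q ∈ L, tot (vec P) k = tot (vec Q) k := by
    intro k hk P hP Q hQ
    have := hF ⟨k, hk⟩ P hP Q hQ
    unfold tot
    rw [← (mus_spec k 11 0).2.2, ← (mus_spec k 11 0).2.2]
    simp only [Measure.real]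
    exact congrArg _ this
  have vn : ∀ (A : Set E) i, 0 ≤ vec A i := fun A i => mul_nonneg (Nat.cast_nonneg _) measureReal_nonneg
  have main := hS (fun A l => (∀ k, tot (vec A) k = (l.map fun P => tot (vec P) k).sum) ∧
      ((∀ P ∈ l, ∀ k < 5, tot (vec P) k = 10) → P3 (vec A) l.length)) ?_ ?_
  · obtain ⟨m1, m2⟩ := main
    have hu : ∀ i, vec Set.univ i = ms i := fun i => by simp [vec]
    rw [hL] at m2
    refine not_P3 _ (fun i _ => hu i) (m2 ?_)
    intro P hP k hk
    have e := m1 k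
    have e2 : (L.map fun Q => tot (vec Q) k) = L.map fun _ => tot (vec P) k :=
      List.map_congr_left fun Q hQ => hF' k hk Q hQ P hP
    rw [e2] at e
    have e3 : tot (vec Set.univ) k = 60 := by
      interval_cases k <;> simp [tot, suf, ty, hu, ms] <;> norm_num
    simp [hL] at e
    linarith
  · intro A
    refine ⟨fun k => by simp, fun h => ?_⟩
    have h1 : P1 (vec A) 1 := ⟨le_rfl, vn A, fun k hk => by rw [h A (by simp) k hk]; simp⟩
    exact ⟨⟨h1, fun e => absurd rfl e⟩, fun e => absurd rfl e⟩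
  · rintro A l₁ l₂ v c hv ⟨a1, a2⟩ ⟨b1, b2⟩
    have hadd : ∀ k, tot (vec (A ∩ {x | inner ℝ v x ≤ c})) k + tot (vec (A ∩ {x | c < inner ℝ v x})) k
        = tot (vec A) k := fun k => suf_add _ _ _ (vec_add A v c) k 11 0
    refine ⟨fun k => by rw [List.map_append, List.sum_append, ← a1, ← b1, hadd], fun h => ?_⟩
    have a3 := a2 fun P hP => h P (List.mem_append_left _ hP)
    have b3 := b2 fun P hP => h P (List.mem_append_right _ hP)
    have h1 : P1 (vec A) (l₁ ++ l₂).length := by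
      refine ⟨?_, vn A, fun k hk => ?_⟩
      · have := a3.1.1.1
        rw [List.length_append]; omega
      · rw [← hadd, a3.1.1.2.2 k hk, b3.1.1.2.2 k hk, List.length_append]
        push_cast; ring
    exact ⟨⟨h1, fun _ => ⟨_, _, _, _, List.length_append.symm, vec_add A v c, cut_ok A v hv c,
      a3.1.1, b3.1.1⟩⟩, fun _ => ⟨_, _, _, _, List.length_append.symm, vec_add A v c, cut_ok A v hv c,
      a3.1, b3.1⟩⟩

end Pool.Agent.S12318
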