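import Pool.Statements.S12322
import Pool.Agent.H33.GelCore

set_option autoImplicit false
open Pool Pool.MP_f027b3_co

namespace Pool.Agent.S12322

open Pool.Agent.H33.Gel SimpleGraph

def A0 (m k t k' t' : ℕ) : Prop :=
  (t = 0 ∧ t' = 0 ∧ Sc m 1 k k') ∨ (t = 0 ∧ t' ≠ 0 ∧ k = k') ∨ (t ≠ 0 ∧ t' = 0 ∧ Sc m 3 k k')

/-- a cycle `a_0 … a_{m-1}` together with two paths of length two from each `a_k` to `a_{k+3}` -/
def gr (m : ℕ) (hm : 9 ≤ m) : SimpleGraph (Fin (3 * m)) where
  Adj v w := A0 m (v / 3) (v % 3) (w / 3) (w % 3) ∨ A0 m (w / 3) (w % 3) (v / 3) (v % 3)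
  symm := ⟨fun _ _ h => h.symm⟩
  loopless := ⟨by
    intro v h
    simp only [A0, Sc] at h
    omega⟩

def Two {n : ℕ} (H : SimpleGraph (Fin n)) (f : Fin n → Fin n → ℝ) : Prop :=
  ∀ (u : Fin n) (p : H.Walk u u), p.IsCycle →
    ∃ i j : ℕ, i < p.length ∧ j < p.length ∧ i ≠ j ∧
      f (p.getVert ((i + 1) % p.length)) (p.getVert ((i + 1) % p.length + 1)) <
        f (p.getVert i) (p.getVert (i + 1)) ∧
      f (p.getVert ((i + p.length - 1) % p.length))
          (p.getVert ((i + p.length - 1) % p.length + 1)) <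
        f (p.getVert i) (p.getVert (i + 1)) ∧
      f (p.getVert ((j + 1) % p.length)) (p.getVert ((j + 1) % p.length + 1)) <
        f (p.getVert j) (p.getVert (j + 1)) ∧
      f (p.getVert ((j + p.length - 1) % p.length))
          (p.getVert ((j + p.length - 1) % p.length + 1)) <
        f (p.getVert j) (p.getVert (j + 1))

def Good {n : ℕ} (H : SimpleGraph (Fin n)) : Prop :=
  ∃ f : Fin n → Fin n → ℝ, (∀ a b : Fin n, f a b = f b a) ∧
    (∀ x y z w : Fin n, H.Adj x y → H.Adj z w → f x y = f z w →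
      (x = z ∧ y = w) ∨ (x = w ∧ y = z)) ∧ Two H f

lemma cyc4 {n : ℕ} {G : SimpleGraph (Fin n)} {f : Fin n → Fin n → ℝ} (h : Two G f)
    (v0 v1 v2 v3 : Fin n) (a0 : G.Adj v0 v1) (a1 : G.Adj v1 v2) (a2 : G.Adj v2 v3)
    (a3 : G.Adj v3 v0) (n02 : v0 ≠ v2) (n13 : v1 ≠ v3) :
    (f v0 v1 < f v1 v2 ∧ f v2 v3 < f v3 v0) ∨ (f v1 v2 < f v0 v1 ∧ f v3 v0 < f v2 v3) := by
  let p : G.Walk v0 v0 := Walk.cons a0 (Walk.cons a1 (Walk.cons a2 (Walk.cons a3 Walk.nil)))
  have hp : p.IsCycle := by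
    have := a0.ne
    have := a1.ne
    have := a2.ne
    have := a3.ne
    rw [Walk.cons_isCycle_iff]
    simp [Walk.cons_isPath_iff]
    grind
  obtain ⟨i, j, hi, hj, hij, a, b, c, d⟩ := h v0 p hp
  have hl : p.length = 4 := rfl
  have e0 : p.getVert 0 = v0 := rfl
  have e1 : p.getVert 1 = v1 := rfl
  have e2 : p.getVert 2 = v2 := rfl
  have e3 : p.getVert 3 = v3 := rfl
  have e4 : p.getVert 4 = v0 := rfl
  rw [hl] at hi hj a b c d
  interval_cases i <;> interval_cases j <;>
    simp only [Nat.reduceAdd, Nat.reduceMod, Nat.reduceSub, zero_add, e0, e1, e2, e3, e4]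
      at a b c d <;>
    first
      | exact absurd rfl hij
      | (left; constructor <;> linarith)
      | (right; constructor <;> linarith)

lemma cyc5 {n : ℕ} {G : SimpleGraph (Fin n)} {f : Fin n → Fin n → ℝ} (h : Two G f)
    (v0 v1 v2 v3 v4 : Fin n) (a0 : G.Adj v0 v1) (a1 : G.Adj v1 v2) (a2 : G.Adj v2 v3)
    (a3 : G.Adj v3 v4) (a4 : G.Adj v4 v0) (n02 : v0 ≠ v2) (n03 : v0 ≠ v3) (n13 : v1 ≠ v3)
    (n14 : v1 ≠ v4) (n24 : v2 ≠ v4) :
    ¬ (f v0 v1 < f v1 v2 ∧ f v1 v2 < f v2 v3 ∧ f v4 v0 < f v3 v4) ∧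
      ¬ (f v1 v2 < f v0 v1 ∧ f v2 v3 < f v1 v2 ∧ f v3 v4 < f v4 v0) := by
  let p : G.Walk v0 v0 :=
    Walk.cons a0 (Walk.cons a1 (Walk.cons a2 (Walk.cons a3 (Walk.cons a4 Walk.nil))))
  have hp : p.IsCycle := by
    have := a0.ne
    have := a1.ne
    have := a2.ne
    have := a3.ne
    have := a4.ne
    rw [Walk.cons_isCycle_iff]
    simp [Walk.cons_isPath_iff]
    grind
  obtain ⟨i, j, hi, hj, hij, a, b, c, d⟩ := h v0 p hp
  have hl : p.length = 5 := rfl
  have e0 : p.getVert 0 = v0 := rfl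
  have e1 : p.getVert 1 = v1 := rfl
  have e2 : p.getVert 2 = v2 := rfl
  have e3 : p.getVert 3 = v3 := rfl
  have e4 : p.getVert 4 = v4 := rfl
  have e5 : p.getVert 5 = v0 := rfl
  rw [hl] at hi hj a b c d
  constructor <;> rintro ⟨x, y, z⟩ <;> interval_cases i <;> interval_cases j <;>
    simp only [Nat.reduceAdd, Nat.reduceMod, Nat.reduceSub, zero_add, e0, e1, e2, e3, e4, e5]
      at a b c d <;>
    first
      | exact absurd rfl hij
      | linarith

lemma md (m k d : ℕ) (hm : 0 < m) (hd : d ≤ m) : Sc m d (k % m) ((k + d) % m) := by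
  have h1 : k % m < m := Nat.mod_lt _ hm
  have h2 : (k + d) % m = (k % m + d) % m := by simp
  unfold Sc
  by_cases h : k % m + d < m
  · left
    rw [h2, Nat.mod_eq_of_lt h]
  · right
    rw [h2, Nat.mod_eq_sub_mod (by omega), Nat.mod_eq_of_lt (by omega)]
    omega

def mk (m : ℕ) (hm : 9 ≤ m) (k t : ℕ) : Fin (3 * m) :=
  ⟨3 * (k % m) + t % 3, by
    have : k % m < m := Nat.mod_lt _ (by omega)
    omega⟩

lemma mk_val (m : ℕ) (hm : 9 ≤ m) (k t : ℕ) : (mk m hm k t : ℕ) = 3 * (k % m) + t % 3 := rfl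

lemma adj_iff (m : ℕ) (hm : 9 ≤ m) (v w : Fin (3 * m)) : (gr m hm).Adj v w ↔
    (A0 m (v / 3) (v % 3) (w / 3) (w % 3) ∨ A0 m (w / 3) (w % 3) (v / 3) (v % 3)) := Iff.rfl

lemma adj_rim (m : ℕ) (hm : 9 ≤ m) (k : ℕ) : (gr m hm).Adj (mk m hm k 0) (mk m hm (k + 1) 0) := by
  have := md m k 1 (by omega) (by omega)
  rw [adj_iff]
  left
  left
  simp only [mk_val, Sc] at this ⊢
  omega

lemma adj_near (m : ℕ) (hm : 9 ≤ m) (k t : ℕ) (ht : t = 1 ∨ t = 2) :
    (gr m hm).Adj (mk m hm k 0) (mk m hm k t) := by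
  rw [adj_iff]
  left
  right
  left
  simp only [mk_val]
  omega

lemma adj_far (m : ℕ) (hm : 9 ≤ m) (k t : ℕ) (ht : t = 1 ∨ t = 2) :
    (gr m hm).Adj (mk m hm k t) (mk m hm (k + 3) 0) := by
  have := md m k 3 (by omega) (by omega)
  rw [adj_iff]
  left
  right
  right
  simp only [mk_val, Sc] at this ⊢
  omega

lemma mk_ne (m : ℕ) (hm : 9 ≤ m) (k d t t' : ℕ) (hd : 0 < d) (hd' : d < 9) :
    mk m hm k t ≠ mk m hm (k + d) t' := by
  have := md m k d (by omega) (by omega)
  intro h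
  have h' := congrArg Fin.val h
  simp only [mk_val, Sc] at this h'
  omega

lemma mk_ne' (m : ℕ) (hm : 9 ≤ m) (k k' t t' : ℕ) (ht : t % 3 ≠ t' % 3) :
    mk m hm k t ≠ mk m hm k' t' := by
  intro h
  have h' := congrArg Fin.val h
  simp only [mk_val] at h'
  omega

lemma bad (m : ℕ) (hm : 9 ≤ m) (ho : m % 2 = 1) : ¬ Good (gr m hm) := by
  rintro ⟨f, hs, hi, h2⟩
  let T : ℕ → ℝ := fun k => f (mk m hm k 0) (mk m hm (k + 1) 0)
  have nm : ∀ k, ¬ (T k < T (k + 1) ∧ T (k + 1) < T (k + 2)) ∧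
      ¬ (T (k + 1) < T k ∧ T (k + 2) < T (k + 1)) := by
    intro k
    have c4 := cyc4 h2 (mk m hm k 0) (mk m hm k 1) (mk m hm (k + 3) 0) (mk m hm k 2)
      (adj_near m hm k 1 (by omega)) (adj_far m hm k 1 (by omega))
      (adj_far m hm k 2 (by omega)).symm (adj_near m hm k 2 (by omega)).symm
      (mk_ne m hm k 3 0 0 (by omega) (by omega)) (mk_ne' m hm _ _ _ _ (by omega))
    have c5 : ∀ t, t = 1 ∨ t = 2 → _ := fun t ht =>
      cyc5 h2 (mk m hm k 0) (mk m hm (k + 1) 0) (mk m hm (k + 2) 0) (mk m hm (k + 3) 0)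
        (mk m hm k t) (adj_rim m hm k) (adj_rim m hm (k + 1)) (adj_rim m hm (k + 2))
        (adj_far m hm k t ht).symm (adj_near m hm k t ht).symm
        (mk_ne m hm k 2 0 0 (by omega) (by omega)) (mk_ne m hm k 3 0 0 (by omega) (by omega))
        (mk_ne m hm (k + 1) 2 0 0 (by omega) (by omega))
        (mk_ne' m hm _ _ _ _ (by omega)) (mk_ne' m hm _ _ _ _ (by omega))
    have b := c5 1 (by omega)
    have c := c5 2 (by omega)
    rw [hs (mk m hm k 1) (mk m hm k 0), hs (mk m hm (k + 3) 0) (mk m hm k 1)] at b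
    constructor
    · rintro ⟨x, y⟩
      rcases c4 with ⟨u, v⟩ | ⟨u, v⟩
      · exact b.1 ⟨x, y, u⟩
      · exact c.1 ⟨x, y, v⟩
    · rintro ⟨x, y⟩
      rcases c4 with ⟨u, v⟩ | ⟨u, v⟩
      · exact c.2 ⟨x, y, v⟩
      · exact b.2 ⟨x, y, u⟩
  have ne : ∀ k, T k ≠ T (k + 1) := by
    intro k h
    rcases hi _ _ _ _ (adj_rim m hm k) (adj_rim m hm (k + 1)) h with ⟨x, _⟩ | ⟨x, _⟩
    · exact mk_ne m hm k 1 0 0 (by omega) (by omega) x
    · exact mk_ne m hm k 2 0 0 (by omega) (by omega) x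
  have alt : ∀ k, T (k + 1) < T (k + 2) ↔ ¬ T k < T (k + 1) := by
    intro k
    constructor
    · intro x y
      exact (nm k).1 ⟨y, x⟩
    · intro x
      have x' : T (k + 1) < T k := lt_of_le_of_ne (not_lt.mp x) (ne k).symm
      by_contra y
      exact (nm k).2 ⟨x', lt_of_le_of_ne (not_lt.mp y) (ne (k + 1)).symm⟩
  have ev : ∀ j, T (2 * j) < T (2 * j + 1) ↔ T 0 < T 1 := by
    intro j
    induction j with
    | zero => rfl
    | succ j ih =>
      have a := alt (2 * j)
      have b := alt (2 * j + 1)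
      rw [show 2 * (j + 1) = 2 * j + 1 + 1 by ring, show 2 * j + 1 + 1 + 1 = 2 * j + 1 + 2 by ring,
        b, show 2 * j + 1 + 1 = 2 * j + 2 by ring, a, not_not, ih]
  obtain ⟨j, hj⟩ : ∃ j, m = 2 * j + 1 := ⟨m / 2, by omega⟩
  have a := alt (2 * j)
  rw [ev j] at a
  have per : ∀ k t, mk m hm (m + k) t = mk m hm k t := by
    intro k t
    apply Fin.ext
    simp [mk_val]
  have e1 : T (2 * j + 1) = T 0 := by
    simp only [T]
    rw [← hj, ← per 0 0, ← per (0 + 1) 0]
    rfl
  have e2 : T (2 * j + 2) = T 1 := by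
    simp only [T]
    rw [show 2 * j + 2 = m + 1 by omega, ← per 1 0, ← per (1 + 1) 0]
  rw [e1, e2] at a
  tauto

def rho (k : ℕ) : ℕ := if k = 1 then 2 else if k = 0 then 1 else if k % 2 = 0 then 3 else 1

lemma rho_R (k : ℕ) : R k (rho k) := by
  unfold R rho
  split_ifs <;> omega

def cls (m k t k' t' : ℕ) : ℕ :=
  if t = 0 ∧ t' = 0 then (if k' = k + 1 ∨ k' + m = k + 1 then rho k else rho k')
  else if t = 1 ∨ t' = 1 then (if k = k' then 0 else 4) else (if k = k' then 4 else 0)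

lemma sp0 (m k t k' t' : ℕ) (hm : 9 ≤ m) (hk : k < m) (hk' : k' < m) (ht : t < 3) (ht' : t' < 3)
    (h : A0 m k t k' t') :
    Sp m k t k' t' (cls m k t k' t') ∧ Sp m k' t' k t (cls m k t k' t') ∧
      cls m k' t' k t = cls m k t k' t' := by
  rcases h with ⟨rfl, rfl, h⟩ | ⟨rfl, h1, rfl⟩ | ⟨h1, rfl, h⟩
  · have e1 : cls m k 0 k' 0 = rho k := by
      unfold cls
      unfold Sc at h
      rw [if_pos ⟨rfl, rfl⟩, if_pos h]
    have e2 : cls m k' 0 k 0 = rho k := by
      unfold cls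
      unfold Sc at h
      rw [if_pos ⟨rfl, rfl⟩, if_neg (by omega)]
    rw [e1, e2]
    exact ⟨Or.inl ⟨rfl, rfl, h, rho_R k⟩, Or.inr (Or.inl ⟨rfl, rfl, h, rho_R k⟩), rfl⟩
  · have : t' = 1 ∨ t' = 2 := by omega
    rcases this with rfl | rfl <;> simp [Sp, cls]
  · have : t = 1 ∨ t = 2 := by omega
    have hne : k ≠ k' := by
      unfold Sc at h
      omega
    rcases this with rfl | rfl <;> simp [Sp, cls, hne, hne.symm, h]

lemma good_of (m : ℕ) (hm : 9 ≤ m) (ho : m % 2 = 1) (n : ℕ) (H : SimpleGraph (Fin n))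
    (κ τ : Fin n → ℕ) (hκ : ∀ v, κ v < m) (hτ : ∀ v, τ v < 3)
    (hinj : ∀ v w, κ v = κ w → τ v = τ w → v = w)
    (hadj : ∀ v w, H.Adj v w → A0 m (κ v) (τ v) (κ w) (τ w) ∨ A0 m (κ w) (τ w) (κ v) (τ v))
    (miss : (∀ v w, H.Adj v w → ¬ Is (κ v) (τ v) (κ w) (τ w) 1 0 2 0) ∨
      (∀ v w, H.Adj v w → ¬ Is (κ v) (τ v) (κ w) (τ w) 0 0 0 1) ∨
      (∀ v w, H.Adj v w → ¬ Is (κ v) (τ v) (κ w) (τ w) 0 1 3 0)) : Good H := by
  let C : Fin n → Fin n → ℕ := fun v w => cls m (κ v) (τ v) (κ w) (τ w)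
  have hC : ∀ v w, H.Adj v w → Sp m (κ v) (τ v) (κ w) (τ w) (C v w) ∧ C w v = C v w := by
    intro v w h
    rcases hadj v w h with a | a
    · have := sp0 m _ _ _ _ hm (hκ v) (hκ w) (hτ v) (hτ w) a
      exact ⟨this.1, this.2.2⟩
    · have := sp0 m _ _ _ _ hm (hκ w) (hκ v) (hτ w) (hτ v) a
      refine ⟨?_, this.2.2.symm⟩
      have e : C v w = cls m (κ w) (τ w) (κ v) (τ v) := this.2.2
      rw [e]
      exact this.2.1
  let idx : Fin n → Fin n → ℕ := fun v w => (min v w : Fin n) * n + (max v w : Fin n)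
  have hidx : ∀ v w, idx v w < n * n := by
    intro v w
    have h1 := (min v w).2
    have h2 := (max v w).2
    simp only [idx]
    nlinarith
  let lab : Fin n → Fin n → ℕ := fun v w => C (min v w) (max v w) * (n * n) + idx v w
  have hlab : ∀ v w, H.Adj v w → lab v w = C v w * (n * n) + idx v w := by
    intro v w h
    simp only [lab]
    rcases le_total v w with e | e
    · rw [min_eq_left e, max_eq_right e]
    · rw [min_eq_right e, max_eq_left e, (hC v w h).2]
  have hlt : ∀ v w x y, H.Adj v w → H.Adj x y → C v w < C x y → lab v w < lab x y := by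
    intro v w x y h1 h2 h
    rw [hlab v w h1, hlab x y h2]
    have := hidx v w
    nlinarith
  have linj : ∀ x y z w : Fin n, lab x y = lab z w → (x = z ∧ y = w) ∨ (x = w ∧ y = z) := by
    intro x y z w h
    have npos : 0 < n := lt_of_le_of_lt (Nat.zero_le _) x.2
    have h1 : idx x y = idx z w := by
      have := congrArg (fun t => t % (n * n)) h
      simp only [lab] at this
      rwa [Nat.mul_add_mod_of_lt (hidx x y), Nat.mul_add_mod_of_lt (hidx z w)] at this
    have h2 : ((max x y : Fin n) : ℕ) = (max z w : Fin n) := by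
      have := congrArg (fun t => t % n) h1
      simp only [idx] at this
      rwa [Nat.mul_add_mod_of_lt (max x y).2, Nat.mul_add_mod_of_lt (max z w).2] at this
    have h3 : ((min x y : Fin n) : ℕ) = (min z w : Fin n) := by
      simp only [idx] at h1
      rw [h2] at h1
      exact Nat.eq_of_mul_eq_mul_right npos (Nat.add_right_cancel h1)
    have h2' := Fin.ext h2
    have h3' := Fin.ext h3
    rcases le_total x y with e | e <;> rcases le_total z w with e' | e' <;>
      simp only [min_eq_left, max_eq_right, min_eq_right, max_eq_left, e, e'] at h2' h3' <;>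
      simp [h2', h3']
  refine ⟨fun v w => (lab v w : ℝ), ?_, ?_, ?_⟩
  · intro a b
    simp only [lab, idx, min_comm a b, max_comm a b]
  · intro x y z w _ _ h
    exact linj x y z w (Nat.cast_injective h)
  · intro u p hp
    have hL := hp.three_le_length
    set L := p.length with hLd
    let x : ℕ → Fin n := fun i => p.getVert (i % L)
    have hx1 : ∀ i, p.getVert (i % L + 1) = x (i + 1) := by
      intro i
      have := md L i 1 (by omega) (by omega)
      have h0 : (i + 1) % L < L := Nat.mod_lt _ (by omega)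
      simp only [x]
      rcases this with e | e
      · rw [e]
      · have e1 : (i + 1) % L = 0 := by
          have : i % L < L := Nat.mod_lt _ (by omega)
          omega
        have e2 : i % L + 1 = L := by omega
        rw [e1, e2, hLd, Walk.getVert_length, Walk.getVert_zero]
    have xa : ∀ i, H.Adj (x i) (x (i + 1)) := by
      intro i
      rw [← hx1]
      exact p.adj_getVert_succ (Nat.mod_lt _ (by omega))
    have xp : ∀ i, x (i + L) = x i := by
      intro i
      simp [x]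
    have xn : ∀ i, x (i + 2) ≠ x i := by
      intro i h
      have h1 : (i + 2) % L < L := Nat.mod_lt _ (by omega)
      have h2 : i % L < L := Nat.mod_lt _ (by omega)
      have := hp.getVert_injOn' (show (i + 2) % L ≤ p.length - 1 by omega)
        (show i % L ≤ p.length - 1 by omega) h
      have h3 := md L i 2 (by omega) (by omega)
      unfold Sc at h3
      omega
    have cy : Cyc m L (fun i => κ (x i)) (fun i => τ (x i)) (fun i => C (x i) (x (i + 1))) :=
      { hm := ho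
        hm9 := hm
        hL := hL
        hk := fun i => hκ _
        pk := fun i => by simp only [xp]
        pt := fun i => by simp only [xp]
        pc := fun i => by
          show C (x (i + L)) (x (i + L + 1)) = C (x i) (x (i + 1))
          rw [show i + L + 1 = i + 1 + L by ring, xp, xp]
        nb := fun i h => xn i (hinj _ _ h.1 h.2)
        sp := fun i => (hC _ _ (xa i)).1
        miss := by
          rcases miss with q | q | q
          · exact Or.inl fun i => q _ _ (xa i)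
          · exact Or.inr (Or.inl fun i => q _ _ (xa i))
          · exact Or.inr (Or.inr fun i => q _ _ (xa i)) }
    obtain ⟨i, j, k, l, hij, hjk, hkl, hli, c1, c2, c3, c4⟩ := four cy
    let g : ℕ → ℝ := fun i => (lab (x i) (x (i + 1)) : ℝ)
    have gl : ∀ a b, C (x a) (x (a + 1)) < C (x b) (x (b + 1)) → g a < g b := by
      intro a b h
      exact Nat.cast_lt.mpr (hlt _ _ _ _ (xa a) (xa b) h)
    have gne : ∀ a, g a ≠ g (a + 1) := by
      intro a h
      rcases linj _ _ _ _ (Nat.cast_injective h) with ⟨e, _⟩ | ⟨e, _⟩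
      · exact (xa a).ne e
      · exact xn a e.symm
    have gm : ∀ a b, a % L = b % L → g a = g b := by
      intro a b h
      simp only [g]
      rw [← hx1, ← hx1]
      simp only [x, h]
    have gp : g (i + L) = g i := gm _ _ (by simp)
    obtain ⟨p1, a1, a2, a3, a4⟩ := peak g gne i j k hij hjk (gl _ _ c1) (gl _ _ c2)
    obtain ⟨p2, b1, b2, b3, b4⟩ := peak g gne k l (i + L) hkl hli (gl _ _ c3)
      (by rw [gp]; exact gl _ _ c4)
    have ge : ∀ a, (lab (p.getVert (a % L)) (p.getVert (a % L + 1)) : ℝ) = g a := by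
      intro a
      rw [hx1]
    have fin : ∀ q, 0 < q → g (q + 1) < g q → g (q - 1) < g q →
        (lab (p.getVert ((q % L + 1) % L)) (p.getVert ((q % L + 1) % L + 1)) : ℝ) <
          lab (p.getVert (q % L)) (p.getVert (q % L + 1)) ∧
        (lab (p.getVert ((q % L + L - 1) % L)) (p.getVert ((q % L + L - 1) % L + 1)) : ℝ) <
          lab (p.getVert (q % L)) (p.getVert (q % L + 1)) := by
      intro q hq h1 h2
      rw [ge, ge, ge, gm (q % L + 1) (q + 1) (by simp), gm (q % L + L - 1) (q - 1) (by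
        rw [show q % L + L - 1 = q % L + (L - 1) by omega, Nat.mod_add_mod,
          show q + (L - 1) = q - 1 + L by omega, Nat.add_mod_right])]
      exact ⟨h1, h2⟩
    refine ⟨p1 % L, p2 % L, Nat.mod_lt _ (by omega), Nat.mod_lt _ (by omega), ?_,
      (fin p1 (by omega) a3 a4).1, (fin p1 (by omega) a3 a4).2,
      (fin p2 (by omega) b3 b4).1, (fin p2 (by omega) b3 b4).2⟩
    intro e
    have := md L p1 (p2 - p1) (by omega) (by omega)
    rw [show p1 + (p2 - p1) = p2 by omega] at this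
    unfold Sc at this
    omega

def kap (m k0 v : ℕ) : ℕ := if k0 ≤ v / 3 then v / 3 - k0 else v / 3 + m - k0

def tau (s v : ℕ) : ℕ := if s = 2 then (3 - v % 3) % 3 else v % 3

lemma kap_spec (m k0 v : ℕ) :
    (k0 ≤ v / 3 ∧ kap m k0 v = v / 3 - k0) ∨ (v / 3 < k0 ∧ kap m k0 v = v / 3 + m - k0) := by
  unfold kap
  split_ifs <;> omega

lemma tau_spec (s v : ℕ) : (s = 2 ∧ tau s v = (3 - v % 3) % 3) ∨ (s ≠ 2 ∧ tau s v = v % 3) := by
  unfold tau
  split_ifs <;> omega

lemma a0_shift (m k0 s v w : ℕ) (hm : 9 ≤ m) (hk : k0 < m) (hv : v < 3 * m) (hw : w < 3 * m)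
    (h : A0 m (v / 3) (v % 3) (w / 3) (w % 3)) :
    A0 m (kap m k0 v) (tau s v) (kap m k0 w) (tau s w) := by
  have a := kap_spec m k0 v
  have b := kap_spec m k0 w
  have c := tau_spec s v
  have d := tau_spec s w
  rcases h with ⟨h1, h2, h3⟩ | ⟨h1, h2, h3⟩ | ⟨h1, h2, h3⟩
  · refine Or.inl ⟨by omega, by omega, ?_⟩
    clear c d
    unfold Sc at h3 ⊢
    omega
  · refine Or.inr (Or.inl ⟨by omega, by omega, ?_⟩)
    clear c d
    omega
  · refine Or.inr (Or.inr ⟨by omega, by omega, ?_⟩)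
    clear c d
    unfold Sc at h3 ⊢
    omega

lemma co_inj (m k0 s v w : ℕ) (hk : k0 < m) (hv : v < 3 * m) (hw : w < 3 * m)
    (h1 : kap m k0 v = kap m k0 w) (h2 : tau s v = tau s w) : v = w := by
  have a := kap_spec m k0 v
  have b := kap_spec m k0 w
  have c := tau_spec s v
  have d := tau_spec s w
  have e1 : v / 3 = w / 3 := by
    clear c d
    omega
  have e2 : v % 3 = w % 3 := by
    clear a b
    omega
  omega

lemma good_shift (m : ℕ) (hm : 9 ≤ m) (ho : m % 2 = 1) (H : SimpleGraph (Fin (3 * m)))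
    (hH : H ≤ gr m hm) (v w : Fin (3 * m)) (hvw : ¬ H.Adj v w) (k0 s : ℕ) (hk : k0 < m)
    (h : (kap m k0 v = 1 ∧ tau s v = 0 ∧ kap m k0 w = 2 ∧ tau s w = 0) ∨
      (kap m k0 v = 0 ∧ tau s v = 0 ∧ kap m k0 w = 0 ∧ tau s w = 1) ∨
      (kap m k0 v = 0 ∧ tau s v = 1 ∧ kap m k0 w = 3 ∧ tau s w = 0)) : Good H := by
  have inj : ∀ a b : Fin (3 * m), kap m k0 a = kap m k0 b → tau s a = tau s b → a = b :=
    fun a b h1 h2 => Fin.ext (co_inj m k0 s a b hk a.2 b.2 h1 h2)
  have ms : ∀ a b : Fin (3 * m), H.Adj a b → ¬ Is (kap m k0 a) (tau s a) (kap m k0 b) (tau s b)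
      (kap m k0 v) (tau s v) (kap m k0 w) (tau s w) := by
    rintro a b hab (⟨h1, h2, h3, h4⟩ | ⟨h1, h2, h3, h4⟩)
    · rw [inj _ _ h1 h2, inj _ _ h3 h4] at hab
      exact hvw hab
    · rw [inj _ _ h1 h2, inj _ _ h3 h4] at hab
      exact hvw hab.symm
  apply good_of m hm ho _ H (fun a => kap m k0 a) (fun a => tau s a)
  · intro a
    have := kap_spec m k0 a
    have := a.2
    omega
  · intro a
    have := tau_spec s a
    omega
  · exact inj
  · intro a b hab
    rcases hH hab with e | e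
    · exact Or.inl (a0_shift m k0 s a b hm hk a.2 b.2 e)
    · exact Or.inr (a0_shift m k0 s b a hm hk b.2 a.2 e)
  · rcases h with ⟨h1, h2, h3, h4⟩ | ⟨h1, h2, h3, h4⟩ | ⟨h1, h2, h3, h4⟩ <;>
      rw [h1, h2, h3, h4] at ms
    · exact Or.inl ms
    · exact Or.inr (Or.inl ms)
    · exact Or.inr (Or.inr ms)

lemma crit0 (m : ℕ) (hm : 9 ≤ m) (ho : m % 2 = 1) (H : SimpleGraph (Fin (3 * m)))
    (hH : H ≤ gr m hm) (v w : Fin (3 * m)) (hvw : ¬ H.Adj v w)
    (h : A0 m (v / 3) (v % 3) (w / 3) (w % 3)) : Good H := by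
  have hv := v.2
  have hw := w.2
  rcases h with ⟨h1, h2, h3⟩ | ⟨h1, h2, h3⟩ | ⟨h1, h2, h3⟩
  · obtain ⟨k0, hk, hk'⟩ : ∃ k0, k0 < m ∧ Sc m 1 k0 (v / 3) := by
      by_cases e : (v : ℕ) / 3 = 0
      · exact ⟨m - 1, by omega, Or.inr (by omega)⟩
      · exact ⟨v / 3 - 1, by omega, Or.inl (by omega)⟩
    apply good_shift m hm ho H hH v w hvw k0 0 hk
    left
    have a := kap_spec m k0 v
    have b := kap_spec m k0 w
    have c := tau_spec 0 v
    have d := tau_spec 0 w
    unfold Sc at h3 hk'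
    refine ⟨?_, ?_, ?_, ?_⟩ <;> omega
  · apply good_shift m hm ho H hH v w hvw (v / 3) (w % 3) (by omega)
    right
    left
    have a := kap_spec m (v / 3) v
    have b := kap_spec m (v / 3) w
    have c := tau_spec (w % 3) v
    have d := tau_spec (w % 3) w
    refine ⟨?_, ?_, ?_, ?_⟩ <;> omega
  · apply good_shift m hm ho H hH v w hvw (v / 3) (v % 3) (by omega)
    right
    right
    have a := kap_spec m (v / 3) v
    have b := kap_spec m (v / 3) w
    have c := tau_spec (v % 3) v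
    have d := tau_spec (v % 3) w
    unfold Sc at h3
    refine ⟨?_, ?_, ?_, ?_⟩ <;> omega

lemma crit (m : ℕ) (hm : 9 ≤ m) (ho : m % 2 = 1) (H : SimpleGraph (Fin (3 * m)))
    (hH : H < gr m hm) : Good H := by
  obtain ⟨v, w, h1, h2⟩ : ∃ v w, (gr m hm).Adj v w ∧ ¬ H.Adj v w := by
    by_contra hc
    push Not at hc
    exact hH.2 (fun v w h => hc v w h)
  rcases h1 with e | e
  · exact crit0 m hm ho H hH.le v w h2 e
  · exact crit0 m hm ho H hH.le w v (fun h => h2 h.symm) e

lemma eq_mk (m : ℕ) (hm : 9 ≤ m) (v : Fin (3 * m)) (k d t : ℕ) (hk : k < m) (hd : d ≤ 3)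
    (h1 : Sc m d k (v / 3)) (h2 : (v : ℕ) % 3 = t) : v = mk m hm (k + d) t := by
  apply Fin.ext
  have := md m k d (by omega) (by omega)
  rw [Nat.mod_eq_of_lt hk] at this
  have h3 : (k + d) % m < m := Nat.mod_lt _ (by omega)
  have := v.2
  simp only [mk_val, Sc] at *
  omega

def phi (m : ℕ) (hm : 9 ≤ m) (q : Fin m × Fin 5) : Sym2 (Fin (3 * m)) :=
  if q.2 = 0 then s(mk m hm (q.1 + 0) 0, mk m hm (q.1 + 1) 0)
  else if q.2 = 1 then s(mk m hm (q.1 + 0) 0, mk m hm (q.1 + 0) 1)
  else if q.2 = 2 then s(mk m hm (q.1 + 0) 0, mk m hm (q.1 + 0) 2)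
  else if q.2 = 3 then s(mk m hm (q.1 + 0) 1, mk m hm (q.1 + 3) 0)
  else s(mk m hm (q.1 + 0) 2, mk m hm (q.1 + 3) 0)

lemma edges (m : ℕ) (hm : 9 ≤ m) : (gr m hm).edgeSet.ncard ≤ 5 * m := by
  have key : ∀ v w : Fin (3 * m), A0 m (v / 3) (v % 3) (w / 3) (w % 3) →
      s(v, w) ∈ Set.range (phi m hm) := by
    intro v w h
    have hv := v.2
    have hk : (v : ℕ) / 3 < m := by omega
    have s0 : Sc m 0 (v / 3) (v / 3) := Or.inl rfl
    rcases h with ⟨h1, h2, h3⟩ | ⟨h1, h2, h3⟩ | ⟨h1, h2, h3⟩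
    · refine ⟨(⟨v / 3, hk⟩, 0), ?_⟩
      simp only [phi, if_true]
      rw [← eq_mk m hm v _ 0 0 hk (by omega) s0 h1, ← eq_mk m hm w _ 1 0 hk (by omega) h3 h2]
    · have : (w : ℕ) % 3 = 1 ∨ (w : ℕ) % 3 = 2 := by omega
      rcases this with e | e
      · refine ⟨(⟨v / 3, hk⟩, 1), ?_⟩
        simp only [phi]
        rw [if_neg (by decide), if_pos trivial, ← eq_mk m hm v _ 0 0 hk (by omega) s0 h1,
          ← eq_mk m hm w _ 0 1 hk (by omega) (Or.inl (by omega)) e]
      · refine ⟨(⟨v / 3, hk⟩, 2), ?_⟩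
        simp only [phi]
        rw [if_neg (by decide), if_neg (by decide), if_pos trivial,
          ← eq_mk m hm v _ 0 0 hk (by omega) s0 h1,
          ← eq_mk m hm w _ 0 2 hk (by omega) (Or.inl (by omega)) e]
    · have : (v : ℕ) % 3 = 1 ∨ (v : ℕ) % 3 = 2 := by omega
      rcases this with e | e
      · refine ⟨(⟨v / 3, hk⟩, 3), ?_⟩
        simp only [phi]
        rw [if_neg (by decide), if_neg (by decide), if_neg (by decide), if_pos trivial,
          ← eq_mk m hm v _ 0 1 hk (by omega) s0 e, ← eq_mk m hm w _ 3 0 hk (by omega) h3 h2]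
      · refine ⟨(⟨v / 3, hk⟩, 4), ?_⟩
        simp only [phi]
        rw [if_neg (by decide), if_neg (by decide), if_neg (by decide), if_neg (by decide),
          ← eq_mk m hm v _ 0 2 hk (by omega) s0 e, ← eq_mk m hm w _ 3 0 hk (by omega) h3 h2]
  have sub : (gr m hm).edgeSet ⊆ Set.range (phi m hm) := by
    intro z hz
    induction z using Sym2.ind with
    | h v w =>
      rcases hz with e | e
      · exact key v w e
      · rw [Sym2.eq_swap]
        exact key w v e
  calc (gr m hm).edgeSet.ncard ≤ (Set.range (phi m hm)).ncard :=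
        Set.ncard_le_ncard sub (Set.toFinite _)
    _ ≤ (Set.univ : Set (Fin m × Fin 5)).ncard := by
        rw [← Set.image_univ]
        exact Set.ncard_image_le (Set.toFinite _)
    _ = 5 * m := by
        rw [Set.ncard_univ]
        simp [mul_comm]

lemma noiso (m : ℕ) (hm : 9 ≤ m) (v : Fin (3 * m)) : ∃ w, (gr m hm).Adj v w := by
  have hv := v.2
  have hk : (v : ℕ) / 3 < m := by omega
  have s0 : Sc m 0 (v / 3) (v / 3) := Or.inl rfl
  have e := eq_mk m hm v _ 0 _ hk (by omega) s0 rfl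
  have : (v : ℕ) % 3 = 0 ∨ (v : ℕ) % 3 = 1 ∨ (v : ℕ) % 3 = 2 := by omega
  rcases this with h | h
  · rw [h] at e
    rw [e]
    exact ⟨_, adj_rim m hm _⟩
  · rw [e]
    exact ⟨_, adj_far m hm _ _ h⟩

/-- The negation of the preceding statement: For each c<4 there is N such that every graph with no isolated vertex, no good edge labeling, good labelings on all proper spanning subgraphs, and average degree below c has at most N vertices. -/
theorem result :
    ¬ (∀ c : ℝ, c < 4 → ∃ N : ℕ, ∀ (n : ℕ) (G : SimpleGraph (Fin n)),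
      (∀ v : Fin n, ∃ w : Fin n, G.Adj v w) →
      (¬ ∃ f : Fin n → Fin n → ℝ, (∀ a b : Fin n, f a b = f b a) ∧
          (∀ x y z w : Fin n, G.Adj x y → G.Adj z w → f x y = f z w →
              (x = z ∧ y = w) ∨ (x = w ∧ y = z)) ∧
          ∀ (u : Fin n) (p : G.Walk u u), p.IsCycle →
            ∃ i j : ℕ, i < p.length ∧ j < p.length ∧ i ≠ j ∧
              f (p.getVert ((i + 1) % p.length)) (p.getVert ((i + 1) % p.length + 1)) <
                f (p.getVert i) (p.getVert (i + 1)) ∧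
              f (p.getVert ((i + p.length - 1) % p.length))
                  (p.getVert ((i + p.length - 1) % p.length + 1)) <
                f (p.getVert i) (p.getVert (i + 1)) ∧
              f (p.getVert ((j + 1) % p.length)) (p.getVert ((j + 1) % p.length + 1)) <
                f (p.getVert j) (p.getVert (j + 1)) ∧
              f (p.getVert ((j + p.length - 1) % p.length))
                  (p.getVert ((j + p.length - 1) % p.length + 1)) <
                f (p.getVert j) (p.getVert (j + 1))) →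
      (∀ H : SimpleGraph (Fin n), H < G →
        ∃ f : Fin n → Fin n → ℝ, (∀ a b : Fin n, f a b = f b a) ∧
          (∀ x y z w : Fin n, H.Adj x y → H.Adj z w → f x y = f z w →
              (x = z ∧ y = w) ∨ (x = w ∧ y = z)) ∧
          ∀ (u : Fin n) (p : H.Walk u u), p.IsCycle →
            ∃ i j : ℕ, i < p.length ∧ j < p.length ∧ i ≠ j ∧
              f (p.getVert ((i + 1) % p.length)) (p.getVert ((i + 1) % p.length + 1)) <
                f (p.getVert i) (p.getVert (i + 1)) ∧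
              f (p.getVert ((i + p.length - 1) % p.length))
                  (p.getVert ((i + p.length - 1) % p.length + 1)) <
                f (p.getVert i) (p.getVert (i + 1)) ∧
              f (p.getVert ((j + 1) % p.length)) (p.getVert ((j + 1) % p.length + 1)) <
                f (p.getVert j) (p.getVert (j + 1)) ∧
              f (p.getVert ((j + p.length - 1) % p.length))
                  (p.getVert ((j + p.length - 1) % p.length + 1)) <
                f (p.getVert j) (p.getVert (j + 1))) →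
      2 * (G.edgeSet.ncard : ℝ) < c * (n : ℝ) → n ≤ N) := by
  intro H
  obtain ⟨N, hN⟩ := H (7 / 2) (by norm_num)
  have hm : 9 ≤ 2 * N + 9 := by omega
  have ho : (2 * N + 9) % 2 = 1 := by omega
  have := hN (3 * (2 * N + 9)) (gr _ hm) (noiso _ hm) (bad _ hm ho) (crit _ hm ho) (by
    have h := edges _ hm
    have h' : ((gr _ hm).edgeSet.ncard : ℝ) ≤ 5 * (2 * N + 9) := by exact_mod_cast h
    have : (0 : ℝ) ≤ N := Nat.cast_nonneg _
    push_cast
    linarith)
  omega

end Pool.Agent.S12322
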