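import Pool.Statements.S12348

set_option autoImplicit false
open Pool Pool.MP_f13a95_co

namespace Pool.Agent.S12348

def N : ℕ → ℤ
  | 0 => 1
  | k + 1 => (N k + k + 1) ^ 2 + (k + 1)

lemma N_pos (k : ℕ) : 1 ≤ N k := by
  cases k with
  | zero => simp [N]
  | succ k => simp only [N]; nlinarith [sq_nonneg (N k + k + 1), Int.natCast_nonneg k]

lemma N_succ (k : ℕ) : N k + k + 1 ≤ N (k + 1) := by
  have := N_pos k
  simp only [N]
  nlinarith [Int.natCast_nonneg k]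

lemma N_mono {j k : ℕ} (h : j ≤ k) : N j ≤ N k :=
  monotone_nat_of_le_succ (f := N) (fun k => by
    have := N_succ k
    have := Int.natCast_nonneg k
    omega) h

def U (y : ℤ) : Prop := |(y : ℝ) * √2 - (round ((y : ℝ) * √2) : ℝ)| < 1 / 4

lemma noAP (s : ℤ) (hs : s ≠ 0) : ∃ K : ℕ, ∀ y : ℤ, ¬ ∀ t : ℕ, t ≤ K → U (y + s * t) := by
  have hirr : Irrational ((s : ℝ) * √2) := irrational_sqrt_two.intCast_mul hs
  set δ : ℝ := (s : ℝ) * √2 - round ((s : ℝ) * √2) with hδ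
  have h0 : δ ≠ 0 := fun h => hirr.ne_int _ (sub_eq_zero.1 h)
  have h1 : |δ| ≤ 1 / 2 := abs_sub_round _
  obtain ⟨K, hK⟩ := exists_nat_gt (1 / |δ|)
  refine ⟨K, fun y h => ?_⟩
  let e : ℕ → ℝ := fun t => ((y + s * t : ℤ) : ℝ) * √2 - (round (((y + s * t : ℤ) : ℝ) * √2) : ℝ)
  have he : ∀ t, t ≤ K → e t = e 0 + t * δ := by
    intro t ht
    induction t with
    | zero => simp
    | succ t ih =>
      have a1 : |e t| < 1 / 4 := h t (by omega)
      have a2 : |e (t + 1)| < 1 / 4 := h (t + 1) ht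
      have a3 : e (t + 1) - e t - δ = ((round (((y + s * t : ℤ) : ℝ) * √2) + round ((s : ℝ) * √2)
          - round (((y + s * (t + 1 : ℕ) : ℤ) : ℝ) * √2) : ℤ) : ℝ) := by
        simp only [e, hδ]
        push_cast
        ring
      have a4 : |e (t + 1) - e t - δ| < 1 := by
        rw [abs_lt] at *
        rw [abs_le] at h1
        constructor <;> linarith
      rw [a3, ← Int.cast_abs, ← Int.cast_one, Int.cast_lt, Int.abs_lt_one_iff] at a4
      rw [a4] at a3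
      have := ih (by omega)
      push_cast at a3 ⊢
      linarith
  have a1 : |e 0| < 1 / 4 := h 0 (by omega)
  have a2 : |e K| < 1 / 4 := h K le_rfl
  have a3 : |(K : ℝ) * δ| < 1 / 2 := by
    have := he K le_rfl
    rw [abs_lt] at *
    constructor <;> linarith
  rw [abs_mul, Nat.abs_cast] at a3
  rw [div_lt_iff₀ (abs_pos.2 h0)] at hK
  linarith

def Rep (x y : ℤ) (k : ℕ) : Prop :=
  1 ≤ x ∧ x ≤ N k + k ∧ N (k + 1) ≤ y ∧ y ≤ N (k + 1) + (k + 1) ∧ U y

lemma Rep.lt {x y : ℤ} {k : ℕ} (h : Rep x y k) : x * y + (k + 1) < N (k + 2) := by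
  obtain ⟨a1, a2, a3, a4, -⟩ := h
  have b1 := N_succ k
  have b2 := N_pos k
  have : N (k + 2) = (N (k + 1) + (k + 1) + 1) ^ 2 + (k + 1 + 1) := by simp [N]
  have b3 : x * y ≤ (N (k + 1) + (k + 1) + 1) * (N (k + 1) + (k + 1) + 1) :=
    mul_le_mul (by omega) (by omega) (by omega) (by omega)
  nlinarith

lemma step {x y x' y' : ℤ} {k k' m : ℕ} (h : Rep x y k) (h' : Rep x' y' k') (hm : N (m + 1) ≤ x * y)
    (e : x' * y' = x * y + m) : x = x' := by
  have l1 := h.lt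
  have l2 := h'.lt
  have hk : m ≤ k := by
    by_contra hc
    have := N_mono (show k + 2 ≤ m + 1 by omega)
    omega
  obtain ⟨a1, a2, a3, a4, -⟩ := h
  obtain ⟨b1, b2, b3, b4, -⟩ := h'
  have p1 := N_pos (k + 1)
  have p2 := N_pos (k' + 1)
  have q1 : y ≤ x * y := le_mul_of_one_le_left (by omega) a1
  have q2 : y' ≤ x' * y' := le_mul_of_one_le_left (by omega) b1
  obtain rfl : k = k' := by
    rcases lt_trichotomy k k' with h | h | h
    · have := N_mono (show k + 2 ≤ k' + 1 by omega); omega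
    · exact h
    · have := N_mono (show k' + 2 ≤ k + 1 by omega); omega
  have p3 := N_pos k
  have hN : N (k + 1) = (N k + k + 1) ^ 2 + (k + 1) := by simp [N]
  have hm' : (m : ℤ) ≤ k := by exact_mod_cast hk
  have hk0 := Int.natCast_nonneg k
  have hm0 := Int.natCast_nonneg m
  by_contra hc
  rcases lt_or_gt_of_ne hc with h | h
  · have c1 : (x + 1) * y' ≤ x' * y' := mul_le_mul_of_nonneg_right (by omega) (by omega)
    have c2 : x * (y - y') ≤ (N k + k) * (N k + k) :=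
      (mul_le_mul_of_nonneg_left (show y - y' ≤ N k + k by omega) (by omega)).trans
        (mul_le_mul_of_nonneg_right a2 (by omega))
    nlinarith
  · have c1 : (x' + 1) * y ≤ x * y := mul_le_mul_of_nonneg_right (by omega) (by omega)
    have c2 : x' * (y' - y) ≤ (N k + k) * (N k + k) :=
      (mul_le_mul_of_nonneg_left (show y' - y ≤ N k + k by omega) (by omega)).trans
        (mul_le_mul_of_nonneg_right b2 (by omega))
    nlinarith

def T (i : ℕ) : Set ℤ := {n | ∃ k : ℕ, k % 2 = i ∧ N k ≤ n ∧ n ≤ N k + k}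

lemma hyp (i : ℕ) (hi : i < 2) : ∃ (d : ℕ) (α : Fin d → ℝ) (ε : ℝ) (n₀ : ℤ) (T' : Set ℤ), 0 < ε ∧
    (∀ L : ℕ, ∃ a : ℤ, ∀ k : ℕ, k < L → a + (k : ℤ) ∈ T') ∧
    ∀ n ∈ T', (∀ i : Fin d,
      |((n - n₀ : ℤ) : ℝ) * α i - (round (((n - n₀ : ℤ) : ℝ) * α i) : ℝ)| < ε) →
        n ∈ {n | n ∈ T i ∧ U n} :=
  ⟨1, fun _ => √2, 1 / 4, 0, T i, by norm_num,
    fun L => ⟨N (2 * L + i), fun k hk => ⟨2 * L + i, by omega, by omega, by omega⟩⟩,
    fun n hn h => ⟨hn, by simpa [U] using h 0⟩⟩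

lemma rep {b c : ℤ} (hb : b ∈ T 0 ∧ U b) (hc : c ∈ T 1 ∧ U c) :
    ∃ x y k, Rep x y k ∧ b * c = x * y := by
  obtain ⟨⟨j, j1, j2, j3⟩, ub⟩ := hb
  obtain ⟨⟨k, k1, k2, k3⟩, uc⟩ := hc
  have p1 := N_pos j
  have p2 := N_pos k
  rcases lt_trichotomy j k with h | h | h
  · obtain ⟨k, rfl⟩ : ∃ k', k = k' + 1 := ⟨k - 1, by omega⟩
    have := N_mono (show j ≤ k by omega)
    exact ⟨b, c, k, ⟨by omega, by omega, k2, by omega, uc⟩, rfl⟩
  · omega
  · obtain ⟨j, rfl⟩ : ∃ j', j = j' + 1 := ⟨j - 1, by omega⟩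
    have := N_mono (show k ≤ j by omega)
    exact ⟨c, b, j, ⟨by omega, by omega, j2, by omega, ub⟩, mul_comm _ _⟩

/-- The negation of the preceding statement: Suppose each of B and D contains the intersection of a translated Bohr neighbourhood with a set containing arbitrarily long intervals. Then the product set B·D contains (r + mℤ) ∩ T for some m ≥ 1, some r, and some T containing arbitrarily long intervals. -/
theorem result :
    ¬ (∀ B D : Set ℤ,
      (∃ (d : ℕ) (α : Fin d → ℝ) (ε : ℝ) (n₀ : ℤ) (T : Set ℤ), 0 < ε ∧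
        (∀ L : ℕ, ∃ a : ℤ, ∀ k : ℕ, k < L → a + (k : ℤ) ∈ T) ∧
        ∀ n ∈ T, (∀ i : Fin d,
          |((n - n₀ : ℤ) : ℝ) * α i - (round (((n - n₀ : ℤ) : ℝ) * α i) : ℝ)| < ε) → n ∈ B) →
      (∃ (d : ℕ) (α : Fin d → ℝ) (ε : ℝ) (n₀ : ℤ) (T : Set ℤ), 0 < ε ∧
        (∀ L : ℕ, ∃ a : ℤ, ∀ k : ℕ, k < L → a + (k : ℤ) ∈ T) ∧
        ∀ n ∈ T, (∀ i : Fin d,
          |((n - n₀ : ℤ) : ℝ) * α i - (round (((n - n₀ : ℤ) : ℝ) * α i) : ℝ)| < ε) → n ∈ D) →
      ∃ (m r : ℤ) (T : Set ℤ), 0 < m ∧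
        (∀ L : ℕ, ∃ a : ℤ, ∀ k : ℕ, k < L → a + (k : ℤ) ∈ T) ∧
        ∀ n ∈ T, n ≡ r [ZMOD m] → ∃ b ∈ B, ∃ c ∈ D, n = b * c) := by
  intro H
  obtain ⟨m, r, T', hm, h1, h2⟩ := H _ _ (hyp 0 (by norm_num)) (hyp 1 (by norm_num))
  obtain ⟨m, rfl⟩ := Int.eq_ofNat_of_zero_le hm.le
  have hm' : 0 < m := by exact_mod_cast hm
  choose K hK using fun s : ℕ => noAP ((s : ℤ) + 1) (by omega)
  set M : ℕ := (Finset.range m).sup K + 1 with hM
  set i0 : ℕ := (N (m + 1)).toNat with hi0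
  obtain ⟨a, ha⟩ := h1 (m * (i0 + M + 1))
  set w : ℕ := ((r - a) % m).toNat with hw
  have w1 : (w : ℤ) = (r - a) % m := Int.toNat_of_nonneg (Int.emod_nonneg _ hm.ne')
  have w2 : w < m := by
    have := Int.emod_lt_of_pos (r - a) hm
    omega
  have key : ∀ i : ℕ, i ≤ i0 + M → ∃ x y k, Rep x y k ∧ a + w + m * i = x * y := by
    intro i hi
    obtain ⟨b, hb, c, hc, e⟩ := h2 _ (ha (w + m * i) (by nlinarith)) (by
      push_cast
      rw [w1]
      have : (r - a) % m ≡ r - a [ZMOD m] := Int.mod_modEq _ _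
      have h3 : (m : ℤ) * i ≡ 0 [ZMOD m] := (Int.modEq_zero_iff_dvd).2 (dvd_mul_right _ _)
      simpa using (Int.ModEq.refl a).add (this.add h3))
    obtain ⟨x, y, k, r1, r2⟩ := rep hb hc
    refine ⟨x, y, k, r1, ?_⟩
    rw [← r2, ← e]
    push_cast
    ring
  have pos : 0 ≤ a + w := by
    obtain ⟨x, y, k, r1, r2⟩ := key 0 (by omega)
    have := N_pos (k + 1)
    have : 0 ≤ x * y := mul_nonneg (by linarith [r1.1]) (by linarith [r1.2.2.1])
    simp only [Nat.cast_zero, mul_zero, add_zero] at r2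
    omega
  choose! x y k r1 r2 using fun t (ht : t ≤ M) => key (i0 + t) (by omega)
  have st : ∀ t, t + 1 ≤ M → x (t + 1) * y (t + 1) = x t * y t + m := fun t ht => by
    rw [← r2 _ ht, ← r2 t (by omega)]
    push_cast
    ring
  have hx : ∀ t, t ≤ M → x t = x 0 := by
    intro t ht
    induction t with
    | zero => rfl
    | succ t ih =>
      rw [← ih (by omega)]
      refine (step (r1 t (by omega)) (r1 _ ht) ?_ (st t ht)).symm
      rw [← r2 t (by omega)]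
      have a1 : N (m + 1) ≤ i0 := Int.self_le_toNat _
      have a2 : ((i0 + t : ℕ) : ℤ) ≤ m * ((i0 + t : ℕ) : ℤ) :=
        le_mul_of_one_le_left (by omega) (by omega)
      omega
  have x1 : 1 ≤ x 0 := (r1 0 (by omega)).1
  have s1 : x 0 * (y 1 - y 0) = m := by
    have := st 0 (by omega)
    rw [hx (0 + 1) (by omega)] at this
    linarith
  have hy : ∀ t : ℕ, t ≤ M → y t = y 0 + (y 1 - y 0) * t := by
    intro t ht
    induction t with
    | zero => simp
    | succ t ih =>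
      have a1 := st t ht
      rw [hx _ ht, hx t (by omega), ← s1, ← mul_add] at a1
      rw [mul_left_cancel₀ (by omega) a1, ih (by omega)]
      push_cast
      ring
  have s2 : 0 < y 1 - y 0 := by
    by_contra hc
    nlinarith
  have s3 : y 1 - y 0 ≤ m := by nlinarith
  obtain ⟨s, hs⟩ : ∃ s : ℕ, y 1 - y 0 = s + 1 := ⟨(y 1 - y 0 - 1).toNat, by omega⟩
  have s4 : K s ≤ (Finset.range m).sup K := Finset.le_sup (Finset.mem_range.2 (by omega))
  refine hK s (y 0) fun t ht => ?_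
  rw [← hs, ← hy t (by omega)]
  exact (r1 t (by omega)).2.2.2.2

end Pool.Agent.S12348
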