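import Pool.Statements.S12383

set_option autoImplicit false
open Pool Pool.MP_f2f693_co

namespace Pool.Agent.S12383

/-- The sign character of the field with two elements. -/
def chi (a : ZMod 2) : ℤ := (-1 : ℤ) ^ a.val

lemma chi_add (a b : ZMod 2) : chi (a + b) = chi a * chi b := by
  revert a b; decide

lemma chi_zero : chi 0 = 1 := by decide

lemma chi_one : chi 1 = -1 := by decide

lemma chi_sum {ι : Type} (s : Finset ι) (g : ι → ZMod 2) :
    chi (∑ i ∈ s, g i) = ∏ i ∈ s, chi (g i) := by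
  classical
  induction s using Finset.induction_on with
  | empty => simp [chi_zero]
  | insert a s ha ih => rw [Finset.sum_insert ha, Finset.prod_insert ha, chi_add, ih]

lemma block (a b : ZMod 2) :
    |∑ p : ZMod 2 × ZMod 2, chi (p.1 * p.2 + (p.1 * a + p.2 * b))| = 2 := by
  revert a b; decide

/-- The Walsh transform. -/
def WW (m : ℕ) (f : (Fin m → ZMod 2) → ZMod 2) (y : Fin m → ZMod 2) : ℤ :=
  ∑ x : Fin m → ZMod 2, chi (f x + ∑ i, x i * y i)

lemma exists_bent (k : ℕ) :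
    ∃ f : (Fin (2 * k) → ZMod 2) → ZMod 2, ∀ y, |WW (2 * k) f y| = 2 ^ k := by
  have hc : Fintype.card (Fin (2 * k)) = Fintype.card (Fin k ⊕ Fin k) := by
    simp; ring
  let e : Fin (2 * k) ≃ Fin k ⊕ Fin k := Fintype.equivOfCardEq hc
  let E : (Fin k → ZMod 2 × ZMod 2) ≃ (Fin (2 * k) → ZMod 2) :=
    { toFun := fun u i => Sum.elim (fun j => (u j).1) (fun j => (u j).2) (e i)
      invFun := fun x j => (x (e.symm (Sum.inl j)), x (e.symm (Sum.inr j)))
      left_inv := by intro u; funext j; simp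
      right_inv := by
        intro x; funext i
        obtain ⟨z, rfl⟩ := e.symm.surjective i
        rcases z with j | j <;> simp }
  refine ⟨fun x => ∑ j : Fin k, x (e.symm (Sum.inl j)) * x (e.symm (Sum.inr j)), fun y => ?_⟩
  unfold WW
  rw [← E.sum_comp]
  have h1 : ∀ u : Fin k → ZMod 2 × ZMod 2,
      chi ((∑ j : Fin k, E u (e.symm (Sum.inl j)) * E u (e.symm (Sum.inr j))) + ∑ i, E u i * y i)
        = ∏ j : Fin k, chi ((u j).1 * (u j).2 +
            ((u j).1 * y (e.symm (Sum.inl j)) + (u j).2 * y (e.symm (Sum.inr j)))) := by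
    intro u
    rw [← chi_sum]
    congr 1
    rw [← e.symm.sum_comp, Fintype.sum_sum_type, Finset.sum_add_distrib, Finset.sum_add_distrib]
    simp [E]
  simp only [h1]
  have h2 := Finset.prod_univ_sum (fun _ : Fin k => (Finset.univ : Finset (ZMod 2 × ZMod 2)))
    (fun (j : Fin k) (p : ZMod 2 × ZMod 2) => chi (p.1 * p.2 +
            (p.1 * y (e.symm (Sum.inl j)) + p.2 * y (e.symm (Sum.inr j)))))
  rw [Fintype.piFinset_univ] at h2
  rw [← h2, Finset.abs_prod]
  simp only [block]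
  simp

lemma WW_shift (m : ℕ) (f : (Fin m → ZMod 2) → ZMod 2) (c y : Fin m → ZMod 2) :
    WW m (fun x => f x + ∑ i, x i * c i) y = WW m f (c + y) := by
  unfold WW
  refine Finset.sum_congr rfl fun x _ => ?_
  congr 1
  simp [mul_add, Finset.sum_add_distrib, add_assoc]

lemma WW_neg (m : ℕ) (f : (Fin m → ZMod 2) → ZMod 2) (y : Fin m → ZMod 2) :
    WW m (fun x => f x + 1) y = - WW m f y := by
  unfold WW
  rw [← Finset.sum_neg_distrib]
  refine Finset.sum_congr rfl fun x _ => ?_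
  rw [add_right_comm, chi_add, chi_one]; ring

/-- bent functions -/
def BB (m : ℕ) : Set ((Fin m → ZMod 2) → ZMod 2) := {f | ∀ y, |WW m f y| = 2 ^ (m / 2)}

lemma card_BB (k : ℕ) : 2 ^ (2 * k) ≤ (BB (2 * k)).ncard := by
  obtain ⟨f, hf⟩ := exists_bent k
  let g : (Fin (2 * k) → ZMod 2) → ((Fin (2 * k) → ZMod 2) → ZMod 2) :=
    fun c x => f x + ∑ i, x i * c i
  have hinj : Function.Injective g := by
    intro c d h
    funext i
    have := congrFun h (Pi.single i 1)
    simp only [g, add_right_inj] at this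
    simpa [Pi.single_apply] using this
  have hsub : Set.range g ⊆ BB (2 * k) := by
    rintro _ ⟨c, rfl⟩ y
    rw [WW_shift, hf]
    congr 1; omega
  have := Set.ncard_le_ncard hsub (Set.toFinite _)
  rw [Set.ncard_range_of_injective hinj] at this
  simpa using this

lemma card_X_le (m : ℕ) :
    ({g | ∃ f ∈ BB m, ∃ h ∈ BB m, g = f + h} : Set ((Fin m → ZMod 2) → ZMod 2)).ncard
      ≤ (BB m).ncard ^ 2 := by
  have : ({g | ∃ f ∈ BB m, ∃ h ∈ BB m, g = f + h} : Set ((Fin m → ZMod 2) → ZMod 2))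
      = (fun p : _ × _ => p.1 + p.2) '' (BB m ×ˢ BB m) := by
    ext g
    constructor
    · rintro ⟨f, hf, h, hh, rfl⟩
      exact ⟨(f, h), ⟨hf, hh⟩, rfl⟩
    · rintro ⟨⟨f, h⟩, ⟨hf, hh⟩, rfl⟩
      exact ⟨f, hf, h, hh, rfl⟩
  rw [this]
  refine (Set.ncard_image_le (Set.toFinite _)).trans ?_
  rw [Set.ncard_prod, sq]

lemma card_X_pos (m : ℕ) (h : 0 < (BB m).ncard) :
    0 < ({g | ∃ f ∈ BB m, ∃ h ∈ BB m, g = f + h} : Set ((Fin m → ZMod 2) → ZMod 2)).ncard := by
  rw [Set.ncard_pos (Set.toFinite _)] at h ⊢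
  obtain ⟨f, hf⟩ := h
  exact ⟨f + f, f, hf, f, hf, rfl⟩

lemma card_BI_le (m : ℕ) :
    ({t : Fin 4 → ((Fin m → ZMod 2) → ZMod 2) |
        (∀ i, t i ∈ BB m) ∧ ∀ y, ∏ i, WW m (t i) y = -(2 ^ (m / 2)) ^ 4}).ncard
      ≤ (BB m).ncard ^ 4 := by
  classical
  have hsub : ({t : Fin 4 → ((Fin m → ZMod 2) → ZMod 2) |
        (∀ i, t i ∈ BB m) ∧ ∀ y, ∏ i, WW m (t i) y = -(2 ^ (m / 2)) ^ 4})
      ⊆ ↑(Fintype.piFinset (fun _ : Fin 4 => (BB m).toFinset)) := by
    intro t ht
    simp only [Finset.mem_coe, Fintype.mem_piFinset, Set.mem_toFinset]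
    exact ht.1
  refine (Set.ncard_le_ncard hsub (Set.toFinite _)).trans ?_
  rw [Set.ncard_coe_finset, Fintype.card_piFinset, Set.ncard_eq_toFinset_card']
  simp

lemma card_BI_ge (m : ℕ) :
    (BB m).ncard ≤ ({t : Fin 4 → ((Fin m → ZMod 2) → ZMod 2) |
        (∀ i, t i ∈ BB m) ∧ ∀ y, ∏ i, WW m (t i) y = -(2 ^ (m / 2)) ^ 4}).ncard := by
  refine Set.ncard_le_ncard_of_injOn (fun f => ![f, f, f, fun x => f x + 1]) ?_ ?_ (Set.toFinite _)
  · intro f hf
    refine ⟨?_, ?_⟩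
    · intro i
      fin_cases i
      · exact hf
      · exact hf
      · exact hf
      · intro y
        have := hf y
        simp only [Fin.reduceFinMk, Matrix.cons_val]
        rw [WW_neg, abs_neg]; exact this
    · intro y
      rw [Fin.prod_univ_four]
      simp only [Matrix.cons_val]
      rw [WW_neg]
      have h := hf y
      have h4 : (WW m f y) ^ 4 = (2 ^ (m / 2)) ^ 4 := by
        rw [← h, ← abs_pow]
        exact (abs_of_nonneg (by positivity)).symm
      rw [← h4]; ring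
  · intro f _ g _ h
    exact congrFun h 0

lemma loglog_mono {a b : ℝ} (ha : 1 < a) (hab : a ≤ b) :
    Real.logb 2 (Real.logb 2 a) ≤ Real.logb 2 (Real.logb 2 b) := by
  have h1 : 0 < Real.logb 2 a := Real.logb_pos (by norm_num) ha
  exact Real.logb_le_logb_of_le (by norm_num) h1
    (Real.logb_le_logb_of_le (by norm_num) (by linarith) hab)

lemma loglog_pow4 {b : ℝ} (hb : 1 < b) :
    Real.logb 2 (Real.logb 2 (b ^ 4)) = 2 + Real.logb 2 (Real.logb 2 b) := by
  have h1 : 0 < Real.logb 2 b := Real.logb_pos (by norm_num) hb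
  rw [Real.logb_pow, Real.logb_mul (by norm_num) h1.ne']
  congr 1
  have : ((4 : ℕ) : ℝ) = 2 ^ 2 := by norm_num
  rw [this, Real.logb_pow]
  simp

lemma main (b L BI : ℕ → ℝ) (hb : Filter.Tendsto b Filter.atTop Filter.atTop)
    (hL : ∀ k, 1 < b k → b k ≤ L k ∧ L k ≤ b k ^ 4)
    (hI : ∀ k, b k ≤ BI k ∧ BI k ≤ b k ^ 4) :
    Filter.Tendsto
      (fun k : ℕ => Real.logb 2 (Real.logb 2 (L k)) / Real.logb 2 (Real.logb 2 (BI k)))
      Filter.atTop (nhds 1) := by
  have ht : Filter.Tendsto (fun k => Real.logb 2 (Real.logb 2 (b k))) Filter.atTop Filter.atTop :=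
    (Real.tendsto_logb_atTop (by norm_num)).comp ((Real.tendsto_logb_atTop (by norm_num)).comp hb)
  set t : ℕ → ℝ := fun k => Real.logb 2 (Real.logb 2 (b k)) with htdef
  have hinv : Filter.Tendsto (fun k => 2 / t k) Filter.atTop (nhds 0) :=
    ht.const_div_atTop 2
  have hup : Filter.Tendsto (fun k => 1 + 2 / t k) Filter.atTop (nhds 1) := by
    simpa using hinv.const_add 1
  have hlo : Filter.Tendsto (fun k => 1 - 2 / t k) Filter.atTop (nhds 1) := by
    simpa using hinv.const_sub 1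
  refine tendsto_of_tendsto_of_tendsto_of_le_of_le' hlo hup ?_ ?_
  · filter_upwards [hb.eventually_gt_atTop 1, ht.eventually_gt_atTop 0] with k h1 h2
    obtain ⟨a1, a2⟩ := hL k h1
    obtain ⟨c1, c2⟩ := hI k
    have l1 := loglog_mono h1 a1
    have i1 := loglog_mono h1 c1
    have i2 := loglog_mono (lt_of_lt_of_le h1 c1) c2
    rw [loglog_pow4 h1] at i2
    change t k ≤ _ at l1 i1
    change _ ≤ 2 + t k at i2
    rw [le_div_iff₀ (by linarith)]
    have h3 : 2 ≤ 2 / t k * Real.logb 2 (Real.logb 2 (BI k)) := by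
      rw [div_mul_eq_mul_div, le_div_iff₀ h2]; linarith
    nlinarith
  · filter_upwards [hb.eventually_gt_atTop 1, ht.eventually_gt_atTop 0] with k h1 h2
    obtain ⟨a1, a2⟩ := hL k h1
    obtain ⟨c1, c2⟩ := hI k
    have l2 := loglog_mono (lt_of_lt_of_le h1 a1) a2
    have i1 := loglog_mono h1 c1
    rw [loglog_pow4 h1] at l2
    change t k ≤ _ at i1
    change _ ≤ 2 + t k at l2
    rw [div_le_iff₀ (by linarith)]
    have h3 : 2 ≤ 2 / t k * Real.logb 2 (Real.logb 2 (BI k)) := by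
      rw [div_mul_eq_mul_div, le_div_iff₀ h2]; linarith
    nlinarith

/-- For m=2k: eventually ∣B_m∣^4/∣X_m∣>1, and loglog(∣B_m∣^4/∣X_m∣)/loglog(number of bent-iterative functions on m+2 variables) tends to 1 as k grows, logs base 2, counted via 4-tuples of bent functions with duals summing to 1. -/
theorem result :
  ∀ (W : (m : ℕ) → ((Fin m → ZMod 2) → ZMod 2) → (Fin m → ZMod 2) → ℤ),
    (∀ m f y, W m f y = ∑ x : Fin m → ZMod 2, (-1 : ℤ) ^ (f x + ∑ i, x i * y i).val) →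
  ∀ (B : (m : ℕ) → Set ((Fin m → ZMod 2) → ZMod 2)),
    (∀ m, B m = {f | ∀ y, |W m f y| = 2 ^ (m / 2)}) →
  ∀ (L : ℕ → ℝ),
    (∀ m, L m = ((B m).ncard : ℝ) ^ 4 /
      (({g | ∃ f ∈ B m, ∃ h ∈ B m, g = f + h} : Set ((Fin m → ZMod 2) → ZMod 2)).ncard : ℝ)) →
  ∀ (BI : ℕ → ℝ),
    (∀ m, BI m = (({t : Fin 4 → ((Fin m → ZMod 2) → ZMod 2) |
        (∀ i, t i ∈ B m) ∧ ∀ y, ∏ i, W m (t i) y = -(2 ^ (m / 2)) ^ 4}).ncard : ℝ)) →
  (∃ K : ℕ, ∀ k ≥ K, 1 < L (2 * k)) ∧
  Filter.Tendsto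
    (fun k : ℕ => Real.logb 2 (Real.logb 2 (L (2 * k))) / Real.logb 2 (Real.logb 2 (BI (2 * k))))
    Filter.atTop (nhds 1) := by
  intro W hW B hB L hL BI hBI
  have hW' : W = WW := by
    funext m f y; rw [hW]; rfl
  subst hW'
  have hB' : B = BB := by
    funext m; rw [hB]; rfl
  subst hB'
  have hLb : ∀ m, 1 < ((BB m).ncard : ℝ) →
      ((BB m).ncard : ℝ) ≤ L m ∧ L m ≤ ((BB m).ncard : ℝ) ^ 4 := by
    intro m h1
    have hp : 0 < (BB m).ncard := by
      have : (0 : ℝ) < ((BB m).ncard : ℝ) := by linarith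
      exact_mod_cast this
    have hx1 : (1 : ℝ) ≤ (({g | ∃ f ∈ BB m, ∃ h ∈ BB m, g = f + h} :
        Set ((Fin m → ZMod 2) → ZMod 2)).ncard : ℝ) := by
      exact_mod_cast card_X_pos m hp
    have hx2 : (({g | ∃ f ∈ BB m, ∃ h ∈ BB m, g = f + h} :
        Set ((Fin m → ZMod 2) → ZMod 2)).ncard : ℝ) ≤ ((BB m).ncard : ℝ) ^ 2 := by
      exact_mod_cast card_X_le m
    rw [hL]
    constructor
    · rw [le_div_iff₀ (by linarith)]
      have h0 : (0 : ℝ) < ((BB m).ncard : ℝ) := by linarith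
      calc _ ≤ ((BB m).ncard : ℝ) * ((BB m).ncard : ℝ) ^ 2 := by gcongr
        _ = ((BB m).ncard : ℝ) ^ 3 := by ring
        _ ≤ ((BB m).ncard : ℝ) ^ 4 := pow_le_pow_right₀ h1.le (by norm_num)
    · exact div_le_self (by positivity) hx1
  have hge : ∀ k : ℕ, ((k : ℝ) + 1) ≤ ((BB (2 * k)).ncard : ℝ) := by
    intro k
    have h1 := card_BB k
    have h2 : 2 * k < 2 ^ (2 * k) := Nat.lt_two_pow_self
    have : k + 1 ≤ (BB (2 * k)).ncard := by omega
    exact_mod_cast this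
  refine ⟨⟨1, fun k hk => ?_⟩, ?_⟩
  · have h1 : (1 : ℝ) < ((BB (2 * k)).ncard : ℝ) := by
      have := hge k
      have h2 : (1 : ℝ) ≤ k := by exact_mod_cast hk
      linarith
    exact lt_of_lt_of_le h1 (hLb _ h1).1
  · refine main (fun k => ((BB (2 * k)).ncard : ℝ)) (fun k => L (2 * k)) (fun k => BI (2 * k))
      ?_ (fun k h => hLb _ h) ?_
    · refine Filter.tendsto_atTop_mono hge ?_
      exact Filter.tendsto_atTop_add_const_right _ _ tendsto_natCast_atTop_atTop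
    · intro k
      simp only [hBI]
      constructor
      · exact_mod_cast card_BI_ge (2 * k)
      · exact_mod_cast card_BI_le (2 * k)

end Pool.Agent.S12383
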