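import Pool.Statements.S12603
import Pool.Agent.Lib.helper22.RivC

set_option autoImplicit false
open Pool Pool.MP_fd2cdc_co

namespace Pool.Agent.S12603

theorem wf_aux {P : Type} (r : P → P → Prop) [PartialOrder P] (n : ℕ)
    (hn : ∀ s : Set P, IsChain (· ≤ ·) s → s.encard ≤ (n : ℕ∞)) [IsTrans P r]
    (h1 : ∀ a b, r a b → a ≠ b) (h2 : ∀ a b, r a b → a ≤ b ∨ b ≤ a) : WellFounded r := by
  rw [wellFounded_iff_isEmpty_descending_chain]
  refine ⟨fun ⟨f, hf⟩ => ?_⟩
  have hr : ∀ k m, k < m → r (f m) (f k) := by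
    intro k m h
    induction h with
    | refl => exact hf k
    | step _ ih => exact _root_.trans (hf _) ih
  have hi : Function.Injective f := by
    intro k m h
    rcases lt_trichotomy k m with h' | h' | h'
    · exact absurd h.symm (h1 _ _ (hr k m h'))
    · exact h'
    · exact absurd h (h1 _ _ (hr m k h'))
  have := hn (Set.range f) (by
    rintro _ ⟨k, rfl⟩ _ ⟨m, rfl⟩ hne
    rcases lt_trichotomy k m with h' | h' | h'
    · exact (h2 _ _ (hr k m h')).symm
    · exact absurd (congrArg f h') hne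
    · exact h2 _ _ (hr m k h'))
  rw [(Set.infinite_range_of_injective hi).encard_eq] at this
  simp at this

/-- Every infinite poset with a uniform bound on chain sizes has an infinite antichain H such that each element is comparable to no element of H, exactly one element of H, or infinitely many elements of H. -/
theorem result :
    ∀ (P : Type) [PartialOrder P], Infinite P →
      (∃ n : ℕ, ∀ s : Set P, IsChain (· ≤ ·) s → s.encard ≤ (n : ℕ∞)) →
      ∃ H : Set P, H.Infinite ∧ IsAntichain (· ≤ ·) H ∧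
        ∀ x : P,
          ({h | h ∈ H ∧ (x ≤ h ∨ h ≤ x)}.encard = 0 ∨
           {h | h ∈ H ∧ (x ≤ h ∨ h ≤ x)}.encard = 1 ∨
           {h | h ∈ H ∧ (x ≤ h ∨ h ≤ x)}.Infinite) := by
  rintro P _ hP ⟨n, hn⟩
  haveI : WellFoundedLT P := ⟨wf_aux (· < ·) n hn (fun _ _ h => h.ne) fun _ _ h => Or.inl h.le⟩
  haveI : WellFoundedGT P := ⟨wf_aux (· > ·) n hn (fun _ _ h => h.ne') fun _ _ h => Or.inr h.le⟩
  obtain ⟨K, k1, k2⟩ := Pool.Agent.Lib.helper22.Riv.Ksys (P := P)
  let Γ : Pool.Agent.Lib.helper22.Riv.Sys P :=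
    ⟨fun x => {y | x ≤ y ∨ y ≤ x}, K, fun x => Or.inl le_rfl, fun x y h => h.symm, k1, k2⟩
  obtain ⟨S, h1, h2, h3⟩ := Γ.main
  refine ⟨S, h1, fun a ha b hb hab h => h2 a ha b hb hab (Or.inl h), fun x => ?_⟩
  by_cases h : Γ.Ob S x
  · exact Or.inr (Or.inr (h3 x h))
  · have : {h | h ∈ S ∧ (x ≤ h ∨ h ≤ x)}.Subsingleton := fun a ha b hb => by
      by_contra hab
      exact h ⟨a, ha.1, b, hb.1, hab, ha.2, hb.2⟩
    rcases this.eq_empty_or_singleton with h | ⟨a, h⟩
    · left; rw [h]; simp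
    · right; left; rw [h]; simp

end Pool.Agent.S12603
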