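import Pool.Statements.S12606
-- import your own Pool.Agent.* helpers here

set_option autoImplicit false
open scoped Classical
open Pool Pool.MP_fd346d_co

namespace Pool.Agent.S12606

inductive Two : Type
  | aa : Two
  | bb : Two
  deriving DecidableEq

instance : Fintype Two := ⟨{Two.aa, Two.bb}, fun z => by cases z <;> simp⟩

instance : PartialOrder Two where
  le a b := a = b
  le_refl _ := rfl
  le_trans _ _ _ h1 h2 := h1.trans h2
  le_antisymm _ _ h _ := h

instance : DecidableRel (fun a b : Two => a ≤ b) := fun a b => inferInstanceAs (Decidable (a = b))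

theorem two_le {P : Type} [PartialOrder P] (u v : P) (h1 : ¬ u ≤ v) (h2 : ¬ v ≤ u) (a : ℕ)
    (r : Fin a → P → P → Prop) (hr : ∀ i x y, r i x y ∨ r i y x)
    (h : ∀ x y, x ≤ y ↔ ∀ i, r i x y) : 2 ≤ a := by
  by_contra hlt
  have ha : a = 0 ∨ a = 1 := by omega
  rcases ha with rfl | rfl
  · exact h1 ((h u v).2 fun i => i.elim0)
  · rcases hr 0 u v with h3 | h3
    · exact h1 ((h u v).2 fun i => by rw [Subsingleton.elim i 0]; exact h3)
    · exact h2 ((h v u).2 fun i => by rw [Subsingleton.elim i 0]; exact h3)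

def t : Two → ℕ
  | Two.aa => 0
  | Two.bb => 1

def rk : Fin 2 → (Fin 2 × Fin 2) × Two → ℕ
  | 0, p => 4 * t p.2 + 2 * p.1.1 + p.1.2
  | 1, p => 4 * (1 - t p.2) + p.1.1 + 2 * p.1.2

def rkP : Fin 2 → Fin 2 × Fin 2 → ℕ
  | 0, p => 2 * p.1 + p.2
  | 1, p => p.1 + 2 * p.2

def rkQ : Fin 2 → Two → ℕ
  | 0, p => t p
  | 1, p => 1 - t p

/-- The negation of the preceding statement: For all posets P, Q with at least two elements and finite dimension, dim P + dim Q ≤ dim(P×Q) + b, where b counts the factors lacking a least or greatest element; dimension means the least number of linear orders whose intersection is the order. -/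
theorem result :
    ¬ (∀ (P Q : Type) [PartialOrder P] [PartialOrder Q], Nontrivial P → Nontrivial Q →
      (∃ d : ℕ, ∃ r : Fin d → P → P → Prop,
        (∀ i, (∀ x, r i x x) ∧ (∀ x y z, r i x y → r i y z → r i x z) ∧
          (∀ x y, r i x y → r i y x → x = y) ∧ (∀ x y, r i x y ∨ r i y x)) ∧
        ∀ x y, x ≤ y ↔ ∀ i, r i x y) →
      (∃ d : ℕ, ∃ r : Fin d → Q → Q → Prop,
        (∀ i, (∀ x, r i x x) ∧ (∀ x y z, r i x y → r i y z → r i x z) ∧
          (∀ x y, r i x y → r i y x → x = y) ∧ (∀ x y, r i x y ∨ r i y x)) ∧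
        ∀ x y, x ≤ y ↔ ∀ i, r i x y) →
      ∀ n : ℕ,
        (∃ r : Fin n → P × Q → P × Q → Prop,
          (∀ i, (∀ x, r i x x) ∧ (∀ x y z, r i x y → r i y z → r i x z) ∧
            (∀ x y, r i x y → r i y x → x = y) ∧ (∀ x y, r i x y ∨ r i y x)) ∧
          ∀ x y, x ≤ y ↔ ∀ i, r i x y) →
        ∃ a c : ℕ,
          a + c ≤ n + ((if (∃ x : P, ∀ y, x ≤ y) ∧ (∃ x : P, ∀ y, y ≤ x) then 0 else 1) +
                       (if (∃ x : Q, ∀ y, x ≤ y) ∧ (∃ x : Q, ∀ y, y ≤ x) then 0 else 1)) ∧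
          (∃ r : Fin a → P → P → Prop,
            (∀ i, (∀ x, r i x x) ∧ (∀ x y z, r i x y → r i y z → r i x z) ∧
              (∀ x y, r i x y → r i y x → x = y) ∧ (∀ x y, r i x y ∨ r i y x)) ∧
            ∀ x y, x ≤ y ↔ ∀ i, r i x y) ∧
          (∃ r : Fin c → Q → Q → Prop,
            (∀ i, (∀ x, r i x x) ∧ (∀ x y z, r i x y → r i y z → r i x z) ∧
              (∀ x y, r i x y → r i y x → x = y) ∧ (∀ x y, r i x y ∨ r i y x)) ∧
            ∀ x y, x ≤ y ↔ ∀ i, r i x y)) := by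
  intro H
  have h := H (Fin 2 × Fin 2) Two inferInstance ⟨⟨Two.aa, Two.bb, by decide⟩⟩
    ⟨2, fun i x y => rkP i x ≤ rkP i y, by
      refine ⟨fun i => ⟨fun x => le_rfl, fun x y z => le_trans, ?_, fun x y => le_total _ _⟩, ?_⟩
      · revert i; decide
      · simp only [Prod.le_def]; decide⟩
    ⟨2, fun i x y => rkQ i x ≤ rkQ i y, by
      refine ⟨fun i => ⟨fun x => le_rfl, fun x y z => le_trans, ?_, fun x y => le_total _ _⟩, ?_⟩
      · revert i; decide
      · decide⟩
    2 ⟨fun i x y => rk i x ≤ rk i y, by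
      refine ⟨fun i => ⟨fun x => le_rfl, fun x y z => le_trans, ?_, fun x y => le_total _ _⟩, ?_⟩
      · revert i; decide
      · simp only [Prod.le_def]; decide⟩
  obtain ⟨a, c, hac, ⟨r, hr, hr'⟩, ⟨s, hs, hs'⟩⟩ := h
  have ha := two_le ((0, 1) : Fin 2 × Fin 2) (1, 0) (by simp [Prod.le_def]) (by simp [Prod.le_def]) a r
    (fun i => (hr i).2.2.2) hr'
  have hc := two_le Two.aa Two.bb (by decide) (by decide) c s (fun i => (hs i).2.2.2) hs'
  rw [if_pos ⟨⟨⊥, fun y => bot_le⟩, ⟨⊤, fun y => le_top⟩⟩] at hac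
  split_ifs at hac <;> omega

end Pool.Agent.S12606
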