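import Pool.Statements.S12612

set_option autoImplicit false
open Pool Pool.MP_fd6c89_co

namespace Pool.Agent.S12612

/-- points: block, side, position in the pair -/
abbrev K (t : ℕ) : Type := Fin t × Bool × Bool

/-- a subset of the points which is split on every pair of side `s` -/
def enc (t : ℕ) (p : Bool × (Fin t → Bool × Bool × Bool)) : K t → Bool := fun a =>
  if a.2.1 = p.1 then xor (p.2 a.1).1 a.2.2
  else if a.2.2 then (p.2 a.1).2.1 else (p.2 a.1).2.2

abbrev W (t : ℕ) : Type := K t ⊕ Set.range (enc t)

def rel (t : ℕ) : W t → W t → Prop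
  | Sum.inl a, Sum.inr x => x.1 a = true
  | Sum.inr x, Sum.inl a => x.1 a = true
  | _, _ => False

def gr (t : ℕ) : SimpleGraph (W t) where
  Adj := rel t
  symm := ⟨by
    intro u v h
    cases u <;> cases v <;> simpa [rel] using h⟩
  loopless := ⟨by
    intro u
    cases u <;> simp [rel]⟩

def ind (p : Option Bool) (b : Bool) : ℕ := if p = some b then 1 else 0

def bn (b : Bool) : ℕ := if b = true then 1 else 0

lemma loc : ∀ p q : Option Bool, ∃ u : Bool × Bool × Bool, ∀ b : Bool,
    bn (if b then u.2.1 else u.2.2) + ind q b = bn (xor u.1 b) + ind p b := by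
  decide

lemma allsplit (t : ℕ) (c : Fin t × Bool → Bool) :
    (fun a : K t => xor (c (a.1, a.2.1)) a.2.2) ∈ Set.range (enc t) := by
  refine ⟨(false, fun j => (c (j, false), xor (c (j, true)) true, xor (c (j, true)) false)), ?_⟩
  funext a
  obtain ⟨j, s, b⟩ := a
  cases s <;> cases b <;> simp [enc]

lemma key (t : ℕ) (g h : Fin t × Bool → Option Bool) :
    ∃ x y : Set.range (enc t), ∀ a : K t,
      bn (x.1 a) + ind (h (a.1, a.2.1)) a.2.2 = bn (y.1 a) + ind (g (a.1, a.2.1)) a.2.2 := by
  choose u hu using loc
  refine ⟨⟨enc t (false, fun j => ((u (h (j, false)) (g (j, false))).1,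
      (u (g (j, true)) (h (j, true))).2.1, (u (g (j, true)) (h (j, true))).2.2)), ⟨_, rfl⟩⟩,
    ⟨enc t (true, fun j => ((u (g (j, true)) (h (j, true))).1,
      (u (h (j, false)) (g (j, false))).2.1, (u (h (j, false)) (g (j, false))).2.2)), ⟨_, rfl⟩⟩, ?_⟩
  rintro ⟨j, s, b⟩
  cases s
  · have := hu (h (j, false)) (g (j, false)) b
    simp only [enc]
    simp only [if_true, Bool.false_eq_true, if_false]
    omega
  · have := hu (g (j, true)) (h (j, true)) b
    simp only [enc]
    simp only [if_true, Bool.true_eq_false, if_false]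
    omega

lemma distinct (t : ℕ) (u v : W t) (huv : u ≠ v) :
    (gr t).neighborSet u ≠ (gr t).neighborSet v := by
  classical
  intro h
  have hh : ∀ w, rel t u w ↔ rel t v w := by
    intro w
    have := Set.ext_iff.mp h w
    simpa [gr] using this
  cases u with
  | inl a =>
    cases v with
    | inl a' =>
      obtain ⟨j, s, b⟩ := a
      obtain ⟨j', s', b'⟩ := a'
      have := hh (Sum.inr ⟨_, allsplit t (fun i => if i = (j, s) then !b else b')⟩)
      simp only [rel] at this
      by_cases hc : (j', s') = (j, s)
      · obtain ⟨rfl, rfl⟩ := Prod.mk.inj hc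
        have hb : b ≠ b' := by
          rintro rfl
          exact huv rfl
        cases b <;> cases b' <;> simp_all
      · simp only [if_true, hc, if_false] at this
        cases b <;> cases b' <;> simp_all
    | inr y =>
      obtain ⟨j, s, b⟩ := a
      have := hh (Sum.inr ⟨_, allsplit t (fun _ => !b)⟩)
      simp only [rel] at this
      cases b <;> simp_all
  | inr x =>
    cases v with
    | inl a =>
      obtain ⟨j, s, b⟩ := a
      have := hh (Sum.inr ⟨_, allsplit t (fun _ => !b)⟩)
      simp only [rel] at this
      cases b <;> simp_all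
    | inr y =>
      apply huv
      congr 1
      apply Subtype.ext
      funext a
      have := hh (Sum.inl a)
      simp only [rel] at this
      cases hx : x.1 a <;> cases hy : y.1 a <;> simp_all

lemma weight (t : ℕ) [Fintype (W t)] [DecidableEq (W t)] [DecidableRel (gr t).Adj]
    (c : W t → ℕ) (x : Set.range (enc t)) :
    ∑ u ∈ (gr t).neighborFinset (Sum.inr x), c u = ∑ a : K t, bn (x.1 a) * c (Sum.inl a) := by
  classical
  have h1 : (gr t).neighborFinset (Sum.inr x)
      = (Finset.univ.filter (fun a : K t => x.1 a = true)).image Sum.inl := by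
    ext w
    rw [SimpleGraph.mem_neighborFinset]
    cases w with
    | inl a => simp [gr, rel]
    | inr y => simp [gr, rel]
  rw [h1, Finset.sum_image (fun a _ b _ hab => Sum.inl_injective hab), Finset.sum_filter]
  apply Finset.sum_congr rfl
  intro a _
  unfold bn
  split_ifs <;> simp

lemma cardW (t : ℕ) [Fintype (W t)] : Fintype.card (W t) ≤ 4 * t + 2 * 8 ^ t := by
  classical
  have h1 : Fintype.card (W t) = Fintype.card (K t) + Fintype.card (Set.range (enc t)) := by
    rw [← Fintype.card_sum]
    convert rfl
  have h2 : Fintype.card (Set.range (enc t))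
      ≤ Fintype.card (Bool × (Fin t → Bool × Bool × Bool)) := Fintype.card_range_le _
  have h3 : Fintype.card (Bool × (Fin t → Bool × Bool × Bool)) = 2 * 8 ^ t := by simp
  have h4 : Fintype.card (K t) = 4 * t := by
    simp [K]
    ring
  omega

lemma bound (t : ℕ) [Fintype (W t)] [DecidableEq (W t)] [DecidableRel (gr t).Adj]
    (f : W t ≃ Fin (Fintype.card (W t)))
    (hf : Function.Injective
      (fun v : W t => ∑ u ∈ (gr t).neighborFinset v, ((f u : ℕ) + 1))) :
    3 ^ (t * 2) ≤ 4 * t * (4 * t + 2 * 8 ^ t) + 1 := by
  classical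
  let S : (Fin t × Bool → Option Bool) → ℕ := fun g =>
    ∑ a : K t, ind (g (a.1, a.2.1)) a.2.2 * ((f (Sum.inl a) : ℕ) + 1)
  have hS : Function.Injective S := by
    intro g h hgh
    obtain ⟨x, y, hxy⟩ := key t g h
    have e1 : ∑ a : K t, bn (x.1 a) * ((f (Sum.inl a) : ℕ) + 1) + S h
        = ∑ a : K t, bn (y.1 a) * ((f (Sum.inl a) : ℕ) + 1) + S g := by
      simp only [S]
      rw [← Finset.sum_add_distrib, ← Finset.sum_add_distrib]
      apply Finset.sum_congr rfl
      intro a _
      rw [← add_mul, ← add_mul, hxy a]
    have e2 : (Sum.inr x : W t) = Sum.inr y := by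
      apply hf
      simp only
      rw [weight t (fun u => (f u : ℕ) + 1) x, weight t (fun u => (f u : ℕ) + 1) y]
      omega
    have e3 : x = y := Sum.inr_injective e2
    subst e3
    funext i
    obtain ⟨j, s⟩ := i
    have a1 := hxy (j, s, false)
    have a2 := hxy (j, s, true)
    simp only at a1 a2
    have b1 : ind (h (j, s)) false = ind (g (j, s)) false := by omega
    have b2 : ind (h (j, s)) true = ind (g (j, s)) true := by omega
    revert b1 b2
    generalize h (j, s) = p
    generalize g (j, s) = q
    revert p q
    decide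
  have hB : ∀ g, S g ∈ Finset.range (4 * t * (4 * t + 2 * 8 ^ t) + 1) := by
    intro g
    rw [Finset.mem_range, Nat.lt_succ_iff]
    have h4 : Fintype.card (K t) = 4 * t := by
      simp [K]
      ring
    calc S g ≤ ∑ _a : K t, (4 * t + 2 * 8 ^ t) := by
          apply Finset.sum_le_sum
          intro a _
          have h1 : ind (g (a.1, a.2.1)) a.2.2 ≤ 1 := by
            unfold ind
            split_ifs <;> simp
          have h2 : (f (Sum.inl a) : ℕ) + 1 ≤ 4 * t + 2 * 8 ^ t :=
            le_trans (f (Sum.inl a)).2 (cardW t)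
          calc _ ≤ 1 * (4 * t + 2 * 8 ^ t) := Nat.mul_le_mul h1 h2
            _ = _ := one_mul _
      _ = 4 * t * (4 * t + 2 * 8 ^ t) := by
          rw [Finset.sum_const, Finset.card_univ, h4, smul_eq_mul]
  have := Finset.card_le_card_of_injOn (s := Finset.univ) S (fun g _ => hB g) (hS.injOn)
  simpa using this

/-- The negation of the preceding statement: For every finite simple graph, there is a bijective labeling of the vertices by 1..n making all neighbour-label sums distinct if and only if distinct vertices always have distinct open neighbourhoods. -/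
theorem result :
    ¬ (∀ (V : Type) [Fintype V] [DecidableEq V] (G : SimpleGraph V) [DecidableRel G.Adj],
      (∃ f : V ≃ Fin (Fintype.card V),
          Function.Injective
            (fun v : V => ∑ u ∈ G.neighborFinset v, ((f u : ℕ) + 1)))
        ↔ ∀ u v : V, u ≠ v → G.neighborSet u ≠ G.neighborSet v) := by
  classical
  intro H
  obtain ⟨f, hf⟩ := (H (W 60) (gr 60)).mpr (distinct 60)
  have := bound 60 f hf
  norm_num at this

end Pool.Agent.S12612
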