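import Pool.Statements.S12695
import Pool.Agent.Lib.helper5.Extral

set_option autoImplicit false
open Pool Pool.MP_072e03_gt

namespace Pool.Agent.S12695

/-- For an index set of size aleph-one, every continuous map from C_p of the Cantor cube into C_p of the Tychonoff cube (both with pointwise topology) has an image with a countable network. -/
theorem result :
    ∀ (I : Type), Cardinal.mk I = Cardinal.aleph 1 →
      ∀ φ : {f : (I → Bool) → ℝ // Continuous f} → {g : (I → unitInterval) → ℝ // Continuous g},
        Continuous φ →
          ∃ 𝒩 : Set (Set {g : (I → unitInterval) → ℝ // Continuous g}),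
            𝒩.Countable ∧
              ∀ x ∈ Set.range φ,
                ∀ U : Set {g : (I → unitInterval) → ℝ // Continuous g},
                  IsOpen U → x ∈ U →
                    ∃ N ∈ 𝒩, x ∈ N ∧ N ⊆ U ∩ Set.range φ := by
  exact fun I _ φ hφ => H5C.net_td φ hφ

end Pool.Agent.S12695
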