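import Pool.Statements.S12713
-- import your own Pool.Agent.* helpers here

set_option autoImplicit false
open Pool Pool.MP_08e409_gt

namespace Pool.Agent.S12713

section
open Set Filter Cardinal Topology

def II : Type := (Order.succ ℵ₀ : Cardinal.{0}).ord.ToType

noncomputable instance : LinearOrder II :=
  inferInstanceAs (LinearOrder (Order.succ ℵ₀ : Cardinal.{0}).ord.ToType)
instance : WellFoundedLT II :=
  inferInstanceAs (WellFoundedLT (Order.succ ℵ₀ : Cardinal.{0}).ord.ToType)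

lemma bdd_gen (c : Cardinal.{0}) (hc : c.IsRegular) (S : Set c.ord.ToType) (h : #S < c) :
    ∃ b, ∀ s ∈ S, s < b := by
  rw [← not_isCofinal_iff]
  intro hS
  have h1 := Order.cof_le hS
  rw [Ordinal.cof_toType, hc.cof_ord] at h1
  exact absurd h (not_lt.mpr h1)

lemma iio_gen (c : Cardinal.{0}) (i : c.ord.ToType) : #(Iio i) < c := by
  simpa using Cardinal.mk_Iio_lt i

lemma card_II : #II = Order.succ ℵ₀ := by
  unfold II; simp

lemma bddI (C : Set II) (hC : C.Countable) : ∃ i, ∀ c ∈ C, c < i := by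
  apply bdd_gen _ (Cardinal.isRegular_succ le_rfl) C
  rw [← Cardinal.le_aleph0_iff_set_countable] at hC
  exact Order.lt_succ_iff.mpr hC

lemma cIio (i : II) : (Iio i).Countable := by
  rw [← Cardinal.le_aleph0_iff_set_countable]
  exact Order.lt_succ_iff.mp (iio_gen _ i)

lemma cIic (i : II) : (Iic i).Countable := by
  rw [← Iio_insert]; exact (cIio i).insert i

lemma sel0 (S : (𝔠 : Cardinal.{0}).ord.ToType → Set ℝ) (hS : ∀ j, 𝔠 ≤ #(S j)) :
    ∃ s : (𝔠 : Cardinal.{0}).ord.ToType → ℝ, Function.Injective s ∧ ∀ j, s j ∈ S j := by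
  classical
  have h1 : ∀ (j : (𝔠 : Cardinal.{0}).ord.ToType) (r : Iio j → ℝ), ∃ x ∈ S j, x ∉ range r := by
    intro j r
    by_contra hc
    push Not at hc
    have h2 : #(S j) ≤ #(range r) := Cardinal.mk_le_mk_of_subset hc
    have h3 : #(range r) ≤ #(Iio j) := Cardinal.mk_range_le
    exact absurd ((hS j).trans (h2.trans h3)) (not_le.mpr (iio_gen _ j))
  choose c hc1 hc2 using h1
  let F : (i : (𝔠 : Cardinal.{0}).ord.ToType) → ((j : _) → j < i → ℝ) → ℝ :=
    fun i r => c i (fun j => r j.1 j.2)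
  let s : (𝔠 : Cardinal.{0}).ord.ToType → ℝ := WellFoundedLT.fix F
  have e : ∀ i, s i = c i (fun j => s j.1) := fun i => WellFoundedLT.fix_eq F i
  have hne : ∀ i j, j < i → s j ≠ s i := by
    intro i j hj h
    apply hc2 i (fun j => s j.1)
    rw [← e i]
    exact ⟨⟨j, hj⟩, h⟩
  refine ⟨s, ?_, fun j => by rw [e j]; exact hc1 _ _⟩
  intro i j h
  rcases lt_trichotomy i j with h1 | h1 | h1
  · exact absurd h (hne j i h1)
  · exact h1
  · exact absurd h.symm (hne i j h1)

lemma sel {J : Type} [Nonempty J] (hJ : #J ≤ 𝔠) (S : J → Set ℝ) (hS : ∀ j, 𝔠 ≤ #(S j)) :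
    ∃ s : J → ℝ, Function.Injective s ∧ ∀ j, s j ∈ S j := by
  have : #J ≤ #((𝔠 : Cardinal.{0}).ord.ToType) := by simpa using hJ
  obtain ⟨e⟩ := this
  obtain ⟨s, hs, hs2⟩ := sel0 (fun c => S (Function.invFun e c)) (fun _ => hS _)
  refine ⟨s ∘ e, hs.comp e.injective, fun j => ?_⟩
  have := hs2 (e j)
  rwa [Function.leftInverse_invFun e.injective j] at this

lemma card_closed : #{C : Set ℝ // IsClosed C ∧ ¬ C.Countable} ≤ 𝔠 := by
  let φ : {C : Set ℝ // IsClosed C ∧ ¬ C.Countable} → Set (TopologicalSpace.countableBasis ℝ) :=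
    fun C => {U | (U : Set ℝ) ⊆ C.1ᶜ}
  have hφ : Function.Injective φ := by
    have key : ∀ C D, φ C = φ D → C.1ᶜ ⊆ D.1ᶜ := by
      intro C D h x hx
      obtain ⟨U, hU, hxU, hUC⟩ :=
        (TopologicalSpace.isBasis_countableBasis ℝ).exists_subset_of_mem_open hx
          C.2.1.isOpen_compl
      have : (⟨U, hU⟩ : TopologicalSpace.countableBasis ℝ) ∈ φ C := hUC
      rw [h] at this
      exact this hxU
    intro C D h
    apply Subtype.ext
    exact compl_injective (Subset.antisymm (key C D h) (key D C h.symm))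
  have h1 := Cardinal.mk_le_of_injective hφ
  rw [Cardinal.mk_set] at h1
  refine h1.trans ?_
  rw [← Cardinal.two_power_aleph0]
  apply Cardinal.power_le_power_left two_ne_zero
  exact Cardinal.le_aleph0_iff_set_countable.mpr (TopologicalSpace.countable_countableBasis ℝ)

lemma exists_b : ∃ b : II → ℝ, Function.Injective b ∧
    ∀ C : Set ℝ, IsClosed C → C ⊆ range b → C.Countable := by
  obtain ⟨z, _⟩ := bddI ∅ countable_empty
  haveI : Nonempty ({C : Set ℝ // IsClosed C ∧ ¬ C.Countable} ⊕ II) := ⟨Sum.inr z⟩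
  have hJ : #({C : Set ℝ // IsClosed C ∧ ¬ C.Countable} ⊕ II) ≤ 𝔠 := by
    rw [Cardinal.mk_sum, Cardinal.lift_id, Cardinal.lift_id]
    apply Cardinal.add_le_of_le Cardinal.aleph0_le_continuum card_closed
    rw [card_II]; exact Order.succ_le_of_lt Cardinal.aleph0_lt_continuum
  obtain ⟨s, hs, hs2⟩ := sel hJ (Sum.elim (fun C => C.1) (fun _ => univ)) (by
    rintro (C | i)
    · obtain ⟨f, hf, -, hi⟩ := C.2.1.exists_nat_bool_injection_of_not_countable C.2.2
      have h1 : #(range f) ≤ #C.1 := Cardinal.mk_le_mk_of_subset hf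
      rw [Cardinal.mk_range_eq f hi] at h1
      simpa using h1
    · simp [Cardinal.mk_real])
  refine ⟨fun i => s (Sum.inr i), fun i j h => Sum.inr_injective (hs h), ?_⟩
  intro C hC hsub
  by_contra hc
  obtain ⟨i, hi⟩ := hsub (hs2 (Sum.inl ⟨C, hC, hc⟩))
  exact absurd (hs hi) Sum.inr_ne_inl

lemma exists_A : ∃ A : Set ℝ, ¬ A.Countable ∧ ∀ C : Set ℝ, IsClosed C → C ⊆ A → C.Countable := by
  obtain ⟨b, hb, hC⟩ := exists_b
  refine ⟨range b, fun h => ?_, hC⟩
  obtain ⟨i, hi⟩ := bddI univ (by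
    have := h.preimage_of_injOn (f := b) hb.injOn
    rwa [preimage_range] at this)
  exact lt_irrefl _ (hi i (mem_univ _))

def XS (A : Set ℝ) : Set (ℝ × (ℝ → Bool)) := {p | p.1 ∈ A → p.2 p.1 = false}

def Q (A : Set ℝ) (t : ℝ) : Set (ℝ → Bool) := {y | t ∈ A → y t = false}

lemma Q_clopen (A : Set ℝ) (t : ℝ) : IsClopen (Q A t) := by
  by_cases h : t ∈ A
  · have : Q A t = (fun y : ℝ → Bool => y t) ⁻¹' {false} := by
      ext y; simp [Q, h]
    rw [this]
    exact (isClopen_discrete _).preimage (continuous_apply t)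
  · have : Q A t = Set.univ := by
      ext y; simp [Q, h]
    rw [this]; exact isClopen_univ

def K (A : Set ℝ) (t : ℝ) : Set (XS A) := {p | p.1.1 = t}

lemma K_img (A : Set ℝ) (t : ℝ) : Subtype.val '' K A t = {t} ×ˢ Q A t := by
  ext ⟨s, y⟩
  constructor
  · rintro ⟨⟨⟨s', y'⟩, hp⟩, h1, h2⟩
    simp only [Prod.mk.injEq] at h2
    obtain ⟨rfl, rfl⟩ := h2
    have h3 : s' = t := h1
    subst h3
    exact ⟨rfl, hp⟩
  · rintro ⟨h1, h2⟩
    have h3 : s = t := h1
    subst h3
    exact ⟨⟨(s, y), h2⟩, rfl, rfl⟩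

lemma K_compact (A : Set ℝ) (t : ℝ) : IsCompact (K A t) := by
  rw [Subtype.isCompact_iff, K_img]
  exact isCompact_singleton.prod (Q_clopen A t).isClosed.isCompact

lemma tube (A : Set ℝ) (t : ℝ) (O : Set (XS A)) (hO : IsOpen O) (h : K A t ⊆ O) :
    ∃ ε > 0, ∀ p : XS A, dist p.1.1 t < ε → p.1.2 ∈ Q A t → p ∈ O := by
  obtain ⟨O', hO', rfl⟩ := isOpen_induced_iff.mp hO
  have h1 : ({t} : Set ℝ) ×ˢ Q A t ⊆ O' := by
    rw [← K_img]
    rintro _ ⟨p, hp, rfl⟩
    exact h hp
  obtain ⟨u, v, hu, -, htu, hv, huv⟩ := generalized_tube_lemma isCompact_singleton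
    (Q_clopen A t).isClosed.isCompact hO' h1
  obtain ⟨ε, hε, hb⟩ := Metric.isOpen_iff.mp hu t (htu rfl)
  exact ⟨ε, hε, fun p hp hq => huv ⟨hb hp, hv hq⟩⟩

lemma K_cg (A : Set ℝ) (t : ℝ) : (nhdsSet (K A t)).IsCountablyGenerated := by
  have hb : (nhdsSet (K A t)).HasBasis (fun _ : ℕ => True)
      (fun n => {p : XS A | dist p.1.1 t < 1 / ((n : ℝ) + 1) ∧ p.1.2 ∈ Q A t}) := by
    constructor
    intro S
    rw [mem_nhdsSet_iff_exists]
    constructor
    · rintro ⟨O, hO, h1, h2⟩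
      obtain ⟨ε, hε, h⟩ := tube A t O hO h1
      obtain ⟨n, hn⟩ := exists_nat_one_div_lt hε
      exact ⟨n, trivial, fun p hp => h2 (h p (hp.1.trans hn) hp.2)⟩
    · rintro ⟨n, -, hn⟩
      refine ⟨_, ?_, ?_, hn⟩
      · apply IsOpen.inter
        · exact isOpen_lt ((continuous_fst.comp continuous_subtype_val).dist continuous_const)
            continuous_const
        · exact (Q_clopen A t).isOpen.preimage (continuous_snd.comp continuous_subtype_val)
      · intro p hp
        have h3 : p.1.1 = t := hp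
        refine ⟨by rw [h3, dist_self]; positivity, ?_⟩
        intro ht
        rw [← h3] at ht ⊢
        exact p.2 ht
  exact HasCountableBasis.isCountablyGenerated ⟨hb, Set.to_countable _⟩

lemma lind (A : Set ℝ) (hC : ∀ C : Set ℝ, IsClosed C → C ⊆ A → C.Countable) :
    LindelofSpace (XS A) := by
  constructor
  apply isLindelof_of_countable_subcover
  intro ι U hU hcov
  have h1 : ∀ t, ∃ r : Finset ι, K A t ⊆ ⋃ i ∈ r, U i := fun t =>
    (K_compact A t).elim_finite_subcover U hU ((subset_univ _).trans hcov)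
  choose r hr using h1
  have h2 := fun t => tube A t _ (isOpen_biUnion (fun i _ => hU i)) (hr t)
  choose ε hε h3 using h2
  obtain ⟨T, hT, hTU⟩ := TopologicalSpace.isOpen_iUnion_countable
    (fun t : (Aᶜ : Set ℝ) => Metric.ball t.1 (ε t.1)) (fun _ => Metric.isOpen_ball)
  have h4 : (⋃ t : (Aᶜ : Set ℝ), Metric.ball t.1 (ε t.1))ᶜ.Countable := by
    apply hC _ (isOpen_iUnion (fun _ => Metric.isOpen_ball)).isClosed_compl
    intro t ht
    by_contra h
    exact ht (mem_iUnion.mpr ⟨⟨t, h⟩, Metric.mem_ball_self (hε t)⟩)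
  refine ⟨⋃ t ∈ (Subtype.val '' T ∪ (⋃ t : (Aᶜ : Set ℝ), Metric.ball t.1 (ε t.1))ᶜ),
    (r t : Set ι), ((hT.image _).union h4).biUnion (fun t _ => (r t).countable_toSet),
    fun p _ => ?_⟩
  by_cases hp : p.1.1 ∈ ⋃ t : (Aᶜ : Set ℝ), Metric.ball t.1 (ε t.1)
  · rw [← hTU] at hp
    simp only [mem_iUnion] at hp
    obtain ⟨t, ht, hpt⟩ := hp
    have := h3 t.1 p hpt (fun h => absurd h t.2)
    simp only [mem_iUnion] at this ⊢
    obtain ⟨i, hi, hpi⟩ := this
    exact ⟨i, ⟨t.1, Or.inl ⟨t, ht, rfl⟩, hi⟩, hpi⟩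
  · have := hr p.1.1 (show p ∈ K A p.1.1 from rfl)
    simp only [mem_iUnion] at this ⊢
    obtain ⟨i, hi, hpi⟩ := this
    exact ⟨i, ⟨p.1.1, Or.inr hp, hi⟩, hpi⟩

lemma para (X : Type) [TopologicalSpace X] [RegularSpace X] [LindelofSpace X] [Nonempty X] :
    ParacompactSpace X := by
  classical
  constructor
  intro α s ho hc
  have h1 : ∀ x : X, ∃ a, ∃ V : Set X, IsOpen V ∧ x ∈ V ∧ closure V ⊆ s a := by
    intro x
    obtain ⟨a, ha⟩ := mem_iUnion.mp (hc.symm ▸ mem_univ x : x ∈ ⋃ a, s a)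
    obtain ⟨C, hC, hCc, hCs⟩ := exists_mem_nhds_isClosed_subset ((ho a).mem_nhds ha)
    exact ⟨a, interior C, isOpen_interior, mem_interior_iff_mem_nhds.mpr hC,
      (closure_minimal interior_subset hCc).trans hCs⟩
  choose a V hV hxV hVs using h1
  obtain ⟨T, hT, hTc⟩ := (isLindelof_univ (X := X)).elim_countable_subcover V hV
    (fun x _ => mem_iUnion.mpr ⟨x, hxV x⟩)
  have hne : T.Nonempty := by
    obtain ⟨x⟩ := ‹Nonempty X›
    have := hTc (mem_univ x)
    simp only [mem_iUnion] at this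
    obtain ⟨y, hy, -⟩ := this
    exact ⟨y, hy⟩
  obtain ⟨g, hg⟩ := hT.exists_eq_range hne
  have hcov : ∀ x, ∃ n, x ∈ V (g n) := by
    intro x
    have := hTc (mem_univ x)
    simp only [mem_iUnion] at this
    obtain ⟨y, hy, hxy⟩ := this
    rw [hg] at hy
    obtain ⟨n, rfl⟩ := hy
    exact ⟨n, hxy⟩
  refine ⟨ℕ, fun n => s (a (g n)) \ ⋃ m ∈ Iio n, closure (V (g m)), fun n => ?_, ?_, ?_,
    fun n => ⟨a (g n), fun x hx => hx.1⟩⟩
  · exact (ho _).sdiff ((finite_Iio n).isClosed_biUnion (fun _ _ => isClosed_closure))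
  · apply eq_univ_of_forall
    intro x
    have h : ∃ n, x ∈ s (a (g n)) := (hcov x).imp (fun n hn => hVs _ (subset_closure hn))
    refine mem_iUnion.mpr ⟨Nat.find h, Nat.find_spec h, ?_⟩
    simp only [mem_iUnion, not_exists]
    intro m hm hx
    exact Nat.find_min h hm (hVs _ hx)
  · intro x
    obtain ⟨m, hm⟩ := hcov x
    refine ⟨V (g m), (hV _).mem_nhds hm, (finite_Iic m).subset ?_⟩
    rintro n ⟨y, hy1, hy2⟩
    by_contra hn
    exact hy1.2 (mem_biUnion (show m < n from lt_of_not_ge hn) (subset_closure hy2))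

def o (A : Set ℝ) (s : ℝ) : XS A := ⟨(s, fun _ => false), fun _ => rfl⟩

lemma o_cont (A : Set ℝ) : Continuous (o A) :=
  Continuous.subtype_mk (continuous_id.prodMk continuous_const) _

lemma fin_supp (A : Set ℝ) (s : ℝ) (N : Set (XS A)) (hN : N ∈ 𝓝 (o A s)) :
    ∃ F : Set ℝ, F.Finite ∧ ∀ p : XS A, p.1.1 = s → (∀ c ∈ F, p.1.2 c = false) → p ∈ N := by
  obtain ⟨M, hM, hMN⟩ := (mem_nhds_subtype _ _ _).mp hN
  obtain ⟨u, hu, v, hv, huv⟩ := mem_nhds_prod_iff.mp hM
  rw [nhds_pi, Filter.mem_pi] at hv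
  obtain ⟨F, hF, w, hw, hwv⟩ := hv
  refine ⟨F, hF, fun p hp h => hMN (huv ⟨?_, hwv ?_⟩)⟩
  · rw [hp]; exact mem_of_mem_nhds hu
  · intro c hc
    rw [h c hc]
    exact mem_of_mem_nhds (hw c)

lemma noperf (A : Set ℝ) (hA : ¬ A.Countable) (Y : Type) [TopologicalSpace Y]
    [FirstCountableTopology Y] (f : XS A → Y) (hf : Continuous f) (hc : IsClosedMap f)
    (hk : ∀ y : Y, IsCompact (f ⁻¹' {y})) : False := by
  classical
  have h1 : ∀ s, ∃ C : Set ℝ, C.Countable ∧
      ∀ p : XS A, p.1.1 = s → (∀ c ∈ C, p.1.2 c = false) → f p = f (o A s) := by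
    intro s
    obtain ⟨V, hV⟩ := (𝓝 (f (o A s))).exists_antitone_basis
    choose F hF h using fun n => fin_supp A s (f ⁻¹' V n) (hf.continuousAt (hV.mem n))
    refine ⟨⋃ n, F n, countable_iUnion (fun n => (hF n).countable), fun p hp hpc => ?_⟩
    by_contra hne
    have hcl : IsClosed (f '' {p}) := hc _ isClosed_singleton
    have : (f '' {p})ᶜ ∈ 𝓝 (f (o A s)) := hcl.isOpen_compl.mem_nhds (by
      simp only [image_singleton, mem_compl_iff, mem_singleton_iff]
      exact fun h => hne h.symm)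
    obtain ⟨n, hn⟩ := hV.mem_iff.mp this
    exact hn (h n p hp (fun c hc => hpc c (mem_iUnion.mpr ⟨n, hc⟩))) ⟨p, rfl, rfl⟩
  choose C hC h2 using h1
  have h3 : ∀ r ∈ A, ∃ ε > 0, ∀ s, dist s r < ε → s ≠ r → r ∈ C s := by
    intro r hr
    have hcl : IsClosed {p : XS A | p.1.2 r = true} :=
      isClosed_eq ((continuous_apply r).comp (continuous_snd.comp continuous_subtype_val))
        continuous_const
    have hK : IsCompact ((fun p : XS A => p.1.1) '' (f ⁻¹' {f (o A r)} ∩ {p | p.1.2 r = true})) :=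
      ((hk _).inter_right hcl).image (continuous_fst.comp continuous_subtype_val)
    obtain ⟨δ, hδ, hb⟩ := Metric.isOpen_iff.mp hK.isClosed.isOpen_compl r (by
      rintro ⟨p, ⟨-, h5⟩, h6⟩
      have h7 : p.1.1 = r := h6
      have h8 := p.2 (h7 ▸ hr)
      rw [h7] at h8
      have h9 : p.1.2 r = true := h5
      rw [h8] at h9
      exact absurd h9 (by simp))
    have hH : IsClosed ({p : XS A | p.1.2 r = true} ∩ {p | dist p.1.1 r ≤ δ / 2}) :=
      hcl.inter (isClosed_le (by fun_prop) continuous_const)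
    have h5 : IsOpen ((f ∘ o A) ⁻¹'
        (f '' ({p : XS A | p.1.2 r = true} ∩ {p | dist p.1.1 r ≤ δ / 2}))ᶜ) :=
      (hc _ hH).isOpen_compl.preimage (hf.comp (o_cont A))
    obtain ⟨ε, hε, hb2⟩ := Metric.isOpen_iff.mp h5 r (by
      rintro ⟨p, ⟨h6, h7⟩, h8⟩
      exact hb (show p.1.1 ∈ Metric.ball r δ from lt_of_le_of_lt h7 (half_lt_self hδ))
        ⟨p, ⟨h8, h6⟩, rfl⟩)
    refine ⟨min ε (δ / 2), lt_min hε (half_pos hδ), fun s hs hne => ?_⟩
    by_contra hrc
    let p : XS A := ⟨(s, fun c => decide (c = r)), fun _ => by simpa using hne⟩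
    have h6 : f p = f (o A s) := h2 s p rfl (fun c hc => by
      simp only [p, decide_eq_false_iff_not]
      rintro rfl
      exact hrc hc)
    exact hb2 (show s ∈ Metric.ball r ε from hs.trans_le (min_le_left _ _))
      ⟨p, ⟨by simp [p], (hs.trans_le (min_le_right _ _)).le⟩, h6⟩
  apply hA
  apply (countable_iUnion (fun q : ℚ => hC q)).mono
  intro r hr
  obtain ⟨ε, hε, h⟩ := h3 r hr
  obtain ⟨q, hq1, hq2⟩ := exists_rat_btwn (show r < r + ε by linarith)
  refine mem_iUnion.mpr ⟨q, h q ?_ hq1.ne'⟩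
  rw [Real.dist_eq, abs_lt]
  constructor <;> linarith

end

/-- There is a Hausdorff paracompact space in which every point lies in a compact set with a countable neighbourhood base, yet no continuous closed surjection with compact fibres maps it onto a first countable space. -/
theorem result :
    ∃ (X : Type) (_ : TopologicalSpace X),
      T2Space X ∧ ParacompactSpace X ∧
      (∀ x : X, ∃ K : Set X, IsCompact K ∧ x ∈ K ∧ (nhdsSet K).IsCountablyGenerated) ∧
      ¬ ∃ (Y : Type) (_ : TopologicalSpace Y), FirstCountableTopology Y ∧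
          ∃ f : X → Y, Continuous f ∧ IsClosedMap f ∧ Function.Surjective f ∧
            ∀ y : Y, IsCompact (f ⁻¹' {y}) := by
  obtain ⟨A, hA, hC⟩ := exists_A
  haveI := lind A hC
  haveI : Nonempty (XS A) := ⟨o A 0⟩
  refine ⟨XS A, inferInstance, inferInstance, para _,
    fun x => ⟨K A x.1.1, K_compact A _, rfl, K_cg A _⟩, ?_⟩
  rintro ⟨Y, _, _, f, hf, hc, -, hk⟩
  exact noperf A hA Y f hf hc hk

end Pool.Agent.S12713
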