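import Pool.Statements.S12748

set_option autoImplicit false
open Function
open Pool Pool.MP_0eaf94_gt

namespace Pool.Agent.S12748

section
open Set Filter Topology

def XS : Set (ℝ × ℝ × ℝ) :=
  {p | (p.1 = 0 ∨ p.1 = 1) ∧ ((0 ≤ p.2.1 ∧ p.2.1 ≤ 1 ∧ p.2.2 = 0) ∨
    (1 ≤ p.2.1 ∧ p.2.1 ≤ 2 ∧ 0 ≤ p.2.2 ∧ p.2.2 ≤ 1) ∨ (2 ≤ p.2.1 ∧ p.2.1 ≤ 3 ∧ p.2.2 = p.1))}

lemma isClosed_XS : IsClosed XS := by
  unfold XS
  simp only [setOf_and, setOf_or]
  refine IsClosed.inter (IsClosed.union ?_ ?_) (IsClosed.union (IsClosed.inter ?_ (IsClosed.inter ?_ ?_))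
    (IsClosed.union (IsClosed.inter ?_ (IsClosed.inter ?_ (IsClosed.inter ?_ ?_)))
      (IsClosed.inter ?_ (IsClosed.inter ?_ ?_))))
  all_goals first
    | exact isClosed_eq (by fun_prop) (by fun_prop)
    | exact isClosed_le (by fun_prop) (by fun_prop)

lemma isCompact_XS : IsCompact XS := by
  refine (isCompact_Icc (a := ((0:ℝ), (0:ℝ), (0:ℝ))) (b := ((1:ℝ), (3:ℝ), (1:ℝ)))).of_isClosed_subset
    isClosed_XS ?_
  rintro ⟨c, y, s⟩ ⟨h1, h2⟩
  simp only at h1 h2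
  simp only [mem_Icc, Prod.mk_le_mk]
  rcases h1 with rfl | rfl <;> rcases h2 with h | h | h <;>
    refine ⟨⟨?_, ?_, ?_⟩, ?_, ?_, ?_⟩ <;> linarith [h.1, h.2.1, h.2.2]

abbrev X : Type := ↥XS
abbrev Y : Type := ↥(Icc (0:ℝ) 3)

instance : CompactSpace X := isCompact_iff_compactSpace.mp isCompact_XS

def cc (x : X) : ℝ := x.1.1
def yy (x : X) : ℝ := x.1.2.1
def ss (x : X) : ℝ := x.1.2.2

lemma cc_cont : Continuous cc := by unfold cc; fun_prop
lemma yy_cont : Continuous yy := by unfold yy; fun_prop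
lemma ss_cont : Continuous ss := by unfold ss; fun_prop

lemma X_ext {x x' : X} (h1 : cc x = cc x') (h2 : yy x = yy x') (h3 : ss x = ss x') : x = x' :=
  Subtype.ext (Prod.ext h1 (Prod.ext h2 h3))

lemma cc_mem (x : X) : cc x = 0 ∨ cc x = 1 := x.2.1

lemma X_mem (x : X) : (0 ≤ yy x ∧ yy x ≤ 1 ∧ ss x = 0) ∨
    (1 ≤ yy x ∧ yy x ≤ 2 ∧ 0 ≤ ss x ∧ ss x ≤ 1) ∨ (2 ≤ yy x ∧ yy x ≤ 3 ∧ ss x = cc x) := x.2.2

lemma yy_mem (x : X) : yy x ∈ Icc (0:ℝ) 3 := by
  rcases X_mem x with h | h | h <;> constructor <;> linarith [h.1, h.2.1]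

lemma ss_mem (x : X) : 0 ≤ ss x ∧ ss x ≤ 1 := by
  rcases cc_mem x with h' | h' <;> rcases X_mem x with h | h | h <;> constructor <;>
    linarith [h.1, h.2.1, h.2.2]

def f (x : X) : Y := ⟨yy x, yy_mem x⟩

lemma f_cont : Continuous f := yy_cont.subtype_mk _

lemma exists_pt (c : ℝ) (hc : c = 0 ∨ c = 1) (y : ℝ) (hy : y ∈ Icc (0:ℝ) 3) :
    ∃ x : X, cc x = c ∧ yy x = y := by
  rcases le_total y 1 with h | h
  · exact ⟨⟨(c, y, 0), hc, Or.inl ⟨hy.1, h, rfl⟩⟩, rfl, rfl⟩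
  rcases le_total y 2 with h' | h'
  · exact ⟨⟨(c, y, 0), hc, Or.inr (Or.inl ⟨h, h', le_rfl, zero_le_one⟩)⟩, rfl, rfl⟩
  · exact ⟨⟨(c, y, c), hc, Or.inr (Or.inr ⟨h', hy.2, rfl⟩)⟩, rfl, rfl⟩

lemma f_surj : Surjective f := by
  intro y
  obtain ⟨x, -, hx⟩ := exists_pt 0 (Or.inl rfl) y.1 y.2
  exact ⟨x, Subtype.ext hx⟩

lemma fold_mem (k : ℝ) (x : X) (hk : (k = 0 ∧ yy x ≤ 2) ∨ (k = 1 ∧ 1 ≤ yy x)) :
    ((0:ℝ), yy x, |ss x - k * cc x|) ∈ XS := by
  refine ⟨Or.inl rfl, ?_⟩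
  simp only
  have hs := ss_mem x
  rcases hk with ⟨rfl, hk⟩ | ⟨rfl, hk⟩
  · simp only [zero_mul, sub_zero, abs_of_nonneg hs.1]
    rcases X_mem x with h | h | h
    · exact Or.inl h
    · exact Or.inr (Or.inl h)
    · exact Or.inr (Or.inl ⟨by linarith [h.1], hk, hs.1, hs.2⟩)
  · have hb : |ss x - 1 * cc x| ≤ 1 := by
      rw [abs_le]
      rcases cc_mem x with h' | h' <;> constructor <;> linarith [hs.1, hs.2]
    rcases X_mem x with h | h | h
    · exact Or.inr (Or.inl ⟨hk, by linarith [h.2.1], abs_nonneg _, hb⟩)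
    · exact Or.inr (Or.inl ⟨hk, h.2.1, abs_nonneg _, hb⟩)
    · exact Or.inr (Or.inr ⟨h.1, h.2.1, by simp [h.2.2]⟩)

lemma unfold_mem (k c : ℝ) (hc : c = 0 ∨ c = 1) (x : X) (hx : cc x = 0)
    (hk : (k = 0 ∧ yy x ≤ 2) ∨ (k = 1 ∧ 1 ≤ yy x)) :
    (c, yy x, |ss x - k * c|) ∈ XS := by
  refine ⟨hc, ?_⟩
  simp only
  have hs := ss_mem x
  rcases hk with ⟨rfl, hk⟩ | ⟨rfl, hk⟩
  · simp only [zero_mul, sub_zero, abs_of_nonneg hs.1]
    rcases X_mem x with h | h | h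
    · exact Or.inl h
    · exact Or.inr (Or.inl h)
    · exact Or.inr (Or.inl ⟨by linarith [h.1], hk, hs.1, hs.2⟩)
  · have hb : |ss x - 1 * c| ≤ 1 := by
      rw [abs_le]
      rcases hc with h' | h' <;> constructor <;> linarith [hs.1, hs.2]
    rcases X_mem x with h | h | h
    · exact Or.inr (Or.inl ⟨hk, by linarith [h.2.1], abs_nonneg _, hb⟩)
    · exact Or.inr (Or.inl ⟨hk, h.2.1, abs_nonneg _, hb⟩)
    · refine Or.inr (Or.inr ⟨h.1, h.2.1, ?_⟩)
      rw [h.2.2, hx]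
      rcases hc with rfl | rfl <;> simp

lemma MO_of (F : Set Y) (hF : IsClosed F) (k : ℝ)
    (hk : ∀ y ∈ F, (k = 0 ∧ y.1 ≤ 2) ∨ (k = 1 ∧ 1 ≤ y.1)) :
    ∃ (Z : Type) (_ : MetricSpace Z) (_ : CompactSpace Z)
          (h : ↥(f ⁻¹' F) → Z) (g : Z → ↥F),
          Continuous h ∧ IsOpenMap h ∧ Surjective h ∧
          Continuous g ∧ Surjective g ∧ (∀ y, IsConnected (g ⁻¹' {y})) ∧
          ∀ x : ↥(f ⁻¹' F), ((g (h x) : ↥F) : Y) = f x := by
  let ZS : Set X := {x | f x ∈ F ∧ cc x = 0}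
  have hZ : IsClosed ZS := (hF.preimage f_cont).inter (isClosed_eq cc_cont continuous_const)
  let h : ↥(f ⁻¹' F) → ↥ZS := fun x =>
    ⟨⟨(0, yy x.1, |ss x.1 - k * cc x.1|), fold_mem k x.1 (hk _ x.2)⟩, x.2, rfl⟩
  let sec : (c : ℝ) → (c = 0 ∨ c = 1) → ↥ZS → ↥(f ⁻¹' F) := fun c hc z =>
    ⟨⟨(c, yy z.1, |ss z.1 - k * c|), unfold_mem k c hc z.1 z.2.2 (hk _ z.2.1)⟩, z.2.1⟩
  have hsec : ∀ c hc, RightInverse (sec c hc) h := by
    intro c hc z
    apply Subtype.ext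
    refine X_ext z.2.2.symm rfl ?_
    show abs (|ss z.1 - k * c| - k * c) = ss z.1
    have hs := ss_mem z.1
    rcases hk _ z.2.1 with ⟨rfl, -⟩ | ⟨rfl, -⟩
    · simp [abs_of_nonneg hs.1]
    · rcases hc with rfl | rfl
      · simp [abs_of_nonneg hs.1]
      · rw [abs_of_nonpos (show ss z.1 - 1 * 1 ≤ 0 by linarith [hs.2]),
          abs_of_nonpos (by linarith [hs.1])]
        ring
  have hsecc : ∀ c hc, Continuous (sec c hc) := by
    intro c hc
    refine Continuous.subtype_mk (Continuous.subtype_mk ?_ _) _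
    have h1 := yy_cont
    have h2 := ss_cont
    fun_prop
  refine ⟨↥ZS, inferInstance, isCompact_iff_compactSpace.mp hZ.isCompact, h,
    fun z => ⟨f z.1, z.2.1⟩, ?_, ?_, (hsec 0 (Or.inl rfl)).surjective, ?_, ?_, ?_, fun x => rfl⟩
  · refine Continuous.subtype_mk (Continuous.subtype_mk ?_ _) _
    have h1 := yy_cont
    have h2 := ss_cont
    have h3 := cc_cont
    fun_prop
  · refine IsOpenMap.of_sections fun x => ⟨sec (cc x.1) (cc_mem x.1), (hsecc _ (cc_mem x.1)).continuousAt,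
      ?_, hsec _ (cc_mem x.1)⟩
    apply Subtype.ext
    refine X_ext rfl rfl ?_
    show abs (|ss x.1 - k * cc x.1| - k * cc x.1) = ss x.1
    have hs := ss_mem x.1
    rcases hk _ x.2 with ⟨rfl, -⟩ | ⟨rfl, -⟩
    · simp [abs_of_nonneg hs.1]
    · rcases cc_mem x.1 with e | e <;> rw [e]
      · simp [abs_of_nonneg hs.1]
      · rw [abs_of_nonpos (show ss x.1 - 1 * 1 ≤ 0 by linarith [hs.2]),
          abs_of_nonpos (by linarith [hs.1])]
        ring
  · exact (f_cont.comp continuous_subtype_val).subtype_mk _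
  · intro y
    obtain ⟨x, hx0, hx⟩ := exists_pt 0 (Or.inl rfl) y.1.1 y.1.2
    have e : f x = y.1 := Subtype.ext hx
    exact ⟨⟨x, e ▸ y.2, hx0⟩, Subtype.ext e⟩
  · intro y
    have hind : IsInducing (fun z : ↥ZS => z.1.1) :=
      IsInducing.subtypeVal.comp IsInducing.subtypeVal
    obtain ⟨x, hx0, hx⟩ := exists_pt 0 (Or.inl rfl) y.1.1 y.1.2
    have e : f x = y.1 := Subtype.ext hx
    refine ⟨⟨⟨x, e ▸ y.2, hx0⟩, Subtype.ext e⟩, ?_⟩
    rw [← hind.isPreconnected_image]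
    by_cases hy : 1 ≤ y.1.1 ∧ y.1.1 ≤ 2
    · have : IsPreconnected ((fun t : ℝ => ((0:ℝ), y.1.1, t)) '' Icc 0 1) :=
        isPreconnected_Icc.image _ (by fun_prop)
      convert this using 1
      ext p
      constructor
      · rintro ⟨z, hz, rfl⟩
        have hz' : yy z.1 = y.1.1 := congrArg (fun w : ↥F => w.1.1) hz
        exact ⟨ss z.1, ss_mem _, Prod.ext z.2.2.symm (Prod.ext hz'.symm rfl)⟩
      · rintro ⟨t, ht, rfl⟩
        exact ⟨⟨⟨(0, y.1.1, t), Or.inl rfl, Or.inr (Or.inl ⟨hy.1, hy.2, ht.1, ht.2⟩)⟩, y.2, rfl⟩,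
          rfl, rfl⟩
    · apply Set.Subsingleton.isPreconnected
      have key : ∀ z : ↥ZS, yy z.1 = y.1.1 → ss z.1 = 0 := by
        intro z hz
        rcases X_mem z.1 with h | h | h
        · exact h.2.2
        · exact absurd ⟨hz ▸ h.1, hz ▸ h.2.1⟩ hy
        · exact h.2.2.trans z.2.2
      rintro _ ⟨z, hz, rfl⟩ _ ⟨w, hw, rfl⟩
      have hz' : yy z.1 = y.1.1 := congrArg (fun w : ↥F => w.1.1) hz
      have hw' : yy w.1 = y.1.1 := congrArg (fun w : ↥F => w.1.1) hw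
      exact congrArg Subtype.val (X_ext (z.2.2.trans w.2.2.symm) (hz'.trans hw'.symm)
        ((key z hz').trans (key w hw').symm))

noncomputable def base (c : ℝ) (hc : c = 0 ∨ c = 1) (y : ℝ) : X :=
  ⟨(c, (projIcc (0:ℝ) 2 (by norm_num) y : ℝ), 0), hc, by
    have h := (projIcc (0:ℝ) 2 (by norm_num) y).2
    rcases le_total (projIcc (0:ℝ) 2 (by norm_num) y : ℝ) 1 with h' | h'
    · exact Or.inl ⟨h.1, h', rfl⟩
    · exact Or.inr (Or.inl ⟨h', h.2, le_rfl, zero_le_one⟩)⟩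

noncomputable def vert (c : ℝ) (hc : c = 0 ∨ c = 1) (p : ℝ × ℝ) : X :=
  ⟨(c, (projIcc (1:ℝ) 2 (by norm_num) p.1 : ℝ), (projIcc (0:ℝ) 1 (by norm_num) p.2 : ℝ)), hc,
    Or.inr (Or.inl ⟨(projIcc (1:ℝ) 2 (by norm_num) p.1).2.1, (projIcc (1:ℝ) 2 (by norm_num) p.1).2.2,
      (projIcc (0:ℝ) 1 (by norm_num) p.2).2.1, (projIcc (0:ℝ) 1 (by norm_num) p.2).2.2⟩)⟩

noncomputable def tail (c : ℝ) (hc : c = 0 ∨ c = 1) (y : ℝ) : X :=
  ⟨(c, (projIcc (2:ℝ) 3 (by norm_num) y : ℝ), c), hc,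
    Or.inr (Or.inr ⟨(projIcc (2:ℝ) 3 (by norm_num) y).2.1, (projIcc (2:ℝ) 3 (by norm_num) y).2.2,
      rfl⟩)⟩

lemma base_cont (c hc) : Continuous (base c hc) :=
  Continuous.subtype_mk (continuous_const.prodMk
    ((continuous_subtype_val.comp continuous_projIcc).prodMk continuous_const)) _

lemma tail_cont (c hc) : Continuous (tail c hc) :=
  Continuous.subtype_mk (continuous_const.prodMk
    ((continuous_subtype_val.comp continuous_projIcc).prodMk continuous_const)) _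

lemma vert_cont (c hc) : Continuous (vert c hc) :=
  Continuous.subtype_mk (continuous_const.prodMk
    ((continuous_subtype_val.comp (continuous_projIcc.comp continuous_fst)).prodMk
      (continuous_subtype_val.comp (continuous_projIcc.comp continuous_snd)))) _

lemma yy_base (c hc) {y : ℝ} (hy : y ∈ Icc (0:ℝ) 2) : yy (base c hc y) = y := by
  simp [yy, base, projIcc_of_mem _ hy]

lemma yy_tail (c hc) {y : ℝ} (hy : y ∈ Icc (2:ℝ) 3) : yy (tail c hc y) = y := by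
  simp [yy, tail, projIcc_of_mem _ hy]

lemma yy_vert (c hc) {y : ℝ} (t : ℝ) (hy : y ∈ Icc (1:ℝ) 2) : yy (vert c hc (y, t)) = y := by
  simp [yy, vert, projIcc_of_mem _ hy]

lemma ss_vert (c hc) (y : ℝ) {t : ℝ} (ht : t ∈ Icc (0:ℝ) 1) : ss (vert c hc (y, t)) = t := by
  simp [ss, vert, projIcc_of_mem _ ht]

lemma not_MO {Z : Type} [MetricSpace Z] (h : X → Z) (g : Z → Y)
    (hc : Continuous h) (ho : IsOpenMap h) (hg : ∀ y, IsConnected (g ⁻¹' {y}))
    (hgf : ∀ x : X, g (h x) = f x) : False := by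
  have gh : ∀ x, (g (h x)).1 = yy x := fun x => by rw [hgf]; rfl
  have F0 : ∀ x x', h x = h x' → yy x = yy x' := fun x x' e => by rw [← gh, ← gh, e]
  let A : ℝ → ℝ → ℝ → Set Z := fun c y s => h '' {x | cc x = c ∧ yy x = y ∧ ss x ≤ s}
  let O : ℝ → ℝ → Set Z := fun c s => h '' {x | cc x = c ∧ ss x < s}
  have hA : ∀ c y s, IsClosed (A c y s) := fun c y s =>
    (((isClosed_eq cc_cont continuous_const).inter ((isClosed_eq yy_cont continuous_const).inter
      (isClosed_le ss_cont continuous_const))).isCompact.image hc).isClosed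
  have hO : ∀ c s, (c = 0 ∨ c = 1) → IsOpen (O c s) := by
    intro c s hc'
    apply ho
    have : {x : X | cc x = c ∧ ss x < s} = {x | |cc x - c| < 1} ∩ {x | ss x < s} := by
      ext x
      simp only [mem_setOf_eq, mem_inter_iff]
      refine and_congr_left fun _ => ⟨fun e => by simp [e], fun e => ?_⟩
      rcases cc_mem x with e1 | e1 <;> rcases hc' with e2 | e2 <;> rw [e1, e2] at e ⊢ <;>
        simp at e
    rw [this]
    exact (isOpen_lt ((cc_cont.sub continuous_const).abs) continuous_const).inter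
      (isOpen_lt ss_cont continuous_const)
  have hOA : ∀ c s z, z ∈ O c s → z ∈ A c (g z).1 s := by
    rintro c s _ ⟨x, hx, rfl⟩
    exact ⟨x, ⟨hx.1, (gh x).symm, hx.2.le⟩, rfl⟩
  have clopen : ∀ (y : ℝ) (K U : Set Z), IsClosed K → IsOpen U → K ⊆ U →
      (∀ z ∈ U, (g z).1 = y → z ∈ K) → ∀ z ∈ K, (g z).1 = y → ∀ w, (g w).1 = y → w ∈ K := by
    intro y K U hK hU hKU hUK z hz hzy w hw
    by_contra hwK
    have hw' : w ∈ g ⁻¹' {g z} := Subtype.ext (hw.trans hzy.symm)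
    obtain ⟨v, hv, hv1, hv2⟩ := (hg (g z)).isPreconnected U Kᶜ hU hK.isOpen_compl
      (fun v _ => by
        by_cases e : v ∈ K
        · exact Or.inl (hKU e)
        · exact Or.inr e) ⟨z, rfl, hKU hz⟩ ⟨w, hw', hwK⟩
    exact hv2 (hUK v hv1 ((congrArg Subtype.val hv).trans hzy))
  have surj : ∀ c, (c = 0 ∨ c = 1) → ∀ x : X, ∃ w, cc w = c ∧ yy w = yy x ∧ h w = h x := by
    intro c hc' x
    obtain ⟨x0, hx0, hx0'⟩ := exists_pt c hc' (yy x) (yy_mem x)
    obtain ⟨w, hw, e⟩ := clopen (yy x) (A c (yy x) 2) (O c 2) (hA _ _ _) (hO _ _ hc')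
      (by
        rintro _ ⟨v, hv, rfl⟩
        exact ⟨v, ⟨hv.1, by linarith [(ss_mem v).2]⟩, rfl⟩)
      (fun z hz hzy => hzy ▸ hOA _ _ z hz) (h x0)
      ⟨x0, ⟨hx0, hx0', by linarith [(ss_mem x0).2]⟩, rfl⟩ (by rw [gh, hx0']) (h x) (gh x)
    exact ⟨w, hw.1, hw.2.1, e⟩
  let P : ℝ → Prop := fun y => ∀ x x' : X, yy x = y → ss x = 0 → yy x' = y →
    (h x' = h x ↔ ss x' = 0)
  have P_lt : ∀ y, y < 1 → P y := by
    intro y hy x x' hx hx0 hx'
    have key : ∀ v : X, yy v = y → ss v = 0 := by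
      intro v hv
      rcases X_mem v with e | e | e
      · exact e.2.2
      · linarith [e.1]
      · linarith [e.1]
    refine ⟨fun _ => key _ hx', fun _ => ?_⟩
    obtain ⟨w, hw1, hw2, hw3⟩ := surj (cc x) (cc_mem x) x'
    rw [← hw3, X_ext hw1 (hw2.trans (hx'.trans hx.symm)) ((key w (hw2.trans hx')).trans hx0.symm)]
  have P_closed : IsClosed {y | y ∈ Icc (0:ℝ) 2 ∧ P y} := by
    refine isClosed_of_closure_subset fun y hy => ?_
    have hy2 : y ∈ Icc (0:ℝ) 2 := closure_minimal (fun y hy => hy.1) isClosed_Icc hy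
    refine ⟨hy2, fun x x' hx hx0 hx' => ?_⟩
    have ex : base (cc x) (cc_mem x) y = x := X_ext rfl ((yy_base _ _ hy2).trans hx.symm) hx0.symm
    constructor
    · intro e
      by_contra hne
      have hpos : 0 < ss x' := lt_of_le_of_ne (ss_mem x').1 (Ne.symm hne)
      have hN : IsOpen (h '' {w | 0 < ss w}) := ho _ (isOpen_lt continuous_const ss_cont)
      have hN' := hN.preimage (hc.comp (base_cont (cc x) (cc_mem x)))
      obtain ⟨y', hy', hy'2, hP⟩ := mem_closure_iff.1 hy _ hN' ⟨x', hpos, by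
        show h x' = h (base (cc x) (cc_mem x) y)
        rw [ex, e]⟩
      obtain ⟨w, hw, ew⟩ := hy'
      have := (hP (base (cc x) (cc_mem x) y') w (yy_base _ _ hy'2) rfl
        ((F0 _ _ ew).trans (yy_base _ _ hy'2))).1 ew
      exact (ne_of_gt hw) this
    · intro e
      have ex' : base (cc x') (cc_mem x') y = x' :=
        X_ext rfl ((yy_base _ _ hy2).trans hx'.symm) e.symm
      have hcl : IsClosed {y | h (base (cc x') (cc_mem x') y) = h (base (cc x) (cc_mem x) y)} :=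
        isClosed_eq (hc.comp (base_cont _ _)) (hc.comp (base_cont _ _))
      have := closure_minimal (fun y' hy' => (hy'.2 (base (cc x) (cc_mem x) y')
        (base (cc x') (cc_mem x') y') (yy_base _ _ hy'.1) rfl (yy_base _ _ hy'.1)).2 rfl) hcl hy
      rw [mem_setOf_eq, ex, ex'] at this
      exact this
  have P_open : ∀ y ∈ Icc (0:ℝ) 2, P y → ∀ᶠ y' in 𝓝 y, y' ≤ 2 → P y' := by
    intro y hy hP
    rcases lt_or_ge y 1 with hy1 | hy1
    · filter_upwards [gt_mem_nhds hy1] with y' hy' _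
      exact P_lt y' hy'
    have hy12 : y ∈ Icc (1:ℝ) 2 := ⟨hy1, hy.2⟩
    have l0 : (0:ℝ) = 0 ∨ (0:ℝ) = 1 := Or.inl rfl
    have l1 : (1:ℝ) = 0 ∨ (1:ℝ) = 1 := Or.inr rfl
    have m0 : (0:ℝ) ∈ Icc (0:ℝ) 1 := ⟨le_rfl, zero_le_one⟩
    have m1 : (1:ℝ) ∈ Icc (0:ℝ) 1 := ⟨zero_le_one, le_rfl⟩
    have hz : h (vert 0 l0 (y, 0)) ≠ h (vert 0 l0 (y, 1)) := by
      intro e
      have := (hP _ _ (yy_vert 0 l0 0 hy12) (ss_vert 0 l0 y m0) (yy_vert 0 l0 1 hy12)).1 e.symm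
      rw [ss_vert _ _ _ m1] at this
      exact one_ne_zero this
    have hz' : ∀ c hc', h (vert c hc' (y, 0)) = h (vert 0 l0 (y, 0)) := fun c hc' =>
      (hP _ _ (yy_vert 0 l0 0 hy12) (ss_vert 0 l0 y m0) (yy_vert c hc' 0 hy12)).2
        (ss_vert _ _ _ m0)
    obtain ⟨W0, W1, hW0, hW1, hz0, hz1, hdis⟩ := t2_separation hz
    have ev0 : ∀ c hc', ∀ᶠ p in 𝓝 (y, (0:ℝ)), h (vert c hc' p) ∈ W0 := fun c hc' =>
      (hc.comp (vert_cont c hc')).continuousAt.eventually_mem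
        (hW0.mem_nhds (by show h (vert c hc' (y, 0)) ∈ W0; rw [hz']; exact hz0))
    obtain ⟨ε, hε, hεW⟩ := Metric.eventually_nhds_iff.1 ((ev0 0 l0).and (ev0 1 l1))
    have hW' : IsOpen (h '' {w | ε ≤ ss w})ᶜ :=
      ((isClosed_le continuous_const ss_cont).isCompact.image hc).isClosed.isOpen_compl
    have hz0' : h (vert 0 l0 (y, 0)) ∈ (h '' {w | ε ≤ ss w})ᶜ := by
      rintro ⟨w, hw, e⟩
      have := (hP _ _ (yy_vert 0 l0 0 hy12) (ss_vert 0 l0 y m0)
        ((F0 _ _ e).trans (yy_vert 0 l0 0 hy12))).1 e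
      have hw' : ε ≤ ss w := hw
      linarith
    have cv : ∀ c hc' (t : ℝ), Continuous fun y' : ℝ => h (vert c hc' (y', t)) := fun c hc' t =>
      hc.comp ((vert_cont c hc').comp (by fun_prop))
    have ev1 : ∀ c hc', ∀ᶠ y' in 𝓝 y, h (vert c hc' (y', 0)) ∈ (h '' {w | ε ≤ ss w})ᶜ :=
      fun c hc' => (cv c hc' 0).continuousAt.eventually_mem
        (hW'.mem_nhds (by show h (vert c hc' (y, 0)) ∈ _; rw [hz']; exact hz0'))
    have ev2 : ∀ᶠ y' in 𝓝 y, h (vert 0 l0 (y', 1)) ∈ W1 :=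
      (cv 0 l0 1).continuousAt.eventually_mem (hW1.mem_nhds hz1)
    filter_upwards [ev1 0 l0, ev1 1 l1, ev2, Metric.ball_mem_nhds y hε] with y' e0 e1 e2 e3 hy'2
    rcases lt_or_ge y' 1 with hy'1 | hy'1
    · exact P_lt y' hy'1
    have hy' : y' ∈ Icc (1:ℝ) 2 := ⟨hy'1, hy'2⟩
    have inW0 : ∀ x : X, yy x = y' → ss x < ε → h x ∈ W0 := by
      intro x hx hs
      have ex : vert (cc x) (cc_mem x) (y', ss x) = x :=
        X_ext rfl ((yy_vert _ _ _ hy').trans hx.symm) (ss_vert _ _ _ (ss_mem x))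
      have hd : dist (y', ss x) (y, (0:ℝ)) < ε := by
        rw [Prod.dist_eq]
        refine max_lt e3 ?_
        simpa [abs_of_nonneg (ss_mem x).1] using hs
      have := hεW hd
      rcases cc_mem x with e | e
      · rw [← ex]; simp only [e]; exact this.1
      · rw [← ex]; simp only [e]; exact this.2
    have noK : ∀ (K U : Set Z), IsClosed K → IsOpen U → K ⊆ U →
        (∀ z ∈ U, (g z).1 = y' → z ∈ K) → K ⊆ W0 → ∀ z ∈ K, (g z).1 = y' → False := by
      intro K U hK hU hKU hUK hKW z hz hzy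
      have := clopen y' K U hK hU hKU hUK z hz hzy (h (vert 0 l0 (y', 1)))
        (by rw [gh, yy_vert _ _ _ hy'])
      exact Set.disjoint_left.1 hdis (hKW this) e2
    have AW : ∀ c s, s < ε → A c y' s ⊆ W0 := by
      rintro c s hs _ ⟨x, hx, rfl⟩
      exact inW0 x hx.2.1 (hx.2.2.trans_lt hs)
    have AO : ∀ (w : X), yy w = y' → ∀ z ∈ A (cc w) y' (ss w), z ∈ O (cc w) (ss w) ∨ z = h w := by
      rintro w hw _ ⟨x, hx, rfl⟩
      rcases hx.2.2.eq_or_lt with e | e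
      · right
        rw [X_ext hx.1 (hx.2.1.trans hw.symm) e]
      · exact Or.inl ⟨x, ⟨hx.1, e⟩, rfl⟩
    have step1 : h (vert 0 l0 (y', 0)) = h (vert 1 l1 (y', 0)) := by
      by_contra hne
      obtain ⟨w0, hw01, hw02, hw03⟩ := surj 0 l0 (vert 1 l1 (y', 0))
      obtain ⟨w1, hw11, hw12, hw13⟩ := surj 1 l1 (vert 0 l0 (y', 0))
      rw [yy_vert _ _ _ hy'] at hw02 hw12
      have p0 : 0 < ss w0 := by
        refine lt_of_le_of_ne (ss_mem w0).1 fun e => hne ?_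
        rw [← hw03, X_ext (x := w0) (x' := vert 0 l0 (y', 0)) hw01
          (hw02.trans (yy_vert _ _ _ hy').symm) (e.symm.trans (ss_vert _ _ _ m0).symm)]
      have p1 : 0 < ss w1 := by
        refine lt_of_le_of_ne (ss_mem w1).1 fun e => hne ?_
        rw [← hw13, X_ext (x := w1) (x' := vert 1 l1 (y', 0)) hw11
          (hw12.trans (yy_vert _ _ _ hy').symm) (e.symm.trans (ss_vert _ _ _ m0).symm)]
      have q0 : ss w0 < ε := by
        by_contra hq
        exact e1 ⟨w0, not_lt.1 hq, hw03⟩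
      have q1 : ss w1 < ε := by
        by_contra hq
        exact e0 ⟨w1, not_lt.1 hq, hw13⟩
      refine noK (A (cc w0) y' (ss w0) ∪ A (cc w1) y' (ss w1)) (O (cc w0) (ss w0) ∪ O (cc w1) (ss w1))
        ((hA _ _ _).union (hA _ _ _)) ((hO _ _ (cc_mem _)).union (hO _ _ (cc_mem _))) ?_ ?_
        (union_subset (AW _ _ q0) (AW _ _ q1)) (h w0) (Or.inl ⟨w0, ⟨rfl, hw02, le_rfl⟩, rfl⟩)
        (by rw [gh, hw02])
      · rintro z (hz | hz)
        · rcases AO w0 hw02 z hz with e | e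
          · exact Or.inl e
          · refine Or.inr ⟨vert 1 l1 (y', 0), ⟨hw11.symm, ?_⟩, (e.trans hw03).symm⟩
            rw [ss_vert _ _ _ m0]; exact p1
        · rcases AO w1 hw12 z hz with e | e
          · exact Or.inr e
          · refine Or.inl ⟨vert 0 l0 (y', 0), ⟨hw01.symm, ?_⟩, (e.trans hw13).symm⟩
            rw [ss_vert _ _ _ m0]; exact p0
      · rintro z (hz | hz) hzy
        · exact Or.inl (hzy ▸ hOA _ _ z hz)
        · exact Or.inr (hzy ▸ hOA _ _ z hz)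
    have base_eq : ∀ x : X, yy x = y' → ss x = 0 → h x = h (vert 0 l0 (y', 0)) := by
      intro x hx hs
      rcases cc_mem x with e | e
      · rw [X_ext (x := x) (x' := vert 0 l0 (y', 0)) e
          (hx.trans (yy_vert _ _ _ hy').symm) (hs.trans (ss_vert _ _ _ m0).symm)]
      · rw [step1, X_ext (x := x) (x' := vert 1 l1 (y', 0)) e
          (hx.trans (yy_vert _ _ _ hy').symm) (hs.trans (ss_vert _ _ _ m0).symm)]
    intro x x' hx hx0 hx'
    refine ⟨fun e => ?_, fun e => by rw [base_eq x hx hx0, base_eq x' hx' e]⟩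
    by_contra hne
    have p0 : 0 < ss x' := lt_of_le_of_ne (ss_mem x').1 (Ne.symm hne)
    rw [base_eq x hx hx0] at e
    have q0 : ss x' < ε := by
      by_contra hq
      exact e0 ⟨x', not_lt.1 hq, e⟩
    refine noK (A (cc x') y' (ss x')) (O (cc x') (ss x')) (hA _ _ _) (hO _ _ (cc_mem _)) ?_
      (fun z hz hzy => hzy ▸ hOA _ _ z hz) (AW _ _ q0) (h x') ⟨x', ⟨rfl, hx', le_rfl⟩, rfl⟩
      (by rw [gh, hx'])
    intro z hz
    rcases AO x' hx' z hz with e' | e'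
    · exact e'
    · refine ⟨vert (cc x') (cc_mem x') (y', 0), ⟨rfl, ?_⟩, ?_⟩
      · rw [ss_vert _ _ _ m0]; exact p0
      · rw [e', e]
        exact base_eq _ (yy_vert _ _ _ hy') (ss_vert _ _ _ m0)
  have P2 : P 2 := by
    have hsub : Icc (0:ℝ) 2 ⊆ {y | y ∈ Icc (0:ℝ) 2 ∧ P y} := by
      refine IsClosed.Icc_subset_of_forall_mem_nhdsWithin (P_closed.inter isClosed_Icc)
        ⟨⟨le_rfl, by norm_num⟩, P_lt 0 zero_lt_one⟩ ?_
      rintro y ⟨hy, hy'⟩
      have := P_open y hy.1 hy.2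
      filter_upwards [nhdsWithin_le_nhds this, nhdsWithin_le_nhds (gt_mem_nhds hy'.2),
        self_mem_nhdsWithin] with y' h1 h2 h3
      exact ⟨⟨hy'.1.trans (le_of_lt h3), h2.le⟩, h1 h2.le⟩
    exact (hsub ⟨by norm_num, le_rfl⟩).2
  have l0 : (0:ℝ) = 0 ∨ (0:ℝ) = 1 := Or.inl rfl
  have l1 : (1:ℝ) = 0 ∨ (1:ℝ) = 1 := Or.inr rfl
  have hcl : IsClosed {y | h (tail 1 l1 y) = h (tail 0 l0 y)} :=
    isClosed_eq (hc.comp (tail_cont _ _)) (hc.comp (tail_cont _ _))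
  have hsub : Ioo (2:ℝ) 3 ⊆ {y | h (tail 1 l1 y) = h (tail 0 l0 y)} := by
    intro y hy
    have hy' : y ∈ Icc (2:ℝ) 3 := ⟨hy.1.le, hy.2.le⟩
    obtain ⟨w, hw1, hw2, hw3⟩ := surj 0 l0 (tail 1 l1 y)
    rw [yy_tail _ _ hy'] at hw2
    have : ss w = 0 := by
      rcases X_mem w with e | e | e
      · exact e.2.2
      · linarith [e.2.1, hy.1]
      · exact e.2.2.trans hw1
    show h _ = h _
    rw [← hw3, X_ext (x := w) (x' := tail 0 l0 y) hw1 (hw2.trans (yy_tail _ _ hy').symm) this]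
  have h2 : (2:ℝ) ∈ closure (Ioo (2:ℝ) 3) := by
    rw [closure_Ioo (by norm_num)]
    exact ⟨le_rfl, by norm_num⟩
  have m2 : (2:ℝ) ∈ Icc (2:ℝ) 3 := ⟨le_rfl, by norm_num⟩
  have := (P2 (tail 0 l0 2) (tail 1 l1 2) (yy_tail _ _ m2) rfl (yy_tail _ _ m2)).1
    (closure_minimal hsub hcl h2)
  exact one_ne_zero this

end

/-- The negation of the preceding statement: For a continuous surjection f between compact metric spaces and open G₁, G₂ covering Y: if each restriction of f over closure(Gᵢ) is an open map followed by a monotone map, then f itself is an open map followed by a monotone map. -/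
theorem result :
    ¬ (∀ (X Y : Type) [MetricSpace X] [CompactSpace X] [MetricSpace Y] [CompactSpace Y]
      (f : X → Y), Continuous f → Surjective f →
      ∀ G₁ G₂ : Set Y, IsOpen G₁ → IsOpen G₂ → G₁ ∪ G₂ = Set.univ →
      (∃ (Z : Type) (_ : MetricSpace Z) (_ : CompactSpace Z)
          (h : ↥(f ⁻¹' closure G₁) → Z) (g : Z → ↥(closure G₁)),
          Continuous h ∧ IsOpenMap h ∧ Surjective h ∧
          Continuous g ∧ Surjective g ∧ (∀ y, IsConnected (g ⁻¹' {y})) ∧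
          ∀ x : ↥(f ⁻¹' closure G₁), ((g (h x) : ↥(closure G₁)) : Y) = f x) →
      (∃ (Z : Type) (_ : MetricSpace Z) (_ : CompactSpace Z)
          (h : ↥(f ⁻¹' closure G₂) → Z) (g : Z → ↥(closure G₂)),
          Continuous h ∧ IsOpenMap h ∧ Surjective h ∧
          Continuous g ∧ Surjective g ∧ (∀ y, IsConnected (g ⁻¹' {y})) ∧
          ∀ x : ↥(f ⁻¹' closure G₂), ((g (h x) : ↥(closure G₂)) : Y) = f x) →
      ∃ (Z : Type) (_ : MetricSpace Z) (_ : CompactSpace Z)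
          (h : X → Z) (g : Z → Y),
          Continuous h ∧ IsOpenMap h ∧ Surjective h ∧
          Continuous g ∧ Surjective g ∧ (∀ y, IsConnected (g ⁻¹' {y})) ∧
          ∀ x : X, g (h x) = f x) := by
  intro H
  obtain ⟨Z, _, _, h, g, hc, ho, -, -, -, hg, hgf⟩ := H X Y f f_cont f_surj
    {y | y.1 < 2} {y | 1 < y.1} (isOpen_lt continuous_subtype_val continuous_const)
    (isOpen_lt continuous_const continuous_subtype_val)
    (Set.eq_univ_of_forall fun y => by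
      rcases lt_or_ge y.1 2 with h | h
      · exact Or.inl h
      · exact Or.inr (show 1 < y.1 by linarith))
    (MO_of _ isClosed_closure 0 fun y hy => Or.inl ⟨rfl,
      closure_minimal (s := {y : Y | y.1 < 2}) (t := {y : Y | y.1 ≤ 2})
        (fun y (hy : y.1 < 2) => le_of_lt hy)
        (isClosed_le continuous_subtype_val continuous_const) hy⟩)
    (MO_of _ isClosed_closure 1 fun y hy => Or.inr ⟨rfl,
      closure_minimal (s := {y : Y | 1 < y.1}) (t := {y : Y | 1 ≤ y.1})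
        (fun y (hy : 1 < y.1) => le_of_lt hy)
        (isClosed_le continuous_const continuous_subtype_val) hy⟩)
  exact not_MO h g hc ho hg hgf

end Pool.Agent.S12748
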