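import Pool.Statements.S12750

set_option autoImplicit false
open TopologicalSpace
open Pool Pool.MP_0eb590_gt

namespace Pool.Agent.S12750

open Set

theorem exists_seq : ∃ d : ℕ → ℝ → ℝ, ∀ (J : Finset ℝ) (u : ℝ → Set ℝ),
    (∀ a, IsOpen (u a) ∧ (u a).Nonempty) → ∀ M : ℕ, ∃ k, M ≤ k ∧ ∀ a ∈ J, d k a ∈ u a := by
  obtain ⟨e, he⟩ := exists_dense_seq C(ℝ, ℝ)
  refine ⟨fun k => e (Nat.unpair k).1, fun J u hu M => ?_⟩
  choose r hr using fun a => (hu a).2
  have hopen : IsOpen {f : C(ℝ, ℝ) | ∀ a ∈ J, f a ∈ u a} := by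
    have : {f : C(ℝ, ℝ) | ∀ a ∈ J, f a ∈ u a} = ⋂ a ∈ J, (fun f : C(ℝ, ℝ) => f a) ⁻¹' u a := by
      ext f; simp
    rw [this]
    exact isOpen_biInter_finset fun a _ => (hu a).1.preimage (continuous_eval_const a)
  have hne : {f : C(ℝ, ℝ) | ∀ a ∈ J, f a ∈ u a}.Nonempty := by
    refine ⟨⟨fun t => (Lagrange.interpolate J id r).eval t, Polynomial.continuous _⟩, ?_⟩
    intro a ha
    have := Lagrange.eval_interpolate_at_node (s := J) (v := id) r (injOn_id _) ha
    simp only [id] at this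
    show (Lagrange.interpolate J id r).eval a ∈ u a
    rw [this]; exact hr a
  obtain ⟨n, hn⟩ := he.exists_mem_open hopen hne
  refine ⟨Nat.pair n M, Nat.right_le_pair n M, ?_⟩
  simpa using hn

noncomputable def d : ℕ → ℝ → ℝ := exists_seq.choose

noncomputable def tent (k : ℕ) (t : ℝ) : ℝ := max 0 (1 - |t - (2 * k + 2)|)

noncomputable def γ (a t : ℝ) : ℝ := ∑ᶠ k : ℕ, tent k t * d k a

theorem γ_cont (a : ℝ) : Continuous (γ a) := by
  apply continuous_finsum
  · intro k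
    unfold tent
    fun_prop
  · intro x
    refine ⟨Iio (x + 1), Iio_mem_nhds (by linarith), ?_⟩
    obtain ⟨N, hN⟩ := exists_nat_gt (x + 1)
    refine (finite_lt_nat N).subset ?_
    rintro k ⟨t, ht1, ht2⟩
    have h1 : tent k t ≠ 0 := left_ne_zero_of_mul ht1
    have h2 : |t - (2 * k + 2)| < 1 := by
      by_contra hh
      exact h1 (max_eq_left (by linarith [not_lt.mp hh]))
    have h3 := (abs_lt.mp h2).1
    have h4 : t < x + 1 := ht2
    have h5 : (0 : ℝ) ≤ k := Nat.cast_nonneg k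
    have : (k : ℝ) < N := by linarith
    exact_mod_cast this

theorem γ_zero (a t : ℝ) (ht : t ≤ 1) : γ a t = 0 := by
  apply finsum_eq_zero_of_forall_eq_zero
  intro k
  have h5 : (0 : ℝ) ≤ k := Nat.cast_nonneg k
  have : tent k t = 0 := max_eq_left (by
    have := neg_le_abs (t - (2 * k + 2))
    linarith)
  rw [this, zero_mul]

theorem γ_at (a : ℝ) (m : ℕ) : γ a (2 * m + 2) = d m a := by
  unfold γ
  rw [finsum_eq_single _ m]
  · simp [tent]
  · intro k hk
    have : tent k (2 * m + 2) = 0 := by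
      apply max_eq_left
      rcases Nat.lt_or_gt_of_ne hk with h | h
      · have h1 : (k : ℝ) + 1 ≤ m := by exact_mod_cast h
        have := le_abs_self ((2 * m + 2 : ℝ) - (2 * k + 2))
        linarith
      · have h1 : (m : ℝ) + 1 ≤ k := by exact_mod_cast h
        have := neg_le_abs ((2 * m + 2 : ℝ) - (2 * k + 2))
        linarith
    rw [this, zero_mul]

noncomputable def bump (p : ℚ × ℚ) (t : ℝ) : ℝ := max 0 (min (t - max 1 (p.1 : ℝ)) (p.2 - t))

theorem bump_pos (p : ℚ × ℚ) (t : ℝ) : 0 < bump p t ↔ (1 < t ∧ (p.1 : ℝ) < t) ∧ t < p.2 := by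
  simp [bump]

theorem bump_zero (p : ℚ × ℚ) (t : ℝ) (h : t ≤ 1 ∨ (p.2 : ℝ) ≤ t) : bump p t = 0 := by
  refine le_antisymm (a := bump p t) ?_ (le_max_left _ _)
  rw [← not_lt, bump_pos]
  rintro ⟨⟨h1, -⟩, h2⟩
  rcases h with h | h <;> linarith

noncomputable def ψ : ℝ ⊕ (ℚ × ℚ) → ℝ → ℝ
  | Sum.inl a => γ a
  | Sum.inr p => bump p

theorem ψ_cont (j : ℝ ⊕ (ℚ × ℚ)) : Continuous (ψ j) := by
  cases j with
  | inl a => exact γ_cont a
  | inr p => show Continuous (bump p); unfold bump; fun_prop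

noncomputable def lam (t : ℝ) : ℝ := max 0 (min 1 (1 - t))

noncomputable def co : ℝ ⊕ (ℚ × ℚ) → (ℝ → ℝ) → ℝ
  | Sum.inl a => fun x => x a
  | Sum.inr _ => fun _ => 0

noncomputable def T (n : ℕ) (x : ℝ → ℝ) : ℝ := min (x (n + 1)) (|x 0| - n)

noncomputable def G0 (x : ℝ → ℝ) (i : ℕ × (ℝ ⊕ (ℚ × ℚ))) : ℝ :=
  lam (T i.1 x) * co i.2 x + ψ i.2 (T i.1 x)

theorem G0_cont : Continuous G0 := by
  apply continuous_pi
  rintro ⟨n, j⟩
  have hT : Continuous (T n) := by unfold T; fun_prop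
  have hl : Continuous lam := by unfold lam; fun_prop
  have hc : Continuous (co j) := by
    cases j with
    | inl a => exact continuous_apply a
    | inr p => exact continuous_const
  exact ((hl.comp hT).mul hc).add ((ψ_cont j).comp hT)

theorem G0_inj : Function.Injective G0 := by
  intro x y h
  obtain ⟨n, hn⟩ := exists_nat_ge (max |x 0| |y 0|)
  have key : ∀ z : ℝ → ℝ, |z 0| ≤ n → ∀ a, G0 z (n, Sum.inl a) = z a := by
    intro z hz a
    have h1 : T n z ≤ 0 := le_trans (min_le_right _ _) (by linarith)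
    have h2 : lam (T n z) = 1 := by
      unfold lam
      rw [min_eq_left (by linarith), max_eq_right zero_le_one]
    show lam (T n z) * z a + γ a (T n z) = z a
    rw [h2, γ_zero _ _ (by linarith)]
    ring
  funext a
  rw [← key x ((le_max_left _ _).trans hn) a, ← key y ((le_max_right _ _).trans hn) a, h]

theorem G0_big (x : ℝ → ℝ) (n : ℕ) (j : ℝ ⊕ (ℚ × ℚ)) (h : 1 ≤ T n x) :
    G0 x (n, j) = ψ j (T n x) := by
  have : lam (T n x) = 0 := max_eq_left (le_trans (min_le_right _ _) (by linarith))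
  show lam (T n x) * co j x + ψ j (T n x) = _
  rw [this]; ring

theorem approx (y : ℝ → ℝ) (n : ℕ) (J : Finset (ℝ ⊕ (ℚ × ℚ))) (u : ℝ ⊕ (ℚ × ℚ) → Set ℝ)
    (hu : ∀ j, IsOpen (u j) ∧ G0 y (n, j) ∈ u j) :
    ∃ p : ℚ × ℚ, ∃ s : ℝ, 0 < bump p s ∧ ∀ t, 0 < bump p t → ∀ j ∈ J, ψ j t ∈ u j := by
  have h1 : ∃ s : ℝ, 1 < s ∧ ∀ j ∈ J, ψ j s ∈ u j := by
    by_cases hT : 1 < T n y
    · exact ⟨T n y, hT, fun j _ => by rw [← G0_big y n j hT.le]; exact (hu j).2⟩
    · obtain ⟨M, hM⟩ : ∃ M : ℕ, ∀ p ∈ J.toRight, (p.2 : ℝ) ≤ M := by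
        obtain ⟨b, hb⟩ := (J.toRight.image (fun p => (p.2 : ℝ))).bddAbove
        obtain ⟨M, hM⟩ := exists_nat_ge b
        exact ⟨M, fun p hp => (hb (Finset.mem_coe.mpr (Finset.mem_image_of_mem _ hp))).trans hM⟩
      obtain ⟨k, hk, hkd⟩ := exists_seq.choose_spec J.toLeft (fun a => u (Sum.inl a))
        (fun a => ⟨(hu _).1, _, (hu _).2⟩) M
      have hk' : (M : ℝ) ≤ k := by exact_mod_cast hk
      have hk0 : (0 : ℝ) ≤ k := Nat.cast_nonneg k
      refine ⟨2 * k + 2, by linarith, fun j hj => ?_⟩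
      cases j with
      | inl a =>
        show γ a _ ∈ _
        rw [γ_at]
        exact hkd a (by simpa using hj)
      | inr p =>
        have e1 : ψ (Sum.inr p) (2 * k + 2) = 0 := bump_zero p _ (Or.inr (by
          have := hM p (by simpa using hj)
          linarith))
        have e2 : G0 y (n, Sum.inr p) = 0 := by
          show lam (T n y) * 0 + bump p (T n y) = 0
          rw [bump_zero p _ (Or.inl (not_lt.mp hT))]; ring
        rw [e1, ← e2]
        exact (hu _).2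
  obtain ⟨s, hs1, hs2⟩ := h1
  have hopen : IsOpen (⋂ j ∈ J, ψ j ⁻¹' u j) :=
    isOpen_biInter_finset fun j _ => (hu j).1.preimage (ψ_cont j)
  obtain ⟨ε, hε, hball⟩ := Metric.isOpen_iff.mp hopen s (by simpa using hs2)
  obtain ⟨p, hp1, hp2⟩ := exists_rat_btwn (show s - ε < s by linarith)
  obtain ⟨q, hq1, hq2⟩ := exists_rat_btwn (show s < s + ε by linarith)
  refine ⟨(p, q), s, (bump_pos _ _).mpr ⟨⟨hs1, hp2⟩, hq1⟩, fun t ht => ?_⟩
  obtain ⟨⟨-, h2⟩, h3⟩ := (bump_pos _ _).mp ht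
  have : t ∈ Metric.ball s ε := by
    rw [Metric.mem_ball, Real.dist_eq, abs_lt]
    simp only at h2 h3
    constructor <;> linarith
  simpa using hball this

theorem G0_inr (x : ℝ → ℝ) (n : ℕ) (p : ℚ × ℚ) : G0 x (n, Sum.inr p) = bump p (T n x) := by
  show lam (T n x) * 0 + bump p (T n x) = _
  ring

theorem exists_T (N : ℕ) (s : ℕ → ℝ) (hs : ∀ n, 0 ≤ s n) : ∃ x, ∀ n < N, T n x = s n := by
  classical
  refine ⟨fun a => if a = 0 then ∑ n ∈ Finset.range N, ((n : ℝ) + s n) else s (⌊a⌋₊ - 1), ?_⟩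
  intro n hn
  have h1 : ((n : ℝ) + 1) ≠ 0 := by positivity
  have h2 : ⌊(n : ℝ) + 1⌋₊ - 1 = n := by
    have : (n : ℝ) + 1 = ((n + 1 : ℕ) : ℝ) := by push_cast; ring
    rw [this, Nat.floor_natCast]; omega
  have h3 : (n : ℝ) + s n ≤ ∑ n ∈ Finset.range N, ((n : ℝ) + s n) :=
    Finset.single_le_sum (f := fun n : ℕ => (n : ℝ) + s n)
      (fun i _ => add_nonneg (Nat.cast_nonneg i) (hs i)) (Finset.mem_range.mpr hn)
  unfold T
  simp only [h1, if_false, if_true, h2]
  apply min_eq_left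
  have := le_abs_self (∑ n ∈ Finset.range N, ((n : ℝ) + s n))
  linarith

def Bset (N : ℕ) (p : Fin N → ℚ × ℚ) : Set (range G0) :=
  {y | ∀ n : Fin N, 0 < y.1 (n.1, Sum.inr (p n))}

theorem pibase : ∃ B : Set (Set (range G0)), B.Countable ∧
    (∀ P ∈ B, IsOpen P ∧ P.Nonempty) ∧
    ∀ U : Set (range G0), IsOpen U → U.Nonempty → ∃ P ∈ B, P ⊆ U := by
  classical
  refine ⟨{P | P.Nonempty ∧ P ∈ range (fun z : (Σ N : ℕ, Fin N → ℚ × ℚ) => Bset z.1 z.2)},
    (countable_range _).mono (fun P hP => hP.2), ?_, ?_⟩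
  · rintro P ⟨hne, z, rfl⟩
    refine ⟨?_, hne⟩
    have : Bset z.1 z.2 = ⋂ n : Fin z.1, {y | 0 < y.1 (n.1, Sum.inr (z.2 n))} := by
      ext y; simp [Bset]
    show IsOpen (Bset z.1 z.2)
    rw [this]
    exact isOpen_iInter_of_finite fun n => isOpen_lt continuous_const
      ((continuous_apply _).comp continuous_subtype_val)
  · rintro U ⟨W, hW, rfl⟩ ⟨⟨_, y, rfl⟩, hy⟩
    obtain ⟨F, u, hu, hsub⟩ := isOpen_pi_iff.mp hW _ hy
    have key := fun n => approx y n (F.image Prod.snd)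
      (fun j => if (n, j) ∈ F then u (n, j) else univ) (by
        intro j
        split_ifs with h
        · exact hu _ h
        · exact ⟨isOpen_univ, trivial⟩)
    choose p s hs hp using key
    obtain ⟨N, hN⟩ := (F.image Prod.fst).bddAbove
    refine ⟨Bset (N + 1) (fun n => p n.1), ⟨?_, ⟨N + 1, fun n => p n.1⟩, rfl⟩, ?_⟩
    · obtain ⟨x, hx⟩ := exists_T (N + 1) s (fun n => by
        have := ((bump_pos _ _).mp (hs n)).1.1
        linarith)
      refine ⟨⟨G0 x, x, rfl⟩, fun n => ?_⟩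
      show 0 < G0 x _
      rw [G0_inr, hx n.1 n.2]
      exact hs n.1
    · rintro ⟨_, x, rfl⟩ hx
      apply hsub
      rintro ⟨n, j⟩ hnj
      have hn : n < N + 1 := Nat.lt_succ_of_le
        (hN (Finset.mem_coe.mpr (Finset.mem_image_of_mem Prod.fst hnj)))
      have h1 : 0 < bump (p n) (T n x) := by
        rw [← G0_inr]; exact hx ⟨n, hn⟩
      have h2 := hp n _ h1 j (Finset.mem_image_of_mem Prod.snd hnj)
      rw [if_pos (show (n, j) ∈ F from hnj)] at h2
      show G0 x (n, j) ∈ _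
      rw [G0_big x n j ((bump_pos _ _).mp h1).1.1.le]
      exact h2

def D : Type := ℝ

instance : TopologicalSpace D := ⊥

instance : DiscreteTopology D := ⟨rfl⟩

theorem result :
    ¬ (∀ (X : Type) [TopologicalSpace X] [T35Space X],
      (∃ (Y : Type) (τ : TopologicalSpace Y), T35Space Y ∧
        ∃ g : C(X, ℝ) → Y, Function.Bijective g ∧
          @Continuous C(X, ℝ) Y
            (TopologicalSpace.induced (fun f : C(X, ℝ) => (⇑f : X → ℝ)) Pi.topologicalSpace)
            τ g ∧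
          ∃ B : Set (Set Y), B.Countable ∧
            (∀ P ∈ B, IsOpen P ∧ P.Nonempty) ∧
            ∀ U : Set Y, IsOpen U → U.Nonempty → ∃ P ∈ B, P ⊆ U) →
      SeparableSpace X) := by
  intro h
  have hsep := h D ⟨range G0, inferInstance, inferInstance,
    fun f => ⟨G0 (⇑f : D → ℝ), _, rfl⟩, ⟨?_, ?_⟩, ?_, pibase⟩
  · obtain ⟨s, hs, hd⟩ := hsep.exists_countable_dense
    have : s = univ := by
      rw [← hd.closure_eq, (isClosed_discrete s).closure_eq]
    rw [this] at hs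
    exact Cardinal.not_countable_real hs
  · intro f f' hf
    exact DFunLike.coe_injective (G0_inj (congrArg Subtype.val hf))
  · rintro ⟨_, x, rfl⟩
    exact ⟨⟨x, continuous_of_discreteTopology⟩, rfl⟩
  · let _ : TopologicalSpace C(D, ℝ) :=
      TopologicalSpace.induced (fun f : C(D, ℝ) => (⇑f : D → ℝ)) Pi.topologicalSpace
    exact Continuous.subtype_mk (G0_cont.comp continuous_induced_dom) _

end Pool.Agent.S12750
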