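import Pool.Statements.S12771

set_option autoImplicit false
open Pool Pool.MP_1144d4_gt

namespace Pool.Agent.S12771

open Real Set Filter Topology

abbrev J := Set.Icc (0:ℝ) 1
abbrev X := {f : C(J, J) // Function.Surjective ⇑f}
noncomputable def c (r x : ℝ) : ℝ := x + r * (x * (1 - x)) * sin (x / r)
noncomputable def m (δ r x y : ℝ) : ℝ := max (y - δ * (1 - y)) (min (c r x) (y + δ * y))

lemma c_abs {r x : ℝ} (hr : 0 < r) (hx : x ∈ J) : |c r x - x| ≤ r * (x * (1 - x)) := by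
  have : 0 ≤ r * (x * (1 - x)) := mul_nonneg hr.le (mul_nonneg hx.1 (sub_nonneg.2 hx.2))
  rw [c, add_sub_cancel_left, abs_mul, abs_of_nonneg this]
  exact mul_le_of_le_one_right this (abs_sin_le_one _)

lemma c_lt {r x q : ℝ} (hr : 0 < r) (h0 : 0 < q) (h1 : q < 1) (hq : sin (q / r) = -1) (hx : 0 ≤ x)
    (hxq : x ≤ q) : c r x < q := by
  have h := (abs_le.1 (abs_sin_sub_sin_le (x / r) (q / r))).2
  rw [hq, ← sub_div, abs_div, abs_of_pos hr, abs_of_nonpos (by linarith), le_div_iff₀ hr] at h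
  have h2 : 0 ≤ x * (1 - x) := mul_nonneg hx (by linarith)
  have h3 := mul_le_mul_of_nonneg_left h h2
  unfold c
  rcases hxq.eq_or_lt with rfl | h4
  · rw [hq]; nlinarith [mul_pos hr (mul_pos h0 (sub_pos.2 h1))]
  · nlinarith [mul_nonneg hr.le h2, mul_pos (sub_pos.2 h4) (show 0 < 1 - x * (1 - x) by nlinarith)]

lemma c_gt {r x p : ℝ} (hr : 0 < r) (h0 : 0 < p) (h1 : p < 1) (hq : sin (p / r) = 1) (hx : x ≤ 1)
    (hxq : p ≤ x) : p < c r x := by
  have h := (abs_le.1 (abs_sin_sub_sin_le (p / r) (x / r))).2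
  rw [hq, ← sub_div, abs_div, abs_of_pos hr, abs_of_nonpos (by linarith), le_div_iff₀ hr] at h
  have h2 : 0 ≤ x * (1 - x) := mul_nonneg (by linarith) (by linarith)
  have h3 := mul_le_mul_of_nonneg_left h h2
  unfold c
  rcases hxq.eq_or_lt with rfl | h4
  · rw [hq]; nlinarith [mul_pos hr (mul_pos h0 (sub_pos.2 h1))]
  · nlinarith [mul_nonneg hr.le h2, mul_pos (sub_pos.2 h4) (show 0 < 1 - x * (1 - x) by nlinarith)]

lemma c_mem {r x : ℝ} (hr : 0 < r) (h1 : r ≤ 1) (hx : x ∈ J) : c r x ∈ J := by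
  have := abs_le.1 (c_abs hr hx)
  have h2 : 0 ≤ x * (1 - x) := mul_nonneg hx.1 (sub_nonneg.2 hx.2)
  have := mul_le_of_le_one_left h2 h1
  constructor <;> nlinarith [hx.1, hx.2]

lemma m_mem {δ r x y : ℝ} (hδ : 0 ≤ δ) (hc : c r x ∈ J) (hy : y ∈ J) :
    m δ r x y ∈ J ∧ |m δ r x y - y| ≤ δ := by
  have h1 := mul_nonneg hδ hy.1
  have h2 := mul_nonneg hδ (sub_nonneg.2 hy.2)
  have h3 : m δ r x y ≤ y + δ * y := max_le (by linarith) (min_le_right _ _)
  have h4 : y - δ * (1 - y) ≤ m δ r x y := le_max_left _ _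
  exact ⟨⟨le_max_of_le_right (le_min hc.1 (by linarith [hy.1])),
    max_le (by linarith [hy.2]) (min_le_of_left_le hc.2)⟩, abs_le.2 ⟨by linarith, by linarith⟩⟩

def Good (g : J → J) (δ r : ℝ) : Prop := ∃ K O : Set J, IsClosed K ∧ IsOpen O ∧ O ⊆ K ∧
  O.Nonempty ∧ Kᶜ.Nonempty ∧ ∀ x ∈ K, ∀ y : J, (y : ℝ) = m δ r x (g x) → y ∈ O

lemma good {g : J → J} {δ s η : ℝ} {z : J} (hs : 0 < s)
    (h : 16 * s ≤ min 1 (z + η) - max 0 (z - η)) (H : ∀ x : J, |(x : ℝ) - z| < η →
      ((z : ℝ) < 1 → g x - δ * (1 - g x) < x - s) ∧ (0 < (z : ℝ) → x + s < g x + δ * g x)) :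
    Good g δ s := by
  have hπ := pi_pos
  obtain ⟨p, p1, p2, p3⟩ : ∃ p, sin (p / s) = 1 ∧ max 0 (z - η) < p ∧
      p + π * s < min 1 (z + η) := by
    set a := max 0 (z - η)
    have h1 := Int.le_ceil (a / (2 * π * s))
    have h2 := Int.ceil_lt_add_one (a / (2 * π * s))
    rw [div_le_iff₀ (by positivity)] at h1
    rw [← sub_lt_iff_lt_add, lt_div_iff₀ (by positivity)] at h2
    refine ⟨(π / 2 + ⌈a / (2 * π * s)⌉ * (2 * π)) * s, ?_, by nlinarith [mul_pos hπ hs],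
      by nlinarith [mul_le_mul_of_nonneg_right pi_le_four hs.le]⟩
    rw [mul_div_cancel_right₀ _ hs.ne', sin_add_int_mul_two_pi, sin_pi_div_two]
  have p4 : sin ((p + π * s) / s) = -1 := by
    rw [add_div, mul_div_cancel_right₀ _ hs.ne', sin_add_pi, p1]
  have p5 := mul_pos hπ hs
  rw [max_lt_iff] at p2
  rw [lt_min_iff] at p3
  have cv : Continuous fun x : J => (x : ℝ) := continuous_subtype_val
  refine ⟨{x | 0 < (z : ℝ) → p ≤ x} ∩ {x | (z : ℝ) < 1 → x ≤ p + π * s},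
    {x | 0 < (z : ℝ) → p < x} ∩ {x | (z : ℝ) < 1 → x < p + π * s}, .inter ?_ ?_, .inter ?_ ?_,
    fun x hx => ⟨fun h => (hx.1 h).le, fun h => (hx.2 h).le⟩,
    ⟨⟨p + π * s / 2, by linarith, by linarith⟩, fun _ => by simp only; linarith,
      fun _ => by simp only; linarith⟩, ?_, fun x hx y hy => ?_⟩
  · by_cases h : 0 < (z : ℝ) <;> simp [h, isClosed_le continuous_const cv]
  · by_cases h : (z : ℝ) < 1 <;> simp [h, isClosed_le cv continuous_const]
  · by_cases h : 0 < (z : ℝ) <;> simp [h, isOpen_lt continuous_const cv]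
  · by_cases h : (z : ℝ) < 1 <;> simp [h, isOpen_lt cv continuous_const]
  · by_cases h : 0 < (z : ℝ)
    · exact ⟨0, fun h' => by have := h'.1 h; simp at this; linarith⟩
    · exact ⟨1, fun h' => by have := h'.2 (by linarith); simp at this; linarith⟩
  have x1 := x.2.1
  have x2 := x.2.2
  have h3 := abs_le.1 (c_abs hs x.2)
  have h4 : s * (x * (1 - x)) ≤ s := mul_le_of_le_one_right hs.le (by nlinarith)
  obtain ⟨h1, h2⟩ := H x (abs_lt.2 ⟨by
    by_contra n; have := hx.1 (by linarith); linarith, by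
    by_contra n; have := hx.2 (by linarith); linarith⟩)
  refine ⟨fun h => ?_, fun h => ?_⟩
  · have := c_gt hs p2.1 (by linarith) p1 x2 (hx.1 h)
    exact hy ▸ lt_max_of_lt_right (lt_min this (by linarith [h2 h]))
  · have := c_lt hs (by linarith) p3.1 p4 x1 (hx.2 h)
    exact hy ▸ max_lt (by linarith [h1 h]) (min_lt_of_left_lt this)

/-- In the space of continuous surjections of [0,1] (sup metric), for every continuous positive ε there is a continuous self-map moving each point less than ε into the complement of the closure of the transitive maps, i.e. that closure is a Z-set. -/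
theorem result :
    ∀ ε : {f : C(Set.Icc (0:ℝ) 1, Set.Icc (0:ℝ) 1) // Function.Surjective ⇑f} → ℝ,
      Continuous ε → (∀ g, 0 < ε g) →
      ∃ φ : {f : C(Set.Icc (0:ℝ) 1, Set.Icc (0:ℝ) 1) // Function.Surjective ⇑f} →
          {f : C(Set.Icc (0:ℝ) 1, Set.Icc (0:ℝ) 1) // Function.Surjective ⇑f},
        Continuous φ ∧ ∀ g, dist (φ g) g < ε g ∧
          φ g ∉ closure {h : {f : C(Set.Icc (0:ℝ) 1, Set.Icc (0:ℝ) 1) // Function.Surjective ⇑f} |
            ∀ U V : Set (Set.Icc (0:ℝ) 1), IsOpen U → IsOpen V → U.Nonempty → V.Nonempty →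
              ∃ n : ℕ, 0 < n ∧ ((⇑h.1)^[n] '' U ∩ V).Nonempty} := by
  intro ε hε h0
  have ev : Continuous fun p : X × J => (p.1.1 p.2 : ℝ) := by fun_prop
  obtain ⟨r, hr⟩ := exists_continuous_forall_mem_convex_of_local_const (E := ℝ)
    (t := fun g : X => {r | 0 < r ∧ r ≤ 1 ∧ ∀ s, 0 < s → s ≤ r → Good g.1 (ε g / 2) s})
    (fun g => convex_iff_ordConnected.2 ⟨fun a ha b hb x hx => ⟨ha.1.trans_le hx.1,
      hx.2.trans hb.2.1, fun s h1 h2 => hb.2.2 s h1 (h2.trans hx.2)⟩⟩) fun g => by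
    obtain ⟨z, hz⟩ := intermediate_value_univ₂ (a := (0 : J)) (b := 1) continuous_id g.1.continuous
      (g.1 0).2.1 (g.1 1).2.2
    have e2 : Continuous fun p : ℝ × X × J => (p.2.1.1 p.2.2 : ℝ) := ev.comp continuous_snd
    have hz' : (g.1 z : ℝ) = z := congrArg _ hz.symm
    have A : ∀ᶠ p : ℝ × X × J in 𝓝 (0, g, z), (z : ℝ) < 1 →
        p.2.1.1 p.2.2 - ε p.2.1 / 2 * (1 - p.2.1.1 p.2.2) < p.2.2 - p.1 :=
      eventually_imp_distrib_left.2 fun h => ContinuousAt.eventually_lt (by fun_prop) (by fun_prop)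
        (by simp only [hz']; nlinarith [h0 g])
    have B : ∀ᶠ p : ℝ × X × J in 𝓝 (0, g, z), 0 < (z : ℝ) →
        p.2.2 + p.1 < p.2.1.1 p.2.2 + ε p.2.1 / 2 * p.2.1.1 p.2.2 :=
      eventually_imp_distrib_left.2 fun h => ContinuousAt.eventually_lt (by fun_prop) (by fun_prop)
        (by simp only [hz']; nlinarith [h0 g])
    obtain ⟨η, hη, H⟩ := Metric.eventually_nhds_iff.1 (A.and B)
    have a1 := le_max_left (0 : ℝ) (z - η)
    have a2 := le_max_right (0 : ℝ) (z - η)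
    have a3 := min_le_left (1 : ℝ) (z + η)
    have a4 := min_le_right (1 : ℝ) (z + η)
    refine ⟨(min 1 (z + η) - max 0 (z - η)) / 16, ?_⟩
    filter_upwards [Metric.ball_mem_nhds g hη] with g' hg
    refine ⟨div_pos (sub_pos.2 (max_lt (lt_min one_pos (by linarith [z.2.1]))
      (lt_min (by linarith [z.2.2]) (by linarith)))) (by norm_num), by linarith, fun s h1 h2 =>
      good h1 (η := η) (z := z) (by linarith) fun x hx => @H (s, g', x) ?_⟩
    exact max_lt (by rw [Real.dist_0_eq_abs, abs_of_pos h1]; linarith) (max_lt hg hx)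
  have hm := fun (g : X) (x : J) => m_mem (half_pos (h0 g)).le (c_mem (hr g).1 (hr g).2.1 x.2)
    (g.1 x).2
  let F : C(X × J, J) := ⟨fun p => ⟨_, (hm p.1 p.2).1⟩, by
    refine Continuous.subtype_mk ?_ _
    unfold m c
    have := fun p : X × J => (hr p.1).1.ne'
    fun_prop (disch := assumption)⟩
  refine ⟨fun g => ⟨F.curry g, fun y => ?_⟩, F.curry.continuous.subtype_mk _, fun g => ⟨?_, ?_⟩⟩
  · obtain ⟨a, ha⟩ := g.2 0
    obtain ⟨b, hb⟩ := g.2 1
    refine intermediate_value_univ a b (F.curry g).continuous ⟨le_trans (b := 0) ?_ y.2.1, le_trans (b := 1) y.2.2 ?_⟩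
    · change m _ _ _ (g.1 a) ≤ 0
      rw [ha]
      exact max_le (by simpa using (half_pos (h0 g)).le) (min_le_of_right_le (by simp))
    · change 1 ≤ m _ _ _ (g.1 b)
      rw [hb]
      exact le_max_of_le_left (by simp)
  · exact lt_of_le_of_lt ((ContinuousMap.dist_le (half_pos (h0 g)).le).2 fun x => (hm g x).2)
      (half_lt_self (h0 g))
  obtain ⟨K, O, k1, k2, k3, k4, k5, k6⟩ := (hr g).2.2 _ (hr g).1 le_rfl
  intro h
  obtain ⟨f, hf, h⟩ := mem_closure_iff.1 h _ ((ContinuousMap.isOpen_setOfPred_mapsTo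
    k1.isCompact k2).preimage continuous_subtype_val) fun x hx => k6 x hx _ rfl
  obtain ⟨n, -, _, ⟨x, hx, rfl⟩, h⟩ := h O Kᶜ k2 k1.isOpen_compl k4 k5
  exact h ((MapsTo.mono_right hf k3).iterate n (k3 hx))

end Pool.Agent.S12771
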