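import Pool.Statements.S12783
import Pool.Agent.Lib.helper5.SokScat

set_option autoImplicit false
open Pool Pool.MP_133c96_gt

namespace Pool.Agent.S12783

/-- For every scattered compact Hausdorff K, its ω-modification (same set, topology generated by Gδ sets) is Sokolov: for closed F_n ⊆ X^n there is a continuous f: X→X with countable-network image and f^n(F_n) ⊆ F_n for all n. -/
theorem result :
    ∀ (K : Type) [TopologicalSpace K] [CompactSpace K] [T2Space K]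
      (X : Type) [tX : TopologicalSpace X] (e : X ≃ K),
      (∀ S : Set K, S.Nonempty → ∃ x ∈ S, ∃ U : Set K, IsOpen U ∧ U ∩ S = {x}) →
      tX = TopologicalSpace.generateFrom
        {S : Set X | ∃ U : ℕ → Set K, (∀ n, IsOpen (U n)) ∧ S = e ⁻¹' (⋂ n, U n)} →
      ∀ F : (n : ℕ) → Set (Fin n → X), (∀ n, IsClosed (F n)) →
        ∃ f : X → X, Continuous f ∧
          (∃ N : Set (Set X), N.Countable ∧
            ∀ x ∈ Set.range f, ∀ U : Set X, IsOpen U → x ∈ U →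
              ∃ A ∈ N, x ∈ A ∧ A ⊆ Set.range f ∩ U) ∧
          ∀ n : ℕ, ∀ x ∈ F n, (fun i => f (x i)) ∈ F n := by
  intro K _ _ _ X tX e h ht F hF
  have : ∀ n (y : Fin n → K), ∃ 𝒲 : Set (Set K), 𝒲.Countable ∧ (∀ W ∈ 𝒲, IsClopen W) ∧
      ∀ x ∈ F n, (∀ i, ∀ W ∈ 𝒲, y i ∈ W → e (x i) ∈ W) → (fun i => e.symm (y i)) ∈ F n := by
    intro n y
    by_cases hy : (fun i => e.symm (y i)) ∈ F n
    · exact ⟨∅, Set.countable_empty, by simp, fun _ _ _ => hy⟩
    · obtain ⟨u, u1, u2⟩ := isOpen_pi_iff'.1 (hF n).isOpen_compl _ hy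
      choose 𝒲 w1 w2 w3 using fun i => H5SS.gd h e (u := u i)
        (by have := (u1 i).1; rw [ht] at this; exact this) _ (u1 i).2
      refine ⟨⋃ i, 𝒲 i, Set.countable_iUnion w1, fun W hW => ?_, fun x hx hx' => ?_⟩
      · obtain ⟨i, hi⟩ := Set.mem_iUnion.1 hW
        exact (w2 i W hi).1
      · exact (u2 (fun i _ => w3 i _ fun W hW => hx' i W (Set.mem_iUnion.2 ⟨i, hW⟩)
          (by simpa using (w2 i W hW).2)) hx).elim
  choose 𝒲 w1 w2 w3 using this
  obtain ⟨r, r1, r2, r3⟩ := H5SS.retr h 𝒲 w1 w2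
  refine ⟨fun x => e.symm (r (e x)), IsLocallyConstant.continuous
    ((IsLocallyConstant.iff_exists_open _).2 fun x => ?_),
    ⟨(fun y => {e.symm y}) '' Set.range r, r1.image _, ?_⟩,
    fun n x hx => w3 n _ x hx (r3 n fun i => e (x i))⟩
  · obtain ⟨U, u1, u2, u3⟩ := r2 (e x)
    refine ⟨e ⁻¹' ⋂ n, U n, ?_, u2, fun z hz => by rw [u3 _ hz]⟩
    rw [ht]
    exact TopologicalSpace.isOpen_generateFrom_of_mem ⟨U, u1, rfl⟩
  · rintro _ ⟨x, rfl⟩ U - hU
    exact ⟨_, ⟨_, ⟨e x, rfl⟩, rfl⟩, rfl, Set.singleton_subset_iff.2 ⟨⟨x, rfl⟩, hU⟩⟩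

end Pool.Agent.S12783
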