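import Pool.Statements.S12798
import Pool.Agent.Lib.helper31.Cont1

set_option autoImplicit false
open Pool Pool.MP_1501ba_gt

namespace Pool.Agent.S12798

open Set Pool.Agent.Lib.helper31.Cont1

theorem cutwire {X : Type} [TopologicalSpace X] [CompactSpace X] [T2Space X] (A A' : Set X)
    (hA : IsClosed A) (hA' : IsClosed A')
    (h : ∀ x ∈ A, ∀ y ∈ A', x ∉ connectedComponent y) :
    ∃ U : Set X, IsClopen U ∧ A ⊆ U ∧ ∀ y ∈ A', y ∉ U := by
  have : CompactSpace (ConnectedComponents X) :=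
    ConnectedComponents.surjective_coe.compactSpace ConnectedComponents.continuous_coe
  have h1 : IsClosed (ConnectedComponents.mk '' A) :=
    (hA.isCompact.image ConnectedComponents.continuous_coe).isClosed
  have h2 : IsClosed (ConnectedComponents.mk '' A') :=
    (hA'.isCompact.image ConnectedComponents.continuous_coe).isClosed
  obtain ⟨C, hC, h3, h4⟩ := exists_clopen_of_closed_subset_open h1 h2.isOpen_compl (by
    rintro _ ⟨x, hx, rfl⟩ ⟨y, hy, hxy⟩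
    exact h x hx y hy (ConnectedComponents.coe_eq_coe'.mp hxy.symm))
  exact ⟨_, hC.preimage ConnectedComponents.continuous_coe, fun x hx => h3 ⟨x, hx, rfl⟩,
    fun y hy hyU => h4 hyU ⟨y, hy, rfl⟩⟩

theorem minimal {M : Type} [TopologicalSpace M] [T2Space M] (φ : Spl × Sol → M)
    (hφ : Continuous φ) (hsurj : Function.Surjective φ) (f : M → ℝ)
    (hf : ∀ z, f (φ z) = kap z.1) (ρ : Sol → ℝ) (hρ : Continuous ρ) (G : ℝ → ℝ)
    (hG : Continuous G)
    (hzig : ∀ a b, a < b → ∃ x y z, a ≤ x ∧ x < y ∧ y < z ∧ z ≤ b ∧ G x < G y ∧ G z < G y)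
    (A : Set (Spl × Sol)) (hA : IsClosed A)
    (hA1 : ∀ z ∈ A, z.2 ∈ range eS ∧ kap z.1 = G (ρ z.2))
    (hinj : ∀ z z', φ z = φ z' → z = z' ∨ (z ∈ A ∧ z' ∈ A ∧ ρ z.2 = ρ z'.2))
    (D : Set M) (hD : IsClosed D) (hne : D ≠ univ) (honto : ∀ t ∈ Icc (0 : ℝ) 1, ∃ m ∈ D, f m = t)
    (hconn : ∀ t, IsPreconnected (D ∩ f ⁻¹' {t})) : False := by
  have hk : Continuous fun z : Spl × Sol => kap z.1 := kap_cont.comp continuous_fst
  have hr : Continuous fun z : Spl × Sol => ρ z.2 := hρ.comp continuous_snd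
  have hE : IsClosed (φ ⁻¹' D) := hD.preimage hφ
  -- separation principle
  have sep : ∀ t (P P' : Set (Spl × Sol)), IsClosed P → IsClosed P' →
      (∀ z, φ z ∈ D → kap z.1 = t → z ∈ P ∨ z ∈ P') → (∃ z ∈ P, φ z ∈ D ∧ kap z.1 = t) →
      (∃ z ∈ P', φ z ∈ D ∧ kap z.1 = t) → ∃ z ∈ P, ∃ z' ∈ P', φ z = φ z' ∧ φ z ∈ D ∧
        kap z.1 = t := by
    rintro t P P' hP hP' hcov ⟨z, hz, hz1, hz2⟩ ⟨z', hz', hz1', hz2'⟩
    obtain ⟨m, ⟨hm1, hm2⟩, ⟨w, hw, rfl⟩, w', hw', hww⟩ := isPreconnected_closed_iff.mp (hconn t)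
      (φ '' P) (φ '' P') (hP.isCompact.image hφ).isClosed (hP'.isCompact.image hφ).isClosed
      (by
        rintro m ⟨hm1, hm2⟩
        obtain ⟨w, rfl⟩ := hsurj m
        rcases hcov w hm1 (by rw [← hf]; exact hm2) with h | h
        · exact Or.inl ⟨w, h, rfl⟩
        · exact Or.inr ⟨w, h, rfl⟩)
      ⟨φ z, ⟨hz1, by rw [mem_preimage, hf]; exact hz2⟩, z, hz, rfl⟩
      ⟨φ z', ⟨hz1', by rw [mem_preimage, hf]; exact hz2'⟩, z', hz', rfl⟩
    exact ⟨w, hw, w', hw', hww.symm, hm1, by rw [← hf]; exact hm2⟩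
  have honto' : ∀ t ∈ Icc (0 : ℝ) 1, ∃ z, φ z ∈ D ∧ kap z.1 = t := fun t ht => by
    obtain ⟨m, hm, hmt⟩ := honto t ht
    obtain ⟨z, rfl⟩ := hsurj m
    exact ⟨z, hm, by rw [← hf, hmt]⟩
  -- D meets K densely
  have stepA : ∀ s s', 0 ≤ s → s < s' → s' ≤ 1 →
      ∃ z ∈ A, φ z ∈ D ∧ s < kap z.1 ∧ kap z.1 < s' := by
    intro s s' hs hss hs'
    obtain ⟨t, h1, h2, Q, hQ, hQ1, hQ2⟩ := kap_gap s s' hss
    have hP : IsClosed {z : Spl × Sol | z.1 ∈ Q} := hQ.isClosed.preimage continuous_fst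
    have hP' : IsClosed {z : Spl × Sol | z.1 ∉ Q} := hQ.compl.isClosed.preimage continuous_fst
    have hl : t ∈ (fun z : Spl × Sol => kap z.1) '' ({z | z.1 ∈ Q} ∩ φ ⁻¹' D) := by
      have hcl := (((hP.inter hE).isCompact).image hk).isClosed
      refine closure_minimal (s := Ioo s t) ?_ hcl (by rw [closure_Ioo h1.ne]; simp [h1.le])
      intro x hx
      obtain ⟨z, hz, rfl⟩ := honto' x ⟨by linarith [hx.1], by linarith [hx.2]⟩
      exact ⟨z, ⟨hQ1 _ hx.2, hz⟩, rfl⟩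
    have hu : t ∈ (fun z : Spl × Sol => kap z.1) '' ({z | z.1 ∉ Q} ∩ φ ⁻¹' D) := by
      have hcl := (((hP'.inter hE).isCompact).image hk).isClosed
      refine closure_minimal (s := Ioo t s') ?_ hcl (by rw [closure_Ioo h2.ne]; simp [h2.le])
      intro x hx
      obtain ⟨z, hz, rfl⟩ := honto' x ⟨by linarith [hx.1], by linarith [hx.2]⟩
      exact ⟨z, ⟨hQ2 _ hx.1, hz⟩, rfl⟩
    obtain ⟨z1, ⟨a1, a2⟩, a3⟩ := hl
    obtain ⟨z2, ⟨b1, b2⟩, b3⟩ := hu
    obtain ⟨z, hz, z', hz', hzz, hzD, hzt⟩ := sep t _ _ hP hP' (fun z _ _ => em _)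
      ⟨z1, a1, a2, a3⟩ ⟨z2, b1, b2, b3⟩
    rcases hinj z z' hzz with rfl | h
    · exact absurd hz hz'
    · exact ⟨z, h.1, hzD, by rw [hzt]; exact h1, by rw [hzt]; exact h2⟩
  have stepB : ∀ t ∈ Icc (0 : ℝ) 1, ∃ z ∈ A, φ z ∈ D ∧ kap z.1 = t := by
    intro t ht
    have hcl := (((hA.inter hE).isCompact).image hk).isClosed
    have : t ∈ (fun z : Spl × Sol => kap z.1) '' (A ∩ φ ⁻¹' D) := by
      rw [← hcl.closure_eq, Metric.mem_closure_iff]
      intro ε hε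
      obtain ⟨z, h1, h2, h3, h4⟩ := stepA (max 0 (t - ε)) (min 1 (t + ε)) (le_max_left _ _)
        (by
          simp only [max_lt_iff, lt_min_iff]
          refine ⟨⟨one_pos, by linarith [ht.2]⟩, by linarith [ht.1], by linarith⟩)
        (min_le_left _ _)
      refine ⟨_, ⟨z, ⟨h1, h2⟩, rfl⟩, ?_⟩
      rw [Real.dist_eq, abs_lt]
      have := le_max_right 0 (t - ε)
      have := min_le_right 1 (t + ε)
      constructor <;> linarith
    obtain ⟨z, ⟨h1, h2⟩, h3⟩ := this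
    exact ⟨z, h1, h2, h3⟩
  -- a box missed by D
  obtain ⟨m0, hm0⟩ := (ne_univ_iff_exists_notMem D).mp hne
  obtain ⟨⟨c0, y0⟩, rfl⟩ := hsurj m0
  obtain ⟨O, V, hO, hV, hc0, hy0, hOV⟩ := isOpen_prod_iff.mp hE.isOpen_compl c0 y0 hm0
  obtain ⟨a, b, ha, hab, hb, hbox⟩ := kap_box O hO ⟨c0, hc0⟩
  have hmiss : ∀ z, φ z ∈ D → kap z.1 ∈ Icc a b → z.2 ∉ V := fun z hz hz' hzV =>
    hOV (show z ∈ O ×ˢ V from ⟨hbox _ hz', hzV⟩) hz
  -- uniqueness
  have stepC : ∀ z ∈ A, ∀ z' ∈ A, φ z ∈ D → φ z' ∈ D → kap z.1 ∈ Icc a b → kap z'.1 = kap z.1 →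
      ¬ ρ z.2 < ρ z'.2 := by
    intro z hz z' hz' hzD hzD' ht htt hlt
    set t := kap z.1 with htdef
    obtain ⟨s, hs1, hs2, hs⟩ : ∃ s, ρ z.2 ≤ s ∧ s ≤ ρ z'.2 ∧ G s ≠ t := by
      obtain ⟨x, y, w, h1, h2, h3, h4, h5, -⟩ := hzig _ _ hlt
      by_cases hx : G x = t
      · exact ⟨y, by linarith, by linarith, by rw [← hx]; exact h5.ne'⟩
      · exact ⟨x, h1, by linarith, hx⟩
    let X : Set (Spl × Sol) := φ ⁻¹' D ∩ {w | kap w.1 = t}
    have hX : IsClosed X := hE.inter (isClosed_eq hk continuous_const)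
    have : CompactSpace X := isCompact_iff_compactSpace.mp hX.isCompact
    obtain ⟨U, hU, hU1, hU2⟩ := cutwire (X := X) {w | w.1 ∈ A ∧ ρ w.1.2 ≤ s}
      {w | w.1 ∈ A ∧ s ≤ ρ w.1.2}
      ((hA.preimage continuous_subtype_val).inter
        (isClosed_le (hr.comp continuous_subtype_val) continuous_const))
      ((hA.preimage continuous_subtype_val).inter
        (isClosed_le continuous_const (hr.comp continuous_subtype_val))) (by
        rintro w ⟨hw1, hw2⟩ w' ⟨hw1', hw2'⟩ hww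
        have hc : Continuous fun w : X => w.1.2 := continuous_snd.comp continuous_subtype_val
        let S := (fun w : X => w.1.2) '' connectedComponent w'
        have hS : IsClosed S := (isClosed_connectedComponent.isCompact.image hc).isClosed
        have hSc : IsPreconnected S := isPreconnected_connectedComponent.image _ hc.continuousOn
        have hSne : S ≠ univ := by
          intro h
          obtain ⟨p, -, hp⟩ : y0 ∈ S := h ▸ mem_univ _
          refine hmiss p.1 p.2.1 (by rw [show kap p.1.1 = t from p.2.2]; exact ht) ?_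
          rw [show p.1.2 = y0 from hp]; exact hy0
        obtain ⟨⟨u, hu⟩, hu2⟩ := hA1 _ hw1
        obtain ⟨⟨u', hu'⟩, -⟩ := hA1 _ hw1'
        have := eS_uniq S hS hSc hSne u u' (hu ▸ ⟨w, hww, rfl⟩)
          (hu' ▸ ⟨w', mem_connectedComponent, rfl⟩)
        have h2 : w.1.2 = w'.1.2 := by rw [← hu, ← hu', this]
        apply hs
        have h3 : ρ w.1.2 = s := le_antisymm hw2 (h2 ▸ hw2')
        rw [← h3, ← hu2]; exact w.2.2)
    have hP : IsClosed (Subtype.val '' U) := (hU.isClosed.isCompact.image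
      continuous_subtype_val).isClosed
    have hP' : IsClosed (Subtype.val '' Uᶜ) := (hU.compl.isClosed.isCompact.image
      continuous_subtype_val).isClosed
    obtain ⟨_, ⟨w, hw, rfl⟩, _, ⟨w', hw', rfl⟩, hww, -, -⟩ := sep t _ _ hP hP'
      (fun w h1 h2 => by
        by_cases h : (⟨w, h1, h2⟩ : X) ∈ U
        · exact Or.inl ⟨_, h, rfl⟩
        · exact Or.inr ⟨_, h, rfl⟩)
      ⟨z, ⟨⟨z, hzD, rfl⟩, hU1 ⟨hz, hs1⟩, rfl⟩, hzD, rfl⟩
      ⟨z', ⟨⟨z', hzD', htt⟩, hU2 _ ⟨hz', hs2⟩, rfl⟩, hzD', htt⟩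
    rcases hinj _ _ hww with h | ⟨h1, h2, h3⟩
    · exact hw' (Subtype.ext h ▸ hw)
    · rcases le_total (ρ w.1.2) s with h | h
      · exact hw' (hU1 ⟨h2, h3 ▸ h⟩)
      · exact hU2 w ⟨h1, h⟩ hw
  -- the section
  let Y : Set (Spl × Sol) := A ∩ φ ⁻¹' D ∩ {z | kap z.1 ∈ Icc a b}
  have hY : IsClosed Y := (hA.inter hE).inter (isClosed_Icc.preimage hk)
  have huniq : ∀ z ∈ Y, ∀ z' ∈ Y, kap z.1 = kap z'.1 → ρ z.2 = ρ z'.2 := fun z hz z' hz' h =>
    le_antisymm (not_lt.mp (stepC z' hz'.1.1 z hz.1.1 hz'.1.2 hz.1.2 hz'.2 h))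
      (not_lt.mp (stepC z hz.1.1 z' hz'.1.1 hz.1.2 hz'.1.2 hz.2 h.symm))
  have hex : ∀ t ∈ Icc a b, ∃ z ∈ Y, kap z.1 = t := fun t ht => by
    obtain ⟨z, h1, h2, h3⟩ := stepB t ⟨by linarith [ht.1], by linarith [ht.2]⟩
    exact ⟨z, ⟨⟨h1, h2⟩, by rw [mem_ofPred_eq, h3]; exact ht⟩, h3⟩
  have hord : ∀ z ∈ Y, ∀ z' ∈ Y, ∀ s, ρ z.2 ≤ s → s ≤ ρ z'.2 → ∃ w ∈ Y, ρ w.2 = s := by
    intro z hz z' hz' s h1 h2
    have c1 : IsClosed (Y ∩ {w | ρ w.2 ≤ s}) := hY.inter (isClosed_le hr continuous_const)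
    have c2 : IsClosed (Y ∩ {w | s ≤ ρ w.2}) := hY.inter (isClosed_le continuous_const hr)
    obtain ⟨t, -, ⟨w, hw, rfl⟩, w', hw', hww⟩ := isPreconnected_closed_iff.mp
      (isPreconnected_Icc (a := a) (b := b)) _ _ (c1.isCompact.image hk).isClosed
      (c2.isCompact.image hk).isClosed (by
        intro t ht
        obtain ⟨w, hw, rfl⟩ := hex t ht
        rcases le_total (ρ w.2) s with h | h
        · exact Or.inl ⟨w, ⟨hw, h⟩, rfl⟩
        · exact Or.inr ⟨w, ⟨hw, h⟩, rfl⟩)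
      ⟨_, hz.2, z, ⟨hz, h1⟩, rfl⟩ ⟨_, hz'.2, z', ⟨hz', h2⟩, rfl⟩
    have := huniq w' hw'.1 w hw.1 hww
    exact ⟨w, hw.1, le_antisymm hw.2 (this ▸ hw'.2)⟩
  have hfin : ∀ z ∈ Y, ∀ z' ∈ Y, ¬ ρ z.2 < ρ z'.2 := by
    intro z hz z' hz' hlt
    obtain ⟨x, y, w, h1, h2, h3, h4, h5, h6⟩ := hzig _ _ hlt
    have hinjG : ∀ p q, ρ z.2 ≤ p → p < q → q ≤ ρ z'.2 → G p ≠ G q := by
      intro p q e1 e2 e3 e4
      obtain ⟨w1, hw1, rfl⟩ := hord z hz z' hz' p e1 (by linarith)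
      obtain ⟨w2, hw2, rfl⟩ := hord z hz z' hz' q (by linarith) e3
      exact e2.ne (huniq w1 hw1 w2 hw2 (by rw [(hA1 _ hw1.1.1).2, (hA1 _ hw2.1.1).2, e4]))
    rcases le_total (G x) (G w) with h | h
    · obtain ⟨p, hp, hpp⟩ := intermediate_value_Icc h2.le hG.continuousOn ⟨h, h6.le⟩
      exact hinjG p w (by linarith [hp.1]) (by linarith [hp.2]) h4 hpp
    · obtain ⟨p, hp, hpp⟩ := intermediate_value_Icc' h3.le hG.continuousOn ⟨h, h5.le⟩
      exact hinjG x p h1 (by linarith [hp.1]) (by linarith [hp.2]) hpp.symm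
  obtain ⟨z, hz, hza⟩ := hex a ⟨le_rfl, hab.le⟩
  obtain ⟨z', hz', hzb⟩ := hex b ⟨hab.le, le_rfl⟩
  have := le_antisymm (not_lt.mp (hfin z hz z' hz')) (not_lt.mp (hfin z' hz' z hz))
  rw [(hA1 _ hz.1.1).2] at hza
  rw [(hA1 _ hz'.1.1).2, this, hza] at hzb
  exact hab.ne hzb

theorem exists_glue (ρ : Sol → ℝ) (hρ : Continuous ρ) (A : Set (Spl × Sol)) (hA : IsClosed A)
    (hne : A.Nonempty) : ∃ (Z : Type) (_ : MetricSpace Z) (Φ : Spl × Sol → Z)
      (pr : Z → ℝ) (pt : ℝ × ℝ → Z), Continuous Φ ∧ Continuous pr ∧ Continuous pt ∧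
      (∀ z, pr (Φ z) = kap z.1) ∧ (∀ z ∈ A, Φ z = pt (kap z.1, ρ z.2)) ∧
      ∀ z z', Φ z = Φ z' → z = z' ∨ (z ∈ A ∧ z' ∈ A ∧ ρ z.2 = ρ z'.2) := by
  obtain ⟨W, _, _, e, he, hecl⟩ : ∃ (W : Type) (_ : NormedAddCommGroup W) (_ : NormedSpace ℝ W)
      (e : Spl × Sol → W), Continuous e ∧ Function.Injective e := by
    let _ := TopologicalSpace.metrizableSpaceMetric (Spl × Sol)
    exact ⟨_, _, inferInstance, kuratowskiEmbedding _, (kuratowskiEmbedding.isometry _).continuous,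
      (kuratowskiEmbedding.isometry _).injective⟩
  obtain ⟨δ, hδ, hδ0⟩ : ∃ δ : Spl × Sol → ℝ, Continuous δ ∧ ∀ z, δ z = 0 ↔ z ∈ A := by
    let _ := TopologicalSpace.metrizableSpaceMetric (Spl × Sol)
    exact ⟨fun z => Metric.infDist z A, Metric.continuous_infDist_pt A,
      fun z => (hA.mem_iff_infDist_zero hne).symm⟩
  have hk : Continuous fun z : Spl × Sol => kap z.1 := kap_cont.comp continuous_fst
  have hr : Continuous fun z : Spl × Sol => ρ z.2 := hρ.comp continuous_snd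
  refine ⟨(ℝ × ℝ) × ℝ × W, inferInstance, fun z => ((kap z.1, ρ z.2), δ z, δ z • e z),
    fun w => w.1.1, fun p => (p, 0, 0), (hk.prodMk hr).prodMk (hδ.prodMk (hδ.smul he)),
    by fun_prop, by fun_prop, fun z => rfl, fun z hz => by simp [(hδ0 z).mpr hz], ?_⟩
  intro z z' h
  simp only [Prod.mk.injEq] at h
  obtain ⟨⟨-, h1⟩, h2, h3⟩ := h
  by_cases h0 : δ z = 0
  · exact Or.inr ⟨(hδ0 z).mp h0, (hδ0 z').mp (h2 ▸ h0), h1⟩
  · rw [← h2] at h3
    exact Or.inl (hecl (smul_right_injective _ h0 h3))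


/-- The negation of the preceding statement: Take a compact connected metric space M and a continuous surjection f onto [0,1] with connected fibres, such that no closed proper subset mapped onto [0,1] has f restricted to it with connected fibres. Then some two points of M lie in no proper closed connected subset. -/
theorem result :
    ¬ (∀ (M : Type) [MetricSpace M] [CompactSpace M] [ConnectedSpace M]
      (f : C(M, unitInterval)),
      Function.Surjective f →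
      (∀ t : unitInterval, IsPreconnected (f ⁻¹' {t})) →
      (∀ D : Set M, IsClosed D → D ≠ Set.univ → f '' D = Set.univ →
        ¬ ∀ t : unitInterval, IsPreconnected (D ∩ f ⁻¹' {t})) →
      ∃ p q : M, ∀ K : Set M, IsClosed K → IsConnected K → p ∈ K → q ∈ K →
        K = Set.univ) := by
  intro H
  obtain ⟨G, hG, hGr, hzig⟩ := exists_zigzag
  obtain ⟨ρ, hρ⟩ := ContinuousMap.exists_extension' (eS_cont.isClosedEmbedding eS_inj)
    (⟨Real.ofDigits, Real.continuous_ofDigits⟩ : C(ℕ → Fin 2, ℝ))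
  have hρ' : ∀ u, ρ (eS u) = Real.ofDigits u := fun u => congrFun hρ u
  have hk : Continuous fun z : Spl × Sol => kap z.1 := kap_cont.comp continuous_fst
  have hkr : ∀ c, kap c ∈ Icc (0 : ℝ) 1 := fun c => kap_range ▸ mem_range_self c
  have hks : ∀ t ∈ Icc (0 : ℝ) 1, ∃ c, kap c = t := fun t ht => by rwa [← kap_range] at ht
  let A : Set (Spl × Sol) := {z | z.2 ∈ range eS ∧ kap z.1 = G (ρ z.2)}
  have hA : IsClosed A := ((isCompact_range eS_cont).isClosed.preimage continuous_snd).inter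
    (isClosed_eq hk (hG.comp (ρ.continuous.comp continuous_snd)))
  have hAc : ∀ k ∈ Icc (0 : ℝ) 1, ∀ c, kap c = G k → ∃ y, (c, y) ∈ A ∧ ρ y = k := by
    intro k hk c hc
    obtain ⟨u, -, hu⟩ := Real.ofDigits_SurjOn (b := 2) (by norm_num) hk
    exact ⟨eS u, ⟨mem_range_self _, by rw [hρ', hu]; exact hc⟩, by rw [hρ', hu]⟩
  have hAc' : ∀ c, ∃ k ∈ Icc (0 : ℝ) 1, kap c = G k := fun c => by
    obtain ⟨k, h1, h2⟩ : kap c ∈ G '' Icc 0 1 := by rw [hGr]; exact hkr c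
    exact ⟨k, h1, h2.symm⟩
  have hne : A.Nonempty := by
    obtain ⟨c, -⟩ := hks 0 (by simp)
    obtain ⟨k, h1, h2⟩ := hAc' c
    obtain ⟨y, hy, -⟩ := hAc k h1 c h2
    exact ⟨_, hy⟩
  obtain ⟨Z, _, Φ, pr, pt, hΦ, hpr, hpt, h1, h2, h3⟩ := exists_glue ρ ρ.continuous A hA hne
  let M : Type := range Φ
  let φ : Spl × Sol → M := fun z => ⟨Φ z, mem_range_self z⟩
  have hφ : Continuous φ := hΦ.subtype_mk _
  have hsurj : Function.Surjective φ := by rintro ⟨_, z, rfl⟩; exact ⟨z, rfl⟩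
  have : CompactSpace M := hsurj.compactSpace hφ
  have hfr : ∀ m : M, pr m.1 ∈ Icc (0 : ℝ) 1 := by
    rintro ⟨_, z, rfl⟩; rw [h1]; exact hkr _
  let f : C(M, unitInterval) := ⟨fun m => ⟨pr m.1, hfr m⟩,
    (hpr.comp continuous_subtype_val).subtype_mk _⟩
  have hf : ∀ z, (f (φ z) : ℝ) = kap z.1 := h1
  have hcopy : ∀ c, IsPreconnected (range fun y => φ (c, y)) := fun c =>
    isPreconnected_range (hφ.comp (Continuous.prodMk_right c))
  -- fibres are connected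
  have hfib : ∀ t : unitInterval, IsPreconnected (f ⁻¹' {t}) := by
    intro t
    obtain ⟨k, hk1, hk2⟩ : (t : ℝ) ∈ G '' Icc 0 1 := by rw [hGr]; exact t.2
    obtain ⟨c0, hc0⟩ := hks t t.2
    obtain ⟨y0, hy0, hy0'⟩ := hAc k hk1 c0 (hc0.trans hk2.symm)
    refine isPreconnected_of_forall (φ (c0, y0)) fun m hm => ?_
    obtain ⟨⟨c, y⟩, rfl⟩ := hsurj m
    have hc : kap c = t := (hf (c, y)).symm.trans (congrArg Subtype.val hm)
    obtain ⟨y1, hy1, hy1'⟩ := hAc k hk1 c (hc.trans hk2.symm)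
    refine ⟨range fun y => φ (c, y), ?_, ⟨y1, ?_⟩, ⟨y, rfl⟩, hcopy c⟩
    · rintro _ ⟨y', rfl⟩
      exact Subtype.ext ((hf _).trans hc)
    · apply Subtype.ext
      change Φ _ = Φ _
      rw [h2 _ hy1, h2 _ hy0, hc, hc0, hy1', hy0']
  -- the arc
  have hK : IsPreconnected (φ '' A) := by
    rw [← Topology.IsInducing.subtypeVal.isPreconnected_image]
    have : Subtype.val '' (φ '' A) = (fun k => pt (G k, k)) '' Icc 0 1 := by
      apply Subset.antisymm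
      · rintro _ ⟨_, ⟨z, hz, rfl⟩, rfl⟩
        refine ⟨ρ z.2, ?_, ?_⟩
        · obtain ⟨u, hu⟩ := hz.1
          rw [← hu, hρ']
          exact ⟨Real.ofDigits_nonneg _, Real.ofDigits_le_one _⟩
        · change _ = Φ z
          rw [h2 z hz, hz.2]
      · rintro _ ⟨k, hk, rfl⟩
        obtain ⟨c, hc⟩ := hks (G k) (hGr ▸ mem_image_of_mem G hk)
        obtain ⟨y, hy, hy'⟩ := hAc k hk c hc
        refine ⟨_, ⟨_, hy, rfl⟩, ?_⟩
        change Φ _ = _
        rw [h2 _ hy, hc, hy']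
    rw [this]
    exact isPreconnected_Icc.image _ (hpt.comp (hG.prodMk continuous_id)).continuousOn
  have hmeet : ∀ t : unitInterval, (φ '' A ∩ f ⁻¹' {t}).Nonempty := by
    intro t
    obtain ⟨c, hc⟩ := hks t t.2
    obtain ⟨k, e1, e2⟩ := hAc' c
    obtain ⟨y, hy, -⟩ := hAc k e1 c e2
    exact ⟨_, ⟨_, hy, rfl⟩, Subtype.ext ((hf _).trans hc)⟩
  have : ConnectedSpace M := by
    obtain ⟨z0, hz0⟩ := hne
    rw [connectedSpace_iff_univ]
    refine ⟨⟨φ z0, trivial⟩, isPreconnected_of_forall (φ z0) fun m _ => ?_⟩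
    exact ⟨φ '' A ∪ f ⁻¹' {f m}, subset_univ _, Or.inl ⟨z0, hz0, rfl⟩, Or.inr rfl,
      hK.union' (hmeet (f m)) (hfib (f m))⟩
  obtain ⟨p, q, hpq⟩ := H M f (fun t => by
      obtain ⟨m, -, hm⟩ := hmeet t
      exact ⟨m, hm⟩) hfib (by
    intro D hD hne' honto hconn
    refine minimal φ hφ hsurj (fun m => f m) hf ρ ρ.continuous G hG hzig A hA (fun z hz => hz)
      (fun z z' h => h3 z z' (congrArg Subtype.val h)) D hD hne' (fun t ht => ?_) (fun t => ?_)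
    · obtain ⟨m, hm, hmt⟩ : (⟨t, ht⟩ : unitInterval) ∈ f '' D := honto ▸ mem_univ _
      exact ⟨m, hm, congrArg Subtype.val hmt⟩
    · by_cases ht : t ∈ Icc (0 : ℝ) 1
      · have := hconn ⟨t, ht⟩
        have e : (fun m => (f m : ℝ)) ⁻¹' {t} = f ⁻¹' {⟨t, ht⟩} :=
          Set.ext fun m => ⟨fun h => Subtype.ext h, fun h => congrArg Subtype.val h⟩
        rw [e]
        exact this
      · have : D ∩ (fun m => (f m : ℝ)) ⁻¹' {t} = ∅ := by
          rw [eq_empty_iff_forall_notMem]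
          rintro m ⟨-, hm⟩
          exact ht (hm ▸ (f m).2)
        rw [this]
        exact isPreconnected_empty)
  have hall := hpq ((φ '' A ∪ f ⁻¹' {f p}) ∪ f ⁻¹' {f q})
    (((hA.isCompact.image hφ).isClosed.union (isClosed_singleton.preimage f.continuous)).union
      (isClosed_singleton.preimage f.continuous))
    ⟨⟨q, Or.inr rfl⟩, (hK.union' (hmeet _) (hfib _)).union'
      ((hmeet _).mono (inter_subset_inter_left _ subset_union_left)) (hfib _)⟩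
    (Or.inl (Or.inr rfl)) (Or.inr rfl)
  obtain ⟨t, ht, htt⟩ := (Icc_infinite (zero_lt_one' ℝ)).exists_notMem_finite
    (toFinite ({(f p : ℝ), (f q : ℝ)} : Set ℝ))
  obtain ⟨c, hc⟩ := hks t ht
  obtain ⟨y, hy⟩ := eS_not_surj
  have hmem : φ (c, y) ∈ (φ '' A ∪ f ⁻¹' {f p}) ∪ f ⁻¹' {f q} := hall ▸ mem_univ _
  rcases hmem with (⟨z, hz, hzz⟩ | h) | h
  · rcases h3 _ _ (congrArg Subtype.val hzz) with h | h
    · exact hy (h ▸ hz).1
    · exact hy h.2.1.1
  · exact htt (Or.inl (hc.symm.trans ((hf (c, y)).symm.trans (congrArg Subtype.val h))))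
  · exact htt (Or.inr (hc.symm.trans ((hf (c, y)).symm.trans (congrArg Subtype.val h))))

end Pool.Agent.S12798
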