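import Pool.Statements.S12810
import Pool.Agent.Lib.helper17.KDet

set_option autoImplicit false
open Pool Pool.MP_16af68_gt

namespace Pool.Agent.S12810



/-- The negation of the preceding statement: For every Keimel–Lawson category K and every family of T0 spaces with K-reflections ηᵢ, the product of the ηᵢ is a K-reflection of the product space, so the K-reflection preserves arbitrary products. -/
theorem result :
    ¬ (∀ (K : (X : Type) → [TopologicalSpace X] → Prop),
    (∀ (X : Type) [TopologicalSpace X], K X → T0Space X) →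
    (∀ (X : Type) [TopologicalSpace X] [T0Space X] [QuasiSober X], K X) →
    (∀ (X Y : Type) [TopologicalSpace X] [TopologicalSpace Y],
        Nonempty (X ≃ₜ Y) → K X → K Y) →
    (∀ (Y : Type) [TopologicalSpace Y] [T0Space Y] [QuasiSober Y] (S : Set (Set Y)),
        (∀ A ∈ S, K ↥A) → K ↥(⋂₀ S)) →
    (∀ (X Y : Type) [TopologicalSpace X] [TopologicalSpace Y] [T0Space X] [QuasiSober X]
        [T0Space Y] [QuasiSober Y] (f : X → Y), Continuous f →
        ∀ B : Set Y, K ↥B → K ↥(f ⁻¹' B)) →
    ∀ (I : Type) (X R : I → Type) [∀ i, TopologicalSpace (X i)] [∀ i, T0Space (X i)]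
      [∀ i, TopologicalSpace (R i)] (η : ∀ i, X i → R i),
      (∀ i, Continuous (η i) ∧ K (R i) ∧
        ∀ (Z : Type) [TopologicalSpace Z], K Z → ∀ g : X i → Z, Continuous g →
          ∃! h : R i → Z, Continuous h ∧ h ∘ η i = g) →
      (Continuous (fun (x : ∀ i, X i) (i : I) => η i (x i)) ∧ K (∀ i, R i) ∧
        ∀ (Z : Type) [TopologicalSpace Z], K Z → ∀ g : (∀ i, X i) → Z, Continuous g →
          ∃! h : (∀ i, R i) → Z, Continuous h ∧
            (h ∘ fun (x : ∀ i, X i) (i : I) => η i (x i)) = g)) := by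
  intro h
  exact H17K.no_ext ((h H17K.K0 (fun _ _ h => h.1)
    (fun X _ _ _ => H17K.K0_sober X inferInstance inferInstance)
    (fun X Y _ _ ⟨e⟩ => H17K.K0_homeo X Y e) (fun Y _ _ _ => H17K.K0_inter Y)
    (fun X Y _ _ _ _ _ _ => H17K.K0_preimage X Y) ℕ H17K.W H17K.R H17K.eta
    (fun i => ⟨H17K.eta_cont i, H17K.K0_sober _ inferInstance inferInstance,
      H17K.eta_refl i⟩)).2.2 H17K.Y0 H17K.K0_Y0 H17K.jj H17K.jj_cont).exists

end Pool.Agent.S12810
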