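import Pool.Statements.S12822

set_option autoImplicit false
open Pool Pool.MP_182cc9_gt

namespace Pool.Agent.S12822

open Set

theorem sep_lemma {Y : Type} [TopologicalSpace Y] (P : Set Y) (J : ℕ → Set Y)
    (hJo : ∀ n, IsOpen (J n)) (hJc : ∀ n, P ∩ closure (J n) ⊆ J n)
    (hb : ∀ t ∈ P, ∀ O, IsOpen O → t ∈ O → ∃ n, t ∈ J n ∧ J n ⊆ O)
    (C1 C2 : Set Y) (h1 : IsClosed C1) (h2 : IsClosed C2) (hd : ∀ t ∈ P, t ∈ C1 → t ∉ C2) :
    ∃ O1 O2 : Set Y, IsOpen O1 ∧ IsOpen O2 ∧ P ⊆ O1 ∪ O2 ∧ Disjoint O1 O2 ∧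
      P ∩ C1 ⊆ O1 ∧ P ∩ C2 ⊆ O2 := by
  classical
  let good : ℕ → Prop := fun n => Disjoint (J n) C1 ∨ Disjoint (J n) C2
  let pc : ℕ → Set Y := fun n => J n \ ⋃ m ∈ {m | m < n ∧ good m}, closure (J m)
  have hpo : ∀ n, IsOpen (pc n) := by
    intro n
    apply (hJo n).sdiff
    exact ((finite_lt_nat n).subset (fun m hm => hm.1)).isClosed_biUnion
      (fun m _ => isClosed_closure)
  have hcov : ∀ t ∈ P, ∃ n, good n ∧ t ∈ pc n := by
    intro t ht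
    have hex : ∃ n, good n ∧ t ∈ J n := by
      by_cases h : t ∈ C1
      · obtain ⟨n, hn, hsub⟩ := hb t ht C2ᶜ h2.isOpen_compl (hd t ht h)
        exact ⟨n, Or.inr (disjoint_left.mpr fun x hx => hsub hx), hn⟩
      · obtain ⟨n, hn, hsub⟩ := hb t ht C1ᶜ h1.isOpen_compl h
        exact ⟨n, Or.inl (disjoint_left.mpr fun x hx => hsub hx), hn⟩
    refine ⟨Nat.find hex, (Nat.find_spec hex).1, (Nat.find_spec hex).2, ?_⟩
    intro hh
    simp only [mem_iUnion, mem_ofPred_eq] at hh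
    obtain ⟨m, ⟨hm, hg⟩, hmt⟩ := hh
    exact Nat.find_min hex hm ⟨hg, hJc m ⟨ht, hmt⟩⟩
  have huniq : ∀ t n m, good n → good m → t ∈ pc n → t ∈ pc m → n = m := by
    have aux : ∀ t n m, good m → t ∈ pc n → t ∈ pc m → ¬ m < n := by
      intro t n m hg hn hm hlt
      apply hn.2
      simp only [mem_iUnion, mem_ofPred_eq]
      exact ⟨m, ⟨hlt, hg⟩, subset_closure hm.1⟩
    intro t n m hn hm h1 h2
    have := aux t n m hm h1 h2
    have := aux t m n hn h2 h1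
    omega
  refine ⟨⋃ n ∈ {n | Disjoint (J n) C2}, pc n,
    ⋃ n ∈ {n | good n ∧ ¬ Disjoint (J n) C2}, pc n,
    isOpen_biUnion (fun n _ => hpo n), isOpen_biUnion (fun n _ => hpo n), ?_, ?_, ?_, ?_⟩
  · intro t ht
    obtain ⟨n, hg, hn⟩ := hcov t ht
    by_cases h : Disjoint (J n) C2
    · left; exact mem_biUnion h hn
    · right; exact mem_biUnion (show n ∈ {n | good n ∧ ¬ Disjoint (J n) C2} from ⟨hg, h⟩) hn
  · rw [disjoint_left]
    intro t ht1 ht2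
    simp only [mem_iUnion, mem_ofPred_eq] at ht1 ht2
    obtain ⟨n, hn, htn⟩ := ht1
    obtain ⟨m, hm, htm⟩ := ht2
    have := huniq t n m (Or.inr hn) hm.1 htn htm
    subst this
    exact hm.2 hn
  · rintro t ⟨ht, htC⟩
    obtain ⟨n, hg, hn⟩ := hcov t ht
    rcases hg with hg | hg
    · exact absurd htC (disjoint_left.mp hg hn.1)
    · exact mem_biUnion hg hn
  · rintro t ⟨ht, htC⟩
    obtain ⟨n, hg, hn⟩ := hcov t ht
    exact mem_biUnion (show n ∈ {n | good n ∧ ¬ Disjoint (J n) C2} from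
      ⟨hg, fun h => disjoint_left.mp h hn.1 htC⟩) hn

abbrev I := Icc (0 : ℝ) 1

def P (i : ℝ) : Set I := {t | ∀ q : ℚ, (t : ℝ) ≠ i + q}

theorem sepP (i : ℝ) (C1 C2 : Set I) (h1 : IsClosed C1) (h2 : IsClosed C2)
    (hd : ∀ t ∈ P i, t ∈ C1 → t ∉ C2) :
    ∃ O1 O2 : Set I, IsOpen O1 ∧ IsOpen O2 ∧ P i ⊆ O1 ∪ O2 ∧ Disjoint O1 O2 ∧
      P i ∩ C1 ⊆ O1 ∧ P i ∩ C2 ⊆ O2 := by
  obtain ⟨f, hf⟩ := exists_surjective_nat (ℚ × ℚ)
  refine sep_lemma (P i) (fun n => Subtype.val ⁻¹' Ioo (i + (f n).1) (i + (f n).2))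
    (fun n => isOpen_Ioo.preimage continuous_subtype_val) ?_ ?_ C1 C2 h1 h2 hd
  · rintro n t ⟨ht, hc⟩
    have : t ∈ Subtype.val ⁻¹' Icc (i + (f n).1) (i + (f n).2) :=
      closure_minimal (preimage_mono Ioo_subset_Icc_self)
        (isClosed_Icc.preimage continuous_subtype_val) hc
    exact ⟨lt_of_le_of_ne this.1 (ht _).symm, lt_of_le_of_ne this.2 (ht _)⟩
  · intro t _ O hO htO
    obtain ⟨ε, hε, hball⟩ := Metric.isOpen_iff.mp hO t htO
    obtain ⟨p, hp1, hp2⟩ := exists_rat_btwn (show (t : ℝ) - i - ε < t - i by linarith)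
    obtain ⟨q, hq1, hq2⟩ := exists_rat_btwn (show (t : ℝ) - i < t - i + ε by linarith)
    obtain ⟨n, hn⟩ := hf (p, q)
    refine ⟨n, ?_, ?_⟩
    · simp only [hn, mem_preimage, mem_Ioo]
      constructor <;> linarith
    · intro s hs
      simp only [hn, mem_preimage, mem_Ioo] at hs
      apply hball
      rw [Metric.mem_ball, Subtype.dist_eq, Real.dist_eq, abs_lt]
      constructor <;> linarith [hs.1, hs.2]

abbrev X := I × (ℝ → Bool)

open Classical in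
noncomputable def e (i : ℝ) : ℝ → Bool := fun k => decide (k = i)

def Z : Set X := {p | ∃ i, p.2 = e i ∧ p.1 ∈ P i}

theorem e_true {i k : ℝ} : e i k = true ↔ k = i := by simp [e]

theorem sepZ (C1 C2 : Set X) (h1 : IsClosed C1) (h2 : IsClosed C2)
    (hd : Disjoint (Z ∩ C1) (Z ∩ C2)) :
    ∃ O1 O2 : Set X, IsOpen O1 ∧ IsOpen O2 ∧ Z ⊆ O1 ∪ O2 ∧ Disjoint (Z ∩ O1) (Z ∩ O2) ∧
      Z ∩ C1 ⊆ O1 ∧ Z ∩ C2 ⊆ O2 := by
  have key := fun i => sepP i ((fun t => (t, e i)) ⁻¹' C1) ((fun t => (t, e i)) ⁻¹' C2)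
    (h1.preimage (by fun_prop)) (h2.preimage (by fun_prop)) (by
      intro t ht h1 h2
      have hz : (t, e i) ∈ Z := ⟨i, rfl, ht⟩
      exact disjoint_left.mp hd ⟨hz, h1⟩ ⟨hz, h2⟩)
  choose O1 O2 ho1 ho2 hcov hdis hs1 hs2 using key
  have hop : ∀ (O : ℝ → Set I), (∀ i, IsOpen (O i)) →
      IsOpen (⋃ i, {p : X | p.2 i = true ∧ p.1 ∈ O i}) := by
    intro O hO
    apply isOpen_iUnion
    intro i
    apply IsOpen.inter
    · exact (isOpen_discrete {true}).preimage (f := fun p : X => p.2 i) (by fun_prop)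
    · exact (hO i).preimage continuous_fst
  have hmem : ∀ (O : ℝ → Set I) (t : I) (i : ℝ),
      (t, e i) ∈ (⋃ i, {p : X | p.2 i = true ∧ p.1 ∈ O i}) ↔ t ∈ O i := by
    intro O t i
    simp only [mem_iUnion, mem_ofPred_eq, e_true]
    exact ⟨fun ⟨k, hk, h⟩ => hk ▸ h, fun h => ⟨i, rfl, h⟩⟩
  refine ⟨_, _, hop O1 ho1, hop O2 ho2, ?_, ?_, ?_, ?_⟩
  · rintro ⟨t, x⟩ ⟨i, rfl, ht⟩
    rcases hcov i ht with h | h
    · left; exact (hmem O1 t i).mpr h
    · right; exact (hmem O2 t i).mpr h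
  · rw [disjoint_left]
    rintro ⟨t, x⟩ ⟨⟨i, rfl, ht⟩, h1⟩ ⟨-, h2⟩
    exact disjoint_left.mp (hdis i) ((hmem O1 t i).mp h1) ((hmem O2 t i).mp h2)
  · rintro ⟨t, x⟩ ⟨⟨i, rfl, ht⟩, h1⟩
    exact (hmem O1 t i).mpr (hs1 i ⟨ht, h1⟩)
  · rintro ⟨t, x⟩ ⟨⟨i, rfl, ht⟩, h1⟩
    exact (hmem O2 t i).mpr (hs2 i ⟨ht, h1⟩)

theorem fin_dep {W : Set (ℝ → Bool)} (hW : IsOpen W) {y : ℝ → Bool} (hy : y ∈ W) :
    ∃ F : Finset ℝ, ∀ x, (∀ k ∈ F, x k = y k) → x ∈ W := by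
  obtain ⟨F, u, hu, hsub⟩ := isOpen_pi_iff.mp hW y hy
  refine ⟨F, fun x hx => hsub ?_⟩
  intro k hk
  rw [hx k hk]
  exact (hu k hk).2

theorem insep {U V : Set (ℝ → Bool)} (hU : IsOpen U) (hV : IsOpen V)
    (hA : ¬ {i | e i ∈ U}.Countable) (hB : ¬ {i | e i ∈ V}.Countable) : ¬ Disjoint U V := by
  classical
  have hinf : {i | e i ∈ V}.Infinite := fun h => hB h.countable
  let j := hinf.natEmbedding
  choose FV hFV using fun n => fin_dep hV (j n).2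
  have hc : (⋃ n, (FV n : Set ℝ)).Countable := countable_iUnion fun n => (FV n).countable_toSet
  obtain ⟨i, hi, hi2⟩ : ∃ i, e i ∈ U ∧ i ∉ ⋃ n, (FV n : Set ℝ) := by
    by_contra hh
    push Not at hh
    exact hA (hc.mono fun i hi => hh i hi)
  obtain ⟨FU, hFU⟩ := fin_dep hU hi
  obtain ⟨n, hn⟩ : ∃ n, (j n).1 ∉ FU := by
    by_contra hh
    push Not at hh
    have hinj : Function.Injective (fun n => (j n).1) :=
      Subtype.val_injective.comp j.injective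
    exact (infinite_range_of_injective hinj) (FU.finite_toSet.subset (by
      rintro _ ⟨n, rfl⟩; exact hh n))
  rw [not_disjoint_iff]
  refine ⟨fun k => decide (k = i ∨ k = (j n).1), hFU _ ?_, hFV n _ ?_⟩
  · intro k hk
    have : k ≠ (j n).1 := fun h => hn (h ▸ hk)
    simp [e, this]
  · intro k hk
    have : k ≠ i := fun h => hi2 (mem_iUnion.mpr ⟨n, h ▸ hk⟩)
    simp [e, this]

theorem T_open {U : Set X} (hU : IsOpen U) :
    IsOpen {t : I | ¬ {i | (t, e i) ∈ U}.Countable} := by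
  rw [Metric.isOpen_iff]
  intro t ht
  have hex : ∃ n : ℕ, ¬ {i | ∀ s ∈ Metric.ball t (1 / (n + 1 : ℝ)), (s, e i) ∈ U}.Countable := by
    by_contra hh
    push Not at hh
    apply ht
    refine (countable_iUnion hh).mono ?_
    intro i hi
    have ho : IsOpen ((fun s : I => (s, e i)) ⁻¹' U) := hU.preimage (by fun_prop)
    obtain ⟨ε, hε, hball⟩ := Metric.isOpen_iff.mp ho t hi
    obtain ⟨n, hn⟩ := exists_nat_one_div_lt hε
    exact mem_iUnion.mpr ⟨n, fun s hs => hball (Metric.ball_subset_ball hn.le hs)⟩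
  obtain ⟨n, hn⟩ := hex
  refine ⟨1 / (n + 1 : ℝ), by positivity, fun s hs hc => hn (hc.mono fun i hi => hi s hs)⟩

theorem no_partition {U V : Set X} (hU : IsOpen U) (hV : IsOpen V) (hZ : Z ⊆ U ∪ V)
    (h0 : ∀ x, (0, x) ∈ U) (h1 : ∀ x, (1, x) ∈ V) : ¬ Disjoint U V := by
  intro hd
  have hunc : ¬ (univ : Set ℝ).Countable := Cardinal.not_countable_real
  have hpre : IsPreconnected (univ : Set I) := isPreconnected_univ
  obtain ⟨t, -, ht1, ht2⟩ := hpre _ _ (T_open hU) (T_open hV) (by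
      intro t _
      by_contra hh
      simp only [mem_union, mem_ofPred_eq, not_or, not_not] at hh
      apply hunc
      refine ((hh.1.union hh.2).union (countable_range (fun q : ℚ => (t : ℝ) - q))).mono ?_
      intro i _
      by_cases hi : t ∈ P i
      · left
        exact hZ (show (t, e i) ∈ Z from ⟨i, rfl, hi⟩)
      · right
        simp only [P, mem_ofPred_eq, not_forall, not_not] at hi
        obtain ⟨q, hq⟩ := hi
        exact ⟨q, by simp [hq]⟩)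
    ⟨0, trivial, by simpa [h0] using hunc⟩ ⟨1, trivial, by simpa [h1] using hunc⟩
  refine insep (U := (fun x => (t, x)) ⁻¹' U) (V := (fun x => (t, x)) ⁻¹' V)
    (hU.preimage (by fun_prop)) (hV.preimage (by fun_prop)) ht1 ht2 ?_
  exact hd.preimage _

def DD : ℕ → Set X → Set X → Prop
  | 0 => fun Y A => A ∩ Y = ∅
  | k + 1 => fun Y A => (A ∩ Y = ∅ ∨
          ∀ F G : Set X, (∃ C : Set X, IsClosed C ∧ F = Y ∩ C) →
            (∃ C : Set X, IsClosed C ∧ G = Y ∩ C) → Disjoint F G →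
            ∃ S U V : Set X, S ⊆ Y ∧ (∃ C : Set X, IsClosed C ∧ S = Y ∩ C) ∧
              (∃ O : Set X, IsOpen O ∧ U = Y ∩ O) ∧
              (∃ O : Set X, IsOpen O ∧ V = Y ∩ O) ∧
              Disjoint U V ∧ Y \ S = U ∪ V ∧ F ⊆ U ∧ G ⊆ V ∧
              DD k S (A ∩ S))

theorem result :
    ¬ (∀ (X : Type) [TopologicalSpace X] [T4Space X] (Z : Set X) (n : ℕ)
      (D : ℕ → Set X → Set X → Prop),
      (∀ Y A : Set X, D 0 Y A ↔ A ∩ Y = ∅) →
      (∀ (k : ℕ) (Y A : Set X), D (k + 1) Y A ↔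
        (A ∩ Y = ∅ ∨
          ∀ F G : Set X, (∃ C : Set X, IsClosed C ∧ F = Y ∩ C) →
            (∃ C : Set X, IsClosed C ∧ G = Y ∩ C) → Disjoint F G →
            ∃ S U V : Set X, S ⊆ Y ∧ (∃ C : Set X, IsClosed C ∧ S = Y ∩ C) ∧
              (∃ O : Set X, IsOpen O ∧ U = Y ∩ O) ∧
              (∃ O : Set X, IsOpen O ∧ V = Y ∩ O) ∧
              Disjoint U V ∧ Y \ S = U ∪ V ∧ F ⊆ U ∧ G ⊆ V ∧
              D k S (A ∩ S))) →
      D n Z Z → D n Set.univ Z) := by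
  intro h
  have h1 : DD 1 Z Z := by
    right
    rintro F G ⟨C1, hC1, rfl⟩ ⟨C2, hC2, rfl⟩ hd
    obtain ⟨O1, O2, ho1, ho2, hcov, hdis, hs1, hs2⟩ := sepZ C1 C2 hC1 hC2 hd
    refine ⟨∅, Z ∩ O1, Z ∩ O2, empty_subset _, ⟨∅, isClosed_empty, by simp⟩, ⟨O1, ho1, rfl⟩,
      ⟨O2, ho2, rfl⟩, hdis, ?_, fun x hx => ⟨hx.1, hs1 hx⟩, fun x hx => ⟨hx.1, hs2 hx⟩, ?_⟩
    · rw [sdiff_empty, ← inter_union_distrib_left, inter_eq_left.mpr hcov]
    · show _ ∩ _ = _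
      simp
  have h2 := h X Z 1 DD (fun _ _ => Iff.rfl) (fun _ _ _ => Iff.rfl) h1
  rcases h2 with h2 | h2
  · have hi : Irrational (Real.sqrt 2) := irrational_sqrt_two
    have : ((0 : I), e (Real.sqrt 2)) ∈ Z ∩ univ := by
      refine ⟨⟨_, rfl, fun q hq => hi ⟨-q, ?_⟩⟩, trivial⟩
      simp only [Icc.coe_zero] at hq
      push_cast
      linarith
    rw [h2] at this
    exact this
  · obtain ⟨S, U, V, -, -, ⟨O1, ho1, rfl⟩, ⟨O2, ho2, rfl⟩, hdis, hcov, hF, hG, hS⟩ :=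
      h2 (univ ∩ {p | p.1 = 0}) (univ ∩ {p | p.1 = 1})
        ⟨_, isClosed_eq continuous_fst continuous_const, rfl⟩
        ⟨_, isClosed_eq continuous_fst continuous_const, rfl⟩ (by
          rw [disjoint_left]
          rintro p ⟨-, hp0⟩ ⟨-, hp1⟩
          exact zero_ne_one (hp0.symm.trans hp1))
    have hS' : Z ∩ S ∩ S = ∅ := hS
    simp only [univ_inter] at hdis hcov hF hG
    refine no_partition ho1 ho2 ?_ (fun x => hF rfl) (fun x => hG rfl) hdis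
    intro p hp
    rw [← hcov]
    refine ⟨trivial, fun hpS => ?_⟩
    have : p ∈ Z ∩ S ∩ S := ⟨⟨hp, hpS⟩, hpS⟩
    rw [hS'] at this
    exact this

end Pool.Agent.S12822
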