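import Pool.Statements.S12824
import Pool.Agent.Lib.helper5.Beth

set_option autoImplicit false
open Pool Pool.MP_189718_gt

namespace Pool.Agent.S12824

/-- The negation of the preceding statement: For compact Hausdorff K and uncountable κ: if C_p(K) with the pointwise topology maps continuously onto [0,1]^κ, then K has a discrete subset of size κ on which every bounded continuous real function extends continuously to K. -/
theorem result :
    ¬ (∀ (K : Type) [TopologicalSpace K] [CompactSpace K] [T2Space K] (ι : Type),
      Cardinal.aleph0 < Cardinal.mk ι →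
      (∃ φ : {f : K → ℝ // Continuous f} → (ι → unitInterval),
          Continuous φ ∧ Function.Surjective φ) →
      ∃ D : Set K, DiscreteTopology (↥D) ∧ Cardinal.mk (↥D) = Cardinal.mk ι ∧
        ∀ g : (↥D) → ℝ, Continuous g → (∃ M : ℝ, ∀ x : ↥D, |g x| ≤ M) →
          ∃ G : K → ℝ, Continuous G ∧ ∀ x : ↥D, G (x : K) = g x) := by
  intro h
  obtain ⟨D, _, h1, h2⟩ := h (OnePoint H5B.S) _ H5B.unc H5B.onto
  obtain ⟨g, g1, g2⟩ := H5B.no_disc D h1
  exact g2 (h2 g continuous_of_discreteTopology ⟨1, g1⟩)

end Pool.Agent.S12824
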