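import Pool.Statements.S12863
-- import your own Pool.Agent.* helpers here

set_option autoImplicit false
open Pool Pool.MP_1e945b_gt

namespace Pool.Agent.S12863

section
open Set Filter Topology Metric Cardinal

def Q {Y : Type} [TopologicalSpace Y] (R T : Set Y) : Prop := ∃ G, IsGδ G ∧ T ⊆ G ∧ G ⊆ R

lemma Q.mono {Y : Type} [TopologicalSpace Y] {R T T' : Set Y} (h : Q R T) (h' : T' ⊆ T) :
    Q R T' := by
  obtain ⟨G, a, b, c⟩ := h
  exact ⟨G, a, h'.trans b, c⟩

lemma Q.union {Y : Type} [TopologicalSpace Y] {R T T' : Set Y} (h : Q R T) (h' : Q R T') :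
    Q R (T ∪ T') := by
  obtain ⟨G, a, b, c⟩ := h
  obtain ⟨G', a', b', c'⟩ := h'
  exact ⟨G ∪ G', a.union a', union_subset_union b b', union_subset c c'⟩

lemma pf {Y ι : Type} [MetricSpace Y] (N : ι → Set Y) (hN : ∀ i, IsOpen (N i)) :
    ∃ M : ι → Set Y, (∀ i, IsOpen (M i)) ∧ (∀ i, M i ⊆ N i) ∧
      (∀ i, ∀ y ∈ N i, ∃ j, y ∈ M j) ∧ ∀ y, {i | y ∈ M i}.Finite := by
  have hW : IsOpen (⋃ i, N i) := isOpen_iUnion hN
  obtain ⟨v, hv1, hv2, hv3, hv4⟩ := precise_refinement
    (fun i => (Subtype.val ⁻¹' N i : Set (⋃ i, N i : Set Y)))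
    (fun i => (hN i).preimage continuous_subtype_val) (by
      apply eq_univ_of_forall
      intro x
      obtain ⟨i, hi⟩ := mem_iUnion.mp x.2
      exact mem_iUnion.mpr ⟨i, hi⟩)
  refine ⟨fun i => Subtype.val '' v i, fun i => hW.isOpenMap_subtype_val _ (hv1 i), ?_, ?_, ?_⟩
  · rintro i _ ⟨x, hx, rfl⟩
    exact hv4 i hx
  · intro i y hy
    obtain ⟨j, hj⟩ := mem_iUnion.mp (hv2.symm ▸ mem_univ
      (⟨y, mem_iUnion.mpr ⟨i, hy⟩⟩ : (⋃ i, N i : Set Y)) : _ ∈ ⋃ i, v i)
    exact ⟨j, _, hj, rfl⟩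
  · intro y
    by_cases h : y ∈ ⋃ i, N i
    · refine (hv3.point_finite ⟨y, h⟩).subset ?_
      rintro i ⟨x, hx, rfl⟩
      exact hx
    · refine finite_empty.subset ?_
      rintro i ⟨x, -, rfl⟩
      exact absurd x.2 h

lemma sieve {Y P : Type} [MetricSpace Y] (R T : Set Y) (V : P → Set Y) (ch : P → P → Prop)
    (r : P) (hV : ∀ s s', ch s s' → IsOpen (V s'))
    (a0 : ∀ y ∈ T, ∃ s', ch r s' ∧ y ∈ V s')
    (a1 : ∀ s0 s, ch s0 s → ∀ y ∈ T, y ∈ V s → ∃ s', ch s s' ∧ y ∈ V s')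
    (b : ∀ (s : ℕ → P) (y : Y), s 0 = r → (∀ n, ch (s n) (s (n + 1))) →
      (∀ n, y ∈ V (s (n + 1))) → y ∈ R) : Q R T := by
  classical
  have h0 : ∀ (s : P) (O : {O : Set Y // IsOpen O}), ∃ M : P → Set Y, (∀ i, IsOpen (M i)) ∧
      (∀ i, ∀ y ∈ M i, ch s i ∧ y ∈ V i ∧ y ∈ O.1) ∧
      (∀ i, ch s i → ∀ y ∈ V i, y ∈ O.1 → ∃ j, y ∈ M j) ∧ ∀ y, {i | y ∈ M i}.Finite := by
    intro s O
    obtain ⟨M, h1, h2, h3, h4⟩ := pf (fun i => if ch s i then V i ∩ O.1 else ∅) (fun i => by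
      split_ifs with h
      · exact (hV _ _ h).inter O.2
      · exact isOpen_empty)
    refine ⟨M, h1, fun i y hy => ?_, fun i hi y hy hO => h3 i y (by simp [hi, hy, hO]), h4⟩
    have := h2 i hy
    by_cases h : ch s i
    · simp only [h, if_true] at this
      exact ⟨h, this.1, this.2⟩
    · simp [h] at this
  choose M M1 M2 M3 M4 using h0
  let nx : P × {O : Set Y // IsOpen O} → P → P × {O : Set Y // IsOpen O} :=
    fun q i => (i, ⟨M q.1 q.2 i, M1 _ _ _⟩)
  let W : ℕ → P × {O : Set Y // IsOpen O} → Set Y := fun n =>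
    Nat.rec (fun q => q.2.1) (fun _ w q => ⋃ i, w (nx q i)) n
  have W0 : ∀ q, W 0 q = q.2.1 := fun q => rfl
  have W1 : ∀ n q, W (n + 1) q = ⋃ i, W n (nx q i) := fun n q => rfl
  have Wo : ∀ n q, IsOpen (W n q) := by
    intro n
    induction n with
    | zero => exact fun q => q.2.2
    | succ n ih => exact fun q => isOpen_iUnion fun i => ih _
  have Wa : ∀ n q, W (n + 1) q ⊆ W n q := by
    intro n
    induction n with
    | zero =>
      intro q y hy
      obtain ⟨i, hi⟩ := mem_iUnion.mp hy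
      exact (M2 _ _ i y hi).2.2
    | succ n ih =>
      intro q
      rw [W1 (n + 1), W1 n]
      exact iUnion_mono fun i => ih _
  have Wa' : ∀ q, Antitone fun n => W n q := fun q => antitone_nat_of_succ_le fun n => Wa n q
  let q0 : P × {O : Set Y // IsOpen O} := (r, ⟨univ, isOpen_univ⟩)
  refine ⟨⋂ n, W n q0, IsGδ.iInter_of_isOpen fun n => Wo n q0, ?_, ?_⟩
  · intro y hy
    have : ∀ n (q : P × {O : Set Y // IsOpen O}), (∃ s', ch q.1 s' ∧ y ∈ V s') → y ∈ q.2.1 →
        y ∈ W n q := by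
      intro n
      induction n with
      | zero => exact fun q _ h => h
      | succ n ih =>
        rintro q ⟨s', h1, h2⟩ h
        obtain ⟨j, hj⟩ := M3 q.1 q.2 s' h1 y h2 h
        have := M2 _ _ j y hj
        exact mem_iUnion.mpr ⟨j, ih _ (a1 _ _ this.1 y hy this.2.1) hj⟩
    exact mem_iInter.mpr fun n => this n q0 (a0 y hy) trivial
  · intro y hy
    have st : ∀ q : {q // ∀ n, y ∈ W n q}, ∃ i, ∀ n, y ∈ W n (nx q.1 i) := by
      rintro ⟨q, hq⟩
      by_contra hc
      push Not at hc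
      choose k hk using hc
      obtain ⟨N, hN⟩ := ((M4 q.1 q.2 y).image k).bddAbove
      obtain ⟨i, hi⟩ := mem_iUnion.mp (hq (N + 1))
      have h1 : y ∈ M q.1 q.2 i := Wa' (nx q i) (Nat.zero_le N) hi
      exact hk i (Wa' (nx q i) (hN ⟨i, h1, rfl⟩) hi)
    choose c hc using st
    let s : ℕ → {q // ∀ n, y ∈ W n q} := fun n =>
      Nat.rec ⟨q0, mem_iInter.mp hy⟩ (fun _ q => ⟨nx q.1 (c q), hc q⟩) n
    have h2 : ∀ n, ch (s n).1.1 (s (n + 1)).1.1 ∧ y ∈ V (s (n + 1)).1.1 := by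
      intro n
      have := M2 (s n).1.1 (s n).1.2 (c (s n)) y (hc (s n) 0)
      exact ⟨this.1, this.2.1⟩
    exact b (fun n => (s n).1.1) y rfl (fun n => (h2 n).1) (fun n => (h2 n).2)

lemma lg {Y : Type} [MetricSpace Y] (R T : Set Y)
    (h : ∀ y ∈ T, ∃ r > 0, Q R (T ∩ ball y r)) : Q R T := by
  have h1 : ∀ y : T, ∃ r > 0, ∃ U : ℕ → Set Y, (∀ n, IsOpen (U n)) ∧
      T ∩ ball y.1 r ⊆ ⋂ n, U n ∧ ⋂ n, U n ⊆ R := by
    intro y
    obtain ⟨r, hr, G, hG, h2, h3⟩ := h y.1 y.2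
    obtain ⟨U, hU, rfl⟩ := isGδ_iff_eq_iInter_nat.mp hG
    exact ⟨r, hr, U, hU, h2, h3⟩
  choose r hr U hU h2 h3 using h1
  let V : Option (T × ℕ) → Set Y := fun s => s.elim univ (fun p => ball p.1.1 (r p.1) ∩ U p.1 p.2)
  refine sieve R T V (fun s s' => ∃ j n, s' = some (j, n) ∧
    (s = none ∧ n = 0 ∨ ∃ m, s = some (j, m) ∧ n = m + 1)) none ?_ ?_ ?_ ?_
  · rintro s _ ⟨j, n, rfl, -⟩
    exact isOpen_ball.inter (hU _ _)
  · intro y hy
    exact ⟨some (⟨y, hy⟩, 0), ⟨_, _, rfl, Or.inl ⟨rfl, rfl⟩⟩, mem_ball_self (hr _),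
      mem_iInter.mp (h2 ⟨y, hy⟩ ⟨hy, mem_ball_self (hr _)⟩) 0⟩
  · rintro s0 _ ⟨j, n, rfl, -⟩ y hy hV
    exact ⟨some (j, n + 1), ⟨_, _, rfl, Or.inr ⟨n, rfl, rfl⟩⟩, hV.1,
      mem_iInter.mp (h2 j ⟨hy, hV.1⟩) _⟩
  · intro s y h0 hch hV
    obtain ⟨j, n, e1, e2⟩ := hch 0
    have e3 : n = 0 := by
      rcases e2 with e2 | ⟨m, e2, -⟩
      · exact e2.2
      · rw [h0] at e2; cases e2
    have : ∀ k, s (k + 1) = some (j, k) := by
      intro k
      induction k with
      | zero => rw [e1, e3]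
      | succ k ih =>
        obtain ⟨j', n', f1, f2⟩ := hch (k + 1)
        rcases f2 with f2 | ⟨m, f2, f3⟩
        · rw [ih] at f2; cases f2.1
        · rw [ih] at f2
          cases f2
          rw [f1, f3]
    apply h3 j
    refine mem_iInter.mpr fun k => ?_
    have h5 := hV k
    rw [this k] at h5
    exact h5.2

lemma game {X Y H : Type} [MetricSpace X] [MetricSpace Y] [TopologicalSpace H] (ι : X → Y)
    (hι : Isometry ι) (c : H → Set X) (hc : ∀ A, (c A).Nonempty) (e : X → H) (he : Continuous e)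
    (S : Set X) (hS : ∀ x ∈ S, ∀ ε > 0, ∃ U, IsOpen U ∧ e x ∈ U ∧ ∀ A ∈ U, c A ⊆ ball x ε)
    (σ : List (H × Set H) → Set H)
    (h1 : ∀ h y U, y ∈ U → IsOpen U → IsOpen (σ (h ++ [(y, U)])) ∧ y ∈ σ (h ++ [(y, U)]) ∧
      σ (h ++ [(y, U)]) ⊆ U)
    (h2 : ∀ p : ℕ → H × Set H, (∀ n, (p n).1 ∈ (p n).2 ∧ IsOpen (p n).2) →
      (∀ n, (p (n + 1)).2 ⊆ σ (List.ofFn (fun i : Fin (n + 1) => p i.val))) →
      (⋂ n, σ (List.ofFn (fun i : Fin (n + 1) => p i.val))).Nonempty) :
    Q (range ι) (ι '' S) := by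
  let ch : List (H × Set H) × Set Y → List (H × Set H) × Set Y → Prop := fun s s' =>
    ∃ x U, s'.1 = s.1 ++ [(e x, U)] ∧ IsOpen U ∧ e x ∈ U ∧ (s.1 ≠ [] → U ⊆ σ s.1) ∧
      (∀ A ∈ U, c A ⊆ ball x (1 / ((s.1.length : ℝ) + 1))) ∧ IsOpen s'.2 ∧
      s'.2 ⊆ ball (ι x) (1 / ((s.1.length : ℝ) + 1)) ∧ ∀ z, ι z ∈ s'.2 → e z ∈ σ s'.1
  have step : ∀ (s : List (H × Set H) × Set Y) (x : X), x ∈ S → ∀ B : Set H, IsOpen B →
      e x ∈ B → (s.1 ≠ [] → B ⊆ σ s.1) → ∃ s', ch s s' ∧ ι x ∈ s'.2 := by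
    intro s x hx B hB hxB hBσ
    have hp : (0 : ℝ) < 1 / ((s.1.length : ℝ) + 1) := by positivity
    obtain ⟨U, hU, hxU, hU2⟩ := hS x hx _ hp
    obtain ⟨g1, g2, -⟩ := h1 s.1 (e x) (U ∩ B) ⟨hxU, hxB⟩ (hU.inter hB)
    obtain ⟨O, hO, hOe⟩ := hι.isEmbedding.isInducing.isOpen_iff.mp (g1.preimage he)
    refine ⟨(s.1 ++ [(e x, U ∩ B)], O ∩ ball (ι x) (1 / ((s.1.length : ℝ) + 1))),
      ⟨x, U ∩ B, rfl, hU.inter hB, ⟨hxU, hxB⟩, fun h => inter_subset_right.trans (hBσ h),
        fun A hA => hU2 A hA.1, hO.inter isOpen_ball, inter_subset_right, fun z hz => ?_⟩,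
      ?_, mem_ball_self hp⟩
    · have : z ∈ ι ⁻¹' O := hz.1
      rw [hOe] at this
      exact this
    · have : x ∈ ι ⁻¹' O := by rw [hOe]; exact g2
      exact this
  refine sieve _ _ Prod.snd ch ([], univ) ?_ ?_ ?_ ?_
  · rintro s s' ⟨x, U, -, -, -, -, -, h, -⟩
    exact h
  · rintro _ ⟨x, hx, rfl⟩
    exact step _ x hx univ isOpen_univ trivial (fun h => absurd rfl h)
  · rintro s0 s ⟨x, U, e1, e2, e3, -, -, -, -, e4⟩ _ ⟨z, hz, rfl⟩ hV
    refine step s z hz (σ s.1) ?_ (e4 z hV) (fun _ => subset_rfl)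
    rw [e1]
    exact (h1 _ _ _ e3 e2).1
  · intro s y h0 hch hV
    choose x U e1 e2 e3 e4 e5 e6 e7 e8 using hch
    let p : ℕ → H × Set H := fun n => (e (x n), U n)
    have hl : ∀ n, (s n).1 = List.ofFn (fun i : Fin n => p i.val) := by
      intro n
      induction n with
      | zero => rw [h0]; rfl
      | succ n ih => rw [e1, ih, List.ofFn_succ_last]; simp [p]
    have hlen : ∀ n, (s n).1.length = n := fun n => by rw [hl, List.length_ofFn]
    obtain ⟨A, hA⟩ := h2 p (fun n => ⟨e3 n, e2 n⟩) (fun n => by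
      rw [← hl]
      apply e4
      intro h
      have := hlen (n + 1)
      rw [h] at this
      simp at this)
    obtain ⟨a, ha⟩ := hc A
    refine ⟨a, eq_of_forall_dist_le fun ε hε => ?_⟩
    obtain ⟨n, hn⟩ := exists_nat_one_div_lt (half_pos hε)
    have f1 := mem_iInter.mp hA n
    rw [← hl, e1] at f1
    have f2 := e5 n A ((h1 _ _ _ (e3 n) (e2 n)).2.2 f1) ha
    have f3 := e7 n (hV n)
    rw [mem_ball, hlen] at f2 f3
    rw [← hι.dist_eq] at f2
    have := dist_triangle_right (ι a) y (ι (x n))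
    linarith


lemma remet {X : Type} [MetricSpace X] (D O : Set X) (hO : O.Nonempty) (η : ℝ) (hη : 0 < η)
    (hη1 : η ≤ 1) (hDO : ∀ y ∈ D, ∀ o ∈ O, η ≤ dist y o)
    (hD : ∀ z, ∃ c > 0, ∀ y ∈ D, y ≠ z → c ≤ dist z y) (φ : X → X) (hφ : ∀ y ∈ D, φ y ∈ O) :
    ∃ d : X → X → ℝ, (∀ x, d x x = 0) ∧ (∀ x y, d x y = d y x) ∧
      (∀ x y z, d x z ≤ d x y + d y z) ∧ (∀ x y, min 1 (dist x y) ≤ d x y) ∧
      (∀ x, ∃ L > 0, ∀ y, d x y ≤ L * dist x y) ∧
      (∀ y ∈ D, ∀ z ε, 0 < ε → ε ≤ η → ε ≤ dist z (φ y) → d y z ≤ 3 - ε) ∧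
      (∀ y ∈ D, ∀ x ∈ O, 3 - dist x (φ y) ≤ d y x) := by
  let K : X → Set X := fun y => (D \ {y}) ∪ O
  have hK : ∀ y, (K y).Nonempty := fun y => hO.mono subset_union_right
  let a : X → X → ℝ := fun y z => infDist z (K y)
  let b : X → X → ℝ := fun y z => dist z y + a y z
  have ha0 : ∀ y z, 0 ≤ a y z := fun y z => infDist_nonneg
  have hab : ∀ y z, a y z ≤ b y z := fun y z => le_add_of_nonneg_left dist_nonneg
  have hb : ∀ z, ∃ c > 0, ∀ y ∈ D, c ≤ b y z := by
    intro z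
    obtain ⟨c, hc, h⟩ := hD z
    refine ⟨min c η, lt_min hc hη, fun y hy => ?_⟩
    by_cases h1 : y = z
    · subst h1
      refine le_trans ?_ (hab y y)
      rw [le_infDist (hK y)]
      rintro w (hw | hw)
      · exact (min_le_left _ _).trans (h w hw.1 hw.2)
      · exact (min_le_right _ _).trans (hDO y hy w hw)
    · exact ((min_le_left _ _).trans (h y hy h1)).trans (le_add_of_nonneg_right (ha0 y z))
  have hb0 : ∀ y ∈ D, ∀ z, 0 < b y z := fun y hy z => by
    obtain ⟨c, hc, h⟩ := hb z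
    exact hc.trans_le (h y hy)
  let h : X → X → ℝ := fun y z => a y z / b y z
  have hh0 : ∀ y ∈ D, ∀ z, 0 ≤ h y z := fun y hy z => div_nonneg (ha0 y z) (hb0 y hy z).le
  have hh1 : ∀ y ∈ D, ∀ z, h y z ≤ 1 := fun y hy z => (div_le_one (hb0 y hy z)).mpr (hab y z)
  let k : X → X → ℝ := fun y z => 3 - min 1 (dist z (φ y))
  have hk2 : ∀ y z, 2 ≤ k y z := fun y z => by
    have := min_le_left 1 (dist z (φ y)); simp only [k]; linarith
  have hk3 : ∀ y z, k y z ≤ 3 := fun y z => by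
    have : 0 ≤ min 1 (dist z (φ y)) := le_min zero_le_one dist_nonneg
    simp only [k]; linarith
  let ψ : X → X → ℝ := fun y z => (1 - h y z) * k y z
  have hψ0 : ∀ y ∈ D, ∀ z, 0 ≤ ψ y z := fun y hy z =>
    mul_nonneg (by linarith [hh1 y hy z]) (by linarith [hk2 y z])
  have hψk : ∀ y ∈ D, ∀ z, ψ y z ≤ k y z := fun y hy z => by
    have := mul_nonneg (hh0 y hy z) (show 0 ≤ k y z by linarith [hk2 y z])
    simp only [ψ]; linarith
  have hψy : ∀ y ∈ D, ψ y y = 0 := by
    intro y hy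
    have h1 := hb0 y hy y
    have h2 : b y y = a y y := by simp [b]
    have : h y y = 1 := by simp only [h]; rw [← h2]; exact div_self h1.ne'
    simp only [ψ, this]; simp
  have hψK : ∀ y, ∀ z ∈ K y, ψ y z = k y z := by
    intro y z hz
    have : a y z = 0 := infDist_zero_of_mem hz
    simp only [ψ, h, this]; simp
  have hbd : ∀ z w, BddAbove (range fun y : D => |ψ y z - ψ y w|) := by
    intro z w
    refine ⟨3, ?_⟩
    rintro _ ⟨y, rfl⟩
    have := hψ0 y y.2 z
    have := hψ0 y y.2 w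
    have := (hψk y y.2 z).trans (hk3 _ _)
    have := (hψk y y.2 w).trans (hk3 _ _)
    simp only
    rw [abs_le]; constructor <;> linarith
  have hs0 : ∀ z w, 0 ≤ ⨆ y : D, |ψ y z - ψ y w| :=
    fun z w => Real.iSup_nonneg fun _ => abs_nonneg _
  have hm0 : ∀ z w : X, 0 ≤ min 1 (dist z w) := fun z w => le_min zero_le_one dist_nonneg
  refine ⟨fun z w => max (min 1 (dist z w)) (⨆ y : D, |ψ y z - ψ y w|), ?_, ?_, ?_,
    fun x y => le_max_left _ _, ?_, ?_, ?_⟩
  · intro x; simp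
  · intro x y
    simp only [dist_comm x y, abs_sub_comm (ψ _ x)]
  · intro x y z
    apply max_le
    · refine le_trans ?_ (add_le_add (le_max_left _ _) (le_max_left _ _))
      have := dist_triangle x y z
      have := hm0 x y
      have := hm0 y z
      have := min_le_left 1 (dist x z)
      have := min_le_right 1 (dist x z)
      rcases min_choice 1 (dist x y) with e1 | e1 <;>
        rcases min_choice 1 (dist y z) with e2 | e2 <;> linarith
    · refine le_trans ?_ (add_le_add (le_max_right _ _) (le_max_right _ _))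
      refine Real.iSup_le (fun w => ?_) (add_nonneg (hs0 _ _) (hs0 _ _))
      exact (abs_sub_le _ (ψ w y) _).trans (add_le_add (le_ciSup (hbd x y) w) (le_ciSup (hbd y z) w))
  · intro x
    obtain ⟨c, hc, hcb⟩ := hb x
    have hL : 0 < 9 / c + 1 := by positivity
    refine ⟨9 / c + 1, hL, fun z => max_le ((min_le_right _ _).trans ?_) ?_⟩
    · have : 0 ≤ 9 / c * dist x z := by positivity
      linarith
    · refine Real.iSup_le (fun y => ?_) (by positivity)
      have e1 : |a y x - a y z| ≤ dist x z := by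
        have a1 := infDist_le_infDist_add_dist (x := x) (y := z) (s := K y)
        have a2 := infDist_le_infDist_add_dist (x := z) (y := x) (s := K y)
        rw [dist_comm z x] at a2
        rw [abs_le]; constructor <;> simp only [a] <;> linarith
      have e2 : |b y x - b y z| ≤ 2 * dist x z := by
        have a1 := abs_le.mp (abs_dist_sub_le x z y.1)
        have a2 := abs_le.mp e1
        rw [abs_le]; constructor <;> simp only [b] <;> linarith
      have e3 : |h y x - h y z| ≤ 3 * dist x z / c := by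
        have b1 := hb0 y y.2 x
        have b2 := hb0 y y.2 z
        have : h y x - h y z = ((a y x - a y z) - h y z * (b y x - b y z)) / b y x := by
          simp only [h]; field_simp; ring
        rw [this, abs_div, abs_of_pos b1]
        refine div_le_div₀ (by positivity) ?_ hc (hcb y y.2)
        refine (abs_sub _ _).trans ?_
        rw [abs_mul, abs_of_nonneg (hh0 y y.2 z)]
        have := mul_le_mul (hh1 y y.2 z) e2 (abs_nonneg _) zero_le_one
        linarith
      have e4 : |k y x - k y z| ≤ dist x z := by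
        have a1 := abs_dist_sub_le z x (φ y)
        have a2 := abs_min_sub_min_le_max 1 (dist z (φ y)) 1 (dist x (φ y))
        have : k y x - k y z = min 1 (dist z (φ y)) - min 1 (dist x (φ y)) := by
          simp only [k]; ring
        rw [this]
        refine a2.trans (max_le (by simp) (dist_comm z x ▸ a1))
      have : ψ y x - ψ y z = (1 - h y z) * (k y x - k y z) - (h y x - h y z) * k y x := by
        simp only [ψ]; ring
      rw [this]
      refine (abs_sub _ _).trans ?_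
      rw [abs_mul, abs_mul, abs_of_nonneg (show 0 ≤ 1 - h y z by linarith [hh1 y y.2 z]),
        abs_of_nonneg (show 0 ≤ k y x by linarith [hk2 y x])]
      have f1 := mul_le_mul (show 1 - h y z ≤ 1 by linarith [hh0 y y.2 z]) e4 (abs_nonneg _)
        zero_le_one
      have f2 := mul_le_mul e3 (hk3 y x) (by linarith [hk2 y x]) (by positivity)
      have f3 : (9 / c + 1) * dist x z = 1 * dist x z + 3 * dist x z / c * 3 := by ring
      linarith
  · intro y hy z ε hε hεη hz
    refine max_le ((min_le_left _ _).trans (by linarith)) ?_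
    refine Real.iSup_le (fun w => ?_) (by linarith)
    have g0 := hψ0 w w.2 z
    have g1 := hψk w w.2 z
    have g3 := hk3 w z
    by_cases hw : y = w.1
    · subst hw
      rw [hψy _ w.2, zero_sub, abs_neg, abs_of_nonneg g0]
      have : ε ≤ min 1 (dist z (φ w)) := le_min (by linarith) hz
      simp only [k] at g1
      linarith
    · rw [hψK w y (Or.inl ⟨hy, hw⟩)]
      have g4 := hk2 w y
      have : ε ≤ min 1 (dist y (φ w)) :=
        le_min (by linarith) (hεη.trans (hDO y hy _ (hφ w w.2)))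
      have g5 : k w y ≤ 3 - ε := by simp only [k]; linarith
      rw [abs_le]; constructor <;> linarith
  · intro y hy x hx
    refine le_trans ?_ ((le_ciSup (hbd y x) ⟨y, hy⟩).trans (le_max_right _ _))
    simp only
    rw [hψy y hy, hψK y x (Or.inr hx), zero_sub, abs_neg]
    refine le_trans ?_ (le_abs_self _)
    have := min_le_right 1 (dist x (φ y))
    simp only [k]; linarith

lemma maxsep {X : Type} [MetricSpace X] (A : Set X) (ε : ℝ) (hε : 0 < ε) :
    ∃ E ⊆ A, (E.Pairwise fun x y => ε ≤ dist x y) ∧ ∀ x ∈ A, ∃ y ∈ E, dist x y < ε := by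
  obtain ⟨E, hE⟩ := zorn_subset {E | E ⊆ A ∧ E.Pairwise fun x y => ε ≤ dist x y} (by
    intro c hc hch
    exact ⟨⋃₀ c, ⟨sUnion_subset fun t ht => (hc ht).1,
      (Set.pairwise_sUnion hch.directedOn).mpr fun t ht => (hc ht).2⟩,
      fun t ht => subset_sUnion_of_mem ht⟩)
  refine ⟨E, hE.1.1, hE.1.2, fun x hx => ?_⟩
  by_contra h
  push Not at h
  have h1 : insert x E ⊆ E := hE.2 ⟨insert_subset hx hE.1.1,
    hE.1.2.insert fun y hy _ => ⟨h y hy, dist_comm x y ▸ h y hy⟩⟩ (subset_insert _ _)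
  have := h x (h1 (mem_insert _ _))
  rw [dist_self] at this
  linarith

lemma sepdisc {X : Type} [MetricSpace X] (E : Set X) (ε : ℝ) (hε : 0 < ε)
    (h : E.Pairwise fun x y => ε ≤ dist x y) (z : X) : ∀ᶠ y in 𝓝 z, y ∈ E → y = z := by
  by_cases h1 : ∃ w ∈ E, w ≠ z ∧ dist w z < ε / 2
  · obtain ⟨w, hw, hwz, hd⟩ := h1
    filter_upwards [ball_mem_nhds z (half_pos hε), isOpen_ne.mem_nhds hwz.symm] with y hy hyw hyE
    have := h hyE hw hyw
    have := dist_triangle_right y w z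
    rw [mem_ball] at hy
    linarith
  · filter_upwards [ball_mem_nhds z (half_pos hε)] with y hy hyE
    by_contra h2
    exact h1 ⟨y, hyE, h2, hy⟩

lemma disc {X : Type} [MetricSpace X] (Z : Set X) (hZ : IsClosed Z) (x1 : X) (R : ℝ)
    (hR : 0 < R) (hn : ¬ IsCompact (Z ∩ closedBall x1 R)) (κ : Cardinal.{0})
    (hκ : ∀ x ∈ Z, ∀ r > 0, ∀ E ⊆ Z ∩ ball x r, Z ∩ ball x r ⊆ closure E → κ ≤ #E) :
    ∃ D ⊆ ball x1 (2 * R), (∀ z, ∃ c > 0, ∀ y ∈ D, y ≠ z → c ≤ dist z y) ∧ κ ≤ #D := by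
  rw [isCompact_iff_isSeqCompact] at hn
  have hn' : ∃ u : ℕ → X, (∀ n, u n ∈ Z ∩ closedBall x1 R) ∧
      ∀ z, ∃ c > 0, ∀ᶠ n in atTop, c ≤ dist (u n) z := by
    by_contra hc
    push Not at hc
    apply hn
    intro u hu
    obtain ⟨z, hz⟩ := hc u hu
    have h1 : MapClusterPt z atTop u := by
      rw [mapClusterPt_iff_frequently]
      intro s hs
      obtain ⟨c, hc, hcs⟩ := Metric.mem_nhds_iff.mp hs
      exact (hz c hc).mono fun n h => hcs h
    obtain ⟨f, hf, h2⟩ := h1.tendsto_subseq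
    exact ⟨z, (hZ.inter isClosed_closedBall).mem_of_tendsto h2
      (Eventually.of_forall fun n => hu _), f, hf, h2⟩
  obtain ⟨u, hu, hu2⟩ := hn'
  let s : ℕ → ℝ := fun n => min R (1 / ((n : ℝ) + 1))
  have hs : ∀ n, 0 < s n := fun n => lt_min hR (by positivity)
  choose E E1 E2 E3 using fun n m : ℕ =>
    maxsep (Z ∩ ball (u n) (s n)) (1 / ((m : ℝ) + 1)) (by positivity)
  have hE : ∀ n (μ : Cardinal.{0}), ℵ₀ ≤ μ → (∀ m, #(E n m) ≤ μ) → κ ≤ μ := by
    intro n μ hμ h
    refine (hκ (u n) (hu n).1 _ (hs n) (⋃ m, E n m) (iUnion_subset fun m => E1 n m) ?_).trans ?_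
    · intro x hx
      rw [Metric.mem_closure_iff]
      intro ε hε
      obtain ⟨m, hm⟩ := exists_nat_one_div_lt hε
      obtain ⟨y, hy, hxy⟩ := E3 n m x hx
      exact ⟨y, mem_iUnion.mpr ⟨m, hy⟩, hxy.trans hm⟩
    · refine (Cardinal.mk_iUnion_le _).trans ?_
      rw [Cardinal.mk_nat]
      exact (mul_le_mul' le_rfl (ciSup_le' h)).trans (Cardinal.aleph0_mul_eq hμ).le
  have hm : ∃ m : ℕ → ℕ, ∀ μ : Cardinal.{0}, ℵ₀ ≤ μ → (∀ n, #(E n (m n)) ≤ μ) → κ ≤ μ := by
    by_cases h : ∀ n, ∃ m, #(E 0 n) ≤ #(E n m)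
    · choose m hm using h
      exact ⟨m, fun μ hμ h' => hE 0 μ hμ fun n => (hm n).trans (h' n)⟩
    · push Not at h
      obtain ⟨n, h⟩ := h
      exact ⟨fun _ => n, fun μ hμ h' => hE n μ hμ fun m => (h m).le.trans (h' 0)⟩
  obtain ⟨m, hm⟩ := hm
  have hB : ∀ n, insert (u n) (E n (m n)) ⊆ ball (u n) (s n) :=
    fun n => insert_subset (mem_ball_self (hs n)) fun y hy => (E1 n _ hy).2
  refine ⟨⋃ n, insert (u n) (E n (m n)), iUnion_subset fun n y hy => ?_, fun z => ?_, ?_⟩
  · have a1 := hB n hy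
    have a2 := (hu n).2
    have a3 : s n ≤ R := min_le_left _ _
    rw [mem_ball] at a1 ⊢
    rw [mem_closedBall] at a2
    have := dist_triangle y (u n) x1
    linarith
  · obtain ⟨c, hc, h⟩ := hu2 z
    obtain ⟨N, hN⟩ := eventually_atTop.mp (h.and
      ((tendsto_order.mp tendsto_one_div_add_atTop_nhds_zero_nat).2 _ (half_pos hc)))
    have h1 : ∀ᶠ y in 𝓝 z, ∀ n ∈ Finset.range N, y ∈ insert (u n) (E n (m n)) → y = z := by
      rw [eventually_all_finset]
      intro n _
      filter_upwards [sepdisc _ _ (by positivity) (E2 n (m n)) z,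
        sepdisc {u n} 1 one_pos (pairwise_singleton _ _) z] with y h2 h3 h4
      exact h4.elim h3 h2
    obtain ⟨c', hc', h2⟩ := Metric.eventually_nhds_iff.mp h1
    refine ⟨min c' (c / 2), lt_min hc' (half_pos hc), fun y hy hyz => ?_⟩
    obtain ⟨n, hy⟩ := mem_iUnion.mp hy
    by_cases h3 : n < N
    · refine (min_le_left _ _).trans (not_lt.mp fun h4 => hyz ?_)
      exact h2 (dist_comm z y ▸ h4) n (Finset.mem_range.mpr h3) hy
    · obtain ⟨a1, a2⟩ := hN n (not_lt.mp h3)
      have a3 := hB n hy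
      have a4 : s n ≤ 1 / ((n : ℝ) + 1) := min_le_right _ _
      rw [mem_ball] at a3
      have := dist_triangle_left (u n) z y
      refine (min_le_right _ _).trans ?_
      rw [dist_comm z y]
      linarith
  · apply hm
    · rw [Cardinal.aleph0_le_mk_iff, infinite_coe_iff]
      refine Set.Infinite.mono (s := range u) ?_ ?_
      · rintro _ ⟨n, rfl⟩
        exact mem_iUnion.mpr ⟨n, mem_insert _ _⟩
      · intro hf
        have : ∀ᶠ n in atTop, ∀ z ∈ range u, u n ≠ z := by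
          rw [hf.eventually_all]
          intro z _
          obtain ⟨c, hc, h⟩ := hu2 z
          filter_upwards [h] with n h1 h2
          rw [h2, dist_self] at h1
          linarith
        obtain ⟨n, h⟩ := this.exists
        exact h _ ⟨n, rfl⟩ rfl
    · exact fun n => Cardinal.mk_le_mk_of_subset
        ((subset_insert _ _).trans (subset_iUnion (fun n => insert (u n) (E n (m n))) n))

def HW (X : Type) [t : TopologicalSpace X] : Prop :=
  ∀ (m : MetricSpace X), m.toUniformSpace.toTopologicalSpace = t →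
      ∀ τ : TopologicalSpace {A : Set X // IsClosed A ∧ A.Nonempty},
        τ = ⨅ x : X, TopologicalSpace.induced
              (fun A : {A : Set X // IsClosed A ∧ A.Nonempty} =>
                @EMetric.infEdist X m.toPseudoEMetricSpace x A.1)
              (inferInstance : TopologicalSpace ENNReal) →
        ∃ σ : List ({A : Set X // IsClosed A ∧ A.Nonempty} ×
                Set {A : Set X // IsClosed A ∧ A.Nonempty}) →
              Set {A : Set X // IsClosed A ∧ A.Nonempty},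
          (∀ (h : List ({A : Set X // IsClosed A ∧ A.Nonempty} ×
                Set {A : Set X // IsClosed A ∧ A.Nonempty}))
              (y : {A : Set X // IsClosed A ∧ A.Nonempty})
              (U : Set {A : Set X // IsClosed A ∧ A.Nonempty}),
              y ∈ U → @IsOpen _ τ U →
                @IsOpen _ τ (σ (h ++ [(y, U)])) ∧ y ∈ σ (h ++ [(y, U)]) ∧
                  σ (h ++ [(y, U)]) ⊆ U) ∧
          ∀ p : ℕ → ({A : Set X // IsClosed A ∧ A.Nonempty} ×
                Set {A : Set X // IsClosed A ∧ A.Nonempty}),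
            (∀ n, (p n).1 ∈ (p n).2 ∧ @IsOpen _ τ (p n).2) →
            (∀ n, (p (n + 1)).2 ⊆ σ (List.ofFn (fun i : Fin (n + 1) => p i.val))) →
            (⋂ n, σ (List.ofFn (fun i : Fin (n + 1) => p i.val))).Nonempty

lemma aux {X : Type} [m : MetricSpace X] (y : X) :
    (Continuous fun z => EMetric.infEdist y {z}) ∧
    ∀ c : ℝ, (∀ z, c < dist y z → 0 ≤ c → ENNReal.ofReal c < EMetric.infEdist y {z}) ∧
      ∀ (A : Set X), ∀ z ∈ A, ENNReal.ofReal c < EMetric.infEdist y A → c < dist y z := by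
  have e : ∀ z, EMetric.infEdist y {z} = edist y z := fun z => Metric.infEDist_singleton
  refine ⟨?_, fun c => ⟨fun z h h0 => ?_, fun A z hz h => ?_⟩⟩
  · simp only [e]; fun_prop
  · rw [e, edist_dist]
    exact (ENNReal.ofReal_lt_ofReal_iff (h0.trans_lt h)).mpr h
  · have h1 : EMetric.infEdist y A ≤ edist y z := Metric.infEDist_le_edist_of_mem hz
    have h2 := h.trans_le h1
    rw [edist_dist] at h2
    by_contra h3
    exact absurd h2 (not_lt.mpr (ENNReal.ofReal_le_ofReal (not_lt.mp h3)))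

lemma wij {X Y : Type} [m0 : MetricSpace X] [MetricSpace Y] (ι : X → Y) (hι : Isometry ι)
    (hw : HW X) (d : X → X → ℝ) (d1 : ∀ x, d x x = 0) (d2 : ∀ x y, d x y = d y x)
    (d3 : ∀ x y z, d x z ≤ d x y + d y z) (d4 : ∀ x y, min 1 (dist x y) ≤ d x y)
    (d5 : ∀ x, ∃ L > 0, ∀ y, d x y ≤ L * dist x y) (S : Set X)
    (hS : ∀ x ∈ S, ∀ ε > 0, ∃ y c, 0 ≤ c ∧ c < d y x ∧ ∀ z, ε ≤ dist z x → d y z ≤ c) :
    Q (range ι) (ι '' S) := by
  have hm : ∃ m : MetricSpace X,
      m.toUniformSpace.toTopologicalSpace = m0.toUniformSpace.toTopologicalSpace ∧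
      ∀ x y, @dist X m.toDist x y = d x y := ⟨MetricSpace.ofDistTopology d d1 d2 d3 (by
    intro s
    rw [Metric.isOpen_iff]
    refine forall₂_congr fun x _ => ⟨?_, ?_⟩
    · rintro ⟨ε, hε, h⟩
      refine ⟨min 1 ε, lt_min one_pos hε, fun y hy => h ?_⟩
      rw [mem_ball, dist_comm]
      have := (d4 x y).trans_lt hy
      rcases min_lt_min_right_iff.mp this with ⟨h1, -⟩
      exact h1
    · rintro ⟨ε, hε, h⟩
      obtain ⟨L, hL, h1⟩ := d5 x
      refine ⟨ε / L, div_pos hε hL, fun y hy => h y ?_⟩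
      rw [mem_ball, dist_comm, lt_div_iff₀ hL] at hy
      have := h1 y
      linarith) (by
    intro x y h
    have h1 := d4 x y
    rw [h] at h1
    rcases min_le_iff.mp h1 with h2 | h2
    · linarith
    · exact dist_le_zero.mp h2), rfl, fun _ _ => rfl⟩
  obtain ⟨m, hm1, hm2⟩ := hm
  obtain ⟨σ, h1, h2⟩ := hw m hm1 _ rfl
  have ax := @aux X m
  simp only [hm2] at ax
  let _ : MetricSpace X := m0
  let τ : TopologicalSpace {A : Set X // IsClosed A ∧ A.Nonempty} :=
    ⨅ x : X, TopologicalSpace.induced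
      (fun A : {A : Set X // IsClosed A ∧ A.Nonempty} =>
        @EMetric.infEdist X m.toPseudoEMetricSpace x A.1)
      (inferInstance : TopologicalSpace ENNReal)
  refine game ι hι (fun A : {A : Set X // IsClosed A ∧ A.Nonempty} => A.1) (fun A => A.2.2)
    (fun x => ⟨{x}, isClosed_singleton, singleton_nonempty x⟩) ?_ S ?_ σ h1 h2
  · refine continuous_iInf_rng.mpr fun y => continuous_induced_rng.mpr ?_
    exact @continuous_le_dom X ENNReal _ m.toUniformSpace.toTopologicalSpace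
      m0.toUniformSpace.toTopologicalSpace _ hm1.ge (ax y).1
  · intro x hx ε hε
    obtain ⟨y, c, hc0, hc, h⟩ := hS x hx ε hε
    refine ⟨{A | ENNReal.ofReal c < @EMetric.infEdist X m.toPseudoEMetricSpace y A.1}, ?_,
      ((ax y).2 c).1 x hc hc0, fun A hA z hz => ?_⟩
    · have : Continuous fun A : {A : Set X // IsClosed A ∧ A.Nonempty} =>
          @EMetric.infEdist X m.toPseudoEMetricSpace y A.1 :=
        continuous_iInf_dom (i := y) continuous_induced_dom
      exact isOpen_lt continuous_const this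
    · have h3 : c < d y z := ((ax y).2 c).2 A.1 z hz hA
      by_contra h4
      exact absurd (h z (not_lt.mp h4)) (not_le.mpr h3)

lemma allQ {X Y : Type} [MetricSpace X] [MetricSpace Y] (ι : X → Y) (hι : Isometry ι)
    (hw : HW X) : Q (range ι) (range ι) := by
  classical
  have hb : ∀ (S : Set X) x r, ι '' S ∩ ball (ι x) r ⊆ ι '' (S ∩ ball x r) := by
    rintro S x r _ ⟨⟨z, hz, rfl⟩, h⟩
    exact ⟨z, ⟨hz, by rwa [mem_ball, hι.dist_eq] at h⟩, rfl⟩
  let Z : Set X := {x | ∀ r > 0, ¬ Q (range ι) (ι '' ball x r)}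
  have hZc : Q (range ι) (ι '' Zᶜ) := by
    apply lg
    rintro _ ⟨x, hx, rfl⟩
    simp only [Z, mem_compl_iff, mem_ofPred_eq] at hx
    push Not at hx
    obtain ⟨r, hr, h⟩ := hx
    exact ⟨r, hr, h.mono ((hb _ _ _).trans (image_mono inter_subset_right))⟩
  have hZ : IsClosed Z := by
    rw [← isOpen_compl_iff, Metric.isOpen_iff]
    intro x hx
    simp only [Z, mem_compl_iff, mem_ofPred_eq] at hx
    push Not at hx
    obtain ⟨r, hr, h⟩ := hx
    refine ⟨r, hr, fun y hy hyZ => ?_⟩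
    obtain ⟨r', hr', h'⟩ := Metric.isOpen_iff.mp isOpen_ball y hy
    exact hyZ r' hr' (h.mono (image_mono h'))
  have hZ1 : ∀ x ∈ Z, ∀ r > 0, ¬ Q (range ι) (ι '' (Z ∩ ball x r)) := by
    intro x hx r hr h
    refine hx r hr ((h.union hZc).mono ?_)
    rintro _ ⟨z, hz, rfl⟩
    by_cases h1 : z ∈ Z
    · exact Or.inl ⟨z, ⟨h1, hz⟩, rfl⟩
    · exact Or.inr ⟨z, h1, rfl⟩
  have hK : ∀ K : Set X, IsCompact K → Q (range ι) (ι '' K) := fun K hK =>
    ⟨_, (hK.image hι.continuous).isClosed.isGδ, subset_rfl, image_subset_range _ _⟩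
  by_cases hne : Z.Nonempty
  swap
  · rw [not_nonempty_iff_eq_empty] at hne
    rw [hne, compl_empty, image_univ] at hZc
    exact hZc
  exfalso
  let C : Set Cardinal.{0} := {c | ∃ x ∈ Z, ∃ r > 0, ∃ E ⊆ Z ∩ ball x r,
    Z ∩ ball x r ⊆ closure E ∧ #E = c}
  have hC : C.Nonempty := by
    obtain ⟨x, hx⟩ := hne
    exact ⟨_, x, hx, 1, one_pos, _, subset_rfl, subset_closure, rfl⟩
  obtain ⟨κ, ⟨x0, hx0, r0, hr0, E0, hE0, hE1, hE2⟩, hmin⟩ := wellFounded_lt.has_min C hC
  have hx1 : ∃ x1 ∈ Z, x1 ≠ x0 := by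
    by_contra h
    push Not at h
    exact hZ1 x0 hx0 1 one_pos ((hK {x0} isCompact_singleton).mono
      (image_mono fun z hz => h z hz.1))
  obtain ⟨x1, hx1, hx10⟩ := hx1
  have hδ : 0 < dist x1 x0 := dist_pos.mpr hx10
  obtain ⟨D, hD1, hD2, hD3⟩ := disc Z hZ x1 (dist x1 x0 / 4) (by positivity)
    (fun h => hZ1 x1 hx1 (dist x1 x0 / 4) (by positivity)
      ((hK _ h).mono (image_mono (inter_subset_inter_right _ ball_subset_closedBall)))) κ
    (fun x hx r hr E h1 h2 => not_lt.mp (hmin _ ⟨x, hx, r, hr, E, h1, h2, rfl⟩))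
  let r1 := min r0 (dist x1 x0 / 4)
  have hr1 : 0 < r1 := lt_min hr0 (by positivity)
  have hle : #(E0 ∩ ball x0 r1 : Set X) ≤ #D :=
    (Cardinal.mk_le_mk_of_subset inter_subset_left).trans (hE2.le.trans hD3)
  obtain ⟨f⟩ := hle
  let φ : X → X := fun y => if h : ∃ a, (f a).1 = y then h.choose.1 else x0
  have hφ : ∀ y, φ y ∈ ball x0 r1 := by
    intro y
    simp only [φ]
    split_ifs with h
    · exact h.choose.2.2
    · exact mem_ball_self hr1
  have hφ2 : ∀ a, φ (f a).1 = a.1 := by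
    intro a
    have h : ∃ a', (f a').1 = (f a).1 := ⟨a, rfl⟩
    simp only [φ, dif_pos h]
    rw [f.injective (Subtype.ext h.choose_spec)]
  let η := min 1 (dist x1 x0 / 4)
  have hη : 0 < η := lt_min one_pos (by positivity)
  obtain ⟨d, d1, d2, d3, d4, d5, d6, d7⟩ := remet D (ball x0 r1) ⟨x0, mem_ball_self hr1⟩ η hη
    (min_le_left _ _) (by
      intro y hy o ho
      have a1 := hD1 hy
      have a2 : r1 ≤ dist x1 x0 / 4 := min_le_right _ _
      rw [mem_ball] at a1 ho
      have := dist_triangle4 x1 y o x0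
      rw [dist_comm x1 y] at this
      refine (min_le_right _ _).trans ?_
      linarith) hD2 φ (fun y _ => hφ y)
  refine hZ1 x0 hx0 r1 hr1 (wij ι hι hw d d1 d2 d3 d4 d5 _ ?_)
  intro x hx ε hε
  have h1 : x ∈ closure (ball x0 r1 ∩ E0) :=
    isOpen_ball.inter_closure ⟨hx.2, hE1 ⟨hx.1, ball_subset_ball (min_le_left _ _) hx.2⟩⟩
  have hε' : 0 < min (ε / 2) η := lt_min (half_pos hε) hη
  obtain ⟨a, ha, hxa⟩ := Metric.mem_closure_iff.mp h1 _ hε'
  have h2 := hφ2 ⟨a, ha.2, ha.1⟩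
  have b1 : min (ε / 2) η ≤ ε / 2 := min_le_left _ _
  have b2 : min (ε / 2) η ≤ η := min_le_right _ _
  have b3 : η ≤ 1 := min_le_left _ _
  refine ⟨(f ⟨a, ha.2, ha.1⟩).1, 3 - min (ε / 2) η, by linarith, ?_, fun z hz => ?_⟩
  · have := d7 _ (f ⟨a, ha.2, ha.1⟩).2 x hx.2
    rw [h2] at this
    simp only at this
    linarith
  · refine d6 _ (f ⟨a, ha.2, ha.1⟩).2 z _ hε' b2 ?_
    rw [h2]
    have := dist_triangle_right z x a
    simp only
    linarith

lemma fin {X : Type} [MetricSpace X] (hw : HW X) :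
    TopologicalSpace.IsCompletelyMetrizableSpace X := by
  let ι : X → UniformSpace.Completion X := (↑)
  have hι : Isometry ι := UniformSpace.Completion.coe_isometry
  obtain ⟨G, hG, h1, h2⟩ := allQ ι hι hw
  obtain ⟨U, hU, rfl⟩ := isGδ_iff_eq_iInter_nat.mp hG
  have hc : ∀ n, TopologicalSpace.IsCompletelyMetrizableSpace (U n) := fun n =>
    inferInstanceAs (TopologicalSpace.IsCompletelyMetrizableSpace
      (TopologicalSpace.Opens.CompleteCopy ⟨U n, hU n⟩))
  let j : X → Π n, U n := fun x n => ⟨ι x, mem_iInter.mp (h1 ⟨x, rfl⟩) n⟩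
  have hj : Continuous j := continuous_pi fun n => hι.continuous.subtype_mk _
  have hg : Continuous fun z : Π n, U n => (z 0).1 := by fun_prop
  have he : IsClosedEmbedding j := by
    refine ⟨IsEmbedding.of_comp hj hg hι.isEmbedding, ?_⟩
    have : range j = ⋂ n, {z | (z n).1 = (z 0).1} := by
      apply Subset.antisymm
      · rintro _ ⟨x, rfl⟩
        exact mem_iInter.mpr fun n => rfl
      · intro z hz
        have h3 : ∀ n, (z n).1 = (z 0).1 := fun n => mem_iInter.mp hz n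
        obtain ⟨x, hx⟩ := h2 (mem_iInter.mpr fun n => h3 n ▸ (z n).2 : (z 0).1 ∈ ⋂ n, U n)
        exact ⟨x, funext fun n => Subtype.ext (hx.trans (h3 n).symm)⟩
    rw [this]
    exact isClosed_iInter fun n => isClosed_eq (by fun_prop) hg
  exact he.IsCompletelyMetrizableSpace

end

/-- For a metrizable space X: if, for every compatible metric d, player II has a winning strategy in the strong Choquet game on the nonempty closed sets of X with the Wijsman topology of d, then X admits a compatible complete metric. -/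
theorem result :
  ∀ (X : Type) [t : TopologicalSpace X], TopologicalSpace.MetrizableSpace X →
    (∀ (m : MetricSpace X), m.toUniformSpace.toTopologicalSpace = t →
      ∀ τ : TopologicalSpace {A : Set X // IsClosed A ∧ A.Nonempty},
        τ = ⨅ x : X, TopologicalSpace.induced
              (fun A : {A : Set X // IsClosed A ∧ A.Nonempty} =>
                @EMetric.infEdist X m.toPseudoEMetricSpace x A.1)
              (inferInstance : TopologicalSpace ENNReal) →
        ∃ σ : List ({A : Set X // IsClosed A ∧ A.Nonempty} ×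
                Set {A : Set X // IsClosed A ∧ A.Nonempty}) →
              Set {A : Set X // IsClosed A ∧ A.Nonempty},
          (∀ (h : List ({A : Set X // IsClosed A ∧ A.Nonempty} ×
                Set {A : Set X // IsClosed A ∧ A.Nonempty}))
              (y : {A : Set X // IsClosed A ∧ A.Nonempty})
              (U : Set {A : Set X // IsClosed A ∧ A.Nonempty}),
              y ∈ U → @IsOpen _ τ U →
                @IsOpen _ τ (σ (h ++ [(y, U)])) ∧ y ∈ σ (h ++ [(y, U)]) ∧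
                  σ (h ++ [(y, U)]) ⊆ U) ∧
          ∀ p : ℕ → ({A : Set X // IsClosed A ∧ A.Nonempty} ×
                Set {A : Set X // IsClosed A ∧ A.Nonempty}),
            (∀ n, (p n).1 ∈ (p n).2 ∧ @IsOpen _ τ (p n).2) →
            (∀ n, (p (n + 1)).2 ⊆ σ (List.ofFn (fun i : Fin (n + 1) => p i.val))) →
            (⋂ n, σ (List.ofFn (fun i : Fin (n + 1) => p i.val))).Nonempty) →
    ∃ m : MetricSpace X, m.toUniformSpace.toTopologicalSpace = t ∧
      @CompleteSpace X m.toUniformSpace := by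
  intro X t hm hw
  let _ : MetricSpace X := TopologicalSpace.metrizableSpaceMetric X
  exact (fin hw).complete

end Pool.Agent.S12863
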