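import Pool.Statements.S12876
import Pool.Agent.Lib.helper5.Velick

set_option autoImplicit false
open Pool Pool.MP_206312_gt

namespace Pool.Agent.S12876

/-- The negation of the preceding statement: There is a compact Hausdorff scattered space embedded in a cube [0,1]^Γ so that points with coordinates tending to zero are dense, and which contains a homeomorphic copy of the ordinal interval [0, ω₂]. -/
theorem result :
    ¬ (∃ (X : Type) (_ : TopologicalSpace X), CompactSpace X ∧ T2Space X ∧
      (∀ A : Set X, A.Nonempty → ∃ x ∈ A, ∃ U : Set X, IsOpen U ∧ U ∩ A = {x}) ∧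
      (∃ (Γ : Type) (e : X → (Γ → ℝ)), Topology.IsEmbedding e ∧
        (∀ x γ, e x γ ∈ Set.Icc (0 : ℝ) 1) ∧
        Dense {x : X | ∀ ε : ℝ, 0 < ε → {γ : Γ | ε ≤ |e x γ|}.Finite}) ∧
      ∃ f : Set.Iic (Cardinal.aleph.{0} 2).ord → X, Topology.IsEmbedding f) := by
  rintro ⟨X, _, _, _, hs, ⟨Γ, e, he, -, hd⟩, f, hf⟩
  refine H5V.chain (he.continuous.comp hf.continuous) (fun x => H5V.small he (hd.mono
    fun x hx => ?_) (d := fun x y => (Set.diagonal X)ᶜ.indicator (fun _ => (1 : ℝ)) (x, y))
      (isClosed_diagonal.isOpen_compl.lowerSemicontinuous_indicator zero_le_one)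
      (fun x y h => by simp [h]) (fun L hL ε hε => ?_) _) (he.injective.comp hf.injective)
  · refine (Set.countable_iUnion fun n : ℕ => (hx (1 / (n + 1)) (by positivity)).countable).mono
      fun γ h => ?_
    obtain ⟨n, hn⟩ := exists_nat_one_div_lt (abs_pos.2 h)
    exact Set.mem_iUnion.2 ⟨n, hn.le⟩
  · obtain ⟨x, -, U, u1, u2⟩ := hs L hL
    refine ⟨U, u1, u2 ▸ Set.singleton_nonempty x, ?_⟩
    rw [u2]
    rintro _ rfl _ rfl
    simpa using hε

end Pool.Agent.S12876
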