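import Pool.Statements.S12899
import Pool.Agent.Lib.helper15.Hilb

set_option autoImplicit false
open Pool Pool.MP_2655df_gt

namespace Pool.Agent.S12899

open Pool.Agent.Lib.helper15.Hilb

/-- If in a bounded open convex planar Hilbert geometry, for every triangle, any reverse perpendicular bisectors of its three sides (metric-foot definition) are concurrent or all parallel, then the domain is the interior of an ellipse, i.e. the geometry is hyperbolic. -/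
theorem result :
  ∀ (Ω : Set (ℝ × ℝ)), IsOpen Ω → Convex ℝ Ω → Bornology.IsBounded Ω → Ω.Nonempty →
  ∀ (d : ℝ × ℝ → ℝ × ℝ → ℝ),
    (∀ x y : ℝ × ℝ, d x y = (1 / 2) * Real.log
        (((1 + sSup {s : ℝ | 0 ≤ s ∧ x - s • (y - x) ∈ Ω}) *
            sSup {t : ℝ | 0 ≤ t ∧ x + t • (y - x) ∈ Ω}) /
          (sSup {s : ℝ | 0 ≤ s ∧ x - s • (y - x) ∈ Ω} *
            (sSup {t : ℝ | 0 ≤ t ∧ x + t • (y - x) ∈ Ω} - 1)))) →
  ∀ (R : ℝ × ℝ → ℝ × ℝ → AffineSubspace ℝ (ℝ × ℝ) → Prop),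
    (∀ a b ℓ, R a b ℓ ↔
      (Module.finrank ℝ ℓ.direction = 1 ∧
        ∃ m ∈ segment ℝ a b, d a m = d m b ∧ m ∈ ℓ ∧
          ∀ x ∈ affineSpan ℝ {a, b}, x ∈ Ω → ∀ z ∈ ℓ, z ∈ Ω → d x m ≤ d x z)) →
    (∀ a b c : ℝ × ℝ, a ∈ Ω → b ∈ Ω → c ∈ Ω → ¬ Collinear ℝ {a, b, c} →
      ∀ ℓ₁ ℓ₂ ℓ₃ : AffineSubspace ℝ (ℝ × ℝ), R a b ℓ₁ → R b c ℓ₂ → R c a ℓ₃ →
        ((∃ p, p ∈ ℓ₁ ∧ p ∈ ℓ₂ ∧ p ∈ ℓ₃) ∨
          (ℓ₁.direction = ℓ₂.direction ∧ ℓ₂.direction = ℓ₃.direction))) →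
    ∃ f : (ℝ × ℝ) ≃ᵃ[ℝ] (ℝ × ℝ), Ω = f '' {p : ℝ × ℝ | p.1 ^ 2 + p.2 ^ 2 < 1} := by
  rintro Ω ho hc hb ⟨O, hO⟩ d hd' R hR H
  obtain ⟨hG, hK⟩ := gg_of ((fun v => O + v) ⁻¹' Ω) (ho.preimage (by fun_prop))
    (hc.translate_preimage_right O) ((isometry_add_left O).antilipschitz.isBounded_preimage hb)
    (by simpa using hO)
  set G := gauge ((fun v => O + v) ⁻¹' Ω)
  simp only [Set.mem_preimage] at hK
  have ed : ∀ x y, d (O + x) (O + y) = hd G x y := fun x y => by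
    rw [hd', add_sub_add_left_eq_sub]
    simp only [hd, ← hK, add_sub_assoc, add_assoc]
  have key : ∀ a b φ ψ, G a < 1 → G b < 1 → Ch G a b φ ψ → ∃ ℓ, R (O + a) (O + b) ℓ ∧
      Module.finrank ℝ ℓ.direction = 1 ∧ (∀ p, O + p ∈ ℓ ↔ ev (co φ ψ (rm φ ψ a b)) p = 0) ∧
      ∀ v ∈ ℓ.direction, ip (co φ ψ (rm φ ψ a b)).2 v = 0 := by
    intro a b φ ψ ha hb h
    have r0 : 0 < rm φ ψ a b := by
      obtain ⟨_, -, _, -, h1, h2⟩ := h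
      have := l_pos' h1.1 ha; have := l_pos' h1.1 hb
      have := l_pos' h2.1 ha; have := l_pos' h2.1 hb
      unfold rm; positivity
    obtain ⟨f0, t, t1, t2, t3, t4⟩ := hG.foot h ha hb r0
    obtain ⟨t5, t6, t7⟩ := t4 rfl
    obtain ⟨ℓ, l1, l2, l3⟩ := line_ex O _ f0 t2
    refine ⟨ℓ, (hR _ _ _).2 ⟨l1, O + (a + t • (b - a)), ?_, by rw [ed, ed, t7], (l2 _).2 t2,
      fun x hx hx' z hz hz' => ?_⟩, l1, l2, l3⟩
    · rw [segment_eq_image']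
      exact ⟨t, ⟨t5, t6⟩, by simp [add_assoc]⟩
    · obtain ⟨s, rfl⟩ := mem_affineSpan_pair_iff_exists_lineMap_eq.1 hx
      have e : AffineMap.lineMap (O + a) (O + b) s = O + (a + s • (b - a)) := by
        simp [AffineMap.lineMap_apply]; abel
      rw [e] at hx' ⊢
      rw [← add_sub_cancel O z] at hz hz' ⊢
      rw [ed, ed]
      exact t3 s ((hK _).1 hx') _ ((hK _).1 hz') ((l2 _).1 hz)
  obtain ⟨f, hf⟩ := hG.ellipse (hG.seg_med fun a b c φ1 ψ1 φ2 ψ2 φ3 ψ3 ha hb hc hn c1 c2 c3 => by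
    obtain ⟨ℓ1, r1, h0, h1⟩ := key _ _ _ _ ha hb c1
    obtain ⟨ℓ2, r2, -, h2⟩ := key _ _ _ _ hb hc c2
    obtain ⟨ℓ3, r3, -, h3⟩ := key _ _ _ _ hc ha c3
    refine pencil_det O h0 h1 h2 h3 (H _ _ _ ((hK _).2 ha) ((hK _).2 hb) ((hK _).2 hc)
      (fun h => hn ?_) _ _ _ r1 r2 r3)
    obtain ⟨v, hv⟩ := (collinear_iff_of_mem (p₀ := O + a) (by simp)).1 h
    refine (collinear_iff_of_mem (p₀ := a) (by simp)).2 ⟨v, fun p hp => ?_⟩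
    obtain ⟨r, hr⟩ := hv (O + p) (by simpa using hp)
    exact ⟨r, add_left_cancel (a := O) (by rw [hr]; simp [add_left_comm])⟩)
  refine ⟨f.trans (AffineEquiv.constVAdd ℝ _ O), Set.ext fun x => ⟨fun hx => ?_, ?_⟩⟩
  · refine ⟨f.symm (x - O), (hf _).1 ?_, by simp⟩
    rw [f.apply_symm_apply, ← hK]; simpa using hx
  · rintro ⟨p, hp, rfl⟩
    exact (hK _).2 ((hf p).2 hp)

end Pool.Agent.S12899
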