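import Pool.Statements.S12920
-- import your own Pool.Agent.* helpers here

set_option autoImplicit false
open Pool Pool.MP_28bdbe_gt

namespace Pool.Agent.S12920

theorem result :
    ¬ (∀ K : Set (ℝ × ℝ), Convex ℝ K → IsCompact K → (interior K).Nonempty →
      ∃ f₁ f₂ f₃ f₄ : ℝ × ℝ → ℝ,
        Measurable f₁ ∧ Measurable f₂ ∧ Measurable f₃ ∧ Measurable f₄ ∧
        (∃ g₁ : ℝ → ℝ, ∀ x : ℝ × ℝ, f₁ x = g₁ x.1) ∧
        (∃ g₂ : ℝ → ℝ, ∀ x : ℝ × ℝ, f₂ x = g₂ x.2) ∧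
        (∃ g₃ : ℝ → ℝ, ∀ x : ℝ × ℝ, f₃ x = g₃ (2 * x.1 + x.2)) ∧
        (∃ g₄ : ℝ → ℝ, ∀ x : ℝ × ℝ, f₄ x = g₄ (-x.1 + 2 * x.2)) ∧
        K = {x : ℝ × ℝ | 0 ≤ f₁ x + f₂ x + f₃ x + f₄ x}) := by
  intro H
  let K : Set (ℝ × ℝ) := {p | -17 ≤ 4 * p.1 + p.2 ∧ 4 * p.1 + p.2 ≤ 17 ∧ -17 ≤ p.1 - 4 * p.2 ∧
    p.1 - 4 * p.2 ≤ 17}
  obtain ⟨f₁, f₂, f₃, f₄, -, -, -, -, ⟨g₁, h₁⟩, ⟨g₂, h₂⟩, ⟨g₃, h₃⟩, ⟨g₄, h₄⟩, hK⟩ := H K
    (by
      rintro x ⟨x1, x2, x3, x4⟩ y ⟨y1, y2, y3, y4⟩ a b ha hb hab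
      simp only [K, Set.mem_setOf_eq, Prod.fst_add, Prod.snd_add, Prod.smul_fst, Prod.smul_snd,
        smul_eq_mul]
      refine ⟨?_, ?_, ?_, ?_⟩ <;> nlinarith)
    ((isCompact_Icc (a := ((-5 : ℝ), (-5 : ℝ))) (b := (5, 5))).of_isClosed_subset
      (by
        simp only [K, Set.setOf_and]
        refine IsClosed.inter ?_ (IsClosed.inter ?_ (IsClosed.inter ?_ ?_)) <;>
          exact isClosed_le (by fun_prop) (by fun_prop))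
      (by
        rintro x ⟨x1, x2, x3, x4⟩
        refine ⟨⟨?_, ?_⟩, ?_, ?_⟩ <;> dsimp only <;> linarith))
    ⟨0, mem_interior_iff_mem_nhds.2 (Filter.mem_of_superset (Metric.ball_mem_nhds 0 one_pos) (by
      intro x hx
      rw [mem_ball_zero_iff, Prod.norm_def, max_lt_iff, Real.norm_eq_abs, Real.norm_eq_abs, abs_lt,
        abs_lt] at hx
      refine ⟨?_, ?_, ?_, ?_⟩ <;> linarith [hx.1.1, hx.1.2, hx.2.1, hx.2.2]))⟩
  have k : ∀ x y : ℝ, (x, y) ∈ K ↔ 0 ≤ g₁ x + g₂ y + g₃ (2 * x + y) + g₄ (-x + 2 * y) := by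
    intro x y
    rw [hK, Set.mem_setOf_eq, h₁, h₂, h₃, h₄]
  have p0 := (k (-5) (3)).1 (by norm_num [K])
  have p1 := (k (-4) (-1)).1 (by norm_num [K])
  have p2 := (k (-3) (-5)).1 (by norm_num [K])
  have p3 := (k (-1) (4)).1 (by norm_num [K])
  have p4 := (k (1) (-4)).1 (by norm_num [K])
  have p5 := (k (3) (5)).1 (by norm_num [K])
  have p6 := (k (4) (1)).1 (by norm_num [K])
  have p7 := (k (5) (-3)).1 (by norm_num [K])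
  have m0 := not_le.1 (mt (k (-5) (1)).2 (by norm_num [K]))
  have m1 := not_le.1 (mt (k (-4) (-3)).2 (by norm_num [K]))
  have m2 := not_le.1 (mt (k (-3) (4)).2 (by norm_num [K]))
  have m3 := not_le.1 (mt (k (-1) (-5)).2 (by norm_num [K]))
  have m4 := not_le.1 (mt (k (1) (5)).2 (by norm_num [K]))
  have m5 := not_le.1 (mt (k (3) (-4)).2 (by norm_num [K]))
  have m6 := not_le.1 (mt (k (4) (3)).2 (by norm_num [K]))
  have m7 := not_le.1 (mt (k (5) (-1)).2 (by norm_num [K]))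
  norm_num at p0 p1 p2 p3 p4 p5 p6 p7 m0 m1 m2 m3 m4 m5 m6 m7
  linarith

end Pool.Agent.S12920
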