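import Pool.Statements.S12922

set_option autoImplicit false
open Pool Pool.MP_28e94d_gt
open Set

namespace Pool.Agent.S12922

def A : Type := ℚ_[2] × ℤ

noncomputable instance : TopologicalSpace A := inferInstanceAs (TopologicalSpace (ℚ_[2] × ℤ))
instance : T2Space A := inferInstanceAs (T2Space (ℚ_[2] × ℤ))
instance : SecondCountableTopology A := inferInstanceAs (SecondCountableTopology (ℚ_[2] × ℤ))

noncomputable instance : Group A where
  mul x y := (x.1 + 2 ^ x.2 * y.1, x.2 + y.2)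
  one := (0, 0)
  inv x := (-(2 ^ (-x.2) * x.1), -x.2)
  mul_assoc x y z := by
    change ((x.1 + 2 ^ x.2 * y.1) + 2 ^ (x.2 + y.2) * z.1, x.2 + y.2 + z.2) =
      (x.1 + 2 ^ x.2 * (y.1 + 2 ^ y.2 * z.1), x.2 + (y.2 + z.2))
    rw [zpow_add₀ two_ne_zero, add_assoc x.2]
    congr 1
    ring
  one_mul x := by
    change ((0 : ℚ_[2]) + 2 ^ (0 : ℤ) * x.1, 0 + x.2) = (x.1, x.2)
    simp
  mul_one x := by
    change (x.1 + 2 ^ x.2 * 0, x.2 + 0) = (x.1, x.2)
    simp
  inv_mul_cancel x := by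
    change (-(2 ^ (-x.2) * x.1) + 2 ^ (-x.2) * x.1, -x.2 + x.2) = ((0 : ℚ_[2]), (0 : ℤ))
    simp

lemma mul_def (x y : A) : x * y = (x.1 + 2 ^ x.2 * y.1, x.2 + y.2) := rfl
lemma inv_def (x : A) : x⁻¹ = (-(2 ^ (-x.2) * x.1), -x.2) := rfl

lemma cz : Continuous fun n : ℤ => (2 : ℚ_[2]) ^ n := continuous_of_discreteTopology

instance : IsTopologicalGroup A where
  continuous_mul := by
    change Continuous fun p : (ℚ_[2] × ℤ) × (ℚ_[2] × ℤ) => (p.1.1 + 2 ^ p.1.2 * p.2.1, p.1.2 + p.2.2)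
    exact (continuous_fst.fst.add ((cz.comp continuous_fst.snd).mul continuous_snd.fst)).prodMk
      (by fun_prop)
  continuous_inv := by
    change Continuous fun x : ℚ_[2] × ℤ => (-(2 ^ (-x.2) * x.1), -x.2)
    exact ((cz.comp continuous_snd.neg).mul continuous_fst).neg.prodMk (by fun_prop)

def K : Subgroup A where
  carrier := Metric.closedBall (0 : ℚ_[2]) 1 ×ˢ {0}
  mul_mem' := by
    rintro ⟨a, m⟩ ⟨b, n⟩ ⟨h1, rfl : m = 0⟩ ⟨h2, rfl : n = 0⟩
    refine ⟨?_, rfl⟩
    simp only [mul_def, mem_closedBall_zero_iff, zpow_zero, one_mul] at *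
    exact (Padic.nonarchimedean a b).trans (max_le h1 h2)
  one_mem' := ⟨Metric.mem_closedBall_self zero_le_one, rfl⟩
  inv_mem' := by
    rintro ⟨a, m⟩ ⟨h1, rfl : m = 0⟩
    refine ⟨?_, rfl⟩
    simpa [inv_def] using h1

def P (H : Type) [Group H] [TopologicalSpace H] : Prop :=
  ∃ (Q : Type) (_ : Countable Q) (_ : Group Q) (π : H →* Q), IsCompact (π.ker : Set H)

lemma notP : ¬ P A := by
  rintro ⟨Q, _, _, π, h⟩
  haveI : Uncountable ℚ_[2] := Cardinal.aleph0_lt_mk_iff.1
    (Cardinal.aleph0_lt_continuum.trans_le (continuum_le_cardinal_of_nontriviallyNormedField _))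
  obtain ⟨a, b, e, hab⟩ : ∃ a b : ℚ_[2], π (a, 0) = π (b, 0) ∧ a ≠ b :=
    Function.not_injective_iff.1 (not_injective_uncountable_countable fun a : ℚ_[2] => π (a, 0))
  obtain ⟨C, hC⟩ := (h.image (f := fun x : A => x.1) continuous_fst).isBounded.exists_norm_le
  have k : ∀ n : ℕ, 2 ^ n * ‖b - a‖ ≤ C := by
    intro n
    let g : A := (0, -n)
    let x : A := (a, 0)
    let y : A := (b, 0)
    have : g * (x⁻¹ * y) * g⁻¹ ∈ π.ker := π.normal_ker.conj_mem _ (by
      rw [MonoidHom.mem_ker, map_mul, map_inv, inv_mul_eq_one]; exact e) g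
    have := hC _ ⟨_, this, rfl⟩
    have h2 : ‖(2 : ℚ_[2])‖ = 2⁻¹ := by simpa using Padic.norm_p (p := 2)
    simpa [g, x, y, mul_def, inv_def, h2, neg_add_eq_sub] using this
  have p : 0 < ‖b - a‖ := norm_pos_iff.2 (sub_ne_zero.2 hab.symm)
  obtain ⟨n, hn⟩ := pow_unbounded_of_one_lt (C / ‖b - a‖) (one_lt_two (α := ℝ))
  exact absurd (k n) (not_le.2 ((div_lt_iff₀ p).1 hn))

theorem result :
    ¬ (∀ (G : Type) [Group G] [TopologicalSpace G] [IsTopologicalGroup G] [T2Space G],
      ((∀ P : (H : Type) → [Group H] → [TopologicalSpace H] → Prop,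
          (∀ (H : Type) [Group H] [TopologicalSpace H] [IsTopologicalGroup H] [T2Space H],
              CompactSpace H → TopologicalSpace.SeparableSpace H → P H) →
          (∀ (H : Type) [Group H] [TopologicalSpace H] [IsTopologicalGroup H] [T2Space H],
              Countable H → P H) →
          (∀ (H₁ : Type) [Group H₁] [TopologicalSpace H₁] [IsTopologicalGroup H₁] [T2Space H₁]
              (H₂ : Type) [Group H₂] [TopologicalSpace H₂] [IsTopologicalGroup H₂] [T2Space H₂],
              P H₁ → P H₂ → P (H₁ × H₂)) →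
          (∀ (H : Type) [Group H] [TopologicalSpace H] [IsTopologicalGroup H] [T2Space H]
              (L : Subgroup H), IsClosed (L : Set H) → P H → P L) →
          (∀ (H₁ : Type) [Group H₁] [TopologicalSpace H₁] [IsTopologicalGroup H₁] [T2Space H₁]
              (H₂ : Type) [Group H₂] [TopologicalSpace H₂] [IsTopologicalGroup H₂] [T2Space H₂]
              (f : H₁ →* H₂), Continuous f → Function.Surjective f → P H₁ → P H₂) →
          P G) ↔
        ∃ K : Subgroup G, CompactSpace K ∧ TopologicalSpace.SeparableSpace K ∧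
          Countable (G ⧸ K))) := by
  intro H
  refine notP ((H A).2 ⟨K, isCompact_iff_compactSpace.1
    ((isCompact_closedBall _ _).prod isCompact_singleton),
    (haveI : SecondCountableTopology K := TopologicalSpace.Subtype.secondCountableTopology (K : Set A)
     inferInstance), ?_⟩ P ?_ ?_ ?_ ?_ ?_)
  · haveI := QuotientGroup.discreteTopology (N := K)
      ((IsUltrametricDist.isOpen_closedBall _ one_ne_zero).prod (isOpen_discrete _))
    exact TopologicalSpace.separableSpace_iff_countable.1 inferInstance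
  · intro H _ _ _ _ _ _
    exact ⟨Unit, inferInstance, inferInstance, 1, by simpa using isCompact_univ⟩
  · intro H _ _ _ _ _
    exact ⟨H, inferInstance, inferInstance, MonoidHom.id H, by simp⟩
  · rintro H₁ _ _ _ _ H₂ _ _ _ _ ⟨Q, _, _, π, h⟩ ⟨Q', _, _, π', h'⟩
    refine ⟨Q × Q', inferInstance, inferInstance, π.prodMap π', ?_⟩
    rw [MonoidHom.ker_prodMap]
    exact h.prod h'
  · rintro H _ _ _ _ L hL ⟨Q, _, _, π, h⟩
    exact ⟨Q, inferInstance, inferInstance, π.comp L.subtype,
      hL.isClosedEmbedding_subtypeVal.isCompact_preimage h⟩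
  · rintro H₁ _ _ _ _ H₂ _ _ _ _ f hf hs ⟨Q, _, _, π, h⟩
    haveI := π.normal_ker.map f hs
    refine ⟨H₂ ⧸ π.ker.map f, Function.Surjective.countable
      (f := fun q => (f (Function.invFun π q) : H₂ ⧸ π.ker.map f)) fun x => ?_, inferInstance,
      QuotientGroup.mk' _, ?_⟩
    · obtain ⟨y, rfl⟩ := QuotientGroup.mk_surjective x
      obtain ⟨z, rfl⟩ := hs y
      refine ⟨π z, QuotientGroup.eq.2 ⟨(Function.invFun π (π z))⁻¹ * z, ?_, by simp⟩⟩
      simp [Function.invFun_eq ⟨z, rfl⟩]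
    · rw [QuotientGroup.ker_mk']
      exact h.image hf

end Pool.Agent.S12922
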