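import Pool.Statements.S12958
import Pool.Agent.Lib.helper5.Talag

set_option autoImplicit false
open Pool Pool.MP_2e0873_gt

namespace Pool.Agent.S12958

/-- The negation of the preceding statement: For a Tychonoff space X: if every pointwise-compact set of continuous real functions on X embeds in a Banach space with its weak topology, then so does every such set on X×K, for every compact Hausdorff K. -/
theorem result :
    ¬ (∀ (X : Type) [TopologicalSpace X] [T35Space X],
      (∀ A : Set (X → ℝ), (∀ f ∈ A, Continuous f) → IsCompact A →
        ∃ (E : Type) (_ : NormedAddCommGroup E) (_ : NormedSpace ℝ E) (_ : CompleteSpace E)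
          (e : A → WeakSpace ℝ E), Topology.IsEmbedding e) →
      ∀ (K : Type) [TopologicalSpace K] [CompactSpace K] [T2Space K],
        ∀ B : Set (X × K → ℝ), (∀ f ∈ B, Continuous f) → IsCompact B →
          ∃ (E : Type) (_ : NormedAddCommGroup E) (_ : NormedSpace ℝ E) (_ : CompleteSpace E)
            (e : B → WeakSpace ℝ E), Topology.IsEmbedding e) := by
  intro H
  obtain ⟨K, _, _, _, β, b1, b2, b3⟩ := H5T.main
  have := isCompact_iff_compactSpace.1 H5T.L_closed.isCompact
  obtain ⟨E, _, _, _, e, he⟩ := H H5T.X (fun M m1 m2 => H5T.eber m1 m2) K (Set.range β)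
    (Set.forall_mem_range.2 b3) (isCompact_range b1)
  exact H5T.not_eber (he.continuous.comp b1.rangeFactorization)
    (he.injective.comp (Set.rangeFactorization_injective.2 b2))

end Pool.Agent.S12958
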