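import Pool.Statements.S12972

set_option autoImplicit false
open Pool Pool.MP_2fc951_gt

namespace Pool.Agent.S12972

open Finset

lemma tooth {X : Type} [MetricSpace X] (B : X → Finset X) (N K : ℕ) (L : ℝ) (S : Finset X)
    (hB : ∀ x y, dist x y ≤ L → y ∈ B x) (hN : ∀ x, (B x).card ≤ N) :
    ∃ π : Equiv.Perm ℕ, ∀ f : ℕ → X, f 0 ∈ S → (∀ i, dist (f i) (f (i + 1)) ≤ L) →
      (∀ i, dist (f i) (f (π i)) ≤ L) →
      ¬ ∀ i, ∀ s : Finset ℕ, (∀ j ∈ s, dist (f i) (f j) ≤ L) → s.card ≤ K := by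
  classical
  have paths : ∀ n, ∃ P : Finset (ℕ → X), P.card ≤ S.card * N ^ n ∧ ∀ f : ℕ → X, f 0 ∈ S →
      (∀ i, dist (f i) (f (i + 1)) ≤ L) → ∃ g ∈ P, ∀ i ≤ n, g i = f i := fun n => by
    induction n with
    | zero => exact ⟨S.image fun x _ => x, by simpa using card_image_le, fun f h _ =>
        ⟨_, mem_image_of_mem _ h, fun i hi => by rw [Nat.le_zero.1 hi]⟩⟩
    | succ n ih =>
      obtain ⟨P, p1, p2⟩ := ih
      refine ⟨P.biUnion fun g => (B (g n)).image (Function.update g (n + 1)), ?_, fun f h1 h2 => ?_⟩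
      · refine (card_biUnion_le_card_mul _ _ N fun g _ => card_image_le.trans (hN _)).trans ?_
        rw [pow_succ, ← mul_assoc]; gcongr
      · obtain ⟨g, g1, g2⟩ := p2 f h1 h2
        refine ⟨_, mem_biUnion.2 ⟨g, g1, mem_image_of_mem _ (hB _ (f (n + 1)) (g2 n le_rfl ▸ h2 n))⟩,
          fun i hi => ?_⟩
        rcases hi.eq_or_lt with rfl | hi
        · simp
        · rw [Function.update_of_ne hi.ne, g2 i (by omega)]
  obtain ⟨n, hn⟩ := (Nat.eventually_mul_pow_lt_factorial_sub S.card (N * K) 0).exists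
  obtain ⟨P, p1, p2⟩ := paths n
  let T : (ℕ → X) → Fin n → Finset (Fin n) := fun g i => univ.filter fun j => dist (g i) (g j) ≤ L
  obtain ⟨p, -, hp⟩ := exists_mem_notMem_of_card_lt_card (t := (univ : Finset (Equiv.Perm (Fin n))))
    (s := (P.filter fun g => ∀ i, (T g i).card ≤ K).biUnion fun g => univ.filter fun p => ∀ i, p i ∈ T g i)
    (by
      refine (card_biUnion_le_card_mul _ _ (K ^ n) fun g hg => ?_).trans_lt ?_
      · refine (card_le_card_of_injOn (t := Fintype.piFinset (T g)) (fun p : Equiv.Perm (Fin n) => ⇑p)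
          (fun p hp => by simpa using hp) DFunLike.coe_injective.injOn).trans ?_
        rw [Fintype.card_piFinset]
        simpa using prod_le_pow_card univ _ K fun i _ => (mem_filter.1 hg).2 i
      · rw [card_univ, Fintype.card_perm, Fintype.card_fin]
        refine lt_of_le_of_lt ?_ hn
        rw [mul_pow, ← mul_assoc]
        exact Nat.mul_le_mul_right _ ((card_filter_le _ _).trans p1))
  refine ⟨p.viaFintypeEmbedding Fin.valEmbedding, fun f h1 h2 h3 h4 => hp ?_⟩
  obtain ⟨g, g1, g2⟩ := p2 f h1 h2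
  refine mem_biUnion.2 ⟨g, mem_filter.2 ⟨g1, fun i => ?_⟩, mem_filter.2 ⟨mem_univ _, fun i => ?_⟩⟩
  · rw [← card_map Fin.valEmbedding]
    refine h4 i _ fun j hj => ?_
    obtain ⟨j, h, rfl⟩ := mem_map.1 hj
    simpa [T, g2 _ i.2.le, g2 _ j.2.le] using h
  · have := h3 i
    rw [show (i : ℕ) = Fin.valEmbedding i from rfl, Equiv.Perm.viaFintypeEmbedding_apply_image] at this
    simpa [T, g2 _ i.2.le, g2 _ (p i).2.le] using this

def Y : Type := ℕ × ℕ

def mv (π : ℕ → Equiv.Perm ℕ) : Fin 3 → Y → Y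
  | 0, a => (a.1, a.2 + 1)
  | 1, a => (a.1 + 1, a.2)
  | 2, a => (a.1, π a.1 a.2)

def G (π : ℕ → Equiv.Perm ℕ) : SimpleGraph Y := .fromRel fun a b => ∃ j, b = mv π j a

lemma conn (π : ℕ → Equiv.Perm ℕ) : (G π).Connected := by
  have h0 : ∀ k i, (G π).Reachable (0, 0) (k, i) := fun k i => by
    induction i with
    | zero =>
      induction k with
      | zero => rfl
      | succ k ih => exact ih.trans (SimpleGraph.Adj.reachable
          ⟨fun h => by simpa using congrArg Prod.fst h, Or.inl ⟨1, rfl⟩⟩)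
    | succ i ih => exact ih.trans (SimpleGraph.Adj.reachable
          ⟨fun h => by simpa using congrArg Prod.snd h, Or.inl ⟨0, rfl⟩⟩)
  have : Nonempty Y := ⟨(0, 0)⟩
  exact ⟨fun a b => (h0 a.1 a.2).symm.trans (h0 b.1 b.2)⟩

lemma balls (π : ℕ → Equiv.Perm ℕ) (r : ℕ) : ∀ v, ∃ s : Finset Y, s.card ≤ 7 ^ r ∧
    ∀ w (p : (G π).Walk v w), p.length ≤ r → w ∈ s := by
  classical
  have : Nonempty Y := ⟨(0, 0)⟩
  have mi : ∀ j, Function.Injective (mv π j) := fun j a b h => by
    have h1 := congrArg Prod.fst h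
    have h2 := congrArg Prod.snd h
    match j with
    | 0 => exact Prod.ext h1 (Nat.succ_injective h2)
    | 1 => exact Prod.ext (Nat.succ_injective h1) h2
    | 2 => exact Prod.ext h1 ((π a.1).injective (h2.trans (by rw [show a.1 = b.1 from h1]; rfl)))
  induction r with
  | zero => exact fun v => ⟨{v}, by simp, fun w p h => by
      simp [p.eq_of_length_eq_zero (Nat.le_zero.1 h)]⟩
  | succ r ih =>
    choose s s1 s2 using ih
    refine fun v => ⟨(insert v ((univ.image fun j => mv π j v) ∪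
      univ.image fun j => Function.invFun (mv π j) v)).biUnion s, ?_, fun w p h => ?_⟩
    · refine (card_biUnion_le_card_mul _ _ _ fun u _ => s1 u).trans ?_
      rw [pow_succ']
      gcongr
      refine (card_insert_le _ _).trans (Nat.succ_le_succ ((card_union_le _ _).trans ?_))
      exact add_le_add (card_image_le.trans (by simp : _ ≤ 3)) (card_image_le.trans (by simp : _ ≤ 3))
    · cases p with
      | nil => exact mem_biUnion.2 ⟨v, by simp, s2 _ _ .nil (by simp)⟩
      | cons a p =>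
        refine mem_biUnion.2 ⟨_, ?_, s2 _ _ p (by simpa using h)⟩
        rcases a.2 with ⟨j, rfl⟩ | ⟨j, rfl⟩
        · exact mem_insert_of_mem (mem_union_left _ (mem_image.2 ⟨j, mem_univ _, rfl⟩))
        · exact mem_insert_of_mem (mem_union_right _ (mem_image.2 ⟨j, mem_univ _,
            Function.leftInverse_invFun (mi j) _⟩))

@[reducible] noncomputable def met (π : ℕ → Equiv.Perm ℕ) : MetricSpace Y where
  dist a b := (G π).dist a b
  dist_self a := by simp
  dist_comm a b := by rw [SimpleGraph.dist_comm]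
  dist_triangle a b c := by exact_mod_cast (conn π).dist_triangle
  eq_of_dist_eq_zero h := (conn π).dist_eq_zero_iff.1 (by exact_mod_cast h)

/-- The negation of the preceding statement: There is a metric space X of bounded geometry (closed r-balls have uniformly bounded finite size) such that every bounded-geometry metric space Y admits a coarse embedding into X. -/
theorem result :
    ¬ (∃ (X : Type) (_ : MetricSpace X),
    (∀ r : ℝ, 0 < r → ∃ N : ℕ, ∀ x : X, ∀ s : Finset X,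
        (↑s : Set X) ⊆ Metric.closedBall x r → s.card ≤ N) ∧
    ∀ (Y : Type) [MetricSpace Y],
      (∀ r : ℝ, 0 < r → ∃ N : ℕ, ∀ y : Y, ∀ s : Finset Y,
          (↑s : Set Y) ⊆ Metric.closedBall y r → s.card ≤ N) →
      ∃ f : Y → X, ∃ ρm ρp : ℝ → ℝ,
        MonotoneOn ρm (Set.Ici 0) ∧ MonotoneOn ρp (Set.Ici 0) ∧
        (∀ t : ℝ, 0 ≤ t → 0 ≤ ρm t ∧ 0 ≤ ρp t) ∧
        Filter.Tendsto ρm Filter.atTop Filter.atTop ∧
        ∀ y y' : Y, ρm (dist y y') ≤ dist (f y) (f y') ∧
          dist (f y) (f y') ≤ ρp (dist y y')) := by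
  classical
  rintro ⟨X, _, hX, h⟩
  obtain ⟨x0, -⟩ := h Unit fun r _ => ⟨1, fun _ s _ => by simpa using card_le_univ s⟩
  have fin : ∀ (r : ℕ) (x : X), (Metric.closedBall x (r + 1)).Finite := fun r x => by
    obtain ⟨N, hN⟩ := hX (r + 1) (by positivity)
    by_contra hn
    obtain ⟨s, s1, s2⟩ := Set.Infinite.exists_subset_card_eq hn (N + 1)
    have := hN x s s1
    omega
  choose N hN using fun r : ℕ => hX (r + 1) (by positivity)
  choose π hπ using fun k : ℕ => tooth (fun x => (fin k.unpair.1 x).toFinset) (N k.unpair.1) k.unpair.2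
    (k.unpair.1 + 1) (fin (k * k + 2 * k) (x0 ())).toFinset
    (fun x y h => by simpa [dist_comm] using h) fun x => hN _ x _ (by simp)
  let := met π
  have bg : ∀ (r : ℕ) (y : Y) (s : Finset Y), (∀ w ∈ s, dist y w ≤ r) → s.card ≤ 7 ^ r := fun r y s hs => by
    obtain ⟨t, t1, t2⟩ := balls π r y
    refine (card_le_card fun w hw => ?_).trans t1
    obtain ⟨p, hp⟩ := (conn π).exists_walk_length_eq_dist y w
    exact t2 w p (hp ▸ by exact_mod_cast (show (((G π).dist y w : ℕ) : ℝ) ≤ r from hs w hw))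
  obtain ⟨f, a, b, -, b1, -, a1, hf⟩ := h Y fun r _ => ⟨7 ^ ⌈r⌉₊, fun y s hs =>
    bg _ y s fun w hw => (Metric.mem_closedBall'.1 (hs hw)).trans (Nat.le_ceil r)⟩
  obtain ⟨L, hL⟩ := exists_nat_ge (b 1)
  obtain ⟨T, hT⟩ := Filter.eventually_atTop.1 (a1.eventually_gt_atTop (L + 1))
  obtain ⟨R, hR⟩ := exists_nat_ge (dist (f (0, 0)) (x0 ()))
  have st : ∀ j y, dist (f y) (f (mv π j y)) ≤ L + 1 := fun j y => by
    have : dist y (mv π j y) ≤ 1 := by
      by_cases e : y = mv π j y
      · rw [← e]; simp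
      · change (((G π).dist y (mv π j y) : ℕ) : ℝ) ≤ 1
        rw [(SimpleGraph.dist_eq_one_iff_adj (G := G π)).2 ⟨e, Or.inl ⟨j, rfl⟩⟩, Nat.cast_one]
    linarith [(hf y (mv π j y)).2, b1 dist_nonneg (Set.mem_Ici.2 zero_le_one) this]
  have sp : ∀ k : ℕ, dist (f (k, 0)) (x0 ()) ≤ R + k * (L + 1) := fun k => by
    induction k with
    | zero => simpa using hR
    | succ k ih =>
      have := st 1 (k, 0)
      have h2 := dist_triangle_left (f (k + 1, 0)) (x0 ()) (f (k, 0))
      change dist _ (f (k + 1, 0)) ≤ _ at this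
      push_cast; linarith
  refine hπ (L.pair (R + 7 ^ ⌈T⌉₊)) (fun i => f (L.pair (R + 7 ^ ⌈T⌉₊), i)) ?_
    (by rw [Nat.unpair_pair]; exact fun i => st 0 (_, i))
    (by rw [Nat.unpair_pair]; exact fun i => st 2 (_, i)) fun i s hs => ?_
  · have h1 := Nat.left_le_pair L (R + 7 ^ ⌈T⌉₊)
    have h2 := le_self_add.trans (Nat.right_le_pair L (R + 7 ^ ⌈T⌉₊))
    generalize L.pair (R + 7 ^ ⌈T⌉₊) = k at *
    have h1 : (L : ℝ) ≤ k := by exact_mod_cast h1
    have h2 : (R : ℝ) ≤ k := by exact_mod_cast h2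
    simp only [Set.Finite.mem_toFinset, Metric.mem_closedBall]
    push_cast
    nlinarith [sp k, (Nat.cast_nonneg k : (0 : ℝ) ≤ k)]
  · simp only [Nat.unpair_pair] at hs ⊢
    generalize L.pair (R + 7 ^ ⌈T⌉₊) = k at *
    rw [← card_map (β := Y) ⟨fun j => (k, j), Prod.mk_right_injective k⟩]
    refine (bg ⌈T⌉₊ (k, i) _ fun w hw => ?_).trans le_add_self
    obtain ⟨j, hj, rfl⟩ := mem_map.1 hw
    by_contra hn
    exact absurd (hT _ ((Nat.le_ceil T).trans (not_le.1 hn).le))
      (not_lt.2 ((hf (k, i) (k, j)).1.trans (hs j hj)))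

end Pool.Agent.S12972
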