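import Pool.Statements.S12992
-- import your own Pool.Agent.* helpers here

set_option autoImplicit false
open Pool Pool.MP_327467_gt

namespace Pool.Agent.S12992

section
open Set TopologicalSpace

/-- children of `p` whose cone meets `F` -/
def Y (F : Set (List ℝ)) (p : List ℝ) : Set ℝ := {b | ∃ y ∈ F, b :: p <:+ y}

/-- closed sets -/
def Cl (F : Set (List ℝ)) : Prop :=
  (∀ a x, x ∈ F → a :: x ∈ F) ∧ ∀ a x, a ∈ derivedSet (Y F x) → a :: x ∈ F

lemma Y_mono {F G : Set (List ℝ)} (h : F ⊆ G) (p : List ℝ) : Y F p ⊆ Y G p :=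
  fun _ ⟨y, hy, e⟩ => ⟨y, h hy, e⟩

lemma Cl.down {F : Set (List ℝ)} (h : Cl F) {x y : List ℝ} (hx : x ∈ F) (e : x <:+ y) : y ∈ F := by
  obtain ⟨t, rfl⟩ := e
  induction t with
  | nil => exact hx
  | cons a t ih => exact h.1 a _ ih

/-- the tree space -/
def X : Type := List ℝ

instance : TopologicalSpace X := TopologicalSpace.ofClosed {F | Cl F}
  ⟨fun _ _ h => h.elim, fun a x h => by
    have : Y ∅ x = ∅ := eq_empty_of_forall_notMem fun _ ⟨_, hy, _⟩ => hy
    have h' : a ∈ derivedSet (Y ∅ x) := h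
    rw [this] at h'
    obtain ⟨_, h2, _⟩ := accPt_iff_nhds.1 h' univ Filter.univ_mem
    exact h2.2.elim⟩
  (fun A hA => ⟨fun a x hx F hF => (hA hF).1 a x (hx F hF), fun a x h F hF =>
    (hA hF).2 a x (derivedSet_mono _ _ (Y_mono (sInter_subset_of_mem hF) x) h)⟩)
  (fun A hA B hB => ⟨fun a x hx => hx.imp (hA.1 a x) (hB.1 a x), fun a x h => by
    have : Y (A ∪ B) x ⊆ Y A x ∪ Y B x := fun b ⟨y, hy, e⟩ =>
      hy.imp (fun h => ⟨y, h, e⟩) fun h => ⟨y, h, e⟩
    have h' := derivedSet_mono _ _ this h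
    rw [derivedSet_union] at h'
    exact h'.imp (hA.2 a x) (hB.2 a x)⟩)

/-- the kernel operator -/
def K (F : Set (List ℝ)) : Set (List ℝ) := {y | ∃ a p, a :: p <:+ y ∧ a ∈ derivedSet (Y F p)}

lemma K_of_Y {F G : Set (List ℝ)} (h : ∀ p, Y F p ⊆ Y G p) : K F ⊆ K G :=
  fun _ ⟨a, p, e, ha⟩ => ⟨a, p, e, derivedSet_mono _ _ (h p) ha⟩

lemma K_sub {F : Set (List ℝ)} (h : Cl F) : K F ⊆ F :=
  fun _ ⟨a, p, e, ha⟩ => h.down (h.2 a p ha) e

lemma K_cl {F : Set (List ℝ)} (h : Cl F) : Cl (K F) :=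
  ⟨fun b _ ⟨a, p, e, ha⟩ => ⟨a, p, e.trans (List.suffix_cons b _), ha⟩,
    fun a x ha => ⟨a, x, List.suffix_rfl, derivedSet_mono _ _ (Y_mono (K_sub h) x) ha⟩⟩

lemma cons_mem_K {F : Set (List ℝ)} (h : Cl F) {y : List ℝ} (hy : y ∈ F) : 0 :: y ∈ K F := by
  refine ⟨0, y, List.suffix_rfl, ?_⟩
  have : Y F y = univ := eq_univ_of_forall fun b => ⟨b :: y, h.1 b y hy, List.suffix_rfl⟩
  rw [this, mem_derivedSet, Filter.principal_univ, AccPt, inf_top_eq]
  infer_instance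

lemma Y_K {F : Set (List ℝ)} (h : Cl F) (p : List ℝ) : Y F p ⊆ Y (K F) p :=
  fun _ ⟨y, hy, e⟩ => ⟨0 :: y, cons_mem_K h hy, e.trans (List.suffix_cons 0 y)⟩

lemma cl_of (U : Opens X) : Cl (U : Set X)ᶜ := U.2

/-- the nucleus -/
def J : ClosureOperator (Opens X) := ClosureOperator.mk'
  (fun U => ⟨(K (U : Set X)ᶜ)ᶜ, by
    show Cl (K (U : Set X)ᶜ)ᶜᶜ
    rw [compl_compl]
    exact K_cl (cl_of U)⟩)
  (fun U V h => compl_subset_compl.2 (K_of_Y (Y_mono (compl_subset_compl.2 h))))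
  (fun U => subset_compl_comm.1 (K_sub (cl_of U)))
  (fun U => by
    show (K (K (U : Set X)ᶜ)ᶜᶜ)ᶜ ⊆ (K (U : Set X)ᶜ)ᶜ
    rw [compl_compl]
    exact compl_subset_compl.2 (K_of_Y (Y_K (cl_of U))))

lemma J_coe (U : Opens X) : (J U : Set X) = (K (U : Set X)ᶜ)ᶜ := rfl

lemma J_sInf (s : Set (Opens X)) (V : Opens X) (h : ∀ U ∈ s, V ≤ J U) : V ≤ J (sInf s) := by
  let H : Set (List ℝ) := (V : Set X)ᶜ ∪ ⋃ U ∈ s, (U : Set X)ᶜ
  have hY : ∀ p, Y H p ⊆ Y (V : Set X)ᶜ p := by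
    rintro p b ⟨y, hy | hy, e⟩
    · exact ⟨y, hy, e⟩
    · obtain ⟨U, hU, hy⟩ := mem_iUnion₂.1 hy
      exact Y_mono (subset_compl_comm.1 (h U hU)) p (Y_K (cl_of U) p ⟨y, hy, e⟩)
  have hH : Cl H := by
    refine ⟨?_, fun a x ha => Or.inl ((cl_of V).2 a x (derivedSet_mono _ _ (hY x) ha))⟩
    rintro a x (hx | hx)
    · exact Or.inl ((cl_of V).1 a x hx)
    · obtain ⟨U, hU, hx⟩ := mem_iUnion₂.1 hx
      exact Or.inr (mem_iUnion₂.2 ⟨U, hU, (cl_of U).1 a x hx⟩)
  let W : Opens X := ⟨Hᶜ, by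
    show Cl Hᶜᶜ
    rwa [compl_compl]⟩
  have h1 : W ≤ sInf s := le_sInf fun U hU x hx => by
    by_contra hn
    exact hx (Or.inr (mem_iUnion₂.2 ⟨U, hU, hn⟩))
  refine le_trans ?_ (J.monotone h1)
  show (V : Set X) ⊆ (K Hᶜᶜ)ᶜ
  rw [compl_compl]
  exact subset_compl_comm.1 ((K_of_Y hY).trans (K_sub (cl_of V)))

noncomputable instance : CompleteLattice J.Closeds := J.gi.liftCompleteLattice

/-- the complete homomorphism -/
noncomputable def phi : CompleteLatticeHom (Opens X) J.Closeds where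
  toFun := J.toCloseds
  map_sInf' s := by
    refine le_antisymm (le_sInf ?_) ?_
    · rintro _ ⟨U, hU, rfl⟩
      exact J.monotone (sInf_le hU)
    · exact J_sInf s _ fun U hU => (sInf_le (mem_image_of_mem _ hU) : _ ≤ J.toCloseds U)
  map_sSup' s := by
    rw [J.gi.gc.l_sSup, sSup_image]

lemma cut {F : Set (List ℝ)} (h : Cl F) {p : List ℝ} (hp : p ∉ F) {C : Set ℝ} (hC : IsClosed C) :
    Cl (F ∩ {y | ∀ b, b :: p <:+ y → b ∈ C}) := by
  refine ⟨fun a x hx => ⟨h.1 a x hx.1, fun b e => ?_⟩, fun a x ha =>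
    ⟨h.2 a x (derivedSet_mono _ _ (Y_mono inter_subset_left x) ha), fun b e => ?_⟩⟩
  · rcases List.suffix_cons_iff.1 e with e | e
    · exact absurd ((List.cons.inj e).2 ▸ hx.1) hp
    · exact hx.2 b e
  · rcases List.suffix_cons_iff.1 e with e | e
    · obtain ⟨rfl, rfl⟩ := List.cons.inj e
      exact isClosed_iff_derivedSet_subset C |>.1 hC
        (derivedSet_mono _ _ (by rintro c ⟨y, hy, e⟩; exact hy.2 c e) ha)
    · obtain ⟨c, ⟨y, hy, e'⟩, -⟩ := (accPt_iff_nhds.1 ha univ Filter.univ_mem).imp fun c hc =>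
        And.intro hc.1.2 hc.2
      exact hy.2 b (e.trans ((List.suffix_cons c x).trans e'))

lemma reducible {F : Set (List ℝ)} (h : Cl F) (hne : F.Nonempty) (hF : F ⊆ K F) :
    ∃ A B, Cl A ∧ Cl B ∧ F ⊆ A ∪ B ∧ ¬ F ⊆ A ∧ ¬ F ⊆ B := by
  obtain ⟨y, hy, hm⟩ := (measure List.length).wf.has_min F hne
  obtain ⟨a, p, e, ha⟩ := hF hy
  have hp : p ∉ F := fun hp => hm p hp (by
    have := e.length_le
    show p.length < y.length
    simpa using this)
  obtain ⟨b, c, hb, hc, hbc⟩ : ∃ b c, b ∈ Y F p ∧ c ∈ Y F p ∧ b < c := by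
    obtain ⟨b, hb, hba⟩ := accPt_iff_nhds.1 ha univ Filter.univ_mem
    obtain ⟨c, hc, -⟩ := accPt_iff_nhds.1 ha {b}ᶜ (isOpen_compl_singleton.mem_nhds hba.symm)
    rcases lt_or_gt_of_ne (show c ≠ b from hc.1) with h | h
    · exact ⟨c, b, hc.2, hb.2, h⟩
    · exact ⟨b, c, hb.2, hc.2, h⟩
  refine ⟨_, _, cut h hp (isClosed_Iic (a := (b + c) / 2)), cut h hp (isClosed_Ici (a := (b + c) / 2)),
    fun z hz => ?_, fun hs => ?_, fun hs => ?_⟩
  · by_contra hn
    simp only [mem_union, mem_inter_iff, hz, true_and, mem_ofPred_eq, not_or, not_forall, mem_Iic,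
      mem_Ici, not_le] at hn
    obtain ⟨⟨d, h1, h2⟩, d', h3, h4⟩ := hn
    have := (List.suffix_of_suffix_length_le h1 h3 (by simp)).eq_of_length (by simp)
    rw [(List.cons.inj this).1] at h2
    linarith
  · obtain ⟨z, hz, e⟩ := hc
    have : c ≤ (b + c) / 2 := (hs hz).2 c e
    linarith
  · obtain ⟨z, hz, e⟩ := hb
    have : (b + c) / 2 ≤ b := (hs hz).2 b e
    linarith

lemma no_prime (P : J.Closeds) (h1 : P ≠ ⊤) (h2 : ∀ a b, a ⊓ b ≤ P → a ≤ P ∨ b ≤ P) : False := by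
  have hP : J P.1 = P.1 := P.2
  obtain ⟨A, B, hA, hB, h3, h4, h5⟩ := reducible (cl_of P.1) (by
    by_contra hn
    refine h1 (top_unique ?_)
    intro x _
    by_contra hx
    exact hn ⟨x, hx⟩) (by
    intro x hx
    by_contra hn
    exact hx (hP.le hn))
  let U : Opens X := ⟨Aᶜ, by
    show Cl Aᶜᶜ
    rwa [compl_compl]⟩
  let V : Opens X := ⟨Bᶜ, by
    show Cl Bᶜᶜ
    rwa [compl_compl]⟩
  have h6 : U ⊓ V ≤ P.1 := fun x hx => by
    by_contra hn
    exact (h3 hn).elim hx.1 hx.2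
  rcases h2 (phi U) (phi V) (by rw [← map_inf]; exact J.gi.gc.l_le h6) with h | h
  · exact h4 (compl_subset_comm.1 (J.gi.gc.le_u h))
  · exact h5 (compl_subset_comm.1 (J.gi.gc.le_u h))

end

/-- The negation of the preceding statement: For every topological space X and every surjective complete lattice homomorphism from the lattice of open sets of X onto a complete lattice L', L' is order-isomorphic to the lattice of open sets of some topological space. -/
theorem result :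
    ¬ (∀ (X : Type) [TopologicalSpace X] (L' : Type) [CompleteLattice L']
      (φ : CompleteLatticeHom (TopologicalSpace.Opens X) L'),
      Function.Surjective φ →
        ∃ (Y : Type) (_ : TopologicalSpace Y),
          Nonempty (L' ≃o TopologicalSpace.Opens Y)) := by
  intro H
  obtain ⟨Z, _, ⟨e⟩⟩ := H X J.Closeds phi J.gi.l_surjective
  rcases isEmpty_or_nonempty Z with hZ | ⟨⟨z⟩⟩
  · have h1 : phi ⊥ = phi ⊤ := e.injective (TopologicalSpace.Opens.ext (Subsingleton.elim _ _))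
    have h2 : (K ((⊥ : TopologicalSpace.Opens X) : Set X)ᶜ)ᶜ =
        (K ((⊤ : TopologicalSpace.Opens X) : Set X)ᶜ)ᶜ := congrArg (fun a : J.Closeds => (a.1 : Set X)) h1
    have h3 := cons_mem_K (cl_of ⊥) (y := []) (fun h => h)
    rw [compl_injective h2] at h3
    exact K_sub (cl_of ⊤) h3 trivial
  · let Q : TopologicalSpace.Opens Z := ⟨(closure {z})ᶜ, isClosed_closure.isOpen_compl⟩
    have hQ : ∀ U : TopologicalSpace.Opens Z, U ≤ Q ↔ z ∉ U := fun U =>
      ⟨fun h hz => h hz (subset_closure rfl), fun h x hx hc => by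
        obtain ⟨_, h1, rfl⟩ := mem_closure_iff.1 hc U U.2 hx
        exact h h1⟩
    refine no_prime (e.symm Q) (fun h => ?_) fun a b h => ?_
    · have := congrArg e h
      rw [e.apply_symm_apply, map_top] at this
      exact (hQ ⊤).1 this.ge trivial
    · simp only [e.le_symm_apply, hQ, map_inf] at h ⊢
      by_contra hn
      push Not at hn
      exact h hn

end Pool.Agent.S12992
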