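import Pool.Statements.S13000

set_option autoImplicit false
open Pool Pool.MP_34ba9c_gt

namespace Pool.Agent.S13000

open Set Filter Topology

def X : Type := Option ℕ × Option ℝ

def C : Set (X → ℝ) := {f |
  (∀ a, Tendsto (fun n : ℕ => f (some n, some a)) atTop (𝓝 (f (none, some a)))) ∧
  (∀ n, Tendsto (fun a : ℝ => f (some n, some a)) cofinite (𝓝 (f (some n, none)))) ∧
  Tendsto (fun n : ℕ => f (some n, none)) atTop (𝓝 (f (none, none)))}

def emb (x : X) : C → ℝ := fun f => f.1 x

instance : TopologicalSpace X := .induced emb inferInstance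

lemma tend {ι : Type} {l : Filter ι} {u : ι → X} {x : X} :
    Tendsto u l (𝓝 x) ↔ ∀ f ∈ C, Tendsto (fun i => f (u i)) l (𝓝 (f x)) := by
  rw [nhds_induced, tendsto_comap_iff, tendsto_pi_nhds]
  exact ⟨fun h f hf => h ⟨f, hf⟩, fun h f => h f.1 f.2⟩

open Classical in
lemma ind (P : X → Prop) (h1 : ∀ a, ∀ᶠ n in atTop, P (some n, some a) ↔ P (none, some a))
    (h2 : ∀ n, ∀ᶠ a in cofinite, P (some n, some a) ↔ P (some n, none))
    (h3 : ∀ᶠ n in atTop, P (some n, none) ↔ P (none, none)) {ι : Type} {l : Filter ι} {u : ι → X}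
    {x : X} (h : Tendsto u l (𝓝 x)) : ∀ᶠ i in l, P (u i) ↔ P x := by
  have := tend.1 h (fun x => if P x then 1 else 0) ⟨fun a => tendsto_const_nhds.congr'
    ((h1 a).mono fun n h => by simp only [h]), fun a => tendsto_const_nhds.congr'
    ((h2 a).mono fun n h => by simp only [h]), tendsto_const_nhds.congr'
    (h3.mono fun n h => by simp only [h])⟩
  filter_upwards [Metric.tendsto_nhds.1 this 1 one_pos] with i hi
  by_cases a : P (u i) <;> by_cases b : P x <;> simp [a, b] at hi ⊢

lemma row (n : ℕ) {ι : Type} {l : Filter ι} {u : ι → X} {x : X} (h : Tendsto u l (𝓝 x)) :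
    ∀ᶠ i in l, (u i).1 = some n ↔ x.1 = some n :=
  ind (fun x => x.1 = some n) (fun _ => (eventually_ne_atTop n).mono fun m h => by simpa using h)
    (fun _ => by simp) ((eventually_ne_atTop n).mono fun m h => by simpa using h) h

lemma col (a : ℝ) {ι : Type} {l : Filter ι} {u : ι → X} {x : X} (h : Tendsto u l (𝓝 x)) :
    ∀ᶠ i in l, (u i).2 = some a ↔ x.2 = some a :=
  ind (fun x => x.2 = some a) (fun _ => by simp)
    (fun _ => (eventually_cofinite_ne a).mono fun m h => by simpa using h) (by simp) h

instance : T35Space X := by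
  refine IsEmbedding.t35Space (f := emb) ⟨⟨rfl⟩, fun x y h => ?_⟩
  have : Tendsto (fun _ : ℕ => x) atTop (𝓝 y) := tend.2 fun f hf =>
    (show f x = f y from congrFun h ⟨f, hf⟩) ▸ tendsto_const_nhds
  exact Prod.ext (Option.ext fun n => (row n this).exists.choose_spec)
    (Option.ext fun n => (col n this).exists.choose_spec)

lemma sR {f : X → ℝ} (h : SeqContinuous f) : Continuous f := by
  refine continuous_iff_continuousAt.2 fun x => tend.1 tendsto_id f ⟨fun a => h (tend.2 fun g hg => hg.1 a),
    fun n U hU => ?_, h (tend.2 fun g hg => hg.2.2)⟩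
  by_contra hn
  let e := Set.Infinite.natEmbedding _ hn
  have ei : Function.Injective fun k => (e k).1 := Subtype.val_injective.comp e.injective
  obtain ⟨k, hk⟩ := ((h (tend.2 fun g hg => (hg.2.1 n).comp
    (Nat.cofinite_eq_atTop ▸ ei.tendsto_cofinite))).eventually hU).exists
  exact (e k).2 hk

lemma sG {Z : Type} [TopologicalSpace Z] [CompletelyRegularSpace Z] {f : X → Z}
    (h : SeqContinuous f) : Continuous f := by
  refine continuous_def.2 fun U hU => isOpen_iff_mem_nhds.2 fun x hx => ?_
  obtain ⟨g, g1, g2, g3⟩ := CompletelyRegularSpace.completely_regular (f x) Uᶜ hU.isClosed_compl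
    (not_not.2 hx)
  have := sR (f := fun y => (g (f y) : ℝ)) fun u y hu =>
    ((continuous_subtype_val.comp g1).tendsto _).comp (h hu)
  filter_upwards [(isOpen_ne_fun this continuous_const (g := fun _ => 1)).mem_nhds
    (show (g (f x) : ℝ) ≠ 1 by simp [g2])] with y hy
  by_contra hn
  exact hy (by simp [g3 hn])

lemma notseq : ¬ SequentialSpace X := fun h => by
  have hs : IsSeqClosed {x : X | x.1 = none ∧ x.2 ≠ none} := fun u y hu h => by
    have h1 : y.1 = none := Option.eq_none_iff_forall_ne_some.2 fun n e => by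
      obtain ⟨k, hk⟩ := (row n h).exists
      simp [e, (hu k).1] at hk
    refine ⟨h1, fun h2 => ?_⟩
    choose a ha using fun k => Option.ne_none_iff_exists'.1 (hu k).2
    obtain ⟨k, hk⟩ := (ind (fun x => ∃ k, x.2 = some (a k) ∧ ∀ n, x.1 = some n → k ≤ n) (fun b => by
      by_cases hb : ∃ k, b = a k
      · obtain ⟨k, rfl⟩ := hb
        filter_upwards [eventually_ge_atTop k] with n hn
        exact iff_of_true ⟨k, rfl, by simpa using hn⟩ ⟨k, rfl, by simp⟩
      · exact .of_forall fun n => iff_of_false (fun ⟨k, h, _⟩ => hb ⟨k, by simpa using h⟩)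
          fun ⟨k, h, _⟩ => hb ⟨k, by simpa using h⟩)
      (fun n => by
        filter_upwards [((finite_le_nat n).image a).compl_mem_cofinite] with b hb
        exact iff_of_false (fun ⟨k, h, h'⟩ => hb ⟨k, h' n rfl, by simpa using h.symm⟩) (by simp))
      (by simp) h).exists
    simpa [h2] using hk.1 ⟨k, ha k, by simp [(hu k).1]⟩
  have : (cocountable : Filter ℝ).NeBot := ⟨fun e => Cardinal.not_countable_real (by
    simpa using mem_cocountable.1 (show ∅ ∈ (cocountable : Filter ℝ) from e ▸ mem_bot))⟩
  refine (IsClosed.mem_of_tendsto (X := X) (x := (none, none)) (f := fun a : ℝ => ((none, some a) : X))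
    (b := cocountable) hs.isClosed (tend.2 fun f hf => tendsto_const_nhds.congr' ?_)
    (.of_forall fun a => ⟨rfl, Option.some_ne_none a⟩)).2 rfl
  have : ∀ᶠ a in cocountable, ∀ n, f (some n, some a) = f (some n, none) :=
    mem_cocountable.2 ((countable_iUnion fun n => (hf.2.1 n).countable_compl_preimage_ker).mono
      fun a ha => by simpa [ker_nhds] using ha)
  filter_upwards [this] with a ha
  exact tendsto_nhds_unique hf.2.2 ((hf.1 a).congr ha)

lemma key {G : Type} [Group G] (i : X → G) : ∃ S : Set (ℕ → G),
    (∀ u ∈ S, Tendsto u atTop (@nhds _ (GroupTopology.coinduced i).toTopologicalSpace 1)) ∧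
    (GroupTopology.coinduced i).toTopologicalSpace = (sInf {t : GroupTopology G |
      ∀ u ∈ S, Tendsto u atTop (@nhds _ t.toTopologicalSpace 1)}).toTopologicalSpace := by
  refine ⟨{u | Tendsto u atTop (@nhds _ (GroupTopology.coinduced i).toTopologicalSpace 1)},
    fun u hu => hu, ?_⟩
  refine congrArg _ (le_antisymm (le_sInf fun t ht => sInf_le ?_) (sInf_le fun u hu => hu))
  refine continuous_iff_coinduced_le.1 ?_
  have ht' : ∀ (u : ℕ → X) x, Tendsto u atTop (𝓝 x) →
      Tendsto (fun n => i (u n) * (i x)⁻¹) atTop (@nhds _ t.toTopologicalSpace 1) :=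
    fun u x hu => ht _ (by
      let := (GroupTopology.coinduced i).toTopologicalSpace
      have := (GroupTopology.coinduced i).toIsTopologicalGroup
      simpa using (((GroupTopology.coinduced_continuous i).tendsto x).comp hu).mul_const (i x)⁻¹)
  let := t.toTopologicalSpace
  have := t.toIsTopologicalGroup
  let := IsTopologicalGroup.rightUniformSpace G
  refine sG fun u x hu => ?_
  simpa [Function.comp_def] using (ht' u x hu).mul_const (i x)

/-- The negation of the preceding statement: For every Tychonoff space X with base point x₀, if the Graev free topological group F(X) is an s-group (its topology is the finest group topology making some set of its null sequences converge to 1), then X is sequential. -/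
theorem result :
    ¬ (∀ (X : Type) [TopologicalSpace X] [T35Space X] (x₀ : X)
    (τ : TopologicalSpace
      (FreeGroup X ⧸ Subgroup.normalClosure ({FreeGroup.of x₀} : Set (FreeGroup X)))),
    τ = (GroupTopology.coinduced
          (fun x : X => (QuotientGroup.mk (FreeGroup.of x) :
            FreeGroup X ⧸ Subgroup.normalClosure ({FreeGroup.of x₀} : Set (FreeGroup X))))).toTopologicalSpace →
    (∃ S : Set (ℕ → FreeGroup X ⧸ Subgroup.normalClosure ({FreeGroup.of x₀} : Set (FreeGroup X))),
      (∀ u ∈ S, Filter.Tendsto u Filter.atTop (@nhds _ τ 1)) ∧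
      τ = (sInf {t : GroupTopology
              (FreeGroup X ⧸ Subgroup.normalClosure ({FreeGroup.of x₀} : Set (FreeGroup X))) |
              ∀ u ∈ S, Filter.Tendsto u Filter.atTop (@nhds _ t.toTopologicalSpace 1)}).toTopologicalSpace) →
    SequentialSpace X) := by
  exact fun h => notseq (h X (none, none) _ rfl (key _))

end Pool.Agent.S13000
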