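import Pool.Statements.S13032
import Pool.Agent.Lib.helper22.LtB
import Pool.Agent.Lib.helper22.LtC

set_option autoImplicit false
open Pool Pool.MP_3a0f08_gt

namespace Pool.Agent.S13032

/-- The negation of the preceding statement: Every compact Hausdorff group whose left translations are continuous carries a Borel probability measure giving positive measure to every nonempty open set. -/
theorem result :
    ¬ (∀ (G : Type) [Group G] [TopologicalSpace G] [CompactSpace G] [T2Space G]
      [MeasurableSpace G] [BorelSpace G],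
      (∀ g : G, Continuous (fun x : G => g * x)) →
      ∃ μ : MeasureTheory.Measure G, MeasureTheory.IsProbabilityMeasure μ ∧
        ∀ U : Set G, IsOpen U → U.Nonempty → 0 < μ U) := by
  intro H
  obtain ⟨K, _, _, _, _, _, N, n0, n1, n2, n3, hFE, cK⟩ := Pool.Agent.Lib.helper22.Lt.group_ex
  obtain ⟨Y, _, _, _, U, y₀, u0, u1, u2, u3, hom, cY, O, o1, o2⟩ :=
    Pool.Agent.Lib.helper22.Lt.space_ex
  obtain ⟨G, g1, g2, g3⟩ := Pool.Agent.Lib.helper22.Lt.simply_transitive N n0 n1 n2 n3 hFE U u0 u1
    u2 y₀ u3 hom (by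
      rw [Cardinal.mk_prod, Cardinal.lift_id, Cardinal.lift_id]
      exact Cardinal.mul_le_of_le Cardinal.aleph0_le_continuum cY cK)
  let ev : G ≃ Y × K := Equiv.ofBijective (fun g => g.1 (y₀, 1)) ⟨fun g g' h => by
    have : g'.1⁻¹ * g.1 = 1 := g2 _ (G.mul_mem (G.inv_mem g'.2) g.2) (y₀, 1) (by
      rw [Equiv.Perm.mul_apply, show g.1 (y₀, 1) = g'.1 (y₀, 1) from h]; simp)
    exact Subtype.ext (inv_mul_eq_one.1 this).symm, fun x => by
    obtain ⟨h, h1, h2⟩ := g3 x
    exact ⟨⟨h, h1⟩, h2⟩⟩
  letI : TopologicalSpace G := TopologicalSpace.induced ev inferInstance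
  let η : G ≃ₜ Y × K := ev.toHomeomorphOfIsInducing ⟨rfl⟩
  haveI : CompactSpace G := η.symm.compactSpace
  haveI : T2Space G := η.symm.t2Space
  letI : MeasurableSpace G := borel G
  haveI : BorelSpace G := ⟨rfl⟩
  obtain ⟨μ, hμ, h⟩ := H G fun g =>
    continuous_induced_rng.2 ((g1 g.1 g.2).comp η.continuous)
  have op : ∀ c, IsOpen ((fun g : G => (η g).1) ⁻¹' O c) := fun c =>
    (o1 c).1.preimage (continuous_fst.comp η.continuous)
  have := MeasureTheory.Measure.countable_meas_pos_of_disjoint_iUnion (μ := μ)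
    (As := fun c => (fun g : G => (η g).1) ⁻¹' O c) (fun c => (op c).measurableSet)
    fun c c' hc => Set.disjoint_left.2 fun g h1 h2 => hc (o2 _ _ _ h1 h2)
  have e : {c | 0 < μ ((fun g : G => (η g).1) ⁻¹' O c)} = Set.univ :=
    Set.eq_univ_of_forall fun c => h _ (op c) (by
      obtain ⟨y, hy⟩ := (o1 c).2
      exact ⟨η.symm (y, 1), by simpa using hy⟩)
  rw [e] at this
  haveI hu : Uncountable (ℕ → Bool) := Cardinal.aleph0_lt_mk_iff.1 (by
    simpa using Cardinal.aleph0_lt_continuum)
  exact Set.not_countable_univ this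

end Pool.Agent.S13032
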