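import Pool.Statements.S13033
import Pool.Agent.Lib.helper18.Lw5

set_option autoImplicit false
open Pool Pool.MP_3a8a48_gt

namespace Pool.Agent.S13033

open H18Lw Finset MeasureTheory

lemma flip {m : ℕ} (x a : ℕ → ℝ) (t : ℝ) : ∑ j ∈ range (m + 1), x (m - j) * a j * t ^ (m - j) =
    ∑ k ∈ range (m + 1), t ^ k * (x k * a (m - k)) := by
  rw [← sum_flip]
  refine sum_congr rfl fun j hj => ?_
  rw [Nat.sub_sub_self (by simpa [Nat.lt_succ_iff] using hj)]
  ring

theorem result :
    ∀ m : ℕ, 2 ≤ m → ∀ n : ℕ, n < m →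
    ∀ K : Set (EuclideanSpace ℝ (Fin m)),
      IsCompact K → Convex ℝ K → (interior K).Nonempty →
      ∀ a : ℕ → ℝ, ∀ b : Fin m → ℕ → ℝ,
        (∀ t : ℝ, 0 ≤ t →
          (MeasureTheory.volume (Metric.cthickening t K)).toReal =
            ∑ j ∈ Finset.range (m + 1),
              (MeasureTheory.volume
                (Metric.ball (0 : EuclideanSpace ℝ (Fin (m - j))) 1)).toReal
                * a j * t ^ (m - j)) →
        (∀ i : Fin m, ∀ t : ℝ, 0 ≤ t →
          (MeasureTheory.volume (Metric.cthickening t
            ((fun x : EuclideanSpace ℝ (Fin m) =>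
                x - (inner ℝ x (EuclideanSpace.single i (1 : ℝ))) •
                  EuclideanSpace.single i (1 : ℝ)) '' K))).toReal =
            ∑ j ∈ Finset.range (m + 1),
              (MeasureTheory.volume
                (Metric.ball (0 : EuclideanSpace ℝ (Fin (m - j))) 1)).toReal
                * b i j * t ^ (m - j)) →
        ((m : ℝ) - (n : ℝ)) * a n ≤ ∑ i : Fin m, b i n := by
  intro m _ n hn K h1 h2 h3 a b ha hb
  set x := fun k => (volume (Metric.ball (0 : EuclideanSpace ℝ (Fin k)) 1)).toReal
  have := main (k := m - n) (c := fun k => x k * a (m - k)) (d := fun i k => x k * b i (m - k)) h1 h2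
    (h3.mono interior_subset) (fun t ht => (ha t ht).trans (flip x a t)) (fun i t ht => by
      rw [← flip x (b i) t, ← hb i t ht]
      simp [P_eq, EuclideanSpace.inner_single_right]) (by omega) (by omega)
  have x0 : 0 < x (m - n) := ENNReal.toReal_pos (Metric.measure_ball_pos _ _ one_pos).ne'
    measure_ball_lt_top.ne
  rw [Nat.sub_sub_self hn.le, ← mul_sum, Nat.cast_sub hn.le] at this
  nlinarith

end Pool.Agent.S13033
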