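import Pool.Statements.S13052
-- import your own Pool.Agent.* helpers here

set_option autoImplicit false
open Pool Pool.MP_3dcd8c_gt

namespace Pool.Agent.S13052

section
open Set Filter Topology

abbrev MM : Type := ℕ → ℝ

def ag (n : ℕ) (x y : MM) : Prop := ∀ i < n, x i = y i

lemma ag.symm' {n : ℕ} {x y : MM} (h : ag n x y) : ag n y x := fun i hi => (h i hi).symm
lemma ag.trans' {n : ℕ} {x y z : MM} (h : ag n x y) (h' : ag n y z) : ag n x z :=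
  fun i hi => (h i hi).trans (h' i hi)
lemma ag.mono {n m : ℕ} {x y : MM} (h : ag n x y) (h' : m ≤ n) : ag m x y :=
  fun i hi => h i (hi.trans_le h')

def QQ : Type := {q : MM → Set MM ⊕ Bool // ∃ C : ℕ → MM → Set ℝ, (∀ n x, (C n x).Countable) ∧
  (∀ n x y, ag n x y → C n x = C n y) ∧ ∀ x, (∀ n, x n ∉ C n x) → ∃ b, q x = Sum.inr b}

def DD : Type := {d : (MM × Finset QQ) × (MM × Finset QQ) //
  ∀ q ∈ d.1.2, q ∈ d.2.2 → q.1 d.1.1 = q.1 d.2.1}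

def XX : Type := MM ⊕ DD

def il (x : MM) : XX := Sum.inl x
def ir (d : DD) : XX := Sum.inr d

def NN (U : Set MM) (Q : Finset QQ) : Set XX := {p | Sum.elim (fun x => x ∈ U)
  (fun d : DD => (d.1.1.1 ∈ U ∧ Q ⊆ d.1.1.2) ∨ (d.1.2.1 ∈ U ∧ Q ⊆ d.1.2.2)) p}

def cyl (x : MM) (n : ℕ) : Set MM := {y | ag n x y}

lemma NN_mono {U V : Set MM} {Q R : Finset QQ} (h : U ⊆ V) (h' : R ⊆ Q) : NN U Q ⊆ NN V R := by
  rintro (x | d) hp
  · exact h hp
  · exact hp.imp (fun a => ⟨h a.1, h'.trans a.2⟩) (fun a => ⟨h a.1, h'.trans a.2⟩)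

instance : TopologicalSpace XX where
  IsOpen O := ∀ x, il x ∈ O → ∃ n Q, NN (cyl x n) Q ⊆ O
  isOpen_univ := fun _ _ => ⟨0, ∅, subset_univ _⟩
  isOpen_inter := by
    classical
    intro s t hs ht x hx
    obtain ⟨n, Q, h⟩ := hs x hx.1
    obtain ⟨m, R, h'⟩ := ht x hx.2
    exact ⟨max n m, Q ∪ R, subset_inter
      ((NN_mono (fun _ a => ag.mono a (le_max_left _ _)) Finset.subset_union_left).trans h)
      ((NN_mono (fun _ a => ag.mono a (le_max_right _ _)) Finset.subset_union_right).trans h')⟩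
  isOpen_sUnion := by
    rintro S hS x ⟨t, ht, hx⟩
    obtain ⟨n, Q, h⟩ := hS t ht x hx
    exact ⟨n, Q, h.trans (subset_sUnion_of_mem ht)⟩

lemma NN_open {U : Set MM} (h : ∀ x ∈ U, ∃ n, cyl x n ⊆ U) (Q : Finset QQ) : IsOpen (NN U Q) := by
  intro x hx
  obtain ⟨n, hn⟩ := h x hx
  exact ⟨n, Q, NN_mono hn subset_rfl⟩

lemma cyl_open (x : MM) (n : ℕ) (Q : Finset QQ) : IsOpen (NN (cyl x n) Q) :=
  NN_open (fun y hy => ⟨n, fun z hz => ag.trans' (x := x) (y := y) (z := z) hy hz⟩) Q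

lemma self_mem (x : MM) (n : ℕ) (Q : Finset QQ) : il x ∈ NN (cyl x n) Q := fun _ _ => rfl

lemma ir_open (d : DD) : IsOpen ({ir d} : Set XX) := fun _ hx => by cases hx

lemma nb {x : MM} {t : Set XX} (h : t ∈ 𝓝 (il x)) : ∃ n Q, NN (cyl x n) Q ⊆ t := by
  obtain ⟨s, h1, h2, h3⟩ := mem_nhds_iff.mp h
  obtain ⟨n, Q, h4⟩ := h2 x h3
  exact ⟨n, Q, h4.trans h1⟩

lemma NN_disj {U V : Set MM} {Q R : Finset QQ} (q : QQ) (hq : q ∈ Q) (hr : q ∈ R)
    (h : ∀ x ∈ U, ∀ y ∈ V, q.1 x ≠ q.1 y) : Disjoint (NN U Q) (NN V R) := by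
  rw [Set.disjoint_left]
  rintro (x | d) h1 h2
  · exact h x h1 x h2 rfl
  · rcases h1 with h1 | h1 <;> rcases h2 with h2 | h2
    · exact h _ h1.1 _ h2.1 rfl
    · exact h _ h1.1 _ h2.1 (d.2 q (h1.2 hq) (h2.2 hr))
    · exact h _ h1.1 _ h2.1 (d.2 q (h2.2 hr) (h1.2 hq)).symm
    · exact h _ h1.1 _ h2.1 rfl

open Classical in
noncomputable def chi (U : Set MM) : QQ :=
  ⟨fun x => Sum.inr (decide (x ∈ U)), fun _ _ => ∅, fun _ _ => countable_empty,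
    fun _ _ _ _ => rfl, fun _ _ => ⟨_, rfl⟩⟩

lemma chi_ne {U : Set MM} {x y : MM} (hx : x ∈ U) (hy : y ∉ U) : (chi U).1 x ≠ (chi U).1 y := by
  simp [chi, hx, hy]

instance : Infinite QQ := Infinite.of_injective (fun a : ℝ => chi {x | x 0 = a}) (by
  intro a b h
  by_contra hne
  have h1 : (chi {x | x 0 = a}).1 (fun _ => a) = (chi {x | x 0 = b}).1 (fun _ => a) :=
    congrArg (fun q : QQ => q.1 (fun _ => a)) h
  simp [chi, hne] at h1)

instance : T1Space XX := ⟨by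
  classical
  intro p
  rw [← isOpen_compl_iff]
  intro x hx
  rcases p with w | d
  · have : x ≠ w := fun h => hx (congrArg il h)
    obtain ⟨i, hi⟩ := Function.ne_iff.mp this
    refine ⟨i + 1, ∅, ?_⟩
    rintro _ hp rfl
    exact hi (hp i (Nat.lt_succ_self i))
  · obtain ⟨q, hq⟩ := Infinite.exists_notMem_finset (d.1.1.2 ∪ d.1.2.2)
    refine ⟨0, {q}, ?_⟩
    rintro _ hp rfl
    rcases hp with h | h
    · exact hq (Finset.mem_union_left _ (h.2 (Finset.mem_singleton_self q)))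
    · exact hq (Finset.mem_union_right _ (h.2 (Finset.mem_singleton_self q)))⟩

instance : RegularSpace XX := RegularSpace.of_exists_mem_nhds_isClosed_subset (by
  classical
  rintro (x | d) s hs
  · obtain ⟨n, Q, h⟩ := nb hs
    refine ⟨NN (cyl x n) (insert (chi (cyl x n)) Q), (cyl_open _ _ _).mem_nhds (self_mem _ _ _),
      ?_, (NN_mono subset_rfl (Finset.subset_insert _ _)).trans h⟩
    rw [← isOpen_compl_iff]
    intro z hz
    refine ⟨n, {chi (cyl x n)}, Disjoint.subset_compl_left ?_⟩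
    exact NN_disj (chi (cyl x n)) (Finset.mem_insert_self _ _) (Finset.mem_singleton_self _)
      fun y hy w hw => chi_ne hy fun h1 => hz (ag.trans' h1 (ag.symm' hw))
  · exact ⟨{ir d}, (ir_open d).mem_nhds rfl, isClosed_singleton,
      singleton_subset_iff.mpr (mem_of_mem_nhds hs)⟩)

instance : T3Space XX := {}

lemma find_eq {P : ℕ → MM → Prop} [∀ x, DecidablePred fun n => P n x] (h : ∀ x, ∃ n, P n x)
    (hP : ∀ n x y, ag n x y → P n x → P n y) (x y : MM) (hxy : ag (Nat.find (h x)) x y) :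
    Nat.find (h y) = Nat.find (h x) := by
  rw [Nat.find_eq_iff]
  exact ⟨hP _ _ _ hxy (Nat.find_spec (h x)), fun m hm h1 =>
    Nat.find_min (h x) hm (hP _ _ _ (hxy.mono hm.le).symm' h1)⟩

lemma cwh (𝓕 : Set (Set XX)) (h1 : ∀ F ∈ 𝓕, IsClosed F ∧ IsLindelof F)
    (h2 : ∀ x : XX, ∃ N ∈ nhds x, {F : Set XX | F ∈ 𝓕 ∧ (F ∩ N).Nonempty}.Subsingleton) :
    ∃ U : Set XX → Set XX, (∀ F ∈ 𝓕, IsOpen (U F) ∧ F ⊆ U F) ∧
      (∀ F ∈ 𝓕, ∀ G ∈ 𝓕, F ≠ G → Disjoint (U F) (U G)) := by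
  classical
  have hc : ∀ F ∈ 𝓕, ∀ n, {a | ∃ w : MM, il w ∈ F ∧ w n = a}.Countable := by
    intro F hF n
    obtain ⟨r, hr, h⟩ := (h1 F hF).2.elim_countable_subcover
      (fun a : ℝ => NN {w | w n = a} ∅)
      (fun a => NN_open (fun x hx => ⟨n + 1, fun y hy =>
        (hy n (Nat.lt_succ_self n)).symm.trans hx⟩) _) (by
        rintro (x | d) -
        · exact mem_iUnion.mpr ⟨x n, rfl⟩
        · exact mem_iUnion.mpr ⟨d.1.1.1 n, Or.inl ⟨rfl, Finset.empty_subset _⟩⟩)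
    refine hr.mono ?_
    rintro _ ⟨w, hw, rfl⟩
    obtain ⟨a, ha, h3⟩ := mem_iUnion₂.mp (h hw)
    have : w n = a := h3
    rwa [this]
  let S : ℕ → MM → Prop := fun n x => ∀ F ∈ 𝓕, ∀ G ∈ 𝓕, (∃ w, il w ∈ F ∧ ag n x w) →
    (∃ w, il w ∈ G ∧ ag n x w) → F = G
  have hS : ∀ x, ∃ n, S n x := by
    intro x
    obtain ⟨t, ht, h⟩ := h2 (il x)
    obtain ⟨n, Q, h3⟩ := nb ht
    refine ⟨n, ?_⟩
    rintro F hF G hG ⟨w, a1, a2⟩ ⟨w', b1, b2⟩
    exact h ⟨hF, _, a1, h3 a2⟩ ⟨hG, _, b1, h3 b2⟩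
  have hS2 : ∀ n x y, ag n x y → S n x → S n y := by
    rintro n x y h hx F hF G hG ⟨w, a1, a2⟩ ⟨w', b1, b2⟩
    exact hx F hF G hG ⟨w, a1, h.trans' a2⟩ ⟨w', b1, h.trans' b2⟩
  let V : Set XX → Set MM := fun F => {x | ∃ w, il w ∈ F ∧ ag (Nat.find (hS x) + 1) x w}
  have hV1 : ∀ F, ∀ x ∈ V F, ∃ n, cyl x n ⊆ V F := by
    rintro F x ⟨w, a1, a2⟩
    refine ⟨Nat.find (hS x) + 1, fun y hy => ⟨w, a1, ?_⟩⟩
    rw [find_eq hS hS2 x y (ag.mono hy (Nat.le_succ _))]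
    exact (ag.symm' hy).trans' a2
  have hV2 : ∀ F ∈ 𝓕, ∀ G ∈ 𝓕, ∀ x ∈ V F, x ∈ V G → F = G := by
    rintro F hF G hG x ⟨w, a1, a2⟩ ⟨w', b1, b2⟩
    exact Nat.find_spec (hS x) F hF G hG ⟨w, a1, a2.mono (Nat.le_succ _)⟩
      ⟨w', b1, b2.mono (Nat.le_succ _)⟩
  let C : ℕ → MM → Set ℝ := fun n x => {a | S n x ∧ ∃ F ∈ 𝓕, (∃ w, il w ∈ F ∧ ag n x w) ∧
    ∃ w : MM, il w ∈ F ∧ w n = a}
  let q : QQ := ⟨fun x => if h : ∃ F ∈ 𝓕, x ∈ V F then Sum.inl (V h.choose) else Sum.inr false,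
    C, by
      intro n x
      by_cases h : (C n x).Nonempty
      · obtain ⟨a, h3, F, hF, h4, -⟩ := h
        refine (hc F hF n).mono ?_
        rintro b ⟨-, G, hG, h5, h6⟩
        rw [h3 F hF G hG h4 h5]
        exact h6
      · rw [not_nonempty_iff_eq_empty.mp h]; exact countable_empty, by
      have : ∀ n x y, ag n x y → C n x ⊆ C n y := by
        rintro n x y h a ⟨h3, F, hF, ⟨w, a1, a2⟩, h5⟩
        exact ⟨hS2 _ _ _ h h3, F, hF, ⟨w, a1, h.symm'.trans' a2⟩, h5⟩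
      exact fun n x y h => (this n x y h).antisymm (this n y x h.symm'), by
      intro x hx
      refine ⟨false, dif_neg ?_⟩
      rintro ⟨F, hF, w, a1, a2⟩
      exact hx _ ⟨Nat.find_spec (hS x), F, hF, ⟨w, a1, a2.mono (Nat.le_succ _)⟩, w, a1,
        (a2 _ (Nat.lt_succ_self _)).symm⟩⟩
  have hq : ∀ F ∈ 𝓕, ∀ x ∈ V F, q.1 x = Sum.inl (V F) := by
    intro F hF x hx
    have h : ∃ F ∈ 𝓕, x ∈ V F := ⟨F, hF, hx⟩
    simp only [q, dif_pos h]
    rw [hV2 _ h.choose_spec.1 F hF x h.choose_spec.2 hx]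
  have hd : ∀ F ∈ 𝓕, ∀ G ∈ 𝓕, ∀ p ∈ F, p ∈ G → F = G := by
    intro F hF G hG p a1 a2
    obtain ⟨t, ht, h⟩ := h2 p
    exact h ⟨hF, p, a1, mem_of_mem_nhds ht⟩ ⟨hG, p, a2, mem_of_mem_nhds ht⟩
  refine ⟨fun F => (NN (V F) {q} ∩ {p | ∀ G ∈ 𝓕, G ≠ F → p ∉ G}) ∪ F,
    fun F hF => ⟨?_, subset_union_right⟩, fun F hF G hG hne => ?_⟩
  · rw [isOpen_iff_mem_nhds]
    rintro (x | d) hp
    · have a1 : il x ∈ NN (V F) {q} ∩ {p | ∀ G ∈ 𝓕, G ≠ F → p ∉ G} :=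
        hp.elim id fun h => ⟨⟨x, h, fun _ _ => rfl⟩,
          fun G hG hne h' => hne (hd G hG F hF _ h' h)⟩
      refine mem_of_superset (inter_mem ((NN_open (hV1 F) _).mem_nhds a1.1) ?_) subset_union_left
      obtain ⟨t, ht, h⟩ := h2 (il x)
      by_cases h3 : ∃ G ∈ 𝓕, G ≠ F ∧ (G ∩ t).Nonempty
      · obtain ⟨G, hG, a2, a3⟩ := h3
        filter_upwards [ht, (h1 G hG).1.isOpen_compl.mem_nhds (a1.2 G hG a2)]
          with y hy hy2 G' hG' _ hy3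
        have : G' = G := h ⟨hG', y, hy3, hy⟩ ⟨hG, a3⟩
        exact hy2 (this ▸ hy3)
      · filter_upwards [ht] with y hy G' hG' a2 hy3
        exact h3 ⟨G', hG', a2, y, hy3, hy⟩
    · exact mem_of_superset ((ir_open d).mem_nhds rfl) (singleton_subset_iff.mpr hp)
  · have h3 : Disjoint (NN (V F) {q}) (NN (V G) {q}) :=
      NN_disj q (Finset.mem_singleton_self _) (Finset.mem_singleton_self _) fun x hx y hy h => by
        rw [hq F hF x hx, hq G hG y hy] at h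
        exact hne (hV2 F hF G hG x hx (Sum.inl_injective h ▸ hx))
    rw [Set.disjoint_left]
    rintro p (a1 | a1) (a2 | a2)
    · exact Set.disjoint_left.mp h3 a1.1 a2.1
    · exact a1.2 G hG hne.symm a2
    · exact a2.2 F hF hne a1
    · exact hne (hd F hF G hG p a1 a2)

lemma metac (𝒰 : Set (Set XX)) (h1 : ∀ U ∈ 𝒰, IsOpen U) (h2 : ⋃₀ 𝒰 = Set.univ) :
    ∃ 𝒱 : Set (Set XX), (∀ V ∈ 𝒱, IsOpen V) ∧ ⋃₀ 𝒱 = Set.univ ∧
      (∀ V ∈ 𝒱, ∃ U ∈ 𝒰, V ⊆ U) ∧ ∀ x : XX, {V : Set XX | V ∈ 𝒱 ∧ x ∈ V}.Finite := by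
  classical
  have hcov : ∀ p : XX, ∃ U ∈ 𝒰, p ∈ U := fun p => mem_sUnion.mp (h2 ▸ mem_univ p)
  let S : ℕ → MM → Prop := fun n x => ∃ Q, ∃ U ∈ 𝒰, NN (cyl x n) Q ⊆ U
  have hS : ∀ x, ∃ n, S n x := by
    intro x
    obtain ⟨U, hU, h⟩ := hcov (il x)
    obtain ⟨n, Q, h3⟩ := h1 U hU x h
    exact ⟨n, Q, U, hU, h3⟩
  have hS2 : ∀ n x y, ag n x y → S n x → S n y := by
    rintro n x y h ⟨Q, U, hU, h3⟩
    exact ⟨Q, U, hU, (NN_mono (fun _ a => h.trans' a) subset_rfl).trans h3⟩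
  let c : MM → Set MM := fun x => cyl x (Nat.find (hS x))
  have hc : ∀ x, ∀ y ∈ c x, c y = c x := by
    intro x y h
    simp only [c]
    rw [find_eq hS hS2 x y h]
    exact Subset.antisymm (fun _ a => ag.trans' h a) (fun _ a => ag.trans' (ag.symm' h) a)
  have h3 : ∀ s : Set MM, ∃ Q, (∃ x, s = c x) → ∃ U ∈ 𝒰, NN s Q ⊆ U := by
    intro s
    by_cases h : ∃ x, s = c x
    · obtain ⟨x, rfl⟩ := h
      obtain ⟨Q, h⟩ := Nat.find_spec (hS x)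
      exact ⟨Q, fun _ => h⟩
    · exact ⟨∅, fun h' => absurd h' h⟩
  choose Q hQ using h3
  refine ⟨range (fun x => NN (c x) (Q (c x))) ∪ range (fun d => {ir d}), ?_, ?_, ?_, ?_⟩
  · rintro _ (⟨x, rfl⟩ | ⟨d, rfl⟩)
    · exact cyl_open _ _ _
    · exact ir_open d
  · apply eq_univ_of_forall
    rintro (x | d)
    · exact ⟨_, Or.inl ⟨x, rfl⟩, self_mem _ _ _⟩
    · exact ⟨_, Or.inr ⟨d, rfl⟩, rfl⟩
  · rintro _ (⟨x, rfl⟩ | ⟨d, rfl⟩)
    · exact hQ _ ⟨x, rfl⟩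
    · obtain ⟨U, hU, h⟩ := hcov (ir d)
      exact ⟨U, hU, singleton_subset_iff.mpr h⟩
  · rintro (x | d)
    · refine (finite_singleton (NN (c x) (Q (c x)))).subset ?_
      rintro _ ⟨⟨y, rfl⟩ | ⟨d, rfl⟩, h⟩
      · rw [hc y x h]; rfl
      · cases h
    · refine (toFinite {NN (c d.1.1.1) (Q (c d.1.1.1)), NN (c d.1.2.1) (Q (c d.1.2.1)),
        {ir d}}).subset ?_
      rintro _ ⟨⟨y, rfl⟩ | ⟨d', rfl⟩, h⟩
      · rcases h with h | h
        · rw [hc y _ h.1]; exact Or.inl rfl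
        · rw [hc y _ h.1]; exact Or.inr (Or.inl rfl)
      · have : ir d = ir d' := h
        exact Or.inr (Or.inr (by rw [this]; rfl))

lemma closeoff {α : Type} (f : Finset α → Finset α → Finset α) : ∃ T : Set α, T.Countable ∧
    ∀ R P : Finset α, ↑R ⊆ T → P ⊆ R → ↑(f R P) ⊆ T := by
  have hc : ∀ T : Set α, T.Countable → {R : Finset α | ↑R ⊆ T}.Countable := fun T hT =>
    ((countable_ofPred_finite_subset hT).preimage_of_injOn
      Finset.coe_injective.injOn).mono fun R h => And.intro R.finite_toSet h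
  let T : ℕ → Set α := fun n => Nat.rec ∅ (fun _ S => S ∪
    ⋃ p ∈ {R : Finset α | ↑R ⊆ S} ×ˢ {R : Finset α | ↑R ⊆ S}, ↑(f p.1 p.2)) n
  have h1 : ∀ n, (T n).Countable := by
    intro n
    induction n with
    | zero => exact countable_empty
    | succ n ih =>
      exact ih.union (((hc _ ih).prod (hc _ ih)).biUnion fun _ _ => Finset.countable_toSet _)
  have h2 : Monotone T := monotone_nat_of_le_succ fun n => subset_union_left
  refine ⟨⋃ n, T n, countable_iUnion h1, fun R P h hP => ?_⟩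
  obtain ⟨n, hn⟩ := h2.directed_le.exists_mem_subset_of_finset_subset_biUnion h
  refine Subset.trans ?_ (subset_iUnion T (n + 1))
  exact (subset_biUnion_of_mem (u := fun p : Finset α × Finset α => (↑(f p.1 p.2) : Set α))
    (x := (R, P)) (mk_mem_prod hn ((Finset.coe_subset.mpr hP).trans hn))).trans
      subset_union_right

lemma avoid (E : ℕ → MM → Set ℝ) (h1 : ∀ n x, (E n x).Countable)
    (h2 : ∀ n x y, ag n x y → E n x = E n y) : ∃ y : MM, ∀ n, y n ∉ E n y := by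
  have h3 : ∀ n x, ∃ a, a ∉ E n x := by
    intro n x
    by_contra h
    push Not at h
    exact Cardinal.not_countable_real ((h1 n x).mono fun a _ => h a)
  choose e he using h3
  let Y : ℕ → MM := fun n => Nat.rec (fun _ => 0) (fun k y => Function.update y k (e k y)) n
  have h4 : ∀ n, ag n (Y n) (fun k => Y (k + 1) k) := by
    intro n
    induction n with
    | zero => exact fun i hi => absurd hi (Nat.not_lt_zero i)
    | succ n ih =>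
      intro i hi
      rcases Nat.lt_succ_iff_lt_or_eq.mp hi with h | h
      · exact (Function.update_of_ne h.ne _ _).trans (ih i h)
      · rw [h]
  refine ⟨fun k => Y (k + 1) k, fun n => ?_⟩
  rw [← h2 n _ _ (h4 n)]
  have : Y (n + 1) n = e n (Y n) := Function.update_self _ _ _
  simp only [this]
  exact he _ _

lemma npl (𝒱 : Set (Set XX)) (h1 : ∀ V ∈ 𝒱, IsOpen V) (h2 : ⋃₀ 𝒱 = Set.univ)
    (h3 : ∀ V ∈ 𝒱, ∃ U ∈ range (fun a : ℝ => NN {w | w 0 = a} ∅), V ⊆ U)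
    (h4 : ∀ x : XX, ∃ N ∈ nhds x, {V : Set XX | V ∈ 𝒱 ∧ (V ∩ N).Nonempty}.Countable) : False := by
  classical
  have h5 : ∀ V : Set XX, ∃ a : ℝ, V ∈ 𝒱 → ∀ w, il w ∈ V → w 0 = a := by
    intro V
    by_cases h : V ∈ 𝒱
    · obtain ⟨_, ⟨a, rfl⟩, h6⟩ := h3 V h
      exact ⟨a, fun _ w hw => h6 hw⟩
    · exact ⟨0, fun h' => absurd h' h⟩
  choose g hg using h5
  have h6 : ∀ x : MM, ∃ W ∈ 𝒱, ∃ n Q, NN (cyl x n) Q ⊆ W ∧
      {V : Set XX | V ∈ 𝒱 ∧ (V ∩ NN (cyl x n) Q).Nonempty}.Countable := by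
    intro x
    obtain ⟨W, hW, hx⟩ := mem_sUnion.mp (h2 ▸ mem_univ (il x))
    obtain ⟨t, ht, h⟩ := h4 (il x)
    obtain ⟨n, Q, h7⟩ := nb (inter_mem ((h1 W hW).mem_nhds hx) ht)
    exact ⟨W, hW, n, Q, h7.trans inter_subset_left, h.mono fun V hV =>
      And.intro hV.1 (hV.2.mono (inter_subset_inter_right _ (h7.trans inter_subset_right)))⟩
  choose W hW n Q hQ1 hQ2 using h6
  let A : Finset QQ → Finset QQ → Finset QQ → Set ℝ := fun R P R' =>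
    {a | ∃ y : MM, y 0 = a ∧ (∀ q ∈ R, q.1 y = Sum.inr (decide (q ∈ P))) ∧
      ∀ q ∈ Q y, q ∈ R' → q ∈ R}
  have h7 : ∀ R P, ∃ R', (A R P R').Countable := by
    intro R P
    by_cases h : (A R P ∅).Nonempty
    · obtain ⟨_, z, -, hz, -⟩ := h
      refine ⟨Q z, ((hQ2 z).image g).mono ?_⟩
      rintro _ ⟨y, rfl, a1, a2⟩
      let d : DD := ⟨((z, Q z), (y, Q y)), fun q b1 b2 =>
        (hz q (a2 q b2 b1)).trans (a1 q (a2 q b2 b1)).symm⟩
      refine ⟨W y, ⟨hW y, ir d, hQ1 y (Or.inr ⟨fun _ _ => rfl, subset_rfl⟩),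
        Or.inl ⟨fun _ _ => rfl, subset_rfl⟩⟩, (hg _ (hW y) y (hQ1 y (self_mem _ _ _))).symm⟩
    · exact ⟨∅, by rw [not_nonempty_iff_eq_empty.mp h]; exact countable_empty⟩
  choose f hf using h7
  obtain ⟨T, hT, hT2⟩ := closeoff f
  have hc : {R : Finset QQ | ↑R ⊆ T}.Countable :=
    ((countable_ofPred_finite_subset hT).preimage_of_injOn
      Finset.coe_injective.injOn).mono fun R h => And.intro R.finite_toSet h
  choose C C1 C2 C3 using fun q : QQ => q.2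
  obtain ⟨y, hy⟩ := avoid (fun n x => (⋃ q ∈ T, C q n x) ∪
    ⋃ p ∈ {R : Finset QQ | ↑R ⊆ T} ×ˢ {R : Finset QQ | ↑R ⊆ T}, A p.1 p.2 (f p.1 p.2))
    (fun n x => (hT.biUnion fun q _ => C1 q n x).union ((hc.prod hc).biUnion fun p _ => hf _ _))
    (fun n x y h => by simp only [fun q => C2 q n x y h])
  let R := (Q y).filter (· ∈ T)
  let P := R.filter (fun q => q.1 y = Sum.inr true)
  have hR : ↑R ⊆ T := fun q hq => (Finset.mem_filter.mp hq).2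
  have hP : P ⊆ R := Finset.filter_subset _ _
  refine hy 0 (Or.inr (mem_biUnion (x := (R, P)) ⟨hR, (Finset.coe_subset.mpr hP).trans hR⟩
    ⟨y, rfl, fun q hq => ?_, fun q a1 a2 => Finset.mem_filter.mpr ⟨a1, hT2 R P hR hP a2⟩⟩))
  obtain ⟨b, hb⟩ := C3 q y fun k h => hy k (Or.inl (mem_biUnion (hR hq) h))
  have hq' : q ∈ R := hq
  cases b <;> simp [P, hb, hq']

end

/-- The negation of the preceding statement: Every regular space in which discrete families of closed Lindelöf sets have disjoint open expansions, and every open cover has a point-finite open refinement, also has a locally countable open refinement for every open cover. -/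
theorem result :
    ¬ (∀ (X : Type) [TopologicalSpace X] [T3Space X],
      (∀ 𝓕 : Set (Set X),
        (∀ F ∈ 𝓕, IsClosed F ∧ IsLindelof F) →
        (∀ x : X, ∃ N ∈ nhds x, {F : Set X | F ∈ 𝓕 ∧ (F ∩ N).Nonempty}.Subsingleton) →
        ∃ U : Set X → Set X,
          (∀ F ∈ 𝓕, IsOpen (U F) ∧ F ⊆ U F) ∧
          (∀ F ∈ 𝓕, ∀ G ∈ 𝓕, F ≠ G → Disjoint (U F) (U G))) →
      (∀ 𝒰 : Set (Set X), (∀ U ∈ 𝒰, IsOpen U) → ⋃₀ 𝒰 = Set.univ →
        ∃ 𝒱 : Set (Set X), (∀ V ∈ 𝒱, IsOpen V) ∧ ⋃₀ 𝒱 = Set.univ ∧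
          (∀ V ∈ 𝒱, ∃ U ∈ 𝒰, V ⊆ U) ∧
          ∀ x : X, {V : Set X | V ∈ 𝒱 ∧ x ∈ V}.Finite) →
      (∀ 𝒰 : Set (Set X), (∀ U ∈ 𝒰, IsOpen U) → ⋃₀ 𝒰 = Set.univ →
        ∃ 𝒱 : Set (Set X), (∀ V ∈ 𝒱, IsOpen V) ∧ ⋃₀ 𝒱 = Set.univ ∧
          (∀ V ∈ 𝒱, ∃ U ∈ 𝒰, V ⊆ U) ∧
          ∀ x : X, ∃ N ∈ nhds x, {V : Set X | V ∈ 𝒱 ∧ (V ∩ N).Nonempty}.Countable)) := by
  intro h
  obtain ⟨V, h1, h2, h3, h4⟩ := h XX cwh metac (Set.range (fun a : ℝ => NN {w | w 0 = a} ∅))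
    (by
      rintro _ ⟨a, rfl⟩
      exact NN_open (fun x hx => ⟨1, fun y hy => (hy 0 Nat.one_pos).symm.trans hx⟩) _)
    (by
      apply Set.eq_univ_of_forall
      rintro (x | d)
      · exact ⟨_, ⟨x 0, rfl⟩, rfl⟩
      · exact ⟨_, ⟨d.1.1.1 0, rfl⟩, Or.inl ⟨rfl, Finset.empty_subset _⟩⟩)
  exact npl V h1 h2 h3 h4

end Pool.Agent.S13052
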