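import Pool.Statements.S13080
import Pool.Agent.Lib.helper5.KSep

set_option autoImplicit false
open Pool Pool.MP_41b9bf_gt

namespace Pool.Agent.S13080

/-- The negation of the preceding statement: For Tychonoff spaces X and Y, if X has a dense sigma-compact subset and C_p(X), C_p(Y) (pointwise topology) are linearly homeomorphic, then Y also has a dense sigma-compact subset. -/
theorem result :
    ¬ (∀ (X Y : Type) [TopologicalSpace X] [T35Space X] [TopologicalSpace Y] [T35Space Y],
      (∃ S : Set X, Dense S ∧ IsSigmaCompact S) →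
      (∃ T : C(X, ℝ) ≃ₗ[ℝ] C(Y, ℝ),
        @Continuous (C(X, ℝ)) (C(Y, ℝ))
          (TopologicalSpace.induced (fun f : C(X, ℝ) => (f : X → ℝ))
            (inferInstance : TopologicalSpace (X → ℝ)))
          (TopologicalSpace.induced (fun g : C(Y, ℝ) => (g : Y → ℝ))
            (inferInstance : TopologicalSpace (Y → ℝ)))
          (⇑T) ∧
        @Continuous (C(Y, ℝ)) (C(X, ℝ))
          (TopologicalSpace.induced (fun g : C(Y, ℝ) => (g : Y → ℝ))
            (inferInstance : TopologicalSpace (Y → ℝ)))
          (TopologicalSpace.induced (fun f : C(X, ℝ) => (f : X → ℝ))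
            (inferInstance : TopologicalSpace (X → ℝ)))
          (⇑T.symm)) →
      ∃ S : Set Y, Dense S ∧ IsSigmaCompact S) := by
  intro h
  obtain ⟨X, Y, _, _, _, _, ⟨T, t1, t2⟩, h1, h2⟩ := H5E.ksep
  exact h2 (h X Y h1 ⟨T, H5E.cont_of_PC t1, H5E.cont_of_PC t2⟩)

end Pool.Agent.S13080
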