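import Pool.Statements.S13094
import Pool.Agent.Lib.helper5.UDense

set_option autoImplicit false
open Pool Pool.MP_440a64_gt

namespace Pool.Agent.S13094

/-- The negation of the preceding statement: For every Tychonoff X: if C_p(X) has a uniformly dense subspace that is monotonically ω-monolithic (countable monotone σ-continuous external networks on closures of countable sets), then C_p(X) itself is monotonically ω-monolithic. -/
theorem result :
    ¬ (∀ (X : Type) [TopologicalSpace X] [T35Space X] (D : Set C(X, ℝ)),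
      (∀ f : C(X, ℝ), ∀ ε : ℝ, 0 < ε → ∃ g ∈ D, ∀ x : X, |f x - g x| < ε) →
      (∃ N : Set C(X, ℝ) → Set (Set C(X, ℝ)),
        (∀ A : Set C(X, ℝ), A ⊆ D → A.Countable →
          (N A).Countable ∧ (∀ n ∈ N A, n ⊆ D) ∧
          ∀ y ∈ D,
            y ∈ @closure _ (TopologicalSpace.induced (fun f : C(X, ℝ) => (⇑f : X → ℝ)) inferInstance) A →
            ∀ U : Set C(X, ℝ),
              @IsOpen _ (TopologicalSpace.induced (fun f : C(X, ℝ) => (⇑f : X → ℝ)) inferInstance) U →
              y ∈ U → ∃ n ∈ N A, y ∈ n ∧ n ⊆ U) ∧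
        (∀ A B : Set C(X, ℝ), A ⊆ B → B ⊆ D → B.Countable → N A ⊆ N B) ∧
        (∀ A : ℕ → Set C(X, ℝ), Monotone A → (∀ k, A k ⊆ D ∧ (A k).Countable) →
          N (⋃ k, A k) = ⋃ k, N (A k))) →
      (∃ N : Set C(X, ℝ) → Set (Set C(X, ℝ)),
        (∀ A : Set C(X, ℝ), A.Countable →
          (N A).Countable ∧
          ∀ y : C(X, ℝ),
            y ∈ @closure _ (TopologicalSpace.induced (fun f : C(X, ℝ) => (⇑f : X → ℝ)) inferInstance) A →
            ∀ U : Set C(X, ℝ),
              @IsOpen _ (TopologicalSpace.induced (fun f : C(X, ℝ) => (⇑f : X → ℝ)) inferInstance) U →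
              y ∈ U → ∃ n ∈ N A, y ∈ n ∧ n ⊆ U) ∧
        (∀ A B : Set C(X, ℝ), A ⊆ B → B.Countable → N A ⊆ N B) ∧
        (∀ A : ℕ → Set C(X, ℝ), Monotone A → (∀ k, (A k).Countable) →
          N (⋃ k, A k) = ⋃ k, N (A k)))) := by
  intro H
  classical
  obtain ⟨G, ξ, hξ, g1, g2⟩ := H5UD.tag (fun _ => false)
  obtain ⟨N, h, -⟩ := H H5UD.X (Set.range G) (fun f ε hε => by
      obtain ⟨n, hn⟩ := exists_nat_one_div_lt hε
      exact ⟨_, ⟨(f, n), rfl⟩, fun x => (g2 (f, n) x).trans_lt hn⟩)
    ⟨fun A => (fun q => {G q}) '' (ξ ⁻¹' ⋃ a ∈ A, {η : H5UD.Lam |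
        a (η, fun _ => false) ≠ a (OnePoint.infty, fun _ => false)}),
      fun A _ hA => ⟨((hA.biUnion fun a _ => H5UD.supp (f := fun x => a (x, fun _ => false))
        (a.continuous.comp (Continuous.prodMk_left _))).preimage hξ).image _, by
          rintro _ ⟨q, -, rfl⟩ _ rfl
          exact ⟨q, rfl⟩, by
          rintro _ ⟨q, rfl⟩ hy U - hU
          refine ⟨_, ⟨q, by_contra fun hn => g1 q ?_, rfl⟩, rfl, Set.singleton_subset_iff.2 hU⟩
          refine closure_minimal (t := {a : H5UD.X → ℝ | a (ξ q, fun _ => false) =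
            a (OnePoint.infty, fun _ => false)}) ?_ (isClosed_eq (continuous_apply _)
              (continuous_apply _)) (closure_induced.1 hy)
          rintro _ ⟨a, ha, rfl⟩
          exact by_contra fun h => hn (Set.mem_iUnion₂.2 ⟨a, ha, h⟩)⟩,
      fun A B hAB _ _ => Set.image_mono (Set.preimage_mono (Set.biUnion_subset_biUnion_left hAB)),
      fun A _ _ => by
        simp only [Set.biUnion_iUnion, Set.preimage_iUnion, Set.image_iUnion]⟩
  obtain ⟨h1, h2⟩ := h _ (Set.countable_range fun p => H5UD.fn (H5SP.D p))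
  choose n n1 n2 n3 using fun t : H5UD.TT => h2 (H5UD.fn fun s => decide (s = t))
    (closure_induced.2 (H5UD.fn_cl _)) {f | 0 < f (OnePoint.infty, t)}
    (isOpen_induced (f := fun f : C(H5UD.X, ℝ) => (f : H5UD.X → ℝ))
      (isOpen_lt continuous_const (continuous_apply (OnePoint.infty, t))))
    (by simp [H5UD.fn])
  have : Uncountable H5UD.TT :=
    Cardinal.aleph0_lt_mk_iff.1 (H5UD.mkT ▸ Cardinal.aleph0_lt_continuum)
  refine Set.not_countable_univ ((h1.preimage (f := n) fun s t e => ?_).mono fun t _ => n1 t)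
  by_contra hne
  have := n3 t (e ▸ n2 s)
  simp [H5UD.fn, Ne.symm hne] at this

end Pool.Agent.S13094
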