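import Pool.Statements.S13106
import Pool.Agent.Lib.helper18.Lps2

set_option autoImplicit false
open MeasureTheory
open scoped Pointwise
open Pool Pool.MP_46ea74_gt

namespace Pool.Agent.S13106

open H18Lps Set

def K (j : Fin 2) : Set (E 3) := {x | |x 0| ≤ 1 ∧ |x 1| ≤ 1 ∧ 0 ≤ x 2 ∧ x 2 ≤ 1 / 100 ∧
  |x j.castSucc| - 1 / 10 ≤ 100 * x 2}

lemma K0 (j : Fin 2) : 0 ∈ K j := by simp [K]

lemma Kc (j : Fin 2) : Convex ℝ (K j) := by
  rintro x ⟨a1, a2, a3, a4, a5⟩ y ⟨b1, b2, b3, b4, b5⟩ s t hs ht hst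
  have h : ∀ i, |(s • x + t • y) i| ≤ s * |x i| + t * |y i| := fun i => by
    simpa [abs_mul, abs_of_nonneg hs, abs_of_nonneg ht] using abs_add_le (s * x i) (t * y i)
  have e : (s • x + t • y) 2 = s * x 2 + t * y 2 := by simp
  refine ⟨(h 0).trans ?_, (h 1).trans ?_, ?_, ?_, ?_⟩
  all_goals nlinarith [h j.castSucc, mul_le_mul_of_nonneg_left a5 hs, mul_le_mul_of_nonneg_left b5 ht]

lemma Kcl (j : Fin 2) : IsClosed (K j) :=
  .and (isClosed_le (by fun_prop) (by fun_prop)) <| .and (isClosed_le (by fun_prop) (by fun_prop)) <|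
    .and (isClosed_le (by fun_prop) (by fun_prop)) <| .and (isClosed_le (by fun_prop) (by fun_prop))
      (isClosed_le (by fun_prop) (by fun_prop))

lemma KB (j : Fin 2) : K j ⊆ B := fun x ⟨a1, a2, a3, a4, _⟩ =>
  ⟨by linarith, by linarith, abs_le.2 ⟨by linarith, by linarith⟩⟩

lemma Kk (j : Fin 2) : IsCompact (K j) := Metric.isCompact_of_isClosed_isBounded (Kcl j)
  (isBounded_iff_forall_norm_le.2 ⟨3, fun _ h => nB (KB j h)⟩)

lemma Ki (j : Fin 2) : (interior (K j)).Nonempty := by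
  refine ⟨!₂[0, 0, 1 / 200], mem_interior_iff_mem_nhds.2 (Filter.mem_of_superset
    (Metric.ball_mem_nhds _ (show (0 : ℝ) < 1 / 200 by norm_num)) fun x hx => ?_)⟩
  have h := fun i => (PiLp.norm_apply_le _ i).trans_lt (mem_ball_iff_norm.1 hx)
  have h0 := h 0
  have h1 := h 1
  have h2 := h 2
  simp [abs_lt] at h0 h1 h2
  refine ⟨?_, ?_, ?_, ?_, ?_⟩
  rotate_right
  · fin_cases j <;> simp [abs_le] <;> constructor <;> linarith [h0.1, h0.2, h1.1, h1.2, h2.1]
  all_goals try rw [abs_le]; constructor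
  all_goals linarith [h0.1, h0.2, h1.1, h1.2, h2.1, h2.2]

lemma low {c : NNReal} (hc : (μH[2] : Measure (E 2)) = c • volume) (j : Fin 2) {e : ℝ} (he : 0 < e) :
    (1 / 2000) ^ e * (c * 7.6) ≤ ∫ x in frontier (K j), phi (K j) x ^ e ∂μH[2] := by
  have m2 : MeasurableSet {x ∈ K j | 100 * x 2 = |x j.castSucc| - 1 / 10} :=
    ((Kcl j).and (isClosed_eq (by fun_prop) (by fun_prop))).measurableSet
  refine lower hc (K0 j) (Kc j) (Kcl j) (Ki j) (KB j) he (by norm_num) (by positivity)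
    ((((Kcl j).and (isClosed_eq (by fun_prop : Continuous fun x : E 3 => x 2)
      (continuous_const (y := 1 / 100)))).measurableSet).union m2) ?_ ?_
  · rintro x (⟨h1, h2⟩ | ⟨h1, h2⟩)
    · refine (phi_ge (K0 j) h1 (v := EuclideanSpace.single 2 1) (by simp) (by simp [EuclideanSpace.inner_single_right, h2])
        fun y hy => by simpa [EuclideanSpace.inner_single_right, h2] using hy.2.2.2.1).imp_right fun h => le_trans ?_ h
      norm_num [EuclideanSpace.inner_single_right, h2]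
    · obtain ⟨s, hs, h3⟩ : ∃ s : ℝ, |s| = 1 ∧ x j.castSucc * s = |x j.castSucc| := by
        rcases le_total 0 (x j.castSucc) with h | h
        · exact ⟨1, by simp, by simp [abs_of_nonneg h]⟩
        · exact ⟨-1, by simp, by simp [abs_of_nonpos h]⟩
      have e : ∀ y : E 3, inner ℝ y (EuclideanSpace.single j.castSucc (s / 100) -
          EuclideanSpace.single 2 1) = (y j.castSucc * s - 100 * y 2) / 100 := fun y => by
        simp [inner_sub_right, EuclideanSpace.inner_single_right]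
        ring
      refine (phi_ge (K0 j) h1 (v := EuclideanSpace.single j.castSucc (s / 100) -
        EuclideanSpace.single 2 1) ((norm_sub_le _ _).trans (by simp [abs_div, hs]; norm_num))
        (by rw [e]; linarith) fun y hy => ?_).imp_right fun h => le_trans (by rw [e]; linarith) h
      have := le_abs_self (y j.castSucc * s)
      rw [abs_mul, hs] at this
      rw [e, e]
      linarith [hy.2.2.2.2]
  · have b : ∀ x ∈ K j, |x j.castSucc| ≤ 1 := fun x hx => by
      fin_cases j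
      exacts [hx.1, hx.2.1]
    have := c.coe_nonneg
    rw [measure_union (disjoint_left.2 fun x h1 h2 => by linarith [h1.2, h2.2, b x h1.1]) m2]
    refine le_trans (le_of_eq ?_) (add_le_add (lo 2 (P := R 1 1) fun w hw => ?_)
      (lo 2 (P := R 1 1 \ R (![1 / 10, 1] j) (![1, 1 / 10] j)) fun w hw => ?_))
    · rw [mR hc zero_le_one, mD hc, ← ENNReal.ofReal_add (by positivity)]
      · congr 1
        fin_cases j <;> simp <;> ring
      all_goals fin_cases j <;> simp <;> linarith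
    · refine ⟨!₂[w 0, w 1, 1 / 100], ⟨⟨hw.1, hw.2, by simp, by simp, ?_⟩, rfl⟩, ?_⟩
      · fin_cases j <;> simp <;> linarith [hw.1, hw.2]
      · ext i
        fin_cases i <;> rfl
    · have h1 : |w j| ≤ 1 := by
        fin_cases j
        exacts [hw.1.1, hw.1.2]
      have h2 : 1 / 10 < |w j| := by
        by_contra! h
        fin_cases j
        exacts [hw.2 ⟨h, hw.1.2⟩, hw.2 ⟨hw.1.1, h⟩]
      have h3 : (!₂[w 0, w 1, (|w j| - 1 / 10) / 100] : E 3) j.castSucc = w j := by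
        fin_cases j <;> rfl
      refine ⟨!₂[w 0, w 1, (|w j| - 1 / 10) / 100], ⟨⟨hw.1.1, hw.1.2, ?_, ?_, ?_⟩, ?_⟩, ?_⟩
      rotate_right
      · ext i
        fin_cases i <;> rfl
      all_goals
        try rw [h3]
        simp
        linarith

theorem result :
    ¬ (∀ n : ℕ, 2 ≤ n → ∀ p : ℝ, 0 ≤ p → p ≤ 1 →
  ∀ K L : Set (EuclideanSpace ℝ (Fin n)),
    Convex ℝ K → IsCompact K → (interior K).Nonempty → (0 : EuclideanSpace ℝ (Fin n)) ∈ K →
    Convex ℝ L → IsCompact L → (interior L).Nonempty → (0 : EuclideanSpace ℝ (Fin n)) ∈ L →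
    ∀ Sp : Set (EuclideanSpace ℝ (Fin n)) → ℝ,
      (∀ A : Set (EuclideanSpace ℝ (Fin n)), Sp A =
        ∫ x in frontier A,
          (sSup {t : ℝ | ∃ u : EuclideanSpace ℝ (Fin n), ‖u‖ = 1 ∧
            (∀ y ∈ A, @inner ℝ _ _ y u ≤ @inner ℝ _ _ x u) ∧ t = @inner ℝ _ _ x u}) ^ (1 - p)
          ∂(μH[(n : ℝ) - 1])) →
      Sp K ^ (1 / ((n : ℝ) - p)) + Sp L ^ (1 / ((n : ℝ) - p))
        ≤ Sp (K + L) ^ (1 / ((n : ℝ) - p))) := by
  intro H
  obtain ⟨c, c0, hc⟩ := area
  replace H := H 3 (by norm_num) (1 - 200⁻¹) (by norm_num) (by norm_num) (K 0) (K 1) (Kc 0) (Kk 0) (Ki 0)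
    (K0 0) (Kc 1) (Kk 1) (Ki 1) (K0 1) _ fun _ => rfl
  simp only [show ((3 : ℕ) : ℝ) - 1 = 2 by norm_num, sub_sub_cancel] at H
  have he : (0 : ℝ) < 200⁻¹ := by norm_num
  have u := upper hc (A := K 0 + K 1) ⟨0, K0 0, 0, K0 1, add_zero _⟩ ((Kc 0).add (Kc 1))
    ((Kk 0).add (Kk 1)).isClosed ((Ki 0).mono (interior_mono fun x hx => ⟨x, hx, 0, K0 1, add_zero _⟩))
    (by
      rintro _ ⟨x, ⟨a1, a2, a3, a4, -⟩, y, ⟨b1, b2, b3, b4, -⟩, rfl⟩
      refine ⟨(abs_add_le (x 0) (y 0)).trans (by linarith), (abs_add_le (x 1) (y 1)).trans (by linarith), ?_⟩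
      simp only [PiLp.add_apply, abs_le]
      constructor <;> linarith) he fun x ⟨h, h0, h1⟩ => by
      replace h0 : |x 0| ≤ 1 := h0
      replace h1 : |x 1| ≤ 1 := h1
      refine ⟨!₂[x 0 / 10, x 1, 0], ?_, !₂[x 0, x 1 / 10, 0], ?_, ?_⟩
      · simp [K, abs_div, h1]
        constructor <;> linarith
      · simp [K, abs_div, h0]
        constructor <;> linarith
      · ext i
        fin_cases i <;> simp [h] <;> ring
  have c1 : (0 : ℝ) < c := c0
  set a : ℝ := (1 / 2000) ^ (200⁻¹ : ℝ) * (c * 7.6)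
  have a0 : 0 < a := by positivity
  set q : ℝ := 1 / (((3 : ℕ) : ℝ) - (1 - 200⁻¹))
  have q0 : 0 < q := by norm_num [q]
  have l := fun j => Real.rpow_le_rpow a0.le (low hc j he) q0.le
  have t : (3 : ℝ) ^ (200⁻¹ : ℝ) * (c * 28.64) < 4 * a := by
    have h1 : (6000 : ℝ) ^ (200⁻¹ : ℝ) ≤ 1.05 :=
      (Real.rpow_le_rpow (by norm_num) (by norm_num) he.le).trans
        (Real.pow_rpow_inv_natCast (n := 200) (by norm_num) (by norm_num)).le
    rw [show (3 : ℝ) = 6000 * (1 / 2000) by norm_num, Real.mul_rpow (by norm_num) (by norm_num)]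
    have : (0 : ℝ) < (1 / 2000) ^ (200⁻¹ : ℝ) * c := by positivity
    simp only [a]
    nlinarith
  have s := Real.rpow_lt_rpow (integral_nonneg fun x => Real.rpow_nonneg
    (phi_nonneg (A := K 0 + K 1) ⟨0, K0 0, 0, K0 1, add_zero _⟩ x) _) (u.trans_lt t) q0
  have h4 : (4 : ℝ) ^ q ≤ 2 := (Real.rpow_le_rpow_of_exponent_le (by norm_num)
    (show q ≤ 2⁻¹ by norm_num [q])).trans (by
      rw [show (4 : ℝ) = 2 ^ 2 by norm_num]
      exact (Real.pow_rpow_inv_natCast (n := 2) (by norm_num) (by norm_num)).le)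
  rw [Real.mul_rpow (by norm_num) a0.le] at s
  have := (add_le_add (l 0) (l 1)).trans_lt (H.trans_lt s)
  nlinarith [Real.rpow_pos_of_pos a0 q]

end Pool.Agent.S13106
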