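import Pool.Statements.S13188


set_option autoImplicit false
open Pool Pool.MP_55e428_gt

namespace Pool.Agent.S13188

/-- The negation of the preceding statement: For every compact subset K of ℝ^Γ lying in c₀(Γ) (i.e. every Eberlein compact), every continuous surjection from C_p(K) (pointwise topology) onto a σ-compact Tychonoff space Y has Y with a countable network. -/
theorem result :
    ¬ (∀ (Γ : Type) (K : Set (Γ → ℝ)), IsCompact K →
      (∀ x ∈ K, ∀ ε : ℝ, 0 < ε → {γ : Γ | ε < |x γ|}.Finite) →
      ∀ (Y : Type) [TopologicalSpace Y] [T35Space Y] [SigmaCompactSpace Y]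
        (φ : {f : K → ℝ // Continuous f} → Y), Continuous φ → Function.Surjective φ →
        ∃ N : Set (Set Y), N.Countable ∧
          ∀ U : Set Y, IsOpen U → ∀ y ∈ U, ∃ A ∈ N, y ∈ A ∧ A ⊆ U) := by
  classical
  intro H
  let Γ := Set ℕ
  have hΓ : Uncountable Γ :=
    Cardinal.aleph0_lt_mk_iff.1 (by simp [Γ, Cardinal.aleph0_lt_continuum])
  let e : Γ → Γ → ℝ := fun γ => Pi.single γ 1
  have he : Filter.Tendsto e Filter.cofinite (nhds 0) := by
    rw [tendsto_pi_nhds]
    intro δ
    refine tendsto_const_nhds.congr' ?_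
    filter_upwards [Filter.eventually_cofinite_ne δ] with γ hγ
    simp [e, Pi.single_apply, hγ.symm]
  let K : Set (Γ → ℝ) := insert 0 (Set.range e)
  have hK : IsCompact K := he.isCompact_insert_range_of_cofinite
  let z : K := ⟨0, Set.mem_insert _ _⟩
  let p : Γ → K := fun γ => ⟨e γ, Set.mem_insert_of_mem _ ⟨γ, rfl⟩⟩
  have hp : Filter.Tendsto p Filter.cofinite (nhds z) := tendsto_subtype_rng.2 he
  let S : Set (Γ → ℝ) := {y | (∀ γ, y γ ∈ Set.Icc (0:ℝ) 1) ∧ {γ | y γ ≠ 0}.Finite}
  have hS : IsSigmaCompact S := by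
    refine ⟨fun n => (Set.pi Set.univ fun _ => Set.Icc (0:ℝ) 1) ∩
      ⋂ T : Finset Γ, {y | (∀ γ ∈ T, y γ ≠ 0) → T.card ≤ n}, fun n => ?_, ?_⟩
    · refine (isCompact_univ_pi fun _ => isCompact_Icc).inter_right (isClosed_iInter fun T => ?_)
      by_cases h : T.card ≤ n
      · simp [h]
      · have : {y : Γ → ℝ | (∀ γ ∈ T, y γ ≠ 0) → T.card ≤ n} = ⋃ γ ∈ T, {y | y γ = 0} := by
          ext y; simp [h]
        rw [this]
        exact T.finite_toSet.isClosed_biUnion fun γ _ =>
          isClosed_eq (continuous_apply γ) continuous_const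
    · ext y
      simp only [Set.mem_iUnion, Set.mem_inter_iff, Set.mem_pi, Set.mem_univ, true_imp_iff,
        Set.mem_iInter, Set.mem_ofPred_eq, S]
      constructor
      · rintro ⟨n, h1, h2⟩
        refine ⟨h1, ?_⟩
        by_contra hi
        obtain ⟨T, hT, hc⟩ := Set.Infinite.exists_subset_card_eq hi (n+1)
        have := h2 T fun γ hγ => hT hγ
        omega
      · rintro ⟨h1, h2⟩
        refine ⟨h2.toFinset.card, h1, fun T hT => Finset.card_le_card fun γ hγ => ?_⟩
        simpa using hT γ hγ
  have : SigmaCompactSpace S := isSigmaCompact_iff_sigmaCompactSpace.1 hS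
  let φ : {f : K → ℝ // Continuous f} → S := fun f =>
    ⟨fun γ => min (max (f.1 (p γ) - f.1 z - 1) 0) 1,
      fun γ => ⟨le_min (le_max_right _ _) zero_le_one, min_le_right _ _⟩, by
        have h1 := (f.2.tendsto z).comp hp
        have h2 := h1.eventually (gt_mem_nhds (show f.1 z < f.1 z + 1 by linarith))
        refine (Filter.eventually_cofinite.1 h2).subset fun γ hγ hlt => hγ ?_
        have : f.1 (p γ) - f.1 z - 1 ≤ 0 := by
          have : f.1 (p γ) < f.1 z + 1 := hlt
          linarith
        simp [max_eq_right this]⟩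
  have hφ : Continuous φ := by
    refine Continuous.subtype_mk (continuous_pi fun γ => ?_) _
    have h1 : ∀ x : K, Continuous fun f : {f : K → ℝ // Continuous f} => f.1 x := fun x =>
      (continuous_apply x).comp continuous_subtype_val
    exact ((((h1 _).sub (h1 _)).sub continuous_const).max continuous_const).min continuous_const
  have hs : Function.Surjective φ := by
    rintro ⟨y, h1, h2⟩
    refine ⟨⟨fun x => ∑ γ ∈ h2.toFinset, (y γ + 1) * x.1 γ, ?_⟩, ?_⟩
    · exact continuous_finsetSum _ fun γ _ =>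
        continuous_const.mul ((continuous_apply γ).comp continuous_subtype_val)
    · apply Subtype.ext
      funext δ
      have h3 : ∑ γ ∈ h2.toFinset, (y γ + 1) * e δ γ = if y δ = 0 then 0 else y δ + 1 := by
        split_ifs with h
        · refine Finset.sum_eq_zero fun γ hγ => ?_
          have : γ ≠ δ := by rintro rfl; simp [h] at hγ
          simp [e, this]
        · rw [Finset.sum_eq_single_of_mem δ (by simpa using h)]
          · simp [e]
          · intro γ _ hγ; simp [e, hγ]
      show min (max (∑ γ ∈ h2.toFinset, (y γ + 1) * e δ γ -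
        ∑ γ ∈ h2.toFinset, (y γ + 1) * (0 : Γ → ℝ) γ - 1) 0) 1 = y δ
      rw [h3]
      have := h1 δ
      split_ifs with h
      · simp [h]
      · simp [max_eq_left this.1, min_eq_left this.2]
  obtain ⟨N, hN, hU⟩ := H Γ K hK (by
    rintro x (rfl | ⟨γ, rfl⟩) ε hε
    · simp [not_lt.2 hε.le]
    · refine (Set.finite_singleton γ).subset fun δ hδ => ?_
      by_contra hne
      have hne' : δ ≠ γ := hne
      simp [e, Pi.single_apply, hne', not_lt.2 hε.le] at hδ) S φ hφ hs
  let q : Γ → S := fun γ => ⟨e γ, fun δ => by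
      simp only [e, Pi.single_apply]; split_ifs <;> simp,
    (Set.finite_singleton γ).subset fun δ hδ => by
      by_contra hne
      have hne' : δ ≠ γ := hne
      simp [e, Pi.single_apply, hne'] at hδ⟩
  have h3 : ∀ γ, ∃ A ∈ N, q γ ∈ A ∧ A ⊆ {y : S | y.1 γ ≠ 0} := fun γ =>
    hU _ (isOpen_ne_fun ((continuous_apply γ).comp continuous_subtype_val) continuous_const) _
      (by simp [q, e])
  choose A hA h4 h5 using h3
  have := hN.to_subtype
  have hi : Function.Injective fun γ => (⟨A γ, hA γ⟩ : N) := by
    intro γ δ h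
    have h6 : A γ = A δ := congrArg Subtype.val h
    have h7 := h5 δ (h6 ▸ h4 γ)
    by_contra hne
    simp [q, e, Pi.single_apply, Ne.symm hne] at h7
  exact not_countable (α := Γ) hi.countable

end Pool.Agent.S13188
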