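import Pool.Statements.S13210
import Pool.Agent.Lib.lead.Caval

set_option autoImplicit false
open MeasureTheory
open scoped Pointwise
open Pool Pool.MP_598757_gt

namespace Pool.Agent.S13210

open Pool.Agent.Lib.LeadCaval Set Metric Filter Topology

lemma vmono {α : Type*} [MeasureSpace α] [TopologicalSpace α]
    [IsFiniteMeasureOnCompacts (volume : Measure α)] {X Y : Set α} (hY : IsCompact Y) (h : X ⊆ Y) :
    (volume X).toReal ≤ (volume Y).toReal :=
  ENNReal.toReal_mono hY.measure_lt_top.ne (measure_mono h)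

lemma vunion {X Y : Set E3} (hX : IsCompact X) (hY : IsCompact Y) :
    (volume (X ∪ Y)).toReal + (volume (X ∩ Y)).toReal = (volume X).toReal + (volume Y).toReal := by
  rw [← ENNReal.toReal_add (hX.union hY).measure_lt_top.ne (hX.inter hY).measure_lt_top.ne,
    measure_union_add_inter _ hY.measurableSet,
    ENNReal.toReal_add hX.measure_lt_top.ne hY.measure_lt_top.ne]

lemma abs_inner_le (b : OrthonormalBasis (Fin 3) ℝ E3) (i : Fin 3) (x : E3) :
    |inner ℝ (b i) x| ≤ ‖x‖ := by
  have := abs_real_inner_le_norm (b i) x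
  rwa [b.orthonormal.1 i, one_mul] at this

section
variable (b : OrthonormalBasis (Fin 3) ℝ E3) (P : Set E3) (hc : IsCompact P) (hv : Convex ℝ P)
  (h0 : ∀ p ∈ P, inner ℝ (b 0) p = 0)
include hc hv h0

lemma slab (α β : ℝ) (h : α ≤ β) :
    (volume (P + seg (b 0) α β)).toReal = (β - α) * (volume (pr b '' P)).toReal := by
  rw [vol_add_seg b P hc hv α β h, vol_flat b P h0]
  simp

lemma upper (hn : ∀ p ∈ P, ‖p‖ ≤ 2) (t : ℝ) (ht : 0 < t) (ht1 : t ≤ 1) :
    (volume (P + closedBall (0 : E3) t)).toReal ≤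
      2 * t * (volume (pr b '' P)).toReal + 40 * t ^ 2 := by
  have c0 := hc.add (seg_compact (b 0) (-t) t)
  have v0 := hv.add (seg_convex (b 0) (-t) t)
  have c1 := c0.add (seg_compact (b 1) (-t) t)
  have v1 := v0.add (seg_convex (b 1) (-t) t)
  have c2 := c1.add (seg_compact (b 2) (-t) t)
  let b1 := b.reindex (Equiv.swap 0 1)
  let b2 := b.reindex (Equiv.swap 0 2)
  have b10 : b1 0 = b 1 := by simp [b1]
  have b11 : b1 1 = b 0 := by simp [b1]
  have b12 : b1 2 = b 2 := by simp [b1, Equiv.swap_apply_of_ne_of_ne]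
  have b20 : b2 0 = b 2 := by simp [b2]
  have b21 : b2 1 = b 1 := by simp [b2, Equiv.swap_apply_of_ne_of_ne]
  have b22 : b2 2 = b 0 := by simp [b2]
  have e0 := slab b P hc hv h0 (-t) t (by linarith)
  have e1 := vol_add_seg b1 _ c0 v0 (-t) t (by linarith)
  have e2 := vol_add_seg b2 _ c1 v1 (-t) t (by linarith)
  rw [b10] at e1
  rw [b20] at e2
  have a1 : (volume (pr b1 '' (P + seg (b 0) (-t) t))).toReal ≤ (t - -t) * (2 - -2) := by
    rw [← area_rect _ _ _ _ (by linarith) (by norm_num)]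
    refine vmono (isCompact_Icc.prod isCompact_Icc) ?_
    rintro _ ⟨_, ⟨p, hp, _, ⟨r, hr, rfl⟩, rfl⟩, rfl⟩
    have := abs_le.1 ((abs_inner_le b 2 p).trans (hn p hp))
    simp only [pr, b11, b12, inner_add_right, inner_smul_right, h0 p hp, b.inner_eq_ite]
    simpa using ⟨⟨hr.1, this.1⟩, hr.2, this.2⟩
  have a2 : (volume (pr b2 '' (P + seg (b 0) (-t) t + seg (b 1) (-t) t))).toReal ≤
      (3 - -3) * (t - -t) := by
    rw [← area_rect _ _ _ _ (by norm_num) (by linarith)]
    refine vmono (isCompact_Icc.prod isCompact_Icc) ?_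
    rintro _ ⟨_, ⟨_, ⟨p, hp, _, ⟨r, hr, rfl⟩, rfl⟩, _, ⟨s, hs, rfl⟩, rfl⟩, rfl⟩
    have := abs_le.1 ((abs_inner_le b 1 p).trans (hn p hp))
    simp only [pr, b21, b22, inner_add_right, inner_smul_right, h0 p hp, b.inner_eq_ite]
    simpa using ⟨⟨by linarith [hs.1], hr.1⟩, by linarith [hs.2], hr.2⟩
  have sub : P + closedBall (0 : E3) t ⊆
      P + seg (b 0) (-t) t + seg (b 1) (-t) t + seg (b 2) (-t) t := by
    rintro _ ⟨p, hp, z, hz, rfl⟩
    have hz' : ∀ i, inner ℝ (b i) z ∈ Icc (-t) t := fun i =>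
      abs_le.1 ((abs_inner_le b i z).trans (by simpa using hz))
    refine ⟨_, ⟨_, ⟨p, hp, _, ⟨_, hz' 0, rfl⟩, rfl⟩, _, ⟨_, hz' 1, rfl⟩, rfl⟩, _, ⟨_, hz' 2, rfl⟩, ?_⟩
    have := b.sum_repr' z
    rw [Fin.sum_univ_three] at this
    simp only [add_assoc] at this ⊢
    rw [this]
  have := vmono c2 sub
  nlinarith

lemma lower (δ : ℝ) (hδ : 0 ≤ δ) (hs : ∀ s ∈ Icc (-δ) δ, s • b 2 ∈ P) (t : ℝ) (ht : 0 < t) :
    2 * t * (volume (pr b '' P)).toReal + 2 * δ * t ^ 2 ≤
      (volume (P + closedBall (0 : E3) t)).toReal := by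
  have cX := hc.add (seg_compact (b 0) (-t) t)
  have cZ := hc.add (seg_compact (b 0) (-(t / 2)) (t / 2))
  have vZ := hv.add (seg_convex (b 0) (-(t / 2)) (t / 2))
  have cY := cZ.add (seg_compact (b 1) (-(t / 2)) (t / 2))
  let b1 := b.reindex (Equiv.swap 0 1)
  have b10 : b1 0 = b 1 := by simp [b1]
  have b11 : b1 1 = b 0 := by simp [b1]
  have b12 : b1 2 = b 2 := by simp [b1, Equiv.swap_apply_of_ne_of_ne]
  have e0 := slab b P hc hv h0 (-t) t (by linarith)
  have e1 := vol_add_seg b1 _ cZ vZ (-(t / 2)) (t / 2) (by linarith)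
  rw [b10] at e1
  have a1 : (t / 2 - -(t / 2)) * (δ - -δ) ≤
      (volume (pr b1 '' (P + seg (b 0) (-(t / 2)) (t / 2)))).toReal := by
    rw [← area_rect _ _ _ _ (by linarith) (by linarith)]
    refine vmono (cZ.image (pr_cont b1)) ?_
    rintro ⟨r, s⟩ ⟨hr, hs'⟩
    refine ⟨_, ⟨_, hs s hs', _, ⟨r, hr, rfl⟩, rfl⟩, ?_⟩
    simp [pr, b11, b12, inner_add_right, inner_smul_right, b.inner_eq_ite]
  have u := vunion cX cY
  have s1 : (P + seg (b 0) (-t) t) ∪ (P + seg (b 0) (-(t / 2)) (t / 2) + seg (b 1) (-(t / 2)) (t / 2))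
      ⊆ P + closedBall (0 : E3) t := by
    rintro _ (⟨p, hp, _, ⟨r, hr, rfl⟩, rfl⟩ | ⟨_, ⟨p, hp, _, ⟨r, hr, rfl⟩, rfl⟩, _, ⟨s, hs, rfl⟩, rfl⟩)
    · refine ⟨p, hp, _, ?_, rfl⟩
      simp only [mem_closedBall, dist_zero_right, norm_smul, b.orthonormal.1 0, mul_one]
      exact abs_le.2 hr
    · refine ⟨p, hp, r • b 0 + s • b 1, ?_, (add_assoc _ _ _).symm⟩
      simp only [mem_closedBall, dist_zero_right]
      refine (norm_add_le _ _).trans ?_
      simp only [norm_smul, b.orthonormal.1 0, b.orthonormal.1 1, mul_one, Real.norm_eq_abs]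
      linarith [abs_le.2 hr, abs_le.2 hs]
  have s2 : (P + seg (b 0) (-t) t) ∩ (P + seg (b 0) (-(t / 2)) (t / 2) + seg (b 1) (-(t / 2)) (t / 2))
      ⊆ P + seg (b 0) (-(t / 2)) (t / 2) := by
    rintro _ ⟨⟨p, hp, _, ⟨r, hr, rfl⟩, rfl⟩, ⟨_, ⟨q, hq, _, ⟨r', hr', rfl⟩, rfl⟩, _, ⟨s, hs, rfl⟩, e⟩⟩
    have e' := congrArg (inner ℝ (b 0)) e
    simp only [inner_add_right, inner_smul_right, h0 p hp, h0 q hq, b.inner_eq_ite] at e'
    have : r' = r := by simpa using e'
    exact ⟨p, hp, _, ⟨r, this ▸ hr', rfl⟩, rfl⟩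
  have w1 := vmono (hc.add (isCompact_closedBall (0 : E3) t)) s1
  have w2 := vmono cZ s2
  nlinarith

end

lemma proj_bound (K : Set E3) (hc : IsCompact K) (hv : Convex ℝ K) (hn : ∀ x ∈ K, ‖x‖ ≤ 2)
    (δ : ℝ) (hδ : 0 < δ) (hb : closedBall (0 : E3) δ ⊆ K) (u : E3) (hu : u ∈ sphere (0 : E3) 1) (L : ℝ)
    (hL : Tendsto (fun t : ℝ =>
        ((volume ((fun x : E3 => x - (inner ℝ u x) • u) '' K + closedBall (0 : E3) t)).toReal
          - 2 * t * ((volume (K + segment ℝ (0 : E3) u)).toReal - (volume K).toReal)) / (Real.pi * t ^ 2))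
        (nhdsWithin 0 (Set.Ioi 0)) (nhds L)) :
    Real.pi * (volume K).toReal / 784 ≤
      Real.pi * ((volume (K + segment ℝ (0 : E3) u)).toReal - (volume K).toReal) / L ^ 2 := by
  have hu1 : ‖u‖ = 1 := by simpa using hu
  obtain ⟨b, hb0⟩ := Orthonormal.exists_orthonormalBasis_extension_of_card_eq (𝕜 := ℝ) (E := E3)
    (ι := Fin 3) (by simp) (v := fun _ => u) (s := {0})
    ⟨fun _ => hu1, fun i j hij => absurd (Subsingleton.elim i j) hij⟩
  have hb1 : b 0 = u := hb0 0 rfl
  subst hb1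
  let f : E3 →L[ℝ] E3 := ContinuousLinearMap.id ℝ E3 - (innerSL ℝ (b 0)).smulRight (b 0)
  have hf : (fun x : E3 => x - (inner ℝ (b 0) x) • b 0) = f := rfl
  have hf' : ∀ x, f x = x - (inner ℝ (b 0) x) • b 0 := fun _ => rfl
  rw [hf] at hL
  have cP : IsCompact (f '' K) := hc.image f.continuous
  have vP : Convex ℝ (f '' K) := hv.linear_image (f : E3 →ₗ[ℝ] E3)
  have h0 : ∀ p ∈ f '' K, inner ℝ (b 0) p = 0 := by
    rintro _ ⟨x, -, rfl⟩
    simp [hf', inner_sub_right, inner_smul_right, b.inner_eq_ite]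
  have hn' : ∀ p ∈ f '' K, ‖p‖ ≤ 2 := by
    rintro _ ⟨x, hx, rfl⟩
    have e := norm_sub_sq_real x ((inner ℝ (b 0) x) • b 0)
    rw [← hf', inner_smul_right, norm_smul, hu1, mul_one, Real.norm_eq_abs, sq_abs,
      real_inner_comm (b 0) x] at e
    have := hn x hx
    have h2 : ‖f x‖ ^ 2 ≤ 2 ^ 2 := by nlinarith [norm_nonneg x, sq_nonneg (inner ℝ (b 0) x)]
    exact le_of_sq_le_sq h2 (by norm_num)
  have hs : ∀ s ∈ Icc (-δ) δ, s • b 2 ∈ f '' K := by
    intro s hs
    refine ⟨s • b 2, hb ?_, ?_⟩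
    · simp only [mem_closedBall, dist_zero_right, norm_smul, b.orthonormal.1 2, mul_one]
      exact abs_le.2 hs
    · simp [hf', inner_smul_right, b.inner_eq_ite]
  have e1 : pr b '' (f '' K) = pr b '' K := by
    rw [image_image]
    refine image_congr fun x _ => ?_
    simp [pr, hf', inner_sub_right, inner_smul_right, b.inner_eq_ite]
  have e2 : segment ℝ (0 : E3) (b 0) = seg (b 0) 0 1 := by
    rw [segment_eq_image]
    simp [seg]
  have e3 : (volume (K + segment ℝ (0 : E3) (b 0))).toReal - (volume K).toReal =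
      (volume (pr b '' (f '' K))).toReal := by
    rw [e2, vol_add_seg b K hc hv 0 1 (by norm_num), e1]
    ring
  rw [e3] at hL ⊢
  have e4 : (volume K).toReal ≤ (2 - -2) * (volume (pr b '' (f '' K))).toReal := by
    rw [← slab b _ cP vP h0 (-2) 2 (by norm_num)]
    refine vmono (cP.add (seg_compact _ _ _)) fun x hx => ?_
    refine ⟨f x, ⟨x, hx, rfl⟩, _, ⟨_, abs_le.1 ((abs_inner_le b 0 x).trans (hn x hx)), rfl⟩, ?_⟩
    simp [hf']
  have hpi := Real.pi_gt_three
  have l1 : L ≤ 14 := by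
    refine le_of_tendsto hL ?_
    filter_upwards [Ioc_mem_nhdsGT (show (0 : ℝ) < 1 by norm_num)] with t ht
    have := upper b _ cP vP h0 hn' t ht.1 ht.2
    have h1 := ht.1
    rw [div_le_iff₀ (by positivity)]
    nlinarith [mul_pos h1 h1]
  have l2 : 2 * δ / Real.pi ≤ L := by
    refine ge_of_tendsto hL ?_
    filter_upwards [self_mem_nhdsWithin] with t ht
    have h1 : 0 < t := ht
    have := lower b _ cP vP h0 δ hδ.le hs t h1
    rw [div_le_div_iff₀ (by positivity) (by positivity)]
    nlinarith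
  have l3 : 0 < L := lt_of_lt_of_le (by positivity) l2
  rw [div_le_div_iff₀ (by norm_num) (by positivity)]
  have v0 : 0 ≤ (volume K).toReal := ENNReal.toReal_nonneg
  have l4 : L ^ 2 ≤ 196 := by nlinarith
  have l5 : (volume K).toReal * L ^ 2 ≤ (volume (pr b '' (f '' K))).toReal * 784 := by nlinarith
  nlinarith

def box (a : Fin 3 → ℝ) : Set E3 := {x | ∀ i, |x i| ≤ a i}

lemma box_eq (a : Fin 3 → ℝ) : box a = WithLp.ofLp ⁻¹' Icc (-a) a := by
  ext x
  simp only [box, mem_setOf_eq, mem_preimage, mem_Icc, Pi.le_def, abs_le, forall_and, Pi.neg_apply]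

lemma box_vol (a : Fin 3 → ℝ) (ha : ∀ i, 0 ≤ a i) :
    (volume (box a)).toReal = 8 * a 0 * a 1 * a 2 := by
  rw [box_eq, (PiLp.volume_preserving_ofLp (Fin 3)).measure_preimage
    measurableSet_Icc.nullMeasurableSet, Real.volume_Icc_pi_toReal (fun i => by
      have := ha i
      simp only [Pi.neg_apply]
      linarith), Fin.prod_univ_three]
  simp only [Pi.neg_apply]
  ring

lemma box_compact (a : Fin 3 → ℝ) : IsCompact (box a) := by
  rw [box_eq]
  exact (EuclideanSpace.equiv (Fin 3) ℝ).toHomeomorph.isCompact_preimage.2 isCompact_Icc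

lemma box_convex (a : Fin 3 → ℝ) : Convex ℝ (box a) := by
  rw [box_eq]
  exact (convex_Icc (-a) a).linear_preimage (WithLp.linearEquiv 2 ℝ (Fin 3 → ℝ)).toLinearMap

lemma box_up (a : Fin 3 → ℝ) (t : ℝ) : box a + closedBall (0 : E3) t ⊆ box (fun i => a i + t) := by
  rintro _ ⟨x, hx, z, hz, rfl⟩ i
  have h1 : |z i| ≤ t := (PiLp.norm_apply_le z i).trans (by simpa using hz)
  exact (abs_add_le _ _).trans (add_le_add (hx i) h1)

lemma box_low (a : Fin 3 → ℝ) (ha : ∀ i, 0 < a i) (t : ℝ) (ht : 0 < t) (i : Fin 3) :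
    box (Function.update a i (a i + t)) ⊆ box a + closedBall (0 : E3) t := by
  intro x hx
  have hi := hx i
  rw [Function.update_self] at hi
  have hp : 0 < a i + t := by linarith [ha i]
  refine ⟨x - EuclideanSpace.single i (x i * (t / (a i + t))), fun j => ?_,
    EuclideanSpace.single i (x i * (t / (a i + t))), ?_, by simp⟩
  · by_cases h : j = i
    · subst h
      have e : x j - x j * (t / (a j + t)) = x j * (a j / (a j + t)) := by field_simp; ring
      simp only [PiLp.sub_apply, EuclideanSpace.single_apply, if_true]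
      rw [e, abs_mul, abs_of_pos (div_pos (ha j) hp), ← mul_div_assoc, div_le_iff₀ hp]
      nlinarith [ha j]
    · have := hx j
      rw [Function.update_of_ne h] at this
      simpa [EuclideanSpace.single_apply, h] using this
  · simp only [mem_closedBall, dist_zero_right, EuclideanSpace.norm_single, Real.norm_eq_abs]
    rw [abs_mul, abs_of_pos (div_pos ht hp), ← mul_div_assoc, div_le_iff₀ hp]
    nlinarith

noncomputable def aa : Fin 3 → ℝ := ![1, 1, 1 / 1000]

lemma aa_pos (i : Fin 3) : 0 < aa i := by fin_cases i <;> simp [aa]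

lemma surf : Tendsto (fun t : ℝ =>
    ((volume (box aa + closedBall (0 : E3) t)).toReal - (volume (box aa)).toReal) / (2 * t))
    (nhdsWithin 0 (Set.Ioi 0)) (nhds (4 + 8 / 1000)) := by
  have v0 := box_vol aa (fun i => (aa_pos i).le)
  simp only [aa, Matrix.cons_val_zero, Matrix.cons_val_one, Matrix.cons_val] at v0
  have hup : Tendsto (fun t : ℝ => 4 + 8 / 1000 + (8 + 4 / 1000) * t + 4 * t ^ 2)
      (nhdsWithin 0 (Set.Ioi 0)) (nhds (4 + 8 / 1000)) := by
    have : Continuous (fun t : ℝ => 4 + 8 / 1000 + (8 + 4 / 1000) * t + 4 * t ^ 2) := by fun_prop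
    have h := (this.tendsto 0).mono_left (nhdsWithin_le_nhds (s := Set.Ioi 0))
    simpa using h
  refine tendsto_of_tendsto_of_tendsto_of_le_of_le' tendsto_const_nhds hup ?_ ?_
  · filter_upwards [self_mem_nhdsWithin] with t ht
    have h1 : 0 < t := ht
    have pos : ∀ i j, 0 ≤ Function.update aa i (aa i + t) j := by
      intro i j
      by_cases h : j = i
      · subst h; rw [Function.update_self]; linarith [aa_pos j]
      · rw [Function.update_of_ne h]; exact (aa_pos j).le
    have w0 := box_vol _ (pos 0)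
    have w1 := box_vol _ (pos 1)
    have w2 := box_vol _ (pos 2)
    have u1 := vunion (box_compact (Function.update aa 0 (aa 0 + t)))
      (box_compact (Function.update aa 1 (aa 1 + t)))
    have u2 := vunion ((box_compact (Function.update aa 0 (aa 0 + t))).union
      (box_compact (Function.update aa 1 (aa 1 + t)))) (box_compact (Function.update aa 2 (aa 2 + t)))
    have i1 : ∀ i j, i ≠ j →
        box (Function.update aa i (aa i + t)) ∩ box (Function.update aa j (aa j + t)) ⊆ box aa := by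
      rintro i j hij x ⟨h1, h2⟩ k
      by_cases h : k = i
      · have := h2 k
        rwa [Function.update_of_ne (h ▸ hij)] at this
      · have := h1 k
        rwa [Function.update_of_ne h] at this
    have s1 := vmono (box_compact aa) (i1 0 1 (by decide))
    have s2 := vmono (box_compact aa) (show (box (Function.update aa 0 (aa 0 + t)) ∪
        box (Function.update aa 1 (aa 1 + t))) ∩ box (Function.update aa 2 (aa 2 + t)) ⊆ box aa by
      rw [union_inter_distrib_right]
      exact union_subset (i1 0 2 (by decide)) (i1 1 2 (by decide)))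
    have s3 := vmono ((box_compact aa).add (isCompact_closedBall (0 : E3) t))
      (union_subset (union_subset (box_low aa aa_pos t h1 0) (box_low aa aa_pos t h1 1))
        (box_low aa aa_pos t h1 2))
    rw [le_div_iff₀ (by positivity)]
    have z0 : aa 0 = 1 := rfl
    have z1 : aa 1 = 1 := rfl
    have z2 : aa 2 = 1 / 1000 := rfl
    have v1 := box_vol aa (fun i => (aa_pos i).le)
    rw [Function.update_self, Function.update_of_ne (by decide), Function.update_of_ne (by decide)]
      at w0 w1 w2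
    generalize (volume (box (Function.update aa 0 (aa 0 + t)))).toReal = p0 at *
    generalize (volume (box (Function.update aa 1 (aa 1 + t)))).toReal = p1 at *
    generalize (volume (box (Function.update aa 2 (aa 2 + t)))).toReal = p2 at *
    rw [z0, z1, z2] at w0 w1 w2 v1
    linarith
  · filter_upwards [self_mem_nhdsWithin] with t ht
    have h1 : 0 < t := ht
    have s := vmono (box_compact _) (box_up aa t)
    rw [box_vol _ (fun i => by linarith [aa_pos i])] at s
    rw [div_le_iff₀ (by positivity)]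
    simp only [aa, Matrix.cons_val_zero, Matrix.cons_val_one, Matrix.cons_val] at s ⊢
    nlinarith

/-- The negation of the preceding statement: For every convex body K in 3-space and real c: if every orthogonal plane projection has isoperimetric ratio π·area/V₁² at least c, then 9π·vol(K)²/(2·V₂(K)³) is at least c (V₁, V₂ given via Steiner-formula limits).
Counterexample: the thin plate [-1,1]² × [-1/1000,1/1000]. -/
theorem result :
    ¬ (∀ (K : Set (EuclideanSpace ℝ (Fin 3))) (c : ℝ),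
    IsCompact K → Convex ℝ K → (interior K).Nonempty →
    (∀ u ∈ Metric.sphere (0 : EuclideanSpace ℝ (Fin 3)) 1, ∀ L : ℝ,
      Filter.Tendsto (fun t : ℝ =>
        ((volume ((fun x : EuclideanSpace ℝ (Fin 3) => x - (inner ℝ u x) • u) '' K
              + Metric.closedBall (0 : EuclideanSpace ℝ (Fin 3)) t)).toReal
          - 2 * t * ((volume (K + segment ℝ (0 : EuclideanSpace ℝ (Fin 3)) u)).toReal
              - (volume K).toReal)) / (Real.pi * t ^ 2))
        (nhdsWithin 0 (Set.Ioi 0)) (nhds L) →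
      c ≤ Real.pi * ((volume (K + segment ℝ (0 : EuclideanSpace ℝ (Fin 3)) u)).toReal
              - (volume K).toReal) / L ^ 2) →
    ∀ S : ℝ,
      Filter.Tendsto (fun t : ℝ =>
        ((volume (K + Metric.closedBall (0 : EuclideanSpace ℝ (Fin 3)) t)).toReal
          - (volume K).toReal) / (2 * t))
        (nhdsWithin 0 (Set.Ioi 0)) (nhds S) →
      c ≤ 9 * Real.pi * (volume K).toReal ^ 2 / (2 * S ^ 3)) := by
  intro h
  have hb : closedBall (0 : E3) (1 / 1000) ⊆ box aa := by
    intro z hz i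
    have h1 : |z i| ≤ 1 / 1000 := (PiLp.norm_apply_le z i).trans (by simpa using hz)
    refine h1.trans ?_
    fin_cases i <;> simp [aa] <;> norm_num
  have hn : ∀ x ∈ box aa, ‖x‖ ≤ 2 := by
    intro x hx
    have h0 := hx 0
    have h1 := hx 1
    have h2 := hx 2
    simp only [aa, Matrix.cons_val_zero, Matrix.cons_val_one, Matrix.cons_val] at h0 h1 h2
    rw [EuclideanSpace.norm_eq, Fin.sum_univ_three]
    refine Real.sqrt_le_iff.2 ⟨by norm_num, ?_⟩
    simp only [Real.norm_eq_abs]
    nlinarith [abs_nonneg (x 0), abs_nonneg (x 1), abs_nonneg (x 2)]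
  have := h (box aa) (Real.pi * (volume (box aa)).toReal / 784) (box_compact _) (box_convex _)
    ⟨0, mem_interior_iff_mem_nhds.2 (mem_of_superset (closedBall_mem_nhds 0 (by norm_num)) hb)⟩
    (fun u hu L hL => proj_bound _ (box_compact _) (box_convex _) hn _ (by norm_num) hb u hu L hL)
    _ surf
  rw [box_vol aa (fun i => (aa_pos i).le)] at this
  simp only [aa, Matrix.cons_val_zero, Matrix.cons_val_one, Matrix.cons_val] at this
  have hpi := Real.pi_pos
  rw [div_le_div_iff₀ (by norm_num) (by norm_num)] at this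
  nlinarith

end Pool.Agent.S13210
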