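import Pool.Statements.S13232

set_option autoImplicit false
open Pool Pool.MP_5abde9_gt

namespace Pool.Agent.S13232

/-- Subfamilies with the finite intersection property. -/
abbrev Cen {X : Type} (S : Set (Set X)) : Type :=
  {ξ : S → Bool // ∀ F : Finset S, (∀ P ∈ F, ξ P = true) → (⋂ P ∈ F, P.1).Nonempty}

lemma cen_closed {X : Type} (S : Set (Set X)) :
    IsClosed {ξ : S → Bool | ∀ F : Finset S, (∀ P ∈ F, ξ P = true) → (⋂ P ∈ F, P.1).Nonempty} := by
  rw [Set.ofPred_forall]
  refine isClosed_iInter fun F => ?_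
  refine isClosed_imp ?_ isClosed_const
  have : {ξ : S → Bool | ∀ P ∈ F, ξ P = true} = ⋂ P ∈ F, (fun ξ : S → Bool => ξ P) ⁻¹' {true} := by
    ext ξ; simp
  rw [this]
  exact isOpen_biInter_finset fun P _ => (isOpen_discrete _).preimage (continuous_apply P)

lemma cen_compact {X : Type} (S : Set (Set X)) : CompactSpace (Cen S) :=
  isCompact_iff_compactSpace.mp (cen_closed S).isCompact

/-- an open set around a point contains a basic box -/
lemma box {X : Type} (S : Set (Set X)) (U : Set (Cen S)) (hU : IsOpen U) (ξ : Cen S) (h : ξ ∈ U) :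
    ∃ D : Finset S, ∀ η : Cen S, (∀ P ∈ D, η.1 P = ξ.1 P) → η ∈ U := by
  obtain ⟨V, hV, rfl⟩ := isOpen_induced_iff.mp hU
  obtain ⟨D, u, hu, hsub⟩ := isOpen_pi_iff.mp hV ξ.1 h
  refine ⟨D, fun η hη => hsub fun P hP => ?_⟩
  rw [hη P hP]; exact (hu P hP).2

lemma dep {X : Type} (S : Set (Set X)) (h : Cen S → Bool) (hc : Continuous h) :
    ∃ D : Finset S, ∀ ξ η : Cen S, (∀ P ∈ D, η.1 P = ξ.1 P) → h η = h ξ := by
  classical
  have := cen_compact S
  have h1 : ∀ ξ : Cen S, ∃ D : Finset S, ∀ η : Cen S, (∀ P ∈ D, η.1 P = ξ.1 P) → h η = h ξ :=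
    fun ξ => box S (h ⁻¹' {h ξ}) ((isOpen_discrete _).preimage hc) ξ rfl
  choose D hD using h1
  have hop : ∀ ξ : Cen S, IsOpen {η : Cen S | ∀ P ∈ D ξ, η.1 P = ξ.1 P} := by
    intro ξ
    have : {η : Cen S | ∀ P ∈ D ξ, η.1 P = ξ.1 P}
        = ⋂ P ∈ D ξ, (fun η : Cen S => η.1 P) ⁻¹' {ξ.1 P} := by
      ext η; simp
    rw [this]
    exact isOpen_biInter_finset fun P _ =>
      (isOpen_discrete _).preimage ((continuous_apply P).comp continuous_subtype_val)
  obtain ⟨t, ht⟩ := isCompact_univ.elim_finite_subcover _ hop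
    (fun ξ _ => Set.mem_iUnion.mpr ⟨ξ, fun _ _ => rfl⟩)
  refine ⟨t.biUnion D, fun ξ η hη => ?_⟩
  obtain ⟨ζ, hζ, hx⟩ := Set.mem_iUnion₂.mp (ht (Set.mem_univ ξ))
  have e1 : h ξ = h ζ := hD ζ ξ hx
  have e2 : h η = h ζ := hD ζ η fun P hP => by
    rw [hη P (Finset.mem_biUnion.mpr ⟨ζ, hζ, hP⟩)]; exact hx P hP
  rw [e1, e2]

/-- the key lemma: a continuous map into the Cantor set has only countably many fibres with
nonempty interior -/
lemma key {X : Type} (S : Set (Set X)) (h : Cen S → ℕ → Bool) (hc : Continuous h)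
    (U : (ℕ → Bool) → Set (Cen S)) (hU : ∀ z, IsOpen (U z)) (hne : ∀ z, (U z).Nonempty)
    (hz : ∀ z, ∀ ξ ∈ U z, h ξ = z) : False := by
  classical
  have h1 : ∀ n, ∃ D : Finset S, ∀ ξ η : Cen S, (∀ P ∈ D, η.1 P = ξ.1 P) → h η n = h ξ n :=
    fun n => dep S (fun ξ => h ξ n) ((continuous_apply n).comp hc)
  choose D hD using h1
  let C : Set S := ⋃ n, (D n : Set S)
  have hC : C.Countable := Set.countable_iUnion fun n => (D n).countable_toSet
  have h2 : ∀ z, ∃ E : Finset S, ∃ η ∈ U z, ∀ P, η.1 P = true ↔ P ∈ E := by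
    intro z
    obtain ⟨ξ, hξ⟩ := hne z
    obtain ⟨E, hE⟩ := box S (U z) (hU z) ξ hξ
    refine ⟨E.filter fun P => ξ.1 P = true,
      ⟨fun P => decide (P ∈ E ∧ ξ.1 P = true), fun F hF => ξ.2 F fun P hP => ?_⟩, hE _ ?_, ?_⟩
    · exact (of_decide_eq_true (hF P hP)).2
    · intro P hP
      by_cases hh : ξ.1 P = true
      · simp [hP, hh]
      · simp [hh]
    · intro P; simp
  choose E η hη hE using h2
  have hcount : {t : Set S | t.Finite ∧ t ⊆ C}.Countable := Set.countable_ofPred_finite_subset hC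
  have := hcount.to_subtype
  let φ : (ℕ → Bool) → {t : Set S | t.Finite ∧ t ⊆ C} := fun z =>
    ⟨(E z : Set S) ∩ C, (E z).finite_toSet.inter_of_left _, Set.inter_subset_right⟩
  have hφ : Function.Injective φ := by
    intro z w hzw
    have e : (E z : Set S) ∩ C = (E w : Set S) ∩ C := congrArg Subtype.val hzw
    rw [← hz z _ (hη z), ← hz w _ (hη w)]
    funext n
    refine hD n _ _ fun P hP => ?_
    have hPC : P ∈ C := Set.mem_iUnion.mpr ⟨n, hP⟩
    have e2 : P ∈ E z ↔ P ∈ E w := by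
      constructor
      · intro hh
        have : P ∈ (E z : Set S) ∩ C := ⟨hh, hPC⟩
        rw [e] at this; exact this.1
      · intro hh
        have : P ∈ (E w : Set S) ∩ C := ⟨hh, hPC⟩
        rw [← e] at this; exact this.1
    rw [Bool.eq_iff_iff, hE, hE, e2]
  have hc2 : Countable (ℕ → Bool) := hφ.countable
  obtain ⟨f, hf⟩ := exists_surjective_nat (ℕ → Bool)
  obtain ⟨m, hm⟩ := hf fun n => !(f n n)
  have := congrFun hm m
  simp at this

/-- the family of all subsets of the Cantor set -/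
abbrev S0 : Set (Set (ℕ → Bool)) := Set.univ

/-- the half-space `{w | w n = b}` -/
def hs (n : ℕ) (b : Bool) : S0 := ⟨{w | w n = b}, trivial⟩

/-- the closed G-delta set -/
def CC : Set (Cen S0) := ⋂ n : ℕ, {ξ | ξ.1 (hs n true) = true ∨ ξ.1 (hs n false) = true}

lemma clop (n : ℕ) :
    IsClopen {ξ : Cen S0 | ξ.1 (hs n true) = true ∨ ξ.1 (hs n false) = true} := by
  have a : ∀ P : S0, IsClopen ((fun ξ : Cen S0 => ξ.1 P) ⁻¹' {true}) := fun P =>
    (isClopen_discrete _).preimage ((continuous_apply P).comp continuous_subtype_val)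
  exact (a _).union (a _)

open Classical in
/-- the principal ultrafilter -/
noncomputable def pr (z : ℕ → Bool) : Cen S0 :=
  ⟨fun P => decide (z ∈ P.1), fun _ hF =>
    ⟨z, Set.mem_iInter₂.mpr fun P hP => of_decide_eq_true (hF P hP)⟩⟩

lemma pr_mem (z : ℕ → Bool) : pr z ∈ CC := by
  refine Set.mem_iInter.mpr fun n => ?_
  cases hb : z n
  · right; simp [pr, hs, hb]
  · left; simp [pr, hs, hb]

lemma two (ξ : Cen S0) (z : ℕ → Bool) (n : ℕ) (b : Bool)
    (h1 : ξ.1 ⟨{z}, trivial⟩ = true) (h2 : ξ.1 (hs n b) = true) : z n = b := by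
  classical
  obtain ⟨w, hw⟩ := ξ.2 {⟨{z}, trivial⟩, hs n b} (by
    intro P hP
    rcases Finset.mem_insert.mp hP with rfl | hP
    · exact h1
    · rw [Finset.mem_singleton.mp hP]; exact h2)
  have hw' := Set.mem_iInter₂.mp hw
  have a : w = z := hw' ⟨{z}, trivial⟩ (Finset.mem_insert_self _ _)
  have b : w n = b := hw' (hs n b) (Finset.mem_insert_of_mem (Finset.mem_singleton_self _))
  rw [← a]; exact b

/-- The negation of the preceding statement: If a compact Hausdorff space is a continuous image of the space of subfamilies with the finite intersection property of some infinite family of sets, then every nonempty closed G-delta subset of it is also such a continuous image. -/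
theorem result :
    ¬ (∀ (K : Type) [TopologicalSpace K] [CompactSpace K] [T2Space K],
      (∃ (X : Type) (S : Set (Set X)), S.Infinite ∧
        ∃ f : {ξ : S → Bool //
            ∀ F : Finset S, (∀ P ∈ F, ξ P = true) → (⋂ P ∈ F, P.1).Nonempty} → K,
          Continuous f ∧ Function.Surjective f) →
      ∀ C : Set K, IsClosed C → IsGδ C → C.Nonempty →
        ∃ (X : Type) (S : Set (Set X)), S.Infinite ∧
          ∃ g : {ξ : S → Bool //
              ∀ F : Finset S, (∀ P ∈ F, ξ P = true) → (⋂ P ∈ F, P.1).Nonempty} → C,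
            Continuous g ∧ Function.Surjective g) := by
  intro H
  have := cen_compact S0
  obtain ⟨X, S, -, g, hg, hs'⟩ := H (Cen S0)
    ⟨ℕ → Bool, S0, Set.infinite_univ, id, continuous_id, Function.surjective_id⟩ CC
    (isClosed_iInter fun n => (clop n).1)
    (IsGδ.iInter_of_isOpen fun n => (clop n).2) ⟨_, pr_mem fun _ => true⟩
  have hP : ∀ P : S0, Continuous fun ξ : Cen S => (g ξ).1.1 P := fun P =>
    (continuous_apply P).comp (continuous_subtype_val.comp (continuous_subtype_val.comp hg))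
  refine key S (fun ξ n => (g ξ).1.1 (hs n true)) (continuous_pi fun n => hP _)
    (fun z => (fun ξ : Cen S => (g ξ).1.1 ⟨{z}, trivial⟩) ⁻¹' {true})
    (fun z => (isOpen_discrete _).preimage (hP _)) (fun z => ?_) (fun z ξ hξ => ?_)
  · obtain ⟨ξ, hξ⟩ := hs' ⟨pr z, pr_mem z⟩
    refine ⟨ξ, ?_⟩
    show (g ξ).1.1 ⟨{z}, trivial⟩ = true
    rw [hξ]; simp [pr]
  · have h1 : (g ξ).1.1 ⟨{z}, trivial⟩ = true := hξ
    funext n
    rcases Set.mem_iInter.mp (g ξ).2 n with h2 | h2
    · rw [two _ z n true h1 h2]; exact h2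
    · rw [two _ z n false h1 h2]
      cases h3 : (g ξ).1.1 (hs n true)
      · rfl
      · have a := two _ z n false h1 h2
        rw [two _ z n true h1 h3] at a
        exact absurd a (by simp)

end Pool.Agent.S13232
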