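import Pool.Statements.S13234
import Pool.Agent.Lib.helper5.SigPs

set_option autoImplicit false
open Pool Pool.MP_5b75f6_gt

namespace Pool.Agent.S13234

/-- The negation of the preceding statement: For Tychonoff spaces X and Y: if the spaces of continuous real functions on X and on Y, with pointwise convergence, are homeomorphic, and Y is a countable union of pseudocompact subspaces, then X is also a countable union of pseudocompact subspaces. -/
theorem result :
    ¬ (∀ (X Y : Type) [TopologicalSpace X] [T35Space X] [TopologicalSpace Y] [T35Space Y],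
      (∃ e : C(X, ℝ) ≃ C(Y, ℝ),
        @Continuous C(X, ℝ) (Y → ℝ)
          (TopologicalSpace.induced (fun g : C(X, ℝ) => (g : X → ℝ)) inferInstance)
          inferInstance (fun g => ((e g : C(Y, ℝ)) : Y → ℝ)) ∧
        @Continuous C(Y, ℝ) (X → ℝ)
          (TopologicalSpace.induced (fun g : C(Y, ℝ) => (g : Y → ℝ)) inferInstance)
          inferInstance (fun g => ((e.symm g : C(X, ℝ)) : X → ℝ))) →
      (∃ S : ℕ → Set Y, (⋃ n, S n) = Set.univ ∧
        ∀ n, ∀ f : C(S n, ℝ), ∃ M : ℝ, ∀ a, |f a| ≤ M) →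
      (∃ S : ℕ → Set X, (⋃ n, S n) = Set.univ ∧
        ∀ n, ∀ f : C(S n, ℝ), ∃ M : ℝ, ∀ a, |f a| ≤ M)) := by
  intro h
  obtain ⟨X, Y, _, _, _, _, ⟨T, t1, t2⟩, h1, h2⟩ := H5E.sigps
  exact h2 (h X Y ⟨T.toEquiv, H5E.cont_of_PC' t1, H5E.cont_of_PC' t2⟩ h1)

end Pool.Agent.S13234
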