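import Pool.Statements.S13316
import Pool.Agent.Lib.helper5.Perf

set_option autoImplicit false
open Pool Pool.MP_69fc66_gt

namespace Pool.Agent.S13316

/-- The negation of the preceding statement: For Tychonoff spaces X, Y: if the pointwise-convergence function spaces C_p(X), C_p(Y) are uniformly homeomorphic and every closed subset of X is a G-delta, then every closed subset of Y is a G-delta. -/
theorem result :
    ¬ (∀ (X Y : Type) [TopologicalSpace X] [TopologicalSpace Y] [T35Space X] [T35Space Y],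
      (∃ Φ : C(X, ℝ) ≃ C(Y, ℝ),
        (∀ B : Finset Y, ∀ ε : ℝ, 0 < ε → ∃ A : Finset X, ∃ δ : ℝ, 0 < δ ∧
          ∀ f g : C(X, ℝ), (∀ x ∈ A, |f x - g x| < δ) →
            ∀ y ∈ B, |Φ f y - Φ g y| < ε) ∧
        (∀ A : Finset X, ∀ ε : ℝ, 0 < ε → ∃ B : Finset Y, ∃ δ : ℝ, 0 < δ ∧
          ∀ f g : C(Y, ℝ), (∀ y ∈ B, |f y - g y| < δ) →
            ∀ x ∈ A, |Φ.symm f x - Φ.symm g x| < ε)) →
      (∀ s : Set X, IsClosed s → IsGδ s) →
      (∀ t : Set Y, IsClosed t → IsGδ t)) := by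
  intro h
  obtain ⟨X, Y, _, _, _, _, ⟨T, t1, t2⟩, h1, s, h2, h3⟩ := H5E.perf
  exact h3 (h X Y ⟨T.toEquiv, H5E.unif T t1, H5E.unif T.symm t2⟩ (fun s _ => h1 s) s h2)

end Pool.Agent.S13316
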