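import Pool.Statements.S13321

set_option autoImplicit false
open Topology
open Pool Pool.MP_6b9469_gt

namespace Pool.Agent.S13321

/-- Every topological space having a σ-disjoint base and a σ-locally countable base also has a single base that is both σ-disjoint and σ-locally countable. -/
theorem result :
    ∀ (X : Type) [TopologicalSpace X],
      (∃ B : Set (Set X), TopologicalSpace.IsTopologicalBasis B ∧
        ∃ F : ℕ → Set (Set X), B = ⋃ n, F n ∧ ∀ n, (F n).PairwiseDisjoint id) →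
      (∃ B : Set (Set X), TopologicalSpace.IsTopologicalBasis B ∧
        ∃ F : ℕ → Set (Set X), B = ⋃ n, F n ∧
          ∀ n, ∀ x : X, ∃ U ∈ 𝓝 x, {S ∈ F n | (S ∩ U).Nonempty}.Countable) →
      ∃ B : Set (Set X), TopologicalSpace.IsTopologicalBasis B ∧
        (∃ F : ℕ → Set (Set X), B = ⋃ n, F n ∧ ∀ n, (F n).PairwiseDisjoint id) ∧
        (∃ G : ℕ → Set (Set X), B = ⋃ n, G n ∧
          ∀ n, ∀ x : X, ∃ U ∈ 𝓝 x, {S ∈ G n | (S ∩ U).Nonempty}.Countable) := by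
  rintro X _ ⟨B, hB, F, rfl, hF⟩ ⟨C, hC, G, rfl, hG⟩
  let W : Set X → ℕ → Set X := fun b k => ⋃₀ {c ∈ G k | c ⊆ b}
  have wb : ∀ b k, W b k ⊆ b := fun b k => Set.sUnion_subset fun c hc => hc.2
  let E : ℕ → Set (Set X) := fun n => (fun b => W b n.unpair.2) '' F n.unpair.1
  refine ⟨⋃ n, E n, ?_, ⟨E, rfl, fun n => ?_⟩, E, rfl, fun n x => ?_⟩
  · refine TopologicalSpace.isTopologicalBasis_of_isOpen_of_nhds ?_ fun x U hx hU => ?_
    · simp only [Set.mem_iUnion]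
      rintro _ ⟨n, b, -, rfl⟩
      exact isOpen_sUnion fun c hc => hC.isOpen (Set.mem_iUnion.2 ⟨_, hc.1⟩)
    · obtain ⟨b, b1, b2, b3⟩ := hB.exists_subset_of_mem_open hx hU
      obtain ⟨c, c1, c2, c3⟩ := hC.exists_subset_of_mem_open b2 (hB.isOpen b1)
      obtain ⟨n, hn⟩ := Set.mem_iUnion.1 b1
      obtain ⟨k, hk⟩ := Set.mem_iUnion.1 c1
      exact ⟨W b k, Set.mem_iUnion.2 ⟨n.pair k, b, by simpa using hn, by simp⟩,
        ⟨c, ⟨hk, c3⟩, c2⟩, (wb b k).trans b3⟩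
  · rintro _ ⟨b, hb, rfl⟩ _ ⟨c, hc, rfl⟩ h
    exact (hF _ hb hc fun e => h (by rw [e])).mono (wb _ _) (wb _ _)
  · obtain ⟨U, hU, h⟩ := hG n.unpair.2 x
    refine ⟨U, hU, ?_⟩
    have : ∀ S ∈ {S ∈ E n | (S ∩ U).Nonempty}, ∃ c ∈ {S ∈ G n.unpair.2 | (S ∩ U).Nonempty},
        ∃ b ∈ F n.unpair.1, c ⊆ b ∧ S = W b n.unpair.2 := by
      rintro _ ⟨⟨b, hb, rfl⟩, y, ⟨c, hc, h1⟩, h2⟩
      exact ⟨c, ⟨hc.1, y, h1, h2⟩, b, hb, hc.2, rfl⟩
    choose! f f1 f2 using this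
    refine Set.countable_of_injective_of_countable_image (f := f) (fun S hS T hT e => ?_)
      (h.mono (by rintro _ ⟨S, hS, rfl⟩; exact f1 S hS))
    obtain ⟨b, b1, b2, b3⟩ := f2 S hS
    obtain ⟨c, c1, c2, c3⟩ := f2 T hT
    obtain ⟨y, hy, -⟩ := (f1 S hS).2
    have : b = c := by
      by_contra hn
      exact Set.disjoint_left.1 (hF _ b1 c1 hn) (b2 hy) (c2 (e ▸ hy))
    rw [b3, c3, this]

end Pool.Agent.S13321
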