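import Pool.Statements.S13358
import Pool.Agent.Lib.helper15.MagPlane

set_option autoImplicit false
open Classical
open Filter Topology Pointwise
open Pool Pool.MP_6e5b56_gt

namespace Pool.Agent.S13358

open Pool.Agent.Lib.helper15.MagFour
open scoped Real

lemma Fam_mono {S T : Set E} {C : ℝ} (h : Fam T C) (hS : S ⊆ T) : Fam S C :=
  fun ι _ x v hx => h ι x v fun i => hS (hx i)

lemma Fam_nonneg {S : Set E} {C : ℝ} (h : Fam S C) : 0 ≤ C := by
  simpa [Q] using h Empty (fun i => i.elim) (fun i => i.elim) (fun i => i.elim)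

lemma Fam_shift {S T : Set E} {C : ℝ} (h : Fam T C) (u : E) (hS : ∀ y ∈ S, y - u ∈ T) : Fam S C := by
  intro ι _ x v hx
  simpa [Q] using h ι (fun i => x i - u) v fun i => hS _ (hx i)

lemma box_bdd (a b c d : ℝ) : ∃ C, Fam (Box a b c d) C := by
  obtain ⟨L, h1, h2⟩ := (upper_ev.and (eventually_gt_atTop (|a| + |b| + |c| + |d|))).exists
  refine ⟨_, Fam_mono h1 fun y hy k => ?_⟩
  obtain ⟨⟨h3, h4⟩, h5, h6⟩ := hy
  have := abs_nonneg a; have := abs_nonneg b; have := abs_nonneg c; have := abs_nonneg d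
  fin_cases k
  · exact abs_lt.2 ⟨by simp; linarith [neg_abs_le a], by simp; linarith [le_abs_self b]⟩
  · exact abs_lt.2 ⟨by simp; linarith [neg_abs_le c], by simp; linarith [le_abs_self d]⟩

lemma box_smul {t : ℝ} (ht : 0 < t) (a b c d : ℝ) :
    t • Box a b c d = Box (t * a) (t * b) (t * c) (t * d) := by
  ext y
  rw [Set.mem_smul_set_iff_inv_smul_mem₀ ht.ne']
  simp only [Box, Set.mem_ofPred_eq, PiLp.smul_apply, smul_eq_mul, le_inv_mul_iff₀ ht,
    inv_mul_le_iff₀ ht]

lemma box_compact (a b c d : ℝ) : IsCompact (Box a b c d) := by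
  have : Box a b c d = (fun p : ℝ × ℝ => (!₂[p.1, p.2] : E)) '' (Set.Icc a b ×ˢ Set.Icc c d) := by
    ext y
    constructor
    · intro hy
      exact ⟨(y 0, y 1), hy, by ext i; fin_cases i <;> simp⟩
    · rintro ⟨p, hp, rfl⟩
      exact hp
  rw [this]
  exact (isCompact_Icc.prod isCompact_Icc).image (by fun_prop)

lemma box_convex (a b c d : ℝ) : Convex ℝ (Box a b c d) := by
  intro x hx y hy s t hs ht hst
  exact ⟨convex_Icc a b hx.1 hy.1 hs ht hst, convex_Icc c d hx.2 hy.2 hs ht hst⟩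

theorem main (mag : Set E → ℝ) (P1 : ∀ S C, Fam S C → mag S ≤ C)
    (P2 : ∀ S C, Fam S C → Fam S (mag S))
    (h : ∀ A B : Set E, IsCompact A → IsCompact B → Convex ℝ A → Convex ℝ B → Convex ℝ (A ∪ B) →
      Tendsto (fun t : ℝ => mag (t • (A ∪ B)) + mag (t • (A ∩ B)) - mag (t • A) - mag (t • B))
        atTop (𝓝 0)) : False := by
  have P3 : ∀ a b c d, Fam (Box a b c d) (mag (Box a b c d)) := fun a b c d =>
    (box_bdd a b c d).elim fun C h => P2 _ C h
  have u1 : Box 0 1 0 1 ∪ Box 1 2 0 1 = Box 0 2 0 1 := by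
    ext y; simp only [Box, Set.mem_union, Set.mem_ofPred_eq]; grind
  have i1 : Box 0 1 0 1 ∩ Box 1 2 0 1 = Box 1 1 0 1 := by
    ext y; simp only [Box, Set.mem_inter_iff, Set.mem_ofPred_eq]; grind
  have u2 : Box 0 2 0 1 ∪ Box 0 2 1 2 = Box 0 2 0 2 := by
    ext y; simp only [Box, Set.mem_union, Set.mem_ofPred_eq]; grind
  have i2 : Box 0 2 0 1 ∩ Box 0 2 1 2 = Box 0 2 1 1 := by
    ext y; simp only [Box, Set.mem_inter_iff, Set.mem_ofPred_eq]; grind
  have h1 := h _ _ (box_compact 0 1 0 1) (box_compact 1 2 0 1) (box_convex _ _ _ _)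
    (box_convex _ _ _ _) (u1 ▸ box_convex _ _ _ _)
  have h2 := h _ _ (box_compact 0 2 0 1) (box_compact 0 2 1 2) (box_convex _ _ _ _)
    (box_convex _ _ _ _) (u2 ▸ box_convex _ _ _ _)
  rw [u1, i1] at h1
  rw [u2, i2] at h2
  let g : ℝ → ℝ := fun t => mag (Box 0 t 0 t)
  have step : ∀ᶠ t : ℝ in atTop, g (2 * t) ≤ 4 * g t - 2 * t + 3 := by
    filter_upwards [h1.eventually (gt_mem_nhds one_pos), h2.eventually (gt_mem_nhds one_pos),
      eventually_gt_atTop 0] with t h1 h2 ht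
    simp only [box_smul ht, mul_zero, mul_one, mul_comm t 2] at h1 h2
    have a1 : mag (Box t (2 * t) 0 t) ≤ g t := P1 _ _ (Fam_shift (P3 0 t 0 t) !₂[t, 0] fun y hy => by
      simp only [Box, Set.mem_ofPred_eq] at hy ⊢; simp; grind)
    have a2 : mag (Box 0 (2 * t) t (2 * t)) ≤ mag (Box 0 (2 * t) 0 t) :=
      P1 _ _ (Fam_shift (P3 0 (2 * t) 0 t) !₂[0, t] fun y hy => by
        simp only [Box, Set.mem_ofPred_eq] at hy ⊢; simp; grind)
    have a3 := seg1 ht (P3 t t 0 (0 + t))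
    have a4 := seg0 (t := 2 * t) (by linarith) (P3 0 (0 + 2 * t) t t)
    simp only [zero_add] at a3 a4
    simp only [g] at a1 ⊢
    linarith
  have p0 : 0 < 2 * π := by positivity
  have low : ∀ᶠ t : ℝ in atTop, t ^ 2 / (2 * π) + t - 1 ≤ g t := by
    obtain ⟨T, hT⟩ := eventually_atTop.1 step
    filter_upwards [eventually_ge_atTop T, eventually_gt_atTop 0] with t h1 ht
    have k1 : ∀ k : ℕ, g (2 ^ k * t) - 2 ^ k * t + 1 ≤ (2 ^ k) ^ 2 * (g t - t + 1) := by
      intro k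
      induction k with
      | zero => simp
      | succ k ih =>
        have := hT (2 ^ k * t) (h1.trans (le_mul_of_one_le_left ht.le (one_le_pow₀ one_le_two)))
        rw [pow_succ' 2 k, mul_assoc, mul_pow]
        linarith
    refine le_of_forall_pos_le_add fun ε hε => ?_
    obtain ⟨k, hk⟩ := pow_unbounded_of_one_lt (t / ε) (one_lt_two (α := ℝ))
    have k0 : (0 : ℝ) < 2 ^ k := by positivity
    have k2 := sq_low (t := 2 ^ k * t) (by positivity) (P3 _ _ _ _)
    have k3 := k1 k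
    rw [div_lt_iff₀ hε] at hk
    refine le_of_mul_le_mul_left ?_ (pow_pos k0 2)
    rw [mul_pow, mul_div_assoc] at k2
    simp only [g] at k3 ⊢
    nlinarith
  have up : ∀ᶠ t : ℝ in atTop, g t ≤ (t + 3.1) ^ 2 / (2 * π) := by
    have : Tendsto (fun t : ℝ => t / 2 + 0.025) atTop atTop :=
      tendsto_atTop_add_const_right _ _ (tendsto_id.atTop_div_const two_pos)
    filter_upwards [this.eventually upper_ev] with t h1
    refine (P1 _ _ (Fam_shift h1 !₂[t / 2, t / 2] fun y hy k => ?_)).trans_eq (by congr 2; ring)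
    obtain ⟨⟨h3, h4⟩, h5, h6⟩ := hy
    fin_cases k <;> exact abs_lt.2 ⟨by simp; linarith, by simp; linarith⟩
  obtain ⟨t, h3, h4, h5⟩ := (low.and (up.and (eventually_ge_atTop 1000))).exists
  have := h3.trans h4
  rw [le_div_iff₀ p0, sub_mul, add_mul, div_mul_cancel₀ _ p0.ne'] at this
  nlinarith [Real.pi_gt_d2, Real.pi_lt_d2]

/-- The negation of the preceding statement: For compact convex A, B in Euclidean n-space with A∪B convex, magnitude(t(A∪B)) + magnitude(t(A∩B)) − magnitude(tA) − magnitude(tB) tends to 0 as t→∞, where magnitude is the sup over finite subsets of the sum of entries of inverse exp(−distance) matrices. -/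
theorem result :
    ¬ (∀ n : ℕ, ∀ mag : Set (EuclideanSpace ℝ (Fin n)) → ℝ,
      (∀ S : Set (EuclideanSpace ℝ (Fin n)),
        mag S = ⨆ F : Finset (EuclideanSpace ℝ (Fin n)),
          ⨆ (_ : (↑F : Set (EuclideanSpace ℝ (Fin n))) ⊆ S),
            ∑ i : ↥F, ∑ j : ↥F,
              (Matrix.of (fun x y : ↥F => Real.exp (-dist x.1 y.1)))⁻¹ i j) →
      ∀ A B : Set (EuclideanSpace ℝ (Fin n)),
        IsCompact A → IsCompact B → Convex ℝ A → Convex ℝ B → Convex ℝ (A ∪ B) →
        Tendsto (fun t : ℝ => mag (t • (A ∪ B)) + mag (t • (A ∩ B)) - mag (t • A) - mag (t • B))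
          atTop (𝓝 0)) := by
  intro h
  have key : ∀ (S : Set E) (C : ℝ), Fam S C → ∀ F : Finset E, (⨆ (_ : (↑F : Set E) ⊆ S),
      ∑ i : ↥F, ∑ j : ↥F, (Matrix.of (fun x y : ↥F => Real.exp (-dist x.1 y.1)))⁻¹ i j) ≤ C :=
    fun S C hC F => Real.iSup_le (fun hF => magF_le F hC hF) (Fam_nonneg hC)
  refine main _ (fun S C hC => Real.iSup_le (key S C hC) (Fam_nonneg hC)) (fun S C hC => ?_)
    (h 2 _ fun _ => rfl)
  intro ι _ x v hx
  have hF : (↑(Finset.univ.image x) : Set E) ⊆ S := by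
    intro y hy
    obtain ⟨i, -, rfl⟩ := Finset.mem_image.1 hy
    exact hx i
  refine le_trans ?_ (le_ciSup ⟨C, Set.forall_mem_range.2 (key S C hC)⟩ (Finset.univ.image x))
  rw [ciSup_pos hF]
  exact le_magF _ ι x v fun i => by simp

end Pool.Agent.S13358
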