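import Pool.Statements.S13377

set_option autoImplicit false
open Pool Pool.MP_717cd6_gt

namespace Pool.Agent.S13377

open Set Filter Cardinal

def II : Type := (Order.succ ℵ₀ : Cardinal.{0}).ord.ToType
def KK : Type := (Order.succ 𝔠 : Cardinal.{0}).ord.ToType

noncomputable instance : LinearOrder II :=
  inferInstanceAs (LinearOrder (Order.succ ℵ₀ : Cardinal.{0}).ord.ToType)
instance : WellFoundedLT II :=
  inferInstanceAs (WellFoundedLT (Order.succ ℵ₀ : Cardinal.{0}).ord.ToType)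
noncomputable instance : LinearOrder KK :=
  inferInstanceAs (LinearOrder (Order.succ 𝔠 : Cardinal.{0}).ord.ToType)
instance : WellFoundedLT KK :=
  inferInstanceAs (WellFoundedLT (Order.succ 𝔠 : Cardinal.{0}).ord.ToType)

lemma bdd_gen (c : Cardinal.{0}) (hc : c.IsRegular) (S : Set c.ord.ToType) (h : #S < c) :
    ∃ b, ∀ s ∈ S, s < b := by
  rw [← not_isCofinal_iff]
  intro hS
  have h1 := Order.cof_le hS
  rw [Ordinal.cof_toType, hc.cof_ord] at h1
  exact absurd h (not_lt.mpr h1)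

lemma iio_gen (c : Cardinal.{0}) (i : c.ord.ToType) : #(Iio i) < c := by
  simpa using Cardinal.mk_Iio_lt i

lemma card_II : #II = Order.succ ℵ₀ := by
  unfold II; simp

lemma hI2 (C : Set II) (hC : C.Countable) : ∃ i, ∀ c ∈ C, c < i := by
  apply bdd_gen _ (Cardinal.isRegular_succ le_rfl) C
  rw [← Cardinal.le_aleph0_iff_set_countable] at hC
  exact Order.lt_succ_iff.mpr hC

lemma bddK (S : Set KK) (h : #S ≤ 𝔠) : ∃ b, ∀ s ∈ S, s < b :=
  bdd_gen _ (Cardinal.isRegular_succ Cardinal.aleph0_le_continuum) S (Order.lt_succ_iff.mpr h)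

lemma bddF {J : Type} (hJ : #J ≤ 𝔠) (g : J → KK) : ∃ b, ∀ j, g j < b := by
  obtain ⟨b, hb⟩ := bddK (range g) (Cardinal.mk_range_le.trans hJ)
  exact ⟨b, fun i => hb _ ⟨i, rfl⟩⟩

lemma bddC (S : Set KK) (h : S.Countable) : ∃ b, ∀ s ∈ S, s < b := by
  apply bddK
  rw [← Cardinal.le_aleph0_iff_set_countable] at h
  exact h.trans Cardinal.aleph0_le_continuum

lemma card_Iio (y : KK) : #(Iio y) ≤ 𝔠 :=
  Order.lt_succ_iff.mp (iio_gen _ y)

lemma gtK (a : KK) : ∃ b, a < b := by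
  obtain ⟨b, hb⟩ := bddC {a} (countable_singleton a)
  exact ⟨b, hb a rfl⟩

instance : Nonempty KK := by
  obtain ⟨i, _⟩ := bddC ∅ countable_empty
  exact ⟨i⟩

def P (y : KK) : Prop :=
  ∀ C : Set KK, C.Countable → (∀ c ∈ C, c < y) → ∃ γ < y, ∀ c ∈ C, c ≤ γ

lemma closing (h : KK → KK) (hh : ∀ a, a ≤ h a) :
    ∃ δ, P δ ∧ ∀ γ < δ, ∃ a, γ ≤ a ∧ h a < δ := by
  classical
  have hYf : ∀ g : II → KK, ∃ b, ∀ i, g i < b := fun g =>
    bddF (by rw [card_II]; exact Order.succ_le_of_lt Cardinal.aleph0_lt_continuum) g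
  choose bnd hbnd using hYf
  let F : (i : II) → ((j : II) → j < i → KK) → KK :=
    fun i r => bnd (fun j => if hj : j < i then h (r j hj) else Classical.arbitrary KK)
  let α : II → KK := WellFoundedLT.fix F
  have hα : ∀ i j, j < i → h (α j) < α i := by
    intro i j hj
    have e : α i = F i (fun j _ => α j) := WellFoundedLT.fix_eq F i
    rw [e]
    have := hbnd (fun j => if hj : j < i then h (α j) else Classical.arbitrary KK) j
    simpa only [hj, dif_pos] using this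
  obtain ⟨b, hb⟩ : ∃ b, ∀ i, α i < b := ⟨bnd α, hbnd α⟩
  let S : Set KK := {b | ∀ i, α i < b}
  have hS : S.Nonempty := ⟨b, hb⟩
  let δ := wellFounded_lt.min S hS
  have h1 : ∀ i, α i < δ := wellFounded_lt.min_mem S hS
  have h2 : ∀ γ < δ, ∃ i, γ ≤ α i := by
    intro γ hγ
    by_contra hc
    push Not at hc
    exact wellFounded_lt.not_lt_min S hc hγ
  refine ⟨δ, ?_, ?_⟩
  · intro C hC hCδ
    have : ∀ c : C, ∃ i, (c : KK) ≤ α i := fun c => h2 c (hCδ c c.2)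
    choose k hk using this
    have := hC.to_subtype
    obtain ⟨i, hi⟩ := hI2 (range k) (countable_range k)
    refine ⟨α i, h1 i, fun c hc => ?_⟩
    exact (hk ⟨c, hc⟩).trans ((hh _).trans (hα i _ (hi _ ⟨_, rfl⟩)).le)
  · intro γ hγ
    obtain ⟨i, hi⟩ := h2 γ hγ
    obtain ⟨j, hj⟩ := hI2 {i} (countable_singleton i)
    exact ⟨α i, hi, (hα j i (hj i rfl)).trans (h1 j)⟩

def Pt : Type := {y : Set KK // y.Countable}

def Agr (α : KK) (y z : Pt) : Prop := ∀ ξ < α, ξ ∈ y.1 ↔ ξ ∈ z.1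

lemma Agr.rfl' (α : KK) (y : Pt) : Agr α y y := fun _ _ => Iff.rfl
lemma Agr.symm' {α : KK} {y z : Pt} (h : Agr α y z) : Agr α z y := fun ξ hξ => (h ξ hξ).symm
lemma Agr.trans' {α : KK} {y z w : Pt} (h : Agr α y z) (h' : Agr α z w) : Agr α y w :=
  fun ξ hξ => (h ξ hξ).trans (h' ξ hξ)
lemma Agr.mono {α β : KK} {y z : Pt} (h : Agr β y z) (hab : α ≤ β) : Agr α y z :=
  fun ξ hξ => h ξ (hξ.trans_le hab)

def Nwd (N : Set Pt) : Prop :=
  ∀ α y, ∃ β z, α ≤ β ∧ Agr α y z ∧ ∀ w, Agr β z w → w ∉ N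

lemma exists_g (N : Set Pt) : ∃ g, Nwd N → P g ∧
    ∀ α < g, ∀ y, ∃ β < g, ∃ z, α ≤ β ∧ Agr α y z ∧ ∀ w, Agr β z w → w ∉ N := by
  by_cases hN : Nwd N
  swap
  · exact ⟨Classical.arbitrary KK, fun h => absurd h hN⟩
  have h : ∀ α, ∃ b, α ≤ b ∧ ∀ y, ∃ β < b, ∃ z, α ≤ β ∧ Agr α y z ∧ ∀ w, Agr β z w → w ∉ N := by
    intro α
    choose β z h1 h2 h3 using hN α
    have hc : #{t : Set KK // t ⊆ Iio α ∧ #t ≤ ℵ₀} ≤ 𝔠 := by
      refine (Cardinal.mk_bounded_subset_le _ _).trans ?_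
      rw [← Cardinal.continuum_power_aleph0]
      exact Cardinal.power_le_power_right (max_le (card_Iio α) Cardinal.aleph0_le_continuum)
    obtain ⟨b, hb⟩ := bddF hc
      (fun t => β ⟨t.1, Cardinal.le_aleph0_iff_set_countable.mp t.2.2⟩)
    refine ⟨max α b, le_max_left _ _, fun y => ?_⟩
    have hy : (y.1 ∩ Iio α).Countable := y.2.mono inter_subset_left
    refine ⟨β ⟨_, hy⟩, (hb ⟨y.1 ∩ Iio α, inter_subset_right,
      Cardinal.le_aleph0_iff_set_countable.mpr hy⟩).trans_le (le_max_right _ _), z ⟨_, hy⟩,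
      h1 _, Agr.trans' ?_ (h2 _), h3 _⟩
    exact fun ξ hξ => ⟨fun h => ⟨h, hξ⟩, fun h => h.1⟩
  choose h h1 h2 using h
  obtain ⟨δ, hP, hδ⟩ := closing h h1
  refine ⟨δ, fun _ => ⟨hP, fun α hα y => ?_⟩⟩
  obtain ⟨a, ha, ha2⟩ := hδ α hα
  obtain ⟨β, hβ, z, h3, h4, h5⟩ := h2 a y
  exact ⟨β, hβ.trans ha2, z, ha.trans h3, h4.mono ha, h5⟩

noncomputable def gg (N : Set Pt) : KK := (exists_g N).choose

def FF (N : Set Pt) : Set Pt := {y | ∃ α < gg N, ∀ w, Agr α y w → w ∉ N}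

lemma FF_sat {N : Set Pt} {y z : Pt} (h : Agr (gg N) y z) (hy : y ∈ FF N) : z ∈ FF N := by
  obtain ⟨α, h1, h2⟩ := hy
  exact ⟨α, h1, fun w hw => h2 w ((h.mono h1.le).trans' hw)⟩

lemma FF_not {N : Set Pt} {y : Pt} (hy : y ∈ FF N) : y ∉ N := by
  obtain ⟨α, _, h2⟩ := hy
  exact h2 y (Agr.rfl' _ _)

lemma union_chain (S : Set (KK × Pt)) (hS : S.Countable)
    (hc : ∀ c ∈ S, ∀ d ∈ S, Agr c.1 c.2 d.2 ∧ c.1 ≤ d.1 ∨ Agr d.1 d.2 c.2 ∧ d.1 ≤ c.1) :
    ∃ y : Pt, ∀ c ∈ S, Agr c.1 c.2 y := by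
  refine ⟨⟨⋃ c ∈ S, c.2.1 ∩ Iio c.1, hS.biUnion fun c _ => c.2.2.mono inter_subset_left⟩, ?_⟩
  intro c hcS ξ hξ
  refine ⟨fun h => mem_biUnion hcS ⟨h, hξ⟩, fun h => ?_⟩
  obtain ⟨d, hd, h1, h2⟩ := mem_iUnion₂.mp h
  rcases hc c hcS d hd with k | k
  · exact (k.1 ξ hξ).mpr h1
  · exact (k.1 ξ h2).mp h1

lemma cip (S : Set (Set Pt)) (hS : S.Countable) (hN : ∀ N ∈ S, Nwd N) :
    ∃ y, ∀ N ∈ S, y ∈ FF N := by
  classical
  have := hS.to_subtype
  obtain ⟨enc, henc⟩ := exists_injective_nat S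
  let k : S → KK ×ₗ ℕ := fun i => toLex (gg i.1, enc i)
  have hk : Function.Injective k := fun a b h =>
    henc (congrArg Prod.snd (toLex.injective h))
  have hkg : ∀ i j, k j < k i → gg j.1 ≤ gg i.1 := by
    intro i j h
    rcases Prod.Lex.toLex_lt_toLex.mp h with h | h
    · exact h.le
    · exact h.1.le
  have wf : WellFounded (fun j i : S => k j < k i) := InvImage.wf k wellFounded_lt
  have ext : ∀ (i : S) (T : Set (KK × Pt)), ∃ c : KK × Pt, T.Countable →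
      (∀ c ∈ T, ∀ d ∈ T, Agr c.1 c.2 d.2 ∧ c.1 ≤ d.1 ∨ Agr d.1 d.2 c.2 ∧ d.1 ≤ c.1) →
      (∀ c ∈ T, c.1 < gg i.1) →
      c.1 < gg i.1 ∧ (∀ d ∈ T, Agr d.1 d.2 c.2 ∧ d.1 ≤ c.1) ∧ ∀ w, Agr c.1 c.2 w → w ∉ i.1 := by
    intro i T
    by_cases h : T.Countable ∧
      (∀ c ∈ T, ∀ d ∈ T, Agr c.1 c.2 d.2 ∧ c.1 ≤ d.1 ∨ Agr d.1 d.2 c.2 ∧ d.1 ≤ c.1) ∧
      (∀ c ∈ T, c.1 < gg i.1)
    swap
    · exact ⟨(Classical.arbitrary KK, ⟨∅, countable_empty⟩), fun a b c => absurd ⟨a, b, c⟩ h⟩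
    obtain ⟨y, hy⟩ := union_chain T h.1 h.2.1
    obtain ⟨hP, hg⟩ := (exists_g i.1).choose_spec (hN _ i.2)
    obtain ⟨γ, hγ, hb⟩ := hP (Prod.fst '' T) (h.1.image _)
      (by rintro _ ⟨c, hc, rfl⟩; exact h.2.2 c hc)
    obtain ⟨β, hβ, z, h3, h4, h5⟩ := hg γ hγ y
    refine ⟨(β, z), fun _ _ _ => ⟨hβ, fun d hd => ?_, h5⟩⟩
    have := hb _ ⟨d, hd, rfl⟩
    exact ⟨(hy d hd).trans' (h4.mono this), this.trans h3⟩
  choose E hE using ext
  let c : S → KK × Pt := wf.fix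
    (fun i r => E i (range fun j : {j // k j < k i} => r j.1 j.2))
  have hc : ∀ i, c i = E i (range fun j : {j // k j < k i} => c j.1) := fun i => wf.fix_eq _ i
  have inv : ∀ i, (c i).1 < gg i.1 ∧
      (∀ j, k j < k i → Agr (c j).1 (c j).2 (c i).2 ∧ (c j).1 ≤ (c i).1) ∧
      ∀ w, Agr (c i).1 (c i).2 w → w ∉ i.1 := by
    intro i
    induction i using wf.induction with
    | _ i ih =>
      have := hE i (range fun j : {j // k j < k i} => c j.1) (countable_range _) (by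
        rintro _ ⟨a, rfl⟩ _ ⟨b, rfl⟩
        rcases lt_trichotomy (k a.1) (k b.1) with h | h | h
        · exact Or.inl ((ih b.1 b.2).2.1 a.1 h)
        · rw [show a = b from Subtype.ext (hk h)]
          exact Or.inl ⟨Agr.rfl' _ _, le_rfl⟩
        · exact Or.inr ((ih a.1 a.2).2.1 b.1 h)) (by
        rintro _ ⟨a, rfl⟩
        exact (ih a.1 a.2).1.trans_le (hkg _ _ a.2))
      rw [← hc i] at this
      exact ⟨this.1, fun j hj => this.2.1 _ ⟨⟨j, hj⟩, rfl⟩, this.2.2⟩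
  obtain ⟨y, hy⟩ := union_chain (range c) (countable_range c) (by
    rintro _ ⟨a, rfl⟩ _ ⟨b, rfl⟩
    rcases lt_trichotomy (k a) (k b) with h | h | h
    · exact Or.inl ((inv b).2.1 a h)
    · rw [hk h]
      exact Or.inl ⟨Agr.rfl' _ _, le_rfl⟩
    · exact Or.inr ((inv a).2.1 b h))
  refine ⟨y, fun N hNS => ⟨(c ⟨N, hNS⟩).1, (inv ⟨N, hNS⟩).1, fun w hw => ?_⟩⟩
  exact (inv ⟨N, hNS⟩).2.2 w ((hy _ ⟨_, rfl⟩).trans' hw)

lemma nwd_single (y : Pt) : Nwd {y} := by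
  intro α x
  obtain ⟨β, hβ⟩ := gtK α
  by_cases h : α ∈ y.1
  · refine ⟨β, ⟨x.1 \ {α}, x.2.mono sdiff_subset⟩, hβ.le, fun ξ hξ => ?_, fun w hw e => ?_⟩
    · exact ⟨fun k => ⟨k, hξ.ne⟩, fun k => k.1⟩
    · rw [mem_singleton_iff] at e
      subst e
      exact ((hw α hβ).mpr h).2 rfl
  · refine ⟨β, ⟨insert α x.1, x.2.insert α⟩, hβ.le, fun ξ hξ => ?_, fun w hw e => ?_⟩
    · exact ⟨fun k => Or.inr k, fun k => k.resolve_left hξ.ne⟩
    · rw [mem_singleton_iff] at e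
      subst e
      exact h ((hw α hβ).mp (Or.inl rfl))

def XX : Type := Option Pt

def Op (U : Set XX) : Prop :=
  (∀ y : Pt, (some y : XX) ∈ U → ∃ α, ∀ z, Agr α y z → (some z : XX) ∈ U) ∧
  ((none : XX) ∈ U → ∃ S : Set (Set Pt), S.Countable ∧ (∀ N ∈ S, Nwd N) ∧
    ∀ y, (∀ N ∈ S, y ∈ FF N) → (some y : XX) ∈ U)

lemma op_iInter (U : ℕ → Set XX) (h : ∀ n, Op (U n)) : Op (⋂ n, U n) := by
  constructor
  · intro y hy
    choose α hα using fun n => (h n).1 y (mem_iInter.mp hy n)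
    obtain ⟨b, hb⟩ := bddC (range α) (countable_range α)
    exact ⟨b, fun z hz => mem_iInter.mpr fun n => hα n z (hz.mono (hb _ ⟨n, rfl⟩).le)⟩
  · intro hy
    choose S h1 h2 h3 using fun n => (h n).2 (mem_iInter.mp hy n)
    refine ⟨⋃ n, S n, countable_iUnion h1, fun N hN => ?_, fun y hy => mem_iInter.mpr fun n => ?_⟩
    · obtain ⟨n, hn⟩ := mem_iUnion.mp hN
      exact h2 n N hn
    · exact h3 n y fun N hN => hy N (mem_iUnion.mpr ⟨n, hN⟩)

instance topX : TopologicalSpace XX where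
  IsOpen := Op
  isOpen_univ := ⟨fun _ _ => ⟨Classical.arbitrary KK, fun _ _ => trivial⟩,
    fun _ => ⟨∅, countable_empty, by simp, fun _ _ => trivial⟩⟩
  isOpen_inter := by
    intro s t hs ht
    constructor
    · intro y hy
      obtain ⟨a, ha⟩ := hs.1 y hy.1
      obtain ⟨b, hb⟩ := ht.1 y hy.2
      exact ⟨max a b, fun z hz => ⟨ha z (hz.mono (le_max_left _ _)),
        hb z (hz.mono (le_max_right _ _))⟩⟩
    · intro hy
      obtain ⟨S, a1, a2, a3⟩ := hs.2 hy.1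
      obtain ⟨T, b1, b2, b3⟩ := ht.2 hy.2
      exact ⟨S ∪ T, a1.union b1, fun N hN => hN.elim (a2 N) (b2 N), fun y h =>
        ⟨a3 y fun N hN => h N (Or.inl hN), b3 y fun N hN => h N (Or.inr hN)⟩⟩
  isOpen_sUnion := by
    intro S hS
    constructor
    · rintro y ⟨U, hU, hy⟩
      obtain ⟨a, ha⟩ := (hS U hU).1 y hy
      exact ⟨a, fun z hz => ⟨U, hU, ha z hz⟩⟩
    · rintro ⟨U, hU, hy⟩
      obtain ⟨T, b1, b2, b3⟩ := (hS U hU).2 hy
      exact ⟨T, b1, b2, fun y h => ⟨U, hU, b3 y h⟩⟩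

lemma openX (U : Set XX) : IsOpen U ↔ Op U := Iff.rfl

def Vn (S : Set (Set Pt)) : Set XX := {x | ∀ y : Pt, x = some y → ∀ N ∈ S, y ∈ FF N}

lemma Vn_open (S : Set (Set Pt)) (hS : S.Countable) (hN : ∀ N ∈ S, Nwd N) : IsOpen (Vn S) := by
  refine ⟨fun y hy => ?_, fun _ => ⟨S, hS, hN, fun y h z e => ?_⟩⟩
  · obtain ⟨b, hb⟩ := bddC (gg '' S) (hS.image _)
    refine ⟨b, fun z hz w e N hNS => ?_⟩
    cases e
    exact FF_sat (hz.mono (hb _ ⟨N, hNS, rfl⟩).le) (hy y rfl N hNS)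
  · cases e; exact h

lemma Vn_closed (S : Set (Set Pt)) : IsClosed (Vn S) := by
  rw [← isOpen_compl_iff]
  refine ⟨fun y hy => ?_, fun h => absurd (fun y e => by cases e) h⟩
  have : ∃ N ∈ S, y ∉ FF N := by
    by_contra hc
    push Not at hc
    exact hy fun z e => by cases e; exact hc
  obtain ⟨N, h1, h2⟩ := this
  exact ⟨gg N, fun z hz h => h2 (FF_sat hz.symm' (h z rfl N h1))⟩

lemma t1X : T1Space XX := by
  refine ⟨fun x => ?_⟩
  rw [← isOpen_compl_iff]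
  refine ⟨fun y hy => ?_, fun h => ?_⟩
  · cases x with
    | none => exact ⟨Classical.arbitrary KK, fun z _ e => by cases e⟩
    | some x =>
      have : ∃ ξ, ¬ (ξ ∈ y.1 ↔ ξ ∈ x.1) := by
        by_contra hc
        push Not at hc
        exact hy (congrArg some (Subtype.ext (Set.ext hc)))
      obtain ⟨ξ, hξ⟩ := this
      obtain ⟨β, hβ⟩ := gtK ξ
      refine ⟨β, fun z hz e => hξ ?_⟩
      cases e
      exact hz ξ hβ
  · cases x with
    | none => exact absurd rfl h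
    | some x =>
      refine ⟨{{x}}, countable_singleton _, by rintro _ rfl; exact nwd_single x, fun y hy e => ?_⟩
      cases e
      exact FF_not (hy _ rfl) rfl

lemma regX : RegularSpace XX := by
  apply RegularSpace.of_exists_mem_nhds_isClosed_subset
  intro x s hs
  obtain ⟨U, hUs, hU, hx⟩ := mem_nhds_iff.mp hs
  cases x with
  | none =>
    obtain ⟨S, h1, h2, h3⟩ := hU.2 hx
    refine ⟨Vn S, (Vn_open S h1 h2).mem_nhds (fun y e => by cases e), Vn_closed S, ?_⟩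
    intro x h
    cases x with
    | none => exact hUs hx
    | some y => exact hUs (h3 y (h y rfl))
  | some y =>
    obtain ⟨α, hα⟩ := hU.1 y hx
    refine ⟨{x | ∃ z, x = some z ∧ Agr (max α (gg {y})) y z}, IsOpen.mem_nhds ⟨?_, ?_⟩
      ⟨y, rfl, Agr.rfl' _ _⟩, ?_, ?_⟩
    · rintro w ⟨z, e, hz⟩
      cases e
      exact ⟨_, fun v hv => ⟨v, rfl, hz.trans' hv⟩⟩
    · rintro ⟨z, e, _⟩
      cases e
    · rw [← isOpen_compl_iff]
      refine ⟨fun w hw => ⟨max α (gg {y}), ?_⟩, fun _ => ⟨{{y}}, countable_singleton _,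
        by rintro _ rfl; exact nwd_single y, ?_⟩⟩
      · rintro v hv ⟨z, e, hz⟩
        cases e
        exact hw ⟨w, rfl, hz.trans' hv.symm'⟩
      · rintro w hw ⟨z, e, hz⟩
        cases e
        exact FF_not (FF_sat (hz.symm'.mono (le_max_right _ _)) (hw _ rfl)) rfl
    · rintro _ ⟨z, rfl, hz⟩
      exact hUs (hα z (hz.mono (le_max_left _ _)))

/-- There is a regular T1 topological space in which countable intersections of open sets are open, yet some non-closed set A contains no subset that is discrete in itself and has a closure point outside A. -/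
theorem result :
    ∃ (X : Type) (t : TopologicalSpace X),
      T3Space X ∧
      (∀ U : ℕ → Set X, (∀ n, IsOpen (U n)) → IsOpen (⋂ n, U n)) ∧
      ¬ (∀ A : Set X, ¬ IsClosed A →
          ∃ D : Set X, D ⊆ A ∧ DiscreteTopology D ∧ (closure D \ A).Nonempty) := by
  have := t1X
  have := regX
  refine ⟨XX, topX, inferInstance, op_iInter, fun H => ?_⟩
  obtain ⟨D, h1, h2, x, h3, h4⟩ := H {(none : XX)}ᶜ (by
    intro hc
    rw [isClosed_compl_iff] at hc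
    obtain ⟨S, a1, a2, a3⟩ := hc.2 rfl
    obtain ⟨y, hy⟩ := cip S a1 a2
    cases a3 y hy)
  have hx : x = none := not_not.mp h4
  subst hx
  have hN : Nwd {y | (some y : XX) ∈ D} := by
    intro α y
    by_cases h : ∀ w, Agr α y w → (some w : XX) ∉ D
    · exact ⟨α, y, le_rfl, Agr.rfl' _ _, h⟩
    · push Not at h
      obtain ⟨d, hd, hdD⟩ := h
      obtain ⟨W, hW, e⟩ := isOpen_induced_iff.mp (isOpen_discrete ({⟨some d, hdD⟩} : Set D))
      have hf : (some d : XX) ∈ W := by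
        have : (⟨some d, hdD⟩ : D) ∈ Subtype.val ⁻¹' W := by rw [e]; rfl
        exact this
      obtain ⟨γ, hγ⟩ := hW.1 d hf
      obtain ⟨β, z, k1, k2, k3⟩ := nwd_single d (max α γ) d
      refine ⟨β, z, (le_max_left _ _).trans k1, hd.trans' (k2.mono (le_max_left _ _)),
        fun w hw hwD => k3 w hw ?_⟩
      have : (⟨some w, hwD⟩ : D) ∈ Subtype.val ⁻¹' W :=
        hγ w ((k2.trans' (hw.mono k1)).mono (le_max_right _ _))
      rw [e] at this
      exact Option.some.inj (congrArg Subtype.val this)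
  obtain ⟨v, hv, hvD⟩ := mem_closure_iff.mp h3 _
    (Vn_open {{y | (some y : XX) ∈ D}} (countable_singleton _) (by rintro _ rfl; exact hN))
    (fun y e => by cases e)
  cases v with
  | none => exact h1 hvD rfl
  | some y => exact FF_not (hv y rfl _ rfl) hvD

end Pool.Agent.S13377
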