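import Pool.Statements.S13418
-- import your own Pool.Agent.* helpers here

set_option autoImplicit false
open Pool Pool.MP_79e81e_gt

namespace Pool.Agent.S13418

lemma ball_bound {V : Type} (H : SimpleGraph V) (D : ℕ) (N : V → Finset V)
    (h0 : ∀ v, v ∈ N v) (h1 : ∀ v w, H.Adj v w → w ∈ N v) (h2 : ∀ v, (N v).card ≤ D) (R : ℕ) :
    ∀ x, ∃ T : Finset V, T.card ≤ D ^ R ∧ ∀ y (p : H.Walk x y), p.length ≤ R → y ∈ T := by
  classical
  induction R with
  | zero =>
    intro x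
    refine ⟨{x}, by simp, fun y p hp => ?_⟩
    cases p with
    | nil => simp
    | cons h q => simp at hp
  | succ R ih =>
    intro x
    choose T hT1 hT2 using ih
    refine ⟨(N x).biUnion T, ?_, fun y p hp => ?_⟩
    · refine (Finset.card_biUnion_le_card_mul _ _ _ fun a _ => hT1 a).trans ?_
      rw [pow_succ']
      exact Nat.mul_le_mul_right _ (h2 x)
    · cases p with
      | nil => exact Finset.mem_biUnion.2 ⟨x, h0 x, hT2 x x .nil (by simp)⟩
      | cons h q => exact Finset.mem_biUnion.2 ⟨_, h1 _ _ h, hT2 _ y q (by simpa using hp)⟩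

/-- the Cayley graph of the statement -/
def Cay {Γ : Type} [Group Γ] (S : Finset Γ) : SimpleGraph Γ :=
  SimpleGraph.fromRel (fun a b : Γ => ∃ s ∈ S, b = a * s)

/-- left translation -/
def tr {Γ : Type} [Group Γ] (S : Finset Γ) (g : Γ) : Cay S →g Cay S where
  toFun a := g * a
  map_rel' := by
    intro a b h
    simp only [Cay, SimpleGraph.fromRel_adj] at h ⊢
    refine ⟨fun e => h.1 (mul_left_cancel e), ?_⟩
    rcases h.2 with ⟨s, hs, rfl⟩ | ⟨s, hs, rfl⟩
    · exact Or.inl ⟨s, hs, (mul_assoc _ _ _).symm⟩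
    · exact Or.inr ⟨s, hs, (mul_assoc _ _ _).symm⟩

lemma cay_reach {Γ : Type} [Group Γ] (S : Finset Γ) (hS : Subgroup.closure (S : Set Γ) = ⊤)
    (a b : Γ) : (Cay S).Reachable a b := by
  have key : ∀ g ∈ Subgroup.closure (S : Set Γ), ∀ a, (Cay S).Reachable a (a * g) := by
    intro g hg
    induction hg using Subgroup.closure_induction with
    | mem s hs =>
      intro a
      by_cases e : a = a * s
      · rw [← e]
      · exact SimpleGraph.Adj.reachable (by
          simp only [Cay, SimpleGraph.fromRel_adj]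
          exact ⟨e, Or.inl ⟨s, hs, rfl⟩⟩)
    | one => intro a; rw [mul_one]
    | mul x y _ _ hx hy => intro a; rw [← mul_assoc]; exact (hx a).trans (hy _)
    | inv x _ hx =>
      intro a
      have := (hx (a * x⁻¹)).symm
      rwa [inv_mul_cancel_right] at this
  have := key (a⁻¹ * b) (hS ▸ Subgroup.mem_top _) a
  rwa [mul_inv_cancel_left] at this

lemma cay_dist {Γ : Type} [Group Γ] (S : Finset Γ) (hS : Subgroup.closure (S : Set Γ) = ⊤)
    (g a b : Γ) : (Cay S).dist (g * a) (g * b) ≤ (Cay S).dist a b := by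
  obtain ⟨p, hp⟩ := (cay_reach S hS a b).exists_walk_length_eq_dist
  have := SimpleGraph.dist_le (p.map (tr S g))
  rwa [SimpleGraph.Walk.length_map, hp] at this

/-- the comb with extra edges -/
def Comb (τ : ℕ → Equiv.Perm ℕ) : SimpleGraph (ℕ × ℕ) :=
  SimpleGraph.fromRel fun u v =>
    v = (u.1, u.2 + 1) ∨ (u.2 = 0 ∧ v = (u.1 + 1, 0)) ∨ v = (u.1, τ u.1 u.2)

/-- closed neighbourhoods -/
def Nb (τ : ℕ → Equiv.Perm ℕ) (u : ℕ × ℕ) : Finset (ℕ × ℕ) :=
  [u, (u.1, u.2 + 1), (u.1, u.2 - 1), (u.1 + 1, 0), (u.1 - 1, 0), (u.1, τ u.1 u.2),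
    (u.1, (τ u.1).symm u.2)].toFinset

lemma nb_card (τ : ℕ → Equiv.Perm ℕ) (u : ℕ × ℕ) : (Nb τ u).card ≤ 7 :=
  List.toFinset_card_le _

lemma nb_adj (τ : ℕ → Equiv.Perm ℕ) (u v : ℕ × ℕ) (h : (Comb τ).Adj u v) : v ∈ Nb τ u := by
  obtain ⟨a, b⟩ := u
  obtain ⟨c, d⟩ := v
  simp only [Comb, SimpleGraph.fromRel_adj, Prod.mk.injEq] at h
  simp only [Nb, List.mem_toFinset, List.mem_cons, Prod.mk.injEq]
  rcases h.2 with (⟨rfl, rfl⟩ | ⟨rfl, rfl, rfl⟩ | ⟨rfl, rfl⟩) | (⟨rfl, rfl⟩ | ⟨rfl, rfl, rfl⟩ | ⟨rfl, rfl⟩) <;>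
    simp

lemma comb_up (τ : ℕ → Equiv.Perm ℕ) (k i : ℕ) : (Comb τ).Adj (k, i) (k, i + 1) := by
  simp [Comb, SimpleGraph.fromRel_adj]

lemma comb_conn (τ : ℕ → Equiv.Perm ℕ) : (Comb τ).Connected := by
  have h1 : ∀ k, (Comb τ).Reachable (0, 0) (k, 0) := by
    intro k
    induction k with
    | zero => rfl
    | succ k ih => exact ih.trans (SimpleGraph.Adj.reachable (by simp [Comb, SimpleGraph.fromRel_adj]))
  have h2 : ∀ k i, (Comb τ).Reachable (0, 0) (k, i) := by
    intro k i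
    induction i with
    | zero => exact h1 k
    | succ i ih => exact ih.trans (comb_up τ k i).reachable
  exact ⟨fun u v => (h2 u.1 u.2).symm.trans (h2 v.1 v.2)⟩

lemma comb_tau (τ : ℕ → Equiv.Perm ℕ) (k i : ℕ) : (Comb τ).dist (k, i) (k, τ k i) ≤ 1 := by
  by_cases e : τ k i = i
  · rw [e]; simp
  · have : (Comb τ).Adj (k, i) (k, τ k i) := by
      simp only [Comb, SimpleGraph.fromRel_adj]
      exact ⟨fun h => e (congrArg Prod.snd h).symm, Or.inl (Or.inr (Or.inr trivial))⟩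
    exact (SimpleGraph.dist_eq_one_iff_adj.2 this).le

/-- The negation of the preceding statement: Every connected graph of bounded degree coarsely embeds, with its path metric, into the word metric of some group generated by a finite set. -/
theorem result :
    ¬ (∀ (V : Type) (G : SimpleGraph V), G.Connected →
      (∃ D : ℕ, ∀ v : V, (G.neighborSet v).encard ≤ (D : ℕ∞)) →
      ∃ (Γ : Type) (inst : Group Γ) (S : Finset Γ),
        Subgroup.closure (S : Set Γ) = ⊤ ∧
        ∃ f : V → Γ,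
          (∀ R : ℕ, ∃ K : ℕ, ∀ x y : V, G.dist x y ≤ R →
              (SimpleGraph.fromRel (fun a b : Γ => ∃ s ∈ S, b = a * s)).dist (f x) (f y) ≤ K) ∧
          (∀ K : ℕ, ∃ R : ℕ, ∀ x y : V,
              (SimpleGraph.fromRel (fun a b : Γ => ∃ s ∈ S, b = a * s)).dist (f x) (f y) ≤ K →
              G.dist x y ≤ R)) := by
  classical
  intro H
  obtain ⟨e, he⟩ := exists_surjective_nat (Σ n : ℕ, Equiv.Perm (Fin n))
  let τ : ℕ → Equiv.Perm ℕ := fun k => (e k).2.viaEmbedding Fin.valEmbedding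
  obtain ⟨Γ, inst, S, hS, f, hf1, hf2⟩ := H (ℕ × ℕ) (Comb τ) (comb_conn τ) ⟨7, fun v => by
    have : (Comb τ).neighborSet v ⊆ (Nb τ v : Set (ℕ × ℕ)) := fun w hw => nb_adj τ v w hw
    refine (Set.encard_le_encard this).trans ?_
    rw [Set.encard_coe_eq_coe_finsetCard]
    exact_mod_cast nb_card τ v⟩
  obtain ⟨K, hK⟩ := hf1 1
  obtain ⟨R, hR⟩ := hf2 K
  change ∀ x y, _ → (Cay S).dist (f x) (f y) ≤ K at hK
  change ∀ x y, (Cay S).dist (f x) (f y) ≤ K → _ at hR
  obtain ⟨B, -, hB⟩ := ball_bound (Cay S) (1 + S.card + S.card)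
    (fun a => {a} ∪ S.image (a * ·) ∪ S.image (fun s => a * s⁻¹)) (fun v => by simp) (by
      intro v w h
      simp only [Cay, SimpleGraph.fromRel_adj] at h
      rcases h.2 with ⟨s, hs, rfl⟩ | ⟨s, hs, rfl⟩
      · exact Finset.mem_union_left _ (Finset.mem_union_right _ (Finset.mem_image.2 ⟨s, hs, rfl⟩))
      · exact Finset.mem_union_right _ (Finset.mem_image.2 ⟨s, hs, by simp⟩)) (by
      intro v
      refine (Finset.card_union_le _ _).trans (Nat.add_le_add ((Finset.card_union_le _ _).trans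
        (Nat.add_le_add (by simp) Finset.card_image_le)) Finset.card_image_le)) K 1
  let B' := B.filter fun g => (Cay S).dist 1 g ≤ K
  have hB1 : ∀ x y, (Comb τ).dist x y ≤ 1 → (f x)⁻¹ * f y ∈ B' := by
    intro x y h
    have h1 := (cay_dist S hS (f x)⁻¹ (f x) (f y)).trans (hK x y h)
    rw [inv_mul_cancel] at h1
    obtain ⟨p, hp⟩ := (cay_reach S hS 1 ((f x)⁻¹ * f y)).exists_walk_length_eq_dist
    exact Finset.mem_filter.2 ⟨hB _ p (hp ▸ h1), h1⟩
  have hB2 : ∀ x y, (f x)⁻¹ * f y ∈ B' → (Comb τ).dist x y ≤ R := by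
    intro x y h
    have h1 := (cay_dist S hS (f x) 1 ((f x)⁻¹ * f y)).trans (Finset.mem_filter.1 h).2
    rw [mul_one, mul_inv_cancel_left] at h1
    exact hR x y h1
  choose T hT1 hT2 using ball_bound (Comb τ) 7 (Nb τ) (fun v => by simp [Nb]) (nb_adj τ)
    (nb_card τ) R
  obtain ⟨n, hn⟩ := (Nat.eventually_pow_lt_factorial_sub (7 ^ R * B'.card) 0).exists
  rw [Nat.sub_zero] at hn
  have hk : ∀ σ : Equiv.Perm (Fin n), ∃ k, ∀ i : Fin n, τ k i = σ i := by
    intro σ
    obtain ⟨k, hk⟩ := he ⟨n, σ⟩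
    refine ⟨k, fun i => ?_⟩
    have : τ k = σ.viaEmbedding Fin.valEmbedding := by
      show (e k).2.viaEmbedding Fin.valEmbedding = _
      rw [hk]
    rw [this]
    exact Equiv.Perm.viaEmbedding_apply σ Fin.valEmbedding i
  choose k hk using hk
  let a : Equiv.Perm (Fin n) → Fin n → Γ := fun σ i => (f (k σ, i))⁻¹ * f (k σ, i + 1)
  have ha : ∀ σ σ', a σ = a σ' → ∀ i, i ≤ n →
      (f (k σ, 0))⁻¹ * f (k σ, i) = (f (k σ', 0))⁻¹ * f (k σ', i) := by
    intro σ σ' h i
    induction i with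
    | zero => simp
    | succ i ih =>
      intro hi
      have h1 : (f (k σ, i))⁻¹ * f (k σ, i + 1) = (f (k σ', i))⁻¹ * f (k σ', i + 1) :=
        congrFun h ⟨i, hi⟩
      calc (f (k σ, 0))⁻¹ * f (k σ, i + 1)
          = (f (k σ, 0))⁻¹ * f (k σ, i) * ((f (k σ, i))⁻¹ * f (k σ, i + 1)) := by group
        _ = _ := by rw [ih (by omega), h1]; group
  have c1 : (Finset.univ.image a).card ≤ B'.card ^ n := by
    have : Finset.univ.image a ⊆ Fintype.piFinset fun _ : Fin n => B' := by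
      intro b hb
      obtain ⟨σ, -, rfl⟩ := Finset.mem_image.1 hb
      exact Fintype.mem_piFinset.2 fun i =>
        hB1 _ _ (SimpleGraph.dist_eq_one_iff_adj.2 (comb_up τ _ _)).le
    refine (Finset.card_le_card this).trans ?_
    simp
  have c2 : ∀ b ∈ Finset.univ.image a, (Finset.univ.filter fun σ => a σ = b).card ≤ (7 ^ R) ^ n := by
    intro b hb
    obtain ⟨σ₀, -, rfl⟩ := Finset.mem_image.1 hb
    have : (Finset.univ.filter fun σ => a σ = a σ₀).card ≤
        (Fintype.piFinset fun i : Fin n => T (k σ₀, i)).card := by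
      refine Finset.card_le_card_of_injOn (fun σ i => (k σ₀, (σ i : ℕ))) ?_ ?_
      · intro σ hσ
        have hσ : a σ = a σ₀ := (Finset.mem_filter.1 (Finset.mem_coe.1 hσ)).2
        refine Finset.mem_coe.2 (Fintype.mem_piFinset.2 fun i => ?_)
        have h1 := hB1 _ _ (comb_tau τ (k σ) i)
        rw [hk] at h1
        have h2 : (f (k σ, i))⁻¹ * f (k σ, σ i) = (f (k σ₀, i))⁻¹ * f (k σ₀, σ i) := by
          calc (f (k σ, i))⁻¹ * f (k σ, σ i)
              = ((f (k σ, 0))⁻¹ * f (k σ, i))⁻¹ * ((f (k σ, 0))⁻¹ * f (k σ, σ i)) := by group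
            _ = _ := by rw [ha σ σ₀ hσ i i.2.le, ha σ σ₀ hσ (σ i) (σ i).2.le]; group
        rw [h2] at h1
        obtain ⟨p, hp⟩ := (comb_conn τ).exists_walk_length_eq_dist (k σ₀, (i : ℕ)) (k σ₀, (σ i : ℕ))
        exact hT2 _ _ p (hp ▸ hB2 _ _ h1)
      · intro σ _ σ' _ h
        ext i
        exact congrArg Prod.snd (congrFun h i)
    refine this.trans ?_
    rw [Fintype.card_piFinset]
    refine (Finset.prod_le_pow_card _ _ _ fun i _ => hT1 _).trans ?_
    simp
  have c3 := Finset.card_le_mul_card_image Finset.univ _ c2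
  rw [Finset.card_univ, Fintype.card_perm, Fintype.card_fin] at c3
  have c4 := c3.trans (Nat.mul_le_mul_left _ c1)
  rw [← mul_pow] at c4
  omega

end Pool.Agent.S13418
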