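import Pool.Statements.S13419
import Pool.Agent.H6Rect

set_option autoImplicit false
open Pool Pool.MP_7aa44c_gt

namespace Pool.Agent.S13419

/-- Every Tychonoff space that is rectifiable and is a p-space (via open families in its Stone–Čech compactification) is a D-space: every neighbourhood assignment has a closed discrete kernel whose neighbourhoods cover the space. -/
theorem result :
    ∀ (X : Type) [TopologicalSpace X] [T35Space X],
      (∃ (e : X) (φ : X × X ≃ₜ X × X),
          (∀ p : X × X, (φ p).1 = p.1) ∧ ∀ x : X, φ (x, x) = (x, e)) →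
      (∃ γ : ℕ → Set (Set (StoneCech X)),
          (∀ n, ∀ U ∈ γ n, IsOpen U) ∧
          (∀ n, ∀ x : X, ∃ U ∈ γ n, stoneCechUnit x ∈ U) ∧
          ∀ x : X, (⋂ n, ⋃₀ {U | U ∈ γ n ∧ stoneCechUnit x ∈ U}) ⊆
            Set.range (stoneCechUnit : X → StoneCech X)) →
      ∀ N : X → Set X, (∀ x, N x ∈ nhds x) →
        ∃ D : Set X, IsClosed D ∧ DiscreteTopology D ∧ (⋃ x ∈ D, N x) = Set.univ := by
  intro X _ _ h1 h2 N hN
  obtain ⟨p, q, F, U, a1, a2, a3, a4, -, a6, a7, a8, a9⟩ := H6Rect.setup h1 h2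
  exact H6Rect.dsp2 p q F U a1 a2 a3 a4 a6 a7 a8 a9 N hN

end Pool.Agent.S13419
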