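import Pool.Statements.S13425
import Pool.Agent.Lib.helper19.HalfSL

set_option autoImplicit false
open Pool Pool.MP_7baebc_gt

namespace Pool.Agent.S13425


/-- There is a subset E of the hyperbolic plane such that two isometric copies of E partition the plane, and also continuum many isometric copies of E, indexed by the reals, partition the plane. -/
theorem result :
    ∃ E : Set UpperHalfPlane,
      (∃ g h : UpperHalfPlane ≃ᵢ UpperHalfPlane,
          Disjoint (⇑g '' E) (⇑h '' E) ∧ ⇑g '' E ∪ ⇑h '' E = Set.univ) ∧
      (∃ f : ℝ → (UpperHalfPlane ≃ᵢ UpperHalfPlane),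
          Pairwise (fun r s => Disjoint (⇑(f r) '' E) (⇑(f s) '' E)) ∧
          (⋃ r : ℝ, ⇑(f r) '' E) = Set.univ) := by
  obtain ⟨a, col, h⟩ := Pool.Agent.Lib.helper19.HalfSL.exists_colouring
  obtain ⟨e⟩ : Nonempty (ℝ ≃ Option ℝ) := by
    rw [← Cardinal.eq, Cardinal.mk_option, Cardinal.mk_real,
      Cardinal.add_one_eq Cardinal.aleph0_le_continuum]
  let F : Option ℝ → (UpperHalfPlane ≃ᵢ UpperHalfPlane) := fun o =>
    match o with
    | none => IsometryEquiv.refl _
    | some i => IsometryEquiv.constSMul (a (some i))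
  have hF : ∀ o, ⇑(F o) '' {x | col x = none} = {x | col x = o} := by
    intro o
    cases o with
    | none => exact Set.image_id _
    | some i =>
      ext y
      constructor
      · rintro ⟨x, hx, rfl⟩
        exact (h (some i) x).2 hx
      · intro hy
        refine ⟨(a (some i))⁻¹ • y, ?_, by simp [F]⟩
        have := h (some i) ((a (some i))⁻¹ • y)
        rw [smul_inv_smul] at this
        exact this.1 hy
  have hg : ⇑(IsometryEquiv.constSMul (a none) : UpperHalfPlane ≃ᵢ UpperHalfPlane) ''
      {x | col x = none} = {x | col x = none}ᶜ := by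
    ext y
    constructor
    · rintro ⟨x, hx, rfl⟩ hy
      exact (h none x).1 hy hx
    · intro hy
      refine ⟨(a none)⁻¹ • y, ?_, by simp⟩
      have := h none ((a none)⁻¹ • y)
      rw [smul_inv_smul] at this
      by_contra h2
      exact hy (this.2 h2)
  refine ⟨{x | col x = none}, ⟨F none, IsometryEquiv.constSMul (a none), ?_, ?_⟩,
    ⟨fun r => F (e r), ?_, ?_⟩⟩
  · exact (hF none).symm ▸ hg.symm ▸ disjoint_compl_right
  · exact (hF none).symm ▸ hg.symm ▸ Set.union_compl_self _
  · intro r s hrs
    refine Set.disjoint_left.2 fun x h1 h2 => hrs (e.injective ?_)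
    have h1' : x ∈ {x | col x = e r} := hF (e r) ▸ h1
    have h2' : x ∈ {x | col x = e s} := hF (e s) ▸ h2
    exact (show col x = e r from h1').symm.trans h2'
  · refine Set.eq_univ_of_forall fun x => Set.mem_iUnion.2 ⟨e.symm (col x), ?_⟩
    have : x ∈ {y | col y = e (e.symm (col x))} := by simp
    exact (hF _).symm ▸ this


end Pool.Agent.S13425
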