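import Pool.Statements.S13450
import Pool.Agent.Lib.helper5.UCech

set_option autoImplicit false
open TopologicalSpace
open Pool Pool.MP_7e4554_gt

namespace Pool.Agent.S13450

/-- The negation of the preceding statement: For all metrizable X, Y (in Type), if C_p(X) and C_p(Y) (continuous real functions with the pointwise/product uniformity) are uniformly homeomorphic, then X is completely metrizable iff Y is. -/
theorem result :
    ¬ (∀ (X Y : Type) [TopologicalSpace X] [MetrizableSpace X]
      [TopologicalSpace Y] [MetrizableSpace Y],
      Nonempty (UniformEquiv {f : X → ℝ // Continuous f} {g : Y → ℝ // Continuous g}) →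
        (IsCompletelyMetrizableSpace X ↔ IsCompletelyMetrizableSpace Y)) := by
  exact fun h => H5Sp.X_not ((h _ _ H5Sp.uequiv).2 H5Sp.Y_complete)

end Pool.Agent.S13450
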