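import Pool.Statements.S13466

set_option autoImplicit false
open Pool Pool.MP_812062_gt

namespace Pool.Agent.S13466

section
open Set Filter Topology

noncomputable def r (s : ℝ) : ℝ × ℂ := (Real.exp (-s), Complex.exp (Real.pi * s * Complex.I))

lemma r_cont : Continuous r := by unfold r; fun_prop

def p0 : ℝ × ℂ := (0, 1)

def XS (D : Set ℝ) : Set (ℝ × ℂ) := insert p0 (r '' D)

lemma XS_conn {D : Set ℝ} (hD : IsPreconnected D) (hN : ∀ n : ℕ, (2 * n : ℝ) ∈ D) :
    IsConnected (XS D) := by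
  refine ⟨⟨p0, Or.inl rfl⟩, (hD.image r r_cont.continuousOn).subset_closure
    (subset_insert _ _) (insert_subset ?_ subset_closure)⟩
  refine mem_closure_of_tendsto (b := atTop) (f := fun n : ℕ => r (2 * n)) ?_
    (.of_forall fun n => ⟨_, hN n, rfl⟩)
  refine Tendsto.prodMk_nhds ?_ ?_
  · exact Real.tendsto_exp_neg_atTop_nhds_zero.comp
      (tendsto_natCast_atTop_atTop.const_mul_atTop (by norm_num))
  · refine tendsto_const_nhds.congr fun n => ?_
    have := Complex.exp_nat_mul_two_pi_mul_I n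
    rw [← this]
    congr 1
    push_cast
    ring

lemma r_dist (s : ℝ) : 2 ≤ dist (r s) (r (s + 1)) := by
  rw [Prod.dist_eq]
  refine le_trans (le_of_eq ?_) (le_max_right _ _)
  simp only [r]
  have : Complex.exp (Real.pi * ((s + 1 : ℝ) : ℂ) * Complex.I) =
      -Complex.exp (Real.pi * s * Complex.I) := by
    rw [show (Real.pi * ((s + 1 : ℝ) : ℂ) * Complex.I) =
      Real.pi * s * Complex.I + Real.pi * Complex.I by push_cast; ring, Complex.exp_add,
      Complex.exp_pi_mul_I]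
    ring
  rw [this, dist_eq_norm, sub_neg_eq_add, ← two_mul, norm_mul]
  have h2 := Complex.norm_exp_ofReal_mul_I (Real.pi * s)
  push_cast at h2
  rw [h2]
  simp

lemma fst_inj {D : Set ℝ} {x y : ↥(XS D)} (h : x.1.1 = y.1.1) : x = y := by
  apply Subtype.ext
  rcases x.2 with e | ⟨s, -, e⟩ <;> rcases y.2 with e' | ⟨t, -, e'⟩
  · rw [e, e']
  · rw [e, ← e'] at h
    exact absurd h (Real.exp_pos _).ne
  · rw [← e, e'] at h
    exact absurd h (Real.exp_pos _).ne'
  · rw [← e, ← e'] at h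
    have : -s = -t := Real.exp_injective h
    rw [← e, ← e', neg_injective this]

lemma fst_nonneg {D : Set ℝ} (x : ↥(XS D)) : 0 ≤ x.1.1 := by
  rcases x with ⟨_, rfl | ⟨s, -, rfl⟩⟩
  · exact le_rfl
  · exact (Real.exp_pos _).le

lemma zero_of {D : Set ℝ} (Z : Set (↥(XS D) × ↥(XS D))) (hZ : IsConnected Z)
    {a b : ↥(XS D) × ↥(XS D)} (ha : a ∈ Z) (hb : b ∈ Z) (h1 : a.1.1.1 ≤ a.2.1.1)
    (h2 : b.2.1.1 ≤ b.1.1.1) : ⨅ p ∈ Z, edist p.1 p.2 = 0 := by
  obtain ⟨c, hc, hc'⟩ := hZ.isPreconnected.intermediate_value₂ ha hb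
    (f := fun p => p.1.1.1) (g := fun p => p.2.1.1) (by fun_prop) (by fun_prop) h1 h2
  refine le_antisymm (iInf₂_le_of_le c hc ?_) bot_le
  rw [fst_inj hc', edist_self]

def ZZ (D : Set ℝ) (hD : ∀ s ∈ D, s + 1 ∈ D) : Set (↥(XS D) × ↥(XS D)) :=
  range fun s : D => (⟨r s, Or.inr ⟨s, s.2, rfl⟩⟩, ⟨r (s + 1), Or.inr ⟨s + 1, hD _ s.2, rfl⟩⟩)

lemma ZZ_conn (D : Set ℝ) (hD : ∀ s ∈ D, s + 1 ∈ D) (hc : IsConnected D) :
    IsConnected (ZZ D hD) := by
  haveI := Subtype.connectedSpace hc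
  refine isConnected_range ?_
  have := r_cont
  fun_prop

lemma ZZ_pos (D : Set ℝ) (hD : ∀ s ∈ D, s + 1 ∈ D) :
    (2 : ENNReal) ≤ ⨅ p ∈ ZZ D hD, edist p.1 p.2 := by
  refine le_iInf₂ ?_
  rintro _ ⟨s, rfl⟩
  rw [edist_dist, ← ENNReal.ofReal_ofNat]
  exact ENNReal.ofReal_le_ofReal (r_dist s)

end

/-- The negation of the preceding statement: For every connected metric space X, the span (sup over connected Z in X×X with equal projections of the min distance between coordinates) is at most twice the surjective span (same, with both projections onto X). -/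
theorem result :
    ¬ (∀ (X : Type) [MetricSpace X] [ConnectedSpace X],
      (⨆ (Z : Set (X × X)) (_ : IsConnected Z) (_ : Prod.fst '' Z = Prod.snd '' Z),
          ⨅ p ∈ Z, edist p.1 p.2)
        ≤ 2 * ⨆ (Z : Set (X × X)) (_ : IsConnected Z)
            (_ : Prod.fst '' Z = Set.univ ∧ Prod.snd '' Z = Set.univ),
            ⨅ p ∈ Z, edist p.1 p.2) := by
  intro H
  haveI := Subtype.connectedSpace (XS_conn isPreconnected_univ (fun n => Set.mem_univ _))
  have h := H ↥(XS Set.univ)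
  have hz : (⨆ (Z : Set (↥(XS Set.univ) × ↥(XS Set.univ))) (_ : IsConnected Z)
      (_ : Prod.fst '' Z = Set.univ ∧ Prod.snd '' Z = Set.univ), ⨅ p ∈ Z, edist p.1 p.2) = 0 := by
    refine le_antisymm (iSup_le fun Z => iSup_le fun hZ => iSup_le fun hZ' => le_of_eq ?_) bot_le
    obtain ⟨a, ha, ha'⟩ : (⟨p0, Or.inl rfl⟩ : ↥(XS Set.univ)) ∈ Prod.fst '' Z := by
      rw [hZ'.1]; trivial
    obtain ⟨b, hb, hb'⟩ : (⟨p0, Or.inl rfl⟩ : ↥(XS Set.univ)) ∈ Prod.snd '' Z := by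
      rw [hZ'.2]; trivial
    refine zero_of Z hZ ha hb ?_ ?_
    · rw [ha']; exact fst_nonneg _
    · rw [hb']; exact fst_nonneg _
  rw [hz, mul_zero] at h
  have h2 := (ZZ_pos Set.univ (fun _ _ => trivial)).trans
    (le_trans (le_iSup₂_of_le (f := fun (Z : Set (↥(XS Set.univ) × ↥(XS Set.univ)))
      (_ : IsConnected Z) => ⨆ (_ : Prod.fst '' Z = Prod.snd '' Z), ⨅ p ∈ Z, edist p.1 p.2)
      (ZZ Set.univ (fun _ _ => trivial)) (ZZ_conn _ _ isConnected_univ)
      (le_iSup_of_le (by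
        ext x
        constructor
        · rintro ⟨_, ⟨s, rfl⟩, rfl⟩
          exact ⟨_, ⟨⟨s - 1, trivial⟩, rfl⟩, Subtype.ext (by simp)⟩
        · rintro ⟨_, ⟨s, rfl⟩, rfl⟩
          exact ⟨_, ⟨⟨s + 1, trivial⟩, rfl⟩, rfl⟩) le_rfl)) h)
  simp at h2

end Pool.Agent.S13466
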