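import Pool.Statements.S13478
import Pool.Agent.Lib.helper17.PB1

set_option autoImplicit false
open Pool Pool.MP_8403e4_gt

namespace Pool.Agent.S13478

open Set Filter Topology TopologicalSpace Pool.Agent.Lib.helper17.PB

lemma bdd_lim {α : Type} (u : Ultrafilter α) (g : α → ℝ) (M : ℝ) (h : ∀ a, |g a| ≤ M) :
    ∃ c, Tendsto g u (𝓝 c) := by
  obtain ⟨c, -, hc⟩ := (isCompact_Icc (a := -M) (b := M)).ultrafilter_le_nhds (u.map g)
    (le_principal_iff.2 (show g ⁻¹' _ ∈ (u : Filter α) from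
      Eventually.of_forall fun a => abs_le.1 (h a)))
  exact ⟨c, hc⟩

lemma fspace {α : Type} (q : Ultrafilter α) (r : Filter α) [CountableInterFilter r]
    (f : X (LP (↑q ⊔ r)) → ℝ) (hf : Continuous f) (g : {y // f y ≠ 0} → ℝ) (hg : Continuous g)
    (hM : ∃ M : ℝ, ∀ y, |g y| ≤ M) : ∃ h : X (LP (↑q ⊔ r)) → ℝ, Continuous h ∧
      (∃ M : ℝ, ∀ y, |h y| ≤ M) ∧ ∀ y : {y // f y ≠ 0}, h y.1 = g y := by
  classical
  obtain ⟨M, hM⟩ := hM
  have gd := good_LP (↑q ⊔ r)
  let G : ℝ → X (LP (↑q ⊔ r)) → ℝ := fun c y => if h : f y ≠ 0 then g ⟨y, h⟩ else c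
  have b : ∀ c y, |G c y| ≤ |M| + |c| := fun c y => by
    simp only [G]
    split_ifs with h
    · exact (hM _).trans ((le_abs_self M).trans (le_add_of_nonneg_right (abs_nonneg c)))
    · exact le_add_of_nonneg_left (abs_nonneg M)
  obtain ⟨c, hc⟩ := bdd_lim q (G 0 ∘ pt gd) _ fun a => b 0 _
  have ca : ∀ y, f y ≠ 0 → Tendsto (G c ∘ pt gd) y.1 (𝓝 (G c y)) := fun y hy => by
    have : ContinuousOn (G c) {y | f y ≠ 0} := continuousOn_iff_continuous_domRestrict.2
      (hg.congr fun z => Eq.symm (show G c z.1 = g z from dif_pos z.2))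
    exact (this.continuousAt ((isOpen_ne_fun hf continuous_const).mem_nhds hy)).tendsto.comp
      (tendsto_pt gd y)
  obtain ⟨H, h1, h2⟩ := extend (L := LP (↑q ⊔ r)) (g := G c ∘ pt gd) fun F => by
    by_cases hF : f F ≠ 0
    · exact ⟨_, ca F hF⟩
    rcases pt_cases F with ⟨-, u, e⟩ | e
    · rw [← e]; exact bdd_lim u _ _ fun a => b c _
    refine ⟨c, ?_⟩
    have t := hf.continuousAt.tendsto.comp (tendsto_pt gd F)
    rw [e] at t ⊢
    refine tendsto_sup.2 ⟨?_, ?_⟩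
    · rcases q.mem_or_compl_mem {a | f (pt gd a) ≠ 0} with k | k
      · exact hc.congr' (mem_of_superset k fun a ha => (dif_pos ha).trans (dif_pos ha).symm)
      · exact tendsto_const_nhds.congr' (mem_of_superset k fun a ha => (dif_neg ha).symm)
    · have t := (tendsto_sup.1 t).2
      rw [not_not.1 hF] at t
      have k : ∀ᶠ a in r, ∀ n : ℕ, |f (pt gd a)| < 1 / ((n : ℝ) + 1) :=
        eventually_countable_forall.2 fun n => by
          simpa using Metric.tendsto_nhds.1 t _ (Nat.one_div_pos_of_nat (n := n))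
      refine tendsto_const_nhds.congr' (k.mono fun a ha => ?_)
      have z : ¬ f (pt gd a) ≠ 0 := fun hn => by
        obtain ⟨n, hn⟩ := exists_nat_one_div_lt (abs_pos.2 hn)
        exact lt_asymm hn (ha n)
      exact Eq.symm (show G c (pt gd a) = c from dif_neg z)
  refine ⟨H, h1, ⟨|M| + |c|, fun F => ?_⟩, fun y => ?_⟩
  · have := F.2.1
    exact le_of_tendsto' (h2 F).abs fun a => b c _
  · have := y.1.2.1
    exact (tendsto_nhds_unique (h2 y) (ca y y.2)).trans (dif_pos y.2)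

/-- The negation of the preceding statement: Any Tychonoff space with a cocompact pretty base of clopen sets that embeds in some Tychonoff F-space is basically disconnected: the closure of any countable union of clopen sets is clopen. -/
theorem result :
    ¬ (∀ (X : Type) [TopologicalSpace X] [T35Space X],
    (∃ 𝓑 : Set (Set X),
      (∀ B ∈ 𝓑, IsClopen B) ∧
      TopologicalSpace.IsTopologicalBasis 𝓑 ∧
      (∀ C D : Set (Set X), C ⊆ 𝓑 → C.Countable → D ⊆ 𝓑 →
        (∀ U ∈ C, ∀ V ∈ D, Disjoint U V) →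
        ∃ W ∈ 𝓑, (∀ U ∈ C, U ⊆ W) ∧ ∀ V ∈ D, Disjoint W V) ∧
      @CompactSpace X (TopologicalSpace.generateFrom ((fun B : Set X => (closure B)ᶜ) '' 𝓑))) →
    (∃ (Y : Type) (_ : TopologicalSpace Y), T35Space Y ∧
      (∀ f : Y → ℝ, Continuous f →
        ∀ g : {y : Y // f y ≠ 0} → ℝ, Continuous g → (∃ M : ℝ, ∀ y, |g y| ≤ M) →
          ∃ h : Y → ℝ, Continuous h ∧ (∃ M : ℝ, ∀ y, |h y| ≤ M) ∧
            ∀ y : {y : Y // f y ≠ 0}, h y.1 = g y) ∧
      ∃ e : X → Y, Topology.IsEmbedding e) →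
    ∀ s : ℕ → Set X, (∀ n, IsClopen (s n)) → IsClopen (closure (⋃ n, s n))) := by
  intro H
  have nb : NeBot (cocountable ⊓ comap (Prod.fst : ℕ × ℝ → ℕ) cofinite) := by
    refine ⟨fun e => ?_⟩
    obtain ⟨S, hS, _, ⟨T, hT, hT'⟩, h⟩ := inf_eq_bot_iff.1 e
    obtain ⟨n, hn⟩ := Filter.nonempty_of_mem hT
    refine not_countable_univ (α := ℝ) (((mem_cocountable.1 hS).preimage_of_injOn
      (f := fun x : ℝ => (n, x)) fun _ _ _ _ e => (Prod.ext_iff.1 e).2).mono ?_)
    intro x _ hx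
    exact (h ▸ mem_inter hx (hT' hn) : (n, x) ∈ (∅ : Set (ℕ × ℝ)))
  have nc : (cocountable : Filter ℝ).NeBot := ⟨fun e => not_countable_univ (α := ℝ)
    (by simpa using mem_cocountable.1 (e ▸ mem_bot : (∅ : Set ℝ) ∈ cocountable))⟩
  have ci : CountableInterFilter (cocountable : Filter ℝ) := ⟨fun S h1 h2 => by
    rw [mem_cocountable, compl_sInter]
    exact (h1.image _).sUnion (by rintro _ ⟨t, ht, rfl⟩; exact mem_cocountable.1 (h2 t ht))⟩
  let q := Ultrafilter.of (cocountable ⊓ comap (Prod.fst : ℕ × ℝ → ℕ) cofinite)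
  have hq := le_inf_iff.1 (Ultrafilter.of_le (cocountable ⊓ comap (Prod.fst : ℕ × ℝ → ℕ) cofinite))
  let r : Filter (ℕ × ℝ) := map (fun x => (0, x)) cocountable
  have ci' : CountableInterFilter r := inferInstanceAs (CountableInterFilter (map _ _))
  have hp : ↑q ⊔ r ≤ cocountable := sup_le hq.1 fun S hS => mem_cocountable.2
    ((mem_cocountable.1 hS).preimage_of_injOn (f := fun x : ℝ => ((0 : ℕ), x))
      fun _ _ _ _ e => (Prod.ext_iff.1 e).2)
  have g := good_LP (↑q ⊔ r)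
  have k : ∀ n, {a : ℕ × ℝ | a.1 = n}ᶜ ∈ (q : Filter _) := fun n =>
    hq.2 ⟨{n}ᶜ, (finite_singleton n).compl_mem_cofinite, subset_rfl⟩
  have c := H (X (LP (↑q ⊔ r))) ⟨_, clopen_basis, basis, pretty g, cocompact g⟩
    ⟨_, inferInstance, inferInstance, fspace q r, id, IsEmbedding.id⟩
    (fun n => hat _ {a | a.1 = n + 1}) fun n => clopen_hat fun F => by
      rcases pt_cases F with ⟨-, u, e⟩ | e
      · rw [← e]; exact u.mem_or_compl_mem _
      · rw [e]; exact Or.inr ⟨k _, mem_map.2 (Eventually.of_forall fun x => by simp)⟩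
  let P : X (LP (↑q ⊔ r)) := ⟨↑q ⊔ r, isPt_p hp⟩
  have hP : P ∈ closure (⋃ n, hat (LP (↑q ⊔ r)) {a | a.1 = n + 1}) :=
    mem_closure_of_tendsto ((tendsto_pt g P).mono_left le_sup_left) (mem_of_superset (k 0)
      fun a ha => mem_iUnion.2 (Nat.exists_eq_succ_of_ne_zero ha))
  obtain ⟨_, ⟨B, -, rfl⟩, h1, h2⟩ := basis.exists_subset_of_mem_open hP c.2
  obtain ⟨x, hx⟩ := Filter.nonempty_of_mem (show (fun x : ℝ => ((0 : ℕ), x)) ⁻¹' B ∈ cocountable from h1.2)
  obtain ⟨F, h3, h4⟩ := mem_closure_iff.1 (h2 (show pt g (0, x) ∈ _ from hx)) _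
    (open_hat {(0, x)}) rfl
  obtain ⟨n, h4⟩ := mem_iUnion.1 h4
  have := F.2.1
  obtain ⟨_, rfl, h5⟩ := Filter.nonempty_of_mem (inter_mem h3 h4)
  simp at h5

end Pool.Agent.S13478
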