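import Pool.Statements.S13490
import Pool.Agent.Lib.helper5.UAleph

set_option autoImplicit false
open Pool Pool.MP_866953_gt

namespace Pool.Agent.S13490

/-- The negation of the preceding statement: For Tychonoff spaces X and Y, suppose X has a countable k-network and C_p(X), C_p(Y) (pointwise topology, pointwise uniformity) are uniformly homeomorphic. Then Y also has a countable k-network, i.e. being an ℵ0-space is u-invariant. -/
theorem result :
    ¬ (∀ (X Y : Type) [TopologicalSpace X] [TopologicalSpace Y] [T35Space X] [T35Space Y],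
      (∃ N : Set (Set X), N.Countable ∧
        ∀ K U : Set X, IsCompact K → IsOpen U → K ⊆ U →
          ∃ F : Finset (Set X), (↑F : Set (Set X)) ⊆ N ∧
            K ⊆ ⋃₀ (↑F : Set (Set X)) ∧ ⋃₀ (↑F : Set (Set X)) ⊆ U) →
      Nonempty (UniformEquiv {f : X → ℝ // Continuous f} {g : Y → ℝ // Continuous g}) →
      (∃ N : Set (Set Y), N.Countable ∧
        ∀ K U : Set Y, IsCompact K → IsOpen U → K ⊆ U →
          ∃ F : Finset (Set Y), (↑F : Set (Set Y)) ⊆ N ∧
            K ⊆ ⋃₀ (↑F : Set (Set Y)) ∧ ⋃₀ (↑F : Set (Set Y)) ⊆ U)) := by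
  classical
  refine fun h => H5Sp.notY (h (H5Sp.OS H5Sp.FX) _ ⟨Set.range singleton, ?_, fun K U hK _ hU => ?_⟩
    H5Sp.ualeph)
  · have : Countable (H5Sp.OS H5Sp.FX) := inferInstanceAs (Countable (Option H5Sp.DT))
    exact Set.countable_range _
  · refine ⟨(H5Sp.finX hK).toFinset.image singleton, ?_, fun x hx => ⟨{x}, ?_, rfl⟩, ?_⟩
    · intro S hS
      obtain ⟨x, -, rfl⟩ := Finset.mem_image.1 hS
      exact ⟨x, rfl⟩
    · exact Finset.mem_coe.2 (Finset.mem_image_of_mem _ ((Set.Finite.mem_toFinset _).2 hx))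
    · rintro y ⟨S, hS, hy⟩
      obtain ⟨x, hx, rfl⟩ := Finset.mem_image.1 hS
      exact hU (Set.mem_singleton_iff.1 hy ▸ (Set.Finite.mem_toFinset _).1 hx)

end Pool.Agent.S13490
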