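import Pool.Statements.S13540
import Pool.Agent.Lib.helper5.Sat

set_option autoImplicit false
universe u
open Pool Pool.MP_8bbda9_gt

namespace Pool.Agent.S13540

/-- The negation of the preceding statement: For Tychonoff spaces X and Y whose spaces of continuous real functions with the pointwise topology are homeomorphic, if every countable subset of X is closed, then every countable subset of Y is closed. -/
theorem result :
    ¬ (∀ (X Y : Type u) [TopologicalSpace X] [TopologicalSpace Y] [T35Space X] [T35Space Y],
      Nonempty ({f : X → ℝ // Continuous f} ≃ₜ {g : Y → ℝ // Continuous g}) →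
      (∀ s : Set X, s.Countable → IsClosed s) →
      ∀ t : Set Y, t.Countable → IsClosed t) := by
  intro h
  obtain ⟨X, Y, _, _, _, _, e, h1, s, h2, h3⟩ := H5E.cclosed.{u}
  exact h3 (h X Y ⟨e.homeo.choose⟩ h1 s h2)

end Pool.Agent.S13540
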