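import Pool.Statements.S13550
import Pool.Agent.Lib.helper4.Moore

set_option autoImplicit false
open Pool Pool.MP_8d6ae8_gt

namespace Pool.Agent.S13550

/-- The negation of the preceding statement: Every regular developable space X is completely regular if it has a coarser metrizable topology t₂ such that each point p in an open set O has an open D around p whose t₂-closure lies in O. -/
theorem result :
    ¬ (∀ (X : Type) (t : TopologicalSpace X),
      @RegularSpace X t →
      (∃ G : ℕ → Set (Set X),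
          (∀ n : ℕ, ∀ U ∈ G n, @IsOpen X t U) ∧
          (∀ n : ℕ, ⋃₀ G n = Set.univ) ∧
          ∀ x : X, ∀ O : Set X, @IsOpen X t O → x ∈ O →
            ∃ n : ℕ, ⋃₀ {U ∈ G n | x ∈ U} ⊆ O) →
      (∃ t₂ : TopologicalSpace X, t ≤ t₂ ∧
          @TopologicalSpace.MetrizableSpace X t₂ ∧
          ∀ p : X, ∀ O : Set X, @IsOpen X t O → p ∈ O →
            ∃ D : Set X, @IsOpen X t D ∧ p ∈ D ∧ @closure X t₂ D ⊆ O) →
      @CompletelyRegularSpace X t) := by
  intro h
  open Lib.helper4.Moore in
  refine not_cr (h X inferInstance ?_ ?_ ?_)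
  · open Lib.helper4.Moore in
    refine RegularSpace.of_exists_mem_nhds_isClosed_subset fun z s hs => ?_
    open Lib.helper4.Moore in
    obtain ⟨O, h1, h2, h3⟩ := mem_nhds_iff.1 hs
    obtain ⟨n, hn⟩ := h2 z h3
    open Lib.helper4.Moore in
    exact ⟨hh ⁻¹' closure (hh '' Nb (n + 1) z), Filter.mem_of_superset ((Nb_open (n + 1) z).mem_nhds (Nb_self _ _))
      (fun w hw => subset_closure ⟨w, hw, rfl⟩), isClosed_closure.preimage hh_cont,
      (small z n).trans (hn.trans h1)⟩
  · open Lib.helper4.Moore in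
    refine ⟨fun n => Set.range (Nb n), ?_, fun n => Set.eq_univ_of_forall fun z =>
      ⟨_, ⟨z, rfl⟩, Nb_self n z⟩, fun z O hO hz => ?_⟩
    · rintro n _ ⟨z, rfl⟩
      exact Lib.helper4.Moore.Nb_open n z
    · obtain ⟨n, hn⟩ := hO z hz
      obtain ⟨m, hm⟩ := Lib.helper4.Moore.star_small z
      refine ⟨max n m, ?_⟩
      rintro w ⟨_, ⟨⟨y, rfl⟩, hy⟩, hw⟩
      rw [hm _ (le_max_right _ _) y hy] at hw
      exact hn (Lib.helper4.Moore.Nb_anti z (le_max_left _ _) hw)
  · open Lib.helper4.Moore in
    refine ⟨TopologicalSpace.induced hh inferInstance, hh_cont.le_induced,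
      @Topology.IsEmbedding.metrizableSpace _ _ (TopologicalSpace.induced hh inferInstance) _ _ hh
        (@Topology.IsEmbedding.mk _ _ (TopologicalSpace.induced hh inferInstance) _ hh
          (@Topology.IsInducing.mk _ _ (TopologicalSpace.induced hh inferInstance) _ hh rfl) hh_inj),
      fun z O hO hz => ?_⟩
    obtain ⟨n, hn⟩ := hO z hz
    open Lib.helper4.Moore in
    exact ⟨_, Nb_open (n + 1) z, Nb_self _ _, fun w hw =>
      hn (small z n (closure_induced.1 hw))⟩

end Pool.Agent.S13550
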