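import Pool.Statements.S13555

set_option autoImplicit false
open Pool Pool.MP_8dda54_gt

namespace Pool.Agent.S13555

open Matrix Set

abbrev M3 := Matrix (Fin 3) (Fin 3) ℝ

abbrev E3 := EuclideanSpace ℝ (Fin 3)

def SO : Set M3 := {A | A * Aᵀ = 1 ∧ A.det = 1}

lemma so {A : M3} : A ∈ specialOrthogonalGroup (Fin 3) ℝ ↔ A ∈ SO := by
  rw [mem_specialOrthogonalGroup_iff, mem_orthogonalGroup_iff]
  rfl

lemma cay {X Y : M3} (hX : X ∈ SO) (hY : Y ∈ SO) (h : (X + Y).det ≠ 0) : JoinedIn SO X Y := by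
  have x' := mul_eq_one_comm.1 hX.1
  have y' := mul_eq_one_comm.1 hY.1
  let B : ℝ → M3 := fun t => (1 + t) • X + (1 - t) • Y
  let C : ℝ → M3 := fun t => (1 - t) • X + (1 + t) • Y
  have hB : ∀ t ∈ Icc (0 : ℝ) 1, (B t).det ≠ 0 := fun t ht h0 => by
    rcases ht.1.eq_or_lt with rfl | t0
    · simp [B, h] at h0
    obtain ⟨v, v0, hv⟩ := exists_mulVec_eq_zero_iff.2 h0
    have n : ∀ A : M3, Aᵀ * A = 1 → A *ᵥ v ⬝ᵥ A *ᵥ v = v ⬝ᵥ v := fun A hA => by
      rw [dotProduct_mulVec, vecMul_mulVec, hA, vecMul_one]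
    have e : (1 + t) • X *ᵥ v = -((1 - t) • Y *ᵥ v) := by
      simpa [B, add_mulVec, smul_mulVec, add_eq_zero_iff_eq_neg] using hv
    have := congrArg (fun w => w ⬝ᵥ w) e
    simp only [neg_dotProduct_neg, smul_dotProduct, dotProduct_smul, n X x', n Y y', smul_eq_mul] at this
    have p : 0 < v ⬝ᵥ v := by simpa using dotProduct_star_self_pos_iff.2 v0
    nlinarith [mul_pos t0 p]
  have e : ∀ t, C t = X * (B t)ᵀ * Y := fun t => by
    simp [B, C, mul_add, add_mul, hX.1, mul_assoc, y', add_comm]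
  refine JoinedIn.ofLine (f := fun t => C t * (B t)⁻¹ * X) ?_ ?_ ?_ ?_
  · refine (ContinuousOn.mul (Continuous.continuousOn (by fun_prop)) fun t ht =>
      ContinuousAt.continuousWithinAt ?_).mul continuousOn_const
    exact ContinuousAt.comp (f := B) (continuousAt_matrix_inv _ (by
      simpa using continuousAt_inv₀ (hB t ht))) (by fun_prop)
  · simp [B, C, mul_nonsing_inv _ h.isUnit]
  · have : C 1 = Y * Xᵀ * B 1 := by simp [B, C, mul_assoc, x']
    simp only [this]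
    rw [mul_nonsing_inv_cancel_right _ _ (hB 1 (by simp)).isUnit, mul_assoc, x', mul_one]
  rintro _ ⟨t, ht, rfl⟩
  have u := (hB t ht).isUnit
  have c : (C t)ᵀ * C t = (B t)ᵀ * B t := by
    simp only [B, C, transpose_add, transpose_smul, mul_add, add_mul, Matrix.smul_mul, Matrix.mul_smul,
      x', y']
    module
  refine ⟨mul_eq_one_comm.2 ?_, by simp [e, hX.2, hY.2, hB t ht]⟩
  calc _ = Xᵀ * ((B t)⁻¹ᵀ * ((C t)ᵀ * C t) * (B t)⁻¹) * X := by simp [mul_assoc]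
    _ = 1 := by
      rw [c, mul_assoc (B t)⁻¹ᵀ, mul_nonsing_inv_cancel_right _ _ u, ← transpose_mul,
        mul_nonsing_inv _ u, transpose_one, mul_one, x']

lemma conn {X : M3} (hX : X ∈ SO) : JoinedIn SO X !![0, 0, 1; 1, 0, 0; 0, 1, 0] := by
  have k : ∀ a b : ℝ, a ^ 2 = 1 → b ^ 2 = 1 → (X + !![a, 0, 0; 0, b, 0; 0, 0, a * b]).det ≠ 0 →
      JoinedIn SO X !![0, 0, 1; 1, 0, 0; 0, 1, 0] := fun a b ha hb h => by
    have : !![a, 0, 0; 0, b, 0; 0, 0, a * b] ∈ SO := ⟨by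
      ext i j
      fin_cases i <;> fin_cases j <;> simp [mul_apply, Fin.sum_univ_three] <;> nlinarith, by
      simp [det_fin_three]
      nlinarith⟩
    refine (cay hX this h).trans (cay this ⟨by
      ext i j
      fin_cases i <;> fin_cases j <;> simp [mul_apply, Fin.sum_univ_three], by
      simp [det_fin_three]⟩ ?_)
    simp [det_fin_three]
    nlinarith
  by_contra hn
  have a := mt (k 1 1 (by simp) (by simp)) hn
  have b := mt (k 1 (-1) (by simp) (by simp)) hn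
  have c := mt (k (-1) 1 (by simp) (by simp)) hn
  have d := mt (k (-1) (-1) (by simp) (by simp)) hn
  have e := hX.2
  simp [det_fin_three] at a b c d e
  linarith

lemma iso {A : M3} (h : A ∈ SO) (v : E3) : ‖toEuclideanLin A v‖ = ‖v‖ := by
  have : A *ᵥ v.ofLp ⬝ᵥ A *ᵥ v.ofLp = v.ofLp ⬝ᵥ v.ofLp := by
    rw [dotProduct_mulVec, vecMul_mulVec, mul_eq_one_comm.1 h.1, vecMul_one]
  rw [EuclideanSpace.norm_eq, EuclideanSpace.norm_eq]
  congr 1
  simpa [dotProduct, sq] using this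

def R : Fin 6 → M3 := ![!![1, 0, 0; 0, 1, 0; 0, 0, 1], !![1, 0, 0; 0, -1, 0; 0, 0, -1],
  !![0, 0, 1; 1, 0, 0; 0, 1, 0], !![0, 0, -1; -1, 0, 0; 0, 1, 0], !![0, 1, 0; 0, 0, 1; 1, 0, 0],
  !![0, 1, 0; 0, 0, -1; -1, 0, 0]]

lemma RS (k : Fin 6) : R k ∈ SO := by
  refine ⟨?_, by fin_cases k <;> simp [R, det_fin_three]⟩
  ext i j
  fin_cases k <;> fin_cases i <;> fin_cases j <;> simp [R, mul_apply, Fin.sum_univ_three]

lemma uni (u : E3) (hu : ‖u‖ ≤ 1) : ∃ k, ∀ l ≠ k, ((R l)ᵀ *ᵥ u.ofLp) 2 ≤ 4 / 5 := by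
  have := EuclideanSpace.real_norm_sq_eq u
  rw [Fin.sum_univ_three] at this
  have h1 : u 0 ^ 2 + u 1 ^ 2 + u 2 ^ 2 ≤ 1 := by nlinarith [norm_nonneg u]
  by_contra! h
  obtain ⟨k, -, hk⟩ := h 0
  obtain ⟨l, h0, hl⟩ := h k
  fin_cases k <;> fin_cases l <;> simp [R, mulVec, dotProduct, Fin.sum_univ_three] at h0 hk hl <;>
    nlinarith

theorem result :
    ∃ d : ℕ, 3 ≤ d ∧ ∃ S : Set (EuclideanSpace ℝ (Fin d)),
      Convex ℝ S ∧ IsCompact S ∧ S.Nonempty ∧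
      (¬ ∃ a : EuclideanSpace ℝ (Fin d), S = {a}) ∧
      (¬ ∃ a b : EuclideanSpace ℝ (Fin d), a ≠ b ∧ S = segment ℝ a b) ∧
      (¬ ∃ (c : EuclideanSpace ℝ (Fin d)) (r : ℝ), 0 < r ∧ S = Metric.closedBall c r) ∧
      ∀ K : Set (EuclideanSpace ℝ (Fin d)),
        Convex ℝ K → IsCompact K → K.Nonempty →
        (∀ ρ ∈ Matrix.specialOrthogonalGroup (Fin d) ℝ,
          ∃ x : EuclideanSpace ℝ (Fin d),
            (fun v => Matrix.toEuclideanLin ρ v + x) '' S ⊆ K) →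
        ∀ ρ₀ ρ₁ : Matrix (Fin d) (Fin d) ℝ, ∀ x₀ x₁ : EuclideanSpace ℝ (Fin d),
          ρ₀ ∈ Matrix.specialOrthogonalGroup (Fin d) ℝ →
          ρ₁ ∈ Matrix.specialOrthogonalGroup (Fin d) ℝ →
          (fun v => Matrix.toEuclideanLin ρ₀ v + x₀) '' S ⊆ K →
          (fun v => Matrix.toEuclideanLin ρ₁ v + x₁) '' S ⊆ K →
          ∃ γ : ℝ → Matrix (Fin d) (Fin d) ℝ, ∃ δ : ℝ → EuclideanSpace ℝ (Fin d),
            Continuous γ ∧ Continuous δ ∧
            γ 0 = ρ₀ ∧ γ 1 = ρ₁ ∧ δ 0 = x₀ ∧ δ 1 = x₁ ∧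
            ∀ t ∈ Set.Icc (0 : ℝ) 1,
              γ t ∈ Matrix.specialOrthogonalGroup (Fin d) ℝ ∧
              (fun v => Matrix.toEuclideanLin (γ t) v + δ t) '' S ⊆ K := by
  let S : Set E3 := Metric.closedBall 0 1 ∩ {v | v 2 ≤ 4 / 5}
  have m : ∀ (i : Fin 3) (s : ℝ), |s| ≤ 1 → (i = 2 → s ≤ 4 / 5) → EuclideanSpace.single i s ∈ S :=
    fun i s h1 h2 => ⟨by simpa using h1, by
      by_cases h : i = 2
      · simpa [h] using h2 h
      · simp [Ne.symm h]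
        norm_num⟩
  refine ⟨3, le_rfl, S, (convex_closedBall _ _).inter fun x hx y hy s t hs ht hst => ?_,
    (isCompact_closedBall _ _).inter_right (isClosed_le (by fun_prop) (by fun_prop)),
    ⟨_, m 0 0 (by simp) (by simp)⟩, ?_, ?_, ?_, fun K k1 k2 _ hK ρ₀ ρ₁ x₀ x₁ r0 r1 h0 h1 => ?_⟩
  · simp only [mem_setOf_eq, PiLp.add_apply, PiLp.smul_apply, smul_eq_mul] at *
    nlinarith
  · rintro ⟨a, h⟩
    have e0 := m 0 0 (by simp) (by simp)
    have e1 := m 0 1 (by simp) (by simp)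
    rw [h, mem_singleton_iff] at e0 e1
    simpa using congrArg (fun x : E3 => x 0) (e0.trans e1.symm)
  · rintro ⟨a, b, -, h⟩
    rw [segment_eq_image'] at h
    obtain ⟨s, -, e1⟩ := h ▸ m 0 0 (by simp) (by simp)
    obtain ⟨t, -, e2⟩ := h ▸ m 0 1 (by simp) (by simp)
    obtain ⟨r, -, e3⟩ := h ▸ m 1 1 (by simp) (by simp)
    have f := fun (i : Fin 3) => And.intro (congrArg (· i) e1) (And.intro (congrArg (· i) e2) (congrArg (· i) e3))
    have f0 := f 0
    have f1 := f 1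
    simp at f0 f1
    have : (t - s) * (b 0 - a 0) * ((r - s) * (b 1 - a 1)) =
      (r - s) * (b 0 - a 0) * ((t - s) * (b 1 - a 1)) := by ring
    rw [show (t - s) * (b 0 - a 0) = 1 by linarith [f0.1, f0.2.1], show (r - s) * (b 1 - a 1) = 1 by
      linarith [f1.1, f1.2.2], show (r - s) * (b 0 - a 0) = 0 by linarith [f0.1, f0.2.2]] at this
    simp at this
  · rintro ⟨c, r, hr, h⟩
    have a := fun s (hs : |s| = 1) => pow_le_pow_left₀ dist_nonneg
      (Metric.mem_closedBall.1 (h ▸ m 0 s hs.le (by simp))) 2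
    have b := fun s (hs : |s| = r) => pow_le_pow_left₀ (norm_nonneg _) (mem_closedBall_zero_iff.1
      (h.symm ▸ (by simp [hs] : c + EuclideanSpace.single 2 s ∈ Metric.closedBall c r) : _ ∈ S).1) 2
    have d := (h.symm ▸ (by simp [abs_of_pos hr] :
      c + EuclideanSpace.single 2 r ∈ Metric.closedBall c r) : _ ∈ S).2
    have a1 := a 1 (by simp)
    have a2 := a (-1) (by simp)
    have b1 := b r (abs_of_pos hr)
    have b2 := b (-r) (by simp [abs_of_pos hr])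
    simp [dist_eq_norm, EuclideanSpace.real_norm_sq_eq, Fin.sum_univ_three] at a1 a2 b1 b2 d
    nlinarith [sq_nonneg (c 0), sq_nonneg (c 1), sq_nonneg (c 2), sq_nonneg (c 2 + r)]
  obtain ⟨c, hc⟩ := Convex.helly_theorem_compact' (𝕜 := ℝ)
    (F := fun u : Metric.closedBall (0 : E3) 1 => (· + u.1) ⁻¹' K)
    (fun u => k1.translate_preimage_left _)
    (fun u => (Homeomorph.addRight u.1).isCompact_preimage.2 k2) fun I hI => by
      choose k hk using fun u : Metric.closedBall (0 : E3) 1 => uni u (mem_closedBall_zero_iff.1 u.2)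
      obtain ⟨l, -, hl⟩ := Finset.exists_mem_notMem_of_card_lt_card (s := I.image k) (t := .univ)
        (Finset.card_image_le.trans_lt (hI.trans_lt (by simp)))
      obtain ⟨x, hx⟩ := hK _ (so.2 (RS l))
      refine ⟨x, mem_iInter₂.2 fun u hu => hx ⟨WithLp.toLp 2 ((R l)ᵀ *ᵥ u.1.ofLp), ?_⟩⟩
      have e : toEuclideanLin (R l) (WithLp.toLp 2 ((R l)ᵀ *ᵥ u.1.ofLp)) = u.1 := by
        simp [toEuclideanLin, (RS l).1]
      exact ⟨⟨by rw [mem_closedBall_zero_iff, ← iso (RS l), e]; exact mem_closedBall_zero_iff.1 u.2,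
        hk u l fun h => hl (h ▸ Finset.mem_image_of_mem k hu)⟩, by simp only [e, add_comm]⟩
  have hc : ∀ A ∈ SO, (fun v => toEuclideanLin A v + c) '' S ⊆ K := by
    rintro A hA _ ⟨v, hv, rfl⟩
    simpa [add_comm] using mem_iInter.1 hc ⟨toEuclideanLin A v, by simpa [iso hA] using hv.1⟩
  let T : Set (M3 × E3) := {p | p.1 ∈ SO ∧ (fun v => toEuclideanLin p.1 v + p.2) '' S ⊆ K}
  have tr : ∀ A ∈ SO, ∀ x, (fun v => toEuclideanLin A v + x) '' S ⊆ K → JoinedIn T (A, x) (A, c) :=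
    fun A hA x hx => JoinedIn.ofLine (f := fun t => (A, (1 - t) • x + t • c))
      (Continuous.continuousOn (by fun_prop)) (by simp) (by simp) (by
        rintro _ ⟨t, ht, rfl⟩
        refine ⟨hA, ?_⟩
        rintro _ ⟨v, hv, rfl⟩
        convert k1 (hx ⟨v, hv, rfl⟩) (hc A hA ⟨v, hv, rfl⟩) (sub_nonneg.2 ht.2) ht.1 (by simp) using 1
        simp only
        module)
  obtain ⟨p, hp⟩ := (tr _ (so.1 r0) _ h0).trans (((((conn (so.1 r0)).trans (conn (so.1 r1)).symm).map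
    (f := fun A => (A, c)) (by fun_prop)).mono (by
      rintro _ ⟨A, hA, rfl⟩
      exact ⟨hA, hc A hA⟩)).trans (tr _ (so.1 r1) _ h1).symm)
  refine ⟨fun t => (p.extend t).1, fun t => (p.extend t).2, by fun_prop, by fun_prop, by simp, by simp,
    by simp, by simp, fun t ht => ?_⟩
  simp only [p.extend_apply ht]
  exact ⟨so.2 (hp _).1, (hp _).2⟩

end Pool.Agent.S13555
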