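-- Proof of the frozen statement S13580 (negation of the problem MP_925f0d_gt).
import Pool.Statements.S13580

set_option autoImplicit false
open Pool Pool.MP_925f0d_gt

namespace Pool.Agent.S13580

open Filter Topology

/-- The time `t` map of the flow of the quadratic field `(0, x y, 0)`. -/
noncomputable def fl (t : ℝ) (x : Fin 3 → ℝ) : Fin 3 → ℝ := ![x 0, x 1 * Real.exp (t * x 0), x 2]

theorem fl_cont (t : ℝ) : Continuous (fl t) := by
  unfold fl
  refine continuous_pi fun i => ?_
  fin_cases i <;> simp <;> fun_prop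

theorem fl_add (s t : ℝ) (x : Fin 3 → ℝ) : fl s (fl t x) = fl (s + t) x := by
  funext i
  fin_cases i <;> simp [fl, add_mul, Real.exp_add, mul_comm, mul_left_comm]

theorem fl_zero (x : Fin 3 → ℝ) : fl 0 x = x := by
  funext i
  fin_cases i <;> simp [fl]

noncomputable def H : (Fin 3 → ℝ) ≃ₜ (Fin 3 → ℝ) where
  toFun := fl 1
  invFun := fl (-1)
  left_inv x := by rw [fl_add]; simp [fl_zero]
  right_inv x := by rw [fl_add]; simp [fl_zero]
  continuous_toFun := fl_cont 1
  continuous_invFun := fl_cont (-1)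

theorem phi_some (x : Fin 3 → ℝ) : H.onePointCongr (OnePoint.some x) = OnePoint.some (fl 1 x) := rfl

/-- The negation of the preceding statement: For k≥3, every continuous self-map φ of the one-point compactification of ℝ^k with (1−z)φ(x)=φ(φ(zx)(1−z)/z) for real z≠0,1 is the identity, constant 0, constant ∞, or conjugate by a 1-homogeneous homeomorphism to φ_1 or some φ_∞ with d≠0, Σd=0. -/
theorem result :
    ¬ (∀ k : ℕ, 3 ≤ k → ∀ φ : OnePoint (Fin k → ℝ) → OnePoint (Fin k → ℝ), Continuous φ →
    (∀ (x : Fin k → ℝ) (z : ℝ), z ≠ 0 → z ≠ 1 →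
      (Option.map (fun v : Fin k → ℝ => (1 - z) • v) (φ (OnePoint.some x)) : OnePoint (Fin k → ℝ)) =
        φ (Option.map (fun v : Fin k → ℝ => ((1 - z) / z) • v) (φ (OnePoint.some (z • x))))) →
    (∀ p, φ p = p) ∨ (∀ p, φ p = OnePoint.some 0) ∨ (∀ p, φ p = OnePoint.infty) ∨
    ∃ ℓ : (Fin k → ℝ) ≃ₜ (Fin k → ℝ), (∀ (c : ℝ) (x : Fin k → ℝ), ℓ (c • x) = c • ℓ x) ∧
      ((∀ x : Fin k → ℝ, φ (OnePoint.some (ℓ x)) =
          if ∑ i, (x i + 1) ^ 2 = 0 then OnePoint.infty
          else OnePoint.some (ℓ (fun j => (∑ i, x i ^ 2 + (k : ℝ) * x j) / ∑ i, (x i + 1) ^ 2))) ∨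
       ∃ d : Fin k → ℝ, d ≠ 0 ∧ ∑ i, d i = 0 ∧
         ∀ x : Fin k → ℝ, φ (OnePoint.some (ℓ x)) =
           OnePoint.some (ℓ (fun j => d j * (∑ i, x i) ^ 2 + x j)))) := by
  intro hall
  have h := hall 3 le_rfl H.onePointCongr H.onePointCongr.continuous (by
    intro x z hz hz1
    rw [phi_some, phi_some]
    change OnePoint.some ((1 - z) • fl 1 x) =
      H.onePointCongr (OnePoint.some (((1 - z) / z) • fl 1 (z • x)))
    rw [phi_some]
    congr 1
    funext i
    fin_cases i
    · simp [fl]
      field_simp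
    · simp [fl]
      have e : (1 - z) / z * (z * x 0) = x 0 - z * x 0 := by field_simp
      rw [e, Real.exp_sub]
      field_simp
    · simp [fl]
      field_simp)
  rcases h with h | h | h | ⟨l, hl, h | ⟨d, hd, hs, h⟩⟩
  · have h1 := h (OnePoint.some ![1, 1, 0])
    rw [phi_some, OnePoint.some_eq_iff] at h1
    have h2 := congrFun h1 1
    simp [fl] at h2
  · have h1 := h (OnePoint.some ![1, 1, 0])
    rw [phi_some, OnePoint.some_eq_iff] at h1
    have h2 := congrFun h1 0
    simp [fl] at h2
  · have h1 := h (OnePoint.some 0)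
    rw [phi_some] at h1
    exact OnePoint.coe_ne_infty _ h1
  · have h1 := h (fun _ => -1)
    rw [phi_some, if_pos (by simp)] at h1
    exact OnePoint.coe_ne_infty _ h1
  · have h' : ∀ x : Fin 3 → ℝ, fl 1 (l x) = l (fun j => d j * (∑ i, x i) ^ 2 + x j) := by
      intro x
      have h1 := h x
      rwa [phi_some, OnePoint.some_eq_iff] at h1
    obtain ⟨q, hq⟩ := l.surjective ![-1, 1, 0]
    have hit : ∀ n : ℕ, fl n (l q) = l (fun j => n * (d j * (∑ i, q i) ^ 2) + q j) := by
      intro n
      induction n with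
      | zero => simp [fl_zero]
      | succ n ih =>
        have e : ((n + 1 : ℕ) : ℝ) = 1 + n := by push_cast; ring
        rw [e, ← fl_add, ih, h']
        congr 1
        funext j
        have e2 : ∑ i, (n * (d i * (∑ i, q i) ^ 2) + q i) = ∑ i, q i := by
          rw [Finset.sum_add_distrib, ← Finset.mul_sum, ← Finset.sum_mul, hs]
          simp
        rw [e2]
        ring
    have hlim : Tendsto (fun n : ℕ => fl n (l q)) atTop (𝓝 ![-1, 0, 0]) := by
      rw [hq, tendsto_pi_nhds]
      intro i
      fin_cases i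
      · simp [fl]
      · simp only [fl]
        simpa using tendsto_natCast_atTop_atTop (R := ℝ)
      · simp [fl]
    have hlim2 : Tendsto (fun n : ℕ => (fun j => n * (d j * (∑ i, q i) ^ 2) + q j)) atTop
        (𝓝 (l.symm ![-1, 0, 0])) := by
      have := (l.symm.continuous.tendsto _).comp hlim
      refine this.congr fun n => ?_
      simp [hit]
    have hz : ∀ j, d j * (∑ i, q i) ^ 2 = 0 := by
      intro j
      have a1 := tendsto_pi_nhds.1 hlim2 j
      have a2 := (a1.comp (tendsto_add_atTop_nat 1)).sub a1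
      simp only [sub_self] at a2
      have a3 : Tendsto (fun _ : ℕ => d j * (∑ i, q i) ^ 2) atTop (𝓝 0) := by
        refine a2.congr fun n => ?_
        simp only [Function.comp]
        push_cast
        ring
      exact tendsto_nhds_unique tendsto_const_nhds a3
    have h1 := h' q
    simp only [hz, zero_add] at h1
    have h2 : fl 1 (l q) = l q := h1
    rw [hq] at h2
    have h3 := congrFun h2 1
    simp [fl] at h3

end Pool.Agent.S13580
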