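import Pool.Statements.S13589
import Pool.Agent.Lib.helper9.MdmGeo

set_option autoImplicit false
open Pool Pool.MP_93ef73_gt

namespace Pool.Agent.S13589

/-- There exist d, a nonempty compact totally disconnected A in R^d with two distinct Steiner trees S, T, no terminal interior to segments in both, and nonempty compact M (∣M∣=∣A∣ if A finite) and r>0 with S an r-minimizer for M. -/
theorem result :
  ∃ (d : ℕ) (A S T M : Set (EuclideanSpace ℝ (Fin d))) (r : ℝ),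
    IsCompact A ∧ A.Nonempty ∧ IsTotallyDisconnected A ∧
    (IsCompact S ∧ IsConnected S ∧ A ⊆ S ∧
      MeasureTheory.Measure.hausdorffMeasure 1 S < ⊤ ∧
      ∀ S' : Set (EuclideanSpace ℝ (Fin d)), IsCompact S' → IsConnected S' → A ⊆ S' →
        MeasureTheory.Measure.hausdorffMeasure 1 S ≤ MeasureTheory.Measure.hausdorffMeasure 1 S') ∧
    (IsCompact T ∧ IsConnected T ∧ A ⊆ T ∧
      MeasureTheory.Measure.hausdorffMeasure 1 T < ⊤ ∧
      ∀ S' : Set (EuclideanSpace ℝ (Fin d)), IsCompact S' → IsConnected S' → A ⊆ S' →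
        MeasureTheory.Measure.hausdorffMeasure 1 T ≤ MeasureTheory.Measure.hausdorffMeasure 1 S') ∧
    S ≠ T ∧
    IsCompact M ∧ M.Nonempty ∧ 0 < r ∧
    (A.Finite → M.Finite ∧ M.ncard = A.ncard) ∧
    (¬ ∃ a ∈ A,
        (∃ x y : EuclideanSpace ℝ (Fin d), x ≠ y ∧ segment ℝ x y ⊆ S ∧ a ∈ openSegment ℝ x y) ∧
        (∃ x y : EuclideanSpace ℝ (Fin d), x ≠ y ∧ segment ℝ x y ⊆ T ∧ a ∈ openSegment ℝ x y)) ∧
    (∀ y ∈ M, Metric.infDist y S ≤ r) ∧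
    ∀ W : Set (EuclideanSpace ℝ (Fin d)), IsCompact W → IsConnected W →
      (∀ y ∈ M, Metric.infDist y W ≤ r) →
        MeasureTheory.Measure.hausdorffMeasure 1 S ≤ MeasureTheory.Measure.hausdorffMeasure 1 W := by
  
  have hA : (H9M.PP H9M.bp '' Set.Iio 8).Finite := (Set.finite_Iio 8).image _
  have hM : (H9M.YY H9M.bp H9M.bn (1 / 100) '' Set.Iio 8).Finite := (Set.finite_Iio 8).image _
  have hd : ∀ j < 8, dist (H9M.PP H9M.bp j) (H9M.YY H9M.bp H9M.bn (1 / 100) j) = 1 / 100 :=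
    fun j hj => H9M.dist_YY _ _ (by norm_num) (H9M.bn_ne j hj)
  have hS := H9M.ext_len H9M.S0_len
  have hT := H9M.ext_len H9M.T0_len
  have hlow : ∀ S' : Set H9M.E, IsConnected S' → H9M.PP H9M.bp '' Set.Iio 8 ⊆ S' →
      ENNReal.ofReal (20 + 12 * √3) ≤ MeasureTheory.Measure.hausdorffMeasure 1 S' :=
    fun S' h1 h2 => H9M.lower8 S' h1 fun j hj => ⟨_, h2 ⟨j, hj, rfl⟩, (hd j hj).le⟩
  refine ⟨2, H9M.PP H9M.bp '' Set.Iio 8, H9M.ext H9M.S0, H9M.ext H9M.T0,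
    H9M.YY H9M.bp H9M.bn (1 / 100) '' Set.Iio 8, 1 / 100, hA.isCompact, ⟨_, 0, by simp, rfl⟩,
    hA.countable.isTotallyDisconnected,
    ⟨H9M.ext_compact H9M.S0_compact, H9M.ext_conn H9M.S0_conn fun _ _ => H9M.S0_vert, ?_,
      hS.trans_lt ENNReal.ofReal_lt_top, fun S' _ h2 h3 => hS.trans (hlow S' h2 h3)⟩,
    ⟨H9M.ext_compact H9M.T0_compact, H9M.ext_conn H9M.T0_conn fun _ _ => H9M.T0_vert, ?_,
      hT.trans_lt ENNReal.ofReal_lt_top, fun S' _ h2 h3 => hT.trans (hlow S' h2 h3)⟩,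
    H9M.ext_ne, hM.isCompact, ⟨_, 0, by simp, rfl⟩, by norm_num, fun _ => ⟨hM, H9M.card8⟩, ?_, ?_, ?_⟩
  · rintro _ ⟨j, hj, rfl⟩
    exact H9M.bp_mem (fun _ _ => H9M.S0_vert) hj
  · rintro _ ⟨j, hj, rfl⟩
    exact H9M.bp_mem (fun _ _ => H9M.T0_vert) hj
  · rintro ⟨_, ⟨j, hj, rfl⟩, -, x, y, h1, h2, h3⟩
    exact H9M.not_interior hj h1 h2 h3
  · rintro _ ⟨j, hj, rfl⟩
    refine (Metric.infDist_le_dist_of_mem (H9M.bp_mem (fun _ _ => H9M.S0_vert) hj)).trans ?_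
    rw [dist_comm, hd j hj]
  · intro W h1 h2 h3
    refine hS.trans (H9M.lower8 W h2 fun j hj => ?_)
    obtain ⟨x, hx, h⟩ := h1.exists_infDist_eq_dist h2.nonempty (H9M.YY H9M.bp H9M.bn (1 / 100) j)
    refine ⟨x, hx, ?_⟩
    rw [dist_comm, ← h]
    exact h3 _ ⟨j, hj, rfl⟩

end Pool.Agent.S13589
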