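import Pool.Statements.S13596

set_option autoImplicit false
open Pool Pool.MP_94b191_gt

namespace Pool.Agent.S13596

section
open Set Filter Topology Real

abbrev V : Type := ℝ × ℝ × ℝ

def S : Set V :=
  {p | p.2.2 = 1 ∧ ((p.2.1 = 0 ∧ p.1 ∈ Icc (-1 : ℝ) 1) ∨
    (0 < p.2.1 ∧ p.2.1 ≤ 1 ∧ p.1 = Real.sin (π * p.2.1⁻¹)))}

def B : Set ℝ := insert 0 (range fun k : ℕ => 1 / ((k : ℝ) + 1))

def F : Set V := (fun q : ℝ × ℝ => ((0:ℝ), q.1 * q.2, q.1)) '' (Icc 0 1 ×ˢ B)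

lemma isClosed_S : IsClosed S := by
  rw [← isSeqClosed_iff_isClosed]
  intro f ⟨x, y, r⟩ hf hlim
  rw [Prod.tendsto_iff, Prod.tendsto_iff] at hlim
  obtain ⟨lx, ly, lr⟩ := hlim
  have hr : r = 1 := isClosed_singleton.mem_of_tendsto lr (.of_forall fun n ↦ (hf n).1)
  have h0 : 0 ≤ y := by
    refine isClosed_Ici.mem_of_tendsto ly (.of_forall fun n ↦ ?_)
    rcases (hf n).2 with h | h
    · exact le_of_eq h.1.symm
    · exact h.1.le
  have h1 : y ≤ 1 := by
    refine isClosed_Iic.mem_of_tendsto ly (.of_forall fun n ↦ ?_)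
    rcases (hf n).2 with h | h
    · show (f n).2.1 ≤ 1
      rw [h.1]; exact zero_le_one
    · exact h.2.1
  refine ⟨hr, ?_⟩
  rcases h0.eq_or_lt with rfl | h
  · left
    refine ⟨rfl, isClosed_Icc.mem_of_tendsto lx (.of_forall fun n ↦ ?_)⟩
    rcases (hf n).2 with h | h
    · exact h.2
    · show (f n).1 ∈ _
      rw [h.2.2]; exact sin_mem_Icc _
  · right
    refine ⟨h, h1, ?_⟩
    have hc : ContinuousAt (fun x : ℝ ↦ Real.sin (π * x⁻¹)) y :=
      continuous_sin.continuousAt.comp <| continuousAt_const.mul (continuousAt_inv₀ h.ne')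
    refine tendsto_nhds_unique lx ?_
    refine (hc.tendsto.comp ly).congr' ?_
    filter_upwards [ly.eventually (lt_mem_nhds h)] with n hn
    rcases (hf n).2 with h' | h'
    · exact absurd h'.1 (ne_of_gt hn)
    · exact h'.2.2.symm

lemma isCompact_S : IsCompact S := by
  refine (isCompact_Icc (a := ((-1:ℝ), (0:ℝ), (0:ℝ)))
    (b := ((1:ℝ), (1:ℝ), (1:ℝ)))).of_isClosed_subset isClosed_S ?_
  rintro ⟨x, y, r⟩ ⟨hr, h | h⟩
  · simp only at h hr
    simp only [mem_Icc, Prod.mk_le_mk]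
    refine ⟨⟨?_, ?_, ?_⟩, ?_, ?_, ?_⟩ <;> linarith [h.1, h.2.1, h.2.2]
  · simp only at h hr
    have := sin_mem_Icc (π * y⁻¹)
    rw [← h.2.2] at this
    simp only [mem_Icc, Prod.mk_le_mk]
    refine ⟨⟨?_, ?_, ?_⟩, ?_, ?_, ?_⟩ <;> linarith [h.1, h.2.1, this.1, this.2]

lemma isCompact_F : IsCompact F :=
  (isCompact_Icc.prod tendsto_one_div_add_atTop_nhds_zero_nat.isCompact_insert_range).image
    (by fun_prop)

lemma B_mem {y : ℝ} (hy : y ∈ B) : 0 ≤ y ∧ y ≤ 1 := by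
  rcases hy with rfl | ⟨k, rfl⟩
  · exact ⟨le_rfl, zero_le_one⟩
  · have : (0:ℝ) ≤ k := Nat.cast_nonneg k
    refine ⟨by positivity, ?_⟩
    rw [div_le_one (by linarith)]
    linarith

abbrev X : Type := ↥(S ∪ F)

instance : CompactSpace X := isCompact_iff_compactSpace.mp (isCompact_S.union isCompact_F)

noncomputable def cl (u : ℝ) : ℝ := max 0 (min 1 u)

lemma cl_mem (u : ℝ) : 0 ≤ cl u ∧ cl u ≤ 1 :=
  ⟨le_max_left _ _, max_le zero_le_one (min_le_left _ _)⟩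

lemma cl_lip (s t : ℝ) : |cl s - cl t| ≤ |s - t| := by
  unfold cl
  refine (abs_max_sub_max_le_max _ _ _ _).trans ?_
  simp only [sub_self, abs_zero]
  refine max_le (abs_nonneg _) ((abs_min_sub_min_le_max _ _ _ _).trans ?_)
  simp

lemma cl_nonpos {u : ℝ} (h : u ≤ 0) : cl u = 0 :=
  max_eq_left ((min_le_right _ _).trans h)

lemma cl_ge {u : ℝ} (h : 1 ≤ u) : cl u = 1 := by
  unfold cl
  rw [min_eq_left h, max_eq_right zero_le_one]

lemma cl_of_mem {u : ℝ} (h0 : 0 ≤ u) (h1 : u ≤ 1) : cl u = u := by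
  unfold cl
  rw [min_eq_right h1, max_eq_right h0]

def Lip (L : ℝ) (β : ℝ → V) : Prop := ∀ s t, dist (β s) (β t) ≤ L * |s - t|

lemma Lip.cont {L : ℝ} {β : ℝ → V} (h : Lip L β) (hL : 0 ≤ L) : Continuous β :=
  (LipschitzWith.of_dist_le_mul (K := ⟨L, hL⟩) fun s t => h s t).continuous

lemma dist_le3 {p q : V} {c : ℝ} (h1 : |p.1 - q.1| ≤ c) (h2 : |p.2.1 - q.2.1| ≤ c)
    (h3 : |p.2.2 - q.2.2| ≤ c) : dist p q ≤ c := by
  rw [Prod.dist_eq, Prod.dist_eq]
  exact max_le h1 (max_le h2 h3)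

noncomputable def P (θ : ℝ) : V := (Real.sin (π * θ), θ⁻¹, 1)

lemma P_mem {θ : ℝ} (h : 1 ≤ θ) : P θ ∈ S :=
  ⟨rfl, Or.inr ⟨inv_pos.2 (by linarith), inv_le_one_of_one_le₀ h, by simp [P]⟩⟩

lemma P_lip {a b : ℝ} (ha : 1 ≤ a) (hb : 1 ≤ b) : dist (P a) (P b) ≤ 4 * |a - b| := by
  refine dist_le3 ?_ ?_ (by simp [P])
  · refine (Real.abs_sin_sub_sin_le _ _).trans ?_
    rw [← mul_sub, abs_mul, abs_of_pos pi_pos]
    exact mul_le_mul_of_nonneg_right pi_le_four (abs_nonneg _)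
  · show |a⁻¹ - b⁻¹| ≤ _
    rw [inv_sub_inv (by linarith) (by linarith), abs_div, abs_sub_comm b a,
      abs_of_pos (show 0 < a * b by positivity)]
    refine (div_le_self (abs_nonneg _) (by nlinarith)).trans ?_
    linarith [abs_nonneg (a - b)]

lemma P_nat (k : ℕ) : P ((k : ℝ) + 1) = (0, 1 / ((k : ℝ) + 1), 1) := by
  unfold P
  refine Prod.ext ?_ (Prod.ext (one_div _).symm rfl)
  have := Real.sin_nat_mul_pi (k + 1)
  rw [mul_comm] at this
  simpa using this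

lemma exists_beta (x : V) (hx : x ∈ S ∪ F) : ∃ β : ℝ → V, ∃ y ∈ B, Lip 4 β ∧
    (∀ u, β u ∈ S ∪ F) ∧ (∀ u, u ≤ 0 → β u = (0, y, 1)) ∧ ∀ u, 1 ≤ u → β u = x := by
  rcases hx with ⟨hr, h | h⟩ | ⟨⟨r, y⟩, ⟨hr, hy⟩, rfl⟩
  · refine ⟨fun u => (cl u * x.1, 0, 1), 0, Or.inl rfl, fun s t => ?_, fun u => ?_, ?_, ?_⟩
    · refine dist_le3 ?_ (by simp) (by simp)
      show |cl s * x.1 - cl t * x.1| ≤ _
      rw [← sub_mul, abs_mul]
      have h1 : |x.1| ≤ 1 := abs_le.2 h.2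
      nlinarith [cl_lip s t, abs_nonneg (cl s - cl t), abs_nonneg x.1, abs_nonneg (s - t)]
    · refine Or.inl ⟨rfl, Or.inl ⟨rfl, ?_, ?_⟩⟩ <;>
        nlinarith [(cl_mem u).1, (cl_mem u).2, h.2.1, h.2.2]
    · intro u hu
      simp [cl_nonpos hu]
    · intro u hu
      simp only [cl_ge hu, one_mul]
      exact Prod.ext rfl (Prod.ext h.1.symm hr.symm)
  · set θ := x.2.1⁻¹ with hθ
    have hθ1 : 1 ≤ θ := (one_le_inv₀ h.1).2 h.2.1
    obtain ⟨k, hk1, hk2⟩ : ∃ k : ℕ, (k : ℝ) + 1 ≤ θ ∧ θ ≤ k + 2 := by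
      refine ⟨⌊θ - 1⌋₊, ?_, ?_⟩
      · linarith [Nat.floor_le (show 0 ≤ θ - 1 by linarith)]
      · linarith [Nat.lt_floor_add_one (θ - 1)]
    have hk0 : (0:ℝ) ≤ k := Nat.cast_nonneg k
    have hge : ∀ u, 1 ≤ (k : ℝ) + 1 + cl u * (θ - (k + 1)) := fun u => by
      nlinarith [(cl_mem u).1]
    refine ⟨fun u => P (k + 1 + cl u * (θ - (k + 1))), 1 / ((k : ℝ) + 1), Or.inr ⟨k, rfl⟩,
      fun s t => ?_, fun u => Or.inl (P_mem (hge u)), ?_, ?_⟩
    · refine (P_lip (hge s) (hge t)).trans ?_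
      rw [add_sub_add_left_eq_sub, ← sub_mul, abs_mul,
        abs_of_nonneg (show 0 ≤ θ - (k + 1) by linarith)]
      nlinarith [cl_lip s t, abs_nonneg (cl s - cl t), abs_nonneg (s - t)]
    · intro u hu
      simp only [cl_nonpos hu, zero_mul, add_zero, P_nat]
    · intro u hu
      simp only [cl_ge hu, one_mul, add_sub_cancel]
      refine Prod.ext h.2.2.symm (Prod.ext ?_ hr.symm)
      show θ⁻¹ = _
      rw [hθ, inv_inv]
  · simp only at hr hy
    have hy' := B_mem hy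
    refine ⟨fun u => (0, (1 - cl u * (1 - r)) * y, 1 - cl u * (1 - r)), y, hy, fun s t => ?_,
      fun u => Or.inr ⟨(1 - cl u * (1 - r), y), ⟨⟨?_, ?_⟩, hy⟩, rfl⟩, ?_, ?_⟩
    · have key : |(1 - cl s * (1 - r)) - (1 - cl t * (1 - r))| ≤ |s - t| := by
        rw [show (1 - cl s * (1 - r)) - (1 - cl t * (1 - r)) = (cl t - cl s) * (1 - r) by ring,
          abs_mul, abs_sub_comm (cl t), abs_of_nonneg (show 0 ≤ 1 - r by linarith [hr.2])]
        nlinarith [cl_lip s t, abs_nonneg (cl s - cl t), hr.1, hr.2]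
      refine dist_le3 (by simp) ?_ ?_
      · show |(1 - cl s * (1 - r)) * y - (1 - cl t * (1 - r)) * y| ≤ _
        rw [← sub_mul, abs_mul, abs_of_nonneg hy'.1]
        nlinarith [abs_nonneg ((1 - cl s * (1 - r)) - (1 - cl t * (1 - r))), hy'.1, hy'.2,
          abs_nonneg (s - t)]
      · exact key.trans (by linarith [abs_nonneg (s - t)])
    · show 0 ≤ 1 - cl u * (1 - r)
      nlinarith [(cl_mem u).1, (cl_mem u).2, hr.1, hr.2]
    · show 1 - cl u * (1 - r) ≤ 1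
      nlinarith [(cl_mem u).1, (cl_mem u).2, hr.1, hr.2]
    · intro u hu
      simp [cl_nonpos hu]
    · intro u hu
      simp [cl_ge hu]

noncomputable def gam (β : ℝ → V) (y : ℝ) (s : ℝ) : V :=
  β (2 * s - 1) - (1 - cl (2 * s)) • ((0:ℝ), y, (1:ℝ))

lemma gam_mem {β : ℝ → V} {y : ℝ} (hy : y ∈ B) (h1 : ∀ u, β u ∈ S ∪ F)
    (h2 : ∀ u, u ≤ 0 → β u = (0, y, 1)) (s : ℝ) : gam β y s ∈ S ∪ F := by
  unfold gam
  rcases le_total (2 * s) 1 with h | h
  · rw [h2 _ (by linarith)]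
    refine Or.inr ⟨(cl (2 * s), y), ⟨cl_mem _, hy⟩, ?_⟩
    ext <;> simp <;> ring
  · rw [cl_ge h]
    simpa using h1 _

lemma gam_lip {β : ℝ → V} {y L : ℝ} (hy : y ∈ B) (h : Lip L β) : Lip (2 * L + 2) (gam β y) := by
  intro s t
  unfold gam
  refine (dist_sub_sub_le _ _ _ _).trans ?_
  have h1 := h (2 * s - 1) (2 * t - 1)
  have h2 := cl_lip (2 * s) (2 * t)
  rw [show 2 * s - 1 - (2 * t - 1) = 2 * (s - t) by ring, abs_mul, abs_two] at h1
  rw [show 2 * s - 2 * t = 2 * (s - t) by ring, abs_mul, abs_two] at h2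
  have hy' := B_mem hy
  have h3 : dist ((1 - cl (2 * s)) • ((0:ℝ), y, (1:ℝ))) ((1 - cl (2 * t)) • ((0:ℝ), y, (1:ℝ)))
      ≤ 2 * |s - t| := by
    have e : |1 - cl (2 * s) - (1 - cl (2 * t))| = |cl (2 * s) - cl (2 * t)| := by
      rw [abs_sub_comm]; congr 1; ring
    refine dist_le3 (by simp) ?_ ?_
    · simp only [Prod.smul_mk, smul_eq_mul]
      rw [← sub_mul, abs_mul, abs_of_nonneg hy'.1, e]
      nlinarith [abs_nonneg (cl (2 * s) - cl (2 * t)), hy'.1, hy'.2]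
    · simp only [Prod.smul_mk, smul_eq_mul, mul_one]
      rw [e]; exact h2
  linarith

lemma exists_gamma (x : V) (hx : x ∈ S ∪ F) : ∃ γ : ℝ → V, Lip 10 γ ∧
    (∀ u, γ u ∈ S ∪ F) ∧ (∀ u, u ≤ 0 → γ u = 0) ∧ ∀ u, 1 ≤ u → γ u = x := by
  obtain ⟨β, y, hy, h1, h2, h3, h4⟩ := exists_beta x hx
  refine ⟨gam β y, by have := gam_lip hy h1; norm_num at this; exact this, gam_mem hy h2 h3, ?_, ?_⟩
  · intro u hu
    unfold gam
    rw [h3 _ (by linarith), cl_nonpos (by linarith)]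
    simp
  · intro u hu
    unfold gam
    rw [h4 _ (by linarith), cl_ge (by linarith)]
    simp

lemma exists_path (a b x : X) : ∃ p : Path a b,
    (∀ s t, dist (p s) (p t) ≤ 120 * |(s : ℝ) - t|) ∧ x ∈ range p := by
  obtain ⟨α, a1, a2, a3, a4⟩ := exists_gamma a.1 a.2
  obtain ⟨β, b1, b2, b3, b4⟩ := exists_gamma b.1 b.2
  obtain ⟨γ, c1, c2, c3, c4⟩ := exists_gamma x.1 x.2
  let q : ℝ → V := fun t => α (1 - 4 * t) + γ (1 - |4 * t - 2|) + β (4 * t - 3)
  have hq : Lip 120 q := by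
    intro s t
    refine (dist_add_add_le _ _ _ _).trans ?_
    have h0 := dist_add_add_le (α (1 - 4 * s)) (γ (1 - |4 * s - 2|)) (α (1 - 4 * t))
      (γ (1 - |4 * t - 2|))
    have h1 := a1 (1 - 4 * s) (1 - 4 * t)
    have h2 := c1 (1 - |4 * s - 2|) (1 - |4 * t - 2|)
    have h3 := b1 (4 * s - 3) (4 * t - 3)
    have e4 : |4 * (s - t)| = 4 * |s - t| := by rw [abs_mul]; norm_num
    rw [show 1 - 4 * s - (1 - 4 * t) = -(4 * (s - t)) by ring, abs_neg, e4] at h1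
    rw [show 4 * s - 3 - (4 * t - 3) = 4 * (s - t) by ring, e4] at h3
    have h4 : abs (1 - |4 * s - 2| - (1 - |4 * t - 2|)) ≤ 4 * |s - t| := by
      rw [show 1 - |4 * s - 2| - (1 - |4 * t - 2|) = -(|4 * s - 2| - |4 * t - 2|) by ring, abs_neg]
      refine (abs_abs_sub_abs_le_abs_sub _ _).trans ?_
      rw [show 4 * s - 2 - (4 * t - 2) = 4 * (s - t) by ring, e4]
    linarith
  have hmem : ∀ t, q t ∈ S ∪ F := by
    intro t
    simp only [q]
    rcases le_total t (1 / 4) with h | h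
    · rw [c3 _ (by rw [abs_of_nonpos (by linarith)]; linarith), b3 _ (by linarith)]
      simpa using a2 _
    rcases le_total t (3 / 4) with h' | h'
    · rw [a3 _ (by linarith), b3 _ (by linarith)]
      simpa using c2 _
    · rw [c3 _ (by rw [abs_of_nonneg (by linarith)]; linarith), a3 _ (by linarith)]
      simpa using b2 _
  refine ⟨⟨⟨fun t => ⟨q t, hmem t⟩, ((hq.cont (by norm_num)).comp
    continuous_subtype_val).subtype_mk _⟩, ?_, ?_⟩, fun s t => hq s t,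
    ⟨⟨1 / 2, by norm_num, by norm_num⟩, ?_⟩⟩
  · apply Subtype.ext
    show α (1 - 4 * 0) + γ (1 - |4 * 0 - 2|) + β (4 * 0 - 3) = _
    rw [a4 _ (by norm_num), c3 _ (by norm_num), b3 _ (by norm_num)]
    simp
  · apply Subtype.ext
    show α (1 - 4 * 1) + γ (1 - |4 * 1 - 2|) + β (4 * 1 - 3) = _
    rw [a3 _ (by norm_num), c3 _ (by norm_num), b4 _ (by norm_num)]
    simp
  · apply Subtype.ext
    show α (1 - 4 * (1 / 2)) + γ (1 - |4 * (1 / 2) - 2|) + β (4 * (1 / 2) - 3) = _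
    rw [a3 _ (by norm_num), c4 _ (by norm_num), b3 _ (by norm_num)]
    simp

def v0 : X := ⟨0, Or.inr ⟨(0, 0), ⟨⟨le_rfl, zero_le_one⟩, Or.inl rfl⟩, by ext <;> simp⟩⟩

noncomputable def b0 : X := ⟨P 1, Or.inl (P_mem le_rfl)⟩

instance : ConnectedSpace X := by
  haveI : PathConnectedSpace X := ⟨⟨v0⟩, fun a b => ⟨(exists_path a b a).choose⟩⟩
  infer_instance

lemma upc (a b : X) : ∃ P : Set (Path a b),
    (∀ ε : ℝ, ε > 0 → ∃ n : ℕ, ∀ p ∈ P, ∃ t : Fin (n + 1) → unitInterval,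
      t 0 = 0 ∧ t (Fin.last n) = 1 ∧ StrictMono t ∧
      ∀ i : Fin n, Metric.diam (⇑p '' Set.Icc (t i.castSucc) (t i.succ)) ≤ ε) ∧
    (⋃ p ∈ P, Set.range ⇑p) = Set.univ := by
  refine ⟨{p | ∀ s t, dist (p s) (p t) ≤ 120 * |(s : ℝ) - t|}, fun ε hε => ?_, ?_⟩
  · obtain ⟨n, hn⟩ := exists_nat_gt (120 / ε)
    have hn0 : (0:ℝ) < n := lt_trans (by positivity) hn
    refine ⟨n, fun p hp => ⟨fun i => ⟨(i : ℝ) / n, by positivity, ?_⟩, ?_, ?_, ?_, ?_⟩⟩
    · rw [div_le_one hn0]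
      exact_mod_cast Nat.lt_succ_iff.1 i.2
    · apply Subtype.ext
      simp
    · apply Subtype.ext
      simp [hn0.ne']
    · intro i j hij
      show (i : ℝ) / n < (j : ℝ) / n
      exact div_lt_div_of_pos_right (by exact_mod_cast hij) hn0
    · intro i
      refine Metric.diam_le_of_forall_dist_le hε.le ?_
      rintro _ ⟨s, hs, rfl⟩ _ ⟨t, ht, rfl⟩
      refine (hp s t).trans ?_
      have s1 : ((i : ℕ) : ℝ) / n ≤ s := hs.1
      have s2 : (s : ℝ) ≤ ((i + 1 : ℕ) : ℝ) / n := hs.2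
      have t1 : ((i : ℕ) : ℝ) / n ≤ t := ht.1
      have t2 : (t : ℝ) ≤ ((i + 1 : ℕ) : ℝ) / n := ht.2
      push_cast at s2 t2
      rw [add_div] at s2 t2
      have : |(s : ℝ) - t| ≤ 1 / n := abs_le.2 ⟨by linarith, by linarith⟩
      have h2 : 120 * (1 / (n : ℝ)) ≤ ε := by
        rw [div_lt_iff₀ hε] at hn
        rw [mul_one_div, div_le_iff₀ hn0]
        linarith
      linarith
  · refine eq_univ_of_forall fun x => ?_
    obtain ⟨p, hp, hx⟩ := exists_path a b x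
    exact mem_biUnion hp hx

lemma exists_arc (k : ℕ) (hk : 1 ≤ k) : ∃ q : Path v0 b0, Function.Injective q ∧
    ∃ s, (q s).1 = P (k + 1 / 2) := by
  have hk' : (1:ℝ) ≤ k := by exact_mod_cast hk
  have hge : ∀ u, 1 ≤ (k : ℝ) + 1 - cl u * k := fun u => by nlinarith [(cl_mem u).2]
  let β : ℝ → V := fun u => P (k + 1 - cl u * k)
  have hβ : Lip (4 * k) β := by
    intro s t
    refine (P_lip (hge s) (hge t)).trans ?_
    rw [show (k : ℝ) + 1 - cl s * k - (k + 1 - cl t * k) = -((cl s - cl t) * k) by ring, abs_neg,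
      abs_mul, abs_of_nonneg (show (0:ℝ) ≤ k by linarith)]
    nlinarith [cl_lip s t]
  have hy : 1 / ((k : ℝ) + 1) ∈ B := Or.inr ⟨k, rfl⟩
  have h2 : ∀ u, u ≤ 0 → β u = (0, 1 / ((k : ℝ) + 1), 1) := fun u hu => by
    simp only [β, cl_nonpos hu, zero_mul, sub_zero, P_nat]
  have hmem := gam_mem hy (fun u => Or.inl (P_mem (hge u))) h2
  refine ⟨⟨⟨fun t => ⟨gam β _ t, hmem t⟩, (((gam_lip hy hβ).cont (by positivity)).comp
    continuous_subtype_val).subtype_mk _⟩, ?_, ?_⟩, ?_, ?_⟩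
  · apply Subtype.ext
    show gam β _ 0 = 0
    unfold gam
    rw [h2 _ (by norm_num), cl_nonpos (by norm_num)]
    simp
  · apply Subtype.ext
    show gam β _ 1 = P 1
    unfold gam
    rw [cl_ge (by norm_num)]
    simp only [β]
    rw [cl_ge (by norm_num)]
    simp
  · intro s t hst
    have e : gam β (1 / ((k : ℝ) + 1)) s = gam β (1 / ((k : ℝ) + 1)) t := congrArg Subtype.val hst
    have e3 : cl (2 * s) = cl (2 * t) := by
      have := congrArg (fun z : V => z.2.2) e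
      simp [gam, β, P] at this
      exact this
    have e2 : cl (2 * s - 1) = cl (2 * t - 1) := by
      have := congrArg (fun z : V => z.2.1) e
      simp [gam, β, P, e3] at this
      rcases this with h | h
      · exact h
      · omega
    have key : ∀ u : ℝ, 0 ≤ u → u ≤ 1 → cl (2 * u) + cl (2 * u - 1) = 2 * u := by
      intro u h0 h1
      rcases le_total (2 * u) 1 with h | h
      · rw [cl_of_mem (by linarith) h, cl_nonpos (by linarith)]; ring
      · rw [cl_ge h, cl_of_mem (by linarith) (by linarith)]; ring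
    have k1 := key s s.2.1 s.2.2
    have k2 := key t t.2.1 t.2.2
    apply Subtype.ext
    linarith
  · have h0 : (0:ℝ) ≤ 1 / (2 * k) := by positivity
    have h1 : 1 / (2 * (k:ℝ)) ≤ 1 := by
      rw [div_le_one (by linarith)]; linarith
    refine ⟨⟨(1 + 1 / (2 * k)) / 2, by linarith, by linarith⟩, ?_⟩
    show gam β _ ((1 + 1 / (2 * k)) / 2) = _
    unfold gam
    rw [cl_ge (by linarith)]
    simp only [β]
    rw [cl_of_mem (by linarith) (by linarith)]
    simp only [sub_self, zero_smul, sub_zero]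
    congr 1
    field_simp
    ring

noncomputable def rho (z : X) : ℝ := z.1.2.1 / z.1.2.2

lemma eq_v0 {z : X} (h : z.1.2.2 = 0) : z = v0 := by
  apply Subtype.ext
  rcases z.2 with h' | ⟨⟨r, y⟩, -, e⟩
  · rw [h'.1] at h
    exact absurd h one_ne_zero
  · rw [← e] at h ⊢
    simp only at h
    rw [h]
    ext <;> simp [v0]

lemma rho_half {z : X} {j : ℕ} (h : rho z = ((j : ℝ) + 1 / 2)⁻¹) :
    z.1.1 = Real.sin (π * (j + 1 / 2)) := by
  have hj : (0:ℝ) ≤ j := Nat.cast_nonneg j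
  have hpos : 0 < ((j : ℝ) + 1 / 2)⁻¹ := by positivity
  unfold rho at h
  rcases z.2 with ⟨h1, h' | h'⟩ | ⟨⟨r, y⟩, ⟨-, hy⟩, e⟩
  · rw [h'.1, zero_div] at h
    exact absurd h hpos.ne
  · rw [h1, div_one] at h
    rw [h'.2.2, h, inv_inv]
  · exfalso
    rw [← e] at h
    simp only at h hy
    by_cases hr : r = 0
    · rw [hr, div_zero] at h
      exact absurd h hpos.ne
    rw [mul_div_cancel_left₀ _ hr] at h
    rcases hy with rfl | ⟨m, rfl⟩
    · exact absurd h hpos.ne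
    · simp only [one_div, inv_inj] at h
      have : (2 * m + 2 : ℝ) = 2 * j + 1 := by linarith
      have : 2 * m + 2 = 2 * j + 1 := by exact_mod_cast this
      omega

lemma cover {k : ℕ} {t : ℕ → ℝ} (hk : 0 < k) (h0 : t 0 = 0) (h1 : t k = 1) {x : ℝ}
    (hx : x ∈ Icc (0:ℝ) 1) : ∃ i < k, x ∈ Icc (t i) (t (i + 1)) := by
  classical
  have hex : ∃ i, x ≤ t (i + 1) := ⟨k - 1, by rw [Nat.sub_add_cancel hk, h1]; exact hx.2⟩
  refine ⟨Nat.find hex, ?_, ?_, Nat.find_spec hex⟩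
  · have := Nat.find_min' hex (m := k - 1) (by rw [Nat.sub_add_cancel hk, h1]; exact hx.2)
    omega
  · rcases Nat.eq_zero_or_pos (Nat.find hex) with h | h
    · rw [h, h0]; exact hx.1
    · have := Nat.find_min hex (m := Nat.find hex - 1) (by omega)
      rw [Nat.sub_add_cancel h] at this
      exact (not_le.1 this).le

lemma cover' {n : ℕ} (t : Fin (n + 1) → unitInterval) (h0 : t 0 = 0) (h1 : t (Fin.last n) = 1)
    (s : unitInterval) : ∃ i : Fin n, s ∈ Icc (t i.castSucc) (t i.succ) := by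
  have hn : 0 < n := by
    rcases Nat.eq_zero_or_pos n with rfl | h
    · exact absurd (h0.symm.trans h1) zero_ne_one
    · exact h
  obtain ⟨i, hi, hs⟩ := cover (t := fun i => if h : i < n + 1 then (t ⟨i, h⟩ : ℝ) else 0) hn
    (by simp [h0]) (by
      simp only [Nat.lt_succ_self, dif_pos]
      exact congrArg Subtype.val h1) s.2
  refine ⟨⟨i, hi⟩, ?_⟩
  simp only [show i < n + 1 by omega, show i + 1 < n + 1 by omega, dif_pos] at hs
  exact hs

lemma not_uniform (n : ℕ) (p : Path v0 b0) (hp : Function.Injective p) (s0 : unitInterval)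
    (hs0 : (p s0).1 = P ((n + 1 : ℕ) + 1 / 2)) (t : Fin (n + 1) → unitInterval) (h0 : t 0 = 0)
    (h1 : t (Fin.last n) = 1)
    (hd : ∀ i : Fin n, Metric.diam (⇑p '' Set.Icc (t i.castSucc) (t i.succ)) ≤ 1) : False := by
  have hne : ∀ s, s ≠ 0 → (p s).1.2.2 ≠ 0 := fun s hs h => hs (hp (by rw [eq_v0 h, p.source]))
  have ivt : ∀ a b : unitInterval, a ≠ 0 → b ≠ 0 →
      uIcc (rho (p a)) (rho (p b)) ⊆ (fun s => rho (p s)) '' uIcc a b := by
    intro a b ha hb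
    refine intermediate_value_uIcc (f := fun s => rho (p s)) ?_
    have hc := p.continuous
    refine ContinuousOn.div (by fun_prop) (by fun_prop) fun s hs => hne s fun e => ?_
    rw [e] at hs
    rcases mem_uIcc.1 hs with h | h
    · exact ha (le_antisymm h.1 a.2.1)
    · exact hb (le_antisymm h.1 b.2.1)
  have rho_ne : ∀ s (j : ℕ), rho (p s) = ((j : ℝ) + 1 / 2)⁻¹ → s ≠ 0 := by
    intro s j h e
    rw [e, p.source] at h
    have : (0:ℝ) < ((j : ℝ) + 1 / 2)⁻¹ := by positivity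
    rw [← h] at this
    simp [rho, v0] at this
  have r0 : rho (p s0) = (((n + 1 : ℕ) : ℝ) + 1 / 2)⁻¹ := by
    unfold rho
    rw [hs0]
    simp [P]
  have r1 : rho (p 1) = 1 := by
    rw [p.target]
    simp [rho, b0, P]
  have ex : ∀ j : Fin (n + 1), ∃ s, rho (p s) = (((j + 1 : ℕ) : ℝ) + 1 / 2)⁻¹ := by
    intro j
    have hj : ((j + 1 : ℕ) : ℝ) ≤ (n + 1 : ℕ) := by exact_mod_cast j.2
    have hj1 : (1:ℝ) ≤ ((j + 1 : ℕ) : ℝ) := by exact_mod_cast Nat.succ_pos j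
    obtain ⟨s, -, hs⟩ := ivt s0 1 (rho_ne _ _ r0) one_ne_zero
      (show (((j + 1 : ℕ) : ℝ) + 1 / 2)⁻¹ ∈ _ by
        rw [r0, r1]
        refine mem_uIcc.2 (Or.inl ⟨?_, ?_⟩)
        · exact inv_anti₀ (by linarith) (by linarith)
        · exact inv_le_one_of_one_le₀ (by linarith))
    exact ⟨s, hs⟩
  choose s hs using ex
  choose idx hidx using fun j => cover' t h0 h1 (s j)
  have main : ∀ j j' : Fin (n + 1), j < j' → idx j = idx j' → False := by
    intro j j' hjj e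
    have hj : ((j + 1 + 1 : ℕ) : ℝ) ≤ (j' + 1 : ℕ) := by
      exact_mod_cast Nat.succ_le_succ (show (j : ℕ) < j' from hjj)
    have hj0 : (0:ℝ) ≤ ((j + 1 : ℕ) : ℝ) := Nat.cast_nonneg _
    have hj1 : ((j + 1 + 1 : ℕ) : ℝ) = ((j + 1 : ℕ) : ℝ) + 1 := by push_cast; ring
    obtain ⟨u, hu, hu'⟩ := ivt (s j') (s j) (rho_ne _ _ (hs j')) (rho_ne _ _ (hs j))
      (show (((j + 1 + 1 : ℕ) : ℝ) + 1 / 2)⁻¹ ∈ _ by
        rw [hs, hs]
        refine mem_uIcc.2 (Or.inl ⟨?_, ?_⟩)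
        · exact inv_anti₀ (by linarith) (by linarith)
        · exact inv_anti₀ (by linarith) (by linarith))
    have hu2 : u ∈ Icc (t (idx j).castSucc) (t (idx j).succ) :=
      ordConnected_Icc.uIcc_subset (e ▸ hidx j') (hidx j) hu
    have hle := (Metric.dist_le_diam_of_mem Metric.isBounded_of_compactSpace
      (mem_image_of_mem p hu2) (mem_image_of_mem p (hidx j))).trans (hd _)
    have x1 := rho_half hu'
    have x2 := rho_half (hs j)
    have hle' : |(p u).1.1 - (p (s j)).1.1| ≤ 1 := by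
      refine le_trans ?_ hle
      rw [Subtype.dist_eq, Prod.dist_eq]
      exact le_max_left _ _
    rw [x1, x2, hj1, show π * (((j + 1 : ℕ) : ℝ) + 1 + 1 / 2) =
      π * (((j + 1 : ℕ) : ℝ) + 1 / 2) + π by ring, Real.sin_add_pi,
      show π * (((j + 1 : ℕ) : ℝ) + 1 / 2) = (((j + 1 : ℕ) : ℤ) : ℝ) * π + π / 2 by
        push_cast; ring, Real.sin_add_pi_div_two] at hle'
    have h3 := Real.abs_cos_int_mul_pi ((j + 1 : ℕ) : ℤ)
    rw [show ∀ c : ℝ, -c - c = -2 * c by intro c; ring, abs_mul, h3] at hle'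
    norm_num at hle'
  obtain ⟨j, j', hne', e⟩ := Fintype.exists_ne_map_eq_of_card_lt idx (by simp)
  rcases lt_or_gt_of_ne hne' with h | h
  · exact main j j' h e
  · exact main j' j h e.symm

end

/-- The negation of the preceding statement: Every continuum in which any two points are joined by a uniform family of paths covering the space has, for any two points, a uniform family of arcs between them covering the union of all arcs joining them. -/
theorem result :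
    ¬ (∀ (X : Type) [MetricSpace X] [CompactSpace X] [ConnectedSpace X],
      (∀ a b : X, ∃ P : Set (Path a b),
          (∀ ε : ℝ, ε > 0 → ∃ n : ℕ, ∀ p ∈ P, ∃ t : Fin (n + 1) → unitInterval,
              t 0 = 0 ∧ t (Fin.last n) = 1 ∧ StrictMono t ∧
              ∀ i : Fin n, Metric.diam (⇑p '' Set.Icc (t i.castSucc) (t i.succ)) ≤ ε) ∧
          (⋃ p ∈ P, Set.range ⇑p) = Set.univ) →
      (∀ a b : X, ∃ P : Set (Path a b),
          (∀ p ∈ P, Function.Injective ⇑p) ∧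
          (∀ ε : ℝ, ε > 0 → ∃ n : ℕ, ∀ p ∈ P, ∃ t : Fin (n + 1) → unitInterval,
              t 0 = 0 ∧ t (Fin.last n) = 1 ∧ StrictMono t ∧
              ∀ i : Fin n, Metric.diam (⇑p '' Set.Icc (t i.castSucc) (t i.succ)) ≤ ε) ∧
          (⋃ p ∈ P, Set.range ⇑p) =
            ⋃ (q : Path a b) (_ : Function.Injective ⇑q), Set.range ⇑q)) := by
  intro H
  obtain ⟨Q, hinj, hu, hQ⟩ := H X upc v0 b0
  obtain ⟨n, hn⟩ := hu 1 one_pos
  obtain ⟨q, hq, s, hs⟩ := exists_arc (n + 1) (Nat.succ_pos n)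
  have hmem : q s ∈ ⋃ p ∈ Q, Set.range ⇑p := by
    rw [hQ]
    exact Set.mem_iUnion₂.2 ⟨q, hq, s, rfl⟩
  obtain ⟨p, hp, s0, hs0⟩ := Set.mem_iUnion₂.1 hmem
  obtain ⟨t, h0, h1, -, hd⟩ := hn p hp
  exact not_uniform n p (hinj p hp) s0 (by rw [hs0, hs]) t h0 h1 hd

end Pool.Agent.S13596
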