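import Pool.Statements.S13621
import Pool.Agent.Lib.helper4.Smir2

set_option autoImplicit false
open Pool Pool.MP_984099_gt

namespace Pool.Agent.S13621

/-- There is a Tychonoff space with a continuous action of the additive group of rationals that has no equivariant topological embedding into any compact Hausdorff space with a continuous action of the rationals. -/
theorem result :
    ∃ (X : Type) (_ : TopologicalSpace X) (_ : AddAction ℚ X),
      ContinuousVAdd ℚ X ∧ T35Space X ∧
      ¬ ∃ (Y : Type) (_ : TopologicalSpace Y) (_ : AddAction ℚ Y),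
          ContinuousVAdd ℚ Y ∧ CompactSpace Y ∧ T2Space Y ∧
          ∃ f : X → Y, Topology.IsEmbedding f ∧ ∀ (q : ℚ) (x : X), f (q +ᵥ x) = q +ᵥ f x := by
  refine ⟨Lib.helper4.Smir.X, inferInstance, inferInstance, Lib.helper4.Smir.X_cont,
    Lib.helper4.Smir.X_t35, ?_⟩
  rintro ⟨Y, _, _, _, _, _, ν, hν, he⟩
  let x₀ : Lib.helper4.Smir.X := ⟨(0, .zero), 0, by simp [Lib.helper4.Smir.th]⟩
  let C : Set Lib.helper4.Smir.X := {x | x.1.2 ∉ Lib.helper4.Smir.V 1}
  have hC : IsClosed C := (Lib.helper4.Smir.V_closed_compl 1).preimage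
    (continuous_snd.comp Lib.helper4.Smir.cval)
  have hx : ν x₀ ∉ closure (ν '' C) := by
    intro h
    have : x₀ ∈ closure C := by rw [hν.closure_eq_preimage_closure_image]; exact h
    rw [hC.closure_eq] at this
    exact this trivial
  obtain ⟨φ, φ0, φ1, -⟩ := exists_continuous_zero_one_of_isClosed isClosed_closure
    (isClosed_singleton (x := ν x₀)) (Set.disjoint_singleton_right.2 hx)
  refine Lib.helper4.Smir.no_sep (φ ∘ ν) (φ.continuous.comp hν.continuous) (fun ε hε => ?_) ?_
    (fun x hx => φ0 (subset_closure ⟨x, hx, rfl⟩))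
  · have h : ∀ᶠ q in nhds (0 : ℚ), ∀ y ∈ (Set.univ : Set Y), |φ (q +ᵥ y) - φ y| < ε := by
      apply isCompact_univ.eventually_forall_of_forall_eventually
      intro y _
      have hc : Continuous fun z : ℚ × Y => |φ (z.1 +ᵥ z.2) - φ z.2| := by fun_prop
      exact hc.continuousAt.eventually (gt_mem_nhds (by simpa using hε))
    obtain ⟨δ, hδ, h'⟩ := Metric.eventually_nhds_iff.1 h
    refine ⟨δ, hδ, fun q hq x => ?_⟩
    show |φ (ν (q +ᵥ x)) - φ (ν x)| < ε
    rw [he]
    exact h' (by rw [Rat.dist_eq, Rat.cast_zero, sub_zero]; exact hq) _ trivial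
  · show 0 < φ (ν x₀)
    rw [φ1 rfl]; exact one_pos

end Pool.Agent.S13621
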