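import Pool.Statements.S13705
import Pool.Agent.Lib.helper5.Extral

set_option autoImplicit false
open Pool Pool.MP_a58584_gt

namespace Pool.Agent.S13705

/-- Every non-metrizable Tychonoff space X that is t-embedded (has a pointwise-continuous extender of continuous real functions) in every Tychonoff space containing it as a closed subspace contains a copy of the Cantor cube {0,1}^ω₁. -/
theorem result :
    ∀ (X : Type) [TopologicalSpace X] [T35Space X],
      (∀ (Z : Type) [TopologicalSpace Z] [T35Space Z] (e : X → Z),
        Topology.IsClosedEmbedding e →
        ∃ φ : {f : X → ℝ // Continuous f} → {g : Z → ℝ // Continuous g},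
          Continuous φ ∧ ∀ (f : {f : X → ℝ // Continuous f}) (x : X), (φ f).1 (e x) = f.1 x) →
      ¬ TopologicalSpace.MetrizableSpace X →
      ∀ (I : Type), Cardinal.mk I = Cardinal.aleph 1 →
        ∃ h : (I → Bool) → X, Topology.IsEmbedding h := by
  exact fun X _ _ h hm I hI => H5C.TE.cantor h hm I hI

end Pool.Agent.S13705
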