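import Pool.Statements.S13710

set_option autoImplicit false
open Pool Pool.MP_a6a8af_gt
open Set Topology

namespace Pool.Agent.S13710

abbrev C := AddCircle (1 : ℝ)

lemma cov : IsCoveringMap ((↑) : ℝ → C) := AddCircle.isCoveringMap_coe 1

lemma hh : ((1 / 2 : ℝ) : C) + ((1 / 2 : ℝ) : C) = 0 := by
  rw [← AddCircle.coe_add]
  norm_num

lemma nh : -((1 / 2 : ℝ) : C) = ((1 / 2 : ℝ) : C) := neg_eq_of_add_eq_zero_left hh

lemma h0 : ((1 / 2 : ℝ) : C) ≠ 0 := fun h => by
  have := (AddCircle.coe_eq_zero_iff_of_mem_Ico (p := (1 : ℝ)) (a := 1 / 2) (by norm_num)).1 h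
  norm_num at this

lemma unicoh {Y : Type} [TopologicalSpace Y] [NormalSpace Y] [PreconnectedSpace Y]
    (H : ∀ f : Y → C, Continuous f → ∃ g : Y → ℝ, Continuous g ∧ ∀ y, (g y : C) = f y)
    {A B : Set Y} (hA : IsClosed A) (hB : IsClosed B) (cA : IsConnected A) (cB : IsConnected B)
    (hAB : A ∪ B = univ) : IsConnected (A ∩ B) := by
  classical
  refine ⟨by simpa using (isPreconnected_closed_iff.1 isPreconnected_univ A B hA hB hAB.ge
    (by simpa using cA.1) (by simpa using cB.1)), ?_⟩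
  rw [isPreconnected_iff_subset_of_fully_disjoint_closed (hA.inter hB)]
  intro u v hu hv huv hd
  by_contra h
  simp only [not_or, not_subset] at h
  obtain ⟨⟨p, hp, pu⟩, q, hq, qv⟩ := h
  obtain ⟨φ, φ0, φ1, -⟩ := exists_continuous_zero_one_of_isClosed hu hv hd
  let f : Y → C := fun y => if y ∈ A then ((φ y / 2 : ℝ) : C) else ((-(φ y / 2) : ℝ) : C)
  have fA : ∀ y ∈ A, f y = ((φ y / 2 : ℝ) : C) := fun y hy => if_pos hy
  have fB : ∀ y ∈ B, f y = ((-(φ y / 2) : ℝ) : C) := fun y hy => by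
    by_cases e : y ∈ A
    · rw [fA y e]
      rcases huv ⟨e, hy⟩ with h | h
      · simp [φ0 h]
      · rw [φ1 h, AddCircle.coe_neg]
        exact nh.symm
    · exact if_neg e
  obtain ⟨g, hg, hgf⟩ := H f (by
    rw [← continuousOn_univ, ← hAB]
    refine ContinuousOn.union_of_isClosed (ContinuousOn.congr ?_ fA) (ContinuousOn.congr ?_ fB) hA hB <;>
      exact (cov.continuous.comp (by fun_prop)).continuousOn)
  have e1 := cov.constOn_of_comp (g := fun y => g y - φ y / 2) cA.2 (by fun_prop) (fun a ha b hb => by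
    simp only [AddCircle.coe_sub, hgf, fA a ha, fA b hb, sub_self]) hp.1 hq.1
  have e2 := cov.constOn_of_comp (g := fun y => g y - -(φ y / 2)) cB.2 (by fun_prop) (fun a ha b hb => by
    simp only [AddCircle.coe_sub, hgf, fB a ha, fB b hb, sub_self]) hp.2 hq.2
  simp only [φ1 ((huv hp).resolve_left pu), φ0 ((huv hq).resolve_right qv), Pi.one_apply,
    Pi.zero_apply] at e1 e2
  linarith

noncomputable def hr (u : ℤˣ) : ℝ := if u = 1 then 0 else 1 / 2

lemma hr1 : hr 1 = 0 := if_pos rfl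
lemma hr2 : hr (-1) = 1 / 2 := if_neg (by decide)

lemma hmul (s u v : ℤˣ) : (hr (u * v) : C) = (s : ℤ) • (hr v : C) + hr u := by
  rcases Int.units_eq_one_or s with rfl | rfl <;> rcases Int.units_eq_one_or u with rfl | rfl <;>
    rcases Int.units_eq_one_or v with rfl | rfl <;>
    simp only [hr1, hr2, mul_one, one_mul, neg_mul_neg, Units.val_one, Units.val_neg, one_smul, neg_smul,
      nh, hh, AddCircle.coe_zero, add_zero, zero_add, neg_zero]

def X : Type := C × C × C
abbrev G : Type := ℤˣ × ℤˣ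

noncomputable instance : MetricSpace X := inferInstanceAs (MetricSpace (C × C × C))
instance : CompactSpace X := inferInstanceAs (CompactSpace (C × C × C))
instance : ConnectedSpace X := inferInstanceAs (ConnectedSpace (C × C × C))
instance : LocallyConnectedSpace C :=
  (QuotientAddGroup.isQuotientMap_mk _).isCoinducing.locallyConnectedSpace
instance : LocallyConnectedSpace X := inferInstanceAs (LocallyConnectedSpace (C × C × C))

noncomputable def act (g : G) (x : C × C × C) : C × C × C :=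
  ((g.1 : ℤ) • x.1 + hr g.2, (g.2 : ℤ) • x.2.1 + hr (g.1 * g.2), (g.1 * g.2 : ℤ) • x.2.2 + hr g.1)

noncomputable instance : MulAction G X where
  smul := act
  one_smul x := by
    change act 1 x = x
    simp [act, hr1]
  mul_smul g k x := by
    change act (g * k) x = act g (act k x)
    simp only [act, Prod.fst_mul, Prod.snd_mul, smul_add, smul_smul, Units.val_mul, add_assoc]
    rw [hmul g.1, mul_mul_mul_comm g.1, hmul g.2 (g.1 * g.2), hmul (g.1 * g.2) g.1 k.1,
      mul_mul_mul_comm (g.1 : ℤ), Units.val_mul]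

instance : ContinuousConstSMul G X := ⟨fun g => by
  change Continuous (act g)
  unfold act
  fun_prop⟩

instance : IsCancelSMul G X := isCancelSMul_iff_eq_one_of_smul_eq.2 fun g x h => by
  obtain ⟨s, t⟩ := g
  have h : act (s, t) x = x := h
  have h1 := congrArg (·.1) h
  have h2 := congrArg (·.2.1) h
  have h3 := congrArg (·.2.2) h
  rcases Int.units_eq_one_or s with rfl | rfl <;> rcases Int.units_eq_one_or t with rfl | rfl
  · rfl
  · exact absurd (by simpa only [act, hr2, Units.val_one, one_smul, add_eq_left] using h1) h0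
  · exact absurd (by simpa only [act, mul_one, hr2, Units.val_one, one_smul, add_eq_left] using h2) h0
  · exact absurd (by simpa only [act, Units.val_neg, neg_mul_neg, mul_one, hr2, Units.val_one, one_smul,
      add_eq_left] using h3) h0

abbrev Y : Type := MulAction.orbitRel.Quotient G X
abbrev E : Type := ℝ × ℝ × ℝ

noncomputable def q (e : E) : X := ((e.1 : C), (e.2.1 : C), (e.2.2 : C))

noncomputable def D (g : G) (n : ℤ × ℤ × ℤ) (e : E) : E :=
  ((g.1 : ℤ) • e.1 + hr g.2 + n.1, (g.2 : ℤ) • e.2.1 + hr (g.1 * g.2) + n.2.1,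
    (g.1 * g.2 : ℤ) • e.2.2 + hr g.1 + n.2.2)

lemma cz (n : ℤ) : ((n : ℝ) : C) = 0 := (AddCircle.coe_eq_zero_iff _).2 ⟨n, by simp⟩

lemma qD (g : G) (n : ℤ × ℤ × ℤ) (e : E) : q (D g n e) = g • q e := by
  change _ = act g (q e)
  simp only [q, D, act, AddCircle.coe_add, cz, add_zero, AddCircle.coe_zsmul]

lemma ce {a b : ℝ} (h : (a : C) = b) : ∃ n : ℤ, a = b + n := by
  rw [← sub_eq_zero, ← AddCircle.coe_sub, AddCircle.coe_eq_zero_iff] at h
  obtain ⟨n, hn⟩ := h
  exact ⟨n, by simp at hn; linarith⟩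

lemma qq : IsOpenQuotientMap q :=
  QuotientAddGroup.isOpenQuotientMap_mk.prodMap
    (QuotientAddGroup.isOpenQuotientMap_mk.prodMap QuotientAddGroup.isOpenQuotientMap_mk)

lemma lifts (f : Y → C) (hf : Continuous f) : ∃ g : Y → ℝ, Continuous g ∧ ∀ y, (g y : C) = f y := by
  have hπ : IsQuotientMap fun e => (Quotient.mk _ (q e) : Y) :=
    isQuotientMap_quotient_mk'.comp qq.isQuotientMap
  obtain ⟨a, ha⟩ := QuotientAddGroup.mk_surjective (f (Quotient.mk _ (q 0)))
  obtain ⟨F, ⟨-, hF⟩, -⟩ := cov.existsUnique_continuousMap_lifts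
    ⟨fun e : E => f (Quotient.mk _ (q e)), hf.comp hπ.continuous⟩ 0 a ha
  have hF : ∀ e, (F e : C) = f (Quotient.mk _ (q e)) := congrFun hF
  have key : ∀ g n, ∃ c, ∀ e, F (D g n e) = F e + c := fun g n => ⟨_, fun e => by
    have hD : Continuous (D g n) := by unfold D; fun_prop
    have : ∀ e, ((F (D g n e) - F e : ℝ) : C) = 0 := fun e => by
      rw [AddCircle.coe_sub, hF, hF, qD, MulAction.orbitRel.Quotient.quotient_smul_eq, sub_self]
    exact sub_eq_iff_eq_add'.1 (cov.const_of_comp (g := fun e => F (D g n e) - F e) (by fun_prop)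
      (fun a b => by rw [this, this]) e 0)⟩
  choose c hc using key
  have c1 : ∀ (g : G) (n : ℤ × ℤ × ℤ), c 1 (g.1 * n.1, g.2 * n.2.1, g.1 * g.2 * n.2.2) = c 1 n := by
    intro g n
    have : D g 0 (D 1 n 0) = D 1 (g.1 * n.1, g.2 * n.2.1, g.1 * g.2 * n.2.2) (D g 0 0) := by
      simp [D, hr1, add_comm]
    have := congrArg F this
    simp only [hc] at this
    linarith
  have c2 : ∀ n, c 1 n = 0 := by
    intro n
    have : D 1 (((1 : ℤˣ) : ℤ) * n.1, ((-1 : ℤˣ) : ℤ) * n.2.1, ((1 : ℤˣ) : ℤ) * ((-1 : ℤˣ) : ℤ) * n.2.2)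
        (D 1 (((-1 : ℤˣ) : ℤ) * n.1, ((1 : ℤˣ) : ℤ) * n.2.1, ((-1 : ℤˣ) : ℤ) * ((1 : ℤˣ) : ℤ) * n.2.2)
        (D 1 (((-1 : ℤˣ) : ℤ) * n.1, ((-1 : ℤˣ) : ℤ) * n.2.1, ((-1 : ℤˣ) : ℤ) * ((-1 : ℤˣ) : ℤ) * n.2.2)
        (D 1 n 0))) = 0 := by
      simp [D, hr1]
    have := congrArg F this
    rw [hc, hc, hc, hc, c1 (1, -1), c1 (-1, 1), c1 (-1, -1)] at this
    linarith
  have c3 : ∀ g n, c g n = 0 := by
    intro g n
    have : q (D g n (D g n 0)) = q 0 := by
      rw [qD, qD, smul_smul, show g * g = 1 from Prod.ext (Int.units_mul_self _) (Int.units_mul_self _),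
        one_smul]
    obtain ⟨n1, h1⟩ := ce (congrArg (·.1) this)
    obtain ⟨n2, h2⟩ := ce (congrArg (·.2.1) this)
    obtain ⟨n3, h3⟩ := ce (congrArg (·.2.2) this)
    have : D g n (D g n 0) = D 1 (n1, n2, n3) 0 :=
      Prod.ext (by rw [h1]; simp [D, hr1]) (Prod.ext (by rw [h2]; simp [D, hr1]) (by rw [h3]; simp [D, hr1]))
    have := congrArg F this
    rw [hc, hc, hc, c2] at this
    linarith
  have inv : ∀ e e', (Quotient.mk _ (q e) : Y) = Quotient.mk _ (q e') → F e = F e' := by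
    intro e e' h
    obtain ⟨g, hg⟩ := Quotient.exact h
    have : q e = q (D g 0 e') := by rw [qD]; exact hg.symm
    obtain ⟨n1, h1⟩ := ce (congrArg (·.1) this)
    obtain ⟨n2, h2⟩ := ce (congrArg (·.2.1) this)
    obtain ⟨n3, h3⟩ := ce (congrArg (·.2.2) this)
    have : e = D g (n1, n2, n3) e' :=
      Prod.ext (by rw [h1]; simp [D]) (Prod.ext (by rw [h2]; simp [D]) (by rw [h3]; simp [D]))
    rw [this, hc, c3, add_zero]
  refine ⟨fun y => F (Function.surjInv hπ.surjective y), hπ.continuous_iff.2 ?_, fun y => ?_⟩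
  · exact F.continuous.congr fun e => inv _ _ (Function.surjInv_eq hπ.surjective _).symm
  · rw [hF, Function.surjInv_eq hπ.surjective]

theorem result :
    ¬ (∀ (X Y : Type) [MetricSpace X] [CompactSpace X] [ConnectedSpace X]
      [LocallyConnectedSpace X] [MetricSpace Y] (f : X → Y),
      IsLocalHomeomorph f → Function.Surjective f →
      (∃ A B : Set X, IsClosed A ∧ IsClosed B ∧ IsConnected A ∧ IsConnected B ∧
          A ∪ B = Set.univ ∧ ¬ IsConnected (A ∩ B)) →
      (∃ A B : Set Y, IsClosed A ∧ IsClosed B ∧ IsConnected A ∧ IsConnected B ∧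
          A ∪ B = Set.univ ∧ ¬ IsConnected (A ∩ B))) := by
  intro H
  haveI : SecondCountableTopology Y := ContinuousConstSMul.secondCountableTopology
  letI : MetricSpace Y := TopologicalSpace.metrizableSpaceMetric Y
  obtain ⟨A, B, hA, hB, cA, cB, hAB, h⟩ := H X Y (Quotient.mk _)
    (isQuotientCoveringMap_quotientMk_of_properlyDiscontinuousSMul (G := G)).isCoveringMap.isLocalHomeomorph
    Quotient.mk_surjective (by
      have cl : ∀ a b : ℝ, IsClosed ((((↑) : ℝ → C) '' Icc a b) ×ˢ (univ : Set (C × C))) := fun a b =>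
        (isCompact_Icc.image cov.continuous).isClosed.prod isClosed_univ
      have co : ∀ a b : ℝ, a ≤ b → IsConnected ((((↑) : ℝ → C) '' Icc a b) ×ˢ (univ : Set (C × C))) :=
        fun a b h => ((isConnected_Icc h).image _ cov.continuous.continuousOn).prod isConnected_univ
      refine ⟨_, _, cl 0 (1 / 2), cl (1 / 2) 1, co _ _ (by norm_num), co _ _ (by norm_num), ?_, fun h => ?_⟩
      · refine eq_univ_of_forall fun x => ?_
        obtain ⟨a, ha, e⟩ := AddCircle.eq_coe_Ico (p := (1 : ℝ)) x.1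
        rcases le_total a (1 / 2) with h | h
        · exact Or.inl ⟨⟨a, ⟨ha.1, h⟩, e⟩, trivial⟩
        · exact Or.inr ⟨⟨a, ⟨h, ha.2.le⟩, e⟩, trivial⟩
      · refine (h.2.image (fun x : C × C × C => x.1) continuous_fst.continuousOn).infinite_of_nontrivial
          ⟨((1 / 2 : ℝ) : C), ⟨(_, 0), ⟨⟨⟨_, by norm_num, rfl⟩, trivial⟩, ⟨_, by norm_num, rfl⟩, trivial⟩, rfl⟩,
            0, ⟨(0, 0), ⟨⟨⟨0, by norm_num, rfl⟩, trivial⟩, ⟨1, by norm_num, by simp⟩, trivial⟩, rfl⟩, h0⟩
          ((toFinite {((0 : ℝ) : C), ((1 / 2 : ℝ) : C)}).subset ?_)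
        rintro _ ⟨x, ⟨⟨⟨a, ha, e⟩, -⟩, ⟨b, hb, e'⟩, -⟩, rfl⟩
        obtain ⟨n, hn⟩ := ce (e'.trans e.symm)
        have n0 : (-1 : ℝ) < n := by linarith [ha.2, hb.1]
        have n1 : (n : ℝ) < 2 := by linarith [ha.1, hb.2]
        have n0 : -1 < n := by exact_mod_cast n0
        have n1 : n < 2 := by exact_mod_cast n1
        dsimp only
        rw [← e]
        interval_cases n
        · exact Or.inr (congrArg _ (by push_cast at hn; linarith [ha.2, hb.1]))
        · exact Or.inl (congrArg _ (by push_cast at hn; linarith [ha.1, hb.2])))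
  exact h (unicoh lifts hA hB cA cB hAB)

end Pool.Agent.S13710
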