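import Pool.Statements.S13718
import Pool.Agent.Lib.helper1.Symm

set_option autoImplicit false
open Pool Pool.MP_a761c9_gt

namespace Pool.Agent.S13718

/-- The negation of the preceding statement: Let D map convex bodies (or compact convex sets) in R^n to H-symmetric ones. Suppose D is monotone, preserves mean width and fixes H-symmetric sets. Then D sends every translate K+x of an H-symmetric K, with x orthogonal to H, back to K. -/
theorem result :
    ¬ (∀ (n i : ℕ), i < n →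
  ∀ (H : Submodule ℝ (EuclideanSpace ℝ (Fin n))), Module.finrank ℝ H = i →
  ∀ (b : Bool) (D : Set (EuclideanSpace ℝ (Fin n)) → Set (EuclideanSpace ℝ (Fin n))),
  (∀ K : Set (EuclideanSpace ℝ (Fin n)),
      (IsCompact K ∧ Convex ℝ K ∧ K.Nonempty ∧ (b = true → (interior K).Nonempty)) →
      ((IsCompact (D K) ∧ Convex ℝ (D K) ∧ (D K).Nonempty ∧
          (b = true → (interior (D K)).Nonempty)) ∧
        (∀ x ∈ D K, ∀ y ∈ H, ∀ z ∈ Hᗮ, x = y + z → y - z ∈ D K))) →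
  (∀ K L : Set (EuclideanSpace ℝ (Fin n)),
      (IsCompact K ∧ Convex ℝ K ∧ K.Nonempty ∧ (b = true → (interior K).Nonempty)) →
      (IsCompact L ∧ Convex ℝ L ∧ L.Nonempty ∧ (b = true → (interior L).Nonempty)) →
      K ⊆ L → D K ⊆ D L) →
  (∀ K : Set (EuclideanSpace ℝ (Fin n)),
      (IsCompact K ∧ Convex ℝ K ∧ K.Nonempty ∧ (b = true → (interior K).Nonempty)) →
      (∫ v : EuclideanSpace ℝ (Fin n),
          sSup ((fun y : EuclideanSpace ℝ (Fin n) =>
              @inner ℝ (EuclideanSpace ℝ (Fin n)) _ y v) '' D K) * Real.exp (-‖v‖ ^ 2)) =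
        ∫ v : EuclideanSpace ℝ (Fin n),
          sSup ((fun y : EuclideanSpace ℝ (Fin n) =>
              @inner ℝ (EuclideanSpace ℝ (Fin n)) _ y v) '' K) * Real.exp (-‖v‖ ^ 2)) →
  (∀ K : Set (EuclideanSpace ℝ (Fin n)),
      (IsCompact K ∧ Convex ℝ K ∧ K.Nonempty ∧ (b = true → (interior K).Nonempty)) →
      (∀ x ∈ K, ∀ y ∈ H, ∀ z ∈ Hᗮ, x = y + z → y - z ∈ K) →
      D K = K) →
  ∀ K : Set (EuclideanSpace ℝ (Fin n)),
    (IsCompact K ∧ Convex ℝ K ∧ K.Nonempty ∧ (b = true → (interior K).Nonempty)) →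
    (∀ x ∈ K, ∀ y ∈ H, ∀ z ∈ Hᗮ, x = y + z → y - z ∈ K) →
    ∀ x ∈ Hᗮ, D ((fun y : EuclideanSpace ℝ (Fin n) => y + x) '' K) = K) := by
  intro H
  open Pool.Agent.Lib.helper1.Symm in
  have hI := gauss (E := EuclideanSpace ℝ (Fin 2))
  open Pool.Agent.Lib.helper1.Symm in
  have key := H 2 0 (by norm_num) ⊥ (by simp) false (D fun f => ∫ v, f v * Real.exp (-‖v‖ ^ 2))
    (fun K hK => ⟨⟨D_compact hK.1, D_convex hK.2.1,
      ⟨_, D_mem (zero_cone hK.2.2.1) (zero_cone hK.2.2.1)⟩, by simp⟩, fun x hx y hy z _ e => by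
        obtain rfl : y = 0 := by simpa using hy
        rw [zero_add] at e
        rw [zero_sub, ← e]
        exact mk_neg hx⟩)
    (fun K L hK hL h => D_mono hI hK.1 hK.2.2.1 hL.1 hL.2.1 h)
    (fun K hK => D_mean hI hK.1 hK.2.1 hK.2.2.1)
    (fun K hK hs => D_fix hK.2.1 hK.2.2.1 fun x hx => by
      simpa using hs x hx 0 (by simp) x (by simp) (by simp))
    (segment ℝ (-!₂[0, 1]) !₂[0, 1])
    ⟨by rw [segment_eq_image]; exact isCompact_Icc.image (by fun_prop), convex_segment _ _,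
      ⟨_, right_mem_segment _ _ _⟩, by simp⟩
    (fun x hx y hy z _ e => by
      obtain rfl : y = 0 := by simpa using hy
      rw [zero_add] at e
      obtain ⟨a, b, ha, hb, hab, rfl⟩ := hx
      exact ⟨b, a, hb, ha, by linarith, by rw [← e]; module⟩)
    !₂[1, 0] (by simp)
  open Pool.Agent.Lib.helper1.Symm in
  obtain ⟨β, h1, h2⟩ : ∃ β : ℝ, (β / 2) • (!₂[0, 1] + !₂[1, 0] - 0 : EuclideanSpace ℝ (Fin 2)) ∈
      segment ℝ (-!₂[0, 1]) !₂[0, 1] ∧ ∀ z ∈ segment ℝ (-!₂[0, 1]) !₂[0, 1],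
        ∃ w : EuclideanSpace ℝ (Fin 2), (β / 2) • w = z := by
    have m : (!₂[0, 1] + !₂[1, 0] : EuclideanSpace ℝ (Fin 2)) ∈
        (fun y : EuclideanSpace ℝ (Fin 2) => y + !₂[1, 0]) '' segment ℝ (-!₂[0, 1]) !₂[0, 1] :=
      ⟨_, right_mem_segment _ _ _, rfl⟩
    have m2 := D_mem (I := fun f => ∫ v, f v * Real.exp (-‖v‖ ^ 2)) (sub_cone _ m)
      (zero_cone ⟨_, m⟩)
    rw [key] at m2
    refine ⟨_, m2, fun z hz => ?_⟩
    obtain ⟨p, -, e⟩ := key.ge hz
    exact ⟨_, e⟩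
  obtain ⟨a, b, -, -, -, e⟩ := h1
  obtain ⟨w, e'⟩ := h2 _ (right_mem_segment _ _ _)
  have e0 := congrFun (congrArg WithLp.ofLp e) 0
  have e1 := congrFun (congrArg WithLp.ofLp e') 1
  simp at e0 e1
  simp [← e0] at e1

end Pool.Agent.S13718
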