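import Pool.Statements.S13724
import Pool.Agent.Lib.helper7.VdB

set_option autoImplicit false
open Pool Pool.MP_a8721e_gt

namespace Pool.Agent.S13724

open Pool.Agent.Lib.Helper7Vd Set Filter Topology in
/-- The negation of the preceding statement: For every compact Hausdorff zero-dimensional homogeneous space X, for each pointwise neighborhood U of the identity there are finitely many continuous self-maps g such that every continuous self-map equals some g composed with a continuous map from U. -/
theorem result :
    ¬ (∀ (X : Type) [TopologicalSpace X], T2Space X → CompactSpace X →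
      TopologicalSpace.IsTopologicalBasis {s : Set X | IsClopen s} →
      (∀ x y : X, ∃ h : X ≃ₜ X, h x = y) →
      ∀ U : Set (X → X), U ∈ nhds (id : X → X) →
        ∃ F : Set (X → X), F.Finite ∧ (∀ g ∈ F, Continuous g) ∧
          ∀ f : X → X, Continuous f →
            ∃ g ∈ F, ∃ u ∈ U, Continuous u ∧ f = g ∘ u) := by
  intro h
  obtain ⟨m, m0, m1⟩ := btw (show (0 : ℝ) < 1 by norm_num)
  have p0 : (plus 0).1 m = false := by simp [plus, not_le.2 m0]
  have pm : (plus m).1 m = true := by simp [plus, m1]
  obtain ⟨F, F1, F2, F3⟩ := h X inferInstance inferInstance isTopologicalBasis_isClopen homog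
    {u | (u (plus 0)).1 m = false ∧ (u (plus m)).1 m = true}
    (IsOpen.mem_nhds (by
      have a := (clo m false).isOpen.preimage (continuous_apply (A := fun _ : X => X) (plus 0))
      have b := (clo m true).isOpen.preimage (continuous_apply (A := fun _ : X => X) (plus (m : ℝ)))
      exact a.inter b) ⟨p0, pm⟩)
  have ev2 : ∀ᶠ e in 𝓝[>] (0 : ℝ), ∀ g ∈ F, plus 0 ∉ g '' {D | D.1 m = true} →
      plus e ∉ g '' {D | D.1 m = true} := (eventually_all_finite F1).2 fun g hg => by
    by_cases hp : plus 0 ∈ g '' {D | D.1 m = true}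
    · exact Eventually.of_forall fun _ h => absurd hp h
    · exact ((plus_right 0).eventually ((((clo m true).isClosed.isCompact.image
        (F2 g hg)).isClosed.isOpen_compl).mem_nhds hp)).mono fun _ h _ => h
  obtain ⟨l, l1, l2⟩ := (mem_nhdsGT_iff_exists_Ioo_subset).1 ev2
  obtain ⟨e, e0, e1⟩ := btw (lt_min l1 m0)
  obtain ⟨G, hG⟩ := swap e m one e0.le (e1.le.trans (min_le_right _ _)) m1.le le_rfl
  obtain ⟨g, g1, u, ⟨u1, u2⟩, u3, u4⟩ := F3 G G.continuous
  have ui : Function.Injective u := Function.Injective.of_comp (u4 ▸ G.injective)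
  have gi : Function.Injective g := by
    refine Function.Injective.of_comp_right (u4 ▸ G.injective) (coHopf u3 ui)
  have G0 : G (plus 0) = plus 0 := (hG _).1 (by simp [plus, not_le.2 e0])
  have Gm : G (plus m) = plus e := Subtype.ext (funext fun x => by
    rw [(hG _).2.2.2 pm (plus _).2.2.2]
    have em := e1.trans_le (min_le_right _ _)
    simp only [plus, decide_eq_decide]
    push_cast
    constructor
    · rintro (h | h)
      · exact Or.inr ⟨by linarith, by linarith⟩
      · exact Or.inr ⟨by linarith [h.1], by linarith [h.1]⟩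
    · rintro (h | h)
      · exact Or.inr ⟨by linarith, by linarith⟩
      · exact Or.inr ⟨by linarith [h.1], by linarith [h.1]⟩)
  refine l2 ⟨e0, e1.trans_le (min_le_left _ _)⟩ g g1 ?_ ⟨_, u2, by rw [← Gm, u4]; rfl⟩
  rintro ⟨D, d1, d2⟩
  rw [← G0, u4] at d2
  rw [gi d2] at d1
  exact Bool.noConfusion (d1.symm.trans u1)

end Pool.Agent.S13724
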