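import Pool.Statements.S13747
import Pool.Agent.Lib.helper5.PFin

set_option autoImplicit false
universe u
open Pool Pool.MP_acdd99_gt

namespace Pool.Agent.S13747

/-- For every Tychonoff space X and every nonempty index set ι, the supremum of sizes of point-finite families of nonempty open sets in C_p(X) (pointwise topology) equals the same supremum for the product C_p(X)^ι. -/
theorem result :
    ∀ (X : Type u) [TopologicalSpace X] [T35Space X] (ι : Type u) [Nonempty ι],
      sSup {c : Cardinal.{u} | ∃ 𝒰 : Set (Set {f : X → ℝ // Continuous f}),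
          (∀ U ∈ 𝒰, IsOpen U ∧ U.Nonempty) ∧
          (∀ y : {f : X → ℝ // Continuous f}, {U | U ∈ 𝒰 ∧ y ∈ U}.Finite) ∧
          c = Cardinal.mk ↥𝒰}
        =
      sSup {c : Cardinal.{u} | ∃ 𝒰 : Set (Set (ι → {f : X → ℝ // Continuous f})),
          (∀ U ∈ 𝒰, IsOpen U ∧ U.Nonempty) ∧
          (∀ y : ι → {f : X → ℝ // Continuous f}, {U | U ∈ 𝒰 ∧ y ∈ U}.Finite) ∧
          c = Cardinal.mk ↥𝒰} := by
  exact fun X _ _ ι _ => H5E.PF_pow X ι

end Pool.Agent.S13747
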