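import Pool.Statements.S13772

set_option autoImplicit false
open Pool Pool.MP_b1ea19_gt

namespace Pool.Agent.S13772

section
open Set Filter Topology Real

/-- the sin(1/x) continuum -/
def T : Set (ℝ × ℝ) :=
  {p | (p.1 = 0 ∧ p.2 ∈ Icc (-1 : ℝ) 1) ∨ (0 < p.1 ∧ p.1 ≤ 1 ∧ p.2 = Real.sin p.1⁻¹)}

noncomputable def xSeq (y : ℝ) (k : ℕ) := 1 / (arcsin y + (k + 1) * (2 * π))

lemma xSeq_pos (y : ℝ) (k : ℕ) : 0 < xSeq y k := by
  rw [xSeq, one_div_pos]
  nlinarith [pi_pos, neg_pi_div_two_le_arcsin y]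

lemma sin_inv_xSeq {y : ℝ} (hy : y ∈ Icc (-1) 1) (k : ℕ) : Real.sin (xSeq y k)⁻¹ = y := by
  simpa [xSeq, -Nat.cast_add, ← Nat.cast_succ] using sin_arcsin' hy

lemma xSeq_tendsto (y : ℝ) : Tendsto (xSeq y) atTop (𝓝 0) := by
  refine .comp (g := fun k : ℝ ↦ 1 / (arcsin y + (k + 1) * (2 * π))) ?_ tendsto_natCast_atTop_atTop
  simp only [div_eq_mul_inv, show 𝓝 0 = 𝓝 (1 * (0 : ℝ)) by simp]
  refine (tendsto_inv_atTop_zero.comp <| tendsto_atTop_add_const_left _ _ ?_).const_mul _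
  exact (tendsto_atTop_add_const_right _ _ tendsto_id).atTop_mul_const (by positivity)

lemma exists_mem_Ioo_of_y {y : ℝ} (hy : y ∈ Icc (-1) 1) {a : ℝ} (ha : 0 < a) :
    ∃ x ∈ Ioo 0 a, Real.sin x⁻¹ = y := by
  obtain ⟨N, h_dist⟩ := (Metric.tendsto_nhds.mp (xSeq_tendsto y) (a / 2) (by positivity)).exists
  refine ⟨xSeq y N, ⟨xSeq_pos y N, ?_⟩, sin_inv_xSeq hy _⟩
  rw [Real.dist_eq, sub_zero, abs_of_pos (xSeq_pos _ N)] at h_dist
  linarith

lemma isClosed_T : IsClosed T := by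
  rw [← isSeqClosed_iff_isClosed]
  intro f ⟨x, y⟩ hf hlim
  rw [Prod.tendsto_iff] at hlim
  have h0 : 0 ≤ x := by
    refine isClosed_Ici.mem_of_tendsto hlim.1 (.of_forall fun n ↦ ?_)
    rcases hf n with h | h
    · exact le_of_eq h.1.symm
    · exact h.1.le
  have h1 : x ≤ 1 := by
    refine isClosed_Iic.mem_of_tendsto hlim.1 (.of_forall fun n ↦ ?_)
    rcases hf n with h | h
    · show (f n).1 ≤ 1
      rw [h.1]; exact zero_le_one
    · exact h.2.1
  rcases h0.eq_or_lt with rfl | h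
  · left
    refine ⟨rfl, isClosed_Icc.mem_of_tendsto hlim.2 (.of_forall fun n ↦ ?_)⟩
    rcases hf n with h | h
    · exact h.2
    · show (f n).2 ∈ _
      rw [h.2.2]; exact sin_mem_Icc _
  · right
    refine ⟨h, h1, ?_⟩
    have hc : ContinuousAt (fun x : ℝ ↦ Real.sin x⁻¹) x :=
      continuous_sin.continuousAt.comp <| continuousAt_inv₀ h.ne'
    refine tendsto_nhds_unique hlim.2 ?_
    refine (hc.tendsto.comp hlim.1).congr' ?_
    filter_upwards [hlim.1.eventually (lt_mem_nhds h)] with n hn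
    rcases hf n with h' | h'
    · exact absurd h'.1 (ne_of_gt hn)
    · exact h'.2.2.symm

lemma isCompact_T : IsCompact T := by
  refine (isCompact_Icc (a := ((0:ℝ), (-1:ℝ))) (b := ((1:ℝ), (1:ℝ)))).of_isClosed_subset isClosed_T ?_
  rintro ⟨x, y⟩ (h | h)
  · simp only at h
    exact ⟨⟨le_of_eq h.1.symm, h.2.1⟩, ⟨by rw [h.1]; exact zero_le_one, h.2.2⟩⟩
  · simp only at h
    have := sin_mem_Icc x⁻¹
    rw [← h.2.2] at this
    exact ⟨⟨h.1.le, this.1⟩, ⟨h.2.1, this.2⟩⟩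

abbrev X : Type := ↥T

instance : CompactSpace X := isCompact_iff_compactSpace.mp isCompact_T

lemma fst_nonneg (p : X) : 0 ≤ p.1.1 := by
  rcases p.2 with h | h
  · exact le_of_eq h.1.symm
  · exact h.1.le

lemma fst_le (p : X) : p.1.1 ≤ 1 := by
  rcases p.2 with h | h
  · rw [h.1]; exact zero_le_one
  · exact h.2.1

lemma snd_mem (p : X) : p.1.2 ∈ Icc (-1 : ℝ) 1 := by
  rcases p.2 with h | h
  · exact h.2
  · rw [h.2.2]; exact sin_mem_Icc _

lemma snd_eq {p : X} (hp : 0 < p.1.1) : p.1.2 = Real.sin p.1.1⁻¹ := by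
  rcases p.2 with h | h
  · exact absurd h.1 (ne_of_gt hp)
  · exact h.2.2

lemma eq_of_fst {p q : X} (hp : 0 < p.1.1) (h : q.1.1 = p.1.1) : q = p := by
  apply Subtype.ext
  refine Prod.ext h ?_
  rw [snd_eq hp, snd_eq (h ▸ hp), h]

/-- the point of the ray over `x` -/
noncomputable def ray (x : ℝ) : X :=
  if h : 0 < x ∧ x ≤ 1 then ⟨(x, Real.sin x⁻¹), Or.inr ⟨h.1, h.2, rfl⟩⟩
  else ⟨(0, 0), Or.inl ⟨rfl, by simp⟩⟩

lemma ray_val {x : ℝ} (h0 : 0 < x) (h1 : x ≤ 1) : (ray x).1 = (x, Real.sin x⁻¹) := by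
  simp [ray, h0, h1]

lemma ray_fst {p : X} (hp : 0 < p.1.1) : ray p.1.1 = p :=
  eq_of_fst hp (by rw [ray_val hp (fst_le p)])

lemma ray_cont : ContinuousOn ray (Ioc 0 1) := by
  rw [Topology.IsInducing.subtypeVal.continuousOn_iff]
  have : ContinuousOn (fun x : ℝ => (x, Real.sin x⁻¹)) (Ioc 0 1) := by
    refine continuousOn_id.prodMk ?_
    exact continuous_sin.comp_continuousOn (continuousOn_inv₀.mono fun x hx => ne_of_gt hx.1)
  exact this.congr fun x hx => ray_val hx.1 hx.2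

/-- the point of the limit bar at height `y` -/
noncomputable def bar (y : ℝ) : X :=
  ⟨(0, (projIcc (-1 : ℝ) 1 (by norm_num) y : ℝ)), Or.inl ⟨rfl, (projIcc (-1 : ℝ) 1 (by norm_num) y).2⟩⟩

lemma bar_cont : Continuous bar := by
  refine Continuous.subtype_mk ?_ _
  exact continuous_const.prodMk (continuous_subtype_val.comp continuous_projIcc)

lemma bar_val {y : ℝ} (hy : y ∈ Icc (-1 : ℝ) 1) : (bar y).1 = (0, y) := by
  simp [bar, projIcc_of_mem _ hy]

lemma bar_snd {p : X} (hp : p.1.1 = 0) : bar p.1.2 = p := by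
  apply Subtype.ext
  rw [bar_val (snd_mem p)]
  exact Prod.ext hp.symm rfl

lemma sep_lemma {Y : Type} [TopologicalSpace Y] {C : Set Y} (φ : Y → ℝ) (hφ : Continuous φ)
    {p u v : Y} (hu : u ∈ C) (hv : v ∈ C) (h1 : φ u < φ p) (h2 : φ p < φ v)
    (hinj : ∀ q ∈ C, φ q = φ p → q = p) : ¬ IsPreconnected (C \ {p}) := by
  intro h
  have h' := h.image φ hφ.continuousOn
  have hu' : u ∈ C \ {p} := ⟨hu, fun e => by rw [e] at h1; exact lt_irrefl _ h1⟩
  have hv' : v ∈ C \ {p} := ⟨hv, fun e => by rw [e] at h2; exact lt_irrefl _ h2⟩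
  obtain ⟨q, hq, hq'⟩ := h'.Icc_subset ⟨u, hu', rfl⟩ ⟨v, hv', rfl⟩ ⟨h1.le, h2.le⟩
  exact hq.2 (hinj q hq.1 hq')

/-- Structure of the subcontinua: a point, or the closure of an open arc of cut points. -/
lemma structure_sub (C : Set X) (hC : IsCompact C) (hc : IsConnected C) :
    C.Subsingleton ∨ ∃ (a b : ℝ) (γ : ℝ → X), a < b ∧ ContinuousOn γ (Ioo a b) ∧
      (∀ t ∈ Ioo a b, γ t ∈ C ∧ ¬ IsPreconnected (C \ {γ t})) ∧ C ⊆ closure (γ '' Ioo a b) := by
  have c1 : Continuous fun p : X => p.1.1 := continuous_fst.comp continuous_subtype_val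
  have c2 : Continuous fun p : X => p.1.2 := continuous_snd.comp continuous_subtype_val
  obtain ⟨u, hu, humin⟩ := hC.exists_isMinOn hc.nonempty c1.continuousOn
  obtain ⟨v, hv, hvmax⟩ := hC.exists_isMaxOn hc.nonempty c1.continuousOn
  have hI : Icc u.1.1 v.1.1 ⊆ (fun p : X => p.1.1) '' C :=
    (hc.isPreconnected.image _ c1.continuousOn).Icc_subset ⟨u, hu, rfl⟩ ⟨v, hv, rfl⟩
  rcases (show u.1.1 ≤ v.1.1 from humin hv).eq_or_lt with huv | huv
  · rcases (fst_nonneg v).eq_or_lt with h0 | h0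
    · have hz : ∀ p ∈ C, p.1.1 = 0 := fun p hp =>
        le_antisymm (h0 ▸ (show p.1.1 ≤ v.1.1 from hvmax hp)) (fst_nonneg p)
      obtain ⟨u', hu', humin'⟩ := hC.exists_isMinOn hc.nonempty c2.continuousOn
      obtain ⟨v', hv', hvmax'⟩ := hC.exists_isMaxOn hc.nonempty c2.continuousOn
      have hI' : Icc u'.1.2 v'.1.2 ⊆ (fun p : X => p.1.2) '' C :=
        (hc.isPreconnected.image _ c2.continuousOn).Icc_subset ⟨u', hu', rfl⟩ ⟨v', hv', rfl⟩
      rcases (show u'.1.2 ≤ v'.1.2 from humin' hv').eq_or_lt with huv' | huv'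
      · left
        intro p hp q hq
        have e1 : p.1.2 = q.1.2 := by
          have a1 : u'.1.2 ≤ p.1.2 := humin' hp
          have a2 : p.1.2 ≤ v'.1.2 := hvmax' hp
          have a3 : u'.1.2 ≤ q.1.2 := humin' hq
          have a4 : q.1.2 ≤ v'.1.2 := hvmax' hq
          linarith
        rw [← bar_snd (hz p hp), ← bar_snd (hz q hq), e1]
      · right
        refine ⟨u'.1.2, v'.1.2, bar, huv', bar_cont.continuousOn, ?_, ?_⟩
        · intro t ht
          obtain ⟨p, hp, hpt⟩ := hI' ⟨ht.1.le, ht.2.le⟩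
          simp only at hpt
          have e : bar t = p := by rw [← hpt]; exact bar_snd (hz p hp)
          rw [e]
          refine ⟨hp, sep_lemma (fun p : X => p.1.2) c2 hu' hv' ?_ ?_ ?_⟩
          · simp only [hpt]; exact ht.1
          · simp only [hpt]; exact ht.2
          · intro q hq hqp
            replace hqp : q.1.2 = p.1.2 := hqp
            rw [← bar_snd (hz p hp), ← bar_snd (hz q hq), hqp]
        · intro p hp
          rw [← bar_snd (hz p hp)]
          refine image_closure_subset_closure_image bar_cont ⟨p.1.2, ?_, rfl⟩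
          rw [closure_Ioo huv'.ne]
          exact ⟨humin' hp, hvmax' hp⟩
    · left
      intro p hp q hq
      have a1 : u.1.1 ≤ p.1.1 := humin hp
      have a2 : p.1.1 ≤ v.1.1 := hvmax hp
      have a3 : u.1.1 ≤ q.1.1 := humin hq
      have a4 : q.1.1 ≤ v.1.1 := hvmax hq
      exact eq_of_fst (by linarith) (by linarith)
  · right
    have hsub : Ioo u.1.1 v.1.1 ⊆ Ioc 0 1 := fun t ht =>
      ⟨lt_of_le_of_lt (fst_nonneg u) ht.1, ht.2.le.trans (fst_le v)⟩
    refine ⟨u.1.1, v.1.1, ray, huv, ray_cont.mono hsub, ?_, ?_⟩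
    · intro t ht
      obtain ⟨p, hp, hpt⟩ := hI ⟨ht.1.le, ht.2.le⟩
      simp only at hpt
      have hp0 : 0 < p.1.1 := by rw [hpt]; exact (hsub ht).1
      have e : ray t = p := by rw [← hpt]; exact ray_fst hp0
      rw [e]
      refine ⟨hp, sep_lemma (fun p : X => p.1.1) c1 hu hv ?_ ?_ ?_⟩
      · simp only [hpt]; exact ht.1
      · simp only [hpt]; exact ht.2
      · intro q hq hqp
        exact eq_of_fst hp0 hqp
    · intro p hp
      have a1 : u.1.1 ≤ p.1.1 := humin hp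
      have a2 : p.1.1 ≤ v.1.1 := hvmax hp
      rcases (fst_nonneg p).eq_or_lt with h0 | h0
      · have hu0 : u.1.1 = 0 := le_antisymm (h0 ▸ a1) (fst_nonneg u)
        rw [Metric.mem_closure_iff]
        intro ε hε
        obtain ⟨x, hx, hxy⟩ := exists_mem_Ioo_of_y (snd_mem p) (lt_min hε (hu0 ▸ huv))
        have hx' : x ∈ Ioo u.1.1 v.1.1 := ⟨hu0 ▸ hx.1, hx.2.trans_le (min_le_right _ _)⟩
        refine ⟨ray x, ⟨x, hx', rfl⟩, ?_⟩
        rw [Subtype.dist_eq, ray_val (hsub hx').1 (hsub hx').2, Prod.dist_eq, hxy, ← h0]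
        simp only [dist_self, Real.dist_eq, zero_sub, abs_neg, abs_of_pos hx.1]
        exact max_lt (hx.2.trans_le (min_le_left _ _)) hε
      · rw [← ray_fst h0]
        have hcw : ContinuousWithinAt ray (Ioo u.1.1 v.1.1) p.1.1 :=
          (ray_cont _ ⟨h0, fst_le p⟩).mono hsub
        refine hcw.mem_closure_image ?_
        rw [closure_Ioo huv.ne]
        exact ⟨a1, a2⟩

instance : ConnectedSpace X := by
  have h : closure (ray '' Ioc 0 1) = univ := by
    refine eq_univ_of_forall fun p => ?_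
    rcases (fst_nonneg p).eq_or_lt with h0 | h0
    · rw [Metric.mem_closure_iff]
      intro ε hε
      obtain ⟨x, hx, hxy⟩ := exists_mem_Ioo_of_y (snd_mem p) (lt_min hε zero_lt_one)
      have hx' : x ∈ Ioc (0:ℝ) 1 := ⟨hx.1, hx.2.le.trans (min_le_right _ _)⟩
      refine ⟨ray x, ⟨x, hx', rfl⟩, ?_⟩
      rw [Subtype.dist_eq, ray_val hx'.1 hx'.2, Prod.dist_eq, hxy, ← h0]
      simp only [dist_self, Real.dist_eq, zero_sub, abs_neg, abs_of_pos hx.1]
      exact max_lt (hx.2.trans_le (min_le_left _ _)) hε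
    · exact subset_closure ⟨p.1.1, ⟨h0, fst_le p⟩, ray_fst h0⟩
  rw [connectedSpace_iff_univ, ← h]
  exact ((isConnected_Ioc zero_lt_one).image _ ray_cont).closure

private lemma exists_unitInterval_gt {t₀ : unitInterval} (ht₀ : t₀ < 1) {δ : ℝ} (hδ : 0 < δ) :
    ∃ t₁, t₀ < t₁ ∧ dist t₀ t₁ < δ := by
  let s₀ := (t₀ : ℝ)
  let s₁ := min (s₀ + δ / 2) 1
  have h_s₀_delta_pos : 0 ≤ s₀ + δ / 2 := add_nonneg t₀.2.1 (by positivity)
  have hs₁ : 0 ≤ s₁ := le_min h_s₀_delta_pos zero_le_one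
  have hs₁' : s₁ ≤ 1 := min_le_right ..
  refine ⟨⟨s₁, hs₁, hs₁'⟩, lt_min ((lt_add_iff_pos_right _).mpr (half_pos hδ)) ht₀, ?_⟩
  have h_le : s₁ ≤ s₀ + δ / 2 := min_le_left _ _
  have h_ge : s₀ ≤ s₁ := le_min (by linarith) t₀.2.2
  rw [Subtype.dist_eq, dist_comm, Real.dist_eq, abs_of_nonneg (by linarith)]
  linarith

lemma no_path (p : unitInterval → X) (hp : Continuous p) (h0 : (p 0).1.1 = 0)
    (h1 : (p 1).1.1 = 1) : False := by
  have xc : Continuous fun t ↦ (p t).1.1 := continuous_fst.comp (continuous_subtype_val.comp hp)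
  have yc : Continuous fun t ↦ (p t).1.2 := continuous_snd.comp (continuous_subtype_val.comp hp)
  let t₀ : unitInterval := sSup {t | (p t).1.1 = 0}
  have hcl : IsClosed {t | (p t).1.1 = 0} := isClosed_eq xc continuous_const
  have h_pt₀_x : (p t₀).1.1 = 0 := by
    have := hcl.sSup_mem (s := {t | (p t).1.1 = 0}) ⟨0, h0⟩
    exact this
  obtain ⟨δ, hδ, ht⟩ : ∃ δ, 0 < δ ∧ ∀ t, dist t t₀ < δ → dist (p t).1.2 (p t₀).1.2 < 1 :=
    Metric.eventually_nhds_iff.mp <| Metric.tendsto_nhds.mp (yc.continuousAt (x := t₀)) _ one_pos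
  obtain ⟨t₁, ht₁⟩ : ∃ t₁, t₀ < t₁ ∧ dist t₀ t₁ < δ := by
    refine exists_unitInterval_gt (lt_of_le_of_ne (unitInterval.le_one t₀) fun ht₀' ↦ ?_) hδ
    rw [ht₀'] at h_pt₀_x
    linarith
  have ha : 0 < (p t₁).1.1 := by
    rcases (fst_nonneg (p t₁)).eq_or_lt with h | h
    · exact ((show t₁ ≤ t₀ from le_sSup h.symm).not_gt ht₁.1).elim
    · exact h
  have hI : Icc 0 (p t₁).1.1 ⊆ (fun t ↦ (p t).1.1) '' Icc t₀ t₁ :=
    (isPreconnected_Icc.image _ <| xc.continuousOn).Icc_subset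
      ⟨t₀, ⟨le_rfl, ht₁.1.le⟩, h_pt₀_x⟩ ⟨t₁, ⟨ht₁.1.le, le_rfl⟩, rfl⟩
  have exists_close {y : ℝ} (hy : y ∈ Icc (-1) 1) : ∃ t, dist t t₀ < δ ∧ (p t).1.2 = y := by
    obtain ⟨x, hx, hx'⟩ := exists_mem_Ioo_of_y hy ha
    obtain ⟨t, ht⟩ : ∃ t ∈ Icc t₀ t₁, (p t).1.1 = x := hI ⟨hx.1.le, hx.2.le⟩
    have hp : (p t).1.2 = Real.sin (p t).1.1⁻¹ := snd_eq (ht.2 ▸ hx.1)
    refine ⟨t, ?_, by rw [← hx', hp, ht.2]⟩
    calc
    dist t t₀ ≤ dist t₁ t₀ := Real.dist_right_le_of_mem_uIcc (Icc_subset_uIcc' ht.1)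
    _ = dist t₀ t₁ := by rw [dist_comm]
    _ < δ := ht₁.2
  obtain ⟨x₁, hx₁, h_pathx₁⟩ : ∃ x₁, dist x₁ t₀ < δ ∧ (p x₁).1.2 = 1 := exists_close (by simp)
  obtain ⟨x₂, hx₂, h_pathx₂⟩ : ∃ x₂, dist x₂ t₀ < δ ∧ (p x₂).1.2 = -1 := exists_close (by simp)
  have a1 := ht _ hx₁
  have a2 := ht _ hx₂
  rw [h_pathx₁, Real.dist_eq, abs_lt] at a1
  rw [h_pathx₂, Real.dist_eq, abs_lt] at a2
  linarith [a1.2, a2.1]

lemma main_hyp (C : Set X) (hC : IsCompact C) (hc : IsConnected C) :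
    IsPreconnected {p : X | p ∈ C ∧ ∃ V : Set X, IsOpen V ∧ p ∈ V ∧
          ¬ IsPreconnected (connectedComponentIn (V ∩ C) p \ {p})} := by
  rcases structure_sub C hC hc with h | ⟨a, b, γ, hab, hγ, h1, h2⟩
  · exact (h.anti fun p hp => hp.1).isPreconnected
  · refine (isPreconnected_Ioo.image γ hγ).subset_closure ?_ (fun p hp => h2 hp.1)
    rintro _ ⟨t, ht, rfl⟩
    refine ⟨(h1 t ht).1, univ, isOpen_univ, mem_univ _, ?_⟩
    rw [univ_inter, hc.isPreconnected.connectedComponentIn (h1 t ht).1]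
    exact (h1 t ht).2

end

/-- The negation of the preceding statement: If X is a continuum in which every subcontinuum C has a connected set of local separating points, then any two distinct points of any connected subset of X are joined by an arc lying inside that subset. -/
theorem result :
    ¬ (∀ (X : Type) [MetricSpace X] [CompactSpace X] [ConnectedSpace X],
      (∀ C : Set X, IsCompact C → IsConnected C →
        IsPreconnected {p : X | p ∈ C ∧ ∃ V : Set X, IsOpen V ∧ p ∈ V ∧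
          ¬ IsPreconnected (connectedComponentIn (V ∩ C) p \ {p})}) →
      ∀ A : Set X, IsConnected A → ∀ x ∈ A, ∀ y ∈ A, x ≠ y →
        ∃ f : unitInterval → X, Continuous f ∧ Function.Injective f ∧
          f 0 = x ∧ f 1 = y ∧ Set.range f ⊆ A) := by
  intro h
  have e0 : (bar 0).1.1 = 0 := rfl
  have e1 : (ray 1).1.1 = 1 := by rw [ray_val zero_lt_one le_rfl]
  obtain ⟨f, hf, -, h0, h1, -⟩ := h X main_hyp Set.univ isConnected_univ (bar 0) (Set.mem_univ _)
    (ray 1) (Set.mem_univ _) (fun e => by rw [e, e1] at e0; exact one_ne_zero e0)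
  exact no_path f hf (by rw [h0, e0]) (by rw [h1, e1])

end Pool.Agent.S13772
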