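import Pool.Statements.S13782
import Pool.Agent.Lib.helper17.KDet

set_option autoImplicit false
open Pool Pool.MP_b2bcdc_gt

namespace Pool.Agent.S13782

open Set Filter Topology

def Z : Type := H17K.W 0

noncomputable instance : LinearOrder Z := inferInstanceAs (LinearOrder (H17K.W 0))
instance : WellFoundedLT Z := inferInstanceAs (WellFoundedLT (H17K.W 0))
instance : NoMaxOrder Z := inferInstanceAs (NoMaxOrder (H17K.W 0))
instance : Nonempty Z := inferInstanceAs (Nonempty (H17K.W 0))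
noncomputable instance : TopologicalSpace Z := Preorder.topology Z
instance : OrderTopology Z := ⟨rfl⟩

theorem bddZ {ι : Type} [Countable ι] (s : ι → Z) : ∃ b, ∀ j, s j < b := H17K.bdd_count 0 s

theorem compact_Iic (a : Z) : IsCompact (Iic a) := by
  let _ : OrderBot Z := WellFoundedLT.toOrderBot Z
  let _ : ConditionallyCompleteLinearOrderBot Z :=
    WellFoundedLT.conditionallyCompleteLinearOrderBot Z
  rw [← Icc_bot]
  exact isCompact_Icc

theorem exists_r : ∃ r : Z → ℝ, ∀ a b, ∀ p q : ℚ, r a + p = r b + q → a = b := by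
  let S : Setoid ℝ := ⟨fun x y => ∃ q : ℚ, x = y + q, fun x => ⟨0, by simp⟩,
    fun ⟨q, h⟩ => ⟨-q, by simp [h]⟩, fun ⟨q, h⟩ ⟨q', h'⟩ => ⟨q' + q, by simp [h, h', add_assoc]⟩⟩
  have hU : Uncountable (Quotient S) := by
    by_contra h
    rw [not_uncountable_iff] at h
    have : Function.Surjective fun p : Quotient S × ℚ => p.1.out + p.2 := by
      intro x
      obtain ⟨q, hq⟩ : ∃ q : ℚ, x = (Quotient.mk S x).out + q :=
        S.symm (Quotient.mk_out (s := S) x)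
      exact ⟨(_, q), hq.symm⟩
    exact not_countable this.countable
  have : Cardinal.mk Z ≤ Cardinal.mk (Quotient S) := by
    rw [show Cardinal.mk Z = Cardinal.mk (H17K.W 0) from rfl, H17K.mk_W]
    simp
  obtain ⟨e⟩ := this
  refine ⟨fun a => (e a).out, fun a b p q h => e.injective ?_⟩
  rw [← Quotient.out_equiv_out]
  exact ⟨q - p, by push_cast; linarith⟩

noncomputable def rr : Z → ℝ := exists_r.choose

structure XX where
  a : Z
  s : ℝ
  h : ∃ q : ℚ, s = rr a + q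

theorem dense (a : Z) {t t' : ℝ} (h : t < t') : ∃ y : XX, y.a = a ∧ t < y.s ∧ y.s < t' := by
  obtain ⟨q, h1, h2⟩ := exists_rat_btwn (show t - rr a < t' - rr a by linarith)
  exact ⟨⟨a, rr a + q, q, rfl⟩, rfl, by linarith, by linarith⟩

theorem disj {x y : XX} (h : x.s = y.s) : x.a = y.a := by
  obtain ⟨p, hp⟩ := x.h
  obtain ⟨q, hq⟩ := y.h
  exact exists_r.choose_spec _ _ p q (hp.symm.trans (h.trans hq))

noncomputable instance : TopologicalSpace XX where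
  IsOpen U := ∀ x ∈ U, ∃ t < x.s, ∀ᶠ γ in 𝓝 x.a ⊔ atTop, ∀ y : XX, y.a = γ → t < y.s → y ∈ U
  isOpen_univ := fun x _ => ⟨x.s - 1, by linarith, Eventually.of_forall fun _ _ _ _ => trivial⟩
  isOpen_inter := fun _ _ hs ht x hx => by
    obtain ⟨a, ha, h1⟩ := hs x hx.1
    obtain ⟨b, hb, h2⟩ := ht x hx.2
    exact ⟨max a b, max_lt ha hb, (h1.and h2).mono fun _ h y hy hl =>
      ⟨h.1 y hy ((le_max_left _ _).trans_lt hl), h.2 y hy ((le_max_right _ _).trans_lt hl)⟩⟩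
  isOpen_sUnion := fun _ hS x ⟨u, hu, hx⟩ => by
    obtain ⟨a, ha, h1⟩ := hS u hu x hx
    exact ⟨a, ha, h1.mono fun _ h y hy hl => ⟨u, hu, h y hy hl⟩⟩

theorem open_a {G : Set Z} (h1 : IsOpen G) (h2 : G ∈ atTop) : IsOpen {y : XX | y.a ∈ G} :=
  fun x hx => ⟨x.s - 1, by linarith, eventually_sup.mpr
    ⟨(h1.eventually_mem hx).mono fun _ h _ hy _ => by simpa [hy] using h,
      mem_of_superset h2 fun _ h _ hy _ => by simpa [hy] using h⟩⟩

theorem open_s (t : ℝ) : IsOpen {y : XX | t < y.s} :=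
  fun _ hx => ⟨t, hx, Eventually.of_forall fun _ _ _ h => h⟩

instance : T0Space XX := by
  refine t0Space_iff_or_notMem_closure XX |>.mpr fun x y hxy => ?_
  by_cases h : x.a = y.a
  · have : x.s ≠ y.s := by
      intro h'
      apply hxy
      cases x; cases y
      simp_all
    rcases lt_or_gt_of_ne this with h' | h'
    · right
      intro hc
      obtain ⟨z, h1, h2⟩ := mem_closure_iff.mp hc _ (open_s x.s) h'
      exact absurd (show x.s < z.s from h1) (by rw [show z = x from h2]; exact lt_irrefl _)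
    · left
      intro hc
      obtain ⟨z, h1, h2⟩ := mem_closure_iff.mp hc _ (open_s y.s) h'
      exact absurd (show y.s < z.s from h1) (by rw [show z = y from h2]; exact lt_irrefl _)
  · left
    intro hc
    obtain ⟨_, h1, rfl⟩ := mem_closure_iff.mp hc _
      (open_a isOpen_compl_singleton (eventually_ne_atTop y.a)) h
    exact h1 rfl

theorem bounded {K : Set XX} (hK : IsCompact K) : ∃ β, ∀ y ∈ K, y.a ≤ β := by
  by_contra hn
  push Not at hn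
  let Q : Set ℚ := {q | ∀ β, ∃ y ∈ K, β < y.a ∧ y.s < q}
  have h1 : ∀ q : ℚ, ∃ β, q ∉ Q → ∀ y ∈ K, β < y.a → ¬ y.s < q := by
    intro q
    by_cases h : q ∈ Q
    · exact ⟨Classical.arbitrary _, fun h' => absurd h h'⟩
    · have h' := h
      simp only [Q, mem_ofPred_eq, not_forall, not_exists, not_and] at h'
      obtain ⟨β, hβ⟩ := h'
      exact ⟨β, fun _ => hβ⟩
  choose b hb using h1
  obtain ⟨B, hB⟩ := bddZ b
  have h2 : ∀ y ∈ K, B < y.a → ∀ q : ℚ, y.s < q → q ∈ Q := fun y hy h q hq => by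
    by_contra hQ
    exact hb q hQ y hy ((hB q).trans h) hq
  have : Nonempty Q := by
    obtain ⟨y, hy, h⟩ := hn B
    obtain ⟨q, hq⟩ := exists_rat_gt y.s
    exact ⟨⟨q, h2 y hy h q hq⟩⟩
  have h3 : ∀ β, ∃ y ∈ K, β < y.a ∧ ∀ q ∈ Q, y.s ≤ q := by
    intro β
    obtain ⟨β', hβ⟩ := exists_gt β
    choose y hy1 hy2 hy3 using fun q : Q => q.2 β'
    obtain ⟨δ, hδ⟩ := bddZ fun q => (y q).a
    by_contra hc
    obtain ⟨q, hq⟩ := hK.elim_directed_family_closed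
      (fun q : Q => {z : XX | z.a ∈ (Icc β' δ)ᶜ}ᶜ ∩ {z : XX | ((q : ℚ) : ℝ) < z.s}ᶜ)
      (fun q => (open_a isClosed_Icc.isOpen_compl (mem_of_superset (Ioi_mem_atTop δ)
        fun _ h h' => absurd h (not_lt.mpr h'.2))).isClosed_compl.inter (open_s _).isClosed_compl)
      (by
        rw [eq_empty_iff_forall_notMem]
        rintro z ⟨h1, h2⟩
        rw [mem_iInter] at h2
        refine hc ⟨z, h1, hβ.trans_le (not_not.mp (h2 (Classical.arbitrary _)).1).1, fun q hq =>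
          not_lt.mp (h2 ⟨q, hq⟩).2⟩)
      (by
        intro p q
        rcases le_total ((p : ℚ) : ℝ) ((q : ℚ) : ℝ) with h | h
        · exact ⟨p, subset_rfl, fun z hz => ⟨hz.1, fun h' => hz.2 (lt_of_le_of_lt h h')⟩⟩
        · exact ⟨q, fun z hz => ⟨hz.1, fun h' => hz.2 (lt_of_le_of_lt h h')⟩, subset_rfl⟩)
    exact (eq_empty_iff_forall_notMem.mp hq) (y q)
      ⟨hy1 q, not_not.mpr ⟨(hy2 q).le, (hδ q).le⟩, not_lt.mpr (hy3 q).le⟩
  obtain ⟨y, a1, a2, a3⟩ := h3 B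
  obtain ⟨z, b1, b2, b3⟩ := h3 y.a
  refine b2.ne (disj (le_antisymm ?_ ?_))
  · by_contra h
    obtain ⟨q, c1, c2⟩ := exists_rat_btwn (not_le.mp h)
    exact absurd (a3 q (h2 z b1 (a2.trans b2) q c1)) (not_le.mpr c2)
  · by_contra h
    obtain ⟨q, c1, c2⟩ := exists_rat_btwn (not_le.mp h)
    exact absurd (b3 q (h2 y a1 a2 q c1)) (not_le.mpr c2)

theorem core (U : Set XX) (hU : IsOpen U) (x : XX) (hx : x ∈ U) :
    ∃ V : Set XX, IsOpen V ∧ x ∈ V ∧ V ⊆ U ∧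
      ∀ 𝒰 : Set (Set XX), (∀ W ∈ 𝒰, IsOpen W) → U ⊆ ⋃₀ 𝒰 →
        ∃ 𝒱 ⊆ 𝒰, 𝒱.Finite ∧ V ⊆ ⋃₀ 𝒱 := by
  classical
  obtain ⟨t, ht, hG⟩ := hU x hx
  obtain ⟨t', h1, h2⟩ := exists_between ht
  obtain ⟨hG1, hG2⟩ := eventually_sup.mp hG
  obtain ⟨N, hN1, hN2, hN3⟩ := exists_mem_nhds_isClosed_subset hG1
  obtain ⟨δ, hδ⟩ := eventually_atTop.mp hG2
  have hM : ∀ γ ∈ N ∪ Ici δ, ∀ y : XX, y.a = γ → t < y.s → y ∈ U := by
    rintro γ (h | h)
    · exact hN3 h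
    · exact hδ γ h
  have hI : interior (N ∪ Ici δ) ∈ atTop :=
    mem_of_superset (Ioi_mem_atTop δ)
      (interior_maximal (Ioi_subset_Ici_self.trans subset_union_right) isOpen_Ioi)
  have hx' : x.a ∈ interior (N ∪ Ici δ) :=
    mem_interior_iff_mem_nhds.mpr (mem_of_superset hN1 subset_union_left)
  refine ⟨{y | y.a ∈ interior (N ∪ Ici δ)} ∩ {y | t' < y.s},
    (open_a isOpen_interior hI).inter (open_s _), ⟨hx', h2⟩,
    fun y hy => hM _ (interior_subset hy.1) y rfl (h1.trans hy.2), fun 𝒰 ho hc => ?_⟩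
  have : ∀ γ : Z, ∃ W : Set XX, γ ∈ N ∪ Ici δ → W ∈ 𝒰 ∧
      ∀ᶠ γ' in 𝓝 γ ⊔ atTop, ∀ y : XX, y.a = γ' → t' < y.s → y ∈ W := by
    intro γ
    by_cases hγ : γ ∈ N ∪ Ici δ
    · obtain ⟨y, rfl, a1, a2⟩ := dense γ h1
      obtain ⟨W, hW, hy⟩ := hc (hM _ hγ y rfl a1)
      obtain ⟨u, hu, h⟩ := ho W hW y hy
      exact ⟨W, fun _ => ⟨hW, h.mono fun _ h' z hz hl => h' z hz (by linarith)⟩⟩
    · exact ⟨∅, fun h => absurd h hγ⟩
  choose W hW using this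
  have hδm : δ ∈ N ∪ Ici δ := Or.inr (mem_Ici.mpr le_rfl)
  obtain ⟨ε, hε⟩ := eventually_atTop.mp (eventually_sup.mp (hW δ hδm).2).2
  have hcpt : IsCompact ((N ∪ Ici δ) ∩ Iic ε) :=
    (compact_Iic ε).inter_left (hN2.union isClosed_Ici)
  obtain ⟨F, hF1, hF2⟩ := hcpt.elim_nhds_subcover
    (fun γ => {γ' | ∀ y : XX, y.a = γ' → t' < y.s → y ∈ W γ})
    fun γ hγ => (eventually_sup.mp (hW γ hγ.1).2).1
  refine ⟨W '' insert δ ↑F, ?_, (F.finite_toSet.insert δ).image _, fun y hy => ?_⟩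
  · rintro _ ⟨γ, rfl | hγ, rfl⟩
    · exact (hW _ hδm).1
    · exact (hW _ (hF1 γ hγ).1).1
  · have hy1 : y.a ∈ N ∪ Ici δ := interior_subset hy.1
    have hy2 : t' < y.s := hy.2
    rcases le_total y.a ε with h | h
    · obtain ⟨γ, hγ, h'⟩ := mem_iUnion₂.mp (hF2 ⟨hy1, h⟩)
      exact ⟨W γ, ⟨γ, Or.inr hγ, rfl⟩, h' y rfl hy2⟩
    · exact ⟨W δ, ⟨δ, Or.inl rfl, rfl⟩, hε _ h y rfl hy2⟩

theorem irr : IsIrreducible (univ : Set XX) := by
  obtain ⟨x0, _⟩ := dense (Classical.arbitrary Z) zero_lt_one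
  refine ⟨⟨x0, trivial⟩, fun U V hU hV ⟨x, _, hx⟩ ⟨y, _, hy⟩ => ?_⟩
  obtain ⟨a, _, h1⟩ := hU x hx
  obtain ⟨b, _, h2⟩ := hV y hy
  obtain ⟨γ, h3, h4⟩ := ((eventually_sup.mp h1).2.and (eventually_sup.mp h2).2).exists
  obtain ⟨z, h5, h6, _⟩ := dense γ (lt_add_one (max a b))
  exact ⟨z, trivial, h3 z h5 ((le_max_left _ _).trans_lt h6),
    h4 z h5 ((le_max_right _ _).trans_lt h6)⟩

/-- The negation of the preceding statement: In every core compact T0 space, each irreducible closed set A has a nonempty downward-directed family of compact saturated sets such that A meets all of them and no smaller closed subset of A meets all of them. -/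
theorem result :
    ¬ (∀ (X : Type) [TopologicalSpace X] [T0Space X],
      (∀ U : Set X, IsOpen U → ∀ x ∈ U, ∃ V : Set X, IsOpen V ∧ x ∈ V ∧ V ⊆ U ∧
        ∀ 𝒰 : Set (Set X), (∀ W ∈ 𝒰, IsOpen W) → U ⊆ ⋃₀ 𝒰 →
          ∃ 𝒱 ⊆ 𝒰, 𝒱.Finite ∧ V ⊆ ⋃₀ 𝒱) →
      ∀ A : Set X, IsClosed A → IsIrreducible A →
        ∃ 𝒦 : Set (Set X), 𝒦.Nonempty ∧
          (∀ K ∈ 𝒦, IsCompact K ∧
            ∀ x : X, (∀ U : Set X, IsOpen U → K ⊆ U → x ∈ U) → x ∈ K) ∧
          (∀ K₁ ∈ 𝒦, ∀ K₂ ∈ 𝒦, ∃ K₃ ∈ 𝒦, K₃ ⊆ K₁ ∩ K₂) ∧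
          (∀ K ∈ 𝒦, (A ∩ K).Nonempty) ∧
          ∀ B : Set X, IsClosed B → B ⊆ A → (∀ K ∈ 𝒦, (B ∩ K).Nonempty) → B = A) := by
  intro h
  obtain ⟨𝒦, ⟨K0, hK0⟩, h1, h2, h3, h4⟩ := h XX core univ isClosed_univ irr
  obtain ⟨β, hβ⟩ := bounded (h1 K0 hK0).1
  have := h4 {y : XX | y.a ∈ Ioi β}ᶜ (open_a isOpen_Ioi (Ioi_mem_atTop β)).isClosed_compl
    (subset_univ _) fun K hK => by
      obtain ⟨K', a1, a2⟩ := h2 K hK K0 hK0
      obtain ⟨y, _, hy⟩ := h3 K' a1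
      exact ⟨y, not_lt.mpr (hβ y (a2 hy).2), (a2 hy).1⟩
  obtain ⟨γ, hγ⟩ := exists_gt β
  obtain ⟨y, rfl, _⟩ := dense γ zero_lt_one
  exact (this ▸ mem_univ y : y ∈ {y : XX | y.a ∈ Ioi β}ᶜ) hγ

end Pool.Agent.S13782
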