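import Pool.Statements.S13784
import Pool.Agent.Lib.helper4.Simon

set_option autoImplicit false
open Pool Pool.MP_b3099b_gt

namespace Pool.Agent.S13784

/-- The negation of the preceding statement: A T1 space is Fréchet and semistratifiable if and only if it is the image of some semimetrizable space under a continuous closed surjection. -/
theorem result :
    ¬ (∀ (Y : Type) [TopologicalSpace Y], T1Space Y →
      ((FrechetUrysohnSpace Y ∧
        ∃ G : Set Y → ℕ → Set Y,
          (∀ F : Set Y, IsClosed F → ∀ n, IsOpen (G F n)) ∧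
          (∀ F : Set Y, IsClosed F → ⋂ n, G F n = F) ∧
          (∀ F K : Set Y, IsClosed F → IsClosed K → F ⊆ K → ∀ n, G F n ⊆ G K n))
      ↔
      ∃ (X : Type) (_ : TopologicalSpace X) (d : X → X → ℝ),
        (∀ x y, 0 ≤ d x y) ∧ (∀ x y, d x y = 0 ↔ x = y) ∧ (∀ x y, d x y = d y x) ∧
        (∀ x, (nhds x).HasBasis (fun ε : ℝ => 0 < ε) (fun ε => {y | d x y < ε})) ∧
        ∃ f : X → Y, Continuous f ∧ IsClosedMap f ∧ Function.Surjective f)) := by
  intro h
  obtain ⟨t, h1, h2, h3⟩ := Pool.Agent.Lib.helper4.Simon.exists_space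
  obtain ⟨X, _, d, -, -, -, hb, f, f1, f2, f3⟩ := (@h _ t inferInstance).1
    ⟨h2, Pool.Agent.Lib.helper4.Simon.semistrat _⟩
  have : FirstCountableTopology X := ⟨fun x => ((hb x).to_hasBasis
    (p' := fun _ : ℕ => True) (s' := fun n => {y | d x y < 1 / ((n : ℝ) + 1)})
    (fun ε hε => (exists_nat_one_div_lt hε).imp fun n hn => ⟨trivial, fun y hy => lt_trans hy hn⟩)
    fun n _ => ⟨_, Nat.one_div_pos_of_nat, subset_rfl⟩).isCountablyGenerated⟩
  exact h3 X f f1 f2 f3

end Pool.Agent.S13784
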