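import Pool.Statements.S13790
import Pool.Agent.Lib.helper5.Whyb

set_option autoImplicit false
open Pool Pool.MP_b4086f_gt

namespace Pool.Agent.S13790

/-- The negation of the preceding statement: In the space of continuous real functions on the countable power of the reals, with the pointwise topology, every non-closed set A contains a subset B whose closure is B plus exactly one point lying outside A. -/
theorem result :
    ¬ (∀ A : Set {f : (ℕ → ℝ) → ℝ // Continuous f}, ¬ IsClosed A →
      ∃ B : Set {f : (ℕ → ℝ) → ℝ // Continuous f}, B ⊆ A ∧
        ∃ x : {f : (ℕ → ℝ) → ℝ // Continuous f}, x ∉ A ∧ closure B = insert x B) := by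
  exact H5Wh.main

end Pool.Agent.S13790
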