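import Pool.Statements.S13812

set_option autoImplicit false
open Pool Pool.MP_b81b72_gt
open MeasureTheory Set Filter Topology
open scoped ENNReal

namespace Pool.Agent.S13812

noncomputable def mu : Measure ℕ := Measure.count.withDensity fun n => ((n.unpair.1 : ℝ≥0∞) + 1)⁻¹

lemma mu_row (k : ℕ) (s : Set ℕ) (h : ∀ n ∈ s, n.unpair.1 = k) :
    mu s = ((k : ℝ≥0∞) + 1)⁻¹ * Measure.count s := by
  rw [mu, withDensity_apply _ MeasurableSet.of_discrete, ← setLIntegral_const]
  exact setLIntegral_congr_fun MeasurableSet.of_discrete fun n hn => by simp [h n hn]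

noncomputable abbrev P (n : ℕ) : ℕ := Nat.nth Nat.Prime n

def bad {G : Type} [AddCommGroup G] (x : G) : Set ℕ := {n | ¬ ∃ y, P n • y = x}

noncomputable def nu (G : Type) [AddCommGroup G] : AddGroupSeminorm G where
  toFun x := (min 1 (mu (bad x))).toReal
  map_zero' := by
    have : bad (0 : G) = ∅ := by
      ext n
      simp only [bad, mem_setOf_eq, mem_empty_iff_false, iff_false, not_not]
      exact ⟨0, smul_zero _⟩
    simp [this]
  add_le' x y := by
    rw [← ENNReal.toReal_add (by simp) (by simp)]
    refine ENNReal.toReal_mono (by simp) ?_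
    have : mu (bad (x + y)) ≤ mu (bad x) + mu (bad y) := by
      refine (measure_mono fun n hn => ?_).trans (measure_union_le _ _)
      by_contra h
      simp only [bad, mem_union, mem_setOf_eq, not_or, not_not] at h hn
      obtain ⟨⟨a, rfl⟩, b, rfl⟩ := h
      exact hn ⟨a + b, smul_add _ _ _⟩
    rcases le_total 1 (mu (bad x)) with h | h
    · rw [min_eq_left h]
      exact (min_le_left _ _).trans le_self_add
    rcases le_total 1 (mu (bad y)) with h' | h'
    · rw [min_eq_left h']
      exact (min_le_left _ _).trans le_add_self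
    rw [min_eq_right h, min_eq_right h']
    exact (min_le_right _ _).trans this
  neg' x := by
    have : bad (-x) = bad x := by
      ext n
      simp only [bad, mem_setOf_eq, not_iff_not]
      exact ⟨fun ⟨y, h⟩ => ⟨-y, by rw [smul_neg, h, neg_neg]⟩, fun ⟨y, h⟩ => ⟨-y, by rw [smul_neg, h]⟩⟩
    rw [this]

@[reducible] noncomputable def sn (G : Type) [AddCommGroup G] : SeminormedAddCommGroup G :=
  (nu G).toSeminormedAddCommGroup

noncomputable def T (G : Type) [AddCommGroup G] : AddGroupTopology G :=
  letI := sn G
  { toTopologicalSpace := inferInstance, continuous_add := continuous_add,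
    continuous_neg := continuous_neg }

abbrev G0 : Type := ∀ n : ℕ, ZMod (P n)

lemma bad0 (x : G0) : bad x = {n | x n ≠ 0} := by
  ext n
  simp only [bad, mem_setOf_eq, not_iff_not]
  constructor
  · rintro ⟨y, rfl⟩
    simp
  · intro h
    refine ⟨fun m => (P n : ZMod (P m))⁻¹ * x m, funext fun m => ?_⟩
    by_cases e : m = n
    · subst e
      simp [h]
    · have : (P n).Coprime (P m) := (Nat.coprime_primes (Nat.prime_nth_prime _)
        (Nat.prime_nth_prime _)).2 fun h' => e (Nat.nth_injective Nat.infinite_setOf_prime h').symm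
      simp only [Pi.smul_apply, nsmul_eq_mul]
      rw [← mul_assoc, ZMod.coe_mul_inv_eq_one _ this, one_mul]

open Classical in
noncomputable def ind (A : Set ℕ) : G0 := fun n => if n ∈ A then 1 else 0

lemma bad_ind (A B : Set ℕ) (h : A ⊆ B) : bad (ind B - ind A) = B \ A := by
  rw [bad0]
  ext n
  haveI : Fact (P n).Prime := ⟨Nat.prime_nth_prime _⟩
  by_cases a : n ∈ A <;> by_cases b : n ∈ B <;> simp [ind, a, b]
  exact b (h a)

theorem result :
    ¬ (∀ T : ∀ (G : Type) [AddCommGroup G], AddGroupTopology G,
      (∀ (G H : Type) [AddCommGroup G] [AddCommGroup H] (f : G →+ H),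
        @Continuous G H (T G).toTopologicalSpace (T H).toTopologicalSpace f) →
      ∀ (G : Type) [AddCommGroup G], Infinite G →
        @T2Space G (T G).toTopologicalSpace →
        ∃ B : Set (Set G),
          @TopologicalSpace.IsTopologicalBasis G (T G).toTopologicalSpace B ∧
          ∀ s ∈ B, @IsClopen G (T G).toTopologicalSpace s) := by
  intro H
  letI := sn G0
  letI : TopologicalSpace G0 := (sn G0).toPseudoMetricSpace.toUniformSpace.toTopologicalSpace
  have nrm : ∀ x : G0, ‖x‖ = (min 1 (mu (bad x))).toReal := fun _ => rfl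
  have dst : ∀ A B, A ⊆ B → dist (ind B) (ind A) = (min 1 (mu (B \ A))).toReal := fun A B h => by
    rw [dist_eq_norm, nrm, bad_ind A B h]
  obtain ⟨B, hB, hc⟩ := H T (fun G H _ _ f => by
      letI := sn G
      letI := sn H
      refine AddMonoidHomClass.continuous_of_bound f 1 fun x => ?_
      rw [one_mul]
      refine ENNReal.toReal_mono (by simp) (min_le_min_left _ (measure_mono fun n hn => ?_))
      rintro ⟨y, rfl⟩
      exact hn ⟨f y, (map_nsmul f _ _).symm⟩) G0
    (Infinite.of_injective (fun n => ind {n}) fun a b h => by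
      by_contra e
      haveI : Fact (P a).Prime := ⟨Nat.prime_nth_prime _⟩
      simpa [ind, e] using congrFun h a)
    (by
      haveI : T0Space G0 := ⟨fun x y h => by
        rw [Metric.inseparable_iff, dist_eq_norm, nrm, bad0] at h
        funext n
        by_contra e
        have h1 : mu {n} ≤ mu {n | (x - y) n ≠ 0} :=
          measure_mono (singleton_subset_iff.2 (sub_ne_zero.2 e))
        rw [mu_row n.unpair.1 _ (by simp)] at h1
        rcases (ENNReal.toReal_eq_zero_iff _).1 h with h | h
        · rcases min_eq_iff.1 h with h | h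
          · simp at h
          · rw [h.1] at h1
            simp at h1
        · simp at h⟩
      exact (inferInstance : T2Space G0))
  obtain ⟨U, hU, h0, hs⟩ := hB.mem_nhds_iff.1 (Metric.ball_mem_nhds (ind ∅) (by norm_num : (0 : ℝ) < 1 / 2))
  have hU' := hc U hU
  have small : ∀ A, ind A ∈ U → mu A ≤ 1 / 2 := by
    intro A hA
    have := hs hA
    rw [Metric.mem_ball, dst _ _ (empty_subset _), diff_empty] at this
    have h2 : min 1 (mu A) < 1 / 2 := by
      rw [← ENNReal.toReal_lt_toReal (by simp) (by simp)]
      simpa using this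
    rcases min_lt_iff.1 h2 with h | h
    · simp at h
    · exact h.le
  have step : ∀ (k : ℕ) (A : {A // ind A ∈ U}), ∃ A' : {A // ind A ∈ U}, A.1 ⊆ A'.1 ∧
      ∃ y ∉ U, dist y (ind A'.1) ≤ 1 / ((k : ℝ) + 1) := by
    intro k A
    let C : ℕ → Set ℕ := fun j => A.1 ∪ ({n | n.unpair.1 = k} ∩ Iio j)
    have Cm : Monotone C := fun i j h => union_subset_union_right _ (inter_subset_inter_right _ (Iio_subset_Iio h))
    have ex : ∃ j, ind (C j) ∉ U := by
      by_contra h
      push Not at h
      have h1 : mu (⋃ j, C j) ≤ 1 / 2 := by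
        rw [Cm.measure_iUnion]
        exact iSup_le fun j => small _ (h j)
      have h2 : mu {n | n.unpair.1 = k} ≤ mu (⋃ j, C j) :=
        measure_mono fun n hn => mem_iUnion.2 ⟨n + 1, Or.inr ⟨hn, Nat.lt_succ_self n⟩⟩
      rw [mu_row k {n | n.unpair.1 = k} (fun n hn => hn), Measure.count_apply_infinite (infinite_of_injective_forall_mem
        (f := Nat.pair k) (fun a b h => (Nat.pair_eq_pair.1 h).2) (by simp)), ENNReal.mul_top (by simp)] at h2
      simpa using h2.trans h1
    classical
    have h0 : Nat.find ex ≠ 0 := fun e => by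
      have := Nat.find_spec ex
      rw [e] at this
      simp [C, A.2] at this
    obtain ⟨j, hj⟩ := Nat.exists_eq_succ_of_ne_zero h0
    have h1 := Nat.find_spec ex
    have h2 := Nat.find_min ex (m := j) (by omega)
    rw [hj] at h1
    refine ⟨⟨C j, not_not.1 h2⟩, subset_union_left, _, h1, ?_⟩
    rw [dst _ _ (Cm (Nat.le_succ j))]
    have h3 : mu (C j.succ \ C j) ≤ ((k : ℝ≥0∞) + 1)⁻¹ := by
      have : C j.succ \ C j ⊆ {n | n.unpair.1 = k} ∩ {j} := by
        rintro n ⟨a | a, b⟩
        · exact absurd (Or.inl a) b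
        · refine ⟨a.1, ?_⟩
          have : ¬ n < j := fun e => b (Or.inr ⟨a.1, e⟩)
          have : n < j + 1 := a.2
          simp only [mem_singleton_iff]
          omega
      refine (measure_mono this).trans ?_
      rw [mu_row k _ (fun n hn => hn.1)]
      refine mul_le_of_le_one_right' ((measure_mono inter_subset_right).trans (by simp))
    refine (ENNReal.toReal_mono (by simp) ((min_le_right _ _).trans h3)).trans_eq ?_
    rw [ENNReal.toReal_inv, ENNReal.toReal_add (by simp) (by simp)]
    simp
  choose F hF y hy hd using step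
  let A : ℕ → {A // ind A ∈ U} := fun k => Nat.rec ⟨∅, h0⟩ F k
  have Am : Monotone fun k => (A k).1 := monotone_nat_of_le_succ fun k => hF k (A k)
  have fin : mu (⋃ k, (A k).1) ≤ 1 / 2 := by
    rw [Am.measure_iUnion]
    exact iSup_le fun j => small _ (A j).2
  have t1 : Tendsto (fun k => mu ((⋃ k, (A k).1) \ (A k).1)) atTop (𝓝 0) := by
    have := tendsto_measure_iInter_atTop (μ := mu) (s := fun k => (⋃ k, (A k).1) \ (A k).1)
      (fun _ => MeasurableSet.of_discrete.nullMeasurableSet)
      (fun i j h => diff_subset_diff_right (Am h))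
      ⟨0, ne_top_of_le_ne_top (by simp) ((measure_mono diff_subset).trans fin)⟩
    rwa [← diff_iUnion, diff_self, measure_empty] at this
  have t2 : Tendsto (fun k => ind (A k).1) atTop (𝓝 (ind (⋃ k, (A k).1))) := by
    rw [tendsto_iff_dist_tendsto_zero]
    simp only [dist_comm _ (ind (⋃ k, (A k).1)), dst _ _ (subset_iUnion (fun k => (A k).1) _)]
    have := (ENNReal.tendsto_toReal (a := min 1 0) (by simp)).comp (tendsto_const_nhds.min t1)
    simpa [Function.comp_def] using this
  have t3 : Tendsto (fun k => y k (A k)) atTop (𝓝 (ind (⋃ k, (A k).1))) := by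
    refine (t2.comp (tendsto_add_atTop_nat 1)).congr_dist ?_
    refine squeeze_zero (fun _ => dist_nonneg) (fun k => ?_) tendsto_one_div_add_atTop_nhds_zero_nat
    rw [dist_comm]
    exact hd k (A k)
  exact hU'.isOpen.isClosed_compl.mem_of_tendsto t3 (Eventually.of_forall fun k => hy k (A k))
    (hU'.isClosed.mem_of_tendsto t2 (Eventually.of_forall fun k => (A k).2))

end Pool.Agent.S13812
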