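import Pool.Statements.S13822
import Pool.Agent.Lib.helper5.IsoG

set_option autoImplicit false
open Pool Pool.MP_ba0d78_gt

namespace Pool.Agent.S13822

/-- The negation of the preceding statement: For every Tychonoff space X, C_p(X) (continuous real functions with pointwise topology) has every closed countably compact subset compact iff the closure of every subset countably compact in C_p(X) is compact. -/
theorem result :
    ¬ (∀ (X : Type) [TopologicalSpace X] [T35Space X],
      ((∀ S : Set {f : X → ℝ // Continuous f}, IsClosed S →
          (∀ u : ℕ → {f : X → ℝ // Continuous f}, (∀ n, u n ∈ S) →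
            ∃ z ∈ S, MapClusterPt z Filter.atTop u) →
          IsCompact S) ↔
       (∀ A : Set {f : X → ℝ // Continuous f},
          (∀ u : ℕ → {f : X → ℝ // Continuous f}, (∀ n, u n ∈ A) →
            ∃ z, MapClusterPt z Filter.atTop u) →
          IsCompact (closure A)))) := by
  intro H
  obtain ⟨𝒜, h1, h2, h3⟩ := H5IG.mad
  have : Nonempty 𝒜 := ⟨⟨_, h3 0⟩⟩
  exact H5IG.notc h1 h3 ((H (H5IG.X 𝒜)).1 (fun S _ => H5IG.iso) _ (H5IG.relcc h1 h2))

end Pool.Agent.S13822
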