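import Pool.Statements.S13824
import Pool.Agent.Lib.helper4.EqAng

set_option autoImplicit false
open Pool Pool.MP_ba31d6_gt

namespace Pool.Agent.S13824

section
open Finset Module Pool.Agent.H4EqAng
open scoped RealInnerProductSpace

/-- the test space: two blocks of 17 points -/
def M : Type := Bool × Fin 17

instance : DecidableEq M := inferInstanceAs (DecidableEq (Bool × Fin 17))
instance : Fintype M := inferInstanceAs (Fintype (Bool × Fin 17))

lemma th1 : Real.arccos (1 / 3) ≤ Real.pi / 2 := Real.arccos_le_pi_div_two.2 (by norm_num)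

lemma th2 : Real.pi / 3 ≤ Real.arccos (1 / 3) := by
  have := Real.arccos_cos (x := Real.pi / 3) (by positivity) (by linarith [Real.pi_pos])
  rw [← this, Real.cos_pi_div_three]
  exact Real.arccos_le_arccos (by norm_num)

/-- the distance -/
noncomputable def dM (x y : M) : ℝ :=
  if x = y then 0 else if x.1 = y.1 then Real.arccos (1 / 3) else Real.pi / 2

lemma dM_le (x y : M) : dM x y ≤ Real.pi / 2 := by
  unfold dM
  split_ifs
  · positivity
  · exact th1
  · exact le_rfl

lemma dM_ge (x y : M) (h : x ≠ y) : Real.pi / 3 ≤ dM x y := by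
  unfold dM
  rw [if_neg h]
  split_ifs
  · exact th2
  · linarith [Real.pi_pos]

noncomputable instance : MetricSpace M where
  dist := dM
  dist_self x := by simp [dM]
  dist_comm x y := by simp only [dM, eq_comm]
  dist_triangle x y z := by
    by_cases h1 : x = y
    · subst h1; simp [dM]
    by_cases h2 : y = z
    · subst h2; simp [dM]
    linarith [dM_le x z, dM_ge x y h1, dM_ge y z h2, Real.pi_pos]
  eq_of_dist_eq_zero := by
    intro x y h
    by_contra hne
    linarith [dM_ge x y hne, Real.pi_pos]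

/-- supports -/
def tri : List (List ℕ) := [[0, 1, 2], [0, 3, 4], [1, 3, 5], [2, 4, 5], [0, 5, 6]]

/-- integer vectors: block `b`, number `i`, coordinate `k` -/
def W (b : Bool) (i : Fin 17) (k : Fin 13) : ℤ :=
  let t := tri.getD (i.1 / 4) []
  let o := if b then 6 else 0
  if k.1 = o + t.getD 0 0 then 1
  else if k.1 = o + t.getD 1 0 then (if i.1 % 2 = 0 then 1 else -1)
  else if k.1 = o + t.getD 2 0 then (if i.1 % 4 < 2 then 1 else -1) else 0

lemma W_spec : ∀ (b c : Bool) (i j : Fin 17), (b = false → i ≠ 16) → (c = false → j ≠ 16) →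
    |∑ k, W b i k * W c j k| = if b = c then (if i = j then 3 else 1) else 0 := by
  decide +kernel

/-- the unit vectors -/
noncomputable def U (b : Bool) (i : Fin 17) : EuclideanSpace ℝ (Fin 13) :=
  WithLp.toLp 2 fun k => (W b i k : ℝ) / √3

lemma U_inner (b c : Bool) (i j : Fin 17) (h1 : b = false → i ≠ 16) (h2 : c = false → j ≠ 16) :
    |⟪U b i, U c j⟫| = if b = c then (if i = j then 1 else 1 / 3) else 0 := by
  have h := W_spec b c i j h1 h2
  have e : ⟪U b i, U c j⟫ = ((∑ k, W b i k * W c j k : ℤ) : ℝ) / 3 := by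
    simp only [U, PiLp.inner_apply, Real.inner_apply]
    push_cast
    rw [sum_div]
    refine sum_congr rfl fun k _ => ?_
    have : √3 * √3 = 3 := Real.mul_self_sqrt (by norm_num)
    rw [div_mul_div_comm, this]
  rw [e, abs_div, ← Int.cast_abs, h]
  split_ifs <;> norm_num

lemma small (s : Finset M) (hs : s.card ≤ 33) :
    ∃ f : M → EuclideanSpace ℝ (Fin 13), (∀ x ∈ s, ‖f x‖ = 1) ∧
      ∀ x ∈ s, ∀ y ∈ s, Real.arccos |⟪f x, f y⟫| = dist x y := by
  obtain ⟨z, hz⟩ : ∃ z, z ∉ s := by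
    by_contra hn
    push Not at hn
    rw [eq_univ_of_forall hn, card_univ] at hs
    have : Fintype.card M = 34 := by decide
    omega
  let f : M → EuclideanSpace ℝ (Fin 13) := fun x => U (xor x.1 z.1) (Equiv.swap z.2 16 x.2)
  have h0 : ∀ x ∈ s, xor x.1 z.1 = false → Equiv.swap z.2 16 x.2 ≠ 16 := by
    intro x hx h e
    rw [Equiv.swap_apply_eq_iff, Equiv.swap_apply_right] at e
    refine hz ((Prod.ext ?_ e : x = z) ▸ hx)
    simpa using h
  have h1 : ∀ x ∈ s, ∀ y ∈ s, |⟪f x, f y⟫| =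
      if x.1 = y.1 then (if x.2 = y.2 then 1 else 1 / 3) else 0 := by
    intro x hx y hy
    rw [U_inner _ _ _ _ (h0 x hx) (h0 y hy)]
    simp
  refine ⟨f, fun x hx => ?_, fun x hx y hy => ?_⟩
  · have := h1 x hx x hx
    rw [real_inner_self_eq_norm_sq, if_pos rfl, if_pos rfl, abs_of_nonneg (sq_nonneg _)] at this
    nlinarith [norm_nonneg (f x)]
  · rw [h1 x hx y hy]
    show _ = dM x y
    unfold dM
    by_cases e : x = y
    · subst e; simp
    · rw [if_neg e]
      by_cases e1 : x.1 = y.1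
      · rw [if_pos e1, if_pos e1, if_neg fun e2 => e (Prod.ext e1 e2)]
      · simp [e1]

lemma block (f : Fin 17 → EuclideanSpace ℝ (Fin 13)) (h1 : ∀ i, ‖f i‖ = 1)
    (h2 : ∀ i j, i ≠ j → |⟪f i, f j⟫| = 1 / 3) :
    7 ≤ finrank ℝ (Submodule.span ℝ (Set.range f)) := by
  have := rel_bound (E := Submodule.span ℝ (Set.range f)) (n := 16)
    (fun i => ⟨f i, Submodule.subset_span ⟨i, rfl⟩⟩) (1 / 3) h1 h2
  by_contra hn
  have h : (finrank ℝ (Submodule.span ℝ (Set.range f)) : ℝ) ≤ 6 := by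
    exact_mod_cast (by omega : finrank ℝ (Submodule.span ℝ (Set.range f)) ≤ 6)
  norm_num at this
  linarith

lemma dM_same (x y : M) (h1 : x.1 = y.1) (h2 : x.2 ≠ y.2) : dM x y = Real.arccos (1 / 3) := by
  unfold dM
  rw [if_neg fun e => h2 (by rw [e]), if_pos h1]

lemma dM_diff (x y : M) (h1 : x.1 ≠ y.1) : dM x y = Real.pi / 2 := by
  unfold dM
  rw [if_neg fun e => h1 (by rw [e]), if_neg h1]

lemma big : ¬ ∃ f : M → EuclideanSpace ℝ (Fin 13), (∀ x, ‖f x‖ = 1) ∧
    ∀ x y, Real.arccos |⟪f x, f y⟫| = dist x y := by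
  rintro ⟨f, h1, h2⟩
  have hle : ∀ x y, |⟪f x, f y⟫| ≤ 1 := fun x y => by
    have := abs_real_inner_le_norm (f x) (f y)
    rwa [h1, h1, mul_one] at this
  have h3 : ∀ x y, |⟪f x, f y⟫| = Real.cos (dM x y) := fun x y => by
    rw [← Real.cos_arccos (by linarith [abs_nonneg ⟪f x, f y⟫]) (hle x y), h2]
    rfl
  have h4 : ∀ b : Bool, 7 ≤ finrank ℝ (Submodule.span ℝ (Set.range fun i => f (b, i))) := fun b => by
    refine block _ (fun i => h1 _) fun i j hij => ?_
    rw [h3, dM_same (b, i) (b, j) rfl hij, Real.cos_arccos] <;> norm_num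
  have h5 : Submodule.span ℝ (Set.range fun i => f (true, i)) ⟂
      Submodule.span ℝ (Set.range fun i => f (false, i)) := by
    rw [Submodule.isOrtho_span]
    rintro _ ⟨i, rfl⟩ _ ⟨j, rfl⟩
    have := h3 (true, i) (false, j)
    rw [dM_diff (true, i) (false, j) (by simp), Real.cos_pi_div_two] at this
    exact abs_eq_zero.1 this
  have h6 := Submodule.finrank_mono h5.le
  have h7 := (Submodule.span ℝ (Set.range fun i => f (false, i))).finrank_add_finrank_orthogonal
  have := h4 true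
  have := h4 false
  rw [finrank_euclideanSpace_fin] at h7
  omega

end

open Module Pool.Agent.H4EqAng in
/-- The negation of the preceding statement: For r ≥ 2, with N the maximum number of equiangular lines in R^r: a metric space embeds isometrically in elliptic space RP^(r-1) whenever all its subsets of at most N+1 points do, but this fails with N in place of N+1. -/
theorem result :
    ¬ (∀ r : ℕ, 2 ≤ r → ∀ N : ℕ,
    IsGreatest {n : ℕ | ∃ v : Fin n → EuclideanSpace ℝ (Fin r), ∃ c : ℝ, c < 1 ∧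
        (∀ i, ‖v i‖ = 1) ∧ ∀ i j, i ≠ j → |@inner ℝ _ _ (v i) (v j)| = c} N →
    ((∀ (M : Type) [MetricSpace M],
        (∀ s : Finset M, s.card ≤ N + 1 →
          ∃ f : M → EuclideanSpace ℝ (Fin r), (∀ x ∈ s, ‖f x‖ = 1) ∧
            ∀ x ∈ s, ∀ y ∈ s, Real.arccos |@inner ℝ _ _ (f x) (f y)| = dist x y) →
        ∃ f : M → EuclideanSpace ℝ (Fin r), (∀ x, ‖f x‖ = 1) ∧
          ∀ x y, Real.arccos |@inner ℝ _ _ (f x) (f y)| = dist x y) ∧
     ¬ (∀ (M : Type) [MetricSpace M],
        (∀ s : Finset M, s.card ≤ N →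
          ∃ f : M → EuclideanSpace ℝ (Fin r), (∀ x ∈ s, ‖f x‖ = 1) ∧
            ∀ x ∈ s, ∀ y ∈ s, Real.arccos |@inner ℝ _ _ (f x) (f y)| = dist x y) →
        ∃ f : M → EuclideanSpace ℝ (Fin r), (∀ x, ‖f x‖ = 1) ∧
          ∀ x y, Real.arccos |@inner ℝ _ _ (f x) (f y)| = dist x y))) := by
  intro H
  let S : Set ℕ := {n : ℕ | ∃ v : Fin n → EuclideanSpace ℝ (Fin 13), ∃ c : ℝ, c < 1 ∧
        (∀ i, ‖v i‖ = 1) ∧ ∀ i j, i ≠ j → |@inner ℝ _ _ (v i) (v j)| = c}
  have hb : ∀ n ∈ S, n ≤ 32 := by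
    rintro n ⟨v, c, hc, h1, h2⟩
    by_contra hn
    have h33 : 33 ≤ n := by omega
    exact bound13 finrank_euclideanSpace_fin (fun i => v (Fin.castLE h33 i)) c hc (fun i => h1 _)
      fun i j hij => h2 _ _ ((Fin.castLE_injective h33).ne hij)
  have hne : S.Nonempty := ⟨0, Fin.elim0, 0, zero_lt_one, fun i => i.elim0, fun i => i.elim0⟩
  have hm := Nat.sSup_mem hne ⟨32, hb⟩
  refine big ((H 13 (by norm_num) (sSup S) ⟨hm, fun n hn => le_csSup ⟨32, hb⟩ hn⟩).1 M
    fun s hs => small s ?_)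
  have := hb _ hm
  omega

end Pool.Agent.S13824
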