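import Pool.Statements.S13875
import Pool.Agent.Lib.helper17.KDet

set_option autoImplicit false
open Pool Pool.MP_c1092b_gt

namespace Pool.Agent.S13875

open Set Filter Topology H17K

@[ext] structure PP where
  x : W 0
  k : R 0

noncomputable instance : PartialOrder PP where
  le p q := (p.x = q.x ∧ p.k ≤ q.k) ∨ (q.k = ⊤ ∧ p.k ≤ eta 0 q.x)
  le_refl _ := Or.inl ⟨rfl, le_rfl⟩
  le_trans p q r := by
    rintro (⟨h1, h2⟩ | ⟨h1, h2⟩) (⟨h3, h4⟩ | ⟨h3, h4⟩)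
    · exact Or.inl ⟨h1.trans h3, h2.trans h4⟩
    · exact Or.inr ⟨h3, h2.trans h4⟩
    · exact Or.inr ⟨top_le_iff.mp (h1 ▸ h4), h3 ▸ h2⟩
    · exact absurd (top_le_iff.mp (h1 ▸ h4)) (eta_ne _)
  le_antisymm p q := by
    rintro (⟨h1, h2⟩ | ⟨h1, h2⟩) (⟨h3, h4⟩ | ⟨h3, h4⟩)
    · exact PP.ext h1 (le_antisymm h2 h4)
    · exact PP.ext h1 (le_antisymm h2 (h3 ▸ le_top))
    · exact PP.ext h3.symm (le_antisymm (h1 ▸ le_top) h4)
    · exact absurd (top_le_iff.mp (h1 ▸ h4)) (eta_ne _)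

theorem le_def {p q : PP} : p ≤ q ↔ (p.x = q.x ∧ p.k ≤ q.k) ∨ (q.k = ⊤ ∧ p.k ≤ eta 0 q.x) :=
  Iff.rfl

theorem col_le (y : W 0) {k l : R 0} (h : k ≤ l) : (⟨y, k⟩ : PP) ≤ ⟨y, l⟩ := Or.inl ⟨rfl, h⟩

theorem lubR (T : Set (R 0)) : ∃ l, IsLUB T l :=
  ⟨wellFounded_lt.min (upperBounds T) ⟨⊤, fun _ _ => le_top⟩, wellFounded_lt.min_mem _ _,
    fun _ hb => not_lt.mp (wellFounded_lt.not_lt_min _ hb)⟩

theorem col_lub (y : W 0) {T : Set (R 0)} (hT : T.Nonempty) {l : R 0} (h : IsLUB T l) {q : PP}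
    (hq : ∀ k ∈ T, (⟨y, k⟩ : PP) ≤ q) : (⟨y, l⟩ : PP) ≤ q := by
  by_cases hy : y = q.x
  · refine Or.inl ⟨hy, h.2 fun k hk => ?_⟩
    rcases hq k hk with h1 | h1
    · exact h1.2
    · exact h1.1 ▸ le_top
  · obtain ⟨k0, hk0⟩ := hT
    exact Or.inr ⟨((hq k0 hk0).resolve_left fun h => hy h.1).1,
      h.2 fun k hk => ((hq k hk).resolve_left fun h => hy h.1).2⟩

theorem dcpo (d : Set PP) (hne : d.Nonempty) (hd : DirectedOn (· ≤ ·) d) : ∃ x, IsLUB d x := by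
  by_cases h : ∃ p ∈ d, p.k = ⊤
  · obtain ⟨p, hp, h⟩ := h
    refine ⟨p, fun q hq => ?_, fun q hq => hq hp⟩
    obtain ⟨r, _, h1, h2⟩ := hd p hp q hq
    have : r ≤ p := by
      rcases h1 with h1 | h1
      · exact Or.inl ⟨h1.1.symm, h ▸ le_top⟩
      · exact absurd (top_le_iff.mp (h ▸ h1.2)) (eta_ne _)
    exact h2.trans this
  · push Not at h
    obtain ⟨p, hp⟩ := hne
    have hx : ∀ q ∈ d, q.x = p.x := by
      intro q hq
      obtain ⟨r, hr, h1, h2⟩ := hd p hp q hq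
      exact ((h2.resolve_right fun h' => h r hr h'.1).1).trans
        (h1.resolve_right fun h' => h r hr h'.1).1.symm
    obtain ⟨l, hl⟩ := lubR (PP.k '' d)
    refine ⟨⟨p.x, l⟩, fun q hq => Or.inl ⟨hx q hq, hl.1 ⟨q, hq, rfl⟩⟩, fun q hq =>
      col_lub _ (Set.Nonempty.image _ ⟨p, hp⟩) hl ?_⟩
    rintro _ ⟨r, hr, rfl⟩
    rw [← hx r hr]
    exact hq hr

noncomputable instance tau : TopologicalSpace PP where
  IsOpen U := IsUpperSet U ∧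
    ∀ p ∈ U, ∀ T : Set (R 0), T.Nonempty → IsLUB T p.k → ∃ k ∈ T, (⟨p.x, k⟩ : PP) ∈ U
  isOpen_univ := ⟨isUpperSet_univ, fun _ _ _ ⟨k, hk⟩ _ => ⟨k, hk, trivial⟩⟩
  isOpen_inter := fun _ _ hs ht => ⟨hs.1.inter ht.1, fun p hp T h1 h2 => by
    obtain ⟨a, ha, h3⟩ := hs.2 p hp.1 T h1 h2
    obtain ⟨b, hb, h4⟩ := ht.2 p hp.2 T h1 h2
    rcases le_total a b with h | h
    · exact ⟨b, hb, hs.1 (col_le _ h) h3, h4⟩
    · exact ⟨a, ha, h3, ht.1 (col_le _ h) h4⟩⟩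
  isOpen_sUnion := fun _ hS => ⟨isUpperSet_sUnion fun t ht => (hS t ht).1,
    fun p ⟨t, ht, hp⟩ T h1 h2 => by
      obtain ⟨a, ha, h3⟩ := (hS t ht).2 p hp T h1 h2
      exact ⟨a, ha, t, ht, h3⟩⟩

theorem cl_pt (p : PP) : closure {p} = Iic p := by
  refine Subset.antisymm (closure_minimal (by simp) ⟨(isLowerSet_Iic p).compl, ?_⟩) ?_
  · intro q hq T h1 h2
    by_contra hn
    push Not at hn
    exact hq (col_lub _ h1 h2 fun k hk => not_not.mp (hn k hk))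
  · intro q hq
    exact mem_closure_iff.mpr fun U hU h => ⟨p, hU.1 hq h, rfl⟩

theorem fin_low {Q : Set PP} (hQ : IsCompact Q) : {y | ∃ a, (⟨y, eta 0 a⟩ : PP) ∈ Q}.Finite := by
  by_contra hinf
  let e := Set.Infinite.natEmbedding _ hinf
  choose a ha using fun n => (e n).2
  obtain ⟨l, hl⟩ := bdd_count 0 a
  obtain ⟨m, hm⟩ := hQ.elim_directed_cover
    (fun m : ℕ => {p : PP | ¬ ∃ n ≥ m, p.x = e n ∧ p.k ≤ eta 0 l})
    (fun m => ⟨by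
      rintro p q hpq hp ⟨n, h1, h2, h3⟩
      rcases hpq with h | h
      · exact hp ⟨n, h1, h.1.trans h2, h.2.trans h3⟩
      · exact eta_ne _ (top_le_iff.mp (h.1 ▸ h3)), by
      intro p hp T ⟨k0, hk0⟩ h2
      by_contra hn
      have hn' : ∀ k ∈ T, ∃ n ≥ m, p.x = e n ∧ k ≤ eta 0 l := fun k hk =>
        not_not.mp fun h' => hn ⟨k, hk, h'⟩
      obtain ⟨n, h3, h4, _⟩ := hn' k0 hk0
      exact hp ⟨n, h3, h4, h2.2 fun k hk => (hn' k hk).choose_spec.2.2⟩⟩)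
    (fun p _ => by
      by_cases h : ∃ n, p.x = e n
      · obtain ⟨n, hn⟩ := h
        refine mem_iUnion.mpr ⟨n + 1, fun ⟨n', h1, h2, _⟩ => ?_⟩
        have : n = n' := e.injective (Subtype.ext (hn.symm.trans h2))
        omega
      · exact mem_iUnion.mpr ⟨0, fun ⟨n', _, h2, _⟩ => h ⟨n', h2⟩⟩)
    (Monotone.directed_le fun a b hab p hp ⟨n, h1, h2⟩ => hp ⟨n, hab.trans h1, h2⟩)
  exact hm (ha m) ⟨m, le_rfl, rfl, eta_le.mpr (hl m).le⟩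

theorem fin_top {Q : Set PP} (hQ : IsCompact Q) (h : ∀ p ∈ Q, p.k = ⊤) :
    {y | (⟨y, ⊤⟩ : PP) ∈ Q}.Finite := by
  by_contra hinf
  let e := Set.Infinite.natEmbedding _ hinf
  obtain ⟨l, hl⟩ := bdd_count 0 fun n => (e n).1
  obtain ⟨m, hm⟩ := hQ.elim_directed_cover
    (fun m : ℕ => {p : PP | ¬ p.k ≤ eta 0 l ∧ ∀ n ≥ m, p.x ≠ e n})
    (fun m => ⟨by
      rintro p q hpq ⟨h1, h2⟩
      rcases hpq with h | h
      · exact ⟨fun h' => h1 (h.2.trans h'), h.1 ▸ h2⟩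
      · exact ⟨fun h' => eta_ne _ (top_le_iff.mp (h.1 ▸ h')), fun n _ h' =>
          h1 (h.2.trans (eta_le.mpr (h' ▸ (hl n).le)))⟩, by
      intro p hp T _ h2
      by_contra hn
      exact hp.1 (h2.2 fun k hk => not_not.mp fun h' => hn ⟨k, hk, h', hp.2⟩)⟩)
    (fun p hp => by
      have h0 : ¬ p.k ≤ eta 0 l := fun h' => eta_ne _ (top_le_iff.mp (h p hp ▸ h'))
      by_cases h : ∃ n, p.x = e n
      · obtain ⟨n, hn⟩ := h
        refine mem_iUnion.mpr ⟨n + 1, h0, fun n' h1 h2 => ?_⟩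
        have : n = n' := e.injective (Subtype.ext (hn.symm.trans h2))
        omega
      · exact mem_iUnion.mpr ⟨0, h0, fun n' _ h2 => h ⟨n', h2⟩⟩)
    (Monotone.directed_le fun a b hab p hp => ⟨hp.1, fun n hn => hp.2 n (hab.trans hn)⟩)
  exact (hm (e m).2).2 m le_rfl rfl

theorem wf (𝒦 : Set (Set PP)) (hne : 𝒦.Nonempty) (hd : DirectedOn (· ⊇ ·) 𝒦)
    (hK : ∀ K ∈ 𝒦, IsCompact K ∧ IsUpperSet K) (U : Set PP) (hU : IsOpen U) (hs : ⋂₀ 𝒦 ⊆ U) :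
    ∃ K ∈ 𝒦, K ⊆ U := by
  have ha : ∀ y, ∃ K ∈ 𝒦, ∀ k, (⟨y, k⟩ : PP) ∈ K → (⟨y, k⟩ : PP) ∈ U := by
    intro y
    by_contra hn
    push Not at hn
    obtain ⟨l, hl⟩ := lubR {k | (⟨y, k⟩ : PP) ∉ U}
    obtain ⟨K0, hK0⟩ := hne
    obtain ⟨k0, _, hk0⟩ := hn K0 hK0
    obtain ⟨k, h1, h2⟩ := hU.2 ⟨y, l⟩ (hs fun K hK' => by
      obtain ⟨k, h1, h2⟩ := hn K hK'
      exact (hK K hK').2 (col_le y (hl.1 h2)) h1) _ ⟨k0, hk0⟩ hl
    exact h1 h2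
  have hb : ∀ S : Set (W 0), S.Finite → ∀ K0 ∈ 𝒦, ∃ K ∈ 𝒦, K ⊆ K0 ∧
      ∀ y ∈ S, ∀ k, (⟨y, k⟩ : PP) ∈ K → (⟨y, k⟩ : PP) ∈ U := by
    intro S hS K0 hK0
    induction S, hS using Set.Finite.induction_on with
    | empty => exact ⟨K0, hK0, subset_rfl, by simp⟩
    | @insert y S _ _ ih =>
      obtain ⟨K1, a1, a2, a3⟩ := ih
      obtain ⟨K2, b1, b2⟩ := ha y
      obtain ⟨K, c1, c2, c3⟩ := hd K1 a1 K2 b1
      refine ⟨K, c1, c2.trans a2, ?_⟩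
      rintro z (rfl | hz) k hk
      · exact b2 k (c3 hk)
      · exact a3 z hz k (c2 hk)
  obtain ⟨K0, hK0⟩ := hne
  obtain ⟨K1, a1, a2, a3⟩ := hb _ (fin_low (hK K0 hK0).1) K0 hK0
  have htop : ∀ p ∈ K1 ∩ Uᶜ, p.k = ⊤ := by
    rintro ⟨y, k⟩ ⟨h1, h2⟩
    rcases R_cases k with h | ⟨a, rfl⟩
    · exact h
    · exact absurd (a3 y ⟨a, a2 h1⟩ _ h1) h2
  obtain ⟨K2, b1, b2, b3⟩ := hb _ (fin_top ((hK K1 a1).1.inter_right hU.isClosed_compl) htop) K1 a1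
  refine ⟨K2, b1, fun ⟨y, k⟩ hp => ?_⟩
  by_contra hn
  obtain rfl : k = ⊤ := htop _ ⟨b2 hp, hn⟩
  exact hn (b3 y ⟨b2 hp, hn⟩ _ hp)

theorem tail {U : Set PP} (hU : IsOpen U) (hne : U.Nonempty) :
    ∃ a, ∀ x, a ≤ x → (⟨x, ⊤⟩ : PP) ∈ U := by
  obtain ⟨p, hp⟩ := hne
  obtain ⟨_, ⟨a, rfl⟩, h⟩ := hU.2 ⟨p.x, ⊤⟩ (hU.1 (col_le p.x le_top) hp) (range (eta 0))
    (range_nonempty _) ⟨fun _ _ => le_top, fun b hb => by
      rcases R_cases b with rfl | ⟨c, rfl⟩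
      · exact le_rfl
      · obtain ⟨d, hd⟩ := exists_gt c
        exact absurd (eta_le.mp (hb ⟨d, rfl⟩)) (not_le.mpr hd)⟩
  exact ⟨a, fun x hx => hU.1 (Or.inr ⟨rfl, eta_le.mpr hx⟩) h⟩

theorem not_sober (t : TopologicalSpace PP) (h1 : ∀ x : PP, @closure PP t {x} = Set.Iic x)
    (h2 : @QuasiSober PP t) : False := by
  have hup : ∀ U, IsOpen[t] U → IsUpperSet U := by
    intro U hU p q hpq hp
    have : p ∈ @closure PP t {q} := by rw [h1]; exact hpq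
    obtain ⟨_, h, rfl⟩ := (@mem_closure_iff PP t _ _).mp this U hU hp
    exact h
  have hop : ∀ U, IsOpen[t] U → IsOpen[tau] U := by
    intro U hU
    refine ⟨hup U hU, fun p hp T hT hl => ?_⟩
    have hirr : @IsIrreducible PP t ((fun k => (⟨p.x, k⟩ : PP)) '' T) := by
      refine ⟨hT.image _, ?_⟩
      rintro V V' hV hV' ⟨_, ⟨a, ha, rfl⟩, h3⟩ ⟨_, ⟨b, hb, rfl⟩, h4⟩
      rcases le_total a b with h | h
      · exact ⟨_, ⟨b, hb, rfl⟩, hup V hV (col_le _ h) h3, h4⟩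
      · exact ⟨_, ⟨a, ha, rfl⟩, h3, hup V' hV' (col_le _ h) h4⟩
    obtain ⟨z, hz⟩ := @QuasiSober.sober PP t h2 _ (@IsIrreducible.closure PP t _ hirr)
      (@isClosed_closure PP t _)
    have hz' : Iic z = @closure PP t ((fun k => (⟨p.x, k⟩ : PP)) '' T) := (h1 z).symm.trans hz
    have : p ∈ @closure PP t ((fun k => (⟨p.x, k⟩ : PP)) '' T) := by
      rw [← hz']
      refine col_lub p.x hT hl fun k hk => ?_
      have := @subset_closure PP t _ _ (mem_image_of_mem (fun k => (⟨p.x, k⟩ : PP)) hk)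
      rwa [← hz'] at this
    obtain ⟨_, h, k, hk, rfl⟩ := (@mem_closure_iff PP t _ _).mp this U hU hp
    exact ⟨k, hk, h⟩
  have hirr : @IsIrreducible PP t univ := by
    refine ⟨⟨⟨Classical.arbitrary _, ⊤⟩, trivial⟩, fun U V hU hV ⟨x, _, hx⟩ ⟨y, _, hy⟩ => ?_⟩
    obtain ⟨a, ha⟩ := tail (hop U hU) ⟨x, hx⟩
    obtain ⟨b, hb⟩ := tail (hop V hV) ⟨y, hy⟩
    exact ⟨⟨max a b, ⊤⟩, trivial, ha _ (le_max_left _ _), hb _ (le_max_right _ _)⟩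
  obtain ⟨z, hz⟩ := @QuasiSober.sober PP t h2 _ hirr (@isClosed_univ PP t)
  have hz' : Iic z = univ := (h1 z).symm.trans hz
  obtain ⟨d, hd⟩ := exists_gt z.x
  have : (⟨d, ⊤⟩ : PP) ∈ Iic z := hz' ▸ mem_univ _
  rcases this with h | h
  · exact hd.ne' h.1
  · exact eta_ne _ (top_le_iff.mp h.2)

/-- There is a dcpo with a well-filtered T0 topology whose point closures are the principal down-sets, while no sober topology on it has point closures equal to the principal down-sets. -/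
theorem result :
    ∃ (P : Type) (_ : PartialOrder P),
      (∀ d : Set P, d.Nonempty → DirectedOn (· ≤ ·) d → ∃ x : P, IsLUB d x) ∧
      (∃ t : TopologicalSpace P,
        (∀ x : P, @closure P t {x} = Set.Iic x) ∧ @T0Space P t ∧
        (∀ 𝒦 : Set (Set P), 𝒦.Nonempty → DirectedOn (· ⊇ ·) 𝒦 →
          (∀ K ∈ 𝒦, @IsCompact P t K ∧ IsUpperSet K) →
          ∀ U : Set P, @IsOpen P t U → ⋂₀ 𝒦 ⊆ U → ∃ K ∈ 𝒦, K ⊆ U)) ∧
      ¬ ∃ t : TopologicalSpace P,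
        (∀ x : P, @closure P t {x} = Set.Iic x) ∧ @T0Space P t ∧ @QuasiSober P t := by
  refine ⟨PP, inferInstance, dcpo, ⟨tau, cl_pt, ⟨fun x y h => ?_⟩, wf⟩,
    fun ⟨t, h1, _, h2⟩ => not_sober t h1 h2⟩
  have := inseparable_iff_closure_eq.mp h
  rw [cl_pt, cl_pt] at this
  exact Iic_injective this

end Pool.Agent.S13875
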