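import Pool.Statements.S13885
-- import your own Pool.Agent.* helpers here

set_option autoImplicit false
open Pool Pool.MP_c36963_gt

namespace Pool.Agent.S13885

theorem result :
    ∃ r : ℂ → ℂ,
      (∀ z ∈ Metric.closedBall (0:ℂ) 1, r z ∈ Metric.sphere (0:ℂ) 1) ∧
      (∀ y ∈ Metric.sphere (0:ℂ) 1, r y = y) ∧
      (∀ y ∈ Metric.sphere (0:ℂ) 1,
        IsConnected {z : ℂ | z ∈ Metric.closedBall (0:ℂ) 1 ∧ r z = y}) ∧
      Set.Finite {y : ℂ | y ∈ Metric.sphere (0:ℂ) 1 ∧
        ¬ (∀ s : ℕ → ℂ, (∀ n, s n ∈ Metric.sphere (0:ℂ) 1) →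
            Filter.Tendsto s Filter.atTop (nhds y) →
            ∀ x : ℂ, (∀ ε : ℝ, ε > 0 → ∀ N : ℕ, ∃ n : ℕ, n ≥ N ∧
                ∃ z : ℂ, z ∈ Metric.closedBall (0:ℂ) 1 ∧ r z = s n ∧ dist z x < ε) →
              r x = y)} := by
  classical
  refine ⟨fun z => if ‖z‖ = 1 then z else 1, fun z _ => ?_, fun y hy => if_pos (by simpa using hy),
    fun y hy => ?_, (Set.finite_singleton 1).subset ?_⟩
  · dsimp only
    split_ifs with h <;> simp [*]
  · by_cases e : y = 1
    · subst e
      refine IsConnected.subset_closure (Metric.isConnected_ball (x := (0 : ℂ)) one_pos) ?_ ?_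
      · intro z hz
        exact ⟨Metric.ball_subset_closedBall hz, if_neg (mem_ball_zero_iff.1 hz).ne⟩
      · rw [closure_ball _ one_ne_zero]
        exact fun z hz => hz.1
    · convert isConnected_singleton (x := y)
      ext z
      simp only [Set.mem_setOf_eq, Set.mem_singleton_iff]
      constructor
      · rintro ⟨-, h⟩
        split_ifs at h
        · exact h
        · exact absurd h.symm e
      · rintro rfl
        exact ⟨Metric.sphere_subset_closedBall hy, if_pos (by simpa using hy)⟩
  · rintro y ⟨hy, h⟩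
    by_contra e
    refine h fun s _ hs x hx => ?_
    have : x = y := by
      refine eq_of_forall_dist_le fun ε hε => ?_
      obtain ⟨N, hN⟩ := Filter.eventually_atTop.1 ((hs.eventually_ne e).and
        (Metric.tendsto_nhds.1 hs (ε / 2) (by linarith)))
      obtain ⟨n, hn, z, -, h1, h2⟩ := hx (ε / 2) (by linarith) N
      have h3 : z = s n := by
        dsimp only at h1
        split_ifs at h1
        · exact h1
        · exact absurd h1.symm (hN n hn).1
      subst h3
      linarith [dist_triangle_left x y (s n), (hN n hn).2]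
    subst this
    exact if_pos (by simpa using hy)

end Pool.Agent.S13885
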