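import Pool.Statements.S13903
-- import your own Pool.Agent.* helpers here

set_option autoImplicit false
open Pool Pool.MP_c502b8_gt

namespace Pool.Agent.S13903

/-- If G is a countably compact topological group whose closed subgroups are all separable, and H is a topological group with a countable network, then every closed subgroup of G × H is separable. -/
theorem result :
    ∀ (G H : Type) [Group G] [TopologicalSpace G] [IsTopologicalGroup G]
      [Group H] [TopologicalSpace H] [IsTopologicalGroup H],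
      (∀ U : ℕ → Set G, (∀ n, IsOpen (U n)) → Set.univ ⊆ ⋃ n, U n →
          ∃ s : Finset ℕ, Set.univ ⊆ ⋃ n ∈ s, U n) →
      (∀ K : Subgroup G, IsClosed (K : Set G) → TopologicalSpace.SeparableSpace ↥K) →
      (∃ N : Set (Set H), N.Countable ∧
          ∀ (x : H) (U : Set H), IsOpen U → x ∈ U → ∃ A ∈ N, x ∈ A ∧ A ⊆ U) →
      ∀ K : Subgroup (G × H), IsClosed (K : Set (G × H)) →
        TopologicalSpace.SeparableSpace ↥K := by
  classical
  intro G H _ _ _ _ _ _ hcc hsep ⟨N, hN, hnet⟩ C hC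
  obtain ⟨A0, hA0, -⟩ := hnet 1 Set.univ isOpen_univ (Set.mem_univ _)
  obtain ⟨n, hn⟩ := hN.exists_eq_range ⟨A0, hA0⟩
  have hcl : ∀ x : ℕ → G, ∃ a, MapClusterPt a Filter.atTop x := by
    intro x
    have h1 : IsCountablyCompact (Set.univ : Set G) := by
      rw [isCountablyCompact_iff_countable_open_cover]
      intro U hU hc
      exact hcc U hU hc
    obtain ⟨a, -, ha⟩ := isCountablyCompact_iff_seq_clusterPt.mp h1 x
      (Filter.Eventually.of_forall (fun _ => Set.mem_univ _))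
    exact ⟨a, ha⟩
  let K : Subgroup G := C.comap (MonoidHom.inl G H)
  have hK : IsClosed (K : Set G) := hC.preimage (continuous_id.prodMk continuous_const)
  haveI := hsep K hK
  obtain ⟨E, hE, hEd⟩ := TopologicalSpace.exists_countable_dense K
  have h2 : ∀ F : Finset ℕ, ∃ c : C, (∃ c' : C, ∀ i ∈ F, c'.1.2 ∈ n i) → ∀ i ∈ F, c.1.2 ∈ n i := by
    intro F
    by_cases h : ∃ c' : C, ∀ i ∈ F, c'.1.2 ∈ n i
    · obtain ⟨c', hc'⟩ := h
      exact ⟨c', fun _ => hc'⟩
    · exact ⟨1, fun h' => absurd h' h⟩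
  choose c hc using h2
  let j : K → C := fun k => ⟨(k.1, 1), k.2⟩
  have hj : Continuous j := Continuous.subtype_mk (continuous_subtype_val.prodMk continuous_const) _
  refine ⟨⟨(fun p : C × C => p.1 * p.2) '' (Set.range c ×ˢ (j '' E)),
    ((Set.countable_range c).prod (hE.image j)).image _, fun x => ?_⟩⟩
  let F : ℕ → Finset ℕ := fun k => (Finset.range k).filter (fun i => x.1.2 ∈ n i)
  have hF : ∀ k, ∀ i ∈ F k, (c (F k)).1.2 ∈ n i := fun k =>
    hc (F k) ⟨x, fun i hi => (Finset.mem_filter.mp hi).2⟩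
  have ht : Filter.Tendsto (fun k => (c (F k)).1.2) Filter.atTop (nhds x.1.2) := by
    rw [tendsto_nhds]
    intro U hU hxU
    obtain ⟨A, hA, hxA, hAU⟩ := hnet _ U hU hxU
    rw [hn] at hA
    obtain ⟨i, rfl⟩ := hA
    filter_upwards [Filter.eventually_gt_atTop i] with k hk
    exact hAU (hF k i (Finset.mem_filter.mpr ⟨Finset.mem_range.mpr hk, hxA⟩))
  obtain ⟨a, ha⟩ := hcl (fun k => (c (F k)).1.1)
  have h3 : ((a, x.1.2) : G × H) ∈ closure (Subtype.val '' Set.range c) := by
    rw [mem_closure_iff_nhds]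
    intro W hW
    obtain ⟨u, hu, v, hv, huv⟩ := mem_nhds_prod_iff.mp hW
    obtain ⟨k, hk1, hk2⟩ := ((mapClusterPt_iff_frequently.mp ha u hu).and_eventually (ht hv)).exists
    exact ⟨(c (F k)).1, huv ⟨hk1, hk2⟩, _, ⟨_, rfl⟩, rfl⟩
  have h4 : ((a, x.1.2) : G × H) ∈ C :=
    closure_minimal (by rintro _ ⟨y, -, rfl⟩; exact y.2) hC h3
  have h5 : (⟨(a, x.1.2), h4⟩ : C) ∈ closure (Set.range c) := by
    rw [closure_subtype]; exact h3
  have h6 : a⁻¹ * x.1.1 ∈ K := by
    have := C.mul_mem (C.inv_mem h4) x.2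
    show (a⁻¹ * x.1.1, (1 : H)) ∈ C
    convert this using 1
    ext <;> simp
  have h7 : j ⟨_, h6⟩ ∈ closure (j '' E) :=
    image_closure_subset_closure_image hj ⟨_, hEd _, rfl⟩
  have h8 : ((⟨(a, x.1.2), h4⟩, j ⟨_, h6⟩) : C × C) ∈ closure (Set.range c ×ˢ (j '' E)) := by
    rw [closure_prod_eq]; exact ⟨h5, h7⟩
  refine image_closure_subset_closure_image continuous_mul ⟨_, h8, ?_⟩
  apply Subtype.ext
  ext <;> simp [j]

end Pool.Agent.S13903
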