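import Pool.Statements.S13912
import Pool.Agent.Lib.helper5.UReal

set_option autoImplicit false
open Pool Pool.MP_c610d5_gt

namespace Pool.Agent.S13912

/-- The negation of the preceding statement: For Tychonoff spaces X, Y whose spaces of continuous real functions with the pointwise uniformity are uniformly homeomorphic, if X is hemicompact and a k-space then so is Y. -/
theorem result :
    ¬ (∀ (X Y : Type) [TopologicalSpace X] [TopologicalSpace Y] [T35Space X] [T35Space Y],
      Nonempty (UniformEquiv {f : X → ℝ // Continuous f} {g : Y → ℝ // Continuous g}) →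
      ((∃ K : ℕ → Set X, (∀ n, IsCompact (K n)) ∧
          ∀ C : Set X, IsCompact C → ∃ n, C ⊆ K n) ∧
        (∀ A : Set X, (∀ C : Set X, IsCompact C → IsClosed (A ∩ C)) → IsClosed A)) →
      ((∃ K : ℕ → Set Y, (∀ n, IsCompact (K n)) ∧
          ∀ C : Set Y, IsCompact C → ∃ n, C ⊆ K n) ∧
        (∀ A : Set Y, (∀ C : Set Y, IsCompact C → IsClosed (A ∩ C)) → IsClosed A))) := by
  intro h
  obtain ⟨e⟩ := H5Sp.ureal
  refine H5Sp.not_closed ((h ℝ (H5Sp.YS H5Sp.FF) ⟨e.symm⟩ ⟨⟨fun n => Metric.closedBall 0 n,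
    fun n => isCompact_closedBall _ _, fun C hC => ?_⟩, fun A hA => ?_⟩).2 _
    fun C hC => (H5Sp.fin_compact hC).isClosed)
  · obtain ⟨r, hr⟩ := hC.isBounded.subset_closedBall 0
    obtain ⟨n, hn⟩ := exists_nat_ge r
    exact ⟨n, hr.trans (Metric.closedBall_subset_closedBall hn)⟩
  · refine isClosed_of_closure_subset fun x hx => ?_
    have h1 : x ∈ closure (A ∩ Metric.closedBall x 1) := by
      rw [mem_closure_iff_nhds] at hx ⊢
      intro t ht
      obtain ⟨y, hy, hyA⟩ := hx _ (Filter.inter_mem ht (Metric.closedBall_mem_nhds x one_pos))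
      exact ⟨y, hy.1, hyA, hy.2⟩
    exact ((hA _ (isCompact_closedBall x 1)).closure_subset h1).1

end Pool.Agent.S13912
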