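import Pool.Statements.S13915
import Pool.Agent.Lib.helper5.Ksd

set_option autoImplicit false
open Pool Pool.MP_c67c46_gt

namespace Pool.Agent.S13915

/-- For Tychonoff X, Y: if X is a countable intersection of σ-compact sets in some compact Hausdorff space containing it, and C_p(X), C_p(Y) are linearly homeomorphic in the pointwise topology, then Y has the same property. -/
theorem result :
  ∀ (X Y : Type) [TopologicalSpace X] [TopologicalSpace Y] [T35Space X] [T35Space Y],
    (∃ (K : Type) (_ : TopologicalSpace K), CompactSpace K ∧ T2Space K ∧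
      ∃ e : X → K, Topology.IsEmbedding e ∧
        ∃ A : ℕ → ℕ → Set K, (∀ n m, IsCompact (A n m)) ∧ Set.range e = ⋂ n, ⋃ m, A n m) →
    (∃ L : C(X, ℝ) ≃ₗ[ℝ] C(Y, ℝ),
      @Continuous C(X, ℝ) C(Y, ℝ)
        (TopologicalSpace.induced (fun f : C(X, ℝ) => (f : X → ℝ)) inferInstance)
        (TopologicalSpace.induced (fun g : C(Y, ℝ) => (g : Y → ℝ)) inferInstance)
        (fun f => L f) ∧
      @Continuous C(Y, ℝ) C(X, ℝ)
        (TopologicalSpace.induced (fun g : C(Y, ℝ) => (g : Y → ℝ)) inferInstance)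
        (TopologicalSpace.induced (fun f : C(X, ℝ) => (f : X → ℝ)) inferInstance)
        (fun g => L.symm g)) →
    (∃ (K : Type) (_ : TopologicalSpace K), CompactSpace K ∧ T2Space K ∧
      ∃ e : Y → K, Topology.IsEmbedding e ∧
        ∃ A : ℕ → ℕ → Set K, (∀ n m, IsCompact (A n m)) ∧ Set.range e = ⋂ n, ⋃ m, A n m) := by
  rintro X Y _ _ _ _ ⟨K, _, _, _, e, he, A, a1, a2⟩ ⟨L, l1, l2⟩
  exact H5E.ksd he a1 a2 L l1 l2

end Pool.Agent.S13915
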