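import Pool.Statements.S13922
import Pool.Agent.Lib.helper5.NoAnal

set_option autoImplicit false
open Pool Pool.MP_c6d701_gt

namespace Pool.Agent.S13922

/-- The negation of the preceding statement: The space of continuous real functions, with the pointwise topology, on the space of continuous real functions on the irrationals (also pointwise) embeds topologically into some Tychonoff space that is a continuous image of the irrationals. -/
theorem result :
    ¬ (∃ (Y : Type) (_ : TopologicalSpace Y),
      T35Space Y ∧ MeasureTheory.AnalyticSet (Set.univ : Set Y) ∧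
      ∃ e : {g : {f : {x : ℝ // Irrational x} → ℝ // Continuous f} → ℝ // Continuous g} → Y,
        Topology.IsEmbedding e) := by
  rintro ⟨Y, _, _, h, e, he⟩
  rw [MeasureTheory.AnalyticSet] at h
  rcases h with h | ⟨g, g1, g2⟩
  · exact (Set.eq_empty_iff_forall_notMem.1 h (e ⟨0, continuous_const⟩)) trivial
  let a : ℕ → {x : ℝ // Irrational x} := fun j => ⟨√2 + j, irrational_sqrt_two.add_natCast j⟩
  have ha : Topology.IsClosedEmbedding a :=
    .of_comp .subtypeVal ((Homeomorph.addLeft √2).isClosedEmbedding.comp Nat.isClosedEmbedding_coe_real)
  refine H5N.main (r := fun f j => f.1 (a j)) (continuous_pi fun j => (continuous_apply _).comp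
    continuous_subtype_val) (fun x => ?_) g1 (Set.range_eq_univ.1 g2) he.isInducing
  obtain ⟨f, hf⟩ := ContinuousMap.exists_extension ha
    ⟨fun j => (x j : ℝ), continuous_of_discreteTopology⟩
  exact ⟨⟨f, f.2⟩, funext fun j => DFunLike.congr_fun hf j⟩

end Pool.Agent.S13922
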