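import Pool.Statements.S13932
import Pool.Agent.Lib.helper1.Blaschke

set_option autoImplicit false
open Pointwise
open Pool Pool.MP_c7fc41_gt

namespace Pool.Agent.S13932

/-- The negation of the preceding statement: Take n ≥ 3 and a convex body K in n-space. If its Blaschke body (the symmetric body whose surface area measure is the average of those of K and −K) is homothetic to ½(K−K), then K is centrally symmetric. -/
theorem result :
    ¬ (∀ n : ℕ, 3 ≤ n → ∀ K B : Set (EuclideanSpace ℝ (Fin n)),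
      IsCompact K → Convex ℝ K → (interior K).Nonempty →
      IsCompact B → Convex ℝ B → (interior B).Nonempty → -B = B →
      (∀ L : Set (EuclideanSpace ℝ (Fin n)), IsCompact L → Convex ℝ L → L.Nonempty →
        HasDerivWithinAt
          (fun ε : ℝ => (MeasureTheory.volume (B + ε • L)).toReal
            - ((MeasureTheory.volume (K + ε • L)).toReal
                + (MeasureTheory.volume (-K + ε • L)).toReal) / 2)
          0 (Set.Ici 0) 0) →
      (∃ r : ℝ, 0 < r ∧ ∃ x : EuclideanSpace ℝ (Fin n),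
        B = x +ᵥ (r • ((1 / 2 : ℝ) • (K + -K)))) →
      ∃ c : EuclideanSpace ℝ (Fin n), ∀ y : EuclideanSpace ℝ (Fin n),
        y ∈ K ↔ (2 : ℝ) • c - y ∈ K) := by
  intro H
  obtain ⟨a, ha, h3⟩ : ∃ a : ℝ, 0 < a ∧ a ^ 3 = 1 / 12 :=
    ⟨(1 / 12) ^ (((3 : ℕ) : ℝ)⁻¹), by positivity,
      Real.rpow_inv_natCast_pow (by norm_num) (by norm_num)⟩
  open Pool.Agent.Lib.helper1.Blaschke in
  have hK := Pr_body {0, 2, 5} bT 1 (fun z hz => by
    rw [mem_A] at hz
    simp only [bT, Matrix.cons_val] at hz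
    rw [abs_le, abs_le]
    refine ⟨⟨?_, ?_⟩, ?_, ?_⟩ <;> linarith [hz.1, hz.2.1, hz.2.2]) (1 / 4, 1 / 4) (fun i hi => by
      simp only [Finset.mem_insert, Finset.mem_singleton] at hi
      rcases hi with rfl | rfl | rfl <;> simp only [l, c, bT, Matrix.cons_val] <;> norm_num)
  open Pool.Agent.Lib.helper1.Blaschke in
  have hB := Pr_body Finset.univ (fun _ => a) a (fun z hz => by
    rw [mem_univ'] at hz
    rw [abs_le, abs_le]
    refine ⟨⟨?_, ?_⟩, ?_, ?_⟩ <;> linarith [hz.1, hz.2.1, hz.2.2.1, hz.2.2.2.1]) 0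
      (fun i _ => by simpa [l] using ha)
  open Pool.Agent.Lib.helper1.Blaschke in
  obtain ⟨x, hx⟩ := H 4 (by norm_num) K (B a) hK.1 hK.2.1 hK.2.2 hB.1 hB.2.1 hB.2.2
    (by
      ext x
      rw [Set.mem_neg, mem_BB, mem_BB]
      simp only [PiLp.neg_apply, ← neg_add, abs_neg])
    (fun L hL _ hne => main ha h3 hL hne)
    ⟨2 * a, by positivity, 0, by
      rw [zero_vadd, smul_smul, K_sub, B_smul ha]; congr 1; ring⟩
  open Pool.Agent.Lib.helper1.Blaschke in
  have h0 := (mem_K _).mp ((hx 0).mp ((mem_K _).mpr (by simp)))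
  open Pool.Agent.Lib.helper1.Blaschke in
  have h1 := (mem_K _).mp ((hx !₂[1, 0, 0, 0]).mp ((mem_K _).mpr (by simp)))
  open Pool.Agent.Lib.helper1.Blaschke in
  have h2 := (mem_K _).mp ((hx !₂[0, 1, 0, 0]).mp ((mem_K _).mpr (by simp)))
  simp at h0 h1 h2
  linarith [h0.1.2.2, h1.1.1, h2.1.2.1]

end Pool.Agent.S13932
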