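import Pool.Statements.S13946

set_option autoImplicit false
open Pool Pool.MP_cb3f7b_gt MeasureTheory

namespace Pool.Agent.S13946

abbrev E := EuclideanSpace ℝ (Fin 2)

/-- above all tangent lines of the hyperbola arc `a c = 18`, `3 ≤ a ≤ 6` -/
def T (a c : ℝ) : Prop := ∀ t : ℝ, 1 ≤ t → t ≤ 2 → 12 * t ≤ 2 * a + t ^ 2 * c

lemma T_iff {a c : ℝ} (_ha : 0 ≤ a) (hc : 0 ≤ c) :
    T a c ↔ 12 ≤ 2 * a + c ∧ 12 ≤ a + 2 * c ∧ (9 ≤ a + c ∨ 18 ≤ a * c) := by
  constructor
  · intro h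
    have h1 := h 1 le_rfl (by norm_num)
    have h2 := h 2 (by norm_num) le_rfl
    refine ⟨by linarith, by linarith, ?_⟩
    by_cases h3 : 9 ≤ a + c
    · exact Or.inl h3
    · right
      have c3 : 0 < c := by linarith
      have := h (6 / c) (by rw [le_div_iff₀ c3]; linarith) (by rw [div_le_iff₀ c3]; linarith)
      have e : (6 / c) ^ 2 * c = 6 * (6 / c) := by field_simp
      have e2 : 6 / c * c = 6 := by field_simp
      nlinarith
  · rintro ⟨h1, h2, h3⟩ t t1 t2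
    have am : 18 ≤ a * c → 12 * t ≤ 2 * a + t ^ 2 * c := fun h => by
      have c0 : 0 < c := by
        rcases hc.eq_or_lt with e | e
        · rw [← e] at h; linarith
        · exact e
      by_contra hn
      nlinarith [sq_nonneg (t * c - 6), mul_pos c0 (sub_pos.2 (not_le.1 hn))]
    rcases h3 with h3 | h3
    · by_cases c6 : 6 ≤ c
      · nlinarith [mul_nonneg (sub_nonneg.2 t1) (sub_nonneg.2 c6), sq_nonneg (t - 1),
          mul_nonneg (mul_nonneg (sub_nonneg.2 t1) (sub_nonneg.2 t1)) hc]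
      · by_cases c3 : c ≤ 3
        · nlinarith [mul_nonneg (sub_nonneg.2 t2) (sub_nonneg.2 c3),
            mul_nonneg (mul_nonneg (sub_nonneg.2 t2) (sub_nonneg.2 t2)) hc]
        · exact am (by nlinarith)
    · exact am h3

def B (u v w : ℝ) : Prop :=
  0 ≤ 9 + u ∧ 0 ≤ 9 + v ∧ 0 ≤ 9 + w ∧ T (9 + u) (9 + w) ∧ T (9 + v) (9 + u) ∧ T (9 + w) (9 + v)

def M (u v w : ℝ) : Prop :=
  (-9 ≤ u ∧ u ≤ 9) ∧ (-9 ≤ v ∧ v ≤ 9) ∧ (-9 ≤ w ∧ w ≤ 9) ∧ (u - v ≤ 15 ∧ v - u ≤ 15) ∧
    (v - w ≤ 15 ∧ w - v ≤ 15) ∧ (w - u ≤ 15 ∧ u - w ≤ 15)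

def L (u v w : ℝ) : Prop := 9 < v ∧ 0 ≤ 9 + u ∧ 0 ≤ 9 + w ∧ 18 ≤ (9 + u) * (9 + w)

lemma L_bd {u v w : ℝ} (s : u + v + w = 0) (h : L u v w) :
    -6 < u ∧ u < -3 ∧ -6 < w ∧ w < -3 ∧ v - u ≤ 15 ∧ v - w ≤ 15 := by
  obtain ⟨h1, h2, h3, h4⟩ := h
  have a1 : -6 < u := by nlinarith
  have a2 : -6 < w := by nlinarith
  refine ⟨a1, by linarith, a2, by linarith, ?_, ?_⟩
  · nlinarith [sq_nonneg (2 * (9 + u) - (9 + w))]
  · nlinarith [sq_nonneg (2 * (9 + w) - (9 + u))]

lemma B_iff {u v w : ℝ} (s : u + v + w = 0) :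
    B u v w ↔ M u v w ∨ L u v w ∨ L v w u ∨ L w u v := by
  constructor
  · rintro ⟨h1, h2, h3, h4, h5, h6⟩
    rw [T_iff h1 h3] at h4
    rw [T_iff h2 h1] at h5
    rw [T_iff h3 h2] at h6
    obtain ⟨a1, a2, a3⟩ := h4
    obtain ⟨b1, b2, b3⟩ := h5
    obtain ⟨c1, c2, c3⟩ := h6
    by_cases hv : 9 < v
    · exact Or.inr (Or.inl ⟨hv, h1, h3, a3.resolve_left (by linarith)⟩)
    by_cases hw : 9 < w
    · exact Or.inr (Or.inr (Or.inl ⟨hw, h2, h1, b3.resolve_left (by linarith)⟩))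
    by_cases hu : 9 < u
    · exact Or.inr (Or.inr (Or.inr ⟨hu, h3, h2, c3.resolve_left (by linarith)⟩))
    left
    refine ⟨⟨?_, ?_⟩, ⟨?_, ?_⟩, ⟨?_, ?_⟩, ⟨?_, ?_⟩, ⟨?_, ?_⟩, ⟨?_, ?_⟩⟩ <;> linarith
  · have key : ∀ u v w : ℝ, u + v + w = 0 → L u v w → 0 ≤ 9 + u ∧ 0 ≤ 9 + v ∧ 0 ≤ 9 + w ∧
        T (9 + u) (9 + w) ∧ T (9 + v) (9 + u) ∧ T (9 + w) (9 + v) := fun u v w s h => by
      obtain ⟨a1, a2, a3, a4, a5, a6⟩ := L_bd s h
      obtain ⟨h1, h2, h3, h4⟩ := h
      have h5 : 0 ≤ 9 + v := by linarith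
      refine ⟨h2, h5, h3, (T_iff h2 h3).2 ⟨by linarith, by linarith, Or.inr h4⟩,
        (T_iff h5 h2).2 ⟨by linarith, by linarith, Or.inl (by linarith)⟩,
        (T_iff h3 h5).2 ⟨by linarith, by linarith, Or.inl (by linarith)⟩⟩
    rintro (⟨⟨a1, a2⟩, ⟨a3, a4⟩, ⟨a5, a6⟩, ⟨b1, b2⟩, ⟨b3, b4⟩, ⟨b5, b6⟩⟩ | h | h | h)
    · have h1 : 0 ≤ 9 + u := by linarith
      have h2 : 0 ≤ 9 + v := by linarith
      have h3 : 0 ≤ 9 + w := by linarith
      exact ⟨h1, h2, h3, (T_iff h1 h3).2 ⟨by linarith, by linarith, Or.inl (by linarith)⟩,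
        (T_iff h2 h1).2 ⟨by linarith, by linarith, Or.inl (by linarith)⟩,
        (T_iff h3 h2).2 ⟨by linarith, by linarith, Or.inl (by linarith)⟩⟩
    · exact key u v w s h
    · obtain ⟨a, b, c, d, e, f⟩ := key v w u (by linarith) h
      exact ⟨c, a, b, f, d, e⟩
    · obtain ⟨a, b, c, d, e, f⟩ := key w u v (by linarith) h
      exact ⟨b, c, a, e, f, d⟩

lemma L_comm {u v w : ℝ} : L u v w ↔ L w v u := by
  unfold L; rw [mul_comm]; tauto

lemma L_congr {a b c a' b' c' : ℝ} (h : L a b c) (e1 : a = a') (e2 : b = b') (e3 : c = c') :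
    L a' b' c' := by
  rw [← e1, ← e2, ← e3]; exact h

lemma B_swap {u v w : ℝ} (s : u + v + w = 0) : B u v w ↔ B v u w := by
  rw [B_iff s, B_iff (by linarith : v + u + w = 0), @L_comm v u w, @L_comm u w v, @L_comm w v u]
  have : M u v w ↔ M v u w := by unfold M; tauto
  tauto

lemma B_cyc {u v w : ℝ} : B u v w ↔ B v w u := by unfold B; tauto

lemma refl (α β t s : ℝ) (hα : 0 < α) (hβ : 0 < β) (e : α * β * (t + s) = 2 * α - 2 * β)
    (h : L (-(α + β) * t) (7 + β * t) (-7 + α * t)) :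
    L ((α + β) * s) (7 - α * s) (-7 - β * s) := by
  obtain ⟨h1, h2, h3, h4⟩ := h
  have t0 : 0 < t := by
    by_contra hn
    nlinarith [mul_nonneg hβ.le (neg_nonneg.2 (not_lt.1 hn))]
  have a1 : α * (α + β) * t ≤ 7 * α - 2 * β := by
    by_contra hn
    nlinarith [mul_pos t0 (sub_pos.2 (not_le.1 hn))]
  have s1 : 2 < -(α * s) := by
    by_contra hn
    nlinarith [mul_nonneg hβ.le (sub_nonneg.2 (not_lt.1 hn)), mul_pos hα (sub_pos.2 h1)]
  have s0 : s < 0 := by
    by_contra hn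
    nlinarith [mul_nonneg hα.le (not_lt.1 hn)]
  have a2 : 2 * α - 7 * β ≤ β * (α + β) * s := by
    have e2 : α * (β * (α + β) * s) = (α + β) * (2 * α - 2 * β) - β * (α * (α + β) * t) := by
      linear_combination (α + β) * e
    by_contra hn
    nlinarith [mul_pos hα (sub_pos.2 (not_le.1 hn)), mul_le_mul_of_nonneg_left a1 hβ.le]
  have a3 : 0 < 9 + (-7 - β * s) := by nlinarith [mul_pos hβ (neg_pos.2 s0)]
  have a4 : 18 ≤ (9 + (α + β) * s) * (9 + (-7 - β * s)) := by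
    nlinarith [mul_nonneg (neg_pos.2 s0).le (sub_nonneg.2 a2)]
  refine ⟨by linarith, ?_, a3.le, a4⟩
  by_contra hn
  nlinarith [mul_pos a3 (neg_pos.2 (not_le.1 hn))]

lemma meas (f g h : E →L[ℝ] ℝ) (hs : ∀ p, f p + g p + h p = 0)
    (hsurj : ∀ a b, ∃ p, g p = a ∧ h p = b) (α β c d : ℝ) (hd : 0 ≤ d) (hα : 0 ≤ α) (hβ : 0 ≤ β)
    (hne : 0 < α + β)
    (h1 : ∀ p, |f p| ≤ 7 → |g p| ≤ 7 → |h p| ≤ 7 → α * g p - β * h p ≤ c)
    (h2 : ∃ p, |g p| ≤ 7 ∧ |h p| ≤ 7 ∧ α * g p - β * h p = c) :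
    μH[d] ({p | B (f p) (g p) (h p)} ∩ {p | α * g p - β * h p = c}) =
      μH[d] ({p | B (-f p) (-g p) (-h p)} ∩ {p | α * g p - β * h p = c}) := by
  have hc : c = 7 * α + 7 * β := by
    obtain ⟨z, z1, z2⟩ := hsurj 7 (-7)
    have z0 : f z = 0 := by linarith [hs z]
    have a := h1 z (by rw [z0]; norm_num) (by rw [z1]; norm_num) (by rw [z2]; norm_num)
    obtain ⟨p, p1, p2, p3⟩ := h2
    rw [z1, z2] at a
    nlinarith [mul_le_mul_of_nonneg_left (abs_le.1 p1).2 hα,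
      mul_le_mul_of_nonneg_left (abs_le.1 p2).1 hβ]
  subst hc
  set H : Set E := {p | α * g p - β * h p = 7 * α + 7 * β} with hH
  have no : ∀ p ∈ H, g p < 7 → -7 < h p → False := fun p hp a b => by
    have hp' : α * g p - β * h p = 7 * α + 7 * β := hp
    rcases hα.eq_or_lt with e | e
    · nlinarith [mul_pos (by linarith : 0 < β) (sub_pos.2 b)]
    · nlinarith [mul_pos e (sub_pos.2 a), mul_nonneg hβ (sub_pos.2 b).le]
  have e1 : {p | B (f p) (g p) (h p)} ∩ H =
      {p | M (f p) (g p) (h p)} ∩ H ∪ {p | L (f p) (g p) (h p)} ∩ H := by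
    ext p
    simp only [Set.mem_inter_iff, Set.mem_union, Set.mem_ofPred_eq, B_iff (hs p)]
    constructor
    · rintro ⟨a | a | a | a, hp⟩
      · exact Or.inl ⟨a, hp⟩
      · exact Or.inr ⟨a, hp⟩
      · have := L_bd (by linarith [hs p]) a
        exact (no p hp (by linarith) (by linarith [a.1])).elim
      · have := L_bd (by linarith [hs p]) a
        exact (no p hp (by linarith) (by linarith)).elim
    · rintro (⟨a, hp⟩ | ⟨a, hp⟩)
      · exact ⟨Or.inl a, hp⟩
      · exact ⟨Or.inr (Or.inl a), hp⟩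
  have e2 : {p | B (-f p) (-g p) (-h p)} ∩ H =
      {p | M (f p) (g p) (h p)} ∩ H ∪ {p | L (-f p) (-h p) (-g p)} ∩ H := by
    ext p
    have hM : M (-f p) (-g p) (-h p) ↔ M (f p) (g p) (h p) := by
      unfold M
      constructor <;> rintro ⟨⟨a1, a2⟩, ⟨a3, a4⟩, ⟨a5, a6⟩, ⟨b1, b2⟩, ⟨b3, b4⟩, ⟨b5, b6⟩⟩ <;>
        refine ⟨⟨?_, ?_⟩, ⟨?_, ?_⟩, ⟨?_, ?_⟩, ⟨?_, ?_⟩, ⟨?_, ?_⟩, ⟨?_, ?_⟩⟩ <;> linarith
    simp only [Set.mem_inter_iff, Set.mem_union, Set.mem_ofPred_eq,
      B_iff (by linarith [hs p] : -f p + -g p + -h p = 0), hM]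
    constructor
    · rintro ⟨a | a | a | a, hp⟩
      · exact Or.inl ⟨a, hp⟩
      · have := L_bd (by linarith [hs p]) a
        exact (no p hp (by linarith [a.1]) (by linarith)).elim
      · exact Or.inr ⟨L_comm.1 a, hp⟩
      · have := L_bd (by linarith [hs p]) a
        exact (no p hp (by linarith) (by linarith)).elim
    · rintro (⟨a, hp⟩ | ⟨a, hp⟩)
      · exact ⟨Or.inl a, hp⟩
      · exact ⟨Or.inr (Or.inr (Or.inl (L_comm.1 a))), hp⟩
  have mH : MeasurableSet H := (isClosed_eq (by fun_prop) continuous_const).measurableSet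
  have mL : ∀ a b c : E → ℝ, Continuous a → Continuous b → Continuous c →
      MeasurableSet {p | L (a p) (b p) (c p)} := fun a b c ha hb hc =>
    (isOpen_lt continuous_const hb).measurableSet.inter
      ((isClosed_le continuous_const (continuous_const.add ha)).measurableSet.inter
      ((isClosed_le continuous_const (continuous_const.add hc)).measurableSet.inter
      (isClosed_le continuous_const
        ((continuous_const.add ha).mul (continuous_const.add hc))).measurableSet))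
  rw [e1, e2, measure_union _ ((mL _ _ _ f.continuous g.continuous h.continuous).inter mH),
    measure_union _ ((mL (fun p => -f p) (fun p => -h p) (fun p => -g p) f.continuous.neg
      h.continuous.neg g.continuous.neg).inter mH)]
  rotate_left
  · exact Set.disjoint_left.2 fun p a b => by linarith [a.1.2.2.1.1, b.1.1]
  · exact Set.disjoint_left.2 fun p a b => by linarith [a.1.2.1.2, b.1.1]
  congr 1
  rcases hα.eq_or_lt with ea | ea
  · have z : ∀ p ∈ H, h p = -7 := fun p hp => by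
      have hp' : α * g p - β * h p = 7 * α + 7 * β := hp
      rw [← ea] at hp' hne
      have : β * (h p + 7) = 0 := by linarith
      linarith [(mul_eq_zero.1 this).resolve_left (by linarith)]
    rw [Set.eq_empty_of_forall_notMem (s := {p | L (f p) (g p) (h p)} ∩ H) fun p hp => by
        linarith [z p hp.2, (L_bd (hs p) hp.1).2.2.1],
      Set.eq_empty_of_forall_notMem (s := {p | L (-f p) (-h p) (-g p)} ∩ H) fun p hp => by
        linarith [z p hp.2, hp.1.1]]
  rcases hβ.eq_or_lt with eb | eb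
  · have z : ∀ p ∈ H, g p = 7 := fun p hp => by
      have hp' : α * g p - β * h p = 7 * α + 7 * β := hp
      rw [← eb] at hp'
      have : α * (g p - 7) = 0 := by linarith
      linarith [(mul_eq_zero.1 this).resolve_left ea.ne']
    rw [Set.eq_empty_of_forall_notMem (s := {p | L (f p) (g p) (h p)} ∩ H) fun p hp => by
        linarith [z p hp.2, hp.1.1],
      Set.eq_empty_of_forall_notMem (s := {p | L (-f p) (-h p) (-g p)} ∩ H) fun p hp => by
        linarith [z p hp.2, (L_bd (by linarith [hs p]) hp.1).2.2.1]]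
  obtain ⟨S, hS⟩ : ∃ S, α * β * S = 2 * α - 2 * β :=
    ⟨(2 * α - 2 * β) / (α * β), by field_simp⟩
  obtain ⟨m, m1, m2⟩ := hsurj (14 + β * S) (-14 + α * S)
  have par : ∀ p ∈ H, ∃ t, g p = 7 + β * t ∧ h p = -7 + α * t ∧ f p = -(α + β) * t ∧
      g (m - p) = 7 + β * (S - t) ∧ h (m - p) = -7 + α * (S - t) ∧
      f (m - p) = -(α + β) * (S - t) ∧ m - p ∈ H := fun p hp => by
    have hp' : α * g p - β * h p = 7 * α + 7 * β := hp
    obtain ⟨t, ht⟩ : ∃ t, g p = 7 + β * t := ⟨(g p - 7) / β, by field_simp; ring⟩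
    have a : h p = -7 + α * t := by
      have : β * (h p - (-7 + α * t)) = 0 := by rw [ht] at hp'; linarith
      linarith [(mul_eq_zero.1 this).resolve_left eb.ne']
    have b : g (m - p) = 7 + β * (S - t) := by rw [map_sub, m1, ht]; ring
    have c : h (m - p) = -7 + α * (S - t) := by rw [map_sub, m2, a]; ring
    refine ⟨t, ht, a, by linarith [hs p], b, c, by linarith [hs (m - p)], ?_⟩
    change α * g (m - p) - β * h (m - p) = _
    rw [b, c]; ring
  have iso : Isometry fun p : E => m - p := Isometry.of_dist_eq fun a b => by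
    rw [dist_sub_left]
  rw [← iso.hausdorffMeasure_image (Or.inl hd)]
  congr 1
  ext q
  constructor
  · rintro ⟨p, ⟨hp, hp'⟩, rfl⟩
    obtain ⟨t, a1, a2, a3, b1, b2, b3, b4⟩ := par p hp'
    refine ⟨?_, b4⟩
    have hp2 : L (f p) (g p) (h p) := hp
    rw [a1, a2, a3] at hp2
    have := refl α β t (S - t) ea eb (by linarith) hp2
    change L (-f (m - p)) (-h (m - p)) (-g (m - p))
    rw [b1, b2, b3]
    exact L_congr this (by ring) (by ring) (by ring)
  · rintro ⟨hq, hq'⟩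
    obtain ⟨t, a1, a2, a3, b1, b2, b3, b4⟩ := par q hq'
    refine ⟨m - q, ⟨?_, b4⟩, by simp⟩
    have hq2 : L (-f q) (-h q) (-g q) := hq
    rw [a1, a2, a3] at hq2
    have := refl β α (-t) (-(S - t)) eb ea (by linarith) (L_congr hq2 (by ring) (by ring) (by ring))
    change L (f (m - q)) (g (m - q)) (h (m - q))
    rw [b1, b2, b3]
    exact L_congr this (by ring) (by ring) (by ring)

lemma op (k : E →L[ℝ] ℝ) (r : ℝ) : IsOpen {p | |k p| < r} :=
  isOpen_lt (by fun_prop) continuous_const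

lemma body (f g h : E →L[ℝ] ℝ) (hs : ∀ p, f p + g p + h p = 0)
    (hn : ∀ p : E, ‖p‖ ^ 2 = f p ^ 2 + g p ^ 2) :
    Convex ℝ {p | B (f p) (g p) (h p)} ∧ IsCompact {p | B (f p) (g p) (h p)} ∧
      ∀ p, |f p| ≤ 7 → |g p| ≤ 7 → |h p| ≤ 7 → p ∈ interior {p | B (f p) (g p) (h p)} := by
  have cT : ∀ a c : E →L[ℝ] ℝ, IsClosed {p | T (9 + a p) (9 + c p)} := fun a c => by
    have : {p | T (9 + a p) (9 + c p)} = ⋂ t : ℝ, ⋂ _ : 1 ≤ t, ⋂ _ : t ≤ 2,
        {p | 12 * t ≤ 2 * (9 + a p) + t ^ 2 * (9 + c p)} := by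
      ext p; simp only [T, Set.mem_ofPred_eq, Set.mem_iInter]
    rw [this]
    exact isClosed_iInter fun t => isClosed_iInter fun _ => isClosed_iInter fun _ =>
      isClosed_le continuous_const (by fun_prop)
  have c0 : ∀ a : E →L[ℝ] ℝ, IsClosed {p | 0 ≤ 9 + a p} := fun a =>
    isClosed_le continuous_const (by fun_prop)
  refine ⟨?_, ?_, fun p a b c => ?_⟩
  · rintro x ⟨x1, x2, x3, x4, x5, x6⟩ y ⟨y1, y2, y3, y4, y5, y6⟩ a b ha hb hab
    have l : ∀ k : E →L[ℝ] ℝ, 9 + k (a • x + b • y) = a * (9 + k x) + b * (9 + k y) := fun k => by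
      rw [map_add, map_smul, map_smul, smul_eq_mul, smul_eq_mul]
      linear_combination (-9) * hab
    have t : ∀ k k' : E →L[ℝ] ℝ, T (9 + k x) (9 + k' x) → T (9 + k y) (9 + k' y) →
        T (9 + k (a • x + b • y)) (9 + k' (a • x + b • y)) := fun k k' p q t t1 t2 => by
      rw [l, l]
      have e : 12 * t = a * (12 * t) + b * (12 * t) := by linear_combination (-12 * t) * hab
      linarith [mul_le_mul_of_nonneg_left (p t t1 t2) ha, mul_le_mul_of_nonneg_left (q t t1 t2) hb]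
    exact ⟨by rw [l]; positivity, by rw [l]; positivity, by rw [l]; positivity, t _ _ x4 y4,
      t _ _ x5 y5, t _ _ x6 y6⟩
  · refine Metric.isCompact_of_isClosed_isBounded ((c0 f).inter ((c0 g).inter ((c0 h).inter
      ((cT f h).inter ((cT g f).inter (cT h g)))))) (isBounded_iff_forall_norm_le.2 ⟨30, ?_⟩)
    rintro p ⟨a, b, c, -⟩
    have := hs p
    refine abs_le_of_sq_le_sq' ?_ (by norm_num) |>.2
    rw [hn]
    nlinarith [mul_nonneg a (by linarith : 0 ≤ 18 - f p), mul_nonneg b (by linarith : 0 ≤ 18 - g p)]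
  · have o : IsOpen {p | |f p| < 15 / 2 ∧ |g p| < 15 / 2 ∧ |h p| < 15 / 2} :=
      (op f _).inter ((op g _).inter (op h _))
    refine interior_maximal (fun q hq => ?_) o ⟨by linarith, by linarith, by linarith⟩
    obtain ⟨q1, q2, q3⟩ := hq
    rw [abs_lt] at q1 q2 q3
    refine (B_iff (hs q)).2 (Or.inl ?_)
    refine ⟨⟨?_, ?_⟩, ⟨?_, ?_⟩, ⟨?_, ?_⟩, ⟨?_, ?_⟩, ⟨?_, ?_⟩, ⟨?_, ?_⟩⟩ <;>
      linarith [q1.1, q1.2, q2.1, q2.2, q3.1, q3.2]

noncomputable def X : E →L[ℝ] ℝ := EuclideanSpace.proj 0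
noncomputable def Y : E →L[ℝ] ℝ := EuclideanSpace.proj 1
noncomputable def W : E →L[ℝ] ℝ := -X - Y

lemma hW (p : E) : W p = -X p - Y p := rfl

lemma surj (a b : ℝ) : ∃ p, X p = a ∧ Y p = b := ⟨!₂[a, b], rfl, rfl⟩

lemma hn (p : E) : ‖p‖ ^ 2 = X p ^ 2 + Y p ^ 2 := by
  rw [EuclideanSpace.norm_sq_eq, Fin.sum_univ_two, Real.norm_eq_abs, Real.norm_eq_abs, sq_abs,
    sq_abs]
  rfl

lemma hinner (u p : E) : inner ℝ u p = X u * X p + Y u * Y p := by
  rw [PiLp.inner_apply, Fin.sum_univ_two]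
  simp [X, Y, mul_comm]

/-- A hexagon inside two different convex bodies (a dodecagon with three hyperbolic caps, and its
reflection in the origin) that have equal chords on all supporting lines of the hexagon. -/
theorem result :
    ¬ (∀ n : ℕ, 2 ≤ n →
    ∀ K K₁ K₂ : Set (EuclideanSpace ℝ (Fin n)),
      Convex ℝ K → IsCompact K → (interior K).Nonempty →
      Convex ℝ K₁ → IsCompact K₁ → (interior K₁).Nonempty →
      Convex ℝ K₂ → IsCompact K₂ → (interior K₂).Nonempty →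
      K ⊆ interior K₁ ∩ interior K₂ →
      (∀ u : EuclideanSpace ℝ (Fin n), u ≠ 0 → ∀ c : ℝ,
          (∀ x ∈ K, inner ℝ u x ≤ c) → (∃ x ∈ K, inner ℝ u x = c) →
          MeasureTheory.Measure.hausdorffMeasure ((n : ℝ) - 1)
              (K₁ ∩ {x : EuclideanSpace ℝ (Fin n) | inner ℝ u x = c}) =
            MeasureTheory.Measure.hausdorffMeasure ((n : ℝ) - 1)
              (K₂ ∩ {x : EuclideanSpace ℝ (Fin n) | inner ℝ u x = c})) →
      K₁ = K₂) := by
  intro H
  have hs : ∀ p, X p + Y p + W p = 0 := fun p => by rw [hW]; ring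
  obtain ⟨a1, a2, a3⟩ := body X Y W hs hn
  obtain ⟨b1, b2, b3⟩ := body (-X) (-Y) (-W) (fun p => by simp [hW]) (fun p => by simp [hn])
  simp only [neg_apply, abs_neg] at b1 b2 b3
  have k0 : (0 : E) ∈ interior {p | |X p| ≤ 7 ∧ |Y p| ≤ 7 ∧ |W p| ≤ 7} := by
    have o : IsOpen {p | |X p| < 7 ∧ |Y p| < 7 ∧ |W p| < 7} :=
      (op X _).inter ((op Y _).inter (op W _))
    refine interior_maximal (fun q hq => ?_) o (by simp)
    exact ⟨hq.1.le, hq.2.1.le, hq.2.2.le⟩
  have cv : ∀ k : E →L[ℝ] ℝ, Convex ℝ {p | |k p| ≤ 7} := fun k => by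
    have : {p | |k p| ≤ 7} = (k : E →ₗ[ℝ] ℝ) ⁻¹' Set.Icc (-7) 7 := by
      ext p; simp [abs_le]
    rw [this]
    exact (convex_Icc _ _).linear_preimage _
  have cl : ∀ k : E →L[ℝ] ℝ, IsClosed {p | |k p| ≤ 7} := fun k =>
    isClosed_le (by fun_prop) continuous_const
  have key := H 2 le_rfl {p | |X p| ≤ 7 ∧ |Y p| ≤ 7 ∧ |W p| ≤ 7} _ _
    ((cv X).inter ((cv Y).inter (cv W)))
    (a2.of_isClosed_subset ((cl X).inter ((cl Y).inter (cl W)))
      fun p hp => interior_subset (a3 p hp.1 hp.2.1 hp.2.2))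
    ⟨0, k0⟩ a1 a2 ⟨0, a3 0 (by simp) (by simp) (by simp)⟩ b1 b2
    ⟨0, b3 0 (by simp) (by simp) (by simp)⟩
    (fun p hp => ⟨a3 p hp.1 hp.2.1 hp.2.2, b3 p hp.1 hp.2.1 hp.2.2⟩) (fun u hu c h1 h2 => by
      have hd : (0 : ℝ) ≤ ((2 : ℕ) : ℝ) - 1 := by norm_num
      have nz : ¬ (X u = 0 ∧ Y u = 0) := fun h => hu (by
        have := hn u
        rw [h.1, h.2] at this
        simpa using this)
      have use : ∀ (f g h : E →L[ℝ] ℝ) (α β : ℝ), (∀ p, f p + g p + h p = 0) →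
          (∀ a b, ∃ p, g p = a ∧ h p = b) → 0 ≤ α → 0 ≤ β → 0 < α + β →
          (∀ p, inner ℝ u p = α * g p - β * h p) →
          (∀ p, (|X p| ≤ 7 ∧ |Y p| ≤ 7 ∧ |W p| ≤ 7) ↔ (|f p| ≤ 7 ∧ |g p| ≤ 7 ∧ |h p| ≤ 7)) →
          (∀ p, B (X p) (Y p) (W p) ↔ B (f p) (g p) (h p)) →
          μH[((2 : ℕ) : ℝ) - 1] ({p | B (X p) (Y p) (W p)} ∩ {x : E | inner ℝ u x = c}) =
            μH[((2 : ℕ) : ℝ) - 1] ({p | B (-X p) (-Y p) (-W p)} ∩ {x : E | inner ℝ u x = c}) := by
        intro f g h α β s1 s2 s3 s4 s5 s6 s7 s8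
        have s9 : ∀ p, B (-X p) (-Y p) (-W p) ↔ B (-f p) (-g p) (-h p) := fun p => by
          simpa only [map_neg] using s8 (-p)
        simp only [s6, s8, s9]
        refine meas f g h s1 s2 α β c _ hd s3 s4 s5 (fun p a b c => ?_) ?_
        · rw [← s6]; exact h1 p ((s7 p).2 ⟨a, b, c⟩)
        · obtain ⟨p, p1, p2⟩ := h2
          exact ⟨p, ((s7 p).1 p1).2.1, ((s7 p).1 p1).2.2, by rw [← s6, p2]⟩
      have pos : ∀ a b : ℝ, 0 ≤ a → 0 ≤ b → (a = 0 → b = 0 → X u = 0 ∧ Y u = 0) → 0 < a + b :=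
        fun a b ha hb h => by
          by_contra hn
          exact nz (h (by linarith) (by linarith))
      rcases le_total 0 (X u) with x | x <;> rcases le_total 0 (Y u) with y | y
      · rcases le_total (X u) (Y u) with z | z
        · exact use X Y W (Y u - X u) (X u) hs
            (fun a b => by
              obtain ⟨p, p1, p2⟩ := surj (-a - b) a
              exact ⟨p, p2, by rw [hW, p1, p2]; ring⟩) (by linarith) x
            (pos _ _ (by linarith) x fun a b => ⟨b, by linarith⟩)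
            (fun p => by rw [hinner, hW]; ring) (fun p => Iff.rfl) (fun p => Iff.rfl)
        · exact use Y X W (X u - Y u) (Y u) (fun p => by linarith [hs p])
            (fun a b => by
              obtain ⟨p, p1, p2⟩ := surj a (-a - b)
              exact ⟨p, p1, by rw [hW, p1, p2]; ring⟩) (by linarith) y
            (pos _ _ (by linarith) y fun a b => ⟨by linarith, b⟩)
            (fun p => by rw [hinner, hW]; ring) (fun p => by tauto) (fun p => B_swap (hs p))
      · exact use W X Y (X u) (-Y u) (fun p => by linarith [hs p]) surj x (by linarith)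
          (pos _ _ x (by linarith) fun a b => ⟨a, by linarith⟩)
          (fun p => by rw [hinner]; ring) (fun p => by tauto) (fun p => B_cyc.symm)
      · exact use W Y X (Y u) (-X u) (fun p => by linarith [hs p])
          (fun a b => by
            obtain ⟨p, p1, p2⟩ := surj b a
            exact ⟨p, p2, p1⟩) y (by linarith)
          (pos _ _ y (by linarith) fun a b => ⟨by linarith, a⟩)
          (fun p => by rw [hinner]; ring) (fun p => by tauto)
          (fun p => (B_swap (hs p)).trans B_cyc.symm)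
      · rcases le_total (X u) (Y u) with z | z
        · exact use Y W X (-Y u) (Y u - X u) (fun p => by linarith [hs p])
            (fun a b => by
              obtain ⟨p, p1, p2⟩ := surj b (-a - b)
              exact ⟨p, by rw [hW, p1, p2]; ring, p1⟩) (by linarith) (by linarith)
            (pos _ _ (by linarith) (by linarith) fun a b => ⟨by linarith, by linarith⟩)
            (fun p => by rw [hinner, hW]; ring) (fun p => by tauto) (fun p => B_cyc)
        · exact use X W Y (-X u) (X u - Y u) (fun p => by linarith [hs p])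
            (fun a b => by
              obtain ⟨p, p1, p2⟩ := surj (-a - b) b
              exact ⟨p, by rw [hW, p1, p2]; ring, p2⟩) (by linarith) (by linarith)
            (pos _ _ (by linarith) (by linarith) fun a b => ⟨by linarith, by linarith⟩)
            (fun p => by rw [hinner, hW]; ring) (fun p => by tauto)
            (fun p => (B_swap (hs p)).trans B_cyc))
  obtain ⟨p, p1, p2⟩ := surj (-9 / 2) (37 / 4)
  have m1 : p ∈ {p | B (X p) (Y p) (W p)} := (B_iff (hs p)).2 (Or.inr (Or.inl (by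
    unfold L; rw [hW, p1, p2]; norm_num)))
  rw [key] at m1
  have := m1.2.1
  rw [p2] at this
  norm_num at this

end Pool.Agent.S13946
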