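import Pool.Statements.S14003
import Pool.Agent.Lib.helper9.Tube

set_option autoImplicit false
open Pool Pool.MP_d4ad8c_gt

namespace Pool.Agent.S14003

/-- For odd k, even m, 0<ε<1, a nonzero real polynomial F(ξ,t,V) exists with F(ξ,t,V)=0 whenever ξ≠0, where V is the volume of the part of the ε-neighbourhood of the unit (k−1)-sphere in ℝ^{k+m} lying in the half-space ⟨ξ,z⟩≤t. -/
theorem result :
    ∀ k m : ℕ, Odd k → Even m → ∀ ε : ℝ, 0 < ε → ε < 1 →
      ∃ F : MvPolynomial ((Fin k ⊕ Fin m) ⊕ Fin 2) ℝ, F ≠ 0 ∧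
        ∀ (a : Fin k → ℝ) (b : Fin m → ℝ) (t : ℝ), (a, b) ≠ 0 →
          MvPolynomial.eval
            (Sum.elim (Sum.elim a b)
              ![t, (MeasureTheory.volume
                {p : (Fin k → ℝ) × (Fin m → ℝ) |
                  (Real.sqrt (∑ i, p.1 i ^ 2) - 1) ^ 2 + ∑ j, p.2 j ^ 2 ≤ ε ^ 2 ∧
                  ∑ i, a i * p.1 i + ∑ j, b j * p.2 j ≤ t}).toReal]) F = 0 := by
  rintro k m ⟨p, rfl⟩ hm ε h0 h1
  have hA := Pool.Agent.H9Tube.tube_alg' (σ := (Fin (2 * p + 1) ⊕ Fin m) ⊕ Unit) (n := 2 * p)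
    (even_two_mul p) hm h0 h1 (fun i => Sum.inl (Sum.inl i)) 1 one_ne_zero
    (b := fun ω j => ω (Sum.inl (Sum.inr j))) (fun j => Pool.Agent.H9Tube.Alg.coord _)
    (t := fun ω => ω (Sum.inr ())) (Pool.Agent.H9Tube.Alg.coord _)
  obtain ⟨F, hF, h⟩ := hA.exists_mv
  let e : Option ((Fin (2 * p + 1) ⊕ Fin m) ⊕ Unit) → (Fin (2 * p + 1) ⊕ Fin m) ⊕ Fin 2 :=
    fun o => o.elim (Sum.inr 1) (Sum.map id fun _ => 0)
  have he : Function.Injective e := by
    rintro (_ | x | x) (_ | y | y) h <;> simp_all [e]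
  refine ⟨MvPolynomial.rename e F, fun h0 => hF (MvPolynomial.rename_injective e he (by simpa using h0)),
    fun a b t _ => ?_⟩
  rw [MvPolynomial.eval_rename]
  convert h (Sum.elim (Sum.elim a b) fun _ => t) using 3
  ext o
  rcases o with _ | x | x <;> simp [e, Pool.Agent.H9Tube.tube]

end Pool.Agent.S14003
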