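import Pool.Statements.S14028
import Pool.Agent.Lib.helper5.Extral

set_option autoImplicit false
open Pool Pool.MP_d6b4bb_gt

namespace Pool.Agent.S14028

/-- The negation of the preceding statement: For an index set of size aleph-one, the continuous real functions on the Cantor cube {0,1}^ω₁ (pointwise topology) embed topologically into the continuous real functions on the Tychonoff cube [0,1]^ω₁ (pointwise topology). -/
theorem result :
    ¬ (∀ ι : Type, Cardinal.mk ι = Cardinal.aleph 1 →
      ∃ f : {g : (ι → Bool) → ℝ // Continuous g} →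
            {g : (ι → unitInterval) → ℝ // Continuous g},
        Topology.IsEmbedding f) := by
  classical
  intro h
  obtain ⟨ι, hι⟩ : ∃ ι : Type, Cardinal.mk ι = Cardinal.aleph 1 := ⟨_, Cardinal.mk_out _⟩
  have := H5C.uncountable_of_aleph hι
  obtain ⟨f, hf⟩ := h ι hι
  obtain ⟨𝒩, h1, h2⟩ := H5C.net_td f hf.continuous
  let g : ι → H5C.Cp (ι → Bool) := fun i => ⟨fun σ => cond (σ i) 1 0,
    (continuous_of_discreteTopology (f := fun b => cond b (1 : ℝ) 0)).comp (continuous_apply i)⟩
  have : ∀ i, ∃ N : 𝒩, f (g i) ∈ N.1 ∧ ∀ j, f (g j) ∈ N.1 → j = i := fun i => by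
    have ho : IsOpen {x : H5C.Cp (ι → Bool) | 0 < x.1 (Pi.single i true)} :=
      isOpen_lt continuous_const ((continuous_apply _).comp continuous_subtype_val)
    obtain ⟨V, v1, v2⟩ := hf.isInducing.isOpen_iff.1 ho
    obtain ⟨N, n1, n2, n3⟩ := h2 _ ⟨g i, rfl⟩ V v1 (by
      rw [← Set.mem_preimage, v2]; simp [g])
    refine ⟨⟨N, n1⟩, n2, fun j hj => ?_⟩
    have := (n3 hj).1
    rw [← Set.mem_preimage, v2] at this
    by_contra hne
    simp [g, Pi.single_eq_of_ne hne] at this
    exact lt_irrefl _ this
  choose N n1 n2 using this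
  have := h1.to_subtype
  exact not_countable (Function.Injective.countable (f := N) fun i j e => n2 j i (e ▸ n1 i))

end Pool.Agent.S14028
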