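import Pool.Statements.S14036
import Pool.Agent.Lib.helper5.PFin

set_option autoImplicit false
open Pool Pool.MP_d88d39_gt

namespace Pool.Agent.S14036

/-- The negation of the preceding statement: For every Tychonoff space X: if every point-finite family of nonempty open sets in C_p(X) is countable, then the same holds for C_p of the Hewitt realcompactification of X, taken as a subspace of the Stone–Čech compactification. -/
theorem result :
    ¬ (∀ (X : Type) [TopologicalSpace X] [T35Space X],
      (∀ 𝒰 : Set (Set {f : X → ℝ // Continuous f}),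
          (∀ U ∈ 𝒰, IsOpen U ∧ U.Nonempty) →
          (∀ y : {f : X → ℝ // Continuous f}, {U | U ∈ 𝒰 ∧ y ∈ U}.Finite) →
          𝒰.Countable) →
      (∀ 𝒰 : Set (Set {f : {p : StoneCech X //
              ∀ (g : X → Set.Icc (-1 : ℝ) 1) (hg : Continuous g),
                (∀ x, ((g x : ℝ)) ∈ Set.Ioo (-1 : ℝ) 1) →
                ((stoneCechExtend hg p : Set.Icc (-1 : ℝ) 1) : ℝ) ∈ Set.Ioo (-1 : ℝ) 1}
              → ℝ // Continuous f}),
          (∀ U ∈ 𝒰, IsOpen U ∧ U.Nonempty) →
          (∀ y, {U | U ∈ 𝒰 ∧ y ∈ U}.Finite) →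
          𝒰.Countable)) := by
  intro h
  obtain ⟨𝒰, h1, h2, h3⟩ := H5E.Sh_ups
  exact h3 (h H5E.Sh H5E.Sh_pf 𝒰 h1 h2)

end Pool.Agent.S14036
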