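import Pool.Statements.S14041

set_option autoImplicit false
open Pool Pool.MP_d91817_gt

namespace Pool.Agent.S14041

section
open Set Filter Topology Cardinal

abbrev K : Type := ℕ → Bool

noncomputable def E (x : K) : ℝ := cantorFunction (1 / 3) x

lemma E_cont : Continuous E := by
  unfold E cantorFunction
  refine continuous_tsum (u := fun n => (1 / 3 : ℝ) ^ n) (fun n => ?_)
    (summable_geometric_of_lt_one (by norm_num) (by norm_num)) (fun n x => ?_)
  · exact (continuous_of_discreteTopology (f := fun b : Bool => cond b ((1 / 3 : ℝ) ^ n) 0)).comp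
      (continuous_apply n)
  · cases h : x n
    · simp [h]
    · simp [h]

lemma E_inj : Function.Injective E := cantorFunction_injective (by norm_num) (by norm_num)

lemma E_nonneg (x : K) : 0 ≤ E x :=
  tsum_nonneg fun n => cantorFunctionAux_nonneg (by norm_num)

lemma E_le (x : K) : E x ≤ 3 / 2 := by
  have h1 : E x ≤ ∑' n, (1 / 3 : ℝ) ^ n := by
    refine (summable_cantor_function x (by norm_num) (by norm_num)).tsum_le_tsum (fun n => ?_)
      (summable_geometric_of_lt_one (by norm_num) (by norm_num))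
    cases h : x n
    · simp [h]
    · simp [h]
  rw [tsum_geometric_of_lt_one (by norm_num) (by norm_num)] at h1
  linarith

lemma E_flip (w : K) (L : ℕ) :
    E (Function.update w L true) - E (Function.update w L false) = (1 / 3 : ℝ) ^ L := by
  unfold E cantorFunction
  rw [← (summable_cantor_function _ (by norm_num) (by norm_num)).tsum_sub
    (summable_cantor_function _ (by norm_num) (by norm_num))]
  rw [tsum_eq_single L]
  · simp
  · intro n hn
    rw [cantorFunctionAux_eq (g := Function.update w L false)]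
    · simp
    · simp [Function.update_of_ne hn]

lemma lex_of_ne {x y : K} {l : ℕ} (h : ∃ n < l, x n ≠ y n) (hxy : E x ≤ E y) :
    ∀ x' y' : K, (∀ n < l, x' n = x n) → (∀ n < l, y' n = y n) → E x' < E y' := by
  classical
  obtain ⟨n0, hn0, hne⟩ := h
  have hex : ∃ n, x n ≠ y n := ⟨n0, hne⟩
  let n := Nat.find hex
  have hn : n < l := (Nat.find_min' hex hne).trans_lt hn0
  have h1 : x n ≠ y n := Nat.find_spec hex
  have h2 : ∀ k < n, x k = y k := fun k hk => not_not.1 (Nat.find_min hex hk)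
  intro x' y' hx hy
  cases hxn : x n
  · have hyn : y n = true := by
      cases h : y n
      · exact absurd (hxn.trans h.symm) h1
      · rfl
    exact increasing_cantorFunction (by norm_num) (by norm_num) (n := n)
      (fun k hk => by rw [hx k (hk.trans hn), hy k (hk.trans hn), h2 k hk])
      (by rw [hx n hn, hxn]) (by rw [hy n hn, hyn])
  · have hyn : y n = false := by
      cases h : y n
      · rfl
      · exact absurd (hxn.trans h.symm) h1
    have : E y < E x := increasing_cantorFunction (by norm_num) (by norm_num) (n := n)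
      (fun k hk => (h2 k hk).symm) hyn hxn
    linarith

lemma L1aux {a b : ℝ} {x y z : K} {l : ℕ} (hx : E x ∈ Icc a b) (hz : E z ∈ Icc a b)
    (hxy : ∃ n < l, x n ≠ y n) (hyz : ∃ n < l, y n ≠ z n) (h1 : E x ≤ E y) (h2 : E y ≤ E z) :
    ∀ u : K, (∀ n < l, u n = y n) → E u ∈ Icc a b := fun u hu =>
  ⟨hx.1.trans (lex_of_ne hxy h1 x u (fun _ _ => rfl) hu).le,
    (lex_of_ne hyz h2 u z hu (fun _ _ => rfl)).le.trans hz.2⟩

lemma L1 {a b : ℝ} {x y z : K} {l : ℕ} (hx : E x ∈ Icc a b) (hy : E y ∈ Icc a b)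
    (hz : E z ∈ Icc a b)
    (hxy : ∃ n < l, x n ≠ y n) (hyz : ∃ n < l, y n ≠ z n) (hxz : ∃ n < l, x n ≠ z n) :
    ∃ w ∈ ({x, y, z} : Set K), ∀ u : K, (∀ n < l, u n = w n) → E u ∈ Icc a b := by
  have sy : ∀ {p q : K}, (∃ n < l, p n ≠ q n) → ∃ n < l, q n ≠ p n :=
    fun ⟨n, h1, h2⟩ => ⟨n, h1, h2.symm⟩
  rcases le_total (E x) (E y) with h1 | h1 <;> rcases le_total (E y) (E z) with h2 | h2 <;>
    rcases le_total (E x) (E z) with h3 | h3
  · exact ⟨y, by simp, L1aux hx hz hxy hyz h1 h2⟩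
  · exact ⟨y, by simp, L1aux hx hz hxy hyz h1 h2⟩
  · exact ⟨z, by simp, L1aux hx hy hxz (sy hyz) h3 h2⟩
  · exact ⟨x, by simp, L1aux hz hy (sy hxz) hxy h3 h1⟩
  · exact ⟨x, by simp, L1aux hy hz (sy hxy) hxz h1 h3⟩
  · exact ⟨z, by simp, L1aux hy hx hyz (sy hxz) h2 h3⟩
  · exact ⟨y, by simp, L1aux hz hx (sy hyz) (sy hxy) h2 h1⟩
  · exact ⟨y, by simp, L1aux hz hx (sy hyz) (sy hxy) h2 h1⟩

def sg (b : Bool) (n : ℕ) : ℕ := cond b (if n % 2 = 0 then n else 2 * (n / 4) + 1) n

lemma sg_surj (b : Bool) : Function.Surjective (sg b) := by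
  intro t
  cases b
  · exact ⟨t, rfl⟩
  · by_cases h : t % 2 = 0
    · exact ⟨t, by simp [sg, h]⟩
    · refine ⟨4 * (t / 2) + 1, ?_⟩
      have : (4 * (t / 2) + 1) % 2 ≠ 0 := by omega
      simp only [sg, cond_true, this, if_false]
      omega

noncomputable def e (p : Bool × K) : ℝ := (cond p.1 (1 / 2) 0) + E (fun n => p.2 (sg p.1 n)) / 4

lemma e_cont : Continuous e := by
  rw [continuous_prod_of_discrete_left]
  intro b
  have : Continuous fun u : K => E (fun n => u (sg b n)) :=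
    E_cont.comp (continuous_pi fun n => continuous_apply _)
  unfold e
  fun_prop

lemma e_inj : Function.Injective e := by
  rintro ⟨b, u⟩ ⟨b', u'⟩ h
  unfold e at h
  have h1 := E_nonneg (fun n => u (sg b n))
  have h2 := E_le (fun n => u (sg b n))
  have h3 := E_nonneg (fun n => u' (sg b' n))
  have h4 := E_le (fun n => u' (sg b' n))
  have hb : b = b' := by
    cases b <;> cases b' <;> simp only [cond_true, cond_false] at h
    · rfl
    · linarith
    · linarith
    · rfl
  subst hb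
  have : E (fun n => u (sg b n)) = E (fun n => u' (sg b n)) := by
    simp only at h
    linarith
  have := E_inj this
  congr 1
  funext t
  obtain ⟨n, rfl⟩ := sg_surj b t
  exact congrFun this n

lemma e_mem (p : Bool × K) : e p ∈ Icc (0:ℝ) 1 := by
  have h1 := E_nonneg (fun n => p.2 (sg p.1 n))
  have h2 := E_le (fun n => p.2 (sg p.1 n))
  have h3 : (0:ℝ) ≤ cond p.1 (1 / 2) 0 ∧ cond p.1 (1 / 2 : ℝ) 0 ≤ 1 / 2 := by
    cases p.1 <;> simp
  unfold e
  constructor <;> linarith [h3.1, h3.2]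

lemma exists_f : ∃ f : ℝ → ℝ × ℝ × ℝ, Continuous f ∧ (∀ y, {x | f x = y}.encard ≤ 2) ∧
    ∀ u b b', f (e (b, u)) = f (e (b', u)) := by
  have hemb : IsClosedEmbedding e := e_cont.isClosedEmbedding e_inj
  obtain ⟨φ, hφ⟩ := ContinuousMap.exists_extension' hemb
    (⟨fun p => E p.2, E_cont.comp continuous_snd⟩ : C(Bool × K, ℝ))
  have hφ' : ∀ p, φ (e p) = E p.2 := fun p => congrFun hφ p
  have hd : ∀ x, Metric.infDist x (range e) = 0 ↔ x ∈ range e := fun x =>
    (hemb.isClosed_range.mem_iff_infDist_zero (range_nonempty e)).symm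
  refine ⟨fun x => (φ x, Metric.infDist x (range e), x * Metric.infDist x (range e)), ?_, ?_, ?_⟩
  · have := Metric.continuous_infDist_pt (range e)
    fun_prop
  · intro y
    by_cases h : ∃ x ∈ range e,
        (φ x, Metric.infDist x (range e), x * Metric.infDist x (range e)) = y
    · obtain ⟨_, ⟨p, rfl⟩, rfl⟩ := h
      refine (encard_le_encard (t := {e (false, p.2), e (true, p.2)}) ?_).trans
        ((encard_insert_le _ _).trans (by rw [encard_singleton]; rfl))
      intro x hx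
      simp only [mem_setOf_eq, Prod.mk.injEq] at hx
      obtain ⟨q, rfl⟩ := (hd x).1 (hx.2.1.trans ((hd _).2 ⟨p, rfl⟩))
      have : q.2 = p.2 := E_inj (by rw [← hφ', ← hφ', hx.1])
      rw [← this]
      rcases q with ⟨b, u⟩
      cases b
      · exact Or.inl rfl
      · exact Or.inr rfl
    · refine (encard_le_one_iff.2 ?_).trans (by norm_num)
      intro a b ha hb
      have hb' : b ∉ range e := fun hb' => h ⟨b, hb', hb⟩
      have e1 := ha.trans hb.symm
      simp only [Prod.mk.injEq] at e1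
      have hne : Metric.infDist b (range e) ≠ 0 := fun h => hb' ((hd b).1 h)
      have := e1.2.2
      rw [e1.2.1] at this
      exact mul_right_cancel₀ hne this
  · intro u b b'
    simp only [hφ', (hd _).2 ⟨_, rfl⟩, mul_zero]

lemma cover {k : ℕ} {t : ℕ → ℝ} (hk : 0 < k) (h0 : t 0 = 0) (h1 : t k = 1) {x : ℝ}
    (hx : x ∈ Icc (0:ℝ) 1) : ∃ i < k, x ∈ Icc (t i) (t (i + 1)) := by
  classical
  have hex : ∃ i, x ≤ t (i + 1) := ⟨k - 1, by rw [Nat.sub_add_cancel hk, h1]; exact hx.2⟩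
  refine ⟨Nat.find hex, ?_, ?_, Nat.find_spec hex⟩
  · have := Nat.find_min' hex (m := k - 1) (by rw [Nat.sub_add_cancel hk, h1]; exact hx.2)
    omega
  · rcases Nat.eq_zero_or_pos (Nat.find hex) with h | h
    · rw [h, h0]; exact hx.1
    · have := Nat.find_min hex (m := Nat.find hex - 1) (by omega)
      rw [Nat.sub_add_cancel h] at this
      exact (not_le.1 this).le

def Cyl (k : ℕ) (t : ℕ → ℝ) (b : Bool) (l : ℕ) : Prop :=
  ∃ i < k, ∃ w : K, ∀ u : K, (∀ n < l, u (sg b n) = w (sg b n)) → e (b, u) ∈ Icc (t i) (t (i + 1))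

lemma PH {k : ℕ} {t : ℕ → ℝ} (b : Bool) (l m : ℕ) (T : Finset ℕ) (hT : T.card ≤ m)
    (hTk : ∀ i ∈ T, i < k) (u : ℕ → K) (idx : ℕ → ℕ)
    (hidx : ∀ s < 2 * m + 1, idx s ∈ T ∧ e (b, u s) ∈ Icc (t (idx s)) (t (idx s + 1)))
    (hne : ∀ s < 2 * m + 1, ∀ s' < 2 * m + 1, s ≠ s' → ∃ n < l, u s (sg b n) ≠ u s' (sg b n)) :
    Cyl k t b l := by
  classical
  obtain ⟨i, hi, hcard⟩ := Finset.exists_lt_card_fiber_of_mul_lt_card_of_maps_to
    (s := Finset.range (2 * m + 1)) (t := T) (f := idx) (n := 2)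
    (fun s hs => (hidx s (Finset.mem_range.1 hs)).1) (by rw [Finset.card_range]; omega)
  obtain ⟨s1, h1, s2, h2, s3, h3, n12, n13, n23⟩ := Finset.two_lt_card.1 hcard
  simp only [Finset.mem_filter, Finset.mem_range] at h1 h2 h3
  have conv : ∀ v : K, e (b, v) ∈ Icc (t i) (t (i + 1)) ↔
      E (fun n => v (sg b n)) ∈ Icc (4 * (t i - cond b (1 / 2) 0))
        (4 * (t (i + 1) - cond b (1 / 2) 0)) := by
    intro v
    simp only [e, mem_Icc]
    constructor <;> rintro ⟨a1, a2⟩ <;> constructor <;> linarith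
  obtain ⟨w, hw, hw'⟩ := L1 (l := l) ((conv _).1 (h1.2 ▸ (hidx s1 h1.1).2))
    ((conv _).1 (h2.2 ▸ (hidx s2 h2.1).2)) ((conv _).1 (h3.2 ▸ (hidx s3 h3.1).2))
    (hne _ h1.1 _ h2.1 n12) (hne _ h2.1 _ h3.1 n23) (hne _ h1.1 _ h3.1 n13)
  refine ⟨i, hTk i hi, ?_⟩
  rcases hw with rfl | rfl | rfl
  · exact ⟨u s1, fun v hv => (conv v).2 (hw' _ hv)⟩
  · exact ⟨u s2, fun v hv => (conv v).2 (hw' _ hv)⟩
  · exact ⟨u s3, fun v hv => (conv v).2 (hw' _ hv)⟩

lemma step {Y : Type} {f : ℝ → Y} (hf : ∀ u b b', f (e (b, u)) = f (e (b', u)))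
    {k m : ℕ} {t : ℕ → ℝ} (hk : 0 < k) (h0 : t 0 = 0) (h1 : t k = 1)
    (hm : ∀ i, i < k → {j : ℕ | j < k ∧
      (f '' Icc (t i) (t (i + 1)) ∩ f '' Icc (t j) (t (j + 1))).Nonempty}.encard ≤ (m : ℕ∞))
    (b b' : Bool) (l j : ℕ) (c : ℕ → ℕ) (hc : Function.Injective c)
    (hc1 : ∀ s < 2 * m + 1, ∀ n < l, sg b n ≠ c s)
    (hc2 : ∀ s < 2 * m + 1, ∃ n < j, sg b' n = c s) (H : Cyl k t b l) : Cyl k t b' j := by
  classical
  obtain ⟨i, hi, w, hw⟩ := H
  have hfin : {j : ℕ | j < k ∧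
      (f '' Icc (t i) (t (i + 1)) ∩ f '' Icc (t j) (t (j + 1))).Nonempty}.Finite :=
    (finite_lt_nat k).subset fun j hj => hj.1
  have hcard : hfin.toFinset.card ≤ m := by
    have := hm i hi
    rw [hfin.encard_eq_coe_toFinset_card] at this
    exact_mod_cast this
  let u : ℕ → K := fun s => Function.update w (c s) (!(w (c s)))
  choose idx hidx using fun s => cover hk h0 h1 (e_mem (b', u s))
  refine PH b' j m hfin.toFinset hcard (fun i hi => (hfin.mem_toFinset.1 hi).1) u idx ?_ ?_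
  · intro s hs
    refine ⟨hfin.mem_toFinset.2 ⟨(hidx s).1, f (e (b, u s)), ⟨_, hw _ ?_, rfl⟩,
      ⟨_, (hidx s).2, hf _ _ _⟩⟩, (hidx s).2⟩
    intro n hn
    exact Function.update_of_ne (hc1 s hs n hn) _ _
  · intro s hs s' hs' hne
    obtain ⟨n, hn, hn'⟩ := hc2 s hs
    refine ⟨n, hn, ?_⟩
    rw [hn']
    simp only [u, Function.update_self, Function.update_of_ne (hc.ne hne)]
    cases w (c s) <;> simp

lemma main {Y : Type} {f : ℝ → Y} (hf : ∀ u b b', f (e (b, u)) = f (e (b', u)))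
    {k m : ℕ} {t : ℕ → ℝ} (hk : 0 < k) (h0 : t 0 = 0) (h1 : t k = 1)
    (hm : ∀ i, i < k → {j : ℕ | j < k ∧
      (f '' Icc (t i) (t (i + 1)) ∩ f '' Icc (t j) (t (j + 1))).Nonempty}.encard ≤ (m : ℕ∞)) :
    Cyl k t false (12 * m + 12) := by
  classical
  have big : Cyl k t false (12 * m + 12 + (2 * k + 1)) := by
    let u : ℕ → K := fun s => Function.update (fun _ => false) s true
    choose idx hidx using fun s => cover hk h0 h1 (e_mem (false, u s))
    refine PH false _ k (Finset.range k) (by simp) (fun i hi => Finset.mem_range.1 hi) u idx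
      (fun s _ => ⟨Finset.mem_range.2 (hidx s).1, (hidx s).2⟩) ?_
    intro s hs s' _ hne
    refine ⟨s, by omega, ?_⟩
    simp [u, sg, Function.update_of_ne hne]
  have desc : ∀ l, 12 * m + 12 ≤ l → Cyl k t false (l + 1) → Cyl k t false l := by
    intro l hl H
    have H1 := step hf hk h0 h1 hm false true (l + 1) (2 * (l / 2 + 1 + 2 * m + 1))
      (fun s => 2 * (l / 2 + 1 + s)) (fun a b h => by simp only at h; omega)
      (fun s hs n hn => by simp only [sg, cond_false]; omega)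
      (fun s hs => ⟨2 * (l / 2 + 1 + s), by omega, by simp [sg]⟩) H
    exact step hf hk h0 h1 hm true false _ l
      (fun s => 2 * (2 * (l / 2 + 1 + 2 * m + 1) / 4 + 1 + s) + 1)
      (fun a b h => by simp only at h; omega)
      (fun s hs n hn => by
        simp only [sg, cond_true]
        split_ifs <;> omega)
      (fun s hs => ⟨_, by omega, rfl⟩) H1
  have : ∀ d, Cyl k t false (12 * m + 12 + d) → Cyl k t false (12 * m + 12) := by
    intro d
    induction d with
    | zero => exact id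
    | succ d ih => exact fun H => ih (desc _ (by omega) H)
  exact this _ big

end

/-- There is a metric space Y and a map f continuous on [0,1] whose fibers there have at most n points (some n ≥ 1), such that f is not finitely linear in the mesh-partition sense defined above. -/
theorem result :
    ∃ (Y : Type) (_ : MetricSpace Y) (f : ℝ → Y) (n : ℕ),
      0 < n ∧ ContinuousOn f (Set.Icc (0:ℝ) 1) ∧
      (∀ y : Y, {x : ℝ | x ∈ Set.Icc (0:ℝ) 1 ∧ f x = y}.encard ≤ (n : ℕ∞)) ∧
      ¬ ∃ m : ℕ, 0 < m ∧ ∀ ε : ℝ, 0 < ε →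
        ∃ (k : ℕ) (t : ℕ → ℝ), 0 < k ∧ t 0 = 0 ∧ t k = 1 ∧
          (∀ i, i < k → t i < t (i + 1) ∧ t (i + 1) - t i < ε) ∧
          ∀ i, i < k →
            {j : ℕ | j < k ∧
              (f '' Set.Icc (t i) (t (i + 1)) ∩ f '' Set.Icc (t j) (t (j + 1))).Nonempty}.encard
              ≤ (m : ℕ∞) := by
  obtain ⟨f, hf, hfib, hfe⟩ := exists_f
  refine ⟨ℝ × ℝ × ℝ, inferInstance, f, 2, by norm_num, hf.continuousOn, fun y =>
    (Set.encard_le_encard fun x hx => hx.2).trans (hfib y), ?_⟩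
  rintro ⟨m, -, H⟩
  obtain ⟨k, t, hk, h0, h1, hmesh, hm⟩ := H ((1 / 3 : ℝ) ^ (12 * m + 12) / 4) (by positivity)
  obtain ⟨i, hi, w, hw⟩ := main hfe hk h0 h1 hm
  have a1 := hw (Function.update w (12 * m + 12) true)
    (fun n hn => Function.update_of_ne (ne_of_lt hn) _ _)
  have a2 := hw (Function.update w (12 * m + 12) false)
    (fun n hn => Function.update_of_ne (ne_of_lt hn) _ _)
  have a3 := E_flip w (12 * m + 12)
  have a4 := (hmesh i hi).2
  simp only [e, sg, cond_false, Set.mem_Icc] at a1 a2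
  linarith [a1.2, a2.1]

end Pool.Agent.S14041
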