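import Pool.Statements.S14068

set_option autoImplicit false
open Pool Pool.MP_db8e30_gt

namespace Pool.Agent.S14068

open Set Filter TopologicalSpace

abbrev I := Finset ℝ × Finset ℝ

def bd (E : Set I) : Prop := ∃ A : Set ℝ, A.Countable ∧ ∀ p ∈ E, (p.1 : Set ℝ) ⊆ A

abbrev X := {u : Ultrafilter I // ∃ E ∈ u, bd E}

def bs (E : Set I) : Set X := {u | E ∈ u.1}

def pt (p : I) : X := ⟨pure p, {p}, rfl, p.1, p.1.countable_toSet, by rintro _ rfl; rfl⟩

lemma clo (E : Set I) : IsClopen (bs E) :=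
  IsClopen.preimage ⟨ultrafilter_isClosed_basic E, ultrafilter_isOpen_basic E⟩ continuous_subtype_val

lemma basis : IsTopologicalBasis (bs '' {E | bd E}) := by
  refine isTopologicalBasis_of_isOpen_of_nhds (by rintro _ ⟨E, -, rfl⟩; exact (clo E).isOpen)
    fun u U hu hU => ?_
  obtain ⟨O, hO, rfl⟩ := isOpen_induced_iff.1 hU
  obtain ⟨_, ⟨E, rfl⟩, h1, h2⟩ := ultrafilterBasis_is_basis.exists_subset_of_mem_open hu hO
  obtain ⟨F, f1, A, f2, f3⟩ := u.2
  exact ⟨_, ⟨E ∩ F, ⟨A, f2, fun p hp => f3 p hp.2⟩, rfl⟩, inter_mem h1 f1,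
    fun v hv => h2 (mem_of_superset hv inter_subset_left)⟩

/-- The negation of the preceding statement: For every Tychonoff X : Type, if X has a clopen basis 𝓑 satisfying the countable-vs-arbitrary separation property and X is compact in the topology generated by complements of closures of members of 𝓑, then X is normal. -/
theorem result :
    ¬ (∀ (X : Type) [TopologicalSpace X] [CompletelyRegularSpace X] [T2Space X],
      (∃ 𝓑 : Set (Set X),
        TopologicalSpace.IsTopologicalBasis 𝓑 ∧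
        (∀ b ∈ 𝓑, IsClopen b) ∧
        (∀ C D : Set (Set X), C ⊆ 𝓑 → D ⊆ 𝓑 → C.Countable →
          (∀ c ∈ C, ∀ d ∈ D, Disjoint c d) →
          ∃ b ∈ 𝓑, (∀ c ∈ C, c ⊆ b) ∧ (∀ d ∈ D, Disjoint b d)) ∧
        @IsCompact X
          (TopologicalSpace.generateFrom {U : Set X | ∃ b ∈ 𝓑, U = (closure b)ᶜ})
          Set.univ) →
      NormalSpace X) := by
  intro h
  have := h X ⟨_, basis, by rintro _ ⟨E, -, rfl⟩; exact clo E, fun C D hC hD cc hd => ?_, ?_⟩
  · obtain ⟨U, V, u1, v1, u2, v2, uv⟩ := normal_separation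
      (s := ⋂ r : ℝ, bs {p | r ∈ p.2})
      (t := ⋂ r : ℝ, (bs {p | r ∈ p.1} ∩ bs {p | r ∈ p.2}) ∪ ((bs {p | r ∈ p.1})ᶜ ∩ (bs {p | r ∈ p.2})ᶜ))
      (isClosed_iInter fun r => (clo _).isClosed) (isClosed_iInter fun r =>
        (((clo _).inter (clo _)).union ((clo _).compl.inter (clo _).compl)).isClosed)
      (disjoint_left.2 fun u a b => by
        obtain ⟨E, e1, A, a1, a2⟩ := u.2
        obtain ⟨r, hr⟩ : ∃ r, r ∉ A := by
          by_contra hn
          push Not at hn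
          exact Cardinal.not_countable_real (eq_univ_of_forall hn ▸ a1)
        rcases mem_iInter.1 b r with h | h
        · obtain ⟨p, p1, p2⟩ := u.1.nonempty_of_mem (inter_mem e1 h.1)
          exact hr (a2 p p1 p2)
        · exact h.2 (mem_iInter.1 a r))
    have : ∀ a : Finset ℝ, ∃ y, a ≤ y ∧ pt (a, y) ∈ U := fun a => by
      let w : X := ⟨(Ultrafilter.of atTop).map fun y => (a, y), {p | p.1 = a},
        Ultrafilter.mem_map.2 (univ_mem' fun _ => rfl), a, a.countable_toSet, fun p hp => by rw [hp]⟩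
      obtain ⟨_, ⟨E, -, rfl⟩, h1, h2⟩ := basis.exists_subset_of_mem_open (u2 (a := w)
        (mem_iInter.2 fun r => show {y : Finset ℝ | r ∈ y} ∈ Ultrafilter.of atTop from
          Ultrafilter.of_le _ (mem_of_superset
          (mem_atTop ({r} : Finset ℝ)) fun y hy => Finset.singleton_subset_iff.1 hy))) u1
      obtain ⟨y, y1, y2⟩ := (Ultrafilter.of atTop).nonempty_of_mem
        (inter_mem (Ultrafilter.of_le _ (mem_atTop a)) (Ultrafilter.mem_map.1 h1))
      exact ⟨y, y1, h2 y2⟩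
    choose g g1 g2 using this
    let a : ℕ → Finset ℝ := fun n => g^[n] ∅
    have a1 : ∀ n, a (n + 1) = g (a n) := fun n => Function.iterate_succ_apply' _ _ _
    have am : Monotone a := monotone_nat_of_le_succ fun n => a1 n ▸ g1 _
    let w : X := ⟨(hyperfilter ℕ).map fun n => (a n, g (a n)), {p | ∃ n, p.1 = a n},
      Ultrafilter.mem_map.2 (univ_mem' fun n => ⟨n, rfl⟩), ⋃ n, a n,
      countable_iUnion fun n => (a n).countable_toSet, by
        rintro p ⟨n, hn⟩; rw [hn]; exact subset_iUnion (fun n => (a n : Set ℝ)) n⟩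
    obtain ⟨_, ⟨E, -, rfl⟩, h1, h2⟩ := basis.exists_subset_of_mem_open (v2 (a := w)
      (mem_iInter.2 fun r => by
        by_cases hr : ∃ n, r ∈ a n
        · obtain ⟨n, hn⟩ := hr
          have : Ici n ∈ hyperfilter ℕ := Nat.hyperfilter_le_atTop (mem_atTop n)
          exact Or.inl ⟨show {m | r ∈ a m} ∈ hyperfilter ℕ from mem_of_superset this fun m hm => am hm hn,
            show {m | r ∈ g (a m)} ∈ hyperfilter ℕ from
              mem_of_superset this fun m hm => g1 _ (am hm hn)⟩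
        · refine Or.inr ⟨fun h => ?_, fun h => ?_⟩ <;>
            obtain ⟨n, hn⟩ := (hyperfilter ℕ).nonempty_of_mem (Ultrafilter.mem_map.1 h)
          · exact hr ⟨n, hn⟩
          · exact hr ⟨n + 1, a1 n ▸ hn⟩)) v1
    obtain ⟨n, hn⟩ := (hyperfilter ℕ).nonempty_of_mem (Ultrafilter.mem_map.1 h1)
    exact disjoint_left.1 uv (g2 (a n)) (h2 hn)
  · have hC' : ∀ c ∈ C, ∃ E, ∃ A : Set ℝ, A.Countable ∧ (∀ p ∈ E, (p.1 : Set ℝ) ⊆ A) ∧ bs E = c :=
      fun c hc => let ⟨E, ⟨A, a, b⟩, e⟩ := hC hc; ⟨E, A, a, b, e⟩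
    choose! E A a1 a2 e2 using hC'
    refine ⟨_, ⟨⋃ c ∈ C, E c, ⟨⋃ c ∈ C, A c, cc.biUnion a1, fun p hp => ?_⟩, rfl⟩,
      fun c hc u hu => ?_, fun d h => disjoint_left.2 fun u u1 u2 => ?_⟩
    · obtain ⟨c, hc, h⟩ := mem_iUnion₂.1 hp
      exact (a2 c hc p h).trans (subset_biUnion_of_mem hc)
    · rw [← e2 c hc] at hu
      exact mem_of_superset hu (subset_biUnion_of_mem hc)
    · obtain ⟨F, -, rfl⟩ := hD h
      obtain ⟨p, p1, p2⟩ := u.1.nonempty_of_mem (inter_mem u1 u2)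
      obtain ⟨c, hc, h1⟩ := mem_iUnion₂.1 p1
      exact disjoint_left.1 (hd c hc _ h) ((e2 c hc).subset (show pt p ∈ bs (E c) from h1)) p2
  · refine (@isCompact_iff_ultrafilter_le_nhds _ (generateFrom _) _).2 fun F _ => ?_
    have : ∃ x : X, ∀ E, bd E → bs E ∈ F → x ∈ bs E := by
      by_cases h : ∃ E, bd E ∧ bs E ∈ F
      · obtain ⟨E, h1, h2⟩ := h
        exact ⟨⟨F.bind fun u => u.1, E, mem_bind'.2 h2, h1⟩, fun E _ h => mem_bind'.2 h⟩
      · exact ⟨pt (∅, ∅), fun E a b => absurd ⟨E, a, b⟩ h⟩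
    obtain ⟨x, hx⟩ := this
    refine ⟨x, trivial, ?_⟩
    rw [nhds_generateFrom]
    refine le_iInf₂ ?_
    rintro _ ⟨h1, _, ⟨E, h2, rfl⟩, rfl⟩
    rw [(clo E).isClosed.closure_eq] at h1 ⊢
    exact le_principal_iff.2 (Ultrafilter.compl_mem_iff_notMem.2 fun h => h1 (hx E h2 h))

end Pool.Agent.S14068
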