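import Pool.Statements.S14094

set_option autoImplicit false
open Pool Pool.MP_de3f93_gt

namespace Pool.Agent.S14094

open Set Filter Topology

def G : Type := Multiplicative ℤ

instance : CommGroup G := inferInstanceAs (CommGroup (Multiplicative ℤ))
instance : Countable G := inferInstanceAs (Countable ℤ)

def a : ℕ → ℕ
  | 0 => 1
  | n + 1 => 8 * (n + 1) * a n

lemma a_gt (n : ℕ) : n < a n := by
  induction n with
  | zero => simp [a]
  | succ n ih => rw [a]; nlinarith

lemma a_dvd {m n : ℕ} (h : m ≤ n) : a m ∣ a n := by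
  induction h with
  | refl => rfl
  | step _ ih => exact ih.mul_left _

def g (i : ℕ) : G := Multiplicative.ofAdd (a i : ℤ)

def F : Filter ℕ := comap (fun i => i.unpair.1) atTop

lemma F_le : F ≤ atTop := fun _ h => by
  obtain ⟨N, hN⟩ := mem_atTop_sets.1 h
  exact ⟨_, mem_atTop N, fun i hi => hN i (le_trans hi (Nat.unpair_left_le i))⟩

noncomputable def τ : GroupTopology G :=
  sInf {t | Tendsto g F (@nhds _ t.toTopologicalSpace 1)}

noncomputable instance : TopologicalSpace G := τ.toTopologicalSpace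
instance : IsTopologicalGroup G := τ.toIsTopologicalGroup

lemma g0 : Tendsto g F (𝓝 1) := by
  change Tendsto g F (@nhds _ (sInf _) 1)
  rw [nhds_sInf]
  simp only [tendsto_iInf]
  rintro _ ⟨t, ht, rfl⟩
  exact ht

lemma τ_le (t : GroupTopology G) (h : Tendsto g F (@nhds _ t.toTopologicalSpace 1)) :
    𝓝 (1 : G) ≤ @nhds _ t.toTopologicalSpace 1 :=
  nhds_mono (GroupTopology.toTopologicalSpace_le.2 (sInf_le h : τ ≤ t))

noncomputable def χ (θ : ℝ) : G →* Multiplicative UnitAddCircle where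
  toFun x := Multiplicative.ofAdd (((Multiplicative.toAdd x : ℤ) * θ : ℝ) : UnitAddCircle)
  map_one' := by change Multiplicative.ofAdd ((((0 : ℤ) : ℝ) * θ : ℝ) : UnitAddCircle) = 1; simp
  map_mul' x y := by
    change Multiplicative.ofAdd ((((Multiplicative.toAdd x + Multiplicative.toAdd y : ℤ) : ℝ) * θ : ℝ) :
      UnitAddCircle) = _
    simp [add_mul]

lemma χ_cont {θ : ℝ} (h : Tendsto (fun i => ((a i * θ : ℝ) : UnitAddCircle)) F (𝓝 0)) :
    Continuous (χ θ) := by
  refine continuous_of_continuousAt_one _ ?_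
  have := τ_le ⟨.induced (χ θ) inferInstance, topologicalGroup_induced _⟩ (by
    rw [nhds_induced, tendsto_comap_iff, map_one]; exact h)
  rw [nhds_induced] at this
  exact tendsto_iff_comap.2 this

lemma coe_int (m : ℤ) : ((m : ℝ) : UnitAddCircle) = 0 :=
  (AddCircle.coe_eq_zero_iff _).2 ⟨m, by simp⟩

instance : T2Space G := by
  refine .of_injective_continuous (f := fun x n => χ (1 / a n) x) (fun x y h => ?_)
    (continuous_pi fun n => χ_cont (tendsto_const_nhds.congr' ?_))
  · rw [← div_eq_one]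
    generalize e : x / y = z
    have h1 : ∀ n, χ (1 / a n) z = 1 := fun n => by rw [← e, map_div, div_eq_one]; exact congrFun h n
    obtain ⟨m, hm⟩ := (AddCircle.coe_eq_zero_iff _).1 (h1 (Multiplicative.toAdd z : ℤ).natAbs)
    have := a_gt (Multiplicative.toAdd z : ℤ).natAbs
    refine Int.eq_zero_of_dvd_of_natAbs_lt_natAbs (d := a _) ⟨m, ?_⟩ this
    have h0 : (a (Multiplicative.toAdd z : ℤ).natAbs : ℝ) ≠ 0 := by exact_mod_cast this.ne_bot
    field_simp at hm
    simp only [zsmul_eq_mul, mul_one] at hm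
    exact_mod_cast hm.symm.trans (mul_comm _ _)
  · filter_upwards [F_le (mem_atTop n)] with i hi
    obtain ⟨c, hc⟩ := a_dvd hi
    have h0 : (a n : ℝ) ≠ 0 := by exact_mod_cast (a_gt n).ne_bot
    rw [hc, show ((a n * c : ℕ) : ℝ) * (1 / a n) = (c : ℤ) by push_cast; field_simp, coe_int]

lemma theta (r : ℕ → ℝ) (h0 : ∀ i, 0 ≤ r i) (h1 : ∀ i, r i ≤ 1 / 2) (N : ℕ) (hN : ∀ i < N, r i = 0) :
    ∃ θ : ℝ, |θ| ≤ 1 / a N ∧ ∀ i, ∃ m : ℤ, |a i * θ - m - r i| ≤ 1 / (8 * (i + 1)) := by
  let M : ℕ → ℤ := fun n => Nat.rec 0 (fun n m => 8 * (n + 1) * m + ⌊8 * (n + 1) * r n⌋) n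
  have ms : ∀ n : ℕ, ((M (n + 1) : ℤ) : ℝ) = 8 * ((n : ℝ) + 1) * Int.cast (M n) + Int.cast ⌊8 * (n + 1) * r n⌋ := fun n => by
    simp [M]
  have ap : ∀ n, (0 : ℝ) < a n := fun n => by exact_mod_cast (a_gt n).bot_lt
  have as : ∀ n, (a (n + 1) : ℝ) = 8 * (n + 1) * a n := fun n => by simp [a]
  have f1 : ∀ n : ℕ, (⌊8 * (n + 1) * r n⌋ : ℝ) ≤ 8 * (n + 1) * r n := fun n => Int.floor_le _
  have f2 : ∀ n : ℕ, 8 * (n + 1) * r n < (⌊8 * (n + 1) * r n⌋ : ℝ) + 1 := fun n => Int.lt_floor_add_one _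
  have f3 : ∀ n : ℕ, (0 : ℝ) ≤ ⌊8 * (n + 1) * r n⌋ := fun n => by
    exact_mod_cast Int.floor_nonneg.2 (by have := h0 n; positivity)
  have s1 : Monotone fun n : ℕ => (Int.cast (M n) : ℝ) / a n := monotone_nat_of_le_succ fun n => by
    rw [ms, as, div_le_div_iff₀ (ap n) (by have := ap n; positivity)]
    nlinarith [mul_nonneg (f3 n) (ap n).le]
  have s2 : Antitone fun n : ℕ => (Int.cast (M n) + 1 : ℝ) / a n := antitone_nat_of_succ_le fun n => by
    rw [ms, as, div_le_div_iff₀ (by have := ap n; positivity) (ap n)]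
    have : (⌊8 * (n + 1) * r n⌋ : ℝ) + 1 ≤ 8 * (n + 1) := by
      nlinarith [f1 n, h1 n, (Nat.cast_nonneg n : (0 : ℝ) ≤ n)]
    nlinarith [mul_le_mul_of_nonneg_right this (ap n).le]
  have s3 : ∀ m n : ℕ, (Int.cast (M m) : ℝ) / a m ≤ (Int.cast (M n) + 1 : ℝ) / a n := fun m n =>
    (s1 (le_max_left m n)).trans (le_trans (div_le_div_of_nonneg_right (by simp) (ap _).le) (s2 (le_max_right m n)))
  have t1 := fun n => le_ciSup (f := fun n : ℕ => (Int.cast (M n) : ℝ) / a n) ⟨_, forall_mem_range.2 fun m => s3 m 0⟩ n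
  have t2 := fun n => ciSup_le (f := fun n : ℕ => (Int.cast (M n) : ℝ) / a n) fun m => s3 m n
  refine ⟨⨆ n : ℕ, (Int.cast (M n) : ℝ) / a n, ?_, fun i => ⟨M i, ?_⟩⟩
  · have : ∀ n ≤ N, (Int.cast (M n) : ℝ) = 0 := fun n hn => by
      induction n with
      | zero => simp [M]
      | succ n ih => simp [ms, ih (by omega), hN n hn]
    have u1 := t1 N
    have u2 := t2 N
    simp only [this N le_rfl, zero_div, zero_add] at u1 u2
    rwa [abs_of_nonneg u1]
  · have u1 := t1 (i + 1)
    have u2 := t2 (i + 1)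
    generalize ⨆ n : ℕ, (Int.cast (M n) : ℝ) / a n = θ at *
    rw [div_le_iff₀ (ap _), ms, as] at u1
    rw [le_div_iff₀ (ap _), ms, as] at u2
    rw [le_div_iff₀ (by positivity), ← abs_of_pos (show (0 : ℝ) < 8 * (i + 1) by positivity), ← abs_mul,
      abs_le]
    constructor <;> nlinarith [f1 i, f2 i]

lemma pick (k j : ℕ → ℕ) (h : ∀ t, k t < j t) (hj : Tendsto j atTop atTop) (N : ℕ) :
    ∃ r : ℕ → ℝ, (∀ i, 0 ≤ r i) ∧ (∀ i, r i ≤ 1 / 2) ∧ (∀ i < N, r i = 0) ∧ Tendsto r F (𝓝 0) ∧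
      ∃ᶠ t in atTop, r ((k t).pair (j t)) + k t * r ((j t).pair 0) = 1 / 2 := by
  classical
  by_cases hk : ∃ K, ∃ᶠ t in atTop, k t = K
  · obtain ⟨K, hK⟩ := hk
    refine ⟨fun i => if i.unpair.1 = K ∧ i.unpair.2 ≠ 0 ∧ N ≤ i then 1 / 2 else 0,
      fun i => by positivity, fun i => by simp only []; split_ifs <;> norm_num, fun i hi => if_neg (by omega),
      tendsto_const_nhds.congr' ?_, (hK.and_eventually (hj.eventually_ge_atTop N)).mono fun t ht => ?_⟩
    · filter_upwards [preimage_mem_comap (eventually_gt_atTop K)] with i hi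
      exact (if_neg fun h => hi.ne' h.1).symm
    · have := Nat.right_le_pair K (j t)
      simp [ht.1, ht.2.trans this, show j t ≠ 0 from (h t).ne_bot]
  · simp only [not_exists, not_frequently] at hk
    have hk : Tendsto k atTop atTop := tendsto_atTop.2 fun K =>
      ((eventually_all_finite (finite_lt_nat K)).2 fun n _ => hk n).mono fun t ht =>
        not_lt.1 fun h => ht _ h rfl
    let s : ℕ → ℕ := fun n => if h : ∃ t, j t = n ∧ 0 < k t then h.choose else 0
    have s1 : ∀ n, (∃ t, j t = n ∧ 0 < k t) → j (s n) = n ∧ 0 < k (s n) := fun n h => by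
      simp only [s, dif_pos h]; exact h.choose_spec
    have s2 : ∀ T, ∀ᶠ n in atTop, j (s n) = n → T ≤ s n := fun T => by
      filter_upwards [eventually_gt_atTop ((Finset.range T).sup j)] with n hn e
      by_contra hT
      exact absurd (e ▸ Finset.le_sup (f := j) (Finset.mem_range.2 (not_le.1 hT))) (not_le.2 hn)
    refine ⟨fun i => if i.unpair.2 = 0 ∧ N ≤ i ∧ j (s i.unpair.1) = i.unpair.1 ∧ 0 < k (s i.unpair.1)
      then 1 / (2 * k (s i.unpair.1)) else 0, fun i => by positivity, fun i => ?_,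
      fun i hi => if_neg (by omega), ?_, frequently_atTop.2 fun T => ?_⟩
    · simp only []
      split_ifs with h
      · have : (1 : ℝ) ≤ k (s i.unpair.1) := by exact_mod_cast h.2.2.2
        exact one_div_le_one_div_of_le two_pos (by linarith)
      · norm_num
    · intro U hU
      obtain ⟨T, hT⟩ := eventually_atTop.1 (((tendsto_const_nhds (x := (1 : ℝ))).div_atTop
        ((tendsto_natCast_atTop_atTop.comp hk).const_mul_atTop two_pos)).eventually hU)
      refine mem_map.2 (mem_of_superset (preimage_mem_comap (s2 T)) fun i hi => ?_)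
      simp only [mem_preimage]
      split_ifs with h
      · exact hT _ (hi h.2.2.1)
      · exact mem_of_mem_nhds hU
    · obtain ⟨t, t1, t2, t3⟩ := ((hj.eventually (s2 T)).and ((hj.eventually_ge_atTop N).and
        (hk.eventually_gt_atTop 0))).exists
      obtain ⟨u1, u2⟩ := s1 (j t) ⟨t, rfl, t3⟩
      refine ⟨s (j t), t1 u1, ?_⟩
      have := Nat.left_le_pair (j t) 0
      have u3 : (k (s (j t)) : ℝ) ≠ 0 := by exact_mod_cast u2.ne'
      simp [u1, u2, t2.trans this, show j t ≠ 0 from (h t).ne_bot]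
      field_simp

def y (p : ℕ × ℕ) : G := g (p.1.pair p.2) * g (p.2.pair 0) ^ p.1

lemma noconv (k j : ℕ → ℕ) (h : ∀ t, k t < j t) (hj : Tendsto j atTop atTop) (x : G) :
    ¬ Tendsto (fun t => y (k t, j t)) atTop (𝓝 x) := fun hx => by
  let z : ℤ := Multiplicative.toAdd x
  obtain ⟨r, r0, r1, r2, r3, r4⟩ := pick k j h hj (8 * z.natAbs)
  obtain ⟨θ, t1, t2⟩ := theta r r0 r1 _ r2
  choose m hm using t2
  have c : Continuous (χ θ) := χ_cont (by
    have : Tendsto (fun i => a i * θ - m i - r i) F (𝓝 0) := squeeze_zero_norm hm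
      ((tendsto_const_nhds.div_atTop ((tendsto_atTop_add_const_right _ 1
        tendsto_natCast_atTop_atTop).const_mul_atTop (by norm_num))).mono_left F_le)
    have := ((AddCircle.continuous_mk' (1 : ℝ)).tendsto _).comp (this.add r3)
    simpa [Function.comp_def, coe_int] using this)
  have := ((c.tendsto x).comp hx).div_const' (χ θ x)
  rw [div_self'] at this
  obtain ⟨t, u1, u2⟩ := (r4.and_eventually (Metric.tendsto_nhds.1 this (1 / 4) (by norm_num))).exists
  change dist ((((a ((k t).pair (j t)) + k t • a ((j t).pair 0) : ℤ) * θ : ℝ) : UnitAddCircle) -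
    ((z * θ : ℝ) : UnitAddCircle)) 0 < _ at u2
  rw [dist_zero_right, ← AddCircle.coe_sub, UnitAddCircle.norm_eq, abs_lt] at u2
  generalize round (α := ℝ) _ = n at u2
  have v1 := hm ((k t).pair (j t))
  have v2 := hm ((j t).pair 0)
  have w1 : (k t + 1 : ℝ) ≤ ((k t).pair (j t) : ℕ) + 1 := by
    exact_mod_cast Nat.succ_le_succ (Nat.left_le_pair _ _)
  have w2 : (k t + 1 : ℝ) ≤ ((j t).pair 0 : ℕ) + 1 := by
    exact_mod_cast Nat.succ_le_succ ((h t).le.trans (Nat.left_le_pair _ _))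
  have v1 := v1.trans (show _ ≤ 1 / (8 * (k t + 1 : ℝ)) by gcongr)
  have v2 := v2.trans (show _ ≤ 1 / (8 * (k t + 1 : ℝ)) by gcongr)
  have v3 : |z * θ| ≤ 1 / 8 := by
    have : ((8 * z.natAbs : ℕ) : ℝ) < a (8 * z.natAbs) := by exact_mod_cast a_gt _
    rw [le_div_iff₀ (lt_of_le_of_lt (Nat.cast_nonneg _) this)] at t1
    rw [abs_mul, ← Int.cast_abs, ← Nat.cast_natAbs]
    push_cast at this
    nlinarith [abs_nonneg θ]
  have e : 1 / (8 * (k t + 1 : ℝ)) + k t * (1 / (8 * (k t + 1 : ℝ))) = 1 / 8 := by field_simp; ring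
  rw [abs_le] at v1 v2 v3
  have k0 : (0 : ℝ) ≤ k t := Nat.cast_nonneg _
  have x1 := mul_le_mul_of_nonneg_left v2.1 k0
  have x2 := mul_le_mul_of_nonneg_left v2.2 k0
  simp only [nsmul_eq_mul] at u2
  push_cast at u2
  have y1 : (0 : ℝ) < (n - m ((k t).pair (j t)) - k t * m ((j t).pair 0) : ℤ) := by
    push_cast; nlinarith
  have y2 : ((n - m ((k t).pair (j t)) - k t * m ((j t).pair 0) : ℤ) : ℝ) < 1 := by
    push_cast; nlinarith
  generalize n - m ((k t).pair (j t)) - k t * m ((j t).pair 0) = w at y1 y2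
  have y1 : (0 : ℤ) < w := by exact_mod_cast y1
  have y2 : w < (1 : ℤ) := by exact_mod_cast y2
  omega

lemma col {k : ℕ → ℕ} {l : Filter ℕ} (j : ℕ → ℕ) (h : Tendsto k l atTop) :
    Tendsto (fun t => g ((k t).pair (j t))) l (𝓝 1) :=
  g0.comp (tendsto_comap_iff.2 (by simpa [Function.comp_def] using h))

lemma notseq : ¬ SequentialSpace G := fun h => by
  have hs : IsSeqClosed (y '' {p | p.1 < p.2}) := fun u x hu hx => by
    choose p p1 p2 using hu
    by_contra hn
    refine noconv (fun t => (p t).1) (fun t => (p t).2) p1 (tendsto_atTop.2 fun N => ?_) x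
      (hx.congr fun t => (p2 t).symm)
    have : IsClosed (y '' (Iio N ×ˢ Iio N ∩ {p | p.1 < p.2})) :=
      ((((finite_Iio N).prod (finite_Iio N)).inter_of_left _).image _).isClosed
    filter_upwards [hx.eventually (this.isOpen_compl.mem_nhds fun h => hn (image_mono inter_subset_right h))]
      with t ht
    by_contra h
    exact ht ⟨p t, ⟨⟨lt_trans (p1 t) (not_le.1 h), not_le.1 h⟩, p1 t⟩, p2 t⟩
  have : (1 : G) ∈ closure (y '' {p | p.1 < p.2}) := mem_closure_iff_nhds.2 fun U hU => by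
    obtain ⟨V, v1, v2⟩ := exists_nhds_one_split hU
    obtain ⟨k, hk⟩ := eventually_atTop.1 (eventually_comap.1 (g0.eventually v1))
    have := (col (fun _ => 0) tendsto_id).pow k
    rw [one_pow] at this
    obtain ⟨j, j1, j2⟩ := ((this.eventually v1).and (eventually_gt_atTop k)).exists
    exact ⟨_, v2 _ (hk k le_rfl (k.pair j) (by simp)) _ j1, (k, j), j2, rfl⟩
  obtain ⟨p, -, hp⟩ := hs.isClosed.closure_subset this
  have : (a (p.1.pair p.2) + p.1 • a (p.2.pair 0) : ℤ) = 0 := hp
  have h2 := a_gt (p.1.pair p.2)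
  have : (0 : ℤ) ≤ p.1 • a (p.2.pair 0) := by positivity
  omega

lemma sgrp (K : Subgroup G) (hK : IsOpen (K : Set G)) (H : Type) [Group H] [TopologicalSpace H]
    [IsTopologicalGroup H] (f : K →* H) (hf : SeqContinuous f) : Continuous f := by
  let B := groupFilterBasisOfComm (G := G) ((fun U => K.subtype '' (f ⁻¹' U)) '' (𝓝 1).sets)
    ⟨_, univ, univ_mem, rfl⟩ (by
      rintro _ _ ⟨U, hU, rfl⟩ ⟨V, hV, rfl⟩
      exact ⟨_, ⟨U ∩ V, inter_mem hU hV, rfl⟩, image_inter_subset _ _ _⟩)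
    (by rintro _ ⟨U, hU, rfl⟩; exact ⟨1, by simpa using mem_of_mem_nhds hU, rfl⟩) (by
      rintro _ ⟨U, hU, rfl⟩
      obtain ⟨V, v1, v2⟩ := exists_nhds_one_split hU
      refine ⟨_, ⟨V, v1, rfl⟩, ?_⟩
      rintro _ ⟨_, ⟨x, hx, rfl⟩, _, ⟨z, hz, rfl⟩, rfl⟩
      exact ⟨x * z, by simpa using v2 _ hx _ hz, rfl⟩) (by
      rintro _ ⟨U, hU, rfl⟩
      refine ⟨_, ⟨U⁻¹, inv_mem_nhds_one H hU, rfl⟩, ?_⟩
      rintro _ ⟨x, hx, rfl⟩
      exact ⟨x⁻¹, by simpa using hx, rfl⟩)
  have := τ_le ⟨B.topology, B.isTopologicalGroup⟩ (B.nhds_one_hasBasis.tendsto_right_iff.2 (by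
    rintro _ ⟨U, hU, rfl⟩
    by_contra hn
    have : F.IsCountablyGenerated := comap.isCountablyGenerated _ _
    obtain ⟨u, u1, u2⟩ := exists_seq_forall_of_frequently ((not_eventually.1 hn).and_eventually
      (g0.eventually (hK.mem_nhds K.one_mem)))
    have := hf (x := fun n => ⟨g (u n), (u2 n).2⟩) (p := 1) (tendsto_subtype_rng.2 (g0.comp u1))
    rw [map_one] at this
    obtain ⟨n, h⟩ := (this.eventually hU).exists
    exact (u2 n).1 ⟨_, h, rfl⟩))
  refine continuous_of_continuousAt_one _ fun U hU => ?_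
  rw [map_one] at hU
  have := continuous_subtype_val.continuousAt (x := (1 : K))
    (this (B.nhds_one_hasBasis.mem_of_mem ⟨U, hU, rfl⟩))
  refine mem_map.2 (mem_of_superset (mem_map.1 this) ?_)
  rintro x ⟨z, h1, h2⟩
  rwa [← Subtype.ext h2]

/-- The negation of the preceding statement: Every Hausdorff topological group of countable tightness that is an s-group and whose closed subgroups are all s-groups (sequentially continuous homomorphisms into Hausdorff groups are continuous) is a sequential space. -/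
theorem result :
    ¬ (∀ (G : Type) [Group G] [TopologicalSpace G] [IsTopologicalGroup G] [T2Space G],
      (∀ (H : Type) [Group H] [TopologicalSpace H] [IsTopologicalGroup H] [T2Space H]
          (f : G →* H), SeqContinuous (f : G → H) → Continuous (f : G → H)) →
      (∀ (A : Set G), ∀ x ∈ closure A, ∃ B : Set G, B ⊆ A ∧ B.Countable ∧ x ∈ closure B) →
      (∀ K : Subgroup G, IsClosed (K : Set G) →
        ∀ (H : Type) [Group H] [TopologicalSpace H] [IsTopologicalGroup H] [T2Space H]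
          (f : K →* H), SeqContinuous (f : K → H) → Continuous (f : K → H)) →
      SequentialSpace G) := by
  refine fun h => notseq (h G (fun H _ _ _ _ f hf => ?_) (fun A x hx => ⟨A, le_rfl, to_countable _, hx⟩)
    fun K hK H _ _ _ _ f hf => ?_)
  · exact (sgrp ⊤ isOpen_univ H (f.comp (Subgroup.subtype _))
      (fun _ _ h => hf ((continuous_subtype_val.tendsto _).comp h))).comp
      (continuous_id.subtype_mk fun _ => trivial)
  · rcases K.bot_or_exists_ne_one with rfl | ⟨x, h1, h2⟩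
    · exact continuous_of_discreteTopology
    · have : (Subgroup.zpowers x).FiniteIndex := ⟨by
        have := Int.index_zmultiples (Multiplicative.toAdd x)
        rw [← AddSubgroup.index_toSubgroup] at this
        exact this.trans_ne (Int.natAbs_ne_zero.2 h2)⟩
      have := Subgroup.finiteIndex_of_le (Subgroup.zpowers_le.2 h1)
      exact sgrp K (K.isOpen_of_isClosed_of_finiteIndex hK) H f hf

end Pool.Agent.S14094
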