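import Pool.Statements.S14124

set_option autoImplicit false
open Pool Pool.MP_e230d6_gt

namespace Pool.Agent.S14124

open Set Filter Topology

structure XX where
  fst : ℕ → Bool
  snd : Option ℕ

abbrev pt (c : ℕ → Bool) (o : Option ℕ) : XX := ⟨c, o⟩

instance : Uncountable (ℕ → Bool) := by
  rw [← Cardinal.aleph0_lt_mk_iff]
  simp [Cardinal.aleph0_lt_continuum]

instance : TopologicalSpace XX where
  IsOpen U := ∀ c, pt c none ∈ U → ∀ᶠ c' in 𝓝 c, ∀ o, (c' ≠ c ∨ o = none) → pt c' o ∈ U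
  isOpen_univ := fun _ _ => Eventually.of_forall fun _ _ _ => trivial
  isOpen_inter := fun _ _ hs ht c hc =>
    ((hs c hc.1).and (ht c hc.2)).mono fun _ h o ho => ⟨h.1 o ho, h.2 o ho⟩
  isOpen_sUnion := fun _ hS c ⟨t, ht, hc⟩ => (hS t ht c hc).mono fun _ h o ho => ⟨t, ht, h o ho⟩

theorem open_iff {U : Set XX} : IsOpen U ↔
    ∀ c, pt c none ∈ U → ∀ᶠ c' in 𝓝 c, ∀ o, (c' ≠ c ∨ o = none) → pt c' o ∈ U := Iff.rfl

theorem p_cont : Continuous (fun x : XX => x.1) :=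
  ⟨fun _ hV _ hc => (hV.eventually_mem hc).mono fun _ h _ _ => h⟩

theorem s_cont : Continuous (fun c => pt c none) :=
  ⟨fun _ hU => isOpen_iff_eventually.mpr fun c hc => (hU c hc).mono fun _ h => h none (Or.inr rfl)⟩

def BB (c : ℕ → Bool) : Set XX := {x | x.1 ≠ c ∨ x.2 = none}

theorem open_sup {c : ℕ → Bool} {U : Set XX} (h : BB c ⊆ U) : IsOpen U := by
  intro c' _
  by_cases hc : c' = c
  · subst hc
    exact Eventually.of_forall fun _ _ ho => h ho
  · exact (isOpen_ne.eventually_mem hc).mono fun _ h' _ _ => h (Or.inl h')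

theorem open_iso (c : ℕ → Bool) (n : ℕ) : IsOpen {pt c (some n)} := by
  intro c' hc
  simp at hc

theorem nhds_none (c : ℕ → Bool) :
    𝓝 (pt c none) = comap (fun x : XX => x.1) (𝓝 c) ⊓ 𝓟 (BB c) := by
  refine le_antisymm (le_inf (tendsto_iff_comap.mp (p_cont.tendsto (pt c none)))
    (le_principal_iff.mpr ((open_sup subset_rfl).mem_nhds (Or.inr rfl)))) fun U hU => ?_
  obtain ⟨V, hVU, hV, hc⟩ := mem_nhds_iff.mp hU
  rw [mem_inf_principal]
  exact mem_comap.mpr ⟨_, hV c hc, fun x hx hB => hVU (hx x.2 hB)⟩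

instance : FirstCountableTopology XX :=
  ⟨fun x => by
    obtain ⟨c, o⟩ := x
    cases o with
    | none => change (𝓝 (pt c none)).IsCountablyGenerated; rw [nhds_none]; infer_instance
    | some n =>
      change (𝓝 (pt c (some n))).IsCountablyGenerated
      rw [(isOpen_singleton_iff_nhds_eq_pure _).mp (open_iso c n)]
      infer_instance⟩

instance : T2Space XX :=
  ⟨fun x y hxy => by
    by_cases h : x.1 = y.1
    · have key : ∀ (c : ℕ → Bool) (n : ℕ) (z : XX), z ≠ pt c (some n) →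
          ∃ u v : Set XX, IsOpen u ∧ IsOpen v ∧ pt c (some n) ∈ u ∧ z ∈ v ∧ Disjoint u v :=
        fun c n z hz => ⟨{pt c (some n)}, {pt c (some n)}ᶜ, open_iso c n, open_sup (c := c) (by
          rintro _ h rfl
          simp [BB] at h), rfl, hz, disjoint_compl_right⟩
      obtain ⟨c, o⟩ := x
      obtain ⟨c', o'⟩ := y
      obtain rfl : c = c' := h
      cases o with
      | some n => exact key c n _ hxy.symm
      | none =>
        cases o' with
        | none => exact absurd rfl hxy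
        | some n =>
          obtain ⟨u, v, h1, h2, h3, h4, h5⟩ := key c n _ hxy
          exact ⟨v, u, h2, h1, h4, h3, h5.symm⟩
    · exact separated_by_continuous p_cont h⟩

theorem compact_of {L : Set XX} (h1 : ∀ c, pt c none ∈ L)
    (h2 : ∀ c, {n | pt c (some n) ∈ L}.Finite) : IsCompact L := by
  rw [isCompact_iff_ultrafilter_le_nhds]
  intro f hf
  obtain ⟨c, _, hc⟩ := isCompact_univ.ultrafilter_le_nhds (f.map fun x : XX => x.1) (by simp)
  by_cases hB : BB c ∈ f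
  · refine ⟨pt c none, h1 c, ?_⟩
    rw [nhds_none]
    exact le_inf (map_le_iff_le_comap.mp hc) (le_principal_iff.mpr hB)
  · have h3 : (BB c)ᶜ ∩ L ∈ f :=
      inter_mem (Ultrafilter.compl_mem_iff_notMem.mpr hB) (le_principal_iff.mp hf)
    have h4 : ((BB c)ᶜ ∩ L).Finite := by
      refine ((h2 c).image fun n => pt c (some n)).subset ?_
      rintro ⟨c', o⟩ ⟨h5, h6⟩
      simp only [BB, mem_compl_iff, mem_ofPred_eq, not_or, not_not] at h5
      obtain ⟨rfl, h5⟩ := h5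
      cases o with
      | none => exact absurd rfl h5
      | some n => exact ⟨n, h6, rfl⟩
    obtain ⟨x, hx, rfl⟩ := Ultrafilter.eq_pure_of_finite_mem h4 h3
    exact ⟨x, hx.2, pure_le_nhds x⟩

theorem fibre_bdd {L : Set XX} (h : IsCompact L) (c : ℕ → Bool) :
    ∃ N, ∀ n, N ≤ n → pt c (some n) ∉ L := by
  obtain ⟨N, hN⟩ := h.elim_directed_cover (fun N : ℕ => {x | ∀ n, N ≤ n → x ≠ pt c (some n)})
    (fun N => open_sup (c := c) (by
      rintro _ h n _ rfl
      simp [BB] at h))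
    (by
      rintro ⟨c', o⟩ _
      cases o with
      | none => exact mem_iUnion.mpr ⟨0, fun n _ h => by simp at h⟩
      | some m => exact mem_iUnion.mpr ⟨m + 1, fun n hn h => by
          have : m = n := by simpa using congrArg XX.snd h
          omega⟩)
    (Monotone.directed_le fun a b hab x hx n hn => hx n (hab.trans hn))
  exact ⟨N, fun n hn hL => hN hL n hn rfl⟩

theorem cofin {U : Set XX} (hU : IsOpen U) (h : ∀ c, pt c none ∈ U) :
    ∃ F : Finset (ℕ → Bool), ∀ c ∉ F, ∀ o, pt c o ∈ U := by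
  obtain ⟨F, hF⟩ := CompactSpace.elim_nhds_subcover _ fun c => hU c (h c)
  refine ⟨F, fun c hc o => ?_⟩
  have : c ∈ ⋃ x ∈ F, {c' | ∀ o, (c' ≠ x ∨ o = none) → pt c' o ∈ U} := hF ▸ mem_univ c
  obtain ⟨x, hx, h1⟩ := mem_iUnion₂.mp this
  exact h1 o (Or.inl fun h2 => hc (h2 ▸ hx))

theorem sat (K : Set XX) : ⋂₀ {U : Set XX | IsOpen U ∧ K ⊆ U} ⊆ K := by
  intro x hx
  by_contra hn
  exact hx {x}ᶜ ⟨isOpen_compl_singleton, subset_compl_singleton_iff.mpr hn⟩ rfl

theorem big (N : (ℕ → Bool) → ℕ) : ∃ m, {c | N c = m}.Infinite := by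
  by_contra h
  push Not at h
  have : (univ : Set (ℕ → Bool)).Countable := by
    refine (countable_iUnion fun m => (h m).countable).mono fun c _ => ?_
    exact mem_iUnion.mpr ⟨N c, rfl⟩
  exact not_countable_univ this

/-- The negation of the preceding statement: For every first-countable well-filtered T0 space X, on the nonempty compact saturated subsets ordered by reverse inclusion, a family is open in the upper Vietoris topology exactly when it is Scott open. -/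
theorem result :
    ¬ (∀ (X : Type) [TopologicalSpace X], T0Space X → FirstCountableTopology X →
    (∀ 𝒦 : Set (Set X), 𝒦.Nonempty →
      (∀ K ∈ 𝒦, IsCompact K ∧ ⋂₀ {U : Set X | IsOpen U ∧ K ⊆ U} ⊆ K) →
      DirectedOn (fun A B : Set X => B ⊆ A) 𝒦 →
      ∀ U : Set X, IsOpen U → ⋂₀ 𝒦 ⊆ U → ∃ K ∈ 𝒦, K ⊆ U) →
    ∀ 𝒮 : Set {K : Set X // K.Nonempty ∧ IsCompact K ∧ ⋂₀ {U : Set X | IsOpen U ∧ K ⊆ U} ⊆ K},
      (@IsOpen {K : Set X // K.Nonempty ∧ IsCompact K ∧ ⋂₀ {U : Set X | IsOpen U ∧ K ⊆ U} ⊆ K}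
        (TopologicalSpace.generateFrom
          {𝒱 : Set {K : Set X // K.Nonempty ∧ IsCompact K ∧ ⋂₀ {U : Set X | IsOpen U ∧ K ⊆ U} ⊆ K} |
            ∃ U : Set X, IsOpen U ∧
              𝒱 = {K : {K : Set X // K.Nonempty ∧ IsCompact K ∧ ⋂₀ {U : Set X | IsOpen U ∧ K ⊆ U} ⊆ K} |
                K.1 ⊆ U}}) 𝒮 ↔
      ((∀ K ∈ 𝒮, ∀ L : {K : Set X // K.Nonempty ∧ IsCompact K ∧ ⋂₀ {U : Set X | IsOpen U ∧ K ⊆ U} ⊆ K},
          L.1 ⊆ K.1 → L ∈ 𝒮) ∧
       ∀ 𝒟 : Set {K : Set X // K.Nonempty ∧ IsCompact K ∧ ⋂₀ {U : Set X | IsOpen U ∧ K ⊆ U} ⊆ K},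
        𝒟.Nonempty →
        DirectedOn (fun A B : {K : Set X // K.Nonempty ∧ IsCompact K ∧ ⋂₀ {U : Set X | IsOpen U ∧ K ⊆ U} ⊆ K} =>
          B.1 ⊆ A.1) 𝒟 →
        ∀ L : {K : Set X // K.Nonempty ∧ IsCompact K ∧ ⋂₀ {U : Set X | IsOpen U ∧ K ⊆ U} ⊆ K},
          (∀ K ∈ 𝒟, L.1 ⊆ K.1) →
          (∀ M : {K : Set X // K.Nonempty ∧ IsCompact K ∧ ⋂₀ {U : Set X | IsOpen U ∧ K ⊆ U} ⊆ K},
            (∀ K ∈ 𝒟, M.1 ⊆ K.1) → M.1 ⊆ L.1) →
          L ∈ 𝒮 → ∃ K ∈ 𝒟, K ∈ 𝒮))) := by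
  classical
  intro h
  have h1 := (h XX inferInstance inferInstance (by
      intro 𝒦 hne hK hd U hU hs
      have : Nonempty 𝒦 := hne.to_subtype
      obtain ⟨K, hK'⟩ := exists_subset_nhds_of_isCompact (V := fun K : 𝒦 => K.1)
        (directedOn_iff_directed.mp hd) (fun K => (hK K.1 K.2).1) (U := U)
        fun x hx => hU.mem_nhds (hs (by rwa [sInter_eq_iInter]))
      exact ⟨K.1, K.2, hK'⟩)
    {L | ∀ n, ∃ T : Finset (ℕ → Bool), n < T.card ∧ ∀ c ∈ T, pt c (some n) ∉ L.1}).mpr ⟨?_, ?_⟩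
  · have key : ∀ 𝒱, TopologicalSpace.GenerateOpen
        {𝒱 : Set {K : Set XX // K.Nonempty ∧ IsCompact K ∧ ⋂₀ {U : Set XX | IsOpen U ∧ K ⊆ U} ⊆ K} |
          ∃ U : Set XX, IsOpen U ∧ 𝒱 = {K | K.1 ⊆ U}} 𝒱 →
        ∀ K ∈ 𝒱, ∃ U, IsOpen U ∧ K.1 ⊆ U ∧ ∀ L, L.1 ⊆ U → L ∈ 𝒱 := by
      intro 𝒱 h𝒱
      induction h𝒱 with
      | basic s hs =>
        obtain ⟨U, hU, rfl⟩ := hs
        exact fun K hK => ⟨U, hU, hK, fun L hL => hL⟩
      | univ => exact fun K _ => ⟨univ, isOpen_univ, subset_univ _, fun _ _ => trivial⟩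
      | inter s t _ _ ih1 ih2 =>
        intro K hK
        obtain ⟨U, a1, a2, a3⟩ := ih1 K hK.1
        obtain ⟨V, b1, b2, b3⟩ := ih2 K hK.2
        exact ⟨U ∩ V, a1.inter b1, subset_inter a2 b2, fun L hL =>
          ⟨a3 L (hL.trans inter_subset_left), b3 L (hL.trans inter_subset_right)⟩⟩
      | sUnion S _ ih =>
        rintro K ⟨t, ht, hK⟩
        obtain ⟨U, a1, a2, a3⟩ := ih t ht K hK
        exact ⟨U, a1, a2, fun L hL => ⟨t, ht, a3 L hL⟩⟩
    obtain ⟨U, hU, h2, h3⟩ := key _ h1 ⟨range fun c => pt c none, range_nonempty _,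
      isCompact_range s_cont, sat _⟩ (by
        intro n
        obtain ⟨T, hT⟩ := Infinite.exists_subset_card_eq (ℕ → Bool) (n + 1)
        exact ⟨T, by omega, fun c _ ⟨c', hc'⟩ => by simp at hc'⟩)
    obtain ⟨F, hF⟩ := cofin hU fun c => h2 ⟨c, rfl⟩
    obtain ⟨T, hT, h4⟩ := h3 ⟨{x | x.2 = none ∨ (x.1 ∉ F ∧ x.2 = some F.card)},
      ⟨pt (fun _ => true) none, Or.inl rfl⟩, compact_of (fun c => Or.inl rfl) (fun c =>
        (finite_singleton F.card).subset (by
          rintro n (hn | hn)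
          · simp at hn
          · simpa using hn.2)), sat _⟩ (by
        rintro ⟨c, o⟩ (hx | hx)
        · obtain rfl : o = none := hx
          exact h2 ⟨c, rfl⟩
        · exact hF c hx.1 o) F.card
    have : T ⊆ F := fun c hc => by
      by_contra hn
      exact h4 c hc (Or.inr ⟨hn, rfl⟩)
    exact absurd (Finset.card_le_card this) (by omega)
  · intro K hK L hL n
    obtain ⟨T, h1, h2⟩ := hK n
    exact ⟨T, h1, fun c hc hm => h2 c hc (hL hm)⟩
  · intro 𝒟 ⟨K0, hK0⟩ hd L hL hM hS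
    have hI : ∀ x, x ∉ L.1 → ∃ K ∈ 𝒟, x ∉ K.1 := by
      intro x hx
      by_contra hn
      push Not at hn
      refine hx (hM ⟨⋂ K ∈ 𝒟, K.1, L.2.1.mono (subset_iInter₂ hL), ?_, sat _⟩
        (fun K hK => biInter_subset_of_mem hK) (mem_iInter₂.mpr hn))
      exact K0.2.2.1.of_isClosed_subset (isClosed_biInter fun K _ => K.2.2.1.isClosed)
        (biInter_subset_of_mem hK0)
    have hfin : ∀ s : Finset XX, (∀ x ∈ s, x ∉ L.1) → ∃ K ∈ 𝒟, K.1 ⊆ K0.1 ∧ ∀ x ∈ s, x ∉ K.1 := by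
      intro s
      induction s using Finset.induction_on with
      | empty => exact fun _ => ⟨K0, hK0, subset_rfl, by simp⟩
      | insert x s _ ih =>
        intro hs
        obtain ⟨K1, a1, a2, a3⟩ := ih fun y hy => hs y (Finset.mem_insert_of_mem hy)
        obtain ⟨K2, b1, b2⟩ := hI x (hs x (Finset.mem_insert_self _ _))
        obtain ⟨K, c1, c2, c3⟩ := hd K1 a1 K2 b1
        refine ⟨K, c1, c2.trans a2, fun y hy hm => ?_⟩
        rcases Finset.mem_insert.mp hy with rfl | hy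
        · exact b2 (c3 hm)
        · exact a3 y hy (c2 hm)
    choose N hN using fibre_bdd K0.2.2.1
    obtain ⟨m, hm⟩ := big N
    choose T hT1 hT2 using hS
    obtain ⟨K, a1, a2, a3⟩ := hfin ((Finset.range m).biUnion fun n =>
      (T n).image fun c => pt c (some n)) (by
        intro x hx
        simp only [Finset.mem_biUnion, Finset.mem_image] at hx
        obtain ⟨n, _, c, hc, rfl⟩ := hx
        exact hT2 n c hc)
    refine ⟨K, a1, fun n => ?_⟩
    by_cases hn : n < m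
    · exact ⟨T n, hT1 n, fun c hc => a3 _ (Finset.mem_biUnion.mpr
        ⟨n, Finset.mem_range.mpr hn, Finset.mem_image_of_mem _ hc⟩)⟩
    · obtain ⟨T', h1, h2⟩ := hm.exists_subset_card_eq (n + 1)
      refine ⟨T', by omega, fun c hc hK => hN c n ?_ (a2 hK)⟩
      have : N c = m := h1 hc
      omega

end Pool.Agent.S14124
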