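import Pool.Statements.S14147
import Pool.Agent.Lib.helper15.Split

set_option autoImplicit false
open Classical
open Pool Pool.MP_e62a5f_gt

namespace Pool.Agent.S14147

open Pool.Agent.Lib.helper15 Pool.Agent.Lib.helper15.MagFour Filter Topology Matrix

lemma cs {A : Type} [Fintype A] [DecidableEq A] (Z : Matrix A A ℝ) (hZ : Z.PosDef) (e v : A → ℝ) :
    (e ⬝ᵥ v) ^ 2 ≤ (e ⬝ᵥ Z⁻¹ *ᵥ e) * (v ⬝ᵥ Z *ᵥ v) := by
  have hu : IsUnit Z.det := (Matrix.isUnit_iff_isUnit_det _).1 hZ.isUnit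
  have h1 : Z *ᵥ (Z⁻¹ *ᵥ e) = e := by
    rw [Matrix.mulVec_mulVec, Matrix.mul_nonsing_inv _ hu, Matrix.one_mulVec]
  set u := Z⁻¹ *ᵥ e
  have hs : Zᵀ = Z := by simpa using hZ.isHermitian.eq
  have h2 : u ⬝ᵥ Z *ᵥ v = e ⬝ᵥ v := by
    rw [Matrix.dotProduct_mulVec, ← Matrix.mulVec_transpose, hs, h1]
  have := discrim_le_zero (a := e ⬝ᵥ u) (b := -2 * (e ⬝ᵥ v)) (c := v ⬝ᵥ Z *ᵥ v) fun t => by
    have := hZ.posSemidef.dotProduct_mulVec_nonneg (v - t • u)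
    simp only [star_trivial, Matrix.mulVec_sub, Matrix.mulVec_smul, sub_dotProduct, dotProduct_sub,
      smul_dotProduct, dotProduct_smul, h1, h2, smul_eq_mul, dotProduct_comm v e,
      dotProduct_comm u e] at this
    linarith
  rw [discrim] at this
  linarith

variable {U : Type} [NormedAddCommGroup U]

noncomputable abbrev ZZ (X : Finset U) : Matrix X X ℝ :=
  Matrix.of fun (x y : ↥X) => Real.exp (-‖(x : U) - (y : U)‖)

lemma qf_Z (X : Finset U) (v : X → ℝ) :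
    v ⬝ᵥ ZZ X *ᵥ v = qf (fun a b : X => ‖(a : U) - b‖) v := Cut.quad_eq _ _

lemma fam (Y : Finset U) {ι : Type} [Fintype ι] (y : ι → Y) (w : ι → ℝ) :
    ∃ v : Y → ℝ, ∑ b, v b = ∑ i, w i ∧ v ⬝ᵥ ZZ Y *ᵥ v = qf (fun i j => ‖(y i : U) - y j‖) w :=
  ⟨fun b => ∑ i ∈ Finset.univ.filter (fun i => y i = b), w i, Finset.sum_fiberwise _ _ _,
    by rw [qf_Z, ← qf_push]⟩

lemma one_dot (X : Finset U) : (fun _ => 1) ⬝ᵥ (ZZ X)⁻¹ *ᵥ (fun _ => 1) = ∑ i, ∑ j, (ZZ X)⁻¹ i j := by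
  simp [dotProduct, Matrix.mulVec]

lemma cs1 (X : Finset U) (h : (ZZ X).PosDef) (v : X → ℝ) :
    (∑ a, v a) ^ 2 ≤ (∑ i, ∑ j, (ZZ X)⁻¹ i j) * (v ⬝ᵥ ZZ X *ᵥ v) := by
  have := cs _ h (fun _ => 1) v
  rw [one_dot] at this
  simpa [dotProduct] using this

lemma cs2 (X : Finset U) (h : (ZZ X).PosDef) (v : X → ℝ) :
    (∑ a, |v a|) ^ 2 ≤ (∑ i, ∑ j, |(ZZ X)⁻¹ i j|) * (v ⬝ᵥ ZZ X *ᵥ v) := by
  have := cs _ h (fun a => (SignType.sign (v a) : ℝ)) v
  have e : (fun a => (SignType.sign (v a) : ℝ)) ⬝ᵥ v = ∑ a, |v a| :=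
    Finset.sum_congr rfl fun a _ => sign_mul_self (v a)
  rw [e] at this
  refine this.trans (mul_le_mul_of_nonneg_right ?_ (h.posSemidef.dotProduct_mulVec_nonneg v))
  simp only [dotProduct, Matrix.mulVec, Finset.mul_sum]
  refine Finset.sum_le_sum fun i _ => Finset.sum_le_sum fun j _ => (le_abs_self _).trans ?_
  have s : ∀ t : ℝ, |(SignType.sign t : ℝ)| ≤ 1 := fun t => by
    rcases SignType.sign t with _ | _ | _ <;> simp
  rw [abs_mul, abs_mul]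
  exact (mul_le_of_le_one_left (by positivity) (s _)).trans
    (mul_le_of_le_one_right (abs_nonneg _) (s _))

lemma mag_nonneg (X : Finset U) (h : (ZZ X).PosDef) : 0 ≤ ∑ i, ∑ j, (ZZ X)⁻¹ i j := by
  rw [← one_dot]
  exact h.inv.posSemidef.dotProduct_mulVec_nonneg _

lemma two_le (X : Finset U) (h : (ZZ X).PosDef) (v : X → ℝ) :
    2 * ∑ a, v a - v ⬝ᵥ ZZ X *ᵥ v ≤ ∑ i, ∑ j, (ZZ X)⁻¹ i j := by
  have h1 := cs1 X h v
  have h2 := mag_nonneg X h
  have h3 : 0 ≤ v ⬝ᵥ ZZ X *ᵥ v := h.posSemidef.dotProduct_mulVec_nonneg v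
  have := abs_le_of_sq_le_sq' (a := 2 * ∑ a, v a) (b := (∑ i, ∑ j, (ZZ X)⁻¹ i j) + v ⬝ᵥ ZZ X *ᵥ v)
    (by nlinarith [sq_nonneg ((∑ i, ∑ j, (ZZ X)⁻¹ i j) - v ⬝ᵥ ZZ X *ᵥ v)]) (by linarith)
  linarith [this.2]

lemma lsc (h : ∀ X : Finset U, (ZZ X).PosDef) (X : Finset U) : ∃ K : ℝ, ∀ (Y : Finset U) (δ : ℝ),
    (∀ x ∈ X, ∃ y ∈ Y, dist x y < δ) →
      ∑ i, ∑ j, (ZZ X)⁻¹ i j - δ * K ≤ ∑ i, ∑ j, (ZZ Y)⁻¹ i j := by
  have hu : IsUnit (ZZ X).det := (Matrix.isUnit_iff_isUnit_det _).1 (h X).isUnit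
  have h1 : ZZ X *ᵥ ((ZZ X)⁻¹ *ᵥ fun _ => 1) = fun _ => 1 := by
    rw [Matrix.mulVec_mulVec, Matrix.mul_nonsing_inv _ hu, Matrix.one_mulVec]
  have h2 := Cut.mag_weight _ hu _ h1
  set w := (ZZ X)⁻¹ *ᵥ fun _ => 1
  refine ⟨2 * (∑ a, |w a|) ^ 2, fun Y δ hY => ?_⟩
  choose y hy hd using fun a : X => hY a a.2
  obtain ⟨v, e1, e2⟩ := fam Y (fun a => ⟨y a, hy a⟩) w
  have h3 := two_le Y (h Y) v
  have h4 := qf_pert (d := fun a b => ‖y a - y b‖) (d' := fun a b : X => ‖(a : U) - b‖)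
    (fun _ _ => norm_nonneg _) (fun _ _ => norm_nonneg _) (t := 2 * δ) (fun a b => by
      rw [← dist_eq_norm, ← dist_eq_norm]
      have := dist_dist_dist_le (y a) (y b) a b
      rw [Real.dist_eq, dist_comm (y a) a, dist_comm (y b) b] at this
      linarith [hd a, hd b]) w
  rw [← qf_Z, h1] at h4
  simp only [dotProduct, mul_one] at h4
  rw [e1, e2] at h3
  linarith

lemma usc [NormedSpace ℝ U] [FiniteDimensional ℝ U] (h : ∀ X : Finset U, (ZZ X).PosDef)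
    (X : Finset U) : ∃ K : ℝ, 0 ≤ K ∧ ∀ (Y : Finset U) (δ : ℝ), 0 ≤ δ → δ * K < 1 →
    (∀ y ∈ Y, ∃ x ∈ X, dist y x < δ) → ∑ i, ∑ j, (ZZ Y)⁻¹ i j ≤
      (∑ i, ∑ j, (ZZ X)⁻¹ i j) * Real.exp (δ * K) / (1 - δ * K) := by
  let T := toEuclidean (E := U)
  let N : Seminorm ℝ (EuclideanSpace ℝ (Fin (Module.finrank ℝ U))) :=
    (normSeminorm ℝ U).comp T.symm.toLinearMap
  have hN' : ∀ a b : U, N (T a - T b) = ‖a - b‖ := fun a b => by simp [N]
  have Tb : ∀ a : U, ‖T a‖ ≤ (‖T.toContinuousLinearMap‖ + 1) * ‖a‖ := fun a =>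
    (T.toContinuousLinearMap.le_opNorm a).trans (by gcongr; linarith)
  set τ := ‖T.toContinuousLinearMap‖ + 1
  have τ0 : 0 < τ := by positivity
  have hN : PN N := by
    refine ⟨show Continuous fun v => ‖T.symm v‖ by fun_prop, ⟨τ⁻¹, by positivity, fun v => ?_⟩,
      fun n x w => ?_⟩
    · rw [inv_mul_le_iff₀ τ0]
      simpa [N] using Tb (T.symm v)
    · obtain ⟨v, -, e⟩ := fam (Finset.univ.image fun i => T.symm (x i))
        (fun i => ⟨T.symm (x i), by simp⟩) w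
      have := (h _).posSemidef.dotProduct_mulVec_nonneg v
      rw [star_trivial, e] at this
      simpa [qf, N] using this
  obtain ⟨C, C0, hC⟩ := hN.compare
  set S := ∑ i, ∑ j, |(ZZ X)⁻¹ i j|
  have S0 : 0 ≤ S := by positivity
  set L := Fintype.card X * (2 * τ * C)
  have L0 : 0 ≤ L := by positivity
  refine ⟨L * (S + 1), by positivity, fun Y δ hδ h1 hY => ?_⟩
  choose r hr hd using fun b : Y => hY b b.2
  have m0 := mag_nonneg X (h X)
  have k0 : 0 < 1 - δ * (L * (S + 1)) := by linarith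
  refine Cut.mag_le _ ((Matrix.isUnit_iff_isUnit_det _).1 (h Y).isUnit) _ (by positivity) fun w => ?_
  have h2 := hC X Y (fun a => T a) (fun b => T b) (fun b => ⟨r b, hr b⟩) (τ * δ) (by positivity)
    (fun b => by
      rw [← map_sub]
      refine (Tb _).trans ?_
      rw [← dist_eq_norm]; gcongr; exact (hd b).le) w
  simp only [hN', ← qf_Z] at h2
  rw [show Fintype.card X * (2 * (τ * δ) * C) = δ * L by simp only [L]; ring] at h2
  set v := fun a : X => ∑ b ∈ Finset.univ.filter (fun b : Y => (⟨r b, hr b⟩ : X) = a), w b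
  have e : ∑ a, v a = ∑ b, w b := Finset.sum_fiberwise _ _ _
  have h3 := cs1 X (h X) v
  have h4 := cs2 X (h X) v
  have q0 : 0 ≤ v ⬝ᵥ ZZ X *ᵥ v := (h X).posSemidef.dotProduct_mulVec_nonneg v
  rw [← Cut.quad_eq, ← e]
  refine h3.trans ?_
  rw [mul_div_assoc, mul_assoc]
  gcongr
  rw [div_mul_eq_mul_div, le_div_iff₀ k0]
  rw [Real.exp_neg, inv_mul_le_iff₀ (Real.exp_pos _)] at h2
  have h5 : Real.exp (δ * L) ≤ Real.exp (δ * (L * (S + 1))) :=
    Real.exp_le_exp.2 (by nlinarith [mul_nonneg (mul_nonneg hδ L0) S0])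
  have h6 := mul_le_mul_of_nonneg_right h5 ((h Y).posSemidef.dotProduct_mulVec_nonneg w)
  have h7 := mul_le_mul_of_nonneg_left h4 (mul_nonneg hδ L0)
  rw [star_trivial] at h6
  nlinarith [mul_nonneg (mul_nonneg hδ L0) q0]

/-- In any finite-dimensional real normed space where every finite subset has a positive definite matrix exp(-distance), the magnitude (sum of entries of the inverse matrix) of nonempty finite subsets is continuous in the Hausdorff distance. -/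
theorem result :
    ∀ (U : Type) [NormedAddCommGroup U] [NormedSpace ℝ U] [FiniteDimensional ℝ U],
      (∀ X : Finset U,
        (Matrix.of fun (x y : ↥X) => Real.exp (-‖(x : U) - (y : U)‖)).PosDef) →
      ∀ X : Finset U, X.Nonempty → ∀ ε : ℝ, 0 < ε → ∃ δ : ℝ, 0 < δ ∧
        ∀ Y : Finset U, Y.Nonempty →
          Metric.hausdorffDist (X : Set U) (Y : Set U) < δ →
          |(∑ i, ∑ j,
              (Matrix.of fun (x y : ↥Y) => Real.exp (-‖(x : U) - (y : U)‖))⁻¹ i j) -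
            (∑ i, ∑ j,
              (Matrix.of fun (x y : ↥X) => Real.exp (-‖(x : U) - (y : U)‖))⁻¹ i j)| < ε := by
  intro U _ _ _ h X hX ε hε
  obtain ⟨K1, h1⟩ := lsc h X
  obtain ⟨K2, k2, h2⟩ := usc h X
  set m := ∑ i, ∑ j, (ZZ X)⁻¹ i j
  have l1 : ∀ᶠ δ : ℝ in 𝓝 0, δ * K1 < ε :=
    (Continuous.tendsto' (f := fun δ : ℝ => δ * K1) (by fun_prop) 0 0 (by simp)).eventually
      (gt_mem_nhds hε)
  have l2 : ∀ᶠ δ : ℝ in 𝓝 0, δ * K2 < 1 :=
    (Continuous.tendsto' (f := fun δ : ℝ => δ * K2) (by fun_prop) 0 0 (by simp)).eventually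
      (gt_mem_nhds one_pos)
  have l3 : ∀ᶠ δ : ℝ in 𝓝 0, m * Real.exp (δ * K2) / (1 - δ * K2) < m + ε := by
    have : ContinuousAt (fun δ : ℝ => m * Real.exp (δ * K2) / (1 - δ * K2)) 0 :=
      ContinuousAt.div (by fun_prop) (by fun_prop) (by simp)
    exact this.eventually (gt_mem_nhds (by simpa using hε))
  obtain ⟨δ, ⟨d1, d2, d3⟩, d0⟩ :=
    (((l1.and (l2.and l3)).filter_mono nhdsWithin_le_nhds).and
      (self_mem_nhdsWithin (s := Set.Ioi 0))).exists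
  refine ⟨δ, d0, fun Y hY hd => ?_⟩
  have fin : Metric.hausdorffEDist (X : Set U) (Y : Set U) ≠ ⊤ :=
    Metric.hausdorffEDist_ne_top_of_nonempty_of_bounded hX hY X.finite_toSet.isBounded
      Y.finite_toSet.isBounded
  have a1 := h1 Y δ fun x hx => Metric.exists_dist_lt_of_hausdorffDist_lt hx hd fin
  have a2 := h2 Y δ (le_of_lt d0) d2 fun y hy => by
    simpa only [dist_comm, Finset.mem_coe] using
      Metric.exists_dist_lt_of_hausdorffDist_lt' hy hd fin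
  exact abs_lt.2 ⟨by linarith, by linarith⟩

end Pool.Agent.S14147
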