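import Pool.Statements.S14163
import Pool.Agent.Lib.helper32.NormalWL

set_option autoImplicit false
open Pool Pool.MP_eb94e1_gt

namespace Pool.Agent.S14163

/-- There is a normal T1 space in which every open cover has a countable subfamily with dense union, but some family of disjoint nonempty open sets is not met entirely by any Lindelöf subset. -/
theorem result :
    ∃ (X : Type) (_ : TopologicalSpace X), T4Space X ∧
      (∀ 𝒰 : Set (Set X), (∀ U ∈ 𝒰, IsOpen U) → ⋃₀ 𝒰 = Set.univ →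
        ∃ 𝒱 ⊆ 𝒰, 𝒱.Countable ∧ Dense (⋃₀ 𝒱)) ∧
      (∃ 𝒰 : Set (Set X), (∀ U ∈ 𝒰, IsOpen U ∧ U.Nonempty) ∧ 𝒰.PairwiseDisjoint id ∧
        ∀ L : Set X, IsLindelof L → ∃ U ∈ 𝒰, Disjoint U L) := by
  classical
  obtain ⟨_, _, ho⟩ := Cardinal.exists_ord_eq_type_lt (Cardinal.aleph 1).out
  have hI : Cardinal.mk (Cardinal.aleph 1).out = Cardinal.aleph 1 := Cardinal.mk_out _
  have h1 : ∀ i : (Cardinal.aleph 1).out, (Set.Iio i).Countable := fun i =>
    (Cardinal.countable_iff_lt_aleph_one _).2 ((Cardinal.mk_Iio_lt i ho).trans_eq hI)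
  haveI : Uncountable (Cardinal.aleph 1).out :=
    Cardinal.aleph0_lt_mk_iff.1 (Cardinal.aleph0_lt_aleph_one.trans_eq hI.symm)
  haveI := Pool.Agent.Lib.helper32.NormalWL.normal h1
  refine ⟨Pool.Agent.Lib.helper32.NormalWL.XX (Cardinal.aleph 1).out, inferInstance, {},
    Pool.Agent.Lib.helper32.NormalWL.wl, Set.range Pool.Agent.Lib.helper32.NormalWL.UU, ?_, ?_, ?_⟩
  · rintro _ ⟨q, rfl⟩
    exact ⟨(Pool.Agent.Lib.helper32.NormalWL.co _ _).2, Pool.Agent.Lib.helper32.NormalWL.UU_ne q⟩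
  · rintro _ ⟨q, rfl⟩ _ ⟨q', rfl⟩ hne
    exact Set.disjoint_left.2 fun x h h' => hne (by rw [x.2.1 q q' h h'])
  · intro L hL
    obtain ⟨q, hq⟩ := Pool.Agent.Lib.helper32.NormalWL.notcell h1 hL
    exact ⟨_, ⟨q, rfl⟩, hq⟩

end Pool.Agent.S14163
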