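import Pool.Statements.S14175
import Pool.Agent.Lib.helper5.Extral

set_option autoImplicit false
open Pool Pool.MP_ed4848_gt

namespace Pool.Agent.S14175

/-- For every index set κ and every compact Hausdorff space K of countable tightness, the image of any continuous map from the product space ℝ^κ into K has a countable network, i.e. is cosmic. -/
theorem result :
    ∀ (κ : Type) (K : Type) [TopologicalSpace K] [CompactSpace K] [T2Space K],
      (∀ (A : Set K) (x : K), x ∈ closure A →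
          ∃ C : Set K, C ⊆ A ∧ C.Countable ∧ x ∈ closure C) →
      ∀ φ : (κ → ℝ) → K, Continuous φ →
        ∃ 𝒩 : Set (Set K), 𝒩.Countable ∧ (∀ N ∈ 𝒩, N ⊆ Set.range φ) ∧
          ∀ x ∈ Set.range φ, ∀ U : Set K, IsOpen U → x ∈ U →
            ∃ N ∈ 𝒩, x ∈ N ∧ N ⊆ U := by
  intro κ K _ _ _ ht φ hφ
  obtain ⟨S, hS, h⟩ := H5C.dep_of_dense (fun _ : Unit => φ) (fun _ => hφ) fun A hA => by
    by_contra hn
    obtain ⟨w, hw⟩ := hA.nonempty
    obtain ⟨ι, hι⟩ : ∃ ι : Type, Cardinal.mk ι = Cardinal.aleph 1 := ⟨_, Cardinal.mk_out _⟩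
    have := H5C.uncountable_of_aleph hι
    obtain ⟨e, he⟩ := H5C.thmB hφ w (fun S hS => by
      obtain ⟨B, b1, b2, b3, -⟩ := hA.sub hw hS
      by_contra hc
      push Not at hc
      exact hn ⟨B, b1, b2, fun _ u hu v hv => hc u (b3 hu) v (b3 hv)⟩) ι hι
    exact H5C.not_tight he ht
  have := hS.to_subtype
  obtain ⟨s, s1, s2⟩ := H5C.exists_section (E := ℝ) S
  refine ⟨(fun B => (φ ∘ s) '' B) '' TopologicalSpace.countableBasis (S → ℝ),
    (TopologicalSpace.countable_countableBasis _).image _, ?_, ?_⟩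
  · rintro _ ⟨B, -, rfl⟩ _ ⟨z, -, rfl⟩
    exact ⟨_, rfl⟩
  · rintro _ ⟨v, rfl⟩ U hU hv
    have e : φ (s (S.domRestrict v)) = φ v := h () _ _ (s2 v)
    obtain ⟨B, b1, b2, b3⟩ :=
      (TopologicalSpace.isBasis_countableBasis (S → ℝ)).exists_subset_of_mem_open
      (a := S.domRestrict v) (u := (φ ∘ s) ⁻¹' U) (show φ _ ∈ U by rwa [e])
      (hU.preimage (hφ.comp s1))
    exact ⟨_, ⟨B, b1, rfl⟩, ⟨_, b2, e⟩, Set.image_subset_iff.2 b3⟩

end Pool.Agent.S14175
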