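import Pool.Statements.S14180
-- import your own Pool.Agent.* helpers here

set_option autoImplicit false
open Topology Pointwise
open Pool Pool.MP_ede847_gt

namespace Pool.Agent.S14180

abbrev Y : Type := ℤ ⊕ ℝ

def N (k : ℤ) : Set Y := {y | ∃ n : ℤ, k ≤ n ∧ y = Sum.inl n}

def Adm (B : Set Y) : Prop := ∃ k, N k ⊆ B ∧ (B \ N k).Finite

lemma N_anti {k l : ℤ} (h : k ≤ l) : N l ⊆ N k := fun _ ⟨n, hn, e⟩ => ⟨n, h.trans hn, e⟩

lemma N_diff (k l : ℤ) : (N k \ N l).Finite := by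
  refine ((Set.finite_Ico k l).image Sum.inl).subset ?_
  rintro _ ⟨⟨n, hn, rfl⟩, h⟩
  refine ⟨n, ⟨hn, ?_⟩, rfl⟩
  by_contra hc
  exact h ⟨n, not_lt.1 hc, rfl⟩

lemma raise {B : Set Y} {k l : ℤ} (h : k ≤ l) (h1 : N k ⊆ B) (h2 : (B \ N k).Finite) :
    N l ⊆ B ∧ (B \ N l).Finite := by
  refine ⟨(N_anti h).trans h1, (h2.union (N_diff k l)).subset fun y hy => ?_⟩
  by_cases e : y ∈ N k
  · exact Or.inr ⟨e, hy.2⟩
  · exact Or.inl ⟨hy.1, e⟩

lemma Adm.union {B C : Set Y} (hB : Adm B) (hC : Adm C) : Adm (B ∪ C) ∧ Adm (B ∩ C) := by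
  obtain ⟨k, h1, h2⟩ := hB
  obtain ⟨l, h3, h4⟩ := hC
  obtain ⟨a1, a2⟩ := raise (le_max_left k l) h1 h2
  obtain ⟨a3, a4⟩ := raise (le_max_right k l) h3 h4
  exact ⟨⟨_, a1.trans Set.subset_union_left, by rw [Set.union_sdiff_distrib]; exact a2.union a4⟩,
    ⟨_, Set.subset_inter a1 a3, a2.subset (Set.sdiff_subset_sdiff_left Set.inter_subset_left)⟩⟩

def GG : Subgroup (Equiv.Perm Y) where
  carrier := {g | ∀ B, Adm B → Adm (g '' B) ∧ Adm ((g⁻¹ : Equiv.Perm Y) '' B)}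
  one_mem' := fun B hB => by simpa using hB
  mul_mem' := fun {g h} hg hh B hB => by
    rw [mul_inv_rev, Equiv.Perm.coe_mul, Equiv.Perm.coe_mul, Set.image_comp, Set.image_comp]
    exact ⟨(hg _ (hh B hB).1).1, (hh _ (hg B hB).2).2⟩
  inv_mem' := fun {g} hg B hB => by rw [inv_inv]; exact (hg B hB).symm

def shift (j : ℤ) : Equiv.Perm Y := Equiv.sumCongr (Equiv.addRight j) (Equiv.refl ℝ)

lemma shift_N (j k : ℤ) : shift j '' N k = N (k + j) := by
  ext y
  constructor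
  · rintro ⟨_, ⟨n, hn, rfl⟩, rfl⟩
    exact ⟨n + j, by omega, rfl⟩
  · rintro ⟨n, hn, rfl⟩
    exact ⟨_, ⟨n - j, by omega, rfl⟩, by simp [shift]⟩

lemma shift_adm (j : ℤ) (B : Set Y) (hB : Adm B) : Adm (shift j '' B) := by
  obtain ⟨k, h1, h2⟩ := hB
  refine ⟨k + j, shift_N j k ▸ Set.image_mono h1, ?_⟩
  rw [← shift_N, ← Set.image_sdiff (shift j).injective]
  exact h2.image _

lemma shift_mem (j : ℤ) : shift j ∈ GG := fun B hB => by
  refine ⟨shift_adm j B hB, ?_⟩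
  have : (shift j)⁻¹ = shift (-j) := by
    rw [inv_eq_iff_mul_eq_one]
    ext y
    rcases y with n | x <;> simp [shift]
  rw [this]
  exact shift_adm _ B hB

lemma far (a : Y) : ∃ k, a ∉ N k := by
  rcases a with n | x
  · exact ⟨n + 1, by rintro ⟨m, hm, e⟩; have := Sum.inl_injective e; omega⟩
  · exact ⟨0, by rintro ⟨m, hm, e⟩; simp at e⟩

open Classical in
lemma swap_mem (a b : Y) : Equiv.swap a b ∈ GG := by
  have key : ∀ B, Adm B → Adm (Equiv.swap a b '' B) := by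
    rintro B ⟨k, h1, h2⟩
    obtain ⟨ka, ha⟩ := far a
    obtain ⟨kb, hb⟩ := far b
    have ha' : a ∉ N (max k (max ka kb)) := fun h => ha (N_anti (by omega) h)
    have hb' : b ∉ N (max k (max ka kb)) := fun h => hb (N_anti (by omega) h)
    obtain ⟨a1, a2⟩ := raise (le_max_left k (max ka kb)) h1 h2
    have fx : ∀ y ∈ N (max k (max ka kb)), Equiv.swap a b y = y := fun y hy =>
      Equiv.swap_apply_of_ne_of_ne (fun e => ha' (e ▸ hy)) (fun e => hb' (e ▸ hy))
    refine ⟨_, fun y hy => ⟨y, a1 hy, fx y hy⟩, (a2.image (Equiv.swap a b)).subset ?_⟩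
    rintro _ ⟨⟨y, hy, rfl⟩, h⟩
    exact ⟨y, ⟨hy, fun e => h (by rwa [fx y e])⟩, rfl⟩
  intro B hB
  rw [Equiv.swap_inv]
  exact ⟨key B hB, key B hB⟩

lemma push {B : Set Y} (hB : Adm B) (l : ℤ) : ∃ h : GG, (h : Equiv.Perm Y) '' B ⊆ N l := by
  classical
  obtain ⟨k, -, h2⟩ := hB
  have key : ∀ E : Set Y, E.Finite → ∀ l, ∃ h : GG, (h : Equiv.Perm Y) '' (N k ∪ E) ⊆ N l := by
    intro E hE
    induction E, hE using Set.Finite.induction_on with
    | empty =>
      intro l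
      exact ⟨⟨shift (l - k), shift_mem _⟩, by simp [shift_N]⟩
    | @insert y E _ _ ih =>
      intro l
      obtain ⟨h, hh⟩ := ih (l + 1)
      by_cases e : (h : Equiv.Perm Y) y ∈ N (l + 1)
      · refine ⟨h, ?_⟩
        rintro _ ⟨z, hz, rfl⟩
        apply N_anti (by omega : l ≤ l + 1)
        rcases hz with hz | rfl | hz
        · exact hh ⟨z, Or.inl hz, rfl⟩
        · exact e
        · exact hh ⟨z, Or.inr hz, rfl⟩
      · refine ⟨⟨_, swap_mem ((h : Equiv.Perm Y) y) (Sum.inl l)⟩ * h, ?_⟩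
        have fx : ∀ z ∈ N (l + 1), Equiv.swap ((h : Equiv.Perm Y) y) (Sum.inl l) z ∈ N l := by
          intro z hz
          rw [Equiv.swap_apply_of_ne_of_ne (fun e' => e (by rw [← e']; exact hz))]
          · exact N_anti (by omega) hz
          · rintro rfl
            obtain ⟨m, hm, e'⟩ := hz
            have := Sum.inl_injective e'
            omega
        rintro _ ⟨z, hz, rfl⟩
        rcases hz with hz | rfl | hz
        · exact fx _ (hh ⟨z, Or.inl hz, rfl⟩)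
        · exact ⟨l, le_rfl, Equiv.swap_apply_left _ _⟩
        · exact fx _ (hh ⟨z, Or.inr hz, rfl⟩)
  obtain ⟨h, hh⟩ := key _ h2 l
  exact ⟨h, (Set.image_mono (by rw [Set.union_sdiff_self]; exact Set.subset_union_right)).trans hh⟩

def GT : Type := GG

def V (B C : Set Y) : Set GT := {g : GG | (g : Equiv.Perm Y) '' B ⊆ C}

instance : Group GT := inferInstanceAs (Group GG)

def sub : Set (Set GT) := {O | ∃ B C, Adm B ∧ Adm C ∧ O = V B C}

instance : TopologicalSpace GT := TopologicalSpace.generateFrom sub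

lemma V_open {B C : Set Y} (hB : Adm B) (hC : Adm C) : @IsOpen GT _ (V B C) :=
  TopologicalSpace.isOpen_generateFrom_of_mem ⟨B, C, hB, hC, rfl⟩

instance : ContinuousMul GT := ⟨by
  refine continuous_generateFrom_iff.2 ?_
  rintro _ ⟨B, C, hB, hC, rfl⟩
  rw [isOpen_prod_iff]
  intro (g : GG) (h : GG) hgh
  have hh := (h.2 B hB).1
  refine ⟨V (h.1 '' B) C, V B (h.1 '' B), V_open hh hC, V_open hB hh, ?_, fun _ hx => hx, ?_⟩
  · rintro _ ⟨_, ⟨y, hy, rfl⟩, rfl⟩
    exact hgh ⟨y, hy, rfl⟩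
  · rintro ⟨g', h'⟩ ⟨h1, h2⟩ _ ⟨y, hy, rfl⟩
    exact h1 ⟨_, h2 ⟨y, hy, rfl⟩, rfl⟩⟩

lemma adm_N : Adm (N 0) := ⟨0, subset_rfl, by simp⟩

lemma basic (O : Set GT) (hO : IsOpen O) (h1 : (1 : GT) ∈ O) :
    ∃ B C, Adm B ∧ Adm C ∧ V B C ⊆ O := by
  induction hO with
  | basic s hs =>
    obtain ⟨B, C, hB, hC, rfl⟩ := hs
    exact ⟨B, C, hB, hC, subset_rfl⟩
  | univ => exact ⟨_, _, adm_N, adm_N, Set.subset_univ _⟩
  | inter s t _ _ ihs iht =>
    obtain ⟨B, C, hB, hC, h⟩ := ihs h1.1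
    obtain ⟨B', C', hB', hC', h'⟩ := iht h1.2
    refine ⟨_, _, (hB.union hB').1, (hC.union hC').2, fun g hg => ⟨h ?_, h' ?_⟩⟩
    · exact (Set.image_mono Set.subset_union_left).trans (hg.trans Set.inter_subset_left)
    · exact (Set.image_mono Set.subset_union_right).trans (hg.trans Set.inter_subset_right)
  | sUnion S _ ih =>
    obtain ⟨s, hs, h⟩ := h1
    obtain ⟨B, C, hB, hC, h'⟩ := ih s hs h
    exact ⟨B, C, hB, hC, h'.trans (Set.subset_sUnion_of_mem hs)⟩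

/-- The negation of the preceding statement: In every group with a topology making multiplication continuous, if each neighbourhood U of the identity admits a countable F with U·F = G, then each such U also admits a countable F with F·U = G. -/
theorem result :
    ¬ (∀ (G : Type) [Group G] [TopologicalSpace G] [ContinuousMul G],
      (∀ U ∈ 𝓝 (1 : G), ∃ F : Set G, F.Countable ∧ U * F = Set.univ) →
      (∀ U ∈ 𝓝 (1 : G), ∃ F : Set G, F.Countable ∧ F * U = Set.univ)) := by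
  classical
  intro h
  obtain ⟨F, hF, hFU⟩ := h GT (fun U hU => by
    obtain ⟨O, hOU, hO, h1⟩ := mem_nhds_iff.1 hU
    obtain ⟨B, C, hB, hC, hV⟩ := basic O hO h1
    choose f hf using push hB
    refine ⟨Set.range (fun l => ((f l)⁻¹ : GG)), Set.countable_range _,
      Set.eq_univ_of_forall fun (g : GG) => ?_⟩
    obtain ⟨k, hk, -⟩ := (g.2 C hC).2
    refine ⟨(g * f k : GG), hOU (hV ?_), _, ⟨k, rfl⟩, mul_inv_cancel_right g (f k)⟩
    rintro _ ⟨y, hy, rfl⟩
    obtain ⟨z, hz, e⟩ := hk (hf k ⟨y, hy, rfl⟩)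
    change g.1 ((f k).1 y) ∈ C
    rw [← e]
    simpa using hz) (V (N 0) (N 0)) ((V_open adm_N adm_N).mem_nhds (by
      change ((1 : GG) : Equiv.Perm Y) '' N 0 ⊆ N 0
      simp))
  have hN : (N 0).Countable := by
    refine (Set.countable_range (Sum.inl : ℤ → Y)).mono ?_
    rintro _ ⟨n, -, rfl⟩
    exact ⟨n, rfl⟩
  have hc : (⋃ f ∈ F, ((f : GG).1 : Equiv.Perm Y) '' N 0).Countable :=
    hF.biUnion fun f _ => hN.image _
  have hall : (⋃ f ∈ F, ((f : GG).1 : Equiv.Perm Y) '' N 0) = Set.univ := by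
    refine Set.eq_univ_of_forall fun y => ?_
    have : (show GT from (⟨_, swap_mem (Sum.inl 0) y⟩ : GG)) ∈ F * V (N 0) (N 0) := by
      rw [hFU]; trivial
    obtain ⟨f, hf, u, hu, e⟩ := this
    refine Set.mem_biUnion hf ⟨_, hu ⟨Sum.inl 0, ⟨0, le_rfl, rfl⟩, rfl⟩, ?_⟩
    have := congrArg (fun g : GG => g.1 (Sum.inl 0)) e
    simp only [Equiv.swap_apply_left] at this
    exact this
  rw [hall, Set.countable_univ_iff] at hc
  exact Cardinal.not_countable_real (Set.countable_univ_iff.2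
    (Sum.inr_injective (α := ℤ) (β := ℝ)).countable)

end Pool.Agent.S14180
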