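import Pool.Statements.S14230
import Pool.Agent.Lib.helper17.KDet

set_option autoImplicit false
open Pool Pool.MP_f54e59_gt

namespace Pool.Agent.S14230



/-- The negation of the preceding statement: For every class K of T0 spaces containing all sober spaces, any product of T0 spaces whose irreducible closed sets are K-determined (images have closure of a unique point in every K-space) again has all irreducible closed sets K-determined. -/
theorem result :
    ¬ (∀ K : (∀ (Y : Type) [TopologicalSpace Y], Prop),
      (∀ (Y : Type) [TopologicalSpace Y], K Y → T0Space Y) →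
      (∀ (Y : Type) [TopologicalSpace Y], T0Space Y → QuasiSober Y → K Y) →
      ∀ (I : Type) (X : I → Type) [∀ i, TopologicalSpace (X i)],
        (∀ i, T0Space (X i) ∧ ∀ A : Set (X i), IsIrreducible A → IsClosed A →
          ∀ (Y : Type) [TopologicalSpace Y], K Y → ∀ f : X i → Y, Continuous f →
            ∃! y : Y, closure (f '' A) = closure {y}) →
        ∀ A : Set (∀ i, X i), IsIrreducible A → IsClosed A →
          ∀ (Y : Type) [TopologicalSpace Y], K Y → ∀ f : (∀ i, X i) → Y, Continuous f →
            ∃! y : Y, closure (f '' A) = closure {y}) := by
  intro h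
  exact H17K.prod_not_det (h H17K.K0 (fun _ _ h => h.1) H17K.K0_sober ℕ H17K.W
    (fun i => ⟨inferInstance, H17K.W_det i⟩) Set.univ H17K.prod_irred isClosed_univ
    H17K.Y0 H17K.K0_Y0 H17K.jj H17K.jj_cont).exists

end Pool.Agent.S14230
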