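import Pool.Statements.S14237
import Pool.Agent.Lib.helper5.MonoMon

set_option autoImplicit false
open Pool Pool.MP_f624f5_gt

namespace Pool.Agent.S14237

/-- Every compact Hausdorff space in which disjoint families of nonempty open sets are countable (ccc) and which is monotonically monolithic, in Tkachuk's sense with well-ordered chain continuity, is metrizable. -/
theorem result :
    ∀ (X : Type) [TopologicalSpace X] [T2Space X] [CompactSpace X],
      (∀ F : Set (Set X), (∀ U ∈ F, IsOpen U ∧ U.Nonempty) → F.PairwiseDisjoint id → F.Countable) →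
      (∃ O : Set X → Set (Set X),
        (∀ A : Set X, Cardinal.mk ↥(O A) ≤ max (Cardinal.mk ↥A) Cardinal.aleph0) ∧
        (∀ A : Set X, ∀ x ∈ closure A, ∀ U : Set X, IsOpen U → x ∈ U →
            ∃ N ∈ O A, x ∈ N ∧ N ⊆ U) ∧
        (∀ A B : Set X, A ⊆ B → O A ⊆ O B) ∧
        (∀ (ι : Type) [LinearOrder ι] [WellFoundedLT ι] (A : ι → Set X),
            Monotone A → O (⋃ i, A i) = ⋃ i, O (A i))) →
      TopologicalSpace.MetrizableSpace X := by
  rintro X _ _ _ hc ⟨O, h1, h2, -, h4⟩
  have h0 : ∀ A : Set X, A.Countable → (O A).Countable := fun A hA =>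
    Cardinal.le_aleph0_iff_set_countable.1
      ((h1 A).trans (max_le (Cardinal.le_aleph0_iff_set_countable.2 hA) le_rfl))
  obtain ⟨U, a, b, c⟩ := H5MM.tree O (fun A hA => h0 A hA.countable) h2
    fun A hA => (h4 ℕ A hA).subset
  obtain ⟨S, s1, s2⟩ := H5MM.sep hc a b c
  exact H5MM.metr_of_net (h0 S s1) fun x => h2 S x (s2 x)

end Pool.Agent.S14237
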