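import Pool.Statements.S14257
import Pool.Agent.Lib.helper19.CongColor

set_option autoImplicit false
open Pool Pool.MP_f7c3cd_gt

namespace Pool.Agent.S14257


/-- Every proper system of at most continuum many congruences among at most continuum many (nonempty index set) sets has a solution: a partition of the hyperbolic plane where each congruence holds via some hyperbolic isometry. -/
theorem result :
    ∀ (I M : Type) (L R : M → Set I),
      Nonempty I →
      Cardinal.mk I ≤ Cardinal.continuum →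
      Cardinal.mk M ≤ Cardinal.continuum →
      (∀ i, (L i).Nonempty ∧ L i ≠ Set.univ ∧ (R i).Nonempty ∧ R i ≠ Set.univ) →
      ∃ A : I → Set UpperHalfPlane,
        Pairwise (fun j k => Disjoint (A j) (A k)) ∧
        (⋃ j, A j) = Set.univ ∧
        ∀ i, ∃ g : IsometryEquiv UpperHalfPlane UpperHalfPlane,
          g '' (⋃ j ∈ L i, A j) = ⋃ j ∈ R i, A j := by
  intro I M L R hI _ hM h
  suffices H : ∃ col : UpperHalfPlane → I, ∀ i, ∃ g : Matrix.SpecialLinearGroup (Fin 2) ℝ,
      ∀ x, col (g • x) ∈ R i ↔ col x ∈ L i by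
    obtain ⟨col, hcol⟩ := H
    refine ⟨fun j => {x | col x = j}, ?_, ?_, fun i => ?_⟩
    · intro j k hjk
      exact Set.disjoint_left.2 fun x h1 h2 => hjk ((show col x = j from h1).symm.trans h2)
    · exact Set.eq_univ_of_forall fun x => Set.mem_iUnion.2 ⟨col x, rfl⟩
    · obtain ⟨g, hg⟩ := hcol i
      refine ⟨IsometryEquiv.constSMul g, ?_⟩
      have e : ∀ T : Set I, (⋃ j ∈ T, {x | col x = j}) = {x | col x ∈ T} := by
        intro T; ext x; simp
      rw [e, e]
      ext y
      constructor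
      · rintro ⟨x, hx, rfl⟩
        exact (hg x).2 hx
      · intro hy
        refine ⟨g⁻¹ • y, ?_, by simp⟩
        have := hg (g⁻¹ • y)
        rw [smul_inv_smul] at this
        exact this.1 hy
  rcases isEmpty_or_nonempty M with hE | ⟨⟨i0⟩⟩
  · obtain ⟨j⟩ := hI
    exact ⟨fun _ => j, fun i => hE.elim i⟩
  obtain ⟨col, E, hE⟩ := Pool.Agent.Lib.helper19.CongColor.family_solve
    (Set.range L ∪ Set.range R)
    (by
      rintro _ (⟨i, rfl⟩ | ⟨i, rfl⟩)
      · exact ⟨(h i).1, Set.nonempty_compl.2 (h i).2.1⟩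
      · exact ⟨(h i).2.2.1, Set.nonempty_compl.2 (h i).2.2.2⟩)
    (L i0) (Or.inl ⟨i0, rfl⟩)
    (by
      refine le_trans (Cardinal.mk_union_le _ _) ?_
      refine le_trans (add_le_add (Cardinal.mk_range_le.trans hM) (Cardinal.mk_range_le.trans hM)) ?_
      rw [Cardinal.continuum_add_self])
  refine ⟨col, fun i => ?_⟩
  obtain ⟨g1, h1⟩ := hE (L i) (Or.inl ⟨i, rfl⟩)
  obtain ⟨g2, h2⟩ := hE (R i) (Or.inr ⟨i, rfl⟩)
  refine ⟨g2 * g1⁻¹, fun x => ?_⟩
  rw [mul_smul, h2, ← h1, smul_inv_smul]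


end Pool.Agent.S14257
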