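import Pool.Statements.S14275

set_option autoImplicit false
open Pool Pool.MP_faf39c_gt
open Set Filter Topology

namespace Pool.Agent.S14275

lemma tail_dvd (θ : (ℕ → ℤ) →+ ℤ) (x : ℕ → ℤ) (N : ℕ) (d : ℤ) (h : ∀ n, N ≤ n → d ∣ x n) :
    d ∣ θ x - ∑ i ∈ Finset.range N, x i * θ (Pi.single i 1) := by
  have : x = ∑ i ∈ Finset.range N, x i • Pi.single i (1 : ℤ) +
      d • fun n => if N ≤ n then x n / d else 0 := by
    funext n
    simp only [Pi.add_apply, Finset.sum_apply, Pi.smul_apply, Pi.single_apply, smul_eq_mul, mul_ite,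
      mul_one, mul_zero, Finset.sum_ite_eq, Finset.mem_range]
    by_cases e : N ≤ n
    · simp [e, not_lt.2 e, Int.mul_ediv_cancel' (h n e)]
    · simp [e, not_le.1 e]
  conv => enter [2, 1]; rw [this]
  simp only [map_add, map_sum, map_zsmul, smul_eq_mul, add_sub_cancel_left, dvd_mul_right]

lemma zero_of_dvd (a : ℤ) (p : ℕ) (hp : 1 < p) (h : ∀ n, (p : ℤ) ^ n ∣ a) : a = 0 :=
  Int.eq_zero_of_dvd_of_natAbs_lt_natAbs (h a.natAbs) (by
    rw [Int.natAbs_pow, Int.natAbs_natCast]
    exact Nat.lt_pow_self hp)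

lemma specker (θ : (ℕ → ℤ) →+ ℤ) : ∃ N, ∀ x : ℕ → ℤ, (∀ n < N, x n = 0) → θ x = 0 := by
  let S : ℕ → ℤ × ℤ := fun n => Nat.rec (0, 1) (fun n s =>
    (s.1 + s.2 * θ (Pi.single n 1), s.2 * (|s.1 + s.2 * θ (Pi.single n 1)| + n + 1))) n
  have pos : ∀ n, 0 < (S n).2 := by
    intro n
    induction n with
    | zero => exact one_pos
    | succ n ih => exact mul_pos ih (by positivity)
  have sum : ∀ n, (S n).1 = ∑ i ∈ Finset.range n, (S i).2 * θ (Pi.single i 1) := by
    intro n
    induction n with
    | zero => rfl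
    | succ n ih => rw [Finset.sum_range_succ, ← ih]
  have dv : ∀ m n, m ≤ n → (S m).2 ∣ (S n).2 := by
    intro m n h
    induction n, h using Nat.le_induction with
    | base => rfl
    | succ n _ ih => exact ih.mul_right _
  set a := θ fun n => (S n).2 with ha
  have eq : ∀ n, a.natAbs ≤ n → a = (S (n + 1)).1 := by
    intro n hn
    have h1 := tail_dvd θ (fun n => (S n).2) (n + 1) _ (dv (n + 1))
    rw [← sum, ← ha] at h1
    have h2 : |(S (n + 1)).1| + n + 1 ≤ (S (n + 1)).2 :=
      le_mul_of_one_le_left (by positivity) (pos n)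
    have h3 := Int.eq_zero_of_abs_lt_dvd h1 (by
      have := abs_sub a (S (n + 1)).1
      have : |a| ≤ n := by rw [Int.abs_eq_natAbs]; exact_mod_cast hn
      omega)
    omega
  have z : ∀ n, a.natAbs + 1 ≤ n → θ (Pi.single n 1) = 0 := by
    intro n hn
    obtain ⟨m, rfl⟩ : ∃ m, n = m + 1 := ⟨n - 1, by omega⟩
    have h1 := eq m (by omega)
    have h2 := eq (m + 1) (by omega)
    have h3 : (S (m + 1 + 1)).1 = (S (m + 1)).1 + (S (m + 1)).2 * θ (Pi.single (m + 1) 1) := rfl
    rw [← h1, ← h2] at h3
    exact (mul_eq_zero.1 (left_eq_add.1 h3)).resolve_left (pos (m + 1)).ne'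
  refine ⟨a.natAbs + 1, fun x hx => ?_⟩
  have key : ∀ (p : ℕ) (c : ℕ → ℤ), 1 < p → θ (fun n => x n * c n * p ^ n) = 0 := by
    intro p c hp
    refine zero_of_dvd _ p hp fun n => ?_
    have := tail_dvd θ (fun n => x n * c n * p ^ n) n (p ^ n)
      fun m hm => (pow_dvd_pow _ hm).mul_left _
    rwa [Finset.sum_eq_zero, sub_zero] at this
    intro i _
    by_cases e : i < a.natAbs + 1
    · simp [hx i e]
    · simp [z i (not_lt.1 e)]
  have co : ∀ n : ℕ, ∃ u v : ℤ, u * ((2 : ℕ) : ℤ) ^ n + v * ((3 : ℕ) : ℤ) ^ n = 1 := fun n =>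
    (Nat.isCoprime_iff_coprime.2 (by norm_num : Nat.Coprime 2 3)).pow
  choose u v huv using co
  have : x = (fun n => x n * u n * ((2 : ℕ) : ℤ) ^ n) + fun n => x n * v n * ((3 : ℕ) : ℤ) ^ n := by
    funext n
    simp only [Pi.add_apply]
    linear_combination (-x n) * huv n
  rw [this, map_add, key 2 u (by norm_num), key 3 v (by norm_num), add_zero]

abbrev X : Type := ℕ → Bool

open Classical in
lemma los0 (ψ : (X → ℤ) →+ ℤ) (h : ∀ t, ψ (Pi.single t 1) = 0) (x : X → ℤ) : ψ x = 0 := by
  by_contra hx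
  let cut : X → ℕ → X → ℤ := fun t n s => if ∀ i < n, s i = t i then x s else 0
  have step : ∀ (n : ℕ) (t : {t // ψ (cut t n) ≠ 0}), ∃ t' : {t // ψ (cut t (n + 1)) ≠ 0},
      ∀ i < n, t'.1 i = t.1 i := by
    rintro n ⟨t, ht⟩
    have : cut t n = cut (Function.update t n true) (n + 1) + cut (Function.update t n false) (n + 1) := by
      funext s
      have : ∀ b, (∀ i < n + 1, s i = Function.update t n b i) ↔ (∀ i < n, s i = t i) ∧ s n = b := by
        intro b
        rw [Nat.forall_lt_succ_right, Function.update_self]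
        exact and_congr_left' (forall₂_congr fun i hi => by rw [Function.update_of_ne hi.ne])
      simp only [cut, Pi.add_apply, this]
      by_cases e : ∀ i < n, s i = t i
      · cases s n <;> simp [eq_true e]
      · simp [eq_false e]
    rw [this, map_add] at ht
    by_cases e : ψ (cut (Function.update t n true) (n + 1)) = 0
    · exact ⟨⟨Function.update t n false, fun e' => ht (by rw [e, e', add_zero])⟩,
        fun i hi => Function.update_of_ne hi.ne _ _⟩
    · exact ⟨⟨_, e⟩, fun i hi => Function.update_of_ne hi.ne _ _⟩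
  choose F hF using step
  let A : ∀ n, {t // ψ (cut t n) ≠ 0} := fun n => Nat.rec ⟨fun _ => true, by simpa [cut] using hx⟩ F n
  let t : X := fun i => (A (i + 1)).1 i
  have ht : ∀ n, ∀ i < n, (A n).1 i = t i := by
    intro n
    induction n with
    | zero => simp
    | succ n ih =>
      intro i hi
      rcases Nat.lt_succ_iff_lt_or_eq.1 hi with h | rfl
      · exact (hF n (A n) i h).trans (ih i h)
      · rfl
  let L : (ℕ → ℤ) →+ (X → ℤ) :=
    { toFun := fun c s => if h : ∃ i, s i ≠ t i then c (Nat.find h) * x s else 0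
      map_zero' := by funext s; simp
      map_add' := fun c d => by
        funext s
        by_cases e : ∃ i, s i ≠ t i
        · simp only [dif_pos e, Pi.add_apply, add_mul]
        · simp only [dif_neg e, Pi.add_apply, add_zero] }
  obtain ⟨N, hN⟩ := specker (ψ.comp L)
  have h1 := hN (fun n => if N ≤ n then 1 else 0) fun n hn => if_neg (not_le.2 hn)
  have h2 : cut (A N).1 N = L (fun n => if N ≤ n then 1 else 0) + x t • Pi.single t 1 := by
    funext s
    have e0 : (∀ i < N, s i = (A N).1 i) ↔ ∀ i < N, s i = t i :=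
      forall₂_congr fun i hi => by rw [ht N i hi]
    simp only [cut, e0, L, AddMonoidHom.coe_mk, ZeroHom.coe_mk, Pi.add_apply, Pi.smul_apply]
    by_cases e : ∃ i, s i ≠ t i
    · have : s ≠ t := fun h => by simp [h] at e
      simp only [dif_pos e, Nat.le_find_iff, not_not, Pi.single_eq_of_ne this]
      split_ifs <;> simp
    · have : s = t := funext fun i => by simpa using not_exists.1 e i
      simp [this]
  refine (A N).2 ?_
  rw [h2, map_add, map_zsmul, h, smul_zero, add_zero]
  exact h1

lemma los (φ : (X → ℤ) →+ ℤ) : Continuous φ := by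
  classical
  have fin : {t | φ (Pi.single t 1) ≠ 0}.Finite := by
    by_contra h
    let e := Set.Infinite.natEmbedding _ h
    have inj : Function.Injective fun n => (e n).1 := Subtype.val_injective.comp e.injective
    let L : (ℕ → ℤ) →+ (X → ℤ) :=
      { toFun := fun c => Function.extend (fun n => (e n).1) c 0
        map_zero' := by funext s; simp [Function.extend_def]
        map_add' := fun c d => by
          funext s
          simp only [Function.extend_def, Pi.add_apply]
          split_ifs <;> simp }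
    obtain ⟨N, hN⟩ := specker (φ.comp L)
    refine (e N).2 (Eq.trans ?_ (hN (Pi.single N 1) fun n hn => Pi.single_eq_of_ne hn.ne _))
    refine congrArg φ (funext fun s => ?_)
    by_cases hs : ∃ n, (e n).1 = s
    · obtain ⟨n, rfl⟩ := hs
      simp only [L, AddMonoidHom.coe_mk, ZeroHom.coe_mk, inj.extend_apply, Pi.single_apply]
      simp [inj.eq_iff, Subtype.val_inj]
    · simp only [L, AddMonoidHom.coe_mk, ZeroHom.coe_mk, Function.extend_apply' _ _ _ hs]
      exact Pi.single_eq_of_ne (fun h => hs ⟨N, h.symm⟩) _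
  let χ : (X → ℤ) →+ ℤ :=
    { toFun := fun x => ∑ t ∈ fin.toFinset, x t * φ (Pi.single t 1)
      map_zero' := by simp
      map_add' := fun c d => by simp [add_mul, Finset.sum_add_distrib] }
  have : ∀ x, φ x = ∑ t ∈ fin.toFinset, x t * φ (Pi.single t 1) := fun x =>
    sub_eq_zero.1 (los0 (φ - χ) (fun t => by
      simp only [AddMonoidHom.sub_apply, χ, AddMonoidHom.coe_mk, ZeroHom.coe_mk, Pi.single_apply,
        ite_mul, one_mul, zero_mul, Finset.sum_ite_eq', Finite.mem_toFinset, mem_setOf_eq]
      split_ifs with h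
      · simp
      · simpa using h) x)
  rw [show (φ : (X → ℤ) → ℤ) = _ from funext this]
  fun_prop

lemma dense : DenseRange fun (p : Σ N : ℕ, ((Fin N → Bool) → ℤ)) (s : X) => p.2 fun i => s i := by
  classical
  intro f
  rw [mem_closure_iff]
  intro U hU hf
  obtain ⟨I, u, hu, hI⟩ := isOpen_pi_iff.1 hU f hf
  have : ∀ᶠ N in atTop, ∀ s ∈ I, ∀ s' ∈ I, (∀ i < N, s i = s' i) → s = s' := by
    simp only [Finset.eventually_all]
    intro s _ s' _
    by_cases e : s = s'
    · simp [e]
    · obtain ⟨i, hi⟩ := Function.ne_iff.1 e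
      filter_upwards [eventually_gt_atTop i] with N hN h using absurd (h i hN) hi
  obtain ⟨N, hN⟩ := this.exists
  have inj : Function.Injective fun (s : I) (i : Fin N) => s.1 i := fun s s' h =>
    Subtype.ext (hN _ s.2 _ s'.2 fun i hi => congrFun h ⟨i, hi⟩)
  refine ⟨_, hI fun s hs => ?_, ⟨N, Function.extend (fun (s : I) (i : Fin N) => s.1 i) (fun s => f s) 0⟩, rfl⟩
  have := inj.extend_apply (fun s => f s) 0 ⟨s, hs⟩
  simp only at this ⊢
  rw [this]
  exact (hu s hs).2

theorem result :
    ∃ T : (G : Type) → [AddCommGroup G] → TopologicalSpace G,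
      (∀ (G : Type) [AddCommGroup G], @IsTopologicalAddGroup G (T G) _) ∧
      (∀ (G H : Type) [AddCommGroup G] [AddCommGroup H] (f : G →+ H),
          @Continuous G H (T G) (T H) f) ∧
      ∃ (G : Type) (_ : AddCommGroup G), Infinite G ∧ @T2Space G (T G) ∧
        ∃ D : Set G, @Dense G (T G) D ∧
          (2 : Cardinal) ^ Cardinal.mk ↥D < Cardinal.mk G := by
  refine ⟨fun G _ => ⨅ φ : G →+ ℤ, TopologicalSpace.induced φ inferInstance, fun G _ =>
    topologicalAddGroup_iInf fun φ => topologicalAddGroup_induced φ, fun G H _ _ f =>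
    continuous_iInf_rng.2 fun φ => continuous_induced_rng.2
      (continuous_iInf_dom (i := φ.comp f) continuous_induced_dom), X → ℤ, inferInstance,
    inferInstance, ?_, range fun (p : Σ N : ℕ, ((Fin N → Bool) → ℤ)) (s : X) => p.2 fun i => s i,
    ?_, ?_⟩
  · letI : TopologicalSpace (X → ℤ) := ⨅ φ : (X → ℤ) →+ ℤ, TopologicalSpace.induced φ inferInstance
    refine ⟨fun x y h => ?_⟩
    obtain ⟨s, hs⟩ := Function.ne_iff.1 h
    exact separated_by_continuous (f := Pi.evalAddMonoidHom (fun _ : X => ℤ) s)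
      (continuous_iInf_dom (i := Pi.evalAddMonoidHom (fun _ : X => ℤ) s) continuous_induced_dom) hs
  · intro x
    exact closure.mono (le_iInf fun φ => continuous_iff_le_induced.1 (los φ)) (dense x)
  · calc (2 : Cardinal) ^ _ ≤ 2 ^ Cardinal.aleph0 :=
          Cardinal.power_le_power_left two_ne_zero (countable_range _).le_aleph0
      _ < 2 ^ (2 ^ Cardinal.aleph0) := Cardinal.cantor _
      _ ≤ _ := by
        simp only [Cardinal.mk_pi, Cardinal.prod_const, Cardinal.lift_id, Cardinal.mk_bool,
          Cardinal.mk_nat, Cardinal.mk_int]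
        exact Cardinal.power_le_power_right (Cardinal.nat_lt_aleph0 2).le

end Pool.Agent.S14275
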