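import Pool.Statements.S14325
import Pool.Agent.Lib.helper23.UdC

set_option autoImplicit false
open Pool Pool.MP_0447a2_lc

namespace Pool.Agent.S14325

/-- For a monic irreducible integer P whose p>1 roots of modulus >1 are all real, in any order, and 0<a<p, the set of ξ in R^a making the sum of ξ_i α_i^n u.d. mod 1 is Π⁰₃ and every Π⁰₃ subset of Baire space continuously reduces to it. -/
theorem result :
    ∀ (P : Polynomial ℤ), P.Monic → Irreducible P →
      (∀ z : ℂ, Polynomial.aeval z P = 0 → 1 < ‖z‖ → z.im = 0) →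
      ∀ (p : ℕ) (α : Fin p → ℝ), Function.Injective α →
        Set.range α = {x : ℝ | Polynomial.aeval x P = 0 ∧ 1 < |x|} →
        1 < p →
        ∀ (a : ℕ), 0 < a → ∀ (hap : a < p),
          ∀ A : Set (Fin a → ℝ),
            A = {ξ : Fin a → ℝ | ∀ s t : ℝ, 0 ≤ s → s ≤ t → t ≤ 1 →
              Filter.Tendsto
                (fun N : ℕ =>
                  (((Finset.range N).filter (fun n =>
                      s ≤ Int.fract (∑ i : Fin a, ξ i * α (Fin.castLE hap.le i) ^ n) ∧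
                      Int.fract (∑ i : Fin a, ξ i * α (Fin.castLE hap.le i) ^ n) < t)).card : ℝ)
                    / (N : ℝ))
                Filter.atTop (nhds (t - s))} →
            (∃ F : ℕ → ℕ → Set (Fin a → ℝ), (∀ i j, IsClosed (F i j)) ∧ A = ⋂ i, ⋃ j, F i j) ∧
            (∀ B : Set (ℕ → ℕ),
              (∃ G : ℕ → ℕ → Set (ℕ → ℕ), (∀ i j, IsClosed (G i j)) ∧ B = ⋂ i, ⋃ j, G i j) →
              ∃ f : (ℕ → ℕ) → (Fin a → ℝ), Continuous f ∧ B = f ⁻¹' A) := by
  intro P _ _ _ p α _ hr _ a ha hap A hA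
  subst hA
  refine ⟨Pool.Agent.Lib.helper23.UdA.pi03
    (fun (ξ : Fin a → ℝ) n => ∑ i : Fin a, ξ i * α (Fin.castLE hap.le i) ^ n)
    (fun n => by fun_prop), ?_⟩
  rintro B ⟨G, hG, rfl⟩
  have hα : 1 < |α (Fin.castLE hap.le ⟨0, ha⟩)| :=
    (hr ▸ Set.mem_range_self (f := α) (Fin.castLE hap.le ⟨0, ha⟩)).2
  obtain ⟨f, f1, f2, f3⟩ := Pool.Agent.Lib.helper23.UdC.hard' Pool.Agent.Lib.helper23.UdC.baire
    G hG (fun _ => α (Fin.castLE hap.le ⟨0, ha⟩)) (fun _ => hα)
  have e : ∀ (t : ℝ) (n : ℕ), ∑ i : Fin a, (Pi.single (⟨0, ha⟩ : Fin a) t : Fin a → ℝ) i *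
      α (Fin.castLE hap.le i) ^ n = t * α (Fin.castLE hap.le ⟨0, ha⟩) ^ n := by
    intro t n
    rw [Finset.sum_eq_single ⟨0, ha⟩]
    · rw [Pi.single_eq_same]
    · intro i _ hi; rw [Pi.single_eq_of_ne hi, zero_mul]
    · intro h; exact absurd (Finset.mem_univ _) h
  refine ⟨fun y => Pi.single (⟨0, ha⟩ : Fin a) (f y), (continuous_single _).comp f1,
    Set.ext fun y => ?_⟩
  simp only [Set.mem_preimage, Set.mem_ofPred_eq, e]
  exact ⟨fun h => f2 y h 0, fun h => f3 y h⟩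

end Pool.Agent.S14325
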