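import Pool.Statements.S14335
import Pool.Agent.Lib.helper13.LinkB

set_option autoImplicit false
open Pool Pool.MP_064548_lc

namespace Pool.Agent.S14335

/-- For every finite field K there are n ≥ 1 and a polynomial equation over K[W,Z] defining α(f,g) with g in K[Z]^n, such that every f has some g with α(f,g) and each g is related to only finitely many f. -/
theorem result :
    ∀ (K : Type) [Field K] [Finite K],
      ∃ n : ℕ, 0 < n ∧ ∃ k : ℕ,
        ∃ P : MvPolynomial (Option (Fin n) ⊕ Fin k) (MvPolynomial (Fin 2) K),
          (∀ f : MvPolynomial (Fin 2) K, ∃ g : Fin n → Polynomial K,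
            ∃ y : Fin k → MvPolynomial (Fin 2) K,
              MvPolynomial.eval
                (Sum.elim
                  (fun o : Option (Fin n) =>
                    Option.elim o f
                      (fun i => Polynomial.aeval (MvPolynomial.X 1 : MvPolynomial (Fin 2) K) (g i)))
                  y) P = 0) ∧
          (∀ g : Fin n → Polynomial K,
            {f : MvPolynomial (Fin 2) K |
              ∃ y : Fin k → MvPolynomial (Fin 2) K,
                MvPolynomial.eval
                  (Sum.elim
                    (fun o : Option (Fin n) =>
                      Option.elim o f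
                        (fun i => Polynomial.aeval (MvPolynomial.X 1 : MvPolynomial (Fin 2) K) (g i)))
                    y) P = 0}.Finite) := by
  intro K _ _
  letI : Fintype K := Fintype.ofFinite K
  obtain ⟨k, P, hP⟩ := H13Link.dioph (K := K) (Fintype.card K)
  refine ⟨1, one_pos, k, P, ?_, ?_⟩
  · intro f
    obtain ⟨g, hg⟩ := H13Link.sys_total f
    exact ⟨fun _ => g, (hP _).mpr hg⟩
  · intro g
    refine (H13Link.sys_finite (g 0)).subset ?_
    intro f hf
    rw [Set.mem_setOf_eq] at hf ⊢
    have h2 := (hP (fun o : Option (Fin 1) => Option.elim o f
      (fun i => Polynomial.aeval (MvPolynomial.X 1 : MvPolynomial (Fin 2) K) (g i)))).mp hf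
    simpa only [Option.elim_none, Option.elim_some] using h2

end Pool.Agent.S14335
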