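import Pool.Statements.S14339
import Pool.Agent.Lib.H8.RF

set_option autoImplicit false
open Pool Pool.MP_07717f_lc Pool.Agent.Lib.H8 Arith CList Qm Kc Om Gen RF Classical

namespace Pool.Agent.S14339

/-- There is a finitely generated, residually finite group whose word problem (on some finite generating set) is co-c.e., but which has no injective homomorphism into the permutations of ℕ taking every element to a computable permutation. -/
theorem result :
    ∃ (G : Type) (_ : Group G),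
      Group.FG G ∧
      (∀ g : G, g ≠ 1 → ∃ H : Subgroup G, H.index ≠ 0 ∧ g ∉ H) ∧
      (∃ (n : ℕ) (π : FreeGroup (Fin n) →* G), Function.Surjective π ∧
        REPred (fun w : List (Fin n × Bool) => π (FreeGroup.mk w) ≠ 1)) ∧
      ¬ ∃ f : G →* Equiv.Perm ℕ, Function.Injective f ∧
          ∀ g : G, Computable (⇑(f g) : ℕ → ℕ) := by
  obtain ⟨B, b, eB⟩ := sig_nf (CeAlg.w_sig (α := ℕ) Computable.id Computable.id)
  obtain ⟨m, m1, m2⟩ : ∃ m : ℕ → ℕ, (∀ j s, B (j, s) → (∀ t < s, ¬ B (j, t)) → m j = 2 * s + 3) ∧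
      ∀ j, (∀ s, ¬ B (j, s)) → m j = 2 :=
    ⟨fun j => if h : ∃ s, B (j, s) then 2 * Nat.find h + 3 else 2, fun j s a c => by
      dsimp only
      rw [dif_pos ⟨s, a⟩, (Nat.find_eq_iff _).2 ⟨a, c⟩], fun j a => dif_neg (not_exists.2 a)⟩
  have m3 : ∀ j, (∃ s, B (j, s) ∧ (∀ t < s, ¬ B (j, t)) ∧ m j = 2 * s + 3) ∨
      ((∀ s, ¬ B (j, s)) ∧ m j = 2) := fun j => by
    by_cases h : ∃ s, B (j, s)
    · exact Or.inl ⟨_, Nat.find_spec h, fun _ => Nat.find_min h,
        m1 _ _ (Nat.find_spec h) fun _ => Nat.find_min h⟩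
    · exact Or.inr ⟨not_exists.1 h, m2 _ (not_exists.1 h)⟩
  have m4 : ∀ j, Fact (1 < m j) := fun j => ⟨(m3 j).elim (fun ⟨_, h⟩ => by omega) (by omega)⟩
  let ρ := MonoidHom.pi fun j => rho (3 ^ (j + 1)) (3 ^ j) (ZMod (m j))
  have r : ∀ w, ρ.rangeRestrict w = 1 ↔ ∀ j, rho (3 ^ (j + 1)) (3 ^ j) (ZMod (m j)) w = 1 :=
    fun w => Subtype.ext_iff.trans funext_iff
  refine ⟨ρ.range, inferInstance, inferInstance, fun g h => ?_,
    ⟨2, ρ.rangeRestrict, ρ.rangeRestrict_surjective, ?_⟩, fun ⟨f, f1, f2⟩ => ?_⟩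
  · obtain ⟨j, k⟩ := Function.ne_iff.1 (mt Subtype.ext h)
    exact ⟨((Pi.evalMonoidHom _ j).comp ρ.range.subtype).ker, Subgroup.FiniteIndex.index_ne_zero, k⟩
  · have f := @Computable.fst
    have s := @Computable.snd
    have k := fun {α : Type} [Primcodable α] (c : ℕ) => Computable.const (α := α) c
    have j : Computable fun q : List (Fin 2 × Bool) × ℕ × ℕ × ℕ => q.2.1 := f.comp s
    have i : Computable fun q : List (Fin 2 × Bool) × ℕ × ℕ × ℕ => q.2.2.1 := f.comp (s.comp s)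
    have n := p3.comp (Computable.succ.comp j)
    have l := Computable.list_cons.comp ((Computable.const false).pair i) (fold_p.to_comp.comp
      ((n.pair (p3.comp j)).pair (f.pair (Computable.list_cons.comp
        ((Computable.const true).pair i) (Computable.const [])))))
    obtain ⟨P, hP, eP⟩ : ∃ P : Bool → List (Fin 2 × Bool) × ℕ × ℕ × ℕ → ℕ, (∀ b, Computable (P b)) ∧
        ∀ b w j i r, P b (w, j, i, r) = ct (3 ^ (j + 1)) r b
          ((false, i) :: w.foldl (st (3 ^ (j + 1)) (3 ^ j)) [(true, i)]) :=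
      ⟨_, fun b => ct_c b n (s.comp (s.comp s)) l, fun _ _ _ _ _ => rfl⟩
    have c : ComputablePred fun q : (List (Fin 2 × Bool) × ℕ × ℕ × ℕ) × ℕ => B (q.1.2.1, q.2) :=
      cp b ((j.comp f).pair s)
    have d : ComputablePred fun q : ((List (Fin 2 × Bool) × ℕ × ℕ × ℕ) × ℕ) × ℕ =>
        ¬ B (q.1.1.2.1, q.2) := (cp c ((f.comp f).pair s)).not
    have d : ComputablePred fun q : (List (Fin 2 × Bool) × ℕ × ℕ × ℕ) × ℕ =>
        ∀ t < q.2, ¬ B (q.1.2.1, t) := cball s d
    have o := ad (ml (k 2) (s (α := List (Fin 2 × Bool) × ℕ × ℕ × ℕ))) (k 3)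
    have e : ComputablePred fun q : List (Fin 2 × Bool) × ℕ × ℕ × ℕ =>
        ∀ t < P true q + P false q, ¬ B (q.2.1, t) := cball (ad (hP _) (hP _)) c.not
    have md2 := Primrec.nat_mod.to_comp
    have t := ((Sig.ex (n := 0) (CeAlg.cs (cand c (cand d (ceq (md2.comp ((hP true).comp f) o)
      (md2.comp ((hP false).comp f) o)).not)))).or
      (CeAlg.cs (cand e (ceq (md (hP true) 2) (md (hP false) 2)).not))).exd
    refine sig_re (t.of_eq fun w => ?_)
    simp only [ne_eq, r, triv (nz' _), not_forall, ← eP]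
    refine ⟨fun ⟨⟨j, i, r⟩, h⟩ => ⟨j, i, r, ?_⟩, fun ⟨j, i, r, h⟩ => ⟨⟨j, i, r⟩, ?_⟩⟩
    · rcases h with ⟨s, u, v, h⟩ | ⟨u, h⟩
      · rwa [m1 j s u v]
      rcases m3 j with ⟨s, v, -, x⟩ | ⟨-, x⟩
      · have := not_lt.1 fun l => u s l v
        rw [Nat.mod_eq_of_lt (by omega), Nat.mod_eq_of_lt (by omega)]
        exact fun y => h (by rw [y])
      · rwa [x]
    · exact (m3 j).imp (fun ⟨s, u, v, x⟩ => ⟨s, u, v, x ▸ h⟩) fun ⟨u, x⟩ =>
        ⟨fun t _ => u t, by rwa [x] at h⟩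
  have a := z_c (f := f.comp ρ.rangeRestrict) fun g => f2 _
  have s : Computable fun q : (ℕ × ℕ) × ℕ => q.1.2 := Computable.snd.comp Computable.fst
  have t := a.comp (s.pair Computable.snd)
  obtain ⟨c, -, e⟩ := CeAlg.w_idx (Sig.ex (CeAlg.cs (cand (ceq t Computable.snd).not
    (ceq (a.comp (s.pair t)) Computable.snd))))
  replace e := ((eB _).symm.trans (e 0 (c 0)))
  simp only [MonoidHom.comp_apply] at e
  obtain ⟨x, hx⟩ : ∃ x, x = f (ρ.rangeRestrict (z (c 0))) := ⟨_, rfl⟩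
  have p : x ^ m (c 0) = 1 := by
    rw [hx, ← map_pow, ← map_pow, (r _).2 fun j => ?_, map_one]
    rw [map_pow, rho_z]
    split_ifs with h
    · subst h
      ext v i
      simp [el_pow, el_ap]
    · exact one_pow _
  rw [← hx] at e
  rcases m3 (c 0) with ⟨s, u, -, v⟩ | ⟨u, v⟩
  · obtain ⟨n, n1, n2⟩ := e.1 ⟨s, u⟩
    have := Equiv.Perm.pow_apply_eq_self_of_apply_eq_self (f := x * x) n2 (s + 2)
    rw [← sq, ← pow_mul, show 2 * (s + 2) = m (c 0) + 1 by omega, pow_succ, p, one_mul] at this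
    exact n1 this
  refine not_exists.2 u (e.2 (by_contra fun h => ?_))
  have : x = 1 := Equiv.ext fun n => by_contra fun k =>
    h ⟨n, k, by rw [← Equiv.Perm.mul_apply, ← sq, ← v, p]; rfl⟩
  have := (r _).1 (f1 (hx.symm.trans (this.trans f.map_one.symm))) (c 0)
  rw [rho_z, if_pos rfl] at this
  have := congrFun (DFunLike.congr_fun this 1) (-(3 ^ c 0 : ℕ))
  simp only [el_ap, true_and, Equiv.Perm.one_apply, add_eq_left, Pi.one_apply, mul_one,
    ite_eq_right_iff, one_ne_zero, imp_false, not_not] at this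
  refine nz (j := c 0) (a := 3 ^ c 0 + 3 ^ c 0) (by positivity)
    (by rw [pow_succ]; have : 0 < 3 ^ c 0 := by positivity
        omega) ?_
  rw [Nat.cast_add, ← neg_eq_iff_add_eq_zero.1 this]

end Pool.Agent.S14339
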