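import Pool.Statements.S14350
import Pool.Agent.Lib.H8.Kc3

set_option autoImplicit false
open Pool Pool.MP_09b933_lc Pool.Agent.Lib.H8 Kc Arith Qm

namespace Pool.Agent.S14350

/-- The negation of the preceding statement: For some optimal plain machine U and optimal prefix-free machine V, there is a partial computable ψ and a constant c such that for every string x, ψ(x, K(x)) is defined and lies within c of C(x). -/
theorem result :
    ¬ (∃ U V : List Bool →. List Bool,
      Partrec U ∧
      (∀ M : List Bool →. List Bool, Partrec M →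
        ∃ c : ℕ, ∀ (x p : List Bool), x ∈ M p →
          ∃ q : List Bool, x ∈ U q ∧ q.length ≤ p.length + c) ∧
      Partrec V ∧
      (∀ p q : List Bool, (V p).Dom → (V q).Dom → p <+: q → p = q) ∧
      (∀ M : List Bool →. List Bool, Partrec M →
        (∀ p q : List Bool, (M p).Dom → (M q).Dom → p <+: q → p = q) →
        ∃ c : ℕ, ∀ (x p : List Bool), x ∈ M p →
          ∃ q : List Bool, x ∈ V q ∧ q.length ≤ p.length + c) ∧
      ∃ ψ : List Bool × ℕ →. ℕ, Partrec ψ ∧
        ∃ c : ℕ, ∀ x : List Bool,
          ∃ y : ℕ, y ∈ ψ (x, sInf (List.length '' {p : List Bool | x ∈ V p})) ∧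
            sInf (List.length '' {p : List Bool | x ∈ U p}) ≤ y + c ∧
            y ≤ sInf (List.length '' {p : List Bool | x ∈ U p}) + c) := by
  rintro ⟨W, V, w1, w2, v1, v2, v3, ψ, hψ, c, hc⟩
  have f := @Computable.fst
  have s := @Computable.snd
  have hL : Sig 1 ((List Bool × ℕ × ℕ) × ℕ) fun z =>
      z.2 ∈ ψ (z.1.1, z.1.2.1) ∧ z.1.2.2 ≤ z.2 + c ∧ z.2 ≤ z.1.2.2 + c :=
    ((graph hψ).comp (((f.comp f).pair (f.comp (s.comp f))).pair s)).and
      ((CeAlg.cs (cle (s.comp (s.comp f)) (ad s (Computable.const c)))).and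
        (CeAlg.cs (cle s (ad (s.comp (s.comp f)) (Computable.const c)))))
  obtain ⟨x, hx⟩ := core w1 (fun M hM => (w2 M hM).imp fun c h p z k => (h z p k).imp
    fun _ => And.symm) v1 v2 (fun M hM pf => (v3 M hM pf).imp fun c h p z k => (h z p k).imp
      fun _ => And.symm) (sig_ex hL) (D := 2 * c + 1) fun x k T hT => by
    rcases T.eq_empty_or_nonempty with rfl | ⟨v, hv⟩
    · simp
    obtain ⟨y, hy, -⟩ := hT v hv
    refine (Finset.card_le_card (t := Finset.Icc (y - c) (y + c)) fun w hw => ?_).trans
      (by rw [Nat.card_Icc]; omega)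
    obtain ⟨y', a, b⟩ := hT w hw
    obtain rfl := Part.mem_unique hy a
    dsimp only at b
    rw [Finset.mem_Icc]
    omega
  have e : ∀ U : List Bool →. List Bool,
      sInf (List.length '' {p : List Bool | x ∈ U p}) = cx U x := fun U =>
    congrArg sInf (Set.ext fun n => exists_congr fun _ => and_comm)
  have := hc x
  rw [e, e] at this
  exact hx this

end Pool.Agent.S14350
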