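import Pool.Statements.S14403
import Pool.Agent.Lib.H8.Two2

set_option autoImplicit false
open Pool Pool.MP_14681b_lc Pool.Agent.Lib.H8 Kc Arith CList Qm Rnd Two

namespace Pool.Agent.S14403

/-- For any optimal plain machine and any two sequences that escape every Martin-Löf test relative to the halting problem (given as Sigma-2 tests), some constant d makes infinitely many n have both length-n prefixes of plain complexity at least n minus d. -/
theorem result :
  ∀ U : List Bool →. List Bool,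
    Partrec U →
    (∀ M : List Bool →. List Bool, Partrec M →
      ∃ c : ℕ, ∀ p σ : List Bool, σ ∈ M p →
        ∃ q : List Bool, σ ∈ U q ∧ q.length ≤ p.length + c) →
    ∀ X Y : ℕ → Bool,
      (¬ ∃ R : ℕ × List Bool × ℕ × ℕ → Bool, Computable R ∧
          (∀ k : ℕ, ∀ S : Finset (List Bool),
            (∀ σ ∈ S, ∃ a : ℕ, ∀ b : ℕ, R (k, σ, a, b) = true) →
            ∑ σ ∈ S, ((1:ℝ)/2) ^ σ.length ≤ ((1:ℝ)/2) ^ k) ∧
          ∀ k : ℕ, ∃ n : ℕ, ∃ a : ℕ, ∀ b : ℕ,
            R (k, List.ofFn (fun i : Fin n => X i), a, b) = true) →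
      (¬ ∃ R : ℕ × List Bool × ℕ × ℕ → Bool, Computable R ∧
          (∀ k : ℕ, ∀ S : Finset (List Bool),
            (∀ σ ∈ S, ∃ a : ℕ, ∀ b : ℕ, R (k, σ, a, b) = true) →
            ∑ σ ∈ S, ((1:ℝ)/2) ^ σ.length ≤ ((1:ℝ)/2) ^ k) ∧
          ∀ k : ℕ, ∃ n : ℕ, ∃ a : ℕ, ∀ b : ℕ,
            R (k, List.ofFn (fun i : Fin n => Y i), a, b) = true) →
      ∃ d : ℕ, ∃ᶠ n in Filter.atTop,
        (∀ q : List Bool, List.ofFn (fun i : Fin n => X i) ∈ U q → n ≤ q.length + d) ∧
        (∀ q : List Bool, List.ofFn (fun i : Fin n => Y i) ∈ U q → n ≤ q.length + d) := by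
  classical
  intro U hU opt X Y hX hY
  have sur := Opt.sur (W := U) fun M hM => (opt M hM).imp fun c h p z k =>
    (h p z k).imp fun _ => And.symm
  have e : ∀ (Z : ℕ → Bool) n, (List.ofFn fun i : Fin n => Z i) = pr Z n := fun Z n =>
    List.ext_getElem (by simp) (by simp [pr])
  simp only [e] at hX hY ⊢
  have f := @Computable.fst
  have s := @Computable.snd
  have l : Computable fun z : ℕ × List Bool => z.2.length := Computable.list_length.comp s
  obtain ⟨A, eA⟩ : ∃ A : ℕ × List Bool → Prop, ∀ z, A z ↔ cx U z.2 + z.1 < z.2.length :=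
    ⟨_, fun _ => Iff.rfl⟩
  have h1 : Sig 1 (ℕ × List Bool) A :=
    ((CeAlg.cs (clt f l)).and ((cx_sig hU sur).comp (s.pair (sb l (Computable.succ.comp f))))).of_eq
      fun z => by rw [eA]; dsimp only; omega
  have hA : ∀ d n, ((Finset.range (2 ^ n)).filter fun u =>
      A (d, pr u.testBit n)).card * 2 ^ d ≤ 2 ^ n := fun d n => by
    simp only [eA, pr_len]
    rcases le_or_gt n d with z | z
    · rw [Finset.filter_false_of_mem fun _ _ => by omega]
      simp
    have := cx_card sur (((Finset.range (2 ^ n)).filter fun u =>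
      cx U (pr u.testBit n) + d < n).image fun u => pr u.testBit n) (n - d - 1) fun x hx => by
        obtain ⟨u, hu, rfl⟩ := Finset.mem_image.1 hx
        have := (Finset.mem_filter.1 hu).2
        omega
    rw [Finset.card_image_of_injOn fun u a v b => bits_inj (Finset.mem_range.1
      (Finset.mem_filter.1 a).1) (Finset.mem_range.1 (Finset.mem_filter.1 b).1)] at this
    refine (Nat.mul_le_mul_right _ this).trans_eq ?_
    rw [← pow_add]
    congr
    omega
  have c : Computable fun z : (ℕ × List Bool) × ℕ => (z.1.1 + 1 + z.2 + 3, z.1.2) :=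
    (ad (ad (Computable.succ.comp (f.comp f)) s) (Computable.const 3)).pair (s.comp f)
  obtain ⟨B, ⟨B', hB, b1⟩, b2⟩ := ((T_sig hA h1).comp c).ex
  have hR : Computable fun z : ℕ × List Bool × ℕ × ℕ =>
      decide (¬ B' (((z.1, z.2.1), z.2.2.1), z.2.2.2)) :=
    (cp hB (((f.pair (f.comp s)).pair (f.comp (s.comp s))).pair (s.comp (s.comp s)))).decide
  have b3 : ∀ k σ, (∃ a, ∀ b, decide (¬ B' (((k, σ), a), b)) = true) ↔
      ∃ i, T A (k + 1 + i + 3) σ := fun k σ => by
    refine Iff.trans (exists_congr fun a => ?_) (b2 (k, σ)).symm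
    simpa using (not_congr (b1 ((k, σ), a))).symm
  have key : ∀ Z : ℕ → Bool, (¬ ∃ R : ℕ × List Bool × ℕ × ℕ → Bool, Computable R ∧
      (∀ k : ℕ, ∀ S : Finset (List Bool), (∀ σ ∈ S, ∃ a : ℕ, ∀ b : ℕ, R (k, σ, a, b) = true) →
        ∑ σ ∈ S, ((1:ℝ)/2) ^ σ.length ≤ ((1:ℝ)/2) ^ k) ∧
      ∀ k : ℕ, ∃ n : ℕ, ∃ a : ℕ, ∀ b : ℕ, R (k, pr Z n, a, b) = true) →
      ∃ k, ∀ i n, ¬ T A (k + 1 + i + 3) (pr Z n) := fun Z hZ => by
    by_contra! z
    refine hZ ⟨_, hR, fun k S hS => ?_, fun k => ?_⟩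
    · simp only [b3] at hS
      choose! i hi using hS
      have : ∑ σ ∈ S, (2⁻¹ : ENNReal) ^ σ.length ≤ 2⁻¹ ^ k := by
        rw [← Finset.sum_fiberwise_of_maps_to fun σ h => Finset.mem_image_of_mem i h]
        refine (Finset.sum_le_sum fun j _ => weight hA (k + 1 + j) _ fun σ h => ?_).trans
          ((ENNReal.sum_le_tsum _).trans_eq ?_)
        · obtain ⟨a, rfl⟩ := Finset.mem_filter.1 h
          exact hi σ a
        · simp only [pow_add, ENNReal.tsum_mul_left, ENNReal.tsum_geometric,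
            ENNReal.one_sub_inv_two, inv_inv, pow_one]
          rw [mul_assoc, ENNReal.inv_mul_cancel (by simp) (by simp), mul_one]
      have := ENNReal.toReal_mono (by simp) this
      rw [ENNReal.toReal_sum fun _ _ => by simp] at this
      simpa using this
    · obtain ⟨i, n, h⟩ := z k
      exact ⟨n, (b3 _ _).2 ⟨i, h⟩⟩
  obtain ⟨a, ha⟩ := key X hX
  obtain ⟨b, hb⟩ := key Y hY
  refine ⟨a + 1 + b + 3, Filter.frequently_atTop.2 fun m => ?_⟩
  by_contra! z
  refine (capture hA (d := a + 1 + b + 3) (m := m) (x := X) (y := Y) fun n hn => ?_).elim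
    (fun ⟨n, h⟩ => ha b n h) fun ⟨n, h⟩ => hb a n (by rwa [show b + 1 + a = a + 1 + b by omega])
  simp only [eA, pr_len]
  by_contra! y
  obtain ⟨q, q1, q2⟩ := z n hn fun q h => by
    have := cx_le h
    omega
  have := cx_le q1
  omega

end Pool.Agent.S14403
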