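import Pool.Statements.S14416
import Pool.Agent.Lib.helper5.Soc

set_option autoImplicit false
open Pool Pool.MP_16f0b8_lc

namespace Pool.Agent.S14416

/-- The negation of the preceding statement: For all n,k ≥ 2: every k-coloring of (n+1)-sets of naturals has some k-coloring of n-sets such that every infinite homogeneous set for the latter Turing-computes an infinite homogeneous set for the former. -/
theorem result :
    ¬ (∀ n k : ℕ, 2 ≤ n → 2 ≤ k →
      ∀ c : Finset ℕ → Fin k, ∃ d : Finset ℕ → Fin k,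
        ∀ H : Set ℕ, H.Infinite →
          (∃ i : Fin k, ∀ s : Finset ℕ, (↑s : Set ℕ) ⊆ H → s.card = n → d s = i) →
          ∃ G : Set ℕ, G.Infinite ∧
            (∃ j : Fin k, ∀ s : Finset ℕ, (↑s : Set ℕ) ⊆ G → s.card = n + 1 → c s = j) ∧
            TuringReducible
              (fun m : ℕ => Part.some (Set.indicator G (fun _ => (1 : ℕ)) m))
              (fun m : ℕ => Part.some (Set.indicator H (fun _ => (1 : ℕ)) m))) := by
  intro h
  obtain ⟨f, hf⟩ := H5F.soc2 2 1
  obtain ⟨d, hd⟩ := h 2 2 le_rfl le_rfl fun s => if f s then 1 else 0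
  obtain ⟨H, h1, h2, h3⟩ := hf d
  obtain ⟨K, k1, ⟨j, k2⟩, k3⟩ := hd H h1 h2
  obtain ⟨e, rfl⟩ := H5F.exists_G_ind k3
  refine h3 e k1 ⟨decide (j = 1), fun s a b => ?_⟩
  rw [← k2 s a b]
  cases f s <;> simp

end Pool.Agent.S14416
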