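import Pool.Statements.S14417
-- import your own Pool.Agent.* helpers here

set_option autoImplicit false
open scoped NNReal ENNReal
open Pool Pool.MP_173f50_lc

namespace Pool.Agent.S14417
open MeasureTheory Filter Topology Finset

noncomputable def phi (a : ℕ → Bool) : ℝ :=
  Real.ofDigits (b := 3) (fun i => if a i then 2 else 0)

lemma phi_close {a b : ℕ → Bool} {n : ℕ} (h : ∀ i < n, a i = b i) :
    |phi a - phi b| ≤ ((3 : ℝ) ^ n)⁻¹ := by
  have := Real.abs_ofDigits_sub_ofDigits_le (b := 3) (x := fun i => if a i then 2 else 0)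
    (y := fun i => if b i then 2 else 0) (n := n) (fun i hi => by rw [h i hi])
  simpa [phi] using this

lemma phi_sep {a b : ℕ → Bool} {n : ℕ} (h : |phi a - phi b| < ((3 : ℝ) ^ n)⁻¹) :
    ∀ i < n, a i = b i := by
  classical
  by_contra hc
  push Not at hc
  have hex : ∃ i, a i ≠ b i := hc.imp fun i hi => hi.2
  have hmin : ∀ j < Nat.find hex, a j = b j := fun j hj => by simpa using Nat.find_min hex hj
  have hlt : Nat.find hex < n := by
    obtain ⟨i, hi, hne⟩ := hc
    exact lt_of_le_of_lt (Nat.find_min' hex hne) hi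
  have hne := Nat.find_spec hex
  generalize Nat.find hex = k at *
  have h1 : ((3 : ℝ) ^ n)⁻¹ ≤ ((3 : ℝ) ^ (k + 1))⁻¹ := by
    apply inv_anti₀ (by positivity)
    exact pow_le_pow_right₀ (by norm_num) hlt
  unfold phi at h
  rw [Real.ofDigits_eq_sum_add_ofDigits _ (k + 1),
    Real.ofDigits_eq_sum_add_ofDigits (fun i => if b i then (2 : Fin 3) else 0) (k + 1),
    sum_range_succ, sum_range_succ] at h
  have e : ∑ i ∈ range k, Real.ofDigitsTerm (fun i => if a i then (2 : Fin 3) else 0) i =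
      ∑ i ∈ range k, Real.ofDigitsTerm (fun i => if b i then (2 : Fin 3) else 0) i :=
    sum_congr rfl fun i hi => by simp [Real.ofDigitsTerm, hmin i (mem_range.1 hi)]
  rw [e] at h
  have a1 := Real.ofDigits_nonneg (fun i => if a (i + (k + 1)) then (2 : Fin 3) else 0)
  have a2 := Real.ofDigits_le_one (fun i => if a (i + (k + 1)) then (2 : Fin 3) else 0)
  have b1 := Real.ofDigits_nonneg (fun i => if b (i + (k + 1)) then (2 : Fin 3) else 0)
  have b2 := Real.ofDigits_le_one (fun i => if b (i + (k + 1)) then (2 : Fin 3) else 0)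
  have hp : (0 : ℝ) < ((3 : ℝ) ^ (k + 1))⁻¹ := by positivity
  rw [abs_lt] at h
  simp only [Real.ofDigitsTerm, Nat.cast_ofNat] at h
  generalize ((3 : ℝ) ^ (k + 1))⁻¹ = p at *
  cases ha : a k <;> cases hb : b k <;> simp [ha, hb] at h hne <;> nlinarith [h.1, h.2]

open Classical in
noncomputable def low (D : Set ℕ) (n : ℕ) : Finset ℕ := (range n).filter (· ∈ D)

noncomputable def term (D : Set ℕ) (r : ℝ≥0) (n : ℕ) : ℝ≥0 :=
  if r < (3 ^ n)⁻¹ then (2 ^ (low D n).card)⁻¹ else 1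

noncomputable def gauge (D : Set ℕ) (r : ℝ≥0) : ℝ≥0 := ⨅ n, term D r n

lemma gauge_le (D : Set ℕ) (r : ℝ≥0) (n : ℕ) : gauge D r ≤ term D r n :=
  ciInf_le (OrderBot.bddBelow _) n

lemma inv_le1 (k : ℕ) : ((2 : ℝ≥0) ^ k)⁻¹ ≤ 1 := inv_le_one_of_one_le₀ (one_le_pow₀ one_le_two)

lemma gauge_mono (D : Set ℕ) : Monotone (gauge D) := by
  intro r s h
  refine le_ciInf fun n => (gauge_le D r n).trans ?_
  unfold term
  split_ifs with h1 h2 h2
  · exact le_rfl
  · exact inv_le1 _
  · exact absurd (lt_of_le_of_lt h h2) h1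
  · exact le_rfl

lemma gauge_pos (D : Set ℕ) (r : ℝ≥0) (hr : 0 < r) : 0 < gauge D r := by
  obtain ⟨N, hN⟩ := NNReal.exists_pow_lt_of_lt_one hr (by norm_num : (3 : ℝ≥0)⁻¹ < 1)
  refine lt_of_lt_of_le (by positivity : (0 : ℝ≥0) < (2 ^ N)⁻¹) (le_ciInf fun n => ?_)
  unfold term
  split_ifs with h
  · have h1 := hN.trans h
    rw [inv_pow, inv_lt_inv₀ (by positivity) (by positivity)] at h1
    have h2 : n < N := (pow_lt_pow_iff_right₀ (by norm_num)).1 h1
    have h3 : (low D n).card ≤ n := by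
      classical
      simpa using card_le_card (show low D n ⊆ range n from filter_subset _ _)
    apply inv_anti₀ (by positivity)
    exact pow_le_pow_right₀ one_le_two (by omega)
  · exact inv_le1 _

lemma gauge_cont (D : Set ℕ) (x : ℝ≥0) : ContinuousWithinAt (gauge D) (Set.Ici x) x := by
  refine tendsto_order.2 ⟨fun a ha => ?_, fun b hb => ?_⟩
  · filter_upwards [self_mem_nhdsWithin] with y hy using lt_of_lt_of_le ha (gauge_mono D hy)
  · obtain ⟨n, hn⟩ := exists_lt_of_ciInf_lt hb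
    by_cases h : x < (3 ^ n)⁻¹
    · filter_upwards [nhdsWithin_le_nhds (Iio_mem_nhds h)] with y hy
      refine lt_of_le_of_lt (gauge_le D y n) ?_
      rw [term, if_pos h] at hn
      rwa [term, if_pos (show y < (3 ^ n)⁻¹ from hy)]
    · rw [term, if_neg h] at hn
      refine Eventually.of_forall fun y => lt_of_le_of_lt ((gauge_le D y n).trans ?_) hn
      unfold term
      split_ifs
      · exact inv_le1 _
      · exact le_rfl

lemma gauge_zero (D : Set ℕ) (h : ∀ M, ∃ n, M ≤ (low D n).card) : gauge D 0 = 0 := by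
  by_contra hc
  obtain ⟨N, hN⟩ := NNReal.exists_pow_lt_of_lt_one (pos_iff_ne_zero.2 hc)
    (by norm_num : (2 : ℝ≥0)⁻¹ < 1)
  obtain ⟨n, hn⟩ := h N
  have := gauge_le D 0 n
  rw [term, if_pos (by positivity)] at this
  refine absurd (lt_of_lt_of_le hN this) (not_lt.2 ?_)
  rw [inv_pow]
  apply inv_anti₀ (by positivity)
  exact pow_le_pow_right₀ one_le_two hn

def KK (D : Set ℕ) : Set ℝ := phi '' {a | ∀ i, i ∉ D → a i = false}

noncomputable def HH (D : Set ℕ) : OuterMeasure ℝ :=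
  OuterMeasure.mkMetric (fun r : ℝ≥0∞ => ((gauge D r.toNNReal : ℝ≥0) : ℝ≥0∞))

noncomputable def coin : Measure Bool := (2 : ℝ≥0∞)⁻¹ • Measure.count

instance : IsProbabilityMeasure coin := ⟨by
  rw [coin, Measure.smul_apply, Measure.count_univ, smul_eq_mul]
  simp [ENNReal.inv_mul_cancel]⟩

lemma HH_pos (D : Set ℕ) : 0 < HH D (KK D) := by
  classical
  let μ : Measure (ℕ → Bool) := Measure.infinitePi (fun _ => coin)
  let ψ : (ℕ → Bool) → ℝ := fun a => phi (fun i => a i && decide (i ∈ D))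
  have key : OuterMeasure.map ψ μ.toOuterMeasure ≤ HH D := by
    refine OuterMeasure.le_mkMetric _ _ 1 one_pos fun s hs => ?_
    rw [OuterMeasure.map_apply, gauge, ENNReal.coe_iInf]
    refine le_iInf fun n => ?_
    unfold term
    split_ifs with h
    swap
    · exact prob_le_one
    rcases (ψ ⁻¹' s).eq_empty_or_nonempty with e | ⟨a0, ha0⟩
    · simp [e]
    have hsub : ψ ⁻¹' s ⊆ Set.pi (low D n) (fun i => {a0 i}) := by
      intro a ha i hi
      have hi' := mem_filter.1 (show i ∈ low D n from hi)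
      have h1 : edist (ψ a) (ψ a0) ≤ Metric.ediam s := Metric.edist_le_ediam_of_mem ha ha0
      have h2 : |ψ a - ψ a0| < ((3 : ℝ) ^ n)⁻¹ := by
        have hf : Metric.ediam s ≠ ⊤ := ne_top_of_le_ne_top ENNReal.one_ne_top hs
        have h3 := ENNReal.toNNReal_mono hf h1
        have h4 : ((edist (ψ a) (ψ a0)).toNNReal : ℝ) < (((3 : ℝ≥0) ^ n)⁻¹ : ℝ≥0) :=
          NNReal.coe_lt_coe.2 (lt_of_le_of_lt h3 h)
        rw [edist_nndist, ENNReal.toNNReal_coe, coe_nndist, Real.dist_eq] at h4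
        simpa using h4
      have := phi_sep h2 i (mem_range.1 hi'.1)
      simpa [hi'.2] using this
    refine (measure_mono hsub).trans ?_
    change μ _ ≤ _
    rw [Measure.infinitePi_pi _ (fun i _ => MeasurableSet.singleton _)]
    simp [coin, ENNReal.inv_pow]
  refine lt_of_lt_of_le ?_ (key (KK D))
  rw [OuterMeasure.map_apply]
  have : ψ ⁻¹' KK D = Set.univ :=
    Set.eq_univ_of_forall fun a => ⟨_, fun i hi => by simp [hi], rfl⟩
  rw [this]
  change 0 < μ Set.univ
  simp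

lemma HH_null (D E : Set ℕ) (nn : ℕ → ℕ) (h1 : ∀ j, j ≤ nn j)
    (h2 : ∀ j, (low E (nn j + 1)).card + j ≤ (low D (nn j)).card) : HH D (KK E) = 0 := by
  classical
  rw [HH, OuterMeasure.coe_mkMetric]
  let t : ∀ j, (low E (nn j + 1)).powerset → Set ℝ := fun j T =>
    phi '' {a | ∀ i < nn j + 1, a i = decide (i ∈ T.1)}
  have hd : ∀ j T, Metric.ediam (t j T) ≤ (((3 : ℝ≥0) ^ (nn j + 1))⁻¹ : ℝ≥0) := by
    intro j T
    refine Metric.ediam_le ?_
    rintro _ ⟨a, ha, rfl⟩ _ ⟨b, hb, rfl⟩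
    rw [edist_nndist, ENNReal.coe_le_coe, ← NNReal.coe_le_coe, coe_nndist, Real.dist_eq]
    simpa using phi_close (n := nn j + 1) fun i hi => by rw [ha i hi, hb i hi]
  have lim : ∀ c : ℝ≥0∞, c < 1 → Tendsto (fun j : ℕ => c ^ j) atTop (𝓝 0) := fun c hc =>
    ENNReal.tendsto_pow_atTop_nhds_zero_of_lt_one hc
  have := Measure.mkMetric_le_liminf_sum (KK E) (l := atTop) (fun j => (3 : ℝ≥0∞)⁻¹ ^ j)
    (lim _ (by norm_num)) t (Eventually.of_forall fun j T => (hd j T).trans (by
      rw [ENNReal.coe_inv (by positivity), ENNReal.coe_pow, ENNReal.inv_pow]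
      exact pow_le_pow_of_le_one (by simp) (by norm_num) (by have := h1 j; omega)))
    (Eventually.of_forall fun j => by
      rintro _ ⟨a, ha, rfl⟩
      refine Set.mem_iUnion.2 ⟨⟨(low E (nn j + 1)).filter (fun i => a i),
        mem_powerset.2 (filter_subset _ _)⟩, a, fun i hi => ?_, rfl⟩
      by_cases hi' : i ∈ E
      · simp [low, hi, hi']
      · simp [low, hi', ha i hi'])
    (fun r : ℝ≥0∞ => ((gauge D r.toNNReal : ℝ≥0) : ℝ≥0∞))
  refine le_antisymm (this.trans ?_) (by simp)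
  rw [← (lim 2⁻¹ (by norm_num)).liminf_eq]
  refine liminf_le_liminf (Eventually.of_forall fun j => ?_)
  have hb : ∀ T, ((gauge D (Metric.ediam (t j T)).toNNReal : ℝ≥0) : ℝ≥0∞) ≤
      (2 : ℝ≥0∞)⁻¹ ^ (low D (nn j)).card := by
    intro T
    have h3 := ENNReal.toNNReal_mono ENNReal.coe_ne_top (hd j T)
    rw [ENNReal.toNNReal_coe] at h3
    have h4 : (Metric.ediam (t j T)).toNNReal < (3 ^ nn j)⁻¹ := by
      refine lt_of_le_of_lt h3 ?_
      rw [inv_lt_inv₀ (by positivity) (by positivity)]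
      exact pow_lt_pow_right₀ (by norm_num) (by omega)
    have h5 := gauge_le D (Metric.ediam (t j T)).toNNReal (nn j)
    rw [term, if_pos h4, ← ENNReal.coe_le_coe, ENNReal.coe_inv (by positivity), ENNReal.coe_pow,
      ENNReal.inv_pow] at h5
    exact h5
  refine (sum_le_card_nsmul _ _ _ fun T _ => hb T).trans ?_
  rw [card_univ, Fintype.card_coe, card_powerset, nsmul_eq_mul]
  refine (mul_le_mul_right (pow_le_pow_of_le_one (by simp) (by norm_num) (h2 j)) _).trans ?_
  rw [pow_add, ← mul_assoc, Nat.cast_pow, ← mul_pow, Nat.cast_ofNat,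
    ENNReal.mul_inv_cancel (by norm_num) (by norm_num), one_pow, one_mul]

def DD (X : Set ℕ) : Set ℕ := {i | (Nat.unpair (Nat.log 4 i)).1 ∈ X}

lemma DD_count (X : Set ℕ) (m j : ℕ) (hm : m ∈ X) :
    (low (DD {m}ᶜ) (4 ^ (Nat.pair m j + 1) - 1 + 1)).card + j ≤
      (low (DD X) (4 ^ (Nat.pair m j + 1) - 1)).card := by
  have hj : j ≤ Nat.pair m j := Nat.right_le_pair m j
  have hu : (Nat.unpair (Nat.pair m j)).1 = m := by simp
  generalize Nat.pair m j = k at *
  have hk : k < 4 ^ k := Nat.lt_pow_self (by norm_num)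
  have hl : ∀ i, 4 ^ k ≤ i → i < 4 ^ (k + 1) → Nat.log 4 i = k := fun i h1 h2 =>
    Nat.log_eq_of_pow_le_of_lt_pow h1 h2
  have a1 : low (DD {m}ᶜ) (4 ^ (k + 1) - 1 + 1) ⊆ range (4 ^ k) := by
    intro i hi
    simp only [low, mem_filter, mem_range, DD, Set.mem_ofPred_eq, Set.mem_compl_iff,
      Set.mem_singleton_iff] at hi
    by_contra hc
    rw [mem_range, not_lt] at hc
    rw [hl i hc (by omega)] at hi
    exact hi.2 hu
  have a2 : Ico (4 ^ k) (4 ^ (k + 1) - 1) ⊆ low (DD X) (4 ^ (k + 1) - 1) := by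
    intro i hi
    rw [mem_Ico] at hi
    simp only [low, mem_filter, mem_range, DD, Set.mem_ofPred_eq]
    rw [hl i hi.1 (by omega), hu]
    exact ⟨hi.2, hm⟩
  have b1 := card_le_card a1
  have b2 := card_le_card a2
  rw [card_range] at b1
  rw [Nat.card_Ico, pow_succ] at b2
  rw [pow_succ] at b1 ⊢
  omega

def XX (β : Set ℕ) : Set ℕ := {m | (m % 2 = 0 ↔ m / 2 ∈ β)}

lemma XX_ne {α β : Set ℕ} (h : α ≠ β) : ∃ m, m ∈ XX β ∧ m ∉ XX α := by
  by_contra hc
  push Not at hc
  apply h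
  ext n
  have h1 := hc (2 * n)
  have h2 := hc (2 * n + 1)
  have e1 : (2 * n + 1) / 2 = n := by omega
  have e2 : (2 * n + 1) % 2 = 1 := by omega
  simp [XX, e1, e2] at h1 h2
  tauto

lemma XX_nonempty (β : Set ℕ) : ∃ m, m ∈ XX β := by
  by_cases h : 0 ∈ β
  · exact ⟨0, by simp [XX, h]⟩
  · exact ⟨1, by simp [XX, h]⟩

def AA (S : Set (Set ℕ)) : Set ℝ := ⋃ α ∈ S, KK (DD (XX α))

lemma AA_iff (S : Set (Set ℕ)) (β : Set ℕ) : 0 < HH (DD (XX β)) (AA S) ↔ β ∈ S := by
  constructor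
  · intro h
    by_contra hc
    have : AA S ⊆ ⋃ m : XX β, KK (DD {m.1}ᶜ) := by
      intro x hx
      obtain ⟨α, hα, a, ha, rfl⟩ := Set.mem_iUnion₂.1 hx
      obtain ⟨m, h1, h2⟩ := XX_ne (α := α) (β := β) (fun e => hc (e ▸ hα))
      refine Set.mem_iUnion.2 ⟨⟨m, h1⟩, a, fun i hi => ha i fun hi' => hi ?_, rfl⟩
      intro e
      have e' : (Nat.unpair (Nat.log 4 i)).1 = m := e
      exact h2 (e' ▸ hi')
    refine absurd (measure_mono_null this (measure_iUnion_null fun m => ?_)) h.ne'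
    refine HH_null _ _ (fun j => 4 ^ (Nat.pair m j + 1) - 1) (fun j => ?_)
      (fun j => DD_count _ _ j m.2)
    have h1 : j ≤ Nat.pair m j := Nat.right_le_pair m j
    have h2 : Nat.pair m j + 1 < 4 ^ (Nat.pair m j + 1) := Nat.lt_pow_self (by norm_num)
    omega
  · intro h
    exact lt_of_lt_of_le (HH_pos _) (measure_mono (Set.subset_biUnion_of_mem
      (u := fun α => KK (DD (XX α))) h))

/-- The family of sets {gauge functions f (nondecreasing, right-continuous, f(0)=0, positive off 0) with positive f-Hausdorff measure on A}, as A ranges over subsets of the reals, has cardinality 2 to the continuum. -/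
theorem result :
    Cardinal.mk
      (Set.range (fun A : Set ℝ =>
        {f : ℝ≥0 → ℝ≥0 |
          Monotone f ∧ f 0 = 0 ∧ (∀ r : ℝ≥0, 0 < r → 0 < f r) ∧
          (∀ x : ℝ≥0, ContinuousWithinAt f (Set.Ici x) x) ∧
          0 < (MeasureTheory.OuterMeasure.mkMetric
                (fun r : ℝ≥0∞ => ((f r.toNNReal : ℝ≥0) : ℝ≥0∞)) :
                MeasureTheory.OuterMeasure ℝ) A}))
      = 2 ^ Cardinal.continuum := by
  apply le_antisymm
  · refine Cardinal.mk_range_le.trans ?_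
    rw [Cardinal.mk_set, Cardinal.mk_real]
  · have e : Cardinal.mk (Set (Set ℕ)) = 2 ^ Cardinal.continuum := by simp
    rw [← e]
    refine Cardinal.mk_le_of_injective (f := fun S => ⟨_, AA S, rfl⟩) fun S S' h => ?_
    ext β
    have h1 := Set.ext_iff.1 (congrArg Subtype.val h) (gauge (DD (XX β)))
    have h0 : gauge (DD (XX β)) 0 = 0 := gauge_zero _ fun M => by
      obtain ⟨m, hm⟩ := XX_nonempty β
      exact ⟨_, le_trans (Nat.le_add_left _ _) (DD_count _ m M hm)⟩
    rw [← AA_iff, ← AA_iff]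
    exact ⟨fun k => (h1.1 ⟨gauge_mono _, h0, gauge_pos _, gauge_cont _, k⟩).2.2.2.2,
      fun k => (h1.2 ⟨gauge_mono _, h0, gauge_pos _, gauge_cont _, k⟩).2.2.2.2⟩

end Pool.Agent.S14417
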