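import Pool.Statements.S14430
import Pool.Agent.Lib.Helper33.Lfp

set_option autoImplicit false
open Pool Pool.MP_1a0bc6_lc Pool.Agent.Lib.Helper33.Lfp

namespace Pool.Agent.S14430

/-- States: 0 start, 1 and 3 owned by player one, 2 owned by player two, 4 5 6 absorbing. -/
noncomputable def dl (s : Fin 7) (a b : Fin 2) : Fin 7 → ℝ :=
  match s.val with
  | 0 => ![0, 0, 1 / 2, 1 / 2, 0, 0, 0]
  | 1 => if a = 0 then ![0, 0, 0, 0, 1 / 4, 5 / 8, 1 / 8] else ![0, 0, 1, 0, 0, 0, 0]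
  | 2 => if b = 0 then ![0, 0, 0, 1 / 2, 1 / 2, 0, 0] else ![0, 1, 0, 0, 0, 0, 0]
  | 3 => if a = 0 then ![0, 1, 0, 0, 0, 0, 0] else ![0, 0, 0, 0, 1 / 2, 0, 1 / 2]
  | 4 => ![0, 0, 0, 0, 1, 0, 0]
  | 5 => ![0, 0, 0, 0, 0, 1, 0]
  | _ => ![0, 0, 0, 0, 0, 0, 1]

lemma dl_nonneg (s : Fin 7) (a b : Fin 2) (t : Fin 7) : 0 ≤ dl s a b t := by
  fin_cases s <;> fin_cases a <;> fin_cases b <;> fin_cases t <;> simp [dl] <;> norm_num

lemma dl_sum (s : Fin 7) (a b : Fin 2) : ∑ t, dl s a b t = 1 := by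
  fin_cases s <;> fin_cases a <;> fin_cases b <;> simp [dl, Fin.sum_univ_seven] <;> norm_num

noncomputable def P (σ τ : Fin 7 → Fin 2 → ℝ) (s t : Fin 7) : ℝ :=
  ∑ a, ∑ b, σ s a * τ s b * dl s a b t

noncomputable def val (T : Set (Fin 7)) (σ τ : Fin 7 → Fin 2 → ℝ) (s : Fin 7) : ℝ :=
  ⨆ n : ℕ, (op T (P σ τ))^[n] 0 s

lemma step (σ τ : Fin 7 → Fin 2 → ℝ) (h2 : ∀ s, ∑ a, σ s a = 1) (h4 : ∀ s, ∑ b, τ s b = 1)
    (y : Fin 7 → ℝ) :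
    ∑ t, P σ τ 0 t * y t = (y 2 + y 3) / 2 ∧
    ∑ t, P σ τ 1 t * y t = σ 1 0 * (y 4 / 4 + 5 * y 5 / 8 + y 6 / 8) + (1 - σ 1 0) * y 2 ∧
    ∑ t, P σ τ 2 t * y t = τ 2 0 * ((y 3 + y 4) / 2) + (1 - τ 2 0) * y 1 ∧
    ∑ t, P σ τ 3 t * y t = σ 3 0 * y 1 + (1 - σ 3 0) * ((y 4 + y 6) / 2) ∧
    ∑ t, P σ τ 4 t * y t = y 4 ∧ ∑ t, P σ τ 5 t * y t = y 5 ∧ ∑ t, P σ τ 6 t * y t = y 6 := by
  have e1 : ∀ s, σ s 1 = 1 - σ s 0 := fun s => by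
    have := h2 s; rw [Fin.sum_univ_two] at this; linarith
  have e2 : ∀ s, τ s 1 = 1 - τ s 0 := fun s => by
    have := h4 s; rw [Fin.sum_univ_two] at this; linarith
  refine ⟨?_, ?_, ?_, ?_, ?_, ?_, ?_⟩ <;>
    simp [P, dl, Fin.sum_univ_two, Fin.sum_univ_seven, e1, e2] <;> ring

lemma facts (T : Set (Fin 7)) (hT : ∀ s ∈ T, s = 4 ∨ s = 5) (h4T : (4 : Fin 7) ∈ T)
    (σ τ : Fin 7 → Fin 2 → ℝ) (h1 : ∀ s a, 0 ≤ σ s a) (h2 : ∀ s, ∑ a, σ s a = 1)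
    (h3 : ∀ s b, 0 ≤ τ s b) (h4 : ∀ s, ∑ b, τ s b = 1) :
    val T σ τ 0 = (val T σ τ 2 + val T σ τ 3) / 2 ∧
    val T σ τ 1 = σ 1 0 * (1 / 4 + 5 * val T σ τ 5 / 8) + (1 - σ 1 0) * val T σ τ 2 ∧
    val T σ τ 2 = τ 2 0 * ((val T σ τ 3 + 1) / 2) + (1 - τ 2 0) * val T σ τ 1 ∧
    val T σ τ 3 = σ 3 0 * val T σ τ 1 + (1 - σ 3 0) * (1 / 2) ∧
    ((5 : Fin 7) ∈ T → val T σ τ 5 = 1) ∧ ((5 : Fin 7) ∉ T → val T σ τ 5 = 0) ∧
    (∀ s, 0 ≤ val T σ τ s) ∧ (∀ s, val T σ τ s ≤ 1) ∧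
    (σ 1 0 = 0 → τ 2 0 = 0 → val T σ τ 1 = 0) := by
  have hP : ∀ s t, 0 ≤ P σ τ s t := fun s t => Finset.sum_nonneg fun a _ =>
    Finset.sum_nonneg fun b _ => mul_nonneg (mul_nonneg (h1 s a) (h3 s b)) (dl_nonneg s a b t)
  have hP1 : ∀ s, ∑ t, P σ τ s t = 1 := fun s => by
    have := step σ τ h2 h4 (fun _ => 1)
    simp only [mul_one] at this
    obtain ⟨a0, a1, a2, a3, a4, a5, a6⟩ := this
    fin_cases s
    · exact a0.trans (by norm_num)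
    · exact a1.trans (by ring)
    · exact a2.trans (by ring)
    · exact a3.trans (by ring)
    · exact a4
    · exact a5
    · exact a6
  obtain ⟨r1, r2, r3, r4, r5⟩ := reach T (P σ τ) hP hP1 (val T σ τ) fun _ => rfl
  have n : ∀ s : Fin 7, s ≠ 4 → s ≠ 5 → s ∉ T := fun s a b h => (hT s h).elim a b
  have v4 := r1 4 h4T
  have hx0 : 0 ≤ σ 1 0 := h1 1 0
  have hx1 : σ 1 0 ≤ 1 := by have := h2 1; rw [Fin.sum_univ_two] at this; linarith [h1 1 1]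
  have hy0 : 0 ≤ τ 2 0 := h3 2 0
  have hy1 : τ 2 0 ≤ 1 := by have := h4 2; rw [Fin.sum_univ_two] at this; linarith [h3 2 1]
  have hm0 : 0 ≤ σ 3 0 := h1 3 0
  have hm1 : σ 3 0 ≤ 1 := by have := h2 3; rw [Fin.sum_univ_two] at this; linarith [h1 3 1]
  have sup : ∀ y : Fin 7 → ℝ, (∀ s, 0 ≤ y s) → y 4 = 1 → ((5 : Fin 7) ∈ T → y 5 = 1) →
      (y 2 + y 3) / 2 ≤ y 0 →
      σ 1 0 * (y 4 / 4 + 5 * y 5 / 8 + y 6 / 8) + (1 - σ 1 0) * y 2 ≤ y 1 →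
      τ 2 0 * ((y 3 + y 4) / 2) + (1 - τ 2 0) * y 1 ≤ y 2 →
      σ 3 0 * y 1 + (1 - σ 3 0) * ((y 4 + y 6) / 2) ≤ y 3 → ∀ s, val T σ τ s ≤ y s := by
    intro y hy y4 y5 b0 b1 b2 b3
    obtain ⟨a0, a1, a2, a3, a4, a5, a6⟩ := step σ τ h2 h4 y
    refine r5 y hy (fun s hs => ?_) (fun s _ => ?_)
    · rcases hT s hs with rfl | rfl
      · exact y4.ge
      · exact (y5 hs).ge
    · fin_cases s
      · exact a0.trans_le b0
      · exact a1.trans_le b1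
      · exact a2.trans_le b2
      · exact a3.trans_le b3
      · exact a4.le
      · exact a5.le
      · exact a6.le
  have v6 : val T σ τ 6 = 0 := by
    refine le_antisymm (sup ![1, 1, 1, 1, 1, 1, 0] (fun s => by fin_cases s <;> simp) rfl
      (fun _ => rfl) ?_ ?_ ?_ ?_ 6) (r3 6) <;> simp <;> nlinarith
  obtain ⟨a0, a1, a2, a3, -, -, -⟩ := step σ τ h2 h4 (val T σ τ)
  rw [v4, v6] at a1 a3
  rw [v4] at a2
  refine ⟨(r2 0 (n 0 (by decide) (by decide))).trans a0,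
    (r2 1 (n 1 (by decide) (by decide))).trans (a1.trans (by ring)),
    (r2 2 (n 2 (by decide) (by decide))).trans a2,
    (r2 3 (n 3 (by decide) (by decide))).trans (a3.trans (by ring)), r1 5, fun h5 => ?_, r3, r4,
    fun hx hy => ?_⟩
  · refine le_antisymm (sup ![1, 1, 1, 1, 1, 0, 1] (fun s => by fin_cases s <;> simp) rfl
      (fun h => absurd h h5) ?_ ?_ ?_ ?_ 5) (r3 5) <;> simp <;> nlinarith
  · refine le_antisymm (sup ![1, 0, 0, 1, 1, 1, 1] (fun s => by fin_cases s <;> simp) rfl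
      (fun _ => rfl) ?_ ?_ ?_ ?_ 1) (r3 1) <;> simp [hx, hy] <;> nlinarith

/-- A turn-based game with three decision states that has no stationary `1/100`-equilibrium. -/
theorem result :
    ¬ (∀ (S A B : Type) [Fintype S] [Fintype A] [Fintype B] [Nonempty A] [Nonempty B]
      (δ : S → A → B → S → ℝ),
      (∀ s a b t, 0 ≤ δ s a b t) → (∀ s a b, ∑ t, δ s a b t = 1) →
      ∀ (T U : Set S) (s₀ : S) (ε : ℝ), 0 < ε →
      ∃ σ : S → A → ℝ, ∃ τ : S → B → ℝ,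
        (∀ s a, 0 ≤ σ s a) ∧ (∀ s, ∑ a, σ s a = 1) ∧
        (∀ s b, 0 ≤ τ s b) ∧ (∀ s, ∑ b, τ s b = 1) ∧
        (∀ σ' : S → A → ℝ, (∀ s a, 0 ≤ σ' s a) → (∀ s, ∑ a, σ' s a = 1) →
          (⨆ n : ℕ, (fun x : S → ℝ => T.indicator (fun _ => (1 : ℝ)) +
              Tᶜ.indicator (fun s => ∑ t, (∑ a, ∑ b, σ' s a * τ s b * δ s a b t) * x t))^[n] 0 s₀)
            ≤ (⨆ n : ℕ, (fun x : S → ℝ => T.indicator (fun _ => (1 : ℝ)) +
              Tᶜ.indicator (fun s => ∑ t, (∑ a, ∑ b, σ s a * τ s b * δ s a b t) * x t))^[n] 0 s₀) + ε) ∧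
        (∀ τ' : S → B → ℝ, (∀ s b, 0 ≤ τ' s b) → (∀ s, ∑ b, τ' s b = 1) →
          (⨆ n : ℕ, (fun x : S → ℝ => U.indicator (fun _ => (1 : ℝ)) +
              Uᶜ.indicator (fun s => ∑ t, (∑ a, ∑ b, σ s a * τ s b * δ s a b t) * x t))^[n] 0 s₀)
            ≤ (⨆ n : ℕ, (fun x : S → ℝ => U.indicator (fun _ => (1 : ℝ)) +
              Uᶜ.indicator (fun s => ∑ t, (∑ a, ∑ b, σ s a * τ' s b * δ s a b t) * x t))^[n] 0 s₀) + ε)) := by
  intro h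
  obtain ⟨σ, τ, h1, h2, h3, h4, d1, d2⟩ := h (Fin 7) (Fin 2) (Fin 2) dl dl_nonneg dl_sum
    {4} {4, 5} 0 (1 / 100) (by norm_num)
  change ∀ σ' : Fin 7 → Fin 2 → ℝ, _ → _ → val {4} σ' τ 0 ≤ val {4} σ τ 0 + 1 / 100 at d1
  change ∀ τ' : Fin 7 → Fin 2 → ℝ, _ → _ → val {4, 5} σ τ 0 ≤ val {4, 5} σ τ' 0 + 1 / 100 at d2
  have hT : ∀ s ∈ ({4} : Set (Fin 7)), s = 4 ∨ s = 5 := fun s hs => Or.inl hs
  have hU : ∀ s ∈ ({4, 5} : Set (Fin 7)), s = 4 ∨ s = 5 := fun s hs => hs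
  have n5 : (5 : Fin 7) ∉ ({4} : Set (Fin 7)) := by simp
  have m5 : (5 : Fin 7) ∈ ({4, 5} : Set (Fin 7)) := by simp
  have pure1 : ∀ c : Fin 7 → Fin 2, ∀ s a,
      0 ≤ (fun s a => if a = c s then 1 else 0 : Fin 7 → Fin 2 → ℝ) s a := fun c s a => by
    dsimp only; split_ifs <;> norm_num
  have pure2 : ∀ c : Fin 7 → Fin 2, ∀ s,
      ∑ a, (fun s a => if a = c s then 1 else 0 : Fin 7 → Fin 2 → ℝ) s a = 1 := fun c s => by
    simp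
  have hx0 : 0 ≤ σ 1 0 := h1 1 0
  have hx1 : σ 1 0 ≤ 1 := by have := h2 1; rw [Fin.sum_univ_two] at this; linarith [h1 1 1]
  have hy0 : 0 ≤ τ 2 0 := h3 2 0
  have hy1 : τ 2 0 ≤ 1 := by have := h4 2; rw [Fin.sum_univ_two] at this; linarith [h3 2 1]
  have hm0 : 0 ≤ σ 3 0 := h1 3 0
  have hm1 : σ 3 0 ≤ 1 := by have := h2 3; rw [Fin.sum_univ_two] at this; linarith [h1 3 1]
  obtain ⟨t0, t1, t2, t3, -, t5, tn, tl, tz⟩ := facts {4} hT rfl σ τ h1 h2 h3 h4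
  obtain ⟨u0, u1, u2, u3, u5, -, un, ul, uz⟩ := facts {4, 5} hU (by simp) σ τ h1 h2 h3 h4
  rw [t5 n5] at t1
  rw [u5 m5] at u1
  rcases hy0.eq_or_lt with hy | hy
  · have e1 := d1 _ (pure1 ![0, 0, 0, 1, 0, 0, 0]) (pure2 _)
    obtain ⟨p0, p1, p2, p3, -, p5, -, -, -⟩ := facts {4} hT rfl _ τ
      (pure1 ![0, 0, 0, 1, 0, 0, 0]) (pure2 _) h3 h4
    rw [p5 n5] at p1
    have e2 := d2 _ (pure1 fun _ => 0) (pure2 _)
    obtain ⟨q0, q1, q2, q3, -, -, -, ql, -⟩ := facts {4, 5} hU (by simp) σ _ h1 h2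
      (pure1 fun _ => 0) (pure2 _)
    have ql1 := ql 1
    rw [← hy] at t2 u2 p2
    simp at p1 p2 p3 q2 t2 u2
    rw [p0, p2, p1, p3, t0, t2, t3] at e1
    rw [q0, q2, u0, u2, u3] at e2
    rcases hx0.eq_or_lt with hx | hx
    · rw [tz hx.symm hy.symm] at e1
      nlinarith
    · have w1 : val {4} σ τ 1 = 1 / 4 := by
        rw [t2] at t1
        apply mul_left_cancel₀ hx.ne'
        linarith
      have w2 : val {4, 5} σ τ 1 = 7 / 8 := by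
        rw [u2] at u1
        apply mul_left_cancel₀ hx.ne'
        linarith
      rw [w1] at e1
      rw [w2, q3] at e2
      nlinarith
  · have e1 := d1 _ (pure1 ![0, 1, 0, 0, 0, 0, 0]) (pure2 _)
    obtain ⟨p0, p1, p2, p3, -, -, -, -, -⟩ := facts {4} hT rfl _ τ
      (pure1 ![0, 1, 0, 0, 0, 0, 0]) (pure2 _) h3 h4
    have e2 := d2 _ (pure1 fun _ => 1) (pure2 _)
    obtain ⟨q0, q1, q2, q3, q5, -, -, -, qz⟩ := facts {4, 5} hU (by simp) σ _ h1 h2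
      (pure1 fun _ => 1) (pure2 _)
    rw [q5 m5] at q1
    simp at p1 p3 q2 qz
    have w : val {4} (fun s a => if a = (![0, 1, 0, 0, 0, 0, 0] : Fin 7 → Fin 2) s then 1 else 0)
        τ 2 = 1 := by
      rw [p3, p1] at p2
      apply mul_left_cancel₀ hy.ne'
      linarith
    rw [p0, p3, p1, w] at e1
    have w2 : val {4, 5} σ (fun s a => if a = 1 then 1 else 0) 1 ≤ 7 / 8 := by
      rcases hx0.eq_or_lt with hx | hx
      · rw [qz hx.symm]; norm_num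
      · rw [q2] at q1
        apply le_of_eq
        apply mul_left_cancel₀ hx.ne'
        linarith
    rw [q0, q2, q3] at e2
    have D : (val {4, 5} σ τ 1 - val {4} σ τ 1) *
        (σ 1 0 + (1 - σ 1 0) * τ 2 0 * (1 - σ 3 0 / 2)) = σ 1 0 * (5 / 8) := by
      linear_combination (u1 - t1) + (1 - σ 1 0) * (u2 - t2) +
        (1 - σ 1 0) * τ 2 0 / 2 * (u3 - t3)
    have D1 : 0 < σ 1 0 + (1 - σ 1 0) * τ 2 0 * (1 - σ 3 0 / 2) := by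
      rcases hx1.eq_or_lt with hx | hx
      · rw [hx]; norm_num
      · have : 0 < (1 - σ 1 0) * τ 2 0 * (1 - σ 3 0 / 2) := by
          apply mul_pos (mul_pos (by linarith) hy); linarith
        linarith
    have k1 : 0 ≤ val {4, 5} σ τ 1 - val {4} σ τ 1 := by
      by_contra hneg
      have := mul_pos (neg_pos.2 (not_le.1 hneg)) D1
      nlinarith
    have k3 : 0 ≤ val {4, 5} σ τ 3 - val {4} σ τ 3 := by
      rw [u3, t3]; nlinarith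
    have k2 : 0 ≤ val {4, 5} σ τ 2 - val {4} σ τ 2 := by
      rw [u2, t2]; nlinarith [mul_nonneg hy0 k3, mul_nonneg (sub_nonneg.2 hy1) k1]
    nlinarith

end Pool.Agent.S14430
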