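import Pool.Statements.S14509
-- import your own Pool.Agent.* helpers here

set_option autoImplicit false
open Pool Pool.MP_287fcc_lc

namespace Pool.Agent.S14509

/-- Colour of a difference in `ZMod 41`, as a table indexed by `0..40`. -/
def tb : List (Fin 4) := [0, 0, 3, 3, 0, 1, 0, 3, 3, 1, 2, 1, 1, 1, 2, 0, 2, 0, 2, 2, 3, 3, 2, 2, 0, 2, 0, 2, 1, 1, 1, 2, 1, 3, 3, 0, 1, 0, 3, 3, 0]

/-- The colouring of pairs of `Fin 41`. -/
def col (x y : Fin 41) : Fin 4 := tb.getD (x - y).val 0

theorem col_symm : ∀ x y, col x y = col y x := by decide +kernel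

theorem col_shift : ∀ x y, col x y = col (x - y) 0 := by
  intro x y
  simp [col]

theorem col_tri0 : ∀ x z : Fin 41, x ≠ 0 → 0 ≠ z → x ≠ z →
    ¬ (col x 0 = col 0 z ∧ col 0 z = col x z) := by decide +kernel

theorem col_wit0 : ∀ x : Fin 41, x ≠ 0 → ∀ j k : Fin 4, ¬ (j = col x 0 ∧ k = col x 0) →
    ∃ z, z ≠ x ∧ z ≠ 0 ∧ col x z = j ∧ col z 0 = k := by decide +kernel

theorem col_add (x y t : Fin 41) : col (x + t) (y + t) = col x y := by
  simp [col]

/-- Some n>4 admits a coloring of pairs with n−1 colors, all used, no monochromatic triangle, every non-(i,i) color path realized over each i-edge, that no bijection onto a finite field matches with the index-(n−1) coset coloring of differences. -/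
theorem result :
  ∃ n : ℕ, 4 < n ∧ ∃ (U : Type) (c : U → U → Fin (n - 1)),
    (∀ x y, c x y = c y x) ∧
    (∀ i : Fin (n - 1), ∃ x y, x ≠ y ∧ c x y = i) ∧
    (∀ x y z, x ≠ y → y ≠ z → x ≠ z → ¬ (c x y = c y z ∧ c y z = c x z)) ∧
    (∀ x y, x ≠ y → ∀ j k : Fin (n - 1), ¬ (j = c x y ∧ k = c x y) →
        ∃ z, z ≠ x ∧ z ≠ y ∧ c x z = j ∧ c z y = k) ∧
    ¬ ∃ (F : Type) (_ : Field F) (_ : Fintype F) (e : U ≃ F) (H : Subgroup Fˣ),
        H.index = n - 1 ∧
        ∀ x y x' y', x ≠ y → x' ≠ y' →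
          (c x y = c x' y' ↔ ∃ h ∈ H, e x - e y = (h : F) * (e x' - e y')) := by
  refine ⟨5, by norm_num, Fin 41, col, col_symm, by decide +kernel, ?_, ?_, ?_⟩
  · intro x y z h1 h2 h3
    have := col_tri0 (x - y) (z - y) (sub_ne_zero.2 h1) (sub_ne_zero.2 h2.symm).symm
      (fun h => h3 (sub_left_injective h))
    rw [← col_add (x - y) 0 y, ← col_add 0 (z - y) y, ← col_add (x - y) (z - y) y] at this
    simpa using this
  · intro x y h j k hjk
    obtain ⟨z, z1, z2, z3, z4⟩ := col_wit0 (x - y) (sub_ne_zero.2 h) j k (by rwa [← col_shift])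
    refine ⟨z + y, fun e => z1 (eq_sub_of_add_eq e), fun e => z2 (by simpa using e), ?_, ?_⟩
    · rw [← z3, ← col_add (x - y) z y, sub_add_cancel]
    · rw [← z4, ← col_add z 0 y, zero_add]
  · rintro ⟨F, _, _, e, H, -, hH⟩
    obtain ⟨h, hh, he⟩ := (hH 1 0 4 0 (by decide) (by decide)).1 (by decide +kernel)
    let φ : Fin 41 → Fin 41 := fun z => e.symm ((h : F) * (e z - e 0) + e 0)
    have hφ : ∀ u v, e (φ u) - e (φ v) = (h : F) * (e u - e v) := by
      intro u v
      simp only [φ, Equiv.apply_symm_apply]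
      ring
    have hinj : Function.Injective φ := by
      intro u v huv
      have := hφ u v
      rw [huv, sub_self] at this
      rcases mul_eq_zero.1 this.symm with h0 | h0
      · exact absurd h0 h.ne_zero
      · exact e.injective (sub_eq_zero.1 h0)
    have hc : ∀ u v, u ≠ v → col (φ u) (φ v) = col u v := fun u v huv =>
      (hH _ _ _ _ (hinj.ne huv) huv).2 ⟨h, hh, hφ u v⟩
    have h0 : φ 0 = 0 := by simp [φ]
    have h1 : φ 4 = 1 := by
      apply e.injective
      simp only [φ, Equiv.apply_symm_apply]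
      rw [← he]; ring
    have hle : (Finset.univ.filter fun z : Fin 41 => z ≠ 4 ∧ z ≠ 0 ∧ col 4 z = 0 ∧ col z 0 = 1).card ≤
        (Finset.univ.filter fun z : Fin 41 => z ≠ 1 ∧ z ≠ 0 ∧ col 1 z = 0 ∧ col z 0 = 1).card := by
      apply Finset.card_le_card_of_injOn φ _ hinj.injOn
      intro z hz
      simp only [Finset.coe_filter, Finset.mem_univ, true_and, Set.mem_ofPred_eq] at hz ⊢
      obtain ⟨z1, z2, z3, z4⟩ := hz
      refine ⟨fun e => z1 (hinj (e.trans h1.symm)), fun e => z2 (hinj (e.trans h0.symm)), ?_, ?_⟩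
      · rw [← h1, hc _ _ z1.symm, z3]
      · rw [← h0, hc _ _ z2, z4]
    revert hle
    decide +kernel

end Pool.Agent.S14509
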