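import Pool.Statements.S14633
import Pool.Agent.Lib.H8.Orc

set_option autoImplicit false
open Pool Pool.MP_40fdec_lc

namespace Pool.Agent.S14633

/-- Every countable nonempty family of sets closed under Turing reducibility and join equals, for some total f, the family of sets X with X ⊕ Xᶜ enumeration reducible to the complement of the graph of f. -/
theorem result :
    ∀ I : Set (Set ℕ), I.Countable → I.Nonempty →
      (∀ X Y : Set ℕ, X ∈ I →
        TuringReducible (fun n => Part.some (Y.indicator (fun _ => (1 : ℕ)) n))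
          (fun n => Part.some (X.indicator (fun _ => (1 : ℕ)) n)) → Y ∈ I) →
      (∀ X Y : Set ℕ, X ∈ I → Y ∈ I →
        {n : ℕ | (n % 2 = 0 ∧ n / 2 ∈ X) ∨ (n % 2 = 1 ∧ n / 2 ∈ Y)} ∈ I) →
      ∃ f : ℕ → ℕ, ∀ X : Set ℕ, X ∈ I ↔
        ∃ g : ℕ →. ℕ, Partrec g ∧
          ∀ x : ℕ, ((x % 2 = 0 ∧ x / 2 ∈ X) ∨ (x % 2 = 1 ∧ x / 2 ∉ X)) ↔
            ∃ u : ℕ, (g (Nat.pair x u)).Dom ∧
              ∀ y : ℕ, u.testBit y = true → f (Nat.unpair y).1 ≠ (Nat.unpair y).2 := by
  classical
  intro I hc hne hdown hjoin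
  obtain ⟨Z, hZ⟩ := hc.exists_eq_range hne
  have hZI : ∀ i, Z i ∈ I := fun i => hZ ▸ Set.mem_range_self i
  let ind : Set ℕ → ℕ → ℕ := fun X => X.indicator fun _ => 1
  have hind : ∀ X n, (n ∈ X ∧ ind X n = 1) ∨ (n ∉ X ∧ ind X n = 0) := fun X n => by
    by_cases h : n ∈ X <;> simp [ind, h]
  have hdown' : ∀ X Y, X ∈ I → Lib.H8.Orc.R (ind X) (ind Y) → Y ∈ I :=
    fun X Y hX h => hdown X Y hX h.tur
  let W : ℕ → Set ℕ := fun j => {m | m.unpair.1 < j ∧ m.unpair.2 ∈ Z m.unpair.1}
  have hW : ∀ j, W j ∈ I := by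
    intro j
    induction j with
    | zero => exact hdown' _ _ (hZI 0) ((Lib.H8.Orc.R.comput (Computable.const 0)).of_eq
        fun n => by simp [ind, W])
    | succ j ih =>
      refine hdown' _ _ (hjoin _ _ ih (hZI j)) ((Lib.H8.Orc.R.self.comp (Lib.H8.Orc.R.comput
        (Primrec.ite (Primrec.eq.comp (Primrec.fst.comp Primrec.unpair) (Primrec.const j))
          (Primrec.succ.comp (Primrec.nat_mul.comp (Primrec.const 2)
            (Primrec.snd.comp Primrec.unpair)))
          (Primrec.nat_mul.comp (Primrec.const 2) Primrec.id)).to_comp)).of_eq fun m => ?_)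
      refine Set.indicator_const_eq_indicator_const ?_
      simp only [W, Set.mem_ofPred_eq, id]
      split_ifs with h
      · have e1 : (2 * m.unpair.2).succ % 2 = 1 := by omega
        have e2 : (2 * m.unpair.2).succ / 2 = m.unpair.2 := by omega
        simp [e1, e2, h]
      · have e1 : (2 * m) % 2 = 0 := by omega
        have e2 : (2 * m) / 2 = m := by omega
        simp only [e1, e2, true_and, zero_ne_one, false_and, or_false]
        exact and_congr_left fun _ => by omega
  let F : (ℕ → ℕ) → ℕ → ℕ := fun k p => 2 * k p.unpair.1 + ind (Z p.unpair.1) p.unpair.2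
  let ph : ℕ → ℕ →. ℕ := fun e => (Denumerable.ofNat Nat.Partrec.Code e).eval
  let En : ℕ → (ℕ → ℕ) → ℕ → ℕ → Prop := fun j k x u => (ph j (Nat.pair x u)).Dom ∧
    ∀ y, u.testBit y = true → y.unpair.1.unpair.1 < j → F k y.unpair.1 ≠ y.unpair.2
  let bd : ℕ → (ℕ → ℕ) → ℕ := fun j k =>
    if h : ∃ t : ℕ × ℕ × ℕ, En j k (2 * t.1) t.2.1 ∧ En j k (2 * t.1 + 1) t.2.2 then
      h.choose.2.1 + h.choose.2.2 else 0
  let k := Lib.H8.Orc.cov fun j κ => bd j κ + ∑ i ∈ Finset.range j, κ i
  let κ : ℕ → ℕ → ℕ := fun j i => if i < j then k i else default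
  have hk : ∀ j, k j = bd j (κ j) + ∑ i ∈ Finset.range j, κ j i := fun j => Lib.H8.Orc.cov_eq _ j
  have hEn : ∀ j x u, En j (κ j) x u ↔ En j k x u := fun j x u =>
    and_congr_right fun _ => forall₃_congr fun y _ h => by simp only [F, κ, if_pos h]
  have hbd : ∀ j i, j ≤ i → bd j (κ j) ≤ k i := by
    intro j i hji
    rcases hji.eq_or_lt with rfl | h
    · rw [hk]; omega
    · have := Finset.single_le_sum (f := κ i) (fun _ _ => Nat.zero_le _) (Finset.mem_range.2 h)
      simp only [κ, if_pos h] at this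
      have h1 := hk i
      have h2 := hk j
      simp only [κ] at h1 h2 ⊢
      omega
  refine ⟨F k, fun X => ⟨fun hX => ?_, ?_⟩⟩
  · obtain ⟨i, rfl⟩ : X ∈ Set.range Z := hZ ▸ hX
    let c : ℕ → ℕ := fun x => 2 ^ Nat.pair (Nat.pair i (x / 2)) (2 * k i + x % 2)
    have hcp : Primrec c := Lib.H8.Orc.pow_prim.comp (Primrec₂.natPair.comp
      (Primrec₂.natPair.comp (Primrec.const i) (Primrec.nat_div.comp Primrec.id (Primrec.const 2)))
      (Primrec.nat_add.comp (Primrec.const _) (Primrec.nat_mod.comp Primrec.id (Primrec.const 2))))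
    refine ⟨fun m => Part.ofOption (if m.unpair.2 = c m.unpair.1 then some 0 else none),
      (Primrec.ite (Primrec.eq.comp (Primrec.snd.comp Primrec.unpair)
        (hcp.comp (Primrec.fst.comp Primrec.unpair))) (Primrec.const _)
        (Primrec.const _)).to_comp.ofOption, fun x => ?_⟩
    have e1 : ∀ u, (Part.ofOption (if u = c x then some 0 else none : Option ℕ)).Dom ↔ u = c x :=
      fun u => by by_cases h : u = c x <;> simp [h]
    simp only [Nat.unpair_pair, e1, exists_eq_left, c, Nat.testBit_two_pow, decide_eq_true_eq,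
      forall_eq', F]
    rcases hind (Z i) (x / 2) with ⟨h1, h2⟩ | ⟨h1, h2⟩ <;> simp only [h1, h2] <;> simp <;> omega
  · rintro ⟨g, hg, hX⟩
    obtain ⟨c, hc'⟩ := Nat.Partrec.Code.exists_code.1 (Partrec.nat_iff.1 hg)
    obtain ⟨j, rfl⟩ : ∃ j, c = Denumerable.ofNat _ j := ⟨Encodable.encode c, by simp⟩
    have hg' : g = ph j := hc'.symm
    subst hg'
    have hcons : ∀ a u u', En j k (2 * a) u → ¬ En j k (2 * a + 1) u' := by
      intro a u u' h1 h2
      have hex : ∃ t : ℕ × ℕ × ℕ, En j (κ j) (2 * t.1) t.2.1 ∧ En j (κ j) (2 * t.1 + 1) t.2.2 :=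
        ⟨(a, u, u'), (hEn _ _ _).2 h1, (hEn _ _ _).2 h2⟩
      have hb := hbd j
      simp only [bd, dif_pos hex] at hb
      obtain ⟨h3, h4⟩ := hex.choose_spec
      generalize hex.choose = t at hb h3 h4
      have key : ∀ x u, u ≤ t.2.1 + t.2.2 → En j (κ j) x u →
          ((x % 2 = 0 ∧ x / 2 ∈ X) ∨ (x % 2 = 1 ∧ x / 2 ∉ X)) := by
        intro x u hu h
        rw [hEn] at h
        refine (hX x).2 ⟨u, h.1, fun y hy => ?_⟩
        by_cases hj : y.unpair.1.unpair.1 < j
        · exact h.2 y hy hj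
        · have h5 := hb _ (not_lt.1 hj)
          have h6 := Nat.ge_two_pow_of_testBit hy
          have h7 := Nat.lt_two_pow_self (n := y)
          have h8 := Nat.unpair_right_le y
          simp only [F]
          omega
      have h5 := key _ _ (by omega) h3
      have h6 := key _ _ (by omega) h4
      have e1 : 2 * t.1 / 2 = t.1 := by omega
      have e2 : (2 * t.1 + 1) / 2 = t.1 := by omega
      rw [e1] at h5
      rw [e2] at h6
      rcases h5 with h5 | h5 <;> rcases h6 with h6 | h6 <;> first | omega | exact h6.2 h5.2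
    have hpos : ∀ a, a ∈ X → ∃ u, En j k (2 * a) u := fun a ha => by
      obtain ⟨u, h1, h2⟩ := (hX (2 * a)).1 (Or.inl ⟨by omega, by simpa using ha⟩)
      exact ⟨u, h1, fun y hy _ => h2 y hy⟩
    have hneg : ∀ a, a ∉ X → ∃ u, En j k (2 * a + 1) u := fun a ha => by
      obtain ⟨u, h1, h2⟩ := (hX (2 * a + 1)).1 (Or.inr ⟨by omega, by
        rwa [show (2 * a + 1) / 2 = a by omega]⟩)
      exact ⟨u, h1, fun y hy _ => h2 y hy⟩
    let kl := (List.range j).map k
    let T : ℕ × List ℕ → Prop := fun q => ∃ u < q.2.length,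
      (Nat.Partrec.Code.evaln q.2.length (Denumerable.ofNat _ j) (Nat.pair q.1 u)).isSome = true ∧
      ∀ y < u, u.testBit y = true → y.unpair.1.unpair.1 < j →
        ¬ 2 * kl.getD y.unpair.1.unpair.1 0 + q.2.getD y.unpair.1 0 = y.unpair.2
    have hT : PrimrecPred T := by
      have a1 : Primrec fun r : ℕ × ℕ × ℕ × List ℕ => r.1.unpair.1 :=
        Primrec.fst.comp (Primrec.unpair.comp Primrec.fst)
      have a2 : Primrec fun r : ℕ × ℕ × ℕ × List ℕ => r.1.unpair.1.unpair.1 :=
        Primrec.fst.comp (Primrec.unpair.comp a1)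
      have a3 := Lib.H8.Orc.imp_prim (Lib.H8.Orc.testBit_prim.comp
        (Primrec.fst.comp Primrec.snd) Primrec.fst) (Lib.H8.Orc.imp_prim
          (Primrec.nat_lt.comp a2 (Primrec.const j)) (Primrec.eq.comp (Primrec.nat_add.comp
            (Primrec.nat_mul.comp (Primrec.const 2) ((Primrec.list_getD 0).comp
              (Primrec.const kl) a2)) ((Primrec.list_getD 0).comp (Primrec.snd.comp
                (Primrec.snd.comp Primrec.snd)) a1))
            (Primrec.snd.comp (Primrec.unpair.comp Primrec.fst))).not)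
      have a4 : Primrec fun r : ℕ × ℕ × List ℕ => r.2.2.length :=
        Primrec.list_length.comp (Primrec.snd.comp Primrec.snd)
      exact Lib.H8.Orc.ex_prim ((Primrec.eq.comp (Primrec.option_isSome.comp
        (Nat.Partrec.Code.primrec_evaln.comp ((a4.pair (Primrec.const _)).pair
          (Primrec₂.natPair.comp (Primrec.fst.comp Primrec.snd) Primrec.fst))))
        (Primrec.const true)).and (Lib.H8.Orc.all_prim a3 Primrec.fst))
        (Primrec.list_length.comp Primrec.snd)
    have hloc : ∀ s u y, u < s → y < u → y.unpair.1.unpair.1 < j →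
        2 * kl.getD y.unpair.1.unpair.1 0 + ((List.range s).map (ind (W j))).getD y.unpair.1 0 =
          F k y.unpair.1 := by
      intro s u y hu hy hj
      have h1 := Nat.unpair_left_le y
      rw [List.getD_eq_getElem _ _ (by simpa [kl] using hj),
        List.getD_eq_getElem _ _ (by simp; omega)]
      simp only [kl, List.getElem_map, List.getElem_range, F, Nat.add_left_cancel_iff]
      exact Set.indicator_const_eq_indicator_const (by simp [W, hj])
    have hlt : ∀ u y : ℕ, u.testBit y = true → y < u := fun u y hy =>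
      (Nat.lt_two_pow_self (n := y)).trans_le (Nat.ge_two_pow_of_testBit hy)
    have hT1 : ∀ x s, T (x, (List.range s).map (ind (W j))) → ∃ u, En j k x u := by
      rintro x s ⟨u, hu, h1, h2⟩
      simp only [List.length_map, List.length_range] at hu h1
      obtain ⟨v, hv⟩ := Option.isSome_iff_exists.1 h1
      refine ⟨u, Part.dom_iff_mem.2 ⟨v, Nat.Partrec.Code.evaln_sound hv⟩, fun y hy hj => ?_⟩
      rw [← hloc s u y hu (hlt u y hy) hj]
      exact h2 y (hlt u y hy) hy hj
    have hT2 : ∀ x u, En j k x u → ∃ s, T (x, (List.range s).map (ind (W j))) := by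
      intro x u h
      obtain ⟨v, hv⟩ := Part.dom_iff_mem.1 h.1
      obtain ⟨s, hs⟩ := Nat.Partrec.Code.evaln_complete.1 hv
      refine ⟨s + u + 1, u, by simp, ?_, fun y hy hb hj => ?_⟩
      · simp only [List.length_map, List.length_range]
        exact Option.isSome_iff_exists.2 ⟨v, Nat.Partrec.Code.evaln_mono (by omega) hs⟩
      · rw [hloc (s + u + 1) u y (by omega) hy hj]
        exact h.2 y hb hj
    refine hdown' _ _ (hW j) (Lib.H8.Orc.tt (G := fun q => if T (2 * q.1, q.2) then some 1 else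
      if T (2 * q.1 + 1, q.2) then some 0 else none) ?_ (fun a => ?_) fun a s y h => ?_)
    · have a1 : Primrec fun q : ℕ × List ℕ => 2 * q.1 :=
        Primrec.nat_mul.comp (Primrec.const 2) Primrec.fst
      exact (Primrec.ite (hT.comp (a1.pair Primrec.snd)) (Primrec.const _)
        (Primrec.ite (hT.comp ((Primrec.succ.comp a1).pair Primrec.snd)) (Primrec.const _)
          (Primrec.const _))).to_comp
    · by_cases ha : a ∈ X
      · obtain ⟨u, hu⟩ := hpos a ha
        obtain ⟨s, hs⟩ := hT2 _ _ hu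
        exact ⟨s, 1, if_pos hs⟩
      · obtain ⟨u, hu⟩ := hneg a ha
        obtain ⟨s, hs⟩ := hT2 _ _ hu
        refine ⟨s, ?_⟩
        simp only [if_pos hs]
        split_ifs <;> simp
    · simp only at h
      split_ifs at h with h1 h2
      · obtain ⟨u, hu⟩ := hT1 _ _ h1
        rcases hind X a with h3 | h3
        · rw [h3.2]; exact (Option.some.inj h).symm
        · obtain ⟨u', hu'⟩ := hneg a h3.1
          exact absurd hu' (hcons _ _ _ hu)
      · obtain ⟨u, hu⟩ := hT1 _ _ h2
        rcases hind X a with h3 | h3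
        · obtain ⟨u', hu'⟩ := hpos a h3.1
          exact absurd hu (hcons _ _ _ hu')
        · rw [h3.2]; exact (Option.some.inj h).symm

end Pool.Agent.S14633
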