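import Pool.Statements.S14684
import Pool.Agent.Lib.lead.MRDP

set_option autoImplicit false
open Pool Pool.MP_4f56fb_lc

namespace Pool.Agent.S14684
open LeadMRDP

abbrev TC (V : Type) := (V × V × V) ⊕ (V × V × V) ⊕ (V × V) ⊕ V

def sat {V : Type} (v : V → ℕ) (c : TC V) : Prop :=
  Sum.elim (fun t : V × V × V => v t.1 = v t.2.1 + v t.2.2)
    (Sum.elim (fun t : V × V × V => v t.1 = v t.2.1 * 2 ^ v t.2.2)
      (Sum.elim (fun p : V × V => v p.1 ≤ v p.2) (fun i : V => v i = 1))) c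

def tmap {V W : Type} (f : V → W) : TC V → TC W :=
  Sum.map (fun t => (f t.1, f t.2.1, f t.2.2))
    (Sum.map (fun t => (f t.1, f t.2.1, f t.2.2)) (Sum.map (fun t => (f t.1, f t.2)) f))

theorem sat_map {V W : Type} (f : V → W) (v : W → ℕ) (c : TC V) :
    sat v (tmap f c) ↔ sat (v ∘ f) c := by
  rcases c with c | c | c | c <;> rfl

/-! ### the multiplication gadget -/

theorem small_mul {q a b z w : ℕ} (hq : q + 2 ≤ 2 ^ a) (hb : b + 2 ≤ 2 ^ a)
    (h1 : z * 2 ^ a + 1 = 2 ^ b + z) (hw : 0 < w) (h2 : z + 2 ^ a + w = q + w * 2 ^ a + 1) :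
    b = q * a := by
  obtain ⟨M, hM⟩ : ∃ M, 2 ^ a = M + 1 := ⟨2 ^ a - 1, by omega⟩
  have ha : 0 < a := by
    rcases Nat.eq_zero_or_pos a with h | h
    · subst h; simp at hq
    · exact h
  have e1 : z * M + 1 = 2 ^ b := by rw [hM] at h1; nlinarith
  have hA : 2 ^ a ≡ 1 [MOD M] := by rw [hM]; simp [Nat.ModEq]
  have hb2 : 2 ^ b = (2 ^ a) ^ (b / a) * 2 ^ (b % a) := by
    rw [← pow_mul, ← pow_add, Nat.div_add_mod]
  have hr : 2 ^ (b % a) ≡ 1 [MOD M] := by
    have t1 : 2 ^ b ≡ 1 [MOD M] := by rw [← e1]; simp [Nat.ModEq]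
    have t2 : (2 ^ a) ^ (b / a) * 2 ^ (b % a) ≡ 1 ^ (b / a) * 2 ^ (b % a) [MOD M] :=
      (hA.pow _).mul_right _
    rw [← hb2, one_pow, one_mul] at t2
    exact t2.symm.trans t1
  have hr0 : b % a = 0 := by
    have t1 : 2 ^ (b % a) < 2 ^ a := Nat.pow_lt_pow_right (by norm_num) (Nat.mod_lt _ ha)
    have t0 : 1 ≤ 2 ^ (b % a) := Nat.one_le_two_pow
    have t2 := (Nat.modEq_iff_dvd' t0).1 hr.symm
    have t3 := Nat.eq_zero_of_dvd_of_lt t2 (by omega)
    have t4 : 2 ^ (b % a) = 1 := by omega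
    simpa using t4
  rw [hr0, pow_zero, mul_one, hM] at hb2
  set m := b / a with hm
  have hz : z = ∑ i ∈ Finset.range m, (M + 1) ^ i := by
    have := geom_sum_mul_add M m
    have hM0 : 0 < M := by omega
    apply Nat.eq_of_mul_eq_mul_right hM0
    omega
  have hzm : z ≡ m [MOD M] := by
    rw [hz]
    have : ∀ k, ∑ i ∈ Finset.range k, (M + 1) ^ i ≡ k [MOD M] := by
      intro k
      induction k with
      | zero => rfl
      | succ k ih =>
        rw [Finset.sum_range_succ]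
        refine ih.add ?_
        have : M + 1 ≡ 1 [MOD M] := by simp [Nat.ModEq]
        simpa using this.pow k
    exact this m
  have hzq : z ≡ q [MOD M] := by
    obtain ⟨w', rfl⟩ : ∃ w', w = w' + 1 := ⟨w - 1, by omega⟩
    have : z = q + w' * M := by rw [hM] at h2; nlinarith
    rw [this]; simp [Nat.ModEq]
  have hmle : m ≤ b := Nat.div_le_self _ _
  have : m = q := Nat.ModEq.eq_of_lt_of_lt (hzm.symm.trans hzq) (by omega) (by omega)
  rw [← this, hm]
  exact (Nat.div_mul_cancel (Nat.dvd_of_mod_eq_zero hr0)).symm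

theorem small_mul' {q a : ℕ} (hq0 : 0 < q) (hq : q + 2 ≤ 2 ^ a) :
    ∃ z, 0 < z ∧ ∃ w, 0 < w ∧ z * 2 ^ a + 1 = 2 ^ (q * a) + z ∧
      z + 2 ^ a + w = q + w * 2 ^ a + 1 := by
  obtain ⟨M, hM⟩ : ∃ M, 2 ^ a = M + 1 := ⟨2 ^ a - 1, by omega⟩
  have h : ∀ k, ∃ w, ∑ i ∈ Finset.range k, (M + 1) ^ i = k + w * M := by
    intro k
    induction k with
    | zero => exact ⟨0, by simp⟩
    | succ k ih =>
      obtain ⟨w, hw⟩ := ih
      refine ⟨w + ∑ i ∈ Finset.range k, (M + 1) ^ i, ?_⟩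
      have := geom_sum_mul_add M k
      rw [Finset.sum_range_succ, ← this]
      nth_rewrite 1 [hw]
      ring
  obtain ⟨w, hw⟩ := h q
  refine ⟨q + w * M, by omega, w + 1, by omega, ?_, by rw [hM]; ring⟩
  have := geom_sum_mul_add M q
  rw [mul_comm q a, pow_mul, hM, ← this, hw]; ring

def SM (q a b : ℕ) : Prop :=
  q + 1 + 1 ≤ 1 * 2 ^ a ∧ b + 1 + 1 ≤ 1 * 2 ^ a ∧ ∃ z, 0 < z ∧ ∃ w, 0 < w ∧
    z * 2 ^ a + 1 = 1 * 2 ^ b + z ∧ z + 1 * 2 ^ a + w = q + w * 2 ^ a + 1

theorem mul_iff {x y z : ℕ} (hy : 0 < y) :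
    x = y * z ↔ ∃ c, 0 < c ∧ ∃ d, 0 < d ∧ SM y c d ∧ SM y (z + c) (x + d) := by
  constructor
  · rintro rfl
    have h1 : y * (z + (2 * (y + z) + 4)) + 2 ≤ 2 ^ (2 * (y + z) + 4) := by
      have t : y + z + 1 ≤ 2 ^ (y + z) := Nat.lt_two_pow_self
      have t2 : 2 ^ (2 * (y + z) + 4) = 16 * (2 ^ (y + z) * 2 ^ (y + z)) := by ring
      have t3 := Nat.mul_le_mul t t
      rw [t2]; nlinarith [Nat.zero_le (y * z), Nat.zero_le (y * y), Nat.zero_le (z * z)]
    set c := 2 * (y + z) + 4 with hc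
    have hc0 : 0 < c := by omega
    have h2 : 2 ^ c ≤ 2 ^ (z + c) := Nat.pow_le_pow_right (by norm_num) (by omega)
    have h3 : y ≤ y * c := Nat.le_mul_of_pos_right _ hc0
    have h4 : y * (z + c) = y * z + y * c := by ring
    refine ⟨c, hc0, y * c, by positivity, ⟨by omega, by omega, ?_⟩, ⟨by omega, by omega, ?_⟩⟩
    · simpa using small_mul' (a := c) hy (by omega)
    · simpa [h4] using small_mul' (a := z + c) hy (by omega)
  · rintro ⟨c, _, d, _, ⟨a1, a2, z1, _, w1, a3, a4, a5⟩, ⟨b1, b2, z2, _, w2, b3, b4, b5⟩⟩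
    simp only [one_mul] at *
    have e1 := small_mul a1 a2 a4 a3 a5
    have e2 := small_mul b1 b2 b4 b3 b5
    rw [e1, mul_add] at e2
    omega

/-! ### existentially definable relations -/

def TD {V : Type} (R : (V → ℕ) → Prop) : Prop :=
  ∃ (δ : Type) (_ : Finite δ) (L : List (TC (V ⊕ δ))), ∀ v : V → ℕ, (∀ i, 0 < v i) →
    (R v ↔ ∃ t : δ → ℕ, (∀ j, 0 < t j) ∧ ∀ c ∈ L, sat (Sum.elim v t) c)

variable {V : Type}

theorem TD.congr {R S : (V → ℕ) → Prop} (h : TD R)
    (e : ∀ v, (∀ i, 0 < v i) → (R v ↔ S v)) : TD S := by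
  obtain ⟨δ, hδ, L, h⟩ := h
  exact ⟨δ, hδ, L, fun v hv => (e v hv).symm.trans (h v hv)⟩

theorem TD.atom (c : TC V) : TD fun v => sat v c := by
  refine ⟨Empty, inferInstance, [tmap Sum.inl c], fun v _ => ?_⟩
  simp only [List.forall_mem_singleton, sat_map]
  exact ⟨fun h => ⟨Empty.elim, fun j => j.elim, h⟩, fun ⟨_, _, h⟩ => h⟩

theorem TD.and {R S : (V → ℕ) → Prop} (h1 : TD R) (h2 : TD S) : TD fun v => R v ∧ S v := by
  obtain ⟨δ1, _, L1, h1⟩ := h1
  obtain ⟨δ2, _, L2, h2⟩ := h2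
  refine ⟨δ1 ⊕ δ2, inferInstance, L1.map (tmap (Sum.map id Sum.inl)) ++
    L2.map (tmap (Sum.map id Sum.inr)), fun v hv => ?_⟩
  have e1 : ∀ t : δ1 ⊕ δ2 → ℕ,
      Sum.elim v t ∘ Sum.map id Sum.inl = Sum.elim v (t ∘ Sum.inl) := by
    intro t; funext i; cases i <;> rfl
  have e2 : ∀ t : δ1 ⊕ δ2 → ℕ,
      Sum.elim v t ∘ Sum.map id Sum.inr = Sum.elim v (t ∘ Sum.inr) := by
    intro t; funext i; cases i <;> rfl
  simp only [List.forall_mem_append, List.forall_mem_map, sat_map, e1, e2, h1 v hv, h2 v hv]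
  constructor
  · rintro ⟨⟨t1, a1, b1⟩, t2, a2, b2⟩
    exact ⟨Sum.elim t1 t2, fun j => by cases j <;> simp [a1, a2], b1, b2⟩
  · rintro ⟨t, a, b1, b2⟩
    exact ⟨⟨_, fun j => a _, b1⟩, _, fun j => a _, b2⟩

theorem TD.reindex {W : Type} {R : (V → ℕ) → Prop} (h : TD R) (r : V → W) :
    TD fun w : W → ℕ => R (fun i => w (r i)) := by
  obtain ⟨δ, hδ, L, h⟩ := h
  refine ⟨δ, hδ, L.map (tmap (Sum.map r id)), fun w hw => ?_⟩
  have e1 : ∀ t : δ → ℕ, Sum.elim w t ∘ Sum.map r id = Sum.elim (fun i => w (r i)) t := by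
    intro t; funext i; cases i <;> rfl
  simp only [List.forall_mem_map, sat_map, e1]
  exact h _ fun i => hw _

theorem TD.exAll {W : Type} [Finite W] {R : (V ⊕ W → ℕ) → Prop} (h : TD R) :
    TD fun v : V → ℕ => ∃ t : W → ℕ, (∀ j, 0 < t j) ∧ R (Sum.elim v t) := by
  obtain ⟨δ, hδ, L, h⟩ := h
  refine ⟨W ⊕ δ, inferInstance, L.map (tmap (Equiv.sumAssoc V W δ)), fun v hv => ?_⟩
  have e1 : ∀ t : W ⊕ δ → ℕ, Sum.elim v t ∘ (Equiv.sumAssoc V W δ)
      = Sum.elim (Sum.elim v (t ∘ Sum.inl)) (t ∘ Sum.inr) := by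
    intro t; funext i; rcases i with (i | i) | i <;> rfl
  simp only [List.forall_mem_map, sat_map, e1]
  constructor
  · rintro ⟨t, a, b⟩
    obtain ⟨t2, a2, b2⟩ := (h _ (fun i => by cases i <;> simp [hv, a])).1 b
    exact ⟨Sum.elim t t2, fun j => by cases j <;> simp [a, a2], b2⟩
  · rintro ⟨t, a, b⟩
    exact ⟨t ∘ Sum.inl, fun j => a _,
      (h _ (fun i => by cases i <;> simp [hv, a])).2 ⟨_, fun j => a _, b⟩⟩

theorem TD.ex {R : ℕ → (V → ℕ) → Prop}
    (h : TD fun w : Option V → ℕ => R (w none) (fun i => w (some i))) :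
    TD fun v => ∃ x, 0 < x ∧ R x v := by
  have := (h.reindex (W := V ⊕ Unit) (fun o => o.elim (Sum.inr ()) Sum.inl)).exAll
  refine this.congr fun v _ => ?_
  exact ⟨fun ⟨t, a, b⟩ => ⟨t (), a (), b⟩, fun ⟨x, a, b⟩ => ⟨fun _ => x, fun _ => a, b⟩⟩

theorem TD.list {ι : Type} (l : List ι) (R : ι → (V → ℕ) → Prop) (h : ∀ i, TD (R i)) :
    TD fun v => ∀ i ∈ l, R i v := by
  induction l with
  | nil => exact ⟨Empty, inferInstance, [], fun v _ =>
      ⟨fun _ => ⟨Empty.elim, fun j => j.elim, by simp⟩, fun _ => by simp⟩⟩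
  | cons a l ih => exact ((h a).and ih).congr fun v _ => by simp

def TF (f : (V → ℕ) → ℕ) : Prop :=
  (∀ v, (∀ i, 0 < v i) → 0 < f v) ∧
    TD fun w : Option V → ℕ => w none = f (fun i => w (some i))

theorem TF.up {W : Type} {f : (V → ℕ) → ℕ} (h : TF f) (r : V → W) :
    TF fun w : W → ℕ => f (fun i => w (r i)) :=
  ⟨fun w hw => h.1 _ fun _ => hw _, h.2.reindex (Option.map r)⟩

theorem TF.rel {f g : (V → ℕ) → ℕ} (hf : TF f) (hg : TF g) (R : ℕ → ℕ → (V → ℕ) → Prop)
    (h : TD fun w : Option (Option V) → ℕ =>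
      R (w (some none)) (w none) (fun i => w (some (some i)))) :
    TD fun v => R (f v) (g v) v := by
  have d1 := hf.2.reindex (W := Option (Option V)) some
  have d2 := hg.2.reindex (W := Option (Option V)) (Option.map some)
  have d := TD.ex (R := fun x v => ∃ y, 0 < y ∧ x = f v ∧ y = g v ∧ R x y v)
    (TD.ex (R := fun y (w : Option V → ℕ) => w none = f (fun i => w (some i)) ∧
      y = g (fun i => w (some i)) ∧ R (w none) y (fun i => w (some i))) (d1.and (d2.and h)))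
  refine d.congr fun v hv => ⟨?_, fun h => ⟨_, hf.1 v hv, _, hg.1 v hv, rfl, rfl, h⟩⟩
  rintro ⟨x, _, y, _, rfl, rfl, h⟩
  exact h

theorem TF.le {f g : (V → ℕ) → ℕ} (hf : TF f) (hg : TF g) : TD fun v => f v ≤ g v :=
  hf.rel hg (fun x y _ => x ≤ y) (TD.atom (.inr (.inr (.inl (some none, none)))))

theorem TF.eq {f g : (V → ℕ) → ℕ} (hf : TF f) (hg : TF g) : TD fun v => f v = g v :=
  ((hf.le hg).and (hg.le hf)).congr fun _ _ => le_antisymm_iff.symm

theorem TF.proj (i : V) : TF fun v => v i :=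
  ⟨fun _ hv => hv i, ((TD.atom (.inr (.inr (.inl (none, some i))))).and
    (TD.atom (.inr (.inr (.inl (some i, none)))))).congr fun _ _ => le_antisymm_iff.symm⟩

theorem TF.one : TF fun _ : V → ℕ => 1 :=
  ⟨fun _ _ => one_pos, TD.atom (.inr (.inr (.inr none)))⟩

theorem TF.add {f g : (V → ℕ) → ℕ} (hf : TF f) (hg : TF g) : TF fun v => f v + g v :=
  ⟨fun v hv => Nat.add_pos_left (hf.1 v hv) _,
    (hf.up some).rel (hg.up some) (fun x y w => w none = x + y)
      (TD.atom (.inl (some (some none), some none, none)))⟩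

theorem TF.pw {f g : (V → ℕ) → ℕ} (hf : TF f) (hg : TF g) : TF fun v => f v * 2 ^ g v :=
  ⟨fun v hv => Nat.mul_pos (hf.1 v hv) (by positivity),
    (hf.up some).rel (hg.up some) (fun x y w => w none = x * 2 ^ y)
      (TD.atom (.inr (.inl (some (some none), some none, none))))⟩

theorem TF.sm {f g h : (V → ℕ) → ℕ} (hf : TF f) (hg : TF g) (hh : TF h) :
    TD fun v => SM (f v) (g v) (h v) := by
  have o : ∀ {W : Type}, TF fun _ : W → ℕ => 1 := TF.one
  refine (((hf.add o).add o).le (o.pw hg)).and ((((hh.add o).add o).le (o.pw hg)).and ?_)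
  have z : TF fun w : Option (Option V) → ℕ => w (some none) := TF.proj _
  have w : TF fun w : Option (Option V) → ℕ => w none := TF.proj _
  have f' := (hf.up some).up some
  have g' := (hg.up some).up some
  have h' := (hh.up some).up some
  exact TD.ex (R := fun z v => ∃ w, 0 < w ∧ z * 2 ^ g v + 1 = 1 * 2 ^ h v + z ∧
      z + 1 * 2 ^ g v + w = f v + w * 2 ^ g v + 1)
    (TD.ex (R := fun w (u : Option V → ℕ) =>
      u none * 2 ^ g (fun i => u (some i)) + 1 = 1 * 2 ^ h (fun i => u (some i)) + u none ∧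
      u none + 1 * 2 ^ g (fun i => u (some i)) + w
        = f (fun i => u (some i)) + w * 2 ^ g (fun i => u (some i)) + 1)
      ((((z.pw g').add o).eq ((o.pw h').add z)).and
        (((z.add (o.pw g')).add w).eq ((f'.add (w.pw g')).add o))))

theorem TF.mul {f g : (V → ℕ) → ℕ} (hf : TF f) (hg : TF g) : TF fun v => f v * g v := by
  refine ⟨fun v hv => Nat.mul_pos (hf.1 v hv) (hg.1 v hv), ?_⟩
  have c : TF fun w : Option (Option (Option V)) → ℕ => w (some none) := TF.proj _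
  have d : TF fun w : Option (Option (Option V)) → ℕ => w none := TF.proj _
  have x : TF fun w : Option (Option (Option V)) → ℕ => w (some (some none)) := TF.proj _
  have f' := ((hf.up some).up some).up some
  have g' := ((hg.up some).up some).up some
  have := TD.ex (R := fun c (u : Option V → ℕ) => ∃ d, 0 < d ∧ SM (f fun i => u (some i)) c d ∧
      SM (f fun i => u (some i)) (g (fun i => u (some i)) + c) (u none + d))
    (TD.ex (R := fun d (u : Option (Option V) → ℕ) =>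
      SM (f fun i => u (some (some i))) (u none) d ∧
      SM (f fun i => u (some (some i))) (g (fun i => u (some (some i))) + u none)
        (u (some none) + d)) ((f'.sm c d).and (f'.sm (g'.add c) (x.add d))))
  exact this.congr fun w hw => (mul_iff (hf.1 _ fun _ => hw _)).symm

theorem con_TD (c : Con V) : TD fun v : V → ℕ => c.sat (fun i => v i - 1) := by
  cases c with
  | add x y z =>
    refine (((TF.proj x).add TF.one).eq ((TF.proj y).add (TF.proj z))).congr fun v hv => ?_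
    have := hv x; have := hv y; have := hv z
    simp only [Con.sat]; omega
  | mul x y z =>
    refine ((((TF.proj x).add (TF.proj y)).add (TF.proj z)).eq
      ((((TF.proj y).mul (TF.proj z)).add TF.one).add TF.one)).congr fun v hv => ?_
    obtain ⟨a, ha⟩ := Nat.exists_eq_succ_of_ne_zero (hv x).ne'
    obtain ⟨b, hb⟩ := Nat.exists_eq_succ_of_ne_zero (hv y).ne'
    obtain ⟨c, hc⟩ := Nat.exists_eq_succ_of_ne_zero (hv z).ne'
    simp only [Con.sat, ha, hb, hc, Nat.succ_eq_add_one, Nat.add_sub_cancel]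
    constructor <;> intro h <;> nlinarith
  | one x =>
    refine ((TF.proj x).eq (TF.one.add TF.one)).congr fun v hv => ?_
    simp only [Con.sat]; omega

theorem exists_sys : ∃ (W : Type) (_ : Finite W) (x0 : W) (L : List (TC W)),
    ¬ ComputablePred fun n : ℕ =>
      ∃ v : W → ℕ, (∀ i, 0 < v i) ∧ v x0 = n + 1 ∧ ∀ c ∈ L, sat v c := by
  obtain ⟨V, hV, x0, L, h⟩ := exists_flat_nat
  obtain ⟨δ, hδ, L', h'⟩ := TD.list L (fun c v => c.sat (fun i => v i - 1)) con_TD
  refine ⟨V ⊕ δ, inferInstance, .inl x0, L', fun h2 => h (h2.of_eq fun n => ?_)⟩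
  constructor
  · rintro ⟨v, hv, h0, h1⟩
    refine ⟨fun i => v (.inl i) - 1, by simp [h0],
      (h' (fun i => v (.inl i)) fun i => hv _).2 ⟨fun j => v (.inr j), fun j => hv _, ?_⟩⟩
    have : (Sum.elim (fun i => v (.inl i)) fun j => v (.inr j)) = v := by
      funext i; cases i <;> rfl
    rwa [this]
  · rintro ⟨v, h0, h1⟩
    obtain ⟨t, a, b⟩ := (h' (fun i => v i + 1) fun i => Nat.succ_pos _).1 (by simpa using h1)
    exact ⟨Sum.elim (fun i => v i + 1) t, fun i => by cases i <;> simp [a], by simp [h0], b⟩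

/-- The negation of the preceding statement: There is an algorithm deciding whether a finite system of constraints x=y+z, x=y·2^z, x≤y, x=1 has a solution in positive naturals, i.e. the existential theory of (N>0; +, x·2^y, ≤, 1) is decidable. -/
theorem result :
    ¬ (ComputablePred
      (fun L : List ((ℕ × ℕ × ℕ) ⊕ (ℕ × ℕ × ℕ) ⊕ (ℕ × ℕ) ⊕ ℕ) =>
        ∃ v : ℕ → ℕ, (∀ n, 0 < v n) ∧
          ∀ c ∈ L,
            Sum.elim (fun t : ℕ × ℕ × ℕ => v t.1 = v t.2.1 + v t.2.2)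
              (Sum.elim (fun t : ℕ × ℕ × ℕ => v t.1 = v t.2.1 * 2 ^ v t.2.2)
                (Sum.elim (fun p : ℕ × ℕ => v p.1 ≤ v p.2)
                  (fun i : ℕ => v i = 1))) c)) := by
  intro H
  obtain ⟨W, hW, x0, L, h⟩ := exists_sys
  obtain ⟨e, he⟩ := Countable.exists_injective_nat W
  let L0 : List (TC ℕ) := L.map (tmap fun x => 2 * e x)
  let F : ℕ → List (TC ℕ) := fun n =>
    (Sum.inr (Sum.inr (Sum.inl (2 * e x0, 2 * n + 1)))) ::
    (Sum.inr (Sum.inr (Sum.inl (2 * n + 1, 2 * e x0)))) ::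
    (((List.range n).map fun k => (Sum.inl (2 * k + 3, 2 * k + 1, 1) : TC ℕ)) ++
      (Sum.inr (Sum.inr (Sum.inr 1)) :: L0))
  have hodd : ∀ j : ℕ, Primrec fun n : ℕ => 2 * n + j := fun j =>
    Primrec.nat_add.comp (Primrec.nat_mul.comp (Primrec.const 2) Primrec.id) (Primrec.const j)
  have hF : Primrec F := by
    refine Primrec.list_cons.comp (Primrec.sumInr.comp (Primrec.sumInr.comp (Primrec.sumInl.comp
      ((Primrec.const _).pair (hodd 1))))) (Primrec.list_cons.comp (Primrec.sumInr.comp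
      (Primrec.sumInr.comp (Primrec.sumInl.comp ((hodd 1).pair (Primrec.const _)))))
      (Primrec.list_append.comp (Primrec.list_map Primrec.list_range ?_) (Primrec.const _)))
    exact (Primrec.sumInl.comp (((hodd 3).comp Primrec.snd).pair
      (((hodd 1).comp Primrec.snd).pair (Primrec.const 1)))).to₂
  obtain ⟨inst, H⟩ := H
  apply h
  refine ComputablePred.of_eq ⟨fun n => inst (F n), H.comp hF.to_comp⟩ fun n => ?_
  show (∃ v : ℕ → ℕ, (∀ n, 0 < v n) ∧ ∀ c ∈ F n, sat v c) ↔ _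
  simp only [F, L0, List.forall_mem_cons, List.forall_mem_append, List.forall_mem_map, sat_map,
    List.mem_range]
  constructor
  · rintro ⟨v, hv, h1, h2, h3, h4, h5⟩
    refine ⟨_, fun i => hv _, ?_, h5⟩
    simp only [sat, Sum.elim_inl, Sum.elim_inr] at h1 h2 h3 h4
    have : ∀ k ≤ n, v (2 * k + 1) = k + 1 := by
      intro k hk
      induction k with
      | zero => simpa using h4
      | succ k ih =>
        have := h3 k (by omega)
        have := ih (by omega)
        rw [show 2 * (k + 1) + 1 = 2 * k + 3 by ring]; omega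
    have := this n le_rfl
    show v (2 * e x0) = n + 1
    omega
  · rintro ⟨v, hv, h0, h1⟩
    have he2 : Function.Injective fun x => 2 * e x := fun a b hab => he (by simpa using hab)
    let u : ℕ → ℕ := Function.extend (fun x => 2 * e x) v (fun i => i / 2 + 1)
    have u1 : ∀ x, u (2 * e x) = v x := fun x => he2.extend_apply _ _ x
    have u2 : ∀ k, u (2 * k + 1) = k + 1 := by
      intro k
      have : u (2 * k + 1) = (2 * k + 1) / 2 + 1 :=
        Function.extend_apply' _ _ _ (by rintro ⟨x, hx⟩; omega)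
      omega
    refine ⟨u, fun i => ?_, ?_, ?_, fun k _ => ?_, u2 0, ?_⟩
    · by_cases hi : ∃ x, 2 * e x = i
      · obtain ⟨x, rfl⟩ := hi; rw [u1]; exact hv x
      · have : u i = i / 2 + 1 := Function.extend_apply' _ _ _ hi
        omega
    · show u (2 * e x0) ≤ u (2 * n + 1)
      rw [u1, u2, h0]
    · show u (2 * n + 1) ≤ u (2 * e x0)
      rw [u1, u2, h0]
    · show u (2 * k + 3) = u (2 * k + 1) + u 1
      have := u2 (k + 1); have := u2 k; have := u2 0
      rw [show 2 * k + 3 = 2 * (k + 1) + 1 by ring]; simp only [mul_zero, zero_add] at *; omega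
    · have : u ∘ (fun x => 2 * e x) = v := funext u1
      rwa [this]

end Pool.Agent.S14684
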