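import Pool.Statements.S14696
import Pool.Agent.Lib.helper17.CFGSound

set_option autoImplicit false
open Pool Pool.MP_51f845_lc

namespace Pool.Agent.S14696

open H17CFG Symbol

/-- value of a letter -/
def bv (b : Bool) : ℤ := if b then 1 else 0

/-- The rules of the grammar. -/
def RR (r : ContextFreeRule Bool (Option ℤ)) : Prop :=
  (∃ D : ℤ, |D| ≤ 2 ∧ r = ⟨some D, [terminal false, nonterminal (some (D + 1))]⟩) ∨
  (∃ D : ℤ, ∃ b : Bool, |D| ≤ 2 ∧
    r = ⟨some D, [terminal true, nonterminal (some (D - bv b)), terminal b]⟩) ∨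
  (∃ D : ℤ, |D| = 3 ∧ r = ⟨some D, [nonterminal none]⟩) ∨
  r = ⟨none, []⟩ ∨ (∃ b : Bool, r = ⟨none, [terminal b, nonterminal none]⟩)

lemma fin_abs (k : ℤ) : {D : ℤ | |D| ≤ k}.Finite :=
  (Set.finite_Icc (-k) k).subset (fun D hD => abs_le.1 hD)

lemma RR_finite : {r | RR r}.Finite := by
  have h1 := (fin_abs 2).image (fun D : ℤ => (⟨some D, [terminal false,
    nonterminal (some (D + 1))]⟩ : ContextFreeRule Bool (Option ℤ)))
  have h2 := ((fin_abs 2).prod (Set.finite_univ (α := Bool))).image
    (fun x : ℤ × Bool => (⟨some x.1, [terminal true, nonterminal (some (x.1 - bv x.2)),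
      terminal x.2]⟩ : ContextFreeRule Bool (Option ℤ)))
  have h3 := (fin_abs 3).image (fun D : ℤ => (⟨some D, [nonterminal none]⟩ :
    ContextFreeRule Bool (Option ℤ)))
  have h4 := Set.finite_singleton (⟨none, []⟩ : ContextFreeRule Bool (Option ℤ))
  have h5 := (Set.finite_univ (α := Bool)).image (fun b : Bool => (⟨none, [terminal b,
    nonterminal none]⟩ : ContextFreeRule Bool (Option ℤ)))
  refine (h1.union (h2.union (h3.union (h4.union h5)))).subset ?_
  rintro r (⟨D, hD, rfl⟩ | ⟨D, b, hD, rfl⟩ | ⟨D, hD, rfl⟩ | rfl | ⟨b, rfl⟩)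
  · exact Or.inl ⟨D, hD, rfl⟩
  · exact Or.inr (Or.inl ⟨(D, b), ⟨hD, trivial⟩, rfl⟩)
  · exact Or.inr (Or.inr (Or.inl ⟨D, hD.le, rfl⟩))
  · exact Or.inr (Or.inr (Or.inr (Or.inl rfl)))
  · exact Or.inr (Or.inr (Or.inr (Or.inr ⟨b, trivial, rfl⟩)))

/-- The grammar. -/
noncomputable def gg : ContextFreeGrammar Bool := ⟨Option ℤ, some 0, RR_finite.toFinset⟩

lemma mem_rules (r : ContextFreeRule Bool (Option ℤ)) : r ∈ gg.rules ↔ RR r :=
  RR_finite.mem_toFinset

/-- Intended meaning of the nonterminals. -/
def SS : Option ℤ → Language Bool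
  | none => Set.univ
  | some D => {w | ∃ u y v : List Bool, w = u ++ y ++ v ∧ v.length = u.count true ∧
      |D + u.count false - v.count true| = 3}

lemma sound : ∀ w ∈ gg.language, w ∈ SS (some 0) := by
  refine language_sound gg SS ?_
  intro r hr w hw
  rcases (mem_rules r).1 hr with ⟨D, -, rfl⟩ | ⟨D, b, -, rfl⟩ | ⟨D, hD, rfl⟩ | rfl | ⟨b, rfl⟩
  · obtain ⟨w1, h1, rfl⟩ := (mem_formSem_t SS _ _ _).1 hw
    obtain ⟨x, w2, ⟨u, y, v, rfl, hl, hc⟩, h2, rfl⟩ := (mem_formSem_n SS _ _ _).1 h1
    rw [mem_formSem_nil] at h2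
    subst h2
    refine ⟨false :: u, y, v, by simp, by simpa using hl, ?_⟩
    rw [← hc]
    congr 1
    simp only [List.count_cons_self]
    push_cast
    ring
  · obtain ⟨w1, h1, rfl⟩ := (mem_formSem_t SS _ _ _).1 hw
    obtain ⟨x, w2, ⟨u, y, v, rfl, hl, hc⟩, h2, rfl⟩ := (mem_formSem_n SS _ _ _).1 h1
    obtain ⟨w3, h3, rfl⟩ := (mem_formSem_t SS _ _ _).1 h2
    rw [mem_formSem_nil] at h3
    subst h3
    refine ⟨true :: u, y, v ++ [b], by simp, by simpa using hl, ?_⟩
    rw [← hc]
    congr 1
    cases b <;> simp [bv] <;> ring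
  · exact ⟨[], w, [], by simp, by simp, by simpa using hD⟩
  · trivial
  · trivial

lemma derY (w : List Bool) : gg.Derives [nonterminal none] (w.map terminal) := by
  induction w with
  | nil => exact step gg ⟨none, []⟩ ((mem_rules _).2 (Or.inr (Or.inr (Or.inr (Or.inl rfl)))))
  | cons b w ih =>
    refine (step gg ⟨none, [terminal b, nonterminal none]⟩
      ((mem_rules _).2 (Or.inr (Or.inr (Or.inr (Or.inr ⟨b, rfl⟩)))))).trans ?_
    exact ih.append_left [terminal b]

lemma complete (y : List Bool) : ∀ (u v : List Bool) (D : ℤ), |D| ≤ 3 →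
    v.length = u.count true → 3 ≤ |D + u.count false - v.count true| →
    gg.Derives [nonterminal (some D)] ((u ++ y ++ v).map terminal) := by
  intro u
  induction u with
  | nil =>
    intro v D hD hl hc
    have hv : v = [] := List.length_eq_zero_iff.1 (by simpa using hl)
    subst hv
    have h3 : |D| = 3 := le_antisymm hD (by simpa using hc)
    exact (step gg ⟨some D, [nonterminal none]⟩
      ((mem_rules _).2 (Or.inr (Or.inr (Or.inl ⟨D, h3, rfl⟩))))).trans (derY _)
  | cons a u ih =>
    intro v D hD hl hc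
    rcases hD.eq_or_lt with h3 | h3
    · exact (step gg ⟨some D, [nonterminal none]⟩
        ((mem_rules _).2 (Or.inr (Or.inr (Or.inl ⟨D, h3, rfl⟩))))).trans (derY _)
    have h2 : |D| ≤ 2 := by omega
    cases a with
    | false =>
      refine (step gg ⟨some D, [terminal false, nonterminal (some (D + 1))]⟩
        ((mem_rules _).2 (Or.inl ⟨D, h2, rfl⟩))).trans ?_
      have := ih v (D + 1) (by rw [abs_le] at h2 ⊢; omega) (by simpa using hl) (by
        refine le_of_le_of_eq hc ?_
        congr 1
        simp only [List.count_cons_self]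
        push_cast
        ring)
      exact this.append_left [terminal false]
    | true =>
      rcases List.eq_nil_or_concat v with rfl | ⟨v', b, rfl⟩
      · simp at hl
      refine (step gg ⟨some D, [terminal true, nonterminal (some (D - bv b)), terminal b]⟩
        ((mem_rules _).2 (Or.inr (Or.inl ⟨D, b, h2, rfl⟩)))).trans ?_
      have := ih v' (D - bv b) (by rw [abs_le] at h2 ⊢; cases b <;> simp [bv] <;> omega)
        (by simpa using hl) (by
        refine le_of_le_of_eq hc ?_
        congr 1
        cases b <;> simp [bv] <;> ring)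
      have h4 := (this.append_left [terminal true]).append_right [terminal b]
      simpa using h4

/-- the golden slope -/
noncomputable def al : ℝ := (Real.sqrt 5 - 1) / 2

lemma al_sq : al ^ 2 + al = 1 := by
  have : Real.sqrt 5 ^ 2 = 5 := Real.sq_sqrt (by norm_num)
  unfold al
  nlinarith

lemma al_pos : 0 < al := by
  have : (1 : ℝ) < Real.sqrt 5 := by
    rw [Real.lt_sqrt (by norm_num)]; norm_num
  unfold al
  linarith

lemma al_lt : al < 1 := by
  nlinarith [al_sq, al_pos]

/-- the mechanical word -/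
noncomputable def xx (n : ℕ) : Bool := decide (⌊((n : ℝ) + 1) * al⌋ - ⌊(n : ℝ) * al⌋ = 1)

lemma bv_xx (n : ℕ) : bv (xx n) = ⌊((n : ℝ) + 1) * al⌋ - ⌊(n : ℝ) * al⌋ := by
  have h1 : ⌊(n : ℝ) * al⌋ ≤ ⌊((n : ℝ) + 1) * al⌋ := Int.floor_mono (by nlinarith [al_pos])
  have h2 : ⌊((n : ℝ) + 1) * al⌋ ≤ ⌊(n : ℝ) * al⌋ + 1 := by
    rw [← Int.floor_add_one]
    exact Int.floor_mono (by nlinarith [al_lt])
  unfold xx bv
  by_cases h : ⌊((n : ℝ) + 1) * al⌋ - ⌊(n : ℝ) * al⌋ = 1
  · simp [h]
  · simp only [h, decide_false, Bool.false_eq_true, if_false]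
    omega

/-- `w` occurs in the mechanical word at position `i`. -/
def QQ : ℕ → List Bool → Prop
  | _, [] => True
  | i, b :: w => b = xx i ∧ QQ (i + 1) w

lemma QQ_append : ∀ (a b : List Bool) (i : ℕ), QQ i (a ++ b) → QQ i a ∧ QQ (i + a.length) b
  | [], b, i, h => ⟨trivial, h⟩
  | c :: a, b, i, h => by
    obtain ⟨h1, h2⟩ := QQ_append a b (i + 1) h.2
    refine ⟨⟨h.1, h1⟩, ?_⟩
    have : i + (c :: a).length = i + 1 + a.length := by simp; omega
    rw [this]
    exact h2

lemma QQ_count : ∀ (w : List Bool) (i : ℕ), QQ i w →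
    (w.count true : ℤ) = ⌊((i : ℝ) + w.length) * al⌋ - ⌊(i : ℝ) * al⌋
  | [], i, _ => by simp
  | c :: w, i, h => by
    have h1 := QQ_count w (i + 1) h.2
    have h2 := bv_xx i
    rw [← h.1] at h2
    have h3 : ((c :: w).count true : ℤ) = w.count true + bv c := by
      cases c <;> simp [bv]
    have h4 : ((i : ℝ) + (c :: w).length) = ((i + 1 : ℕ) : ℝ) + w.length := by
      simp; ring
    rw [h3, h1, h2, h4]
    push_cast
    ring

lemma QQ_est (w : List Bool) (i : ℕ) (h : QQ i w) : |(w.count true : ℝ) - w.length * al| < 1 := by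
  have h1 : (w.count true : ℝ) = (⌊((i : ℝ) + w.length) * al⌋ : ℝ) - (⌊(i : ℝ) * al⌋ : ℝ) := by
    exact_mod_cast QQ_count w i h
  have a1 := Int.floor_le (((i : ℝ) + w.length) * al)
  have a2 := Int.lt_floor_add_one (((i : ℝ) + w.length) * al)
  have a3 := Int.floor_le ((i : ℝ) * al)
  have a4 := Int.lt_floor_add_one ((i : ℝ) * al)
  rw [abs_lt]
  constructor <;> nlinarith

lemma cnt (u : List Bool) : u.count true + u.count false = u.length := by
  induction u with
  | nil => rfl
  | cons a u ih => cases a <;> simp <;> omega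

lemma QQ_avoid (w : List Bool) (i : ℕ) (h : QQ i w) : ¬ ∃ v ∈ gg.language, v <:+: w := by
  rintro ⟨z, hz, s, t, rfl⟩
  obtain ⟨u, y, v, rfl, hl, hc⟩ := sound z hz
  obtain ⟨h1, -⟩ := QQ_append _ _ _ h
  obtain ⟨-, h2⟩ := QQ_append _ _ _ h1
  obtain ⟨h3, h4⟩ := QQ_append _ _ _ h2
  obtain ⟨h5, -⟩ := QQ_append _ _ _ h3
  have e1 := QQ_est _ _ h5
  have e2 := QQ_est _ _ h4
  have e3 : (u.count true : ℝ) + u.count false = u.length := by exact_mod_cast cnt u
  have e4 : (v.length : ℝ) = u.count true := by exact_mod_cast hl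
  have e5 : |(u.count false : ℝ) - v.count true| = 3 := by
    have : |(u.count false : ℤ) - v.count true| = 3 := by simpa using hc
    exact_mod_cast this
  rw [e4] at e2
  rw [abs_lt] at e1 e2
  have key : (u.count false : ℝ) - v.count true =
      -(1 + al) * ((u.count true : ℝ) - u.length * al) -
        ((v.count true : ℝ) - u.count true * al) := by
    have : (u.count false : ℝ) = u.length - u.count true := by linarith
    rw [this]
    linear_combination (-(u.length : ℝ)) * al_sq
  have p1 := al_pos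
  have p2 := al_lt
  rcases abs_eq (by norm_num : (0 : ℝ) ≤ 3) |>.1 e5 with e | e <;> nlinarith

/-- a factor of the mechanical word -/
noncomputable def mk : ℕ → ℕ → List Bool
  | _, 0 => []
  | i, n + 1 => xx i :: mk (i + 1) n

lemma mk_spec : ∀ (n i : ℕ), QQ i (mk i n) ∧ (mk i n).length = n
  | 0, _ => ⟨trivial, rfl⟩
  | n + 1, i => ⟨⟨rfl, (mk_spec n (i + 1)).1⟩, by simp [mk, (mk_spec n (i + 1)).2]⟩

lemma count_rep (b : Bool) (w : List Bool) (n : ℕ) :
    (List.replicate n w).flatten.count b = n * w.count b := by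
  induction n with
  | zero => simp
  | succ n ih => simp [List.replicate_succ, ih]; ring

lemma no_golden (p k : ℤ) (hp : 0 < p) : p * (p - k) - k * k ≠ 0 := by
  intro h
  have hp' : (p : ℚ) ≠ 0 := by exact_mod_cast hp.ne'
  have h' : (p : ℚ) * (p - k) - k * k = 0 := by exact_mod_cast h
  have hs : IsSquare ((5 : ℕ) : ℚ) := ⟨(2 * k + p) / p, by
    field_simp
    push_cast
    linear_combination 4 * h'⟩
  rw [Rat.isSquare_natCast_iff] at hs
  exact (Nat.prime_five.prime).not_isSquare hs

lemma periodic (w : List Bool) (hw : w ≠ []) :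
    ∃ n : ℕ, ∃ v ∈ gg.language, v <:+: (List.replicate n w).flatten := by
  refine ⟨3 * w.length + 3 * w.count true, _, ?_, List.infix_refl _⟩
  rw [ContextFreeGrammar.mem_language_iff]
  have hp : 0 < w.length := List.length_pos_iff.2 hw
  have := complete [] (List.replicate (3 * w.length) w).flatten
    (List.replicate (3 * w.count true) w).flatten 0 (by norm_num)
    (by rw [count_rep]; simp; ring) (by
      rw [count_rep, count_rep]
      have h1 := no_golden w.length (w.count true) (by exact_mod_cast hp)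
      have h2 : (w.count false : ℤ) = w.length - w.count true := by
        have := cnt w
        omega
      push_cast
      rw [h2]
      have h3 : (0 : ℤ) + 3 * (w.length : ℤ) * (w.length - w.count true) -
          3 * (w.count true : ℤ) * w.count true =
          3 * ((w.length : ℤ) * (w.length - w.count true) - w.count true * w.count true) := by ring
      rw [h3, abs_mul]
      have h4 := Int.one_le_abs h1
      norm_num
      exact h4)
  rw [List.replicate_add, List.flatten_append]
  rw [List.append_nil] at this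
  exact this

/-- The negation of the preceding statement: For every finite alphabet and context-free language L of nonempty words: only finitely many words avoid all factors from L iff for each nonempty word w some power of w has a factor in L. -/
theorem result :
    ¬ (∀ (α : Type) [Fintype α] (L : Language α),
      L.IsContextFree →
      (∀ v ∈ L, v ≠ []) →
      ({u : List α | ¬ ∃ v ∈ L, v <:+: u}.Finite ↔
        ∀ w : List α, w ≠ [] →
          ∃ n : ℕ, ∃ v ∈ L, v <:+: (List.replicate n w).flatten)) := by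
  intro H
  have hfin := (H Bool gg.language ⟨gg, rfl⟩ (by
    intro v hv h0
    subst h0
    obtain ⟨u, y, v, h, -, hc⟩ := sound _ hv
    have h' := h.symm
    simp only [List.append_eq_nil_iff] at h'
    obtain ⟨⟨rfl, -⟩, rfl⟩ := h'
    simp at hc)).2 periodic
  refine Set.infinite_of_injective_forall_mem (f := fun n => mk 0 n) ?_ ?_ hfin
  · intro a b hab
    have := congrArg List.length hab
    simpa [(mk_spec _ _).2] using this
  · intro n
    exact QQ_avoid _ 0 (mk_spec n 0).1

end Pool.Agent.S14696
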