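import Pool.Statements.S14813

set_option autoImplicit false
open Pool Pool.MP_655bfb_lc

namespace Pool.Agent.S14813

open Classical

section FI
variable {β γ : Type}

def glue (m : ℕ) (x y : ℕ → β) : ℕ → β := fun i => if i < m then x i else y (i - m)

def res (P : (ℕ → β) → Prop) (m : ℕ) (x : ℕ → β) : (ℕ → β) → Prop := fun y => P (glue m x y)

def FI (P : (ℕ → β) → Prop) : Prop :=
  (Set.range fun p : ℕ × (ℕ → β) => res P p.1 p.2).Finite

lemma FI.of_factor {τ : Type} {P : (ℕ → β) → Prop} (F : Set τ) (hF : F.Finite)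
    (φ : τ → (ℕ → β) → Prop) (h : ∀ m x, ∃ s ∈ F, ∀ y, P (glue m x y) ↔ φ s y) : FI P := by
  refine (hF.image φ).subset ?_
  rintro _ ⟨⟨m, x⟩, rfl⟩
  obtain ⟨s, hs, h⟩ := h m x
  exact ⟨s, hs, by funext y; exact propext (h y).symm⟩

lemma FI.not {P : (ℕ → β) → Prop} (h : FI P) : FI (fun x => ¬ P x) :=
  FI.of_factor _ h (fun R y => ¬ R y) (fun m x => ⟨res P m x, ⟨(m, x), rfl⟩, fun _ => Iff.rfl⟩)

lemma FI.and {P Q : (ℕ → β) → Prop} (h : FI P) (h' : FI Q) : FI (fun x => P x ∧ Q x) :=
  FI.of_factor _ (Set.Finite.prod h h') (fun R y => R.1 y ∧ R.2 y)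
    (fun m x => ⟨(res P m x, res Q m x), ⟨⟨(m, x), rfl⟩, ⟨(m, x), rfl⟩⟩, fun _ => Iff.rfl⟩)

lemma FI.comap {P : (ℕ → β) → Prop} (h : FI P) (f : γ → β) :
    FI (fun x : ℕ → γ => P (fun i => f (x i))) := by
  refine FI.of_factor _ h (fun R y => R (fun i => f (y i)))
    (fun m x => ⟨res P m (fun i => f (x i)), ⟨(m, _), rfl⟩, fun y => ?_⟩)
  have : (fun i => f (glue m x y i)) = glue m (fun i => f (x i)) (fun i => f (y i)) := by
    funext i; unfold glue; split_ifs <;> rfl
  simp only [res, this]

lemma glue_self (m : ℕ) (z : ℕ → β) : glue m z (fun i => z (i + m)) = z := by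
  funext i; unfold glue; split_ifs with h
  · rfl
  · show z (i - m + m) = z i
    congr 1; omega

lemma glue_pair (m : ℕ) (x y : ℕ → β) (z z' : ℕ → γ) :
    (fun i => (glue m x y i, glue m z z' i)) =
      glue m (fun i => (x i, z i)) (fun i => (y i, z' i)) := by
  funext i; unfold glue; split_ifs <;> rfl

lemma FI.ex {P : (ℕ → β × γ) → Prop} (h : FI P) :
    FI (fun x : ℕ → β => ∃ z : ℕ → γ, P (fun i => (x i, z i))) := by
  refine FI.of_factor _ (Set.Finite.finite_subsets h)
    (fun S y => ∃ R ∈ S, ∃ z' : ℕ → γ, R (fun i => (y i, z' i)))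
    (fun m x => ⟨{R | ∃ z : ℕ → γ, R = res P m (fun i => (x i, z i))}, ?_, fun y => ?_⟩)
  · rintro _ ⟨z, rfl⟩
    exact ⟨(m, _), rfl⟩
  · constructor
    · rintro ⟨z, hz⟩
      refine ⟨_, ⟨z, rfl⟩, fun i => z (i + m), ?_⟩
      unfold res
      rw [← glue_pair, glue_self]
      exact hz
    · rintro ⟨_, ⟨z, rfl⟩, z', hz⟩
      refine ⟨glue m z z', ?_⟩
      unfold res at hz
      rw [← glue_pair] at hz
      exact hz

lemma FI.all (R : β → Prop) : FI (fun x : ℕ → β => ∀ i, R (x i)) := by
  refine FI.of_factor (Set.univ : Set Prop) Set.finite_univ (fun p y => p ∧ ∀ i, R (y i))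
    (fun m x => ⟨∀ i < m, R (x i), trivial, fun y => ?_⟩)
  constructor
  · intro h
    refine ⟨fun i hi => ?_, fun i => ?_⟩
    · have := h i; simpa [glue, hi] using this
    · have := h (i + m); simpa [glue] using this
  · rintro ⟨h1, h2⟩ i
    unfold glue; split_ifs with hi
    · exact h1 i hi
    · exact h2 _

def run {σ : Type} (step : σ → β → σ) (q : σ) (x : ℕ → β) : ℕ → σ
  | 0 => q
  | L + 1 => step (run step q x L) (x L)

lemma run_glue_le {σ : Type} (step : σ → β → σ) (q : σ) (x y : ℕ → β) (m : ℕ) :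
    ∀ L ≤ m, run step q (glue m x y) L = run step q x L := by
  intro L
  induction L with
  | zero => intro _; rfl
  | succ L ih =>
    intro h
    simp only [run]
    rw [ih (by omega)]
    have : L < m := by omega
    simp [glue, this]

lemma run_glue {σ : Type} (step : σ → β → σ) (q : σ) (x y : ℕ → β) (m : ℕ) :
    ∀ L, run step q (glue m x y) (L + m) = run step (run step q x m) y L := by
  intro L
  induction L with
  | zero => simpa [run] using run_glue_le step q x y m m le_rfl
  | succ L ih =>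
    have : L + 1 + m = (L + m) + 1 := by ring
    rw [this]
    simp only [run]
    rw [ih]
    simp [glue]

lemma FI.ev {σ : Type} [Finite σ] (step : σ → β → σ) (q : σ) (F : σ → Prop) :
    FI (fun x : ℕ → β => ∃ L0, ∀ L, L0 ≤ L → F (run step q x L)) := by
  refine FI.of_factor (Set.univ : Set σ) Set.finite_univ
    (fun s y => ∃ L0, ∀ L, L0 ≤ L → F (run step s y L))
    (fun m x => ⟨run step q x m, trivial, fun y => ?_⟩)
  constructor
  · rintro ⟨L0, h⟩
    refine ⟨L0, fun L hL => ?_⟩
    rw [← run_glue]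
    exact h _ (by omega)
  · rintro ⟨L0, h⟩
    refine ⟨L0 + m, fun L hL => ?_⟩
    obtain ⟨L', rfl⟩ : ∃ L', L = L' + m := ⟨L - m, by omega⟩
    rw [run_glue]
    exact h _ (by omega)

def IsWord (z : ℕ → Option β) : Prop := ∃ L, ∀ i, (z i).isSome ↔ i < L

lemma isWord_iff (z : ℕ → Option β) : IsWord z ↔ ∃ w : List β, z = fun i => w[i]? := by
  constructor
  · rintro ⟨L, h⟩
    refine ⟨List.ofFn (n := L) fun i => (z i).get ((h i).2 i.2), ?_⟩
    funext i
    by_cases hi : i < L
    · simp [hi]
    · have : ¬ (z i).isSome := fun h' => hi ((h i).1 h')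
      rw [List.getElem?_eq_none (by simpa using hi)]
      simpa using this
  · rintro ⟨w, rfl⟩
    exact ⟨w.length, fun i => by simp⟩

lemma FI.isWord : FI (IsWord (β := β)) := by
  refine FI.of_factor (Set.univ : Set (Prop × Prop)) Set.finite_univ
    (fun p y => (p.1 ∧ IsWord y) ∨ (p.2 ∧ ∀ i, ¬ (y i).isSome))
    (fun m x => ⟨(∀ i < m, (x i).isSome, ∃ L ≤ m, ∀ i < m, ((x i).isSome ↔ i < L)), trivial,
      fun y => ?_⟩)
  constructor
  · rintro ⟨L, h⟩
    by_cases hL : L ≤ m
    · right
      refine ⟨⟨L, hL, fun i hi => ?_⟩, fun i => ?_⟩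
      · have := h i; simpa [glue, hi] using this
      · have := h (i + m)
        simp only [glue, show ¬ (i + m < m) by omega, if_false, Nat.add_sub_cancel] at this
        rw [this]; omega
    · left
      refine ⟨fun i hi => ?_, L - m, fun i => ?_⟩
      · have := h i
        simp only [glue, hi, if_true] at this
        rw [this]; omega
      · have := h (i + m)
        simp only [glue, show ¬ (i + m < m) by omega, if_false, Nat.add_sub_cancel] at this
        rw [this]; omega
  · rintro (⟨h1, L, h2⟩ | ⟨⟨L, hL, h1⟩, h2⟩)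
    · refine ⟨L + m, fun i => ?_⟩
      unfold glue; split_ifs with hi
      · simp only [h1 i hi, true_iff]; omega
      · rw [h2]; omega
    · refine ⟨L, fun i => ?_⟩
      unfold glue; split_ifs with hi
      · exact h1 i hi
      · exact ⟨fun h => absurd h (h2 _), fun h => by omega⟩

end FI

section Aut
variable {α : Type}

def enc {ι : Type} (w : ι → List α) : ℕ → ι → Option α := fun i j => (w j)[i]?

def Aut {ι : Type} (P : (ι → List α) → Prop) : Prop :=
  ∃ P' : (ℕ → ι → Option α) → Prop, FI P' ∧ ∀ w, P w ↔ P' (enc w)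

lemma Aut.congr {ι : Type} {P Q : (ι → List α) → Prop} (h : Aut P) (hPQ : ∀ w, Q w ↔ P w) :
    Aut Q := by
  obtain ⟨P', h1, h2⟩ := h
  exact ⟨P', h1, fun w => (hPQ w).trans (h2 w)⟩

lemma Aut.not {ι : Type} {P : (ι → List α) → Prop} (h : Aut P) : Aut (fun w => ¬ P w) := by
  obtain ⟨P', h1, h2⟩ := h
  exact ⟨_, h1.not, fun w => not_congr (h2 w)⟩

lemma Aut.and {ι : Type} {P Q : (ι → List α) → Prop} (h : Aut P) (h' : Aut Q) :
    Aut (fun w => P w ∧ Q w) := by
  obtain ⟨P', h1, h2⟩ := h
  obtain ⟨Q', h3, h4⟩ := h'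
  exact ⟨_, h1.and h3, fun w => and_congr (h2 w) (h4 w)⟩

lemma Aut.imp {ι : Type} {P Q : (ι → List α) → Prop} (h : Aut P) (h' : Aut Q) :
    Aut (fun w => P w → Q w) :=
  (h.and h'.not).not.congr (fun w => by tauto)

lemma Aut.or {ι : Type} {P Q : (ι → List α) → Prop} (h : Aut P) (h' : Aut Q) :
    Aut (fun w => P w ∨ Q w) :=
  (h.not.and h'.not).not.congr (fun w => by tauto)

lemma Aut.const {ι : Type} (p : Prop) : Aut (fun _ : ι → List α => p) :=
  ⟨_, FI.all (fun _ => p), fun _ => ⟨fun h _ => h, fun h => h 0⟩⟩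

lemma Aut.forall_fin {ι κ : Type} [Finite κ] {P : κ → (ι → List α) → Prop}
    (h : ∀ k, Aut (P k)) : Aut (fun w => ∀ k, P k w) := by
  have := Fintype.ofFinite κ
  have key : ∀ s : Finset κ, Aut (fun w => ∀ k ∈ s, P k w) := by
    intro s
    induction s using Finset.induction_on with
    | empty => exact (Aut.const True).congr (fun w => by simp)
    | insert a s ha ih => exact ((h a).and ih).congr (fun w => by simp)
  exact (key Finset.univ).congr (fun w => by simp)

lemma Aut.reindex {ι κ : Type} {P : (ι → List α) → Prop} (h : Aut P) (f : ι → κ) :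
    Aut (fun w : κ → List α => P (fun j => w (f j))) := by
  obtain ⟨P', h1, h2⟩ := h
  exact ⟨_, h1.comap (fun (v : κ → Option α) (j : ι) => v (f j)), fun w => h2 _⟩

lemma Aut.eq {ι : Type} (a b : ι) : Aut (fun w : ι → List α => w a = w b) := by
  refine ⟨_, FI.all (fun v : ι → Option α => v a = v b), fun w => ?_⟩
  constructor
  · intro h i; simp [enc, h]
  · intro h; exact List.ext_getElem? h

lemma Aut.ex {ι : Type} {P : (Option ι → List α) → Prop} (h : Aut P) :
    Aut (fun w : ι → List α => ∃ v, P (fun j => j.elim v w)) := by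
  obtain ⟨P', h1, h2⟩ := h
  have h3 := ((FI.isWord.comap (fun p : (ι → Option α) × Option α => p.2)).and
    (h1.comap (fun (p : (ι → Option α) × Option α) (j : Option ι) => j.elim p.2 p.1))).ex
  refine ⟨_, h3, fun w => ?_⟩
  have e : ∀ v : List α, enc (fun j : Option ι => j.elim v w) =
      fun (i : ℕ) (j : Option ι) => j.elim v[i]? (enc w i) := by
    intro v; funext i j; cases j <;> rfl
  constructor
  · rintro ⟨v, hv⟩
    refine ⟨fun i => v[i]?, (isWord_iff _).2 ⟨v, rfl⟩, ?_⟩
    rw [h2, e] at hv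
    exact hv
  · rintro ⟨z, hz, hP⟩
    obtain ⟨v, rfl⟩ := (isWord_iff z).1 hz
    refine ⟨v, ?_⟩
    rw [h2, e]
    exact hP

lemma Aut.all {ι : Type} {P : (Option ι → List α) → Prop} (h : Aut P) :
    Aut (fun w : ι → List α => ∀ v, P (fun j => j.elim v w)) :=
  h.not.ex.not.congr (fun w => by simp)

lemma Aut.base {n : ℕ} {σ : Type} [Finite σ] (step : σ → (Fin n → Option α) → σ) (q : σ)
    (F : σ → Prop) :
    Aut (fun w : Fin n → List α => F (List.foldl step q
      ((List.range (Finset.univ.sup fun j => (w j).length)).map fun i j => (w j)[i]?))) := by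
  let step' : σ → (Fin n → Option α) → σ := fun s c => if c = fun _ => none then s else step s c
  refine ⟨_, FI.ev step' q F, fun w => ?_⟩
  set N := Finset.univ.sup fun j => (w j).length with hN
  have h1 : ∀ L ≤ N, run step' q (enc w) L =
      List.foldl step q ((List.range L).map fun i j => (w j)[i]?) := by
    intro L
    induction L with
    | zero => intro _; rfl
    | succ L ih =>
      intro hL
      rw [List.range_succ, List.map_append, List.foldl_append, ← ih (by omega)]
      simp only [run, List.map_cons, List.map_nil, List.foldl_cons, List.foldl_nil, step']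
      rw [if_neg]
      · rfl
      · intro hc
        have : N ≤ L := by
          rw [hN]
          refine Finset.sup_le fun j _ => ?_
          have := congrFun hc j
          simpa [enc] using this
        omega
  have h2 : ∀ L, N ≤ L → run step' q (enc w) L = run step' q (enc w) N := by
    intro L hL
    induction L, hL using Nat.le_induction with
    | base => rfl
    | succ L hL ih =>
      simp only [run, step']
      rw [if_pos]
      · exact ih
      · funext j
        have : (w j).length ≤ N := by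
          rw [hN]; exact Finset.le_sup (f := fun j => (w j).length) (Finset.mem_univ j)
        simp only [enc]
        exact List.getElem?_eq_none (by omega)
  show F (List.foldl step q ((List.range N).map fun i j => (w j)[i]?)) ↔ _
  rw [← h1 N le_rfl]
  constructor
  · intro h; exact ⟨N, fun L hL => by rw [h2 L hL]; exact h⟩
  · rintro ⟨L0, h⟩
    have := h (max L0 N) (le_max_left _ _)
    rwa [h2 _ (le_max_right _ _)] at this

lemma Aut.regular {ι : Type} [Finite ι] {P : (Option ι → List α) → Prop} (h : Aut P)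
    (a : ι → List α) (A : Language α) (hA : ∀ v, v ∈ A ↔ P (fun j => j.elim v a)) :
    A.IsRegular := by
  obtain ⟨P', h1, h2⟩ := h
  have := Fintype.ofFinite ι
  apply Language.IsRegular.of_finite_range_leftQuotient
  set N := Finset.univ.sup fun j => (a j).length with hN
  have hfin : (Set.range fun m : ℕ => fun j => (a j).drop m).Finite := by
    refine ((Set.finite_Iic N).image (fun m : ℕ => fun j => (a j).drop m)).subset ?_
    rintro _ ⟨m, rfl⟩
    by_cases hm : m ≤ N
    · exact ⟨m, hm, rfl⟩
    · refine ⟨N, Set.mem_Iic.2 le_rfl, ?_⟩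
      funext j
      have : (a j).length ≤ N := by
        rw [hN]; exact Finset.le_sup (f := fun j => (a j).length) (Finset.mem_univ j)
      simp only
      rw [List.drop_eq_nil_of_le this, List.drop_eq_nil_of_le (by omega)]
  refine ((Set.Finite.prod h1 hfin).image
    (fun p => ({v | p.1 (enc fun j : Option ι => j.elim v p.2)} : Language α))).subset ?_
  rintro _ ⟨u, rfl⟩
  refine ⟨(res P' u.length (enc fun j : Option ι => j.elim u a), fun j => (a j).drop u.length),
    ⟨⟨(_, _), rfl⟩, ⟨_, rfl⟩⟩, ?_⟩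
  funext v
  apply propext
  show _ ↔ u ++ v ∈ A
  rw [hA, h2]
  have : enc (fun j : Option ι => j.elim (u ++ v) a) =
      glue u.length (enc fun j : Option ι => j.elim u a)
        (enc fun j : Option ι => j.elim v fun j => (a j).drop u.length) := by
    funext i j
    unfold glue
    split_ifs with hi
    · cases j with
      | none => simp [enc, List.getElem?_append_left hi]
      | some j => simp [enc]
    · cases j with
      | none => simp [enc, List.getElem?_append_right (not_lt.1 hi)]
      | some j =>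
        simp only [enc, Option.elim, List.getElem?_drop]
        congr 1; omega
  rw [this]
  rfl

end Aut

section Comb
variable {W : Type}

def Ld (T : Set W) : ℕ → Set (W → Bool) → Prop
  | 0, C => C.Nonempty
  | r + 1, C => ∃ v ∈ T, Ld T r {g | g ∈ C ∧ g v = true} ∧ Ld T r {g | g ∈ C ∧ g v = false}

lemma Ld.mono {T T' : Set W} (hT : T ⊆ T') : ∀ {r : ℕ} {C C' : Set (W → Bool)}, C ⊆ C' →
    Ld T r C → Ld T' r C' := by
  intro r
  induction r with
  | zero => intro C C' h h'; exact Set.Nonempty.mono h h'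
  | succ r ih =>
    rintro C C' h ⟨v, hv, h1, h2⟩
    exact ⟨v, hT hv, ih (fun g hg => ⟨h hg.1, hg.2⟩) h1, ih (fun g hg => ⟨h hg.1, hg.2⟩) h2⟩

lemma Ld.nonempty {T : Set W} : ∀ {r : ℕ} {C : Set (W → Bool)}, Ld T r C → C.Nonempty := by
  intro r
  induction r with
  | zero => intro C h; exact h
  | succ r ih =>
    rintro C ⟨v, _, h1, _⟩
    exact (ih h1).mono (fun g hg => hg.1)

lemma Ld.ramsey (T1 T2 : Set W) : ∀ (s p q : ℕ) (C : Set (W → Bool)), p + q = s →
    Ld (T1 ∪ T2) (s + 1) C → Ld T1 (p + 1) C ∨ Ld T2 (q + 1) C := by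
  intro s
  induction s with
  | zero =>
    rintro p q C h ⟨v, hv, h1, h2⟩
    obtain rfl : p = 0 := by omega
    obtain rfl : q = 0 := by omega
    rcases hv with hv | hv
    · exact Or.inl ⟨v, hv, h1, h2⟩
    · exact Or.inr ⟨v, hv, h1, h2⟩
  | succ s ih =>
    rintro p q C h ⟨v, hv, h1, h2⟩
    rcases hv with hv | hv
    · rcases p with _ | p
      · exact Or.inl ⟨v, hv, h1.nonempty, h2.nonempty⟩
      · rcases ih p q _ (by omega) h1 with a | a
        · rcases ih p q _ (by omega) h2 with b | b
          · exact Or.inl ⟨v, hv, a, b⟩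
          · exact Or.inr (Ld.mono subset_rfl (fun g hg => hg.1) b)
        · exact Or.inr (Ld.mono subset_rfl (fun g hg => hg.1) a)
    · rcases q with _ | q
      · exact Or.inr ⟨v, hv, h1.nonempty, h2.nonempty⟩
      · rcases ih p q _ (by omega) h1 with a | a
        · exact Or.inl (Ld.mono subset_rfl (fun g hg => hg.1) a)
        · rcases ih p q _ (by omega) h2 with b | b
          · exact Or.inl (Ld.mono subset_rfl (fun g hg => hg.1) b)
          · exact Or.inr ⟨v, hv, a, b⟩

def Thr (c : Bool) (T : Set W) (C : Set (W → Bool)) (a : ℕ) : Prop :=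
  ∃ U : Finset W, U.card = a ∧ (↑U : Set W) ⊆ T ∧
    ∀ k ≤ a, ∃ g ∈ C, (U.filter fun u => g u = c).card = k

lemma Thr.mono {c : Bool} {T T' : Set W} {C C' : Set (W → Bool)} {a : ℕ} (hT : T ⊆ T')
    (hC : C ⊆ C') (h : Thr c T C a) : Thr c T' C' a := by
  obtain ⟨U, h1, h2, h3⟩ := h
  exact ⟨U, h1, h2.trans hT, fun k hk => (h3 k hk).imp fun g hg => ⟨hC hg.1, hg.2⟩⟩

lemma Thr.zero (c : Bool) (T : Set W) {C : Set (W → Bool)} (h : C.Nonempty) : Thr c T C 0 := by
  obtain ⟨g, hg⟩ := h
  exact ⟨∅, rfl, by simp, fun k hk => ⟨g, hg, by simp; omega⟩⟩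

lemma Thr.succ {c : Bool} {T : Set W} {C : Set (W → Bool)} {a : ℕ} {g : W → Bool} (hg : g ∈ C)
    {v : W} (hv : v ∈ T) (hgv : g v = c)
    (h : Thr c {u | u ∈ T ∧ g u = c} {g' | g' ∈ C ∧ g' v = !c} a) : Thr c T C (a + 1) := by
  obtain ⟨U, h1, h2, h3⟩ := h
  have hvU : v ∉ U := by
    intro hvU
    obtain ⟨g', hg', hc⟩ := h3 a le_rfl
    have : U.filter (fun u => g' u = c) = U :=
      Finset.eq_of_subset_of_card_le (Finset.filter_subset _ _) (by omega)
    rw [← this, Finset.mem_filter, hg'.2] at hvU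
    cases c <;> simp at hvU
  refine ⟨insert v U, by rw [Finset.card_insert_of_notMem hvU, h1], ?_, fun k hk => ?_⟩
  · intro u hu
    simp only [Finset.coe_insert, Set.mem_insert_iff] at hu
    rcases hu with rfl | hu
    · exact hv
    · exact (h2 hu).1
  · by_cases hk' : k ≤ a
    · obtain ⟨g', hg', hc⟩ := h3 k hk'
      refine ⟨g', hg'.1, ?_⟩
      rw [Finset.filter_insert, if_neg, hc]
      rw [hg'.2]; cases c <;> simp
    · refine ⟨g, hg, ?_⟩
      rw [Finset.filter_true_of_mem, Finset.card_insert_of_notMem hvU]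
      · omega
      · intro u hu
        rcases Finset.mem_insert.1 hu with rfl | hu
        · exact hgv
        · exact (h2 hu).2

lemma thr_of_ld : ∀ (s a b : ℕ), a + b = s → ∃ N, ∀ (T : Set W) (C : Set (W → Bool)),
    Ld T N C → Thr true T C a ∨ Thr false T C b := by
  intro s
  induction s with
  | zero =>
    intro a b h
    obtain rfl : a = 0 := by omega
    exact ⟨0, fun T C h => Or.inl (Thr.zero _ _ h)⟩
  | succ s ih =>
    intro a b h
    rcases a with _ | a
    · exact ⟨0, fun T C h => Or.inl (Thr.zero _ _ h)⟩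
    rcases b with _ | b
    · exact ⟨0, fun T C h => Or.inr (Thr.zero _ _ h)⟩
    obtain ⟨p, hp⟩ := ih a (b + 1) (by omega)
    obtain ⟨q, hq⟩ := ih (a + 1) b (by omega)
    refine ⟨p + q + 1, fun T C h => ?_⟩
    obtain ⟨g, hg⟩ := h.nonempty
    have hT : T = {u | u ∈ T ∧ g u = true} ∪ {u | u ∈ T ∧ g u = false} := by
      ext u; simp only [Set.mem_union, Set.mem_ofPred_eq]; cases g u <;> simp
    rw [hT] at h
    rcases Ld.ramsey _ _ _ p q C rfl h with ⟨v, hv, _, h2⟩ | ⟨v, hv, h1, _⟩
    · rcases hp _ _ h2 with h3 | h3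
      · exact Or.inl (Thr.succ hg hv.1 hv.2 h3)
      · exact Or.inr (h3.mono (fun u hu => hu.1) (fun u hu => hu.1))
    · rcases hq _ _ h1 with h3 | h3
      · exact Or.inl (h3.mono (fun u hu => hu.1) (fun u hu => hu.1))
      · exact Or.inr (Thr.succ hg hv.1 hv.2 h3)

lemma Thr.flip {T : Set W} {C : Set (W → Bool)} {a : ℕ} (h : Thr false T C a) :
    Thr true T C a := by
  obtain ⟨U, h1, h2, h3⟩ := h
  refine ⟨U, h1, h2, fun k hk => ?_⟩
  obtain ⟨g, hg, hc⟩ := h3 (a - k) (by omega)
  refine ⟨g, hg, ?_⟩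
  have := Finset.card_filter_add_card_filter_not (s := U) (fun u => g u = true)
  simp only [Bool.not_eq_true] at this
  omega

variable {n : ℕ} (M : (Fin n → W) → ℕ → Prop)

def Cons (S : Set (W × Bool)) : Prop :=
  (∀ v b b', (v, b) ∈ S → (v, b') ∈ S → b = b') ∧
  ∀ (w : Fin n → W) (b : Fin n → Bool), Function.Injective w → (∀ j, (w j, b j) ∈ S) →
    M w (Finset.univ.filter fun j => b j = true).card

lemma Cons.mono {S S' : Set (W × Bool)} (h : S ⊆ S') (h' : Cons M S') : Cons M S :=
  ⟨fun v b b' h1 h2 => h'.1 v b b' (h h1) (h h2), fun w b hw hb => h'.2 w b hw fun j => h (hb j)⟩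

def Ext : ℕ → Set (W × Bool) → Prop
  | 0, S => Cons M S
  | K + 1, S => ∀ v, ∃ c, Ext K (insert (v, c) S)

def Rank (K : ℕ) : ℕ → Set (W × Bool) → Prop
  | 0, S => Ext M K S
  | r + 1, S => ∃ v, Rank K r (insert (v, true) S) ∧ Rank K r (insert (v, false) S)

def gr (g : W → Bool) (T : Finset W) : Set (W × Bool) := {p | p.1 ∈ T ∧ p.2 = g p.1}

lemma ext_total [Nonempty W] : ∀ (K : ℕ) (S : Set (W × Bool)) (T : Finset W), T.card ≤ K →
    Ext M K S → ∃ g, Cons M (S ∪ gr g T) := by
  intro K
  induction K with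
  | zero =>
    intro S T hT h
    obtain rfl : T = ∅ := Finset.card_eq_zero.1 (by omega)
    exact ⟨fun _ => true, Cons.mono M (by simp [gr]) h⟩
  | succ K ih =>
    intro S T hT h
    rcases T.eq_empty_or_nonempty with rfl | ⟨v, hv⟩
    · obtain ⟨c, hc⟩ := h (Classical.arbitrary W)
      obtain ⟨g, hg⟩ := ih _ ∅ (by simp) hc
      exact ⟨g, Cons.mono M (Set.union_subset_union_left _ (Set.subset_insert _ _)) hg⟩
    · obtain ⟨c, hc⟩ := h v
      obtain ⟨g, hg⟩ := ih _ (T.erase v) (by rw [Finset.card_erase_of_mem hv]; omega) hc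
      refine ⟨Function.update g v c, Cons.mono M ?_ hg⟩
      rintro ⟨u, b⟩ (hu | ⟨hu, hb⟩)
      · exact Or.inl (Set.mem_insert_of_mem _ hu)
      · by_cases huv : u = v
        · subst huv
          simp only [Function.update_self] at hb
          subst hb
          exact Or.inl (Set.mem_insert _ _)
        · simp only [Function.update_of_ne huv] at hb
          exact Or.inr ⟨Finset.mem_erase.2 ⟨huv, hu⟩, hb⟩

lemma rank_ld [Nonempty W] (K : ℕ) : ∀ (r : ℕ) (S : Set (W × Bool)), Rank M K r S →
    ∃ T : Finset W, T.card < 2 ^ r ∧ ∀ T' : Finset W, T ⊆ T' → T'.card ≤ K →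
      Ld (↑T' : Set W) r {g | Cons M (S ∪ gr g T')} := by
  intro r
  induction r with
  | zero => intro S h; exact ⟨∅, by simp, fun T' _ hT' => ext_total M K S T' hT' h⟩
  | succ r ih =>
    rintro S ⟨v, h1, h2⟩
    obtain ⟨T1, a1, b1⟩ := ih _ h1
    obtain ⟨T2, a2, b2⟩ := ih _ h2
    refine ⟨insert v (T1 ∪ T2), ?_, fun T' hT' hK => ?_⟩
    · have := Finset.card_insert_le v (T1 ∪ T2)
      have := Finset.card_union_le T1 T2
      rw [pow_succ]; omega
    · have hv : v ∈ T' := hT' (Finset.mem_insert_self _ _)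
      have key : ∀ c : Bool, {g | Cons M (insert (v, c) S ∪ gr g T')} ⊆
          {g | g ∈ {g | Cons M (S ∪ gr g T')} ∧ g v = c} := by
        intro c g hg
        refine ⟨Cons.mono M (Set.union_subset_union_left _ (Set.subset_insert _ _)) hg, ?_⟩
        exact hg.1 v _ _ (Or.inr ⟨hv, rfl⟩) (Or.inl (Set.mem_insert _ _))
      refine ⟨v, hv, Ld.mono subset_rfl (key true) (b1 T' ?_ hK),
        Ld.mono subset_rfl (key false) (b2 T' ?_ hK)⟩
      · exact fun u hu => hT' (Finset.mem_insert_of_mem (Finset.mem_union_left _ hu))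
      · exact fun u hu => hT' (Finset.mem_insert_of_mem (Finset.mem_union_right _ hu))

lemma rank_bound [Nonempty W] (hM : ∀ w, ∃ k ≤ n, ¬ M w k) :
    ∃ K h, ∀ S, ¬ Rank M K h S := by
  obtain ⟨N, hN⟩ := thr_of_ld (W := W) _ n n rfl
  refine ⟨2 ^ N, N, fun S hS => ?_⟩
  obtain ⟨T, h1, h2⟩ := rank_ld M _ _ _ hS
  have h3 := hN _ _ (h2 T subset_rfl h1.le)
  have h4 : Thr true (↑T : Set W) {g | Cons M (S ∪ gr g T)} n := h3.elim id Thr.flip
  obtain ⟨U, hU, hUT, hc⟩ := h4
  let e : U ≃ Fin n := U.equivFinOfCardEq hU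
  obtain ⟨k, hk, hMk⟩ := hM (fun j => (e.symm j : W))
  obtain ⟨g, hg, hgk⟩ := hc k hk
  apply hMk
  have := hg.2 (fun j => (e.symm j : W)) (fun j => g (e.symm j))
    (Subtype.val_injective.comp e.symm.injective)
    (fun j => Or.inr ⟨hUT (e.symm j).2, rfl⟩)
  convert this using 1
  rw [← hgk]
  symm
  refine Finset.card_bij (fun j _ => (e.symm j : W)) ?_ ?_ ?_
  · intro j hj
    exact Finset.mem_filter.2 ⟨(e.symm j).2, (Finset.mem_filter.1 hj).2⟩
  · intro a _ b _ hab
    exact e.symm.injective (Subtype.ext hab)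
  · intro u hu
    refine ⟨e ⟨u, (Finset.mem_filter.1 hu).1⟩, ?_, by simp⟩
    simpa using (Finset.mem_filter.1 hu).2

lemma ext_of_sub (χ : W → Bool) (hχ : Cons M {p | p.2 = χ p.1}) :
    ∀ (K : ℕ) (S : Set (W × Bool)), S ⊆ {p | p.2 = χ p.1} → Ext M K S := by
  intro K
  induction K with
  | zero => intro S h; exact Cons.mono M h hχ
  | succ K ih => intro S h v; exact ⟨χ v, ih _ (Set.insert_subset rfl h)⟩

lemma definable [Nonempty W] (hM : ∀ w, ∃ k ≤ n, ¬ M w k) (χ : W → Bool)
    (hχ : Cons M {p | p.2 = χ p.1}) :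
    ∃ (K r : ℕ) (S : Set (W × Bool)), S.Finite ∧
      ∀ v, χ v = true ↔ Rank M K r (insert (v, true) S) := by
  obtain ⟨K, h, hh⟩ := rank_bound M hM
  have hex : ∃ r, ∃ S : Set (W × Bool), S.Finite ∧ S ⊆ {p | p.2 = χ p.1} ∧ ¬ Rank M K r S :=
    ⟨h, ∅, Set.finite_empty, Set.empty_subset _, hh _⟩
  obtain ⟨S, h1, h2, h3⟩ := Nat.find_spec hex
  have hmin := fun r (hr : r < Nat.find hex) => Nat.find_min hex hr
  rcases hr : Nat.find hex with _ | r
  · rw [hr] at h3
    exact absurd (ext_of_sub M χ hχ K S h2) h3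
  · rw [hr] at h3 hmin
    refine ⟨K, r, S, h1, fun v => ?_⟩
    have h4 : Rank M K r (insert (v, χ v) S) := by
      by_contra hc
      exact hmin r (by omega) ⟨_, h1.insert _, Set.insert_subset rfl h2, hc⟩
    constructor
    · intro hv; rwa [hv] at h4
    · intro hv
      by_contra hc
      simp only [Bool.not_eq_true] at hc
      rw [hc] at h4
      exact h3 ⟨v, hv, h4⟩

end Comb

section Good
variable {α : Type}

def Good (Φ : Set (List α × Bool) → Prop) : Prop :=
  ∀ (ι : Type) [Finite ι] (b : ι → Bool),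
    Aut (fun w : ι → List α => Φ (Set.range fun i => (w i, b i)))

lemma range_elim {ι : Type} (w : ι → List α) (b : ι → Bool) (v : List α) (c : Bool) :
    (Set.range fun i : Option ι => (i.elim v w, i.elim c b)) =
      insert (v, c) (Set.range fun i => (w i, b i)) := by
  ext p
  simp only [Set.mem_range, Set.mem_insert_iff, Option.exists, Option.elim]
  constructor
  · rintro (h | h)
    · exact Or.inl h.symm
    · exact Or.inr h
  · rintro (h | h)
    · exact Or.inl h.symm
    · exact Or.inr h

variable {n : ℕ} (M : (Fin n → List α) → ℕ → Prop)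

lemma good_cons (hM : ∀ k, Aut (fun w => M w k)) : Good (Cons M) := by
  intro ι _ b
  have h1 : Aut (fun w : ι → List α => ∀ p : ι × ι, w p.1 = w p.2 → b p.1 = b p.2) :=
    Aut.forall_fin fun p => (Aut.eq _ _).imp (Aut.const _)
  have h2 : Aut (fun w : ι → List α => ∀ f : Fin n → ι,
      (∀ p : Fin n × Fin n, w (f p.1) = w (f p.2) → p.1 = p.2) →
        M (fun j => w (f j)) (Finset.univ.filter fun j => b (f j) = true).card) :=
    Aut.forall_fin fun f => (Aut.forall_fin fun p => (Aut.eq _ _).imp (Aut.const _)).imp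
      ((hM _).reindex f)
  refine (h1.and h2).congr fun w => ?_
  constructor
  · rintro ⟨a1, a2⟩
    refine ⟨fun p hp => a1 (w p.1) _ _ ⟨p.1, rfl⟩ ⟨p.2, by rw [hp]⟩, fun f hf => ?_⟩
    exact a2 _ (fun j => b (f j)) (fun i j hij => hf (i, j) hij) (fun j => ⟨f j, rfl⟩)
  · rintro ⟨a1, a2⟩
    constructor
    · rintro v c c' ⟨i, hi⟩ ⟨j, hj⟩
      simp only [Prod.mk.injEq] at hi hj
      rw [← hi.2, ← hj.2]
      exact a1 (i, j) (hi.1.trans hj.1.symm)
    · intro u c hu hc
      choose f hf using hc
      simp only [Prod.mk.injEq] at hf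
      obtain rfl : u = fun j => w (f j) := funext fun j => (hf j).1.symm
      obtain rfl : c = fun j => b (f j) := funext fun j => (hf j).2.symm
      exact a2 f (fun p hp => hu hp)

lemma good_ext (hM : ∀ k, Aut (fun w => M w k)) : ∀ K, Good (Ext M K) := by
  intro K
  induction K with
  | zero => exact good_cons M hM
  | succ K ih =>
    intro ι _ b
    refine ((ih (Option ι) (fun i => i.elim true b)).or
      (ih (Option ι) (fun i => i.elim false b))).all.congr fun w => ?_
    simp only [range_elim, Ext, Bool.exists_bool]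
    exact forall_congr' fun v => or_comm

lemma good_rank (hM : ∀ k, Aut (fun w => M w k)) (K : ℕ) : ∀ r, Good (Rank M K r) := by
  intro r
  induction r with
  | zero => exact good_ext M hM K
  | succ r ih =>
    intro ι _ b
    refine ((ih (Option ι) (fun i => i.elim true b)).and
      (ih (Option ι) (fun i => i.elim false b))).ex.congr fun w => ?_
    simp only [range_elim, Rank]

end Good

/-- For any finite alphabet, language A and n ≥ 1: if some finite automaton reading n words synchronously (blank-padded) always outputs a set of at most n numbers containing how many distinct input words lie in A, then A is regular. -/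
theorem result :
    ∀ (α : Type) [Fintype α] (A : Language α) (n : ℕ), 1 ≤ n →
      (∃ (k : ℕ) (step : Fin k → (Fin n → Option α) → Fin k) (start : Fin k)
          (out : Fin k → Finset ℕ),
        (∀ q, (out q).card ≤ n) ∧
        ∀ w : Fin n → List α,
          ({x : List α | ∃ j, w j = x ∧ x ∈ A}).ncard ∈
            out (List.foldl step start
              ((List.range (Finset.univ.sup fun j => (w j).length)).map
                fun i j => (w j)[i]?))) →
      ∃ (k : ℕ) (M : DFA α (Fin k)), M.accepts = A := by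
  rintro α _ A n _ ⟨k, step, start, out, h1, h2⟩
  let M : (Fin n → List α) → ℕ → Prop := fun w c => c ∈ out (List.foldl step start
    ((List.range (Finset.univ.sup fun j => (w j).length)).map fun i j => (w j)[i]?))
  have hA : ∀ c, Aut (fun w => M w c) := fun c => Aut.base step start (fun q => c ∈ out q)
  have hM : ∀ w, ∃ c ≤ n, ¬ M w c := by
    intro w
    by_contra hc
    push Not at hc
    have : Finset.range (n + 1) ⊆ out _ := fun c h => hc c (by simpa [Nat.lt_succ_iff] using h)
    have h3 := (Finset.card_le_card this).trans (h1 _)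
    simp at h3
  let χ : List α → Bool := fun v => decide (v ∈ A)
  have hχ : Cons M {p | p.2 = χ p.1} := by
    constructor
    · intro v b b' hb hb'
      exact hb.trans hb'.symm
    · intro w b hw hb
      have h3 := h2 w
      have : {x : List α | ∃ j, w j = x ∧ x ∈ A} =
          ↑((Finset.univ.filter fun j => b j = true).image w) := by
        ext x
        simp only [Set.mem_ofPred_eq, Finset.coe_image, Set.mem_image, Finset.coe_filter,
          Finset.mem_univ, true_and]
        constructor
        · rintro ⟨j, rfl, hj⟩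
          exact ⟨j, (hb j).trans (decide_eq_true hj), rfl⟩
        · rintro ⟨j, hj, rfl⟩
          exact ⟨j, rfl, of_decide_eq_true ((hb j).symm.trans hj)⟩
      rw [this, Set.ncard_coe_finset, Finset.card_image_of_injective _ hw] at h3
      exact h3
  obtain ⟨K, r, S, hS, hdef⟩ := definable M hM χ hχ
  have : Finite S := hS
  have hreg : A.IsRegular := by
    refine Aut.regular (good_rank M hA K r (Option S) (fun i => i.elim true fun s => s.1.2))
      (fun s => s.1.1) A fun v => ?_
    simp only [range_elim]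
    have : (Set.range fun i : S => (i.1.1, i.1.2)) = S := by
      ext p; simp
    rw [this, ← hdef]
    simp [χ]
  obtain ⟨σ, _, D, hD⟩ := hreg
  exact ⟨_, D.reindex (Fintype.equivFin σ), by rw [DFA.accepts_reindex, hD]⟩

end Pool.Agent.S14813
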