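import Pool.Statements.S14870
import Pool.Agent.Lib.lead.PcpMain

set_option autoImplicit false
open Pool Pool.MP_6f9417_lc

namespace Pool.Agent.S14870

/-- The negation of the preceding statement: Some computable predicate on pairs of equal-length lists of words over ℕ correctly decides, whenever both letter-image maps are elementary (not factorable through a smaller alphabet), whether some nonempty index word has equal images. -/
theorem result :
    ¬ (∃ P : List (List ℕ) × List (List ℕ) → Prop, ComputablePred P ∧
      ∀ u v : List (List ℕ), u.length = v.length →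
        (∀ m : ℕ, m < u.length → ∀ f : ℕ → List (Fin m), ∀ k : Fin m → List ℕ,
          ¬ ∀ i : ℕ, i < u.length → ((f i).map k).flatten = u.getD i []) →
        (∀ m : ℕ, m < v.length → ∀ f : ℕ → List (Fin m), ∀ k : Fin m → List ℕ,
          ¬ ∀ i : ℕ, i < v.length → ((f i).map k).flatten = v.getD i []) →
        (P (u, v) ↔ ∃ w : List ℕ, w ≠ [] ∧ (∀ i ∈ w, i < u.length) ∧
          (w.map (fun i => u.getD i [])).flatten = (w.map (fun i => v.getD i [])).flatten)) := by
  rintro ⟨P, hP, h⟩
  obtain ⟨Halts, U, V, _, _, h0, pU, pV, _, _, hn⟩ := LeadPcp.main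
  apply h0
  have key : ∀ H : List (List ℕ), LeadPcp.Elem H → ∀ m : ℕ, m < H.length →
      ∀ f : ℕ → List (Fin m), ∀ k : Fin m → List ℕ,
      ¬ ∀ i : ℕ, i < H.length → ((f i).map k).flatten = H.getD i [] := by
    intro H hH m hm f k hf
    obtain ⟨p, hp⟩ := hH (Fin m) f k hf
    have := Fintype.card_le_of_injective (fun i : Fin H.length => p ⟨i.1, i.2⟩)
      (fun a b e => Fin.ext (congrArg Subtype.val (hp e)))
    simp at this
    omega
  obtain ⟨f, hf, rfl⟩ := ComputablePred.computable_iff.mp hP
  refine ComputablePred.computable_iff.mpr ⟨fun n => f (U n, V n),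
    hf.comp (pU.pair pV).to_comp, ?_⟩
  funext n
  obtain ⟨a1, a2, a3, _, a5, _⟩ := hn n
  exact propext (a5.trans (h (U n) (V n) a1 (key _ a2) (key _ a3)).symm)

end Pool.Agent.S14870
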