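import Pool.Statements.S14895
-- import your own Pool.Agent.* helpers here

set_option autoImplicit false
open Pool Pool.MP_735cdd_lc

namespace Pool.Agent.S14895

open FirstOrder FirstOrder.Language

lemma realize_congr {L : FirstOrder.Language.{0, 0}} {M : Type} [L.Structure M]
    (φ : L.Formula ℕ) : ∃ N : ℕ, ∀ v w : ℕ → M, (∀ i < N, v i = w i) →
      (φ.Realize v ↔ φ.Realize w) := by
  classical
  obtain ⟨N, hN⟩ := (BoundedFormula.freeVarFinset φ).bddAbove
  refine ⟨N + 1, fun v w h => ?_⟩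
  unfold Formula.Realize
  rw [← BoundedFormula.realize_restrictFreeVar' (s := (BoundedFormula.freeVarFinset φ : Set ℕ))
      (φ := φ) subset_rfl (v := v),
    ← BoundedFormula.realize_restrictFreeVar' (s := (BoundedFormula.freeVarFinset φ : Set ℕ))
      (φ := φ) subset_rfl (v := w)]
  have : v ∘ (Subtype.val : ↥(↑(BoundedFormula.freeVarFinset φ) : Set ℕ) → ℕ) = w ∘ Subtype.val :=
    funext fun i => h i (Nat.lt_succ_of_le (hN i.2))
  rw [this]

def tt {G : Type} [Group G] (x : ℕ → G) (n : ℕ) : ℕ → ℕ → G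
  | 0, i => x i
  | k + 1, i => x i * tt x n k (i + 1) ^ 2

lemma aut {G : Type} [Group G] (X : Set G) (hX : Subgroup.closure X = ⊤)
    (hf : ∀ f : X → G, ∃ φ : G →* G, ∀ x : X, φ x = f x) (x : ℕ → G) (hx : ∀ i, x i ∈ X)
    (hinj : Function.Injective x) (n : ℕ) :
    ∃ σ : G ≃* G, ∀ i < n, σ (x i) = x i * (x (i + 1) ^ 2)⁻¹ := by
  classical
  obtain ⟨σ, hσ⟩ := hf fun y => if h : ∃ i < n, x i = y then
    y * (x (h.choose + 1) ^ 2)⁻¹ else y
  obtain ⟨τ, hτ⟩ := hf fun y => if h : ∃ i < n, x i = y then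
    tt x n (n - h.choose) h.choose else y
  have c1 : ∀ i (h : ∃ j < n, x j = x i), h.choose = i := fun i h => hinj h.choose_spec.2
  have s1 : ∀ i < n, σ (x i) = x i * (x (i + 1) ^ 2)⁻¹ := by
    intro i hi
    have h : ∃ j < n, x j = x i := ⟨i, hi, rfl⟩
    rw [hσ ⟨x i, hx i⟩, dif_pos h, c1 i h]
  have t1 : ∀ i ≤ n, τ (x i) = tt x n (n - i) i := by
    intro i hi
    rcases lt_or_eq_of_le hi with hi | rfl
    · have h : ∃ j < n, x j = x i := ⟨i, hi, rfl⟩
      rw [hτ ⟨x i, hx i⟩, dif_pos h, c1 i h]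
    · have h : ¬ ∃ j < i, x j = x i := fun ⟨j, hj, e⟩ => hj.ne (hinj e)
      rw [hτ ⟨x i, hx i⟩, dif_neg h, Nat.sub_self]
      rfl
  have s2 : σ (x n) = x n := by
    have h : ¬ ∃ j < n, x j = x n := fun ⟨j, hj, e⟩ => hj.ne (hinj e)
    rw [hσ ⟨x n, hx n⟩, dif_neg h]
  have key : ∀ k i, i + k = n → σ (tt x n k i) = x i := by
    intro k
    induction k with
    | zero => intro i hi; rw [show i = n by omega]; exact s2
    | succ k ih =>
      intro i hi
      rw [tt, map_mul, map_pow, ih (i + 1) (by omega), s1 i (by omega)]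
      group
  have e1 : σ.comp τ = MonoidHom.id G := by
    refine MonoidHom.eq_of_eqOn_dense hX fun y hy => ?_
    by_cases h : ∃ i < n, x i = y
    · obtain ⟨i, hi, rfl⟩ := h
      change σ (τ (x i)) = x i
      rw [t1 i hi.le, key _ _ (by omega)]
    · change σ (τ y) = y
      rw [hτ ⟨y, hy⟩, dif_neg h, hσ ⟨y, hy⟩, dif_neg h]
  have e2 : τ.comp σ = MonoidHom.id G := by
    refine MonoidHom.eq_of_eqOn_dense hX fun y hy => ?_
    by_cases h : ∃ i < n, x i = y
    · obtain ⟨i, hi, rfl⟩ := h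
      change τ (σ (x i)) = x i
      rw [s1 i hi, map_mul, map_inv, map_pow, t1 i hi.le, t1 (i + 1) hi,
        show n - i = (n - (i + 1)) + 1 by omega, tt]
      group
    · change τ (σ y) = y
      rw [hσ ⟨y, hy⟩, dif_neg h, hτ ⟨y, hy⟩, dif_neg h]
  exact ⟨MonoidHom.toMulEquiv σ τ e2 e1, s1⟩

lemma no_sol {G : Type} [Group G] (ht : ∀ g : G, ∀ n : ℕ, 0 < n → g ^ n = 1 → g = 1)
    (X : Set G) (hX : Subgroup.closure X = ⊤)
    (hf : ∀ f : X → G, ∃ φ : G →* G, ∀ x : X, φ x = f x) (x : ℕ → G) (hx : ∀ i, x i ∈ X)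
    (hinj : Function.Injective x) (d : G)
    (h : ∀ n, ∃ c : Fin (n + 1) → G, c 0 = d ∧
      ∀ i : Fin n, c i.castSucc = x i * c i.succ * c i.succ) : False := by
  classical
  choose φ hφ using fun j : ℕ => hf fun y => if (y : G) = x j then x j else 1
  have hr : ∀ j g, φ j g ∈ Subgroup.zpowers (x j) := by
    intro j g
    have : Subgroup.closure X ≤ (Subgroup.zpowers (x j)).comap (φ j) := by
      rw [Subgroup.closure_le]
      intro y hy
      change φ j y ∈ Subgroup.zpowers (x j)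
      rw [hφ j ⟨y, hy⟩]
      split_ifs
      · exact Subgroup.mem_zpowers _
      · exact Subgroup.one_mem _
    exact this (hX ▸ Subgroup.mem_top g)
  have hfin : ∀ g, ∃ N, ∀ j, N ≤ j → φ j g = 1 := by
    intro g
    have hg : g ∈ Subgroup.closure X := hX ▸ Subgroup.mem_top g
    induction hg using Subgroup.closure_induction with
    | mem y hy =>
      by_cases h : ∃ i, x i = y
      · obtain ⟨i, rfl⟩ := h
        refine ⟨i + 1, fun j hj => ?_⟩
        rw [hφ j ⟨x i, hy⟩, if_neg fun e => by have := hinj e; omega]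
      · exact ⟨0, fun j _ => by rw [hφ j ⟨y, hy⟩, if_neg fun e => h ⟨j, e.symm⟩]⟩
    | one => exact ⟨0, fun j _ => map_one _⟩
    | mul a b _ _ ha hb =>
      obtain ⟨N, hN⟩ := ha
      obtain ⟨M, hM⟩ := hb
      exact ⟨max N M, fun j hj => by rw [map_mul, hN j (by omega), hM j (by omega), mul_one]⟩
    | inv a _ ha =>
      obtain ⟨N, hN⟩ := ha
      exact ⟨N, fun j hj => by rw [map_inv, hN j hj, inv_one]⟩
  have hne : ∀ j, x j ≠ 1 := by
    intro j e
    obtain ⟨ψ, hψ⟩ := hf fun _ => x (j + 1)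
    have h1 := hψ ⟨x j, hx j⟩
    simp only [e, map_one] at h1
    have := hinj (e.trans h1)
    omega
  obtain ⟨j, hj⟩ := hfin d
  obtain ⟨c, c0, hc⟩ := h (j + 1)
  have key : ∀ i (hi : i ≤ j), φ j (c ⟨i, by omega⟩) = 1 := by
    intro i
    induction i with
    | zero => exact fun _ => by rw [show (⟨0, _⟩ : Fin (j + 1 + 1)) = 0 from rfl, c0, hj j le_rfl]
    | succ i ih =>
      intro hi
      have h1 := congrArg (φ j) (hc ⟨i, by omega⟩)
      have h2 : φ j (x i) = 1 := by
        rw [hφ j ⟨x i, hx i⟩, if_neg fun e => by have := hinj e; omega]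
      rw [map_mul, map_mul, h2, one_mul] at h1
      refine ht _ 2 (by norm_num) ?_
      rw [pow_two]
      exact h1.symm.trans (ih (by omega))
  have h1 := congrArg (φ j) (hc ⟨j, by omega⟩)
  have h2 : φ j (x j) = x j := by rw [hφ j ⟨x j, hx j⟩, if_pos rfl]
  rw [map_mul, map_mul, h2] at h1
  obtain ⟨k, hk⟩ := Subgroup.mem_zpowers_iff.1 (hr j (c (Fin.succ ⟨j, by omega⟩)))
  rw [← hk] at h1
  have h3 : x j ^ (2 * k + 1) = 1 := by
    rw [← (key j le_rfl)]
    refine Eq.trans ?_ h1.symm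
    group
  refine hne j (ht _ (2 * k + 1).natAbs (by omega) ?_)
  rcases Int.natAbs_eq (2 * k + 1) with e | e
  · rw [← zpow_natCast, ← e, h3]
  · rw [← zpow_natCast, ← inv_eq_one, ← zpow_neg, ← e, h3]

/-- Every torsion-free group that is free in its own variety on an infinite basis fails ℵ1-homogeneity: some countable tuples a, b share a type, yet some element c has no d making (c,a) and (d,b) share a type. -/
theorem result :
  ∀ (G : Type) [Group G],
    (∀ g : G, ∀ n : ℕ, 0 < n → g ^ n = 1 → g = 1) →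
    (∃ X : Set G, X.Infinite ∧ Subgroup.closure X = ⊤ ∧
      ∀ f : X → G, ∃ φ : G →* G, ∀ x : X, φ x = f x) →
    ∀ [S : (FirstOrder.Language.mk (fun _ => Unit) (fun _ => Empty)).Structure G],
      (∀ (n : ℕ) (f : (FirstOrder.Language.mk (fun _ => Unit) (fun _ => Empty)).Functions n)
          (xs : Fin n → G),
        FirstOrder.Language.Structure.funMap f xs = (List.ofFn xs).prod) →
      ¬ ∀ a b : ℕ → G,
        (∀ φ : (FirstOrder.Language.mk (fun _ => Unit) (fun _ => Empty)).Formula ℕ,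
          φ.Realize a ↔ φ.Realize b) →
        ∀ c : G, ∃ d : G,
          ∀ ψ : (FirstOrder.Language.mk (fun _ => Unit) (fun _ => Empty)).Formula (Unit ⊕ ℕ),
            ψ.Realize (Sum.elim (fun _ => c) a) ↔ ψ.Realize (Sum.elim (fun _ => d) b) := by
  intro G _ ht ⟨X, hXi, hX, hf⟩ S hS h
  let x : ℕ → G := fun i => (hXi.natEmbedding X i : G)
  have hx : ∀ i, x i ∈ X := fun i => (hXi.natEmbedding X i).2
  have hinj : Function.Injective x := Subtype.val_injective.comp (hXi.natEmbedding X).injective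
  obtain ⟨d, hd⟩ := h (fun i => x i * (x (i + 1) ^ 2)⁻¹) x (by
    intro φ
    obtain ⟨N, hN⟩ := realize_congr (M := G) φ
    obtain ⟨σ, hσ⟩ := aut X hX hf x hx hinj N
    let g : FirstOrder.Language.Equiv
        (FirstOrder.Language.mk (fun _ => Unit) (fun _ => Empty)) G G :=
      { toEquiv := σ.toEquiv
        map_fun' := fun {n} f xs => by
          rw [hS, hS]
          change σ _ = _
          rw [map_list_prod, List.map_ofFn]
          rfl
        map_rel' := fun {n} r => r.elim }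
    rw [← StrongHomClass.realize_formula g φ (v := x)]
    exact hN _ _ fun i hi => (hσ i hi).symm) (x 0)
  refine no_sol ht X hX hf x hx hinj d fun n => ?_
  let ψ : (FirstOrder.Language.mk (fun _ => Unit) (fun _ => Empty)).Formula (Unit ⊕ ℕ) :=
    Formula.iExs (Fin (n + 1))
      (Term.equal (Term.var (Sum.inr 0)) (Term.var (Sum.inl (Sum.inl ()))) ⊓
        Formula.iInf fun i : Fin n => Term.equal (Term.var (Sum.inr i.castSucc))
          (Term.func (l := 3) () ![Term.var (Sum.inl (Sum.inr i)), Term.var (Sum.inr i.succ),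
            Term.var (Sum.inr i.succ)]))
  have hψ : ∀ (e : G) (b : ℕ → G), ψ.Realize (Sum.elim (fun _ => e) b) ↔
      ∃ c : Fin (n + 1) → G, c 0 = e ∧ ∀ i : Fin n, c i.castSucc = b i * c i.succ * c i.succ := by
    intro e b
    simp only [ψ, Formula.realize_iExs, Formula.realize_inf, Formula.realize_iInf,
      Formula.realize_equal, Term.realize, hS]
    simp [List.ofFn_succ, mul_assoc]
  refine (hψ d x).1 ((hd ψ).1 ((hψ _ _).2 ⟨fun i => x i, rfl, fun i => ?_⟩))
  simp [pow_two, mul_assoc]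

end Pool.Agent.S14895
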