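import Pool.Statements.S14899
import Pool.Agent.Lib.H8.SMin

set_option autoImplicit false
open Pool Pool.MP_73efbe_lc Pool.Agent.Lib.H8 SMin Gen

namespace Pool.Agent.S14899

/-- There are non-c.e. sets A, B of the same enumeration degree such that every set s-reducible to both A and B is c.e. -/
theorem result :
    ∃ A B : Set ℕ,
      (∃ W : Set (ℕ × List ℕ),
        (∃ f : ℕ × List ℕ →. ℕ, Partrec f ∧ ∀ p : ℕ × List ℕ, (f p).Dom ↔ p ∈ W) ∧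
        ∀ x : ℕ, x ∈ A ↔ ∃ l : List ℕ, (x, l) ∈ W ∧ ∀ y ∈ l, y ∈ B) ∧
      (∃ W : Set (ℕ × List ℕ),
        (∃ f : ℕ × List ℕ →. ℕ, Partrec f ∧ ∀ p : ℕ × List ℕ, (f p).Dom ↔ p ∈ W) ∧
        ∀ x : ℕ, x ∈ B ↔ ∃ l : List ℕ, (x, l) ∈ W ∧ ∀ y ∈ l, y ∈ A) ∧
      (¬ ∃ f : ℕ →. ℕ, Partrec f ∧ ∀ n : ℕ, (f n).Dom ↔ n ∈ A) ∧
      (¬ ∃ f : ℕ →. ℕ, Partrec f ∧ ∀ n : ℕ, (f n).Dom ↔ n ∈ B) ∧
      ∀ C : Set ℕ,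
        (∃ W : Set (ℕ × ℕ),
          (∃ f : ℕ × ℕ →. ℕ, Partrec f ∧ ∀ p : ℕ × ℕ, (f p).Dom ↔ p ∈ W) ∧
          ∀ x : ℕ, x ∈ C ↔ ∃ y ∈ A, (x, y) ∈ W) →
        (∃ W : Set (ℕ × ℕ),
          (∃ f : ℕ × ℕ →. ℕ, Partrec f ∧ ∀ p : ℕ × ℕ, (f p).Dom ↔ p ∈ W) ∧
          ∀ x : ℕ, x ∈ C ↔ ∃ y ∈ B, (x, y) ∈ W) →
        ∃ f : ℕ →. ℕ, Partrec f ∧ ∀ n : ℕ, (f n).Dom ↔ n ∈ C := by
  obtain ⟨G, a, b⟩ := main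
  obtain ⟨W, c, d⟩ := red 0 1 rfl
  obtain ⟨V, e, f⟩ := red 1 0 rfl
  refine ⟨S 0 G, S 1 G, ⟨W, re_iff.2 c, d G⟩, ⟨V, re_iff.2 e, f G⟩, fun h => a 0 (by simp) (re_iff.1 h),
    fun h => a 1 (by simp) (re_iff.1 h), fun C ⟨R, r, s⟩ ⟨R', r', s'⟩ => re_iff.2 ?_⟩
  have u : C = op (· ∈ R) (S 0 G) := Set.ext s
  have v : C = op (· ∈ R') (S 1 G) := Set.ext s'
  exact u ▸ b _ _ (re_iff.1 r) (re_iff.1 r') (u.symm.trans v)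

end Pool.Agent.S14899
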