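import Pool.Statements.S14944
import Pool.Agent.Lib.H8.Kc3

set_option autoImplicit false
open Pool Pool.MP_7c40ec_lc Pool.Agent.Lib.H8 Kc Arith Qm

namespace Pool.Agent.S14944

/-- The negation of the preceding statement: For any optimal plain machine, optimal prefix-free machine and optimal conditional plain machine, some constant c bounds, for every binary string x, the plain complexity of C(x) given the pair x and K(x). -/
theorem result :
    ¬ (∀ (W : List Bool →. List Bool) (V : List Bool →. List Bool)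
    (U : List Bool → (List Bool × ℕ →. ℕ)),
    Partrec W →
    (∀ M : List Bool →. List Bool, Partrec M →
      ∃ c : ℕ, ∀ (p : List Bool) (z : List Bool), z ∈ M p →
        ∃ q : List Bool, q.length ≤ p.length + c ∧ z ∈ W q) →
    Partrec V →
    (∀ p q : List Bool, (V p).Dom → (V q).Dom → p <+: q → p = q) →
    (∀ M : List Bool →. List Bool, Partrec M →
      (∀ p q : List Bool, (M p).Dom → (M q).Dom → p <+: q → p = q) →
      ∃ c : ℕ, ∀ (p : List Bool) (z : List Bool), z ∈ M p →
        ∃ q : List Bool, q.length ≤ p.length + c ∧ z ∈ V q) →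
    Partrec₂ U →
    (∀ M : List Bool → (List Bool × ℕ →. ℕ), Partrec₂ M →
      ∃ c : ℕ, ∀ (p : List Bool) (y : List Bool × ℕ) (z : ℕ), z ∈ M p y →
        ∃ q : List Bool, q.length ≤ p.length + c ∧ z ∈ U q y) →
    ∃ c : ℕ, ∀ x : List Bool,
      sInf {n : ℕ | ∃ p : List Bool, p.length = n ∧
        sInf {m : ℕ | ∃ q : List Bool, q.length = m ∧ x ∈ W q} ∈
          U p (x, sInf {m : ℕ | ∃ q : List Bool, q.length = m ∧ x ∈ V q})} ≤ c) := by
  intro h
  obtain ⟨W, w1, w2⟩ := ex_opt
  obtain ⟨V, v1, v2, v3⟩ := ex_optP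
  obtain ⟨U, u1, u2⟩ := ex_cond (β := List Bool × ℕ) (γ := ℕ)
  obtain ⟨c, hc⟩ := h W V U w1 w2 v1 v2 v3 u1 u2
  have f := @Computable.fst
  have s := @Computable.snd
  have hL : Sig 1 ((List Bool × ℕ × ℕ) × List Bool) fun z =>
      z.2.length ≤ c ∧ z.1.2.2 ∈ U z.2 (z.1.1, z.1.2.1) :=
    (CeAlg.cs (cle (Computable.list_length.comp s) (Computable.const c))).and
      ((graph u1).comp ((s.pair ((f.comp f).pair (f.comp (s.comp f)))).pair (s.comp (s.comp f))))
  obtain ⟨x, hx⟩ := core w1 w2 v1 v2 v3 (sig_ex hL) (D := 2 ^ (c + 1)) fun x k T hT => by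
    choose! q q1 q2 using hT
    have e : ∀ v ∈ T, (tag (c - (q v).length) (q v)).length = c + 1 := fun v hv => by
      have : (q v).length ≤ c := q1 v hv
      rw [tag_len]
      omega
    have := kraft T (fun v => tag (c - (q v).length) (q v)) fun v hv w hw k =>
      Part.mem_unique (q2 v hv)
        ((tag_inj (k.eq_of_length ((e v hv).trans (e w hw).symm))).2 ▸ q2 w hw)
    rw [Finset.sum_congr rfl fun x hx => by rw [e x hx], Finset.sum_const, nsmul_eq_mul, inv_pow,
      mul_inv_le_iff₀ (by positivity), one_mul] at this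
    exact_mod_cast this
  obtain ⟨d, hd⟩ := u2 (fun _ _ => Part.some (cx W x)) (Computable.const _).partrec
  obtain ⟨q, -, hq⟩ := hd [] (x, cx V x) _ (Part.mem_some _)
  obtain ⟨p, p1, p2⟩ := Nat.sInf_mem (s := {n : ℕ | ∃ p : List Bool, p.length = n ∧
    cx W x ∈ U p (x, cx V x)}) ⟨_, q, rfl, hq⟩
  exact hx ⟨p, p1.trans_le (hc x), p2⟩

end Pool.Agent.S14944
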