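import Pool.Statements.S14977
import Pool.Agent.Lib.helper13.DegB

set_option autoImplicit false
open Pool Pool.MP_8315be_lc

namespace Pool.Agent.S14977

/-- There is one existential formula in the language of rings with a constant t (a finite disjunction of polynomial equation systems plus one inequation) that defines deg f = deg g in F_p[t] for every prime p. -/
theorem result :
    ∃ (n : ℕ) (D : Finset (Finset (MvPolynomial (Fin 3 ⊕ Fin n) ℤ) × MvPolynomial (Fin 3 ⊕ Fin n) ℤ)),
      ∀ p : ℕ, p.Prime → ∀ f g : Polynomial (ZMod p),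
        (f.degree = g.degree ↔
          ∃ y : Fin n → Polynomial (ZMod p), ∃ d ∈ D,
            (∀ P ∈ d.1, MvPolynomial.aeval (Sum.elim ![Polynomial.X, f, g] y) P = 0) ∧
            MvPolynomial.aeval (Sum.elim ![Polynomial.X, f, g] y) d.2 ≠ 0) := by
  classical
  refine ⟨31, {({MvPolynomial.X (Sum.inl 1), MvPolynomial.X (Sum.inl 2)}, 1),
    ((H13Deg.eqs (MvPolynomial.X (Sum.inl 0)) (MvPolynomial.X (Sum.inl 1))
      (MvPolynomial.X (Sum.inl 2)) (fun i => MvPolynomial.X (Sum.inr i))).toFinset,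
     H13Deg.ineq (MvPolynomial.X (Sum.inl 0)) (MvPolynomial.X (Sum.inl 1))
      (MvPolynomial.X (Sum.inl 2)) (fun i => MvPolynomial.X (Sum.inr i)))}, ?_⟩
  intro p hp f g
  haveI : Fact p.Prime := ⟨hp⟩
  have key : ∀ y : Fin 31 → Polynomial (ZMod p),
      ((∀ P ∈ (H13Deg.eqs (MvPolynomial.X (Sum.inl 0)) (MvPolynomial.X (Sum.inl 1))
      (MvPolynomial.X (Sum.inl 2)) (fun i => MvPolynomial.X (Sum.inr i)) :
        List (MvPolynomial (Fin 3 ⊕ Fin 31) ℤ)).toFinset,
        MvPolynomial.aeval (Sum.elim ![Polynomial.X, f, g] y) P = 0) ∧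
      MvPolynomial.aeval (Sum.elim ![Polynomial.X, f, g] y)
        (H13Deg.ineq (MvPolynomial.X (Sum.inl 0)) (MvPolynomial.X (Sum.inl 1))
      (MvPolynomial.X (Sum.inl 2)) (fun i => MvPolynomial.X (Sum.inr i)) :
        MvPolynomial (Fin 3 ⊕ Fin 31) ℤ) ≠ 0) ↔
      ((∀ c ∈ H13Deg.eqs Polynomial.X f g y, c = 0) ∧ H13Deg.ineq Polynomial.X f g y ≠ 0) := by
    intro y
    have h1 := H13Deg.eqs_map (MvPolynomial.aeval (R := ℤ) (Sum.elim ![Polynomial.X, f, g] y))
      (MvPolynomial.X (Sum.inl 0) : MvPolynomial (Fin 3 ⊕ Fin 31) ℤ) (MvPolynomial.X (Sum.inl 1))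
      (MvPolynomial.X (Sum.inl 2)) (fun i => MvPolynomial.X (Sum.inr i))
    rw [H13Deg.ineq_map]
    simp only [MvPolynomial.aeval_X, Sum.elim_inl, Sum.elim_inr] at h1 ⊢
    have e0 : (![Polynomial.X, f, g] : Fin 3 → Polynomial (ZMod p)) 0 = Polynomial.X := rfl
    have e1 : (![Polynomial.X, f, g] : Fin 3 → Polynomial (ZMod p)) 1 = f := rfl
    have e2 : (![Polynomial.X, f, g] : Fin 3 → Polynomial (ZMod p)) 2 = g := rfl
    rw [e0, e1, e2] at h1 ⊢
    have e3 : (fun i => y i) = y := rfl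
    rw [e3] at h1 ⊢
    rw [← h1]
    simp only [List.mem_toFinset, List.forall_mem_map]
  constructor
  · intro h
    by_cases hf : f = 0
    · have hg : g = 0 := by
        rw [hf, Polynomial.degree_zero] at h
        exact Polynomial.degree_eq_bot.mp h.symm
      refine ⟨fun _ => 0, _, Finset.mem_insert_self _ _, ?_, by simp⟩
      intro P hP
      simp only [Finset.mem_insert, Finset.mem_singleton] at hP
      rcases hP with rfl | rfl
      · rw [MvPolynomial.aeval_X]; exact hf
      · rw [MvPolynomial.aeval_X]; exact hg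
    · have hg : g ≠ 0 := by
        intro hg
        rw [hg, Polynomial.degree_zero] at h
        exact hf (Polynomial.degree_eq_bot.mp h)
      obtain ⟨y, hy⟩ := (H13Deg.sys_iff _ _ _).mpr (H13Deg.sys_complete p f g hf hg h)
      exact ⟨y, _, Finset.mem_insert_of_mem (Finset.mem_singleton_self _), (key y).mpr hy⟩
  · rintro ⟨y, d, hd, h⟩
    simp only [Finset.mem_insert, Finset.mem_singleton] at hd
    rcases hd with rfl | rfl
    · have hf := h.1 _ (Finset.mem_insert_self _ _)
      have hg := h.1 _ (Finset.mem_insert_of_mem (Finset.mem_singleton_self _))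
      rw [MvPolynomial.aeval_X] at hf hg
      have hf' : f = 0 := hf
      have hg' : g = 0 := hg
      rw [hf', hg']
    · obtain ⟨T1, Y1, Y2, s1, s2, a, b, Q, T', Z', Z, hs⟩ :=
        (H13Deg.sys_iff _ _ _).mp ⟨y, (key y).mp h⟩
      exact H13Deg.sys_sound p f g _ _ _ _ _ _ _ _ _ _ _ hs

end Pool.Agent.S14977
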