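import Pool.Statements.S14980
import Pool.Agent.Lib.helper5.Use

set_option autoImplicit false
open Pool Pool.MP_833c5c_lc

namespace Pool.Agent.S14980

open Pool.Agent.H5F Hindman Set

/-- `B` contains no shifted IP set -/
def Small (B : Set ℕ) : Prop :=
  ¬ ∃ (z : ℕ) (a : Stream' ℕ), (∀ x ∈ FS a, 0 < x) ∧ ∀ x ∈ FS a, z + x ∈ B

lemma part (a : Stream' ℕ) (f : ℕ → ℕ) (q : ℕ) (hf : ∀ x ∈ FS a, f x < q) :
    ∃ (b : Stream' ℕ) (r : ℕ), ∀ x ∈ FS b, x ∈ FS a ∧ f x = r := by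
  obtain ⟨_, ⟨r, -, rfl⟩, b, hb⟩ := FS_partition_regular a
    ((fun r => {x | x ∈ FS a ∧ f x = r}) '' Iio q) ((finite_Iio q).image _)
    fun x hx => ⟨_, ⟨f x, hf x hx, rfl⟩, hx, rfl⟩
  exact ⟨b, r, fun x hx => hb hx⟩

lemma Small.mono {A B : Set ℕ} (h : Small B) (e : A ⊆ B) : Small A :=
  fun ⟨z, a, h1, h2⟩ => h ⟨z, a, h1, fun x hx => e (h2 x hx)⟩

lemma small_single (v : ℕ) : Small {v} := by
  rintro ⟨z, a, h1, h2⟩
  have e1 := h2 _ (FS.singleton a 0)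
  have e2 := h2 _ (FS.add_two a 0 1 (by norm_num))
  have e3 := h1 _ (FS.singleton a 1)
  simp only [mem_singleton_iff] at e1 e2
  omega

lemma small_empty : Small ∅ := (small_single 0).mono (empty_subset _)

lemma small_iUnion {D : ℕ → Set ℕ} (h : ∀ n, Small (D n))
    (h' : ∀ q, ∃ ρ b, ∀ n, b ≤ n → ∀ v ∈ D n, v % (q + 1) = ρ) : Small (⋃ n, D n) := by
  rintro ⟨z, a, h1, h2⟩
  obtain ⟨ρ, b, hb⟩ := h' a.head
  have hp := h1 _ (FS.head a)
  have ht : ∀ x ∈ FS a.tail, x ∈ FS a := fun x hx => FS.tail a x hx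
  obtain ⟨z', k1, k2⟩ : ∃ z', z' % (a.head + 1) ≠ ρ ∧ ∀ x ∈ FS a.tail, z' + x ∈ ⋃ n, D n := by
    by_cases hz : z % (a.head + 1) = ρ
    · refine ⟨z + a.head, fun e => ?_, fun x hx => ?_⟩
      · have : z + a.head ≡ z + 0 [MOD a.head + 1] := e.trans hz.symm
        have := Nat.le_of_dvd hp ((Nat.modEq_zero_iff_dvd).1 (Nat.ModEq.add_left_cancel' z this))
        omega
      · rw [add_assoc]; exact h2 _ (FS.cons a x hx)
    · exact ⟨z, hz, fun x hx => h2 x (ht x hx)⟩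
  obtain ⟨c, r, hc⟩ := part a.tail (· % (a.head + 1)) (a.head + 1)
    fun x _ => Nat.mod_lt _ (by omega)
  have hr : ∀ x ∈ FS c, x ≡ 0 [MOD a.head + 1] := by
    have e1 := (hc _ (FS.singleton c 0)).2
    have e2 := (hc _ (FS.add_two c 0 1 (by norm_num))).2
    have e3 := (hc _ (FS.singleton c 1)).2
    have : c.get 0 + c.get 1 ≡ c.get 0 + 0 [MOD a.head + 1] := e2.trans e1.symm
    intro x hx
    exact ((hc x hx).2.trans e3.symm).trans (Nat.ModEq.add_left_cancel' _ this)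
  have hD : ∀ x, ∃ n, x ∈ FS c → n < b ∧ z' + x ∈ D n := by
    intro x
    by_cases hx : x ∈ FS c
    · obtain ⟨n, hn⟩ := mem_iUnion.1 (k2 x (hc x hx).1)
      refine ⟨n, fun _ => ⟨?_, hn⟩⟩
      by_contra hh
      exact k1 (Eq.trans ((hr x hx).add_left z').symm (hb n (by omega) _ hn))
    · exact ⟨0, fun h => absurd h hx⟩
  choose f hf using hD
  obtain ⟨d, n, hd⟩ := part c f b fun x hx => (hf x hx).1
  exact h n ⟨z', d, fun x hx => h1 x (ht x (hc x (hd x hx).1).1),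
    fun x hx => (hd x hx).2 ▸ (hf x (hd x hx).1).2⟩

lemma Small.union {A B : Set ℕ} (hA : Small A) (hB : Small B) : Small (A ∪ B) := by
  refine (small_iUnion (D := fun n => if n = 0 then A else if n = 1 then B else ∅)
    (fun n => ?_) fun q => ⟨0, 2, fun n hn v hv => ?_⟩).mono fun x hx => ?_
  · split_ifs
    exacts [hA, hB, small_empty]
  · rw [if_neg (by omega), if_neg (by omega)] at hv
    exact hv.elim
  · rcases hx with hx | hx
    · exact mem_iUnion.2 ⟨0, by simpa using hx⟩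
    · exact mem_iUnion.2 ⟨1, by simpa using hx⟩

theorem small_image (O : Set ℕ → Prop) (u : Set ℕ → ℕ)
    (hO : ∀ H, O H → Near H fun H' => O H' ∧ u H' = u H) (s : Finset ℕ) (X : Set ℕ)
    (hX : X.Infinite) : ∃ Y ⊆ X, Y.Infinite ∧
      (((∀ H ∈ El s Y, O H) ∧ Small (u '' El s Y)) ∨ ∀ H ∈ El s Y, ¬ O H) := by
  classical
  obtain ⟨Y, h1, h2, h3⟩ := dichotomy
    (fun t X => (∀ H ∈ El (s ∪ t) X, O H) ∧ Small (u '' El (s ∪ t) X))
    (fun t X X' h h' => ⟨fun H hH => h.1 H (El_mono _ h' hH),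
      h.2.mono (image_mono (El_mono _ h'))⟩)
    (fun t X hX h => by
      simp only [Finset.union_insert] at h
      generalize s ∪ t = s' at *
      have hs : ∀ H ∈ El s' X, O H := fun H hH =>
        let ⟨n, hn, h'⟩ := El_step hH; (h n hn).1 H h'
      obtain ⟨Y, k1, k2, k3⟩ := fusion0
        (fun r Z => ∃ ρ, ∀ H ∈ El s' (Z ∩ X), u H % (r.card + 1) = ρ)
        (fun r Z Z' ⟨ρ, a⟩ b => ⟨ρ, fun H hH => a H (El_mono _ (inter_subset_inter_left _ b) hH)⟩)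
        (fun r Z hZ => by
          by_cases hi : (Z ∩ X).Infinite
          · obtain ⟨W, w1, w2, ρ, w3⟩ := galvin_fin O (fun H => u H % (r.card + 1)) (r.card + 1)
              (fun _ => Nat.mod_lt _ (by omega))
              (fun H hH => (hO H hH).mono fun H' h' => ⟨h'.1, by rw [h'.2]⟩) s' _ hi
              fun H hH => hs H (El_mono _ inter_subset_right hH)
            exact ⟨W, w1.trans inter_subset_left, w2, ρ,
              fun H hH => w3 H (El_mono _ inter_subset_left hH)⟩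
          · exact ⟨Z, subset_rfl, hZ, 0, fun H hH => absurd
              ((s'.finite_toSet.union (not_infinite.1 hi)).subset hH.2.2) hH.1⟩) X hX
      refine ⟨Y, k1, k2, fun H hH => hs H (El_mono _ k1 hH), (small_iUnion
        (D := fun n => {v | n ∈ Y ∧ v ∈ u '' El (insert n s') (Y ∩ Ioi n)}) (fun n => ?_)
        fun q => ?_).mono ?_⟩
      · by_cases hn : n ∈ Y
        · exact (h n (k1 hn)).2.mono fun v hv =>
            image_mono (El_mono _ (inter_subset_inter_left _ k1)) hv.2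
        · exact small_empty.mono fun v hv => hn hv.1
      · obtain ⟨r, r1, rfl⟩ := k2.exists_subset_card_eq q
        obtain ⟨ρ, hρ⟩ := k3 r r1
        refine ⟨ρ, r.sup id + 1, ?_⟩
        rintro n hn _ ⟨hY, H, hH, rfl⟩
        have hr : ∀ x ∈ r, x < n := fun x hx =>
          lt_of_le_of_lt (Finset.le_sup (f := id) hx) hn
        refine hρ H ⟨hH.1, fun x hx => hH.2.1 (by simp [Finset.mem_coe.1 hx]), fun x hx => ?_⟩
        rcases hH.2.2 hx with e | e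
        · rcases Finset.mem_insert.1 e with rfl | e
          · exact Or.inr ⟨⟨hY, hr⟩, k1 hY⟩
          · exact Or.inl e
        · exact Or.inr ⟨⟨e.1, fun y hy => (hr y hy).trans e.2⟩, k1 e.1⟩
      · rintro _ ⟨H, hH, rfl⟩
        obtain ⟨n, hn, h'⟩ := El_step hH
        exact mem_iUnion.2 ⟨n, hn, H, h', rfl⟩) X hX
  refine ⟨Y, h1, h2, h3.imp (by simp) fun h H hH hO' => ?_⟩
  obtain ⟨t, a, Z, b, c, d⟩ := near_El h2 hH (hO H hO')
  refine h t a Z b c ⟨fun H' h' => (d H' h').1, (small_single (u H)).mono ?_⟩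
  rintro _ ⟨H', h', rfl⟩
  exact (d H' h').2

/-- `v` is a nonempty finite sum of distinct elements of `A` -/
def Sm (A : Set ℕ) (v : ℕ) : Prop := ∃ s : Finset ℕ, s.Nonempty ∧ ↑s ⊆ A ∧ ∑ i ∈ s, i = v

lemma FS_idx {a : Stream' ℕ} {x : ℕ} (h : x ∈ FS a) :
    ∃ s : Finset ℕ, s.Nonempty ∧ ∑ i ∈ s, a.get i = x := by
  induction h with
  | head' a => exact ⟨{0}, by simp, by simp⟩
  | tail' a m _ ih =>
    obtain ⟨s, h1, h2⟩ := ih
    exact ⟨s.map ⟨Nat.succ, Nat.succ_injective⟩, h1.map, by simpa [Finset.sum_map] using h2⟩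
  | cons' a m _ ih =>
    obtain ⟨s, h1, h2⟩ := ih
    refine ⟨insert 0 (s.map ⟨Nat.succ, Nat.succ_injective⟩), by simp, ?_⟩
    rw [Finset.sum_insert (by simp), ← h2]
    simp [Finset.sum_map]

lemma escape {A B : Set ℕ} (hA : A.Infinite) (hB : Small B) : ∃ v, Sm A v ∧ v ∉ B := by
  by_contra hh
  push Not at hh
  have hi := inf_Ioi hA 0
  let a : Stream' ℕ := fun n => Nat.nth (· ∈ A ∩ Ioi 0) n
  have ha : ∀ n, a.get n ∈ A ∩ Ioi 0 := fun n => Nat.nth_mem_of_infinite hi n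
  refine hB ⟨0, a, fun x hx => ?_, fun x hx => ?_⟩
  · obtain ⟨s, h1, rfl⟩ := FS_idx hx
    exact Finset.sum_pos (fun i _ => (ha i).2) h1
  · obtain ⟨s, h1, rfl⟩ := FS_idx hx
    rw [zero_add]
    refine hh _ ⟨s.map ⟨a.get, Nat.nth_injective hi⟩, h1.map, fun y hy => ?_,
      by rw [Finset.sum_map]; rfl⟩
    obtain ⟨i, -, rfl⟩ := Finset.mem_map.1 hy
    exact (ha i).1

lemma one (e : ℕ) {B : Set ℕ} (hB : Small B) (t : Finset ℕ) (X : Set ℕ) (hX : X.Infinite) :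
    ∃ Y ⊆ X, Y.Infinite ∧ ∃ C, Small C ∧ Disjoint C B ∧
      ∀ H ∈ El t Y, (G e H).Infinite → ∃ v ∈ C, Sm (G e H) v := by
  classical
  let W : ℕ → Set ℕ → ℕ → Prop := fun n S v =>
    v ∉ B ∧ ∀ H' : Set ℕ, H' ∩ Iio n = S → Sm (G e H') v
  let O : Set ℕ → Prop := fun H => ∃ n v, W n (H ∩ Iio n) v
  let u : Set ℕ → ℕ := fun H =>
    if h : O H then Classical.epsilon (W (Nat.find h) (H ∩ Iio (Nat.find h))) else 0
  have hu : ∀ H, O H → u H ∉ B ∧ Sm (G e H) (u H) := fun H h => by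
    have := Classical.epsilon_spec (Nat.find_spec h)
    simp only [u, dif_pos h]
    exact ⟨this.1, this.2 H rfl⟩
  have hO : ∀ H, O H → Near H fun H' => O H' ∧ u H' = u H := fun H h => by
    refine ⟨Nat.find h, fun H' h' => ?_⟩
    have e1 : ∀ m ≤ Nat.find h, H' ∩ Iio m = H ∩ Iio m := fun m hm =>
      Set.ext fun i => and_congr_left fun hi => h' i (lt_of_lt_of_le hi hm)
    have h2 : O H' := ⟨Nat.find h, by rw [e1 _ le_rfl]; exact Nat.find_spec h⟩
    have e2 : Nat.find h2 = Nat.find h := (Nat.find_eq_iff h2).2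
      ⟨by rw [e1 _ le_rfl]; exact Nat.find_spec h,
        fun m hm => by rw [e1 _ hm.le]; exact Nat.find_min h hm⟩
    exact ⟨h2, by simp only [u, dif_pos h, dif_pos h2, e2, e1 _ le_rfl]⟩
  obtain ⟨Y, h1, h2, h3 | h3⟩ := small_image O u hO t X hX
  · refine ⟨Y, h1, h2, _, h3.2, disjoint_left.2 ?_,
      fun H hH _ => ⟨_, ⟨H, hH, rfl⟩, (hu H (h3.1 H hH)).2⟩⟩
    rintro _ ⟨H, hH, rfl⟩
    exact (hu H (h3.1 H hH)).1
  · refine ⟨Y, h1, h2, ∅, small_empty, by simp, fun H hH hi => (h3 H hH ?_).elim⟩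
    obtain ⟨v, ⟨s, s1, s2, s3⟩, hv⟩ := escape hi hB
    obtain ⟨n, hn⟩ := Near.ball (P := fun i H' => i ∈ G e H') s fun i hi => G_near (s2 hi)
    refine ⟨n, v, hv, fun H' e' => ⟨s, s1, hn H' fun i hi => ?_, s3⟩⟩
    simpa [hi] using Set.ext_iff.1 e' i

theorem main : ∃ A Y : Set ℕ, Y.Infinite ∧ ∀ e, ∀ H ⊆ Y, H.Infinite → (G e H).Infinite →
    (∃ v ∈ A, Sm (G e H) v) ∧ ∃ v ∉ A, Sm (G e H) v := by
  classical
  obtain ⟨Y, -, h2, a, ha, h3⟩ := fusion
    (σ := {p : Set ℕ × Set ℕ // Small p.1 ∧ Small p.2 ∧ Disjoint p.1 p.2})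
    (fun t X a => ∀ e < t.card, ∀ H ∈ El t X, (G e H).Infinite →
      (∃ v ∈ a.1.1, Sm (G e H) v) ∧ ∃ v ∈ a.1.2, Sm (G e H) v)
    (fun t X X' a a' h h1 h2 e he H hH hi => by
      obtain ⟨⟨v, v1, v2⟩, w, w1, w2⟩ := h e he H (El_mono _ h1 hH) hi
      exact ⟨⟨v, h2.1 v1, v2⟩, w, h2.2 w1, w2⟩)
    (fun t X a hX => by
      generalize t.card = k
      induction k with
      | zero => exact ⟨X, a, subset_rfl, hX, le_rfl, by simp⟩
      | succ k ih =>
        obtain ⟨X1, ⟨⟨A0, A1⟩, s0, s1, hd⟩, k1, k2, k3, k4⟩ := ih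
        obtain ⟨X2, l1, l2, C, c1, c2, c3⟩ := one k (s0.union s1) t X1 k2
        obtain ⟨X3, m1, m2, D, d1, d2, d3⟩ := one k ((s0.union c1).union s1) t X2 l2
        simp only [disjoint_union_right] at c2 d2
        refine ⟨X3, ⟨(A0 ∪ C, A1 ∪ D), s0.union c1, s1.union d1, ?_⟩, (m1.trans l1).trans k1, m2,
          k3.trans ⟨subset_union_left, subset_union_left⟩, fun e he H hH hi => ?_⟩
        · simp only [disjoint_union_left, disjoint_union_right]
          exact ⟨⟨hd, c2.2⟩, d2.1.1.symm, d2.1.2.symm⟩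
        · rcases Nat.lt_succ_iff_lt_or_eq.1 he with he | rfl
          · obtain ⟨⟨v, v1, v2⟩, w, w1, w2⟩ := k4 e he H (El_mono _ (m1.trans l1) hH) hi
            exact ⟨⟨v, Or.inl v1, v2⟩, w, Or.inl w1, w2⟩
          · obtain ⟨v, v1, v2⟩ := c3 H (El_mono _ m1 hH) hi
            obtain ⟨w, w1, w2⟩ := d3 H hH hi
            exact ⟨⟨v, Or.inr v1, v2⟩, w, Or.inr w1, w2⟩)
    univ infinite_univ ⟨(∅, ∅), small_empty, small_empty, by simp⟩
  refine ⟨⋃ k, (a k).1.1, Y, h2, fun e H hH hi hG => ?_⟩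
  obtain ⟨r, r1, r2⟩ := hi.exists_subset_card_eq (e + 1)
  let t := (Finset.range (r.sup id + 1)).filter (· ∈ H)
  have ht : ∀ x, x ∈ t ↔ x ≤ r.sup id ∧ x ∈ H := fun x => by simp [t]
  obtain ⟨k, hk⟩ := h3 t fun x hx => hH ((ht x).1 hx).2
  obtain ⟨⟨v, v1, v2⟩, w, w1, w2⟩ := hk e (by
      have := Finset.card_le_card (s := r) (t := t)
        fun x hx => (ht x).2 ⟨Finset.le_sup (f := id) hx, r1 hx⟩
      omega) H ⟨hi, fun x hx => ((ht x).1 hx).2, fun x hx => by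
      by_cases h : x ≤ r.sup id
      · exact Or.inl ((ht x).2 ⟨h, hx⟩)
      · exact Or.inr ⟨hH hx, fun y hy => by have := ((ht y).1 hy).1; omega⟩⟩ hG
  refine ⟨⟨v, mem_iUnion.2 ⟨k, v1⟩, v2⟩, w, fun hw => ?_, w2⟩
  obtain ⟨j, hj⟩ := mem_iUnion.1 hw
  exact disjoint_left.1 (a (max j k)).2.2.2 ((ha (le_max_left j k)).1 hj)
    ((ha (le_max_right j k)).2 w1)

/-- exactly large -/
def Lg (s : Finset ℕ) : Prop := ∃ m ∈ s, (∀ i ∈ s, m ≤ i) ∧ s.card = m + 1

/-- initial segment -/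
def Ini (s : Finset ℕ) (H : Set ℕ) : Prop := ↑s ⊆ H ∧ ∀ y ∈ H, y ∉ s → ∀ x ∈ s, x < y

lemma ini_eq {s s' : Finset ℕ} {H : Set ℕ} (h : Lg s) (h' : Lg s') (i : Ini s H)
    (i' : Ini s' H) : s = s' := by
  wlog hs : s ⊆ s' generalizing s s'
  · obtain ⟨x, x1, x2⟩ := Finset.not_subset.1 hs
    refine (this h' h i' i fun y hy => ?_).symm
    by_contra hh
    exact lt_asymm (i.2 y (i'.1 hy) hh x x1) (i'.2 x (i.1 x1) x2 y hy)
  obtain ⟨m, m1, m2, m3⟩ := h
  obtain ⟨n, n1, n2, n3⟩ := h'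
  refine Finset.eq_of_subset_of_card_le hs ?_
  have := n2 m (hs m1)
  omega

theorem homog (d : Finset ℕ → Bool) {Y : Set ℕ} (hY : Y.Infinite) :
    ∃ Z ⊆ Y, Z.Infinite ∧ ∃ b, ∀ s : Finset ℕ, ↑s ⊆ Z → Lg s → d s = b := by
  obtain ⟨Z, h1, h2, h3⟩ := galvin (fun H => ∃ s, Lg s ∧ Ini s H ∧ d s = true)
    (fun H ⟨s, a, b, c⟩ => ⟨s.sup id + 1, fun H' h' => ⟨s, a, ⟨fun x hx =>
      (h' x (Nat.lt_succ_of_le (Finset.le_sup (f := id) hx))).2 (b.1 hx), fun y hy hs x hx => by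
        by_cases h : y < s.sup id + 1
        · exact b.2 y ((h' y h).1 hy) hs x hx
        · have : x ≤ s.sup id := Finset.le_sup (f := id) hx
          omega⟩, c⟩⟩) ∅ Y hY
  have key : ∀ s : Finset ℕ, ↑s ⊆ Z → (↑s ∪ ab Z s) ∈ El ∅ Z ∧ Ini s (↑s ∪ ab Z s) :=
    fun s hs => ⟨⟨(ab_inf h2 s).mono subset_union_right, by simp,
      by simpa using ⟨hs, ab_sub _ _⟩⟩, subset_union_left,
      fun y hy hn => (hy.resolve_left hn).2⟩
  refine ⟨Z, h1, h2, ?_⟩
  rcases h3 with h3 | h3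
  · refine ⟨true, fun s hs hl => ?_⟩
    obtain ⟨s', a, b, c⟩ := h3 _ (key s hs).1
    rwa [ini_eq hl a (key s hs).2 b]
  · refine ⟨false, fun s hs hl => ?_⟩
    by_contra hh
    exact h3 _ (key s hs).1 ⟨s, hl, (key s hs).2, by simpa using hh⟩

/-- The negation of the preceding statement: Every finite coloring c of the naturals computes a 2-coloring d of exactly ω-large finite sets such that every infinite d-homogeneous set computes an infinite set of positive integers whose nonempty finite sums are all c-monochromatic. -/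
theorem result :
    ¬ (∀ c : ℕ → ℕ, (∃ k : ℕ, ∀ n, c n < k) →
    ∃ d : ℕ → Bool,
      TuringReducible (PFun.lift (fun n => (d n).toNat)) (PFun.lift c) ∧
      ∀ h : ℕ → Bool,
        (Set.Infinite {n : ℕ | h n = true} ∧
          ∃ b : Bool, ∀ s : Finset ℕ, (∀ i ∈ s, h i = true) →
            (∃ m ∈ s, (∀ i ∈ s, m ≤ i) ∧ s.card = m + 1) →
            d (∑ i ∈ s, 2 ^ i) = b) →
        ∃ g : ℕ → Bool,
          TuringReducible (PFun.lift (fun n => (g n).toNat))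
            (PFun.lift (fun n => (h n).toNat)) ∧
          Set.Infinite {n : ℕ | g n = true} ∧
          (∀ i, g i = true → 0 < i) ∧
          ∃ b : ℕ, ∀ s : Finset ℕ, s.Nonempty → (∀ i ∈ s, g i = true) →
            c (∑ i ∈ s, i) = b) := by
  classical
  intro h
  obtain ⟨A, Y, hY, hA⟩ := main
  obtain ⟨d, -, hd⟩ := h (fun n => if n ∈ A then 1 else 0)
    ⟨2, fun n => by split_ifs <;> norm_num⟩
  obtain ⟨Z, z1, z2, b, hb⟩ := homog (fun s => d (∑ i ∈ s, 2 ^ i)) hY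
  obtain ⟨g, g1, g2, -, b', g4⟩ := hd (fun n => decide (n ∈ Z))
    ⟨by simpa using z2, b, fun s hs hl => hb s (fun i hi => by simpa using hs i hi) hl⟩
  obtain ⟨e, he⟩ := exists_G g1
  obtain ⟨⟨v, v1, s, s1, s2, rfl⟩, w, w1, s', t1, t2, rfl⟩ := hA e Z z1 z2 (he ▸ g2)
  rw [he] at s2 t2
  have a1 := g4 s s1 s2
  have a2 := g4 s' t1 t2
  simp only [if_pos v1, if_neg w1] at a1 a2
  omega

end Pool.Agent.S14980
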