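import Pool.Statements.S14998
-- import your own Pool.Agent.* helpers here

set_option autoImplicit false
open Pool Pool.MP_855a95_lc

namespace Pool.Agent.S14998

/-- The negation of the preceding statement: There is a symmetric colouring of pairs of countable ordinals by natural numbers with no monochromatic triangle such that for every partition of ω₁ into countably many pieces, some piece has every colour appearing on one of its pairs. -/
theorem result :
    ¬ (∃ c : {o : Ordinal.{0} // o < (Cardinal.aleph 1).ord} →
        {o : Ordinal.{0} // o < (Cardinal.aleph 1).ord} → ℕ,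
      (∀ a b, c a b = c b a) ∧
      (∀ a b d, a ≠ b → b ≠ d → a ≠ d → ¬ (c a b = c b d ∧ c a b = c a d)) ∧
      ∀ f : {o : Ordinal.{0} // o < (Cardinal.aleph 1).ord} → ℕ,
        ∃ i : ℕ, ∀ n : ℕ, ∃ a b, a ≠ b ∧ f a = i ∧ f b = i ∧ c a b = n) := by
  classical
  rintro ⟨c, -, htri, h⟩
  have h0 : (0 : Ordinal.{0}) < (Cardinal.aleph 1).ord := by
    rw [Cardinal.lt_ord]
    simpa using Cardinal.aleph_pos 1
  let v : {o : Ordinal.{0} // o < (Cardinal.aleph 1).ord} := ⟨0, h0⟩
  obtain ⟨i, hi⟩ := h (fun a => if a = v then 0 else c v a + 1)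
  obtain ⟨a, b, hab, ha, hb, hc⟩ := hi (i - 1)
  by_cases hav : a = v
  · by_cases hbv : b = v
    · exact hab (hav.trans hbv.symm)
    · simp only [hav, hbv, if_true, if_false] at ha hb
      omega
  · by_cases hbv : b = v
    · simp only [hav, hbv, if_true, if_false] at ha hb
      omega
    · simp only [hav, hbv, if_false] at ha hb
      exact htri v a b (fun e => hav e.symm) hab (fun e => hbv e.symm) ⟨by omega, by omega⟩

end Pool.Agent.S14998
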