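import Pool.Statements.S15001
-- import your own Pool.Agent.* helpers here

set_option autoImplicit false
open Pool Pool.MP_856e04_lc

namespace Pool.Agent.S15001

section
open Set Cardinal

variable {K : Type} [LinearOrder K]

def Lg (X : Set (ℕ → K)) : ℕ → ℕ → (ℕ → K) → Prop
  | 0, _, s => s ∈ X
  | k + 1, p, s => ∀ a, ∃ b, a < b ∧ Lg X k (p + 1) (Function.update s p b)

lemma pigeon [NoMaxOrder K] {C : Type} (hC : ∀ f : C → K, ∃ b, ∀ x, f x < b) (c : (ℕ → K) → C) :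
    ∀ k p s, ∃ γ, Lg {s | c s = γ} k p s := by
  intro k
  induction k with
  | zero => exact fun p s => ⟨c s, rfl⟩
  | succ k ih =>
    intro p s
    by_contra hn
    simp only [Lg, not_exists, not_forall, not_and] at hn
    choose a ha using hn
    obtain ⟨b, hb⟩ := hC a
    obtain ⟨γ, h⟩ := ih (p + 1) (Function.update s p b)
    exact ha γ b (hb γ) h

lemma realise [NoMaxOrder K] {X : Set (ℕ → K)} {N : ℕ} {s0 : ℕ → K} (h : Lg X N 0 s0) :
    ∃ B : ℕ → K, Monotone B ∧ ∀ θ : ℕ → ℕ, (∀ i, i + 1 < N → θ i < θ (i + 1)) →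
      ∃ v ∈ X, ∀ i < N, B (θ i) < v i ∧ v i ≤ B (θ i + 1) := by
  have : ∀ (q : ℕ × (ℕ → K)) a, ∃ b, a < b ∧ (q.1 < N → Lg X (N - q.1) q.1 q.2 →
      Lg X (N - (q.1 + 1)) (q.1 + 1) (Function.update q.2 q.1 b)) := by
    rintro ⟨p, s⟩ a
    by_cases h : p < N ∧ Lg X (N - p) p s
    · have h2 := h.2
      rw [show N - p = N - (p + 1) + 1 by omega] at h2
      obtain ⟨b, h3, h4⟩ := h2 a
      exact ⟨b, h3, fun _ _ => h4⟩
    · obtain ⟨b, hb⟩ := exists_gt a
      exact ⟨b, hb, fun a c => (h ⟨a, c⟩).elim⟩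
  choose nx h1 h2 using this
  have step : ∀ p : {p : Set (ℕ × (ℕ → K)) × K // p.1.Finite},
      ∃ q : {p : Set (ℕ × (ℕ → K)) × K // p.1.Finite}, p.1.1 ⊆ q.1.1 ∧ p.1.2 ≤ q.1.2 ∧
        ∀ t ∈ p.1.1, (t.1 + 1, Function.update t.2 t.1 (nx t p.1.2)) ∈ q.1.1 ∧
          nx t p.1.2 ≤ q.1.2 := by
    rintro ⟨⟨D, x⟩, hD⟩
    haveI : Nonempty K := ⟨x⟩
    obtain ⟨y, hy⟩ := ((hD.image fun t => nx t x).insert x).bddAbove
    exact ⟨⟨⟨_, y⟩, hD.union (hD.image fun t => (t.1 + 1, Function.update t.2 t.1 (nx t x)))⟩,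
      subset_union_left, hy (Or.inl rfl), fun t ht => ⟨Or.inr ⟨t, ht, rfl⟩,
        hy (Or.inr ⟨t, ht, rfl⟩)⟩⟩
  choose g g1 g2 g3 using step
  let q : ℕ → {p : Set (ℕ × (ℕ → K)) × K // p.1.Finite} := fun n =>
    g^[n] ⟨({(0, s0)}, s0 0), finite_singleton _⟩
  have hq : ∀ n, q (n + 1) = g (q n) := fun n => Function.iterate_succ_apply' _ _ _
  have m1 : Monotone fun n => (q n).1.2 := monotone_nat_of_le_succ fun n => hq n ▸ g2 _
  have m2 : Monotone fun n => (q n).1.1 := monotone_nat_of_le_succ fun n => hq n ▸ g1 _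
  refine ⟨_, m1, fun θ hθ => ?_⟩
  have key : ∀ p ≤ N, ∃ s, Lg X (N - p) p s ∧ (p < N → (p, s) ∈ (q (θ p)).1.1) ∧
      ∀ i < p, (q (θ i)).1.2 < s i ∧ s i ≤ (q (θ i + 1)).1.2 := by
    intro p
    induction p with
    | zero => exact fun _ => ⟨s0, h, fun _ => m2 (Nat.zero_le _) rfl, fun i hi => absurd hi (by omega)⟩
    | succ p ih =>
      intro hp
      obtain ⟨s, a1, a2, a3⟩ := ih (by omega)
      obtain ⟨b1, b2⟩ := g3 _ _ (a2 hp)
      rw [← hq] at b1 b2
      refine ⟨_, h2 (p, s) (q (θ p)).1.2 hp a1, fun h => m2 (hθ p h) b1, fun i hi => ?_⟩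
      rcases Nat.lt_succ_iff_lt_or_eq.1 hi with h | rfl
      · simpa only [Function.update_of_ne h.ne] using a3 i h
      · simpa only [Function.update_self] using ⟨h1 _ _, b2⟩
  obtain ⟨s, a1, -, a3⟩ := key N le_rfl
  rw [Nat.sub_self] at a1
  exact ⟨s, a1, a3⟩

def Fw (m o : ℕ) (u v : ℕ → K) : Prop := ∀ i, i + 1 < m → u (o + i + 1) < v (o + i)

def Bw (m o : ℕ) (u v : ℕ → K) : Prop := ∀ i, i + 1 < m → u (o + i) < v (o + i + 1)

def E (m : ℕ) (u v : ℕ → K) : Prop := (∀ i j, i < j → j < 2 * m → u i < u j) ∧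
  ((Fw m 0 u v ∧ Bw m m u v) ∨ (Bw m 0 u v ∧ Fw m m u v))

lemma no_short (n l : ℕ) (h0 : 0 < l) (hl : l ≤ n) (w : ℕ → ℕ → K)
    (hw : ∀ a < l, E (2 * n + 1) (w a) (w (a + 1))) : w l ≠ w 0 := by
  have key : ∀ a ≤ l, ∃ i j, i + j = 2 * n ∧ n ≤ i + a ∧ n ≤ j + a ∧ w 0 n ≤ w a i ∧
      w 0 (2 * n + 1 + n) ≤ w a (2 * n + 1 + j) ∧
      (0 < a → w 0 n < w a i ∧ w 0 (2 * n + 1 + n) < w a (2 * n + 1 + j)) := by
    intro a
    induction a with
    | zero => exact fun _ => ⟨n, n, by omega, by omega, by omega, le_rfl, le_rfl, by omega⟩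
    | succ a ih =>
      intro ha
      obtain ⟨i, j, h1, h2, h3, h4, h5, -⟩ := ih (by omega)
      rcases (hw a (by omega)).2 with ⟨f, b⟩ | ⟨b, f⟩
      · have e1 := f (i - 1) (by omega)
        rw [show 0 + (i - 1) + 1 = i by omega, zero_add] at e1
        have e2 := b j (by omega)
        exact ⟨i - 1, j + 1, by omega, by omega, by omega, (h4.trans_lt e1).le,
          (h5.trans_lt e2).le, fun _ => ⟨h4.trans_lt e1, h5.trans_lt e2⟩⟩
      · have e1 := f (j - 1) (by omega)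
        rw [show 2 * n + 1 + (j - 1) + 1 = 2 * n + 1 + j by omega] at e1
        have e2 := b i (by omega)
        rw [zero_add] at e2
        exact ⟨i + 1, j - 1, by omega, by omega, by omega, (h4.trans_lt e2).le,
          (h5.trans_lt e1).le, fun _ => ⟨h4.trans_lt e2, h5.trans_lt e1⟩⟩
  intro e
  obtain ⟨i, j, h1, -, -, -, -, h⟩ := key l le_rfl
  obtain ⟨h2, h3⟩ := h h0
  rw [e] at h2 h3
  have mo := (hw 0 h0).1
  rcases lt_trichotomy i n with h | h | h
  · exact absurd h2 (not_lt.2 (mo i n h (by omega)).le)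
  · exact absurd h2 (by rw [h]; exact lt_irrefl _)
  · exact absurd h3 (not_lt.2 (mo _ _ (by omega) (by omega)).le)

def T1 (m a i : ℕ) : ℕ := if a ≤ m then i + 2 * a else if i < a - m then i else i + 2 * m

def TT (m a i : ℕ) : ℕ := if i < m then T1 m a i else if i < 2 * m then
  4 * m + T1 m (if a < m then a + m else a - m) (i - m) else 8 * m + a

lemma TT_spec (m a i : ℕ) (ha : a < 2 * m) : (i < m ∧ a ≤ m ∧ TT m a i = i + 2 * a) ∨
    (i < m ∧ m < a ∧ i + m < a ∧ TT m a i = i) ∨ (i < m ∧ m < a ∧ a ≤ i + m ∧ TT m a i = i + 2 * m) ∨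
    (m ≤ i ∧ i < 2 * m ∧ a < m ∧ i < a + m ∧ TT m a i = 3 * m + i) ∨
    (m ≤ i ∧ i < 2 * m ∧ a < m ∧ a + m ≤ i ∧ TT m a i = 5 * m + i) ∨
    (m ≤ i ∧ i < 2 * m ∧ m ≤ a ∧ TT m a i = m + i + 2 * a) ∨
    (2 * m ≤ i ∧ TT m a i = 8 * m + a) := by
  by_cases h1 : i < m
  · by_cases h2 : a ≤ m
    · exact Or.inl ⟨h1, h2, by rw [TT, T1, if_pos h1, if_pos h2]⟩
    · by_cases h3 : i < a - m
      · exact Or.inr (Or.inl ⟨h1, by omega, by omega, by rw [TT, T1, if_pos h1, if_neg h2, if_pos h3]⟩)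
      · exact Or.inr (Or.inr (Or.inl ⟨h1, by omega, by omega, by
          rw [TT, T1, if_pos h1, if_neg h2, if_neg h3]⟩))
  · refine Or.inr (Or.inr (Or.inr ?_))
    by_cases h2 : i < 2 * m
    · by_cases h3 : a < m
      · by_cases h4 : i < a + m
        · exact Or.inl ⟨by omega, h2, h3, h4, by
            rw [TT, if_neg h1, if_pos h2, if_pos h3, T1, if_neg (by omega), if_pos (by omega)]
            omega⟩
        · refine Or.inr (Or.inl ⟨by omega, h2, h3, by omega, ?_⟩)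
          rw [TT, if_neg h1, if_pos h2, if_pos h3, T1]
          split_ifs <;> omega
      · exact Or.inr (Or.inr (Or.inl ⟨by omega, h2, by omega, by
          rw [TT, if_neg h1, if_pos h2, if_neg h3, T1, if_pos (by omega)]
          omega⟩))
    · exact Or.inr (Or.inr (Or.inr ⟨by omega, by rw [TT, if_neg h1, if_neg h2]⟩))

lemma TT_mono (m a i j : ℕ) (ha : a < 2 * m) (h : i < j) (hj : j < 2 * m + 1) :
    TT m a i < TT m a j := by
  have := TT_spec m a i ha
  have := TT_spec m a j ha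
  omega

lemma TT_1 (m a b i : ℕ) (h : a < m) (e : b = a + 1) (hi : i + 1 < m) :
    TT m a (0 + i + 1) < TT m b (0 + i) ∧ TT m a (m + i) < TT m b (m + i + 1) := by
  have := TT_spec m a (0 + i + 1) (by omega)
  have := TT_spec m b (0 + i) (by omega)
  constructor
  · omega
  have := TT_spec m a (m + i) (by omega)
  have := TT_spec m b (m + i + 1) (by omega)
  omega

lemma TT_2 (m a b i : ℕ) (h : m ≤ a) (e : b = a + 1 ∧ a + 1 < 2 * m ∨ b = 0 ∧ a + 1 = 2 * m)
    (hi : i + 1 < m) :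
    TT m a (0 + i) < TT m b (0 + i + 1) ∧ TT m a (m + i + 1) < TT m b (m + i) := by
  constructor
  · have := TT_spec m a (0 + i) (by omega)
    have := TT_spec m b (0 + i + 1) (by omega)
    omega
  have := TT_spec m a (m + i + 1) (by omega)
  have := TT_spec m b (m + i) (by omega)
  omega

lemma long [NoMaxOrder K] {X : Set (ℕ → K)} {m : ℕ} (hm : 0 < m) {s0 : ℕ → K}
    (h : Lg X (2 * m + 1) 0 s0) : ∃ v : ℕ → ℕ → K, (∀ a < 2 * m, v a ∈ X) ∧
      (∀ a b, a < b → b < 2 * m → v a (2 * m) < v b (2 * m)) ∧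
      ∀ a < 2 * m, E m (v a) (v ((a + 1) % (2 * m))) := by
  obtain ⟨B, hB, H⟩ := realise h
  have : ∀ a, ∃ v, a < 2 * m → v ∈ X ∧ ∀ i < 2 * m + 1,
      B (TT m a i) < v i ∧ v i ≤ B (TT m a i + 1) := by
    intro a
    by_cases ha : a < 2 * m
    · obtain ⟨v, h⟩ := H (TT m a) fun i hi => TT_mono m a _ _ ha (by omega) hi
      exact ⟨v, fun _ => h⟩
    · exact ⟨s0, fun h => (ha h).elim⟩
  choose v hv using this
  have lt : ∀ a i b j, a < 2 * m → b < 2 * m → i < 2 * m + 1 → j < 2 * m + 1 →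
      TT m a i < TT m b j → v a i < v b j := fun a i b j h1 h2 h3 h4 h5 =>
    (((hv a h1).2 i h3).2.trans (hB h5)).trans_lt ((hv b h2).2 j h4).1
  refine ⟨v, fun a ha => (hv a ha).1, fun a b h1 h2 => lt _ _ _ _ (by omega) h2 (by omega)
    (by omega) ?_, fun a ha => ⟨fun i j h1 h2 => lt _ _ _ _ ha ha (by omega) (by omega)
      (TT_mono m a _ _ ha h1 (by omega)), ?_⟩⟩
  · have := TT_spec m a (2 * m) (by omega)
    have := TT_spec m b (2 * m) h2
    omega
  · obtain ⟨b, hb, e⟩ : ∃ b, (a + 1) % (2 * m) = b ∧ (b = a + 1 ∧ a + 1 < 2 * m ∨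
        b = 0 ∧ a + 1 = 2 * m) := by
      by_cases h : a + 1 < 2 * m
      · exact ⟨_, Nat.mod_eq_of_lt h, Or.inl ⟨rfl, h⟩⟩
      · exact ⟨0, by rw [show a + 1 = 2 * m by omega, Nat.mod_self], Or.inr ⟨rfl, by omega⟩⟩
    rw [hb]
    by_cases h : a < m
    · exact Or.inl ⟨fun i hi => lt _ _ _ _ ha (by omega) (by omega) (by omega)
        (TT_1 m a b i h (by omega) hi).1, fun i hi => lt _ _ _ _ ha (by omega) (by omega) (by omega)
        (TT_1 m a b i h (by omega) hi).2⟩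
    · exact Or.inr ⟨fun i hi => lt _ _ _ _ ha (by omega) (by omega) (by omega)
        (TT_2 m a b i (by omega) e hi).1, fun i hi => lt _ _ _ _ ha (by omega) (by omega) (by omega)
        (TT_2 m a b i (by omega) e hi).2⟩

lemma E.congr {K' : Type} [LinearOrder K'] {m : ℕ} {u v : ℕ → K} {u' v' : ℕ → K'} {e : K → K'}
    (he : StrictMono e) (hu : ∀ i < 2 * m, u' i = e (u i)) (hv : ∀ i < 2 * m, v' i = e (v i))
    (h : E m u v) : E m u' v' := by
  refine ⟨fun i j a b => by rw [hu i (by omega), hu j b]; exact he (h.1 i j a b), ?_⟩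
  rcases h.2 with ⟨a, b⟩ | ⟨a, b⟩
  · exact Or.inl ⟨fun i hi => by rw [hu _ (by omega), hv _ (by omega)]; exact he (a i hi),
      fun i hi => by rw [hu _ (by omega), hv _ (by omega)]; exact he (b i hi)⟩
  · exact Or.inr ⟨fun i hi => by rw [hu _ (by omega), hv _ (by omega)]; exact he (a i hi),
      fun i hi => by rw [hu _ (by omega), hv _ (by omega)]; exact he (b i hi)⟩

lemma reg {c κ : Cardinal.{0}} (hκ : ℵ₀ ≤ κ) (h : c < κ) : ∃ μ, IsRegular μ ∧ c < μ ∧ μ ≤ κ := by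
  rcases lt_or_ge c ℵ₀ with h' | h'
  · exact ⟨_, isRegular_aleph0, h', hκ⟩
  · exact ⟨_, isRegular_succ h', Order.lt_succ c, Order.succ_le_of_lt h⟩

end

/-- For every infinite cardinal κ and every n, there is a loopless digraph on κ vertices with no directed cycle of length below n, such that every colouring with fewer than κ colours has a monochromatic directed cycle. -/
theorem result : ∀ κ : Cardinal.{0}, Cardinal.aleph0 ≤ κ → ∀ n : ℕ,
    ∃ (V : Type) (D : Digraph V),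
      Cardinal.mk V = κ ∧
      (∀ v : V, ¬ D.Adj v v) ∧
      (∀ k : ℕ, k + 1 < n → ∀ f : Fin (k + 1) → V, Function.Injective f →
        ¬ ∀ i : Fin (k + 1), D.Adj (f i) (f (i + 1))) ∧
      (∀ (C : Type) (c : V → C), Cardinal.mk C < κ →
        ∃ k : ℕ, ∃ f : Fin (k + 1) → V, Function.Injective f ∧
          (∀ i : Fin (k + 1), D.Adj (f i) (f (i + 1))) ∧
          ∀ i j : Fin (k + 1), c (f i) = c (f j)) := by
  intro κ hκ n
  let m := 2 * (n + 1) + 1
  let ex : (Fin (2 * m + 1) → κ.ord.ToType) → ℕ → κ.ord.ToType := fun u i =>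
    u ⟨i % (2 * m + 1), Nat.mod_lt _ (Nat.succ_pos _)⟩
  refine ⟨Fin (2 * m + 1) → κ.ord.ToType, ⟨fun u v => E m (ex u) (ex v)⟩, ?_, fun v hv => ?_,
    fun k hk f _ hf => ?_, fun C c hC => ?_⟩
  · rw [← Cardinal.power_def, Cardinal.mk_ord_toType, Cardinal.mk_fin, Cardinal.power_natCast,
      Cardinal.power_nat_eq hκ (by omega)]
  · exact no_short (n + 1) 1 one_pos (by omega) (fun _ => ex v) (fun _ _ => hv) rfl
  · refine no_short (n + 1) (k + 1) (by omega) (by omega)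
      (fun a => ex (f ⟨a % (k + 1), Nat.mod_lt _ (Nat.succ_pos _)⟩)) (fun a ha => ?_) (by simp)
    have := hf ⟨a % (k + 1), Nat.mod_lt _ (Nat.succ_pos _)⟩
    convert this using 3
    ext
    simp [Fin.val_add]
  · obtain ⟨μ, h1, h2, h3⟩ := reg hκ hC
    haveI : NoMaxOrder μ.ord.ToType := Cardinal.noMaxOrder h1.1
    haveI : Nonempty μ.ord.ToType := Cardinal.mk_ne_zero_iff.1 (by
      rw [Cardinal.mk_ord_toType]; exact h1.pos.ne')
    let e := Ordinal.initialSegToType (Cardinal.ord_le_ord.2 h3)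
    have he : StrictMono e := e.strictMono
    obtain ⟨γ, hγ⟩ := pigeon (K := μ.ord.ToType) (C := C) (fun f => by
        have : ¬ IsCofinal (Set.range f) := fun h => by
          have := (Order.cof_le h).trans Cardinal.mk_range_le
          rw [Ordinal.cof_toType, h1.cof_ord] at this
          exact absurd h2 (not_lt.2 this)
        obtain ⟨b, hb⟩ := not_isCofinal_iff.1 this
        exact ⟨b, fun x => hb _ ⟨x, rfl⟩⟩)
      (fun s => c fun i => e (s i)) (2 * m + 1) 0 fun _ => Classical.arbitrary _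
    obtain ⟨v, a1, a2, a3⟩ := long (by omega) hγ
    have hk : 2 * m - 1 + 1 = 2 * m := by omega
    refine ⟨2 * m - 1, fun a i => e (v a i), fun a b h => ?_, fun a => ?_, fun a b =>
      (a1 a (a.2.trans_eq hk)).trans (a1 b (b.2.trans_eq hk)).symm⟩
    · have := he.injective (congrFun h (Fin.last _))
      rcases lt_trichotomy a.1 b.1 with h | h | h
      · exact absurd this (a2 _ _ h (b.2.trans_eq hk)).ne
      · exact Fin.ext h
      · exact absurd this (a2 _ _ h (a.2.trans_eq hk)).ne'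
    · refine (a3 a (a.2.trans_eq hk)).congr he (fun i hi => ?_) fun i hi => ?_
      · simp only [ex, Nat.mod_eq_of_lt (show i < 2 * m + 1 by omega)]
      · simp only [ex, Nat.mod_eq_of_lt (show i < 2 * m + 1 by omega)]
        rw [Fin.val_add, Fin.val_one', Nat.add_mod_mod]
        exact congrArg (fun t => e (v ((a.1 + 1) % t) i)) hk

end Pool.Agent.S15001
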