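import Pool.Statements.S15010
import Pool.Agent.Lib.Helper33.DetReach

set_option autoImplicit false
open Pool Pool.MP_87895e_lc Pool.Agent.Lib.Helper33.DetReach

set_option linter.unusedSimpArgs false

namespace Pool.Agent.S15010

def e (i : Fin 3) : Fin 3 → ℝ := fun a => if a = i then 1 else 0

noncomputable def u : Fin 3 → ℝ := fun _ => 1 / 3

noncomputable def dv (c d : Fin 3) (r : Fin 3 → ℝ) : Fin 13 → Fin 3 → ℝ := fun s =>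
  if s.val ≤ 1 then e c else if s.val ≤ 3 then e d else if s = 8 ∨ s = 9 then r else u

lemma e_nonneg (i a : Fin 3) : 0 ≤ e i a := by unfold e; split_ifs <;> norm_num
lemma e_sum (i : Fin 3) : ∑ a, e i a = 1 := by simp [e]
lemma u_nonneg (a : Fin 3) : 0 ≤ u a := by unfold u; norm_num
lemma u_sum : ∑ a, u a = 1 := by simp [u]

lemma dv_Sx (c d : Fin 3) (r : Fin 3 → ℝ) (h0 : ∀ a, 0 ≤ r a) (h1 : ∑ a, r a = 1) :
    Sx (dv c d r) := by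
  refine ⟨fun s a => ?_, fun s => ?_⟩
  · unfold dv; split_ifs
    exacts [e_nonneg _ _, e_nonneg _ _, h0 _, u_nonneg _]
  · unfold dv; split_ifs
    exacts [e_sum _, e_sum _, h1, u_sum]

lemma upd_Sx {σ : Fin 13 → Fin 3 → ℝ} (hσ : Sx σ) (t : Fin 13) :
    Sx (Function.update σ t (e 1)) := by
  refine ⟨fun s a => ?_, fun s => ?_⟩ <;> by_cases h : s = t
  · rw [h, Function.update_self]; exact e_nonneg _ _
  · rw [Function.update_of_ne h]; exact hσ.1 _ _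
  · rw [h, Function.update_self]; exact e_sum _
  · rw [Function.update_of_ne h]; exact hσ.2 _

lemma mu {σ : Fin 13 → Fin 3 → ℝ} (hσ : Sx σ) (s : Fin 13) :
    mt u (σ s) = 1 / 3 ∧ mt (σ s) u = 1 / 3 ∧ sh (σ s) u = 1 / 3 := by
  have := hσ.e s
  refine ⟨?_, ?_, ?_⟩ <;> simp only [Lib.Helper33.DetReach.mt, sh, u, this] <;> ring

lemma me (p : Fin 3 → ℝ) (i : Fin 3) :
    mt (e i) p = p i ∧ mt p (e i) = p i ∧ sh p (e i) = p (i + 1) := by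
  fin_cases i <;> simp [Lib.Helper33.DetReach.mt, sh, e]

lemma dv_vals (c d : Fin 3) (r : Fin 3 → ℝ) :
    dv c d r 0 = e c ∧ dv c d r 1 = e c ∧ dv c d r 2 = e d ∧ dv c d r 3 = e d ∧
    dv c d r 4 = u ∧ dv c d r 5 = u ∧ dv c d r 6 = u ∧ dv c d r 7 = u ∧
    dv c d r 8 = r ∧ dv c d r 9 = r := by
  refine ⟨?_, ?_, ?_, ?_, ?_, ?_, ?_, ?_, ?_, ?_⟩ <;> simp [dv]

lemma one {σ τ : Fin 13 → Fin 3 → ℝ} (hσ : Sx σ) (hτ : Sx τ) (ε : ℝ) (V : Fin 13 → ℝ)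
    (hV : Eqs σ τ 1 0 V) (hd : ∀ σ', Sx σ' → ∃ W, Eqs σ' τ 1 0 W ∧ ∀ s, W s ≤ V s + ε) :
    2 / 3 ≤ V 6 + ε ∧ 1 / 3 ≤ V 7 + ε ∧ 1 / 3 ≤ V 2 + ε ∧ 2 / 27 + 4 / 9 * τ 3 0 ≤ V 0 + ε ∧
    (0 < τ 1 0 → 4 / 9 ≤ V 0 + ε) ∧ (∀ i, τ 8 i * (2 / 3) ≤ V 8 + ε) ∧
    (∀ i, τ 9 i / 3 + τ 9 (i + 1) ≤ V 9 + ε) ∧
    ∃ a, a ≤ V 0 + ε ∧
      a * (σ 0 0 * mt (σ 4) (τ 4) + σ 0 0 * (1 - mt (σ 4) (τ 4)) * τ 3 0 +
        (1 - σ 0 0) * τ 1 0 * mt (σ 5) (τ 5)) =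
      σ 0 0 * mt (σ 4) (τ 4) * V 8 + σ 0 0 * (1 - mt (σ 4) (τ 4)) * τ 3 0 * V 6 +
        (1 - σ 0 0) * τ 1 0 * mt (σ 5) (τ 5) * V 9 := by
  have e00 : e 0 0 = 1 := by simp [e]
  have e10 : e 1 0 = 0 := by simp [e]
  have m := mu hτ
  have n3 := (bd hτ hσ 3).1
  have A : 2 / 3 ≤ V 6 + ε ∧ 1 / 3 ≤ V 7 + ε ∧ 1 / 3 ≤ V 2 + ε ∧
      2 / 27 + 4 / 9 * τ 3 0 ≤ V 0 + ε := by
    obtain ⟨W, ⟨w0, w1, w2, w3, w4, w5, w6, w7, w8, w9, wp, -⟩, hW⟩ :=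
      hd _ (dv_Sx 0 0 u u_nonneg u_sum)
    obtain ⟨d0, d1, d2, d3, d4, d5, d6, d7, d8, d9⟩ := dv_vals 0 0 u
    simp only [d0, d1, d2, d3, d4, d5, d6, d7, d8, d9, m, e00] at w0 w2 w4 w6 w7 w8
    have := mul_nonneg (sub_nonneg.2 n3) (wp 0)
    have w6' : W 6 = 2 / 3 := by linarith
    rw [w6'] at w3
    refine ⟨by linarith [hW 6], by linarith [hW 7], by linarith [hW 2], by linarith [hW 0]⟩
  have B : 0 < τ 1 0 → 4 / 9 ≤ V 0 + ε := fun hy => by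
    obtain ⟨W, ⟨w0, w1, w2, w3, w4, w5, w6, w7, w8, w9, wp, -⟩, hW⟩ :=
      hd _ (dv_Sx 1 1 u u_nonneg u_sum)
    obtain ⟨d0, d1, d2, d3, d4, d5, d6, d7, d8, d9⟩ := dv_vals 1 1 u
    simp only [d0, d1, d2, d3, d4, d5, d6, d7, d8, d9, m, e10] at w0 w2 w5 w7 w9
    have : τ 1 0 * (W 5 - W 0) = 0 := by linarith
    have := (mul_eq_zero.1 this).resolve_left hy.ne'
    linarith [hW 0]
  have C : ∀ i, τ 8 i * (2 / 3) ≤ V 8 + ε ∧ τ 9 i / 3 + τ 9 (i + 1) ≤ V 9 + ε := fun i => by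
    obtain ⟨W, ⟨w0, w1, w2, w3, w4, w5, w6, w7, w8, w9, wp, -⟩, hW⟩ :=
      hd _ (dv_Sx 0 0 (e i) (e_nonneg i) (e_sum i))
    obtain ⟨d0, d1, d2, d3, d4, d5, d6, d7, d8, d9⟩ := dv_vals 0 0 (e i)
    simp only [d6, d7, d8, d9, m, me] at w6 w7 w8 w9
    have w6' : W 6 = 2 / 3 := by linarith
    have w7' : W 7 = 1 / 3 := by linarith
    rw [w6'] at w8
    rw [w7'] at w9
    exact ⟨by linarith [hW 8], by linarith [hW 9]⟩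
  refine ⟨A.1, A.2.1, A.2.2.1, A.2.2.2, B, fun i => (C i).1, fun i => (C i).2, ?_⟩
  obtain ⟨W, ⟨w0, w1, w2, w3, w4, w5, w6, w7, w8, w9, wp, -⟩, hW⟩ := hd _ (upd_Sx hσ 2)
  obtain ⟨v0, v1, v2, v3, v4, v5, v6, v7, v8, v9, -, -⟩ := hV
  simp only [Function.update_self, e10, ne_eq, Fin.reduceEq, not_false_eq_true,
    Function.update_of_ne] at w0 w2 w4 w5 w6 w7 w8 w9
  have x6 : W 6 = V 6 := w6.trans v6.symm
  have x7 : W 7 = V 7 := w7.trans v7.symm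
  have x8 : W 8 = V 8 := by rw [w8, v8, x6]
  have x9 : W 9 = V 9 := by rw [w9, v9, x7]
  refine ⟨W 0, hW 0, ?_⟩
  rw [← x6, ← x8, ← x9]
  linear_combination w0 + σ 0 0 * w4 + σ 0 0 * (1 - mt (σ 4) (τ 4)) * w3 + (1 - σ 0 0) * w1 +
    (1 - σ 0 0) * τ 1 0 * w5 + (1 - σ 0 0) * τ 1 0 * (1 - mt (σ 5) (τ 5)) * w2

lemma two {σ τ : Fin 13 → Fin 3 → ℝ} (hσ : Sx σ) (hτ : Sx τ) (ε : ℝ) (V : Fin 13 → ℝ)
    (hV : Eqs σ τ 0 1 V) (hd : ∀ τ', Sx τ' → ∃ W, Eqs σ τ' 0 1 W ∧ ∀ s, W s ≤ V s + ε) :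
    2 / 3 ≤ V 7 + ε ∧ 1 / 3 ≤ V 6 + ε ∧ 1 / 3 ≤ V 3 + ε ∧ 2 / 27 + 4 / 9 * σ 2 0 ≤ V 1 + ε ∧
    (0 < σ 0 0 → 4 / 9 ≤ V 0 + ε) ∧ (∀ i, σ 9 i * (2 / 3) ≤ V 9 + ε) ∧
    (∀ i, σ 8 i / 3 + σ 8 (i + 1) ≤ V 8 + ε) ∧
    ∃ a, a ≤ V 0 + ε ∧
      a * (σ 0 0 * mt (σ 4) (τ 4) + (1 - σ 0 0) * τ 1 0 * mt (σ 5) (τ 5) +
        (1 - σ 0 0) * τ 1 0 * (1 - mt (σ 5) (τ 5)) * σ 2 0) =
      σ 0 0 * mt (σ 4) (τ 4) * V 8 + (1 - σ 0 0) * τ 1 0 * mt (σ 5) (τ 5) * V 9 +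
        (1 - σ 0 0) * τ 1 0 * (1 - mt (σ 5) (τ 5)) * σ 2 0 * V 7 := by
  have e00 : e 0 0 = 1 := by simp [e]
  have e10 : e 1 0 = 0 := by simp [e]
  have m := mu hσ
  have n2 := (bd hσ hτ 2).1
  have A : 2 / 3 ≤ V 7 + ε ∧ 1 / 3 ≤ V 6 + ε ∧ 1 / 3 ≤ V 3 + ε ∧
      2 / 27 + 4 / 9 * σ 2 0 ≤ V 1 + ε := by
    obtain ⟨W, ⟨w0, w1, w2, w3, w4, w5, w6, w7, w8, w9, wp, -⟩, hW⟩ :=
      hd _ (dv_Sx 0 0 u u_nonneg u_sum)
    obtain ⟨d0, d1, d2, d3, d4, d5, d6, d7, d8, d9⟩ := dv_vals 0 0 u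
    simp only [d0, d1, d2, d3, d4, d5, d6, d7, d8, d9, m, e00] at w1 w3 w5 w6 w7 w9
    have := mul_nonneg (sub_nonneg.2 n2) (wp 0)
    have w7' : W 7 = 2 / 3 := by linarith
    rw [w7'] at w2
    refine ⟨by linarith [hW 7], by linarith [hW 6], by linarith [hW 3], by linarith [hW 1]⟩
  have B : 0 < σ 0 0 → 4 / 9 ≤ V 0 + ε := fun hx => by
    obtain ⟨W, ⟨w0, w1, w2, w3, w4, w5, w6, w7, w8, w9, wp, -⟩, hW⟩ :=
      hd _ (dv_Sx 1 1 u u_nonneg u_sum)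
    obtain ⟨d0, d1, d2, d3, d4, d5, d6, d7, d8, d9⟩ := dv_vals 1 1 u
    simp only [d0, d1, d2, d3, d4, d5, d6, d7, d8, d9, m, e10] at w1 w3 w4 w6 w8
    have w1' : W 1 = W 0 := by linarith
    rw [w1'] at w0
    have : σ 0 0 * (W 4 - W 0) = 0 := by linarith
    have := (mul_eq_zero.1 this).resolve_left hx.ne'
    linarith [hW 0]
  have C : ∀ i, σ 9 i * (2 / 3) ≤ V 9 + ε ∧ σ 8 i / 3 + σ 8 (i + 1) ≤ V 8 + ε := fun i => by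
    obtain ⟨W, ⟨w0, w1, w2, w3, w4, w5, w6, w7, w8, w9, wp, -⟩, hW⟩ :=
      hd _ (dv_Sx 0 0 (e i) (e_nonneg i) (e_sum i))
    obtain ⟨d0, d1, d2, d3, d4, d5, d6, d7, d8, d9⟩ := dv_vals 0 0 (e i)
    simp only [d6, d7, d8, d9, m, me] at w6 w7 w8 w9
    have w6' : W 6 = 1 / 3 := by linarith
    have w7' : W 7 = 2 / 3 := by linarith
    rw [w6'] at w8
    rw [w7'] at w9
    exact ⟨by linarith [hW 9], by linarith [hW 8]⟩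
  refine ⟨A.1, A.2.1, A.2.2.1, A.2.2.2, B, fun i => (C i).1, fun i => (C i).2, ?_⟩
  obtain ⟨W, ⟨w0, w1, w2, w3, w4, w5, w6, w7, w8, w9, wp, -⟩, hW⟩ := hd _ (upd_Sx hτ 3)
  obtain ⟨v0, v1, v2, v3, v4, v5, v6, v7, v8, v9, -, -⟩ := hV
  simp only [Function.update_self, e10, ne_eq, Fin.reduceEq, not_false_eq_true,
    Function.update_of_ne] at w1 w3 w4 w5 w6 w7 w8 w9
  have x6 : W 6 = V 6 := w6.trans v6.symm
  have x7 : W 7 = V 7 := w7.trans v7.symm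
  have x8 : W 8 = V 8 := by rw [w8, v8, x6]
  have x9 : W 9 = V 9 := by rw [w9, v9, x7]
  refine ⟨W 0, hW 0, ?_⟩
  rw [← x7, ← x8, ← x9]
  linear_combination w0 + σ 0 0 * w4 + σ 0 0 * (1 - mt (σ 4) (τ 4)) * w3 + (1 - σ 0 0) * w1 +
    (1 - σ 0 0) * τ 1 0 * w5 + (1 - σ 0 0) * τ 1 0 * (1 - mt (σ 5) (τ 5)) * w2

lemma regen (c D a a' z : ℝ) (hc : 0 ≤ c) (hD : c ≤ D) (h : a' ≤ a + 1 / 10000)
    (ha : 4 / 9 ≤ a + 1 / 10000) (hz : z ≤ 1 / 3 + 1 / 10000)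
    (E : a' * (D - c) = a * D - c * z) : c ≤ D / 1000 := by
  nlinarith [mul_le_mul_of_nonneg_right h (sub_nonneg.2 hD), mul_le_mul_of_nonneg_left ha hc,
    mul_le_mul_of_nonneg_left hz hc]

lemma avg (c d a s t S : ℝ) (hc : 0 ≤ c) (hd : 0 ≤ d) (hD : 0 < c + d) (hs : s ≤ S) (ht : t ≤ S)
    (E : a * (c + d) = c * s + d * t) : a ≤ S := by
  by_contra hn
  nlinarith [mul_le_mul_of_nonneg_left hs hc, mul_le_mul_of_nonneg_left ht hd,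
    mul_pos hD (sub_pos.2 (not_le.1 hn))]

lemma avg2 (c d a s t S : ℝ) (hc : 0 ≤ c) (hd : 0 ≤ d) (hD : 0 < c + d) (hs : s ≤ S) (ht : t ≤ 1)
    (hS : 0 ≤ S) (hd' : d ≤ (c + d) / 1000)
    (E : a * (c + d) = c * s + d * t) : a ≤ S + 1 / 1000 := by
  by_contra hn
  nlinarith [mul_le_mul_of_nonneg_left hs hc, mul_le_mul_of_nonneg_left ht hd,
    mul_pos hD (sub_pos.2 (not_le.1 hn)), mul_nonneg hd hS]

lemma main {σ τ : Fin 13 → Fin 3 → ℝ} (hσ : Sx σ) (hτ : Sx τ) (V U : Fin 13 → ℝ)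
    (hV : Eqs σ τ 1 0 V) (hU : Eqs σ τ 0 1 U)
    (hd1 : ∀ σ', Sx σ' → ∃ W, Eqs σ' τ 1 0 W ∧ ∀ s, W s ≤ V s + 1 / 10000)
    (hd2 : ∀ τ', Sx τ' → ∃ W, Eqs σ τ' 0 1 W ∧ ∀ s, W s ≤ U s + 1 / 10000) : False := by
  obtain ⟨g6, g7, g2, g0, gy, g8, g9, a, ga, gE⟩ := one hσ hτ _ V hV hd1
  obtain ⟨k7, k6, k3, k1, kx, k9, k8, b, kb, kE⟩ := two hσ hτ _ U hU hd2
  obtain ⟨v0, v1, v2, v3, v4, v5, v6, v7, v8, v9, vp, vz⟩ := hV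
  obtain ⟨u0, u1, u2, u3, u4, u5, u6, u7, u8, u9, up, -⟩ := hU
  have z1 : V 6 ≤ 2 / 3 + 1 / 10000 := by linarith
  have z2 : U 6 ≤ 1 / 3 + 1 / 10000 := by linarith
  have z3 : V 7 ≤ 1 / 3 + 1 / 10000 := by linarith
  have z4 : U 7 ≤ 2 / 3 + 1 / 10000 := by linarith
  obtain ⟨-, m80, -, m81⟩ := bd hσ hτ 8
  obtain ⟨-, m90, -, m91⟩ := bd hτ hσ 9
  obtain ⟨s1, s2⟩ := shap hσ hτ 8 (3 / 10000) (by norm_num) (by norm_num)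
    (fun i => by linarith [g8 i, mul_le_mul_of_nonneg_left z1 m80])
    (fun i => by linarith [k8 i, mul_le_mul_of_nonneg_left z2 m80])
  obtain ⟨s3, s4⟩ := shap hτ hσ 9 (3 / 10000) (by norm_num) (by norm_num)
    (fun i => by linarith [k9 i, mul_le_mul_of_nonneg_left z4 m90])
    (fun i => by linarith [g9 i, mul_le_mul_of_nonneg_left z3 m90])
  have al1 : V 8 ≤ 2 / 9 + 1 / 1000 := by linarith [mul_le_mul_of_nonneg_left z1 m80]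
  have al2 : U 8 ≤ 4 / 9 + 2 / 1000 := by linarith [mul_le_mul_of_nonneg_left z2 m80]
  have be1 : V 9 ≤ 4 / 9 + 2 / 1000 := by linarith [mul_le_mul_of_nonneg_left z3 m90]
  have be2 : U 9 ≤ 2 / 9 + 1 / 1000 := by linarith [mul_le_mul_of_nonneg_left z4 m90]
  have x0 := hσ.1 0 0
  have x1 := sub_nonneg.2 (bd hσ hτ 0).1
  have y0 := hτ.1 1 0
  have mu0 := hσ.1 2 0
  have mu1 := sub_nonneg.2 (bd hσ hτ 2).1
  have nu0 := hτ.1 3 0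
  have nu1 := sub_nonneg.2 (bd hτ hσ 3).1
  have p0 := (bd hσ hτ 4).2.1
  have p1 := sub_nonneg.2 (bd hσ hτ 4).2.2.2
  have q0 := (bd hσ hτ 5).2.1
  have q1 := sub_nonneg.2 (bd hσ hτ 5).2.2.2
  obtain ⟨c1, hc1⟩ : ∃ c, c = σ 0 0 * mt (σ 4) (τ 4) := ⟨_, rfl⟩
  obtain ⟨c2, hc2⟩ : ∃ c, c = σ 0 0 * (1 - mt (σ 4) (τ 4)) * τ 3 0 := ⟨_, rfl⟩
  obtain ⟨c3, hc3⟩ : ∃ c, c = (1 - σ 0 0) * τ 1 0 * mt (σ 5) (τ 5) := ⟨_, rfl⟩
  obtain ⟨c4, hc4⟩ : ∃ c, c = (1 - σ 0 0) * τ 1 0 * (1 - mt (σ 5) (τ 5)) * σ 2 0 := ⟨_, rfl⟩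
  have n1 : 0 ≤ c1 := by rw [hc1]; positivity
  have n2 : 0 ≤ c2 := by rw [hc2]; positivity
  have n3 : 0 ≤ c3 := by rw [hc3]; positivity
  have n4 : 0 ≤ c4 := by rw [hc4]; positivity
  have E1 : V 0 * (c1 + c2 + c3 + c4) = c1 * V 8 + c2 * V 6 + c3 * V 9 + c4 * V 7 := by
    rw [hc1, hc2, hc3, hc4]
    linear_combination v0 + σ 0 0 * v4 + σ 0 0 * (1 - mt (σ 4) (τ 4)) * v3 + (1 - σ 0 0) * v1 +
      (1 - σ 0 0) * τ 1 0 * v5 + (1 - σ 0 0) * τ 1 0 * (1 - mt (σ 5) (τ 5)) * v2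
  have E2 : U 0 * (c1 + c2 + c3 + c4) = c1 * U 8 + c2 * U 6 + c3 * U 9 + c4 * U 7 := by
    rw [hc1, hc2, hc3, hc4]
    linear_combination u0 + σ 0 0 * u4 + σ 0 0 * (1 - mt (σ 4) (τ 4)) * u3 + (1 - σ 0 0) * u1 +
      (1 - σ 0 0) * τ 1 0 * u5 + (1 - σ 0 0) * τ 1 0 * (1 - mt (σ 5) (τ 5)) * u2
  rw [← hc1, ← hc2, ← hc3] at gE
  rw [← hc1, ← hc3, ← hc4] at kE
  rw [← hc1, ← hc2, ← hc3, ← hc4] at vz
  have hD : 0 < c1 + c2 + c3 + c4 := by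
    by_contra hn
    have := vz (by linarith) (by linarith) (by linarith) (by linarith)
    linarith
  have R1 : 0 < τ 1 0 → c4 ≤ (c1 + c2 + c3 + c4) / 1000 := fun hy =>
    regen c4 _ (V 0) a (V 7) n4 (by linarith) ga (gy hy) z3 (by linear_combination gE - E1)
  have R2 : 0 < σ 0 0 → c2 ≤ (c1 + c2 + c3 + c4) / 1000 := fun hx =>
    regen c2 _ (U 0) b (U 6) n2 (by linarith) kb (kx hx) z2 (by linear_combination kE - E2)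
  rcases x0.eq_or_lt with hx | hx <;> rcases y0.eq_or_lt with hy | hy
  · rw [hc1, hc2, hc3, hc4, ← hx, ← hy] at hD
    simp at hD
  · have e1 : c1 = 0 := by rw [hc1, ← hx]; ring
    have e2 : c2 = 0 := by rw [hc2, ← hx]; ring
    have r := R1 hy
    rw [e1, e2] at E1 E2 hD r
    have b1 := avg c3 c4 (V 0) (V 9) (V 7) _ n3 n4 (by linarith) be1 (by linarith) (by linarith)
    have b2 := avg2 c3 c4 (U 0) (U 9) (U 7) _ n3 n4 (by linarith) be2 (by linarith) (by norm_num)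
      (by linarith) (by linarith)
    linarith [mul_le_mul_of_nonneg_left b2 nu1, mul_le_mul_of_nonneg_left z2 nu0]
  · have e1 : c3 = 0 := by rw [hc3, ← hy]; ring
    have e2 : c4 = 0 := by rw [hc4, ← hy]; ring
    have r := R2 hx
    rw [e1, e2] at E1 E2 hD r
    have b1 := avg c1 c2 (U 0) (U 8) (U 6) _ n1 n2 (by linarith) al2 (by linarith) (by linarith)
    have b2 := avg2 c1 c2 (V 0) (V 8) (V 6) _ n1 n2 (by linarith) al1 (by linarith) (by norm_num)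
      (by linarith) (by linarith)
    rw [← hy] at u1
    linarith [mul_le_mul_of_nonneg_left b2 mu1, mul_le_mul_of_nonneg_left z3 mu0]
  · have r1 := R1 hy
    have r2 := R2 hx
    have t : 8 / 9 - 2 / 10000 ≤ V 0 + U 0 := by linarith [gy hy, kx hx]
    have t1 : V 8 + U 8 ≤ 7 / 10 := by linarith
    have t2 : V 9 + U 9 ≤ 7 / 10 := by linarith
    have t3 : V 6 + U 6 ≤ 2 := by linarith
    have t4 : V 7 + U 7 ≤ 2 := by linarith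
    linarith [mul_le_mul_of_nonneg_left t hD.le, mul_le_mul_of_nonneg_left t1 n1,
      mul_le_mul_of_nonneg_left t2 n3, mul_le_mul_of_nonneg_left t3 n2,
      mul_le_mul_of_nonneg_left t4 n4]

/-- A deterministic two-player reachability game with thirteen states and no stationary
`1/10000`-equilibrium. -/
theorem result :
    ¬ (∀ (S A B : Type) [Fintype S] [Fintype A] [Fintype B] [Nonempty A] [Nonempty B]
      (next : S → A → B → S) (T₁ T₂ : Set S) (ε : ℝ),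
      0 < ε →
      ∀ R : (S → A → ℝ) → (S → B → ℝ) → Set S → S → ℝ,
        (∀ (σ : S → A → ℝ) (τ : S → B → ℝ) (T : Set S) (s : S),
          R σ τ T s =
            ⨆ n : ℕ,
              ((fun v : S → ℝ =>
                  T.indicator (fun _ => (1 : ℝ)) +
                    Tᶜ.indicator (fun x => ∑ a, ∑ b, σ x a * τ x b * v (next x a b)))^[n]
                (T.indicator (fun _ => (1 : ℝ)))) s) →
        ∃ σ : S → A → ℝ, ∃ τ : S → B → ℝ,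
          ((∀ s a, 0 ≤ σ s a) ∧ ∀ s, ∑ a, σ s a = 1) ∧
          ((∀ s b, 0 ≤ τ s b) ∧ ∀ s, ∑ b, τ s b = 1) ∧
          ∀ s : S,
            (∀ σ' : S → A → ℝ, ((∀ s a, 0 ≤ σ' s a) ∧ ∀ s, ∑ a, σ' s a = 1) →
              R σ' τ T₁ s ≤ R σ τ T₁ s + ε) ∧
            (∀ τ' : S → B → ℝ, ((∀ s b, 0 ≤ τ' s b) ∧ ∀ s, ∑ b, τ' s b = 1) →
              R σ τ' T₂ s ≤ R σ τ T₂ s + ε)) := by
  intro h
  obtain ⟨σ, τ, hσ, hτ, d⟩ := h (Fin 13) (Fin 3) (Fin 3) nx {10} {11} (1 / 10000) (by norm_num)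
    val fun _ _ _ _ => rfl
  have f1 : ∀ σ τ, Sx σ → Sx τ → Eqs σ τ 1 0 (val σ τ {10}) := fun σ τ a b => by
    simpa using facts a b 10 (Or.inl rfl)
  have f2 : ∀ σ τ, Sx σ → Sx τ → Eqs σ τ 0 1 (val σ τ {11}) := fun σ τ a b => by
    simpa using facts a b 11 (Or.inr rfl)
  exact main hσ hτ _ _ (f1 σ τ hσ hτ) (f2 σ τ hσ hτ)
    (fun σ' h' => ⟨_, f1 σ' τ h' hτ, fun s => (d s).1 σ' h'⟩)
    (fun τ' h' => ⟨_, f2 σ τ' hσ h', fun s => (d s).2 τ' h'⟩)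

end Pool.Agent.S15010
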