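-- Proof of the frozen statement S15022 (negation of the problem MP_8aa41f_lc); the case k = 1 already fails.
import Pool.Statements.S15022

set_option autoImplicit false
open Pool Pool.MP_8aa41f_lc

namespace Pool.Agent.S15022

open Finset

theorem cut_eq {m : ℕ} (a : Fin m → ℕ) (x y : ℕ)
    (h : (univ.filter fun i => a i ≤ x).card = (univ.filter fun i => a i ≤ y).card) (i : Fin m) :
    a i ≤ x ↔ a i ≤ y := by
  wlog hxy : x ≤ y generalizing x y
  · exact (this y x h.symm (by omega)).symm
  have hsub : (univ.filter fun i => a i ≤ x) ⊆ (univ.filter fun i => a i ≤ y) := by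
    intro j hj
    simp only [mem_filter, mem_univ, true_and] at hj ⊢
    omega
  have := eq_of_subset_of_card_le hsub h.ge
  have h2 : i ∈ (univ.filter fun i => a i ≤ x) ↔ i ∈ (univ.filter fun i => a i ≤ y) := by
    rw [this]
  simpa using h2

theorem mem_ap (a d L x : ℕ) (hd : 0 < d) :
    x ∈ (range L).image (fun j => a + d * j) ↔ a ≤ x ∧ ¬ (a + d * L ≤ x) ∧ x % d = a % d := by
  simp only [mem_image, mem_range]
  constructor
  · rintro ⟨j, hj, rfl⟩
    refine ⟨by omega, ?_, by simp⟩
    have : d * j < d * L := Nat.mul_lt_mul_of_pos_left hj hd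
    omega
  · rintro ⟨h1, h2, h3⟩
    have h4 : d ∣ x - a := (Nat.modEq_iff_dvd' h1).1 h3.symm
    obtain ⟨j, hj⟩ := h4
    refine ⟨j, ?_, by omega⟩
    have : d * j < d * L := by omega
    exact lt_of_mul_lt_mul_left this (Nat.zero_le _)

theorem card_large (a d L n K : ℕ) (hK : 0 < K) (hd : ¬ (0 < d ∧ d ≤ K))
    (hsub : (range L).image (fun j => a + d * j) ⊆ range n) :
    K * ((range L).image (fun j => a + d * j)).card ≤ n + K := by
  rcases Nat.eq_zero_or_pos d with h0 | h0
  · subst h0
    have : ((range L).image (fun j => a + 0 * j)).card ≤ 1 := by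
      rw [card_le_one]
      intro x hx y hy
      simp only [mem_image] at hx hy
      obtain ⟨_, _, rfl⟩ := hx
      obtain ⟨_, _, rfl⟩ := hy
      simp
    nlinarith
  · have hKd : K < d := by omega
    have h1 : ((range L).image (fun j => a + d * j)).card ≤ L := by
      simpa using card_image_le (s := range L) (f := fun j => a + d * j)
    rcases Nat.eq_zero_or_pos L with hL | hL
    · subst hL
      simp
    · have h2 : a + d * (L - 1) ∈ range n := hsub (mem_image.2 ⟨L - 1, by simp; omega, rfl⟩)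
      rw [mem_range] at h2
      obtain ⟨L', rfl⟩ : ∃ L', L = L' + 1 := ⟨L - 1, by omega⟩
      simp only [Nat.add_sub_cancel] at h2
      have h3 : K * L' ≤ d * L' := Nat.mul_le_mul_right _ hKd.le
      calc _ ≤ K * (L' + 1) := Nat.mul_le_mul_left _ h1
        _ ≤ n + K := by rw [mul_add]; omega

theorem card_small_subsets (m r : ℕ) (N : ℝ) (hN : 1 ≤ N) :
    (((univ : Finset (Finset (Fin m))).filter fun A => A.card ≤ r).card : ℝ) ≤
      N ^ r * (1 + 1 / N) ^ m := by
  have hN0 : 0 < N := by linarith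
  have h1 := Finset.sum_pow_mul_eq_add_pow (1 / N) (1 : ℝ) (univ : Finset (Fin m))
  simp only [one_pow, mul_one, card_univ, Fintype.card_fin, powerset_univ] at h1
  rw [add_comm 1 (1 / N), ← h1, mul_sum, card_eq_sum_ones, Nat.cast_sum]
  refine le_trans (sum_le_sum (g := fun A => N ^ r * (1 / N) ^ A.card) ?_)
    (sum_le_sum_of_subset_of_nonneg (filter_subset _ _) (fun A _ _ => by positivity))
  intro A hA
  simp only [mem_filter, mem_univ, true_and] at hA
  rw [one_div, inv_pow, ← div_eq_mul_inv, Nat.cast_one, le_div_iff₀ (by positivity), one_mul]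
  exact pow_le_pow_right₀ hN hA

/-- The counting bound for `k = 1`. -/
theorem count (n m D K r : ℕ) (hK : 0 < K) (T : Fin m → Finset ℕ)
    (hT : ∀ i, T i ⊆ range n ∧ ∃ a d L : ℕ, T i = (range L).image (fun j => a + d * j))
    (J : (Fin m → Bool) → Finset ℕ) (hJ : ∀ o, (J o).card ≤ D)
    (hS : ∀ x y : ℕ, x < n → y < n →
      (fun i => decide (Disjoint (T i) {x})) = (fun i => decide (Disjoint (T i) {y})) →
      {x} ∩ J (fun i => decide (Disjoint (T i) {x})) =
        {y} ∩ J (fun i => decide (Disjoint (T i) {x})) → x = y) :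
    ∃ b : ℕ, K * ((r + 1) * b) ≤ m * (n + K) ∧
      n ≤ b + (D + 1) * (K.factorial * ((m + 1) * ((m + 1) *
        ((univ : Finset (Finset (Fin m))).filter fun A => A.card ≤ r).card))) := by
  classical
  choose hsub a d L hTe using hT
  let Lg : ℕ → Finset (Fin m) := fun x => univ.filter fun i => ¬ (0 < d i ∧ d i ≤ K) ∧ x ∈ T i
  let B := (range n).filter fun x => r < (Lg x).card
  let G := (range n).filter fun x => ¬ r < (Lg x).card
  refine ⟨B.card, ?_, ?_⟩
  · have h1 : (r + 1) * B.card ≤ ∑ x ∈ range n, (Lg x).card := by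
      calc (r + 1) * B.card = ∑ x ∈ B, (r + 1) := by simp [mul_comm]
        _ ≤ ∑ x ∈ B, (Lg x).card := sum_le_sum fun x hx => (mem_filter.1 hx).2
        _ ≤ _ := sum_le_sum_of_subset (filter_subset _ _)
    have h2 : ∑ x ∈ range n, (Lg x).card =
        ∑ i : Fin m, ((range n).filter fun x => ¬ (0 < d i ∧ d i ≤ K) ∧ x ∈ T i).card := by
      simp only [Lg, card_filter]
      exact sum_comm
    have h3 : ∀ i : Fin m,
        K * ((range n).filter fun x => ¬ (0 < d i ∧ d i ≤ K) ∧ x ∈ T i).card ≤ n + K := by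
      intro i
      by_cases hd : 0 < d i ∧ d i ≤ K
      · simp [hd]
      · have h4 := card_large (a i) (d i) (L i) n K hK hd (by rw [← hTe]; exact hsub i)
        rw [← hTe] at h4
        refine le_trans (Nat.mul_le_mul_left _ (card_le_card ?_)) h4
        intro x hx
        exact (mem_filter.1 hx).2.2
    calc K * ((r + 1) * B.card) ≤ K * ∑ x ∈ range n, (Lg x).card := Nat.mul_le_mul_left _ h1
      _ = ∑ i : Fin m,
          K * ((range n).filter fun x => ¬ (0 < d i ∧ d i ≤ K) ∧ x ∈ T i).card := by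
        rw [h2, mul_sum]
      _ ≤ ∑ i : Fin m, (n + K) := sum_le_sum fun i _ => h3 i
      _ = m * (n + K) := by simp
  · have hn : B.card + G.card = n := by
      have := card_filter_add_card_filter_not (s := range n) (fun x => r < (Lg x).card)
      rwa [card_range] at this
    let sg : ℕ → ℕ × ℕ × ℕ × Finset (Fin m) := fun x =>
      (x % K.factorial, (univ.filter fun i => a i ≤ x).card,
        (univ.filter fun i => a i + d i * L i ≤ x).card, Lg x)
    let W : Finset (ℕ × ℕ × ℕ × Finset (Fin m)) :=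
      range K.factorial ×ˢ range (m + 1) ×ˢ range (m + 1) ×ˢ
        ((univ : Finset (Finset (Fin m))).filter fun A => A.card ≤ r)
    have hW : ∀ x ∈ G, sg x ∈ W := by
      intro x hx
      have hx2 := (mem_filter.1 hx).2
      simp only [W, sg, mem_product, mem_range, mem_filter, mem_univ, true_and]
      refine ⟨Nat.mod_lt _ (Nat.factorial_pos K), ?_, ?_, by omega⟩
      · exact Nat.lt_succ_of_le (by simpa using card_filter_le (univ : Finset (Fin m)) _)
      · exact Nat.lt_succ_of_le (by simpa using card_filter_le (univ : Finset (Fin m)) _)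
    have hsame : ∀ x y, sg x = sg y → ∀ i, x ∈ T i ↔ y ∈ T i := by
      intro x y h i
      simp only [sg, Prod.mk.injEq] at h
      obtain ⟨h1, h2, h3, h4⟩ := h
      by_cases hd : 0 < d i ∧ d i ≤ K
      · have e1 := cut_eq a x y h2 i
        have e2 := cut_eq (fun i => a i + d i * L i) x y h3 i
        have e3 : x % d i = y % d i := by
          have hdvd : d i ∣ K.factorial := Nat.dvd_factorial hd.1 hd.2
          rw [← Nat.mod_mod_of_dvd x hdvd, h1, Nat.mod_mod_of_dvd y hdvd]
        rw [hTe i, mem_ap _ _ _ _ hd.1, mem_ap _ _ _ _ hd.1, e1, e3]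
        rw [e2]
      · have e : i ∈ Lg x ↔ i ∈ Lg y := by rw [h4]
        simpa only [Lg, mem_filter, mem_univ, true_and, hd, not_false_eq_true] using e
    have hfib : ∀ w ∈ W, (G.filter fun x => sg x = w).card ≤ D + 1 := by
      intro w _
      rcases (G.filter fun x => sg x = w).eq_empty_or_nonempty with he | ⟨x0, hx0⟩
      · simp [he]
      have ho : ∀ x ∈ G.filter fun x => sg x = w,
          (fun i => decide (Disjoint (T i) {x})) = (fun i => decide (Disjoint (T i) {x0})) := by
        intro x hx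
        funext i
        have := hsame x x0 ((mem_filter.1 hx).2.trans (mem_filter.1 hx0).2.symm) i
        simp [this]
      set o : Fin m → Bool := fun i => decide (Disjoint (T i) {x0}) with ho_def
      have hc : ((G.filter fun x => sg x = w) \ J o).card ≤ 1 := by
        rw [card_le_one]
        intro x hx y hy
        rw [mem_sdiff] at hx hy
        have hx1 : x < n := mem_range.1 (mem_filter.1 (mem_filter.1 hx.1).1).1
        have hy1 : y < n := mem_range.1 (mem_filter.1 (mem_filter.1 hy.1).1).1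
        apply hS x y hx1 hy1
        · rw [ho x hx.1, ho y hy.1]
        · rw [ho x hx.1, singleton_inter_of_notMem hx.2, singleton_inter_of_notMem hy.2]
      have := le_card_sdiff (J o) (G.filter fun x => sg x = w)
      have := hJ o
      omega
    have hG := card_le_mul_card_image_of_maps_to hW (D + 1) hfib
    simp only [W, card_product, card_range] at hG
    omega

/-- The negation of the preceding statement: There are constants C, D such that for all 1 ≤ k ≤ n (n ≥ 2), some at most C·k·log n arithmetic progressions in [n] have this property: from their emptiness outcomes, querying at most D·k chosen points always pins down any hidden set of size at most k. -/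
theorem result :
    ¬ (∃ C : ℝ, ∃ D : ℕ, ∀ n k : ℕ, 2 ≤ n → 1 ≤ k → k ≤ n →
      ∃ m : ℕ, (m : ℝ) ≤ C * (k : ℝ) * Real.log (n : ℝ) ∧
        ∃ T : Fin m → Finset ℕ,
          (∀ i, T i ⊆ Finset.range n ∧
            ∃ a d L : ℕ, T i = (Finset.range L).image (fun j => a + d * j)) ∧
          ∃ J : (Fin m → Bool) → Finset ℕ,
            (∀ o, (J o).card ≤ D * k) ∧
            ∀ S S' : Finset ℕ, S ⊆ Finset.range n → S' ⊆ Finset.range n →
              S.card ≤ k → S'.card ≤ k →
              (fun i => decide (Disjoint (T i) S)) =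
                (fun i => decide (Disjoint (T i) S')) →
              S ∩ J (fun i => decide (Disjoint (T i) S)) =
                S' ∩ J (fun i => decide (Disjoint (T i) S)) →
              S = S') := by
  rintro ⟨C, D, h⟩
  obtain ⟨c, hc1, hC⟩ : ∃ c : ℕ, 1 ≤ c ∧ C ≤ c :=
    ⟨⌈C⌉₊ + 1, by omega, by push_cast; linarith [Nat.le_ceil C]⟩
  obtain ⟨N, hN⟩ : ∃ N : ℕ, N = 4 * c := ⟨_, rfl⟩
  obtain ⟨K, hKdef⟩ : ∃ K : ℕ, K = 4 * N ^ (4 * c) := ⟨_, rfl⟩
  have hN1 : 1 ≤ N := by omega
  have hK : 0 < K := by rw [hKdef]; positivity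
  obtain ⟨A, hA⟩ : ∃ A : ℕ, A = 2 * (D + 1) * K.factorial * (c + 1) ^ 2 := ⟨_, rfl⟩
  obtain ⟨s, hs⟩ : ∃ s : ℕ, s = 1000 * A + 1 := ⟨_, rfl⟩
  obtain ⟨u, hu⟩ : ∃ u : ℕ, u = K * s := ⟨_, rfl⟩
  have hs1 : 1 ≤ s := by omega
  have hus : s ≤ u := hu ▸ Nat.le_mul_of_pos_left _ hK
  have hKu : K ≤ u := hu ▸ Nat.le_mul_of_pos_right _ hs1
  have hu1 : 1 ≤ u := le_trans hs1 hus
  have hun : u < 2 ^ u := Nat.lt_two_pow_self
  have hn2 : 2 ≤ 2 ^ u := by omega
  obtain ⟨m, hm, T, hT, J, hJ, hS⟩ := h (2 ^ u) 1 hn2 le_rfl (by omega)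
  have hlog : Real.log 2 < 0.7 := lt_trans Real.log_two_lt_d9 (by norm_num)
  have hlog' : 0.69 < Real.log 2 := lt_trans (by norm_num) Real.log_two_gt_d9
  have hu0 : (0 : ℝ) < u := by exact_mod_cast hu1
  have hmu : m ≤ c * u := by
    have h1 : (m : ℝ) ≤ c * u := by
      push_cast at hm
      rw [Real.log_pow] at hm
      have h2 : (0 : ℝ) ≤ u * Real.log 2 := by positivity
      have h3 : (u : ℝ) * Real.log 2 ≤ u := by nlinarith
      have h4 : (0 : ℝ) ≤ c := by positivity
      nlinarith
    exact_mod_cast h1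
  obtain ⟨b, hb1, hb2⟩ := count (2 ^ u) m D K (4 * c * s) hK T hT J (by simpa using hJ) (by
    intro x y hx hy h1 h2
    have := hS {x} {y} (by simpa using hx) (by simpa using hy) (by simp) (by simp) h1 h2
    simpa using this)
  generalize hn : 2 ^ u = n at *
  have hb3 : 2 * b ≤ n := by
    have h1 : m * (n + K) ≤ K * (2 * c * s * n) := by
      calc m * (n + K) ≤ (c * u) * (n + n) := Nat.mul_le_mul hmu (by omega)
        _ = K * (2 * c * s * n) := by rw [hu]; ring
    have h2 : (4 * c * s + 1) * b ≤ 2 * c * s * n := le_of_mul_le_mul_left (hb1.trans h1) hK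
    by_contra hlt
    have h3 : 2 * c * s * n ≤ 2 * c * s * (2 * b) := Nat.mul_le_mul_left _ (by omega)
    have : 0 < b := by omega
    nlinarith
  have hq := card_small_subsets m (4 * c * s) N (by exact_mod_cast hN1)
  generalize ((univ : Finset (Finset (Fin m))).filter fun A => A.card ≤ 4 * c * s).card = q at *
  have hc0 : (0 : ℝ) < c := by exact_mod_cast hc1
  have e1 : (N : ℝ) ^ (4 * c * s) ≤ Real.exp (u / 4) := by
    rw [pow_mul]
    have h1 : (N : ℝ) ^ (4 * c) ≤ Real.exp (K / 4) := by
      have := Real.add_one_le_exp ((K : ℝ) / 4)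
      have h2 : (K : ℝ) / 4 = (N : ℝ) ^ (4 * c) := by rw [hKdef]; push_cast; ring
      linarith
    calc _ ≤ (Real.exp (K / 4)) ^ s := pow_le_pow_left₀ (by positivity) h1 s
      _ = _ := by rw [← Real.exp_nat_mul, hu]; push_cast; ring_nf
  have e2 : (1 + 1 / (N : ℝ)) ^ m ≤ Real.exp (u / 4) := by
    have h1 : (1 + 1 / (N : ℝ)) ≤ Real.exp (1 / N) := by
      have := Real.add_one_le_exp (1 / (N : ℝ))
      linarith
    calc _ ≤ (Real.exp (1 / N)) ^ m := pow_le_pow_left₀ (by positivity) h1 m
      _ = Real.exp (m * (1 / N)) := by rw [← Real.exp_nat_mul]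
      _ ≤ _ := by
        apply Real.exp_le_exp.2
        have h2 : (m : ℝ) ≤ c * u := by exact_mod_cast hmu
        rw [hN]
        push_cast
        rw [mul_one_div, div_le_div_iff₀ (by positivity) (by norm_num)]
        nlinarith
  have e3 : (q : ℝ) ≤ Real.exp (u / 2) := by
    calc (q : ℝ) ≤ _ := hq
      _ ≤ Real.exp (u / 4) * Real.exp (u / 4) := by gcongr
      _ = _ := by rw [← Real.exp_add]; ring_nf
  have e4 : n ≤ A * u ^ 2 * q := by
    have h1 : m + 1 ≤ (c + 1) * u := by nlinarith
    have h2 : (m + 1) * ((m + 1) * q) ≤ ((c + 1) * u) * (((c + 1) * u) * q) := by gcongr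
    have h3 : (D + 1) * (K.factorial * ((m + 1) * ((m + 1) * q))) ≤
        (D + 1) * (K.factorial * (((c + 1) * u) * (((c + 1) * u) * q))) := by gcongr
    have h4 : A * u ^ 2 * q =
        2 * ((D + 1) * (K.factorial * (((c + 1) * u) * (((c + 1) * u) * q)))) := by
      rw [hA]; ring
    omega
  have e5 : (n : ℝ) = Real.exp (u * Real.log 2) := by
    rw [Real.exp_nat_mul, Real.exp_log (by norm_num), ← hn]; push_cast; rfl
  have e6 : Real.exp (u / 2) * Real.exp (0.19 * u) ≤ (n : ℝ) := by
    rw [e5, ← Real.exp_add]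
    apply Real.exp_le_exp.2
    nlinarith
  have e7 : (0.19 * (u : ℝ)) ^ 3 / 6 ≤ Real.exp (0.19 * u) := by
    have := Real.pow_div_factorial_le_exp (0.19 * (u : ℝ)) (by positivity) 3
    simpa [Nat.factorial] using this
  have e8 : (1000 * A + 1 : ℝ) ≤ u := by exact_mod_cast hs ▸ hus
  have e9 : (n : ℝ) ≤ A * u ^ 2 * Real.exp (u / 2) := by
    have h1 : (n : ℝ) ≤ A * u ^ 2 * q := by exact_mod_cast e4
    exact h1.trans (by gcongr)
  have e10 : Real.exp (0.19 * u) ≤ A * u ^ 2 := by
    have hp := Real.exp_pos ((u : ℝ) / 2)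
    have := e6.trans e9
    rw [mul_comm] at this
    exact le_of_mul_le_mul_right this hp
  have hu2 : (0 : ℝ) < (u : ℝ) ^ 2 := by positivity
  have hA0 : (0 : ℝ) ≤ A := by positivity
  nlinarith

end Pool.Agent.S15022
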