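import Pool.Statements.S15054
-- import your own Pool.Agent.* helpers here

set_option autoImplicit false
open Pool Pool.MP_908db9_lc

namespace Pool.Agent.S15054

/-- The negation of the preceding statement: For every Polish group G, Polish space X, subset A of X and continuous action of G on A, there is a G_delta set B with A ⊆ B ⊆ X and a continuous action of G on B extending the given action. -/
theorem result :
    ¬ (∀ (G : Type) [TopologicalSpace G] [Group G] [IsTopologicalGroup G] [PolishSpace G]
      (X : Type) [TopologicalSpace X] [PolishSpace X]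
      (A : Set X) (a : G → A → A),
      Continuous (fun p : G × A => a p.1 p.2) →
      (∀ x : A, a 1 x = x) →
      (∀ (g h : G) (x : A), a g (a h x) = a (g * h) x) →
      ∃ B : Set X, IsGδ B ∧ A ⊆ B ∧
        ∃ b : G → B → B,
          Continuous (fun p : G × B => b p.1 p.2) ∧
          (∀ x : B, b 1 x = x) ∧
          (∀ (g h : G) (x : B), b g (b h x) = b (g * h) x) ∧
          (∀ (g : G) (x : B) (hx : (x : X) ∈ A),
            ((b g x : B) : X) = ((a g ⟨(x : X), hx⟩ : A) : X))) := by
  intro H
  let Y := ℕ → ℝ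
  let O : Set Y := {y | ¬ ∀ n, |y n| = 1}
  have hO : IsOpen O := by
    have : IsClosed {y : Y | ∀ n, |y n| = 1} := by
      simp only [Set.setOf_forall]
      exact isClosed_iInter fun n => isClosed_eq (by fun_prop) continuous_const
    exact this.isOpen_compl
  have : PolishSpace O := hO.polishSpace
  have : PolishSpace (Multiplicative Y) := inferInstanceAs (PolishSpace Y)
  have hz : ∀ y : Y, (∃ n, y n = 0) → y ∈ O := by
    rintro y ⟨n, hn⟩ h
    have := h n
    rw [hn] at this
    simp at this
  let A : Set O := {x | ∃ n, x.1 n = 0}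
  let act : Multiplicative Y → Y → Y := fun g y n => Real.exp (g.toAdd n) * y n
  have hact : ∀ g (x : A), ∃ n, act g x.1.1 n = 0 := by
    intro g x
    obtain ⟨n, hn⟩ := x.2
    exact ⟨n, by simp [act, hn]⟩
  let a : Multiplicative Y → A → A := fun g x => ⟨⟨act g x.1.1, hz _ (hact g x)⟩, hact g x⟩
  obtain ⟨B, hB, hAB, b, hb, -, -, hba⟩ := H (Multiplicative Y) O A a (by
      refine Continuous.subtype_mk (Continuous.subtype_mk (continuous_pi fun n => ?_) _) _
      refine Continuous.mul (Real.continuous_exp.comp ?_) ?_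
      · exact (continuous_apply n).comp (continuous_toAdd.comp continuous_fst)
      · exact (continuous_apply n).comp (continuous_subtype_val.comp
          (continuous_subtype_val.comp continuous_snd)))
    (by
      intro x
      refine Subtype.ext (Subtype.ext (funext fun n => ?_))
      show Real.exp ((0 : Y) n) * x.1.1 n = x.1.1 n
      simp [Y])
    (by
      intro g h x
      refine Subtype.ext (Subtype.ext (funext fun n => ?_))
      show Real.exp (g.toAdd n) * (Real.exp (h.toAdd n) * x.1.1 n) =
        Real.exp (g.toAdd n + h.toAdd n) * x.1.1 n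
      rw [Real.exp_add, mul_assoc])
  let z : O → ℕ → O := fun x k => ⟨Function.update x.1 k 0, hz _ ⟨k, by simp⟩⟩
  have hzA : ∀ x k, z x k ∈ A := fun x k => ⟨k, by simp [z]⟩
  have hev : ∀ (x : O) n, ∀ᶠ k in Filter.atTop, (z x k).1 n = x.1 n := by
    intro x n
    filter_upwards [Filter.eventually_gt_atTop n] with k hk
    exact Function.update_of_ne hk.ne _ _
  have hzt : ∀ x : O, Filter.Tendsto (z x) Filter.atTop (nhds x) := by
    intro x
    rw [tendsto_subtype_rng, tendsto_pi_nhds]
    intro n
    exact tendsto_const_nhds.congr' ((hev x n).mono fun k hk => hk.symm)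
  have hAd : Dense A := fun x =>
    mem_closure_of_tendsto (hzt x) (Filter.Eventually.of_forall (hzA x))
  have hU : Dense (⋂ n, {x : O | x.1 n ≠ 0}) := by
    refine dense_iInter_of_isOpen (fun n => ?_) (fun n => ?_)
    · exact isOpen_ne_fun ((continuous_apply n).comp continuous_subtype_val) continuous_const
    · have h1 : Dense ({0}ᶜ : Set ℝ) := dense_compl_singleton 0
      exact h1.preimage ((isOpenMap_eval (X := fun _ : ℕ => ℝ) n).comp hO.isOpenMap_subtype_val)
  have hUG : IsGδ (⋂ n, {x : O | x.1 n ≠ 0}) := IsGδ.iInter fun n =>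
    (isOpen_ne_fun ((continuous_apply n).comp continuous_subtype_val) continuous_const).isGδ
  have hne : Nonempty O := ⟨⟨fun _ => 0, hz _ ⟨0, rfl⟩⟩⟩
  obtain ⟨x, hxB, hxU⟩ := (Dense.inter_of_Gδ hB hUG (hAd.mono hAB) hU).nonempty
  rw [Set.mem_iInter] at hxU
  let g : Multiplicative Y := Multiplicative.ofAdd fun n => -Real.log |x.1 n|
  refine (b g ⟨x, hxB⟩).1.2 fun n => ?_
  have h1 : Filter.Tendsto (fun k => (⟨z x k, hAB (hzA x k)⟩ : B)) Filter.atTop
      (nhds ⟨x, hxB⟩) := by
    rw [tendsto_subtype_rng]; exact hzt x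
  have hc : Continuous fun y : B => (b g y).1.1 n :=
    (continuous_apply n).comp (continuous_subtype_val.comp (continuous_subtype_val.comp
      (hb.comp (Continuous.prodMk_right g))))
  have h2 := (hc.tendsto _).comp h1
  have h3 : Filter.Tendsto (fun k => (b g ⟨z x k, hAB (hzA x k)⟩).1.1 n) Filter.atTop
      (nhds (Real.exp (-Real.log |x.1 n|) * x.1 n)) := by
    refine tendsto_const_nhds.congr' ((hev x n).mono fun k hk => ?_)
    show _ = (b g ⟨z x k, hAB (hzA x k)⟩).1.1 n
    rw [hba g ⟨z x k, hAB (hzA x k)⟩ (hzA x k), ← hk]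
    show _ = Real.exp (-Real.log |x.1 n|) * (z x k).1 n
    rw [hk]
  rw [tendsto_nhds_unique h2 h3]
  have hpos : 0 < |x.1 n| := abs_pos.2 (hxU n)
  rw [abs_mul, Real.exp_neg, Real.exp_log hpos, abs_inv, abs_abs]
  exact inv_mul_cancel₀ hpos.ne'

end Pool.Agent.S15054
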