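import Pool.Statements.S15060


set_option autoImplicit false
open Pool Pool.MP_917099_lc

namespace Pool.Agent.S15060

def Win (T : ℕ → Fin 9) (j : Fin 9) (c : ℕ) : Prop := ∀ m, ∃ t, m ≤ t ∧ t < m + c ∧ T t = j

def Oft (T : ℕ → Fin 9) (j : Fin 9) : Prop := ∀ m, ∃ t, m ≤ t ∧ T t = j

lemma enum (T : ℕ → Fin 9) (P : Fin 9 → Prop) (j : Fin 9) (hj : P j) (h : Oft T j) :
    ∃ n : ℕ → ℕ, StrictMono n ∧ (∀ k, P (T (n k))) ∧ ∀ t, P (T t) → ∃ k, n k = t := by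
  have hinf : (setOf (fun t => P (T t))).Infinite := by
    apply Set.infinite_of_not_bddAbove
    rintro ⟨b, hb⟩
    obtain ⟨t, ht, e⟩ := h (b + 1)
    have : t ≤ b := hb (show P (T t) by rw [e]; exact hj)
    omega
  refine ⟨Nat.nth (fun t => P (T t)), Nat.nth_strictMono hinf,
    fun k => Nat.nth_mem_of_infinite hinf k, fun t ht => ?_⟩
  have := Nat.range_nth_of_infinite hinf
  have h2 : t ∈ Set.range (Nat.nth (fun t => P (T t))) := by rw [this]; exact ht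
  exact h2

lemma win (T : ℕ → Fin 9) (P : Fin 9 → Prop) (n : ℕ → ℕ) (hn : StrictMono n)
    (hs : ∀ t, P (T t) → ∃ k, n k = t) (j : Fin 9) (hj : P j) (a c : ℕ) (hW : Win T j a)
    (hgap : ∀ k, n k + a + 1 ≤ n (k + c + 1)) : Win (fun k => T (n (k + 1))) j c := by
  intro m
  obtain ⟨t, t1, t2, e⟩ := hW (n m + 1)
  obtain ⟨k, rfl⟩ := hs t (by rw [e]; exact hj)
  have h1 : m < k := hn.lt_iff_lt.1 (by omega)
  have h2 : k < m + c + 1 := hn.lt_iff_lt.1 (by have := hgap m; omega)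
  obtain ⟨k', rfl⟩ : ∃ k', k = k' + 1 := ⟨k - 1, by omega⟩
  exact ⟨k', by omega, by omega, e⟩

lemma oft (T : ℕ → Fin 9) (P : Fin 9 → Prop) (n : ℕ → ℕ) (hn : StrictMono n)
    (hs : ∀ t, P (T t) → ∃ k, n k = t) (j : Fin 9) (hj : P j) (hW : Oft T j) :
    Oft (fun k => T (n (k + 1))) j := by
  intro m
  obtain ⟨t, t1, e⟩ := hW (n m + 1)
  obtain ⟨k, rfl⟩ := hs t (by rw [e]; exact hj)
  have h1 : m < k := hn.lt_iff_lt.1 (by omega)
  obtain ⟨k', rfl⟩ : ∃ k', k = k' + 1 := ⟨k - 1, by omega⟩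
  exact ⟨k', by omega, e⟩

lemma red2 (T : ℕ → Fin 9) (j0 x : Fin 9) (hx : x ≠ j0) (h0 : Win T j0 2) (hX : Oft T x) :
    ∃ T' : ℕ → Fin 9, Oft T' x ∧ ∀ j, j ≠ j0 → ∀ c, Win T j (2 * c + 1) → Win T' j c := by
  obtain ⟨n, hn, hP, hs⟩ := enum T (fun j => j ≠ j0) x hx hX
  have g1 : ∀ k, n k + 2 ≤ n (k + 1) := by
    intro k
    have h1 := hn (Nat.lt_succ_self k)
    by_contra hc
    have e : n (k + 1) = n k + 1 := by
      simp only [Nat.succ_eq_add_one] at h1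
      omega
    obtain ⟨t, t1, t2, e'⟩ := h0 (n k)
    have : t = n k ∨ t = n (k + 1) := by omega
    rcases this with rfl | rfl
    · exact hP _ e'
    · exact hP _ e'
  have g2 : ∀ d k, n k + 2 * d ≤ n (k + d) := by
    intro d k
    induction d with
    | zero => simp
    | succ d ih =>
      have := g1 (k + d)
      rw [← add_assoc]
      omega
  refine ⟨fun k => T (n (k + 1)), oft T (fun j => j ≠ j0) n hn hs x hx hX, fun j hj c hW => ?_⟩
  refine win T (fun j => j ≠ j0) n hn hs j hj _ c hW (fun k => ?_)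
  have := g2 (c + 1) k
  rw [← add_assoc] at this
  omega

lemma core (T : ℕ → Fin 9) (hA : Win T 0 6) (h1 : Win T 1 7) (h2 : Win T 2 7) (h3 : Win T 3 7)
    (h4 : Win T 4 7) (hC : Win T 5 13) (hD : Win T 6 27) (hE : Win T 7 35) (hX : Oft T 8) :
    False := by
  obtain ⟨n, hn, hP, hs⟩ := enum T (fun j => j ≠ 1 ∧ j ≠ 2 ∧ j ≠ 3 ∧ j ≠ 4) 8 (by decide) hX
  have g1 : ∀ k, n k + 7 ≤ n (k + 3) := by
    intro k
    by_contra hc
    have a1 : n k < n (k + 1) := hn (by omega)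
    have a2 : n (k + 1) < n (k + 2) := hn (by omega)
    have a3 : n (k + 2) < n (k + 3) := hn (by omega)
    obtain ⟨t1, p1, q1, e1⟩ := h1 (n k)
    obtain ⟨t2, p2, q2, e2⟩ := h2 (n k)
    obtain ⟨t3, p3, q3, e3⟩ := h3 (n k)
    obtain ⟨t4, p4, q4, e4⟩ := h4 (n k)
    have b1 : ∀ i, n i ≠ t1 := fun i h => (hP i).1 (h ▸ e1)
    have b2 : ∀ i, n i ≠ t2 := fun i h => (hP i).2.1 (h ▸ e2)
    have b3 : ∀ i, n i ≠ t3 := fun i h => (hP i).2.2.1 (h ▸ e3)
    have b4 : ∀ i, n i ≠ t4 := fun i h => (hP i).2.2.2 (h ▸ e4)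
    have c12 : t1 ≠ t2 := fun h => by rw [h, e2] at e1; exact absurd e1 (by decide)
    have c13 : t1 ≠ t3 := fun h => by rw [h, e3] at e1; exact absurd e1 (by decide)
    have c14 : t1 ≠ t4 := fun h => by rw [h, e4] at e1; exact absurd e1 (by decide)
    have c23 : t2 ≠ t3 := fun h => by rw [h, e3] at e2; exact absurd e2 (by decide)
    have c24 : t2 ≠ t4 := fun h => by rw [h, e4] at e2; exact absurd e2 (by decide)
    have c34 : t3 ≠ t4 := fun h => by rw [h, e4] at e3; exact absurd e3 (by decide)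
    have nd : [n k, n (k + 1), n (k + 2), n (k + 3), t1, t2, t3, t4].Nodup := by
      simp only [List.nodup_cons, List.mem_cons, List.not_mem_nil, or_false, not_or,
        List.nodup_nil, and_true, not_false_eq_true]
      refine ⟨⟨by omega, by omega, by omega, b1 _, b2 _, b3 _, b4 _⟩,
        ⟨by omega, by omega, b1 _, b2 _, b3 _, b4 _⟩, ⟨by omega, b1 _, b2 _, b3 _, b4 _⟩,
        ⟨b1 _, b2 _, b3 _, b4 _⟩, ⟨c12, c13, c14⟩, ⟨c23, c24⟩, c34⟩
    have hc8 := List.toFinset_card_of_nodup nd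
    have hsub : [n k, n (k + 1), n (k + 2), n (k + 3), t1, t2, t3, t4].toFinset ⊆
        Finset.Ico (n k) (n k + 7) := by
      intro y hy
      simp only [List.mem_toFinset, List.mem_cons, List.not_mem_nil, or_false] at hy
      rw [Finset.mem_Ico]
      omega
    have := Finset.card_le_card hsub
    rw [hc8, Nat.card_Ico] at this
    simp only [List.length_cons, List.length_nil] at this
    omega
  have g2 : ∀ d k, n k + 7 * d ≤ n (k + 3 * d) := by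
    intro d k
    induction d with
    | zero => simp
    | succ d ih =>
      have := g1 (k + 3 * d)
      rw [show k + 3 * (d + 1) = k + 3 * d + 3 by ring]
      omega
  have wA := win T (fun j => j ≠ 1 ∧ j ≠ 2 ∧ j ≠ 3 ∧ j ≠ 4) n hn hs 0 (by decide) 6 2 hA (fun k => g1 k)
  have wC := win T (fun j => j ≠ 1 ∧ j ≠ 2 ∧ j ≠ 3 ∧ j ≠ 4) n hn hs 5 (by decide) 13 5 hC (fun k => g2 2 k)
  have wD := win T (fun j => j ≠ 1 ∧ j ≠ 2 ∧ j ≠ 3 ∧ j ≠ 4) n hn hs 6 (by decide) 27 11 hD (fun k => g2 4 k)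
  have wE := win T (fun j => j ≠ 1 ∧ j ≠ 2 ∧ j ≠ 3 ∧ j ≠ 4) n hn hs 7 (by decide) 35 15 hE (fun k => by
    have a1 := g2 5 k
    have a2 : n (k + 3 * 5) < n (k + 15 + 1) := hn (by omega)
    omega)
  have wX := oft T (fun j => j ≠ 1 ∧ j ≠ 2 ∧ j ≠ 3 ∧ j ≠ 4) n hn hs 8 (by decide) hX
  obtain ⟨T2, x2, r2⟩ := red2 _ 0 8 (by decide) wA wX
  obtain ⟨T3, x3, r3⟩ := red2 T2 5 8 (by decide) (r2 5 (by decide) 2 wC) x2
  have d3 := r3 6 (by decide) 2 (r2 6 (by decide) 5 wD)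
  have e3 := r3 7 (by decide) 3 (r2 7 (by decide) 7 wE)
  obtain ⟨t, t1, et⟩ := x3 1
  obtain ⟨s, rfl⟩ : ∃ s, t = s + 1 := ⟨t - 1, by omega⟩
  obtain ⟨u1, p1, q1, f1⟩ := d3 s
  obtain ⟨u2, p2, q2, f2⟩ := d3 (s + 1)
  obtain ⟨u3, p3, q3, f3⟩ := e3 s
  have k1 : u1 ≠ s + 1 := fun h => by rw [h, et] at f1; exact absurd f1 (by decide)
  have k2 : u2 ≠ s + 1 := fun h => by rw [h, et] at f2; exact absurd f2 (by decide)
  have k3 : u3 ≠ s + 1 := fun h => by rw [h, et] at f3; exact absurd f3 (by decide)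
  have k4 : u3 ≠ u1 := fun h => by rw [h, f1] at f3; exact absurd f3 (by decide)
  have k5 : u3 ≠ u2 := fun h => by rw [h, f2] at f3; exact absurd f3 (by decide)
  omega

/-- The negation of the preceding statement: For any nonempty list of positive integer periods with smallest period a, if the sum of 1/aᵢ is at most 1 − (a−1)/(a(a+1)), there is a schedule ℤ → indices in which every index i appears in every aᵢ consecutive integer slots. -/
theorem result :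
    ¬ (∀ (k : ℕ) (a : Fin (k + 1) → ℕ),
      (∀ i, 0 < a i) →
      (∀ i, a 0 ≤ a i) →
      (∑ i, (1 : ℝ) / (a i : ℝ)) ≤ 1 - ((a 0 : ℝ) - 1) / ((a 0 : ℝ) * ((a 0 : ℝ) + 1)) →
      ∃ S : ℤ → Fin (k + 1), ∀ i : Fin (k + 1), ∀ m : ℤ,
        ∃ t : ℤ, m ≤ t ∧ t < m + (a i : ℤ) ∧ S t = i) := by
  intro H
  obtain ⟨S, hS⟩ := H 8 ![6, 7, 7, 7, 7, 13, 27, 35, 4000] (by decide) (by decide) (by
    simp only [Fin.sum_univ_succ, Fin.sum_univ_zero, Matrix.cons_val_zero, Matrix.cons_val_succ]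
    norm_num)
  have w : ∀ i : Fin 9, Win (fun t : ℕ => S (t : ℤ)) i
      ((![6, 7, 7, 7, 7, 13, 27, 35, 4000] : Fin 9 → ℕ) i) := by
    intro i m
    obtain ⟨t, t1, t2, e⟩ := hS i (m : ℤ)
    obtain ⟨t', rfl⟩ : ∃ t' : ℕ, t = t' := ⟨t.toNat, by omega⟩
    exact ⟨t', by exact_mod_cast t1, by exact_mod_cast t2, e⟩
  refine core (fun t : ℕ => S (t : ℤ)) (w 0) (w 1) (w 2) (w 3) (w 4) (w 5) (w 6) (w 7) ?_
  intro m
  obtain ⟨t, t1, -, e⟩ := w 8 m
  exact ⟨t, t1, e⟩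

end Pool.Agent.S15060
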