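import Pool.Statements.S15106

set_option autoImplicit false
open Pool Pool.MP_9c356a_lc

namespace Pool.Agent.S15106

/-- The morphism `a ↦ bab`, `b ↦ ab`. -/
def hh : Fin 2 → List (Fin 2) := fun x => if x = 0 then [1, 0, 1] else [0, 1]

/-- Its extension to words. -/
def HH : List (Fin 2) → List (Fin 2) := fun u => u.flatMap hh

lemma HH_append (u v : List (Fin 2)) : HH (u ++ v) = HH u ++ HH v := by
  simp [HH]

lemma HH_flatten (l : List (List (Fin 2))) : HH l.flatten = (l.map HH).flatten := by
  induction l with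
  | nil => rfl
  | cons a l ih => simp only [List.flatten_cons, List.map_cons, HH_append, ih]

lemma HH_inj : ∀ u v : List (Fin 2), HH u = HH v → u = v := by
  intro u
  induction u with
  | nil =>
    intro v hv
    cases v with
    | nil => rfl
    | cons b v => fin_cases b <;> simp [HH, hh] at hv
  | cons a u ih =>
    intro v hv
    cases v with
    | nil => fin_cases a <;> simp [HH, hh] at hv
    | cons b v =>
      fin_cases a <;> fin_cases b <;> simp [HH, hh] at hv ⊢
      · exact ih v hv
      · exact ih v hv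

/-- The catenation formula `L` holds at time `m`. -/
def FF (L : List ℕ) (m : ℕ) : Prop :=
  HH^[m] [0] = (L.map (fun i => HH^[m - i] [0])).flatten

lemma FF_succ (L : List ℕ) (m : ℕ) (hL : ∀ i ∈ L, i ≤ m) : FF L (m + 1) ↔ FF L m := by
  have key : (L.map (fun i => HH^[m + 1 - i] [0])).flatten =
      HH (L.map (fun i => HH^[m - i] [0])).flatten := by
    rw [HH_flatten, List.map_map]
    congr 1
    apply List.map_congr_left
    intro i hi
    have : m + 1 - i = (m - i) + 1 := by have := hL i hi; omega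
    rw [this, Function.iterate_succ_apply']
    rfl
  unfold FF
  rw [key, Function.iterate_succ_apply']
  exact ⟨HH_inj _ _, fun h => congrArg HH h⟩

lemma FF_add (L : List ℕ) (m : ℕ) (hL : ∀ i ∈ L, i ≤ m) (k : ℕ) : FF L (m + k) ↔ FF L m := by
  induction k with
  | zero => rfl
  | succ k ih =>
    rw [← ih, ← add_assoc]
    exact FF_succ L (m + k) (fun i hi => le_trans (hL i hi) (Nat.le_add_right _ _))

lemma le_foldr (L : List ℕ) : ∀ i ∈ L, i ≤ L.foldr max 0 := by
  induction L with
  | nil => simp
  | cons a L ih =>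
    intro i hi
    rcases List.mem_cons.1 hi with rfl | hi
    · exact le_max_left _ _
    · exact le_trans (ih i hi) (le_max_right _ _)

lemma not_FF (L : List ℕ) (h0 : ∀ i ∈ L, 0 < i) (h2 : ∀ i ∈ L, i ≤ 2) : ¬ FF L 2 := by
  unfold FF
  have e2 : HH^[2] [0] = [0, 1, 1, 0, 1, 0, 1] := by decide
  have e1 : HH^[2 - 1] [0] = [1, 0, 1] := by decide
  have e0 : HH^[2 - 2] [0] = [0] := by decide
  rw [e2]
  match L, h0, h2 with
  | [], _, _ => simp
  | [i], h0, h2 =>
    have a := h0 i (by simp)
    have b := h2 i (by simp)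
    interval_cases i <;> simp only [List.map_cons, e1, e0] <;> simp
  | i :: j :: L, h0, h2 =>
    have a := h0 i (by simp)
    have b := h2 i (by simp)
    have c := h0 j (by simp)
    have d := h2 j (by simp)
    interval_cases i <;> interval_cases j <;> simp only [List.map_cons, e1, e0] <;> simp

/-- The negation of the preceding statement: For every D0L system over an n-letter alphabet, words w_m = h^m(w): if eventually w_m = w_{m-i_1}…w_{m-i_k} for some nonempty list of positive i_j, then such a formula exists with max i_j ≤ n!, and conversely. -/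
theorem result :
    ¬ (∀ (n : ℕ) (h : Fin n → List (Fin n)) (w : List (Fin n)),
    (∃ d : ℕ, ∃ L : List ℕ, ∃ N : ℕ, L ≠ [] ∧ (∀ i ∈ L, 0 < i) ∧ L.foldr max 0 = d ∧ d ≤ N ∧
        ∀ m : ℕ, N ≤ m →
          (fun u : List (Fin n) => u.flatMap h)^[m] w =
            (L.map (fun i => (fun u : List (Fin n) => u.flatMap h)^[m - i] w)).flatten) ↔
    (∃ d : ℕ, d ≤ n.factorial ∧ ∃ L : List ℕ, ∃ N : ℕ, L ≠ [] ∧ (∀ i ∈ L, 0 < i) ∧
        L.foldr max 0 = d ∧ d ≤ N ∧
        ∀ m : ℕ, N ≤ m →
          (fun u : List (Fin n) => u.flatMap h)^[m] w =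
            (L.map (fun i => (fun u : List (Fin n) => u.flatMap h)^[m - i] w)).flatten)) := by
  intro H
  have h3 : FF [2, 3, 2, 2, 1] 3 := by unfold FF; decide
  obtain ⟨d, hd, L, N, -, h0, hmax, hN, hF⟩ := (H 2 hh [0]).1
    ⟨3, [2, 3, 2, 2, 1], 3, by simp, by simp, by decide, le_rfl, fun m hm => by
      obtain ⟨k, rfl⟩ := Nat.exists_eq_add_of_le hm
      exact (FF_add [2, 3, 2, 2, 1] 3 (by simp) k).2 h3⟩
  have h2 : ∀ i ∈ L, i ≤ 2 := fun i hi => le_trans (le_foldr L i hi) (hmax ▸ hd)
  exact not_FF L h0 h2 ((FF_add L 2 h2 N).1 (hF (2 + N) (Nat.le_add_left _ _)))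

end Pool.Agent.S15106
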