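import Pool.Statements.S15144
import Pool.Agent.Lib.H8.FC

set_option autoImplicit false
open Pool Pool.MP_a2ec29_lc Pool.Agent.Lib.H8 Fcf CList Qm Filter

namespace Pool.Agent.S15144

/-- The negation of the preceding statement: Take any computable infinite linear order L and computable Boolean algebra B isomorphic to the algebra of finite unions of half-open intervals of L. Then some computable copy of L makes B computably isomorphic to that copy's interval algebra. -/
theorem result :
    ¬ (∀ (β : Type) [LinearOrder β] (l : ℕ ≃ β),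
      ComputablePred (fun p : ℕ × ℕ => l p.1 ≤ l p.2) →
      ∀ (α : Type) [BooleanAlgebra α] (e : ℕ ≃ α),
        Computable₂ (fun m n : ℕ => e.symm (e m ⊔ e n)) →
        Computable₂ (fun m n : ℕ => e.symm (e m ⊓ e n)) →
        Computable (fun n : ℕ => e.symm (e n)ᶜ) →
        (∃ φ : α → Set β, Function.Injective φ ∧
            (∀ a b, φ (a ⊔ b) = φ a ∪ φ b) ∧
            (∀ a, φ aᶜ = (φ a)ᶜ) ∧
            Set.range φ = {X : Set β | ∃ S : Finset β, ∃ b : Bool,
              X = {x : β | Xor' (b = true) (Odd (S.filter (fun s => s ≤ x)).card)}}) →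
        ∃ l' : ℕ ≃ β, ComputablePred (fun p : ℕ × ℕ => l' p.1 ≤ l' p.2) ∧
          ∃ ψ : α → Set β, Function.Injective ψ ∧
            (∀ a b, ψ (a ⊔ b) = ψ a ∪ ψ b) ∧
            (∀ a, ψ aᶜ = (ψ a)ᶜ) ∧
            Set.range ψ = {X : Set β | ∃ S : Finset β, ∃ b : Bool,
              X = {x : β | Xor' (b = true) (Odd (S.filter (fun s => s ≤ x)).card)}} ∧
            ∃ c : ℕ → List ℕ × Bool, Computable c ∧
              ∀ n : ℕ, ψ (e n) = {x : β | Xor' ((c n).2 = true)
                (Odd ((c n).1.filter (fun s => decide (l' s ≤ x))).length)}) := by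
  intro h
  obtain ⟨a, c, a0, n⟩ := hard
  obtain ⟨l, -, ψ, i, p, q, r, d, d1, d2⟩ := h ℕ (Equiv.refl ℕ) (cle Computable.fst Computable.snd)
    FC (num a) (op_c c a0 cor fun _ _ _ => Iff.rfl) (op_c c a0 cand fun _ _ _ => Iff.rfl)
    ((op_c c a0 (R := fun p _ => ¬ p) (fun p _ => p.not) (F := fun X _ => Xᶜ)
      fun _ _ _ => Iff.rfl).comp Computable.id Computable.id)
    ⟨_, Subtype.val_injective, fun _ _ => rfl, fun _ => rfl, range_FC⟩
  rw [← range_FC] at r
  have b := d1.comp Rnd.pow_c
  have u := ceq (Computable.snd.comp b) (Computable.const true)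
  have v := ceq (Gen.md (Computable.list_length.comp (Computable.fst.comp b)) 2) (Computable.const 1)
  refine n ((cor (cand u v.not) (cand v u.not)).of_eq fun s => ?_)
  have e : ∀ᶠ x in atTop, x ∈ ψ (num a (2 ^ s)) ↔
      Xor' ((d (2 ^ s)).2 = true) (Odd (d (2 ^ s)).1.length) :=
    (eventually_ge_atTop ((d (2 ^ s)).1.map l).sum).mono fun x k => by
      rw [d2, Set.mem_ofPred_eq, List.filter_eq_self.2 fun s o => decide_eq_true
        ((List.le_sum_of_mem (List.mem_map_of_mem o)).trans k)]
  have m (x) : x ∈ (num a (2 ^ s)).1 ↔ G a s x := by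
    change f a _ x = 1 ↔ _
    rw [f_pow]; simp
  simp only [← Nat.odd_iff]
  refine ⟨fun k y o => not_lt.1 fun z => ?_, fun k => ?_⟩
  · obtain ⟨x, x1, x2⟩ := (e.and (fin_pres i p r (X := num a (2 ^ s))
      ((eventually_ge_atTop y).mono fun x _ w =>
        (((m x).1 w).2 y (by omega) o).not_gt z))).exists
    exact x2 (x1.2 k)
  · obtain ⟨x, x1, x2⟩ := (e.and (fin_pres i p r (X := (num a (2 ^ s))ᶜ)
      ((eventually_ge_atTop s).mono fun x y w => w ((m x).2 ⟨y, fun r _ => k r⟩)))).exists
    exact x1.1 (by simpa [q] using x2)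

end Pool.Agent.S15144
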