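import Pool.Statements.S15181
import Pool.Agent.Lib.H8.Hechler

set_option autoImplicit false
open Pool Pool.MP_a7cfe9_lc

namespace Pool.Agent.S15181

/-- There is a closed set P of functions ℕ→ℕ such that for every closed set Q of binary sequences, it is not the case that every element of P computes an element of Q and every element of Q computes an element of P. -/
theorem result :
    ∃ P : Set (ℕ → ℕ), IsClosed P ∧
      ∀ Q : Set (ℕ → Bool), IsClosed Q →
        ¬ ((∀ x ∈ P, ∃ y ∈ Q,
              TuringReducible (PFun.lift (fun n => (y n).toNat)) (PFun.lift x)) ∧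
           (∀ y ∈ Q, ∃ x ∈ P,
              TuringReducible (PFun.lift x) (PFun.lift (fun n => (y n).toNat)))) := by
  classical
  obtain ⟨q, hq⟩ := Lib.H8.Hechler.main
  let val : ℕ → Part ℕ := fun n =>
    let r := Denumerable.ofNat (Nat.Partrec.Code × List ℕ × Nat.Partrec.Code) n
    Lib.H8.Fnl.ev (PFun.lift fun m => (q r.1 r.2.1 m).toNat) r.2.2 n
  let h : ℕ → ℕ := fun n => if hd : (val n).Dom then (val n).get hd + 1 else 0
  refine ⟨{f | ∀ n, h n ≤ f n}, ?_, fun Q hQ ⟨h1, h2⟩ => ?_⟩
  · simp only [Set.ofPred_forall]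
    exact isClosed_iInter fun n => isClosed_le continuous_const (continuous_apply n)
  · obtain ⟨f, hf, hf'⟩ := hq h Q hQ fun c σ hmem => by
      obtain ⟨x, hx, hr⟩ := h2 _ hmem
      obtain ⟨c', hc'⟩ := Lib.H8.Fnl.exists_code (RecursiveIn.iff_nat.1 hr)
      have e : val (Encodable.encode (c, σ, c')) = Part.some (x (Encodable.encode (c, σ, c'))) := by
        simp only [val, Denumerable.ofNat_encode, hc']
        rfl
      have := hx (Encodable.encode (c, σ, c'))
      generalize Encodable.encode (c, σ, c') = N at e this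
      simp [h, e] at this
    obtain ⟨y, hy, hr⟩ := h1 f hf
    obtain ⟨c, hc⟩ := Lib.H8.Fnl.exists_code (RecursiveIn.iff_nat.1 hr)
    exact hf' c y hy hc

end Pool.Agent.S15181
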