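import Pool.Statements.S15235
import Pool.Agent.Lib.H8.EffBK2

set_option autoImplicit false
open Pool Pool.MP_b0cc33_lc

namespace Pool.Agent.S15235

/-- Every finitely generated group F_n/N whose non-identity words form a c.e. set embeds, as a group of isometries each computable on a dense sequence, into some complete metric space with a dense sequence having computable distances. -/
theorem result :
    ∀ (n : ℕ) (N : Subgroup (FreeGroup (Fin n))), N.Normal →
      REPred (fun w : List (Fin n × Bool) => FreeGroup.mk w ∉ N) →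
      ∃ (X : Type) (_ : MetricSpace X) (_ : CompleteSpace X) (s : ℕ → X),
        DenseRange s ∧
        (∃ q : ℕ × ℕ × ℕ → ℕ, Computable q ∧
          ∀ i j k : ℕ, |dist (s i) (s j) - (q (i, j, k) : ℝ) / 2 ^ k| ≤ 1 / 2 ^ k) ∧
        ∃ φ : FreeGroup (Fin n) →* (X ≃ᵢ X), φ.ker = N ∧
          ∀ g : FreeGroup (Fin n), ∃ h : ℕ × ℕ → ℕ, Computable h ∧
            ∀ i k : ℕ, dist (φ g (s i)) (s (h (i, k))) ≤ 1 / 2 ^ k := by
  intro n N hN hre
  open Pool.Agent.Lib.H8.EffBK in
  obtain ⟨D, hD, hD1, hD2⟩ := re_approx hre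
  let wd : ℕ → List (Fin n × Bool) := fun i => (Encodable.decode i).getD []
  have hwd : Primrec wd := Primrec.option_getD.comp Primrec.decode (Primrec.const [])
  have hwe : ∀ w, wd (Encodable.encode w) = w := fun w => by simp [wd]
  have hinv : Primrec (FreeGroup.invRev : List (Fin n × Bool) → List (Fin n × Bool)) :=
    Primrec.list_reverse.comp (Primrec.list_map Primrec.id
      ((Primrec.fst.comp Primrec.snd).pair (Primrec.not.comp (Primrec.snd.comp Primrec.snd))))
  let G := FreeGroup (Fin n) ⧸ N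
  let pr : FreeGroup (Fin n) →* G := QuotientGroup.mk' N
  let π : ℕ → G := fun i => pr (FreeGroup.mk (wd i))
  let DD : List ℕ × ℕ → ℕ → Prop := fun p s => D (FreeGroup.invRev (p.1.flatMap wd) ++ wd p.2) s
  have hDD : PrimrecRel DD :=
    hD.comp (Primrec.list_append.comp (hinv.comp (Primrec.list_flatMap
      (Primrec.fst.comp Primrec.fst) (hwd.comp Primrec.snd))) (hwd.comp
        (Primrec.snd.comp Primrec.fst))) Primrec.snd
  have hprod : ∀ e : List ℕ, (e.map π).prod = pr (FreeGroup.mk (e.flatMap wd)) := by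
    intro e
    induction e with
    | nil => simp [← FreeGroup.one_eq_mk]
    | cons j l ih => rw [List.map_cons, List.prod_cons, ih, List.flatMap_cons,
        ← FreeGroup.mul_mk, map_mul]
  have hs : ∀ e i, (∃ s, DD (e, i) s) ↔ (e.map π).prod ≠ π i := by
    intro e i
    rw [hprod]
    refine (hD1 _).trans (not_congr ?_)
    rw [← FreeGroup.mul_mk, ← FreeGroup.inv_mk]
    exact QuotientGroup.eq.symm
  have hm : ∀ x s s', s ≤ s' → DD x s → DD x s' := fun x s s' h => hD2 _ s s' h
  obtain ⟨B, hBc, hB⟩ := Pool.Agent.Lib.H8.EffBK.core hDD hs hm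
  obtain ⟨v, hv1, hv2, hv3, hv4⟩ := Pool.Agent.Lib.H8.EffBK.limit hs hm hB
  have hsurj : Function.Surjective π := by
    intro g
    obtain ⟨x, rfl⟩ := QuotientGroup.mk'_surjective N g
    refine ⟨Encodable.encode x.toWord, ?_⟩
    simp only [π, hwe, FreeGroup.mk_toWord]
    rfl
  choose idx hidx using hsurj
  have hveq : ∀ i j, π i = π j → v i = v j := fun i j h =>
    le_antisymm (by simpa using hv2 [j] i (by simpa using h.symm))
      (by simpa using hv2 [i] j (by simpa using h))
  let ν : G → ℝ := fun g => v (idx g) + v (idx g⁻¹)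
  have hv0 : v (idx 1) = 0 :=
    le_antisymm (by simpa using hv2 [] (idx 1) (by simp [hidx])) (hv3 _)
  have hvs : ∀ g h, v (idx (g * h)) ≤ v (idx g) + v (idx h) := fun g h => by
    simpa using hv2 [idx g, idx h] (idx (g * h)) (by simp [hidx])
  obtain ⟨X, iX, cX, ι, hι, hdist, φ, hφ⟩ := Pool.Agent.Lib.H8.EffBK.space ν
    (by simp [ν, hv0]) (fun g => by
      have : g⁻¹⁻¹ = g := inv_inv g
      simp only [ν, this, add_comm]) (fun g h => by
      have h1 := hvs g h
      have h2 := hvs h⁻¹ g⁻¹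
      simp only [ν, mul_inv_rev]
      linarith)
  refine ⟨X, iX, cX, fun i => ι (π i), ?_, ?_, φ.comp pr, ?_, fun g => ?_⟩
  · refine hι.mono ?_
    rintro _ ⟨g, rfl⟩
    exact ⟨idx g, by simp [hidx]⟩
  · let a : ℕ → ℕ → ℕ := fun i j => Encodable.encode (FreeGroup.invRev (wd i) ++ wd j)
    have ha : Primrec₂ a := Primrec.encode.comp (Primrec.list_append.comp
      (hinv.comp (hwd.comp Primrec.fst)) (hwd.comp Primrec.snd))
    have hπa : ∀ i j, π (a i j) = (π i)⁻¹ * π j := fun i j => by
      simp only [π, a, hwe, ← FreeGroup.mul_mk, ← FreeGroup.inv_mk, map_mul, map_inv]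
    let r : ℕ × ℕ × ℕ → ℕ := fun p => a p.1 p.2.1 + a p.2.1 p.1 + 1
    have ha1 : Primrec fun p : ℕ × ℕ × ℕ => a p.1 p.2.1 :=
      ha.comp Primrec.fst (Primrec.fst.comp Primrec.snd)
    have ha2 : Primrec fun p : ℕ × ℕ × ℕ => a p.2.1 p.1 :=
      ha.comp (Primrec.fst.comp Primrec.snd) Primrec.fst
    have hr : Primrec r := Primrec.succ.comp (Primrec.nat_add.comp ha1 ha2)
    have hT : Computable fun p : ℕ × ℕ × ℕ => B (p.2.2 + r p) :=
      hBc.comp (Primrec.nat_add.comp (Primrec.snd.comp Primrec.snd) hr).to_comp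
    have hpow : Primrec fun m : ℕ => 2 ^ m :=
      (Primrec₂.unpaired'.1 Nat.Primrec.pow).comp (Primrec.const 2) Primrec.id
    refine ⟨fun p => ((B (p.2.2 + r p)).getD (a p.1 p.2.1) 0 +
      (B (p.2.2 + r p)).getD (a p.2.1 p.1) 0) / 2 ^ r p, ?_, fun i j k => ?_⟩
    · exact Primrec.nat_div.to_comp.comp (Primrec.nat_add.to_comp.comp
        ((Primrec.list_getD 0).to_comp.comp hT ha1.to_comp)
        ((Primrec.list_getD 0).to_comp.comp hT ha2.to_comp)) (hpow.comp hr).to_comp
    · have e1 : v (idx ((π i)⁻¹ * π j)) = v (a i j) := hveq _ _ (by rw [hidx, hπa])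
      have e2 : v (idx ((π i)⁻¹ * π j)⁻¹) = v (a j i) := hveq _ _ (by
        rw [hidx, hπa]; exact (mul_inv_rev _ _).trans (congrArg _ (inv_inv _)))
      simp only [hdist, ν, e1, e2]
      have hR : r (i, j, k) = a i j + a j i + 1 := rfl
      generalize r (i, j, k) = R at hR ⊢
      obtain ⟨p1, p2⟩ := hv1 (k + R) (a i j) (by omega)
      obtain ⟨p3, p4⟩ := hv1 (k + R) (a j i) (by omega)
      generalize (B (k + R)).getD (a i j) 0 = x at p1 p2 ⊢
      generalize (B (k + R)).getD (a j i) 0 = y at p3 p4 ⊢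
      have hRp : 0 < 2 ^ R := by positivity
      have q1 : (((x + y) / 2 ^ R : ℕ) : ℝ) * 2 ^ R ≤ x + y := by
        exact_mod_cast Nat.div_mul_le_self (x + y) (2 ^ R)
      have q2 : (x + y : ℝ) ≤ (((x + y) / 2 ^ R : ℕ) : ℝ) * 2 ^ R + 2 ^ R := by
        exact_mod_cast (Nat.lt_div_mul_add hRp).le
      generalize (((x + y) / 2 ^ R : ℕ) : ℝ) = z at q1 q2 ⊢
      have hR2 : (2 : ℝ) ≤ 2 ^ R := by
        calc (2 : ℝ) = 2 ^ 1 := by norm_num
          _ ≤ 2 ^ R := pow_le_pow_right₀ (by norm_num) (by omega)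
      have hk : (0 : ℝ) < 2 ^ k := by positivity
      have u1 : z / 2 ^ k ≤ x / 2 ^ (k + R) + y / 2 ^ (k + R) := by
        rw [← add_div, div_le_div_iff₀ hk (by positivity), pow_add]
        nlinarith
      have u2 : (x : ℝ) / 2 ^ (k + R) + y / 2 ^ (k + R) ≤ z / 2 ^ k + 1 / 2 ^ k := by
        rw [← add_div, ← add_div, div_le_div_iff₀ (by positivity) hk, pow_add]
        nlinarith
      have u3 : (1 : ℝ) / 2 ^ (k + R) + 1 / 2 ^ (k + R) ≤ 1 / 2 ^ k := by
        rw [← add_div, div_le_div_iff₀ (by positivity) hk, pow_add]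
        nlinarith
      rw [abs_le]
      constructor <;> linarith
  · ext g
    rw [MonoidHom.mem_ker, ← QuotientGroup.eq_one_iff]
    change φ (pr g) = 1 ↔ pr g = 1
    refine ⟨fun h => ?_, fun h => by rw [h, map_one]⟩
    by_contra hne
    have h1 := hφ (pr g) 1
    rw [h, mul_one] at h1
    have h2 := hdist 1 (pr g)
    rw [← h1] at h2
    have h3 := hv4 (idx (pr g)) (by rwa [hidx])
    have h4 := hv3 (idx (pr g)⁻¹)
    simp only [IsometryEquiv.coe_one, id, dist_self, inv_one, one_mul, ν] at h2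
    linarith
  · refine ⟨fun p => Encodable.encode (g.toWord ++ wd p.1), (Primrec.encode.comp
      (Primrec.list_append.comp (Primrec.const _) (hwd.comp Primrec.fst))).to_comp, fun i k => ?_⟩
    have : π (Encodable.encode (g.toWord ++ wd i)) = pr g * π i := by
      simp only [π, hwe, ← FreeGroup.mul_mk, FreeGroup.mk_toWord, map_mul]
    simp only [MonoidHom.comp_apply, hφ, this, dist_self]
    positivity

end Pool.Agent.S15235
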