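import Pool.Statements.S15245

set_option autoImplicit false
open Pool Pool.MP_b25485_lc

namespace Pool.Agent.S15245

variable {F : Type} [Field F]

/-- block sequences -/
def Blk (X : ℕ → ℕ →₀ F) : Prop :=
  ∀ n, X n ≠ 0 ∧ ∀ i ∈ (X n).support, ∀ j ∈ (X (n+1)).support, i < j

lemma Blk.lt {X : ℕ → ℕ →₀ F} (h : Blk X) {m n : ℕ} (hmn : m < n) :
    ∀ i j, X m i ≠ 0 → X n j ≠ 0 → i < j := by
  induction n, hmn using Nat.le_induction with
  | base => intro i j hi hj; exact (h m).2 i (by simpa using hi) j (by simpa using hj)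
  | succ n hmn ih =>
    intro i j hi hj
    obtain ⟨k, hk⟩ := Finsupp.ne_iff.1 (h n).1
    exact (ih i k hi hk).trans ((h n).2 k (by simpa using hk) j (by simpa using hj))

lemma blk_of {X : ℕ → ℕ →₀ F} (h0 : ∀ n, X n ≠ 0)
    (h : ∀ n i j, X n i ≠ 0 → X (n + 1) j ≠ 0 → i < j) : Blk X :=
  fun n => ⟨h0 n, fun i hi j hj => h n i j (by simpa using hi) (by simpa using hj)⟩

lemma Blk.ge {X : ℕ → ℕ →₀ F} (h : Blk X) (n : ℕ) : ∀ j, X n j ≠ 0 → n ≤ j := by
  induction n with
  | zero => intro j _; exact Nat.zero_le _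
  | succ n ih =>
    intro j hj
    obtain ⟨k, hk⟩ := Finsupp.ne_iff.1 (h n).1
    exact lt_of_le_of_lt (ih k hk) (h.lt (Nat.lt_succ_self n) k j hk hj)

noncomputable def TT (Z : ℕ → ℕ →₀ F) : (ℕ →₀ F) →ₗ[F] (ℕ →₀ F) := Finsupp.linearCombination F Z

lemma TT_apply {Z : ℕ → ℕ →₀ F} (h : Blk Z) (a : ℕ →₀ F) (i j : ℕ) (hj : Z i j ≠ 0) :
    TT Z a j = a i * Z i j := by
  unfold TT
  rw [Finsupp.linearCombination_apply, Finsupp.sum_apply, Finsupp.sum]
  rw [Finset.sum_eq_single i]
  · simp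
  · intro k _ hk
    have : Z k j = 0 := by
      by_contra hh
      rcases lt_or_gt_of_ne hk with h1 | h1
      · exact lt_irrefl _ (h.lt h1 j j hh hj)
      · exact lt_irrefl _ (h.lt h1 j j hj hh)
    simp [this]
  · intro hi
    simp at hi
    simp [hi]

lemma TT_ne {Z : ℕ → ℕ →₀ F} (a : ℕ →₀ F) (j : ℕ) (hj : TT Z a j ≠ 0) :
    ∃ i, a i ≠ 0 ∧ Z i j ≠ 0 := by
  unfold TT at hj
  rw [Finsupp.linearCombination_apply, Finsupp.sum_apply, Finsupp.sum] at hj
  obtain ⟨i, -, hi⟩ := Finset.exists_ne_zero_of_sum_ne_zero hj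
  simp at hi
  exact ⟨i, hi.1, hi.2⟩

lemma TT_inj {Z : ℕ → ℕ →₀ F} (h : Blk Z) : Function.Injective (TT Z) := by
  rw [injective_iff_map_eq_zero]
  intro a ha
  ext i
  obtain ⟨j, hj⟩ := Finsupp.ne_iff.1 (h i).1
  have := TT_apply h a i j hj
  rw [ha] at this
  simp at this
  exact this.resolve_right hj

lemma Blk.not_fd {Z : ℕ → ℕ →₀ F} (h : Blk Z) :
    ¬ FiniteDimensional F (Submodule.span F (Set.range Z)) := by
  intro hf
  have hli : LinearIndependent F Z := TT_inj h
  exact Module.not_finite_of_infinite_basis (Module.Basis.span hli) hf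

lemma mem_span_iff {Z : ℕ → ℕ →₀ F} (v : ℕ →₀ F) :
    v ∈ Submodule.span F (Set.range Z) ↔ ∃ a, TT Z a = v := by
  rw [← Finsupp.range_linearCombination]
  rfl

lemma Blk.map {Z X : ℕ → ℕ →₀ F} (h : Blk Z) (hX : Blk X) : Blk (fun n => TT Z (X n)) := by
  apply blk_of
  · intro n hn
    exact (hX n).1 (TT_inj h (hn.trans (map_zero _).symm))
  · intro n i j hi hj
    obtain ⟨a, ha1, ha2⟩ := TT_ne _ _ hi
    obtain ⟨b, hb1, hb2⟩ := TT_ne _ _ hj
    exact h.lt (hX.lt (Nat.lt_succ_self n) a b ha1 hb1) i j ha2 hb2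

lemma Blk.comap {Z X : ℕ → ℕ →₀ F} (h : Blk Z) (hX : Blk (fun n => TT Z (X n))) : Blk X := by
  apply blk_of
  · intro n hn
    exact (hX n).1 (by simp [hn])
  · intro n i j hi hj
    obtain ⟨a, ha⟩ := Finsupp.ne_iff.1 (h i).1
    obtain ⟨b, hb⟩ := Finsupp.ne_iff.1 (h j).1
    simp only [Finsupp.coe_zero, Pi.zero_apply] at ha hb
    by_contra hij
    rcases (not_lt.1 hij).lt_or_eq with h1 | h1
    · have := hX.lt (Nat.lt_succ_self n) a b
        (by show TT Z (X n) a ≠ 0; rw [TT_apply h _ i a ha]; exact mul_ne_zero hi ha)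
        (by show TT Z (X (n + 1)) b ≠ 0; rw [TT_apply h _ j b hb]; exact mul_ne_zero hj hb)
      exact lt_asymm this (h.lt h1 b a hb ha)
    · subst h1
      exact lt_irrefl _ (hX.lt (Nat.lt_succ_self n) a a
        (by show TT Z (X n) a ≠ 0; rw [TT_apply h _ j a ha]; exact mul_ne_zero hi ha)
        (by show TT Z (X (n + 1)) a ≠ 0; rw [TT_apply h _ j a ha]; exact mul_ne_zero hj ha))

lemma TT_mem_tail (Z : ℕ → ℕ →₀ F) (a : ℕ →₀ F) (k : ℕ) (ha : ∀ i, a i ≠ 0 → k ≤ i) :
    TT Z a ∈ Submodule.span F (Set.range (fun n => Z (n + k))) := by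
  unfold TT
  rw [Finsupp.linearCombination_apply, Finsupp.sum]
  apply Submodule.sum_mem
  intro i hi
  apply Submodule.smul_mem
  apply Submodule.subset_span
  exact ⟨i - k, by simp [Nat.sub_add_cancel (ha i (by simpa using hi))]⟩

lemma span_map (Z X : ℕ → ℕ →₀ F) : Submodule.span F (Set.range (fun n => TT Z (X n))) =
    (Submodule.span F (Set.range X)).map (TT Z) := by
  rw [Submodule.map_span, ← Set.range_comp]
  rfl

/-! ### windows -/

noncomputable def res (u : ℕ → F) (a b : ℕ) : ℕ →₀ F :=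
  Finsupp.onFinset (Finset.Ico a b) (fun i => if a ≤ i ∧ i < b then u i else 0) (by
    intro i hi
    by_contra h
    simp only [Finset.mem_Ico] at h
    simp [h] at hi)

lemma res_apply (u : ℕ → F) (a b i : ℕ) : res u a b i = if a ≤ i ∧ i < b then u i else 0 := rfl

lemma res_congr {u u' : ℕ → F} {a b : ℕ} (h : ∀ i, a ≤ i → i < b → u i = u' i) :
    res u a b = res u' a b := by
  ext i
  simp only [res_apply]
  split_ifs with hi
  · exact h i hi.1 hi.2
  · rfl

lemma res_add (u : ℕ → F) {a b c : ℕ} (h1 : a ≤ b) (h2 : b ≤ c) :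
    res u a c = res u a b + res u b c := by
  ext i
  simp only [res_apply, Finsupp.add_apply]
  split_ifs <;> first | omega | simp

noncomputable def st (φ : (ℕ →₀ F) → ℕ) (u : ℕ → F) : ℕ → ℕ
  | 0 => 0
  | n + 1 => if φ (res u (st φ u n) (n + 1)) ≤ n + 1 then n + 1 else st φ u n

variable {φ : (ℕ →₀ F) → ℕ}

lemma st_le (u : ℕ → F) (n : ℕ) : st φ u n ≤ n := by
  induction n with
  | zero => exact le_rfl
  | succ n ih => unfold st; split_ifs <;> omega

lemma st_congr {u u' : ℕ → F} {a n : ℕ} (han : a ≤ n) (h0 : st φ u a = st φ u' a)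
    (h : ∀ i, st φ u a ≤ i → i < n → u i = u' i) :
    st φ u n = st φ u' n ∧ st φ u a ≤ st φ u n := by
  induction n, han using Nat.le_induction with
  | base => exact ⟨h0, le_rfl⟩
  | succ n han ih =>
    obtain ⟨h1, h2⟩ := ih (fun i hi hi' => h i hi (by omega))
    have e : res u (st φ u n) (n + 1) = res u' (st φ u' n) (n + 1) := by
      rw [← h1]
      exact res_congr fun i hi hi' => h i (h2.trans hi) hi'
    have := st_le (φ := φ) u a
    constructor
    · simp only [st]
      rw [e, h1]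
    · simp only [st]
      split_ifs <;> omega

lemma st_zero (h0 : φ 0 = 0) {u : ℕ → F} {a n : ℕ} (han : a ≤ n) (ha : st φ u a = a)
    (h : ∀ i, a ≤ i → i < n → u i = 0) : st φ u n = n := by
  induction n, han using Nat.le_induction with
  | base => exact ha
  | succ n han ih =>
    have h1 := ih (fun i hi hi' => h i hi (by omega))
    have e : res u n (n + 1) = 0 := by
      ext i
      simp only [res_apply]
      split_ifs with hi
      · exact h i (by omega) hi.2
      · rfl
    simp [st, h1, e, h0]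

lemma st_smul (hs : ∀ (c : F) v, c ≠ 0 → φ (c • v) = φ v) (u : ℕ → F) (c : F) (hc : c ≠ 0)
    (n : ℕ) : st φ (c • u) n = st φ u n := by
  induction n with
  | zero => rfl
  | succ n ih =>
    have e : res (c • u) (st φ u n) (n + 1) = c • res u (st φ u n) (n + 1) := by
      ext i
      simp only [res_apply, Finsupp.smul_apply]
      split_ifs <;> simp
    simp only [st, ih, e, hs _ _ hc]

lemma st_ne (h0 : φ 0 = 0) (u : ℕ → F) (n : ℕ) (h : st φ u n < n) : u (st φ u n) ≠ 0 := by
  induction n with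
  | zero => simp at h
  | succ n ih =>
    by_cases hc : φ (res u (st φ u n) (n + 1)) ≤ n + 1
    · simp [st, hc] at h
    · have e : st φ u (n + 1) = st φ u n := by simp only [st, hc, if_false]
      rw [e]
      rcases (st_le (φ := φ) u n).lt_or_eq with h1 | h1
      · exact ih h1
      · rw [h1] at hc ⊢
        intro hu
        apply hc
        have : res u n (n + 1) = 0 := by
          ext i
          simp only [res_apply]
          split_ifs with hi
          · have : i = n := by omega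
            rw [this]; exact hu
          · rfl
        simp [this, h0]

lemma st_eventually (h0 : φ 0 = 0) (u : ℕ → F) (N : ℕ) (hN : ∀ i, N ≤ i → u i = 0) :
    ∃ R, ∀ n, R ≤ n → st φ u n = n := by
  have : ∃ n, N ≤ n ∧ st φ u n = n := by
    by_contra hcon
    push Not at hcon
    have h1 : ∀ n, N ≤ n → st φ u n = st φ u N := by
      intro n hn
      induction n, hn using Nat.le_induction with
      | base => rfl
      | succ n hn ih =>
        have := hcon (n + 1) (by omega)
        simp only [st] at this ⊢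
        split_ifs at this ⊢ with hc
        · exact absurd rfl this
        · exact ih
    set n := N + φ (res u (st φ u N) N) with hn
    have h2 := hcon (n + 1) (by omega)
    have e : res u (st φ u N) (n + 1) = res u (st φ u N) N := by
      ext i
      simp only [res_apply]
      by_cases hi : N ≤ i
      · simp [hN i hi]
      · have h3 : i < N := by omega
        have h4 : i < n + 1 := by omega
        simp only [h3, h4]
    simp only [st, h1 n (by omega), e] at h2
    rw [if_pos (by omega)] at h2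
    exact h2 rfl
  obtain ⟨n, h1, h2⟩ := this
  exact ⟨n, fun m hm => st_zero h0 hm h2 (fun i hi _ => hN i (by omega))⟩

noncomputable def bot (v : ℕ →₀ F) : ℕ := sInf {i | v i ≠ 0}
noncomputable def top (v : ℕ →₀ F) : ℕ := v.support.sup id

lemma bot_ne {v : ℕ →₀ F} (h : v ≠ 0) : v (bot v) ≠ 0 :=
  Nat.sInf_mem (s := {i | v i ≠ 0}) (Finsupp.ne_iff.1 h)

lemma bot_le {v : ℕ →₀ F} {i : ℕ} (h : v i ≠ 0) : bot v ≤ i := Nat.sInf_le h

lemma le_top' {v : ℕ →₀ F} {i : ℕ} (h : v i ≠ 0) : i ≤ top v :=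
  Finset.le_sup (f := id) (by simpa using h)

lemma top_ne {v : ℕ →₀ F} (h : v ≠ 0) : v (top v) ≠ 0 := by
  obtain ⟨i, hi, e⟩ := Finset.exists_mem_eq_sup v.support (Finsupp.support_nonempty_iff.2 h) id
  unfold top
  rw [e]
  simpa using hi

lemma top_eq {v : ℕ →₀ F} {M : ℕ} (h1 : v M ≠ 0) (h2 : ∀ i, v i ≠ 0 → i ≤ M) : top v = M :=
  le_antisymm (h2 _ (top_ne (fun h => h1 (by simp [h])))) (le_top' h1)

lemma bot_eq {v : ℕ →₀ F} {M : ℕ} (h1 : v M ≠ 0) (h2 : ∀ i, v i ≠ 0 → M ≤ i) : bot v = M :=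
  le_antisymm (bot_le h1) (h2 _ (bot_ne (fun h => h1 (by simp [h]))))

/-- ratio of the last and the first coefficient of the last window -/
noncomputable def rho (φ : (ℕ →₀ F) → ℕ) (v : ℕ →₀ F) : F := v (top v) / v (st φ v (top v))

lemma st_bot (h0 : φ 0 = 0) (v : ℕ →₀ F) : st φ v (bot v) = bot v :=
  st_zero h0 (Nat.zero_le _) rfl fun i _ hi => by
    by_contra h
    exact absurd (bot_le h) (not_le.2 hi)

noncomputable def ps (W : ℕ → ℕ →₀ F) (a : ℕ → F) (K : ℕ) : ℕ →₀ F :=
  ∑ k ∈ Finset.range K, a k • W k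

lemma lemA (h0 : φ 0 = 0) (hs : ∀ (c : F) v, c ≠ 0 → φ (c • v) = φ v) {W : ℕ → ℕ →₀ F}
    (hW : Blk W) (hR : ∀ k n, bot (W (k + 1)) ≤ n → st φ (W k) n = n) (v : ℕ →₀ F)
    (hv : v ∈ Submodule.span F (Set.range W)) (hv0 : v ≠ 0) : ∃ k, rho φ v = rho φ (W k) := by
  have key : ∀ (a : ℕ → F) (K : ℕ),
      (∀ i, ps W a K i ≠ 0 → i < bot (W K)) ∧
      (∀ n, bot (W K) ≤ n → st φ (ps W a K) n = n) ∧
      (ps W a K = 0 ∨ ∃ k, rho φ (ps W a K) = rho φ (W k)) := by
    intro a K
    induction K with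
    | zero =>
      refine ⟨by simp [ps], fun n _ => ?_, Or.inl (by simp [ps])⟩
      exact st_zero h0 (Nat.zero_le _) rfl (by simp [ps])
    | succ K ih =>
      obtain ⟨i1, i2, i3⟩ := ih
      have hb : bot (W K) < bot (W (K + 1)) :=
        hW.lt (Nat.lt_succ_self K) _ _ (bot_ne (hW K).1) (bot_ne (hW (K + 1)).1)
      have hw : ps W a (K + 1) = ps W a K + a K • W K := by
        unfold ps; rw [Finset.sum_range_succ]
      generalize ps W a K = v at *
      generalize ps W a (K + 1) = w at *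
      by_cases ha : a K = 0
      · rw [ha, zero_smul, add_zero] at hw
        subst hw
        exact ⟨fun i hi => (i1 i hi).trans hb, fun n hn => i2 n (by omega), i3⟩
      · have hlow : ∀ i, i < bot (W K) → w i = v i := by
          intro i hi
          have : W K i = 0 := by
            by_contra h
            exact absurd (bot_le h) (not_le.2 hi)
          simp [hw, this]
        have hhigh : ∀ i, bot (W K) ≤ i → w i = a K * W K i := by
          intro i hi
          have : v i = 0 := by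
            by_contra h
            exact absurd (i1 i h) (not_lt.2 hi)
          simp [hw, this]
        have e1 : st φ w (bot (W K)) = bot (W K) := by
          have := (st_congr (φ := φ) (u := w) (u' := v) (Nat.zero_le (bot (W K))) rfl
            (fun i _ hi => hlow i hi)).1
          rw [this]
          exact i2 _ le_rfl
        have e2 : ∀ n, bot (W K) ≤ n →
            st φ w n = st φ (W K) n ∧ bot (W K) ≤ st φ (W K) n := by
          intro n hn
          have := st_congr (φ := φ) (u := w) (u' := a K • (W K : ℕ → F)) hn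
            (by rw [e1, st_smul hs _ _ ha, st_bot h0])
            (fun i hi _ => by rw [e1] at hi; rw [hhigh i hi]; simp)
          rw [st_smul hs _ _ ha, e1] at this
          exact ⟨this.1, this.1 ▸ this.2⟩
        refine ⟨fun i hi => ?_, fun n hn => ?_, Or.inr ⟨K, ?_⟩⟩
        · by_cases hi' : i < bot (W K)
          · omega
          · rw [hhigh i (by omega)] at hi
            exact hW.lt (Nat.lt_succ_self K) _ _ (right_ne_zero_of_mul hi)
              (bot_ne (hW (K + 1)).1)
        · rw [(e2 n (by omega)).1]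
          exact hR K n hn
        · have hbt : bot (W K) ≤ top (W K) := bot_le (top_ne (hW K).1)
          have et : top w = top (W K) := by
            apply top_eq
            · rw [hhigh _ hbt]
              exact mul_ne_zero ha (top_ne (hW K).1)
            · intro i hi
              by_cases hi' : i < bot (W K)
              · omega
              · rw [hhigh i (by omega)] at hi
                exact le_top' (right_ne_zero_of_mul hi)
          unfold rho
          rw [et, (e2 _ hbt).1, hhigh _ hbt, hhigh _ (e2 _ hbt).2, mul_div_mul_left _ _ ha]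
  obtain ⟨a, rfl⟩ := (mem_span_iff v).1 hv
  have e : TT W a = ps W a (top a + 1) := by
    unfold TT ps
    rw [Finsupp.linearCombination_apply, Finsupp.sum_of_support_subset a
      (s := Finset.range (top a + 1))]
    · intro i hi
      have := le_top' (v := a) (i := i) (by simpa using hi)
      simp; omega
    · simp
  rw [e] at hv0 ⊢
  exact (key a _).2.2.resolve_left hv0

lemma subseq (h0 : φ 0 = 0) {X : ℕ → ℕ →₀ F} (hX : Blk X) (S : Set F)
    (hS : {n | rho φ (X n) ∈ S}.Infinite) : ∃ W : ℕ → ℕ →₀ F, Blk W ∧ (∀ k, ∃ n, W k = X n) ∧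
      (∀ k, rho φ (W k) ∈ S) ∧ ∀ k n, bot (W (k + 1)) ≤ n → st φ (W k) n = n := by
  have : ∀ v : ℕ →₀ F, ∃ n, rho φ (X n) ∈ S ∧ (∀ j, X n j ≠ 0 → top v < j) ∧
      ∀ m, bot (X n) ≤ m → st φ v m = m := by
    intro v
    obtain ⟨R, hR⟩ := st_eventually h0 v (top v + 1) (fun i hi => by
      by_contra h
      have := le_top' h
      omega)
    obtain ⟨n, hn, hn'⟩ := hS.exists_gt (R + top v)
    refine ⟨n, hn, fun j hj => ?_, fun m hm => hR m ?_⟩
    · have := hX.ge n j hj
      omega
    · have := hX.ge n _ (bot_ne (hX n).1)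
      omega
  choose g g1 g2 g3 using this
  let idx : ℕ → ℕ := fun k => Nat.rec (g 0) (fun _ i => g (X i)) k
  have hidx : ∀ k, idx (k + 1) = g (X (idx k)) := fun k => rfl
  refine ⟨fun k => X (idx k), blk_of (fun k => (hX _).1) ?_, fun k => ⟨_, rfl⟩, ?_, ?_⟩
  · intro n i j hi hj
    rw [hidx] at hj
    exact lt_of_le_of_lt (le_top' hi) (g2 _ j hj)
  · intro k
    cases k with
    | zero => exact g1 0
    | succ k => exact g1 _
  · intro k n hn
    exact g3 _ n hn

noncomputable def nu (v : ℕ →₀ F) : ℕ →₀ F := (v (bot v))⁻¹ • v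

lemma lemB (h0 : φ 0 = 0) (hφ : ∀ t, {w | ∃ v, φ v ≤ t ∧ w = nu v}.Finite)
    {Y : ℕ → ℕ →₀ F} (hY : Blk Y) (S : Set F) (hS : Sᶜ.Infinite)
    (h : ∀ v ∈ Submodule.span F (Set.range Y), v ≠ 0 → rho φ v ∈ S) (n : ℕ) :
    st φ (Y n) (bot (Y (n + 1))) = bot (Y (n + 1)) := by
  by_contra hcon
  set y := Y n with hy
  set z := Y (n + 1) with hz
  set m := bot z with hm
  set p := st φ y m with hp
  have hpm : p < m := lt_of_le_of_ne (st_le _ _) hcon
  have hyp : y p ≠ 0 := st_ne h0 y m hpm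
  have hzm : z m ≠ 0 := bot_ne (hY (n + 1)).1
  have hy0 : ∀ i, m ≤ i → y i = 0 := by
    intro i hi
    by_contra hh
    exact absurd (hY.lt (Nat.lt_succ_self n) i m hh hzm) (not_lt.2 hi)
  have hz0 : ∀ i, i < m → z i = 0 := by
    intro i hi
    by_contra hh
    exact absurd (bot_le hh) (not_le.2 hi)
  have hzM : z (top z) ≠ 0 := top_ne (hY (n + 1)).1
  have hmM : m ≤ top z := bot_le hzM
  have hinf : {c : F | c * z (top z) / y p ∈ Sᶜ}.Infinite := by
    apply Set.Infinite.of_image (fun c => c * z (top z) / y p)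
    apply hS.mono
    intro s hs
    refine ⟨s * y p / z (top z), ?_, ?_⟩
    · simp only [Set.mem_setOf_eq]
      convert hs using 1
      field_simp
    · field_simp
  obtain ⟨c, hc1, hc2⟩ := hinf.exists_notMem_finite
    (((hφ (top z)).image (fun w => w m * y p / z m)).insert 0)
  simp only [Set.mem_insert_iff, not_or] at hc2
  obtain ⟨hc0, hc2⟩ := hc2
  obtain ⟨w, hw⟩ : ∃ w : ℕ →₀ F, w = y + c • z := ⟨_, rfl⟩
  have w1 : ∀ i, i < m → w i = y i := fun i hi => by simp [hw, hz0 i hi]
  have w2 : ∀ i, m ≤ i → w i = c * z i := fun i hi => by simp [hw, hy0 i hi]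
  have hst : ∀ t, m ≤ t → t ≤ top z → st φ w t = p := by
    intro t ht
    induction t, ht using Nat.le_induction with
    | base =>
      intro _
      exact (st_congr (φ := φ) (u := w) (u' := y) (Nat.zero_le m) rfl (fun i _ hi => w1 i hi)).1
    | succ t ht ih =>
      intro htM
      have e := ih (by omega)
      simp only [st, e]
      rw [if_neg]
      intro hle
      apply hc2
      refine ⟨nu (res w p (t + 1)), ⟨_, hle.trans htM, rfl⟩, ?_⟩
      have e1 : res w p (t + 1) p = y p := by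
        rw [res_apply, if_pos ⟨le_rfl, by omega⟩, w1 p hpm]
      have eb : bot (res w p (t + 1)) = p := by
        apply bot_eq
        · rw [e1]; exact hyp
        · intro i hi
          rw [res_apply] at hi
          split_ifs at hi with h1
          · exact h1.1
          · exact absurd rfl hi
      have e2 : res w p (t + 1) m = c * z m := by
        rw [res_apply, if_pos ⟨hpm.le, by omega⟩, w2 m le_rfl]
      simp only [nu, eb, e1, Finsupp.smul_apply, e2, smul_eq_mul]
      field_simp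
  have et : top w = top z := by
    apply top_eq
    · rw [w2 _ hmM]; exact mul_ne_zero hc0 hzM
    · intro i hi
      by_cases hi' : i < m
      · omega
      · rw [w2 i (by omega)] at hi
        exact le_top' (right_ne_zero_of_mul hi)
  have hmem : w ∈ Submodule.span F (Set.range Y) := by
    rw [hw]
    exact add_mem (Submodule.subset_span ⟨n, rfl⟩)
      (Submodule.smul_mem _ _ (Submodule.subset_span ⟨n + 1, rfl⟩))
  have := h w hmem (fun hh => hyp (by rw [← w1 p hpm, hh]; rfl))
  unfold rho at this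
  rw [et, hst _ hmM le_rfl, w2 _ hmM, w1 p hpm] at this
  exact hc1 this

lemma lemC (h0 : φ 0 = 0) (hs : ∀ (c : F) v, c ≠ 0 → φ (c • v) = φ v)
    {Y : ℕ → ℕ →₀ F} (hY : Blk Y)
    (hr : ∀ n, st φ (Y n) (bot (Y (n + 1))) = bot (Y (n + 1))) :
    ∃ W : ℕ → ℕ →₀ F, Blk W ∧ (∀ k, W k (bot (W k)) = 1) ∧ (∀ k, φ (W k) ≤ bot (W (k + 1))) ∧
      ∀ n, Y n ∈ Submodule.span F (Set.range W) := by
  classical
  let u : ℕ → F := fun i => ∑ n ∈ Finset.range (i + 1), Y n i
  have hb : ∀ n, bot (Y n) < bot (Y (n + 1)) := fun n =>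
    hY.lt (Nat.lt_succ_self n) _ _ (bot_ne (hY n).1) (bot_ne (hY (n + 1)).1)
  have hmono : StrictMono (fun n => bot (Y n)) := strictMono_nat_of_lt_succ hb
  have u1 : ∀ n i, bot (Y n) ≤ i → i < bot (Y (n + 1)) → u i = Y n i := by
    intro n i h1 h2
    apply Finset.sum_eq_single n
    · intro k _ hk
      by_contra hh
      rcases lt_or_gt_of_ne hk with h3 | h3
      · exact absurd (hY.lt h3 i _ hh (bot_ne (hY n).1)) (not_lt.2 h1)
      · have := hmono.monotone (show n + 1 ≤ k from h3)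
        have := bot_le hh
        omega
    · intro hn
      by_contra hh
      have := hY.ge n i hh
      simp at hn
      omega
  have u0 : ∀ i, i < bot (Y 0) → u i = 0 := by
    intro i hi
    apply Finset.sum_eq_zero
    intro k _
    by_contra hh
    have := hmono.monotone (Nat.zero_le k)
    have := bot_le hh
    omega
  have hreset : ∀ n, st φ u (bot (Y n)) = bot (Y n) := by
    intro n
    induction n with
    | zero => exact st_zero h0 (Nat.zero_le _) rfl (fun i _ hi => u0 i hi)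
    | succ n ih =>
      rw [(st_congr (φ := φ) (u := u) (u' := Y n) (hb n).le (by rw [ih, st_bot h0])
        (fun i hi hi' => u1 n i (by rwa [ih] at hi) hi')).1]
      exact hr n
  let P : ℕ → Prop := fun t => st φ u t = t ∧ u t ≠ 0
  have hP : ∀ n, P (bot (Y n)) := fun n =>
    ⟨hreset n, by rw [u1 n _ le_rfl (hb n)]; exact bot_ne (hY n).1⟩
  have hPinf : (setOf P).Infinite := Set.infinite_of_injective_forall_mem hmono.injective hP
  let t : ℕ → ℕ := Nat.nth P
  have tmono : StrictMono t := Nat.nth_strictMono hPinf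
  have tP : ∀ k, P (t k) := Nat.nth_mem_of_infinite hPinf
  have tlt : ∀ k, t k < t (k + 1) := fun k => tmono (Nat.lt_succ_self k)
  let A : ℕ → ℕ →₀ F := fun k => res u (t k) (t (k + 1))
  have A1 : ∀ k, A k (t k) = u (t k) := fun k => by
    simp only [A, res_apply]; rw [if_pos ⟨le_rfl, tlt k⟩]
  have A2 : ∀ k i, A k i ≠ 0 → t k ≤ i ∧ i < t (k + 1) := by
    intro k i hi
    simp only [A, res_apply] at hi
    split_ifs at hi with h1
    · exact h1
    · exact absurd rfl hi
  let W : ℕ → ℕ →₀ F := fun k => (u (t k))⁻¹ • A k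
  have W1 : ∀ k, W k (t k) = 1 := fun k => by
    simp only [W, Finsupp.smul_apply, A1, smul_eq_mul]
    exact inv_mul_cancel₀ (tP k).2
  have W2 : ∀ k i, W k i ≠ 0 → t k ≤ i ∧ i < t (k + 1) := by
    intro k i hi
    simp only [W, Finsupp.smul_apply, smul_eq_mul] at hi
    exact A2 k i (right_ne_zero_of_mul hi)
  have Wb : ∀ k, bot (W k) = t k := fun k =>
    bot_eq (by rw [W1]; exact one_ne_zero) (fun i hi => (W2 k i hi).1)
  refine ⟨W, blk_of ?_ ?_, fun k => by rw [Wb, W1], fun k => ?_, fun n => ?_⟩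
  · intro k hk
    have := W1 k
    rw [hk] at this
    simp at this
  · intro k i j hi hj
    exact lt_of_lt_of_le (W2 k i hi).2 (W2 _ j hj).1
  · rw [Wb]
    simp only [W]
    rw [hs _ _ (inv_ne_zero (tP k).2)]
    have hex : ∃ r, t k < r ∧ st φ u r = r := ⟨t (k + 1), tlt k, (tP _).1⟩
    obtain ⟨r1, r2⟩ := Nat.find_spec hex
    have r3 : Nat.find hex ≤ t (k + 1) := Nat.find_min' hex ⟨tlt k, (tP _).1⟩
    have r4 : ∀ s, t k ≤ s → s < Nat.find hex → st φ u s = t k := by
      intro s hs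
      induction s, hs using Nat.le_induction with
      | base => intro _; exact (tP k).1
      | succ s hs ih =>
        intro hlt
        have e := ih (by omega)
        have := Nat.find_min hex hlt
        simp only [st] at this ⊢
        split_ifs at this ⊢ with hc
        · exact absurd ⟨by omega, rfl⟩ this
        · exact e
    generalize Nat.find hex = r at *
    have r5 : ∀ i, r ≤ i → i < t (k + 1) → u i = 0 := by
      intro i
      induction i using Nat.strong_induction_on with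
      | _ i ih =>
        intro h1 h2
        by_contra hh
        have : P i := ⟨st_zero h0 h1 r2 (fun j hj hj' => ih j hj' hj (by omega)), hh⟩
        have := Nat.le_nth_of_lt_nth_succ h2 this
        have : i ≤ t k := this
        omega
    have e : A k = res u (t k) r := by
      ext i
      simp only [A, res_apply]
      by_cases hi : i < r
      · have : i < t (k + 1) := by omega
        simp only [hi, this]
      · by_cases hi' : i < t (k + 1)
        · simp [hi, r5 i (by omega) hi']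
        · simp [hi, hi']
    rw [e]
    obtain ⟨s, rfl⟩ : ∃ s, r = s + 1 := ⟨r - 1, by omega⟩
    have e' := r4 s (by omega) (by omega)
    simp only [st, e'] at r2
    split_ifs at r2 with hc
    · exact hc.trans r3
    · omega
  · obtain ⟨k, hk⟩ : bot (Y n) ∈ Set.range t := by
      rw [Nat.range_nth_of_infinite hPinf]; exact hP n
    obtain ⟨k', hk'⟩ : bot (Y (n + 1)) ∈ Set.range t := by
      rw [Nat.range_nth_of_infinite hPinf]; exact hP (n + 1)
    have hkk : k ≤ k' := by
      have := hb n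
      rw [← hk, ← hk'] at this
      exact (tmono.lt_iff_lt.1 this).le
    have e : Y n = res u (t k) (t k') := by
      ext i
      rw [res_apply, hk, hk']
      split_ifs with hi
      · exact (u1 n i hi.1 hi.2).symm
      · by_contra hh
        exact hi ⟨bot_le hh, hY.lt (Nat.lt_succ_self n) _ _ hh (bot_ne (hY (n + 1)).1)⟩
    rw [e]
    clear e hk'
    induction k', hkk using Nat.le_induction with
    | base =>
      have : res u (t k) (t k) = 0 := by
        ext i
        rw [res_apply, if_neg (by omega)]; rfl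
      rw [this]; exact zero_mem _
    | succ k' hkk ih =>
      rw [res_add u (tmono.monotone hkk) (tlt k').le]
      refine add_mem ih ?_
      have : res u (t k') (t (k' + 1)) = u (t k') • W k' := by
        simp only [W, smul_smul, mul_inv_cancel₀ (tP k').2, one_smul, A]
      rw [this]
      exact Submodule.smul_mem _ _ (Submodule.subset_span ⟨k', rfl⟩)

lemma nu_smul (c : F) (v : ℕ →₀ F) (hc : c ≠ 0) : nu (c • v) = nu v := by
  have : bot (c • v) = bot v := by
    unfold bot
    congr 1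
    ext i
    simp [hc]
  unfold nu
  rw [this, smul_smul, Finsupp.smul_apply, smul_eq_mul, mul_inv, mul_comm c⁻¹, mul_assoc,
    inv_mul_cancel₀ hc, mul_one]

lemma finite_lists {α : Type} {A : Set α} (hA : A.Finite) (n : ℕ) :
    {l : List α | l.length ≤ n ∧ ∀ x ∈ l, x ∈ A}.Finite := by
  haveI := hA.to_subtype
  refine ((List.finite_length_le A n).image (List.map Subtype.val)).subset ?_
  rintro l ⟨h1, h2⟩
  exact ⟨l.attachWith _ h2, by simpa using h1, by simp⟩

lemma exists_phi [Countable F] (K : List (ℕ →₀ F) → ℕ) : ∃ φ : (ℕ →₀ F) → ℕ, φ 0 = 0 ∧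
    (∀ (c : F) v, c ≠ 0 → φ (c • v) = φ v) ∧ (∀ t, {w | ∃ v, φ v ≤ t ∧ w = nu v}.Finite) ∧
    ∀ W : ℕ → ℕ →₀ F, Blk W → (∀ k, W k (bot (W k)) = 1) → (∀ k, φ (W k) ≤ bot (W (k + 1))) →
      ∀ k, K (List.ofFn fun i : Fin (k + 1) => W i) ≤ bot (W (k + 1)) := by
  classical
  obtain ⟨enc, henc⟩ := exists_injective_nat (ℕ →₀ F)
  have hfin : ∀ N, {x | enc x ≤ N}.Finite := fun N =>
    (Set.finite_Iic N).preimage henc.injOn
  have : ∀ w : ℕ →₀ F, ∃ B, enc w ≤ B ∧ ∀ l : List (ℕ →₀ F), l.length ≤ bot w →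
      (∀ x ∈ l, enc x ≤ bot w) → K (l ++ [w]) ≤ B := by
    intro w
    obtain ⟨B, hB⟩ := ((finite_lists (hfin (bot w)) (bot w)).image
      (fun l => K (l ++ [w]))).bddAbove
    exact ⟨max B (enc w), le_max_right _ _, fun l h1 h2 =>
      (hB ⟨l, ⟨h1, h2⟩, rfl⟩).trans (le_max_left _ _)⟩
  choose ψ ψ1 ψ2 using this
  refine ⟨fun v => if v = 0 then 0 else ψ (nu v), by simp, ?_, ?_, ?_⟩
  · intro c v hc
    simp [hc, nu_smul c v hc]
  · intro t
    refine ((hfin t).insert (nu 0)).subset ?_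
    rintro w ⟨v, h1, rfl⟩
    by_cases hv : v = 0
    · left; rw [hv]
    · right
      simp only [hv, if_false] at h1
      exact (ψ1 _).trans h1
  · intro W hW h1 h2 k
    have hnu : ∀ k, nu (W k) = W k := fun k => by simp [nu, h1]
    have h3 : ∀ k, ψ (W k) ≤ bot (W (k + 1)) := fun k => by
      have := h2 k
      simp only [(hW k).1, if_false, hnu] at this
      exact this
    have hb : ∀ n, bot (W n) < bot (W (n + 1)) := fun n =>
      hW.lt (Nat.lt_succ_self n) _ _ (bot_ne (hW n).1) (bot_ne (hW (n + 1)).1)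
    have hmono : StrictMono (fun n => bot (W n)) := strictMono_nat_of_lt_succ hb
    rw [List.ofFn_succ_last]
    refine le_trans ?_ (h3 k)
    simp only [Fin.val_castSucc, Fin.val_last, List.concat_eq_append]
    apply ψ2
    · simpa using hW.ge k _ (bot_ne (hW k).1)
    · intro x hx
      obtain ⟨i, rfl⟩ := List.mem_ofFn.1 hx
      exact (ψ1 _).trans ((h3 i).trans (hmono.monotone (show i + 1 ≤ k from i.2)))

/-- For every countably infinite field F, every full block filter on the countable-dimensional F-vector space that is a (p)-filter is also a strong (p)-filter, i.e. every (p⁺)-filter is a strong (p⁺)-filter. -/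
theorem result :
  ∀ (F : Type) [Field F] [Countable F] [Infinite F] (𝓕 : Filter (ℕ →₀ F)),
    𝓕.NeBot →
    ({0}ᶜ : Set (ℕ →₀ F)) ∈ 𝓕 →
    (∀ V : Submodule F (ℕ →₀ F), FiniteDimensional F ((ℕ →₀ F) ⧸ V) →
        ((V : Set (ℕ →₀ F)) \ {0}) ∈ 𝓕) →
    (∀ A ∈ 𝓕, ∃ X : ℕ → (ℕ →₀ F),
        (∀ n, X n ≠ 0 ∧ ∀ i ∈ (X n).support, ∀ j ∈ (X (n+1)).support, i < j) ∧
        ((Submodule.span F (Set.range X) : Set (ℕ →₀ F)) \ {0}) ∈ 𝓕 ∧
        ((Submodule.span F (Set.range X) : Set (ℕ →₀ F)) \ {0}) ⊆ A) →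
    (∀ D : Set (ℕ →₀ F),
        (∀ X : ℕ → (ℕ →₀ F),
          (∀ n, X n ≠ 0 ∧ ∀ i ∈ (X n).support, ∀ j ∈ (X (n+1)).support, i < j) →
          ((Submodule.span F (Set.range X) : Set (ℕ →₀ F)) \ {0}) ∈ 𝓕 →
          ∃ V : Submodule F (ℕ →₀ F), ¬ FiniteDimensional F V ∧
            ((V : Set (ℕ →₀ F)) \ {0}) ⊆ ((Submodule.span F (Set.range X) : Set (ℕ →₀ F)) \ {0}) ∧
            ((V : Set (ℕ →₀ F)) \ {0}) ⊆ D) →
        D ∈ 𝓕) →
    (∀ Xs : ℕ → ℕ → (ℕ →₀ F),
        (∀ m, (∀ n, Xs m n ≠ 0 ∧ ∀ i ∈ (Xs m n).support, ∀ j ∈ (Xs m (n+1)).support, i < j) ∧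
          ((Submodule.span F (Set.range (Xs m)) : Set (ℕ →₀ F)) \ {0}) ∈ 𝓕) →
        ∃ X : ℕ → (ℕ →₀ F),
          (∀ n, X n ≠ 0 ∧ ∀ i ∈ (X n).support, ∀ j ∈ (X (n+1)).support, i < j) ∧
          ((Submodule.span F (Set.range X) : Set (ℕ →₀ F)) \ {0}) ∈ 𝓕 ∧
          ∀ m, ∃ k : ℕ, Submodule.span F (Set.range (fun n : ℕ => X (n + k))) ≤
            Submodule.span F (Set.range (Xs m))) →
    (∀ Y : List (ℕ →₀ F) → ℕ → (ℕ →₀ F),
        (∀ l, (∀ n, Y l n ≠ 0 ∧ ∀ i ∈ (Y l n).support, ∀ j ∈ (Y l (n+1)).support, i < j) ∧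
          ((Submodule.span F (Set.range (Y l)) : Set (ℕ →₀ F)) \ {0}) ∈ 𝓕) →
        ∃ X : ℕ → (ℕ →₀ F),
          (∀ n, X n ≠ 0 ∧ ∀ i ∈ (X n).support, ∀ j ∈ (X (n+1)).support, i < j) ∧
          ((Submodule.span F (Set.range X) : Set (ℕ →₀ F)) \ {0}) ∈ 𝓕 ∧
          ∀ k : ℕ, Submodule.span F (Set.range (fun n : ℕ => X (n + k))) ≤
            Submodule.span F (Set.range (Y (List.ofFn (fun i : Fin k => X i.val))))) := by
  intro F _ _ _ 𝓕 _ h0 hcod hbase hfull hp Y hY
  classical
  have pull : ∀ Z : ℕ → ℕ →₀ F, Blk Z →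
      ((Submodule.span F (Set.range Z) : Set (ℕ →₀ F)) \ {0}) ∈ 𝓕 → ∀ A ∈ 𝓕,
      ∃ x : ℕ → ℕ →₀ F, Blk x ∧
        ((Submodule.span F (Set.range fun n => TT Z (x n)) : Set (ℕ →₀ F)) \ {0}) ∈ 𝓕 ∧
        ((Submodule.span F (Set.range fun n => TT Z (x n)) : Set (ℕ →₀ F)) \ {0}) ⊆ A := by
    intro Z hZ hZF A hA
    obtain ⟨X, h1, h2, h3⟩ := hbase _ (Filter.inter_mem hZF hA)
    have : ∀ n, ∃ a, TT Z a = X n := fun n =>
      (mem_span_iff _).1 (h3 ⟨Submodule.subset_span ⟨n, rfl⟩, (h1 n).1⟩).1.1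
    choose x hx using this
    have e : (fun n => TT Z (x n)) = X := funext hx
    refine ⟨x, hZ.comap (by rw [e]; exact h1), by rw [e]; exact h2, ?_⟩
    rw [e]
    exact fun v hv => (h3 hv).2
  obtain ⟨e, he⟩ := exists_surjective_nat (List (ℕ →₀ F))
  obtain ⟨Z0, z1, z2, z3⟩ := hp (fun m => Y (e m)) (fun m => hY _)
  obtain ⟨z, z4, z5, z6⟩ := pull Z0 z1 z2 _ (hY []).2
  obtain ⟨Z, hZ⟩ : ∃ Z : ℕ → ℕ →₀ F, Z = fun n => TT Z0 (z n) := ⟨_, rfl⟩
  rw [← hZ] at z5 z6
  have hZb : Blk Z := hZ ▸ Blk.map z1 z4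
  have hK : ∀ l, ∃ k, Submodule.span F (Set.range fun n => Z (n + k)) ≤
      Submodule.span F (Set.range (Y l)) := by
    intro l
    obtain ⟨m, rfl⟩ := he l
    obtain ⟨k, hk⟩ := z3 m
    refine ⟨k, le_trans ?_ hk⟩
    rw [Submodule.span_le]
    rintro _ ⟨n, rfl⟩
    rw [hZ]
    exact TT_mem_tail Z0 _ k (fun i hi => le_trans (Nat.le_add_left k n) (z4.ge _ i hi))
  choose K hK using hK
  obtain ⟨φ, f0, fs, ff, fK⟩ := exists_phi (fun l => K (l.map (TT Z)))
  have dense : ∀ (S : Set F) (x : ℕ → ℕ →₀ F), Blk x → {n | rho φ (x n) ∈ S}.Infinite →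
      ∃ V : Submodule F (ℕ →₀ F), ¬ FiniteDimensional F V ∧
        V ≤ Submodule.span F (Set.range fun n => TT Z (x n)) ∧
        ((V : Set (ℕ →₀ F)) \ {0}) ⊆ TT Z '' {v | rho φ v ∈ S} := by
    intro S x hx hinf
    obtain ⟨W, w1, w2, w3, w4⟩ := subseq f0 hx S hinf
    refine ⟨Submodule.span F (Set.range fun n => TT Z (W n)), (hZb.map w1).not_fd, ?_, ?_⟩
    · apply Submodule.span_mono
      rintro _ ⟨k, rfl⟩
      obtain ⟨n, hn⟩ := w2 k
      exact ⟨n, by simp only [hn]⟩
    · rintro v ⟨hv, hv0⟩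
      rw [span_map] at hv
      obtain ⟨a, ha, rfl⟩ := hv
      obtain ⟨k, hk⟩ := lemA f0 fs w1 w4 a ha (fun h => hv0 (by simp [h]))
      exact ⟨a, by simp only [Set.mem_setOf_eq, hk]; exact w3 k, rfl⟩
  have hD : ∃ S : Set F, Sᶜ.Infinite ∧ TT Z '' {v | rho φ v ∈ S} ∈ 𝓕 := by
    let g := Infinite.natEmbedding F
    let S : Set F := Set.range (fun n => g (2 * n))
    have hS1 : Sᶜᶜ.Infinite := by
      rw [compl_compl]
      exact Set.infinite_range_of_injective (fun a b h => by have := g.injective h; omega)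
    have hS2 : Sᶜ.Infinite := by
      apply Set.infinite_of_injective_forall_mem (f := fun n => g (2 * n + 1))
      · intro a b h; have := g.injective h; omega
      · rintro n ⟨m, hm⟩
        have := g.injective hm
        omega
    by_contra hcon
    push Not at hcon
    have c1 := mt (hfull _) (hcon S hS2)
    have c2 := mt (hfull _) (hcon Sᶜ hS1)
    push Not at c1 c2
    obtain ⟨X1, -, a2, a3⟩ := c1
    obtain ⟨X2, -, b2, b3⟩ := c2
    obtain ⟨x, x1, -, x3⟩ := pull Z hZb z5 _ (Filter.inter_mem a2 b2)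
    have : {n | rho φ (x n) ∈ S}.Infinite ∨ {n | rho φ (x n) ∈ Sᶜ}.Infinite := by
      rw [← Set.infinite_union]
      convert Set.infinite_univ (α := ℕ)
      ext n
      simp only [Set.mem_union, Set.mem_setOf_eq, Set.mem_compl_iff, Set.mem_univ, iff_true]
      exact em _
    rcases this with h | h
    · obtain ⟨V, v1, v2, v3⟩ := dense S x x1 h
      exact a3 V (by simpa using v1) (fun v hv => (x3 ⟨v2 hv.1, hv.2⟩).1) v3
    · obtain ⟨V, v1, v2, v3⟩ := dense Sᶜ x x1 h
      exact b3 V (by simpa using v1) (fun v hv => (x3 ⟨v2 hv.1, hv.2⟩).2) v3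
  obtain ⟨S, hS, hD⟩ := hD
  obtain ⟨y, y1, y2, y3⟩ := pull Z hZb z5 _ hD
  have hy : ∀ v ∈ Submodule.span F (Set.range y), v ≠ 0 → rho φ v ∈ S := by
    intro v hv hv0
    obtain ⟨v', h1, h2⟩ := y3 (a := TT Z v) ⟨by rw [span_map]; exact ⟨v, hv, rfl⟩,
      fun h => hv0 (TT_inj hZb (h.trans (map_zero _).symm))⟩
    rw [← TT_inj hZb h2]
    exact h1
  obtain ⟨W, w1, w2, w3, w4⟩ := lemC f0 fs y1 (lemB f0 ff y1 S hS hy)
  refine ⟨fun n => TT Z (W n), hZb.map w1, ?_, ?_⟩
  · refine Filter.mem_of_superset y2 (Set.diff_subset_diff_left ?_)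
    rw [span_map, span_map]
    exact Submodule.map_mono (Submodule.span_le.2 (by rintro _ ⟨n, rfl⟩; exact w4 n))
  · intro k
    rw [Submodule.span_le]
    rintro _ ⟨n, rfl⟩
    cases k with
    | zero =>
      by_cases h : TT Z (W (n + 0)) = 0
      · simp only [h]; exact zero_mem _
      · exact (z6 ⟨(mem_span_iff _).2 ⟨_, rfl⟩, h⟩).1
    | succ k =>
      have e1 : (List.ofFn fun i : Fin (k + 1) => TT Z (W i)) =
          (List.ofFn fun i : Fin (k + 1) => W i).map (TT Z) := by
        rw [List.map_ofFn]; rfl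
      rw [e1]
      apply hK
      apply TT_mem_tail
      intro i hi
      refine (fK W w1 w2 w3 k).trans ?_
      rcases Nat.eq_zero_or_pos n with rfl | hn
      · rw [zero_add] at hi; exact bot_le hi
      · exact (w1.lt (show k + 1 < n + (k + 1) by omega) _ _ (bot_ne (w1 _).1) hi).le

end Pool.Agent.S15245
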