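import Pool.Statements.S15258
import Pool.Agent.Lib.lead.PcpMain

set_option autoImplicit false
open Pool Pool.MP_b4537c_lc

namespace Pool.Agent.S15258

def dl (T : List (List ℕ)) (q a : ℕ) : ℕ := (T.getD q []).getD a 0

def nx (T : List (List ℕ)) (m : ℕ) (R : List ℕ) : List ℕ :=
  R.flatMap fun q => (List.range m).map (dl T q)

def rc (T : List (List ℕ)) (m k : ℕ) : List ℕ := (fun R => R ++ nx T m R)^[k] (nx T m [0])

lemma dl_mem (T : List (List ℕ)) (q a : ℕ) : dl T q a ∈ 0 :: T.flatten := by
  unfold dl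
  by_cases h : a < (T.getD q []).length
  · by_cases hq : q < T.length
    · refine List.mem_cons_of_mem _ (List.mem_flatten.mpr ⟨T.getD q [], ?_, ?_⟩)
      · simp [List.getD_eq_getElem?_getD, List.getElem?_eq_getElem hq]
      · rw [List.getD_eq_getElem _ _ h]; exact List.getElem_mem _
    · rw [List.getD_eq_default _ _ (not_lt.mp hq)] at h
      simp at h
  · rw [List.getD_eq_default _ _ (not_lt.mp h)]; simp

lemma rc_succ (T : List (List ℕ)) (m k q : ℕ) :
    q ∈ rc T m (k + 1) ↔ q ∈ rc T m k ∨ ∃ p ∈ rc T m k, ∃ a < m, dl T p a = q := by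
  unfold rc
  rw [Function.iterate_succ_apply']
  simp [nx]

lemma rc_zero (T : List (List ℕ)) (m q : ℕ) : q ∈ rc T m 0 ↔ ∃ a < m, dl T 0 a = q := by
  simp [rc, nx]

lemma rc_sound (T : List (List ℕ)) (m k : ℕ) : ∀ q ∈ rc T m k,
    ∃ w : List ℕ, w ≠ [] ∧ (∀ a ∈ w, a < m) ∧ w.foldl (dl T) 0 = q := by
  induction k with
  | zero =>
    intro q hq
    obtain ⟨a, ha, rfl⟩ := (rc_zero T m q).mp hq
    exact ⟨[a], by simp, by simpa using ha, rfl⟩
  | succ k ih =>
    intro q hq
    rcases (rc_succ T m k q).mp hq with hq | ⟨p, hp, a, ha, rfl⟩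
    · exact ih q hq
    · obtain ⟨w, w0, w1, rfl⟩ := ih p hp
      refine ⟨w ++ [a], by simp, ?_, by simp⟩
      intro b hb
      rcases List.mem_append.mp hb with hb | hb
      · exact w1 b hb
      · rw [List.mem_singleton.mp hb]; exact ha

lemma rc_sub (T : List (List ℕ)) (m k : ℕ) : ∀ q ∈ rc T m k, q ∈ 0 :: T.flatten := by
  induction k with
  | zero =>
    intro q hq
    obtain ⟨a, _, rfl⟩ := (rc_zero T m q).mp hq
    exact dl_mem _ _ _
  | succ k ih =>
    intro q hq
    rcases (rc_succ T m k q).mp hq with hq | ⟨p, _, a, _, rfl⟩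
    · exact ih q hq
    · exact dl_mem _ _ _

lemma rc_stab (T : List (List ℕ)) (m : ℕ) : ∀ k,
    k ≤ (rc T m k).toFinset.card ∨ ∀ q ∈ rc T m (k + 1), q ∈ rc T m k := by
  intro k
  induction k with
  | zero => exact Or.inl (Nat.zero_le _)
  | succ k ih =>
    by_cases h : ∀ q ∈ rc T m (k + 1), q ∈ rc T m k
    · right
      intro q hq
      rcases (rc_succ T m (k + 1) q).mp hq with hq | ⟨p, hp, a, ha, rfl⟩
      · exact hq
      · exact (rc_succ T m k _).mpr (Or.inr ⟨p, h p hp, a, ha, rfl⟩)
    · left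
      have h1 := ih.resolve_right h
      push Not at h
      obtain ⟨q, q1, q2⟩ := h
      have : (rc T m k).toFinset ⊂ (rc T m (k + 1)).toFinset := by
        refine ⟨fun x hx => ?_, fun hc => q2 ?_⟩
        · exact List.mem_toFinset.mpr ((rc_succ T m k x).mpr (Or.inl (List.mem_toFinset.mp hx)))
        · exact List.mem_toFinset.mp (hc (List.mem_toFinset.mpr q1))
      have := Finset.card_lt_card this
      omega

lemma rc_mono (T : List (List ℕ)) (m k : ℕ) : ∀ q ∈ rc T m 0, q ∈ rc T m k := by
  induction k with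
  | zero => exact fun _ h => h
  | succ k ih => exact fun q h => (rc_succ T m k q).mpr (Or.inl (ih q h))

lemma rc_complete (T : List (List ℕ)) (m : ℕ) (w : List ℕ) : w ≠ [] → (∀ a ∈ w, a < m) →
    w.foldl (dl T) 0 ∈ rc T m (T.flatten.length + 2) := by
  have hs : ∀ q ∈ rc T m (T.flatten.length + 2 + 1), q ∈ rc T m (T.flatten.length + 2) := by
    refine (rc_stab T m _).resolve_left fun h => ?_
    have h1 : (rc T m (T.flatten.length + 2)).toFinset ⊆ (0 :: T.flatten).toFinset :=
      fun x hx => List.mem_toFinset.mpr (rc_sub T m _ x (List.mem_toFinset.mp hx))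
    have h2 := Finset.card_le_card h1
    have h3 := List.toFinset_card_le (0 :: T.flatten)
    rw [List.length_cons] at h3
    omega
  induction w using List.reverseRecOn with
  | nil => intro h; exact absurd rfl h
  | append_singleton w a ih =>
    intro _ hw
    have ha : a < m := hw a (by simp)
    rw [List.foldl_append, List.foldl_cons, List.foldl_nil]
    by_cases h0 : w = []
    · subst h0
      exact rc_mono T m _ _ ((rc_zero T m _).mpr ⟨a, ha, rfl⟩)
    · exact hs _ ((rc_succ T m _ _).mpr
        (Or.inr ⟨_, ih h0 fun b hb => hw b (by simp [hb]), a, ha, rfl⟩))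

lemma nx_prim : Primrec₂ fun (x : List (List ℕ) × ℕ) (R : List ℕ) => nx x.1 x.2 R := by
  have h1 : Primrec fun y : List (List ℕ) × ℕ × ℕ => dl y.1 y.2.1 y.2.2 :=
    (Primrec.list_getD 0).comp
      ((Primrec.list_getD []).comp Primrec.fst (Primrec.fst.comp Primrec.snd))
      (Primrec.snd.comp Primrec.snd)
  refine Primrec.list_flatMap Primrec.snd ?_
  refine Primrec.list_map (Primrec.list_range.comp
    (Primrec.snd.comp (Primrec.fst.comp Primrec.fst))) ?_
  exact h1.comp ((Primrec.fst.comp (Primrec.fst.comp (Primrec.fst.comp Primrec.fst))).pair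
    ((Primrec.snd.comp Primrec.fst).pair Primrec.snd))

lemma dec_prim : PrimrecPred fun x : (List (List ℕ) × List ℕ) × ℕ =>
    ∃ q ∈ rc x.1.1 x.2 (x.1.1.flatten.length + 2), q ∈ x.1.2 := by
  have h0 : Primrec fun x : (List (List ℕ) × List ℕ) × ℕ => (x.1.1, x.2) :=
    (Primrec.fst.comp Primrec.fst).pair Primrec.snd
  have h1 : Primrec fun x : (List (List ℕ) × List ℕ) × ℕ =>
      rc x.1.1 x.2 (x.1.1.flatten.length + 2) := by
    unfold rc
    refine Primrec.nat_iterate (h := fun (x : (List (List ℕ) × List ℕ) × ℕ) R => R ++ nx x.1.1 x.2 R)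
      (Primrec.nat_add.comp (Primrec.list_length.comp (Primrec.list_flatten.comp
        (Primrec.fst.comp Primrec.fst))) (Primrec.const 2))
      (nx_prim.comp h0 (Primrec.const [0])) ?_
    exact Primrec.list_append.comp Primrec.snd (nx_prim.comp (h0.comp Primrec.fst) Primrec.snd)
  have h2 : PrimrecRel fun (q : ℕ) (L : List ℕ) => q ∈ L :=
    (PrimrecRel.swap (PrimrecRel.exists_mem_list (Primrec.eq (α := ℕ)))).of_eq fun _ => by simp
  exact (PrimrecRel.exists_mem_list h2).comp h1 (Primrec.snd.comp Primrec.fst)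

/-- The negation of the preceding statement: There is a computable procedure that, given two elementary homomorphisms from an n-letter alphabet to words over ℕ, outputs a finite automaton accepting exactly the words on which the two homomorphisms agree. -/
theorem result :
    ¬ (∃ F : List (List ℕ) × List (List ℕ) → List (List ℕ) × List ℕ,
      Computable F ∧
      ∀ G H : List (List ℕ),
        G.length = H.length →
        (¬ ∃ m : ℕ, m < G.length ∧ ∃ f : Fin G.length → List (Fin m),
            ∃ g : Fin m → List ℕ, ∀ i : Fin G.length, (f i).flatMap g = G.getD i.val []) →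
        (¬ ∃ m : ℕ, m < H.length ∧ ∃ f : Fin H.length → List (Fin m),
            ∃ g : Fin m → List ℕ, ∀ i : Fin H.length, (f i).flatMap g = H.getD i.val []) →
        ∀ w : List ℕ, (∀ a ∈ w, a < G.length) →
          (w.foldl (fun q a => ((F (G, H)).1.getD q []).getD a 0) 0 ∈ (F (G, H)).2 ↔
            w.flatMap (fun a => G.getD a []) = w.flatMap (fun a => H.getD a []))) := by
  rintro ⟨F, hF, h⟩
  obtain ⟨Halts, U, V, _, _, h0, pU, pV, _, _, hn⟩ := LeadPcp.main
  apply h0
  have key : ∀ H : List (List ℕ), LeadPcp.Elem H → ¬ ∃ m : ℕ, m < H.length ∧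
      ∃ f : Fin H.length → List (Fin m), ∃ g : Fin m → List ℕ,
        ∀ i : Fin H.length, (f i).flatMap g = H.getD i.val [] := by
    rintro H hH ⟨m, hm, f, k, hf⟩
    obtain ⟨p, hp⟩ := hH (Fin m) (fun i => if h : i < H.length then f ⟨i, h⟩ else []) k
      (fun i hi => by rw [dif_pos hi]; exact hf ⟨i, hi⟩)
    have := Fintype.card_le_of_injective (fun i : Fin H.length => p ⟨i.1, i.2⟩)
      (fun a b e => Fin.ext (congrArg Subtype.val (hp e)))
    simp at this
    omega
  obtain ⟨f, hf, hf'⟩ := ComputablePred.computable_iff.mp dec_prim.computablePred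
  refine ComputablePred.computable_iff.mpr ⟨fun n => f (F (U n, V n), (U n).length),
    hf.comp ((hF.comp (pU.pair pV).to_comp).pair (Primrec.list_length.comp pU).to_comp), ?_⟩
  funext n
  obtain ⟨a1, a2, a3, _, a5, _⟩ := hn n
  have e := congrFun hf' (F (U n, V n), (U n).length)
  have hh := h (U n) (V n) a1 (key _ a2) (key _ a3)
  refine propext (a5.trans (Iff.trans ?_ (iff_of_eq e)))
  constructor
  · rintro ⟨w, w0, w1, w2⟩
    exact ⟨_, rc_complete _ _ w w0 w1, (hh w w1).mpr w2⟩
  · rintro ⟨q, q1, q2⟩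
    obtain ⟨w, w0, w1, rfl⟩ := rc_sound _ _ _ q q1
    exact ⟨w, w0, w1, (hh w w1).mp q2⟩

end Pool.Agent.S15258
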