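import Pool.Statements.S15259
import Pool.Agent.Lib.helper21.DefMono

set_option autoImplicit false
open FirstOrder FirstOrder.Language
open Pool Pool.MP_b47165_lc

namespace Pool.Agent.S15259

/-- There is an infinite partial order in which the graph of every order-preserving self-map is first-order definable, with parameters, in the language of the order. -/
theorem result :
    ∃ (M : Type) (_ : PartialOrder M) (_ : Language.order.Structure M)
      (_ : Language.order.OrderedStructure M),
      Infinite M ∧
      ∀ f : M → M, Monotone f →
        (Set.univ : Set M).Definable Language.order {v : Fin 2 → M | f (v 0) = v 1} := by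
  exact ⟨Pool.Agent.Lib.Helper21.DefMono.M, inferInstance, inferInstance, inferInstance, inferInstance,
    fun f hf => Pool.Agent.Lib.Helper21.DefMono.main f hf (Fin 2) 0 1⟩

end Pool.Agent.S15259
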