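import Pool.Statements.S15265

set_option autoImplicit false
open Pool Pool.MP_b60ee2_lc

namespace Pool.Agent.S15265

open Filter Topology MeasureTheory Set

section
variable {G : Type} [TopologicalSpace G] [AddCommGroup G] [IsTopologicalAddGroup G]

theorem nhds_infinite [SecondCountableTopology G] (hG : Uncountable G) {V : Set G}
    (hV : V ∈ 𝓝 (0 : G)) : V.Infinite := by
  intro hfin
  obtain ⟨s, hs, hU⟩ := TopologicalSpace.countable_cover_nhds
    (f := fun x : G => (fun y => y - x) ⁻¹' V) (fun x => by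
      apply ContinuousAt.preimage_mem_nhds (by fun_prop)
      simpa using hV)
  have : (univ : Set G).Countable := by
    rw [← hU]
    refine hs.biUnion fun x _ => ?_
    exact (hfin.preimage (sub_left_injective.injOn)).countable
  exact not_countable_univ this

/-- Greedy construction of a Borel maximal independent set. -/
def Dn {ι : Type} (y : ι → G) (O : ℕ → Set G) : ℕ → Set G
  | 0 => ∅
  | n + 1 => Dn y O n ∪ (O n \ ⋃ i, ⋃ j, (fun x => x + (y i - y j)) ⁻¹' Dn y O n)

theorem marker [T2Space G] [SecondCountableTopology G] [MeasurableSpace G] [BorelSpace G]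
    {ι : Type} [Fintype ι] [Nonempty ι] (y : ι → G) (hy : Function.Injective y) :
    ∃ D : Set G, MeasurableSet D ∧ (∀ g i j, g + y i ∈ D → g + y j ∈ D → i = j) ∧
      ∀ g, ∃ i j, g + (y i - y j) ∈ D := by
  classical
  have h1 : {z : G | ∀ i j, z = y i - y j → i = j} ∈ 𝓝 (0 : G) := by
    have : ∀ i j, {z : G | z = y i - y j → i = j} ∈ 𝓝 (0 : G) := by
      intro i j
      by_cases h : i = j
      · simp [h]
      · have hne : (0 : G) ≠ y i - y j := fun e => h (hy (sub_eq_zero.mp e.symm))
        filter_upwards [isOpen_ne.mem_nhds hne] with z hz e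
        exact absurd e hz
    simpa only [setOf_forall, Filter.iInter_mem] using this
  have h2 : (fun p : G × G => p.1 - p.2) ⁻¹' {z : G | ∀ i j, z = y i - y j → i = j} ∈
      𝓝 ((0 : G), (0 : G)) := by
    apply ContinuousAt.preimage_mem_nhds (by fun_prop)
    simpa using h1
  rw [mem_nhds_prod_iff'] at h2
  obtain ⟨u, v, hu, hu0, hv, hv0, huv⟩ := h2
  obtain ⟨s, hs, hU⟩ := TopologicalSpace.countable_cover_nhds
    (f := fun x : G => (fun z => z - x) ⁻¹' (u ∩ v)) (fun x => by
      apply ContinuousAt.preimage_mem_nhds (by fun_prop)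
      simpa using ⟨hu.mem_nhds hu0, hv.mem_nhds hv0⟩)
  have hsne : s.Nonempty := by
    by_contra h
    rw [not_nonempty_iff_eq_empty] at h
    subst h
    simp at hU
    exact (empty_ne_univ hU).elim
  obtain ⟨e, he⟩ := hs.exists_eq_range hsne
  set O : ℕ → Set G := fun n => (fun z => z - e n) ⁻¹' (u ∩ v) with hO
  have hOo : ∀ n, IsOpen (O n) := fun n => (hu.inter hv).preimage (by fun_prop)
  have hOc : ∀ g, ∃ n, g ∈ O n := by
    intro g
    have : g ∈ ⋃ x ∈ s, (fun z => z - x) ⁻¹' (u ∩ v) := hU ▸ mem_univ g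
    simp only [mem_iUnion] at this
    obtain ⟨x, hx, hg⟩ := this
    rw [he] at hx
    obtain ⟨n, rfl⟩ := hx
    exact ⟨n, hg⟩
  have hOi : ∀ n g i j, g + y i ∈ O n → g + y j ∈ O n → i = j := by
    intro n g i j a b
    have := huv (mk_mem_prod a.1 b.2)
    exact this i j (by simp)
  have hm : ∀ n, MeasurableSet (Dn y O n) := by
    intro n
    induction n with
    | zero => exact MeasurableSet.empty
    | succ n ih =>
      refine ih.union ((hOo n).measurableSet.diff ?_)
      refine MeasurableSet.iUnion fun i => MeasurableSet.iUnion fun j => ?_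
      exact (continuous_add_const _).measurable ih
  have hmono : Monotone (Dn y O) := monotone_nat_of_le_succ fun n => subset_union_left
  have hind : ∀ n g i j, g + y i ∈ Dn y O n → g + y j ∈ Dn y O n → i = j := by
    intro n
    induction n with
    | zero => intro g i j a; exact a.elim
    | succ n ih =>
      intro g i j a b
      rcases a with a | a <;> rcases b with b | b
      · exact ih g i j a b
      · exfalso
        refine b.2 (mem_iUnion.2 ⟨i, mem_iUnion.2 ⟨j, ?_⟩⟩)
        simpa [add_assoc] using a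
      · exfalso
        refine a.2 (mem_iUnion.2 ⟨j, mem_iUnion.2 ⟨i, ?_⟩⟩)
        simpa [add_assoc] using b
      · exact hOi n g i j a.1 b.1
  refine ⟨⋃ n, Dn y O n, MeasurableSet.iUnion hm, ?_, ?_⟩
  · intro g i j a b
    obtain ⟨n, a⟩ := mem_iUnion.1 a
    obtain ⟨m, b⟩ := mem_iUnion.1 b
    exact hind (max n m) g i j (hmono (le_max_left _ _) a) (hmono (le_max_right _ _) b)
  · intro g
    obtain ⟨n, hn⟩ := hOc g
    by_cases h : g ∈ ⋃ i, ⋃ j, (fun x => x + (y i - y j)) ⁻¹' Dn y O n
    · simp only [mem_iUnion] at h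
      obtain ⟨i, j, h⟩ := h
      exact ⟨i, j, mem_iUnion.2 ⟨n, h⟩⟩
    · obtain ⟨i⟩ := ‹Nonempty ι›
      refine ⟨i, i, mem_iUnion.2 ⟨n + 1, Or.inr ⟨by simpa using hn, by simpa using h⟩⟩⟩

end

abbrev Z (n : ℕ) : Type := ZMod (2 ^ n)

abbrev K : Type := ∀ n : ℕ, Z n × Z n

section
variable {G : Type} [MetricSpace G] [AddCommGroup G] [IsTopologicalAddGroup G]

theorem step [SecondCountableTopology G] (hG : Uncountable G) (n : ℕ) (P : Finset G) :
    ∃ y : Z n → G, Function.Injective y ∧
      ∀ p ∈ P, ∀ i j, dist p (p + (y i - y j)) ≤ 2 / 2 / 2 ^ n := by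
  have h1 : {z : G | ∀ p ∈ P, dist p (p + z) < 2 / 2 / 2 ^ n} ∈ 𝓝 (0 : G) := by
    have : ∀ p ∈ P, {z : G | dist p (p + z) < 2 / 2 / 2 ^ n} ∈ 𝓝 (0 : G) := by
      intro p _
      refine (isOpen_lt (by fun_prop) continuous_const).mem_nhds ?_
      simp only [mem_ofPred_eq, add_zero, dist_self]
      positivity
    simpa only [setOf_forall, Filter.biInter_finset_mem] using this
  have h2 : (fun p : G × G => p.1 - p.2) ⁻¹' {z : G | ∀ p ∈ P, dist p (p + z) < 2 / 2 / 2 ^ n} ∈
      𝓝 ((0 : G), (0 : G)) := by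
    apply ContinuousAt.preimage_mem_nhds (by fun_prop)
    simpa using h1
  rw [mem_nhds_prod_iff'] at h2
  obtain ⟨u, v, hu, hu0, hv, hv0, huv⟩ := h2
  have hinf := nhds_infinite hG (inter_mem (hu.mem_nhds hu0) (hv.mem_nhds hv0))
  set e := hinf.natEmbedding
  refine ⟨fun i => (e i.val : G), fun i j h => ?_, fun p hp i j => ?_⟩
  · exact ZMod.val_injective _ (e.injective (Subtype.ext h))
  · exact (huv (mk_mem_prod (e i.val).2.1 (e j.val).2.2) p hp).le

theorem seq [SecondCountableTopology G] (hG : Uncountable G) :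
    ∃ y : ∀ n, Z n → G, (∀ n, Function.Injective (y n)) ∧
      ∀ (k : K) (n : ℕ), dist (∑ l ∈ Finset.range n, (y l (k l).1 - y l (k l).2))
        (∑ l ∈ Finset.range (n + 1), (y l (k l).1 - y l (k l).2)) ≤ 2 / 2 / 2 ^ n := by
  classical
  choose st h1 h2 using step hG
  let P : ℕ → Finset G := fun n => Nat.rec {0} (fun n Q =>
    (Q ×ˢ (Finset.univ : Finset (Z n × Z n))).image
      fun q => q.1 + (st n Q q.2.1 - st n Q q.2.2)) n
  refine ⟨fun n => st n (P n), fun n => h1 n _, fun k n => ?_⟩
  have : ∀ n, ∑ l ∈ Finset.range n, (st l (P l) (k l).1 - st l (P l) (k l).2) ∈ P n := by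
    intro n
    induction n with
    | zero => simp [P]
    | succ n ih =>
      rw [Finset.sum_range_succ]
      exact Finset.mem_image.2 ⟨(_, k n), Finset.mem_product.2 ⟨ih, Finset.mem_univ _⟩, rfl⟩
  rw [Finset.sum_range_succ]
  exact h2 n _ _ (this n) _ _

theorem exists_f [SecondCountableTopology G] [CompleteSpace G] (hG : Uncountable G) :
    ∃ (y : ∀ n, Z n → G) (f : K → G), (∀ n, Function.Injective (y n)) ∧ Continuous f ∧
      ∀ (k : K) (n : ℕ) (u : Z n × Z n), f (k + Pi.single n u) =
        f k - (y n (k n).1 - y n (k n).2) + (y n (k n + u).1 - y n (k n + u).2) := by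
  classical
  obtain ⟨y, hy, hd⟩ := seq hG
  set S : ℕ → K → G := fun n k => ∑ l ∈ Finset.range n, (y l (k l).1 - y l (k l).2) with hS
  have hc : ∀ k, CauchySeq fun n => S n k := fun k => cauchySeq_of_le_geometric_two (hd k)
  choose f hf using fun k => cauchySeq_tendsto_of_complete (hc k)
  have hu : TendstoUniformly S f atTop := by
    rw [Metric.tendstoUniformly_iff]
    intro ε hε
    have : Tendsto (fun n : ℕ => (2 : ℝ) / 2 ^ n) atTop (𝓝 0) :=
      tendsto_const_nhds.div_atTop (tendsto_pow_atTop_atTop_of_one_lt one_lt_two)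
    filter_upwards [this.eventually (gt_mem_nhds hε)] with n hn k
    rw [dist_comm]
    exact (dist_le_of_le_geometric_two_of_tendsto (hd k) (hf k) n).trans_lt hn
  refine ⟨y, f, hy, hu.continuous (Eventually.of_forall fun n => ?_).frequently, ?_⟩
  · refine continuous_finset_sum _ fun l _ => ?_
    exact (continuous_of_discreteTopology
      (f := fun q : Z l × Z l => y l q.1 - y l q.2)).comp (continuous_apply l)
  · intro k n u
    refine tendsto_nhds_unique (hf _) (Tendsto.congr' ?_
      (((hf k).sub tendsto_const_nhds).add tendsto_const_nhds))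
    filter_upwards [eventually_gt_atTop n] with N hN
    have hn : n ∈ Finset.range N := Finset.mem_range.2 hN
    simp only [hS]
    rw [← Finset.add_sum_erase _ _ hn, ← Finset.add_sum_erase _ _ hn]
    have : ∑ l ∈ (Finset.range N).erase n, (y l ((k + Pi.single n u : K) l).1 -
        y l ((k + Pi.single n u : K) l).2) =
        ∑ l ∈ (Finset.range N).erase n, (y l (k l).1 - y l (k l).2) := by
      refine Finset.sum_congr rfl fun l hl => ?_
      have : l ≠ n := Finset.ne_of_mem_erase hl
      simp [Pi.single_eq_of_ne this]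
    rw [this]
    simp only [Pi.add_apply, Pi.single_eq_same]
    abel

end

theorem meagre (W : ℕ → Set K) (hW : ∀ n, MeasurableSet (W n))
    (h : ∀ (k : K) (n : ℕ), ∃ u, k + Pi.single n u ∈ W n) : IsMeagre (limsup W atTop)ᶜ := by
  have e : (limsup W atTop)ᶜ = ⋃ m, ⋂ n ≥ m, (W n)ᶜ := by
    ext k
    simp [mem_limsup_iff_frequently_mem, eventually_atTop]
  rw [e]
  refine isMeagre_iUnion fun m => ?_
  have hm : MeasurableSet (⋂ n ≥ m, (W n)ᶜ) :=
    MeasurableSet.biInter (to_countable _) fun n _ => (hW n).compl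
  obtain ⟨U, hU, hUe⟩ := hm.residualEq_isOpen
  rcases U.eq_empty_or_nonempty with rfl | ⟨k0, hk0⟩
  · rw [IsMeagre]
    filter_upwards [hUe] with k hk
    intro h'
    exact (hk.mp h').elim
  · exfalso
    obtain ⟨_, ⟨x, n0, rfl⟩, hx, hsub⟩ :=
      (PiNat.isTopologicalBasis_cylinders (fun n => Z n × Z n)).exists_subset_of_mem_open hk0 hU
    set n := max n0 m
    have hR : IsMeagre (U \ ⋂ n ≥ m, (W n)ᶜ) := by
      rw [IsMeagre]
      filter_upwards [hUe] with k hk
      intro h'
      exact h'.2 (hk.mpr h'.1)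
    have hcov : PiNat.cylinder x n0 ⊆
        ⋃ u : Z n × Z n, (fun k : K => k + Pi.single n u) ⁻¹' (U \ ⋂ n ≥ m, (W n)ᶜ) := by
      intro k hk
      obtain ⟨u, hu⟩ := h k n
      refine mem_iUnion.2 ⟨u, hsub ?_, fun h' => ?_⟩
      · rw [PiNat.mem_cylinder_iff] at hk ⊢
        intro i hi
        have : i ≠ n := by omega
        simp [Pi.single_eq_of_ne this, hk i hi]
      · exact (mem_iInter₂.1 h' n (le_max_right _ _)) hu
    refine not_isMeagre_of_isOpen (PiNat.isOpen_cylinder _ x n0) ⟨k0, hx⟩
      (IsMeagre.mono hcov (isMeagre_iUnion fun u => ?_))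
    exact hR.preimage_of_isOpenMap (continuous_add_const _) (isOpenMap_add_right _)

theorem null (ν : Measure K) [IsProbabilityMeasure ν] [ν.IsAddRightInvariant] (W : ℕ → Set K)
    (hW : ∀ n, MeasurableSet (W n))
    (h : ∀ (k : K) (n : ℕ) (s t : Z n), k + Pi.single n (s, 0) ∈ W n →
      k + Pi.single n (t, 0) ∈ W n → s = t) : ν (limsup W atTop) = 0 := by
  apply measure_limsup_atTop_eq_zero
  have hb : ∀ n, ν (W n) ≤ 2⁻¹ ^ n := by
    intro n
    have h1 : ν (⋃ s : Z n, (fun k : K => k + Pi.single n (s, 0)) ⁻¹' W n) =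
        ∑' s : Z n, ν ((fun k : K => k + Pi.single n (s, 0)) ⁻¹' W n) := by
      refine measure_iUnion (fun s t hst => ?_) fun s => (continuous_add_const _).measurable (hW n)
      exact disjoint_left.2 fun k a b => hst (h k n s t a b)
    simp only [measure_preimage_add_right, tsum_fintype, Finset.sum_const, Finset.card_univ,
      ZMod.card, nsmul_eq_mul] at h1
    have h2 : ((2 ^ n : ℕ) : ENNReal) * ν (W n) ≤ 1 := h1 ▸ prob_le_one
    rw [← ENNReal.inv_pow]
    push_cast at h2
    rw [ENNReal.le_inv_iff_mul_le, mul_comm]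
    exact h2
  refine ne_top_of_le_ne_top ?_ (ENNReal.tsum_le_tsum hb)
  rw [ENNReal.tsum_geometric]
  simp

/-- Every uncountable abelian Polish group is the union of two sets A and B. A lies in a Borel set that some continuous image of a nonempty compact metrizable space sees as meager in every translate. B lies in a Borel set that some probability measure gives measure zero in every translate. -/
theorem result :
    ∀ (G : Type) [TopologicalSpace G] [AddCommGroup G] [IsTopologicalAddGroup G]
      [PolishSpace G] [MeasurableSpace G] [BorelSpace G],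
      Uncountable G →
      ∃ A B : Set G, A ∪ B = Set.univ ∧
        (∃ C : Set G, MeasurableSet C ∧ A ⊆ C ∧
          ∃ (K : Type) (t : TopologicalSpace K),
            CompactSpace K ∧ TopologicalSpace.MetrizableSpace K ∧ Nonempty K ∧
            ∃ f : K → G, Continuous f ∧
              ∀ g : G, IsMeagre (f ⁻¹' ((fun x => x + g) ⁻¹' C))) ∧
        (∃ C : Set G, MeasurableSet C ∧ B ⊆ C ∧
          ∃ μ : MeasureTheory.Measure G, MeasureTheory.IsProbabilityMeasure μ ∧
            ∀ g : G, μ ((fun x => x + g) ⁻¹' C) = 0) := by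
  intro G _ _ _ _ _ _ hG
  letI := TopologicalSpace.upgradeIsCompletelyMetrizable G
  obtain ⟨y, f, hy, hf, hfe⟩ := exists_f hG
  choose D hD hD1 hD2 using fun n => marker (y n) (hy n)
  have hN : MeasurableSet (limsup D atTop) := MeasurableSet.measurableSet_limsup hD
  have hpre : ∀ g : G, f ⁻¹' ((fun x => x + g) ⁻¹' limsup D atTop) =
      limsup (fun n => (fun k => f k + g) ⁻¹' D n) atTop := by
    intro g
    ext k
    simp [mem_limsup_iff_frequently_mem]
  have hWm : ∀ (g : G) n, MeasurableSet ((fun k => f k + g) ⁻¹' D n) := fun g n =>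
    (hf.add continuous_const).measurable (hD n)
  refine ⟨(limsup D atTop)ᶜ, limsup D atTop, compl_union_self _,
    ⟨_, hN.compl, subset_rfl, K, inferInstance, inferInstance, inferInstance, inferInstance,
      f, hf, fun g => ?_⟩, ⟨_, hN, subset_rfl, ?_⟩⟩
  · rw [preimage_compl, preimage_compl, hpre]
    refine meagre _ (hWm g) fun k n => ?_
    obtain ⟨i, j, h⟩ := hD2 n (f k - (y n (k n).1 - y n (k n).2) + g)
    refine ⟨(i, j) - k n, ?_⟩
    rw [mem_preimage, hfe, add_sub_cancel]
    convert h using 1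
    abel
  · set ν : Measure K := Measure.addHaarMeasure ⊤ with hν
    have : IsProbabilityMeasure ν := ⟨by
      have := Measure.addHaarMeasure_self (K₀ := (⊤ : TopologicalSpace.PositiveCompacts K))
      simpa using this⟩
    refine ⟨ν.map f, Measure.isProbabilityMeasure_map hf.measurable.aemeasurable, fun g => ?_⟩
    rw [Measure.map_apply hf.measurable ((continuous_add_const g).measurable hN), hpre]
    refine null ν _ (hWm g) fun k n s t a b => ?_
    rw [mem_preimage, hfe] at a b
    have := hD1 n (f k - (y n (k n).1 - y n (k n).2) - y n (k n).2 + g) ((k n).1 + s) ((k n).1 + t)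
      (by convert a using 1; simp only [Prod.fst_add, Prod.snd_add, add_zero]; abel)
      (by convert b using 1; simp only [Prod.fst_add, Prod.snd_add, add_zero]; abel)
    exact add_left_cancel this

end Pool.Agent.S15265
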