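import Pool.Statements.S15353

set_option autoImplicit false
open Pool Pool.MP_cc69c8_lc

namespace Pool.Agent.S15353

def node (x : ℕ → ℕ) (k : ℕ) : List ℕ := (List.range (k + 1)).map x

def enc (l : List ℕ) : ℕ := Encodable.encode l

lemma enc_inj : Function.Injective enc := Encodable.encode_injective

lemma node_len (x : ℕ → ℕ) (k : ℕ) : (node x k).length = k + 1 := by simp [node]

lemma node_get (x : ℕ → ℕ) (k j : ℕ) (h : j ≤ k) : (node x k).getD j 0 = x j := by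
  unfold node
  rw [List.getD_eq_getElem _ _ (by simp; omega)]
  simp

def Br (x : ℕ → ℕ) : Set ℕ := Set.range fun k => enc (node x k)

def Lv (k : ℕ) : Set ℕ := enc '' {l | l.length = k + 1}

lemma Br_inf (x : ℕ → ℕ) : (Br x).Infinite :=
  Set.infinite_range_of_injective fun k k' h => by
    have := congrArg List.length (enc_inj h)
    simpa [node_len] using this

lemma Lv_inf (k : ℕ) : (Lv k).Infinite := by
  refine Set.infinite_of_injective_forall_mem (f := fun n : ℕ => enc (List.replicate (k + 1) n))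
    (fun n m h => ?_) (fun n => ⟨_, by simp, rfl⟩)
  have := congrArg (fun l : List ℕ => l.getD 0 0) (enc_inj h)
  simpa [List.replicate_succ] using this

lemma Br_Br {x y : ℕ → ℕ} (h : x ≠ y) : (Br x ∩ Br y).Finite := by
  obtain ⟨j, hj⟩ := Function.ne_iff.1 h
  refine ((Set.finite_lt_nat j).image fun k => enc (node x k)).subset ?_
  rintro _ ⟨⟨k, rfl⟩, k', hk'⟩
  refine ⟨k, ?_, rfl⟩
  have h1 := enc_inj hk'
  have h2 : k' = k := by simpa [node_len] using congrArg List.length h1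
  subst h2
  by_contra h3
  have h4 : j ≤ k' := not_lt.1 h3
  exact hj (by rw [← node_get x k' j h4, ← node_get y k' j h4, h1])

lemma Br_Lv (x : ℕ → ℕ) (k : ℕ) : (Br x ∩ Lv k).Finite := by
  refine (Set.finite_singleton (enc (node x k))).subset ?_
  rintro _ ⟨⟨j, rfl⟩, l, hl, h⟩
  have h1 := enc_inj h
  have h2 : l.length = k + 1 := hl
  rw [h1, node_len] at h2
  have : j = k := by omega
  subst this
  rfl

lemma Lv_Lv {k j : ℕ} (h : k ≠ j) : (Lv k ∩ Lv j).Finite := by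
  refine Set.finite_empty.subset ?_
  rintro _ ⟨⟨l, hl, rfl⟩, l', hl', h'⟩
  have h1 := enc_inj h'
  have h2 : l.length = k + 1 := hl
  have h3 : l'.length = j + 1 := hl'
  rw [h1] at h3
  omega

lemma Br_inj : Function.Injective Br := fun x y h => by
  by_contra hne
  have := Br_Br hne
  rw [← h, Set.inter_self] at this
  exact Br_inf x this

def Dom (D : Set (ℕ → ℕ)) : Prop := ∀ f : ℕ → ℕ, ∃ g ∈ D, ∀ᶠ n in Filter.atTop, f n ≤ g n

lemma Dom.infinite {D : Set (ℕ → ℕ)} (h : Dom D) : D.Infinite := by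
  intro hf
  obtain ⟨g, hg, hev⟩ := h fun n => (∑ g ∈ hf.toFinset, g n) + 1
  obtain ⟨n, hn⟩ := hev.exists
  have : g n ≤ ∑ g ∈ hf.toFinset, g n :=
    Finset.single_le_sum (f := fun g : ℕ → ℕ => g n) (fun _ _ => Nat.zero_le _)
      (hf.mem_toFinset.2 hg)
  omega

lemma exists_E : ∃ E : Set (ℕ → ℕ), (∀ f : ℕ → ℕ, ∃ g ∈ E, ∀ n, f n ≤ g n) ∧
    ∀ D, Dom D → Cardinal.mk E ≤ Cardinal.mk D := by
  obtain ⟨D0, hD0, hmin⟩ := (InvImage.wf (fun D : Set (ℕ → ℕ) => Cardinal.mk D)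
    Cardinal.lt_wf).has_min {D | Dom D}
    ⟨Set.univ, fun f => ⟨f, trivial, Filter.Eventually.of_forall fun _ => le_rfl⟩⟩
  refine ⟨Set.range fun p : D0 × ℕ => fun n => p.1.1 n + p.2, fun f => ?_, fun D hD => ?_⟩
  · obtain ⟨g, hg, hev⟩ := hD0 f
    obtain ⟨N, hN⟩ := Filter.eventually_atTop.1 hev
    refine ⟨_, ⟨(⟨g, hg⟩, ∑ i ∈ Finset.range N, f i), rfl⟩, fun n => ?_⟩
    change f n ≤ g n + ∑ i ∈ Finset.range N, f i
    rcases le_or_gt N n with h | h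
    · have := hN n h
      omega
    · have : f n ≤ ∑ i ∈ Finset.range N, f i :=
        Finset.single_le_sum (f := f) (fun _ _ => Nat.zero_le _) (Finset.mem_range.2 h)
      omega
  · have h1 : Cardinal.aleph0 ≤ Cardinal.mk D0 := 
      Cardinal.infinite_iff.1 (Set.infinite_coe_iff.2 (Dom.infinite hD0))
    refine Cardinal.mk_range_le.trans (le_trans ?_ (not_lt.1 (hmin D hD)))
    rw [Cardinal.mk_prod, Cardinal.lift_id, Cardinal.lift_id, Cardinal.mk_nat,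
      Cardinal.mul_eq_left h1 h1 Cardinal.aleph0_ne_zero]

lemma nbhd {A : Set (Set ℕ)} {u : Set (ℕ ⊕ A)}
    (hu : TopologicalSpace.GenerateOpen
      ({s : Set (ℕ ⊕ A) | ∃ n : ℕ, s = {Sum.inl n}} ∪
         {s : Set (ℕ ⊕ A) | ∃ a : A, ∃ F : Set ℕ, F.Finite ∧
            s = insert (Sum.inr a) (Sum.inl '' ((a : Set ℕ) \ F))}) u) (a : A)
    (ha : Sum.inr a ∈ u) : ∃ F : Set ℕ, F.Finite ∧ ∀ m ∈ (a : Set ℕ) \ F, Sum.inl m ∈ u := by
  induction hu with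
  | basic s hs =>
    rcases hs with ⟨n, rfl⟩ | ⟨b, F, hF, rfl⟩
    · simp at ha
    · have : a = b := by simpa using ha
      subst this
      exact ⟨F, hF, fun m hm => Or.inr ⟨m, hm, rfl⟩⟩
  | univ => exact ⟨∅, Set.finite_empty, fun _ _ => trivial⟩
  | inter s t _ _ h1 h2 =>
    obtain ⟨F, hF, h3⟩ := h1 ha.1
    obtain ⟨G, hG, h4⟩ := h2 ha.2
    exact ⟨F ∪ G, hF.union hG, fun m hm =>
      ⟨h3 m ⟨hm.1, fun h => hm.2 (Or.inl h)⟩, h4 m ⟨hm.1, fun h => hm.2 (Or.inr h)⟩⟩⟩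
  | sUnion S _ h1 =>
    obtain ⟨s, hs, has⟩ := ha
    obtain ⟨F, hF, h2⟩ := h1 s hs has
    exact ⟨F, hF, fun m hm => ⟨s, hs, h2 m hm⟩⟩

open Classical in
/-- the finite set removed from `a` in the `n`-th cover -/
noncomputable def cut (n : ℕ) (a : Set ℕ) : Set ℕ :=
  if (a ∩ enc '' {l | l.length ≤ n}).Finite then a ∩ enc '' {l | l.length ≤ n} else ∅

lemma cut_fin (n : ℕ) (a : Set ℕ) : (cut n a).Finite := by
  unfold cut; split_ifs with h
  · exact h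
  · exact Set.finite_empty

lemma cut_Br (n : ℕ) (x : ℕ → ℕ) : cut n (Br x) = Br x ∩ enc '' {l | l.length ≤ n} := by
  unfold cut
  rw [if_pos]
  refine ((Set.finite_lt_nat n).image fun k => enc (node x k)).subset ?_
  rintro _ ⟨⟨k, rfl⟩, l, hl, h⟩
  have h2 : l.length ≤ n := hl
  rw [enc_inj h, node_len] at h2
  exact ⟨k, h2, rfl⟩

/-- The levels of the tree of finite sequences together with the branches given by an everywhere
dominating family of least size form the required almost disjoint family. -/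
theorem result :
  ∃ A : Set (Set ℕ),
    (∀ a ∈ A, a.Infinite) ∧ (∀ a ∈ A, ∀ b ∈ A, a ≠ b → (a ∩ b).Finite) ∧
    (∃ D : Set (ℕ → ℕ), (∀ f : ℕ → ℕ, ∃ g ∈ D, ∀ᶠ n in Filter.atTop, f n ≤ g n) ∧
        Cardinal.mk D = Cardinal.mk A) ∧
    (∀ D : Set (ℕ → ℕ), (∀ f : ℕ → ℕ, ∃ g ∈ D, ∀ᶠ n in Filter.atTop, f n ≤ g n) →
        Cardinal.mk A ≤ Cardinal.mk D) ∧
    ∀ t : TopologicalSpace (ℕ ⊕ A),
      t = TopologicalSpace.generateFrom
        ({s : Set (ℕ ⊕ A) | ∃ n : ℕ, s = {Sum.inl n}} ∪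
         {s : Set (ℕ ⊕ A) | ∃ a : A, ∃ F : Set ℕ, F.Finite ∧
            s = insert (Sum.inr a) (Sum.inl '' ((a : Set ℕ) \ F))}) →
      ¬ (∀ U : ℕ → Set (Set (ℕ ⊕ A)),
          (∀ n, (∀ u ∈ U n, @IsOpen _ t u) ∧ ⋃₀ U n = Set.univ) →
          ∀ Dn : Set (ℕ ⊕ A), @Dense _ t Dn →
          ∃ F : ℕ → Set (ℕ ⊕ A),
            (∀ n, F n ⊆ Dn ∧ ∀ x, ∃ V : Set (ℕ ⊕ A), @IsOpen _ t V ∧ x ∈ V ∧ V ∩ F n ⊆ {x}) ∧
            ∀ x, ∃ n, ∃ u ∈ U n, x ∈ u ∧ (u ∩ F n).Nonempty) := by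
  obtain ⟨E, hE, hmin⟩ := exists_E
  have hDom : Dom E := fun f => (hE f).imp fun g hg => ⟨hg.1, Filter.Eventually.of_forall hg.2⟩
  have hinf : ∀ a ∈ Br '' E ∪ Set.range Lv, a.Infinite := by
    rintro _ (⟨x, -, rfl⟩ | ⟨k, rfl⟩)
    · exact Br_inf x
    · exact Lv_inf k
  have hcard : Cardinal.mk E = Cardinal.mk ↥(Br '' E ∪ Set.range Lv) := by
    have h1 : Cardinal.aleph0 ≤ Cardinal.mk E := 
      Cardinal.infinite_iff.1 (Set.infinite_coe_iff.2 (Dom.infinite hDom))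
    have h2 : Cardinal.mk ↥(Br '' E) = Cardinal.mk E := Cardinal.mk_image_eq Br_inj
    apply le_antisymm
    · rw [← h2]; exact Cardinal.mk_le_mk_of_subset Set.subset_union_left
    · refine (Cardinal.mk_union_le _ _).trans ?_
      rw [h2]
      have h3 : Cardinal.mk ↥(Set.range Lv) ≤ Cardinal.mk E :=
        (Cardinal.mk_range_le.trans (le_of_eq Cardinal.mk_nat)).trans h1
      exact le_of_eq (Cardinal.add_eq_left h1 h3)
  refine ⟨Br '' E ∪ Set.range Lv, hinf, ?_, ⟨E, hDom, hcard⟩, fun D hD => hcard ▸ hmin D hD, ?_⟩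
  · rintro _ (⟨x, -, rfl⟩ | ⟨k, rfl⟩) _ (⟨y, -, rfl⟩ | ⟨j, rfl⟩) h
    · exact Br_Br fun h' => h (by rw [h'])
    · exact Br_Lv x j
    · rw [Set.inter_comm]; exact Br_Lv y k
    · exact Lv_Lv fun h' => h (by rw [h'])
  rintro t rfl h
  obtain ⟨F, hF, hcov⟩ := h
    (fun n => {s | ∃ m : ℕ, s = {Sum.inl m}} ∪
      {s | ∃ a : ↥(Br '' E ∪ Set.range Lv),
        s = insert (Sum.inr a) (Sum.inl '' ((a : Set ℕ) \ cut n a))})
    (fun n => ⟨by
      rintro u (hu | ⟨a, rfl⟩)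
      · exact TopologicalSpace.GenerateOpen.basic _ (Or.inl hu)
      · exact TopologicalSpace.GenerateOpen.basic _ (Or.inr ⟨a, _, cut_fin n a, rfl⟩), by
      refine Set.eq_univ_of_forall ?_
      rintro (m | a)
      · exact ⟨_, Or.inl ⟨m, rfl⟩, rfl⟩
      · exact ⟨_, Or.inr ⟨a, rfl⟩, Or.inl rfl⟩⟩)
    (Set.range Sum.inl) (by
      refine (@dense_iff_inter_open _ (_) _).2 ?_
      rintro u hu ⟨m | a, hx⟩
      · exact ⟨_, hx, m, rfl⟩
      · obtain ⟨G, hG, h1⟩ := nbhd hu a hx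
        obtain ⟨m, hm⟩ := ((hinf a.1 a.2).sdiff hG).nonempty
        exact ⟨_, h1 m hm, m, rfl⟩)
  have hb : ∀ n k, ∃ b : ℕ, ∀ l : List ℕ, l.length = k + 1 → Sum.inl (enc l) ∈ F n →
      l.getD k 0 < b := by
    intro n k
    obtain ⟨V, hV, hx, hVF⟩ := (hF n).2 (Sum.inr ⟨Lv k, Or.inr ⟨k, rfl⟩⟩)
    obtain ⟨G, hG, h1⟩ := nbhd hV _ hx
    obtain ⟨b, hb⟩ := ((hG.preimage enc_inj.injOn).image fun l : List ℕ => l.getD k 0).bddAbove
    refine ⟨b + 1, fun l hl hlF => Nat.lt_succ_of_le (hb ⟨l, ?_, rfl⟩)⟩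
    by_contra hlG
    have := hVF ⟨h1 (enc l) ⟨⟨l, hl, rfl⟩, hlG⟩, hlF⟩
    simp at this
  choose g hg using hb
  obtain ⟨x, hxE, hx⟩ := hE fun k => ∑ n ∈ Finset.range (k + 1), g n k
  obtain ⟨n, u, hu, hxu, y, hyu, hyF⟩ := hcov (Sum.inr ⟨Br x, Or.inl ⟨x, hxE, rfl⟩⟩)
  obtain ⟨m, rfl⟩ := (hF n).1 hyF
  rcases hu with ⟨m', rfl⟩ | ⟨a, rfl⟩
  · simp at hxu
  · have ha : a = ⟨Br x, Or.inl ⟨x, hxE, rfl⟩⟩ := by
      have : (⟨Br x, Or.inl ⟨x, hxE, rfl⟩⟩ : ↥(Br '' E ∪ Set.range Lv)) = a := by simpa using hxu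
      exact this.symm
    subst ha
    have hm : m ∈ Br x \ cut n (Br x) := by simpa using hyu
    obtain ⟨⟨k, rfl⟩, hm2⟩ := hm
    rw [cut_Br] at hm2
    have hk : n ≤ k := by
      by_contra hk
      exact hm2 ⟨⟨k, rfl⟩, node x k, by
        change (node x k).length ≤ n
        rw [node_len]; omega, rfl⟩
    have h1 := hg n k (node x k) (node_len x k) hyF
    rw [node_get x k k le_rfl] at h1
    have h2 : g n k ≤ ∑ n ∈ Finset.range (k + 1), g n k :=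
      Finset.single_le_sum (f := fun n => g n k) (fun _ _ => Nat.zero_le _)
        (Finset.mem_range.2 (by omega))
    have h3 := hx k
    omega

end Pool.Agent.S15353
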