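import Pool.Statements.S15436
import Pool.Agent.Lib.helper22.RSTree

set_option autoImplicit false
open Pool Pool.MP_d6c85c_lc

namespace Pool.Agent.S15436

section
open Set Cardinal Pool.Agent.Lib.helper22.Ray Pool.Agent.Lib.helper22.Stat
  Pool.Agent.Lib.helper22.RSTree

noncomputable def mu (i : W) : Cardinal.{0} := beth (Ordinal.typein (α := W) (· < ·) i + 1)

abbrev M : Type := Σ i : W, (mu i).out

lemma nxt (i : W) : ∃ j, i < j := by
  obtain ⟨j, h⟩ := W_bdd (countable_singleton i)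
  exact ⟨j, h i rfl⟩

lemma mu1 (i : W) : ℵ₁ ≤ mu i := by
  rw [mu, beth_add_one]
  exact aleph_one_le_continuum.trans (power_le_power_left two_ne_zero (aleph0_le_beth _))

lemma mu0 (i : W) : ℵ₀ ≤ mu i := (aleph0_le_aleph 1).trans (mu1 i)

lemma mu2 {i j : W} (h : i < j) : 2 ^ mu i ≤ mu j := by
  rw [mu, mu, ← beth_add_one]
  refine beth_mono (add_le_add_left (Order.add_one_le_iff.2 ?_) _)
  exact (Ordinal.typein_lt_typein (α := W) (· < ·)).2 h

lemma mu3 {i j : W} (h : i < j) : mu i ≤ #{m : M | m.1 < j} := by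
  rw [← mk_out (mu i)]
  exact mk_le_of_injective (f := fun x => ⟨⟨i, x⟩, h⟩) fun x y e => by simpa using e

lemma mu4 (i : W) : #{m : M | m.1 < i} ≤ mu i := by
  have : {m : M | m.1 < i} ⊆ ⋃ j : Iio i, range (Sigma.mk j.1) := fun m hm =>
    mem_iUnion.2 ⟨⟨m.1, hm⟩, m.2, rfl⟩
  refine ((mk_le_mk_of_subset this).trans mk_iUnion_le_sum_mk).trans
    ((sum_le_sum _ (fun _ => mu i) fun j => mk_range_le.trans ?_).trans ?_)
  · rw [mk_out]
    exact (cantor _).le.trans (mu2 j.2)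
  · rw [sum_const']
    exact (mul_le_mul_left ((le_aleph0_iff_set_countable.2 (W_Iio i)).trans (mu0 i)) _).trans
      (mul_eq_self (mu0 i)).le

lemma mu5 (i : W) : 2 ^ mu i < #M := by
  obtain ⟨j, h⟩ := nxt i
  obtain ⟨k, h'⟩ := nxt j
  obtain ⟨l, h''⟩ := nxt k
  exact ((mu2 h).trans_lt (cantor _)).trans_le ((mu2 h').trans ((mu3 h'').trans (mk_set_le _)))

lemma mu6 (i : W) : mu i < #M := (cantor _).trans (mu5 i)

lemma mkM : #M = sum mu := by simp [M]

lemma mu7 {c : Cardinal.{0}} (h : c < #M) : ∃ i, c < mu i := by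
  by_contra hn
  push Not at hn
  have h1 := (mu1 w0).trans (hn _)
  have := sum_le_sum _ (fun _ => c) hn
  rw [sum_const', mkW, mul_eq_right ((aleph0_le_aleph 1).trans h1) h1 (aleph_pos 1).ne', ← mkM]
    at this
  exact absurd h (not_lt.2 this)

lemma M0 : ℵ₀ ≤ #M := (mu0 w0).trans (mu6 _).le

lemma mkQ : #(ℕ → M) ≤ #M := by
  have : (Set.univ : Set (ℕ → M)) ⊆ ⋃ i : W, range
      (fun s : ℕ → {m : M | m.1 < i} => fun n => (s n).1) := fun s _ => by
    obtain ⟨i, hi⟩ := W_bdd (countable_range fun n => (s n).1)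
    exact mem_iUnion.2 ⟨i, fun n => ⟨s n, hi _ ⟨n, rfl⟩⟩, rfl⟩
  rw [← mk_univ]
  refine ((mk_le_mk_of_subset this).trans mk_iUnion_le_sum_mk).trans
    ((sum_le_sum _ (fun _ => #M) fun i => mk_range_le.trans ?_).trans ?_)
  · rw [← power_def, mk_nat]
    refine (power_le_power_right ((mu4 i).trans (cantor _).le)).trans ?_
    rw [← power_mul, mul_eq_left (mu0 i) (mu0 i) aleph0_ne_zero]
    exact (mu5 i).le
  · rw [sum_const', mkW]
    exact (mul_le_mul_left ((mu1 w0).trans (mu6 _).le) _).trans (mul_eq_self M0).le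

lemma main : ∃ c : Set M → M, ∀ i, ∃ (P : Type) (_ : PartialOrder P), #P = #M ∧
    ∀ f : P → Set M, (∀ x, c (f x) = i) → ¬ ∀ x y : P, f x ≤ f y ↔ x ≤ y := by
  classical
  letI : LinearOrder M := linearOrderOfSTO WellOrderingRel
  obtain ⟨x0, hx⟩ := nxt w0
  obtain ⟨c, hc⟩ := core (Λ := M) (fun m : M => m.1) x0 ((mu1 _).trans (mu3 hx)) (fun i => by
      obtain ⟨j, h⟩ := nxt i
      obtain ⟨k, h'⟩ := nxt j
      exact ⟨k, (power_le_power_left two_ne_zero (mu4 i)).trans ((mu2 h).trans (mu3 h'))⟩)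
    fun i => mul_lt_of_lt M0 ((mu1 i).trans_lt (mu6 i))
      ((power_le_power_left two_ne_zero (mu4 i)).trans_lt (mu5 i))
  obtain ⟨j⟩ : Nonempty (Set W ↪ M) := by
    rw [← le_def, mk_set, mkW]
    exact (power_le_power_left two_ne_zero (mu1 w0)).trans (mu5 _).le
  refine ⟨fun x => j (c x), fun i => ⟨Lex (ℕ → M ×ₗ ℕ), inferInstance, ?_, fun f h1 h2 => ?_⟩⟩
  · have e : #(M ×ₗ ℕ) = #M := by
      change #(M × ℕ) = #M
      rw [mk_prod, lift_id, lift_id, mk_nat, mul_eq_left M0 M0 aleph0_ne_zero]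
    change #(ℕ → M ×ₗ ℕ) = #M
    rw [← power_def, e, power_def]
    refine le_antisymm mkQ (mk_le_of_injective (f := fun m _ => m) fun a b h => congrFun h 0)
  · have hs : StrictMono f := fun x y h =>
      lt_of_le_not_ge ((h2 _ _).2 h.le) fun h' => absurd ((h2 _ _).1 h') (not_le.2 h)
    obtain ⟨m⟩ : Nonempty M := mk_ne_zero_iff.1 (aleph0_pos.trans_le M0).ne'
    exact hc (c (f (toLex fun _ => toLex (m, 0)))) f hs fun x =>
      j.injective ((h1 x).trans (h1 _).symm)

end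

/-- The negation of the preceding statement: If aleph_alpha is singular and M has size sum over nu<alpha of 2^aleph_nu, then for any colouring of the subsets of M with aleph_alpha colours, some colour class under inclusion contains an order-embedded copy of every poset of size aleph_alpha. -/
theorem result :
    ¬ (∀ (α : Ordinal.{0}), ¬ (Cardinal.aleph α).IsRegular →
      ∀ (M : Type),
        Cardinal.lift.{1} (Cardinal.mk M) =
          Cardinal.sum (fun ν : Set.Iio α => (2 : Cardinal.{0}) ^ Cardinal.aleph ν.1) →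
        ∀ (ι : Type), Cardinal.mk ι = Cardinal.aleph α →
          ∀ c : Set M → ι, ∃ i : ι,
            ∀ (P : Type) [PartialOrder P], Cardinal.mk P = Cardinal.aleph α →
              ∃ f : P → Set M, (∀ x, c (f x) = i) ∧ ∀ x y : P, f x ≤ f y ↔ x ≤ y) := by
  intro h
  obtain ⟨α, hα⟩ := Cardinal.mem_range_aleph_iff.2 M0
  obtain ⟨c, hc⟩ := main
  refine Exists.elim (h α ?_ M ?_ M hα.symm c) fun i hi => ?_
  · intro hr
    rw [hα] at hr
    have := Cardinal.sum_lt_of_isRegular hr (ι := Lib.helper22.Ray.W) (f := mu) (by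
      rw [Lib.helper22.RSTree.mkW]
      exact (mu1 Lib.helper22.Ray.w0).trans_lt (mu6 _)) mu6
    exact this.ne mkM.symm
  · refine le_antisymm (le_of_forall_lt fun x hx => ?_) ?_
    · obtain ⟨y, rfl⟩ := Cardinal.mem_range_lift_of_le hx.le
      obtain ⟨i, hi⟩ := mu7 (Cardinal.lift_lt.1 hx)
      obtain ⟨ν, hν⟩ := Cardinal.mem_range_aleph_iff.2 (mu0 i)
      have h1 : ν < α := Cardinal.aleph_lt_aleph.1 (by rw [hν, hα]; exact mu6 i)
      refine lt_of_lt_of_le ?_ (Cardinal.lift_le_sum _ (⟨ν, h1⟩ : Set.Iio α))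
      exact Cardinal.lift_lt.2 (hi.trans (hν ▸ Cardinal.cantor _))
    · refine (Cardinal.sum_le_sum _ (fun _ => Cardinal.mk M) fun ν => ?_).trans ?_
      · obtain ⟨i, hi⟩ := mu7 (hα ▸ Cardinal.aleph_lt_aleph.2 ν.2)
        exact (Cardinal.power_le_power_left two_ne_zero hi.le).trans (mu5 i).le
      · rw [Cardinal.sum_const, Cardinal.mk_Iio_ordinal, Cardinal.lift_lift, ← Cardinal.lift_mul,
          Cardinal.lift_le]
        exact (mul_le_mul_left (hα ▸ α.card_le_aleph) _).trans (Cardinal.mul_eq_self M0).le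
  · obtain ⟨P, inst, h1, h2⟩ := hc i
    obtain ⟨f, h3, h4⟩ := hi P (h1.trans hα.symm)
    exact h2 f h3 h4

end Pool.Agent.S15436
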