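import Pool.Statements.S15480
import Pool.Agent.Lib.helper14.Shift2

set_option autoImplicit false
open Pool Pool.MP_dd30de_lc

namespace Pool.Agent.S15480

/-- The negation of the preceding statement: Every conjugacy class in the unitary group of ℓ² (strong operator Borel structure) lies in a Borel set B with a probability measure μ such that μ{x : g·x·h ∈ B} = 0 for all unitaries g, h, i.e. every conjugacy class is Haar null. -/
theorem result :
    ¬ (∀ M : MeasurableSpace (unitary (lp (fun _ : ℕ => ℂ) 2 →L[ℂ] lp (fun _ : ℕ => ℂ) 2)),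
      M = MeasurableSpace.comap
        (fun U : unitary (lp (fun _ : ℕ => ℂ) 2 →L[ℂ] lp (fun _ : ℕ => ℂ) 2) =>
          fun n : ℕ => U.1 (lp.single 2 n (1 : ℂ)))
        (@MeasurableSpace.pi ℕ (fun _ => lp (fun _ : ℕ => ℂ) 2)
          (fun _ => borel (lp (fun _ : ℕ => ℂ) 2))) →
      ∀ a : unitary (lp (fun _ : ℕ => ℂ) 2 →L[ℂ] lp (fun _ : ℕ => ℂ) 2),
        ∃ B : Set (unitary (lp (fun _ : ℕ => ℂ) 2 →L[ℂ] lp (fun _ : ℕ => ℂ) 2)),
          @MeasurableSet _ M B ∧ {x | IsConj a x} ⊆ B ∧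
          ∃ μ : @MeasureTheory.Measure
              (unitary (lp (fun _ : ℕ => ℂ) 2 →L[ℂ] lp (fun _ : ℕ => ℂ) 2)) M,
            @MeasureTheory.IsProbabilityMeasure
              (unitary (lp (fun _ : ℕ => ℂ) 2 →L[ℂ] lp (fun _ : ℕ => ℂ) 2)) M μ ∧
            ∀ g h : unitary (lp (fun _ : ℕ => ℂ) 2 →L[ℂ] lp (fun _ : ℕ => ℂ) 2),
              μ {x | g * x * h ∈ B} = 0) := by
  intro h
  obtain ⟨a, ha⟩ : ∃ a : H14Shift.L ≃ₗᵢ[ℂ] H14Shift.L, ∀ T, H14Shift.Sh T → IsConj a T := by
    by_cases h : ∃ a : H14Shift.L ≃ₗᵢ[ℂ] H14Shift.L, H14Shift.Sh a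
    · obtain ⟨a, ha⟩ := h
      exact ⟨a, fun T hT => ha.isConj hT⟩
    · exact ⟨1, fun T hT => absurd ⟨T, hT⟩ h⟩
  obtain ⟨B, -, hB, μ, hμ, h0⟩ := h _ rfl (Unitary.linearIsometryEquiv.symm a)
  obtain ⟨V, hV⟩ := @H14Shift.exists_good _ (_) μ hμ (fun x => Unitary.linearIsometryEquiv x)
    (fun p => by
      letI : MeasurableSpace H14Shift.L := borel _
      haveI : BorelSpace H14Shift.L := ⟨rfl⟩
      have h1 : Continuous fun v : H14Shift.L => v p.1 := by
        simp only [← H14Shift.inner_e]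
        fun_prop
      have gen : ∀ (Ω : Type) (f : Ω → ℕ → H14Shift.L),
          @Measurable _ _ (MeasurableSpace.comap f MeasurableSpace.pi) _
            fun x => ‖f x p.2 p.1‖ₑ ^ 2 := fun Ω f => by
        letI : MeasurableSpace Ω := MeasurableSpace.comap f MeasurableSpace.pi
        exact (h1.measurable.comp ((measurable_pi_apply p.2).comp
          (comap_measurable f))).enorm.pow_const 2
      simp only [H14Shift.r, H14Shift.e_eq]
      exact gen _ _)
  refine hV (MeasureTheory.measure_mono_null ?_ (h0 1 (Unitary.linearIsometryEquiv.symm V)))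
  intro x hx
  apply hB
  have := Unitary.linearIsometryEquiv.symm.toMonoidHom.map_isConj (ha _ hx)
  simpa using this

end Pool.Agent.S15480
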