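import Pool.Statements.S15482
import Pool.Agent.Lib.lead.OLSeq

set_option autoImplicit false
open Pool Pool.MP_dd548e_lc

namespace Pool.Agent.S15482

/-- The negation of the preceding statement: There is a computable procedure that, given two OL systems (finite rule lists over letters in ℕ, each used letter having a rule, plus axioms), correctly decides whether their sets of infinite derivation sequences are equal. -/
theorem result :
    ¬ (∃ f : (List (ℕ × List ℕ) × List ℕ) × (List (ℕ × List ℕ) × List ℕ) → Bool,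
      Computable f ∧
      ∀ (R₁ : List (ℕ × List ℕ)) (ω₁ : List ℕ) (R₂ : List (ℕ × List ℕ)) (ω₂ : List ℕ),
        (∀ a : ℕ, (a ∈ ω₁ ∨ ∃ p ∈ R₁, a ∈ p.2) → ∃ w : List ℕ, (a, w) ∈ R₁) →
        (∀ a : ℕ, (a ∈ ω₂ ∨ ∃ p ∈ R₂, a ∈ p.2) → ∃ w : List ℕ, (a, w) ∈ R₂) →
        (f ((R₁, ω₁), (R₂, ω₂)) = true ↔
          {s : ℕ → List ℕ | s 0 = ω₁ ∧ ∀ n : ℕ, ∃ ws : List (List ℕ),
              List.Forall₂ (fun a w => (a, w) ∈ R₁) (s n) ws ∧ s (n + 1) = ws.flatten} =
          {s : ℕ → List ℕ | s 0 = ω₂ ∧ ∀ n : ℕ, ∃ ws : List (List ℕ),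
              List.Forall₂ (fun a w => (a, w) ∈ R₂) (s n) ws ∧ s (n + 1) = ws.flatten})) := by
  rintro ⟨f, hf, h⟩
  obtain ⟨Halts, U, V, _, _, h0, hU, hV, _, _, h1⟩ := LeadPcp.main
  apply h0
  have c1 := hf.comp (LeadOL.RAB_pr hU hV).prim.to_comp
  have c2 : LeadPrim.PR fun n => decide (0 < (U n).length) := by
    have : LeadPrim.PR U := hU
    fun_prop
  refine ComputablePred.computable_iff.mpr ⟨_, (Primrec.and.to_comp.comp c2.prim.to_comp
    (Primrec.not.to_comp.comp c1)), ?_⟩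
  funext n
  rw [(h1 n).2.2.2.2.1, Bool.and_eq_true, decide_eq_true_iff, Bool.not_eq_true', eq_iff_iff]
  by_cases hN : 0 < (U n).length
  · obtain ⟨p1, p2⟩ := LeadOL.pcp (U n) (V n) hN
    have := h _ _ _ _ (fun a ha => p2 a (ha.imp id fun ⟨p, hp, h⟩ => ⟨p, List.mem_cons_of_mem _ hp, h⟩))
      (fun a ha => (p2 a ha).imp fun w hw => List.mem_cons_of_mem _ hw)
    have := this.trans p1
    rw [← Bool.not_eq_true, this, not_not]
    exact (and_iff_right hN).symm
  · refine ⟨?_, fun h => absurd h.1 hN⟩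
    rintro ⟨_ | ⟨i, x⟩, h2, h3, _⟩
    · exact absurd rfl h2
    · exact absurd (h3 i (by simp)) (by omega)

end Pool.Agent.S15482
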