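import Pool.Statements.S15504
-- import your own Pool.Agent.* helpers here

set_option autoImplicit false
open Pool Pool.MP_e1e357_lc

namespace Pool.Agent.S15504

open Set Filter Topology

abbrev C := ℕ → Bool

noncomputable def x (n : ℕ) : C := TopologicalSpace.denseSeq C (Nat.unpair n).1

lemma x_inf {U : Set C} (hU : IsOpen U) (hne : U.Nonempty) : {n | x n ∈ U}.Infinite := by
  obtain ⟨a, ha⟩ := (TopologicalSpace.denseRange_denseSeq C).exists_mem_open hU hne
  refine (infinite_range_of_injective (f := fun b => Nat.pair a b)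
    (fun b c h => (Nat.pair_eq_pair.1 h).2)).mono ?_
  rintro _ ⟨b, rfl⟩
  simpa [x] using ha

def cyl (η : C) (k : ℕ) : Set C := {y | ∀ i < k, y i = η i}

lemma cyl_open (η : C) (k : ℕ) : IsOpen (cyl η k) := by
  have : cyl η k = ⋂ i ∈ Finset.range k, (fun y : C => y i) ⁻¹' {η i} := by ext; simp [cyl]
  rw [this]
  exact isOpen_biInter_finset fun i _ => (isOpen_discrete _).preimage (continuous_apply i)

lemma cyl_inf (η : C) (k : ℕ) : (cyl η k).Infinite := by
  refine (infinite_range_of_injective (f := fun m i => if i < k then η i else decide (i = k + m))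
    fun a b h => ?_).mono ?_
  · simpa using congrFun h (k + a)
  · rintro _ ⟨m, rfl⟩ i hi
    exact if_pos hi

/-- cluster points of `x` along the set coded by `R` -/
def D (R : Set ℕ) : Set C := {η | ∀ k, {n | n ∈ R ∧ x n ∈ cyl η k}.Infinite}

lemma D_mono {R S : Set ℕ} (h : R ⊆ S) : D R ⊆ D S := fun _ hη k =>
  (hη k).mono fun _ hn => ⟨h hn.1, hn.2⟩

lemma D_union (R S : Set ℕ) : D (R ∪ S) ⊆ D R ∪ D S := by
  intro η h
  by_contra hc
  simp only [D, mem_union, mem_ofPred_eq, not_or, not_forall, not_infinite] at hc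
  obtain ⟨⟨k, h1⟩, l, h2⟩ := hc
  refine h (k + l) ((h1.union h2).subset ?_)
  rintro n ⟨h3 | h3, h4⟩
  · exact Or.inl ⟨h3, fun i hi => h4 i (by omega)⟩
  · exact Or.inr ⟨h3, fun i hi => h4 i (by omega)⟩

lemma D_fin {R : Set ℕ} (h : R.Finite) : D R = ∅ :=
  eq_empty_of_forall_notMem fun _ hη => hη 0 (h.subset fun _ hn => hn.1)

def Conv (T : Set ℕ) (η : C) : Prop := ∀ k, {n | n ∈ T ∧ x n ∉ cyl η k}.Finite

lemma conv_iff (T : Set ℕ) (η : C) : Tendsto x (atTop ⊓ 𝓟 T) (𝓝 η) ↔ Conv T η := by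
  rw [← Nat.cofinite_eq_atTop]
  constructor
  · intro h k
    have := h ((cyl_open η k).mem_nhds fun _ _ => rfl)
    rw [mem_map, mem_inf_principal, mem_cofinite] at this
    exact this.subset fun n hn => by simpa using hn
  · intro h
    refine tendsto_pi_nhds.2 fun i => tendsto_const_nhds.congr' ?_
    rw [EventuallyEq, eventually_inf_principal, eventually_cofinite]
    refine (h (i + 1)).subset fun n hn => ?_
    simp only [mem_ofPred_eq, Classical.not_imp] at hn
    exact ⟨hn.1, fun h2 => hn.2 (h2 i (by omega)).symm⟩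

lemma mem_D {R T : Set ℕ} {η : C} (h : Conv T η) (hi : (R ∩ T).Infinite) : η ∈ D R := fun k =>
  (hi.sdiff (h k)).mono fun n hn => ⟨hn.1.1, by by_contra h2; exact hn.2 ⟨hn.1.2, h2⟩⟩

lemma D_conv {T : Set ℕ} {η : C} (h : Conv T η) : D T ⊆ {η} := by
  intro ζ hζ
  funext i
  obtain ⟨n, h1, h2⟩ := ((hζ (i + 1)).sdiff (h (i + 1))).nonempty
  have : x n ∈ cyl η (i + 1) := by by_contra h3; exact h2 ⟨h1.1, h3⟩
  exact (h1.2 i (by omega)).symm.trans (this i (by omega))

lemma ex_T (F : Set (Set ℕ)) (hF : F.Countable) (ζ : C) :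
    ∃ T : Set ℕ, T.Infinite ∧ Conv T ζ ∧ ∀ R ∈ F, (D R).Finite → (R ∩ T).Finite := by
  obtain ⟨r, hr⟩ := (hF.mono (sep_subset F fun R => (D R).Finite)).insert ∅ |>.exists_eq_range
    (insert_nonempty _ _)
  have h1 : ∀ i, (D (r i)).Finite := fun i => by
    have : r i ∈ range r := mem_range_self i
    rw [← hr] at this
    rcases this with h | h
    · rw [h, D_fin finite_empty]; exact finite_empty
    · exact h.2
  have h2 : ∀ k, (D {n | ∃ i < k, n ∈ r i}).Finite := by
    intro k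
    induction k with
    | zero => rw [D_fin (by simp)]; exact finite_empty
    | succ k ih =>
      refine ((ih.union (h1 k)).subset (D_union _ _)).subset (D_mono ?_)
      rintro n ⟨i, hi, hn⟩
      rcases Nat.lt_succ_iff_lt_or_eq.1 hi with h | rfl
      · exact Or.inl ⟨i, h, hn⟩
      · exact Or.inr hn
  have h3 : ∀ k, ∃ n, k ≤ n ∧ x n ∈ cyl ζ k ∧ ∀ i < k, n ∉ r i := by
    intro k
    obtain ⟨η, a1, a2⟩ := ((cyl_inf ζ k).sdiff (h2 k)).nonempty
    simp only [D, mem_ofPred_eq, not_forall, not_infinite] at a2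
    obtain ⟨l, hl⟩ := a2
    obtain ⟨n, b1, b2⟩ := ((x_inf (cyl_open η (k + l)) ⟨η, fun _ _ => rfl⟩).sdiff
      (hl.union (finite_Iio k))).nonempty
    simp only [mem_union, mem_ofPred_eq, mem_Iio, not_or, not_lt] at b2
    exact ⟨n, b2.2, fun i hi => (b1 i (by omega)).trans (a1 i hi),
      fun i hi h => b2.1 ⟨⟨i, hi, h⟩, fun j hj => b1 j (by omega)⟩⟩
  choose t t1 t2 t3 using h3
  refine ⟨range t, infinite_of_forall_exists_gt fun k => ⟨_, mem_range_self (k + 1), t1 _⟩, fun k => ?_,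
    fun R hR hD => ?_⟩
  · refine ((finite_Iio k).image t).subset ?_
    rintro _ ⟨⟨l, rfl⟩, h⟩
    refine ⟨l, ?_, rfl⟩
    by_contra h4
    exact h fun i hi => t2 l i (by simp at h4; omega)
  · obtain ⟨i, rfl⟩ : R ∈ range r := hr ▸ Or.inr ⟨hR, hD⟩
    refine ((finite_Iic i).image t).subset ?_
    rintro _ ⟨h, l, rfl⟩
    refine ⟨l, ?_, rfl⟩
    by_contra h4
    exact t3 l i (not_le.1 h4) h

def st (f : C) : Set ℕ := {n | f n = true}

def Arc (a b : Set ℕ) : Prop := (D a).Finite ∧ ∃ ζ ∈ D a, b = st ζ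

lemma cl_count (a : Set ℕ) : {b | Relation.ReflTransGen Arc a b}.Countable := by
  let L : ℕ → Set (Set ℕ) := fun n => Nat.rec {a} (fun _ s => ⋃ b ∈ s, {c | Arc b c}) n
  have h1 : ∀ n, (L n).Countable := by
    intro n
    induction n with
    | zero => exact countable_singleton a
    | succ n ih =>
      refine ih.biUnion fun b _ => ?_
      by_cases h : (D b).Finite
      · refine (h.image st).countable.mono fun c hc => ?_
        obtain ⟨ζ, h1, h2⟩ := hc.2
        exact ⟨ζ, h1, h2.symm⟩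
      · exact countable_empty.mono fun c hc => h hc.1
  refine (countable_iUnion h1).mono fun b hb => ?_
  induction hb with
  | refl => exact mem_iUnion.2 ⟨0, rfl⟩
  | tail _ h ih =>
    obtain ⟨n, hn⟩ := mem_iUnion.1 ih
    exact mem_iUnion.2 ⟨n + 1, mem_biUnion hn h⟩

lemma main : ∃ (T : C → Set ℕ) (I : Set (Set ℕ)), (∀ ζ, (T ζ).Infinite ∧ Conv (T ζ) ζ) ∧
    ∀ R, R ∈ I ↔ (D R).Finite ∧ ∀ ζ, st ζ ∈ I → (R ∩ T ζ).Finite := by
  have wf : WellFounded (WellOrderingRel (α := Set ℕ)) := IsWellFounded.wf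
  let ρ : Set ℕ → Set ℕ := fun b => wf.min {a | Relation.ReflTransGen Arc a b} ⟨b, Relation.ReflTransGen.refl⟩
  have ρ1 : ∀ b, Relation.ReflTransGen Arc (ρ b) b := fun b =>
    wf.min_mem {a | Relation.ReflTransGen Arc a b} _
  choose T T1 T2 T3 using fun ζ => ex_T _ (cl_count (ρ (st ζ))) ζ
  have key : ∀ R ζ, (D R).Finite → (R ∩ T ζ).Infinite → WellOrderingRel (ρ (st ζ)) (ρ R) := by
    intro R ζ h1 h2
    rcases trichotomous_of WellOrderingRel (ρ (st ζ)) (ρ R) with h | h | h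
    · exact h
    · exact absurd (T3 ζ R (h ▸ ρ1 R) h1) h2
    · exact absurd h (wf.not_lt_min {a | Relation.ReflTransGen Arc a (st ζ)}
        ((ρ1 R).tail ⟨h1, ζ, mem_D (T2 ζ) h2, rfl⟩))
  have wf2 : WellFounded (InvImage WellOrderingRel ρ) := InvImage.wf ρ wf
  let P : Set ℕ → Prop := wf2.fix fun R ih => (D R).Finite ∧
    ∀ ζ (h : InvImage WellOrderingRel ρ (st ζ) R), ih _ h → (R ∩ T ζ).Finite
  refine ⟨T, {R | P R}, fun ζ => ⟨T1 ζ, T2 ζ⟩, fun R => ?_⟩
  have : P R = ((D R).Finite ∧ ∀ ζ (h : InvImage WellOrderingRel ρ (st ζ) R), P (st ζ) → (R ∩ T ζ).Finite) :=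
    wf2.fix_eq _ R
  rw [mem_ofPred_eq, this]
  refine and_congr_right fun h1 => ⟨fun h ζ h2 => ?_, fun h ζ _ h2 => h ζ h2⟩
  by_contra h3
  exact h3 (h ζ (key R ζ h1 h3) h2)


/-- The negation of the preceding statement: For every ideal I on ℕ (containing finite sets, not ℕ) and every sequence in Cantor space, its set of I-limit points (limits along sets not in I) is never exactly I, viewed as a subset of Cantor space. -/
theorem result :
    ¬ (∀ I : Set (Set ℕ),
      (∀ A B : Set ℕ, A ∈ I → B ⊆ A → B ∈ I) →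
      (∀ A B : Set ℕ, A ∈ I → B ∈ I → A ∪ B ∈ I) →
      (∀ A : Set ℕ, A.Finite → A ∈ I) →
      (Set.univ : Set ℕ) ∉ I →
      ∀ x : ℕ → (ℕ → Bool),
        {ℓ : ℕ → Bool | ∃ A : Set ℕ, A ∉ I ∧
            Filter.Tendsto x (Filter.atTop ⊓ Filter.principal A) (nhds ℓ)}
          ≠ {f : ℕ → Bool | {n : ℕ | f n = true} ∈ I}) := by
  intro H
  obtain ⟨T, I, hT, hI⟩ := main
  have hfin : ∀ A : Set ℕ, A.Finite → A ∈ I := fun A hA =>
    (hI A).2 ⟨by rw [D_fin hA]; exact finite_empty, fun ζ _ => hA.inter_of_left _⟩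
  refine H I (fun A B hA hB => ?_) (fun A B hA hB => ?_) hfin (fun h => ?_) x ?_
  · rw [hI] at hA ⊢
    exact ⟨hA.1.subset (D_mono hB), fun ζ h => (hA.2 ζ h).subset (inter_subset_inter_left _ hB)⟩
  · rw [hI] at hA hB ⊢
    exact ⟨(hA.1.union hB.1).subset (D_union _ _), fun ζ h => by
      rw [union_inter_distrib_right]; exact (hA.2 ζ h).union (hB.2 ζ h)⟩
  · have := ((hI _).1 h).2 (fun _ => false) (hfin _ (by simp [st]))
    rw [univ_inter] at this
    exact (hT _).1 this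
  · ext ζ
    simp only [mem_ofPred_eq, conv_iff]
    constructor
    · rintro ⟨A, h1, h2⟩
      by_contra h3
      refine h1 ((hI A).2 ⟨(finite_singleton ζ).subset (D_conv h2), fun η hη => ?_⟩)
      by_contra h4
      obtain rfl : η = ζ := D_conv h2 (mem_D (hT η).2 h4)
      exact h3 hη
    · intro h
      refine ⟨T ζ, fun h1 => (hT ζ).1 ?_, (hT ζ).2⟩
      simpa using ((hI _).1 h1).2 ζ h

end Pool.Agent.S15504
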