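import Pool.Statements.S15510
import Pool.Agent.Lib.helper25.Rigid

set_option autoImplicit false
open Pool Pool.MP_e29ee7_lc

namespace Pool.Agent.S15510

open Cardinal Set

/-- nodes of the tree -/
@[ext] structure Node (X : Set ℝ) where
  z : ℕ
  x : ℝ
  s : ℕ → ℕ
  hx : x ∈ X
  h0 : 0 ≤ x
  hz : z ≠ 0 → x < z ∧ s = 0
  hu : z = 0 → 1 / ((s ⌊x⌋₊ : ℝ) + 2) < x - ⌊x⌋₊ ∧ ∀ m, ⌊x⌋₊ < m → s m = 0

variable {X : Set ℝ}

/-- comparison of positions -/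
def P (v w : Node X) : Prop := w.z < v.z ∨ (v.z = w.z ∧ v.x < w.x)

/-- the strict order -/
def L (v w : Node X) : Prop := P v w ∧ (v.z = 0 → ∀ m ≤ ⌊v.x⌋₊, v.s m = w.s m)

lemma P.trans {u v w : Node X} (h1 : P u v) (h2 : P v w) : P u w := by
  rcases h1 with h1 | ⟨h1, h3⟩ <;> rcases h2 with h2 | ⟨h2, h4⟩
  · exact Or.inl (by omega)
  · exact Or.inl (by omega)
  · exact Or.inl (by omega)
  · exact Or.inr ⟨by omega, h3.trans h4⟩

lemma P.irrefl (u : Node X) : ¬ P u u := by simp [P]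

lemma P.top {v w : Node X} (h : P v w) (hv : v.z = 0) : w.z = 0 ∧ ⌊v.x⌋₊ ≤ ⌊w.x⌋₊ := by
  rcases h with h | ⟨h, h2⟩
  · omega
  · exact ⟨by omega, Nat.floor_mono h2.le⟩

lemma L.trans {u v w : Node X} (h1 : L u v) (h2 : L v w) : L u w :=
  ⟨h1.1.trans h2.1, fun h m hm => (h1.2 h m hm).trans
    (h2.2 (h1.1.top h).1 m (hm.trans (h1.1.top h).2))⟩

instance : PartialOrder (Node X) where
  le v w := v = w ∨ L v w
  le_refl _ := Or.inl rfl
  le_trans := by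
    rintro u v w (rfl | h1) (rfl | h2)
    exacts [Or.inl rfl, Or.inr h2, Or.inr h1, Or.inr (h1.trans h2)]
  le_antisymm := by
    rintro v w (rfl | h1) (h2 | h2)
    exacts [rfl, rfl, h2.symm, absurd (h1.1.trans h2.1) (P.irrefl _)]

lemma lt_iff {v w : Node X} : v < w ↔ L v w := by
  rw [lt_iff_le_and_ne]
  refine ⟨fun h => h.1.resolve_left h.2, fun h => ⟨Or.inr h, ?_⟩⟩
  rintro rfl
  exact P.irrefl _ h.1

/-- the branch given by `f` -/
def B (X : Set ℝ) (f : ℕ → ℕ) : Set (Node X) := {v | v.z = 0 → ∀ m ≤ ⌊v.x⌋₊, v.s m = f m}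

lemma lt_of_P {f : ℕ → ℕ} {v w : Node X} (hv : v ∈ B X f) (hw : w ∈ B X f) (h : P v w) : v < w :=
  lt_iff.2 ⟨h, fun h0 m hm => (hv h0 m hm).trans (hw (h.top h0).1 m (hm.trans (h.top h0).2)).symm⟩

lemma B_chain (f : ℕ → ℕ) : IsChain (· ≤ ·) (B X f) := by
  intro v hv w hw hne
  by_cases h1 : P v w
  · exact Or.inl (lt_of_P hv hw h1).le
  by_cases h2 : P w v
  · exact Or.inr (lt_of_P hw hv h2).le
  simp only [P, not_or, not_and, not_lt] at h1 h2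
  have e1 : v.z = w.z := by omega
  have e2 : v.x = w.x := le_antisymm (h2.2 e1.symm) (h1.2 e1)
  refine absurd (Node.ext e1 e2 ?_) hne
  by_cases h0 : v.z = 0
  · funext m
    by_cases hm : m ≤ ⌊v.x⌋₊
    · rw [hv h0 m hm, hw (e1 ▸ h0) m (e2 ▸ hm)]
    · rw [(v.hu h0).2 m (by omega), (w.hu (e1 ▸ h0)).2 m (by rw [← e2]; omega)]
  · rw [(v.hz h0).2, (w.hz (e1 ▸ h0)).2]

lemma sub_B {C : Set (Node X)} (hC : IsChain (· ≤ ·) C) : ∃ f, C ⊆ B X f := by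
  classical
  refine ⟨fun m => if h : ∃ v ∈ C, v.z = 0 ∧ m ≤ ⌊v.x⌋₊ then h.choose.s m else 0, fun v hv h0 m hm => ?_⟩
  have h : ∃ v ∈ C, v.z = 0 ∧ m ≤ ⌊v.x⌋₊ := ⟨v, hv, h0, hm⟩
  simp only [dif_pos h]
  obtain ⟨h1, h2, h3⟩ := h.choose_spec
  rcases hC.total hv h1 with (h4 | h4) | (h4 | h4)
  · rw [← h4]
  · exact h4.2 h0 m hm
  · rw [h4]
  · exact (h4.2 h2 m h3).symm

/-- a top node on the branch `g` -/
noncomputable def top (g : ℕ → ℕ) (x : ℝ) (hx : x ∈ X) (h0 : 0 ≤ x) (h : 1 / ((g ⌊x⌋₊ : ℝ) + 2) < x - ⌊x⌋₊) : Node X :=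
  ⟨0, x, fun m => if m ≤ ⌊x⌋₊ then g m else 0, hx, h0, fun h => absurd rfl h,
    fun _ => ⟨by simpa using h, fun m hm => if_neg (by omega)⟩⟩

lemma top_mem (g : ℕ → ℕ) (x : ℝ) (hx : x ∈ X) (h0 : 0 ≤ x) (h : 1 / ((g ⌊x⌋₊ : ℝ) + 2) < x - ⌊x⌋₊) :
    top g x hx h0 h ∈ B X g := fun _ _ hm => if_pos hm

lemma piece {n i j : ℕ} {x : ℝ} (h : x ∈ Ioo ((n : ℝ) + 1 / (i + 2)) (n + 1 / (i + 1))) (hj : i ≤ j) :
    0 ≤ x ∧ ⌊x⌋₊ = n ∧ 1 / ((j : ℝ) + 2) < x - n := by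
  have h1 : (0 : ℝ) < 1 / (i + 2) := by positivity
  have h2 : 1 / ((i : ℝ) + 1) ≤ 1 := by rw [div_le_one (by positivity)]; linarith [i.cast_nonneg (α := ℝ)]
  have h3 : 1 / ((j : ℝ) + 2) ≤ 1 / (i + 2) := by gcongr
  have h0 : 0 ≤ x := by linarith [h.1, n.cast_nonneg (α := ℝ)]
  exact ⟨h0, (Nat.floor_eq_iff h0).2 ⟨by linarith [h.1], by linarith [h.2]⟩, by linarith [h.1]⟩

lemma B_max (hX : ∀ n i : ℕ, 𝔠 ≤ #(X ∩ Ioo ((n : ℝ) + 1 / (i + 2)) (n + 1 / (i + 1)) : Set ℝ)) (f : ℕ → ℕ) :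
    IsMaxChain (· ≤ ·) (B X f) := by
  refine ⟨B_chain f, fun C hC h => ?_⟩
  obtain ⟨g, hg⟩ := sub_B hC
  suffices f = g by
    subst this
    exact h.antisymm hg
  funext n
  obtain ⟨⟨x, h1, h2⟩⟩ := mk_ne_zero_iff.1 (continuum_pos.trans_le (hX n 0)).ne'
  obtain ⟨h3, rfl, h5⟩ := piece h2 (Nat.zero_le (f n))
  exact (top_mem f x h1 h3 h5 rfl _ le_rfl).symm.trans (hg (h (top_mem f x h1 h3 h5)) rfl _ le_rfl)

lemma emb {f g : ℕ → ℕ} (N : ℕ) (h : ∀ n, N ≤ n → f n ≤ g n) : Nonempty (B X f ↪o B X g) := by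
  classical
  have key : ∀ v : B X f, ∃ w : B X g, w.1.x = v.1.x ∧ (v.1.z ≠ 0 → w.1.z = v.1.z + (N + 1)) ∧
      (v.1.z = 0 → v.1.x < N → w.1.z = N + 1) ∧ (v.1.z = 0 → N ≤ v.1.x → w.1.z = 0) := by
    rintro ⟨v, hv⟩
    by_cases h0 : v.z = 0
    · by_cases h1 : v.x < N
      · exact ⟨⟨⟨N + 1, v.x, 0, v.hx, v.h0, fun _ => ⟨by push_cast; linarith, rfl⟩, by simp⟩, by simp [B]⟩,
          rfl, fun h => absurd h0 h, fun _ _ => rfl, fun _ h => absurd h1 h.not_gt⟩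
      · have h2 := (v.hu h0).1
        rw [hv h0 _ le_rfl] at h2
        have h3 : (f ⌊v.x⌋₊ : ℝ) ≤ g ⌊v.x⌋₊ := by exact_mod_cast h _ (Nat.le_floor (not_lt.1 h1))
        exact ⟨⟨_, top_mem g v.x v.hx v.h0 (lt_of_le_of_lt (by gcongr) h2)⟩, rfl, fun h => absurd h0 h,
          fun _ h => absurd h h1, fun _ _ => rfl⟩
    · have := (v.hz h0).1
      exact ⟨⟨⟨v.z + (N + 1), v.x, 0, v.hx, v.h0, fun _ => ⟨by push_cast; linarith [N.cast_nonneg (α := ℝ)], rfl⟩,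
        by simp⟩, by simp [B]⟩, rfl, fun _ => rfl, fun h => absurd h h0, fun h => absurd h h0⟩
  choose F h1 h2 h3 h4 using key
  have hm : StrictMono F := by
    intro v w hvw
    refine lt_of_P (F v).2 (F w).2 ?_
    have hP : P v.1 w.1 := (lt_iff.1 hvw).1
    simp only [P, h1] at hP ⊢
    by_cases hv : v.1.z = 0 <;> by_cases hw : w.1.z = 0
    · have hx : v.1.x < w.1.x := by
        rcases hP with hP | hP
        · omega
        · exact hP.2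
      rcases lt_or_ge v.1.x N with a | a <;> rcases lt_or_ge w.1.x N with b | b
      · exact Or.inr ⟨by rw [h3 v hv a, h3 w hw b], hx⟩
      · exact Or.inl (by rw [h3 v hv a, h4 w hw b]; omega)
      · linarith
      · exact Or.inr ⟨by rw [h4 v hv a, h4 w hw b], hx⟩
    · omega
    · rcases lt_or_ge w.1.x N with b | b
      · exact Or.inl (by rw [h2 v hv, h3 w hw b]; omega)
      · exact Or.inl (by rw [h2 v hv, h4 w hw b]; omega)
    · rw [h2 v hv, h2 w hw]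
      rcases hP with hP | hP
      · exact Or.inl (by omega)
      · exact Or.inr ⟨by omega, hP.2⟩
  refine ⟨OrderEmbedding.ofMapLEIff F fun v w => ⟨fun hle => ?_, fun hle => hm.monotone hle⟩⟩
  rcases (B_chain f).total v.2 w.2 with h5 | h5
  · exact h5
  · rcases h5.eq_or_lt with h5 | h5
    · exact h5.ge
    · exact absurd hle (hm (show w < v from h5)).not_ge

lemma no_emb (hX : ∀ n i : ℕ, 𝔠 ≤ #(X ∩ Ioo ((n : ℝ) + 1 / (i + 2)) (n + 1 / (i + 1)) : Set ℝ))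
    (hR : ∀ D ⊆ X, ∀ φ : ℝ → ℝ, StrictMonoOn φ D → MapsTo φ D X → (∀ x ∈ D, φ x ≠ x) → #D < 𝔠)
    {f g : ℕ → ℕ} (N : ℕ) (h : ∀ n, N ≤ n → f n < g n) : IsEmpty (B X g ↪o B X f) := by
  classical
  refine ⟨fun ψ => ?_⟩
  obtain ⟨⟨x0, a1, a2⟩⟩ := mk_ne_zero_iff.1 (continuum_pos.trans_le (hX 0 0)).ne'
  obtain ⟨a3, a4, a5⟩ := piece a2 (Nat.zero_le (g 0))
  let v0 : B X g := ⟨_, top_mem g x0 a1 a3 (by rw [a4]; exact a5)⟩
  set z0 := (ψ v0).1.z with hz0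
  set n := N + z0 + 1 with hn
  set D := X ∩ Ioo ((n : ℝ) + 1 / ((f n + 1 : ℕ) + 2)) (n + 1 / ((f n + 1 : ℕ) + 1)) with hD
  have key : ∀ x ∈ D, ∃ w : B X g, w.1.z = 0 ∧ w.1.x = x := by
    intro x hx
    obtain ⟨b1, b2, b3⟩ := piece hx.2 (h n (by omega))
    exact ⟨⟨_, top_mem g x hx.1 b1 (by rw [b2]; exact b3)⟩, rfl, rfl⟩
  have : Nonempty (B X g) := ⟨v0⟩
  choose! w w1 w2 using key
  have hlt : ∀ u v : B X g, P u.1 v.1 → P (ψ u).1 (ψ v).1 := fun u v huv =>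
    (lt_iff.1 (ψ.strictMono (show u < v from lt_of_P u.2 v.2 huv))).1
  have hn1 : ∀ x ∈ D, (n : ℝ) ≤ x := fun x hx => by
    have := piece hx.2 le_rfl
    exact this.2.1 ▸ Nat.floor_le this.1
  have hz : ∀ x ∈ D, (ψ (w x)).1.z ≤ z0 := by
    intro x hx
    have h1 : x0 < x := by
      have h2 := hn1 x hx
      have h3 := a2.2
      have h4 : (1 : ℝ) ≤ n := by exact_mod_cast (by omega : 1 ≤ n)
      norm_num at h3
      linarith
    rcases hlt v0 (w x) (Or.inr ⟨(w1 x hx).symm, by rw [w2 x hx]; exact h1⟩) with h2 | h2 <;> omega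
  have small : ∀ k : ℕ, #{x | x ∈ D ∧ (ψ (w x)).1.z = k} < 𝔠 := by
    intro k
    refine hR _ (fun x hx => hx.1.1) (fun x => (ψ (w x)).1.x) ?_ (fun x _ => (ψ (w x)).1.hx) ?_
    · intro x hx y hy hxy
      rcases hlt (w x) (w y) (Or.inr ⟨by rw [w1 x hx.1, w1 y hy.1], by rwa [w2 x hx.1, w2 y hy.1]⟩) with h2 | h2
      · rw [hx.2, hy.2] at h2
        omega
      · exact h2.2
    · rintro x ⟨hx, -⟩ e
      by_cases h0 : (ψ (w x)).1.z = 0
      · have h1 := ((ψ (w x)).1.hu h0).1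
        rw [(ψ (w x)).2 h0 _ le_rfl, e, (piece hx.2 le_rfl).2.1] at h1
        have h2 := hx.2.2
        push_cast at h2
        rw [add_assoc, one_add_one_eq_two] at h2
        linarith
      · have h1 := ((ψ (w x)).1.hz h0).1
        have h2 : ((ψ (w x)).1.z : ℝ) ≤ n := by exact_mod_cast (hz x hx).trans (by omega)
        linarith [hn1 x hx]
  have fin : ∀ K : ℕ, #{x | x ∈ D ∧ (ψ (w x)).1.z < K} < 𝔠 := by
    intro K
    induction K with
    | zero => simpa using continuum_pos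
    | succ K ih =>
      refine lt_of_le_of_lt ((mk_le_mk_of_subset fun x hx => ?_).trans (mk_union_le _ _))
        (add_lt_of_lt aleph0_le_continuum ih (small K))
      rcases Nat.lt_succ_iff_lt_or_eq.1 hx.2 with h1 | h1
      exacts [Or.inl ⟨hx.1, h1⟩, Or.inr ⟨hx.1, h1⟩]
  exact (fin (z0 + 1)).not_ge ((hX n (f n + 1)).trans
    (mk_le_mk_of_subset fun x hx => ⟨hx, Nat.lt_succ_of_le (hz x hx)⟩))


/-- The negation of the preceding statement: Let T be a tree that is a countable union of chains. Order its maximal chains by order-embeddability. Then every maximal linearly ordered family of such chains has a countable cofinal subfamily: every member embeds into one of countably many members. -/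
theorem result :
    ¬ (∀ (T : Type) [PartialOrder T],
      (∀ x : T, IsChain (· ≤ ·) {y : T | y < x}) →
      (∃ f : ℕ → Set T, (∀ n, IsChain (· ≤ ·) (f n)) ∧ (⋃ n, f n) = Set.univ) →
      ∀ S : Set (Set T),
        (∀ c ∈ S, IsMaxChain (· ≤ ·) c) →
        IsChain (fun c d : Set T => Nonempty (↥c ↪o ↥d)) S →
        (∀ U : Set (Set T), (∀ c ∈ U, IsMaxChain (· ≤ ·) c) →
            IsChain (fun c d : Set T => Nonempty (↥c ↪o ↥d)) U → S ⊆ U → U = S) →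
        ∃ D : Set (Set T), D ⊆ S ∧ D.Countable ∧
          ∀ c ∈ S, ∃ d ∈ D, Nonempty (↥c ↪o ↥d)) := by
  intro H
  obtain ⟨X, hX', hR⟩ := Pool.Agent.Lib.H25Rigid.rigid (κ := ℕ × ℕ)
    (fun p => (p.1 : ℝ) + 1 / (p.2 + 2)) (fun p => (p.1 : ℝ) + 1 / (p.2 + 1)) (fun p => by
      gcongr; norm_num)
  have hX : ∀ n i : ℕ, 𝔠 ≤ #(X ∩ Ioo ((n : ℝ) + 1 / (i + 2)) (n + 1 / (i + 1)) : Set ℝ) :=
    fun n i => hX' (n, i)
  let r : {c : Set (Node X) // IsMaxChain (· ≤ ·) c} → {c : Set (Node X) // IsMaxChain (· ≤ ·) c} → Prop :=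
    fun c d => Nonempty (c.1 ↪o d.1)
  have hm : IsMaxChain r (maxChain r) := maxChain_spec
  have hS : ∀ U : Set (Set (Node X)), (∀ c ∈ U, IsMaxChain (· ≤ ·) c) →
      IsChain (fun c d : Set (Node X) => Nonempty (↥c ↪o ↥d)) U → Subtype.val '' maxChain r ⊆ U →
      U = Subtype.val '' maxChain r := by
    intro U h1 h2 h3
    have := hm.2 (t := Subtype.val ⁻¹' U) (fun c hc d hd hne => h2 hc hd fun h => hne (Subtype.ext h))
      (fun c hc => h3 ⟨c, hc, rfl⟩)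
    rw [this]
    exact (image_preimage_eq_of_subset fun c hc => ⟨⟨c, h1 c hc⟩, rfl⟩).symm
  have hC : IsChain (fun c d : Set (Node X) => Nonempty (↥c ↪o ↥d)) (Subtype.val '' maxChain r) := by
    rintro _ ⟨c, hc, rfl⟩ _ ⟨d, hd, rfl⟩ hne
    exact hm.1 hc hd fun h => hne (congrArg _ h)
  obtain ⟨D, hD1, hD2, hD3⟩ := H (Node X) (fun v => (B_chain v.s).mono fun y hy => (lt_iff.1 hy).2) (by
    obtain ⟨e, he⟩ := exists_surjective_nat (ℕ →₀ ℕ)
    refine ⟨fun k => B X (e k), fun k => B_chain _, eq_univ_of_forall fun v => ?_⟩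
    obtain ⟨k, hk⟩ := he (Finsupp.onFinset (Finset.range (⌊v.x⌋₊ + 1))
      (fun m => if m ≤ ⌊v.x⌋₊ then v.s m else 0) (by
        intro m hm
        by_contra h
        exact hm (if_neg (by simpa [Nat.lt_succ_iff] using h))))
    exact mem_iUnion.2 ⟨k, fun _ m hm => by simp [hk, hm]⟩)
    (Subtype.val '' maxChain r) (by rintro _ ⟨c, -, rfl⟩; exact c.2) hC hS
  obtain ⟨F, hF⟩ : ∃ F : ℕ → ℕ → ℕ, ∀ d ∈ D, ∃ k, d ⊆ B X (F k) := by
    obtain ⟨e, he⟩ := (hD2.insert ∅).exists_eq_range (insert_nonempty _ _)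
    have : ∀ k, ∃ f, e k ⊆ B X f := by
      intro k
      rcases (he ▸ mem_range_self k : e k ∈ insert ∅ D) with h | h
      · exact ⟨0, by simp [h]⟩
      · obtain ⟨c, -, hc⟩ := hD1 h
        exact sub_B (hc ▸ c.2.1)
    choose F hF using this
    refine ⟨F, fun d hd => ?_⟩
    obtain ⟨k, rfl⟩ : d ∈ range e := he ▸ mem_insert_of_mem _ hd
    exact ⟨k, hF k⟩
  let g : ℕ → ℕ := fun n => ∑ k ∈ Finset.range (n + 1), F k n + 1
  have hg : ∀ k n, k ≤ n → F k n < g n := fun k n h => Nat.lt_succ_of_le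
    (Finset.single_le_sum (f := fun k => F k n) (fun _ _ => Nat.zero_le _) (by simpa [Nat.lt_succ_iff]))
  have inc : ∀ {c d : Set (Node X)}, c ⊆ d → (c ↪o d) := fun h =>
    OrderEmbedding.ofMapLEIff (inclusion h) fun _ _ => Iff.rfl
  have hU := hS (insert (B X g) (Subtype.val '' maxChain r)) (by
      rintro _ (rfl | ⟨c, -, rfl⟩)
      exacts [B_max hX g, c.2]) (hC.insert fun c hc _ => Or.inr (by
      obtain ⟨d, hd, ⟨e1⟩⟩ := hD3 c hc
      obtain ⟨k, hk⟩ := hF d hd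
      obtain ⟨e2⟩ := emb (X := X) k fun n hn => (hg k n hn).le
      exact ⟨(e1.trans (inc hk)).trans e2⟩)) (subset_insert _ _)
  obtain ⟨d, hd, ⟨e1⟩⟩ := hD3 (B X g) (hU ▸ mem_insert _ _)
  obtain ⟨k, hk⟩ := hF d hd
  exact (no_emb hX hR k (hg k)).false (e1.trans (inc hk))

end Pool.Agent.S15510
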