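import Pool.Statements.S15550
import Pool.Agent.Lib.helper4.ShortOrd

set_option autoImplicit false
open Pool Pool.MP_e6ce3e_lc

namespace Pool.Agent.S15550

/-- The negation of the preceding statement: There is a linear order L with no uncountable well-ordered or reverse-well-ordered subset, of size at least aleph_1, mapping monotonically onto every size-aleph_1 linear order embeddable in it, but with no monotone surjection onto the rationals. -/
theorem result :
    ¬ (∃ (L : Type) (_ : LinearOrder L),
      (∀ S : Set L, S.WellFoundedOn (· < ·) → S.Countable) ∧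
      (∀ S : Set L, S.WellFoundedOn (· > ·) → S.Countable) ∧
      Cardinal.aleph 1 ≤ Cardinal.mk L ∧
      (∀ (K : Type) [LinearOrder K], Cardinal.mk K = Cardinal.aleph 1 →
          Nonempty (K ↪o L) → ∃ f : L → K, Monotone f ∧ Function.Surjective f) ∧
      ¬ ∃ f : L → ℚ, Monotone f ∧ Function.Surjective f) := by
  rintro ⟨L, _, h, h', hL, hs, hn⟩
  have hU : Uncountable L := Cardinal.aleph0_lt_mk_iff.1 (Cardinal.aleph_one_le_iff.1 hL)
  obtain ⟨K, hK, g, hg1, hg2⟩ := Pool.Agent.Lib.helper4.ShortOrd.onto_rat h h' hU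
  obtain ⟨f, hf1, hf2⟩ := hs K hK ⟨OrderEmbedding.subtype _⟩
  exact hn ⟨g ∘ f, hg1.comp hf1, hg2.comp hf2⟩

end Pool.Agent.S15550
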