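import Pool.Statements.S15610
import Pool.Agent.Lib.helper22.UnivB
import Pool.Agent.Lib.helper22.RSTree

set_option autoImplicit false
open Pool Pool.MP_f24711_lc

namespace Pool.Agent.S15610

section
open FirstOrder FirstOrder.Language Pool.Agent.Lib.helper22.Univ

def LL : FirstOrder.Language.{0, 0} := ⟨fun n => (PLift (n = 1) × ℕ) ⊕ PLift (n = 2), fun _ => Empty⟩

def gM {M : Type} [LL.Structure M] (i : ℕ) (a : M) : M :=
  Structure.funMap (L := LL) (n := 1) (Sum.inl (⟨rfl⟩, i)) ![a]

def jM {M : Type} [LL.Structure M] (a b : M) : M :=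
  Structure.funMap (L := LL) (n := 2) (Sum.inr ⟨rfl⟩) ![a, b]

lemma gM_emb {M N : Type} [LL.Structure M] [LL.Structure N] (e : LL.Embedding M N) (i : ℕ)
    (a : M) : gM i (e a) = e (gM i a) := by
  have : e ∘ ![a] = ![e a] := by
    funext k
    fin_cases k
    rfl
  exact ((e.map_fun _ _).trans (congrArg _ this)).symm

lemma jM_emb {M N : Type} [LL.Structure M] [LL.Structure N] (e : LL.Embedding M N)
    (a b : M) : jM (e a) (e b) = e (jM a b) := by
  have : e ∘ ![a, b] = ![e a, e b] := by
    funext k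
    fin_cases k <;> rfl
  exact ((e.map_fun _ _).trans (congrArg _ this)).symm

@[reducible] def mkS {A : Type} (g : ℕ → A → A) (j : A → A → A) : LL.Structure A where
  funMap := fun {_} f x => match f with
    | .inl (h, i) => g i (x ⟨0, by have := h.down; omega⟩)
    | .inr h => j (x ⟨0, by have := h.down; omega⟩) (x ⟨1, by have := h.down; omega⟩)
  RelMap := fun r => r.elim

def toEq {M N : Type} [LL.Structure M] [LL.Structure N] (e : M ≃ N)
    (h1 : ∀ i a, gM i (e a) = e (gM i a)) (h2 : ∀ a b, jM (e a) (e b) = e (jM a b)) :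
    LL.Equiv M N where
  toEquiv := e
  map_fun' := by
    rintro n (⟨⟨rfl⟩, i⟩ | ⟨⟨rfl⟩⟩) x
    · obtain ⟨a, rfl⟩ : ∃ a, x = ![a] := ⟨x 0, by
        funext k
        fin_cases k
        rfl⟩
      have : e.toFun ∘ ![a] = ![e a] := by
        funext k
        fin_cases k
        rfl
      exact (h1 i a).symm.trans (congrArg _ this.symm)
    · obtain ⟨a, b, rfl⟩ : ∃ a b, x = ![a, b] := ⟨x 0, x 1, by
        funext k
        fin_cases k <;> rfl⟩
      have : e.toFun ∘ ![a, b] = ![e a, e b] := by
        funext k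
        fin_cases k <;> rfl
      exact (h2 a b).symm.trans (congrArg _ this.symm)
  map_rel' := fun r => r.elim

end

/-- The negation of the preceding statement: For a countable language, any class of structures closed under isomorphism, substructures and unions of nonempty chains, in which all countably infinite members are isomorphic and some member has size aleph_1, has all its size-aleph_1 members isomorphic. -/
theorem result :
    ¬ (∀ (L : FirstOrder.Language.{0, 0}), L.card ≤ Cardinal.aleph0 →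
    ∀ (K : ∀ (M : Type) [L.Structure M], Prop),
      (∀ (M N : Type) [L.Structure M] [L.Structure N],
          Nonempty (L.Equiv M N) → K M → K N) →
      (∀ (M : Type) [L.Structure M] (S : L.Substructure M), K M → K ↥S) →
      (∀ (M : Type) [L.Structure M] (C : Set (L.Substructure M)),
          C.Nonempty → IsChain (· ≤ ·) C → (∀ S ∈ C, K ↥S) → K ↥(sSup C)) →
      (∀ (M N : Type) [L.Structure M] [L.Structure N], K M → K N →
          Cardinal.mk M = Cardinal.aleph0 → Cardinal.mk N = Cardinal.aleph0 →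
          Nonempty (L.Equiv M N)) →
      (∃ (M : Type) (i : L.Structure M), @K M i ∧ Cardinal.mk M = Cardinal.aleph 1) →
      ∀ (M N : Type) [L.Structure M] [L.Structure N], K M → K N →
        Cardinal.mk M = Cardinal.aleph 1 → Cardinal.mk N = Cardinal.aleph 1 →
        Nonempty (L.Equiv M N)) := by
  intro h
  haveI : Uncountable Lib.helper22.Ray.W := by
    rw [← not_countable_iff, ← Set.countable_univ_iff]
    exact Lib.helper22.Stat.W_unc
  obtain ⟨A, B, g, j, g', j', h1, h2, h3, h4, h5⟩ := Lib.helper22.Univ.two Lib.helper22.Ray.W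
  rw [Lib.helper22.RSTree.mkW] at h3 h4
  letI := mkS g j
  letI := mkS g' j'
  refine Nonempty.elim (h LL ?_ (fun M _ => Lib.helper22.Univ.KK (gM (M := M)) jM) ?_ ?_ ?_ ?_
    ⟨A, mkS g j, h1, h3⟩ A B h1 h2 h3 h4) fun e => h5 e.toEquiv (gM_emb e.toEmbedding)
  · rw [FirstOrder.Language.card, Cardinal.mk_le_aleph0_iff]
    unfold FirstOrder.Language.Symbols LL
    infer_instance
  · rintro M N _ _ ⟨e⟩ hK
    exact hK.emb e.symm.toEmbedding.injective (gM_emb _) (jM_emb _)
  · intro M _ S hK
    exact hK.emb S.subtype.injective (gM_emb _) (jM_emb _)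
  · intro M _ C hne hC hK
    refine Lib.helper22.Univ.KK.loc fun x y z => ?_
    have hd := hC.directedOn
    obtain ⟨S1, a1, b1⟩ := (FirstOrder.Language.Substructure.mem_sSup_of_directedOn hne hd).1 x.2
    obtain ⟨S2, a2, b2⟩ := (FirstOrder.Language.Substructure.mem_sSup_of_directedOn hne hd).1 y.2
    obtain ⟨S3, a3, b3⟩ := (FirstOrder.Language.Substructure.mem_sSup_of_directedOn hne hd).1 z.2
    obtain ⟨S4, a4, c1, c2⟩ := hd S1 a1 S2 a2
    obtain ⟨S, a, c3, c4⟩ := hd S4 a4 S3 a3
    let e := FirstOrder.Language.Substructure.inclusion (le_sSup a : S ≤ sSup C)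
    exact ⟨S, gM, jM, e, hK S a, e.injective, gM_emb e, jM_emb e, ⟨⟨x.1, c3 (c1 b1)⟩, rfl⟩,
      ⟨⟨y.1, c3 (c2 b2)⟩, rfl⟩, ⟨⟨z.1, c4 b3⟩, rfl⟩⟩
  · intro M N _ _ hM hN cM cN
    haveI := Cardinal.mk_le_aleph0_iff.1 cM.le
    haveI := Cardinal.mk_le_aleph0_iff.1 cN.le
    haveI := Cardinal.infinite_iff.2 cM.ge
    haveI := Cardinal.infinite_iff.2 cN.ge
    obtain ⟨e, he⟩ := hM.iso hN
    exact ⟨toEq e he (hM.jeq hN e he)⟩

end Pool.Agent.S15610
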