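import Pool.Statements.S15620
import Pool.Agent.Lib.helper5.Soc

set_option autoImplicit false
open Pool Pool.MP_f4da35_lc

namespace Pool.Agent.S15620

/-- The negation of the preceding statement: For all n, k ≥ 2 and every (k+1)-colouring f of n-sets of naturals, some k-colouring g exists such that every infinite g-homogeneous set Turing-computes an infinite f-homogeneous set. -/
theorem result :
    ¬ (∀ n k : ℕ, 2 ≤ n → 2 ≤ k →
      ∀ f : Finset ℕ → Fin (k + 1),
        ∃ g : Finset ℕ → Fin k,
          ∀ H : ℕ → Bool,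
            Set.Infinite {m : ℕ | H m = true} →
            (∃ col : Fin k, ∀ s : Finset ℕ,
                (∀ x ∈ s, H x = true) → s.card = n → g s = col) →
            ∃ H' : ℕ → Bool,
              Set.Infinite {m : ℕ | H' m = true} ∧
              (∃ col : Fin (k + 1), ∀ s : Finset ℕ,
                (∀ x ∈ s, H' x = true) → s.card = n → f s = col) ∧
              TuringReducible (fun m => Part.some (Bool.toNat (H' m)))
                (fun m => Part.some (Bool.toNat (H m)))) := by
  classical
  intro h
  obtain ⟨f, hf⟩ := H5F.soc1 2 1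
  obtain ⟨d, hd⟩ := h 2 2 le_rfl le_rfl f
  obtain ⟨H, h1, ⟨i, h2⟩, h3⟩ := hf d
  obtain ⟨K, k1, ⟨j, k2⟩, k3⟩ := hd (fun n => decide (n ∈ H)) (by simpa using h1)
    ⟨i, fun s a b => h2 s (fun x hx => by simpa using a x hx) b⟩
  obtain ⟨e, he⟩ := H5F.exists_G (H := H) k3
  exact h3 e (he ▸ k1) ⟨j, fun s a b => k2 s (fun x hx => by
    have := a hx; rwa [he] at this) b⟩

end Pool.Agent.S15620
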