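import Pool.Statements.S15651
import Pool.Agent.Lib.H8.Cot

set_option autoImplicit false
open Pool Pool.MP_fccb05_lc Pool.Agent.Lib.H8 Cot Om

namespace Pool.Agent.S15651

/-- There is an effective Π⁰₂ subspace of P(ℕ) (given by c.e. U, V) whose points are pairwise ⊆-incomparable (T₁), containing a point A that is enumeration-equivalent to no cototal set C (C ≤ₑ complement of C). -/
theorem result :
    ∃ (U V : ℕ × List ℕ → Prop), REPred U ∧ REPred V ∧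
      (∀ X Y : Set ℕ,
        (∀ i : ℕ, (∃ l : List ℕ, U (i, l) ∧ ∀ k ∈ l, k ∈ X) →
          ∃ l : List ℕ, V (i, l) ∧ ∀ k ∈ l, k ∈ X) →
        (∀ i : ℕ, (∃ l : List ℕ, U (i, l) ∧ ∀ k ∈ l, k ∈ Y) →
          ∃ l : List ℕ, V (i, l) ∧ ∀ k ∈ l, k ∈ Y) →
        X ⊆ Y → X = Y) ∧
      ∃ A : Set ℕ,
        (∀ i : ℕ, (∃ l : List ℕ, U (i, l) ∧ ∀ k ∈ l, k ∈ A) →
          ∃ l : List ℕ, V (i, l) ∧ ∀ k ∈ l, k ∈ A) ∧
        ∀ C : Set ℕ,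
          (∃ W : ℕ × List ℕ → Prop, REPred W ∧
            ∀ n : ℕ, n ∈ C ↔ ∃ l : List ℕ, W (n, l) ∧ ∀ k ∈ l, k ∉ C) →
          ¬ ((∃ W : ℕ × List ℕ → Prop, REPred W ∧
                ∀ n : ℕ, n ∈ A ↔ ∃ l : List ℕ, W (n, l) ∧ ∀ k ∈ l, k ∈ C) ∧
             (∃ W : ℕ × List ℕ → Prop, REPred W ∧
                ∀ n : ℕ, n ∈ C ↔ ∃ l : List ℕ, W (n, l) ∧ ∀ k ∈ l, k ∈ A)) := by
  obtain ⟨U, V, hU, hV, e⟩ := md_ax
  refine ⟨U, V, sig_re hU, sig_re hV, fun X Y a b => ((e X).1 a).sep ((e Y).1 b), ?_⟩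
  let W : ℕ → ℕ × List ℕ → Prop := fun c p => Encodable.encode p ∈ CeAlg.W c
  have hW : ∀ R : ℕ × List ℕ → Prop, REPred R → ∃ c, R = W c := fun R h => by
    obtain ⟨c, hc⟩ := Nat.Partrec.Code.exists_code.1 h
    exact ⟨Encodable.encode c, funext fun p => by
      simp only [W, CeAlg.W, Denumerable.ofNat_encode, hc, Set.mem_ofPred_eq, Encodable.encodek]
      simp [Part.dom_iff_mem]⟩
  let Θ : ℕ → ℕ → ℕ × List ℕ → Prop := fun a b p =>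
    ∃ l, W b (p.1, l) ∧ ∀ k ∈ l, ∃ l', W a (k, l') ∧ ∀ j ∈ l', j ∈ p.2
  obtain ⟨A, a1, a2⟩ := gen (ι := (ℕ × List ℕ) ⊕ ℕ × ℕ × ℕ) (U := U) (V := V) (Sum.elim
    (fun i Z => Dj (W i.1) i.2 Z → Fo (W i.1) i.2 Z) fun i Z => ∃ s,
      (s ∉ Z ∧ ∃ F, Θ i.1 i.2.1 (s, F) ∧ Dj (W i.2.2) F Z) ∨
        (s ∈ Z ∧ ∀ F, Θ i.1 i.2.1 (s, F) → ¬ Fo (W i.2.2) F Z))
    (by simpa only [e] using md_ex) (by
      simp only [e]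
      rintro (i | i) X N h
      exacts [dense1 _ _ X N h, dense2 _ _ X N h])
  refine ⟨A, a1, fun C ⟨W1, w1, c1⟩ ⟨⟨W2, w2, c2⟩, W3, w3, c3⟩ => ?_⟩
  obtain ⟨a, rfl⟩ := hW _ w1
  obtain ⟨b, rfl⟩ := hW _ w2
  obtain ⟨c, rfl⟩ := hW _ w3
  obtain ⟨s, ⟨u, F, ⟨l, v, w⟩, x⟩ | ⟨u, v⟩⟩ := a2 (Sum.inr (a, b, c))
  · exact u ((c2 s).2 ⟨l, v, fun k z => (c1 k).2 ((w k z).imp fun l' y =>
      ⟨y.1, fun j t r => x j (y.2 j t) ((c3 j).1 r)⟩)⟩)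
  · obtain ⟨l, w, x⟩ := (c2 s).1 u
    choose! g g1 g2 using fun k z => (c1 k).1 (x k z)
    refine v (l.flatMap g) ⟨l, w, fun k z => ⟨g k, g1 k z, fun j t =>
      List.mem_flatMap.2 ⟨k, z, t⟩⟩⟩ (a2 (Sum.inl (c, l.flatMap g)) fun j t r => ?_)
    obtain ⟨k, z, t⟩ := List.mem_flatMap.1 t
    exact g2 k z j t ((c3 j).2 r)

end Pool.Agent.S15651
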