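import Pool.Statements.S15657
import Pool.Agent.Lib.H8.Sp6

set_option autoImplicit false
open Pool Pool.MP_fed070_lc

namespace Pool.Agent.S15657

/-- For every computable, computably bounded tree T, some computable commutative ring with unity has a bijection from the infinite paths of T onto its prime ideals (as 0/1 characteristic functions) in which each path is Turing equivalent to its image. -/
theorem result :
  ∀ (T : List ℕ → Bool) (g : List ℕ → ℕ), Computable T → Computable g →
    (∀ σ τ : List ℕ, σ <+: τ → T τ = true → T σ = true) →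
    (∀ (σ : List ℕ) (i : ℕ), T (σ ++ [i]) = true → i < g σ) →
    ∃ (U : ℕ → Bool) (add mul : ℕ → ℕ → ℕ) (neg : ℕ → ℕ) (zero one : ℕ),
      Computable U ∧ Computable₂ add ∧ Computable₂ mul ∧ Computable neg ∧
      U zero = true ∧ U one = true ∧
      (∀ a b, U a = true → U b = true → U (add a b) = true ∧ U (mul a b) = true) ∧
      (∀ a, U a = true → U (neg a) = true) ∧
      (∀ a b c, U a = true → U b = true → U c = true →
        add (add a b) c = add a (add b c) ∧ mul (mul a b) c = mul a (mul b c) ∧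
        mul a (add b c) = add (mul a b) (mul a c)) ∧
      (∀ a b, U a = true → U b = true → add a b = add b a ∧ mul a b = mul b a) ∧
      (∀ a, U a = true → add zero a = a ∧ add a (neg a) = zero ∧ mul one a = a) ∧
      ∃ F : (ℕ → ℕ) → (ℕ → ℕ),
        Set.BijOn F {f : ℕ → ℕ | ∀ n, T ((List.range n).map f) = true}
          {χ : ℕ → ℕ | (∀ n, χ n = 0 ∨ χ n = 1) ∧
            (∀ n, χ n = 1 → U n = true) ∧
            χ zero = 1 ∧ χ one = 0 ∧
            (∀ a b, χ a = 1 → χ b = 1 → χ (add a b) = 1) ∧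
            (∀ a b, U a = true → χ b = 1 → χ (mul a b) = 1) ∧
            (∀ a b, U a = true → U b = true → χ (mul a b) = 1 → χ a = 1 ∨ χ b = 1)} ∧
        ∀ f : ℕ → ℕ, (∀ n, T ((List.range n).map f) = true) →
          TuringEquivalent (PFun.lift f) (PFun.lift (F f)) := by
  classical
  intro T g h1 h2 h3 h4
  by_cases hp : ∃ f0 : ℕ → ℕ, ∀ n, T ((List.range n).map f0) = true
  swap
  · refine ⟨fun n => decide (n = 0), fun _ _ => 0, fun _ _ => 0, fun _ => 0, 0, 0,
      (Primrec.eq.comp Primrec.id (Primrec.const 0)).decide.to_comp, Computable.const 0,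
      Computable.const 0, Computable.const 0, by simp, by simp, by simp, by simp, by simp, by simp,
      fun a h => by simp [of_decide_eq_true h], id,
      ⟨fun f hf => absurd ⟨f, hf⟩ hp, fun f hf => absurd ⟨f, hf⟩ hp, fun χ h => ?_⟩,
      fun f hf => absurd ⟨f, hf⟩ hp⟩
    have := h.2.2.1
    have := h.2.2.2.1
    omega
  obtain ⟨f0, hf0⟩ := hp
  have hT : Lib.H8.Sp.Tr T g := ⟨h3, h4⟩
  obtain ⟨A, _, e, s, ix, c1, c2, c3, c4, c5, k1, k2⟩ := Lib.H8.Sp.spec hT h1 h2 hf0
  refine ⟨fun _ => true, fun a b => e.symm (e a + e b), fun a b => e.symm (e a * e b),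
    fun a => e.symm (-e a), e.symm 0, e.symm 1, Computable.const _, c1, c2, c3, rfl, rfl,
    fun _ _ _ _ => ⟨rfl, rfl⟩, fun _ _ => rfl,
    fun a b c _ _ _ => by simp [add_assoc, mul_assoc, mul_add],
    fun a b _ _ => by simp [add_comm, mul_comm], fun a _ => by simp,
    fun f n => if Lib.H8.Sp.Rl (s n) fun k => f k + 1 then 1 else 0,
    ⟨fun f hf => ?_, fun f hf f' hf' h => ?_, fun χ hχ => ?_⟩, fun f hf => ?_⟩
  · obtain ⟨⟨P, p1, p2⟩, -⟩ := k1 f hf
    simp only [Set.mem_ofPred_eq, ← p2, Equiv.apply_symm_apply, ite_eq_left_iff, zero_ne_one,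
      imp_false, not_not, ite_eq_right_iff, one_ne_zero, implies_true, true_and, forall_const]
    exact ⟨fun n => (em _).symm, P.zero_mem, fun h => p1.ne_top ((Ideal.eq_top_iff_one _).2 h),
      fun a b => P.add_mem, fun a b => P.mul_mem_left _, fun a b => p1.mem_or_mem⟩
  · refine Lib.H8.Sp.sep fun σ => ?_
    rw [← (k1 f hf).2, ← (k1 f' hf').2]
    have := congrFun h (ix σ)
    by_cases a : Lib.H8.Sp.Rl (s (ix σ)) fun k => f k + 1 <;>
      by_cases b : Lib.H8.Sp.Rl (s (ix σ)) fun k => f' k + 1 <;> simp_all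
  · obtain ⟨a1, -, a3, a4, a5, a6, a7⟩ := hχ
    let P : Ideal A :=
      { carrier := {r | χ (e.symm r) = 1}
        add_mem' := fun {a b} ha hb => by simpa using a5 _ _ ha hb
        zero_mem' := a3
        smul_mem' := fun c x hx => by simpa using a6 (e.symm c) _ rfl hx }
    have hP : P.IsPrime := ⟨fun h => by
      have : χ (e.symm 1) = 1 := (Ideal.eq_top_iff_one P).1 h
      omega, fun {a b} h => a7 (e.symm a) (e.symm b) rfl rfl (by
        simp only [Equiv.apply_symm_apply]; exact h)⟩
    obtain ⟨f, hf, h⟩ := k2 P hP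
    refine ⟨f, hf, funext fun n => ?_⟩
    have : e n ∈ P ↔ χ n = 1 := by
      change χ (e.symm (e n)) = 1 ↔ _
      rw [Equiv.symm_apply_apply]
    simp only [← h, this]
    rcases a1 n with b | b <;> simp [b]
  · exact ⟨(Lib.H8.Sp.red2 hT h2 hf c5 fun σ => by simp [(k1 f hf).2]).tur,
      (Lib.H8.Sp.red1 c4 f).tur⟩

end Pool.Agent.S15657
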