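import Pool.Statements.S15688

set_option autoImplicit false
open Matrix
open scoped ComplexOrder
open Pool Pool.MP_2725c9_mp

namespace Pool.Agent.S15688

open scoped Matrix.Norms.L2Operator

noncomputable def opn {m : Type} [Fintype m] [DecidableEq m] (A : Matrix m m ℂ) : ℝ := ‖A‖

lemma opn_cont {m : Type} [Fintype m] [DecidableEq m] : Continuous (opn (m := m)) :=
  continuous_norm

lemma opn_conv {m : Type} [Fintype m] [DecidableEq m] (s : Set (Matrix m m ℂ)) (hs : Convex ℝ s) :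
    ConvexOn ℝ s (opn (m := m)) := by
  refine ⟨hs, fun x _ y _ a b ha hb _ => ?_⟩
  have e : ∀ (c : ℝ) (z : Matrix m m ℂ), c • z = (c : ℂ) • z := fun c z => by
    ext i j; simp
  unfold opn
  rw [e, e]
  refine (norm_add_le _ _).trans ?_
  rw [norm_smul, norm_smul]
  simp [abs_of_nonneg ha, abs_of_nonneg hb]

lemma opn_unit {m : Type} [Fintype m] [DecidableEq m] (U A : Matrix m m ℂ)
    (hU : U ∈ Matrix.unitaryGroup m ℂ) : opn (U * A * star U) = opn A := by
  unfold opn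
  rw [CStarRing.norm_mul_mem_unitary _ (Unitary.star_mem hU), CStarRing.norm_mem_unitary_mul _ hU]

lemma opn_diag {m : Type} [Fintype m] [DecidableEq m] (v : m → ℝ) (r : ℝ) (hr : 0 ≤ r)
    (h0 : ∀ a, 0 ≤ v a) (h : ∀ a, v a ≤ r) :
    opn (Matrix.diagonal (fun a => ((v a : ℝ) : ℂ))) ≤ r := by
  unfold opn
  rw [Matrix.l2_opNorm_diagonal, pi_norm_le_iff_of_nonneg hr]
  intro a
  simpa [abs_of_nonneg (h0 a)] using h a

lemma opn_lower {m : Type} [Fintype m] [DecidableEq m] (A : Matrix m m ℚ) (x : m → ℚ) (r : ℚ)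
    (h : r ^ 2 * ∑ i, x i ^ 2 < ∑ i, (∑ j, A i j * x j) ^ 2) :
    (r : ℝ) < opn (Matrix.of fun i j => ((A i j : ℚ) : ℂ)) := by
  by_contra hc
  push Not at hc
  have h1 := Matrix.l2_opNorm_mulVec (Matrix.of fun i j => ((A i j : ℚ) : ℂ))
    (WithLp.toLp 2 (fun i => ((x i : ℚ) : ℂ)))
  have h2 := pow_le_pow_left₀ (norm_nonneg _) h1 2
  rw [mul_pow, EuclideanSpace.norm_sq_eq, EuclideanSpace.norm_sq_eq] at h2
  have e1 : ∀ i, ‖((EuclideanSpace.equiv m ℂ).symm
      ((Matrix.of fun i j => ((A i j : ℚ) : ℂ)) *ᵥ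
        (WithLp.toLp 2 (fun i => ((x i : ℚ) : ℂ)) : EuclideanSpace ℂ m).ofLp)).ofLp i‖ ^ 2
      = (((∑ j, A i j * x j) ^ 2 : ℚ) : ℝ) := by
    intro i
    have : ((EuclideanSpace.equiv m ℂ).symm
      ((Matrix.of fun i j => ((A i j : ℚ) : ℂ)) *ᵥ
        (WithLp.toLp 2 (fun i => ((x i : ℚ) : ℂ)) : EuclideanSpace ℂ m).ofLp)).ofLp i
        = (((∑ j, A i j * x j : ℚ) : ℝ) : ℂ) := by
      simp [Matrix.mulVec, dotProduct]
    rw [this, Complex.norm_real, Real.norm_eq_abs, sq_abs]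
    push_cast; rfl
  have e2 : ∀ i, ‖(WithLp.toLp 2 (fun i => ((x i : ℚ) : ℂ)) : EuclideanSpace ℂ m).ofLp i‖ ^ 2
      = ((x i ^ 2 : ℚ) : ℝ) := by
    intro i
    have : (WithLp.toLp 2 (fun i => ((x i : ℚ) : ℂ)) : EuclideanSpace ℂ m).ofLp i
        = (((x i : ℚ) : ℝ) : ℂ) := by simp
    rw [this, Complex.norm_real, Real.norm_eq_abs, sq_abs]
    push_cast; rfl
  simp only [e1, e2] at h2
  have h3 : ((r ^ 2 * ∑ i, x i ^ 2 : ℚ) : ℝ) < ((∑ i, (∑ j, A i j * x j) ^ 2 : ℚ) : ℝ) := by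
    exact_mod_cast h
  rw [Rat.cast_mul, Rat.cast_sum, Rat.cast_sum, Rat.cast_pow] at h3
  have h4 : 0 ≤ ∑ i, ((x i ^ 2 : ℚ) : ℝ) :=
    Finset.sum_nonneg fun i _ => by exact_mod_cast sq_nonneg (x i)
  have h5 : ‖(Matrix.of fun i j => ((A i j : ℚ) : ℂ))‖ ^ 2 ≤ (r : ℝ) ^ 2 :=
    pow_le_pow_left₀ (norm_nonneg _) hc 2
  nlinarith [mul_le_mul_of_nonneg_right h5 h4]

lemma prod_unit {ι : Type} [Fintype ι] [DecidableEq ι] (W : ι → Matrix (Fin 2) (Fin 2) ℂ)
    (hW : ∀ i, W i ∈ Matrix.unitaryGroup (Fin 2) ℂ) :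
    (Matrix.of fun x y : ι → Fin 2 => ∏ i, W i (x i) (y i)) ∈
      Matrix.unitaryGroup (ι → Fin 2) ℂ := by
  rw [Matrix.mem_unitaryGroup_iff]
  ext x y
  have h : ∀ i, ∑ t, W i (x i) t * star (W i (y i) t) = if x i = y i then 1 else 0 := by
    intro i
    have := congrFun (congrFun (Matrix.mem_unitaryGroup_iff.1 (hW i)) (x i)) (y i)
    simpa [Matrix.mul_apply, Matrix.one_apply, Matrix.star_apply] using this
  simp only [Matrix.mul_apply, Matrix.star_apply, Matrix.of_apply, star_prod,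
    ← Finset.prod_mul_distrib]
  rw [← Fintype.piFinset_univ, ← Finset.prod_univ_sum (fun _ => Finset.univ)
    (fun i t => W i (x i) t * star (W i (y i) t))]
  simp only [h, Matrix.one_apply]
  by_cases hxy : x = y
  · simp [hxy]
  · obtain ⟨i, hi⟩ := Function.ne_iff.1 hxy
    rw [if_neg hxy]
    exact Finset.prod_eq_zero (Finset.mem_univ i) (if_neg hi)

lemma col_sum {ι : Type} [Fintype ι] [DecidableEq ι] (W : ι → Matrix (Fin 2) (Fin 2) ℂ)
    (hW : ∀ i, W i ∈ Matrix.unitaryGroup (Fin 2) ℂ) (x : ι → Fin 2) :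
    ∑ c : ι → Fin 2, (∏ i, W i (c i) (x i)) * star (∏ i, W i (c i) (x i)) = 1 := by
  have := congrFun (congrFun (Matrix.mem_unitaryGroup_iff'.1 (prod_unit W hW)) x) x
  simp only [Matrix.mul_apply, Matrix.star_apply, Matrix.of_apply, Matrix.one_apply_eq] at this
  rw [← this]
  exact Finset.sum_congr rfl fun c _ => mul_comm _ _

def marg (I : Finset (Fin 3)) (q : (Fin 3 → Fin 2) → ℝ) (a : {i // i ∈ I} → Fin 2) : ℝ :=
  ∑ x, if (fun i : {i // i ∈ I} => x i.1) = a then q x else 0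

lemma ptrace (I : Finset (Fin 3)) (W : Fin 3 → Matrix (Fin 2) (Fin 2) ℂ)
    (hW : ∀ i, W i ∈ Matrix.unitaryGroup (Fin 2) ℂ) (q : (Fin 3 → Fin 2) → ℝ) :
    (Matrix.of fun a b : {i // i ∈ I} → Fin 2 => ∑ c : {i // i ∉ I} → Fin 2,
      ((Matrix.of fun x y : Fin 3 → Fin 2 => ∏ i, W i (x i) (y i)) *
        Matrix.diagonal (fun x => ((q x : ℝ) : ℂ)) *
        star (Matrix.of fun x y : Fin 3 → Fin 2 => ∏ i, W i (x i) (y i)))
        (fun i => if h : i ∈ I then a ⟨i, h⟩ else c ⟨i, h⟩)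
        (fun i => if h : i ∈ I then b ⟨i, h⟩ else c ⟨i, h⟩)) =
    (Matrix.of fun x y : {i // i ∈ I} → Fin 2 => ∏ i, W i.1 (x i) (y i)) *
      Matrix.diagonal (fun a => ((marg I q a : ℝ) : ℂ)) *
      star (Matrix.of fun x y : {i // i ∈ I} → Fin 2 => ∏ i, W i.1 (x i) (y i)) := by
  ext a b
  have sp : ∀ (a : {i // i ∈ I} → Fin 2) (c : {i // i ∉ I} → Fin 2) (x : Fin 3 → Fin 2),
      ∏ i, W i (if h : i ∈ I then a ⟨i, h⟩ else c ⟨i, h⟩) (x i) =
      (∏ i : {i // i ∈ I}, W i.1 (a i) (x i.1)) * ∏ i : {i // i ∉ I}, W i.1 (c i) (x i.1) := by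
    intro a c x
    rw [← Fintype.prod_subtype_mul_prod_subtype (fun i => i ∈ I)]
    congr 1
    · exact Finset.prod_congr (by congr; exact Subsingleton.elim _ _) fun i _ => by
        rw [dif_pos i.2]
    · exact Finset.prod_congr rfl fun i _ => by rw [dif_neg i.2]
  simp only [Matrix.of_apply]
  simp only [Matrix.mul_apply (M := _ * _), Matrix.mul_diagonal, Matrix.star_apply,
    Matrix.of_apply, sp, marg, Complex.ofReal_sum, Finset.mul_sum, Finset.sum_mul]
  rw [Finset.sum_comm, Finset.sum_comm (s := (Finset.univ : Finset ({i // i ∈ I} → Fin 2)))]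
  refine Finset.sum_congr rfl fun x _ => ?_
  rw [Finset.sum_eq_single (fun i : {i // i ∈ I} => x i.1)]
  · rw [if_pos rfl]
    have := col_sum (fun i : {i // i ∉ I} => W i.1) (fun i => hW i.1) (fun i => x i.1)
    calc _ = ∑ c : {i // i ∉ I} → Fin 2, ((∏ i : {i // i ∈ I}, W i.1 (a i) (x i.1)) * (q x : ℂ) *
            star (∏ i : {i // i ∈ I}, W i.1 (b i) (x i.1))) *
            ((∏ i : {i // i ∉ I}, W i.1 (c i) (x i.1)) *
              star (∏ i : {i // i ∉ I}, W i.1 (c i) (x i.1))) := by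
          refine Finset.sum_congr rfl fun c _ => ?_
          rw [star_mul']; ring
      _ = _ := by rw [← Finset.mul_sum, this, mul_one]
  · intro a' _ h
    rw [if_neg (Ne.symm h)]; simp
  · intro h; exact absurd (Finset.mem_univ _) h

lemma qbound {m : Type} [Fintype m] [DecidableEq m] (U W : Matrix m m ℂ)
    (hU : U ∈ Matrix.unitaryGroup m ℂ) (hW : W ∈ Matrix.unitaryGroup m ℂ) (μ q : m → ℝ) (r : ℝ)
    (h0 : ∀ x, 0 ≤ μ x) (h1 : ∀ x, μ x ≤ r)
    (h : U * Matrix.diagonal (fun x => ((μ x : ℝ) : ℂ)) * star U =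
      W * Matrix.diagonal (fun x => ((q x : ℝ) : ℂ)) * star W) :
    (∀ x, 0 ≤ q x) ∧ (∀ x, q x ≤ r) ∧ ∑ x, q x = ∑ x, μ x := by
  set V := star W * U with hV
  have hVu : V ∈ Matrix.unitaryGroup m ℂ := mul_mem (Unitary.star_mem hW) hU
  have e : Matrix.diagonal (fun x => ((q x : ℝ) : ℂ)) =
      V * Matrix.diagonal (fun x => ((μ x : ℝ) : ℂ)) * star V := by
    have h1 := Matrix.mem_unitaryGroup_iff'.1 hW
    calc _ = (star W * W) * Matrix.diagonal (fun x => ((q x : ℝ) : ℂ)) * (star W * W) := by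
          rw [h1]; simp
      _ = star W * (W * Matrix.diagonal (fun x => ((q x : ℝ) : ℂ)) * star W) * W := by
          simp only [mul_assoc]
      _ = _ := by rw [← h, hV, star_mul, star_star]; simp only [mul_assoc]
  have hq : ∀ x, q x = ∑ y, ‖V x y‖ ^ 2 * μ y := by
    intro x
    have := congrFun (congrFun e x) x
    simp only [Matrix.mul_apply (M := _ * _), Matrix.mul_diagonal, Matrix.star_apply,
      Matrix.diagonal_apply_eq] at this
    apply Complex.ofReal_injective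
    rw [this]; push_cast
    refine Finset.sum_congr rfl fun y _ => ?_
    rw [← Complex.mul_conj']; simp only [Complex.star_def]; ring
  have hr : ∀ x, ∑ y, ‖V x y‖ ^ 2 = 1 := by
    intro x
    have := congrFun (congrFun (Matrix.mem_unitaryGroup_iff.1 hVu) x) x
    simp only [Matrix.mul_apply, Matrix.star_apply, Matrix.one_apply_eq] at this
    apply Complex.ofReal_injective
    push_cast; rw [← this]
    refine Finset.sum_congr rfl fun y _ => ?_
    rw [← Complex.mul_conj']; simp only [Complex.star_def]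
  have hc : ∀ y, ∑ x, ‖V x y‖ ^ 2 = 1 := by
    intro y
    have := congrFun (congrFun (Matrix.mem_unitaryGroup_iff'.1 hVu) y) y
    simp only [Matrix.mul_apply, Matrix.star_apply, Matrix.one_apply_eq] at this
    apply Complex.ofReal_injective
    push_cast; rw [← this]
    refine Finset.sum_congr rfl fun x _ => ?_
    rw [← Complex.mul_conj']; simp only [Complex.star_def]; ring
  refine ⟨fun x => ?_, fun x => ?_, ?_⟩
  · rw [hq]; exact Finset.sum_nonneg fun y _ => mul_nonneg (sq_nonneg _) (h0 y)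
  · rw [hq]
    calc _ ≤ ∑ y, ‖V x y‖ ^ 2 * r :=
          Finset.sum_le_sum fun y _ => mul_le_mul_of_nonneg_left (h1 y) (sq_nonneg _)
      _ = r := by rw [← Finset.sum_mul, hr, one_mul]
  · simp only [hq]
    rw [Finset.sum_comm]
    exact Finset.sum_congr rfl fun y _ => by rw [← Finset.sum_mul, hc, one_mul]

def enc (x : Fin 3 → Fin 2) : ℕ := (x 0).val + 2 * (x 1).val + 4 * (x 2).val

def tab : List (List ℤ) := [[-3, 0, -5, 8, 0, 0, 7, -7], [-2, 7, 6, 3, 7, 7, 0, 0],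
  [-2, -7, 6, 3, 7, -7, 0, 0], [2, 7, -6, -3, 7, -7, 0, 0], [9, 0, 1, 4, 0, 0, 7, 7],
  [2, -7, -6, -3, 7, 7, 0, 0], [-9, 0, -1, -4, 0, 0, 7, 7], [3, 0, 5, -8, 0, 0, 7, -7]]

def Uq (x y : Fin 3 → Fin 2) : ℚ := (((tab.getD (enc x) []).getD (enc y) 0 : ℤ) : ℚ) / 14

def pq (x : Fin 3 → Fin 2) : ℚ := if enc x < 3 then 1 / 3 else 0

def sq (x y : Fin 3 → Fin 2) : ℚ := ∑ z, Uq x z * pq z * Uq y z

def II (k : Fin 3) : Finset (Fin 3) := Finset.univ.erase k

def vq (k : Fin 3) (a : {i // i ∈ II k} → Fin 2) : ℚ :=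
  (([2, -3, 0, 2] : List ℤ).getD (2 * (a ⟨k + 1, by revert k; decide⟩).val +
    (a ⟨k + 2, by revert k; decide⟩).val) 0 : ℤ)

def red (k : Fin 3) (a b : {i // i ∈ II k} → Fin 2) : ℚ :=
  ∑ c : {i // i ∉ II k} → Fin 2, sq (fun i => if h : i ∈ II k then a ⟨i, h⟩ else c ⟨i, h⟩)
    (fun i => if h : i ∈ II k then b ⟨i, h⟩ else c ⟨i, h⟩)

lemma Uq_orth : ∀ x y, ∑ z, Uq x z * Uq y z = if x = y then 1 else 0 := by decide +kernel

lemma red_big : ∀ k, (5 / 9 : ℚ) ^ 2 * ∑ a, vq k a ^ 2 < ∑ a, (∑ b, red k a b * vq k b) ^ 2 := by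
  decide +kernel

lemma pq_facts : (∀ x, 0 ≤ pq x ∧ pq x ≤ 1 / 3) ∧ ∑ x, pq x = 1 := by decide +kernel

def wt (y : Fin 3 → Fin 3 → Fin 2) (x : Fin 3 → Fin 2) : ℕ :=
  ∑ k, if ∀ i, i ≠ k → x i = y k i then 1 else 0

lemma wt_le : ∀ y, ∑ x, (wt y x - 1) ≤ 2 := by decide +kernel

lemma sum_II (g : Finset (Fin 3) → ℝ) :
    ∑ I : Finset (Fin 3), (if I.card = 2 then g I else 0) = ∑ k, g (II k) := by
  rw [← Finset.sum_filter]
  have : (Finset.univ.filter fun I : Finset (Fin 3) => I.card = 2) = Finset.univ.image II := by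
    decide
  rw [this, Finset.sum_image]
  intro a _ b _ h
  revert a b; decide

lemma classical_le (q : (Fin 3 → Fin 2) → ℝ) (h0 : ∀ x, 0 ≤ q x) (h1 : ∀ x, q x ≤ 1 / 3)
    (hs : ∑ x, q x = 1) (a : (k : Fin 3) → {i // i ∈ II k} → Fin 2) :
    ∑ k, marg (II k) q (a k) ≤ 5 / 3 := by
  let y : Fin 3 → Fin 3 → Fin 2 := fun k i => if h : i ∈ II k then a k ⟨i, h⟩ else 0
  have e : ∑ k, marg (II k) q (a k) = ∑ x, (wt y x : ℝ) * q x := by
    unfold marg wt
    rw [Finset.sum_comm]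
    refine Finset.sum_congr rfl fun x _ => ?_
    push_cast
    rw [Finset.sum_mul]
    refine Finset.sum_congr rfl fun k _ => ?_
    have : ((fun i : {i // i ∈ II k} => x i.1) = a k) ↔ ∀ i, i ≠ k → x i = y k i := by
      constructor
      · intro h i hi
        have hi' : i ∈ II k := Finset.mem_erase.2 ⟨hi, Finset.mem_univ _⟩
        simp only [y, dif_pos hi', ← h]
      · intro h
        funext i
        have hi : i.1 ≠ k := Finset.ne_of_mem_erase (s := Finset.univ) i.2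
        rw [h i.1 hi]; simp only [y, dif_pos i.2]
    by_cases hc : ∀ i, i ≠ k → x i = y k i
    · rw [if_pos (this.2 hc), if_pos hc, one_mul]
    · rw [if_neg (fun h => hc (this.1 h)), if_neg hc, zero_mul]
  rw [e]
  have hb : ∀ x, (wt y x : ℝ) * q x ≤ q x + ((wt y x - 1 : ℕ) : ℝ) * (1 / 3) := by
    intro x
    have h2 : (wt y x : ℝ) ≤ 1 + ((wt y x - 1 : ℕ) : ℝ) := by
      have : wt y x ≤ 1 + (wt y x - 1) := by omega
      exact_mod_cast this
    have h3 : (0 : ℝ) ≤ ((wt y x - 1 : ℕ) : ℝ) := Nat.cast_nonneg _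
    nlinarith [h0 x, h1 x]
  have h4 : (∑ x, ((wt y x - 1 : ℕ) : ℝ)) ≤ 2 := by exact_mod_cast wt_le y
  calc _ ≤ ∑ x, (q x + ((wt y x - 1 : ℕ) : ℝ) * (1 / 3)) := Finset.sum_le_sum fun x _ => hb x
    _ = 1 + (∑ x, ((wt y x - 1 : ℕ) : ℝ)) * (1 / 3) := by
        rw [Finset.sum_add_distrib, hs, Finset.sum_mul]
    _ ≤ _ := by linarith

lemma conv_states {m : Type} [Fintype m] [DecidableEq m] :
    Convex ℝ {ρ : Matrix m m ℂ | ρ.PosSemidef ∧ ρ.trace = 1} := by
  intro x hx y hy a b ha hb hab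
  refine ⟨(hx.1.smul ha).add (hy.1.smul hb), ?_⟩
  rw [Matrix.trace_add, Matrix.trace_smul, Matrix.trace_smul, hx.2, hy.2, ← add_smul, hab, one_smul]

/-- The negation of the preceding statement: For continuous, convex, unitarily invariant f_I on subsystem states, some state with spectrum majorized by p, diagonal in a product of local bases, maximizes the sum over all I of f_I of its reduced states. -/
theorem result :
    ¬ (∀ (n : ℕ) (d : Fin n → ℕ) (p : ((i : Fin n) → Fin (d i)) → ℝ)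
      (f : (I : Finset (Fin n)) →
        Matrix ((i : {i // i ∈ I}) → Fin (d i.1)) ((i : {i // i ∈ I}) → Fin (d i.1)) ℂ → ℝ),
      (∀ x, 0 ≤ p x) → ∑ x, p x = 1 →
      (∀ I : Finset (Fin n), ContinuousOn (f I)
        {ρ : Matrix ((i : {i // i ∈ I}) → Fin (d i.1)) ((i : {i // i ∈ I}) → Fin (d i.1)) ℂ |
          ρ.PosSemidef ∧ ρ.trace = 1}) →
      (∀ I : Finset (Fin n), ConvexOn ℝ
        {ρ : Matrix ((i : {i // i ∈ I}) → Fin (d i.1)) ((i : {i // i ∈ I}) → Fin (d i.1)) ℂ |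
          ρ.PosSemidef ∧ ρ.trace = 1} (f I)) →
      (∀ I : Finset (Fin n),
        ∀ U ∈ Matrix.unitaryGroup ((i : {i // i ∈ I}) → Fin (d i.1)) ℂ,
        ∀ ρ : Matrix ((i : {i // i ∈ I}) → Fin (d i.1)) ((i : {i // i ∈ I}) → Fin (d i.1)) ℂ,
          ρ.PosSemidef → ρ.trace = 1 → f I (U * ρ * star U) = f I ρ) →
      ∃ τ : Matrix ((i : Fin n) → Fin (d i)) ((i : Fin n) → Fin (d i)) ℂ,
        (∃ U ∈ Matrix.unitaryGroup ((i : Fin n) → Fin (d i)) ℂ,
          ∃ D ∈ doublyStochastic ℝ ((i : Fin n) → Fin (d i)),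
            τ = U * Matrix.diagonal (fun x => (((D *ᵥ p) x : ℝ) : ℂ)) * star U) ∧
        (∃ W : (i : Fin n) → Matrix (Fin (d i)) (Fin (d i)) ℂ,
          (∀ i, W i ∈ Matrix.unitaryGroup (Fin (d i)) ℂ) ∧
          ∃ q : ((i : Fin n) → Fin (d i)) → ℝ,
            τ = Matrix.of (fun x y => ∏ i, W i (x i) (y i)) *
                Matrix.diagonal (fun x => ((q x : ℝ) : ℂ)) *
                star (Matrix.of (fun x y => ∏ i, W i (x i) (y i)))) ∧
        ∀ σ : Matrix ((i : Fin n) → Fin (d i)) ((i : Fin n) → Fin (d i)) ℂ,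
          (∃ U ∈ Matrix.unitaryGroup ((i : Fin n) → Fin (d i)) ℂ,
            ∃ D ∈ doublyStochastic ℝ ((i : Fin n) → Fin (d i)),
              σ = U * Matrix.diagonal (fun x => (((D *ᵥ p) x : ℝ) : ℂ)) * star U) →
          ∑ I : Finset (Fin n), f I (Matrix.of fun a b =>
              ∑ c : ((i : {i // i ∉ I}) → Fin (d i.1)),
                σ (fun i => if h : i ∈ I then a ⟨i, h⟩ else c ⟨i, h⟩)
                  (fun i => if h : i ∈ I then b ⟨i, h⟩ else c ⟨i, h⟩))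
          ≤ ∑ I : Finset (Fin n), f I (Matrix.of fun a b =>
              ∑ c : ((i : {i // i ∉ I}) → Fin (d i.1)),
                τ (fun i => if h : i ∈ I then a ⟨i, h⟩ else c ⟨i, h⟩)
                  (fun i => if h : i ∈ I then b ⟨i, h⟩ else c ⟨i, h⟩))) := by
  intro H
  obtain ⟨τ, ⟨U, hU, D, hD, hτ⟩, ⟨W, hW, q, hτ'⟩, hmax⟩ := H 3 (fun _ => 2) (fun x => (pq x : ℝ))
    (fun I ρ => if I.card = 2 then opn ρ else 0)
    (fun x => by exact_mod_cast (pq_facts.1 x).1) (by exact_mod_cast pq_facts.2)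
    (fun I => by
      split_ifs
      · exact opn_cont.continuousOn
      · exact continuousOn_const)
    (fun I => by
      split_ifs
      · exact opn_conv _ conv_states
      · exact convexOn_const _ conv_states)
    (fun I U hU ρ _ _ => by
      split_ifs
      · exact opn_unit U ρ hU
      · rfl)
  have hp0 : ∀ x, (0 : ℝ) ≤ pq x := fun x => by exact_mod_cast (pq_facts.1 x).1
  have hp1 : ∀ x, (pq x : ℝ) ≤ 1 / 3 := fun x => by
    have := (Rat.cast_le (K := ℝ)).2 (pq_facts.1 x).2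
    simpa using this
  have hps : ∑ x, (pq x : ℝ) = 1 := by exact_mod_cast pq_facts.2
  obtain ⟨hq0, hq1, hqs⟩ := qbound U _ hU (prod_unit W hW) (D *ᵥ fun x => (pq x : ℝ)) q (1 / 3)
    (fun x => by
      show 0 ≤ ∑ y, D x y * (pq y : ℝ)
      exact Finset.sum_nonneg fun y _ => mul_nonneg (nonneg_of_mem_doublyStochastic hD) (hp0 y))
    (fun x => by
      show ∑ y, D x y * (pq y : ℝ) ≤ _
      calc _ ≤ ∑ y, D x y * (1 / 3) := Finset.sum_le_sum fun y _ =>
            mul_le_mul_of_nonneg_left (hp1 y) (nonneg_of_mem_doublyStochastic hD)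
        _ = _ := by rw [← Finset.sum_mul, sum_row_of_mem_doublyStochastic hD, one_mul])
    (hτ.symm.trans hτ')
  have hqs' : ∑ x, q x = 1 := by
    rw [hqs, ← hps]
    simp only [Matrix.mulVec, dotProduct]
    rw [Finset.sum_comm]
    exact Finset.sum_congr rfl fun y _ => by
      rw [← Finset.sum_mul, sum_col_of_mem_doublyStochastic hD, one_mul]
  have key := hmax (Matrix.of fun x y => ((sq x y : ℚ) : ℂ))
    ⟨Matrix.of fun x y => ((Uq x y : ℚ) : ℂ), by
      rw [Matrix.mem_unitaryGroup_iff]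
      ext x y
      have := congrArg (fun t : ℚ => (t : ℂ)) (Uq_orth x y)
      simp only [Matrix.mul_apply, Matrix.star_apply, Matrix.of_apply, Matrix.one_apply]
      push_cast at this
      simpa [apply_ite (fun t : ℚ => (t : ℂ))] using this,
    1, one_mem _, by
      ext x y
      simp only [Matrix.mul_apply (M := _ * _), Matrix.mul_diagonal, Matrix.star_apply,
        Matrix.of_apply, Matrix.one_mulVec, sq]
      push_cast
      simp⟩
  rw [sum_II (fun I => opn (Matrix.of fun a b : {i // i ∈ I} → Fin 2 =>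
      ∑ c : {i // i ∉ I} → Fin 2, (Matrix.of fun x y => ((sq x y : ℚ) : ℂ))
        (fun i => if h : i ∈ I then a ⟨i, h⟩ else c ⟨i, h⟩)
        (fun i => if h : i ∈ I then b ⟨i, h⟩ else c ⟨i, h⟩))),
    sum_II (fun I => opn (Matrix.of fun a b : {i // i ∈ I} → Fin 2 =>
      ∑ c : {i // i ∉ I} → Fin 2, τ
        (fun i => if h : i ∈ I then a ⟨i, h⟩ else c ⟨i, h⟩)
        (fun i => if h : i ∈ I then b ⟨i, h⟩ else c ⟨i, h⟩)))] at key
  have hmx : ∀ k, ∃ a0 : {i // i ∈ II k} → Fin 2, ∀ a, marg (II k) q a ≤ marg (II k) q a0 :=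
    fun k => Finite.exists_max _
  choose a0 ha0 using hmx
  have hm0 : ∀ k a, 0 ≤ marg (II k) q a := fun k a =>
    Finset.sum_nonneg fun x _ => by split_ifs; exacts [hq0 x, le_rfl]
  have up := (key.trans (Finset.sum_le_sum fun k _ => by
    rw [hτ', ptrace (II k) W hW q, opn_unit _ _ (prod_unit (fun i : {i // i ∈ II k} => W i.1)
      (fun i => hW i.1))]
    exact opn_diag _ _ (hm0 k (a0 k)) (hm0 k) (ha0 k))).trans (classical_le q hq0 hq1 hqs' a0)
  have lo : ∀ k, (5 / 9 : ℝ) < opn (Matrix.of fun a b : {i // i ∈ II k} → Fin 2 =>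
      ∑ c : {i // i ∉ II k} → Fin 2, (Matrix.of fun x y => ((sq x y : ℚ) : ℂ))
        (fun i => if h : i ∈ II k then a ⟨i, h⟩ else c ⟨i, h⟩)
        (fun i => if h : i ∈ II k then b ⟨i, h⟩ else c ⟨i, h⟩)) := by
    intro k
    have := opn_lower (red k) (vq k) (5 / 9) (red_big k)
    simp only [red, Rat.cast_sum] at this
    simp only [Matrix.of_apply]
    norm_num at this ⊢
    exact this
  rw [Fin.sum_univ_three] at up
  linarith [lo 0, lo 1, lo 2]

end Pool.Agent.S15688
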