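import Pool.Statements.S15734
import Pool.Agent.Lib.helper33.BorgSpec

set_option autoImplicit false
open Pool Pool.MP_64ae42_mp

namespace Pool.Agent.S15734
open Pool.Agent.Lib.helper33.BorgTree Pool.Agent.Lib.helper33.BorgSpec

lemma adj_iff (x y : SS) (d : D) : (y.1 = x.1 ++ [d] ∨ x.1 = y.1 ++ [d]) ↔
    (y = m d.2 x ∧ d.1 = if par x = some d.2 then step (lab x) d.2 else lab x) := by
  constructor
  · rintro (h | h)
    · obtain ⟨-, h2, h3⟩ := (mem_concat _ _).1 (h ▸ y.2)
      rw [if_neg (show ¬ par x = some d.2 from h3)]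
      exact ⟨Subtype.ext (by rw [m_down h3, h, lab, ← h2]), h2⟩
    · obtain ⟨-, h2, h3⟩ := (mem_concat _ _).1 (h ▸ x.2)
      obtain rfl : x = m d.2 y := Subtype.ext (by rw [m_down h3, h, lab, ← h2])
      rw [mm, if_pos (par_down h3), lab_m, step_step]
      exact ⟨rfl, h2⟩
  · rintro ⟨rfl, h⟩
    by_cases hp : par x = some d.2
    · have := m_down (up hp).1
      rw [if_pos hp] at h
      rw [mm, lab_m, ← h] at this
      exact Or.inr this
    · rw [if_neg hp] at h
      exact Or.inl (by rw [m_down hp, ← h])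

lemma coef (x y : SS) :
    (∑ d : D, if (y.1 = x.1 ++ [d] ∨ x.1 = y.1 ++ [d]) then ((1 : ℝ) : ℂ) else 0) =
      ∑ j, if y = m j x then 1 else 0 := by
  rw [Fintype.sum_prod_type_right]
  refine Finset.sum_congr rfl fun j _ => ?_
  simp only [adj_iff, ite_and]
  split_ifs <;> simp

/-- The negation of the preceding statement: Lift a Jacobi matrix (positive symmetric edge weights, potential b) on a finite connected graph to its universal cover tree; if the lifted operator on l2 of the tree has connected spectrum, then b is constant. -/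
theorem result :
    ¬ (∀ (V D : Type) [Fintype V] [Fintype D] [DecidableEq D] (src : D → V) (rev : D → D),
    (∀ d, rev (rev d) = d) → (∀ d, rev d ≠ d) →
    (SimpleGraph.fromRel (fun u v : V => ∃ d, src d = u ∧ src (rev d) = v)).Connected →
    ∀ (a : D → ℝ) (b : V → ℝ), (∀ d, 0 < a d) → (∀ d, a (rev d) = a d) →
    ∀ (v0 : V) (S : Set (List D)),
      (∀ l : List D, l ∈ S ↔ ((∀ d ∈ l.head?, src d = v0) ∧
         ∀ (i : ℕ) (d e : D), l[i]? = some d → l[i+1]? = some e →
           (src e = src (rev d) ∧ e ≠ rev d))) →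
    ∀ H : lp (fun _ : S => ℂ) 2 →L[ℂ] lp (fun _ : S => ℂ) 2,
      (∀ (f : lp (fun _ : S => ℂ) 2) (x : S),
        H f x = (b ((x.1.getLast?.map (fun d => src (rev d))).getD v0) : ℂ) * f x +
          ∑' y : S, (∑ d : D, if (y.1 = x.1 ++ [d] ∨ x.1 = y.1 ++ [d]) then (a d : ℂ) else 0) * f y) →
      IsPreconnected (spectrum ℂ H) → ∀ u v : V, b u = b v) := by
  intro h
  obtain ⟨H, hH⟩ := exists_H
  have := h K D Prod.fst rev (by decide) (by decide) (by
      have : (SimpleGraph.fromRel (fun u v : K => ∃ d : D, d.1 = u ∧ (rev d).1 = v)) = ⊤ := by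
        ext u v
        rw [SimpleGraph.fromRel_adj, SimpleGraph.top_adj]
        revert u v
        decide
      rw [this]
      exact SimpleGraph.connected_top)
    (fun _ => 1) b (fun _ => one_pos) (fun _ => rfl) 1 SS (fun _ => Iff.rfl) H
    (fun f x => by
      rw [hH]
      congr 1
      simp only [coef, Finset.sum_mul, ite_mul, one_mul, zero_mul]
      exact ((hasSum_sum fun j _ => by
        simpa using hasSum_single (f := fun y => if y = m j x then f y else 0) (m j x)
          fun y hy => if_neg hy).tsum_eq).symm)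
    (preconnected hH) 0 1
  norm_num [b] at this

end Pool.Agent.S15734
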