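-- Proof of the frozen statement S15772 (negation of the problem MP_a47312_mp): g = 6, Δ = 32, parity -1.
import Pool.Statements.S15772

set_option autoImplicit false
open Pool Pool.MP_a47312_mp

namespace Pool.Agent.S15772

def cf (k : ℕ) : ℤ := 2 * k - 64 * (-1) ^ k + 72

/-- The forward recurrence in the variable `y = 2 (e + 36)`. -/
def Q {R : Type} [CommRing R] (y : R) : ℕ → R × R
  | 0 => (1, 8 - y)
  | k + 1 => ((Q y k).2, ((cf (k + 1) : ℤ) - y) * (Q y k).2 - 144 * ((k + 1 : ℕ) : R) * (Q y k).1)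

theorem Q_cast (y : ℤ) (k : ℕ) :
    (Q (y : ℝ) k).1 = ((Q y k).1 : ℤ) ∧ (Q (y : ℝ) k).2 = ((Q y k).2 : ℤ) := by
  induction k with
  | zero => simp [Q]
  | succ k ih => simp [Q, ih.1, ih.2]

noncomputable def q (y : ℝ) (k : ℕ) : ℝ := (Q y k).1

theorem q_succ (y : ℝ) (k : ℕ) : q y (k + 1) = (Q y k).2 := rfl

theorem q_rec (y : ℝ) (k : ℕ) :
    q y (k + 2) = ((cf (k + 1) : ℤ) - y) * q y (k + 1) - 144 * ((k + 1 : ℕ) : ℝ) * q y k := rfl

theorem Q_cont (k : ℕ) : Continuous (fun y : ℝ => (Q y k).1) ∧ Continuous (fun y : ℝ => (Q y k).2) := by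
  induction k with
  | zero => simp only [Q]; constructor <;> fun_prop
  | succ k ih =>
    obtain ⟨h1, h2⟩ := ih
    simp only [Q]
    constructor <;> fun_prop

theorem q_cont (k : ℕ) : Continuous (fun y => q y k) := (Q_cont k).1

def Esc (σ y : ℝ) : Prop := ∃ k, 150 ≤ k ∧ 144 * |q y k| < σ * q y (k + 1)

theorem Esc_open (σ : ℝ) : IsOpen {y | Esc σ y} := by
  have : {y | Esc σ y} = ⋃ k, ⋃ (_ : 150 ≤ k), {y | 144 * |q y k| < σ * q y (k + 1)} := by
    ext y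
    simp [Esc]
  rw [this]
  refine isOpen_iUnion fun k => isOpen_iUnion fun _ => isOpen_lt ?_ ?_
  · have := q_cont k
    fun_prop
  · have := q_cont (k + 1)
    fun_prop

theorem cf_ge (k : ℕ) : 2 * (k : ℝ) + 8 ≤ (cf k : ℤ) := by
  unfold cf
  push_cast
  rcases neg_one_pow_eq_or ℝ k with h | h <;> rw [h] <;> linarith

theorem persist (σ y : ℝ) (hσ : σ = 1 ∨ σ = -1) (hy : y ≤ 8) (k : ℕ) (hk : 150 ≤ k)
    (h : 144 * |q y k| < σ * q y (k + 1)) : 144 * |q y (k + 1)| < σ * q y (k + 2) := by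
  have h0 : 0 < σ * q y (k + 1) := lt_of_le_of_lt (by positivity) h
  have h1 : |q y (k + 1)| = σ * q y (k + 1) := by
    rcases hσ with rfl | rfl
    · rw [one_mul] at h0 ⊢
      exact abs_of_pos h0
    · rw [neg_one_mul] at h0 ⊢
      exact abs_of_neg (by linarith)
  have h2 : σ * q y k ≤ |q y k| := by
    rcases hσ with rfl | rfl
    · rw [one_mul]; exact le_abs_self _
    · rw [neg_one_mul]; exact neg_le_abs _
  have h3 := cf_ge (k + 1)
  have h4 : (150 : ℝ) ≤ k := by exact_mod_cast hk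
  rw [q_rec, h1]
  push_cast at h3 ⊢
  generalize ((cf (k + 1) : ℤ) : ℝ) = c at *
  have e : σ * ((c - y) * q y (k + 1) - 144 * ((k : ℝ) + 1) * q y k) =
      (c - y) * (σ * q y (k + 1)) - ((k : ℝ) + 1) * (144 * (σ * q y k)) := by ring
  rw [e]
  generalize σ * q y (k + 1) = A at *
  generalize σ * q y k = B at *
  have h5 : ((k : ℝ) + 1) * (144 * B) ≤ ((k : ℝ) + 1) * A :=
    mul_le_mul_of_nonneg_left (by linarith) (by linarith)
  nlinarith

theorem persist' (σ y : ℝ) (hσ : σ = 1 ∨ σ = -1) (hy : y ≤ 8) (k : ℕ) (hk : 150 ≤ k)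
    (h : 144 * |q y k| < σ * q y (k + 1)) (j : ℕ) (hj : k ≤ j) :
    144 * |q y j| < σ * q y (j + 1) := by
  induction j, hj using Nat.le_induction with
  | base => exact h
  | succ j hj ih => exact persist σ y hσ hy j (hk.trans hj) ih

theorem not_both (y : ℝ) (hy : y ≤ 8) : Esc 1 y → Esc (-1) y → False := by
  rintro ⟨k, hk, h⟩ ⟨j, hj, h'⟩
  have a := persist' 1 y (Or.inl rfl) hy k hk h (max k j) (le_max_left _ _)
  have b := persist' (-1) y (Or.inr rfl) hy j hj h' (max k j) (le_max_right _ _)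
  have := abs_nonneg (q y (max k j))
  linarith

noncomputable def w : ℕ → ℝ
  | 0 => 1
  | k + 1 => - w k / (12 * Real.sqrt ((k : ℝ) + 1))

def Eig (e : ℝ) : Prop := ∃ u : ℕ → ℝ, u ≠ 0 ∧ Summable (fun k => u k ^ 2) ∧
  ∀ k : ℕ, ((k : ℝ) + (-1) * (-1 : ℝ) ^ k * 32) * u k
    + 6 * (Real.sqrt (k : ℝ) * u (k - 1) + Real.sqrt ((k : ℝ) + 1) * u (k + 1)) = e * u k

theorem eig_of (y : ℝ) (h1 : ¬ Esc 1 y) (h2 : ¬ Esc (-1) y) : Eig (y / 2 - 36) := by
  have hs : ∀ k : ℕ, 0 < Real.sqrt ((k : ℝ) + 1) := fun k => Real.sqrt_pos.2 (by positivity)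
  have hs2 : ∀ k : ℕ, Real.sqrt ((k : ℝ) + 1) ^ 2 = k + 1 := fun k => Real.sq_sqrt (by positivity)
  have hw : ∀ k : ℕ, w k = -12 * Real.sqrt ((k : ℝ) + 1) * w (k + 1) := by
    intro k
    have := hs k
    simp only [w]
    field_simp
  refine ⟨fun k => q y k * w k, ?_, ?_, ?_⟩
  · intro h
    have := congrFun h 0
    simp [q, Q, w] at this
  · apply summable_of_ratio_norm_eventually_le (r := 144 / 151) (by norm_num)
    filter_upwards [Filter.eventually_ge_atTop 150] with k hk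
    have a1 : ¬ 144 * |q y k| < 1 * q y (k + 1) := fun h => h1 ⟨k, hk, h⟩
    have a2 : ¬ 144 * |q y k| < -1 * q y (k + 1) := fun h => h2 ⟨k, hk, h⟩
    have a3 : q y (k + 1) ^ 2 ≤ (144 * |q y k|) ^ 2 := by
      apply sq_le_sq'
      · linarith
      · linarith
    rw [mul_pow, sq_abs] at a3
    have a4 : w k ^ 2 = 144 * ((k : ℝ) + 1) * w (k + 1) ^ 2 := by
      rw [hw k, mul_pow, mul_pow, hs2]
      ring
    have h4 : (150 : ℝ) ≤ k := by exact_mod_cast hk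
    rw [Real.norm_of_nonneg (sq_nonneg _), Real.norm_of_nonneg (sq_nonneg _), mul_pow, mul_pow, a4]
    have a5 := sq_nonneg (w (k + 1))
    have a6 := sq_nonneg (q y k)
    have a7 := mul_le_mul_of_nonneg_right a3 a5
    have a8 : 0 ≤ ((k : ℝ) - 150) * (q y k ^ 2 * w (k + 1) ^ 2) :=
      mul_nonneg (by linarith) (mul_nonneg a6 a5)
    nlinarith
  · intro k
    rcases k with _ | k
    · have := hw 0
      simp [q, Q, w]
      ring
    · have e1 := hw k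
      have e2 := hw (k + 1)
      have e3 := hs2 k
      have e4 := q_rec y k
      simp only [cf] at e4
      simp only [Nat.add_sub_cancel]
      push_cast at e2 e4 ⊢
      have e5 : Real.sqrt ((k : ℝ) + 1 + 1) * (q y (k + 1 + 1) * w (k + 1 + 1)) =
          - q y (k + 2) * w (k + 1) / 12 := by
        rw [e2]
        ring
      have e6 : Real.sqrt ((k : ℝ) + 1) * (q y k * w k) = -12 * (k + 1) * q y k * w (k + 1) := by
        rw [e1]
        linear_combination (-12 * q y k * w (k + 1)) * e3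
      rw [e5, e6, e4]
      ring

theorem exists_eig (a b : ℝ) (hab : a ≤ b) (hb : b ≤ 8) (σ : ℝ) (hσ : σ = 1 ∨ σ = -1)
    (h1 : Esc σ a) (h2 : Esc (-σ) b) : ∃ y, a < y ∧ y < b ∧ Eig (y / 2 - 36) := by
  have key : ∃ y ∈ Set.Icc a b, ¬ Esc σ y ∧ ¬ Esc (-σ) y := by
    by_contra hn
    obtain ⟨y, hy, h3, h4⟩ := isPreconnected_Icc (a := a) (b := b) _ _ (Esc_open σ) (Esc_open (-σ))
      (fun y hy => by
        by_contra hc
        exact hn ⟨y, hy, fun h => hc (Or.inl h), fun h => hc (Or.inr h)⟩)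
      ⟨a, ⟨le_rfl, hab⟩, h1⟩ ⟨b, ⟨hab, le_rfl⟩, h2⟩
    rcases hσ with rfl | rfl
    · exact not_both y (hy.2.trans hb) h3 h4
    · exact not_both y (hy.2.trans hb) (by simpa using h4) h3
  obtain ⟨y, hy, h3, h4⟩ := key
  refine ⟨y, lt_of_le_of_ne hy.1 ?_, lt_of_le_of_ne hy.2 ?_, ?_⟩
  · rintro rfl
    exact h3 h1
  · rintro rfl
    exact h4 h2
  · rcases hσ with rfl | rfl
    · exact eig_of y h3 h4
    · exact eig_of y (by simpa using h4) h3

theorem esc_int' (σ y : ℤ) (k : ℕ) (hk : 150 ≤ k) (h : 144 * |(Q y k).1| < σ * (Q y k).2) :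
    Esc σ y := by
  refine ⟨k, hk, ?_⟩
  rw [q_succ (y : ℝ) k, (Q_cast y k).2, q, (Q_cast y k).1]
  exact_mod_cast h

theorem esc_int (σ y : ℤ) (h : 144 * |(Q y 150).1| < σ * (Q y 150).2) : Esc σ y :=
  esc_int' σ y 150 le_rfl h

theorem c4 : 144 * |(Q (4 : ℤ) 150).1| < (-1) * (Q (4 : ℤ) 150).2 := by decide +kernel
theorem c5 : 144 * |(Q (5 : ℤ) 150).1| < 1 * (Q (5 : ℤ) 150).2 := by decide +kernel
theorem c6 : 144 * |(Q (6 : ℤ) 150).1| < (-1) * (Q (6 : ℤ) 150).2 := by decide +kernel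
theorem c7 : 144 * |(Q (7 : ℤ) 150).1| < 1 * (Q (7 : ℤ) 150).2 := by decide +kernel
theorem c8 : 144 * |(Q (8 : ℤ) 150).1| < (-1) * (Q (8 : ℤ) 150).2 := by decide +kernel

theorem two_le {S : Set ℝ} {a b : ℝ} (ha : a ∈ S) (hb : b ∈ S) (hab : a ≠ b) (h : S.encard ≤ 2) :
    S.encard = 2 := by
  refine le_antisymm h ?_
  rw [← Set.encard_pair hab]
  exact Set.encard_le_encard (by rintro x (rfl | rfl) <;> assumption)

/-- The negation of the preceding statement: For g, Δ > 0 and each parity sector of the Rabi model, written as a Jacobi matrix on ℓ²(ℕ), each [n,n+1) with n ≥ 0 holds 0, 1 or 2 shifted eigenvalues e+g², and no two adjacent intervals both hold 2 or both hold 0. -/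
theorem result :
    ¬ (∀ g Δ : ℝ, 0 < g → 0 < Δ → ∀ s : ℝ, (s = 1 ∨ s = -1) →
    ∀ E : Set ℝ,
      E = {e : ℝ | ∃ u : ℕ → ℝ, u ≠ 0 ∧ Summable (fun k => u k ^ 2) ∧
            ∀ k : ℕ, ((k : ℝ) + s * (-1 : ℝ) ^ k * Δ) * u k
              + g * (Real.sqrt (k : ℝ) * u (k - 1) + Real.sqrt ((k : ℝ) + 1) * u (k + 1))
              = e * u k} →
    ∀ n : ℕ,
      ({e : ℝ | e ∈ E ∧ (n : ℝ) ≤ e + g ^ 2 ∧ e + g ^ 2 < (n : ℝ) + 1}).encard ≤ 2 ∧
      ¬ (({e : ℝ | e ∈ E ∧ (n : ℝ) ≤ e + g ^ 2 ∧ e + g ^ 2 < (n : ℝ) + 1}).encard = 2 ∧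
         ({e : ℝ | e ∈ E ∧ ((n + 1 : ℕ) : ℝ) ≤ e + g ^ 2 ∧ e + g ^ 2 < ((n + 1 : ℕ) : ℝ) + 1}).encard = 2) ∧
      ¬ (({e : ℝ | e ∈ E ∧ (n : ℝ) ≤ e + g ^ 2 ∧ e + g ^ 2 < (n : ℝ) + 1}).encard = 0 ∧
         ({e : ℝ | e ∈ E ∧ ((n + 1 : ℕ) : ℝ) ≤ e + g ^ 2 ∧ e + g ^ 2 < ((n + 1 : ℕ) : ℝ) + 1}).encard = 0)) := by
  intro hall
  have h := hall 6 32 (by norm_num) (by norm_num) (-1) (Or.inr rfl) {e | Eig e} rfl
  have e4 : Esc (-1) 4 := by simpa using esc_int _ _ c4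
  have e5 : Esc 1 5 := by simpa using esc_int _ _ c5
  have e6 : Esc (-1) 6 := by simpa using esc_int _ _ c6
  have e7 : Esc 1 7 := by simpa using esc_int _ _ c7
  have e8 : Esc (-1) 8 := by simpa using esc_int _ _ c8
  obtain ⟨y1, a1, b1, g1⟩ := exists_eig 4 5 (by norm_num) (by norm_num) (-1) (by simp) e4
    (by simpa using e5)
  obtain ⟨y2, a2, b2, g2⟩ := exists_eig 5 6 (by norm_num) (by norm_num) 1 (by simp) e5
    (by simpa using e6)
  obtain ⟨y3, a3, b3, g3⟩ := exists_eig 6 7 (by norm_num) (by norm_num) (-1) (by simp) e6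
    (by simpa using e7)
  obtain ⟨y4, a4, b4, g4⟩ := exists_eig 7 8 (by norm_num) (by norm_num) 1 (by simp) e7
    (by simpa using e8)
  refine (h 2).2.1 ⟨two_le (a := y1 / 2 - 36) (b := y2 / 2 - 36) ⟨g1, ?_, ?_⟩ ⟨g2, ?_, ?_⟩
    (by linarith) (h 2).1, two_le (a := y3 / 2 - 36) (b := y4 / 2 - 36) ⟨g3, ?_, ?_⟩ ⟨g4, ?_, ?_⟩
    (by linarith) (h 3).1⟩ <;> push_cast <;> linarith

end Pool.Agent.S15772
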