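import Pool.Statements.S15847

set_option autoImplicit false
open Pool Pool.MP_01cdf7_nt

namespace Pool.Agent.S15847

open Finset Filter Topology

def s (p a : ℕ) : ℕ := ∑ i ∈ range (a + 1), p ^ i

noncomputable def g (p a : ℕ) : ℝ := (s p a : ℝ) / (p : ℝ) ^ a

theorem s_mul (p a : ℕ) (hp : 1 ≤ p) : s p a * (p - 1) + 1 = p ^ (a + 1) := by
  obtain ⟨q, rfl⟩ : ∃ q, p = q + 1 := ⟨p - 1, by omega⟩
  induction a with
  | zero => simp [s]
  | succ a ih =>
    have : s (q + 1) (a + 1) = s (q + 1) a + (q + 1) ^ (a + 1) := by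
      simp [s, sum_range_succ]
    rw [this]
    simp only [Nat.add_sub_cancel] at ih ⊢
    rw [pow_succ (q + 1) (a + 1)]
    nlinarith

theorem s_mul' (p a : ℕ) (hp : 1 ≤ p) : (s p a : ℝ) * ((p : ℝ) - 1) + 1 = (p : ℝ) ^ (a + 1) := by
  have := s_mul p a hp
  have h2 : ((s p a * (p - 1) + 1 : ℕ) : ℝ) = ((p ^ (a + 1) : ℕ) : ℝ) := by rw [this]
  push_cast [Nat.cast_sub hp] at h2
  exact h2

theorem g_eq (p a : ℕ) (hp : 2 ≤ p) : g p a = ((p : ℝ) - (1 / (p : ℝ)) ^ a) / ((p : ℝ) - 1) := by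
  have h1 : (2 : ℝ) ≤ p := by exact_mod_cast hp
  have h2 := s_mul' p a (by omega)
  have h3 : (p : ℝ) - 1 ≠ 0 := by linarith
  have h4 : (p : ℝ) ^ a ≠ 0 := by positivity
  unfold g
  rw [one_div, inv_pow]
  field_simp
  rw [pow_succ] at h2
  linarith

theorem one_le_g (p a : ℕ) (hp : 2 ≤ p) : 1 ≤ g p a := by
  have h1 : (2 : ℝ) ≤ p := by exact_mod_cast hp
  rw [g_eq p a hp, le_div_iff₀ (by linarith)]
  have : (1 / (p : ℝ)) ^ a ≤ 1 := pow_le_one₀ (by positivity) (by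
    rw [div_le_one (by linarith)]; linarith)
  linarith

theorem one_lt_g (p a : ℕ) (hp : 2 ≤ p) (ha : a ≠ 0) : 1 < g p a := by
  have h1 : (2 : ℝ) ≤ p := by exact_mod_cast hp
  rw [g_eq p a hp, lt_div_iff₀ (by linarith)]
  have : (1 / (p : ℝ)) ^ a < 1 := pow_lt_one₀ (by positivity) (by
    rw [div_lt_one (by linarith)]; linarith) ha
  linarith

theorem g_le (p a Y : ℕ) (hY : 1 ≤ Y) (hp : Y < p) : g p a ≤ 1 + 1 / (Y : ℝ) := by
  have h0 : (1 : ℝ) ≤ Y := by exact_mod_cast hY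
  have h1 : (Y : ℝ) + 1 ≤ p := by exact_mod_cast hp
  rw [g_eq p a (by omega), div_le_iff₀ (by linarith)]
  have h2 : 0 ≤ (1 / (p : ℝ)) ^ a := by positivity
  have h3 : 1 ≤ 1 / (Y : ℝ) * ((p : ℝ) - 1) := by
    rw [one_div, inv_mul_eq_div, le_div_iff₀ (by linarith)]; linarith
  nlinarith

theorem g_tendsto (p : ℕ) (hp : 2 ≤ p) :
    Tendsto (g p) atTop (𝓝 ((p : ℝ) / ((p : ℝ) - 1))) := by
  have h1 : (2 : ℝ) ≤ p := by exact_mod_cast hp
  have h2 : Tendsto (fun a : ℕ => (1 / (p : ℝ)) ^ a) atTop (𝓝 0) :=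
    tendsto_pow_atTop_nhds_zero_of_lt_one (by positivity) (by
      rw [div_lt_one (by linarith)]; linarith)
  have h3 := (h2.const_sub (p : ℝ)).div_const ((p : ℝ) - 1)
  simp only [sub_zero] at h3
  exact h3.congr (fun a => (g_eq p a hp).symm)

theorem h_eq (n : ℕ) (hn : n ≠ 0) :
    ((∑ d ∈ n.divisors, d : ℕ) : ℝ) / n = ∏ p ∈ n.primeFactors, g p (n.factorization p) := by
  have h1 : (n : ℝ) = ∏ p ∈ n.primeFactors, (p : ℝ) ^ (n.factorization p) := by
    conv_lhs => rw [← Nat.prod_factorization_pow_eq_self hn]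
    simp [Finsupp.prod]
  rw [Nat.sum_divisors hn]
  unfold g s
  rw [Finset.prod_div_distrib, ← h1]
  push_cast
  rfl

theorem dich (U : Ultrafilter ℕ) (f : ℕ → ℕ) :
    ∃ c, ¬ Tendsto f U atTop → ∀ᶠ n in U, f n = c := by
  by_cases h : Tendsto f U atTop
  · exact ⟨0, fun h' => absurd h h'⟩
  · rw [tendsto_atTop] at h
    push Not at h
    obtain ⟨b, hb⟩ := h
    have h2 : ∀ᶠ n in U, ∃ c ∈ Set.Iio b, f n = c := by
      filter_upwards [hb] with n hn
      exact ⟨f n, hn, rfl⟩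
    obtain ⟨c, _, hc⟩ := (Ultrafilter.eventually_exists_mem_iff (Set.finite_Iio b)).mp h2
    exact ⟨c, fun _ => hc⟩

theorem case1 (A B : Finset ℕ) (a : ℕ → ℕ) (hA : ∀ p ∈ A, p.Prime) (hB : ∀ p ∈ B, p.Prime ∧ Odd p)
    (hAB : Disjoint A B) (hne : B.Nonempty)
    (h : (∏ p ∈ A, g p (a p)) * ∏ p ∈ B, (p : ℝ) / ((p : ℝ) - 1) = 2) : False := by
  have h1 : (∏ p ∈ A, s p (a p)) * ∏ p ∈ B, p = 2 * (∏ p ∈ A, p ^ a p) * ∏ p ∈ B, (p - 1) := by
    have h2 : ∏ p ∈ A, (p : ℝ) ^ a p ≠ 0 := prod_ne_zero_iff.mpr (fun p hp => by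
      have := (hA p hp).pos
      positivity)
    have h3 : ∏ p ∈ B, ((p : ℝ) - 1) ≠ 0 := prod_ne_zero_iff.mpr (fun p hp => by
      have : (2 : ℝ) ≤ p := by exact_mod_cast (hB p hp).1.two_le
      linarith)
    unfold g at h
    rw [prod_div_distrib, prod_div_distrib] at h
    field_simp at h
    have h4 : ((∏ p ∈ B, (p - 1) : ℕ) : ℝ) = ∏ p ∈ B, ((p : ℝ) - 1) := by
      push_cast
      exact prod_congr rfl (fun p hp => by rw [Nat.cast_sub (hB p hp).1.one_le]; simp)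
    have h5 : (((∏ p ∈ A, s p (a p)) * ∏ p ∈ B, p : ℕ) : ℝ)
        = ((2 * (∏ p ∈ A, p ^ a p) * ∏ p ∈ B, (p - 1) : ℕ) : ℝ) := by
      rw [Nat.cast_mul, Nat.cast_mul, h4]
      push_cast
      linarith
    exact_mod_cast h5
  set P := B.max' hne
  have hP : P ∈ B := B.max'_mem hne
  have hPp := (hB P hP).1
  have hd : P ∣ 2 * (∏ p ∈ A, p ^ a p) * ∏ p ∈ B, (p - 1) := by
    rw [← h1]
    exact Dvd.dvd.mul_left (dvd_prod_of_mem _ hP) _
  rcases (Nat.Prime.dvd_mul hPp).mp hd with h2 | h2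
  · rcases (Nat.Prime.dvd_mul hPp).mp h2 with h3 | h3
    · have := (Nat.prime_dvd_prime_iff_eq hPp Nat.prime_two).mp h3
      have h4 := (hB P hP).2
      rw [this] at h4
      exact absurd h4 (by decide)
    · obtain ⟨q, hq, h4⟩ := (Prime.dvd_finsetProd_iff hPp.prime _).mp h3
      have := (Nat.prime_dvd_prime_iff_eq hPp (hA q hq)).mp (hPp.dvd_of_dvd_pow h4)
      exact disjoint_left.mp hAB hq (this ▸ hP)
  · obtain ⟨q, hq, h4⟩ := (Prime.dvd_finsetProd_iff hPp.prime _).mp h2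
    have h5 : q ≤ P := B.le_max' q hq
    have h6 := (hB q hq).1.two_le
    have := Nat.le_of_dvd (by omega) h4
    omega

theorem case2 (B C : Finset ℕ) (v : ℕ → ℕ) (hB : ∀ p ∈ B, p.Prime ∧ Odd p)
    (hC : ∀ p ∈ C, p.Prime ∧ Odd p) (hne : B.Nonempty)
    (h : (∏ p ∈ B, g p (v p)) * ∏ p ∈ C, g p (v p) = ∏ p ∈ B, (p : ℝ) / ((p : ℝ) - 1)) : False := by
  have h1 : (∏ p ∈ B, s p (v p)) * (∏ p ∈ C, s p (v p)) * ∏ p ∈ B, (p - 1)
      = (∏ p ∈ B, p ^ v p) * (∏ p ∈ C, p ^ v p) * ∏ p ∈ B, p := by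
    have h2 : ∏ p ∈ B, (p : ℝ) ^ v p ≠ 0 := prod_ne_zero_iff.mpr (fun p hp => by
      have := (hB p hp).1.pos
      positivity)
    have h2' : ∏ p ∈ C, (p : ℝ) ^ v p ≠ 0 := prod_ne_zero_iff.mpr (fun p hp => by
      have := (hC p hp).1.pos
      positivity)
    have h3 : ∏ p ∈ B, ((p : ℝ) - 1) ≠ 0 := prod_ne_zero_iff.mpr (fun p hp => by
      have : (2 : ℝ) ≤ p := by exact_mod_cast (hB p hp).1.two_le
      linarith)
    unfold g at h
    rw [prod_div_distrib, prod_div_distrib, prod_div_distrib] at h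
    field_simp at h
    have h4 : ((∏ p ∈ B, (p - 1) : ℕ) : ℝ) = ∏ p ∈ B, ((p : ℝ) - 1) := by
      push_cast
      exact prod_congr rfl (fun p hp => by rw [Nat.cast_sub (hB p hp).1.one_le]; simp)
    have h5 : (((∏ p ∈ B, s p (v p)) * (∏ p ∈ C, s p (v p)) * ∏ p ∈ B, (p - 1) : ℕ) : ℝ)
        = (((∏ p ∈ B, p ^ v p) * (∏ p ∈ C, p ^ v p) * ∏ p ∈ B, p : ℕ) : ℝ) := by
      rw [Nat.cast_mul, h4]
      push_cast
      linarith
    exact_mod_cast h5
  obtain ⟨P, hP⟩ := hne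
  have hd : 2 ∣ (∏ p ∈ B, p ^ v p) * (∏ p ∈ C, p ^ v p) * ∏ p ∈ B, p := by
    rw [← h1]
    refine Dvd.dvd.mul_left (Dvd.dvd.trans ?_ (dvd_prod_of_mem _ hP)) _
    obtain ⟨j, hj⟩ := (hB P hP).2
    omega
  have hodd : ∀ q, Odd q → ¬ 2 ∣ q := fun q ⟨j, hj⟩ => by omega
  rcases (Nat.Prime.dvd_mul Nat.prime_two).mp hd with h2 | h2
  · rcases (Nat.Prime.dvd_mul Nat.prime_two).mp h2 with h3 | h3
    · obtain ⟨q, hq, h4⟩ := (Prime.dvd_finsetProd_iff Nat.prime_two.prime _).mp h3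
      exact hodd q (hB q hq).2 (Nat.prime_two.dvd_of_dvd_pow h4)
    · obtain ⟨q, hq, h4⟩ := (Prime.dvd_finsetProd_iff Nat.prime_two.prime _).mp h3
      exact hodd q (hC q hq).2 (Nat.prime_two.dvd_of_dvd_pow h4)
  · obtain ⟨q, hq, h4⟩ := (Prime.dvd_finsetProd_iff Nat.prime_two.prime _).mp h2
    exact hodd q (hB q hq).2 h4

/-- For every k ≥ 3, only finitely many odd n have exactly k distinct prime factors and a divisor d < n with sum of divisors of n equal to 2n − d. -/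
theorem result :
    ∀ k : ℕ, 3 ≤ k →
      Set.Finite {n : ℕ | Odd n ∧ n.primeFactors.card = k ∧
        ∃ d : ℕ, d ∣ n ∧ d < n ∧ (∑ i ∈ n.divisors, i) + d = 2 * n} := by
  classical
  intro k _
  set S := {n : ℕ | Odd n ∧ n.primeFactors.card = k ∧
        ∃ d : ℕ, d ∣ n ∧ d < n ∧ (∑ i ∈ n.divisors, i) + d = 2 * n} with hSdef
  by_contra hinf
  have hnb : NeBot (cofinite ⊓ 𝓟 S) := cofinite_inf_principal_neBot_iff.mpr hinf
  let U : Ultrafilter ℕ := Ultrafilter.of (cofinite ⊓ 𝓟 S)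
  have hU : (U : Filter ℕ) ≤ cofinite ⊓ 𝓟 S := Ultrafilter.of_le _
  have hS : ∀ᶠ n in U, n ∈ S := (hU.trans inf_le_right) (mem_principal_self S)
  have hne : ∀ c : ℕ, ∀ᶠ n in (U : Filter ℕ), n ≠ c := fun c =>
    (hU.trans inf_le_left) (eventually_cofinite_ne c)
  have hn0 : ∀ n ∈ S, n ≠ 0 := fun n hn => hn.1.pos.ne'
  have hTfin : Set.Finite {p : ℕ | ∀ᶠ n in U, p ∈ Nat.primeFactors n} := by
    by_contra h
    obtain ⟨F, hF, hFc⟩ := Set.Infinite.exists_subset_card_eq h (k + 1)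
    have h1 : ∀ᶠ n in U, ∀ p ∈ F, p ∈ Nat.primeFactors n :=
      (eventually_all_finset F).mpr (fun p hp => hF hp)
    obtain ⟨n, hn1, hn2⟩ := (h1.and hS).exists
    have := card_le_card (show F ⊆ n.primeFactors from hn1)
    rw [hFc, hn2.2.1] at this
    omega
  set T := hTfin.toFinset with hT
  have hTmem : ∀ p, p ∈ T ↔ ∀ᶠ n in U, p ∈ Nat.primeFactors n := by
    intro p; simp [hT]
  have hTsub : ∀ᶠ n in U, T ⊆ Nat.primeFactors n :=
    (eventually_all_finset T).mpr (fun p hp => (hTmem p).mp hp)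
  have hpf : ∀ n ∈ S, ∀ p ∈ Nat.primeFactors n, p.Prime ∧ Odd p := fun n hn p hp =>
    ⟨Nat.prime_of_mem_primeFactors hp, Odd.of_dvd_nat hn.1 (Nat.dvd_of_mem_primeFactors hp)⟩
  have hTp : ∀ p ∈ T, p.Prime ∧ Odd p := by
    obtain ⟨n, hn1, hn2⟩ := (hTsub.and hS).exists
    exact fun p hp => hpf n hn2 p (hn1 hp)
  choose a ha using fun p => dich U (fun n => n.factorization p)
  let P : ℕ → Prop := fun p => Tendsto (fun n : ℕ => n.factorization p) U atTop
  set B := T.filter P with hBdef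
  set A := T.filter (fun p => ¬ P p) with hAdef
  have hBp : ∀ p ∈ B, p.Prime ∧ Odd p := fun p hp => hTp p (mem_filter.mp hp).1
  have hAp : ∀ p ∈ A, p.Prime := fun p hp => (hTp p (mem_filter.mp hp).1).1
  have hAconst : ∀ᶠ n in U, ∀ p ∈ A, Nat.factorization n p = a p :=
    (eventually_all_finset A).mpr (fun p hp => ha p (mem_filter.mp hp).2)
  set hA : ℝ := ∏ p ∈ A, g p (a p) with hhA
  let b : ℕ → ℝ := fun n => ∏ p ∈ B, g p (n.factorization p)
  let c : ℕ → ℝ := fun n => ∏ p ∈ n.primeFactors \ T, g p (n.factorization p)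
  let h : ℕ → ℝ := fun n => ((∑ d ∈ n.divisors, d : ℕ) : ℝ) / n
  have hfac : ∀ᶠ n in U, h n = hA * (b n * c n) := by
    filter_upwards [hS, hTsub, hAconst] with n h1 h2 h3
    simp only [h, b, c]
    rw [h_eq n (hn0 n h1), ← prod_sdiff h2, ← prod_filter_mul_prod_filter_not T P]
    have : ∏ p ∈ A, g p (n.factorization p) = hA := prod_congr rfl (fun p hp => by rw [h3 p hp])
    rw [this]
    ring
  have hA1 : 1 ≤ hA := Finset.one_le_prod (fun p hp => one_le_g _ _ (hAp p hp).two_le)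
  have hc1 : ∀ n, 1 ≤ c n := fun n => Finset.one_le_prod (fun p hp =>
    one_le_g _ _ (Nat.prime_of_mem_primeFactors (mem_sdiff.mp hp).1).two_le)
  have hb : Tendsto b U (𝓝 (∏ p ∈ B, (p : ℝ) / ((p : ℝ) - 1))) :=
    tendsto_finsetProd B (fun p hp =>
      (g_tendsto p (hBp p hp).1.two_le).comp (mem_filter.mp hp).2)
  have hc : Tendsto c U (𝓝 1) := by
    rw [tendsto_order]
    refine ⟨fun x hx => Eventually.of_forall (fun n => hx.trans_le (hc1 n)), fun x hx => ?_⟩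
    have h1 : Tendsto (fun Y : ℕ => (1 + 1 / (Y : ℝ)) ^ k) atTop (𝓝 ((1 + 0) ^ k)) :=
      (tendsto_one_div_atTop_nhds_zero_nat.const_add 1).pow k
    simp only [add_zero, one_pow] at h1
    obtain ⟨Y, hY1, hY2⟩ := ((h1.eventually (gt_mem_nhds hx)).and (eventually_ge_atTop 1)).exists
    have h2 : ∀ᶠ n in U, ∀ p ∈ (range (Y + 1)) \ T, p ∉ Nat.primeFactors n :=
      (eventually_all_finset _).mpr (fun p hp => Ultrafilter.eventually_not.mpr
        (fun h => (mem_sdiff.mp hp).2 ((hTmem p).mpr h)))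
    filter_upwards [h2, hS] with n h3 h4
    refine lt_of_le_of_lt ?_ hY1
    have h5 : c n ≤ ∏ _p ∈ n.primeFactors \ T, (1 + 1 / (Y : ℝ)) := by
      apply Finset.prod_le_prod
      · intro p hp
        exact zero_le_one.trans
          (one_le_g _ _ (Nat.prime_of_mem_primeFactors (mem_sdiff.mp hp).1).two_le)
      · intro p hp
        apply g_le _ _ _ hY2
        by_contra h6
        exact h3 p (mem_sdiff.mpr ⟨mem_range.mpr (by omega), (mem_sdiff.mp hp).2⟩)
          (mem_sdiff.mp hp).1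
    refine h5.trans ?_
    rw [prod_const]
    apply pow_le_pow_right₀
    · have : 0 ≤ 1 / (Y : ℝ) := by positivity
      linarith
    · rw [← h4.2.1]
      exact card_le_card sdiff_subset
  have hlim : Tendsto h U (𝓝 (hA * ∏ p ∈ B, (p : ℝ) / ((p : ℝ) - 1))) := by
    have := (hb.mul hc).const_mul hA
    rw [mul_one] at this
    exact this.congr' (hfac.mono (fun n hn => hn.symm))
  have hm : ∀ n, ∃ m : ℕ, n ∈ S → 1 ≤ m ∧ h n = 2 - 1 / (m : ℝ) := by
    intro n
    by_cases hn : n ∈ S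
    · obtain ⟨d, ⟨m, hm⟩, _, h3⟩ := hn.2.2
      have h0 := hn0 n hn
      have hd : d ≠ 0 := by rintro rfl; simp at hm; exact h0 hm
      have hm0 : m ≠ 0 := by rintro rfl; simp at hm; exact h0 hm
      refine ⟨m, fun _ => ⟨by omega, ?_⟩⟩
      have h4 : ((∑ d ∈ n.divisors, d : ℕ) : ℝ) = 2 * n - d := by
        have : (((∑ i ∈ n.divisors, i) + d : ℕ) : ℝ) = ((2 * n : ℕ) : ℝ) := by rw [h3]
        rw [Nat.cast_add, Nat.cast_mul] at this
        simp only [Nat.cast_ofNat] at this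
        linarith
      simp only [h]
      rw [h4]
      have h5 : (n : ℝ) = d * m := by exact_mod_cast hm
      rw [h5]
      have : (d : ℝ) ≠ 0 := by exact_mod_cast hd
      have : (m : ℝ) ≠ 0 := by exact_mod_cast hm0
      field_simp
    · exact ⟨0, fun h => absurd h hn⟩
  choose m hm using hm
  by_cases hmt : Tendsto m U atTop
  · have h1 : Tendsto (fun n => 2 - 1 / (m n : ℝ)) U (𝓝 (2 - 0)) :=
      (tendsto_one_div_atTop_nhds_zero_nat.comp hmt).const_sub 2
    rw [sub_zero] at h1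
    have h2 : Tendsto h U (𝓝 2) := h1.congr' (hS.mono (fun n hn => (hm n hn).2.symm))
    have h3 := tendsto_nhds_unique hlim h2
    rcases B.eq_empty_or_nonempty with hB | hB
    · obtain ⟨n, hn1, hn2⟩ := (hfac.and hS).exists
      simp only [b, hB, prod_empty, mul_one, one_mul] at hn1 h3
      have h4 := hm n hn2
      have h5 : 0 < 1 / (m n : ℝ) := by
        have : (1 : ℝ) ≤ m n := by exact_mod_cast h4.1
        positivity
      have h6 := hc1 n
      nlinarith [h4.2]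
    · exact case1 A B a hAp hBp (disjoint_filter_filter_not T T P).symm hB h3
  · obtain ⟨m0, hm0⟩ := dich U m
    have h1 : ∀ᶠ n in U, h n = 2 - 1 / (m0 : ℝ) := by
      filter_upwards [hm0 hmt, hS] with n h1 h2
      rw [(hm n h2).2, h1]
    have h2 : Tendsto h U (𝓝 (2 - 1 / (m0 : ℝ))) :=
      tendsto_const_nhds.congr' (h1.mono (fun n hn => hn.symm))
    have h3 := tendsto_nhds_unique hlim h2
    have h4 : ∀ᶠ n in U, b n * c n = ∏ p ∈ B, (p : ℝ) / ((p : ℝ) - 1) := by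
      filter_upwards [h1, hfac] with n h5 h6
      have : hA * (b n * c n) = hA * ∏ p ∈ B, (p : ℝ) / ((p : ℝ) - 1) := by rw [h3, ← h5, h6]
      exact mul_left_cancel₀ (by linarith) this
    rcases B.eq_empty_or_nonempty with hB | hB
    · obtain ⟨n, ⟨⟨⟨hn1, hn2⟩, hn3⟩, hn4⟩, hn5⟩ :=
        ((((h4.and hS).and hTsub).and hAconst).and (hne (∏ p ∈ A, p ^ a p))).exists
      simp only [b, hB, prod_empty, one_mul] at hn1
      apply hn5
      have hTA : A = T := by
        have := filter_union_filter_not_eq P T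
        rw [← hBdef, ← hAdef, hB] at this
        simpa using this
      have hE : n.primeFactors \ T = ∅ := by
        by_contra hE
        obtain ⟨q, hq⟩ := nonempty_iff_ne_empty.mpr hE
        have hq1 := (mem_sdiff.mp hq).1
        have hq2 := Nat.prime_of_mem_primeFactors hq1
        have h7 : 1 < g q (n.factorization q) := one_lt_g _ _ hq2.two_le (by
          have := hq2.factorization_pos_of_dvd (hn0 n hn2) (Nat.dvd_of_mem_primeFactors hq1)
          omega)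
        have h8 : 1 ≤ ∏ p ∈ (n.primeFactors \ T).erase q, g p (n.factorization p) :=
          Finset.one_le_prod (fun p hp => one_le_g _ _
            (Nat.prime_of_mem_primeFactors (mem_sdiff.mp (mem_of_mem_erase hp)).1).two_le)
        simp only [c] at hn1
        rw [← mul_prod_erase _ _ hq] at hn1
        nlinarith
      have hPT : n.primeFactors = A := by
        rw [hTA]
        exact subset_antisymm (sdiff_eq_empty_iff_subset.mp hE) hn3
      conv_lhs => rw [← Nat.prod_factorization_pow_eq_self (hn0 n hn2)]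
      simp only [Finsupp.prod, Nat.support_factorization, hPT]
      exact prod_congr rfl (fun p hp => by rw [hn4 p hp])
    · obtain ⟨n, hn1, hn2⟩ := (h4.and hS).exists
      exact case2 B (n.primeFactors \ T) (fun p => n.factorization p) hBp
        (fun p hp => hpf n hn2 p (mem_sdiff.mp hp).1) hB hn1

end Pool.Agent.S15847
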