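import Pool.Statements.S15886

set_option autoImplicit false
open Pool Pool.MP_040934_nt

namespace Pool.Agent.S15886

/-- The negation of the preceding statement: For positive integers a<b and x with (a^3-1)(b^3-1)=x^2, the triple (a,b,x) is one of (2,4,21), (2,22,273), (3,313,28236), (4,22,819). -/
theorem result :
    ¬ (∀ a b x : ℤ, 0 < a → a < b → 0 < x →
      (a ^ 3 - 1) * (b ^ 3 - 1) = x ^ 2 →
        (a = 2 ∧ b = 4 ∧ x = 21) ∨
        (a = 2 ∧ b = 22 ∧ x = 273) ∨
        (a = 3 ∧ b = 313 ∧ x = 28236) ∨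
        (a = 4 ∧ b = 22 ∧ x = 819)) := by
  intro h
  have := h 1173 110187925 46467362782812972 (by norm_num) (by norm_num) (by norm_num)
    (by norm_num)
  omega

end Pool.Agent.S15886
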