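import Pool.Statements.S15888

set_option autoImplicit false
open Pool Pool.MP_0426f4_nt

namespace Pool.Agent.S15888

/-- Numbers below `2^(2^r)` all of whose truncations at the levels `2^l` are multiples of six. -/
def B (r : ℕ) : Finset ℕ :=
  (Finset.range (2 ^ 2 ^ r)).filter (fun a => ∀ l ∈ Finset.range (r + 1), 6 ∣ a / 2 ^ (2 ^ r - 2 ^ l))

lemma mem_B {r a : ℕ} : a ∈ B r ↔ a < 2 ^ 2 ^ r ∧ ∀ l ≤ r, 6 ∣ a / 2 ^ (2 ^ r - 2 ^ l) := by
  simp [B, Nat.lt_succ_iff]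

lemma mem_B_succ {r a : ℕ} (h6 : 6 ∣ a) (hy : a / 2 ^ 2 ^ r ∈ B r) : a ∈ B (r + 1) := by
  rw [mem_B] at hy ⊢
  obtain ⟨h1, h2⟩ := hy
  have hp : 0 < 2 ^ 2 ^ r := by positivity
  refine ⟨?_, ?_⟩
  · rw [Nat.div_lt_iff_lt_mul hp] at h1
    calc a < 2 ^ 2 ^ r * 2 ^ 2 ^ r := h1
      _ = 2 ^ 2 ^ (r + 1) := by rw [← pow_add, pow_succ 2 r]; congr 1; ring
  · intro l hl
    rcases Nat.lt_or_ge l (r + 1) with h | h
    · have hl' : l ≤ r := by omega
      have := h2 l hl'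
      rw [Nat.div_div_eq_div_mul, ← pow_add] at this
      have hle : 2 ^ l ≤ 2 ^ r := Nat.pow_le_pow_right (by norm_num) hl'
      have e : 2 ^ r + (2 ^ r - 2 ^ l) = 2 ^ (r + 1) - 2 ^ l := by rw [pow_succ]; omega
      rwa [e] at this
    · have : l = r + 1 := by omega
      subst this
      simpa using h6

lemma card_step (r : ℕ) (M : ℕ) (hM : 2 ^ 2 ^ r = 8 * M) :
    (B r).card * M ≤ (B (r + 1)).card := by
  have hp : 0 < 2 ^ 2 ^ r := by positivity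
  have key : ∀ y z : ℕ, z < M → 6 * ((y * (8 * M) + 5) / 6 + z) / (8 * M) = y := by
    intro y z hz
    have h1 : y * (8 * M) ≤ 6 * ((y * (8 * M) + 5) / 6 + z) := by omega
    have h2 : 6 * ((y * (8 * M) + 5) / 6 + z) < y * (8 * M) + 8 * M := by omega
    apply Nat.div_eq_of_lt_le h1
    calc _ < y * (8 * M) + 8 * M := h2
      _ = (y + 1) * (8 * M) := by ring
  rw [← Finset.card_range M, ← Finset.card_product]
  apply Finset.card_le_card_of_injOn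
    (fun p : ℕ × ℕ => 6 * ((p.1 * (8 * M) + 5) / 6 + p.2))
  · intro p hp'
    simp only [Finset.coe_product, Set.mem_prod, Finset.mem_coe, Finset.mem_range] at hp'
    apply Finset.mem_coe.mpr
    apply mem_B_succ (Dvd.intro _ rfl)
    rw [hM, key _ _ hp'.2]
    exact hp'.1
  · intro p hp1 q hq1 hpq
    simp only [Finset.coe_product, Set.mem_prod, Finset.mem_coe, Finset.mem_range] at hp1 hq1
    have e1 : p.1 = q.1 := by
      rw [← key p.1 p.2 hp1.2, ← key q.1 q.2 hq1.2]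
      simp only at hpq
      rw [hpq]
    have e2 : p.2 = q.2 := by
      simp only at hpq
      rw [e1] at hpq
      omega
    exact Prod.ext e1 e2

lemma card_lower (r : ℕ) : 2 ^ 2 ^ (r + 2) ≤ (B (r + 2)).card * 8 ^ (r + 2) := by
  induction r with
  | zero =>
    have : 0 < (B 2).card := Finset.card_pos.mpr ⟨0, by rw [mem_B]; simp⟩
    norm_num
    omega
  | succ r ih =>
    have h3 : 3 ≤ 2 ^ (r + 2) := by
      have : 2 ^ 2 ≤ 2 ^ (r + 2) := Nat.pow_le_pow_right (by norm_num) (by omega)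
      omega
    obtain ⟨c, hc⟩ := Nat.exists_eq_add_of_le h3
    have hM : 2 ^ 2 ^ (r + 2) = 8 * 2 ^ c := by rw [hc, pow_add]; norm_num
    have := card_step (r + 2) (2 ^ c) hM
    have e : 2 ^ 2 ^ (r + 1 + 2) = 2 ^ 2 ^ (r + 2) * 2 ^ 2 ^ (r + 2) := by
      rw [← pow_add, show r + 1 + 2 = (r + 2) + 1 from rfl, pow_succ 2 (r + 2)]; congr 1; ring
    rw [e]
    calc 2 ^ 2 ^ (r + 2) * 2 ^ 2 ^ (r + 2)
        ≤ ((B (r + 2)).card * 8 ^ (r + 2)) * (8 * 2 ^ c) := by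
          rw [← hM]; exact Nat.mul_le_mul_right _ ih
      _ = ((B (r + 2)).card * 2 ^ c) * 8 ^ (r + 1 + 2) := by ring
      _ ≤ _ := Nat.mul_le_mul_right _ this

lemma two_pow_mod (s : ℕ) : 2 ^ (s + 1) % 6 = 2 ∨ 2 ^ (s + 1) % 6 = 4 := by
  induction s with
  | zero => simp
  | succ s ih => rw [pow_succ]; omega

lemma floor_gap (u D a a' : ℕ) (hu : 0 < u) (h1 : a + D * u < a' + u) (h2 : a' < a + D * u + u) :
    a / u + D ≤ a' / u + 1 ∧ a' / u ≤ a / u + D + 1 := by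
  constructor
  · have : (a + D * u) / u ≤ (a' + u) / u := Nat.div_le_div_right h1.le
    rw [Nat.add_mul_div_right _ _ hu, Nat.add_div_right _ hu] at this
    exact this
  · have : a' / u ≤ (a + D * u + u) / u := Nat.div_le_div_right h2.le
    rw [Nat.add_div_right _ hu, Nat.add_mul_div_right _ _ hu] at this
    exact this

lemma avoid (r j w a a' : ℕ) (ha : a ∈ B r) (ha' : a' ∈ B r)
    (hw : w * 2 ^ 2 ^ r < (2 ^ j) ^ 2) (hj : j < 2 ^ r)
    (h1 : a + 2 ^ j ≤ a' + w) (h2 : a' ≤ a + 2 ^ j + w) : False := by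
  rw [mem_B] at ha ha'
  rcases Nat.eq_zero_or_pos j with h0 | h0
  · subst h0
    have hp : 0 < 2 ^ 2 ^ r := by positivity
    have hw0 : w = 0 := by
      by_contra h
      have : 1 * 1 ≤ w * 2 ^ 2 ^ r := Nat.mul_le_mul (by omega) hp
      simp at hw
      omega
    have x1 := ha.2 r le_rfl
    have x2 := ha'.2 r le_rfl
    simp at x1 x2
    simp at h1 h2
    omega
  · set m := 2 ^ r with hm
    obtain ⟨k, hk⟩ : ∃ k, m = j + k := ⟨m - j, by omega⟩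
    have hk1 : 1 ≤ k := by omega
    set L := Nat.log 2 k with hL
    have hL1 : 2 ^ L ≤ k := Nat.pow_log_le_self 2 (by omega)
    have hL2 : k < 2 ^ (L + 1) := Nat.lt_pow_succ_log_self (by norm_num) k
    have hLr : L < r := by
      by_contra h
      have : 2 ^ r ≤ 2 ^ L := Nat.pow_le_pow_right (by norm_num) (by omega)
      omega
    have hle : 2 ^ (L + 1) ≤ m := Nat.pow_le_pow_right (by norm_num) (by omega)
    have hK : 2 ^ (L + 1) = 2 * 2 ^ L := by rw [pow_succ]; ring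
    obtain ⟨s, hs⟩ : ∃ s, 2 ^ (L + 1) = k + (s + 1) := ⟨2 ^ (L + 1) - k - 1, by omega⟩
    obtain ⟨e, he⟩ : ∃ e, m = 2 ^ (L + 1) + e := ⟨m - 2 ^ (L + 1), by omega⟩
    have x1 := ha.2 (L + 1) (by omega)
    have x2 := ha'.2 (L + 1) (by omega)
    have ee : m - 2 ^ (L + 1) = e := by omega
    rw [ee] at x1 x2
    have hje : j = (s + 1) + e := by omega
    have hd : 2 ^ j = 2 ^ (s + 1) * 2 ^ e := by rw [hje, pow_add]
    have hwu : w < 2 ^ e := by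
      by_contra h
      have h3 : 2 ^ e * 2 ^ m ≤ w * 2 ^ m := Nat.mul_le_mul_right _ (by omega)
      have h4 : (2 ^ j) ^ 2 ≤ 2 ^ e * 2 ^ m := by
        rw [← pow_mul, ← pow_add]
        exact Nat.pow_le_pow_right (by norm_num) (by omega)
      omega
    have hu : 0 < 2 ^ e := by positivity
    have := floor_gap (2 ^ e) (2 ^ (s + 1)) a a' hu (by rw [← hd]; omega) (by rw [← hd]; omega)
    have := two_pow_mod s
    omega

lemma analytic (r : ℕ) (hr : 10 ≤ r) :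
    (8 : ℝ) ^ r ≤ Real.log ((2 ^ 2 ^ r : ℕ) : ℝ) ^ Real.log (Real.log ((2 ^ 2 ^ r : ℕ) : ℝ)) := by
  have hl2 := Real.log_two_gt_d9
  have e1 : Real.log ((2 ^ 2 ^ r : ℕ) : ℝ) = 2 ^ r * Real.log 2 := by
    push_cast
    rw [Real.log_pow]
    push_cast
    ring
  rw [e1]
  obtain ⟨c, rfl⟩ : ∃ c, r = c + 1 := ⟨r - 1, by omega⟩
  have hp : (0 : ℝ) < 2 ^ c := by positivity
  have h1 : (2 : ℝ) ^ c ≤ 2 ^ (c + 1) * Real.log 2 := by
    rw [pow_succ]; nlinarith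
  have h2 : (2 : ℝ) ^ 9 ≤ 2 ^ c := pow_le_pow_right₀ (by norm_num) (by omega)
  have h3 : (6 : ℝ) ≤ Real.log (2 ^ (c + 1) * Real.log 2) := by
    have : Real.log (2 ^ 9) ≤ Real.log (2 ^ (c + 1) * Real.log 2) :=
      Real.log_le_log (by norm_num) (h2.trans h1)
    rw [Real.log_pow] at this
    push_cast at this
    linarith
  have h4 : (1 : ℝ) ≤ 2 ^ (c + 1) * Real.log 2 := by linarith
  calc (8 : ℝ) ^ (c + 1) = 2 ^ (3 * (c + 1)) := by rw [pow_mul]; norm_num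
    _ ≤ 2 ^ (c * 6) := pow_le_pow_right₀ (by norm_num) (by omega)
    _ = ((2 : ℝ) ^ c) ^ 6 := by rw [pow_mul]
    _ ≤ (2 ^ (c + 1) * Real.log 2) ^ 6 := pow_le_pow_left₀ hp.le h1 6
    _ = (2 ^ (c + 1) * Real.log 2) ^ (6 : ℝ) := by
        rw [← Real.rpow_natCast]; norm_num
    _ ≤ _ := Real.rpow_le_rpow_of_exponent_le h4 h3

theorem result :
    ¬ (∀ t : ℕ, 3 ≤ t → ∃ n₀ : ℕ, ∀ n : ℕ, n₀ ≤ n → ∀ A : Finset ℕ, A ⊆ Finset.Icc 1 n →
      (∀ j w : ℕ, w * n < (2 ^ j) ^ 2 →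
        ¬ ∃ b : ℕ, ∀ i ∈ Finset.Icc 1 (t - 1),
          ∃ a ∈ A, b + i * 2 ^ j ≤ a ∧ a ≤ b + i * 2 ^ j + w) →
      (A.card : ℝ) / n * Real.log n ^ Real.log (Real.log n) < 1) := by
  intro h
  obtain ⟨n₀, hn₀⟩ := h 3 le_rfl
  set r := n₀ + 8 + 2 with hr
  have hn : n₀ ≤ 2 ^ 2 ^ r := by
    have a1 : r < 2 ^ r := Nat.lt_two_pow_self
    have a2 : 2 ^ r < 2 ^ 2 ^ r := Nat.lt_two_pow_self
    omega
  have hsub : (B r).image (· + 1) ⊆ Finset.Icc 1 (2 ^ 2 ^ r) := by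
    intro x hx
    obtain ⟨a, ha, rfl⟩ := Finset.mem_image.mp hx
    have := (mem_B.mp ha).1
    rw [Finset.mem_Icc]
    omega
  have hav : ∀ j w : ℕ, w * 2 ^ 2 ^ r < (2 ^ j) ^ 2 →
      ¬ ∃ b : ℕ, ∀ i ∈ Finset.Icc 1 (3 - 1),
        ∃ a ∈ (B r).image (· + 1), b + i * 2 ^ j ≤ a ∧ a ≤ b + i * 2 ^ j + w := by
    rintro j w hw ⟨b, hb⟩
    obtain ⟨x, hx, x1, x2⟩ := hb 1 (by simp)
    obtain ⟨y, hy, y1, y2⟩ := hb 2 (by simp)
    obtain ⟨a, ha, rfl⟩ := Finset.mem_image.mp hx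
    obtain ⟨a', ha', rfl⟩ := Finset.mem_image.mp hy
    have hlt := (mem_B.mp ha').1
    have hj : j < 2 ^ r := by
      by_contra hc
      have : 2 ^ 2 ^ r ≤ 2 ^ j := Nat.pow_le_pow_right (by norm_num) (by omega)
      omega
    exact avoid r j w a a' ha ha' hw hj (by omega) (by omega)
  have hfin := hn₀ _ hn _ hsub hav
  rw [Finset.card_image_of_injective _ (add_left_injective 1)] at hfin
  have hc : ((2 ^ 2 ^ r : ℕ) : ℝ) ≤ ((B r).card : ℝ) * 8 ^ r := by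
    exact_mod_cast card_lower (n₀ + 8)
  have han := analytic r (by omega)
  have hpos : (0 : ℝ) < ((2 ^ 2 ^ r : ℕ) : ℝ) := by positivity
  have hc0 : (0 : ℝ) ≤ ((B r).card : ℝ) / ((2 ^ 2 ^ r : ℕ) : ℝ) := by positivity
  have : (1 : ℝ) ≤ ((B r).card : ℝ) / ((2 ^ 2 ^ r : ℕ) : ℝ) * 8 ^ r := by
    rw [div_mul_eq_mul_div, le_div_iff₀ hpos]
    linarith
  have := mul_le_mul_of_nonneg_left han hc0
  linarith

end Pool.Agent.S15888
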