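import Pool.Statements.S15999

set_option autoImplicit false
open Filter
open Pool Pool.MP_0c8f06_nt

namespace Pool.Agent.S15999

noncomputable def g (n : ℕ) : ℕ := ⌊(n : ℝ) * Real.sqrt 3⌋₊

lemma s_lo : (17 / 10 : ℝ) < Real.sqrt 3 := Real.lt_sqrt_of_sq_lt (by norm_num)
lemma s_hi : Real.sqrt 3 < 18 / 10 := (Real.sqrt_lt' (by norm_num)).2 (by norm_num)
lemma s_sq : Real.sqrt 3 * Real.sqrt 3 = 3 := Real.mul_self_sqrt (by norm_num)

lemma g_le (n : ℕ) : (g n : ℝ) ≤ n * Real.sqrt 3 := Nat.floor_le (by positivity)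
lemma g_lt (n : ℕ) : n * Real.sqrt 3 < g n + 1 := Nat.lt_floor_add_one _

lemma g_lt' (n : ℕ) (hn : 0 < n) : (g n : ℝ) < n * Real.sqrt 3 := by
  refine lt_of_le_of_ne (g_le n) fun h => ?_
  have hi : Irrational (Real.sqrt 3) := by
    simpa using Nat.Prime.irrational_sqrt (p := 3) (by norm_num)
  have := (hi.natCast_mul hn.ne').ne_nat (g n)
  exact this h.symm

lemma gg (n : ℕ) (hn : 0 < n) : g (g n) % 3 ≠ 0 := by
  have h1 := g_lt' n hn
  have h2 := g_lt n
  have h3 := g_le (g n)
  have h4 := g_lt (g n)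
  have a : (g (g n) : ℝ) < 3 * n := by nlinarith [s_lo, s_hi, s_sq]
  have b : (3 * n : ℝ) < g (g n) + 3 := by nlinarith [s_lo, s_hi, s_sq]
  have a' : g (g n) < 3 * n := by exact_mod_cast a
  have b' : 3 * n < g (g n) + 3 := by exact_mod_cast b
  omega

lemma g_gt (n : ℕ) (hn : 2 ≤ n) : n < g n := by
  have h2 := g_lt n
  have : (2 : ℝ) ≤ n := by exact_mod_cast hn
  have b : (n : ℝ) < g n := by nlinarith [s_lo]
  exact_mod_cast b

lemma g_ub (n : ℕ) : 5 * g n ≤ 9 * n := by
  have h2 := g_le n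
  have : (0 : ℝ) ≤ n := by positivity
  have b : (5 * g n : ℝ) ≤ 9 * n := by nlinarith [s_hi]
  exact_mod_cast b

lemma g_inj (a b : ℕ) (h : g a = g b) : a = b := by
  have h1 := g_le a
  have h2 := g_lt a
  have h3 := g_le b
  have h4 := g_lt b
  rw [h] at h1 h2
  have e1 : (a : ℝ) < b + 1 := by
    by_contra hc
    push Not at hc
    nlinarith [s_lo]
  have e2 : (b : ℝ) < a + 1 := by
    by_contra hc
    push Not at hc
    nlinarith [s_lo]
  have e1' : a < b + 1 := by exact_mod_cast e1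
  have e2' : b < a + 1 := by exact_mod_cast e2
  omega

section
variable (f : ℕ → ℕ) (hf : ∀ n : ℕ, f n = if n % 3 = 0 then n / 3 else g n)

def D (n : ℕ) : Prop := Tendsto (fun k : ℕ => f^[k] n) atTop atTop

lemma D_of (n : ℕ) (h : D f (f n)) : D f n := by
  unfold D at *
  rw [← tendsto_add_atTop_iff_nat 1]
  simpa [Function.iterate_succ_apply] using h

include hf

lemma D_good (n : ℕ) (h2 : 2 ≤ n) (h3 : n % 3 ≠ 0) (h4 : g n % 3 ≠ 0) : D f n := by
  have key : ∀ k, k + 2 ≤ f^[k] n ∧ f^[k] n % 3 ≠ 0 ∧ g (f^[k] n) % 3 ≠ 0 := by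
    intro k
    induction k with
    | zero => exact ⟨by simpa using h2, h3, h4⟩
    | succ k ih =>
      obtain ⟨a, b, c⟩ := ih
      rw [Function.iterate_succ_apply', hf, if_neg b]
      have := g_gt (f^[k] n) (by omega)
      exact ⟨by omega, c, gg _ (by omega)⟩
  exact tendsto_atTop_mono (fun k => by have := (key k).1; show k ≤ _; omega) tendsto_id

open Classical in
noncomputable def B (N : ℕ) : Finset ℕ := (Finset.Icc 1 N).filter fun n => ¬ D f n

lemma B_rec (N : ℕ) : (B f N).card ≤ 1 + (B f (N / 3)).card + (B f (3 * N / 5)).card := by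
  classical
  have hsub : B f N ⊆ ({1} ∪ (B f N).filter (fun n => n % 3 = 0)) ∪
      (B f N).filter (fun n => 2 ≤ n ∧ n % 3 ≠ 0) := by
    intro n hn
    have h1 : 1 ≤ n := by simp only [B, Finset.mem_filter, Finset.mem_Icc] at hn; exact hn.1.1
    simp only [Finset.mem_union, Finset.mem_singleton, Finset.mem_filter, hn, true_and]
    omega
  refine (Finset.card_le_card hsub).trans ((Finset.card_union_le _ _).trans
    (add_le_add ((Finset.card_union_le _ _).trans (add_le_add (by simp) ?_)) ?_))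
  · refine Finset.card_le_card_of_injOn (fun n => n / 3) ?_ ?_
    · intro n hn
      simp only [B, Finset.coe_filter, Finset.mem_filter, Finset.mem_Icc, Set.mem_ofPred_eq] at hn ⊢
      refine ⟨by omega, fun h => hn.1.2 (D_of f n ?_)⟩
      rw [hf, if_pos hn.2]; exact h
    · intro a ha b hb h
      simp only [Finset.coe_filter, Set.mem_ofPred_eq] at ha hb h
      omega
  · have h3 : ∀ n, n ∈ (B f N).filter (fun n => 2 ≤ n ∧ n % 3 ≠ 0) → g n % 3 = 0 := by
      intro n hn
      simp only [B, Finset.mem_filter, Finset.mem_Icc] at hn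
      by_contra h
      exact hn.1.2 (D_good f hf n hn.2.1 hn.2.2 h)
    refine Finset.card_le_card_of_injOn (fun n => g n / 3) ?_ ?_
    · intro n hn
      have h4 := h3 n hn
      simp only [B, Finset.coe_filter, Finset.mem_filter, Finset.mem_Icc, Set.mem_ofPred_eq] at hn ⊢
      have := g_gt n hn.2.1
      have := g_ub n
      refine ⟨by omega, fun h => hn.1.2 (D_of f n (D_of f _ ?_))⟩
      rw [hf n, if_neg hn.2.2, hf, if_pos h4]; exact h
    · intro a ha b hb h
      have h1 := h3 a ha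
      have h2 := h3 b hb
      simp only at h
      exact g_inj a b (by omega)

lemma B_bound (k : ℕ) : ∃ C : ℝ, ∀ N : ℕ, ((B f N).card : ℝ) ≤ (14 / 15) ^ k * N + C := by
  induction k with
  | zero =>
    refine ⟨0, fun N => ?_⟩
    have : (B f N).card ≤ N := by
      classical
      exact (Finset.card_filter_le _ _).trans (by simp)
    simpa using this
  | succ k ih =>
    obtain ⟨C, hC⟩ := ih
    refine ⟨1 + 2 * C, fun N => ?_⟩
    have h1 : ((B f N).card : ℝ) ≤ 1 + (B f (N / 3)).card + (B f (3 * N / 5)).card := by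
      exact_mod_cast B_rec f hf N
    have h2 := hC (N / 3)
    have h3 := hC (3 * N / 5)
    have h4 : ((N / 3 : ℕ) : ℝ) ≤ N / 3 := Nat.cast_div_le
    have h5 : ((3 * N / 5 : ℕ) : ℝ) ≤ 3 * N / 5 := by
      have := Nat.cast_div_le (α := ℝ) (m := 3 * N) (n := 5)
      push_cast at this; exact this
    have h6 : (0 : ℝ) ≤ (14 / 15) ^ k := by positivity
    rw [pow_succ]
    nlinarith [mul_le_mul_of_nonneg_left h4 h6, mul_le_mul_of_nonneg_left h5 h6]

lemma B_lim : Tendsto (fun N : ℕ => ((B f N).card : ℝ) / N) atTop (nhds 0) := by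
  rw [Metric.tendsto_atTop]
  intro ε hε
  obtain ⟨k, hk⟩ := exists_pow_lt_of_lt_one (half_pos hε) (show (14 / 15 : ℝ) < 1 by norm_num)
  obtain ⟨C, hC⟩ := B_bound f hf k
  obtain ⟨M, hM⟩ := exists_nat_gt (2 * C / ε)
  refine ⟨M + 1, fun N hN => ?_⟩
  have hN' : (M + 1 : ℝ) ≤ N := by exact_mod_cast hN
  have hM0 : (0 : ℝ) ≤ M := by positivity
  have hpos : (0 : ℝ) < N := by linarith
  rw [Real.dist_eq, sub_zero, abs_of_nonneg (by positivity), div_lt_iff₀ hpos]
  rw [div_lt_iff₀ hε] at hM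
  have := hC N
  nlinarith

end

theorem result :
    ∀ f : ℕ → ℕ,
      (∀ n : ℕ, f n = if n % 3 = 0 then n / 3 else ⌊(n : ℝ) * Real.sqrt 3⌋₊) →
      Tendsto
        (fun N : ℕ =>
          (({n : ℕ | 1 ≤ n ∧ n ≤ N ∧
              Tendsto (fun k : ℕ => f^[k] n) atTop atTop}.ncard : ℕ) : ℝ) / (N : ℝ))
        atTop (nhds 1) := by
  classical
  intro f hf
  have h := (B_lim f hf).const_sub 1
  rw [sub_zero] at h
  refine h.congr' ?_
  filter_upwards [eventually_ge_atTop 1] with N hN
  have hpos : (0 : ℝ) < N := by exact_mod_cast hN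
  have e : {n : ℕ | 1 ≤ n ∧ n ≤ N ∧ Tendsto (fun k : ℕ => f^[k] n) atTop atTop}
      = ((Finset.Icc 1 N).filter fun n => D f n : Finset ℕ) := by
    ext n
    simp only [Set.mem_ofPred_eq, Finset.coe_filter, Finset.mem_Icc, D, and_assoc]
  rw [e, Set.ncard_coe_finset]
  have h2 := Finset.card_filter_add_card_filter_not (s := Finset.Icc 1 N) (fun n => D f n)
  have h3 : ((Finset.Icc 1 N).filter fun n => D f n).card + (B f N).card = N := by
    simpa [B] using h2
  have h4 : (((Finset.Icc 1 N).filter fun n => D f n).card : ℝ) + (B f N).card = N := by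
    exact_mod_cast h3
  field_simp
  linarith

end Pool.Agent.S15999
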