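import Pool.Statements.S16171
import Pool.Agent.Lib.helper21.Erdos122

set_option autoImplicit false
open Filter Topology
open Pool Pool.MP_184037_nt

namespace Pool.Agent.S16171

/-- It is not true that for every F tending to infinity with F(n)/σ(n) → 0 off a density-zero set, every constant C is beaten by #{n : x < n+σ(n) < x+F(x)} / F(x) for infinitely many x. -/
theorem result :
    ¬ ∀ F : ℕ → ℝ, Tendsto F atTop atTop →
      (∀ ε : ℝ, 0 < ε →
        Tendsto (fun N : ℕ =>
          (((Finset.range N).filter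
            (fun n => ε ≤ |F n / ((ArithmeticFunction.sigma 1 n : ℕ) : ℝ)|)).card : ℝ) / (N : ℝ))
          atTop (𝓝 0)) →
      ∀ C : ℝ, ∀ N : ℕ, ∃ x : ℕ, N < x ∧
        C * F x < (Nat.card {n : ℕ //
          (x : ℝ) < (n : ℝ) + ((ArithmeticFunction.sigma 1 n : ℕ) : ℝ) ∧
          (n : ℝ) + ((ArithmeticFunction.sigma 1 n : ℕ) : ℝ) < (x : ℝ) + F x} : ℝ) := by
  intro H
  obtain ⟨e, he0, he1, he2, he3⟩ := Pool.Agent.Lib.Helper21.Erdos122.main
    (fun n => ((ArithmeticFunction.sigma 1 n : ℕ) : ℝ)) (fun _ => 1) (fun _ => by simp)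
    (fun _ => by positivity) (by simp) Pool.Agent.Lib.Helper21.Erdos122.sigma_eq
  obtain ⟨N, hN⟩ := eventually_atTop.mp he3
  have key := H (fun x => e x * x) he2 ?_ 13 N
  · obtain ⟨x, hx, hx2⟩ := key
    have := hN x hx.le
    rw [← Nat.card_coe_set_eq] at this
    exact absurd hx2 (not_lt.mpr this)
  · intro ε hε
    obtain ⟨K, hK⟩ := eventually_atTop.mp (he1.eventually (gt_mem_nhds hε))
    have h0 : Tendsto (fun N : ℕ => ((K + 1 : ℕ) : ℝ) / (N : ℝ)) atTop (𝓝 0) :=
      tendsto_const_div_atTop_nhds_zero_nat _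
    refine squeeze_zero (fun _ => by positivity) (fun N => ?_) h0
    gcongr
    rw [← Finset.card_range (K + 1)]
    apply Finset.card_le_card
    intro n hn
    rw [Finset.mem_filter] at hn
    rw [Finset.mem_range]
    by_contra hc
    have hn0 : 0 < n := by omega
    have h1 := hK n (by omega)
    have h2 : n ≤ ArithmeticFunction.sigma 1 n := by
      rw [ArithmeticFunction.sigma_one_apply]
      exact Finset.single_le_sum (f := fun d => d) (fun _ _ => Nat.zero_le _)
        (Nat.mem_divisors_self n hn0.ne')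
    have h3 : (n : ℝ) ≤ ((ArithmeticFunction.sigma 1 n : ℕ) : ℝ) := by exact_mod_cast h2
    have h4 : (0 : ℝ) < n := by exact_mod_cast hn0
    have h5 := hn.2
    have h6 := he0 n
    rw [abs_of_nonneg (by positivity), le_div_iff₀ (by linarith)] at h5
    nlinarith

end Pool.Agent.S16171
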