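import Pool.Statements.S16202
import Pool.Agent.Lib.helper13.Aper

set_option autoImplicit false
open Pool Pool.MP_1bab7f_nt

namespace Pool.Agent.S16202

/-- The negation of the preceding statement: For every finite increasing integer list extended greedily (each new term is the least integer above the last that is not a sum of two earlier terms, repeats allowed), the consecutive differences are eventually periodic. -/
theorem result :
    ¬ (∀ (k : ℕ) (a : ℕ → ℤ), 0 < k → StrictMono a →
      (∀ n : ℕ, k ≤ n + 1 →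
        (a n < a (n + 1) ∧
         (∀ i j : ℕ, i ≤ n → j ≤ n → a i + a j ≠ a (n + 1)) ∧
         (∀ x : ℤ, a n < x → x < a (n + 1) →
            ∃ i j : ℕ, i ≤ n ∧ j ≤ n ∧ a i + a j = x))) →
      ∃ p : ℕ, 0 < p ∧ ∃ N : ℕ, ∀ m : ℕ, N ≤ m →
        a (m + p + 1) - a (m + p) = a (m + 1) - a m) := by
  intro H
  obtain ⟨S, hS⟩ := H13Ap.dickson
  obtain ⟨a, h1, -, h3, h4, h5⟩ := H13Ap.seq hS
  obtain ⟨p, hp, N, hN⟩ := H 40001 (fun n => a n) (by omega)
    (fun i j h => by simpa using h1 h) fun n hn => ⟨by simpa using h1 (Nat.lt_succ_self n),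
      fun i j _ _ e => h3 i j (n + 1) False.elim (by exact_mod_cast e), fun x a1 a2 => by
        obtain ⟨i, j, hi, hj, -, e⟩ := h4 n x.toNat (by omega) (by omega) (by omega)
        exact ⟨i, j, hi, hj, by omega⟩⟩
  exact h5 p N hp fun n hn => by have := hN n hn; omega

end Pool.Agent.S16202
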