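import Pool.Statements.S16227

set_option autoImplicit false
open N41f07a28
open Asymptotics Filter
open Pool Pool.MP_1d29c3_nt

namespace Pool.Agent.S16227

open Finset

theorem pi_lower (n : ℕ) (hn : 16 ≤ n) : (n : ℝ) / Real.log n ≤ 2 * (Nat.primeCounting n : ℝ) := by
  have h1 := Chebyshev.pi_ge n
  have h2 : (16 : ℝ) ≤ n := by exact_mod_cast hn
  have h3 : 0 < Real.log n := Real.log_pos (by linarith)
  have h4 : Real.log ((n : ℝ) + 1) ≤ ((n : ℝ) + 1) / 16 - 1 + 4 * Real.log 2 := by
    have h5 := Real.log_le_sub_one_of_pos (show 0 < ((n : ℝ) + 1) / 16 by positivity)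
    rw [Real.log_div (by positivity) (by norm_num), show (16 : ℝ) = 2 ^ 4 by norm_num,
      Real.log_pow] at h5
    push_cast at h5
    linarith
  have h6 := Real.log_two_gt_d9
  have h7 := Real.log_two_lt_d9
  rw [div_le_iff₀ h3] at h1 ⊢
  nlinarith

theorem stage (n D : ℕ) : ∃ (t : ℕ) (R : Finset ℕ) (w : ℕ), 1 ≤ t ∧ (∀ p ∈ R, w < p) ∧
    D * R.card ≤ Nat.primeCounting w ∧
    ∀ a, 1 ≤ a → a ≤ n → a ∣ t ∧ ∀ p : ℕ, p.Prime → p ∣ a + t → p ∣ a ∨ p ∈ R := by
  classical
  set K : ℕ := 12 * n * D + 1 with hK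
  have hK1 : 1 ≤ K := by omega
  have e1 : ∀ᶠ z : ℕ in atTop, (Nat.primeCounting (K * z) : ℝ)
      ≤ (Real.log 4 + 1) * ((K * z : ℕ) : ℝ) / Real.log ((K * z : ℕ) : ℝ) := by
    have t1 : Tendsto (fun z : ℕ => ((K * z : ℕ) : ℝ)) atTop atTop :=
      tendsto_natCast_atTop_atTop.comp
        (tendsto_atTop_mono (fun z => Nat.le_mul_of_pos_left z hK1) tendsto_id)
    have := t1.eventually (Chebyshev.eventually_primeCounting_le (show (0 : ℝ) < 1 by norm_num))
    simpa only [Nat.floor_natCast] using this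
  have e2 : ∀ᶠ z : ℕ in atTop, 3 * (n : ℝ) * K < Real.log z :=
    (Real.tendsto_log_atTop.comp tendsto_natCast_atTop_atTop).eventually (eventually_gt_atTop _)
  obtain ⟨z, ⟨⟨⟨hz1, hz2⟩, hz3⟩, hz4⟩, hz5⟩ := ((((e1.and e2).and (eventually_ge_atTop 16)).and
    (eventually_ge_atTop K)).and (eventually_ge_atTop (2 * n.factorial))).exists
  have hzr : (16 : ℝ) ≤ z := by exact_mod_cast hz3
  have hKr : (1 : ℝ) ≤ K := by exact_mod_cast hK1
  have hKz : (K : ℝ) ≤ z := by exact_mod_cast hz4
  have hlz : 0 < Real.log z := Real.log_pos (by linarith)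
  have hzw : z ≤ K * z := Nat.le_mul_of_pos_left z hK1
  have hl1 : Real.log z ≤ Real.log ((K * z : ℕ) : ℝ) :=
    Real.log_le_log (by linarith) (by exact_mod_cast hzw)
  have hl2 : Real.log ((K * z : ℕ) : ℝ) ≤ 2 * Real.log z := by
    push_cast
    rw [Real.log_mul (by linarith) (by linarith)]
    linarith [Real.log_le_log (by linarith) hKz]
  have hl4 : Real.log 4 + 1 ≤ 3 := by
    have := Real.log_le_sub_one_of_pos (show (0 : ℝ) < 2 by norm_num)
    rw [show (4 : ℝ) = 2 ^ 2 by norm_num, Real.log_pow]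
    push_cast
    linarith
  have hcount : n * Nat.primeCounting (K * z) < z := by
    have h1 : (Nat.primeCounting (K * z) : ℝ) * Real.log z ≤ 3 * (K * z) := by
      rw [le_div_iff₀ (by linarith)] at hz1
      have h2 : (Nat.primeCounting (K * z) : ℝ) * Real.log z
          ≤ (Nat.primeCounting (K * z) : ℝ) * Real.log ((K * z : ℕ) : ℝ) := by gcongr
      push_cast at hz1 h2
      have h3 : (Real.log 4 + 1) * ((K : ℝ) * z) ≤ 3 * (K * z) := by gcongr
      linarith
    have h4 : (n : ℝ) * Nat.primeCounting (K * z) * Real.log z < z * Real.log z := by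
      have h5 : (n : ℝ) * (Nat.primeCounting (K * z) * Real.log z) ≤ n * (3 * (K * z)) := by
        gcongr
      nlinarith
    exact_mod_cast lt_of_mul_lt_mul_right h4 hlz.le
  set M := n.factorial * primorial z with hM
  have hMpos : 0 < M := Nat.mul_pos n.factorial_pos (primorial_pos z)
  let bad : ℕ × ℕ → Finset ℕ := fun ap => (Icc 1 z).filter (fun s => ap.2 ∣ 1 + M / ap.1 * s)
  let I : Finset (ℕ × ℕ) := Icc 1 n ×ˢ ((Nat.primesLE (K * z)).filter (fun p => z < p))
  have hbad : ∀ ap ∈ I, (bad ap).card ≤ 1 := by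
    rintro ⟨a, p⟩ hap
    simp only [I, mem_product, Finset.mem_filter, Nat.mem_primesLE] at hap
    have hp := hap.2.1.2
    have key : ∀ s s', s ∈ bad (a, p) → s' ∈ bad (a, p) → s ≤ s' → s = s' := by
      intro s s' hs hs' hle
      simp only [bad, Finset.mem_filter, mem_Icc] at hs hs'
      obtain ⟨d, rfl⟩ := Nat.exists_eq_add_of_le hle
      have h1 : p ∣ M / a * d := by
        have := hs'.2
        rw [mul_add, ← add_assoc] at this
        exact (Nat.dvd_add_right hs.2).mp this
      rcases (Nat.Prime.dvd_mul hp).mp h1 with h2 | h2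
      · have := (Nat.dvd_add_left (Dvd.dvd.mul_right h2 s)).mp hs.2
        exact absurd (Nat.dvd_one.mp this) hp.one_lt.ne'
      · have := Nat.eq_zero_of_dvd_of_lt h2 (by omega)
        omega
    rw [card_le_one]
    intro s hs s' hs'
    rcases le_total s s' with h | h
    · exact key s s' hs hs' h
    · exact (key s' s hs' hs h).symm
  have hI : I.card ≤ n * Nat.primeCounting (K * z) := by
    simp only [I, card_product, Nat.card_Icc, Nat.add_sub_cancel]
    rw [← Nat.primesLE_card_eq_primeCounting]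
    exact Nat.mul_le_mul_left _ (card_filter_le _ _)
  have hlt : (I.biUnion bad).card < (Icc 1 z).card := by
    have := card_biUnion_le_card_mul I bad 1 hbad
    simp only [Nat.card_Icc, Nat.add_sub_cancel]
    omega
  obtain ⟨s, hs1, hs2⟩ := exists_mem_notMem_of_card_lt_card hlt
  have hs3 := mem_Icc.mp hs1
  have hdiv : ∀ a, 1 ≤ a → a ≤ n → M / a = n.factorial / a * primorial z := by
    intro a h1 h2
    obtain ⟨c, hc⟩ := Nat.dvd_factorial h1 h2
    rw [hM, hc, mul_assoc, Nat.mul_div_cancel_left _ h1, Nat.mul_div_cancel_left _ h1]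
  have hbig : ∀ a, 1 ≤ a → a ≤ n → ∀ p : ℕ, p.Prime → p ∣ 1 + M / a * s → K * z < p := by
    intro a h1 h2 p hp hd
    by_contra hle
    by_cases hpz : p ≤ z
    · have h3 : p ∣ M / a * s := by
        rw [hdiv a h1 h2]
        exact Dvd.dvd.mul_right (Dvd.dvd.mul_left (hp.dvd_primorial_iff.mpr hpz) _) _
      exact absurd (Nat.dvd_one.mp ((Nat.dvd_add_left h3).mp hd)) hp.one_lt.ne'
    · apply hs2
      rw [mem_biUnion]
      refine ⟨(a, p), ?_, ?_⟩
      · simp only [I, mem_product, Finset.mem_filter, Nat.mem_primesLE, mem_Icc]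
        exact ⟨⟨h1, h2⟩, ⟨by omega, hp⟩, by omega⟩
      · simp only [bad, Finset.mem_filter]
        exact ⟨hs1, hd⟩
  have homega : ∀ a, 1 ≤ a → a ≤ n →
      ((1 + M / a * s).primeFactors.card : ℝ) * Real.log z ≤ 3 * z := by
    intro a h1 h2
    set u := 1 + M / a * s with hu
    have b1 : z ^ u.primeFactors.card ≤ u := by
      calc z ^ u.primeFactors.card ≤ ∏ p ∈ u.primeFactors, p := by
            apply pow_card_le_prod
            intro p hp
            have := hbig a h1 h2 p (Nat.prime_of_mem_primeFactors hp)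
              (Nat.dvd_of_mem_primeFactors hp)
            omega
        _ ≤ u := Nat.le_of_dvd (by omega) (Nat.prod_primeFactors_dvd u)
    have b2 : u ≤ 2 ^ (4 * z) := by
      have c1 : M / a ≤ M := Nat.div_le_self _ _
      have c2 : M / a * s ≤ M * z := Nat.mul_le_mul c1 hs3.2
      have c3 : 1 ≤ M * z := Nat.mul_pos hMpos (by omega)
      have c4 : z ≤ 2 ^ z := Nat.lt_two_pow_self.le
      have c5 : primorial z ≤ 4 ^ z := primorial_le_four_pow z
      calc u ≤ 2 * (M * z) := by omega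
        _ = (2 * n.factorial) * primorial z * z := by rw [hM]; ring
        _ ≤ 2 ^ z * 4 ^ z * 2 ^ z := Nat.mul_le_mul (Nat.mul_le_mul (hz5.trans c4) c5) c4
        _ = 2 ^ (4 * z) := by
          rw [show (4 : ℕ) = 2 ^ 2 by norm_num, ← pow_mul, ← pow_add, ← pow_add]
          congr 1
          ring
    have b3 : (z : ℝ) ^ u.primeFactors.card ≤ 2 ^ (4 * z) := by exact_mod_cast b1.trans b2
    have b4 := Real.log_le_log (by positivity) b3
    rw [Real.log_pow, Real.log_pow] at b4
    push_cast at b4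
    have := Real.log_two_lt_d9
    nlinarith
  refine ⟨M * s, (Icc 1 n).biUnion (fun a => (1 + M / a * s).primeFactors), K * z,
    Nat.mul_pos hMpos hs3.1, ?_, ?_, ?_⟩
  · intro p hp
    obtain ⟨a, ha, hp⟩ := mem_biUnion.mp hp
    exact hbig a (mem_Icc.mp ha).1 (mem_Icc.mp ha).2 p (Nat.prime_of_mem_primeFactors hp)
      (Nat.dvd_of_mem_primeFactors hp)
  · have b1 : (((Icc 1 n).biUnion (fun a => (1 + M / a * s).primeFactors)).card : ℝ)
        ≤ ∑ a ∈ Icc 1 n, ((1 + M / a * s).primeFactors.card : ℝ) := by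
      exact_mod_cast card_biUnion_le
    have b2 : (∑ a ∈ Icc 1 n, ((1 + M / a * s).primeFactors.card : ℝ)) * Real.log z
        ≤ n * (3 * z) := by
      rw [sum_mul]
      refine (sum_le_sum (fun a ha => homega a (mem_Icc.mp ha).1 (mem_Icc.mp ha).2)).trans ?_
      simp
    have b3 := pi_lower (K * z) (by omega)
    rw [div_le_iff₀ (by linarith)] at b3
    have b4 : 2 * (Nat.primeCounting (K * z) : ℝ) * Real.log ((K * z : ℕ) : ℝ)
        ≤ 2 * (Nat.primeCounting (K * z) : ℝ) * (2 * Real.log z) := by gcongr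
    have b5 : ((K * z : ℕ) : ℝ) = (12 * n * D + 1) * z := by rw [hK]; push_cast; ring
    set r : ℝ := (((Icc 1 n).biUnion (fun a => (1 + M / a * s).primeFactors)).card : ℝ) with hr
    have b6 : r * Real.log z ≤ n * (3 * z) := le_trans (by gcongr) b2
    have b7 : (D : ℝ) * (r * Real.log z) ≤ D * (n * (3 * z)) := by gcongr
    have b8 : (D : ℝ) * r * Real.log z ≤ (Nat.primeCounting (K * z) : ℝ) * Real.log z := by
      nlinarith
    have b9 := le_of_mul_le_mul_right b8 hlz
    rw [hr] at b9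
    exact_mod_cast b9
  · intro a h1 h2
    have hd : a ∣ M := Dvd.dvd.mul_right (Nat.dvd_factorial h1 h2) _
    refine ⟨Dvd.dvd.mul_right hd s, fun p hp hpd => ?_⟩
    have e : a + M * s = a * (1 + M / a * s) := by
      rw [mul_add, ← mul_assoc, Nat.mul_div_cancel' hd, mul_one]
    rw [e] at hpd
    rcases (Nat.Prime.dvd_mul hp).mp hpd with h | h
    · exact Or.inl h
    · exact Or.inr (mem_biUnion.mpr ⟨a, mem_Icc.mpr ⟨h1, h2⟩,
        Nat.mem_primeFactors.mpr ⟨hp, h, by omega⟩⟩)

theorem half (x r : ℕ) (hr : r < 2) : ∃ F : Finset ℕ, F.card = Nat.primeCounting x / 2 ∧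
    ∀ p ∈ F, p.Prime ∧ p ≤ x ∧ Nat.primeCounting' p % 2 = r := by
  refine ⟨(range (Nat.primeCounting x / 2)).image (fun j => Nat.nth Nat.Prime (2 * j + r)), ?_, ?_⟩
  · rw [card_image_of_injective, card_range]
    intro i j h
    have := Nat.nth_injective Nat.infinite_setOfPred_prime h
    omega
  · intro p hp
    obtain ⟨j, hj, rfl⟩ := mem_image.mp hp
    refine ⟨Nat.prime_nth_prime _, ?_, ?_⟩
    · have h1 : 2 * j + r < Nat.count Nat.Prime (x + 1) := by
        have := mem_range.mp hj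
        change j < Nat.count Nat.Prime (x + 1) / 2 at this
        omega
      have := Nat.nth_lt_of_lt_count h1
      omega
    · rw [Nat.primeCounting'_nth_eq]; omega

/-- There exists a set P of primes with both P and its complement in the primes having ≫ x/log x elements up to x, such that the set of positive integers with all prime factors in P has the translation property. -/
theorem result :
    ∃ P : Set ℕ, P ⊆ {p : ℕ | p.Prime} ∧ (fun x : ℕ ↦ (x : ℝ) / Real.log x) =O[atTop] (fun x ↦ ((P ∩ Set.Iic x).ncard : ℝ)) ∧ (fun x : ℕ ↦ (x : ℝ) / Real.log x) =O[atTop] (fun x ↦ ((({p : ℕ | p.Prime} \ P) ∩ Set.Iic x).ncard : ℝ)) ∧ HasTranslationProperty (composedOf P) := by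
  classical
  choose t R w ht hR hD ha using fun n => stage n (2 ^ (n + 3))
  let P : Set ℕ := {p | p.Prime ∧ (Nat.primeCounting' p % 2 = 1 ∨ ∃ n, p ∈ R n)}
  have hfin : ∀ (A : Set ℕ) (x : ℕ), (A ∩ Set.Iic x).Finite :=
    fun A x => (Set.finite_Iic x).inter_of_right A
  have hO : ∀ A : Set ℕ, (∀ x, 4 ≤ Nat.primeCounting x →
      Nat.primeCounting x ≤ 8 * (A ∩ Set.Iic x).ncard) →
      (fun x : ℕ ↦ (x : ℝ) / Real.log x) =O[atTop] (fun x ↦ ((A ∩ Set.Iic x).ncard : ℝ)) := by
    intro A hA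
    apply IsBigO.of_bound 16
    filter_upwards [eventually_ge_atTop 16,
      Nat.tendsto_primeCounting.eventually (eventually_ge_atTop 4)] with x h1 h2
    have h3 := pi_lower x h1
    have h4 : (Nat.primeCounting x : ℝ) ≤ 8 * ((A ∩ Set.Iic x).ncard : ℝ) := by
      exact_mod_cast hA x h2
    have h5 : (1 : ℝ) ≤ x := by
      have : 1 ≤ x := by omega
      exact_mod_cast this
    rw [Real.norm_of_nonneg (div_nonneg (by linarith) (Real.log_nonneg h5)),
      Real.norm_of_nonneg (by positivity)]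
    linarith
  refine ⟨P, fun p hp => hp.1, hO _ ?_, hO _ ?_, ?_⟩
  · intro x hx
    obtain ⟨F, hF1, hF2⟩ := half x 1 (by norm_num)
    have : (F : Set ℕ) ⊆ P ∩ Set.Iic x := fun p hp =>
      ⟨⟨(hF2 p hp).1, Or.inl (hF2 p hp).2.2⟩, (hF2 p hp).2.1⟩
    have h2 := Set.ncard_le_ncard this (hfin _ _)
    rw [Set.ncard_coe_finset] at h2
    omega
  · intro x hx
    obtain ⟨F, hF1, hF2⟩ := half x 0 (by norm_num)
    set N := Nat.primeCounting x with hN
    have hRn : ∀ n, 2 ^ (n + 3) * ((R n).filter (· ≤ x)).card ≤ N := by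
      intro n
      by_cases h : x ≤ w n
      · have : (R n).filter (· ≤ x) = ∅ := by
          apply filter_eq_empty_iff.mpr
          intro p hp
          have := hR n p hp
          omega
        simp [this]
      · exact (Nat.mul_le_mul_left _ (card_filter_le _ _)).trans
          ((hD n).trans (Nat.monotone_primeCounting (by omega)))
    let G : Finset ℕ := (range N).biUnion (fun n => (R n).filter (· ≤ x))
    have hG : 4 * G.card ≤ N := by
      have b1 : (G.card : ℝ) ≤ ∑ n ∈ range N, (((R n).filter (· ≤ x)).card : ℝ) := by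
        exact_mod_cast card_biUnion_le
      have b2 : ∑ n ∈ range N, (((R n).filter (· ≤ x)).card : ℝ)
          ≤ ∑ n ∈ range N, (N : ℝ) / 8 * (1 / 2) ^ n := by
        apply sum_le_sum
        intro n _
        have c1 : (2 : ℝ) ^ (n + 3) * (((R n).filter (· ≤ x)).card : ℝ) ≤ N := by
          exact_mod_cast hRn n
        have c2 : (N : ℝ) / 8 * (1 / 2) ^ n = N / 2 ^ (n + 3) := by
          rw [one_div_pow, pow_add]; field_simp; norm_num
        rw [c2, le_div_iff₀ (by positivity)]
        linarith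
      rw [← mul_sum] at b2
      have b3 := sum_geometric_two_le N
      have b4 : (N : ℝ) / 8 * ∑ n ∈ range N, (1 / 2 : ℝ) ^ n ≤ N / 8 * 2 := by gcongr
      have b5 : (4 : ℝ) * G.card ≤ N := by linarith
      exact_mod_cast b5
    have hsub : ((F \ G : Finset ℕ) : Set ℕ) ⊆ ({p : ℕ | p.Prime} \ P) ∩ Set.Iic x := by
      intro p hp
      have hp' := Finset.mem_sdiff.mp (Finset.mem_coe.mp hp)
      obtain ⟨q1, q2, q3⟩ := hF2 p hp'.1
      refine ⟨⟨q1, ?_⟩, q2⟩
      rintro ⟨_, h | ⟨n, h⟩⟩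
      · omega
      · have hm : p ∈ (R n).filter (· ≤ x) := Finset.mem_filter.mpr ⟨h, q2⟩
        apply hp'.2
        refine mem_biUnion.mpr ⟨n, mem_range.mpr ?_, hm⟩
        have c1 := card_pos.mpr ⟨p, hm⟩
        have c2 := hRn n
        have c3 : n + 3 < 2 ^ (n + 3) := Nat.lt_two_pow_self
        nlinarith
    have h2 := Set.ncard_le_ncard hsub (hfin _ _)
    rw [Set.ncard_coe_finset] at h2
    have h3 := le_card_sdiff G F
    omega
  · intro n
    refine ⟨t n, ht n, fun a h1 h2 => ⟨?_, ?_⟩⟩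
    · rintro ⟨_, h⟩
      refine ⟨by omega, fun p hp hd => ?_⟩
      rcases (ha n a h1 h2).2 p hp hd with h3 | h3
      · exact h p hp h3
      · exact ⟨hp, Or.inr ⟨n, h3⟩⟩
    · rintro ⟨_, h⟩
      exact ⟨by omega, fun p hp hd => h p hp (dvd_add hd (hd.trans (ha n a h1 h2).1))⟩

end Pool.Agent.S16227
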