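import Pool.Statements.S16388

set_option autoImplicit false
open Filter Topology
open Pool Pool.MP_2ab887_nt

namespace Pool.Agent.S16388

open WithZero Polynomial

section dyn
variable {K : Type} [Field K]

/-- the linear map -/
def LL (s : K) (x : Fin 3 → K) : Fin 3 → K :=
  ![s * x 0, (1 - s) * x 1, (s - 1) * x 0 - s * x 1 + x 2]

/-- the quadratic perturbation -/
def GG (x : Fin 3 → K) : Fin 3 → K :=
  ![x 0 * x 1 - x 2 ^ 2, x 1 ^ 2 - x 0 * x 2, x 0 ^ 2]

/-- the endomorphism of the plane -/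
def ff (s μ : K) (x : Fin 3 → K) : Fin 3 → K := LL s (x 2 • x + μ • GG x)

lemma ff_zero {s μ : K} (h1 : s ≠ 0) (h2 : 1 - s ≠ 0) (h3 : μ ≠ 0) (x : Fin 3 → K)
    (h : ff s μ x = 0) : x = 0 := by
  have e0 := congrFun h 0
  have e1 := congrFun h 1
  have e2 := congrFun h 2
  simp [ff, LL, GG, h1, h2] at e0 e1 e2
  rw [e0, e1] at e2
  simp only [mul_zero, sub_zero, zero_add] at e2
  have hz : μ ^ 2 * x 2 ^ 6 = 0 := by
    linear_combination (μ * x 0 ^ 2 * x 2 * x 2) * e1 - (μ * x 0 ^ 2 * x 2 * x 1) * e2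
      - (μ * (2 * x 2 ^ 3 + x 0 ^ 3) + μ * (x 0 * x 1 * x 2 - x 2 ^ 3 - x 0 ^ 3)) *
        (x 2 * e0 - x 0 * e2)
  have z0 : x 2 = 0 := by simpa [h3] using hz
  have u0 : x 0 = 0 := by simpa [h3, z0] using e2
  have v0 : x 1 = 0 := by simpa [h3, z0, u0] using e1
  ext i; fin_cases i <;> simp [z0, u0, v0]

variable (v : Valuation K ℤᵐ⁰)

/-- sup norm -/
def NN (x : Fin 3 → K) : ℤᵐ⁰ := max (v (x 0)) (max (v (x 1)) (v (x 2)))

lemma NN_le {x : Fin 3 → K} {c : ℤᵐ⁰} : NN v x ≤ c ↔ v (x 0) ≤ c ∧ v (x 1) ≤ c ∧ v (x 2) ≤ c := by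
  simp [NN]

lemma NN_lt {x : Fin 3 → K} {c : ℤᵐ⁰} : NN v x < c ↔ v (x 0) < c ∧ v (x 1) < c ∧ v (x 2) < c := by
  simp [NN]

lemma le_NN (x : Fin 3 → K) (i : Fin 3) : v (x i) ≤ NN v x := by
  fin_cases i <;> simp [NN]

lemma NN_smul (c : K) (x : Fin 3 → K) : NN v (c • x) = v c * NN v x := by
  simp [NN, mul_max]

lemma NN_add_le (x y : Fin 3 → K) : NN v (x + y) ≤ max (NN v x) (NN v y) := by
  rw [NN_le]
  refine ⟨?_, ?_, ?_⟩ <;>
  exact (v.map_add _ _).trans (max_le_max (le_NN v x _) (le_NN v y _))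

lemma NN_add_eq {x y : Fin 3 → K} (h : NN v x < NN v y) : NN v (x + y) = NN v y := by
  apply le_antisymm ((NN_add_le v x y).trans (max_le h.le le_rfl))
  by_contra hlt
  push Not at hlt
  have := NN_add_le v (x + y) ((-1 : K) • x)
  rw [NN_smul, show x + y + (-1 : K) • x = y by simp] at this
  simp only [Valuation.map_neg, map_one, one_mul] at this
  exact absurd this (not_le.mpr (max_lt hlt h))

lemma NN_LL {s : K} (h1 : v s = 1) (h2 : v (1 - s) = 1) (x : Fin 3 → K) :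
    NN v (LL s x) = NN v x := by
  have h3 : v (s - 1) = 1 := by rw [← neg_sub, v.map_neg, h2]
  have a0 : v (LL s x 0) = v (x 0) := by simp [LL, h1]
  have a1 : v (LL s x 1) = v (x 1) := by simp [LL, h2]
  apply le_antisymm
  · rw [NN_le, a0, a1]
    refine ⟨le_NN v x 0, le_NN v x 1, ?_⟩
    simp only [LL, Matrix.cons_val]
    refine v.map_add_le (v.map_sub_le ?_ ?_) (le_NN v x 2)
    · simpa [h3] using le_NN v x 0
    · simpa [h1] using le_NN v x 1
  · rw [NN_le]
    refine ⟨a0 ▸ le_NN v _ 0, a1 ▸ le_NN v _ 1, ?_⟩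
    have e : x 2 = LL s x 2 - ((s - 1) * x 0 - s * x 1) := by simp [LL]
    rw [e]
    refine v.map_sub_le (le_NN v _ 2) (v.map_sub_le ?_ ?_)
    · simpa [h3, ← a0] using le_NN v (LL s x) 0
    · simpa [h1, ← a1] using le_NN v (LL s x) 1

lemma mul_le_sq {a b c : ℤᵐ⁰} (h1 : a ≤ c) (h2 : b ≤ c) : a * b ≤ c ^ 2 := by
  rw [sq]; exact mul_le_mul' h1 h2

lemma NN_GG_le (x : Fin 3 → K) : NN v (GG x) ≤ NN v x ^ 2 := by
  rw [NN_le]
  simp only [GG, Matrix.cons_val, sq (x _)]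
  refine ⟨v.map_sub_le ?_ ?_, v.map_sub_le ?_ ?_, ?_⟩ <;>
  (rw [map_mul]; exact mul_le_sq (le_NN v x _) (le_NN v x _))

lemma NN_GG (x : Fin 3 → K) (hx : NN v x ≠ 0) : NN v (GG x) = NN v x ^ 2 := by
  apply le_antisymm (NN_GG_le v x)
  have hp : 0 < NN v x := zero_lt_iff.mpr hx
  rcases (le_NN v x 0).eq_or_lt with h0 | h0
  · refine le_trans (le_of_eq ?_) (le_NN v _ 2)
    simp [GG, h0]
  have hm : ∀ i, v (x 0 * x i) < NN v x ^ 2 := fun i => by
    rw [map_mul, sq]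
    exact (mul_le_mul_right (le_NN v x i) _).trans_lt (mul_lt_mul_of_pos_right h0 hp)
  rcases (le_NN v x 2).eq_or_lt with h2 | h2
  · refine le_trans (le_of_eq ?_) (le_NN v _ 0)
    simp only [GG, Matrix.cons_val]
    rw [v.map_sub_eq_of_lt_right (by rw [map_pow, h2]; exact hm 1), map_pow, h2]
  · have h1 : v (x 1) = NN v x := by
      by_contra hne
      have := (NN_lt v).mpr ⟨h0, (le_NN v x 1).lt_of_ne hne, h2⟩
      exact lt_irrefl _ this
    refine le_trans (le_of_eq ?_) (le_NN v _ 1)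
    simp only [GG, Matrix.cons_val]
    rw [v.map_sub_eq_of_lt_left (by rw [map_pow, h1]; exact hm 2), map_pow, h1]

lemma step_big {s μ : K} (h1 : v s = 1) (h2 : v (1 - s) = 1) (h3 : 1 < v μ) (x : Fin 3 → K)
    (hx : NN v x ≠ 0) : NN v (ff s μ x) = v μ * NN v x ^ 2 := by
  have hp : 0 < NN v x := zero_lt_iff.mpr hx
  rw [ff, NN_LL v h1 h2, NN_add_eq, NN_smul, NN_GG v x hx]
  rw [NN_smul, NN_smul, NN_GG v x hx]
  calc _ ≤ 1 * NN v x ^ 2 := by rw [one_mul]; exact mul_le_sq (le_NN v x 2) le_rfl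
    _ < _ := mul_lt_mul_of_pos_right h3 (pow_pos hp 2)

lemma step_unit {s μ : K} (h1 : v s = 1) (h2 : v (1 - s) = 1) (h3 : v μ = 1) (x : Fin 3 → K)
    (hx : NN v x = 1) : NN v (ff s μ x) = 1 := by
  rw [ff, NN_LL v h1 h2]
  have hle : NN v (x 2 • x + μ • GG x) ≤ 1 := by
    refine (NN_add_le v _ _).trans (max_le ?_ ?_)
    · rw [NN_smul, hx, mul_one, ← hx]; exact le_NN v x 2
    · rw [NN_smul, h3, one_mul, NN_GG v x (by simp [hx]), hx, one_pow]
  refine hle.antisymm (not_lt.mp fun hlt => ?_)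
  obtain ⟨e0, e1, e2⟩ := (NN_lt v).mp hlt
  obtain ⟨a0, a1, a2⟩ := (NN_le v).mp hx.le
  simp only [GG, Pi.add_apply, Pi.smul_apply, smul_eq_mul, Matrix.cons_val] at e0 e1 e2
  have mI : ∀ {a b : K}, v a ≤ 1 → v b ≤ 1 → v (a * b) ≤ 1 := fun ha hb => by
    rw [map_mul]; exact mul_le_one' ha hb
  have pI : ∀ {a : K} (n : ℕ), v a ≤ 1 → v (a ^ n) ≤ 1 := fun n ha => by
    rw [map_pow]; exact pow_le_one' ha n
  have mM : ∀ {a b : K}, v a ≤ 1 → v b < 1 → v (a * b) < 1 := fun ha hb => by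
    rw [map_mul, mul_comm]; exact mul_lt_one_of_lt_of_le hb ha
  have mM' : ∀ {a b : K}, v a < 1 → v b ≤ 1 → v (a * b) < 1 := fun ha hb => by
    rw [mul_comm]; exact mM hb ha
  have pM : ∀ {a : K} (n : ℕ), v (μ ^ 2 * a ^ n) < 1 → v a < 1 := fun n ha => by
    rw [map_mul, map_pow, h3, one_pow, one_mul, map_pow] at ha
    exact lt_of_pow_lt_pow_left' n (by simpa using ha)
  have hz : μ ^ 2 * x 2 ^ 6 = (μ * x 0 ^ 2 * x 2) * (x 2 * (x 2 * x 1 + μ * (x 1 ^ 2 - x 0 * x 2))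
      - x 1 * (x 2 * x 2 + μ * x 0 ^ 2)) - (μ * (x 2 ^ 3 + x 0 * x 1 * x 2)) *
      (x 2 * (x 2 * x 0 + μ * (x 0 * x 1 - x 2 ^ 2)) - x 0 * (x 2 * x 2 + μ * x 0 ^ 2)) := by ring
  have z0 : v (x 2) < 1 := by
    apply pM 6
    rw [hz]
    exact v.map_sub_lt (mM (mI (mI h3.le (pI 2 a0)) a2) (v.map_sub_lt (mM a2 e1) (mM a1 e2)))
      (mM (mI h3.le (v.map_add_le (pI 3 a2) (mI (mI a0 a1) a2)))
        (v.map_sub_lt (mM a2 e0) (mM a0 e2)))
  have u0 : v (x 0) < 1 := by
    apply pM 2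
    rw [show μ ^ 2 * x 0 ^ 2 = μ * ((x 2 * x 2 + μ * x 0 ^ 2) - x 2 * x 2) by ring]
    exact mM h3.le (v.map_sub_lt e2 (mM a2 z0))
  have v0 : v (x 1) < 1 := by
    apply pM 2
    rw [show μ ^ 2 * x 1 ^ 2 = μ * ((x 2 * x 1 + μ * (x 1 ^ 2 - x 0 * x 2)) - x 2 * x 1
      + μ * (x 0 * x 2)) by ring]
    exact mM h3.le (v.map_add_lt (v.map_sub_lt e1 (mM' z0 a1)) (mM h3.le (mM a0 z0)))
  exact lt_irrefl _ (hx ▸ (NN_lt v).mpr ⟨u0, v0, z0⟩)

/-- the orbit under the linear map -/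
def AA (s t : K) (n : ℕ) : Fin 3 → K :=
  ![s ^ n * (1 + t), (1 - s) ^ n, (s ^ n + (1 - s) ^ n - 1) + s ^ n * t]

lemma LL_AA (s t : K) (n : ℕ) : LL s (AA s t n) = AA s t (n + 1) := by
  ext i; fin_cases i <;> simp [LL, AA] <;> ring

lemma LL_add (s : K) (x y : Fin 3 → K) : LL s (x + y) = LL s x + LL s y := by
  ext i; fin_cases i <;> simp [LL] <;> ring

lemma LL_smul (s c : K) (x : Fin 3 → K) : LL s (c • x) = c • LL s x := by
  ext i; fin_cases i <;> simp [LL] <;> ring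

lemma GG_smul (c : K) (x : Fin 3 → K) : GG (c • x) = c ^ 2 • GG x := by
  ext i; fin_cases i <;> simp [GG] <;> ring

lemma ff_smul (s μ c : K) (x : Fin 3 → K) : ff s μ (c • x) = c ^ 2 • ff s μ x := by
  rw [ff, ff, GG_smul, ← LL_smul]
  congr 1
  ext i; simp; ring

/-- accumulated cancellation -/
def ee (c : ℕ → ℕ) : ℕ → ℕ
  | 0 => 0
  | n + 1 => 2 * ee c n + c n

lemma small {s t : K} (h1 : v s = 1) (h2 : v (1 - s) = 1) (ht : v t < 1) (ht0 : t ≠ 0) (c : ℕ → ℕ)
    (hc : ∀ n, (c n = 1 ∧ s ^ n + (1 - s) ^ n - 1 = 0) ∨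
      (c n = 0 ∧ v (s ^ n + (1 - s) ^ n - 1) = 1)) (n : ℕ) :
    NN v ((ff s (t ^ 3))^[n] (AA s t 0)) = v t ^ ee c n := by
  have hA : ∀ n, NN v (AA s t n) = 1 := by
    intro n
    induction n with
    | zero =>
      apply le_antisymm
      · rw [NN_le]; simp only [AA, Matrix.cons_val, pow_zero, one_mul, map_one]
        exact ⟨v.map_add_le (by simp) ht.le, le_rfl, v.map_add_le (by simp) ht.le⟩
      · refine le_trans (le_of_eq ?_) (le_NN v _ 1); simp [AA]
    | succ n ih => rw [← LL_AA, NN_LL v h1 h2, ih]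
  have hvt : 0 < v t := zero_lt_iff.mpr (by simpa using ht0)
  have ht2 : v t ^ 2 < 1 := pow_lt_one' ht (by norm_num)
  have hY : ∀ n (R : Fin 3 → K), NN v R ≤ 1 → NN v (t ^ 2 • R + AA s t n) = 1 := by
    intro n R hR
    rw [NN_add_eq, hA]
    rw [hA, NN_smul, map_pow]
    exact mul_lt_one_of_lt_of_le ht2 hR
  have key : ∀ n, ∃ (l : K) (R : Fin 3 → K), v l = v t ^ ee c n ∧ NN v R ≤ 1 ∧
      (ff s (t ^ 3))^[n] (AA s t 0) = l • (t ^ 2 • R + AA s t n) := by
    intro n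
    induction n with
    | zero => exact ⟨1, 0, by simp [ee], by simp [NN], by simp⟩
    | succ n ih =>
      obtain ⟨l, R, hl, hR, e⟩ := ih
      set Y := t ^ 2 • R + AA s t n with hYdef
      have hR2 : v (R 2) ≤ 1 := (le_NN v R 2).trans hR
      have hz : v (Y 2) = v t ^ c n ∧ v t ≤ v (Y 2) := by
        have e2 : Y 2 = (s ^ n + (1 - s) ^ n - 1) + t * (s ^ n + t * R 2) := by
          simp only [hYdef, AA, Pi.add_apply, Pi.smul_apply, smul_eq_mul, Matrix.cons_val]; ring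
        have e3 : v (s ^ n + t * R 2) = 1 := by
          rw [v.map_add_eq_of_lt_left, map_pow, h1, one_pow]
          rw [map_pow, h1, one_pow, map_mul]
          exact mul_lt_one_of_lt_of_le ht hR2
        rcases hc n with ⟨a, b⟩ | ⟨a, b⟩
        · rw [e2, a, b, zero_add, map_mul, e3]; simp
        · rw [e2, a, v.map_add_eq_of_lt_left, b]
          · exact ⟨by simp, ht.le⟩
          · rw [b, map_mul, e3, mul_one]; exact ht
      have hz0 : Y 2 ≠ 0 := by
        intro h; rw [h, map_zero] at hz; exact absurd hz.2 (not_le.mpr hvt)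
      refine ⟨l ^ 2 * Y 2, LL s (R + (t / Y 2) • GG Y), ?_, ?_, ?_⟩
      · rw [map_mul, map_pow, hl, hz.1, ee, ← pow_mul, ← pow_add, mul_comm]
      · rw [NN_LL v h1 h2]
        refine (NN_add_le v _ _).trans (max_le hR ?_)
        rw [NN_smul, NN_GG v Y (by rw [hY n R hR]; simp), hY n R hR, one_pow, mul_one, map_div₀]
        exact div_le_one_of_le₀ hz.2 zero_le
      · rw [Function.iterate_succ_apply', e, ff_smul, mul_smul, ← LL_AA, ← LL_smul, ← LL_add,
          ← LL_smul, ff]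
        congr 2
        ext i
        have : AA s t n i = Y i - t ^ 2 * R i := by simp [hYdef]
        simp only [Pi.add_apply, Pi.smul_apply, smul_eq_mul, this]
        field_simp
        ring
  obtain ⟨l, R, hl, hR, e⟩ := key n
  rw [e, NN_smul, hY n R hR, hl, mul_one]

lemma big {s t : K} (h1 : v s = 1) (h2 : v (1 - s) = 1) (ht : v t = exp 1) (n : ℕ) :
    NN v ((ff s (t ^ 3))^[n] (AA s t 0)) = exp (4 * 2 ^ n - 3) := by
  have h3 : (1 : ℤᵐ⁰) < exp 1 := by rw [← exp_zero, exp_lt_exp]; norm_num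
  induction n with
  | zero =>
    have e : v (1 + t) = exp 1 := by rw [v.map_add_eq_of_lt_right, ht]; rw [ht, map_one]; exact h3
    simp [NN, AA, e, h3.le]
  | succ n ih =>
    rw [Function.iterate_succ_apply', step_big v h1 h2, ih, map_pow, ht, ← exp_nsmul, ← exp_nsmul,
      ← exp_add]
    · congr 1; simp; ring
    · rw [map_pow, ht]; exact one_lt_pow' h3 (by norm_num)
    · rw [ih]; exact exp_ne_zero

lemma unit {s t : K} (h1 : v s = 1) (h2 : v (1 - s) = 1) (ht : v t = 1) (n : ℕ) :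
    NN v ((ff s (t ^ 3))^[n] (AA s t 0)) = 1 := by
  induction n with
  | zero =>
    apply le_antisymm
    · rw [NN_le]
      simp only [AA, Matrix.cons_val, pow_zero, one_mul, map_one, Function.iterate_zero, id]
      exact ⟨v.map_add_le (by simp) ht.le, le_rfl, v.map_add_le (by simp) ht.le⟩
    · refine le_trans (le_of_eq ?_) (le_NN v _ 1); simp [AA]
  | succ n ih =>
    rw [Function.iterate_succ_apply', step_unit v h1 h2 (by simp [ht]) _ ih]

lemma sInf_eq {x : Fin 3 → K} {j : ℤ} (h : NN v x = exp j) :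
    sInf {m : ℤ | ∀ i, v (x i) ≤ WithZero.coe (Multiplicative.ofAdd m)} = j := by
  have : {m : ℤ | ∀ i, v (x i) ≤ WithZero.coe (Multiplicative.ofAdd m)} = Set.Ici j := by
    ext m
    simp only [Set.mem_ofPred_eq, Set.mem_Ici, ← exp_eq_coe_ofAdd]
    rw [← exp_le_exp, ← h, NN_le]
    constructor
    · intro hh; exact ⟨hh 0, hh 1, hh 2⟩
    · rintro ⟨a, b, c⟩ i; fin_cases i <;> assumption
  rw [this, csInf_Ici]

end dyn

section vals
variable {k : Type} [Field k]

lemma zpow_exp {a : ℤᵐ⁰} {m : ℤ} (ha : a ≠ 0) (h : a ^ m = exp 1) : a = exp 1 ∨ a = exp (-1) := by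
  rw [← exp_log ha] at h ⊢
  rw [← exp_zsmul, exp_inj, smul_eq_mul] at h
  rcases Int.eq_one_or_neg_one_of_mul_eq_one' h with h | h
  · left; rw [h.2]
  · right; rw [h.2]

lemma val_inf (v : Valuation (RatFunc k) ℤᵐ⁰) (hc : ∀ c : k, c ≠ 0 → v (RatFunc.C c) = 1)
    (h : 1 < v RatFunc.X) (f : RatFunc k) (hf : f ≠ 0) : v f = v RatFunc.X ^ f.intDegree := by
  have : v.IsTrivialOn k := ⟨fun c hc0 => by simpa using hc c hc0⟩
  exact RatFunc.valuation_eq_valuation_X_zpow_intDegree_of_one_lt_valuation_X h hf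

lemma val_poly_le (v : Valuation (RatFunc k) ℤᵐ⁰) (hc : ∀ c : k, c ≠ 0 → v (RatFunc.C c) = 1)
    (h : v RatFunc.X ≤ 1) (p : k[X]) : v (algebraMap k[X] (RatFunc k) p) ≤ 1 := by
  induction p using Polynomial.induction_on' with
  | add p q hp hq => rw [map_add]; exact v.map_add_le hp hq
  | monomial n a =>
    rw [← C_mul_X_pow_eq_monomial, map_mul, map_pow, RatFunc.algebraMap_C, RatFunc.algebraMap_X,
      map_mul, map_pow]
    refine mul_le_one' ?_ (pow_le_one' h n)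
    by_cases ha : a = 0
    · simp [ha]
    · exact (hc a ha).le

lemma val_poly (v : Valuation (RatFunc k) ℤᵐ⁰) (hc : ∀ c : k, c ≠ 0 → v (RatFunc.C c) = 1)
    (h : v RatFunc.X < 1) (p : k[X]) (hp : p ≠ 0) :
    v (algebraMap k[X] (RatFunc k) p) = v RatFunc.X ^ rootMultiplicity 0 p := by
  obtain ⟨q, h1, h2⟩ := exists_eq_pow_rootMultiplicity_mul_and_not_dvd p hp 0
  simp only [map_zero, sub_zero] at h1 h2
  have h3 : q.coeff 0 ≠ 0 := fun h => h2 (X_dvd_iff.mpr h)
  have h4 : v (algebraMap k[X] (RatFunc k) q) = 1 := by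
    rw [← X_mul_divX_add q, map_add, map_mul, RatFunc.algebraMap_C, RatFunc.algebraMap_X,
      v.map_add_eq_of_lt_right, hc _ h3]
    rw [hc _ h3, map_mul]
    exact mul_lt_one_of_lt_of_le h (val_poly_le v hc h.le _)
  conv_lhs => rw [h1]
  rw [map_mul, map_mul, h4, map_pow, map_pow, RatFunc.algebraMap_X, mul_one]

lemma val_zero (v : Valuation (RatFunc k) ℤᵐ⁰) (hc : ∀ c : k, c ≠ 0 → v (RatFunc.C c) = 1)
    (h : v RatFunc.X < 1) (f : RatFunc k) (hf : f ≠ 0) :
    v f = v RatFunc.X ^ ((rootMultiplicity 0 f.num : ℤ) - rootMultiplicity 0 f.denom) := by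
  have hX : v RatFunc.X ≠ 0 := by simpa using RatFunc.X_ne_zero
  conv_lhs => rw [← RatFunc.num_div_denom f]
  rw [map_div₀, val_poly v hc h _ (RatFunc.num_ne_zero hf), val_poly v hc h _ f.denom_ne_zero,
    zpow_sub₀ hX, zpow_natCast, zpow_natCast]

lemma X_val {v : Valuation (RatFunc k) ℤᵐ⁰} (hs : Function.Surjective v) (o : RatFunc k → ℤ)
    (h : ∀ f, f ≠ 0 → v f = v RatFunc.X ^ o f) :
    v RatFunc.X = exp 1 ∨ v RatFunc.X = exp (-1) := by
  obtain ⟨f, hf⟩ := hs (exp 1)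
  have hf0 : f ≠ 0 := by rintro rfl; simp at hf; exact exp_ne_zero hf.symm
  rw [h f hf0] at hf
  exact zpow_exp (by simpa using RatFunc.X_ne_zero) hf

lemma val_ext {v w : Valuation (RatFunc k) ℤᵐ⁰} (o : RatFunc k → ℤ)
    (hv : ∀ f, f ≠ 0 → v f = v RatFunc.X ^ o f) (hw : ∀ f, f ≠ 0 → w f = w RatFunc.X ^ o f)
    (h : v RatFunc.X = w RatFunc.X) : v = w := by
  ext f
  by_cases hf : f = 0
  · simp [hf]
  · rw [hv f hf, hw f hf, h]

end vals

lemma pow_two_of (n : ℕ) (h : (X : (ZMod 2)[X]) ^ n + (1 - X) ^ n - 1 = 0) : ∃ j, n = 2 ^ j := by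
  induction n using Nat.strong_induction_on with
  | _ n ih =>
    rcases Nat.even_or_odd' n with ⟨m, rfl | rfl⟩
    · rcases Nat.eq_zero_or_pos m with rfl | hm
      · simp at h
      have h2 : ((X : (ZMod 2)[X]) ^ m + (1 - X) ^ m - 1) ^ 2 = 0 := by
        rw [sub_pow_char, add_pow_char, ← pow_mul, ← pow_mul, mul_comm m 2, one_pow]; exact h
      obtain ⟨j, rfl⟩ := ih m (by omega) (pow_eq_zero_iff (by norm_num) |>.mp h2)
      exact ⟨j + 1, by ring⟩
    · rcases Nat.eq_zero_or_pos m with rfl | hm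
      · exact ⟨0, rfl⟩
      exfalso
      have h2 := congrArg (fun p => (derivative p).eval 0) h
      simp [derivative_pow, hm.ne'] at h2
      have : ((2 : ZMod 2)) = 0 := rfl
      rw [this] at h2
      simp at h2

lemma of_pow_two (j : ℕ) : (X : (ZMod 2)[X]) ^ 2 ^ j + (1 - X) ^ 2 ^ j - 1 = 0 := by
  rw [sub_pow_char_pow]; simp

lemma irr (c : ℕ → ℕ) (h1 : ∀ n, c n ≤ 1) (h2 : ∀ j, c (2 ^ j) = 1)
    (h3 : ∀ n, c n ≠ 0 → ∃ j, n = 2 ^ j) (r : ℚ)
    (h : Tendsto (fun n => (ee c n : ℝ) / 2 ^ n) atTop (𝓝 (r : ℝ))) : False := by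
  set y : ℕ → ℝ := fun n => (ee c n : ℝ) / 2 ^ n with hy
  have hs : ∀ n, y (n + 1) = y n + c n / 2 ^ (n + 1) := fun n => by
    simp only [hy, ee]; push_cast; field_simp; ring
  have mono : Monotone y := monotone_nat_of_le_succ fun n => by rw [hs]; simp; positivity
  have anti : Antitone fun n => y n + 1 / 2 ^ n := antitone_nat_of_succ_le fun n => by
    have : (c n : ℝ) ≤ 1 := by exact_mod_cast h1 n
    rw [hs, add_assoc, ← add_div, pow_succ, add_le_add_iff_left,
      div_le_div_iff₀ (by positivity) (by positivity)]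
    nlinarith [pow_pos (show (0:ℝ) < 2 by norm_num) n]
  have lim2 : Tendsto (fun n => y n + 1 / 2 ^ n) atTop (𝓝 (r : ℝ)) := by
    have := h.add (tendsto_pow_atTop_nhds_zero_of_lt_one (r := (1 / 2 : ℝ)) (by norm_num)
      (by norm_num))
    simpa using this
  set j := r.den with hj
  have hlt : j < 2 ^ j := Nat.lt_two_pow_self
  have hj0 : 0 < j := r.den_pos
  have flat : ∀ m, 2 ^ (j + 1) + 1 + m ≤ 2 ^ (j + 2) → y (2 ^ (j + 1) + 1 + m) = y (2 ^ (j + 1) + 1) := by
    intro m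
    induction m with
    | zero => simp
    | succ m ih =>
      intro hm
      rw [← add_assoc, hs, ih (by omega)]
      have : c (2 ^ (j + 1) + 1 + m) = 0 := by
        by_contra hne
        obtain ⟨i, hi⟩ := h3 _ hne
        have a1 : 2 ^ (j + 1) < 2 ^ i := by omega
        have a2 : 2 ^ i < 2 ^ (j + 2) := by omega
        rw [Nat.pow_lt_pow_iff_right (by norm_num)] at a1 a2
        omega
      simp [this]
  have e0 : 2 ^ (j + 2) = 2 ^ (j + 1) + 1 + (2 ^ (j + 1) - 1) := by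
    have : 0 < 2 ^ (j + 1) := by positivity
    rw [pow_succ 2 (j + 1)]; omega
  have f1 := flat (2 ^ (j + 1) - 1) (by omega)
  rw [← e0] at f1
  have lo := mono.ge_of_tendsto h (2 ^ (j + 2) + 1)
  have hi := anti.le_of_tendsto lim2 (2 ^ (j + 2))
  rw [hs, h2, f1] at lo
  simp only [f1] at hi
  set N := 2 ^ (j + 1) + 1 with hN
  have p1 : (0:ℝ) < (r : ℝ) - y N := by
    have : (0:ℝ) < ((1:ℕ):ℝ) / 2 ^ (2 ^ (j + 2) + 1) := by positivity
    linarith
  have p2 : ((r.num * 2 ^ N - j * ee c N : ℤ) : ℝ) = j * 2 ^ N * ((r : ℝ) - y N) := by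
    have : (r : ℝ) * j = r.num := by exact_mod_cast Rat.mul_den_eq_num r
    simp only [hy]
    push_cast
    rw [← this]; field_simp
  have p3 : (0:ℝ) < ((r.num * 2 ^ N - j * ee c N : ℤ) : ℝ) := by rw [p2]; positivity
  have p4 : ((r.num * 2 ^ N - j * ee c N : ℤ) : ℝ) < 1 := by
    rw [p2]
    have q1 : j * 2 ^ N < 2 ^ 2 ^ (j + 2) := by
      calc j * 2 ^ N < 2 ^ j * 2 ^ N := by gcongr
        _ = 2 ^ (j + N) := by ring
        _ ≤ _ := Nat.pow_le_pow_right (by norm_num) (by rw [e0, pow_succ]; omega)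
    have q2 : (j : ℝ) * 2 ^ N < 2 ^ 2 ^ (j + 2) := by exact_mod_cast q1
    calc _ ≤ (j : ℝ) * 2 ^ N * (1 / 2 ^ 2 ^ (j + 2)) := by gcongr; linarith
      _ < 1 := by rw [mul_one_div, div_lt_one (by positivity)]; exact q2
  have p5 : 0 < r.num * 2 ^ N - j * ee c N := by exact_mod_cast p3
  have p6 : r.num * 2 ^ N - j * ee c N < 1 := by exact_mod_cast p4
  omega

/-- the polynomials -/
noncomputable def FF {K : Type} [Field K] (s μ : K) : Fin 3 → MvPolynomial (Fin 3) K :=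
  let u : MvPolynomial (Fin 3) K := .X 0
  let w : MvPolynomial (Fin 3) K := .X 1
  let z : MvPolynomial (Fin 3) K := .X 2
  let E0 := z * u + .C μ * (u * w - z * z)
  let E1 := z * w + .C μ * (w * w - u * z)
  let E2 := z * z + .C μ * (u * u)
  ![.C s * E0, .C (1 - s) * E1, .C (s - 1) * E0 - .C s * E1 + E2]

lemma FF_hom {K : Type} [Field K] (s μ : K) (i : Fin 3) : (FF s μ i).IsHomogeneous 2 := by
  have h : ∀ a b : Fin 3, (.X a * .X b : MvPolynomial (Fin 3) K).IsHomogeneous 2 := fun a b =>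
    (MvPolynomial.isHomogeneous_X K a).mul (MvPolynomial.isHomogeneous_X K b)
  have h0 := (h 2 0).add (((h 0 1).sub (h 2 2)).C_mul μ)
  have h1 := (h 2 1).add (((h 1 1).sub (h 0 2)).C_mul μ)
  have h2 := (h 2 2).add ((h 0 0).C_mul μ)
  fin_cases i
  · exact h0.C_mul s
  · exact h1.C_mul (1 - s)
  · exact ((h0.C_mul (s - 1)).sub (h1.C_mul s)).add h2

lemma FF_aeval {K L : Type} [Field K] [Field L] [Algebra K L] (s μ : K) (y : Fin 3 → L)
    (i : Fin 3) : MvPolynomial.aeval y (FF s μ i) =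
      ff (algebraMap K L s) (algebraMap K L μ) y i := by
  fin_cases i <;> simp [FF, ff, LL, GG, -algebraMap_smul, -mul_eq_mul_left_iff] <;> ring

/-- Over `k(t)` with `k` the algebraic closure of `F_2(s)`, a quadratic endomorphism of the plane
has a point whose canonical height is `4 - ∑ 2 ^ (-(2 ^ j) - 1)`, an irrational number. -/
theorem result :
    ¬ (∀ (k K : Type) [Field k] [IsAlgClosed k] [Field K] [Algebra (RatFunc k) K],
      FunctionField k K →
      ∀ (N d : ℕ), 2 ≤ d →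
      ∀ F : Fin (N + 1) → MvPolynomial (Fin (N + 1)) K,
        (∀ i, (F i).IsHomogeneous d) →
        (∀ y : Fin (N + 1) → AlgebraicClosure K,
            (∀ i, MvPolynomial.aeval y (F i) = 0) → y = 0) →
        ∀ x : Fin (N + 1) → K, x ≠ 0 →
          ∃ q : ℚ,
            Tendsto
              (fun n : ℕ =>
                (∑ᶠ v : {v : Valuation K (WithZero (Multiplicative ℤ)) //
                      Function.Surjective v ∧
                        ∀ c : k, c ≠ 0 → v (algebraMap (RatFunc k) K (RatFunc.C c)) = 1},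
                    ((sInf {m : ℤ | ∀ i,
                        v.1 (((fun (z : Fin (N + 1) → K) (j : Fin (N + 1)) =>
                                MvPolynomial.eval z (F j))^[n] x) i)
                          ≤ WithZero.coe (Multiplicative.ofAdd m)} : ℤ) : ℝ))
                  / (d : ℝ) ^ n)
              atTop (𝓝 (q : ℝ))) := by
  classical
  intro H
  let k := AlgebraicClosure (RatFunc (ZMod 2))
  let φ : (ZMod 2)[X] →+* k := (algebraMap (RatFunc (ZMod 2)) k).comp (algebraMap _ _)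
  have hφ : Function.Injective φ :=
    (algebraMap (RatFunc (ZMod 2)) k).injective.comp (IsFractionRing.injective _ _)
  let s0 : k := φ X
  have hs0 : s0 ≠ 0 := (map_ne_zero_iff φ hφ).mpr X_ne_zero
  have hs1 : 1 - s0 ≠ 0 := by
    have : (1 - X : (ZMod 2)[X]) ≠ 0 := fun h => by simpa using congrArg (eval 0) h
    simpa using (map_ne_zero_iff φ hφ).mpr this
  let c : ℕ → ℕ := fun n => if (X : (ZMod 2)[X]) ^ n + (1 - X) ^ n - 1 = 0 then 1 else 0
  let s : RatFunc k := RatFunc.C s0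
  let t : RatFunc k := RatFunc.X
  have ht0 : t ≠ 0 := RatFunc.X_ne_zero
  have hC : Function.Injective (RatFunc.C : k →+* RatFunc k) := RingHom.injective _
  have hs : s ≠ 0 := (map_ne_zero_iff _ hC).mpr hs0
  have e1 : 1 - s = RatFunc.C (1 - s0) := by simp [s]
  have hs' : 1 - s ≠ 0 := e1 ▸ (map_ne_zero_iff _ hC).mpr hs1
  have e2 : ∀ n, s ^ n + (1 - s) ^ n - 1 = RatFunc.C (φ (X ^ n + (1 - X) ^ n - 1)) := fun n => by
    simp [s, s0]
  obtain ⟨q, hq⟩ := H k (RatFunc k) (inferInstanceAs (FiniteDimensional _ _)) 2 2 le_rfl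
    (FF s (t ^ 3)) (FF_hom _ _) (fun y hy => ff_zero
      ((map_ne_zero_iff _ (algebraMap (RatFunc k) _).injective).mpr hs)
      (by simpa using (map_ne_zero_iff _
        (algebraMap (RatFunc k) (AlgebraicClosure (RatFunc k))).injective).mpr hs')
      ((map_ne_zero_iff _ (algebraMap (RatFunc k) _).injective).mpr (pow_ne_zero 3 ht0)) y
      (funext fun i => by rw [← FF_aeval]; exact hy i))
    (AA s t 0) (fun h => by simpa [AA] using congrFun h 1)
  have e3 : (fun (z : Fin (2 + 1) → RatFunc k) (j : Fin (2 + 1)) =>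
      MvPolynomial.eval z (FF s (t ^ 3) j)) = ff s (t ^ 3) := by
    ext z j
    exact FF_aeval (L := RatFunc k) s (t ^ 3) z j
  rw [e3] at hq
  let V := {v : Valuation (RatFunc k) (WithZero (Multiplicative ℤ)) // Function.Surjective v ∧
    ∀ c : k, c ≠ 0 → v (algebraMap (RatFunc k) (RatFunc k) (RatFunc.C c)) = 1}
  have lt1 : exp (-1 : ℤ) < 1 := by rw [← exp_zero, exp_lt_exp]; norm_num
  have lt2 : 1 < exp (1 : ℤ) := by rw [← exp_zero, exp_lt_exp]; norm_num
  let vi : V := ⟨RatFunc.inftyValuation k, fun a => by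
      induction a using WithZero.expRecOn with
      | zero => exact ⟨0, by simp⟩
      | exp a => exact ⟨RatFunc.X ^ a, RatFunc.inftyValuation.X_zpow k a⟩,
    fun c hc => RatFunc.inftyValuation.C k hc⟩
  let vz : V := ⟨(Polynomial.idealX k).valuation (RatFunc k),
    (Polynomial.idealX k).valuation_surjective _, fun c hc => by
      apply le_antisymm
      · exact (Polynomial.idealX k).valuation_le_one (K := RatFunc k) (C c)
      · have h1 : (Polynomial.idealX k).valuation (RatFunc k) (algebraMap k[X] _ (C c⁻¹)) ≤ 1 :=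
          (Polynomial.idealX k).valuation_le_one (K := RatFunc k) (C c⁻¹)
        rw [RatFunc.algebraMap_C, map_inv₀, map_inv₀] at h1
        exact (inv_le_one₀ (zero_lt_iff.mpr (by simpa using hc))).mp h1⟩
  have hvi : vi.1 t = exp 1 := RatFunc.inftyValuation.X k
  have hvz : vz.1 t = exp (-1) := Polynomial.valuation_X_eq_neg_one k
  have hne : vi ≠ vz := fun h => by
    rw [h, hvz, exp_inj] at hvi; norm_num at hvi
  have hsm : ∀ v : V, v.1 t < 1 → v = vz := fun v hv => by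
    have a := val_zero v.1 v.2.2 hv
    refine Subtype.ext (val_ext _ a (val_zero vz.1 vz.2.2 (hvz ▸ lt1)) ?_)
    rcases X_val v.2.1 _ a with h | h
    · exact absurd (h ▸ hv : exp (1:ℤ) < 1) (not_lt.mpr lt2.le)
    · exact h.trans hvz.symm
  have hbg : ∀ v : V, 1 < v.1 t → v = vi := fun v hv => by
    have a := val_inf v.1 v.2.2 hv
    refine Subtype.ext (val_ext _ a (val_inf vi.1 vi.2.2 (hvi ▸ lt2)) ?_)
    rcases X_val v.2.1 _ a with h | h
    · exact h.trans hvi.symm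
    · exact absurd (h ▸ hv : 1 < exp (-1:ℤ)) (not_lt.mpr lt1.le)
  have u1 : ∀ v : V, v.1 s = 1 := fun v => v.2.2 _ hs0
  have u2 : ∀ v : V, v.1 (1 - s) = 1 := fun v => e1 ▸ v.2.2 _ hs1
  have hsum : ∀ n, (∑ᶠ v : V, ((sInf {m : ℤ | ∀ i, v.1 (((ff s (t ^ 3))^[n] (AA s t 0)) i)
      ≤ WithZero.coe (Multiplicative.ofAdd m)} : ℤ) : ℝ)) = 4 * 2 ^ n - 3 - ee c n := by
    intro n
    rw [finsum_eq_sum_of_support_subset (s := {vi, vz}), Finset.sum_pair hne,
      sInf_eq _ (big vi.1 (u1 _) (u2 _) hvi n), sInf_eq (j := -(ee c n : ℤ))]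
    · push_cast; ring
    · rw [small vz.1 (u1 _) (u2 _) (hvz ▸ lt1) ht0 c, hvz, ← exp_nsmul]
      · simp
      · intro n
        by_cases h : (X : (ZMod 2)[X]) ^ n + (1 - X) ^ n - 1 = 0
        · left; exact ⟨if_pos h, by rw [e2, h]; simp⟩
        · right; exact ⟨if_neg h, by rw [e2]; exact vz.2.2 _ ((map_ne_zero_iff φ hφ).mpr h)⟩
    · intro v hv
      rcases lt_trichotomy (v.1 t) 1 with h | h | h
      · simp [hsm v h]
      · exfalso
        apply hv
        simp only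
        rw [sInf_eq (j := 0) _ (unit v.1 (u1 _) (u2 _) h n)]; simp
      · simp [hbg v h]
  refine irr c (fun n => by simp only [c]; split_ifs <;> simp) (fun j => if_pos (of_pow_two j))
    (fun n hn => pow_two_of n (by by_contra h; exact hn (if_neg h))) (4 - q) ?_
  have l2 : Tendsto (fun n : ℕ => (3:ℝ) * (1 / 2) ^ n) atTop (𝓝 (3 * 0)) :=
    (tendsto_pow_atTop_nhds_zero_of_lt_one (by norm_num) (by norm_num)).const_mul 3
  have l3 := (hq.add l2).const_sub 4
  simp only [mul_zero, add_zero] at l3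
  push_cast
  refine l3.congr fun n => ?_
  erw [hsum n]
  push_cast
  rw [one_div, inv_pow]
  field_simp
  ring

end Pool.Agent.S16388
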