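import Pool.Statements.S16463

set_option autoImplicit false
open Pool Pool.MP_2fa2bc_nt
open Polynomial

namespace Pool.Agent.S16463

noncomputable def PP : ℤ[X] := X ^ 4 + X ^ 2 + X + 1
noncomputable def TT : ℤ[X] := X ^ 3 - X + 1

lemma PP_monic : PP.Monic := by unfold PP; monicity!
lemma PP_deg : PP.natDegree = 4 := by unfold PP; compute_degree!

lemma PT : PP * TT = X ^ 7 + 2 * X ^ 4 + 1 := by unfold PP TT; ring

lemma len_PT : ∑ i ∈ (PP * TT).support, |(PP * TT).coeff i| ≤ 4 := by
  have hsub : (PP * TT).support ⊆ {0, 4, 7} := by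
    intro i hi
    rw [mem_support_iff, PT] at hi
    by_contra h
    simp only [Finset.mem_insert, Finset.mem_singleton, not_or] at h
    apply hi
    simp [coeff_X_pow, coeff_one, h.1, h.2.1, h.2.2]
  refine (Finset.sum_le_sum_of_subset_of_nonneg hsub (fun _ _ _ => abs_nonneg _)).trans ?_
  rw [PT]
  simp [coeff_X_pow, coeff_one]

lemma PP_irr : Irreducible PP := by
  have h3 : Irreducible (PP.map (Int.castRingHom (ZMod 3))) := by
    have hm : PP.map (Int.castRingHom (ZMod 3)) = X ^ 4 + X ^ 2 + X + 1 := by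
      simp [PP]
    rw [hm]
    have hmon : (X ^ 4 + X ^ 2 + X + 1 : (ZMod 3)[X]).Monic := by monicity!
    have hdeg : (X ^ 4 + X ^ 2 + X + 1 : (ZMod 3)[X]).natDegree = 4 := by compute_degree!
    rw [hmon.irreducible_iff_lt_natDegree_lt (by
      intro h; rw [h] at hdeg; simp at hdeg)]
    intro q hq hqd hdvd
    rw [hdeg] at hqd
    simp only [Finset.mem_Ioc] at hqd
    obtain ⟨r, hr⟩ := hdvd
    have hrm : r.Monic := hq.of_mul_monic_left (hr ▸ hmon)
    have hd := hq.natDegree_mul hrm
    rw [← hr, hdeg] at hd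
    have h12 : q.natDegree = 1 ∨ q.natDegree = 2 := by omega
    rcases h12 with h1 | h2
    · have hq1 := hq.eq_X_add_C h1
      have := congrArg (eval (-(q.coeff 0))) hr
      rw [hq1] at this
      simp at this
      revert this
      generalize q.coeff 0 = a
      revert a; decide
    · have hr2 : r.natDegree = 2 := by omega
      have hq2 : q = X ^ 2 + C (q.coeff 1) * X + C (q.coeff 0) := by
        have := hq.as_sum
        rw [h2] at this
        rw [this]; simp [Finset.sum_range_succ]; ring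
      have hr3 : r = X ^ 2 + C (r.coeff 1) * X + C (r.coeff 0) := by
        have := hrm.as_sum
        rw [hr2] at this
        rw [this]; simp [Finset.sum_range_succ]; ring
      generalize q.coeff 1 = a at hq2
      generalize q.coeff 0 = b at hq2
      generalize r.coeff 1 = c at hr3
      generalize r.coeff 0 = d at hr3
      have e : q * r = X ^ 4 + C (a + c) * X ^ 3 + C (b + d + a * c) * X ^ 2
          + C (a * d + b * c) * X + C (b * d) := by
        rw [hq2, hr3]; simp only [map_add, map_mul]; ring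
      rw [e] at hr
      have c0 := congrArg (coeff · 0) hr
      have c1 := congrArg (coeff · 1) hr
      have c2 := congrArg (coeff · 2) hr
      have c3 := congrArg (coeff · 3) hr
      simp only [coeff_add, coeff_C_mul, coeff_X_pow, coeff_X, coeff_C, coeff_one] at c0 c1 c2 c3
      norm_num at c0 c1 c2 c3
      clear hr e hq2 hr3
      revert c0 c1 c2 c3
      revert a b c d
      decide
  exact PP_monic.irreducible_of_irreducible_map _ _ h3

lemma root_P : ∃ z : ℂ, z ≠ 0 ∧ ‖z‖ ≠ 1 ∧ aeval z PP = 0 := by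
  have hd : (X ^ 4 + X ^ 2 + X + 1 : ℂ[X]).degree = 4 := by compute_degree!
  obtain ⟨z, hz⟩ := Complex.exists_root (f := X ^ 4 + X ^ 2 + X + 1) (by rw [hd]; norm_num)
  have hz' : z ^ 4 + z ^ 2 + z + 1 = 0 := by simpa using hz
  refine ⟨z, ?_, ?_, by simpa [PP] using hz'⟩
  · rintro rfl; simp at hz'
  · intro h
    have h1 : z * (starRingEnd ℂ) z = 1 := by
      rw [Complex.mul_conj, Complex.normSq_eq_norm_sq, h]; simp
    have h2 := congrArg (starRingEnd ℂ) hz'
    simp only [map_add, map_pow, map_one, map_zero] at h2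
    generalize (starRingEnd ℂ) z = w at h1 h2
    have h3 : 1 + z ^ 2 + z ^ 3 + z ^ 4 = 0 := by
      linear_combination z ^ 4 * h2 - ((z * w) ^ 3 + (z * w) ^ 2 + z * w + 1
        + z ^ 2 * (z * w + 1) + z ^ 3) * h1
    have h4 : z ^ 3 = z := by linear_combination h3 - hz'
    have h5 : z ^ 2 = 1 := by linear_combination w * h4 - (z ^ 2 - 1) * h1
    have h6 : z = -3 := by linear_combination hz' - (z ^ 2 + 2) * h5
    rw [h6] at h5; norm_num at h5

lemma root_T : ∃ z : ℂ, z ≠ 0 ∧ ‖z‖ ≠ 1 ∧ aeval z TT = 0 := by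
  have hd : (X ^ 3 - X + 1 : ℂ[X]).degree = 3 := by compute_degree!
  obtain ⟨z, hz⟩ := Complex.exists_root (f := X ^ 3 - X + 1) (by rw [hd]; norm_num)
  have hz' : z ^ 3 - z + 1 = 0 := by simpa using hz
  refine ⟨z, ?_, ?_, by simpa [TT] using hz'⟩
  · rintro rfl; simp at hz'
  · intro h
    have h1 : z * (starRingEnd ℂ) z = 1 := by
      rw [Complex.mul_conj, Complex.normSq_eq_norm_sq, h]; simp
    have h2 := congrArg (starRingEnd ℂ) hz'
    simp only [map_add, map_sub, map_pow, map_one, map_zero] at h2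
    generalize (starRingEnd ℂ) z = w at h1 h2
    have h3 : 1 - z ^ 2 + z ^ 3 = 0 := by
      linear_combination z ^ 3 * h2 - ((z * w) ^ 2 + z * w + 1 - z ^ 2) * h1
    have h4 : z ^ 2 = z := by linear_combination hz' - h3
    have h5 : z = 1 := by linear_combination w * h4 - (z - 1) * h1
    rw [h5] at hz'; norm_num at hz'

lemma lower (F : ℤ[X]) (hF : F ≠ 0) (h4 : (4 : ℤ) ∣ F.eval 1) (z : ℂ) (hz0 : z ≠ 0)
    (hz1 : ‖z‖ ≠ 1) (hz : aeval z F = 0) : 4 ≤ ∑ i ∈ F.support, |F.coeff i| := by
  by_contra hlt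
  push Not at hlt
  have he : F.eval 1 = ∑ i ∈ F.support, F.coeff i := by
    rw [eval_eq_sum, Polynomial.sum]; simp
  have habs : |F.eval 1| ≤ ∑ i ∈ F.support, |F.coeff i| := by
    rw [he]; exact Finset.abs_sum_le_sum_abs _ _
  have h0 : F.eval 1 = 0 := by
    obtain ⟨k, hk⟩ := h4
    rw [hk] at habs ⊢
    have := abs_lt.1 (habs.trans_lt hlt)
    omega
  rw [he] at h0
  have hzs : ∑ i ∈ F.support, (F.coeff i : ℂ) * z ^ i = 0 := by
    rw [aeval_def, eval₂_eq_sum, Polynomial.sum] at hz
    simpa using hz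
  have hne : ∀ i ∈ F.support, F.coeff i ≠ 0 := fun i hi => mem_support_iff.1 hi
  have hcard : (F.support.card : ℤ) ≤ ∑ i ∈ F.support, |F.coeff i| := by
    rw [Finset.card_eq_sum_ones]; push_cast
    exact Finset.sum_le_sum fun i hi => Int.one_le_abs (hne i hi)
  have hpos : 0 < F.support.card := by
    rw [Finset.card_pos, support_nonempty]; exact hF
  have hc : F.support.card = 1 ∨ F.support.card = 2 ∨ F.support.card = 3 := by omega
  rcases hc with h | h | h
  · obtain ⟨a, ha⟩ := Finset.card_eq_one.1 h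
    rw [ha] at h0 hne
    simp at h0 hne
    exact hne h0
  · obtain ⟨a, b, hab, ha⟩ := Finset.card_eq_two.1 h
    rw [ha] at h0 hne hzs
    rw [Finset.sum_pair hab] at h0 hzs
    have hb : F.coeff b = -F.coeff a := by omega
    have ha0 : (F.coeff a : ℂ) ≠ 0 := by exact_mod_cast hne a (by simp)
    rw [hb] at hzs
    push_cast at hzs
    have : z ^ a = z ^ b := by
      apply mul_left_cancel₀ ha0; linear_combination hzs
    have h2 := congrArg norm this
    rw [norm_pow, norm_pow] at h2
    exact hab (pow_right_injective₀ (norm_pos_iff.2 hz0) hz1 h2)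
  · obtain ⟨a, b, c, hab, hac, hbc, ha⟩ := Finset.card_eq_three.1 h
    rw [ha] at h0 hne hlt
    rw [Finset.sum_insert (by simp [hab, hac]), Finset.sum_pair hbc] at h0 hlt
    have h1 := hne a (by simp)
    have h2 := hne b (by simp)
    have h3 := hne c (by simp)
    rcases abs_cases (F.coeff a) with h | h <;> rcases abs_cases (F.coeff b) with h' | h' <;>
      rcases abs_cases (F.coeff c) with h'' | h'' <;> omega

theorem result :
    ∃ P T : Polynomial ℤ, P.Monic ∧ Irreducible P ∧ T ≠ 0 ∧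
      (∀ S : Polynomial ℤ, S ≠ 0 →
        ∑ i ∈ (P * T).support, |(P * T).coeff i| ≤
          ∑ i ∈ (P * S).support, |(P * S).coeff i|) ∧
      ∃ z : ℂ, z ≠ 0 ∧ Polynomial.aeval z T = 0 ∧ ∀ n : ℕ, 0 < n → z ^ n ≠ 1 := by
  refine ⟨PP, TT, PP_monic, PP_irr, ?_, ?_, ?_⟩
  · have : TT.Monic := by unfold TT; monicity!
    exact this.ne_zero
  · intro S hS
    obtain ⟨z, h0, h1, hz⟩ := root_P
    refine len_PT.trans (lower _ (mul_ne_zero PP_monic.ne_zero hS) ?_ z h0 h1 ?_)
    · rw [eval_mul]
      apply Dvd.dvd.mul_right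
      simp [PP]
    · rw [map_mul, hz, zero_mul]
  · obtain ⟨z, h0, h1, hz⟩ := root_T
    refine ⟨z, h0, hz, fun n hn h => h1 ?_⟩
    have := congrArg norm h
    rw [norm_pow, norm_one] at this
    exact (pow_eq_one_iff_of_nonneg (norm_nonneg z) hn.ne').1 this

end Pool.Agent.S16463
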