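import Pool.Statements.S16488
import Pool.Agent.Lib.Helper33.OdoC

set_option autoImplicit false
open Pool Pool.MP_317f4c_nt Pool.Agent.Lib.Helper33.Odo

namespace Pool.Agent.S16488

/-- Counterexample: a residue-class-wise affine permutation of the integers simulating a
non-stationary odometer; the share of the orbit of `-8` in `[-N, N]` is at least `0.0149` for
infinitely many `N` and at most `0.0148` for infinitely many `N`. -/
theorem result :
    ¬ (∀ (g : ℤ → ℤ) (m : ℕ) (a b : ℕ → ℚ), 0 < m →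
      (∀ n : ℤ, (g n : ℚ) = a (n % (m : ℤ)).toNat * (n : ℚ) + b (n % (m : ℤ)).toNat) →
      Function.Bijective g →
      ∀ n₀ : ℤ, ∃ d : ℝ,
        Filter.Tendsto
          (fun N : ℕ =>
            ((Set.ncard {k : ℤ | -(N : ℤ) ≤ k ∧ k ≤ (N : ℤ) ∧
                ∃ i : ℕ, g^[i] n₀ = k ∨ g^[i] k = n₀} : ℕ) : ℝ) / (2 * (N : ℝ) + 1))
          Filter.atTop (nhds d)) := by
  intro h
  obtain ⟨a, b, hab⟩ := affine_of_shift g (4096 * 2952450000) (by norm_num) g_shift
  obtain ⟨d, hd⟩ := h g _ a b (by norm_num) hab g_bij (-8)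
  change Filter.Tendsto (fun N : ℕ => (((OS (N : ℤ)).ncard : ℕ) : ℝ) / (2 * (N : ℝ) + 1))
    Filter.atTop (nhds d) at hd
  have hT : ∀ k s : ℕ, k + 1 ≤ s → ∃ T : ℕ, 1 ≤ T ∧ k ≤ 4096 * T ∧
      (2 : ℤ) ^ (8 + 4 * s) = 2048 * T := by
    intro k s hs
    obtain ⟨u, rfl⟩ : ∃ u, s = u + 1 := ⟨s - 1, by omega⟩
    have h1 : 4 * u + 1 < 2 ^ (4 * u + 1) := Nat.lt_two_pow_self
    refine ⟨2 ^ (4 * u + 1), by omega, by omega, ?_⟩
    push_cast
    ring
  have hlo : d ∈ Set.Ici (149 / 10000 : ℝ) := by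
    refine isClosed_Ici.mem_of_frequently_of_tendsto ?_ hd
    refine Filter.frequently_atTop.mpr fun k => ?_
    obtain ⟨s, hs, h1⟩ := freqL k
    obtain ⟨T, hT1, hT2, hT3⟩ := hT k s hs
    refine ⟨4096 * T, hT2, ?_⟩
    rw [hT3] at h1
    have h2 := OS_ge (2048 * T)
    rw [show (2 : ℤ) * (2048 * T) = ((4096 * T : ℕ) : ℤ) by push_cast; ring] at h2
    rw [Set.mem_Ici, le_div_iff₀ (by positivity)]
    generalize (OS ((4096 * T : ℕ) : ℤ)).ncard = c at h2
    have h3 : 149 * (2 * (4096 * T) + 1) ≤ 10000 * c := by omega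
    have h4 : (149 : ℝ) * (2 * (4096 * T) + 1) ≤ 10000 * c := by exact_mod_cast h3
    push_cast
    linarith
  have hhi : d ∈ Set.Iic (148 / 10000 : ℝ) := by
    refine isClosed_Iic.mem_of_frequently_of_tendsto ?_ hd
    refine Filter.frequently_atTop.mpr fun k => ?_
    obtain ⟨s, hs, h1⟩ := freqU k
    obtain ⟨T, hT1, hT2, hT3⟩ := hT k s hs
    refine ⟨4096 * T, hT2, ?_⟩
    rw [hT3] at h1
    have h2 := OS_le T
    rw [show (4096 : ℤ) * T = ((4096 * T : ℕ) : ℤ) by push_cast; ring] at h2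
    rw [Set.mem_Iic, div_le_iff₀ (by positivity)]
    generalize (OS ((4096 * T : ℕ) : ℤ)).ncard = c at h2
    have h3 : 10000 * c ≤ 148 * (2 * (4096 * T) + 1) := by omega
    have h4 : (10000 : ℝ) * c ≤ 148 * (2 * (4096 * T) + 1) := by exact_mod_cast h3
    push_cast
    linarith
  rw [Set.mem_Ici] at hlo
  rw [Set.mem_Iic] at hhi
  linarith

end Pool.Agent.S16488
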