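import Pool.Statements.S18519

set_option autoImplicit false
open Pool Pool.MP_cd51d2_nt

namespace Pool.Agent.S18519

/-- For `e = -1, 0, 1` these are the cyclotomic polynomials of index 15, 24, 30. -/
def P (e x : ℤ) : ℤ := 1 + x * (x ^ 4 - 1) * (x ^ 3 + e * (x ^ 2 - 1))

lemma P_dvd (e x : ℤ) (he : e = -1 ∨ e = 0 ∨ e = 1) : P e x ∣ x ^ 120 - 1 := by
  rcases he with rfl | rfl | rfl
  · have h1 : P (-1) x ∣ x ^ 15 - 1 :=
      ⟨x ^ 7 + x ^ 6 + x ^ 5 - x ^ 2 - x - 1, by unfold P; ring⟩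
    refine h1.trans ?_
    have := sub_dvd_pow_sub_pow (x ^ 15) 1 8
    rwa [one_pow, ← pow_mul] at this
  · have h1 : P 0 x ∣ x ^ 24 - 1 := ⟨(x ^ 4 + 1) * (x ^ 12 - 1), by unfold P; ring⟩
    refine h1.trans ?_
    have := sub_dvd_pow_sub_pow (x ^ 24) 1 5
    rwa [one_pow, ← pow_mul] at this
  · have h1 : P 1 x ∣ x ^ 30 - 1 :=
      ⟨(x ^ 7 - x ^ 6 + x ^ 5 + x ^ 2 - x + 1) * (x ^ 15 - 1), by unfold P; ring⟩
    refine h1.trans ?_
    have := sub_dvd_pow_sub_pow (x ^ 30) 1 4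
    rwa [one_pow, ← pow_mul] at this

lemma P_bounds (e x : ℤ) (he : e = -1 ∨ e = 0 ∨ e = 1) (hx : 2 ≤ x) :
    x ^ 7 ≤ P e x ∧ P e x ≤ x ^ 9 := by
  obtain ⟨z, rfl⟩ : ∃ z, x = z + 2 := ⟨x - 2, by ring⟩
  have hz : 0 ≤ z := by omega
  rcases he with rfl | rfl | rfl
  all_goals
    constructor <;> rw [← sub_nonneg] <;> unfold P <;> ring_nf <;> positivity

lemma P_congr (e x y : ℤ) : x - y ∣ P e x - P e y := by
  have h : x ≡ y [ZMOD (x - y)] := (Int.modEq_iff_dvd.mpr (dvd_refl (x - y))).symm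
  have h2 : P e x ≡ P e y [ZMOD (x - y)] := by
    unfold P
    gcongr
  exact Int.modEq_iff_dvd.mp h2.symm

/-- The auxiliary exponent `(a^64 - 1)/(a^4 - 1)`. -/
def U (a : ℕ) : ℕ := (1 + a ^ 4) * (1 + a ^ 8) * (1 + a ^ 16) * (1 + a ^ 32)

lemma U_mod (a : ℕ) (ha : Even a) : ∃ w, U a = 1 + 120 * w := by
  obtain ⟨b, rfl⟩ := ha
  have h : ∀ x : ZMod 120, (1 + (x + x) ^ 4) * (1 + (x + x) ^ 8) * (1 + (x + x) ^ 16) *
      (1 + (x + x) ^ 32) = 1 := by decide +kernel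
  have h1 : ((U (b + b) : ℕ) : ZMod 120) = ((1 : ℕ) : ZMod 120) := by
    unfold U
    push_cast
    exact h b
  have h2 := (ZMod.natCast_eq_natCast_iff' _ _ _).mp h1
  exact ⟨U (b + b) / 120, by omega⟩

lemma U_dvd (a : ℕ) : (U a : ℤ) ∣ (a : ℤ) ^ 64 - 1 :=
  ⟨(a : ℤ) ^ 4 - 1, by unfold U; push_cast; ring⟩

lemma U_ge (a : ℕ) (ha : 2 ≤ a) : 2 ≤ U a := by
  unfold U
  have h1 : 1 ≤ a ^ 4 := Nat.one_le_pow _ _ (by omega)
  calc 2 = 2 * 1 * 1 * 1 := by norm_num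
    _ ≤ _ := by gcongr <;> omega

lemma key_dvd (a t : ℕ) (ha : 2 ≤ a) (he : Even a) :
    ((120 * (2 ^ (t + 4) * U a) : ℕ) : ℤ) ∣
      (a : ℤ) ^ (2 ^ (t + 4) * U a) * (((a : ℤ) ^ (2 ^ (t + 4) * U a)) ^ 4 - 1) := by
  obtain ⟨w, hw⟩ := U_mod a he
  have hU := U_ge a ha
  set g := 2 ^ (t + 4) * U a with hg
  have h2 : (2 : ℤ) ^ (t + 7) ∣ (a : ℤ) ^ g := by
    have h3 : t + 7 ≤ g := by
      have : t + 4 < 2 ^ (t + 4) := Nat.lt_two_pow_self
      nlinarith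
    refine (pow_dvd_pow 2 h3).trans (pow_dvd_pow_of_dvd ?_ _)
    exact_mod_cast he.two_dvd
  have h15 : (15 : ℤ) ∣ (a : ℤ) ^ g * (((a : ℤ) ^ g) ^ 4 - 1) := by
    have h : ∀ x : ZMod 15, x * (x ^ 4 - 1) = 0 := by decide +kernel
    have := (ZMod.intCast_zmod_eq_zero_iff_dvd ((a : ℤ) ^ g * (((a : ℤ) ^ g) ^ 4 - 1)) 15).mp (by
      push_cast
      exact h _)
    exact_mod_cast this
  have hu : (U a : ℤ) ∣ ((a : ℤ) ^ g) ^ 4 - 1 := by
    refine (U_dvd a).trans ?_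
    have := sub_dvd_pow_sub_pow ((a : ℤ) ^ 64) 1 (2 ^ t * U a)
    rw [one_pow, ← pow_mul] at this
    rw [← pow_mul, hg, show 2 ^ (t + 4) * U a * 4 = 64 * (2 ^ t * U a) by ring]
    exact this
  have c1 : IsCoprime (15 : ℤ) (U a : ℤ) := ⟨-8 * w, 1, by rw [hw]; push_cast; ring⟩
  have c2 : IsCoprime ((2 : ℤ) ^ (t + 7)) (15 * (U a : ℤ)) := by
    apply IsCoprime.pow_left
    exact ⟨-(7 + 900 * w), 1, by rw [hw]; push_cast; ring⟩
  have h3 := c2.mul_dvd (h2.mul_right _) (c1.mul_dvd h15 (hu.mul_left _))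
  have e : ((120 * g : ℕ) : ℤ) = 2 ^ (t + 7) * (15 * (U a : ℤ)) := by
    rw [hg]; push_cast; ring
  rw [e]
  exact h3

lemma psp (a t : ℕ) (ha : 2 ≤ a) (he : Even a) (e : ℤ) (hE : e = -1 ∨ e = 0 ∨ e = 1) (n : ℕ)
    (hn : (n : ℤ) = P e ((a : ℤ) ^ (2 ^ (t + 4) * U a))) : Nat.FermatPsp n a := by
  obtain ⟨w, hw⟩ := U_mod a he
  have hU := U_ge a ha
  have hkey := key_dvd a t ha he
  set g := 2 ^ (t + 4) * U a with hg
  have ha' : (2 : ℤ) ≤ a := by exact_mod_cast ha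
  set y : ℤ := (a : ℤ) ^ (2 ^ (t + 4)) with hy
  have hy2 : 2 ≤ y := ha'.trans (le_self_pow₀ (by linarith) (by positivity))
  have hc : (a : ℤ) ^ g = y ^ U a := by rw [hg, pow_mul]
  have hcy : y ^ 2 ≤ (a : ℤ) ^ g := by rw [hc]; exact pow_le_pow_right₀ (by linarith) hU
  have hc2 : 2 ≤ (a : ℤ) ^ g := by nlinarith
  obtain ⟨b1, -⟩ := P_bounds e _ hE hc2
  obtain ⟨b2, b3⟩ := P_bounds e _ hE hy2
  have hy7 : 2 ≤ y ^ 7 := hy2.trans (le_self_pow₀ (by linarith) (by norm_num))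
  have hlt : P e y < n := by
    rw [hn]
    calc P e y ≤ y ^ 9 := b3
      _ < y ^ 14 := pow_lt_pow_right₀ (by linarith) (by norm_num)
      _ = (y ^ 2) ^ 7 := by ring
      _ ≤ ((a : ℤ) ^ g) ^ 7 := by gcongr
      _ ≤ _ := b1
  have hdvd : P e y ∣ n := by
    have h1 : P e y ∣ (a : ℤ) ^ g - y := by
      refine (P_dvd e y hE).trans ?_
      have := sub_dvd_pow_sub_pow (y ^ 120) 1 w
      rw [one_pow] at this
      rw [hc, hw, pow_add, pow_one, ← mul_sub_one, pow_mul y 120 w]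
      exact this.mul_left _
    have h2 := h1.trans (P_congr e _ _)
    rw [hn]
    exact (dvd_sub_self_right).mp h2
  have hn1 : 1 < n := by omega
  refine ⟨?_, ?_, hn1⟩
  · have h1 : ((120 * g : ℕ) : ℤ) ∣ ((n - 1 : ℕ) : ℤ) := by
      rw [Nat.cast_sub hn1.le, hn]
      unfold P
      rw [Nat.cast_one, add_sub_cancel_left]
      exact hkey.mul_right _
    obtain ⟨k, hk⟩ := Int.natCast_dvd_natCast.mp h1
    have h2 : (n : ℤ) ∣ (a : ℤ) ^ (n - 1) - 1 := by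
      rw [hk]
      have := sub_dvd_pow_sub_pow (((a : ℤ) ^ g) ^ 120) 1 k
      rw [one_pow, ← pow_mul, ← pow_mul, mul_comm g 120] at this
      refine Dvd.dvd.trans ?_ this
      rw [hn, mul_comm 120 g, pow_mul (a : ℤ) g 120]
      exact P_dvd e _ hE
    unfold Nat.ProbablePrime
    rw [← Int.natCast_dvd_natCast, Nat.cast_sub (Nat.one_le_pow _ _ (by omega))]
    push_cast
    exact h2
  · intro hp
    obtain ⟨m, hm⟩ := Int.eq_ofNat_of_zero_le (show 0 ≤ P e y by linarith)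
    rw [hm] at hdvd hlt b2
    rcases (Nat.dvd_prime hp).mp (Int.natCast_dvd_natCast.mp hdvd) with h | h <;> omega

/-- For every even base `a`, with `c = a^(2^t u)` and `u = (a^64 - 1)/(a^4 - 1)`, the cyclotomic
values of index 15, 24, 30 at `c` form a progression of pseudoprimes to base `a`. -/
theorem result :
    ∀ a : ℕ, 2 ≤ a → Even a →
      Set.Infinite {p : ℕ × ℕ | 0 < p.2 ∧ Nat.FermatPsp p.1 a ∧
        Nat.FermatPsp (p.1 + p.2) a ∧ Nat.FermatPsp (p.1 + 2 * p.2) a} := by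
  intro a ha he
  apply Set.Infinite.of_image Prod.fst
  apply Set.infinite_of_forall_exists_gt
  intro t
  have hU := U_ge a ha
  have ha' : (2 : ℤ) ≤ a := by exact_mod_cast ha
  obtain ⟨c, hc⟩ : ∃ c : ℤ, c = (a : ℤ) ^ (2 ^ (t + 4) * U a) := ⟨_, rfl⟩
  have hg : t + 4 < 2 ^ (t + 4) * U a := by
    have : t + 4 < 2 ^ (t + 4) := Nat.lt_two_pow_self
    nlinarith
  have hct : (t : ℤ) + 4 < c := by
    have h1 : 2 ^ (t + 4) * U a < a ^ (2 ^ (t + 4) * U a) := Nat.lt_pow_self (by omega)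
    have h2 : t + 4 < a ^ (2 ^ (t + 4) * U a) := hg.trans h1
    rw [hc]
    exact_mod_cast h2
  have hc2 : 2 ≤ c := by omega
  obtain ⟨b1, -⟩ := P_bounds (-1) c (Or.inl rfl) hc2
  have hc7 : c ≤ c ^ 7 := le_self_pow₀ (by linarith) (by norm_num)
  have hd : 0 < c * (c ^ 4 - 1) * (c ^ 2 - 1) := by
    have h1 : 1 < c ^ 4 := one_lt_pow₀ (by linarith) (by norm_num)
    have h2 : 1 < c ^ 2 := one_lt_pow₀ (by linarith) (by norm_num)
    have h3 : 0 < c := by linarith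
    exact mul_pos (mul_pos h3 (by linarith)) (by linarith)
  obtain ⟨n, hn⟩ := Int.eq_ofNat_of_zero_le (show 0 ≤ P (-1) c by linarith)
  obtain ⟨d, hd'⟩ := Int.eq_ofNat_of_zero_le hd.le
  refine ⟨n, ⟨(n, d), ⟨by simp only; omega, ?_, ?_, ?_⟩, rfl⟩, by omega⟩
  · exact psp a t ha he (-1) (by simp) _ (by rw [← hc, hn])
  · refine psp a t ha he 0 (by simp) _ ?_
    push_cast
    rw [← hc, ← hn, ← hd']
    unfold P; ring
  · refine psp a t ha he 1 (by simp) _ ?_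
    push_cast
    rw [← hc, ← hn, ← hd']
    unfold P; ring

end Pool.Agent.S18519
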