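import Pool.Statements.S16547
import Pool.Agent.S18519

set_option autoImplicit false
open Pool Pool.MP_3527b9_nt Pool.Agent.S18519

namespace Pool.Agent.S16547

lemma super (n T : ℕ) (h1 : (n : ℤ) ∣ 2 ^ T - 1) (h2 : ∀ q : ℕ, q.Prime → q ∣ n → T ∣ q - 1) :
    ∀ d ∈ n.divisors, 1 < d → (d.Prime ∨ Nat.FermatPsp d 2) := by
  intro d hd hd1
  have hdn := Nat.dvd_of_mem_divisors hd
  have key : ∀ m : ℕ, m ≠ 0 → m ∣ n → m ≡ 1 [MOD T] := by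
    intro m
    induction m using induction_on_primes with
    | zero => intro h; exact absurd rfl h
    | one => intro _ _; rfl
    | prime_mul p a hp ih =>
      intro h0 h
      have hp1 : p ≡ 1 [MOD T] :=
        ((Nat.modEq_iff_dvd' hp.one_le).mpr (h2 p hp (Dvd.dvd.trans (Dvd.intro _ rfl) h))).symm
      have ha := ih (by rintro rfl; simp at h0) (Dvd.dvd.trans (Dvd.intro_left _ rfl) h)
      simpa using hp1.mul ha
  by_cases hp : d.Prime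
  · exact Or.inl hp
  refine Or.inr ⟨?_, hp, hd1⟩
  obtain ⟨k, hk⟩ := (Nat.modEq_iff_dvd' hd1.le).mp (key d (by omega) hdn).symm
  unfold Nat.ProbablePrime
  rw [← Int.natCast_dvd_natCast, Nat.cast_sub (Nat.one_le_pow _ _ (by omega)), hk]
  push_cast
  have := sub_dvd_pow_sub_pow ((2 : ℤ) ^ T) 1 k
  rw [one_pow, ← pow_mul] at this
  exact ((Int.natCast_dvd_natCast.mpr hdn).trans h1).trans this

lemma ordN (q : ℕ) [Fact q.Prime] (z : ZMod q) (N : ℕ) (hN : 0 < N) (h1 : z ^ N = 1)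
    (h2 : ∀ p : ℕ, p.Prime → p ∣ N → ∃ m, N = p * m ∧ z ^ m ≠ 1) : N ∣ q - 1 := by
  have hz : z ≠ 0 := by
    rintro rfl
    rw [zero_pow hN.ne'] at h1
    exact zero_ne_one h1
  have h3 : orderOf z = N := by
    refine orderOf_eq_of_pow_and_pow_div_prime hN h1 fun p hp hpN => ?_
    obtain ⟨m, hm, h⟩ := h2 p hp hpN
    rwa [hm, Nat.mul_div_cancel_left _ hp.pos]
  rw [← h3]
  exact ZMod.orderOf_dvd_card_sub_one hz

lemma prime_cases (p i t s : ℕ) (hp : p.Prime) (h : p ∣ 2 ^ i * 3 ^ t * 5 ^ s) :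
    (p = 2 ∧ i ≠ 0) ∨ p = 3 ∨ (p = 5 ∧ s ≠ 0) := by
  rcases (Nat.Prime.dvd_mul hp).mp h with h | h
  · rcases (Nat.Prime.dvd_mul hp).mp h with h | h
    · refine Or.inl ⟨(Nat.prime_dvd_prime_iff_eq hp Nat.prime_two).mp (hp.dvd_of_dvd_pow h), ?_⟩
      rintro rfl
      exact hp.one_lt.ne' (by simpa using h)
    · exact Or.inr (Or.inl
        ((Nat.prime_dvd_prime_iff_eq hp Nat.prime_three).mp (hp.dvd_of_dvd_pow h)))
  · refine Or.inr (Or.inr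
      ⟨(Nat.prime_dvd_prime_iff_eq hp Nat.prime_five).mp (hp.dvd_of_dvd_pow h), ?_⟩)
    rintro rfl
    exact hp.one_lt.ne' (by simpa using h)

/-- Reduction of `q ∣ P e (4^h)` to the field with `q` elements. -/
lemma red (q : ℕ) [Fact q.Prime] (e : ℤ) (h : ℕ) (hh : 0 < h) (hq : (q : ℤ) ∣ P e (2 ^ (2 * h))) :
    1 + ((2 : ZMod q) ^ (2 * h)) * (((2 : ZMod q) ^ (2 * h)) ^ 4 - 1) *
      (((2 : ZMod q) ^ (2 * h)) ^ 3 + (e : ZMod q) * (((2 : ZMod q) ^ (2 * h)) ^ 2 - 1)) = 0 ∧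
    (2 : ZMod q) ≠ 0 ∧ (3 : ZMod q) ≠ 0 ∧ (5 : ZMod q) ≠ 0 := by
  have h0 := (ZMod.intCast_zmod_eq_zero_iff_dvd _ q).mpr hq
  have h30 : (30 : ℤ) ∣ (2 : ℤ) ^ (2 * h) * (((2 : ℤ) ^ (2 * h)) ^ 4 - 1) := by
    have hx : ∀ x : ZMod 30, x * (x ^ 4 - 1) = 0 := by decide +kernel
    have := (ZMod.intCast_zmod_eq_zero_iff_dvd
      ((2 : ℤ) ^ (2 * h) * (((2 : ℤ) ^ (2 * h)) ^ 4 - 1)) 30).mp (by
      push_cast
      exact hx _)
    exact_mod_cast this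
  obtain ⟨k, hk⟩ := h30
  have h1 : (30 : ZMod q) ≠ 0 := by
    intro h30
    unfold P at h0
    rw [hk] at h0
    push_cast at h0
    rw [h30] at h0
    simp at h0
  refine ⟨?_, ?_, ?_, ?_⟩
  · unfold P at h0
    push_cast at h0
    exact h0
  · intro h2; apply h1; linear_combination 15 * h2
  · intro h2; apply h1; linear_combination 10 * h2
  · intro h2; apply h1; linear_combination 6 * h2

lemma primeA (t s q : ℕ) (hp : q.Prime) (hq : (q : ℤ) ∣ P (-1) (2 ^ (2 * (3 ^ t * 5 ^ s)))) :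
    30 * (3 ^ t * 5 ^ s) ∣ q - 1 := by
  have := Fact.mk hp
  obtain ⟨h0, h2, h3, h5⟩ := red q (-1) _ (by positivity) hq
  push_cast at h0
  set h := 3 ^ t * 5 ^ s with hh
  have e : ∀ m, ((2 : ZMod q) ^ 2) ^ (m * h) = ((2 : ZMod q) ^ (2 * h)) ^ m := by
    intro m; rw [← pow_mul, ← pow_mul]; congr 1; ring
  have h15 : 15 * h ∣ q - 1 := by
    refine ordN q ((2 : ZMod q) ^ 2) _ (by positivity) ?_ fun p hp hpN => ?_
    · rw [e]
      generalize (2 : ZMod q) ^ (2 * h) = x at h0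
      linear_combination (x ^ 7 + x ^ 6 + x ^ 5 - x ^ 2 - x - 1) * h0
    · have hpN' : p ∣ 2 ^ 0 * 3 ^ (t + 1) * 5 ^ (s + 1) := by
        rwa [show 2 ^ 0 * 3 ^ (t + 1) * 5 ^ (s + 1) = 15 * h by rw [hh]; ring]
      rcases prime_cases p _ _ _ hp hpN' with ⟨-, h⟩ | rfl | ⟨rfl, -⟩
      · exact absurd rfl h
      · refine ⟨5 * h, by ring, ?_⟩
        rw [e]
        generalize (2 : ZMod q) ^ (2 * h) = x at h0
        intro h1
        apply h3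
        linear_combination (1 + x + x ^ 2) * h0 + (-2 - x ^ 5) * h1
      · refine ⟨3 * h, by ring, ?_⟩
        rw [e]
        generalize (2 : ZMod q) ^ (2 * h) = x at h0
        intro h1
        apply h5
        linear_combination (2 + 2 * x + x ^ 2) * h0 +
          (-3 - x ^ 2 - 2 * x ^ 3 - x ^ 6 - x ^ 7) * h1
  have hq2 : 2 ∣ q - 1 := by
    have : q ≠ 2 := by
      rintro rfl
      exact h2 rfl
    exact (hp.even_sub_one this).two_dvd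
  have hc : Nat.Coprime 2 (15 * h) := by
    rw [hh]
    exact Nat.Coprime.mul_right (by norm_num) (Nat.Coprime.mul_right
      (Nat.Coprime.pow_right _ (by norm_num)) (Nat.Coprime.pow_right _ (by norm_num)))
  have := hc.mul_dvd_of_dvd_of_dvd hq2 h15
  rwa [← mul_assoc] at this

lemma primeC (t s q : ℕ) (hp : q.Prime) (hq : (q : ℤ) ∣ P 1 (2 ^ (2 * (3 ^ t * 5 ^ s)))) :
    60 * (3 ^ t * 5 ^ s) ∣ q - 1 := by
  have := Fact.mk hp
  obtain ⟨h0, h2, h3, h5⟩ := red q 1 _ (by positivity) hq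
  push_cast at h0
  set h := 3 ^ t * 5 ^ s with hh
  have e : ∀ m, (2 : ZMod q) ^ (2 * m * h) = ((2 : ZMod q) ^ (2 * h)) ^ m := by
    intro m; rw [← pow_mul]; congr 1; ring
  refine ordN q (2 : ZMod q) _ (by positivity) ?_ fun p hp hpN => ?_
  · rw [show 60 = 2 * 30 from rfl, e]
    generalize (2 : ZMod q) ^ (2 * h) = x at h0
    linear_combination ((x ^ 7 - x ^ 6 + x ^ 5 + x ^ 2 - x + 1) * (x ^ 15 - 1)) * h0
  · have hpN' : p ∣ 2 ^ 2 * 3 ^ (t + 1) * 5 ^ (s + 1) := by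
      rwa [show 2 ^ 2 * 3 ^ (t + 1) * 5 ^ (s + 1) = 60 * h by rw [hh]; ring]
    rcases prime_cases p _ _ _ hp hpN' with ⟨rfl, -⟩ | rfl | ⟨rfl, -⟩
    · refine ⟨2 * 15 * h, by ring, ?_⟩
      rw [e]
      generalize (2 : ZMod q) ^ (2 * h) = x at h0
      intro h1
      apply h2
      linear_combination (1 - x + x ^ 2 + x ^ 5 - x ^ 6 + x ^ 7) * h0 - h1
    · refine ⟨2 * 10 * h, by ring, ?_⟩
      rw [e]
      generalize (2 : ZMod q) ^ (2 * h) = x at h0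
      intro h1
      apply h3
      linear_combination (2 - 2 * x + 2 * x ^ 2 + x ^ 5 - x ^ 6 + x ^ 7) * h0 + (-1 - x ^ 5) * h1
    · refine ⟨2 * 6 * h, by ring, ?_⟩
      rw [e]
      generalize (2 : ZMod q) ^ (2 * h) = x at h0
      intro h1
      apply h5
      linear_combination (1 - x + 3 * x ^ 2 - x ^ 3 + x ^ 4 + 2 * x ^ 5) * h0 +
        (-4 + 2 * x ^ 2 + x ^ 3 - 3 * x ^ 6 - 2 * x ^ 7) * h1

lemma primeB (t s q : ℕ) (hp : q.Prime) (hq : (q : ℤ) ∣ P 0 (2 ^ (2 * (3 ^ t * 5 ^ s))))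
    (hs : s ≠ 0 → ∃ m, 48 * (3 ^ t * 5 ^ s) = 5 * m ∧ (2 : ZMod q) ^ m ≠ 1) :
    48 * (3 ^ t * 5 ^ s) ∣ q - 1 := by
  have := Fact.mk hp
  obtain ⟨h0, h2, h3, h5⟩ := red q 0 _ (by positivity) hq
  push_cast at h0
  set h := 3 ^ t * 5 ^ s with hh
  have e : ∀ m, (2 : ZMod q) ^ (2 * m * h) = ((2 : ZMod q) ^ (2 * h)) ^ m := by
    intro m; rw [← pow_mul]; congr 1; ring
  refine ordN q (2 : ZMod q) _ (by positivity) ?_ fun p hp hpN => ?_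
  · rw [show 48 = 2 * 24 from rfl, e]
    generalize (2 : ZMod q) ^ (2 * h) = x at h0
    linear_combination ((x ^ 4 + 1) * (x ^ 12 - 1)) * h0
  · have hpN' : p ∣ 2 ^ 4 * 3 ^ (t + 1) * 5 ^ s := by
      rwa [show 2 ^ 4 * 3 ^ (t + 1) * 5 ^ s = 48 * h by rw [hh]; ring]
    rcases prime_cases p _ _ _ hp hpN' with ⟨rfl, -⟩ | rfl | ⟨rfl, h⟩
    · refine ⟨2 * 12 * h, by ring, ?_⟩
      rw [e]
      generalize (2 : ZMod q) ^ (2 * h) = x at h0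
      intro h1
      apply h2
      linear_combination (1 + x ^ 4) * h0 - h1
    · refine ⟨2 * 8 * h, by ring, ?_⟩
      rw [e]
      generalize (2 : ZMod q) ^ (2 * h) = x at h0
      intro h1
      apply h3
      linear_combination (2 + x ^ 4) * h0 + (-1 - x ^ 4) * h1
    · exact hs h

lemma not_prime_of_dvd (n : ℕ) (m : ℤ) (h1 : 1 < m) (h2 : m < n) (h3 : m ∣ n) : ¬ n.Prime := by
  intro hp
  obtain ⟨k, rfl⟩ := Int.eq_ofNat_of_zero_le (show 0 ≤ m by linarith)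
  rcases (Nat.dvd_prime hp).mp (Int.natCast_dvd_natCast.mp h3) with h | h <;> omega

lemma not_prime_of_mul (n : ℕ) (a b : ℤ) (h1 : 1 < a) (h2 : 1 < b) (h3 : (n : ℤ) = a * b) :
    ¬ n.Prime :=
  not_prime_of_dvd n a h1 (by nlinarith) ⟨b, h3⟩

lemma two_le_pow (k : ℕ) (hk : 0 < k) : (2 : ℤ) ≤ 2 ^ k :=
  le_self_pow₀ (by norm_num) hk.ne'

lemma one_lt_P (e x : ℤ) (he : e = -1 ∨ e = 0 ∨ e = 1) (hx : 2 ≤ x) : 1 < P e x := by
  have h1 := (P_bounds e x he hx).1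
  have h2 : x ≤ x ^ 7 := le_self_pow₀ (by linarith) (by norm_num)
  linarith

/-- The super pseudoprime property. -/
def Sup (n : ℕ) : Prop :=
  1 < n ∧ ¬ n.Prime ∧ ∀ d ∈ n.divisors, 1 < d → (d.Prime ∨ Nat.FermatPsp d 2)

lemma supA (t s n : ℕ) (hn : (n : ℤ) = P (-1) (2 ^ (2 * (3 ^ t * 5 ^ s)))) : Sup n := by
  have h1 := one_lt_P (-1) _ (by simp) (two_le_pow (2 * (3 ^ t * 5 ^ s)) (by positivity))
  refine ⟨by omega, ?_, super n (30 * (3 ^ t * 5 ^ s)) ?_ fun q hp hq =>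
    primeA t s q hp (hn ▸ Int.natCast_dvd_natCast.mpr hq)⟩
  · have hx := two_le_pow (3 ^ t * 5 ^ s) (by positivity)
    refine not_prime_of_mul n _ _ (one_lt_P (-1) _ (by simp) hx) (one_lt_P 1 _ (by simp) hx) ?_
    rw [hn, mul_comm 2, pow_mul]
    unfold P; ring
  · rw [hn, show 30 * (3 ^ t * 5 ^ s) = 2 * (3 ^ t * 5 ^ s) * 15 by ring, pow_mul _ _ 15]
    generalize (2 : ℤ) ^ (2 * (3 ^ t * 5 ^ s)) = x
    exact ⟨x ^ 7 + x ^ 6 + x ^ 5 - x ^ 2 - x - 1, by unfold P; ring⟩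

lemma supC (t s n : ℕ) (hn : (n : ℤ) = P 1 (2 ^ (2 * (3 ^ t * 5 ^ s)))) : Sup n := by
  have h1 := one_lt_P 1 _ (by simp) (two_le_pow (2 * (3 ^ t * 5 ^ s)) (by positivity))
  refine ⟨by omega, ?_, super n (60 * (3 ^ t * 5 ^ s)) ?_ fun q hp hq =>
    primeC t s q hp (hn ▸ Int.natCast_dvd_natCast.mpr hq)⟩
  · obtain ⟨j, hj⟩ : Odd (3 ^ t * 5 ^ s) := by
      apply Odd.mul <;> apply Odd.pow <;> decide
    obtain ⟨w, hw⟩ : ∃ w : ℤ, w = 2 ^ j - 1 := ⟨_, rfl⟩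
    have hw0 : 0 ≤ w := by
      have : (1 : ℤ) ≤ 2 ^ j := one_le_pow₀ (by norm_num)
      linarith
    have e : (2 : ℤ) ^ (2 * (3 ^ t * 5 ^ s)) = (2 * (w + 1) ^ 2) ^ 2 := by
      rw [hj, hw]; ring
    obtain ⟨x, hx⟩ : ∃ x : ℤ, x = 2 * (w + 1) ^ 2 := ⟨_, rfl⟩
    refine not_prime_of_mul n
      ((1 + x + 2 * x ^ 2 + 3 * x ^ 3 + 3 * x ^ 4 + 3 * x ^ 5 + 2 * x ^ 6 + x ^ 7 + x ^ 8) -
        2 * (w + 1) * (1 + x + 2 * x ^ 2 + 2 * x ^ 3 + 2 * x ^ 4 + 2 * x ^ 5 + x ^ 6 + x ^ 7))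
      ((1 + x + 2 * x ^ 2 + 3 * x ^ 3 + 3 * x ^ 4 + 3 * x ^ 5 + 2 * x ^ 6 + x ^ 7 + x ^ 8) +
        2 * (w + 1) * (1 + x + 2 * x ^ 2 + 2 * x ^ 3 + 2 * x ^ 4 + 2 * x ^ 5 + x ^ 6 + x ^ 7))
      ?_ ?_ ?_
    · rw [← sub_pos, hx]; ring_nf; positivity
    · rw [← sub_pos, hx]; ring_nf; positivity
    · rw [hn, e, hx]; unfold P; ring
  · rw [hn, show 60 * (3 ^ t * 5 ^ s) = 2 * (3 ^ t * 5 ^ s) * 30 by ring, pow_mul _ _ 30]
    generalize (2 : ℤ) ^ (2 * (3 ^ t * 5 ^ s)) = x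
    exact ⟨(x ^ 7 - x ^ 6 + x ^ 5 + x ^ 2 - x + 1) * (x ^ 15 - 1), by unfold P; ring⟩

lemma dvdB (h : ℕ) : P 0 (2 ^ (2 * h)) ∣ 2 ^ (48 * h) - 1 := by
  rw [show 48 * h = 2 * h * 24 by ring, pow_mul _ _ 24]
  generalize (2 : ℤ) ^ (2 * h) = x
  exact ⟨(x ^ 4 + 1) * (x ^ 12 - 1), by unfold P; ring⟩

lemma supB (t : ℕ) : ∃ s, ∀ n : ℕ, (n : ℤ) = P 0 (2 ^ (2 * (3 ^ t * 5 ^ s))) → Sup n := by
  have hY := two_le_pow (2 * (3 ^ t * 5 ^ 0)) (by positivity)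
  have h1 := one_lt_P 0 _ (by simp) hY
  obtain ⟨q₀, hq₀⟩ := Int.eq_ofNat_of_zero_le (show 0 ≤ P 0 (2 ^ (2 * (3 ^ t * 5 ^ 0))) by linarith)
  have hB0 : ∀ q : ℕ, q.Prime → q ∣ q₀ → 48 * (3 ^ t * 5 ^ 0) ∣ q - 1 := fun q hp hq =>
    primeB t 0 q hp (hq₀ ▸ Int.natCast_dvd_natCast.mpr hq) (fun h => absurd rfl h)
  by_cases hp₀ : q₀.Prime
  swap
  · refine ⟨0, fun n hn => ?_⟩
    have : n = q₀ := by omega
    subst this
    exact ⟨by omega, hp₀, super n _ (hn ▸ dvdB _) hB0⟩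
  refine ⟨1, fun n hn => ?_⟩
  have e : (2 : ℤ) ^ (2 * (3 ^ t * 5 ^ 1)) = (2 ^ (2 * (3 ^ t * 5 ^ 0))) ^ 5 := by
    rw [← pow_mul]; congr 1; ring
  have h2 := one_lt_P 0 _ (by simp) (two_le_pow (2 * (3 ^ t * 5 ^ 1)) (by positivity))
  refine ⟨by omega, ?_, super n _ (hn ▸ dvdB _) fun q hp hq => ?_⟩
  · rw [e] at hn
    generalize (2 : ℤ) ^ (2 * (3 ^ t * 5 ^ 0)) = Y at hn hY h1
    refine not_prime_of_dvd n (P 0 Y) h1 ?_ ?_
    · rw [hn]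
      have b1 := (P_bounds 0 Y (by simp) hY).2
      have b2 := (P_bounds 0 (Y ^ 5) (by simp)
        (hY.trans (le_self_pow₀ (by linarith) (by norm_num)))).1
      have b3 : Y ^ 9 < (Y ^ 5) ^ 7 := by
        rw [← pow_mul]
        exact pow_lt_pow_right₀ (by linarith) (by norm_num)
      linarith
    · rw [hn]
      exact ⟨Y ^ 32 + Y ^ 28 - Y ^ 20 - Y ^ 16 - Y ^ 12 + Y ^ 4 + 1, by unfold P; ring⟩
  · have hq' : (q : ℤ) ∣ P 0 (2 ^ (2 * (3 ^ t * 5 ^ 1))) := hn ▸ Int.natCast_dvd_natCast.mpr hq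
    by_cases hz : (2 : ZMod q) ^ (48 * 3 ^ t) = 1
    swap
    · exact primeB t 1 q hp hq' fun _ => ⟨48 * 3 ^ t, by ring, hz⟩
    have := Fact.mk hp
    have hqq : q ∣ q₀ := by
      rw [← Int.natCast_dvd_natCast, ← hq₀, ← ZMod.intCast_zmod_eq_zero_iff_dvd]
      rw [← ZMod.intCast_zmod_eq_zero_iff_dvd, e] at hq'
      unfold P at hq' ⊢
      push_cast at hq' ⊢
      have hz' : ((2 : ZMod q) ^ (2 * (3 ^ t * 1))) ^ 24 = 1 := by
        rw [← pow_mul, ← hz]; congr 1; ring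
      generalize (2 : ZMod q) ^ (2 * (3 ^ t * 1)) = y at hq' hz' ⊢
      linear_combination y ^ 8 * hq' - (y ^ 24 + 1 - y ^ 4) * hz'
    have hq0 : q = q₀ := (Nat.prime_dvd_prime_iff_eq hp hp₀).mp hqq
    have h48 := hB0 q hp hqq
    have h5 : 5 ∣ q - 1 := by
      have h : ∀ x : ZMod 5, x * (x ^ 4 - 1) = 0 := by decide
      have h6 : ((q - 1 : ℕ) : ZMod 5) = 0 := by
        have h7 : ((q - 1 : ℕ) : ℤ) = P 0 (2 ^ (2 * (3 ^ t * 5 ^ 0))) - 1 := by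
          rw [Nat.cast_sub hp.one_le, hq₀, hq0]; rfl
        have h8 := congrArg (Int.cast : ℤ → ZMod 5) h7
        unfold P at h8
        push_cast at h8
        rw [h] at h8
        simpa using h8
      exact (ZMod.natCast_eq_zero_iff _ _).mp h6
    have hc : Nat.Coprime (48 * (3 ^ t * 5 ^ 0)) 5 :=
      Nat.Coprime.mul_left (by norm_num) (Nat.Coprime.mul_left
        (Nat.Coprime.pow_left _ (by norm_num)) (by norm_num))
    have := hc.mul_dvd_of_dvd_of_dvd h48 h5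
    rwa [show 48 * (3 ^ t * 5 ^ 0) * 5 = 48 * (3 ^ t * 5 ^ 1) by ring] at this

/-- With `X = 4^h`, `h = 3^t` or `h = 5 * 3^t`, the cyclotomic values of index 15, 24, 30 at `X`
form a progression of super pseudoprimes. -/
theorem result :
    ∀ S : ℕ → Prop,
      (∀ n : ℕ, S n ↔
        (1 < n ∧ ¬ n.Prime ∧
          ∀ d ∈ n.divisors, 1 < d → (d.Prime ∨ Nat.FermatPsp d 2))) →
      Set.Infinite {t : ℕ × ℕ × ℕ |
        t.1 < t.2.1 ∧ t.2.1 < t.2.2 ∧ t.1 + t.2.2 = 2 * t.2.1 ∧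
          S t.1 ∧ S t.2.1 ∧ S t.2.2} := by
  intro S hS
  apply Set.Infinite.of_image Prod.fst
  apply Set.infinite_of_forall_exists_gt
  intro t
  obtain ⟨s, hs⟩ := supB t
  have hA := supA t s
  have hC := supC t s
  have hct : (t : ℤ) < 2 ^ (2 * (3 ^ t * 5 ^ s)) := by
    have h1 : t < 3 ^ t := Nat.lt_pow_self (by norm_num)
    have h2 : 1 ≤ 5 ^ s := Nat.one_le_pow _ _ (by norm_num)
    have h3 : 2 * (3 ^ t * 5 ^ s) < 2 ^ (2 * (3 ^ t * 5 ^ s)) := Nat.lt_two_pow_self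
    have h4 : t < 2 ^ (2 * (3 ^ t * 5 ^ s)) := by nlinarith
    exact_mod_cast h4
  have hc2 := two_le_pow (2 * (3 ^ t * 5 ^ s)) (by positivity)
  generalize (2 : ℤ) ^ (2 * (3 ^ t * 5 ^ s)) = c at hs hA hC hct hc2
  obtain ⟨b1, -⟩ := P_bounds (-1) c (Or.inl rfl) hc2
  have hc7 : c ≤ c ^ 7 := le_self_pow₀ (by linarith) (by norm_num)
  have hd : 0 < c * (c ^ 4 - 1) * (c ^ 2 - 1) := by
    have h1 : 1 < c ^ 4 := one_lt_pow₀ (by linarith) (by norm_num)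
    have h2 : 1 < c ^ 2 := one_lt_pow₀ (by linarith) (by norm_num)
    have h3 : 0 < c := by linarith
    exact mul_pos (mul_pos h3 (by linarith)) (by linarith)
  obtain ⟨n, hn⟩ := Int.eq_ofNat_of_zero_le (show 0 ≤ P (-1) c by linarith)
  obtain ⟨d, hd'⟩ := Int.eq_ofNat_of_zero_le hd.le
  refine ⟨n, ⟨(n, n + d, n + 2 * d), ⟨by simp only; omega, by simp only; omega,
    by simp only; omega, (hS _).mpr (hA _ hn.symm), (hS _).mpr (hs _ ?_),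
    (hS _).mpr (hC _ ?_)⟩, rfl⟩, by omega⟩
  · push_cast
    rw [← hn, ← hd']
    unfold P; ring
  · push_cast
    rw [← hn, ← hd']
    unfold P; ring

end Pool.Agent.S16547
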