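import Pool.Statements.S16580

set_option autoImplicit false
open Filter
open Pool Pool.MP_37fc1f_nt

namespace Pool.Agent.S16580

open Polynomial Topology

lemma eval_div (p q : ℚ[X]) (x : ℚ) (hq : q.eval x ≠ 0) :
    RatFunc.eval (RingHom.id ℚ) x (algebraMap ℚ[X] (RatFunc ℚ) p / algebraMap ℚ[X] (RatFunc ℚ) q)
      = p.eval x / q.eval x := by
  have hq0 : q ≠ 0 := by rintro rfl; simp at hq
  set f := algebraMap ℚ[X] (RatFunc ℚ) p / algebraMap ℚ[X] (RatFunc ℚ) q with hf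
  have h1 : f.num * q = p * f.denom := (RatFunc.num_mul_eq_mul_denom_iff hq0).mpr hf
  obtain ⟨c, hc⟩ : f.denom ∣ q := RatFunc.denom_div_dvd p q
  have h2 : f.denom.eval x ≠ 0 := by
    intro h; apply hq; rw [hc, eval_mul, h, zero_mul]
  have h3 := congrArg (eval x) h1
  rw [eval_mul, eval_mul] at h3
  rw [RatFunc.eval, eval₂_id, eval₂_id, div_eq_div_iff h2 hq, h3]

/-- coefficients -/
def bb (N : ℚ) : ℚ := 81 * N * (2 * N - 1) / (9 * N ^ 2 - 1)
def aa (N : ℚ) : ℚ := -441 * N * (N - 1) / (9 * N ^ 2 - 1)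

lemma den_ne (n : ℕ) : (9 * (n:ℚ) ^ 2 - 1) ≠ 0 := by
  rcases Nat.eq_zero_or_pos n with h | h
  · subst h; norm_num
  · have : (1:ℚ) ≤ n := by exact_mod_cast h
    nlinarith

def sol (x y : ℚ) : ℕ → ℚ
  | 0 => x
  | 1 => y
  | n + 2 => bb ((n + 2 : ℕ) : ℚ) * sol x y (n + 1) + aa ((n + 2 : ℕ) : ℚ) * sol x y n

noncomputable def B (n : ℕ) : ℝ := (bb (n : ℚ) : ℝ)
noncomputable def A (n : ℕ) : ℝ := (aa (n : ℚ) : ℝ)

lemma B_eq (n : ℕ) : B n = 81 * n * (2 * n - 1) / (9 * (n:ℝ) ^ 2 - 1) := by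
  simp [B, bb]
lemma A_eq (n : ℕ) : A n = -441 * n * (n - 1) / (9 * (n:ℝ) ^ 2 - 1) := by
  simp [A, aa]

lemma inv_tend : Tendsto (fun n : ℕ => ((n:ℝ))⁻¹) atTop (𝓝 0) := tendsto_inv_atTop_nhds_zero_nat

lemma B_tend : Tendsto B atTop (𝓝 18) := by
  have h : Tendsto (fun n : ℕ => 81 * (2 - ((n:ℝ))⁻¹) / (9 - ((n:ℝ))⁻¹ ^ 2)) atTop
      (𝓝 (81 * (2 - 0) / (9 - 0 ^ 2))) :=
    ((inv_tend.const_sub 2).const_mul 81).div ((inv_tend.pow 2).const_sub 9) (by norm_num)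
  rw [show (81 * (2 - 0) / (9 - 0 ^ 2) : ℝ) = 18 by norm_num] at h
  refine h.congr' ?_
  filter_upwards [eventually_ge_atTop 1] with n hn
  have : (1:ℝ) ≤ n := by exact_mod_cast hn
  have h2 : (9 * (n:ℝ) ^ 2 - 1) ≠ 0 := by nlinarith
  have h3 : (n:ℝ) ≠ 0 := by linarith
  have h4 : ((n:ℝ) ^ 2 * 9 - 1) ≠ 0 := by nlinarith
  rw [B_eq]; field_simp

lemma A_tend : Tendsto A atTop (𝓝 (-49)) := by
  have h : Tendsto (fun n : ℕ => -441 * (1 - ((n:ℝ))⁻¹) / (9 - ((n:ℝ))⁻¹ ^ 2)) atTop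
      (𝓝 (-441 * (1 - 0) / (9 - 0 ^ 2))) :=
    ((inv_tend.const_sub 1).const_mul (-441)).div ((inv_tend.pow 2).const_sub 9) (by norm_num)
  rw [show (-441 * (1 - 0) / (9 - 0 ^ 2) : ℝ) = -49 by norm_num] at h
  refine h.congr' ?_
  filter_upwards [eventually_ge_atTop 1] with n hn
  have : (1:ℝ) ≤ n := by exact_mod_cast hn
  have h2 : (9 * (n:ℝ) ^ 2 - 1) ≠ 0 := by nlinarith
  have h3 : (n:ℝ) ≠ 0 := by linarith
  have h4 : ((n:ℝ) ^ 2 * 9 - 1) ≠ 0 := by nlinarith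
  rw [A_eq]; field_simp

lemma sol_rec (x y : ℚ) (n : ℕ) :
    (sol x y (n + 2) : ℝ) = B (n + 2) * sol x y (n + 1) + A (n + 2) * sol x y n := by
  rw [sol]; simp [A, B]

noncomputable def g (y : ℝ) : ℝ := 9 - y ^ 3 - 8 / y ^ 3
noncomputable def II (n : ℕ) : ℝ := ∫ y in (1:ℝ)..2, g y ^ n

lemma g_cont : ContinuousOn g (Set.uIcc 1 2) := by
  intro y hy
  rw [Set.uIcc_of_le (by norm_num)] at hy
  have : y ^ 3 ≠ 0 := pow_ne_zero _ (by linarith [hy.1])
  refine ContinuousAt.continuousWithinAt ?_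
  unfold g
  exact (continuousAt_const.sub (by fun_prop)).sub (continuousAt_const.div (by fun_prop) this)

lemma g_int (n : ℕ) : IntervalIntegrable (fun y => g y ^ n) MeasureTheory.volume 1 2 :=
  (g_cont.pow n).intervalIntegrable

lemma g_pos {y : ℝ} (h1 : 1 < y) (h2 : y < 2) : 0 < g y := by
  have a1 : 1 < y ^ 3 := one_lt_pow₀ h1 (by norm_num)
  have a2 : y ^ 3 < 2 ^ 3 := pow_lt_pow_left₀ h2 (by linarith) (by norm_num)
  have : g y = (y ^ 3 - 1) * (8 - y ^ 3) / y ^ 3 := by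
    unfold g; field_simp; ring
  rw [this]
  apply div_pos (mul_pos (by linarith) (by linarith)) (by linarith)

lemma g_le {y : ℝ} (h1 : 1 ≤ y) : g y ≤ 4 := by
  have a1 : 0 < y ^ 3 := by positivity
  have : 5 - y ^ 3 ≤ 8 / y ^ 3 := by
    rw [le_div_iff₀ a1]; nlinarith [sq_nonneg (y ^ 3 - 5 / 2)]
  unfold g; linarith

lemma g_nonneg {y : ℝ} (h1 : 1 ≤ y) (h2 : y ≤ 2) : 0 ≤ g y := by
  rcases h1.eq_or_lt with h | h
  · rw [← h]; norm_num [g]
  rcases h2.eq_or_lt with h' | h'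
  · rw [h']; norm_num [g]
  exact (g_pos h h').le

lemma II_pos (n : ℕ) : 0 < II n :=
  intervalIntegral.intervalIntegral_pos_of_pos_on (g_int n)
    (fun _ hy => pow_pos (g_pos hy.1 hy.2) n) (by norm_num)

lemma II_le (n : ℕ) : II (n + 1) ≤ 4 * II n := by
  rw [II, II, ← intervalIntegral.integral_const_mul]
  refine intervalIntegral.integral_mono_on (by norm_num) (g_int _) ((g_int _).const_mul _)
    fun y hy => ?_
  rw [pow_succ, mul_comm]
  exact mul_le_mul_of_nonneg_right (g_le hy.1) (pow_nonneg (g_nonneg hy.1 hy.2) n)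

lemma g_deriv {y : ℝ} (hy : y ≠ 0) : HasDerivAt g (-3 * y ^ 2 + 24 / y ^ 4) y := by
  have h1 : HasDerivAt (fun y : ℝ => y ^ 3) (3 * y ^ 2) y := by simpa using hasDerivAt_pow 3 y
  have h2 := (h1.const_sub 9).sub ((hasDerivAt_const y (8:ℝ)).div h1 (pow_ne_zero 3 hy))
  refine h2.congr_deriv ?_
  field_simp; ring

lemma II_rec (m : ℕ) :
    ((m + 2 : ℝ) - 1 / (9 * (m + 2))) * II (m + 2)
      = (18 * (m + 1) + 9) * II (m + 1) - 49 * (m + 1) * II m := by
  have key : ∫ y in (1:ℝ)..2, (((m + 2 : ℝ) - 1 / (9 * (m + 2))) * g y ^ (m + 2)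
      - ((18 * (m + 1) + 9) * g y ^ (m + 1) - 49 * (m + 1) * g y ^ m)) =
      (fun y => (y / 3) * (g y ^ (m + 1) * (-y ^ 3 + 8 / y ^ 3) - g y ^ (m + 2) / (3 * (m + 2)))) 2
      - (fun y => (y / 3) * (g y ^ (m + 1) * (-y ^ 3 + 8 / y ^ 3)
        - g y ^ (m + 2) / (3 * (m + 2)))) 1 := by
    refine intervalIntegral.integral_eq_sub_of_hasDerivAt (f := fun y => (y / 3) *
      (g y ^ (m + 1) * (-y ^ 3 + 8 / y ^ 3) - g y ^ (m + 2) / (3 * (m + 2)))) ?_ ?_
    · intro y hy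
      rw [Set.uIcc_of_le (by norm_num)] at hy
      have hy0 : y ≠ 0 := by linarith [hy.1]
      have h1 : HasDerivAt (fun y : ℝ => y ^ 3) (3 * y ^ 2) y := by simpa using hasDerivAt_pow 3 y
      have h2 := h1.neg.add ((hasDerivAt_const y (8:ℝ)).div h1 (pow_ne_zero 3 hy0))
      have h3 := ((hasDerivAt_id' y).div_const 3).mul
        ((((g_deriv hy0).pow (m + 1)).mul h2).sub
          (((g_deriv hy0).pow (m + 2)).div_const (3 * (m + 2))))
      refine h3.congr_deriv ?_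
      simp only [Pi.pow_apply, Pi.add_apply, Pi.neg_apply, Pi.div_apply, Pi.mul_apply,
        Pi.sub_apply, Nat.add_succ_sub_one, pow_succ (g y), add_zero]
      have hm : (m + 2 : ℝ) ≠ 0 := by positivity
      generalize g y ^ m = G
      unfold g
      push_cast
      field_simp
      ring
    · exact ((g_int _).const_mul _).sub (((g_int _).const_mul _).sub ((g_int _).const_mul _))
  rw [intervalIntegral.integral_sub ((g_int _).const_mul _)
    (((g_int _).const_mul _).sub ((g_int _).const_mul _)),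
    intervalIntegral.integral_sub ((g_int _).const_mul _) ((g_int _).const_mul _),
    intervalIntegral.integral_const_mul, intervalIntegral.integral_const_mul,
    intervalIntegral.integral_const_mul] at key
  have g1 : g 1 = 0 := by norm_num [g]
  have g2 : g 2 = 0 := by norm_num [g]
  simp only [g1, g2, pow_succ, mul_zero, zero_mul, zero_div, sub_zero] at key
  simp only [II, pow_succ]
  linarith

lemma II_rec' (m : ℕ) : II (m + 2) = B (m + 2) * II (m + 1) + A (m + 2) * II m := by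
  have h := II_rec m
  have hm : (0:ℝ) ≤ m := Nat.cast_nonneg m
  have h1 : (m + 2 : ℝ) ≠ 0 := by positivity
  have h2 : (9 * (m + 2 : ℝ) ^ 2 - 1) ≠ 0 := by nlinarith
  rw [B_eq, A_eq]
  push_cast
  rw [div_mul_eq_mul_div, div_mul_eq_mul_div, ← add_div, eq_div_iff h2]
  field_simp at h
  linear_combination h

lemma II_zero : II 0 = 1 := by simp [II]; norm_num

lemma II_one : II 1 = 9 / 4 := by
  have key : ∫ y in (1:ℝ)..2, g y ^ 1 =
      (fun y : ℝ => 9 * y - y ^ 4 / 4 + 4 / y ^ 2) 2 - (fun y : ℝ => 9 * y - y ^ 4 / 4 + 4 / y ^ 2) 1 := by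
    refine intervalIntegral.integral_eq_sub_of_hasDerivAt
      (f := fun y : ℝ => 9 * y - y ^ 4 / 4 + 4 / y ^ 2) ?_ (g_int 1)
    intro y hy
    rw [Set.uIcc_of_le (by norm_num)] at hy
    have hy0 : y ≠ 0 := by linarith [hy.1]
    have h := (((hasDerivAt_id' y).const_mul 9).sub ((hasDerivAt_pow 4 y).div_const 4)).add
      ((hasDerivAt_const y (4:ℝ)).div (hasDerivAt_pow 2 y) (pow_ne_zero 2 hy0))
    refine h.congr_deriv ?_
    unfold g
    simp only [pow_one]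
    norm_num
    field_simp; ring
  rw [II, key]; norm_num

lemma v_eq (n : ℕ) : (sol 1 (9 / 4) n : ℝ) = II n := by
  induction n using Nat.twoStepInduction with
  | zero => simp [sol, II_zero]
  | one => rw [II_one]; simp [sol]
  | more n h1 h2 => rw [sol_rec, II_rec', h1, h2]

lemma w_ge (n : ℕ) : 0 < (sol 1 9 n : ℝ) ∧ 9 * (sol 1 9 n : ℝ) ≤ sol 1 9 (n + 1) := by
  induction n with
  | zero => simp [sol]
  | succ n ih =>
    obtain ⟨h1, h2⟩ := ih
    refine ⟨by linarith, ?_⟩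
    rw [sol_rec, B_eq, A_eq]
    push_cast
    have hm : (0:ℝ) ≤ n := Nat.cast_nonneg n
    have hd : 0 < (9 * (n + 2 : ℝ) ^ 2 - 1) := by nlinarith
    rw [div_mul_eq_mul_div, div_mul_eq_mul_div, ← add_div, le_div_iff₀ hd]
    have p1 : 0 ≤ 49 * ((n:ℝ) + 2) * (n + 1) * ((sol 1 9 (n + 1) : ℝ) - 9 * sol 1 9 n) :=
      mul_nonneg (by positivity) (by linarith)
    have p2 : 0 ≤ (32 * ((n:ℝ) + 2) * (n + 1) + 9) * (sol 1 9 (n + 1) : ℝ) :=
      mul_nonneg (by positivity) (by linarith)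
    nlinarith

lemma shrink (e : ℕ → ℝ) (h0 : ∀ n, 0 ≤ e n) (M : ℝ) (hM : 0 < M) (h1 : ∀ᶠ n in atTop, e n ≤ M)
    (h2 : ∀ C, 0 < C → (∀ᶠ n in atTop, e n ≤ C) → ∀ᶠ n in atTop, e n ≤ C * (3 / 4)) :
    Tendsto e atTop (𝓝 0) := by
  have h3 : ∀ k : ℕ, ∀ᶠ n in atTop, e n ≤ M * (3 / 4) ^ k := by
    intro k
    induction k with
    | zero => simpa using h1
    | succ k ih => rw [pow_succ, ← mul_assoc]; exact h2 _ (by positivity) ih
  rw [Metric.tendsto_nhds]
  intro ε hε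
  obtain ⟨k, hk⟩ := exists_pow_lt_of_lt_one (div_pos hε hM) (show (3 / 4 : ℝ) < 1 by norm_num)
  filter_upwards [h3 k] with n hn
  rw [Real.dist_eq, sub_zero, abs_of_nonneg (h0 n)]
  rw [lt_div_iff₀ hM] at hk
  linarith

lemma sq2 : (1.4:ℝ) < √2 ∧ √2 < 1.5 ∧ √2 * √2 = 2 := by
  have h := Real.mul_self_sqrt (show (0:ℝ) ≤ 2 by norm_num)
  have h0 := Real.sqrt_nonneg 2
  refine ⟨by nlinarith, by nlinarith, h⟩

lemma err (C : ℝ) (hC : 0 < C) :
    ∀ᶠ n in atTop, |B (n + 2) - 18| < C ∧ |A (n + 2) + 49| < C := by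
  have h1 := (Metric.tendsto_nhds.mp (B_tend.comp (tendsto_add_atTop_nat 2))) C hC
  have h2 := (Metric.tendsto_nhds.mp (A_tend.comp (tendsto_add_atTop_nat 2))) C hC
  filter_upwards [h1, h2] with n a b
  simp only [Function.comp, Real.dist_eq, sub_neg_eq_add] at a b
  exact ⟨a, b⟩

lemma v_tend : Tendsto (fun n : ℕ => II (n + 1) / II n) atTop (𝓝 (9 - 4 * √2)) := by
  obtain ⟨s1, s2, s3⟩ := sq2
  set l : ℝ := 9 - 4 * √2 with hl
  have hl2 : l * (18 - l) = 49 := by rw [hl]; nlinarith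
  have hl0 : 0 < l := by rw [hl]; linarith
  have hl4 : l < 4 := by rw [hl]; linarith
  have r0 : ∀ n, 0 < II (n + 1) / II n := fun n => div_pos (II_pos _) (II_pos _)
  have r4 : ∀ n, II (n + 1) / II n ≤ 4 := fun n => by
    rw [div_le_iff₀ (II_pos _)]; exact II_le n
  rw [tendsto_iff_norm_sub_tendsto_zero]
  refine shrink _ (fun _ => norm_nonneg _) 4 (by norm_num) (Eventually.of_forall fun n => ?_)
    fun C hC h => ?_
  · rw [Real.norm_eq_abs, abs_le]; constructor <;> linarith [r0 n, r4 n]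
  · filter_upwards [(tendsto_add_atTop_nat 1).eventually h, err C hC, err 1 one_pos] with n a b c
    have e : II (n + 1) / II n * (B (n + 2) - II (n + 1 + 1) / II (n + 1)) = - A (n + 2) := by
      have := II_pos n
      have := II_pos (n + 1)
      rw [show n + 1 + 1 = n + 2 by ring, II_rec' n]; field_simp; ring
    have t0 := r0 (n + 1)
    have t4 := r4 (n + 1)
    generalize II (n + 1 + 1) / II (n + 1) = t at *
    generalize II (n + 1) / II n = r at *
    rw [Real.norm_eq_abs, abs_le] at a ⊢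
    obtain ⟨b1, b2⟩ := b
    obtain ⟨c1, -⟩ := c
    rw [abs_lt] at b1 b2 c1
    have e2 : (r - l) * (B (n + 2) - t) = -(A (n + 2) + 49) - l * (B (n + 2) - 18) + l * (t - l) := by
      linear_combination e - hl2
    have hd : 13 ≤ B (n + 2) - t := by linarith
    have u1 : (r - l) * (B (n + 2) - t) ≤ 9 * C := by rw [e2]; nlinarith
    have u2 : -(9 * C) ≤ (r - l) * (B (n + 2) - t) := by rw [e2]; nlinarith
    constructor
    · by_contra hh; push Not at hh; nlinarith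
    · by_contra hh; push Not at hh; nlinarith

lemma w_tend : Tendsto (fun n : ℕ => (sol 1 9 (n + 1) : ℝ) / (sol 1 9 n : ℝ)) atTop
    (𝓝 (9 + 4 * √2)) := by
  obtain ⟨s1, s2, s3⟩ := sq2
  set l : ℝ := 9 + 4 * √2 with hl
  have hl2 : l * (18 - l) = 49 := by rw [hl]; nlinarith
  have hl0 : 14 < l := by rw [hl]; linarith
  have hl4 : l < 15 := by rw [hl]; linarith
  have r9 : ∀ n, 9 ≤ (sol 1 9 (n + 1) : ℝ) / (sol 1 9 n : ℝ) := fun n => by
    rw [le_div_iff₀ (w_ge n).1]; exact (w_ge n).2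
  have e : ∀ n, (sol 1 9 (n + 1) : ℝ) / (sol 1 9 n : ℝ) *
      (B (n + 2) - (sol 1 9 (n + 1 + 1) : ℝ) / (sol 1 9 (n + 1) : ℝ)) = - A (n + 2) := by
    intro n
    have := (w_ge n).1
    have := (w_ge (n + 1)).1
    rw [show n + 1 + 1 = n + 2 by ring, sol_rec]; field_simp; ring
  rw [← tendsto_add_atTop_iff_nat 1, tendsto_iff_norm_sub_tendsto_zero]
  refine shrink _ (fun _ => norm_nonneg _) 6 (by norm_num) ?_ fun C hC h => ?_
  · filter_upwards [err 1 one_pos] with n c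
    obtain ⟨c1, c2⟩ := c
    have e1 := e n
    have t0 := r9 (n + 1)
    have t1 := r9 n
    generalize (sol 1 9 (n + 1 + 1) : ℝ) / (sol 1 9 (n + 1) : ℝ) = t at *
    generalize (sol 1 9 (n + 1) : ℝ) / (sol 1 9 n : ℝ) = r at *
    rw [abs_lt] at c1 c2
    rw [Real.norm_eq_abs, abs_le]
    have : 0 ≤ B (n + 2) - t := by
      by_contra hh; push Not at hh; nlinarith
    constructor <;> linarith
  · obtain ⟨N, hN⟩ := eventually_atTop.mp h
    filter_upwards [eventually_ge_atTop (N + 1), err (C / 10) (by positivity), err 1 one_pos]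
      with n hn b c
    have a := hN (n - 1) (by omega)
    rw [show n - 1 + 1 = n by omega] at a
    have e1 := e n
    have t0 := r9 (n + 1)
    have t1 := r9 n
    generalize (sol 1 9 (n + 1 + 1) : ℝ) / (sol 1 9 (n + 1) : ℝ) = t at *
    generalize (sol 1 9 (n + 1) : ℝ) / (sol 1 9 n : ℝ) = r at *
    rw [Real.norm_eq_abs, abs_le] at a ⊢
    obtain ⟨b1, b2⟩ := b
    rw [abs_lt] at b1 b2
    have e2 : r * (t - l - (B (n + 2) - 18)) = (A (n + 2) + 49) + (18 - l) * (r - l) := by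
      linear_combination -e1 + hl2
    have u1 : r * (t - l - (B (n + 2) - 18)) ≤ 5 * C := by rw [e2]; nlinarith
    have u2 : -(5 * C) ≤ r * (t - l - (B (n + 2) - 18)) := by rw [e2]; nlinarith
    have u3 : t - l - (B (n + 2) - 18) ≤ 5 * C / 9 := by
      by_contra hh; push Not at hh; nlinarith
    have u4 : -(5 * C / 9) ≤ t - l - (B (n + 2) - 18) := by
      by_contra hh; push Not at hh; nlinarith
    constructor <;> linarith

/-- The negation of Zudilin's rationality statement. -/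
theorem result :
    ¬ (∀ (a b : RatFunc ℚ) (α β lam Lam : ℝ) (v w : ℕ → ℚ),
      Tendsto (fun n : ℕ => ((RatFunc.eval (RingHom.id ℚ) (n : ℚ) a : ℚ) : ℝ)) atTop (nhds α) →
      Tendsto (fun n : ℕ => ((RatFunc.eval (RingHom.id ℚ) (n : ℚ) b : ℚ) : ℝ)) atTop (nhds β) →
      lam + Lam = β →
      lam * Lam = -α →
      0 < |lam| →
      |lam| < |Lam| →
      (∀ᶠ n in atTop, v (n + 2) =
          RatFunc.eval (RingHom.id ℚ) ((n + 2 : ℕ) : ℚ) b * v (n + 1) +
          RatFunc.eval (RingHom.id ℚ) ((n + 2 : ℕ) : ℚ) a * v n) →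
      (∀ᶠ n in atTop, w (n + 2) =
          RatFunc.eval (RingHom.id ℚ) ((n + 2 : ℕ) : ℚ) b * w (n + 1) +
          RatFunc.eval (RingHom.id ℚ) ((n + 2 : ℕ) : ℚ) a * w n) →
      (∀ c d : ℚ, (∀ᶠ n in atTop, c * v n + d * w n = 0) → c = 0 ∧ d = 0) →
      Tendsto (fun n : ℕ => ((v (n + 1) : ℝ) / (v n : ℝ))) atTop (nhds lam) →
      Tendsto (fun n : ℕ => ((w (n + 1) : ℝ) / (w n : ℝ))) atTop (nhds Lam) →
      (∃ q : ℚ, (q : ℝ) = lam) ∧ (∃ r : ℚ, (r : ℝ) = Lam)) := by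
  intro h
  obtain ⟨s1, s2, s3⟩ := sq2
  have ha : ∀ n : ℕ, RatFunc.eval (RingHom.id ℚ) (n : ℚ)
      (algebraMap ℚ[X] (RatFunc ℚ) (-441 * X * (X - 1)) /
        algebraMap ℚ[X] (RatFunc ℚ) (9 * X ^ 2 - 1)) = aa n := fun n => by
    rw [eval_div _ _ _ (by simpa using den_ne n)]; simp [aa]
  have hb : ∀ n : ℕ, RatFunc.eval (RingHom.id ℚ) (n : ℚ)
      (algebraMap ℚ[X] (RatFunc ℚ) (81 * X * (2 * X - 1)) /
        algebraMap ℚ[X] (RatFunc ℚ) (9 * X ^ 2 - 1)) = bb n := fun n => by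
    rw [eval_div _ _ _ (by simpa using den_ne n)]; simp [bb]
  have key := h (algebraMap ℚ[X] (RatFunc ℚ) (-441 * X * (X - 1)) /
        algebraMap ℚ[X] (RatFunc ℚ) (9 * X ^ 2 - 1))
      (algebraMap ℚ[X] (RatFunc ℚ) (81 * X * (2 * X - 1)) /
        algebraMap ℚ[X] (RatFunc ℚ) (9 * X ^ 2 - 1)) (-49) 18 (9 - 4 * √2) (9 + 4 * √2) (sol 1 (9 / 4)) (sol 1 9)
    (by simp only [ha]; exact A_tend) (by simp only [hb]; exact B_tend) (by ring)
    (by nlinarith) (abs_pos.mpr (by linarith))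
    (by rw [abs_of_pos (by linarith), abs_of_pos (by linarith)]; linarith)
    (Eventually.of_forall fun n => by rw [ha, hb, sol])
    (Eventually.of_forall fun n => by rw [ha, hb, sol]) ?_
    (by simp only [v_eq]; exact v_tend) w_tend
  · obtain ⟨⟨q, hq⟩, -⟩ := key
    apply irrational_sqrt_two
    refine ⟨(9 - q) / 4, ?_⟩
    push_cast
    rw [hq]; ring
  · intro c d hcd
    obtain ⟨N, hN⟩ := eventually_atTop.mp hcd
    have e1 : (c:ℝ) * II N + d * (sol 1 9 N : ℝ) = 0 := by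
      rw [← v_eq]; exact_mod_cast hN N le_rfl
    have e2 : (c:ℝ) * II (N + 1) + d * (sol 1 9 (N + 1) : ℝ) = 0 := by
      rw [← v_eq]; exact_mod_cast hN (N + 1) (by omega)
    have p1 := II_pos N
    have p2 := II_pos (N + 1)
    have p3 := II_le N
    obtain ⟨p4, p5⟩ := w_ge N
    have hd : (d:ℝ) * (II N * (sol 1 9 (N + 1) : ℝ) - II (N + 1) * (sol 1 9 N : ℝ)) = 0 := by
      linear_combination II N * e2 - II (N + 1) * e1
    have hpos : 0 < II N * (sol 1 9 (N + 1) : ℝ) - II (N + 1) * (sol 1 9 N : ℝ) := by nlinarith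
    have hd0 : (d:ℝ) = 0 := (mul_eq_zero.mp hd).resolve_right hpos.ne'
    rw [hd0, zero_mul, add_zero] at e1
    exact ⟨by exact_mod_cast (mul_eq_zero.mp e1).resolve_right p1.ne', by exact_mod_cast hd0⟩

end Pool.Agent.S16580
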