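import Pool.Statements.S16663
import Pool.Agent.Lib.helper11.GSpB

set_option autoImplicit false
open Pool Pool.MP_3e7cbe_nt

namespace Pool.Agent.S16663

open Pool.Agent.Lib.H11GSp Matrix

lemma dg_eq_diagonal {F : Type} [Field F] {m : ℕ} (a : F) :
    dg (1 : Matrix (Fin m) (Fin m) F) (a • 1) =
      Matrix.diagonal (Sum.elim (fun _ : Fin m => (1 : F)) (fun _ : Fin m => a)) := by
  rw [dg, ← fromBlocks_diagonal, smul_one_eq_diagonal, diagonal_one]

lemma isG_T {F : Type} [Field F] {m : ℕ} {a : F} (ha : a ≠ 0) :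
    IsG (dg (1 : Matrix (Fin m) (Fin m) F) (a • 1)) := isG_dg ha (by simp)

lemma small_facts (p : ℕ) [Fact p.Prime] (m : ℕ) (hm : 1 ≤ m) (ε : ℝ) (hε0 : 0 ≤ ε)
    (hε : 16 * m * ε < 1) (A B C D : Matrix (Fin m) (Fin m) ℚ_[p]) (c : ℚ_[p])
    (hg : (fromBlocks A B C D)ᵀ * J (Fin m) ℚ_[p] * fromBlocks A B C D = c • J (Fin m) ℚ_[p])
    (hs : ∀ i j, ‖(fromBlocks A B C D - 1) i j‖ ≤ ε) : A.det ≠ 0 ∧ ‖c - 1‖ < 1 / 4 := by
  have hmR : (1 : ℝ) ≤ m := by exact_mod_cast hm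
  have hε1 : ε ≤ 1 / 16 := by nlinarith
  have hA : ∀ i j, ‖A i j - (1 : Matrix (Fin m) (Fin m) ℚ_[p]) i j‖ ≤ ε := by
    intro i j
    simpa [← fromBlocks_one] using hs (Sum.inl i) (Sum.inl j)
  have hB : ∀ i j, ‖B i j‖ ≤ ε := by
    intro i j
    simpa [← fromBlocks_one] using hs (Sum.inl i) (Sum.inr j)
  have hC : ∀ i j, ‖C i j‖ ≤ ε := by
    intro i j
    simpa [← fromBlocks_one] using hs (Sum.inr i) (Sum.inl j)
  have hD : ∀ i j, ‖D i j - (1 : Matrix (Fin m) (Fin m) ℚ_[p]) i j‖ ≤ ε := by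
    intro i j
    simpa [← fromBlocks_one] using hs (Sum.inr i) (Sum.inr j)
  constructor
  · apply det_ne_zero_of_sum_row_lt_diag
    intro k
    have h1 : ∑ j ∈ Finset.univ.erase k, ‖A k j‖ ≤ ∑ _j : Fin m, ε := by
      refine (Finset.sum_le_sum (g := fun _ => ε) fun j hj => ?_).trans
        (Finset.sum_le_sum_of_subset_of_nonneg (Finset.erase_subset _ _) fun _ _ _ => hε0)
      have := hA k j
      rwa [one_apply_ne (Finset.ne_of_mem_erase hj).symm, sub_zero] at this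
    have h2 := hA k k
    rw [one_apply_eq] at h2
    have h3 : ‖(1 : ℚ_[p])‖ - ‖A k k‖ ≤ ‖1 - A k k‖ := norm_sub_norm_le _ _
    rw [norm_sub_rev, norm_one] at h3
    simp only [Finset.sum_const, Finset.card_univ, Fintype.card_fin, nsmul_eq_mul] at h1
    nlinarith
  · obtain ⟨-, -, r3, -⟩ := isG_blocks.1 hg
    let i : Fin m := ⟨0, hm⟩
    have h1 := congrFun (congrFun r3 i) i
    simp only [Matrix.sub_apply, Matrix.mul_apply, transpose_apply, Matrix.smul_apply, one_apply_eq,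
      smul_eq_mul, mul_one] at h1
    have h2 : c - 1 = ∑ j, (D j i * A j i - (1 : Matrix (Fin m) (Fin m) ℚ_[p]) j i
        - B j i * C j i) := by
      rw [Finset.sum_sub_distrib, Finset.sum_sub_distrib, ← h1]
      simp [one_apply]
      ring
    rw [h2]
    refine (norm_sum_le _ _).trans_lt ?_
    have h3 : ∀ j, ‖D j i * A j i - (1 : Matrix (Fin m) (Fin m) ℚ_[p]) j i - B j i * C j i‖
        ≤ 4 * ε := by
      intro j
      set δ := (1 : Matrix (Fin m) (Fin m) ℚ_[p]) j i with hδ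
      have hδ1 : ‖δ‖ ≤ 1 := by
        rw [hδ, one_apply]; split_ifs <;> simp
      have hδ2 : δ * δ = δ := by
        rw [hδ, one_apply]; split_ifs <;> simp
      have e : D j i * A j i - δ - B j i * C j i =
          (D j i - δ) * (A j i - δ) + ((D j i - δ) * δ + (δ * (A j i - δ) - B j i * C j i)) := by
        linear_combination hδ2
      rw [e]
      have a1 := hA j i
      have a2 := hB j i
      have a3 := hC j i
      have a4 := hD j i
      rw [← hδ] at a1 a4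
      have b1 := mul_le_mul a4 a1 (norm_nonneg _) hε0
      have b2 := mul_le_mul a4 hδ1 (norm_nonneg _) hε0
      have b3 := mul_le_mul hδ1 a1 (norm_nonneg _) zero_le_one
      have b4 := mul_le_mul a2 a3 (norm_nonneg _) hε0
      rw [← norm_mul] at b1 b2 b3 b4
      have c1 := norm_add_le ((D j i - δ) * (A j i - δ))
        ((D j i - δ) * δ + (δ * (A j i - δ) - B j i * C j i))
      have c2 := norm_add_le ((D j i - δ) * δ) (δ * (A j i - δ) - B j i * C j i)
      have c3 := norm_sub_le (δ * (A j i - δ)) (B j i * C j i)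
      nlinarith
    refine (Finset.sum_le_sum fun j _ => h3 j).trans_lt ?_
    simp only [Finset.sum_const, Finset.card_univ, Fintype.card_fin, nsmul_eq_mul]
    nlinarith

/-- For every prime p and rank m ≥ 1, each irreducible admissible infinite-dimensional complex representation of GSp_2m(Q_p) has a nonzero vector fixed by all g in GSp congruent mod p^n to diag(1,…,1,a,…,a), for some level n and unit a. -/
theorem result :
  ∀ (p : ℕ) [Fact (Nat.Prime p)] (m : ℕ), 1 ≤ m →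
  ∀ (V : Type) [AddCommGroup V] [Module ℂ V]
    (ρ : Matrix (Fin m ⊕ Fin m) (Fin m ⊕ Fin m) (Padic p) → (V →ₗ[ℂ] V)),
    ρ 1 = LinearMap.id →
    (∀ g h : Matrix (Fin m ⊕ Fin m) (Fin m ⊕ Fin m) (Padic p),
      (∃ c : Padic p, c ≠ 0 ∧
        Matrix.transpose g * Matrix.J (Fin m) (Padic p) * g = c • Matrix.J (Fin m) (Padic p)) →
      (∃ c : Padic p, c ≠ 0 ∧
        Matrix.transpose h * Matrix.J (Fin m) (Padic p) * h = c • Matrix.J (Fin m) (Padic p)) →
      ρ (g * h) = ρ g ∘ₗ ρ h) →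
    (∀ v : V, ∃ k : ℕ, ∀ g : Matrix (Fin m ⊕ Fin m) (Fin m ⊕ Fin m) (Padic p),
      (∃ c : Padic p, c ≠ 0 ∧
        Matrix.transpose g * Matrix.J (Fin m) (Padic p) * g = c • Matrix.J (Fin m) (Padic p)) →
      (∀ i j, ‖(g - 1) i j‖ ≤ (p : ℝ) ^ (-(k : ℤ))) → ρ g v = v) →
    (∀ k : ℕ, ∃ s : Finset V, ∀ v : V,
      (∀ g : Matrix (Fin m ⊕ Fin m) (Fin m ⊕ Fin m) (Padic p),
        (∃ c : Padic p, c ≠ 0 ∧
          Matrix.transpose g * Matrix.J (Fin m) (Padic p) * g = c • Matrix.J (Fin m) (Padic p)) →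
        (∀ i j, ‖(g - 1) i j‖ ≤ (p : ℝ) ^ (-(k : ℤ))) → ρ g v = v) →
      v ∈ Submodule.span ℂ (s : Set V)) →
    Nontrivial V →
    (∀ W : Submodule ℂ V,
      (∀ g : Matrix (Fin m ⊕ Fin m) (Fin m ⊕ Fin m) (Padic p),
        (∃ c : Padic p, c ≠ 0 ∧
          Matrix.transpose g * Matrix.J (Fin m) (Padic p) * g = c • Matrix.J (Fin m) (Padic p)) →
        ∀ w ∈ W, ρ g w ∈ W) →
      W = ⊥ ∨ W = ⊤) →
    ¬ Module.Finite ℂ V →
    ∃ n : ℕ, ∃ v : V, v ≠ 0 ∧
      ∀ g : Matrix (Fin m ⊕ Fin m) (Fin m ⊕ Fin m) (Padic p),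
        (∃ c : Padic p, c ≠ 0 ∧
          Matrix.transpose g * Matrix.J (Fin m) (Padic p) * g = c • Matrix.J (Fin m) (Padic p)) →
        (∃ a : Padic p, ‖a‖ = 1 ∧ ∀ i j,
          ‖(g - Matrix.diagonal (Sum.elim (fun _ : Fin m => (1 : Padic p)) (fun _ : Fin m => a))) i j‖
            ≤ (p : ℝ) ^ (-(n : ℤ))) →
        ρ g v = v := by
  intro p hp m hm V _ _ ρ h1 hmul hsm hadm hnt hirr hinf
  have hpR : (1 : ℝ) < p := by exact_mod_cast hp.out.one_lt
  have hmul' : ∀ g h : MM m ℚ_[p], IsG g → IsG h → ρ (g * h) = (ρ g : Module.End ℂ V) * ρ h :=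
    fun g h hg hh => hmul g h hg hh
  have h1' : (ρ 1 : Module.End ℂ V) = 1 := h1
  have hsmall : ∀ ε : ℝ, 0 < ε → ∀ k₀ : ℕ, ∃ k : ℕ, k₀ ≤ k ∧ (p : ℝ) ^ (-(k : ℤ)) < ε := by
    intro ε hε k₀
    obtain ⟨k, hk⟩ := exists_pow_lt_of_lt_one hε (inv_lt_one_of_one_lt₀ hpR)
    refine ⟨max k k₀, le_max_right _ _, lt_of_le_of_lt ?_ hk⟩
    rw [inv_pow, ← _root_.zpow_natCast, ← _root_.zpow_neg]
    exact zpow_le_zpow_right₀ hpR.le (by have := le_max_left k k₀; omega)
  by_cases hN : ∀ S : Matrix (Fin m) (Fin m) ℚ_[p], Sᵀ = S → (ρ (nU S) : Module.End ℂ V) = 1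
  · exfalso
    apply hinf
    obtain ⟨v, hv⟩ := exists_ne (0 : V)
    obtain ⟨k₀, hk₀⟩ := hsm v
    have hmR : (0 : ℝ) < m := by exact_mod_cast hm
    obtain ⟨k, hk1, hk2⟩ := hsmall (1 / (16 * m)) (by positivity) k₀
    let W : Submodule ℂ V :=
      { carrier := {v | ∀ g : MM m ℚ_[p], IsG g → (∀ i j, ‖(g - 1) i j‖ ≤ (p : ℝ) ^ (-(k : ℤ))) →
          ρ g v = v}
        add_mem' := fun {a b} ha hb g hg hs => by rw [map_add, ha g hg hs, hb g hg hs]
        zero_mem' := fun g _ _ => map_zero _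
        smul_mem' := fun c a ha g hg hs => by rw [map_smul, ha g hg hs] }
    have hW := hirr W (by
      intro g hg w hw κ hκ hs
      have hg' : IsG g := hg
      obtain ⟨c, hc, hκ'⟩ := hκ
      have hκw := hw κ ⟨c, hc, hκ'⟩ hs
      rw [← fromBlocks_toBlocks κ] at hκ' hs hκw ⊢
      obtain ⟨f1, f2⟩ := small_facts p m hm _ (by positivity)
        (by rwa [lt_div_iff₀ (by positivity), mul_comm] at hk2) _ _ _ _ c hκ' hs
      obtain ⟨b, rfl⟩ := exists_sqrt p c f2
      have hb : b ≠ 0 := left_ne_zero_of_mul hc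
      have hcen := central ρ hmul' h1' hN _ _ _ _ b hb f1 hκ'
      rw [hcen] at hκw ⊢
      rw [← Module.End.mul_apply, ← hmul' _ _ (isG_scalar hb) hg', Matrix.smul_mul, Matrix.one_mul,
        ← Matrix.mul_one g, ← Matrix.mul_smul, hmul' _ _ hg' (isG_scalar hb), Module.End.mul_apply,
        hκw, Matrix.mul_one])
    have hvW : v ∈ W := fun g hg hs => hk₀ g hg fun i j =>
      (hs i j).trans (zpow_le_zpow_right₀ hpR.le (by omega))
    rcases hW with hW | hW
    · rw [hW] at hvW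
      exact absurd hvW hv
    · obtain ⟨s, hs⟩ := hadm k
      refine ⟨⟨s, eq_top_iff.2 fun x _ => hs x ?_⟩⟩
      have : x ∈ W := by rw [hW]; trivial
      exact this
  · push Not at hN
    obtain ⟨S, hS, hρ⟩ := hN
    obtain ⟨w, hw⟩ : ∃ w, ρ (nU S) w ≠ w := by
      by_contra h
      push Not at h
      exact hρ (LinearMap.ext h)
    obtain ⟨k, hk⟩ := hsm w
    have hp0 : (p : ℚ_[p]) ≠ 0 := by exact_mod_cast hp.out.ne_zero
    set S' : Matrix (Fin m) (Fin m) ℚ_[p] := ((p : ℚ_[p]) ^ k)⁻¹ • S with hS'def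
    have hS' : ∀ x : ℚ_[p], (x • S')ᵀ = x • S' := fun x => by
      rw [hS'def, transpose_smul, transpose_smul, hS]
    have hS'' : S'ᵀ = S' := by simpa using hS' 1
    set u : Module.End ℂ V := ρ (nU S') with hu
    have hun : ∀ n : ℕ, u ^ n = ρ (nU ((n : ℚ_[p]) • S')) := by
      intro n
      induction n with
      | zero => simp [nU_zero, h1']
      | succ n ih =>
        rw [pow_succ, ih, hu, ← hmul' _ _ (isG_nU (hS' _)) (isG_nU hS''), nU_mul]
        push_cast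
        rw [add_smul, one_smul]
    have hne : ∀ a : ℚ_[p], ‖a‖ = 1 → a ≠ 0 := by
      rintro a ha rfl
      simp at ha
    have hTs : ∀ (r : ℕ) (a : ℚ_[p]), ‖a - 1‖ ≤ (p : ℝ) ^ (-(r : ℤ)) → ∀ i j,
        ‖(dg (1 : Matrix (Fin m) (Fin m) ℚ_[p]) (a • 1) - 1) i j‖ ≤ (p : ℝ) ^ (-(r : ℤ)) := by
      intro r a ha i j
      have hpos : (0 : ℝ) ≤ (p : ℝ) ^ (-(r : ℤ)) := by positivity
      rcases i with i | i <;> rcases j with j | j
      · simpa [dg, ← fromBlocks_one] using hpos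
      · simpa [dg, ← fromBlocks_one] using hpos
      · simpa [dg, ← fromBlocks_one] using hpos
      · by_cases hij : i = j
        · subst hij
          simpa [dg, ← fromBlocks_one] using ha
        · simpa [dg, ← fromBlocks_one, hij] using hpos
    obtain ⟨N, hN⟩ : ∃ N : ℕ, ∀ i j,
        ‖(nU (((p ^ N : ℕ) : ℚ_[p]) • S') - 1) i j‖ ≤ (p : ℝ) ^ (-(k : ℤ)) := by
      have hpos : (0 : ℝ) < (p : ℝ) ^ (-(k : ℤ)) := by positivity
      set M : ℝ := ∑ i, ∑ j, ‖S' i j‖ with hM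
      have hM0 : 0 ≤ M := Finset.sum_nonneg fun _ _ => Finset.sum_nonneg fun _ _ => norm_nonneg _
      have hMb : ∀ i j, ‖S' i j‖ ≤ M := fun i j =>
        (Finset.single_le_sum (f := fun j => ‖S' i j‖) (fun _ _ => norm_nonneg _)
          (Finset.mem_univ j)).trans
          (Finset.single_le_sum (f := fun i => ∑ j, ‖S' i j‖)
            (fun _ _ => Finset.sum_nonneg fun _ _ => norm_nonneg _) (Finset.mem_univ i))
      obtain ⟨N, -, hN⟩ := hsmall ((p : ℝ) ^ (-(k : ℤ)) / (M + 1)) (by positivity) 0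
      refine ⟨N, fun i j => ?_⟩
      rcases i with i | i <;> rcases j with j | j
      · simpa [nU, ← fromBlocks_one] using hpos.le
      · have e : (nU (((p ^ N : ℕ) : ℚ_[p]) • S') - 1) (Sum.inl i) (Sum.inr j) =
            (p : ℚ_[p]) ^ N * S' i j := by simp [nU, ← fromBlocks_one]
        rw [e, norm_mul, Padic.norm_p_pow]
        rw [lt_div_iff₀ (by positivity)] at hN
        have : (0 : ℝ) < (p : ℝ) ^ (-(N : ℤ)) := by positivity
        nlinarith [hMb i j]
      · simpa [nU, ← fromBlocks_one] using hpos.le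
      · simpa [nU, ← fromBlocks_one] using hpos.le
    obtain ⟨z, hz0, hz⟩ := exists_fixed p u (fun a => ρ (dg 1 (a • 1)))
      (by simp only [one_smul, dg, fromBlocks_one]; exact h1')
      (fun a b ha hb => by
        rw [← hmul' _ _ (isG_T (hne a ha)) (isG_T (hne b hb)), dg_mul]
        simp [smul_smul, mul_comm])
      (fun a ha => by
        rw [hun, hu, ← hmul' _ _ (isG_nU hS'') (isG_T (hne _ ha)),
          ← hmul' _ _ (isG_T (hne _ ha)) (isG_nU (hS' _))]
        congr 1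
        simp [nU, dg, fromBlocks_multiply])
      (fun v => by
        obtain ⟨r, hr⟩ := hsm v
        exact ⟨r, fun a ha ha' => hr _ (isG_T (hne a ha)) (hTs r a ha')⟩)
      w k N (fun a ha ha' => hk _ (isG_T (hne a ha)) (hTs k a ha'))
      (by
        rw [hun, hS'def, smul_smul]
        push_cast
        rw [mul_inv_cancel₀ (pow_ne_zero _ hp0), one_smul]
        exact hw)
      (by
        rw [hun]
        exact hk _ (isG_nU (hS' _)) hN)
    obtain ⟨n, hn⟩ := hsm z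
    refine ⟨n, z, hz0, ?_⟩
    rintro g hg ⟨a, ha, hga⟩
    have hg' : IsG g := hg
    have ha0 := hne a ha
    have hinv : dg (1 : Matrix (Fin m) (Fin m) ℚ_[p]) (a • 1) * dg 1 (a⁻¹ • 1) = 1 := by
      rw [dg_mul]; simp [smul_smul, ha0, dg]
    have hinv' : dg (1 : Matrix (Fin m) (Fin m) ℚ_[p]) (a⁻¹ • 1) * dg 1 (a • 1) = 1 := by
      rw [dg_mul]; simp [smul_smul, ha0, dg]
    have hκ : IsG (dg 1 (a⁻¹ • 1) * g) := (isG_T (inv_ne_zero ha0)).mul hg'
    have e : g = dg 1 (a • 1) * (dg 1 (a⁻¹ • 1) * g) := by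
      rw [← Matrix.mul_assoc, hinv, Matrix.one_mul]
    have hκz := hn _ hκ (by
      intro i j
      rw [← hinv', ← Matrix.mul_sub, dg_eq_diagonal, dg_eq_diagonal, diagonal_mul, norm_mul]
      have : ‖Sum.elim (fun _ : Fin m => (1 : ℚ_[p])) (fun _ : Fin m => a⁻¹) i‖ = 1 := by
        rcases i with i | i <;> simp [ha]
      rw [this, one_mul]
      exact hga i j)
    rw [e, hmul' _ _ (isG_T ha0) hκ, Module.End.mul_apply, hκz]
    exact hz a ha

end Pool.Agent.S16663
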