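import Pool.Statements.S16913
import Pool.Agent.Lib.helper15.RestrC

set_option autoImplicit false
open Filter
open Pool Pool.MP_4f8442_nt

namespace Pool.Agent.S16913

/-- There is f: ℕ→ℕ such that whenever every large n is a sum of at most h elements of A (repetition allowed), and for some t every large n is a sum of at most t distinct elements of A, then every large n is a sum of at most f(h) distinct elements of A. -/
theorem result :
    ∃ f : ℕ → ℕ, ∀ (A : Set ℕ) (h : ℕ),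
      (∀ᶠ n in atTop, ∃ s : Multiset ℕ,
          Multiset.card s ≤ h ∧ (∀ x ∈ s, x ∈ A) ∧ s.sum = n) →
      (∃ t : ℕ, ∀ᶠ n in atTop, ∃ s : Finset ℕ,
          (↑s : Set ℕ) ⊆ A ∧ s.card ≤ t ∧ ∑ x ∈ s, x = n) →
      ∀ᶠ n in atTop, ∃ s : Finset ℕ,
          (↑s : Set ℕ) ⊆ A ∧ s.card ≤ f h ∧ ∑ x ∈ s, x = n := by
  choose f hf using Pool.Agent.Lib.helper15.Restr.main
  refine ⟨f, ?_⟩
  rintro A h hA ⟨t, ht⟩
  obtain ⟨N, hN⟩ := Filter.eventually_atTop.mp hA
  obtain ⟨M, hM⟩ := Filter.eventually_atTop.mp ht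
  obtain ⟨N1, h1⟩ := hf h A N hN (fun q r hq => by
    obtain ⟨s, h2, _, h4⟩ := hM (r + M * q) (by nlinarith)
    refine ⟨s, fun a ha => h2 ha, ?_⟩
    have : s.sum id = r + M * q := h4
    rw [this]
    simp [Nat.ModEq])
  refine Filter.eventually_atTop.mpr ⟨N1, fun m hm => ?_⟩
  obtain ⟨T, h2, h3, h4⟩ := h1 m hm
  exact ⟨T, fun a ha => h2 a ha, h3, h4⟩

end Pool.Agent.S16913
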