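import Pool.Statements.S16995
import Pool.Agent.Lib.helper26.Hyp

set_option autoImplicit false
open Pool Pool.MP_55e671_nt

namespace Pool.Agent.S16995

open Filter Topology Finset Pool.Agent.Lib.helper26.Hyp

open Classical in
noncomputable def ind (S : Set (ℤ × ℤ)) (p : ℤ × ℤ) : ℝ := if p ∈ S then 1 else 0

lemma ind_bd (S : Set (ℤ × ℤ)) (p : ℤ × ℤ) : 0 ≤ ind S p ∧ ind S p ≤ 1 := by
  unfold ind; split_ifs <;> norm_num

lemma ind_mul (S T : Set (ℤ × ℤ)) (p : ℤ × ℤ) : ind S p * ind T p = ind (S ∩ T) p := by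
  unfold ind
  by_cases h1 : p ∈ S <;> by_cases h2 : p ∈ T <;> simp [h1, h2]

lemma ind_shift (S : Set (ℤ × ℤ)) (v p : ℤ × ℤ) : ind {p | p + v ∈ S} p = ind S (p + v) := rfl

noncomputable def av (a b m n : ℕ) (S : Set (ℤ × ℤ)) : ℝ :=
  (∑ x ∈ range m ×ˢ range n, ind S (a + x.1, b + x.2)) / (m * n)

lemma av_bd (a b m n : ℕ) (S : Set (ℤ × ℤ)) : 0 ≤ av a b m n S ∧ av a b m n S ≤ 1 :=
  ⟨div_nonneg (sum_nonneg fun _ _ => (ind_bd _ _).1) (by positivity),
    div_le_one_of_le₀ ((sum_le_sum fun _ _ => (ind_bd _ _).2).trans (by simp)) (by positivity)⟩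

lemma av_sh1 (a b m n : ℕ) (hm : 0 < m) (hn : 0 < n) (S : Set (ℤ × ℤ)) :
    |av a b m n {p | p + (1, 0) ∈ S} - av a b m n S| ≤ 1 / m := by
  have : ∀ j : ℕ, ∑ i ∈ range m, (ind {p | p + (1, 0) ∈ S} (a + i, b + j) - ind S (a + i, b + j))
      = ind S (a + m, b + j) - ind S (a + (0 : ℕ), b + j) := fun j => by
    rw [← sum_range_sub (fun i : ℕ => ind S (a + i, b + j))]
    refine sum_congr rfl fun i _ => ?_
    rw [ind_shift]
    simp [add_assoc]
  rw [av, av, ← sub_div, ← sum_sub_distrib, sum_product_right, abs_div,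
    abs_of_pos (by positivity : (0 : ℝ) < m * n), div_le_div_iff₀ (by positivity) (by positivity)]
  simp only [this]
  have h : |∑ j ∈ range n, (ind S (a + m, b + j) - ind S (a + (0 : ℕ), b + j))| ≤ n := by
    refine (abs_sum_le_sum_abs _ _).trans ((sum_le_sum (g := fun _ => 1) fun j _ => ?_).trans
      (by simp))
    have := ind_bd S (a + m, b + j)
    have := ind_bd S (a + (0 : ℕ), b + j)
    rw [abs_le]
    constructor <;> linarith
  nlinarith [(Nat.cast_pos.2 hm : (0 : ℝ) < m)]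

lemma av_sh2 (a b m n : ℕ) (hm : 0 < m) (hn : 0 < n) (S : Set (ℤ × ℤ)) :
    |av a b m n {p | p + (0, 1) ∈ S} - av a b m n S| ≤ 1 / n := by
  have : ∀ i : ℕ, ∑ j ∈ range n, (ind {p | p + (0, 1) ∈ S} (a + i, b + j) - ind S (a + i, b + j))
      = ind S (a + i, b + n) - ind S (a + i, b + (0 : ℕ)) := fun i => by
    rw [← sum_range_sub (fun j : ℕ => ind S (a + i, b + j))]
    refine sum_congr rfl fun i _ => ?_
    rw [ind_shift]
    simp [add_assoc]
  rw [av, av, ← sub_div, ← sum_sub_distrib, sum_product, abs_div,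
    abs_of_pos (by positivity : (0 : ℝ) < m * n), div_le_div_iff₀ (by positivity) (by positivity)]
  simp only [this]
  have h : |∑ i ∈ range m, (ind S (a + i, b + n) - ind S (a + i, b + (0 : ℕ)))| ≤ m := by
    refine (abs_sum_le_sum_abs _ _).trans ((sum_le_sum (g := fun _ => 1) fun j _ => ?_).trans
      (by simp))
    have := ind_bd S (a + j, b + n)
    have := ind_bd S (a + j, b + (0 : ℕ))
    rw [abs_le]
    constructor <;> linarith
  nlinarith [(Nat.cast_pos.2 hn : (0 : ℝ) < n)]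

lemma av_cs (a b m n : ℕ) (hm : 0 < m) (hn : 0 < n) {ι : Type} [Fintype ι]
    (S : ι → Set (ℤ × ℤ)) (c : ι → ℝ) :
    (∑ i, c i * av a b m n (S i)) ^ 2 ≤ ∑ i, ∑ j, c i * c j * av a b m n (S i ∩ S j) := by
  have := sq_sum_le_card_mul_sum_sq (s := range m ×ˢ range n)
    (f := fun x => ∑ i, c i * ind (S i) (a + x.1, b + x.2))
  simp only [av, ← mul_div_assoc, ← sum_div, mul_sum]
  rw [div_pow, div_le_div_iff₀ (by positivity) (by positivity), sum_comm]
  have e : ∑ i, ∑ j, ∑ x ∈ range m ×ˢ range n, c i * c j * ind (S i ∩ S j) (a + x.1, b + x.2) =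
      ∑ x ∈ range m ×ˢ range n, (∑ i, c i * ind (S i) (a + x.1, b + x.2)) ^ 2 := by
    simp only [sq, sum_mul_sum, ← ind_mul]
    rw [sum_comm (s := range m ×ˢ range n)]
    refine sum_congr rfl fun i _ => ?_
    rw [sum_comm]
    exact sum_congr rfl fun x _ => sum_congr rfl fun j _ => by ring
  rw [e]
  simp only [card_product, card_range, Nat.cast_mul] at this
  have p : (0 : ℝ) < m * n := by positivity
  nlinarith

lemma exF (A : Set (ℤ × ℤ)) (ε : ℝ) (hε : 0 < ε)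
    (h : ∀ N : ℕ, ∃ a b m n : ℕ, N ≤ m ∧ N ≤ n ∧ ε ≤ av a b m n A) :
    ∃ F : ℤ × ℤ → ℝ, (∀ v, 0 ≤ F v ∧ F v ≤ 1) ∧ PD ε F ∧
      ∀ v, (¬ ∃ p ∈ A, p + v ∈ A) → F v = 0 := by
  choose a b m n hm hn hA using fun N => h (N + 1)
  obtain ⟨Λ, l1, l2⟩ := exlim (fun N => av (a N) (b N) (m N) (n N)) fun N => av_bd _ _ _ _
  have m0 : ∀ N, 0 < m N := fun N => lt_of_lt_of_le (Nat.succ_pos N) (hm N)
  have n0 : ∀ N, 0 < n N := fun N => lt_of_lt_of_le (Nat.succ_pos N) (hn N)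
  have sh : ∀ S T : Set (ℤ × ℤ), (∀ N, |av (a N) (b N) (m N) (n N) S -
      av (a N) (b N) (m N) (n N) T| ≤ 1 / ((N : ℝ) + 1)) → Λ S = Λ T := fun S T hST =>
    sub_eq_zero.1 (tendsto_nhds_unique ((l2 S).sub (l2 T))
      ((squeeze_zero_norm hST tendsto_one_div_add_atTop_nhds_zero_nat).mono_left
        Nat.hyperfilter_le_atTop))
  let G : AddSubgroup (ℤ × ℤ) :=
    { carrier := {v | ∀ S, Λ {p | p + v ∈ S} = Λ S}
      zero_mem' := fun S => by simp
      add_mem' := fun {v w} hv hw S => by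
        rw [← hw S, ← hv {p | p + w ∈ S}]
        simp only [Set.mem_ofPred_eq, add_assoc]
      neg_mem' := fun {v} hv S => by
        rw [← hv {p | p + -v ∈ S}]
        simp }
  have g1 : ((1, 0) : ℤ × ℤ) ∈ G := fun S => sh _ _ fun N =>
    (av_sh1 _ _ _ _ (m0 N) (n0 N) S).trans
      (one_div_le_one_div_of_le (by positivity) (by exact_mod_cast hm N))
  have g2 : ((0, 1) : ℤ × ℤ) ∈ G := fun S => sh _ _ fun N =>
    (av_sh2 _ _ _ _ (m0 N) (n0 N) S).trans
      (one_div_le_one_div_of_le (by positivity) (by exact_mod_cast hn N))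
  have inv : ∀ v S, Λ {p | p + v ∈ S} = Λ S := fun v => by
    have := G.add_mem (G.zsmul_mem g1 v.1) (G.zsmul_mem g2 v.2)
    simp only [Prod.smul_mk, smul_eq_mul, mul_one, mul_zero, Prod.mk_add_mk, add_zero,
      zero_add] at this
    exact this
  have d : ε ≤ Λ A := ge_of_tendsto' (l2 A) hA
  refine ⟨fun v => Λ {p | p + v ∈ A ∧ p ∈ A}, fun v => l1 _, fun ι _ z c => ?_, fun v hv => ?_⟩
  · have := le_of_tendsto_of_tendsto'
      ((tendsto_finsetSum _ fun i _ => (l2 {p | p + z i ∈ A}).const_mul (c i)).pow 2)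
      (tendsto_finsetSum _ fun i _ => tendsto_finsetSum _ fun j _ =>
        (l2 ({p | p + z i ∈ A} ∩ {p | p + z j ∈ A})).const_mul (c i * c j))
      fun N => av_cs _ _ _ _ (m0 N) (n0 N) (fun i => {p | p + z i ∈ A}) c
    simp only [inv, ← sum_mul] at this
    refine le_trans ?_ (this.trans (le_of_eq (sum_congr rfl fun i _ => sum_congr rfl fun j _ => ?_)))
    · rw [mul_pow, mul_comm]
      gcongr
    · beta_reduce
      rw [← inv (z j) {p | p + (z i - z j) ∈ A ∧ p ∈ A}]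
      simp only [Set.mem_ofPred_eq, add_assoc, add_sub_cancel]
      rfl
  · have : {p | p + v ∈ A ∧ p ∈ A} = ∅ :=
      Set.eq_empty_of_forall_notMem fun p hp => hv ⟨p, hp.2, hp.1⟩
    simp only [this]
    exact tendsto_nhds_unique (l2 ∅) (by simp [av, ind])

lemma fl (r : ℚ) : ∀ᶠ N : ℕ in atTop, ((⌊(N.factorial : ℚ) * r⌋ : ℤ) : ℚ) = N.factorial * r := by
  filter_upwards [eventually_ge_atTop r.den] with N hN
  obtain ⟨k, hk⟩ := Nat.dvd_factorial r.pos hN
  have : (N.factorial : ℚ) * r = ((k * r.num : ℤ) : ℚ) := by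
    rw [hk]
    push_cast
    rw [← Rat.mul_den_eq_num]
    ring
  rw [this, Int.floor_intCast]

/-- For every A in ℕ×ℕ of positive upper Banach density, the set of products x·y over (x,y) in A−A contains a nonzero subgroup of the integers. -/
theorem result :
    ∀ A : Set (ℕ × ℕ),
      (∃ ε : ℝ, 0 < ε ∧ ∀ N : ℕ, ∃ a b m n : ℕ, N ≤ m ∧ N ≤ n ∧
        ε * ((m : ℝ) * (n : ℝ)) ≤
          (({p : ℕ × ℕ | p ∈ A ∧ a ≤ p.1 ∧ p.1 < a + m ∧ b ≤ p.2 ∧ p.2 < b + n}.ncard : ℕ) : ℝ)) →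
      ∃ H : AddSubgroup ℤ, H ≠ ⊥ ∧
        ∀ z ∈ H, ∃ p ∈ A, ∃ q ∈ A,
          (((p.1 : ℤ) - (q.1 : ℤ)) * ((p.2 : ℤ) - (q.2 : ℤ))) = z := by
  classical
  rintro A ⟨ε, hε, hA⟩
  by_contra hc
  push Not at hc
  obtain ⟨F, F1, F2, F3⟩ := exF ((fun p : ℕ × ℕ => ((p.1 : ℤ), (p.2 : ℤ))) '' A) ε hε fun N => by
    obtain ⟨a, b, m, n, hm, hn, h⟩ := hA (N + 1)
    refine ⟨a, b, m, n, by omega, by omega, ?_⟩
    have m0 : 0 < m := by omega
    have n0 : 0 < n := by omega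
    rw [av, le_div_iff₀ (by positivity)]
    refine h.trans ?_
    have e : {p : ℕ × ℕ | p ∈ A ∧ a ≤ p.1 ∧ p.1 < a + m ∧ b ≤ p.2 ∧ p.2 < b + n} =
        ((((range m ×ˢ range n).filter fun x => (a + x.1, b + x.2) ∈ A).image
          fun x => (a + x.1, b + x.2) : Finset (ℕ × ℕ)) : Set (ℕ × ℕ)) := by
      ext ⟨x, y⟩
      simp only [Set.mem_ofPred_eq, coe_image, coe_filter, Set.mem_image, mem_product, mem_range,
        Prod.mk.injEq]
      constructor
      · rintro ⟨h1, h2, h3, h4, h5⟩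
        refine ⟨(x - a, y - b), ⟨⟨by omega, by omega⟩, ?_⟩, by omega, by omega⟩
        rwa [Nat.add_sub_cancel' h2, Nat.add_sub_cancel' h4]
      · rintro ⟨w, ⟨⟨h1, h2⟩, h3⟩, rfl, rfl⟩
        exact ⟨h3, by omega, by omega, by omega, by omega⟩
    rw [e, Set.ncard_coe_finset]
    refine (Nat.cast_le.2 card_image_le).trans ?_
    rw [card_filter]
    push_cast
    refine sum_le_sum fun x _ => ?_
    split_ifs with hx
    · exact le_of_eq (if_pos ⟨_, hx, by simp⟩).symm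
    · exact (ind_bd _ _).1
  choose z hz1 hz2 using fun N : ℕ => hc (AddSubgroup.zmultiples ((N.factorial : ℤ) ^ 2))
    (by simpa using N.factorial_ne_zero)
  choose k hk using fun N => AddSubgroup.mem_zmultiples_iff.1 (hz1 N)
  obtain ⟨Ψ, hΨ, -⟩ := limK (ε := ε)
    (fun N w => F (k N * ⌊(N.factorial : ℚ) * w.1⌋, ⌊(N.factorial : ℚ) * w.2⌋))
    (fun N w => F1 _)
    (fun ι _ w c => by
      have sub : ∀ r s : ℚ, ∀ᶠ N : ℕ in atTop, ⌊(N.factorial : ℚ) * (r - s)⌋ =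
          ⌊(N.factorial : ℚ) * r⌋ - ⌊(N.factorial : ℚ) * s⌋ := fun r s => by
        filter_upwards [fl r, fl s, fl (r - s)] with N a1 a2 a3
        have : ((⌊(N.factorial : ℚ) * (r - s)⌋ : ℤ) : ℚ) =
            ((⌊(N.factorial : ℚ) * r⌋ - ⌊(N.factorial : ℚ) * s⌋ : ℤ) : ℚ) := by
          push_cast
          rw [a1, a2, a3, mul_sub]
        exact_mod_cast this
      filter_upwards [eventually_all.2 fun i => eventually_all.2 fun j => sub (w i).1 (w j).1,
        eventually_all.2 fun i => eventually_all.2 fun j => sub (w i).2 (w j).2] with N a1 a2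
      have := F2 ι (fun i => (k N * ⌊(N.factorial : ℚ) * (w i).1⌋, ⌊(N.factorial : ℚ) * (w i).2⌋)) c
      simp only [Ineq, Prod.fst_sub, Prod.snd_sub, a1, a2, mul_sub (k N)]
      exact this)
    (fun w hw => by
      filter_upwards [fl w.1, fl w.2] with N a1 a2
      refine F3 _ ?_
      rintro ⟨_, ⟨q, hq, rfl⟩, p, hp, e⟩
      refine hz2 N p hp q hq ?_
      obtain ⟨e1, e2⟩ := Prod.mk.inj e
      rw [e1, e2, ← hk N, add_sub_cancel_left, add_sub_cancel_left, smul_eq_mul, mul_assoc]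
      congr 1
      have : ((⌊(N.factorial : ℚ) * w.1⌋ * ⌊(N.factorial : ℚ) * w.2⌋ : ℤ) : ℚ) =
          (((N.factorial : ℤ) ^ 2 : ℤ) : ℚ) := by
        push_cast
        rw [a1, a2]
        linear_combination (N.factorial : ℚ) ^ 2 * hw
      exact_mod_cast this)
  exact noK hε hΨ

end Pool.Agent.S16995
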