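import Pool.Statements.S17050
import Pool.Agent.Lib.helper29.Quintic

set_option autoImplicit false
open Pool Pool.MP_59b56e_nt

namespace Pool.Agent.S17050

open Pool.Agent.Lib.H29.Quintic

/-- The negation of the preceding statement: Every real polynomial of degree n ≥ 1 having n distinct rational roots admits a nonzero real t such that p(x) − t also has n distinct rational roots. -/
theorem result :
    ¬ (∀ p : Polynomial ℝ, 0 < p.natDegree →
      (∃ s : Finset ℚ, s.card = p.natDegree ∧ ∀ q ∈ s, p.eval (q : ℝ) = 0) →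
      ∃ t : ℝ, t ≠ 0 ∧
        ∃ s : Finset ℚ, s.card = p.natDegree ∧
          ∀ q ∈ s, (p - Polynomial.C t).eval (q : ℝ) = 0) := by
  intro H
  have hdeg : (Polynomial.X ^ 5 - Polynomial.C 13 * Polynomial.X ^ 3 +
      Polynomial.C 36 * Polynomial.X : Polynomial ℝ).natDegree = 5 := by
    compute_degree!
  obtain ⟨t, ht, s, hs, hroot⟩ := H (Polynomial.X ^ 5 - Polynomial.C 13 * Polynomial.X ^ 3 +
      Polynomial.C 36 * Polynomial.X) (by rw [hdeg]; norm_num)
    ⟨{0, 2, -2, 3, -3}, by rw [hdeg]; decide +kernel, by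
      intro q hq
      simp only [Finset.mem_insert, Finset.mem_singleton] at hq
      rcases hq with rfl | rfl | rfl | rfl | rfl <;> simp <;> norm_num⟩
  rw [hdeg] at hs
  let e := (Finset.equivFinOfCardEq hs).symm
  have hr : ∀ i, ((e i : ℚ) : ℝ) ^ 5 - 13 * ((e i : ℚ) : ℝ) ^ 3 + 36 * ((e i : ℚ) : ℝ) = t := by
    intro i
    have := hroot (e i) (e i).2
    simp only [Polynomial.eval_sub, Polynomial.eval_add, Polynomial.eval_mul, Polynomial.eval_pow,
      Polynomial.eval_X, Polynomial.eval_C] at this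
    linarith
  have h0 := rigid (fun i => (e i : ℚ)) (Subtype.val_injective.comp e.injective)
    ((e 0 : ℚ) ^ 5 - 13 * (e 0 : ℚ) ^ 3 + 36 * (e 0 : ℚ)) (fun i => by
      have := (hr i).trans (hr 0).symm
      exact_mod_cast this)
  apply ht
  rw [← hr 0]
  exact_mod_cast h0

end Pool.Agent.S17050
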