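import Pool.Statements.S17321
-- import your own Pool.Agent.* helpers here

set_option autoImplicit false
open Pool Pool.MP_6c5308_nt

namespace Pool.Agent.S17321

theorem not_repr (t k p : ℕ) (ht : 3 ≤ t) (hp : p.Prime) : 2 ^ (2 ^ t - 1) - 1 ≠ 2 ^ k + p := by
  intro h
  obtain ⟨s, rfl⟩ : ∃ s, t = s + 1 := ⟨t - 1, by omega⟩
  have hs : 4 ≤ 2 ^ s := by
    calc 4 = 2 ^ 2 := by norm_num
      _ ≤ 2 ^ s := Nat.pow_le_pow_right (by norm_num) (by omega)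
  have hK : 2 ^ (s + 1) = 2 * 2 ^ s := by ring
  set K := 2 ^ (s + 1) - 1 with hKdef
  have hpos : 1 ≤ 2 ^ K := Nat.one_le_two_pow
  have hk : k < K := by
    by_contra hk
    have : 2 ^ K ≤ 2 ^ k := Nat.pow_le_pow_right (by norm_num) (by omega)
    omega
  obtain ⟨i, hi⟩ : ∃ i, K = k + i := ⟨K - k, by omega⟩
  have hi0 : i ≠ 0 := by omega
  obtain ⟨r, m, hm, him⟩ := Nat.exists_eq_two_pow_mul_odd hi0
  have hm1 : 1 ≤ m := hm.pos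
  have hr : r ≤ s := by
    by_contra hr
    have h1 : 2 ^ (s + 1) ≤ 2 ^ r := Nat.pow_le_pow_right (by norm_num) (by omega)
    have h2 : 2 ^ r ≤ 2 ^ r * m := Nat.le_mul_of_pos_right _ hm1
    omega
  have d1 : ((2 : ℤ) ^ (2 ^ r) + 1) ∣ (2 : ℤ) ^ i + 1 := by
    have := Odd.add_dvd_pow_add_pow ((2 : ℤ) ^ (2 ^ r)) 1 hm
    rwa [one_pow, ← pow_mul, ← him] at this
  have d2 : ((2 : ℤ) ^ (2 ^ r) + 1) ∣ (2 : ℤ) ^ (2 ^ (s + 1)) - 1 := by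
    obtain ⟨u, rfl⟩ : ∃ u, s = r + u := ⟨s - r, by omega⟩
    have e1 : ((2 : ℤ) ^ (2 ^ r) + 1) ∣ ((2 : ℤ) ^ (2 ^ r)) ^ 2 - 1 :=
      ⟨(2 : ℤ) ^ (2 ^ r) - 1, by ring⟩
    have e2 := sub_dvd_pow_sub_pow (((2 : ℤ) ^ (2 ^ r)) ^ 2) 1 (2 ^ u)
    rw [one_pow, ← pow_mul, ← pow_mul] at e2
    have e3 : 2 ^ r * 2 * 2 ^ u = 2 ^ (r + u + 1) := by ring
    rw [e3] at e2
    rw [← pow_mul] at e1
    exact e1.trans e2
  have hz : (p : ℤ) = ((2 : ℤ) ^ (2 ^ (s + 1)) - 1) - 2 ^ k * (2 ^ i + 1) := by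
    have h1 : (2 : ℤ) ^ K = 2 ^ k + p + 1 := by
      have : 2 ^ K = 2 ^ k + p + 1 := by omega
      exact_mod_cast this
    have h2 : (2 : ℤ) ^ (2 ^ (s + 1)) = 2 * 2 ^ K := by
      have : 2 ^ (s + 1) = K + 1 := by omega
      rw [this]; ring
    have h3 : (2 : ℤ) ^ K = 2 ^ k * 2 ^ i := by rw [hi]; ring
    rw [h2]; linarith
  have d3 : ((2 : ℤ) ^ (2 ^ r) + 1) ∣ (p : ℤ) := by
    rw [hz]; exact dvd_sub d2 (Dvd.dvd.mul_left d1 _)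
  have d4 : (2 ^ (2 ^ r) + 1) ∣ p := by exact_mod_cast d3
  have hF1 : 1 ≤ 2 ^ (2 ^ r) := Nat.one_le_two_pow
  rcases (Nat.dvd_prime hp).1 d4 with h1 | h1
  · omega
  · have a1 : 2 ^ (2 ^ r) ≤ 2 ^ (2 ^ s) :=
      Nat.pow_le_pow_right (by norm_num) (Nat.pow_le_pow_right (by norm_num) hr)
    have a2 : 2 ^ k * 2 ≤ 2 ^ K := by
      rw [← pow_succ]; exact Nat.pow_le_pow_right (by norm_num) (by omega)
    have a3 : 2 ^ (2 ^ s) * 8 ≤ 2 ^ K := by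
      have : 2 ^ (2 ^ s) * 8 = 2 ^ (2 ^ s + 3) := by ring
      rw [this]; exact Nat.pow_le_pow_right (by norm_num) (by omega)
    have a4 : 1 ≤ 2 ^ (2 ^ s) := Nat.one_le_two_pow
    omega

/-- There are infinitely many odd natural numbers n that are never 2^k plus a prime, and for which no finite set of primes has the property that every 2^k is congruent to n modulo one of them. -/
theorem result :
    Set.Infinite {n : ℕ | Odd n ∧ (∀ k p : ℕ, p.Prime → n ≠ 2 ^ k + p) ∧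
      ¬ ∃ P : Finset ℕ, (∀ p ∈ P, p.Prime) ∧
        ∀ k : ℕ, ∃ p ∈ P, (p : ℤ) ∣ (n : ℤ) - 2 ^ k} := by
  refine Set.infinite_of_forall_exists_gt fun N => ⟨2 ^ (2 ^ (N + 3) - 1) - 1, ⟨?_, ?_, ?_⟩, ?_⟩
  · have h1 : 1 ≤ 2 ^ (N + 3) - 1 := by
      have : 2 ^ (N + 3) = 8 * 2 ^ N := by ring
      have : 1 ≤ 2 ^ N := Nat.one_le_two_pow
      omega
    obtain ⟨j, hj⟩ : ∃ j, 2 ^ (N + 3) - 1 = j + 1 := ⟨2 ^ (N + 3) - 1 - 1, by omega⟩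
    rw [hj]
    have : 1 ≤ 2 ^ j := Nat.one_le_two_pow
    exact ⟨2 ^ j - 1, by rw [pow_succ]; omega⟩
  · intro k p hp
    exact not_repr _ k p (by omega) hp
  · rintro ⟨P, hP, hc⟩
    obtain ⟨p, hp, hd⟩ := hc (2 ^ (N + 3) - 1)
    have h1 : 1 ≤ 2 ^ (2 ^ (N + 3) - 1) := Nat.one_le_two_pow
    rw [Nat.cast_sub h1] at hd
    push_cast at hd
    have h2 : (p : ℤ) ∣ 1 := by
      have : (2 : ℤ) ^ (2 ^ (N + 3) - 1) - 1 - 2 ^ (2 ^ (N + 3) - 1) = -1 := by ring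
      rw [this] at hd
      exact (dvd_neg).1 hd
    have h3 : p ∣ 1 := by exact_mod_cast h2
    exact (hP p hp).one_lt.ne' (Nat.dvd_one.1 h3)
  · have h1 : N + 3 < 2 ^ (N + 3) := Nat.lt_two_pow_self
    have h2 : 2 ^ (N + 3) - 1 < 2 ^ (2 ^ (N + 3) - 1) := Nat.lt_two_pow_self
    omega

end Pool.Agent.S17321
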