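import Pool.Statements.S17434

set_option autoImplicit false
open Pool Pool.MP_74da6d_nt

namespace Pool.Agent.S17434

open Finset

/-- a primitive cube root of unity -/
lemma exists_omega : ∃ w : ℂ, IsPrimitiveRoot w 3 ∧ w ^ 2 = -1 - w ∧ w.im ≠ 0 ∧
    (starRingEnd ℂ) w = -1 - w := by
  have h := Complex.isPrimitiveRoot_exp 3 (by norm_num)
  set w := Complex.exp (2 * Real.pi * Complex.I / (3 : ℕ)) with hw
  have h3 : w ^ 3 = 1 := h.pow_eq_one
  have h1 : w ≠ 1 := h.ne_one (by norm_num)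
  have h2 : w ^ 2 = -1 - w := by
    have : (w - 1) * (w ^ 2 + w + 1) = 0 := by linear_combination h3
    rcases mul_eq_zero.1 this with h | h
    · exact absurd (sub_eq_zero.1 h) h1
    · linear_combination h
  have hre := congrArg Complex.re h2
  have him := congrArg Complex.im h2
  simp only [sq, Complex.mul_re, Complex.mul_im, Complex.sub_re, Complex.sub_im, Complex.neg_re,
    Complex.neg_im, Complex.one_re, Complex.one_im] at hre him
  have h4 : w.im ≠ 0 := by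
    intro h0
    rw [h0] at hre
    nlinarith [sq_nonneg (w.re + 1 / 2)]
  have h5 : w.re = -1 / 2 := by
    have : w.im * (2 * w.re + 1) = 0 := by linarith
    rcases mul_eq_zero.1 this with h | h
    · exact absurd h h4
    · linarith
  refine ⟨w, h, h2, h4, ?_⟩
  apply Complex.ext
  · simp [h5]; norm_num
  · simp

lemma coords {w : ℂ} (h2 : w ^ 2 = -1 - w) {z : ℂ} (hz : z ∈ Algebra.adjoin ℤ {w}) :
    ∃ a b : ℤ, z = a + b * w := by
  induction hz using Algebra.adjoin_induction with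
  | mem x hx => exact ⟨0, 1, by rw [Set.mem_singleton_iff.1 hx]; simp⟩
  | algebraMap r => exact ⟨r, 0, by simp⟩
  | add x y _ _ hx hy =>
    obtain ⟨a, b, rfl⟩ := hx
    obtain ⟨c, d, rfl⟩ := hy
    exact ⟨a + c, b + d, by push_cast; ring⟩
  | mul x y _ _ hx hy =>
    obtain ⟨a, b, rfl⟩ := hx
    obtain ⟨c, d, rfl⟩ := hy
    exact ⟨a * c - b * d, a * d + b * c - b * d, by push_cast; linear_combination (b * d : ℂ) * h2⟩

lemma coords_unique {w : ℂ} (h : w.im ≠ 0) {a b c d : ℤ} (e : (a : ℂ) + b * w = c + d * w) :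
    b = d := by
  have := congrArg Complex.im e
  simp only [Complex.add_im, Complex.intCast_im, Complex.mul_im, Complex.intCast_re, zero_mul,
    add_zero, zero_add] at this
  exact_mod_cast mul_right_cancel₀ h this

lemma rep27 (p : ℕ) [hp : Fact p.Prime] (h3 : 3 ∣ p - 1) (hp2 : p ≠ 2) (j : ℕ)
    (h2 : (2 : ZMod p) ^ (2 ^ j) = 1) : ∃ u c : ℤ, (p : ℤ) = u ^ 2 + 27 * c ^ 2 := by
  classical
  obtain ⟨w, hw, hw2, hwi, hwc⟩ := exists_omega
  have hcard : Fintype.card (ZMod p) = p := ZMod.card p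
  obtain ⟨χ, hχ⟩ := MulChar.exists_mulChar_orderOf (ZMod p) (n := 3) (by rw [hcard]; exact h3) hw
  have hχ3 : χ ^ 3 = 1 := by rw [← hχ]; exact pow_orderOf_eq_one χ
  have hχ1 : χ ≠ 1 := by
    intro h; rw [h, orderOf_one] at hχ; omega
  have hχ2 : χ * χ ≠ 1 := by
    intro h
    have : orderOf χ ∣ 2 := orderOf_dvd_of_pow_eq_one (by rw [sq]; exact h)
    rw [hχ] at this; omega
  have two_ne : (2 : ZMod p) ≠ 0 := by
    intro h
    have : ((2 : ℕ) : ZMod p) = 0 := by exact_mod_cast h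
    rw [ZMod.natCast_eq_zero_iff] at this
    exact hp2 ((Nat.prime_dvd_prime_iff_eq hp.out Nat.prime_two).1 this)
  have hc2 : χ 2 = 1 := by
    have a1 : χ 2 ^ 3 = 1 := by
      rw [← MulChar.pow_apply' χ (by norm_num), hχ3, MulChar.one_apply (Ne.isUnit two_ne)]
    have a2 : χ 2 ^ (2 ^ j) = 1 := by rw [← map_pow, h2, map_one]
    have a3 := pow_gcd_eq_one.2 ⟨a1, a2⟩
    have : Nat.gcd 3 (2 ^ j) = 1 := Nat.Coprime.pow_right j (by norm_num)
    rwa [this, pow_one] at a3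
  have hch : χ 2⁻¹ = 1 := by
    have : χ 2 * χ 2⁻¹ = 1 := by rw [← map_mul, mul_inv_cancel₀ two_ne, map_one]
    rwa [hc2, one_mul] at this
  have hnorm := jacobiSum_mul_jacobiSum_inv (F := ZMod p) (F' := ℂ)
    (by rw [ringChar.eq_zero, ZMod.ringChar_zmod_n]; exact hp.out.ne_zero.symm) hχ1 hχ1 hχ2
  have hconj : jacobiSum χ⁻¹ χ⁻¹ = (starRingEnd ℂ) (jacobiSum χ χ) := by
    rw [← jacobiSum_ringHomComp, ← MulChar.star_eq_inv]; rfl
  obtain ⟨z, hz, hJ⟩ := exists_jacobiSum_eq_neg_one_add (n := 3) (by norm_num) hχ3 hχ3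
    (by rw [hcard]; exact h3) hw
  obtain ⟨z0, z1, rfl⟩ := coords hw2 hz
  have hmem : ∀ x : ZMod p, χ x * χ (1 - x) ∈ Algebra.adjoin ℤ {w} := fun x =>
    Subalgebra.mul_mem _ (MulChar.apply_mem_algebraAdjoin_of_pow_eq_one hχ3 hw _)
      (MulChar.apply_mem_algebraAdjoin_of_pow_eq_one hχ3 hw _)
  choose A B hAB using fun x => coords hw2 (hmem x)
  have hsum : jacobiSum χ χ = ((∑ x, A x : ℤ) : ℂ) + ((∑ x, B x : ℤ) : ℂ) * w := by
    unfold jacobiSum
    simp only [hAB]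
    push_cast
    rw [sum_add_distrib, sum_mul]
  have hBsym : ∀ x, B (1 - x) = B x := by
    intro x
    have e := hAB (1 - x)
    rw [sub_sub_cancel, mul_comm, hAB x] at e
    exact (coords_unique hwi e).symm
  have hB2 : ((∑ x, B x : ℤ) : ZMod 2) = 0 := by
    push_cast
    refine sum_involution (fun x _ => 1 - x) ?_ ?_ (fun _ _ => mem_univ _) ?_
    · intro x _
      rw [hBsym, ← two_mul]
      exact mul_eq_zero_of_left rfl _
    · intro x _ hx he
      apply hx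
      have hx2 : x = 2⁻¹ := by
        have : 2 * x = 1 := by linear_combination -he
        exact eq_inv_of_mul_eq_one_right this
      have e := hAB x
      rw [he, hx2, hch] at e
      have : (0 : ℤ) = B 2⁻¹ := coords_unique hwi (a := 1) (c := A 2⁻¹) (by rw [← e]; simp)
      rw [hx2, ← this]; simp
    · intro x _; simp
  have hB3 : (∑ x, B x : ℤ) = 3 * (z1 - z0) := by
    refine coords_unique hwi (a := ∑ x, A x) (c := -1 + 3 * z1) ?_
    rw [← hsum, hJ]
    push_cast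
    linear_combination ((z0 : ℂ) + z1 * w - 3 * z1) * hw2
  rw [ZMod.intCast_zmod_eq_zero_iff_dvd] at hB2
  have h6 : (6 : ℤ) ∣ ∑ x, B x := by
    have : (3 : ℤ) ∣ ∑ x, B x := ⟨_, hB3⟩
    push_cast at hB2
    omega
  obtain ⟨c, hc⟩ := h6
  refine ⟨(∑ x, A x) - 3 * c, c, ?_⟩
  rw [hconj, hsum, hc, hcard] at hnorm
  simp only [map_add, map_mul, map_intCast, hwc] at hnorm
  have : ((p : ℤ) : ℂ) = ((((∑ x, A x) - 3 * c) ^ 2 + 27 * c ^ 2 : ℤ) : ℂ) := by
    generalize (∑ x, A x : ℤ) = a at *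
    push_cast at hnorm ⊢
    rw [← hnorm]
    linear_combination (-36 * (c : ℂ) ^ 2) * hw2
  exact_mod_cast this

lemma no_two_reps (p : ℕ) (hp : p.Prime) (b u c : ℤ) (hb : ¬ (3 : ℤ) ∣ b)
    (h1 : (p : ℤ) = 1 + 3 * b ^ 2) (h2 : (p : ℤ) = u ^ 2 + 27 * c ^ 2) : False := by
  have hp' : Prime (p : ℤ) := Nat.prime_iff_prime_int.1 hp
  have hpos : (0 : ℤ) < p := by exact_mod_cast hp.pos
  have key : ∀ c : ℤ, (p : ℤ) = u ^ 2 + 27 * c ^ 2 → (p : ℤ) ∣ b * u - 3 * c → False := by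
    intro c h2 hd
    obtain ⟨t, ht⟩ := hd
    have e : (p : ℤ) ^ 2 = (u + 9 * b * c) ^ 2 + 3 * (b * u - 3 * c) ^ 2 := by
      rw [sq]; nth_rewrite 1 [h1]; rw [h2]; ring
    rw [ht] at e
    have t0 : t = 0 := by
      by_contra h
      have : 1 ≤ t ^ 2 := by
        have := sq_pos_of_ne_zero h
        omega
      have hp2 : (0 : ℤ) < (p : ℤ) ^ 2 := by positivity
      nlinarith [sq_nonneg (u + 9 * b * c)]
    rw [t0, mul_zero] at ht
    have h3 : (3 : ℤ) ∣ b * u := ⟨c, by linarith⟩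
    rcases Int.prime_three.dvd_or_dvd h3 with h | ⟨v, hv⟩
    · exact hb h
    · rw [hv] at h2
      have : 1 + 3 * b ^ 2 = 3 * (3 * v ^ 2 + 9 * c ^ 2) := by rw [← h1, h2]; ring
      omega
  have hd : (p : ℤ) ∣ (b * u - 3 * c) * (b * u + 3 * c) :=
    ⟨b ^ 2 - 9 * c ^ 2, by
      have e1 : (p : ℤ) * b ^ 2 = (u ^ 2 + 27 * c ^ 2) * b ^ 2 := by rw [← h2]
      have e2 : (p : ℤ) * c ^ 2 = (1 + 3 * b ^ 2) * c ^ 2 := by rw [← h1]
      linear_combination -e1 + 9 * e2⟩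
  rcases hp'.dvd_or_dvd hd with h | h
  · exact key c h2 h
  · exact key (-c) (by rw [h2]; ring) (by simpa using h)

/-- the square root of a third of the multiplier -/
def aa : ℕ := 12652088719431232685847435667

/-- the multiplier -/
def kk : ℕ := 3 * aa ^ 2

/-- the covering primes -/
def qs : List ℕ := [5, 7, 241, 97, 673, 11, 31, 151, 1321, 61681, 4562284561]

lemma cover1 : ∀ r < 240, r % 2 = 1 → ∃ q ∈ qs, (kk * 2 ^ r + 1) % q = 0 := by decide +kernel

lemma cover2 : ∀ q ∈ qs, 2 ^ 240 % q = 1 ∧ 1 < q ∧ q < kk := by decide +kernel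

lemma odd_not_prime (n : ℕ) (hn : n % 2 = 1) : ¬ Nat.Prime (kk * 2 ^ n + 1) := by
  intro hp
  obtain ⟨q, hq, h⟩ := cover1 (n % 240) (Nat.mod_lt _ (by norm_num)) (by omega)
  obtain ⟨h1, h2, h3⟩ := cover2 q hq
  have e1 : 2 ^ 240 ≡ 1 [MOD q] := by
    unfold Nat.ModEq; rw [h1, Nat.mod_eq_of_lt h2]
  have e2 : 2 ^ n ≡ 2 ^ (n % 240) [MOD q] := by
    conv_lhs => rw [← Nat.div_add_mod n 240, pow_add, pow_mul]
    have := (e1.pow (n / 240)).mul_right (2 ^ (n % 240))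
    simpa using this
  have e3 : kk * 2 ^ n + 1 ≡ 0 [MOD q] := by
    refine ((e2.mul_left kk).add_right 1).trans ?_
    unfold Nat.ModEq; rw [h, Nat.zero_mod]
  have hd : q ∣ kk * 2 ^ n + 1 := (Nat.modEq_zero_iff_dvd).1 e3
  rcases (Nat.dvd_prime hp).1 hd with h4 | h4
  · omega
  · have : kk ≤ kk * 2 ^ n := Nat.le_mul_of_pos_right _ (by positivity)
    omega

lemma even_not_dvd (n m : ℕ) (hn : n % 2 = 0) (hp : Nat.Prime (kk * 2 ^ n + 1)) :
    ¬ (kk * 2 ^ n + 1) ∣ Nat.fermatNumber m := by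
  intro hd
  obtain ⟨t, rfl⟩ : ∃ t, n = 2 * t := ⟨n / 2, by omega⟩
  set p := kk * 2 ^ (2 * t) + 1 with hpdef
  have : Fact p.Prime := ⟨hp⟩
  have h1 : (2 : ZMod p) ^ (2 ^ m) = -1 := by
    have := (ZMod.natCast_eq_zero_iff _ _).2 hd
    unfold Nat.fermatNumber at this
    push_cast at this
    linear_combination this
  have h2 : (2 : ZMod p) ^ (2 ^ (m + 1)) = 1 := by
    rw [pow_succ, pow_mul, h1]; ring
  have hk : 3 ≤ kk := by decide +kernel
  have hle : kk ≤ kk * 2 ^ (2 * t) := Nat.le_mul_of_pos_right _ (by positivity)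
  obtain ⟨u, c, huc⟩ := rep27 p (by
    rw [hpdef, Nat.add_sub_cancel]; exact Dvd.dvd.mul_right ⟨_, rfl⟩ _) (by omega) (m + 1) h2
  refine no_two_reps p hp ((aa : ℤ) * 2 ^ t) u c ?_ ?_ huc
  · intro h
    rcases Int.prime_three.dvd_or_dvd h with h | h
    · revert h; decide +kernel
    · have := Int.prime_three.dvd_of_dvd_pow h
      omega
  · rw [hpdef, kk]; push_cast; ring

/-- modular exponentiation with fuel -/
def pw (p x : ℕ) : ℕ → ℕ → ℕ
  | 0, _ => 1
  | f + 1, e => if e % 2 = 0 then pw p x f (e / 2) ^ 2 % p else pw p x f (e / 2) ^ 2 * x % p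

lemma pw_spec (p x : ℕ) (f : ℕ) : ∀ e < 2 ^ f, pw p x f e ≡ x ^ e [MOD p] := by
  induction f with
  | zero => intro e he; obtain rfl : e = 0 := by omega
            exact Nat.ModEq.refl _
  | succ f ih =>
    intro e he
    have := ih (e / 2) (by omega)
    unfold pw
    split_ifs with h
    · refine (Nat.mod_modEq _ _).trans ((this.pow 2).trans ?_)
      rw [← pow_mul, show e / 2 * 2 = e by omega]
    · refine (Nat.mod_modEq _ _).trans (((this.pow 2).mul_right x).trans ?_)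
      rw [← pow_mul, ← pow_succ, show e / 2 * 2 + 1 = e by omega]

lemma proth (k n x : ℕ) (hk : k < 2 ^ (n + 1)) (hk0 : 0 < k)
    (h : x ^ (k * 2 ^ n) + 1 ≡ 0 [MOD (k * 2 ^ (n + 1) + 1)]) : Nat.Prime (k * 2 ^ (n + 1) + 1) := by
  set p := k * 2 ^ (n + 1) + 1 with hpdef
  have hpos : 0 < k * 2 ^ (n + 1) := by positivity
  by_contra hnp
  have hr : (Nat.minFac p).Prime := Nat.minFac_prime (by omega)
  have hsq := Nat.minFac_sq_le_self (by omega : 0 < p) hnp
  have hrd := Nat.minFac_dvd p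
  set r := Nat.minFac p
  have : Fact r.Prime := ⟨hr⟩
  have hr2 : r ≠ 2 := by
    intro h2
    rw [h2, hpdef, pow_succ, ← mul_assoc] at hrd
    omega
  have h1 : ((x : ZMod r) ^ k) ^ (2 ^ n) = -1 := by
    have := (ZMod.natCast_eq_zero_iff _ _).2 (hrd.trans ((Nat.modEq_zero_iff_dvd).1 h))
    push_cast at this
    rw [← pow_mul]
    linear_combination this
  have : Fact (2 < r) := ⟨lt_of_le_of_ne hr.two_le (Ne.symm hr2)⟩
  have ho : orderOf ((x : ZMod r) ^ k) = 2 ^ (n + 1) := by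
    refine orderOf_eq_prime_pow ?_ ?_
    · rw [h1]; exact ZMod.neg_one_ne_one
    · rw [pow_succ, pow_mul, h1]; ring
  have hne : ((x : ZMod r) ^ k) ≠ 0 := by
    intro h0
    rw [h0, zero_pow (by positivity)] at h1
    exact zero_ne_one (by linear_combination -h1 : (0 : ZMod r) = 1)
  have hdv := ZMod.orderOf_dvd_card_sub_one hne
  rw [ho] at hdv
  have hle := Nat.le_of_dvd (by have := hr.two_le; omega) hdv
  have h3 : 2 ^ (n + 1) + 1 ≤ r := by have := hr.two_le; omega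
  have h4 : (2 ^ (n + 1) + 1) ^ 2 ≤ r ^ 2 := Nat.pow_le_pow_left h3 2
  have h5 : k * 2 ^ (n + 1) ≤ 2 ^ (n + 1) * 2 ^ (n + 1) := Nat.mul_le_mul_right _ hk.le
  have h6 : 0 < 2 ^ (n + 1) := by positivity
  nlinarith

lemma cert : (pw (kk * 2 ^ (795 + 1) + 1) 5 1000 (kk * 2 ^ 795) + 1) % (kk * 2 ^ (795 + 1) + 1) = 0
    ∧ kk * 2 ^ 795 < 2 ^ 1000 ∧ kk < 2 ^ (795 + 1) ∧ 3 ≤ kk ∧ kk % 2 = 1 := by decide +kernel

lemma prime_ex : Nat.Prime (kk * 2 ^ (795 + 1) + 1) := by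
  obtain ⟨h1, h2, h3, h4, -⟩ := cert
  refine proth kk 795 5 h3 (by omega) ?_
  refine ((pw_spec _ 5 1000 _ h2).add_right 1).symm.trans ?_
  unfold Nat.ModEq
  rw [h1, Nat.zero_mod]

/-- The negation of the preceding statement: For every odd k ≥ 3 such that k·2^n+1 is prime for some n, there are infinitely many m for which the Fermat number 2^(2^m)+1 is divisible by some prime of the form k·2^n+1. -/
theorem result :
    ¬ (∀ k : ℕ, Odd k → 3 ≤ k → (∃ n : ℕ, Nat.Prime (k * 2 ^ n + 1)) →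
      Set.Infinite {m : ℕ | ∃ n : ℕ, Nat.Prime (k * 2 ^ n + 1) ∧
        (k * 2 ^ n + 1) ∣ Nat.fermatNumber m}) := by
  intro H
  obtain ⟨-, -, -, h4, h5⟩ := cert
  obtain ⟨m, n, hp, hd⟩ := (H kk (Nat.odd_iff.2 h5) h4 ⟨_, prime_ex⟩).nonempty
  rcases Nat.mod_two_eq_zero_or_one n with h | h
  · exact even_not_dvd n m h hp hd
  · exact odd_not_prime n h hp

end Pool.Agent.S17434
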