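import Pool.Statements.S17546
import Pool.Agent.Lib.helper13.Aper

set_option autoImplicit false
open Pool Pool.MP_7c6dee_nt

namespace Pool.Agent.S17546

/-- The negation of the preceding statement: For every m ≥ 1 and every increasing seed of m positive integers, the Dickson sequence has an eventually periodic difference sequence. Each later term is the least integer above the previous one that is not a sum of two earlier terms, repeats allowed. -/
theorem result :
    ¬ (∀ m : ℕ, 1 ≤ m → ∀ u : ℕ → ℕ,
      (∀ i, i < m → 0 < u i) →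
      (∀ i, i + 1 < m → u i < u (i + 1)) →
      (∀ n, m ≤ n →
        IsLeast {x : ℕ | u (n - 1) < x ∧ ∀ i, i < n → ∀ j, j < n → x ≠ u i + u j} (u n)) →
      ∃ N p : ℕ, 1 ≤ p ∧ ∀ n, N ≤ n →
        ((u (n + p + 1) : ℤ) - (u (n + p) : ℤ)) = ((u (n + 1) : ℤ) - (u n : ℤ))) := by
  intro H
  obtain ⟨S, hS⟩ := H13Ap.dickson
  obtain ⟨a, h1, h2, h3, h4, h5⟩ := H13Ap.seq hS
  obtain ⟨N, p, hp, hN⟩ := H 40001 (by omega) a (fun i _ => h2.trans_le (h1.monotone i.zero_le))
    (fun i _ => h1 i.lt_succ_self) fun n hn =>
      ⟨⟨h1 (by omega), fun i _ j _ e => h3 i j n False.elim e.symm⟩, fun x hx => by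
        by_contra hc
        obtain ⟨i, j, hi, hj, -, e⟩ := h4 (n - 1) x (by omega) hx.1
          (by rw [show n - 1 + 1 = n by omega]; omega)
        exact hx.2 i (by omega) j (by omega) e.symm⟩
  exact h5 p N hp fun n hn => by have := hN n hn; omega

end Pool.Agent.S17546
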