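import Pool.Statements.S17576

set_option autoImplicit false
open Pool Pool.MP_7fe555_nt

namespace Pool.Agent.S17576

theorem gcd_le_sub {a b : ℕ} (h : a < b) : Nat.gcd a b ≤ b - a := by
  apply Nat.le_of_dvd (by omega)
  exact Nat.dvd_sub (Nat.gcd_dvd_right a b) (Nat.gcd_dvd_left a b)

theorem lcm3 {a b c : ℕ} (ha : 0 < a) (hab : a < b) (hbc : b < c) :
    a * b * c ≤ Nat.lcm (Nat.lcm a b) c * (c - a) ^ 3 := by
  have h1 : Nat.gcd a b * Nat.lcm a b = a * b := Nat.gcd_mul_lcm a b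
  have h2 : Nat.gcd (Nat.lcm a b) c * Nat.lcm (Nat.lcm a b) c = Nat.lcm a b * c :=
    Nat.gcd_mul_lcm _ _
  have h3 : Nat.gcd (Nat.lcm a b) c ∣ Nat.gcd c a * Nat.gcd c b := by
    refine dvd_trans ?_ (Nat.gcd_mul_right_dvd_mul_gcd c a b)
    apply Nat.dvd_gcd (Nat.gcd_dvd_right _ _)
    exact dvd_trans (Nat.gcd_dvd_left _ _) (Nat.lcm_dvd_mul a b)
  have hca : Nat.gcd c a ≤ c - a := by rw [Nat.gcd_comm]; exact gcd_le_sub (by omega)
  have hcb : Nat.gcd c b ≤ c - a := by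
    rw [Nat.gcd_comm]; exact (gcd_le_sub hbc).trans (by omega)
  have hab' : Nat.gcd a b ≤ c - a := (gcd_le_sub hab).trans (by omega)
  have h4 : Nat.gcd (Nat.lcm a b) c ≤ (c - a) * (c - a) := by
    refine (Nat.le_of_dvd ?_ h3).trans (Nat.mul_le_mul hca hcb)
    apply Nat.mul_pos <;> apply Nat.gcd_pos_of_pos_left <;> omega
  calc a * b * c = Nat.gcd a b * (Nat.lcm a b * c) := by rw [← h1]; ring
    _ = Nat.gcd a b * (Nat.gcd (Nat.lcm a b) c * Nat.lcm (Nat.lcm a b) c) := by rw [h2]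
    _ ≤ (c - a) * (((c - a) * (c - a)) * Nat.lcm (Nat.lcm a b) c) :=
        Nat.mul_le_mul hab' (Nat.mul_le_mul_right _ h4)
    _ = _ := by ring

theorem key {a b c j : ℕ} (ha : 0 < a) (hab : a < b) (hbc : b < c)
    (hL : Nat.lcm (Nat.lcm a b) c < 8 ^ j) :
    (1 / 2 : ℝ) ^ j ≤ 2 * (Real.log c - Real.log a) := by
  have ha' : (0 : ℝ) < a := by exact_mod_cast ha
  have hc' : (0 : ℝ) < c := by exact_mod_cast (by omega : 0 < c)
  have hlog : 1 - (a : ℝ) / c ≤ Real.log c - Real.log a := by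
    have := Real.log_le_sub_one_of_pos (div_pos ha' hc')
    rw [Real.log_div ha'.ne' hc'.ne'] at this
    linarith
  have hj : (1 / 2 : ℝ) ^ j ≤ 1 := pow_le_one₀ (by norm_num) (by norm_num)
  by_cases h2 : 2 * a ≤ c
  · have : (a : ℝ) / c ≤ 1 / 2 := by
      rw [div_le_div_iff₀ hc' (by norm_num)]
      have : (2 * a : ℝ) ≤ c := by exact_mod_cast h2
      linarith
    linarith
  · have h3 := lcm3 ha hab hbc
    have h4 : c ^ 3 ≤ (2 * 2 ^ j * (c - a)) ^ 3 := by
      have e1 : c * c ≤ 4 * (a * b) := by nlinarith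
      have e2 : (8 : ℕ) ^ j = (2 ^ j) ^ 3 := by rw [← pow_mul, mul_comm, pow_mul]; norm_num
      calc c ^ 3 = c * c * c := by ring
        _ ≤ 4 * (a * b) * c := Nat.mul_le_mul_right _ e1
        _ = 4 * (a * b * c) := by ring
        _ ≤ 4 * (Nat.lcm (Nat.lcm a b) c * (c - a) ^ 3) := Nat.mul_le_mul_left _ h3
        _ ≤ 8 * (8 ^ j * (c - a) ^ 3) :=
            Nat.mul_le_mul (by norm_num) (Nat.mul_le_mul_right _ hL.le)
        _ = _ := by rw [e2]; ring
    have h5 : c ≤ 2 * 2 ^ j * (c - a) := by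
      by_contra hh
      push Not at hh
      exact absurd h4 (not_le.mpr (Nat.pow_lt_pow_left hh (by norm_num)))
    have h6 : (c : ℝ) ≤ 2 * 2 ^ j * (c - a) := by
      have : ((c - a : ℕ) : ℝ) = c - a := Nat.cast_sub (by omega)
      rw [← this]; exact_mod_cast h5
    have h7 : (1 / 2 : ℝ) ^ j ≤ 2 * (1 - (a : ℝ) / c) := by
      have hp : (0 : ℝ) < 2 ^ j := by positivity
      rw [one_div, inv_pow, ← one_div, div_le_iff₀ hp]
      have : 2 * (1 - (a : ℝ) / c) * 2 ^ j = (2 * 2 ^ j * (c - a)) / c := by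
        field_simp
      rw [this, le_div_iff₀ hc']
      linarith
    linarith

theorem geo (t : ℝ) (p : ℕ → Prop) [DecidablePred p] (hp : ∀ j, p j → (1 / 2 : ℝ) ^ j ≤ t)
    (J : ℕ) :
    (∑ j ∈ Finset.range J, if p j then (1 / 2 : ℝ) ^ j else 0) = 0 ∨
    (∑ j ∈ Finset.range J, if p j then (1 / 2 : ℝ) ^ j else 0) + 2 * (1 / 2) ^ J ≤ 2 * t := by
  induction J with
  | zero => left; simp
  | succ J ih =>
    rw [Finset.sum_range_succ]
    have hpos : (0 : ℝ) < (1 / 2) ^ J := by positivity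
    rcases ih with h | h
    · by_cases hJ : p J
      · right
        rw [h, if_pos hJ, pow_succ]
        have := hp J hJ
        linarith
      · left
        rw [h, if_neg hJ]; simp
    · right
      rw [pow_succ]
      split_ifs <;> linarith

theorem geo' (t : ℝ) (ht : 0 ≤ t) (p : ℕ → Prop) [DecidablePred p]
    (hp : ∀ j, p j → (1 / 2 : ℝ) ^ j ≤ t) (J : ℕ) :
    (∑ j ∈ Finset.range J, if p j then (1 / 2 : ℝ) ^ j else 0) ≤ 2 * t := by
  have hpos : (0 : ℝ) < (1 / 2) ^ J := by positivity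
  rcases geo t p hp J with h | h <;> linarith

theorem tele (l : ℕ → ℝ) (N : ℕ) :
    ∑ i ∈ Finset.range N, (l (i + 3) - l (i + 1)) = l (N + 2) + l (N + 1) - l 1 - l 2 := by
  induction N with
  | zero => simp
  | succ N ih => rw [Finset.sum_range_succ, ih]; ring

theorem main_bound (a : ℕ → ℕ) (ha : StrictMono a) (hpos : ∀ n, 0 < a n) (J : ℕ) :
    ∑ j ∈ Finset.range J, (({i : ℕ | ((Nat.lcm (Nat.lcm (a (i + 1)) (a (i + 2))) (a (i + 3)) : ℕ) : ℝ)
      < (8 : ℝ) ^ j}.ncard : ℕ) : ℝ) * (1 / 2) ^ j ≤ 8 * (J * Real.log 8) := by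
  classical
  have hex : ∃ N, 8 ^ J ≤ a (N + 3) := ⟨8 ^ J, le_trans (Nat.le_add_right _ 3) (ha.id_le (8 ^ J + 3))⟩
  set N := Nat.find hex with hN
  have hlt : ∀ i, i < N → a (i + 3) < 8 ^ J := fun i hi => not_le.mp (Nat.find_min hex hi)
  have hge : ∀ i, a (i + 3) < 8 ^ J → i < N := by
    intro i hi
    by_contra h
    have h1 : 8 ^ J ≤ a (N + 3) := Nat.find_spec hex
    have h2 : a (N + 3) ≤ a (i + 3) := ha.monotone (by omega)
    omega
  set L : ℕ → ℕ := fun i => Nat.lcm (Nat.lcm (a (i + 1)) (a (i + 2))) (a (i + 3)) with hL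
  have hcard : ∀ j ∈ Finset.range J, (({i : ℕ | ((L i : ℕ) : ℝ) < (8 : ℝ) ^ j}.ncard : ℕ) : ℝ)
      * (1 / 2) ^ j = ∑ i ∈ Finset.range N, if L i < 8 ^ j then (1 / 2 : ℝ) ^ j else 0 := by
    intro j hj
    have hset : {i : ℕ | ((L i : ℕ) : ℝ) < (8 : ℝ) ^ j} =
        ((Finset.range N).filter (fun i => L i < 8 ^ j) : Finset ℕ) := by
      ext i
      simp only [Set.mem_ofPred_eq, Finset.coe_filter, Finset.mem_range]
      have hcast : ((L i : ℕ) : ℝ) < (8 : ℝ) ^ j ↔ L i < 8 ^ j := by exact_mod_cast Iff.rfl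
      rw [hcast]
      constructor
      · intro h
        refine ⟨hge i ?_, h⟩
        have h1 : a (i + 3) ≤ L i := by
          apply Nat.le_of_dvd
          · exact Nat.lcm_pos (Nat.lcm_pos (hpos _) (hpos _)) (hpos _)
          · exact Nat.dvd_lcm_right _ _
        have h2 : 8 ^ j ≤ 8 ^ J :=
          Nat.pow_le_pow_right (by norm_num) (Finset.mem_range.mp hj).le
        omega
      · exact fun h => h.2
    rw [hset, Set.ncard_coe_finset, ← Finset.sum_filter]
    simp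
  rw [Finset.sum_congr rfl hcard, Finset.sum_comm]
  have hw : ∀ i ∈ Finset.range N,
      (∑ j ∈ Finset.range J, if L i < 8 ^ j then (1 / 2 : ℝ) ^ j else 0) ≤
        4 * (Real.log (a (i + 3)) - Real.log (a (i + 1))) := by
    intro i _
    have h0 : 0 ≤ 2 * (Real.log (a (i + 3)) - Real.log (a (i + 1))) := by
      have : Real.log (a (i + 1)) ≤ Real.log (a (i + 3)) := by
        apply Real.log_le_log (by exact_mod_cast hpos _)
        exact_mod_cast ha.monotone (by omega)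
      linarith
    have := geo' _ h0 (fun j => L i < 8 ^ j)
      (fun j hj => key (hpos _) (ha (by omega)) (ha (by omega)) hj) J
    linarith
  refine (Finset.sum_le_sum hw).trans ?_
  rw [← Finset.mul_sum, tele (fun n => Real.log (a n)) N]
  have hJ : 0 ≤ (J : ℝ) * Real.log 8 := by
    have : 0 ≤ Real.log 8 := Real.log_nonneg (by norm_num)
    positivity
  rcases Nat.eq_zero_or_pos N with h0 | h0
  · rw [h0]; simp only [zero_add]; linarith
  · have h1 : a (N + 2) < 8 ^ J := by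
      have := hlt (N - 1) (by omega)
      rwa [show N - 1 + 3 = N + 2 by omega] at this
    have h2 : a (N + 1) < 8 ^ J := lt_trans (ha (by omega)) h1
    have hl : ∀ n, a n < 8 ^ J → Real.log (a n) ≤ J * Real.log 8 := by
      intro n hn
      rw [← Real.log_pow]
      apply Real.log_le_log (by exact_mod_cast hpos _)
      exact_mod_cast hn.le
    have h3 := hl _ h1
    have h4 := hl _ h2
    have h5 : 0 ≤ Real.log (a 1) := Real.log_natCast_nonneg _
    have h6 : 0 ≤ Real.log (a 2) := Real.log_natCast_nonneg _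
    linarith

theorem sum_lower (F : ℕ → ℝ) (hF : ∀ j, 0 ≤ F j) (K m : ℕ) (d : ℝ)
    (h : ∀ j, K ≤ j → d ≤ F j) :
    m * d ≤ ∑ j ∈ Finset.range (K + m), F j := by
  induction m with
  | zero => simp; exact Finset.sum_nonneg (fun j _ => hF j)
  | succ m ih =>
    rw [← add_assoc, Finset.sum_range_succ]
    have := h (K + m) (by omega)
    push_cast; linarith

theorem result :
    ¬ (∃ a : ℕ → ℕ, StrictMono a ∧ (∀ n, 0 < a n) ∧
      ∃ c : ℝ, 0 < c ∧ ∃ X : ℝ, ∀ x : ℝ, X ≤ x →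
        c * x ^ ((1 : ℝ) / 3) * Real.log x <
          (({i : ℕ | ((Nat.lcm (Nat.lcm (a (i + 1)) (a (i + 2))) (a (i + 3)) : ℕ) : ℝ) < x}.ncard : ℕ) : ℝ)) := by
  rintro ⟨a, ha, hpos, c, hc, X, hX⟩
  obtain ⟨K, hK⟩ := exists_nat_gt (max X (17 / c))
  have hK1 : X < K := lt_of_le_of_lt (le_max_left _ _) hK
  have hK2 : 17 / c < K := lt_of_le_of_lt (le_max_right _ _) hK
  have hK3 : 17 < c * K := by rw [div_lt_iff₀ hc] at hK2; linarith
  have hKpos : (0 : ℝ) < K := lt_trans (by positivity) hK2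
  have hl8 : 0 < Real.log 8 := Real.log_pos (by norm_num)
  have hb := main_bound a ha hpos (K + K)
  have hlow := sum_lower (fun j => (({i : ℕ | ((Nat.lcm (Nat.lcm (a (i + 1)) (a (i + 2)))
      (a (i + 3)) : ℕ) : ℝ) < (8 : ℝ) ^ j}.ncard : ℕ) : ℝ) * (1 / 2) ^ j)
      (fun j => by positivity) K K (17 * Real.log 8) (by
    intro j hj
    have hj' : (K : ℝ) ≤ j := by exact_mod_cast hj
    have h1 : (j : ℝ) ≤ 8 ^ j := by
      have : j < 8 ^ j := Nat.lt_pow_self (by norm_num)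
      exact_mod_cast this.le
    have h2 := hX (8 ^ j) (by linarith)
    have h3 : ((8 : ℝ) ^ j) ^ ((1 : ℝ) / 3) = 2 ^ j := by
      have : (8 : ℝ) ^ j = (2 ^ j) ^ 3 := by rw [← pow_mul, mul_comm, pow_mul]; norm_num
      rw [this, ← Real.rpow_natCast, ← Real.rpow_mul (by positivity)]
      norm_num
    rw [h3, Real.log_pow] at h2
    have hp : (0 : ℝ) < 2 ^ j := by positivity
    show 17 * Real.log 8 ≤ _
    rw [one_div, inv_pow, ← div_eq_mul_inv, le_div_iff₀ hp]
    have h4 : 17 ≤ c * j := by nlinarith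
    have h5 : 17 * Real.log 8 * 2 ^ j ≤ c * 2 ^ j * (j * Real.log 8) := by
      have : c * 2 ^ j * (j * Real.log 8) = (c * j) * (Real.log 8 * 2 ^ j) := by ring
      rw [this, mul_assoc]
      exact mul_le_mul_of_nonneg_right h4 (by positivity)
    linarith)
  have := hlow.trans hb
  push_cast at this
  nlinarith [mul_pos hKpos hl8]

end Pool.Agent.S17576
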