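import Pool.Statements.S17658
import Pool.Agent.Lib.H8.Bin11

set_option autoImplicit false
open Pool Pool.MP_874039_nt

namespace Pool.Agent.S17658

/-- The negation of the preceding statement: For every positive m with m+1 not a power of 2, the 2-adic valuation of the n-th coefficient of the product over i of (1-x^(2^i))^(-m), the m-colored binary partition count, exceeds any given bound for some n. -/
theorem result :
    ¬ (∀ m : ℕ, 0 < m → (¬ ∃ k : ℕ, m + 1 = 2 ^ k) →
      ∀ B : ℕ, ∃ n : ℕ,
        B < padicValNat 2
          (PowerSeries.coeff n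
            ((∏ i ∈ Finset.range (n + 1),
                PowerSeries.mk (fun j : ℕ => if 2 ^ i ∣ j then (1 : ℕ) else 0)) ^ m))) := by
  intro h
  have hk : ¬ ∃ k : ℕ, 11 + 1 = 2 ^ k := by
    rintro ⟨s, h4⟩
    have h5 : s < 4 := by
      by_contra h
      have : 2 ^ 4 ≤ 2 ^ s := Nat.pow_le_pow_right (by norm_num) (by omega)
      omega
    interval_cases s <;> omega
  obtain ⟨n, hn⟩ := h 11 (by norm_num) hk 4
  exact Pool.Agent.Lib.H8.Bin11.nat_main n
    ((pow_dvd_pow 2 (by omega)).trans pow_padicValNat_dvd)

end Pool.Agent.S17658
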