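import Pool.Statements.S17662

set_option autoImplicit false
open Pool Pool.MP_87cb84_nt

namespace Pool.Agent.S17662

open scoped BigOperators

lemma divisor_bound (δ : ℝ) (hδ : 0 < δ) :
    ∃ C : ℝ, 0 < C ∧ ∀ m : ℕ, m ≠ 0 → (m.divisors.card : ℝ) ≤ C * (m : ℝ) ^ δ := by
  have hl2 : 0 < Real.log 2 := Real.log_pos (by norm_num)
  set η := δ * Real.log 2 with hη
  have hη0 : 0 < η := by positivity
  set K := 1 + 1 / η with hK
  have hK1 : 1 ≤ K := by
    have : 0 < 1 / η := by positivity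
    linarith
  set B : ℕ := ⌈(2 : ℝ) ^ (1 / δ)⌉₊ with hB
  refine ⟨K ^ B, by positivity, fun m hm => ?_⟩
  have key : ∀ p a : ℕ, p.Prime → ((a + 1 : ℕ) : ℝ) ≤
      (if p < B then K else 1) * (((p ^ a : ℕ) : ℝ)) ^ δ := by
    intro p a hp
    have hp2 : (2 : ℝ) ≤ p := by exact_mod_cast hp.two_le
    push_cast
    split_ifs with h
    · have h1 : ((2 : ℝ) ^ a) ^ δ ≤ ((p : ℝ) ^ a) ^ δ :=
        Real.rpow_le_rpow (by positivity) (pow_le_pow_left₀ (by norm_num) hp2 a) hδ.le
      have h2 : 1 + a * η ≤ ((2 : ℝ) ^ a) ^ δ := by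
        rw [Real.rpow_def_of_pos (by positivity), Real.log_pow]
        have := Real.add_one_le_exp (a * Real.log 2 * δ)
        rw [hη]
        linarith
      have h3 : (a : ℝ) + 1 ≤ K * (1 + a * η) := by
        have e : K * (1 + a * η) = 1 + a * η + 1 / η + a := by
          rw [hK]
          field_simp
          ring
        have : 0 ≤ a * η := by positivity
        have : 0 < 1 / η := by positivity
        linarith
      exact h3.trans (mul_le_mul_of_nonneg_left (h2.trans h1) (by linarith))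
    · push Not at h
      have h1 : (2 : ℝ) ^ (1 / δ) ≤ p := le_trans (Nat.le_ceil _) (by exact_mod_cast h)
      have h2 : (2 : ℝ) ≤ (p : ℝ) ^ δ := by
        have := Real.rpow_le_rpow (by positivity) h1 hδ.le
        rwa [← Real.rpow_mul (by norm_num), one_div_mul_cancel hδ.ne', Real.rpow_one] at this
      rw [one_mul, ← Real.rpow_natCast, ← Real.rpow_mul (by positivity), mul_comm,
        Real.rpow_mul (by positivity), Real.rpow_natCast]
      have h3 : (a : ℝ) + 1 ≤ 2 ^ a := by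
        have := Nat.lt_two_pow_self (n := a)
        exact_mod_cast this
      exact h3.trans (pow_le_pow_left₀ (by norm_num) h2 a)
  rw [Nat.card_divisors hm, Nat.cast_prod]
  calc ∏ p ∈ m.primeFactors, ((m.factorization p + 1 : ℕ) : ℝ)
      ≤ ∏ p ∈ m.primeFactors, ((if p < B then K else 1) * (((p ^ m.factorization p : ℕ) : ℝ)) ^ δ) := by
        apply Finset.prod_le_prod
        · intro p _
          positivity
        · intro p hp
          exact key p _ (Nat.prime_of_mem_primeFactors hp)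
    _ = (∏ p ∈ m.primeFactors, (if p < B then K else 1)) * (m : ℝ) ^ δ := by
        rw [Finset.prod_mul_distrib, Real.finset_prod_rpow _ _ (fun _ _ => by positivity),
          ← Nat.cast_prod]
        congr 3
        exact Nat.factorization_prod_pow_eq_self hm
    _ ≤ K ^ B * (m : ℝ) ^ δ := by
        apply mul_le_mul_of_nonneg_right _ (by positivity)
        rw [Finset.prod_ite, Finset.prod_const_one, mul_one, Finset.prod_const]
        apply pow_le_pow_right₀ hK1
        calc _ ≤ (Finset.range B).card := by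
              apply Finset.card_le_card
              intro p hp
              exact Finset.mem_range.mpr (Finset.mem_filter.mp hp).2
          _ = B := Finset.card_range B

lemma geom_le (w : ℝ) (h0 : 0 ≤ w) (h1 : w ≤ 1 / 2) (K : ℕ) :
    ∑ j ∈ Finset.range K, w ^ j ≤ Real.exp (2 * w) := by
  have h2 := mul_neg_geom_sum w K
  have h3 : 0 ≤ w ^ K := by positivity
  have h4 := Real.add_one_le_exp (2 * w)
  have h5 : ∑ j ∈ Finset.range K, w ^ j ≤ 1 + 2 * w := by
    by_contra hc
    push Not at hc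
    have : (1 - w) * (1 + 2 * w) < (1 - w) * ∑ j ∈ Finset.range K, w ^ j :=
      mul_lt_mul_of_pos_left hc (by linarith)
    nlinarith
  linarith

lemma rankin (δ : ℝ) (hδ : 0 < δ) :
    ∃ C : ℝ, 0 < C ∧ ∀ Y : ℕ, ∀ S : Finset (Multiset ℕ),
      (∀ t ∈ S, (∀ x ∈ t, 2 ≤ x) ∧ t.prod ≤ Y) → (S.card : ℝ) ≤ C * (Y : ℝ) ^ (1 + δ) := by
  classical
  have hsum : Summable (fun n : ℕ => ((n : ℝ) ^ (1 + δ))⁻¹) :=
    Real.summable_nat_rpow_inv.mpr (by linarith)
  refine ⟨Real.exp (2 * ∑' n : ℕ, ((n : ℝ) ^ (1 + δ))⁻¹), Real.exp_pos _, fun Y S hS => ?_⟩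
  let w : ℕ → ℝ := fun m => if m < 2 then 0 else ((m : ℝ) ^ (1 + δ))⁻¹
  have hw0 : ∀ m, 0 ≤ w m := by
    intro m
    simp only [w]
    split_ifs
    · exact le_refl _
    · positivity
  have hw1 : ∀ m, w m ≤ 1 / 2 := by
    intro m
    simp only [w]
    split_ifs with h
    · norm_num
    · push Not at h
      have h2 : (2 : ℝ) ≤ m := by exact_mod_cast h
      have h3 : (m : ℝ) ≤ (m : ℝ) ^ (1 + δ) := by
        conv_lhs => rw [← Real.rpow_one (m : ℝ)]
        exact Real.rpow_le_rpow_of_exponent_le (by linarith) (by linarith)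
      rw [one_div]
      exact inv_anti₀ (by norm_num) (h2.trans h3)
  have hw2 : ∀ m, w m ≤ ((m : ℝ) ^ (1 + δ))⁻¹ := by
    intro m
    simp only [w]
    split_ifs
    · positivity
    · exact le_refl _
  have hmem : ∀ t ∈ S, ∀ x ∈ t, x < Y + 1 := by
    intro t ht x hx
    have h1 : x ≤ t.prod := by
      apply Nat.le_of_dvd _ (Multiset.dvd_prod hx)
      apply Multiset.prod_pos
      intro a ha
      have := (hS t ht).1 a ha
      omega
    have := (hS t ht).2
    omega
  set K := S.sup Multiset.card + 1 with hK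
  let c : Multiset ℕ → (Fin (Y + 1) → ℕ) := fun t m => t.count m.val
  have hcinj : Set.InjOn c S := by
    intro t ht u hu h
    ext x
    by_cases hx : x < Y + 1
    · exact congrFun h ⟨x, hx⟩
    · rw [Multiset.count_eq_zero_of_notMem (fun h' => hx (hmem t ht x h')),
        Multiset.count_eq_zero_of_notMem (fun h' => hx (hmem u hu x h'))]
  have h1 : ∀ t ∈ S, (1 : ℝ) ≤ (Y : ℝ) ^ (1 + δ) * ∏ m : Fin (Y + 1), w m.val ^ c t m := by
    intro t ht
    have e1 : ∏ m : Fin (Y + 1), w m.val ^ c t m = (t.map w).prod := by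
      rw [Finset.prod_multiset_map_count]
      simp only [c]
      rw [Fin.prod_univ_eq_prod_range (fun m => w m ^ t.count m) (Y + 1)]
      symm
      apply Finset.prod_subset
      · intro x hx
        exact Finset.mem_range.mpr (hmem t ht x (Multiset.mem_toFinset.mp hx))
      · intro x _ hx
        rw [Multiset.count_eq_zero_of_notMem (fun h => hx (Multiset.mem_toFinset.mpr h)), pow_zero]
    have e2 : ∀ u : Multiset ℕ, (∀ x ∈ u, 2 ≤ x) →
        (u.map w).prod = (((u.prod : ℕ) : ℝ) ^ (1 + δ))⁻¹ := by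
      intro u
      induction u using Multiset.induction_on with
      | empty => simp
      | cons a u ih =>
        intro hu
        rw [Multiset.map_cons, Multiset.prod_cons, Multiset.prod_cons,
          ih (fun x hx => hu x (Multiset.mem_cons_of_mem hx))]
        have ha : ¬ a < 2 := not_lt.mpr (hu a (Multiset.mem_cons_self a u))
        simp only [w, if_neg ha]
        push_cast
        rw [Real.mul_rpow (by positivity) (by rw [← Nat.cast_multiset_prod]; positivity), mul_inv]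
    rw [e1, e2 t (hS t ht).1]
    have hP : 0 < t.prod := by
      apply Multiset.prod_pos
      intro a ha
      have := (hS t ht).1 a ha
      omega
    have hP' : (0 : ℝ) < (t.prod : ℕ) := by exact_mod_cast hP
    rw [← div_eq_mul_inv, one_le_div (by positivity)]
    exact Real.rpow_le_rpow hP'.le (by exact_mod_cast (hS t ht).2) (by linarith)
  have h2 : ∑ t ∈ S, ∏ m : Fin (Y + 1), w m.val ^ c t m
      ≤ ∏ m : Fin (Y + 1), ∑ j ∈ Finset.range K, w m.val ^ j := by
    rw [Finset.prod_univ_sum, ← Finset.sum_image (f := fun g : Fin (Y + 1) → ℕ =>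
      ∏ m : Fin (Y + 1), w m.val ^ g m) hcinj]
    apply Finset.sum_le_sum_of_subset_of_nonneg
    · intro g hg
      obtain ⟨t, ht, rfl⟩ := Finset.mem_image.mp hg
      rw [Fintype.mem_piFinset]
      intro m
      rw [Finset.mem_range]
      have a1 : t.count m.val ≤ t.card := Multiset.count_le_card _ _
      have a2 : t.card ≤ S.sup Multiset.card := Finset.le_sup (f := Multiset.card) ht
      simp only [c]
      omega
    · intro g _ _
      exact Finset.prod_nonneg fun m _ => pow_nonneg (hw0 _) _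
  have h3 : ∏ m : Fin (Y + 1), ∑ j ∈ Finset.range K, w m.val ^ j
      ≤ Real.exp (2 * ∑' n : ℕ, ((n : ℝ) ^ (1 + δ))⁻¹) := by
    calc _ ≤ ∏ m : Fin (Y + 1), Real.exp (2 * w m.val) := by
          apply Finset.prod_le_prod
          · intro m _
            exact Finset.sum_nonneg fun j _ => pow_nonneg (hw0 _) _
          · intro m _
            exact geom_le _ (hw0 _) (hw1 _) K
      _ = Real.exp (2 * ∑ m ∈ Finset.range (Y + 1), w m) := by
          rw [← Real.exp_sum, ← Finset.mul_sum, Fin.sum_univ_eq_sum_range w]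
      _ ≤ _ := by
          apply Real.exp_le_exp.mpr
          apply mul_le_mul_of_nonneg_left _ (by norm_num)
          exact (Finset.sum_le_sum fun m _ => hw2 m).trans
            (hsum.sum_le_tsum _ (fun m _ => by positivity))
  calc (S.card : ℝ) = ∑ _t ∈ S, (1 : ℝ) := by simp
    _ ≤ ∑ t ∈ S, (Y : ℝ) ^ (1 + δ) * ∏ m : Fin (Y + 1), w m.val ^ c t m := Finset.sum_le_sum h1
    _ = (Y : ℝ) ^ (1 + δ) * ∑ t ∈ S, ∏ m : Fin (Y + 1), w m.val ^ c t m := by
        rw [Finset.mul_sum]
    _ ≤ (Y : ℝ) ^ (1 + δ) * Real.exp (2 * ∑' n : ℕ, ((n : ℝ) ^ (1 + δ))⁻¹) :=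
        mul_le_mul_of_nonneg_left (h2.trans h3) (by positivity)
    _ = _ := mul_comm _ _

lemma sum_le_prod (t : Multiset ℕ) (ht : ∀ x ∈ t, 2 ≤ x) :
    t.card ≤ t.sum ∧ t.sum + 1 ≤ t.prod + t.card ∧ 1 ≤ t.prod := by
  induction t using Multiset.induction_on with
  | empty => simp
  | cons a u ih =>
    obtain ⟨h1, h2, h3⟩ := ih (fun x hx => ht x (Multiset.mem_cons_of_mem hx))
    have ha := ht a (Multiset.mem_cons_self a u)
    rw [Multiset.card_cons, Multiset.sum_cons, Multiset.prod_cons]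
    refine ⟨by omega, ?_, by nlinarith⟩
    obtain ⟨b, rfl⟩ := Nat.exists_eq_add_of_le ha
    obtain ⟨c, hc⟩ := Nat.exists_eq_add_of_le h3
    rw [hc] at h2 ⊢
    nlinarith [Nat.zero_le (b * c)]

def recon (n : ℕ) (t : Multiset ℕ) : Multiset ℕ :=
  (n * (n - 1 + (t.sum - t.card)) / (t.prod - n)) ::ₘ (t + Multiset.replicate (n - 1 - t.card) 1)

lemma struct (n : ℕ) (hn : n.Prime) (s : Multiset ℕ) (hc : s.card = n) (hpos : ∀ x ∈ s, 0 < x)
    (he : s.prod = n * s.sum) :
    ∃ t : Multiset ℕ, (∀ x ∈ t, 2 ≤ x) ∧ t.prod ≤ 4 * n ∧ n < t.prod ∧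
      (t.prod - n) ∣ t.prod * (t.prod - 1 + (t.sum - t.card)) ∧ recon n t = s := by
  classical
  have hn2 := hn.two_le
  obtain ⟨x, hxs, hx⟩ := hn.prime.exists_mem_multiset_dvd (s := s) ⟨_, he⟩
  have hxn : n ≤ x := Nat.le_of_dvd (hpos x hxs) hx
  obtain ⟨v, hv, hmax⟩ := Finset.exists_max_image s.toFinset id ⟨x, Multiset.mem_toFinset.mpr hxs⟩
  have hv' : v ∈ s := Multiset.mem_toFinset.mp hv
  have hmax' : ∀ y ∈ s, y ≤ v := fun y hy => hmax y (Multiset.mem_toFinset.mpr hy)
  have hvn : n ≤ v := hxn.trans (hmax' x hxs)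
  obtain ⟨r, rfl⟩ := Multiset.exists_cons_of_mem hv'
  set t := r.filter (fun y => 2 ≤ y) with ht
  have ht2 : ∀ y ∈ t, 2 ≤ y := fun y hy => (Multiset.mem_filter.mp hy).2
  obtain ⟨j, hj⟩ : ∃ j, r.filter (fun y => ¬ 2 ≤ y) = Multiset.replicate j 1 := by
    refine ⟨_, Multiset.eq_replicate_card.mpr ?_⟩
    intro y hy
    have a1 := (Multiset.mem_filter.mp hy).2
    have a2 := hpos y (Multiset.mem_cons_of_mem (Multiset.mem_filter.mp hy).1)
    omega
  have hr : r = t + Multiset.replicate j 1 := by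
    rw [← hj, ht, Multiset.filter_add_not]
  have htv : ∀ y ∈ t, y ≤ v := fun y hy =>
    hmax' y (Multiset.mem_cons_of_mem (Multiset.mem_filter.mp hy).1)
  clear_value t
  subst hr
  simp only [Multiset.card_cons, Multiset.card_add, Multiset.card_replicate, Multiset.prod_cons,
    Multiset.prod_add, Multiset.prod_replicate, one_pow, mul_one, Multiset.sum_cons,
    Multiset.sum_add, Multiset.sum_replicate, smul_eq_mul] at hc he
  obtain ⟨h1, h2, h3⟩ := sum_le_prod t ht2
  obtain ⟨T, hT⟩ := Nat.exists_eq_add_of_le h1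
  have hT' : t.sum - t.card = T := by omega
  have he' : v * t.prod = n * (v + (n - 1 + T)) := by
    rw [he]
    congr 2
    omega
  have hPn : n < t.prod := by
    by_contra hle
    push Not at hle
    have a1 : v * t.prod ≤ v * n := Nat.mul_le_mul_left _ hle
    have a2 : 1 ≤ n - 1 + T := by omega
    nlinarith
  obtain ⟨e, he2⟩ := Nat.exists_eq_add_of_le hPn.le
  have he3 : t.prod - n = e := by omega
  have he4 : e * v = n * (n - 1 + T) := by
    rw [he2] at he'
    nlinarith
  refine ⟨t, ht2, ?_, hPn, ?_, ?_⟩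
  · have hcase : T ≤ v ∨ 2 * T ≤ t.prod := by
      induction t using Multiset.induction_on with
      | empty => simp at hT; omega
      | cons y u _ =>
        obtain ⟨b1, b2, b3⟩ := sum_le_prod u (fun x hx => ht2 x (Multiset.mem_cons_of_mem hx))
        have hy := ht2 y (Multiset.mem_cons_self y u)
        have hyv := htv y (Multiset.mem_cons_self y u)
        rw [Multiset.card_cons, Multiset.sum_cons] at hT
        rw [Multiset.prod_cons]
        rcases Nat.eq_or_lt_of_le b3 with h | h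
        · left
          omega
        · right
          obtain ⟨b, rfl⟩ := Nat.exists_eq_add_of_le hy
          obtain ⟨c, hc'⟩ := Nat.exists_eq_add_of_le (show 2 ≤ u.prod by omega)
          rw [hc'] at b2 ⊢
          nlinarith [Nat.zero_le (b * c)]
    have hv0 : 0 < v := by omega
    have a1 : n * (n - 1) ≤ n * v := Nat.mul_le_mul_left _ (by omega)
    rcases hcase with h | h
    · have a2 : n * T ≤ n * v := Nat.mul_le_mul_left _ h
      have : v * t.prod ≤ v * (4 * n) := by nlinarith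
      exact Nat.le_of_mul_le_mul_left this hv0
    · have a2 : n * (2 * T) ≤ v * t.prod := Nat.mul_le_mul hvn h
      have : v * t.prod ≤ v * (4 * n) := by nlinarith
      exact Nat.le_of_mul_le_mul_left this hv0
  · rw [he3, hT', he2]
    have a1 : n + e - 1 + T = (n - 1 + T) + e := by omega
    rw [a1]
    refine ⟨v + n + (n - 1 + T) + e, ?_⟩
    nlinarith
  · unfold recon
    rw [he3, hT', ← he4, Nat.mul_div_cancel_left _ (by omega)]
    congr 3
    omega

lemma avg (δ : ℝ) (hδ : 0 < δ) : ∃ C : ℝ, 0 < C ∧ ∀ X : ℕ, 1 ≤ X → ∀ Pr : Finset ℕ,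
    (∀ p ∈ Pr, p.Prime ∧ p ≤ X) →
    ∑ p ∈ Pr, (({s : Multiset ℕ | Multiset.card s = p ∧ (∀ x ∈ s, 0 < x) ∧
            s.prod = p * s.sum}.ncard : ℕ) : ℝ) ≤ C * (X : ℝ) ^ (1 + 3 * δ) := by
  classical
  obtain ⟨C1, hC1, h1⟩ := divisor_bound δ hδ
  obtain ⟨C2, hC2, h2⟩ := rankin δ hδ
  refine ⟨C2 * 4 ^ (1 + δ) * (C1 * 32 ^ δ), by positivity, fun X hX Pr hPr => ?_⟩
  have hfin : {t : Multiset ℕ | (∀ x ∈ t, 2 ≤ x) ∧ t.prod ≤ 4 * X}.Finite := by
    by_contra hinf
    obtain ⟨S, hS, hcard⟩ := Set.Infinite.exists_subset_card_eq hinf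
      (⌈C2 * ((4 * X : ℕ) : ℝ) ^ (1 + δ)⌉₊ + 1)
    have a1 := h2 (4 * X) S (fun t ht => hS ht)
    rw [hcard] at a1
    have a2 := Nat.le_ceil (C2 * ((4 * X : ℕ) : ℝ) ^ (1 + δ))
    push_cast at a1 a2
    linarith
  set A := hfin.toFinset with hA
  have hAm : ∀ t ∈ A, (∀ x ∈ t, 2 ≤ x) ∧ t.prod ≤ 4 * X := fun t ht => by
    simpa [hA] using ht
  let good : ℕ → Multiset ℕ → Prop := fun n t =>
    n < t.prod ∧ (t.prod - n) ∣ t.prod * (t.prod - 1 + (t.sum - t.card))
  have b1 : ∀ p ∈ Pr, {s : Multiset ℕ | Multiset.card s = p ∧ (∀ x ∈ s, 0 < x) ∧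
      s.prod = p * s.sum}.ncard ≤ (A.filter (good p)).card := by
    intro p hp
    calc _ ≤ (((A.filter (good p)).image (recon p) : Finset _) : Set (Multiset ℕ)).ncard := by
          apply Set.ncard_le_ncard _ (Finset.finite_toSet _)
          rintro s ⟨c1, c2, c3⟩
          obtain ⟨t, d1, d2, d3, d4, d5⟩ := struct p (hPr p hp).1 s c1 c2 c3
          simp only [Finset.coe_image, Set.mem_image, Finset.mem_coe, Finset.mem_filter]
          refine ⟨t, ⟨?_, d3, d4⟩, d5⟩
          have := (hPr p hp).2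
          simp only [hA, Set.Finite.mem_toFinset]
          exact ⟨d1, by omega⟩
      _ = ((A.filter (good p)).image (recon p)).card := Set.ncard_coe_finset _
      _ ≤ _ := Finset.card_image_le
  have b2 : ∑ p ∈ Pr, (A.filter (good p)).card = ∑ t ∈ A, (Pr.filter (fun p => good p t)).card := by
    simp only [Finset.card_filter]
    exact Finset.sum_comm
  have hX' : (0 : ℝ) < X := by exact_mod_cast hX
  have b3 : ∀ t ∈ A, ((Pr.filter (fun p => good p t)).card : ℝ) ≤ C1 * 32 ^ δ * (X : ℝ) ^ (2 * δ) := by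
    intro t ht
    obtain ⟨c1, c2, c3⟩ := sum_le_prod t (hAm t ht).1
    have c4 := (hAm t ht).2
    rcases (Pr.filter (fun p => good p t)).eq_empty_or_nonempty with h | ⟨p0, hp0⟩
    · rw [h]
      simp only [Finset.card_empty, Nat.cast_zero]
      positivity
    · have d1 := (Finset.mem_filter.mp hp0).2.1
      have d2 := (hPr p0 (Finset.mem_filter.mp hp0).1).1.two_le
      set m := t.prod * (t.prod - 1 + (t.sum - t.card)) with hm
      have hm0 : m ≠ 0 := Nat.mul_ne_zero (by omega) (by omega)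
      have hmle : m ≤ 32 * X ^ 2 := by
        calc m ≤ (4 * X) * (8 * X) := Nat.mul_le_mul c4 (by omega)
          _ = 32 * X ^ 2 := by ring
      have d3 : (Pr.filter (fun p => good p t)).card ≤ m.divisors.card := by
        apply Finset.card_le_card_of_injOn (fun p => t.prod - p)
        · intro p hp
          exact Finset.mem_coe.mpr (Nat.mem_divisors.mpr ⟨(Finset.mem_filter.mp hp).2.2, hm0⟩)
        · intro p hp q hq hpq
          have e1 := (Finset.mem_filter.mp hp).2.1
          have e2 := (Finset.mem_filter.mp hq).2.1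
          simp only at hpq
          omega
      calc ((Pr.filter (fun p => good p t)).card : ℝ) ≤ m.divisors.card := by exact_mod_cast d3
        _ ≤ C1 * (m : ℝ) ^ δ := h1 m hm0
        _ ≤ C1 * ((32 : ℝ) * (X : ℝ) ^ (2 : ℝ)) ^ δ := by
            apply mul_le_mul_of_nonneg_left _ hC1.le
            apply Real.rpow_le_rpow (by positivity) _ hδ.le
            rw [Real.rpow_two]
            exact_mod_cast hmle
        _ = C1 * 32 ^ δ * (X : ℝ) ^ (2 * δ) := by
            rw [Real.mul_rpow (by norm_num) (by positivity), ← Real.rpow_mul hX'.le, mul_assoc]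
  have b4 := h2 (4 * X) A hAm
  calc _ ≤ ∑ p ∈ Pr, ((A.filter (good p)).card : ℝ) :=
        Finset.sum_le_sum fun p hp => by exact_mod_cast b1 p hp
    _ = ∑ t ∈ A, ((Pr.filter (fun p => good p t)).card : ℝ) := by exact_mod_cast b2
    _ ≤ ∑ _t ∈ A, C1 * 32 ^ δ * (X : ℝ) ^ (2 * δ) := Finset.sum_le_sum b3
    _ = A.card * (C1 * 32 ^ δ * (X : ℝ) ^ (2 * δ)) := by simp
    _ ≤ (C2 * ((4 * X : ℕ) : ℝ) ^ (1 + δ)) * (C1 * 32 ^ δ * (X : ℝ) ^ (2 * δ)) :=
        mul_le_mul_of_nonneg_right b4 (by positivity)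
    _ = _ := by
        push_cast
        rw [Real.mul_rpow (by norm_num) hX'.le,
          show 1 + 3 * δ = (1 + δ) + 2 * δ by ring, Real.rpow_add hX' (1 + δ)]
        ring

/-- The number of solutions is below every fixed power of `n` for infinitely many (prime) `n`. -/
theorem result :
    ¬ (∃ ε : ℝ, 0 < ε ∧ ∃ N : ℕ, ∀ n : ℕ, N ≤ n →
      (n : ℝ) ^ ε <
        (({s : Multiset ℕ | Multiset.card s = n ∧ (∀ x ∈ s, 0 < x) ∧
            s.prod = n * s.sum}.ncard : ℕ) : ℝ)) := by
  rintro ⟨ε, hε, N, hN⟩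
  set δ := min (ε / 8) (1 / 2) with hδdef
  have hδ : 0 < δ := lt_min (by linarith) (by norm_num)
  have hδ1 : δ ≤ ε / 8 := min_le_left _ _
  have hδ2 : δ ≤ 1 / 2 := min_le_right _ _
  obtain ⟨C, hC, hav⟩ := avg δ hδ
  have hl2 : 0 < Real.log 2 := Real.log_pos (by norm_num)
  have hev : ∀ᶠ Y : ℕ in Filter.atTop, (2 + 4 / δ + 2 * C / δ) / Real.log 2 < (Y : ℝ) ^ δ :=
    ((tendsto_rpow_atTop hδ).comp tendsto_natCast_atTop_atTop).eventually_gt_atTop _
  obtain ⟨Y, hY1, hY2⟩ := (hev.and (Filter.eventually_ge_atTop (max N 1))).exists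
  have hYN : N ≤ Y := le_trans (le_max_left _ _) hY2
  have hY1' : 1 ≤ Y := le_trans (le_max_right _ _) hY2
  have hy1 : (1 : ℝ) ≤ Y := by exact_mod_cast hY1'
  have hy0 : (0 : ℝ) < Y := by linarith
  set Pr := (Finset.Ioc Y (Y ^ 2)).filter Nat.Prime with hPr
  have a1 := hav (Y ^ 2) (Nat.one_le_pow _ _ hY1') Pr (fun p hp =>
    ⟨(Finset.mem_filter.mp hp).2, (Finset.mem_Ioc.mp (Finset.mem_filter.mp hp).1).2⟩)
  set u : ℝ := (Y : ℝ) ^ δ with hu
  have hu1 : 1 ≤ u := Real.one_le_rpow hy1 hδ.le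
  have hu0 : 0 < u := by linarith
  have hupow : ∀ k : ℕ, u ^ k = (Y : ℝ) ^ (δ * k) := by
    intro k
    rw [hu, Real.rpow_mul hy0.le, Real.rpow_natCast]
  have hu2 : u ^ 2 ≤ Y := by
    rw [hupow]
    conv_rhs => rw [← Real.rpow_one (Y : ℝ)]
    apply Real.rpow_le_rpow_of_exponent_le hy1
    push_cast
    linarith
  have a2 : (Pr.card : ℝ) * u ^ 8 ≤ ∑ p ∈ Pr, (({s : Multiset ℕ | Multiset.card s = p ∧
      (∀ x ∈ s, 0 < x) ∧ s.prod = p * s.sum}.ncard : ℕ) : ℝ) := by
    rw [← nsmul_eq_mul, ← Finset.sum_const]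
    apply Finset.sum_le_sum
    intro p hp
    have hp1 := (Finset.mem_Ioc.mp (Finset.mem_filter.mp hp).1).1
    refine le_trans ?_ (hN p (by omega)).le
    rw [hupow]
    calc (Y : ℝ) ^ (δ * (8 : ℕ)) ≤ (Y : ℝ) ^ ε := by
          apply Real.rpow_le_rpow_of_exponent_le hy1
          push_cast
          linarith
      _ ≤ (p : ℝ) ^ ε := Real.rpow_le_rpow hy0.le (by exact_mod_cast hp1.le) hε.le
  have a3 : ((Y ^ 2 : ℕ) : ℝ) ^ (1 + 3 * δ) = (Y : ℝ) ^ 2 * u ^ 6 := by
    rw [hupow]
    push_cast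
    rw [← Real.rpow_natCast, ← Real.rpow_mul hy0.le, ← Real.rpow_add hy0]
    congr 1
    push_cast
    ring
  rw [a3] at a1
  have a4 : (Pr.card : ℝ) * u ^ 2 ≤ C * (Y : ℝ) ^ 2 := by
    have : ((Pr.card : ℝ) * u ^ 2) * u ^ 6 ≤ (C * (Y : ℝ) ^ 2) * u ^ 6 := by
      calc _ = (Pr.card : ℝ) * u ^ 8 := by ring
        _ ≤ _ := a2.trans a1
        _ = _ := by ring
    exact le_of_mul_le_mul_right this (by positivity)
  have a5 : (Nat.primeCounting (Y ^ 2) : ℝ) ≤ Pr.card + 2 * Y := by
    have : Nat.primeCounting (Y ^ 2) ≤ Pr.card + 2 * Y := by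
      rw [Nat.primeCounting, Nat.primeCounting', Nat.count_eq_card_filter_range]
      calc _ ≤ (Pr ∪ Finset.range (Y + 1)).card := by
            apply Finset.card_le_card
            intro p hp
            rw [Finset.mem_filter, Finset.mem_range] at hp
            rw [Finset.mem_union, hPr, Finset.mem_filter, Finset.mem_Ioc, Finset.mem_range]
            by_cases h : Y < p
            · left
              exact ⟨⟨h, by omega⟩, hp.2⟩
            · right
              omega
        _ ≤ Pr.card + (Finset.range (Y + 1)).card := Finset.card_union_le _ _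
        _ ≤ _ := by
            rw [Finset.card_range]
            omega
    exact_mod_cast this
  have a6 := (Chebyshev.psi_ge (Y ^ 2)).trans (Chebyshev.psi_le_primeCounting_mul_log (Y ^ 2))
  push_cast at a6
  have a7 : Real.log ((Y : ℝ) ^ 2) ≤ 2 * (u / δ) := by
    rw [Real.log_pow]
    have := Real.log_le_rpow_div hy0.le hδ
    push_cast
    linarith
  have a8 : Real.log ((Y : ℝ) ^ 2 + 1) ≤ 2 * Y := by
    calc _ ≤ Real.log (((Y : ℝ) + 1) ^ 2) := Real.log_le_log (by positivity) (by nlinarith)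
      _ = 2 * Real.log ((Y : ℝ) + 1) := by
          rw [Real.log_pow]
          norm_num
      _ ≤ 2 * Y := by
          have := Real.log_le_sub_one_of_pos (show (0 : ℝ) < Y + 1 by linarith)
          linarith
  have a9 : (Y : ℝ) ^ 2 * Real.log 2 ≤ 2 * Y + (Pr.card + 2 * Y) * (2 * (u / δ)) := by
    have : (Nat.primeCounting (Y ^ 2) : ℝ) * Real.log ((Y : ℝ) ^ 2)
        ≤ (Pr.card + 2 * Y) * (2 * (u / δ)) :=
      mul_le_mul a5 a7 (Real.log_nonneg (by nlinarith)) (by positivity)
    linarith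
  rw [div_lt_iff₀ hl2] at hY1
  have b1 : (Y : ℝ) ^ 2 * (u * Real.log 2) ≤ (Y : ℝ) ^ 2 * (2 + 4 / δ + 2 * C / δ) := by
    have c1 := mul_le_mul_of_nonneg_left a9 hu0.le
    have c2 : u ≤ Y := by nlinarith
    have c3 : u * (2 * (Y : ℝ)) ≤ (Y : ℝ) ^ 2 * 2 := by nlinarith
    have c4 : u * ((Pr.card + 2 * Y) * (2 * (u / δ)))
        = (2 / δ) * (Pr.card * u ^ 2) + (4 / δ) * (Y * u ^ 2) := by ring
    have c5 : (2 / δ) * (Pr.card * u ^ 2) ≤ (2 / δ) * (C * (Y : ℝ) ^ 2) :=
      mul_le_mul_of_nonneg_left a4 (by positivity)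
    have c6 : (4 / δ) * (Y * u ^ 2) ≤ (4 / δ) * ((Y : ℝ) ^ 2) :=
      mul_le_mul_of_nonneg_left (by nlinarith) (by positivity)
    calc (Y : ℝ) ^ 2 * (u * Real.log 2) = u * ((Y : ℝ) ^ 2 * Real.log 2) := by ring
      _ ≤ u * (2 * Y) + u * ((Pr.card + 2 * Y) * (2 * (u / δ))) := by linarith
      _ ≤ (Y : ℝ) ^ 2 * 2 + ((2 / δ) * (C * (Y : ℝ) ^ 2) + (4 / δ) * ((Y : ℝ) ^ 2)) := by linarith
      _ = _ := by ring
  have b2 := le_of_mul_le_mul_left b1 (by positivity)
  linarith

end Pool.Agent.S17662
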