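import Pool.Statements.S17899
import Pool.Agent.Lib.helper21.Erdos122

set_option autoImplicit false
open Filter Topology
open Pool Pool.MP_9d1108_nt

namespace Pool.Agent.S17899

/-- There is F with F(x)→∞ and F(n)/φ(n)→0 along a density-one set, such that for some C only finitely many x have more than C·F(x) integers n with n+φ(n) in the open interval (x, x+F(x)). -/
theorem result :
    ∃ F : ℕ → ℝ, Tendsto F atTop atTop ∧
      (∃ A : Set ℕ,
        Tendsto (fun N : ℕ => ((A ∩ Set.Iio N).ncard : ℝ) / (N : ℝ)) atTop (𝓝 1) ∧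
        Tendsto (fun n : ℕ => F n / (Nat.totient n : ℝ)) (atTop ⊓ 𝓟 A) (𝓝 0)) ∧
      ¬ (∀ C : ℝ, Set.Infinite {x : ℕ |
          ((Set.ncard {n : ℕ | (x : ℝ) < (n : ℝ) + (Nat.totient n : ℝ) ∧
              (n : ℝ) + (Nat.totient n : ℝ) < (x : ℝ) + F x} : ℕ) : ℝ) > C * F x}) := by
  obtain ⟨e, he0, he1, he2, he3⟩ := Pool.Agent.Lib.Helper21.Erdos122.main
    (fun n => ((Nat.totient n : ℕ) : ℝ)) (fun d => ((ArithmeticFunction.moebius d : ℤ) : ℝ))
    (fun d => by exact_mod_cast ArithmeticFunction.abs_moebius_le_one)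
    (fun _ => by positivity) (by simp) Pool.Agent.Lib.Helper21.Erdos122.totient_eq
  have hs : Tendsto (fun n => Real.sqrt (e n)) atTop (𝓝 0) := by
    simpa using he1.sqrt
  refine ⟨fun x => e x * x, he2, ⟨{n | Real.sqrt (e n) * n ≤ Nat.totient n}, ?_, ?_⟩, ?_⟩
  · set A : Set ℕ := {n | Real.sqrt (e n) * n ≤ Nat.totient n} with hA
    rw [Metric.tendsto_atTop]
    intro δ hδ
    have hpos : 0 < Real.exp (-(2 * (2 / δ))) := Real.exp_pos _
    obtain ⟨K, hK⟩ := eventually_atTop.mp (hs.eventually (gt_mem_nhds hpos))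
    have h0 : Tendsto (fun N : ℕ => ((K + 1 : ℕ) : ℝ) / (N : ℝ)) atTop (𝓝 0) :=
      tendsto_const_div_atTop_nhds_zero_nat _
    obtain ⟨N0, hN0⟩ := eventually_atTop.mp (h0.eventually (gt_mem_nhds (half_pos hδ)))
    refine ⟨N0 + 1, fun N hN => ?_⟩
    have hNpos : (0 : ℝ) < N := by exact_mod_cast (by omega : 0 < N)
    have h1 := hN0 N (by omega)
    have hfin : (A ∩ Set.Iio N).Finite := (Set.finite_Iio N).inter_of_right _
    have hle : (A ∩ Set.Iio N).ncard ≤ N := by
      have := Set.ncard_le_ncard (Set.inter_subset_right : A ∩ Set.Iio N ⊆ Set.Iio N)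
        (Set.finite_Iio N)
      simpa using this
    have hm := Pool.Agent.Lib.Helper21.Erdos122.markov 1 N one_pos (2 / δ) (by positivity)
    classical
    have hsub : Finset.range N ⊆ hfin.toFinset ∪ (Finset.range (K + 1) ∪
        (Finset.Ioc 0 N).filter (fun n => 2 / δ < Pool.Agent.Lib.Helper21.Erdos122.T 1 n)) := by
      intro n hn
      rw [Finset.mem_range] at hn
      simp only [Finset.mem_union, Set.Finite.mem_toFinset, Finset.mem_range, Finset.mem_filter,
        Finset.mem_Ioc, Set.mem_inter_iff, Set.mem_Iio]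
      by_contra hc
      push Not at hc
      obtain ⟨c1, c2, c3⟩ := hc
      have c4 := c3 ⟨by omega, hn.le⟩
      apply absurd hn (not_lt.mpr (c1 _))
      have c5 := Pool.Agent.Lib.Helper21.Erdos122.le_totient n (by omega)
      have c6 := (hK n (by omega)).le
      have c7 : Real.exp (2 * Pool.Agent.Lib.Helper21.Erdos122.T 1 n) ≤ Real.exp (2 * (2 / δ)) :=
        Real.exp_le_exp.mpr (by linarith)
      have c8 : Real.exp (-(2 * (2 / δ))) * Real.exp (2 * (2 / δ)) = 1 := by
        rw [← Real.exp_add]; simp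
      change Real.sqrt (e n) * n ≤ Nat.totient n
      calc Real.sqrt (e n) * n ≤ Real.exp (-(2 * (2 / δ))) *
            (Real.exp (2 * (2 / δ)) * Nat.totient n) := by
            gcongr
            exact c5.trans (by gcongr)
        _ = _ := by rw [← mul_assoc, c8, one_mul]
    have hc := (Finset.card_le_card hsub).trans ((Finset.card_union_le _ _).trans
      (Nat.add_le_add_left (Finset.card_union_le _ _) _))
    rw [Finset.card_range, Finset.card_range, ← Set.ncard_eq_toFinset_card _ hfin] at hc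
    have hc' : (N : ℝ) ≤ ((A ∩ Set.Iio N).ncard : ℝ) + (((K + 1 : ℕ) : ℝ) +
      (((Finset.Ioc 0 N).filter
        (fun n => 2 / δ < Pool.Agent.Lib.Helper21.Erdos122.T 1 n)).card : ℝ)) := by
      exact_mod_cast hc
    have hle' : ((A ∩ Set.Iio N).ncard : ℝ) ≤ N := by exact_mod_cast hle
    have hm' : (N : ℝ) / (((1 : ℕ) : ℝ) * (2 / δ)) = δ / 2 * N := by
      push_cast; field_simp
    rw [hm'] at hm
    rw [div_lt_iff₀ hNpos] at h1
    rw [Real.dist_eq, abs_lt]
    constructor
    · rw [lt_sub_iff_add_lt, lt_div_iff₀ hNpos]; linarith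
    · rw [sub_lt_iff_lt_add, div_lt_iff₀ hNpos]; nlinarith
  · refine squeeze_zero' (Eventually.of_forall fun n => ?_) ?_ (hs.mono_left inf_le_left)
    · have := he0 n; positivity
    · rw [eventually_inf_principal]
      refine Eventually.of_forall fun n hn => ?_
      have hn' : Real.sqrt (e n) * n ≤ Nat.totient n := hn
      have h1 := Real.mul_self_sqrt (he0 n).le
      have h2 := Real.sqrt_nonneg (e n)
      apply div_le_of_le_mul₀ (by positivity) h2
      calc e n * n = Real.sqrt (e n) * (Real.sqrt (e n) * n) := by rw [← mul_assoc, h1]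
        _ ≤ _ := by gcongr
  · intro H
    obtain ⟨N, hN⟩ := eventually_atTop.mp he3
    obtain ⟨x, hx, hx2⟩ := (H 13).exists_gt N
    exact absurd hx (not_lt.mpr (hN x hx2.le))

end Pool.Agent.S17899
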