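import Pool.Statements.S18225
import Pool.Agent.Lib.helper13.SNf

set_option autoImplicit false
open Filter
open Pool Pool.MP_b5ad3e_nt

namespace Pool.Agent.S18225

/-- There is a base b≥2 and a strictly increasing positive sequence A with A(N)>N^θ eventually for each θ<1 such that the base-b concatenation number of A has, in every base b^m, each digit count's limsup/liminf of (count−n/B)/√(2n log log n) equal to ±√(B−1)/B. -/
theorem result :
    ∃ b : ℕ, 2 ≤ b ∧ ∃ a : ℕ → ℕ, StrictMono a ∧ (∀ n, 0 < a n) ∧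
      (∀ θ : ℝ, θ < 1 → ∀ᶠ N : ℕ in atTop,
          (N : ℝ) ^ θ < (Nat.card {n : ℕ | a n ≤ N} : ℝ)) ∧
      ∃ d : ℕ → ℕ,
        (∀ n r : ℕ, r < (Nat.digits b (a n)).length →
          d ((∑ j ∈ Finset.range n, (Nat.digits b (a j)).length) + r)
            = ((Nat.digits b (a n)).reverse).getD r 0) ∧
        ∃ ξ : ℝ, ξ = ∑' i : ℕ, (d i : ℝ) / (b : ℝ) ^ (i + 1) ∧
          ∀ m : ℕ, 1 ≤ m → ∀ k : ℕ, k < b ^ m →
            ∀ F : ℕ → ℝ,
              (∀ n : ℕ, F n =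
                ((((Finset.range n).filter
                    (fun i : ℕ => ⌊ξ * ((b : ℝ) ^ m) ^ (i + 1)⌋ % ((b : ℤ) ^ m) = (k : ℤ))).card : ℝ)
                  - (n : ℝ) / (b : ℝ) ^ m)
                / Real.sqrt (2 * (n : ℝ) * Real.log (Real.log (n : ℝ)))) →
              ∀ ε : ℝ, 0 < ε →
                (∀ᶠ n in atTop, F n < Real.sqrt ((b : ℝ) ^ m - 1) / (b : ℝ) ^ m + ε) ∧
                (∃ᶠ n in atTop, Real.sqrt ((b : ℝ) ^ m - 1) / (b : ℝ) ^ m - ε < F n) ∧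
                (∀ᶠ n in atTop, -(Real.sqrt ((b : ℝ) ^ m - 1) / (b : ℝ) ^ m) - ε < F n) ∧
                (∃ᶠ n in atTop, F n < -(Real.sqrt ((b : ℝ) ^ m - 1) / (b : ℝ) ^ m) + ε) := by
  obtain ⟨a, h1, h2, h3, d, h4, h5⟩ := H13SN.main
  refine ⟨2, le_rfl, a, h1, h2, h3, d, h4, _, rfl, fun m hm k hk F hF ε hε => ?_⟩
  have c0 : (0 : ℝ) < 2 ^ m := by positivity
  obtain ⟨a1, a2⟩ := h5 m k hm hk _ (fun _ => rfl) (ε / 2 * 2 ^ m) (by positivity)
  simp only [Nat.cast_ofNat] at hF ⊢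
  generalize (∑' i : ℕ, (d i : ℝ) / (2 : ℝ) ^ (i + 1)) = ξ at *
  generalize hD : (fun n : ℕ => ((∑ i ∈ Finset.range n, H13SN.ph (2 ^ m) k
    (⌊ξ * 2 ^ (m * (i + 1))⌋ % 2 ^ m).toNat : ℤ) : ℝ)) = D
  have hD' := fun n => congrFun hD n
  simp only [hD'] at a1 a2
  have key : ∀ n : ℕ, 0 < H13SN.E n → D n = 2 ^ m * F n * H13SN.E n := fun n hn => by
    have e : ∀ i, H13SN.ph (2 ^ m) k (⌊ξ * 2 ^ (m * (i + 1))⌋ % 2 ^ m).toNat
        = (if ⌊ξ * (2 ^ m) ^ (i + 1)⌋ % 2 ^ m = (k : ℤ) then 2 ^ m else 0) - 1 := fun i => by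
      have := Int.emod_nonneg ⌊ξ * 2 ^ (m * (i + 1))⌋ (show (2 : ℤ) ^ m ≠ 0 by positivity)
      rw [H13SN.ph, ← pow_mul]
      push_cast
      congr 2
      exact propext (by omega)
    unfold H13SN.E at hn ⊢
    rw [← hD', hF, mul_assoc, div_mul_cancel₀ _ hn.ne']
    simp only [e, Finset.sum_sub_distrib, ← Finset.sum_filter]
    simp only [Finset.sum_const, Finset.card_range, nsmul_eq_mul]
    push_cast
    field_simp
  obtain ⟨s, hs⟩ : ∃ s : ℝ, √(2 ^ m - 1) = s * 2 ^ m := ⟨√(2 ^ m - 1) / 2 ^ m, by field_simp⟩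
  rw [hs] at a1 a2 ⊢
  rw [mul_div_cancel_right₀ _ c0.ne']
  refine ⟨?_, ((a2 1 (by simp)).and_eventually H13SN.E_pos).mono ?_, ?_,
    ((a2 (-1) (by simp)).and_eventually H13SN.E_pos).mono ?_⟩
  · filter_upwards [a1, H13SN.E_pos] with n b1 b2
    have b3 := (abs_le.1 b1).2
    rw [key n b2] at b3
    have := le_of_mul_le_mul_right b3 b2
    nlinarith
  · rintro n ⟨b1, b2⟩
    rw [key n b2, ← mul_assoc] at b1
    have := le_of_mul_le_mul_right b1 b2
    push_cast at this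
    nlinarith
  · filter_upwards [a1, H13SN.E_pos] with n b1 b2
    have b3 := (abs_le.1 b1).1
    rw [key n b2, ← neg_mul] at b3
    have := le_of_mul_le_mul_right b3 b2
    nlinarith
  · rintro n ⟨b1, b2⟩
    rw [key n b2, ← mul_assoc] at b1
    have := le_of_mul_le_mul_right b1 b2
    push_cast at this
    nlinarith

end Pool.Agent.S18225
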