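import Pool.Statements.S18406
import Pool.Agent.Lib.helper29.Discrep

set_option autoImplicit false
open Classical
open Pool Pool.MP_c36293_nt

namespace Pool.Agent.S18406

open Pool.Agent.Lib.H29.Discrep

/-- The negation of the preceding statement: For every dimension d and every p ≥ 1 there is C such that for every N-point set in [0,1)^d, the p-th power periodic L_p discrepancy is at most C times the p-th power extreme L_p discrepancy. -/
theorem result :
    ¬ (∀ (d : ℕ), 1 ≤ d → ∀ (p : ℝ), 1 ≤ p → ∃ C : ℝ, 0 < C ∧
      ∀ (N : ℕ), 1 ≤ N → ∀ P : Fin N → Fin d → ℝ, (∀ i j, 0 ≤ P i j ∧ P i j < 1) →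
        (∫ x in Set.Icc (0 : Fin d → ℝ) 1, ∫ y in Set.Icc (0 : Fin d → ℝ) 1,
          |((Finset.univ.filter (fun i : Fin N => ∀ j : Fin d,
              (x j ≤ y j ∧ x j ≤ P i j ∧ P i j < y j) ∨
              (y j < x j ∧ (P i j < y j ∨ x j ≤ P i j)))).card : ℝ)
            - (N : ℝ) * ∏ j : Fin d, (if x j ≤ y j then y j - x j else 1 - x j + y j)| ^ p)
        ≤ C * ∫ x in Set.Icc (0 : Fin d → ℝ) 1, ∫ y in Set.Icc (0 : Fin d → ℝ) 1,
          (if x ≤ y then
            |((Finset.univ.filter (fun i : Fin N => ∀ j : Fin d,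
                x j ≤ P i j ∧ P i j < y j)).card : ℝ)
              - (N : ℝ) * ∏ j : Fin d, (y j - x j)| ^ p
           else 0)) := by
  intro h
  obtain ⟨C, hC, h⟩ := h 2 (by norm_num) 1 le_rfl
  obtain ⟨r, hr⟩ := exists_nat_gt (3072 * C + 6)
  have hr6 : (6 : ℝ) < r := by linarith
  have hr4 : 4 ≤ r := by
    have : (4 : ℝ) ≤ r := by linarith
    exact_mod_cast this
  have h1 := h (r ^ 2 * r ^ 2) (Nat.one_le_iff_ne_zero.2 (by positivity)) (PP r)
    (PP_mem r (by omega))
  simp only [Real.rpow_one] at h1
  have hup : (∫ x in Set.Icc (0 : Fin 2 → ℝ) 1, ∫ y in Set.Icc (0 : Fin 2 → ℝ) 1,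
          (if x ≤ y then
            |((Finset.univ.filter (fun i : Fin (r ^ 2 * r ^ 2) => ∀ j : Fin 2,
                x j ≤ PP r i j ∧ PP r i j < y j)).card : ℝ)
              - ((r ^ 2 * r ^ 2 : ℕ) : ℝ) * ∏ j : Fin 2, (y j - x j)|
           else 0)) ≤ 3 * (r : ℝ) ^ 2 := by
    refine (MeasureTheory.integral_mono_of_nonneg (Filter.Eventually.of_forall (fun x =>
      MeasureTheory.integral_nonneg (fun y => by
        dsimp only
        split_ifs
        · exact abs_nonneg _
        · exact le_rfl))) (MeasureTheory.integrable_const (3 * (r : ℝ) ^ 2))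
      ((MeasureTheory.ae_restrict_iff' measurableSet_Icc).2
        (Filter.Eventually.of_forall (fun x hx => ?_)))).trans (by simp)
    refine upper_int r (by omega) _ (fun y => by
        split_ifs
        · exact abs_nonneg _
        · exact le_rfl) (fun y hy => ?_)
    split_ifs with hxy
    · exact extreme_bound r (by omega) x y hx.1 hxy hy.2 _ (by
        intro i
        simp only [Finset.mem_filter, Finset.mem_univ, true_and])
    · exact add_nonneg (by positivity) (Set.indicator_nonneg (fun _ _ => by positivity) _)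
  have hlo := lower_int (fun x y =>
      |((Finset.univ.filter (fun i : Fin (r ^ 2 * r ^ 2) => ∀ j : Fin 2,
              (x j ≤ y j ∧ x j ≤ PP r i j ∧ PP r i j < y j) ∨
              (y j < x j ∧ (PP r i j < y j ∨ x j ≤ PP r i j)))).card : ℝ)
              - ((r ^ 2 * r ^ 2 : ℕ) : ℝ) *
                ∏ j : Fin 2, (if x j ≤ y j then y j - x j else 1 - x j + y j)|)
    (by
      refine Measurable.abs (Measurable.sub ?_ (Measurable.const_mul ?_ _))
      · simp only [Finset.card_filter, Nat.cast_sum, Nat.cast_ite, Nat.cast_one, Nat.cast_zero]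
        refine Finset.measurable_sum _ (fun i _ => Measurable.ite ?_ measurable_const
          measurable_const)
        refine measurableSet_setOf.2 (Measurable.forall (fun j => ?_))
        refine Measurable.or ?_ ?_
        · exact (measurableSet_setOf.1 (measurableSet_le (by fun_prop) (by fun_prop))).and
            ((measurableSet_setOf.1 (measurableSet_le (by fun_prop) (by fun_prop))).and
            (measurableSet_setOf.1 (measurableSet_lt (by fun_prop) (by fun_prop))))
        · exact (measurableSet_setOf.1 (measurableSet_lt (by fun_prop) (by fun_prop))).and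
            ((measurableSet_setOf.1 (measurableSet_lt (by fun_prop) (by fun_prop))).or
            (measurableSet_setOf.1 (measurableSet_le (by fun_prop) (by fun_prop))))
      · refine Finset.measurable_prod _ (fun j _ => ?_)
        exact Measurable.ite (measurableSet_le (by fun_prop) (by fun_prop)) (by fun_prop)
          (by fun_prop))
    (2 * ((r ^ 2 * r ^ 2 : ℕ) : ℝ)) (fun _ _ => abs_nonneg _)
    (fun x hx y hy => crude_bound _ _ x y hx hy)
    ((r : ℝ) ^ 2 * (r - 6) / 4) (by have : (0 : ℝ) < r - 6 := by linarith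
                                    positivity)
    (by
      intro x hx y hy
      have hxy0 : x 0 ≤ y 0 := by
        have a1 : x 0 ≤ 1 / 2 := hx.2 0
        have a2 : 3 / 4 ≤ y 0 := hy.1 0
        linarith
      have hxy1 : ¬ x 1 ≤ y 1 := by
        have a1 : 1 / 2 ≤ x 1 := hx.1 1
        have a2 : y 1 ≤ 1 / 4 := hy.2 1
        linarith
      have := periodic_bound r hr4 x y hx hy
        (Finset.univ.filter (fun i : Fin (r ^ 2 * r ^ 2) => ∀ j : Fin 2,
              (x j ≤ y j ∧ x j ≤ PP r i j ∧ PP r i j < y j) ∨
              (y j < x j ∧ (PP r i j < y j ∨ x j ≤ PP r i j)))) (by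
        intro i
        simp only [Finset.mem_filter, Finset.mem_univ, true_and, Fin.forall_fin_two, hxy0,
          hxy1, not_lt.2 hxy0, not_le.1 hxy1, false_and, or_false, false_or])
      simpa only [Fin.prod_univ_two, if_pos hxy0, if_neg hxy1] using this)
  have h2 := hlo.trans (h1.trans (mul_le_mul_of_nonneg_left hup hC.le))
  have hr2 : (0 : ℝ) < (r : ℝ) ^ 2 := by positivity
  nlinarith

end Pool.Agent.S18406
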