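import Pool.Statements.S18419

set_option autoImplicit false
open Pool Pool.MP_c520af_nt

namespace Pool.Agent.S18419

/-- For every number field K there are maps (x,y) to (y, F_d(y) − δ_d x), with deg F_d = d and δ_d ≠ 0, for each d ≥ 2, whose number of K-rational periodic points eventually exceeds C·d for every constant C. -/
theorem result :
    ∀ (K : Type) [Field K] [NumberField K],
      ∃ (F : ℕ → Polynomial K) (δ : ℕ → K),
        (∀ d : ℕ, 2 ≤ d → (F d).natDegree = d ∧ δ d ≠ 0) ∧
        ∀ C : ℕ, ∃ D : ℕ, ∀ d : ℕ, 2 ≤ d → D ≤ d →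
          (((C * d : ℕ) : ℕ∞) <
            {P : K × K | ∃ n : ℕ, 1 ≤ n ∧
              (fun p : K × K => (p.2, (F d).eval p.2 - δ d * p.1))^[n] P = P}.encard) := by
  intro K _ _
  classical
  refine ⟨fun d => ∏ j ∈ Finset.range d, (Polynomial.X - Polynomial.C (j : K)) +
    Polynomial.C ((d : K) - 1), fun _ => 1, fun d hd => ⟨?_, one_ne_zero⟩,
    fun C => ⟨C + 1, fun d _ hd => ?_⟩⟩
  · rw [Polynomial.natDegree_add_C, Polynomial.natDegree_finsetProd_X_sub_C_eq_card,
      Finset.card_range]
  have h0 : ∀ j < d, Polynomial.eval (j : K) (∏ j ∈ Finset.range d,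
      (Polynomial.X - Polynomial.C (j : K)) + Polynomial.C ((d : K) - 1)) = d - 1 := fun j hj => by
    rw [Polynomial.eval_add, Polynomial.eval_prod,
      Finset.prod_eq_zero (Finset.mem_range.2 hj) (by simp), zero_add, Polynomial.eval_C]
  have h1 : ∀ j < d, Polynomial.eval ((d : K) - 1 - j) (∏ j ∈ Finset.range d,
      (Polynomial.X - Polynomial.C (j : K)) + Polynomial.C ((d : K) - 1)) = d - 1 := fun j hj => by
    have := h0 (d - 1 - j) (by omega)
    rwa [Nat.cast_sub (by omega), Nat.cast_sub (by omega), Nat.cast_one] at this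
  refine lt_of_lt_of_le ?_ (Set.encard_le_encard (s := ((Finset.range d ×ˢ Finset.range d).image
    fun z => ((z.1 : K), (z.2 : K)) : Finset (K × K))) fun P hP => ?_)
  · rw [Set.encard_coe_eq_coe_finsetCard, Finset.card_image_of_injective _ fun z w h =>
      Prod.ext (Nat.cast_injective (congrArg Prod.fst h)) (Nat.cast_injective (congrArg Prod.snd h)),
      Nat.cast_lt, Finset.card_product, Finset.card_range]
    nlinarith
  · obtain ⟨⟨i, j⟩, hz, rfl⟩ := Finset.mem_image.1 hP
    obtain ⟨hi, hj⟩ := Finset.mem_product.1 hz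
    rw [Finset.mem_range] at hi hj
    refine ⟨4, by norm_num, ?_⟩
    simp only [Function.iterate_succ, Function.iterate_zero, Function.comp, id, one_mul, h0 _ hj,
      h1 _ hi, h1 _ hj, sub_sub_cancel, h0 _ hi]

end Pool.Agent.S18419
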