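import Pool.Statements.S18633
import Pool.Agent.Lib.helper15.RestrC

set_option autoImplicit false
open Pool Pool.MP_d790dd_nt

namespace Pool.Agent.S18633

/-- If some h makes A minus any finite set an asymptotic basis of order at most h, then for some t every large integer is a sum of at most t distinct elements of A. -/
theorem result : ∀ A : Set ℕ,
    (∃ h : ℕ, ∀ F : Finset ℕ, ∃ N : ℕ, ∀ n ≥ N, ∃ s : Multiset ℕ,
        Multiset.card s ≤ h ∧ (∀ x ∈ s, x ∈ A ∧ x ∉ F) ∧ s.sum = n) →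
    ∃ t : ℕ, ∃ N : ℕ, ∀ n ≥ N, ∃ s : Finset ℕ,
        s.card ≤ t ∧ (↑s : Set ℕ) ⊆ A ∧ s.sum id = n := by
  rintro A ⟨k, hA⟩
  obtain ⟨t, N, h⟩ := Pool.Agent.Lib.helper15.Restr.removal A (fun F => by
    obtain ⟨N, hN⟩ := hA F
    refine ⟨k, N, fun m hm => ?_⟩
    obtain ⟨s, h1, h2, h3⟩ := hN m hm
    exact ⟨s, h2, h1, h3⟩)
  refine ⟨t, N, fun m hm => ?_⟩
  obtain ⟨T, h1, h2, h3⟩ := h m hm
  exact ⟨T, h2, fun a ha => h1 a ha, h3⟩

end Pool.Agent.S18633
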