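import Pool.Statements.S18664

set_option autoImplicit false
open Pool Pool.MP_daf011_nt

namespace Pool.Agent.S18664

open Polynomial

/-- For `q ≥ 1` the cubic `q x^3 + q x + 1` has a real root in `[-1/q, 0)`. -/
lemma exists_real_root (q : ℝ) (hq : 1 ≤ q) :
    ∃ r : ℝ, q * r ^ 3 + q * r + 1 = 0 ∧ r ≠ 0 ∧ r ^ 2 ≤ 1 / q ^ 2 := by
  have hq0 : 0 < q := by linarith
  have hcont : ContinuousOn (fun x : ℝ => q * x ^ 3 + q * x + 1) (Set.Icc (-(1 / q)) 0) := by
    fun_prop
  have hle : -(1 / q) ≤ 0 := by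
    have : 0 < 1 / q := by positivity
    linarith
  have hmem : (0 : ℝ) ∈ Set.Icc (q * (-(1 / q)) ^ 3 + q * (-(1 / q)) + 1) (q * (0:ℝ) ^ 3 + q * 0 + 1) := by
    constructor
    · have h1 : q * (-(1 / q)) + 1 = 0 := by field_simp; ring
      have h2 : q * (-(1 / q)) ^ 3 ≤ 0 := by
        have : (-(1 / q)) ^ 3 = -((1 / q) ^ 3) := by ring
        rw [this]
        have : 0 < q * (1 / q) ^ 3 := by positivity
        linarith
      linarith
    · norm_num
  obtain ⟨r, hr, hr0⟩ := intermediate_value_Icc hle hcont hmem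
  refine ⟨r, hr0, ?_, ?_⟩
  · rintro rfl
    norm_num at hr0
  · have h1 : -(1 / q) ≤ r := hr.1
    have h2 : r ≤ 0 := hr.2
    have : r ^ 2 ≤ (1 / q) ^ 2 := by nlinarith
    simpa using this

lemma root_norm (q r : ℝ) (hq : 1 ≤ q) (hr : q * r ^ 3 + q * r + 1 = 0) (z : ℂ)
    (hz : (q : ℂ) * z ^ 3 + q * z + 1 = 0) : ‖z‖ ^ 2 ≤ 1 + r ^ 2 := by
  have hq0 : (q : ℂ) ≠ 0 := by
    have : q ≠ 0 := by linarith
    exact_mod_cast this
  have hrC : (q : ℂ) * (r : ℂ) ^ 3 + q * r + 1 = 0 := by exact_mod_cast hr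
  have hfac : (q : ℂ) * ((z - r) * (z ^ 2 + r * z + 1 + r ^ 2)) = 0 := by
    linear_combination hz - hrC
  rcases mul_eq_zero.1 ((mul_eq_zero.1 hfac).resolve_left hq0) with h | h
  · have : z = r := by linear_combination h
    rw [this, Complex.norm_real, Real.norm_eq_abs, sq_abs]
    linarith
  · have hre := congrArg Complex.re h
    have him := congrArg Complex.im h
    simp [pow_two] at hre him
    rw [Complex.sq_norm, Complex.normSq_apply]
    have hy : z.im ≠ 0 := by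
      intro h0
      rw [h0] at hre
      nlinarith [sq_nonneg (z.re + r / 2), sq_nonneg r]
    have hx : z.re = -r / 2 := by
      have : z.im * (2 * z.re + r) = 0 := by linarith
      rcases mul_eq_zero.1 this with h1 | h1
      · exact absurd h1 hy
      · linarith
    rw [hx] at hre ⊢
    nlinarith

/-- The negation of the preceding statement: There is c>0 such that every integer polynomial of degree n≥1 with leading coefficient q that has a complex root of modulus >1 also has a complex root of modulus >1+c/(∣q∣n). -/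
theorem result :
    ¬ (∃ c : ℝ, 0 < c ∧
      ∀ P : Polynomial ℤ, 0 < P.natDegree →
        (∃ z : ℂ, Polynomial.aeval z P = 0 ∧ 1 < ‖z‖) →
        ∃ z : ℂ, Polynomial.aeval z P = 0 ∧
          1 + c / (|((P.leadingCoeff : ℤ) : ℝ)| * (P.natDegree : ℝ)) < ‖z‖) := by
  rintro ⟨c, hc, H⟩
  obtain ⟨N, hN⟩ := exists_nat_gt (3 / c)
  set q : ℤ := (N : ℤ) + 1 with hqdef
  have hq1 : (1 : ℝ) ≤ (q : ℝ) := by
    have : (0 : ℝ) ≤ N := Nat.cast_nonneg N
    simp only [hqdef]; push_cast; linarith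
  have hqN : 3 / c < (q : ℝ) := by
    simp only [hqdef]; push_cast; linarith
  have hq0 : q ≠ 0 := by
    intro h; rw [h] at hq1; norm_num at hq1
  set P : Polynomial ℤ := C q * X ^ 3 + C q * X + 1 with hP
  have hdeg : P.natDegree = 3 := by
    rw [hP]; compute_degree!
  have hlead : P.leadingCoeff = q := by
    rw [Polynomial.leadingCoeff, hdeg, hP]
    simp only [coeff_add, coeff_C_mul, coeff_X_pow, coeff_X, coeff_one]
    simp
  have haeval : ∀ z : ℂ, Polynomial.aeval z P = ((q : ℝ) : ℂ) * z ^ 3 + ((q : ℝ) : ℂ) * z + 1 := by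
    intro z
    simp [hP]
  obtain ⟨r, hr, hr0, hr2⟩ := exists_real_root (q : ℝ) hq1
  have hex : ∃ z : ℂ, Polynomial.aeval z P = 0 ∧ 1 < ‖z‖ := by
    set s : ℝ := Real.sqrt (1 + 3 * r ^ 2 / 4) with hs
    have hs2 : s ^ 2 = 1 + 3 * r ^ 2 / 4 := Real.sq_sqrt (by positivity)
    refine ⟨⟨-r / 2, s⟩, ?_, ?_⟩
    · rw [haeval]
      have hrC : (((q : ℝ)) : ℂ) * (r : ℂ) ^ 3 + ((q : ℝ) : ℂ) * r + 1 = 0 := by exact_mod_cast hr
      have hquad : (⟨-r / 2, s⟩ : ℂ) ^ 2 + r * ⟨-r / 2, s⟩ + 1 + r ^ 2 = 0 := by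
        apply Complex.ext
        · simp [pow_two]; nlinarith
        · simp [pow_two]; ring
      linear_combination hrC + ((q : ℝ) : ℂ) * ((⟨-r / 2, s⟩ : ℂ) - r) * hquad
    · have h1 : (1 : ℝ) ^ 2 < ‖(⟨-r / 2, s⟩ : ℂ)‖ ^ 2 := by
        rw [Complex.sq_norm, Complex.normSq_apply]
        have : 0 < r ^ 2 := by positivity
        simp only
        nlinarith
      exact lt_of_pow_lt_pow_left₀ 2 (norm_nonneg _) h1
  obtain ⟨z, hz, hlt⟩ := H P (by rw [hdeg]; norm_num) hex
  rw [haeval] at hz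
  have hb := root_norm (q : ℝ) r hq1 hr z hz
  rw [hlead, hdeg, abs_of_pos (by linarith)] at hlt
  have hqpos : (0 : ℝ) < q := by linarith
  have hcq : 3 < c * q := by
    rw [div_lt_iff₀ hc] at hqN; linarith
  have h1 : 1 / (q : ℝ) ^ 2 ≤ c / ((q : ℝ) * ((3 : ℕ) : ℝ)) := by
    rw [div_le_div_iff₀ (by positivity) (by positivity)]
    push_cast
    nlinarith
  have h2 : 0 ≤ c / ((q : ℝ) * ((3 : ℕ) : ℝ)) := by positivity
  nlinarith

end Pool.Agent.S18664
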