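import Pool.Statements.S18742
import Pool.Agent.Lib.helper29.Discrep

set_option autoImplicit false
open Classical
open Pool Pool.MP_e1a649_nt

namespace Pool.Agent.S18742

open Pool.Agent.Lib.H29.Discrep

/-- The negation of the preceding statement: For every p ≥ 1 and d ≥ 1 there is C > 0 such that every N-point family in [0,1)^d has periodic L_p discrepancy (over wrap-around boxes) at most C times its star L_p discrepancy (over anchored boxes). -/
theorem result :
    ¬ (∀ p : ℝ, 1 ≤ p → ∀ d : ℕ, 1 ≤ d → ∃ C : ℝ, 0 < C ∧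
      ∀ N : ℕ, ∀ P : Fin N → Fin d → ℝ, (∀ i j, 0 ≤ P i j ∧ P i j < 1) →
        (∫ x in Set.Icc (0 : Fin d → ℝ) 1, ∫ y in Set.Icc (0 : Fin d → ℝ) 1,
            |((Finset.univ.filter (fun i : Fin N => ∀ j : Fin d,
                  if x j ≤ y j then (x j ≤ P i j ∧ P i j < y j)
                  else (P i j < y j ∨ x j ≤ P i j))).card : ℝ)
              - (N : ℝ) * ∏ j : Fin d, (if x j ≤ y j then y j - x j else 1 - x j + y j)| ^ p)
          ^ (1 / p)
        ≤ C * (∫ t in Set.Icc (0 : Fin d → ℝ) 1,
            |((Finset.univ.filter (fun i : Fin N => ∀ j : Fin d, P i j < t j)).card : ℝ)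
              - (N : ℝ) * ∏ j : Fin d, t j| ^ p) ^ (1 / p)) := by
  intro h
  obtain ⟨C, hC, h⟩ := h 1 le_rfl 2 (by norm_num)
  obtain ⟨r, hr⟩ := exists_nat_gt (3072 * C + 6)
  have hr6 : (6 : ℝ) < r := by linarith
  have hr4 : 4 ≤ r := by
    have : (4 : ℝ) ≤ r := by linarith
    exact_mod_cast this
  have h1 := h (r ^ 2 * r ^ 2) (PP r) (PP_mem r (by omega))
  simp only [div_one, Real.rpow_one] at h1
  have hup := upper_int r (by omega) (fun t =>
      |((Finset.univ.filter (fun i : Fin (r ^ 2 * r ^ 2) => ∀ j : Fin 2, PP r i j < t j)).card : ℝ)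
              - ((r ^ 2 * r ^ 2 : ℕ) : ℝ) * ∏ j : Fin 2, t j|) (fun _ => abs_nonneg _) (by
    intro y hy
    have := extreme_bound r (by omega) 0 y le_rfl hy.1 hy.2
      (Finset.univ.filter (fun i : Fin (r ^ 2 * r ^ 2) => ∀ j : Fin 2, PP r i j < y j)) (by
        intro i
        simp only [Finset.mem_filter, Finset.mem_univ, true_and, Pi.zero_apply]
        exact forall_congr' (fun j => ⟨fun h => ⟨(PP_mem r (by omega) i j).1, h⟩, fun h => h.2⟩))
    simpa only [Pi.zero_apply, sub_zero] using this)
  have hlo := lower_int (fun x y =>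
      |((Finset.univ.filter (fun i : Fin (r ^ 2 * r ^ 2) => ∀ j : Fin 2,
                  if x j ≤ y j then (x j ≤ PP r i j ∧ PP r i j < y j)
                  else (PP r i j < y j ∨ x j ≤ PP r i j))).card : ℝ)
              - ((r ^ 2 * r ^ 2 : ℕ) : ℝ) *
                ∏ j : Fin 2, (if x j ≤ y j then y j - x j else 1 - x j + y j)|)
    (by
      refine Measurable.abs (Measurable.sub ?_ (Measurable.const_mul ?_ _))
      · simp only [Finset.card_filter, Nat.cast_sum, Nat.cast_ite, Nat.cast_one, Nat.cast_zero]
        refine Finset.measurable_sum _ (fun i _ => Measurable.ite ?_ measurable_const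
          measurable_const)
        refine measurableSet_setOf.2 (Measurable.forall (fun j => ?_))
        refine Measurable.ite (measurableSet_le (by fun_prop) (by fun_prop)) ?_ ?_
        · exact (measurableSet_setOf.1 (measurableSet_le (by fun_prop) (by fun_prop))).and
            (measurableSet_setOf.1 (measurableSet_lt (by fun_prop) (by fun_prop)))
        · exact (measurableSet_setOf.1 (measurableSet_lt (by fun_prop) (by fun_prop))).or
            (measurableSet_setOf.1 (measurableSet_le (by fun_prop) (by fun_prop)))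
      · refine Finset.measurable_prod _ (fun j _ => ?_)
        exact Measurable.ite (measurableSet_le (by fun_prop) (by fun_prop)) (by fun_prop)
          (by fun_prop))
    (2 * ((r ^ 2 * r ^ 2 : ℕ) : ℝ)) (fun _ _ => abs_nonneg _)
    (fun x hx y hy => crude_bound _ _ x y hx hy)
    ((r : ℝ) ^ 2 * (r - 6) / 4) (by have : (0 : ℝ) < r - 6 := by linarith
                                    positivity)
    (by
      intro x hx y hy
      have hxy0 : x 0 ≤ y 0 := by
        have a1 : x 0 ≤ 1 / 2 := hx.2 0
        have a2 : 3 / 4 ≤ y 0 := hy.1 0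
        linarith
      have hxy1 : ¬ x 1 ≤ y 1 := by
        have a1 : 1 / 2 ≤ x 1 := hx.1 1
        have a2 : y 1 ≤ 1 / 4 := hy.2 1
        linarith
      have := periodic_bound r hr4 x y hx hy
        (Finset.univ.filter (fun i : Fin (r ^ 2 * r ^ 2) => ∀ j : Fin 2,
                  if x j ≤ y j then (x j ≤ PP r i j ∧ PP r i j < y j)
                  else (PP r i j < y j ∨ x j ≤ PP r i j))) (by
        intro i
        simp only [Finset.mem_filter, Finset.mem_univ, true_and, Fin.forall_fin_two, if_pos hxy0,
          if_neg hxy1])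
      simpa only [Fin.prod_univ_two, if_pos hxy0, if_neg hxy1] using this)
  have h2 := hlo.trans (h1.trans (mul_le_mul_of_nonneg_left hup hC.le))
  have hr2 : (0 : ℝ) < (r : ℝ) ^ 2 := by positivity
  nlinarith

end Pool.Agent.S18742
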