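import Pool.Statements.S18882
import Pool.Agent.Lib.helper13.Aper

set_option autoImplicit false
open Pool Pool.MP_ed6ba5_nt

namespace Pool.Agent.S18882

/-- The negation of the preceding statement: For any positive initial terms a₀<…<a_{k−1}, if each later term is the least integer above the previous one that is not a sum of two earlier terms with distinct indices, then the gaps a_{n+1}−a_n are eventually periodic. -/
theorem result :
    ¬ (∀ (k : ℕ) (a : ℕ → ℕ), 1 ≤ k → 1 ≤ a 0 → StrictMono a →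
      (∀ n, k ≤ n →
        (¬ ∃ i j, i < j ∧ j < n ∧ a i + a j = a n) ∧
        (∀ m, a (n - 1) < m → m < a n → ∃ i j, i < j ∧ j < n ∧ a i + a j = m)) →
      ∃ p : ℕ, 0 < p ∧ ∃ N : ℕ, ∀ n, N ≤ n →
        a (n + p + 1) - a (n + p) = a (n + 1) - a n) := by
  intro H
  obtain ⟨S, hS⟩ := H13Ap.queneau
  obtain ⟨a, h1, h2, h3, h4, h5⟩ := H13Ap.seq hS
  obtain ⟨p, hp, N, hN⟩ := H 40001 a (by omega) h2 h1 fun n hn =>
    ⟨fun ⟨i, j, hij, _, e⟩ => h3 i j n (fun _ => hij.ne) e, fun x a1 a2 => by
      obtain ⟨i, j, hi, hj, hd, e⟩ := h4 (n - 1) x (by omega) a1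
        (by rw [show n - 1 + 1 = n by omega]; omega)
      rcases lt_or_gt_of_ne (hd trivial) with h | h
      exacts [⟨i, j, h, by omega, e⟩, ⟨j, i, h, by omega, by omega⟩]⟩
  refine h5 p N hp fun n hn => ?_
  have := hN n hn
  have := h1 (show n + p < n + p + 1 by omega)
  have := h1 (show n < n + 1 by omega)
  omega

end Pool.Agent.S18882
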