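import Pool.Statements.S19070
import Pool.Agent.Lib.helper3.BarnesD

set_option autoImplicit false
open Pool Pool.MP_fcb754_nt

namespace Pool.Agent.S19070

open Complex Filter Asymptotics MeasureTheory in
/-- The Lindelof-type bound for the Barnes zeta function fails for weights `(1, α)` with `α` a
Liouville number, on the line `σ = 1`. -/
theorem result :
    ¬ (∀ (r : ℕ), 1 ≤ r → ∀ (a : ℝ), 0 < a → ∀ (w : Fin r → ℝ), (∀ j, 0 < w j) →
      ∀ F : ℂ → ℂ,
        DifferentiableOn ℂ F {s : ℂ | ∀ k : ℕ, 1 ≤ k → k ≤ r → s ≠ (k : ℂ)} →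
        (∀ s : ℂ, (r : ℝ) < s.re →
          F s = ∑' m : Fin r → ℕ, (((a + ∑ j, (m j : ℝ) * w j : ℝ) : ℂ) ^ (-s))) →
        ∀ ε : ℝ, 0 < ε → ∀ σ₁ : ℝ, ∃ C : ℝ, ∀ σ t : ℝ,
          (r : ℝ) - (Module.finrank ℚ (Submodule.span ℚ (Set.range w)) : ℝ) / 2 ≤ σ →
          σ ≤ σ₁ → 1 ≤ t →
          ‖F ((σ : ℂ) + (t : ℂ) * Complex.I)‖ ≤ C * t ^ ε) := by
  intro H
  set α : ℝ := liouvilleNumber (2 : ℕ) with hαdef
  have hL : Liouville α := liouville_liouvilleNumber le_rfl
  have hα : 0 < α := by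
    rw [hαdef, liouvilleNumber]
    exact (LiouvilleNumber.summable (by norm_num)).tsum_pos (fun i => by positivity) 0
      (by positivity)
  obtain ⟨B, hB, hser, hdec⟩ := Pool.Agent.H3Barnes.exists_F hα
  have hdiff : ∀ s : ℂ, s ≠ 1 → s ≠ 2 →
      DifferentiableAt ℂ (fun s => B s / ((s - 1) * (s - 2))) s := fun s h1 h2 =>
    (hB s).div (by fun_prop) (mul_ne_zero (sub_ne_zero.mpr h1) (sub_ne_zero.mpr h2))
  have hli : LinearIndependent ℚ ![(1:ℝ), α] := by
    rw [LinearIndependent.pair_iff]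
    intro p q hpq
    by_cases hq : q = 0
    · subst hq; simpa using hpq
    · exfalso
      apply hL.irrational
      refine ⟨-p / q, ?_⟩
      have hq' : (q:ℝ) ≠ 0 := by exact_mod_cast hq
      simp only [Rat.smul_def, mul_one] at hpq
      push_cast
      field_simp
      linarith
  have hcont : ContinuousOn (fun t : ℝ =>
      (fun s => B s / ((s - 1) * (s - 2))) (1 + t * I)) (Set.Ici 1) := by
    intro t ht
    have ht' : (1:ℝ) ≤ t := ht
    refine ContinuousAt.continuousWithinAt ?_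
    refine ContinuousAt.comp (f := fun t : ℝ => (1:ℂ) + t * I)
      (hdiff _ ?_ ?_).continuousAt (by fun_prop)
    · intro h; have := congrArg im h; simp at this; linarith
    · intro h; have := congrArg im h; simp at this; linarith
  obtain ⟨C, hC⟩ := H 2 (by norm_num) 1 one_pos ![1, α]
    (by intro j; fin_cases j <;> simp [hα]) (fun s => B s / ((s - 1) * (s - 2)))
    (by
      intro s hs
      have h1 := hs 1 le_rfl (by norm_num)
      have h2 := hs 2 (by norm_num) le_rfl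
      exact (hdiff s (by simpa using h1) (by simpa using h2)).differentiableWithinAt)
    (by
      intro s hs
      have hs' : 2 < s.re := by simpa using hs
      rw [hser s hs']
      have h := (Pool.Agent.H3Barnes.zeta_summable hα hs').hasSum
      rw [← (finTwoArrowEquiv ℕ).hasSum_iff] at h
      refine (HasSum.tsum_eq ?_).symm
      refine (congrArg (fun f => HasSum f _) (funext fun m => ?_)).mpr h
      simp [Pool.Agent.H3Barnes.lam, Fin.sum_univ_two])
    (1 / 8) (by norm_num) 1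
  rw [finrank_span_eq_card hli] at hC
  apply Pool.Agent.H3Barnes.main hα hL (fun s => B s / ((s - 1) * (s - 2))) hdec hcont
  refine IsBigO.of_bound (C ^ 2) ?_
  filter_upwards [eventually_ge_atTop (1:ℝ)] with T hT
  have i1 : IntervalIntegrable (fun t : ℝ =>
      ‖(fun s => B s / ((s - 1) * (s - 2))) (1 + t * I)‖ ^ 2) volume 1 T := by
    apply ContinuousOn.intervalIntegrable
    rw [Set.uIcc_of_le hT]
    exact ((hcont.mono Set.Icc_subset_Ici_self).norm).pow 2
  have hpt : ∀ t ∈ Set.Icc (1:ℝ) T,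
      ‖(fun s => B s / ((s - 1) * (s - 2))) (1 + t * I)‖ ^ 2 ≤ C ^ 2 * T ^ (1 / 4 : ℝ) := by
    intro t ht
    have h1 := hC 1 t (by norm_num) le_rfl ht.1
    have ht0 : 0 ≤ t := by linarith [ht.1]
    simp only [ofReal_one] at h1
    have h2 : (C * t ^ (1 / 8 : ℝ)) ^ 2 = C ^ 2 * t ^ (1 / 4 : ℝ) := by
      rw [mul_pow, ← Real.rpow_natCast (t ^ (1 / 8 : ℝ)), ← Real.rpow_mul ht0]
      norm_num
    have h3 : t ^ (1 / 4 : ℝ) ≤ T ^ (1 / 4 : ℝ) := Real.rpow_le_rpow ht0 ht.2 (by norm_num)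
    calc _ ≤ (C * t ^ (1 / 8 : ℝ)) ^ 2 := pow_le_pow_left₀ (norm_nonneg _) h1 2
      _ = C ^ 2 * t ^ (1 / 4 : ℝ) := h2
      _ ≤ _ := by gcongr
  have m := intervalIntegral.integral_mono_on (μ := volume) hT i1
    (g := fun _ => C ^ 2 * T ^ (1 / 4 : ℝ)) (by simp) hpt
  rw [intervalIntegral.integral_const] at m
  have nn : 0 ≤ ∫ t in (1:ℝ)..T,
      ‖(fun s => B s / ((s - 1) * (s - 2))) (1 + t * I)‖ ^ 2 :=
    intervalIntegral.integral_nonneg hT (fun _ _ => by positivity)
  have hT0 : 0 < T := by linarith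
  have e : T ^ (5 / 4 : ℝ) = T * T ^ (1 / 4 : ℝ) := by
    rw [show (5 / 4 : ℝ) = 1 + 1 / 4 by norm_num, Real.rpow_add hT0, Real.rpow_one]
  rw [Real.norm_eq_abs, Real.norm_eq_abs, abs_of_nonneg nn, abs_of_nonneg (by positivity), e]
  simp only [smul_eq_mul] at m
  have : 0 ≤ C ^ 2 * T ^ (1 / 4 : ℝ) := by positivity
  nlinarith

end Pool.Agent.S19070
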