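import Pool.Statements.S19120

set_option autoImplicit false
open Pool Pool.MP_056b6b_pr

namespace Pool.Agent.S19120

def dir : Fin 5 → ℤ × ℤ := ![(0, 1), (0, 1), (1, 0), (0, -1), (-1, 0)]

def rot (r : Fin 5) : ℕ → Fin 5
  | 0 => r
  | m + 1 => rot r m + 1

def cnt (r : Fin 5) (D : ℤ × ℤ) : ℕ → ℕ
  | 0 => 0
  | m + 1 => cnt r D m + if dir (rot r m + 1) = D then 1 else 0

lemma rot_add (r : Fin 5) (m k : ℕ) : rot r (m + k) = rot (rot r m) k := by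
  induction k with
  | zero => rfl
  | succ k ih => show rot r (m + k) + 1 = rot (rot r m) k + 1; rw [ih]

lemma cnt_add (r : Fin 5) (D : ℤ × ℤ) (m k : ℕ) :
    cnt r D (m + k) = cnt r D m + cnt (rot r m) D k := by
  induction k with
  | zero => rfl
  | succ k ih =>
    show cnt r D (m + k) + (if dir (rot r (m + k) + 1) = D then 1 else 0) =
      cnt r D m + (cnt (rot r m) D k + if dir (rot (rot r m) k + 1) = D then 1 else 0)
    rw [ih, rot_add, add_assoc]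

lemma cnt_mono (r : Fin 5) (D : ℤ × ℤ) {m k : ℕ} (h : m ≤ k) : cnt r D m ≤ cnt r D k := by
  obtain ⟨j, rfl⟩ := Nat.exists_eq_add_of_le h
  rw [cnt_add]; omega

lemma cnt_five : ∀ r : Fin 5, cnt r (0, 1) 5 = 2 ∧ cnt r (1, 0) 5 = 1 ∧ cnt r (0, -1) 5 = 1 ∧
    cnt r (-1, 0) 5 = 1 := by decide

def inn (r₀ : ℤ × ℤ → Fin 5) (c : ℤ × ℤ → ℕ) (v : ℤ × ℤ) : ℕ :=
  cnt (r₀ (v.1, v.2 - 1)) (0, 1) (c (v.1, v.2 - 1)) +
  cnt (r₀ (v.1 - 1, v.2)) (1, 0) (c (v.1 - 1, v.2)) +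
  cnt (r₀ (v.1, v.2 + 1)) (0, -1) (c (v.1, v.2 + 1)) +
  cnt (r₀ (v.1 + 1, v.2)) (-1, 0) (c (v.1 + 1, v.2))

def step (s : (ℤ × ℤ) × (ℤ × ℤ → Fin 5)) : (ℤ × ℤ) × (ℤ × ℤ → Fin 5) :=
  (s.1 + dir (s.2 s.1 + 1), Function.update s.2 s.1 (s.2 s.1 + 1))

def st (r₀ : ℤ × ℤ → Fin 5) (t : ℕ) : (ℤ × ℤ) × (ℤ × ℤ → Fin 5) := step^[t] ((0, 0), r₀)

lemma st_succ (r₀ : ℤ × ℤ → Fin 5) (t : ℕ) : st r₀ (t + 1) = step (st r₀ t) :=
  Function.iterate_succ_apply' _ _ _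

def vis (r₀ : ℤ × ℤ → Fin 5) : ℕ → ℤ × ℤ → ℕ
  | 0, _ => 0
  | t + 1, v => vis r₀ t v + if (st r₀ t).1 = v then 1 else 0

lemma rot_vis (r₀ : ℤ × ℤ → Fin 5) (t : ℕ) (v : ℤ × ℤ) :
    (st r₀ t).2 v = rot (r₀ v) (vis r₀ t v) := by
  induction t with
  | zero => rfl
  | succ t ih =>
    rw [st_succ]
    by_cases h : (st r₀ t).1 = v
    · simp only [step, vis, h, if_true, Function.update_self, rot, ih]
    · simp only [step, vis, h, if_false, add_zero]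
      rw [Function.update_of_ne (Ne.symm h), ih]

lemma cnt_vis (r₀ : ℤ × ℤ → Fin 5) (t : ℕ) (w D : ℤ × ℤ) :
    cnt (r₀ w) D (vis r₀ (t + 1) w) = cnt (r₀ w) D (vis r₀ t w) +
      if (st r₀ t).1 = w ∧ dir ((st r₀ t).2 (st r₀ t).1 + 1) = D then 1 else 0 := by
  by_cases h : (st r₀ t).1 = w
  · simp only [vis, h, if_true, true_and, cnt, rot, rot_vis]
  · simp only [vis, h, if_false, false_and, add_zero]

lemma dir_cases (i : Fin 5) : dir i = (0, 1) ∨ dir i = (1, 0) ∨ dir i = (0, -1) ∨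
    dir i = (-1, 0) := by
  revert i; decide

lemma four (i : Fin 5) (w v : ℤ × ℤ) :
    (if w = (v.1, v.2 - 1) ∧ dir i = (0, 1) then 1 else 0) +
    (if w = (v.1 - 1, v.2) ∧ dir i = (1, 0) then 1 else 0) +
    (if w = (v.1, v.2 + 1) ∧ dir i = (0, -1) then 1 else 0) +
    (if w = (v.1 + 1, v.2) ∧ dir i = (-1, 0) then 1 else 0) =
      if w + dir i = v then 1 else 0 := by
  obtain ⟨x, y⟩ := v
  obtain ⟨a, b⟩ := w
  rcases dir_cases i with h | h | h | h <;> rw [h] <;>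
    simp [Prod.ext_iff] <;> split_ifs <;> omega

lemma inv2 (r₀ : ℤ × ℤ → Fin 5) (t : ℕ) (v : ℤ × ℤ) :
    inn r₀ (vis r₀ t) v + (if v = (0, 0) then 1 else 0) =
      vis r₀ t v + if (st r₀ t).1 = v then 1 else 0 := by
  induction t with
  | zero =>
    have : (st r₀ 0).1 = (0, 0) := rfl
    simp only [inn, vis, cnt, this, eq_comm]
  | succ t ih =>
    have h1 : inn r₀ (vis r₀ (t + 1)) v = inn r₀ (vis r₀ t) v +
        if (st r₀ (t + 1)).1 = v then 1 else 0 := by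
      unfold inn
      rw [cnt_vis, cnt_vis, cnt_vis, cnt_vis, st_succ]
      have e : (step (st r₀ t)).1 = (st r₀ t).1 + dir ((st r₀ t).2 (st r₀ t).1 + 1) := rfl
      rw [e]
      generalize (st r₀ t).2 (st r₀ t).1 + 1 = i
      generalize (st r₀ t).1 = w
      have := four i w v
      omega
    rw [h1]
    show _ = vis r₀ t v + (if (st r₀ t).1 = v then 1 else 0) + _
    omega

lemma least_action (r₀ : ℤ × ℤ → Fin 5) (u : ℤ × ℤ → ℕ) (F : Finset (ℤ × ℤ))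
    (hF : ∀ v, u v ≠ 0 → v ∈ F) (hu : ∀ v, inn r₀ u v ≤ u v)
    (h0 : ∀ t, vis r₀ t (0, 0) ≤ u (0, 0)) : False := by
  have h1 : ∀ t v, vis r₀ t v ≤ u v := by
    intro t
    induction t with
    | zero => intro v; exact Nat.zero_le _
    | succ t ih =>
      intro v
      by_cases hv : v = (0, 0)
      · rw [hv]; exact h0 _
      · have h2 := inv2 r₀ t v
        have h3 : inn r₀ (vis r₀ t) v ≤ inn r₀ u v := by
          unfold inn
          gcongr <;> exact cnt_mono _ _ (ih _)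
        have h4 := hu v
        rw [if_neg hv] at h2
        show vis r₀ t v + (if (st r₀ t).1 = v then 1 else 0) ≤ u v
        omega
  have h2 : ∀ t, ∑ v ∈ F, vis r₀ t v = t := by
    intro t
    induction t with
    | zero => simp [vis]
    | succ t ih =>
      have h3 : (st r₀ t).1 ∈ F := by
        apply hF
        have := h1 (t + 1) (st r₀ t).1
        simp only [vis, if_true] at this
        omega
      simp only [vis, Finset.sum_add_distrib, ih, Finset.sum_ite_eq, h3, if_true]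
  have h3 := h2 (∑ v ∈ F, u v + 1)
  have h4 : ∑ v ∈ F, vis r₀ (∑ v ∈ F, u v + 1) v ≤ ∑ v ∈ F, u v :=
    Finset.sum_le_sum fun v _ => h1 _ v
  omega

abbrev Fu (a x y : ℤ) : Prop := -a ≤ x ∧ x ≤ a ∧ -a ≤ y ∧ y ≤ a
def code (a x y : ℤ) : Fin 8 :=
  if a + 2 ≤ y then
    if x < -a then 0 else if x < 2 * a + 2 - y then 1 else if 3 * a + 2 < y then 0 else
    if x < y then 2 else if x ≤ 3 * a + 2 then 3 else 0
  else if y ≤ -a - 2 then
    if x < -a then 0 else if x ≤ 2 * a + 2 + y then 1 else if y < -3 * a - 2 then 0 else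
    if x ≤ -y then 4 else if x ≤ 3 * a + 2 then 3 else 0
  else if x < -a - 1 then 0 else
    if x < -a then (if y < -a then 0 else 2) else
    if x ≤ a then (if a < y then 5 else if y < -a then 6 else 7) else
    if x ≤ a + 1 then (if y < -a then 0 else 4) else
    if x ≤ 3 * a + 2 then 3 else 0

def tyc : Fin 8 → Fin 5 × ℕ := ![(0, 0), (4, 1), (1, 1), (2, 1), (3, 1), (1, 4), (4, 2), (0, 5)]

def ty (a x y : ℤ) : Fin 5 × ℕ := tyc (code a x y)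

def gc (D : ℤ × ℤ) (c : Fin 8) : ℕ := cnt (tyc c).1 D (tyc c).2

def gN (a x y : ℤ) : ℕ := gc (0, 1) (code a x y)
def gE (a x y : ℤ) : ℕ := gc (1, 0) (code a x y)
def gS (a x y : ℤ) : ℕ := gc (0, -1) (code a x y)
def gW (a x y : ℤ) : ℕ := gc (-1, 0) (code a x y)

lemma ty_cnt (a x y : ℤ) :
    cnt (ty a x y).1 (0, 1) (ty a x y).2 = gN a x y ∧
    cnt (ty a x y).1 (1, 0) (ty a x y).2 = gE a x y ∧
    cnt (ty a x y).1 (0, -1) (ty a x y).2 = gS a x y ∧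
    cnt (ty a x y).1 (-1, 0) (ty a x y).2 = gW a x y := ⟨rfl, rfl, rfl, rfl⟩

lemma code_cases (a x y : ℤ) (ha : 0 ≤ a) :
    (code a x y = 0 ∧ (x < -a - 1 ∨ 3 * a + 2 < x ∨ y < -3 * a - 2 ∨ 3 * a + 2 < y ∨
      (x < -a ∧ (y < -a ∨ a + 1 < y)) ∨ (x = a + 1 ∧ y = -a - 1))) ∨
    (code a x y = 1 ∧ -a ≤ x ∧ a + 2 ≤ y ∧ x < 2 * a + 2 - y) ∨
    (code a x y = 1 ∧ -a ≤ x ∧ y ≤ -a - 2 ∧ x ≤ 2 * a + 2 + y) ∨
    (code a x y = 2 ∧ a + 2 ≤ y ∧ y ≤ 3 * a + 2 ∧ 2 * a + 2 - y ≤ x ∧ x < y) ∨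
    (code a x y = 2 ∧ x = -a - 1 ∧ -a ≤ y ∧ y ≤ a + 1) ∨
    (code a x y = 3 ∧ a + 2 ≤ x ∧ x ≤ 3 * a + 2 ∧ -x < y ∧ y ≤ x) ∨
    (code a x y = 4 ∧ -3 * a - 2 ≤ y ∧ y ≤ -a - 2 ∧ 2 * a + 2 + y < x ∧ x ≤ -y) ∨
    (code a x y = 4 ∧ x = a + 1 ∧ -a ≤ y ∧ y ≤ a + 1) ∨
    (code a x y = 5 ∧ -a ≤ x ∧ x ≤ a ∧ y = a + 1) ∨
    (code a x y = 6 ∧ -a ≤ x ∧ x ≤ a ∧ y = -a - 1) ∨
    (code a x y = 7 ∧ Fu a x y) := by
  unfold code
  split_ifs <;> simp <;> omega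

lemma gN_cases (a x y : ℤ) (ha : 0 ≤ a) : gN a x y = 0 ∨
    (gN a x y = 1 ∧ -a ≤ x ∧ x ≤ a ∧ a + 1 ≤ y ∧ x < 2 * a + 2 - y) ∨
    (gN a x y = 1 ∧ -a ≤ x ∧ y ≤ -a - 2 ∧ x ≤ 2 * a + 2 + y) ∨
    (gN a x y = 2 ∧ -a ≤ x ∧ x ≤ a ∧ -a - 1 ≤ y ∧ y ≤ a) := by
  have e : ∀ c, gc (0, 1) c = ![0, 1, 0, 0, 0, 1, 2, 2] c := by decide
  unfold gN
  rcases code_cases a x y ha with h | h | h | h | h | h | h | h | h | h | h <;>
    rw [h.1, e] <;> simp <;> omega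

lemma gE_cases (a x y : ℤ) (ha : 0 ≤ a) : gE a x y = 0 ∨
    (gE a x y = 1 ∧ a + 2 ≤ y ∧ y ≤ 3 * a + 2 ∧ 2 * a + 2 - y ≤ x ∧ x < y) ∨
    (gE a x y = 1 ∧ -a - 1 ≤ x ∧ x ≤ a ∧ -a ≤ y ∧ y ≤ a + 1) := by
  have e : ∀ c, gc (1, 0) c = ![0, 0, 1, 0, 0, 1, 0, 1] c := by decide
  unfold gE
  rcases code_cases a x y ha with h | h | h | h | h | h | h | h | h | h | h <;>
    rw [h.1, e] <;> simp <;> omega

lemma gS_cases (a x y : ℤ) (ha : 0 ≤ a) : gS a x y = 0 ∨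
    (gS a x y = 1 ∧ a + 2 ≤ x ∧ x ≤ 3 * a + 2 ∧ -x < y ∧ y ≤ x) ∨
    (gS a x y = 1 ∧ -a ≤ x ∧ x ≤ a ∧ -a ≤ y ∧ y ≤ a + 1) := by
  have e : ∀ c, gc (0, -1) c = ![0, 0, 0, 1, 0, 1, 0, 1] c := by decide
  unfold gS
  rcases code_cases a x y ha with h | h | h | h | h | h | h | h | h | h | h <;>
    rw [h.1, e] <;> simp <;> omega

lemma gW_cases (a x y : ℤ) (ha : 0 ≤ a) : gW a x y = 0 ∨
    (gW a x y = 1 ∧ -3 * a - 2 ≤ y ∧ y ≤ -a - 2 ∧ 2 * a + 2 + y < x ∧ x ≤ -y) ∨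
    (gW a x y = 1 ∧ -a ≤ x ∧ x ≤ a + 1 ∧ -a ≤ y ∧ y ≤ a + 1) := by
  have e : ∀ c, gc (-1, 0) c = ![0, 0, 0, 0, 1, 1, 0, 1] c := by decide
  unfold gW
  rcases code_cases a x y ha with h | h | h | h | h | h | h | h | h | h | h <;>
    rw [h.1, e] <;> simp <;> omega

lemma stage (a x y : ℤ) (ha : 0 ≤ a) :
    gN a x (y - 1) + gE a (x - 1) y + gS a x (y + 1) + gW a (x + 1) y ≤ (ty a x y).2 := by
  have e : ∀ c, (tyc c).2 = ![0, 1, 1, 1, 1, 4, 2, 5] c := by decide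
  have h1 := gN_cases a x (y - 1) ha
  have h2 := gE_cases a (x - 1) y ha
  have h3 := gS_cases a x (y + 1) ha
  have h4 := gW_cases a (x + 1) y ha
  unfold ty
  rcases code_cases a x y ha with h | h | h | h | h | h | h | h | h | h | h <;>
    rw [h.1, e] <;> simp <;> omega

lemma ty_out (a x y : ℤ) (ha : 0 ≤ a) (h : ¬ Fu (3 * a + 2) x y) : (ty a x y).2 = 0 := by
  unfold ty
  rcases code_cases a x y ha with h | h | h | h | h | h | h | h | h | h | h <;>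
    first | (exfalso; omega) | (rw [h.1]; rfl)

lemma ty_full (a x y : ℤ) (ha : 0 ≤ a) (h : Fu a x y) : ty a x y = (0, 5) := by
  unfold ty
  rcases code_cases a x y ha with h | h | h | h | h | h | h | h | h | h | h <;>
    first | (exfalso; omega) | (rw [h.1]; rfl)

def R : ℕ → ℤ
  | 0 => 0
  | k + 1 => 3 * R k + 2

lemma R_nonneg (k : ℕ) : 0 ≤ R k := by
  induction k with
  | zero => exact le_rfl
  | succ k ih => simp only [R]; omega

lemma R_mono : Monotone R := monotone_nat_of_le_succ fun k => by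
  have := R_nonneg k
  simp only [R]; omega

open Classical in
noncomputable def r0 (v : ℤ × ℤ) : Fin 5 :=
  if h : ∃ k, ¬ Fu (R k) v.1 v.2 ∧ Fu (R (k + 1)) v.1 v.2 then (ty (R h.choose) v.1 v.2).1 else 0

lemma r0_eq (k : ℕ) (x y : ℤ) (h1 : ¬ Fu (R k) x y) (h2 : Fu (R (k + 1)) x y) :
    r0 (x, y) = (ty (R k) x y).1 := by
  have h : ∃ k, ¬ Fu (R k) (x, y).1 (x, y).2 ∧ Fu (R (k + 1)) (x, y).1 (x, y).2 := ⟨k, h1, h2⟩
  unfold r0
  rw [dif_pos h]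
  have hs := h.choose_spec
  have : h.choose = k := by
    rcases lt_trichotomy h.choose k with h3 | h3 | h3
    · have := R_mono (show h.choose + 1 ≤ k from h3)
      exfalso; simp only at hs; omega
    · exact h3
    · have := R_mono (show k + 1 ≤ h.choose from h3)
      exfalso; simp only at hs; omega
  rw [this]

def U : ℕ → ℤ × ℤ → ℕ
  | 0, _ => 0
  | n + 1, v => U n v + (ty (R n) v.1 v.2).2

lemma U_out (n : ℕ) (x y : ℤ) (h : ¬ Fu (R n) x y) : U n (x, y) = 0 := by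
  induction n with
  | zero => rfl
  | succ n ih =>
    have h1 := R_nonneg n
    have h2 : R (n + 1) = 3 * R n + 2 := rfl
    rw [h2] at h
    simp only [U]
    rw [ty_out _ _ _ h1 h, ih (by omega)]

lemma cnt_U (n : ℕ) (x y : ℤ) :
    cnt (r0 (x, y)) (0, 1) (U (n + 1) (x, y)) = cnt (r0 (x, y)) (0, 1) (U n (x, y)) + gN (R n) x y ∧
    cnt (r0 (x, y)) (1, 0) (U (n + 1) (x, y)) = cnt (r0 (x, y)) (1, 0) (U n (x, y)) + gE (R n) x y ∧
    cnt (r0 (x, y)) (0, -1) (U (n + 1) (x, y)) =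
      cnt (r0 (x, y)) (0, -1) (U n (x, y)) + gS (R n) x y ∧
    cnt (r0 (x, y)) (-1, 0) (U (n + 1) (x, y)) =
      cnt (r0 (x, y)) (-1, 0) (U n (x, y)) + gW (R n) x y := by
  have h0 := R_nonneg n
  have hc := ty_cnt (R n) x y
  have e : U (n + 1) (x, y) = U n (x, y) + (ty (R n) x y).2 := rfl
  rw [e]
  simp only [cnt_add]
  by_cases h1 : Fu (R n) x y
  · have e5 : ty (R n) x y = (0, 5) := ty_full _ _ _ h0 h1
    rw [e5] at hc ⊢
    have h5 := cnt_five (rot (r0 (x, y)) (U n (x, y)))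
    have h6 := cnt_five 0
    simp only at hc ⊢
    omega
  · rw [U_out n x y h1]
    by_cases h2 : Fu (R (n + 1)) x y
    · rw [r0_eq n x y h1 h2]
      simp only [rot, hc, and_self]
    · have e0 := ty_out _ x y h0 h2
      rw [e0] at hc ⊢
      simp only [cnt] at hc ⊢
      omega

lemma U_bal (n : ℕ) (v : ℤ × ℤ) : inn r0 (U n) v ≤ U n v := by
  obtain ⟨x, y⟩ := v
  induction n with
  | zero => simp [inn, U, cnt]
  | succ n ih =>
    have h1 := (cnt_U n x (y - 1)).1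
    have h2 := (cnt_U n (x - 1) y).2.1
    have h3 := (cnt_U n x (y + 1)).2.2.1
    have h4 := (cnt_U n (x + 1) y).2.2.2
    have h5 := stage (R n) x y (R_nonneg n)
    have e : U (n + 1) (x, y) = U n (x, y) + (ty (R n) x y).2 := rfl
    unfold inn at ih ⊢
    simp only at ih ⊢
    omega

lemma U_zero (n : ℕ) : n ≤ U n (0, 0) := by
  induction n with
  | zero => exact le_rfl
  | succ n ih =>
    have h0 := R_nonneg n
    have e5 : ty (R n) 0 0 = (0, 5) := ty_full _ _ _ h0 (by omega)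
    simp only [U, e5]
    omega

lemma vis_card (r₀ : ℤ × ℤ → Fin 5) (t : ℕ) :
    vis r₀ t (0, 0) = ((Finset.range t).filter fun s => (st r₀ s).1 = (0, 0)).card := by
  induction t with
  | zero => rfl
  | succ t ih =>
    simp only [vis, Finset.range_add_one, Finset.filter_insert, ih]
    split_ifs
    · rw [Finset.card_insert_of_notMem (by simp)]
    · rfl


theorem result :
    ¬ (∀ r₀ : ℤ × ℤ → Fin 5,
      Set.Finite {n : ℕ |
        ((fun s : (ℤ × ℤ) × (ℤ × ℤ → Fin 5) =>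
            (s.1 + (![(0, 1), (0, 1), (1, 0), (0, -1), (-1, 0)] : Fin 5 → ℤ × ℤ) (s.2 s.1 + 1),
             Function.update s.2 s.1 (s.2 s.1 + 1)))^[n] ((0, 0), r₀)).1 = (0, 0)}) := by
  intro h
  have hfin : Set.Finite {n : ℕ | (st r0 n).1 = (0, 0)} := h r0
  refine least_action r0 (U hfin.toFinset.card)
    (Finset.Icc (-R hfin.toFinset.card) (R hfin.toFinset.card) ×ˢ
      Finset.Icc (-R hfin.toFinset.card) (R hfin.toFinset.card)) ?_ (U_bal _) ?_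
  · rintro ⟨x, y⟩ hv
    by_contra hc
    apply hv
    apply U_out
    intro h2
    apply hc
    simp only [Finset.mem_product, Finset.mem_Icc]
    omega
  · intro t
    refine le_trans ?_ (U_zero _)
    rw [vis_card]
    apply Finset.card_le_card
    intro s hs
    simpa using (Finset.mem_filter.1 hs).2

end Pool.Agent.S19120
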