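import Pool.Statements.S19138
import Pool.Agent.Lib.helper1.Doney

set_option autoImplicit false
open Pool Pool.MP_0b691a_pr

namespace Pool.Agent.S19138

/-- The negation of the preceding statement: Spectrally negative Lévy process with no Gaussian part, Lévy measure on (−∞,0), infinite ∫_{(−1,0)}∣x∣: for every k, the scale function is C^{k+2} on (0,∞) iff the Lévy tail y ↦ ν(−∞,−y) is C^k on (0,∞). -/
theorem result :
    ¬ (∀ (ν : MeasureTheory.Measure ℝ) (γ : ℝ) (W : ℝ → ℝ),
      ν (Set.Ici 0) = 0 →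
      (∫⁻ x, ENNReal.ofReal (min 1 (x ^ 2)) ∂ν) < ⊤ →
      (∫⁻ x in Set.Ioo (-1 : ℝ) 0, ENNReal.ofReal |x| ∂ν) = ⊤ →
      ContinuousOn W (Set.Ioi 0) →
      (∃ β₀ : ℝ, ∀ β : ℝ, β₀ < β →
        MeasureTheory.IntegrableOn (fun x => Real.exp (-β * x) * W x) (Set.Ioi 0) ∧
        (∫ x in Set.Ioi (0 : ℝ), Real.exp (-β * x) * W x) =
          1 / (γ * β + ∫ x, (Real.exp (β * x) - 1 - (if -1 < x then β * x else 0)) ∂ν)) →
      ∀ k : ℕ,
        (ContDiffOn ℝ ((k + 2 : ℕ) : WithTop ℕ∞) W (Set.Ioi 0) ↔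
          ContDiffOn ℝ ((k : ℕ) : WithTop ℕ∞) (fun y => (ν (Set.Iio (-y))).toReal) (Set.Ioi 0))) := by
  open Pool.Agent.Lib.helper1.Doney MeasureTheory Set Filter Topology Real in
  intro H
  obtain ⟨c, c0, hc⟩ : ∃ c : NNReal, c ≠ 0 ∧ c * ∫ y, exp (-(1 * y)) - 1 + 1 * y ∂ρ = 1 :=
    ⟨⟨_, (inv_pos.2 C_pos).le⟩, fun h => (inv_pos.2 C_pos).ne' (congrArg NNReal.toReal h),
      inv_mul_cancel₀ C_pos.ne'⟩
  have E := (MeasurableEquiv.neg ℝ).measurableEmbedding
  let τ := c • ρ + Measure.dirac 1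
  have iτ : ∀ f : ℝ → ℝ, Measurable f → Integrable f ρ → Integrable f τ := fun f m h =>
    h.smul_measure_nnreal.add_measure (integrable_dirac (by simp))
  have i1 := ρ_int (f := fun y => min 1 (y ^ 2)) (by fun_prop) 1 (fun y hy => by
    rw [abs_of_nonneg (by positivity), one_mul, min_le_iff]
    exact (le_total 1 y).imp_right fun h => by nlinarith) fun y hy => by
      rw [abs_of_nonneg (by positivity), one_mul]; exact min_le_right _ _
  have mi : Measurable fun y : ℝ => if y < 1 then 0 else y :=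
    .ite measurableSet_Iio measurable_const measurable_id
  have i2 := ρ_int mi 1
    (fun y hy => by split_ifs <;> simp [abs_of_pos hy, hy.le]) fun y hy => by
      split_ifs
      · simp; positivity
      · rw [abs_of_pos hy]; nlinarith
  have := (H (τ.map (MeasurableEquiv.neg ℝ)) (c * ∫ y, (if y < 1 then 0 else y) ∂ρ) W ?_ ?_ ?_
    W_cont.continuousOn ⟨4, fun β hβ => ⟨(W_lap hβ).1, (W_lap hβ).2.trans ?_⟩⟩ 0).1 W_smooth
  · have e : ∀ y, τ.map (MeasurableEquiv.neg ℝ) (Iio (-y)) = τ (Ioi y) := fun y => by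
      rw [E.map_apply]; congr 1; ext; simp
    have f : ∀ y, 0 < y → τ (Ioi y) ≠ ⊤ := fun y hy => (measure_mono fun t ht => by
      have : y < t := ht
      exact min_le_min_left 1 (show y ^ 2 ≤ t ^ 2 by gcongr)).trans_lt ((iτ _ (by fun_prop) i1).measure_ge_lt_top
        (ε := min 1 (y ^ 2)) (by positivity)) |>.ne
    simp only [e, Nat.cast_zero, contDiffOn_zero] at this
    have l := ((this.continuousAt (Ioi_mem_nhds zero_lt_one)).tendsto.mono_left
      (nhdsWithin_le_nhds (s := Iio 1))).eventually (gt_mem_nhds (lt_add_one _))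
    obtain ⟨y, h1, h2⟩ := (l.and (Ioo_mem_nhdsLT zero_lt_one)).exists
    refine h1.not_ge ?_
    refine (ENNReal.toReal_add (f 1 one_pos) ENNReal.one_ne_top).ge.trans
      (ENNReal.toReal_mono (f y h2.1) ?_)
    simp only [τ, Measure.add_apply, Measure.dirac_apply_of_mem (show 1 ∈ Ioi y from h2.2)]
    simpa using mul_le_mul_right (measure_mono (Ioi_subset_Ioi h2.2.le)) _
  · rw [E.map_apply, measure_eq_zero_iff_ae_notMem]
    exact ae_add_measure_iff.2 ⟨Measure.ae_smul_measure (ρ_pos.mono fun y h => by simpa) _,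
      by simp⟩
  · rw [E.lintegral_map]
    simpa using (iτ _ (by fun_prop) i1).lintegral_lt_top
  · rw [E.restrict_map, E.lintegral_map, eq_top_iff]
    have : (MeasurableEquiv.neg ℝ) ⁻¹' Ioo (-1) 0 = Ioo 0 1 := by ext; simp [and_comm]
    rw [this, Measure.restrict_add, lintegral_add_measure, Measure.restrict_smul,
      lintegral_smul_measure, setLIntegral_congr_fun measurableSet_Ioo (g := ENNReal.ofReal)
        fun y hy => by simp [abs_of_pos hy.1], ρ_top]
    simp [ENNReal.smul_top, c0]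
  · have i3 : Integrable (fun y => exp (-(β * y)) - 1 + β * y - β * if y < 1 then 0 else y) ρ :=
      (ρ_exp (β := β) (by linarith)).sub (i2.const_mul β)
    have e : ∀ y : ℝ, exp (β * (MeasurableEquiv.neg ℝ) y) - 1 - (if -1 < (MeasurableEquiv.neg ℝ) y
        then β * (MeasurableEquiv.neg ℝ) y else 0) = exp (-(β * y)) - 1 + β * y
          - β * if y < 1 then 0 else y := fun y => by
      by_cases h : y < 1 <;> simp [h]
    rw [E.integral_map]
    simp only [e]
    rw [integral_add_measure i3.smul_measure_nnreal (integrable_dirac (by simp)), integral_dirac,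
      integral_smul_nnreal_measure, integral_sub (ρ_exp (by linarith)) (i2.const_mul β),
      integral_const_mul, ρ_scale (by linarith), NNReal.smul_def, smul_eq_mul]
    congr 1
    simp only [lt_self_iff_false, if_false, mul_one]
    linear_combination -β ^ (7 / 4 : ℝ) * hc

end Pool.Agent.S19138
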