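import Pool.Statements.S19194
import Pool.Agent.Lib.helper6.Coin

set_option autoImplicit false
open MeasureTheory ProbabilityTheory
open Pool Pool.MP_1c00b2_pr

namespace Pool.Agent.S19194

open Pool.Agent.Lib.helper6.Coin

noncomputable section

def sv (b : Bool) : ℝ := if b then 19 / 8 else 15 / 8

def iv (b : Bool) : ℝ := if b then 1 else 0

lemma V4 (ω : ℕ → Bool) : ⨅ j, V (fun n => sv (ω n)) 4 j
    = iv (ω 0) * iv (ω 2) / 8 + (iv (ω 0) / 4 + 3 / 8 * iv (ω 2)) := by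
  have hs : ∀ b, 15 / 8 ≤ sv b ∧ sv b ≤ 19 / 8 := by
    intro b; cases b <;> simp [sv] <;> norm_num
  obtain ⟨a0, a1⟩ := (V_succ (fun n => sv (ω n)) 0 0 0 rfl rfl).1 le_rfl
  have h0 := hs (ω 0)
  have h1 := hs (ω 1)
  have h2 := hs (ω 2)
  have h3 := hs (ω 3)
  rw [max_eq_right (by linarith)] at a0
  rw [max_eq_left (by linarith)] at a1
  obtain ⟨b0, b1⟩ := (V_succ (fun n => sv (ω n)) 1 _ _ a0 a1).2 (by linarith)
  rw [max_eq_right (by linarith)] at b1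
  have k0 : 0 ≤ max 0 (0 + sv (ω 0) - 1 - 1) ∧ max 0 (0 + sv (ω 0) - 1 - 1) ≤ 3 / 8 :=
    ⟨le_max_left _ _, max_le (by norm_num) (by linarith)⟩
  have k1 : 0 ≤ max 0 (0 + sv (ω 1) - 1 - 1) ∧ max 0 (0 + sv (ω 1) - 1 - 1) ≤ 3 / 8 :=
    ⟨le_max_left _ _, max_le (by norm_num) (by linarith)⟩
  obtain ⟨c0, c1⟩ := (V_succ (fun n => sv (ω n)) 2 _ _ b0 b1).1 (by linarith)
  rw [max_eq_right (by linarith)] at c0
  obtain ⟨d0, d1⟩ := (V_succ (fun n => sv (ω n)) 3 _ _ c0 c1).2 (by linarith)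
  rw [max_eq_right (by linarith)] at d1
  rw [iInf_two, d0, d1, min_eq_left (max_le (by linarith) (by linarith))]
  cases ω 0 <;> cases ω 2 <;> simp only [sv, iv, if_true, Bool.false_eq_true, if_false] <;>
    norm_num

lemma EV4 : ∫⁻ ω : ℕ → Bool, ENNReal.ofReal (⨅ j, V (fun n => sv (ω n)) 4 j) ∂mu ℕ
    = ENNReal.ofReal (81 / 2048) := by
  simp only [V4]
  have i0 := (dep_eval (ι := ℕ) 0 iv).int
  have i2 := (dep_eval (ι := ℕ) 2 iv).int
  have i02 : Integrable (fun ω : ℕ → Bool => iv (ω 0) * iv (ω 2)) (mu ℕ) := by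
    apply Dep.int (A := {0, 2})
    intro ω ω' h
    simp only [h 0 (by simp), h 2 (by simp)]
  have j1 : Integrable (fun ω : ℕ → Bool => iv (ω 0) * iv (ω 2) / 8) (mu ℕ) := i02.div_const 8
  have j2 : Integrable (fun ω : ℕ → Bool => iv (ω 0) / 4) (mu ℕ) := i0.div_const 4
  have j3 : Integrable (fun ω : ℕ → Bool => 3 / 8 * iv (ω 2)) (mu ℕ) := i2.const_mul _
  have j4 : Integrable (fun ω : ℕ → Bool => iv (ω 0) / 4 + 3 / 8 * iv (ω 2)) (mu ℕ) := j2.add j3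
  have j5 : Integrable (fun ω : ℕ → Bool =>
    iv (ω 0) * iv (ω 2) / 8 + (iv (ω 0) / 4 + 3 / 8 * iv (ω 2))) (mu ℕ) := j1.add j4
  rw [← ofReal_integral_eq_lintegral_ofReal j5
    (Filter.Eventually.of_forall fun ω => by
      simp only [iv, Pi.zero_apply]; split_ifs <;> norm_num), integral_add j1 j4,
    integral_add j2 j3, integral_div, integral_div, integral_const_mul,
    (dep_eval (ι := ℕ) 0 iv).mul_eval (by simp) iv, int_eval, int_eval]
  simp only [iv, if_true, Bool.false_eq_true, if_false]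
  norm_num

lemma ES : ∫ ω : ℕ → Bool, sv (ω 0) ∂mu ℕ = 61 / 32 := by
  rw [int_eval]; simp [sv]; norm_num

lemma varS : variance (fun ω : ℕ → Bool => sv (ω 0)) (mu ℕ) = 15 / 1024 := by
  rw [variance_eq_integral (dep_eval 0 sv).meas.aemeasurable, ES,
    int_eval 0 (fun b => (sv b - 61 / 32) ^ 2)]
  simp [sv]; norm_num

end

theorem result :
    ¬ (∀ (Ω : Type) [MeasurableSpace Ω] (μ : Measure Ω) [IsProbabilityMeasure μ]
    (k : ℕ) (T S : ℕ → Ω → ℝ) (V : ℕ → Ω → Fin k → ℝ) (ρ : ℝ),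
    0 < k →
    (∀ n, Measurable (T n)) → (∀ n, Measurable (S n)) →
    iIndepFun (fun n ω => (T n ω, S n ω)) μ →
    (∀ n, IndepFun (T n) (S n) μ) →
    (∀ n, IdentDistrib (T n) (T 0) μ μ) →
    (∀ n, IdentDistrib (S n) (S 0) μ μ) →
    (∀ n ω, 0 ≤ T n ω) → (∀ n ω, 0 ≤ S n ω) →
    MemLp (T 0) 2 μ → MemLp (S 0) 2 μ →
    0 < ∫ ω, T 0 ω ∂μ →
    ρ = (∫ ω, S 0 ω ∂μ) / ((k : ℝ) * ∫ ω, T 0 ω ∂μ) →
    ρ < 1 →
    (∀ ω i, V 0 ω i = 0) →
    (∀ n ω, ∃ j : Fin k, (∀ i, V n ω j ≤ V n ω i) ∧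
        ∀ i, V (n + 1) ω i = max 0 (V n ω i + (if i = j then S n ω else 0) - T n ω)) →
    ∀ n, ∫⁻ ω, ENNReal.ofReal (⨅ i, V n ω i) ∂μ ≤
      ENNReal.ofReal ((ρ * (2 - ρ) * variance (T 0) μ + variance (S 0) μ / ((k : ℝ) ^ 2)) /
        (2 * (1 - ρ) * ∫ ω, T 0 ω ∂μ))) := by
  intro H
  have hs : ∀ b, 0 ≤ sv b ∧ sv b ≤ 3 := by
    intro b; cases b <;> simp [sv] <;> norm_num
  have hL : MemLp (fun ω : ℕ → Bool => sv (ω 0)) 2 (mu ℕ) :=
    MemLp.of_bound (dep_eval 0 sv).meas.aestronglyMeasurable 3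
      (Filter.Eventually.of_forall fun ω => by
        rw [Real.norm_eq_abs, abs_of_nonneg (hs _).1]; exact (hs _).2)
  have h := H (ℕ → Bool) (mu ℕ) 2 (fun _ _ => 1) (fun n ω => sv (ω n))
    (fun n ω => V (fun n => sv (ω n)) n) (61 / 64) (by norm_num)
    (fun _ => measurable_const) (fun n => (dep_eval n sv).meas)
    (ind (fun _ b => ((1 : ℝ), sv b))) (fun _ => indepFun_const_left _ _)
    (fun _ => IdentDistrib.refl measurable_const.aemeasurable)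
    (fun n => idd sv _ _) (fun _ _ => zero_le_one) (fun _ _ => (hs _).1)
    (memLp_const _) hL (by simp) (by rw [ES]; simp; norm_num) (by norm_num)
    (fun _ _ => rfl) (fun n ω => ⟨am _, am_le _, fun j => rfl⟩) 4
  have hv : variance (fun _ : ℕ → Bool => (1 : ℝ)) (mu ℕ) = 0 := by
    rw [variance_eq_integral measurable_const.aemeasurable]; simp
  rw [EV4, varS, hv, ENNReal.ofReal_le_ofReal_iff (by simp; norm_num)] at h
  simp at h
  norm_num at h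

end Pool.Agent.S19194
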