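import Pool.Statements.S19196
import Pool.Agent.Lib.helper1.GC

set_option autoImplicit false
open Pool Pool.MP_1d7c3b_pr

namespace Pool.Agent.S19196

open MeasureTheory ProbabilityTheory Pool.Agent.Lib.helper1.GC

noncomputable def K (x : ℝ) : ℝ := Real.exp (-(x ^ 2 / 2))

lemma K_pos (x : ℝ) : 0 < K x := Real.exp_pos _
lemma K_le_one (x : ℝ) : K x ≤ 1 := Real.exp_le_one_iff.2 (by nlinarith [sq_nonneg x])
lemma K_zero : K 0 = 1 := by simp [K]
lemma K_mul {x y z u : ℝ} (h : x ^ 2 + y ^ 2 = z ^ 2 + u ^ 2) : K x * K y = K z * K u := by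
  unfold K; rw [← Real.exp_add, ← Real.exp_add]; congr 1; linarith
lemma K_small {x : ℝ} (h : 100 ≤ x ^ 2) : K x ≤ 1 / 10 ^ 20 := by
  have h1 : K x ≤ Real.exp (-50) := Real.exp_le_exp.2 (by linarith)
  refine h1.trans ?_
  have h2 : Real.exp 50 = Real.exp 1 ^ 50 := by rw [← Real.exp_nat_mul]; norm_num
  have h3 : (2.7 : ℝ) ^ 50 ≤ Real.exp 1 ^ 50 :=
    pow_le_pow_left₀ (by norm_num) (by linarith [Real.exp_one_gt_d9]) 50
  rw [Real.exp_neg, one_div]
  refine inv_anti₀ (by norm_num) ?_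
  rw [h2]; refine le_trans ?_ h3; norm_num

noncomputable def Z : ℝ := 1 + K 26 / 1000

lemma Z_ge : 1 ≤ Z := by unfold Z; linarith [K_pos 26]
lemma Z_le : Z ≤ 1 + 1 / 10 ^ 23 := by
  unfold Z; have := K_small (x := 26) (by norm_num); norm_num at this ⊢; linarith

noncomputable def W : ℝ := 1 / Z ^ 2

lemma W_le : W ≤ 1 := by
  unfold W; rw [div_le_one (by have := Z_ge; positivity)]; nlinarith [Z_ge]
lemma W_ge : 1 - 3 / 10 ^ 23 ≤ W := by
  unfold W; rw [le_div_iff₀ (by have := Z_ge; positivity)]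
  have h : Z ^ 2 ≤ (1 + 1 / 10 ^ 23) ^ 2 := pow_le_pow_left₀ (by linarith [Z_ge]) Z_le 2
  refine le_trans (mul_le_mul_of_nonneg_left h (by norm_num)) (by norm_num)

noncomputable def r0 : ℝ → ℝ := tp ![1 / Z, 1 / 1000 / Z] ![0, 26]

noncomputable def R (a b : ℝ) : ℝ → ℝ :=
  tp ![W, W * (K (26 * b) / 1000), W * (K (26 * a) / 1000), W * (K (26 * (a - b)) / 2000000),
    W * (K (26 * (a + b)) / 2000000)] ![0, 26 * a, 26 * b, 26 * (a + b), 26 * (a - b)]

lemma r0_eq (x : ℝ) : r0 x = (1 + Real.cos (26 * x) / 1000) / Z := by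
  simp [r0, tp, Fin.sum_univ_two]; ring

lemma r0_pos (x : ℝ) : 0 < r0 x := by
  rw [r0_eq]
  have := Real.neg_one_le_cos (26 * x)
  have := Z_ge
  exact div_pos (by linarith) (by linarith)

lemma r0_int : ∫ x, r0 x ∂G = 1 := by
  rw [r0, tp_int]
  have := Z_ge
  simp only [Fin.sum_univ_two, Matrix.cons_val_zero, Matrix.cons_val_one]
  change 1 / Z * K 0 + 1 / 1000 / Z * K 26 = 1
  rw [K_zero]
  have h : Z = 1 + K 26 / 1000 := rfl
  field_simp
  linarith

lemma R_eq (a b x : ℝ) : R a b x = W * (1 + K (26 * b) / 1000 * Real.cos (26 * a * x)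
    + K (26 * a) / 1000 * Real.cos (26 * b * x)
    + K (26 * (a - b)) / 2000000 * Real.cos (26 * (a + b) * x)
    + K (26 * (a + b)) / 2000000 * Real.cos (26 * (a - b) * x)) := by
  simp [R, tp, Fin.sum_univ_succ]; ring

lemma kc (y z : ℝ) : |K y * Real.cos z| ≤ K y := by
  rw [abs_mul, abs_of_pos (K_pos y)]
  exact mul_le_of_le_one_right (K_pos y).le (Real.abs_cos_le_one z)

lemma R_bd (a b x : ℝ) : 1 / 2 ≤ R a b x ∧ R a b x ≤ 2 := by
  rw [R_eq]
  have h1 := abs_le.1 ((kc (26 * b) (26 * a * x)).trans (K_le_one _))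
  have h2 := abs_le.1 ((kc (26 * a) (26 * b * x)).trans (K_le_one _))
  have h3 := abs_le.1 ((kc (26 * (a - b)) (26 * (a + b) * x)).trans (K_le_one _))
  have h4 := abs_le.1 ((kc (26 * (a + b)) (26 * (a - b) * x)).trans (K_le_one _))
  have w1 := W_le
  have w2 := W_ge
  set S := 1 + K (26 * b) / 1000 * Real.cos (26 * a * x)
    + K (26 * a) / 1000 * Real.cos (26 * b * x)
    + K (26 * (a - b)) / 2000000 * Real.cos (26 * (a + b) * x)
    + K (26 * (a + b)) / 2000000 * Real.cos (26 * (a - b) * x) with hS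
  have s1 : 0.99 ≤ S := by rw [hS]; linarith
  have s2 : S ≤ 1.01 := by rw [hS]; linarith
  constructor <;> nlinarith

lemma WZ : W * Z ^ 2 = 1 := by
  have := Z_ge
  unfold W; field_simp

lemma R_int {a b : ℝ} (h : a ^ 2 + b ^ 2 = 1) : ∫ x, R a b x ∂G = 1 := by
  rw [R, tp_int]
  simp only [Fin.sum_univ_succ, Matrix.cons_val_zero, Matrix.cons_val_succ, Fin.sum_univ_zero]
  change W * K 0 + (W * (K (26 * b) / 1000) * K (26 * a) + (W * (K (26 * a) / 1000) * K (26 * b)
    + (W * (K (26 * (a - b)) / 2000000) * K (26 * (a + b))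
    + (W * (K (26 * (a + b)) / 2000000) * K (26 * (a - b)) + 0)))) = 1
  have h1 : K (26 * a) * K (26 * b) = K 26 * K 0 := K_mul (by linear_combination 676 * h)
  have h2 : K (26 * (a + b)) * K (26 * (a - b)) = K 26 * K 26 :=
    K_mul (by linear_combination 1352 * h)
  have h3 := WZ
  rw [K_zero] at *
  unfold Z at h3
  linear_combination W / 500 * h1 + W / 1000000 * h2 + h3

lemma R_sq_int {a b : ℝ} (h : a ^ 2 + b ^ 2 = 1) : ∫ x, x ^ 2 * R a b x ∂G
    = W * (1 - 674 / 1000 * K 26 - 1350 / 2000000 * (K 26 * K 26)) := by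
  rw [R, sqtp_int]
  simp only [Fin.sum_univ_succ, Matrix.cons_val_zero, Matrix.cons_val_succ, Fin.sum_univ_zero]
  change W * ((1 - 0 ^ 2) * K 0) + (W * (K (26 * b) / 1000) * ((1 - (26 * a) ^ 2) * K (26 * a))
    + (W * (K (26 * a) / 1000) * ((1 - (26 * b) ^ 2) * K (26 * b))
    + (W * (K (26 * (a - b)) / 2000000) * ((1 - (26 * (a + b)) ^ 2) * K (26 * (a + b)))
    + (W * (K (26 * (a + b)) / 2000000) * ((1 - (26 * (a - b)) ^ 2) * K (26 * (a - b))) + 0)))) = _
  have h1 : K (26 * a) * K (26 * b) = K 26 * K 0 := K_mul (by linear_combination 676 * h)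
  have h2 : K (26 * (a + b)) * K (26 * (a - b)) = K 26 * K 26 :=
    K_mul (by linear_combination 1352 * h)
  rw [K_zero] at *
  linear_combination W / 1000 * (2 - 676 * (a ^ 2 + b ^ 2)) * h1
    + W / 2000000 * (2 - 1352 * (a ^ 2 + b ^ 2)) * h2
    - (W * 676 / 1000 * K 26 + W * 1352 / 2000000 * (K 26 * K 26)) * h

lemma cf_r0 (t : ℝ) : charFun (mu r0) t
    = (((K t + (K (t + 26) + K (t - 26)) / 2000) / Z : ℝ) : ℂ) := by
  rw [r0, charFun_mu _ _ (fun x => (r0_pos x).le)]
  congr 1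
  simp only [Fin.sum_univ_two, Matrix.cons_val_zero, Matrix.cons_val_one, add_zero, sub_zero, K]
  ring

lemma cf_R {a b : ℝ} (h : a ^ 2 + b ^ 2 = 1) (t : ℝ) :
    charFun (mu (R a b)) t = charFun (mu r0) (a * t) * charFun (mu r0) (b * t) := by
  rw [cf_r0, cf_r0, R, charFun_mu _ _ (fun x => le_trans (by norm_num) (R_bd a b x).1),
    ← Complex.ofReal_mul]
  congr 1
  simp only [Fin.sum_univ_succ, Matrix.cons_val_zero, Matrix.cons_val_succ, Fin.sum_univ_zero,
    add_zero, sub_zero]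
  change W * ((K t + K t) / 2) + (W * (K (26 * b) / 1000) * ((K (t + 26 * a) + K (t - 26 * a)) / 2)
    + (W * (K (26 * a) / 1000) * ((K (t + 26 * b) + K (t - 26 * b)) / 2)
    + (W * (K (26 * (a - b)) / 2000000) * ((K (t + 26 * (a + b)) + K (t - 26 * (a + b))) / 2)
    + W * (K (26 * (a + b)) / 2000000) * ((K (t + 26 * (a - b)) + K (t - 26 * (a - b))) / 2)))) = _
  have e0 : K (a * t) * K (b * t) = K t * K 0 := K_mul (by linear_combination t ^ 2 * h)
  have e1 : K (a * t + 26) * K (b * t) = K (26 * b) * K (t + 26 * a) :=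
    K_mul (by linear_combination (t ^ 2 - 676) * h)
  have e2 : K (a * t - 26) * K (b * t) = K (26 * b) * K (t - 26 * a) :=
    K_mul (by linear_combination (t ^ 2 - 676) * h)
  have e3 : K (a * t) * K (b * t + 26) = K (26 * a) * K (t + 26 * b) :=
    K_mul (by linear_combination (t ^ 2 - 676) * h)
  have e4 : K (a * t) * K (b * t - 26) = K (26 * a) * K (t - 26 * b) :=
    K_mul (by linear_combination (t ^ 2 - 676) * h)
  have e5 : K (a * t + 26) * K (b * t + 26) = K (26 * (a - b)) * K (t + 26 * (a + b)) :=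
    K_mul (by linear_combination (t ^ 2 - 1352) * h)
  have e6 : K (a * t - 26) * K (b * t - 26) = K (26 * (a - b)) * K (t - 26 * (a + b)) :=
    K_mul (by linear_combination (t ^ 2 - 1352) * h)
  have e7 : K (a * t + 26) * K (b * t - 26) = K (26 * (a + b)) * K (t + 26 * (a - b)) :=
    K_mul (by linear_combination (t ^ 2 - 1352) * h)
  have e8 : K (a * t - 26) * K (b * t + 26) = K (26 * (a + b)) * K (t - 26 * (a - b)) :=
    K_mul (by linear_combination (t ^ 2 - 1352) * h)
  rw [K_zero] at e0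
  rw [div_mul_div_comm, ← sq, div_eq_mul_one_div _ (Z ^ 2)]
  change _ = _ * W
  linear_combination (-W) * e0 - W / 2000 * (e1 + e2 + e3 + e4)
    - W / 4000000 * (e5 + e6 + e7 + e8)

lemma law {Ω : Type} [MeasurableSpace Ω] (P : Measure Ω) [IsProbabilityMeasure P]
    (X : Fin 2 → Ω → ℝ) (hm : ∀ i, Measurable (X i)) (hi : iIndepFun X P)
    (hl : ∀ i, P.map (X i) = mu r0) (d : Fin 2 → ℝ) (hd : d 0 ^ 2 + d 1 ^ 2 = 1) :
    P.map (fun ω => ∑ i, d i * X i ω) = mu (R (d 0) (d 1)) := by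
  have : IsProbabilityMeasure (mu (R (d 0) (d 1))) :=
    mu_prob (fun x => le_trans (by norm_num) (R_bd _ _ x).1) (tp_integrable _ _) (R_int hd)
  refine Measure.ext_of_charFun (funext fun t => ?_)
  have hi2 : iIndepFun (fun i ω => d i * X i ω) P :=
    hi.comp (fun i x => d i * x) (fun i => by fun_prop)
  rw [hi2.charFun_map_fun_sum_eq_prod (fun i => ((hm i).const_mul _).aemeasurable), cf_R hd]
  simp only [Fin.prod_univ_two, Pi.mul_apply]
  rw [charFun_map_mul_comp (hm 0).aemeasurable, charFun_map_mul_comp (hm 1).aemeasurable, hl, hl]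

lemma up_bd : ∫ x, R (12 / 13) (5 / 13) x * Real.log (R (12 / 13) (5 / 13) x) ∂G
    ≤ 1 / 10 ^ 40 := by
  have hI : Integrable (R (12 / 13) (5 / 13)) G := tp_integrable _ _
  have h : ∀ x, R (12 / 13) (5 / 13) x * Real.log (R (12 / 13) (5 / 13) x)
      ≤ R (12 / 13) (5 / 13) x + (1 / 10 ^ 40 - 1) := by
    intro x
    have h0 := rlog_up (r := R (12 / 13) (5 / 13) x) (by linarith [(R_bd (12 / 13) (5 / 13) x).1])
    have hb : |R (12 / 13) (5 / 13) x - 1| ≤ 1 / 10 ^ 20 := by
      rw [R_eq]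
      have h1 := abs_le.1 ((kc (26 * (5 / 13)) (26 * (12 / 13) * x)).trans
        (K_small (by norm_num)))
      have h2 := abs_le.1 ((kc (26 * (12 / 13)) (26 * (5 / 13) * x)).trans
        (K_small (by norm_num)))
      have h3 := abs_le.1 ((kc (26 * (12 / 13 - 5 / 13)) (26 * (12 / 13 + 5 / 13) * x)).trans
        (K_small (by norm_num)))
      have h4 := abs_le.1 ((kc (26 * (12 / 13 + 5 / 13)) (26 * (12 / 13 - 5 / 13) * x)).trans
        (K_small (by norm_num)))
      have w1 := W_le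
      have w2 := W_ge
      set S := 1 + K (26 * (5 / 13)) / 1000 * Real.cos (26 * (12 / 13) * x)
        + K (26 * (12 / 13)) / 1000 * Real.cos (26 * (5 / 13) * x)
        + K (26 * (12 / 13 - 5 / 13)) / 2000000 * Real.cos (26 * (12 / 13 + 5 / 13) * x)
        + K (26 * (12 / 13 + 5 / 13)) / 2000000 * Real.cos (26 * (12 / 13 - 5 / 13) * x) with hS
      have s1 : 1 - 1 / 10 ^ 22 ≤ S := by rw [hS]; linarith
      have s2 : S ≤ 1 + 1 / 10 ^ 22 := by rw [hS]; linarith
      have a1 : W * S ≤ 1 * (1 + 1 / 10 ^ 22) :=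
        mul_le_mul w1 s2 (by linarith) (by norm_num)
      have a2 : (1 - 3 / 10 ^ 23) * (1 - 1 / 10 ^ 22) ≤ W * S :=
        mul_le_mul w2 s1 (by norm_num) (by linarith)
      rw [abs_le]
      constructor <;> linarith
    have h5 := sq_le_sq' (abs_le.1 hb).1 (abs_le.1 hb).2
    linarith
  refine (integral_mono (rlog_integrable (tp_cont _ _) (fun x => (R_bd _ _ x).1)
    (fun x => (R_bd _ _ x).2)) (hI.add (integrable_const _)) h).trans ?_
  simp only [Pi.add_apply]
  rw [integral_add hI (integrable_const _), R_int (by norm_num)]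
  simp

lemma low_bd {s : ℝ} (hs : s ^ 2 = 1 / 2) :
    1 / 10 ^ 16 ≤ ∫ x, R s s x * Real.log (R s s x) ∂G := by
  have hI : Integrable (R s s) G := tp_integrable _ _
  have w1 := W_le
  have w2 := W_ge
  have h : ∀ x, R s s x + ((W / 2000000) ^ 2 / 36 * Real.cos (104 * s * x)
      + ((W / 2000000) ^ 2 / 36 - 1 / 10 ^ 40 - 1)) ≤ R s s x * Real.log (R s s x) := by
    intro x
    have h0 := rlog_low (r := R s s x) (by linarith [(R_bd s s x).1]) (R_bd s s x).2
    have hb : |R s s x - 1 - W / 2000000 * Real.cos (26 * (s + s) * x)| ≤ 1 / 10 ^ 20 := by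
      rw [R_eq, sub_self, mul_zero, K_zero]
      have h1 := abs_le.1 ((kc (26 * s) (26 * s * x)).trans (K_small (by nlinarith)))
      have h4 := abs_le.1 ((kc (26 * (s + s)) (0 * x)).trans (K_small (by nlinarith)))
      set S := 1 + K (26 * s) / 1000 * Real.cos (26 * s * x)
        + K (26 * s) / 1000 * Real.cos (26 * s * x)
        + K (26 * (s + s)) / 2000000 * Real.cos (0 * x) with hS
      have s1 : 1 - 1 / 10 ^ 22 ≤ S := by rw [hS]; linarith
      have s2 : S ≤ 1 + 1 / 10 ^ 22 := by rw [hS]; linarith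
      have a1 : W * S ≤ 1 * (1 + 1 / 10 ^ 22) :=
        mul_le_mul w1 s2 (by linarith) (by norm_num)
      have a2 : (1 - 3 / 10 ^ 23) * (1 - 1 / 10 ^ 22) ≤ W * S :=
        mul_le_mul w2 s1 (by norm_num) (by linarith)
      have e : W * (1 + K (26 * s) / 1000 * Real.cos (26 * s * x)
          + K (26 * s) / 1000 * Real.cos (26 * s * x)
          + 1 / 2000000 * Real.cos (26 * (s + s) * x)
          + K (26 * (s + s)) / 2000000 * Real.cos (0 * x)) - 1
          - W / 2000000 * Real.cos (26 * (s + s) * x) = W * S - 1 := by rw [hS]; ring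
      rw [e, abs_le]
      constructor <;> linarith
    have h5 := sq_le_sq' (abs_le.1 hb).1 (abs_le.1 hb).2
    have h6 : Real.cos (104 * s * x) = 2 * Real.cos (26 * (s + s) * x) ^ 2 - 1 := by
      rw [← Real.cos_two_mul]; congr 1; ring
    rw [h6]
    set u := W / 2000000 * Real.cos (26 * (s + s) * x) with hu
    have e2 : (W / 2000000) ^ 2 / 36 * (2 * Real.cos (26 * (s + s) * x) ^ 2 - 1)
        = u ^ 2 / 18 - (W / 2000000) ^ 2 / 36 := by rw [hu]; ring
    rw [e2]
    nlinarith [sq_nonneg (2 * (R s s x - 1) - u)]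
  have hI2 : Integrable (fun x => (W / 2000000) ^ 2 / 36 * Real.cos (104 * s * x)) G :=
    (cos_integrable _).const_mul _
  have hI3 : Integrable (fun x => (W / 2000000) ^ 2 / 36 * Real.cos (104 * s * x)
      + ((W / 2000000) ^ 2 / 36 - 1 / 10 ^ 40 - 1)) G := hI2.add (integrable_const _)
  refine le_trans ?_ (integral_mono (hI.add hI3)
    (rlog_integrable (tp_cont _ _) (fun x => (R_bd _ _ x).1) (fun x => (R_bd _ _ x).2)) h)
  simp only [Pi.add_apply]
  rw [integral_add hI hI3, integral_add hI2 (integrable_const _),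
    R_int (by linarith), integral_const_mul, cos_int]
  simp only [integral_const, probReal_univ, smul_eq_mul, one_mul]
  have p1 : 0 ≤ (W / 2000000) ^ 2 / 36 * Real.exp (-((104 * s) ^ 2 / 2)) := by positivity
  have p2 : (1 / 2 / 2000000) ^ 2 ≤ (W / 2000000) ^ 2 :=
    pow_le_pow_left₀ (by norm_num) (by linarith) 2
  linarith

noncomputable def V (x : ℝ) : ℝ := -(x ^ 2 / 2) + Real.log (1 + Real.cos (26 * x) / 1000)

lemma den_pos (x : ℝ) : 0 < 1 + Real.cos (26 * x) / 1000 := by
  linarith [Real.neg_one_le_cos (26 * x)]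

lemma V_d1 (x : ℝ) : HasDerivAt V
    (-x + (-Real.sin (26 * x) * 26 / 1000) / (1 + Real.cos (26 * x) / 1000)) x := by
  have h1 : HasDerivAt (fun x : ℝ => -(x ^ 2 / 2)) (-x) x := by
    refine (((hasDerivAt_pow 2 x).div_const 2).neg).congr_deriv ?_
    simp
  have h2 : HasDerivAt (fun x : ℝ => 26 * x) 26 x := by
    simpa using (hasDerivAt_id x).const_mul (26 : ℝ)
  exact h1.add (((h2.cos.div_const 1000).const_add 1).log (den_pos x).ne')

lemma V_d2 (x : ℝ) : ∃ y ≤ 0, HasDerivAt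
    (fun x => -x + (-Real.sin (26 * x) * 26 / 1000) / (1 + Real.cos (26 * x) / 1000)) y x := by
  have h2 : HasDerivAt (fun x : ℝ => 26 * x) 26 x := by
    simpa using (hasDerivAt_id x).const_mul (26 : ℝ)
  refine ⟨_, ?_, (hasDerivAt_id x).neg.add ((((h2.sin.neg).mul_const 26).div_const 1000).div
    ((h2.cos.div_const 1000).const_add 1) (den_pos x).ne')⟩
  have a1 := Real.neg_one_le_cos (26 * x)
  have a2 := Real.cos_le_one (26 * x)
  have a3 := Real.sin_sq_add_cos_sq (26 * x)
  have a4 := den_pos x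
  simp only [Pi.neg_apply]
  rw [neg_add_nonpos_iff, div_le_one (by positivity)]
  nlinarith [sq_nonneg (Real.sin (26 * x))]

lemma V_conc : ConcaveOn ℝ Set.univ V := by
  have e : deriv V = fun x =>
      -x + (-Real.sin (26 * x) * 26 / 1000) / (1 + Real.cos (26 * x) / 1000) :=
    funext fun x => (V_d1 x).deriv
  refine concaveOn_univ_of_deriv2_nonpos (fun x => (V_d1 x).differentiableAt) ?_ ?_
  · rw [e]; intro x; obtain ⟨y, _, hy⟩ := V_d2 x; exact hy.differentiableAt
  · intro x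
    obtain ⟨y, h0, hy⟩ := V_d2 x
    change deriv (deriv V) x ≤ 0
    rw [e, hy.deriv]; exact h0

lemma f_eq (x : ℝ) : g x * r0 x
    = Real.exp (V x - (Real.log (Real.sqrt (2 * Real.pi)) + Real.log Z)) := by
  rw [← Real.exp_log (mul_pos (g_pos x) (r0_pos x)), Real.log_mul (g_pos x).ne' (r0_pos x).ne',
    log_g, r0_eq, Real.log_div (den_pos x).ne' (by linarith [Z_ge]), V]
  congr 1; ring


/-- The negation of the preceding statement: For i.i.d. X_1..X_n with a symmetric log-concave density and real d with sum of d_i^2 equal to 1, the differential entropy of the sum of d_i X_i is at most that of the sum of X_i/sqrt(n). -/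
theorem result :
    ¬ (∀ (n : ℕ), 0 < n → ∀ (f : ℝ → ℝ), (∀ x, 0 ≤ f x) → (∀ x, f (-x) = f x) →
      (∀ x y t : ℝ, 0 ≤ t → t ≤ 1 →
        f x ^ t * f y ^ (1 - t) ≤ f (t * x + (1 - t) * y)) →
      MeasureTheory.Integrable f → ∫ x, f x = 1 →
      ∀ (Ω : Type) [MeasureTheory.MeasureSpace Ω]
        [MeasureTheory.IsProbabilityMeasure (MeasureTheory.volume : MeasureTheory.Measure Ω)]
        (X : Fin n → Ω → ℝ),
        (∀ i, Measurable (X i)) →
        ProbabilityTheory.iIndepFun X (MeasureTheory.volume : MeasureTheory.Measure Ω) →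
        (∀ i, MeasureTheory.Measure.map (X i) (MeasureTheory.volume : MeasureTheory.Measure Ω)
            = MeasureTheory.volume.withDensity (fun x => ENNReal.ofReal (f x))) →
        ∀ d : Fin n → ℝ, ∑ i, d i ^ 2 = 1 →
          ∫ x, Real.negMulLog
              (((MeasureTheory.Measure.map (fun ω => ∑ i, d i * X i ω)
                (MeasureTheory.volume : MeasureTheory.Measure Ω)).rnDeriv
                  MeasureTheory.volume x).toReal)
            ≤ ∫ x, Real.negMulLog
              (((MeasureTheory.Measure.map (fun ω => ∑ i, (1 / Real.sqrt n) * X i ω)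
                (MeasureTheory.volume : MeasureTheory.Measure Ω)).rnDeriv
                  MeasureTheory.volume x).toReal)) := by
  intro H
  have : IsProbabilityMeasure (mu r0) :=
    mu_prob (fun x => (r0_pos x).le) (tp_integrable _ _) r0_int
  let P : Measure (Fin 2 → ℝ) := Measure.pi (fun _ => mu r0)
  have hi : iIndepFun (fun (i : Fin 2) (ω : Fin 2 → ℝ) => ω i) P :=
    iIndepFun_pi (X := fun _ => id) (fun _ => aemeasurable_id)
  have hl : ∀ i : Fin 2, P.map (fun ω : Fin 2 → ℝ => ω i) = mu r0 := fun i =>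
    (measurePreserving_eval (fun _ : Fin 2 => mu r0) i).map_eq
  have hs : (1 / Real.sqrt ((2 : ℕ) : ℝ)) ^ 2 = 1 / 2 := by
    rw [div_pow, Real.sq_sqrt (by positivity)]; norm_num
  have h := @H 2 (by norm_num) (fun x => g x * r0 x)
    (fun x => (mul_pos (g_pos x) (r0_pos x)).le)
    (fun x => by simp only [f_eq, V, mul_neg, Real.cos_neg, even_two, Even.neg_pow])
    (fun x y t h0 h1 => by
      simp only [f_eq]
      rw [← Real.exp_mul, ← Real.exp_mul, ← Real.exp_add, Real.exp_le_exp]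
      have := V_conc.2 (Set.mem_univ x) (Set.mem_univ y) h0 (sub_nonneg.2 h1) (by ring)
      simp only [smul_eq_mul] at this
      linarith)
    (integrable_g_mul (tp_integrable _ _)) (by rw [← int_G, r0_int])
    (Fin 2 → ℝ) ⟨P⟩ (inferInstanceAs (IsProbabilityMeasure P)) (fun i ω => ω i)
    (fun i => measurable_pi_apply i) hi hl ![12 / 13, 5 / 13] (by simp [Fin.sum_univ_two]; norm_num)
  have l1 := law P (fun i ω => ω i) (fun i => measurable_pi_apply i) hi hl ![12 / 13, 5 / 13]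
    (by simp; norm_num)
  have l2 := law P (fun i ω => ω i) (fun i => measurable_pi_apply i) hi hl
    (fun _ => 1 / Real.sqrt ((2 : ℕ) : ℝ)) (by linarith)
  change ∫ x, Real.negMulLog (((P.map (fun ω => ∑ i, ![(12 / 13 : ℝ), 5 / 13] i * ω i)).rnDeriv
      volume x).toReal) ≤ ∫ x, Real.negMulLog (((P.map (fun ω : Fin 2 → ℝ =>
        ∑ i, (1 / Real.sqrt ((2 : ℕ) : ℝ)) * ω i)).rnDeriv volume x).toReal) at h
  rw [l1, l2] at h
  simp only [Matrix.cons_val_zero, Matrix.cons_val_one] at h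
  set s := 1 / Real.sqrt ((2 : ℕ) : ℝ) with hsd
  have e1 := ent_mu _ _ (fun x => (R_bd (12 / 13) (5 / 13) x).1)
    (fun x => (R_bd (12 / 13) (5 / 13) x).2)
  have e2 := ent_mu _ _ (fun x => (R_bd s s x).1) (fun x => (R_bd s s x).2)
  change ∫ x, Real.negMulLog (((mu (R (12 / 13) (5 / 13))).rnDeriv volume x).toReal)
    = Real.log (Real.sqrt (2 * Real.pi)) * (∫ x, R (12 / 13) (5 / 13) x ∂G)
      + (∫ x, x ^ 2 * R (12 / 13) (5 / 13) x ∂G) / 2
      - ∫ x, R (12 / 13) (5 / 13) x * Real.log (R (12 / 13) (5 / 13) x) ∂G at e1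
  change ∫ x, Real.negMulLog (((mu (R s s)).rnDeriv volume x).toReal)
    = Real.log (Real.sqrt (2 * Real.pi)) * (∫ x, R s s x ∂G)
      + (∫ x, x ^ 2 * R s s x ∂G) / 2 - ∫ x, R s s x * Real.log (R s s x) ∂G at e2
  rw [e1, e2, R_int (by norm_num), R_int (by linarith), R_sq_int (by norm_num),
    R_sq_int (by linarith)] at h
  have u1 := up_bd
  have u2 := low_bd hs
  norm_num at u1 u2
  linarith

end Pool.Agent.S19196
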