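import Pool.Statements.S19204
-- import your own Pool.Agent.* helpers here

set_option autoImplicit false
open MeasureTheory
open Pool Pool.MP_218893_pr

namespace Pool.Agent.S19204

/-- the ten equally likely values -/
def v : Fin 10 → ℤ := ![-3, -3, 1, 1, 2, 3, 4, 9, 11, 25]

def cnt (a b c k : ℤ) : ℕ :=
  ((Finset.univ : Finset (Fin 10 × Fin 10 × Fin 10)).filter
    (fun t => a * v t.1 + b * v t.2.1 + c * v t.2.2 = k)).card

/-- multiplicity of a value -/
def m (x : ℤ) : ℕ :=
  if x < 2 then (if x = -3 then 2 else if x = 1 then 2 else 0)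
  else if x < 5 then 1 else if x = 9 then 1 else if x = 11 then 1 else if x = 25 then 1 else 0

theorem m_eq (x : ℤ) : ((Finset.univ : Finset (Fin 10)).filter (fun l => v l = x)).card = m x := by
  by_cases hx : -3 ≤ x ∧ x ≤ 25
  · obtain ⟨h1, h2⟩ := hx
    interval_cases x <;> decide +kernel
  · have hv : ∀ l, -3 ≤ v l ∧ v l ≤ 25 := by decide
    have h0 : m x = 0 := by
      unfold m
      split_ifs <;> omega
    rw [h0, Finset.card_eq_zero, Finset.filter_eq_empty_iff]
    intro l _ h
    exact hx (h ▸ hv l)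

def vs : List ℤ := [-3, -3, 1, 1, 2, 3, 4, 9, 11, 25]

def F (a b c k : ℤ) : ℕ :=
  (vs.map fun x => (vs.map fun y => m (c * (k - a * x - b * y))).sum).sum

theorem cnt_eq (a b c k : ℤ) (hc : c = 1 ∨ c = -1) : cnt a b c k = F a b c k := by
  have h1 : cnt a b c k = ∑ i : Fin 10, ∑ j : Fin 10, m (c * (k - a * v i - b * v j)) := by
    unfold cnt
    rw [Finset.card_filter, Fintype.sum_prod_type]
    refine Finset.sum_congr rfl fun i _ => ?_
    rw [Fintype.sum_prod_type]
    refine Finset.sum_congr rfl fun j _ => ?_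
    rw [← m_eq, Finset.card_filter]
    refine Finset.sum_congr rfl fun l _ => ?_
    have : (a * v i + b * v j + c * v l = k) ↔ (v l = c * (k - a * v i - b * v j)) := by
      rcases hc with rfl | rfl <;> constructor <;> intro h <;> linarith
    simp only [this]
  rw [h1]
  simp only [F, vs, Fin.sum_univ_succ, Fin.sum_univ_zero, v, Matrix.cons_val_zero, Matrix.cons_val_succ,
    List.map_cons, List.map_nil, List.sum_cons, List.sum_nil]

theorem cnt_big : cnt 1 1 (-2) 4 = 54 := by decide +kernel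

def chk (a b c : ℤ) : Bool := (List.range 151).all fun n => decide (F a b c ((n : ℤ) - 75) ≤ 53)

theorem c1 : chk 1 1 1 = true := by decide +kernel
theorem c2 : chk 1 1 (-1) = true := by decide +kernel
theorem c3 : chk 1 (-1) 1 = true := by decide +kernel
theorem c4 : chk 1 (-1) (-1) = true := by decide +kernel
theorem c5 : chk (-1) 1 1 = true := by decide +kernel
theorem c6 : chk (-1) 1 (-1) = true := by decide +kernel
theorem c7 : chk (-1) (-1) 1 = true := by decide +kernel
theorem c8 : chk (-1) (-1) (-1) = true := by decide +kernel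

theorem of_chk {a b c : ℤ} (h : chk a b c = true) (k : ℤ) (hk : k ∈ Finset.Icc (-75 : ℤ) 75) :
    F a b c k ≤ 53 := by
  simp only [chk, List.all_eq_true, List.mem_range, decide_eq_true_eq] at h
  rw [Finset.mem_Icc] at hk
  have := h (k + 75).toNat (by omega)
  have e : (((k + 75).toNat : ℕ) : ℤ) - 75 = k := by omega
  rwa [e] at this

theorem v_abs : ∀ i, |v i| ≤ 25 := by decide

theorem cnt_le (a b c k : ℤ) (ha : a = 1 ∨ a = -1) (hb : b = 1 ∨ b = -1) (hc : c = 1 ∨ c = -1) :
    cnt a b c k ≤ 53 := by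
  by_cases hk : k ∈ Finset.Icc (-75 : ℤ) 75
  · rw [cnt_eq a b c k hc]
    rcases ha with rfl | rfl <;> rcases hb with rfl | rfl <;> rcases hc with rfl | rfl
    exacts [of_chk c1 k hk, of_chk c2 k hk, of_chk c3 k hk, of_chk c4 k hk, of_chk c5 k hk,
      of_chk c6 k hk, of_chk c7 k hk, of_chk c8 k hk]
  · have : cnt a b c k = 0 := by
      unfold cnt
      rw [Finset.card_eq_zero, Finset.filter_eq_empty_iff]
      rintro ⟨i, j, l⟩ _ h
      apply hk
      have h1 := abs_le.1 (v_abs i)
      have h2 := abs_le.1 (v_abs j)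
      have h3 := abs_le.1 (v_abs l)
      simp only [Finset.mem_Icc]
      simp only at h
      rcases ha with rfl | rfl <;> rcases hb with rfl | rfl <;> rcases hc with rfl | rfl <;>
        constructor <;> omega
    omega

noncomputable def ν : Measure (Fin 10) := (10 : ENNReal)⁻¹ • Measure.count

theorem ν_single (i : Fin 10) : ν {i} = (10 : ENNReal)⁻¹ := by
  simp [ν]

instance : IsProbabilityMeasure ν := ⟨by
  simp [ν]
  exact ENNReal.inv_mul_cancel (by norm_num) (by norm_num)⟩

def emb (i : Fin 10) : Fin 1 → ℤ := fun _ => v i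

noncomputable def μ0 : Measure (Fin 1 → ℤ) := ν.map emb

instance : IsProbabilityMeasure μ0 :=
  Measure.isProbabilityMeasure_map (measurable_of_countable emb).aemeasurable

theorem pi_eq (s : Set (Fin 3 → Fin 1 → ℤ)) (a b c k : ℤ)
    (hs : ∀ ω : Fin 3 → Fin 10, (fun i => emb (ω i)) ∈ s ↔ a * v (ω 0) + b * v (ω 1) + c * v (ω 2) = k) :
    Measure.pi (fun _ : Fin 3 => μ0) s = (cnt a b c k : ENNReal) * (10 : ENNReal)⁻¹ ^ 3 := by
  classical
  have h1 : Measure.pi (fun _ : Fin 3 => μ0) =
      (Measure.pi (fun _ : Fin 3 => ν)).map (fun ω i => emb (ω i)) := by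
    rw [Measure.pi_map_pi (fun _ => (measurable_of_countable emb).aemeasurable)]
    rfl
  rw [h1, Measure.map_apply (measurable_of_countable _) (Set.Countable.measurableSet (Set.to_countable s))]
  have h2 : (fun (ω : Fin 3 → Fin 10) i => emb (ω i)) ⁻¹' s =
      ((Finset.univ.filter (fun ω : Fin 3 → Fin 10 =>
        a * v (ω 0) + b * v (ω 1) + c * v (ω 2) = k) : Finset _) : Set _) := by
    ext ω
    simp [hs ω]
  rw [h2, ← sum_measure_singleton]
  have h3 : ∀ ω : Fin 3 → Fin 10, Measure.pi (fun _ : Fin 3 => ν) {ω} = (10 : ENNReal)⁻¹ ^ 3 := by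
    intro ω
    rw [Measure.pi_singleton]
    simp [ν_single]
  simp only [h3, Finset.sum_const, nsmul_eq_mul]
  congr 2
  unfold cnt
  refine Finset.card_bij (fun ω _ => (ω 0, ω 1, ω 2)) ?_ ?_ ?_
  · intro ω h
    simpa using h
  · intro ω _ ω' _ h
    simp only [Prod.mk.injEq] at h
    funext i
    fin_cases i
    · exact h.1
    · exact h.2.1
    · exact h.2.2
  · rintro ⟨i, j, l⟩ h
    exact ⟨![i, j, l], by simpa using h, by simp⟩

/-- The negation of the preceding statement: For every law μ on ℤ^d and iid X₁..Xₙ ~ μ, some signs wᵢ ∈ {±1} satisfy P(∑aᵢXᵢ = x) ≤ max over k ∈ ℤ^d of P(∑wᵢXᵢ = k), for all nonzero real aᵢ and all x ∈ ℝ^d. -/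
theorem result :
    ¬ (∀ (n d : ℕ) (μ : Measure (Fin d → ℤ)) [IsProbabilityMeasure μ],
      ∃ w : Fin n → ℤ, (∀ i, w i = 1 ∨ w i = -1) ∧
        ∀ a : Fin n → ℝ, (∀ i, a i ≠ 0) → ∀ x : Fin d → ℝ,
          Measure.pi (fun _ : Fin n => μ)
              {ω : Fin n → Fin d → ℤ | ∑ i, a i • (fun j => ((ω i j : ℤ) : ℝ)) = x}
            ≤ ⨆ k : Fin d → ℤ, Measure.pi (fun _ : Fin n => μ)
              {ω : Fin n → Fin d → ℤ | ∑ i, w i • ω i = k}) := by
  intro H
  obtain ⟨w, hw, h⟩ := H 3 1 μ0
  have h1 := h ![1, 1, -2] (by intro i; fin_cases i <;> simp) (fun _ => 4)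
  rw [pi_eq _ 1 1 (-2) 4 ?_, cnt_big] at h1
  · have h2 : (⨆ k : Fin 1 → ℤ, Measure.pi (fun _ : Fin 3 => μ0)
        {ω : Fin 3 → Fin 1 → ℤ | ∑ i, w i • ω i = k}) ≤ (53 : ℕ) * (10 : ENNReal)⁻¹ ^ 3 := by
      refine iSup_le fun k => ?_
      rw [pi_eq _ (w 0) (w 1) (w 2) (k 0) ?_]
      · gcongr
        exact_mod_cast cnt_le _ _ _ _ (hw 0) (hw 1) (hw 2)
      · intro ω
        simp only [Set.mem_setOf_eq, Fin.sum_univ_three]
        constructor
        · intro h
          have := congrFun h 0
          simpa [emb] using this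
        · intro h
          funext j
          have : j = 0 := Subsingleton.elim _ _
          subst this
          simpa [emb] using h
    have h3 := h1.trans h2
    rw [ENNReal.mul_le_mul_iff_left (by simp) (by simp)] at h3
    norm_num at h3
  · intro ω
    simp only [Set.mem_setOf_eq, Fin.sum_univ_three]
    constructor
    · intro h
      have := congrFun h 0
      simp [emb] at this
      have h' : ((1 * v (ω 0) + 1 * v (ω 1) + (-2) * v (ω 2) : ℤ) : ℝ) = ((4 : ℤ) : ℝ) := by
        push_cast; linarith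
      exact_mod_cast h'
    · intro h
      funext j
      have h' : ((1 * v (ω 0) + 1 * v (ω 1) + (-2) * v (ω 2) : ℤ) : ℝ) = ((4 : ℤ) : ℝ) := by
        rw [h]
      push_cast at h'
      simp [emb]
      linarith

end Pool.Agent.S19204
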