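import Pool.Statements.S19248

set_option autoImplicit false
open Filter Topology
open Pool Pool.MP_2ff427_pr

namespace Pool.Agent.S19248

open MeasureTheory
open scoped ENNReal

section general
variable {X : Type} [MeasurableSpace X]

/-- iterated lower integral of a function of the set of sampled points -/
noncomputable def J (μ : Measure X) : ℕ → (Set X → ℝ≥0∞) → ℝ≥0∞
  | 0, g => g ∅
  | n + 1, g => ∫⁻ p, J μ n (fun S => g (insert p S)) ∂μ

lemma J_mono (μ : Measure X) : ∀ (n : ℕ) (g h : Set X → ℝ≥0∞), (∀ S, g S ≤ h S) → J μ n g ≤ J μ n h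
  | 0, _, _, H => H ∅
  | n + 1, _, _, H => lintegral_mono fun p => J_mono μ n _ _ fun S => H (insert p S)

lemma J_add (μ : Measure X) : ∀ (n : ℕ) (g h : Set X → ℝ≥0∞),
    J μ n g + J μ n h ≤ J μ n (fun S => g S + h S)
  | 0, _, _ => le_rfl
  | n + 1, g, h => (le_lintegral_add _ _).trans (lintegral_mono fun p =>
      J_add μ n (fun S => g (insert p S)) (fun S => h (insert p S)))

lemma sum_le_lint {ι : Type} (μ : Measure X) (s : Finset ι) (f : ι → X → ℝ≥0∞) :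
    ∑ i ∈ s, ∫⁻ p, f i p ∂μ ≤ ∫⁻ p, ∑ i ∈ s, f i p ∂μ := by
  classical
  induction s using Finset.induction_on with
  | empty => simp
  | insert a s ha ih =>
    simp only [Finset.sum_insert ha]
    exact (add_le_add le_rfl ih).trans (le_lintegral_add _ _)

lemma J_restrict (μ : Measure X) {A : Set X} (hA : MeasurableSet A) : ∀ (n : ℕ) (g : Set X → ℝ≥0∞),
    ∑ ij ∈ Finset.HasAntidiagonal.antidiagonal n, (n.choose ij.1 : ℝ≥0∞) * (J (μ.restrict A) ij.1 g * μ Aᶜ ^ ij.2)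
      ≤ J μ n (fun S => g (S ∩ A))
  | 0, g => by simp [J]
  | n + 1, g => by
    rw [Finset.sum_antidiagonal_choose_succ_mul (fun i j => J (μ.restrict A) i g * μ Aᶜ ^ j)]
    have h0 : J μ (n + 1) (fun S => g (S ∩ A)) =
        ∫⁻ p in Aᶜ, J μ n (fun S => g (insert p S ∩ A)) ∂μ +
          ∫⁻ p in A, J μ n (fun S => g (insert p S ∩ A)) ∂μ := by
      rw [add_comm (∫⁻ p in Aᶜ, _ ∂μ), lintegral_add_compl _ hA]; rfl
    rw [h0]
    refine add_le_add ?_ ?_
    · calc _ = (∑ ij ∈ Finset.HasAntidiagonal.antidiagonal n,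
            (n.choose ij.1 : ℝ≥0∞) * (J (μ.restrict A) ij.1 g * μ Aᶜ ^ ij.2)) * μ Aᶜ := by
            rw [Finset.sum_mul]
            exact Finset.sum_congr rfl fun ij _ => by ring
        _ ≤ J μ n (fun S => g (S ∩ A)) * μ Aᶜ := by
            gcongr; exact J_restrict μ hA n g
        _ = ∫⁻ p in Aᶜ, J μ n (fun S => g (S ∩ A)) ∂μ := by rw [setLIntegral_const]
        _ ≤ _ := by
            refine setLIntegral_mono' hA.compl fun p hp => le_of_eq ?_
            congr 1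
            funext S
            rw [Set.insert_inter_of_notMem hp]
    · calc _ = ∑ ij ∈ Finset.HasAntidiagonal.antidiagonal n, ((n.choose ij.1 : ℝ≥0∞) * μ Aᶜ ^ ij.2) *
            ∫⁻ p in A, J (μ.restrict A) ij.1 (fun S => g (insert p S)) ∂μ := by
            refine Finset.sum_congr rfl fun ij hij => ?_
            have h1 : n.choose ij.2 = n.choose ij.1 :=
              (Nat.choose_symm_of_eq_add (Finset.HasAntidiagonal.mem_antidiagonal.1 hij).symm).symm
            rw [h1]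
            simp only [J]
            ring
        _ ≤ ∑ ij ∈ Finset.HasAntidiagonal.antidiagonal n, ∫⁻ p in A, ((n.choose ij.1 : ℝ≥0∞) * μ Aᶜ ^ ij.2) *
            J (μ.restrict A) ij.1 (fun S => g (insert p S)) ∂μ :=
            Finset.sum_le_sum fun ij _ => lintegral_const_mul_le _ _
        _ ≤ ∫⁻ p in A, ∑ ij ∈ Finset.HasAntidiagonal.antidiagonal n, ((n.choose ij.1 : ℝ≥0∞) * μ Aᶜ ^ ij.2) *
            J (μ.restrict A) ij.1 (fun S => g (insert p S)) ∂μ := sum_le_lint _ _ _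
        _ ≤ _ := by
            refine setLIntegral_mono' hA fun p hp => ?_
            refine le_trans (le_of_eq ?_) ((J_restrict μ hA n (fun S => g (insert p S))).trans (le_of_eq ?_))
            · exact Finset.sum_congr rfl fun ij _ => by ring
            · congr 1
              funext S
              rw [Set.insert_inter_of_mem hp]

lemma J_map (μ : Measure X) (e : X ≃ᵐ X) : ∀ (n : ℕ) (g : Set X → ℝ≥0∞),
    J (μ.map e) n g = J μ n (fun S => g (e '' S))
  | 0, g => by simp [J]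
  | n + 1, g => by
    simp only [J]
    rw [lintegral_map_equiv]
    refine lintegral_congr fun p => ?_
    rw [J_map μ e n]
    congr 1
    funext S
    rw [Set.image_insert_eq]

lemma J_eq (μ : Measure X) [SigmaFinite μ] : ∀ (n : ℕ) (g : Set X → ℝ≥0∞),
    Measurable (fun x : Fin n → X => g (Set.range x)) →
    ∫⁻ x, g (Set.range x) ∂(Measure.pi fun _ : Fin n => μ) = J μ n g
  | 0, g, _ => by
    have : ∀ x : Fin 0 → X, g (Set.range x) = g ∅ := fun x => by rw [Set.range_eq_empty]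
    simp only [this, lintegral_const, J]
    rw [Measure.pi_univ]; simp
  | n + 1, g, hg => by
    have hmp := (measurePreserving_piFinSuccAbove (fun _ : Fin (n + 1) => μ) 0).symm
    rw [hmp.lintegral_map_equiv, lintegral_prod]
    · simp only [J]
      refine lintegral_congr fun p => ?_
      have hc : ∀ y : Fin n → X, Set.range ((MeasurableEquiv.piFinSuccAbove (fun _ : Fin (n + 1) => X) 0).symm
          (p, y)) = insert p (Set.range y) := by
        intro y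
        rw [← Fin.range_cons]
        congr 1
        simp [MeasurableEquiv.piFinSuccAbove_symm_apply, Fin.insertNthEquiv]
      simp only [hc]
      refine J_eq μ n (fun S => g (insert p S)) ?_
      have := hg.comp ((MeasurableEquiv.piFinSuccAbove (fun _ : Fin (n + 1) => X) 0).symm.measurable.comp
        (measurable_prodMk_left (x := p)))
      simpa only [Function.comp_def, hc] using this
    · exact (hg.comp (MeasurableEquiv.piFinSuccAbove (fun _ : Fin (n + 1) => X) 0).symm.measurable).aemeasurable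

end general

def Rel (p q : ℝ × ℝ) : Prop := (p.1 < q.1 ∧ p.2 < q.2) ∨ (q.1 < p.1 ∧ q.2 < p.2)

def Chain (T : Finset (ℝ × ℝ)) : Prop := ∀ p ∈ T, ∀ q ∈ T, p ≠ q → Rel p q

noncomputable def Lam (S : Set (ℝ × ℝ)) : ℝ≥0∞ :=
  ⨆ (T : Finset (ℝ × ℝ)) (_ : (T : Set (ℝ × ℝ)) ⊆ S ∧ Chain T), (T.card : ℝ≥0∞)

noncomputable def L (n : ℕ) (x : Fin n → ℝ × ℝ) : ℕ :=
  sSup {k : ℕ | ∃ s : Finset (Fin n), s.card = k ∧
    ∀ i ∈ s, ∀ j ∈ s, i ≠ j →
      (((x i).1 < (x j).1 ∧ (x i).2 < (x j).2) ∨ ((x j).1 < (x i).1 ∧ (x j).2 < (x i).2))}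

lemma L_bdd (n : ℕ) (x : Fin n → ℝ × ℝ) : BddAbove {k : ℕ | ∃ s : Finset (Fin n), s.card = k ∧
    ∀ i ∈ s, ∀ j ∈ s, i ≠ j →
      (((x i).1 < (x j).1 ∧ (x i).2 < (x j).2) ∨ ((x j).1 < (x i).1 ∧ (x j).2 < (x i).2))} :=
  ⟨n, by rintro k ⟨s, rfl, -⟩; simpa using s.card_le_univ⟩

lemma L_mem (n : ℕ) (x : Fin n → ℝ × ℝ) : ∃ s : Finset (Fin n), s.card = L n x ∧
    ∀ i ∈ s, ∀ j ∈ s, i ≠ j → Rel (x i) (x j) := by
  have h := Nat.sSup_mem (Set.nonempty_of_mem (x := 0) ?_) (L_bdd n x)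
  · exact h
  · exact ⟨∅, rfl, by simp⟩

lemma le_L (n : ℕ) (x : Fin n → ℝ × ℝ) (s : Finset (Fin n))
    (h : ∀ i ∈ s, ∀ j ∈ s, i ≠ j → Rel (x i) (x j)) : s.card ≤ L n x :=
  le_csSup (L_bdd n x) ⟨s, rfl, h⟩

lemma L_le (n : ℕ) (x : Fin n → ℝ × ℝ) : L n x ≤ n := by
  obtain ⟨s, hs, -⟩ := L_mem n x
  rw [← hs]; simpa using s.card_le_univ

lemma Rel_ne {p q : ℝ × ℝ} (h : Rel p q) : p ≠ q := by
  rintro rfl
  rcases h with h | h <;> exact lt_irrefl _ h.1

lemma L_eq (n : ℕ) (x : Fin n → ℝ × ℝ) : Lam (Set.range x) = (L n x : ℝ≥0∞) := by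
  classical
  apply le_antisymm
  · refine iSup₂_le fun T hT => ?_
    obtain ⟨u, -, hinj, rfl⟩ := Finset.exists_subset_injOn_image_eq_of_surjOn (f := x) Set.univ T
      (by intro p hp; simpa using hT.1 hp)
    rw [Finset.card_image_of_injOn hinj]
    have := le_L n x u fun i hi j hj hij => hT.2 _ (Finset.mem_image_of_mem _ hi) _
      (Finset.mem_image_of_mem _ hj) fun h => hij (hinj hi hj h)
    exact_mod_cast this
  · obtain ⟨s, hs, h⟩ := L_mem n x
    have hinj : Set.InjOn x s := fun i hi j hj hij => by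
      by_contra hne
      exact Rel_ne (h i hi j hj hne) hij
    refine le_iSup₂_of_le (s.image x) ⟨?_, ?_⟩ ?_
    · intro p hp
      simp only [Finset.coe_image, Set.mem_image] at hp
      obtain ⟨i, -, rfl⟩ := hp
      exact ⟨i, rfl⟩
    · intro p hp q hq hpq
      obtain ⟨i, hi, rfl⟩ := Finset.mem_image.1 hp
      obtain ⟨j, hj, rfl⟩ := Finset.mem_image.1 hq
      exact h i hi j hj fun hij => hpq (by rw [hij])
    · rw [Finset.card_image_of_injOn hinj, hs]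

lemma L_meas (n : ℕ) : Measurable (L n) := by
  refine measurable_of_Ioi fun k => ?_
  have : L n ⁻¹' Set.Ioi k = ⋃ s : Finset (Fin n), ⋃ _ : k < s.card,
      ⋂ i ∈ s, ⋂ j ∈ s, ⋂ _ : i ≠ j, {x : Fin n → ℝ × ℝ | Rel (x i) (x j)} := by
    ext x
    simp only [Set.mem_preimage, Set.mem_Ioi, Set.mem_iUnion, Set.mem_iInter, Set.mem_setOf_eq]
    constructor
    · intro h
      obtain ⟨s, hs, h'⟩ := L_mem n x
      exact ⟨s, hs ▸ h, h'⟩
    · rintro ⟨s, hs, h'⟩
      exact hs.trans_le (le_L n x s h')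
  rw [this]
  refine MeasurableSet.iUnion fun s => MeasurableSet.iUnion fun _ => ?_
  refine MeasurableSet.iInter fun i => MeasurableSet.iInter fun _ => ?_
  refine MeasurableSet.iInter fun j => MeasurableSet.iInter fun _ => MeasurableSet.iInter fun _ => ?_
  have m1 : ∀ i : Fin n, Measurable fun x : Fin n → ℝ × ℝ => (x i).1 := fun i => by fun_prop
  have m2 : ∀ i : Fin n, Measurable fun x : Fin n → ℝ × ℝ => (x i).2 := fun i => by fun_prop
  exact ((measurableSet_lt (m1 i) (m1 j)).inter (measurableSet_lt (m2 i) (m2 j))).union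
    ((measurableSet_lt (m1 j) (m1 i)).inter (measurableSet_lt (m2 j) (m2 i)))

lemma Lam_add {A B : Set (ℝ × ℝ)} (h : ∀ p ∈ A, ∀ q ∈ B, Rel p q) (S : Set (ℝ × ℝ)) :
    Lam (S ∩ A) + Lam (S ∩ B) ≤ Lam S := by
  classical
  refine ENNReal.biSup_add_biSup_le' ⟨∅, by simp, by simp [Chain]⟩ ⟨∅, by simp, by simp [Chain]⟩
    fun T hT U hU => ?_
  have hd : Disjoint T U := Finset.disjoint_left.2 fun p hp hq =>
    Rel_ne (h p (hT.1 hp).2 p (hU.1 hq).2) rfl
  refine le_iSup₂_of_le (T ∪ U) ⟨?_, ?_⟩ ?_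
  · intro p hp
    rcases Finset.mem_union.1 (Finset.mem_coe.1 hp) with hp | hp
    exacts [(hT.1 hp).1, (hU.1 hp).1]
  · intro p hp q hq hpq
    rcases Finset.mem_union.1 hp with hp | hp <;> rcases Finset.mem_union.1 hq with hq | hq
    · exact hT.2 p hp q hq hpq
    · exact h p (hT.1 hp).2 q (hU.1 hq).2
    · exact (h q (hT.1 hq).2 p (hU.1 hp).2).symm
    · exact hU.2 p hp q hq hpq
  · rw [Finset.card_union_of_disjoint hd]; push_cast; exact le_rfl

lemma Lam_shift (v : ℝ × ℝ) (S : Set (ℝ × ℝ)) : Lam S ≤ Lam ((MeasurableEquiv.addRight v) '' S) := by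
  classical
  refine iSup₂_le fun T hT => ?_
  refine le_iSup₂_of_le (T.image (· + v)) ⟨?_, ?_⟩ ?_
  · intro p hp
    simp only [Finset.coe_image, Set.mem_image] at hp
    obtain ⟨q, hq, rfl⟩ := hp
    exact ⟨q, hT.1 hq, rfl⟩
  · intro p hp q hq hpq
    obtain ⟨p', hp', rfl⟩ := Finset.mem_image.1 hp
    obtain ⟨q', hq', rfl⟩ := Finset.mem_image.1 hq
    have := hT.2 p' hp' q' hq' fun h => hpq (by rw [h])
    unfold Rel at this ⊢
    simpa using this
  · rw [Finset.card_image_of_injective _ (add_left_injective v)]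

/-- the strip piece -/
def Rect (a b c : ℝ) : Set (ℝ × ℝ) := {p | a ≤ p.1 + p.2 ∧ p.1 + p.2 ≤ b ∧ |p.1 - p.2| ≤ c}

lemma Rect_meas (a b c : ℝ) : MeasurableSet (Rect a b c) := by
  have m1 : Measurable fun p : ℝ × ℝ => p.1 + p.2 := by fun_prop
  have m2 : Measurable fun p : ℝ × ℝ => |p.1 - p.2| := by fun_prop
  exact (measurableSet_le measurable_const m1).inter
    ((measurableSet_le m1 measurable_const).inter (measurableSet_le m2 measurable_const))

lemma Rect_vol (a b c : ℝ) (hab : a ≤ b) (hc : 0 ≤ c) :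
    volume (Rect a b c) = ENNReal.ofReal ((b - a) * c) := by
  set f : ℝ × ℝ →ₗ[ℝ] ℝ × ℝ :=
    Matrix.toLin (Module.Basis.finTwoProd ℝ) (Module.Basis.finTwoProd ℝ) !![1, 1; 1, -1] with hf
  have hdet : LinearMap.det f = -2 := by
    rw [hf, LinearMap.det_toLin, Matrix.det_fin_two_of]; norm_num
  have h1 : Rect a b c = f ⁻¹' (Set.Icc a b ×ˢ Set.Icc (-c) c) := by
    ext p
    simp only [Rect, hf, Set.mem_preimage, Matrix.toLin_finTwoProd_apply, Set.mem_prod, Set.mem_Icc,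
      Set.mem_setOf_eq, abs_le, one_mul, neg_mul, sub_eq_add_neg, and_assoc]
  rw [h1, Measure.addHaar_preimage_linearMap _ (by rw [hdet]; norm_num), hdet, Measure.volume_eq_prod,
    Measure.prod_prod, Real.volume_Icc, Real.volume_Icc, ← ENNReal.ofReal_mul (by linarith),
    ← ENNReal.ofReal_mul (by positivity)]
  congr 1
  rw [abs_of_neg (by norm_num)]
  ring

noncomputable def I (R : Set (ℝ × ℝ)) (n : ℕ) : ℝ :=
  ∫ x in Set.univ.pi (fun _ : Fin n => R), ((L n x : ℕ) : ℝ)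

lemma J_Lam (R : Set (ℝ × ℝ)) (n : ℕ) :
    J (volume.restrict R) n Lam =
      ∫⁻ x, (L n x : ℝ≥0∞) ∂(Measure.pi fun _ : Fin n => volume.restrict R) := by
  rw [← J_eq]
  · simp only [L_eq]
  · simp only [L_eq]
    exact measurable_from_top.comp (L_meas n)

lemma J_Lam_le (R : Set (ℝ × ℝ)) (n : ℕ) :
    J (volume.restrict R) n Lam ≤ n * volume R ^ n := by
  rw [J_Lam]
  calc _ ≤ ∫⁻ _x, (n : ℝ≥0∞) ∂(Measure.pi fun _ : Fin n => volume.restrict R) :=
        lintegral_mono fun x => Nat.cast_le.2 (L_le n x)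
    _ = _ := by rw [lintegral_const, Measure.pi_univ]; simp

lemma J_Lam_ne {R : Set (ℝ × ℝ)} (hR : volume R ≠ ∞) (n : ℕ) : J (volume.restrict R) n Lam ≠ ∞ :=
  ne_top_of_le_ne_top (ENNReal.mul_ne_top (ENNReal.natCast_ne_top n) (ENNReal.pow_ne_top hR))
    (J_Lam_le R n)

lemma I_eq (R : Set (ℝ × ℝ)) (n : ℕ) : I R n = (J (volume.restrict R) n Lam).toReal := by
  rw [J_Lam, I, volume_pi, Measure.restrict_pi_pi, integral_eq_lintegral_of_nonneg_ae]
  · simp
  · exact Eventually.of_forall fun x => Nat.cast_nonneg _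
  · exact (measurable_from_top.comp (L_meas n)).aestronglyMeasurable

lemma I_nonneg (R : Set (ℝ × ℝ)) (n : ℕ) : 0 ≤ I R n := by
  rw [I_eq]; exact ENNReal.toReal_nonneg

lemma I_summable {R : Set (ℝ × ℝ)} (hR : volume R ≠ ∞) :
    Summable fun n : ℕ => I R n / (n.factorial : ℝ) := by
  refine Summable.of_nonneg_of_le (fun n => div_nonneg (I_nonneg R n) (Nat.cast_nonneg _)) (fun n => ?_)
    (Real.summable_pow_div_factorial (2 * (volume R).toReal))
  gcongr
  rw [I_eq]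
  have h1 := ENNReal.toReal_mono (ENNReal.mul_ne_top (ENNReal.natCast_ne_top n) (ENNReal.pow_ne_top hR))
    (J_Lam_le R n)
  refine h1.trans ?_
  rw [ENNReal.toReal_mul, ENNReal.toReal_pow, ENNReal.toReal_natCast, mul_pow]
  gcongr
  exact_mod_cast (Nat.lt_two_pow_self (n := n)).le

lemma conv_le {R A : Set (ℝ × ℝ)} (hR : volume R ≠ ∞) (hA : MeasurableSet A) (hAR : A ⊆ R) (n : ℕ) :
    ∑ ij ∈ Finset.HasAntidiagonal.antidiagonal n, (I A ij.1 / (ij.1.factorial : ℝ)) *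
        (((volume R).toReal - (volume A).toReal) ^ ij.2 / (ij.2.factorial : ℝ))
      ≤ (J (volume.restrict R) n (fun S => Lam (S ∩ A))).toReal / (n.factorial : ℝ) := by
  have hAf : volume A ≠ ∞ := ne_top_of_le_ne_top hR (measure_mono hAR)
  have h1 := J_restrict (volume.restrict R) hA n Lam
  rw [Measure.restrict_restrict hA, Set.inter_eq_left.2 hAR, Measure.restrict_apply hA.compl] at h1
  have h2 : volume (Aᶜ ∩ R) = volume R - volume A := by
    rw [Set.inter_comm, ← Set.diff_eq, measure_diff hAR hA.nullMeasurableSet hAf]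
  have hfin : J (volume.restrict R) n (fun S => Lam (S ∩ A)) ≠ ∞ := by
    refine ne_top_of_le_ne_top (J_Lam_ne hR n) (J_mono _ n _ _ fun S => ?_)
    exact iSup₂_le fun T hT => le_iSup₂_of_le T ⟨hT.1.trans Set.inter_subset_left, hT.2⟩ le_rfl
  have h3 := ENNReal.toReal_mono hfin h1
  have hsub : volume R - volume A ≠ ∞ := ENNReal.sub_ne_top hR
  rw [h2, ENNReal.toReal_sum (fun ij _ => ENNReal.mul_ne_top (ENNReal.natCast_ne_top _)
    (ENNReal.mul_ne_top (J_Lam_ne hAf _) (ENNReal.pow_ne_top hsub)))] at h3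
  rw [le_div_iff₀ (by positivity), Finset.sum_mul]
  refine le_trans (le_of_eq ?_) h3
  refine Finset.sum_congr rfl fun ij hij => ?_
  rw [ENNReal.toReal_mul, ENNReal.toReal_mul, ENNReal.toReal_pow, ENNReal.toReal_natCast, ← I_eq,
    ENNReal.toReal_sub_of_le (measure_mono hAR) hR]
  have h4 : (n.factorial : ℝ) = (n.choose ij.1 : ℝ) * ij.1.factorial * ij.2.factorial := by
    have := Nat.add_choose_mul_factorial_mul_factorial ij.2 ij.1
    rw [add_comm, Finset.HasAntidiagonal.mem_antidiagonal.1 hij] at this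
    rw [← this]; push_cast; ring
  rw [h4]
  have : (ij.1.factorial : ℝ) ≠ 0 := by positivity
  have : (ij.2.factorial : ℝ) ≠ 0 := by positivity
  field_simp

noncomputable def F (R : Set (ℝ × ℝ)) : ℝ := ∑' n : ℕ, I R n / (n.factorial : ℝ)

lemma conv_hasSum {A : Set (ℝ × ℝ)} (hA : volume A ≠ ∞) (c : ℝ) :
    HasSum (fun n : ℕ => ∑ ij ∈ Finset.HasAntidiagonal.antidiagonal n, (I A ij.1 / (ij.1.factorial : ℝ)) *
        (c ^ ij.2 / (ij.2.factorial : ℝ))) (F A * Real.exp c) := by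
  have h1 : Summable fun n : ℕ => ‖I A n / (n.factorial : ℝ)‖ := (I_summable hA).norm
  have h2 : Summable fun n : ℕ => ‖c ^ n / (n.factorial : ℝ)‖ := (Real.summable_pow_div_factorial c).norm
  have h3 := (summable_norm_sum_mul_antidiagonal_of_summable_norm h1 h2).of_norm.hasSum
  rw [← tsum_mul_tsum_eq_tsum_sum_antidiagonal_of_summable_norm h1 h2] at h3
  rw [Real.exp_eq_exp_ℝ, NormedSpace.exp_eq_tsum_div]
  exact h3

lemma F_super {R A B : Set (ℝ × ℝ)} (hR : volume R ≠ ∞) (hA : MeasurableSet A) (hAR : A ⊆ R)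
    (hB : MeasurableSet B) (hBR : B ⊆ R) (h : ∀ p ∈ A, ∀ q ∈ B, Rel p q) :
    F A * Real.exp ((volume R).toReal - (volume A).toReal) +
      F B * Real.exp ((volume R).toReal - (volume B).toReal) ≤ F R := by
  have hAf : volume A ≠ ∞ := ne_top_of_le_ne_top hR (measure_mono hAR)
  have hBf : volume B ≠ ∞ := ne_top_of_le_ne_top hR (measure_mono hBR)
  refine hasSum_le (fun n => ?_) ((conv_hasSum hAf _).add (conv_hasSum hBf _)) (I_summable hR).hasSum
  refine (add_le_add (conv_le hR hA hAR n) (conv_le hR hB hBR n)).trans ?_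
  rw [← add_div]
  gcongr
  have h1 := (J_add (volume.restrict R) n (fun S => Lam (S ∩ A)) (fun S => Lam (S ∩ B))).trans
    (J_mono _ n _ _ (Lam_add h))
  have h2 := ne_top_of_le_ne_top (J_Lam_ne hR n) h1
  rw [← ENNReal.toReal_add (ENNReal.add_ne_top.1 h2).1 (ENNReal.add_ne_top.1 h2).2, I_eq]
  exact ENNReal.toReal_mono (J_Lam_ne hR n) h1

lemma F_shift (a b c t : ℝ) (hab : a ≤ b) (hc : 0 ≤ c) :
    F (Rect a b c) ≤ F (Rect (a + t) (b + t) c) := by
  have hf : ∀ a b : ℝ, a ≤ b → volume (Rect a b c) ≠ ∞ := fun a b hab => by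
    rw [Rect_vol a b c hab hc]; exact ENNReal.ofReal_ne_top
  refine Summable.tsum_le_tsum (fun n => ?_) (I_summable (hf _ _ hab)) (I_summable (hf _ _ (by linarith)))
  gcongr
  rw [I_eq, I_eq]
  refine ENNReal.toReal_mono (J_Lam_ne (hf _ _ (by linarith)) n) ?_
  set e := MeasurableEquiv.addRight ((t / 2, t / 2) : ℝ × ℝ) with he
  have h1 : volume.restrict (Rect (a + t) (b + t) c) = (volume.restrict (Rect a b c)).map e := by
    have h2 : Rect a b c = e ⁻¹' Rect (a + t) (b + t) c := by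
      ext p
      simp only [Rect, he, Set.mem_preimage, Set.mem_setOf_eq, MeasurableEquiv.coe_addRight, Prod.fst_add,
        Prod.snd_add]
      have : p.1 + t / 2 - (p.2 + t / 2) = p.1 - p.2 := by ring
      rw [this]
      constructor <;> rintro ⟨h1, h2, h3⟩ <;> exact ⟨by linarith, by linarith, h3⟩
    rw [h2, ← MeasurableEquiv.restrict_map]
    congr 1
    exact (map_add_right_eq_self volume _).symm
  rw [h1, J_map]
  exact J_mono _ n _ _ (Lam_shift _)

noncomputable def f (ℓ w : ℝ) : ℝ :=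
  ∑' n : ℕ, Real.exp (-(ℓ * w)) / (n.factorial : ℝ) * I (Rect 0 (Real.sqrt 2 * ℓ) (Real.sqrt 2 * w / 2)) n

lemma f_eq (ℓ w : ℝ) : f ℓ w = Real.exp (-(ℓ * w)) * F (Rect 0 (Real.sqrt 2 * ℓ) (Real.sqrt 2 * w / 2)) := by
  rw [f, F, ← tsum_mul_left]
  exact tsum_congr fun n => by ring

lemma f_super (ℓ w : ℝ) (hℓ : 0 ≤ ℓ) (hw : 0 < w) : 2 * f ℓ w ≤ f (2 * ℓ + 2 * w) w := by
  have hs : 0 < Real.sqrt 2 := Real.sqrt_pos.2 (by norm_num)
  have hss : Real.sqrt 2 * Real.sqrt 2 = 2 := Real.mul_self_sqrt (by norm_num)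
  set r := Real.sqrt 2 with hr
  have hc : 0 ≤ r * w / 2 := by positivity
  have h1 : 0 ≤ r * ℓ := by positivity
  have h2 : 0 < r * w := by positivity
  have hR : volume (Rect 0 (r * (2 * ℓ + 2 * w)) (r * w / 2)) = ENNReal.ofReal ((2 * ℓ + 2 * w) * w) := by
    rw [Rect_vol _ _ _ (by positivity) hc]; congr 1; linear_combination (ℓ + w) * w * hss
  have hA : volume (Rect 0 (r * ℓ) (r * w / 2)) = ENNReal.ofReal (ℓ * w) := by
    rw [Rect_vol _ _ _ h1 hc]; congr 1; linear_combination ℓ * w / 2 * hss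
  have hB : volume (Rect (0 + r * (ℓ + 2 * w)) (r * ℓ + r * (ℓ + 2 * w)) (r * w / 2)) =
      ENNReal.ofReal (ℓ * w) := by
    rw [Rect_vol _ _ _ (by linarith) hc]; congr 1; linear_combination ℓ * w / 2 * hss
  have H := F_super (R := Rect 0 (r * (2 * ℓ + 2 * w)) (r * w / 2)) (A := Rect 0 (r * ℓ) (r * w / 2))
    (B := Rect (0 + r * (ℓ + 2 * w)) (r * ℓ + r * (ℓ + 2 * w)) (r * w / 2))
    (by rw [hR]; exact ENNReal.ofReal_ne_top) (Rect_meas _ _ _)
    (by rintro p ⟨h3, h4, h5⟩; exact ⟨h3, by nlinarith, h5⟩) (Rect_meas _ _ _)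
    (by rintro p ⟨h3, h4, h5⟩; exact ⟨by nlinarith, by nlinarith, h5⟩)
    (by
      rintro p ⟨h3, h4, h5⟩ q ⟨h6, h7, h8⟩
      rw [abs_le] at h5 h8
      left
      constructor <;> nlinarith [h5.1, h5.2, h8.1, h8.2])
  rw [hR, hA, hB, ENNReal.toReal_ofReal (by positivity), ENNReal.toReal_ofReal (by positivity)] at H
  have H2 := F_shift 0 (r * ℓ) (r * w / 2) (r * (ℓ + 2 * w)) h1 hc
  rw [f_eq, f_eq]
  have he : Real.exp (-(ℓ * w)) =
      Real.exp (-((2 * ℓ + 2 * w) * w)) * Real.exp ((2 * ℓ + 2 * w) * w - ℓ * w) := by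
    rw [← Real.exp_add]; congr 1; ring
  rw [he]
  have p1 := Real.exp_pos (-((2 * ℓ + 2 * w) * w))
  have p2 := Real.exp_pos ((2 * ℓ + 2 * w) * w - ℓ * w)
  have H3 := mul_le_mul_of_nonneg_right H2 p2.le
  have H4 : 2 * (Real.exp ((2 * ℓ + 2 * w) * w - ℓ * w) * F (Rect 0 (r * ℓ) (r * w / 2))) ≤
      F (Rect 0 (r * (2 * ℓ + 2 * w)) (r * w / 2)) := by linarith
  have H5 := mul_le_mul_of_nonneg_left H4 p1.le
  linarith

noncomputable def W (ℓ : ℝ) : ℝ := 16 ^ Nat.log 65536 ⌊ℓ⌋₊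

lemma W_tendsto : Tendsto W atTop atTop := by
  refine (tendsto_pow_atTop_atTop_of_one_lt (by norm_num : (1 : ℝ) < 16)).comp ?_
  refine Tendsto.comp (g := Nat.log 65536) ?_ tendsto_nat_floor_atTop
  refine tendsto_atTop.2 fun k => ?_
  filter_upwards [eventually_ge_atTop (65536 ^ k)] with m hm
  exact Nat.le_log_of_pow_le (by norm_num) hm

lemma W_small : Tendsto (fun ℓ : ℝ => W ℓ / ℓ ^ ((2 : ℝ) / 3)) atTop (𝓝 0) := by
  have h := tendsto_rpow_neg_atTop (show (0 : ℝ) < 5 / 12 by norm_num)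
  refine tendsto_of_tendsto_of_tendsto_of_le_of_le' tendsto_const_nhds h ?_ ?_
  · filter_upwards [eventually_ge_atTop (0 : ℝ)] with ℓ hℓ
    unfold W; positivity
  · filter_upwards [eventually_ge_atTop (1 : ℝ)] with ℓ hℓ
    have hpos : 0 < ℓ := by linarith
    have h1 : 65536 ^ Nat.log 65536 ⌊ℓ⌋₊ ≤ ⌊ℓ⌋₊ :=
      Nat.pow_log_le_self _ (Nat.floor_pos.2 hℓ).ne'
    have h2 : W ℓ ^ 4 ≤ ℓ := by
      have h3 : ((65536 ^ Nat.log 65536 ⌊ℓ⌋₊ : ℕ) : ℝ) ≤ ℓ :=
        (Nat.cast_le.2 h1).trans (Nat.floor_le hpos.le)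
      unfold W
      rw [← pow_mul, mul_comm, pow_mul]
      push_cast at h3
      norm_num
      exact h3
    have h4 : W ℓ ≤ ℓ ^ ((1 : ℝ) / 4) := by
      have hW : 0 ≤ W ℓ := by unfold W; positivity
      have := Real.rpow_le_rpow (pow_nonneg hW 4) h2 (show (0 : ℝ) ≤ 1 / 4 by norm_num)
      rwa [← Real.rpow_natCast, ← Real.rpow_mul hW, show ((4 : ℕ) : ℝ) * (1 / 4) = 1 by norm_num,
        Real.rpow_one] at this
    rw [div_le_iff₀ (by positivity), ← Real.rpow_add hpos]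
    norm_num
    exact h4

lemma W_val (j : ℕ) (ℓ : ℝ) (h1 : ((2 : ℝ) ^ j) ^ 16 ≤ ℓ) (h2 : ℓ ≤ 3 * ((2 : ℝ) ^ j) ^ 16) :
    W ℓ = ((2 : ℝ) ^ j) ^ 4 := by
  have e : ((2 : ℝ) ^ j) ^ 16 = ((65536 ^ j : ℕ) : ℝ) := by
    rw [← pow_mul, mul_comm, pow_mul]; push_cast; norm_num
  have hl : Nat.log 65536 ⌊ℓ⌋₊ = j := by
    refine Nat.log_eq_of_pow_le_of_lt_pow (Nat.le_floor (e ▸ h1)) ?_
    have hpos : (0 : ℝ) < ((65536 ^ j : ℕ) : ℝ) := by positivity
    rw [Nat.floor_lt (by linarith)]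
    rw [e] at h2
    push_cast at h2 hpos ⊢
    rw [pow_succ]
    linarith
  unfold W
  rw [hl, ← pow_mul, mul_comm, pow_mul]
  norm_num

/-- The negation of the preceding statement: There are constants c1,c2>0 such that for every width w(l)→∞ with w/l^(2/3)→0, the expected longest increasing chain of a rate-1 Poisson process in a 45°-rotated l-by-w rectangle equals √2 l − c1 l/w + c2 l^(1/2) w^(-1/4)(1+o(1)). -/
theorem result :
    ¬ (∃ c₁ c₂ : ℝ, 0 < c₁ ∧ 0 < c₂ ∧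
      ∀ w : ℝ → ℝ, Tendsto w atTop atTop →
        Tendsto (fun ℓ : ℝ => w ℓ / ℓ ^ ((2 : ℝ) / 3)) atTop (𝓝 0) →
        Tendsto (fun ℓ : ℝ =>
          ((∑' n : ℕ, Real.exp (-(ℓ * w ℓ)) / (n.factorial : ℝ) *
              ∫ x in Set.univ.pi (fun _ : Fin n =>
                  {p : ℝ × ℝ | 0 ≤ p.1 + p.2 ∧ p.1 + p.2 ≤ Real.sqrt 2 * ℓ ∧
                    |p.1 - p.2| ≤ Real.sqrt 2 * w ℓ / 2}),
                (((sSup {k : ℕ | ∃ s : Finset (Fin n), s.card = k ∧
                    ∀ i ∈ s, ∀ j ∈ s, i ≠ j →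
                      (((x i).1 < (x j).1 ∧ (x i).2 < (x j).2) ∨
                       ((x j).1 < (x i).1 ∧ (x j).2 < (x i).2))}) : ℕ) : ℝ))
            - Real.sqrt 2 * ℓ + c₁ * ℓ / w ℓ)
          / (c₂ * ℓ ^ ((1 : ℝ) / 2) / (w ℓ) ^ ((1 : ℝ) / 4)))
          atTop (𝓝 1)) := by
  rintro ⟨c₁, c₂, hc₁, hc₂, H⟩
  have H1 : Tendsto (fun ℓ : ℝ => (f ℓ (W ℓ) - Real.sqrt 2 * ℓ + c₁ * ℓ / W ℓ) /
      (c₂ * ℓ ^ ((1 : ℝ) / 2) / (W ℓ) ^ ((1 : ℝ) / 4))) atTop (𝓝 1) := H W W_tendsto W_small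
  have H2 := (H1.eventually (lt_mem_nhds (show (99 / 100 : ℝ) < 1 by norm_num))).and
    (H1.eventually (gt_mem_nhds (show (1 : ℝ) < 101 / 100 by norm_num)))
  obtain ⟨M, hM⟩ := eventually_atTop.1 H2
  obtain ⟨j, hj⟩ := ((tendsto_pow_atTop_atTop_of_one_lt (show (1 : ℝ) < 2 by norm_num)).eventually
    ((eventually_ge_atTop M).and ((eventually_ge_atTop 2).and (eventually_gt_atTop (20 / c₂))))).exists
  obtain ⟨hj1, hj2, hj3⟩ := hj
  have hW1 := W_val j _ le_rfl (by have : (0 : ℝ) < ((2 : ℝ) ^ j) ^ 16 := by positivity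
                                   linarith)
  have hq4 : 2 * ((2 : ℝ) ^ j) ^ 4 ≤ ((2 : ℝ) ^ j) ^ 16 := by
    have h1 : (2 : ℝ) ≤ ((2 : ℝ) ^ j) ^ 12 := hj2.trans (le_self_pow₀ (by linarith) (by norm_num))
    have h2 : (0 : ℝ) < ((2 : ℝ) ^ j) ^ 4 := by positivity
    calc _ ≤ ((2 : ℝ) ^ j) ^ 12 * ((2 : ℝ) ^ j) ^ 4 := by gcongr
      _ = _ := by ring
  have hW2 := W_val j (2 * ((2 : ℝ) ^ j) ^ 16 + 2 * ((2 : ℝ) ^ j) ^ 4)
    (by have : (0 : ℝ) < ((2 : ℝ) ^ j) ^ 16 := by positivity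
        have : (0 : ℝ) < ((2 : ℝ) ^ j) ^ 4 := by positivity
        linarith) (by linarith)
  generalize (2 : ℝ) ^ j = q at *
  have hq : 0 < q := by linarith
  have hq16 : q ≤ q ^ 16 := le_self_pow₀ (by linarith) (by norm_num)
  have hq4p : 0 < q ^ 4 := by positivity
  have hu := (hM (q ^ 16) (by linarith)).1
  have hv := (hM (2 * q ^ 16 + 2 * q ^ 4) (by linarith)).2
  have hs := f_super (q ^ 16) (q ^ 4) (by positivity) hq4p
  rw [hW1] at hu
  rw [hW2] at hv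
  have e1 : (q ^ 4) ^ ((1 : ℝ) / 4) = q := by
    rw [← Real.rpow_natCast, ← Real.rpow_mul hq.le]; norm_num
  have e2 : (q ^ 16) ^ ((1 : ℝ) / 2) = q ^ 8 := by
    rw [← Real.rpow_natCast, ← Real.rpow_mul hq.le, ← Real.rpow_natCast]; norm_num
  have e3 : (2 * q ^ 16 + 2 * q ^ 4) ^ ((1 : ℝ) / 2) ≤ 7 / 4 * q ^ 8 := by
    rw [← Real.sqrt_eq_rpow, Real.sqrt_le_left (by positivity)]
    have : 0 < q ^ 16 := by positivity
    nlinarith
  have e4 : 0 < (2 * q ^ 16 + 2 * q ^ 4) ^ ((1 : ℝ) / 2) := by positivity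
  rw [e1, e2] at hu
  rw [e1] at hv
  have e5 : c₂ * q ^ 8 / q = c₂ * q ^ 7 := by field_simp
  rw [e5, lt_div_iff₀ (by positivity)] at hu
  rw [div_lt_iff₀ (by positivity)] at hv
  have e6 : c₂ * (2 * q ^ 16 + 2 * q ^ 4) ^ ((1 : ℝ) / 2) / q ≤ 7 / 4 * (c₂ * q ^ 7) := by
    rw [div_le_iff₀ hq]
    calc _ ≤ c₂ * (7 / 4 * q ^ 8) := by gcongr
      _ = _ := by ring
  have e7 : c₁ * (2 * q ^ 16 + 2 * q ^ 4) / q ^ 4 = 2 * (c₁ * q ^ 16 / q ^ 4) + 2 * c₁ := by
    field_simp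
  rw [e7] at hv
  have hr : Real.sqrt 2 ≤ 2 := by
    rw [Real.sqrt_le_left (by norm_num)]; norm_num
  have e8 : 20 < c₂ * q := by rwa [div_lt_iff₀ hc₂, mul_comm] at hj3
  have e9 : q ^ 4 ≤ q ^ 6 := pow_le_pow_right₀ (by linarith) (by norm_num)
  have e10 : 20 * q ^ 4 ≤ c₂ * q ^ 7 := by
    calc 20 * q ^ 4 ≤ (c₂ * q) * q ^ 6 := by gcongr
      _ = _ := by ring
  have e11 : Real.sqrt 2 * q ^ 4 ≤ 2 * q ^ 4 := by gcongr
  have e12 : 0 < c₂ * q ^ 7 := by positivity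
  linarith

end Pool.Agent.S19248
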