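import Pool.Statements.S19285

set_option autoImplicit false
open MeasureTheory ProbabilityTheory
open scoped NNReal
open Pool Pool.MP_429aeb_pr

namespace Pool.Agent.S19285

open Matrix Finset

lemma marg {ι α : Type} [Fintype ι] [DecidableEq ι] [MeasurableSpace α] (ν : Measure α)
    [IsProbabilityMeasure ν] {S : Set (ι → α)} (hS : MeasurableSet S) (i : ι) {b : ENNReal}
    (h : ∀ G, ν {g | Function.update G i g ∈ S} ≤ b) : Measure.pi (fun _ : ι => ν) S ≤ b := by
  have := lintegral_le_of_lmarginal_le (μ := fun _ : ι => ν) {i} (f := S.indicator 1)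
    (g := fun _ => b) (measurable_one.indicator hS) measurable_const fun G => by
      simp only [lmarginal_singleton, lintegral_const, measure_univ, mul_one]
      refine le_trans (le_of_eq ?_) (h G)
      exact lintegral_indicator_one (hS.preimage (measurable_update G))
  simpa [lintegral_indicator_one hS] using this

lemma g1 {σ : ℝ≥0} (hσ : 0 < σ) (a r : ℝ) :
    gaussianReal 0 (σ ^ 2) (Metric.ball a r) ≤ ENNReal.ofReal (2 * r / σ) := by
  have h : (0 : ℝ) < σ := hσ
  rw [gaussianReal_apply _ (by positivity), div_eq_inv_mul, ENNReal.ofReal_mul (by positivity),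
    ← Real.volume_ball a, ← setLIntegral_const]
  refine lintegral_mono fun x => ENNReal.ofReal_le_ofReal ?_
  refine (mul_le_of_le_one_right (by positivity) (Real.exp_le_one_iff.2
    (div_nonpos_of_nonpos_of_nonneg (by nlinarith [sq_nonneg (x - 0)]) (by positivity)))).trans ?_
  refine inv_anti₀ h (Real.le_sqrt_of_sq_le ?_)
  push_cast
  nlinarith [Real.pi_gt_three, sq_nonneg (σ : ℝ)]

lemma big {n : ℕ} {v : Fin n → ℝ} (hv : v ⬝ᵥ v = 1) : ∃ l, 1 ≤ (n * v l) ^ 2 := by
  by_contra! h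
  rcases n with _ | n
  · simp [dotProduct] at hv
  have := sum_lt_sum_of_nonempty univ_nonempty fun l (_ : l ∈ univ) => h l
  simp only [mul_pow, ← mul_sum, sq (v _)] at this
  rw [show ∑ l, v l * v l = 1 from hv] at this
  simp at this
  nlinarith [(Nat.cast_nonneg n : (0 : ℝ) ≤ n)]

lemma slab {σ : ℝ≥0} (hσ : 0 < σ) {n : ℕ} (a : Fin n → ℝ) {v : Fin n → ℝ} (hv : v ⬝ᵥ v = 1)
    (r : ℝ) : Measure.pi (fun _ : Fin n => gaussianReal 0 (σ ^ 2)) {g | |(a + g) ⬝ᵥ v| < r} ≤
      ENNReal.ofReal (2 * (n * r) / σ) := by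
  obtain ⟨l, hl⟩ := big hv
  refine marg _ (isOpen_lt (by fun_prop) continuous_const).measurableSet l fun G =>
    le_trans (measure_mono fun g hg => ?_) (g1 hσ (-((a + Function.update G l 0) ⬝ᵥ v) / v l) _)
  have h0 : v l ≠ 0 := fun h => by norm_num [h] at hl
  have e : (a + Function.update G l g) ⬝ᵥ v =
      (g - -((a + Function.update G l 0) ⬝ᵥ v) / v l) * v l := by
    have : Function.update G l g = Function.update G l 0 + Pi.single l g := by
      ext k; by_cases h : k = l <;> simp [h]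
    rw [this, ← add_assoc, add_dotProduct _ (Pi.single l g), single_dotProduct]
    field_simp; ring
  change |(a + Function.update G l g) ⬝ᵥ v| < r at hg
  rw [e, abs_mul] at hg
  rw [Metric.mem_ball, Real.dist_eq]
  have h1 : 1 ≤ n * |v l| := by
    rw [← Nat.abs_cast, ← abs_mul]; exact (one_le_sq_iff_one_le_abs _).1 hl
  have h2 : (0 : ℝ) < n := by exact_mod_cast l.pos
  nlinarith [abs_nonneg (g - -((a + Function.update G l 0) ⬝ᵥ v) / v l)]

variable {m n : ℕ}

def N (A : Fin m → Fin n → ℝ) (i : Fin m) (w : Fin n → ℝ) : Fin n → ℝ :=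
  ∑ k ∈ univ.erase i, (A k ⬝ᵥ w) • A k

def sq' (w : Fin n → ℝ) : ℝ := w ⬝ᵥ w

def Good (A : Fin m → Fin n → ℝ) (i : Fin m) (a : Fin n → ℝ) (η : ℝ) : Prop :=
  (∃ (u w : Fin n → ℝ) (l ε : ℝ), sq' (N A i w - l • w) < ε ^ 2 * sq' w ∧
    sq' (a + N A i u - l • u) < η ^ 2 ∧ ε ^ 2 * sq' u < η ^ 2) ∨
  ∃ c : Fin m → ℝ, sq' (a - ∑ k ∈ univ.erase i, c k • A k) < η ^ 2

lemma sec (hmn : m ≤ n) (A : Fin m → Fin n → ℝ) (i : Fin m) {η : ℝ} (hη : 0 ≤ η) :
    ∃ v : Fin n → Fin n → ℝ, (∀ l, v l ⬝ᵥ v l = 1) ∧ ∀ a, Good A i a η → ∃ l, |a ⬝ᵥ v l| < 2 * η := by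
  let B : Matrix (Fin n) (Fin n) ℝ := ∑ k ∈ univ.erase i, vecMulVec (A k) (A k)
  have hB : B.IsHermitian := by
    ext p q; simp [B, Matrix.sum_apply, vecMulVec_apply, mul_comm]
  have hN : ∀ w, N A i w = B *ᵥ w := fun w => by
    simp [N, B, Matrix.sum_mulVec, vecMulVec_mulVec, -sum_erase_eq_sub]
  set v := fun l => (hB.eigenvectorBasis l).ofLp
  set μ := hB.eigenvalues
  have h1 : ∀ l, v l ⬝ᵥ v l = 1 := fun l => by
    simpa only [EuclideanSpace.inner_eq_star_dotProduct, star_trivial] using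
      hB.eigenvectorBasis.inner_eq_one l
  have h2 : ∀ u, sq' u = ∑ l, (u ⬝ᵥ v l) ^ 2 := fun u => by
    have := hB.eigenvectorBasis.sum_sq_inner_right (WithLp.toLp 2 u)
    rw [← real_inner_self_eq_norm_sq] at this
    simpa only [EuclideanSpace.inner_eq_star_dotProduct, star_trivial, sq'] using this.symm
  have h3 : ∀ w l, N A i w ⬝ᵥ v l = μ l * (w ⬝ᵥ v l) := fun w l => by
    rw [hN, ← vecMul_transpose, ← dotProduct_mulVec, show Bᵀ = B from hB,
      hB.mulVec_eigenvectorBasis, dotProduct_smul, smul_eq_mul]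
  have h4 : ∀ u l, (u ⬝ᵥ v l) ^ 2 ≤ sq' u := fun u l =>
    h2 u ▸ single_le_sum (f := fun l => (u ⬝ᵥ v l) ^ 2) (fun _ _ => sq_nonneg _) (mem_univ l)
  refine ⟨v, h1, ?_⟩
  rintro a (⟨u, w, t, ε, a1, a2, a3⟩ | ⟨c, a1⟩)
  · rw [h2, h2, mul_sum] at a1
    obtain ⟨l, -, hl⟩ := exists_lt_of_sum_lt a1
    rw [sub_dotProduct, h3, smul_dotProduct, smul_eq_mul, ← sub_mul, mul_pow] at hl
    have b1 := lt_of_mul_lt_mul_right hl (sq_nonneg _)
    have b2 := abs_lt_of_sq_lt_sq ((h4 _ l).trans_lt a2) hη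
    have b3 : |(μ l - t) * (u ⬝ᵥ v l)| < η := abs_lt_of_sq_lt_sq (lt_of_le_of_lt (by
      rw [mul_pow]; exact mul_le_mul b1.le (h4 u l) (sq_nonneg _) (sq_nonneg _)) a3) hη
    rw [sub_dotProduct, add_dotProduct, h3, smul_dotProduct, smul_eq_mul] at b2
    refine ⟨l, ?_⟩
    rw [abs_lt] at *
    constructor <;> linarith [b2.1, b2.2, b3.1, b3.2]
  · obtain ⟨w, hw, w0⟩ := (Submodule.ne_bot_iff _).1 (LinearMap.ker_ne_bot_of_finrank_lt
      (f := (Matrix.of fun k : univ.erase i => A k).mulVecLin) (by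
        have := i.pos; simp; omega))
    have hw' : N A i w = 0 := sum_eq_zero fun k hk => by
      rw [show A k ⬝ᵥ w = 0 from congrFun hw ⟨k, hk⟩, zero_smul]
    obtain ⟨l, hl⟩ : ∃ l, w ⬝ᵥ v l ≠ 0 := by
      by_contra! h
      exact w0 (dotProduct_self_eq_zero.1 (by simpa [h, sq'] using h2 w))
    have b1 := h3 w l
    rw [hw', zero_dotProduct, zero_eq_mul, or_iff_left hl] at b1
    have b2 := h3 (v l) l
    simp only [b1, zero_mul, N, sum_dotProduct, smul_dotProduct, smul_eq_mul] at b2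
    have b3 := (sum_eq_zero_iff_of_nonneg fun _ _ => mul_self_nonneg _).1 b2
    have b4 := abs_lt_of_sq_lt_sq ((h4 _ l).trans_lt a1) hη
    rw [sub_dotProduct, sum_dotProduct, sum_eq_zero fun k hk => by
      rw [smul_dotProduct, mul_self_eq_zero.1 (b3 k hk), smul_zero], sub_zero] at b4
    exact ⟨l, by linarith⟩

lemma det' (A : Matrix (Fin m) (Fin n) ℝ) {p q : Fin m → ℝ} {l κ x R : ℝ} (hx : 0 < x) (hR : 0 < R)
    (hp : (A * Aᴴ) *ᵥ p = l • p) (hq : (A * Aᴴ) *ᵥ q = κ • q) (p1 : p ⬝ᵥ p = 1) (q1 : q ⬝ᵥ q = 1)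
    (pq : p ⬝ᵥ q = 0) (h1 : √κ ≤ √l) (h2 : √l - √κ ≤ √κ / x) (hA : ∑ i, sq' (A i) ≤ R ^ 2) :
    ∃ i, Good A i (A i) (4 * m * R / x) := by
  have key : ∀ {p : Fin m → ℝ} {l : ℝ}, (A * Aᴴ) *ᵥ p = l • p → (∀ i, A i ⬝ᵥ p ᵥ* A = l * p i) ∧
      (∀ r, (r ᵥ* A) ⬝ᵥ p ᵥ* A = l * (r ⬝ᵥ p)) ∧
      ∀ i, N A i (p ᵥ* A) = l • p ᵥ* A - (l * p i) • A i := fun {p l} h => by
    have e : A *ᵥ (p ᵥ* A) = l • p := by rw [← h, ← mulVec_mulVec, ← mulVec_transpose]; rfl
    have e' : ∀ i, A i ⬝ᵥ p ᵥ* A = l * p i := congrFun e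
    refine ⟨e', fun r => by rw [← dotProduct_mulVec, e, dotProduct_smul, smul_eq_mul], fun i => ?_⟩
    simp only [N, e']
    rw [eq_sub_iff_add_eq, sum_erase_add _ _ (mem_univ i), vecMul_eq_sum, smul_sum]
    simp [mul_smul]
  obtain ⟨a1, a2, a3⟩ := key hp
  obtain ⟨b1, b2, b3⟩ := key hq
  have nn : ∀ w : Fin n → ℝ, 0 ≤ w ⬝ᵥ w := fun w => sum_nonneg fun _ _ => mul_self_nonneg _
  have UU : (p ᵥ* A) ⬝ᵥ p ᵥ* A = l := by rw [a2, p1, mul_one]
  have VV : (q ᵥ* A) ⬝ᵥ q ᵥ* A = κ := by rw [b2, q1, mul_one]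
  have UV : (p ᵥ* A) ⬝ᵥ q ᵥ* A = 0 := by rw [b2, pq, mul_zero]
  have VU : (q ᵥ* A) ⬝ᵥ p ᵥ* A = 0 := by rw [dotProduct_comm, UV]
  rcases (VV ▸ nn _ : 0 ≤ κ).eq_or_lt with k0 | k0
  · obtain ⟨i, hi⟩ := big q1
    have h0 : q i ≠ 0 := fun h => by norm_num [h] at hi
    have hm : (0 : ℝ) < m := by exact_mod_cast i.pos
    refine ⟨i, .inr ⟨fun k => -(q i)⁻¹ * q k, ?_⟩⟩
    have := dotProduct_self_eq_zero.1 (VV.trans k0.symm)
    rw [vecMul_eq_sum, ← sum_erase_add _ _ (mem_univ i), add_eq_zero_iff_eq_neg] at this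
    simp only [mul_smul, ← smul_sum]
    erw [this]
    simp only [sq', smul_neg, neg_smul, neg_neg]
    erw [inv_smul_smul₀ h0]
    simp; positivity
  obtain ⟨i, hi⟩ := big p1
  have h0 : p i ≠ 0 := fun h => by norm_num [h] at hi
  have hm : (0 : ℝ) < m := by exact_mod_cast i.pos
  have s1 := Real.sqrt_pos.2 k0
  have l0 : 0 < l := Real.sqrt_pos.1 (s1.trans_le h1)
  have s2 := Real.mul_self_sqrt k0.le
  have s3 := Real.mul_self_sqrt l0.le
  have lR : l ≤ R ^ 2 := by
    refine le_trans (le_of_mul_le_mul_right ?_ l0) hA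
    calc l * l = ∑ k, (A k ⬝ᵥ p ᵥ* A) ^ 2 := by
          simp only [a1, mul_pow, ← mul_sum, sq (p _)]
          rw [show ∑ k, p k * p k = 1 from p1]; ring
      _ ≤ _ := by
          rw [sum_mul]
          refine sum_le_sum fun k _ => (sum_mul_sq_le_sq_mul_sq _ _ _).trans_eq ?_
          simp only [sq]
          exact congrArg _ UU
  have lin : ∀ (c d : ℝ) (u w : Fin n → ℝ), N A i (c • u + d • w) = c • N A i u + d • N A i w :=
    fun c d u w => by simp [N, add_smul, sum_add_distrib, smul_sum, mul_smul, -sum_erase_eq_sub]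
  refine ⟨i, .inl ⟨(l * p i)⁻¹ • p ᵥ* A + (0 : ℝ) • 0, (κ * q i) • p ᵥ* A + (-(l * p i)) • q ᵥ* A,
    l, 3 * l / x, ?_, ?_, ?_⟩⟩
  · have : N A i ((κ * q i) • p ᵥ* A + (-(l * p i)) • q ᵥ* A) -
        l • ((κ * q i) • p ᵥ* A + (-(l * p i)) • q ᵥ* A) = (l * p i * (l - κ)) • q ᵥ* A := by
      rw [lin, a3, b3]; module
    rw [this]
    simp only [sq', add_dotProduct, dotProduct_add, smul_dotProduct, dotProduct_smul, smul_eq_mul,
      UU, VV, UV, VU]
    have c1 : (l - κ) ^ 2 < (3 * l / x) ^ 2 := by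
      rw [le_div_iff₀ hx] at h2
      refine pow_lt_pow_left₀ ?_ (by nlinarith) two_ne_zero
      rw [lt_div_iff₀ hx]; nlinarith
    have c2 : 0 < (l * p i) ^ 2 * κ := by positivity
    nlinarith [mul_lt_mul_of_pos_right c1 c2, (by positivity : 0 ≤ (3 * l / x * (κ * q i)) ^ 2 * l)]
  · have : A i + N A i ((l * p i)⁻¹ • p ᵥ* A + (0 : ℝ) • 0) -
        l • ((l * p i)⁻¹ • p ᵥ* A + (0 : ℝ) • 0) = (1 - (l * p i)⁻¹ * (l * p i)) • A i := by
      rw [lin, a3]; module
    rw [this, inv_mul_cancel₀ (by positivity)]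
    simp [sq']; positivity
  · simp only [sq', zero_smul, add_zero, smul_dotProduct, dotProduct_smul, smul_eq_mul, UU]
    field_simp
    rw [div_lt_iff₀ (by positivity)]
    nlinarith [mul_le_mul_of_nonneg_left hi (sq_nonneg R), sq_pos_of_pos hR]

/-- There are positive constants c,k1,k2,k3 such that for m≤n, any m×n Ā with Frobenius norm ≤1, 0<σ≤1, x>1, the probability that Ā plus iid N(0,σ²) noise has minimum relative singular-value gap ≤1/x is at most c n^k1 x^-k2 σ^-k3. -/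
theorem result :
    ∃ c k₁ k₂ k₃ : ℝ, 0 < c ∧ 0 < k₁ ∧ 0 < k₂ ∧ 0 < k₃ ∧
      ∀ m n : ℕ, m ≤ n → ∀ Abar : Matrix (Fin m) (Fin n) ℝ,
        (∑ i, ∑ j, Abar i j ^ 2) ≤ 1 →
        ∀ σ : ℝ≥0, 0 < σ → σ ≤ 1 → ∀ x : ℝ, 1 < x →
          (Measure.pi (fun _ : Fin m => Measure.pi (fun _ : Fin n => gaussianReal 0 (σ ^ 2))))
            {G : Fin m → Fin n → ℝ | ∃ j k : Fin m, j ≠ k ∧
              Real.sqrt ((Matrix.isHermitian_mul_conjTranspose_self (Abar + Matrix.of G)).eigenvalues k)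
                ≤ Real.sqrt ((Matrix.isHermitian_mul_conjTranspose_self (Abar + Matrix.of G)).eigenvalues j) ∧
              Real.sqrt ((Matrix.isHermitian_mul_conjTranspose_self (Abar + Matrix.of G)).eigenvalues j)
                - Real.sqrt ((Matrix.isHermitian_mul_conjTranspose_self (Abar + Matrix.of G)).eigenvalues k)
                ≤ Real.sqrt ((Matrix.isHermitian_mul_conjTranspose_self (Abar + Matrix.of G)).eigenvalues k) / x}
            ≤ ENNReal.ofReal (c * (n : ℝ) ^ k₁ * x ^ (-k₂) * (σ : ℝ) ^ (-k₃)) := by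
  refine ⟨33, 5, 1 / 2, 1, by norm_num, by norm_num, by norm_num, one_pos,
    fun m n hmn B hB σ σ0 σ1 x hx => ?_⟩
  set t := √x
  have t1 : 1 < t := Real.lt_sqrt_of_sq_lt (by simpa using hx)
  have tx : t * t = x := Real.mul_self_sqrt (by linarith)
  have σ0' : (0 : ℝ) < σ := σ0
  have σ1' : (σ : ℝ) ≤ 1 := σ1
  have hmn' : (m : ℝ) ≤ n := by exact_mod_cast hmn
  set η := 4 * m * (2 * n * t) / x
  have hη : 0 ≤ η := by positivity
  refine le_trans (measure_mono (t := (⋃ i, ⋃ j, {G | t ≤ |G i j|}) ∪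
    ⋃ i, {G | Good (B + of G) i (B i + G i) η}) ?_) ?_
  · rintro G ⟨j, k, hjk, h1, h2⟩
    have n1 : (1 : ℝ) ≤ m := by exact_mod_cast j.pos
    refine or_iff_not_imp_left.2 fun h => Set.mem_iUnion.2 ?_
    simp only [Set.mem_iUnion, Set.mem_setOf_eq, not_exists, not_le] at h
    have hA := isHermitian_mul_conjTranspose_self (B + of G)
    have o := fun a b => hA.eigenvectorBasis.inner_eq_ite a b
    simp only [EuclideanSpace.inner_eq_star_dotProduct, star_trivial] at o
    refine det' (B + of G) (by linarith) (by nlinarith) (hA.mulVec_eigenvectorBasis j)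
      (hA.mulVec_eigenvectorBasis k) ((o j j).trans (if_pos rfl)) ((o k k).trans (if_pos rfl))
      ((o k j).trans (if_neg hjk.symm)) h1 h2 ?_
    calc _ ≤ ∑ i : Fin m, ∑ j : Fin n, (2 * B i j ^ 2 + 2 * t ^ 2) :=
          sum_le_sum fun i _ => sum_le_sum fun j _ => by
            have := sq_lt_sq' (abs_lt.1 (h i j)).1 (abs_lt.1 (h i j)).2
            simp only [Matrix.add_apply, of_apply]
            nlinarith [sq_nonneg (B i j - G i j)]
      _ ≤ _ := by
          simp only [sum_add_distrib, ← mul_sum, sum_const, card_univ, Fintype.card_fin,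
            nsmul_eq_mul]
          have : 1 ≤ (n * t) ^ 2 := one_le_pow₀ (by nlinarith)
          nlinarith [mul_le_mul_of_nonneg_right hmn' (by positivity : 0 ≤ n * t ^ 2)]
  have A : ∀ (i : Fin m) (j : Fin n), Measure.pi (fun _ : Fin m => Measure.pi fun _ : Fin n =>
      gaussianReal 0 (σ ^ 2)) {G | t ≤ |G i j|} ≤ ENNReal.ofReal (1 / x) := fun i j => by
    refine marg _ (isClosed_le continuous_const (by fun_prop)).measurableSet i fun G =>
      marg _ (by simpa using (isClosed_le continuous_const (by fun_prop)).measurableSet) j fun g => ?_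
    have := meas_ge_le_variance_div_sq (memLp_id_gaussianReal' (μ := 0) (v := σ ^ 2) 2 (by simp))
      (zero_lt_one.trans t1)
    simp only [id, integral_id_gaussianReal, variance_id_gaussianReal, sub_zero] at this
    simp only [Set.mem_setOf_eq, Function.update_self]
    refine this.trans (ENNReal.ofReal_le_ofReal ?_)
    rw [sq t, tx]
    exact div_le_div_of_nonneg_right (by push_cast; nlinarith) (by linarith)
  have C : ∀ i : Fin m, Measure.pi (fun _ : Fin m => Measure.pi fun _ : Fin n =>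
      gaussianReal 0 (σ ^ 2)) {G | Good (B + of G) i (B i + G i) η} ≤
      ENNReal.ofReal (n * (2 * (n * (2 * η)) / σ)) := fun i => by
    refine marg _ (IsOpen.measurableSet ?_) i fun G => ?_
    · simp only [Good, Set.setOf_or, Set.setOf_exists, Set.setOf_and, sq', N]
      have c : ∀ k, Continuous fun G : Fin m → Fin n → ℝ => (B + of G) k := fun k =>
        show Continuous fun G : Fin m → Fin n → ℝ => B k + G k by fun_prop
      refine .union (isOpen_iUnion fun u => isOpen_iUnion fun w => isOpen_iUnion fun l =>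
        isOpen_iUnion fun ε => .inter ?_ (.inter ?_ ?_)) (isOpen_iUnion fun u => ?_) <;>
      exact isOpen_lt (by fun_prop) (by fun_prop)
    obtain ⟨v, v1, v2⟩ := sec hmn (B + of G) i hη
    refine le_trans (measure_mono (t := ⋃ l, {g | |(B i + g) ⬝ᵥ v l| < 2 * η}) fun g hg =>
      Set.mem_iUnion.2 (v2 _ ?_)) ((measure_iUnion_fintype_le _ _).trans
      ((sum_le_sum fun l _ => slab σ0 _ (v1 l) _).trans_eq ?_))
    · have e : ∀ k ∈ univ.erase i, (B + of (Function.update G i g)) k = (B + of G) k := fun k hk =>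
        by
          change B k + Function.update G i g k = B k + G k
          rw [Function.update_of_ne (ne_of_mem_erase hk)]
      have e1 : N (B + of (Function.update G i g)) i = N (B + of G) i :=
        funext fun w => sum_congr rfl fun k hk => by rw [e k hk]
      have e2 : ∀ c : Fin m → ℝ, ∑ k ∈ univ.erase i, c k • (B + of (Function.update G i g)) k =
          ∑ k ∈ univ.erase i, c k • (B + of G) k := fun c => sum_congr rfl fun k hk => by rw [e k hk]
      simpa only [Good, e1, e2, Set.mem_setOf_eq, Function.update_self] using hg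
    · simp [ENNReal.ofReal_mul]
  refine (measure_union_le _ _).trans ((add_le_add ((measure_iUnion_fintype_le _ _).trans
    (sum_le_sum fun i _ => (measure_iUnion_fintype_le _ _).trans (sum_le_sum fun j _ => A i j)))
    ((measure_iUnion_fintype_le _ _).trans (sum_le_sum fun i _ => C i))).trans ?_)
  rw [sum_congr rfl fun _ _ => (ENNReal.ofReal_sum_of_nonneg fun _ _ => by positivity).symm,
    ← ENNReal.ofReal_sum_of_nonneg fun _ _ => by positivity,
    ← ENNReal.ofReal_sum_of_nonneg fun _ _ => by positivity,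
    ← ENNReal.ofReal_add (by positivity) (by positivity)]
  refine ENNReal.ofReal_le_ofReal ?_
  rw [Real.rpow_neg (by linarith), ← Real.sqrt_eq_rpow, Real.rpow_neg_one, Real.rpow_ofNat]
  simp only [sum_const, card_univ, Fintype.card_fin, nsmul_eq_mul, η]
  change _ ≤ 33 * _ * t⁻¹ * _
  rw [← tx]
  field_simp
  rcases n.eq_zero_or_pos with rfl | n0
  · simp
  have n1 : (1 : ℝ) ≤ n := by exact_mod_cast n0
  have h1 : (σ : ℝ) ≤ n ^ 3 * t := σ1'.trans (by nlinarith [one_le_pow₀ n1 (n := 3)])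
  calc _ ≤ (n : ℝ) * n * (n ^ 3 * t + n * n ^ 2 * t * 2 ^ 3 * 4) := by gcongr
    _ = _ := by ring

end Pool.Agent.S19285
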