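import Pool.Statements.S19308

set_option autoImplicit false
open Filter Topology MeasureTheory Real
open Pool Pool.MP_4e696d_pr

namespace Pool.Agent.S19308

lemma exists_eta : ∃ η : ℝ, 2 < η ∧ η < 3 ∧ Transcendental ℚ η := by
  by_contra h
  push Not at h
  have hc : (Set.Ioo (2 : ℝ) 3).Countable := by
    refine (Algebraic.countable ℚ ℝ).mono ?_
    intro x hx
    have := h x hx.1 hx.2
    simpa [Transcendental] using this
  have h0 : volume (Set.Ioo (2 : ℝ) 3) = 0 := hc.measure_zero _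
  rw [Real.volume_Ioo] at h0
  norm_num at h0

lemma exists_l : ∃ l : ℝ, 0 < l ∧
    (∫ t in (0 : ℝ)..1, Real.exp (l * (Real.cos (2 * π * t) - 1))) < 1 / 8 := by
  have hT : Tendsto (fun n : ℕ => ∫ t in (0 : ℝ)..1, Real.exp ((n : ℝ) * (Real.cos (2 * π * t) - 1)))
      atTop (𝓝 (∫ t in (0 : ℝ)..1, (0 : ℝ))) := by
    refine intervalIntegral.tendsto_integral_filter_of_dominated_convergence (fun _ => (1 : ℝ)) ?_ ?_ ?_ ?_
    · refine Eventually.of_forall fun n => ?_
      exact Continuous.aestronglyMeasurable (by fun_prop)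
    · refine Eventually.of_forall fun n => Eventually.of_forall fun t _ => ?_
      rw [Real.norm_eq_abs, abs_of_pos (Real.exp_pos _), Real.exp_le_one_iff]
      exact mul_nonpos_of_nonneg_of_nonpos (Nat.cast_nonneg n) (by linarith [Real.cos_le_one (2 * π * t)])
    · exact intervalIntegrable_const
    · have h1 : ∀ᵐ t : ℝ, t ≠ 1 := by
        have : volume ({1} : Set ℝ) = 0 := Real.volume_singleton
        exact measure_eq_zero_iff_ae_notMem.1 this
      filter_upwards [h1] with t ht hmem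
      rw [Set.uIoc_of_le (by norm_num)] at hmem
      have hlt : t < 1 := lt_of_le_of_ne hmem.2 ht
      have hc : Real.cos (2 * π * t) - 1 < 0 := by
        have hne : Real.cos (2 * π * t) ≠ 1 := by
          intro h
          have := (Real.cos_eq_one_iff_of_lt_of_lt (x := 2 * π * t)
            (by nlinarith [Real.pi_pos, hmem.1]) (by nlinarith [Real.pi_pos, hmem.1])).1 h
          have h2 : 0 < 2 * π * t := by have := Real.pi_pos; have := hmem.1; positivity
          linarith
        have := lt_of_le_of_ne (Real.cos_le_one _) hne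
        linarith
      exact Real.tendsto_exp_atBot.comp (tendsto_natCast_atTop_atTop.atTop_mul_const_of_neg hc)
  simp only [intervalIntegral.integral_zero] at hT
  have h2 := (hT.eventually (gt_mem_nhds (show (0 : ℝ) < 1 / 8 by norm_num))).and (eventually_gt_atTop 0)
  obtain ⟨n, hn, hn0⟩ := h2.exists
  exact ⟨n, by exact_mod_cast hn0, hn⟩

lemma exists_lc : ∃ l c : ℝ, 0 < l ∧ c < 1 ∧
    Real.log 4 < l * c - Real.log (∫ t in (0 : ℝ)..1, Real.exp (l * Real.cos (2 * π * t))) := by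
  obtain ⟨l, hl, h⟩ := exists_l
  refine ⟨l, 1 - Real.log 2 / l, hl, ?_, ?_⟩
  · have : 0 < Real.log 2 / l := div_pos (Real.log_pos (by norm_num)) hl
    linarith
  · have e1 : (∫ t in (0 : ℝ)..1, Real.exp (l * Real.cos (2 * π * t))) =
        Real.exp l * ∫ t in (0 : ℝ)..1, Real.exp (l * (Real.cos (2 * π * t) - 1)) := by
      rw [← intervalIntegral.integral_const_mul]
      refine intervalIntegral.integral_congr fun t _ => ?_
      rw [← Real.exp_add]; congr 1; ring
    have hpos : 0 < ∫ t in (0 : ℝ)..1, Real.exp (l * (Real.cos (2 * π * t) - 1)) := by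
      refine intervalIntegral.intervalIntegral_pos_of_pos ?_ (fun t => Real.exp_pos _) (by norm_num)
      exact Continuous.intervalIntegrable (by fun_prop) _ _
    rw [e1, Real.log_mul (Real.exp_pos l).ne' hpos.ne', Real.log_exp]
    have h2 := Real.log_lt_log hpos h
    have h3 : Real.log (1 / 8 : ℝ) = - (Real.log 4 + Real.log 2) := by
      rw [← Real.log_mul (by norm_num) (by norm_num), one_div, Real.log_inv]; norm_num
    have h4 : l * (1 - Real.log 2 / l) = l - Real.log 2 := by field_simp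
    rw [h4]; linarith

lemma exists_eps {c : ℝ} (hc : c < 1) : ∃ ε : ℝ, 0 < ε ∧ ε ≤ 1 ∧ ∀ s : ℝ, 0 ≤ s → s ≤ ε →
    c ≤ Real.cos (2 * π * s) := by
  have hcont : ContinuousAt (fun s : ℝ => Real.cos (2 * π * s)) 0 := by fun_prop
  have h1 : ∀ᶠ s in 𝓝 (0 : ℝ), c < Real.cos (2 * π * s) :=
    hcont.eventually (lt_mem_nhds (by simpa using hc))
  obtain ⟨δ, hδ, h⟩ := Metric.eventually_nhds_iff.1 h1
  refine ⟨min (δ / 2) 1, by positivity, min_le_right _ _, fun s hs hs' => (h ?_).le⟩
  rw [Real.dist_eq, sub_zero, abs_of_nonneg hs]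
  have := min_le_left (δ / 2) 1
  linarith

/-- The negation of the preceding statement: For positive integers a_k with a_{k+1}/a_k tending to a transcendental η>1, the averages (1/n)Σcos(2π a_k ω), ω uniform on [0,1], satisfy an LDP with speed n and the i.i.d. Cramér rate function of cos(2πU). -/
theorem result :
    ¬ (∀ (a : ℕ → ℕ) (η : ℝ), 1 < η → Transcendental ℚ η → (∀ k, 0 < a k) →
      Tendsto (fun k : ℕ => (a (k + 1) : ℝ) / (a k : ℝ)) atTop (𝓝 η) →
      ((∀ F : Set ℝ, IsClosed F →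
          limsup (fun n : ℕ => ((((n : ℝ)⁻¹ : ℝ)) : EReal) *
              ENNReal.log (volume (Set.Icc (0 : ℝ) 1 ∩
                {ω : ℝ | (∑ k ∈ Finset.range n, Real.cos (2 * π * (a k : ℝ) * ω)) / (n : ℝ) ∈ F})))
            atTop
          ≤ - ⨅ x ∈ F, ⨆ l : ℝ,
              (((l * x - Real.log (∫ t in (0 : ℝ)..1, Real.exp (l * Real.cos (2 * π * t)))) : ℝ) : EReal)) ∧
       (∀ G : Set ℝ, IsOpen G →
          - (⨅ x ∈ G, ⨆ l : ℝ,
              (((l * x - Real.log (∫ t in (0 : ℝ)..1, Real.exp (l * Real.cos (2 * π * t)))) : ℝ) : EReal))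
          ≤ liminf (fun n : ℕ => ((((n : ℝ)⁻¹ : ℝ)) : EReal) *
              ENNReal.log (volume (Set.Icc (0 : ℝ) 1 ∩
                {ω : ℝ | (∑ k ∈ Finset.range n, Real.cos (2 * π * (a k : ℝ) * ω)) / (n : ℝ) ∈ G})))
            atTop))) := by
  intro H
  obtain ⟨η, h2, h3, hη⟩ := exists_eta
  obtain ⟨l, c, hl, hc, hlc⟩ := exists_lc
  obtain ⟨ε, hε, hε1, hcos⟩ := exists_eps hc
  have hηpos : 0 < η := by linarith
  set a : ℕ → ℕ := fun k => ⌈η ^ k⌉₊ with ha
  have hapos : ∀ k, 0 < a k := fun k => Nat.ceil_pos.2 (pow_pos hηpos k)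
  have hale : ∀ k n, k ≤ n → (a k : ℝ) ≤ 3 ^ n := by
    intro k n hkn
    have h1 : η ^ k ≤ ((3 ^ n : ℕ) : ℝ) := by
      push_cast
      calc η ^ k ≤ 3 ^ k := pow_le_pow_left₀ hηpos.le h3.le k
        _ ≤ 3 ^ n := pow_le_pow_right₀ (by norm_num) hkn
    have : a k ≤ 3 ^ n := Nat.ceil_le.2 h1
    exact_mod_cast this
  have hT : Tendsto (fun k : ℕ => (a (k + 1) : ℝ) / (a k : ℝ)) atTop (𝓝 η) := by
    have hp : Tendsto (fun k : ℕ => η ^ k) atTop atTop :=
      tendsto_pow_atTop_atTop_of_one_lt (by linarith)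
    have h1 : Tendsto (fun k : ℕ => (a k : ℝ) / η ^ k) atTop (𝓝 1) :=
      tendsto_nat_ceil_div_atTop.comp hp
    have h1' : Tendsto (fun k : ℕ => (a (k + 1) : ℝ) / η ^ (k + 1)) atTop (𝓝 1) :=
      h1.comp (tendsto_add_atTop_nat 1)
    have h4 := (h1'.div h1 one_ne_zero).mul_const η
    simp only [div_one, one_mul] at h4
    refine h4.congr fun k => ?_
    have : (a k : ℝ) ≠ 0 := by exact_mod_cast (hapos k).ne'
    have : η ^ k ≠ 0 := (pow_pos hηpos k).ne'
    simp only [Pi.div_apply]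
    field_simp
    ring
  have hF := (H a η (by linarith) hη hapos hT).1 (Set.Ici c) isClosed_Ici
  have hR : (((l * c - Real.log (∫ t in (0 : ℝ)..1, Real.exp (l * Real.cos (2 * π * t)))) : ℝ) : EReal)
      ≤ ⨅ x ∈ Set.Ici c, ⨆ l : ℝ,
        (((l * x - Real.log (∫ t in (0 : ℝ)..1, Real.exp (l * Real.cos (2 * π * t)))) : ℝ) : EReal) := by
    refine le_iInf₂ fun x hx => le_iSup_of_le l ?_
    have : l * c ≤ l * x := mul_le_mul_of_nonneg_left hx hl.le
    exact EReal.coe_le_coe_iff.2 (by linarith)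
  have hL : ((-Real.log 4 : ℝ) : EReal) ≤ limsup (fun n : ℕ => ((((n : ℝ)⁻¹ : ℝ)) : EReal) *
              ENNReal.log (volume (Set.Icc (0 : ℝ) 1 ∩
                {ω : ℝ | (∑ k ∈ Finset.range n, Real.cos (2 * π * (a k : ℝ) * ω)) / (n : ℝ) ∈
                  Set.Ici c}))) atTop := by
    refine le_limsup_of_frequently_le (Eventually.frequently ?_)
    have hev : ∀ᶠ n : ℕ in atTop, (3 / 4 : ℝ) ^ n < ε :=
      (tendsto_pow_atTop_nhds_zero_of_lt_one (by norm_num) (by norm_num)).eventually (gt_mem_nhds hε)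
    filter_upwards [hev, eventually_gt_atTop 0] with n hn hn0
    have hnpos : (0 : ℝ) < n := by exact_mod_cast hn0
    have h3n : (0 : ℝ) < 3 ^ n := by positivity
    have hsub : Set.Icc (0 : ℝ) ((1 / 4) ^ n) ⊆ Set.Icc (0 : ℝ) 1 ∩
        {ω : ℝ | (∑ k ∈ Finset.range n, Real.cos (2 * π * (a k : ℝ) * ω)) / (n : ℝ) ∈ Set.Ici c} := by
      intro ω hω
      refine ⟨⟨hω.1, hω.2.trans (pow_le_one₀ (by norm_num) (by norm_num))⟩, ?_⟩
      simp only [Set.mem_setOf_eq, Set.mem_Ici]
      rw [le_div_iff₀ hnpos]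
      have : ∑ k ∈ Finset.range n, c ≤ ∑ k ∈ Finset.range n, Real.cos (2 * π * (a k : ℝ) * ω) := by
        refine Finset.sum_le_sum fun k hk => ?_
        rw [mul_assoc (2 * π)]
        refine hcos _ (mul_nonneg (Nat.cast_nonneg _) hω.1) ?_
        have h5 := hale k n (Finset.mem_range.1 hk).le
        calc (a k : ℝ) * ω ≤ 3 ^ n * (1 / 4) ^ n :=
              mul_le_mul h5 hω.2 hω.1 h3n.le
          _ = (3 / 4) ^ n := by rw [← mul_pow]; norm_num
          _ ≤ ε := hn.le
      simpa [mul_comm] using this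
    have hvol := measure_mono (μ := volume) hsub
    rw [Real.volume_Icc, sub_zero] at hvol
    have hlog := ENNReal.log_monotone hvol
    rw [ENNReal.log_ofReal_of_pos (by positivity)] at hlog
    calc ((-Real.log 4 : ℝ) : EReal) = (((n : ℝ)⁻¹ : ℝ) : EReal) * ((Real.log ((1 / 4) ^ n) : ℝ) : EReal) := by
          rw [← EReal.coe_mul]
          congr 1
          rw [Real.log_pow, one_div, Real.log_inv]
          field_simp
      _ ≤ _ := mul_le_mul_of_nonneg_left hlog (by exact_mod_cast (inv_pos.2 hnpos).le)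
  have hfin := hL.trans (hF.trans (EReal.neg_le_neg_iff.2 hR))
  rw [← EReal.coe_neg, EReal.coe_le_coe_iff] at hfin
  linarith

end Pool.Agent.S19308
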