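import Pool.Statements.S19343
import Pool.Agent.Lib.helper1.Net2

set_option autoImplicit false
open MeasureTheory ProbabilityTheory
open Pool Pool.MP_5bb7da_pr

namespace Pool.Agent.S19343

open Pool.Agent.Lib.helper1.Net Filter Topology

abbrev E : Type := ℤ → Bool × unitInterval

instance : Inhabited (Bool × unitInterval) := ⟨(false, 0)⟩

def pos (ω : E) (n : ℤ) : ℝ := n + (ω n).2

lemma pos_ge (ω : E) (n : ℤ) : n ≤ pos ω n := le_add_of_nonneg_right (ω n).2.2.1
lemma pos_le (ω : E) (n : ℤ) : pos ω n ≤ n + 1 := by unfold pos; linarith [(ω n).2.2.2]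

lemma c_pos (n : ℤ) : Continuous fun ω : E => pos ω n := by unfold pos; fun_prop

lemma clopen (n : ℤ) : IsClopen {ω : E | (ω n).1 = true} :=
  (isClopen_discrete {true}).preimage (f := fun ω : E => (ω n).1) (by fun_prop)

def F : Set E := {ω | (∀ n m, (ω n).1 → (ω m).1 → n < m → pos ω n + 1 ≤ pos ω m) ∧
  ∀ t : ℝ, ∃ n, (ω n).1 ∧ pos ω n ∈ Set.Icc t (t + 5)}

lemma near {ω : E} {n : ℤ} {u v : ℝ} (h : pos ω n ∈ Set.Icc u v) :
    n ∈ Finset.Icc (⌊u⌋ - 1) ⌊v⌋ := by
  rw [Finset.mem_Icc, Int.le_floor]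
  refine ⟨?_, (pos_ge ω n).trans h.2⟩
  have : (⌊u⌋ : ℝ) ≤ n + 1 := (Int.floor_le u).trans (h.1.trans (pos_le ω n))
  have : ⌊u⌋ ≤ n + 1 := by exact_mod_cast this
  omega

lemma closed_F : IsClosed F := by
  have e : F = {ω : E | ∀ n m, (ω n).1 → (ω m).1 → n < m → pos ω n + 1 ≤ pos ω m} ∩
    {ω : E | ∀ t : ℝ, ∃ n, (ω n).1 ∧ pos ω n ∈ Set.Icc t (t + 5)} := rfl
  rw [e]
  refine IsClosed.inter ?_ ?_
  · rw [Set.ofPred_forall]
    refine isClosed_iInter fun n => ?_
    rw [Set.ofPred_forall]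
    exact isClosed_iInter fun m => isClosed_imp (clopen n).2 (isClosed_imp (clopen m).2
        (isClosed_imp isOpen_const (isClosed_le ((c_pos n).add continuous_const) (c_pos m))))
  · have : {ω : E | ∀ t : ℝ, ∃ n, (ω n).1 ∧ pos ω n ∈ Set.Icc t (t + 5)}
        = ⋂ t : ℝ, ⋃ n ∈ Finset.Icc (⌊t⌋ - 1) ⌊t + 5⌋,
          {ω : E | (ω n).1 = true} ∩ (fun ω => pos ω n) ⁻¹' Set.Icc t (t + 5) := by
      ext ω
      simp only [Set.mem_ofPred_eq, Set.mem_iInter, Set.mem_iUnion, Set.mem_inter_iff,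
        Set.mem_preimage]
      exact forall_congr' fun t => exists_congr fun n => ⟨fun h => ⟨near h.2, h⟩, fun h => h.2⟩
    rw [this]
    exact isClosed_iInter fun t => isClosed_biUnion_finset fun n _ =>
      (clopen n).1.inter (isClosed_Icc.preimage (c_pos n))

noncomputable def enc (a : ℕ) (η : ℤ → Bool) : E := fun n =>
  (decide (∃ i ∈ Finset.range a, η (n * a + i)), Set.projIcc 0 1 zero_le_one
    (∑ i ∈ Finset.range a, if η (n * a + i) then (i : ℝ) / a else 0))

lemma m_enc (a : ℕ) : Measurable (enc a) := measurable_pi_lambda _ fun n => by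
  have h : ∀ n : ℤ, Measurable fun η : ℤ → Bool => η n = true := fun n =>
    (Measurable.of_discrete (f := fun b : Bool => b = true)).comp (measurable_pi_apply n)
  refine Measurable.prodMk (measurable_to_bool ?_) (continuous_projIcc.measurable.comp
    (Finset.measurable_sum _ fun i _ => Measurable.ite (measurableSet_setOfPred.2 (h _))
      measurable_const measurable_const))
  simpa [Set.preimage] using measurableSet_setOfPred.2
    (Measurable.exists fun i : ℕ => (measurable_const (a := i < a)).and (h (n * a + i)))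

lemma enc_congr {a : ℕ} {η η' : ℤ → Bool} {n : ℤ}
    (h : ∀ i : ℕ, i < a → η (n * a + i) = η' (n * a + i)) : enc a η n = enc a η' n := by
  simp only [enc]
  congr 2
  · exact propext (exists_congr fun i => and_congr_right fun hi => by
      rw [h i (Finset.mem_range.1 hi)])
  · exact Finset.sum_congr rfl fun i hi => by rw [h i (Finset.mem_range.1 hi)]

lemma enc_spec {a : ℕ} (ha : 0 < a) {η : ℤ → Bool} (hη : Nt a η) {m : ℤ} (hm : η m) :
    (enc a η (m / a)).1 ∧ pos (enc a η) (m / a) = m / a := by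
  have a0 : (0 : ℤ) < a := by exact_mod_cast ha
  have a1 : (0 : ℝ) < a := by exact_mod_cast ha
  obtain ⟨i, hi⟩ := Int.eq_ofNat_of_zero_le (Int.emod_nonneg m a0.ne')
  have i1 : i < a := by have := Int.emod_lt_of_pos m a0; omega
  have e : m / a * a + i = m := by rw [← hi]; exact Int.ediv_mul_add_emod m a
  refine ⟨decide_eq_true ⟨i, Finset.mem_range.2 i1, by rwa [e]⟩, ?_⟩
  have s : ∑ j ∈ Finset.range a, (if η (m / a * a + j) then (j : ℝ) / a else 0) = i / a := by
    rw [Finset.sum_eq_single i (fun j hj hne => if_neg fun h => ?_)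
      (fun h => absurd (Finset.mem_range.2 i1) h), e, if_pos hm]
    have := Finset.mem_range.1 hj
    rcases lt_or_gt_of_ne hne with l | l
    · have := hη.1 _ _ h hm (by omega); omega
    · have := hη.1 _ _ hm h (by omega); omega
  have i2 : (i : ℝ) ≤ a := by exact_mod_cast i1.le
  simp only [pos, enc]
  rw [s, Set.projIcc_of_mem _ ⟨by positivity, (div_le_one a1).2 i2⟩]
  conv_rhs => rw [← e]
  push_cast
  field_simp

lemma enc_inv {a : ℕ} {η : ℤ → Bool} {n : ℤ} (h : (enc a η n).1) : ∃ m, η m ∧ m / a = n := by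
  obtain ⟨i, hi, h⟩ := of_decide_eq_true h
  have := Finset.mem_range.1 hi
  refine ⟨_, h, ?_⟩
  rw [add_comm, Int.add_mul_ediv_right _ _ (by omega),
    Int.ediv_eq_zero_of_lt (by omega) (by omega), zero_add]

lemma enc_F {a : ℕ} (ha : 0 < a) {η : ℤ → Bool} (hη : Nt a η) : enc a η ∈ F := by
  have a1 : (1 : ℝ) ≤ a := by exact_mod_cast ha
  constructor
  · intro n n' h h' l
    obtain ⟨m, hm, rfl⟩ := enc_inv h
    obtain ⟨m', hm', rfl⟩ := enc_inv h'
    have : m < m' := by
      by_contra hc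
      exact l.not_ge (Int.ediv_le_ediv (by exact_mod_cast ha) (not_lt.1 hc))
    have : (m : ℝ) + a ≤ m' := by exact_mod_cast hη.1 m m' hm hm' this
    rw [(enc_spec ha hη hm).2, (enc_spec ha hη hm').2, div_add_one (by positivity)]
    gcongr
  · intro t
    obtain ⟨m, hm, l, u⟩ := hη.2 ⌈t * a⌉
    refine ⟨m / a, (enc_spec ha hη hm).1, ?_⟩
    have l' : t * a ≤ m := Int.ceil_le.1 l
    have u' : (m : ℝ) < ⌈t * a⌉ + 4 * a := by exact_mod_cast u
    have := Int.ceil_lt_add_one (t * a)
    rw [(enc_spec ha hη hm).2, Set.mem_Icc, le_div_iff₀ (by positivity), div_le_iff₀ (by positivity)]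
    exact ⟨l', by linarith⟩

noncomputable def S (f : ℝ → ℝ) (ω : E) : ℝ := ∑' n, if (ω n).1 then f (pos ω n) else 0

lemma S_eq {f : ℝ → ℝ} {u v : ℝ} (h : ∀ x, x ∉ Set.Icc u v → f x = 0) (ω : E) :
    S f ω = ∑ n ∈ Finset.Icc (⌊u⌋ - 1) ⌊v⌋, if (ω n).1 then f (pos ω n) else 0 :=
  tsum_eq_sum fun n hn => by rw [h _ fun hx => hn (near hx), ite_self]

lemma S_enc {a : ℕ} (ha : 0 < a) {η : ℤ → Bool} (hη : Nt a η) (f : ℝ → ℝ) :
    S f (enc a η) = ∑' m : ℤ, if η m then f (m / a) else 0 := by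
  have pt : ∀ m : Function.support fun m : ℤ => if η m then f (m / a) else 0, η m.1 := fun m => by
    by_contra hc
    exact m.2 (if_neg hc)
  refine tsum_eq_tsum_of_ne_zero_bij (fun m => m.1 / a) (fun m m' h => Subtype.ext ?_)
    (fun n hn => ?_) fun m => ?_
  · have := (enc_spec ha hη (pt m)).2
    rw [show m.1 / a = m'.1 / a from h, (enc_spec ha hη (pt m')).2,
      div_left_inj' (by positivity)] at this
    exact_mod_cast this.symm
  · have h1 : (enc a η n).1 := by
      by_contra hc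
      exact hn (if_neg hc)
    obtain ⟨m, hm, rfl⟩ := enc_inv h1
    refine ⟨⟨m, ?_⟩, rfl⟩
    simpa only [Function.mem_support, if_pos hm, if_pos h1, (enc_spec ha hη hm).2] using hn
  · rw [if_pos (enc_spec ha hη (pt m)).1, if_pos (pt m), (enc_spec ha hη (pt m)).2]

lemma S_sh {a : ℕ} (ha : 0 < a) {η : ℤ → Bool} (s : ℤ) (hη : Nt a η) (hs : Nt a (sh s η))
    (f : ℝ → ℝ) : S (fun x => f (x - s / a)) (enc a η) = S f (enc a (sh s η)) := by
  rw [S_enc ha hη, S_enc ha hs, ← (Equiv.addRight s).tsum_eq]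
  refine tsum_congr fun m => ?_
  simp only [Equiv.coe_addRight, sh, Int.cast_add, add_div, add_sub_cancel_right]
  rfl

lemma S_cont {f : ℝ → ℝ} (hf : Continuous f) {u v : ℝ} (h : ∀ x, x ∉ Set.Icc u v → f x = 0) :
    Continuous fun p : ℝ × E => S (fun x => f (x - p.1)) p.2 := by
  refine continuous_iff_continuousAt.2 fun p => ?_
  have c : Continuous fun q : ℝ × E => ∑ n ∈ Finset.Icc (⌊u + p.1 - 1⌋ - 1) ⌊v + p.1 + 1⌋,
      if (q.2 n).1 then f (pos q.2 n - q.1) else 0 := continuous_finsetSum _ fun n _ => by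
    refine Continuous.if (fun q hq => ?_) (hf.comp (((c_pos n).comp continuous_snd).sub
      continuous_fst)) continuous_const
    have : frontier {x : ℝ × E | (x.2 n).1 = true} = ∅ :=
      ((clopen n).preimage continuous_snd).frontier_eq
    rw [this] at hq
    exact hq.elim
  refine c.continuousAt.congr ?_
  filter_upwards [continuous_fst.continuousAt.eventually (Ioo_mem_nhds (sub_one_lt p.1)
    (lt_add_one p.1))] with q hq
  refine (S_eq (f := fun x => f (x - q.1)) (u := u + p.1 - 1) (v := v + p.1 + 1)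
    (fun x hx => h _ fun hc => hx ⟨?_, ?_⟩) _).symm
  · linarith [hc.1, hq.1]
  · linarith [hc.2, hq.2]

noncomputable def Ψ {n : ℕ} (f : Fin n → ℝ → ℝ) (k : Fin n → ℕ) (t : ℝ) (ω : E) : ℝ :=
  ∏ i, max 0 (1 - |S (fun x => f i (x - t)) ω - k i|)

lemma Ψ_le {n : ℕ} (f : Fin n → ℝ → ℝ) (k : Fin n → ℕ) (t : ℝ) (ω : E) : ‖Ψ f k t ω‖ ≤ 1 := by
  rw [Ψ, Real.norm_of_nonneg (Finset.prod_nonneg fun _ _ => le_max_left _ _)]
  exact Finset.prod_le_one (fun _ _ => le_max_left _ _) fun _ _ =>
    max_le zero_le_one (by simp)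

lemma Ψ_cont {n : ℕ} {f : Fin n → ℝ → ℝ} (k : Fin n → ℕ) {u v : Fin n → ℝ}
    (hf : ∀ i, Continuous (f i)) (hs : ∀ i x, x ∉ Set.Icc (u i) (v i) → f i x = 0) :
    Continuous (Function.uncurry (Ψ f k)) := by
  change Continuous fun p : ℝ × E => ∏ i, max 0 (1 - |S (fun x => f i (x - p.1)) p.2 - k i|)
  exact continuous_finsetProd _ fun i _ =>
    continuous_const.max (continuous_const.sub ((S_cont (hf i) (hs i)).sub continuous_const).abs)

lemma exists_limit : ∃ (P : Measure E) (C : ℕ), IsProbabilityMeasure P ∧ (∀ᵐ ω ∂P, ω ∈ F) ∧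
    IndepFun (pL 0) (pR (C + 1)) P ∧ ∀ (n : ℕ) (f : Fin n → ℝ → ℝ) (k : Fin n → ℕ) (u v : Fin n → ℝ),
      (∀ i, Continuous (f i)) → (∀ i x, x ∉ Set.Icc (u i) (v i) → f i x = 0) →
      ∀ t, ∫ ω, Ψ f k t ω ∂P = ∫ ω, Ψ f k 0 ω ∂P := by
  obtain ⟨C, h⟩ := nets
  choose ν hν sν dν nν using h
  let Q : ℕ → ProbabilityMeasure E := fun j =>
    ⟨(ν j).map (enc (2 ^ j)), Measure.isProbabilityMeasure_map (m_enc _).aemeasurable⟩
  have hQ : ∀ j, MeasurePreserving (enc (2 ^ j)) (ν j) (Q j) := fun j => ⟨m_enc _, rfl⟩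
  have nν' : ∀ j, ∀ᵐ η ∂ν j, Nt (2 ^ j : ℕ) η := fun j => by simpa using nν j
  obtain ⟨P, -, hP⟩ := isCompact_univ.ultrafilter_le_nhds ((hyperfilter ℕ).map Q) (by simp)
  replace hP : Tendsto Q (hyperfilter ℕ) (𝓝 P) := hP
  have lim : ∀ g : E → ℝ, Continuous g → Tendsto (fun j => ∫ ω, g ω ∂(Q j : Measure E))
      (hyperfilter ℕ) (𝓝 (∫ ω, g ω ∂(P : Measure E))) := fun g hg =>
    ProbabilityMeasure.tendsto_iff_forall_integral_tendsto.1 hP
      (BoundedContinuousFunction.mkOfCompact ⟨g, hg⟩)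
  refine ⟨P, C, inferInstance, ?_, ?_, fun n f k u v hf hs t => ?_⟩
  · have := ProbabilityMeasure.limsup_measure_closed_le_of_tendsto hP closed_F
    have e : ∀ j, (Q j : Measure E) F = 1 := fun j => by
      rw [← prob_compl_eq_zero_iff closed_F.measurableSet]
      exact (ae_map_iff (m_enc _).aemeasurable closed_F.measurableSet).2
        ((nν' j).mono fun η h => enc_F (by positivity) h)
    simp only [e, limsup_const] at this
    exact (prob_compl_eq_zero_iff closed_F.measurableSet).2 (le_antisymm prob_le_one this)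
  · have cL : Continuous (pL 0 : E → E) := continuous_pi fun n => by
      unfold pL; split_ifs; exacts [continuous_apply _, continuous_const]
    have cR : Continuous (pR (C + 1) : E → E) := continuous_pi fun n => by
      unfold pR; split_ifs; exacts [continuous_apply _, continuous_const]
    refine indepFun_of_bcf (m_pL _).aemeasurable (m_pR _).aemeasurable fun f g => ?_
    refine tendsto_nhds_unique (lim _ ((f.continuous.comp cL).mul (g.continuous.comp cR)))
      (((lim _ (f.continuous.comp cL)).mul (lim _ (g.continuous.comp cR))).congr fun j => ?_)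
    have : IndepFun (pL 0) (pR (C + 1)) (Q j : Measure E) := by
      rw [indep_comp (hQ j) (m_pL _) (m_pR _)]
      have := (dν j (2 ^ j)).comp ((m_pL 0).comp (m_enc (2 ^ j)))
        ((m_pR (C + 1)).comp (m_enc (2 ^ j)))
      have p : (0 : ℤ) < 2 ^ j := by positivity
      have e1 : (pL 0 ∘ enc (2 ^ j)) ∘ pL (2 ^ j) = pL 0 ∘ enc (2 ^ j) := by
        ext η n : 2
        simp only [Function.comp, pL]
        split_ifs with h
        · refine enc_congr fun i hi => if_pos ?_
          have : (i : ℤ) < 2 ^ j := by exact_mod_cast hi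
          push_cast
          nlinarith
        · rfl
      have e2 : (pR (C + 1) ∘ enc (2 ^ j)) ∘ pR (2 ^ j + C * 2 ^ j) = pR (C + 1) ∘ enc (2 ^ j) := by
        ext η n : 2
        simp only [Function.comp, pR]
        split_ifs with h
        · refine enc_congr fun i hi => if_pos ?_
          push_cast
          nlinarith
        · rfl
      rwa [e1, e2] at this
    exact ((this.comp f.continuous.measurable g.continuous.measurable).integral_mul_eq_mul_integral
      (f.continuous.comp cL).aestronglyMeasurable (g.continuous.comp cR).aestronglyMeasurable).symm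
  · have c := Ψ_cont k hf hs
    have c1 : ∀ t, Continuous (Ψ f k t) := fun t => c.uncurry_left t
    have c2 : Continuous fun t => ∫ ω, Ψ f k t ω ∂(P : Measure E) :=
      continuous_of_dominated (fun t => (c1 t).aestronglyMeasurable)
        (fun t => .of_forall (Ψ_le f k t)) (integrable_const 1)
        (.of_forall fun ω => c.uncurry_right ω)
    have dy : ∀ (s : ℤ) (i : ℕ), ∫ ω, Ψ f k (s / 2 ^ i) ω ∂(P : Measure E)
        = ∫ ω, Ψ f k 0 ω ∂(P : Measure E) := by
      intro s i
      refine tendsto_nhds_unique (lim _ (c1 _)) ((lim _ (c1 _)).congr' ?_)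
      filter_upwards [Nat.hyperfilter_le_atTop (eventually_ge_atTop i)] with j hj
      obtain ⟨d, rfl⟩ := Nat.exists_eq_add_of_le hj
      have T := (hQ (i + d)).comp (sν (i + d) (s * 2 ^ d))
      conv_lhs => rw [← T.map_eq, integral_map T.measurable.aemeasurable
        (c1 _).aestronglyMeasurable]
      conv_rhs => rw [← (hQ (i + d)).map_eq, integral_map (m_enc _).aemeasurable
        (c1 _).aestronglyMeasurable]
      refine integral_congr_ae ?_
      filter_upwards [nν' (i + d), (sν (i + d) (s * 2 ^ d)).quasiMeasurePreserving.ae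
        (nν' (i + d))] with η h1 h2
      refine Finset.prod_congr rfl fun l _ => ?_
      simp only [Function.comp, sub_zero]
      have e : ((s * 2 ^ d : ℤ) : ℝ) / (2 ^ (i + d) : ℕ) = s / 2 ^ i := by
        push_cast
        field_simp
        ring
      rw [← S_sh (by positivity) _ h1 h2, e]
    have tl : Tendsto (fun i : ℕ => (⌊t * 2 ^ i⌋ : ℝ) / 2 ^ i) atTop (𝓝 t) := by
      have z : Tendsto (fun i : ℕ => t - (1 / 2 : ℝ) ^ i) atTop (𝓝 t) := by
        simpa using (tendsto_pow_atTop_nhds_zero_of_lt_one (r := (1 / 2 : ℝ)) (by norm_num)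
          (by norm_num)).const_sub t
      refine tendsto_of_tendsto_of_tendsto_of_le_of_le z tendsto_const_nhds (fun i => ?_)
        fun i => ?_
      · have := Int.sub_one_lt_floor (t * 2 ^ i)
        simp only [one_div, inv_pow]
        rw [le_div_iff₀ (by positivity), sub_mul, inv_mul_cancel₀ (by positivity)]
        exact this.le
      · exact (div_le_iff₀ (by positivity)).2 (Int.floor_le _)
    exact tendsto_nhds_unique ((c2.tendsto t).comp tl) (tendsto_const_nhds.congr fun i =>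
      (dy _ i).symm)

open Classical in
noncomputable def cnt (u v : ℝ) (ω : E) : ℕ :=
  ((Finset.Icc (⌊u⌋ - 1) ⌊v⌋).filter fun n => (ω n).1 ∧ pos ω n ∈ Set.Icc u v).card

lemma m_cnt (u v : ℝ) : Measurable (cnt u v) := by
  classical
  unfold cnt
  simp only [Finset.card_filter]
  exact Finset.measurable_sum _ fun n _ => Measurable.ite ((clopen n).1.measurableSet.inter
    ((c_pos n).measurable measurableSet_Icc)) measurable_const measurable_const

def XX (ω : E) : Set ℝ := {x | ∃ n, (ω n).1 ∧ pos ω n = x}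

open Classical in
lemma XX_eq (u v : ℝ) (ω : E) : XX ω ∩ Set.Icc u v = pos ω ''
    ↑((Finset.Icc (⌊u⌋ - 1) ⌊v⌋).filter fun n => (ω n).1 ∧ pos ω n ∈ Set.Icc u v) := by
  ext x
  simp only [XX, Set.mem_inter_iff, Set.mem_ofPred_eq, Finset.coe_filter, Set.mem_image]
  constructor
  · rintro ⟨⟨n, h, rfl⟩, hx⟩
    exact ⟨n, ⟨near hx, h, hx⟩, rfl⟩
  · rintro ⟨n, ⟨-, h, hx⟩, rfl⟩
    exact ⟨⟨n, h, rfl⟩, hx⟩

lemma sep {ω : E} (h : ω ∈ F) {n m : ℤ} (hn : (ω n).1) (hm : (ω m).1) (hne : n ≠ m) :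
    1 ≤ |pos ω n - pos ω m| := by
  rw [le_abs]
  rcases lt_or_gt_of_ne hne with l | l
  · right; linarith [h.1 n m hn hm l]
  · left; linarith [h.1 m n hm hn l]

lemma ncard_eq {ω : E} (h : ω ∈ F) (u v : ℝ) : (XX ω ∩ Set.Icc u v).ncard = cnt u v ω := by
  rw [XX_eq, Set.InjOn.ncard_image, Set.ncard_coe_finset, cnt]
  intro n hn m hm e
  by_contra hc
  have := sep h (Finset.mem_filter.1 hn).2.1 (Finset.mem_filter.1 hm).2.1 hc
  rw [e, sub_self, abs_zero] at this
  linarith

lemma cnt_congr {u v : ℝ} {ω ω' : E} (h : ∀ n : ℤ, u ≤ n + 1 → n ≤ v → ω n = ω' n) :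
    cnt u v ω = cnt u v ω' := by
  unfold cnt
  congr 1
  refine Finset.filter_congr fun n hn => ?_
  by_cases c : u ≤ n + 1 ∧ n ≤ v
  · simp only [pos, h n c.1 c.2]
  · exact iff_of_false (fun h => c ⟨h.2.1.trans (pos_le _ _), (pos_ge _ _).trans h.2.2⟩)
      fun h => c ⟨h.2.1.trans (pos_le _ _), (pos_ge _ _).trans h.2.2⟩

noncomputable def tr (l r : ℝ) (m : ℕ) (x : ℝ) : ℝ :=
  max 0 (1 - (m + 1) * (max (l - x) 0 + max (x - r) 0))

lemma trz (l r : ℝ) (m : ℕ) (x : ℝ) (hx : x ∉ Set.Icc (l - 1) (r + 1)) : tr l r m x = 0 := by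
  refine max_eq_left ?_
  have h1 := le_max_left (l - x) 0
  have h2 := le_max_right (l - x) 0
  have h3 := le_max_left (x - r) 0
  have h4 := le_max_right (x - r) 0
  have : 1 ≤ max (l - x) 0 + max (x - r) 0 := by
    by_contra hc
    exact hx ⟨by linarith, by linarith⟩
  nlinarith [m.cast_nonneg (α := ℝ)]

lemma tr_lim (l r t : ℝ) (ω : E) :
    Tendsto (fun m => S (fun x => tr l r m (x - t)) ω) atTop (𝓝 (cnt (l + t) (r + t) ω)) := by
  classical
  have e : (cnt (l + t) (r + t) ω : ℝ) = ∑ n ∈ Finset.Icc (⌊l + t - 1⌋ - 1) ⌊r + t + 1⌋,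
      if (ω n).1 then (if pos ω n ∈ Set.Icc (l + t) (r + t) then 1 else 0) else 0 := by
    rw [← S_eq (f := fun x => if x ∈ Set.Icc (l + t) (r + t) then 1 else 0) fun x hx =>
      if_neg fun hc => hx ⟨by linarith [hc.1], by linarith [hc.2]⟩,
      S_eq (u := l + t) (v := r + t) fun x hx => if_neg hx, cnt, Finset.card_filter]
    simp [ite_and]
  have z : ∀ (m : ℕ) x, x ∉ Set.Icc (l + t - 1) (r + t + 1) → tr l r m (x - t) = 0 :=
    fun m x hx => trz _ _ _ _ fun hc => hx ⟨by linarith [hc.1], by linarith [hc.2]⟩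
  simp only [fun m => S_eq (z m), e]
  refine tendsto_finsetSum _ fun n _ => ?_
  split_ifs with h1 h2
  · refine tendsto_const_nhds.congr fun m => ?_
    rw [tr, max_eq_right (by linarith [h2.1] : l - (pos ω n - t) ≤ 0),
      max_eq_right (by linarith [h2.2] : pos ω n - t - r ≤ 0)]
    simp
  · obtain ⟨d, hd⟩ : ∃ d, d = max (l - (pos ω n - t)) 0 + max (pos ω n - t - r) 0 := ⟨_, rfl⟩
    have d0 : 0 < d := by
      have h1 := le_max_left (l - (pos ω n - t)) 0
      have h2' := le_max_right (l - (pos ω n - t)) 0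
      have h3 := le_max_left (pos ω n - t - r) 0
      have h4 := le_max_right (pos ω n - t - r) 0
      by_contra hc
      exact h2 ⟨by linarith, by linarith⟩
    obtain ⟨N, hN⟩ := exists_nat_ge (1 / d)
    refine tendsto_const_nhds.congr' ?_
    filter_upwards [eventually_ge_atTop N] with m hm
    have : (N : ℝ) ≤ m := by exact_mod_cast hm
    rw [div_le_iff₀ d0] at hN
    rw [tr, ← hd, max_eq_left (by nlinarith)]
  · exact tendsto_const_nhds

lemma Ψ_lim (P : Measure E) [IsProbabilityMeasure P] {n : ℕ} (l r : Fin n → ℝ) (k : Fin n → ℕ)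
    (t : ℝ) : Tendsto (fun m => ∫ ω, Ψ (fun i => tr (l i) (r i) m) k t ω ∂P) atTop
      (𝓝 (P.real {ω | ∀ i, cnt (l i + t) (r i + t) ω = k i})) := by
  have ms : MeasurableSet {ω | ∀ i, cnt (l i + t) (r i + t) ω = k i} := by
    simp only [Set.ofPred_forall]
    exact MeasurableSet.iInter fun i => m_cnt _ _ (MeasurableSet.singleton _)
  rw [← integral_indicator_one ms]
  refine tendsto_integral_of_dominated_convergence (fun _ => 1) (fun m => ?_) (integrable_const 1)
    (fun m => .of_forall (Ψ_le _ k t)) (.of_forall fun ω => ?_)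
  · exact ((Ψ_cont (f := fun i => tr (l i) (r i) m) k (fun i => by unfold tr; fun_prop)
      fun i => trz _ _ _).uncurry_left t).aestronglyMeasurable
  · have := tendsto_finsetProd (f := fun i m => max 0 (1 - |S (fun x => tr (l i) (r i) m (x - t)) ω
      - k i|)) Finset.univ fun i _ => tendsto_const_nhds.max (tendsto_const_nhds.sub
        ((tr_lim (l i) (r i) t ω).sub_const (k i)).abs)
    refine this.trans_eq ?_
    congr 1
    by_cases h : ∀ i, cnt (l i + t) (r i + t) ω = k i
    · simp [h]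
    · rw [Set.indicator_of_notMem (by exact h)]
      push Not at h
      obtain ⟨i, hi⟩ := h
      refine Finset.prod_eq_zero (Finset.mem_univ i) (max_eq_left ?_)
      have : (1 : ℤ) ≤ |(cnt (l i + t) (r i + t) ω : ℤ) - k i| :=
        Int.one_le_abs (by omega)
      have : (1 : ℝ) ≤ |(cnt (l i + t) (r i + t) ω : ℝ) - k i| := by exact_mod_cast this
      linarith


/-- There is a locally finite random subset of the reals, shift-invariant in law, with some c>0 making its parts in (-inf,0] and [c,inf) independent, and constants 0<a<=b so that a.s. distinct points are at least a apart and every interval of length b contains a point. -/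
theorem result :
    ∃ (Ω : Type) (m : MeasurableSpace Ω) (P : Measure Ω) (X : Ω → Set ℝ),
      IsProbabilityMeasure P ∧
      (∀ ω : Ω, ∀ u v : ℝ, (X ω ∩ Set.Icc u v).Finite) ∧
      (∀ u v : ℝ, Measurable (fun ω : Ω => (X ω ∩ Set.Icc u v).ncard)) ∧
      (∀ t : ℝ, ∀ n : ℕ, ∀ (l r : Fin n → ℝ) (k : Fin n → ℕ),
        P {ω : Ω | ∀ i : Fin n, (X ω ∩ Set.Icc (l i) (r i)).ncard = k i} =
        P {ω : Ω | ∀ i : Fin n, (X ω ∩ Set.Icc (l i + t) (r i + t)).ncard = k i}) ∧
      (∃ c : ℝ, 0 < c ∧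
        Indep
          (⨆ u : ℝ, ⨆ v : ℝ, MeasurableSpace.comap
            (fun ω : Ω => (X ω ∩ Set.Icc u (min v 0)).ncard) (inferInstance : MeasurableSpace ℕ))
          (⨆ u : ℝ, ⨆ v : ℝ, MeasurableSpace.comap
            (fun ω : Ω => (X ω ∩ Set.Icc (max u c) v).ncard) (inferInstance : MeasurableSpace ℕ))
          P) ∧
      (∃ a b : ℝ, 0 < a ∧ a ≤ b ∧
        ∀ᵐ ω ∂P, (∀ x ∈ X ω, ∀ y ∈ X ω, x ≠ y → a ≤ |x - y|) ∧
          ∀ t : ℝ, (X ω ∩ Set.Icc t (t + b)).Nonempty) := by
  obtain ⟨P, C, _, hF, hind, hinv⟩ := exists_limit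
  have hv : MeasurePreserving (Subtype.val : F → E) (P.comap Subtype.val) P :=
    ⟨measurable_subtype_coe, by
      rw [(MeasurableEmbedding.subtype_coe closed_F.measurableSet).map_comap, Subtype.range_coe,
        Measure.restrict_eq_self_of_ae_mem hF]⟩
  have nc : ∀ (ω : F) u v, (XX ω.1 ∩ Set.Icc u v).ncard = cnt u v ω.1 := fun ω => ncard_eq ω.2
  refine ⟨F, inferInstance, P.comap Subtype.val, fun ω => XX ω.1, ⟨?_⟩, fun ω u v => ?_,
    fun u v => ?_, fun t n l r k => ?_, ⟨C + 2, by positivity, ?_⟩, 1, 5, one_pos, by norm_num,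
    .of_forall fun ω => ⟨?_, fun t => ?_⟩⟩
  · simpa using hv.measure_preimage (s := Set.univ) MeasurableSet.univ.nullMeasurableSet
  · rw [XX_eq]; exact (Finset.finite_toSet _).image _
  · simp only [nc]; exact (m_cnt u v).comp measurable_subtype_coe
  · have ms : ∀ t, MeasurableSet {ω | ∀ i, cnt (l i + t) (r i + t) ω = k i} := fun t => by
      simp only [Set.ofPred_forall]
      exact MeasurableSet.iInter fun i => m_cnt _ _ (MeasurableSet.singleton _)
    have e := tendsto_nhds_unique (Ψ_lim P l r k 0) ((Ψ_lim P l r k t).congr fun m =>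
      hinv n _ k (fun i => l i - 1) (fun i => r i + 1) (fun i => by unfold tr; fun_prop)
        (fun i => trz _ _ _) t)
    rw [measureReal_def, measureReal_def, ENNReal.toReal_eq_toReal_iff' (measure_ne_top _ _)
      (measure_ne_top _ _), ← hv.measure_preimage (ms 0).nullMeasurableSet,
      ← hv.measure_preimage (ms t).nullMeasurableSet] at e
    simpa only [nc, Set.preimage, Set.mem_ofPred_eq, add_zero] using e
  · have := (IndepFun_iff_Indep _ _ _).1 ((indep_comp hv (m_pL 0) (m_pR (C + 1))).1 hind)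
    simp only [nc]
    refine indep_of_indep_of_le this (iSup₂_le fun u v => Measurable.comap_le ?_)
      (iSup₂_le fun u v => Measurable.comap_le ?_)
    · have : (fun ω : F => cnt u (min v 0) ω.1) = cnt u (min v 0) ∘ (pL 0 ∘ Subtype.val) :=
        funext fun ω => cnt_congr fun n _ h => (if_pos (by
          exact_mod_cast h.trans (min_le_right v 0))).symm
      rw [this]
      exact (m_cnt _ _).comp (comap_measurable _)
    · have : (fun ω : F => cnt (max u (C + 2)) v ω.1)
          = cnt (max u (C + 2)) v ∘ (pR (C + 1) ∘ Subtype.val) :=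
        funext fun ω => cnt_congr fun n h _ => (if_pos (by
          have : (C : ℝ) + 1 ≤ n := by linarith [le_max_right u (C + 2)]
          exact_mod_cast this)).symm
      rw [this]
      exact (m_cnt _ _).comp (comap_measurable _)
  · rintro _ ⟨n, hn, rfl⟩ _ ⟨m, hm, rfl⟩ h
    exact sep ω.2 hn hm fun e => h (by rw [e])
  · obtain ⟨n, hn, h⟩ := ω.2.2 t
    exact ⟨_, ⟨n, hn, rfl⟩, h⟩

end Pool.Agent.S19343
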