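import Pool.Statements.S19358

set_option autoImplicit false
open MeasureTheory ProbabilityTheory Filter Topology
open Pool Pool.MP_621202_pr

namespace Pool.Agent.S19358

open scoped ENNReal

abbrev V : Type := Fin 1 → ℤ
abbrev St : Type := Bool × Bool × Bool

def e (z : ℤ) : V := fun _ => z

lemma e_add (z i : ℤ) : e z + e i = e (z + i) := rfl
lemma e_surj (w : V) : w = e (w 0) := by funext i; rw [Subsingleton.elim i 0]; rfl
lemma e_inj {z w : ℤ} (h : e z = e w) : z = w := congrFun h 0

def NN : Finset V := {e (-1), e 0, e 1, e 2}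

def g (l m r s : St) (c : Bool) : St :=
  (l.1 && !l.2.1 && !m.2.1 && !r.2.1, (r.2.1 && !r.2.2) || (s.2.1 && s.2.2) || m.1,
    ((r.2.1 && !r.2.2) || (s.2.1 && s.2.2) || m.1) && c)

noncomputable def coin : Measure Bool := (PMF.uniformOfFintype Bool).toMeasure
instance : IsProbabilityMeasure coin := by unfold coin; infer_instance

lemma coin_single (b : Bool) : coin {b} = 2⁻¹ := by
  rw [coin, PMF.toMeasure_apply_singleton _ _ (measurableSet_singleton b), PMF.uniformOfFintype_apply]
  simp

noncomputable def coins : Measure (V → Bool) := Measure.infinitePi fun _ => coin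
instance : IsProbabilityMeasure coins := by unfold coins; infer_instance

noncomputable def f (p : NN → St) : ProbabilityMeasure St :=
  ⟨coin.map (g (p ⟨e (-1), by simp [NN]⟩) (p ⟨e 0, by simp [NN]⟩) (p ⟨e 1, by simp [NN]⟩)
    (p ⟨e 2, by simp [NN]⟩)), Measure.isProbabilityMeasure_map Measurable.of_discrete.aemeasurable⟩

def step (x : V → St) (c : V → Bool) : V → St :=
  fun w => g (x (w + e (-1))) (x (w + e 0)) (x (w + e 1)) (x (w + e 2)) (c w)

lemma meas_step : Measurable fun z : (V → St) × (V → Bool) => step z.1 z.2 := by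
  refine measurable_pi_lambda _ fun w => ?_
  have h1 : Measurable fun q : St × St × St × St × Bool => g q.1 q.2.1 q.2.2.1 q.2.2.2.1 q.2.2.2.2 :=
    Measurable.of_discrete
  have h2 : Measurable fun z : (V → St) × (V → Bool) =>
      (z.1 (w + e (-1)), z.1 (w + e 0), z.1 (w + e 1), z.1 (w + e 2), z.2 w) := by fun_prop
  exact h1.comp h2

lemma meas_step' (x : V → St) : Measurable (step x) := meas_step.comp measurable_prodMk_left

noncomputable def κ : Kernel (V → St) (V → St) :=
  (Kernel.id ×ₖ Kernel.const _ coins).map fun z => step z.1 z.2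

lemma κ_apply (x : V → St) : κ x = coins.map (step x) := by
  rw [κ, Kernel.map_apply _ meas_step, Kernel.prod_apply, Kernel.id_apply, Kernel.const_apply,
    Measure.dirac_prod, Measure.map_map meas_step measurable_prodMk_left]
  rfl

lemma κ_eq (x : V → St) :
    κ x = Measure.infinitePi fun k : V => ((f (fun v : NN => x (k + (v : V)))) : Measure St) := by
  rw [κ_apply]
  exact Measure.infinitePi_map_pi (fun _ : V => coin)
    (f := fun k => g (x (k + e (-1))) (x (k + e 0)) (x (k + e 1)) (x (k + e 2)))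
    fun _ => Measurable.of_discrete

noncomputable def it (n : ℕ) (ν : Measure (V → St)) : Measure (V → St) :=
  (fun ν : Measure (V → St) => ν.bind (⇑κ))^[n] ν

lemma it_succ (n : ℕ) (ν : Measure (V → St)) {S : Set (V → St)} (hS : MeasurableSet S) :
    it (n + 1) ν S = ∫⁻ x, coins (step x ⁻¹' S) ∂(it n ν) := by
  rw [it, Function.iterate_succ_apply', Measure.bind_apply hS κ.aemeasurable]
  refine lintegral_congr fun x => ?_
  rw [κ_apply, Measure.map_apply (meas_step' x) hS]

lemma it_add (m n : ℕ) (ν : Measure (V → St)) : it (m + n) ν = it m (it n ν) :=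
  Function.iterate_add_apply _ _ _ _

lemma it_univ (n : ℕ) (ν : Measure (V → St)) : it n ν Set.univ = ν Set.univ := by
  induction n with
  | zero => rfl
  | succ n ih => rw [it_succ _ _ MeasurableSet.univ]; simp [ih]

lemma it_mono (n : ℕ) {ν μ : Measure (V → St)} (h : ν ≤ μ) : it n ν ≤ it n μ := by
  induction n with
  | zero => exact h
  | succ n ih =>
    refine Measure.le_iff.2 fun S hS => ?_
    rw [it_succ _ _ hS, it_succ _ _ hS]
    exact lintegral_mono' ih le_rfl

lemma it_ae {n : ℕ} {ν : Measure (V → St)} {P Q : (V → St) → Prop} (hQ : MeasurableSet {x | Q x})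
    (h : ∀ x c, P x → Q (step x c)) (hP : ∀ᵐ x ∂(it n ν), P x) : ∀ᵐ x ∂(it (n + 1) ν), Q x := by
  rw [ae_iff]
  have : {x | ¬ Q x} = {x | Q x}ᶜ := rfl
  rw [this, it_succ _ _ hQ.compl]
  refine (lintegral_congr_ae ?_).trans lintegral_zero
  filter_upwards [hP] with x hx
  have : step x ⁻¹' {x | Q x}ᶜ = ∅ := by
    ext c; simp [h x c hx]
  rw [this, measure_empty]

def B (x : V → St) (z : ℤ) : Prop := (x (e z)).1 = true
def Kl (x : V → St) (z : ℤ) : Prop := (x (e z)).2.1 = true
def Dr (x : V → St) (z : ℤ) : Prop := (x (e z)).2.2 = true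
def pres (x : V → St) (z : ℤ) : Prop := (Kl x (z + 1) ∧ ¬ Dr x (z + 1)) ∨ (Kl x (z + 2) ∧ Dr x (z + 2)) ∨ B x z

lemma B_step (x : V → St) (c : V → Bool) (z : ℤ) :
    B (step x c) z ↔ B x (z - 1) ∧ ¬ Kl x (z - 1) ∧ ¬ Kl x z ∧ ¬ Kl x (z + 1) := by
  simp [B, Kl, step, g, e_add, and_assoc, sub_eq_add_neg]

lemma Kl_step (x : V → St) (c : V → Bool) (z : ℤ) : Kl (step x c) z ↔ pres x z := by
  simp [B, Kl, Dr, pres, step, g, e_add, or_assoc]

lemma Dr_step (x : V → St) (c : V → Bool) (z : ℤ) : Dr (step x c) z ↔ pres x z ∧ c (e z) = true := by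
  simp [B, Kl, Dr, pres, step, g, e_add, or_assoc]

lemma mB (z : ℤ) : Measurable fun x => B x z :=
  (Measurable.of_discrete (f := fun s : St => s.1 = true)).comp (measurable_pi_apply (e z))
lemma mK (z : ℤ) : Measurable fun x => Kl x z :=
  (Measurable.of_discrete (f := fun s : St => s.2.1 = true)).comp (measurable_pi_apply (e z))
lemma mD (z : ℤ) : Measurable fun x => Dr x z :=
  (Measurable.of_discrete (f := fun s : St => s.2.2 = true)).comp (measurable_pi_apply (e z))
lemma mP (z : ℤ) : Measurable fun x => pres x z :=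
  ((mK _).and (mD _).not).or (((mK _).and (mD _)).or (mB _))

def Z (x : V → St) : Prop := ∀ z, ¬ B x z ∧ ¬ Kl x z

lemma mZ : Measurable Z := Measurable.forall fun z => (mB z).not.and (mK z).not

lemma Z_step (x : V → St) (c : V → Bool) (h : Z x) : Z (step x c) := by
  intro z
  rw [B_step, Kl_step]
  refine ⟨fun h1 => (h _).1 h1.1, ?_⟩
  rintro (h1 | h1 | h1)
  exacts [(h _).2 h1.1, (h _).2 h1.1, (h _).1 h1]

def AR (R : ℕ) (x : V → St) : Prop := Z x ∨ ∃ z : ℤ, |z| ≤ R ∧ (B x z ∨ Kl x z)

lemma mAR (R : ℕ) : Measurable (AR R) :=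
  mZ.or (Measurable.exists fun z => measurable_const.and ((mB z).or (mK z)))

def J (R j : ℕ) (x : V → St) : Prop :=
  Z x ∨ ∃ z k : ℤ, |z| ≤ R + 2 ∧ k ≤ z - j ∧ Kl x k ∧ ∀ w, B x w → w ≤ k ∨ z + j < w

lemma mJ (R j : ℕ) : Measurable (J R j) :=
  mZ.or (Measurable.exists fun _ => Measurable.exists fun k => measurable_const.and
    (measurable_const.and ((mK k).and (Measurable.forall fun w => (mB w).imp measurable_const))))

lemma Kl_move (x : V → St) (c : V → Bool) {k : ℤ} (h : Kl x k) :
    Kl (step x c) (k - 1) ∨ Kl (step x c) (k - 2) := by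
  rw [Kl_step, Kl_step]
  by_cases hd : Dr x k
  · right; right; left; rw [sub_add_cancel]; exact ⟨h, hd⟩
  · left; left; rw [sub_add_cancel]; exact ⟨h, hd⟩

lemma J_zero (R : ℕ) (x : V → St) (c : V → Bool) (h : AR R x) : J R 0 (step x c) := by
  rcases h with h | ⟨z, hz, h⟩
  · exact Or.inl (Z_step x c h)
  right
  rw [abs_le] at hz
  have : ∃ k : ℤ, |k| ≤ R + 2 ∧ Kl (step x c) k := by
    rcases h with h | h
    · exact ⟨z, by rw [abs_le]; omega, (Kl_step x c z).2 (Or.inr (Or.inr h))⟩
    · rcases Kl_move x c h with h | h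
      · exact ⟨_, by rw [abs_le]; omega, h⟩
      · exact ⟨_, by rw [abs_le]; omega, h⟩
  obtain ⟨k, h1, h2⟩ := this
  exact ⟨k, k, h1, by simp, h2, fun w _ => by omega⟩

lemma J_step (R j : ℕ) (x : V → St) (c : V → Bool) (h : J R j x) : J R (j + 1) (step x c) := by
  rcases h with h | ⟨z, k, h1, h2, h3, h4⟩
  · exact Or.inl (Z_step x c h)
  right
  have key : ∀ w, B (step x c) w → w ≤ k - 2 ∨ z + ((j + 1 : ℕ) : ℤ) < w := by
    intro w hw
    obtain ⟨a1, a2, a3, a4⟩ := (B_step x c w).1 hw
    have b1 : w - 1 ≠ k := fun h => a2 (h ▸ h3)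
    have b2 : w ≠ k := fun h => a3 (h ▸ h3)
    have b3 : w + 1 ≠ k := fun h => a4 (h ▸ h3)
    have := h4 _ a1
    push_cast; omega
  rcases Kl_move x c h3 with h | h
  · exact ⟨z, k - 1, h1, by push_cast; omega, h, fun w hw => by have := key w hw; omega⟩
  · exact ⟨z, k - 2, h1, by push_cast; omega, h, key⟩

def NoB (L : ℕ) (x : V → St) : Prop := ∀ w : ℤ, |w| ≤ L → ¬ B x w

lemma NoB_of_J {R j L : ℕ} (hj : R + L + 3 ≤ j) {x : V → St} (h : J R j x) : NoB L x := by
  intro w hw hB
  rcases h with h | ⟨z, k, h1, h2, -, h4⟩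
  · exact (h w).1 hB
  · have := h4 w hB
    rw [abs_le] at hw h1
    omega

lemma ae_J (μ : Measure (V → St)) (R j : ℕ) :
    ∀ᵐ x ∂(it (j + 1) (μ.restrict {x | AR R x})), J R j x := by
  induction j with
  | zero =>
    exact it_ae (measurableSet_setOf.2 (mJ R 0)) (J_zero R)
      (ae_restrict_mem (measurableSet_setOf.2 (mAR R)))
  | succ j ih => exact it_ae (measurableSet_setOf.2 (mJ R (j + 1))) (J_step R j) ih

noncomputable def h : ℕ → ℕ → ℝ
  | _, 0 => 1
  | 0, _ + 1 => 0
  | m + 1, l + 1 => (h m l + h m (l + 1) + (h m (l + 1) + h m (l + 2))) / 4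

lemma h_zero (m : ℕ) : h m 0 = 1 := by cases m <;> simp [h]

lemma h_mem : ∀ m l, 0 ≤ h m l ∧ h m l ≤ 1
  | m, 0 => by simp [h_zero]
  | 0, _ + 1 => by simp [h]
  | m + 1, l + 1 => by
    have a1 := h_mem m l
    have a2 := h_mem m (l + 1)
    have a3 := h_mem m (l + 2)
    simp only [h]
    constructor <;> linarith

lemma h_mono : ∀ m l, h m l ≤ h (m + 1) l
  | m, 0 => by simp [h_zero]
  | 0, l + 1 => by
    have := (h_mem 1 (l + 1)).1
    simpa [h] using this
  | m + 1, l + 1 => by
    have a1 := h_mono m l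
    have a2 := h_mono m (l + 1)
    have a3 := h_mono m (l + 2)
    rw [h, h]
    linarith

lemma h_tendsto (l : ℕ) : Tendsto (fun m => h m l) atTop (𝓝 1) := by
  have h1 : ∀ l, Tendsto (fun m => h m l) atTop (𝓝 (⨆ m, h m l)) := fun l =>
    tendsto_atTop_ciSup (monotone_nat_of_le_succ fun m => h_mono m l)
      ⟨1, by rintro _ ⟨m, rfl⟩; exact (h_mem m l).2⟩
  set H : ℕ → ℝ := fun l => ⨆ m, h m l with hH
  have h0 : H 0 = 1 := by simp [hH, h_zero]
  have hb : ∀ l, 0 ≤ H l ∧ H l ≤ 1 := fun l =>
    ⟨ge_of_tendsto' (h1 l) fun m => (h_mem m l).1, le_of_tendsto' (h1 l) fun m => (h_mem m l).2⟩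
  have hr : ∀ l, H (l + 1) = (H l + H (l + 1) + (H (l + 1) + H (l + 2))) / 4 := by
    intro l
    have a1 := (h1 (l + 1)).comp (tendsto_add_atTop_nat 1)
    have a2 := (((h1 l).add (h1 (l + 1))).add ((h1 (l + 1)).add (h1 (l + 2)))).div_const 4
    exact tendsto_nhds_unique a1 (a2.congr fun m => by simp [h])
  have hd : ∀ l, H (l + 1) - H l = H 1 - H 0 := by
    intro l
    induction l with
    | zero => rfl
    | succ l ih => have := hr l; linarith
  have hl : ∀ l : ℕ, H l = 1 + l * (H 1 - H 0) := by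
    intro l
    induction l with
    | zero => simp [h0]
    | succ l ih => have := hd l; push_cast; linarith
  have hδ : H 1 - H 0 = 0 := by
    by_contra hne
    have hneg : 0 < -(H 1 - H 0) := by
      have := (hb 1).2
      rcases lt_or_gt_of_ne hne with h | h <;> linarith
    obtain ⟨n, hn⟩ := exists_nat_gt (1 / -(H 1 - H 0))
    rw [div_lt_iff₀ hneg] at hn
    have := (hb n).1
    rw [hl n] at this
    linarith
  have := h1 l
  rwa [show (⨆ m, h m l) = 1 by have := hl l; rw [hδ] at this; simpa using this] at this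

def D (a : ℤ) (l : ℕ) : Set (V → St) := {x | ∀ z, a ≤ z → z < a + l → ¬ pres x z}

lemma mDD (a : ℤ) (l : ℕ) : MeasurableSet (D a l) :=
  measurableSet_setOf.2 (Measurable.forall fun z => measurable_const.imp (measurable_const.imp (mP z).not))

def E (a b : ℤ) (i j : Bool) : Set (V → Bool) := {c | c (e a) = i ∧ c (e b) = j}

lemma mE (a b : ℤ) (i j : Bool) : MeasurableSet (E a b i j) :=
  ((measurable_pi_apply (X := fun _ : V => Bool) (e a)) (measurableSet_singleton i)).inter
    ((measurable_pi_apply (X := fun _ : V => Bool) (e b)) (measurableSet_singleton j))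

lemma coins_E {a b : ℤ} (hab : a ≠ b) (i j : Bool) : coins (E a b i j) = 4⁻¹ := by
  have h1 := Measure.infinitePi_map_eval_prod (P := fun _ : V => coin) (i := e a) (j := e b)
    (fun h => hab (e_inj h))
  have h2 : E a b i j = (fun ω : V → Bool => (ω (e a), ω (e b))) ⁻¹' ({i} ×ˢ {j}) := by
    ext c; simp [E]
  rw [h2, ← Measure.map_apply (by fun_prop) ((measurableSet_singleton i).prod (measurableSet_singleton j)),
    coins, h1, Measure.prod_prod, coin_single, coin_single, ← ENNReal.mul_inv (by simp) (by simp)]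
  norm_num

lemma one_step (a : ℤ) (l : ℕ) (x : V → St) (hx : ∀ w, a - 1 ≤ w → w < a + l → ¬ B x w) :
    4⁻¹ * ((D (a + 2) l).indicator 1 x + (D (a + 2) (l + 1)).indicator 1 x +
      ((D (a + 1) (l + 1)).indicator 1 x + (D (a + 1) (l + 2)).indicator 1 x)) ≤
      coins (step x ⁻¹' D a (l + 1)) := by
  have hne : a + 1 ≠ a + l + 2 := by omega
  set G := step x ⁻¹' D a (l + 1) with hG
  have key : ∀ (i j : Bool) (T : Set (V → St)), (x ∈ T → E (a + 1) (a + l + 2) i j ⊆ G) →
      4⁻¹ * T.indicator 1 x ≤ coins (G ∩ E (a + 1) (a + l + 2) i j) := by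
    intro i j T hT
    by_cases hxT : x ∈ T
    · rw [Set.indicator_of_mem hxT, Set.inter_eq_right.2 (hT hxT), coins_E hne]; simp
    · rw [Set.indicator_of_notMem hxT]; simp
  have sub : ∀ (i j : Bool), (∀ z, a + 2 ≤ z → z < a + l + 2 → ¬ pres x z) →
      (i = false → ¬ pres x (a + 1)) → (j = true → ¬ pres x (a + l + 2)) →
      E (a + 1) (a + l + 2) i j ⊆ G := by
    intro i j h1 h2 h3 c hc z hz1 hz2
    push_cast at hz2
    rintro (⟨b1, b2⟩ | ⟨b1, b2⟩ | b1)
    · rw [Kl_step] at b1
      rw [Dr_step] at b2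
      by_cases hz : z = a
      · subst hz
        cases i
        · exact h2 rfl b1
        · exact b2 ⟨b1, hc.1⟩
      · exact h1 _ (by omega) (by omega) b1
    · rw [Dr_step] at b2
      by_cases hz : z = a + l
      · subst hz
        cases j
        · have := hc.2
          rw [b2.2] at this
          exact absurd this (by simp)
        · exact h3 rfl b2.1
      · exact h1 _ (by omega) (by omega) b2.1
    · exact hx (z - 1) (by omega) (by omega) ((B_step x c z).1 b1).1
  have k1 := key true false (D (a + 2) l) fun hT =>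
    sub _ _ (fun z h1 h2 => hT z h1 (by omega)) (by simp) (by simp)
  have k2 := key true true (D (a + 2) (l + 1)) fun hT =>
    sub _ _ (fun z h1 h2 => hT z h1 (by push_cast; omega)) (by simp)
      fun _ => hT _ (by omega) (by push_cast; omega)
  have k3 := key false false (D (a + 1) (l + 1)) fun hT =>
    sub _ _ (fun z h1 h2 => hT z (by omega) (by push_cast; omega))
      (fun _ => hT _ le_rfl (by push_cast; omega)) (by simp)
  have k4 := key false true (D (a + 1) (l + 2)) fun hT =>
    sub _ _ (fun z h1 h2 => hT z (by omega) (by push_cast; omega))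
      (fun _ => hT _ le_rfl (by push_cast; omega)) fun _ => hT _ (by omega) (by push_cast; omega)
  rw [mul_add, mul_add, mul_add]
  refine (add_le_add (add_le_add k1 k2) (add_le_add k3 k4)).trans ?_
  have hGm : MeasurableSet G := meas_step' x (mDD _ _)
  have dj : ∀ i j i' j' : Bool, (i ≠ i' ∨ j ≠ j') →
      Disjoint (G ∩ E (a + 1) (a + l + 2) i j) (G ∩ E (a + 1) (a + l + 2) i' j') := by
    intro i j i' j' hij
    refine Set.disjoint_left.2 fun c h1 h2 => ?_
    rcases hij with hij | hij
    · exact hij (h1.2.1.symm.trans h2.2.1)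
    · exact hij (h1.2.2.symm.trans h2.2.2)
  rw [← measure_union (dj _ _ _ _ (by simp)) (hGm.inter (mE _ _ _ _)),
    ← measure_union (dj _ _ _ _ (by simp)) (hGm.inter (mE _ _ _ _)),
    ← measure_union ?_ ((hGm.inter (mE _ _ _ _)).union (hGm.inter (mE _ _ _ _)))]
  · refine measure_mono ?_
    rintro c ((h | h) | (h | h)) <;> exact h.1
  · simp only [Set.disjoint_union_left, Set.disjoint_union_right]
    exact ⟨⟨dj _ _ _ _ (by simp), dj _ _ _ _ (by simp)⟩, dj _ _ _ _ (by simp), dj _ _ _ _ (by simp)⟩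

lemma claim (ν : Measure (V → St)) (L : ℕ) (hν : ∀ i, ∀ᵐ x ∂(it i ν), NoB L x) :
    ∀ (m : ℕ) (a : ℤ) (l : ℕ), -(L : ℤ) ≤ a - 1 → a + l + 2 * m ≤ L →
      ENNReal.ofReal (h m l) * ν Set.univ ≤ it m ν (D a l) := by
  intro m
  induction m with
  | zero =>
    intro a l _ _
    cases l with
    | zero =>
      have : D a 0 = Set.univ := Set.eq_univ_of_forall fun x z h1 h2 => by push_cast at h2; omega
      simp [this, h_zero, it_univ]
    | succ l => simp [h]
  | succ m ih =>
    intro a l h1 h2
    cases l with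
    | zero =>
      have : D a 0 = Set.univ := Set.eq_univ_of_forall fun x z h1 h2 => by push_cast at h2; omega
      simp [this, h_zero, it_univ]
    | succ l =>
      push_cast at h2
      have i1 := ih (a + 2) l (by omega) (by omega)
      have i2 := ih (a + 2) (l + 1) (by omega) (by push_cast; omega)
      have i3 := ih (a + 1) (l + 1) (by omega) (by push_cast; omega)
      have i4 := ih (a + 1) (l + 2) (by omega) (by push_cast; omega)
      rw [it_succ _ _ (mDD _ _)]
      have h3 : ∀ᵐ x ∂(it m ν), 4⁻¹ * ((D (a + 2) l).indicator 1 x + (D (a + 2) (l + 1)).indicator 1 x +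
          ((D (a + 1) (l + 1)).indicator 1 x + (D (a + 1) (l + 2)).indicator 1 x)) ≤
          coins (step x ⁻¹' D a (l + 1)) := by
        filter_upwards [hν m] with x hx
        exact one_step a l x fun w w1 w2 => hx w (by rw [abs_le]; omega)
      refine le_trans ?_ (lintegral_mono_ae h3)
      have mi : ∀ a l, Measurable ((D a l).indicator (1 : (V → St) → ℝ≥0∞)) := fun a l =>
        measurable_one.indicator (mDD a l)
      rw [lintegral_const_mul' _ _ (by simp),
        lintegral_add_left ((mi _ _).fun_add (mi _ _)), lintegral_add_left (mi _ _),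
        lintegral_add_left (mi _ _), lintegral_indicator_one (mDD _ _), lintegral_indicator_one (mDD _ _),
        lintegral_indicator_one (mDD _ _), lintegral_indicator_one (mDD _ _)]
      refine le_trans (le_of_eq ?_) (mul_le_mul_right (add_le_add (add_le_add i1 i2) (add_le_add i3 i4)) _)
      have p1 := (h_mem m l).1
      have p2 := (h_mem m (l + 1)).1
      have p3 := (h_mem m (l + 2)).1
      rw [h, ENNReal.ofReal_div_of_pos (by norm_num), ENNReal.ofReal_add (by positivity) (by positivity),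
        ENNReal.ofReal_add p1 p2, ENNReal.ofReal_add p2 p3, ENNReal.ofReal_ofNat, div_eq_mul_inv]
      ring

def o : St := (false, false, false)

def W (M : ℕ) : Set (V → St) := {x | ∀ z : ℤ, |z| ≤ M → x (e z) = o}

lemma mW (M : ℕ) : MeasurableSet (W M) :=
  measurableSet_setOf.2 (Measurable.forall fun z => measurable_const.imp
    ((Measurable.of_discrete (f := fun s : St => s = o)).comp (measurable_pi_apply (e z))))

lemma eq_o {x : V → St} {z : ℤ} (h1 : ¬ B x z) (h2 : ¬ Kl x z) (h3 : ¬ Dr x z) : x (e z) = o := by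
  simp only [B, Kl, Dr, Bool.not_eq_true] at h1 h2 h3
  exact Prod.ext h1 (Prod.ext h2 h3)

lemma lower (μ : Measure (V → St)) (M m : ℕ) : ∀ᶠ n in atTop,
    ENNReal.ofReal (h m (2 * M + 1)) * μ {x | AR m x} ≤ it n μ (W M) := by
  set L := M + 2 * m + 1 with hL
  filter_upwards [eventually_ge_atTop (m + 1 + (m + L + 3 + 1))] with n hn
  obtain ⟨j, rfl⟩ : ∃ j, n = m + (m + L + 3 + j + 1) + 1 := ⟨n - (m + 1 + (m + L + 3 + 1)), by omega⟩
  set ν := it (m + L + 3 + j + 1) (μ.restrict {x | AR m x}) with hν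
  have h1 : ∀ i, ∀ᵐ x ∂(it i ν), NoB L x := by
    intro i
    rw [hν, ← it_add, ← add_assoc]
    filter_upwards [ae_J μ m (i + (m + L + 3 + j))] with x hx
    exact NoB_of_J (by omega) hx
  have h2 := claim ν L h1 m (-M) (2 * M + 1) (by omega) (by push_cast; omega)
  rw [hν, it_univ, Measure.restrict_apply_univ, ← it_add] at h2
  refine h2.trans (le_trans ?_ (it_mono _ (Measure.restrict_le_self (s := {x | AR m x})) (W M)))
  rw [it_succ _ _ (mW M), ← lintegral_indicator_one (mDD _ _)]
  refine lintegral_mono_ae ?_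
  have h3 := h1 m
  rw [hν, ← it_add] at h3
  filter_upwards [h3] with x hx
  by_cases hD : x ∈ D (-M) (2 * M + 1)
  · have : step x ⁻¹' W M = Set.univ := by
      refine Set.eq_univ_of_forall fun c z hz => ?_
      rw [abs_le] at hz
      have hp : ¬ pres x z := hD z (by omega) (by push_cast; omega)
      refine eq_o (fun hb => hx (z - 1) (by rw [abs_le]; omega) ((B_step x c z).1 hb).1) ?_ ?_
      · rwa [Kl_step]
      · rw [Dr_step]; exact fun h => hp h.1
    rw [this, Set.indicator_of_mem hD]; simp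
  · rw [Set.indicator_of_notMem hD]; exact zero_le

lemma W_tendsto (μ : Measure (V → St)) [IsProbabilityMeasure μ] (M : ℕ) :
    Tendsto (fun n => it n μ (W M)) atTop (𝓝 1) := by
  have h1 : Tendsto (fun m => μ {x | AR m x}) atTop (𝓝 1) := by
    have := tendsto_measure_iUnion_atTop (μ := μ) (s := fun m => {x | AR m x}) (by
      intro a b hab x hx
      rcases hx with hx | ⟨z, h1, h2⟩
      · exact Or.inl hx
      · exact Or.inr ⟨z, h1.trans (by exact_mod_cast hab), h2⟩)
    have h2 : ⋃ m, {x | AR m x} = Set.univ := by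
      refine Set.eq_univ_of_forall fun x => Set.mem_iUnion.2 ?_
      by_cases hZ : Z x
      · exact ⟨0, Or.inl hZ⟩
      · obtain ⟨z, hz⟩ := not_forall.1 hZ
        exact ⟨z.natAbs, Or.inr ⟨z, by simp, by tauto⟩⟩
    rwa [h2, measure_univ] at this
  have h2 := ENNReal.Tendsto.mul (ENNReal.tendsto_ofReal (h_tendsto (2 * M + 1))) (by simp) h1 (by simp)
  simp only [ENNReal.ofReal_one, mul_one] at h2
  refine tendsto_order.2 ⟨fun r hr => ?_, fun r hr => Eventually.of_forall fun n => ?_⟩
  · obtain ⟨m, hm⟩ := (h2.eventually (lt_mem_nhds hr)).exists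
    filter_upwards [lower μ M m] with n hn using hm.trans_le hn
  · refine lt_of_le_of_lt ?_ hr
    exact (measure_mono (Set.subset_univ _)).trans (by rw [it_univ, measure_univ])

lemma m_cyl (S : Finset V) (a : V → St) : MeasurableSet {x : V → St | ∀ k ∈ S, x k = a k} :=
  measurableSet_setOf.2 (Measurable.forall fun k => measurable_const.imp
    ((Measurable.of_discrete (f := fun s : St => s = a k)).comp (measurable_pi_apply k)))

lemma ergodic (μ : Measure (V → St)) [IsProbabilityMeasure μ] (S : Finset V) (a : V → St) :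
    Tendsto (fun n => it n μ {x | ∀ k ∈ S, x k = a k}) atTop
      (𝓝 (Measure.dirac (fun _ : V => o) {x | ∀ k ∈ S, x k = a k})) := by
  set M := S.sup fun k => (k 0).natAbs with hM
  have hW : ∀ x ∈ W M, ∀ k ∈ S, x k = o := by
    intro x hx k hk
    rw [e_surj k]
    refine hx _ ?_
    have : (k 0).natAbs ≤ M := Finset.le_sup (f := fun k : V => (k 0).natAbs) hk
    rw [← Int.natCast_natAbs]; exact_mod_cast this
  have hle : ∀ n T, it n μ T ≤ 1 := fun n T =>
    (measure_mono (Set.subset_univ _)).trans (by rw [it_univ, measure_univ])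
  rw [Measure.dirac_apply' _ (m_cyl S a)]
  by_cases ha : ∀ k ∈ S, o = a k
  · rw [Set.indicator_of_mem (by exact ha)]
    refine tendsto_of_tendsto_of_tendsto_of_le_of_le (W_tendsto μ M) tendsto_const_nhds
      (fun n => measure_mono fun x hx k hk => (hW x hx k hk).trans (ha k hk)) fun n => hle n _
  · rw [Set.indicator_of_notMem (by exact ha)]
    have h1 := ENNReal.Tendsto.sub (tendsto_const_nhds (x := (1 : ℝ≥0∞))) (W_tendsto μ M) (by simp)
    simp only [tsub_self] at h1
    refine tendsto_of_tendsto_of_tendsto_of_le_of_le tendsto_const_nhds h1 (fun n => zero_le) fun n => ?_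
    have : IsProbabilityMeasure (it n μ) := ⟨by rw [it_univ, measure_univ]⟩
    simp only
    rw [← prob_compl_eq_one_sub (mW M)]
    exact measure_mono fun x hx hw => ha fun k hk => (hW x hw k hk).symm.trans (hx k hk)

def Lone (p : ℤ) (x : V → St) : Prop := B x p ∧ (∀ w, p ≤ w → ¬ Kl x w) ∧ ∀ w, p < w → ¬ B x w

lemma mL (p : ℤ) : Measurable (Lone p) :=
  (mB p).and ((Measurable.forall fun w => measurable_const.imp (mK w).not).and
    (Measurable.forall fun w => measurable_const.imp (mB w).not))

lemma Lone_step (p : ℤ) (x : V → St) (c : V → Bool) (h : Lone p x) : Lone (p + 1) (step x c) := by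
  obtain ⟨h1, h2, h3⟩ := h
  refine ⟨?_, fun w hw => ?_, fun w hw hb => h3 (w - 1) (by omega) ((B_step x c w).1 hb).1⟩
  · rw [B_step, add_sub_cancel_right]
    exact ⟨h1, h2 _ le_rfl, h2 _ (by omega), h2 _ (by omega)⟩
  · rw [Kl_step]
    rintro (h | h | h)
    exacts [h2 _ (by omega) h.1, h2 _ (by omega) h.1, h3 _ (by omega) h]

def single (p : ℤ) : V → St := fun w => (decide (w 0 = p), false, false)

lemma ae_Lone (p : ℤ) (n : ℕ) : ∀ᵐ x ∂(it n (Measure.dirac (single p))), Lone (p + n) x := by
  induction n with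
  | zero =>
    show ∀ᵐ x ∂(Measure.dirac (single p)), Lone (p + (0 : ℕ)) x
    rw [ae_dirac_iff (measurableSet_setOf.2 (mL _))]
    refine ⟨by simp [B, single, e], by simp [Kl, single], fun w hw => ?_⟩
    intro h
    have h' : w = p := of_decide_eq_true h
    simp at hw
    omega
  | succ n ih =>
    refine it_ae (measurableSet_setOf.2 (mL _)) (fun x c hx => ?_) ih
    have := Lone_step _ x c hx
    push_cast; rwa [← add_assoc]

/-- The negation of the preceding statement: For every PCA on A^(ℤ^d) with a finite alphabet and a finite neighbourhood: if all initial laws converge on cylinders to one limit π, then for each cylinder this convergence is uniform over all initial laws. -/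
theorem result :
    ¬ (∀ (d : ℕ) (A : Type) [Fintype A] [MeasurableSpace A] [DiscreteMeasurableSpace A]
    (N : Finset (Fin d → ℤ)) (f : (↥N → A) → ProbabilityMeasure A)
    (κ : Kernel ((Fin d → ℤ) → A) ((Fin d → ℤ) → A)),
    (∀ x : (Fin d → ℤ) → A,
      κ x = Measure.infinitePi
        (fun k : Fin d → ℤ => ((f (fun v : ↥N => x (k + (v : Fin d → ℤ)))) : Measure A))) →
    (∃ π : Measure ((Fin d → ℤ) → A), IsProbabilityMeasure π ∧
      ∀ μ : Measure ((Fin d → ℤ) → A), IsProbabilityMeasure μ →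
        ∀ (S : Finset (Fin d → ℤ)) (a : (Fin d → ℤ) → A),
          Tendsto (fun n : ℕ => ((fun ν : Measure ((Fin d → ℤ) → A) => ν.bind (⇑κ))^[n] μ)
              {x | ∀ k ∈ S, x k = a k})
            atTop (𝓝 (π {x | ∀ k ∈ S, x k = a k}))) →
    (∃ π : Measure ((Fin d → ℤ) → A), IsProbabilityMeasure π ∧
      ∀ (S : Finset (Fin d → ℤ)) (a : (Fin d → ℤ) → A), ∀ ε : ℝ, 0 < ε →
        ∃ n0 : ℕ, ∀ n : ℕ, n0 ≤ n →
          ∀ μ : Measure ((Fin d → ℤ) → A), IsProbabilityMeasure μ →
            |(((fun ν : Measure ((Fin d → ℤ) → A) => ν.bind (⇑κ))^[n] μ)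
                {x | ∀ k ∈ S, x k = a k}).toReal
              - (π {x | ∀ k ∈ S, x k = a k}).toReal| < ε)) := by
  intro H
  obtain ⟨π, hπ, h1⟩ := H 1 St NN f κ κ_eq
    ⟨Measure.dirac fun _ => o, inferInstance, fun μ hμ S a => ergodic μ S a⟩
  obtain ⟨n0, h2⟩ := h1 {e 0} (fun _ => o) (1 / 2) (by norm_num)
  have h3 : ∀ᶠ n : ℕ in atTop, (1 / 2 : ℝ) < (π {x | ∀ k ∈ ({e 0} : Finset V), x k = o}).toReal := by
    have a3 : ∀ᶠ n : ℕ in atTop,
        (it n (Measure.dirac fun _ : V => o) {x | ∀ k ∈ ({e 0} : Finset V), x k = o}).toReal <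
        (π {x | ∀ k ∈ ({e 0} : Finset V), x k = o}).toReal + 1 / 2 := by
      filter_upwards [eventually_ge_atTop n0] with n hn
      have := (abs_lt.1 (h2 n hn (Measure.dirac fun _ => o) inferInstance)).2
      unfold it
      linarith
    have a4 : ∀ n, (it n (Measure.dirac fun _ => o) {x | ∀ k ∈ ({e 0} : Finset V), x k = o}) = 1 ∨ n = 0 := by
      intro n
      cases n with
      | zero => exact Or.inr rfl
      | succ n =>
        left
        have : IsProbabilityMeasure (it (n + 1) (Measure.dirac fun _ : V => o)) :=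
          ⟨by rw [it_univ, measure_univ]⟩
        rw [← mem_ae_iff_prob_eq_one (m_cyl _ fun _ => o)]
        have b1 : ∀ n, ∀ᵐ x ∂(it n (Measure.dirac fun _ : V => o)), Z x := by
          intro n
          induction n with
          | zero =>
            show ∀ᵐ x ∂(Measure.dirac fun _ : V => o), Z x
            rw [ae_dirac_iff (measurableSet_setOf.2 mZ)]
            intro z; simp [B, Kl, o]
          | succ n ih => exact it_ae (measurableSet_setOf.2 mZ) Z_step ih
        refine it_ae (Q := fun x => ∀ k ∈ ({e 0} : Finset V), x k = o) (m_cyl _ fun _ => o)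
          (fun x c hx k hk => ?_) (b1 n)
        rw [Finset.mem_singleton.1 hk]
        have b2 := Z_step x c hx 0
        refine eq_o b2.1 b2.2 fun hd => b2.2 ?_
        rw [Kl_step]; exact ((Dr_step x c 0).1 hd).1
    filter_upwards [a3, eventually_gt_atTop 0] with n hn hn0
    rcases a4 n with h | h
    · rw [h] at hn; simp only [ENNReal.toReal_one] at hn; linarith
    · omega
  obtain ⟨_, h4⟩ := h3.exists
  have h5 := (abs_lt.1 (h2 n0 le_rfl (Measure.dirac (single (-n0))) inferInstance)).1
  have h6 : it n0 (Measure.dirac (single (-n0))) {x | ∀ k ∈ ({e 0} : Finset V), x k = o} = 0 := by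
    refine measure_eq_zero_iff_ae_notMem.2 ?_
    filter_upwards [ae_Lone (-n0) n0] with x hx hx'
    have b1 := hx.1
    rw [neg_add_cancel, B, hx' (e 0) (Finset.mem_singleton_self _)] at b1
    simp [o] at b1
  unfold it at h6
  rw [h6] at h5
  simp only [ENNReal.toReal_zero] at h5
  linarith

end Pool.Agent.S19358
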