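import Pool.Statements.S19360
import Pool.Agent.Lib.helper1.CvxP

set_option autoImplicit false
open MeasureTheory ProbabilityTheory
open Pool Pool.MP_63bd8a_pr

namespace Pool.Agent.S19360

/-- The negation of the preceding statement: For each C>0 there is c>0 such that, in every dimension, if a probability measure has variance of convex Lipschitz g at most C times the mean squared local slope, then convex 1-Lipschitz f satisfies P(f ≤ median − t) ≤ 2exp(−ct). -/
theorem result :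
    ¬ (∀ C : ℝ, 0 < C → ∃ c : ℝ, 0 < c ∧
    ∀ (n : ℕ) (μ : Measure (EuclideanSpace ℝ (Fin n))), IsProbabilityMeasure μ →
      (∀ (g : EuclideanSpace ℝ (Fin n) → ℝ) (L : NNReal),
          ConvexOn ℝ Set.univ g → LipschitzWith L g →
          evariance g μ ≤ ENNReal.ofReal C *
            ∫⁻ x, (Filter.limsup (fun y => ENNReal.ofReal (|g y - g x| / dist y x))
                    (nhdsWithin x {x}ᶜ)) ^ 2 ∂μ) →
      ∀ f : EuclideanSpace ℝ (Fin n) → ℝ, ConvexOn ℝ Set.univ f → LipschitzWith 1 f →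
        ∀ m : ℝ, (1 / 2 : ENNReal) ≤ μ {x | f x ≤ m} → (1 / 2 : ENNReal) ≤ μ {x | m ≤ f x} →
          ∀ t : ℝ, 0 < t → μ {x | f x ≤ m - t} ≤ ENNReal.ofReal (2 * Real.exp (-(c * t)))) := by
  open Pool.Agent.Lib.helper1.CvxP Filter in
  intro H
  obtain ⟨c, hc, H⟩ := H 3 three_pos
  obtain ⟨k, h1, h2⟩ : ∃ k : ℕ, 1 ≤ k ∧ (k : ℝ) ^ (2 : ℝ) * Real.exp (-c * k) < 1 / 4 :=
    ((eventually_ge_atTop 1).and (((tendsto_rpow_mul_exp_neg_mul_atTop_nhds_zero 2 c hc).comp
      tendsto_natCast_atTop_atTop).eventually (gt_mem_nhds (by norm_num)))).exists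
  have k1 : (1 : ℝ) ≤ k := by exact_mod_cast h1
  obtain ⟨a, ha⟩ : ∃ a : NNReal, (a : ℝ) = 1 / (2 * k ^ 2) := ⟨⟨_, by positivity⟩, rfl⟩
  have a1 : (a : ℝ) ≤ 1 / 2 := by
    rw [ha]; exact one_div_le_one_div_of_le two_pos (by nlinarith)
  obtain ⟨b, hb⟩ : ∃ b : NNReal, 2 ^ (k ^ 2) * (b : ℝ) = 1 - a :=
    ⟨⟨(1 - a) / 2 ^ (k ^ 2), div_nonneg (by linarith) (by positivity)⟩,
      mul_div_cancel₀ _ (by positivity)⟩
  have e : ∀ r : ℝ, ENNReal.ofReal r ≤ ∑ _s : Fin (k ^ 2) → Bool, (b : ENNReal) ↔ r ≤ 1 - a :=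
    fun r => by
      rw [← ENNReal.ofReal_coe_nnreal, ← ENNReal.ofReal_sum_of_nonneg fun _ _ => b.coe_nonneg,
        ENNReal.ofReal_le_ofReal_iff (by positivity), ← hb]
      simp
  have n : ∀ s : Fin (k ^ 2) → Bool, ‖pt s‖ = k := fun s => by simp [pt_norm]
  have t : (1 / 2 : ENNReal) ≤ ∑ _s : Fin (k ^ 2) → Bool, (b : ENNReal) := by
    simpa [ENNReal.ofReal_div_of_pos] using (e (1 / 2)).2 (by linarith)
  have := H _ (mu (k ^ 2) a b) ⟨?_⟩ (fun g L hg => poinc (eq_sub_iff_add_eq'.1 hb) ?_ hg (L := L)) norm convexOn_univ_norm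
    lipschitzWith_one_norm k (t.trans ?_) (t.trans ?_) k (by linarith)
  · rw [mu_s, Set.indicator_of_mem (by simp), Pi.one_apply, mul_one] at this
    have := le_self_add.trans this
    rw [← ENNReal.ofReal_coe_nnreal, ENNReal.ofReal_le_ofReal_iff (by positivity), ha,
      div_le_iff₀ (by positivity)] at this
    rw [Real.rpow_two, neg_mul] at h2
    linarith
  · rw [mu_s]
    simp only [Set.indicator_univ, Pi.one_apply, mul_one, ← ENNReal.ofNNReal_finsetSum, ← ENNReal.coe_add]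
    rw [ENNReal.coe_eq_one, ← NNReal.coe_eq_one]
    simp; linarith
  · have : (a : ℝ) * (k ^ 2 : ℕ) = 1 / 2 := by rw [ha]; push_cast; field_simp
    linarith
  all_goals
    rw [mu_s]
    refine le_add_left (Finset.sum_le_sum fun s _ => ?_)
    rw [Set.indicator_of_mem (by simp [n])]; simp

end Pool.Agent.S19360
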