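import Pool.Statements.S19361
-- import your own Pool.Agent.* helpers here
import Pool.Agent.Lib.helper24.Reimer

set_option autoImplicit false
open MeasureTheory
open Pool Pool.MP_63e314_pr

namespace Pool.Agent.S19361

open Pool.Agent.Lib.helper24.Reimer

/-- The product measure. -/
noncomputable abbrev mu : Measure (ℕ → unitInterval) :=
  Measure.infinitePi (fun _ : ℕ => (volume : Measure unitInterval))

/-- Index of the cell of width `1 / 2 ^ m` containing `t`. -/
noncomputable def cell (m : ℕ) (t : unitInterval) : Fin (2 ^ m) :=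
  ⟨min ⌊(2 : ℝ) ^ m * t⌋₊ (2 ^ m - 1), lt_of_le_of_lt (min_le_right _ _)
    (Nat.sub_lt (Nat.two_pow_pos m) one_pos)⟩

theorem cell_bd (m : ℕ) (t : unitInterval) :
    ((cell m t : ℕ) : ℝ) ≤ 2 ^ m * t ∧ 2 ^ m * (t : ℝ) ≤ (cell m t : ℕ) + 1 := by
  have hp : (0 : ℝ) < 2 ^ m := by positivity
  have h0 : (0 : ℝ) ≤ 2 ^ m * t := mul_nonneg hp.le t.2.1
  have h1 := Nat.floor_le h0
  have h2 := Nat.lt_floor_add_one ((2 : ℝ) ^ m * t)
  have h3 : (2 : ℝ) ^ m * t ≤ 2 ^ m := mul_le_of_le_one_right hp.le t.2.2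
  have h4 : (((2 ^ m - 1 : ℕ) : ℕ) : ℝ) = 2 ^ m - 1 := by
    rw [Nat.cast_sub (Nat.one_le_two_pow)]; simp
  unfold cell
  simp only [Nat.cast_min, h4]
  constructor
  · exact (min_le_left _ _).trans h1
  · rcases le_total ((⌊(2 : ℝ) ^ m * t⌋₊ : ℕ) : ℝ) (2 ^ m - 1) with h | h
    · rw [min_eq_left h]; linarith
    · rw [min_eq_right h]; linarith

theorem cell_eq (m : ℕ) (t : unitInterval) (k : Fin (2 ^ m)) (h1 : ((k : ℕ) : ℝ) ≤ 2 ^ m * t)
    (h2 : 2 ^ m * (t : ℝ) < (k : ℕ) + 1) : cell m t = k := by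
  apply Fin.ext
  have h : ⌊(2 : ℝ) ^ m * t⌋₊ = k :=
    (Nat.floor_eq_iff (mul_nonneg (by positivity) t.2.1)).2 ⟨h1, h2⟩
  have := k.2
  simp only [cell, h]
  omega

theorem cell_meas (m : ℕ) (k : Fin (2 ^ m)) : MeasurableSet {t | cell m t = k} := by
  have h : Measurable fun t : unitInterval => min ⌊(2 : ℝ) ^ m * t⌋₊ (2 ^ m - 1) :=
    (measurable_of_countable fun n : ℕ => min n (2 ^ m - 1)).comp
      (Nat.measurable_floor.comp (measurable_const.mul measurable_subtype_coe))
  have e : {t | cell m t = k} =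
      (fun t : unitInterval => min ⌊(2 : ℝ) ^ m * t⌋₊ (2 ^ m - 1)) ⁻¹' {(k : ℕ)} := by
    ext t
    simp [cell, Fin.ext_iff]
  rw [e]
  exact h (measurableSet_singleton _)

theorem cell_vol (m : ℕ) (k : Fin (2 ^ m)) :
    volume {t | cell m t = k} = ENNReal.ofReal (1 / 2 ^ m) := by
  have hp : (0 : ℝ) < 2 ^ m := by positivity
  have hk : ((k : ℕ) : ℝ) + 1 ≤ 2 ^ m := by exact_mod_cast k.2
  have hk0 : (0 : ℝ) ≤ (k : ℕ) := Nat.cast_nonneg _
  let a : unitInterval := ⟨(k : ℕ) / 2 ^ m, by positivity, by rw [div_le_one hp]; linarith⟩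
  let b : unitInterval := ⟨((k : ℕ) + 1) / 2 ^ m, by positivity, by rw [div_le_one hp]; linarith⟩
  have hab : (b : ℝ) - a = 1 / 2 ^ m := by simp only [a, b]; ring
  apply le_antisymm
  · rw [← hab, ← unitInterval.volume_Icc]
    apply measure_mono
    intro t ht
    have := cell_bd m t
    rw [show cell m t = k from ht] at this
    constructor
    · change ((k : ℕ) : ℝ) / 2 ^ m ≤ t
      rw [div_le_iff₀ hp]; linarith [this.1]
    · change (t : ℝ) ≤ (((k : ℕ) : ℝ) + 1) / 2 ^ m
      rw [le_div_iff₀ hp]; linarith [this.2]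
  · rw [← hab, ← unitInterval.volume_Ico]
    apply measure_mono
    rintro t ⟨h1, h2⟩
    change ((k : ℕ) : ℝ) / 2 ^ m ≤ t at h1
    change (t : ℝ) < (((k : ℕ) : ℝ) + 1) / 2 ^ m at h2
    rw [div_le_iff₀ hp] at h1
    rw [lt_div_iff₀ hp] at h2
    exact cell_eq m t k (by linarith) (by linarith)

/-- A coding of cells by bit strings. -/
noncomputable def code (m : ℕ) : Fin (2 ^ m) ≃ (Fin m → Bool) :=
  Fintype.equivOfCardEq (by simp)

/-- The discretisation map. -/
noncomputable def pr (m : ℕ) (ω : ℕ → unitInterval) : Fin m × Fin m → Bool :=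
  fun p => code m (cell m (ω p.1)) p.2

theorem fiber_eq (m : ℕ) (x : Fin m × Fin m → Bool) : pr m ⁻¹' {x} =
    Set.pi (Finset.range m : Finset ℕ) fun i => {t | ∀ h : i < m,
      cell m t = (code m).symm fun j => x (⟨i, h⟩, j)} := by
  ext ω
  simp only [Set.mem_preimage, Set.mem_singleton_iff, Set.mem_pi, Finset.coe_range, Set.mem_Iio,
    Set.mem_ofPred_eq]
  constructor
  · rintro rfl i _ h
    simp [pr]
  · intro h
    funext p
    simp only [pr, h p.1 p.1.2 p.1.2, Equiv.apply_symm_apply]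

theorem fiber_set (m : ℕ) (x : Fin m × Fin m → Bool) (i : ℕ) (hi : i ∈ Finset.range m) :
    {t | ∀ h : i < m, cell m t = (code m).symm fun j => x (⟨i, h⟩, j)} =
      {t | cell m t = (code m).symm fun j => x (⟨i, Finset.mem_range.1 hi⟩, j)} := by
  ext t
  exact ⟨fun h => h _, fun h _ => h⟩

theorem fiber_meas (m : ℕ) (x : Fin m × Fin m → Bool) : MeasurableSet (pr m ⁻¹' {x}) := by
  rw [fiber_eq]
  refine MeasurableSet.pi (Finset.countable_toSet _) fun i hi => ?_
  rw [fiber_set m x i hi]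
  exact cell_meas _ _

theorem fiber_vol (m : ℕ) (x : Fin m × Fin m → Bool) :
    mu (pr m ⁻¹' {x}) = (Fintype.card (Fin m × Fin m → Bool) : ENNReal)⁻¹ := by
  rw [fiber_eq, Measure.infinitePi_pi _ (fun i hi => by rw [fiber_set m x i hi]; exact cell_meas _ _),
    Finset.prod_congr rfl (fun i hi => by rw [fiber_set m x i hi, cell_vol]), Finset.prod_const,
    Finset.card_range]
  rw [one_div, ENNReal.ofReal_inv_of_pos (by positivity), ENNReal.ofReal_pow (by norm_num),
    ← ENNReal.inv_pow, ← pow_mul]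
  simp

theorem pre_vol (m : ℕ) (E : Finset (Fin m × Fin m → Bool)) :
    mu (pr m ⁻¹' (E : Set (Fin m × Fin m → Bool))) =
      E.card * (Fintype.card (Fin m × Fin m → Bool) : ENNReal)⁻¹ := by
  rw [← sum_measure_preimage_singleton E (fun x _ => fiber_meas m x)]
  simp only [fiber_vol, Finset.sum_const, nsmul_eq_mul]

theorem approx (U : Set (ℕ → unitInterval)) (hU : IsOpen U) (J : Set ℕ) (ω : ℕ → unitInterval)
    (h : ∀ η : ℕ → unitInterval, (∀ i ∈ J, η i = ω i) → η ∈ U) :
    ∃ N, ∀ m, N ≤ m → ∀ η : ℕ → unitInterval,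
      (∀ i ∈ J, i < m → cell m (η i) = cell m (ω i)) → η ∈ U := by
  let F : ℕ → Set (ℕ → unitInterval) := fun m =>
    {η | ∀ i ∈ J, i < m → |(η i : ℝ) - ω i| ≤ 1 / 2 ^ m}
  have hanti : Antitone F := by
    intro a b hab η hη i hi hlt
    refine (hη i hi (by omega)).trans ?_
    exact one_div_le_one_div_of_le (by positivity) (pow_le_pow_right₀ (by norm_num) hab)
  have hcl : ∀ m, IsClosed (F m) := by
    intro m
    have : F m = ⋂ i ∈ J, ⋂ _ : i < m, {η | |(η i : ℝ) - ω i| ≤ 1 / 2 ^ m} := by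
      ext η; simp [F]
    rw [this]
    refine isClosed_biInter fun i _ => isClosed_iInter fun _ => isClosed_le ?_ continuous_const
    fun_prop
  obtain ⟨N, hN⟩ := exists_subset_nhds_of_compactSpace (V := F) hanti.directed_ge hcl (U := U) (by
    intro η hη
    refine hU.mem_nhds (h η fun i hi => Subtype.ext ?_)
    rw [← sub_eq_zero, ← abs_nonpos_iff]
    have ht : Filter.Tendsto (fun m : ℕ => (1 : ℝ) / 2 ^ m) Filter.atTop (nhds 0) := by
      simpa using tendsto_pow_atTop_nhds_zero_of_lt_one (r := (1 / 2 : ℝ)) (by norm_num) (by norm_num)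
    refine ge_of_tendsto ht ?_
    filter_upwards [Filter.eventually_gt_atTop i] with m hm
    exact Set.mem_iInter.1 hη m i hi hm)
  refine ⟨N, fun m hm η hη => hN (hanti hm ?_)⟩
  intro i hi hlt
  have h1 := cell_bd m (η i)
  have h2 := cell_bd m (ω i)
  rw [hη i hi hlt] at h1
  have hp : (0 : ℝ) < 2 ^ m := by positivity
  rw [le_div_iff₀ hp, ← abs_of_pos hp, ← abs_mul, abs_le]
  constructor <;> nlinarith [h1.1, h1.2, h2.1, h2.2]

open Classical in
theorem open_case (U V : Set (ℕ → unitInterval)) (hU : IsOpen U) (hV : IsOpen V) :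
    mu {ω : ℕ → unitInterval | ∃ J K : Set ℕ, Disjoint J K ∧
      (∀ η : ℕ → unitInterval, (∀ i ∈ J, η i = ω i) → η ∈ U) ∧
      (∀ η : ℕ → unitInterval, (∀ i ∈ K, η i = ω i) → η ∈ V)} ≤ mu U * mu V := by
  let A : ∀ m, Finset (Fin m × Fin m → Bool) := fun m =>
    Finset.univ.filter fun x => ∀ η, pr m η = x → η ∈ U
  let B : ∀ m, Finset (Fin m × Fin m → Bool) := fun m =>
    Finset.univ.filter fun x => ∀ η, pr m η = x → η ∈ V
  let T : ∀ m, Finset (Fin m × Fin m → Bool) := fun m =>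
    Finset.univ.filter fun x => ∃ S : Fin m × Fin m → Bool,
      (∀ z : Fin m × Fin m → Bool, (∀ i, S i = true → z i = x i) → z ∈ A m) ∧
      (∀ z : Fin m × Fin m → Bool, (∀ i, S i = false → z i = x i) → z ∈ B m)
  have hT : ∀ m, mu (pr m ⁻¹' (T m : Set (Fin m × Fin m → Bool))) ≤ mu U * mu V := by
    intro m
    have h1 := reimer (T m) (A m) (B m) fun x hx => (Finset.mem_filter.1 hx).2
    have h2 : mu (pr m ⁻¹' (A m : Set (Fin m × Fin m → Bool))) ≤ mu U :=
      measure_mono fun η hη => (Finset.mem_filter.1 hη).2 η rfl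
    have h3 : mu (pr m ⁻¹' (B m : Set (Fin m × Fin m → Bool))) ≤ mu V :=
      measure_mono fun η hη => (Finset.mem_filter.1 hη).2 η rfl
    refine le_trans ?_ (mul_le_mul' h2 h3)
    rw [pre_vol, pre_vol, pre_vol]
    have h4 : ((T m).card : ENNReal) * Fintype.card (Fin m × Fin m → Bool) ≤
        (A m).card * (B m).card := by exact_mod_cast h1
    have h0 : (Fintype.card (Fin m × Fin m → Bool) : ENNReal) ≠ 0 := by simp
    have ht : (Fintype.card (Fin m × Fin m → Bool) : ENNReal) ≠ ⊤ := ENNReal.natCast_ne_top _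
    generalize (Fintype.card (Fin m × Fin m → Bool) : ENNReal) = c at *
    calc ((T m).card : ENNReal) * c⁻¹ = ((T m).card * c) * (c⁻¹ * c⁻¹) := by
          rw [mul_assoc, ← mul_assoc c, ENNReal.mul_inv_cancel h0 ht, one_mul]
      _ ≤ ((A m).card * (B m).card) * (c⁻¹ * c⁻¹) := mul_le_mul_left h4 _
      _ = _ := by ring
  let G : ℕ → Set (ℕ → unitInterval) := fun N =>
    {ω | ∀ m, N ≤ m → ω ∈ pr m ⁻¹' (T m : Set (Fin m × Fin m → Bool))}
  have hmono : Monotone G := fun a b hab ω hω m hm => hω m (hab.trans hm)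
  refine le_trans (measure_mono (t := ⋃ N, G N) ?_) ?_
  · rintro ω ⟨J, K, hJK, h1, h2⟩
    obtain ⟨N1, hN1⟩ := approx U hU J ω h1
    obtain ⟨N2, hN2⟩ := approx V hV K ω h2
    refine Set.mem_iUnion.2 ⟨max N1 N2, fun m hm => ?_⟩
    refine Finset.mem_filter.2 ⟨Finset.mem_univ _, fun p => decide ((p.1 : ℕ) ∈ J), ?_, ?_⟩
    · intro z hz
      refine Finset.mem_filter.2 ⟨Finset.mem_univ _, fun η hη => ?_⟩
      refine hN1 m (le_of_max_le_left hm) η fun i hi hlt => (code m).injective ?_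
      funext j
      have := hz (⟨i, hlt⟩, j) (by simpa using hi)
      rw [← hη] at this
      exact this
    · intro z hz
      refine Finset.mem_filter.2 ⟨Finset.mem_univ _, fun η hη => ?_⟩
      refine hN2 m (le_of_max_le_right hm) η fun i hi hlt => (code m).injective ?_
      funext j
      have := hz (⟨i, hlt⟩, j) (by simpa using Set.disjoint_right.1 hJK hi)
      rw [← hη] at this
      exact this
  · rw [hmono.measure_iUnion]
    exact iSup_le fun N => le_trans (measure_mono fun ω hω => hω N le_rfl) (hT N)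

/-- For Borel A, B in [0,1]^N with product Lebesgue measure m, the set of points where A and B occur on disjoint (possibly infinite) coordinate sets lies in a Borel set C with m(C) ≤ m(A)m(B). -/
theorem result :
    ∀ A B : Set (ℕ → unitInterval), MeasurableSet A → MeasurableSet B →
      ∃ C : Set (ℕ → unitInterval), MeasurableSet C ∧
        {ω : ℕ → unitInterval | ∃ J K : Set ℕ, Disjoint J K ∧
            (∀ η : ℕ → unitInterval, (∀ i ∈ J, η i = ω i) → η ∈ A) ∧
            (∀ η : ℕ → unitInterval, (∀ i ∈ K, η i = ω i) → η ∈ B)} ⊆ C ∧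
        Measure.infinitePi (fun _ : ℕ => (volume : Measure unitInterval)) C ≤
          Measure.infinitePi (fun _ : ℕ => (volume : Measure unitInterval)) A *
          Measure.infinitePi (fun _ : ℕ => (volume : Measure unitInterval)) B := by
  intro A B _ _
  refine ⟨toMeasurable mu _, measurableSet_toMeasurable _ _, subset_toMeasurable _ _, ?_⟩
  rw [measure_toMeasurable]
  refine ENNReal.le_mul_of_forall_lt (Or.inr (measure_ne_top _ _)) (Or.inl (measure_ne_top _ _)) ?_
  intro a ha b hb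
  obtain ⟨U, hAU, hU, hUa⟩ := A.exists_isOpen_lt_of_lt (μ := mu) a ha
  obtain ⟨V, hBV, hV, hVb⟩ := B.exists_isOpen_lt_of_lt (μ := mu) b hb
  refine le_trans (measure_mono ?_) ((open_case U V hU hV).trans (mul_le_mul' hUa.le hVb.le))
  rintro ω ⟨J, K, hJK, h1, h2⟩
  exact ⟨J, K, hJK, fun η hη => hAU (h1 η hη), fun η hη => hBV (h2 η hη)⟩

end Pool.Agent.S19361
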