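import Pool.Statements.S19374
import Pool.Agent.Lib.helper22.TpA

set_option autoImplicit false
open Pool Pool.MP_65c29d_pr

namespace Pool.Agent.S19374

/-- The negation of the preceding statement: Every connected locally finite transient graph (positive capacity) has a connected transient subgraph that is exactly the tangency graph of a packing of balls in 3-space with disjoint interiors. -/
theorem result :
    ¬ (∀ (V : Type) (G : SimpleGraph V),
    G.Connected → (∀ v, (G.neighborSet v).Finite) →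
    (∃ o : V, ∃ c : ℝ, 0 < c ∧ ∀ f : V → ℝ, (Function.support f).Finite → f o = 1 →
        c ≤ ∑' p : {p : V × V // G.Adj p.1 p.2}, (f p.1.1 - f p.1.2) ^ 2) →
    ∃ H : G.Subgraph, H.coe.Connected ∧
      (∃ o : H.verts, ∃ c : ℝ, 0 < c ∧ ∀ f : H.verts → ℝ, (Function.support f).Finite → f o = 1 →
        c ≤ ∑' p : {p : H.verts × H.verts // H.coe.Adj p.1 p.2}, (f p.1.1 - f p.1.2) ^ 2) ∧
      ∃ (x : H.verts → EuclideanSpace ℝ (Fin 3)) (r : H.verts → ℝ),
        (∀ v, 0 < r v) ∧
        (∀ u v, u ≠ v → r u + r v ≤ dist (x u) (x v)) ∧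
        (∀ u v, u ≠ v → (H.coe.Adj u v ↔ dist (x u) (x v) = r u + r v))) := by
  intro H
  obtain ⟨K, -, ⟨o, c, hc, ho⟩, x, r, hr, hd, hadj⟩ := H _ Pool.Agent.Lib.helper22.Tp.G
    Pool.Agent.Lib.helper22.Tp.G_conn Pool.Agent.Lib.helper22.Tp.G_lf
    ⟨⟨0, 0⟩, 1 / 2, by norm_num, Pool.Agent.Lib.helper22.Tp.G_trans⟩
  obtain ⟨f, h1, h2, h3⟩ := Pool.Agent.Lib.helper22.Tp.recur (W := K.verts) Subtype.val
    Subtype.val_injective K.coe.Adj (fun u v h => K.adj_sub h) (fun u v h => h.symm) r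
    (fun u T hT => Pool.Agent.Lib.helper22.Tp.kiss x r hr hd u T
      (fun v hv => ⟨(hadj u v (hT v hv).1.ne).mp (hT v hv).1, (hT v hv).2⟩)) o c hc
  exact absurd (ho f h1 h2) (not_le.mpr h3)

end Pool.Agent.S19374
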