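import Pool.Statements.S19386
import Pool.Agent.Lib.helper6.Coin

set_option autoImplicit false
open Pool Pool.MP_68c8f2_pr

namespace Pool.Agent.S19386

open MeasureTheory ProbabilityTheory Pool.Agent.Lib.helper6.Coin

noncomputable section

def sv (b : Bool) : ℝ := if b then 9 / 4 else 7 / 4

abbrev Om := (ℕ ⊕ ℕ) → Bool

def U : ℕ → Om → ℝ
  | 0 => fun _ => 0
  | n + 1 => fun ω => max 0 (U n ω + sv (ω (Sum.inr n)) / ((2 : ℕ) : ℝ) - 1)

def mm (b : Bool) : ℝ := if b then 4 else 1 / 4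

def cc (b : Bool) : ℝ := if b then 3 else 0

def Y : ℕ → Om → ℝ
  | 0 => fun _ => 0
  | n + 1 => fun ω => Y n ω * mm (ω (Sum.inr n)) + cc (ω (Sum.inr n))

lemma inv (n : ℕ) (ω : Om) : ∃ N : ℕ, U n ω = N / 8 ∧ (4 : ℝ) ^ N - 1 ≤ Y n ω := by
  induction n with
  | zero => exact ⟨0, by simp [U], by simp [Y]⟩
  | succ n ih =>
    obtain ⟨N, h1, h2⟩ := ih
    cases hb : ω (Sum.inr n) with
    | true =>
      refine ⟨N + 1, ?_, ?_⟩
      · simp only [U, hb, sv, h1]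
        have : (0 : ℝ) ≤ N := Nat.cast_nonneg N
        push_cast
        rw [max_eq_right (by linarith)]; ring
      · simp only [Y, hb, mm, cc, if_true, pow_succ]
        linarith
    | false =>
      cases N with
      | zero =>
        refine ⟨0, ?_, ?_⟩
        · simp only [U, hb, sv, h1]
          norm_num
        · simp only [Y, hb, mm, cc]
          norm_num at h2 ⊢
          linarith
      | succ M =>
        refine ⟨M, ?_, ?_⟩
        · simp only [U, hb, sv, h1]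
          have : (0 : ℝ) ≤ M := Nat.cast_nonneg M
          push_cast
          rw [max_eq_right (by linarith)]; ring
        · simp only [Y, hb, mm, cc, Bool.false_eq_true, if_false]
          rw [pow_succ] at h2
          linarith

lemma U_le (n : ℕ) (ω : Om) : 0 ≤ U n ω ∧ U n ω ≤ Y n ω / 24 := by
  obtain ⟨N, h1, h2⟩ := inv n ω
  have h3 : (1 : ℝ) + N * 3 ≤ (1 + 3) ^ N := one_add_mul_le_pow (by norm_num) N
  have : (0 : ℝ) ≤ N := Nat.cast_nonneg N
  norm_num at h3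
  constructor <;> linarith

def A (n : ℕ) : Finset (ℕ ⊕ ℕ) := (Finset.range n).image Sum.inr

lemma Y_dep (n : ℕ) : Dep (A n) (Y n) := by
  induction n with
  | zero => intro ω ω' _; simp [Y]
  | succ n ih =>
    intro ω ω' h
    have h1 : Y n ω = Y n ω' := ih ω ω' (fun i hi => h i (by
      simp only [A, Finset.mem_image, Finset.mem_range] at hi ⊢
      obtain ⟨a, ha, rfl⟩ := hi
      exact ⟨a, by omega, rfl⟩))
    have h2 : ω (Sum.inr n) = ω' (Sum.inr n) := h _ (by simp [A])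
    simp only [Y, h1, h2]

lemma EY (n : ℕ) : ∫ ω, Y n ω ∂mu (ℕ ⊕ ℕ) ≤ 4 / 11 := by
  induction n with
  | zero => simp [Y]; norm_num
  | succ n ih =>
    have hi := (Y_dep (n + 1)).int
    have hc := (dep_eval (ι := ℕ ⊕ ℕ) (Sum.inr n) cc).int
    have hm : Integrable (fun ω : Om => Y n ω * mm (ω (Sum.inr n))) (mu (ℕ ⊕ ℕ)) := by
      have := hi.sub hc
      refine this.congr (Filter.Eventually.of_forall fun ω => ?_)
      simp [Y]
    simp only [Y]
    rw [integral_add hm hc, (Y_dep n).mul_eval (by simp [A]) mm, int_eval]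
    simp only [mm, cc, if_true, Bool.false_eq_true, if_false]
    linarith

lemma EU (n : ℕ) : ∫⁻ ω, ENNReal.ofReal (U n ω) ∂mu (ℕ ⊕ ℕ) ≤ ENNReal.ofReal (1 / 66) := by
  have hi : Integrable (fun ω => Y n ω / 24) (mu (ℕ ⊕ ℕ)) := (Y_dep n).int.div_const 24
  calc ∫⁻ ω, ENNReal.ofReal (U n ω) ∂mu (ℕ ⊕ ℕ)
      ≤ ∫⁻ ω, ENNReal.ofReal (Y n ω / 24) ∂mu (ℕ ⊕ ℕ) :=
        lintegral_mono fun ω => ENNReal.ofReal_le_ofReal (U_le n ω).2
    _ = ENNReal.ofReal (∫ ω, Y n ω / 24 ∂mu (ℕ ⊕ ℕ)) :=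
        (ofReal_integral_eq_lintegral_ofReal hi (Filter.Eventually.of_forall fun ω =>
          (U_le n ω).1.trans (U_le n ω).2)).symm
    _ ≤ ENNReal.ofReal (1 / 66) := by
        apply ENNReal.ofReal_le_ofReal
        rw [integral_div]
        have := EY n
        linarith

def wt (b : Bool) : ℝ := if b then 1 / 4 else 0

lemma V2 (ω : Om) : ⨅ j, V (fun n => sv (ω (Sum.inr n))) 2 j = wt (ω (Sum.inr 0)) := by
  have hs : ∀ b, 7 / 4 ≤ sv b ∧ sv b ≤ 9 / 4 := by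
    intro b; cases b <;> simp [sv] <;> norm_num
  obtain ⟨a0, a1⟩ := (V_succ (fun n => sv (ω (Sum.inr n))) 0 0 0 rfl rfl).1 le_rfl
  have h0 := hs (ω (Sum.inr 0))
  have h1 := hs (ω (Sum.inr 1))
  rw [max_eq_right (by linarith)] at a0
  rw [max_eq_left (by linarith)] at a1
  obtain ⟨b0, b1⟩ := (V_succ (fun n => sv (ω (Sum.inr n))) 1 _ _ a0 a1).2 (by linarith)
  rw [max_eq_right (by linarith)] at b1
  rw [iInf_two, b0, b1]
  cases hb : ω (Sum.inr 0) with
  | true =>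
    simp only [sv, wt, if_true]
    rw [max_eq_right (by norm_num), min_eq_left (by simp only [sv] at h1; linarith)]
    norm_num
  | false =>
    simp only [sv, wt, Bool.false_eq_true, if_false]
    rw [max_eq_left (by norm_num), min_eq_left (by simp only [sv] at h1; linarith)]

lemma EV2 : ∫⁻ ω : Om, ENNReal.ofReal (⨅ j, V (fun n => sv (ω (Sum.inr n))) 2 j) ∂mu (ℕ ⊕ ℕ)
    = ENNReal.ofReal (1 / 64) := by
  simp only [V2]
  rw [← ofReal_integral_eq_lintegral_ofReal (dep_eval (ι := ℕ ⊕ ℕ) (Sum.inr 0) wt).int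
    (Filter.Eventually.of_forall fun ω => by
      simp only [wt, Pi.zero_apply]; split_ifs <;> norm_num), int_eval]
  simp only [wt, if_true, Bool.false_eq_true, if_false]
  norm_num

end

theorem result :
    ¬ (∀ (k : ℕ), 1 ≤ k →
  ∀ (Ω : Type) [MeasurableSpace Ω] (μ : MeasureTheory.Measure Ω)
    [MeasureTheory.IsProbabilityMeasure μ]
    (T S : ℕ → Ω → ℝ),
    (∀ n, Measurable (T n)) → (∀ n, Measurable (S n)) →
    ProbabilityTheory.iIndepFun (fun i : ℕ ⊕ ℕ => Sum.elim T S i) μ →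
    (∀ n, ProbabilityTheory.IdentDistrib (T n) (T 0) μ μ) →
    (∀ n, ProbabilityTheory.IdentDistrib (S n) (S 0) μ μ) →
    (∀ n ω, 0 ≤ T n ω) → (∀ n ω, 0 ≤ S n ω) →
    MeasureTheory.Integrable (T 0) μ → MeasureTheory.Integrable (S 0) μ →
    (∫ ω, S 0 ω ∂μ) < (k : ℝ) * ∫ ω, T 0 ω ∂μ →
    ∀ (V : ℕ → Ω → Fin k → ℝ) (U : ℕ → Ω → ℝ),
    (∀ ω j, V 0 ω j = 0) →
    (∀ n ω, ∃ i : Fin k, (∀ j, V n ω i ≤ V n ω j) ∧
      ∀ j, V (n + 1) ω j = max 0 (V n ω j + (if j = i then S n ω else 0) - T n ω)) →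
    (∀ ω, U 0 ω = 0) →
    (∀ n ω, U (n + 1) ω = max 0 (U n ω + S n ω / (k : ℝ) - T n ω)) →
    (⨆ n, ∫⁻ ω, ENNReal.ofReal (⨅ j, V n ω j) ∂μ) ≤
      ⨆ n, ∫⁻ ω, ENNReal.ofReal (U n ω) ∂μ) := by
  intro H
  have hs : ∀ b, 0 ≤ sv b := by
    intro b; cases b <;> simp [sv] <;> norm_num
  have hind : ProbabilityTheory.iIndepFun (fun i : ℕ ⊕ ℕ =>
      Sum.elim (fun (_ : ℕ) (_ : Om) => (1 : ℝ)) (fun n (ω : Om) => sv (ω (Sum.inr n))) i)
      (mu (ℕ ⊕ ℕ)) := by
    have := ind (ι := ℕ ⊕ ℕ) (fun i b => Sum.elim (fun _ => (1 : ℝ)) (fun _ => sv b) i)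
    convert this using 2 with i
    cases i <;> rfl
  have h := H 2 (by norm_num) Om (mu (ℕ ⊕ ℕ)) (fun _ _ => 1) (fun n ω => sv (ω (Sum.inr n)))
    (fun _ => measurable_const) (fun n => (dep_eval (Sum.inr n) sv).meas) hind
    (fun _ => IdentDistrib.refl measurable_const.aemeasurable)
    (fun n => idd sv _ _) (fun _ _ => zero_le_one) (fun _ _ => hs _)
    (integrable_const _) (dep_eval (Sum.inr 0) sv).int
    (by rw [int_eval]; simp [sv]; norm_num)
    (fun n ω => V (fun n => sv (ω (Sum.inr n))) n) U (fun _ _ => rfl)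
    (fun n ω => ⟨am _, am_le _, fun j => rfl⟩) (fun _ => rfl) (fun _ _ => rfl)
  have h1 := (le_iSup _ 2).trans (h.trans (iSup_le EU))
  rw [EV2, ENNReal.ofReal_le_ofReal_iff (by norm_num)] at h1
  norm_num at h1

end Pool.Agent.S19386
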