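import Pool.Statements.S19414
import Pool.Agent.Lib.helper1.FT3

set_option autoImplicit false
open MeasureTheory ProbabilityTheory
open Pool Pool.MP_76c567_pr

namespace Pool.Agent.S19414

open Pool.Agent.Lib.helper1.FT Filter Topology

lemma no_factor {F : (Γ → unitInterval) → Γ → ℕ → ℝ} (hF : Measurable F)
    (hX : GP KK (fun t y => F y t.1 t.2) (ν Γ))
    (he : ∀ g, ∀ᵐ y ∂ν Γ, F (fun v => y (v * g)) 1 = F y g)
    (hf : ∀ᵐ y ∂ν Γ, ∃ r : ℕ, ∀ y' : Γ → unitInterval,
      (∀ u : Γ, u.norm ≤ r → y' u = y u) → F y' 1 = F y 1) : False := by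
  classical
  let U : ℕ → Set (Γ → unitInterval) := fun r =>
    {y | ∀ y', (∀ u : Γ, u.norm ≤ r → y' u = y u) → F y' 1 = F y 1}
  have hU : Monotone U := fun r s h y hy y' e => hy y' fun u hu => e u (hu.trans h)
  have t := tendsto_measure_iUnion_atTop (μ := ν Γ) hU
  rw [measure_congr (show (⋃ r, U r) =ᵐ[ν Γ] Set.univ from
    ae_eq_univ.2 (by simpa [ae_iff, U, Set.compl_def] using hf)), measure_univ] at t
  obtain ⟨r, hr⟩ := (((ENNReal.tendsto_toReal ENNReal.one_ne_top).comp t).eventually
    (lt_mem_nhds (show (19 / 20 : ℝ) < _ by norm_num))).exists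
  let B := (ball_fin r).toFinset
  obtain ⟨W, f, mW, mf, h1, h2⟩ := good B (F := fun y => F y 1) (by fun_prop)
  let V : Γ → Set (Γ → unitInterval) := fun g => (fun y (i : B) => y (i.1 * g)) ⁻¹' W
  have iB : ∀ g : Γ, Function.Injective fun i : B => i.1 * g := fun g i j h =>
    Subtype.ext (mul_right_cancel h)
  have mV : ∀ g, MeasurableSet (V g) := fun g => (mp (iB g)).measurable mW
  have v1 : 19 / 20 ≤ (ν Γ).real (V 1) := hr.le.trans (measureReal_mono fun y hy => by
    simpa [V] using h1 y fun y' e => hy y' fun u hu => e u (by simpa [B] using hu))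
  have vg : ∀ g, (ν Γ).real (V g) = (ν Γ).real (V 1) := fun g =>
    ((mp (iB g)).measureReal_preimage mW.nullMeasurableSet).trans
      ((mp (iB 1)).measureReal_preimage mW.nullMeasurableSet).symm
  let D : Finset Γ := (B ×ˢ B).image (fun p => p.1⁻¹ * p.2) ∪ NN 1
  have pos : ∀ j, 0 ≤ ∑ g ∈ D, ∫ y in V 1 ∩ V g, F y 1 j * F y g j ∂ν Γ := fun j => by
    let φ : (B → unitInterval) → ℝ := W.indicator fun z => f z j
    have mφ : Measurable φ := Measurable.indicator (by fun_prop) mW
    have e : ∀ g, (fun y : Γ → unitInterval => φ fun i : B => y (i.1 * g))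
        =ᵐ[ν Γ] (V g).indicator fun y => F y g j := fun g => by
      filter_upwards [he g, (mp (mul_left_injective g)).quasiMeasurePreserving.ae h2] with y e1 e2
      by_cases c : y ∈ V g
      · rw [Set.indicator_of_mem c, ← e1, e2 c]; exact Set.indicator_of_mem (s := W) c _
      · rw [Set.indicator_of_notMem c]; exact Set.indicator_of_notMem (s := W) c _
    have l : ∀ g, MemLp (fun y : Γ → unitInterval => φ fun i : B => y (i.1 * g)) 2 (ν Γ) :=
      fun g => ((hX.l2 (g, j)).indicator (mV g)).ae_eq (e g).symm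
    have l2 : MemLp φ 2 (ν B) := by
      rw [← (mp (iB 1)).map_eq, memLp_map_measure_iff mφ.aestronglyMeasurable
        (mp (iB 1)).measurable.aemeasurable]
      exact l 1
    have m : ∀ g, ∫ y, φ (fun i : B => y (i.1 * g)) ∂ν Γ = ∫ z, φ z ∂ν B := fun g => by
      rw [← (mp (iB g)).map_eq, integral_map (mp (iB g)).measurable.aemeasurable
        mφ.aestronglyMeasurable]
    refine (block quot B D (fun b hb b' hb' => Finset.mem_union_left _
      (Finset.mem_image.2 ⟨(b', b), Finset.mk_mem_product hb' hb, rfl⟩)) mφ l2).trans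
      (Finset.sum_le_sum fun g _ => ?_)
    have := covariance_eq_sub (l 1) (l g)
    rw [m, m] at this
    simp only [mul_one] at this
    rw [cv, this, ← integral_indicator ((mV 1).inter (mV g)), sub_le_iff_le_add]
    refine le_add_of_le_of_nonneg (integral_congr_ae ?_).le (mul_self_nonneg _)
    filter_upwards [e 1, e g] with y e1 e2
    simp only [mul_one] at e1
    rw [Pi.mul_apply, e1, e2, ← Set.inter_indicator_mul]
  have lim := tendsto_finsetSum D fun g _ => lln hX 1 g (V 1 ∩ V g)
  have := ge_of_tendsto' lim fun n => by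
    rw [← Finset.mul_sum, Finset.sum_comm]
    exact mul_nonneg (by positivity) (Finset.sum_nonneg fun j _ => pos j)
  rw [← Finset.sum_subset Finset.subset_union_right fun g _ hg => by
    simp only [NN, Finset.mem_insert, Finset.mem_image, not_or, Finset.mem_univ, true_and] at hg
    rw [cc, if_neg (Ne.symm hg.1), if_neg fun ⟨x, e⟩ => hg.2 ⟨x, e.symm⟩, mul_zero],
    NN, Finset.sum_insert (by simpa using ℓ_ne), Finset.sum_image fun x _ y _ h =>
      ℓ_inj (mul_right_cancel h)] at this
  have b : ∀ x, (ν Γ).real (V 1 ∩ V (ℓ x * 1)) * cc 1 (ℓ x * 1) ≤ -(27 / 2) := fun x => by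
    rw [cc, if_neg (by simpa using (ℓ_ne x).symm), if_pos ⟨x, rfl⟩]
    have := measureReal_union_add_inter (μ := ν Γ) (s := V 1) (mV (ℓ x * 1))
    have := measureReal_le_one (μ := ν Γ) (s := V 1 ∪ V (ℓ x * 1))
    linarith [vg (ℓ x * 1)]
  have s := Finset.sum_le_sum fun x (_ : x ∈ Finset.univ) => b x
  have := measureReal_le_one (μ := ν Γ) (s := V 1 ∩ V 1)
  simp only [cc, if_true, Finset.sum_const, Finset.card_univ, Fintype.card_prod, Fintype.card_bool,
    nsmul_eq_mul] at *
  push_cast at s
  linarith

/-- The negation of the preceding statement: On a regular tree of degree at least 3, every automorphism-invariant finitely dependent process with standard Borel values is an equivariant factor of i.i.d. uniform labels with almost surely finite coding radius. -/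
theorem result :
    ¬ (∀ (V : Type) (G : SimpleGraph V) (d : ℕ), 3 ≤ d → G.IsTree →
    (∀ v : V, (G.neighborSet v).ncard = d) →
    ∀ (S : Type) [MeasurableSpace S] [StandardBorelSpace S] (μ : Measure (V → S)),
      IsProbabilityMeasure μ →
      (∀ φ : G ≃g G, μ.map (fun x : V → S => fun v => x (φ v)) = μ) →
      (∃ k : ℕ, ∀ A B : Set V, (∀ a ∈ A, ∀ b ∈ B, k < G.dist a b) →
        Indep (MeasurableSpace.comap (fun x : V → S => fun a : A => x a) inferInstance)
          (MeasurableSpace.comap (fun x : V → S => fun b : B => x b) inferInstance) μ) →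
      ∃ F : (V → unitInterval) → (V → S), Measurable F ∧
        (Measure.infinitePi (fun _ : V => (volume : Measure unitInterval))).map F = μ ∧
        (∀ φ : G ≃g G, ∀ᵐ y ∂(Measure.infinitePi (fun _ : V => (volume : Measure unitInterval))),
          F (fun v => y (φ v)) = fun v => F y (φ v)) ∧
        (∀ᵐ y ∂(Measure.infinitePi (fun _ : V => (volume : Measure unitInterval))),
          ∀ v : V, ∃ r : ℕ, ∀ y' : V → unitInterval,
            (∀ u : V, G.dist v u ≤ r → y' u = y u) → F y' v = F y v)) := by
  intro H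
  obtain ⟨μ, hμ⟩ := exists_gp
  obtain ⟨F, hF, hm, he, hf⟩ := H Γ G 4 (by norm_num) tree deg (ℕ → ℝ) μ
    hμ.g.isProbabilityMeasure (fun φ => by
      have h' : GP KK (fun t (x : Γ → ℕ → ℝ) => x (φ t.1) t.2) μ := by
        have e : KK = fun s t : Γ × ℕ => KK (φ s.1, s.2) (φ t.1, t.2) := by
          ext s t
          have : G.Adj (φ s.1) (φ t.1) ↔ G.Adj s.1 t.1 := φ.map_rel_iff
          simp only [KK, cc, EmbeddingLike.apply_eq_iff_eq]
          by_cases c : G.Adj s.1 t.1
          · rw [if_pos c, if_pos (this.2 c)]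
          · rw [if_neg c, if_neg (mt this.1 c)]
        rw [e]
        exact hμ.re fun t : Γ × ℕ => (φ t.1, t.2)
      have := congrArg (Measure.map Function.curry) (h'.ext hμ)
      rw [Measure.map_map (by fun_prop) (by fun_prop), Measure.map_map (by fun_prop) (by fun_prop)]
        at this
      exact this.trans Measure.map_id) ⟨1, fun A B h => (IndepFun_iff_Indep _ _ _).1
      ((hμ.indep (fun s : A × ℕ => (s.1.1, s.2)) (fun s : B × ℕ => (s.1.1, s.2)) fun s t => by
        have := h _ s.1.2 _ t.1.2
        simp only [KK, cc]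
        rw [if_neg (c := s.1.1 = t.1.1) fun e => by simp [e] at this,
          if_neg (c := G.Adj _ _) fun e => by simp [SimpleGraph.dist_eq_one_iff_adj.2 e] at this,
          ite_self]).comp (φ := Function.curry) (ψ := Function.curry) (by fun_prop) (by fun_prop))⟩
  refine no_factor hF ((GP.iff ⟨hF, hm⟩ (by fun_prop)).1 hμ) (fun g => ?_) ?_
  · filter_upwards [he (rmul g)] with y h
    exact (congrFun h 1).trans (congrArg (F y) (one_mul g))
  · filter_upwards [hf] with y h
    obtain ⟨r, h⟩ := h 1
    exact ⟨r, fun y' e => h y' fun u hu => e u ((norm_le_dist u).trans hu)⟩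

end Pool.Agent.S19414
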