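import Pool.Statements.S19424

set_option autoImplicit false
open MeasureTheory Filter Topology
open Pool Pool.MP_798553_pr

namespace Pool.Agent.S19424

open scoped ENNReal
open ProbabilityTheory

section toom
variable {Pt : Type} [DecidableEq Pt] (nb : Pt → Finset Pt)

inductive Wk : Pt → Pt → ℕ → Finset Pt → Prop
  | nil (v : Pt) : Wk v v 0 {v}
  | cons {v u b : Pt} {n : ℕ} {T : Finset Pt} : u ∈ nb v → Wk u b n T → Wk v b (n + 1) (insert v T)

def Ws : ℕ → Pt → Finset (Finset Pt)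
  | 0, v => {{v}}
  | n + 1, v => (nb v).biUnion fun u => (Ws n u).image (insert v)

variable {nb}

lemma Wk.mem {a b : Pt} {n : ℕ} {T : Finset Pt} (h : Wk nb a b n T) : T ∈ Ws nb n a ∧ T.card ≤ n + 1 := by
  induction h with
  | nil v => simp [Ws]
  | cons hu _ ih =>
    refine ⟨Finset.mem_biUnion.2 ⟨_, hu, Finset.mem_image_of_mem _ ih.1⟩, ?_⟩
    exact (Finset.card_insert_le _ _).trans (by omega)

lemma Wk.step {a b c e : Pt} {n m : ℕ} {T T' : Finset Pt} (h : Wk nb a b n T) (hc : c ∈ nb b)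
    (h' : Wk nb c e m T') : Wk nb a e (n + 1 + m) (T ∪ T') := by
  induction h with
  | nil v => rw [zero_add, add_comm]; exact Wk.cons hc h'
  | cons hu _ ih =>
    rw [Finset.insert_union, add_right_comm, add_right_comm _ 1 m, add_right_comm _ m 1]
    exact Wk.cons hu (ih hc)

lemma card_Ws {D : ℕ} (hD : ∀ v, (nb v).card ≤ D) : ∀ (n : ℕ) (v : Pt), (Ws nb n v).card ≤ D ^ n
  | 0, v => by simp [Ws]
  | n + 1, v => by
    refine Finset.card_biUnion_le.trans ((Finset.sum_le_card_nsmul _ _ (D ^ n) fun u _ =>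
      Finset.card_image_le.trans (card_Ws hD n u)).trans ?_)
    rw [smul_eq_mul, pow_succ']
    exact Nat.mul_le_mul_right _ (hD v)

theorem toom (tm : Pt → ℕ) (L : Pt → ℤ) (bad noise : Pt → Prop) (l r : Pt → Pt)
    (h : ∀ v, bad v → ¬ noise v → bad (l v) ∧ bad (r v) ∧ tm (l v) + 1 = tm v ∧ tm (r v) + 1 = tm v ∧
      L (l v) + 1 = L v ∧ L (r v) = L v + 1 ∧ l v ∈ nb v ∧ v ∈ nb (r v) ∧ r v ∈ nb (l v) ∧ l v ∈ nb (r v))
    (E : ℕ → Pt → Pt → Prop) (hE : ∀ t u w, E t u w ↔ bad u ∧ ¬ noise u ∧ tm u ≤ t ∧ (w = l u ∨ w = r u))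
    (t : ℕ) : ∀ a b, tm a = t → tm b = t → bad a → bad b → Relation.EqvGen (E t) a b →
      ∃ n T S, Wk nb a b n T ∧ S ⊆ T ∧ (∀ z ∈ S, noise z ∧ Relation.EqvGen (E t) a z) ∧
        (n : ℤ) + (L b - L a) + 3 ≤ 3 * S.card := by
  classical
  have iso : ∀ t a, tm a = t → noise a → ∀ u w, Relation.EqvGen (E t) u w → (u = a ↔ w = a) := by
    intro t a ha hn u w huw
    induction huw with
    | rel u w h1 =>
      obtain ⟨h2, h3, h4, h5⟩ := (hE _ _ _).1 h1
      obtain ⟨-, -, h6, h7, -⟩ := h u h2 h3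
      refine ⟨fun e => absurd (e ▸ hn) h3, fun e => ?_⟩
      have h8 : tm w + 1 = tm u := by rcases h5 with rfl | rfl <;> assumption
      rw [e] at h8
      omega
    | refl => rfl
    | symm _ _ _ ih => exact ih.symm
    | trans _ _ _ _ _ ih ih' => exact ih.trans ih'
  have base : ∀ t a b, tm a = t → tm b = t → (noise a ∨ noise b) → Relation.EqvGen (E t) a b →
      ∃ n T S, Wk nb a b n T ∧ S ⊆ T ∧ (∀ z ∈ S, noise z ∧ Relation.EqvGen (E t) a z) ∧
        (n : ℤ) + (L b - L a) + 3 ≤ 3 * S.card := by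
    intro t a b ha hb hn hab
    obtain rfl : b = a := by
      rcases hn with hn | hn
      exacts [(iso t a ha hn a b hab).1 rfl, ((iso t b hb hn a b hab).2 rfl).symm]
    exact ⟨0, {b}, {b}, Wk.nil b, le_rfl, by simpa using ⟨by tauto, hab⟩, by simp⟩
  induction t with
  | zero =>
    intro a b ha hb h1 h2 hab
    refine base 0 a b ha hb (Or.inl ?_) hab
    by_contra hn
    have := (h a h1 hn).2.2.1
    omega
  | succ s ih =>
    intro a b ha hb h1 h2 hab
    by_cases hn : noise a ∨ noise b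
    · exact base _ a b ha hb hn hab
    rw [not_or] at hn
    have mono : ∀ u w, Relation.EqvGen (E s) u w → Relation.EqvGen (E (s + 1)) u w := fun u w =>
      Relation.EqvGen.mono (r := E s) (p := E (s + 1)) (fun u w h => by
        rw [hE] at h ⊢; exact ⟨h.1, h.2.1, by omega, h.2.2.2⟩) u w
    have el : ∀ v, bad v → ¬ noise v → tm v = s + 1 →
        Relation.EqvGen (E (s + 1)) v (l v) ∧ Relation.EqvGen (E (s + 1)) v (r v) := fun v a1 a2 a3 =>
      ⟨.rel _ _ ((hE _ _ _).2 ⟨a1, a2, a3.le, Or.inl rfl⟩), .rel _ _ ((hE _ _ _).2 ⟨a1, a2, a3.le, Or.inr rfl⟩)⟩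
    let c : Pt → Quotient (Relation.EqvGen.setoid (E s)) := Quotient.mk _
    have hc : ∀ u w, c u = c w ↔ Relation.EqvGen (E s) u w := fun u w => Quotient.eq
    let Γ : SimpleGraph (Quotient (Relation.EqvGen.setoid (E s))) := SimpleGraph.fromRel fun q q' =>
      ∃ v, bad v ∧ ¬ noise v ∧ tm v = s + 1 ∧ q = c (l v) ∧ q' = c (r v)
    have lr : ∀ v, bad v → ¬ noise v → tm v = s + 1 → Γ.Reachable (c (l v)) (c (r v)) := by
      intro v a1 a2 a3
      by_cases e : c (l v) = c (r v)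
      · rw [e]
      · exact SimpleGraph.Adj.reachable ((SimpleGraph.fromRel_adj _ _ _).2 ⟨e, Or.inl ⟨v, a1, a2, a3, rfl, rfl⟩⟩)
    let π : Pt → Quotient (Relation.EqvGen.setoid (E s)) := fun z =>
      if bad z ∧ ¬ noise z ∧ tm z = s + 1 then c (l z) else c z
    have hπ : ∀ u w, Relation.EqvGen (E (s + 1)) u w → Γ.Reachable (π u) (π w) := by
      intro u w huw
      induction huw with
      | rel u w h1 =>
        obtain ⟨h2, h3, h4, h5⟩ := (hE _ _ _).1 h1
        obtain ⟨-, -, h6, h7, -⟩ := h u h2 h3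
        have e1 : π w = c w := if_neg (by rcases h5 with rfl | rfl <;> omega)
        rw [e1]
        by_cases e : tm u = s + 1
        · have e2 : π u = c (l u) := if_pos ⟨h2, h3, e⟩
          rw [e2]
          rcases h5 with rfl | rfl
          exacts [.refl _, lr u h2 h3 e]
        · have e2 : π u = c u := if_neg (by tauto)
          rw [e2, (hc u w).2 (.rel _ _ ((hE _ _ _).2 ⟨h2, h3, by omega, h5⟩))]
      | refl => rfl
      | symm _ _ _ ih => exact ih.symm
      | trans _ _ _ _ _ ih ih' => exact ih.trans ih'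
    have path : ∀ q q' (p : Γ.Walk q q'), p.IsPath → ∀ a' b', tm a' = s → tm b' = s → bad a' → bad b' →
        c a' = q → c b' = q' → ∃ n T S, Wk nb a' b' n T ∧ S ⊆ T ∧
          (∀ z ∈ S, noise z ∧ c z ∈ p.support ∧ Relation.EqvGen (E (s + 1)) a' z) ∧
          (n : ℤ) + (L b' - L a') + 3 ≤ 3 * S.card := by
      intro q q' p
      induction p with
      | nil =>
        intro _ a' b' a1 a2 a3 a4 a5 a6
        obtain ⟨n, T, S, b1, b2, b3, b4⟩ := ih a' b' a1 a2 a3 a4 ((hc _ _).1 (a5.trans a6.symm))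
        refine ⟨n, T, S, b1, b2, fun z hz => ⟨(b3 z hz).1, ?_, mono _ _ (b3 z hz).2⟩, b4⟩
        simp [← a5, (hc _ _).2 (b3 z hz).2]
      | @cons q q1 q' hadj p ihp =>
        intro hp a' b' a1 a2 a3 a4 a5 a6
        rw [SimpleGraph.Walk.cons_isPath_iff] at hp
        obtain ⟨u, w, u1, u2, u3, u4, u5, u6, u7, u8, u9⟩ : ∃ u w, tm u = s ∧ tm w = s ∧ bad u ∧ bad w ∧
            c u = q ∧ c w = q1 ∧ w ∈ nb u ∧ L w - L u ≤ 2 ∧ Relation.EqvGen (E (s + 1)) u w := by
          obtain ⟨-, ⟨v, v1, v2, v3, v4, v5⟩ | ⟨v, v1, v2, v3, v4, v5⟩⟩ := (SimpleGraph.fromRel_adj _ _ _).1 hadj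
          · obtain ⟨b1, b2, b3, b4, b5, b6, -, -, b7, -⟩ := h v v1 v2
            exact ⟨l v, r v, by omega, by omega, b1, b2, v4.symm, v5.symm, b7, by omega,
              .trans _ _ _ (.symm _ _ (el v v1 v2 v3).1) (el v v1 v2 v3).2⟩
          · obtain ⟨b1, b2, b3, b4, b5, b6, -, -, -, b7⟩ := h v v1 v2
            exact ⟨r v, l v, by omega, by omega, b2, b1, v5.symm, v4.symm, b7, by omega,
              .trans _ _ _ (.symm _ _ (el v v1 v2 v3).2) (el v v1 v2 v3).1⟩
        have au := (hc _ _).1 (a5.trans u5.symm)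
        obtain ⟨n, T, S, b1, b2, b3, b4⟩ := ih a' u a1 u1 a3 u3 au
        obtain ⟨n', T', S', c1, c2, c3, c4⟩ := ihp hp.1 w b' u2 a2 u4 a4 u6 a6
        have hz : ∀ z ∈ S, c z = q := fun z hz => by rw [← a5, (hc _ _).2 (b3 z hz).2]
        refine ⟨_, _, S ∪ S', b1.step u7 c1, Finset.union_subset_union b2 c2, fun z hz' => ?_, ?_⟩
        · rcases Finset.mem_union.1 hz' with h | h
          · exact ⟨(b3 z h).1, by simp [hz z h], mono _ _ (b3 z h).2⟩
          · exact ⟨(c3 z h).1, by simp [(c3 z h).2.1],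
              .trans _ _ _ (.trans _ _ _ (mono _ _ au) u9) (c3 z h).2.2⟩
        · rw [Finset.card_union_of_disjoint (Finset.disjoint_left.2 fun z h h' =>
            hp.2 (hz z h ▸ (c3 z h').2.1))]
          push_cast; omega
    have r1 := hπ a b hab
    rw [show π a = c (l a) from if_pos ⟨h1, hn.1, ha⟩, show π b = c (l b) from if_pos ⟨h2, hn.2, hb⟩] at r1
    obtain ⟨p⟩ := r1.trans (lr b h2 hn.2 hb)
    obtain ⟨a1, -, a2, -, a3, -, a4, -⟩ := h a h1 hn.1
    obtain ⟨-, b1, -, b2, -, b3, -, b4, -⟩ := h b h2 hn.2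
    obtain ⟨n, T, S, c1, c2, c3, c4⟩ := path _ _ p.bypass p.bypass_isPath (l a) (r b) (by omega) (by omega)
      a1 b1 rfl rfl
    refine ⟨_, _, S, Wk.cons a4 (c1.step b4 (Wk.nil b)), c2.trans (Finset.subset_union_left.trans
      (Finset.subset_insert _ _)), fun z hz => ⟨(c3 z hz).1, .trans _ _ _ (el a h1 hn.1 ha).1 (c3 z hz).2.2⟩, ?_⟩
    push_cast; omega

theorem toom' (tm : Pt → ℕ) (L : Pt → ℤ) (bad noise : Pt → Prop)
    (h : ∀ v, bad v → ¬ noise v → ∃ l r, bad l ∧ bad r ∧ tm l + 1 = tm v ∧ tm r + 1 = tm v ∧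
      L l + 1 = L v ∧ L r = L v + 1 ∧ l ∈ nb v ∧ v ∈ nb r ∧ r ∈ nb l ∧ l ∈ nb r) (a : Pt) (ha : bad a) :
    ∃ n, ∃ T ∈ Ws nb n a, T.card ≤ n + 1 ∧ ∃ S ⊆ T, n + 3 ≤ 3 * S.card ∧ ∀ z ∈ S, noise z := by
  have : Nonempty Pt := ⟨a⟩
  choose! l r h using h
  obtain ⟨n, T, S, h1, h2, h3, h4⟩ := toom tm L bad noise l r h _ (fun _ _ _ => Iff.rfl) _ a a rfl rfl ha ha
    (.refl _)
  exact ⟨n, T, h1.mem.1, h1.mem.2, S, h2, by omega, fun z hz => (h3 z hz).1⟩

end toom

abbrev V : Type := Fin 2 → ℤ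
abbrev Pt : Type := ℕ × V

noncomputable def q0 : PMF (Fin 3) := PMF.ofFintype ![1 - (2⁻¹ ^ 31 + 2⁻¹ ^ 31), 2⁻¹ ^ 31, 2⁻¹ ^ 31] (by
  rw [Fin.sum_univ_three, add_assoc]
  refine tsub_add_cancel_of_le ?_
  show (2⁻¹ : ℝ≥0∞) ^ 31 + 2⁻¹ ^ 31 ≤ 1
  have : (2⁻¹ : ℝ≥0∞) ^ 31 ≤ 2⁻¹ := pow_le_of_le_one zero_le (by simp) (by simp)
  exact (add_le_add this this).trans ENNReal.inv_two_add_inv_two.le)

lemma two31 : (2⁻¹ : ℝ≥0∞) ^ 31 + 2⁻¹ ^ 31 = 2⁻¹ ^ 30 := by
  rw [pow_succ, ← mul_add, ENNReal.inv_two_add_inv_two, mul_one]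

lemma q0_ne (a : Fin 3) : q0 a ≠ 0 := by
  fin_cases a
  · show 1 - ((2⁻¹ : ℝ≥0∞) ^ 31 + 2⁻¹ ^ 31) ≠ 0
    rw [two31, ← pos_iff_ne_zero, tsub_pos_iff_lt]
    exact pow_lt_one₀ zero_le (by simp) (by simp)
  · show (2⁻¹ : ℝ≥0∞) ^ 31 ≠ 0; simp
  · show (2⁻¹ : ℝ≥0∞) ^ 31 ≠ 0; simp

lemma q0_noise : q0.toMeasure {a | a ≠ 0} = 2⁻¹ ^ 30 := by
  rw [PMF.toMeasure_apply_fintype, Fin.sum_univ_three, ← two31]
  simp [Set.indicator, q0]

noncomputable def cs (ι : Type) : Measure (ι → Fin 3) := Measure.infinitePi fun _ => q0.toMeasure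
instance (ι : Type) : IsProbabilityMeasure (cs ι) := by unfold cs; infer_instance

lemma pair {ι α β : Type} {f : α → ι} {g : β → ι} (hf : Function.Injective f)
    (hg : Function.Injective g) (hfg : ∀ a b, f a ≠ g b) :
    (cs ι).map (fun x => (fun a => x (f a), fun b => x (g b))) = (cs α).prod (cs β) := by
  have hind : iIndep (fun i : ι => MeasurableSpace.comap (fun x : ι → Fin 3 => x i) inferInstance) (cs ι) :=
    (iIndepFun_iff_iIndep _ _ _).1 (iIndepFun_infinitePi (X := fun _ ω => ω) (by fun_prop))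
  have h1 := indep_iSup_of_disjoint (fun i => (measurable_pi_apply i).comap_le) hind
    (S := Set.range f) (T := Set.range g) (by
      rw [Set.disjoint_left]; rintro _ ⟨a, rfl⟩ ⟨b, h⟩; exact hfg a b h.symm)
  have key : ∀ {γ : Type} (e : γ → ι), MeasurableSpace.comap (fun (x : ι → Fin 3) a => x (e a)) inferInstance ≤
      ⨆ i ∈ Set.range e, MeasurableSpace.comap (fun x : ι → Fin 3 => x i) inferInstance := by
    intro γ e
    refine Measurable.comap_le (@measurable_pi_lambda _ _ _ (_) _ _ fun a => ?_)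
    exact Measurable.of_comap_le (le_iSup₂_of_le (e a) ⟨a, rfl⟩ le_rfl)
  have h2 : IndepFun (fun (x : ι → Fin 3) a => x (f a)) (fun (x : ι → Fin 3) b => x (g b)) (cs ι) :=
    (IndepFun_iff_Indep _ _ _).2 (indep_of_indep_of_le_right (indep_of_indep_of_le_left h1 (key f)) (key g))
  rw [h2.map_prod_eq_prod_map_map (Measurable.aemeasurable (by fun_prop))
    (Measurable.aemeasurable (by fun_prop))]
  unfold cs
  rw [Measure.map_infinitePi_infinitePi_of_inj hf, Measure.map_infinitePi_infinitePi_of_inj hg]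

def NN : Finset V := {![1, 1], ![1, -1], ![-1, 1], ![-1, -1]}

def g (a b c d : Fin 3) : Fin 3 := if (a ≠ 1 ∧ b ≠ 1) ∨ (c ≠ 1 ∧ d ≠ 1) then 0 else 2
def f (p : NN → Fin 3) : Fin 3 :=
  g (p ⟨![1, 1], by simp [NN]⟩) (p ⟨![1, -1], by simp [NN]⟩) (p ⟨![-1, 1], by simp [NN]⟩)
    (p ⟨![-1, -1], by simp [NN]⟩)
def F (x : V → Fin 3) (i : V) : Fin 3 :=
  g (x (i + ![1, 1])) (x (i + ![1, -1])) (x (i + ![-1, 1])) (x (i + ![-1, -1]))
def tgt (b : Fin 3) : Fin 3 := if b = 2 then 1 else 0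
noncomputable def θ (b : Fin 3) : PMF (Fin 3) := q0.map (tgt b + ·)
def step (x c : V → Fin 3) : V → Fin 3 := fun i => tgt (F x i) + c i
noncomputable def κ (x : V → Fin 3) : Measure (V → Fin 3) :=
  Measure.infinitePi fun i : V => (θ (F x i)).toMeasure

lemma meas_step : Measurable fun z : (V → Fin 3) × (V → Fin 3) => step z.1 z.2 := by
  refine measurable_pi_lambda _ fun w => ?_
  have h1 : Measurable fun q : Fin 3 × Fin 3 × Fin 3 × Fin 3 × Fin 3 =>
      tgt (g q.1 q.2.1 q.2.2.1 q.2.2.2.1) + q.2.2.2.2 := Measurable.of_discrete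
  have h2 : Measurable fun z : (V → Fin 3) × (V → Fin 3) =>
      (z.1 (w + ![1, 1]), z.1 (w + ![1, -1]), z.1 (w + ![-1, 1]), z.1 (w + ![-1, -1]), z.2 w) := by fun_prop
  exact h1.comp h2

lemma κ_eq (x : V → Fin 3) : κ x = (cs V).map (step x) := by
  unfold κ cs θ
  simp_rw [← PMF.toMeasure_map _ _ Measurable.of_discrete]
  exact (Measure.infinitePi_map_pi (fun _ : V => q0.toMeasure) (f := fun i => (tgt (F x i) + ·))
    fun _ => Measurable.of_discrete).symm

lemma meas_κ : Measurable κ := by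
  rw [funext κ_eq]
  exact Measure.measurable_of_measurable_coe _ fun s hs => by
    simp_rw [fun x => Measure.map_apply (μ := cs V) (f := step x) (meas_step.comp measurable_prodMk_left) hs]
    exact measurable_measure_prodMk_left (meas_step hs)

def X : ℕ → (V → Fin 3) → (Pt → Fin 3) → V → Fin 3
  | 0, x, _ => x
  | t + 1, x, ω => step (X t x ω) fun i => ω (t, i)

lemma meas_X (t : ℕ) : Measurable fun z : (V → Fin 3) × (Pt → Fin 3) => X t z.1 z.2 := by
  induction t with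
  | zero => exact measurable_fst
  | succ t ih =>
    exact meas_step.comp (f := fun z : (V → Fin 3) × (Pt → Fin 3) => (X t z.1 z.2, fun i => z.2 (t, i)))
      (ih.prodMk (by fun_prop))

lemma X_succ (t : ℕ) (x : V → Fin 3) (ω : Pt → Fin 3) :
    X (t + 1) x ω = X t (step x fun i => ω (0, i)) fun p => ω (p.1 + 1, p.2) := by
  induction t with
  | zero => rfl
  | succ t ih => rw [X, ih]; rfl

lemma it_eq {S : Set (V → Fin 3)} (hS : MeasurableSet S) (t : ℕ) : ∀ μ : Measure (V → Fin 3),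
    (fun m : Measure (V → Fin 3) => m.bind κ)^[t] μ S = ∫⁻ x, cs Pt {ω | X t x ω ∈ S} ∂μ := by
  induction t with
  | zero =>
    intro μ
    rw [Function.iterate_zero_apply, ← lintegral_indicator_one hS]
    refine lintegral_congr fun x => ?_
    by_cases h : x ∈ S <;> simp [X, h]
  | succ t ih =>
    intro μ
    have m1 : Measurable fun x => cs Pt {ω | X t x ω ∈ S} := measurable_measure_prodMk_left (meas_X t hS)
    rw [Function.iterate_succ_apply, ih, Measure.lintegral_bind meas_κ.aemeasurable m1.aemeasurable]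
    refine lintegral_congr fun x => ?_
    have m2 : Measurable (step x) := meas_step.comp measurable_prodMk_left
    have m3 : MeasurableSet {z : (V → Fin 3) × (Pt → Fin 3) | X t (step x z.1) z.2 ∈ S} :=
      ((meas_X t).comp ((m2.comp measurable_fst).prodMk measurable_snd)) hS
    have h := pair (ι := Pt) (f := fun i : V => (0, i)) (g := fun p : Pt => (p.1 + 1, p.2))
      (fun a b h => by simpa using h) (fun a b h => by simpa [Prod.ext_iff] using h) (by simp)
    rw [κ_eq, lintegral_map m1 m2]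
    refine (Measure.prod_apply m3).symm.trans ?_
    rw [← h, Measure.map_apply (by fun_prop) m3]
    simp only [X_succ]
    rfl

noncomputable def nb (v : Pt) : Finset Pt := Finset.Icc (v.1 - 1) (v.1 + 1) ×ˢ Finset.Icc (v.2 - fun _ => 2) (v.2 + fun _ => 2)

lemma card_nb (v : Pt) : (nb v).card ≤ 128 := by
  rw [nb, Finset.card_product, Pi.card_Icc]
  have h1 : (Finset.Icc (v.1 - 1) (v.1 + 1)).card ≤ 3 := by simp; omega
  have h2 : ∀ i, (Finset.Icc ((v.2 - fun _ => 2 : V) i) ((v.2 + fun _ => 2 : V) i)).card = 5 := by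
    intro i; simp; omega
  simp only [h2, Finset.prod_const, Finset.card_univ, Fintype.card_fin]
  omega

lemma mem_nb {s t : ℕ} {u v : V} (h : s ≤ t + 1 ∧ t ≤ s + 1 ∧ |u 0 - v 0| ≤ 2 ∧ |u 1 - v 1| ≤ 2) :
    (s, u) ∈ nb (t, v) := by
  simp only [nb, Finset.mem_product, Finset.mem_Icc, Pi.le_def, Fin.forall_fin_two, Pi.sub_apply, Pi.add_apply,
    abs_le] at h ⊢
  omega

lemma peierls {B : Set (Pt → Fin 3)} (a : Pt)
    (h : ∀ ω ∈ B, ∃ n, ∃ T ∈ Ws nb n a, T.card ≤ n + 1 ∧ ∃ S ⊆ T, n + 3 ≤ 3 * S.card ∧ ∀ z ∈ S, ω z ≠ 0) :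
    cs Pt B ≤ 4⁻¹ := by
  classical
  have h1 : B ⊆ ⋃ n, ⋃ T ∈ (Ws nb n a).filter (·.card ≤ n + 1),
      ⋃ S ∈ T.powerset.filter (fun S => n + 3 ≤ 3 * S.card), Set.pi (S : Set Pt) fun _ => {b | b ≠ 0} := by
    intro ω hω
    obtain ⟨n, T, h1, h2, S, h3, h4, h5⟩ := h ω hω
    simp only [Set.mem_iUnion, Finset.mem_filter, Finset.mem_powerset]
    exact ⟨n, T, ⟨h1, h2⟩, S, ⟨h3, h4⟩, h5⟩
  refine (measure_mono h1).trans ((measure_iUnion_le _).trans ?_)
  have h2 : ∀ n, cs Pt (⋃ T ∈ (Ws nb n a).filter (·.card ≤ n + 1),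
      ⋃ S ∈ T.powerset.filter (fun S => n + 3 ≤ 3 * S.card), Set.pi (S : Set Pt) fun _ => {b | b ≠ 0}) ≤
      8⁻¹ * 2⁻¹ ^ n := by
    intro n
    refine (measure_biUnion_finset_le _ _).trans ((Finset.sum_le_card_nsmul _ _
      ((2 ^ (n + 1) : ℕ) • (2⁻¹ ^ 10) ^ (n + 3)) fun T hT => ?_).trans ?_)
    · refine (measure_biUnion_finset_le _ _).trans ((Finset.sum_le_card_nsmul _ _
        ((2⁻¹ ^ 10) ^ (n + 3)) fun S hS => ?_).trans ?_)
      · rw [cs, Measure.infinitePi_pi _ fun _ _ => MeasurableSet.of_discrete]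
        simp only [q0_noise, Finset.prod_const]
        rw [show 30 = 10 * 3 from rfl, pow_mul, ← pow_mul _ 3]
        exact pow_le_pow_of_le_one zero_le (pow_le_one₀ zero_le (by simp)) (Finset.mem_filter.1 hS).2
      · refine nsmul_le_nsmul_left zero_le ((Finset.card_filter_le _ _).trans ?_)
        rw [Finset.card_powerset]
        exact Nat.pow_le_pow_right (by norm_num) (Finset.mem_filter.1 hT).2
    · refine (nsmul_le_nsmul_left zero_le ((Finset.card_filter_le _ _).trans (card_Ws card_nb n a))).trans ?_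
      have e : (2⁻¹ : ℝ≥0∞) = ENNReal.ofReal 2⁻¹ := by rw [ENNReal.ofReal_inv_of_pos (by norm_num)]; simp
      have e' : (8⁻¹ : ℝ≥0∞) = ENNReal.ofReal 8⁻¹ := by rw [ENNReal.ofReal_inv_of_pos (by norm_num)]; simp
      rw [e, e', ← ENNReal.ofReal_pow (by norm_num), ← ENNReal.ofReal_pow (by norm_num),
        ← ENNReal.ofReal_pow (by norm_num), ← ENNReal.ofReal_mul (by norm_num), ← ENNReal.ofReal_nsmul,
        ← ENNReal.ofReal_nsmul]
      refine ENNReal.ofReal_le_ofReal ?_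
      simp only [nsmul_eq_mul]
      push_cast
      have : (128 : ℝ) ^ n * 2 ^ n * (2⁻¹ ^ 10) ^ n ≤ 2⁻¹ ^ n := by
        rw [← mul_pow, ← mul_pow]; exact pow_le_pow_left₀ (by norm_num) (by norm_num) n
      rw [pow_succ, pow_add _ n 3]
      have h0 : (0 : ℝ) ≤ 2⁻¹ ^ n := by positivity
      nlinarith
  refine (ENNReal.tsum_le_tsum h2).trans (le_of_eq ?_)
  rw [ENNReal.tsum_mul_left, ENNReal.tsum_geometric, ENNReal.one_sub_inv_two, inv_inv,
    show (8 : ℝ≥0∞) = 4 * 2 by norm_num, ENNReal.mul_inv (by simp) (by simp), mul_assoc,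
    ENNReal.inv_mul_cancel (by simp) (by simp), mul_one]

lemma tg (a b c d : Fin 3) : tgt (g a b c d) = 1 ↔ (a = 1 ∨ b = 1) ∧ (c = 1 ∨ d = 1) := by
  revert a b c d; decide

lemma X_one {s : ℕ} {x : V → Fin 3} {ω : Pt → Fin 3} {i : V} (h : ¬ ω (s, i) ≠ 0) :
    X (s + 1) x ω i = 1 ↔ (X s x ω (i + ![1, 1]) = 1 ∨ X s x ω (i + ![1, -1]) = 1) ∧
      (X s x ω (i + ![-1, 1]) = 1 ∨ X s x ω (i + ![-1, -1]) = 1) := by
  rw [← tg]
  simp only [X, step, not_not.1 h, add_zero, F]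

lemma plus (t : ℕ) : cs Pt {ω | X (t + 1) (fun _ => 0) ω 0 = 1} ≤ 4⁻¹ := by
  refine peierls (t, 0) fun ω hω => toom' Prod.fst (fun v : Pt => v.2 0)
    (fun v => X (v.1 + 1) (fun _ => 0) ω v.2 = 1) (fun v => ω v ≠ 0) ?_ _ hω
  rintro ⟨s, i⟩ h1 h2
  have h3 := (X_one h2).1 h1
  cases s with
  | zero => simp [X] at h3
  | succ s =>
    obtain ⟨h4 | h4, h5 | h5⟩ := h3 <;>
      refine ⟨(s, _), (s, _), h5, h4, rfl, rfl, by simp, by simp, mem_nb ?_, mem_nb ?_, mem_nb ?_, mem_nb ?_⟩ <;>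
      simp [add_assoc]

lemma minus (t : ℕ) : cs Pt {ω | X (t + 1) (fun _ => 1) ω 0 ≠ 1} ≤ 4⁻¹ := by
  refine peierls (t, 0) fun ω hω => toom' Prod.fst (fun v : Pt => v.2 1)
    (fun v => X (v.1 + 1) (fun _ => 1) ω v.2 ≠ 1) (fun v => ω v ≠ 0) ?_ _ hω
  rintro ⟨s, i⟩ h1 h2
  have h3 := mt (X_one h2).2 h1
  cases s with
  | zero => simp [X] at h3
  | succ s =>
    rw [not_and_or, not_or, not_or] at h3
    obtain ⟨h4, h5⟩ | ⟨h4, h5⟩ := h3 <;>
      refine ⟨(s, _), (s, _), h5, h4, rfl, rfl, by simp, by simp, mem_nb ?_, mem_nb ?_, mem_nb ?_, mem_nb ?_⟩ <;>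
      simp [add_assoc]


/-- The negation of the preceding statement: For every nilpotent cellular automaton on ℤ^d with finite alphabet and every positive cellwise noise matrix, the noisy dynamics (CA then independent noise) has a probability measure to which all initial measures converge weakly. -/
theorem result :
    ¬ (∀ (d q : ℕ) (N : Finset (Fin d → ℤ)) (f : (N → Fin q) → Fin q)
    (F : ((Fin d → ℤ) → Fin q) → ((Fin d → ℤ) → Fin q)),
    (∀ x i, F x i = f (fun v => x (i + v.1))) →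
    (∃ n : ℕ, ∃ a : Fin q, ∀ x, F^[n] x = fun _ => a) →
    ∀ θ : Fin q → PMF (Fin q), (∀ a b, θ a b ≠ 0) →
    ∃ ν : Measure ((Fin d → ℤ) → Fin q), IsProbabilityMeasure ν ∧
      ∀ μ : Measure ((Fin d → ℤ) → Fin q), IsProbabilityMeasure μ →
        ∀ (S : Finset (Fin d → ℤ)) (c : (Fin d → ℤ) → Fin q),
          Tendsto (fun n : ℕ =>
              ((fun m : Measure ((Fin d → ℤ) → Fin q) =>
                  m.bind (fun x => Measure.infinitePi
                    (fun i : Fin d → ℤ => (θ (F x i)).toMeasure)))^[n] μ)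
                {y | ∀ i ∈ S, y i = c i})
            atTop (𝓝 (ν {y | ∀ i ∈ S, y i = c i}))) := by
  intro H
  have n1 : ∀ x, F^[2] x = fun _ => 0 := by
    intro x
    funext i
    have : ∀ y j, F y j ≠ 1 := fun y j => by unfold F g; split_ifs <;> simp
    show g _ _ _ _ = 0
    exact if_pos (Or.inl ⟨this _ _, this _ _⟩)
  have n2 : ∀ a b, θ a b ≠ 0 := by
    intro a b
    rw [← PMF.mem_support_iff, θ, PMF.mem_support_map_iff]
    exact ⟨b - tgt a, q0_ne _, by simp⟩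
  obtain ⟨ν, hν, h⟩ := H 2 3 NN f F (fun _ _ => rfl) ⟨2, 0, n1⟩ θ n2
  · have hm : MeasurableSet {y : V → Fin 3 | ∀ i ∈ ({0} : Finset V), y i = 1} := by
      simp only [Finset.mem_singleton, forall_eq]
      exact measurable_pi_apply (0 : V) (measurableSet_singleton 1)
    have mX : ∀ t, Measurable fun x => cs Pt {ω | X t x ω ∈ {y : V → Fin 3 | ∀ i ∈ ({0} : Finset V), y i = 1}} :=
      fun t => measurable_measure_prodMk_left (meas_X t hm)
    have h1 := le_of_tendsto' ((h (Measure.dirac fun _ => 0) inferInstance {0} fun _ => 1).comp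
      (tendsto_add_atTop_nat 1)) (b := 4⁻¹) fun t => by
        refine (it_eq hm (t + 1) _).trans_le ?_
        rw [lintegral_dirac' _ (mX _)]
        simpa using plus t
    have h2 := ge_of_tendsto' ((h (Measure.dirac fun _ => 1) inferInstance {0} fun _ => 1).comp
      (tendsto_add_atTop_nat 1)) (b := 1 - 4⁻¹) fun t => by
        refine le_of_le_of_eq ?_ (it_eq hm (t + 1) _).symm
        rw [lintegral_dirac' _ (mX _), tsub_le_iff_right]
        refine le_trans ?_ (add_le_add_right (minus t) _)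
        refine le_trans ?_ (measure_union_le _ _)
        rw [← measure_univ (μ := cs Pt)]
        exact measure_mono fun ω _ => by simpa using em _
    have h3 := tsub_le_iff_right.1 (h2.trans h1)
    have h4 := ENNReal.toReal_mono (by finiteness) h3
    rw [ENNReal.toReal_add (by finiteness) (by finiteness)] at h4
    norm_num at h4

end Pool.Agent.S19424
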