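import Pool.Statements.S19478
import Pool.Agent.Lib.helper1.Cau

set_option autoImplicit false
open MeasureTheory
open scoped ENNReal Pointwise
open Pool Pool.MP_91dfc6_pr

namespace Pool.Agent.S19478

open Pool.Agent.Lib.helper1.Cau

noncomputable def e : (Fin 2 → ℝ) ≃ᵐ ℝ × ℝ := MeasurableEquiv.finTwoArrow

noncomputable def nu : Measure (Fin 2 → ℝ) := mu.map e.symm

instance : IsProbabilityMeasure nu :=
  Measure.isProbabilityMeasure_map e.symm.measurable.aemeasurable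

lemma es (x : ℝ × ℝ) : e.symm x = ![x.1, x.2] := rfl

lemma nu_ac : nu ≪ volume := by
  have h := (volume_preserving_finTwoArrow ℝ).symm.map_eq
  rw [← h]
  exact mu_ac.map e.symm.measurable

lemma nu_neg : nu.map (fun x => -x) = nu := by
  have h1 : Measurable fun x : Fin 2 → ℝ => -x := measurable_neg
  have h2 : Measurable fun x : ℝ × ℝ => -x := measurable_neg
  rw [nu, Measure.map_map h1 e.symm.measurable]
  conv_rhs => rw [← mu_neg, Measure.map_map e.symm.measurable h2]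
  congr 1
  ext x i
  fin_cases i <;> simp [es]

lemma nu_quasi {A B : Set (Fin 2 → ℝ)} (hA : MeasurableSet A) (hB : MeasurableSet B)
    (nA : A.Nonempty) (nB : B.Nonempty) {t : ℝ} (h0 : 0 ≤ t) (h1 : t ≤ 1) :
    min (nu A) (nu B) ≤ nu (t • A + (1 - t) • B) := by
  rcases h0.eq_or_lt with rfl | h0
  · refine (min_le_right _ _).trans (measure_mono fun y hy => ?_)
    obtain ⟨x, hx⟩ := nA
    exact ⟨_, Set.smul_mem_smul_set hx, _, Set.smul_mem_smul_set hy, by simp⟩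
  rcases h1.eq_or_lt with rfl | h1
  · refine (min_le_left _ _).trans (measure_mono fun x hx => ?_)
    obtain ⟨y, hy⟩ := nB
    exact ⟨_, Set.smul_mem_smul_set hx, _, Set.smul_mem_smul_set hy, by simp⟩
  rw [← measure_toMeasurable (t • A + (1 - t) • B)]
  have hC := measurableSet_toMeasurable nu (t • A + (1 - t) • B)
  have hs := subset_toMeasurable nu (t • A + (1 - t) • B)
  generalize toMeasurable nu (t • A + (1 - t) • B) = C at hC hs
  rw [nu, Measure.map_apply e.symm.measurable hA, Measure.map_apply e.symm.measurable hB,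
    Measure.map_apply e.symm.measurable hC]
  refine mu_quasi (e.symm.measurable hA) (e.symm.measurable hB) (e.symm.measurable hC) h0 h1
    fun x hx y hy => hs ?_
  have : e.symm (t • x + (1 - t) • y) = t • e.symm x + (1 - t) • e.symm y := by
    ext i
    fin_cases i <;> simp [es]
  rw [this]
  exact Set.add_mem_add (Set.smul_mem_smul_set hx) (Set.smul_mem_smul_set hy)

lemma nu_lin (v : Fin 2 → ℝ) :
    nu.map (fun x => ∑ i, v i * x i) = mu.map (fun x => v 0 * x.1 + v 1 * x.2) := by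
  rw [nu, Measure.map_map (by fun_prop) e.symm.measurable]
  congr 1
  ext x
  simp [es, Fin.sum_univ_two]

noncomputable def g (v : Fin 2 → ℝ) : ℝ → ℝ≥0∞ :=
  (mu.map (fun x => v 0 * x.1 + v 1 * x.2)).rnDeriv volume

lemma g_good {v : Fin 2 → ℝ} (hv : v ≠ 0) :
    mu.map (fun x => v 0 * x.1 + v 1 * x.2) = volume.withDensity (g v)
      ∧ (∫⁻ x, g v x ^ 2) ≠ 0 ∧ (∫⁻ x, g v x ^ 2) ≠ ⊤ := by
  have h : v 0 ≠ 0 ∨ v 1 ≠ 0 := by
    by_contra hc
    push Not at hc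
    exact hv (funext fun i => by fin_cases i <;> simp [hc.1, hc.2])
  obtain ⟨c, hc, h2⟩ := lin_le _ _ h
  have : IsProbabilityMeasure (mu.map (fun x => v 0 * x.1 + v 1 * x.2)) :=
    Measure.isProbabilityMeasure_map (by fun_prop)
  exact bdd_dens hc h2

lemma g_int {v : Fin 2 → ℝ} {f : ℝ → ℝ≥0∞} (hf : Measurable f)
    (h : mu.map (fun x => v 0 * x.1 + v 1 * x.2) = volume.withDensity f) :
    ∫⁻ x, g v x ^ 2 = ∫⁻ x, f x ^ 2 := by
  refine lintegral_congr_ae ?_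
  filter_upwards [Measure.rnDeriv_withDensity (volume : Measure ℝ) hf] with x hx
  rw [g, h, hx]

noncomputable def NN (v : Fin 2 → ℝ) : ℝ≥0∞ := (∫⁻ x, g v x ^ 2)⁻¹ ^ 2

open Classical in
noncomputable def nr (v : Fin 2 → ℝ) : ℝ := if v = 0 then 0 else Real.sqrt (NN v).toReal

lemma nr_eq {v : Fin 2 → ℝ} (hv : v ≠ 0) : nr v = ((∫⁻ x, g v x ^ 2)⁻¹).toReal := by
  rw [nr, if_neg hv, NN, ENNReal.toReal_pow, Real.sqrt_sq ENNReal.toReal_nonneg]


/-- The negation of the preceding statement: For every n≥1, p in [0,∞], κ in [−∞,1/n] and every symmetric κ-concave probability law on ℝⁿ with a density whose marginals v·X have p-Rényi entropy power in (0,∞), the map v ↦ N_p(v·X)^{1/2} (0 at v=0) is a norm. -/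
theorem result :
    ¬ (∀ (n : ℕ), 1 ≤ n →
  ∀ (p : ℝ≥0∞) (κ : EReal), κ ≤ (((1 : ℝ) / (n : ℝ) : ℝ) : EReal) →
  ∀ (μ : Measure (Fin n → ℝ)), IsProbabilityMeasure μ → μ ≪ volume →
  μ.map (fun x => -x) = μ →
  (∀ (A B : Set (Fin n → ℝ)), MeasurableSet A → MeasurableSet B → A.Nonempty → B.Nonempty →
    ∀ t : ℝ, 0 ≤ t → t ≤ 1 →
      (κ = ⊥ → min (μ A) (μ B) ≤ μ (t • A + (1 - t) • B)) ∧
      (κ = 0 → ENNReal.ofReal ((μ A).toReal ^ t * (μ B).toReal ^ (1 - t))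
                  ≤ μ (t • A + (1 - t) • B)) ∧
      (κ ≠ ⊥ → κ ≠ 0 → (0 < κ ∨ (0 < μ A ∧ 0 < μ B)) →
        ENNReal.ofReal ((t * (μ A).toReal ^ κ.toReal + (1 - t) * (μ B).toReal ^ κ.toReal)
                          ^ (1 / κ.toReal))
          ≤ μ (t • A + (1 - t) • B))) →
  ∀ (g : (Fin n → ℝ) → ℝ → ℝ≥0∞),
    (∀ v : Fin n → ℝ, v ≠ 0 → Measurable (g v) ∧
      μ.map (fun x => ∑ i, v i * x i) = (volume : Measure ℝ).withDensity (g v)) →
  ∀ (N : (Fin n → ℝ) → ℝ≥0∞),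
    (p = 0 → ∀ v, N v = (volume {x : ℝ | 0 < g v x}) ^ 2) →
    (p = 1 → ∀ v,
      (Integrable (fun x => (g v x).toReal * Real.log (g v x).toReal) →
        N v = ENNReal.ofReal (Real.exp (-2 * ∫ x, (g v x).toReal * Real.log (g v x).toReal))) ∧
      (¬ Integrable (fun x => (g v x).toReal * Real.log (g v x).toReal) → N v = 0)) →
    (p = ⊤ → ∀ v, N v = (essSup (g v) volume) ^ (-2 : ℝ)) →
    (p ≠ 0 → p ≠ 1 → p ≠ ⊤ → ∀ v,
      N v = (∫⁻ x, g v x ^ p.toReal) ^ (2 / (1 - p.toReal))) →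
    (∀ v : Fin n → ℝ, v ≠ 0 → 0 < N v ∧ N v < ⊤) →
  ∀ (nrm : (Fin n → ℝ) → ℝ),
    (∀ v, (v = 0 → nrm v = 0) ∧ (v ≠ 0 → nrm v = Real.sqrt (N v).toReal)) →
    (∀ u v : Fin n → ℝ, nrm (u + v) ≤ nrm u + nrm v) ∧
    (∀ (c : ℝ) (v : Fin n → ℝ), nrm (c • v) = |c| * nrm v) ∧
    (∀ v : Fin n → ℝ, nrm v = 0 → v = 0)) := by
  intro H
  have h1 := (H 2 (by norm_num) 2 ⊥ bot_le nu inferInstance nu_ac nu_neg
    (fun A B hA hB nA nB t h0 h1 => ⟨fun _ => nu_quasi hA hB nA nB h0 h1,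
      fun h => absurd h (by simp), fun h => absurd rfl h⟩)
    g (fun v hv => ⟨Measure.measurable_rnDeriv _ _, by rw [nu_lin]; exact (g_good hv).1⟩)
    NN (fun h => absurd h (by norm_num)) (fun h => absurd h (by norm_num))
    (fun h => absurd h (by norm_num))
    (fun _ _ _ v => by
      have e1 : (2 / (1 - (2 : ℝ≥0∞).toReal) : ℝ) = -2 := by norm_num
      rw [e1, ENNReal.rpow_neg, NN, ← ENNReal.inv_pow]
      simp)
    (fun v hv => ⟨ENNReal.pow_pos (ENNReal.inv_pos.2 (g_good hv).2.2) 2,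
      ENNReal.pow_lt_top (ENNReal.inv_lt_top.2 (pos_iff_ne_zero.2 (g_good hv).2.1))⟩)
    nr (fun v => ⟨fun h => if_pos h, fun h => if_neg h⟩)).1 ![1, 0] ![0, 1]
  have n1 : (![1, 0] : Fin 2 → ℝ) ≠ 0 := fun h => by simpa using congrFun h 0
  have n2 : (![0, 1] : Fin 2 → ℝ) ≠ 0 := fun h => by simpa using congrFun h 1
  have n3 : (![1, 0] + ![0, 1] : Fin 2 → ℝ) ≠ 0 := fun h => by simpa using congrFun h 0
  have f1 := ENNReal.inv_ne_top.2 (g_good n1).2.1
  have f2 := ENNReal.inv_ne_top.2 (g_good n2).2.1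
  have f3 := ENNReal.inv_ne_top.2 (g_good n3).2.1
  rw [nr_eq n1, nr_eq n2, nr_eq n3, ← ENNReal.toReal_add f1 f2,
    ENNReal.toReal_le_toReal f3 (ENNReal.add_ne_top.2 ⟨f1, f2⟩),
    g_int (v := ![1, 0]) h_meas.ennreal_ofReal (by rw [← map_fst]; simp),
    g_int (v := ![0, 1]) u_meas.ennreal_ofReal (by rw [← map_snd]; simp),
    g_int (v := ![1, 0] + ![0, 1]) (q_meas.const_mul k) (by rw [← map_add]; simp)] at h1
  exact fail h1

end Pool.Agent.S19478
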