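import Pool.Statements.S19482

set_option autoImplicit false
open MeasureTheory
open Pool Pool.MP_925b40_pr

namespace Pool.Agent.S19482

open scoped ENNReal NNReal

noncomputable abbrev P : Measure (ℕ → Bool) :=
  Measure.infinitePi (fun _ : ℕ => (PMF.uniformOfFintype Bool).toMeasure)

lemma meas_cyl (S : Finset ℕ) (v : ℕ → Bool) : MeasurableSet {ω : ℕ → Bool | ∀ t ∈ S, ω t = v t} := by
  have : {ω : ℕ → Bool | ∀ t ∈ S, ω t = v t} = Set.pi S (fun t => {v t}) := by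
    ext ω; simp [Set.mem_pi]
  rw [this]
  exact MeasurableSet.pi S.countable_toSet fun _ _ => measurableSet_singleton _

lemma P_cyl (S : Finset ℕ) (v : ℕ → Bool) :
    P {ω : ℕ → Bool | ∀ t ∈ S, ω t = v t} = (2⁻¹ : ℝ≥0∞) ^ S.card := by
  have : {ω : ℕ → Bool | ∀ t ∈ S, ω t = v t} = Set.pi S (fun t => {v t}) := by
    ext ω; simp [Set.mem_pi]
  rw [this, Measure.infinitePi_pi _ fun _ _ => measurableSet_singleton _]
  simp

/-- number of initial agreements -/
noncomputable def JJ (ω₁ ω₂ : ℕ → Bool) : ℝ≥0∞ :=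
  ∑' j : ℕ, Set.indicator {ω : ℕ → Bool | ∀ t ∈ Finset.range (j + 1), ω t = ω₁ t} 1 ω₂

noncomputable def bad (b : Bool) (ω₁ ω₂ : ℕ → Bool) : ℝ≥0∞ :=
  ∑' j : ℕ, Set.indicator {ω : ℕ → Bool | ∀ t ∈ ({j} : Finset ℕ), ω t = !b} 1 ω₁ *
    Set.indicator {ω : ℕ → Bool | ∀ t ∈ Finset.range (j + 1),
      ω t = Function.update ω₁ j b t} 1 ω₂

lemma geom : ∑' j : ℕ, (2⁻¹ : ℝ≥0∞) ^ (j + 1) = 1 := by
  simp only [pow_succ, ENNReal.tsum_mul_right, ENNReal.tsum_geometric]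
  rw [ENNReal.one_sub_inv_two, inv_inv, ENNReal.mul_inv_cancel] <;> simp

lemma meas_JJ (ω₁ : ℕ → Bool) : Measurable (JJ ω₁) :=
  Measurable.tsum fun _ => measurable_one.indicator (meas_cyl _ _)

lemma int_JJ (ω₁ : ℕ → Bool) : ∫⁻ ω₂, JJ ω₁ ω₂ ∂P = 1 := by
  unfold JJ
  rw [lintegral_tsum fun j => (measurable_one.indicator (meas_cyl _ _)).aemeasurable]
  simp only [lintegral_indicator_one (meas_cyl _ _), P_cyl, Finset.card_range, geom]

lemma ibad (b : Bool) (ω₁ : ℕ → Bool) : ∫⁻ ω₂, bad b ω₁ ω₂ ∂P = ∑' j : ℕ,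
      Set.indicator {ω : ℕ → Bool | ∀ t ∈ ({j} : Finset ℕ), ω t = !b} 1 ω₁ *
        (2⁻¹ : ℝ≥0∞) ^ (j + 1) := by
  unfold bad
  rw [lintegral_tsum fun j =>
    ((measurable_one.indicator (meas_cyl _ _)).const_mul _).aemeasurable]
  congr 1
  ext j
  rw [lintegral_const_mul _ (measurable_one.indicator (meas_cyl _ _)),
    lintegral_indicator_one (meas_cyl _ _), P_cyl, Finset.card_range]

lemma meas_ibad (b : Bool) : Measurable fun ω₁ => ∫⁻ ω₂, bad b ω₁ ω₂ ∂P := by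
  simp only [ibad]
  exact Measurable.tsum fun _ => (measurable_one.indicator (meas_cyl _ (fun _ => !b))).mul_const _

lemma int_bad (b : Bool) : ∫⁻ ω₁, ∫⁻ ω₂, bad b ω₁ ω₂ ∂P ∂P = 2⁻¹ := by
  simp only [ibad]
  rw [lintegral_tsum fun j =>
      ((measurable_one.indicator (meas_cyl _ (fun _ => !b))).mul_const _).aemeasurable]
  have h2 : ∀ j : ℕ, ∫⁻ ω₁, Set.indicator {ω : ℕ → Bool | ∀ t ∈ ({j} : Finset ℕ), ω t = !b} 1 ω₁ *
        (2⁻¹ : ℝ≥0∞) ^ (j + 1) ∂P = 2⁻¹ * (2⁻¹ : ℝ≥0∞) ^ (j + 1) := by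
    intro j
    rw [lintegral_mul_const _ (measurable_one.indicator (meas_cyl _ (fun _ => !b))),
      lintegral_indicator_one (meas_cyl _ (fun _ => !b)), P_cyl _ (fun _ => !b)]
    simp
  simp only [h2, ENNReal.tsum_mul_left, geom, mul_one]

lemma JJ_eq (ω₁ ω₂ : ℕ → Bool) (N : ℕ) (h1 : ∀ t < N, ω₂ t = ω₁ t) (h2 : ω₂ N ≠ ω₁ N) :
    JJ ω₁ ω₂ = N := by
  unfold JJ
  rw [tsum_eq_sum (s := Finset.range N)]
  · rw [Finset.sum_congr rfl (g := fun _ => 1)]
    · simp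
    · intro j hj
      rw [Set.indicator_of_mem]
      · rfl
      · intro t ht
        simp only [Finset.mem_range] at hj ht
        exact h1 t (by omega)
  · intro j hj
    rw [Set.indicator_of_notMem]
    intro h
    simp only [Finset.mem_range] at hj
    exact h2 (h N (by simp only [Finset.mem_range]; omega))

lemma JJ_top (ω : ℕ → Bool) : JJ ω ω = ⊤ := by
  unfold JJ
  have : ∀ j : ℕ, Set.indicator {ω' : ℕ → Bool | ∀ t ∈ Finset.range (j + 1), ω' t = ω t}
      (1 : (ℕ → Bool) → ℝ≥0∞) ω = 1 := fun j => by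
    rw [Set.indicator_of_mem]
    · rfl
    · intro t _; rfl
  simp only [this]
  exact ENNReal.tsum_const_eq_top_of_ne_zero one_ne_zero

lemma bad_ge (ω₁ ω₂ : ℕ → Bool) (N : ℕ) (h1 : ∀ t < N, ω₂ t = ω₁ t) (h2 : ω₂ N ≠ ω₁ N) :
    1 ≤ bad (ω₂ N) ω₁ ω₂ := by
  unfold bad
  refine le_trans ?_ (ENNReal.le_tsum N)
  rw [Set.indicator_of_mem, Set.indicator_of_mem]
  · simp
  · intro t ht
    simp only [Finset.mem_range] at ht
    by_cases h : t = N
    · rw [h, Function.update_self]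
    · rw [Function.update_of_ne h]; exact h1 t (by omega)
  · intro t ht
    simp only [Finset.mem_singleton] at ht
    rw [ht]
    revert h2
    cases ω₂ N <;> cases ω₁ N <;> simp

lemma first_diff (ω₁ ω₂ : ℕ → Bool) (h : ω₂ ≠ ω₁) :
    ∃ N, (∀ t < N, ω₂ t = ω₁ t) ∧ ω₂ N ≠ ω₁ N := by
  classical
  have h' : ∃ N, ω₂ N ≠ ω₁ N := Function.ne_iff.1 h
  exact ⟨Nat.find h', fun t ht => not_not.1 (Nat.find_min h' ht), Nat.find_spec h'⟩

lemma lin (p q c s : ℝ) (hpq : p ≤ q) (h : ∀ x ∈ Set.Ioc p q, 0 ≤ c + s * x) :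
    ∫⁻ x in Set.Ioc p q, ENNReal.ofReal (c + s * x) =
      ENNReal.ofReal ((q - p) * c + s * (q ^ 2 - p ^ 2) / 2) := by
  rw [← ofReal_integral_eq_lintegral_ofReal]
  · rw [← intervalIntegral.integral_of_le hpq]
    congr 1
    rw [intervalIntegral.integral_add (by simp) (by
      exact (continuous_const.mul continuous_id).intervalIntegrable _ _)]
    rw [intervalIntegral.integral_const_mul, integral_id]
    simp [mul_div_assoc]
  · exact (continuous_const.add (continuous_const.mul continuous_id)).integrableOn_Ioc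
  · exact (ae_restrict_iff' measurableSet_Ioc).2 (Filter.Eventually.of_forall h)

noncomputable def uu (ω : ℕ → Bool) (τ : NNReal) : ℝ :=
  (∑ j ∈ Finset.range ⌊2 * (τ : ℝ)⌋₊, (if ω j then (1 / 2 : ℝ) else -1 / 2))
    + (if ω ⌊2 * (τ : ℝ)⌋₊ then (1 : ℝ) else -1) * ((τ : ℝ) - (⌊2 * (τ : ℝ)⌋₊ : ℝ) / 2)

noncomputable def TT (f g : NNReal → UnitAddCircle) (a : UnitAddCircle) : ℝ≥0∞ :=
  ⨅ (τ : NNReal) (_ : a + f τ = g τ), (τ : ℝ≥0∞)

lemma coe_eq {x y : ℝ} (h : (x : UnitAddCircle) = y) : ∃ k : ℤ, x - y = k := by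
  have : ((x - y : ℝ) : UnitAddCircle) = 0 := by rw [AddCircle.coe_sub, h, sub_self]
  obtain ⟨k, hk⟩ := (AddCircle.coe_eq_zero_iff (1 : ℝ)).1 this
  exact ⟨k, by simpa using hk.symm⟩

lemma no_int {y : ℝ} (k : ℤ) (h : y = k) (h0 : 0 < y) (h1 : y < 1) : False := by
  rw [h] at h0 h1
  have h2 : (0 : ℤ) < k := by exact_mod_cast h0
  have h3 : k < (1 : ℤ) := by exact_mod_cast h1
  omega

lemma meet (ω₁ ω₂ : ℕ → Bool) (N : ℕ) (h1 : ∀ t < N, ω₂ t = ω₁ t) (x : ℝ) (hx0 : 0 < x)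
    (hx1 : x < 1) (τ : NNReal)
    (h : (x : UnitAddCircle) + (uu ω₁ τ : ℝ) = (uu ω₂ τ : ℝ)) :
    (N : ℝ) / 2 + (if ω₂ N then x else 1 - x) / 2 ≤ τ ∨
      ((N : ℝ) / 2 ≤ τ ∧ ω₂ N = ω₁ N) := by
  rw [← AddCircle.coe_add] at h
  obtain ⟨k, hk⟩ := coe_eq h
  have hτ : (0 : ℝ) ≤ 2 * τ := by positivity
  have f1 := Nat.floor_le hτ
  have f2 := Nat.lt_floor_add_one (2 * (τ : ℝ))
  unfold uu at hk
  generalize ⌊2 * (τ : ℝ)⌋₊ = n at hk f1 f2
  rcases lt_trichotomy n N with hn | hn | hn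
  · exfalso
    rw [Finset.sum_congr rfl (fun j hj => by
      rw [← h1 j (by simp only [Finset.mem_range] at hj; omega)]), h1 n hn] at hk
    exact no_int k (y := x) (by linarith) hx0 hx1
  · subst hn
    rw [Finset.sum_congr rfl (fun j hj => by
      rw [← h1 j (by simpa only [Finset.mem_range] using hj)])] at hk
    by_cases h2 : ω₂ n = ω₁ n
    · right; exact ⟨by linarith, h2⟩
    · left
      by_contra hc
      cases h3 : ω₂ n
      · have h4 : ω₁ n = true := by simpa [h3] using h2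
        simp only [h3, h4, if_true, Bool.false_eq_true, if_false] at hk hc
        exact no_int k (y := x + 2 * ((τ : ℝ) - n / 2)) (by linarith) (by linarith) (by linarith)
      · have h4 : ω₁ n = false := by simpa [h3] using h2
        simp only [h3, h4, if_true, Bool.false_eq_true, if_false] at hk hc
        exact no_int k (y := x - 2 * ((τ : ℝ) - n / 2)) (by linarith) (by linarith) (by linarith)
  · left
    have : (N : ℝ) + 1 ≤ n := by exact_mod_cast hn
    split_ifs <;> linarith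

lemma lb_pair (ω₁ ω₂ : ℕ → Bool) : JJ ω₁ ω₂ * 2⁻¹ + 4⁻¹ ≤
    ∫⁻ a, TT (fun τ => (uu ω₁ τ : ℝ)) (fun τ => (uu ω₂ τ : ℝ)) a := by
  rw [← UnitAddCircle.lintegral_preimage 0, zero_add, ← restrict_Ioo_eq_restrict_Ioc]
  by_cases h : ω₂ = ω₁
  · subst h
    have : ∫⁻ _ in Set.Ioo (0 : ℝ) 1, (⊤ : ℝ≥0∞) = ⊤ := by simp
    refine le_top.trans (this.ge.trans (setLIntegral_mono' measurableSet_Ioo fun x hx => ?_))
    refine le_iInf₂ fun τ hτ => ?_
    exfalso
    have h1 := meet ω₂ ω₂ (⌊2 * (τ : ℝ)⌋₊ + 1) (fun _ _ => rfl) x hx.1 hx.2 τ hτ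
    have f2 := Nat.lt_floor_add_one (2 * (τ : ℝ))
    have := hx.1
    have := hx.2
    push_cast at h1
    rcases h1 with h1 | h1
    · split_ifs at h1 <;> linarith
    · linarith [h1.1]
  · obtain ⟨N, h1, h2⟩ := first_diff _ _ h
    rw [JJ_eq _ _ N h1 h2]
    have e : ∀ c s : ℝ, c + s / 2 = N / 2 + 1 / 4 → (∀ x ∈ Set.Ioc (0 : ℝ) 1, 0 ≤ c + s * x) →
        (N : ℝ≥0∞) * 2⁻¹ + 4⁻¹ = ∫⁻ x in Set.Ioo (0 : ℝ) 1, ENNReal.ofReal (c + s * x) := by
      intro c s hcs hx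
      rw [restrict_Ioo_eq_restrict_Ioc, lin 0 1 c s zero_le_one hx,
        show (1 - 0) * c + s * (1 ^ 2 - 0 ^ 2) / 2 = (N : ℝ) * 2⁻¹ + 4⁻¹ by linarith,
        ENNReal.ofReal_add (by positivity) (by positivity), ENNReal.ofReal_mul (by positivity),
        ENNReal.ofReal_inv_of_pos (by positivity), ENNReal.ofReal_inv_of_pos (by positivity)]
      simp
    have hN : (0 : ℝ) ≤ N := Nat.cast_nonneg N
    cases h3 : ω₂ N
    · rw [e (N / 2 + 1 / 2) (-1 / 2) (by ring) (fun x hx => by linarith [hx.2])]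
      refine setLIntegral_mono' measurableSet_Ioo fun x hx => le_iInf₂ fun τ hτ => ?_
      rcases meet ω₁ ω₂ N h1 x hx.1 hx.2 τ hτ with h4 | h4
      · rw [← ENNReal.ofReal_coe_nnreal]
        apply ENNReal.ofReal_le_ofReal
        simp only [h3, Bool.false_eq_true, if_false] at h4
        linarith
      · exact absurd h4.2 h2
    · rw [e (N / 2) (1 / 2) (by ring) (fun x hx => by linarith [hx.1])]
      refine setLIntegral_mono' measurableSet_Ioo fun x hx => le_iInf₂ fun τ hτ => ?_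
      rcases meet ω₁ ω₂ N h1 x hx.1 hx.2 τ hτ with h4 | h4
      · rw [← ENNReal.ofReal_coe_nnreal]
        apply ENNReal.ofReal_le_ofReal
        simp only [h3, if_true] at h4
        linarith
      · exact absurd h4.2 h2

lemma lb : (3 / 4 : ℝ≥0∞) ≤
    ∫⁻ ω₁, ∫⁻ ω₂, ∫⁻ a, TT (fun τ => (uu ω₁ τ : ℝ)) (fun τ => (uu ω₂ τ : ℝ)) a ∂volume ∂P ∂P := by
  have h : ∀ ω₁, (3 / 4 : ℝ≥0∞) ≤
      ∫⁻ ω₂, ∫⁻ a, TT (fun τ => (uu ω₁ τ : ℝ)) (fun τ => (uu ω₂ τ : ℝ)) a ∂volume ∂P := by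
    intro ω₁
    refine le_trans ?_ (lintegral_mono fun ω₂ => lb_pair ω₁ ω₂)
    rw [lintegral_add_right _ measurable_const, lintegral_mul_const _ (meas_JJ _), int_JJ]
    simp only [lintegral_const, measure_univ, mul_one, one_mul]
    rw [← ENNReal.toReal_le_toReal (by finiteness) (by finiteness), ENNReal.toReal_add
      (by finiteness) (by finiteness)]
    norm_num
  refine le_trans ?_ (lintegral_mono h)
  simp

noncomputable def cl (t : ℝ) : ℝ := max 0 (min t (1 / 4))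

def sg (b : Bool) : ℝ := if b then 1 else -1

noncomputable def yN (N : ℕ) (e : ℕ → Bool) (τ : ℝ) : ℝ :=
  ∑ m ∈ Finset.range N, sg (e m) * cl (τ - m / 4)

noncomputable def yy (e : ℕ → Bool) (τ : ℝ) : ℝ := yN ⌈4 * τ⌉₊ e τ

lemma cl_zero {t : ℝ} (h : t ≤ 0) : cl t = 0 := by
  unfold cl
  rw [max_eq_left (min_le_of_left_le h)]

lemma cl_full {t : ℝ} (h : 1 / 4 ≤ t) : cl t = 1 / 4 := by
  unfold cl
  rw [min_eq_right h, max_eq_right (by norm_num)]

lemma cl_mid {t : ℝ} (h0 : 0 ≤ t) (h : t ≤ 1 / 4) : cl t = t := by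
  unfold cl
  rw [min_eq_left h, max_eq_right h0]

lemma cl_mono {s t : ℝ} (h : s ≤ t) : cl s ≤ cl t :=
  max_le_max le_rfl (min_le_min h le_rfl)

lemma yy_eq (e : ℕ → Bool) (τ : ℝ) (N : ℕ) (h : 4 * τ ≤ N) : yy e τ = yN N e τ := by
  unfold yy yN
  apply Finset.sum_subset
  · exact Finset.range_mono (Nat.ceil_le.2 h)
  · intro m _ hm
    simp only [Finset.mem_range, not_lt] at hm
    have := Nat.ceil_le.1 hm
    rw [cl_zero (by linarith), mul_zero]

lemma sum_cl (N : ℕ) (τ : ℝ) (h : 0 ≤ τ) :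
    ∑ m ∈ Finset.range N, cl (τ - m / 4) = min τ (N / 4) := by
  induction N with
  | zero => simp [h]
  | succ N ih =>
    rw [Finset.sum_range_succ, ih]
    push_cast
    rcases le_total τ (N / 4) with h1 | h1
    · rw [cl_zero (by linarith), min_eq_left h1, min_eq_left (by linarith), add_zero]
    · rcases le_total τ ((N + 1) / 4) with h2 | h2
      · rw [cl_mid (by linarith) (by linarith), min_eq_right h1, min_eq_left h2]; ring
      · rw [cl_full (by linarith), min_eq_right h1, min_eq_right h2]; ring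

lemma yy_lip (e : ℕ → Bool) {s t : ℝ} (hs : 0 ≤ s) (h : s ≤ t) : |yy e t - yy e s| ≤ t - s := by
  have h1 := Nat.le_ceil (4 * t)
  rw [yy_eq e t _ h1, yy_eq e s ⌈4 * t⌉₊ (by linarith)]
  unfold yN
  rw [← Finset.sum_sub_distrib]
  refine (Finset.abs_sum_le_sum_abs _ _).trans ?_
  have e1 := sum_cl ⌈4 * t⌉₊ t (by linarith)
  have e2 := sum_cl ⌈4 * t⌉₊ s hs
  rw [min_eq_left (by linarith)] at e1 e2
  rw [← e1, ← e2]
  conv_rhs => rw [← Finset.sum_sub_distrib]
  rw [e1, e2]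
  refine Finset.sum_le_sum fun m _ => ?_
  have := cl_mono (show s - m / 4 ≤ t - m / 4 by linarith)
  rw [← mul_sub, abs_mul, abs_of_nonneg (sub_nonneg.2 this)]
  cases e m <;> simp [sg]

lemma yy_cont : Continuous fun p : (ℕ → Bool) × ℝ≥0 => yy p.1 p.2 := by
  rw [continuous_iff_continuousAt]
  intro p
  have hc : Continuous fun q : (ℕ → Bool) × ℝ≥0 => yN (⌈4 * (p.2 : ℝ)⌉₊ + 1) q.1 q.2 := by
    unfold yN cl
    refine continuous_finsetSum _ fun m _ => Continuous.mul ?_ (by fun_prop)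
    exact (continuous_of_discreteTopology (f := sg)).comp (by fun_prop)
  refine hc.continuousAt.congr ?_
  have ho : IsOpen {q : (ℕ → Bool) × ℝ≥0 | 4 * (q.2 : ℝ) < (⌈4 * (p.2 : ℝ)⌉₊ + 1 : ℕ)} :=
    isOpen_lt (by fun_prop) continuous_const
  have hp : p ∈ {q : (ℕ → Bool) × ℝ≥0 | 4 * (q.2 : ℝ) < (⌈4 * (p.2 : ℝ)⌉₊ + 1 : ℕ)} := by
    have := Nat.le_ceil (4 * (p.2 : ℝ))
    simp only [Set.mem_ofPred_eq]
    push_cast
    linarith
  filter_upwards [ho.mem_nhds hp] with q hq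
  exact (yy_eq _ _ _ hq.le).symm

noncomputable def pth (e : ℕ → Bool) : C(ℝ≥0, UnitAddCircle) :=
  ⟨fun τ => (yy e τ : ℝ), (AddCircle.continuous_mk' 1).comp
    (yy_cont.comp (continuous_const.prodMk continuous_id))⟩

lemma pth_cont : Continuous pth :=
  ContinuousMap.continuous_of_continuous_uncurry _ ((AddCircle.continuous_mk' 1).comp yy_cont)

lemma pth_lip (e : ℕ → Bool) : LipschitzWith 1 (pth e) ∧ pth e 0 = 0 := by
  constructor
  · refine LipschitzWith.of_dist_le_mul fun s t => ?_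
    have h : ∀ x y : ℝ, dist (x : UnitAddCircle) (y : UnitAddCircle) ≤ |x - y| := by
      intro x y
      rw [dist_eq_norm, ← AddCircle.coe_sub]
      exact QuotientAddGroup.norm_mk_le_norm
    refine (h _ _).trans ?_
    rw [NNReal.dist_eq, NNReal.coe_one, one_mul]
    rcases le_total (s : ℝ) t with h1 | h1
    · rw [abs_sub_comm, abs_sub_comm (s : ℝ), abs_of_nonneg (sub_nonneg.2 h1)]
      exact yy_lip e s.2 h1
    · rw [abs_of_nonneg (sub_nonneg.2 h1)]
      exact yy_lip e t.2 h1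
  · show ((yy e ((0 : ℝ≥0) : ℝ) : ℝ) : UnitAddCircle) = 0
    simp [yy, yN]

def kk (e e' : ℕ → Bool) : ℕ → ℤ
  | 0 => 0
  | m + 1 => kk e e' m + if e' m = e m then 0 else if e' m then 1 else -1

lemma yy_diff (e e' : ℕ → Bool) (m : ℕ) (t : ℝ) (h0 : 0 ≤ t) (h1 : t ≤ 1 / 4) :
    yy e' (m / 4 + t) - yy e (m / 4 + t) = kk e e' m / 2 + (sg (e' m) - sg (e m)) * t := by
  rw [yy_eq e' _ (m + 1) (by push_cast; linarith), yy_eq e _ (m + 1) (by push_cast; linarith)]
  unfold yN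
  rw [Finset.sum_range_succ, Finset.sum_range_succ, add_sub_cancel_left, cl_mid h0 h1]
  have : ∀ n ≤ m, ∑ j ∈ Finset.range n, sg (e' j) * cl (m / 4 + t - j / 4) -
      ∑ j ∈ Finset.range n, sg (e j) * cl (m / 4 + t - j / 4) = kk e e' n / 2 := by
    intro n hn
    induction n with
    | zero => simp [kk]
    | succ n ih =>
      have h2 : (n : ℝ) + 1 ≤ m := by exact_mod_cast hn
      have := ih (by omega)
      rw [Finset.sum_range_succ, Finset.sum_range_succ, cl_full (by linarith), kk]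
      push_cast
      cases e n <;> cases e' n <;> simp [sg] at * <;> linarith
  have := this m le_rfl
  linarith

def cov (e e' : ℕ → Bool) (m : ℕ) (h : ℤ) : Prop :=
  e' m ≠ e m ∧ (kk e e' m - (if e' m then 0 else 1) - h) % 2 = 0

instance (e e' : ℕ → Bool) (m : ℕ) (h : ℤ) : Decidable (cov e e' m h) := by
  unfold cov; infer_instance

lemma half (e e' : ℕ → Bool) (m : ℕ) (h : ℤ) (hc : cov e e' m h) :
    ∫⁻ x in Set.Ioc ((h : ℝ) / 2) (h / 2 + 1 / 2), TT (pth e) (pth e') x ≤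
      (m : ℝ≥0∞) * 8⁻¹ + 16⁻¹ := by
  have hm : (0 : ℝ) ≤ m := Nat.cast_nonneg m
  have key : ∀ (x t : ℝ) (k : ℤ), 0 ≤ t → t ≤ 1 / 4 →
      kk e e' m / 2 + (sg (e' m) - sg (e m)) * t = x + k →
      TT (pth e) (pth e') x ≤ ENNReal.ofReal (m / 4 + t) := by
    intro x t k h0 h1 h2
    refine iInf₂_le_of_le (Real.toNNReal (m / 4 + t)) ?_ le_rfl
    show (x : UnitAddCircle) + (yy e (Real.toNNReal (m / 4 + t)) : ℝ) =
      (yy e' (Real.toNNReal (m / 4 + t)) : ℝ)
    rw [Real.coe_toNNReal _ (by positivity)]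
    have h3 := yy_diff e e' m t h0 h1
    have h4 : ((k : ℝ) : UnitAddCircle) = 0 := (AddCircle.coe_eq_zero_iff (1 : ℝ)).2 ⟨k, by simp⟩
    rw [show yy e' (m / 4 + t) = x + yy e (m / 4 + t) + k by linarith, AddCircle.coe_add,
      AddCircle.coe_add, h4, add_zero]
  have e1 : (m : ℝ≥0∞) * 8⁻¹ + 16⁻¹ = ENNReal.ofReal ((m : ℝ) * 8⁻¹ + 16⁻¹) := by
    rw [ENNReal.ofReal_add (by positivity) (by positivity), ENNReal.ofReal_mul (by positivity),
        ENNReal.ofReal_inv_of_pos (by positivity), ENNReal.ofReal_inv_of_pos (by positivity)]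
    simp
  obtain ⟨h1, h2⟩ := hc
  obtain ⟨k, hk⟩ := Int.dvd_of_emod_eq_zero h2
  have hk' := congrArg (Int.cast : ℤ → ℝ) hk
  cases h3 : e' m
  · have h4 : e m = true := by simpa [h3] using h1
    simp only [h3, Bool.false_eq_true, if_false] at hk'
    push_cast at hk'
    refine (setLIntegral_mono' (g := fun x => ENNReal.ofReal ((m / 4 + h / 4 + 1 / 4) + (-1 / 2) * x))
      measurableSet_Ioc fun x hx => ?_).trans ?_
    · refine (key x ((h / 2 + 1 / 2 - x) / 2) k (by linarith [hx.2]) (by linarith [hx.1])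
        (by simp only [h3, h4, sg, if_true, Bool.false_eq_true, if_false]; linarith)).trans
        (le_of_eq ?_)
      congr 1; ring
    · rw [lin _ _ _ _ (by linarith) (fun x hx => by linarith [hx.2]), e1]
      apply le_of_eq; congr 1; ring
  · have h4 : e m = false := by simpa [h3] using h1
    simp only [h3, if_true] at hk'
    push_cast at hk'
    refine (setLIntegral_mono' (g := fun x => ENNReal.ofReal ((m / 4 - h / 4) + (1 / 2) * x))
      measurableSet_Ioc fun x hx => ?_).trans ?_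
    · refine (key x ((x - h / 2) / 2) k (by linarith [hx.1]) (by linarith [hx.2])
        (by simp only [h3, h4, sg, if_true, Bool.false_eq_true, if_false]; linarith)).trans
        (le_of_eq ?_)
      congr 1; ring
    · rw [lin _ _ _ _ (by linarith) (fun x hx => by linarith [hx.1]), e1]
      apply le_of_eq; congr 1; ring

lemma whole (e e' : ℕ → Bool) (m0 m1 : ℕ) (h0 : cov e e' m0 0) (h1 : cov e e' m1 1) :
    ∫⁻ a, TT (pth e) (pth e') a ≤ ((m0 + m1 + 1 : ℕ) : ℝ≥0∞) * 8⁻¹ := by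
  rw [← UnitAddCircle.lintegral_preimage 0, zero_add,
    ← Set.Ioc_union_Ioc_eq_Ioc (show (0 : ℝ) ≤ 1 / 2 by norm_num) (by norm_num)]
  refine (lintegral_union_le _ _ _).trans ?_
  have a0 := half e e' m0 0 h0
  have a1 := half e e' m1 1 h1
  norm_num only at a0 a1
  refine (add_le_add a0 a1).trans (le_of_eq ?_)
  rw [← ENNReal.toReal_eq_toReal_iff' (by finiteness) (by finiteness)]
  push_cast
  simp (disch := finiteness) only [ENNReal.toReal_add, ENNReal.toReal_mul]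
  simp
  ring

def wd (i : Fin 16) (m : ℕ) : Bool := Nat.testBit ((![31, 31, 7, 7, 7, 27, 17, 17, 10, 10, 28, 28, 12, 16, 0, 0] : Fin 16 → ℕ) i) m

def EE (i : Fin 16) (ω : ℕ → Bool) (m : ℕ) : Bool := if m < 5 then wd i m else ω ((m - 5) / 2)

def fm (i k : Fin 16) (h : ℤ) : ℕ :=
  if cov (wd i) (wd k) 0 h then 0 else if cov (wd i) (wd k) 1 h then 1 else
  if cov (wd i) (wd k) 2 h then 2 else if cov (wd i) (wd k) 3 h then 3 else
  if cov (wd i) (wd k) 4 h then 4 else 5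

lemma fm_spec (i k : Fin 16) (h : ℤ) : fm i k h = 5 ∨
    (fm i k h < 5 ∧ cov (wd i) (wd k) (fm i k h) h) := by
  unfold fm
  split_ifs <;> simp [*]

lemma kk_pre (i k : Fin 16) (ω₁ ω₂ : ℕ → Bool) (m : ℕ) (hm : m ≤ 5) :
    kk (EE i ω₁) (EE k ω₂) m = kk (wd i) (wd k) m := by
  induction m with
  | zero => rfl
  | succ m ih => simp only [kk, ih (by omega), EE, show m < 5 by omega, if_true]

lemma kk_tail (i k : Fin 16) (ω₁ ω₂ : ℕ → Bool) (N : ℕ) (h1 : ∀ t < N, ω₂ t = ω₁ t) (m : ℕ)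
    (hm : m ≤ 2 * N) : kk (EE i ω₁) (EE k ω₂) (5 + m) = kk (wd i) (wd k) 5 := by
  induction m with
  | zero => exact kk_pre _ _ _ _ _ le_rfl
  | succ m ih =>
    rw [← add_assoc, kk, ih (by omega), if_pos, add_zero]
    simp only [EE, show ¬ (5 + m < 5) by omega, if_false]
    exact h1 _ (by omega)

def bd (i k : Fin 16) (h : ℤ) : Bool := decide ((kk (wd i) (wd k) 5 - h) % 2 = 1)

def uu5 (i k : Fin 16) (h : ℤ) : ℕ := if fm i k h = 5 then 1 else 0

noncomputable def GG (i k : Fin 16) (h : ℤ) (ω₁ ω₂ : ℕ → Bool) : ℝ≥0∞ :=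
  fm i k h + uu5 i k h * (2 * JJ ω₁ ω₂ + bad (bd i k h) ω₁ ω₂)

lemma GG_spec (i k : Fin 16) (h : ℤ) (ω₁ ω₂ : ℕ → Bool) : GG i k h ω₁ ω₂ = ⊤ ∨
    ∃ m : ℕ, cov (EE i ω₁) (EE k ω₂) m h ∧ (m : ℝ≥0∞) ≤ GG i k h ω₁ ω₂ := by
  rcases fm_spec i k h with h1 | ⟨h1, h2⟩
  · have hu : uu5 i k h = 1 := if_pos h1
    by_cases hω : ω₂ = ω₁
    · left
      simp [GG, hu, hω, JJ_top]
    · right
      obtain ⟨N, h3, h4⟩ := first_diff _ _ hω
      have e1 : ∀ (j : Fin 16) (ω : ℕ → Bool), EE j ω (5 + 2 * N) = ω N := fun j ω => by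
        simp only [EE, show ¬ (5 + 2 * N < 5) by omega, if_false]
        congr 1; omega
      have e2 : ∀ (j : Fin 16) (ω : ℕ → Bool), EE j ω (5 + 2 * N + 1) = ω N := fun j ω => by
        simp only [EE, show ¬ (5 + 2 * N + 1 < 5) by omega, if_false]
        congr 1; omega
      have e3 := kk_tail i k ω₁ ω₂ N h3 (2 * N) le_rfl
      unfold GG
      rw [h1, hu, JJ_eq _ _ N h3 h4]
      by_cases hb : ω₂ N = bd i k h
      · refine ⟨5 + 2 * N + 1, ⟨by rwa [e2, e2], ?_⟩, ?_⟩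
        · rw [kk, e3, e1, e1, e2, if_neg h4, hb]
          unfold bd
          by_cases h5 : (kk (wd i) (wd k) 5 - h) % 2 = 1
          · simp only [h5, decide_true, if_true]; omega
          · simp only [h5, decide_false, Bool.false_eq_true, if_false]; omega
        · have := bad_ge _ _ N h3 h4
          rw [hb] at this
          push_cast
          rw [one_mul, add_assoc]
          gcongr
      · refine ⟨5 + 2 * N, ⟨by rwa [e1, e1], ?_⟩, ?_⟩
        · rw [e3, e1]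
          unfold bd at hb
          by_cases h5 : (kk (wd i) (wd k) 5 - h) % 2 = 1
          · simp only [h5, decide_true, Bool.not_eq_true] at hb
            simp only [hb, Bool.false_eq_true, if_false]; omega
          · simp only [h5, decide_false, Bool.not_eq_false] at hb
            simp only [hb, if_true]; omega
        · push_cast
          rw [one_mul]
          gcongr
          exact le_self_add
  · right
    refine ⟨fm i k h, ?_, le_self_add⟩
    unfold cov at h2 ⊢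
    rw [kk_pre _ _ _ _ _ h1.le]
    simpa only [EE, h1, if_true] using h2

lemma ub_pair (i k : Fin 16) (ω₁ ω₂ : ℕ → Bool) :
    ∫⁻ a, TT (pth (EE i ω₁)) (pth (EE k ω₂)) a ≤ (GG i k 0 ω₁ ω₂ + GG i k 1 ω₁ ω₂ + 1) * 8⁻¹ := by
  rcases GG_spec i k 0 ω₁ ω₂ with h0 | ⟨m0, h0, h0'⟩
  · simp [h0]
  rcases GG_spec i k 1 ω₁ ω₂ with h1 | ⟨m1, h1, h1'⟩
  · simp [h1]
  refine (whole _ _ m0 m1 h0 h1).trans ?_
  push_cast
  gcongr

lemma meas_bad (b : Bool) (ω₁ : ℕ → Bool) : Measurable (bad b ω₁) :=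
  Measurable.tsum fun _ => (measurable_one.indicator (meas_cyl _ _)).const_mul _

lemma meas_GG (i k : Fin 16) (h : ℤ) (ω₁ : ℕ → Bool) : Measurable (GG i k h ω₁) :=
  ((((meas_JJ ω₁).const_mul _).add (meas_bad _ _)).const_mul _).const_add _

lemma inner_GG (i k : Fin 16) (h : ℤ) (ω₁ : ℕ → Bool) : ∫⁻ ω₂, GG i k h ω₁ ω₂ ∂P =
    fm i k h + uu5 i k h * (2 + ∫⁻ ω₂, bad (bd i k h) ω₁ ω₂ ∂P) := by
  unfold GG
  rw [lintegral_add_left measurable_const, lintegral_const_mul' _ _ (by finiteness),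
    lintegral_add_left ((meas_JJ ω₁).const_mul _), lintegral_const_mul _ (meas_JJ _), int_JJ]
  simp

noncomputable def HH (i k : Fin 16) (ω₁ : ℕ → Bool) : ℝ≥0∞ :=
  ((fm i k 0 + uu5 i k 0 * (2 + ∫⁻ ω₂, bad (bd i k 0) ω₁ ω₂ ∂P)) +
    (fm i k 1 + uu5 i k 1 * (2 + ∫⁻ ω₂, bad (bd i k 1) ω₁ ω₂ ∂P)) + 1) * 8⁻¹

lemma ub_inner (i k : Fin 16) (ω₁ : ℕ → Bool) :
    ∫⁻ ω₂, ∫⁻ a, TT (pth (EE i ω₁)) (pth (EE k ω₂)) a ∂volume ∂P ≤ HH i k ω₁ := by
  refine (lintegral_mono fun ω₂ => ub_pair i k ω₁ ω₂).trans (le_of_eq ?_)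
  rw [lintegral_mul_const' _ _ (by finiteness),
    lintegral_add_right _ measurable_const, lintegral_add_left (meas_GG _ _ _ _),
    inner_GG, inner_GG]
  simp [HH]

lemma meas_h (i k : Fin 16) (h : ℤ) : Measurable fun ω₁ =>
    (fm i k h + uu5 i k h * (2 + ∫⁻ ω₂, bad (bd i k h) ω₁ ω₂ ∂P) : ℝ≥0∞) :=
  (((meas_ibad _).const_add _).const_mul _).const_add _

lemma meas_HH (i k : Fin 16) : Measurable (HH i k) :=
  (((meas_h i k 0).add (meas_h i k 1)).add_const _).mul_const _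

lemma int_HH (i k : Fin 16) : ∫⁻ ω₁, HH i k ω₁ ∂P =
      ((2 * fm i k 0 + 5 * uu5 i k 0 + 2 * fm i k 1 + 5 * uu5 i k 1 + 2 : ℕ) : ℝ≥0∞) * 16⁻¹ := by
  have h3 : ∀ h : ℤ, ∫⁻ ω₁, (fm i k h + uu5 i k h * (2 + ∫⁻ ω₂, bad (bd i k h) ω₁ ω₂ ∂P)) ∂P =
      fm i k h + uu5 i k h * (2 + 2⁻¹) := by
    intro h
    rw [lintegral_add_left measurable_const, lintegral_const_mul _ ((meas_ibad _).const_add _),
      lintegral_add_left measurable_const, int_bad]
    simp
  unfold HH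
  rw [lintegral_mul_const' _ _ (by finiteness),
      lintegral_add_right _ measurable_const, lintegral_add_left (meas_h i k 0), h3, h3]
  simp only [lintegral_const, measure_univ, mul_one]
  rw [← ENNReal.toReal_eq_toReal_iff' (by finiteness) (by finiteness)]
  push_cast
  simp (disch := finiteness) only [ENNReal.toReal_add, ENNReal.toReal_mul]
  simp
  ring

lemma total : ∑ i : Fin 16, ∑ k : Fin 16,
    (2 * fm i k 0 + 5 * uu5 i k 0 + 2 * fm i k 1 + 5 * uu5 i k 1 + 2) = 3048 := by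
  decide +kernel

lemma EE_cont (i : Fin 16) : Continuous (EE i) := by
  refine continuous_pi fun m => ?_
  unfold EE
  split_ifs
  · exact continuous_const
  · exact continuous_apply _

theorem main : ∃ μ : @Measure C(NNReal, UnitAddCircle) (borel C(NNReal, UnitAddCircle)),
    IsProbabilityMeasure μ ∧
    (∀ᵐ (f : C(NNReal, UnitAddCircle)) ∂μ, LipschitzWith 1 (⇑f) ∧ f 0 = 0) ∧
    ∫⁻ f, ∫⁻ g, ∫⁻ a, TT f g a ∂volume ∂μ ∂μ < 3 / 4 := by
  let _ : MeasurableSpace C(NNReal, UnitAddCircle) := borel _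
  have _ : BorelSpace C(NNReal, UnitAddCircle) := ⟨rfl⟩
  have hm : ∀ i, Measurable fun ω => pth (EE i ω) := fun i =>
    (pth_cont.comp (EE_cont i)).measurable
  have hp : ∀ i, IsProbabilityMeasure (P.map fun ω => pth (EE i ω)) := fun i =>
    Measure.isProbabilityMeasure_map (hm i).aemeasurable
  have hint : ∀ F : C(NNReal, UnitAddCircle) → ℝ≥0∞,
      ∫⁻ f, F f ∂((16⁻¹ : ℝ≥0∞) • ∑ i : Fin 16, P.map fun ω => pth (EE i ω)) ≤
        16⁻¹ * ∑ i : Fin 16, ∫⁻ ω, F (pth (EE i ω)) ∂P := by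
    intro F
    rw [lintegral_smul_measure, lintegral_finsetSum_measure, smul_eq_mul]
    gcongr with i
    exact lintegral_map_le _ _
  refine ⟨(16⁻¹ : ℝ≥0∞) • ∑ i : Fin 16, P.map fun ω => pth (EE i ω), ⟨?_⟩, ?_, ?_⟩
  · simp only [Measure.smul_apply, Measure.finsetSum_apply, measure_univ]
    simp [ENNReal.inv_mul_cancel]
  · apply Measure.ae_smul_measure
    rw [← Measure.sum_fintype, Measure.ae_sum_iff]
    intro i
    rw [ae_map_iff (hm i).aemeasurable]
    · exact Filter.Eventually.of_forall fun ω => pth_lip _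
    · apply IsClosed.measurableSet
      rw [Set.ofPred_and]
      refine IsClosed.inter ?_ (isClosed_eq (continuous_eval_const _) continuous_const)
      unfold LipschitzWith
      simp only [Set.ofPred_forall]
      exact isClosed_iInter fun x => isClosed_iInter fun y => isClosed_le
        ((continuous_eval_const _).edist (continuous_eval_const _)) continuous_const
  · refine (hint _).trans_lt ?_
    have h1 : ∀ i : Fin 16, ∫⁻ ω₁, ∫⁻ g, ∫⁻ a, TT (pth (EE i ω₁)) g a ∂volume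
        ∂((16⁻¹ : ℝ≥0∞) • ∑ i : Fin 16, P.map fun ω => pth (EE i ω)) ∂P ≤ 16⁻¹ * ∑ k : Fin 16,
      ((2 * fm i k 0 + 5 * uu5 i k 0 + 2 * fm i k 1 + 5 * uu5 i k 1 + 2 : ℕ) : ℝ≥0∞) * 16⁻¹ := by
      intro i
      refine (lintegral_mono fun ω₁ => (hint _).trans (mul_le_mul_right
        (Finset.sum_le_sum fun k _ => ub_inner i k ω₁) _)).trans (le_of_eq ?_)
      rw [lintegral_const_mul' _ _ (by finiteness),
        lintegral_finsetSum _ fun k _ => meas_HH i k]
      simp only [int_HH]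
    refine (mul_le_mul_right (Finset.sum_le_sum fun i _ => h1 i) _).trans_lt ?_
    simp only [← Finset.mul_sum, ← Finset.sum_mul, ← Nat.cast_sum, total]
    rw [← ENNReal.toReal_lt_toReal (by finiteness) (by finiteness)]
    simp
    norm_num


theorem result :
    ¬ (∀ μ : @Measure C(NNReal, UnitAddCircle) (borel C(NNReal, UnitAddCircle)),
      IsProbabilityMeasure μ →
      (∀ᵐ (f : C(NNReal, UnitAddCircle)) ∂μ, LipschitzWith 1 (⇑f) ∧ f 0 = 0) →
      (∫⁻ ω₁ : ℕ → Bool,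
          (∫⁻ ω₂ : ℕ → Bool,
              (∫⁻ a : UnitAddCircle,
                ⨅ (τ : NNReal)
                  (_ : a + (((∑ j ∈ Finset.range ⌊2 * (τ : ℝ)⌋₊,
                              (if ω₁ j then (1 / 2 : ℝ) else -1 / 2))
                            + (if ω₁ ⌊2 * (τ : ℝ)⌋₊ then (1 : ℝ) else -1)
                              * ((τ : ℝ) - (⌊2 * (τ : ℝ)⌋₊ : ℝ) / 2) : ℝ) : UnitAddCircle)
                      = (((∑ j ∈ Finset.range ⌊2 * (τ : ℝ)⌋₊,
                              (if ω₂ j then (1 / 2 : ℝ) else -1 / 2))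
                            + (if ω₂ ⌊2 * (τ : ℝ)⌋₊ then (1 : ℝ) else -1)
                              * ((τ : ℝ) - (⌊2 * (τ : ℝ)⌋₊ : ℝ) / 2) : ℝ) : UnitAddCircle)),
                  ((τ : ENNReal)))
            ∂(Measure.infinitePi (fun _ : ℕ => (PMF.uniformOfFintype Bool).toMeasure)))
        ∂(Measure.infinitePi (fun _ : ℕ => (PMF.uniformOfFintype Bool).toMeasure)))
      ≤ ∫⁻ (f : C(NNReal, UnitAddCircle)), (∫⁻ (g : C(NNReal, UnitAddCircle)),
            (∫⁻ a : UnitAddCircle,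
              ⨅ (τ : NNReal) (_ : a + f τ = g τ), ((τ : ENNReal))) ∂μ) ∂μ) := by
  intro h
  obtain ⟨μ, h1, h2, h3⟩ := main
  exact absurd (lb.trans (h μ h1 h2)) (not_le.2 h3)

end Pool.Agent.S19482
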