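import Pool.Statements.S19489
import Pool.Agent.Lib.helper30.TasepMain

set_option autoImplicit false
open Classical
open Pool Pool.MP_9492fd_pr

namespace Pool.Agent.S19489

/-- In the n-species TASEP on a ring of n sites (larger species at a site swaps with a smaller one to its right at rate 1), any stationary law gives probability 1/n^r that sites 1..r carry i_1..i_r whenever i_a+1<i_{a+1}. -/
theorem result :
    ∀ n : ℕ, ∀ π : Equiv.Perm (Fin n) → ℝ,
      (∀ σ, 0 ≤ π σ) →
      (∑ σ, π σ) = 1 →
      (∀ σ : Equiv.Perm (Fin n),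
        (∑ k : Fin n, (if σ (finRotate n k) < σ k then π σ else 0)) =
          ∑ k : Fin n, (if σ k < σ (finRotate n k)
            then π (σ * Equiv.swap k (finRotate n k)) else 0)) →
      ∀ r : ℕ, r ≤ n →
      ∀ i : Fin r → Fin n,
        (∀ a b : Fin r, a.val + 1 = b.val → (i a).val + 1 < (i b).val) →
        (∑ σ ∈ Finset.univ.filter
            (fun σ : Equiv.Perm (Fin n) =>
              ∀ p : Fin n, ∀ a : Fin r, p.val = a.val → σ p = i a),
          π σ) = 1 / (n : ℝ) ^ r := by
  intro n π _ hsum hst r
  induction r with
  | zero =>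
    intro _ i _
    simp [hsum]
  | succ r ih =>
    intro hr i hi
    have h : r < n := hr
    have hmono : ∀ (d : ℕ) (a b : Fin (r + 1)), b.val = a.val + d + 1 →
        (i a).val + 1 < (i b).val := by
      intro d
      induction d with
      | zero => intro a b hab; exact hi a b (by omega)
      | succ d ihd =>
        intro a b hab
        have hb := b.2
        have h1 := ihd a ⟨a.val + d + 1, by omega⟩ rfl
        have h2 := hi ⟨a.val + d + 1, by omega⟩ b (by simp only; omega)
        omega
    have M := Pool.Agent.Lib.Helper30.Tasep.main n π hst r h (fun a => i a.castSucc)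
      (i (Fin.last r)) (fun a => hmono (r - a.val - 1) _ _ (by
        have := a.2
        simp only [Fin.val_last, Fin.val_castSucc]; omega))
    have I := ih h.le (fun a => i a.castSucc) (fun a b hab => hi _ _ hab)
    have e1 : Finset.univ.filter (fun σ : Equiv.Perm (Fin n) =>
          ∀ p : Fin n, ∀ a : Fin r, p.val = a.val → σ p = i a.castSucc)
        = Finset.univ.filter (fun σ : Equiv.Perm (Fin n) =>
          ∀ a : Fin r, σ (Fin.castLE h.le a) = i a.castSucc) := by
      refine Finset.filter_congr fun σ _ => ⟨fun H a => H _ a rfl, fun H p a hp => ?_⟩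
      rw [← H a]; exact congrArg σ (Fin.ext hp)
    have e2 : Finset.univ.filter (fun σ : Equiv.Perm (Fin n) =>
          ∀ p : Fin n, ∀ a : Fin (r + 1), p.val = a.val → σ p = i a)
        = Finset.univ.filter (fun σ : Equiv.Perm (Fin n) =>
          (∀ a : Fin r, σ (Fin.castLE h.le a) = i a.castSucc) ∧ σ ⟨r, h⟩ = i (Fin.last r)) := by
      refine Finset.filter_congr fun σ _ =>
        ⟨fun H => ⟨fun a => H _ _ rfl, H _ _ rfl⟩, fun H p a hp => ?_⟩
      refine Fin.lastCases (motive := fun a => p.val = a.val → σ p = i a) (fun hp => ?_)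
        (fun a hp => ?_) a hp
      · rw [← H.2]; exact congrArg σ (Fin.ext hp)
      · rw [← H.1 a]; exact congrArg σ (Fin.ext hp)
    rw [e1] at I
    rw [e2]
    convert M using 1
    rw [I, pow_succ]
    field_simp

end Pool.Agent.S19489
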