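import Pool.Statements.S19536

set_option autoImplicit false
open MeasureTheory
open Pool Pool.MP_a24ad1_pr

namespace Pool.Agent.S19536

open Set Filter Topology

noncomputable section

def al : ℝ := Real.sqrt 2 - 1

lemma al_bd : 0 < al ∧ al < 1 / 2 := by
  unfold al
  have h1 : (1 : ℝ) < Real.sqrt 2 := Real.lt_sqrt_of_sq_lt (by norm_num)
  have h2 : Real.sqrt 2 < 3 / 2 := by
    rw [Real.sqrt_lt' (by norm_num)]; norm_num
  constructor <;> linarith

abbrev Om := AddCircle (1 : ℝ)

instance : IsProbabilityMeasure (volume : Measure Om) := ⟨by simp⟩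

def th (w : Om) : Om := ((-al : ℝ) : Om) + w

lemma th_erg : Ergodic th (volume : Measure Om) := by
  apply AddCircle.ergodic_add_left.2
  rw [addOrderOf_eq_zero_iff, AddCircle.isOfFinAddOrder_iff_exists_rat_eq_div]
  rintro ⟨q, hq⟩
  apply irrational_sqrt_two
  refine ⟨1 - q, ?_⟩
  push_cast
  rw [hq]; unfold al; ring

/-- the representative in the interval from 0 to 1 -/
def rp (w : Om) : ℝ := AddCircle.equivIoc 1 0 w

lemma rp_mem (w : Om) : 0 < rp w ∧ rp w ≤ 1 := by
  have := (AddCircle.equivIoc 1 0 w).2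
  exact ⟨this.1, this.2.trans (zero_add 1).le⟩

lemma rp_coe {x : ℝ} (h0 : 0 < x) (h1 : x ≤ 1) : rp (x : Om) = x :=
  AddCircle.equivIoc_coe_of_mem (by rw [zero_add]; exact ⟨h0, h1⟩)

lemma coe_rp (w : Om) : ((rp w : ℝ) : Om) = w := AddCircle.coe_equivIoc

lemma rp_meas : Measurable rp :=
  measurable_subtype_coe.comp (AddCircle.measurableEquivIoc 1 0).measurable

lemma rp_th (w : Om) : rp (th w) = if rp w ≤ al then rp w + 1 - al else rp w - al := by
  have h := rp_mem w
  have ha := al_bd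
  have e : th w = ((rp w - al : ℝ) : Om) := by
    unfold th
    conv_lhs => rw [← coe_rp w]
    rw [← AddCircle.coe_add]; congr 1; ring
  split_ifs with h1
  · rw [e, ← AddCircle.coe_add_period (1 : ℝ), rp_coe (by linarith) (by linarith)]; ring
  · rw [e, rp_coe (by linarith) (by linarith)]

lemma meas_Icc (u v : ℝ) : volume (rp ⁻¹' Icc u v) ≤ ENNReal.ofReal (v - u) := by
  have hm := rp_meas (measurableSet_Icc (a := u) (b := v))
  rw [← (AddCircle.measurePreserving_mk 1 0).measure_preimage hm.nullMeasurableSet,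
    Measure.restrict_apply' measurableSet_Ioc, ← Real.volume_Icc]
  apply measure_mono
  rintro x ⟨h1, h2⟩
  rw [zero_add] at h2
  have : rp (x : Om) ∈ Icc u v := h1
  rwa [rp_coe h2.1 h2.2] at this

def sg (w : Om) : ℝ :=
  (rp ⁻¹' Icc 0 al).indicator (fun _ => 1) w + (rp ⁻¹' Ioc al (2 * al)).indicator (fun _ => 2 * al) w

lemma sg_int : Integrable sg volume :=
  ((integrable_const _).indicator (rp_meas measurableSet_Icc)).add
    ((integrable_const _).indicator (rp_meas measurableSet_Ioc))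

lemma sg_mean : ∫ w, sg w < 2 * al := by
  have ha := al_bd
  unfold sg
  rw [integral_add ((integrable_const _).indicator (rp_meas measurableSet_Icc))
    ((integrable_const _).indicator (rp_meas measurableSet_Ioc)),
    integral_indicator_const _ (rp_meas measurableSet_Icc),
    integral_indicator_const _ (rp_meas measurableSet_Ioc)]
  have h1 : (volume : Measure Om).real (rp ⁻¹' Icc 0 al) ≤ al :=
    ENNReal.toReal_le_of_le_ofReal ha.1.le (by simpa using meas_Icc 0 al)
  have h2 : (volume : Measure Om).real (rp ⁻¹' Ioc al (2 * al)) ≤ al := by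
    refine ENNReal.toReal_le_of_le_ofReal ha.1.le ?_
    refine (measure_mono (preimage_mono Ioc_subset_Icc_self)).trans ?_
    have := meas_Icc al (2 * al)
    rwa [show 2 * al - al = al by ring] at this
  simp only [smul_eq_mul]
  nlinarith

lemma sg_val (w : Om) :
    sg w = if rp w ≤ al then 1 else if rp w ≤ 2 * al then 2 * al else 0 := by
  have h := rp_mem w
  unfold sg
  simp only [indicator, mem_preimage, mem_Icc, mem_Ioc, h.1.le, true_and]
  by_cases h1 : rp w ≤ al
  · simp [h1, not_lt.2 h1]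
  · simp [h1, not_le.1 h1]

def Wq : ℕ → Om → (Fin (1 + 1) → ℝ)
  | 0, _ => 0
  | n + 1, w => fun i =>
      max ((Wq n w + (Pi.single 0 (sg (th^[n] w)) : Fin (1 + 1) → ℝ) - (fun _ : Fin (1 + 1) => al))
        (Tuple.sort (Wq n w + (Pi.single 0 (sg (th^[n] w)) : Fin (1 + 1) → ℝ)
          - (fun _ : Fin (1 + 1) => al)) i)) 0

lemma sort2 (f : Fin (1 + 1) → ℝ) :
    f (Tuple.sort f 0) = min (f 0) (f 1) ∧ f (Tuple.sort f 1) = max (f 0) (f 1) := by
  have h : f (Tuple.sort f 0) ≤ f (Tuple.sort f 1) := Tuple.monotone_sort f (by decide)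
  have hne : Tuple.sort f 0 ≠ Tuple.sort f 1 := fun h => by simp at h
  revert h hne
  generalize Tuple.sort f 0 = a
  generalize Tuple.sort f 1 = b
  intro h hne
  fin_cases a <;> fin_cases b
  · exact absurd rfl hne
  · exact ⟨(min_eq_left h).symm, (max_eq_right h).symm⟩
  · exact ⟨(min_eq_right h).symm, (max_eq_left h).symm⟩
  · exact absurd rfl hne

lemma W0 (n : ℕ) (w : Om) : Wq (n + 1) w 0 =
    max (min (Wq n w 0 + sg (th^[n] w) - al) (Wq n w 1 - al)) 0 := by
  refine (congrArg (max · 0) (sort2 (Wq n w + (Pi.single 0 (sg (th^[n] w)) : Fin (1 + 1) → ℝ)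
    - (fun _ : Fin (1 + 1) => al))).1).trans ?_
  simp

lemma W1 (n : ℕ) (w : Om) : Wq (n + 1) w 1 =
    max (max (Wq n w 0 + sg (th^[n] w) - al) (Wq n w 1 - al)) 0 := by
  refine (congrArg (max · 0) (sort2 (Wq n w + (Pi.single 0 (sg (th^[n] w)) : Fin (1 + 1) → ℝ)
    - (fun _ : Fin (1 + 1) => al))).2).trans ?_
  simp

def V0 (a : ℝ) : ℝ := if a ≤ al then a else 0
def V1 (a : ℝ) : ℝ := if a ≤ al then al else a

lemma stepL {a a' p q s : ℝ} (h0 : 0 < a)
    (ha' : a' = if a ≤ al then a + 1 - al else a - al)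
    (hs : s = if a ≤ al then 1 else if a ≤ 2 * al then 2 * al else 0)
    (hp : 0 ≤ p ∧ p ≤ V0 a) (hq : 0 ≤ q ∧ q ≤ V1 a) :
    max (min (p + s - al) (q - al)) 0 ≤ V0 a' ∧ max (max (p + s - al) (q - al)) 0 ≤ V1 a' ∧
    V0 a' + V1 a' - max (min (p + s - al) (q - al)) 0 - max (max (p + s - al) (q - al)) 0 ≤
      V0 a + V1 a - p - q ∧
    (a ≤ al → V0 a' + V1 a' - max (min (p + s - al) (q - al)) 0
      - max (max (p + s - al) (q - al)) 0 ≤ a) := by
  have ha := al_bd
  unfold V0 V1 at *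
  by_cases c1 : a ≤ al
  · simp only [c1, if_true] at *
    subst ha' hs
    have c : ¬ a + 1 - al ≤ al := by linarith
    simp only [c, if_false]
    rw [min_eq_right (by linarith), max_eq_right (by linarith : q - al ≤ 0),
      max_eq_left (by linarith : q - al ≤ p + 1 - al), max_eq_left (by linarith)]
    refine ⟨le_rfl, by linarith, by linarith, fun _ => by linarith⟩
  · have c1' := not_le.1 c1
    simp only [c1, if_false] at *
    have hp0 : p = 0 := by linarith
    subst ha' hp0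
    by_cases c2 : a ≤ 2 * al
    · simp only [c2, if_true] at hs
      subst hs
      have c : a - al ≤ al := by linarith
      simp only [c, if_true]
      rw [min_eq_right (by linarith), max_eq_left (by linarith : q - al ≤ 0 + 2 * al - al),
        max_eq_left (by linarith : 0 ≤ 0 + 2 * al - al)]
      have := le_max_left (q - al) 0
      refine ⟨max_le (by linarith) (by linarith), by linarith, by linarith, False.elim⟩
    · simp only [c2, if_false] at hs
      subst hs
      have c : ¬ a - al ≤ al := by linarith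
      simp only [c, if_false]
      rw [min_eq_left (by linarith), max_eq_right (by linarith : 0 + 0 - al ≤ 0),
        max_eq_right (by linarith : 0 + 0 - al ≤ q - al)]
      have := le_max_left (q - al) 0
      refine ⟨le_rfl, max_le (by linarith) (by linarith), by linarith, False.elim⟩

def lag (n : ℕ) (w : Om) : ℝ := V0 (rp (th^[n] w)) + V1 (rp (th^[n] w)) - Wq n w 0 - Wq n w 1

lemma inv (n : ℕ) (w : Om) : (0 ≤ Wq n w 0 ∧ Wq n w 0 ≤ V0 (rp (th^[n] w))) ∧
    (0 ≤ Wq n w 1 ∧ Wq n w 1 ≤ V1 (rp (th^[n] w))) := by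
  induction n with
  | zero =>
    have h := rp_mem w
    have ha := al_bd
    simp only [Wq, V0, V1, Function.iterate_zero, id, Pi.zero_apply, le_refl, true_and]
    constructor <;> split_ifs <;> linarith
  | succ n ih =>
    have h := rp_mem (th^[n] w)
    have := stepL h.1 (rp_th _) (sg_val _) ih.1 ih.2
    rw [W0, W1, Function.iterate_succ_apply']
    exact ⟨⟨le_max_right _ _, this.1⟩, ⟨le_max_right _ _, this.2.1⟩⟩

lemma lag_step (n : ℕ) (w : Om) : lag (n + 1) w ≤ lag n w ∧
    (rp (th^[n] w) ≤ al → lag (n + 1) w ≤ rp (th^[n] w)) := by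
  have h := rp_mem (th^[n] w)
  have := stepL h.1 (rp_th _) (sg_val _) (inv n w).1 (inv n w).2
  unfold lag
  rw [W0, W1, Function.iterate_succ_apply']
  exact this.2.2

lemma lag_small {δ : ℝ} (hδ : δ ≤ al) (w : Om) (n : ℕ) (h : δ < lag n w) :
    ∀ j < n, δ < rp (th^[j] w) := by
  intro j hj
  by_contra hc
  push Not at hc
  have h1 : Antitone fun n => lag n w := antitone_nat_of_succ_le fun n => (lag_step n w).1
  have h2 := h1 (Nat.succ_le_of_lt hj)
  have h3 := (lag_step j w).2 (hc.trans hδ)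
  simp only at h2
  linarith

def Bd (δ : ℝ) (n : ℕ) : Set Om := {w | ∀ j < n, δ < rp (th^[j] w)}

lemma Bd_meas (δ : ℝ) (n : ℕ) : MeasurableSet (Bd δ n) := by
  have : Bd δ n = ⋂ j, ⋂ _ : j < n, (rp ∘ th^[j]) ⁻¹' Ioi δ := by ext w; simp [Bd]
  rw [this]
  exact MeasurableSet.iInter fun j => MeasurableSet.iInter fun _ =>
    (rp_meas.comp (th_erg.measurable.iterate j)) measurableSet_Ioi

lemma Bd_tendsto {δ : ℝ} (hδ : 0 < δ) : Tendsto (fun n => volume (Bd δ n)) atTop (𝓝 0) := by
  have h1 := tendsto_measure_iInter_atTop (μ := volume) (s := Bd δ)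
    (fun n => (Bd_meas δ n).nullMeasurableSet)
    (fun m n h w hw j hj => hw j (hj.trans_le h)) ⟨0, measure_ne_top _ _⟩
  have h2 : volume (⋂ n, Bd δ n) = 0 := by
    rcases th_erg.ae_empty_or_univ_of_ae_le_preimage (s := ⋂ n, Bd δ n)
      (MeasurableSet.iInter (Bd_meas δ)).nullMeasurableSet (by
        apply LE.le.eventuallyLE
        intro w hw
        simp only [mem_preimage, mem_iInter] at hw ⊢
        intro n j _
        rw [← Function.iterate_succ_apply]
        exact hw (j + 2) _ (by omega)) with h | h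
    · exact ae_eq_empty.1 h
    · exfalso
      have h3 : volume (⋂ n, Bd δ n) ≤ ENNReal.ofReal (1 - δ) := by
        refine (measure_mono fun w hw => ?_).trans (meas_Icc δ 1)
        exact ⟨(mem_iInter.1 hw 1 0 one_pos).le, (rp_mem w).2⟩
      rw [measure_congr h, measure_univ, ENNReal.one_le_ofReal] at h3
      linarith
  rwa [h2] at h1

lemma atom {δ : ℝ} (hδ : 0 < δ) (hδ' : δ ≤ al) (z : Fin (1 + 1) → ℝ) (n : ℕ) :
    (volume {w | Wq n w ∈ ({z} : Set _)}).toReal ≤ (volume (Bd δ n)).toReal + δ + δ := by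
  have hsub : {w | Wq n w ∈ ({z} : Set _)} ⊆ (Bd δ n ∪
      th^[n] ⁻¹' (rp ⁻¹' Icc (z 0 + z 1) (z 0 + z 1 + δ))) ∪
      th^[n] ⁻¹' (rp ⁻¹' Icc (z 0 + z 1 - al) (z 0 + z 1 - al + δ)) := by
    intro w hw
    have hw' : Wq n w = z := hw
    by_cases h : δ < lag n w
    · exact Or.inl (Or.inl (lag_small hδ' w n h))
    · have i := inv n w
      unfold lag at h
      rw [hw'] at h i
      unfold V0 V1 at h i
      by_cases c : rp (th^[n] w) ≤ al
      · simp only [c, if_true] at h i
        exact Or.inr ⟨by linarith [i.1.2, i.2.2], by linarith⟩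
      · simp only [c, if_false] at h i
        exact Or.inl (Or.inr ⟨by linarith [i.1.2, i.2.2], by linarith⟩)
  have hI : ∀ u : ℝ, (volume : Measure Om).real (th^[n] ⁻¹' (rp ⁻¹' Icc u (u + δ))) ≤ δ := by
    intro u
    refine ENNReal.toReal_le_of_le_ofReal hδ.le ?_
    rw [(th_erg.toMeasurePreserving.iterate n).measure_preimage
      (rp_meas measurableSet_Icc).nullMeasurableSet]
    simpa using meas_Icc u (u + δ)
  have h1 := (measureReal_mono (μ := volume) hsub).trans ((measureReal_union_le _ _).trans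
    (add_le_add (measureReal_union_le _ _) le_rfl))
  have h2 := hI (z 0 + z 1)
  have h3 := hI (z 0 + z 1 - al)
  simp only [Measure.real] at *
  linarith

def Gs : AddSubgroup ℝ := AddSubgroup.closure {1, al}

lemma Gs_count : (Gs : Set ℝ).Countable := by
  have : (Gs : Set ℝ) ⊆ range fun p : ℤ × ℤ => p.1 • (1 : ℝ) + p.2 • al := by
    intro x hx
    obtain ⟨m, n, h⟩ := AddSubgroup.mem_closure_pair.1 hx
    exact ⟨(m, n), h⟩
  exact (countable_range _).mono this

lemma W_mem (n : ℕ) (w : Om) : Wq n w 0 ∈ Gs ∧ Wq n w 1 ∈ Gs := by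
  have h1 : (1 : ℝ) ∈ Gs := AddSubgroup.subset_closure (by simp)
  have h2 : al ∈ Gs := AddSubgroup.subset_closure (by simp)
  have hmax : ∀ a ∈ Gs, ∀ b ∈ Gs, max a b ∈ Gs := fun a ha b hb => by
    rcases max_choice a b with h | h <;> rwa [h]
  have hmin : ∀ a ∈ Gs, ∀ b ∈ Gs, min a b ∈ Gs := fun a ha b hb => by
    rcases min_choice a b with h | h <;> rwa [h]
  induction n with
  | zero => exact ⟨Gs.zero_mem, Gs.zero_mem⟩
  | succ n ih =>
    have hs : sg (th^[n] w) ∈ Gs := by
      rw [sg_val]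
      split_ifs
      · exact h1
      · rw [two_mul]; exact Gs.add_mem h2 h2
      · exact Gs.zero_mem
    have a := Gs.sub_mem (Gs.add_mem ih.1 hs) h2
    have b := Gs.sub_mem ih.2 h2
    rw [W0, W1]
    exact ⟨hmax _ (hmin _ a _ b) _ Gs.zero_mem, hmax _ (hmax _ a _ b) _ Gs.zero_mem⟩

end

theorem result :
    ¬ (∀ (Ω : Type) [MeasurableSpace Ω] (μ : Measure Ω) [IsProbabilityMeasure μ]
    (θ : Ω → Ω) (k : ℕ) (t σ : Ω → ℝ) (W : ℕ → Ω → (Fin (k+1) → ℝ)),
    Ergodic θ μ → Integrable t μ → Integrable σ μ →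
    (∀ᵐ ω ∂μ, 0 ≤ t ω) → (∀ᵐ ω ∂μ, 0 ≤ σ ω) →
    ∫ ω, σ ω ∂μ < ((k : ℝ) + 1) * ∫ ω, t ω ∂μ →
    (∀ ω, W 0 ω = 0) →
    (∀ (n : ℕ) (ω : Ω), W (n+1) ω =
      (fun i : Fin (k+1) =>
        max ((W n ω + (Pi.single 0 (σ (θ^[n] ω)) : Fin (k+1) → ℝ)
                - (fun _ : Fin (k+1) => t (θ^[n] ω)))
              (Tuple.sort (W n ω + (Pi.single 0 (σ (θ^[n] ω)) : Fin (k+1) → ℝ)
                - (fun _ : Fin (k+1) => t (θ^[n] ω))) i)) 0)) →
    ∃ π : Measure (Fin (k+1) → ℝ), IsProbabilityMeasure π ∧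
      ∀ ε > (0 : ℝ), ∃ N : ℕ, ∀ n ≥ N, ∀ A : Set (Fin (k+1) → ℝ), MeasurableSet A →
        |(μ {ω | W n ω ∈ A}).toReal - (π A).toReal| < ε) := by
  intro H
  have ha := al_bd
  obtain ⟨π, hπ, hc⟩ := H Om volume th 1 (fun _ => al) sg Wq th_erg (integrable_const _) sg_int
    (Filter.Eventually.of_forall fun _ => ha.1.le)
    (Filter.Eventually.of_forall fun w => by
      rw [sg_val]; split_ifs <;> linarith)
    (by simpa [one_add_one_eq_two] using sg_mean) (fun _ => rfl) (fun _ _ => rfl)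
  have hG : (Set.univ.pi fun _ : Fin (1 + 1) => (Gs : Set ℝ)).Countable :=
    Set.countable_univ_pi fun _ => Gs_count
  have hz : ∀ z : Fin (1 + 1) → ℝ, π {z} = 0 := by
    intro z
    by_contra hne
    have hpos : 0 < (π {z}).toReal := ENNReal.toReal_pos hne (measure_ne_top _ _)
    set δ := min al ((π {z}).toReal / 4) with hδ
    have hδ0 : 0 < δ := lt_min ha.1 (by linarith)
    have hδ1 : δ ≤ (π {z}).toReal / 4 := min_le_right _ _
    obtain ⟨N, hN⟩ := hc δ hδ0
    have ht := (ENNReal.tendsto_toReal ENNReal.zero_ne_top).comp (Bd_tendsto hδ0)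
    obtain ⟨n, hn1, hn2⟩ := ((Filter.eventually_ge_atTop N).and
      (ht.eventually (gt_mem_nhds (by simpa using hδ0)))).exists
    have h1 := abs_lt.1 (hN n hn1 {z} (measurableSet_singleton z))
    have h2 := atom hδ0 (min_le_left _ _) z n
    simp only [Function.comp] at hn2
    linarith [h1.1]
  have h0 : π (Set.univ.pi fun _ : Fin (1 + 1) => (Gs : Set ℝ)) = 0 := by
    rw [← Set.biUnion_of_singleton (Set.univ.pi fun _ : Fin (1 + 1) => (Gs : Set ℝ)),
      measure_biUnion_null_iff hG]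
    exact fun z _ => hz z
  obtain ⟨N, hN⟩ := hc 1 one_pos
  have h1 := hN N le_rfl _ hG.measurableSet
  have h2 : {w | Wq N w ∈ Set.univ.pi fun _ : Fin (1 + 1) => (Gs : Set ℝ)} = Set.univ := by
    apply Set.eq_univ_of_forall
    intro w i _
    fin_cases i
    · exact (W_mem N w).1
    · exact (W_mem N w).2
  rw [h2, h0] at h1
  simp at h1

end Pool.Agent.S19536
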