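import Pool.Statements.S19550
import Pool.Agent.Lib.helper1.Cau

set_option autoImplicit false
open MeasureTheory Pointwise
open Pool Pool.MP_a5e374_pr

namespace Pool.Agent.S19550

open Pool.Agent.Lib.helper1.Cau

lemma norm_two {f : ℝ → ℝ} (hf : ∀ x, 0 ≤ f x) :
    eLpNorm f 2 volume ^ (-((1 - (2 : ENNReal)⁻¹)⁻¹).toReal)
      = (∫⁻ x, ENNReal.ofReal (f x) ^ 2)⁻¹ := by
  rw [eLpNorm_eq_lintegral_rpow_enorm_toReal two_ne_zero ENNReal.ofNat_ne_top,
    ENNReal.one_sub_inv_two, inv_inv, ← ENNReal.rpow_mul]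
  have e : (1 / (2 : ENNReal).toReal * -(2 : ENNReal).toReal) = -1 := by norm_num
  rw [e, ENNReal.rpow_neg_one]
  congr 1
  refine lintegral_congr fun x => ?_
  rw [Real.enorm_eq_ofReal (hf x)]
  simp


/-- The negation of the preceding statement: For every κ ≤ 1/2 and every symmetric κ-concave law of (U,V) in the plane with densities for U, V, U+V: the square-root Rényi entropy power of U+V is at most that of U plus that of V, for all p>1 and for p=1 when entropies are finite. -/
theorem result :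
    ¬ (∀ κ : EReal, κ ≤ ((1/2 : ℝ) : EReal) →
  ∀ μ : Measure (ℝ × ℝ), IsProbabilityMeasure μ →
    μ.map (fun x => -x) = μ →
    (∀ A B : Set (ℝ × ℝ), IsCompact A → IsCompact B → 0 < μ A → 0 < μ B →
      ∀ t : ℝ, 0 < t → t < 1 →
        (if κ = ⊥ then min (μ A).toReal (μ B).toReal
         else if κ = 0 then (μ A).toReal ^ t * (μ B).toReal ^ (1 - t)
         else (t * (μ A).toReal ^ κ.toReal + (1 - t) * (μ B).toReal ^ κ.toReal) ^ (1 / κ.toReal))
        ≤ (μ (t • A + (1 - t) • B)).toReal) →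
  ∀ fU fV fW : ℝ → ℝ, Measurable fU → Measurable fV → Measurable fW →
    (∀ x, 0 ≤ fU x) → (∀ x, 0 ≤ fV x) → (∀ x, 0 ≤ fW x) →
    μ.map Prod.fst = volume.withDensity (fun x => ENNReal.ofReal (fU x)) →
    μ.map Prod.snd = volume.withDensity (fun x => ENNReal.ofReal (fV x)) →
    μ.map (fun x => x.1 + x.2) = volume.withDensity (fun x => ENNReal.ofReal (fW x)) →
    (∀ p : ENNReal, 1 < p →
      eLpNorm fW p volume ^ (-((1 - p⁻¹)⁻¹).toReal) ≤
        eLpNorm fU p volume ^ (-((1 - p⁻¹)⁻¹).toReal)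
          + eLpNorm fV p volume ^ (-((1 - p⁻¹)⁻¹).toReal)) ∧
    (Integrable (fun x => Real.negMulLog (fU x)) →
      Integrable (fun x => Real.negMulLog (fV x)) →
      Integrable (fun x => Real.negMulLog (fW x)) →
      Real.exp (∫ x, Real.negMulLog (fW x)) ≤
        Real.exp (∫ x, Real.negMulLog (fU x)) + Real.exp (∫ x, Real.negMulLog (fV x)))) := by
  intro H
  have hk : ∀ w, ENNReal.ofReal ((k * q w).toReal) = k * q w := fun w =>
    ENNReal.ofReal_toReal (ENNReal.mul_ne_top ENNReal.ofReal_ne_top (measure_ne_top _ _))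
  have h1 := (H ⊥ bot_le mu inferInstance mu_neg
    (fun A B hA hB _ _ t h0 h1 => by
      rw [if_pos rfl, ← ENNReal.toReal_min (measure_ne_top _ _) (measure_ne_top _ _)]
      refine ENNReal.toReal_mono (measure_ne_top _ _) (mu_quasi hA.measurableSet hB.measurableSet
        ((hA.smul t).add (hB.smul (1 - t))).measurableSet h0 h1 fun x hx y hy => ?_)
      exact Set.add_mem_add (Set.smul_mem_smul_set hx) (Set.smul_mem_smul_set hy))
    h u (fun w => (k * q w).toReal) h_meas u_meas (q_meas.const_mul k).ennreal_toReal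
    (fun x => (h_pos x).le) u_nn (fun _ => ENNReal.toReal_nonneg) map_fst map_snd
    (by simp_rw [hk]; exact map_add)).1 2 (by norm_num)
  rw [norm_two (fun _ => ENNReal.toReal_nonneg), norm_two (fun x => (h_pos x).le),
    norm_two u_nn] at h1
  simp_rw [hk] at h1
  exact fail h1

end Pool.Agent.S19550
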