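import Pool.Statements.S19560
-- import your own Pool.Agent.* helpers here

set_option autoImplicit false
open MeasureTheory ProbabilityTheory
open Pool Pool.MP_aa6114_pr

namespace Pool.Agent.S19560

/-- Values of the four variables: `X₀ ∈ {2,6}`, `X₁ = 3`, `X₂ ∈ {1,7}`, `X₃ ∈ {4,8}`. -/
def val (i : Fin 4) (b : Bool) : ℕ :=
  if b then ![6, 3, 7, 8] i else ![2, 3, 1, 4] i

/-- Four independent fair coins. -/
noncomputable def mu : Measure (Fin 4 → Bool) := Measure.pi fun _ => uniformOn Set.univ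

instance : IsProbabilityMeasure mu := by
  unfold mu
  infer_instance

theorem mu_eq (p : (Fin 4 → Bool) → Prop) [DecidablePred p] (s : Set (Fin 4 → Bool))
    (h : ∀ ω, ω ∈ s ↔ p ω) : mu s = ((Finset.univ.filter p).card : ENNReal) / 16 := by
  have e : s = ((Finset.univ.filter p : Finset (Fin 4 → Bool)) : Set (Fin 4 → Bool)) := by
    ext ω; simp [h]
  rw [mu, ← uniformOn_pi, Set.pi_univ, uniformOn_univ, e, Measure.count_apply_finset]
  simp

/-- The negation of the preceding statement: For independent real random variables and any finite set of pairwise strict or weak inequality constraints P, P(X_a<X_b given P) ≤ P(X_a<X_b given P and X_a<X_c) whenever the second conditioning event has positive probability. -/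
theorem result :
    ¬ (∀ (Ω : Type) [MeasurableSpace Ω] (μ : Measure Ω) [IsProbabilityMeasure μ]
      (n : ℕ) (X : Fin n → Ω → ℝ),
      (∀ i, Measurable (X i)) →
      iIndepFun X μ →
      ∀ (a b c : Fin n), a ≠ b → a ≠ c → b ≠ c →
      ∀ (S W : Finset (Fin n × Fin n)),
        μ ({ω | (∀ p ∈ S, X p.1 ω < X p.2 ω) ∧ (∀ p ∈ W, X p.1 ω ≤ X p.2 ω)}
            ∩ {ω | X a ω < X c ω}) ≠ 0 →
        ProbabilityTheory.cond μ
            {ω | (∀ p ∈ S, X p.1 ω < X p.2 ω) ∧ (∀ p ∈ W, X p.1 ω ≤ X p.2 ω)}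
            {ω | X a ω < X b ω}
          ≤ ProbabilityTheory.cond μ
            ({ω | (∀ p ∈ S, X p.1 ω < X p.2 ω) ∧ (∀ p ∈ W, X p.1 ω ≤ X p.2 ω)}
              ∩ {ω | X a ω < X c ω})
            {ω | X a ω < X b ω}) := by
  intro h
  have key := h (Fin 4 → Bool) mu 4 (fun i ω => (val i (ω i) : ℝ)) (fun i => measurable_of_finite _)
    (iIndepFun_pi (X := fun i b => (val i b : ℝ)) fun i => (measurable_of_finite _).aemeasurable)
    0 1 2 (by decide) (by decide) (by decide) {(0, 3), (2, 3)} ∅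
  rw [cond_apply (MeasurableSet.of_discrete), cond_apply (MeasurableSet.of_discrete),
    mu_eq (fun ω => (val 0 (ω 0) < val 3 (ω 3) ∧ val 2 (ω 2) < val 3 (ω 3)) ∧
      val 0 (ω 0) < val 2 (ω 2)) _ (by intro ω; simp),
    mu_eq (fun ω => val 0 (ω 0) < val 3 (ω 3) ∧ val 2 (ω 2) < val 3 (ω 3)) _ (by intro ω; simp),
    mu_eq (fun ω => (val 0 (ω 0) < val 3 (ω 3) ∧ val 2 (ω 2) < val 3 (ω 3)) ∧
      val 0 (ω 0) < val 1 (ω 1)) _ (by intro ω; simp),
    mu_eq (fun ω => ((val 0 (ω 0) < val 3 (ω 3) ∧ val 2 (ω 2) < val 3 (ω 3)) ∧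
      val 0 (ω 0) < val 2 (ω 2)) ∧ val 0 (ω 0) < val 1 (ω 1)) _ (by intro ω; simp)] at key
  have c1 : (Finset.univ.filter fun ω : Fin 4 → Bool =>
      (val 0 (ω 0) < val 3 (ω 3) ∧ val 2 (ω 2) < val 3 (ω 3)) ∧
      val 0 (ω 0) < val 2 (ω 2)).card = 4 := by decide +kernel
  have c2 : (Finset.univ.filter fun ω : Fin 4 → Bool =>
      val 0 (ω 0) < val 3 (ω 3) ∧ val 2 (ω 2) < val 3 (ω 3)).card = 10 := by decide +kernel
  have c3 : (Finset.univ.filter fun ω : Fin 4 → Bool =>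
      (val 0 (ω 0) < val 3 (ω 3) ∧ val 2 (ω 2) < val 3 (ω 3)) ∧
      val 0 (ω 0) < val 1 (ω 1)).card = 6 := by decide +kernel
  have c4 : (Finset.univ.filter fun ω : Fin 4 → Bool =>
      ((val 0 (ω 0) < val 3 (ω 3) ∧ val 2 (ω 2) < val 3 (ω 3)) ∧
      val 0 (ω 0) < val 2 (ω 2)) ∧ val 0 (ω 0) < val 1 (ω 1)).card = 2 := by decide +kernel
  rw [c1, c2, c3, c4] at key
  have k2 := key (by simp)
  have k3 := ENNReal.toReal_mono (ENNReal.mul_ne_top (ENNReal.inv_ne_top.2 (by simp))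
    (ENNReal.div_ne_top (by simp) (by simp))) k2
  simp only [ENNReal.toReal_mul, ENNReal.toReal_inv, ENNReal.toReal_div, ENNReal.toReal_natCast,
    ENNReal.toReal_ofNat] at k3
  norm_num at k3

end Pool.Agent.S19560
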