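import Pool.Statements.S19562
-- import your own Pool.Agent.* helpers here
import Pool.Agent.Lib.helper16.AR3

set_option autoImplicit false
open MeasureTheory
open Pool Pool.MP_aa6ebe_pr

namespace Pool.Agent.S19562


/-- The negation of the preceding statement: For every countable group and any two symmetric probability measures whose supports generate it: if a.s. the products X_n, X_{n+1}, ... of the walk generate the whole group as a semigroup for every n under the first, the same holds under the second. -/
theorem result :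
    ¬ (∀ (G : Type) [Group G] [Countable G] [MeasurableSpace G] [DiscreteMeasurableSpace G]
      (μ ν : PMF G),
      (∀ g : G, μ g⁻¹ = μ g) → Subgroup.closure μ.support = ⊤ →
      (∀ g : G, ν g⁻¹ = ν g) → Subgroup.closure ν.support = ⊤ →
      (∀ n : ℕ, ∀ᵐ ω ∂(Measure.infinitePi (fun _ : ℕ => μ.toMeasure)),
          Subsemigroup.closure
            (Set.range (fun k : ℕ => ((List.range (n + k)).map ω).prod)) = ⊤) →
      (∀ n : ℕ, ∀ᵐ ω ∂(Measure.infinitePi (fun _ : ℕ => ν.toMeasure)),
          Subsemigroup.closure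
            (Set.range (fun k : ℕ => ((List.range (n + k)).map ω).prod)) = ⊤)) := by
  intro h
  letI : MeasurableSpace (Multiplicative (ℕ →₀ ℤ)) := ⊤
  haveI : DiscreteMeasurableSpace (Multiplicative (ℕ →₀ ℤ)) := ⟨fun _ => trivial⟩
  haveI : Countable (Multiplicative (ℕ →₀ ℤ)) := inferInstanceAs (Countable (ℕ →₀ ℤ))
  obtain ⟨μ, h1, h2⟩ := Pool.Agent.Lib.helper16.AR.exists_AR (G := Multiplicative (ℕ →₀ ℤ))
  obtain ⟨ν, h3, h4⟩ := Pool.Agent.Lib.helper16.AR.nonAR_free (Equiv.refl ℕ)
    (MulEquiv.refl (Multiplicative (ℕ →₀ ℤ)))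
  exact h4 (h _ μ ν h1.1 h1.2 h3.1 h3.2 h2 1)

end Pool.Agent.S19562
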