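import Pool.Statements.S19597

set_option autoImplicit false
open Pool Pool.MP_ba3ff3_pr

namespace Pool.Agent.S19597

open scoped ENNReal
open Filter Topology

theorem FL {Y : Type} (P : Y → Y → ℝ≥0∞) (hP : ∀ x, ∑' y, P x y = 1) (V : Y → ℝ≥0∞) (x0 : Y)
    (hV : V x0 ≠ ∞) (C : Finset Y) (h1 : ∀ x ∉ C, ∑' y, P x y * V y + 1 ≤ V x)
    (h2 : ∀ x ∈ C, ∑' y, P x y * V y ≠ ∞) :
    ∃ π : Y → ℝ≥0∞, ∑' x, π x = 1 ∧ ∀ y, π y = ∑' x, π x * P x y := by
  classical
  set b : ℝ≥0∞ := ∑ x ∈ C, (∑' y, P x y * V y + 1) with hb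
  have hbt : b ≠ ∞ := ENNReal.sum_ne_top.2 fun x hx => ENNReal.add_ne_top.2 ⟨h2 x hx, by simp⟩
  have h3 : ∀ x, ∑' y, P x y * V y + 1 ≤ V x + b * if x ∈ C then 1 else 0 := by
    intro x
    by_cases hx : x ∈ C
    · simp only [hx, if_true, mul_one]
      exact (Finset.single_le_sum (f := fun x => ∑' y, P x y * V y + 1) (fun _ _ => zero_le) hx).trans le_add_self
    · exact (h1 x hx).trans le_self_add
  let μ : ℕ → Y → ℝ≥0∞ := fun k => Nat.rec (fun y => if y = x0 then 1 else 0) (fun _ m y => ∑' x, m x * P x y) k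
  have μs : ∀ k y, μ (k + 1) y = ∑' x, μ k x * P x y := fun _ _ => rfl
  have swap : ∀ (m F : Y → ℝ≥0∞), ∑' y, (∑' x, m x * P x y) * F y = ∑' x, m x * ∑' y, P x y * F y := by
    intro m F
    simp_rw [← ENNReal.tsum_mul_right, ← ENNReal.tsum_mul_left, mul_assoc]
    exact ENNReal.tsum_comm
  have mass : ∀ m : Y → ℝ≥0∞, ∑' y, ∑' x, m x * P x y = ∑' x, m x := by
    intro m
    simpa [hP] using swap m fun _ => 1
  have μ1 : ∀ k, ∑' y, μ k y = 1 := by
    intro k
    induction k with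
    | zero => simp [μ]
    | succ k ih => simp_rw [μs]; rw [mass, ih]
  have μV : ∀ n : ℕ, ∑' y, μ n y * V y + n ≤ V x0 + b * ∑ k ∈ Finset.range n, ∑ x ∈ C, μ k x := by
    intro n
    induction n with
    | zero => simp [μ]
    | succ n ih =>
      have a1 : ∑' y, μ (n + 1) y * V y + 1 ≤ ∑' y, μ n y * V y + b * ∑ x ∈ C, μ n x := by
        simp_rw [μs]
        rw [swap]
        calc _ = ∑' x, μ n x * (∑' y, P x y * V y + 1) := by
              simp_rw [mul_add, ENNReal.tsum_add, mul_one, μ1]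
          _ ≤ ∑' x, μ n x * (V x + b * if x ∈ C then 1 else 0) :=
              ENNReal.tsum_le_tsum fun x => mul_le_mul_right (h3 x) _
          _ = _ := by
              simp_rw [mul_add, ENNReal.tsum_add, mul_left_comm _ b, ENNReal.tsum_mul_left]
              rw [tsum_eq_sum (s := C) (f := fun x => μ n x * if x ∈ C then 1 else 0) (by simp +contextual)]
              congr 2
              exact Finset.sum_congr rfl fun x hx => by simp [hx]
      rw [Finset.sum_range_succ, mul_add, ← add_assoc]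
      push_cast
      calc _ = (∑' y, μ (n + 1) y * V y + 1) + n := by ring
        _ ≤ (∑' y, μ n y * V y + b * ∑ x ∈ C, μ n x) + n := by gcongr
        _ = (∑' y, μ n y * V y + n) + b * ∑ x ∈ C, μ n x := by ring
        _ ≤ _ := by gcongr
  let ν : ℕ → Y → ℝ≥0∞ := fun n y => ((n + 1 : ℕ) : ℝ≥0∞)⁻¹ * ∑ k ∈ Finset.range (n + 1), μ k y
  obtain ⟨π, hπ⟩ : ∃ π : Y → ℝ≥0∞, Tendsto ν (hyperfilter ℕ) (𝓝 π) :=
    ⟨_, (Ultrafilter.map ν (hyperfilter ℕ)).le_nhds_lim⟩
  have hπ' : ∀ y, Tendsto (fun n => ν n y) (hyperfilter ℕ) (𝓝 (π y)) := tendsto_pi_nhds.1 hπ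
  have inv0 : Tendsto (fun n : ℕ => ((n + 1 : ℕ) : ℝ≥0∞)⁻¹) (hyperfilter ℕ) (𝓝 0) :=
    (ENNReal.tendsto_inv_nat_nhds_zero.comp (tendsto_add_atTop_nat 1)).mono_left Nat.hyperfilter_le_atTop
  have cancel : ∀ n : ℕ, ((n + 1 : ℕ) : ℝ≥0∞)⁻¹ * (n + 1 : ℕ) = 1 := fun n =>
    ENNReal.inv_mul_cancel (by simp) (by simp)
  have ν1 : ∀ n, ∑' y, ν n y = 1 := by
    intro n
    simp only [ν]
    rw [ENNReal.tsum_mul_left, Summable.tsum_finsetSum fun _ _ => ENNReal.summable]
    simp only [μ1, Finset.sum_const, Finset.card_range, nsmul_eq_mul, mul_one, cancel]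
  have π1 : ∑' y, π y ≤ 1 := by
    rw [ENNReal.tsum_eq_iSup_sum]
    refine iSup_le fun F => le_of_tendsto' (tendsto_finsetSum F fun y _ => hπ' y) fun n => ?_
    exact (ENNReal.sum_le_tsum F).trans (ν1 n).le
  have Ple : ∀ x y, P x y ≠ ∞ := fun x y => ne_top_of_le_ne_top (by simp [hP]) (ENNReal.le_tsum (f := P x) y)
  have πP : ∀ y, ∑' x, π x * P x y ≤ π y := by
    intro y
    rw [ENNReal.tsum_eq_iSup_sum]
    refine iSup_le fun F => ?_
    have a1 := tendsto_finsetSum F fun x _ => ENNReal.Tendsto.mul_const (hπ' x) (Or.inr (Ple x y))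
    have a2 := (hπ' y).add inv0
    rw [add_zero] at a2
    refine le_of_tendsto_of_tendsto' a1 a2 fun n => (ENNReal.sum_le_tsum F).trans ?_
    simp only [ν]
    simp_rw [mul_assoc, ENNReal.tsum_mul_left, Finset.sum_mul]
    rw [Summable.tsum_finsetSum fun _ _ => ENNReal.summable]
    simp_rw [← μs]
    have a3 : ∑ k ∈ Finset.range (n + 1), μ (k + 1) y ≤ ∑ k ∈ Finset.range (n + 1), μ k y + 1 := by
      rw [Finset.sum_range_succ, Finset.sum_range_succ' (fun k => μ k y)]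
      exact add_le_add le_self_add ((ENNReal.le_tsum (f := μ (n + 1)) y).trans (μ1 (n + 1)).le)
    simpa only [mul_add, mul_one] using mul_le_mul_right a3 ((n + 1 : ℕ) : ℝ≥0∞)⁻¹
  have πC : 1 ≤ b * ∑ x ∈ C, π x := by
    have a1 := (ENNReal.Tendsto.mul_const inv0 (Or.inr hV)).add
      (ENNReal.Tendsto.const_mul (a := b) (tendsto_finsetSum C fun y _ => hπ' y) (Or.inr hbt))
    rw [zero_mul, zero_add] at a1
    refine ge_of_tendsto' a1 fun n => ?_
    have a2 := mul_le_mul_right (le_add_self.trans (μV (n + 1))) ((n + 1 : ℕ) : ℝ≥0∞)⁻¹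
    rw [cancel, mul_add, mul_left_comm, Finset.sum_comm, Finset.mul_sum] at a2
    exact a2
  have π0 : ∑' y, π y ≠ 0 := by
    intro h
    have : ∑ x ∈ C, π x = 0 := le_zero_iff.1 ((ENNReal.sum_le_tsum C).trans h.le)
    simp [this] at πC
  have πt : ∑' y, π y ≠ ∞ := ne_top_of_le_ne_top (by simp) π1
  have πE : ∀ y, π y = ∑' x, π x * P x y := by
    intro y
    by_contra hne
    have := ENNReal.tsum_lt_tsum (i := y) (by rw [mass]; exact πt) πP (lt_of_le_of_ne (πP y) (Ne.symm hne))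
    rw [mass] at this
    exact lt_irrefl _ this
  refine ⟨fun y => (∑' y, π y)⁻¹ * π y, ?_, fun y => ?_⟩
  · rw [ENNReal.tsum_mul_left, ENNReal.inv_mul_cancel π0 πt]
  · simp_rw [mul_assoc, ENNReal.tsum_mul_left, ← πE]

noncomputable def sc (w : ℕ) (p : ℝ) : ℝ := (w : ℝ) * p * (1 - p) ^ (w - 1)

lemma rev {p : ℝ} (h0 : 0 ≤ p) (h1 : p ≤ 1) (k : ℕ) : (1 - p) ^ k * (1 + k * p) ≤ 1 := by
  calc _ ≤ (1 - p) ^ k * (1 + p) ^ k :=
        mul_le_mul_of_nonneg_left (one_add_mul_le_pow (by linarith) k) (pow_nonneg (by linarith) _)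
    _ = ((1 - p) * (1 + p)) ^ k := by rw [mul_pow]
    _ ≤ 1 := pow_le_one₀ (by nlinarith) (by nlinarith)

lemma sc_mem {p : ℝ} (h0 : 0 ≤ p) (h1 : p ≤ 1) (w : ℕ) : 0 ≤ sc w p ∧ sc w p ≤ 1 := by
  have h2 : 0 ≤ (1 - p) ^ (w - 1) := pow_nonneg (by linarith) _
  refine ⟨by unfold sc; positivity, ?_⟩
  cases w with
  | zero => simp [sc]
  | succ k =>
    have := rev h0 h1 k
    simp only [sc, Nat.add_sub_cancel] at h2 ⊢
    push_cast
    nlinarith [mul_nonneg h2 (sub_nonneg.2 h1)]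

lemma sc_half {p : ℝ} (h0 : 0 ≤ p) (h1 : p ≤ 1) {w : ℕ} (hw : w * p ≤ 1 / 2) : w * p / 2 ≤ sc w p := by
  have h2 := one_add_mul_le_pow (a := -p) (by linarith) (w - 1)
  have h3 : ((w - 1 : ℕ) : ℝ) ≤ w := by exact_mod_cast Nat.sub_le w 1
  have h4 : 1 / 2 ≤ (1 - p) ^ (w - 1) := by
    rw [sub_eq_add_neg]; nlinarith [mul_le_mul_of_nonneg_right h3 h0]
  have h5 : 0 ≤ (w : ℝ) * p := by positivity
  unfold sc; nlinarith

lemma M_le (M : ℕ) (hM : 96 ≤ M) : (M : ℝ) ≤ 2 ^ M ∧ (8 : ℝ) ≤ 2 ^ M := by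
  have h : M ≤ 2 ^ M := Nat.lt_two_pow_self.le
  have h' : (M : ℝ) ≤ 2 ^ M := by exact_mod_cast h
  have : (96 : ℝ) ≤ M := by exact_mod_cast hM
  exact ⟨h', by linarith⟩

lemma sc_low {M : ℕ} (hM : 96 ≤ M) {p : ℝ} (h0 : M / (16 * 2 ^ M) ≤ p) (h1 : p ≤ M / (8 * 2 ^ M))
    {w : ℕ} (hw : 1 ≤ w) (hw' : w ≤ 2 ^ M) : 3 / 2 ^ M ≤ sc w p := by
  have hn : (0 : ℝ) < 2 ^ M := by positivity
  obtain ⟨a1, -⟩ := M_le M hM
  have a2 : (96 : ℝ) ≤ M := by exact_mod_cast hM
  rw [div_le_iff₀ (by positivity)] at h0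
  rw [le_div_iff₀ (by positivity)] at h1
  have p0 : 0 ≤ p := by by_contra h; nlinarith
  have p1 : p ≤ 1 / 2 := by by_contra h; nlinarith
  have w1 : (1 : ℝ) ≤ w := by exact_mod_cast hw
  rcases le_total (w * p) (1 / 2) with h | h
  · refine le_trans ?_ (sc_half p0 (by linarith) h)
    rw [div_le_iff₀ hn]
    nlinarith [mul_le_mul_of_nonneg_right w1 (mul_nonneg p0 hn.le)]
  · have b1 : Real.exp (-(2 * p)) ≤ 1 - p := by
      have := Real.add_one_le_exp (2 * p)
      rw [Real.exp_neg, inv_le_iff_one_le_mul₀ (Real.exp_pos _)]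
      nlinarith
    have b2 : (3 / 4 : ℝ) ^ M ≤ (1 - p) ^ (w - 1) := by
      calc (3 / 4 : ℝ) ^ M ≤ Real.exp (-(1 / 4)) ^ M :=
            pow_le_pow_left₀ (by norm_num) (by linarith [Real.add_one_le_exp (-(1 / 4))]) _
        _ ≤ Real.exp (-(2 * p)) ^ (2 ^ M) := by
            rw [← Real.exp_nat_mul, ← Real.exp_nat_mul, Real.exp_le_exp]; push_cast; nlinarith
        _ ≤ (1 - p) ^ (2 ^ M) := pow_le_pow_left₀ (Real.exp_pos _).le b1 _
        _ ≤ _ := pow_le_pow_of_le_one (by linarith) (by linarith) (by omega)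
    have b3 : (6 : ℝ) ≤ (3 / 4) ^ M * 2 ^ M := by
      rw [← mul_pow]
      have := one_add_mul_le_pow (a := (1 / 2 : ℝ)) (by norm_num) M
      norm_num at this ⊢
      linarith
    rw [div_le_iff₀ hn]
    unfold sc
    have b4 := mul_le_mul_of_nonneg_right b2 hn.le
    nlinarith

lemma sc_high {M : ℕ} (hM : 96 ≤ M) {p : ℝ} (h0 : M / (16 * 2 ^ M) ≤ p) (h1 : p ≤ 1)
    {w : ℕ} (hw : 64 * 2 ^ M ≤ w) : sc w p * 2 ^ M ≤ 1 / 4 := by
  have hn : (0 : ℝ) < 2 ^ M := by positivity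
  obtain ⟨-, a1⟩ := M_le M hM
  have a2 : (96 : ℝ) ≤ M := by exact_mod_cast hM
  rw [div_le_iff₀ (by positivity)] at h0
  have p0 : 0 ≤ p := by by_contra h; nlinarith
  have w1 : (64 * 2 ^ M : ℝ) ≤ w := by exact_mod_cast hw
  have w2 : ((w - 1 : ℕ) : ℝ) = w - 1 := by
    have : 1 ≤ w := le_trans (by have := Nat.one_le_two_pow (n := M); omega) hw
    push_cast [this]; ring
  have y1 : 4 * M ≤ w * p := by nlinarith [mul_le_mul_of_nonneg_right w1 p0]
  have b1 : (1 - p) ^ (w - 1) ≤ Real.exp (1 - w * p) := by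
    calc _ ≤ Real.exp (-p) ^ (w - 1) :=
          pow_le_pow_left₀ (by linarith) (by linarith [Real.add_one_le_exp (-p)]) _
      _ ≤ _ := by rw [← Real.exp_nat_mul, Real.exp_le_exp, w2]; nlinarith
  have b2 : w * p / 2 ≤ Real.exp (w * p / 2 - 1) := by linarith [Real.add_one_le_exp (w * p / 2 - 1)]
  have b3 : Real.exp (w * p / 2 - 1) * Real.exp (1 - w * p) * (2 ^ M * 2 ^ M) ≤ 1 := by
    have c1 : (2 : ℝ) ^ M ≤ Real.exp M := by
      rw [← mul_one (M : ℝ), Real.exp_nat_mul]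
      exact pow_le_pow_left₀ (by norm_num) (by linarith [Real.add_one_le_exp 1]) _
    calc _ ≤ Real.exp (w * p / 2 - 1) * Real.exp (1 - w * p) * (Real.exp M * Real.exp M) := by gcongr
      _ ≤ 1 := by simp only [← Real.exp_add, Real.exp_le_one_iff]; linarith
  have b4 : sc w p ≤ 2 * (Real.exp (w * p / 2 - 1) * Real.exp (1 - w * p)) := by
    unfold sc
    calc _ ≤ (2 * Real.exp (w * p / 2 - 1)) * Real.exp (1 - w * p) :=
          mul_le_mul (by linarith) b1 (pow_nonneg (by linarith) _) (by positivity)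
      _ = _ := by ring
  have b5 : 0 ≤ Real.exp (w * p / 2 - 1) * Real.exp (1 - w * p) * 2 ^ M := by positivity
  nlinarith [mul_le_mul_of_nonneg_right b4 hn.le]

noncomputable def lam : ℝ := 1 / 2 ^ 18
noncomputable def poi (a : ℕ) : ℝ := Real.exp (-lam) * lam ^ a / (a.factorial : ℝ)

lemma lam_pos : 0 < lam := by unfold lam; positivity
lemma poi_nonneg (a : ℕ) : 0 ≤ poi a := by have := lam_pos; unfold poi; positivity

lemma poi_sum : HasSum poi 1 := by
  have := (NormedSpace.expSeries_div_hasSum_exp lam).mul_left (Real.exp (-lam))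
  rw [← Real.exp_eq_exp_ℝ, ← Real.exp_add, neg_add_cancel, Real.exp_zero] at this
  have e : poi = fun i => Real.exp (-lam) * (lam ^ i / (i.factorial : ℝ)) := by
    funext a; rw [poi, mul_div_assoc]
  rw [e]; exact this

lemma poi_mean : HasSum (fun a => poi a * a) lam := by
  rw [← hasSum_nat_add_iff' 1]
  have e : (fun a : ℕ => poi (a + 1) * ((a + 1 : ℕ) : ℝ)) = fun a => lam * poi a := by
    funext a
    have : (a.factorial : ℝ) ≠ 0 := by positivity
    simp only [poi, Nat.factorial_succ]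
    push_cast
    field_simp
    ring
  rw [e]
  simpa using poi_sum.mul_left lam

lemma poi_bound {g : ℕ → ℝ} {c u : ℝ} (hc : 0 ≤ c) (hu : 0 ≤ u)
    (h : ∀ a, g a ≤ c + 2 ^ 18 * a + if a = 0 then u else 0) :
    ∑' a, ENNReal.ofReal (poi a) * ENNReal.ofReal (g a) ≤ ENNReal.ofReal (c + 1 + u * Real.exp (-lam)) := by
  have h1 := ((poi_sum.mul_right c).add (poi_mean.mul_left (2 ^ 18))).add
    (hasSum_ite_eq 0 (u * Real.exp (-lam)))
  have h2 : (2 : ℝ) ^ 18 * lam = 1 := by unfold lam; norm_num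
  rw [h2, one_mul] at h1
  have h3 : ∀ a, poi a * c + 2 ^ 18 * (poi a * a) + (if a = 0 then u * Real.exp (-lam) else 0) =
      poi a * (c + 2 ^ 18 * a + if a = 0 then u else 0) := by
    intro a
    split_ifs with ha
    · subst ha; simp [poi]; ring
    · ring
  simp_rw [h3] at h1
  rw [← h1.tsum_eq, ENNReal.ofReal_tsum_of_nonneg (fun a => mul_nonneg (poi_nonneg a) (by positivity)) h1.summable]
  refine ENNReal.tsum_le_tsum fun a => ?_
  rw [ENNReal.ofReal_mul (poi_nonneg a)]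
  gcongr
  exact h a

abbrev St : Type := Bool × ℕ × ℕ

@[irreducible] def N (m : ℕ) : ℕ := 2 ^ (m + 96)

lemma N_def (m : ℕ) : N m = 2 ^ (m + 96) := by unfold N; rfl
lemma N_cast (m : ℕ) : (N m : ℝ) = 2 ^ (m + 96) := by rw [N_def, Nat.cast_pow, Nat.cast_ofNat]
lemma N_succ (m : ℕ) : N (m + 1) = 2 * N m := by rw [N_def, N_def, Nat.add_right_comm, pow_succ, mul_comm]
lemma N_big (m : ℕ) : (2 : ℝ) ^ 30 ≤ N m := by
  rw [N_cast]; exact pow_le_pow_right₀ (by norm_num) (by omega)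

def nxt : St → Bool → St
  | (false, m, _), true => (true, m, 0)
  | (false, m, t), false => if t + 1 < N m then (false, m, t + 1) else (false, m + 1, 0)
  | (true, m, t), _ => if t + 1 < 1024 * N m then (true, m, t + 1) else (false, 0, 0)

def valid : St → Prop
  | (false, m, t) => t < N m
  | (true, m, t) => t < 1024 * N m

lemma N_pos (m : ℕ) : 0 < N m := by rw [N_def]; positivity

lemma valid_nxt (s : St) (b : Bool) : valid (nxt s b) := by
  rcases s with ⟨_ | _, m, t⟩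
  · cases b
    · simp only [nxt]; split_ifs with h
      exacts [h, N_pos _]
    · have := N_pos m
      simp only [nxt, valid]; omega
  · simp only [nxt]; split_ifs with h
    exacts [h, N_pos _]

noncomputable def lo : St → ℝ
  | (false, m, _) => ((m + 96 : ℕ) : ℝ) / (16 * 2 ^ (m + 96))
  | (true, m, _) => 1 / (512 * N m)

lemma lo_mem (s : St) : 0 < lo s ∧ 2 * lo s ≤ 1 := by
  rcases s with ⟨_ | _, m, t⟩
  · have := (M_le (m + 96) (by omega)).1
    simp only [lo]
    refine ⟨by positivity, ?_⟩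
    rw [← mul_div_assoc, div_le_one (by positivity)]
    have : (0 : ℝ) < 2 ^ (m + 96) := by positivity
    linarith
  · have := N_big m
    simp only [lo]
    refine ⟨by positivity, ?_⟩
    rw [← mul_div_assoc, div_le_one (by positivity)]
    linarith

lemma exists_pp : ∃ pp : St → ℝ, Function.Injective pp ∧ ∀ s, lo s ≤ pp s ∧ pp s ≤ 2 * lo s := by
  obtain ⟨e, he⟩ := Countable.exists_injective_nat St
  have h : ∀ s, ∃ q : ℚ, lo s - e s * √2 < q ∧ (q : ℝ) < 2 * lo s - e s * √2 := fun s =>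
    exists_rat_btwn (by linarith [(lo_mem s).1])
  choose q hq using h
  refine ⟨fun s => q s + e s * √2, fun s s' h => he ?_, fun s => by constructor <;> linarith [hq s]⟩
  by_contra hne
  have h1 : ((e s : ℝ) - e s') ≠ 0 := sub_ne_zero.2 (by exact_mod_cast hne)
  refine irrational_sqrt_two ⟨(q s' - q s) / ((e s : ℚ) - e s'), ?_⟩
  push_cast
  rw [div_eq_iff h1]
  simp only at h
  linarith

noncomputable def pp : St → ℝ := exists_pp.choose
lemma pp_inj : Function.Injective pp := exists_pp.choose_spec.1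
lemma pp_lo (s : St) : lo s ≤ pp s ∧ pp s ≤ 2 * lo s := exists_pp.choose_spec.2 s
lemma pp_mem (s : St) : 0 ≤ pp s ∧ pp s ≤ 1 := by
  have := lo_mem s; have := pp_lo s; constructor <;> linarith

noncomputable def V1 (n t w : ℕ) : ℝ := 2 ^ 16 * w + 2 ^ 17 * max ((w : ℝ) - n / 2) 0 + 2048 * n +
  4104 * n * (1 - 3 / n) ^ (n - t) * (if w = 0 then 2 else 1) + 2 * ((n : ℝ) - t)
noncomputable def V2 (n t w : ℕ) : ℝ := 2 ^ 17 * w - 1028 * ((n : ℝ) + t)
noncomputable def al (n t : ℕ) : ℝ := 1 - (1024 * n - t) / (2048 * n)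
noncomputable def VC (n t w : ℕ) : ℝ :=
  min (2 ^ 17 * (al n t * w + 2 * (1 - al n t) * max ((w : ℝ) - 64 * n) 0)) (2 ^ 17 * (w : ℝ)) + 2 * (1024 * (n : ℝ) - t)

noncomputable def v (w : ℕ) : St → ℝ
  | (false, m, t) => if 4 * w < N m then (if m = 0 ∧ t = 0 then 0 else V1 (N m) t w)
      else min (V1 (N m) t w) (V2 (N m) t w)
  | (true, m, t) => VC (N m) t w

lemma q_mem (m : ℕ) : (0 : ℝ) ≤ 1 - 3 / N m ∧ (1 - 3 / N m : ℝ) ^ N m ≤ 1 / 4 := by
  have h := N_big m
  have h1 : (3 / N m : ℝ) ≤ 1 := by rw [div_le_one (by linarith)]; linarith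
  refine ⟨by linarith, ?_⟩
  have := rev (by positivity) h1 (N m)
  rw [mul_div_cancel₀ _ (by linarith)] at this
  linarith

lemma B1 (m t w : ℕ) (ht : t < N m) : v w (nxt (false, m, t) false) ≤ V1 (N m) (t + 1) w := by
  simp only [nxt]
  split_ifs with h
  · simp only [v]
    split_ifs with h1 h2
    exacts [h2.2.elim, le_rfl, min_le_left _ _]
  · have e : t + 1 = N m := by omega
    have h3 : v w (false, m + 1, 0) ≤ V1 (N (m + 1)) 0 w := by
      simp only [v]
      split_ifs with h1 h2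
      exacts [h2.1.elim, le_rfl, min_le_left _ _]
    refine h3.trans ?_
    obtain ⟨-, q2⟩ := q_mem (m + 1)
    have hn := N_big m
    rw [e, V1, V1, Nat.sub_zero, Nat.sub_self, pow_zero]
    generalize (1 - 3 / N (m + 1) : ℝ) ^ N (m + 1) = r at q2
    rw [N_succ]
    push_cast
    have a1 : max ((w : ℝ) - 2 * N m / 2) 0 ≤ max ((w : ℝ) - N m / 2) 0 := max_le_max (by linarith) le_rfl
    split_ifs <;> nlinarith

lemma B2 (m t w : ℕ) (ht : t < N m) (hw : N m ≤ 4 * w) :
    v w (nxt (false, m, t) false) ≤ V2 (N m) (t + 1) w := by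
  simp only [nxt]
  split_ifs with h
  · simp only [v]
    rw [if_neg (by omega)]
    exact min_le_right _ _
  · have e : t + 1 = N m := by omega
    have hn := N_big m
    have hw' : (N m : ℝ) ≤ 4 * w := by exact_mod_cast hw
    simp only [v]
    split_ifs with h1 h2
    · exact h2.1.elim
    · obtain ⟨-, q2⟩ := q_mem (m + 1)
      have h1' : (4 * w : ℝ) < N (m + 1) := by exact_mod_cast h1
      rw [e, V1, V2, Nat.sub_zero, max_eq_right (by linarith), if_neg (by have := N_pos m; omega)]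
      generalize (1 - 3 / N (m + 1) : ℝ) ^ N (m + 1) = r at q2
      rw [N_succ]
      push_cast
      nlinarith
    · refine (min_le_right _ _).trans (le_of_eq ?_)
      rw [e, V2, V2, N_succ]; push_cast; ring

lemma B3 (m t w : ℕ) (b : Bool) (ht : t < 1024 * N m) :
    v w (nxt (true, m, t) b) ≤ VC (N m) (t + 1) w := by
  simp only [nxt]
  split_ifs with h
  · exact le_rfl
  · have e : t + 1 = 1024 * N m := by omega
    have : VC (N m) (t + 1) w = 2 ^ 17 * w := by
      rw [e]; simp [VC, al]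
    rw [this]
    simp only [v]
    split_ifs with h1 h2
    · positivity
    · simp at h2
    · refine (min_le_right _ _).trans ?_
      have := N_big 0
      unfold V2; push_cast; linarith

lemma B4 (m w : ℕ) : VC (N m) 0 w ≤ 2 ^ 16 * w + 2 ^ 17 * max ((w : ℝ) - 64 * N m) 0 + 2048 * N m ∧
    VC (N m) 0 w ≤ 2 ^ 17 * w + 2048 * N m := by
  have hn := N_big m
  have : al (N m) 0 = 1 / 2 := by unfold al; field_simp; push_cast; ring
  unfold VC
  rw [this]
  have a1 := min_le_left (2 ^ 17 * (1 / 2 * w + 2 * (1 - 1 / 2) * max ((w : ℝ) - 64 * N m) 0) : ℝ) (2 ^ 17 * (w : ℝ))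
  have a2 := min_le_right (2 ^ 17 * (1 / 2 * w + 2 * (1 - 1 / 2) * max ((w : ℝ) - 64 * N m) 0) : ℝ) (2 ^ 17 * (w : ℝ))
  push_cast
  constructor <;> linarith

def Drift (w : ℕ) (s : St) (T : ℝ) : Prop := ∃ c1 c0 u : ℝ, 0 ≤ c1 ∧ 0 ≤ c0 ∧ 0 ≤ u ∧
  (∀ a : ℕ, v (w - 1 + a) (nxt s true) ≤ c1 + 2 ^ 18 * a) ∧
  (∀ a : ℕ, v (w + a) (nxt s false) ≤ c0 + 2 ^ 18 * a + if a = 0 then u else 0) ∧
  sc w (pp s) * (c1 + 1) + (1 - sc w (pp s)) * (c0 + 1 + u * Real.exp (-lam)) + 1 ≤ T

lemma mkD {w : ℕ} {s : St} {T c1 c0 u : ℝ} (hs : ∀ a : ℕ, v (w - 1 + a) (nxt s true) ≤ c1 + 2 ^ 18 * a)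
    (hf : ∀ a : ℕ, v (w + a) (nxt s false) ≤ c0 + 2 ^ 18 * a + if w + a = 0 then u else 0)
    (h1 : 0 ≤ c1) (h0 : 0 ≤ c0) (hu : 0 ≤ u)
    (hT : sc w (pp s) * (c1 + 1) + (1 - sc w (pp s)) *
      (c0 + 1 + (if w = 0 then u else 0) * Real.exp (-lam)) + 1 ≤ T) : Drift w s T := by
  refine ⟨c1, c0, _, h1, h0, by split_ifs <;> simp [hu], hs, fun a => (hf a).trans ?_, hT⟩
  by_cases hw : w = 0 <;> by_cases ha : a = 0 <;> simp [hw, ha]

lemma mkD' {w : ℕ} {s : St} {T c1 c0 : ℝ} (hs : ∀ a : ℕ, v (w - 1 + a) (nxt s true) ≤ c1 + 2 ^ 18 * a)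
    (hf : ∀ a : ℕ, v (w + a) (nxt s false) ≤ c0 + 2 ^ 18 * a) (h1 : 0 ≤ c1) (h0 : 0 ≤ c0)
    (hT : sc w (pp s) * (c1 + 1) + (1 - sc w (pp s)) * (c0 + 1) + 1 ≤ T) : Drift w s T :=
  ⟨c1, c0, 0, h1, h0, le_rfl, hs, by simpa using hf, by simpa using hT⟩

lemma max_add (x : ℝ) (a : ℕ) {y : ℝ} (h : y ≤ x + a) : max y 0 ≤ max x 0 + a := by
  have := le_max_left x 0; have := le_max_right x 0
  have : (0 : ℝ) ≤ a := by positivity
  exact max_le (by linarith) (by linarith)

lemma cast_le (w a : ℕ) : ((w - 1 + a : ℕ) : ℝ) ≤ w + a := by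
  exact_mod_cast (by omega : w - 1 + a ≤ w + a)

lemma drift1 (m t w : ℕ) (ht : t < N m) (hw : w ≤ N m) : Drift w (false, m, t) (V1 (N m) t w) := by
  have hn := N_big m
  obtain ⟨q1, -⟩ := q_mem m
  have ht' : (t : ℝ) + 1 ≤ N m := by exact_mod_cast ht
  have e : (1 - 3 / N m : ℝ) ^ (N m - t) = (1 - 3 / N m) ^ (N m - (t + 1)) * (1 - 3 / N m) := by
    rw [← pow_succ]; congr 1; omega
  have r0 : 0 ≤ 4104 * N m * (1 - 3 / N m : ℝ) ^ (N m - (t + 1)) := by positivity
  have m0 := le_max_right ((w : ℝ) - N m / 2) 0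
  have w0 : (0 : ℝ) ≤ w := by positivity
  have hs : ∀ a : ℕ, v (w - 1 + a) (nxt (false, m, t) true) ≤
      2 ^ 16 * w + 2 ^ 17 * max ((w : ℝ) - N m / 2) 0 + 2048 * N m + 2 ^ 18 * a := by
    intro a
    refine (B4 m _).1.trans ?_
    have a0 : (0 : ℝ) ≤ a := by positivity
    have a1 := cast_le w a
    have := max_add (w - N m / 2) a (y := ((w - 1 + a : ℕ) : ℝ) - 64 * N m) (by linarith)
    linarith
  have hf : ∀ a : ℕ, v (w + a) (nxt (false, m, t) false) ≤
      2 ^ 16 * w + 2 ^ 17 * max ((w : ℝ) - N m / 2) 0 + 2048 * N m +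
        4104 * N m * (1 - 3 / N m : ℝ) ^ (N m - (t + 1)) + 2 * (N m - (t + 1)) + 2 ^ 18 * a +
        if w + a = 0 then 4104 * N m * (1 - 3 / N m : ℝ) ^ (N m - (t + 1)) else 0 := by
    intro a
    refine (B1 m t _ ht).trans ?_
    have a0 : (0 : ℝ) ≤ a := by positivity
    have := max_add (w - N m / 2) a (y := ((w + a : ℕ) : ℝ) - N m / 2) (by push_cast; linarith)
    unfold V1
    push_cast at this ⊢
    split_ifs <;> linarith
  unfold V1
  rw [e]
  generalize (1 - 3 / N m : ℝ) ^ (N m - (t + 1)) = r at *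
  refine mkD hs hf (by linarith) (by linarith) r0 ?_
  rcases Nat.eq_zero_or_pos w with rfl | hw0
  · have a1 : Real.exp (-lam) ≤ 1 - 6 / N m := by
      have b1 := Real.add_one_le_exp lam
      have b2 : (6 / N m : ℝ) ≤ 1 / 2 ^ 19 := by rw [div_le_iff₀ (by linarith)]; linarith
      rw [Real.exp_neg, inv_le_iff_one_le_mul₀ (Real.exp_pos _)]
      unfold lam at *
      nlinarith
    have a2 := mul_le_mul_of_nonneg_left a1 r0
    have a3 : (6 / N m : ℝ) = 2 * (3 / N m) := by ring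
    simp only [sc, Nat.cast_zero, if_true]
    rw [a3] at a2
    nlinarith
  · have a1 : (3 / N m : ℝ) ≤ sc w (pp (false, m, t)) := by
      have b1 := pp_lo (false, m, t)
      have := sc_low (M := m + 96) (by omega) b1.1 (b1.2.trans (le_of_eq (by simp only [lo]; ring))) hw0
        (N_def m ▸ hw)
      rwa [← N_cast] at this
    have a2 := (sc_mem (pp_mem (false, m, t)).1 (pp_mem _).2 w).1
    rw [if_neg (by omega), if_neg (by omega)]
    nlinarith [mul_le_mul_of_nonneg_left a1 r0]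

lemma drift2 (m t w : ℕ) (ht : t < N m) (hw : N m ≤ 4 * w) : Drift w (false, m, t) (V2 (N m) t w) := by
  have hn := N_big m
  have ht' : (t : ℝ) + 1 ≤ N m := by exact_mod_cast ht
  have t0 : (0 : ℝ) ≤ t := by positivity
  have hw' : (N m : ℝ) ≤ 4 * w := by exact_mod_cast hw
  obtain ⟨s0, s1⟩ := sc_mem (pp_mem (false, m, t)).1 (pp_mem _).2 w
  have hf : ∀ a : ℕ, v (w + a) (nxt (false, m, t) false) ≤
      (2 ^ 17 * w - 1028 * (N m + (t + 1))) + 2 ^ 18 * a := by
    intro a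
    refine (B2 m t _ ht (by omega)).trans ?_
    have a0 : (0 : ℝ) ≤ a := by positivity
    unfold V2
    push_cast
    linarith
  unfold V2
  rcases le_total w (64 * N m) with h | h
  · have h' : (w : ℝ) ≤ 64 * N m := by exact_mod_cast h
    refine mkD' (c1 := 2 ^ 16 * w + 2048 * N m) (fun a => ?_) hf (by linarith) (by linarith) (by nlinarith)
    refine (B4 m _).1.trans ?_
    have a0 : (0 : ℝ) ≤ a := by positivity
    have a1 := cast_le w a
    have : max (((w - 1 + a : ℕ) : ℝ) - 64 * N m) 0 ≤ a := max_le (by linarith) a0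
    linarith
  · refine mkD' (c1 := 2 ^ 17 * w + 2048 * N m) (fun a => ?_) hf (by linarith) (by linarith) ?_
    · refine (B4 m _).2.trans ?_
      have a0 : (0 : ℝ) ≤ a := by positivity
      have a1 := cast_le w a
      linarith
    · have := sc_high (M := m + 96) (by omega) (pp_lo (false, m, t)).1 (pp_mem _).2 (w := w) (N_def m ▸ h)
      rw [← N_cast] at this
      nlinarith

lemma drift3 (m t w : ℕ) (ht : t < 1024 * N m) : Drift w (true, m, t) (VC (N m) t w) := by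
  have hn := N_big m
  have ht' : (t : ℝ) + 1 ≤ 1024 * N m := by exact_mod_cast ht
  have t0 : (0 : ℝ) ≤ t := by positivity
  have w0 : (0 : ℝ) ≤ w := by positivity
  obtain ⟨s0, s1⟩ := sc_mem (pp_mem (true, m, t)).1 (pp_mem _).2 w
  have e1 : al (N m) t = al (N m) (t + 1) - 1 / (2048 * N m) := by
    unfold al; push_cast; field_simp; ring
  have e2 : 1 / 2 ≤ al (N m) (t + 1) ∧ al (N m) (t + 1) ≤ 1 := by
    unfold al; push_cast
    have a1 : (1024 * N m - (t + 1) : ℝ) / (2048 * N m) ≤ 1 / 2 := by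
      rw [div_le_iff₀ (by linarith)]; linarith
    have a2 : 0 ≤ (1024 * N m - (t + 1) : ℝ) / (2048 * N m) := div_nonneg (by linarith) (by linarith)
    constructor <;> linarith
  have m0 := le_max_right ((w : ℝ) - 64 * N m) 0
  have k0 : (0 : ℝ) < 1 / (2048 * N m) := by positivity
  have g1 : ∀ (b : Bool) (w' a : ℕ), w' ≤ w → v (w' + a) (nxt (true, m, t) b) ≤
      2 ^ 17 * w + 2 * (1024 * N m - (t + 1)) + 2 ^ 18 * a := by
    intro b w' a h
    refine (B3 m t _ b ht).trans ?_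
    have a0 : (0 : ℝ) ≤ a := by positivity
    have h' : (w' : ℝ) ≤ w := by exact_mod_cast h
    unfold VC
    refine (add_le_add_left (min_le_right _ _) _).trans ?_
    push_cast; linarith
  have g2 : ∀ (b : Bool) (w' a : ℕ), w' ≤ w → v (w' + a) (nxt (true, m, t) b) ≤
      2 ^ 17 * (al (N m) (t + 1) * w' + 2 * (1 - al (N m) (t + 1)) * max ((w : ℝ) - 64 * N m) 0) +
        2 * (1024 * N m - (t + 1)) + 2 ^ 18 * a := by
    intro b w' a h
    refine (B3 m t _ b ht).trans ?_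
    have a0 : (0 : ℝ) ≤ a := by positivity
    have h' : (w' : ℝ) ≤ w := by exact_mod_cast h
    unfold VC
    refine (add_le_add_left (min_le_left _ _) _).trans ?_
    have := max_add (w - 64 * N m) a (y := ((w' + a : ℕ) : ℝ) - 64 * N m) (by push_cast; linarith)
    push_cast at this ⊢
    nlinarith [mul_le_mul_of_nonneg_left this (sub_nonneg.2 e2.2)]
  unfold VC
  rw [e1]
  generalize al (N m) (t + 1) = A at *
  rcases le_total w (128 * N m) with h | h
  · rcases min_choice (2 ^ 17 * ((A - 1 / (2048 * N m)) * w +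
      2 * (1 - (A - 1 / (2048 * N m))) * max ((w : ℝ) - 64 * N m) 0) : ℝ) (2 ^ 17 * (w : ℝ)) with h1 | h1
    · have x0 : (0 : ℝ) ≤ ((w - 1 : ℕ) : ℝ) := by positivity
      have x1 := mul_nonneg (sub_nonneg.2 e2.2) m0
      refine mkD' (fun a => g2 true _ a (by omega)) (fun a => g2 false w a le_rfl)
        (by nlinarith) (by nlinarith) ?_
      rw [h1]
      have h' : (w : ℝ) ≤ 128 * N m := by exact_mod_cast h
      obtain ⟨p1, p2⟩ := pp_lo (true, m, t)
      simp only [lo] at p1 p2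
      have a1 : w * pp (true, m, t) ≤ 1 / 2 := by
        calc _ ≤ (128 * N m * (2 * (1 / (512 * N m))) : ℝ) := by gcongr; exact (pp_mem _).1
          _ = _ := by field_simp; norm_num
      have a2 := sc_half (pp_mem _).1 (pp_mem _).2 a1
      have a3 : 2 * (1 / (2048 * N m) * w) ≤ sc w (pp (true, m, t)) := by
        refine le_trans ?_ a2
        calc _ = (w * (1 / (512 * N m)) / 2 : ℝ) := by field_simp; ring
          _ ≤ _ := by gcongr
      have a4 : sc w (pp (true, m, t)) * ((w - 1 : ℕ) : ℝ) = sc w (pp (true, m, t)) * (w - 1) := by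
        cases w with
        | zero => simp [sc]
        | succ k => simp
      have a5 := mul_nonneg k0.le m0
      generalize sc w (pp (true, m, t)) = σ at *
      have a6 : σ * (A * ((w - 1 : ℕ) : ℝ)) = A * (σ * (w - 1)) := by rw [← a4]; ring
      nlinarith [mul_le_mul_of_nonneg_right e2.1 s0]
    · refine mkD' (fun a => g1 true _ a (by omega)) (fun a => g1 false w a le_rfl)
        (by linarith) (by linarith) ?_
      rw [h1]; linarith
  · have h' : (128 * N m : ℝ) ≤ w := by exact_mod_cast h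
    refine mkD' (fun a => g1 true _ a (by omega)) (fun a => g1 false w a le_rfl)
      (by linarith) (by linarith) ?_
    rw [min_eq_right]
    · linarith
    · rw [max_eq_left (by linarith)]
      nlinarith [mul_nonneg (sub_nonneg.2 e2.2) (sub_nonneg.2 h'), mul_nonneg k0.le (sub_nonneg.2 h')]

lemma drift (w : ℕ) (s : St) (hs : valid s) :
    ∃ T, Drift w s T ∧ (¬ (s = (false, 0, 0) ∧ w < N 0) → T = v w s) := by
  rcases s with ⟨_ | _, m, t⟩
  · by_cases h : 4 * w < N m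
    · refine ⟨_, drift1 m t w hs (by omega), fun h1 => ?_⟩
      simp only [v]
      rw [if_pos h, if_neg]
      rintro ⟨rfl, rfl⟩
      exact h1 ⟨rfl, by omega⟩
    · simp only [v, if_neg h]
      rcases le_total (V2 (N m) t w) (V1 (N m) t w) with h1 | h1
      · exact ⟨_, drift2 m t w hs (by omega), fun _ => (min_eq_right h1).symm⟩
      · by_cases h2 : w ≤ N m
        · exact ⟨_, drift1 m t w hs h2, fun _ => (min_eq_left h1).symm⟩
        · refine ⟨_, drift2 m t w hs (by omega), fun _ => (min_eq_right ?_).symm⟩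
          have a1 : (N m : ℝ) ≤ w := by exact_mod_cast (not_le.1 h2).le
          have a2 : (t : ℝ) ≤ N m := by exact_mod_cast (show t < N m from hs).le
          have a3 := le_max_left ((w : ℝ) - N m / 2) 0
          have a4 : 0 ≤ 4104 * N m * (1 - 3 / N m : ℝ) ^ (N m - t) * (if w = 0 then 2 else 1) := by
            have := (q_mem m).1; positivity
          have a5 : (0 : ℝ) ≤ t := by positivity
          unfold V1 V2
          linarith
  · exact ⟨_, drift3 m t w hs, fun _ => rfl⟩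

open Classical in
noncomputable def Pr (x y : ℕ × St) : ℝ :=
  (if x.1 ≤ y.1 + 1 ∧ nxt x.2 true = y.2 then sc x.1 (pp x.2) * poi (y.1 + 1 - x.1) else 0) +
  (if x.1 ≤ y.1 ∧ nxt x.2 false = y.2 then (1 - sc x.1 (pp x.2)) * poi (y.1 - x.1) else 0)

lemma sc_pp (w : ℕ) (s : St) : 0 ≤ sc w (pp s) ∧ 0 ≤ 1 - sc w (pp s) := by
  have := sc_mem (pp_mem s).1 (pp_mem s).2 w
  exact ⟨this.1, by linarith⟩

lemma Pr_nonneg (x y : ℕ × St) : 0 ≤ Pr x y := by
  have := sc_pp x.1 x.2
  have h1 := mul_nonneg this.1 (poi_nonneg (y.1 + 1 - x.1))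
  have h2 := mul_nonneg this.2 (poi_nonneg (y.1 - x.1))
  unfold Pr; split_ifs <;> linarith

open Classical in
lemma shift (k : ℕ) (s : St) {c : ℝ} (hc : 0 ≤ c) (F : ℕ × St → ℝ≥0∞) :
    ∑' y : ℕ × St, ENNReal.ofReal (if k ≤ y.1 ∧ s = y.2 then c * poi (y.1 - k) else 0) * F y =
      ENNReal.ofReal c * ∑' a, ENNReal.ofReal (poi a) * F (k + a, s) := by
  have hi : Function.Injective fun a : ℕ => ((k + a, s) : ℕ × St) := fun a b h => by simpa using h
  rw [← hi.tsum_eq, ← ENNReal.tsum_mul_left]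
  · refine tsum_congr fun a => ?_
    simp [ENNReal.ofReal_mul hc, mul_assoc]
  · rintro ⟨w, s'⟩ h
    by_cases h1 : k ≤ w ∧ s = s'
    · exact ⟨w - k, by simp [h1.1, h1.2]⟩
    · simp [h1] at h

lemma Pr_sum (w : ℕ) (s : St) (F : ℕ × St → ℝ≥0∞) :
    ∑' y, ENNReal.ofReal (Pr (w, s) y) * F y =
      ENNReal.ofReal (sc w (pp s)) * ∑' a, ENNReal.ofReal (poi a) * F (w - 1 + a, nxt s true) +
      ENNReal.ofReal (1 - sc w (pp s)) * ∑' a, ENNReal.ofReal (poi a) * F (w + a, nxt s false) := by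
  classical
  have h := sc_pp w s
  rw [← shift _ _ h.1, ← shift _ _ h.2, ← ENNReal.tsum_add]
  refine tsum_congr fun y => ?_
  have h1 := mul_nonneg h.1 (poi_nonneg (y.1 - (w - 1)))
  have h2 := mul_nonneg h.2 (poi_nonneg (y.1 - w))
  rw [← add_mul, ← ENNReal.ofReal_add (by positivity) (by positivity)]
  congr 2
  cases w with
  | zero => simp [sc, Pr]
  | succ k => simp [Pr]

open Classical in
noncomputable def VV (y : ℕ × St) : ℝ≥0∞ := if valid y.2 then ENNReal.ofReal (v y.1 y.2) else ∞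

lemma VV_drift {w : ℕ} {s : St} {T : ℝ} (h : Drift w s T) :
    ∑' y, ENNReal.ofReal (Pr (w, s) y) * VV y + 1 ≤ ENNReal.ofReal T := by
  obtain ⟨c1, c0, u, h1, h0, hu, hs, hf, hT⟩ := h
  obtain ⟨s0, s1⟩ := sc_pp w s
  have a1 := poi_bound h1 le_rfl (g := fun a => v (w - 1 + a) (nxt s true)) (by simpa using hs)
  have a2 := poi_bound h0 hu hf
  rw [Pr_sum]
  simp only [VV, valid_nxt, if_true]
  refine le_trans ?_ (ENNReal.ofReal_le_ofReal hT)
  rw [ENNReal.ofReal_add (by positivity) zero_le_one, ENNReal.ofReal_add (by positivity) (by positivity),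
    ENNReal.ofReal_mul s0, ENNReal.ofReal_mul s1, ENNReal.ofReal_one]
  rw [zero_mul, add_zero] at a1
  gcongr

lemma exists_pi : ∃ π : ℕ × St → ℝ≥0∞, ∑' x, π x = 1 ∧ ∀ y, π y = ∑' x, π x * ENNReal.ofReal (Pr x y) := by
  classical
  refine FL (fun x y => ENNReal.ofReal (Pr x y)) ?_ VV (0, (false, 0, 0)) ?_
    ((Finset.range (N 0)).image fun w => (w, (false, 0, 0))) ?_ ?_
  · rintro ⟨w, s⟩
    have h := Pr_sum w s fun _ => 1
    have h1 : ∑' a, ENNReal.ofReal (poi a) = 1 := by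
      rw [← ENNReal.ofReal_tsum_of_nonneg poi_nonneg poi_sum.summable, poi_sum.tsum_eq, ENNReal.ofReal_one]
    simp only [mul_one, h1] at h
    rw [h, ← ENNReal.ofReal_add (sc_pp w s).1 (sc_pp w s).2]
    simp
  · have : valid (false, 0, 0) := N_pos 0
    simp [VV, this]
  · rintro ⟨w, s⟩ h
    by_cases hs : valid s
    · obtain ⟨T, h1, h2⟩ := drift w s hs
      have := VV_drift h1
      rw [h2 fun h3 => h (Finset.mem_image.2 ⟨w, Finset.mem_range.2 h3.2, by rw [h3.1]⟩)] at this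
      simpa only [VV, hs, if_true] using this
    · simp [VV, hs]
  · intro x hx
    obtain ⟨w, -, rfl⟩ := Finset.mem_image.1 hx
    obtain ⟨T, h1, -⟩ := drift w (false, 0, 0) (N_pos 0)
    exact ne_top_of_le_ne_top ENNReal.ofReal_ne_top (le_self_add.trans (VV_drift h1))


/-- For some λ>0 and some update rule p↦f(p, success) on [0,1], the backlog/probability chain (Poisson(λ) arrivals, slot succeeds iff exactly one backlogged packet transmits) has a discrete stationary probability distribution. -/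
theorem result :
    ∃ lam : ℝ, 0 < lam ∧
      ∃ f : ℝ → Bool → ℝ,
        (∀ p ∈ Set.Icc (0:ℝ) 1, ∀ b : Bool, f p b ∈ Set.Icc (0:ℝ) 1) ∧
        ∃ π : ℕ → ℝ → ℝ,
          (∀ w p, 0 ≤ π w p) ∧
          (∀ w p, π w p ≠ 0 → p ∈ Set.Icc (0:ℝ) 1) ∧
          Summable (fun x : ℕ × ℝ => π x.1 x.2) ∧
          (∑' x : ℕ × ℝ, π x.1 x.2) = 1 ∧
          ∀ w' : ℕ, ∀ p' : ℝ,
            π w' p' = ∑' x : ℕ × ℝ, π x.1 x.2 *
              ((if x.1 ≤ w' + 1 ∧ f x.2 true = p' then
                  ((x.1 : ℝ) * x.2 * (1 - x.2) ^ (x.1 - 1)) *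
                    (Real.exp (-lam) * lam ^ (w' + 1 - x.1) / ((w' + 1 - x.1).factorial : ℝ))
                else 0) +
               (if x.1 ≤ w' ∧ f x.2 false = p' then
                  (1 - (x.1 : ℝ) * x.2 * (1 - x.2) ^ (x.1 - 1)) *
                    (Real.exp (-lam) * lam ^ (w' - x.1) / ((w' - x.1).factorial : ℝ))
                else 0)) := by
  classical
  obtain ⟨π, h1, h2⟩ := exists_pi
  have hi : Function.Injective fun y : ℕ × St => ((y.1, pp y.2) : ℕ × ℝ) := by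
    rintro ⟨w, s⟩ ⟨w', s'⟩ h
    simp only [Prod.mk.injEq] at h
    rw [h.1, pp_inj h.2]
  set e := fun y : ℕ × St => ((y.1, pp y.2) : ℕ × ℝ) with he
  set π' : ℕ × ℝ → ℝ := Function.extend e (fun y => (π y).toReal) 0 with hπ'
  have e1 : ∀ y, π' (e y) = (π y).toReal := fun y => hi.extend_apply _ _ y
  have e2 : ∀ x, x ∉ Set.range e → π' x = 0 := fun x hx => Function.extend_apply' _ _ x hx
  have e3 : ∀ g : ℕ × ℝ → ℝ, ∑' x, π' x * g x = ∑' y, (π y).toReal * g (e y) := by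
    intro g
    rw [← hi.tsum_eq]
    · simp only [e1]
    · intro x hx
      by_contra h
      exact hx (by simp [e2 x h])
  have πt : ∀ y, π y ≠ ∞ := fun y => ne_top_of_le_ne_top (by simp [h1]) (ENNReal.le_tsum (f := π) y)
  set f : ℝ → Bool → ℝ := fun p b => Function.extend pp (fun s => pp (nxt s b)) 0 p with hf
  have f1 : ∀ s b, f (pp s) b = pp (nxt s b) := fun s b => pp_inj.extend_apply _ _ s
  refine ⟨lam, lam_pos, f, fun p _ b => ?_, fun w p => π' (w, p), fun w p => ?_, fun w p h => ?_, ?_, ?_,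
    fun w' p' => ?_⟩
  · by_cases h : ∃ s, pp s = p
    · obtain ⟨s, rfl⟩ := h
      rw [f1]; exact pp_mem _
    · simp [hf, Function.extend_apply' _ _ p h]
  · by_cases h : (w, p) ∈ Set.range e
    · obtain ⟨y, hy⟩ := h
      simp only [← hy, e1]; exact ENNReal.toReal_nonneg
    · exact (e2 _ h).ge
  · by_cases h' : (w, p) ∈ Set.range e
    · obtain ⟨y, hy⟩ := h'
      have h3 : pp y.2 = p := (Prod.ext_iff.1 hy).2
      rw [← h3]; exact pp_mem _
    · exact absurd (e2 _ h') h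
  · refine (hi.summable_iff e2).1 ?_
    have : π' ∘ e = fun y => (π y).toReal := funext e1
    rw [this]
    exact ENNReal.summable_toReal (by simp [h1])
  · have := e3 fun _ => 1
    simp only [mul_one] at this
    rw [this, ← ENNReal.tsum_toReal_eq πt, h1, ENNReal.toReal_one]
  · refine Eq.trans ?_ (e3 _).symm
    simp only [he, f1]
    by_cases h : ∃ s, pp s = p'
    · obtain ⟨s, rfl⟩ := h
      refine (e1 (w', s)).trans ?_
      rw [h2, ENNReal.tsum_toReal_eq fun x => ENNReal.mul_ne_top (πt x) ENNReal.ofReal_ne_top]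
      refine tsum_congr fun x => ?_
      rw [ENNReal.toReal_mul, ENNReal.toReal_ofReal (Pr_nonneg _ _)]
      simp only [pp_inj.eq_iff]
      rfl
    · rw [e2 _ (by rintro ⟨y, hy⟩; exact h ⟨_, (Prod.ext_iff.1 hy).2⟩)]
      push Not at h
      simp [h]

end Pool.Agent.S19597
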