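import Pool.Statements.S19615
import Pool.Agent.Lib.helper25.MixB

set_option autoImplicit false
open MeasureTheory
open Pool Pool.MP_bf37ff_pr

namespace Pool.Agent.S19615

/-- For every probability law on the reals with a density and support in a bounded interval, there is N such that for every n ≥ N some joint law on n coordinates has all marginals equal to it and an a.s. constant coordinate sum. -/
theorem result :
    ∀ μ : Measure ℝ, IsProbabilityMeasure μ →
      μ ≪ volume →
      (∃ a b : ℝ, μ (Set.Icc a b)ᶜ = 0) →
      ∃ N : ℕ, ∀ n : ℕ, N ≤ n →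
        ∃ ν : Measure (Fin n → ℝ), IsProbabilityMeasure ν ∧
          (∀ i : Fin n, ν.map (fun x => x i) = μ) ∧
          ∃ c : ℝ, ∀ᵐ x ∂ν, ∑ i, x i = c := by
  rintro μ hμ hac ⟨a, b, hab⟩
  have hab' : ∀ᵐ x ∂μ, x ∈ Set.Icc a b := hab
  have hi := Pool.Agent.Lib.H25Mix.integ hab'
  set m := ∫ x, x ∂μ with hm
  have hs : Measurable fun x : ℝ => x - m := by fun_prop
  have : IsProbabilityMeasure (μ.map fun x => x - m) := Measure.isProbabilityMeasure_map hs.aemeasurable
  obtain ⟨N, hN⟩ := Pool.Agent.Lib.H25Mix.mixable (F := μ.map fun x => x - m) (a := a - m) (b := b - m)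
    (by
      have := hac.map hs
      rwa [map_sub_right_eq_self volume] at this)
    (by
      refine (ae_map_iff hs.aemeasurable (p := fun x => x ∈ Set.Icc (a - m) (b - m)) measurableSet_Icc).2 ?_
      filter_upwards [hab'] with x hx
      exact ⟨by linarith [hx.1], by linarith [hx.2]⟩)
    (by
      rw [integral_map (f := fun x => x) hs.aemeasurable measurable_id.aestronglyMeasurable, integral_sub hi (integrable_const _)]
      simp [hm])
  refine ⟨N, fun n hn => ?_⟩
  obtain ⟨π, h1, h2, h3⟩ := hN n hn
  have ht : Measurable fun (x : Fin n → ℝ) (i : Fin n) => x i + m := by fun_prop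
  refine ⟨π.map fun x i => x i + m, Measure.isProbabilityMeasure_map ht.aemeasurable, fun i => ?_, n * m, ?_⟩
  · have ha : Measurable fun x : ℝ => x + m := by fun_prop
    rw [Measure.map_map (measurable_pi_apply i) ht]
    have e : ((fun x : Fin n → ℝ => x i) ∘ fun (x : Fin n → ℝ) (i : Fin n) => x i + m) =
        (fun x : ℝ => x + m) ∘ fun x : Fin n → ℝ => x i := rfl
    rw [e, ← Measure.map_map ha (measurable_pi_apply i), h2, Measure.map_map ha hs]
    have e2 : ((fun x : ℝ => x + m) ∘ fun x => x - m) = id := by
      funext x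
      simp
    rw [e2, Measure.map_id]
  · rw [ae_map_iff ht.aemeasurable (by measurability)]
    filter_upwards [h3] with x hx
    simp [Finset.sum_add_distrib, hx]

end Pool.Agent.S19615
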