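import Pool.Statements.S19632

set_option autoImplicit false
open MeasureTheory Filter Topology
open Pool Pool.MP_c7dc48_pr

namespace Pool.Agent.S19632

open scoped ENNReal
open ProbabilityTheory

noncomputable def coin : Measure Bool := (PMF.uniformOfFintype Bool).toMeasure
instance : IsProbabilityMeasure coin := by unfold coin; infer_instance

lemma coin_single (b : Bool) : coin {b} = 2⁻¹ := by
  rw [coin, PMF.toMeasure_apply_singleton _ _ (measurableSet_singleton b), PMF.uniformOfFintype_apply]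
  simp

noncomputable def cs (ι : Type) : Measure (ι → Bool) := Measure.infinitePi fun _ => coin
instance (ι : Type) : IsProbabilityMeasure (cs ι) := by unfold cs; infer_instance

lemma pair {ι α β : Type} {f : α → ι} {g : β → ι} (hf : Function.Injective f)
    (hg : Function.Injective g) (hfg : ∀ a b, f a ≠ g b) :
    (cs ι).map (fun x => (fun a => x (f a), fun b => x (g b))) = (cs α).prod (cs β) := by
  have hind : iIndep (fun i : ι => MeasurableSpace.comap (fun x : ι → Bool => x i) inferInstance) (cs ι) :=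
    (iIndepFun_iff_iIndep _ _ _).1 (iIndepFun_infinitePi (X := fun _ ω => ω) (by fun_prop))
  have h1 := indep_iSup_of_disjoint (fun i => (measurable_pi_apply i).comap_le) hind
    (S := Set.range f) (T := Set.range g) (by
      rw [Set.disjoint_left]; rintro _ ⟨a, rfl⟩ ⟨b, h⟩; exact hfg a b h.symm)
  have key : ∀ {γ : Type} (e : γ → ι), MeasurableSpace.comap (fun (x : ι → Bool) a => x (e a)) inferInstance ≤
      ⨆ i ∈ Set.range e, MeasurableSpace.comap (fun x : ι → Bool => x i) inferInstance := by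
    intro γ e
    refine Measurable.comap_le (@measurable_pi_lambda _ _ _ (_) _ _ fun a => ?_)
    exact Measurable.of_comap_le (le_iSup₂_of_le (e a) ⟨a, rfl⟩ le_rfl)
  have h2 : IndepFun (fun (x : ι → Bool) a => x (f a)) (fun (x : ι → Bool) b => x (g b)) (cs ι) :=
    (IndepFun_iff_Indep _ _ _).2 (indep_of_indep_of_le_right (indep_of_indep_of_le_left h1 (key f)) (key g))
  rw [h2.map_prod_eq_prod_map_map (Measurable.aemeasurable (by fun_prop))
    (Measurable.aemeasurable (by fun_prop))]
  unfold cs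
  rw [Measure.map_infinitePi_infinitePi_of_inj hf, Measure.map_infinitePi_infinitePi_of_inj hg]

abbrev X : Type := List Bool → Bool
abbrev Bs : Type := ℕ → Bool

def sub (β : Bool) (x : X) : X := fun w => x (β :: w)
def cons (β : Bool) (b : Bs) : Bs := fun n => Nat.casesOn n β b
def Φ (z : X × Bs) : X × Bs := (sub (z.2 0) z.1, fun i => z.2 (i + 1))

@[fun_prop] lemma m_sub (β : Bool) : Measurable (sub β) := by unfold sub; fun_prop
lemma m_cons (β : Bool) : Measurable (cons β) := by
  refine measurable_pi_lambda _ fun n => ?_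
  cases n
  · exact measurable_const
  · exact measurable_pi_apply _
lemma m_Φ : Measurable Φ := by
  refine Measurable.prodMk ?_ (by fun_prop)
  have : Measurable fun z : X × Bool => sub z.2 z.1 :=
    measurable_from_prod_countable_left fun β => m_sub β
  exact this.comp (f := fun z : X × Bs => (z.1, z.2 0)) (by fun_prop)

lemma sub_pair : (cs (List Bool)).map (fun x => (sub false x, sub true x)) =
    (cs (List Bool)).prod (cs (List Bool)) :=
  pair (List.cons_injective) (List.cons_injective) (by simp)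

lemma sub_mp (β : Bool) : MeasurePreserving (sub β) (cs (List Bool)) (cs (List Bool)) :=
  ⟨m_sub β, Measure.map_infinitePi_infinitePi_of_inj (P := fun _ => coin) List.cons_injective⟩

lemma q_cons {T : Set Bs} (hT : MeasurableSet T) :
    (cs ℕ).real T = ((cs ℕ).real (cons false ⁻¹' T) + (cs ℕ).real (cons true ⁻¹' T)) / 2 := by
  have h1 := pair (f := fun _ : Unit => (0 : ℕ)) (g := Nat.succ) (fun _ _ _ => rfl) Nat.succ_injective
    (fun _ b => (Nat.succ_ne_zero b).symm)
  have h2 : (cs Unit).map (fun u => u ()) = coin := Measure.infinitePi_map_eval _ _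
  have h3 : (cs ℕ).map (fun b => (b 0, fun i => b (i + 1))) = coin.prod (cs ℕ) := by
    have := Measure.map_prod_map (cs Unit) (cs ℕ) (f := fun u => u ()) (g := id) (by fun_prop) measurable_id
    rw [h2, Measure.map_id, ← h1, Measure.map_map (by fun_prop) (by fun_prop)] at this
    exact this.symm
  have hm : Measurable fun z : Bool × Bs => cons z.1 z.2 :=
    measurable_from_prod_countable_right fun β => m_cons β
  have h4 : T = (fun b : Bs => (b 0, fun i => b (i + 1))) ⁻¹' ((fun z : Bool × Bs => cons z.1 z.2) ⁻¹' T) := by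
    ext b
    have : cons (b 0) (fun i => b (i + 1)) = b := by funext n; cases n <;> rfl
    simp [this]
  have h5 : cs ℕ T = (cs ℕ (cons true ⁻¹' T) + cs ℕ (cons false ⁻¹' T)) * 2⁻¹ := by
    conv_lhs => rw [h4]
    rw [← Measure.map_apply (by fun_prop) (hm hT), h3, Measure.prod_apply (hm hT), lintegral_fintype]
    simp only [Fintype.sum_bool, coin_single, add_mul]
    rfl
  simp only [Measure.real, h5, ENNReal.toReal_mul]
  rw [ENNReal.toReal_add (measure_ne_top _ _) (measure_ne_top _ _)]
  simp; ring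

def BM (ψ : X → ℝ) : Prop := Measurable ψ ∧ ∀ x, |ψ x| ≤ 1

lemma BM.int {ψ : X → ℝ} (h : BM ψ) : Integrable ψ (cs (List Bool)) :=
  Integrable.of_bound h.1.aestronglyMeasurable 1 (Eventually.of_forall h.2)

lemma BM.mul {ψ χ : X → ℝ} (h : BM ψ) (h' : BM χ) : BM fun x => ψ x * χ x :=
  ⟨h.1.mul h'.1, fun x => by rw [abs_mul]; exact mul_le_one₀ (h.2 x) (abs_nonneg _) (h'.2 x)⟩

lemma BM.sub {ψ : X → ℝ} (h : BM ψ) (β : Bool) : BM fun x => ψ (sub β x) :=
  ⟨h.1.comp (m_sub β), fun _ => h.2 _⟩

lemma BM.int_sub {ψ : X → ℝ} (h : BM ψ) (β : Bool) :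
    ∫ x, ψ (S19632.sub β x) ∂(cs (List Bool)) = ∫ x, ψ x ∂(cs (List Bool)) := by
  conv_rhs => rw [← (sub_mp β).map_eq]
  rw [integral_map (m_sub β).aemeasurable h.1.aestronglyMeasurable]

noncomputable def T (ψ : X → ℝ) (x : X) : ℝ := (ψ (sub false x) + ψ (sub true x)) / 2

lemma BM.T {ψ : X → ℝ} (h : BM ψ) : BM (T ψ) := by
  refine ⟨((h.sub false).1.add (h.sub true).1).div_const _, fun x => ?_⟩
  have h1 := abs_le.1 (h.2 (S19632.sub false x))
  have h2 := abs_le.1 (h.2 (S19632.sub true x))
  unfold S19632.T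
  rw [abs_le]; constructor <;> linarith

lemma BM.int_T {ψ : X → ℝ} (h : BM ψ) :
    ∫ x, S19632.T ψ x ∂(cs (List Bool)) = ∫ x, ψ x ∂(cs (List Bool)) := by
  unfold S19632.T
  rw [integral_div, integral_add (h.sub _).int (h.sub _).int, h.int_sub, h.int_sub]
  ring

lemma BM.sq_T {ψ : X → ℝ} (h : BM ψ) (h0 : ∫ x, ψ x ∂(cs (List Bool)) = 0) :
    ∫ x, S19632.T ψ x * S19632.T ψ x ∂(cs (List Bool)) = (∫ x, ψ x * ψ x ∂(cs (List Bool))) / 2 := by
  have h1 : ∫ x, ψ (S19632.sub false x) * ψ (S19632.sub true x) ∂(cs (List Bool)) = 0 := by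
    have := integral_map (μ := cs (List Bool)) (φ := fun x => (S19632.sub false x, S19632.sub true x))
      (Measurable.aemeasurable (by fun_prop)) (f := fun z : X × X => ψ z.1 * ψ z.2)
      ((h.1.comp measurable_fst).mul (h.1.comp measurable_snd)).aestronglyMeasurable
    rw [← this, sub_pair, integral_prod_mul, h0, zero_mul]
  have h2 : ∀ x, S19632.T ψ x * S19632.T ψ x =
      (ψ (S19632.sub false x) * ψ (S19632.sub false x) + ψ (S19632.sub true x) * ψ (S19632.sub true x)) / 4 +
        ψ (S19632.sub false x) * ψ (S19632.sub true x) / 2 := by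
    intro x; unfold S19632.T; ring
  have i1 := ((h.mul h).sub false).int
  have i2 := ((h.mul h).sub true).int
  have i3 := ((h.sub false).mul (h.sub true)).int
  simp_rw [h2]
  rw [integral_add ((i1.fun_add i2).div_const _) (i3.div_const _), integral_div, integral_div,
    integral_add i1 i2, (h.mul h).int_sub, (h.mul h).int_sub, h1]
  ring

noncomputable def M : Measure (X × Bs) := (cs (List Bool)).prod (cs ℕ)
instance : IsProbabilityMeasure M := by unfold M; infer_instance

noncomputable def φ (S : Set (X × Bs)) (x : X) : ℝ := (cs ℕ).real (Prod.mk x ⁻¹' S)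

lemma m_φ {S : Set (X × Bs)} (hS : MeasurableSet S) : Measurable (φ S) :=
  (measurable_measure_prodMk_left hS).ennreal_toReal

lemma bm_φ {S : Set (X × Bs)} (hS : MeasurableSet S) {m : ℝ} (h0 : 0 ≤ m) (h1 : m ≤ 1) :
    BM fun x => φ S x - m := by
  refine ⟨(m_φ hS).sub_const _, fun x => ?_⟩
  have a1 : 0 ≤ φ S x := measureReal_nonneg
  have a2 : φ S x ≤ 1 := measureReal_le_one
  rw [abs_le]; constructor <;> linarith

lemma int_φ {S : Set (X × Bs)} (hS : MeasurableSet S) : ∫ x, φ S x ∂(cs (List Bool)) = M.real S := by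
  unfold φ Measure.real M
  rw [integral_toReal (measurable_measure_prodMk_left hS).aemeasurable
    (Eventually.of_forall fun x => measure_lt_top _ _), Measure.prod_apply hS]

lemma φ_Φ {S : Set (X × Bs)} (hS : MeasurableSet S) (x : X) : φ (Φ ⁻¹' S) x = T (φ S) x :=
  q_cons (measurable_prodMk_left (m_Φ hS))

lemma Φ_mp : MeasurePreserving Φ M M := by
  refine ⟨m_Φ, Measure.ext fun S hS => ?_⟩
  rw [Measure.map_apply m_Φ hS, ← ENNReal.toReal_eq_toReal_iff' (measure_ne_top _ _) (measure_ne_top _ _)]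
  change M.real _ = M.real _
  have := bm_φ hS le_rfl zero_le_one
  simp only [sub_zero] at this
  rw [← int_φ (m_Φ hS), ← int_φ hS, ← this.int_T]
  simp_rw [φ_Φ hS]

lemma var_le {S : Set (X × Bs)} (hS : MeasurableSet S) (k : ℕ) :
    ∫ x, (φ (Φ^[k] ⁻¹' S) x - M.real S) * (φ (Φ^[k] ⁻¹' S) x - M.real S) ∂(cs (List Bool)) ≤ (1 / 2) ^ k := by
  have hb : ∀ k, BM fun x => φ (Φ^[k] ⁻¹' S) x - M.real S := fun k =>
    bm_φ (m_Φ.iterate k hS) measureReal_nonneg measureReal_le_one
  induction k with
  | zero =>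
    refine (integral_mono ((hb 0).mul (hb 0)).int (integrable_const 1) fun x =>
      (le_abs_self _).trans (((hb 0).mul (hb 0)).2 x)).trans (by simp)
  | succ k ih =>
    have h0 : ∫ x, (φ (Φ^[k] ⁻¹' S) x - M.real S) ∂(cs (List Bool)) = 0 := by
      have := bm_φ (m_Φ.iterate k hS) le_rfl zero_le_one
      simp only [sub_zero] at this
      rw [integral_sub this.int (integrable_const _), int_φ (m_Φ.iterate k hS)]
      simp [Measure.real, (Φ_mp.iterate k).measure_preimage hS.nullMeasurableSet]
    have h1 : ∀ x, φ (Φ^[k + 1] ⁻¹' S) x - M.real S = T (fun x => φ (Φ^[k] ⁻¹' S) x - M.real S) x := by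
      intro x
      rw [Function.iterate_succ, Set.preimage_comp, φ_Φ (m_Φ.iterate k hS)]
      unfold T; ring
    simp_rw [h1]
    rw [(hb k).sq_T h0, pow_succ]
    linarith

lemma markov {S : Set (X × Bs)} (hS : MeasurableSet S) (m : ℝ) (l : ℕ) : ∀ (y : X) (A : Set Bs),
    MeasurableSet A → (∀ b b', (∀ i < l, b i = b' i) → b ∈ A → b' ∈ A) →
    |(cs ℕ).real (A ∩ Prod.mk y ⁻¹' (Φ^[l] ⁻¹' S)) - (cs ℕ).real A * m| ≤
      T^[l] (fun x => |φ S x - m|) y := by
  induction l with
  | zero =>
    intro y A _ hA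
    rcases A.eq_empty_or_nonempty with rfl | ⟨b, hb⟩
    · simp
    · have : A = Set.univ := Set.eq_univ_of_forall fun b' => hA b b' (by simp) hb
      subst this
      simp [φ]
  | succ l ih =>
    intro y A hA hA'
    have key : ∀ β, |(cs ℕ).real (cons β ⁻¹' (A ∩ Prod.mk y ⁻¹' (Φ^[l + 1] ⁻¹' S))) -
        (cs ℕ).real (cons β ⁻¹' A) * m| ≤ T^[l] (fun x => |φ S x - m|) (sub β y) := by
      intro β
      refine ih (sub β y) _ (m_cons β hA) fun b b' h => hA' _ _ fun i hi => ?_
      cases i
      · rfl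
      · exact h _ (by omega)
    have k1 := abs_le.1 (key false)
    have k2 := abs_le.1 (key true)
    rw [q_cons hA, q_cons (hA.inter (measurable_prodMk_left (m_Φ.iterate _ hS))),
      Function.iterate_succ_apply' T, T, abs_le]
    constructor <;> linarith

lemma BM.iter {ψ : X → ℝ} (h : BM ψ) (l : ℕ) : BM (S19632.T^[l] ψ) ∧
    ∫ x, S19632.T^[l] ψ x ∂(cs (List Bool)) = ∫ x, ψ x ∂(cs (List Bool)) := by
  induction l with
  | zero => exact ⟨h, rfl⟩
  | succ l ih =>
    rw [Function.iterate_succ_apply']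
    exact ⟨ih.1.T, ih.1.int_T.trans ih.2⟩

lemma mixing {ε : ℝ} (hε : 0 < ε) {k : ℕ} (hk : (1 / 2 : ℝ) ^ k ≤ ε / 2 * (ε / 2)) (l : ℕ)
    {A S : Set (X × Bs)} (hA : MeasurableSet A) (hS : MeasurableSet S)
    (hA' : ∀ y b b', (∀ i < l, b i = b' i) → (y, b) ∈ A → (y, b') ∈ A) :
    |M.real (A ∩ Φ^[k + l] ⁻¹' S) - M.real A * M.real S| ≤ ε := by
  have hS' := m_Φ.iterate k hS
  have hb : BM fun x => φ (Φ^[k] ⁻¹' S) x - M.real S := bm_φ hS' measureReal_nonneg measureReal_le_one
  have hb' : BM fun x => |φ (Φ^[k] ⁻¹' S) x - M.real S| := ⟨hb.1.abs, fun x => by simpa using hb.2 x⟩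
  have hI := hA.inter (m_Φ.iterate (k + l) hS)
  have i1 := bm_φ hI le_rfl zero_le_one
  have i2 := bm_φ hA le_rfl zero_le_one
  simp only [sub_zero] at i1 i2
  rw [← int_φ hI, ← int_φ hA, ← integral_mul_const, ← integral_sub i1.int (i2.int.mul_const _)]
  refine (abs_integral_le_integral_abs).trans ?_
  refine (integral_mono (i1.int.sub (i2.int.mul_const _)).abs (hb'.iter l).1.int fun y => ?_).trans ?_
  · have := markov hS' (M.real S) l y _ (measurable_prodMk_left hA) (hA' y)
    rw [Function.iterate_add]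
    exact this
  rw [(hb'.iter l).2]
  have h1 : ∀ x, |φ (Φ^[k] ⁻¹' S) x - M.real S| ≤
      ε / 2 + (φ (Φ^[k] ⁻¹' S) x - M.real S) * (φ (Φ^[k] ⁻¹' S) x - M.real S) / (ε / 2) := by
    intro x
    rw [← abs_mul_abs_self, ← sub_le_iff_le_add', le_div_iff₀ (by positivity)]
    nlinarith [abs_nonneg (φ (Φ^[k] ⁻¹' S) x - M.real S), sq_nonneg (|φ (Φ^[k] ⁻¹' S) x - M.real S| - ε / 2)]
  refine (integral_mono hb'.int ((integrable_const _).fun_add ((hb.mul hb).int.div_const _)) h1).trans ?_
  rw [integral_add (integrable_const _) ((hb.mul hb).int.div_const _), integral_div (ε / 2)]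
  have h2 := (var_le hS k).trans hk
  rw [← div_le_iff₀ (by positivity)] at h2
  simp only [integral_const, probReal_univ, smul_eq_mul, one_mul]
  linarith

def path (z : X × Bs) : ℕ → X := fun n => (Φ^[n] z).1

lemma m_path : Measurable path := measurable_pi_lambda _ fun n => (m_Φ.iterate n).fst

lemma path_dep : ∀ (n : ℕ) (y : X) (b b' : Bs), (∀ i < n, b i = b' i) → path (y, b) n = path (y, b') n
  | 0, _, _, _, _ => rfl
  | n + 1, y, b, b', h => by
    have := path_dep n (sub (b 0) y) (fun i => b (i + 1)) (fun i => b' (i + 1)) fun i hi => h _ (by omega)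
    unfold path at this ⊢
    simp only [Function.iterate_succ_apply, Φ]
    rw [← h 0 (by omega)]
    exact this

def R (x y : X) : Prop := ∃ w : List Bool, y = fun v => x (w ++ v)

lemma m_R : MeasurableSet {z : X × X | R z.1 z.2} := by
  simp only [R, funext_iff]
  exact measurableSet_setOf.2 (Measurable.exists fun w => Measurable.forall fun v =>
    measurableSet_setOf.1 (measurableSet_eq_fun (by fun_prop) (by fun_prop)))

lemma single_null (x : X) : cs (List Bool) {x} = 0 := by
  have h : ∀ n : ℕ, cs (List Bool) {x} ≤ 2⁻¹ ^ n := by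
    intro n
    obtain ⟨s, hs⟩ := Infinite.exists_subset_card_eq (List Bool) n
    have := Measure.infinitePi_pi (fun _ : List Bool => coin) (s := s) (t := fun i => {x i})
      fun _ _ => measurableSet_singleton _
    simp only [coin_single, Finset.prod_const, hs] at this
    rw [← this]
    exact measure_mono (by simp [Set.mem_pi])
  exact le_zero_iff.1 (ge_of_tendsto' (ENNReal.tendsto_pow_atTop_nhds_zero_of_lt_one (by simp)) h)

instance : NullSingletonClass (cs (List Bool)) := ⟨single_null⟩

lemma R_null : (cs (List Bool)).prod (cs (List Bool)) {z : X × X | R z.1 z.2} = 0 := by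
  rw [Measure.prod_apply m_R]
  refine (lintegral_congr fun x => ?_).trans lintegral_zero
  exact (Set.countable_range fun (w : List Bool) v => x (w ++ v)).measure_zero _ |> measure_mono_null
    (by rintro y ⟨w, h⟩; exact ⟨w, h.symm⟩)

def F : Set (X → ℝ) :=
  {f | ∃ A : Set X, A.Finite ∧ (∀ x ∈ A, ∀ y ∈ A, R x y ∨ R y x) ∧ f = A.indicator 1}

lemma int_F {A : Set X} (hA : A.Finite) : ∫ y, A.indicator (1 : X → ℝ) y ∂(cs (List Bool)) = 0 := by
  rw [integral_indicator_one hA.measurableSet, Measure.real, hA.measure_zero]; simp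

lemma iid (m : ℕ) : ∀ᵐ x ∂(Measure.pi fun _ : Fin m => cs (List Bool)), ∀ i j, i ≠ j → ¬ R (x i) (x j) := by
  simp only [ae_all_iff]
  intro i j hij
  have := Measure.infinitePi_map_eval_prod (P := fun _ : Fin m => cs (List Bool)) hij
  rw [Measure.infinitePi_eq_pi] at this
  have h1 := R_null
  rw [← this, Measure.map_apply (by fun_prop) m_R] at h1
  rw [ae_iff]
  simpa using h1

lemma chain {ω : ℕ → X} (h : ∀ i, ∃ β, ω (i + 1) = sub β (ω i)) (i d : ℕ) : R (ω i) (ω (i + d)) := by
  induction d with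
  | zero => exact ⟨[], rfl⟩
  | succ d ih =>
    obtain ⟨w, hw⟩ := ih
    obtain ⟨β, hβ⟩ := h (i + d)
    refine ⟨w ++ [β], ?_⟩
    rw [← add_assoc, hβ, hw]
    funext v; simp [sub]


/-- The negation of the preceding statement: Take a stationary α-mixing process on X with marginal P0 and an infinite class of measurable functions into [0,B] whose empirical means converge uniformly in probability under i.i.d. P0 samples. Then empirical means along the process also converge uniformly in probability. -/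
theorem result :
    ¬ (∀ (X : Type) [mX : MeasurableSpace X] (P : Measure (ℕ → X)) [IsProbabilityMeasure P]
    (P0 : Measure X) [IsProbabilityMeasure P0] (𝓕 : Set (X → ℝ)) (B : ℝ),
    P.map (fun (ω : ℕ → X) (n : ℕ) => ω (n + 1)) = P →
    P0 = P.map (fun (ω : ℕ → X) => ω 0) →
    (∀ ε : ℝ, 0 < ε → ∃ K : ℕ, ∀ k : ℕ, K ≤ k → ∀ l : ℕ, ∀ A S : Set (ℕ → X),
       @MeasurableSet (ℕ → X)
         (⨆ (i : ℕ) (_ : i ≤ l), MeasurableSpace.comap (fun ω : ℕ → X => ω i) mX) A →
       @MeasurableSet (ℕ → X)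
         (⨆ (i : ℕ) (_ : l + k ≤ i), MeasurableSpace.comap (fun ω : ℕ → X => ω i) mX) S →
       |P.real (A ∩ S) - P.real A * P.real S| ≤ ε) →
    𝓕.Infinite →
    (∀ f ∈ 𝓕, Measurable f ∧ ∀ x, 0 ≤ f x ∧ f x ≤ B) →
    (∀ ε : ℝ, 0 < ε →
      Tendsto (fun m : ℕ => Measure.pi (fun _ : Fin m => P0)
        {x : Fin m → X | ∃ f ∈ 𝓕,
          ε < |(1 / (m : ℝ)) * ∑ i : Fin m, f (x i) - ∫ y, f y ∂P0|}) atTop (𝓝 0)) →
    (∀ ε : ℝ, 0 < ε →
      Tendsto (fun m : ℕ => P
        {ω : ℕ → X | ∃ f ∈ 𝓕,
          ε < |(1 / (m : ℝ)) * ∑ i ∈ Finset.range m, f (ω i) - ∫ y, f y ∂P0|}) atTop (𝓝 0))) := by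
  intro H
  have : IsProbabilityMeasure (M.map path) := Measure.isProbabilityMeasure_map m_path.aemeasurable
  have hsh : ∀ n, Measurable fun (ω : ℕ → X) (i : ℕ) => ω (i + n) := fun n => by fun_prop
  have H1 := H X (M.map path) (cs (List Bool)) F 1 ?_ ?_ ?_ ?_ ?_ ?_ (1 / 2) (by norm_num)
  · have hT : MeasurableSet {ω : ℕ → X | ∀ i, ∃ β, ω (i + 1) = sub β (ω i)} :=
      measurableSet_setOf.2 (Measurable.forall fun i => Measurable.exists fun β =>
        measurableSet_setOf.1 (measurableSet_eq_fun (by fun_prop) (by fun_prop)))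
    have hT1 : M.map path {ω : ℕ → X | ∀ i, ∃ β, ω (i + 1) = sub β (ω i)} = 1 := by
      rw [Measure.map_apply m_path hT, Set.eq_univ_of_forall (s := path ⁻¹' _), measure_univ]
      intro z i
      exact ⟨(Φ^[i] z).2 0, by simp only [path, Function.iterate_succ_apply']; rfl⟩
    obtain ⟨m, h1, h2⟩ := ((H1.eventually (gt_mem_nhds zero_lt_one)).and (eventually_gt_atTop 0)).exists
    refine absurd h1 (not_lt.2 (hT1 ▸ measure_mono fun ω hω => ?_))
    have hfin : (ω '' Set.Iio m).Finite := (Set.finite_Iio m).image _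
    refine ⟨_, ⟨ω '' Set.Iio m, hfin, ?_, rfl⟩, ?_⟩
    · rintro _ ⟨i, -, rfl⟩ _ ⟨j, -, rfl⟩
      rcases le_total i j with h | h
      · obtain ⟨d, rfl⟩ := Nat.exists_eq_add_of_le h; exact Or.inl (chain hω _ _)
      · obtain ⟨d, rfl⟩ := Nat.exists_eq_add_of_le h; exact Or.inr (chain hω _ _)
    · have e : ∑ i ∈ Finset.range m, (ω '' Set.Iio m).indicator (1 : X → ℝ) (ω i) = ∑ i ∈ Finset.range m, 1 :=
        Finset.sum_congr rfl fun i hi =>
          Set.indicator_of_mem (Set.mem_image_of_mem ω (show i ∈ Set.Iio m by simpa using hi)) _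
      rw [int_F hfin, e]
      have : (m : ℝ) ≠ 0 := by positivity
      simp [this]; norm_num
  · rw [Measure.map_map (hsh 1) m_path]
    conv_rhs => rw [← Φ_mp.map_eq, Measure.map_map m_path m_Φ]
    rfl
  · rw [Measure.map_map (by fun_prop) m_path]
    exact (Measure.map_fst_prod.trans (by simp)).symm
  · intro ε hε
    obtain ⟨K, hK⟩ := exists_pow_lt_of_lt_one (show 0 < ε / 2 * (ε / 2) by positivity)
      (show (1 / 2 : ℝ) < 1 by norm_num)
    refine ⟨K, fun k hk l A S hA hS => ?_⟩
    have a1 : (⨆ (i : ℕ) (_ : i ≤ l), MeasurableSpace.comap (fun ω : ℕ → X => ω i) inferInstance) ≤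
        MeasurableSpace.comap (fun (ω : ℕ → X) i => ω (min i l)) inferInstance := by
      refine iSup₂_le fun i hi => ?_
      have : (fun ω : ℕ → X => ω i) = (fun ω : ℕ → X => ω i) ∘ fun (ω : ℕ → X) i => ω (min i l) := by
        funext ω; simp [min_eq_left hi]
      rw [this, ← MeasurableSpace.comap_comp]
      exact MeasurableSpace.comap_mono (measurable_pi_apply i).comap_le
    have a2 : (⨆ (i : ℕ) (_ : l + k ≤ i), MeasurableSpace.comap (fun ω : ℕ → X => ω i) inferInstance) ≤
        MeasurableSpace.comap (fun (ω : ℕ → X) i => ω (i + (k + l))) inferInstance := by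
      refine iSup₂_le fun i hi => ?_
      have : (fun ω : ℕ → X => ω i) =
          (fun ω : ℕ → X => ω (i - (k + l))) ∘ fun (ω : ℕ → X) i => ω (i + (k + l)) := by
        funext ω; simp only [Function.comp]; congr 1; omega
      rw [this, ← MeasurableSpace.comap_comp]
      exact MeasurableSpace.comap_mono (measurable_pi_apply _).comap_le
    obtain ⟨A', hA', rfl⟩ := a1 A hA
    obtain ⟨S', hS', rfl⟩ := a2 S hS
    have mA : MeasurableSet ((fun (ω : ℕ → X) i => ω (min i l)) ⁻¹' A') := (by fun_prop : Measurable _) hA'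
    have mS := hsh (k + l) hS'
    have e1 : path ⁻¹' ((fun (ω : ℕ → X) i => ω (i + (k + l))) ⁻¹' S') = Φ^[k + l] ⁻¹' (path ⁻¹' S') := by
      ext z
      have : (fun i => path z (i + (k + l))) = path (Φ^[k + l] z) := by
        funext i; simp only [path, Function.iterate_add_apply]
      simp only [Set.mem_preimage, this]
    rw [map_measureReal_apply m_path (mA.inter mS), map_measureReal_apply m_path mA,
      map_measureReal_apply m_path mS, Set.preimage_inter, e1]
    have e2 : M.real (Φ^[k + l] ⁻¹' (path ⁻¹' S')) = M.real (path ⁻¹' S') := by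
      simp [Measure.real, (Φ_mp.iterate (k + l)).measure_preimage (m_path hS').nullMeasurableSet]
    rw [e2]
    refine mixing hε (le_trans (pow_le_pow_of_le_one (by norm_num) (by norm_num) hk) hK.le) l
      (m_path mA) (m_path hS') fun y b b' h hb => ?_
    have : (fun i => path (y, b') (min i l)) = fun i => path (y, b) (min i l) :=
      funext fun i => (path_dep _ y b b' fun j hj => h j (by omega)).symm
    simp only [Set.mem_preimage] at hb ⊢
    rwa [this]
  · refine Set.infinite_of_injective_forall_mem (f := fun x : X => ({x} : Set X).indicator (1 : X → ℝ)) ?_ ?_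
    · intro x y h
      by_contra hne
      have := congrFun h x
      simp [hne] at this
    · intro x
      exact ⟨{x}, Set.finite_singleton x, by rintro _ rfl _ rfl; exact Or.inl ⟨[], rfl⟩, rfl⟩
  · rintro _ ⟨A, hA, -, rfl⟩
    refine ⟨measurable_one.indicator hA.measurableSet, fun x => ?_⟩
    by_cases hx : x ∈ A <;> simp [hx]
  · intro ε hε
    refine tendsto_const_nhds.congr' ?_
    filter_upwards [(tendsto_one_div_atTop_nhds_zero_nat (𝕜 := ℝ)).eventually (gt_mem_nhds hε)] with m hm
    refine (measure_eq_zero_iff_ae_notMem.2 ?_).symm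
    filter_upwards [iid m] with x hx
    rintro ⟨_, ⟨A, hA, hR, rfl⟩, h⟩
    classical
    have h1 : ∑ i : Fin m, A.indicator (1 : X → ℝ) (x i) ≤ 1 := by
      simp only [Set.indicator_apply, Pi.one_apply, Finset.sum_boole, Nat.cast_le_one]
      refine Finset.card_le_one.2 fun i hi j hj => ?_
      by_contra hij
      rcases hR _ (Finset.mem_filter.1 hi).2 _ (Finset.mem_filter.1 hj).2 with h | h
      exacts [hx i j hij h, hx j i (Ne.symm hij) h]
    have h2 : 0 ≤ ∑ i : Fin m, A.indicator (1 : X → ℝ) (x i) :=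
      Finset.sum_nonneg fun i _ => Set.indicator_nonneg (by simp) _
    rw [int_F hA, sub_zero, abs_of_nonneg (by positivity)] at h
    have h3 : (0 : ℝ) ≤ 1 / m := by positivity
    nlinarith

end Pool.Agent.S19632
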