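import Pool.Statements.S19634
import Pool.Agent.Lib.helper1.ERW3

set_option autoImplicit false
open MeasureTheory ProbabilityTheory Filter Topology
open Pool Pool.MP_c7fa75_pr

namespace Pool.Agent.S19634

/-- The negation of the preceding statement: For i.i.d. cookie stacks with (WEL) and well-defined drift delta in [0,∞], the k-th walker on the leftover environment (annealed) is a.s. transient when k<delta and transient with probability zero when k≥delta. -/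
theorem result :
    ¬ (∀ (P : Measure (ℤ → ℕ → ℝ)), IsProbabilityMeasure P →
    (∀ᵐ ω ∂P, ∀ (x : ℤ) (n : ℕ), ω x n ∈ Set.Icc (0:ℝ) 1) →
    iIndepFun (fun (x : ℤ) (ω : ℤ → ℕ → ℝ) => ω x) P →
    (∀ x : ℤ, IdentDistrib (fun ω : ℤ → ℕ → ℝ => ω x) (fun ω => ω 0) P P) →
    (∀ x : ℤ, 0 < P {ω | ∀ n, 0 < ω x n} ∧ 0 < P {ω | ∀ n, ω x n < 1}) →
    (∀ᵐ ω ∂P, ∃ s : EReal, Tendsto
        (fun N : ℕ => (((∑ i ∈ Finset.range N, (2 * ω 0 i - 1) : ℝ)) : EReal)) atTop (𝓝 s)) →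
    (∫⁻ ω, (-(limsup (fun N : ℕ =>
        (((∑ i ∈ Finset.range N, (2 * ω 0 i - 1) : ℝ)) : EReal)) atTop)).toENNReal ∂P) < ⊤ →
    (0 : EReal) ≤
      ((∫⁻ ω, (limsup (fun N : ℕ =>
          (((∑ i ∈ Finset.range N, (2 * ω 0 i - 1) : ℝ)) : EReal)) atTop).toENNReal ∂P) : EReal)
      - ((∫⁻ ω, (-(limsup (fun N : ℕ =>
          (((∑ i ∈ Finset.range N, (2 * ω 0 i - 1) : ℝ)) : EReal)) atTop)).toENNReal ∂P) : EReal) →
    ∀ (Θ : Type) [MeasurableSpace Θ] (μ : Measure Θ), IsProbabilityMeasure μ →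
    ∀ (W : Θ → ℤ → ℕ → ℝ) (X : ℕ → Θ → ℕ → ℤ) (env : ℕ → Θ → ℤ → ℕ → ℝ),
    Measurable W → μ.map W = P → (∀ j, Measurable (X j)) →
    env 0 = W →
    (∀ (j : ℕ) (θ : Θ) (x : ℤ) (n : ℕ),
        Tendsto (fun m => |X j θ m|) atTop atTop →
          env (j+1) θ x n = env j θ x (n + Nat.card {m : ℕ // X j θ m = x})) →
    (∀ (j : ℕ) (θ : Θ) (x : ℤ) (n : ℕ),
        ¬ Tendsto (fun m => |X j θ m|) atTop atTop → env (j+1) θ x n = 1/2) →
    (∀ (j : ℕ) (θ : Θ), X j θ 0 = 0) →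
    (∀ (j : ℕ) (θ : Θ) (n : ℕ), X j θ (n+1) = X j θ n + 1 ∨ X j θ (n+1) = X j θ n - 1) →
    (∀ (j n : ℕ),
        condExp
          (MeasurableSpace.comap
            (fun θ => (W θ, (fun i : Fin j => X (i : ℕ) θ), (fun m : Fin (n+1) => X j θ (m : ℕ))))
            inferInstance)
          μ
          (Set.indicator {θ | X j θ (n+1) = X j θ n + 1} (fun _ => (1:ℝ)))
        =ᵐ[μ] fun θ => env j θ (X j θ n) ((Finset.range n).filter (fun m => X j θ m = X j θ n)).card) →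
    ∀ k : ℕ, 1 ≤ k →
      (((k : EReal) <
          ((∫⁻ ω, (limsup (fun N : ℕ =>
              (((∑ i ∈ Finset.range N, (2 * ω 0 i - 1) : ℝ)) : EReal)) atTop).toENNReal ∂P) : EReal)
          - ((∫⁻ ω, (-(limsup (fun N : ℕ =>
              (((∑ i ∈ Finset.range N, (2 * ω 0 i - 1) : ℝ)) : EReal)) atTop)).toENNReal ∂P) : EReal))
        → ∀ᵐ θ ∂μ, Tendsto (fun n => |X (k-1) θ n|) atTop atTop) ∧
      ((((∫⁻ ω, (limsup (fun N : ℕ =>
              (((∑ i ∈ Finset.range N, (2 * ω 0 i - 1) : ℝ)) : EReal)) atTop).toENNReal ∂P) : EReal)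
          - ((∫⁻ ω, (-(limsup (fun N : ℕ =>
              (((∑ i ∈ Finset.range N, (2 * ω 0 i - 1) : ℝ)) : EReal)) atTop)).toENNReal ∂P) : EReal)
          ≤ (k : EReal))
        → μ {θ | Tendsto (fun n => |X (k-1) θ n|) atTop atTop} = 0)) := by
  open Pool.Agent.Lib.helper1.ERW in
  intro H
  have h01 : ∀ s i, ck1 s i ∈ Set.Icc (0 : ℝ) 1 := fun s i => by
    simp only [ck1, sh]; split_ifs <;> norm_num
  have T : ∀ᵐ ω ∂μ.map (env ck1 0), Tendsto
      (fun N : ℕ => (((∑ i ∈ Finset.range N, (2 * ω 0 i - 1) : ℝ)) : EReal)) atTop (𝓝 0) := by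
    have : ∀ᵐ ω ∂μ.map (env ck1 0), ω 0 ∈ Set.range sh :=
      (ae_map_iff (m_env m_ck1 0).aemeasurable ((Set.countable_range sh).measurableSet.preimage
        (measurable_pi_apply 0))).2 (.of_forall fun θ => ⟨_, rfl⟩)
    filter_upwards [this] with ω ⟨N, h⟩
    refine tendsto_const_nhds.congr' ?_
    filter_upwards [sh_sum N] with n hn
    rw [← h, hn]; rfl
  have e1 : ∫⁻ ω, (limsup (fun N : ℕ => (((∑ i ∈ Finset.range N, (2 * ω 0 i - 1) : ℝ)) : EReal))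
      atTop).toENNReal ∂μ.map (env ck1 0) = 0 := by
    rw [← lintegral_zero]
    exact lintegral_congr_ae (T.mono fun ω h => by simp only [h.limsup_eq]; simp)
  have e2 : ∫⁻ ω, (-(limsup (fun N : ℕ => (((∑ i ∈ Finset.range N, (2 * ω 0 i - 1) : ℝ)) : EReal))
      atTop)).toENNReal ∂μ.map (env ck1 0) = 0 := by
    rw [← lintegral_zero]
    exact lintegral_congr_ae (T.mono fun ω h => by simp only [h.limsup_eq]; simp)
  have W : 0 < volume {s | ∀ i, ck1 s i = 1 / 2} := by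
    refine lt_of_lt_of_le (by simp; norm_num) (measure_mono (s := Set.Ioi
      (⟨1 / 2, by norm_num, by norm_num⟩ : unitInterval)) fun s hs i => ?_)
    have : (1 / 2 : ℝ) < s := hs
    have : Nf s = 0 := Nat.floor_eq_zero.2 (by rw [div_lt_one (by nlinarith)]; nlinarith)
    simp [ck1, sh, this]
  have := (H _ (Measure.isProbabilityMeasure_map (m_env m_ck1 0).aemeasurable) (ae01 m_ck1 h01)
    (iid m_ck1).1 (iid m_ck1).2 (wel m_ck1 W) (T.mono fun ω h => ⟨_, h⟩) (by rw [e2]; simp)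
    (by rw [e1, e2]; simp) Θ μ inferInstance (env ck1 0) (XX ck1) (env ck1) (m_env m_ck1 0) rfl
    (m_XX m_ck1) rfl (fun j θ x n h => if_pos h) (fun j θ x n h => if_neg h) (fun _ _ => rfl)
    XX_step (cond m_ck1 h01) 1 le_rfl).2 (by rw [e1, e2]; simp)
  obtain ⟨θ, h1, h2⟩ := (transient.and (measure_eq_zero_iff_ae_notMem.1 this)).exists
  exact h2 h1

end Pool.Agent.S19634
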