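import Pool.Statements.S19658
import Pool.Agent.Lib.helper1.Uq3

set_option autoImplicit false
open MeasureTheory
open Pool Pool.MP_d2b88b_pr

namespace Pool.Agent.S19658

/-- The negation of the preceding statement: For every connected bounded-degree graph quasi-isometric to Z^d and every p in [0,1], in Bernoulli bond percolation with parameter p, almost surely any two infinite open clusters are equal. -/
theorem result :
    ¬ (∀ (d : ℕ) (V : Type) (G : SimpleGraph V), G.Connected →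
    (∃ D : ℕ, ∀ v : V, (G.neighborSet v).encard ≤ (D : ℕ∞)) →
    (∃ (f : V → (Fin d → ℤ)) (C K : ℕ),
        (∀ x y : V,
          (∑ i, |f x i - f y i|) ≤ (C : ℤ) * (G.dist x y : ℤ) + (K : ℤ) ∧
          (G.dist x y : ℤ) ≤ (C : ℤ) * (∑ i, |f x i - f y i|) + (K : ℤ)) ∧
        ∀ z : Fin d → ℤ, ∃ x : V, (∑ i, |z i - f x i|) ≤ (K : ℤ)) →
    ∀ (p : NNReal) (hp : p ≤ 1),
      ∀ᵐ ω ∂(Measure.infinitePi (fun _ : G.edgeSet => (PMF.bernoulli p hp).toMeasure)),
        ∀ c₁ c₂ : (SimpleGraph.fromEdgeSet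
            {e : Sym2 V | ∃ h : e ∈ G.edgeSet, ω ⟨e, h⟩ = true}).ConnectedComponent,
          c₁.supp.Infinite → c₂.supp.Infinite → c₁ = c₂) := by
  open Pool.Agent.Lib.helper1.Uq in
  intro H
  have hp : (31 / 32 : NNReal) ≤ 1 := by
    rw [div_le_one (by norm_num)]; norm_num
  obtain ⟨m, hm⟩ : ∃ m : ℕ, (31 / 32 : NNReal) ^ m < 1 / 32 :=
    exists_pow_lt_of_lt_one (by norm_num) (by rw [div_lt_one (by norm_num)]; norm_num)
  have e8 : (4 : ENNReal) * ((1 / 32 : NNReal) : ENNReal) = 8⁻¹ := by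
    have : (8⁻¹ : ENNReal) = ((1 / 8 : NNReal) : ENNReal) := by simp
    rw [this, show (4 : ENNReal) = ((4 : NNReal) : ENNReal) by simp, ← ENNReal.coe_mul]
    congr 1
    norm_num
  refine two_clusters (PMF.bernoulli (31 / 32) hp).toMeasure m ?_ ?_
    (H 2 (VV (m + 1)) (GG (m + 1)) GG_conn GG_deg GG_qi (31 / 32) hp)
  · rw [PMF.toMeasure_apply_singleton _ _ (MeasurableSet.singleton _), PMF.bernoulli_apply,
      Bool.cond_false, ← e8]
    have : (1 - 31 / 32 : NNReal) = 1 / 32 := by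
      rw [tsub_eq_iff_eq_add_of_le hp]; norm_num
    rw [this]
  · rw [PMF.toMeasure_apply_singleton _ _ (MeasurableSet.singleton _), PMF.bernoulli_apply,
      Bool.cond_true, ← e8, ← ENNReal.coe_pow]
    gcongr

end Pool.Agent.S19658
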