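import Pool.Statements.S19731
import Pool.Agent.Lib.helper30.TasepMain

set_option autoImplicit false
open Pool Pool.MP_f07634_pr

namespace Pool.Agent.S19731

/-- For the stationary law of the ring TASEP with n distinct species (larger label jumps right at rate 1), the probability of seeing i_1..i_r then k at the first r+1 sites, with k > 1 + max i_a, is 1/n times that of seeing i_1..i_r. -/
theorem result :
    ∀ n : ℕ, ∀ π : Equiv.Perm (Fin n) → ℝ,
      (∀ τ, 0 ≤ π τ) →
      (∑ τ, π τ = 1) →
      (∀ τ : Equiv.Perm (Fin n),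
        π τ * ((Finset.univ.filter (fun j : Fin n => τ (finRotate n j) < τ j)).card : ℝ)
          = ∑ j ∈ Finset.univ.filter (fun j : Fin n => τ j < τ (finRotate n j)),
              π (τ * Equiv.swap j (finRotate n j))) →
      ∀ (r : ℕ) (h : r < n) (i : Fin r → Fin n) (k : Fin n),
        (∀ a : Fin r, (i a : ℕ) + 1 < (k : ℕ)) →
        ∑ τ ∈ Finset.univ.filter (fun τ : Equiv.Perm (Fin n) =>
              (∀ a : Fin r, τ (Fin.castLE h.le a) = i a) ∧ τ ⟨r, h⟩ = k), π τ
          = (1 / (n : ℝ)) * ∑ τ ∈ Finset.univ.filter (fun τ : Equiv.Perm (Fin n) =>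
              ∀ a : Fin r, τ (Fin.castLE h.le a) = i a), π τ := by
  intro n π _ _ hst r h i k hk
  refine Pool.Agent.Lib.Helper30.Tasep.main n π (fun σ => ?_) r h i k hk
  rw [← Finset.sum_filter, ← Finset.sum_filter, ← hst σ, Finset.sum_const, nsmul_eq_mul, mul_comm]

end Pool.Agent.S19731
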