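import Pool.Statements.S19740

set_option autoImplicit false
open scoped Classical
open Pool Pool.MP_f2f003_pr

namespace Pool.Agent.S19740

section PL

variable {α : Type} [DecidableEq α]

noncomputable def P (w : α → ℝ) (l : List α) : ℝ :=
  ∏ t ∈ Finset.range l.length,
    (if 0 < ((l.drop t).map w).sum then (((l.drop t).take 1).map w).sum / ((l.drop t).map w).sum
      else 1 / ((l.drop t).length : ℝ))

noncomputable def perms (s : Finset α) : Finset (List α) := s.toList.permutations.toFinset

theorem mem_perms {s : Finset α} {l : List α} : l ∈ perms s ↔ l.Nodup ∧ l.toFinset = s := by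
  unfold perms
  rw [List.mem_toFinset, List.mem_permutations]
  constructor
  · intro h
    exact ⟨h.nodup_iff.2 s.nodup_toList, by rw [List.toFinset_eq_of_perm _ _ h, s.toList_toFinset]⟩
  · rintro ⟨h1, h2⟩
    exact List.perm_of_nodup_nodup_toFinset_eq h1 s.nodup_toList (by rw [h2, s.toList_toFinset])

theorem sum_perms {s : Finset α} (hs : s.Nonempty) (F : List α → ℝ) :
    ∑ l ∈ perms s, F l = ∑ e ∈ s, ∑ l ∈ perms (s.erase e), F (e :: l) := by
  rw [Finset.sum_sigma']
  symm
  refine Finset.sum_bij (fun p _ => p.1 :: p.2) ?_ ?_ ?_ (fun _ _ => rfl)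
  · rintro ⟨e, l⟩ h
    rw [Finset.mem_sigma, mem_perms] at h
    obtain ⟨he, hl, hl2⟩ := h
    rw [mem_perms, List.nodup_cons, List.toFinset_cons, hl2]
    refine ⟨⟨fun hc => ?_, hl⟩, Finset.insert_erase he⟩
    have := List.mem_toFinset.2 hc
    rw [hl2] at this
    exact Finset.notMem_erase e s this
  · rintro ⟨e, l⟩ _ ⟨e', l'⟩ _ h
    obtain ⟨h1, h2⟩ := List.cons.inj h
    simp only at h1 h2
    subst h1 h2
    rfl
  · intro l hl
    rw [mem_perms] at hl
    cases l with
    | nil =>
      obtain ⟨x, hx⟩ := hs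
      rw [← hl.2] at hx
      simp at hx
    | cons e l =>
      obtain ⟨h1, h2⟩ := hl
      rw [List.nodup_cons] at h1
      rw [List.toFinset_cons] at h2
      refine ⟨⟨e, l⟩, ?_, rfl⟩
      rw [Finset.mem_sigma, mem_perms]
      refine ⟨h2 ▸ Finset.mem_insert_self _ _, h1.2, ?_⟩
      rw [← h2, Finset.erase_insert (fun hc => h1.1 (List.mem_toFinset.1 hc))]

omit [DecidableEq α] in
theorem P_nonneg {w : α → ℝ} (hw : ∀ a, 0 < w a) (l : List α) : 0 ≤ P w l := by
  unfold P
  refine Finset.prod_nonneg fun t _ => ?_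
  split_ifs with h
  · refine div_nonneg (List.sum_nonneg ?_) h.le
    intro x hx
    obtain ⟨a, _, rfl⟩ := List.mem_map.1 hx
    exact (hw a).le
  · positivity

theorem P_cons {w : α → ℝ} (hw : ∀ a, 0 < w a) {s : Finset α} {e : α} (he : e ∈ s) {l : List α}
    (hl : l ∈ perms (s.erase e)) : P w (e :: l) = w e / (∑ a ∈ s, w a) * P w l := by
  rw [mem_perms] at hl
  have h1 : ((e :: l).map w).sum = ∑ a ∈ s, w a := by
    rw [List.map_cons, List.sum_cons, ← List.sum_toFinset w hl.1, hl.2, Finset.add_sum_erase s w he]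
  have h2 : 0 < ∑ a ∈ s, w a := Finset.sum_pos (fun a _ => hw a) ⟨e, he⟩
  unfold P
  rw [List.length_cons, Finset.prod_range_succ', mul_comm]
  simp only [List.drop_succ_cons, List.drop_zero]
  rw [h1, if_pos h2]
  simp

theorem tot_le {w : α → ℝ} (hw : ∀ a, 0 < w a) :
    ∀ (m : ℕ) (s : Finset α), s.card = m → ∑ l ∈ perms s, P w l ≤ 1 := by
  intro m
  induction m with
  | zero =>
    intro s hs
    rw [Finset.card_eq_zero] at hs
    subst hs
    simp [perms, P]
  | succ m ih =>
    intro s hs
    have hne : s.Nonempty := Finset.card_pos.1 (by omega)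
    have h2 : 0 < ∑ a ∈ s, w a := Finset.sum_pos (fun a _ => hw a) hne
    rw [sum_perms hne]
    calc ∑ e ∈ s, ∑ l ∈ perms (s.erase e), P w (e :: l) ≤ ∑ e ∈ s, w e / ∑ a ∈ s, w a := by
          refine Finset.sum_le_sum fun e he => ?_
          rw [Finset.sum_congr rfl fun l hl => P_cons hw he hl, ← Finset.mul_sum]
          exact mul_le_of_le_one_right (div_pos (hw e) h2).le
            (ih _ (by rw [Finset.card_erase_of_mem he]; omega))
      _ = 1 := by rw [← Finset.sum_div, div_self h2.ne']

theorem bad_le {w : α → ℝ} (hw : ∀ a, 0 < w a) (L : α → Prop) {δ : ℝ} (hδ : 0 ≤ δ)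
    (hL : ∀ a b, L a → ¬ L b → w a ≤ δ * w b) :
    ∀ (m : ℕ) (s : Finset α), s.card = m →
      ∑ l ∈ perms s, (if l.Pairwise (fun a b => L a → L b) then 0 else P w l) ≤ (m : ℝ) ^ 2 * δ := by
  intro m
  induction m with
  | zero =>
    intro s hs
    rw [Finset.card_eq_zero] at hs
    subst hs
    simp [perms]
  | succ m ih =>
    intro s hs
    have hne : s.Nonempty := Finset.card_pos.1 (by omega)
    have h2 : 0 < ∑ a ∈ s, w a := Finset.sum_pos (fun a _ => hw a) hne
    rw [sum_perms hne]
    have key : ∀ e ∈ s, ∑ l ∈ perms (s.erase e),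
        (if (e :: l).Pairwise (fun a b => L a → L b) then 0 else P w (e :: l)) ≤
        w e / (∑ a ∈ s, w a) * ((m : ℝ) ^ 2 * δ) + δ := by
      intro e he
      have hc : (s.erase e).card = m := by rw [Finset.card_erase_of_mem he]; omega
      have hq : 0 < w e / ∑ a ∈ s, w a := div_pos (hw e) h2
      have hq2 : 0 ≤ w e / (∑ a ∈ s, w a) * ((m : ℝ) ^ 2 * δ) := by positivity
      by_cases hLe : L e
      · by_cases hall : ∀ b ∈ s, L b
        · rw [Finset.sum_eq_zero]
          · linarith
          · intro l hl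
            rw [if_pos]
            refine List.pairwise_of_forall_mem_list fun a _ b hb _ => hall b ?_
            rcases List.mem_cons.1 hb with h | h
            · rw [h]; exact he
            · rw [mem_perms] at hl
              exact Finset.mem_of_mem_erase (hl.2 ▸ List.mem_toFinset.2 h)
        · push Not at hall
          obtain ⟨b, hb, hLb⟩ := hall
          have h3 : w e / ∑ a ∈ s, w a ≤ δ := by
            rw [div_le_iff₀ h2]
            exact (hL e b hLe hLb).trans (mul_le_mul_of_nonneg_left
              (Finset.single_le_sum (fun a _ => (hw a).le) hb) hδ)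
          have h4 : ∑ l ∈ perms (s.erase e),
              (if (e :: l).Pairwise (fun a b => L a → L b) then 0 else P w (e :: l)) ≤
              ∑ l ∈ perms (s.erase e), w e / (∑ a ∈ s, w a) * P w l := by
            refine Finset.sum_le_sum fun l hl => ?_
            rw [← P_cons hw he hl]
            split_ifs
            · exact P_nonneg hw _
            · exact le_rfl
          rw [← Finset.mul_sum] at h4
          have h5 := mul_le_of_le_one_right hq.le (tot_le hw m _ hc)
          linarith
      · have h4 : ∑ l ∈ perms (s.erase e),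
            (if (e :: l).Pairwise (fun a b => L a → L b) then 0 else P w (e :: l)) =
            w e / (∑ a ∈ s, w a) * ∑ l ∈ perms (s.erase e),
              (if l.Pairwise (fun a b => L a → L b) then 0 else P w l) := by
          rw [Finset.mul_sum]
          refine Finset.sum_congr rfl fun l hl => ?_
          rw [P_cons hw he hl, mul_ite, mul_zero]
          refine if_congr ?_ rfl rfl
          rw [List.pairwise_cons]
          exact ⟨fun h => h.2, fun h => ⟨fun _ _ h' => absurd h' hLe, h⟩⟩
        rw [h4]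
        have h5 := mul_le_mul_of_nonneg_left (ih _ hc) hq.le
        linarith
    refine (Finset.sum_le_sum key).trans ?_
    rw [Finset.sum_add_distrib, ← Finset.sum_mul, ← Finset.sum_div, div_self h2.ne',
      Finset.sum_const, hs, nsmul_eq_mul]
    push_cast
    have : (0 : ℝ) ≤ m * δ := by positivity
    nlinarith

end PL

theorem times_ne {n : ℕ} (S : Finset (Fin n)) (hS : 2 ≤ S.card) (hS' : 2 ≤ Sᶜ.card)
    (l : List (Fin n × Fin n)) (hl : ∀ p : Fin n × Fin n, p.1 < p.2 → p ∈ l)
    (hp : l.Pairwise (fun a b => ¬ (a.1 ∈ S ↔ a.2 ∈ S) → ¬ (b.1 ∈ S ↔ b.2 ∈ S)))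
    (A B : Set ℕ)
    (hA : ∀ t ∈ A, (SimpleGraph.fromRel (fun i j : Fin n => (i, j) ∈ l.take t)).Preconnected)
    (hB : ∀ t, t ∈ B ↔ t ≤ l.length ∧ ∀ v : Fin n, ∃ u,
      (SimpleGraph.fromRel (fun i j : Fin n => (i, j) ∈ l.take t)).Adj v u) :
    sInf A ≠ sInf B := by
  intro h
  set q : Fin n × Fin n → Bool := fun a => decide (a.1 ∈ S ↔ a.2 ∈ S) with hq
  set t0 := (l.takeWhile q).length with ht0
  have htake : l.take t0 = l.takeWhile q := by
    rw [ht0]
    exact (List.prefix_iff_eq_take.1 (List.takeWhile_prefix q)).symm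
  have hin : ∀ p : Fin n × Fin n, p.1 < p.2 → (p.1 ∈ S ↔ p.2 ∈ S) → p ∈ l.take t0 := by
    intro p h1 h2
    rw [htake]
    have h3 := hl p h1
    rw [← List.takeWhile_append_dropWhile (p := q) (l := l), List.mem_append] at h3
    rcases h3 with h3 | h3
    · exact h3
    · exfalso
      have h4 := hp.sublist (List.dropWhile_sublist q)
      cases hd : l.dropWhile q with
      | nil => rw [hd] at h3; exact absurd h3 List.not_mem_nil
      | cons a r =>
        have h5 : q a = false := by
          have := List.head_dropWhile_not q (l := l) (by rw [hd]; exact List.cons_ne_nil _ _)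
          simpa [hd] using this
        rw [hq] at h5
        simp only [decide_eq_false_iff_not] at h5
        rw [hd] at h3 h4
        rcases List.mem_cons.1 h3 with h6 | h6
        · exact h5 (h6 ▸ h2)
        · exact (List.pairwise_cons.1 h4).1 p h6 h5 h2
  have hmate : ∀ v : Fin n, ∃ u, u ≠ v ∧ (v ∈ S ↔ u ∈ S) := by
    intro v
    by_cases hv : v ∈ S
    · obtain ⟨u, hu, hne⟩ := Finset.exists_mem_ne (by omega : 1 < S.card) v
      exact ⟨u, hne, by simp [hu, hv]⟩
    · obtain ⟨u, hu, hne⟩ := Finset.exists_mem_ne (by omega : 1 < Sᶜ.card) v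
      exact ⟨u, hne, by simp [Finset.mem_compl.1 hu, hv]⟩
  have ht0B : t0 ∈ B := by
    rw [hB]
    refine ⟨(List.takeWhile_prefix q).length_le, fun v => ?_⟩
    obtain ⟨u, hne, hu⟩ := hmate v
    refine ⟨u, (SimpleGraph.fromRel_adj _ _ _).2 ⟨hne.symm, ?_⟩⟩
    rcases lt_or_gt_of_ne hne with h1 | h1
    · exact Or.inr (hin (u, v) h1 hu.symm)
    · exact Or.inl (hin (v, u) h1 hu)
  have h1 : sInf B ≤ t0 := Nat.sInf_le ht0B
  have h2 : sInf B ∈ B := Nat.sInf_mem ⟨t0, ht0B⟩
  obtain ⟨a, ha⟩ := Finset.card_pos.1 (by omega : 0 < S.card)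
  obtain ⟨b, hb⟩ := Finset.card_pos.1 (by omega : 0 < Sᶜ.card)
  have h3 : sInf B ≠ 0 := by
    intro h0
    rw [h0, hB] at h2
    obtain ⟨u, hu⟩ := h2.2 a
    simp at hu
  have h4 : sInf A ∈ A := Nat.sInf_mem (by
    by_contra hc
    rw [Set.not_nonempty_iff_eq_empty] at hc
    rw [hc, Nat.sInf_empty] at h
    exact h3 h.symm)
  have h5 : ∀ p ∈ l.take (sInf A), (p.1 ∈ S ↔ p.2 ∈ S) := by
    intro p hp'
    have h6 : p ∈ l.take t0 := (List.take_sublist_take_left (h ▸ h1)).subset hp'
    rw [htake] at h6
    have := List.mem_takeWhile_imp h6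
    rw [hq] at this
    simpa using this
  have h7 : ∀ u v, (SimpleGraph.fromRel (fun i j : Fin n => (i, j) ∈ l.take (sInf A))).Reachable u v →
      (u ∈ S ↔ v ∈ S) := by
    intro u v huv
    rw [SimpleGraph.reachable_iff_reflTransGen] at huv
    induction huv with
    | refl => rfl
    | tail _ hadj ih =>
      rcases ((SimpleGraph.fromRel_adj _ _ _).1 hadj).2 with h8 | h8
      · exact ih.trans (h5 _ h8)
      · exact ih.trans (h5 _ h8).symm
  exact Finset.mem_compl.1 hb ((h7 a b (hA _ h4 a b)).1 ha)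

noncomputable def W (a b : ℕ) : ℝ := if a = b then 1 else (1 / 16) ^ (max a b * max a b)

theorem W_pos (a b : ℕ) : 0 < W a b := by
  unfold W
  split_ifs <;> positivity

theorem W_le (a b : ℕ) : W a b ≤ 1 := by
  unfold W
  split_ifs
  · exact le_rfl
  · exact pow_le_one₀ (by norm_num) (by norm_num)

theorem W_light {k a b c d : ℕ} (ha : a ≤ k) (hb : b ≤ k) (hc : c ≤ k) (hd : d ≤ k)
    (h1 : ¬ (a = k ↔ b = k)) (h2 : c = k ↔ d = k) : W a b ≤ (1 / 16) ^ k * W c d := by
  have hab : a ≠ b := by rintro rfl; exact h1 Iff.rfl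
  have hm : max a b = k := by omega
  unfold W
  rw [if_neg hab, hm]
  split_ifs with h
  · rw [mul_one]
    exact pow_le_pow_of_le_one (by norm_num) (by norm_num) (Nat.le_mul_self k)
  · rw [← pow_add]
    refine pow_le_pow_of_le_one (by norm_num) (by norm_num) ?_
    have h3 : max c d + 1 ≤ k := by omega
    generalize max c d = m at h3 ⊢
    have h4 := Nat.mul_le_mul_left k h3
    have h5 := Nat.mul_le_mul_right m (by omega : m ≤ k)
    nlinarith

noncomputable def half : unitInterval := ⟨1 / 2, by norm_num, by norm_num⟩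

noncomputable def mu : MeasureTheory.Measure ℕ := ProbabilityTheory.geometricMeasure half

instance : MeasureTheory.IsProbabilityMeasure mu :=
  ProbabilityTheory.isProbabilityMeasure_geometricMeasure

theorem mu_single (k : ℕ) : mu.real {k} = (1 / 2) ^ (k + 1) := by
  have h : half ≠ 0 := fun h => by
    have := congrArg Subtype.val h
    norm_num [half] at this
  unfold mu
  rw [ProbabilityTheory.geometricMeasure_real_singleton h]
  norm_num [half, pow_succ]

theorem mu_Iio (k : ℕ) : mu.real (Set.Iio k) = 1 - (1 / 2) ^ k := by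
  rw [← Finset.coe_Iio, ← MeasureTheory.sum_measureReal_singleton, Nat.Iio_eq_range]
  induction k with
  | zero => simp
  | succ k ih => rw [Finset.sum_range_succ, ih, mu_single]; ring

def box {n : ℕ} (k : ℕ) (S : Finset (Fin n)) : Set (Fin n → ℕ) :=
  Set.pi Set.univ fun i => if i ∈ S then {k} else Set.Iio k

theorem box_measure {n : ℕ} (k : ℕ) (S : Finset (Fin n)) (hS : S.card = 2) :
    (MeasureTheory.Measure.pi (fun _ : Fin n => mu)).real (box k S) =
      ((1 / 2) ^ (k + 1)) ^ 2 * (1 - (1 / 2) ^ k) ^ (n - 2) := by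
  unfold box
  rw [MeasureTheory.measureReal_def, MeasureTheory.Measure.pi_pi, ENNReal.toReal_prod]
  have h : ∀ i : Fin n, (mu (if i ∈ S then {k} else Set.Iio k)).toReal =
      if i ∈ S then (1 / 2 : ℝ) ^ (k + 1) else 1 - (1 / 2) ^ k := by
    intro i
    split_ifs
    · exact mu_single k
    · exact mu_Iio k
  simp only [h]
  rw [Finset.prod_ite, Finset.prod_const, Finset.prod_const, Finset.filter_mem_eq_inter,
    Finset.univ_inter, hS, Finset.filter_not, Finset.filter_mem_eq_inter, Finset.univ_inter,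
    Finset.card_sdiff_of_subset (Finset.subset_univ _), hS, Finset.card_univ, Fintype.card_fin]

theorem integral_le {j n : ℕ} (hn : n = 2 ^ (j + 2)) (f : (Fin n → ℕ) → ℝ) (h0 : ∀ x, 0 ≤ f x)
    (h1 : ∀ x, f x ≤ 1)
    (h2 : ∀ S : Finset (Fin n), S.card = 2 → ∀ x ∈ box (j + 3) S, f x ≤ 1 / 2) :
    ∫ x, f x ∂(MeasureTheory.Measure.pi (fun _ : Fin n => mu)) ≤ 1 - 1 / 256 := by
  set T := Finset.powersetCard 2 (Finset.univ : Finset (Fin n)) with hT
  have hint : ∀ S ∈ T, MeasureTheory.Integrable ((box (j + 3) S).indicator (1 : (Fin n → ℕ) → ℝ))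
      (MeasureTheory.Measure.pi (fun _ : Fin n => mu)) := fun S _ =>
    (MeasureTheory.integrable_const (1 : ℝ)).indicator MeasurableSet.of_discrete
  have hle : ∀ x, f x ≤ 1 - 1 / 2 * ∑ S ∈ T, (box (j + 3) S).indicator 1 x := by
    intro x
    by_cases hx : ∃ S ∈ T, x ∈ box (j + 3) S
    · obtain ⟨S, hS, hxS⟩ := hx
      have hchar : ∀ S' : Finset (Fin n), x ∈ box (j + 3) S' → ∀ i, i ∈ S' ↔ x i = j + 3 := by
        intro S' h i
        have := h i (Set.mem_univ i)
        by_cases hi : i ∈ S'
        · simpa [hi] using this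
        · simp only [hi, if_false, Set.mem_Iio] at this
          exact ⟨fun h => absurd h hi, fun h => by omega⟩
      rw [Finset.sum_eq_single S, Set.indicator_of_mem hxS]
      · have := h2 S (Finset.mem_powersetCard.1 hS).2 x hxS
        simp only [Pi.one_apply]
        linarith
      · intro S' _ hne
        refine Set.indicator_of_notMem (fun hc => hne ?_) _
        ext i
        rw [hchar S' hc, hchar S hxS]
      · intro hc
        exact absurd hS hc
    · push Not at hx
      rw [Finset.sum_eq_zero fun S hS => Set.indicator_of_notMem (hx S hS) _]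
      have := h1 x
      linarith
  refine (MeasureTheory.integral_mono_of_nonneg (Filter.Eventually.of_forall h0)
    ((MeasureTheory.integrable_const (1 : ℝ)).sub
      ((MeasureTheory.integrable_finsetSum T hint).const_mul (1 / 2)))
    (Filter.Eventually.of_forall hle)).trans ?_
  simp only [Pi.sub_apply]
  rw [MeasureTheory.integral_sub (MeasureTheory.integrable_const (1 : ℝ))
    ((MeasureTheory.integrable_finsetSum T hint).const_mul (1 / 2)),
    MeasureTheory.integral_const_mul, MeasureTheory.integral_finsetSum T hint]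
  rw [Finset.sum_congr rfl fun S hS => (MeasureTheory.integral_indicator_one
    MeasurableSet.of_discrete).trans (box_measure (j + 3) S (Finset.mem_powersetCard.1 hS).2)]
  rw [Finset.sum_const, Finset.card_powersetCard, Finset.card_univ, Fintype.card_fin,
    nsmul_eq_mul, Nat.cast_choose_two]
  simp only [MeasureTheory.integral_const, MeasureTheory.probReal_univ, smul_eq_mul, mul_one]
  have hnR : (n : ℝ) = 2 ^ (j + 2) := by rw [hn]; push_cast; ring
  have hn4 : (4 : ℝ) ≤ n := by
    rw [hnR, pow_add]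
    have : (1 : ℝ) ≤ 2 ^ j := one_le_pow₀ (by norm_num)
    linarith
  have e1 : ((1 / 2 : ℝ)) ^ (j + 3) = 1 / (2 * n) := by
    rw [hnR, one_div_pow]; ring
  have e2 : ((1 / 2 : ℝ)) ^ (j + 3 + 1) = 1 / (4 * n) := by
    rw [hnR, one_div_pow]; ring
  have hb : (1 : ℝ) / 2 ≤ (1 - 1 / (2 * n)) ^ (n - 2) := by
    have h3 : (-2 : ℝ) ≤ -(1 / (2 * n)) := by
      have : 1 / (2 * (n : ℝ)) ≤ 1 := by rw [div_le_one (by linarith)]; linarith
      linarith
    have h4 := one_add_mul_le_pow h3 (n - 2)
    have h5 : ((n - 2 : ℕ) : ℝ) ≤ n := by exact_mod_cast Nat.sub_le n 2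
    have h6 : ((n - 2 : ℕ) : ℝ) * (1 / (2 * n)) ≤ 1 / 2 := by
      rw [mul_one_div, div_le_iff₀ (by linarith)]
      linarith
    rw [← sub_eq_add_neg] at h4
    linarith
  rw [e1, e2]
  have h7 : (1 : ℝ) / 64 ≤ n * (n - 1) / 2 * (1 / (4 * n)) ^ 2 := by
    rw [show (n : ℝ) * (n - 1) / 2 * (1 / (4 * n)) ^ 2 = (n - 1) / (32 * n) by field_simp; ring,
      le_div_iff₀ (by linarith)]
    linarith
  have h8 := mul_le_mul h7 hb (by norm_num) (by linarith)
  rw [mul_assoc] at h8
  linarith


/-- The negation of the preceding statement: For every connected graphon W on a probability space and every K, in the W-edge-incremental process on n i.i.d. typed vertices, the probability that the first time the graph is K-connected equals the first time its minimum degree is at least K tends to 1. -/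
theorem result :
    ¬ (∀ (Ω : Type) [MeasurableSpace Ω] (μ : MeasureTheory.Measure Ω) [MeasureTheory.IsProbabilityMeasure μ]
    (W : Ω → Ω → ℝ), Measurable (Function.uncurry W) → (∀ a b, W a b = W b a) →
    (∀ a b, 0 ≤ W a b ∧ W a b ≤ 1) →
    (∀ A : Set Ω, MeasurableSet A → 0 < μ A → μ A < 1 →
      0 < ∫ p in A ×ˢ Aᶜ, W p.1 p.2 ∂(μ.prod μ)) →
    ∀ K : ℕ, Filter.Tendsto (fun n : ℕ =>
      ∫ x : Fin n → Ω,
        ∑ l ∈ (((Finset.univ : Finset (Fin n × Fin n)).filter (fun p => p.1 < p.2)).toList.permutations.toFinset.filter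
          (fun l : List (Fin n × Fin n) =>
            sInf {t : ℕ | t ≤ l.length ∧ K < n ∧ ∀ S : Finset (Fin n), S.card < K →
                ((SimpleGraph.fromRel (fun i j : Fin n => (i, j) ∈ l.take t)).induce
                  ((↑S : Set (Fin n))ᶜ)).Connected}
            = sInf {t : ℕ | t ≤ l.length ∧ ∀ v : Fin n,
                K ≤ (SimpleGraph.fromRel (fun i j : Fin n => (i, j) ∈ l.take t)).degree v})),
          ∏ t ∈ Finset.range l.length,
            (if 0 < ((l.drop t).map (fun p => W (x p.1) (x p.2))).sum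
              then (((l.drop t).take 1).map (fun p => W (x p.1) (x p.2))).sum /
                ((l.drop t).map (fun p => W (x p.1) (x p.2))).sum
              else 1 / ((l.drop t).length : ℝ))
        ∂(MeasureTheory.Measure.pi (fun _ : Fin n => μ)))
      Filter.atTop (nhds 1)) := by
  intro h
  have h1 := h ℕ mu W Measurable.of_discrete
    (fun a b => by unfold W; rw [max_comm b a]; exact if_congr eq_comm rfl rfl)
    (fun a b => ⟨(W_pos a b).le, W_le a b⟩)
    (fun A _ hA0 hA1 => by
      rw [MeasureTheory.setIntegral_pos_iff_support_of_nonneg_ae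
        (f := fun p : ℕ × ℕ => W p.1 p.2)
        (Filter.Eventually.of_forall fun p => (W_pos p.1 p.2).le)]
      · have hs : (Function.support fun p : ℕ × ℕ => W p.1 p.2) = Set.univ :=
          Set.eq_univ_of_forall fun p => (W_pos p.1 p.2).ne'
        rw [hs, Set.univ_inter, MeasureTheory.Measure.prod_prod,
          MeasureTheory.prob_compl_eq_one_sub MeasurableSet.of_discrete]
        exact ENNReal.mul_pos hA0.ne' (tsub_pos_of_lt hA1).ne'
      · refine MeasureTheory.Integrable.integrableOn ?_
        refine MeasureTheory.Integrable.of_bound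
          (Measurable.of_discrete).aestronglyMeasurable 1
          (Filter.Eventually.of_forall fun p => ?_)
        rw [Real.norm_eq_abs, abs_of_pos (W_pos _ _)]
        exact W_le _ _) 1
  have h2 := (h1.comp ((tendsto_pow_atTop_atTop_of_one_lt (by norm_num : (1 : ℕ) < 2)).comp
    (Filter.tendsto_add_atTop_nat 2))).eventually (lt_mem_nhds (by norm_num : (1 - 1 / 256 : ℝ) < 1))
  obtain ⟨j, hj⟩ := h2.exists
  refine absurd hj (not_lt.2 (integral_le (j := j) rfl _ (fun x => ?_) (fun x => ?_) (fun S hS x hx => ?_)))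
  · exact Finset.sum_nonneg fun l _ => P_nonneg (fun p : Fin (2 ^ (j + 2)) × Fin (2 ^ (j + 2)) =>
      W_pos (x p.1) (x p.2)) l
  · exact (Finset.sum_le_sum_of_subset_of_nonneg (Finset.filter_subset _ _)
      (fun l _ _ => P_nonneg (fun p : Fin (2 ^ (j + 2)) × Fin (2 ^ (j + 2)) =>
        W_pos (x p.1) (x p.2)) l)).trans
      (tot_le (fun p : Fin (2 ^ (j + 2)) × Fin (2 ^ (j + 2)) => W_pos (x p.1) (x p.2)) _ _ rfl)
  · have hw := fun p : Fin (2 ^ (j + 2)) × Fin (2 ^ (j + 2)) => W_pos (x p.1) (x p.2)
    have hchar : ∀ i, x i ≤ j + 3 ∧ (i ∈ S ↔ x i = j + 3) := by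
      intro i
      have := hx i (Set.mem_univ i)
      by_cases hi : i ∈ S
      · simp only [hi, if_true, Set.mem_singleton_iff] at this
        exact ⟨this.le, fun _ => this, fun _ => hi⟩
      · simp only [hi, if_false, Set.mem_Iio] at this
        exact ⟨this.le, fun h => absurd h hi, fun h => by omega⟩
    have hb := bad_le hw (fun a => ¬ (a.1 ∈ S ↔ a.2 ∈ S)) (δ := (1 / 16) ^ (j + 3)) (by positivity)
      (fun a b ha hb => W_light (hchar _).1 (hchar _).1 (hchar _).1 (hchar _).1
        (by rw [← (hchar _).2, ← (hchar _).2]; exact ha)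
        (by rw [← (hchar _).2, ← (hchar _).2]; exact not_not.1 hb)) _
      ((Finset.univ : Finset (Fin (2 ^ (j + 2)) × Fin (2 ^ (j + 2)))).filter (fun p => p.1 < p.2)) rfl
    have hcard : (((Finset.univ : Finset (Fin (2 ^ (j + 2)) × Fin (2 ^ (j + 2)))).filter
        (fun p => p.1 < p.2)).card : ℝ) ≤ 4 ^ (j + 2) := by
      have := Finset.card_filter_le (Finset.univ : Finset (Fin (2 ^ (j + 2)) × Fin (2 ^ (j + 2))))
        (fun p => p.1 < p.2)
      rw [Finset.card_univ, Fintype.card_prod, Fintype.card_fin, ← mul_pow] at this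
      exact_mod_cast this
    have hb2 : ((((Finset.univ : Finset (Fin (2 ^ (j + 2)) × Fin (2 ^ (j + 2)))).filter
        (fun p => p.1 < p.2)).card : ℝ)) ^ 2 * (1 / 16) ^ (j + 3) ≤ 1 / 2 := by
      refine (mul_le_mul_of_nonneg_right (pow_le_pow_left₀ (by positivity) hcard 2)
        (by positivity)).trans ?_
      rw [← pow_mul, mul_comm (j + 2) 2, pow_mul, pow_succ (1 / 16 : ℝ), ← mul_assoc, ← mul_pow]
      norm_num
    refine le_trans ?_ (hb.trans hb2)
    rw [Finset.sum_filter]
    refine Finset.sum_le_sum fun l hl => ?_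
    split_ifs with hc hp hp
    · exfalso
      have hl' := (mem_perms.1 hl).2
      have h4 : 4 ≤ 2 ^ (j + 2) := by
        rw [pow_add]
        have : 1 ≤ 2 ^ j := Nat.one_le_two_pow
        omega
      refine times_ne S hS.ge (by rw [Finset.card_compl, Fintype.card_fin]; omega) l
        (fun p hp' => List.mem_toFinset.1 (hl' ▸ Finset.mem_filter.2 ⟨Finset.mem_univ _, hp'⟩))
        hp _ _ (fun t ht => ?_) (fun t => ?_) hc
      · have h5 := ht.2.2 ∅ (by simp)
        rw [Finset.coe_empty, Set.compl_empty] at h5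
        exact ((SimpleGraph.induceUnivIso _).connected_iff.1 h5).preconnected
      · refine and_congr Iff.rfl (forall_congr' fun v => ?_)
        exact SimpleGraph.degree_pos_iff_exists_adj _ v
    · exact le_rfl
    · exact le_rfl
    · exact P_nonneg hw l

end Pool.Agent.S19740
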